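import Pool.Agent.Lib.H59M.M1.M002

/-! Merged copies (to shorten the build) of Lib.H21T.M1, Lib.H21T.M3, Lib.H21T.M7, Lib.H21T.M6, Lib.H21T.Z0, Lib.H21T.Z2, Lib.H81A.DY, Lib.H81A.HB, Lib.H21T.V1, Lib.H21T.V2, Lib.H81A.T1, Lib.H81A.T3. -/

-- from Lib.H21T.M1
section

/-!
# Chunk M1 (S/M): the coefficients of the model
-/

namespace Pool.Agent.Lib.H21T

open Finset Pool.Agent.SZW

/-- `|μ| ≤ 1` and the harmonic sum up to `Q / d ≤ Q`. -/
theorem m1 (Q d : ℕ) (hQ : 1 ≤ Q) : |lam Q d| ≤ 1 + Real.log Q := by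
  have h1 : |lam Q d| ≤ ∑ r ∈ Icc 1 (Q / d), 1 / (r : ℝ) := by
    refine (Finset.abs_sum_le_sum_abs _ _).trans (Finset.sum_le_sum fun r hr => ?_)
    have hr0 : (0 : ℝ) < r := by exact_mod_cast (mem_Icc.1 hr).1
    rw [abs_div, abs_of_pos hr0]
    have h2 : |((ArithmeticFunction.moebius r : ℤ) : ℝ)| ≤ 1 := by
      have h3 : |ArithmeticFunction.moebius r| ≤ 1 := ArithmeticFunction.abs_moebius_le_one
      exact_mod_cast h3
    gcongr
  have h2 : ∑ r ∈ Icc 1 (Q / d), 1 / (r : ℝ) ≤ ∑ r ∈ Icc 1 Q, 1 / (r : ℝ) := by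
    apply Finset.sum_le_sum_of_subset_of_nonneg
    · exact Finset.Icc_subset_Icc_right (Nat.div_le_self _ _)
    · intro i _ _
      positivity
  have h3 : ∑ r ∈ Icc 1 Q, 1 / (r : ℝ) ≤ 1 + Real.log Q := by
    have h4 := harmonic_le_one_add_log Q
    rw [harmonic_eq_sum_Icc] at h4
    push_cast at h4
    simpa only [one_div] using h4
  linarith

/-- `|gQ Q m| ≤ (number of divisors of m) (1 + log Q)`. -/
theorem m1_g (Q m : ℕ) (hQ : 1 ≤ Q) (hm : 1 ≤ m) : |gQ Q m| ≤ m.divisors.card * (1 + Real.log Q) := by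
  unfold gQ
  refine (Finset.abs_sum_le_sum_abs _ _).trans ?_
  refine (Finset.sum_le_sum fun d _ => m1 Q d hQ).trans ?_
  rw [Finset.sum_const, nsmul_eq_mul]
  have hlog : 0 ≤ 1 + Real.log Q := by
    have : 0 ≤ Real.log Q := Real.log_natCast_nonneg Q
    linarith
  refine mul_le_mul_of_nonneg_right ?_ hlog
  exact_mod_cast Finset.card_le_card (fun d hd => by
    rw [mem_filter] at hd
    exact Nat.mem_divisors.2 ⟨hd.2, by omega⟩)

/-- `∑_{d ≤ Q, q ∣ d} (1 / d) ∑_{r ≤ Q / d} μ(r) / r = ∑_{n ≤ Q, q ∣ n} (1 / n) ∑_{r ∣ n / q} μ(r)` (`n = d r`; `q ∣ d` means that `r` divides `n / q`), and the inner sum is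
`1` if `n = q` and `0` otherwise. -/
theorem m2 (Q q : ℕ) (hq : 1 ≤ q) :
    ∑ d ∈ (Icc 1 Q).filter (fun d => q ∣ d), lam Q d / d = if q ≤ Q then 1 / (q : ℝ) else 0 := by
  have h1 : ∑ d ∈ (Icc 1 Q).filter (fun d => q ∣ d), lam Q d / d =
      ∑ p ∈ ((Icc 1 Q).filter (fun d => q ∣ d)).sigma (fun d => Icc 1 (Q / d)),
        (ArithmeticFunction.moebius p.2 : ℝ) / (p.1 * p.2) := by
    rw [Finset.sum_sigma]
    refine Finset.sum_congr rfl fun d _ => ?_
    unfold lam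
    rw [Finset.sum_div]
    refine Finset.sum_congr rfl fun r _ => ?_
    rw [div_div, mul_comm (r : ℝ)]
  have h2 : ∑ n ∈ (Icc 1 Q).filter (fun n => q ∣ n), (1 / (n : ℝ)) * ∑ r ∈ (n / q).divisors, (ArithmeticFunction.moebius r : ℝ) =
      ∑ p ∈ ((Icc 1 Q).filter (fun n => q ∣ n)).sigma (fun n => (n / q).divisors),
        (ArithmeticFunction.moebius p.2 : ℝ) / p.1 := by
    rw [Finset.sum_sigma]
    refine Finset.sum_congr rfl fun n _ => ?_
    rw [Finset.mul_sum]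
    refine Finset.sum_congr rfl fun r _ => ?_
    ring
  have h3 : ∑ p ∈ ((Icc 1 Q).filter (fun d => q ∣ d)).sigma (fun d => Icc 1 (Q / d)),
        (ArithmeticFunction.moebius p.2 : ℝ) / (p.1 * p.2) =
      ∑ p ∈ ((Icc 1 Q).filter (fun n => q ∣ n)).sigma (fun n => (n / q).divisors),
        (ArithmeticFunction.moebius p.2 : ℝ) / p.1 := by
    refine Finset.sum_bij' (fun p _ => (⟨p.1 * p.2, p.2⟩ : Σ _ : ℕ, ℕ)) (fun p _ => (⟨p.1 / p.2, p.2⟩ : Σ _ : ℕ, ℕ)) ?_ ?_ ?_ ?_ ?_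
    · rintro ⟨d, r⟩ hp
      simp only [mem_sigma, mem_filter, mem_Icc] at hp ⊢
      obtain ⟨⟨⟨h4, h5⟩, h6⟩, h7, h8⟩ := hp
      have h9 : d * r ≤ Q := by
        rw [mul_comm]
        exact (Nat.le_div_iff_mul_le (by omega)).1 h8
      refine ⟨⟨⟨Nat.mul_pos h4 h7, h9⟩, Dvd.dvd.mul_right h6 r⟩, ?_⟩
      obtain ⟨k, rfl⟩ := h6
      have hk : 0 < k := Nat.pos_of_ne_zero (by rintro rfl; simp at h4)
      rw [mul_assoc, Nat.mul_div_cancel_left _ hq]
      exact Nat.mem_divisors.2 ⟨Dvd.intro_left k rfl, (Nat.mul_pos hk h7).ne'⟩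
    · rintro ⟨n, r⟩ hp
      simp only [mem_sigma, mem_filter, mem_Icc] at hp ⊢
      obtain ⟨⟨⟨h4, h5⟩, h6⟩, h7⟩ := hp
      obtain ⟨k, rfl⟩ := h6
      rw [Nat.mul_div_cancel_left _ hq, Nat.mem_divisors] at h7
      obtain ⟨⟨l, rfl⟩, h8⟩ := h7
      have hr : 0 < r := Nat.pos_of_ne_zero (by rintro rfl; simp at h8)
      have hl : 0 < l := Nat.pos_of_ne_zero (by rintro rfl; simp at h8)
      have h9 : q * (r * l) / r = q * l := by
        rw [show q * (r * l) = r * (q * l) by ring, Nat.mul_div_cancel_left _ hr]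
      rw [h9]
      have h10 : q * l * r ≤ Q := by
        rw [show q * l * r = q * (r * l) by ring]
        exact h5
      have h11 : 0 < q * l := Nat.mul_pos hq hl
      refine ⟨⟨⟨h11, (Nat.le_mul_of_pos_right _ hr).trans h10⟩, Dvd.intro l rfl⟩, hr, ?_⟩
      rw [Nat.le_div_iff_mul_le h11, mul_comm]
      exact h10
    · rintro ⟨d, r⟩ hp
      simp only [mem_sigma, mem_filter, mem_Icc] at hp
      have hr : 0 < r := hp.2.1
      simp only [Nat.mul_div_cancel _ hr]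
    · rintro ⟨n, r⟩ hp
      simp only [mem_sigma, mem_filter, mem_Icc, Nat.mem_divisors] at hp
      obtain ⟨⟨_, h6⟩, h7, _⟩ := hp
      have h8 : r ∣ n := h7.trans (Nat.div_dvd_of_dvd h6)
      simp only [Nat.div_mul_cancel h8]
    · rintro ⟨d, r⟩ _
      simp only
      push_cast
      rfl
  rw [h1, h3, ← h2]
  have h4 : ∀ n ∈ (Icc 1 Q).filter (fun n => q ∣ n), (1 / (n : ℝ)) * ∑ r ∈ (n / q).divisors, (ArithmeticFunction.moebius r : ℝ) =
      if n = q then 1 / (n : ℝ) else 0 := by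
    intro n hn
    rw [mem_filter, mem_Icc] at hn
    obtain ⟨⟨h5, h6⟩, k, rfl⟩ := hn
    have hk : 0 < k := Nat.pos_of_ne_zero (by rintro rfl; simp at h5)
    rw [Nat.mul_div_cancel_left _ hq]
    have h7 : ∑ r ∈ k.divisors, (ArithmeticFunction.moebius r : ℝ) = if k = 1 then 1 else 0 := by
      have h8 : ∑ r ∈ k.divisors, ArithmeticFunction.moebius r = if k = 1 then 1 else 0 := by
        have h9 := congrArg (fun f => f k) ArithmeticFunction.coe_zeta_mul_moebius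
        simp only [ArithmeticFunction.coe_zeta_mul_apply, ArithmeticFunction.one_apply] at h9
        exact h9
      have h10 := congrArg (fun z : ℤ => (z : ℝ)) h8
      push_cast at h10
      exact h10
    rw [h7]
    by_cases hk1 : k = 1
    · subst hk1
      simp
    · rw [if_neg hk1, mul_zero, if_neg]
      intro h
      apply hk1
      have : q * k = q * 1 := by rw [h, mul_one]
      exact Nat.eq_of_mul_eq_mul_left hq this
  rw [Finset.sum_congr rfl h4, Finset.sum_ite_eq']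
  by_cases hqQ : q ≤ Q
  · rw [if_pos hqQ, if_pos]
    exact mem_filter.2 ⟨mem_Icc.2 ⟨hq, hqQ⟩, dvd_refl _⟩
  · rw [if_neg hqQ, if_neg]
    intro h
    exact hqQ (mem_Icc.1 (mem_filter.1 h).1).2

end Pool.Agent.Lib.H21T
end

-- from Lib.H21T.M3
section

/-!
# Chunk M3 (S/M): the model at a rational
-/

namespace Pool.Agent.Lib.H21T

open Finset Pool.Agent.SZW

theorem m3_ceil (x d : ℕ) (hd : 1 ≤ d) : ∃ a : ℕ, x ≤ a * d ∧ a * d < x + d ∧ ∀ j, x ≤ j * d ↔ a ≤ j := by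
  refine ⟨(x + d - 1) / d, ?_, ?_, fun j => ?_⟩
  · have h1 := Nat.lt_div_mul_add (a := x + d - 1) hd
    omega
  · have h1 := Nat.div_mul_le_self (x + d - 1) d
    omega
  · have e1 : (x + d - 1) / d ≤ j ↔ (x + d - 1) / d < j + 1 := Nat.lt_succ_iff.symm
    rw [e1, Nat.div_lt_iff_lt_mul hd, Nat.succ_mul]
    omega

theorem m3_nn (d q : ℕ) (p : ℤ) (hq : 1 ≤ q) (hp : IsCoprime p (q : ℤ)) (h : ¬ q ∣ d) :
    1 / (q : ℝ) ≤ nn ((p : ℝ) / q * d) := by
  have hq0 : (0 : ℝ) < q := by exact_mod_cast hq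
  unfold nn
  generalize round ((p : ℝ) / q * d) = k
  have e1 : (p : ℝ) / q * d - k = ((p * d - k * q : ℤ) : ℝ) / q := by
    push_cast
    field_simp
  rw [e1, abs_div, abs_of_pos hq0]
  refine div_le_div_of_nonneg_right ?_ hq0.le
  have h1 : p * d - k * q ≠ 0 := by
    intro h0
    apply h
    have h2 : (q : ℤ) ∣ p * d := ⟨k, by linarith⟩
    have h3 := hp.symm.dvd_of_dvd_mul_left h2
    exact_mod_cast h3
  have h2 := Int.one_le_abs h1
  exact_mod_cast h2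

theorem m3_par (x H d : ℕ) (hd : 1 ≤ d) : ∃ a c : ℕ, a ≤ c ∧ |((c : ℝ) - a) - (H : ℝ) / d| ≤ 1 ∧
    ∀ f : ℕ → ℂ, ∑ m ∈ (Ico x (x + H)).filter (fun m => d ∣ m), f m = ∑ j ∈ Ico a c, f (j * d) := by
  obtain ⟨a, ha1, ha2, ha3⟩ := m3_ceil x d hd
  obtain ⟨c, hc1, hc2, hc3⟩ := m3_ceil (x + H) d hd
  have hac : a ≤ c := (ha3 c).1 (by omega)
  refine ⟨a, c, hac, ?_, fun f => ?_⟩
  · have hd0 : (0 : ℝ) < d := by exact_mod_cast hd
    have h1 : (x : ℝ) ≤ a * d := by exact_mod_cast ha1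
    have h2 : (a : ℝ) * d < x + d := by exact_mod_cast ha2
    have h3 : (x : ℝ) + H ≤ c * d := by exact_mod_cast hc1
    have h4 : (c : ℝ) * d < x + H + d := by exact_mod_cast hc2
    have e1 : ((c : ℝ) - a) - (H : ℝ) / d = (c * d - a * d - H) / d := by
      field_simp
    rw [e1, abs_div, abs_of_pos hd0, div_le_one hd0, abs_le]
    constructor <;> linarith
  · have e1 : (Ico x (x + H)).filter (fun m => d ∣ m) = (Ico a c).image (fun j => j * d) := by
      ext m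
      rw [mem_filter, mem_Ico, mem_image]
      constructor
      · rintro ⟨⟨h1, h2⟩, j, rfl⟩
        refine ⟨j, ?_, Nat.mul_comm _ _⟩
        rw [mem_Ico]
        refine ⟨(ha3 j).1 (by rwa [Nat.mul_comm]), ?_⟩
        by_contra hcon
        have h3 := (hc3 j).2 (not_lt.1 hcon)
        rw [Nat.mul_comm] at h3
        omega
      · rintro ⟨j, hj, rfl⟩
        rw [mem_Ico] at hj
        refine ⟨⟨(ha3 j).2 hj.1, ?_⟩, Dvd.intro_left _ rfl⟩
        by_contra hcon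
        have h3 := (hc3 j).1 (not_lt.1 hcon)
        omega
    rw [e1, sum_image]
    intro j _ k _ hjk
    exact Nat.eq_of_mul_eq_mul_right hd hjk

/-- If `q ∣ d` all terms are `1` (`ee_int`: `p m / q` is an integer) and the number of multiples of `d` in the interval is `H / d` up to `1`. If not: `m = d j`,
`j` in an interval of integers, geometric sum with `nn (p d / q) ≥ 1 / q` (`geom_bound`): norm at most `q / 2`. -/
theorem m3 (x H d q : ℕ) (p : ℤ) (hd : 1 ≤ d) (hq : 1 ≤ q) (hp : IsCoprime p (q : ℤ)) :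
    ‖∑ m ∈ (Ico x (x + H)).filter (fun m => d ∣ m), ee ((p : ℝ) / q * m) - (((if q ∣ d then (H : ℝ) / d else 0) : ℝ) : ℂ)‖ ≤ q := by
  have hq0 : (0 : ℝ) < q := by exact_mod_cast hq
  have hq1 : (1 : ℝ) ≤ q := by exact_mod_cast hq
  obtain ⟨a, c, hac, hcount, hpar⟩ := m3_par x H d hd
  rw [hpar]
  by_cases hqd : q ∣ d
  · rw [if_pos hqd]
    have h1 : ∀ j ∈ Ico a c, ee ((p : ℝ) / q * ((j * d : ℕ) : ℝ)) = 1 := by
      intro j _
      obtain ⟨k, hk⟩ := hqd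
      have e1 : (p : ℝ) / q * ((j * d : ℕ) : ℝ) = ((p * (j * k : ℕ) : ℤ) : ℝ) := by
        rw [hk]
        push_cast
        field_simp
      rw [e1, ee_int]
    rw [sum_congr rfl h1, sum_const, Nat.card_Ico, nsmul_eq_mul, mul_one]
    have e2 : ((c - a : ℕ) : ℂ) - (((H : ℝ) / d : ℝ) : ℂ) = ((((c : ℝ) - a) - (H : ℝ) / d : ℝ) : ℂ) := by
      rw [Nat.cast_sub hac]
      push_cast
      ring
    rw [e2, Complex.norm_real, Real.norm_eq_abs]
    linarith
  · rw [if_neg hqd]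
    have e1 : ∑ j ∈ Ico a c, ee ((p : ℝ) / q * ((j * d : ℕ) : ℝ)) =
        ∑ n ∈ Ico (a : ℤ) (c : ℤ), ee ((n : ℝ) * ((p : ℝ) / q * d)) := by
      have e9 : Ico (a : ℤ) (c : ℤ) = (Ico a c).image (fun j : ℕ => (j : ℤ)) := by
        ext n
        rw [mem_Ico, mem_image]
        constructor
        · rintro ⟨h1, h2⟩
          obtain ⟨k, hk⟩ := Int.eq_ofNat_of_zero_le (le_trans (Int.natCast_nonneg a) h1)
          refine ⟨k, ?_, hk.symm⟩
          rw [mem_Ico]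
          omega
        · rintro ⟨k, hk, rfl⟩
          rw [mem_Ico] at hk
          omega
      rw [e9, sum_image]
      · refine sum_congr rfl fun j _ => ?_
        congr 1
        push_cast
        ring
      · intro j _ k _ hjk
        have h8 : (j : ℤ) = (k : ℤ) := hjk
        exact_mod_cast h8
    rw [e1, Complex.ofReal_zero, sub_zero]
    have h1 := geom_bound (a : ℤ) (c : ℤ) ((p : ℝ) / q * d)
    have h2 := m3_nn d q p hq hp hqd
    generalize ‖∑ n ∈ Ico (a : ℤ) (c : ℤ), ee ((n : ℝ) * ((p : ℝ) / q * d))‖ = M at h1 ⊢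
    by_contra hcon
    have h3 : (q : ℝ) < M := not_le.1 hcon
    have h4 : (q : ℝ) * (2 * (1 / q)) ≤ M * (2 * nn ((p : ℝ) / q * d)) := by
      refine mul_le_mul h3.le (by linarith) (by positivity) (by linarith)
    have h5 : (q : ℝ) * (2 * (1 / q)) = 2 := by
      field_simp
    linarith

/-- Exchange the sums over `m` and `d`, `m3` for each `d`, `m1` for the coefficients, `m2` for the main term. -/
theorem m4 (x H Q q : ℕ) (p : ℤ) (hQ : 1 ≤ Q) (hq : 1 ≤ q) (hp : IsCoprime p (q : ℤ)) :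
    ‖∑ m ∈ Ico x (x + H), (gQ Q m : ℂ) * ee ((p : ℝ) / q * m) - (((if q ≤ Q then (H : ℝ) / q else 0) : ℝ) : ℂ)‖ ≤
      Q * (1 + Real.log Q) * q := by
  have e1 : ∑ m ∈ Ico x (x + H), (gQ Q m : ℂ) * ee ((p : ℝ) / q * m) =
      ∑ d ∈ Icc 1 Q, (lam Q d : ℂ) * ∑ m ∈ (Ico x (x + H)).filter (fun m => d ∣ m), ee ((p : ℝ) / q * m) := by
    have e2 : ∀ m ∈ Ico x (x + H), (gQ Q m : ℂ) * ee ((p : ℝ) / q * m) =
        ∑ d ∈ Icc 1 Q, (if d ∣ m then (lam Q d : ℂ) * ee ((p : ℝ) / q * m) else 0) := by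
      intro m _
      unfold gQ
      rw [← sum_filter, ← sum_mul, Complex.ofReal_sum]
    rw [sum_congr rfl e2, sum_comm]
    refine sum_congr rfl fun d _ => ?_
    rw [mul_sum, sum_filter]
  have e3 : (((if q ≤ Q then (H : ℝ) / q else 0) : ℝ) : ℂ) =
      ∑ d ∈ Icc 1 Q, (lam Q d : ℂ) * (((if q ∣ d then (H : ℝ) / d else 0) : ℝ) : ℂ) := by
    have e4 : (if q ≤ Q then (H : ℝ) / q else 0) = ∑ d ∈ Icc 1 Q, lam Q d * (if q ∣ d then (H : ℝ) / d else 0) := by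
      have e5 := m2 Q q hq
      have e6 : ∑ d ∈ Icc 1 Q, lam Q d * (if q ∣ d then (H : ℝ) / d else 0) =
          H * ∑ d ∈ (Icc 1 Q).filter (fun d => q ∣ d), lam Q d / d := by
        rw [mul_sum, sum_filter]
        refine sum_congr rfl fun d _ => ?_
        split_ifs
        · ring
        · ring
      rw [e6, e5]
      split_ifs
      · ring
      · ring
    rw [e4, Complex.ofReal_sum]
    refine sum_congr rfl fun d _ => ?_
    rw [Complex.ofReal_mul]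
  rw [e1, e3, ← sum_sub_distrib]
  have h1 : ∀ d ∈ Icc 1 Q, ‖(lam Q d : ℂ) * ∑ m ∈ (Ico x (x + H)).filter (fun m => d ∣ m), ee ((p : ℝ) / q * m) -
      (lam Q d : ℂ) * (((if q ∣ d then (H : ℝ) / d else 0) : ℝ) : ℂ)‖ ≤ (1 + Real.log Q) * q := by
    intro d hd
    rw [← mul_sub, norm_mul, Complex.norm_real, Real.norm_eq_abs]
    exact mul_le_mul (m1 Q d hQ) (m3 x H d q p (mem_Icc.1 hd).1 hq hp) (norm_nonneg _)
      (add_nonneg zero_le_one (Real.log_nonneg (by exact_mod_cast hQ)))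
  refine (norm_sum_le _ _).trans ((sum_le_sum h1).trans (le_of_eq ?_))
  rw [sum_const, nsmul_eq_mul, Nat.card_Icc, Nat.add_sub_cancel]
  ring

end Pool.Agent.Lib.H21T
end

-- from Lib.H21T.M7
section

/-!
# Chunk M7 (S/M): the model away from rationals
-/

namespace Pool.Agent.Lib.H21T

open Finset Pool.Agent.SZW

/-- the sum over the multiples of `d` in an interval -/
theorem m7_mult (x H d : ℕ) (α : ℝ) (hd : 1 ≤ d) :
    ∃ a c : ℤ, ∑ m ∈ (Ico x (x + H)).filter (fun m => d ∣ m), ee (α * m) = ∑ n ∈ Finset.Ico a c, ee (n * (d * α)) := by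
  refine ⟨((x + d - 1) / d : ℕ), ((x + H + d - 1) / d : ℕ), ?_⟩
  symm
  refine Finset.sum_bij (fun (n : ℤ) _ => (d * n).toNat) ?_ ?_ ?_ ?_
  · intro n hn
    rw [Finset.mem_Ico] at hn
    obtain ⟨k, hk⟩ := Int.eq_ofNat_of_zero_le (le_trans (Nat.cast_nonneg _) hn.1)
    subst hk
    have h1 : (x + d - 1) / d ≤ k := by exact_mod_cast hn.1
    have h2 : k < (x + H + d - 1) / d := by exact_mod_cast hn.2
    have h3 : ((d : ℤ) * (k : ℤ)).toNat = d * k := by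
      rw [← Nat.cast_mul]
      exact Int.toNat_natCast _
    show ((d : ℤ) * (k : ℤ)).toNat ∈ _
    rw [h3, mem_filter, mem_Ico]
    refine ⟨⟨?_, ?_⟩, Dvd.intro k rfl⟩
    · have h4 : x + d - 1 < d * (k + 1) := by
        have h5 : (x + d - 1) / d < k + 1 := by omega
        rw [mul_comm]
        exact (Nat.div_lt_iff_lt_mul (by omega)).1 h5
      rw [mul_add, mul_one] at h4
      omega
    · have h4 : (k + 1) * d ≤ x + H + d - 1 := (Nat.le_div_iff_mul_le (by omega)).1 h2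
      rw [add_mul, one_mul, mul_comm] at h4
      omega
  · intro n hn n' hn' h
    rw [Finset.mem_Ico] at hn hn'
    have h0 : 0 ≤ n := le_trans (Nat.cast_nonneg _) hn.1
    have h0' : 0 ≤ n' := le_trans (Nat.cast_nonneg _) hn'.1
    have hd0 : (0 : ℤ) < d := by exact_mod_cast hd
    have h1 : (d : ℤ) * n = d * n' := by
      have h2 : (((d * n).toNat : ℕ) : ℤ) = (((d * n').toNat : ℕ) : ℤ) := congrArg (fun z : ℕ => (z : ℤ)) h
      rwa [Int.toNat_of_nonneg (by positivity), Int.toNat_of_nonneg (by positivity)] at h2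
    exact mul_left_cancel₀ hd0.ne' h1
  · intro m hm
    rw [mem_filter, mem_Ico] at hm
    obtain ⟨⟨h1, h2⟩, k, rfl⟩ := hm
    refine ⟨(k : ℤ), ?_, ?_⟩
    · rw [Finset.mem_Ico]
      constructor
      · have h3 : (x + d - 1) / d < k + 1 := by
          rw [Nat.div_lt_iff_lt_mul (by omega)]
          rw [add_mul, one_mul, mul_comm]
          omega
        exact_mod_cast Nat.lt_succ_iff.1 h3
      · have h3 : k + 1 ≤ (x + H + d - 1) / d := by
          rw [Nat.le_div_iff_mul_le (by omega), add_mul, one_mul, mul_comm]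
          omega
        exact_mod_cast h3
    · rw [← Nat.cast_mul]
      exact Int.toNat_natCast _
  · intro n hn
    rw [Finset.mem_Ico] at hn
    have h0 : 0 ≤ n := le_trans (Nat.cast_nonneg _) hn.1
    have h1 : (((d * n).toNat : ℕ) : ℝ) = (d : ℝ) * n := by
      have h2 : (((d * n).toNat : ℕ) : ℤ) = d * n := Int.toNat_of_nonneg (by positivity)
      exact_mod_cast congrArg (fun z : ℤ => (z : ℝ)) h2
    rw [h1]
    congr 1
    ring

/-- `m = d j` with `j` in an interval of integers; `geom_bound` for `d α`; `m1`. -/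
theorem m7 (x H Q : ℕ) (α c : ℝ) (hQ : 1 ≤ Q) (hc : 0 < c) (hα : ∀ d : ℕ, 1 ≤ d → d ≤ Q → c ≤ nn (d * α)) :
    ‖∑ m ∈ Ico x (x + H), (gQ Q m : ℂ) * ee (α * m)‖ ≤ Q * (1 + Real.log Q) / (2 * c) := by
  have h1 : ∑ m ∈ Ico x (x + H), (gQ Q m : ℂ) * ee (α * m) =
      ∑ d ∈ Icc 1 Q, (lam Q d : ℂ) * ∑ m ∈ (Ico x (x + H)).filter (fun m => d ∣ m), ee (α * m) := by
    simp only [gQ, Finset.sum_filter, Complex.ofReal_sum, Finset.sum_mul, Finset.mul_sum]
    rw [Finset.sum_comm]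
    refine Finset.sum_congr rfl fun d _ => Finset.sum_congr rfl fun m _ => ?_
    by_cases h : d ∣ m
    · rw [if_pos h, if_pos h]
    · rw [if_neg h, if_neg h, Complex.ofReal_zero, zero_mul, mul_zero]
  rw [h1]
  have hlog : 0 ≤ 1 + Real.log Q := by
    have : 0 ≤ Real.log Q := Real.log_natCast_nonneg Q
    linarith
  have h2 : ∀ d ∈ Icc 1 Q, ‖(lam Q d : ℂ) * ∑ m ∈ (Ico x (x + H)).filter (fun m => d ∣ m), ee (α * m)‖ ≤
      (1 + Real.log Q) * (1 / (2 * c)) := by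
    intro d hd
    rw [mem_Icc] at hd
    rw [norm_mul]
    refine mul_le_mul ?_ ?_ (norm_nonneg _) hlog
    · rw [Complex.norm_real, Real.norm_eq_abs]
      exact m1 Q d hQ
    · obtain ⟨a, b, hab⟩ := m7_mult x H d α hd.1
      rw [hab]
      have h3 := geom_bound a b (d * α)
      have h4 := hα d hd.1 hd.2
      rw [le_div_iff₀ (by positivity)]
      refine le_trans ?_ h3
      exact mul_le_mul_of_nonneg_left (by linarith) (norm_nonneg _)
  refine (norm_sum_le _ _).trans ((Finset.sum_le_sum h2).trans ?_)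
  rw [Finset.sum_const, Nat.card_Icc, nsmul_eq_mul]
  apply le_of_eq
  push_cast [Nat.add_sub_cancel]
  ring

end Pool.Agent.Lib.H21T
end

-- from Lib.H21T.M6
section

/-!
# Chunk M6 (S): freezing
-/

namespace Pool.Agent.Lib.H21T

open Finset Pool.Agent.SZW

theorem m6_ee (s t : ℝ) : ‖ee s - ee t‖ ≤ 2 * Real.pi * |s - t| := by
  have h1 : ee s - ee t = ee t * (ee (s - t) - 1) := by
    rw [mul_sub, ← ee_add, mul_one]
    congr 2
    ring
  rw [h1, norm_mul, norm_ee, one_mul]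
  have h2 : ee (s - t) = Complex.exp (Complex.I * ((2 * Real.pi * (s - t) : ℝ) : ℂ)) := by
    unfold ee
    congr 1
    push_cast
    ring
  rw [h2]
  refine Real.norm_exp_I_mul_ofReal_sub_one_le.trans (le_of_eq ?_)
  rw [Real.norm_eq_abs, abs_mul, abs_of_pos (by positivity : (0 : ℝ) < 2 * Real.pi)]

theorem m6_freeze (x H : ℕ) (θ : ℝ) (m : ℕ) (h1 : x ≤ m) (h2 : m < x + H) :
    ‖ee (θ * m) - ee (θ * x)‖ ≤ 2 * Real.pi * |θ| * H := by
  refine (m6_ee _ _).trans ?_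
  have e1 : θ * (m : ℝ) - θ * x = θ * ((m : ℝ) - x) := by ring
  rw [e1, abs_mul]
  have h3 : |(m : ℝ) - x| ≤ H := by
    have h4 : (x : ℝ) ≤ m := by exact_mod_cast h1
    have h5 : (m : ℝ) < x + H := by exact_mod_cast h2
    rw [abs_le]
    constructor <;> linarith [Nat.cast_nonneg (α := ℝ) H]
  have h4 : |θ| * |(m : ℝ) - x| ≤ |θ| * H := mul_le_mul_of_nonneg_left h3 (abs_nonneg _)
  calc 2 * Real.pi * (|θ| * |(m : ℝ) - x|) ≤ 2 * Real.pi * (|θ| * H) :=
        mul_le_mul_of_nonneg_left h4 (by positivity)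
    _ = 2 * Real.pi * |θ| * H := by ring

/-- `‖ee (θ m) - ee (θ x)‖ ≤ 2 π |θ| H` for `x ≤ m < x + H`; `ee ((β + θ) m) = ee (β m) ee (θ m)`; `|l m - L| ≤ ε`, `|g m| ≤ B`, `|L| ≤ 1`. -/
theorem m6 (x H : ℕ) (β θ L ε B : ℝ) (l g : ℕ → ℝ) (hL : |L| ≤ 1) (hε : 0 ≤ ε) (hB : 0 ≤ B)
    (hl : ∀ m, x ≤ m → m < x + H → |l m - L| ≤ ε) (hg : ∀ m, x ≤ m → m < x + H → |g m| ≤ B) :
    ‖∑ m ∈ Ico x (x + H), ((l m * g m : ℝ) : ℂ) * ee ((β + θ) * m) -
      (L : ℂ) * ee (θ * x) * ∑ m ∈ Ico x (x + H), (g m : ℂ) * ee (β * m)‖ ≤ H * B * (ε + 2 * Real.pi * |θ| * H) := by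
  rw [mul_sum, ← sum_sub_distrib]
  have h1 : ∀ m ∈ Ico x (x + H), ‖((l m * g m : ℝ) : ℂ) * ee ((β + θ) * m) -
      (L : ℂ) * ee (θ * x) * ((g m : ℂ) * ee (β * m))‖ ≤ B * (ε + 2 * Real.pi * |θ| * H) := by
    intro m hm
    rw [mem_Ico] at hm
    have e1 : ((l m * g m : ℝ) : ℂ) * ee ((β + θ) * m) - (L : ℂ) * ee (θ * x) * ((g m : ℂ) * ee (β * m)) =
        (g m : ℂ) * ee (β * m) * (((l m - L : ℝ) : ℂ) * ee (θ * m) + (L : ℂ) * (ee (θ * m) - ee (θ * x))) := by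
      have e2 : ee ((β + θ) * m) = ee (β * m) * ee (θ * m) := by
        rw [← ee_add]
        congr 1
        ring
      rw [e2]
      push_cast
      ring
    rw [e1, norm_mul, norm_mul, norm_ee, mul_one, Complex.norm_real, Real.norm_eq_abs]
    have h2 : ‖((l m - L : ℝ) : ℂ) * ee (θ * m) + (L : ℂ) * (ee (θ * m) - ee (θ * x))‖ ≤
        ε + 2 * Real.pi * |θ| * H := by
      refine (norm_add_le _ _).trans (add_le_add ?_ ?_)
      · rw [norm_mul, norm_ee, mul_one, Complex.norm_real, Real.norm_eq_abs]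
        exact hl m hm.1 hm.2
      · rw [norm_mul, Complex.norm_real, Real.norm_eq_abs]
        calc |L| * ‖ee (θ * m) - ee (θ * x)‖ ≤ 1 * (2 * Real.pi * |θ| * H) :=
              mul_le_mul hL (m6_freeze x H θ m hm.1 hm.2) (norm_nonneg _) zero_le_one
          _ = 2 * Real.pi * |θ| * H := one_mul _
    exact mul_le_mul (hg m hm.1 hm.2) h2 (norm_nonneg _) hB
  refine (norm_sum_le _ _).trans ((sum_le_sum h1).trans (le_of_eq ?_))
  rw [sum_const, nsmul_eq_mul, Nat.card_Ico, Nat.add_sub_cancel_left]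
  ring

/-- The same for the pairs: `‖ee (θ a b) - ee (θ x)‖ ≤ 2 π |θ| H`. -/
theorem m6_SR (A1 A2 x H : ℕ) (hA : 1 ≤ A1) (β θ : ℝ) :
    ‖SR (β + θ) A1 A2 x H - ee (θ * x) * SR β A1 A2 x H‖ ≤ (Rg A1 A2 x H).card * (2 * Real.pi * |θ| * H) := by
  unfold SR
  rw [mul_sum, ← sum_sub_distrib]
  have h1 : ∀ p ∈ Rg A1 A2 x H, ‖ee ((β + θ) * ((p.1 : ℝ) * p.2)) - ee (θ * x) * ee (β * ((p.1 : ℝ) * p.2))‖ ≤
      2 * Real.pi * |θ| * H := by
    intro p hp
    obtain ⟨_, _, h3, h4⟩ := (mem_Rg hA).1 hp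
    have e1 : ee ((β + θ) * ((p.1 : ℝ) * p.2)) - ee (θ * x) * ee (β * ((p.1 : ℝ) * p.2)) =
        ee (β * ((p.1 : ℝ) * p.2)) * (ee (θ * ((p.1 * p.2 : ℕ) : ℝ)) - ee (θ * x)) := by
      have e2 : ee ((β + θ) * ((p.1 : ℝ) * p.2)) = ee (β * ((p.1 : ℝ) * p.2)) * ee (θ * ((p.1 * p.2 : ℕ) : ℝ)) := by
        rw [← ee_add]
        congr 1
        push_cast
        ring
      rw [e2]
      ring
    rw [e1, norm_mul, norm_ee, one_mul]
    exact m6_freeze x H θ _ h3 h4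
  refine (norm_sum_le _ _).trans ((sum_le_sum h1).trans (le_of_eq ?_))
  rw [sum_const, nsmul_eq_mul]

end Pool.Agent.Lib.H21T
end

-- from Lib.H21T.Z0
section

/-!
# Chunk Z0 (S): symmetry and vanishing outside
-/

namespace Pool.Agent.Lib.H21T

open Finset Pool.Agent.SZW

theorem dbox_symm (A1 A2 B1 B2 m : ℕ) : dbox A1 A2 B1 B2 m = dbox B1 B2 A1 A2 m := by
  unfold dbox
  refine Finset.card_bij (fun p _ => p.swap) ?_ ?_ ?_
  · intro p hp
    rw [mem_filter, mem_product] at hp ⊢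
    refine ⟨⟨hp.1.2, hp.1.1⟩, ?_⟩
    rw [← hp.2]
    exact Nat.mul_comm _ _
  · intro p _ q _ h
    exact Prod.swap_injective h
  · intro p hp
    refine ⟨p.swap, ?_, Prod.swap_swap p⟩
    rw [mem_filter, mem_product] at hp ⊢
    refine ⟨⟨hp.1.2, hp.1.1⟩, ?_⟩
    rw [← hp.2]
    exact Nat.mul_comm _ _

theorem z0_aux (a a' b b' t : ℝ) : min a (t - b) - max a' (t - b') = min b' (t - a') - max b (t - a) := by
  rw [min_def, max_def, min_def, max_def]
  split_ifs <;> linarith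

theorem z0_pos {A B m : ℕ} (hA : 1 ≤ A) (hB : 1 ≤ B) (h : m < A * B) : Real.log m ≤ Real.log A + Real.log B := by
  have hA0 : (A : ℝ) ≠ 0 := by
    have : (1 : ℝ) ≤ A := by exact_mod_cast hA
    positivity
  have hB0 : (B : ℝ) ≠ 0 := by
    have : (1 : ℝ) ≤ B := by exact_mod_cast hB
    positivity
  rw [← Real.log_mul hA0 hB0]
  rcases Nat.eq_zero_or_pos m with hm | hm
  · rw [hm, Nat.cast_zero, Real.log_zero]
    refine Real.log_nonneg ?_
    have : 1 ≤ A * B := Nat.mul_pos hA hB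
    exact_mod_cast this
  · refine Real.log_le_log (by exact_mod_cast hm) ?_
    exact_mod_cast h.le

/-- `min (log A2) (t - log B1) = t - max (t - log A2) (log B1)`, and so on (`t = log m`). -/
theorem lbox_symm (A1 A2 B1 B2 m : ℕ) : lbox A1 A2 B1 B2 m = lbox B1 B2 A1 A2 m := by
  unfold lbox
  rw [z0_aux]

theorem Mbox_symm (Q A1 A2 B1 B2 m : ℕ) : Mbox Q A1 A2 B1 B2 m = Mbox Q B1 B2 A1 A2 m := by
  unfold Mbox
  rw [lbox_symm]

/-- If `m < A1 B1` there are no pairs, and `min (..) - max (..) ≤ (log m - log B1) - log A1 ≤ 0` (also for `m = 0`, `log 0 = 0`). -/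
theorem z0_low {A1 A2 B1 B2 m : ℕ} (hA : 1 ≤ A1) (hB : 1 ≤ B1) (h : m < A1 * B1) : dbox A1 A2 B1 B2 m = 0 ∧ lbox A1 A2 B1 B2 m = 0 := by
  constructor
  · unfold dbox
    rw [card_eq_zero, filter_eq_empty_iff]
    intro p hp hpm
    rw [mem_product, mem_Ico, mem_Ico] at hp
    have h1 : A1 * B1 ≤ p.1 * p.2 := Nat.mul_le_mul hp.1.1 hp.2.1
    omega
  · unfold lbox
    refine max_eq_left ?_
    have h1 := z0_pos hA hB h
    have h2 := min_le_right (Real.log A2) (Real.log m - Real.log B1)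
    have h3 := le_max_left (Real.log A1) (Real.log m - Real.log B2)
    linarith

/-- If `m ≥ A2 B2` there are no pairs, and `min (..) - max (..) ≤ log A2 - (log m - log B2) ≤ 0`. -/
theorem z0_high {A1 A2 B1 B2 m : ℕ} (hA : 1 ≤ A2) (hB : 1 ≤ B2) (h : A2 * B2 ≤ m) : dbox A1 A2 B1 B2 m = 0 ∧ lbox A1 A2 B1 B2 m = 0 := by
  constructor
  · unfold dbox
    rw [card_eq_zero, filter_eq_empty_iff]
    intro p hp hpm
    rw [mem_product, mem_Ico, mem_Ico] at hp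
    have h1 : p.1 * p.2 < A2 * B2 := Nat.mul_lt_mul'' hp.1.2 hp.2.2
    omega
  · unfold lbox
    refine max_eq_left ?_
    have hA0 : (0 : ℝ) < A2 := by exact_mod_cast hA
    have hB0 : (0 : ℝ) < B2 := by exact_mod_cast hB
    have h1 : Real.log A2 + Real.log B2 ≤ Real.log m := by
      rw [← Real.log_mul hA0.ne' hB0.ne']
      refine Real.log_le_log (mul_pos hA0 hB0) ?_
      exact_mod_cast h
    have h2 := min_le_left (Real.log A2) (Real.log m - Real.log B1)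
    have h3 := le_max_right (Real.log A1) (Real.log m - Real.log B2)
    linarith

end Pool.Agent.Lib.H21T
end

-- from Lib.H21T.Z2
section

/-!
# Chunk Z2 (S/M): the logarithmic length is almost constant
-/

namespace Pool.Agent.Lib.H21T

open Finset Pool.Agent.SZW

theorem z2_add {x h : ℝ} (hx : 0 < x) (hh : 0 ≤ h) : Real.log (x + h) ≤ Real.log x + h / x := by
  have h1 : x + h = x * (1 + h / x) := by field_simp
  have h2 : 0 ≤ h / x := by positivity
  rw [h1, Real.log_mul hx.ne' (by positivity)]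
  have h3 := Real.log_le_sub_one_of_pos (show 0 < 1 + h / x by positivity)
  linarith

theorem z2_log {x m B H : ℕ} (hB : 1 ≤ B) (hx : 1 ≤ x) (h1 : x ≤ m) (h2 : m < x + H) :
    |(Real.log m - Real.log B) - Real.log ((x / B + 1 : ℕ) : ℝ)| ≤ (B : ℝ) / x + H / x := by
  have hBr : (0 : ℝ) < B := by exact_mod_cast hB
  have hxr : (0 : ℝ) < x := by exact_mod_cast hx
  have hf : (0 : ℝ) < ((x / B + 1 : ℕ) : ℝ) := by positivity
  have a1 : (x : ℝ) ≤ ((x / B + 1 : ℕ) : ℝ) * B := by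
    have := (Nat.div_lt_iff_lt_mul hB).1 (Nat.lt_succ_self (x / B))
    exact_mod_cast this.le
  have a2 : ((x / B + 1 : ℕ) : ℝ) * B ≤ x + B := by
    have h3 : x / B * B ≤ x := Nat.div_mul_le_self x B
    have h4 : (x / B + 1) * B ≤ x + B := by
      rw [add_mul, one_mul]
      omega
    exact_mod_cast h4
  have a3 : Real.log x ≤ Real.log ((x / B + 1 : ℕ) : ℝ) + Real.log B := by
    rw [← Real.log_mul hf.ne' hBr.ne']
    exact Real.log_le_log hxr a1
  have a4 : Real.log ((x / B + 1 : ℕ) : ℝ) + Real.log B ≤ Real.log x + B / x := by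
    rw [← Real.log_mul hf.ne' hBr.ne']
    exact (Real.log_le_log (by positivity) a2).trans (z2_add hxr hBr.le)
  have a5 : Real.log x ≤ Real.log m := Real.log_le_log hxr (by exact_mod_cast h1)
  have a6 : Real.log m ≤ Real.log x + H / x := by
    refine (Real.log_le_log (by exact_mod_cast (lt_of_lt_of_le hx h1)) ?_).trans (z2_add hxr (Nat.cast_nonneg H))
    exact_mod_cast h2.le
  have a7 : 0 ≤ (B : ℝ) / x := by positivity
  have a8 : 0 ≤ (H : ℝ) / x := by positivity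
  rw [abs_le]
  constructor <;> linarith

/-- `log` is monotone, so `log (max A1 (x / B2 + 1)) = max (log A1) (log (⌊x / B2⌋ + 1))`, the same for `min`; `max 0`, `min`, `max` are 1-Lipschitz. For `y = x / B2 ≥ A1 / 4`:
`0 ≤ log (⌊y⌋ + 1) - log y ≤ 1 / y ≤ 4 / A1`; for `y = x / B1 ≥ A1 / 2`: `≤ 2 / A1`; `0 ≤ log m - log x ≤ H / x ≤ 6 / A1` (`x ≥ A1 B1 / 2`, `A1 ≤ B1`, `H ≤ 3 A1`). Total at most
`(4 + 6 + 2 + 6) / A1`. -/
theorem z2 (A1 A2 B1 B2 x H m : ℕ) (hA : 8 ≤ A1) (hAB : A1 ≤ B1) (hA2 : A1 ≤ A2) (hB2 : B1 ≤ B2) (hB2' : B2 ≤ 2 * B1) (hx : A1 * B1 ≤ 2 * x)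
    (hH : H ≤ 3 * A1) (h1 : x ≤ m) (h2 : m < x + H) :
    |lbox A1 A2 B1 B2 m - max 0 (Real.log (min A2 (x / B1 + 1) : ℕ) - Real.log (max A1 (x / B2 + 1) : ℕ))| ≤ 24 / A1 := by
  have hxpos : 1 ≤ x := by
    have h3 : 1 * 1 ≤ A1 * B1 := Nat.mul_le_mul (by omega) (by omega)
    omega
  have hxr : (0 : ℝ) < x := by exact_mod_cast hxpos
  have hAr : (0 : ℝ) < A1 := by
    have : 0 < A1 := by omega
    exact_mod_cast this
  have hmax : Real.log ((max A1 (x / B2 + 1) : ℕ) : ℝ) = max (Real.log A1) (Real.log ((x / B2 + 1 : ℕ) : ℝ)) := by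
    rcases le_total A1 (x / B2 + 1) with h | h
    · rw [max_eq_right h, max_eq_right]
      exact Real.log_le_log hAr (by exact_mod_cast h)
    · rw [max_eq_left h, max_eq_left]
      exact Real.log_le_log (by positivity) (by exact_mod_cast h)
  have hA2r : (0 : ℝ) < A2 := by
    have : 0 < A2 := by omega
    exact_mod_cast this
  have hmin : Real.log ((min A2 (x / B1 + 1) : ℕ) : ℝ) = min (Real.log A2) (Real.log ((x / B1 + 1 : ℕ) : ℝ)) := by
    rcases le_total A2 (x / B1 + 1) with h | h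
    · rw [min_eq_left h, min_eq_left]
      exact Real.log_le_log hA2r (by exact_mod_cast h)
    · rw [min_eq_right h, min_eq_right]
      exact Real.log_le_log (by positivity) (by exact_mod_cast h)
  rw [hmax, hmin]
  have e1 := z2_log (B := B1) (by omega) hxpos h1 h2
  have e2 := z2_log (B := B2) (by omega) hxpos h1 h2
  have hxAB : (A1 : ℝ) * B1 ≤ 2 * x := by exact_mod_cast hx
  have hABr : (A1 : ℝ) ≤ B1 := by exact_mod_cast hAB
  have hB2r : (B2 : ℝ) ≤ 2 * B1 := by exact_mod_cast hB2'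
  have hHr : (H : ℝ) ≤ 3 * A1 := by exact_mod_cast hH
  have f1 : (B1 : ℝ) / x ≤ 2 / A1 := by
    rw [div_le_div_iff₀ hxr hAr]
    linarith
  have f2 : (B2 : ℝ) / x ≤ 4 / A1 := by
    rw [div_le_div_iff₀ hxr hAr]
    nlinarith
  have f3 : (H : ℝ) / x ≤ 6 / A1 := by
    rw [div_le_div_iff₀ hxr hAr]
    have h3 : (H : ℝ) * A1 ≤ 3 * A1 * B1 := mul_le_mul hHr hABr hAr.le (by positivity)
    linarith
  have g1 : |min (Real.log A2) (Real.log m - Real.log B1) - min (Real.log A2) (Real.log ((x / B1 + 1 : ℕ) : ℝ))| ≤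
      |(Real.log m - Real.log B1) - Real.log ((x / B1 + 1 : ℕ) : ℝ)| := by
    have h3 := abs_min_sub_min_le_max (Real.log A2) (Real.log m - Real.log B1) (Real.log A2) (Real.log ((x / B1 + 1 : ℕ) : ℝ))
    rw [sub_self, abs_zero, max_eq_right (abs_nonneg _)] at h3
    exact h3
  have g2 : |max (Real.log A1) (Real.log m - Real.log B2) - max (Real.log A1) (Real.log ((x / B2 + 1 : ℕ) : ℝ))| ≤
      |(Real.log m - Real.log B2) - Real.log ((x / B2 + 1 : ℕ) : ℝ)| := by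
    have h3 := abs_max_sub_max_le_max (Real.log A1) (Real.log m - Real.log B2) (Real.log A1) (Real.log ((x / B2 + 1 : ℕ) : ℝ))
    refine h3.trans (max_le ?_ le_rfl)
    rw [sub_self, abs_zero]
    exact abs_nonneg _
  unfold lbox
  set a := min (Real.log A2) (Real.log m - Real.log B1) with ha
  set a' := min (Real.log A2) (Real.log ((x / B1 + 1 : ℕ) : ℝ)) with ha'
  set b := max (Real.log A1) (Real.log m - Real.log B2) with hb
  set b' := max (Real.log A1) (Real.log ((x / B2 + 1 : ℕ) : ℝ)) with hb'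
  have g3 : |max 0 (a - b) - max 0 (a' - b')| ≤ |(a - b) - (a' - b')| := by
    refine (abs_max_sub_max_le_max 0 (a - b) 0 (a' - b')).trans (max_le ?_ le_rfl)
    rw [sub_self, abs_zero]
    exact abs_nonneg _
  have g4 : |(a - b) - (a' - b')| ≤ |a - a'| + |b - b'| := by
    have h3 : (a - b) - (a' - b') = (a - a') - (b - b') := by ring
    rw [h3]
    exact abs_sub _ _
  have f4 : (2 : ℝ) / A1 + 6 / A1 + (4 / A1 + 6 / A1) ≤ 24 / A1 := by
    rw [← add_div, ← add_div, ← add_div, div_le_div_iff_of_pos_right hAr]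
    norm_num
  linarith

end Pool.Agent.Lib.H21T
end

-- from Lib.H81A.DY
section

/-!
# H81A, chunk DY (M): dyadic decomposition of a product
-/

namespace Pool.Agent.Lib.H81A

open Finset ArithmeticFunction

theorem dy_sum (f : ArithmeticFunction ℝ) (L n : ℕ) (hn : n < 2 ^ L) : f n = (∑ k ∈ range L, dy k f) n := by
  have hs : (∑ k ∈ range L, dy k f) n = ∑ k ∈ range L, dy k f n := by
    induction L with
    | zero => simp
    | succ L ih =>
      clear ih hn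
      induction (L + 1) with
      | zero => simp
      | succ M ih => rw [Finset.sum_range_succ, Finset.sum_range_succ, ArithmeticFunction.add_apply, ih]
  rw [hs]
  rcases Nat.eq_zero_or_pos n with rfl | hpos
  · simp
  have hlog : Nat.log 2 n < L := Nat.log_lt_of_lt_pow hpos.ne' hn
  rw [Finset.sum_eq_single_of_mem (Nat.log 2 n) (mem_range.2 hlog)]
  · rw [dy_apply, if_pos ⟨Nat.pow_log_le_self 2 hpos.ne', Nat.lt_pow_succ_log_self (by norm_num) n⟩]
  · intro k _ hk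
    rw [dy_apply, if_neg]
    rintro ⟨h1, h2⟩
    apply hk
    exact ((Nat.log_eq_iff (Or.inr ⟨by norm_num, hpos.ne'⟩)).2 ⟨h1, h2⟩).symm

theorem dy_agree {ι : Type} (s : Finset ι) (F G : ι → ArithmeticFunction ℝ) (M : ℕ) (h : ∀ i ∈ s, ∀ n < M, F i n = G i n) :
    ∀ n < M, (∏ i ∈ s, F i) n = (∏ i ∈ s, G i) n := by
  classical
  induction s using Finset.induction_on with
  | empty => intro n _; simp
  | insert a s ha ih =>
    intro n hn
    rw [Finset.prod_insert ha, Finset.prod_insert ha, mul_apply, mul_apply]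
    refine Finset.sum_congr rfl fun x hx => ?_
    rw [Nat.mem_divisorsAntidiagonal] at hx
    have hpos : 0 < n := Nat.pos_of_ne_zero hx.2
    have h1 : x.1 ≤ n := Nat.le_of_dvd hpos ⟨x.2, hx.1.symm⟩
    have h2 : x.2 ≤ n := Nat.le_of_dvd hpos ⟨x.1, by rw [mul_comm]; exact hx.1.symm⟩
    rw [h a (Finset.mem_insert_self a s) x.1 (lt_of_le_of_lt h1 hn),
      ih (fun i hi => h i (Finset.mem_insert_of_mem hi)) x.2 (lt_of_le_of_lt h2 hn)]

theorem dy_sum_apply {κ : Type} (s : Finset κ) (f : κ → ArithmeticFunction ℝ) (m : ℕ) : (∑ k ∈ s, f k) m = ∑ k ∈ s, f k m := by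
  classical
  induction s using Finset.induction_on with
  | empty => simp
  | insert a s ha ih => rw [Finset.sum_insert ha, Finset.sum_insert ha, ArithmeticFunction.add_apply, ih]

/-- PROOF. For `n < 2 ^ L`: `F i n = ∑ k ∈ range L, dy k (F i) n` (`dy_apply`; for `n ≥ 1` exactly one `k`, namely `Nat.log 2 n`; for `n = 0` both sides are `0`). Two families of arithmetic functions which agree on `n < M` have products which agree on
`n < M` (induction over the finset; `ArithmeticFunction.mul_apply`, divisors of `m` are `≤ m`). Then `Finset.prod_univ_sum`. -/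
theorem dyadic {ι : Type} [Fintype ι] [DecidableEq ι] (F : ι → ArithmeticFunction ℝ) (L m : ℕ) (hm : m < 2 ^ L) :
    (∏ i, F i) m = ∑ k ∈ Fintype.piFinset (fun _ : ι => range L), (∏ i, dy (k i) (F i)) m := by
  have h1 := dy_agree (Finset.univ : Finset ι) F (fun i => ∑ k ∈ range L, dy k (F i)) (2 ^ L)
    (fun i _ n hn => dy_sum (F i) L n hn) m hm
  rw [h1, Finset.prod_univ_sum, dy_sum_apply]

end Pool.Agent.Lib.H81A
end

-- from Lib.H81A.HB
section

/-!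
# H81A, chunk HB (M): Heath-Brown's identity
-/

namespace Pool.Agent.Lib.H81A

open Finset ArithmeticFunction

theorem hb_one1 : one1 = ((zeta : ArithmeticFunction ℕ) : ArithmeticFunction ℝ) := by
  ext n
  simp only [one1, af, coe_mk, natCoe_apply, zeta_apply]
  split_ifs <;> simp

theorem hb_logf : logf = ArithmeticFunction.log := by
  ext n
  simp only [logf, af, coe_mk, log_apply]
  split_ifs with h
  · simp [h]
  · rfl

theorem hb_vanish (f g : ArithmeticFunction ℝ) (a b : ℕ) (hf : ∀ n < a, f n = 0)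
    (hg : ∀ n < b, g n = 0) : ∀ n < a * b, (f * g) n = 0 := by
  intro n hn
  rw [mul_apply]
  refine Finset.sum_eq_zero fun p hp => ?_
  rw [Nat.mem_divisorsAntidiagonal] at hp
  by_cases h1 : p.1 < a
  · rw [hf _ h1, zero_mul]
  · by_cases h2 : p.2 < b
    · rw [hg _ h2, mul_zero]
    · exfalso
      have := Nat.mul_le_mul (not_lt.1 h1) (not_lt.1 h2)
      rw [hp.1] at this
      omega

theorem hb_sub (f g : ArithmeticFunction ℝ) (n : ℕ) : (f - g) n = f n - g n := by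
  have h : (f - g + g) n = f n := by rw [sub_add_cancel]
  rw [ArithmeticFunction.add_apply] at h
  linarith

theorem hb_eps (V n : ℕ) (hn : n < V + 1) : (1 - muV V * one1 : ArithmeticFunction ℝ) n = 0 := by
  rcases Nat.eq_zero_or_pos n with rfl | hpos
  · simp
  have h1 : (muV V * one1 : ArithmeticFunction ℝ) n =
      ((moebius : ArithmeticFunction ℝ) * (zeta : ArithmeticFunction ℝ)) n := by
    rw [mul_apply, mul_apply]
    refine Finset.sum_congr rfl fun p hp => ?_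
    rw [Nat.mem_divisorsAntidiagonal] at hp
    have hp1 : p.1 ≠ 0 := by
      intro h
      rw [h, zero_mul] at hp
      exact hp.2 hp.1.symm
    have hle : p.1 ≤ V := by
      have : p.1 ≤ n := Nat.le_of_dvd hpos ⟨p.2, hp.1.symm⟩
      omega
    rw [hb_one1]
    congr 1
    simp only [muV, af, coe_mk, if_neg hp1, if_pos hle, intCoe_apply]
  rw [hb_sub, h1, coe_moebius_mul_coe_zeta]
  simp

theorem hb_pow (f : ArithmeticFunction ℝ) (a : ℕ) (hf : ∀ n < a, f n = 0) (J : ℕ) :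
    ∀ n < a ^ J, (f ^ J * vonMangoldt) n = 0 := by
  induction J with
  | zero =>
    intro n hn
    have : n = 0 := by simpa using hn
    rw [this, ArithmeticFunction.map_zero]
  | succ J ih =>
    intro n hn
    have h := hb_vanish f (f ^ J * vonMangoldt) a (a ^ J) hf ih n (by rwa [pow_succ'] at hn)
    rw [pow_succ', mul_assoc]
    exact h

/-- Evaluation at `m` as an additive map. -/
noncomputable def hb_ev (m : ℕ) : ArithmeticFunction ℝ →+ ℝ where
  toFun f := f m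
  map_zero' := rfl
  map_add' _ _ := rfl

theorem hb_scal (f : ArithmeticFunction ℝ) (j c m : ℕ) : hb_ev m ((-1) ^ j * (c : ArithmeticFunction ℝ) * f) = (-1 : ℝ) ^ j * (c : ℝ) * f m := by
  have h1 : hb_ev m ((c : ArithmeticFunction ℝ) * f) = (c : ℝ) * f m := by
    rw [← nsmul_eq_mul, map_nsmul, nsmul_eq_mul]
    rfl
  induction j with
  | zero => rw [pow_zero, pow_zero, one_mul, one_mul, h1]
  | succ j ih =>
    have e : (-1) ^ (j + 1) * (c : ArithmeticFunction ℝ) * f = -((-1) ^ j * (c : ArithmeticFunction ℝ) * f) := by ring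
    rw [e, map_neg, ih]
    ring

/-- PROOF. As `heath_brown` in Lib/H68T/HBI.lean (there `J = 3`, same definitions: its lemmas HBI_one1, HBI_logf, HBI_vanish, HBI_sub, HBI_eps may be copied with names hb_..). `e = 1 - muV z * one1` vanishes on `n ≤ z`, so `e ^ J` vanishes on
`n < (z + 1) ^ J` (induction on `J`, hb_vanish), so `e ^ J * Λ` vanishes there. The binomial theorem (`add_pow` for `(-(muV z * one1) + 1) ^ J`, commutative ring; `Finset.sum_range_succ'` separates the term `1`) and `Λ * one1 = logf` (`vonMangoldt_mul_zeta`) give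
`e ^ J * Λ = Λ - ∑ j ∈ range J, (-1) ^ j (J choose (j + 1)) muV ^ (j + 1) one1 ^ j logf`. (Scalars: natural numbers / integers as elements of the ring, or evaluate at `m` with `ArithmeticFunction.sum_apply`-type lemmas; a real constant times an
arithmetic function may be avoided by working in the ring.) -/
theorem hb_identity (z J m : ℕ) (hm : m < (z + 1) ^ J) :
    vonMangoldt m = ∑ j ∈ range J, (-1 : ℝ) ^ j * (J.choose (j + 1) : ℝ) * (muV z ^ (j + 1) * one1 ^ j * logf) m := by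
  have hlog : logf = vonMangoldt * one1 := by
    rw [hb_logf, hb_one1, vonMangoldt_mul_zeta]
  have key : (vonMangoldt : ArithmeticFunction ℝ) = (1 - muV z * one1) ^ J * vonMangoldt +
      ∑ j ∈ range J, (-1) ^ j * ((J.choose (j + 1) : ℕ) : ArithmeticFunction ℝ) * (muV z ^ (j + 1) * one1 ^ j * logf) := by
    have e1 : (1 - muV z * one1 : ArithmeticFunction ℝ) = -(muV z * one1) + 1 := by ring
    rw [e1, add_pow, Finset.sum_range_succ', add_mul, Finset.sum_mul]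
    have e2 : ∀ j ∈ range J, (-1) ^ j * ((J.choose (j + 1) : ℕ) : ArithmeticFunction ℝ) * (muV z ^ (j + 1) * one1 ^ j * logf) =
        -((-(muV z * one1)) ^ (j + 1) * 1 ^ (J - (j + 1)) * ((J.choose (j + 1) : ℕ) : ArithmeticFunction ℝ) * vonMangoldt) := by
      intro j _
      rw [hlog, neg_pow (muV z * one1), mul_pow]
      ring
    rw [Finset.sum_congr rfl e2, Finset.sum_neg_distrib]
    simp
  have h0 : ((1 - muV z * one1) ^ J * vonMangoldt : ArithmeticFunction ℝ) m = 0 :=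
    hb_pow _ (z + 1) (hb_eps z) J m hm
  have h1 : hb_ev m (vonMangoldt : ArithmeticFunction ℝ) = hb_ev m ((1 - muV z * one1) ^ J * vonMangoldt) +
      ∑ j ∈ range J, hb_ev m ((-1) ^ j * ((J.choose (j + 1) : ℕ) : ArithmeticFunction ℝ) * (muV z ^ (j + 1) * one1 ^ j * logf)) := by
    rw [← map_sum, ← map_add, ← key]
  have h2 : hb_ev m ((1 - muV z * one1) ^ J * vonMangoldt) = 0 := h0
  have h3 : hb_ev m (vonMangoldt : ArithmeticFunction ℝ) = vonMangoldt m := rfl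
  rw [h3, h2, zero_add] at h1
  rw [h1]
  exact Finset.sum_congr rfl fun j _ => hb_scal _ _ _ _

end Pool.Agent.Lib.H81A
end

-- from Lib.H21T.V1
section

/-!
# Chunk V1 (M): Vinogradov lemma in one variable, with a varying denominator
-/

namespace Pool.Agent.Lib.H21T

open Finset Pool.Agent.SZW

/-- Pigeonhole: some `q ≤ Q1` serves at least `η T / Q1` elements `t` of `Bd`; let `G` be the set of these `t`. Apply
`Pool.Agent.SZW.recurrence` (with `κ = Unit`, `β = 0`) to `A = G`, `N = T + 1`, `ρ = η / (2 Q1)` (`ρ (T + 1) ≤ η T / Q1` as `T ≥ 1`), `ε = δ1` and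
`α j = q α` (for `t ∈ G`: `nn (t * (q * α)) ≤ δ1` by commutativity). `8 / ρ ^ 2 = 32 Q1 ^ 2 / η ^ 2 ≤ T`, `32 δ1 ≤ ρ`. It gives `q'` with
`1 ≤ q' ≤ 2 / ρ = 4 Q1 / η` and `nn (q' * (q * α)) ≤ 16 δ1 / (ρ ^ 2 (T + 1)) ≤ 64 Q1 ^ 2 δ1 / (η ^ 2 T)`; take `r = q' q`. -/
theorem v1 (Q1 T : ℕ) (η δ1 α : ℝ) (Bd : Finset ℕ) (hQ : 1 ≤ Q1) (hT : 1 ≤ T) (hη : 0 < η) (hη1 : η ≤ 1) (hδ : 0 ≤ δ1)
    (h8 : 32 * (Q1 : ℝ) ^ 2 / η ^ 2 ≤ T) (h32 : 64 * (Q1 : ℝ) * δ1 ≤ η) (hB : ∀ t ∈ Bd, 1 ≤ t ∧ t ≤ T)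
    (hc : η * T ≤ Bd.card) (hq : ∀ t ∈ Bd, ∃ q : ℕ, 1 ≤ q ∧ q ≤ Q1 ∧ nn (q * (t * α)) ≤ δ1) :
    ∃ r : ℕ, 1 ≤ r ∧ (r : ℝ) ≤ 4 * (Q1 : ℝ) ^ 2 / η ∧ nn (r * α) ≤ 64 * (Q1 : ℝ) ^ 2 * δ1 / (η ^ 2 * T) := by
  classical
  have hQ0 : (0 : ℝ) < Q1 := by exact_mod_cast hQ
  have hQ1 : (1 : ℝ) ≤ Q1 := by exact_mod_cast hQ
  have hT1 : (1 : ℝ) ≤ T := by exact_mod_cast hT
  choose! q hq1 hq2 hq3 using hq
  obtain ⟨y, hy, hyc⟩ := Finset.exists_le_card_fiber_of_nsmul_le_card_of_maps_to (M := ℝ)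
    (s := Bd) (t := Icc 1 Q1) (f := q) (b := η * T / Q1)
    (fun t ht => mem_Icc.2 ⟨hq1 t ht, hq2 t ht⟩) (nonempty_Icc.2 hQ) (by
      rw [Nat.card_Icc, Nat.add_sub_cancel, nsmul_eq_mul, mul_div_cancel₀ _ hQ0.ne']
      exact hc)
  rw [mem_Icc] at hy
  have hy0 : (1 : ℝ) ≤ y := by exact_mod_cast hy.1
  have hyQ : (y : ℝ) ≤ Q1 := by exact_mod_cast hy.2
  obtain ⟨ρ, hρ⟩ : ∃ ρ, ρ = η / (2 * Q1) := ⟨_, rfl⟩
  have hρ0 : 0 < ρ := by
    rw [hρ]
    positivity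
  have hρQ : ρ * (2 * Q1) = η := by
    rw [hρ]
    field_simp
  have hρ1 : ρ ≤ 1 := by
    rw [hρ, div_le_one (by positivity)]
    linarith
  obtain ⟨q', h1, h2, h3⟩ := recurrence (κ := Unit) (A := Bd.filter fun t => q t = y) (N := T + 1)
    (ρ := ρ) (ε := δ1) (α := fun _ => y * α) (β := fun _ => 0) hρ0 hρ1 (by
      have e : 8 / ρ ^ 2 = 32 * (Q1 : ℝ) ^ 2 / η ^ 2 := by
        rw [hρ]
        field_simp
        ring
      rw [e]
      push_cast
      linarith) hδ (by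
      nlinarith) (fun n hn => by
      have := hB n (mem_filter.1 hn).1
      omega) (by
      refine le_trans ?_ hyc
      rw [le_div_iff₀ hQ0]
      push_cast
      have : ρ * (T + 1) * Q1 = η * (T + 1) / 2 := by
        rw [← hρQ]
        ring
      rw [this]
      nlinarith) (fun n hn _ => by
      rw [mem_filter] at hn
      have := hq3 n hn.1
      rw [hn.2] at this
      have e : (n : ℝ) * (y * α) + 0 = y * (n * α) := by ring
      rw [e]
      exact this)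
  have h4 := h3 ()
  refine ⟨q' * y, Nat.mul_pos h1 hy.1, ?_, ?_⟩
  · push_cast
    have e : 2 / ρ * Q1 = 4 * (Q1 : ℝ) ^ 2 / η := by
      rw [hρ]
      field_simp
      ring
    rw [← e]
    exact mul_le_mul h2 hyQ (by linarith) (by positivity)
  · push_cast
    rw [mul_assoc]
    refine h4.trans ?_
    have e : 64 * (Q1 : ℝ) ^ 2 * δ1 / (η ^ 2 * T) = 16 * δ1 / (ρ ^ 2 * T) := by
      rw [hρ]
      field_simp
      ring
    rw [e]
    refine div_le_div_of_nonneg_left (by positivity) (by positivity) ?_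
    push_cast
    exact mul_le_mul_of_nonneg_left (by linarith) (by positivity)

end Pool.Agent.Lib.H21T
end

-- from Lib.H21T.V2
section

/-!
# Chunk V2 (M): Vinogradov lemma in two variables
-/

namespace Pool.Agent.Lib.H21T

open Finset Pool.Agent.SZW

/-- For `s ≤ S` let `Bd_s = {t : (s, t) ∈ Bd}` and `S' = {s : |Bd_s| ≥ (η / 2) T}`. As `η S T ≤ |Bd| = ∑_{s} |Bd_s| ≤ |S'| T + S (η / 2) T`,
`|S'| ≥ (η / 2) S`. For `s ∈ S'` apply `v1` to `Bd_s`, `η / 2`, `δ1` and `s α` in place of `α` (`q * ((s * t) * α) = q * (t * (s * α))`;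
conditions: `32 Q1 ^ 2 / (η / 2) ^ 2 = 128 Q1 ^ 2 / η ^ 2 ≤ 2 ^ 13 Q1 ^ 4 / η ^ 4 ≤ T`; `64 Q1 δ1 ≤ η / 2` is `h7`): there is `r` with `1 ≤ r`,
`r ≤ 8 Q1 ^ 2 / η`, so `r ≤ Q2 := ⌊8 Q1 ^ 2 / η⌋₊`, and `nn (r * (s * α)) ≤ δ2 := 256 Q1 ^ 2 δ1 / (η ^ 2 T)`. Apply `v1` to `S'`, `Q2`, `S`, `η / 2`, `δ2`:
`32 Q2 ^ 2 / (η / 2) ^ 2 ≤ 128 * 64 Q1 ^ 4 / η ^ 4 ≤ S`; `64 Q2 δ2 ≤ 2 ^ 17 Q1 ^ 4 δ1 / (η ^ 3 T) ≤ η / 2` by `h18`. The result is `r'` with
`r' ≤ 4 Q2 ^ 2 / (η / 2) ≤ 512 Q1 ^ 4 / η ^ 3` and `nn (r' * α) ≤ 64 Q2 ^ 2 δ2 / ((η / 2) ^ 2 S) ≤ 2 ^ 22 Q1 ^ 6 δ1 / (η ^ 6 S T)`. -/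
theorem v2 (Q1 S T : ℕ) (η δ1 α : ℝ) (Bd : Finset (ℕ × ℕ)) (hQ : 1 ≤ Q1) (hS1 : 1 ≤ S) (hT1 : 1 ≤ T) (hη : 0 < η) (hη1 : η ≤ 1)
    (hδ : 0 ≤ δ1) (hS : 2 ^ 13 * (Q1 : ℝ) ^ 4 / η ^ 4 ≤ S) (hT : 2 ^ 13 * (Q1 : ℝ) ^ 4 / η ^ 4 ≤ T) (h7 : 128 * (Q1 : ℝ) * δ1 ≤ η)
    (h18 : 2 ^ 18 * (Q1 : ℝ) ^ 4 * δ1 ≤ η ^ 4 * T) (hB : ∀ p ∈ Bd, 1 ≤ p.1 ∧ p.1 ≤ S ∧ 1 ≤ p.2 ∧ p.2 ≤ T)
    (hc : η * (S * T) ≤ Bd.card) (hq : ∀ p ∈ Bd, ∃ q : ℕ, 1 ≤ q ∧ q ≤ Q1 ∧ nn (q * (((p.1 : ℝ) * p.2) * α)) ≤ δ1) :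
    ∃ r : ℕ, 1 ≤ r ∧ (r : ℝ) ≤ 512 * (Q1 : ℝ) ^ 4 / η ^ 3 ∧ nn (r * α) ≤ 2 ^ 22 * (Q1 : ℝ) ^ 6 * δ1 / (η ^ 6 * S * T) := by
  classical
  have hQ1 : (1 : ℝ) ≤ Q1 := by exact_mod_cast hQ
  have hSr : (1 : ℝ) ≤ S := by exact_mod_cast hS1
  have hTr : (1 : ℝ) ≤ T := by exact_mod_cast hT1
  obtain ⟨F, hF⟩ : ∃ F : ℕ → Finset ℕ, F = fun s => (Bd.filter fun p => p.1 = s).image Prod.snd :=
    ⟨_, rfl⟩
  have hmemF : ∀ s t, t ∈ F s ↔ (s, t) ∈ Bd := by
    intro s t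
    rw [hF]
    simp only [mem_image, mem_filter]
    constructor
    · rintro ⟨p, ⟨hp, rfl⟩, rfl⟩
      exact hp
    · intro h
      exact ⟨(s, t), ⟨h, rfl⟩, rfl⟩
  have hFc : ∀ s, (F s).card = (Bd.filter fun p => p.1 = s).card := by
    intro s
    rw [hF]
    refine card_image_of_injOn ?_
    intro p hp p' hp' h
    rw [mem_coe, mem_filter] at hp hp'
    exact Prod.ext (hp.2.trans hp'.2.symm) h
  have hFT : ∀ s, ((F s).card : ℝ) ≤ T := by
    intro s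
    have h1 : F s ⊆ Icc 1 T := by
      intro t ht
      have := hB _ ((hmemF s t).1 ht)
      exact mem_Icc.2 ⟨this.2.2.1, this.2.2.2⟩
    have h2 := card_le_card h1
    rw [Nat.card_Icc, Nat.add_sub_cancel] at h2
    exact_mod_cast h2
  have hsum : (Bd.card : ℝ) = ∑ s ∈ Icc 1 S, ((F s).card : ℝ) := by
    have h1 := card_eq_sum_card_fiberwise (f := Prod.fst) (s := Bd) (t := Icc 1 S) fun p hp => by
      have := hB p hp
      exact mem_coe.2 (mem_Icc.2 ⟨this.1, this.2.1⟩)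
    rw [h1]
    push_cast
    refine sum_congr rfl fun s _ => ?_
    rw [hFc]
  obtain ⟨S', hS'⟩ : ∃ S', S' = (Icc 1 S).filter fun s => η / 2 * T ≤ (F s).card := ⟨_, rfl⟩
  have hS'c : η / 2 * S ≤ S'.card := by
    have h1 : (Bd.card : ℝ) ≤ S'.card * T + S * (η / 2 * T) := by
      rw [hsum, ← sum_filter_add_sum_filter_not (Icc 1 S) (fun s => η / 2 * T ≤ (F s).card),
        ← hS']
      refine add_le_add ?_ ?_
      · rw [← nsmul_eq_mul]
        exact sum_le_card_nsmul _ _ _ fun s _ => hFT s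
      · have h2 : ∑ s ∈ (Icc 1 S).filter (fun s => ¬ η / 2 * T ≤ (F s).card), ((F s).card : ℝ) ≤
            ((Icc 1 S).filter (fun s => ¬ η / 2 * T ≤ (F s).card)).card • (η / 2 * T) :=
          sum_le_card_nsmul _ _ _ fun s hs => (not_le.1 (mem_filter.1 hs).2).le
        refine h2.trans ?_
        rw [nsmul_eq_mul]
        refine mul_le_mul_of_nonneg_right ?_ (by positivity)
        have h3 := card_filter_le (Icc 1 S) (fun s => ¬ η / 2 * T ≤ (F s).card)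
        rw [Nat.card_Icc, Nat.add_sub_cancel] at h3
        exact_mod_cast h3
    have h2 : η / 2 * S * T ≤ S'.card * T := by nlinarith
    exact le_of_mul_le_mul_right h2 (by linarith)
  obtain ⟨Q2, hQ2⟩ : ∃ Q2 : ℕ, Q2 = ⌊8 * (Q1 : ℝ) ^ 2 / η⌋₊ := ⟨_, rfl⟩
  have hQ2r : (Q2 : ℝ) ≤ 8 * (Q1 : ℝ) ^ 2 / η := by
    rw [hQ2]
    exact Nat.floor_le (by positivity)
  have h8 : (1 : ℝ) ≤ 8 * (Q1 : ℝ) ^ 2 / η := by
    rw [le_div_iff₀ hη]
    nlinarith
  have hQ21 : 1 ≤ Q2 := by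
    rw [hQ2]
    exact Nat.le_floor (by exact_mod_cast h8)
  have hQ2r1 : (1 : ℝ) ≤ Q2 := by exact_mod_cast hQ21
  obtain ⟨δ2, hδ2⟩ : ∃ δ2, δ2 = 256 * (Q1 : ℝ) ^ 2 * δ1 / (η ^ 2 * T) := ⟨_, rfl⟩
  have hδ20 : 0 ≤ δ2 := by
    rw [hδ2]
    positivity
  have hQ4 : (Q1 : ℝ) ^ 2 ≤ (Q1 : ℝ) ^ 4 := pow_le_pow_right₀ hQ1 (by norm_num)
  have hη4 : η ^ 4 ≤ η ^ 2 := pow_le_pow_of_le_one hη.le hη1 (by norm_num)
  have step : ∀ s ∈ S', ∃ r : ℕ, 1 ≤ r ∧ r ≤ Q2 ∧ nn (r * (s * α)) ≤ δ2 := by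
    intro s hs
    rw [hS', mem_filter] at hs
    obtain ⟨r, h1, h2, h3⟩ := v1 Q1 T (η / 2) δ1 (s * α) (F s) hQ hT1 (by positivity) (by linarith) hδ
      (by
        refine le_trans ?_ hT
        have e : 32 * (Q1 : ℝ) ^ 2 / (η / 2) ^ 2 = 128 * (Q1 : ℝ) ^ 2 / η ^ 2 := by
          field_simp
          ring
        rw [e, div_le_div_iff₀ (by positivity) (by positivity)]
        have h4 : 128 * (Q1 : ℝ) ^ 2 ≤ 2 ^ 13 * (Q1 : ℝ) ^ 4 := by nlinarith
        exact mul_le_mul h4 hη4 (by positivity) (by positivity))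
      (by linarith)
      (fun t ht => by
        have := hB _ ((hmemF s t).1 ht)
        exact ⟨this.2.2.1, this.2.2.2⟩)
      hs.2
      (fun t ht => by
        obtain ⟨q, h5, h6, h7⟩ := hq _ ((hmemF s t).1 ht)
        refine ⟨q, h5, h6, ?_⟩
        have e : (q : ℝ) * ((t : ℝ) * ((s : ℝ) * α)) = q * (((s : ℝ) * t) * α) := by ring
        rw [e]
        exact h7)
    refine ⟨r, h1, ?_, h3.trans (le_of_eq ?_)⟩
    · rw [hQ2]
      refine Nat.le_floor (h2.trans (le_of_eq ?_))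
      field_simp
      ring
    · rw [hδ2]
      field_simp
      ring
  have hQ2sq : (Q2 : ℝ) ^ 2 ≤ 64 * (Q1 : ℝ) ^ 4 / η ^ 2 := by
    have h1 := pow_le_pow_left₀ (by linarith) hQ2r 2
    have e : (8 * (Q1 : ℝ) ^ 2 / η) ^ 2 = 64 * (Q1 : ℝ) ^ 4 / η ^ 2 := by
      field_simp
      ring
    rwa [e] at h1
  obtain ⟨r, h1, h2, h3⟩ := v1 Q2 S (η / 2) δ2 α S' hQ21 hS1 (by positivity) (by linarith) hδ20
    (by
      refine le_trans ?_ hS
      have e : 32 * (Q2 : ℝ) ^ 2 / (η / 2) ^ 2 = 128 / η ^ 2 * (Q2 : ℝ) ^ 2 := by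
        field_simp
        ring
      rw [e]
      refine (mul_le_mul_of_nonneg_left hQ2sq (by positivity)).trans (le_of_eq ?_)
      field_simp
      ring)
    (by
      have h4 : 64 * (Q2 : ℝ) * δ2 ≤ 64 * (8 * (Q1 : ℝ) ^ 2 / η) * δ2 :=
        mul_le_mul_of_nonneg_right (mul_le_mul_of_nonneg_left hQ2r (by norm_num)) hδ20
      refine h4.trans ?_
      have e : 64 * (8 * (Q1 : ℝ) ^ 2 / η) * δ2 = 2 ^ 17 * (Q1 : ℝ) ^ 4 * δ1 / (η ^ 3 * T) := by
        rw [hδ2]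
        field_simp
        ring
      rw [e, div_le_div_iff₀ (by positivity) (by norm_num)]
      have e2 : η * (η ^ 3 * T) = η ^ 4 * T := by ring
      rw [e2]
      nlinarith)
    (fun s hs => by
      rw [hS', mem_filter, mem_Icc] at hs
      exact hs.1)
    (by linarith) step
  refine ⟨r, h1, h2.trans ?_, h3.trans ?_⟩
  · have e : 4 * (Q2 : ℝ) ^ 2 / (η / 2) = 8 / η * (Q2 : ℝ) ^ 2 := by
      field_simp
      ring
    rw [e]
    refine (mul_le_mul_of_nonneg_left hQ2sq (by positivity)).trans (le_of_eq ?_)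
    field_simp
    ring
  · have e : 64 * (Q2 : ℝ) ^ 2 * δ2 / ((η / 2) ^ 2 * S) = 256 * δ2 / (η ^ 2 * S) * (Q2 : ℝ) ^ 2 := by
      field_simp
      ring
    rw [e]
    refine (mul_le_mul_of_nonneg_left hQ2sq (by positivity)).trans (le_of_eq ?_)
    rw [hδ2]
    field_simp
    ring

end Pool.Agent.Lib.H21T
end

-- from Lib.H81A.T1
section

/-!
# H81A, chunk T1 (M): boxes with at most one long variable
-/

namespace Pool.Agent.Lib.H81A

open Finset ArithmeticFunction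

/-- The coefficients of a short product, normalised. -/
theorem t1_gam {ι : Type} [DecidableEq ι] {c η : ℝ} {N L u v r : ℕ} {V : ℝ} (par : Par c η N L u v r V) (k : ι → ℕ) (G : ι → ArithmeticFunction ℝ)
    (hG : ∀ i, ∀ n, 1 ≤ n → n ≤ N → |G i n| ≤ V) (S : Finset ι) (hr : S.card ≤ r) (hS : ∑ i ∈ S, k i < u) :
    ∃ γ : ℕ → ℝ, (∀ q, |γ q| ≤ 1) ∧ (∀ q : ℕ, γ q ≠ 0 → 1 ≤ q ∧ (q : ℝ) ≤ (N : ℝ) ^ (2 * c)) ∧
      ∀ q, 1 ≤ q → q ≤ N → (∏ i ∈ S, dy (k i) (G i)) q = V ^ (2 * r) * γ q := by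
  have hV0 : 0 < V ^ (2 * r) := pow_pos (lt_of_lt_of_le zero_lt_one par.hV) _
  refine ⟨fun q => if 1 ≤ q ∧ q ≤ N then (∏ i ∈ S, dy (k i) (G i)) q / V ^ (2 * r) else 0, ?_, ?_, ?_⟩
  · intro q
    show |if 1 ≤ q ∧ q ≤ N then (∏ i ∈ S, dy (k i) (G i)) q / V ^ (2 * r) else 0| ≤ 1
    split_ifs with h
    · rw [abs_div, abs_of_pos hV0, div_le_one hV0]
      refine (bound S (fun i => dy (k i) (G i)) par.hV par.hV (fun i _ n h1 h2 => bd_dy _ _ (hG i n h1 h2)) par.hVd h.1 h.2).trans ?_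
      rw [← pow_two, ← pow_mul]
      exact pow_le_pow_right₀ par.hV (Nat.mul_le_mul_left 2 hr)
    · rw [abs_zero]
      exact zero_le_one
  · intro q hq
    by_cases h : 1 ≤ q ∧ q ≤ N
    · refine ⟨h.1, ?_⟩
      have h1 : (∏ i ∈ S, dy (k i) (G i)) q ≠ 0 := by
        intro h0
        apply hq
        show (if 1 ≤ q ∧ q ≤ N then (∏ i ∈ S, dy (k i) (G i)) q / V ^ (2 * r) else 0) = 0
        rw [if_pos h, h0, zero_div]
      have h2 := (supp S k G h1).2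
      have h3 : 2 ^ (∑ i ∈ S, k i + S.card) ≤ 2 ^ (u + r) := Nat.pow_le_pow_right (by norm_num) (by omega)
      calc (q : ℝ) ≤ ((2 ^ (u + r) : ℕ) : ℝ) := by exact_mod_cast h2.trans h3
        _ = (2 : ℝ) ^ (u + r) := by push_cast; rfl
        _ ≤ _ := par.hq
    · exact absurd (if_neg h) hq
  · intro q h1 h2
    show _ = V ^ (2 * r) * (if 1 ≤ q ∧ q ≤ N then (∏ i ∈ S, dy (k i) (G i)) q / V ^ (2 * r) else 0)
    rw [if_pos ⟨h1, h2⟩, mul_div_cancel₀ _ hV0.ne']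

/-- Convolution with `γ`. -/
noncomputable def t1_Q (γ : ℕ → ℝ) : (ℕ → ℝ) →ₗ[ℝ] (ℕ → ℝ) where
  toFun h := fun m => ∑ x ∈ m.divisorsAntidiagonal, γ x.1 * h x.2
  map_add' h h' := by
    funext m
    rw [Pi.add_apply, ← Finset.sum_add_distrib]
    exact Finset.sum_congr rfl fun x _ => by rw [Pi.add_apply, mul_add]
  map_smul' a h := by
    funext m
    rw [RingHom.id_apply, Pi.smul_apply, smul_eq_mul, Finset.mul_sum]
    exact Finset.sum_congr rfl fun x _ => by rw [Pi.smul_apply, smul_eq_mul]; ring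

/-- The smooth weights. -/
theorem t1_w {f : ArithmeticFunction ℝ} (hf : f = one1 ∨ f = logf) {N : ℕ} {V : ℝ} (hV : 1 ≤ V) (hVlog : Real.log N ≤ V) :
    ∃ w : ℕ → ℝ, Monotone w ∧ 0 ≤ w 0 ∧ (∀ b, b ≤ N → w b ≤ V) ∧ ∀ n, 1 ≤ n → f n = w n := by
  rcases hf with rfl | rfl
  · exact ⟨fun _ => 1, fun _ _ _ => le_rfl, zero_le_one, fun _ _ => hV, fun n hn => af_apply _ (by omega)⟩
  · have hm : Monotone fun n : ℕ => Real.log (n : ℝ) := by
      intro a b hab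
      show Real.log (a : ℝ) ≤ Real.log (b : ℝ)
      rcases Nat.eq_zero_or_pos a with rfl | ha
      · rw [Nat.cast_zero, Real.log_zero]
        exact Real.log_natCast_nonneg b
      · exact Real.log_le_log (by exact_mod_cast ha) (by exact_mod_cast hab)
    refine ⟨fun n => Real.log n, hm, ?_, fun b hb => (hm hb).trans hVlog, fun n hn => af_apply _ (by omega)⟩
    show 0 ≤ Real.log ((0 : ℕ) : ℝ)
    rw [Nat.cast_zero, Real.log_zero]

theorem t1_X {c : ℝ} {N : ℕ} {p : Seminorm ℝ (ℕ → ℝ)} {X : ℝ} (h1 : H1 c N p X) : 0 ≤ X := by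
  refine le_trans ?_ (h1 1 1 le_rfl (by norm_num) (fun _ => 0) (fun _ => by rw [abs_zero]; exact zero_le_one) (fun q hq => absurd rfl hq))
  exact apply_nonneg p _

theorem t1_div {m N : ℕ} (hm : m ≤ N) {x : ℕ × ℕ} (hx : x ∈ m.divisorsAntidiagonal) : (1 ≤ x.1 ∧ x.1 ≤ N) ∧ (1 ≤ x.2 ∧ x.2 ≤ N) := by
  obtain ⟨h2, h3⟩ := Nat.mem_divisorsAntidiagonal.1 hx
  have hx1 : x.1 ≠ 0 := by
    intro h
    rw [h, zero_mul] at h2
    exact h3 h2.symm
  have hx2 : x.2 ≠ 0 := by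
    intro h
    rw [h, mul_zero] at h2
    exact h3 h2.symm
  have hm0 : 0 < m := Nat.pos_of_ne_zero h3
  have hl1 : x.1 ≤ m := Nat.le_of_dvd hm0 ⟨x.2, h2.symm⟩
  have hl2 : x.2 ≤ m := Nat.le_of_dvd hm0 ⟨x.1, by rw [mul_comm]; exact h2.symm⟩
  exact ⟨⟨Nat.one_le_iff_ne_zero.2 hx1, hl1.trans hm⟩, ⟨Nat.one_le_iff_ne_zero.2 hx2, hl2.trans hm⟩⟩

/-- PROOF. `γ q = (∏ i, dy (k i) (G i)) q` for `q ≤ N` and `0` for `q > N`: `|γ| ≤ (V * V) ^ (card ι) ≤ V ^ (2 r)` (`bound`, `bd_dy`), `γ q ≠ 0` gives `1 ≤ q ≤ 2 ^ (u + r) ≤ N ^ (2 c)` (`supp`). For `1 ≤ m ≤ N` the value at `m` is `∑ x ∈ m.divisorsAntidiagonal, γ x.1 * (if 1 ≤ x.2 ∧ x.2 < 2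
then 1 else 0)` (only `x = (m, 1)` counts). `H1` for `γ / V ^ (2 r)`; `0 ≤ X` from `H1` with `γ = 0`, `B₁ = B₂ = 1`. (`H1` wants `1 ≤ B₁`, `B₂ ≤ 2 B₁`.) -/
theorem type0 {ι : Type} [Fintype ι] [DecidableEq ι] {c η : ℝ} {N L u v r : ℕ} {V : ℝ} (par : Par c η N L u v r V) (hr : Fintype.card ι ≤ r) (p : Seminorm ℝ (ℕ → ℝ)) (hp : Loc N p)
    {X : ℝ} (h1 : H1 c N p X) (k : ι → ℕ) (G : ι → ArithmeticFunction ℝ) (hG : ∀ i, ∀ n, 1 ≤ n → n ≤ N → |G i n| ≤ V)
    (hk : ∑ i, k i < u) : p (fun m => (∏ i, dy (k i) (G i)) m) ≤ V ^ (2 * r + 2) * X := by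
  have hX := t1_X h1
  have hV0 : 0 ≤ V := zero_le_one.trans par.hV
  obtain ⟨γ, hγ1, hγ2, hγ3⟩ := t1_gam par k G hG univ hr hk
  have h4 : p (fun m => (∏ i, dy (k i) (G i)) m) =
      p (V ^ (2 * r) • fun m : ℕ => ∑ x ∈ m.divisorsAntidiagonal, γ x.1 * (if 1 ≤ x.2 ∧ x.2 < 2 then 1 else 0)) := by
    refine hp.congr fun m hm1 hm2 => ?_
    rw [Pi.smul_apply, smul_eq_mul, hγ3 m hm1 hm2, Finset.sum_eq_single (m, 1)]
    · rw [if_pos ⟨le_rfl, by norm_num⟩, mul_one]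
    · intro x hx hne
      have h5 : ¬ (1 ≤ x.2 ∧ x.2 < 2) := by
        intro h
        have h6 : x.2 = 1 := by omega
        obtain ⟨h7, _⟩ := Nat.mem_divisorsAntidiagonal.1 hx
        apply hne
        rw [h6, mul_one] at h7
        exact Prod.ext h7 h6
      rw [if_neg h5, mul_zero]
    · intro h
      exact absurd (Nat.mem_divisorsAntidiagonal.2 ⟨mul_one m, by omega⟩) h
  rw [h4, map_smul_eq_mul, Real.norm_of_nonneg (pow_nonneg hV0 _)]
  have h5 := h1 1 2 le_rfl (by norm_num) γ hγ1 hγ2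
  calc V ^ (2 * r) * _ ≤ V ^ (2 * r) * X := mul_le_mul_of_nonneg_left h5 (pow_nonneg hV0 _)
    _ ≤ V ^ (2 * r + 2) * X := mul_le_mul_of_nonneg_right (pow_le_pow_right₀ par.hV (by omega)) hX

/-- PROOF. `∏ j, dy (k j) (G j) = γ₀ * dy (k i) (G i)`, `γ₀ = ∏ j ∈ univ.erase i`; `γ q = γ₀ q` for `q ≤ N`, `0` for `q > N`; `|γ| ≤ V ^ (2 r)`, `γ q ≠ 0` gives `1 ≤ q ≤ 2 ^ (u + r) ≤ N ^ (2 c)`. If `G i = one1`: `H1` with `B₁ = 2 ^ k i`, `B₂ = 2 ^ (k i + 1)` (`Loc.congr` to replace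
`γ₀` by `γ`). If `G i = logf`: `abel` with the linear map `Q h = fun m => ∑ x ∈ m.divisorsAntidiagonal, γ x.1 * h x.2`, `B₁ = 2 ^ k i`, `B₂ = min (2 ^ (k i + 1)) (N + 1)` (for `m ≤ N` only `x.2 ≤ N` counts), `w b = log b` (`Real.log 0 = 0`; monotone on the
natural numbers), `w b ≤ log N ≤ V` for `b < B₂`; the intervals `[B, B₂)` with `B ≥ 2 ^ k i` satisfy `B₂ ≤ 2 B`. Total `V ^ (2 r) V X`. -/
theorem type1 {ι : Type} [Fintype ι] [DecidableEq ι] {c η : ℝ} {N L u v r : ℕ} {V : ℝ} (par : Par c η N L u v r V) (hr : Fintype.card ι ≤ r) (p : Seminorm ℝ (ℕ → ℝ)) (hp : Loc N p)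
    {X : ℝ} (h1 : H1 c N p X) (k : ι → ℕ) (G : ι → ArithmeticFunction ℝ) (hG : ∀ i, ∀ n, 1 ≤ n → n ≤ N → |G i n| ≤ V)
    (i : ι) (hi : G i = one1 ∨ G i = logf) (hk : ∑ j ∈ univ.erase i, k j < u) : p (fun m => (∏ j, dy (k j) (G j)) m) ≤ V ^ (2 * r + 2) * X := by
  have hX := t1_X h1
  have hV0 : 0 ≤ V := zero_le_one.trans par.hV
  obtain ⟨w, hw1, hw2, hw3, hw4⟩ := t1_w hi (N := N) par.hV par.hVlog
  obtain ⟨γ, hγ1, hγ2, hγ3⟩ := t1_gam par k G hG (univ.erase i) ((Finset.card_erase_le).trans hr) hk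
  have h4 : p (fun m => (∏ j, dy (k j) (G j)) m) =
      p (V ^ (2 * r) • t1_Q γ (fun b => if 2 ^ k i ≤ b ∧ b < min (2 ^ (k i + 1)) (N + 1) then w b else 0)) := by
    refine hp.congr fun m hm1 hm2 => ?_
    rw [← Finset.prod_erase_mul univ (fun j => dy (k j) (G j)) (Finset.mem_univ i), ArithmeticFunction.mul_apply, Pi.smul_apply, smul_eq_mul]
    show _ = V ^ (2 * r) * ∑ x ∈ m.divisorsAntidiagonal, γ x.1 * (if 2 ^ k i ≤ x.2 ∧ x.2 < min (2 ^ (k i + 1)) (N + 1) then w x.2 else 0)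
    rw [Finset.mul_sum]
    refine Finset.sum_congr rfl fun x hx => ?_
    obtain ⟨⟨a1, a2⟩, ⟨b1, b2⟩⟩ := t1_div hm2 hx
    rw [hγ3 x.1 a1 a2, dy_apply, hw4 x.2 b1, mul_assoc]
    congr 2
    have h5 : (x.2 < min (2 ^ (k i + 1)) (N + 1)) ↔ x.2 < 2 ^ (k i + 1) := by
      rw [lt_min_iff]
      exact ⟨fun h => h.1, fun h => ⟨h, by omega⟩⟩
    simp only [h5]
  rw [h4, map_smul_eq_mul, Real.norm_of_nonneg (pow_nonneg hV0 _)]
  have h5 : p (t1_Q γ (fun b => if 2 ^ k i ≤ b ∧ b < min (2 ^ (k i + 1)) (N + 1) then w b else 0)) ≤ V * X := by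
    refine abel p (t1_Q γ) X _ _ (fun B hB => ?_) w hw1 hw2 hV0 (fun b hb => hw3 b ?_)
    · refine h1 B _ ((Nat.one_le_two_pow).trans hB) ?_ γ hγ1 hγ2
      refine (min_le_left _ _).trans ?_
      rw [pow_succ, mul_comm]
      exact Nat.mul_le_mul_left 2 hB
    · have h6 := lt_of_lt_of_le hb (min_le_right _ _)
      omega
  calc V ^ (2 * r) * _ ≤ V ^ (2 * r) * (V * X) := mul_le_mul_of_nonneg_left h5 (pow_nonneg hV0 _)
    _ = V ^ (2 * r + 1) * X := by ring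
    _ ≤ V ^ (2 * r + 2) * X := mul_le_mul_of_nonneg_right (pow_le_pow_right₀ par.hV (by omega)) hX

end Pool.Agent.Lib.H81A
end

-- from Lib.H81A.T3
section

/-!
# H81A, chunk T3 (M/L): boxes with two long variables
-/

namespace Pool.Agent.Lib.H81A

open Finset ArithmeticFunction

noncomputable def t3_Q (γ h h' : ℕ → ℝ) : ℕ → ℝ :=
  fun m => ∑ x ∈ m.divisorsAntidiagonal, γ x.1 * ∑ y ∈ x.2.divisorsAntidiagonal, h y.1 * h' y.2

noncomputable def t3_L1 (γ h' : ℕ → ℝ) : (ℕ → ℝ) →ₗ[ℝ] (ℕ → ℝ) where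
  toFun h := t3_Q γ h h'
  map_add' h1 h2 := by
    funext m
    simp only [t3_Q, Pi.add_apply, add_mul, Finset.sum_add_distrib, mul_add]
  map_smul' c h := by
    funext m
    simp only [t3_Q, Pi.smul_apply, smul_eq_mul, RingHom.id_apply, Finset.mul_sum]
    refine Finset.sum_congr rfl fun x _ => Finset.sum_congr rfl fun y _ => ?_
    ring

noncomputable def t3_L2 (γ h : ℕ → ℝ) : (ℕ → ℝ) →ₗ[ℝ] (ℕ → ℝ) where
  toFun h' := t3_Q γ h h'
  map_add' h1 h2 := by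
    funext m
    simp only [t3_Q, Pi.add_apply, Finset.sum_add_distrib, mul_add]
  map_smul' c h := by
    funext m
    simp only [t3_Q, Pi.smul_apply, smul_eq_mul, RingHom.id_apply, Finset.mul_sum]
    refine Finset.sum_congr rfl fun x _ => Finset.sum_congr rfl fun y _ => ?_
    ring

theorem t3_w {G : ArithmeticFunction ℝ} {N : ℕ} {V : ℝ} (hV : 1 ≤ V) (hlog : Real.log N ≤ V) (hG : G = one1 ∨ G = logf) :
    ∃ w : ℕ → ℝ, Monotone w ∧ 0 ≤ w 0 ∧ (∀ b, b ≤ N → w b ≤ V) ∧ ∀ n, n ≠ 0 → G n = w n := by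
  rcases hG with rfl | rfl
  · exact ⟨fun _ => 1, monotone_const, zero_le_one, fun _ _ => hV, fun n hn => af_apply _ hn⟩
  · have hmono : Monotone fun n : ℕ => Real.log n := by
      intro a b hab
      show Real.log a ≤ Real.log b
      rcases Nat.eq_zero_or_pos a with rfl | ha
      · rw [Nat.cast_zero, Real.log_zero]
        exact Real.log_natCast_nonneg b
      · exact Real.log_le_log (by exact_mod_cast ha) (by exact_mod_cast hab)
    exact ⟨fun n => Real.log n, hmono, by simp, fun b hb => (hmono hb).trans hlog, fun n hn => af_apply _ hn⟩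

/-- PROOF. `s = ∑ j, k j`. If `s ≥ L` the function vanishes on `[1, N]` (`supp`, `N < 2 ^ L`), `p .. = 0` and `0 ≤ X` (`H3` with `γ = 0`, `A₁ = B₁ = 2 ^ (v + 1)`, `A₂ = B₂ = 0`). Otherwise `k i, k j ≥ v + 1` and `k i + k j < L`, so `N ^ (1 / 2 - 2 η) ≤ 2 ^ (v + 1) ≤ 2 ^ k i` and
`2 ^ (k i + 1) ≤ 2 ^ (L - v) ≤ N ^ (1 / 2 + 2 η)`, the same for `j`. `∏ = γ₀ * (dy (k i) (G i) * dy (k j) (G j))`, `γ₀ = ∏ l ∈ (univ.erase i).erase j`; `γ q = γ₀ q` for `q ≤ N`, `0` for `q > N`: `|γ| ≤ V ^ (2 (card - 2))`, support in `[1, 2 ^ (u + r)]`, `2 ^ (u + r) ≤ N ^ (2 c)`.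
If `G i = G j = one1`: `H3`. For `logf`: `abel` once or twice with the linear maps `Q h = fun m => ∑ x ∈ m.divisorsAntidiagonal, γ x.1 * ∑ y ∈ x.2.divisorsAntidiagonal, h y.1 * h' y.2` (in `h` for fixed `h'`, then in `h'` for fixed `h = ` indicator of an interval), upper
ends `min (2 ^ (k + 1)) (N + 1)`, `w = log`, each costs a factor `V`; the intervals satisfy `A₂ ≤ 2 A₁`, `B₂ ≤ 2 B₁` because they lie in `[2 ^ k, 2 ^ (k + 1))`. Total `V ^ (2 (card - 2)) V ^ 2 X ≤ V ^ (2 r + 2) X`. -/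
theorem type3 {ι : Type} [Fintype ι] [DecidableEq ι] {c η : ℝ} {N L u v r : ℕ} {V : ℝ} (par : Par c η N L u v r V) (hr : Fintype.card ι ≤ r) (p : Seminorm ℝ (ℕ → ℝ)) (hp : Loc N p)
    {X : ℝ} (h3 : H3 c η N p X) (k : ι → ℕ) (G : ι → ArithmeticFunction ℝ) (hG : ∀ i, ∀ n, 1 ≤ n → n ≤ N → |G i n| ≤ V)
    (i j : ι) (hij : i ≠ j) (hi : G i = one1 ∨ G i = logf) (hj : G j = one1 ∨ G j = logf) (hki : v < k i) (hkj : v < k j)
    (hk : ∑ l ∈ (univ.erase i).erase j, k l < u) : p (fun m => (∏ j, dy (k j) (G j)) m) ≤ V ^ (2 * r + 2) * X := by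
  have hV0 : (0 : ℝ) ≤ V := zero_le_one.trans par.hV
  set S := (univ.erase i).erase j with hS
  have hji : j ∈ (univ.erase i : Finset ι) := Finset.mem_erase.2 ⟨hij.symm, Finset.mem_univ j⟩
  have hcard : S.card + 2 = Fintype.card ι := by
    have h1 := Finset.card_erase_add_one hji
    have h2 := Finset.card_erase_add_one (Finset.mem_univ i)
    rw [← hS] at h1
    rw [← Finset.card_univ]
    omega
  have hprod : ∏ l, dy (k l) (G l) = (∏ l ∈ S, dy (k l) (G l)) * (dy (k i) (G i) * dy (k j) (G j)) := by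
    rw [← Finset.mul_prod_erase _ _ (Finset.mem_univ i), ← Finset.mul_prod_erase _ _ hji, ← hS]
    ring
  have hsum : ∑ l, k l = ∑ l ∈ S, k l + (k i + k j) := by
    rw [← Finset.add_sum_erase _ _ (Finset.mem_univ i), ← Finset.add_sum_erase _ _ hji, ← hS]
    ring
  have hX0 : 0 ≤ X := by
    refine (apply_nonneg p _).trans (h3 (2 ^ (v + 1)) 0 (2 ^ (v + 1)) 0 ?_ ?_ ?_ ?_ (by simp) (by simp) (fun _ => 0)
      (fun q => by simp) (fun q hq => absurd rfl hq))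
    · push_cast; exact par.hA
    · push_cast; positivity
    · push_cast; exact par.hA
    · push_cast; positivity
  rcases le_or_gt L (∑ l, k l) with hL | hL
  · have h0 : p (fun m => (∏ j, dy (k j) (G j)) m) = 0 := by
      refine hp _ fun m hm hmN => ?_
      by_contra hne
      have h1 := (supp univ k G hne).1
      have h2 : 2 ^ L ≤ 2 ^ (∑ l, k l) := Nat.pow_le_pow_right (by norm_num) hL
      have h4 := par.hL
      omega
    rw [h0]
    positivity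
  · set W : ℝ := (V * V) ^ S.card with hW
    have hVV : 1 ≤ V * V := by nlinarith [par.hV]
    have hW1 : 1 ≤ W := one_le_pow₀ hVV
    have hW0 : 0 < W := by linarith
    set γ₀ := ∏ l ∈ S, dy (k l) (G l) with hγ₀
    set γ : ℕ → ℝ := fun q => if q ≤ N then W⁻¹ * γ₀ q else 0 with hγ
    have hγ1 : ∀ q, |γ q| ≤ 1 := by
      intro q
      show |if q ≤ N then W⁻¹ * γ₀ q else 0| ≤ 1
      split_ifs with hq
      · rcases Nat.eq_zero_or_pos q with rfl | hq0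
        · rw [ArithmeticFunction.map_zero, mul_zero, abs_zero]
          exact zero_le_one
        · rw [abs_mul, abs_of_pos (inv_pos.2 hW0), inv_mul_le_iff₀ hW0, mul_one]
          exact bound S _ par.hV par.hV (fun l _ n hn hnN => bd_dy _ _ (hG l n hn hnN)) par.hVd hq0 hq
      · rw [abs_zero]
        exact zero_le_one
    have hγ2 : ∀ q : ℕ, γ q ≠ 0 → 1 ≤ q ∧ (q : ℝ) ≤ (N : ℝ) ^ (2 * c) := by
      intro q hq
      have h1 : q ≤ N ∧ γ₀ q ≠ 0 := by
        by_contra h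
        apply hq
        show (if q ≤ N then W⁻¹ * γ₀ q else 0) = 0
        split_ifs with h2
        · by_contra h4
          exact h ⟨h2, fun h5 => h4 (by rw [h5, mul_zero])⟩
        · rfl
      obtain ⟨h2, h4⟩ := supp S k G h1.2
      refine ⟨?_, ?_⟩
      · exact le_trans Nat.one_le_two_pow h2
      · have h5 : q ≤ 2 ^ (u + r) := h4.trans (Nat.pow_le_pow_right (by norm_num) (by omega))
        have h6 : (q : ℝ) ≤ 2 ^ (u + r) := by exact_mod_cast h5
        exact h6.trans par.hq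
    obtain ⟨wi, hwi1, hwi2, hwi3, hwi4⟩ := t3_w par.hV par.hVlog hi
    obtain ⟨wj, hwj1, hwj2, hwj3, hwj4⟩ := t3_w par.hV par.hVlog hj
    set A₁ := 2 ^ (k i) with hA₁
    set A₂ := min (2 ^ (k i + 1)) (N + 1) with hA₂
    set B₁ := 2 ^ (k j) with hB₁
    set B₂ := min (2 ^ (k j + 1)) (N + 1) with hB₂
    have hdy : ∀ (l : ι) (w : ℕ → ℝ), (∀ n, n ≠ 0 → G l n = w n) → ∀ n, n ≠ 0 → n ≤ N →
        dy (k l) (G l) n = if 2 ^ (k l) ≤ n ∧ n < min (2 ^ (k l + 1)) (N + 1) then w n else 0 := by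
      intro l w hw n hn hnN
      rw [dy_apply]
      have h1 : (2 ^ (k l) ≤ n ∧ n < 2 ^ (k l + 1)) ↔ (2 ^ (k l) ≤ n ∧ n < min (2 ^ (k l + 1)) (N + 1)) := by
        rw [lt_min_iff]
        constructor
        · rintro ⟨a, b⟩
          exact ⟨a, b, by omega⟩
        · rintro ⟨a, b, -⟩
          exact ⟨a, b⟩
      by_cases h2 : 2 ^ (k l) ≤ n ∧ n < 2 ^ (k l + 1)
      · rw [if_pos h2, if_pos (h1.1 h2), hw n hn]
      · rw [if_neg h2, if_neg fun h => h2 (h1.2 h)]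
    have hfun : p (fun m => (∏ l, dy (k l) (G l)) m) = W * p (t3_Q γ
        (fun a => if A₁ ≤ a ∧ a < A₂ then wi a else 0) (fun b => if B₁ ≤ b ∧ b < B₂ then wj b else 0)) := by
      rw [← Real.norm_of_nonneg hW0.le, ← map_smul_eq_mul p]
      refine hp.congr fun m hm hmN => ?_
      rw [hprod, ArithmeticFunction.mul_apply, Pi.smul_apply, smul_eq_mul, t3_Q, Finset.mul_sum]
      refine Finset.sum_congr rfl fun x hx => ?_
      have hx' := Nat.mem_divisorsAntidiagonal.1 hx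
      have hx1 : x.1 ≤ m := Nat.divisor_le (Nat.fst_mem_divisors_of_mem_antidiagonal hx)
      have hx2 : x.2 ≤ m := Nat.divisor_le (Nat.snd_mem_divisors_of_mem_antidiagonal hx)
      have hγx : γ x.1 = W⁻¹ * γ₀ x.1 := if_pos (hx1.trans hmN)
      rw [hγx, ArithmeticFunction.mul_apply]
      have h1 : ∑ y ∈ x.2.divisorsAntidiagonal, dy (k i) (G i) y.1 * dy (k j) (G j) y.2 =
          ∑ y ∈ x.2.divisorsAntidiagonal, (if A₁ ≤ y.1 ∧ y.1 < A₂ then wi y.1 else 0) *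
            (if B₁ ≤ y.2 ∧ y.2 < B₂ then wj y.2 else 0) := by
        refine Finset.sum_congr rfl fun y hy => ?_
        have hy' := Nat.mem_divisorsAntidiagonal.1 hy
        have hy1 : y.1 ≤ x.2 := Nat.divisor_le (Nat.fst_mem_divisors_of_mem_antidiagonal hy)
        have hy2 : y.2 ≤ x.2 := Nat.divisor_le (Nat.snd_mem_divisors_of_mem_antidiagonal hy)
        have hn1 : y.1 ≠ 0 := fun h => hy'.2 (by rw [← hy'.1, h, zero_mul])
        have hn2 : y.2 ≠ 0 := fun h => hy'.2 (by rw [← hy'.1, h, mul_zero])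
        rw [hdy i wi hwi4 _ hn1 (by omega), hdy j wj hwj4 _ hn2 (by omega)]
      rw [h1]
      have h2 : W * W⁻¹ = 1 := mul_inv_cancel₀ hW0.ne'
      calc γ₀ x.1 * _ = (W * W⁻¹) * (γ₀ x.1 * _) := by rw [h2, one_mul]
        _ = _ := by ring
    have hin : ∀ A B, A₁ ≤ A → B₁ ≤ B → p (t3_Q γ (fun a => if A ≤ a ∧ a < A₂ then 1 else 0)
        (fun b => if B ≤ b ∧ b < B₂ then 1 else 0)) ≤ X := by
      intro A B hA hB
      have hlow : ∀ l, v < k l → ∀ A : ℕ, 2 ^ (k l) ≤ A → (N : ℝ) ^ (1 / 2 - 2 * η) ≤ (A : ℝ) := by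
        intro l hl A hA
        refine par.hA.trans ?_
        have h1 : 2 ^ (v + 1) ≤ A := (Nat.pow_le_pow_right (by norm_num) (by omega)).trans hA
        exact_mod_cast h1
      have hupp : ∀ l, k l + 1 ≤ L - v → ((min (2 ^ (k l + 1)) (N + 1) : ℕ) : ℝ) ≤ (N : ℝ) ^ (1 / 2 + 2 * η) := by
        intro l hl
        refine le_trans ?_ par.hB
        have h1 : min (2 ^ (k l + 1)) (N + 1) ≤ 2 ^ (L - v) :=
          (min_le_left _ _).trans (Nat.pow_le_pow_right (by norm_num) hl)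
        exact_mod_cast h1
      have hdbl : ∀ l A, 2 ^ (k l) ≤ A → min (2 ^ (k l + 1)) (N + 1) ≤ 2 * A := by
        intro l A hA
        refine (min_le_left _ _).trans ?_
        rw [pow_succ]
        omega
      exact h3 A A₂ B B₂ (hlow i hki A hA) (hupp i (by omega)) (hlow j hkj B hB) (hupp j (by omega))
        (hdbl i A hA) (hdbl j B hB) γ hγ1 hγ2
    have hin2 : ∀ A, A₁ ≤ A → p (t3_L1 γ (fun b => if B₁ ≤ b ∧ b < B₂ then wj b else 0)
        (fun a => if A ≤ a ∧ a < A₂ then 1 else 0)) ≤ V * X := by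
      intro A hA
      exact abel p (t3_L2 γ (fun a => if A ≤ a ∧ a < A₂ then 1 else 0)) X B₁ B₂ (fun B hB => hin A B hA hB)
        wj hwj1 hwj2 hV0 (fun b hb => hwj3 b (by rw [hB₂, lt_min_iff] at hb; omega))
    have hin3 : p (t3_L1 γ (fun b => if B₁ ≤ b ∧ b < B₂ then wj b else 0)
        (fun a => if A₁ ≤ a ∧ a < A₂ then wi a else 0)) ≤ V * (V * X) :=
      abel p (t3_L1 γ (fun b => if B₁ ≤ b ∧ b < B₂ then wj b else 0)) (V * X) A₁ A₂ hin2
        wi hwi1 hwi2 hV0 (fun b hb => hwi3 b (by rw [hA₂, lt_min_iff] at hb; omega))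
    rw [hfun]
    calc W * p _ ≤ W * (V * (V * X)) := mul_le_mul_of_nonneg_left hin3 hW0.le
      _ = V ^ (2 * S.card + 2) * X := by
        rw [hW, ← sq, ← pow_mul, pow_add]
        ring
      _ ≤ V ^ (2 * r + 2) * X := mul_le_mul_of_nonneg_right (pow_le_pow_right₀ par.hV (by omega)) hX0

end Pool.Agent.Lib.H81A
end
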