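import Mathlib
import Pool.Agent.Lib.H59M.M1.M003
import Pool.Agent.Lib.H59M.M1.M004

/-! Merged copies (to shorten the build) of Lib.H44W.U2, Lib.H9S.Defs, Lib.H44W.U3, Lib.H44W.U4, Lib.H9S.D1, Lib.H9S.X1, Lib.H9S.O1, Lib.H9S.E1, Lib.H9S.K1, Lib.H9S.K2, Lib.H9S.K3, Lib.H9S.P1, Lib.H9S.P2, Lib.H9S.T1, Lib.H9S.T2. -/

-- from Lib.H44W.U2
section
/-!
CHUNK U2 (S). Algebra of TF.
TF_swap: exchange the sums, x + y = y + x, W' v = W (-v). TF_add / TF_sub / TF_smul / TF_sum: linearity in F.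
-/
namespace Pool.Agent.H44W
open Finset

theorem TF_swap (n : ℕ) (F W f g : ℤ → ℂ) :
    TF n F W f g = TF n F (fun v => W (-v)) g f := by
  unfold TF
  rw [Finset.sum_comm]
  refine Finset.sum_congr rfl fun y _ => Finset.sum_congr rfl fun x _ => ?_
  have h1 : x + y = y + x := add_comm x y
  have h2 : x - y = -(y - x) := by ring
  rw [h1, h2]
  ring

theorem TF_sum_sub {ι : Type*} (n : ℕ) (Q : Finset ι) (ga : ι → ℂ) (P M : ι → ℤ → ℂ)
    (W f g : ℤ → ℂ) :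
    TF n (fun m => ∑ q ∈ Q, ga q * (P q m - M q m)) W f g =
      ∑ q ∈ Q, ga q * (TF n (P q) W f g - TF n (M q) W f g) := by
  unfold TF
  have h : ∀ q ∈ Q, ga q * ((∑ x ∈ Icc (1:ℤ) n, ∑ y ∈ Icc (1:ℤ) n, f x * g y * P q (x + y) * W (x - y)) -
      ∑ x ∈ Icc (1:ℤ) n, ∑ y ∈ Icc (1:ℤ) n, f x * g y * M q (x + y) * W (x - y)) =
      ∑ x ∈ Icc (1:ℤ) n, ∑ y ∈ Icc (1:ℤ) n, ga q * (f x * g y * (P q (x + y) - M q (x + y)) * W (x - y)) := by
    intro q _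
    rw [← Finset.sum_sub_distrib, Finset.mul_sum]
    refine Finset.sum_congr rfl fun x _ => ?_
    rw [← Finset.sum_sub_distrib, Finset.mul_sum]
    refine Finset.sum_congr rfl fun y _ => ?_
    ring
  rw [Finset.sum_congr rfl h]
  refine Eq.trans ?_ Finset.sum_comm
  refine Finset.sum_congr rfl fun x _ => ?_
  refine Eq.trans ?_ Finset.sum_comm
  refine Finset.sum_congr rfl fun y _ => ?_
  rw [Finset.mul_sum, Finset.sum_mul]
  refine Finset.sum_congr rfl fun q _ => ?_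
  ring

end Pool.Agent.H44W
end

-- from Lib.H9S.Defs
section

/-!
# Project H9S (MP_443e5f_co, candidate T, module STAR): from the inverse theorem for `Λ` to the operator bound

`INV`: if `T(Λ; W, f, g)` is large, `g` has a large Fourier coefficient (module A + B + C + D, proved in `H37T`).
Here: the same for `lp`, for the projections `Lk Q' Y = lp * kern` of low level `Q'` (translation), hence (with
`H59T.LK_box`) for `E = lp - Lk Q (X / Q^2)`; dual functions; exponential sums of `E`. See `PROOF.md`.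
-/

namespace Pool.Agent.H9S

open Finset Pool.Agent.H44W
open Pool.Agent.Lib.H68T (lp Lk kern tent cq)

noncomputable section

/-- Functions bounded by `1`. -/
def Bd (f : ℤ → ℂ) : Prop := ∀ x, ‖f x‖ ≤ 1

/-- All Fourier coefficients of `g` over `T` are at most `κ`. -/
def FB (T : Finset ℤ) (g : ℤ → ℂ) (κ : ℝ) : Prop := ∀ th : ℝ, ‖∑ z ∈ T, g z * ee (th * z)‖ ≤ κ

/-- The bilinear form over `S × T`. -/
def BF (S T : Finset ℤ) (F W f g : ℤ → ℂ) : ℂ := ∑ x ∈ S, ∑ y ∈ T, f x * g y * F (x + y) * W (x - y)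

/-- The inverse theorem for the von Mangoldt function (proved in `H37T`, the same proposition). -/
def INV : Prop :=
  ∀ c1 : ℝ, 0 < c1 → ∃ c2 : ℝ, 0 < c2 ∧ ∃ n0 : ℕ, ∀ n : ℕ, n0 ≤ n → ∀ W f g : ℤ → ℂ,
    (∀ x, ‖W x‖ ≤ 1) → (∀ x, ‖f x‖ ≤ 1) → (∀ x, ‖g x‖ ≤ 1) →
    (∀ th : ℝ, ‖∑ z ∈ Icc (1:ℤ) n, g z * ee (th * z)‖ ≤ (n:ℝ) ^ (1 - c1)) →
    ‖TF n (fun m => ((ArithmeticFunction.vonMangoldt m.toNat : ℝ) : ℂ)) W f g‖ ≤ (n:ℝ) ^ (2 - c2)

/-- `lp` with complex values. -/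
def lc (m : ℤ) : ℂ := ((lp m : ℝ) : ℂ)

/-- The projection with complex values. -/
def Lc (Q Y : ℕ) (m : ℤ) : ℂ := ((Lk Q Y m : ℝ) : ℂ)

/-- The error `E = lp - Lk Q (X / Q^2)`. -/
def Ec (Q X : ℕ) (m : ℤ) : ℂ := lc m - Lc Q (X / Q ^ 2) m

/-- The range of `x`. -/
def Sx (X : ℕ) : Finset ℤ := Ico (2 * (X:ℤ)) (3 * X)

/-- The range of `y`. -/
def Sy (X : ℕ) : Finset ℤ := Ioo (-(X:ℤ)) X

/-- The inverse theorem for `lp`: `f` or `g` without large Fourier coefficient. -/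
def INVL : Prop :=
  ∀ c1 : ℝ, 0 < c1 → ∃ c2 : ℝ, 0 < c2 ∧ ∃ n0 : ℕ, ∀ n : ℕ, n0 ≤ n → ∀ W f g : ℤ → ℂ,
    Bd W → Bd f → Bd g →
    (FB (Icc (1:ℤ) n) g ((n:ℝ) ^ (1 - c1)) ∨ FB (Icc (1:ℤ) n) f ((n:ℝ) ^ (1 - c1))) →
    ‖TF n lc W f g‖ ≤ (n:ℝ) ^ (2 - c2)

/-- The inverse theorem for `lp` on boxes. -/
def INVB : Prop :=
  ∀ c1 : ℝ, 0 < c1 → ∃ c2 : ℝ, 0 < c2 ∧ ∃ n0 : ℕ, ∀ n : ℕ, n0 ≤ n → ∀ (a : ℤ) (S T : Finset ℤ),
    (∀ x ∈ S, a + 1 ≤ x ∧ x ≤ a + 4 * n) → (∀ y ∈ T, 1 - a ≤ y ∧ y ≤ 4 * n - a) → ∀ W f g : ℤ → ℂ,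
    Bd W → Bd f → Bd g → (FB T g ((n:ℝ) ^ (1 - c1)) ∨ FB S f ((n:ℝ) ^ (1 - c1))) →
    ‖BF S T lc W f g‖ ≤ (n:ℝ) ^ (2 - c2)

/-- The inverse theorem for `lp` and for the projections of level `Q'` (loss `Q'^3`). -/
def INVK : Prop :=
  ∀ c1 : ℝ, 0 < c1 → ∃ c2 : ℝ, 0 < c2 ∧ ∃ n0 : ℕ, ∀ n : ℕ, n0 ≤ n → ∀ X : ℕ, 1 ≤ X → X ≤ n →
    ∀ W f g : ℤ → ℂ, Bd W → Bd f → Bd g →
    (FB (Sy X) g ((n:ℝ) ^ (1 - c1)) ∨ FB (Sx X) f ((n:ℝ) ^ (1 - c1))) →
    ‖BF (Sx X) (Sy X) lc W f g‖ ≤ (n:ℝ) ^ (2 - c2) ∧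
    ∀ Q Y : ℕ, Y < X → ‖BF (Sx X) (Sy X) (Lc Q Y) W f g‖ ≤ (Q:ℝ) ^ 3 * (n:ℝ) ^ (2 - c2)

/-- The difference of the projections of the levels `Q` and `Q' ≤ Q` (theorem `H59T.LK_box`) at fixed `Q`, `X`. -/
def LKd (C : ℝ) (Q X : ℕ) : Prop :=
  ∀ Q' : ℕ, 1 ≤ Q' → Q' ≤ Q → ∀ W f g : ℤ → ℂ, Bd W → Bd f → Bd g →
    ‖BF (Sx X) (Sy X) (fun m => Lc Q (X / Q ^ 2) m - Lc Q' (X / Q ^ 2) m) W f g‖ ≤
      C * (X:ℝ) ^ 2 * (Q':ℝ) ^ (-(1 / 1152 : ℝ))

/-- The inverse theorem for `E`. The constant `c2` depends only on `Cr` (`log n ≤ Cr log Q`), `C` and `c1`. -/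
def INVE : Prop :=
  ∀ Cr C c1 : ℝ, 1 ≤ Cr → 0 < C → 0 < c1 → ∃ c2 : ℝ, 0 < c2 ∧ ∃ n0 : ℕ, ∀ n : ℕ, n0 ≤ n →
    ∀ Q X : ℕ, 2 ≤ Q → Real.log n ≤ Cr * Real.log Q → 1 ≤ X → X ≤ n → LKd C Q X →
    ∀ W f g : ℤ → ℂ, Bd W → Bd f → Bd g →
    (FB (Sy X) g ((n:ℝ) ^ (1 - c1)) ∨ FB (Sx X) f ((n:ℝ) ^ (1 - c1))) →
    ‖BF (Sx X) (Sy X) (Ec Q X) W f g‖ ≤ (n:ℝ) ^ (2 - c2)

/-- The operator bound for one weight `W` bounded by `n^c`. -/
def OPW : Prop :=
  ∀ Cr C : ℝ, 1 ≤ Cr → 0 < C → ∃ c : ℝ, 0 < c ∧ ∃ n0 : ℕ, ∀ n : ℕ, n0 ≤ n →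
    ∀ Q X : ℕ, 2 ≤ Q → Real.log n ≤ Cr * Real.log Q → 1 ≤ X → X ≤ n → LKd C Q X →
    (∀ th : ℝ, ∀ u v : ℤ, (X:ℤ) ≤ u → v ≤ 4 * X →
      ‖∑ m ∈ Ico u v, Ec Q X m * ee (th * m)‖ ≤ X * (Q:ℝ) ^ (-(1 / 4) : ℝ)) →
    (∀ m : ℤ, (X:ℤ) ≤ m → m ≤ 4 * X → ‖Ec Q X m‖ ≤ (n:ℝ) ^ c) →
    ∀ W f g : ℤ → ℂ, (∀ v : ℤ, (X:ℤ) < v → v < 4 * X → ‖W v‖ ≤ (n:ℝ) ^ c) → Bd f → Bd g →
    ‖BF (Sx X) (Sy X) (Ec Q X) W f g‖ ≤ (n:ℝ) ^ (2 - c)

end

end Pool.Agent.H9S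
end

-- from Lib.H44W.U3
section
/-!
CHUNK U3 (M). One pair of windows.
Let v be fixed. Claim (one_pair_v): for windows J = Ico u1 (u1 + l), I = Ico u2 (u2 + l) (meaning x in J, y in I) and real al, be,
|sum over x in [1,n] cap J, with x - v in [1,n] cap I, of F(2x - v) * ee(al x + be (x - v))| <= l * tau.
Proof: x runs over an interval Ico c (c + r) with 0 <= r <= l (intersection of intervals), m = 2x - v runs over the m in
Ico (2c - v) (2c + 2r - v) with m = v mod 2 and x + y = m in [2, 2n]. If the x-interval is empty the sum is 0. Otherwise cut the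
m-interval to u = 2c - v >= 1 and v' = 2(c + r) - v - 1 <= 2n + 1 (the last m is 2(c+r-1) - v <= 2n): the sum over m in Ico u v' with
m = v mod 2 of F m * ee(al (m+v)/2 + be (m-v)/2) = ee((al-be) v/2) * sum of F m ee((al+be)/2 * m) [m = v mod 2], and the indicator
of m = v mod 2 is (1 + ee((m-v)/2))/2 (ee_half), so the sum is the mean of two sums of the type in hF
(gamma = (al+be)/2 and gamma = (al+be)/2 + 1/2), each <= l tau, v' - u <= 2 l.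
-/
namespace Pool.Agent.H44W
open Finset

theorem u3_term (v m : ℤ) (al be : ℝ) (z : ℂ) :
    (if Even (m - v) then z * ee (al * ((m + v) / 2) + be * ((m - v) / 2)) else 0)
      = (1 / 2) * ee ((al - be) * (v / 2)) * (z * ee ((al + be) / 2 * m))
        + (1 / 2) * (ee ((al - be) * (v / 2)) * ee (-((v:ℝ) / 2))) * (z * ee (((al + be) / 2 + 1 / 2) * m)) := by
  have e1 : ee (((al + be) / 2 + 1 / 2) * m) = ee ((al + be) / 2 * m) * ee ((m:ℝ) / 2) := by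
    rw [← ee_add]
    congr 1
    ring
  have e2 : ee (-((v:ℝ) / 2)) * ee ((m:ℝ) / 2) = if Even (m - v) then 1 else -1 := by
    rw [← ee_half, ← ee_add]
    congr 1
    push_cast
    ring
  have e3 : ee (al * ((m + v) / 2) + be * ((m - v) / 2)) = ee ((al - be) * (v / 2)) * ee ((al + be) / 2 * m) := by
    rw [← ee_add]
    congr 1
    ring
  have e4 : (1 / 2) * (ee ((al - be) * (v / 2)) * ee (-((v:ℝ) / 2))) * (z * (ee ((al + be) / 2 * m) * ee ((m:ℝ) / 2)))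
      = (1 / 2) * ee ((al - be) * (v / 2)) * (z * ee ((al + be) / 2 * m)) * (ee (-((v:ℝ) / 2)) * ee ((m:ℝ) / 2)) := by
    ring
  rw [e1, e4, e2, e3]
  split_ifs
  · ring
  · ring

theorem one_pair_v (n l : ℕ) (F : ℤ → ℂ) (tau : ℝ) (htau : 0 ≤ tau)
    (hF : ∀ u v : ℤ, 1 ≤ u → u ≤ v → v ≤ 2 * n + 1 → v - u ≤ 2 * l → ∀ ga : ℝ,
      ‖∑ m ∈ Ico u v, F m * ee (ga * m)‖ ≤ l * tau)
    (v u1 u2 : ℤ) (al be : ℝ) :
    ‖∑ x ∈ (Icc (1:ℤ) n).filter (fun x => x ∈ Ico u1 (u1 + l) ∧ x - v ∈ Icc (1:ℤ) n ∧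
        x - v ∈ Ico u2 (u2 + l)), F (2 * x - v) * ee (al * x + be * (x - v))‖ ≤ l * tau := by
  have hlt : 0 ≤ (l:ℝ) * tau := mul_nonneg (Nat.cast_nonneg _) htau
  obtain ⟨c, hc⟩ : ∃ c : ℤ, c = max (max 1 u1) (max (v + 1) (v + u2)) := ⟨_, rfl⟩
  obtain ⟨d, hd⟩ : ∃ d : ℤ, d = min (min ((n:ℤ) + 1) (u1 + l)) (min (v + n + 1) (v + u2 + l)) := ⟨_, rfl⟩
  have hcd : (Icc (1:ℤ) n).filter (fun x => x ∈ Ico u1 (u1 + l) ∧ x - v ∈ Icc (1:ℤ) n ∧
        x - v ∈ Ico u2 (u2 + l)) = Ico c d := by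
    ext x
    simp only [Finset.mem_filter, Finset.mem_Icc, Finset.mem_Ico]
    omega
  rw [hcd]
  rcases le_or_gt d c with hle | hgt
  · rw [Finset.Ico_eq_empty (by omega), Finset.sum_empty, norm_zero]
    exact hlt
  have e1 : ∑ x ∈ Ico c d, F (2 * x - v) * ee (al * x + be * (x - v))
      = ∑ m ∈ (Ico (2 * c - v) (2 * d - v - 1)).filter (fun m => Even (m - v)),
          F m * ee (al * ((m + v) / 2) + be * ((m - v) / 2)) := by
    refine Finset.sum_nbij' (fun x => 2 * x - v) (fun m => (m + v) / 2) ?_ ?_ ?_ ?_ ?_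
    · intro x hx
      have h3 := Finset.mem_Ico.1 hx
      refine Finset.mem_filter.2 ⟨Finset.mem_Ico.2 ⟨by omega, by omega⟩, ?_⟩
      exact ⟨x - v, by ring⟩
    · intro m hm
      obtain ⟨h3, k, hk⟩ := Finset.mem_filter.1 hm
      have h4 := Finset.mem_Ico.1 h3
      exact Finset.mem_Ico.2 ⟨by omega, by omega⟩
    · intro x _
      omega
    · intro m hm
      obtain ⟨h3, k, hk⟩ := Finset.mem_filter.1 hm
      omega
    · intro x _
      congr 2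
      push_cast
      ring
  rw [e1, Finset.sum_filter, Finset.sum_congr rfl fun m _ => u3_term v m al be (F m), Finset.sum_add_distrib,
    ← Finset.mul_sum, ← Finset.mul_sum]
  have h5 := hF (2 * c - v) (2 * d - v - 1) (by omega) (by omega) (by omega) (by omega)
  refine (norm_add_le _ _).trans ?_
  rw [norm_mul, norm_mul, norm_mul, norm_mul, norm_mul, norm_ee, norm_ee, norm_div, norm_one, Complex.norm_ofNat]
  have h6 := h5 ((al + be) / 2)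
  have h7 := h5 ((al + be) / 2 + 1 / 2)
  linarith

end Pool.Agent.H44W
end

-- from Lib.H44W.U4
section
/-!
CHUNK U4 (M). The form at two window-linear functions.
w1 y = ep1 (j) ee(th1 j * y), j = (y - r1)/l; w2 y = ep2 (k) ee(th2 k * y), k = (y - r2)/l (floor division by l >= 1).
The sum over x in [1,n], y in [1,n] is split according to j = (x - r1)/l, k = (y - r2)/l and v = x - y:
for given j, k: x in Ico (r1 + j l) (r1 + (j+1) l) and y in Ico (r2 + k l) (r2 + (k+1) l), so v = x - y takes at most 2 l values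
(v lies in Ico (c - l) (c + l), c = r1 + j l - r2 - k l), and for given j, k, v the sum over x is
ep1 j * ep2 k * W v * sum of F (2x - v) ee(th1 j x + th2 k (x - v)) over the set of one_pair_v: norm <= l tau (|W| <= 1, |ep| <= 1).
The number of j (windows meeting [1,n]) is at most n/l + 2 <= 3 n/l (l <= n), the same for k. Total <= (3n/l)^2 * 2l * l tau
= 18 n^2 tau.
Suggestion: image of Icc 1 n under x -> (x - r1)/l is contained in Icc ((1-r1)/l) ((n-r1)/l), whose cardinality is <= n/l + 2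
(Int.ediv facts); use Finset.sum_fiberwise_of_maps_to for (x,y) -> (j,k,v) on the product Icc x Icc, and card of a set of triples
contained in a sigma/product.
-/
namespace Pool.Agent.H44W
open Finset

theorem u4_div (l : ℕ) (hl : 1 ≤ l) (a j : ℤ) : a / (l:ℤ) = j ↔ j * l ≤ a ∧ a < j * l + l := by
  have hl' : (0:ℤ) < l := by exact_mod_cast hl
  constructor
  · rintro rfl
    constructor
    · exact Int.ediv_mul_le a hl'.ne'
    · have := Int.lt_ediv_add_one_mul_self a hl'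
      linarith
  · rintro ⟨h1, h2⟩
    apply le_antisymm
    · have : a / (l:ℤ) < j + 1 := Int.ediv_lt_of_lt_mul hl' (by linarith)
      omega
    · exact Int.le_ediv_of_mul_le hl' h1

theorem u4_card (n l : ℕ) (hl : 1 ≤ l) (hln : l ≤ n) (r : ℤ) :
    ((Icc ((1 - r) / (l:ℤ)) (((n:ℤ) - r) / l)).card : ℝ) ≤ 3 * n / l := by
  have hl' : (0:ℤ) < l := by exact_mod_cast hl
  have hlr : (0:ℝ) < l := by exact_mod_cast hl
  rw [le_div_iff₀ hlr, Int.card_Icc]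
  obtain ⟨A, hAd⟩ : ∃ A, A = ((n:ℤ) - r) / l := ⟨_, rfl⟩
  obtain ⟨B, hBd⟩ : ∃ B, B = (1 - r) / (l:ℤ) := ⟨_, rfl⟩
  rw [← hAd, ← hBd]
  have hA : A * l ≤ n - r := by
    rw [hAd]
    exact Int.ediv_mul_le _ hl'.ne'
  have hB : 1 - r < (B + 1) * l := by
    rw [hBd]
    exact Int.lt_ediv_add_one_mul_self _ hl'
  have hln' : (l:ℤ) ≤ n := by exact_mod_cast hln
  have key : ((A + 1 - B).toNat : ℤ) * l ≤ 3 * n := by
    rcases le_total 0 (A + 1 - B) with h | h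
    · rw [Int.toNat_of_nonneg h]
      have e1 : (A + 1 - B) * (l:ℤ) = A * l + l - B * l := by ring
      have e2 : (B + 1) * (l:ℤ) = B * l + l := by ring
      rw [e1]
      rw [e2] at hB
      linarith
    · rw [Int.toNat_of_nonpos h]
      simp
  exact_mod_cast key

theorem TF_WL (n l : ℕ) (hl : 1 ≤ l) (hln : l ≤ n) (F W : ℤ → ℂ) (hW : ∀ x, ‖W x‖ ≤ 1) (tau : ℝ)
    (htau : 0 ≤ tau)
    (hF : ∀ u v : ℤ, 1 ≤ u → u ≤ v → v ≤ 2 * n + 1 → v - u ≤ 2 * l → ∀ ga : ℝ,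
      ‖∑ m ∈ Ico u v, F m * ee (ga * m)‖ ≤ l * tau)
    (w1 w2 : ℤ → ℂ) (h1 : WL l w1) (h2 : WL l w2) :
    ‖TF n F W w1 w2‖ ≤ 18 * (n:ℝ) ^ 2 * tau := by
  classical
  obtain ⟨r1, ep1, th1, he1, hw1⟩ := h1
  obtain ⟨r2, ep2, th2, he2, hw2⟩ := h2
  have hl' : (0:ℤ) < l := by exact_mod_cast hl
  have hlr : (0:ℝ) < l := by exact_mod_cast hl
  let S : Finset (ℤ × ℤ) := Icc (1:ℤ) n ×ˢ Icc (1:ℤ) n
  let f : ℤ × ℤ → ℂ := fun p => w1 p.1 * w2 p.2 * F (p.1 + p.2) * W (p.1 - p.2)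
  let cc : ℤ → ℤ → ℤ := fun j k => (r1 + j * l) - (r2 + k * l)
  let g : ℤ × ℤ → ℤ × ℤ × ℤ := fun p =>
    ((p.1 - r1) / l, (p.2 - r2) / l, p.1 - p.2 - cc ((p.1 - r1) / l) ((p.2 - r2) / l))
  let J := Icc ((1 - r1) / (l:ℤ)) (((n:ℤ) - r1) / l)
  let K := Icc ((1 - r2) / (l:ℤ)) (((n:ℤ) - r2) / l)
  let T : Finset (ℤ × ℤ × ℤ) := J ×ˢ K ×ˢ Ico (-(l:ℤ)) l
  have hTF : TF n F W w1 w2 = ∑ p ∈ S, f p := by
    unfold TF
    simp only [S, f]
    rw [Finset.sum_product]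
  have hmaps : ∀ p ∈ S, g p ∈ T := by
    intro p hp
    rw [Finset.mem_product, mem_Icc, mem_Icc] at hp
    obtain ⟨⟨a1, a2⟩, b1, b2⟩ := hp
    have e1 := (u4_div l hl (p.1 - r1) _).1 rfl
    have e2 := (u4_div l hl (p.2 - r2) _).1 rfl
    simp only [T, g, J, K, Finset.mem_product, mem_Icc, mem_Ico]
    refine ⟨⟨Int.ediv_le_ediv hl' (by linarith), Int.ediv_le_ediv hl' (by linarith)⟩,
      ⟨Int.ediv_le_ediv hl' (by linarith), Int.ediv_le_ediv hl' (by linarith)⟩, ?_, ?_⟩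
    · simp only [cc]
      linarith [e1.1, e1.2, e2.1, e2.2]
    · simp only [cc]
      linarith [e1.1, e1.2, e2.1, e2.2]
  have hfib : ∀ τ ∈ T, ‖∑ p ∈ S with g p = τ, f p‖ ≤ l * tau := by
    rintro ⟨j, k, u⟩ _
    obtain ⟨v, hv⟩ : ∃ v, v = u + cc j k := ⟨_, rfl⟩
    have hsum : ∑ p ∈ S with g p = (j, k, u), f p = (ep1 j * ep2 k * W v) *
        ∑ x ∈ (Icc (1:ℤ) n).filter (fun x => x ∈ Ico (r1 + j * l) (r1 + j * l + l) ∧
          x - v ∈ Icc (1:ℤ) n ∧ x - v ∈ Ico (r2 + k * l) (r2 + k * l + l)),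
          F (2 * x - v) * ee (th1 j * x + th2 k * (x - v)) := by
      rw [Finset.mul_sum]
      have hkey : ∀ p : ℤ × ℤ, g p = (j, k, u) ↔ ((p.1 - r1) / l = j ∧ (p.2 - r2) / l = k ∧
          p.2 = p.1 - v) := by
        intro p
        simp only [g, Prod.mk.injEq]
        constructor
        · rintro ⟨c1, c2, c3⟩
          refine ⟨c1, c2, ?_⟩
          rw [c1, c2] at c3
          rw [hv]
          linarith
        · rintro ⟨c1, c2, c3⟩
          refine ⟨c1, c2, ?_⟩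
          rw [c1, c2, c3, hv]
          ring
      refine Finset.sum_bij' (fun p _ => p.1) (fun x _ => (x, x - v)) ?_ ?_ ?_ ?_ ?_
      · intro p hp
        rw [Finset.mem_filter, hkey] at hp
        obtain ⟨hpS, c1, c2, c3⟩ := hp
        rw [Finset.mem_product] at hpS
        have d1 := (u4_div l hl _ _).1 c1
        have d2 := (u4_div l hl _ _).1 c2
        rw [Finset.mem_filter, mem_Ico, mem_Ico, ← c3]
        refine ⟨hpS.1, ⟨by linarith [d1.1], by linarith [d1.2]⟩, hpS.2,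
          by linarith [d2.1], by linarith [d2.2]⟩
      · intro x hx
        rw [Finset.mem_filter, mem_Ico, mem_Ico] at hx
        obtain ⟨hx1, ⟨hx2, hx3⟩, hx4, hx5, hx6⟩ := hx
        rw [Finset.mem_filter, hkey]
        refine ⟨Finset.mem_product.2 ⟨hx1, hx4⟩, ?_, ?_, rfl⟩
        · exact (u4_div l hl _ _).2 ⟨by linarith, by linarith⟩
        · exact (u4_div l hl _ _).2 ⟨by linarith, by linarith⟩
      · intro p hp
        rw [Finset.mem_filter, hkey] at hp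
        exact Prod.ext rfl hp.2.2.2.symm
      · intro x hx
        rfl
      · intro p hp
        rw [Finset.mem_filter, hkey] at hp
        obtain ⟨hpS, c1, c2, c3⟩ := hp
        simp only [f]
        rw [hw1 p.1, hw2 p.2, c1, c2, ee_add]
        have g1 : p.1 + p.2 = 2 * p.1 - v := by
          rw [c3]
          ring
        have g2 : p.1 - p.2 = v := by
          rw [c3]
          ring
        have g3 : (p.2 : ℝ) = (p.1 : ℝ) - (v : ℝ) := by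
          rw [c3]
          push_cast
          ring
        rw [g1, g2, g3]
        ring
    rw [hsum, norm_mul, norm_mul, norm_mul]
    have hone := one_pair_v n l F tau htau hF v (r1 + j * l) (r2 + k * l) (th1 j) (th2 k)
    have hc : ‖ep1 j‖ * ‖ep2 k‖ * ‖W v‖ ≤ 1 :=
      mul_le_one₀ (mul_le_one₀ (he1 j) (norm_nonneg _) (he2 k)) (norm_nonneg _) (hW v)
    calc ‖ep1 j‖ * ‖ep2 k‖ * ‖W v‖ * _ ≤ 1 * (l * tau) := by
          exact mul_le_mul hc hone (norm_nonneg _) zero_le_one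
      _ = l * tau := one_mul _
  rw [hTF, ← Finset.sum_fiberwise_of_maps_to hmaps f]
  refine (norm_sum_le _ _).trans ?_
  refine (Finset.sum_le_sum hfib).trans ?_
  rw [Finset.sum_const, nsmul_eq_mul]
  have hJ : (J.card : ℝ) ≤ 3 * n / l := u4_card n l hl hln r1
  have hK : (K.card : ℝ) ≤ 3 * n / l := u4_card n l hl hln r2
  have hTc : (T.card : ℝ) = J.card * (K.card * (2 * l)) := by
    simp only [T]
    rw [Finset.card_product, Finset.card_product, Int.card_Ico]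
    have : ((l:ℤ) - -(l:ℤ)).toNat = 2 * l := by omega
    rw [this]
    push_cast
    ring
  rw [hTc]
  calc (J.card : ℝ) * (K.card * (2 * l)) * (l * tau)
      ≤ (3 * n / l) * ((3 * n / l) * (2 * l)) * (l * tau) := by
        gcongr
    _ = 18 * (n:ℝ) ^ 2 * tau := by
        field_simp
        ring

end Pool.Agent.H44W
end

-- from Lib.H9S.D1
section
/-!
CHUNK D1 (M). Dual function (abstract kernel). `D y = ∑_{x ∈ S} f x * Kf x y`, `‖D y‖ ≤ L` on `T`. Put `g₁ y = conj (D y) / L` for `y ∈ T`, `0` else: `Bd g₁`.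
`∑_x ∑_y f g₁ Kf = ∑_{y ∈ T} ‖D y‖² / L` (real, nonnegative). Cauchy-Schwarz: `A² ≤ (∑_{y ∈ T} ‖g y‖ ‖D y‖)² ≤ #T ∑_{y ∈ T} ‖D y‖²`, so
`‖∑∑ f g₁ Kf‖ ≥ A² / (#T L) ≥ δ` (`T` nonempty, `hδ`). `hinv` gives `th` with `κ ≤ ‖∑_{y ∈ T} g₁ y ee(th y)‖`, and
`L ‖∑_y g₁ y ee(th y)‖ = ‖∑_y conj(D y) ee(th y)‖ = ‖∑_y D y ee(-(th y))‖` (`ee_neg`, `Complex.norm_conj`): the conclusion holds with `-th`.
-/
namespace Pool.Agent.H9S
open Finset Pool.Agent.H44W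

theorem D1_dual (S T : Finset ℤ) (hTn : T.Nonempty) (Kf : ℤ → ℤ → ℂ) (L : ℝ) (hL : 0 < L) (f : ℤ → ℂ)
    (hK : ∀ y ∈ T, ‖∑ x ∈ S, f x * Kf x y‖ ≤ L) (δ κ A : ℝ) (hA : 0 ≤ A)
    (hinv : ∀ g : ℤ → ℂ, Bd g → δ ≤ ‖∑ x ∈ S, ∑ y ∈ T, f x * g y * Kf x y‖ →
      ∃ th : ℝ, κ ≤ ‖∑ y ∈ T, g y * ee (th * y)‖)
    (g : ℤ → ℂ) (hg : Bd g) (hT : A ≤ ‖∑ x ∈ S, ∑ y ∈ T, f x * g y * Kf x y‖)
    (hδ : δ * (T.card * L) ≤ A ^ 2) :
    ∃ th : ℝ, κ * L ≤ ‖∑ x ∈ S, ∑ y ∈ T, f x * ee (th * y) * Kf x y‖ := by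
  obtain ⟨D, hD⟩ : ∃ D : ℤ → ℂ, ∀ y, D y = ∑ x ∈ S, f x * Kf x y := ⟨_, fun _ => rfl⟩
  have hswap : ∀ g : ℤ → ℂ, ∑ x ∈ S, ∑ y ∈ T, f x * g y * Kf x y = ∑ y ∈ T, g y * D y := by
    intro g
    rw [sum_comm]
    refine sum_congr rfl fun y _ => ?_
    rw [hD, mul_sum]
    refine sum_congr rfl fun x _ => ?_
    ring
  have hDL : ∀ y ∈ T, ‖D y‖ ≤ L := fun y hy => by
    rw [hD]
    exact hK y hy
  obtain ⟨g1, hg1⟩ : ∃ g1 : ℤ → ℂ, ∀ y, g1 y = if y ∈ T then (starRingEnd ℂ) (D y) / (L : ℂ) else 0 := ⟨_, fun _ => rfl⟩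
  have hg1B : Bd g1 := by
    intro y
    rw [hg1]
    split_ifs with hy
    · rw [norm_div, Complex.norm_conj, Complex.norm_real, Real.norm_eq_abs, abs_of_pos hL, div_le_one hL]
      exact hDL y hy
    · rw [norm_zero]
      exact zero_le_one
  have hsum : ∑ y ∈ T, g1 y * D y = (((∑ y ∈ T, ‖D y‖ ^ 2) / L : ℝ) : ℂ) := by
    rw [sum_div, Complex.ofReal_sum]
    refine sum_congr rfl fun y hy => ?_
    rw [hg1, if_pos hy, div_mul_eq_mul_div, mul_comm, Complex.mul_conj, Complex.normSq_eq_norm_sq]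
    push_cast
    ring
  have hTc : (0 : ℝ) < T.card := by exact_mod_cast card_pos.2 hTn
  have hCS : A ^ 2 ≤ T.card * ∑ y ∈ T, ‖D y‖ ^ 2 := by
    have h1 : A ≤ ∑ y ∈ T, ‖D y‖ := by
      refine hT.trans ?_
      rw [hswap]
      refine (norm_sum_le _ _).trans (sum_le_sum fun y _ => ?_)
      rw [norm_mul]
      exact mul_le_of_le_one_left (norm_nonneg _) (hg y)
    have h2 : (∑ y ∈ T, ‖D y‖) ^ 2 ≤ T.card * ∑ y ∈ T, ‖D y‖ ^ 2 := sq_sum_le_card_mul_sum_sq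
    exact (pow_le_pow_left₀ hA h1 2).trans h2
  have hδ' : δ ≤ ‖∑ x ∈ S, ∑ y ∈ T, f x * g1 y * Kf x y‖ := by
    rw [hswap, hsum, Complex.norm_real, Real.norm_eq_abs, abs_of_nonneg (by positivity)]
    rw [le_div_iff₀ hL]
    have h1 : (δ * L) * T.card ≤ (∑ y ∈ T, ‖D y‖ ^ 2) * T.card := by nlinarith
    exact le_of_mul_le_mul_right h1 hTc
  obtain ⟨th, hth⟩ := hinv g1 hg1B hδ'
  refine ⟨-th, ?_⟩
  rw [hswap]
  have h1 : ∑ y ∈ T, g1 y * ee (th * y) = (starRingEnd ℂ) (∑ y ∈ T, ee (-th * y) * D y) / (L : ℂ) := by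
    rw [map_sum, sum_div]
    refine sum_congr rfl fun y hy => ?_
    rw [hg1, if_pos hy, map_mul]
    have e1 : (starRingEnd ℂ) (ee (-th * y)) = ee (th * y) := by
      have e2 : -th * (y : ℝ) = -(th * y) := by ring
      rw [e2, ee_neg, Complex.conj_conj]
    rw [e1]
    ring
  rw [h1, norm_div, Complex.norm_conj, Complex.norm_real, Real.norm_eq_abs, abs_of_pos hL, le_div_iff₀ hL] at hth
  exact hth

end Pool.Agent.H9S
end

-- from Lib.H9S.X1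
section
/-!
CHUNK X1 (M). Two linear phases. Group the sum by `v = x - y ∈ (X, 4X)` (at most `3X` values; `W v` of norm `≤ M`): for fixed `v` the `x` with
`x ∈ [2X, 3X)`, `x - v ∈ (-X, X)` form an interval `Ico α β`, `α = max (2X) (v - X + 1)`, `β = min (3X) (v + X)`, and the terms are
`ee(a x) ee(b (x - v)) F(2x - v)`. `X1_par`: `m = 2x - v` runs over the `m ≡ v mod 2` in `Ico (2α - v) (2β - v)`,
`x = (m + v)/2`, and the indicator of `m ≡ v` is `(1 + ee((m - v)/2))/2` (`ee_half`), so the sum is the mean of two sums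
`∑ F m ee(γ m)` over the whole interval (times constants of norm 1), each at most `τ`. (The proof of `H44W.one_pair_v`, file
Lib/H44W/U3.lean, is the same argument, `u3_term` there may be imported.) The interval is inside `[X, 4X]`: `2α - v = α + (α - v) ≥ 2X - X + 1`,
`2β - v = β + (β - v) ≤ 3X + X`. Total `≤ 3X * M * τ` (`0 ≤ τ` from `hF` with the empty interval).
-/
namespace Pool.Agent.H9S
open Finset Pool.Agent.H44W

theorem X1_par (F : ℤ → ℂ) (τ : ℝ) (α β v : ℤ)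
    (hF : ∀ th : ℝ, ‖∑ m ∈ Ico (2 * α - v) (2 * β - v), F m * ee (th * m)‖ ≤ τ) (a b : ℝ) :
    ‖∑ x ∈ Ico α β, ee (a * x) * ee (b * (x - v)) * F (2 * x - v)‖ ≤ τ := by
  have e1 : ∑ x ∈ Ico α β, ee (a * x) * ee (b * (x - v)) * F (2 * x - v)
      = ∑ m ∈ (Ico (2 * α - v) (2 * β - v)).filter (fun m => Even (m - v)),
          F m * ee (a * ((m + v) / 2) + b * ((m - v) / 2)) := by
    refine Finset.sum_nbij' (fun x => 2 * x - v) (fun m => (m + v) / 2) ?_ ?_ ?_ ?_ ?_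
    · intro x hx
      have h3 := Finset.mem_Ico.1 hx
      refine Finset.mem_filter.2 ⟨Finset.mem_Ico.2 ⟨by omega, by omega⟩, ?_⟩
      exact ⟨x - v, by ring⟩
    · intro m hm
      obtain ⟨h3, k, hk⟩ := Finset.mem_filter.1 hm
      have h4 := Finset.mem_Ico.1 h3
      exact Finset.mem_Ico.2 ⟨by omega, by omega⟩
    · intro x _
      omega
    · intro m hm
      obtain ⟨h3, k, hk⟩ := Finset.mem_filter.1 hm
      omega
    · intro x _
      rw [← ee_add, mul_comm (F (2 * x - v))]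
      congr 2
      push_cast
      ring
  rw [e1, Finset.sum_filter, Finset.sum_congr rfl fun m _ => u3_term v m a b (F m), Finset.sum_add_distrib,
    ← Finset.mul_sum, ← Finset.mul_sum]
  refine (norm_add_le _ _).trans ?_
  rw [norm_mul, norm_mul, norm_mul, norm_mul, norm_mul, norm_ee, norm_ee, norm_div, norm_one, Complex.norm_ofNat]
  have h6 := hF ((a + b) / 2)
  have h7 := hF ((a + b) / 2 + 1 / 2)
  linarith

theorem X1_exp (X : ℕ) (F W : ℤ → ℂ) (M τ a b : ℝ) (hM : 0 ≤ M)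
    (hW : ∀ v : ℤ, (X:ℤ) < v → v < 4 * X → ‖W v‖ ≤ M)
    (hF : ∀ th : ℝ, ∀ u v : ℤ, (X:ℤ) ≤ u → v ≤ 4 * X → ‖∑ m ∈ Ico u v, F m * ee (th * m)‖ ≤ τ) :
    ‖BF (Sx X) (Sy X) F W (fun x => ee (a * x)) (fun y => ee (b * y))‖ ≤ 3 * X * M * τ := by
  have hX0 : (0:ℤ) ≤ X := Int.natCast_nonneg X
  have hτ : 0 ≤ τ := by
    have h := hF 0 X X le_rfl (by omega)
    rwa [Finset.Ico_self, Finset.sum_empty, norm_zero] at h
  have h1 : ∀ x ∈ Sx X, ∑ y ∈ Sy X, ee (a * x) * ee (b * y) * F (x + y) * W (x - y)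
      = ∑ v ∈ Ioo (X:ℤ) (4 * X), if x - v ∈ Sy X then W v * (ee (a * x) * ee (b * (x - v)) * F (2 * x - v)) else 0 := by
    intro x hx
    have hx' := Finset.mem_Ico.1 hx
    rw [← Finset.sum_filter]
    refine Finset.sum_nbij' (fun y => x - y) (fun v => x - v) ?_ ?_ ?_ ?_ ?_
    · intro y hy
      have hy' := Finset.mem_Ioo.1 hy
      refine Finset.mem_filter.2 ⟨Finset.mem_Ioo.2 ⟨by omega, by omega⟩, ?_⟩
      have e : x - (x - y) = y := by ring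
      rw [e]
      exact hy
    · intro v hv
      exact (Finset.mem_filter.1 hv).2
    · intro y _
      ring
    · intro v _
      ring
    · intro y _
      have e1 : 2 * x - (x - y) = x + y := by ring
      have e2 : ((x:ℝ) - ((x - y : ℤ) : ℝ)) = y := by
        push_cast
        ring
      rw [e1, e2]
      ring
  have h2 : BF (Sx X) (Sy X) F W (fun x => ee (a * x)) (fun y => ee (b * y))
      = ∑ v ∈ Ioo (X:ℤ) (4 * X), W v * ∑ x ∈ Ico (max (2 * (X:ℤ)) (v - X + 1)) (min (3 * (X:ℤ)) (v + X)),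
          ee (a * x) * ee (b * (x - v)) * F (2 * x - v) := by
    unfold BF
    rw [Finset.sum_congr rfl h1, Finset.sum_comm]
    refine Finset.sum_congr rfl fun v _ => ?_
    rw [← Finset.sum_filter, Finset.mul_sum]
    refine Finset.sum_congr ?_ fun _ _ => rfl
    ext x
    unfold Sx Sy
    simp only [Finset.mem_filter, Finset.mem_Ico, Finset.mem_Ioo]
    omega
  rw [h2]
  have h3 : ∀ v ∈ Ioo (X:ℤ) (4 * X), ‖W v * ∑ x ∈ Ico (max (2 * (X:ℤ)) (v - X + 1)) (min (3 * (X:ℤ)) (v + X)),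
      ee (a * x) * ee (b * (x - v)) * F (2 * x - v)‖ ≤ M * τ := by
    intro v hv
    have hv' := Finset.mem_Ioo.1 hv
    rw [norm_mul]
    refine mul_le_mul (hW v hv'.1 hv'.2) (X1_par F τ _ _ v (fun th => hF th _ _ (by omega) (by omega)) a b)
      (norm_nonneg _) hM
  refine (norm_sum_le _ _).trans ((Finset.sum_le_sum h3).trans ?_)
  rw [Finset.sum_const, Int.card_Ioo, nsmul_eq_mul]
  have h4 : (((4 * (X:ℤ) - X - 1).toNat : ℕ) : ℝ) ≤ 3 * X := by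
    have h5 : (4 * (X:ℤ) - X - 1).toNat ≤ 3 * X := by omega
    exact_mod_cast h5
  have h6 : 0 ≤ M * τ := mul_nonneg hM hτ
  calc (((4 * (X:ℤ) - X - 1).toNat : ℕ) : ℝ) * (M * τ) ≤ 3 * X * (M * τ) := mul_le_mul_of_nonneg_right h4 h6
    _ = 3 * X * M * τ := by ring

end Pool.Agent.H9S
end

-- from Lib.H9S.O1
section
/-!
CHUNK O1 (M/L). The operator bound for one weight. Fix `Cr, C`. Put `k1 = 1/(8 Cr)` and let `d1` be the constant of `INVE` for `(Cr, C, k1)`;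
`k2 = min d1 1 / 8`, `d2` the constant of `INVE` for `(Cr, C, k2)`; `c = min (min d1 d2) (min (1/Cr) 1) / 100`. `n` large.
Suppose `‖BF (Ec) W f g‖ > n^(2-c)` (so `A = n^(2-c)` below). `S = Sx X`, `T = Sy X` (`T` is nonempty, `#T ≤ 2X ≤ 2n`, `#S = X ≤ n`),
`Kf x y = Ec Q X (x+y) * W (x-y)`; for `x ∈ S`, `y ∈ T`: `x + y, x - y ∈ (X, 4X)`, so `‖Kf x y‖ ≤ n^(2c)`. `L = n * n^(2c)`.
Let `W₁ v = W v / n^c` for `X < v < 4X` and `0` else: `Bd W₁` and `BF (Ec) W f g = n^c BF (Ec) W₁ f g` on these boxes.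
(1) `D1_dual` for `g` with `δ = n^(2 - 2c - 2c)/2`, `κ = n^(1-k2)`: `hδ`: `δ * (#T * L) ≤ n^(2-4c)/2 * 2n * n * n^(2c) = n^(4-2c) = A²`. `hinv`: if `δ ≤ ‖∑∑ f g' Kf‖`
and no `th` has `κ ≤ ‖∑ g' ee‖` then `FB (Sy X) g' (n^(1-k2))`, so by `INVE` `‖∑∑ f g' Kf‖ = n^c ‖BF (Ec) W₁ f g'‖ ≤ n^(2 - d2 + c) < δ` (`n` large:
`d2 ≥ 100 c`): contradiction. Result: `th` with `n^(1-k2) * L ≤ ‖BF (Ec) W f (ee(th ·))‖`, and `n^(1-k2) L ≥ n^(2-k2) =: A'`.
(2) `D1_dual` with the roles exchanged: `S ↔ T`, `Kf' y x = Kf x y` (`Finset.sum_comm`, `mul_comm`), `f := ee(th ·)`, `g := f`, `L` as before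
(`#T ≤ 2n`: the hypothesis `hK` needs `‖∑_{y ∈ T} ee(th y) Kf x y‖ ≤ 2 n n^(2c)`, so take `L' = 2 L`), `A' = n^(2-k2)`, `δ' = n^(2 - 2 k2 - 2c)/2`,
`κ' = n^(1-k1)`: `δ' (#S L') ≤ n^(2-2k2-2c)/2 * n * 2 n n^(2c) = A'^2`. `hinv` from `INVE` (now `FB (Sx X) f'`): `n^(2 - d1 + c) < δ'` as `2 k2 + 3c < d1`
(`k2 ≤ d1/8`). Result: `th'` with `n^(1-k1) L' ≤ ‖BF (Ec) W (ee(th' ·)) (ee(th ·))‖`, so it is `≥ n^(2-k1)`.
(3) `X1_exp` with `M = n^c`, `τ = X Q^(-1/4)`: the same form is `≤ 3 X n^c X Q^(-1/4) ≤ 3 n^(2 + c - 1/(4 Cr))` (`Q ≥ n^(1/Cr)`, so `Q^(-1/4) ≤ n^(-1/(4Cr))`):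
contradiction for `n` large, because `k1 + c < 1/(4 Cr)`.
(`Bd` of `fun y => ee (th * y)`: `norm_ee`.)
-/
namespace Pool.Agent.H9S
open Finset Pool.Agent.H44W

theorem o1_mem {X : ℕ} {x y : ℤ} (hx : x ∈ Sx X) (hy : y ∈ Sy X) :
    (X:ℤ) ≤ x + y ∧ x + y ≤ 4 * X ∧ (X:ℤ) < x - y ∧ x - y < 4 * X := by
  simp only [Sx, Sy, Finset.mem_Ico, Finset.mem_Ioo] at hx hy
  omega

theorem o1_rp {N c a b : ℝ} (hN : 1 ≤ N) (h4 : 4 ≤ N ^ c) (hab : a + c ≤ b) : 4 * N ^ a ≤ N ^ b := by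
  have h0 : 0 < N := by linarith
  have h1 : N ^ (a + c) ≤ N ^ b := Real.rpow_le_rpow_of_exponent_le hN hab
  rw [Real.rpow_add h0] at h1
  have h2 : 0 < N ^ a := Real.rpow_pos_of_pos h0 a
  nlinarith

theorem o1_BF (S T : Finset ℤ) (F W f g : ℤ → ℂ) :
    BF S T F W f g = ∑ x ∈ S, ∑ y ∈ T, f x * g y * (F (x + y) * W (x - y)) := by
  unfold BF
  refine Finset.sum_congr rfl fun x _ => Finset.sum_congr rfl fun y _ => ?_
  ring

theorem o1_BF' (S T : Finset ℤ) (F W f g : ℤ → ℂ) :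
    BF S T F W f g = ∑ y ∈ T, ∑ x ∈ S, g y * f x * (F (x + y) * W (x - y)) := by
  unfold BF
  rw [Finset.sum_comm]
  refine Finset.sum_congr rfl fun x _ => Finset.sum_congr rfl fun y _ => ?_
  ring

theorem o1_scale (S T : Finset ℤ) (F W W₁ f g : ℤ → ℂ) (s : ℝ) (hs : 0 ≤ s)
    (h : ∀ x ∈ S, ∀ y ∈ T, W (x - y) = s * W₁ (x - y)) :
    ‖BF S T F W f g‖ = s * ‖BF S T F W₁ f g‖ := by
  have h1 : BF S T F W f g = (s:ℂ) * BF S T F W₁ f g := by
    unfold BF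
    rw [Finset.mul_sum]
    refine Finset.sum_congr rfl fun x hx => ?_
    rw [Finset.mul_sum]
    refine Finset.sum_congr rfl fun y hy => ?_
    rw [h x hx y hy]
    ring
  rw [h1, norm_mul, Complex.norm_real, Real.norm_of_nonneg hs]

theorem o1_ee (th : ℝ) : Bd (fun y => ee (th * y)) := fun x => le_of_eq (norm_ee _)

theorem o1_cardS (X : ℕ) : (Sx X).card = X := by
  simp only [Sx, Int.card_Ico]
  omega

theorem o1_cardT (X : ℕ) : (Sy X).card ≤ 2 * X := by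
  simp only [Sy, Int.card_Ioo]
  omega

theorem o1_sumle (S : Finset ℤ) (u : ℤ → ℂ) (B : ℝ) (h : ∀ x ∈ S, ‖u x‖ ≤ B) :
    ‖∑ x ∈ S, u x‖ ≤ S.card * B := by
  refine (norm_sum_le _ _).trans ?_
  calc ∑ x ∈ S, ‖u x‖ ≤ ∑ x ∈ S, B := Finset.sum_le_sum h
    _ = S.card * B := by rw [Finset.sum_const, nsmul_eq_mul]

theorem o1_Q {N Qr Cr : ℝ} (hN : 1 ≤ N) (hQ : 0 < Qr) (hCr : 1 ≤ Cr)
    (h : Real.log N ≤ Cr * Real.log Qr) : Qr ^ (-(1 / 4) : ℝ) ≤ N ^ (-(1 / (4 * Cr))) := by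
  have h0 : 0 < N := by linarith
  rw [Real.rpow_def_of_pos hQ, Real.rpow_def_of_pos h0]
  apply Real.exp_le_exp.mpr
  have hc : 0 < Cr := by linarith
  have h1 : Real.log N * (1 / (4 * Cr)) ≤ Real.log Qr * (1 / 4) := by
    have h2 : Real.log N * (1 / (4 * Cr)) ≤ (Cr * Real.log Qr) * (1 / (4 * Cr)) :=
      mul_le_mul_of_nonneg_right h (by positivity)
    have h3 : (Cr * Real.log Qr) * (1 / (4 * Cr)) = Real.log Qr * (1 / 4) := by
      field_simp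
    linarith
  linarith


theorem O1_op (h : INVE) : OPW := by
  intro Cr C hCr hC
  have hCr0 : 0 < Cr := by linarith
  obtain ⟨d1, hd1, n1, H1⟩ := h Cr C (1 / (8 * Cr)) hCr hC (by positivity)
  have hk2 : 0 < min d1 1 / 8 := by positivity
  obtain ⟨d2, hd2, n2, H2⟩ := h Cr C (min d1 1 / 8) hCr hC hk2
  obtain ⟨k1, hk1⟩ : ∃ k1, k1 = 1 / (8 * Cr) := ⟨_, rfl⟩
  obtain ⟨k2, hk2'⟩ : ∃ k2, k2 = min d1 1 / 8 := ⟨_, rfl⟩
  rw [← hk1] at H1
  rw [← hk2'] at H2 hk2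
  obtain ⟨c, hc⟩ : ∃ c, c = min (min d1 d2) (min (1 / Cr) 1) / 100 := ⟨_, rfl⟩
  have hc0 : 0 < c := by rw [hc]; positivity
  have hcd1 : 100 * c ≤ d1 := by
    rw [hc]; have := min_le_left (min d1 d2) (min (1 / Cr) 1); have := min_le_left d1 d2; linarith
  have hcd2 : 100 * c ≤ d2 := by
    rw [hc]; have := min_le_left (min d1 d2) (min (1 / Cr) 1); have := min_le_right d1 d2; linarith
  have hck : 12 * c ≤ k1 := by
    have h1 := min_le_right (min d1 d2) (min (1 / Cr) 1)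
    have h2 := min_le_left (1 / Cr) (1:ℝ)
    have h3 : k1 = 1 / Cr / 8 := by rw [hk1]; field_simp
    have h4 : 0 < 1 / Cr := by positivity
    rw [hc, h3]; linarith
  have hkd : 8 * k2 ≤ d1 := by rw [hk2']; have := min_le_left d1 1; linarith
  refine ⟨c, hc0, max (max n1 n2) (⌈(4:ℝ) ^ (1 / c)⌉₊ + 1), ?_⟩
  intro n hn Q X hQ hlog hX1 hXn hLK hEF hEb W f g hW hf hg
  have hn1 : n1 ≤ n := le_trans (le_trans (le_max_left _ _) (le_max_left _ _)) hn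
  have hn2 : n2 ≤ n := le_trans (le_trans (le_max_right _ _) (le_max_left _ _)) hn
  have hn3 : ⌈(4:ℝ) ^ (1 / c)⌉₊ + 1 ≤ n := le_trans (le_max_right _ _) hn
  have hn4 : (4:ℝ) ^ (1 / c) ≤ n := by
    have h1 := Nat.le_ceil ((4:ℝ) ^ (1 / c))
    have h2 : (⌈(4:ℝ) ^ (1 / c)⌉₊ : ℝ) ≤ n := by exact_mod_cast (by omega : ⌈(4:ℝ) ^ (1 / c)⌉₊ ≤ n)
    linarith
  have hN1 : (1:ℝ) ≤ n := by exact_mod_cast (by omega : 1 ≤ n)
  obtain ⟨N, hNn⟩ : ∃ N : ℝ, N = n := ⟨_, rfl⟩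
  have hN : 1 ≤ N := by rw [hNn]; exact hN1
  have hN0 : 0 < N := by linarith
  have h4 : 4 ≤ N ^ c := by
    have h1 : ((4:ℝ) ^ (1 / c)) ^ c ≤ N ^ c :=
      Real.rpow_le_rpow (by positivity) (by rw [hNn]; exact hn4) hc0.le
    rw [← Real.rpow_mul (by norm_num), one_div, inv_mul_cancel₀ hc0.ne', Real.rpow_one] at h1
    exact h1
  specialize H1 n hn1 Q X hQ hlog hX1 hXn hLK
  specialize H2 n hn2 Q X hQ hlog hX1 hXn hLK
  rw [← hNn] at H1 H2 hEb hW ⊢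
  have hXN : (X:ℝ) ≤ N := by rw [hNn]; exact_mod_cast hXn
  have hX0 : (0:ℝ) ≤ X := Nat.cast_nonneg X
  by_contra hcon
  have hcon' : N ^ (2 - c) < ‖BF (Sx X) (Sy X) (Ec Q X) W f g‖ := not_le.mp hcon
  have hS : (Sx X).Nonempty := by
    rw [← Finset.card_pos, o1_cardS]; omega
  have hT : (Sy X).Nonempty := ⟨0, by simp only [Sy, Finset.mem_Ioo]; omega⟩
  have hNc0 : 0 < N ^ c := by linarith
  -- the scaled weight
  obtain ⟨W₁, hW₁⟩ : ∃ W₁ : ℤ → ℂ, W₁ = fun v => if (X:ℤ) < v ∧ v < 4 * X then W v / ((N ^ c : ℝ) : ℂ) else 0 :=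
    ⟨_, rfl⟩
  have hBW : Bd W₁ := by
    intro v
    rw [hW₁]
    dsimp only
    split_ifs with hv
    · rw [norm_div, Complex.norm_real, Real.norm_of_nonneg hNc0.le, div_le_one hNc0]
      exact hW v hv.1 hv.2
    · simp
  have hWs : ∀ x ∈ Sx X, ∀ y ∈ Sy X, W (x - y) = ((N ^ c : ℝ) : ℂ) * W₁ (x - y) := by
    intro x hx y hy
    have hm := o1_mem hx hy
    rw [hW₁]
    dsimp only
    rw [if_pos ⟨hm.2.2.1, hm.2.2.2⟩, mul_div_cancel₀]
    exact_mod_cast hNc0.ne'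
  have hsc : ∀ f' g' : ℤ → ℂ, ‖BF (Sx X) (Sy X) (Ec Q X) W f' g'‖ = N ^ c * ‖BF (Sx X) (Sy X) (Ec Q X) W₁ f' g'‖ :=
    fun f' g' => o1_scale _ _ _ _ _ _ _ _ hNc0.le hWs
  have hKb : ∀ x ∈ Sx X, ∀ y ∈ Sy X, ‖Ec Q X (x + y) * W (x - y)‖ ≤ N ^ (2 * c) := by
    intro x hx y hy
    have hm := o1_mem hx hy
    rw [norm_mul, two_mul, Real.rpow_add hN0]
    exact mul_le_mul (hEb _ hm.1 hm.2.1) (hW _ hm.2.2.1 hm.2.2.2) (norm_nonneg _) hNc0.le
  have hN2c : 0 < N ^ (2 * c) := Real.rpow_pos_of_pos hN0 _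
  -- step 1
  obtain ⟨th, hth⟩ := D1_dual (Sx X) (Sy X) hT (fun x y => Ec Q X (x + y) * W (x - y)) (N * N ^ (2 * c))
    (by positivity) f
    (by
      intro y hy
      refine (o1_sumle (Sx X) _ (N ^ (2 * c)) ?_).trans ?_
      · intro x hx
        rw [norm_mul]
        calc ‖f x‖ * ‖Ec Q X (x + y) * W (x - y)‖ ≤ 1 * N ^ (2 * c) :=
              mul_le_mul (hf x) (hKb x hx y hy) (norm_nonneg _) (by norm_num)
          _ = N ^ (2 * c) := one_mul _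
      · rw [o1_cardS]
        exact mul_le_mul_of_nonneg_right hXN hN2c.le)
    (N ^ (2 - 4 * c) / 2) (N ^ (1 - k2)) (N ^ (2 - c)) (Real.rpow_nonneg hN0.le _)
    (by
      intro g' hg' hd
      by_contra hno
      push Not at hno
      have hb := H2 W₁ f g' hBW hf hg' (Or.inl fun th => (hno th).le)
      rw [← o1_BF, hsc] at hd
      have h5 : N ^ c * ‖BF (Sx X) (Sy X) (Ec Q X) W₁ f g'‖ ≤ N ^ (2 - d2 + c) := by
        rw [add_comm (2 - d2) c, Real.rpow_add hN0]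
        exact mul_le_mul_of_nonneg_left hb hNc0.le
      have h6 : 4 * N ^ (2 - d2 + c) ≤ N ^ (2 - 4 * c) := o1_rp hN h4 (by linarith)
      have h7 : 0 < N ^ (2 - 4 * c) := Real.rpow_pos_of_pos hN0 _
      linarith)
    g hg (by rw [← o1_BF]; exact hcon'.le)
    (by
      have h5 : ((Sy X).card : ℝ) ≤ 2 * N := by
        have : ((Sy X).card : ℝ) ≤ 2 * X := by exact_mod_cast o1_cardT X
        linarith
      have h6 : 0 ≤ N ^ (2 - 4 * c) / 2 := by positivity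
      calc N ^ (2 - 4 * c) / 2 * (((Sy X).card : ℝ) * (N * N ^ (2 * c)))
          ≤ N ^ (2 - 4 * c) / 2 * ((2 * N) * (N * N ^ (2 * c))) :=
            mul_le_mul_of_nonneg_left (mul_le_mul_of_nonneg_right h5 (by positivity)) h6
        _ = N ^ (2 - 4 * c) * N ^ (2:ℝ) * N ^ (2 * c) := by
            rw [Real.rpow_two]; ring
        _ = (N ^ (2 - c)) ^ 2 := by
            rw [← Real.rpow_add hN0, ← Real.rpow_add hN0, ← Real.rpow_natCast, ← Real.rpow_mul hN0.le]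
            congr 1
            push_cast
            ring)
  rw [← o1_BF (Sx X) (Sy X) (Ec Q X) W f (fun y => ee (th * y))] at hth
  have hA' : N ^ (2 - k2) ≤ ‖BF (Sx X) (Sy X) (Ec Q X) W f (fun y => ee (th * y))‖ := by
    refine le_trans ?_ hth
    have h5 : N ^ (2 - k2) = N ^ (1 - k2) * N := by
      nth_rewrite 3 [← Real.rpow_one N]
      rw [← Real.rpow_add hN0]; congr 1; ring
    have h6 : 1 ≤ N ^ (2 * c) := Real.one_le_rpow hN (by linarith)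
    have h7 : 0 ≤ N ^ (1 - k2) * N := by positivity
    rw [h5, ← mul_assoc]
    nlinarith
  -- step 2
  obtain ⟨th', hth'⟩ := D1_dual (Sy X) (Sx X) hS (fun y x => Ec Q X (x + y) * W (x - y)) (2 * N * N ^ (2 * c))
    (by positivity) (fun y => ee (th * y))
    (by
      intro x hx
      refine (o1_sumle (Sy X) _ (N ^ (2 * c)) ?_).trans ?_
      · intro y hy
        rw [norm_mul]
        calc ‖ee (th * y)‖ * ‖Ec Q X (x + y) * W (x - y)‖ ≤ 1 * N ^ (2 * c) :=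
              mul_le_mul (norm_ee _).le (hKb x hx y hy) (norm_nonneg _) (by norm_num)
          _ = N ^ (2 * c) := one_mul _
      · have h5 : ((Sy X).card : ℝ) ≤ 2 * N := by
          have : ((Sy X).card : ℝ) ≤ 2 * X := by exact_mod_cast o1_cardT X
          linarith
        exact mul_le_mul_of_nonneg_right h5 hN2c.le)
    (N ^ (2 - 2 * k2 - 2 * c) / 2) (N ^ (1 - k1)) (N ^ (2 - k2)) (Real.rpow_nonneg hN0.le _)
    (by
      intro g' hg' hd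
      by_contra hno
      push Not at hno
      have hb := H1 W₁ g' (fun y => ee (th * y)) hBW hg' (o1_ee th) (Or.inr fun th => (hno th).le)
      rw [← o1_BF' (Sx X) (Sy X) (Ec Q X) W g' (fun y => ee (th * y)), hsc] at hd
      have h5 : N ^ c * ‖BF (Sx X) (Sy X) (Ec Q X) W₁ g' (fun y => ee (th * y))‖ ≤ N ^ (2 - d1 + c) := by
        rw [add_comm (2 - d1) c, Real.rpow_add hN0]
        exact mul_le_mul_of_nonneg_left hb hNc0.le
      have h6 : 4 * N ^ (2 - d1 + c) ≤ N ^ (2 - 2 * k2 - 2 * c) := o1_rp hN h4 (by linarith)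
      have h7 : 0 < N ^ (2 - 2 * k2 - 2 * c) := Real.rpow_pos_of_pos hN0 _
      linarith)
    f hf (by rw [← o1_BF' (Sx X) (Sy X) (Ec Q X) W f (fun y => ee (th * y))]; exact hA')
    (by
      have h5 : ((Sx X).card : ℝ) ≤ N := by rw [o1_cardS]; exact hXN
      have h6 : 0 ≤ N ^ (2 - 2 * k2 - 2 * c) / 2 := by positivity
      calc N ^ (2 - 2 * k2 - 2 * c) / 2 * (((Sx X).card : ℝ) * (2 * N * N ^ (2 * c)))
          ≤ N ^ (2 - 2 * k2 - 2 * c) / 2 * (N * (2 * N * N ^ (2 * c))) :=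
            mul_le_mul_of_nonneg_left (mul_le_mul_of_nonneg_right h5 (by positivity)) h6
        _ = N ^ (2 - 2 * k2 - 2 * c) * N ^ (2:ℝ) * N ^ (2 * c) := by
            rw [Real.rpow_two]; ring
        _ = (N ^ (2 - k2)) ^ 2 := by
            rw [← Real.rpow_add hN0, ← Real.rpow_add hN0, ← Real.rpow_natCast, ← Real.rpow_mul hN0.le]
            congr 1
            push_cast
            ring)
  rw [← o1_BF' (Sx X) (Sy X) (Ec Q X) W (fun x => ee (th' * x)) (fun y => ee (th * y))] at hth'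
  -- step 3
  have h8 := X1_exp X (Ec Q X) W (N ^ c) (X * (Q:ℝ) ^ (-(1 / 4) : ℝ)) th' th hNc0.le hW hEF
  have hQ0 : (0:ℝ) < Q := by exact_mod_cast (by omega : 0 < Q)
  have h9 : (Q:ℝ) ^ (-(1 / 4) : ℝ) ≤ N ^ (-(1 / (4 * Cr))) :=
    o1_Q hN hQ0 hCr (by rw [hNn]; exact hlog)
  have hk1' : -(1 / (4 * Cr)) = -(2 * k1) := by rw [hk1]; field_simp; norm_num
  rw [hk1'] at h9
  have h10 : 3 * (X:ℝ) * N ^ c * (X * (Q:ℝ) ^ (-(1 / 4) : ℝ)) ≤ 3 * N * N ^ c * (N * N ^ (-(2 * k1))) := by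
    have hq : 0 ≤ (Q:ℝ) ^ (-(1 / 4) : ℝ) := Real.rpow_nonneg hQ0.le _
    apply mul_le_mul
    · exact mul_le_mul_of_nonneg_right (by linarith) hNc0.le
    · exact mul_le_mul hXN h9 hq hN0.le
    · positivity
    · positivity
  have h11 : 3 * N * N ^ c * (N * N ^ (-(2 * k1))) = 3 * N ^ (2 + c - 2 * k1) := by
    have h12 : N ^ (2 + c - 2 * k1) = N ^ (2:ℝ) * N ^ c * N ^ (-(2 * k1)) := by
      rw [← Real.rpow_add hN0, ← Real.rpow_add hN0]; congr 1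
    rw [h12, Real.rpow_two]; ring
  have h13 : N ^ (2 - k1) ≤ N ^ (1 - k1) * (2 * N * N ^ (2 * c)) := by
    have h5 : N ^ (2 - k1) = N ^ (1 - k1) * N := by
      nth_rewrite 3 [← Real.rpow_one N]
      rw [← Real.rpow_add hN0]; congr 1; ring
    have h6 : 1 ≤ N ^ (2 * c) := Real.one_le_rpow hN (by linarith)
    have h7 : 0 ≤ N ^ (1 - k1) * N := by positivity
    rw [h5]
    nlinarith
  have h14 : 4 * N ^ (2 + c - 2 * k1) ≤ N ^ (2 - k1) := o1_rp hN h4 (by linarith)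
  have h15 : 0 < N ^ (2 + c - 2 * k1) := Real.rpow_pos_of_pos hN0 _
  linarith

end Pool.Agent.H9S
end

-- from Lib.H9S.E1
section
/-!
CHUNK E1 (M). The inverse theorem for `E = lp - Lk Q (X/Q²)`. Let `Cr, C, c1` be given and `c2'`, `n0'` the constants of `INVK` for `c1`.
Put `c3 = min (c2' / 8) (1 / Cr)`, `Q' = ⌊n^c3⌋₊`, `Y = X / Q^2`.
* `1 ≤ Q'` (`n ≥ 1`), `n^c3 / 2 ≤ Q' ≤ n^c3` (`Nat.lt_floor_add_one`, `n^c3 ≥ 1`), and `Q' ≤ Q`: `n^c3 ≤ n^(1/Cr) ≤ Q` because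
  `log n ≤ Cr log Q`.
* `Y < X` (`Q ≥ 2`, `X ≥ 1`: `Nat.div_lt_self`).
* `Ec Q X m = lc m - Lc Q' Y m - (Lc Q Y m - Lc Q' Y m)`, so `BF(Ec) = BF(lc) - BF(Lc Q' Y) - BF(difference)` (linearity, `Finset.sum_sub_distrib`) and
  `‖BF(Ec)‖ ≤ n^(2-c2') + Q'^3 n^(2-c2') + C X² Q'^(-1/1152) ≤ 2 n^(2 - c2' + 3 c3) + 2 C n^(2 - c3/1152)`
  (`X ≤ n`; `Q'^(-1/1152) ≤ (n^c3/2)^(-1/1152) ≤ 2 n^(-c3/1152)`), `3 c3 ≤ 3 c2'/8`.
* `c2 = min (c2' / 2) (c3 / 1152) / 2`: both terms are at most `(2 + 2C) n^(2 - 2 c2) ≤ n^(2 - c2)` for `n` large.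
-/
namespace Pool.Agent.H9S
open Finset Pool.Agent.H44W

theorem e1_lin (S T : Finset ℤ) (F1 F2 F3 W f g : ℤ → ℂ) :
    BF S T (fun m => F1 m - F2 m - F3 m) W f g = BF S T F1 W f g - BF S T F2 W f g - BF S T F3 W f g := by
  unfold BF
  rw [← Finset.sum_sub_distrib, ← Finset.sum_sub_distrib]
  refine Finset.sum_congr rfl fun x _ => ?_
  rw [← Finset.sum_sub_distrib, ← Finset.sum_sub_distrib]
  refine Finset.sum_congr rfl fun y _ => ?_
  ring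

theorem E1_inv (h : INVK) : INVE := by
  intro Cr C c1 hCr hC hc1
  obtain ⟨c2', hc2', n0', h'⟩ := h c1 hc1
  have hCr0 : 0 < Cr := by linarith
  obtain ⟨c3, hc3⟩ : ∃ c3 : ℝ, c3 = min (c2' / 8) (1 / Cr) := ⟨_, rfl⟩
  have hc30 : 0 < c3 := by
    rw [hc3]
    exact lt_min (by positivity) (by positivity)
  have hc3a : c3 ≤ c2' / 8 := by
    rw [hc3]
    exact min_le_left _ _
  have hc3b : c3 ≤ 1 / Cr := by
    rw [hc3]
    exact min_le_right _ _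
  obtain ⟨c2, hc2⟩ : ∃ c2 : ℝ, c2 = min (c2' / 2) (c3 / 1152) / 2 := ⟨_, rfl⟩
  have hc20 : 0 < c2 := by
    rw [hc2]
    have : 0 < min (c2' / 2) (c3 / 1152) := lt_min (by positivity) (by positivity)
    linarith
  have hc2a : 2 * c2 ≤ c2' / 2 := by
    rw [hc2]
    have := min_le_left (c2' / 2) (c3 / 1152)
    linarith
  have hc2b : 2 * c2 ≤ c3 / 1152 := by
    rw [hc2]
    have := min_le_right (c2' / 2) (c3 / 1152)
    linarith
  refine ⟨c2, hc20, max (max n0' 1) ⌈(2 + 2 * C) ^ (1 / c2)⌉₊, ?_⟩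
  intro n hn Q X hQ hlog hX hXn hLK W f g hW hf hg hFB
  have hn0' : n0' ≤ n := le_trans (le_trans (le_max_left _ _) (le_max_left _ _)) hn
  have hn1 : 1 ≤ n := le_trans (le_trans (le_max_right _ _) (le_max_left _ _)) hn
  have hn2 : (2 + 2 * C) ^ (1 / c2) ≤ n := (Nat.le_ceil _).trans (by exact_mod_cast (le_max_right _ _).trans hn)
  have hnR : (1 : ℝ) ≤ n := by exact_mod_cast hn1
  have hnR0 : (0 : ℝ) < n := by linarith
  have hQR : (0 : ℝ) < Q := by exact_mod_cast (by omega : 0 < Q)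
  obtain ⟨x, hx⟩ : ∃ x : ℝ, x = (n : ℝ) ^ c3 := ⟨_, rfl⟩
  have hx1 : 1 ≤ x := by
    rw [hx]
    exact Real.one_le_rpow hnR hc30.le
  have hx0 : 0 < x := by linarith
  obtain ⟨Q', hQ'⟩ : ∃ Q' : ℕ, Q' = ⌊x⌋₊ := ⟨_, rfl⟩
  have hQ'1 : 1 ≤ Q' := by
    rw [hQ']
    exact Nat.le_floor (by exact_mod_cast hx1)
  have hQ'x : (Q' : ℝ) ≤ x := by
    rw [hQ']
    exact Nat.floor_le hx0.le
  have hQ'R : (1 : ℝ) ≤ Q' := by exact_mod_cast hQ'1
  have hQ'2 : x / 2 ≤ Q' := by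
    have h1 : x < Q' + 1 := by
      rw [hQ']
      exact Nat.lt_floor_add_one x
    linarith
  have hxQ : x ≤ Q := by
    have h1 : x ≤ (n : ℝ) ^ (1 / Cr) := by
      rw [hx]
      exact Real.rpow_le_rpow_of_exponent_le hnR hc3b
    refine h1.trans ?_
    rw [Real.rpow_def_of_pos hnR0, ← Real.le_log_iff_exp_le hQR, mul_one_div, div_le_iff₀ hCr0, mul_comm]
    exact hlog
  have hQQ : Q' ≤ Q := by exact_mod_cast hQ'x.trans hxQ
  have hY : X / Q ^ 2 < X := by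
    refine Nat.div_lt_self (by omega) ?_
    have : 2 ^ 2 ≤ Q ^ 2 := Nat.pow_le_pow_left hQ 2
    omega
  obtain ⟨b1, b2⟩ := h' n hn0' X hX hXn W f g hW hf hg hFB
  have b2' := b2 Q' (X / Q ^ 2) hY
  have b3 := hLK Q' hQ'1 hQQ W f g hW hf hg
  have e1 : BF (Sx X) (Sy X) (Ec Q X) W f g = BF (Sx X) (Sy X) lc W f g -
      BF (Sx X) (Sy X) (Lc Q' (X / Q ^ 2)) W f g -
      BF (Sx X) (Sy X) (fun m => Lc Q (X / Q ^ 2) m - Lc Q' (X / Q ^ 2) m) W f g := by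
    rw [← e1_lin]
    congr 1
    funext m
    unfold Ec
    ring
  rw [e1]
  have n1 : ‖BF (Sx X) (Sy X) lc W f g - BF (Sx X) (Sy X) (Lc Q' (X / Q ^ 2)) W f g -
      BF (Sx X) (Sy X) (fun m => Lc Q (X / Q ^ 2) m - Lc Q' (X / Q ^ 2) m) W f g‖ ≤
      (n : ℝ) ^ (2 - c2') + (Q' : ℝ) ^ 3 * (n : ℝ) ^ (2 - c2') + C * (X : ℝ) ^ 2 * (Q' : ℝ) ^ (-(1 / 1152 : ℝ)) := by
    refine (norm_sub_le _ _).trans (add_le_add ((norm_sub_le _ _).trans (add_le_add b1 b2')) b3)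
  refine n1.trans ?_
  have m1 : (n : ℝ) ^ (2 - c2') ≤ (n : ℝ) ^ (2 - 2 * c2) :=
    Real.rpow_le_rpow_of_exponent_le hnR (by linarith)
  have m2 : (Q' : ℝ) ^ 3 * (n : ℝ) ^ (2 - c2') ≤ (n : ℝ) ^ (2 - 2 * c2) := by
    have h1 : (Q' : ℝ) ^ 3 ≤ (n : ℝ) ^ (3 * c3) := by
      calc (Q' : ℝ) ^ 3 ≤ x ^ 3 := pow_le_pow_left₀ (by linarith) hQ'x 3
        _ = (n : ℝ) ^ (3 * c3) := by
          rw [hx, ← Real.rpow_natCast, ← Real.rpow_mul hnR0.le]
          congr 1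
          push_cast
          ring
    calc (Q' : ℝ) ^ 3 * (n : ℝ) ^ (2 - c2') ≤ (n : ℝ) ^ (3 * c3) * (n : ℝ) ^ (2 - c2') :=
          mul_le_mul_of_nonneg_right h1 (by positivity)
      _ = (n : ℝ) ^ (3 * c3 + (2 - c2')) := by rw [← Real.rpow_add hnR0]
      _ ≤ (n : ℝ) ^ (2 - 2 * c2) := Real.rpow_le_rpow_of_exponent_le hnR (by linarith)
  have m3 : C * (X : ℝ) ^ 2 * (Q' : ℝ) ^ (-(1 / 1152 : ℝ)) ≤ 2 * C * (n : ℝ) ^ (2 - 2 * c2) := by
    have h1 : (Q' : ℝ) ^ (-(1 / 1152 : ℝ)) ≤ 2 * (n : ℝ) ^ (-(c3 / 1152)) := by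
      have h2 : (Q' : ℝ) ^ (-(1 / 1152 : ℝ)) ≤ (x / 2) ^ (-(1 / 1152 : ℝ)) :=
        Real.rpow_le_rpow_of_nonpos (by positivity) hQ'2 (by norm_num)
      refine h2.trans ?_
      rw [Real.div_rpow hx0.le (by norm_num), hx, ← Real.rpow_mul hnR0.le]
      have h3 : c3 * (-(1 / 1152 : ℝ)) = -(c3 / 1152) := by ring
      have h4 : (2 : ℝ) ^ (-(1 / 1152 : ℝ)) = ((2 : ℝ) ^ (1 / 1152 : ℝ))⁻¹ := Real.rpow_neg (by norm_num) _
      rw [h3, h4, div_inv_eq_mul, mul_comm]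
      refine mul_le_mul_of_nonneg_right ?_ (by positivity)
      calc (2 : ℝ) ^ (1 / 1152 : ℝ) ≤ (2 : ℝ) ^ (1 : ℝ) :=
            Real.rpow_le_rpow_of_exponent_le (by norm_num) (by norm_num)
        _ = 2 := Real.rpow_one 2
    have h5 : (X : ℝ) ^ 2 ≤ (n : ℝ) ^ (2 : ℝ) := by
      have h6 : (X : ℝ) ≤ n := by exact_mod_cast hXn
      rw [Real.rpow_two]
      exact pow_le_pow_left₀ (by positivity) h6 2
    calc C * (X : ℝ) ^ 2 * (Q' : ℝ) ^ (-(1 / 1152 : ℝ)) ≤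
        C * (n : ℝ) ^ (2 : ℝ) * (2 * (n : ℝ) ^ (-(c3 / 1152))) :=
          mul_le_mul (mul_le_mul_of_nonneg_left h5 hC.le) h1 (by positivity) (by positivity)
      _ = 2 * C * (n : ℝ) ^ (2 + -(c3 / 1152)) := by
          rw [Real.rpow_add hnR0]
          ring
      _ ≤ 2 * C * (n : ℝ) ^ (2 - 2 * c2) := by
          refine mul_le_mul_of_nonneg_left ?_ (by positivity)
          exact Real.rpow_le_rpow_of_exponent_le hnR (by linarith)
  have m4 : 2 + 2 * C ≤ (n : ℝ) ^ c2 := by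
    have h1 : ((2 + 2 * C) ^ (1 / c2)) ^ c2 ≤ (n : ℝ) ^ c2 :=
      Real.rpow_le_rpow (by positivity) hn2 hc20.le
    rw [← Real.rpow_mul (by positivity), one_div_mul_cancel hc20.ne', Real.rpow_one] at h1
    exact h1
  calc _ ≤ (n : ℝ) ^ (2 - 2 * c2) + (n : ℝ) ^ (2 - 2 * c2) + 2 * C * (n : ℝ) ^ (2 - 2 * c2) :=
        add_le_add (add_le_add m1 m2) m3
    _ = (2 + 2 * C) * (n : ℝ) ^ (2 - 2 * c2) := by ring
    _ ≤ (n : ℝ) ^ c2 * (n : ℝ) ^ (2 - 2 * c2) := mul_le_mul_of_nonneg_right m4 (by positivity)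
    _ = (n : ℝ) ^ (2 - c2) := by
        rw [← Real.rpow_add hnR0]
        congr 1
        ring

end Pool.Agent.H9S
end

-- from Lib.H9S.K1
section
/-!
CHUNK K1 (S/M). Mass of the kernel. `kern Q Y z = tent Y z * ∑_{q ∈ Icc 1 Q} cq q z`. `0 ≤ tent Y z`, `∑_{|z| < Y} tent Y z = 1` for `Y ≥ 1` (copy
the short proof of `H68T.DB_tent_count`, `DB_tent_sum` in Lib/H68T/DB.lean lines 44 to 100, that file is heavy: do not import it). `Y = 0`: empty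
sum. `|cq q z| ≤ ∑_{d ∣ q} d ≤ q * q` (`|μ| ≤ 1`, `d ≤ q`, at most `q` divisors: `Nat.card_divisors_le_self` or `divisors ⊆ Icc 1 q`), so
`|∑_{q ≤ Q} cq q z| ≤ ∑_{q ≤ Q} q² ≤ Q * Q² = Q³`.
-/
namespace Pool.Agent.H9S
open Finset Pool.Agent.H44W
open Pool.Agent.Lib.H68T (lp Lk kern tent cq)

theorem k1_tent_count (Y : ℕ) : ∑ z ∈ Ioo (-(Y : ℤ)) Y, ((Y : ℝ) - |(z : ℝ)|) = (Y : ℝ) ^ 2 := by
  induction Y with
  | zero => simp
  | succ Y ih =>
    have e1 : Ioo (-((Y + 1 : ℕ) : ℤ)) ((Y + 1 : ℕ) : ℤ) = Icc (-(Y : ℤ)) Y := by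
      ext z
      simp only [mem_Ioo, mem_Icc]
      push_cast
      omega
    rw [e1]
    have e2 : ∑ z ∈ Icc (-(Y : ℤ)) Y, (((Y + 1 : ℕ) : ℝ) - |(z : ℝ)|) =
        ∑ z ∈ Icc (-(Y : ℤ)) Y, ((Y : ℝ) - |(z : ℝ)|) + ∑ z ∈ Icc (-(Y : ℤ)) Y, (1 : ℝ) := by
      rw [← sum_add_distrib]
      refine sum_congr rfl fun z _ => ?_
      push_cast
      ring
    rw [e2]
    have e3 : ∑ z ∈ Icc (-(Y : ℤ)) Y, ((Y : ℝ) - |(z : ℝ)|) =
        ∑ z ∈ Ioo (-(Y : ℤ)) Y, ((Y : ℝ) - |(z : ℝ)|) := by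
      symm
      apply sum_subset
      · intro z hz
        rw [mem_Ioo] at hz
        rw [mem_Icc]
        omega
      · intro z hz hz'
        rw [mem_Icc] at hz
        rw [mem_Ioo] at hz'
        have h1 : z = Y ∨ z = -Y := by omega
        rcases h1 with h | h
        · rw [h]; simp
        · rw [h]; simp
    rw [e3, ih, sum_const, Int.card_Icc, nsmul_eq_mul, mul_one]
    have e4 : ((((Y : ℤ) + 1 - -(Y : ℤ)).toNat : ℕ) : ℝ) = 2 * Y + 1 := by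
      have : ((Y : ℤ) + 1 - -(Y : ℤ)).toNat = 2 * Y + 1 := by omega
      rw [this]; push_cast; ring
    rw [e4]
    push_cast
    ring

theorem k1_tent_sum (Y : ℕ) (hY : 1 ≤ Y) : ∑ z ∈ Ioo (-(Y : ℤ)) Y, tent Y z = 1 := by
  have hY0 : (0 : ℝ) < Y := by exact_mod_cast hY
  have h1 : ∑ z ∈ Ioo (-(Y : ℤ)) Y, tent Y z =
      (∑ z ∈ Ioo (-(Y : ℤ)) Y, ((Y : ℝ) - |(z : ℝ)|)) / (Y : ℝ) ^ 2 := by
    rw [sum_div]
    refine sum_congr rfl fun z hz => ?_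
    rw [mem_Ioo] at hz
    unfold tent
    rw [max_eq_right]
    have : |(z : ℝ)| ≤ Y := by
      rw [abs_le]
      constructor
      · exact_mod_cast hz.1.le
      · exact_mod_cast hz.2.le
    linarith
  rw [h1, k1_tent_count]
  exact div_self (by positivity)

theorem k1_tent_nonneg (Y : ℕ) (z : ℤ) : 0 ≤ tent Y z := by
  unfold tent
  exact div_nonneg (le_max_left _ _) (sq_nonneg _)

theorem k1_cq (q : ℕ) (z : ℤ) : |cq q z| ≤ (q : ℝ) * q := by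
  unfold cq
  refine (abs_sum_le_sum_abs _ _).trans ?_
  have h1 : ∀ d ∈ q.divisors.filter (fun d : ℕ => (d : ℤ) ∣ z),
      |(d : ℝ) * (ArithmeticFunction.moebius (q / d) : ℝ)| ≤ q := by
    intro d hd
    have hd1 := Nat.divisor_le (mem_filter.1 hd).1
    rw [abs_mul, Nat.abs_cast]
    have h2 : |(ArithmeticFunction.moebius (q / d) : ℝ)| ≤ 1 := by
      have := ArithmeticFunction.abs_moebius_le_one (n := q / d)
      exact_mod_cast this
    have h3 : (d : ℝ) ≤ q := by exact_mod_cast hd1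
    calc (d : ℝ) * |(ArithmeticFunction.moebius (q / d) : ℝ)| ≤ q * 1 :=
          mul_le_mul h3 h2 (abs_nonneg _) (Nat.cast_nonneg q)
      _ = q := mul_one _
  refine (sum_le_card_nsmul _ _ _ h1).trans ?_
  rw [nsmul_eq_mul]
  refine mul_le_mul_of_nonneg_right ?_ (Nat.cast_nonneg q)
  have h2 : (q.divisors.filter (fun d : ℕ => (d : ℤ) ∣ z)).card ≤ q :=
    (card_filter_le _ _).trans (Nat.card_divisors_le_self q)
  exact_mod_cast h2

theorem K1_mass (Q Y : ℕ) : ∑ z ∈ Ioo (-(Y:ℤ)) Y, |kern Q Y z| ≤ (Q:ℝ) ^ 3 := by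
  have h1 : ∀ z : ℤ, |∑ q ∈ Icc 1 Q, cq q z| ≤ (Q : ℝ) ^ 3 := by
    intro z
    refine (abs_sum_le_sum_abs _ _).trans ?_
    have h2 : ∀ q ∈ Icc 1 Q, |cq q z| ≤ (Q : ℝ) ^ 2 := by
      intro q hq
      have h3 : (q : ℝ) ≤ Q := by exact_mod_cast (mem_Icc.1 hq).2
      have h4 := k1_cq q z
      have h5 : (0 : ℝ) ≤ q := Nat.cast_nonneg q
      nlinarith
    refine (sum_le_card_nsmul _ _ _ h2).trans (le_of_eq ?_)
    rw [nsmul_eq_mul, Nat.card_Icc, Nat.add_sub_cancel]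
    ring
  rcases Nat.eq_zero_or_pos Y with hY | hY
  · subst hY
    have e1 : Ioo (-((0 : ℕ) : ℤ)) ((0 : ℕ) : ℤ) = ∅ := by
      rw [Nat.cast_zero, neg_zero]
      exact Ioo_self _
    rw [e1, sum_empty]
    positivity
  · have h2 : ∀ z ∈ Ioo (-(Y:ℤ)) Y, |kern Q Y z| ≤ tent Y z * (Q : ℝ) ^ 3 := by
      intro z _
      unfold kern
      rw [abs_mul, abs_of_nonneg (k1_tent_nonneg Y z)]
      exact mul_le_mul_of_nonneg_left (h1 z) (k1_tent_nonneg Y z)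
    refine (sum_le_sum h2).trans ?_
    rw [← sum_mul, k1_tent_sum Y hY, one_mul]

end Pool.Agent.H9S
end

-- from Lib.H9S.K2
section
/-!
CHUNK K2 (S/M). Translation. `Lc Q Y m = ∑_{z} kern Q Y z * lc (m - z)` (definition of `Lk`). In
`∑_{x ∈ S} ∑_{y ∈ T} f x g y lc(x + y - z) W(x - y)` put `x = x' + z`, `x' ∈ S - z` (`Finset.sum_image`, `x ↦ x - z` is injective):
`x + y - z = x' + y`, `x - y = (x' - y) + z`. Exchange the sums (`Finset.sum_comm`, `Finset.mul_sum`).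
`K2_FB`: `∑_{x' ∈ S - z} f(x' + z) ee(th x') = ee(-(th z)) ∑_{x ∈ S} f x ee(th x)` (`ee_add`, `norm_ee` in H44W/E1).
-/
namespace Pool.Agent.H9S
open Finset Pool.Agent.H44W
open Pool.Agent.Lib.H68T (lp Lk kern tent cq)

theorem K2_trans (Q Y : ℕ) (S T : Finset ℤ) (W f g : ℤ → ℂ) :
    BF S T (Lc Q Y) W f g = ∑ z ∈ Ioo (-(Y:ℤ)) Y, ((kern Q Y z : ℝ) : ℂ) *
      BF (S.image (fun x => x - z)) T lc (fun v => W (v + z)) (fun x => f (x + z)) g := by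
  have h1 : ∀ z : ℤ, BF (S.image (fun x => x - z)) T lc (fun v => W (v + z)) (fun x => f (x + z)) g =
      ∑ x ∈ S, ∑ y ∈ T, f x * g y * lc (x + y - z) * W (x - y) := by
    intro z
    unfold BF
    rw [Finset.sum_image fun a _ b _ h => sub_left_injective h]
    refine Finset.sum_congr rfl fun x _ => Finset.sum_congr rfl fun y _ => ?_
    have e1 : x - z + z = x := by ring
    have e2 : x - z + y = x + y - z := by ring
    have e3 : x - z - y + z = x - y := by ring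
    simp only [e1, e2, e3]
  simp only [h1]
  have h2 : ∀ z ∈ Ioo (-(Y:ℤ)) Y, ((kern Q Y z : ℝ) : ℂ) * ∑ x ∈ S, ∑ y ∈ T, f x * g y * lc (x + y - z) * W (x - y) =
      ∑ x ∈ S, ∑ y ∈ T, f x * g y * (((kern Q Y z : ℝ) : ℂ) * lc (x + y - z)) * W (x - y) := by
    intro z _
    rw [Finset.mul_sum]
    refine Finset.sum_congr rfl fun x _ => ?_
    rw [Finset.mul_sum]
    refine Finset.sum_congr rfl fun y _ => ?_
    ring
  rw [Finset.sum_congr rfl h2, Finset.sum_comm]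
  unfold BF
  refine Finset.sum_congr rfl fun x _ => ?_
  rw [Finset.sum_comm]
  refine Finset.sum_congr rfl fun y _ => ?_
  rw [← Finset.sum_mul, ← Finset.mul_sum]
  congr 2
  unfold Lc Lk lc
  push_cast
  rfl

theorem K2_FB (S : Finset ℤ) (z : ℤ) (f : ℤ → ℂ) (κ : ℝ) (h : FB S f κ) :
    FB (S.image (fun x => x - z)) (fun x => f (x + z)) κ := by
  intro th
  rw [Finset.sum_image fun a _ b _ h => sub_left_injective h]
  have h1 : ∑ x ∈ S, f (x - z + z) * ee (th * ((x - z : ℤ) : ℝ)) = ee (-(th * z)) * ∑ x ∈ S, f x * ee (th * x) := by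
    rw [Finset.mul_sum]
    refine Finset.sum_congr rfl fun x _ => ?_
    have e1 : x - z + z = x := by ring
    have e2 : th * ((x - z : ℤ) : ℝ) = -(th * z) + th * x := by
      push_cast
      ring
    rw [e1, e2, ee_add]
    ring
  have h2 : ‖∑ x ∈ S, f (x - z + z) * ee (th * ((x - z : ℤ) : ℝ))‖ ≤ κ := by
    rw [h1, norm_mul, norm_ee, one_mul]
    exact h th
  exact h2

end Pool.Agent.H9S
end

-- from Lib.H9S.K3
section
/-!
CHUNK K3 (S/M). `INVB` gives `INVK`, with the same `c2`, `n0`. First part: `INVB` with `a = X`, `S = Sx X`, `T = Sy X`: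
`X + 1 ≤ 2X ≤ x < 3X ≤ X + 4n` and `1 - X ≤ y ≤ X - 1 ≤ 4n - X` (`1 ≤ X ≤ n`).
Second part: `K2_trans`; for `|z| < Y < X` the points of `Sx X - z` lie in `(X, 4X)`, so `X + 1 ≤ x' ≤ X + 4n` (`x' < 3X + Y < 4X`); the form for
`z` is at most `n^(2-c2)` by `INVB` (`a = X`; `W (· + z)`, `f (· + z)` bounded; `FB` of `f` by `K2_FB`, `FB` of `g` unchanged). Sum over `z` with
`K1_mass`: `‖kern‖` has the norm `|kern Q Y z|`.
-/
namespace Pool.Agent.H9S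
open Finset Pool.Agent.H44W

theorem K3_inv (h : INVB) : INVK := by
  intro c1 hc1
  obtain ⟨c2, hc2, n0, H⟩ := h c1 hc1
  refine ⟨c2, hc2, n0, ?_⟩
  intro n hn X hX1 hXn W f g hW hf hg hFB
  have hX1' : (1 : ℤ) ≤ X := by exact_mod_cast hX1
  have hXn' : (X : ℤ) ≤ n := by exact_mod_cast hXn
  have hy : ∀ y ∈ Sy X, 1 - (X : ℤ) ≤ y ∧ y ≤ 4 * n - X := by
    intro y hy
    unfold Sy at hy
    rw [mem_Ioo] at hy
    constructor <;> omega
  refine ⟨H n hn X (Sx X) (Sy X) ?_ hy W f g hW hf hg hFB, ?_⟩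
  · intro x hx
    unfold Sx at hx
    rw [mem_Ico] at hx
    constructor <;> omega
  · intro Q Y hY
    have hY' : (Y : ℤ) < X := by exact_mod_cast hY
    rw [K2_trans]
    refine (norm_sum_le _ _).trans ?_
    have hterm : ∀ z ∈ Ioo (-(Y:ℤ)) Y, ‖((Pool.Agent.Lib.H68T.kern Q Y z : ℝ) : ℂ) *
        BF ((Sx X).image (fun x => x - z)) (Sy X) lc (fun v => W (v + z)) (fun x => f (x + z)) g‖ ≤
        |Pool.Agent.Lib.H68T.kern Q Y z| * (n:ℝ) ^ (2 - c2) := by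
      intro z hz
      rw [mem_Ioo] at hz
      rw [norm_mul, Complex.norm_real, Real.norm_eq_abs]
      refine mul_le_mul_of_nonneg_left ?_ (abs_nonneg _)
      refine H n hn X _ (Sy X) ?_ hy _ _ g (fun x => hW _) (fun x => hf _) hg ?_
      · intro x hx
        rw [mem_image] at hx
        obtain ⟨x', hx', rfl⟩ := hx
        unfold Sx at hx'
        rw [mem_Ico] at hx'
        constructor <;> omega
      · rcases hFB with h1 | h1
        · exact Or.inl h1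
        · exact Or.inr (K2_FB (Sx X) z f _ h1)
    refine (sum_le_sum hterm).trans ?_
    rw [← sum_mul]
    exact mul_le_mul_of_nonneg_right (K1_mass Q Y) (Real.rpow_nonneg (Nat.cast_nonneg n) _)

end Pool.Agent.H9S
end

-- from Lib.H9S.P1
section
/-!
CHUNK P1 (S). Proper prime powers. `Λ(m) ≥ lp(m) ≥ 0` for `m ≥ 1` (equality unless `m` is a proper prime power: for a prime `m`,
`Λ m = log m = lp m`; otherwise `lp m = 0`), so the sum over `1 ≤ m ≤ 2n` is `ψ(2n) - θ(2n)` (Mathlib, `Chebyshev.psi_eq_sum_Icc`,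
`Chebyshev.theta_eq_sum_Icc`), at most `2 √(2n) log(2n)` (`Chebyshev.psi_sub_theta_le`), and `log(2n) ≤ 4 (2n)^(1/4)`
(`Real.log_le_rpow_div`). So `C = 16` is enough (any constant is allowed). Convert the sum over `Icc (1:ℤ) (2n)` to one over `Icc 1 (2n)` in
`ℕ` (`Finset.sum_nbij'` with `Int.toNat`, or induction on `n`).
-/
namespace Pool.Agent.H9S
open Finset Pool.Agent.H44W
open Pool.Agent.Lib.H68T (lp)

theorem P1_pp : ∃ C : ℝ, 0 < C ∧ ∀ n : ℕ, 1 ≤ n →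
    ∑ m ∈ Icc (1:ℤ) (2 * n), |(ArithmeticFunction.vonMangoldt m.toNat : ℝ) - lp m| ≤ C * (n:ℝ) ^ (3 / 4 : ℝ) := by
  refine ⟨16, by norm_num, fun n hn => ?_⟩
  have hn' : (1:ℝ) ≤ n := by exact_mod_cast hn
  have h1 : ∑ m ∈ Icc (1:ℤ) (2 * n), |(ArithmeticFunction.vonMangoldt m.toNat : ℝ) - lp m| =
      ∑ m ∈ Finset.Ioc 0 (2 * n),
        (if m.Prime then 0 else (ArithmeticFunction.vonMangoldt m : ℝ)) := by
    refine Finset.sum_nbij' (fun m => m.toNat) (fun m => (m : ℤ)) ?_ ?_ ?_ ?_ ?_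
    · intro m hm
      rw [Finset.mem_Icc] at hm
      rw [Finset.mem_Ioc]
      omega
    · intro m hm
      rw [Finset.mem_Ioc] at hm
      rw [Finset.mem_Icc]
      omega
    · intro m hm
      rw [Finset.mem_Icc] at hm
      exact Int.toNat_of_nonneg (by omega)
    · intro m hm
      simp
    · intro m hm
      rw [Finset.mem_Icc] at hm
      have h2 : (m.toNat : ℤ) = m := Int.toNat_of_nonneg (by omega)
      have h3 : (m : ℝ) = (m.toNat : ℝ) := by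
        exact_mod_cast h2.symm
      unfold Pool.Agent.Lib.H68T.lp
      split_ifs with hp
      · rw [ArithmeticFunction.vonMangoldt_apply_prime hp, h3]
        simp
      · rw [sub_zero, abs_of_nonneg ArithmeticFunction.vonMangoldt_nonneg]
  rw [h1]
  have h4 : ∑ m ∈ Finset.Ioc 0 (2 * n),
      (if m.Prime then 0 else (ArithmeticFunction.vonMangoldt m : ℝ)) =
      Chebyshev.psi (2 * n) - Chebyshev.theta (2 * n) := by
    rw [Chebyshev.psi_sub_theta_eq_sum_not_prime, Finset.sum_filter]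
    have h : ⌊(2 * n : ℝ)⌋₊ = 2 * n := by exact_mod_cast Nat.floor_natCast (R := ℝ) (2 * n)
    rw [h]
    refine Finset.sum_congr rfl fun m _ => ?_
    split_ifs <;> rfl
  rw [h4]
  refine (Chebyshev.psi_sub_theta_le (x := 2 * n) (by linarith)).trans ?_
  have h6 : Real.log (2 * n) ≤ (2 * n : ℝ) ^ (1 / 4 : ℝ) / (1 / 4) :=
    Real.log_le_rpow_div (by positivity) (by norm_num)
  have h7 : √(2 * n : ℝ) = (2 * n : ℝ) ^ (1 / 2 : ℝ) := Real.sqrt_eq_rpow _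
  have h8 : (2 * n : ℝ) ^ (1 / 2 : ℝ) * (2 * n : ℝ) ^ (1 / 4 : ℝ) = (2 * n : ℝ) ^ (3 / 4 : ℝ) := by
    rw [← Real.rpow_add (by positivity)]
    norm_num
  have h9 : (2 * n : ℝ) ^ (3 / 4 : ℝ) ≤ 2 * (n : ℝ) ^ (3 / 4 : ℝ) := by
    rw [Real.mul_rpow (by norm_num) (by positivity)]
    refine mul_le_mul_of_nonneg_right ?_ (by positivity)
    calc (2:ℝ) ^ (3 / 4 : ℝ) ≤ 2 ^ (1 : ℝ) :=
          Real.rpow_le_rpow_of_exponent_le (by norm_num) (by norm_num)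
      _ = 2 := Real.rpow_one _
  have h10 : 0 ≤ (2 * n : ℝ) ^ (1 / 2 : ℝ) := by positivity
  calc 2 * √(2 * n : ℝ) * Real.log (2 * n)
      ≤ 2 * (2 * n : ℝ) ^ (1 / 2 : ℝ) * ((2 * n : ℝ) ^ (1 / 4 : ℝ) / (1 / 4)) := by
        rw [h7]
        exact mul_le_mul_of_nonneg_left h6 (by positivity)
    _ = 8 * ((2 * n : ℝ) ^ (1 / 2 : ℝ) * (2 * n : ℝ) ^ (1 / 4 : ℝ)) := by ring
    _ = 8 * (2 * n : ℝ) ^ (3 / 4 : ℝ) := by rw [h8]
    _ ≤ 8 * (2 * (n : ℝ) ^ (3 / 4 : ℝ)) := by linarith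
    _ = 16 * (n : ℝ) ^ (3 / 4 : ℝ) := by ring

end Pool.Agent.H9S
end

-- from Lib.H9S.P2
section
/-!
CHUNK P2 (M). From `Λ` to `lp`.
`P2_diff`: `TF n Λ - TF n lc` is the form with the kernel `Λ - lp`, so the norm is at most
`∑_{x ∈ [1,n]} ∑_{y ∈ [1,n]} |Λ - lp|(x+y) ≤ n ∑_{m ∈ [1,2n]} |Λ - lp|(m) ≤ C n^(7/4)` (`P1_pp`; for fixed `x` the map `y ↦ x + y` is injective
into `Icc 1 (2n)`).
`P2_inv`: for `c1` let `c2'` be the constant of `INV`; put `c2 = min (c2' / 2) (1 / 8)`. If `FB g`: `|TF n lc| ≤ n^(2 - c2') + C n^(7/4) ≤ n^(2 - c2)`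
for `n` large (`n^(2-c2') ≤ n^(2-2 c2)`, `n^(7/4) ≤ n^(2 - 2 c2)`, and `(1 + C) n^(-c2) ≤ 1`). If `FB f`: `TF_swap` (H44W/U2):
`TF n lc W f g = TF n lc (fun v => W (-v)) g f`, apply the first case.
-/
namespace Pool.Agent.H9S
open Finset Pool.Agent.H44W
open Pool.Agent.Lib.H68T (lp)

theorem P2_diff : ∃ C : ℝ, 0 < C ∧ ∀ n : ℕ, 1 ≤ n → ∀ W f g : ℤ → ℂ, Bd W → Bd f → Bd g →
    ‖TF n (fun m => ((ArithmeticFunction.vonMangoldt m.toNat : ℝ) : ℂ)) W f g - TF n lc W f g‖ ≤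
      C * (n:ℝ) ^ (7 / 4 : ℝ) := by
  obtain ⟨C, hC, h⟩ := P1_pp
  refine ⟨C, hC, fun n hn W f g hW hf hg => ?_⟩
  have hn' : (0:ℝ) < n := by exact_mod_cast hn
  have h1 : TF n (fun m => ((ArithmeticFunction.vonMangoldt m.toNat : ℝ) : ℂ)) W f g -
      TF n lc W f g = ∑ x ∈ Icc (1:ℤ) n, ∑ y ∈ Icc (1:ℤ) n,
        f x * g y * (((ArithmeticFunction.vonMangoldt (x + y).toNat : ℝ) : ℂ) - lc (x + y)) *
          W (x - y) := by
    unfold TF
    rw [← Finset.sum_sub_distrib]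
    refine Finset.sum_congr rfl fun x _ => ?_
    rw [← Finset.sum_sub_distrib]
    refine Finset.sum_congr rfl fun y _ => ?_
    ring
  rw [h1]
  have h2 : ∀ x ∈ Icc (1:ℤ) n, ‖∑ y ∈ Icc (1:ℤ) n,
        f x * g y * (((ArithmeticFunction.vonMangoldt (x + y).toNat : ℝ) : ℂ) - lc (x + y)) *
          W (x - y)‖ ≤ C * (n:ℝ) ^ (3 / 4 : ℝ) := by
    intro x hx
    rw [Finset.mem_Icc] at hx
    refine le_trans ?_ (h n hn)
    refine (norm_sum_le _ _).trans ?_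
    have h3 : ∀ y ∈ Icc (1:ℤ) n,
        ‖f x * g y * (((ArithmeticFunction.vonMangoldt (x + y).toNat : ℝ) : ℂ) - lc (x + y)) *
          W (x - y)‖ ≤ |(ArithmeticFunction.vonMangoldt (x + y).toNat : ℝ) - lp (x + y)| := by
      intro y _
      have h4 : ‖((ArithmeticFunction.vonMangoldt (x + y).toNat : ℝ) : ℂ) - lc (x + y)‖ =
          |(ArithmeticFunction.vonMangoldt (x + y).toNat : ℝ) - lp (x + y)| := by
        unfold lc
        rw [← Complex.ofReal_sub, Complex.norm_real, Real.norm_eq_abs]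
      rw [norm_mul, norm_mul, norm_mul, h4]
      have h5 : ‖f x‖ * ‖g y‖ ≤ 1 := mul_le_one₀ (hf x) (norm_nonneg _) (hg y)
      have h6 := abs_nonneg ((ArithmeticFunction.vonMangoldt (x + y).toNat : ℝ) - lp (x + y))
      calc ‖f x‖ * ‖g y‖ * |(ArithmeticFunction.vonMangoldt (x + y).toNat : ℝ) - lp (x + y)| *
            ‖W (x - y)‖
          ≤ 1 * |(ArithmeticFunction.vonMangoldt (x + y).toNat : ℝ) - lp (x + y)| * 1 :=
            mul_le_mul (mul_le_mul_of_nonneg_right h5 h6) (hW _) (norm_nonneg _) (by positivity)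
        _ = _ := by ring
    refine (Finset.sum_le_sum h3).trans ?_
    have h7 : ∑ y ∈ Icc (1:ℤ) n,
        |(ArithmeticFunction.vonMangoldt (x + y).toNat : ℝ) - lp (x + y)| =
        ∑ m ∈ (Icc (1:ℤ) n).image (fun y => x + y),
          |(ArithmeticFunction.vonMangoldt m.toNat : ℝ) - lp m| := by
      rw [Finset.sum_image]
      intro a _ b _ hab
      exact add_left_cancel hab
    rw [h7]
    refine Finset.sum_le_sum_of_subset_of_nonneg ?_ (fun _ _ _ => abs_nonneg _)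
    intro m hm
    rw [Finset.mem_image] at hm
    obtain ⟨y, hy, rfl⟩ := hm
    rw [Finset.mem_Icc] at hy ⊢
    omega
  refine (norm_sum_le_of_le _ h2).trans ?_
  rw [Finset.sum_const, Int.card_Icc, nsmul_eq_mul]
  have h8 : (((n:ℤ) + 1 - 1).toNat : ℝ) = n := by
    have : ((n:ℤ) + 1 - 1).toNat = n := by omega
    rw [this]
  rw [h8]
  have h9 : (n:ℝ) ^ (7 / 4 : ℝ) = n * (n:ℝ) ^ (3 / 4 : ℝ) := by
    have h10 : (7 / 4 : ℝ) = 1 + 3 / 4 := by norm_num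
    rw [h10, Real.rpow_add hn', Real.rpow_one]
  rw [h9]
  exact le_of_eq (by ring)

theorem P2_inv (h : INV) : INVL := by
  intro c1 hc1
  obtain ⟨c, hc, n0, h0⟩ := h c1 hc1
  obtain ⟨C, hC, hd⟩ := P2_diff
  have hc2 : 0 < min (c / 2) (1 / 8) := lt_min (by linarith) (by norm_num)
  have hm1 : min (c / 2) (1 / 8) ≤ c / 2 := min_le_left _ _
  have hm2 : min (c / 2) (1 / 8 : ℝ) ≤ 1 / 8 := min_le_right _ _
  generalize min (c / 2) (1 / 8 : ℝ) = c2 at hc2 hm1 hm2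
  refine ⟨c2, hc2, max n0 (⌈(1 + C) ^ (1 / c2)⌉₊ + 1), fun n hn => ?_⟩
  have hn0 : n0 ≤ n := (le_max_left _ _).trans hn
  have hn1 : ⌈(1 + C) ^ (1 / c2)⌉₊ + 1 ≤ n := (le_max_right _ _).trans hn
  have hn2 : 1 ≤ n := by omega
  have hn3 : (1:ℝ) ≤ n := by exact_mod_cast hn2
  have hn4 : (1 + C) ^ (1 / c2) ≤ (n:ℝ) := by
    refine (Nat.le_ceil _).trans ?_
    exact_mod_cast (by omega : ⌈(1 + C) ^ (1 / c2)⌉₊ ≤ n)
  have hn5 : 1 + C ≤ (n:ℝ) ^ c2 := by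
    have h1 : ((1 + C) ^ (1 / c2)) ^ c2 ≤ (n:ℝ) ^ c2 :=
      Real.rpow_le_rpow (by positivity) hn4 hc2.le
    rwa [← Real.rpow_mul (by linarith), one_div, inv_mul_cancel₀ hc2.ne', Real.rpow_one] at h1
  have key : ∀ W f g : ℤ → ℂ, Bd W → Bd f → Bd g → FB (Icc (1:ℤ) n) g ((n:ℝ) ^ (1 - c1)) →
      ‖TF n lc W f g‖ ≤ (n:ℝ) ^ (2 - c2) := by
    intro W f g hW hf hg hfb
    have h1 := h0 n hn0 W f g hW hf hg hfb
    have h2 := hd n hn2 W f g hW hf hg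
    have h3 : ‖TF n lc W f g‖ ≤ (n:ℝ) ^ (2 - c) + C * (n:ℝ) ^ (7 / 4 : ℝ) := by
      have h4 : TF n lc W f g =
          TF n (fun m => ((ArithmeticFunction.vonMangoldt m.toNat : ℝ) : ℂ)) W f g -
          (TF n (fun m => ((ArithmeticFunction.vonMangoldt m.toNat : ℝ) : ℂ)) W f g -
            TF n lc W f g) := by ring
      rw [h4]
      exact (norm_sub_le _ _).trans (add_le_add h1 h2)
    refine h3.trans ?_
    have h5 : (n:ℝ) ^ (2 - c) ≤ (n:ℝ) ^ (2 - 2 * c2) :=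
      Real.rpow_le_rpow_of_exponent_le hn3 (by linarith)
    have h6 : (n:ℝ) ^ (7 / 4 : ℝ) ≤ (n:ℝ) ^ (2 - 2 * c2) :=
      Real.rpow_le_rpow_of_exponent_le hn3 (by linarith)
    have h7 : (n:ℝ) ^ (2 - c2) = (n:ℝ) ^ c2 * (n:ℝ) ^ (2 - 2 * c2) := by
      rw [← Real.rpow_add (by linarith)]
      congr 1
      ring
    have h8 : 0 ≤ (n:ℝ) ^ (2 - 2 * c2) := by positivity
    rw [h7]
    calc (n:ℝ) ^ (2 - c) + C * (n:ℝ) ^ (7 / 4 : ℝ)
        ≤ (n:ℝ) ^ (2 - 2 * c2) + C * (n:ℝ) ^ (2 - 2 * c2) :=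
          add_le_add h5 (mul_le_mul_of_nonneg_left h6 hC.le)
      _ = (1 + C) * (n:ℝ) ^ (2 - 2 * c2) := by ring
      _ ≤ (n:ℝ) ^ c2 * (n:ℝ) ^ (2 - 2 * c2) := mul_le_mul_of_nonneg_right hn5 h8
  intro W f g hW hf hg hfb
  rcases hfb with hfb | hfb
  · exact key W f g hW hf hg hfb
  · rw [TF_swap]
    exact key (fun v => W (-v)) g f (fun v => hW (-v)) hg hf hfb

end Pool.Agent.H9S
end

-- from Lib.H9S.T1
section
/-!
CHUNK T1 (S/M). Boxes `S × T` as a part of `[1,n]²` by the shift `x = x' + a`, `y = y' - a`: then `x + y = x' + y'` and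
`x - y = x' - y' + 2a`.
`T1_shift`: `∑_{x ∈ S} φ x = ∑_{x' ∈ Icc 1 n} if x' + a ∈ S then φ (x' + a) else 0` (`Finset.sum_filter` and `Finset.sum_nbij'` /
`Finset.sum_image`; `x' = x - a ∈ [1,n]` by `hS`), the same for `T` with `y' = y + a`.
`T1_FBg`: `∑_{y' ∈ [1,n]} g'(y') ee(th y') = ee(th a) ∑_{y ∈ T} g y ee(th y)` (`ee_add`, `norm_ee` in H44W/E1). `T1_FBf`: the same with `-a`.
-/
namespace Pool.Agent.H9S
open Finset Pool.Agent.H44W

theorem t1_sum (n : ℕ) (a : ℤ) (S : Finset ℤ) (hS : ∀ x ∈ S, a + 1 ≤ x ∧ x ≤ a + n) (φ : ℤ → ℂ) :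
    ∑ x ∈ Icc (1:ℤ) n, (if x + a ∈ S then φ (x + a) else 0) = ∑ x ∈ S, φ x := by
  rw [← sum_filter]
  refine Finset.sum_nbij' (fun x => x + a) (fun x => x - a) ?_ ?_ ?_ ?_ ?_
  · intro x hx
    exact (mem_filter.1 hx).2
  · intro x hx
    have h1 := hS x hx
    refine mem_filter.2 ⟨mem_Icc.2 ⟨by omega, by omega⟩, ?_⟩
    show x - a + a ∈ S
    rw [sub_add_cancel]
    exact hx
  · intro x _
    show x + a - a = x
    ring
  · intro x _
    show x - a + a = x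
    ring
  · intro x _
    rfl

theorem T1_shift (n : ℕ) (a : ℤ) (S T : Finset ℤ) (hS : ∀ x ∈ S, a + 1 ≤ x ∧ x ≤ a + n)
    (hT : ∀ y ∈ T, 1 - a ≤ y ∧ y ≤ n - a) (F W f g : ℤ → ℂ) :
    BF S T F W f g = TF n F (fun v => W (v + 2 * a)) (fun x => if x + a ∈ S then f (x + a) else 0)
      (fun y => if y - a ∈ T then g (y - a) else 0) := by
  have hT' : ∀ y ∈ T, -a + 1 ≤ y ∧ y ≤ -a + n := fun y hy => by
    have := hT y hy
    omega
  have h1 : ∀ x : ℤ, ∑ y ∈ Icc (1:ℤ) n, (if x + a ∈ S then f (x + a) else 0) * (if y - a ∈ T then g (y - a) else 0) *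
      F (x + y) * W (x - y + 2 * a) =
      if x + a ∈ S then (fun u => ∑ y ∈ T, f u * g y * F (u + y) * W (u - y)) (x + a) else 0 := by
    intro x
    split_ifs with hx
    · have h2 := t1_sum n (-a) T hT' (fun y => f (x + a) * g y * F (x + a + y) * W (x + a - y))
      refine Eq.trans ?_ h2
      refine sum_congr rfl fun y _ => ?_
      have e1 : y + -a = y - a := by ring
      rw [e1]
      have e2 : x + a + (y - a) = x + y := by ring
      have e3 : x + a - (y - a) = x - y + 2 * a := by ring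
      rw [e2, e3]
      split_ifs
      · rfl
      · rw [mul_zero, zero_mul, zero_mul]
    · refine sum_eq_zero fun y _ => ?_
      rw [zero_mul, zero_mul, zero_mul]
  unfold BF TF
  rw [sum_congr rfl fun x _ => h1 x]
  exact (t1_sum n a S hS _).symm

theorem T1_FBg (n : ℕ) (a : ℤ) (T : Finset ℤ) (hT : ∀ y ∈ T, 1 - a ≤ y ∧ y ≤ n - a) (g : ℤ → ℂ) (κ : ℝ)
    (h : FB T g κ) : FB (Icc (1:ℤ) n) (fun y => if y - a ∈ T then g (y - a) else 0) κ := by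
  have hT' : ∀ y ∈ T, -a + 1 ≤ y ∧ y ≤ -a + n := fun y hy => by
    have := hT y hy
    omega
  intro th
  have h1 : ∑ z ∈ Icc (1:ℤ) n, (if z - a ∈ T then g (z - a) else 0) * ee (th * z) =
      ee (th * a) * ∑ y ∈ T, g y * ee (th * y) := by
    have h2 := t1_sum n (-a) T hT' (fun y => ee (th * a) * (g y * ee (th * y)))
    rw [mul_sum, ← h2]
    refine sum_congr rfl fun y _ => ?_
    have e1 : y + -a = y - a := by ring
    rw [e1]
    split_ifs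
    · have e2 : ee (th * y) = ee (th * a) * ee (th * ((y - a : ℤ) : ℝ)) := by
        rw [← ee_add]
        congr 1
        push_cast
        ring
      rw [e2]
      ring
    · rw [zero_mul]
  show ‖∑ z ∈ Icc (1:ℤ) n, (if z - a ∈ T then g (z - a) else 0) * ee (th * z)‖ ≤ κ
  rw [h1, norm_mul, norm_ee, one_mul]
  exact h th

theorem T1_FBf (n : ℕ) (a : ℤ) (S : Finset ℤ) (hS : ∀ x ∈ S, a + 1 ≤ x ∧ x ≤ a + n) (f : ℤ → ℂ) (κ : ℝ)
    (h : FB S f κ) : FB (Icc (1:ℤ) n) (fun x => if x + a ∈ S then f (x + a) else 0) κ := by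
  intro th
  have h1 : ∑ z ∈ Icc (1:ℤ) n, (if z + a ∈ S then f (z + a) else 0) * ee (th * z) =
      ee (th * ((-a : ℤ) : ℝ)) * ∑ y ∈ S, f y * ee (th * y) := by
    have h2 := t1_sum n a S hS (fun y => ee (th * ((-a : ℤ) : ℝ)) * (f y * ee (th * y)))
    rw [mul_sum, ← h2]
    refine sum_congr rfl fun y _ => ?_
    split_ifs
    · have e2 : ee (th * y) = ee (th * ((-a : ℤ) : ℝ)) * ee (th * ((y + a : ℤ) : ℝ)) := by
        rw [← ee_add]
        congr 1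
        push_cast
        ring
      rw [e2]
      ring
    · rw [zero_mul]
  show ‖∑ z ∈ Icc (1:ℤ) n, (if z + a ∈ S then f (z + a) else 0) * ee (th * z)‖ ≤ κ
  rw [h1, norm_mul, norm_ee, one_mul]
  exact h th

end Pool.Agent.H9S
end

-- from Lib.H9S.T2
section
/-!
CHUNK T2 (S/M). `INVL` on boxes. For `c1` put `c1' = min c1 1` and take `c2'`, `n0'` of `INVL` for `c1'`. Apply `INVL` with `4n` instead of `n`
(`n ≥ n0'`, `n ≥ 1`) to the functions of `T1_shift` (bounded by `1`: `W (· + 2a)`, and the cut off functions are `f (x + a)` or `0`);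
`n^(1-c1) ≤ n^(1-c1') ≤ (4n)^(1-c1')` (`1 - c1' ≥ 0`), `T1_FBg` / `T1_FBf` with `4n`. Result `(4n)^(2-c2') ≤ n^(2-c2)` with `c2 = min c2' 1 / 2`:
use `INVL` with its `c2'` replaced by `min c2' 1` (`(4n)^(2-c2') ≤ (4n)^(2 - min c2' 1)`), and
`(4n)^(2-2c2) = 4^(2-2c2) n^(2-2c2) ≤ 16 n^(2 - 2 c2) ≤ n^(2-c2)` for `16 ≤ n^c2`.
Casts: `((4 * n : ℕ) : ℤ) = 4 * n`.
-/
namespace Pool.Agent.H9S
open Finset Pool.Agent.H44W

theorem t2_mono {T : Finset ℤ} {g : ℤ → ℂ} {κ κ' : ℝ} (h : FB T g κ) (hk : κ ≤ κ') : FB T g κ' :=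
  fun th => (h th).trans hk

theorem t2_large (c : ℝ) (hc : 0 < c) : ∃ N : ℕ, ∀ n : ℕ, N ≤ n → (16 : ℝ) ≤ (n : ℝ) ^ c := by
  refine ⟨⌈(16 : ℝ) ^ (1 / c)⌉₊, fun n hn => ?_⟩
  have h1 : (16 : ℝ) ^ (1 / c) ≤ n := (Nat.le_ceil _).trans (by exact_mod_cast hn)
  have h2 : ((16 : ℝ) ^ (1 / c)) ^ c ≤ (n : ℝ) ^ c := Real.rpow_le_rpow (by positivity) h1 hc.le
  rw [← Real.rpow_mul (by norm_num), one_div_mul_cancel hc.ne', Real.rpow_one] at h2
  exact h2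

theorem T2_box (h : INVL) : INVB := by
  intro c1 hc1
  obtain ⟨c2', hc2', n0', hn0'⟩ := h (min c1 1) (lt_min hc1 one_pos)
  obtain ⟨c3, hc3⟩ : ∃ c3 : ℝ, c3 = min c2' 1 := ⟨_, rfl⟩
  have hc30 : 0 < c3 := by
    rw [hc3]
    exact lt_min hc2' one_pos
  obtain ⟨N, hN⟩ := t2_large (c3 / 2) (by positivity)
  refine ⟨c3 / 2, by positivity, max (max n0' N) 1, ?_⟩
  intro n hn a S T hS hT W f g hW hf hg hFB
  have n1 : n0' ≤ n := (le_max_left _ _).trans ((le_max_left _ _).trans hn)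
  have n2 : N ≤ n := (le_max_right _ _).trans ((le_max_left _ _).trans hn)
  have n3 : 1 ≤ n := (le_max_right _ _).trans hn
  have hnr : (1:ℝ) ≤ n := by exact_mod_cast n3
  have hn0 : (0:ℝ) < n := by linarith
  have hcast : ((4 * n : ℕ) : ℤ) = 4 * n := by push_cast; ring
  have hcastR : ((4 * n : ℕ) : ℝ) = 4 * n := by push_cast; ring
  have hS' : ∀ x ∈ S, a + 1 ≤ x ∧ x ≤ a + ((4 * n : ℕ) : ℤ) := by
    rw [hcast]
    exact hS
  have hT' : ∀ y ∈ T, 1 - a ≤ y ∧ y ≤ ((4 * n : ℕ) : ℤ) - a := by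
    rw [hcast]
    exact hT
  rw [T1_shift (4 * n) a S T hS' hT']
  have hκ : (n:ℝ) ^ (1 - c1) ≤ ((4 * n : ℕ) : ℝ) ^ (1 - min c1 1) := by
    have e1 : (n:ℝ) ^ (1 - c1) ≤ (n:ℝ) ^ (1 - min c1 1) :=
      Real.rpow_le_rpow_of_exponent_le hnr (by linarith [min_le_left c1 1])
    refine e1.trans (Real.rpow_le_rpow hn0.le ?_ (by linarith [min_le_right c1 1]))
    rw [hcastR]
    linarith
  have hmain := hn0' (4 * n) (by omega) (fun v => W (v + 2 * a)) (fun x => if x + a ∈ S then f (x + a) else 0)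
    (fun y => if y - a ∈ T then g (y - a) else 0) (fun v => hW _) (fun x => by
      beta_reduce
      split_ifs
      · exact hf _
      · rw [norm_zero]
        exact zero_le_one) (fun y => by
      beta_reduce
      split_ifs
      · exact hg _
      · rw [norm_zero]
        exact zero_le_one) (by
      rcases hFB with hg' | hf'
      · exact Or.inl (t2_mono (T1_FBg (4 * n) a T hT' g _ hg') hκ)
      · exact Or.inr (t2_mono (T1_FBf (4 * n) a S hS' f _ hf') hκ))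
  refine hmain.trans ?_
  have h4n : (1:ℝ) ≤ ((4 * n : ℕ) : ℝ) := by
    rw [hcastR]
    linarith
  have e1 : ((4 * n : ℕ) : ℝ) ^ (2 - c2') ≤ ((4 * n : ℕ) : ℝ) ^ (2 - c3) :=
    Real.rpow_le_rpow_of_exponent_le h4n (by rw [hc3]; linarith [min_le_left c2' 1])
  refine e1.trans ?_
  rw [hcastR, Real.mul_rpow (by norm_num) hn0.le]
  have e2 : (4:ℝ) ^ (2 - c3) ≤ 16 := by
    have e3 : (4:ℝ) ^ (2 - c3) ≤ (4:ℝ) ^ (2:ℝ) :=
      Real.rpow_le_rpow_of_exponent_le (by norm_num) (by linarith)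
    refine e3.trans (le_of_eq ?_)
    norm_num
  have e4 : (n:ℝ) ^ (2 - c3 / 2) = (n:ℝ) ^ (c3 / 2) * (n:ℝ) ^ (2 - c3) := by
    rw [← Real.rpow_add hn0]
    congr 1
    ring
  rw [e4]
  exact mul_le_mul_of_nonneg_right (e2.trans (hN n n2)) (Real.rpow_nonneg hn0.le _)

end Pool.Agent.H9S
end
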