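import Mathlib
import Pool.Agent.Lib.H59M.M1.M004

/-! Merged copies (to shorten the build) of Lib.H68T.CQ1, Lib.H68T.CQ2, Lib.H68T.CG1, Lib.H68X.XRH, Lib.Sieve.Combi, Lib.Sieve.PrimeSum, Lib.Sieve.Fundamental, Lib.Sieve.Averages, Lib.H68T.VA. -/

-- from Lib.H68T.CQ1
section

/-!
# Chunk CQ1; part of CQ: Ramanujan sums
-/

open Finset

namespace Pool.Agent.Lib.H68T

theorem CQ1_moebius (n : ℕ) :
    ∑ d ∈ n.divisors, (ArithmeticFunction.moebius d : ℂ) = if n = 1 then 1 else 0 := by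
  have h := ArithmeticFunction.coe_mul_zeta_apply (R := ℂ)
    (f := ((ArithmeticFunction.moebius : ArithmeticFunction ℤ) : ArithmeticFunction ℂ)) (x := n)
  rw [ArithmeticFunction.coe_moebius_mul_coe_zeta] at h
  rw [ArithmeticFunction.one_apply] at h
  simp only [ArithmeticFunction.intCoe_apply] at h
  exact h.symm

theorem CQ1_e_add (x y : ℝ) : e (x + y) = e x * e y := by
  unfold e
  rw [← Complex.exp_add]
  congr 1
  push_cast
  ring

theorem CQ1_e_int (m : ℤ) : e m = 1 := by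
  unfold e
  rw [Complex.exp_eq_one_iff]
  exact ⟨m, by push_cast; ring⟩

theorem CQ1_e_eq_one (x : ℝ) (h : e x = 1) : ∃ m : ℤ, x = m := by
  unfold e at h
  rw [Complex.exp_eq_one_iff] at h
  obtain ⟨m, hm⟩ := h
  refine ⟨m, ?_⟩
  have h1 : (2 * Real.pi * Complex.I : ℂ) ≠ 0 := Complex.two_pi_I_ne_zero
  have h2 : (x : ℂ) = m := by
    apply mul_right_cancel₀ h1
    rw [← hm]
    ring
  exact_mod_cast h2

theorem CQ1_e_nat_mul (x : ℝ) (n : ℕ) : e (n * x) = e x ^ n := by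
  unfold e
  rw [← Complex.exp_nat_mul]
  congr 1
  push_cast
  ring

theorem CQ1_geom (n : ℕ) (hn : 0 < n) (m : ℤ) :
    ∑ b ∈ range n, e (b * (m / n)) = if (n : ℤ) ∣ m then (n : ℂ) else 0 := by
  have hn0 : (n : ℝ) ≠ 0 := by exact_mod_cast hn.ne'
  have h1 : ∀ b ∈ range n, e (b * (m / n)) = (e (m / n)) ^ b := fun b _ => CQ1_e_nat_mul _ _
  rw [sum_congr rfl h1]
  have h2 : (e ((m : ℝ) / n)) ^ n = 1 := by
    rw [← CQ1_e_nat_mul, mul_div_cancel₀ _ hn0]
    exact CQ1_e_int m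
  split_ifs with h
  · obtain ⟨k, hk⟩ := h
    have h3 : e ((m : ℝ) / n) = 1 := by
      rw [hk]
      have : (((n : ℤ) * k : ℤ) : ℝ) / n = ((k : ℤ) : ℝ) := by
        push_cast
        field_simp
      rw [this]
      exact CQ1_e_int k
    rw [h3]
    simp
  · have h3 : e ((m : ℝ) / n) ≠ 1 := by
      intro h4
      obtain ⟨k, hk⟩ := CQ1_e_eq_one _ h4
      apply h
      refine ⟨k, ?_⟩
      rw [div_eq_iff hn0] at hk
      have : (m : ℝ) = ((n * k : ℤ) : ℝ) := by rw [hk]; push_cast; ring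
      exact_mod_cast this
    rw [geom_sum_eq h3, h2, sub_self, zero_div]

/-- `c_q(m) = ∑_{a mod q, (a,q) = 1} e(a m / q)`: Möbius inversion from
`∑_{a mod q} e(a m/q) = q [q ∣ m]`. -/
theorem cq_eq_sum (q : ℕ) (hq : 0 < q) (m : ℤ) :
    (cq q m : ℂ) = ∑ a ∈ (range q).filter (fun a => Nat.Coprime a q), e (a * m / q) := by
  have hind : ∀ a : ℕ, ∑ d ∈ q.divisors.filter (fun d => d ∣ a),
      (ArithmeticFunction.moebius d : ℂ) = if Nat.Coprime a q then 1 else 0 := by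
    intro a
    have hg : 0 < Nat.gcd a q := Nat.gcd_pos_of_pos_right _ hq
    have h1 : q.divisors.filter (fun d => d ∣ a) = (Nat.gcd a q).divisors := by
      ext d
      simp only [mem_filter, Nat.mem_divisors, Nat.dvd_gcd_iff]
      constructor
      · rintro ⟨⟨h1, _⟩, h3⟩
        exact ⟨⟨h3, h1⟩, hg.ne'⟩
      · rintro ⟨⟨h1, h2⟩, _⟩
        exact ⟨⟨h2, hq.ne'⟩, h1⟩
    rw [h1, CQ1_moebius _]
  have h1 : ∑ a ∈ (range q).filter (fun a => Nat.Coprime a q), e (a * m / q)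
      = ∑ a ∈ range q, ∑ d ∈ q.divisors, if d ∣ a then
        (ArithmeticFunction.moebius d : ℂ) * e (a * m / q) else 0 := by
    rw [sum_filter]
    refine sum_congr rfl fun a _ => ?_
    have h2 := hind a
    rw [← sum_filter, ← sum_mul, h2]
    split_ifs <;> simp
  rw [h1, sum_comm]
  have h3 : ∀ d ∈ q.divisors, (∑ a ∈ range q, if d ∣ a then
      (ArithmeticFunction.moebius d : ℂ) * e (a * m / q) else 0)
      = (ArithmeticFunction.moebius d : ℂ) * (if ((q / d : ℕ) : ℤ) ∣ m then ((q / d : ℕ) : ℂ) else 0) := by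
    intro d hd
    rw [Nat.mem_divisors] at hd
    obtain ⟨k, hk⟩ := hd.1
    have hd0 : 0 < d := Nat.pos_of_dvd_of_pos hd.1 hq
    have hk0 : 0 < k := by
      rcases Nat.eq_zero_or_pos k with h | h
      · rw [h, mul_zero] at hk
        exact absurd hk hq.ne'
      · exact h
    have hqd : q / d = k := by rw [hk]; exact Nat.mul_div_cancel_left _ hd0
    rw [hqd, ← CQ1_geom k hk0 m, mul_sum, ← sum_filter]
    symm
    refine sum_bij (fun b _ => d * b) ?_ ?_ ?_ ?_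
    · intro b hb
      rw [mem_range] at hb
      rw [mem_filter, mem_range]
      refine ⟨?_, dvd_mul_right _ _⟩
      rw [hk]
      exact Nat.mul_lt_mul_of_pos_left hb hd0
    · intro a _ b _ h
      exact Nat.eq_of_mul_eq_mul_left hd0 h
    · intro a ha
      rw [mem_filter, mem_range] at ha
      obtain ⟨b, hb⟩ := ha.2
      refine ⟨b, ?_, hb.symm⟩
      rw [mem_range]
      rw [hb, hk] at ha
      exact Nat.lt_of_mul_lt_mul_left ha.1
    · intro b _
      congr 2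
      rw [hk]
      have : (d : ℝ) ≠ 0 := by exact_mod_cast hd0.ne'
      have : (k : ℝ) ≠ 0 := by exact_mod_cast hk0.ne'
      push_cast
      field_simp
  rw [sum_congr rfl h3]
  rw [← Nat.sum_div_divisors q (fun d => (ArithmeticFunction.moebius d : ℂ)
    * (if ((q / d : ℕ) : ℤ) ∣ m then ((q / d : ℕ) : ℂ) else 0))]
  unfold cq
  rw [sum_filter, Complex.ofReal_sum]
  refine sum_congr rfl fun d hd => ?_
  rw [Nat.mem_divisors] at hd
  have h4 : q / (q / d) = d := Nat.div_div_self hd.1 hd.2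
  simp only [h4]
  split_ifs with h
  · push_cast
    ring
  · simp

/-- `c_q` is even. -/
theorem cq_neg (q : ℕ) (m : ℤ) : cq q (-m) = cq q m := by
  unfold cq
  simp only [dvd_neg]

end Pool.Agent.Lib.H68T
end

-- from Lib.H68T.CQ2
section

/-!
# Chunk CQ2; part of CQ: Ramanujan sums
-/

open Finset

namespace Pool.Agent.Lib.H68T

/-- `φ(n) = ∑_{d ∣ n} d μ(n/d)` -/
theorem CQ2_totient (n : ℕ) (hn : 0 < n) :
    ∑ d ∈ n.divisors, (d : ℝ) * (ArithmeticFunction.moebius (n / d) : ℝ) = Nat.totient n := by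
  have h := (ArithmeticFunction.sum_eq_iff_sum_mul_moebius_eq (R := ℝ)
    (f := fun n => (Nat.totient n : ℝ)) (g := fun n => (n : ℝ))).1 (fun n _ => by
      have := Nat.sum_totient n
      exact_mod_cast this) n hn
  rw [← h, Nat.sum_divisorsAntidiagonal' (fun a b => (ArithmeticFunction.moebius a : ℝ) * (b : ℝ))]
  exact sum_congr rfl fun d _ => mul_comm _ _

/-- For squarefree `q`: `c_q(m) = μ(q/g) φ(g)`, `g = gcd(q, m)`. -/
theorem cq_squarefree (q : ℕ) (hq : Squarefree q) (m : ℤ) :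
    cq q m = (ArithmeticFunction.moebius (q / Nat.gcd q m.natAbs) : ℝ) *
      Nat.totient (Nat.gcd q m.natAbs) := by
  set g := Nat.gcd q m.natAbs with hg
  have hq0 : q ≠ 0 := hq.ne_zero
  have hgq : g ∣ q := Nat.gcd_dvd_left _ _
  have hg0 : 0 < g := Nat.pos_of_ne_zero (fun h => hq0 (by rw [h] at hgq; exact Nat.eq_zero_of_zero_dvd hgq))
  obtain ⟨h, hh⟩ := hgq
  have hcop : Nat.Coprime g h := by
    rw [hh] at hq
    exact Nat.coprime_of_squarefree_mul hq
  have hqg : q / g = h := by rw [hh]; exact Nat.mul_div_cancel_left _ hg0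
  unfold cq
  have h1 : q.divisors.filter (fun d : ℕ => (d : ℤ) ∣ m) = g.divisors := by
    ext d
    simp only [mem_filter, Nat.mem_divisors]
    rw [hg, Nat.dvd_gcd_iff, Int.natCast_dvd]
    constructor
    · rintro ⟨⟨a, _⟩, b⟩
      exact ⟨⟨a, b⟩, hg0.ne'⟩
    · rintro ⟨⟨a, b⟩, _⟩
      exact ⟨⟨a, hq0⟩, b⟩
  rw [h1, hqg, ← CQ2_totient g hg0, mul_sum]
  refine sum_congr rfl fun d hd => ?_
  rw [Nat.mem_divisors] at hd
  obtain ⟨k, hk⟩ := hd.1
  have hd0 : 0 < d := Nat.pos_of_dvd_of_pos hd.1 hg0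
  have e1 : g / d = k := by rw [hk]; exact Nat.mul_div_cancel_left _ hd0
  have e2 : q / d = k * h := by
    rw [hh, hk, mul_assoc]; exact Nat.mul_div_cancel_left _ hd0
  have hkh : Nat.Coprime k h := Nat.Coprime.coprime_dvd_left ⟨d, by rw [hk]; ring⟩ hcop
  rw [e1, e2, ArithmeticFunction.isMultiplicative_moebius.map_mul_of_coprime hkh]
  push_cast
  ring

/-- product of `P/(P-1)` over a finite set of integers `≥ 2` -/
theorem CQ2_prod (S : Finset ℕ) (hS : ∀ p ∈ S, 2 ≤ p) :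
    ∏ p ∈ S, ((p : ℝ) / (p - 1)) ≤ S.card + 1 := by
  induction S using Finset.induction_on_max with
  | empty => simp
  | insert P s hmax ih =>
    have hP : P ∉ s := fun h => lt_irrefl _ (hmax P h)
    rw [prod_insert hP, card_insert_of_notMem hP]
    have h1 := ih fun p hp => hS p (mem_insert_of_mem hp)
    have h2 : 2 ≤ P := hS P (mem_insert_self _ _)
    have h3 : s.card + 1 ≤ P - 1 := by
      have h4 : s ⊆ Ico 2 P := by
        intro p hp
        rw [mem_Ico]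
        exact ⟨hS p (mem_insert_of_mem hp), hmax p hp⟩
      have h5 := card_le_card h4
      rw [Nat.card_Ico] at h5
      omega
    have h6 : ((s.card : ℝ) + 1) ≤ (P : ℝ) - 1 := by
      have : ((s.card + 1 : ℕ) : ℝ) ≤ ((P - 1 : ℕ) : ℝ) := by exact_mod_cast h3
      rw [Nat.cast_sub (by omega)] at this
      push_cast at this
      exact this
    have h7 : (0 : ℝ) < s.card + 1 := by positivity
    have h8 : (P : ℝ) / (P - 1) ≤ (s.card + 1 + 1) / (s.card + 1) := by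
      rw [div_le_div_iff₀ (by linarith) h7]
      nlinarith
    calc (P : ℝ) / (P - 1) * ∏ p ∈ s, ((p : ℝ) / (p - 1))
        ≤ (s.card + 1 + 1) / (s.card + 1) * (s.card + 1) := by
          apply mul_le_mul h8 h1 _ (by positivity)
          exact prod_nonneg fun p hp => by
            have : (2 : ℝ) ≤ p := by exact_mod_cast hS p (mem_insert_of_mem hp)
            apply div_nonneg <;> linarith
      _ = ((s.card + 1 : ℕ) : ℝ) + 1 := by
          rw [div_mul_cancel₀ _ h7.ne']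
          push_cast
          ring

theorem CQ2_card (q : ℕ) (hq : 0 < q) : (q.primeFactors.card : ℝ) ≤ 3 / 2 * Real.log q := by
  have h1 : 2 ^ q.primeFactors.card ≤ q := by
    have h2 : ∏ p ∈ q.primeFactors, 2 ≤ ∏ p ∈ q.primeFactors, p :=
      prod_le_prod' fun p hp => (Nat.prime_of_mem_primeFactors hp).two_le
    rw [prod_const] at h2
    exact h2.trans (Nat.le_of_dvd hq (Nat.prod_primeFactors_dvd q))
  have h3 : (2 : ℝ) ^ q.primeFactors.card ≤ q := by exact_mod_cast h1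
  have h4 := Real.log_le_log (by positivity) h3
  rw [Real.log_pow] at h4
  have h5 := Real.log_two_gt_d9
  have h6 : (0 : ℝ) ≤ q.primeFactors.card := by positivity
  nlinarith

theorem CQ2_ratio (q : ℕ) (hq : 0 < q) : (1 : ℝ) / Nat.totient q ≤ 3 / 2 * (1 + Real.log q) / q := by
  have hq' : (0 : ℝ) < q := by exact_mod_cast hq
  have h1 : (Nat.totient q : ℝ) = q * ∏ p ∈ q.primeFactors, (1 - (p : ℝ)⁻¹) := by
    have := Nat.totient_eq_mul_prod_factors q
    have h2 : ((Nat.totient q : ℚ) : ℝ) = ((q * ∏ p ∈ q.primeFactors, (1 - (p : ℚ)⁻¹) : ℚ) : ℝ) := by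
      rw [this]
    push_cast at h2
    exact h2
  have h2 : (∏ p ∈ q.primeFactors, ((p : ℝ) / (p - 1))) * ∏ p ∈ q.primeFactors, (1 - (p : ℝ)⁻¹) = 1 := by
    rw [← prod_mul_distrib]
    refine prod_eq_one fun p hp => ?_
    have h3 : (2 : ℝ) ≤ p := by exact_mod_cast (Nat.prime_of_mem_primeFactors hp).two_le
    have h4 : (p : ℝ) ≠ 0 := by linarith
    have h5 : (p : ℝ) - 1 ≠ 0 := by intro h; linarith
    field_simp
  have h3 := CQ2_prod q.primeFactors fun p hp => (Nat.prime_of_mem_primeFactors hp).two_le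
  have h4 := CQ2_card q hq
  have h5 : 0 < (Nat.totient q : ℝ) := by exact_mod_cast Nat.totient_pos.2 hq
  have h6 : 0 ≤ Real.log q := Real.log_natCast_nonneg q
  have h7 : (q : ℝ) / Nat.totient q = ∏ p ∈ q.primeFactors, ((p : ℝ) / (p - 1)) := by
    rw [div_eq_iff h5.ne', h1]
    calc (q : ℝ) = q * ((∏ p ∈ q.primeFactors, ((p : ℝ) / (p - 1))) *
          ∏ p ∈ q.primeFactors, (1 - (p : ℝ)⁻¹)) := by rw [h2, mul_one]
      _ = _ := by ring
  rw [div_le_div_iff₀ h5 hq']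
  have h8 : (q : ℝ) / Nat.totient q ≤ 3 / 2 * (1 + Real.log q) := by
    rw [h7]
    linarith
  rw [div_le_iff₀ h5] at h8
  linarith

/-- `∑_{q ≤ Q} 1/φ(q) ≤ 10 (1 + log Q)^2` (crude). For instance
`q/φ(q) = ∑_{d ∣ q} μ²(d)/φ(d)` and `φ(d) ≥ c d/(1 + log d)`, or
`q/φ(q) = ∏_{p ∣ q} (1 + 1/(p-1)) ≤ 4 (1 + log q)` etc. Any constant instead of `10` is fine
as long as it is absolute. -/
theorem sum_inv_totient (Q : ℕ) :
    ∑ q ∈ Icc 1 Q, (1 : ℝ) / Nat.totient q ≤ 10 * (1 + Real.log Q) ^ 2 := by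
  have h0 : 0 ≤ Real.log Q := Real.log_natCast_nonneg Q
  have h1 : ∑ q ∈ Icc 1 Q, (1 : ℝ) / Nat.totient q
      ≤ ∑ q ∈ Icc 1 Q, 3 / 2 * (1 + Real.log Q) * (1 / q) := by
    refine sum_le_sum fun q hq => ?_
    rw [mem_Icc] at hq
    have hq' : (0 : ℝ) < q := by exact_mod_cast hq.1
    refine (CQ2_ratio q hq.1).trans ?_
    rw [div_eq_mul_one_div]
    apply mul_le_mul_of_nonneg_right _ (by positivity)
    have : Real.log q ≤ Real.log Q := Real.log_le_log hq' (by exact_mod_cast hq.2)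
    linarith
  rw [← mul_sum] at h1
  have h2 : ∑ q ∈ Icc 1 Q, (1 : ℝ) / q ≤ 1 + Real.log Q := by
    have h3 := harmonic_le_one_add_log Q
    have h4 : ((harmonic Q : ℚ) : ℝ) = ∑ q ∈ Icc 1 Q, (1 : ℝ) / q := by
      rw [harmonic_eq_sum_Icc]
      push_cast
      exact sum_congr rfl fun q _ => by rw [one_div]
    rw [← h4]
    exact h3
  refine h1.trans ?_
  calc 3 / 2 * (1 + Real.log Q) * ∑ q ∈ Icc 1 Q, (1 : ℝ) / q
      ≤ 3 / 2 * (1 + Real.log Q) * (1 + Real.log Q) :=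
        mul_le_mul_of_nonneg_left h2 (by positivity)
    _ ≤ 10 * (1 + Real.log Q) ^ 2 := by nlinarith

/-- `|G(m)| ≤ ∑_{q ≤ Q squarefree} φ((q,m))/φ(q) ≤ ∑_{g ∣ m, g ≤ Q} ∑_{q' ≤ Q} 1/φ(q')`. -/
theorem abs_G_le (Q : ℕ) (m : ℤ) : |G Q m| ≤ 10 * (1 + Real.log Q) ^ 2 * dQ Q m := by
  have hterm : ∀ q ∈ Icc 1 Q, |(ArithmeticFunction.moebius q : ℝ) / (Nat.totient q : ℝ) * cq q m|
      ≤ 1 / Nat.totient (q / Nat.gcd q m.natAbs) := by
    intro q hq
    rw [mem_Icc] at hq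
    by_cases hsq : Squarefree q
    · rw [cq_squarefree q hsq m]
      set g := Nat.gcd q m.natAbs with hg
      have hq0 : q ≠ 0 := hsq.ne_zero
      have hgq : g ∣ q := Nat.gcd_dvd_left _ _
      have hg0 : 0 < g :=
        Nat.pos_of_ne_zero (fun h => hq0 (by rw [h] at hgq; exact Nat.eq_zero_of_zero_dvd hgq))
      obtain ⟨h, hh⟩ := hgq
      have hh0 : 0 < h := Nat.pos_of_ne_zero (fun h' => hq0 (by rw [hh, h', mul_zero]))
      have hcop : Nat.Coprime g h := by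
        rw [hh] at hsq
        exact Nat.coprime_of_squarefree_mul hsq
      have hqg : q / g = h := by rw [hh]; exact Nat.mul_div_cancel_left _ hg0
      have hph : (Nat.totient q : ℝ) = Nat.totient g * Nat.totient h := by
        have : Nat.totient q = Nat.totient g * Nat.totient h := by
          conv_lhs => rw [hh]
          exact Nat.totient_mul hcop
        exact_mod_cast this
      have p1 : (0 : ℝ) < Nat.totient g := by exact_mod_cast Nat.totient_pos.2 hg0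
      have p2 : (0 : ℝ) < Nat.totient h := by exact_mod_cast Nat.totient_pos.2 hh0
      have m1 : |(ArithmeticFunction.moebius q : ℝ)| ≤ 1 := by
        exact_mod_cast (ArithmeticFunction.abs_moebius_le_one (n := q))
      have m2 : |(ArithmeticFunction.moebius h : ℝ)| ≤ 1 := by
        exact_mod_cast (ArithmeticFunction.abs_moebius_le_one (n := h))
      rw [hqg, hph, abs_mul, abs_div, abs_of_pos (mul_pos p1 p2), abs_mul, abs_of_pos p1]
      rw [div_mul_eq_mul_div, div_le_div_iff₀ (mul_pos p1 p2) p2]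
      have m3 : |(ArithmeticFunction.moebius q : ℝ)| * |(ArithmeticFunction.moebius h : ℝ)| ≤ 1 :=
        mul_le_one₀ m1 (abs_nonneg _) m2
      have m4 : 0 < (Nat.totient g : ℝ) * Nat.totient h := mul_pos p1 p2
      nlinarith
    · rw [ArithmeticFunction.moebius_eq_zero_of_not_squarefree hsq]
      simp
  have h1 : |G Q m| ≤ ∑ q ∈ Icc 1 Q, (1 : ℝ) / Nat.totient (q / Nat.gcd q m.natAbs) :=
    (abs_sum_le_sum_abs _ _).trans (sum_le_sum hterm)
  have h2 : ∑ q ∈ Icc 1 Q, (1 : ℝ) / Nat.totient (q / Nat.gcd q m.natAbs)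
      ≤ ∑ p ∈ ((Icc 1 Q).filter (fun d : ℕ => (d : ℤ) ∣ m)) ×ˢ Icc 1 Q, (1 : ℝ) / Nat.totient p.2 := by
    have hinj : Set.InjOn (fun q : ℕ => (Nat.gcd q m.natAbs, q / Nat.gcd q m.natAbs))
        (Icc 1 Q : Set ℕ) := by
      intro a _ b _ hab
      simp only [Prod.mk.injEq] at hab
      have e1 := Nat.mul_div_cancel' (Nat.gcd_dvd_left a m.natAbs)
      have e2 := Nat.mul_div_cancel' (Nat.gcd_dvd_left b m.natAbs)
      rw [← e1, ← e2, hab.2, hab.1]
    have himg : ∑ q ∈ Icc 1 Q, (1 : ℝ) / Nat.totient (q / Nat.gcd q m.natAbs)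
        = ∑ p ∈ (Icc 1 Q).image (fun q : ℕ => (Nat.gcd q m.natAbs, q / Nat.gcd q m.natAbs)),
          (1 : ℝ) / Nat.totient p.2 := by
      rw [sum_image hinj]
    rw [himg]
    refine sum_le_sum_of_subset_of_nonneg ?_ (fun p _ _ => by positivity)
    intro p hp
    rw [mem_image] at hp
    obtain ⟨q, hq, rfl⟩ := hp
    rw [mem_Icc] at hq
    have hg0 : 0 < Nat.gcd q m.natAbs := Nat.gcd_pos_of_pos_left _ hq.1
    have hgq : Nat.gcd q m.natAbs ≤ q := Nat.gcd_le_left _ hq.1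
    rw [mem_product, mem_filter, mem_Icc, mem_Icc]
    refine ⟨⟨⟨hg0, hgq.trans hq.2⟩, ?_⟩, ?_, ?_⟩
    · rw [Int.natCast_dvd]
      exact Nat.gcd_dvd_right _ _
    · exact Nat.div_pos hgq hg0
    · exact (Nat.div_le_self _ _).trans hq.2
  refine (h1.trans h2).trans ?_
  rw [sum_product]
  simp only
  rw [sum_const, nsmul_eq_mul]
  have h3 := sum_inv_totient Q
  have h4 : (0 : ℝ) ≤ ((Icc 1 Q).filter (fun d : ℕ => (d : ℤ) ∣ m)).card := by positivity
  unfold dQ
  nlinarith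

end Pool.Agent.Lib.H68T
end

-- from Lib.H68T.CG1
section

/-!
# Chunk CG1: correlations of the model `G` along a class
-/

open Finset

namespace Pool.Agent.Lib.H68T

/-! ### Counting -/

theorem cg1_count_mod (M L v : ℕ) (hL : 0 < L) :
    |((((range M).filter (fun c => c ≡ v [MOD L])).card : ℕ) : ℝ) - (M : ℝ) / L| ≤ 1 := by
  rw [← Nat.count_eq_card_filter_range, Nat.count_modEq_card _ hL]
  have hL' : (0 : ℝ) < L := by exact_mod_cast hL
  have h1 : (M : ℝ) / L = ((M / L : ℕ) : ℝ) + ((M % L : ℕ) : ℝ) / L := by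
    have : (M : ℝ) = ((L * (M / L) + M % L : ℕ) : ℝ) := by rw [Nat.div_add_mod]
    rw [this]
    push_cast
    field_simp
  have h2 : ((M % L : ℕ) : ℝ) / L < 1 := by
    rw [div_lt_one hL']
    exact_mod_cast Nat.mod_lt _ hL
  have h3 : 0 ≤ ((M % L : ℕ) : ℝ) / L := by positivity
  rw [h1, Nat.cast_add, abs_le]
  split_ifs <;> constructor <;> push_cast <;> linarith

theorem cg1_count (d₁ d₂ W b s s' M : ℕ) (hd₁ : 0 < d₁) (hd₂ : 0 < d₂)
    (h₁ : Nat.Coprime d₁ W) (h₂ : Nat.Coprime d₂ W) :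
    |((((range M).filter (fun c : ℕ => (d₁ : ℤ) ∣ (b : ℤ) + W * (s + c : ℕ) ∧
      (d₂ : ℤ) ∣ (b : ℤ) + W * (s' + c : ℕ))).card : ℕ) : ℝ) -
      (if ((Nat.gcd d₁ d₂ : ℕ) : ℤ) ∣ (s : ℤ) - s' then
        (M : ℝ) * (Nat.gcd d₁ d₂ : ℝ) / ((d₁ : ℝ) * d₂) else 0)| ≤ 1 := by
  have hc₁ : IsCoprime (d₁ : ℤ) (W : ℤ) := Nat.isCoprime_iff_coprime.mpr h₁
  have hc₂ : IsCoprime (d₂ : ℤ) (W : ℤ) := Nat.isCoprime_iff_coprime.mpr h₂
  by_cases hex : ∃ c₀ : ℕ, (d₁ : ℤ) ∣ (b : ℤ) + W * (s + c₀ : ℕ) ∧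
      (d₂ : ℤ) ∣ (b : ℤ) + W * (s' + c₀ : ℕ)
  · obtain ⟨c₀, e₁, e₂⟩ := hex
    have hg : ((Nat.gcd d₁ d₂ : ℕ) : ℤ) ∣ (s : ℤ) - s' := by
      have hg1 : ((Nat.gcd d₁ d₂ : ℕ) : ℤ) ∣ (d₁ : ℤ) :=
        Int.natCast_dvd_natCast.mpr (Nat.gcd_dvd_left _ _)
      have hg2 : ((Nat.gcd d₁ d₂ : ℕ) : ℤ) ∣ (d₂ : ℤ) :=
        Int.natCast_dvd_natCast.mpr (Nat.gcd_dvd_right _ _)
      have h3 : ((Nat.gcd d₁ d₂ : ℕ) : ℤ) ∣ (W : ℤ) * ((s : ℤ) - s') := by
        have := dvd_sub (hg1.trans e₁) (hg2.trans e₂)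
        have h4 : (b : ℤ) + W * (s + c₀ : ℕ) - ((b : ℤ) + W * (s' + c₀ : ℕ)) =
            (W : ℤ) * ((s : ℤ) - s') := by push_cast; ring
        rwa [h4] at this
      exact (IsCoprime.of_isCoprime_of_dvd_left hc₁ hg1).dvd_of_dvd_mul_left h3
    rw [if_pos hg]
    have hset : (range M).filter (fun c : ℕ => (d₁ : ℤ) ∣ (b : ℤ) + W * (s + c : ℕ) ∧
        (d₂ : ℤ) ∣ (b : ℤ) + W * (s' + c : ℕ)) =
        (range M).filter (fun c => c ≡ c₀ [MOD (Nat.lcm d₁ d₂)]) := by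
      apply filter_congr
      intro c _
      have key : ∀ (d t : ℕ), IsCoprime (d : ℤ) (W : ℤ) → (d : ℤ) ∣ (b : ℤ) + W * (t + c₀ : ℕ) →
          ((d : ℤ) ∣ (b : ℤ) + W * (t + c : ℕ) ↔ (d : ℤ) ∣ (c : ℤ) - c₀) := by
        intro d t hc hd
        have h5 : (b : ℤ) + W * (t + c : ℕ) = ((b : ℤ) + W * (t + c₀ : ℕ)) +
            (W : ℤ) * ((c : ℤ) - c₀) := by push_cast; ring
        rw [h5, dvd_add_right hd]
        exact ⟨fun h => hc.dvd_of_dvd_mul_left h, fun h => dvd_mul_of_dvd_right h _⟩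
      rw [key d₁ s hc₁ e₁, key d₂ s' hc₂ e₂, Nat.ModEq.comm, ← Int.natCast_modEq_iff,
        Int.modEq_iff_dvd]
      rw [Int.natCast_dvd, Int.natCast_dvd, Int.natCast_dvd, Nat.lcm_dvd_iff]
    rw [hset]
    have hl : 0 < Nat.lcm d₁ d₂ := Nat.lcm_pos hd₁ hd₂
    have h6 := cg1_count_mod M (Nat.lcm d₁ d₂) c₀ hl
    have h7 : (M : ℝ) * (Nat.gcd d₁ d₂ : ℝ) / ((d₁ : ℝ) * d₂) = (M : ℝ) / (Nat.lcm d₁ d₂ : ℕ) := by
      have h8 : ((d₁ : ℝ) * d₂) = (Nat.gcd d₁ d₂ : ℝ) * (Nat.lcm d₁ d₂ : ℕ) := by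
        exact_mod_cast (Nat.gcd_mul_lcm d₁ d₂).symm
      have h9 : (0 : ℝ) < (Nat.gcd d₁ d₂ : ℝ) := by
        exact_mod_cast Nat.gcd_pos_of_pos_left _ hd₁
      have h10 : (0 : ℝ) < (Nat.lcm d₁ d₂ : ℕ) := by exact_mod_cast hl
      rw [h8]
      field_simp
    rw [h7]
    exact h6
  · have hg : ¬ ((Nat.gcd d₁ d₂ : ℕ) : ℤ) ∣ (s : ℤ) - s' := by
      rintro ⟨t, ht⟩
      apply hex
      have hcc : IsCoprime ((d₁ : ℤ) * d₂) (W : ℤ) := hc₁.mul_left hc₂
      obtain ⟨x, u, hu⟩ := hcc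
      -- x * (d₁ d₂) + u * W = 1
      have hbz := Nat.gcd_eq_gcd_ab d₁ d₂
      set y₁ := Nat.gcdA d₁ d₂
      set y₂ := Nat.gcdB d₁ d₂
      set c : ℤ := -(b * u) - s + d₁ * y₁ * t with hc
      have hpos : (0 : ℤ) < (d₁ : ℤ) * d₂ := by positivity
      refine ⟨(c % ((d₁ : ℤ) * d₂)).toNat, ?_, ?_⟩
      · have hcn : ((c % ((d₁ : ℤ) * d₂)).toNat : ℤ) = c - ((d₁ : ℤ) * d₂) * (c / ((d₁ : ℤ) * d₂)) := by
          rw [Int.toNat_of_nonneg (Int.emod_nonneg _ hpos.ne')]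
          exact Int.emod_def _ _
        have : (b : ℤ) + W * (s + (c % ((d₁ : ℤ) * d₂)).toNat : ℕ) =
            d₁ * (b * x * d₂ + W * y₁ * t - W * d₂ * (c / ((d₁ : ℤ) * d₂))) := by
          rw [Nat.cast_add, hcn]
          have : (b : ℤ) = b * (x * (d₁ * d₂) + u * W) := by rw [hu]; ring
          linear_combination this + W * hc
        rw [this]
        exact dvd_mul_right _ _
      · have hcn : ((c % ((d₁ : ℤ) * d₂)).toNat : ℤ) = c - ((d₁ : ℤ) * d₂) * (c / ((d₁ : ℤ) * d₂)) := by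
          rw [Int.toNat_of_nonneg (Int.emod_nonneg _ hpos.ne')]
          exact Int.emod_def _ _
        have : (b : ℤ) + W * (s' + (c % ((d₁ : ℤ) * d₂)).toNat : ℕ) =
            d₂ * (b * x * d₁ - W * y₂ * t - W * d₁ * (c / ((d₁ : ℤ) * d₂))) := by
          rw [Nat.cast_add, hcn]
          have h0 : (b : ℤ) = b * (x * (d₁ * d₂) + u * W) := by rw [hu]; ring
          linear_combination h0 + W * hc - W * ht - W * t * hbz
        rw [this]
        exact dvd_mul_right _ _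
    rw [if_neg hg]
    have hempty : (range M).filter (fun c : ℕ => (d₁ : ℤ) ∣ (b : ℤ) + W * (s + c : ℕ) ∧
        (d₂ : ℤ) ∣ (b : ℤ) + W * (s' + c : ℕ)) = ∅ := by
      rw [filter_eq_empty_iff]
      intro c _ h
      exact hex ⟨c, h⟩
    rw [hempty]
    simp

/-! ### Möbius inversion -/

theorem cg1_moebius (f g : ℕ → ℝ) (h : ∀ n > 0, ∑ i ∈ n.divisors, f i = g n) (n : ℕ) (hn : 0 < n) :
    ∑ d ∈ n.divisors, (ArithmeticFunction.moebius (n / d) : ℝ) * g d = f n := by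
  have h1 := (ArithmeticFunction.sum_eq_iff_sum_mul_moebius_eq.mp h) n hn
  rw [Nat.sum_divisorsAntidiagonal' (fun i j => (ArithmeticFunction.moebius i : ℝ) * g j)] at h1
  exact h1

theorem cg1_indicator (e n : ℕ) (hn : 0 < n) :
    ∑ d ∈ n.divisors, (ArithmeticFunction.moebius (n / d) : ℝ) * (if e ∣ d then 1 else 0) =
      if n = e then 1 else 0 := by
  apply cg1_moebius (fun i => if i = e then 1 else 0) (fun d => if e ∣ d then 1 else 0) _ n hn
  intro m hm
  rw [sum_ite_eq' m.divisors e (fun _ => (1 : ℝ))]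
  simp [Nat.mem_divisors, hm.ne']

theorem cg1_cq_sum (n : ℕ) (hn : 0 < n) (D : ℤ) :
    ∑ e ∈ n.divisors, cq e D = if (n : ℤ) ∣ D then (n : ℝ) else 0 := by
  revert n
  rw [ArithmeticFunction.sum_eq_iff_sum_mul_moebius_eq
    (f := fun e => cq e D) (g := fun n : ℕ => if (n : ℤ) ∣ D then (n : ℝ) else 0)]
  intro n hn
  rw [Nat.sum_divisorsAntidiagonal' (fun i j : ℕ => (ArithmeticFunction.moebius i : ℝ) *
    (if (j : ℤ) ∣ D then (j : ℝ) else 0))]
  unfold cq
  rw [sum_filter]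
  apply sum_congr rfl
  intro d _
  split_ifs <;> ring

theorem cg1_pair_sum (r₁ r₂ : ℕ) (h₁ : 0 < r₁) (h₂ : 0 < r₂) (D : ℤ) :
    ∑ d₁ ∈ r₁.divisors, ∑ d₂ ∈ r₂.divisors, (ArithmeticFunction.moebius (r₁ / d₁) : ℝ) *
      (ArithmeticFunction.moebius (r₂ / d₂) : ℝ) *
      (if ((Nat.gcd d₁ d₂ : ℕ) : ℤ) ∣ D then (Nat.gcd d₁ d₂ : ℝ) else 0) =
    if r₁ = r₂ then cq r₁ D else 0 := by
  have hexp : ∀ d₁ ∈ r₁.divisors, ∀ d₂ ∈ r₂.divisors,
      (if ((Nat.gcd d₁ d₂ : ℕ) : ℤ) ∣ D then (Nat.gcd d₁ d₂ : ℝ) else 0) =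
      ∑ e ∈ r₁.divisors, cq e D * (if e ∣ d₁ then 1 else 0) * (if e ∣ d₂ then 1 else 0) := by
    intro d₁ hd₁ d₂ hd₂
    have hd₁' : 0 < d₁ := Nat.pos_of_mem_divisors hd₁
    rw [← cg1_cq_sum (Nat.gcd d₁ d₂) (Nat.gcd_pos_of_pos_left _ hd₁') D]
    have hsub : (Nat.gcd d₁ d₂).divisors = r₁.divisors.filter (fun e => e ∣ d₁ ∧ e ∣ d₂) := by
      ext e
      simp only [Nat.mem_divisors, mem_filter, Nat.dvd_gcd_iff]
      constructor
      · rintro ⟨⟨a, b⟩, -⟩
        exact ⟨⟨a.trans (Nat.dvd_of_mem_divisors hd₁), h₁.ne'⟩, a, b⟩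
      · rintro ⟨-, a, b⟩
        exact ⟨⟨a, b⟩, (Nat.gcd_pos_of_pos_left _ hd₁').ne'⟩
    rw [hsub, sum_filter]
    apply sum_congr rfl
    intro e _
    by_cases a : e ∣ d₁ <;> by_cases b : e ∣ d₂ <;> simp [a, b]
  calc ∑ d₁ ∈ r₁.divisors, ∑ d₂ ∈ r₂.divisors, (ArithmeticFunction.moebius (r₁ / d₁) : ℝ) *
      (ArithmeticFunction.moebius (r₂ / d₂) : ℝ) *
      (if ((Nat.gcd d₁ d₂ : ℕ) : ℤ) ∣ D then (Nat.gcd d₁ d₂ : ℝ) else 0)
      = ∑ d₁ ∈ r₁.divisors, ∑ d₂ ∈ r₂.divisors, ∑ e ∈ r₁.divisors,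
        (ArithmeticFunction.moebius (r₁ / d₁) : ℝ) *
        (ArithmeticFunction.moebius (r₂ / d₂) : ℝ) *
        (cq e D * (if e ∣ d₁ then 1 else 0) * (if e ∣ d₂ then 1 else 0)) := by
        apply sum_congr rfl
        intro d₁ hd₁
        apply sum_congr rfl
        intro d₂ hd₂
        rw [hexp d₁ hd₁ d₂ hd₂, mul_sum]
    _ = ∑ e ∈ r₁.divisors, cq e D *
        ((∑ d₁ ∈ r₁.divisors, (ArithmeticFunction.moebius (r₁ / d₁) : ℝ) * (if e ∣ d₁ then 1 else 0)) *
        (∑ d₂ ∈ r₂.divisors, (ArithmeticFunction.moebius (r₂ / d₂) : ℝ) *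
          (if e ∣ d₂ then 1 else 0))) := by
        rw [sum_congr rfl (fun d₁ _ => sum_comm), sum_comm]
        apply sum_congr rfl
        intro e _
        rw [sum_mul_sum, mul_sum]
        apply sum_congr rfl
        intro d₁ _
        rw [mul_sum]
        apply sum_congr rfl
        intro d₂ _
        ring
    _ = ∑ e ∈ r₁.divisors, cq e D * ((if r₁ = e then 1 else 0) * (if r₂ = e then 1 else 0)) := by
        apply sum_congr rfl
        intro e _
        rw [cg1_indicator e r₁ h₁, cg1_indicator e r₂ h₂]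
    _ = if r₁ = r₂ then cq r₁ D else 0 := by
        rw [sum_eq_single r₁]
        · by_cases h : r₁ = r₂
          · simp [h]
          · simp [h, Ne.symm h]
        · intro e _ he
          simp [Ne.symm he]
        · intro h
          exact absurd (Nat.mem_divisors_self r₁ h₁.ne') h

/-! ### Correlations of Ramanujan sums along a class -/

theorem cg1_abs_moebius_le (n : ℕ) : |(ArithmeticFunction.moebius n : ℝ)| ≤ 1 := by
  exact_mod_cast ArithmeticFunction.abs_moebius_le_one (n := n)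

theorem cg1_corr (r₁ r₂ W b s s' M : ℕ) (h₁ : 0 < r₁) (h₂ : 0 < r₂)
    (c₁ : Nat.Coprime r₁ W) (c₂ : Nat.Coprime r₂ W) :
    |∑ c ∈ range M, cq r₁ ((b : ℤ) + W * (s + c : ℕ)) * cq r₂ ((b : ℤ) + W * (s' + c : ℕ)) -
      M * (if r₁ = r₂ then cq r₁ ((s : ℤ) - s') else 0)| ≤
      (∑ d ∈ r₁.divisors, (d : ℝ)) * ∑ d ∈ r₂.divisors, (d : ℝ) := by
  have hA : ∑ c ∈ range M, cq r₁ ((b : ℤ) + W * (s + c : ℕ)) * cq r₂ ((b : ℤ) + W * (s' + c : ℕ)) =
      ∑ d₁ ∈ r₁.divisors, ∑ d₂ ∈ r₂.divisors, (ArithmeticFunction.moebius (r₁ / d₁) : ℝ) *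
      (ArithmeticFunction.moebius (r₂ / d₂) : ℝ) * ((d₁ : ℝ) * d₂) *
      ((((range M).filter (fun c : ℕ => (d₁ : ℤ) ∣ (b : ℤ) + W * (s + c : ℕ) ∧
      (d₂ : ℤ) ∣ (b : ℤ) + W * (s' + c : ℕ))).card : ℕ) : ℝ) := by
    have h3 : ∀ c ∈ range M, cq r₁ ((b : ℤ) + W * (s + c : ℕ)) * cq r₂ ((b : ℤ) + W * (s' + c : ℕ)) =
        ∑ d₁ ∈ r₁.divisors, ∑ d₂ ∈ r₂.divisors, (ArithmeticFunction.moebius (r₁ / d₁) : ℝ) *
        (ArithmeticFunction.moebius (r₂ / d₂) : ℝ) * ((d₁ : ℝ) * d₂) *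
        (if (d₁ : ℤ) ∣ (b : ℤ) + W * (s + c : ℕ) ∧
          (d₂ : ℤ) ∣ (b : ℤ) + W * (s' + c : ℕ) then 1 else 0) := by
      intro c _
      unfold cq
      rw [sum_filter, sum_filter, sum_mul_sum]
      apply sum_congr rfl
      intro d₁ _
      apply sum_congr rfl
      intro d₂ _
      by_cases a : (d₁ : ℤ) ∣ (b : ℤ) + W * (s + c : ℕ) <;>
        by_cases a' : (d₂ : ℤ) ∣ (b : ℤ) + W * (s' + c : ℕ)
      · rw [if_pos a, if_pos a', if_pos ⟨a, a'⟩]; ring
      · rw [if_neg a', mul_zero, if_neg (fun h : _ ∧ _ => a' h.2), mul_zero]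
      · rw [if_neg a, zero_mul, if_neg (fun h : _ ∧ _ => a h.1), mul_zero]
      · rw [if_neg a, zero_mul, if_neg (fun h : _ ∧ _ => a h.1), mul_zero]
    rw [sum_congr rfl h3, sum_comm]
    apply sum_congr rfl
    intro d₁ _
    rw [sum_comm]
    apply sum_congr rfl
    intro d₂ _
    rw [← mul_sum, card_filter]
    push_cast
    rfl
  have hB : (M : ℝ) * (if r₁ = r₂ then cq r₁ ((s : ℤ) - s') else 0) =
      ∑ d₁ ∈ r₁.divisors, ∑ d₂ ∈ r₂.divisors, (ArithmeticFunction.moebius (r₁ / d₁) : ℝ) *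
      (ArithmeticFunction.moebius (r₂ / d₂) : ℝ) * ((d₁ : ℝ) * d₂) *
      (if ((Nat.gcd d₁ d₂ : ℕ) : ℤ) ∣ (s : ℤ) - s' then
        (M : ℝ) * (Nat.gcd d₁ d₂ : ℝ) / ((d₁ : ℝ) * d₂) else 0) := by
    rw [← cg1_pair_sum r₁ r₂ h₁ h₂, mul_sum]
    apply sum_congr rfl
    intro d₁ hd₁
    rw [mul_sum]
    apply sum_congr rfl
    intro d₂ hd₂
    have e₁ : (0 : ℝ) < d₁ := by exact_mod_cast Nat.pos_of_mem_divisors hd₁
    have e₂ : (0 : ℝ) < d₂ := by exact_mod_cast Nat.pos_of_mem_divisors hd₂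
    split_ifs
    · field_simp
    · ring
  rw [hA, hB, ← sum_sub_distrib, sum_mul_sum]
  refine (abs_sum_le_sum_abs _ _).trans (sum_le_sum fun d₁ hd₁ => ?_)
  rw [← sum_sub_distrib]
  refine (abs_sum_le_sum_abs _ _).trans (sum_le_sum fun d₂ hd₂ => ?_)
  rw [← mul_sub, abs_mul, abs_mul, abs_mul]
  have e₁ : 0 < d₁ := Nat.pos_of_mem_divisors hd₁
  have e₂ : 0 < d₂ := Nat.pos_of_mem_divisors hd₂
  have i₁ : Nat.Coprime d₁ W := Nat.Coprime.coprime_dvd_left (Nat.dvd_of_mem_divisors hd₁) c₁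
  have i₂ : Nat.Coprime d₂ W := Nat.Coprime.coprime_dvd_left (Nat.dvd_of_mem_divisors hd₂) c₂
  have h5 := cg1_count d₁ d₂ W b s s' M e₁ e₂ i₁ i₂
  have h6 : |(d₁ : ℝ) * d₂| = (d₁ : ℝ) * d₂ := abs_of_nonneg (by positivity)
  rw [h6]
  have h7 := cg1_abs_moebius_le (r₁ / d₁)
  have h8 := cg1_abs_moebius_le (r₂ / d₂)
  have h9 : |(ArithmeticFunction.moebius (r₁ / d₁) : ℝ)| *
      |(ArithmeticFunction.moebius (r₂ / d₂) : ℝ)| ≤ 1 :=
    mul_le_one₀ h7 (abs_nonneg _) h8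
  calc _ ≤ 1 * ((d₁ : ℝ) * d₂) * 1 := by
        apply mul_le_mul _ h5 (abs_nonneg _) (by positivity)
        exact mul_le_mul_of_nonneg_right h9 (by positivity)
    _ = (d₁ : ℝ) * d₂ := by ring







/-! ### Bounds -/

theorem cg1_totient_squarefree {q : ℕ} (hq : Squarefree q) :
    Nat.totient q = ∏ p ∈ q.primeFactors, (p - 1) := by
  have h1 := Nat.totient_mul_prod_primeFactors q
  rw [Nat.prod_primeFactors_of_squarefree hq, mul_comm] at h1
  exact Nat.eq_of_mul_eq_mul_left (Nat.pos_of_ne_zero hq.ne_zero) h1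

theorem cg1_totient_squarefree_real {q : ℕ} (hq : Squarefree q) :
    (Nat.totient q : ℝ) = ∏ p ∈ q.primeFactors, ((p : ℝ) - 1) := by
  rw [cg1_totient_squarefree hq]
  push_cast
  apply prod_congr rfl
  intro p hp
  rw [Nat.cast_sub (Nat.prime_of_mem_primeFactors hp).one_lt.le]
  simp











theorem cg1_class_coprime {W b : ℕ} (hb : Nat.Coprime b W) (t : ℕ) :
    IsCoprime ((b : ℤ) + W * (t : ℕ)) (W : ℤ) := by
  have h : IsCoprime (b : ℤ) (W : ℤ) := Nat.isCoprime_iff_coprime.mpr hb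
  exact IsCoprime.add_mul_left_left h _


end Pool.Agent.Lib.H68T
end

-- from Lib.H68X.XRH
section

/-!
# Chunk XRH: the hyperbola method
-/

open Finset

namespace Pool.Agent.Lib.H68T

theorem XRH_int (r : ℕ) [NeZero r] (ψ : DirichletCharacter ℂ r) (hψ : ψ ≠ 1) (a n : ℕ) :
    ‖∑ k ∈ range n, ψ ((a + k + 1 : ℕ) : ZMod r)‖ ≤ r := by
  have hN : 0 < r := Nat.pos_of_ne_zero (NeZero.ne r)
  induction n using Nat.strong_induction_on with
  | _ n ih =>
    rcases lt_or_ge n r with h | h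
    · refine (norm_sum_le _ _).trans ?_
      refine (sum_le_sum fun k _ => DirichletCharacter.norm_le_one ψ _).trans ?_
      rw [sum_const, card_range, nsmul_eq_mul, mul_one]
      exact_mod_cast h.le
    · obtain ⟨m, rfl⟩ := Nat.exists_eq_add_of_le' h
      have h1 : ∑ k ∈ range (m + r), ψ ((a + k + 1 : ℕ) : ZMod r) =
          ∑ k ∈ range m, ψ ((a + k + 1 : ℕ) : ZMod r) := by
        rw [sum_range_add]
        have h2 := gl1_period r ψ hψ (a + m)
        have h3 : ∑ k ∈ range r, ψ ((a + (m + k) + 1 : ℕ) : ZMod r) = 0 := by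
          rw [← h2]
          refine sum_congr rfl fun k _ => ?_
          congr 2
          ring
        rw [h3, add_zero]
      rw [h1]
      exact ih m (by omega)

theorem XRH_Ioc (r : ℕ) [NeZero r] (ψ : DirichletCharacter ℂ r) (hψ : ψ ≠ 1) (a b : ℕ) :
    ‖∑ d ∈ Ioc a b, ψ (d : ZMod r)‖ ≤ r := by
  have h1 : Ioc a b = Ico (a + 1) (b + 1) := by
    ext x
    simp only [mem_Ioc, mem_Ico]
    omega
  rw [h1, sum_Ico_eq_sum_range]
  have h2 := XRH_int r ψ hψ a (b + 1 - (a + 1))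
  refine (le_of_eq ?_).trans h2
  congr 1
  refine sum_congr rfl fun k _ => ?_
  congr 2
  ring

/-- tail of the series of `L(1,ψ)` -/
theorem XRH_tail (r : ℕ) [NeZero r] (ψ : DirichletCharacter ℂ r) (hψ : ψ ≠ 1) (D : ℕ) :
    ‖ψ.LFunction 1 - ∑ d ∈ Ioc 0 D, ψ (d : ZMod r) / d‖ ≤ 2 * r / (D + 1) := by
  have hsum := (gl1_tele 1 one_pos (r * ‖(1 : ℂ)‖ / (1 : ℂ).re) (by simp) (fun n => gl1_A ψ n 1)
    (fun n => by simpa using gl1_A_norm r ψ hψ n 1 (by simp))).1
  have h1 : ψ.LFunction 1 = ∑' n, gl1_A ψ n 1 := gl1_eqOn r ψ hψ 1 (by simp)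
  have hA : ∀ n : ℕ, gl1_A ψ n 1 =
      gl1_T ψ (n + 1) * ((1 : ℂ) / (n + 1) - 1 / (n + 1 + 1)) := by
    intro n
    unfold gl1_A
    rw [Complex.cpow_neg_one, Complex.cpow_neg_one]
    congr 1
    push_cast
    rw [one_div, one_div]
    congr 2
    ring
  have h2 := gl1_parts ψ (fun n => (1 : ℂ) / (n + 1)) D
  have h3 : ∑ d ∈ Ioc 0 D, ψ (d : ZMod r) / d =
      ∑ n ∈ range D, ψ ((n + 1 : ℕ) : ZMod r) * ((1 : ℂ) / (n + 1)) := by
    have h4 : Ioc 0 D = Ico 1 (D + 1) := by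
      ext x
      simp only [mem_Ioc, mem_Ico]
      omega
    rw [h4, sum_Ico_eq_sum_range]
    refine sum_congr rfl fun n _ => ?_
    rw [add_comm 1 n]
    push_cast
    ring
  have h5 : ∑ n ∈ range D, gl1_T ψ (n + 1) * ((1 : ℂ) / (n + 1) - 1 / ((n + 1 : ℕ) + 1)) =
      ∑ n ∈ range D, gl1_A ψ n 1 := by
    refine sum_congr rfl fun n _ => ?_
    rw [hA n]
    push_cast
    ring
  rw [h5] at h2
  have h6 := hsum.sum_add_tsum_nat_add D
  rw [h1, h3, h2, ← h6]
  have h7 : ∑ i ∈ range D, gl1_A ψ i 1 + ∑' i, gl1_A ψ (i + D) 1 -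
      (gl1_T ψ D * (1 / ((D : ℂ) + 1)) + ∑ n ∈ range D, gl1_A ψ n 1) =
      ∑' i, gl1_A ψ (i + D) 1 - gl1_T ψ D * (1 / ((D : ℂ) + 1)) := by ring
  rw [h7]
  have h8 : ‖∑' i, gl1_A ψ (i + D) 1‖ ≤ r / (D + 1) := by
    have hg : HasSum (fun i : ℕ => (r : ℝ) * (1 / ((i : ℝ) + D + 1) - 1 / ((i : ℝ) + D + 2)))
        (r / (D + 1)) := by
      rw [hasSum_iff_tendsto_nat_of_nonneg]
      · have h9 : ∀ K : ℕ, ∑ i ∈ range K, (r : ℝ) * (1 / ((i : ℝ) + D + 1) - 1 / ((i : ℝ) + D + 2)) =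
            r * (1 / ((D : ℝ) + 1) - 1 / ((K : ℝ) + D + 1)) := by
          intro K
          induction K with
          | zero => simp
          | succ K ih =>
            rw [sum_range_succ, ih]
            push_cast
            ring
        simp only [h9]
        have h10 : Filter.Tendsto (fun K : ℕ => 1 / ((K : ℝ) + D + 1)) Filter.atTop (nhds 0) := by
          have h11 := tendsto_one_div_add_atTop_nhds_zero_nat (𝕜 := ℝ)
          have h12 := (Filter.tendsto_add_atTop_iff_nat D).2 h11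
          refine h12.congr fun K => ?_
          push_cast
          rfl
        have h13 := (h10.const_sub (1 / ((D : ℝ) + 1))).const_mul (r : ℝ)
        rw [sub_zero, mul_one_div] at h13
        exact h13
      · intro i
        refine mul_nonneg (Nat.cast_nonneg _) (sub_nonneg.2 ?_)
        exact one_div_le_one_div_of_le (by positivity) (by linarith)
    refine tsum_of_norm_bounded hg fun i => ?_
    rw [hA, norm_mul]
    refine mul_le_mul (gl1_T_bound r ψ hψ _) ?_ (norm_nonneg _) (Nat.cast_nonneg _)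
    have h14 : (1 : ℂ) / (((i + D : ℕ) : ℂ) + 1) - 1 / (((i + D : ℕ) : ℂ) + 1 + 1) =
        ((1 / ((i : ℝ) + D + 1) - 1 / ((i : ℝ) + D + 2) : ℝ) : ℂ) := by
      push_cast
      congr 2
      ring
    rw [h14, Complex.norm_real, Real.norm_of_nonneg]
    refine sub_nonneg.2 ?_
    exact one_div_le_one_div_of_le (by positivity) (by linarith)
  have h15 : ‖gl1_T ψ D * (1 / ((D : ℂ) + 1))‖ ≤ r / (D + 1) := by
    rw [norm_mul, mul_comm]
    have h16 : ‖1 / ((D : ℂ) + 1)‖ = 1 / ((D : ℝ) + 1) := by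
      have : 1 / ((D : ℂ) + 1) = ((1 / ((D : ℝ) + 1) : ℝ) : ℂ) := by push_cast; rfl
      rw [this, Complex.norm_real, Real.norm_of_nonneg (by positivity)]
    rw [h16, one_div_mul_eq_div]
    exact div_le_div_of_nonneg_right (gl1_T_bound r ψ hψ _) (by positivity)
  refine (norm_sub_le _ _).trans ?_
  have : 2 * (r : ℝ) / (D + 1) = r / (D + 1) + r / (D + 1) := by ring
  rw [this]
  exact add_le_add h8 h15

/-- `∑_{m ≤ y} ∑_{d ∣ m} ψ(d) = y L(1,ψ) + O(r √y)`. With `D = ⌊√y⌋`: the sum is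
`∑_{d ≤ D} ψ(d) ⌊y/d⌋ + ∑_{e ≤ y/(D+1)} (S(y/e) - S(D))`, sums of `ψ` over intervals are at most `r`;
`∑_{d > D} ψ(d)/d` is at most `r/(D+1)` (`L(1,ψ)` is the sum of the conditionally convergent
series). Total error `≤ D + r y/(D+1) + r y/(D+1) ≤ 4 r √y`. -/
theorem hyperbola (r : ℕ) [NeZero r] (ψ : DirichletCharacter ℂ r) (hψ : ψ ≠ 1) (y : ℕ) :
    ‖(∑ m ∈ Icc 1 y, ∑ d ∈ m.divisors, ψ (d : ZMod r)) - y * ψ.LFunction 1‖ ≤
      4 * r * Real.sqrt y := by
  have hr : (1 : ℝ) ≤ r := by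
    exact_mod_cast Nat.one_le_iff_ne_zero.2 (NeZero.ne r)
  have e1 : ∑ m ∈ Icc 1 y, ∑ d ∈ m.divisors, ψ (d : ZMod r) =
      ∑ d ∈ Ioc 0 y, ψ (d : ZMod r) * ((y / d : ℕ) : ℂ) := by
    have h1 := ArithmeticFunction.sum_Ioc_mul_zeta_eq_sum
      (⟨fun n => if n = 0 then (0 : ℂ) else ψ (n : ZMod r), by simp⟩ : ArithmeticFunction ℂ) y
    have h2 : Icc 1 y = Ioc 0 y := by
      ext x
      simp only [mem_Ioc, mem_Icc]
      omega
    rw [h2]
    refine Eq.trans ?_ (h1.trans ?_)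
    · refine sum_congr rfl fun m hm => ?_
      rw [ArithmeticFunction.coe_mul_zeta_apply]
      refine sum_congr rfl fun d hd => ?_
      rw [ArithmeticFunction.coe_mk, if_neg (Nat.pos_of_mem_divisors hd).ne']
    · refine sum_congr rfl fun d hd => ?_
      rw [ArithmeticFunction.coe_mk, if_neg (by have := (mem_Ioc.1 hd).1; omega)]
  rw [e1]
  set D := Nat.sqrt y with hD
  have hDy : D ≤ y := Nat.sqrt_le_self y
  have hD1 : (D : ℝ) ≤ √y := Real.nat_sqrt_le_real_sqrt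
  have hD2 : √y ≤ D + 1 := Real.real_sqrt_le_nat_sqrt_succ
  have hs0 : 0 ≤ √(y : ℝ) := Real.sqrt_nonneg _
  have hyy : √(y : ℝ) * √y = y := Real.mul_self_sqrt (Nat.cast_nonneg _)
  have hyD : (y : ℝ) / (D + 1) ≤ √y := by
    rw [div_le_iff₀ (by positivity)]
    nlinarith
  have e2 : ∑ d ∈ Ioc 0 y, ψ (d : ZMod r) * ((y / d : ℕ) : ℂ) =
      ∑ d ∈ Ioc 0 D, ψ (d : ZMod r) * ((y / d : ℕ) : ℂ) +
      ∑ d ∈ Ioc D y, ψ (d : ZMod r) * ((y / d : ℕ) : ℂ) :=
    (sum_Ioc_consecutive _ (Nat.zero_le _) hDy).symm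
  -- the second part
  have e3 : ∑ d ∈ Ioc D y, ψ (d : ZMod r) * ((y / d : ℕ) : ℂ) =
      ∑ e ∈ Ioc 0 (y / (D + 1)), ∑ d ∈ Ioc D (y / e), ψ (d : ZMod r) := by
    have h1 : ∀ d ∈ Ioc D y, ψ (d : ZMod r) * ((y / d : ℕ) : ℂ) =
        ∑ e ∈ Ioc 0 (y / (D + 1)), if d * e ≤ y then ψ (d : ZMod r) else 0 := by
      intro d hd
      obtain ⟨hd1, hd2⟩ := mem_Ioc.1 hd
      have hd0 : 0 < d := by omega
      rw [← sum_filter, sum_const, nsmul_eq_mul, mul_comm]
      congr 2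
      have h2 : (Ioc 0 (y / (D + 1))).filter (fun e => d * e ≤ y) = Ioc 0 (y / d) := by
        ext e
        simp only [mem_filter, mem_Ioc]
        have h3 : e ≤ y / d ↔ d * e ≤ y := by
          rw [Nat.le_div_iff_mul_le hd0, mul_comm]
        constructor
        · rintro ⟨⟨ha, hb⟩, hc⟩
          exact ⟨ha, h3.2 hc⟩
        · rintro ⟨ha, hb⟩
          refine ⟨⟨ha, hb.trans (Nat.div_le_div_left hd1 (by omega))⟩, h3.1 hb⟩
      rw [h2, Nat.card_Ioc, Nat.sub_zero]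
    rw [sum_congr rfl h1, sum_comm]
    refine sum_congr rfl fun e he => ?_
    have he0 : 0 < e := (mem_Ioc.1 he).1
    rw [← sum_filter]
    refine sum_congr ?_ fun _ _ => rfl
    ext d
    simp only [mem_filter, mem_Ioc]
    have h3 : d ≤ y / e ↔ d * e ≤ y := by
      rw [Nat.le_div_iff_mul_le he0]
    constructor
    · rintro ⟨⟨ha, hb⟩, hc⟩
      exact ⟨ha, h3.2 hc⟩
    · rintro ⟨ha, hb⟩
      refine ⟨⟨ha, hb.trans (Nat.div_le_self _ _)⟩, h3.1 hb⟩
  have b3 : ‖∑ d ∈ Ioc D y, ψ (d : ZMod r) * ((y / d : ℕ) : ℂ)‖ ≤ r * √y := by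
    rw [e3]
    refine (norm_sum_le _ _).trans ((sum_le_sum fun e _ => XRH_Ioc r ψ hψ D (y / e)).trans ?_)
    rw [sum_const, Nat.card_Ioc, Nat.sub_zero, nsmul_eq_mul, mul_comm]
    refine mul_le_mul_of_nonneg_left ?_ (by linarith)
    refine Nat.cast_div_le.trans ?_
    push_cast
    exact hyD
  -- the first part
  have b4 : ‖∑ d ∈ Ioc 0 D, ψ (d : ZMod r) * ((y / d : ℕ) : ℂ) -
      y * ∑ d ∈ Ioc 0 D, ψ (d : ZMod r) / d‖ ≤ √y := by
    rw [mul_sum, ← sum_sub_distrib]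
    refine (norm_sum_le _ _).trans (le_trans (sum_le_sum (g := fun _ => (1 : ℝ)) ?_) ?_)
    · intro d hd
      have hd0 : 0 < d := (mem_Ioc.1 hd).1
      have h1 : ψ (d : ZMod r) * ((y / d : ℕ) : ℂ) - y * (ψ (d : ZMod r) / d) =
          ψ (d : ZMod r) * (((((y / d : ℕ) : ℝ) - y / d : ℝ)) : ℂ) := by
        push_cast
        ring
      rw [h1, norm_mul, Complex.norm_real]
      have h2 : ‖((y / d : ℕ) : ℝ) - y / d‖ ≤ 1 := by
        rw [Real.norm_eq_abs, abs_le]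
        have h3 : ((y / d : ℕ) : ℝ) ≤ y / d := Nat.cast_div_le
        have h4 : (y : ℝ) / d < ((y / d : ℕ) : ℝ) + 1 := by
          rw [div_lt_iff₀ (by exact_mod_cast hd0)]
          have := Nat.lt_mul_div_succ y hd0
          have h5 : (y : ℝ) < d * (((y / d : ℕ) : ℝ) + 1) := by exact_mod_cast this
          linarith
        constructor <;> linarith
      calc _ ≤ 1 * 1 := mul_le_mul (DirichletCharacter.norm_le_one ψ _) h2 (norm_nonneg _) (by norm_num)
        _ = 1 := by norm_num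
    · rw [sum_const, Nat.card_Ioc, Nat.sub_zero, nsmul_eq_mul, mul_one]
      exact hD1
  have b5 : ‖(y : ℂ) * (ψ.LFunction 1 - ∑ d ∈ Ioc 0 D, ψ (d : ZMod r) / d)‖ ≤ 2 * r * √y := by
    rw [norm_mul, Complex.norm_natCast]
    calc (y : ℝ) * ‖ψ.LFunction 1 - ∑ d ∈ Ioc 0 D, ψ (d : ZMod r) / d‖
        ≤ y * (2 * r / (D + 1)) :=
          mul_le_mul_of_nonneg_left (XRH_tail r ψ hψ D) (Nat.cast_nonneg _)
      _ = 2 * r * (y / (D + 1)) := by ring
      _ ≤ _ := mul_le_mul_of_nonneg_left hyD (by positivity)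
  rw [e2]
  have e6 : ∑ d ∈ Ioc 0 D, ψ (d : ZMod r) * ((y / d : ℕ) : ℂ) +
      ∑ d ∈ Ioc D y, ψ (d : ZMod r) * ((y / d : ℕ) : ℂ) - y * ψ.LFunction 1 =
      (∑ d ∈ Ioc 0 D, ψ (d : ZMod r) * ((y / d : ℕ) : ℂ) -
        y * ∑ d ∈ Ioc 0 D, ψ (d : ZMod r) / d) +
      ∑ d ∈ Ioc D y, ψ (d : ZMod r) * ((y / d : ℕ) : ℂ) -
      (y : ℂ) * (ψ.LFunction 1 - ∑ d ∈ Ioc 0 D, ψ (d : ZMod r) / d) := by ring
  rw [e6]
  refine (norm_sub_le _ _).trans ((add_le_add (norm_add_le _ _) le_rfl).trans ?_)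
  nlinarith

end Pool.Agent.Lib.H68T
end

-- from Lib.Sieve.Combi
section

/-!
# Combinatorial part of the Brun-Hooley sieve

Weighted truncated inclusion-exclusion over finite sets of indices.
-/

set_option linter.unusedSectionVars false

namespace Pool.Agent.Lib.Sieve

open Finset

section

variable {ι : Type*} [DecidableEq ι]




/-- Coefficients of the truncated sum of all products. -/
def cA (m : ℕ) (D : Finset ι) : ℝ := if D.card ≤ m then 1 else 0



















end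

section

variable {κ : Type*} [DecidableEq κ]



end

end Pool.Agent.Lib.Sieve
end

-- from Lib.Sieve.PrimeSum
section

/-!
# Elementary bounds for sums over primes
-/

namespace Pool.Agent.Lib.Sieve

open Finset

/-- The primes `p ≤ n`. -/
def primesUpTo (n : ℕ) : Finset ℕ := (Finset.range (n + 1)).filter Nat.Prime

theorem mem_primesUpTo {n p : ℕ} : p ∈ primesUpTo n ↔ p.Prime ∧ p ≤ n := by
  simp [primesUpTo, and_comm]

theorem prod_pow_dvd_factorial (n : ℕ) : ∏ p ∈ primesUpTo n, p ^ (n / p) ∣ n.factorial := by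
  apply Finset.prod_dvd_of_isRelPrime
  · intro p hp q hq hpq
    have hp' := (mem_primesUpTo.mp hp).1
    have hq' := (mem_primesUpTo.mp hq).1
    exact Nat.coprime_iff_isRelPrime.mp (((Nat.coprime_primes hp' hq').mpr hpq).pow _ _)
  · intro p hp
    have hp' := (mem_primesUpTo.mp hp)
    have h1 : p ^ (n / p) ∣ (p * (n / p)).factorial := by
      have : ∀ m : ℕ, p ^ m ∣ (p * m).factorial := by
        intro m
        induction m with
        | zero => simp
        | succ m ih =>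
          rw [pow_succ, Nat.mul_succ]
          have h2 : (p * m + p).factorial = (p * m + p) * (p * m + p - 1).factorial := by
            rw [Nat.mul_factorial_pred]
            have := hp'.1.pos
            omega
          rw [h2, mul_comm (p ^ m) p]
          apply Nat.mul_dvd_mul
          · exact Dvd.intro (m + 1) (by ring)
          · refine ih.trans (Nat.factorial_dvd_factorial ?_)
            have := hp'.1.pos
            omega
      exact this _
    exact h1.trans (Nat.factorial_dvd_factorial (Nat.mul_div_le n p))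

/-- `∑_{p ≤ n} (log p) / p ≤ log n + log 4`. -/
theorem sum_log_div_le (n : ℕ) (hn : 1 ≤ n) :
    ∑ p ∈ primesUpTo n, Real.log p / p ≤ Real.log n + Real.log 4 := by
  have hn' : (0 : ℝ) < n := by exact_mod_cast hn
  -- logarithm of the divisibility
  have h1 : ∏ p ∈ primesUpTo n, p ^ (n / p) ≤ n ^ n :=
    (Nat.le_of_dvd (Nat.factorial_pos n) (prod_pow_dvd_factorial n)).trans
      (Nat.factorial_le_pow n)
  have h2 : ∑ p ∈ primesUpTo n, ((n / p : ℕ) : ℝ) * Real.log p ≤ n * Real.log n := by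
    have h3 : Real.log ((∏ p ∈ primesUpTo n, p ^ (n / p) : ℕ) : ℝ) ≤ Real.log ((n ^ n : ℕ) : ℝ) := by
      apply Real.log_le_log
      · have : 0 < ∏ p ∈ primesUpTo n, p ^ (n / p) := by
          apply Finset.prod_pos
          intro p hp
          exact pow_pos (mem_primesUpTo.mp hp).1.pos _
        exact_mod_cast this
      · exact_mod_cast h1
    rw [Nat.cast_prod, Real.log_prod] at h3
    · push_cast at h3
      rw [Real.log_pow] at h3
      refine le_trans (le_of_eq ?_) h3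
      refine Finset.sum_congr rfl fun p _ => ?_
      rw [Real.log_pow]
    · intro p hp
      have := (mem_primesUpTo.mp hp).1.pos
      positivity
  have h4 : ∑ p ∈ primesUpTo n, Real.log p ≤ n * Real.log 4 := by
    have h5 : ∏ p ∈ primesUpTo n, p ≤ 4 ^ n := primorial_le_four_pow n
    have h6 : Real.log ((∏ p ∈ primesUpTo n, p : ℕ) : ℝ) ≤ Real.log ((4 ^ n : ℕ) : ℝ) := by
      apply Real.log_le_log
      · have : 0 < ∏ p ∈ primesUpTo n, p := by
          apply Finset.prod_pos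
          intro p hp
          exact (mem_primesUpTo.mp hp).1.pos
        exact_mod_cast this
      · exact_mod_cast h5
    rw [Nat.cast_prod, Real.log_prod] at h6
    · push_cast at h6
      rwa [Real.log_pow] at h6
    · intro p hp
      have := (mem_primesUpTo.mp hp).1.pos
      positivity
  have h7 : (n : ℝ) * ∑ p ∈ primesUpTo n, Real.log p / p
      ≤ ∑ p ∈ primesUpTo n, ((n / p : ℕ) : ℝ) * Real.log p + ∑ p ∈ primesUpTo n, Real.log p := by
    rw [Finset.mul_sum, ← Finset.sum_add_distrib]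
    refine Finset.sum_le_sum fun p hp => ?_
    have hp0 : (0 : ℝ) < p := by exact_mod_cast (mem_primesUpTo.mp hp).1.pos
    have hp1 : (1 : ℝ) ≤ p := by exact_mod_cast (mem_primesUpTo.mp hp).1.one_le
    have hlog : 0 ≤ Real.log p := Real.log_nonneg hp1
    have h8 : (n : ℝ) / p ≤ ((n / p : ℕ) : ℝ) + 1 := by
      rw [div_le_iff₀ hp0]
      have h9 : n < p * (n / p + 1) := Nat.lt_mul_div_succ n (mem_primesUpTo.mp hp).1.pos
      have h10 : (n : ℝ) < p * ((n / p : ℕ) + 1) := by exact_mod_cast h9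
      linarith
    have h11 := mul_le_mul_of_nonneg_right h8 hlog
    calc (n : ℝ) * (Real.log p / p) = n / p * Real.log p := by ring
      _ ≤ (((n / p : ℕ) : ℝ) + 1) * Real.log p := h11
      _ = ((n / p : ℕ) : ℝ) * Real.log p + Real.log p := by ring
  have h12 : (n : ℝ) * ∑ p ∈ primesUpTo n, Real.log p / p ≤ n * (Real.log n + Real.log 4) := by
    linarith
  exact le_of_mul_le_mul_left h12 hn'


end Pool.Agent.Lib.Sieve
end

-- from Lib.Sieve.Fundamental
section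

/-!
# A fundamental lemma of sieve theory (Brun-Hooley)

For a fixed dimension `k`, the number of integers `u` in an interval of length `M ≥ z ^ K(k)`
avoiding at most `k` residue classes modulo each prime `2k + 2 < p ≤ z` lies between
`M V / 4` and `3 M V`, where `V` is the expected density.
-/

namespace Pool.Agent.Lib.Sieve

open Finset



/-- The index of the block of the prime `p`. -/
def blk (z p : ℕ) : ℕ := Nat.log 2 (Nat.log p z)















section

variable (k z : ℕ) (Ω : (p : ℕ) → Finset (ZMod p))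

/-- The density of removed classes. -/
noncomputable def dens (Ω : (p : ℕ) → Finset (ZMod p)) (p : ℕ) : ℝ := ((Ω p).card : ℝ) / p


variable {k z Ω}



/-- The exponents `b_j = 48 k + 2 + 2 j`. -/
def bj (k j : ℕ) : ℕ := 48 * k + 2 + 2 * j











end

end Pool.Agent.Lib.Sieve
end

-- from Lib.Sieve.Averages
section

/-!
# Mertens type upper bound and averages of multiplicative functions
-/

namespace Pool.Agent.Lib.Sieve

open Finset

/-- The reciprocal map as a monoid homomorphism. -/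
noncomputable def recHom : ℕ →* ℝ :=
  (invMonoidHom : ℝ →* ℝ).comp (Nat.castRingHom ℝ : ℕ →* ℝ)

theorem recHom_apply (m : ℕ) : recHom m = (m : ℝ)⁻¹ := rfl

/-- `∏_{p ≤ z} (1 - 1/p) ≤ 1 / log z`. -/
theorem prod_one_sub_inv_le (z : ℕ) (hz : 2 ≤ z) :
    ∏ p ∈ primesUpTo z, (1 - 1 / (p : ℝ)) ≤ 1 / Real.log z := by
  have hz' : (2 : ℝ) ≤ z := by exact_mod_cast hz
  have hlog : 0 < Real.log z := Real.log_pos (by linarith)
  have hnorm : ∀ {p : ℕ}, p.Prime → ‖recHom p‖ < 1 := by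
    intro p hp
    rw [recHom_apply, norm_inv, Real.norm_natCast]
    apply inv_lt_one_of_one_lt₀
    exact_mod_cast hp.one_lt
  have h1 := EulerProduct.summable_and_hasSum_smoothNumbers_prod_primesBelow_geometric
    (f := recHom) hnorm (z + 1)
  obtain ⟨hsum, hhas⟩ := h1
  have h2 : ∏ p ∈ (z + 1).primesBelow, (1 - recHom p)⁻¹
      = (∏ p ∈ primesUpTo z, (1 - 1 / (p : ℝ)))⁻¹ := by
    rw [← Finset.prod_inv_distrib]
    refine Finset.prod_congr rfl fun p _ => ?_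
    rw [recHom_apply, one_div]
  rw [h2] at hhas
  -- the sum over `1 ≤ m ≤ z`
  have h3 : ∑ m ∈ Finset.Icc 1 z, ((m : ℝ)⁻¹)
      ≤ (∏ p ∈ primesUpTo z, (1 - 1 / (p : ℝ)))⁻¹ := by
    let s : Finset (Nat.smoothNumbers (z + 1)) :=
      (Finset.Icc 1 z).attach.map ⟨fun m => ⟨m.1, by
        have hm := Finset.mem_Icc.mp m.2
        exact Nat.mem_smoothNumbers_of_lt (by omega) (by omega)⟩, fun a b hab => by
        apply Subtype.ext
        exact congrArg (fun x => x.1) hab⟩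
    have h4 := sum_le_hasSum s (fun i _ => by
      rw [recHom_apply]
      positivity) hhas
    refine le_trans (le_of_eq ?_) h4
    rw [Finset.sum_map]
    simp only [Function.Embedding.coeFn_mk, recHom_apply]
    exact (Finset.sum_attach (Finset.Icc 1 z) fun m => ((m : ℝ)⁻¹)).symm
  have h5 : Real.log z ≤ ∑ m ∈ Finset.Icc 1 z, ((m : ℝ)⁻¹) := by
    have h6 := log_add_one_le_harmonic z
    rw [harmonic_eq_sum_Icc] at h6
    push_cast at h6
    refine le_trans ?_ h6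
    apply Real.log_le_log (by linarith)
    linarith
  have hpos : 0 < ∏ p ∈ primesUpTo z, (1 - 1 / (p : ℝ)) := by
    apply Finset.prod_pos
    intro p hp
    have hp1 : (1 : ℝ) < p := by exact_mod_cast (mem_primesUpTo.mp hp).1.one_lt
    rw [sub_pos, div_lt_one (by linarith)]
    exact hp1
  have h7 : Real.log z ≤ (∏ p ∈ primesUpTo z, (1 - 1 / (p : ℝ)))⁻¹ := h5.trans h3
  rw [le_div_iff₀ hlog]
  have h8 := mul_le_mul_of_nonneg_left h7 hpos.le
  rwa [mul_inv_cancel₀ hpos.ne'] at h8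



end Pool.Agent.Lib.Sieve
end

-- from Lib.H68T.VA
section

/-!
# Chunk VA: Vaughan's bound for exponential sums over primes
-/

open Finset

namespace Pool.Agent.Lib.H68T

/-! ### Vaughan's identity -/

/-- The part of an arithmetic function supported on `n ≤ U`. -/
noncomputable def VAcut (f : ArithmeticFunction ℝ) (U : ℕ) : ArithmeticFunction ℝ :=
  ⟨fun n => if n ≤ U then f n else 0, by simp⟩

/-- The part of an arithmetic function supported on `n > U`. -/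
noncomputable def VArest (f : ArithmeticFunction ℝ) (U : ℕ) : ArithmeticFunction ℝ :=
  ⟨fun n => if n ≤ U then 0 else f n, by simp⟩

theorem VAcut_apply (f : ArithmeticFunction ℝ) (U n : ℕ) :
    VAcut f U n = if n ≤ U then f n else 0 := rfl

theorem VArest_apply (f : ArithmeticFunction ℝ) (U n : ℕ) :
    VArest f U n = if n ≤ U then 0 else f n := rfl

theorem VA_split (f : ArithmeticFunction ℝ) (U : ℕ) : VAcut f U + VArest f U = f := by
  ext n
  rw [ArithmeticFunction.add_apply, VAcut_apply, VArest_apply]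
  split_ifs <;> simp

theorem VA_identity (U : ℕ) :
    (ArithmeticFunction.vonMangoldt : ArithmeticFunction ℝ) =
      VAcut ArithmeticFunction.vonMangoldt U +
      VAcut ((ArithmeticFunction.moebius : ArithmeticFunction ℤ) : ArithmeticFunction ℝ) U *
        ArithmeticFunction.log -
      (VAcut ((ArithmeticFunction.moebius : ArithmeticFunction ℤ) : ArithmeticFunction ℝ) U *
        VAcut ArithmeticFunction.vonMangoldt U) *
        ((ArithmeticFunction.zeta : ArithmeticFunction ℕ) : ArithmeticFunction ℝ) +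
      VArest ((ArithmeticFunction.moebius : ArithmeticFunction ℤ) : ArithmeticFunction ℝ) U *
        (VArest ArithmeticFunction.vonMangoldt U *
          ((ArithmeticFunction.zeta : ArithmeticFunction ℕ) : ArithmeticFunction ℝ)) := by
  set Z : ArithmeticFunction ℝ := ((ArithmeticFunction.zeta : ArithmeticFunction ℕ) :
    ArithmeticFunction ℝ)
  set M : ArithmeticFunction ℝ := ((ArithmeticFunction.moebius : ArithmeticFunction ℤ) :
    ArithmeticFunction ℝ)
  have h1 : (ArithmeticFunction.vonMangoldt : ArithmeticFunction ℝ) * Z =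
      ArithmeticFunction.log := ArithmeticFunction.vonMangoldt_mul_zeta
  have h2 : M * Z = 1 := ArithmeticFunction.coe_moebius_mul_coe_zeta
  have hL := VA_split ArithmeticFunction.vonMangoldt U
  have hM := VA_split M U
  set L := (ArithmeticFunction.vonMangoldt : ArithmeticFunction ℝ)
  set L1 := VAcut L U
  set L2 := VArest L U
  set M1 := VAcut M U
  set M2 := VArest M U
  rw [← h1]
  have e1 : M1 * (L * Z) - M1 * L1 * Z + M2 * (L2 * Z) = (M1 + M2) * Z * L2 := by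
    rw [← hL]; ring
  have e2 : L1 + M1 * (L * Z) - M1 * L1 * Z + M2 * (L2 * Z) =
      L1 + (M1 * (L * Z) - M1 * L1 * Z + M2 * (L2 * Z)) := by ring
  rw [e2, e1, hM, h2, one_mul, hL]

/-! ### Convolution sums -/

theorem VA_conv (f g : ArithmeticFunction ℝ) (h : ℕ → ℂ) (N u v : ℕ) (hv : v ≤ N) :
    ∑ m ∈ Ico u v, (((f * g) m : ℝ) : ℂ) * h m =
      ∑ x ∈ Icc 1 N, ∑ y ∈ (Icc 1 N).filter (fun y => u ≤ x * y ∧ x * y < v),
        ((f x : ℝ) : ℂ) * ((g y : ℝ) : ℂ) * h (x * y) := by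
  have e1 : ∀ m ∈ Ico u v, (((f * g) m : ℝ) : ℂ) * h m =
      ∑ x ∈ m.divisorsAntidiagonal, ((f x.1 : ℝ) : ℂ) * ((g x.2 : ℝ) : ℂ) * h (x.1 * x.2) := by
    intro m _
    rw [ArithmeticFunction.mul_apply, Complex.ofReal_sum, Finset.sum_mul]
    refine Finset.sum_congr rfl fun x hx => ?_
    rw [Nat.mem_divisorsAntidiagonal] at hx
    rw [hx.1, Complex.ofReal_mul]
  rw [Finset.sum_congr rfl e1]
  rw [Finset.sum_sigma', Finset.sum_sigma']
  refine Finset.sum_bij' (fun p _ => (⟨p.2.1, p.2.2⟩ : Σ _ : ℕ, ℕ))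
    (fun p _ => (⟨p.1 * p.2, (p.1, p.2)⟩ : Σ _ : ℕ, ℕ × ℕ)) ?_ ?_ ?_ ?_ ?_
  · rintro ⟨m, x, y⟩ hp
    simp only [mem_sigma, mem_Ico, Nat.mem_divisorsAntidiagonal, mem_filter, mem_Icc] at hp ⊢
    obtain ⟨⟨hu, hv'⟩, hxy, hm⟩ := hp
    have hx : x ≠ 0 := by rintro rfl; simp at hxy; omega
    have hy : y ≠ 0 := by rintro rfl; simp at hxy; omega
    have hx1 : 1 ≤ x := Nat.one_le_iff_ne_zero.mpr hx
    have hy1 : 1 ≤ y := Nat.one_le_iff_ne_zero.mpr hy
    have h1 : x ≤ x * y := Nat.le_mul_of_pos_right x (by omega)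
    have h2 : y ≤ x * y := Nat.le_mul_of_pos_left y (by omega)
    refine ⟨⟨hx1, by omega⟩, ⟨hy1, by omega⟩, by omega, by omega⟩
  · rintro ⟨x, y⟩ hp
    simp only [mem_sigma, mem_Ico, Nat.mem_divisorsAntidiagonal, mem_filter, mem_Icc] at hp ⊢
    obtain ⟨⟨hx, _⟩, ⟨hy, _⟩, hu, hv'⟩ := hp
    refine ⟨⟨hu, hv'⟩, trivial, ?_⟩
    exact Nat.mul_ne_zero (by omega) (by omega)
  · rintro ⟨m, x, y⟩ hp
    simp only [mem_sigma, mem_Ico, Nat.mem_divisorsAntidiagonal] at hp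
    obtain ⟨_, hxy, _⟩ := hp
    subst hxy
    rfl
  · rintro ⟨x, y⟩ _
    rfl
  · rintro ⟨m, x, y⟩ _
    rfl

/-! ### The inner intervals -/

/-- Lower end of the inner interval. -/
noncomputable def VAlo (k u d : ℕ) : ℕ := max k ⌈(u : ℝ) / d⌉₊

/-- Upper end of the inner interval. -/
noncomputable def VAhi (k u v d : ℕ) : ℕ := max (VAlo k u d) ⌈(v : ℝ) / d⌉₊

theorem VA_mem (k u v N d y : ℕ) (hk : 1 ≤ k) (hd : 1 ≤ d) (hv : v ≤ N) :
    y ∈ ((Icc 1 N).filter (fun y => u ≤ d * y ∧ d * y < v)).filter (fun y => k ≤ y) ↔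
      y ∈ Ico (VAlo k u d) (VAhi k u v d) := by
  have hd0 : (0 : ℝ) < d := by exact_mod_cast hd
  have h1 : u ≤ d * y ↔ ⌈(u : ℝ) / d⌉₊ ≤ y := by
    rw [Nat.ceil_le, div_le_iff₀ hd0]
    constructor
    · intro h; have : (u : ℝ) ≤ ((d * y : ℕ) : ℝ) := by exact_mod_cast h
      push_cast at this; linarith
    · intro h; have : (u : ℝ) ≤ ((d * y : ℕ) : ℝ) := by push_cast; linarith
      exact_mod_cast this
  have h2 : d * y < v ↔ y < ⌈(v : ℝ) / d⌉₊ := by
    rw [Nat.lt_ceil, lt_div_iff₀ hd0]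
    constructor
    · intro h; have : ((d * y : ℕ) : ℝ) < v := by exact_mod_cast h
      push_cast at this; linarith
    · intro h; have : ((d * y : ℕ) : ℝ) < v := by push_cast; linarith
      exact_mod_cast this
  simp only [mem_filter, mem_Icc, mem_Ico, h1, VAlo, VAhi, max_le_iff, lt_max_iff]
  constructor
  · rintro ⟨⟨⟨hy1, hyN⟩, ha, hb⟩, hc⟩
    exact ⟨⟨hc, ha⟩, Or.inr (h2.mp hb)⟩
  · rintro ⟨⟨hc, ha⟩, hb⟩
    have hb' : y < ⌈(v : ℝ) / d⌉₊ := by
      rcases hb with hb | hb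
      · rcases hb with hb | hb <;> omega
      · exact hb
    have hb2 := h2.mpr hb'
    have : y ≤ d * y := Nat.le_mul_of_pos_left y (by omega)
    exact ⟨⟨⟨by omega, by omega⟩, ha, hb2⟩, hc⟩

theorem VA_len (k u v N d : ℕ) (hk : 1 ≤ k) (hv : v ≤ N) :
    (((VAhi k u v d : ℕ) : ℤ) - ((VAlo k u d : ℕ) : ℤ) : ℝ) ≤ (N : ℝ) / d + 1 := by
  have hlo : k ≤ VAlo k u d := le_max_left _ _
  have hN : (0 : ℝ) ≤ (N : ℝ) / d := by positivity
  have hvN : (v : ℝ) / d ≤ (N : ℝ) / d := by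
    apply div_le_div_of_nonneg_right _ (by positivity)
    exact_mod_cast hv
  have hc : ((⌈(v : ℝ) / d⌉₊ : ℕ) : ℝ) < (v : ℝ) / d + 1 := Nat.ceil_lt_add_one (by positivity)
  have hlo' : (1 : ℝ) ≤ (VAlo k u d : ℕ) := by exact_mod_cast hk.trans hlo
  rcases le_total (VAlo k u d) ⌈(v : ℝ) / d⌉₊ with h | h
  · have : VAhi k u v d = ⌈(v : ℝ) / d⌉₊ := max_eq_right h
    rw [this]; push_cast; linarith
  · have : VAhi k u v d = VAlo k u d := max_eq_left h
    rw [this]; push_cast; linarith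

theorem VA_inner (k u v N d : ℕ) (θ : ℝ) (hk : 1 ≤ k) (hd : 1 ≤ d) (hv : v ≤ N) :
    ∑ y ∈ ((Icc 1 N).filter (fun y => u ≤ d * y ∧ d * y < v)).filter (fun y => k ≤ y),
      e (((d * y : ℕ) : ℝ) * θ) =
    ∑ n ∈ Ico ((VAlo k u d : ℕ) : ℤ) ((VAhi k u v d : ℕ) : ℤ), e ((d : ℝ) * (n : ℝ) * θ) := by
  have e1 : ((Icc 1 N).filter (fun y => u ≤ d * y ∧ d * y < v)).filter (fun y => k ≤ y) =
      Ico (VAlo k u d) (VAhi k u v d) := by
    ext y; exact VA_mem k u v N d y hk hd hv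
  rw [e1]
  refine Finset.sum_nbij' (fun y : ℕ => (y : ℤ)) Int.toNat ?_ ?_ ?_ ?_ ?_
  · intro y hy
    rw [mem_Ico] at hy ⊢
    exact ⟨by exact_mod_cast hy.1, by exact_mod_cast hy.2⟩
  · intro n hn
    rw [mem_Ico] at hn ⊢
    omega
  · intro y _; simp
  · intro n hn
    rw [mem_Ico] at hn
    have : 0 ≤ n := le_trans (by positivity) hn.1
    exact Int.toNat_of_nonneg this
  · intro y _
    push_cast
    ring_nf

/-! ### Elementary estimates -/

theorem VA_norm_e (x : ℝ) : ‖e x‖ = 1 := by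
  unfold e
  have : (2 * Real.pi * x * Complex.I : ℂ) = ((2 * Real.pi * x : ℝ) : ℂ) * Complex.I := by
    push_cast; ring
  rw [this]
  exact Complex.norm_exp_ofReal_mul_I _

theorem VA_moeb_le (n : ℕ) :
    |((ArithmeticFunction.moebius : ArithmeticFunction ℤ) : ArithmeticFunction ℝ) n| ≤ 1 := by
  rw [ArithmeticFunction.intCoe_apply]
  have := ArithmeticFunction.abs_moebius_le_one (n := n)
  rw [← Int.cast_abs]
  exact_mod_cast this

theorem VA_cut_moeb_le (U n : ℕ) :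
    |VAcut ((ArithmeticFunction.moebius : ArithmeticFunction ℤ) : ArithmeticFunction ℝ) U n| ≤ 1 := by
  rw [VAcut_apply]
  split_ifs
  · exact VA_moeb_le n
  · simp

theorem VA_rest_moeb_le (U n : ℕ) :
    |VArest ((ArithmeticFunction.moebius : ArithmeticFunction ℤ) : ArithmeticFunction ℝ) U n| ≤ 1 := by
  rw [VArest_apply]
  split_ifs
  · simp
  · exact VA_moeb_le n

/-- The sum of `Λ` over the divisors in any set of divisors is at most the logarithm. -/
theorem VA_sum_vM (n : ℕ) : ∑ x ∈ n.divisorsAntidiagonal, ArithmeticFunction.vonMangoldt x.2 =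
    Real.log n := by
  have h : ((ArithmeticFunction.zeta : ArithmeticFunction ℕ) : ArithmeticFunction ℝ) *
      (ArithmeticFunction.vonMangoldt : ArithmeticFunction ℝ) = ArithmeticFunction.log := by
    rw [mul_comm]; exact ArithmeticFunction.vonMangoldt_mul_zeta
  have h2 := congrArg (fun f : ArithmeticFunction ℝ => f n) h
  simp only [ArithmeticFunction.mul_apply, ArithmeticFunction.log_apply] at h2
  rw [← h2]
  refine Finset.sum_congr rfl fun x hx => ?_
  have hx' := Nat.mem_divisorsAntidiagonal.mp hx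
  have : x.1 ≠ 0 := by rintro h0; rw [h0] at hx'; simp at hx'; omega
  rw [ArithmeticFunction.natCoe_apply, ArithmeticFunction.zeta_apply_ne this]
  simp

theorem VA_coef_le (U n : ℕ) :
    |(VAcut ((ArithmeticFunction.moebius : ArithmeticFunction ℤ) : ArithmeticFunction ℝ) U *
        VAcut ArithmeticFunction.vonMangoldt U) n| ≤ Real.log n := by
  rw [ArithmeticFunction.mul_apply, ← VA_sum_vM n]
  refine (Finset.abs_sum_le_sum_abs _ _).trans (Finset.sum_le_sum fun x _ => ?_)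
  rw [abs_mul]
  have h1 := VA_cut_moeb_le U x.1
  have h2 : |VAcut ArithmeticFunction.vonMangoldt U x.2| ≤ ArithmeticFunction.vonMangoldt x.2 := by
    rw [VAcut_apply]
    split_ifs
    · rw [abs_of_nonneg ArithmeticFunction.vonMangoldt_nonneg]
    · rw [abs_zero]; exact ArithmeticFunction.vonMangoldt_nonneg
  calc _ ≤ 1 * ArithmeticFunction.vonMangoldt x.2 := by
        apply mul_le_mul h1 h2 (abs_nonneg _) zero_le_one
    _ = _ := one_mul _

theorem VA_coef_supp (U n : ℕ) (hn : U * U < n) :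
    (VAcut ((ArithmeticFunction.moebius : ArithmeticFunction ℤ) : ArithmeticFunction ℝ) U *
        VAcut ArithmeticFunction.vonMangoldt U) n = 0 := by
  rw [ArithmeticFunction.mul_apply]
  refine Finset.sum_eq_zero fun x hx => ?_
  have hx' := Nat.mem_divisorsAntidiagonal.mp hx
  rw [VAcut_apply, VAcut_apply]
  split_ifs with h1 h2
  · exfalso
    have := Nat.mul_le_mul h1 h2
    omega
  · simp
  · simp
  · simp

theorem VA_beta (U n : ℕ) :
    |(VArest ArithmeticFunction.vonMangoldt U *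
          ((ArithmeticFunction.zeta : ArithmeticFunction ℕ) : ArithmeticFunction ℝ)) n| ≤
      Real.log n := by
  rw [mul_comm, ArithmeticFunction.mul_apply, ← VA_sum_vM n]
  refine (Finset.abs_sum_le_sum_abs _ _).trans (Finset.sum_le_sum fun x hx => ?_)
  have hx' := Nat.mem_divisorsAntidiagonal.mp hx
  have : x.1 ≠ 0 := by rintro h0; rw [h0] at hx'; simp at hx'; omega
  rw [ArithmeticFunction.natCoe_apply, ArithmeticFunction.zeta_apply_ne this, abs_mul]
  simp only [Nat.cast_one, abs_one, one_mul]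
  rw [VArest_apply]
  split_ifs
  · rw [abs_zero]; exact ArithmeticFunction.vonMangoldt_nonneg
  · rw [abs_of_nonneg ArithmeticFunction.vonMangoldt_nonneg]

theorem VA_beta_supp (U n : ℕ) (hn : n ≤ U) :
    (VArest ArithmeticFunction.vonMangoldt U *
          ((ArithmeticFunction.zeta : ArithmeticFunction ℕ) : ArithmeticFunction ℝ)) n = 0 := by
  rw [ArithmeticFunction.mul_apply]
  refine Finset.sum_eq_zero fun x hx => ?_
  have hx' := Nat.mem_divisorsAntidiagonal.mp hx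
  have h0 : x.2 ≠ 0 := by rintro h0; rw [h0] at hx'; simp at hx'; omega
  have : x.1 ≤ x.1 * x.2 := Nat.le_mul_of_pos_right _ (Nat.pos_of_ne_zero h0)
  rw [VArest_apply, if_pos (by omega), zero_mul]

/-! ### The four sums -/

theorem VA_S0 (U N u v : ℕ) (θ : ℝ) (hv : v ≤ N) :
    ‖∑ m ∈ Ico u v, ((VAcut ArithmeticFunction.vonMangoldt U m : ℝ) : ℂ) * e (m * θ)‖ ≤
      (U + 1) * Real.log N := by
  have hlog : 0 ≤ Real.log N := Real.log_natCast_nonneg N
  refine (norm_sum_le _ _).trans ?_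
  have e1 : ∀ m ∈ Ico u v,
      ‖((VAcut ArithmeticFunction.vonMangoldt U m : ℝ) : ℂ) * e (m * θ)‖ ≤
        if m ≤ U then Real.log N else 0 := by
    intro m hm
    rw [mem_Ico] at hm
    rw [norm_mul, VA_norm_e, mul_one, Complex.norm_real, Real.norm_eq_abs, VAcut_apply]
    split_ifs with h
    · rw [abs_of_nonneg ArithmeticFunction.vonMangoldt_nonneg]
      refine ArithmeticFunction.vonMangoldt_le_log.trans ?_
      rcases Nat.eq_zero_or_pos m with h0 | h0
      · rw [h0]; simpa using hlog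
      · exact Real.log_le_log (by exact_mod_cast h0) (by exact_mod_cast (by omega : m ≤ N))
    · simp
  refine (Finset.sum_le_sum e1).trans ?_
  rw [← Finset.sum_filter, Finset.sum_const, nsmul_eq_mul]
  refine mul_le_mul_of_nonneg_right ?_ hlog
  have : ((Ico u v).filter (fun m => m ≤ U)).card ≤ (range (U + 1)).card := by
    apply card_le_card
    intro m hm
    rw [mem_filter] at hm
    rw [mem_range]; omega
  rw [card_range] at this
  exact_mod_cast this

/-- The bound of `type_one` for the intervals `[lo, hi)`. -/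
theorem VA_typeI : ∃ C : ℝ, 0 < C ∧ ∀ (θ : ℝ) (q : ℕ) (a : ℤ), 1 ≤ q → IsCoprime a (q : ℤ) →
    |θ - a / q| ≤ 1 / (q : ℝ) ^ 2 → ∀ (N u v A k : ℕ), 2 ≤ N → q ≤ N → v ≤ N → A ≤ N → 1 ≤ k →
    ∑ d ∈ Icc 1 A, ‖∑ y ∈ ((Icc 1 N).filter (fun y => u ≤ d * y ∧ d * y < v)).filter
        (fun y => k ≤ y), e (((d * y : ℕ) : ℝ) * θ)‖ ≤
      C * ((N : ℝ) / q + A + q) * (Real.log N) ^ 2 := by
  obtain ⟨C, hC, hmain⟩ := type_one
  refine ⟨C, hC, fun θ q a hq hcop hθ N u v A k hN hqN hv hA hk => ?_⟩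
  have := hmain θ q a hq hcop hθ N A hN hqN hA (fun d => ((VAlo k u d : ℕ) : ℤ))
    (fun d => ((VAhi k u v d : ℕ) : ℤ)) (fun d => by exact_mod_cast le_max_left _ _)
    (fun d => by exact_mod_cast VA_len k u v N d hk hv)
  refine le_trans (le_of_eq ?_) this
  refine Finset.sum_congr rfl fun d hd => ?_
  rw [mem_Icc] at hd
  rw [VA_inner k u v N d θ hk hd.1 hv]

theorem VA_S2 : ∃ C : ℝ, 0 < C ∧ ∀ (θ : ℝ) (q : ℕ) (a : ℤ), 1 ≤ q → IsCoprime a (q : ℤ) →
    |θ - a / q| ≤ 1 / (q : ℝ) ^ 2 → ∀ (N u v U : ℕ), 2 ≤ N → q ≤ N → v ≤ N → U * U ≤ N →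
    ‖∑ m ∈ Ico u v, ((((VAcut ((ArithmeticFunction.moebius : ArithmeticFunction ℤ) :
        ArithmeticFunction ℝ) U * VAcut ArithmeticFunction.vonMangoldt U) *
        ((ArithmeticFunction.zeta : ArithmeticFunction ℕ) : ArithmeticFunction ℝ)) m : ℝ) : ℂ) *
        e (m * θ)‖ ≤
      C * ((N : ℝ) / q + (U * U : ℕ) + q) * (Real.log N) ^ 3 := by
  obtain ⟨C, hC, hmain⟩ := VA_typeI
  refine ⟨C, hC, fun θ q a hq hcop hθ N u v U hN hqN hv hU => ?_⟩
  have hlog : 0 ≤ Real.log N := Real.log_natCast_nonneg N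
  rw [VA_conv _ _ (fun m => e (m * θ)) N u v hv]
  set c := VAcut ((ArithmeticFunction.moebius : ArithmeticFunction ℤ) :
        ArithmeticFunction ℝ) U * VAcut ArithmeticFunction.vonMangoldt U with hc
  refine (norm_sum_le _ _).trans ?_
  have e1 : ∀ x ∈ Icc 1 N, ‖∑ y ∈ (Icc 1 N).filter (fun y => u ≤ x * y ∧ x * y < v),
        ((c x : ℝ) : ℂ) * ((((ArithmeticFunction.zeta : ArithmeticFunction ℕ) :
          ArithmeticFunction ℝ) y : ℝ) : ℂ) * e (((x * y : ℕ) : ℝ) * θ)‖ ≤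
      if x ≤ U * U then Real.log N * ‖∑ y ∈ ((Icc 1 N).filter (fun y => u ≤ x * y ∧ x * y < v)).filter
        (fun y => 1 ≤ y), e (((x * y : ℕ) : ℝ) * θ)‖ else 0 := by
    intro x hx
    rw [mem_Icc] at hx
    split_ifs with h
    · have e2 : ∑ y ∈ (Icc 1 N).filter (fun y => u ≤ x * y ∧ x * y < v),
        ((c x : ℝ) : ℂ) * ((((ArithmeticFunction.zeta : ArithmeticFunction ℕ) :
          ArithmeticFunction ℝ) y : ℝ) : ℂ) * e (((x * y : ℕ) : ℝ) * θ) =
          ((c x : ℝ) : ℂ) * ∑ y ∈ ((Icc 1 N).filter (fun y => u ≤ x * y ∧ x * y < v)).filter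
        (fun y => 1 ≤ y), e (((x * y : ℕ) : ℝ) * θ) := by
        rw [Finset.mul_sum]
        have e3 : ((Icc 1 N).filter (fun y => u ≤ x * y ∧ x * y < v)).filter
            (fun y => 1 ≤ y) = (Icc 1 N).filter (fun y => u ≤ x * y ∧ x * y < v) := by
          apply filter_true_of_mem
          intro y hy
          rw [mem_filter, mem_Icc] at hy
          exact hy.1.1
        rw [e3]
        refine Finset.sum_congr rfl fun y hy => ?_
        rw [mem_filter, mem_Icc] at hy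
        rw [ArithmeticFunction.natCoe_apply, ArithmeticFunction.zeta_apply_ne (by omega)]
        simp
      rw [e2, norm_mul, Complex.norm_real, Real.norm_eq_abs]
      refine mul_le_mul_of_nonneg_right ?_ (norm_nonneg _)
      refine (VA_coef_le U x).trans ?_
      exact Real.log_le_log (by exact_mod_cast (by omega : 0 < x)) (by exact_mod_cast hx.2)
    · have : c x = 0 := VA_coef_supp U x (by omega)
      rw [this]
      simp
  refine (Finset.sum_le_sum e1).trans ?_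
  rw [← Finset.sum_filter]
  have e4 : (Icc 1 N).filter (fun x => x ≤ U * U) = Icc 1 (U * U) := by
    ext x
    simp only [mem_filter, mem_Icc]
    constructor
    · rintro ⟨⟨h1, h2⟩, h3⟩; exact ⟨h1, h3⟩
    · rintro ⟨h1, h3⟩; exact ⟨⟨h1, by omega⟩, h3⟩
  rw [e4, ← Finset.mul_sum]
  have := hmain θ q a hq hcop hθ N u v (U * U) 1 hN hqN hv hU le_rfl
  calc _ ≤ Real.log N * (C * ((N : ℝ) / q + (U * U : ℕ) + q) * (Real.log N) ^ 2) :=
        mul_le_mul_of_nonneg_left this hlog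
    _ = _ := by ring

theorem VA_log_tele (N y : ℕ) (hy : 1 ≤ y) (hyN : y ≤ N) :
    Real.log y = ∑ k ∈ Icc 2 N, if k ≤ y then (Real.log k - Real.log ((k - 1 : ℕ) : ℝ)) else 0 := by
  rw [← Finset.sum_filter]
  have e1 : (Icc 2 N).filter (fun k => k ≤ y) = Ico 2 (y + 1) := by
    ext k
    simp only [mem_filter, mem_Icc, mem_Ico]
    omega
  rw [e1]
  have key : ∀ n : ℕ, ∑ k ∈ Ico 2 (n + 1 + 1), (Real.log k - Real.log ((k - 1 : ℕ) : ℝ)) =
      Real.log ((n + 1 : ℕ) : ℝ) := by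
    intro n
    induction n with
    | zero => simp
    | succ n ih =>
      rw [Finset.sum_Ico_succ_top (by omega), ih]
      have : n + 1 + 1 - 1 = n + 1 := by omega
      rw [this]
      ring
  obtain ⟨n, rfl⟩ : ∃ n, y = n + 1 := ⟨y - 1, by omega⟩
  exact (key n).symm

theorem VA_S1 : ∃ C : ℝ, 0 < C ∧ ∀ (θ : ℝ) (q : ℕ) (a : ℤ), 1 ≤ q → IsCoprime a (q : ℤ) →
    |θ - a / q| ≤ 1 / (q : ℝ) ^ 2 → ∀ (N u v U : ℕ), 2 ≤ N → q ≤ N → v ≤ N → U ≤ N →
    ‖∑ m ∈ Ico u v, (((VAcut ((ArithmeticFunction.moebius : ArithmeticFunction ℤ) :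
        ArithmeticFunction ℝ) U * ArithmeticFunction.log) m : ℝ) : ℂ) * e (m * θ)‖ ≤
      C * ((N : ℝ) / q + U + q) * (Real.log N) ^ 3 := by
  obtain ⟨C, hC, hmain⟩ := VA_typeI
  refine ⟨C, hC, fun θ q a hq hcop hθ N u v U hN hqN hv hU => ?_⟩
  have hlog : 0 ≤ Real.log N := Real.log_natCast_nonneg N
  rw [VA_conv _ _ (fun m => e (m * θ)) N u v hv]
  set w : ℕ → ℝ := fun k => Real.log k - Real.log ((k - 1 : ℕ) : ℝ) with hw
  have hw0 : ∀ k, 2 ≤ k → 0 ≤ w k := by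
    intro k hk
    rw [hw]
    simp only [sub_nonneg]
    refine Real.log_le_log ?_ ?_
    · exact_mod_cast (by omega : 0 < k - 1)
    · exact_mod_cast (by omega : k - 1 ≤ k)
  set E : ℕ → ℕ → ℂ := fun k x => ∑ y ∈ ((Icc 1 N).filter (fun y => u ≤ x * y ∧ x * y < v)).filter
        (fun y => k ≤ y), e (((x * y : ℕ) : ℝ) * θ) with hE
  have e1 : ∀ x ∈ Icc 1 N, ‖∑ y ∈ (Icc 1 N).filter (fun y => u ≤ x * y ∧ x * y < v),
        ((VAcut ((ArithmeticFunction.moebius : ArithmeticFunction ℤ) :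
        ArithmeticFunction ℝ) U x : ℝ) : ℂ) * ((ArithmeticFunction.log y : ℝ) : ℂ) *
          e (((x * y : ℕ) : ℝ) * θ)‖ ≤
      if x ≤ U then ∑ k ∈ Icc 2 N, w k * ‖E k x‖ else 0 := by
    intro x hx
    rw [mem_Icc] at hx
    have e2 : ∑ y ∈ (Icc 1 N).filter (fun y => u ≤ x * y ∧ x * y < v),
        ((VAcut ((ArithmeticFunction.moebius : ArithmeticFunction ℤ) :
        ArithmeticFunction ℝ) U x : ℝ) : ℂ) * ((ArithmeticFunction.log y : ℝ) : ℂ) *
          e (((x * y : ℕ) : ℝ) * θ) = ((VAcut ((ArithmeticFunction.moebius : ArithmeticFunction ℤ) :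
        ArithmeticFunction ℝ) U x : ℝ) : ℂ) * ∑ k ∈ Icc 2 N, (w k : ℂ) * E k x := by
      have e3 : ∑ k ∈ Icc 2 N, (w k : ℂ) * E k x =
          ∑ y ∈ (Icc 1 N).filter (fun y => u ≤ x * y ∧ x * y < v),
            ((ArithmeticFunction.log y : ℝ) : ℂ) * e (((x * y : ℕ) : ℝ) * θ) := by
        rw [hE]
        simp only [Finset.mul_sum]
        simp_rw [Finset.sum_filter (fun y => _ ≤ y)]
        rw [Finset.sum_comm]
        refine Finset.sum_congr rfl fun y hy => ?_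
        rw [mem_filter, mem_Icc] at hy
        rw [ArithmeticFunction.log_apply, VA_log_tele N y hy.1.1 hy.1.2, Complex.ofReal_sum,
          Finset.sum_mul]
        refine Finset.sum_congr rfl fun k _ => ?_
        split_ifs <;> simp [hw]
      rw [e3, Finset.mul_sum]
      refine Finset.sum_congr rfl fun y _ => ?_
      ring
    rw [e2, norm_mul, Complex.norm_real, Real.norm_eq_abs]
    split_ifs with h
    · have h2 : ‖∑ k ∈ Icc 2 N, (w k : ℂ) * E k x‖ ≤ ∑ k ∈ Icc 2 N, w k * ‖E k x‖ := by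
        refine (norm_sum_le _ _).trans (Finset.sum_le_sum fun k hk => ?_)
        rw [mem_Icc] at hk
        rw [norm_mul, Complex.norm_real, Real.norm_eq_abs, abs_of_nonneg (hw0 k hk.1)]
      calc _ ≤ 1 * ∑ k ∈ Icc 2 N, w k * ‖E k x‖ := by
            apply mul_le_mul (VA_cut_moeb_le U x) h2 (norm_nonneg _) zero_le_one
        _ = _ := one_mul _
    · rw [VAcut_apply, if_neg h]
      simp
  refine (norm_sum_le _ _).trans ((Finset.sum_le_sum e1).trans ?_)
  rw [← Finset.sum_filter]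
  have e4 : (Icc 1 N).filter (fun x => x ≤ U) = Icc 1 U := by
    ext x
    simp only [mem_filter, mem_Icc]
    constructor
    · rintro ⟨⟨h1, h2⟩, h3⟩; exact ⟨h1, h3⟩
    · rintro ⟨h1, h3⟩; exact ⟨⟨h1, by omega⟩, h3⟩
  rw [e4, Finset.sum_comm]
  have e5 : ∀ k ∈ Icc 2 N, ∑ x ∈ Icc 1 U, w k * ‖E k x‖ ≤
      w k * (C * ((N : ℝ) / q + U + q) * (Real.log N) ^ 2) := by
    intro k hk
    rw [mem_Icc] at hk
    rw [← Finset.mul_sum]
    exact mul_le_mul_of_nonneg_left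
      (hmain θ q a hq hcop hθ N u v U k hN hqN hv hU (by omega)) (hw0 k hk.1)
  refine (Finset.sum_le_sum e5).trans ?_
  rw [← Finset.sum_mul]
  have e6 : ∑ k ∈ Icc 2 N, w k = Real.log N := by
    rw [VA_log_tele N N (by omega) le_rfl]
    refine Finset.sum_congr rfl fun k hk => ?_
    rw [mem_Icc] at hk
    rw [if_pos hk.2]
  rw [e6]
  apply le_of_eq
  ring

/-! ### Type II -/

theorem VA_half_le_log (N : ℕ) (hN : 2 ≤ N) : 1 ≤ 2 * Real.log N := by
  have h1 : Real.log 2 ≤ Real.log N := Real.log_le_log (by norm_num) (by exact_mod_cast hN)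
  have h2 := Real.log_two_gt_d9
  linarith

/-- The arithmetic of one type II block. -/
theorem VA_arith (N q A B U : ℕ) (hN : 2 ≤ N) (hq : 1 ≤ q) (hqN : q ≤ N) (hAB : A * B ≤ N)
    (hU : (N : ℝ) ^ (2 / 5 : ℝ) ≤ U + 1) (hA : U + 1 < 2 * A) (hB : U < B) :
    (A : ℝ) * ((A : ℝ) / q + 1) * (B + q * Real.log (2 * q)) * B ≤
      12 * (Real.log N) ^ 2 * (((N : ℝ) / Real.sqrt q) ^ 2 + ((N : ℝ) ^ (4 / 5 : ℝ)) ^ 2 +
        (Real.sqrt (N * q)) ^ 2) := by
  have hl := VA_half_le_log N hN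
  set l := Real.log N with hldef
  have hN0 : (0 : ℝ) < N := by exact_mod_cast (by omega : 0 < N)
  have hq0 : (0 : ℝ) < q := by exact_mod_cast (by omega : 0 < q)
  have hA0 : (0 : ℝ) < A := by exact_mod_cast (by omega : 0 < A)
  have hB0 : (0 : ℝ) < B := by exact_mod_cast (by omega : 0 < B)
  have hP0 : 0 < (N : ℝ) ^ (2 / 5 : ℝ) := Real.rpow_pos_of_pos hN0 _
  set P := (N : ℝ) ^ (2 / 5 : ℝ) with hP
  set R := (N : ℝ) ^ (3 / 5 : ℝ) with hR
  have hR0 : 0 < R := Real.rpow_pos_of_pos hN0 _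
  have hPR : P * R = N := by
    rw [hP, hR, ← Real.rpow_add hN0]; norm_num
  have hab : (A : ℝ) * B ≤ N := by exact_mod_cast hAB
  have hA' : P ≤ 2 * A := by
    have : ((U + 1 : ℕ) : ℝ) ≤ ((2 * A : ℕ) : ℝ) := by exact_mod_cast hA.le
    push_cast at this; linarith
  have hB' : P ≤ B := by
    have : ((U + 1 : ℕ) : ℝ) ≤ (B : ℝ) := by exact_mod_cast hB
    push_cast at this; linarith
  have hAR : (A : ℝ) ≤ R := by
    have : P * A ≤ P * R := by rw [hPR]; nlinarith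
    exact le_of_mul_le_mul_left this hP0
  have hBR : (B : ℝ) ≤ 2 * R := by
    have : P * B ≤ P * (2 * R) := by nlinarith
    exact le_of_mul_le_mul_left this hP0
  have hL2 : Real.log (2 * q) ≤ 2 * l := by
    rw [Real.log_mul (by norm_num) hq0.ne']
    have h1 : Real.log 2 ≤ l := Real.log_le_log (by norm_num) (by exact_mod_cast hN)
    have h2 : Real.log q ≤ l := Real.log_le_log hq0 (by exact_mod_cast hqN)
    linarith
  have hL0 : 0 ≤ Real.log (2 * q) := by
    apply Real.log_nonneg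
    have : (1 : ℝ) ≤ q := by exact_mod_cast hq
    linarith
  set L2 := Real.log (2 * q) with hL2def
  have s1 : ((N : ℝ) / Real.sqrt q) ^ 2 = N * (N / q) := by
    rw [div_pow, Real.sq_sqrt hq0.le]; ring
  have s2 : ((N : ℝ) ^ (4 / 5 : ℝ)) ^ 2 = N * R := by
    rw [hR, ← Real.rpow_natCast, ← Real.rpow_mul hN0.le]
    have : (N : ℝ) * (N : ℝ) ^ (3 / 5 : ℝ) = (N : ℝ) ^ (1 : ℝ) * (N : ℝ) ^ (3 / 5 : ℝ) := by
      rw [Real.rpow_one]
    rw [this, ← Real.rpow_add hN0]; norm_num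
  have s3 : (Real.sqrt (N * q)) ^ 2 = N * q := Real.sq_sqrt (by positivity)
  rw [s1, s2, s3]
  have step1 : (A : ℝ) * ((A : ℝ) / q + 1) * (B + q * L2) * B =
      (A * B) * (A * B / q + A * L2 + B + q * L2) := by
    field_simp
    ring
  rw [step1]
  have hl0 : 0 < l := by linarith
  have t1 : (A : ℝ) * B / q ≤ N / q := by
    apply div_le_div_of_nonneg_right hab hq0.le
  have t2 : (A : ℝ) * L2 ≤ R * (2 * l) := mul_le_mul hAR hL2 hL0 hR0.le
  have t3 : (q : ℝ) * L2 ≤ q * (2 * l) := mul_le_mul_of_nonneg_left hL2 hq0.le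
  have hnn : 0 ≤ (A : ℝ) * B / q + A * L2 + B + q * L2 := by positivity
  have hNq : 0 ≤ (N : ℝ) / q := by positivity
  have k1 : 1 ≤ 4 * l ^ 2 := by nlinarith
  have k2 : 2 * l ≤ 4 * l ^ 2 := by nlinarith
  calc (A * B : ℝ) * (A * B / q + A * L2 + B + q * L2)
      ≤ N * (N / q + R * (2 * l) + 2 * R + q * (2 * l)) := by
        apply mul_le_mul hab _ hnn hN0.le
        linarith
    _ ≤ N * (12 * l ^ 2 * (N / q) + 12 * l ^ 2 * R + 12 * l ^ 2 * q) := by
        apply mul_le_mul_of_nonneg_left _ hN0.le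
        have a1 : (N : ℝ) / q ≤ 12 * l ^ 2 * (N / q) := by nlinarith
        have a2 : R * (2 * l) + 2 * R ≤ 12 * l ^ 2 * R := by nlinarith
        have a3 : (q : ℝ) * (2 * l) ≤ 12 * l ^ 2 * q := by nlinarith
        linarith
    _ = _ := by ring

theorem VA_block : ∃ C : ℝ, 0 < C ∧ ∀ (θ : ℝ) (q : ℕ) (a : ℤ), 1 ≤ q → IsCoprime a (q : ℤ) →
    |θ - a / q| ≤ 1 / (q : ℝ) ^ 2 → ∀ (N u v U A : ℕ), 2 ≤ N → q ≤ N → v ≤ N →
    (N : ℝ) ^ (2 / 5 : ℝ) ≤ U + 1 → 1 ≤ A → A ≤ N →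
    ‖∑ x ∈ Ico A (2 * A), ∑ y ∈ (Icc 1 N).filter (fun y => u ≤ x * y ∧ x * y < v),
      ((VArest ((ArithmeticFunction.moebius : ArithmeticFunction ℤ) :
        ArithmeticFunction ℝ) U x : ℝ) : ℂ) *
      (((VArest ArithmeticFunction.vonMangoldt U *
          ((ArithmeticFunction.zeta : ArithmeticFunction ℕ) : ArithmeticFunction ℝ)) y : ℝ) : ℂ) *
      e (((x * y : ℕ) : ℝ) * θ)‖ ≤
      C * ((N : ℝ) / Real.sqrt q + (N : ℝ) ^ (4 / 5 : ℝ) + Real.sqrt (N * q)) *
        (Real.log N) ^ 2 := by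
  obtain ⟨C, hC, hmain⟩ := type_two
  refine ⟨Real.sqrt (12 * C), Real.sqrt_pos.mpr (by positivity),
    fun θ q a hq hcop hθ N u v U A hN hqN hv hU hA hAN => ?_⟩
  have hlog : 0 ≤ Real.log N := Real.log_natCast_nonneg N
  set f : ℕ → ℂ := fun x => ((VArest ((ArithmeticFunction.moebius : ArithmeticFunction ℤ) :
        ArithmeticFunction ℝ) U x : ℝ) : ℂ) with hf
  set β : ℕ → ℂ := fun y => (((VArest ArithmeticFunction.vonMangoldt U *
          ((ArithmeticFunction.zeta : ArithmeticFunction ℕ) : ArithmeticFunction ℝ)) y : ℝ) : ℂ)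
    with hβ
  have hRHS : 0 ≤ Real.sqrt (12 * C) * ((N : ℝ) / Real.sqrt q + (N : ℝ) ^ (4 / 5 : ℝ) +
      Real.sqrt (N * q)) * (Real.log N) ^ 2 := by positivity
  set B := N / A with hB
  have hB1 : 1 ≤ B := by rw [hB]; exact Nat.div_pos hAN (by omega)
  have hAB : A * B ≤ N := Nat.mul_div_le N A
  have e1 : ∀ x ∈ Ico A (2 * A), ∑ y ∈ (Icc 1 N).filter (fun y => u ≤ x * y ∧ x * y < v),
      f x * β y * e (((x * y : ℕ) : ℝ) * θ) =
      ∑ y ∈ (Icc 1 B).filter (fun y => u ≤ x * y ∧ x * y < v), f x * β y * e (x * y * θ) := by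
    intro x hx
    rw [mem_Ico] at hx
    have e2 : (Icc 1 N).filter (fun y => u ≤ x * y ∧ x * y < v) =
        (Icc 1 B).filter (fun y => u ≤ x * y ∧ x * y < v) := by
      ext y
      simp only [mem_filter, mem_Icc]
      constructor
      · rintro ⟨⟨h1, _⟩, h3, h4⟩
        refine ⟨⟨h1, ?_⟩, h3, h4⟩
        rw [hB, Nat.le_div_iff_mul_le (by omega)]
        have : y * A ≤ x * y := by rw [mul_comm x y]; exact Nat.mul_le_mul_left y hx.1
        omega
      · rintro ⟨⟨h1, h2⟩, h3, h4⟩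
        exact ⟨⟨h1, h2.trans (Nat.div_le_self N A)⟩, h3, h4⟩
    rw [e2]
    refine Finset.sum_congr rfl fun y _ => ?_
    push_cast
    rfl
  rw [Finset.sum_congr rfl e1]
  by_cases hA' : 2 * A ≤ U + 1
  · have : ∑ x ∈ Ico A (2 * A), ∑ y ∈ (Icc 1 B).filter (fun y => u ≤ x * y ∧ x * y < v),
        f x * β y * e (x * y * θ) = 0 := by
      refine Finset.sum_eq_zero fun x hx => Finset.sum_eq_zero fun y _ => ?_
      rw [mem_Ico] at hx
      have : f x = 0 := by
        rw [hf]; simp only [VArest_apply]; rw [if_pos (by omega)]; simp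
      rw [this, zero_mul, zero_mul]
    rw [this, norm_zero]
    exact hRHS
  by_cases hB' : B ≤ U
  · have : ∑ x ∈ Ico A (2 * A), ∑ y ∈ (Icc 1 B).filter (fun y => u ≤ x * y ∧ x * y < v),
        f x * β y * e (x * y * θ) = 0 := by
      refine Finset.sum_eq_zero fun x hx => Finset.sum_eq_zero fun y hy => ?_
      rw [mem_filter, mem_Icc] at hy
      have : β y = 0 := by
        rw [hβ]; simp only; rw [VA_beta_supp U y (by omega)]; simp
      rw [this, mul_zero, zero_mul]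
    rw [this, norm_zero]
    exact hRHS
  have h2 := hmain θ q a hq hcop hθ A B u v hA hB1 f β (fun n => by
    rw [hf]; simp only; rw [Complex.norm_real, Real.norm_eq_abs]; exact VA_rest_moeb_le U n)
  have h3 : ∑ y ∈ Icc 1 B, ‖β y‖ ^ 2 ≤ B * (Real.log N) ^ 2 := by
    have : ∀ y ∈ Icc 1 B, ‖β y‖ ^ 2 ≤ (Real.log N) ^ 2 := by
      intro y hy
      rw [mem_Icc] at hy
      apply pow_le_pow_left₀ (norm_nonneg _)
      rw [hβ]; simp only
      rw [Complex.norm_real, Real.norm_eq_abs]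
      refine (VA_beta U y).trans ?_
      refine Real.log_le_log (by exact_mod_cast (by omega : 0 < y)) ?_
      exact_mod_cast hy.2.trans (Nat.div_le_self N A)
    refine (Finset.sum_le_sum this).trans ?_
    rw [Finset.sum_const, Nat.card_Icc, nsmul_eq_mul]
    simp
  have h4 := VA_arith N q A B U hN hq hqN hAB hU (by omega) (by omega)
  have hq0 : (0 : ℝ) < q := by exact_mod_cast (by omega : 0 < q)
  have hL0 : 0 ≤ Real.log (2 * q) := by
    apply Real.log_nonneg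
    have : (1 : ℝ) ≤ q := by exact_mod_cast hq
    linarith
  set T := ‖∑ x ∈ Ico A (2 * A), ∑ y ∈ (Icc 1 B).filter (fun y => u ≤ x * y ∧ x * y < v),
        f x * β y * e (x * y * θ)‖ with hT
  set a1 := (N : ℝ) / Real.sqrt q with ha1
  set b1 := (N : ℝ) ^ (4 / 5 : ℝ) with hb1
  set c1 := Real.sqrt (N * q) with hc1
  have ha0 : 0 ≤ a1 := by positivity
  have hb0 : 0 ≤ b1 := by positivity
  have hc0 : 0 ≤ c1 := by positivity
  have h5 : T ^ 2 ≤ (Real.sqrt (12 * C) * (a1 + b1 + c1) * (Real.log N) ^ 2) ^ 2 := by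
    have hpos : 0 ≤ C * A * ((A : ℝ) / q + 1) * (B + q * Real.log (2 * q)) := by positivity
    calc T ^ 2 ≤ C * A * ((A : ℝ) / q + 1) * (B + q * Real.log (2 * q)) *
          ∑ y ∈ Icc 1 B, ‖β y‖ ^ 2 := h2
      _ ≤ C * A * ((A : ℝ) / q + 1) * (B + q * Real.log (2 * q)) * (B * (Real.log N) ^ 2) :=
          mul_le_mul_of_nonneg_left h3 hpos
      _ = (C * (Real.log N) ^ 2) *
            ((A : ℝ) * ((A : ℝ) / q + 1) * (B + q * Real.log (2 * q)) * B) := by ring
      _ ≤ (C * (Real.log N) ^ 2) * (12 * (Real.log N) ^ 2 * (a1 ^ 2 + b1 ^ 2 + c1 ^ 2)) :=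
          mul_le_mul_of_nonneg_left h4 (by positivity)
      _ = (12 * C) * (Real.log N) ^ 4 * (a1 ^ 2 + b1 ^ 2 + c1 ^ 2) := by ring
      _ ≤ (12 * C) * (Real.log N) ^ 4 * (a1 + b1 + c1) ^ 2 := by
          apply mul_le_mul_of_nonneg_left _ (by positivity)
          nlinarith [mul_nonneg ha0 hb0, mul_nonneg ha0 hc0, mul_nonneg hb0 hc0]
      _ = _ := by
          rw [mul_pow, mul_pow, Real.sq_sqrt (by positivity)]
          ring
  exact (pow_le_pow_iff_left₀ (norm_nonneg _) hRHS (by norm_num)).mp h5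

theorem VA_dyadic (F : ℕ → ℂ) (J : ℕ) :
    ∑ x ∈ Ico 1 (2 ^ J), F x = ∑ j ∈ range J, ∑ x ∈ Ico (2 ^ j) (2 * 2 ^ j), F x := by
  induction J with
  | zero => simp
  | succ J ih =>
    rw [Finset.sum_range_succ, ← ih, pow_succ, mul_comm (2 ^ J) 2]
    rw [Finset.sum_Ico_consecutive _ Nat.one_le_two_pow (by omega)]

theorem VA_S3 : ∃ C : ℝ, 0 < C ∧ ∀ (θ : ℝ) (q : ℕ) (a : ℤ), 1 ≤ q → IsCoprime a (q : ℤ) →
    |θ - a / q| ≤ 1 / (q : ℝ) ^ 2 → ∀ (N u v U : ℕ), 2 ≤ N → q ≤ N → v ≤ N →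
    (N : ℝ) ^ (2 / 5 : ℝ) ≤ U + 1 →
    ‖∑ m ∈ Ico u v, (((VArest ((ArithmeticFunction.moebius : ArithmeticFunction ℤ) :
        ArithmeticFunction ℝ) U * (VArest ArithmeticFunction.vonMangoldt U *
          ((ArithmeticFunction.zeta : ArithmeticFunction ℕ) : ArithmeticFunction ℝ))) m : ℝ) : ℂ) *
        e (m * θ)‖ ≤
      C * ((N : ℝ) / Real.sqrt q + (N : ℝ) ^ (4 / 5 : ℝ) + Real.sqrt (N * q)) *
        (Real.log N) ^ 3 := by
  obtain ⟨C, hC, hmain⟩ := VA_block
  refine ⟨4 * C, by positivity, fun θ q a hq hcop hθ N u v U hN hqN hv hU => ?_⟩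
  have hlog : 0 ≤ Real.log N := Real.log_natCast_nonneg N
  rw [VA_conv _ _ (fun m => e (m * θ)) N u v hv]
  set T : ℕ → ℂ := fun x => ∑ y ∈ (Icc 1 N).filter (fun y => u ≤ x * y ∧ x * y < v),
      ((VArest ((ArithmeticFunction.moebius : ArithmeticFunction ℤ) :
        ArithmeticFunction ℝ) U x : ℝ) : ℂ) *
      (((VArest ArithmeticFunction.vonMangoldt U *
          ((ArithmeticFunction.zeta : ArithmeticFunction ℕ) : ArithmeticFunction ℝ)) y : ℝ) : ℂ) *
      e (((x * y : ℕ) : ℝ) * θ) with hT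
  have hN2 : N < 2 ^ (Nat.log 2 N + 1) := Nat.lt_pow_succ_log_self (by norm_num) N
  have e1 : ∑ x ∈ Icc 1 N, T x = ∑ x ∈ Ico 1 (2 ^ (Nat.log 2 N + 1)), T x := by
    refine Finset.sum_subset ?_ ?_
    · intro x hx
      rw [mem_Icc] at hx
      rw [mem_Ico]
      omega
    · intro x hx hx'
      rw [mem_Ico] at hx
      rw [mem_Icc] at hx'
      have : (Icc 1 N).filter (fun y => u ≤ x * y ∧ x * y < v) = ∅ := by
        rw [filter_eq_empty_iff]
        intro y hy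
        rw [mem_Icc] at hy
        have : x ≤ x * y := Nat.le_mul_of_pos_right x (by omega)
        omega
      rw [hT]
      simp only [this, Finset.sum_empty]
  have e0 : ∑ x ∈ Icc 1 N, ∑ y ∈ (Icc 1 N).filter (fun y => u ≤ x * y ∧ x * y < v),
      ((VArest ((ArithmeticFunction.moebius : ArithmeticFunction ℤ) :
        ArithmeticFunction ℝ) U x : ℝ) : ℂ) *
      (((VArest ArithmeticFunction.vonMangoldt U *
          ((ArithmeticFunction.zeta : ArithmeticFunction ℕ) : ArithmeticFunction ℝ)) y : ℝ) : ℂ) *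
      e (((x * y : ℕ) : ℝ) * θ) = ∑ x ∈ Icc 1 N, T x := rfl
  rw [e0, e1, VA_dyadic]
  refine (norm_sum_le _ _).trans ?_
  set K := C * ((N : ℝ) / Real.sqrt q + (N : ℝ) ^ (4 / 5 : ℝ) + Real.sqrt (N * q)) *
        (Real.log N) ^ 2 with hK
  have hK0 : 0 ≤ K := by positivity
  have e2 : ∀ j ∈ range (Nat.log 2 N + 1), ‖∑ x ∈ Ico (2 ^ j) (2 * 2 ^ j), T x‖ ≤ K := by
    intro j hj
    rw [mem_range] at hj
    refine hmain θ q a hq hcop hθ N u v U (2 ^ j) hN hqN hv hU Nat.one_le_two_pow ?_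
    exact (Nat.pow_le_pow_right (by norm_num) (by omega)).trans
      (Nat.pow_log_le_self 2 (by omega))
  refine (Finset.sum_le_sum e2).trans ?_
  rw [Finset.sum_const, card_range, nsmul_eq_mul]
  have hl := VA_half_le_log N hN
  have hlog2 : ((Nat.log 2 N : ℕ) : ℝ) * Real.log 2 ≤ Real.log N := by
    have h1 : 2 ^ (Nat.log 2 N) ≤ N := Nat.pow_log_le_self 2 (by omega)
    have h2 : Real.log ((2 : ℝ) ^ (Nat.log 2 N)) ≤ Real.log N := by
      apply Real.log_le_log (by positivity)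
      exact_mod_cast h1
    rwa [Real.log_pow] at h2
  have h2 := Real.log_two_gt_d9
  have hn0 : (0 : ℝ) ≤ (Nat.log 2 N : ℕ) := by positivity
  have hJ : ((Nat.log 2 N + 1 : ℕ) : ℝ) ≤ 4 * Real.log N := by
    push_cast
    nlinarith
  calc ((Nat.log 2 N + 1 : ℕ) : ℝ) * K ≤ 4 * Real.log N * K := mul_le_mul_of_nonneg_right hJ hK0
    _ = _ := by rw [hK]; ring

/-- **Vinogradov-Vaughan.** Any sum `∑_{m ∈ [u,v)} Λ(m) e(mθ)`, `v ≤ N`. -/
theorem vaughan : ∃ C : ℝ, 0 < C ∧ ∀ (θ : ℝ) (q : ℕ) (a : ℤ), 1 ≤ q → IsCoprime a (q : ℤ) →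
    |θ - a / q| ≤ 1 / (q : ℝ) ^ 2 → ∀ (N u v : ℕ), 2 ≤ N → q ≤ N → v ≤ N →
    ‖∑ m ∈ Ico u v, (ArithmeticFunction.vonMangoldt m : ℂ) * e (m * θ)‖ ≤
      C * ((N : ℝ) / Real.sqrt q + (N : ℝ) ^ (4 / 5 : ℝ) + Real.sqrt (N * q)) *
        (Real.log N) ^ 10 := by
  obtain ⟨C1, hC1, h1⟩ := VA_S1
  obtain ⟨C2, hC2, h2⟩ := VA_S2
  obtain ⟨C3, hC3, h3⟩ := VA_S3
  refine ⟨2 ^ 10 * (2 + C1 + C2 + C3), by positivity,
    fun θ q a hq hcop hθ N u v hN hqN hv => ?_⟩
  have hl := VA_half_le_log N hN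
  set l := Real.log N with hldef
  have hN0 : (0 : ℝ) < N := by exact_mod_cast (by omega : 0 < N)
  have hN1 : (1 : ℝ) ≤ N := by exact_mod_cast (by omega : 1 ≤ N)
  have hq0 : (0 : ℝ) < q := by exact_mod_cast (by omega : 0 < q)
  have hq1 : (1 : ℝ) ≤ q := by exact_mod_cast hq
  set P := (N : ℝ) ^ (2 / 5 : ℝ) with hP
  have hP0 : 0 < P := Real.rpow_pos_of_pos hN0 _
  have hP1 : 1 ≤ P := Real.one_le_rpow hN1 (by norm_num)
  set U := ⌊P⌋₊ with hU
  have hUP : (U : ℝ) ≤ P := Nat.floor_le hP0.le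
  have hPU : P ≤ U + 1 := (Nat.lt_floor_add_one P).le
  set a1 := (N : ℝ) / Real.sqrt q with ha1
  set b1 := (N : ℝ) ^ (4 / 5 : ℝ) with hb1
  set c1 := Real.sqrt (N * q) with hc1
  have ha0 : 0 ≤ a1 := by positivity
  have hb0 : 0 < b1 := Real.rpow_pos_of_pos hN0 _
  have hc0 : 0 ≤ c1 := by positivity
  have hPP : P * P = b1 := by
    rw [hP, hb1, ← Real.rpow_add hN0]; norm_num
  have hUU : (((U * U : ℕ)) : ℝ) ≤ b1 := by
    push_cast; rw [← hPP]; exact mul_le_mul hUP hUP (by positivity) hP0.le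
  have hb1N : b1 ≤ N := by
    calc b1 ≤ (N : ℝ) ^ (1 : ℝ) := Real.rpow_le_rpow_of_exponent_le hN1 (by norm_num)
      _ = N := Real.rpow_one _
  have hPb : P ≤ b1 := by rw [← hPP]; nlinarith
  have hUUN : U * U ≤ N := by exact_mod_cast hUU.trans hb1N
  have hUN : U ≤ N := by exact_mod_cast hUP.trans (hPb.trans hb1N)
  have hq' : (q : ℝ) ≤ c1 := by
    rw [hc1]
    apply Real.le_sqrt_of_sq_le
    have : (q : ℝ) ≤ N := by exact_mod_cast hqN
    nlinarith
  have hNq : (N : ℝ) / q ≤ a1 := by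
    rw [ha1]
    apply div_le_div_of_nonneg_left hN0.le (Real.sqrt_pos.mpr hq0)
    rw [Real.sqrt_le_left hq0.le]
    nlinarith
  have hS0 := VA_S0 U N u v θ hv
  have hS1 := h1 θ q a hq hcop hθ N u v U hN hqN hv hUN
  have hS2 := h2 θ q a hq hcop hθ N u v U hN hqN hv hUUN
  have hS3 := h3 θ q a hq hcop hθ N u v U hN hqN hv hPU
  set S := a1 + b1 + c1 with hS
  have hS0' : 0 ≤ S := by positivity
  have split : ∑ m ∈ Ico u v, (ArithmeticFunction.vonMangoldt m : ℂ) * e (m * θ) =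
      ∑ m ∈ Ico u v, ((VAcut ArithmeticFunction.vonMangoldt U m : ℝ) : ℂ) * e (m * θ) +
      ∑ m ∈ Ico u v, (((VAcut ((ArithmeticFunction.moebius : ArithmeticFunction ℤ) :
        ArithmeticFunction ℝ) U * ArithmeticFunction.log) m : ℝ) : ℂ) * e (m * θ) -
      ∑ m ∈ Ico u v, ((((VAcut ((ArithmeticFunction.moebius : ArithmeticFunction ℤ) :
        ArithmeticFunction ℝ) U * VAcut ArithmeticFunction.vonMangoldt U) *
        ((ArithmeticFunction.zeta : ArithmeticFunction ℕ) : ArithmeticFunction ℝ)) m : ℝ) : ℂ) *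
        e (m * θ) +
      ∑ m ∈ Ico u v, (((VArest ((ArithmeticFunction.moebius : ArithmeticFunction ℤ) :
        ArithmeticFunction ℝ) U * (VArest ArithmeticFunction.vonMangoldt U *
          ((ArithmeticFunction.zeta : ArithmeticFunction ℕ) : ArithmeticFunction ℝ))) m : ℝ) : ℂ) *
        e (m * θ) := by
    rw [← Finset.sum_add_distrib, ← Finset.sum_sub_distrib, ← Finset.sum_add_distrib]
    refine Finset.sum_congr rfl fun m _ => ?_
    have id2 : (ArithmeticFunction.vonMangoldt : ArithmeticFunction ℝ) +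
        (VAcut ((ArithmeticFunction.moebius : ArithmeticFunction ℤ) : ArithmeticFunction ℝ) U *
        VAcut ArithmeticFunction.vonMangoldt U) *
        ((ArithmeticFunction.zeta : ArithmeticFunction ℕ) : ArithmeticFunction ℝ) =
        VAcut ArithmeticFunction.vonMangoldt U +
      VAcut ((ArithmeticFunction.moebius : ArithmeticFunction ℤ) : ArithmeticFunction ℝ) U *
        ArithmeticFunction.log +
      VArest ((ArithmeticFunction.moebius : ArithmeticFunction ℤ) : ArithmeticFunction ℝ) U *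
        (VArest ArithmeticFunction.vonMangoldt U *
          ((ArithmeticFunction.zeta : ArithmeticFunction ℕ) : ArithmeticFunction ℝ)) := by
      linear_combination VA_identity U
    have := congrArg (fun f : ArithmeticFunction ℝ => ((f m : ℝ) : ℂ)) id2
    simp only [ArithmeticFunction.add_apply, Complex.ofReal_add] at this
    linear_combination e (m * θ) * this
  rw [split]
  have hl1 : l ≤ 2 ^ 10 * l ^ 10 := by
    have : (1 : ℝ) ≤ (2 * l) ^ 9 := one_le_pow₀ hl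
    nlinarith [this]
  have hl3 : l ^ 3 ≤ 2 ^ 10 * l ^ 10 := by
    have h7 : (1 : ℝ) ≤ (2 * l) ^ 7 := one_le_pow₀ hl
    have hl0 : 0 ≤ l ^ 3 := by positivity
    calc l ^ 3 = l ^ 3 * 1 := by ring
      _ ≤ l ^ 3 * (8 * (2 * l) ^ 7) := mul_le_mul_of_nonneg_left (by linarith) hl0
      _ = _ := by ring
  have b0 : (U + 1 : ℝ) * l ≤ 2 * S * (2 ^ 10 * l ^ 10) := by
    have : (U + 1 : ℝ) ≤ 2 * S := by linarith
    exact mul_le_mul this hl1 (by linarith) (by positivity)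
  have b1' : C1 * ((N : ℝ) / q + U + q) * l ^ 3 ≤ C1 * S * (2 ^ 10 * l ^ 10) := by
    apply mul_le_mul _ hl3 (by positivity) (by positivity)
    apply mul_le_mul_of_nonneg_left _ hC1.le
    linarith
  have b2' : C2 * ((N : ℝ) / q + (U * U : ℕ) + q) * l ^ 3 ≤ C2 * S * (2 ^ 10 * l ^ 10) := by
    apply mul_le_mul _ hl3 (by positivity) (by positivity)
    apply mul_le_mul_of_nonneg_left _ hC2.le
    linarith
  have b3' : C3 * S * l ^ 3 ≤ C3 * S * (2 ^ 10 * l ^ 10) :=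
    mul_le_mul_of_nonneg_left hl3 (by positivity)
  refine (norm_add_le _ _).trans ?_
  refine (add_le_add_left ((norm_sub_le _ _).trans (add_le_add_left (norm_add_le _ _) _)) _).trans ?_
  calc _ ≤ 2 * S * (2 ^ 10 * l ^ 10) + C1 * S * (2 ^ 10 * l ^ 10) + C2 * S * (2 ^ 10 * l ^ 10) +
        C3 * S * (2 ^ 10 * l ^ 10) := by
        apply add_le_add (add_le_add (add_le_add _ _) _) _
        · exact hS0.trans b0
        · exact hS1.trans b1'
        · exact hS2.trans b2'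
        · exact hS3.trans b3'
    _ = _ := by ring

end Pool.Agent.Lib.H68T
end
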