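import Mathlib
import Pool.Agent.Lib.H59M.M1.M004

/-! Merged copies (to shorten the build) of Lib.H68T.GL2, Lib.H68T.LAN, Lib.H68T.LAB1, Lib.H68T.LAB2, Lib.H68T.LAB3, Lib.H68T.T341, Lib.H68T.RegL, Lib.H68T.ZF1, Lib.H68T.INVS, Lib.H68X.XDefs, Lib.H68X.XRL, Lib.H68T.TENT. -/

-- from Lib.H68T.GL2
section

/-!
# Chunk GL2; part of GL: growth of L-functions and zeta
-/

open Finset

namespace Pool.Agent.Lib.H68T

/-- the terms of the continuation of `(s-1) ζ(s) - 1` -/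
noncomputable def gl2_B (n : ℕ) (s : ℂ) : ℂ :=
  (s - 1) * (((n : ℝ) + 1 : ℝ) : ℂ) ^ (-s) +
    ((((n : ℝ) + 2 : ℝ) : ℂ) ^ (-(s - 1)) - (((n : ℝ) + 1 : ℝ) : ℂ) ^ (-(s - 1)))

theorem gl2_aux (s : ℂ) (a : ℝ) (ha : 0 < a) (D : ℝ)
    (hD : ∀ x ∈ Set.Icc a (a + 1), ‖(x : ℂ) ^ (-s) - (a : ℂ) ^ (-s)‖ ≤ D) :
    ‖(s - 1) * (a : ℂ) ^ (-s) + (((a + 1 : ℝ) : ℂ) ^ (-(s - 1)) - (a : ℂ) ^ (-(s - 1)))‖ ≤
      ‖s - 1‖ * D := by
  have hpos : ∀ x ∈ Set.Icc a (a + 1), 0 < x := fun x hx => lt_of_lt_of_le ha hx.1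
  have key := norm_image_sub_le_of_norm_deriv_le_segment'
    (f := fun x : ℝ => (s - 1) * (a : ℂ) ^ (-s) * (x : ℂ) + (x : ℂ) ^ (-(s - 1)))
    (a := a) (b := a + 1) (f' := fun x => (s - 1) * (a : ℂ) ^ (-s) * 1 +
      -(s - 1) * (x : ℂ) ^ (-(s - 1) - 1)) (C := ‖s - 1‖ * D) ?_ ?_ (a + 1) ⟨by linarith, le_rfl⟩
  · have e1 : a + 1 - a = 1 := by ring
    rw [e1, mul_one] at key
    refine le_trans (le_of_eq ?_) key
    congr 1
    push_cast
    ring
  · intro x hx
    apply HasDerivAt.hasDerivWithinAt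
    apply HasDerivAt.add
    · exact (Complex.ofRealCLM.hasDerivAt (x := x)).const_mul _
    · exact gl1_hasDerivAt (s - 1) (hpos x hx)
  · intro x hx
    have h1 : (s - 1) * (a : ℂ) ^ (-s) * 1 + -(s - 1) * (x : ℂ) ^ (-(s - 1) - 1) =
        (s - 1) * ((a : ℂ) ^ (-s) - (x : ℂ) ^ (-s)) := by
      have e : -(s - 1) - 1 = -s := by ring
      rw [e]
      ring
    rw [h1, norm_mul, norm_sub_rev ((a : ℂ) ^ (-s))]
    exact mul_le_mul_of_nonneg_left (hD x ⟨hx.1, hx.2.le⟩) (norm_nonneg _)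

theorem gl2_B_norm (n : ℕ) (s : ℂ) (hs : 0 < s.re) : ‖gl2_B n s‖ ≤
    ‖s - 1‖ * ‖s‖ / s.re * (((n : ℝ) + 1) ^ (-s.re) - ((n : ℝ) + 2) ^ (-s.re)) := by
  have h1 := gl2_aux s ((n : ℝ) + 1) (by positivity)
    (‖s‖ / s.re * (((n : ℝ) + 1) ^ (-s.re) - ((n : ℝ) + 2) ^ (-s.re))) (by
      intro x hx
      refine (gl1_diff s hs (by positivity) hx.1).trans ?_
      refine mul_le_mul_of_nonneg_left ?_ (by positivity)
      have h2 : ((n : ℝ) + 2) ^ (-s.re) ≤ x ^ (-s.re) := by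
        apply Real.rpow_le_rpow_of_nonpos
        · have : 0 < (n : ℝ) + 1 := by positivity
          linarith [hx.1]
        · linarith [hx.2]
        · linarith
      linarith)
  have e : (n : ℝ) + 1 + 1 = (n : ℝ) + 2 := by ring
  rw [e] at h1
  rw [gl2_B]
  refine h1.trans (le_of_eq ?_)
  ring

theorem gl2_B_norm' (n : ℕ) (s : ℂ) (hs : 0 < s.re) : ‖gl2_B n s‖ ≤
    ‖s - 1‖ * ‖s‖ * ((n : ℝ) + 1) ^ (-s.re - 1) := by
  have h1 := gl2_aux s ((n : ℝ) + 1) (by positivity)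
    (‖s‖ * ((n : ℝ) + 1) ^ (-s.re - 1)) (by
      intro x hx
      refine (gl1_diff' s hs (by positivity) hx.1).trans ?_
      have h2 : 0 ≤ ‖s‖ * ((n : ℝ) + 1) ^ (-s.re - 1) := by positivity
      have h3 : x - ((n : ℝ) + 1) ≤ 1 := by linarith [hx.2]
      nlinarith)
  have e : (n : ℝ) + 1 + 1 = (n : ℝ) + 2 := by ring
  rw [e] at h1
  rw [gl2_B]
  refine h1.trans (le_of_eq ?_)
  ring

theorem gl2_eq (s : ℂ) (hs : 1 < s.re) : (s - 1) * riemannZeta s = 1 + ∑' n, gl2_B n s := by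
  have hs0 : 0 < s.re := by linarith
  have hsumB := (gl1_tele s.re hs0 (‖s - 1‖ * ‖s‖ / s.re) (by positivity) (fun n => gl2_B n s)
    (fun n => gl2_B_norm n s hs0)).1
  have h1 : Summable fun n : ℕ => 1 / ((n : ℂ) + 1) ^ s := by
    have h2 := Complex.summable_one_div_nat_cpow.2 hs
    have h3 := (summable_nat_add_iff 1).2 h2
    simpa using h3
  have h2 : Filter.Tendsto (fun K => ∑ n ∈ range K, 1 / ((n : ℂ) + 1) ^ s) Filter.atTop
      (nhds (riemannZeta s)) := by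
    rw [zeta_eq_tsum_one_div_nat_add_one_cpow hs]
    exact h1.hasSum.tendsto_sum_nat
  have h3 : Filter.Tendsto (fun K : ℕ => (((K : ℝ) + 1 : ℝ) : ℂ) ^ (-(s - 1))) Filter.atTop
      (nhds 0) := by
    have h6 : Filter.Tendsto (fun K : ℕ => ((K : ℝ) + 1) ^ (-(s.re - 1))) Filter.atTop
        (nhds 0) := by
      have h7 := tendsto_rpow_neg_atTop (y := s.re - 1) (by linarith)
      have h8 : Filter.Tendsto (fun K : ℕ => (K : ℝ) + 1) Filter.atTop Filter.atTop :=
        Filter.tendsto_atTop_add_const_right _ _ tendsto_natCast_atTop_atTop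
      exact h7.comp h8
    refine squeeze_zero_norm (fun K => ?_) h6
    rw [Complex.norm_cpow_eq_rpow_re_of_pos (by positivity)]
    simp
  have h4 : ∀ K : ℕ, ∑ n ∈ range K, gl2_B n s = (s - 1) * ∑ n ∈ range K, 1 / ((n : ℂ) + 1) ^ s +
      ((((K : ℝ) + 1 : ℝ) : ℂ) ^ (-(s - 1)) - 1) := by
    intro K
    induction K with
    | zero => simp
    | succ K ih =>
      rw [sum_range_succ, sum_range_succ, ih, gl2_B]
      have e1 : (((K : ℝ) + 1 : ℝ) : ℂ) ^ (-s) = 1 / ((K : ℂ) + 1) ^ s := by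
        rw [Complex.cpow_neg, one_div]
        push_cast
        rfl
      have e2 : (((K + 1 : ℕ) : ℝ) + 1 : ℝ) = (K : ℝ) + 2 := by
        push_cast
        ring
      rw [e1, e2]
      ring
  have h5 : Filter.Tendsto (fun K => ∑ n ∈ range K, gl2_B n s) Filter.atTop
      (nhds ((s - 1) * riemannZeta s + (0 - 1))) := by
    refine ((h2.const_mul (s - 1)).add (h3.sub_const 1)).congr fun K => ?_
    rw [h4]
  have h6 := tendsto_nhds_unique hsumB.hasSum.tendsto_sum_nat h5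
  rw [h6]
  ring

/-- `(s-1) ζ(s)`, the entire function -/
noncomputable def gl2_Z : ℂ → ℂ := DirichletCharacter.LFunctionTrivChar₁ 1

theorem gl2_Z_differentiable : Differentiable ℂ gl2_Z :=
  DirichletCharacter.differentiable_LFunctionTrivChar₁ 1

theorem gl2_Z_eq (s : ℂ) (hs : s ≠ 1) : gl2_Z s = (s - 1) * riemannZeta s := by
  unfold gl2_Z
  rw [DirichletCharacter.LFunctionTrivChar₁, Function.update_of_ne hs,
    DirichletCharacter.LFunctionTrivChar, DirichletCharacter.LFunction_modOne_eq]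

theorem gl2_Z_one : gl2_Z 1 = 1 := by
  unfold gl2_Z
  rw [DirichletCharacter.LFunctionTrivChar₁, Function.update_self]
  simp

theorem gl2_eqOn (s : ℂ) (hs : 0 < s.re) : gl2_Z s = 1 + ∑' n, gl2_B n s := by
  have hop : IsOpen {s : ℂ | 0 < s.re} := isOpen_lt continuous_const Complex.continuous_re
  have h1 : AnalyticOnNhd ℂ (fun s => 1 + ∑' n, gl2_B n s) {s | 0 < s.re} := by
    apply DifferentiableOn.analyticOnNhd _ hop
    refine DifferentiableOn.const_add 1 ?_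
    apply gl1_analytic
    · intro n
      unfold gl2_B
      have h : ∀ (x : ℝ) (a : ℂ), 0 < x → Differentiable ℂ fun s : ℂ => (x : ℂ) ^ (-(s - a)) := by
        intro x a hx s
        refine DifferentiableAt.const_cpow ((differentiableAt_id.sub_const a).neg) (Or.inl ?_)
        exact_mod_cast hx.ne'
      have h0 : ∀ (x : ℝ), 0 < x → Differentiable ℂ fun s : ℂ => (x : ℂ) ^ (-s) := by
        intro x hx
        simpa using h x 0 hx
      exact ((differentiable_id.sub_const 1).mul (h0 _ (by positivity))).add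
        ((h _ 1 (by positivity)).sub (h _ 1 (by positivity)))
    · intro R
      refine ⟨(|R| + 1) * |R|, fun n s hs hR => ?_⟩
      refine (gl2_B_norm' n s hs).trans ?_
      apply mul_le_mul_of_nonneg_right _ (Real.rpow_nonneg (by positivity) _)
      have hR' : ‖s‖ ≤ |R| := hR.trans (le_abs_self R)
      have h2 : ‖s - 1‖ ≤ |R| + 1 := by
        refine (norm_sub_le _ _).trans ?_
        rw [norm_one]
        linarith
      exact mul_le_mul h2 hR' (norm_nonneg _) (by positivity)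
  have h2 : AnalyticOnNhd ℂ gl2_Z {s | 0 < s.re} :=
    (gl2_Z_differentiable.differentiableOn).analyticOnNhd hop
  have h3 : IsPreconnected {s : ℂ | 0 < s.re} :=
    (convex_halfSpace_re_gt 0).isPreconnected
  have h4 := h2.eqOn_of_preconnected_of_eventuallyEq h1 h3 (z₀ := 2) (by simp) ?_
  · exact h4 hs
  · have h5 : {s : ℂ | 1 < s.re} ∈ nhds (2 : ℂ) :=
      (isOpen_lt continuous_const Complex.continuous_re).mem_nhds (by simp)
    filter_upwards [h5] with s hs
    have hs' : 1 < s.re := hs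
    rw [gl2_Z_eq s (by rintro rfl; simp at hs'), gl2_eq s hs]

theorem gl2_Z_bound (s : ℂ) (h1 : 1 / 2 ≤ s.re) (h3 : s.re ≤ 3) :
    ‖gl2_Z s‖ ≤ 4 * (|s.im| + 3) ^ 2 := by
  have hs0 : 0 < s.re := by linarith
  rw [gl2_eqOn s hs0]
  have h4 := (gl1_tele s.re hs0 (‖s - 1‖ * ‖s‖ / s.re) (by positivity) (fun n => gl2_B n s)
    (fun n => gl2_B_norm n s hs0)).2
  have h5 : ‖s‖ ≤ |s.im| + 3 := by
    refine (Complex.norm_le_abs_re_add_abs_im s).trans ?_
    rw [abs_of_pos hs0]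
    linarith
  have h6 : ‖s - 1‖ ≤ |s.im| + 4 := by
    refine (norm_sub_le _ _).trans ?_
    rw [norm_one]
    linarith
  have h7 : ‖s - 1‖ * ‖s‖ / s.re ≤ 2 * ((|s.im| + 4) * (|s.im| + 3)) := by
    rw [div_le_iff₀ hs0]
    have h8 : ‖s - 1‖ * ‖s‖ ≤ (|s.im| + 4) * (|s.im| + 3) :=
      mul_le_mul h6 h5 (norm_nonneg _) (by positivity)
    have h9 : 0 ≤ (|s.im| + 4) * (|s.im| + 3) := by positivity
    nlinarith
  have h8 : ‖1 + ∑' n, gl2_B n s‖ ≤ 1 + 2 * ((|s.im| + 4) * (|s.im| + 3)) := by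
    refine (norm_add_le _ _).trans ?_
    rw [norm_one]
    linarith
  have h9 : 0 ≤ |s.im| := abs_nonneg _
  nlinarith


end Pool.Agent.Lib.H68T
end

-- from Lib.H68T.LAN
section

/-!
# Chunk LAN: Landau's local lemma
-/

open Finset Metric

namespace Pool.Agent.Lib.H68T

theorem LAN_remove {U : Set ℂ} {f : ℂ → ℂ} (hf : AnalyticOnNhd ℂ f U) {ρ : ℂ} (hρ : ρ ∈ U)
    (hne : ¬ ∀ᶠ z in nhds ρ, f z = 0) :
    ∃ (n : ℕ) (h : ℂ → ℂ), AnalyticOnNhd ℂ h U ∧ h ρ ≠ 0 ∧ ∀ s, f s = (s - ρ) ^ n * h s := by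
  obtain ⟨n, g, hg, hg0, hev⟩ :=
    (AnalyticAt.exists_eventuallyEq_pow_smul_nonzero_iff (hf ρ hρ)).mpr hne
  classical
  refine ⟨n, fun s => if s = ρ then g ρ else f s / (s - ρ) ^ n, ?_, ?_, ?_⟩
  · intro s hs
    by_cases hsρ : s = ρ
    · subst hsρ
      refine hg.congr ?_
      filter_upwards [hev] with z hz
      by_cases hz1 : z = s
      · simp [hz1]
      · have h1 : (z - s) ^ n ≠ 0 := pow_ne_zero _ (sub_ne_zero.mpr hz1)
        simp only [hz1, if_false]
        rw [hz, smul_eq_mul]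
        field_simp
    · have h1 : AnalyticAt ℂ (fun z => f z / (z - ρ) ^ n) s := by
        refine (hf s hs).div ?_ ?_
        · fun_prop
        · exact pow_ne_zero _ (sub_ne_zero.mpr hsρ)
      refine h1.congr ?_
      filter_upwards [isOpen_ne.mem_nhds hsρ] with z hz
      have hz' : z ≠ ρ := hz
      simp [hz']
  · simpa using hg0
  · intro s
    by_cases hs : s = ρ
    · subst hs
      simp only [if_true]
      have := hev.self_of_nhds
      simpa [smul_eq_mul] using this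
    · have h1 : (s - ρ) ^ n ≠ 0 := pow_ne_zero _ (sub_ne_zero.mpr hs)
      simp only [hs, if_false]
      field_simp

theorem LAN_factor {U : Set ℂ} (f : ℂ → ℂ) (hf : AnalyticOnNhd ℂ f U)
    (hne : ∀ ρ ∈ U, ¬ ∀ᶠ z in nhds ρ, f z = 0) (T : Finset ℂ) (hT : ∀ t ∈ T, t ∈ U) :
    ∃ (Z : Multiset ℂ) (h : ℂ → ℂ), AnalyticOnNhd ℂ h U ∧ (∀ t ∈ T, h t ≠ 0) ∧
      (∀ ρ ∈ Z, ρ ∈ T ∧ f ρ = 0) ∧ (∀ ρ ∈ T, f ρ = 0 → ρ ∈ Z) ∧
      ∀ s, f s = (Z.map (fun ρ => s - ρ)).prod * h s := by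
  classical
  induction T using Finset.induction_on with
  | empty => exact ⟨0, f, hf, by simp, by simp, by simp, by simp⟩
  | insert ρ T' hρT' ih =>
    obtain ⟨Z, h, hh, hh0, hZ, hZ', hfac⟩ := ih (fun t ht => hT t (mem_insert_of_mem ht))
    have hρU : ρ ∈ U := hT ρ (mem_insert_self _ _)
    have hne' : ¬ ∀ᶠ z in nhds ρ, h z = 0 := by
      intro hev
      apply hne ρ hρU
      filter_upwards [hev] with z hz
      rw [hfac, hz, mul_zero]
    obtain ⟨n, g, hg, hg0, hfac2⟩ := LAN_remove hh hρU hne'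
    refine ⟨Multiset.replicate n ρ + Z, g, hg, ?_, ?_, ?_, ?_⟩
    · intro t ht
      rcases mem_insert.mp ht with rfl | ht
      · exact hg0
      · intro h0
        apply hh0 t ht
        rw [hfac2, h0, mul_zero]
    · intro t ht
      rcases Multiset.mem_add.mp ht with ht | ht
      · obtain ⟨hn, rfl⟩ := Multiset.mem_replicate.mp ht
        refine ⟨mem_insert_self _ _, ?_⟩
        rw [hfac, hfac2, sub_self, zero_pow hn, zero_mul, mul_zero]
      · exact ⟨mem_insert_of_mem (hZ t ht).1, (hZ t ht).2⟩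
    · intro t ht h0
      rcases mem_insert.mp ht with rfl | ht
      · rw [Multiset.mem_add, Multiset.mem_replicate]
        left
        refine ⟨?_, rfl⟩
        rintro rfl
        have h1 : h t ≠ 0 := by
          rw [hfac2]; simpa using hg0
        rw [hfac] at h0
        rcases mul_eq_zero.mp h0 with h2 | h2
        · rw [Multiset.prod_eq_zero_iff, Multiset.mem_map] at h2
          obtain ⟨a, ha, hat⟩ := h2
          have : t = a := sub_eq_zero.mp hat
          exact hρT' (this ▸ (hZ a ha).1)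
        · exact h1 h2
      · exact Multiset.mem_add.mpr (Or.inr (hZ' t ht h0))
    · intro s
      rw [hfac, hfac2, Multiset.map_add, Multiset.prod_add, Multiset.map_replicate,
        Multiset.prod_replicate]
      ring

theorem LAN_logDeriv_prod (Z : Multiset ℂ) (s : ℂ) (hs : ∀ ρ ∈ Z, s ≠ ρ) :
    logDeriv (fun z => (Z.map (fun ρ => z - ρ)).prod) s = (Z.map (fun ρ => 1 / (s - ρ))).sum ∧
      (Z.map (fun ρ => s - ρ)).prod ≠ 0 ∧
      DifferentiableAt ℂ (fun z => (Z.map (fun ρ => z - ρ)).prod) s := by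
  induction Z using Multiset.induction_on with
  | empty => simp [logDeriv]
  | cons a Z ih =>
    obtain ⟨h1, h2, h3⟩ := ih (fun ρ hρ => hs ρ (Multiset.mem_cons_of_mem hρ))
    have ha : s - a ≠ 0 := sub_ne_zero.mpr (hs a (Multiset.mem_cons_self a Z))
    simp only [Multiset.map_cons, Multiset.prod_cons, Multiset.sum_cons]
    have hd : DifferentiableAt ℂ (fun z : ℂ => z - a) s := by fun_prop
    refine ⟨?_, mul_ne_zero ha h2, hd.mul h3⟩
    have := logDeriv_mul (f := fun z : ℂ => z - a) (g := fun z => (Z.map (fun ρ => z - ρ)).prod) s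
      ha h2 hd h3
    rw [this, h1]
    congr 1
    simp [logDeriv]

/-- Borel–Carathéodory part. -/
theorem LAN_zero_free (g : ℂ → ℂ) (s₀ : ℂ) (R M : ℝ) (hR : 0 < R) (hM : 0 ≤ M)
    (hg : AnalyticOnNhd ℂ g (closedBall s₀ R)) (hg0 : ∀ s ∈ closedBall s₀ (R / 2), g s ≠ 0)
    (hb : ∀ s ∈ closedBall s₀ R, ‖g s‖ ≤ Real.exp M * ‖g s₀‖) :
    ∀ s ∈ closedBall s₀ (R / 4), ‖deriv g s / g s‖ ≤ 48 * (M + 1) / R := by
  have hsub : ball s₀ (R / 2) ⊆ closedBall s₀ R :=
    (ball_subset_closedBall).trans (closedBall_subset_closedBall (by linarith))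
  have hs0 : s₀ ∈ ball s₀ (R / 2) := mem_ball_self (by positivity)
  have hq : DifferentiableOn ℂ (fun s => deriv g s / g s) (ball s₀ (R / 2)) := by
    intro s hs
    refine DifferentiableAt.differentiableWithinAt ?_
    refine DifferentiableAt.div ((hg s (hsub hs)).deriv.differentiableAt)
      (hg s (hsub hs)).differentiableAt (hg0 s (ball_subset_closedBall hs))
  obtain ⟨φ, hφ0, hφ⟩ := Complex.IsExactOn.with_val_at hq.isExactOn_ball s₀ 0
  -- g = g s₀ * exp φ
  have hgs0 : g s₀ ≠ 0 := hg0 s₀ (ball_subset_closedBall hs0)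
  have hexp : ∀ s ∈ ball s₀ (R / 2), g s = g s₀ * Complex.exp (φ s) := by
    intro s hs
    have hconst : ∀ x ∈ ball s₀ (R / 2), g x * Complex.exp (-φ x) = g s₀ * Complex.exp (-φ s₀) := by
      intro x hx
      refine (convex_ball s₀ (R / 2)).is_const_of_fderivWithin_eq_zero (𝕜 := ℂ)
        (f := fun x => g x * Complex.exp (-φ x)) ?_ ?_ hx hs0
      · intro y hy
        exact ((hg y (hsub hy)).differentiableAt.mul
          ((hφ y hy).differentiableAt.neg.cexp)).differentiableWithinAt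
      · intro y hy
        have hd : HasDerivAt (fun x => g x * Complex.exp (-φ x)) 0 y := by
          have h1 := (hg y (hsub hy)).differentiableAt.hasDerivAt
          have h2 := (hφ y hy).neg.cexp
          have h3 := h1.mul h2
          have h4 : deriv g y * Complex.exp (-φ y) +
              g y * (Complex.exp (-φ y) * -(deriv g y / g y)) = 0 := by
            have := hg0 y (ball_subset_closedBall hy)
            field_simp
            ring
          rw [← h4]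
          exact h3
        have h5 := (hd.hasFDerivAt.hasFDerivWithinAt (s := ball s₀ (R / 2))).fderivWithin
          (isOpen_ball.uniqueDiffWithinAt hy)
        rw [h5]
        ext
        simp
    have h1 := hconst s hs
    rw [hφ0, neg_zero, Complex.exp_zero, mul_one] at h1
    rw [← h1, mul_assoc, ← Complex.exp_add, neg_add_cancel, Complex.exp_zero, mul_one]
  have hre : ∀ s ∈ ball s₀ (R / 2), (φ s).re ≤ M + 1 := by
    intro s hs
    have h1 := hb s (hsub hs)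
    rw [hexp s hs, norm_mul, Complex.norm_exp, mul_comm] at h1
    have h2 : Real.exp (φ s).re ≤ Real.exp M := le_of_mul_le_mul_right h1 (norm_pos_iff.mpr hgs0)
    have := Real.exp_le_exp.mp h2
    linarith
  have hφb : ∀ s ∈ closedBall s₀ (3 * R / 8), ‖φ s‖ ≤ 6 * (M + 1) := by
    intro s hs
    have hn : ‖s - s₀‖ ≤ 3 * R / 8 := by rwa [mem_closedBall_iff_norm] at hs
    have h := Complex.borelCaratheodory_zero (M := M + 1) (R := R / 2) (z := s - s₀)
      (f := fun z => φ (s₀ + z)) (by linarith) ?_ ?_ (by linarith) ?_ ?_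
    · simp only [add_sub_cancel] at h
      refine h.trans ?_
      have hpos : 0 < R / 2 - ‖s - s₀‖ := by linarith
      rw [div_le_iff₀ hpos]
      nlinarith
    · intro z hz
      have hz' : s₀ + z ∈ ball s₀ (R / 2) := by
        rw [mem_ball_iff_norm] at hz ⊢
        simpa using hz
      have h1 : DifferentiableAt ℂ φ (s₀ + z) := (hφ _ hz').differentiableAt
      have h2 : DifferentiableAt ℂ (fun z => s₀ + z) z := by fun_prop
      exact (h1.comp z h2).differentiableWithinAt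
    · intro z hz
      have hz' : s₀ + z ∈ ball s₀ (R / 2) := by
        rw [mem_ball_iff_norm] at hz ⊢
        simpa using hz
      exact hre _ hz'
    · rw [mem_ball_iff_norm, sub_zero]; linarith
    · simpa using hφ0
  intro s hs
  have hs4 : ‖s - s₀‖ ≤ R / 4 := by rwa [mem_closedBall_iff_norm] at hs
  have hsb : s ∈ ball s₀ (R / 2) := by rw [mem_ball_iff_norm]; linarith
  have hcau := Complex.norm_deriv_le_of_forall_mem_sphere_norm_le (c := s) (R := R / 8)
    (C := 6 * (M + 1)) (f := φ) (by linarith) ?_ ?_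
  · rw [(hφ s hsb).deriv] at hcau
    refine hcau.trans (le_of_eq ?_)
    field_simp
    ring
  · refine DifferentiableOn.diffContOnCl ?_
    rw [closure_ball _ (by positivity)]
    intro z hz
    have hz' : z ∈ ball s₀ (R / 2) := by
      rw [mem_closedBall_iff_norm] at hz
      rw [mem_ball_iff_norm]
      calc ‖z - s₀‖ = ‖(z - s) + (s - s₀)‖ := by ring_nf
        _ ≤ ‖z - s‖ + ‖s - s₀‖ := norm_add_le _ _
        _ < R / 2 := by linarith
    exact (hφ z hz').differentiableAt.differentiableWithinAt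
  · intro z hz
    apply hφb
    rw [mem_sphere_iff_norm] at hz
    rw [mem_closedBall_iff_norm]
    calc ‖z - s₀‖ = ‖(z - s) + (s - s₀)‖ := by ring_nf
      _ ≤ ‖z - s‖ + ‖s - s₀‖ := norm_add_le _ _
      _ ≤ 3 * R / 8 := by linarith

/-- **Landau's lemma** (Titchmarsh, 3.9, Lemma α). `f` analytic on the closed disc of radius `R`
about `s₀`, `‖f(s)/f(s₀)‖ ≤ e^M` there, `M ≥ 0`... then in the disc of radius `R/4` the logarithmic
derivative differs from `∑ 1/(s-ρ)`, over the zeros in the disc of radius `R/2` (with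
multiplicity), by at most `A M/R`.

Proof. `g(s) = f(s) ∏ (s-ρ)^(-1)` over the zeros `|ρ - s₀| ≤ R/2` (finitely many, with
multiplicity; e.g. `MeromorphicOn.extract_zeros_poles` or induction on the order, removing one zero
at a time with `dslope`), analytic on the big disc, non-zero for `|s - s₀| ≤ R/2`. On
`|s - s₀| = R`: `|s - ρ| ≥ R/2 ≥ |s₀ - ρ|`, so `|g(s)/g(s₀)| ≤ e^M`, hence everywhere in the disc
(maximum modulus). On the disc of radius `R/2`, `h = log (g/g(s₀))` exists, `h(s₀) = 0`, `Re h ≤ M`;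
Borel-Carathéodory (`Complex.borelCaratheodory_zero`): `|h| ≤ 6 M'` for `|s-s₀| ≤ 3R/8` (any
`M' > M`, e.g. `M' = M + 1`; that is why `M + 1` appears), Cauchy: `|h'| ≤ 48 M'/R` for
`|s-s₀| ≤ R/4`, and `h' = f'/f - ∑ 1/(s-ρ)`. -/
theorem landau : ∃ A : ℝ, 0 < A ∧ ∀ (f : ℂ → ℂ) (s₀ : ℂ) (R M : ℝ), 0 < R → 0 ≤ M →
    AnalyticOnNhd ℂ f (closedBall s₀ R) → f s₀ ≠ 0 →
    (∀ s ∈ closedBall s₀ R, ‖f s‖ ≤ Real.exp M * ‖f s₀‖) →
    ∃ Z : Multiset ℂ, (∀ ρ ∈ Z, ‖ρ - s₀‖ ≤ R / 2 ∧ f ρ = 0) ∧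
      (∀ ρ, ‖ρ - s₀‖ ≤ R / 2 → f ρ = 0 → ρ ∈ Z) ∧
      ∀ s ∈ closedBall s₀ (R / 4), f s ≠ 0 →
        ‖deriv f s / f s - (Z.map (fun ρ => 1 / (s - ρ))).sum‖ ≤ A * (M + 1) / R := by
  refine ⟨48, by norm_num, ?_⟩
  intro f s₀ R M hR hM hf hf0 hb
  have hs0 : s₀ ∈ closedBall s₀ R := mem_closedBall_self hR.le
  have hpre : IsPreconnected (closedBall s₀ R) := (convex_closedBall s₀ R).isPreconnected
  have hne : ∀ ρ ∈ closedBall s₀ R, ¬ ∀ᶠ z in nhds ρ, f z = 0 := by
    intro ρ hρ hev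
    exact hf0 (hf.eqOn_zero_of_preconnected_of_eventuallyEq_zero hpre hρ hev hs0)
  -- finiteness of the zeros
  have hfin : {ρ : ℂ | ρ ∈ closedBall s₀ (R / 2) ∧ f ρ = 0}.Finite := by
    by_contra hinf
    obtain ⟨x, hx, hacc⟩ := Set.Infinite.exists_accPt_of_subset_isCompact hinf
      (isCompact_closedBall s₀ (R / 2)) (fun ρ hρ => hρ.1)
    rw [accPt_iff_frequently_nhdsNE] at hacc
    have hx' : x ∈ closedBall s₀ R := closedBall_subset_closedBall (by linarith) hx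
    exact hf0 (hf.eqOn_zero_of_preconnected_of_frequently_eq_zero hpre hx'
      (hacc.mono fun y hy => hy.2) hs0)
  obtain ⟨Z, g, hg, hgT, hZ, hZ', hfac⟩ := LAN_factor f hf hne hfin.toFinset (fun t ht =>
    closedBall_subset_closedBall (by linarith) ((Set.Finite.mem_toFinset hfin).mp ht).1)
  refine ⟨Z, ?_, ?_, ?_⟩
  · intro ρ hρ
    refine ⟨?_, (hZ ρ hρ).2⟩
    have := ((Set.Finite.mem_toFinset hfin).mp (hZ ρ hρ).1).1
    rwa [mem_closedBall_iff_norm] at this
  · intro ρ h1 h2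
    exact hZ' ρ ((Set.Finite.mem_toFinset hfin).mpr ⟨by rwa [mem_closedBall_iff_norm], h2⟩) h2
  · have hZn : ∀ ρ ∈ Z, ‖ρ - s₀‖ ≤ R / 2 := by
      intro ρ hρ
      have := ((Set.Finite.mem_toFinset hfin).mp (hZ ρ hρ).1).1
      rwa [mem_closedBall_iff_norm] at this
    have hg0 : ∀ s ∈ closedBall s₀ (R / 2), g s ≠ 0 := by
      intro s hs h0
      have hfs : f s = 0 := by rw [hfac, h0, mul_zero]
      exact hgT s ((Set.Finite.mem_toFinset hfin).mpr ⟨hs, hfs⟩) h0
    -- bound on the sphere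
    have hsph : ∀ s ∈ sphere s₀ R, ‖g s‖ ≤ Real.exp M * ‖g s₀‖ := by
      intro s hs
      have hns : ‖s - s₀‖ = R := by rwa [mem_sphere_iff_norm] at hs
      have h1 := hb s (sphere_subset_closedBall hs)
      rw [hfac s, hfac s₀, norm_mul, norm_mul] at h1
      have hle : ‖(Z.map (fun ρ => s₀ - ρ)).prod‖ ≤ ‖(Z.map (fun ρ => s - ρ)).prod‖ ∧
          0 < ‖(Z.map (fun ρ => s - ρ)).prod‖ := by
        clear hZ hZ' hfac h1
        induction Z using Multiset.induction_on with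
        | empty => simp
        | cons a Z ih =>
          obtain ⟨h2, h3⟩ := ih (fun ρ hρ => hZn ρ (Multiset.mem_cons_of_mem hρ))
          have ha := hZn a (Multiset.mem_cons_self a Z)
          have h4 : R / 2 ≤ ‖s - a‖ := by
            have h5 : ‖s - s₀‖ ≤ ‖s - a‖ + ‖a - s₀‖ := by
              calc ‖s - s₀‖ = ‖(s - a) + (a - s₀)‖ := by ring_nf
                _ ≤ _ := norm_add_le _ _
            linarith
          simp only [Multiset.map_cons, Multiset.prod_cons, norm_mul]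
          refine ⟨?_, mul_pos (by linarith) h3⟩
          refine mul_le_mul ?_ h2 (norm_nonneg _) (norm_nonneg _)
          rw [norm_sub_rev]
          linarith
      obtain ⟨h2, h3⟩ := hle
      have h4 : ‖(Z.map (fun ρ => s - ρ)).prod‖ * ‖g s‖ ≤
          ‖(Z.map (fun ρ => s - ρ)).prod‖ * (Real.exp M * ‖g s₀‖) := by
        refine h1.trans ?_
        calc Real.exp M * (‖(Z.map (fun ρ => s₀ - ρ)).prod‖ * ‖g s₀‖)
            = ‖(Z.map (fun ρ => s₀ - ρ)).prod‖ * (Real.exp M * ‖g s₀‖) := by ring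
          _ ≤ _ := mul_le_mul_of_nonneg_right h2 (by positivity)
      exact le_of_mul_le_mul_left h4 h3
    have hball : ∀ s ∈ closedBall s₀ R, ‖g s‖ ≤ Real.exp M * ‖g s₀‖ := by
      intro s hs
      refine Complex.norm_le_of_forall_mem_frontier_norm_le (U := ball s₀ R) isBounded_ball ?_ ?_ ?_
      · refine DifferentiableOn.diffContOnCl ?_
        rw [closure_ball _ hR.ne']
        exact fun z hz => (hg z hz).differentiableAt.differentiableWithinAt
      · intro z hz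
        rw [frontier_ball _ hR.ne'] at hz
        exact hsph z hz
      · rwa [closure_ball _ hR.ne']
    have hfinal := LAN_zero_free g s₀ R M hR hM hg hg0 hball
    intro s hs hfs
    have hsR : s ∈ closedBall s₀ R := closedBall_subset_closedBall (by linarith) hs
    have hZs : ∀ ρ ∈ Z, s ≠ ρ := by
      rintro ρ hρ rfl
      exact hfs (hZ s hρ).2
    obtain ⟨h1, h2, h3⟩ := LAN_logDeriv_prod Z s hZs
    have hgs : g s ≠ 0 := by
      intro h0
      exact hfs (by rw [hfac, h0, mul_zero])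
    have hff : f = fun z => (Z.map (fun ρ => z - ρ)).prod * g z := funext hfac
    have h4 := logDeriv_mul (f := fun z => (Z.map (fun ρ => z - ρ)).prod) (g := g) s h2 hgs h3
      (hg s hsR).differentiableAt
    have h5 : deriv f s / f s = (Z.map (fun ρ => 1 / (s - ρ))).sum + deriv g s / g s := by
      rw [← h1]
      have : logDeriv f s = deriv f s / f s := by rw [logDeriv_apply]
      rw [← this]
      have h6 : logDeriv g s = deriv g s / g s := by rw [logDeriv_apply]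
      rw [← h6, ← h4, hff]
    rw [h5, add_sub_cancel_left]
    exact hfinal s hs

end Pool.Agent.Lib.H68T
end

-- from Lib.H68T.LAB1
section

/-!
# Chunk LAB1; part of LAB: real parts of logarithmic derivatives
-/

open Finset ArithmeticFunction

namespace Pool.Agent.Lib.H68T

/-! ### The series of the von Mangoldt function and the logarithmic derivatives -/

theorem lab1_zeta (s : ℂ) (hs : 1 < s.re) :
    LSeries (fun n => (vonMangoldt n : ℂ)) s = - logDeriv riemannZeta s := by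
  rw [logDeriv_apply, ← neg_div]
  exact ArithmeticFunction.LSeries_vonMangoldt_eq_deriv_riemannZeta_div hs

theorem lab1_Z (s : ℂ) (hs : 1 < s.re) :
    LSeries (fun n => (vonMangoldt n : ℂ)) s = 1 / (s - 1) - logDeriv gl2_Z s := by
  have hs1 : s ≠ 1 := by
    rintro rfl
    simp at hs
  have hz : riemannZeta s ≠ 0 := riemannZeta_ne_zero_of_one_le_re hs.le
  have h1 : gl2_Z =ᶠ[nhds s] fun z => (z - 1) * riemannZeta z := by
    filter_upwards [isOpen_compl_singleton.mem_nhds (show s ∈ ({1}ᶜ : Set ℂ) from hs1)] with z hz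
    exact gl2_Z_eq z hz
  have h2 := (logDeriv_congr_nhds h1).eq_of_nhds
  rw [h2, logDeriv_mul (f := fun z : ℂ => z - 1) (g := riemannZeta) s (sub_ne_zero.2 hs1) hz
    (by fun_prop) (differentiableAt_riemannZeta hs1), lab1_zeta s hs]
  have h3 : logDeriv (fun z : ℂ => z - 1) s = 1 / (s - 1) := by
    rw [logDeriv_apply]
    simp
  rw [h3]
  ring

theorem lab1_char (N : ℕ) [NeZero N] (χ : DirichletCharacter ℂ N) (s : ℂ) (hs : 1 < s.re) :
    LSeries (fun n => (vonMangoldt n : ℂ) * χ (n : ZMod N)) s = - logDeriv χ.LFunction s := by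
  have h1 := DirichletCharacter.LSeries_twist_vonMangoldt_eq χ hs
  have h2 : (fun n : ℕ => (vonMangoldt n : ℂ) * χ (n : ZMod N)) =
      (fun n : ℕ => χ (n : ZMod N)) * fun n : ℕ => (vonMangoldt n : ℂ) := by
    funext n
    simp [mul_comm]
  rw [h2, h1, logDeriv_apply, DirichletCharacter.deriv_LFunction_eq_deriv_LSeries χ hs,
    DirichletCharacter.LFunction_eq_LSeries χ hs, neg_div]

theorem lab1_term_norm (N : ℕ) (χ : DirichletCharacter ℂ N) (s : ℂ) (n : ℕ) :
    ‖LSeries.term (fun n => (vonMangoldt n : ℂ) * χ (n : ZMod N)) s n‖ ≤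
      ‖LSeries.term (fun n => (vonMangoldt n : ℂ)) s n‖ := by
  apply LSeries.norm_term_le
  rw [norm_mul]
  calc ‖(vonMangoldt n : ℂ)‖ * ‖χ (n : ZMod N)‖ ≤ ‖(vonMangoldt n : ℂ)‖ * 1 :=
        mul_le_mul_of_nonneg_left (DirichletCharacter.norm_le_one χ _) (norm_nonneg _)
    _ = _ := mul_one _

theorem lab1_term_re (s : ℂ) (n : ℕ) :
    ‖LSeries.term (fun n => (vonMangoldt n : ℂ)) s n‖ =
      (LSeries.term (fun n => (vonMangoldt n : ℂ)) s.re n).re := by
  rcases Nat.eq_zero_or_pos n with rfl | hn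
  · simp
  · rw [LSeries.term_of_ne_zero hn.ne', LSeries.term_of_ne_zero hn.ne', norm_div,
      Complex.norm_natCast_cpow_of_pos hn, Complex.norm_real, Real.norm_of_nonneg
      vonMangoldt_nonneg]
    have h1 : ((n : ℂ) ^ ((s.re : ℝ) : ℂ)) = (((n : ℝ) ^ s.re : ℝ) : ℂ) := by
      rw [Complex.ofReal_cpow (Nat.cast_nonneg n)]
      simp
    rw [h1, ← Complex.ofReal_div, Complex.ofReal_re]

/-- `|L_Λχ(s)| ≤ L_Λ(σ)` -/
theorem norm_LSeries_vM_le (N : ℕ) (χ : DirichletCharacter ℂ N) (s : ℂ) (hs : 1 < s.re) :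
    ‖LSeries (fun n => (vonMangoldt n : ℂ) * χ (n : ZMod N)) s‖ ≤
      (LSeries (fun n => (vonMangoldt n : ℂ)) s.re).re := by
  have h1 : Summable (LSeries.term (fun n => (vonMangoldt n : ℂ)) s) :=
    ArithmeticFunction.LSeriesSummable_vonMangoldt hs
  have h2 : Summable (LSeries.term (fun n => (vonMangoldt n : ℂ)) (s.re : ℂ)) :=
    ArithmeticFunction.LSeriesSummable_vonMangoldt (by simpa using hs)
  have h3 : Summable fun n => ‖LSeries.term (fun n => (vonMangoldt n : ℂ) * χ (n : ZMod N)) s n‖ :=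
    Summable.of_nonneg_of_le (fun n => norm_nonneg _) (lab1_term_norm N χ s) h1.norm
  have h4 : (LSeries (fun n => (vonMangoldt n : ℂ)) s.re).re =
      ∑' n, (LSeries.term (fun n => (vonMangoldt n : ℂ)) s.re n).re := Complex.re_tsum h2
  rw [h4]
  refine (norm_tsum_le_tsum_norm h3).trans ?_
  have h5 : (fun n => (LSeries.term (fun n => (vonMangoldt n : ℂ)) s.re n).re) =
      fun n => ‖LSeries.term (fun n => (vonMangoldt n : ℂ)) s n‖ := by
    funext n
    rw [lab1_term_re]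
  rw [h5]
  exact Summable.tsum_le_tsum (lab1_term_norm N χ s) h3 h1.norm

/-- `∑ Λ(n) n^(-σ) ≤ 1/(σ-1) + C` for `1 < σ ≤ 2` (`ζ(σ)(σ-1)` is continuous and positive on
`[1, 2]`, Mathlib has `riemannZeta` near `1`; or special case `t = 0`, `S = ∅` of a cruder lemma). -/
theorem vonMangoldt_le : ∃ C : ℝ, 0 < C ∧ ∀ σ : ℝ, 1 < σ → σ ≤ 2 →
    (LSeries (fun n => (vonMangoldt n : ℂ)) σ).re ≤ 1 / (σ - 1) + C := by
  have hcont : ContinuousOn (fun σ : ℝ => logDeriv gl2_Z (σ : ℂ)) (Set.Icc 1 2) := by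
    have h1 := DirichletCharacter.continuousOn_neg_logDeriv_LFunctionTrivChar₁ 1
    have h2 : ContinuousOn (fun σ : ℝ => (σ : ℂ)) (Set.Icc 1 2) :=
      Complex.continuous_ofReal.continuousOn
    have h3 := (h1.comp h2 (fun σ hσ => ?_)).neg
    · refine h3.congr fun σ _ => ?_
      simp only [logDeriv_apply, Pi.neg_apply, Function.comp_apply, neg_div, neg_neg]
      rfl
    · by_cases h4 : σ = 1
      · left
        rw [h4]
        simp
      · right
        rw [DirichletCharacter.LFunctionTrivChar, DirichletCharacter.LFunction_modOne_eq]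
        exact riemannZeta_ne_zero_of_one_le_re (by simpa using hσ.1)
  obtain ⟨C, hC⟩ := (isCompact_Icc.exists_bound_of_continuousOn hcont)
  refine ⟨|C| + 1, by positivity, fun σ h1 h2 => ?_⟩
  rw [lab1_Z (σ : ℂ) (by simpa using h1), Complex.sub_re]
  have h3 : (1 / ((σ : ℂ) - 1)).re = 1 / (σ - 1) := by
    have : (1 / ((σ : ℂ) - 1)) = ((1 / (σ - 1) : ℝ) : ℂ) := by push_cast; rfl
    rw [this, Complex.ofReal_re]
  rw [h3]
  have h4 := hC σ ⟨h1.le, h2⟩
  have h5 : -(logDeriv gl2_Z (σ : ℂ)).re ≤ ‖logDeriv gl2_Z (σ : ℂ)‖ := by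
    have := Complex.abs_re_le_norm (logDeriv gl2_Z (σ : ℂ))
    linarith [neg_abs_le (logDeriv gl2_Z (σ : ℂ)).re]
  linarith [le_abs_self C]

/-! ### Principal characters -/

theorem lab1_factor (p : ℕ) (hp : 2 ≤ p) (s : ℂ) (hs : 1 < s.re) :
    ‖(p : ℂ) ^ (-s)‖ ≤ 1 / 2 := by
  rw [Complex.norm_natCast_cpow_of_pos (by omega)]
  have h1 : (p : ℝ) ^ (-s).re ≤ (p : ℝ) ^ (-1 : ℝ) := by
    apply Real.rpow_le_rpow_of_exponent_le
    · exact_mod_cast (by omega : 1 ≤ p)
    · simp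
      linarith
  refine h1.trans ?_
  rw [Real.rpow_neg_one]
  have h2 : (2 : ℝ) ≤ p := by exact_mod_cast hp
  rw [inv_eq_one_div]
  exact one_div_le_one_div_of_le (by norm_num) h2

theorem lab1_factor_ne (p : ℕ) (hp : 2 ≤ p) (s : ℂ) (hs : 1 < s.re) :
    1 - (p : ℂ) ^ (-s) ≠ 0 := by
  intro h
  have h1 := lab1_factor p hp s hs
  rw [← sub_eq_zero.1 h, norm_one] at h1
  norm_num at h1

theorem lab1_factor_deriv (p : ℕ) (hp : 2 ≤ p) (s : ℂ) :
    HasDerivAt (fun s : ℂ => 1 - (p : ℂ) ^ (-s)) ((p : ℂ) ^ (-s) * Complex.log p) s := by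
  have hp0 : (p : ℂ) ≠ 0 := by
    have : p ≠ 0 := by omega
    exact_mod_cast this
  have h1 := ((hasDerivAt_id s).neg.const_cpow (c := (p : ℂ)) (Or.inl hp0)).const_sub 1
  have e : -((p : ℂ) ^ (-s) * Complex.log p * -1) = (p : ℂ) ^ (-s) * Complex.log p := by ring
  simp only [Pi.neg_apply, id_eq] at h1
  rw [← e]
  exact h1

theorem lab1_factor_log (p : ℕ) (hp : 2 ≤ p) (s : ℂ) (hs : 1 < s.re) :
    ‖logDeriv (fun s : ℂ => 1 - (p : ℂ) ^ (-s)) s‖ ≤ Real.log p := by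
  rw [logDeriv_apply, (lab1_factor_deriv p hp s).deriv, norm_div, norm_mul]
  have h1 := lab1_factor p hp s hs
  have h2 : 1 / 2 ≤ ‖1 - (p : ℂ) ^ (-s)‖ := by
    have := norm_sub_norm_le (1 : ℂ) ((p : ℂ) ^ (-s))
    rw [norm_one] at this
    linarith
  have h3 : ‖Complex.log p‖ = Real.log p := by
    rw [← Complex.natCast_log, Complex.norm_real, Real.norm_of_nonneg]
    exact Real.log_natCast_nonneg p
  have h4 : 0 ≤ Real.log p := Real.log_natCast_nonneg p
  rw [h3, div_le_iff₀ (by linarith)]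
  nlinarith

/-- Principal characters: the Euler factors at `p ∣ r` change `L_Λ` by at most
`∑_{p ∣ r} log p/(p-1) ≤ log r`. -/
theorem principal_sub (r : ℕ) [NeZero r] (s : ℂ) (hs : 1 < s.re) :
    ‖LSeries (fun n => (vonMangoldt n : ℂ) * (1 : DirichletCharacter ℂ r) (n : ZMod r)) s -
      LSeries (fun n => (vonMangoldt n : ℂ)) s‖ ≤ Real.log r := by
  have hs1 : s ≠ 1 := by
    rintro rfl
    simp at hs
  have hz : riemannZeta s ≠ 0 := riemannZeta_ne_zero_of_one_le_re hs.le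
  have hp2 : ∀ p ∈ r.primeFactors, 2 ≤ p := fun p hp => (Nat.prime_of_mem_primeFactors hp).two_le
  rw [lab1_char r 1 s hs, lab1_zeta s hs]
  have h1 : (1 : DirichletCharacter ℂ r).LFunction =ᶠ[nhds s]
      fun z => (∏ p ∈ r.primeFactors, (1 - (p : ℂ) ^ (-z))) * riemannZeta z := by
    filter_upwards [isOpen_compl_singleton.mem_nhds (show s ∈ ({1}ᶜ : Set ℂ) from hs1)] with z hz
    exact DirichletCharacter.LFunctionTrivChar_eq_mul_riemannZeta hz
  have h2 := (logDeriv_congr_nhds h1).eq_of_nhds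
  have hprod : (∏ p ∈ r.primeFactors, (1 - (p : ℂ) ^ (-s))) ≠ 0 :=
    prod_ne_zero_iff.2 fun p hp => lab1_factor_ne p (hp2 p hp) s hs
  have hdiff : ∀ p ∈ r.primeFactors, DifferentiableAt ℂ (fun z : ℂ => 1 - (p : ℂ) ^ (-z)) s :=
    fun p hp => (lab1_factor_deriv p (hp2 p hp) s).differentiableAt
  have hdiffp : DifferentiableAt ℂ (fun z : ℂ => ∏ p ∈ r.primeFactors, (1 - (p : ℂ) ^ (-z))) s := by
    have := DifferentiableAt.fun_finsetProd hdiff
    exact this
  rw [h2, logDeriv_mul s hprod hz hdiffp (differentiableAt_riemannZeta hs1),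
    logDeriv_prod (fun p hp => lab1_factor_ne p (hp2 p hp) s hs) hdiff]
  have h3 : -((∑ p ∈ r.primeFactors, logDeriv (fun z : ℂ => 1 - (p : ℂ) ^ (-z)) s) +
      logDeriv riemannZeta s) - -logDeriv riemannZeta s =
      -∑ p ∈ r.primeFactors, logDeriv (fun z : ℂ => 1 - (p : ℂ) ^ (-z)) s := by ring
  rw [h3, norm_neg]
  refine (norm_sum_le _ _).trans ?_
  refine (sum_le_sum fun p hp => lab1_factor_log p (hp2 p hp) s hs).trans ?_
  rw [← Real.log_prod (fun p hp => by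
    have := hp2 p hp
    have : p ≠ 0 := by omega
    exact_mod_cast this)]
  apply Real.log_le_log
  · refine prod_pos fun p hp => ?_
    have := hp2 p hp
    exact_mod_cast (by omega : 0 < p)
  · have h4 := Nat.le_of_dvd (Nat.pos_of_ne_zero (NeZero.ne r)) (Nat.prod_primeFactors_dvd r)
    have h5 : ((∏ p ∈ r.primeFactors, p : ℕ) : ℝ) ≤ (r : ℝ) := Nat.cast_le.2 h4
    rw [Nat.cast_prod] at h5
    exact h5

end Pool.Agent.Lib.H68T
end

-- from Lib.H68T.LAB2
section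

/-!
# Chunk LAB2; part of LAB: real parts of logarithmic derivatives
-/

open Finset ArithmeticFunction

namespace Pool.Agent.Lib.H68T

/-- `ζ(σ) ≤ σ/(σ-1)` -/
theorem lab2_zeta_le (σ : ℝ) (hσ : 1 < σ) : ‖riemannZeta (σ : ℂ)‖ ≤ σ / (σ - 1) := by
  have hs : 1 < ((σ : ℂ)).re := by simpa using hσ
  have h1 := gl2_eq (σ : ℂ) hs
  have h2 := (gl1_tele σ (by linarith) (‖(σ : ℂ) - 1‖ * ‖(σ : ℂ)‖ / σ) (by positivity)
    (fun n => gl2_B n (σ : ℂ)) (fun n => by simpa using gl2_B_norm n (σ : ℂ) (by simp; linarith))).2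
  have e1 : ‖(σ : ℂ) - 1‖ = σ - 1 := by
    rw [← Complex.ofReal_one, ← Complex.ofReal_sub, Complex.norm_real, Real.norm_of_nonneg]
    linarith
  have e2 : ‖(σ : ℂ)‖ = σ := by
    rw [Complex.norm_real, Real.norm_of_nonneg]
    linarith
  rw [e1, e2, mul_div_assoc, div_self (by linarith), mul_one] at h2
  have h3 : ‖((σ : ℂ) - 1) * riemannZeta (σ : ℂ)‖ ≤ σ := by
    rw [h1]
    refine (norm_add_le _ _).trans ?_
    rw [norm_one]
    linarith
  rw [norm_mul, e1] at h3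
  rw [le_div_iff₀ (by linarith)]
  linarith

/-- lower bound for `L(s,χ)`, `Re s > 1` -/
theorem lab2_lower (N : ℕ) (χ : DirichletCharacter ℂ N) (s : ℂ) (hs : 1 < s.re) :
    (s.re - 1) / s.re ≤ ‖LSeries (fun n => χ (n : ZMod N)) s‖ := by
  have h1 := DirichletCharacter.LSeries.mul_mu_eq_one χ hs
  have h2 : ‖LSeries ((fun n : ℕ => χ (n : ZMod N)) * fun n : ℕ => ((moebius n : ℤ) : ℂ)) s‖ ≤
      s.re / (s.re - 1) := by
    refine le_trans ?_ (lab2_zeta_le s.re hs)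
    have hs' : 1 < ((s.re : ℂ)).re := by simpa using hs
    have h3 : Summable fun n : ℕ => 1 / ((n : ℝ) + 1) ^ s.re := by
      have h4 := (Real.summable_one_div_nat_rpow (p := s.re)).2 hs
      have h5 := (summable_nat_add_iff 1).2 h4
      simpa using h5
    have hle : ∀ n, ‖LSeries.term ((fun n : ℕ => χ (n : ZMod N)) *
        fun n : ℕ => ((moebius n : ℤ) : ℂ)) s (n + 1)‖ ≤ 1 / ((n : ℝ) + 1) ^ s.re := by
      intro n
      rw [LSeries.term_of_ne_zero (by omega), norm_div,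
        Complex.norm_natCast_cpow_of_pos (by omega)]
      push_cast
      refine div_le_div_of_nonneg_right ?_ (Real.rpow_nonneg (by positivity) _)
      rw [Pi.mul_apply, norm_mul]
      have h6 := DirichletCharacter.norm_le_one χ ((n + 1 : ℕ) : ZMod N)
      have h7 : ‖((moebius (n + 1) : ℤ) : ℂ)‖ ≤ 1 := by
        rw [Complex.norm_intCast]
        exact_mod_cast abs_moebius_le_one
      calc _ ≤ (1 : ℝ) * 1 := mul_le_mul h6 h7 (norm_nonneg _) zero_le_one
        _ = 1 := one_mul _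
    have hsum : Summable fun n => ‖LSeries.term ((fun n : ℕ => χ (n : ZMod N)) *
        fun n : ℕ => ((moebius n : ℤ) : ℂ)) s (n + 1)‖ :=
      Summable.of_nonneg_of_le (fun n => norm_nonneg _) hle h3
    have hL : LSeries ((fun n : ℕ => χ (n : ZMod N)) * fun n : ℕ => ((moebius n : ℤ) : ℂ)) s =
        ∑' n, LSeries.term ((fun n : ℕ => χ (n : ZMod N)) *
          fun n : ℕ => ((moebius n : ℤ) : ℂ)) s (n + 1) := by
      rw [LSeries, ((summable_nat_add_iff 1).1 hsum.of_norm).tsum_eq_zero_add]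
      simp
    have hzeta : ‖riemannZeta (s.re : ℂ)‖ = ∑' n : ℕ, 1 / ((n : ℝ) + 1) ^ s.re := by
      rw [zeta_eq_tsum_one_div_nat_add_one_cpow hs']
      have e : (fun n : ℕ => 1 / ((n : ℂ) + 1) ^ ((s.re : ℝ) : ℂ)) =
          fun n : ℕ => ((1 / ((n : ℝ) + 1) ^ s.re : ℝ) : ℂ) := by
        funext n
        push_cast
        rw [Complex.ofReal_cpow (by positivity)]
        push_cast
        rfl
      rw [e, ← Complex.ofReal_tsum, Complex.norm_real, Real.norm_of_nonneg]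
      exact tsum_nonneg fun n => by positivity
    rw [hL, hzeta]
    exact (norm_tsum_le_tsum_norm hsum).trans (Summable.tsum_le_tsum hle hsum h3)
  have h3 := congrArg norm h1
  rw [norm_mul, norm_one] at h3
  have h4 : 0 < s.re - 1 := by linarith
  have h5 : 0 < s.re := by linarith
  have h6 : 1 ≤ ‖LSeries (fun n => χ (n : ZMod N)) s‖ * (s.re / (s.re - 1)) := by
    exact h3.symm.le.trans (mul_le_mul_of_nonneg_left h2 (norm_nonneg _))
  rw [div_le_iff₀ h5]
  rw [← mul_div_assoc, le_div_iff₀ h4] at h6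
  linarith

/-- the consequence of Landau's lemma used for all L-functions -/
theorem lab2_core : ∃ A : ℝ, 0 < A ∧ ∀ (f : ℂ → ℂ) (s₀ : ℂ) (M : ℝ), 0 ≤ M →
    AnalyticOnNhd ℂ f (Metric.closedBall s₀ (1 / 2)) → f s₀ ≠ 0 →
    (∀ s ∈ Metric.closedBall s₀ (1 / 2), ‖f s‖ ≤ Real.exp M * ‖f s₀‖) →
    (∀ ρ, f ρ = 0 → ρ.re < s₀.re) → ∀ S : Finset ℂ, (∀ ρ ∈ S, f ρ = 0 ∧ ‖ρ - s₀‖ ≤ 1 / 4) →
      -(logDeriv f s₀).re ≤ A * (M + 1) - ∑ ρ ∈ S, (1 / (s₀ - ρ)).re := by
  obtain ⟨A, hA, hlan⟩ := landau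
  refine ⟨2 * A, by positivity, fun f s₀ M hM hf h0 hb hre S hS => ?_⟩
  obtain ⟨Z, hZ1, hZ2, hZ3⟩ := hlan f s₀ (1 / 2) M (by norm_num) hM hf h0 hb
  have h1 := hZ3 s₀ (Metric.mem_closedBall_self (by norm_num)) h0
  have hSZ : S.val ≤ Z := by
    rw [Finset.val_le_iff_val_subset]
    intro ρ hρ
    have h2 := hS ρ hρ
    exact hZ2 ρ (by linarith [h2.2]) h2.1
  obtain ⟨Z', hZ'⟩ := Multiset.le_iff_exists_add.1 hSZ
  have hpos : ∀ ρ ∈ Z, 0 ≤ (1 / (s₀ - ρ)).re := by
    intro ρ hρ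
    have h2 := hre ρ (hZ1 ρ hρ).2
    rw [one_div, Complex.inv_re, Complex.sub_re]
    apply div_nonneg (by linarith) (Complex.normSq_nonneg _)
  have hsum : ((Z.map (fun ρ => 1 / (s₀ - ρ))).sum).re =
      ∑ ρ ∈ S, (1 / (s₀ - ρ)).re + (Z'.map (fun ρ => (1 / (s₀ - ρ)).re)).sum := by
    rw [hZ', Multiset.map_add, Multiset.sum_add, Complex.add_re]
    congr 1
    · change (∑ ρ ∈ S, 1 / (s₀ - ρ)).re = _
      rw [Complex.re_sum]
    · have := (Multiset.sum_hom (Z'.map fun ρ => 1 / (s₀ - ρ)) Complex.reAddGroupHom)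
      rw [Multiset.map_map] at this
      exact this.symm
  have hZ'pos : 0 ≤ (Z'.map (fun ρ => (1 / (s₀ - ρ)).re)).sum := by
    apply Multiset.sum_nonneg
    intro x hx
    obtain ⟨ρ, hρ, rfl⟩ := Multiset.mem_map.1 hx
    exact hpos ρ (by rw [hZ']; exact Multiset.mem_add.2 (Or.inr hρ))
  have h3 : -(deriv f s₀ / f s₀ - (Z.map (fun ρ => 1 / (s₀ - ρ))).sum).re ≤
      A * (M + 1) / (1 / 2) := by
    refine le_trans ?_ h1
    have := Complex.abs_re_le_norm (deriv f s₀ / f s₀ - (Z.map (fun ρ => 1 / (s₀ - ρ))).sum)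
    linarith [neg_abs_le (deriv f s₀ / f s₀ - (Z.map (fun ρ => 1 / (s₀ - ρ))).sum).re]
  rw [Complex.sub_re, hsum] at h3
  rw [logDeriv_apply]
  have e : A * (M + 1) / (1 / 2) = 2 * A * (M + 1) := by ring
  rw [e] at h3
  linarith

/-- **Upper bound for `-Re L'/L`**, `χ ≠ 1` mod `N`, `S` any finite set of zeros near
`s₀ = σ + it`. `landau` with `f = L(·,χ)`, `R = 1/2`: on the disc `‖f‖ ≤ 2N(|t|+3)`
(`LFunction_bound`), `‖f(s₀)‖ ≥ 1/ζ(σ) ≥ (σ-1)/σ`; `LSeries (Λχ) = -f'/f`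
(`DirichletCharacter.LSeries_twist_vonMangoldt_eq`); every zero has real part `< 1`
(`DirichletCharacter.LFunction_ne_zero_of_one_le_re`), so all terms `Re 1/(s₀-ρ)` are positive and
the others can be dropped. -/
theorem re_char : ∃ C : ℝ, 0 < C ∧ ∀ (N : ℕ) [NeZero N] (χ : DirichletCharacter ℂ N), χ ≠ 1 →
    ∀ σ t : ℝ, 1 < σ → σ ≤ 5 / 4 → ∀ S : Finset ℂ,
    (∀ ρ ∈ S, χ.LFunction ρ = 0 ∧ ‖ρ - (σ + t * Complex.I)‖ ≤ 1 / 4) →
    (LSeries (fun n => (vonMangoldt n : ℂ) * χ (n : ZMod N)) (σ + t * Complex.I)).re ≤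
      C * (Real.log N + Real.log (|t| + 3) + Real.log (1 / (σ - 1)) + 1) -
        ∑ ρ ∈ S, (1 / (σ + t * Complex.I - ρ)).re := by
  obtain ⟨A, hA, hcore⟩ := lab2_core
  refine ⟨3 * A, by positivity, fun N _ χ hχ σ t h1 h2 S hS => ?_⟩
  have hN : (1 : ℝ) ≤ N := by exact_mod_cast NeZero.one_le
  set s₀ : ℂ := σ + t * Complex.I with hs₀
  have hre : s₀.re = σ := by simp [hs₀]
  have him : s₀.im = t := by simp [hs₀]
  have hs1 : 1 < s₀.re := by rw [hre]; exact h1
  have hlow := lab2_lower N χ s₀ hs1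
  rw [← DirichletCharacter.LFunction_eq_LSeries χ hs1, hre] at hlow
  have hσ0 : 0 < σ := by linarith
  have hσ1 : 0 < σ - 1 := by linarith
  have hf0 : 0 < ‖χ.LFunction s₀‖ := lt_of_lt_of_le (by positivity) hlow
  have ht : 0 ≤ |t| := abs_nonneg t
  set T : ℝ := 2 * N * (|t| + 3) * (σ / (σ - 1)) with hT
  have hq1 : 1 ≤ σ / (σ - 1) := by
    rw [le_div_iff₀ hσ1]
    linarith
  have hT1 : 1 ≤ T := by
    have e1 : 1 ≤ 2 * (N : ℝ) * (|t| + 3) := by nlinarith
    calc (1 : ℝ) = 1 * 1 := (one_mul 1).symm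
      _ ≤ T := mul_le_mul e1 hq1 zero_le_one (by positivity)
  have hb : ∀ s ∈ Metric.closedBall s₀ (1 / 2), ‖χ.LFunction s‖ ≤
      Real.exp (Real.log T) * ‖χ.LFunction s₀‖ := by
    intro s hs
    rw [Real.exp_log (by linarith)]
    rw [Metric.mem_closedBall, dist_eq_norm] at hs
    have e1 : |s.re - s₀.re| ≤ 1 / 2 := by
      have := Complex.abs_re_le_norm (s - s₀)
      rw [Complex.sub_re] at this
      linarith
    have e2 : 1 / 2 ≤ s.re := by
      rw [hre] at e1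
      linarith [(abs_le.1 e1).1]
    refine (LFunction_bound N χ hχ s e2).trans ?_
    have e3 : ‖s‖ ≤ |t| + 3 := by
      have h5 : ‖s‖ ≤ ‖s₀‖ + ‖s - s₀‖ := by
        have := norm_add_le s₀ (s - s₀)
        simpa using this
      have h6 : ‖s₀‖ ≤ σ + |t| := by
        refine (Complex.norm_le_abs_re_add_abs_im s₀).trans ?_
        rw [hre, him, abs_of_pos hσ0]
      linarith
    have e4 : 2 * (N : ℝ) * ‖s‖ ≤ 2 * N * (|t| + 3) :=
      mul_le_mul_of_nonneg_left e3 (by positivity)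
    refine e4.trans ?_
    have e5 : 1 ≤ σ / (σ - 1) * ‖χ.LFunction s₀‖ := by
      have e6 : σ / (σ - 1) * ((σ - 1) / σ) = 1 := by field_simp
      exact e6.symm.le.trans (mul_le_mul_of_nonneg_left hlow (by positivity))
    calc 2 * (N : ℝ) * (|t| + 3) = 2 * N * (|t| + 3) * 1 := (mul_one _).symm
      _ ≤ 2 * N * (|t| + 3) * (σ / (σ - 1) * ‖χ.LFunction s₀‖) :=
          mul_le_mul_of_nonneg_left e5 (by positivity)
      _ = T * ‖χ.LFunction s₀‖ := by rw [hT]; ring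
  have han : AnalyticOnNhd ℂ χ.LFunction (Metric.closedBall s₀ (1 / 2)) := fun z _ =>
    ((DirichletCharacter.differentiable_LFunction hχ).analyticAt z)
  have hzero : ∀ ρ, χ.LFunction ρ = 0 → ρ.re < s₀.re := by
    intro ρ hρ
    by_contra hcon
    push Not at hcon
    exact DirichletCharacter.LFunction_ne_zero_of_one_le_re χ (Or.inl hχ) (by linarith) hρ
  have h3 := hcore χ.LFunction s₀ (Real.log T) (Real.log_nonneg hT1) han (norm_pos_iff.1 hf0) hb
    hzero S hS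
  rw [lab1_char N χ s₀ hs1, Complex.neg_re]
  refine h3.trans ?_
  have hlogT : Real.log T = Real.log 2 + Real.log N + Real.log (|t| + 3) +
      (Real.log σ + Real.log (1 / (σ - 1))) := by
    have e1 : T = 2 * N * (|t| + 3) * (σ * (1 / (σ - 1))) := by rw [hT]; ring
    rw [e1, Real.log_mul (by positivity) (by positivity), Real.log_mul (by positivity)
      (by positivity), Real.log_mul (by positivity) (by positivity),
      Real.log_mul (by positivity) (by positivity)]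
  have l1 : Real.log 2 ≤ 1 := by linarith [Real.log_two_lt_d9]
  have l2 : Real.log σ ≤ 1 := by
    have := Real.log_le_sub_one_of_pos hσ0
    linarith
  have l3 : 0 ≤ Real.log N := Real.log_nonneg hN
  have l4 : 0 ≤ Real.log (|t| + 3) := Real.log_nonneg (by linarith)
  have l5 : 0 ≤ Real.log (1 / (σ - 1)) := by
    apply Real.log_nonneg
    rw [le_div_iff₀ hσ1]
    linarith
  have l6 : A * (Real.log T + 1) ≤ 3 * A * (Real.log N + Real.log (|t| + 3) +
      Real.log (1 / (σ - 1)) + 1) := by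
    have : Real.log T + 1 ≤ 3 * (Real.log N + Real.log (|t| + 3) +
      Real.log (1 / (σ - 1)) + 1) := by
      rw [hlogT]
      linarith
    nlinarith
  linarith

end Pool.Agent.Lib.H68T
end

-- from Lib.H68T.LAB3
section

/-!
# Chunk LAB3; part of LAB: real parts of logarithmic derivatives
-/

open Finset ArithmeticFunction

namespace Pool.Agent.Lib.H68T

theorem lab3_Z_zero (ρ : ℂ) (h : gl2_Z ρ = 0) : riemannZeta ρ = 0 := by
  have h1 : ρ ≠ 1 := by
    rintro rfl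
    rw [gl2_Z_one] at h
    exact one_ne_zero h
  rw [gl2_Z_eq ρ h1] at h
  exact (mul_eq_zero.1 h).resolve_left (sub_ne_zero.2 h1)

theorem lab3_zeta_zero (ρ : ℂ) (h : riemannZeta ρ = 0) : gl2_Z ρ = 0 := by
  have h1 : ρ ≠ 1 := by
    rintro rfl
    exact riemannZeta_ne_zero_of_one_le_re (by simp) h
  rw [gl2_Z_eq ρ h1, h, mul_zero]

/-- The same for `ζ`, with `f(s) = (s-1) ζ(s)` (value `1` at `s = 1`), `zeta_bound`,
`‖f(s₀)‖ ≥ (σ-1)²/σ`. -/
theorem re_zeta : ∃ C : ℝ, 0 < C ∧ ∀ σ t : ℝ, 1 < σ → σ ≤ 5 / 4 → ∀ S : Finset ℂ,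
    (∀ ρ ∈ S, riemannZeta ρ = 0 ∧ ‖ρ - (σ + t * Complex.I)‖ ≤ 1 / 4) →
    (LSeries (fun n => (vonMangoldt n : ℂ)) (σ + t * Complex.I)).re ≤
      (1 / (σ + t * Complex.I - 1)).re +
      C * (Real.log (|t| + 3) + Real.log (1 / (σ - 1)) + 1) -
        ∑ ρ ∈ S, (1 / (σ + t * Complex.I - ρ)).re := by
  obtain ⟨A, hA, hcore⟩ := lab2_core
  refine ⟨5 * A, by positivity, fun σ t h1 h2 S hS => ?_⟩
  set s₀ : ℂ := σ + t * Complex.I with hs₀
  have hre : s₀.re = σ := by simp [hs₀]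
  have him : s₀.im = t := by simp [hs₀]
  have hs1 : 1 < s₀.re := by rw [hre]; exact h1
  have hne1 : s₀ ≠ 1 := by
    intro h
    rw [h] at hs1
    simp at hs1
  have hσ0 : 0 < σ := by linarith
  have hσ1 : 0 < σ - 1 := by linarith
  have hlow : (σ - 1) * ((σ - 1) / σ) ≤ ‖gl2_Z s₀‖ := by
    have e1 := lab2_lower 1 1 s₀ hs1
    have e2 : LSeries (fun n => (1 : DirichletCharacter ℂ 1) (n : ZMod 1)) s₀ =
        riemannZeta s₀ := by
      rw [← DirichletCharacter.LFunction_eq_LSeries (1 : DirichletCharacter ℂ 1) hs1,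
        DirichletCharacter.LFunction_modOne_eq]
    rw [e2, hre] at e1
    rw [gl2_Z_eq s₀ hne1, norm_mul]
    refine mul_le_mul ?_ e1 (by positivity) (norm_nonneg _)
    have e3 := Complex.abs_re_le_norm (s₀ - 1)
    rw [Complex.sub_re, hre, Complex.one_re, abs_of_pos hσ1] at e3
    exact e3
  have hf0 : 0 < ‖gl2_Z s₀‖ := lt_of_lt_of_le (by positivity) hlow
  have ht : 0 ≤ |t| := abs_nonneg t
  set T : ℝ := 16 * ((|t| + 3) * (|t| + 3)) * (σ * (1 / (σ - 1)) * (1 / (σ - 1))) with hT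
  have hq0 : 1 ≤ 1 / (σ - 1) := by
    rw [le_div_iff₀ hσ1]
    linarith
  have hq1 : 1 ≤ σ * (1 / (σ - 1)) * (1 / (σ - 1)) := by
    have e1 : 1 ≤ σ * (1 / (σ - 1)) := by nlinarith
    nlinarith
  have hT1 : 1 ≤ T := by
    have e1 : 1 ≤ 16 * ((|t| + 3) * (|t| + 3)) := by nlinarith
    calc (1 : ℝ) = 1 * 1 := (one_mul 1).symm
      _ ≤ T := mul_le_mul e1 hq1 zero_le_one (by positivity)
  have hb : ∀ s ∈ Metric.closedBall s₀ (1 / 2), ‖gl2_Z s‖ ≤
      Real.exp (Real.log T) * ‖gl2_Z s₀‖ := by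
    intro s hs
    rw [Real.exp_log (by linarith)]
    rw [Metric.mem_closedBall, dist_eq_norm] at hs
    have e1 : |s.re - σ| ≤ 1 / 2 := by
      have := Complex.abs_re_le_norm (s - s₀)
      rw [Complex.sub_re, hre] at this
      linarith
    have e1' := abs_le.1 e1
    have e2 : |s.im - t| ≤ 1 / 2 := by
      have := Complex.abs_im_le_norm (s - s₀)
      rw [Complex.sub_im, him] at this
      linarith
    refine (gl2_Z_bound s (by linarith [e1'.1]) (by linarith [e1'.2])).trans ?_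
    have e3 : |s.im| ≤ |t| + 1 / 2 := by
      have := abs_sub_abs_le_abs_sub s.im t
      linarith
    have e4 : 4 * (|s.im| + 3) ^ 2 ≤ 16 * ((|t| + 3) * (|t| + 3)) := by
      have e5 : |s.im| + 3 ≤ 2 * (|t| + 3) := by linarith
      have e6 : 0 ≤ |s.im| + 3 := by positivity
      nlinarith
    refine e4.trans ?_
    have e5 : 1 ≤ (σ * (1 / (σ - 1)) * (1 / (σ - 1))) * ‖gl2_Z s₀‖ := by
      have e6 : (σ * (1 / (σ - 1)) * (1 / (σ - 1))) * ((σ - 1) * ((σ - 1) / σ)) = 1 := by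
        field_simp
      exact e6.symm.le.trans (mul_le_mul_of_nonneg_left hlow (by positivity))
    calc 16 * ((|t| + 3) * (|t| + 3)) = 16 * ((|t| + 3) * (|t| + 3)) * 1 := (mul_one _).symm
      _ ≤ 16 * ((|t| + 3) * (|t| + 3)) * ((σ * (1 / (σ - 1)) * (1 / (σ - 1))) * ‖gl2_Z s₀‖) :=
          mul_le_mul_of_nonneg_left e5 (by positivity)
      _ = T * ‖gl2_Z s₀‖ := by rw [hT]; ring
  have han : AnalyticOnNhd ℂ gl2_Z (Metric.closedBall s₀ (1 / 2)) := fun z _ =>
    gl2_Z_differentiable.analyticAt z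
  have hzero : ∀ ρ, gl2_Z ρ = 0 → ρ.re < s₀.re := by
    intro ρ hρ
    by_contra hcon
    push Not at hcon
    exact riemannZeta_ne_zero_of_one_le_re (by linarith) (lab3_Z_zero ρ hρ)
  have h3 := hcore gl2_Z s₀ (Real.log T) (Real.log_nonneg hT1) han (norm_pos_iff.1 hf0) hb
    hzero S (fun ρ hρ => ⟨lab3_zeta_zero ρ (hS ρ hρ).1, (hS ρ hρ).2⟩)
  rw [lab1_Z s₀ hs1, Complex.sub_re]
  have hlogT : Real.log T = Real.log 16 + (Real.log (|t| + 3) + Real.log (|t| + 3)) +
      (Real.log σ + Real.log (1 / (σ - 1)) + Real.log (1 / (σ - 1))) := by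
    rw [hT, Real.log_mul (by positivity) (by positivity), Real.log_mul (by positivity)
      (by positivity), Real.log_mul (by positivity) (by positivity),
      Real.log_mul (by positivity) (by positivity), Real.log_mul (by positivity) (by positivity)]
  have l1 : Real.log 16 ≤ 3 := by
    have e1 : (16 : ℝ) = 2 ^ 4 := by norm_num
    rw [e1, Real.log_pow]
    have := Real.log_two_lt_d9
    push_cast
    linarith
  have l2 : Real.log σ ≤ 1 := by
    have := Real.log_le_sub_one_of_pos hσ0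
    linarith
  have l4 : 0 ≤ Real.log (|t| + 3) := Real.log_nonneg (by linarith)
  have l5 : 0 ≤ Real.log (1 / (σ - 1)) := Real.log_nonneg hq0
  have l6 : A * (Real.log T + 1) ≤ 5 * A * (Real.log (|t| + 3) +
      Real.log (1 / (σ - 1)) + 1) := by
    have : Real.log T + 1 ≤ 5 * (Real.log (|t| + 3) +
      Real.log (1 / (σ - 1)) + 1) := by
      rw [hlogT]
      linarith
    nlinarith
  linarith

end Pool.Agent.Lib.H68T
end

-- from Lib.H68T.T341
section

/-!
# Chunk T341: positivity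
-/

open Finset ArithmeticFunction

namespace Pool.Agent.Lib.H68T

theorem T341_summable (h : ℕ → ℂ) (hh : ∀ n, ‖h n‖ ≤ 1) (s : ℂ) (hs : 1 < s.re) :
    LSeriesSummable (fun n => (vonMangoldt n : ℂ) * h n) s := by
  have h1 := (LSeriesSummable_vonMangoldt hs).norm
  refine Summable.of_norm_bounded h1 (fun n => ?_)
  rcases eq_or_ne n 0 with rfl | hn
  · simp
  · rw [LSeries.term_of_ne_zero hn, LSeries.term_of_ne_zero hn, norm_div, norm_div, norm_mul]
    have : ‖((vonMangoldt n : ℝ) : ℂ)‖ * ‖h n‖ ≤ ‖((vonMangoldt n : ℝ) : ℂ)‖ * 1 :=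
      mul_le_mul_of_nonneg_left (hh n) (norm_nonneg _)
    rw [mul_one] at this
    exact div_le_div_of_nonneg_right this (norm_nonneg _)

theorem T341_hasSum (h : ℕ → ℂ) (hh : ∀ n, ‖h n‖ ≤ 1) (σ u : ℝ) (hσ : 1 < σ) :
    HasSum (fun n : ℕ => ((vonMangoldt n : ℝ) * (n : ℝ) ^ (-σ)) *
      (h n * (n : ℂ) ^ (-(u * Complex.I))).re)
      (LSeries (fun n => (vonMangoldt n : ℂ) * h n) (σ + u * Complex.I)).re := by
  have hs : 1 < ((σ : ℂ) + u * Complex.I).re := by simpa using hσ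
  have h1 : HasSum (LSeries.term (fun n => (vonMangoldt n : ℂ) * h n) (σ + u * Complex.I))
      (LSeries (fun n => (vonMangoldt n : ℂ) * h n) (σ + u * Complex.I)) :=
    (T341_summable h hh _ hs).hasSum
  have h2 := Complex.hasSum_re h1
  convert h2 using 1
  funext n
  rcases eq_or_ne n 0 with rfl | hn
  · simp
  · rw [LSeries.term_of_ne_zero hn]
    have hn0 : (n : ℂ) ≠ 0 := by exact_mod_cast hn
    have e1 : (vonMangoldt n : ℂ) * h n / (n : ℂ) ^ ((σ : ℂ) + u * Complex.I) =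
        (((vonMangoldt n : ℝ) * (n : ℝ) ^ (-σ) : ℝ) : ℂ) * (h n * (n : ℂ) ^ (-(u * Complex.I))) := by
      rw [Complex.cpow_add _ _ hn0, Complex.cpow_neg]
      push_cast
      rw [Complex.ofReal_cpow (Nat.cast_nonneg n)]
      push_cast
      rw [Complex.cpow_neg]
      have a1 : (n : ℂ) ^ (σ : ℂ) ≠ 0 := by
        rw [Complex.cpow_ne_zero_iff]; left; exact hn0
      have a2 : (n : ℂ) ^ ((u : ℂ) * Complex.I) ≠ 0 := by
        rw [Complex.cpow_ne_zero_iff]; left; exact hn0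
      field_simp
    rw [e1, Complex.re_ofReal_mul]

theorem T341_weight_nonneg (σ : ℝ) (n : ℕ) : 0 ≤ (vonMangoldt n : ℝ) * (n : ℝ) ^ (-σ) :=
  mul_nonneg vonMangoldt_nonneg (Real.rpow_nonneg (Nat.cast_nonneg n) _)

theorem T341_alg (z : ℂ) (hz : ‖z‖ ≤ 1) : 0 ≤ 3 + 4 * z.re + (z ^ 2).re := by
  have h1 : z.re ^ 2 + z.im ^ 2 ≤ 1 := by
    have := Complex.sq_norm z
    rw [Complex.normSq_apply] at this
    have h3 : ‖z‖ ^ 2 ≤ 1 := by
      have := norm_nonneg z
      nlinarith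
    nlinarith
  have h2 : (z ^ 2).re = z.re ^ 2 - z.im ^ 2 := by
    rw [pow_two, Complex.mul_re]; ring
  rw [h2]
  nlinarith [sq_nonneg (z.re + 1)]

theorem T341_norm_cpow (n : ℕ) (u : ℝ) : ‖(n : ℂ) ^ (-((u : ℂ) * Complex.I))‖ ≤ 1 := by
  rcases eq_or_ne n 0 with rfl | hn
  · rcases eq_or_ne u 0 with rfl | hu
    · simp
    · rw [Nat.cast_zero, Complex.zero_cpow]
      · simp
      · intro h
        rw [neg_eq_zero, mul_eq_zero] at h
        rcases h with h | h
        · exact hu (by exact_mod_cast h)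
        · exact Complex.I_ne_zero h
  · have hpos : 0 < n := Nat.pos_of_ne_zero hn
    rw [Complex.norm_natCast_cpow_of_pos hpos]
    simp

theorem T341_main (h₁ h₂ : ℕ → ℂ) (hh₁ : ∀ n, ‖h₁ n‖ ≤ 1) (hh₂ : ∀ n, h₂ n = h₁ n ^ 2)
    (σ t : ℝ) (hσ : 1 < σ) :
    0 ≤ 3 * (LSeries (fun n => (vonMangoldt n : ℂ)) σ).re +
      4 * (LSeries (fun n => (vonMangoldt n : ℂ) * h₁ n) (σ + t * Complex.I)).re +
      (LSeries (fun n => (vonMangoldt n : ℂ) * h₂ n) (σ + 2 * t * Complex.I)).re := by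
  have A0 := T341_hasSum (fun _ => 1) (fun n => by simp) σ 0 hσ
  have A1 := T341_hasSum h₁ hh₁ σ t hσ
  have A2 := T341_hasSum h₂ (fun n => by
    rw [hh₂, norm_pow]
    exact pow_le_one₀ (norm_nonneg _) (hh₁ n)) σ (2 * t) hσ
  have e0 : (fun n : ℕ => (vonMangoldt n : ℂ) * (fun _ : ℕ => (1 : ℂ)) n) =
      (fun n => (vonMangoldt n : ℂ)) := by
    funext n; simp
  simp only [Complex.ofReal_zero, zero_mul, add_zero, mul_one, one_mul] at A0
  push_cast at A2
  have A := ((A0.mul_left 3).add (A1.mul_left 4)).add A2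
  refine A.nonneg (fun n => ?_)
  rcases eq_or_ne n 0 with rfl | hn
  · simp
  have hn0 : (n : ℂ) ≠ 0 := by exact_mod_cast hn
  set z : ℂ := h₁ n * (n : ℂ) ^ (-((t : ℂ) * Complex.I)) with hz
  have hz1 : ‖z‖ ≤ 1 := by
    rw [hz, norm_mul]
    exact mul_le_one₀ (hh₁ n) (norm_nonneg _) (T341_norm_cpow n t)
  have hz2 : h₂ n * (n : ℂ) ^ (-(2 * (t : ℂ) * Complex.I)) = z ^ 2 := by
    rw [hz, mul_pow, hh₂, ← Complex.cpow_nat_mul]
    congr 2
    push_cast
    ring
  have h3 := T341_alg z hz1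
  have h4 := mul_nonneg (T341_weight_nonneg σ n) h3
  have e5 : ((n : ℂ) ^ (-(0 : ℂ))).re = 1 := by simp
  simp only [hz2, e5]
  nlinarith [h4]

/-- `3 + 4 cos θ + cos 2θ ≥ 0` summed against `Λ(n) n^(-σ)`; for `(n, N) > 1` the terms are
`3 Λ(n) n^(-σ) ≥ 0`. -/
theorem three_four_one (N : ℕ) [NeZero N] (χ : DirichletCharacter ℂ N) (σ t : ℝ) (hσ : 1 < σ) :
    0 ≤ 3 * (LSeries (fun n => (vonMangoldt n : ℂ)) σ).re +
      4 * (LSeries (fun n => (vonMangoldt n : ℂ) * χ (n : ZMod N)) (σ + t * Complex.I)).re +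
      (LSeries (fun n => (vonMangoldt n : ℂ) * (χ ^ 2) (n : ZMod N))
        (σ + 2 * t * Complex.I)).re := by
  exact T341_main (fun n => χ (n : ZMod N)) (fun n => (χ ^ 2) (n : ZMod N))
    (fun n => DirichletCharacter.norm_le_one χ _)
    (fun n => MulChar.pow_apply' χ two_ne_zero _) σ t hσ

/-- The same for `ζ`. -/
theorem three_four_one_zeta (σ t : ℝ) (hσ : 1 < σ) :
    0 ≤ 3 * (LSeries (fun n => (vonMangoldt n : ℂ)) σ).re +
      4 * (LSeries (fun n => (vonMangoldt n : ℂ)) (σ + t * Complex.I)).re +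
      (LSeries (fun n => (vonMangoldt n : ℂ)) (σ + 2 * t * Complex.I)).re := by
  have h := T341_main (fun _ => 1) (fun _ => 1) (fun n => by simp) (fun n => by simp) σ t hσ
  simpa using h

theorem T341_real_value (N : ℕ) (ψ : DirichletCharacter ℂ N) (hψ : ψ ^ 2 = 1) (n : ℕ) :
    ∃ x : ℝ, -1 ≤ x ∧ x ≤ 1 ∧ ψ (n : ZMod N) = (x : ℂ) := by
  by_cases hu : IsUnit (n : ZMod N)
  · have h1 : (ψ ^ 2) (n : ZMod N) = 1 := by
      rw [hψ]; exact MulChar.one_apply hu
    rw [MulChar.pow_apply' ψ two_ne_zero] at h1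
    have h2 : ψ (n : ZMod N) = 1 ∨ ψ (n : ZMod N) = -1 := sq_eq_one_iff.mp h1
    rcases h2 with h | h
    · exact ⟨1, by norm_num, le_refl _, by rw [h]; simp⟩
    · exact ⟨-1, le_refl _, by norm_num, by rw [h]; simp⟩
  · exact ⟨0, by norm_num, by norm_num, by rw [MulChar.map_nonunit ψ hu]; simp⟩

/-- `1 + ψ(n) ≥ 0` for real `ψ`. -/
theorem one_add_real (N : ℕ) [NeZero N] (ψ : DirichletCharacter ℂ N) (hψ : ψ ^ 2 = 1) (σ : ℝ)
    (hσ : 1 < σ) :
    0 ≤ (LSeries (fun n => (vonMangoldt n : ℂ)) σ).re +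
      (LSeries (fun n => (vonMangoldt n : ℂ) * ψ (n : ZMod N)) σ).re := by
  have A0 := T341_hasSum (fun _ => 1) (fun n => by simp) σ 0 hσ
  have A1 := T341_hasSum (fun n => ψ (n : ZMod N)) (fun n => DirichletCharacter.norm_le_one ψ _)
    σ 0 hσ
  simp only [Complex.ofReal_zero, zero_mul, add_zero, mul_one, one_mul] at A0 A1
  refine (A0.add A1).nonneg (fun n => ?_)
  obtain ⟨x, hx, -, hx2⟩ := T341_real_value N ψ hψ n
  have e5 : (n : ℂ) ^ (-(0 : ℂ)) = 1 := by simp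
  have h4 := mul_nonneg (T341_weight_nonneg σ n) (by linarith : 0 ≤ 1 + x)
  simp only [e5, hx2, mul_one, Complex.ofReal_re, Complex.one_re]
  nlinarith [h4]

/-- `(1 + ψ₁(n)) (1 + ψ₂(n)) ≥ 0` for real characters; the product character has level `r₁ r₂`. -/
theorem product_real (r₁ r₂ : ℕ) [NeZero r₁] [NeZero r₂] (ψ₁ : DirichletCharacter ℂ r₁)
    (ψ₂ : DirichletCharacter ℂ r₂) (h₁ : ψ₁ ^ 2 = 1) (h₂ : ψ₂ ^ 2 = 1) (σ : ℝ) (hσ : 1 < σ) :
    0 ≤ (LSeries (fun n => (vonMangoldt n : ℂ)) σ).re +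
      (LSeries (fun n => (vonMangoldt n : ℂ) * ψ₁ (n : ZMod r₁)) σ).re +
      (LSeries (fun n => (vonMangoldt n : ℂ) * ψ₂ (n : ZMod r₂)) σ).re +
      (LSeries (fun n => (vonMangoldt n : ℂ) *
        (DirichletCharacter.changeLevel (Dvd.intro r₂ rfl) ψ₁ *
          DirichletCharacter.changeLevel (Dvd.intro_left r₁ rfl) ψ₂ :
            DirichletCharacter ℂ (r₁ * r₂)) (n : ZMod (r₁ * r₂))) σ).re := by
  set ψ₃ : DirichletCharacter ℂ (r₁ * r₂) :=
    DirichletCharacter.changeLevel (Dvd.intro r₂ rfl) ψ₁ *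
          DirichletCharacter.changeLevel (Dvd.intro_left r₁ rfl) ψ₂ with hψ₃
  have key : ∀ n : ℕ, ψ₃ (n : ZMod (r₁ * r₂)) = ψ₁ (n : ZMod r₁) * ψ₂ (n : ZMod r₂) := by
    intro n
    rw [hψ₃, MulChar.mul_apply]
    by_cases hu : IsUnit (n : ZMod (r₁ * r₂))
    · have e1 := DirichletCharacter.changeLevel_eq_cast_of_dvd ψ₁ (Dvd.intro r₂ rfl) hu.unit
      have e2 := DirichletCharacter.changeLevel_eq_cast_of_dvd ψ₂ (Dvd.intro_left r₁ rfl) hu.unit
      rw [IsUnit.unit_spec] at e1 e2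
      rw [e1, e2]
      simp [ZMod.cast_natCast]
    · rw [MulChar.map_nonunit _ hu, zero_mul]
      rw [ZMod.isUnit_iff_coprime, Nat.coprime_mul_iff_right] at hu
      rcases not_and_or.mp hu with h | h
      · rw [MulChar.map_nonunit ψ₁ (fun h' => h ((ZMod.isUnit_iff_coprime _ _).mp h')), zero_mul]
      · rw [MulChar.map_nonunit ψ₂ (fun h' => h ((ZMod.isUnit_iff_coprime _ _).mp h')), mul_zero]
  have A0 := T341_hasSum (fun _ => 1) (fun n => by simp) σ 0 hσ
  have A1 := T341_hasSum (fun n => ψ₁ (n : ZMod r₁))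
    (fun n => DirichletCharacter.norm_le_one ψ₁ _) σ 0 hσ
  have A2 := T341_hasSum (fun n => ψ₂ (n : ZMod r₂))
    (fun n => DirichletCharacter.norm_le_one ψ₂ _) σ 0 hσ
  have A3 := T341_hasSum (fun n => ψ₃ (n : ZMod (r₁ * r₂)))
    (fun n => DirichletCharacter.norm_le_one ψ₃ _) σ 0 hσ
  simp only [Complex.ofReal_zero, zero_mul, add_zero, mul_one, one_mul] at A0 A1 A2 A3
  refine (((A0.add A1).add A2).add A3).nonneg (fun n => ?_)
  obtain ⟨x, hx, -, hx2⟩ := T341_real_value r₁ ψ₁ h₁ n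
  obtain ⟨y, hy, -, hy2⟩ := T341_real_value r₂ ψ₂ h₂ n
  have e5 : (n : ℂ) ^ (-(0 : ℂ)) = 1 := by simp
  have e6 : ψ₃ (n : ZMod (r₁ * r₂)) = ((x * y : ℝ) : ℂ) := by
    rw [key, hx2, hy2]; push_cast; ring
  have h4 := mul_nonneg (T341_weight_nonneg σ n)
    (mul_nonneg (by linarith : 0 ≤ 1 + x) (by linarith : 0 ≤ 1 + y))
  simp only [e5, e6, hx2, hy2, mul_one, Complex.ofReal_re, Complex.one_re]
  nlinarith [h4]

end Pool.Agent.Lib.H68T
end

-- from Lib.H68T.RegL
section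

/-!
# Project H68T: consequences of `Reg K Q X`

Use these lemmas to absorb constants and powers: every statement of the project has the form
`∃ K, ∀ Q X, Reg K Q X → ...`; take `K` to be the sum (or maximum) of the constants you need,
and `Reg.mono`.
-/

namespace Pool.Agent.Lib.H68T

open Real

theorem Reg.mono {K K' : ℝ} {Q X : ℕ} (h : Reg K Q X) (h0 : 0 ≤ K) (hK : K' ≤ K) :
    Reg K' Q X := by
  obtain ⟨h1, h2, h3⟩ := h
  have hll : 0 ≤ log (log X) := h0.trans h1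
  have hQ : 0 ≤ log Q := by positivity
  exact ⟨hK.trans h1, (mul_le_mul_of_nonneg_right hK hll).trans h2,
    (mul_le_mul_of_nonneg_right hK (mul_nonneg hQ hll)).trans h3⟩


theorem Reg.logX_ge {K : ℝ} {Q X : ℕ} (h : Reg K Q X) (hK : 0 < K) : exp K ≤ log X := by
  have h1 : 0 < log (log X) := hK.trans_le h.1
  have h2 : 0 < log X := by
    by_contra hc
    push Not at hc
    have h3 : (0:ℝ) ≤ log X := by positivity
    have h4 : log (X:ℝ) = 0 := le_antisymm hc h3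
    rw [h4] at h1
    simp at h1
  exact (Real.le_log_iff_exp_le h2).mp h.1

theorem Reg.logX_pos {K : ℝ} {Q X : ℕ} (h : Reg K Q X) (hK : 0 < K) : 0 < log X :=
  (exp_pos K).trans_le (h.logX_ge hK)

theorem Reg.X_pos {K : ℝ} {Q X : ℕ} (h : Reg K Q X) (hK : 0 < K) : 0 < X := by
  rcases Nat.eq_zero_or_pos X with h0 | h0
  · have := h.logX_pos hK
    rw [h0] at this
    simp at this
  · exact h0

theorem Reg.logX_ge_one {K : ℝ} {Q X : ℕ} (h : Reg K Q X) (hK : 0 < K) : 1 ≤ log X := by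
  have h1 := h.logX_ge hK
  have h2 : (1:ℝ) ≤ exp K := Real.one_le_exp hK.le
  linarith

theorem Reg.X_ge {K : ℝ} {Q X : ℕ} (h : Reg K Q X) (hK : 0 < K) : K ≤ X := by
  have h1 := h.logX_ge hK
  have h2 : K + 1 ≤ exp K := Real.add_one_le_exp K
  have h3 : log X ≤ X := (Real.log_le_sub_one_of_pos (by exact_mod_cast h.X_pos hK)).trans
    (by linarith)
  linarith


theorem Reg.logQ_ge {K : ℝ} {Q X : ℕ} (h : Reg K Q X) (hK : 1 ≤ K) : K ≤ log Q := by
  have h1 : 1 ≤ log (log X) := hK.trans h.1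
  have := h.2.1
  nlinarith

theorem Reg.Q_ge {K : ℝ} {Q X : ℕ} (h : Reg K Q X) (hK : 1 ≤ K) : K ≤ Q := by
  have h1 := h.logQ_ge hK
  have h3 : log Q ≤ Q := by
    rcases Nat.eq_zero_or_pos Q with h0 | h0
    · rw [h0]; simp
    · exact (Real.log_le_sub_one_of_pos (by exact_mod_cast h0)).trans (by linarith)
  linarith

theorem Reg.Q_pos {K : ℝ} {Q X : ℕ} (h : Reg K Q X) (hK : 1 ≤ K) : 0 < Q := by
  have h1 := h.Q_ge hK
  have h2 : (0:ℝ) < Q := by linarith
  exact_mod_cast h2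

/-- `K log Q ≤ log X` -/
theorem Reg.logQ_le {K : ℝ} {Q X : ℕ} (h : Reg K Q X) (hK : 1 ≤ K) : K * log Q ≤ log X := by
  have h1 : 1 ≤ log (log X) := hK.trans h.1
  have h2 := h.logQ_ge hK
  have h3 := h.2.2
  have h4 : K * log Q ≤ K * (log Q * log (log X)) := by
    apply mul_le_mul_of_nonneg_left _ (by linarith)
    nlinarith
  linarith

/-- Absorb constants and powers of `log X` into a power of `Q`. -/
theorem reg_log_le (C A ε : ℝ) (hε : 0 < ε) : ∃ K : ℝ, 1 ≤ K ∧ ∀ Q X : ℕ, Reg K Q X →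
    C * (log X) ^ A ≤ (Q : ℝ) ^ ε := by
  refine ⟨1 + |A| / ε + (1 + |C|) / ε, by
    have : 0 ≤ |A| / ε := by positivity
    have : 0 ≤ (1 + |C|) / ε := by positivity
    linarith, fun Q X h => ?_⟩
  set K := 1 + |A| / ε + (1 + |C|) / ε with hKdef
  have hA : 0 ≤ |A| / ε := by positivity
  have hC : 0 ≤ (1 + |C|) / ε := by positivity
  have hK : 1 ≤ K := by rw [hKdef]; linarith
  have hK0 : 0 < K := by linarith
  have hlX := h.logX_pos hK0
  have hll : 1 ≤ log (log X) := hK.trans h.1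
  have hQ : (0:ℝ) < Q := by exact_mod_cast h.Q_pos hK
  rcases le_or_gt C 0 with hC0 | hC0
  · have : C * (log X) ^ A ≤ 0 :=
      mul_nonpos_of_nonpos_of_nonneg hC0 (Real.rpow_nonneg hlX.le _)
    exact this.trans (Real.rpow_nonneg hQ.le _)
  rw [Real.rpow_def_of_pos hlX, Real.rpow_def_of_pos hQ]
  have h1 : C ≤ exp (log (log X) * (1 + |C|)) := by
    have : C ≤ exp C := by linarith [Real.add_one_le_exp C]
    refine this.trans (Real.exp_le_exp.mpr ?_)
    have : C ≤ |C| := le_abs_self C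
    nlinarith [abs_nonneg C]
  calc C * exp (log (log X) * A) ≤ exp (log (log X) * (1 + |C|)) * exp (log (log X) * A) :=
        mul_le_mul_of_nonneg_right h1 (exp_pos _).le
    _ = exp (log (log X) * (1 + |C| + A)) := by rw [← Real.exp_add]; ring_nf
    _ ≤ exp (log Q * ε) := by
        apply Real.exp_le_exp.mpr
        have h2 : K * log (log X) ≤ log Q := h.2.1
        have h3 : (1 + |C| + A) ≤ K * ε := by
          rw [hKdef]
          have e1 : |A| / ε * ε = |A| := div_mul_cancel₀ _ hε.ne'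
          have e2 : (1 + |C|) / ε * ε = 1 + |C| := div_mul_cancel₀ _ hε.ne'
          have : A ≤ |A| := le_abs_self A
          nlinarith
        calc log (log X) * (1 + |C| + A) ≤ log (log X) * (K * ε) :=
              mul_le_mul_of_nonneg_left h3 (by linarith)
          _ = (K * log (log X)) * ε := by ring
          _ ≤ log Q * ε := mul_le_mul_of_nonneg_right h2 hε.le

/-- Absorb constants and powers of `Q` into a power of `X`. -/
theorem reg_pow_le (C A ε : ℝ) (hε : 0 < ε) : ∃ K : ℝ, 1 ≤ K ∧ ∀ Q X : ℕ, Reg K Q X →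
    C * (Q : ℝ) ^ A ≤ (X : ℝ) ^ ε := by
  refine ⟨1 + |A| / ε + (1 + |C|) / ε, by
    have : 0 ≤ |A| / ε := by positivity
    have : 0 ≤ (1 + |C|) / ε := by positivity
    linarith, fun Q X h => ?_⟩
  set K := 1 + |A| / ε + (1 + |C|) / ε with hKdef
  have hA : 0 ≤ |A| / ε := by positivity
  have hC : 0 ≤ (1 + |C|) / ε := by positivity
  have hK : 1 ≤ K := by rw [hKdef]; linarith
  have hK0 : 0 < K := by linarith
  have hQ : (0:ℝ) < Q := by exact_mod_cast h.Q_pos hK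
  have hX : (0:ℝ) < X := by exact_mod_cast h.X_pos hK0
  have hlQ : 1 ≤ log Q := hK.trans (h.logQ_ge hK)
  rcases le_or_gt C 0 with hC0 | hC0
  · have : C * (Q:ℝ) ^ A ≤ 0 :=
      mul_nonpos_of_nonpos_of_nonneg hC0 (Real.rpow_nonneg hQ.le _)
    exact this.trans (Real.rpow_nonneg hX.le _)
  rw [Real.rpow_def_of_pos hQ, Real.rpow_def_of_pos hX]
  have h1 : C ≤ exp (log Q * (1 + |C|)) := by
    have : C ≤ exp C := by linarith [Real.add_one_le_exp C]
    refine this.trans (Real.exp_le_exp.mpr ?_)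
    have : C ≤ |C| := le_abs_self C
    nlinarith [abs_nonneg C]
  calc C * exp (log Q * A) ≤ exp (log Q * (1 + |C|)) * exp (log Q * A) :=
        mul_le_mul_of_nonneg_right h1 (exp_pos _).le
    _ = exp (log Q * (1 + |C| + A)) := by rw [← Real.exp_add]; ring_nf
    _ ≤ exp (log X * ε) := by
        apply Real.exp_le_exp.mpr
        have h2 : K * log Q ≤ log X := h.logQ_le hK
        have h3 : (1 + |C| + A) ≤ K * ε := by
          rw [hKdef]
          have e1 : |A| / ε * ε = |A| := div_mul_cancel₀ _ hε.ne'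
          have e2 : (1 + |C|) / ε * ε = 1 + |C| := div_mul_cancel₀ _ hε.ne'
          have : A ≤ |A| := le_abs_self A
          nlinarith
        calc log Q * (1 + |C| + A) ≤ log Q * (K * ε) :=
              mul_le_mul_of_nonneg_left h3 (by linarith)
          _ = (K * log Q) * ε := by ring
          _ ≤ log X * ε := mul_le_mul_of_nonneg_right h2 hε.le

/-- The saving of the zero-free region: `C (log X)^A exp (-c log X / log Q) ≤ 1`. -/
theorem reg_exp_le (C A c : ℝ) (hc : 0 < c) : ∃ K : ℝ, 1 ≤ K ∧ ∀ Q X : ℕ, Reg K Q X →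
    C * (log X) ^ A * exp (-(c * (log X / log Q))) ≤ 1 := by
  refine ⟨1 + |A| / c + (1 + |C|) / c, by
    have : 0 ≤ |A| / c := by positivity
    have : 0 ≤ (1 + |C|) / c := by positivity
    linarith, fun Q X h => ?_⟩
  set K := 1 + |A| / c + (1 + |C|) / c with hKdef
  have hA : 0 ≤ |A| / c := by positivity
  have hC : 0 ≤ (1 + |C|) / c := by positivity
  have hK : 1 ≤ K := by rw [hKdef]; linarith
  have hK0 : 0 < K := by linarith
  have hlX := h.logX_pos hK0
  have hll : 1 ≤ log (log X) := hK.trans h.1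
  have hlQ : 1 ≤ log Q := hK.trans (h.logQ_ge hK)
  rcases le_or_gt C 0 with hC0 | hC0
  · have h1 : C * (log X) ^ A ≤ 0 :=
      mul_nonpos_of_nonpos_of_nonneg hC0 (Real.rpow_nonneg hlX.le _)
    have h2 := mul_nonpos_of_nonpos_of_nonneg h1 (exp_pos (-(c * (log X / log Q)))).le
    linarith
  have h1 : C ≤ exp (log (log X) * (1 + |C|)) := by
    have : C ≤ exp C := by linarith [Real.add_one_le_exp C]
    refine this.trans (Real.exp_le_exp.mpr ?_)
    have : C ≤ |C| := le_abs_self C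
    nlinarith [abs_nonneg C]
  rw [Real.rpow_def_of_pos hlX]
  calc C * exp (log (log X) * A) * exp (-(c * (log X / log Q)))
      ≤ exp (log (log X) * (1 + |C|)) * exp (log (log X) * A) * exp (-(c * (log X / log Q))) := by
        gcongr
    _ = exp (log (log X) * (1 + |C| + A) - c * (log X / log Q)) := by
        rw [← Real.exp_add, ← Real.exp_add]; ring_nf
    _ ≤ exp 0 := by
        apply Real.exp_le_exp.mpr
        have h2 : K * log (log X) ≤ log X / log Q := by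
          rw [le_div_iff₀ (by linarith)]
          have := h.2.2
          linarith [mul_comm (log Q) (log (log X)), mul_assoc K (log (log X)) (log Q)]
        have h3 : (1 + |C| + A) ≤ K * c := by
          rw [hKdef]
          have e1 : |A| / c * c = |A| := div_mul_cancel₀ _ hc.ne'
          have e2 : (1 + |C|) / c * c = 1 + |C| := div_mul_cancel₀ _ hc.ne'
          have : A ≤ |A| := le_abs_self A
          nlinarith
        have h4 : log (log X) * (1 + |C| + A) ≤ log (log X) * (K * c) :=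
          mul_le_mul_of_nonneg_left h3 (by linarith)
        have h5 : (K * log (log X)) * c ≤ (log X / log Q) * c :=
          mul_le_mul_of_nonneg_right h2 hc.le
        nlinarith
    _ = 1 := Real.exp_zero

end Pool.Agent.Lib.H68T
end

-- from Lib.H68T.ZF1
section

/-!
# Chunk ZF1; part of ZF1, ZF2, ZF3: zero-free regions
(`L := log Q`; all `log N, log(|t|+3), log(1/(σ-1))` in `re_char` are `O(L)` for `N ≤ Q^2`,
`|t| ≤ 2 Q^12 + 2`, `σ = 1 + a/L`.)
-/

open Finset ArithmeticFunction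

namespace Pool.Agent.Lib.H68T

/-- Bracket estimate: everything in `re_char` and `re_zeta` is `O(log Q)`. -/
theorem ZF1_bracket (a : ℝ) (ha : 0 < a) : ∃ K : ℝ, ∀ Q : ℕ, K ≤ Q →
    1 ≤ Real.log Q ∧ 8 * a ≤ Real.log Q ∧
    (∀ N : ℕ, 1 ≤ N → N ≤ Q → ∀ t : ℝ, |t| ≤ 2 * ((Q : ℝ) ^ 12 + 1) →
      Real.log N + Real.log (|t| + 3) +
        Real.log (1 / (1 + a / Real.log Q - 1)) + 1 ≤ 17 * Real.log Q) := by
  refine ⟨Real.exp (1 + 8 * a + |Real.log a|) + 3, fun Q hQ => ?_⟩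
  have h0 : 0 < Real.exp (1 + 8 * a + |Real.log a|) := Real.exp_pos _
  have hQ3 : (3 : ℝ) ≤ Q := by linarith
  have hQ0 : (0 : ℝ) < Q := by linarith
  have hL : 1 + 8 * a + |Real.log a| ≤ Real.log Q := by
    rw [Real.le_log_iff_exp_le hQ0]; linarith
  have habs := abs_nonneg (Real.log a)
  have hL1 : 1 ≤ Real.log Q := by linarith
  have hL0 : 0 < Real.log Q := by linarith
  refine ⟨hL1, by linarith, fun N hN1 hNQ t ht => ?_⟩
  have h1 : Real.log N ≤ Real.log Q :=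
    Real.log_le_log (by exact_mod_cast hN1) (by exact_mod_cast hNQ)
  have h2 : Real.log (|t| + 3) ≤ 13 * Real.log Q := by
    have e1 : |t| + 3 ≤ (Q : ℝ) ^ 13 := by
      have e2 : (1 : ℝ) ≤ (Q : ℝ) ^ 12 := one_le_pow₀ (by linarith)
      have e3 : (Q : ℝ) ^ 13 = (Q : ℝ) ^ 12 * Q := by ring
      rw [e3]
      have e4 : (Q : ℝ) ^ 12 * 3 ≤ (Q : ℝ) ^ 12 * Q :=
        mul_le_mul_of_nonneg_left hQ3 (by positivity)
      have e5 : (5 : ℝ) ≤ (Q : ℝ) ^ 12 := by
        have : (3 : ℝ) ^ 12 ≤ (Q : ℝ) ^ 12 := pow_le_pow_left₀ (by norm_num) hQ3 12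
        norm_num at this
        linarith
      linarith
    have e6 := Real.log_le_log (by positivity : 0 < |t| + 3) e1
    rw [Real.log_pow] at e6
    push_cast at e6
    linarith
  have h3 : Real.log (1 / (1 + a / Real.log Q - 1)) ≤ 2 * Real.log Q := by
    have e1 : 1 / (1 + a / Real.log Q - 1) = Real.log Q / a := by
      rw [add_sub_cancel_left, one_div, inv_div]
    rw [e1, Real.log_div hL0.ne' ha.ne']
    have e2 : Real.log (Real.log Q) ≤ Real.log Q := by
      have := Real.log_le_sub_one_of_pos hL0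
      linarith
    have e3 : -Real.log a ≤ |Real.log a| := neg_le_abs _
    linarith
  linarith

/-- **ZF1**, complex characters. `ρ = β + iγ` a zero, suppose `β ≥ 1 - c₁/L`, `σ = 1 + a/L`.
`three_four_one` at `t = γ`, `vonMangoldt_le`, `re_char` for `ψ` with `S = {ρ}` and for
`ψ² ≠ 1` with `S = ∅`: `0 ≤ 3 L/a + C' L - 4 L/(a + c₁)`, i.e. `4/(a + c₁) ≤ 3/a + C'`, false for
`a = 1/(2C')`, `c₁ = a/8` (`3/a + C' = 3.5/a`). -/
theorem zero_free_complex : ∃ c₁ K : ℝ, 0 < c₁ ∧ ∀ Q : ℕ, K ≤ Q → ∀ (r : ℕ) [NeZero r]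
    (ψ : DirichletCharacter ℂ r), r ≤ Q → ψ ^ 2 ≠ 1 → ∀ ρ : ℂ, ψ.LFunction ρ = 0 →
    |ρ.im| ≤ (Q : ℝ) ^ 12 + 1 → ρ.re < 1 - c₁ / Real.log Q := by
  obtain ⟨Cv, hCv, hv⟩ := vonMangoldt_le
  obtain ⟨Cc, hCc, hc⟩ := re_char
  set C' : ℝ := 3 * Cv + 85 * Cc with hC'
  have hC'0 : 0 < C' := by positivity
  set a : ℝ := 1 / (2 * C') with ha
  have ha0 : 0 < a := by positivity
  have haC : a * C' = 1 / 2 := by rw [ha]; field_simp
  obtain ⟨K, hK⟩ := ZF1_bracket a ha0
  refine ⟨a / 8, K, by positivity, fun Q hQ r _ ψ hr hψ ρ hρ him => ?_⟩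
  obtain ⟨hL1, hL8, hbr⟩ := hK Q hQ
  set L : ℝ := Real.log Q with hLdef
  have hL0 : 0 < L := by linarith
  by_contra hcon
  push Not at hcon
  have hψ1 : ψ ≠ 1 := by
    rintro rfl
    exact hψ (one_pow 2)
  have hβ1 : ρ.re < 1 := by
    by_contra h
    push Not at h
    exact DirichletCharacter.LFunction_ne_zero_of_one_le_re ψ (Or.inl hψ1) h hρ
  set σ : ℝ := 1 + a / L with hσ
  have haL : 0 < a / L := by positivity
  have haL8 : a / L ≤ 1 / 8 := by
    rw [div_le_iff₀ hL0]; linarith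
  have hσ1 : 1 < σ := by linarith
  have hσ2 : σ ≤ 5 / 4 := by linarith
  have hc8 : a / 8 / L = a / L / 8 := by ring
  rw [hc8] at hcon
  have hr1 : 1 ≤ r := Nat.one_le_iff_ne_zero.mpr (NeZero.ne r)
  have e0 : (σ : ℂ) + ρ.im * Complex.I - ρ = ((σ - ρ.re : ℝ) : ℂ) := by
    apply Complex.ext <;> simp
  -- the three terms
  have T0 := hv σ hσ1 (by linarith)
  have T1 := hc r ψ hψ1 σ ρ.im hσ1 hσ2 {ρ} (by
    intro ρ' hρ'
    rw [Finset.mem_singleton] at hρ'
    subst hρ'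
    refine ⟨hρ, ?_⟩
    rw [norm_sub_rev, e0, Complex.norm_real, Real.norm_eq_abs, abs_of_pos (by linarith)]
    linarith)
  rw [Finset.sum_singleton, e0] at T1
  have e1 : (1 / ((σ - ρ.re : ℝ) : ℂ)).re = 1 / (σ - ρ.re) := by
    rw [← Complex.ofReal_one, ← Complex.ofReal_div, Complex.ofReal_re]
  rw [e1] at T1
  have T2 := hc r (ψ ^ 2) hψ σ (2 * ρ.im) hσ1 hσ2 ∅ (by simp)
  rw [Finset.sum_empty] at T2
  have T3 := three_four_one r ψ σ ρ.im hσ1
  have B1 := hbr r hr1 hr ρ.im (by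
    have := abs_nonneg ρ.im
    linarith)
  have B2 := hbr r hr1 hr (2 * ρ.im) (by
    rw [abs_mul, abs_of_pos (by norm_num : (0 : ℝ) < 2)]
    linarith)
  have B1' := mul_le_mul_of_nonneg_left B1 hCc.le
  have B2' := mul_le_mul_of_nonneg_left B2 hCc.le
  push_cast at T2
  have e2 : 1 / (σ - 1) = L / a := by
    rw [hσ, add_sub_cancel_left, one_div, inv_div]
  rw [e2] at T0
  have e3 : L / (9 * a / 8) ≤ 1 / (σ - ρ.re) := by
    rw [div_le_div_iff₀ (by positivity) (by linarith)]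
    have : L * (a / L) = a := by field_simp
    have h5 : L * (σ - ρ.re) ≤ L * (9 * (a / L) / 8) :=
      mul_le_mul_of_nonneg_left (by linarith) hL0.le
    have h6 : L * (9 * (a / L) / 8) = 9 * a / 8 := by
      rw [show L * (9 * (a / L) / 8) = 9 * (L * (a / L)) / 8 by ring, this]
    linarith
  have e4 : L / (9 * a / 8) = (8 / 9) * (L / a) := by
    field_simp
  rw [e4] at e3
  have e5 : C' * L = (L / a) / 2 := by
    have : C' = 1 / (2 * a) := by
      rw [eq_div_iff (by positivity)]; linarith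
    rw [this]; field_simp
  have hLa : 0 < L / a := by positivity
  have hCvL : Cv ≤ Cv * L := le_mul_of_one_le_right hCv.le hL1
  have : 0 ≤ 3 * (L / a) + C' * L - 4 * (8 / 9 * (L / a)) := by
    rw [hC']
    linarith
  rw [e5] at this
  linarith

end Pool.Agent.Lib.H68T
end

-- from Lib.H68T.INVS
section

/-!
# Statements of the zero-free region part (chunks INV, INVZ), used by MS and PNTE
-/

open Finset

namespace Pool.Agent.Lib.H68T

/-- Control of `1/L(s, ψ)` in the rectangle `Rg c' Q`: there is `g`, analytic on the rectangle and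
bounded there by `C log Q`, equal to the Dirichlet series of `μ ψ` for `Re s > 1`. -/
def InvStmt (c' C : ℝ) (Q : ℕ) (p : Σ r : ℕ, DirichletCharacter ℂ r) : Prop :=
  ∃ g : ℂ → ℂ, AnalyticOnNhd ℂ g (Rg c' Q) ∧
    (∀ s : ℂ, 1 < s.re → g s = LSeries (fun n => (ArithmeticFunction.moebius n : ℂ) *
      p.2 (n : ZMod p.1)) s) ∧ ∀ s ∈ Rg c' Q, ‖g s‖ ≤ C * Real.log Q

/-- Control of `-ζ'/ζ(s) - 1/(s-1)` in the rectangle. -/
def ZetaStmt (c' C : ℝ) (Q : ℕ) : Prop :=
  ∃ g : ℂ → ℂ, AnalyticOnNhd ℂ g (Rg c' Q) ∧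
    (∀ s : ℂ, 1 < s.re → g s = LSeries (fun n => (ArithmeticFunction.vonMangoldt n : ℂ)) s -
      1 / (s - 1)) ∧ ∀ s ∈ Rg c' Q, ‖g s‖ ≤ C * Real.log Q

end Pool.Agent.Lib.H68T
end

-- from Lib.H68X.XDefs
section

/-!
# Project H68X: exceptional zeros included (definitions)

All statements of this project are about the same objects as in `Lib/H68T`; errors are measured
by `sw K Q X = exp (-log X/(K log Q)) + Q^(-1/K)`.
-/

open Finset

namespace Pool.Agent.Lib.H68T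

noncomputable section


/-- `β` is a real zero, close to `1`, of the real primitive character `ψ ≠ 1` of conductor
`r ≤ Q`. -/
def Exc (c : ℝ) (Q r : ℕ) [NeZero r] (ψ : DirichletCharacter ℂ r) (β : ℝ) : Prop :=
  r ≤ Q ∧ ψ.IsPrimitive ∧ ψ ≠ 1 ∧ ψ ^ 2 = 1 ∧ 1 - c / Real.log Q ≤ β ∧ β < 1 ∧
    ψ.LFunction (β : ℂ) = 0

/-- As `InvStmt`, only for `|Im s| ≥ 1`. -/
def InvHigh (c' C : ℝ) (Q : ℕ) (p : Σ r : ℕ, DirichletCharacter ℂ r) : Prop :=
  ∃ g : ℂ → ℂ, AnalyticOnNhd ℂ g (Rg c' Q ∩ {s | 1 ≤ |s.im|}) ∧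
    (∀ s : ℂ, 1 < s.re → g s = LSeries (fun n => (ArithmeticFunction.moebius n : ℂ) *
      p.2 (n : ZMod p.1)) s) ∧ ∀ s ∈ Rg c' Q, 1 ≤ |s.im| → ‖g s‖ ≤ C * Real.log Q

/-- Control of `-L'/L(s,ψ) + 1/(s-β)` in the rectangle. -/
def LogStmt (c' C : ℝ) (Q : ℕ) (p : Σ r : ℕ, DirichletCharacter ℂ r) (β : ℝ) : Prop :=
  ∃ g : ℂ → ℂ, AnalyticOnNhd ℂ g (Rg c' Q) ∧
    (∀ s : ℂ, 1 < s.re → g s = LSeries (fun n => (ArithmeticFunction.vonMangoldt n : ℂ) *
      p.2 (n : ZMod p.1)) s + 1 / (s - β)) ∧ ∀ s ∈ Rg c' Q, ‖g s‖ ≤ C * Real.log Q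


/-- `∑ m^(β-1) v(m) m^(-1-it)` -/
def Fb (X : ℕ) (β t : ℝ) : ℂ := FF X (fun m => (((m : ℝ) ^ (β - 1) : ℝ) : ℂ)) t



/-- `∑_{w ∣ W, w q ≤ Q} μ²(w)/φ(w)` -/
def TW (Q W q : ℕ) : ℝ :=
  ∑ w ∈ W.divisors.filter (fun w => w * q ≤ Q),
    (ArithmeticFunction.moebius w : ℝ) ^ 2 / (Nat.totient w : ℝ)






end

/-! ## Monotonicity -/

theorem Rg_mono {c c' : ℝ} {Q : ℕ} (h : c ≤ c') : Rg c Q ⊆ Rg c' Q := by
  rintro s ⟨h1, h2, h3⟩
  refine ⟨?_, h2, h3⟩
  have : c / Real.log Q ≤ c' / Real.log Q := div_le_div_of_nonneg_right h (by positivity)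
  linarith

theorem InvStmt.mono {c c' C C' : ℝ} {Q : ℕ} {p : Σ r : ℕ, DirichletCharacter ℂ r}
    (h : InvStmt c' C Q p) (hc : c ≤ c') (hC : C ≤ C') : InvStmt c C' Q p := by
  obtain ⟨g, h1, h2, h3⟩ := h
  refine ⟨g, h1.mono (Rg_mono hc), h2, fun s hs => (h3 s (Rg_mono hc hs)).trans ?_⟩
  exact mul_le_mul_of_nonneg_right hC (by positivity)

theorem InvHigh.mono {c c' C C' : ℝ} {Q : ℕ} {p : Σ r : ℕ, DirichletCharacter ℂ r}
    (h : InvHigh c' C Q p) (hc : c ≤ c') (hC : C ≤ C') : InvHigh c C' Q p := by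
  obtain ⟨g, h1, h2, h3⟩ := h
  refine ⟨g, h1.mono (Set.inter_subset_inter_left _ (Rg_mono hc)), h2, fun s hs hi =>
    (h3 s (Rg_mono hc hs) hi).trans ?_⟩
  exact mul_le_mul_of_nonneg_right hC (by positivity)

theorem LogStmt.mono {c c' C C' : ℝ} {Q : ℕ} {p : Σ r : ℕ, DirichletCharacter ℂ r} {β : ℝ}
    (h : LogStmt c' C Q p β) (hc : c ≤ c') (hC : C ≤ C') : LogStmt c C' Q p β := by
  obtain ⟨g, h1, h2, h3⟩ := h
  refine ⟨g, h1.mono (Rg_mono hc), h2, fun s hs => (h3 s (Rg_mono hc hs)).trans ?_⟩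
  exact mul_le_mul_of_nonneg_right hC (by positivity)


theorem Good.mono {c c' : ℝ} {Q : ℕ} (h : Good c' Q) (hc : c ≤ c') : Good c Q := by
  intro r _ ψ hr h1 h2 h3 σ hσ hσ1
  refine h r ψ hr h1 h2 h3 σ (le_trans ?_ hσ) hσ1
  have : c / Real.log Q ≤ c' / Real.log Q := div_le_div_of_nonneg_right hc (by positivity)
  linarith

theorem Exc.mono {c c' : ℝ} {Q r : ℕ} [NeZero r] {ψ : DirichletCharacter ℂ r} {β : ℝ}
    (h : Exc c Q r ψ β) (hc : c ≤ c') : Exc c' Q r ψ β := by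
  obtain ⟨h1, h2, h3, h4, h5, h6, h7⟩ := h
  refine ⟨h1, h2, h3, h4, le_trans ?_ h5, h6, h7⟩
  have : c / Real.log Q ≤ c' / Real.log Q := div_le_div_of_nonneg_right hc (by positivity)
  linarith







end Pool.Agent.Lib.H68T
end

-- from Lib.H68X.XRL
section

/-!
# Chunk XRL: a zero close to `1` makes `L(1,ψ)` small
-/

open Finset

namespace Pool.Agent.Lib.H68T

/-- summation by parts, split at `K` -/
theorem XRL_split (r : ℕ) [NeZero r] (ψ : DirichletCharacter ℂ r) (hψ : ψ ≠ 1) (s : ℂ)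
    (hs : 0 < s.re) (K : ℕ) :
    ψ.LFunction s = ∑ n ∈ range K, ψ ((n + 1 : ℕ) : ZMod r) * (((n : ℝ) + 1 : ℝ) : ℂ) ^ (-s)
      - gl1_T ψ K * (((K : ℝ) + 1 : ℝ) : ℂ) ^ (-s) + ∑' n, gl1_A ψ (n + K) s := by
  have hsum := (gl1_tele s.re hs (r * ‖s‖ / s.re) (by positivity) (fun n => gl1_A ψ n s)
    (fun n => gl1_A_norm r ψ hψ n s hs)).1
  rw [gl1_eqOn r ψ hψ s hs, ← hsum.sum_add_tsum_nat_add K]
  have h9 := gl1_parts ψ (fun n => (((n : ℝ) + 1 : ℝ) : ℂ) ^ (-s)) K
  have h10 : ∀ n : ℕ, gl1_T ψ (n + 1) * ((((n : ℝ) + 1 : ℝ) : ℂ) ^ (-s) -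
      ((((n + 1 : ℕ) : ℝ) + 1 : ℝ) : ℂ) ^ (-s)) = gl1_A ψ n s := by
    intro n
    rw [gl1_A]
    congr 3
    push_cast
    ring_nf
  simp only [h10] at h9
  rw [h9]
  ring

/-- telescoping tail -/
theorem XRL_tele (σ : ℝ) (D : ℝ) (hD : 0 ≤ D) (K : ℕ) (f : ℕ → ℂ)
    (hf : ∀ n : ℕ, ‖f n‖ ≤ D * ((((n + K : ℕ) : ℝ) + 1) ^ (-σ) -
      (((n + K : ℕ) : ℝ) + 2) ^ (-σ))) :
    ‖∑' n, f n‖ ≤ D * ((K : ℝ) + 1) ^ (-σ) := by
  have hsum : ∀ M : ℕ, ∑ n ∈ range M, ‖f n‖ ≤ D * ((K : ℝ) + 1) ^ (-σ) := by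
    intro M
    have h1 : ∑ n ∈ range M, ‖f n‖ ≤
        D * (((K : ℝ) + 1) ^ (-σ) - (((M + K : ℕ) : ℝ) + 1) ^ (-σ)) := by
      induction M with
      | zero => simp
      | succ M ih =>
        rw [sum_range_succ]
        have h2 := hf M
        have e : (((M + 1 + K : ℕ) : ℝ) + 1) = ((M + K : ℕ) : ℝ) + 2 := by
          push_cast
          ring
        rw [e]
        linarith
    have h3 : 0 ≤ (((M + K : ℕ) : ℝ) + 1) ^ (-σ) := Real.rpow_nonneg (by positivity) _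
    nlinarith
  have hs : Summable fun n => ‖f n‖ := summable_of_sum_range_le (fun n => norm_nonneg _) hsum
  refine (norm_tsum_le_tsum_norm hs).trans ?_
  exact hs.tsum_le_of_sum_range_le hsum

/-- powers of `n ≤ r` near `1` -/
theorem XRL_pow (r : ℕ) (hr : 100 ≤ r) (σ : ℝ) (hσ : 1 - 2 / Real.log r ≤ σ) (x : ℝ)
    (hx1 : 1 ≤ x) (hxr : x ≤ r) : x ^ (-σ) ≤ Real.exp 2 * x⁻¹ := by
  have hr1 : (1 : ℝ) < r := by
    have : (100 : ℝ) ≤ r := by exact_mod_cast hr
    linarith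
  have hlog : 0 < Real.log r := Real.log_pos hr1
  have hx0 : 0 < x := by linarith
  have h1 : x ^ (-σ) ≤ x ^ (2 / Real.log r - 1) :=
    Real.rpow_le_rpow_of_exponent_le hx1 (by linarith)
  refine h1.trans ?_
  rw [Real.rpow_sub hx0, Real.rpow_one, div_eq_mul_inv]
  refine mul_le_mul_of_nonneg_right ?_ (by positivity)
  have h2 : x ^ (2 / Real.log r) ≤ (r : ℝ) ^ (2 / Real.log r) :=
    Real.rpow_le_rpow hx0.le hxr (by positivity)
  refine h2.trans ?_
  rw [Real.rpow_def_of_pos (by linarith)]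
  apply Real.exp_le_exp.2
  rw [mul_div_cancel₀ _ hlog.ne']

theorem XRL_harm (r : ℕ) : ∑ n ∈ range r, (((n : ℝ) + 1))⁻¹ ≤ 1 + Real.log r := by
  have h := harmonic_le_one_add_log r
  have e : ((harmonic r : ℚ) : ℝ) = ∑ n ∈ range r, (((n : ℝ) + 1))⁻¹ := by
    rw [harmonic]
    push_cast
    rfl
  rw [← e]
  exact h

/-- `‖L(s,ψ)‖ ≤ C log r` for `|s - 1| ≤ 2/log r`, `ψ ≠ 1` mod `r`, `r ≥ 100`: for `Re s > 1`, and then by
analytic continuation for `Re s > 0` (cf. `LFunction_bound` in `H68T/GL1.lean`),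
`L(s) = ∑_{n ≤ r} ψ(n) n^(-s) + s ∫_r^∞ (S(u) - S(r)) u^(-s-1) du`, `S(u) = ∑_{n ≤ u} ψ(n)`,
`|S(u) - S(r)| ≤ r`; `|n^(-s)| ≤ e²/n` for `n ≤ r`, and the integral is at most
`r r^(-σ)/σ ≤ 2 e²`. -/
theorem LFunction_near_one : ∃ C : ℝ, 0 < C ∧ ∀ (r : ℕ) [NeZero r]
    (ψ : DirichletCharacter ℂ r), 100 ≤ r → ψ ≠ 1 → ∀ s : ℂ, ‖s - 1‖ ≤ 2 / Real.log r →
    ‖ψ.LFunction s‖ ≤ C * Real.log r := by
  refine ⟨6 * Real.exp 2, by positivity, fun r _ ψ hr hψ s hs => ?_⟩
  have hrR : (100 : ℝ) ≤ r := by exact_mod_cast hr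
  have hlog4 : 4 ≤ Real.log r := by
    have h1 : Real.log 100 ≤ Real.log r := Real.log_le_log (by norm_num) hrR
    have h2 : (4 : ℝ) ≤ Real.log 100 := by
      rw [Real.le_log_iff_exp_le (by norm_num)]
      have h3 : Real.exp 4 = Real.exp 1 ^ 4 := by
        rw [← Real.exp_nat_mul]
        norm_num
      rw [h3]
      have h4 := Real.exp_one_lt_d9
      calc Real.exp 1 ^ 4 ≤ (2.7182818286 : ℝ) ^ 4 :=
            pow_le_pow_left₀ (Real.exp_pos 1).le h4.le 4
        _ ≤ 100 := by norm_num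
    linarith
  have hδ : 2 / Real.log r ≤ 1 / 2 := by
    rw [div_le_iff₀ (by linarith)]
    linarith
  have hre : |s.re - 1| ≤ ‖s - 1‖ := by
    have := Complex.abs_re_le_norm (s - 1)
    simpa using this
  have hσ : 1 - 2 / Real.log r ≤ s.re := by
    have := (abs_le.1 (hre.trans hs)).1
    linarith
  have hσ2 : 1 / 2 ≤ s.re := by linarith
  have hσ0 : 0 < s.re := by linarith
  have hns : ‖s‖ ≤ 3 / 2 := by
    have h1 : ‖s‖ ≤ ‖s - 1‖ + ‖(1 : ℂ)‖ := by
      have := norm_add_le (s - 1) 1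
      simpa using this
    rw [norm_one] at h1
    linarith
  have hE : 0 < Real.exp 2 := Real.exp_pos 2
  have hrpos : (0 : ℝ) < r := by linarith
  -- the power of `r + 1`
  have hK : ((r : ℝ) + 1) ^ (-s.re) ≤ Real.exp 2 * (r : ℝ)⁻¹ := by
    refine le_trans ?_ (XRL_pow r hr s.re hσ r (by linarith) le_rfl)
    exact Real.rpow_le_rpow_of_nonpos hrpos (by linarith) (by linarith)
  have hK0 : 0 ≤ ((r : ℝ) + 1) ^ (-s.re) := Real.rpow_nonneg (by positivity) _
  rw [XRL_split r ψ hψ s hσ0 r]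
  have h1 : ‖∑ n ∈ range r, ψ ((n + 1 : ℕ) : ZMod r) * (((n : ℝ) + 1 : ℝ) : ℂ) ^ (-s)‖ ≤
      Real.exp 2 * (1 + Real.log r) := by
    refine (norm_sum_le _ _).trans ?_
    refine le_trans (sum_le_sum fun n hn => ?_)
      (le_of_eq_of_le (mul_sum (range r) (fun n : ℕ => ((n : ℝ) + 1)⁻¹) (Real.exp 2)).symm
        (mul_le_mul_of_nonneg_left (XRL_harm r) hE.le))
    rw [norm_mul, Complex.norm_cpow_eq_rpow_re_of_pos (by positivity), Complex.neg_re]
    have hn' : (n : ℝ) + 1 ≤ r := by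
      have := mem_range.1 hn
      exact_mod_cast this
    have h2 := XRL_pow r hr s.re hσ ((n : ℝ) + 1) (by linarith [Nat.cast_nonneg (α := ℝ) n]) hn'
    have h3 := DirichletCharacter.norm_le_one ψ ((n + 1 : ℕ) : ZMod r)
    have h4 : 0 ≤ ((n : ℝ) + 1) ^ (-s.re) := Real.rpow_nonneg (by positivity) _
    calc _ ≤ 1 * ((n : ℝ) + 1) ^ (-s.re) := mul_le_mul_of_nonneg_right h3 h4
      _ ≤ _ := by rw [one_mul]; exact h2
  have h2 : ‖gl1_T ψ r * (((r : ℝ) + 1 : ℝ) : ℂ) ^ (-s)‖ ≤ Real.exp 2 := by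
    rw [norm_mul, Complex.norm_cpow_eq_rpow_re_of_pos (by positivity), Complex.neg_re]
    calc _ ≤ (r : ℝ) * (Real.exp 2 * (r : ℝ)⁻¹) :=
          mul_le_mul (gl1_T_bound r ψ hψ r) hK hK0 hrpos.le
      _ = Real.exp 2 := by field_simp
  have h3 : ‖∑' n, gl1_A ψ (n + r) s‖ ≤ 3 * Real.exp 2 := by
    have h4 := XRL_tele s.re (r * ‖s‖ / s.re) (by positivity) r (fun n => gl1_A ψ (n + r) s)
      (fun n => gl1_A_norm r ψ hψ (n + r) s hσ0)
    refine h4.trans ?_
    have h5 : (r : ℝ) * ‖s‖ / s.re ≤ 3 * r := by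
      rw [div_le_iff₀ hσ0]
      nlinarith
    calc _ ≤ (3 * r) * (Real.exp 2 * (r : ℝ)⁻¹) := mul_le_mul h5 hK hK0 (by positivity)
      _ = 3 * Real.exp 2 := by field_simp
  have h6 : ‖∑ n ∈ range r, ψ ((n + 1 : ℕ) : ZMod r) * (((n : ℝ) + 1 : ℝ) : ℂ) ^ (-s)
      - gl1_T ψ r * (((r : ℝ) + 1 : ℝ) : ℂ) ^ (-s) + ∑' n, gl1_A ψ (n + r) s‖ ≤
      Real.exp 2 * (1 + Real.log r) + Real.exp 2 + 3 * Real.exp 2 := by
    refine (norm_add_le _ _).trans (add_le_add ((norm_sub_le _ _).trans (add_le_add h1 h2)) h3)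
  refine h6.trans ?_
  nlinarith

/-- `L(1) = L(1) - L(β)` is at most `(1-β) sup_{[β,1]} |L'|`, and `|L'| ≤ C (log r)²` there by Cauchy's
inequality on circles of radius `1/log r`. -/
theorem L1_upper : ∃ C : ℝ, 0 < C ∧ ∀ (r : ℕ) [NeZero r] (ψ : DirichletCharacter ℂ r),
    100 ≤ r → ψ ≠ 1 → ∀ β : ℝ, 1 - 1 / Real.log r ≤ β → β ≤ 1 → ψ.LFunction (β : ℂ) = 0 →
    ‖ψ.LFunction 1‖ ≤ C * (1 - β) * (Real.log r) ^ 2 := by
  obtain ⟨C, hC, H⟩ := LFunction_near_one
  refine ⟨C, hC, fun r _ ψ hr hψ β hβ1 hβ2 hz => ?_⟩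
  have hrR : (100 : ℝ) ≤ r := by exact_mod_cast hr
  have hlog : 0 < Real.log r := Real.log_pos (by linarith)
  have hρ : 0 < 1 / Real.log r := by positivity
  have hdiff := DirichletCharacter.differentiable_LFunction hψ
  have hder : ∀ z ∈ Metric.closedBall (1 : ℂ) (1 / Real.log r),
      ‖deriv ψ.LFunction z‖ ≤ C * Real.log r ^ 2 := by
    intro z hz
    have h1 := Complex.norm_deriv_le_of_forall_mem_sphere_norm_le (c := z)
      (C := C * Real.log r) (f := ψ.LFunction) hρ hdiff.diffContOnCl (fun w hw => by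
        apply H r ψ hr hψ w
        have h2 : ‖w - z‖ = 1 / Real.log r := by simpa [dist_eq_norm] using hw
        have h3 : ‖z - 1‖ ≤ 1 / Real.log r := by simpa [dist_eq_norm] using hz
        have h4 : ‖w - 1‖ ≤ ‖w - z‖ + ‖z - 1‖ := by
          have := norm_add_le (w - z) (z - 1)
          simpa using this
        have h5 : 2 / Real.log r = 1 / Real.log r + 1 / Real.log r := by ring
        rw [h5]
        linarith)
    refine h1.trans (le_of_eq ?_)
    field_simp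
  have hmem1 : (1 : ℂ) ∈ Metric.closedBall (1 : ℂ) (1 / Real.log r) :=
    Metric.mem_closedBall_self hρ.le
  have hnorm : ‖(1 : ℂ) - (β : ℂ)‖ = 1 - β := by
    rw [← Complex.ofReal_one, ← Complex.ofReal_sub, Complex.norm_real, Real.norm_eq_abs,
      abs_of_nonneg (by linarith)]
  have hmemβ : (β : ℂ) ∈ Metric.closedBall (1 : ℂ) (1 / Real.log r) := by
    rw [Metric.mem_closedBall, dist_comm, dist_eq_norm, hnorm]
    linarith
  have h := Convex.norm_image_sub_le_of_norm_deriv_le (f := ψ.LFunction)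
    (C := C * Real.log r ^ 2) (s := Metric.closedBall (1 : ℂ) (1 / Real.log r))
    (x := (β : ℂ)) (y := 1) (fun z _ => hdiff z) hder (convex_closedBall _ _) hmemβ hmem1
  rw [hz, sub_zero, hnorm] at h
  linarith [h]

end Pool.Agent.Lib.H68T
end

-- from Lib.H68T.TENT
section

/-!
# Chunk TENT: Mellin representation of the tent
-/

open Finset MeasureTheory

namespace Pool.Agent.Lib.H68T

/-- Mellin transform of `max 0 (1 - y)`. -/
theorem TENT_hasMellin (s : ℂ) (hs : 0 < s.re) :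
    HasMellin (fun y : ℝ => ((max 0 (1 - y) : ℝ) : ℂ)) s (1 / (s * (s + 1))) := by
  have h1 := hasMellin_one_Ioc hs
  have h2 := hasMellin_cpow_Ioc (a := 1) (s := s) (by simp; linarith)
  have h3 := hasMellin_sub h1.1 h2.1
  have hfun : ∀ y ∈ Set.Ioi (0 : ℝ),
      (Set.indicator (Set.Ioc 0 1) (fun _ => 1 : ℝ → ℂ) y -
        Set.indicator (Set.Ioc 0 1) (fun t => (t : ℂ) ^ (1 : ℂ) : ℝ → ℂ) y) =
      ((max 0 (1 - y) : ℝ) : ℂ) := by
    intro y hy
    have hy' : (0 : ℝ) < y := hy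
    by_cases h : y ≤ 1
    · have hm : y ∈ Set.Ioc (0 : ℝ) 1 := ⟨hy', h⟩
      rw [Set.indicator_of_mem hm, Set.indicator_of_mem hm, Complex.cpow_one,
        max_eq_right (by linarith)]
      push_cast
      ring
    · have hm : y ∉ Set.Ioc (0 : ℝ) 1 := fun h' => h h'.2
      rw [Set.indicator_of_notMem hm, Set.indicator_of_notMem hm, max_eq_left (by linarith)]
      simp
  have hs0 : s ≠ 0 := by
    intro h
    rw [h] at hs
    simp at hs
  have hs1 : s + 1 ≠ 0 := by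
    intro h
    have := congrArg Complex.re h
    simp at this
    linarith
  refine ⟨?_, ?_⟩
  · have := h3.1
    refine MeasureTheory.IntegrableOn.congr_fun this (fun y hy => ?_) measurableSet_Ioi
    simp only
    rw [hfun y hy]
  · have := h3.2
    rw [h1.2, h2.2] at this
    have e : 1 / s - 1 / (s + 1) = 1 / (s * (s + 1)) := by
      field_simp
      ring
    rw [e] at this
    rw [← this]
    refine MeasureTheory.setIntegral_congr_fun measurableSet_Ioi (fun y hy => ?_)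
    simp only
    rw [hfun y hy]

/-- `‖1/((σ+it)(σ+1+it))‖` is integrable. -/
theorem TENT_integrable (σ : ℝ) (hσ : 0 < σ) :
    Integrable (fun t : ℝ => 1 / ((σ + t * Complex.I) * (σ + t * Complex.I + 1))) := by
  have h1 : Integrable (fun t : ℝ => (1 + σ⁻¹ ^ 2) * (1 + t ^ 2)⁻¹) :=
    integrable_inv_one_add_sq.const_mul _
  have hne : ∀ t : ℝ, (σ + t * Complex.I : ℂ) ≠ 0 := by
    intro t h
    have := congrArg Complex.re h
    simp at this
    linarith
  have hne1 : ∀ t : ℝ, (σ + t * Complex.I + 1 : ℂ) ≠ 0 := by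
    intro t h
    have := congrArg Complex.re h
    simp at this
    linarith
  refine h1.mono' ?_ ?_
  · refine Continuous.aestronglyMeasurable ?_
    refine Continuous.div continuous_const (by fun_prop) (fun t => mul_ne_zero (hne t) (hne1 t))
  · refine Filter.Eventually.of_forall (fun t => ?_)
    have hn : ∀ a : ℝ, ‖(a + t * Complex.I : ℂ)‖ ^ 2 = a ^ 2 + t ^ 2 := by
      intro a
      rw [← Complex.normSq_eq_norm_sq, Complex.normSq_add_mul_I]
    have h2 : ‖(σ + t * Complex.I : ℂ)‖ ^ 2 = σ ^ 2 + t ^ 2 := hn σ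
    have h3 : ‖(σ + t * Complex.I + 1 : ℂ)‖ ^ 2 = (σ + 1) ^ 2 + t ^ 2 := by
      have := hn (σ + 1)
      rw [← this]
      congr 2
      push_cast
      ring
    have h4 : ‖(σ + t * Complex.I : ℂ)‖ ≤ ‖(σ + t * Complex.I + 1 : ℂ)‖ := by
      refine le_of_sq_le_sq ?_ (norm_nonneg _)
      rw [h2, h3]
      nlinarith
    have h5 : σ ^ 2 + t ^ 2 ≤ ‖(σ + t * Complex.I : ℂ)‖ * ‖(σ + t * Complex.I + 1 : ℂ)‖ := by
      rw [← h2, sq]
      exact mul_le_mul_of_nonneg_left h4 (norm_nonneg _)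
    have h6 : 0 < σ ^ 2 + t ^ 2 := by positivity
    rw [norm_div, norm_one, norm_mul, ← div_eq_mul_inv]
    rw [div_le_div_iff₀ (lt_of_lt_of_le h6 h5) (by positivity)]
    calc 1 * (1 + t ^ 2) ≤ (1 + σ⁻¹ ^ 2) * (σ ^ 2 + t ^ 2) := by
          have : σ⁻¹ ^ 2 * σ ^ 2 = 1 := by
            field_simp
          nlinarith [sq_nonneg (σ⁻¹ * t), sq_nonneg σ]
      _ ≤ _ := mul_le_mul_of_nonneg_left h5 (by positivity)

/-- Mellin inversion for the hinge on the line `Re s = σ`. -/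
theorem TENT_hinge (σ : ℝ) (hσ : 0 < σ) (y : ℝ) (hy : 0 < y) :
    ((max 0 (1 - y) : ℝ) : ℂ) = 1 / (2 * Real.pi) *
      ∫ t : ℝ, (y : ℂ) ^ (-(σ + t * Complex.I)) /
        ((σ + t * Complex.I) * (σ + t * Complex.I + 1)) := by
  have hf : MellinConvergent (fun y : ℝ => ((max 0 (1 - y) : ℝ) : ℂ)) σ :=
    (TENT_hasMellin σ (by simpa using hσ)).1
  have hm : ∀ t : ℝ, mellin (fun y : ℝ => ((max 0 (1 - y) : ℝ) : ℂ)) (σ + t * Complex.I) =
      1 / ((σ + t * Complex.I) * (σ + t * Complex.I + 1)) := by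
    intro t
    exact (TENT_hasMellin (σ + t * Complex.I) (by simpa using hσ)).2
  have hv : Complex.VerticalIntegrable (mellin (fun y : ℝ => ((max 0 (1 - y) : ℝ) : ℂ))) σ := by
    unfold Complex.VerticalIntegrable
    refine (TENT_integrable σ hσ).congr (Filter.Eventually.of_forall (fun t => ?_))
    simp only
    rw [hm t]
  have h := mellinInv_mellin_eq σ (fun y : ℝ => ((max 0 (1 - y) : ℝ) : ℂ)) hy hf hv
    (Continuous.continuousAt (by fun_prop))
  rw [← h, mellinInv, Complex.real_smul]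
  push_cast
  congr 1
  refine integral_congr_ae (Filter.Eventually.of_forall (fun t => ?_))
  simp only
  rw [hm t, smul_eq_mul, mul_one_div]

/-- The kernel formula: for `z > 0`, `n ≥ 1`,
`max 0 (z - n) = (1/2π) ∫ z^(2+it) n^(-1-it) / ((1+it)(2+it)) dt`. It is the Mellin inversion of
`y ↦ max 0 (1 - y)` (`y = n/z`), whose Mellin transform at `s` is `1/(s(s+1))` (`Re s > 0`), on the
line `Re s = 1` (`mellin_inversion`). -/
theorem mellin_hinge (z : ℝ) (hz : 0 < z) (n : ℝ) (hn : 0 < n) :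
    Integrable (fun t : ℝ => (z : ℂ) ^ (2 + t * Complex.I) * (n : ℂ) ^ (-(1 + t * Complex.I)) /
      ((1 + t * Complex.I) * (2 + t * Complex.I))) ∧
    ((max 0 (z - n) : ℝ) : ℂ) = 1 / (2 * Real.pi) *
      ∫ t : ℝ, (z : ℂ) ^ (2 + t * Complex.I) * (n : ℂ) ^ (-(1 + t * Complex.I)) /
        ((1 + t * Complex.I) * (2 + t * Complex.I)) := by
  have hzC : (z : ℂ) ≠ 0 := by exact_mod_cast hz.ne'
  have hnC : (n : ℂ) ≠ 0 := by exact_mod_cast hn.ne'
  have hpow : ∀ t : ℝ, (z : ℂ) ^ (2 + t * Complex.I) * (n : ℂ) ^ (-(1 + t * Complex.I)) =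
      z * ((n / z : ℝ) : ℂ) ^ (-(1 + t * Complex.I)) := by
    intro t
    rw [div_eq_mul_inv, Complex.ofReal_mul, Complex.mul_cpow_ofReal_nonneg hn.le (by positivity),
      Complex.ofReal_inv, Complex.inv_cpow_eq_ite, if_neg]
    · rw [← Complex.cpow_neg, neg_neg, show (2 + t * Complex.I : ℂ) = 1 + (1 + t * Complex.I) by ring,
        Complex.cpow_add _ _ hzC, Complex.cpow_one]
      ring
    · rw [Complex.arg_ofReal_of_nonneg hz.le]
      exact Real.pi_pos.ne
  have hden : ∀ t : ℝ, ((1 + t * Complex.I) * (2 + t * Complex.I) : ℂ) =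
      (((1 : ℝ) + t * Complex.I) * ((1 : ℝ) + t * Complex.I + 1)) := by
    intro t
    push_cast
    ring
  have hnz : 0 < n / z := by positivity
  refine ⟨?_, ?_⟩
  · have h1 := (TENT_integrable 1 one_pos).norm.const_mul (z * (n / z) ^ (-1 : ℝ))
    refine h1.mono' ?_ ?_
    · refine Continuous.aestronglyMeasurable ?_
      refine Continuous.div ?_ (by fun_prop) ?_
      · refine Continuous.mul ?_ ?_
        · exact Continuous.const_cpow (by fun_prop) (Or.inl hzC)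
        · exact Continuous.const_cpow (by fun_prop) (Or.inl hnC)
      · intro t
        refine mul_ne_zero ?_ ?_
        · intro h
          have := congrArg Complex.re h
          simp at this
        · intro h
          have := congrArg Complex.re h
          simp at this
    · refine Filter.Eventually.of_forall (fun t => ?_)
      rw [hpow t, hden t, norm_div, norm_mul, norm_div, norm_one, Complex.norm_real,
        Complex.norm_cpow_eq_rpow_re_of_pos hnz, Real.norm_of_nonneg hz.le]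
      have : (-(1 + (t : ℂ) * Complex.I)).re = -1 := by simp
      rw [this, mul_one_div]
  · have h2 := TENT_hinge 1 one_pos (n / z) hnz
    have h3 : ((max 0 (z - n) : ℝ) : ℂ) = z * ((max 0 (1 - n / z) : ℝ) : ℂ) := by
      rw [← Complex.ofReal_mul]
      congr 1
      rw [mul_max_of_nonneg _ _ hz.le]
      congr 1
      · ring
      · field_simp
    rw [h3, h2, mul_left_comm, ← integral_const_mul]
    congr 1
    refine integral_congr_ae (Filter.Eventually.of_forall (fun t => ?_))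
    simp only
    rw [hpow t, hden t, mul_div_assoc]
    push_cast
    rfl

/-- The second difference of the hinge is the tent. -/
theorem TENT_second_diff (Y z : ℝ) (hY : 0 ≤ Y) :
    max 0 (Y - |z|) = max 0 (z + Y) - 2 * max 0 z + max 0 (z - Y) := by
  rcases le_total 0 z with h | h
  · rw [abs_of_nonneg h, max_eq_right (show (0 : ℝ) ≤ z + Y by linarith), max_eq_right h]
    rcases le_total z Y with h' | h'
    · rw [max_eq_right (by linarith), max_eq_left (by linarith)]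
      ring
    · rw [max_eq_left (by linarith), max_eq_right (by linarith)]
      ring
  · rw [abs_of_nonpos h, max_eq_left h, max_eq_left (show z - Y ≤ 0 by linarith)]
    rw [show Y - -z = z + Y by ring]
    ring

/-- The second difference of `z^(2+it)` as a double integral. -/
theorem TENT_double (t : ℝ) (a Y : ℝ) (ha : 0 < a) (hY : 0 ≤ Y) :
    ((a + 2 * Y : ℝ) : ℂ) ^ (2 + t * Complex.I) - 2 * ((a + Y : ℝ) : ℂ) ^ (2 + t * Complex.I) +
      (a : ℂ) ^ (2 + t * Complex.I) =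
    ((1 + t * Complex.I) * (2 + t * Complex.I)) *
      ∫ x in (0 : ℝ)..Y, ∫ y in (0 : ℝ)..Y, ((a + x + y : ℝ) : ℂ) ^ (t * Complex.I) := by
  have hd : ∀ c : ℂ, ∀ x : ℝ, 0 < x →
      HasDerivAt (fun x : ℝ => (x : ℂ) ^ (c + 1)) ((c + 1) * (x : ℂ) ^ c) x := by
    intro c x hx
    have h1 := (hasDerivAt_id (x : ℂ)).cpow_const (c := c + 1)
      (Or.inl (by simpa using hx))
    have h2 := h1.comp_ofReal
    simpa using h2
  have hcont : ∀ c : ℂ, ∀ b : ℝ, 0 < b → ContinuousOn (fun y : ℝ => ((b + y : ℝ) : ℂ) ^ c)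
      (Set.Ici 0) := by
    intro c b hb y hy
    have hy' : (0 : ℝ) ≤ y := hy
    refine ContinuousAt.continuousWithinAt ?_
    refine ContinuousAt.cpow (by fun_prop) continuousAt_const (Or.inl ?_)
    rw [Complex.ofReal_re]
    linarith
  have hint : ∀ c : ℂ, c + 1 ≠ 0 → ∀ b : ℝ, 0 < b →
      (c + 1) * ∫ y in (0 : ℝ)..Y, ((b + y : ℝ) : ℂ) ^ c =
        ((b + Y : ℝ) : ℂ) ^ (c + 1) - (b : ℂ) ^ (c + 1) := by
    intro c hc b hb
    have h := intervalIntegral.integral_eq_sub_of_hasDerivAt (a := 0) (b := Y)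
      (f := fun y : ℝ => ((b + y : ℝ) : ℂ) ^ (c + 1))
      (f' := fun y : ℝ => (c + 1) * ((b + y : ℝ) : ℂ) ^ c) ?_ ?_
    · rw [intervalIntegral.integral_const_mul] at h
      rw [h]
      simp
    · intro y hy
      rw [Set.uIcc_of_le hY] at hy
      have := hd c (b + y) (by linarith [hy.1])
      exact this.comp_const_add b y
    · refine ContinuousOn.intervalIntegrable ?_
      rw [Set.uIcc_of_le hY]
      exact (continuousOn_const.mul (hcont c b hb)).mono Set.Icc_subset_Ici_self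
  have hne1 : (t * Complex.I + 1 : ℂ) ≠ 0 := by
    intro h
    have := congrArg Complex.re h
    simp at this
  have hne2 : (1 + t * Complex.I + 1 : ℂ) ≠ 0 := by
    intro h
    have := congrArg Complex.re h
    norm_num at this
  have hinner : ∀ x : ℝ, x ∈ Set.uIcc 0 Y →
      (1 + t * Complex.I : ℂ) * ∫ y in (0 : ℝ)..Y, ((a + x + y : ℝ) : ℂ) ^ (t * Complex.I) =
        ((a + Y + x : ℝ) : ℂ) ^ (1 + t * Complex.I) - ((a + x : ℝ) : ℂ) ^ (1 + t * Complex.I) := by
    intro x hx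
    rw [Set.uIcc_of_le hY] at hx
    have := hint (t * Complex.I) hne1 (a + x) (by linarith [hx.1])
    rw [add_comm (t * Complex.I) 1] at this
    rw [this, show a + Y + x = a + x + Y by ring]
  have h1 := hint (1 + t * Complex.I) hne2 (a + Y) (by linarith)
  have h2 := hint (1 + t * Complex.I) hne2 a ha
  rw [show (1 + t * Complex.I + 1 : ℂ) = 2 + t * Complex.I by ring] at h1 h2
  have hi1 : IntervalIntegrable (fun x : ℝ => ((a + Y + x : ℝ) : ℂ) ^ (1 + t * Complex.I)) volume 0 Y := by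
    refine ContinuousOn.intervalIntegrable ?_
    rw [Set.uIcc_of_le hY]
    exact (hcont _ (a + Y) (by linarith)).mono Set.Icc_subset_Ici_self
  have hi2 : IntervalIntegrable (fun x : ℝ => ((a + x : ℝ) : ℂ) ^ (1 + t * Complex.I)) volume 0 Y := by
    refine ContinuousOn.intervalIntegrable ?_
    rw [Set.uIcc_of_le hY]
    exact (hcont _ a ha).mono Set.Icc_subset_Ici_self
  calc _ = ((a + Y + Y : ℝ) : ℂ) ^ (2 + t * Complex.I) - ((a + Y : ℝ) : ℂ) ^ (2 + t * Complex.I) -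
      (((a + Y : ℝ) : ℂ) ^ (2 + t * Complex.I) - (a : ℂ) ^ (2 + t * Complex.I)) := by
        rw [show a + Y + Y = a + 2 * Y by ring]
        ring
    _ = (2 + t * Complex.I) * ((∫ x in (0 : ℝ)..Y, ((a + Y + x : ℝ) : ℂ) ^ (1 + t * Complex.I)) -
        ∫ x in (0 : ℝ)..Y, ((a + x : ℝ) : ℂ) ^ (1 + t * Complex.I)) := by
        rw [← h1, ← h2]
        ring
    _ = (2 + t * Complex.I) * (∫ x in (0 : ℝ)..Y, (((a + Y + x : ℝ) : ℂ) ^ (1 + t * Complex.I) -
        ((a + x : ℝ) : ℂ) ^ (1 + t * Complex.I))) := by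
        rw [intervalIntegral.integral_sub hi1 hi2]
    _ = (2 + t * Complex.I) * (∫ x in (0 : ℝ)..Y, (1 + t * Complex.I : ℂ) *
        ∫ y in (0 : ℝ)..Y, ((a + x + y : ℝ) : ℂ) ^ (t * Complex.I)) := by
        congr 1
        refine intervalIntegral.integral_congr (fun x hx => ?_)
        exact (hinner x hx).symm
    _ = _ := by
        rw [intervalIntegral.integral_const_mul]
        ring

/-- **Representation of the tent** as second difference of the hinge:
`tent(m - n) = Y^(-2) (h(m+Y-n) - 2 h(m-n) + h(m-Y-n))`, `h(z) = max 0 z`. So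
`gt t = (1/2π) Δ²_Y [z^(2+it)] (m) / (Y² (1+it)(2+it))`; `‖gt t‖ ≤ 4 (2m)²/(2π Y² (1+t²))`, and
`‖gt t‖ ≤ 1` because `Δ²_Y [z^(2+it)]/((1+it)(2+it)) = ∫_0^Y ∫_0^Y (m - Y + x + y)^(it) dx dy`
(with the appropriate order of differences). -/
theorem tent_rep (Y : ℕ) (m : ℤ) (hY : 1 ≤ Y) (hm : 2 * (Y : ℤ) ≤ m) :
    ∃ gt : ℝ → ℂ, Continuous gt ∧ (∀ t, ‖gt t‖ ≤ 1) ∧
      (∀ t, ‖gt t‖ ≤ 10 * ((m : ℝ) / Y) ^ 2 / (1 + t ^ 2)) ∧
      ∀ n : ℕ, 1 ≤ n → ((tent Y (m - n) : ℝ) : ℂ) =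
        ∫ t : ℝ, gt t * (n : ℂ) ^ (-(1 + t * Complex.I)) := by
  have hYr : (1 : ℝ) ≤ Y := by exact_mod_cast hY
  have hmr : 2 * (Y : ℝ) ≤ m := by exact_mod_cast hm
  have ha : 0 < (m : ℝ) - Y := by linarith
  have hm0 : 0 < (m : ℝ) := by linarith
  have hmY : 0 < (m : ℝ) + Y := by linarith
  set D : ℝ → ℂ := fun t => (((m : ℝ) + Y : ℝ) : ℂ) ^ (2 + t * Complex.I) -
    2 * ((m : ℝ) : ℂ) ^ (2 + t * Complex.I) + (((m : ℝ) - Y : ℝ) : ℂ) ^ (2 + t * Complex.I) with hD
  have hPne : ∀ t : ℝ, ((1 + t * Complex.I) * (2 + t * Complex.I) : ℂ) ≠ 0 := by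
    intro t
    refine mul_ne_zero ?_ ?_
    · intro h
      have := congrArg Complex.re h
      simp at this
    · intro h
      have := congrArg Complex.re h
      simp at this
  have hYne : ((Y : ℂ) ^ 2) ≠ 0 := by
    have : (Y : ℂ) ≠ 0 := by exact_mod_cast (by omega : Y ≠ 0)
    positivity
  have hpi := Real.pi_gt_three
  refine ⟨fun t => 1 / (2 * Real.pi) * (D t / ((Y : ℂ) ^ 2 * ((1 + t * Complex.I) * (2 + t * Complex.I)))),
    ?_, ?_, ?_, ?_⟩
  · refine continuous_const.mul (Continuous.div ?_ (by fun_prop)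
      (fun t => mul_ne_zero hYne (hPne t)))
    have hc : ∀ z : ℝ, 0 < z → Continuous (fun t : ℝ => (z : ℂ) ^ (2 + t * Complex.I)) := by
      intro z hz
      exact Continuous.const_cpow (by fun_prop) (Or.inl (by exact_mod_cast hz.ne'))
    exact ((hc _ hmY).sub (continuous_const.mul (hc _ hm0))).add (hc _ ha)
  · intro t
    have h := TENT_double t ((m : ℝ) - Y) Y ha (by linarith)
    rw [show (m : ℝ) - Y + 2 * Y = m + Y by ring, show (m : ℝ) - Y + Y = m by ring] at h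
    have h' : D t / ((Y : ℂ) ^ 2 * ((1 + t * Complex.I) * (2 + t * Complex.I))) =
        (∫ x in (0 : ℝ)..Y, ∫ y in (0 : ℝ)..Y, (((m : ℝ) - Y + x + y : ℝ) : ℂ) ^ (t * Complex.I)) /
          (Y : ℂ) ^ 2 := by
      rw [hD]
      simp only
      rw [h, mul_comm ((Y : ℂ) ^ 2), mul_div_mul_left _ _ (hPne t)]
    change ‖1 / (2 * Real.pi : ℂ) * (D t / ((Y : ℂ) ^ 2 *
      ((1 + t * Complex.I) * (2 + t * Complex.I))))‖ ≤ 1
    rw [h']
    have hn1 : ∀ x : ℝ, x ∈ Set.uIoc 0 (Y : ℝ) →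
        ‖∫ y in (0 : ℝ)..Y, (((m : ℝ) - Y + x + y : ℝ) : ℂ) ^ (t * Complex.I)‖ ≤ 1 * |(Y : ℝ) - 0| := by
      intro x hx
      rw [Set.uIoc_of_le (by linarith)] at hx
      refine intervalIntegral.norm_integral_le_of_norm_le_const (fun y hy => ?_)
      rw [Set.uIoc_of_le (by linarith)] at hy
      rw [Complex.norm_cpow_eq_rpow_re_of_pos (by linarith [hx.1, hy.1])]
      simp
    have hn2 := intervalIntegral.norm_integral_le_of_norm_le_const hn1
    rw [sub_zero, abs_of_nonneg (by linarith)] at hn2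
    rw [norm_mul, norm_div, norm_div, norm_pow, Complex.norm_natCast, norm_one, norm_mul]
    rw [Complex.norm_real, Real.norm_of_nonneg Real.pi_pos.le]
    have h2 : ‖(2 : ℂ)‖ = 2 := by simp
    rw [h2]
    have hq : ‖∫ x in (0 : ℝ)..Y, ∫ y in (0 : ℝ)..Y,
        (((m : ℝ) - Y + x + y : ℝ) : ℂ) ^ (t * Complex.I)‖ / (Y : ℝ) ^ 2 ≤ 1 := by
      rw [div_le_one (by positivity)]
      nlinarith
    have hp1 : 1 / (2 * Real.pi) ≤ 1 := by
      rw [div_le_one (by positivity)]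
      linarith
    calc 1 / (2 * Real.pi) * _ ≤ 1 * 1 := by
          refine mul_le_mul hp1 hq (by positivity) zero_le_one
      _ = 1 := one_mul 1
  · intro t
    have hnorm : ∀ z : ℝ, 0 < z → ‖(z : ℂ) ^ (2 + t * Complex.I)‖ = z ^ 2 := by
      intro z hz
      rw [Complex.norm_cpow_eq_rpow_re_of_pos hz]
      simp
    have hDn : ‖D t‖ ≤ 9 * (m : ℝ) ^ 2 := by
      calc ‖D t‖ ≤ ‖(((m : ℝ) + Y : ℝ) : ℂ) ^ (2 + t * Complex.I)‖ +
            ‖2 * ((m : ℝ) : ℂ) ^ (2 + t * Complex.I)‖ +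
            ‖(((m : ℝ) - Y : ℝ) : ℂ) ^ (2 + t * Complex.I)‖ := by
            refine (norm_add_le _ _).trans ?_
            gcongr
            exact norm_sub_le _ _
        _ = ((m : ℝ) + Y) ^ 2 + 2 * (m : ℝ) ^ 2 + ((m : ℝ) - Y) ^ 2 := by
            rw [norm_mul, hnorm _ hmY, hnorm _ hm0, hnorm _ ha]
            simp
        _ ≤ 9 * (m : ℝ) ^ 2 := by nlinarith
    have hden : 1 + t ^ 2 ≤ ‖((1 + t * Complex.I) * (2 + t * Complex.I) : ℂ)‖ := by
      have hn : ∀ a : ℝ, ‖(a + t * Complex.I : ℂ)‖ ^ 2 = a ^ 2 + t ^ 2 := by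
        intro a
        rw [← Complex.normSq_eq_norm_sq, Complex.normSq_add_mul_I]
      have h1 := hn 1
      have h2 := hn 2
      push_cast at h1 h2
      rw [norm_mul]
      have h4 : ‖(1 + t * Complex.I : ℂ)‖ ≤ ‖(2 + t * Complex.I : ℂ)‖ := by
        refine le_of_sq_le_sq ?_ (norm_nonneg _)
        rw [h1, h2]
        nlinarith
      nlinarith [norm_nonneg (1 + t * Complex.I : ℂ)]
    change ‖1 / (2 * Real.pi : ℂ) * (D t / ((Y : ℂ) ^ 2 *
      ((1 + t * Complex.I) * (2 + t * Complex.I))))‖ ≤ _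
    rw [norm_mul, norm_div, norm_div, norm_mul, norm_mul ((Y : ℂ) ^ 2), norm_pow,
      Complex.norm_natCast, norm_one,
      Complex.norm_real, Real.norm_of_nonneg Real.pi_pos.le]
    have h2 : ‖(2 : ℂ)‖ = 2 := by simp
    rw [h2]
    have hp1 : 1 / (2 * Real.pi) ≤ 1 := by
      rw [div_le_one (by positivity)]
      linarith
    have hYpos : (0 : ℝ) < Y := by linarith
    calc 1 / (2 * Real.pi) * (‖D t‖ / ((Y : ℝ) ^ 2 * ‖((1 + t * Complex.I) * (2 + t * Complex.I) : ℂ)‖))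
        ≤ 1 * (9 * (m : ℝ) ^ 2 / ((Y : ℝ) ^ 2 * (1 + t ^ 2))) := by
          gcongr
      _ ≤ 10 * ((m : ℝ) / Y) ^ 2 / (1 + t ^ 2) := by
          rw [one_mul, div_pow, mul_div_assoc', div_div]
          gcongr
          norm_num
  · intro n hn
    have hnr : 0 < (n : ℝ) := by exact_mod_cast hn
    obtain ⟨hi1, he1⟩ := mellin_hinge ((m : ℝ) + Y) hmY n hnr
    obtain ⟨hi2, he2⟩ := mellin_hinge (m : ℝ) hm0 n hnr
    obtain ⟨hi3, he3⟩ := mellin_hinge ((m : ℝ) - Y) ha n hnr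
    have ht : tent Y (m - n) = (max 0 ((m : ℝ) + Y - n) - 2 * max 0 ((m : ℝ) - n) +
        max 0 ((m : ℝ) - Y - n)) / (Y : ℝ) ^ 2 := by
      unfold tent
      push_cast
      rw [TENT_second_diff (Y : ℝ) ((m : ℝ) - n) (by linarith)]
      rw [show (m : ℝ) - n + Y = m + Y - n by ring, show (m : ℝ) - n - Y = m - Y - n by ring]
    have hpi' : (2 * Real.pi : ℂ) ≠ 0 := by
      simp [Real.pi_ne_zero]
    simp only [Complex.ofReal_natCast] at hi1 hi2 hi3 he1 he2 he3
    rw [ht, Complex.ofReal_div, Complex.ofReal_add, Complex.ofReal_sub, Complex.ofReal_mul, he1,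
      he2, he3, Complex.ofReal_pow, Complex.ofReal_natCast, Complex.ofReal_ofNat]
    have hABC : ∀ A B C : ℂ, (1 / (2 * (Real.pi : ℂ)) * A - 2 * (1 / (2 * (Real.pi : ℂ)) * B) +
      1 / (2 * (Real.pi : ℂ)) * C) / (Y : ℂ) ^ 2 =
      1 / (2 * (Real.pi : ℂ)) / (Y : ℂ) ^ 2 * (A - 2 * B + C) := by
      intro A B C
      ring
    rw [hABC]
    set F1 : ℝ → ℂ := fun t => (((m : ℝ) + Y : ℝ) : ℂ) ^ (2 + t * Complex.I) *
      (n : ℂ) ^ (-(1 + t * Complex.I)) / ((1 + t * Complex.I) * (2 + t * Complex.I)) with hF1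
    set F2 : ℝ → ℂ := fun t => ((m : ℝ) : ℂ) ^ (2 + t * Complex.I) *
      (n : ℂ) ^ (-(1 + t * Complex.I)) / ((1 + t * Complex.I) * (2 + t * Complex.I)) with hF2
    set F3 : ℝ → ℂ := fun t => (((m : ℝ) - Y : ℝ) : ℂ) ^ (2 + t * Complex.I) *
      (n : ℂ) ^ (-(1 + t * Complex.I)) / ((1 + t * Complex.I) * (2 + t * Complex.I)) with hF3
    have hs : (∫ t, F1 t) - 2 * (∫ t, F2 t) + ∫ t, F3 t = ∫ t, (F1 t - 2 * F2 t + F3 t) := by
      have hi12 : Integrable (fun t => F1 t - 2 * F2 t) := hi1.sub (hi2.const_mul 2)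
      rw [integral_add hi12 hi3, integral_sub hi1 (hi2.const_mul 2), integral_const_mul]
    rw [hs, ← integral_const_mul]
    refine integral_congr_ae (Filter.Eventually.of_forall (fun t => ?_))
    simp only [hD, hF1, hF2, hF3]
    have := hPne t
    field_simp

end Pool.Agent.Lib.H68T
end
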