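import Mathlib
import Pool.Agent.Lib.H59M.M1.M004
import Pool.Agent.Lib.H59M.M1.M010
import Pool.Agent.Lib.H59M.M1.M011

/-! Merged copies (to shorten the build) of Lib.GoldbachGraph.Codegree, Lib.GoldbachGraph.Moments, Lib.GoldbachGraph.Proportion, Lib.H18Q.T1, Lib.H18Q.T2, Lib.H18Q.T3, Lib.H18E.PG, Lib.H18Q.QDefs, Lib.H18Q.S2, Lib.H18Q.R0, Lib.H18Q.PDefs, Lib.H18Q.Z5A, Lib.H51D.DHDefs, Lib.H51D.DHA, Lib.H51D.DHE, Lib.H18Q.W1. -/

-- from Lib.GoldbachGraph.Codegree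
section

/-!
# Upper bound for codegrees in the Goldbach graph

Vertices are written `x` for the even number `2 x`; two distinct vertices `x, u` are adjacent
when `x + u` and `|x - u|` are odd primes.
-/

namespace Pool.Agent.Lib.GoldbachGraph

open Finset Pool.Agent.Lib.Sieve

/-- Halved adjacency: `x + u` and `|x - u|` are odd primes. -/
def hadj (x u : ℕ) : Prop :=
  (x + u).Prime ∧ Odd (x + u) ∧ (Nat.dist x u).Prime ∧ Odd (Nat.dist x u)

instance (x u : ℕ) : Decidable (hadj x u) := by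
  unfold hadj
  infer_instance

theorem hadj_comm (x u : ℕ) : hadj x u ↔ hadj u x := by
  unfold hadj
  rw [add_comm x u, Nat.dist_comm x u]


/-- The weight `(1 - 1/p)^{-4}` for `p > 10`, and `1` otherwise. -/
noncomputable def g4 (p : ℕ) : ℝ := if 10 < p then ((1 - 1 / (p : ℝ)) ^ 4)⁻¹ else 1


/-- `G m = ∏_{p ∣ m, p > 10} (1 - 1/p)^{-4}`. -/
noncomputable def G (m : ℕ) : ℝ := ∏ p ∈ m.primeFactors, g4 p









end Pool.Agent.Lib.GoldbachGraph
end

-- from Lib.GoldbachGraph.Moments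
section

/-!
# Moments of codegrees in the Goldbach graph
-/

namespace Pool.Agent.Lib.GoldbachGraph

open Finset Filter Pool.Agent.Lib.Sieve



/-- The constant bounding the average of `G ^ 8`. -/
noncomputable def CG : ℝ := Real.exp (64 * Real.exp 6 * ∑' n : ℕ, 1 / (n : ℝ) ^ 2)




/-- `S N = ∑_{m ≤ N} G m ^ 8`. -/
noncomputable def SG (N : ℕ) : ℝ := ∑ m ∈ Finset.range (N + 1), G m ^ 8








/-- The constant of the second moment. -/
noncomputable def C2 : ℝ := 1 + (1875 * 1636 ^ 4 + 1) ^ 2 * (6 * (1 + CG))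



end Pool.Agent.Lib.GoldbachGraph
end

-- from Lib.GoldbachGraph.Proportion
section

/-!
# A positive proportion of pairs have a common neighbour
-/

namespace Pool.Agent.Lib.GoldbachGraph

open Finset Filter Pool.Agent.Lib.Sieve

/-- Degree inside `[1, n]`. -/
def hdeg (n x : ℕ) : ℕ := ((Finset.Icc 1 n).filter fun u => hadj x u).card










/-- The proportion of good pairs. -/
noncomputable def c0 : ℝ := 1 / (1024 ^ 2 * C2)




end Pool.Agent.Lib.GoldbachGraph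
end

-- from Lib.H18Q.T1
section

/-!
# Project H18Q, chunk T1: a product of distances is not small everywhere
-/

open Finset

namespace Pool.Agent.Lib.H18Q

/-- For real numbers `d i`, `i ∈ S`, some `t ∈ [1/2, 1]` has `∏ |t - d i| ≥ 16^(-#S)`.

Proof 1 (Lagrange). Let `n = #S ≥ 1` (`n = 0`: `t = 1`), `P = ∏ (X - C (d i))`, monic of degree
`n`, nodes `x_j = 1/2 + j/(2n)`, `j = 0, …, n`. Lagrange interpolation at the `n+1` nodes and the
coefficient of `X^n` (`Lagrange.sum_basis`, or Mathlib's statement that the leading coefficient is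
the divided difference) give `1 = ∑_j P(x_j) / ∏_{i ≠ j} (x_j - x_i)`, and
`∏_{i ≠ j} |x_j - x_i| = j! (n-j)! / (2n)^n`. If `|P(x_j)| < 16^(-n)` for all `j`, then
`1 < 16^(-n) (2n)^n ∑_j 1/(j! (n-j)!) = 16^(-n) (2n)^n 2^n / n! = (n^n / n!) 4^(-n) ≤ (e/4)^n < 1`
(`n^n ≤ e^n n!`, as `e^n = ∑ n^k/k!`), a contradiction.

Proof 2 (average of logarithms). `∫_{1/2}^{1} log |t - d| dt ≥ ∫_{-1/4}^{1/4} log |x| dx =
-(1 + log 4)/2` for every real `d` (rearrangement), so the average over `[1/2, 1]` of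
`∑ log |t - d i|` is at least `-n (1 + log 4) ≥ -n log 16`. Any proof is welcome. -/
theorem T1_far {ι : Type*} (S : Finset ι) (d : ι → ℝ) :
    ∃ t ∈ Set.Icc (1 / 2 : ℝ) 1, (1 / 16 : ℝ) ^ S.card ≤ ∏ i ∈ S, |t - d i| := by
  by_contra hcon
  push Not at hcon
  set n := S.card with hn
  have hq : ∀ u ∈ Set.Icc (-1 : ℝ) 1, |∏ i ∈ S, (4 * u + 12 - 16 * d i)| ≤ 1 := by
    intro u hu
    have h1 := hcon (3 / 4 + u / 4) ⟨by linarith [hu.1], by linarith [hu.2]⟩
    have h2 : ∏ i ∈ S, (4 * u + 12 - 16 * d i) = 16 ^ n * ∏ i ∈ S, (3 / 4 + u / 4 - d i) := by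
      rw [hn, ← Finset.prod_const, ← Finset.prod_mul_distrib]
      exact Finset.prod_congr rfl fun i _ => by ring
    rw [h2, abs_mul, Finset.abs_prod, abs_of_pos (by positivity : (0 : ℝ) < 16 ^ n)]
    have h3 : (16 : ℝ) ^ n * (1 / 16) ^ n = 1 := by
      rw [← mul_pow]
      norm_num
    nlinarith [mul_lt_mul_of_pos_left h1 (by positivity : (0 : ℝ) < 16 ^ n)]
  set P : Polynomial ℝ := ∏ i ∈ S, (Polynomial.C 4 * Polynomial.X + Polynomial.C (12 - 16 * d i)) with hP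
  have hdeg1 : ∀ i, (Polynomial.C (4 : ℝ) * Polynomial.X + Polynomial.C (12 - 16 * d i)).natDegree = 1 := by
    intro i
    exact Polynomial.natDegree_linear (by norm_num)
  have hlc1 : ∀ i, (Polynomial.C (4 : ℝ) * Polynomial.X + Polynomial.C (12 - 16 * d i)).leadingCoeff = 4 := by
    intro i
    exact Polynomial.leadingCoeff_linear (by norm_num)
  have hPlc : P.leadingCoeff = 4 ^ n := by
    rw [hP, Polynomial.leadingCoeff_prod, Finset.prod_congr rfl fun i _ => hlc1 i, Finset.prod_const]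
  have hPd : P.natDegree = n := by
    rw [hP, Polynomial.natDegree_prod _ _ fun i _ h0 => by
      have := hlc1 i
      rw [h0, Polynomial.leadingCoeff_zero] at this
      norm_num at this, Finset.sum_congr rfl fun i _ => hdeg1 i, Finset.sum_const]
    simp [hn]
  have hP0 : P ≠ 0 := by
    intro h0
    rw [h0, Polynomial.leadingCoeff_zero] at hPlc
    exact absurd hPlc.symm (by positivity)
  have heval : ∀ u, P.eval u = ∏ i ∈ S, (4 * u + 12 - 16 * d i) := by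
    intro u
    rw [hP, Polynomial.eval_prod]
    refine Finset.prod_congr rfl fun i _ => ?_
    simp
    ring
  have hdegree : P.degree = n := by
    rw [Polynomial.degree_eq_natDegree hP0, hPd]
  rcases Nat.eq_zero_or_pos n with h0 | h0
  · have h1 := hcon 1 ⟨by norm_num, le_refl _⟩
    rw [h0, pow_zero] at h1
    have h2 : S = ∅ := Finset.card_eq_zero.1 (hn.symm.trans h0)
    rw [h2, Finset.prod_empty] at h1
    exact lt_irrefl _ h1
  · have h1 := Polynomial.Chebyshev.leadingCoeff_le_of_forall_abs_le_one (P := P) (n := n) (by rw [hdegree])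
      (fun u hu => by rw [heval]; exact hq u hu)
    rw [hPlc] at h1
    have h2 : (2 : ℝ) ^ (n - 1) < 4 ^ n := by
      calc (2 : ℝ) ^ (n - 1) ≤ 2 ^ n := pow_le_pow_right₀ (by norm_num) (by omega)
        _ < 4 ^ n := pow_lt_pow_left₀ (by norm_num) (by norm_num) (by omega)
    linarith

end Pool.Agent.Lib.H18Q
end

-- from Lib.H18Q.T2
section

/-!
# Project H18Q, chunk T2: the polynomial of the power sum method
-/

open Finset

namespace Pool.Agent.Lib.H18Q

open Polynomial in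
theorem T2_D {ι : Type*} [DecidableEq ι] (z : ι → ℂ) (S : Finset ι) (hz : ∀ i ∈ S, ‖z i‖ ≤ 1) :
    ∀ a, ‖(∏ j ∈ S, (1 - C (z j) * X) : ℂ[X]).coeff a‖ ≤ (S.card.choose a : ℝ) := by
  induction S using Finset.induction_on with
  | empty =>
    intro a
    rw [prod_empty, card_empty, coeff_one]
    rcases Nat.eq_zero_or_pos a with rfl | ha
    · simp
    · rw [if_neg ha.ne', norm_zero]
      positivity
  | insert i S hi ih =>
    intro a
    have ih' := ih fun j hj => hz j (mem_insert_of_mem hj)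
    have e : (∏ j ∈ insert i S, (1 - C (z j) * X) : ℂ[X]) =
        (∏ j ∈ S, (1 - C (z j) * X)) - C (z i) * ((∏ j ∈ S, (1 - C (z j) * X)) * X) := by
      rw [prod_insert hi]
      ring
    rw [e, coeff_sub, coeff_C_mul, card_insert_of_notMem hi]
    rcases a with _ | a
    · rw [coeff_mul_X_zero, mul_zero, sub_zero]
      have := ih' 0
      simpa using this
    · rw [coeff_mul_X, Nat.choose_succ_succ]
      have h1 := ih' a
      have h2 := ih' (a + 1)
      have h3 : ‖z i * (∏ j ∈ S, (1 - C (z j) * X) : ℂ[X]).coeff a‖ ≤ (S.card.choose a : ℝ) := by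
        rw [norm_mul]
        calc ‖z i‖ * ‖(∏ j ∈ S, (1 - C (z j) * X) : ℂ[X]).coeff a‖
            ≤ 1 * ‖(∏ j ∈ S, (1 - C (z j) * X) : ℂ[X]).coeff a‖ :=
              mul_le_mul_of_nonneg_right (hz i (mem_insert_self _ _)) (norm_nonneg _)
          _ ≤ _ := by rw [one_mul]; exact h1
      push_cast
      calc _ ≤ ‖(∏ j ∈ S, (1 - C (z j) * X) : ℂ[X]).coeff (a + 1)‖ +
            ‖z i * (∏ j ∈ S, (1 - C (z j) * X) : ℂ[X]).coeff a‖ := norm_sub_le _ _
        _ ≤ _ := by linarith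

open Polynomial in
theorem T2_coeff {D P : ℂ[X]} {z : ℂ} (h : P * (1 - C z * X) = D) (l : ℕ) :
    P.coeff l = ∑ a ∈ range (l + 1), D.coeff a * z ^ (l - a) := by
  have e : D = P - C z * (P * X) := by
    rw [← h]
    ring
  induction l with
  | zero =>
    rw [sum_range_one, e, coeff_sub, coeff_C_mul, coeff_mul_X_zero]
    simp
  | succ l ih =>
    rw [sum_range_succ]
    have h1 : ∑ a ∈ range (l + 1), D.coeff a * z ^ (l + 1 - a) = z * P.coeff l := by
      rw [ih, mul_sum]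
      refine sum_congr rfl fun a ha => ?_
      have h2 : l + 1 - a = (l - a) + 1 := by
        have := mem_range.1 ha
        omega
      rw [h2, pow_succ]
      ring
    rw [h1, Nat.sub_self, pow_zero, mul_one]
    have h3 : D.coeff (l + 1) = P.coeff (l + 1) - z * P.coeff l := by
      conv_lhs => rw [e]
      rw [coeff_sub, coeff_C_mul, coeff_mul_X]
    rw [h3]
    ring

/-- Let `p_k = ∑_i m_i z_i^k`, `|z_i| ≤ 1`, `n = #S`, and `|p_k| ≤ M` for `K ≤ k < K + n`. Then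
`P(w) = ∑_i m_i z_i^K ∏_{j ≠ i} (1 - z_j w)` has `|P(w)| ≤ 8^n M` for `|w| ≤ 4`.

Proof. Put `D = ∏_{j ∈ S} (1 - C (z_j) X) = ∑_a D_a X^a` (polynomials); `|D_a| ≤ binom n a` by
induction on `S` (`D_a` of `S ∪ {j}` is `D_a - z_j D_{a-1}`). For `i ∈ S` put
`P_i = ∏_{j ∈ S.erase i} (1 - C (z_j) X)`, of degree `≤ n - 1`, `P_i (1 - C (z_i) X) = D`, so the
coefficients satisfy `(P_i)_l = D_l + z_i (P_i)_(l-1)`, by induction `(P_i)_l = ∑_{a ≤ l} D_a
z_i^(l-a)`. So the coefficient of `X^l` in `P = ∑_i m_i z_i^K P_i`, `l ≤ n - 1`, is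
`∑_{a ≤ l} D_a p_(K+l-a)`, of absolute value at most `2^n M` (`K ≤ K + l - a < K + n`,
`∑_a binom n a ≤ 2^n`), and `|P(w)| ≤ 2^n M ∑_{l < n} 4^l ≤ 2^n M 4^n`. (`M ≥ 0` follows from the
hypothesis if `n ≥ 1`; for `n = 0` the left side is `0` and `hM0` is used.) -/
theorem T2_poly {ι : Type*} [DecidableEq ι] (S : Finset ι) (m : ι → ℕ) (z : ι → ℂ)
    (hz : ∀ i ∈ S, ‖z i‖ ≤ 1) (K : ℕ) (M : ℝ) (hM0 : 0 ≤ M)
    (hM : ∀ k, K ≤ k → k < K + S.card → ‖∑ i ∈ S, (m i : ℂ) * z i ^ k‖ ≤ M) (w : ℂ)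
    (hw : ‖w‖ ≤ 4) :
    ‖∑ i ∈ S, (m i : ℂ) * z i ^ K * ∏ j ∈ S.erase i, (1 - z j * w)‖ ≤ 8 ^ S.card * M := by
  open Polynomial in
  rcases S.eq_empty_or_nonempty with rfl | hne
  · simp [hM0]
  have hn : 1 ≤ S.card := hne.card_pos
  let Pi : ι → Polynomial ℂ := fun i => ∏ j ∈ S.erase i, (1 - Polynomial.C (z j) * Polynomial.X)
  obtain ⟨P, hP⟩ : ∃ P : Polynomial ℂ, P = ∑ i ∈ S, Polynomial.C ((m i : ℂ) * z i ^ K) * Pi i := ⟨_, rfl⟩
  obtain ⟨D, hD⟩ : ∃ D : Polynomial ℂ, D = ∏ j ∈ S, (1 - Polynomial.C (z j) * Polynomial.X) := ⟨_, rfl⟩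
  have hPD : ∀ i ∈ S, Pi i * (1 - Polynomial.C (z i) * Polynomial.X) = D := by
    intro i hi
    rw [hD, ← mul_prod_erase S _ hi, mul_comm]
  have hev : P.eval w = ∑ i ∈ S, (m i : ℂ) * z i ^ K * ∏ j ∈ S.erase i, (1 - z j * w) := by
    rw [hP, Polynomial.eval_finsetSum]
    refine sum_congr rfl fun i _ => ?_
    rw [Polynomial.eval_mul, Polynomial.eval_C, Polynomial.eval_prod]
    congr 1
    refine prod_congr rfl fun j _ => ?_
    simp
  have hdeg : P.natDegree < S.card := by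
    have h1 : P.natDegree ≤ S.card - 1 := by
      rw [hP]
      refine Polynomial.natDegree_sum_le_of_forall_le _ _ fun i hi => ?_
      refine (Polynomial.natDegree_C_mul_le _ _).trans ?_
      refine (Polynomial.natDegree_prod_le _ _).trans ?_
      refine (sum_le_card_nsmul _ _ 1 fun j _ => ?_).trans ?_
      · compute_degree
      · rw [card_erase_of_mem hi, smul_eq_mul, mul_one]
    omega
  have hco : ∀ l, P.coeff l = ∑ a ∈ range (l + 1), D.coeff a * ∑ i ∈ S, (m i : ℂ) * z i ^ (K + l - a) := by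
    intro l
    rw [hP, Polynomial.finsetSum_coeff]
    have h1 : ∀ i ∈ S, (Polynomial.C ((m i : ℂ) * z i ^ K) * Pi i).coeff l =
        ∑ a ∈ range (l + 1), D.coeff a * ((m i : ℂ) * z i ^ (K + l - a)) := by
      intro i hi
      rw [Polynomial.coeff_C_mul, T2_coeff (hPD i hi) l, mul_sum]
      refine sum_congr rfl fun a ha => ?_
      have h2 : K + l - a = K + (l - a) := by
        have := mem_range.1 ha
        omega
      rw [h2, pow_add]
      ring
    rw [sum_congr rfl h1, sum_comm]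
    refine sum_congr rfl fun a _ => ?_
    rw [mul_sum]
  have hbd : ∀ l, l < S.card → ‖P.coeff l‖ ≤ 2 ^ S.card * M := by
    intro l hl
    rw [hco l]
    calc ‖∑ a ∈ range (l + 1), D.coeff a * ∑ i ∈ S, (m i : ℂ) * z i ^ (K + l - a)‖
        ≤ ∑ a ∈ range (l + 1), ‖D.coeff a * ∑ i ∈ S, (m i : ℂ) * z i ^ (K + l - a)‖ := norm_sum_le _ _
      _ ≤ ∑ a ∈ range (l + 1), (S.card.choose a : ℝ) * M := by
          refine sum_le_sum fun a ha => ?_
          have h1 := mem_range.1 ha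
          rw [norm_mul]
          refine mul_le_mul ?_ (hM _ (by omega) (by omega)) (norm_nonneg _) (by positivity)
          rw [hD]
          exact T2_D z S hz a
      _ ≤ ∑ a ∈ range (S.card + 1), (S.card.choose a : ℝ) * M := by
          refine sum_le_sum_of_subset_of_nonneg (range_subset_range.2 (by omega)) fun a _ _ => by positivity
      _ = 2 ^ S.card * M := by
          rw [← sum_mul]
          congr 1
          have := Nat.sum_range_choose S.card
          exact_mod_cast this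
  rw [← hev, Polynomial.eval_eq_sum_range' hdeg]
  calc ‖∑ l ∈ range S.card, P.coeff l * w ^ l‖ ≤ ∑ l ∈ range S.card, ‖P.coeff l * w ^ l‖ := norm_sum_le _ _
    _ ≤ ∑ l ∈ range S.card, 2 ^ S.card * M * 4 ^ l := by
        refine sum_le_sum fun l hl => ?_
        rw [norm_mul, norm_pow]
        exact mul_le_mul (hbd l (mem_range.1 hl)) (pow_le_pow_left₀ (norm_nonneg _) hw l) (by positivity) (by positivity)
    _ = 2 ^ S.card * M * ∑ l ∈ range S.card, (4 : ℝ) ^ l := by rw [mul_sum]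
    _ ≤ 2 ^ S.card * M * 4 ^ S.card := by
        refine mul_le_mul_of_nonneg_left ?_ (by positivity)
        rw [geom_sum_eq (by norm_num)]
        have h4 : (1 : ℝ) ≤ 4 ^ S.card := one_le_pow₀ (by norm_num)
        rw [div_le_iff₀ (by norm_num)]
        linarith
    _ = 8 ^ S.card * M := by
        have h5 : (8 : ℝ) = 2 * 4 := by norm_num
        rw [h5, mul_pow]
        ring

end Pool.Agent.Lib.H18Q
end

-- from Lib.H18Q.T3
section

/-!
# Project H18Q, chunk T3: power sums (weak form of Turán's theorem)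
-/

open Finset

namespace Pool.Agent.Lib.H18Q

/-- One term of the contour integral: a point inside the circle. -/
theorem t3_inside {w0 : ℂ} {t : ℝ} {u : ℂ} (n : ℕ) (hu : ‖u - w0‖ < t) :
    (∮ w in C(w0, t), (w - u)⁻¹ • w ^ n) = (2 * Real.pi * Complex.I : ℂ) • u ^ n := by
  have hd : DifferentiableOn ℂ (fun w : ℂ => w ^ n) (Metric.closedBall w0 t) :=
    (differentiable_pow n).differentiableOn
  exact hd.circleIntegral_sub_inv_smul (by
    rw [Metric.mem_ball, dist_eq_norm]; exact hu)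

/-- One term of the contour integral: a point outside the circle. -/
theorem t3_outside {w0 : ℂ} {t : ℝ} (ht : 0 ≤ t) {u : ℂ} (n : ℕ) (hu : t < ‖u - w0‖) :
    (∮ w in C(w0, t), (w - u)⁻¹ • w ^ n) = 0 := by
  have hd : DifferentiableOn ℂ (fun w : ℂ => (w - u)⁻¹ • w ^ n) (Metric.closedBall w0 t) := by
    intro w hw
    have hne : w - u ≠ 0 := by
      intro h
      rw [sub_eq_zero] at h
      rw [Metric.mem_closedBall, dist_eq_norm, h] at hw
      linarith
    have h1 : DifferentiableAt ℂ (fun w : ℂ => (w - u)⁻¹ • w ^ n) w := by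
      exact DifferentiableAt.fun_smul ((differentiableAt_id.sub_const u).inv hne)
        (differentiableAt_pow n)
    exact h1.differentiableWithinAt
  exact (hd.mono Metric.closure_ball_subset_closedBall).diffContOnCl.circleIntegral_eq_zero ht

/-- The lower bound for the product on the circle. -/
theorem t3_prod {ι : Type*} [DecidableEq ι] (S : Finset ι) (z : ι → ℂ)
    (w0 : ℂ) (hw0 : ‖w0‖ ≤ 3) (t : ℝ) (ht1 : t ≤ 1)
    (hp : (1 / 16 : ℝ) ^ (S.filter (fun j => (1 / 8 : ℝ) < ‖z j‖)).card ≤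
      ∏ j ∈ S.filter (fun j => (1 / 8 : ℝ) < ‖z j‖), |t - ‖(z j)⁻¹ - w0‖|)
    (w : ℂ) (hw : ‖w - w0‖ = t) :
    (1 / 128 : ℝ) ^ S.card ≤ ‖∏ j ∈ S, (1 - z j * w)‖ := by
  have hw4 : ‖w‖ ≤ 4 := by
    calc ‖w‖ = ‖(w - w0) + w0‖ := by ring_nf
      _ ≤ ‖w - w0‖ + ‖w0‖ := norm_add_le _ _
      _ ≤ 4 := by rw [hw]; linarith
  have h2 : ∀ j ∈ S.filter (fun j => (1 / 8 : ℝ) < ‖z j‖),
      (1 / 8) * |t - ‖(z j)⁻¹ - w0‖| ≤ ‖1 - z j * w‖ := by
    intro j hj
    rw [mem_filter] at hj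
    have hz0 : z j ≠ 0 := by
      intro h; rw [h, norm_zero] at hj; linarith [hj.2]
    have e1 : 1 - z j * w = z j * ((z j)⁻¹ - w) := by field_simp
    rw [e1, norm_mul]
    have h3 : |t - ‖(z j)⁻¹ - w0‖| ≤ ‖(z j)⁻¹ - w‖ := by
      have := abs_norm_sub_norm_le (w - w0) ((z j)⁻¹ - w0)
      rw [hw] at this
      refine this.trans (le_of_eq ?_)
      rw [← norm_neg]
      congr 1
      ring
    exact mul_le_mul hj.2.le h3 (abs_nonneg _) (norm_nonneg _)
  have h3 : ∀ j ∈ S.filter (fun j => ¬ (1 / 8 : ℝ) < ‖z j‖), (1 / 128 : ℝ) ≤ ‖1 - z j * w‖ := by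
    intro j hj
    rw [mem_filter, not_lt] at hj
    have h4 : ‖z j * w‖ ≤ 1 / 2 := by
      rw [norm_mul]
      calc ‖z j‖ * ‖w‖ ≤ (1 / 8) * 4 :=
            mul_le_mul hj.2 hw4 (norm_nonneg _) (by norm_num)
        _ = 1 / 2 := by norm_num
    have h5 : (1 : ℝ) - ‖z j * w‖ ≤ ‖1 - z j * w‖ := by
      have := norm_sub_norm_le (1 : ℂ) (z j * w)
      rwa [norm_one] at this
    linarith
  rw [norm_prod, ← Finset.prod_filter_mul_prod_filter_not S (fun j => (1 / 8 : ℝ) < ‖z j‖),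
    ← Finset.card_filter_add_card_filter_not (s := S) (fun j => (1 / 8 : ℝ) < ‖z j‖), pow_add]
  apply mul_le_mul
  · calc (1 / 128 : ℝ) ^ (S.filter (fun j => (1 / 8 : ℝ) < ‖z j‖)).card
        = (1 / 8) ^ (S.filter (fun j => (1 / 8 : ℝ) < ‖z j‖)).card *
          (1 / 16) ^ (S.filter (fun j => (1 / 8 : ℝ) < ‖z j‖)).card := by
          rw [← mul_pow]; norm_num
      _ ≤ (1 / 8) ^ (S.filter (fun j => (1 / 8 : ℝ) < ‖z j‖)).card *
          ∏ j ∈ S.filter (fun j => (1 / 8 : ℝ) < ‖z j‖), |t - ‖(z j)⁻¹ - w0‖| :=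
          mul_le_mul_of_nonneg_left hp (by positivity)
      _ = ∏ j ∈ S.filter (fun j => (1 / 8 : ℝ) < ‖z j‖),
            ((1 / 8) * |t - ‖(z j)⁻¹ - w0‖|) := by
          rw [Finset.prod_mul_distrib, Finset.prod_const]
      _ ≤ _ := Finset.prod_le_prod (fun j _ => by positivity) h2
  · calc (1 / 128 : ℝ) ^ (S.filter (fun j => ¬ (1 / 8 : ℝ) < ‖z j‖)).card
        = ∏ _j ∈ S.filter (fun j => ¬ (1 / 8 : ℝ) < ‖z j‖), (1 / 128 : ℝ) := by
          rw [Finset.prod_const]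
      _ ≤ _ := Finset.prod_le_prod (fun j _ => by norm_num) h3
  · positivity
  · exact Finset.prod_nonneg fun j _ => norm_nonneg _

/-- Let `|z_i| ≤ 1`, `m_i` natural numbers, `i ∈ S`, `#S ≤ K`, and `|z_{i0}| ≥ 1/3`,
`m_{i0} ≥ 1` for one `i0 ∈ S`. Then some power sum `p_k = ∑ m_i z_i^k`, `K ≤ k < 2 K`, has
`|p_k| ≥ 4096^(-K)`.

Proof. Suppose not; put `M = 4096^(-K)`, `n = #S`. Let `w0 = 1/z_{i0}`, `1 ≤ |w0| ≤ 3`. Let
`S2 = {j ∈ S : |z_j| > 1/8}`, `d_j = |w0 - 1/z_j|` for `j ∈ S2`; take `t ∈ [1/2, 1]` from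
`T1_far S2 d`. On the circle `|w - w0| = t` we have `|w| ≤ 4` and
`|1 - z_j w| ≥ 1 - 4/8 = 1/2` for `j ∉ S2`, `|1 - z_j w| = |z_j| |w - 1/z_j| ≥ (1/8) |t - d_j|` for
`j ∈ S2` (`|w - 1/z_j| ≥ | |w - w0| - |w0 - 1/z_j| |`). So `|∏_{j ∈ S} (1 - z_j w)| ≥
8^(-n) 16^(-#S2) ≥ 128^(-n) > 0`; in particular no `1/z_j` is on the circle. Put
`H(w) = ∑_i m_i z_i^K / (1 - z_i w) = P(w) / ∏ (1 - z_j w)`, with `P` of `T2_poly`
(`K ≤ k < K + n ≤ 2 K`): on the circle `|H(w)| ≤ 8^n M 128^n = 1024^n M ≤ 1024^K M`, and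
`|w^(K-1)| ≤ 4^(K-1)`. By Cauchy's formula, for each `i` the circle integral
`(1/2πi) ∮ m_i z_i^K w^(K-1) / (1 - z_i w) dw` is `0` if `z_i = 0` (`K ≥ 1`), and for `z_i ≠ 0`,
since `1/(1 - z_i w) = -(1/z_i) / (w - 1/z_i)`, it is `-m_i z_i^(K-1) (1/z_i)^(K-1) = -m_i` if
`|1/z_i - w0| < t`, and `0` if `|1/z_i - w0| > t` (`Complex.circleIntegral_sub_inv_smul_of_...`,
`circleIntegral_eq_zero_of_differentiable_on_off_countable` or
`DiffContOnCl.circleIntegral_eq_zero`). The index `i0` has `1/z_{i0} = w0` inside. So the total is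
`-∑_{inside} m_i`, of absolute value `≥ m_{i0} ≥ 1`. But it is at most
`t · 1024^K M · 4^(K-1) ≤ 4096^K M / 4 < 1`. Contradiction. -/
theorem turan {ι : Type*} (S : Finset ι) (m : ι → ℕ) (z : ι → ℂ) (K : ℕ) (hK : 1 ≤ K)
    (hc : S.card ≤ K) (hz : ∀ i ∈ S, ‖z i‖ ≤ 1) (i0 : ι) (hi0 : i0 ∈ S) (hm : 1 ≤ m i0)
    (hz0 : 1 / 3 ≤ ‖z i0‖) :
    ∃ k, K ≤ k ∧ k < 2 * K ∧ (1 / 4096 : ℝ) ^ K ≤ ‖∑ i ∈ S, (m i : ℂ) * z i ^ k‖ := by
  classical
  by_contra hcon
  push Not at hcon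
  set M : ℝ := (1 / 4096 : ℝ) ^ K with hMdef
  have hM0 : 0 < M := by positivity
  have hzi0 : z i0 ≠ 0 := by
    intro h; rw [h, norm_zero] at hz0; linarith
  set w0 : ℂ := (z i0)⁻¹ with hw0def
  have hw03 : ‖w0‖ ≤ 3 := by
    rw [hw0def, norm_inv]
    have := inv_anti₀ (by norm_num : (0 : ℝ) < 1 / 3) hz0
    norm_num at this
    exact this
  obtain ⟨t, ⟨ht0, ht1⟩, hprod⟩ := T1_far (S.filter (fun j => (1 / 8 : ℝ) < ‖z j‖))
    (fun j => ‖(z j)⁻¹ - w0‖)
  have htpos : 0 < t := by linarith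
  have hlow : ∀ w : ℂ, ‖w - w0‖ = t → (1 / 128 : ℝ) ^ S.card ≤ ‖∏ j ∈ S, (1 - z j * w)‖ :=
    fun w hw => t3_prod S z w0 hw03 t ht1 hprod w hw
  have hlowpos : ∀ w : ℂ, ‖w - w0‖ = t → ∀ j ∈ S, 1 - z j * w ≠ 0 := by
    intro w hw j hj h0
    have h1 := hlow w hw
    rw [Finset.prod_eq_zero hj h0, norm_zero] at h1
    have : (0 : ℝ) < (1 / 128 : ℝ) ^ S.card := by positivity
    linarith
  have hne : ∀ i ∈ S, z i ≠ 0 → ‖(z i)⁻¹ - w0‖ ≠ t := by
    intro i hi hzi h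
    apply hlowpos _ h i hi
    rw [mul_inv_cancel₀ hzi, sub_self]
  -- the terms
  set F : ι → ℂ → ℂ := fun i w => (m i : ℂ) * z i ^ K * w ^ (K - 1) / (1 - z i * w) with hF
  have hFcont : ∀ i ∈ S, ContinuousOn (F i) (Metric.sphere w0 t) := by
    intro i hi
    apply ContinuousOn.div
    · fun_prop
    · fun_prop
    · intro w hw
      rw [mem_sphere_iff_norm] at hw
      exact hlowpos w hw i hi
  have hint : ∀ i ∈ S, CircleIntegrable (F i) w0 t := fun i hi =>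
    (hFcont i hi).circleIntegrable htpos.le
  set c : ι → ℝ := fun i => if z i ≠ 0 ∧ ‖(z i)⁻¹ - w0‖ < t then (m i : ℝ) else 0 with hc'
  have hterm : ∀ i ∈ S, (∮ w in C(w0, t), F i w) = -(2 * Real.pi * Complex.I) * (c i : ℂ) := by
    intro i hi
    by_cases hzi : z i = 0
    · have h1 : F i = fun _ => 0 := by
        funext w
        simp only [hF, hzi]
        rw [zero_pow (by omega)]
        ring
      have h2 : c i = 0 := by
        simp only [hc', hzi]
        simp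
      rw [h1, h2]
      simp [circleIntegral]
    · have h1 : (∮ w in C(w0, t), F i w) =
          -((m i : ℂ) * z i ^ (K - 1)) * ∮ w in C(w0, t), (w - (z i)⁻¹)⁻¹ • w ^ (K - 1) := by
        rw [← circleIntegral.integral_const_mul]
        apply circleIntegral.integral_congr htpos.le
        intro w hw
        rw [mem_sphere_iff_norm] at hw
        have h3 : 1 - z i * w ≠ 0 := hlowpos w hw i hi
        have h4 : w - (z i)⁻¹ ≠ 0 := by
          intro h
          apply h3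
          rw [sub_eq_zero] at h
          rw [h, mul_inv_cancel₀ hzi, sub_self]
        have h5 : 1 - z i * w = -(z i * (w - (z i)⁻¹)) := by
          rw [mul_sub, mul_inv_cancel₀ hzi]; ring
        simp only [hF, smul_eq_mul]
        rw [h5]
        have h6 : z i ^ K = z i * z i ^ (K - 1) := by
          rw [← pow_succ']; congr 1; omega
        rw [h6]
        field_simp
      rcases lt_or_gt_of_ne (hne i hi hzi) with hlt | hgt
      · rw [h1, t3_inside _ hlt]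
        have h2 : c i = m i := by
          simp only [hc']
          rw [if_pos ⟨hzi, hlt⟩]
        rw [h2]
        have h7 : z i ^ (K - 1) * (z i)⁻¹ ^ (K - 1) = 1 := by
          rw [← mul_pow, mul_inv_cancel₀ hzi, one_pow]
        simp only [smul_eq_mul]
        push_cast
        linear_combination (-(m i : ℂ) * (2 * Real.pi * Complex.I)) * h7
      · rw [h1, t3_outside htpos.le _ hgt]
        have h2 : c i = 0 := by
          simp only [hc']
          rw [if_neg]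
          intro h
          linarith [h.2]
        rw [h2]
        simp
  have htotal : (∮ w in C(w0, t), ∑ i ∈ S, F i w) =
      -(2 * Real.pi * Complex.I) * ((∑ i ∈ S, c i : ℝ) : ℂ) := by
    rw [circleIntegral.integral_fun_sum hint, Finset.sum_congr rfl hterm, ← Finset.mul_sum]
    push_cast
    rfl
  have hcsum : (1 : ℝ) ≤ ∑ i ∈ S, c i := by
    have h1 : ∀ i ∈ S, 0 ≤ c i := by
      intro i _
      simp only [hc']
      split_ifs <;> positivity
    have h2 : c i0 = m i0 := by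
      simp only [hc']
      rw [if_pos]
      refine ⟨hzi0, ?_⟩
      rw [← hw0def, sub_self, norm_zero]
      exact htpos
    have h3 : (1 : ℝ) ≤ c i0 := by
      rw [h2]; exact_mod_cast hm
    exact h3.trans (Finset.single_le_sum h1 hi0)
  have hup : ‖∮ w in C(w0, t), ∑ i ∈ S, F i w‖ ≤
      2 * Real.pi * t * (4 ^ (K - 1) * (8 ^ S.card * M) * 128 ^ S.card) := by
    apply circleIntegral.norm_integral_le_of_norm_le_const htpos.le
    intro w hw
    rw [mem_sphere_iff_norm] at hw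
    have hw4 : ‖w‖ ≤ 4 := by
      calc ‖w‖ = ‖(w - w0) + w0‖ := by ring_nf
        _ ≤ ‖w - w0‖ + ‖w0‖ := norm_add_le _ _
        _ ≤ 4 := by rw [hw]; linarith
    have hP := T2_poly S m z hz K M hM0.le (fun k hk1 hk2 => (hcon k hk1 (by omega)).le) w hw4
    have hQ := hlow w hw
    have hQ0 : ∏ j ∈ S, (1 - z j * w) ≠ 0 := Finset.prod_ne_zero_iff.mpr (hlowpos w hw)
    have e1 : ∑ i ∈ S, F i w = w ^ (K - 1) *
        (∑ i ∈ S, (m i : ℂ) * z i ^ K * ∏ j ∈ S.erase i, (1 - z j * w)) /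
        ∏ j ∈ S, (1 - z j * w) := by
      rw [Finset.mul_sum, Finset.sum_div]
      apply Finset.sum_congr rfl
      intro i hi
      simp only [hF]
      rw [div_eq_div_iff (hlowpos w hw i hi) hQ0, ← Finset.mul_prod_erase S _ hi]
      ring
    rw [e1, norm_div, norm_mul, norm_pow, div_le_iff₀ (norm_pos_iff.mpr hQ0)]
    have h128 : (1 : ℝ) ≤ 128 ^ S.card * ‖∏ j ∈ S, (1 - z j * w)‖ := by
      calc (1 : ℝ) = 128 ^ S.card * (1 / 128) ^ S.card := by
            rw [← mul_pow]; norm_num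
        _ ≤ _ := mul_le_mul_of_nonneg_left hQ (by positivity)
    calc ‖w‖ ^ (K - 1) * ‖∑ i ∈ S, (m i : ℂ) * z i ^ K * ∏ j ∈ S.erase i, (1 - z j * w)‖
        ≤ 4 ^ (K - 1) * (8 ^ S.card * M) := by
          apply mul_le_mul _ hP (norm_nonneg _) (by positivity)
          exact pow_le_pow_left₀ (norm_nonneg _) hw4 _
      _ = 4 ^ (K - 1) * (8 ^ S.card * M) * 1 := by ring
      _ ≤ 4 ^ (K - 1) * (8 ^ S.card * M) * (128 ^ S.card * ‖∏ j ∈ S, (1 - z j * w)‖) :=
          mul_le_mul_of_nonneg_left h128 (by positivity)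
      _ = _ := by ring
  rw [htotal, norm_mul, norm_neg] at hup
  have hn1 : ‖(2 * Real.pi * Complex.I : ℂ)‖ = 2 * Real.pi := by
    simp [abs_of_pos Real.pi_pos]
  rw [hn1, Complex.norm_real, Real.norm_eq_abs, abs_of_nonneg (by linarith)] at hup
  have hpi := Real.pi_pos
  have hbound : t * (4 ^ (K - 1) * (8 ^ S.card * M) * 128 ^ S.card) ≤ 1 / 4 := by
    have h1 : (8 : ℝ) ^ S.card * 128 ^ S.card ≤ 1024 ^ K := by
      rw [← mul_pow]
      norm_num
      exact pow_le_pow_right₀ (by norm_num) hc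
    have h2 : (4 : ℝ) ^ (K - 1) * 4 = 4 ^ K := by
      rw [← pow_succ]; congr 1; omega
    have h3 : (4 : ℝ) ^ K * 1024 ^ K * M = 1 := by
      rw [hMdef, ← mul_pow, ← mul_pow]; norm_num
    calc t * (4 ^ (K - 1) * (8 ^ S.card * M) * 128 ^ S.card)
        = t * (4 ^ (K - 1) * M * (8 ^ S.card * 128 ^ S.card)) := by ring
      _ ≤ 1 * (4 ^ (K - 1) * M * 1024 ^ K) := by
          apply mul_le_mul ht1 _ (by positivity) (by norm_num)
          exact mul_le_mul_of_nonneg_left h1 (by positivity)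
      _ = (4 ^ (K - 1) * 4) * 1024 ^ K * M / 4 := by ring
      _ = 1 / 4 := by rw [h2, h3]
  have : 2 * Real.pi * 1 ≤ 2 * Real.pi * (1 / 4) := by
    calc 2 * Real.pi * 1 ≤ 2 * Real.pi * ∑ i ∈ S, c i :=
          mul_le_mul_of_nonneg_left hcsum (by positivity)
      _ ≤ _ := hup
      _ = 2 * Real.pi * (t * (4 ^ (K - 1) * (8 ^ S.card * M) * 128 ^ S.card)) := by ring
      _ ≤ _ := mul_le_mul_of_nonneg_left hbound (by positivity)
  nlinarith

end Pool.Agent.Lib.H18Q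
end

-- from Lib.H18E.PG
section

/-!
# Chunk PG: weighted correlations of Ramanujan sums along a progression
-/

open Finset Pool.Agent.Lib.H68T

namespace Pool.Agent.Lib.H18E

theorem pg_cq_congr {q : ℕ} {m m' : ℤ} (h : (q : ℤ) ∣ m - m') : cq q m = cq q m' := by
  unfold cq
  refine sum_congr (filter_congr fun d hd => ?_) fun _ _ => rfl
  have hdq : (d : ℤ) ∣ m - m' :=
    (Int.natCast_dvd_natCast.mpr (Nat.dvd_of_mem_divisors hd)).trans h
  constructor
  · intro h1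
    have := dvd_sub h1 hdq
    simpa using this
  · intro h1
    have := dvd_add hdq h1
    simpa using this

theorem pg_cq_mul {q W : ℕ} (h : Nat.Coprime q W) (m : ℤ) : cq q (W * m) = cq q m := by
  unfold cq
  refine sum_congr (filter_congr fun d hd => ?_) fun _ _ => rfl
  have hc : IsCoprime (d : ℤ) (W : ℤ) :=
    Nat.isCoprime_iff_coprime.mpr (Nat.Coprime.coprime_dvd_left (Nat.dvd_of_mem_divisors hd) h)
  exact ⟨fun h1 => hc.dvd_of_dvd_mul_left h1, fun h1 => dvd_mul_of_dvd_right h1 _⟩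

theorem pg_exists {q W : ℕ} (hq : 0 < q) (h : Nat.Coprime q W) (x : ℤ) :
    ∃ s : ℕ, (q : ℤ) ∣ x - W * s := by
  obtain ⟨a, b, hab⟩ := Nat.isCoprime_iff_coprime.mpr h
  have hq' : (0 : ℤ) < q := by exact_mod_cast hq
  refine ⟨((x * b) % q).toNat, ?_⟩
  rw [Int.toNat_of_nonneg (Int.emod_nonneg _ hq'.ne'), Int.emod_def]
  refine ⟨x * a + W * (x * b / q), ?_⟩
  linear_combination (-x) * hab

/-- As `cg1_corr` (file `H68T/CG1.lean`, with `cg1_count`), for arbitrary starting points: `x + W c`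
instead of `b + W (s + c)`, `y + W c` instead of `b + W (s' + c)`; the condition
`gcd(d₁,d₂) ∣ s - s'` becomes `gcd(d₁,d₂) ∣ x - y`. -/
theorem corr_gen (q₁ q₂ W N : ℕ) (x y : ℤ) (h₁ : 0 < q₁) (h₂ : 0 < q₂)
    (c₁ : Nat.Coprime q₁ W) (c₂ : Nat.Coprime q₂ W) :
    |∑ c ∈ range N, cq q₁ (x + W * (c : ℕ)) * cq q₂ (y + W * (c : ℕ)) -
      N * (if q₁ = q₂ then cq q₁ (x - y) else 0)| ≤
      (∑ d ∈ q₁.divisors, (d : ℝ)) * ∑ d ∈ q₂.divisors, (d : ℝ) := by
  obtain ⟨s, hs⟩ := pg_exists h₁ c₁ x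
  obtain ⟨s', hs'⟩ := pg_exists h₂ c₂ y
  have h := cg1_corr q₁ q₂ W 0 s s' N h₁ h₂ c₁ c₂
  have e1 : ∑ c ∈ range N, cq q₁ (x + W * (c : ℕ)) * cq q₂ (y + W * (c : ℕ)) =
      ∑ c ∈ range N, cq q₁ (((0 : ℕ) : ℤ) + W * (s + c : ℕ)) *
        cq q₂ (((0 : ℕ) : ℤ) + W * (s' + c : ℕ)) := by
    refine sum_congr rfl fun c _ => ?_
    congr 1
    · apply pg_cq_congr
      have : x + W * (c : ℕ) - (((0 : ℕ) : ℤ) + W * (s + c : ℕ)) = x - W * s := by push_cast; ring
      rw [this]; exact hs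
    · apply pg_cq_congr
      have : y + W * (c : ℕ) - (((0 : ℕ) : ℤ) + W * (s' + c : ℕ)) = y - W * s' := by
        push_cast; ring
      rw [this]; exact hs'
  have e2 : (if q₁ = q₂ then cq q₁ (x - y) else 0) =
      (if q₁ = q₂ then cq q₁ ((s : ℤ) - s') else 0) := by
    split_ifs with hq
    · subst hq
      rw [← pg_cq_mul c₁ ((s : ℤ) - s')]
      apply pg_cq_congr
      have := dvd_sub hs hs'
      have e : x - y - W * ((s : ℤ) - s') = x - W * s - (y - W * s') := by ring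
      rw [e]; exact this
    · rfl
  rw [e1, e2]
  exact h

end Pool.Agent.Lib.H18E
end

-- from Lib.H18Q.QDefs
section

/-!
# Project H18Q: definitions for the zeros of L-functions

`od f ρ` order of vanishing, `ZD f c R` zeros in a closed disc, `ZR f σ T` zeros in a rectangle,
`Lp p` the entire function attached to a primitive character (`(s-1)ζ(s)` for the trivial one),
`Lx r ψ β p` the same with the zero `β` of `L(s, ψ)` removed, `Jk lam k n` the weights of the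
power sum method, `LDat C0 ℓ T f` growth data.
-/

open Finset

namespace Pool.Agent.Lib.H18Q

open Pool.Agent.Lib.H68T

noncomputable section

/-- Order of vanishing of `f` at `ρ`. -/
def od (f : ℂ → ℂ) (ρ : ℂ) : ℕ := analyticOrderNatAt f ρ

open Classical in
/-- The zeros of `f` in a set, if there are finitely many of them. -/
def ZS (f : ℂ → ℂ) (S : Set ℂ) : Finset ℂ :=
  if h : ({ρ : ℂ | f ρ = 0 ∧ ρ ∈ S}).Finite then h.toFinset else ∅

/-- The zeros of `f` in the closed disc with centre `c` and radius `R`. -/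
def ZD (f : ℂ → ℂ) (c : ℂ) (R : ℝ) : Finset ℂ := ZS f (Metric.closedBall c R)

/-- The zeros of `f` with `σ ≤ Re ρ ≤ 1` and `|Im ρ| ≤ T`. -/
def ZR (f : ℂ → ℂ) (σ T : ℝ) : Finset ℂ := ZS f {ρ | σ ≤ ρ.re ∧ ρ.re ≤ 1 ∧ |ρ.im| ≤ T}

/-- The entire function attached to a character: `(s-1) ζ(s)` for the trivial character modulo
`1`, else `L(s, χ)`. -/
def Lp (p : Σ r : ℕ, DirichletCharacter ℂ r) : ℂ → ℂ :=
  open Classical in
  if p = p0 then gl2_Z else
    if h : p.1 = 0 then fun _ => 1 else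
      haveI : NeZero p.1 := ⟨h⟩
      p.2.LFunction

/-- `Lp p` with the zero `β` of `L(s, ψ)` removed for `p = (r, ψ)`. -/
def Lx (r : ℕ) (ψ : DirichletCharacter ℂ r) (β : ℝ) (p : Σ r : ℕ, DirichletCharacter ℂ r) :
    ℂ → ℂ :=
  open Classical in
  if p = ⟨r, ψ⟩ then dslope (Lp ⟨r, ψ⟩) (β : ℂ) else Lp p

/-- The weights of the power sum method: `lam^(k+1) (log n)^k / k! n^(-1-lam)`. -/
def Jk (lam : ℝ) (k n : ℕ) : ℝ :=
  lam ^ (k + 1) * Real.log n ^ k / (k.factorial : ℝ) * (n : ℝ) ^ (-1 - lam)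

/-- Growth data of an entire function near the line `Re s = 1`: zeros only in `Re s < 1`, growth
`exp (C0 ℓ)` in discs of radius `1/2` about the points `1 + lam + i v`, `1/ℓ ≤ lam ≤ 1/8`,
`|v| ≤ T`, and logarithmic derivative at these points at most `C0 / lam`. -/
structure LDat (C0 ℓ T : ℝ) (f : ℂ → ℂ) : Prop where
  diff : Differentiable ℂ f
  zre : ∀ ρ : ℂ, f ρ = 0 → ρ.re < 1
  growth : ∀ lam v : ℝ, 1 / ℓ ≤ lam → lam ≤ 1 / 8 → |v| ≤ T →
    ∀ s ∈ Metric.closedBall (1 + lam + v * Complex.I : ℂ) (1 / 2),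
      ‖f s‖ ≤ Real.exp (C0 * ℓ) * ‖f (1 + lam + v * Complex.I)‖
  ld : ∀ lam v : ℝ, 1 / ℓ ≤ lam → lam ≤ 1 / 8 → |v| ≤ T →
    ‖logDeriv f (1 + lam + v * Complex.I)‖ ≤ C0 / lam

/-- The threshold for the width of the region in which zeros are detected. -/
def th0 : ℝ := 1 / 10 ^ 9

end

theorem Lp_p0 : Lp p0 = gl2_Z := by
  unfold Lp
  rw [if_pos rfl]

theorem Lp_mk (r : ℕ) [NeZero r] (ψ : DirichletCharacter ℂ r)
    (h : (⟨r, ψ⟩ : Σ r : ℕ, DirichletCharacter ℂ r) ≠ p0) : Lp ⟨r, ψ⟩ = ψ.LFunction := by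
  unfold Lp
  rw [if_neg h, dif_neg (NeZero.ne r)]

theorem Lx_mk (r : ℕ) (ψ : DirichletCharacter ℂ r) (β : ℝ) :
    Lx r ψ β ⟨r, ψ⟩ = dslope (Lp ⟨r, ψ⟩) (β : ℂ) := by
  unfold Lx
  rw [if_pos rfl]

theorem Lx_of_ne (r : ℕ) (ψ : DirichletCharacter ℂ r) (β : ℝ)
    (p : Σ r : ℕ, DirichletCharacter ℂ r) (h : p ≠ ⟨r, ψ⟩) : Lx r ψ β p = Lp p := by
  unfold Lx
  rw [if_neg h]

/-- A member of `PC Q` different from `p0` is a character different from `1`. -/
theorem ne_one_of_ne_p0 {Q : ℕ} {p : Σ r : ℕ, DirichletCharacter ℂ r} (hp : p ∈ PC Q)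
    (h : p ≠ p0) : p.2 ≠ 1 := by
  intro h1
  apply h
  obtain ⟨r, ψ⟩ := p
  have hp' := (mem_PC.mp hp).2.2
  have hr := (mem_PC.mp hp).1
  simp only at h1 hp' hr
  have hne : NeZero r := ⟨by omega⟩
  have h2 : r = 1 := by
    have h3 := hp'
    unfold DirichletCharacter.IsPrimitive at h3
    rw [h1, DirichletCharacter.conductor_one] at h3
    exact h3.symm
  subst h2
  rw [h1]
  rfl

theorem Lp_mem {Q : ℕ} {p : Σ r : ℕ, DirichletCharacter ℂ r} (hp : p ∈ PC Q) (h : p ≠ p0) :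
    ∃ _h : NeZero p.1, Lp p = p.2.LFunction := by
  have h1 := (mem_PC.mp hp).1
  have hne : NeZero p.1 := ⟨by omega⟩
  refine ⟨hne, ?_⟩
  obtain ⟨r, ψ⟩ := p
  exact Lp_mk r ψ h

end Pool.Agent.Lib.H18Q
end

-- from Lib.H18Q.S2
section

/-!
# Project H18Q, chunk S2: the mean value of the sieve majorant
-/

open Finset

namespace Pool.Agent.Lib.H18Q

open Pool.Agent.Lib.H68T

/-- `V z = ∑_{q ≤ z} μ²(q)/φ(q)`. -/
noncomputable def Vz (z : ℕ) : ℝ :=
  ∑ q ∈ Icc 1 z, (ArithmeticFunction.moebius q : ℝ) ^ 2 / (Nat.totient q : ℝ)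

theorem s2_rad (n : ℕ) (hn : n ≠ 0) : Squarefree (∏ p ∈ n.primeFactors, p) ∧
    (∏ p ∈ n.primeFactors, p).primeFactors = n.primeFactors := by
  refine ⟨?_, Nat.primeFactors_prod fun p hp => Nat.prime_of_mem_primeFactors hp⟩
  rw [← Nat.radical_eq_prod_primeFactors]
  exact UniqueFactorizationMonoid.squarefree_radical

/-- The sum of `1/n` over numbers with radical `q`. -/
theorem s2_fiber (q z : ℕ) (hq : Squarefree q) :
    ∑ n ∈ (Icc 1 z).filter (fun n => ∏ p ∈ n.primeFactors, p = q), (1 : ℝ) / n ≤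
      1 / (Nat.totient q : ℝ) := by
  classical
  have hq0 : q ≠ 0 := hq.ne_zero
  have hqR : (0 : ℝ) < q := by exact_mod_cast Nat.pos_of_ne_zero hq0
  let f : ℕ →* ℝ :=
    { toFun := fun n => (n : ℝ)⁻¹
      map_one' := by simp
      map_mul' := fun a b => by push_cast; rw [mul_inv] }
  have hf : ∀ {p : ℕ}, p.Prime → ‖f p‖ < 1 := by
    intro p hp
    have h2 : (1 : ℝ) < p := by exact_mod_cast hp.one_lt
    change ‖(p : ℝ)⁻¹‖ < 1
    rw [Real.norm_of_nonneg (by positivity)]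
    exact inv_lt_one_of_one_lt₀ h2
  obtain ⟨hs, hS⟩ :=
    EulerProduct.summable_and_hasSum_factoredNumbers_prod_filter_prime_geometric hf q.primeFactors
  have hprod : ∏ p ∈ q.primeFactors with p.Prime, (1 - f p)⁻¹ = (q : ℝ) / (Nat.totient q : ℝ) := by
    have h1 : q.primeFactors.filter (fun p => p.Prime) = q.primeFactors :=
      Finset.filter_true_of_mem fun p hp => Nat.prime_of_mem_primeFactors hp
    have h2 : (Nat.totient q : ℝ) = q * ∏ p ∈ q.primeFactors, (1 - (p : ℝ)⁻¹) := by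
      have := Nat.totient_eq_mul_prod_factors q
      have h3 : ((Nat.totient q : ℚ) : ℝ) = ((q * ∏ p ∈ q.primeFactors, (1 - (p : ℚ)⁻¹) : ℚ) : ℝ) := by
        rw [this]
      push_cast at h3
      exact h3
    rw [h1, h2, Finset.prod_inv_distrib]
    have h3 : ∏ p ∈ q.primeFactors, (1 - f p) = ∏ p ∈ q.primeFactors, (1 - (p : ℝ)⁻¹) := rfl
    rw [h3]
    have h4 : ∏ p ∈ q.primeFactors, (1 - (p : ℝ)⁻¹) ≠ 0 := by
      rw [Finset.prod_ne_zero_iff]
      intro p hp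
      have hp' := Nat.prime_of_mem_primeFactors hp
      have h5 : (1 : ℝ) < p := by exact_mod_cast hp'.one_lt
      have h6 : (p : ℝ)⁻¹ < 1 := inv_lt_one_of_one_lt₀ h5
      linarith
    field_simp
  rw [hprod] at hS
  set A := (Icc 1 z).filter (fun n => ∏ p ∈ n.primeFactors, p = q) with hA
  have hmem : ∀ n ∈ A, q ∣ n ∧ n ≠ 0 ∧ n / q ∈ Nat.factoredNumbers q.primeFactors := by
    intro n hn
    rw [hA, Finset.mem_filter, Finset.mem_Icc] at hn
    obtain ⟨⟨h1, -⟩, h2⟩ := hn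
    have hn0 : n ≠ 0 := by omega
    have hd : q ∣ n := by
      rw [← h2]; exact Nat.prod_primeFactors_dvd n
    refine ⟨hd, hn0, ?_⟩
    rw [Nat.mem_factoredNumbers_iff_primeFactors_subset]
    have h3 : n / q ≠ 0 := (Nat.div_pos (Nat.le_of_dvd (by omega) hd) (by omega)).ne'
    refine ⟨h3, ?_⟩
    have h4 : (n / q).primeFactors ⊆ n.primeFactors :=
      Nat.primeFactors_mono (Nat.div_dvd_of_dvd hd) hn0
    refine h4.trans ?_
    rw [← (s2_rad n hn0).2, h2]
  -- compare with the sum over the factored numbers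
  have hle : ∑ n ∈ A, (1 : ℝ) / ((n / q : ℕ) : ℝ) ≤ (q : ℝ) / (Nat.totient q : ℝ) := by
    let g : A → Nat.factoredNumbers q.primeFactors := fun n => ⟨n.1 / q, (hmem n.1 n.2).2.2⟩
    have hg : Function.Injective g := by
      intro a b hab
      have h1 : a.1 / q = b.1 / q := congrArg Subtype.val hab
      have h2 := Nat.div_mul_cancel (hmem a.1 a.2).1
      have h3 := Nat.div_mul_cancel (hmem b.1 b.2).1
      apply Subtype.ext
      rw [← h2, ← h3, h1]
    have h1 : ∑ n ∈ A, (1 : ℝ) / ((n / q : ℕ) : ℝ) = ∑ n : A, f (g n) := by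
      rw [← Finset.sum_coe_sort A]
      refine Finset.sum_congr rfl fun n _ => ?_
      change (1 : ℝ) / ((n.1 / q : ℕ) : ℝ) = (((n.1 / q : ℕ)) : ℝ)⁻¹
      rw [one_div]
    have h2 : ∑ n : A, f (g n) =
        ∑ m ∈ (Finset.univ : Finset A).map ⟨g, hg⟩, f m := by
      rw [Finset.sum_map]
      rfl
    rw [h1, h2]
    refine sum_le_hasSum _ (fun m _ => ?_) hS
    change (0 : ℝ) ≤ ((m : ℕ) : ℝ)⁻¹
    positivity
  have h1 : ∑ n ∈ A, (1 : ℝ) / n = (1 / q) * ∑ n ∈ A, (1 : ℝ) / ((n / q : ℕ) : ℝ) := by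
    rw [Finset.mul_sum]
    refine Finset.sum_congr rfl fun n hn => ?_
    have h2 := Nat.div_mul_cancel (hmem n hn).1
    have h3 : (n : ℝ) = ((n / q : ℕ) : ℝ) * q := by exact_mod_cast h2.symm
    rw [div_mul_div_comm, one_mul, mul_comm (q : ℝ), ← h3]
  rw [h1]
  calc (1 / (q : ℝ)) * ∑ n ∈ A, (1 : ℝ) / ((n / q : ℕ) : ℝ)
      ≤ (1 / (q : ℝ)) * ((q : ℝ) / (Nat.totient q : ℝ)) :=
        mul_le_mul_of_nonneg_left hle (by positivity)
    _ = 1 / (Nat.totient q : ℝ) := by field_simp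

/-- `V z ≥ log z`: `∑_{q ≤ z} μ²(q)/φ(q) ≥ ∑_{n ≤ z} 1/n ≥ log z`
(`1/φ(q) = ∑_{n : rad n = q} 1/n` for squarefree `q`; `n ≤ z` has `rad n ≤ z`). See `ss_low` or
`SS1_sum` in `Lib/H18E`, or Mathlib's Selberg sieve, if helpful. -/
theorem Vz_ge (z : ℕ) (hz : 1 ≤ z) : Real.log z ≤ Vz z := by
  classical
  have h1 : Real.log z ≤ ∑ n ∈ Icc 1 z, (1 : ℝ) / n := by
    have h2 := log_add_one_le_harmonic z
    have h3 : (harmonic z : ℝ) = ∑ n ∈ Icc 1 z, (1 : ℝ) / n := by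
      rw [harmonic_eq_sum_Icc]
      push_cast
      exact Finset.sum_congr rfl fun n _ => by rw [one_div]
    rw [h3] at h2
    refine le_trans (Real.log_le_log (by exact_mod_cast hz) ?_) h2
    push_cast
    linarith
  refine h1.trans ?_
  have hmaps : ∀ n ∈ Icc 1 z, (∏ p ∈ n.primeFactors, p) ∈ (Icc 1 z).filter Squarefree := by
    intro n hn
    rw [Finset.mem_Icc] at hn
    rw [Finset.mem_filter, Finset.mem_Icc]
    have hn0 : n ≠ 0 := by omega
    have h2 := (s2_rad n hn0).1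
    refine ⟨⟨Nat.pos_of_ne_zero h2.ne_zero, ?_⟩, h2⟩
    exact (Nat.le_of_dvd (by omega) (Nat.prod_primeFactors_dvd n)).trans hn.2
  rw [← Finset.sum_fiberwise_of_maps_to hmaps]
  have h2 : ∑ q ∈ (Icc 1 z).filter Squarefree, (1 : ℝ) / (Nat.totient q : ℝ) = Vz z := by
    unfold Vz
    rw [Finset.sum_filter]
    refine Finset.sum_congr rfl fun q _ => ?_
    by_cases hq : Squarefree q
    · rw [if_pos hq]
      have h3 : (ArithmeticFunction.moebius q : ℤ) ^ 2 = 1 := by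
        rw [ArithmeticFunction.moebius_sq, if_pos hq]
      have h4 : (ArithmeticFunction.moebius q : ℝ) ^ 2 = 1 := by exact_mod_cast h3
      rw [h4]
    · rw [if_neg hq, ArithmeticFunction.moebius_eq_zero_of_not_squarefree hq]
      simp
  rw [← h2]
  refine Finset.sum_le_sum fun q hq => ?_
  exact s2_fiber q z (Finset.mem_filter.1 hq).2

theorem Vz_ge_one (z : ℕ) (hz : 1 ≤ z) : 1 ≤ Vz z := by
  unfold Vz
  have h1 : (1 : ℝ) = ∑ q ∈ ({1} : Finset ℕ),
      (ArithmeticFunction.moebius q : ℝ) ^ 2 / (Nat.totient q : ℝ) := by simp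
  rw [h1]
  refine Finset.sum_le_sum_of_subset_of_nonneg ?_ fun q _ _ => by positivity
  intro q hq
  rw [Finset.mem_singleton] at hq
  rw [hq, Finset.mem_Icc]
  omega

/-- For a prime `n > z`: `c_q(n) = μ(q)` for `q ≤ z` (only `d = 1` divides both), so
`G z n = V z`. -/
theorem G_prime (z n : ℕ) (hn : n.Prime) (hzn : z < n) : G z n = Vz z := by
  unfold G Vz
  refine Finset.sum_congr rfl fun q hq => ?_
  rw [Finset.mem_Icc] at hq
  have h1 : cq q (n : ℤ) = (ArithmeticFunction.moebius q : ℝ) := by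
    unfold cq
    have h2 : q.divisors.filter (fun d : ℕ => (d : ℤ) ∣ (n : ℤ)) = {1} := by
      ext d
      rw [Finset.mem_filter, Nat.mem_divisors, Finset.mem_singleton, Int.natCast_dvd_natCast]
      constructor
      · rintro ⟨⟨h3, h4⟩, h5⟩
        rcases (Nat.dvd_prime hn).1 h5 with h6 | h6
        · exact h6
        · exfalso
          have := Nat.le_of_dvd (by omega) h3
          omega
      · rintro rfl
        exact ⟨⟨one_dvd _, by omega⟩, one_dvd _⟩
    rw [h2, Finset.sum_singleton]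
    simp
  rw [h1]
  ring

/-- Mean square of `G z` over an interval: `∑_{n ∈ (M, M+N]} G(z,n)² ≤ N V + z^8`.

Proof. `c_q(n) = ∑_{a mod q, (a,q)=1} e(a n/q)`-free proof: `∑_{n ∈ (M, M+N]} c_q(n) c_q'(n) =
∑_{d ∣ q, d' ∣ q'} d d' μ(q/d) μ(q'/d') #{n : lcm(d,d') ∣ n}`, and `# = N/lcm(d,d') + θ`,
`|θ| ≤ 1`. The main part is `N ∑_{d ∣ q} ∑_{d' ∣ q'} μ(q/d) μ(q'/d') gcd(d,d') = N φ(q) 1[q = q']`
(`gcd(d,d') = ∑_{e ∣ d, e ∣ d'} φ(e)` and Möbius inversion: `∑_{d ∣ q} μ(q/d) 1[e ∣ d] = 1[e = q]`);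
the error is at most `(∑_{d ∣ q} d)(∑_{d' ∣ q'} d') ≤ (z²)(z²) = z^4`. Then
`∑ G² = ∑_{q,q'} μ(q) μ(q')/(φ(q) φ(q')) ∑_n c_q c_q' ≤ N ∑_q μ²(q)/φ(q) + z² z^4`. (The same
computation, for shifted arguments, is in `H68T` (search `corr`, file `CG1`) and `H18E`.) -/
theorem G_sq_sum (z M N : ℕ) :
    ∑ n ∈ Ioc M (M + N), G z n ^ 2 ≤ N * Vz z + (z : ℝ) ^ 8 := by
  have hcast : ∀ k : ℕ, (ArithmeticFunction.moebius k : ℝ) ^ 2 ≤ 1 := by
    intro k
    have := cg1_abs_moebius_le k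
    rw [sq_le_one_iff_abs_le_one]
    exact this
  have hsum : ∑ n ∈ Ioc M (M + N), G z n ^ 2 =
      ∑ c ∈ range N, G z (((M + 1 : ℕ) : ℤ) + (1 : ℕ) * (c : ℕ)) ^ 2 := by
    have h1 : Ioc M (M + N) = (range N).image (fun c => M + 1 + c) := by
      ext n
      rw [Finset.mem_Ioc, Finset.mem_image]
      constructor
      · rintro ⟨h1, h2⟩
        exact ⟨n - (M + 1), Finset.mem_range.2 (by omega), by omega⟩
      · rintro ⟨c, hc, rfl⟩
        rw [Finset.mem_range] at hc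
        omega
    rw [h1, Finset.sum_image]
    · refine Finset.sum_congr rfl fun c _ => ?_
      congr 2
      push_cast
      ring
    · intro a _ b _ hab
      simpa using hab
  rw [hsum]
  set x : ℤ := ((M + 1 : ℕ) : ℤ) with hx
  set a : ℕ → ℝ := fun q => (ArithmeticFunction.moebius q : ℝ) / (Nat.totient q : ℝ) with ha
  have hexp : ∑ c ∈ range N, G z (x + (1 : ℕ) * (c : ℕ)) ^ 2 =
      ∑ q₁ ∈ Icc 1 z, ∑ q₂ ∈ Icc 1 z, a q₁ * a q₂ *
        ∑ c ∈ range N, cq q₁ (x + (1 : ℕ) * (c : ℕ)) * cq q₂ (x + (1 : ℕ) * (c : ℕ)) := by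
    have h1 : ∀ c ∈ range N, G z (x + (1 : ℕ) * (c : ℕ)) ^ 2 =
        ∑ q₁ ∈ Icc 1 z, ∑ q₂ ∈ Icc 1 z, a q₁ * a q₂ *
          (cq q₁ (x + (1 : ℕ) * (c : ℕ)) * cq q₂ (x + (1 : ℕ) * (c : ℕ))) := by
      intro c _
      unfold G
      rw [sq, Finset.sum_mul_sum]
      refine Finset.sum_congr rfl fun q₁ _ => Finset.sum_congr rfl fun q₂ _ => ?_
      simp only [ha]
      ring
    rw [Finset.sum_congr rfl h1, Finset.sum_comm]
    refine Finset.sum_congr rfl fun q₁ _ => ?_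
    rw [Finset.sum_comm]
    refine Finset.sum_congr rfl fun q₂ _ => ?_
    rw [Finset.mul_sum]
  rw [hexp]
  have hsig : ∀ q ∈ Icc 1 z, ∑ d ∈ q.divisors, (d : ℝ) ≤ (z : ℝ) ^ 2 := by
    intro q hq
    rw [Finset.mem_Icc] at hq
    have hqz : (q : ℝ) ≤ z := by exact_mod_cast hq.2
    calc ∑ d ∈ q.divisors, (d : ℝ) ≤ ∑ d ∈ q.divisors, (q : ℝ) :=
          Finset.sum_le_sum fun d hd => by exact_mod_cast Nat.divisor_le hd
      _ = (q.divisors.card : ℝ) * q := by rw [Finset.sum_const, nsmul_eq_mul]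
      _ ≤ (q : ℝ) * q := by
          refine mul_le_mul_of_nonneg_right ?_ (by positivity)
          exact_mod_cast Nat.card_divisors_le_self q
      _ ≤ (z : ℝ) ^ 2 := by
          rw [sq]
          exact mul_le_mul hqz hqz (by positivity) (by positivity)
  have hsig0 : ∀ q : ℕ, 0 ≤ ∑ d ∈ q.divisors, (d : ℝ) := fun q =>
    Finset.sum_nonneg fun d _ => by positivity
  have ha1 : ∀ q ∈ Icc 1 z, |a q| ≤ 1 := by
    intro q hq
    rw [Finset.mem_Icc] at hq
    simp only [ha]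
    rw [abs_div]
    have h1 : (1 : ℝ) ≤ (Nat.totient q : ℝ) := by
      exact_mod_cast Nat.totient_pos.2 (by omega)
    rw [abs_of_nonneg (by linarith : (0 : ℝ) ≤ (Nat.totient q : ℝ)), div_le_one (by linarith)]
    exact (cg1_abs_moebius_le q).trans h1
  have hcq0 : ∀ q ∈ Icc 1 z, cq q 0 = (Nat.totient q : ℝ) := by
    intro q hq
    rw [Finset.mem_Icc] at hq
    have h2 := cg1_moebius (fun i => (Nat.totient i : ℝ)) (fun n => (n : ℝ))
      (fun n _ => by exact_mod_cast Nat.sum_totient n) q (by omega)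
    rw [← h2]
    unfold cq
    simp only [dvd_zero, Finset.filter_true]
    exact Finset.sum_congr rfl fun d _ => mul_comm _ _
  have hterm : ∀ q₁ ∈ Icc 1 z, ∀ q₂ ∈ Icc 1 z, a q₁ * a q₂ *
        ∑ c ∈ range N, cq q₁ (x + (1 : ℕ) * (c : ℕ)) * cq q₂ (x + (1 : ℕ) * (c : ℕ)) ≤
      a q₁ * a q₂ * (N * (if q₁ = q₂ then cq q₁ (x - x) else 0)) + (z : ℝ) ^ 4 := by
    intro q₁ h₁ q₂ h₂
    have h₁' := Finset.mem_Icc.1 h₁
    have h₂' := Finset.mem_Icc.1 h₂
    have h3 := Pool.Agent.Lib.H18E.corr_gen q₁ q₂ 1 N x x (by omega) (by omega)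
      (Nat.coprime_one_right _) (Nat.coprime_one_right _)
    set S := ∑ c ∈ range N, cq q₁ (x + (1 : ℕ) * (c : ℕ)) * cq q₂ (x + (1 : ℕ) * (c : ℕ)) with hS
    set T := N * (if q₁ = q₂ then cq q₁ (x - x) else 0) with hT
    have h4 : a q₁ * a q₂ * S - a q₁ * a q₂ * T ≤ (z : ℝ) ^ 4 := by
      calc a q₁ * a q₂ * S - a q₁ * a q₂ * T = (a q₁ * a q₂) * (S - T) := by ring
        _ ≤ |(a q₁ * a q₂) * (S - T)| := le_abs_self _
        _ = |a q₁| * |a q₂| * |S - T| := by rw [abs_mul, abs_mul]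
        _ ≤ 1 * 1 * ((z : ℝ) ^ 2 * (z : ℝ) ^ 2) := by
            refine mul_le_mul (mul_le_mul (ha1 q₁ h₁) (ha1 q₂ h₂) (abs_nonneg _) zero_le_one)
              (h3.trans (mul_le_mul (hsig q₁ h₁) (hsig q₂ h₂) (hsig0 q₂) (by positivity)))
              (abs_nonneg _) (by norm_num)
        _ = (z : ℝ) ^ 4 := by ring
    linarith
  refine (Finset.sum_le_sum fun q₁ h₁ => Finset.sum_le_sum fun q₂ h₂ =>
    hterm q₁ h₁ q₂ h₂).trans ?_
  have hmain : ∑ q₁ ∈ Icc 1 z, ∑ q₂ ∈ Icc 1 z, (a q₁ * a q₂ *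
      (N * (if q₁ = q₂ then cq q₁ (x - x) else 0)) + (z : ℝ) ^ 4) =
      N * Vz z + (z : ℝ) ^ 2 * (z : ℝ) ^ 4 := by
    simp only [Finset.sum_add_distrib, Finset.sum_const, Nat.card_Icc, nsmul_eq_mul,
      add_tsub_cancel_right]
    congr 1
    · unfold Vz
      rw [Finset.mul_sum]
      refine Finset.sum_congr rfl fun q₁ h₁ => ?_
      rw [Finset.sum_eq_single q₁]
      · rw [if_pos rfl, sub_self, hcq0 q₁ h₁]
        simp only [ha]
        have h1 : (0 : ℝ) < (Nat.totient q₁ : ℝ) := by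
          exact_mod_cast Nat.totient_pos.2 (by have := Finset.mem_Icc.1 h₁; omega)
        field_simp
      · intro q₂ _ h
        rw [if_neg (Ne.symm h)]
        ring
      · intro h
        exact absurd h₁ h
    · ring
  rw [hmain]
  have h5 : (z : ℝ) ^ 2 * (z : ℝ) ^ 4 ≤ (z : ℝ) ^ 8 := by
    rcases Nat.eq_zero_or_pos z with h0 | h0
    · subst h0; norm_num
    · have h1 : (1 : ℝ) ≤ z := by exact_mod_cast h0
      calc (z : ℝ) ^ 2 * (z : ℝ) ^ 4 = (z : ℝ) ^ 6 := by ring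
        _ ≤ (z : ℝ) ^ 8 := pow_le_pow_right₀ h1 (by norm_num)
  linarith

end Pool.Agent.Lib.H18Q
end

-- from Lib.H18Q.R0
section

/-!
# Project H18Q: the power regime

`RegP K Q X`: `(log X)^K ≤ Q` and `Q^K ≤ X`, `X` large. The lemmas are those of `H68T/RegL.lean` with
the same proofs.
-/

namespace Pool.Agent.Lib.H18Q

open Real Pool.Agent.Lib.H68T

/-- The regime of the parameters: `(log X)^K ≤ Q` and `Q^K ≤ X`, `X` large. -/
def RegP (K : ℝ) (Q X : ℕ) : Prop :=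
  K ≤ Real.log (Real.log X) ∧ K * Real.log (Real.log X) ≤ Real.log Q ∧
    K * Real.log Q ≤ Real.log X

theorem RegP.mono {K K' : ℝ} {Q X : ℕ} (h : RegP K Q X) (h0 : 0 ≤ K) (hK : K' ≤ K) :
    RegP K' Q X := by
  obtain ⟨h1, h2, h3⟩ := h
  have hll : 0 ≤ log (log X) := h0.trans h1
  have hQ : 0 ≤ log Q := by positivity
  exact ⟨hK.trans h1, (mul_le_mul_of_nonneg_right hK hll).trans h2,
    (mul_le_mul_of_nonneg_right hK hQ).trans h3⟩


theorem RegP.logX_ge {K : ℝ} {Q X : ℕ} (h : RegP K Q X) (hK : 0 < K) : exp K ≤ log X := by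
  have h1 : 0 < log (log X) := hK.trans_le h.1
  have h2 : 0 < log X := by
    by_contra hc
    push Not at hc
    have h3 : (0:ℝ) ≤ log X := by positivity
    have h4 : log (X:ℝ) = 0 := le_antisymm hc h3
    rw [h4] at h1
    simp at h1
  exact (Real.le_log_iff_exp_le h2).mp h.1

theorem RegP.logX_pos {K : ℝ} {Q X : ℕ} (h : RegP K Q X) (hK : 0 < K) : 0 < log X :=
  (exp_pos K).trans_le (h.logX_ge hK)

theorem RegP.X_pos {K : ℝ} {Q X : ℕ} (h : RegP K Q X) (hK : 0 < K) : 0 < X := by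
  rcases Nat.eq_zero_or_pos X with h0 | h0
  · have := h.logX_pos hK
    rw [h0] at this
    simp at this
  · exact h0

theorem RegP.logX_ge_one {K : ℝ} {Q X : ℕ} (h : RegP K Q X) (hK : 0 < K) : 1 ≤ log X := by
  have h1 := h.logX_ge hK
  have h2 : (1:ℝ) ≤ exp K := Real.one_le_exp hK.le
  linarith

theorem RegP.X_ge {K : ℝ} {Q X : ℕ} (h : RegP K Q X) (hK : 0 < K) : K ≤ X := by
  have h1 := h.logX_ge hK
  have h2 : K + 1 ≤ exp K := Real.add_one_le_exp K
  have h3 : log X ≤ X := (Real.log_le_sub_one_of_pos (by exact_mod_cast h.X_pos hK)).trans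
    (by linarith)
  linarith


theorem RegP.logQ_ge {K : ℝ} {Q X : ℕ} (h : RegP K Q X) (hK : 1 ≤ K) : K ≤ log Q := by
  have h1 : 1 ≤ log (log X) := hK.trans h.1
  have := h.2.1
  nlinarith

theorem RegP.Q_ge {K : ℝ} {Q X : ℕ} (h : RegP K Q X) (hK : 1 ≤ K) : K ≤ Q := by
  have h1 := h.logQ_ge hK
  have h3 : log Q ≤ Q := by
    rcases Nat.eq_zero_or_pos Q with h0 | h0
    · rw [h0]; simp
    · exact (Real.log_le_sub_one_of_pos (by exact_mod_cast h0)).trans (by linarith)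
  linarith

theorem RegP.Q_pos {K : ℝ} {Q X : ℕ} (h : RegP K Q X) (hK : 1 ≤ K) : 0 < Q := by
  have h1 := h.Q_ge hK
  have h2 : (0:ℝ) < Q := by linarith
  exact_mod_cast h2

/-- `K log Q ≤ log X` -/
theorem RegP.logQ_le {K : ℝ} {Q X : ℕ} (h : RegP K Q X) (_hK : 1 ≤ K) : K * log Q ≤ log X := h.2.2


/-- Absorb constants and powers of `log X` into a power of `Q`. -/
theorem regp_log_le (C A ε : ℝ) (hε : 0 < ε) : ∃ K : ℝ, 1 ≤ K ∧ ∀ Q X : ℕ, RegP K Q X →
    C * (log X) ^ A ≤ (Q : ℝ) ^ ε := by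
  refine ⟨1 + |A| / ε + (1 + |C|) / ε, by
    have : 0 ≤ |A| / ε := by positivity
    have : 0 ≤ (1 + |C|) / ε := by positivity
    linarith, fun Q X h => ?_⟩
  set K := 1 + |A| / ε + (1 + |C|) / ε with hKdef
  have hA : 0 ≤ |A| / ε := by positivity
  have hC : 0 ≤ (1 + |C|) / ε := by positivity
  have hK : 1 ≤ K := by rw [hKdef]; linarith
  have hK0 : 0 < K := by linarith
  have hlX := h.logX_pos hK0
  have hll : 1 ≤ log (log X) := hK.trans h.1
  have hQ : (0:ℝ) < Q := by exact_mod_cast h.Q_pos hK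
  rcases le_or_gt C 0 with hC0 | hC0
  · have : C * (log X) ^ A ≤ 0 :=
      mul_nonpos_of_nonpos_of_nonneg hC0 (Real.rpow_nonneg hlX.le _)
    exact this.trans (Real.rpow_nonneg hQ.le _)
  rw [Real.rpow_def_of_pos hlX, Real.rpow_def_of_pos hQ]
  have h1 : C ≤ exp (log (log X) * (1 + |C|)) := by
    have : C ≤ exp C := by linarith [Real.add_one_le_exp C]
    refine this.trans (Real.exp_le_exp.mpr ?_)
    have : C ≤ |C| := le_abs_self C
    nlinarith [abs_nonneg C]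
  calc C * exp (log (log X) * A) ≤ exp (log (log X) * (1 + |C|)) * exp (log (log X) * A) :=
        mul_le_mul_of_nonneg_right h1 (exp_pos _).le
    _ = exp (log (log X) * (1 + |C| + A)) := by rw [← Real.exp_add]; ring_nf
    _ ≤ exp (log Q * ε) := by
        apply Real.exp_le_exp.mpr
        have h2 : K * log (log X) ≤ log Q := h.2.1
        have h3 : (1 + |C| + A) ≤ K * ε := by
          rw [hKdef]
          have e1 : |A| / ε * ε = |A| := div_mul_cancel₀ _ hε.ne'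
          have e2 : (1 + |C|) / ε * ε = 1 + |C| := div_mul_cancel₀ _ hε.ne'
          have : A ≤ |A| := le_abs_self A
          nlinarith
        calc log (log X) * (1 + |C| + A) ≤ log (log X) * (K * ε) :=
              mul_le_mul_of_nonneg_left h3 (by linarith)
          _ = (K * log (log X)) * ε := by ring
          _ ≤ log Q * ε := mul_le_mul_of_nonneg_right h2 hε.le

/-- Absorb constants and powers of `Q` into a power of `X`. -/
theorem regp_pow_le (C A ε : ℝ) (hε : 0 < ε) : ∃ K : ℝ, 1 ≤ K ∧ ∀ Q X : ℕ, RegP K Q X →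
    C * (Q : ℝ) ^ A ≤ (X : ℝ) ^ ε := by
  refine ⟨1 + |A| / ε + (1 + |C|) / ε, by
    have : 0 ≤ |A| / ε := by positivity
    have : 0 ≤ (1 + |C|) / ε := by positivity
    linarith, fun Q X h => ?_⟩
  set K := 1 + |A| / ε + (1 + |C|) / ε with hKdef
  have hA : 0 ≤ |A| / ε := by positivity
  have hC : 0 ≤ (1 + |C|) / ε := by positivity
  have hK : 1 ≤ K := by rw [hKdef]; linarith
  have hK0 : 0 < K := by linarith
  have hQ : (0:ℝ) < Q := by exact_mod_cast h.Q_pos hK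
  have hX : (0:ℝ) < X := by exact_mod_cast h.X_pos hK0
  have hlQ : 1 ≤ log Q := hK.trans (h.logQ_ge hK)
  rcases le_or_gt C 0 with hC0 | hC0
  · have : C * (Q:ℝ) ^ A ≤ 0 :=
      mul_nonpos_of_nonpos_of_nonneg hC0 (Real.rpow_nonneg hQ.le _)
    exact this.trans (Real.rpow_nonneg hX.le _)
  rw [Real.rpow_def_of_pos hQ, Real.rpow_def_of_pos hX]
  have h1 : C ≤ exp (log Q * (1 + |C|)) := by
    have : C ≤ exp C := by linarith [Real.add_one_le_exp C]
    refine this.trans (Real.exp_le_exp.mpr ?_)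
    have : C ≤ |C| := le_abs_self C
    nlinarith [abs_nonneg C]
  calc C * exp (log Q * A) ≤ exp (log Q * (1 + |C|)) * exp (log Q * A) :=
        mul_le_mul_of_nonneg_right h1 (exp_pos _).le
    _ = exp (log Q * (1 + |C| + A)) := by rw [← Real.exp_add]; ring_nf
    _ ≤ exp (log X * ε) := by
        apply Real.exp_le_exp.mpr
        have h2 : K * log Q ≤ log X := h.logQ_le hK
        have h3 : (1 + |C| + A) ≤ K * ε := by
          rw [hKdef]
          have e1 : |A| / ε * ε = |A| := div_mul_cancel₀ _ hε.ne'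
          have e2 : (1 + |C|) / ε * ε = 1 + |C| := div_mul_cancel₀ _ hε.ne'
          have : A ≤ |A| := le_abs_self A
          nlinarith
        calc log Q * (1 + |C| + A) ≤ log Q * (K * ε) :=
              mul_le_mul_of_nonneg_left h3 (by linarith)
          _ = (K * log Q) * ε := by ring
          _ ≤ log X * ε := mul_le_mul_of_nonneg_right h2 hε.le


end Pool.Agent.Lib.H18Q
end

-- from Lib.H18Q.PDefs
section

/-!
# Project H18Q: definitions for module P
-/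

open Finset

namespace Pool.Agent.Lib.H18Q

open Pool.Agent.Lib.H68T

noncomputable section

/-- The order of the derivative: `⌊log X / 64⌋`. -/
def kX (X : ℕ) : ℕ := ⌊Real.log X / 64⌋₊

/-- The Gamma density `(1/64)^(k+1) u^k e^(-u/64)/k!`. -/
def Wd (k : ℕ) (u : ℝ) : ℝ :=
  (1 / 64 : ℝ) ^ (k + 1) * u ^ k / (k.factorial : ℝ) * Real.exp (-(u / 64))

/-- The weighted series `∑ Λ(n) c(n) n^(-iv) Jk(1/64, k, n)`. -/
def Pk (c : ℕ → ℂ) (k : ℕ) (v : ℝ) : ℂ :=
  ∑' n : ℕ, ((ArithmeticFunction.vonMangoldt n * Jk (1 / 64) k n : ℝ) : ℂ) * c n *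
    (n : ℂ) ^ (-(v * Complex.I))

/-- The main term `((1/64)/(1/64 + 1 - b + iv))^(k+1)`. -/
def Mk (b : ℝ) (k : ℕ) (v : ℝ) : ℂ :=
  ((1 / 64 : ℝ) / ((1 / 64 + 1 - b : ℝ) + v * Complex.I) : ℂ) ^ (k + 1)

/-- The smooth main term `∫ w(u - log X) e^(-(1 - b + it) u) du`. -/
def Mb (X : ℕ) (b t : ℝ) : ℂ :=
  ∫ u : ℝ, (w (u - Real.log X) : ℂ) * Complex.exp (-((1 - b : ℝ) + t * Complex.I) * u)

/-- A family of entire functions attached to the primitive characters of conductor at most `Q`,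
with growth data, whose zeros are among those of the L-functions. -/
structure Fam (C0 : ℝ) (Q : ℕ) (g : (Σ r : ℕ, DirichletCharacter ℂ r) → ℂ → ℂ) : Prop where
  dat : ∀ p ∈ PC Q, LDat C0 (Real.log Q) ((Q : ℝ) ^ 10) (g p)
  zer : ∀ p ∈ PC Q, ∀ ρ, g p ρ = 0 → Lp p ρ = 0
  ord : ∀ p ∈ PC Q, ∀ ρ, od (g p) ρ ≤ od (Lp p) ρ

end

end Pool.Agent.Lib.H18Q
end

-- from Lib.H18Q.Z5A
section

/-!
# Project H18Q, chunk Z5A: growth data of the primitive L-functions
-/

open Finset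

namespace Pool.Agent.Lib.H18Q

open Pool.Agent.Lib.H68T

/-- Products. Proof: `f s₀ ≠ 0`, `g s₀ ≠ 0` at `s₀ = 1 + lam + i v` (`zre`), `logDeriv_mul`, the
rest is multiplication and the triangle inequality. -/
theorem LDat.mul {C0 C0' ℓ T : ℝ} {f g : ℂ → ℂ} (hf : LDat C0 ℓ T f) (hg : LDat C0' ℓ T g) :
    LDat (C0 + C0') ℓ T (fun s => f s * g s) := by
  refine ⟨hf.diff.mul hg.diff, ?_, ?_, ?_⟩
  · intro ρ h
    rcases mul_eq_zero.1 h with h | h
    · exact hf.zre ρ h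
    · exact hg.zre ρ h
  · intro lam v h1 h2 h3 s hs
    have h4 := hf.growth lam v h1 h2 h3 s hs
    have h5 := hg.growth lam v h1 h2 h3 s hs
    simp only [norm_mul]
    rw [add_mul, Real.exp_add]
    calc ‖f s‖ * ‖g s‖ ≤ (Real.exp (C0 * ℓ) * ‖f (1 + lam + v * Complex.I)‖) *
          (Real.exp (C0' * ℓ) * ‖g (1 + lam + v * Complex.I)‖) :=
          mul_le_mul h4 h5 (norm_nonneg _) (by positivity)
      _ = _ := by ring
  · intro lam v h1 h2 h3
    have h4 := hf.ld lam v h1 h2 h3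
    have h5 := hg.ld lam v h1 h2 h3
    set s₀ : ℂ := 1 + lam + v * Complex.I with hs₀
    by_cases h0 : f s₀ * g s₀ = 0
    · rw [logDeriv_apply, h0, div_zero, norm_zero, add_div]
      have := norm_nonneg (logDeriv f s₀)
      have := norm_nonneg (logDeriv g s₀)
      linarith
    · replace h0 := mul_ne_zero_iff.1 h0
      rw [logDeriv_mul s₀ h0.1 h0.2 hf.diff.differentiableAt hg.diff.differentiableAt, add_div]
      exact (norm_add_le _ _).trans (add_le_add h4 h5)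

theorem LDat.mono {C0 C0' ℓ T T' : ℝ} {f : ℂ → ℂ} (h : LDat C0 ℓ T f) (hC : C0 ≤ C0')
    (hT : T' ≤ T) (hℓ : 0 ≤ ℓ) : LDat C0' ℓ T' f := by
  refine ⟨h.diff, h.zre, ?_, ?_⟩
  · intro lam v h1 h2 h3 s hs
    refine (h.growth lam v h1 h2 (h3.trans hT) s hs).trans ?_
    apply mul_le_mul_of_nonneg_right _ (norm_nonneg _)
    exact Real.exp_le_exp.2 (mul_le_mul_of_nonneg_right hC hℓ)
  · intro lam v h1 h2 h3
    refine (h.ld lam v h1 h2 (h3.trans hT)).trans ?_
    apply div_le_div_of_nonneg_right hC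
    exact le_trans (by positivity) h1

/-- facts on `s₀` and on `s` in the disc -/
theorem z5a_pt {lam v η X : ℝ} (hl : 0 < lam) (hl8 : lam ≤ 1 / 8) (hv : |v| ≤ X) (hη : 0 ≤ η)
    (hη8 : η ≤ 1 / 8) {s : ℂ} (hs : s ∈ Metric.closedBall (1 + lam + v * Complex.I : ℂ) (1 / 2)) :
    1 / 2 ≤ (s + η).re ∧ (s + η).re ≤ 3 ∧ |(s + η).im| ≤ X + 1 ∧ ‖s + η‖ ≤ X + 3 := by
  rw [Metric.mem_closedBall, Complex.dist_eq] at hs
  have h1 := (Complex.abs_re_le_norm _).trans hs
  have h2 := (Complex.abs_im_le_norm _).trans hs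
  simp only [Complex.sub_re, Complex.sub_im, Complex.add_re, Complex.add_im, Complex.one_re,
    Complex.one_im, Complex.ofReal_re, Complex.ofReal_im, Complex.mul_re, Complex.mul_im,
    Complex.I_re, Complex.I_im, mul_zero, mul_one, sub_zero, zero_add, add_zero] at h1 h2
  rw [abs_le] at h1 h2 hv
  have e1 : (s + η).re = s.re + η := by simp
  have e2 : (s + η).im = s.im := by simp
  rw [e1, e2]
  have h3 : |s.im| ≤ X + 1 := by
    rw [abs_le]
    constructor <;> linarith [h2.1, h2.2, hv.1, hv.2]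
  have h5 : ‖s + η‖ ≤ X + 3 := by
    have h6 := Complex.norm_le_abs_re_add_abs_im (s + η)
    rw [e1, e2] at h6
    have h7 : |s.re + η| ≤ 2 := by
      rw [abs_le]
      constructor <;> linarith [h1.1, h1.2]
    linarith
  exact ⟨by linarith [h1.1], by linarith [h1.2], h3, h5⟩

theorem z5a_re (lam v η : ℝ) : ((1 + lam + v * Complex.I : ℂ) + η).re = 1 + lam + η := by
  simp

theorem z5a_ld : ∃ C : ℝ, 0 < C ∧ ∀ (N : ℕ) [NeZero N] (χ : DirichletCharacter ℂ N) (lam v η : ℝ),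
    0 < lam → lam ≤ 1 / 8 → 0 ≤ η → η ≤ 1 / 8 →
    ‖logDeriv χ.LFunction ((1 + lam + v * Complex.I : ℂ) + η)‖ ≤ 1 / lam + C := by
  obtain ⟨C, hC, h⟩ := vonMangoldt_le
  refine ⟨C, hC, fun N _ χ lam v η hl hl8 hη hη8 => ?_⟩
  have hre := z5a_re lam v η
  have h1 := lab1_char N χ ((1 + lam + v * Complex.I : ℂ) + η) (by rw [hre]; linarith)
  have h2 := norm_LSeries_vM_le N χ ((1 + lam + v * Complex.I : ℂ) + η) (by rw [hre]; linarith)
  rw [h1, norm_neg, hre] at h2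
  have h3 := h (1 + lam + η) (by linarith) (by linarith)
  refine h2.trans (h3.trans ?_)
  have h4 : 1 / (1 + lam + η - 1) ≤ 1 / lam :=
    one_div_le_one_div_of_le hl (by linarith)
  linarith

theorem z5a_low (N : ℕ) [NeZero N] (χ : DirichletCharacter ℂ N) (lam v η : ℝ)
    (hl : 0 < lam) (hl8 : lam ≤ 1 / 8) (hη : 0 ≤ η) :
    lam / 2 ≤ ‖χ.LFunction ((1 + lam + v * Complex.I : ℂ) + η)‖ := by
  have hre := z5a_re lam v η
  have h1 := lab2_lower N χ ((1 + lam + v * Complex.I : ℂ) + η) (by rw [hre]; linarith)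
  rw [DirichletCharacter.LFunction_eq_LSeries χ (by rw [hre]; linarith)]
  refine le_trans ?_ h1
  rw [hre, div_le_div_iff₀ (by norm_num) (by linarith)]
  nlinarith

theorem z5a_logQ {Q : ℕ} (hQ : (4 : ℝ) ≤ Q) : 0 < Real.log Q ∧ Real.log Q ≤ Q := by
  refine ⟨Real.log_pos (by linarith), ?_⟩
  have := Real.log_le_sub_one_of_pos (by linarith : (0 : ℝ) < Q)
  linarith

theorem z5a_exp {Q : ℕ} (hQ : (4 : ℝ) ≤ Q) (k : ℕ) (C : ℝ) (hC : k ≤ C) :
    (Q : ℝ) ^ k ≤ Real.exp (C * Real.log Q) := by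
  have h1 : (Q : ℝ) ^ k = Real.exp (k * Real.log Q) := by
    rw [mul_comm, Real.exp_mul, Real.exp_log (by linarith), Real.rpow_natCast]
  rw [h1]
  exact Real.exp_le_exp.2 (mul_le_mul_of_nonneg_right hC (z5a_logQ hQ).1.le)

theorem z5a_logDeriv_shift (f : ℂ → ℂ) (η : ℝ) (s : ℂ) :
    logDeriv (fun s => f (s + η)) s = logDeriv f (s + η) := by
  rw [logDeriv_apply, logDeriv_apply, deriv_comp_add_const]

/-- Growth data of `L(s + η, χ)`, `χ ≠ 1` modulo `N ≤ Q²`, `0 ≤ η ≤ 1/8`.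

Proof. `ℓ = log Q`, `T = Q^10`, `s₀ = 1 + lam + i v`. Entire:
`DirichletCharacter.differentiable_LFunction`. `zre`: `LFunction (ρ + η) = 0` implies
`Re (ρ + η) < 1` (`DirichletCharacter.LFunction_ne_zero_of_one_le_re`, `χ ≠ 1`). Growth: `|s - s₀| ≤
1/2` gives `Re (s + η) ≥ 1/2`, so `LFunction_bound`: `|L(s + η)| ≤ 2 N |s + η| ≤ 2 Q² (Q^10 + 3)`,
and `|L(s₀ + η)| ≥ (lam + η)/(1 + lam + η) ≥ lam/2 ≥ 1/(2 log Q)` (`lab2_lower`, with
`DirichletCharacter.LFunction_eq_LSeries` for `Re > 1`; `x/(1+x)` is increasing). So the quotient is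
at most `4 Q² (Q^10 + 3) log Q ≤ exp (20 log Q)` for `Q ≥ 4`. Logarithmic derivative: `lab1_char`,
`norm_LSeries_vM_le`, `vonMangoldt_le`: `≤ 1/(lam + η) + C ≤ (1 + C)/lam`; use `logDeriv` of
the composition with the translation (`logDeriv_comp` or `deriv_comp_add_const`). -/
theorem LDat_shift : ∃ C0 K : ℝ, 1 ≤ C0 ∧ ∀ Q : ℕ, K ≤ Q → ∀ (N : ℕ) [NeZero N]
    (χ : DirichletCharacter ℂ N), N ≤ Q ^ 2 → χ ≠ 1 → ∀ η : ℝ, 0 ≤ η → η ≤ 1 / 8 →
    LDat C0 (Real.log Q) ((Q : ℝ) ^ 10) (fun s => χ.LFunction (s + η)) := by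
  obtain ⟨C, hC, hld⟩ := z5a_ld
  refine ⟨20 + C, 4, by linarith, fun Q hQ N _ χ hN hχ η hη hη8 => ?_⟩
  obtain ⟨hlog, hlogQ⟩ := z5a_logQ hQ
  refine ⟨?_, ?_, ?_, ?_⟩
  · exact (DirichletCharacter.differentiable_LFunction hχ).comp
      (differentiable_id.add (differentiable_const _))
  · intro ρ h
    by_contra hcon
    have h1 : 1 ≤ (ρ + η).re := by
      have : (ρ + η).re = ρ.re + η := by simp
      rw [this]
      linarith [not_lt.1 hcon]
    exact DirichletCharacter.LFunction_ne_zero_of_one_le_re χ (Or.inl hχ) h1 h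
  · intro lam v h1 h2 h3 s hs
    have hl : 0 < lam := lt_of_lt_of_le (by positivity) h1
    obtain ⟨p1, p2, p3, p4⟩ := z5a_pt hl h2 h3 hη hη8 hs
    have q1 := LFunction_bound N χ hχ (s + η) p1
    have q2 := z5a_low N χ lam v η hl h2 hη
    have hN' : (N : ℝ) ≤ (Q : ℝ) ^ 2 := by exact_mod_cast hN
    have q3 : ‖χ.LFunction (s + η)‖ ≤ (Q : ℝ) ^ 18 * (1 / (2 * Q)) := by
      refine q1.trans ?_
      have hQ0 : (0 : ℝ) < Q := by linarith
      have r1 : 2 * (N : ℝ) * ‖s + η‖ ≤ 2 * (Q : ℝ) ^ 2 * ((Q : ℝ) ^ 10 + 3) := by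
        apply mul_le_mul _ p4 (norm_nonneg _) (by positivity)
        linarith
      refine r1.trans ?_
      have r2 : (1 : ℝ) ≤ (Q : ℝ) ^ 10 := one_le_pow₀ (by linarith)
      have r3 : (4 : ℝ) ^ 2 ≤ (Q : ℝ) ^ 2 := pow_le_pow_left₀ (by norm_num) hQ 2
      have r4 : (1 : ℝ) ≤ (Q : ℝ) ^ 3 := one_le_pow₀ (by linarith)
      have r5 : (Q : ℝ) ^ 18 * (1 / (2 * Q)) = (Q : ℝ) ^ 2 * (Q : ℝ) ^ 10 * (Q : ℝ) ^ 2 * (Q : ℝ) ^ 3 / 2 := by
        field_simp
      rw [r5]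
      have r6 : 2 * (Q : ℝ) ^ 2 * ((Q : ℝ) ^ 10 + 3) ≤ (Q : ℝ) ^ 2 * (Q : ℝ) ^ 10 * 8 := by
        nlinarith [pow_pos hQ0 2]
      have r7 : (Q : ℝ) ^ 2 * (Q : ℝ) ^ 10 * 8 ≤ (Q : ℝ) ^ 2 * (Q : ℝ) ^ 10 * (Q : ℝ) ^ 2 * (Q : ℝ) ^ 3 / 2 := by
        have t1 : 0 < (Q : ℝ) ^ 2 * (Q : ℝ) ^ 10 := by positivity
        have t2 : (16 : ℝ) ≤ (Q : ℝ) ^ 2 * (Q : ℝ) ^ 3 := by nlinarith
        nlinarith [mul_le_mul_of_nonneg_left t2 t1.le]
      exact r6.trans r7
    have q4 : 1 / (2 * (Q : ℝ)) ≤ ‖χ.LFunction ((1 + lam + v * Complex.I : ℂ) + η)‖ := by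
      refine le_trans ?_ q2
      have r1 : 1 / (Q : ℝ) ≤ 1 / Real.log Q := one_div_le_one_div_of_le hlog hlogQ
      have r2 : 1 / (2 * (Q : ℝ)) = (1 / Q) / 2 := by field_simp
      rw [r2]
      linarith
    refine q3.trans ?_
    exact mul_le_mul (z5a_exp hQ 18 (20 + C) (by push_cast; linarith)) q4 (by positivity) (by positivity)
  · intro lam v h1 h2 h3
    have hl : 0 < lam := lt_of_lt_of_le (by positivity) h1
    rw [z5a_logDeriv_shift]
    refine (hld N χ lam v η hl h2 hη hη8).trans ?_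
    rw [le_div_iff₀ hl, add_mul, div_mul_cancel₀ _ hl.ne']
    nlinarith

/-- the trivial character -/
theorem z5a_triv_eq (N : ℕ) [NeZero N] (s : ℂ) : DirichletCharacter.LFunctionTrivChar₁ N s =
    gl2_Z s * ∏ p ∈ N.primeFactors, (1 - (p : ℂ) ^ (-s)) := by
  by_cases hs : s = 1
  · subst hs
    rw [gl2_Z_one, one_mul]
    unfold DirichletCharacter.LFunctionTrivChar₁
    rw [Function.update_self]
    refine Finset.prod_congr rfl fun p _ => ?_
    rw [Complex.cpow_neg_one]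
  · rw [gl2_Z_eq s hs, DirichletCharacter.LFunctionTrivChar₁, Function.update_of_ne hs,
      DirichletCharacter.LFunctionTrivChar_eq_mul_riemannZeta hs]
    ring

theorem z5a_prod (N : ℕ) [NeZero N] (s : ℂ) (hs : 0 ≤ s.re) :
    ‖∏ p ∈ N.primeFactors, (1 - (p : ℂ) ^ (-s))‖ ≤ N := by
  rw [norm_prod]
  have h1 : ∏ p ∈ N.primeFactors, ‖1 - (p : ℂ) ^ (-s)‖ ≤ ∏ p ∈ N.primeFactors, (p : ℝ) := by
    refine Finset.prod_le_prod (fun _ _ => norm_nonneg _) fun p hp => ?_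
    have hp2 : 2 ≤ p := (Nat.prime_of_mem_primeFactors hp).two_le
    have hp2' : (2 : ℝ) ≤ p := by exact_mod_cast hp2
    have h2 : ‖(p : ℂ) ^ (-s)‖ ≤ 1 := by
      rw [Complex.norm_natCast_cpow_of_pos (by omega), Complex.neg_re]
      exact Real.rpow_le_one_of_one_le_of_nonpos (by linarith) (by linarith)
    calc ‖1 - (p : ℂ) ^ (-s)‖ ≤ ‖(1 : ℂ)‖ + ‖(p : ℂ) ^ (-s)‖ := norm_sub_le _ _
      _ ≤ 2 := by rw [norm_one]; linarith
      _ ≤ p := hp2'
  refine h1.trans ?_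
  have h3 : ∏ p ∈ N.primeFactors, p ≤ N := Nat.le_of_dvd (Nat.pos_of_ne_zero (NeZero.ne N)) (Nat.prod_primeFactors_dvd N)
  have h4 : ((∏ p ∈ N.primeFactors, p : ℕ) : ℝ) ≤ (N : ℝ) := Nat.cast_le.2 h3
  rw [Nat.cast_prod] at h4
  exact h4

/-- Growth data of `(s + η - 1) L(s + η, 1_N)` for the trivial character modulo `N ≤ Q²`
(`DirichletCharacter.LFunctionTrivChar₁ N`, entire).

Proof. As `LDat_shift`. For `s ≠ 1`, `LFunctionTrivChar₁ N s = (s - 1) L(s, 1_N) =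
gl2_Z s ∏_{p ∣ N} (1 - p^(-s))` (`gl2_Z = LFunctionTrivChar₁ 1`;
`DirichletCharacter.LFunctionTrivChar_eq_mul_riemannZeta`), at `1` by continuity; the product has
absolute value at most `∏_{p ∣ N} 2 ≤ N` for `Re s ≥ 0`; `gl2_Z_bound` for `Re s ≤ 3`. Zeros: a zero
`ρ + η` of `LFunctionTrivChar₁` with `Re ≥ 1` is impossible (`riemannZeta_ne_zero_of_one_le_re`,
`gl2_Z_one`, `|p^(-s)| < 1`, `LFunctionTrivChar₁_apply_one_ne_zero`). Lower bound at `s₀ + η`:
`|s₀ + η - 1| ≥ lam + η`, `|L(s₀ + η, 1_N)| ≥ (lam + η)/(1 + lam + η)` (`lab2_lower`), product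
`≥ lam²/2`. Logarithmic derivative: `1/(s-1)` (at most `1/(lam+η)`) plus that of `L(s, 1_N)`
(`lab1_char`, `norm_LSeries_vM_le`, `vonMangoldt_le`). -/
theorem LDat_shift_triv : ∃ C0 K : ℝ, 1 ≤ C0 ∧ ∀ Q : ℕ, K ≤ Q → ∀ (N : ℕ) [NeZero N],
    N ≤ Q ^ 2 → ∀ η : ℝ, 0 ≤ η → η ≤ 1 / 8 →
    LDat C0 (Real.log Q) ((Q : ℝ) ^ 10)
      (fun s => DirichletCharacter.LFunctionTrivChar₁ N (s + η)) := by
  obtain ⟨C, hC, hld⟩ := z5a_ld
  refine ⟨30 + C, 4, by linarith, fun Q hQ N _ hN η hη hη8 => ?_⟩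
  obtain ⟨hlog, hlogQ⟩ := z5a_logQ hQ
  refine ⟨?_, ?_, ?_, ?_⟩
  · exact (DirichletCharacter.differentiable_LFunctionTrivChar₁ N).comp
      (differentiable_id.add (differentiable_const _))
  · intro ρ h
    by_contra hcon
    have h1 : 1 ≤ (ρ + η).re := by
      have : (ρ + η).re = ρ.re + η := by simp
      rw [this]
      linarith [not_lt.1 hcon]
    by_cases hs : ρ + (η : ℂ) = 1
    · simp only [hs] at h
      exact DirichletCharacter.LFunctionTrivChar₁_apply_one_ne_zero N h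
    · simp only [DirichletCharacter.LFunctionTrivChar₁, Function.update_of_ne hs] at h
      rcases mul_eq_zero.1 h with h2 | h2
      · exact sub_ne_zero.2 hs h2
      · exact DirichletCharacter.LFunction_ne_zero_of_one_le_re _ (Or.inr hs) h1 h2
  · intro lam v h1 h2 h3 s hs
    have hl : 0 < lam := lt_of_lt_of_le (by positivity) h1
    obtain ⟨p1, p2, p3, p4⟩ := z5a_pt hl h2 h3 hη hη8 hs
    have q1 := gl2_Z_bound (s + η) p1 p2
    have q1' := z5a_prod N (s + η) (by linarith)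
    have q2 := z5a_low N (1 : DirichletCharacter ℂ N) lam v η hl h2 hη
    have hN' : (N : ℝ) ≤ (Q : ℝ) ^ 2 := by exact_mod_cast hN
    have hQ0 : (0 : ℝ) < Q := by linarith
    have q3 : ‖DirichletCharacter.LFunctionTrivChar₁ N (s + η)‖ ≤ (Q : ℝ) ^ 30 * (1 / (2 * Q ^ 2)) := by
      rw [z5a_triv_eq, norm_mul]
      have r0 : 4 * (|(s + η).im| + 3) ^ 2 ≤ 4 * (5 * (Q : ℝ) ^ 10) ^ 2 := by
        have r2 : (1 : ℝ) ≤ (Q : ℝ) ^ 10 := one_le_pow₀ (by linarith)
        have r3 : |(s + η).im| + 3 ≤ 5 * (Q : ℝ) ^ 10 := by linarith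
        have r4 : (|(s + η).im| + 3) ^ 2 ≤ (5 * (Q : ℝ) ^ 10) ^ 2 := pow_le_pow_left₀ (by positivity) r3 2
        linarith
      have r1 := mul_le_mul (q1.trans r0) (q1'.trans hN') (norm_nonneg _) (by positivity)
      refine r1.trans ?_
      have r5 : (Q : ℝ) ^ 30 * (1 / (2 * Q ^ 2)) = (Q : ℝ) ^ 22 * (Q : ℝ) ^ 6 / 2 := by
        field_simp
      have r6 : 4 * (5 * (Q : ℝ) ^ 10) ^ 2 * (Q : ℝ) ^ 2 = 100 * (Q : ℝ) ^ 22 := by ring
      rw [r5, r6]
      have r7 : (4 : ℝ) ^ 6 ≤ (Q : ℝ) ^ 6 := pow_le_pow_left₀ (by norm_num) hQ 6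
      have r8 : (0 : ℝ) < (Q : ℝ) ^ 22 := by positivity
      nlinarith [mul_le_mul_of_nonneg_left r7 r8.le]
    have q4 : 1 / (2 * (Q : ℝ) ^ 2) ≤
        ‖DirichletCharacter.LFunctionTrivChar₁ N ((1 + lam + v * Complex.I : ℂ) + η)‖ := by
      have hne : (1 + lam + v * Complex.I : ℂ) + η ≠ 1 := by
        intro h
        have := congrArg Complex.re h
        rw [z5a_re, Complex.one_re] at this
        linarith
      rw [DirichletCharacter.LFunctionTrivChar₁, Function.update_of_ne hne, norm_mul]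
      have t1 : lam ≤ ‖(1 + lam + v * Complex.I : ℂ) + η - 1‖ := by
        refine le_trans ?_ (Complex.re_le_norm _)
        rw [Complex.sub_re, z5a_re, Complex.one_re]
        linarith
      have t2 : 1 / (Q : ℝ) ≤ lam := (one_div_le_one_div_of_le hlog hlogQ).trans h1
      have t3 : lam * (lam / 2) ≤ ‖(1 + lam + v * Complex.I : ℂ) + η - 1‖ *
          ‖(1 : DirichletCharacter ℂ N).LFunction ((1 + lam + v * Complex.I : ℂ) + η)‖ :=
        mul_le_mul t1 q2 (by positivity) (norm_nonneg _)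
      refine le_trans ?_ t3
      have t4 : 1 / (2 * (Q : ℝ) ^ 2) = (1 / Q) * (1 / Q) / 2 := by field_simp
      have t5 : (1 / (Q : ℝ)) * (1 / Q) ≤ lam * lam := mul_le_mul t2 t2 (by positivity) hl.le
      rw [t4]
      linarith
    refine q3.trans ?_
    exact mul_le_mul (z5a_exp hQ 30 (30 + C) (by push_cast; linarith)) q4 (by positivity) (by positivity)
  · intro lam v h1 h2 h3
    have hl : 0 < lam := lt_of_lt_of_le (by positivity) h1
    have hne : (1 + lam + v * Complex.I : ℂ) + η ≠ 1 := by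
      intro h
      have := congrArg Complex.re h
      rw [z5a_re, Complex.one_re] at this
      linarith
    rw [z5a_logDeriv_shift]
    have hL := z5a_low N (1 : DirichletCharacter ℂ N) lam v η hl h2 hη
    have hLne : (1 : DirichletCharacter ℂ N).LFunction ((1 + lam + v * Complex.I : ℂ) + η) ≠ 0 := by
      intro h
      rw [h, norm_zero] at hL
      linarith
    have hs1 : (1 + lam + v * Complex.I : ℂ) + η - 1 ≠ 0 := sub_ne_zero.2 hne
    have hsplit : logDeriv (DirichletCharacter.LFunctionTrivChar₁ N) ((1 + lam + v * Complex.I : ℂ) + η) =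
        logDeriv (1 : DirichletCharacter ℂ N).LFunction ((1 + lam + v * Complex.I : ℂ) + η) +
          1 / ((1 + lam + v * Complex.I : ℂ) + η - 1) := by
      rw [logDeriv_apply, logDeriv_apply,
        DirichletCharacter.deriv_LFunctionTrivChar₁_apply_of_ne_one N hne,
        DirichletCharacter.LFunctionTrivChar₁, Function.update_of_ne hne]
      simp only [DirichletCharacter.LFunctionTrivChar]
      field_simp
    rw [hsplit]
    have t1 : lam ≤ ‖(1 + lam + v * Complex.I : ℂ) + η - 1‖ := by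
      refine le_trans ?_ (Complex.re_le_norm _)
      rw [Complex.sub_re, z5a_re, Complex.one_re]
      linarith
    have t2 : ‖1 / ((1 + lam + v * Complex.I : ℂ) + η - 1)‖ ≤ 1 / lam := by
      rw [norm_div, norm_one]
      exact one_div_le_one_div_of_le hl t1
    refine (norm_add_le _ _).trans ?_
    have t3 := hld N (1 : DirichletCharacter ℂ N) lam v η hl h2 hη hη8
    refine (add_le_add t3 t2).trans ?_
    rw [le_div_iff₀ hl, add_mul, add_mul, div_mul_cancel₀ _ hl.ne']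
    nlinarith

/-- Growth data of `Lp p`: `LDat_shift` with `η = 0` for `p ≠ p0` (`Lp_mem`, `ne_one_of_ne_p0`),
`LDat_shift_triv` with `N = 1`, `η = 0` for `p = p0` (`Lp_p0`, `gl2_Z` is by definition
`LFunctionTrivChar₁ 1`). -/
theorem LDat_Lp : ∃ C0 K : ℝ, 1 ≤ C0 ∧ ∀ Q : ℕ, K ≤ Q → ∀ p ∈ PC Q,
    LDat C0 (Real.log Q) ((Q : ℝ) ^ 10) (Lp p) := by
  obtain ⟨C1, K1, hC1, h1⟩ := LDat_shift
  obtain ⟨C2, K2, hC2, h2⟩ := LDat_shift_triv
  refine ⟨max C1 C2, max 4 (max K1 K2), hC1.trans (le_max_left _ _), fun Q hQ p hp => ?_⟩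
  have hQ4 : (4 : ℝ) ≤ Q := (le_max_left _ _).trans hQ
  have hQ1 : K1 ≤ (Q : ℝ) := ((le_max_left _ _).trans (le_max_right _ _)).trans hQ
  have hQ2 : K2 ≤ (Q : ℝ) := ((le_max_right _ _).trans (le_max_right _ _)).trans hQ
  have hQ4' : 4 ≤ Q := by exact_mod_cast hQ4
  have hlog := (z5a_logQ hQ4).1
  by_cases h : p = p0
  · have h3 := h2 Q hQ2 1 (by nlinarith) 0 le_rfl (by norm_num)
    rw [h, Lp_p0]
    have h4 : (fun s : ℂ => DirichletCharacter.LFunctionTrivChar₁ 1 (s + ((0 : ℝ) : ℂ))) = gl2_Z := by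
      funext s
      rw [Complex.ofReal_zero, add_zero]
      rfl
    rw [h4] at h3
    exact h3.mono (le_max_right _ _) le_rfl hlog.le
  · obtain ⟨hne, hLp⟩ := Lp_mem hp h
    have hmem := mem_PC.mp hp
    have h3 := h1 Q hQ1 p.1 p.2 (by nlinarith [hmem.2.1]) (ne_one_of_ne_p0 hp h) 0 le_rfl (by norm_num)
    have h4 : (fun s : ℂ => p.2.LFunction (s + ((0 : ℝ) : ℂ))) = p.2.LFunction := by
      funext s
      rw [Complex.ofReal_zero, add_zero]
    rw [h4] at h3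
    rw [hLp]
    exact h3.mono (le_max_left _ _) le_rfl hlog.le

end Pool.Agent.Lib.H18Q
end

-- from Lib.H51D.DHDefs
section

/-!
# Project H51D (MP_f686a1_nt): definitions

Objects of the Deuring-Heilbronn part (module DH).
-/

open Finset

namespace Pool.Agent.Lib.H68T

noncomputable section

/-! ## Objects of the Deuring-Heilbronn part -/

/-- `λ = 1 * ψ` for a real character `ψ`. -/
def lam {r : ℕ} (ψ : DirichletCharacter ℂ r) (n : ℕ) : ℝ :=
  ∑ d ∈ n.divisors, (ψ (d : ZMod r)).re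

/-- `g = μ * μψ`, the Dirichlet inverse of `λ`. -/
def gg {r : ℕ} (ψ : DirichletCharacter ℂ r) (n : ℕ) : ℝ :=
  ∑ p ∈ n.divisorsAntidiagonal, (ArithmeticFunction.moebius p.1 : ℝ) *
    ((ArithmeticFunction.moebius p.2 : ℝ) * (ψ (p.2 : ZMod r)).re)



/-- The partial sums `∑_{m ≤ u} χ(m) λ(m) m^(-s)`. -/
def TT {q r : ℕ} (χ : DirichletCharacter ℂ q) (ψ : DirichletCharacter ℂ r) (s : ℂ) (u : ℕ) : ℂ :=
  ∑ m ∈ Icc 1 u, χ (m : ZMod q) * (lam ψ m : ℂ) * (m : ℂ) ^ (-s)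


end

end Pool.Agent.Lib.H68T
end

-- from Lib.H51D.DHA
section

/-!
# Chunk DHA: the arithmetic functions `λ = 1 * ψ` and `g = μ * μψ`, `ψ` real
-/

open Finset

namespace Pool.Agent.Lib.H68T

open ArithmeticFunction in
theorem dha_val (r : ℕ) (ψ : DirichletCharacter ℂ r) (h2 : ψ ^ 2 = 1) (n : ℕ) :
    ψ (n : ZMod r) = ((ψ (n : ZMod r)).re : ℂ) ∧
      ((ψ (n : ZMod r)).re = 0 ∨ (ψ (n : ZMod r)).re = 1 ∨ (ψ (n : ZMod r)).re = -1) := by
  by_cases hu : IsUnit (n : ZMod r)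
  · have h1 : (ψ ^ 2) (n : ZMod r) = 1 := by
      rw [h2]; exact MulChar.one_apply hu
    rw [MulChar.pow_apply' ψ two_ne_zero] at h1
    have h3 : ψ (n : ZMod r) = 1 ∨ ψ (n : ZMod r) = -1 := sq_eq_one_iff.mp h1
    rcases h3 with h | h
    · rw [h]
      simp
    · rw [h]
      simp
  · rw [MulChar.map_nonunit ψ hu]
    simp

theorem dha_mul (r : ℕ) (ψ : DirichletCharacter ℂ r) (h2 : ψ ^ 2 = 1) (m n : ℕ) :
    (ψ ((m * n : ℕ) : ZMod r)).re = (ψ (m : ZMod r)).re * (ψ (n : ZMod r)).re := by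
  rw [Nat.cast_mul, map_mul]
  rw [(dha_val r ψ h2 m).1, (dha_val r ψ h2 n).1, ← Complex.ofReal_mul, Complex.ofReal_re,
    Complex.ofReal_re, Complex.ofReal_re]

/-- `ψ` as an arithmetic function -/
noncomputable def dha_P {r : ℕ} (ψ : DirichletCharacter ℂ r) : ArithmeticFunction ℝ :=
  ⟨fun n => if n = 0 then 0 else (ψ (n : ZMod r)).re, by simp⟩

theorem dha_P_apply {r : ℕ} (ψ : DirichletCharacter ℂ r) {n : ℕ} (hn : n ≠ 0) :
    dha_P ψ n = (ψ (n : ZMod r)).re := by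
  change (if n = 0 then 0 else (ψ (n : ZMod r)).re) = _
  rw [if_neg hn]

theorem dha_P_mult (r : ℕ) (ψ : DirichletCharacter ℂ r) (h2 : ψ ^ 2 = 1) :
    (dha_P ψ).IsMultiplicative := by
  rw [ArithmeticFunction.IsMultiplicative.iff_ne_zero]
  refine ⟨?_, ?_⟩
  · rw [dha_P_apply ψ one_ne_zero]
    simp
  · intro m n hm hn _
    rw [dha_P_apply ψ (mul_ne_zero hm hn), dha_P_apply ψ hm, dha_P_apply ψ hn, dha_mul r ψ h2]

theorem dha_lam {r : ℕ} (ψ : DirichletCharacter ℂ r) (n : ℕ) :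
    lam ψ n = (dha_P ψ * (ArithmeticFunction.zeta : ArithmeticFunction ℝ)) n := by
  rw [ArithmeticFunction.coe_mul_zeta_apply]
  unfold lam
  refine sum_congr rfl fun d hd => ?_
  rw [dha_P_apply ψ (Nat.pos_of_mem_divisors hd).ne']


theorem dha_lam_mult (r : ℕ) (ψ : DirichletCharacter ℂ r) (h2 : ψ ^ 2 = 1) :
    (dha_P ψ * (ArithmeticFunction.zeta : ArithmeticFunction ℝ)).IsMultiplicative :=
  (dha_P_mult r ψ h2).mul ArithmeticFunction.isMultiplicative_zeta.natCast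


theorem dha_pow (r : ℕ) (ψ : DirichletCharacter ℂ r) (h2 : ψ ^ 2 = 1) (p k : ℕ) :
    (ψ ((p ^ k : ℕ) : ZMod r)).re = (ψ (p : ZMod r)).re ^ k := by
  induction k with
  | zero => simp
  | succ k ih =>
    rw [pow_succ, dha_mul r ψ h2, ih, pow_succ]

theorem dha_lam_pp (r : ℕ) (ψ : DirichletCharacter ℂ r) (h2 : ψ ^ 2 = 1) (p k : ℕ)
    (hp : p.Prime) : lam ψ (p ^ k) = ∑ i ∈ range (k + 1), (ψ (p : ZMod r)).re ^ i := by
  unfold lam
  rw [Nat.divisors_prime_pow hp, sum_map]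
  refine sum_congr rfl fun i _ => ?_
  exact dha_pow r ψ h2 p i


theorem dha_geom_nonneg (v : ℝ) (hv : v = 0 ∨ v = 1 ∨ v = -1) (n : ℕ) :
    0 ≤ ∑ i ∈ range n, v ^ i := by
  rcases hv with h | h | h
  · rw [h]
    exact sum_nonneg fun i _ => pow_nonneg le_rfl i
  · rw [h]
    exact sum_nonneg fun i _ => by simp
  · rw [h, neg_one_geom_sum]
    split <;> norm_num

/-- `λ(n) ≥ 0`: `λ` is multiplicative (`ArithmeticFunction.IsMultiplicative.mul` for the functions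
`n ↦ 1` and `n ↦ (ψ n).re`; `ψ n` is real by `T341_real_value` or because `ψ(n)^2 ∈ {0, 1}`), and
`λ(p^k) = 1 + ψ(p) + ... + ψ(p)^k ≥ 0` for `ψ(p) ∈ {-1, 0, 1}`. -/
theorem lam_nonneg (r : ℕ) [NeZero r] (ψ : DirichletCharacter ℂ r) (h2 : ψ ^ 2 = 1) (n : ℕ) :
    0 ≤ lam ψ n := by
  induction n using Nat.recOnPosPrimePosCoprime with
  | zero => simp [lam]
  | one => simp [lam]
  | prime_pow p k hp hk =>
    rw [dha_lam_pp r ψ h2 p k hp]
    exact dha_geom_nonneg _ (dha_val r ψ h2 p).2 _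
  | coprime a b ha hb hab iha ihb =>
    rw [dha_lam, (dha_lam_mult r ψ h2).map_mul_of_coprime hab, ← dha_lam, ← dha_lam]
    exact mul_nonneg iha ihb




/-- `λ` as a sum of complex values: `ψ(d)` is real. -/
theorem lam_cast (r : ℕ) [NeZero r] (ψ : DirichletCharacter ℂ r) (h2 : ψ ^ 2 = 1) (n : ℕ) :
    (lam ψ n : ℂ) = ∑ d ∈ n.divisors, ψ (d : ZMod r) := by
  unfold lam
  rw [Complex.ofReal_sum]
  refine sum_congr rfl fun d _ => ?_
  exact ((dha_val r ψ h2 d).1).symm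

end Pool.Agent.Lib.H68T
end

-- from Lib.H51D.DHE
section

/-!
# Chunk DHE: Dirichlet series at a zero of their analytic continuation
-/

open Finset

namespace Pool.Agent.Lib.H68T

/-- the error term -/
noncomputable def DHE_E (f : ℕ → ℂ) (κ : ℂ) (n : ℕ) : ℂ := (∑ k ∈ Icc 1 n, f k) - κ * n

/-- `(n+1)^(-s)` -/
noncomputable def DHE_p (n : ℕ) (s : ℂ) : ℂ := (((n : ℝ) + 1 : ℝ) : ℂ) ^ (-s)

/-- the terms of the continuation -/
noncomputable def DHE_A (f : ℕ → ℂ) (κ : ℂ) (n : ℕ) (s : ℂ) : ℂ :=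
  DHE_E f κ (n + 1) * ((((n : ℝ) + 1 : ℝ) : ℂ) ^ (-s) - (((n : ℝ) + 2 : ℝ) : ℂ) ^ (-s))

theorem DHE_p_succ (n : ℕ) (s : ℂ) : DHE_p (n + 1) s = (((n : ℝ) + 2 : ℝ) : ℂ) ^ (-s) := by
  have e : (((n + 1 : ℕ) : ℝ) + 1 : ℝ) = (n : ℝ) + 2 := by
    push_cast
    ring
  rw [DHE_p, e]

theorem DHE_abel (f : ℕ → ℂ) (κ : ℂ) (s : ℂ) (K : ℕ) :
    ∑ n ∈ range K, f (n + 1) * DHE_p n s =
      DHE_E f κ K * DHE_p K s + κ * ∑ n ∈ range K, DHE_p n s + ∑ n ∈ range K, DHE_A f κ n s := by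
  induction K with
  | zero => simp [DHE_E]
  | succ K ih =>
    rw [sum_range_succ, ih, sum_range_succ, sum_range_succ (fun n => DHE_A f κ n s)]
    have h1 : DHE_E f κ (K + 1) = DHE_E f κ K + f (K + 1) - κ := by
      rw [DHE_E, DHE_E, sum_Icc_succ_top (by omega)]
      push_cast
      ring
    have h2 : DHE_A f κ K s = DHE_E f κ (K + 1) * (DHE_p K s - DHE_p (K + 1) s) := by
      rw [DHE_A, DHE_p_succ, DHE_p]
    rw [h2, h1]
    ring

theorem DHE_A_norm (f : ℕ → ℂ) (κ : ℂ) (D : ℝ)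
    (hM : ∀ u : ℕ, ‖(∑ n ∈ Icc 1 u, f n) - κ * u‖ ≤ D * Real.sqrt u) (n : ℕ) (s : ℂ)
    (hs : 0 < s.re) :
    ‖DHE_A f κ n s‖ ≤ D * ‖s‖ * ((n : ℝ) + 1) ^ (-s.re - 1 / 2) := by
  have hn : (0 : ℝ) < (n : ℝ) + 1 := by positivity
  rw [DHE_A, norm_mul, norm_sub_rev]
  have h1 : ‖DHE_E f κ (n + 1)‖ ≤ D * ((n : ℝ) + 1) ^ (1 / 2 : ℝ) := by
    have := hM (n + 1)
    rw [Real.sqrt_eq_rpow] at this
    push_cast at this ⊢
    rw [DHE_E]
    push_cast
    exact this
  have h2 := gl1_diff' s hs (a := (n : ℝ) + 1) (b := (n : ℝ) + 2) hn (by linarith)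
  have e : (n : ℝ) + 2 - ((n : ℝ) + 1) = 1 := by ring
  rw [e, mul_one] at h2
  calc _ ≤ (D * ((n : ℝ) + 1) ^ (1 / 2 : ℝ)) * (‖s‖ * ((n : ℝ) + 1) ^ (-s.re - 1)) :=
        mul_le_mul h1 h2 (norm_nonneg _) ((norm_nonneg _).trans h1)
    _ = D * ‖s‖ * (((n : ℝ) + 1) ^ (1 / 2 : ℝ) * ((n : ℝ) + 1) ^ (-s.re - 1)) := by ring
    _ = _ := by
      rw [← Real.rpow_add hn]
      congr 2
      ring

theorem DHE_diff (f : ℕ → ℂ) (κ : ℂ) (n : ℕ) : Differentiable ℂ (DHE_A f κ n) := by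
  have h0 : ∀ (x : ℝ), 0 < x → Differentiable ℂ fun s : ℂ => (x : ℂ) ^ (-s) := by
    intro x hx s
    refine DifferentiableAt.const_cpow differentiableAt_id.neg (Or.inl ?_)
    exact_mod_cast hx.ne'
  unfold DHE_A
  exact ((h0 _ (by positivity)).sub (h0 _ (by positivity))).const_mul _

theorem DHE_analytic (f : ℕ → ℂ) (κ : ℂ) (D : ℝ) (hD : 0 ≤ D)
    (hM : ∀ u : ℕ, ‖(∑ n ∈ Icc 1 u, f n) - κ * u‖ ≤ D * Real.sqrt u) :
    AnalyticOnNhd ℂ (fun s => ∑' n, DHE_A f κ n s) {s | 1 / 2 < s.re} := by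
  have h1 : DifferentiableOn ℂ (fun s => ∑' n, DHE_A f κ n (s + 1 / 2)) {s | 0 < s.re} := by
    apply gl1_analytic (fun n s => DHE_A f κ n (s + 1 / 2))
    · intro n
      exact (DHE_diff f κ n).comp (by fun_prop)
    · intro R
      refine ⟨D * (|R| + 1), fun n s hs hR => ?_⟩
      have h2 : 0 < (s + 1 / 2).re := by
        simp
        linarith
      refine (DHE_A_norm f κ D hM n _ h2).trans ?_
      have e1 : -(s + 1 / 2).re - 1 / 2 = -s.re - 1 := by
        simp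
        ring
      rw [e1]
      apply mul_le_mul_of_nonneg_right _ (Real.rpow_nonneg (by positivity) _)
      apply mul_le_mul_of_nonneg_left _ hD
      refine (norm_add_le _ _).trans ?_
      have h3 : ‖(1 / 2 : ℂ)‖ = 1 / 2 := by simp
      rw [h3]
      linarith [hR.trans (le_abs_self R)]
  have hop : IsOpen {s : ℂ | 1 / 2 < s.re} := isOpen_lt continuous_const Complex.continuous_re
  apply DifferentiableOn.analyticOnNhd _ hop
  have h4 : DifferentiableOn ℂ ((fun s => ∑' n, DHE_A f κ n (s + 1 / 2)) ∘ fun s => s - 1 / 2)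
      {s | 1 / 2 < s.re} := by
    refine h1.comp (by fun_prop) ?_
    intro s hs
    have hs' : 1 / 2 < s.re := hs
    change 0 < (s - 1 / 2).re
    simp
    linarith
  refine h4.congr fun s _ => ?_
  simp

theorem DHE_summable (f : ℕ → ℂ) (κ : ℂ) (D : ℝ)
    (hM : ∀ u : ℕ, ‖(∑ n ∈ Icc 1 u, f n) - κ * u‖ ≤ D * Real.sqrt u) (s : ℂ)
    (hs : 1 / 2 < s.re) : Summable fun n => DHE_A f κ n s := by
  refine Summable.of_norm_bounded (g := fun n : ℕ => D * ‖s‖ * ((n : ℝ) + 1) ^ (-s.re - 1 / 2)) ?_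
    (fun n => DHE_A_norm f κ D hM n s (by linarith))
  apply Summable.mul_left
  have h1 : Summable fun n : ℕ => (n : ℝ) ^ (-s.re - 1 / 2) :=
    Real.summable_nat_rpow.2 (by linarith)
  have h2 := (summable_nat_add_iff 1).2 h1
  simpa using h2

/-- the continuation -/
theorem DHE_series (f : ℕ → ℂ) (κ : ℂ) (D : ℝ)
    (hM : ∀ u : ℕ, ‖(∑ n ∈ Icc 1 u, f n) - κ * u‖ ≤ D * Real.sqrt u)
    (hsum : ∀ s : ℂ, 1 < s.re → LSeriesSummable f s) (s : ℂ) (hs : 1 < s.re) :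
    LSeries f s = κ * riemannZeta s + ∑' n, DHE_A f κ n s := by
  have h2 : Filter.Tendsto (fun K => ∑ n ∈ range K, f (n + 1) * DHE_p n s) Filter.atTop
      (nhds (LSeries f s)) := by
    have h3 := (hsum s hs).hasSum.tendsto_sum_nat
    have h4 := (Filter.tendsto_add_atTop_iff_nat 1).2 h3
    refine h4.congr fun K => ?_
    rw [sum_range_succ']
    simp only [LSeries.term_zero, add_zero]
    refine sum_congr rfl fun n _ => ?_
    rw [LSeries.term_of_ne_zero (by omega), DHE_p, Complex.cpow_neg, div_eq_mul_inv]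
    push_cast
    rfl
  have h5 : Filter.Tendsto (fun K => DHE_E f κ K * DHE_p K s) Filter.atTop (nhds 0) := by
    have h6 : Filter.Tendsto (fun K : ℕ => |D| * ((K : ℝ) + 1) ^ (-(s.re - 1 / 2))) Filter.atTop
        (nhds (|D| * 0)) := by
      refine Filter.Tendsto.const_mul _ ?_
      have h7 := tendsto_rpow_neg_atTop (y := s.re - 1 / 2) (by linarith)
      have h8 : Filter.Tendsto (fun K : ℕ => (K : ℝ) + 1) Filter.atTop Filter.atTop :=
        Filter.tendsto_atTop_add_const_right _ _ tendsto_natCast_atTop_atTop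
      exact h7.comp h8
    rw [mul_zero] at h6
    refine squeeze_zero_norm (fun K => ?_) h6
    have hK : (0 : ℝ) < (K : ℝ) + 1 := by positivity
    rw [norm_mul, DHE_p, Complex.norm_cpow_eq_rpow_re_of_pos hK]
    have h9 : ‖DHE_E f κ K‖ ≤ |D| * ((K : ℝ) + 1) ^ (1 / 2 : ℝ) := by
      refine (hM K).trans ?_
      rw [Real.sqrt_eq_rpow]
      refine (mul_le_mul_of_nonneg_right (le_abs_self D) (Real.rpow_nonneg (by positivity) _)).trans ?_
      apply mul_le_mul_of_nonneg_left _ (abs_nonneg D)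
      exact Real.rpow_le_rpow (by positivity) (by linarith) (by norm_num)
    calc ‖DHE_E f κ K‖ * ((K : ℝ) + 1) ^ (-s).re
        ≤ |D| * ((K : ℝ) + 1) ^ (1 / 2 : ℝ) * ((K : ℝ) + 1) ^ (-s).re :=
          mul_le_mul_of_nonneg_right h9 (Real.rpow_nonneg hK.le _)
      _ = |D| * (((K : ℝ) + 1) ^ (1 / 2 : ℝ) * ((K : ℝ) + 1) ^ (-s).re) := by ring
      _ = _ := by
        rw [← Real.rpow_add hK]
        congr 2
        simp
        ring
  have h10 : Filter.Tendsto (fun K => ∑ n ∈ range K, DHE_p n s) Filter.atTop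
      (nhds (riemannZeta s)) := by
    have h1 : Summable fun n : ℕ => 1 / ((n : ℂ) + 1) ^ s := by
      have h2 := Complex.summable_one_div_nat_cpow.2 hs
      have h3 := (summable_nat_add_iff 1).2 h2
      simpa using h3
    rw [zeta_eq_tsum_one_div_nat_add_one_cpow hs]
    refine h1.hasSum.tendsto_sum_nat.congr fun K => ?_
    refine sum_congr rfl fun n _ => ?_
    rw [DHE_p, Complex.cpow_neg, one_div]
    push_cast
    rfl
  have h11 := (DHE_summable f κ D hM s (by linarith)).hasSum.tendsto_sum_nat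
  have h12 := (h5.add (h10.const_mul κ)).add h11
  rw [zero_add] at h12
  refine tendsto_nhds_unique h2 (h12.congr fun K => ?_)
  exact (DHE_abel f κ s K).symm

theorem DHE_mvt (p x : ℝ) (hp : 0 < p) (hx : 0 < x) :
    p * (x + 1) ^ (-p - 1) ≤ x ^ (-p) - (x + 1) ^ (-p) := by
  have hx1 : 0 < x + 1 := by linarith
  have h1 : Real.log x ≤ Real.log (x + 1) - 1 / (x + 1) := by
    have h2 : Real.log (x / (x + 1)) ≤ x / (x + 1) - 1 :=
      Real.log_le_sub_one_of_pos (by positivity)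
    rw [Real.log_div hx.ne' hx1.ne'] at h2
    have h3 : x / (x + 1) - 1 = -(1 / (x + 1)) := by
      field_simp
      ring
    linarith
  have h4 : (x + 1) ^ (-p) * (1 + p / (x + 1)) ≤ x ^ (-p) := by
    rw [Real.rpow_def_of_pos hx, Real.rpow_def_of_pos hx1]
    calc Real.exp (Real.log (x + 1) * -p) * (1 + p / (x + 1))
        ≤ Real.exp (Real.log (x + 1) * -p) * Real.exp (p / (x + 1)) := by
          apply mul_le_mul_of_nonneg_left _ (Real.exp_pos _).le
          linarith [Real.add_one_le_exp (p / (x + 1))]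
      _ = Real.exp (Real.log (x + 1) * -p + p / (x + 1)) := by rw [Real.exp_add]
      _ ≤ _ := by
          apply Real.exp_le_exp.mpr
          have h5 := mul_le_mul_of_nonneg_left h1 hp.le
          have h6 : p / (x + 1) = p * (1 / (x + 1)) := by ring
          rw [h6]
          linarith
  have h7 : (x + 1) ^ (-p) * (p / (x + 1)) = p * (x + 1) ^ (-p - 1) := by
    rw [Real.rpow_sub hx1, Real.rpow_one]
    ring
  linarith


end Pool.Agent.Lib.H68T
end

-- from Lib.H18Q.W1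
section

/-!
# Project H18Q, chunk W1: the weights `Jk`

`Jk lam k n = n^(-1) lam h_k(lam log n)`, `h_k(y) = y^k e^(-y) / k!`, for `n ≥ 1`.
-/

open Finset

namespace Pool.Agent.Lib.H18Q

open ArithmeticFunction

/-- `y^k e^(-y) / k!`. -/
noncomputable def w1_h (k : ℕ) (y : ℝ) : ℝ := y ^ k / (k.factorial : ℝ) * Real.exp (-y)

/-- The tail `e^(-y) ∑_{i ≤ k} y^i / i!` of the Gamma integral. -/
noncomputable def w1_P : ℕ → ℝ → ℝ
  | 0 => fun y => Real.exp (-y)
  | (k + 1) => fun y => w1_P k y + y ^ (k + 1) / ((k + 1).factorial : ℝ) * Real.exp (-y)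

theorem w1_exp_der (y : ℝ) : HasDerivAt (fun y : ℝ => Real.exp (-y)) (-Real.exp (-y)) y := by
  have h := (Real.hasDerivAt_exp (-y)).comp y (hasDerivAt_neg y)
  rw [mul_neg, mul_one] at h
  exact h

theorem w1_P_der (k : ℕ) (y : ℝ) : HasDerivAt (w1_P k) (-w1_h k y) y := by
  induction k with
  | zero =>
    have h : w1_h 0 y = Real.exp (-y) := by
      unfold w1_h
      rw [pow_zero, Nat.factorial_zero, Nat.cast_one, div_one, one_mul]
    rw [h]
    exact w1_exp_der y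
  | succ k ih =>
    have h1 : HasDerivAt (fun y : ℝ => y ^ (k + 1) / ((k + 1).factorial : ℝ))
        (y ^ k / (k.factorial : ℝ)) y := by
      have h2 := (hasDerivAt_pow (k + 1) y).div_const ((k + 1).factorial : ℝ)
      have h3 : ((k + 1 : ℕ) : ℝ) * y ^ (k + 1 - 1) / ((k + 1).factorial : ℝ) =
          y ^ k / (k.factorial : ℝ) := by
        rw [Nat.add_sub_cancel, Nat.factorial_succ, Nat.cast_mul]
        exact mul_div_mul_left _ _ (by positivity)
      rw [h3] at h2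
      exact h2
    have h4 := ih.add (h1.mul (w1_exp_der y))
    have h5 : -w1_h k y + (y ^ k / (k.factorial : ℝ) * Real.exp (-y) +
        y ^ (k + 1) / ((k + 1).factorial : ℝ) * -Real.exp (-y)) = -w1_h (k + 1) y := by
      unfold w1_h
      ring
    rw [h5] at h4
    exact h4

theorem w1_h_nonneg (k : ℕ) {y : ℝ} (hy : 0 ≤ y) : 0 ≤ w1_h k y := by
  unfold w1_h
  positivity

theorem w1_h_le (k : ℕ) {y : ℝ} (hy : 0 ≤ y) : w1_h k y ≤ 1 := by
  unfold w1_h
  have h1 := Real.pow_div_factorial_le_exp y hy k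
  calc y ^ k / (k.factorial : ℝ) * Real.exp (-y) ≤ Real.exp y * Real.exp (-y) :=
        mul_le_mul_of_nonneg_right h1 (Real.exp_pos _).le
    _ = 1 := by rw [← Real.exp_add, add_neg_cancel, Real.exp_zero]

theorem w1_P_nonneg (k : ℕ) {y : ℝ} (hy : 0 ≤ y) : 0 ≤ w1_P k y := by
  induction k with
  | zero => exact (Real.exp_pos _).le
  | succ k ih =>
    have h : 0 ≤ w1_h (k + 1) y := w1_h_nonneg (k + 1) hy
    exact add_nonneg ih h

theorem w1_P_zero (k : ℕ) : w1_P k 0 = 1 := by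
  induction k with
  | zero =>
    show Real.exp (-0) = 1
    rw [neg_zero, Real.exp_zero]
  | succ k ih =>
    show w1_P k 0 + (0 : ℝ) ^ (k + 1) / ((k + 1).factorial : ℝ) * Real.exp (-0) = 1
    rw [ih, zero_pow (Nat.succ_ne_zero k), zero_div, zero_mul, add_zero]

theorem w1_mvt (k : ℕ) {a b : ℝ} (hab : a < b) :
    ∃ ξ, a < ξ ∧ ξ < b ∧ w1_P k a - w1_P k b = w1_h k ξ * (b - a) := by
  obtain ⟨ξ, hξ, h⟩ := exists_hasDerivAt_eq_slope (w1_P k) (fun y => -w1_h k y) hab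
    (fun y _ => (w1_P_der k y).continuousAt.continuousWithinAt) (fun y _ => w1_P_der k y)
  refine ⟨ξ, hξ.1, hξ.2, ?_⟩
  have h0 : b - a ≠ 0 := (sub_pos.2 hab).ne'
  rw [eq_div_iff h0] at h
  linarith

theorem w1_P_anti (k : ℕ) {a b : ℝ} (ha : 0 ≤ a) (hab : a ≤ b) : w1_P k b ≤ w1_P k a := by
  rcases hab.lt_or_eq with h | h
  · obtain ⟨ξ, h1, h2, h3⟩ := w1_mvt k h
    have h4 : 0 ≤ w1_h k ξ * (b - a) :=
      mul_nonneg (w1_h_nonneg k (by linarith)) (by linarith)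
    linarith
  · rw [h]

theorem w1_h_mono (k : ℕ) {y ξ : ℝ} (hy : 0 ≤ y) (h1 : y ≤ ξ) (h2 : ξ ≤ k) :
    w1_h k y ≤ w1_h k ξ := by
  rcases hy.lt_or_eq with hy | hy
  · have hξ : 0 < ξ := by linarith
    have hk : (0 : ℝ) < k := by linarith
    have hk0 : k ≠ 0 := fun e => by
      rw [e, Nat.cast_zero] at hk
      exact lt_irrefl _ hk
    have h3 : (ξ - y) / k ≤ Real.log (ξ / y) := by
      have h4 := Real.one_sub_inv_le_log_of_pos (div_pos hξ hy)
      have h5 : (ξ - y) / k ≤ 1 - (ξ / y)⁻¹ := by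
        rw [inv_div]
        have h6 : 1 - y / ξ = (ξ - y) / ξ := by field_simp
        rw [h6]
        exact div_le_div_of_nonneg_left (by linarith) hξ h2
      exact h5.trans h4
    have h4 : Real.exp (ξ - y) ≤ (ξ / y) ^ k := by
      have h5 : Real.exp ((ξ - y) / k) ≤ ξ / y := by
        rw [← Real.exp_log (div_pos hξ hy)]
        exact Real.exp_le_exp.2 h3
      have h6 : Real.exp (ξ - y) = Real.exp ((ξ - y) / k) ^ k := by
        rw [← Real.exp_nat_mul]
        congr 1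
        field_simp
      rw [h6]
      exact pow_le_pow_left₀ (Real.exp_pos _).le h5 k
    unfold w1_h
    have h5 : Real.exp (-y) = Real.exp (ξ - y) * Real.exp (-ξ) := by
      rw [← Real.exp_add]
      congr 1
      ring
    rw [h5, div_mul_eq_mul_div, div_mul_eq_mul_div]
    apply div_le_div_of_nonneg_right _ (by positivity)
    rw [← mul_assoc]
    apply mul_le_mul_of_nonneg_right _ (Real.exp_pos _).le
    rw [div_pow, le_div_iff₀ (pow_pos hy k)] at h4
    linarith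
  · rcases Nat.eq_zero_or_pos k with hk | hk
    · subst hk
      rw [Nat.cast_zero] at h2
      have h3 : ξ = y := by linarith
      rw [h3]
    · unfold w1_h
      rw [← hy, zero_pow hk.ne', zero_div, zero_mul]
      have : 0 ≤ ξ := by linarith
      positivity

theorem w1_h_anti (k : ℕ) {y ξ : ℝ} (hy : 0 ≤ y) (h1 : y ≤ ξ) (h2 : (k : ℝ) ≤ y) :
    w1_h k ξ ≤ w1_h k y := by
  rcases hy.lt_or_eq with hy | hy
  · have hξ : 0 < ξ := by linarith
    have h4 : (ξ / y) ^ k ≤ Real.exp (ξ - y) := by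
      have h5 : ξ / y ≤ Real.exp (ξ / y - 1) := by
        have := Real.add_one_le_exp (ξ / y - 1)
        linarith
      have h6 : (ξ / y) ^ k ≤ Real.exp (ξ / y - 1) ^ k :=
        pow_le_pow_left₀ (div_pos hξ hy).le h5 k
      refine h6.trans ?_
      rw [← Real.exp_nat_mul]
      apply Real.exp_le_exp.2
      have h7 : ξ / y - 1 = (ξ - y) / y := by field_simp
      rw [h7, mul_div_assoc', div_le_iff₀ hy, mul_comm]
      exact mul_le_mul_of_nonneg_left h2 (by linarith)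
    unfold w1_h
    have h5 : Real.exp (-y) = Real.exp (ξ - y) * Real.exp (-ξ) := by
      rw [← Real.exp_add]
      congr 1
      ring
    rw [h5, div_mul_eq_mul_div, div_mul_eq_mul_div]
    apply div_le_div_of_nonneg_right _ (by positivity)
    rw [← mul_assoc]
    apply mul_le_mul_of_nonneg_right _ (Real.exp_pos _).le
    rw [div_pow, div_le_iff₀ (pow_pos hy k)] at h4
    linarith
  · have hk : k = 0 := by
      have : (k : ℝ) ≤ 0 := by linarith
      exact_mod_cast le_antisymm this (Nat.cast_nonneg k)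
    subst hk
    unfold w1_h
    rw [pow_zero, pow_zero]
    apply mul_le_mul_of_nonneg_left _ (by positivity)
    apply Real.exp_le_exp.2
    linarith

/-- The differences of `w1_P` at the points `lam j`, `lam (j + 2)`. -/
noncomputable def w1_D (lam : ℝ) (k j : ℕ) : ℝ := w1_P k (lam * j) - w1_P k (lam * (j + 2))

/-- The blocks about the maximum. -/
noncomputable def w1_F (lam : ℝ) (k j : ℕ) : ℝ :=
  open Classical in
  if (k : ℝ) / lam - 2 ≤ j ∧ (j : ℝ) ≤ k / lam + 1 then lam else 0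

theorem w1_D_nonneg {lam : ℝ} (hlam : 0 < lam) (k j : ℕ) : 0 ≤ w1_D lam k j := by
  unfold w1_D
  have h1 : 0 ≤ lam * (j : ℝ) := by positivity
  have h2 := w1_P_anti k h1 (mul_le_mul_of_nonneg_left (by linarith : (j : ℝ) ≤ j + 2) hlam.le)
  linarith

theorem w1_main {lam : ℝ} (hlam : 0 < lam) (k j : ℕ) {t : ℝ} (h1 : (j : ℝ) ≤ t)
    (h2 : t < j + 1) : lam * w1_h k (lam * t) ≤ w1_D lam k j + w1_D lam k (j - 1) + w1_F lam k j := by
  have ht : 0 ≤ t := (Nat.cast_nonneg j).trans h1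
  have hy : 0 ≤ lam * t := mul_nonneg hlam.le ht
  have hF : 0 ≤ w1_F lam k j := by
    unfold w1_F
    split_ifs
    · exact hlam.le
    · exact le_rfl
  have hD1 := w1_D_nonneg hlam k j
  have hD2 := w1_D_nonneg hlam k (j - 1)
  by_cases hA : lam * t + lam ≤ k
  · obtain ⟨ξ, hξ1, hξ2, hξ⟩ := w1_mvt k (show lam * t < lam * t + lam by linarith)
    have h3 : w1_h k (lam * t) ≤ w1_h k ξ := w1_h_mono k hy hξ1.le (by linarith)
    have h4 : lam * w1_h k (lam * t) ≤ w1_P k (lam * t) - w1_P k (lam * t + lam) := by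
      rw [hξ]
      nlinarith
    have h5 : w1_P k (lam * t) ≤ w1_P k (lam * j) :=
      w1_P_anti k (by positivity) (mul_le_mul_of_nonneg_left h1 hlam.le)
    have h6 : w1_P k (lam * (j + 2)) ≤ w1_P k (lam * t + lam) :=
      w1_P_anti k (by linarith) (by nlinarith)
    have h7 : w1_D lam k j = w1_P k (lam * j) - w1_P k (lam * (j + 2)) := rfl
    linarith
  · by_cases hB : (k : ℝ) ≤ lam * t - lam
    · have ht1 : 0 ≤ lam * t - lam := (Nat.cast_nonneg k).trans hB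
      have ht2 : 1 ≤ t := by
        by_contra hc
        push Not at hc
        nlinarith
      have hj : 1 ≤ j := by
        by_contra hc
        have : j = 0 := by omega
        rw [this, Nat.cast_zero] at h2
        linarith
      obtain ⟨i, rfl⟩ : ∃ i, j = i + 1 := ⟨j - 1, by omega⟩
      rw [Nat.add_sub_cancel] at hD2 ⊢
      push_cast at h1 h2
      obtain ⟨ξ, hξ1, hξ2, hξ⟩ := w1_mvt k (show lam * t - lam < lam * t by linarith)
      have h3 : w1_h k (lam * t) ≤ w1_h k ξ := w1_h_anti k (by linarith) hξ2.le (by linarith)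
      have h4 : lam * w1_h k (lam * t) ≤ w1_P k (lam * t - lam) - w1_P k (lam * t) := by
        rw [hξ]
        nlinarith
      have h5 : w1_P k (lam * t - lam) ≤ w1_P k (lam * i) :=
        w1_P_anti k (by positivity) (by nlinarith)
      have h6 : w1_P k (lam * (i + 2)) ≤ w1_P k (lam * t) :=
        w1_P_anti k hy (by nlinarith)
      have h7 : w1_D lam k i = w1_P k (lam * i) - w1_P k (lam * (i + 2)) := rfl
      linarith
    · push Not at hA hB
      have h3 : w1_F lam k j = lam := by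
        unfold w1_F
        rw [if_pos]
        constructor
        · rw [sub_le_iff_le_add, div_le_iff₀ hlam]
          nlinarith
        · have h4 : (j : ℝ) - 1 ≤ k / lam := by
            rw [le_div_iff₀ hlam]
            nlinarith
          linarith
      have h4 := w1_h_le k hy
      rw [h3]
      nlinarith

theorem w1_D_sum {lam : ℝ} (hlam : 0 < lam) (k J : ℕ) : ∑ j ∈ range J, w1_D lam k j ≤ 2 := by
  have h1 : ∀ j : ℕ, w1_D lam k j = (w1_P k (lam * (j : ℝ)) - w1_P k (lam * ((j + 1 : ℕ) : ℝ))) +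
      (w1_P k (lam * ((j + 1 : ℕ) : ℝ)) - w1_P k (lam * ((j + 1 + 1 : ℕ) : ℝ))) := by
    intro j
    unfold w1_D
    push_cast
    rw [show (j : ℝ) + 1 + 1 = j + 2 by ring]
    ring
  have h2 : ∑ j ∈ range J, (w1_P k (lam * (j : ℝ)) - w1_P k (lam * ((j + 1 : ℕ) : ℝ))) =
      w1_P k (lam * ((0 : ℕ) : ℝ)) - w1_P k (lam * (J : ℝ)) :=
    Finset.sum_range_sub' (fun j : ℕ => w1_P k (lam * (j : ℝ))) J
  have h3 : ∑ j ∈ range J, (w1_P k (lam * ((j + 1 : ℕ) : ℝ)) -
      w1_P k (lam * ((j + 1 + 1 : ℕ) : ℝ))) =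
      w1_P k (lam * ((0 + 1 : ℕ) : ℝ)) - w1_P k (lam * ((J + 1 : ℕ) : ℝ)) :=
    Finset.sum_range_sub' (fun j : ℕ => w1_P k (lam * ((j + 1 : ℕ) : ℝ))) J
  rw [Finset.sum_congr rfl fun j _ => h1 j, Finset.sum_add_distrib, h2, h3]
  have h4 : w1_P k (lam * ((0 : ℕ) : ℝ)) = 1 := by
    rw [Nat.cast_zero, mul_zero, w1_P_zero]
  have h5 : w1_P k (lam * ((0 + 1 : ℕ) : ℝ)) ≤ 1 := by
    rw [← w1_P_zero k]
    exact w1_P_anti k le_rfl (by positivity)
  have h6 : 0 ≤ w1_P k (lam * (J : ℝ)) := w1_P_nonneg k (by positivity)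
  have h7 : 0 ≤ w1_P k (lam * ((J + 1 : ℕ) : ℝ)) := w1_P_nonneg k (by positivity)
  linarith

theorem w1_D_sum' {lam : ℝ} (hlam : 0 < lam) (k J : ℕ) :
    ∑ j ∈ range J, w1_D lam k (j - 1) ≤ 4 := by
  have h0 : w1_D lam k 0 ≤ 2 := by
    have := w1_D_sum hlam k 1
    rw [Finset.sum_range_one] at this
    exact this
  rcases J with _ | J
  · rw [Finset.sum_range_zero]
    norm_num
  · rw [Finset.sum_range_succ']
    have h1 : ∑ j ∈ range J, w1_D lam k (j + 1 - 1) = ∑ j ∈ range J, w1_D lam k j :=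
      Finset.sum_congr rfl fun j _ => by rw [Nat.add_sub_cancel]
    rw [h1]
    have := w1_D_sum hlam k J
    have h2 : w1_D lam k (0 - 1) = w1_D lam k 0 := rfl
    rw [h2]
    linarith

theorem w1_F_sum {lam : ℝ} (hlam : 0 < lam) (hlam1 : lam ≤ 1) (k J : ℕ) :
    ∑ j ∈ range J, w1_F lam k j ≤ 5 := by
  classical
  have h1 : ∑ j ∈ range J, w1_F lam k j ≤
      ∑ j ∈ Finset.Icc ⌈(k : ℝ) / lam - 2⌉₊ ⌊(k : ℝ) / lam + 1⌋₊, lam := by
    rw [← Finset.sum_filter_add_sum_filter_not (range J)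
      (fun j : ℕ => (k : ℝ) / lam - 2 ≤ j ∧ (j : ℝ) ≤ k / lam + 1)]
    have h2 : ∑ j ∈ (range J).filter
        (fun j : ℕ => ¬ ((k : ℝ) / lam - 2 ≤ j ∧ (j : ℝ) ≤ k / lam + 1)), w1_F lam k j = 0 := by
      apply Finset.sum_eq_zero
      intro j hj
      unfold w1_F
      rw [if_neg (Finset.mem_filter.1 hj).2]
    rw [h2, add_zero]
    have h3 : ∑ j ∈ (range J).filter
        (fun j : ℕ => ((k : ℝ) / lam - 2 ≤ j ∧ (j : ℝ) ≤ k / lam + 1)), w1_F lam k j =
        ∑ j ∈ (range J).filter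
        (fun j : ℕ => ((k : ℝ) / lam - 2 ≤ j ∧ (j : ℝ) ≤ k / lam + 1)), lam := by
      apply Finset.sum_congr rfl
      intro j hj
      unfold w1_F
      rw [if_pos (Finset.mem_filter.1 hj).2]
    rw [h3]
    apply Finset.sum_le_sum_of_subset_of_nonneg
    · intro j hj
      obtain ⟨-, h4, h5⟩ := Finset.mem_filter.1 hj
      rw [Finset.mem_Icc]
      exact ⟨Nat.ceil_le.2 h4, Nat.le_floor h5⟩
    · intro j _ _
      exact hlam.le
  refine h1.trans ?_
  rw [Finset.sum_const, Nat.card_Icc, nsmul_eq_mul]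
  have h2 : ((⌊(k : ℝ) / lam + 1⌋₊ + 1 - ⌈(k : ℝ) / lam - 2⌉₊ : ℕ) : ℝ) ≤ 5 := by
    have h3 : (⌊(k : ℝ) / lam + 1⌋₊ : ℝ) ≤ k / lam + 1 := Nat.floor_le (by positivity)
    have h4 : (k : ℝ) / lam - 2 ≤ ⌈(k : ℝ) / lam - 2⌉₊ := Nat.le_ceil _
    have h5 : (⌊(k : ℝ) / lam + 1⌋₊ : ℝ) ≤ ⌈(k : ℝ) / lam - 2⌉₊ + 3 := by linarith
    have h6 : ⌊(k : ℝ) / lam + 1⌋₊ ≤ ⌈(k : ℝ) / lam - 2⌉₊ + 3 := by exact_mod_cast h5
    have h7 : ⌊(k : ℝ) / lam + 1⌋₊ + 1 - ⌈(k : ℝ) / lam - 2⌉₊ ≤ 5 := by omega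
    exact_mod_cast h7
  nlinarith [Nat.cast_nonneg (α := ℝ) (⌊(k : ℝ) / lam + 1⌋₊ + 1 - ⌈(k : ℝ) / lam - 2⌉₊)]

theorem w1_Jk (lam : ℝ) (k n : ℕ) (hn : 1 ≤ n) :
    (n : ℝ) * Jk lam k n = lam * w1_h k (lam * Real.log n) := by
  have hn0 : (0 : ℝ) < n := by exact_mod_cast hn
  unfold Jk w1_h
  have h1 : (n : ℝ) ^ (-1 - lam) = (n : ℝ)⁻¹ * Real.exp (-(lam * Real.log n)) := by
    rw [Real.rpow_def_of_pos hn0, ← Real.exp_log (inv_pos.2 hn0), Real.log_inv, ← Real.exp_add]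
    congr 1
    ring
  rw [h1, mul_pow]
  field_simp
  ring

theorem Jk_nonneg (lam : ℝ) (k n : ℕ) (hlam : 0 ≤ lam) : 0 ≤ Jk lam k n := by
  unfold Jk
  have h1 : 0 ≤ Real.log (n : ℝ) := Real.log_natCast_nonneg n
  positivity

/-- `n Jk(n) ≤ lam`: `y^k e^(-y) ≤ k!` for `y ≥ 0` (`Real.pow_div_factorial_le_exp`). Also true
for `n = 0` (`(0:ℝ)^(-1-lam) = 0`). -/
theorem Jk_le (lam : ℝ) (k n : ℕ) (hlam : 0 < lam) : (n : ℝ) * Jk lam k n ≤ lam := by
  rcases Nat.eq_zero_or_pos n with hn | hn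
  · rw [hn, Nat.cast_zero, zero_mul]
    exact hlam.le
  · rw [w1_Jk lam k n hn]
    have h1 := w1_h_le k (mul_nonneg hlam.le (Real.log_natCast_nonneg n))
    nlinarith

/-- Blocks: `∑_{e^j ≤ n < e^(j+1)} Λ(n)/n ≤ C`, from `∑_{n ≤ x} Λ(n) ≤ C x` (Chebyshev, e.g.
`Chebyshev.psi_le_const_mul_self` of Mathlib; see also `BPS_sum_vM` in `H68T/BPS`). Stated for
finite sets. -/
theorem W1_block : ∃ C : ℝ, 0 < C ∧ ∀ (j : ℕ) (s : Finset ℕ),
    (∀ n ∈ s, 1 ≤ n ∧ (j : ℝ) ≤ Real.log n ∧ Real.log n ≤ j + 1) →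
    ∑ n ∈ s, Λ n / n ≤ C := by
  refine ⟨(Real.log 4 + 4) * Real.exp 1, by positivity, ?_⟩
  intro j s hs
  have h1 : ∀ n ∈ s, Λ n / n ≤ Real.exp (-(j : ℝ)) * Λ n := by
    intro n hn
    obtain ⟨h2, h3, h4⟩ := hs n hn
    have hn0 : (0 : ℝ) < n := by exact_mod_cast h2
    have h5 : Real.exp (j : ℝ) ≤ n := by
      rw [← Real.exp_log hn0]
      exact Real.exp_le_exp.2 h3
    rw [Real.exp_neg, div_eq_inv_mul]
    exact mul_le_mul_of_nonneg_right (inv_anti₀ (Real.exp_pos _) h5)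
      ArithmeticFunction.vonMangoldt_nonneg
  have h2 : ∑ n ∈ s, Λ n ≤ Chebyshev.psi (Real.exp ((j : ℝ) + 1)) := by
    unfold Chebyshev.psi
    apply Finset.sum_le_sum_of_subset_of_nonneg
    · intro n hn
      obtain ⟨h2, h3, h4⟩ := hs n hn
      have hn0 : (0 : ℝ) < n := by exact_mod_cast h2
      rw [Finset.mem_Ioc]
      refine ⟨h2, Nat.le_floor ?_⟩
      rw [← Real.exp_log hn0]
      exact Real.exp_le_exp.2 h4
    · intro n _ _
      exact ArithmeticFunction.vonMangoldt_nonneg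
  have h3 := Chebyshev.psi_le_const_mul_self (Real.exp_pos ((j : ℝ) + 1)).le
  calc ∑ n ∈ s, Λ n / n ≤ ∑ n ∈ s, Real.exp (-(j : ℝ)) * Λ n := Finset.sum_le_sum h1
    _ = Real.exp (-(j : ℝ)) * ∑ n ∈ s, Λ n := by rw [Finset.mul_sum]
    _ ≤ Real.exp (-(j : ℝ)) * ((Real.log 4 + 4) * Real.exp ((j : ℝ) + 1)) :=
        mul_le_mul_of_nonneg_left (h2.trans h3) (Real.exp_pos _).le
    _ = (Real.log 4 + 4) * Real.exp 1 := by
        rw [Real.exp_add, Real.exp_neg]
        field_simp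

/-- Total mass: `∑_{n ∈ s} Λ(n) Jk(n) ≤ C` for every finite set `s`.

Proof. Split by `j = ⌊log n⌋` (`n ≥ 1`; the term `n = 0` is `0` since `Λ 0 = 0`): a block contributes
at most `C lam max_{[lam j, lam (j+1)]} h_k`. `h_k` is unimodal with maximum at `y = k` and
`h_k ≤ 1`, `∫_0^∞ h_k = 1`. So for the blocks with `lam (j+1) ≤ k` (increasing) the maximum is
`h_k(lam (j+1)) ≤ (1/lam) ∫_{lam (j+1)}^{lam (j+2)} h_k` if `lam (j+2) ≤ k`, similarly for the
decreasing part; at most `4` blocks remain, each contributing `≤ C lam`. Total `≤ C (1 + 1 + 4 lam)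
≤ 6 C`. Alternative avoiding unimodality: for `lam ≤ 1`, on a block `h_k(lam u) ≤ e (lam (j+1))^k
e^(-lam (j+1))/k!`, and `∑_j lam (lam (j+1))^k e^(-lam (j+1))/k! ≤ C` can be proved from
`x^k = x (x-lam)...` or from the negative binomial series: `(j+1)^k ≤ k! binom (j+k) k` with
`j + 1 ≤ ...` (then `∑_j binom(j+k) k e^(-lam (j+1)) = e^(-lam) (1 - e^(-lam))^(-k-1)` and
`lam^(k+1) (1-e^(-lam))^(-k-1)` is NOT bounded: do not use this), so prefer the comparison with the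
integral. -/
theorem Jk_sum : ∃ C : ℝ, 0 < C ∧ ∀ (lam : ℝ) (k : ℕ) (s : Finset ℕ), 0 < lam → lam ≤ 1 →
    ∑ n ∈ s, Λ n * Jk lam k n ≤ C := by
  classical
  obtain ⟨C, hC, hb⟩ := W1_block
  refine ⟨C * 11, by positivity, ?_⟩
  intro lam k s hlam hlam1
  have h1 : ∑ n ∈ s, Λ n * Jk lam k n = ∑ n ∈ s.filter (fun n => 1 ≤ n), Λ n * Jk lam k n := by
    rw [← Finset.sum_filter_add_sum_filter_not s (fun n => 1 ≤ n)]
    have h2 : ∑ n ∈ s.filter (fun n => ¬ 1 ≤ n), Λ n * Jk lam k n = 0 := by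
      apply Finset.sum_eq_zero
      intro n hn
      have h3 : n = 0 := by
        have := (Finset.mem_filter.1 hn).2
        omega
      rw [h3, ArithmeticFunction.map_zero, zero_mul]
    rw [h2, add_zero]
  rw [h1]
  obtain ⟨J, hJ⟩ : ∃ J : ℕ, ∀ n ∈ s.filter (fun n => 1 ≤ n), ⌊Real.log (n : ℝ)⌋₊ ∈ range J := by
    refine ⟨(s.filter (fun n => 1 ≤ n)).sup (fun n : ℕ => ⌊Real.log (n : ℝ)⌋₊) + 1, fun n hn => ?_⟩
    rw [Finset.mem_range, Nat.lt_succ_iff]
    exact Finset.le_sup (f := fun n : ℕ => ⌊Real.log (n : ℝ)⌋₊) hn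
  rw [← Finset.sum_fiberwise_of_maps_to hJ]
  have h2 : ∀ j ∈ range J, ∑ n ∈ (s.filter (fun n => 1 ≤ n)).filter
      (fun n : ℕ => ⌊Real.log (n : ℝ)⌋₊ = j), Λ n * Jk lam k n ≤
      C * (w1_D lam k j + w1_D lam k (j - 1) + w1_F lam k j) := by
    intro j _
    have h3 : ∀ n ∈ (s.filter (fun n => 1 ≤ n)).filter (fun n : ℕ => ⌊Real.log (n : ℝ)⌋₊ = j),
        1 ≤ n ∧ (j : ℝ) ≤ Real.log n ∧ Real.log n < j + 1 := by
      intro n hn
      obtain ⟨h4, h5⟩ := Finset.mem_filter.1 hn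
      have h6 := (Finset.mem_filter.1 h4).2
      have h7 : 0 ≤ Real.log (n : ℝ) := Real.log_natCast_nonneg n
      refine ⟨h6, ?_, ?_⟩
      · rw [← h5]
        exact Nat.floor_le h7
      · rw [← h5]
        exact Nat.lt_floor_add_one _
    have h4 : ∀ n ∈ (s.filter (fun n => 1 ≤ n)).filter (fun n : ℕ => ⌊Real.log (n : ℝ)⌋₊ = j),
        Λ n * Jk lam k n ≤ Λ n / n * (w1_D lam k j + w1_D lam k (j - 1) + w1_F lam k j) := by
      intro n hn
      obtain ⟨h5, h6, h7⟩ := h3 n hn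
      have hn0 : (0 : ℝ) < n := by exact_mod_cast h5
      have h8 : Λ n * Jk lam k n = Λ n / n * (n * Jk lam k n) := by field_simp
      rw [h8, w1_Jk lam k n h5]
      apply mul_le_mul_of_nonneg_left (w1_main hlam k j h6 h7)
      exact div_nonneg ArithmeticFunction.vonMangoldt_nonneg hn0.le
    refine (Finset.sum_le_sum h4).trans ?_
    rw [← Finset.sum_mul]
    apply mul_le_mul_of_nonneg_right
    · exact hb j _ fun n hn => ⟨(h3 n hn).1, (h3 n hn).2.1, (h3 n hn).2.2.le⟩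
    · have hD1 := w1_D_nonneg hlam k j
      have hD2 := w1_D_nonneg hlam k (j - 1)
      have hF : 0 ≤ w1_F lam k j := by
        unfold w1_F
        split_ifs
        · exact hlam.le
        · exact le_rfl
      linarith
  refine (Finset.sum_le_sum h2).trans ?_
  rw [← Finset.mul_sum, Finset.sum_add_distrib, Finset.sum_add_distrib]
  have h3 := w1_D_sum hlam k J
  have h4 := w1_D_sum' hlam k J
  have h5 := w1_F_sum hlam hlam1 k J
  exact mul_le_mul_of_nonneg_left (by linarith) hC.le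

theorem Jk_summable (lam : ℝ) (k : ℕ) (hlam : 0 < lam) (hlam1 : lam ≤ 1) :
    Summable fun n : ℕ => Λ n * Jk lam k n := by
  obtain ⟨C, hC, h⟩ := Jk_sum
  refine summable_of_sum_le (c := C) ?_ (fun u => h lam k u hlam hlam1)
  intro n
  exact mul_nonneg ArithmeticFunction.vonMangoldt_nonneg (Jk_nonneg lam k n hlam.le)

end Pool.Agent.Lib.H18Q
end
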