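import Pool.Agent.Lib.H59M.M1.M004
import Pool.Agent.Lib.H59M.M1.M010
import Pool.Agent.Lib.H59M.M1.M011

/-! Merged copies (to shorten the build) of Lib.H68T.CG2, Lib.H68T.GAM1, Lib.H68T.GAM2, Lib.H68T.KER, Lib.H68T.PV, Lib.H68T.HBI, Lib.H68T.HDEC. -/

-- from Lib.H68T.CG2
section

/-!
# Chunk CG2: mean of the model `G` along a class, and the second moment of `dQ`
-/

open Finset

namespace Pool.Agent.Lib.H68T



theorem cg2_sum_inv (Q : ℕ) : ∑ e ∈ Icc 1 Q, 1 / (e : ℝ) ≤ 1 + Real.log Q := by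
  have h := harmonic_le_one_add_log Q
  rw [harmonic_eq_sum_Icc] at h
  push_cast at h
  simpa [one_div] using h

theorem cg2_sum_multiples (Q g : ℕ) (hg : 0 < g) :
    ∑ e ∈ Icc 1 Q, (if g ∣ e then 1 / (e : ℝ) else 0) ≤ 1 / (g : ℝ) * (1 + Real.log Q) := by
  rw [← sum_filter]
  have hsub : (Icc 1 Q).filter (fun e => g ∣ e) ⊆ (Icc 1 Q).image (fun k => g * k) := by
    intro e he
    rw [mem_filter, mem_Icc] at he
    obtain ⟨⟨h1, h2⟩, k, hk⟩ := he
    rw [mem_image]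
    refine ⟨k, ?_, hk.symm⟩
    rw [mem_Icc]
    subst hk
    refine ⟨Nat.pos_of_mul_pos_left h1 |> fun h => ?_, ?_⟩
    · rcases Nat.eq_zero_or_pos k with h0 | h0
      · subst h0
        omega
      · exact h0
    · exact (Nat.le_mul_of_pos_left k hg).trans h2
  have hinj : Set.InjOn (fun k : ℕ => g * k) (Icc 1 Q : Finset ℕ) := by
    intro x _ y _ hxy
    exact Nat.eq_of_mul_eq_mul_left hg hxy
  calc ∑ e ∈ (Icc 1 Q).filter (fun e => g ∣ e), 1 / (e : ℝ)
      ≤ ∑ e ∈ (Icc 1 Q).image (fun k => g * k), 1 / (e : ℝ) := by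
        apply sum_le_sum_of_subset_of_nonneg hsub
        intro i _ _
        positivity
    _ = ∑ k ∈ Icc 1 Q, 1 / ((g * k : ℕ) : ℝ) := sum_image hinj
    _ = 1 / (g : ℝ) * ∑ k ∈ Icc 1 Q, 1 / (k : ℝ) := by
        rw [mul_sum]
        apply sum_congr rfl
        intro k _
        push_cast
        rw [one_div_mul_one_div]
    _ ≤ _ := mul_le_mul_of_nonneg_left (cg2_sum_inv Q) (by positivity)

theorem cg2_gcd_sum (Q : ℕ) :
    ∑ e₁ ∈ Icc 1 Q, ∑ e₂ ∈ Icc 1 Q, ((Nat.gcd e₁ e₂ : ℝ) / ((e₁ : ℝ) * e₂)) ≤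
      (1 + Real.log Q) ^ 3 := by
  have hlog : 0 ≤ Real.log Q := by positivity
  have h1 : ∀ e₁ ∈ Icc 1 Q, ∀ e₂ ∈ Icc 1 Q, ((Nat.gcd e₁ e₂ : ℝ) / ((e₁ : ℝ) * e₂)) =
      ∑ g ∈ Icc 1 Q, (Nat.totient g : ℝ) * ((if g ∣ e₁ then 1 / (e₁ : ℝ) else 0) *
        (if g ∣ e₂ then 1 / (e₂ : ℝ) else 0)) := by
    intro e₁ he₁ e₂ he₂
    rw [mem_Icc] at he₁ he₂
    have h2 : ((Nat.gcd e₁ e₂ : ℕ) : ℝ) = ∑ g ∈ (Nat.gcd e₁ e₂).divisors, (Nat.totient g : ℝ) := by
      have := congrArg (fun n : ℕ => (n : ℝ)) (Nat.sum_totient (Nat.gcd e₁ e₂)).symm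
      push_cast at this
      exact_mod_cast this
    have h3 : (Nat.gcd e₁ e₂).divisors = (Icc 1 Q).filter (fun g => g ∣ e₁ ∧ g ∣ e₂) := by
      ext g
      simp only [Nat.mem_divisors, mem_filter, mem_Icc, Nat.dvd_gcd_iff]
      constructor
      · rintro ⟨⟨a, b⟩, -⟩
        exact ⟨⟨Nat.pos_of_dvd_of_pos a he₁.1, (Nat.le_of_dvd he₁.1 a).trans he₁.2⟩, a, b⟩
      · rintro ⟨-, a, b⟩
        exact ⟨⟨a, b⟩, (Nat.gcd_pos_of_pos_left _ he₁.1).ne'⟩
    rw [h2, h3, sum_filter, sum_div]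
    apply sum_congr rfl
    intro g _
    have hp₁ : (0 : ℝ) < e₁ := by exact_mod_cast he₁.1
    have hp₂ : (0 : ℝ) < e₂ := by exact_mod_cast he₂.1
    by_cases a : g ∣ e₁ <;> by_cases b : g ∣ e₂ <;> simp [a, b]
    field_simp
  have h4 : ∑ e₁ ∈ Icc 1 Q, ∑ e₂ ∈ Icc 1 Q, ((Nat.gcd e₁ e₂ : ℝ) / ((e₁ : ℝ) * e₂)) =
      ∑ g ∈ Icc 1 Q, (Nat.totient g : ℝ) *
        ((∑ e ∈ Icc 1 Q, if g ∣ e then 1 / (e : ℝ) else 0) *
        (∑ e ∈ Icc 1 Q, if g ∣ e then 1 / (e : ℝ) else 0)) := by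
    rw [sum_congr rfl (fun e₁ he₁ => sum_congr rfl (fun e₂ he₂ => h1 e₁ he₁ e₂ he₂))]
    rw [sum_congr rfl (fun e₁ _ => sum_comm), sum_comm]
    apply sum_congr rfl
    intro g _
    rw [sum_mul_sum, mul_sum]
    apply sum_congr rfl
    intro e₁ _
    rw [mul_sum]
  rw [h4]
  calc _ ≤ ∑ g ∈ Icc 1 Q, 1 / (g : ℝ) * (1 + Real.log Q) ^ 2 := by
        apply sum_le_sum
        intro g hg
        rw [mem_Icc] at hg
        have hg0 : (0 : ℝ) < g := by exact_mod_cast hg.1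
        have h5 := cg2_sum_multiples Q g hg.1
        have h6 : 0 ≤ ∑ e ∈ Icc 1 Q, (if g ∣ e then 1 / (e : ℝ) else 0) := by
          apply sum_nonneg
          intro e _
          positivity
        have h7 : (Nat.totient g : ℝ) ≤ g := by exact_mod_cast Nat.totient_le g
        calc _ ≤ (g : ℝ) * ((1 / (g : ℝ) * (1 + Real.log Q)) * (1 / (g : ℝ) * (1 + Real.log Q))) := by
              gcongr
          _ = _ := by field_simp
    _ = (∑ g ∈ Icc 1 Q, 1 / (g : ℝ)) * (1 + Real.log Q) ^ 2 := by rw [sum_mul]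
    _ ≤ (1 + Real.log Q) * (1 + Real.log Q) ^ 2 := by
        apply mul_le_mul_of_nonneg_right (cg2_sum_inv Q) (by positivity)
    _ = _ := by ring

/-- Second moment of `dQ` along a class: only divisors coprime to `W` occur, and for
`D = lcm(e₁, e₂)` coprime to `W` at most `M/D + 1` of the `c < M` have `D ∣ b + W (s + c)`;
`∑_{e₁, e₂ ≤ Q} 1/lcm(e₁,e₂) = ∑ gcd/(e₁ e₂) ≤ ∑_{g ≤ Q} φ(g)/g² (1 + log Q)² ≤ (1 + log Q)³`. -/
theorem dQ_moment (Q M W b s : ℕ) (hW : 0 < W) (hb : Nat.Coprime b W) :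
    ∑ c ∈ range M, (dQ Q ((b : ℤ) + W * (s + c : ℕ))) ^ 2 ≤
      M * (1 + Real.log Q) ^ 3 + (Q : ℝ) ^ 2 := by
  have hlog : 0 ≤ Real.log Q := by positivity
  have h1 : ∀ c ∈ range M, (dQ Q ((b : ℤ) + W * (s + c : ℕ))) ^ 2 =
      ∑ e₁ ∈ Icc 1 Q, ∑ e₂ ∈ Icc 1 Q, if (e₁ : ℤ) ∣ (b : ℤ) + W * (s + c : ℕ) ∧
        (e₂ : ℤ) ∣ (b : ℤ) + W * (s + c : ℕ) then (1 : ℝ) else 0 := by
    intro c _
    unfold dQ
    rw [card_filter, sq]
    push_cast
    rw [sum_mul_sum]
    apply sum_congr rfl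
    intro e₁ _
    apply sum_congr rfl
    intro e₂ _
    rw [ite_and]
    split_ifs <;> simp
  rw [sum_congr rfl h1, sum_comm]
  have h2 : ∀ e₁ ∈ Icc 1 Q, ∑ c ∈ range M, ∑ e₂ ∈ Icc 1 Q,
      (if (e₁ : ℤ) ∣ (b : ℤ) + W * (s + c : ℕ) ∧
        (e₂ : ℤ) ∣ (b : ℤ) + W * (s + c : ℕ) then (1 : ℝ) else 0) ≤
      ∑ e₂ ∈ Icc 1 Q, ((M : ℝ) * ((Nat.gcd e₁ e₂ : ℝ) / ((e₁ : ℝ) * e₂)) + 1) := by
    intro e₁ he₁
    rw [sum_comm]
    apply sum_le_sum
    intro e₂ he₂
    rw [mem_Icc] at he₁ he₂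
    have hp₁ : (0 : ℝ) < e₁ := by exact_mod_cast he₁.1
    have hp₂ : (0 : ℝ) < e₂ := by exact_mod_cast he₂.1
    have hnn : 0 ≤ (M : ℝ) * ((Nat.gcd e₁ e₂ : ℝ) / ((e₁ : ℝ) * e₂)) + 1 := by positivity
    have hcast : ∑ c ∈ range M, (if (e₁ : ℤ) ∣ (b : ℤ) + W * (s + c : ℕ) ∧
        (e₂ : ℤ) ∣ (b : ℤ) + W * (s + c : ℕ) then (1 : ℝ) else 0) =
        ((((range M).filter (fun c : ℕ => (e₁ : ℤ) ∣ (b : ℤ) + W * (s + c : ℕ) ∧
        (e₂ : ℤ) ∣ (b : ℤ) + W * (s + c : ℕ))).card : ℕ) : ℝ) := by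
      rw [card_filter]
      push_cast
      rfl
    rw [hcast]
    by_cases hcop : Nat.Coprime e₁ W ∧ Nat.Coprime e₂ W
    · have h3 := cg1_count e₁ e₂ W b s s M he₁.1 he₂.1 hcop.1 hcop.2
      rw [if_pos (by simp)] at h3
      have h4 := (abs_le.mp h3).2
      have h5 : (M : ℝ) * ((Nat.gcd e₁ e₂ : ℝ) / ((e₁ : ℝ) * e₂)) =
          (M : ℝ) * (Nat.gcd e₁ e₂ : ℝ) / ((e₁ : ℝ) * e₂) := by ring
      rw [h5]
      linarith
    · have hempty : (range M).filter (fun c : ℕ => (e₁ : ℤ) ∣ (b : ℤ) + W * (s + c : ℕ) ∧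
          (e₂ : ℤ) ∣ (b : ℤ) + W * (s + c : ℕ)) = ∅ := by
        rw [filter_eq_empty_iff]
        intro c _ hc
        apply hcop
        have hcc := cg1_class_coprime hb (s + c)
        exact ⟨Nat.isCoprime_iff_coprime.mp (hcc.of_isCoprime_of_dvd_left hc.1),
          Nat.isCoprime_iff_coprime.mp (hcc.of_isCoprime_of_dvd_left hc.2)⟩
      rw [hempty]
      simpa using hnn
  refine le_trans (b := ∑ e₁ ∈ Icc 1 Q, ∑ e₂ ∈ Icc 1 Q,
    ((M : ℝ) * ((Nat.gcd e₁ e₂ : ℝ) / ((e₁ : ℝ) * e₂)) + 1)) ?_ ?_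
  · exact sum_le_sum h2
  simp_rw [sum_add_distrib, ← mul_sum]
  have h6 : ∑ _e₁ ∈ Icc 1 Q, ∑ _e₂ ∈ Icc 1 Q, (1 : ℝ) = (Q : ℝ) ^ 2 := by
    simp [sq]
  rw [h6]
  have h7 : ∑ e₁ ∈ Icc 1 Q, ∑ e₂ ∈ Icc 1 Q, ((Nat.gcd e₁ e₂ : ℝ) / ((e₁ : ℝ) * e₂)) ≤
      (1 + Real.log Q) ^ 3 := cg2_gcd_sum Q
  have h8 : (M : ℝ) * ∑ e₁ ∈ Icc 1 Q, ∑ e₂ ∈ Icc 1 Q, ((Nat.gcd e₁ e₂ : ℝ) / ((e₁ : ℝ) * e₂)) ≤
      M * (1 + Real.log Q) ^ 3 := mul_le_mul_of_nonneg_left h7 (by positivity)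
  linarith

theorem one_le_dQ (Q : ℕ) (hQ : 1 ≤ Q) (m : ℤ) : 1 ≤ dQ Q m := by
  unfold dQ
  have h : 1 ≤ ((Icc 1 Q).filter (fun d : ℕ => (d : ℤ) ∣ m)).card := by
    rw [Nat.one_le_iff_ne_zero, card_ne_zero]
    exact ⟨1, by simp [hQ]⟩
  exact_mod_cast h

end Pool.Agent.Lib.H68T
end

-- from Lib.H68T.GAM1
section

/-!
# Chunk GAM1; part of GAM: the coefficients `Γ_r(m)`
-/

open Finset

namespace Pool.Agent.Lib.H68T

/-- `n/φ(n) = ∏_{p ∣ n} p/(p-1)` -/
theorem GAM_ratio (n : ℕ) (hn : n ≠ 0) :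
    (n : ℝ) / Nat.totient n = ∏ p ∈ n.primeFactors, ((p : ℝ) / (p - 1)) := by
  have h := Nat.totient_eq_mul_prod_factors n
  have h' : (Nat.totient n : ℝ) = n * ∏ p ∈ n.primeFactors, (1 - (p : ℝ)⁻¹) := by
    have := congrArg (fun x : ℚ => (x : ℝ)) h
    simpa using this
  have hn' : (n : ℝ) ≠ 0 := by exact_mod_cast hn
  rw [h', ← div_div, div_self hn', one_div, ← Finset.prod_inv_distrib]
  refine Finset.prod_congr rfl (fun p hp => ?_)
  have hp1 := (Nat.prime_of_mem_primeFactors hp).one_lt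
  have hp2 : (1 : ℝ) < p := by exact_mod_cast hp1
  have h1 : (p : ℝ) ≠ 0 := by linarith
  have h2 : (p : ℝ) - 1 ≠ 0 := by linarith
  have h3 : 1 - (p : ℝ)⁻¹ = (p - 1) / p := by field_simp
  rw [h3, inv_div]

theorem GAM_ratio_mul (r d : ℕ) (hr : r ≠ 0) (hd : d ≠ 0) :
    ((r * d : ℕ) : ℝ) / Nat.totient (r * d) = (r : ℝ) / Nat.totient r *
      ∏ p ∈ d.primeFactors.filter (fun p => ¬ p ∣ r), ((p : ℝ) / (p - 1)) := by
  rw [GAM_ratio _ (mul_ne_zero hr hd), GAM_ratio r hr, Nat.primeFactors_mul hr hd]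
  have h : r.primeFactors ∪ d.primeFactors =
      r.primeFactors ∪ d.primeFactors.filter (fun p => ¬ p ∣ r) := by
    ext p
    simp only [mem_union, mem_filter, Nat.mem_primeFactors]
    tauto
  rw [h, Finset.prod_union]
  rw [Finset.disjoint_left]
  intro p hp hp'
  rw [mem_filter] at hp'
  exact hp'.2 (Nat.dvd_of_mem_primeFactors hp)

/-- The normalised ratio `(r d/φ(r d))/(r/φ(r))` for `d` coprime to `m`. -/
noncomputable def GAM_g (r : ℕ) (m : ℤ) : ArithmeticFunction ℝ :=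
  ⟨fun d => if d = 0 then 0 else if IsCoprime (d : ℤ) m then
    ∏ p ∈ d.primeFactors.filter (fun p => ¬ p ∣ r), ((p : ℝ) / (p - 1)) else 0, by simp⟩

theorem GAM_g_apply (r : ℕ) (m : ℤ) (d : ℕ) (hd : d ≠ 0) : GAM_g r m d =
    if IsCoprime (d : ℤ) m then
      ∏ p ∈ d.primeFactors.filter (fun p => ¬ p ∣ r), ((p : ℝ) / (p - 1)) else 0 := by
  change (if d = 0 then 0 else _) = _
  rw [if_neg hd]

theorem GAM_g_mult (r : ℕ) (m : ℤ) : (GAM_g r m).IsMultiplicative := by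
  rw [ArithmeticFunction.IsMultiplicative.iff_ne_zero]
  refine ⟨?_, ?_⟩
  · rw [GAM_g_apply _ _ _ one_ne_zero]
    simp [isCoprime_one_left]
  · intro a b ha hb hab
    rw [GAM_g_apply _ _ _ (mul_ne_zero ha hb), GAM_g_apply _ _ _ ha, GAM_g_apply _ _ _ hb]
    have hc : IsCoprime ((a * b : ℕ) : ℤ) m ↔ IsCoprime (a : ℤ) m ∧ IsCoprime (b : ℤ) m := by
      rw [Nat.cast_mul, IsCoprime.mul_left_iff]
    by_cases h1 : IsCoprime (a : ℤ) m
    · by_cases h2 : IsCoprime (b : ℤ) m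
      · rw [if_pos (hc.mpr ⟨h1, h2⟩), if_pos h1, if_pos h2, hab.primeFactors_mul, Finset.filter_union,
          Finset.prod_union]
        exact Finset.disjoint_filter_filter hab.disjoint_primeFactors
      · rw [if_neg (fun h => h2 (hc.mp h).2), if_neg h2, mul_zero]
    · rw [if_neg (fun h => h1 (hc.mp h).1), if_neg h1, zero_mul]

theorem GAM_g_prime_pow (r : ℕ) (m : ℤ) (p k : ℕ) (hp : p.Prime) :
    GAM_g r m (p ^ (k + 1)) = if (p : ℤ) ∣ m then 0 else if p ∣ r then 1 else (p : ℝ) / (p - 1) := by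
  rw [GAM_g_apply _ _ _ (pow_ne_zero _ hp.ne_zero)]
  have h1 : IsCoprime ((p ^ (k + 1) : ℕ) : ℤ) m ↔ ¬ (p : ℤ) ∣ m := by
    rw [Nat.cast_pow, IsCoprime.pow_left_iff (Nat.succ_pos k)]
    exact (Nat.prime_iff_prime_int.mp hp).coprime_iff_not_dvd
  by_cases h : (p : ℤ) ∣ m
  · rw [if_neg (by rw [h1]; exact fun h' => h' h), if_pos h]
  · rw [if_pos (h1.mpr h), if_neg h, Nat.primeFactors_prime_pow (Nat.succ_ne_zero k) hp]
    by_cases h2 : p ∣ r
    · rw [if_pos h2, Finset.filter_singleton, if_neg (fun h => h h2), Finset.prod_empty]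
    · rw [if_neg h2, Finset.filter_singleton, if_pos h2, Finset.prod_singleton]

/-- The convolution of `GAM_g` with the Möbius function. -/
noncomputable def GAM_F (r : ℕ) (m : ℤ) : ArithmeticFunction ℝ :=
  (ArithmeticFunction.moebius : ArithmeticFunction ℝ) * GAM_g r m

theorem GAM_F_mult (r : ℕ) (m : ℤ) : (GAM_F r m).IsMultiplicative :=
  ArithmeticFunction.isMultiplicative_moebius.intCast.mul (GAM_g_mult r m)

theorem GAM_F_apply (r : ℕ) (m : ℤ) (q : ℕ) : GAM_F r m q =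
    ∑ d ∈ q.divisors, (ArithmeticFunction.moebius (q / d) : ℝ) * GAM_g r m d := by
  unfold GAM_F
  rw [ArithmeticFunction.mul_apply]
  exact Nat.sum_divisorsAntidiagonal'
    (fun a b => ((ArithmeticFunction.moebius a : ℤ) : ℝ) * GAM_g r m b)

theorem GAM_mu_conv (f : ℕ → ℝ) (p k : ℕ) (hp : p.Prime) :
    ∑ d ∈ (p ^ (k + 1)).divisors, (ArithmeticFunction.moebius (p ^ (k + 1) / d) : ℝ) * f d =
      f (p ^ (k + 1)) - f (p ^ k) := by
  rw [Nat.sum_divisors_prime_pow hp, Finset.sum_range_succ, Finset.sum_range_succ,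
    Finset.sum_eq_zero]
  · rw [Nat.div_self (pow_pos hp.pos _), pow_succ p k, Nat.mul_div_cancel_left _ (pow_pos hp.pos _)]
    rw [ArithmeticFunction.moebius_apply_one, ArithmeticFunction.moebius_apply_prime hp]
    push_cast
    ring
  · intro j hj
    rw [mem_range] at hj
    rw [Nat.pow_div (by omega) hp.pos, ArithmeticFunction.moebius_apply_prime_pow hp (by omega),
      if_neg (by omega)]
    simp

theorem GAM_F_prime (r : ℕ) (m : ℤ) (p : ℕ) (hp : p.Prime) : GAM_F r m p =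
    if (p : ℤ) ∣ m then -1 else if p ∣ r then 0 else 1 / ((p : ℝ) - 1) := by
  have h := GAM_F_apply r m (p ^ (0 + 1))
  rw [GAM_mu_conv _ _ _ hp, GAM_g_prime_pow _ _ _ _ hp, pow_zero, (GAM_g_mult r m).1, zero_add,
    pow_one] at h
  rw [h]
  have hp2 : (1 : ℝ) < p := by exact_mod_cast hp.one_lt
  have h2 : (p : ℝ) - 1 ≠ 0 := by linarith
  split_ifs
  · ring
  · ring
  · field_simp
    ring

theorem GAM_F_prime_pow (r : ℕ) (m : ℤ) (p k : ℕ) (hp : p.Prime) :
    GAM_F r m (p ^ (k + 2)) = 0 := by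
  rw [GAM_F_apply r m (p ^ (k + 1 + 1)), GAM_mu_conv _ _ _ hp, GAM_g_prime_pow _ _ _ _ hp,
    GAM_g_prime_pow _ _ _ _ hp, sub_self]

/-- For `r` coprime to `m` the inner sum of `Γ_r`. -/
theorem GAM_inner (r : ℕ) (m : ℤ) (hr : r ≠ 0) (hrm : IsCoprime (r : ℤ) m) (q : ℕ) (hq : q ≠ 0) :
    ∑ d ∈ (r * q).divisors.filter (fun d => r ∣ d ∧ IsCoprime (d : ℤ) m),
      (ArithmeticFunction.moebius (r * q / d) : ℝ) * ((d : ℝ) / (Nat.totient d : ℝ)) =
    (r : ℝ) / Nat.totient r * GAM_F r m q := by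
  rw [GAM_F_apply, Finset.mul_sum]
  have himg : (r * q).divisors.filter (fun d => r ∣ d ∧ IsCoprime (d : ℤ) m) =
      (q.divisors.filter (fun d : ℕ => IsCoprime (d : ℤ) m)).image (fun d => r * d) := by
    ext d
    simp only [mem_filter, Nat.mem_divisors, mem_image]
    constructor
    · rintro ⟨⟨h1, h2⟩, ⟨e, rfl⟩, h4⟩
      refine ⟨e, ⟨⟨(Nat.mul_dvd_mul_iff_left (Nat.pos_of_ne_zero hr)).mp h1, hq⟩, ?_⟩, rfl⟩
      rw [Nat.cast_mul, IsCoprime.mul_left_iff] at h4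
      exact h4.2
    · rintro ⟨e, ⟨⟨h1, h2⟩, h3⟩, rfl⟩
      refine ⟨⟨Nat.mul_dvd_mul_left r h1, mul_ne_zero hr hq⟩, Dvd.intro _ rfl, ?_⟩
      rw [Nat.cast_mul, IsCoprime.mul_left_iff]
      exact ⟨hrm, h3⟩
  rw [himg, Finset.sum_image (fun a _ b _ h => Nat.eq_of_mul_eq_mul_left (Nat.pos_of_ne_zero hr) h),
    Finset.sum_filter]
  refine Finset.sum_congr rfl (fun d hd => ?_)
  have hd0 : d ≠ 0 := (Nat.pos_of_mem_divisors hd).ne'
  rw [GAM_g_apply _ _ _ hd0, Nat.mul_div_mul_left _ _ (Nat.pos_of_ne_zero hr)]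
  split_ifs
  · rw [GAM_ratio_mul r d hr hd0]
    ring
  · simp

/-- `h(d) = d` if `d ∣ m` -/
noncomputable def GAM_h (m : ℤ) : ArithmeticFunction ℝ :=
  ⟨fun d => if (d : ℤ) ∣ m then (d : ℝ) else 0, by simp⟩

theorem GAM_h_apply (m : ℤ) (d : ℕ) : GAM_h m d = if (d : ℤ) ∣ m then (d : ℝ) else 0 := rfl

theorem GAM_h_mult (m : ℤ) : (GAM_h m).IsMultiplicative := by
  refine ⟨by simp [GAM_h_apply], ?_⟩
  intro a b hab
  rw [GAM_h_apply, GAM_h_apply, GAM_h_apply]
  have h : ((a * b : ℕ) : ℤ) ∣ m ↔ (a : ℤ) ∣ m ∧ (b : ℤ) ∣ m := by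
    rw [Nat.cast_mul]
    constructor
    · intro h
      exact ⟨(Dvd.intro _ rfl).trans h, (Dvd.intro_left _ rfl).trans h⟩
    · rintro ⟨h1, h2⟩
      exact IsCoprime.mul_dvd (Nat.isCoprime_iff_coprime.mpr hab) h1 h2
  by_cases h1 : (a : ℤ) ∣ m
  · by_cases h2 : (b : ℤ) ∣ m
    · rw [if_pos (h.mpr ⟨h1, h2⟩), if_pos h1, if_pos h2]
      push_cast
      ring
    · rw [if_neg (fun h' => h2 (h.mp h').2), if_neg h2, mul_zero]
  · rw [if_neg (fun h' => h1 (h.mp h').1), if_neg h1, zero_mul]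

/-- `c_q(m)` as an arithmetic function of `q` -/
noncomputable def GAM_c (m : ℤ) : ArithmeticFunction ℝ :=
  (ArithmeticFunction.moebius : ArithmeticFunction ℝ) * GAM_h m

theorem GAM_c_apply (m : ℤ) (q : ℕ) : GAM_c m q = cq q m := by
  unfold GAM_c cq
  rw [ArithmeticFunction.mul_apply, Finset.sum_filter]
  rw [Nat.sum_divisorsAntidiagonal'
    (fun a b => ((ArithmeticFunction.moebius : ArithmeticFunction ℝ) a) * GAM_h m b)]
  refine Finset.sum_congr rfl (fun d hd => ?_)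
  rw [GAM_h_apply]
  split_ifs
  · rw [mul_comm]
    rfl
  · simp

theorem GAM_c_mult (m : ℤ) : (GAM_c m).IsMultiplicative :=
  ArithmeticFunction.isMultiplicative_moebius.intCast.mul (GAM_h_mult m)

/-- The totient as a real arithmetic function. -/
noncomputable def GAM_phi : ArithmeticFunction ℝ := ⟨fun n => (Nat.totient n : ℝ), by simp⟩

theorem GAM_phi_mult : GAM_phi.IsMultiplicative := by
  refine ⟨by simp [GAM_phi], ?_⟩
  intro a b hab
  change ((Nat.totient (a * b) : ℕ) : ℝ) = (Nat.totient a : ℝ) * (Nat.totient b : ℝ)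
  rw [Nat.totient_mul hab]
  push_cast
  ring

theorem GAM_identity (m : ℤ) : GAM_F 1 m =
    (((ArithmeticFunction.moebius : ArithmeticFunction ℤ) : ArithmeticFunction ℝ).pmul
      (GAM_c m)).pdiv GAM_phi := by
  rw [ArithmeticFunction.IsMultiplicative.eq_iff_eq_on_prime_powers _ (GAM_F_mult 1 m) _
    ((ArithmeticFunction.isMultiplicative_moebius.intCast.pmul (GAM_c_mult m)).pdiv GAM_phi_mult)]
  intro p i hp
  rcases i with _ | _ | k
  · rw [pow_zero, (GAM_F_mult 1 m).1]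
    exact ((ArithmeticFunction.isMultiplicative_moebius.intCast.pmul (GAM_c_mult m)).pdiv
      GAM_phi_mult).1.symm
  · rw [zero_add, pow_one, GAM_F_prime _ _ _ hp, ArithmeticFunction.pdiv_apply,
      ArithmeticFunction.pmul_apply, GAM_c_apply]
    have hc : cq p m = -1 + if (p : ℤ) ∣ m then (p : ℝ) else 0 := by
      unfold cq
      rw [Finset.sum_filter, hp.divisors, Finset.sum_pair hp.one_lt.ne, Nat.div_one,
        Nat.div_self hp.pos, ArithmeticFunction.moebius_apply_one,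
        ArithmeticFunction.moebius_apply_prime hp]
      simp
    have hphi : GAM_phi p = (p : ℝ) - 1 := by
      change ((Nat.totient p : ℕ) : ℝ) = _
      rw [Nat.totient_prime hp, Nat.cast_sub hp.one_lt.le, Nat.cast_one]
    have hmu : ((ArithmeticFunction.moebius : ArithmeticFunction ℤ) : ArithmeticFunction ℝ) p = -1 := by
      rw [ArithmeticFunction.intCoe_apply, ArithmeticFunction.moebius_apply_prime hp]
      simp
    rw [hc, hphi, hmu]
    have hp2 : (1 : ℝ) < p := by exact_mod_cast hp.one_lt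
    have h2 : (p : ℝ) - 1 ≠ 0 := by linarith
    have h3 : ¬ p ∣ 1 := fun h => hp.one_lt.ne' (Nat.dvd_one.mp h)
    split_ifs
    · field_simp
      ring
    · field_simp
      ring
  · rw [GAM_F_prime_pow _ _ _ _ hp, ArithmeticFunction.pdiv_apply,
      ArithmeticFunction.pmul_apply, ArithmeticFunction.intCoe_apply,
      ArithmeticFunction.moebius_apply_prime_pow hp (by omega), if_neg (by omega)]
    simp

/-- `Γ_1 = G`: for every `q`, `∑_{d ∣ q, (d,m)=1} μ(q/d) d/φ(d) = μ(q) c_q(m)/φ(q)`. Both sides are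
multiplicative in `q` (Dirichlet convolution of `μ` with `d ↦ [(d,m)=1] d/φ(d)`); at `q = p` both
are `1/(p-1)` if `p ∤ m` and `-1` if `p ∣ m`; at `q = p^j`, `j ≥ 2`, both are `0`
(`ArithmeticFunction.IsMultiplicative.eq_iff_eq_on_prime_powers`, or direct for squarefree `q`). -/
theorem Gam_one (Q : ℕ) (m : ℤ) : Gam Q 1 m = G Q m := by
  unfold Gam G
  have h1 : (Icc 1 Q).filter (fun q => 1 ∣ q) = Icc 1 Q :=
    Finset.filter_true_of_mem (fun q _ => one_dvd q)
  rw [h1]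
  refine Finset.sum_congr rfl (fun q hq => ?_)
  rw [mem_Icc] at hq
  have h := GAM_inner 1 m one_ne_zero (by simpa using isCoprime_one_left) q (by omega)
  rw [one_mul] at h
  rw [h, GAM_identity, ArithmeticFunction.pdiv_apply, ArithmeticFunction.pmul_apply, GAM_c_apply,
    ArithmeticFunction.intCoe_apply]
  simp only [Nat.cast_one, Nat.totient_one, div_one, one_mul]
  change _ / ((Nat.totient q : ℕ) : ℝ) = _
  ring

end Pool.Agent.Lib.H68T
end

-- from Lib.H68T.GAM2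
section

/-!
# Chunk GAM2; part of GAM: the coefficients `Γ_r(m)`
-/

open Finset

namespace Pool.Agent.Lib.H68T

/-- `∏_{s ∈ S} s/(s-1) ≤ |S| + 1` for a finite set of integers `≥ 2`. -/
theorem GAM_prod_le (S : Finset ℕ) (hS : ∀ s ∈ S, 2 ≤ s) :
    ∏ s ∈ S, ((s : ℝ) / (s - 1)) ≤ (S.card : ℝ) + 1 := by
  induction S using Finset.induction_on_max with
  | empty => simp
  | insert a s hlt ih =>
    have ha : a ∉ s := fun h => lt_irrefl _ (hlt a h)
    have ih' := ih (fun x hx => hS x (mem_insert_of_mem hx))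
    rw [Finset.prod_insert ha, Finset.card_insert_of_notMem ha]
    have hcard : s.card + 2 ≤ a := by
      have h1 : s ⊆ Ico 2 a := by
        intro x hx
        rw [mem_Ico]
        exact ⟨hS x (mem_insert_of_mem hx), hlt x hx⟩
      have h2 := Finset.card_le_card h1
      rw [Nat.card_Ico] at h2
      have h3 := hS a (mem_insert_self a s)
      omega
    have hc : (s.card : ℝ) + 2 ≤ a := by exact_mod_cast hcard
    have hs0 : (0 : ℝ) ≤ s.card := Nat.cast_nonneg _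
    have ha1 : (0 : ℝ) < (a : ℝ) - 1 := by linarith
    have h4 : (a : ℝ) / (a - 1) ≤ ((s.card : ℝ) + 2) / (s.card + 1) := by
      rw [div_le_div_iff₀ ha1 (by linarith)]
      nlinarith
    calc (a : ℝ) / (a - 1) * ∏ x ∈ s, ((x : ℝ) / (x - 1))
        ≤ ((s.card : ℝ) + 2) / (s.card + 1) * ((s.card : ℝ) + 1) := by
          refine mul_le_mul h4 ih' (Finset.prod_nonneg (fun x hx => ?_)) (by positivity)
          have hx2 : (2 : ℝ) ≤ x := by exact_mod_cast hS x (mem_insert_of_mem hx)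
          exact div_nonneg (by linarith) (by linarith)
      _ = (s.card : ℝ) + 2 := by
          rw [div_mul_cancel₀]
          linarith
      _ = _ := by push_cast; ring

/-- `r/φ(r) ≤ 1 + log r/log 2` -/
theorem GAM_ratio_le (r : ℕ) (hr : r ≠ 0) :
    (r : ℝ) / Nat.totient r ≤ 10 * (1 + Real.log r) := by
  rw [GAM_ratio r hr]
  have h1 := GAM_prod_le r.primeFactors (fun p hp => (Nat.prime_of_mem_primeFactors hp).two_le)
  have h2 : 2 ^ r.primeFactors.card ≤ r := by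
    calc 2 ^ r.primeFactors.card ≤ ∏ p ∈ r.primeFactors, p :=
          Finset.pow_card_le_prod _ _ _ (fun p hp => (Nat.prime_of_mem_primeFactors hp).two_le)
      _ ≤ r := Nat.le_of_dvd (Nat.pos_of_ne_zero hr) (Nat.prod_primeFactors_dvd r)
  have h3 : (r.primeFactors.card : ℝ) * Real.log 2 ≤ Real.log r := by
    rw [← Real.log_pow]
    refine Real.log_le_log (by positivity) ?_
    exact_mod_cast h2
  have h4 := Real.log_two_gt_d9
  have h5 : (0 : ℝ) ≤ r.primeFactors.card := Nat.cast_nonneg _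
  nlinarith

/-- absolute value of `F` at squarefree arguments -/
theorem GAM_F_abs (r : ℕ) (m : ℤ) (q : ℕ) (hq : q ≠ 0) :
    |GAM_F r m q| ≤ if Squarefree q then
      1 / (Nat.totient (q / Nat.gcd q m.natAbs) : ℝ) else 0 := by
  by_cases hsq : Squarefree q
  · rw [if_pos hsq, ← (GAM_F_mult r m).prod_primeFactors hsq, Finset.abs_prod]
    set g := Nat.gcd q m.natAbs with hg
    have hgq : g ∣ q := Nat.gcd_dvd_left _ _
    have hqg : q = g * (q / g) := (Nat.mul_div_cancel' hgq).symm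
    have hsq' : Squarefree (q / g) := hsq.squarefree_of_dvd (Nat.div_dvd_of_dvd hgq)
    have hpf : (q / g).primeFactors = q.primeFactors.filter (fun p : ℕ => ¬ (p : ℤ) ∣ m) := by
      ext p
      rw [mem_filter, Nat.mem_primeFactors, Nat.mem_primeFactors]
      constructor
      · rintro ⟨hp, hpq, -⟩
        refine ⟨⟨hp, hpq.trans (Nat.div_dvd_of_dvd hgq), hq⟩, ?_⟩
        intro hpm
        have h1 : p ∣ g := by
          rw [hg]
          exact Nat.dvd_gcd (hpq.trans (Nat.div_dvd_of_dvd hgq)) (Int.natCast_dvd.mp hpm)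
        have h2 : p * p ∣ q := by
          rw [hqg]
          exact Nat.mul_dvd_mul h1 hpq
        exact hp.one_lt.ne' (Nat.isUnit_iff.mp (hsq p h2))
      · rintro ⟨⟨hp, hpq, -⟩, hpm⟩
        refine ⟨hp, ?_, hsq'.ne_zero⟩
        rw [hqg] at hpq
        rcases hp.dvd_mul.mp hpq with h | h
        · exfalso
          exact hpm (Int.natCast_dvd.mpr (h.trans (Nat.gcd_dvd_right _ _)))
        · exact h
    have hphi : (Nat.totient (q / g) : ℝ) = ∏ p ∈ (q / g).primeFactors, ((p : ℝ) - 1) := by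
      have := GAM_phi_mult.prod_primeFactors hsq'
      change _ = ((Nat.totient (q / g) : ℕ) : ℝ) at this
      rw [← this]
      refine Finset.prod_congr rfl (fun p hp => ?_)
      change ((Nat.totient p : ℕ) : ℝ) = _
      have hp' := Nat.prime_of_mem_primeFactors hp
      rw [Nat.totient_prime hp', Nat.cast_sub hp'.one_lt.le, Nat.cast_one]
    rw [hphi, hpf, one_div, ← Finset.prod_inv_distrib, Finset.prod_filter]
    refine Finset.prod_le_prod (fun p _ => abs_nonneg _) (fun p hp => ?_)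
    have hp' := Nat.prime_of_mem_primeFactors hp
    have hp2 : (2 : ℝ) ≤ p := by exact_mod_cast hp'.two_le
    rw [GAM_F_prime r m p hp']
    by_cases h : (p : ℤ) ∣ m
    · simp [h]
    · rw [if_neg h, if_pos h]
      split_ifs
      · rw [abs_zero]
        exact inv_nonneg.mpr (by linarith)
      · rw [one_div, abs_of_nonneg (inv_nonneg.mpr (by linarith))]
  · rw [if_neg hsq, abs_nonpos_iff, (GAM_F_mult r m).multiplicative_factorization _ hq]
    have hex : ∃ p ∈ q.primeFactors, 2 ≤ q.factorization p := by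
      by_contra hcon
      push Not at hcon
      refine hsq ((Nat.squarefree_iff_factorization_le_one hq).mpr (fun p => ?_))
      by_cases hp : p ∈ q.primeFactors
      · have := hcon p hp
        omega
      · rw [← Nat.support_factorization, Finsupp.notMem_support_iff] at hp
        omega
    obtain ⟨p, hp, h2⟩ := hex
    refine Finset.prod_eq_zero (i := p) (by rwa [Nat.support_factorization]) ?_
    obtain ⟨k, hk⟩ := Nat.exists_eq_add_of_le h2
    change GAM_F r m (p ^ q.factorization p) = 0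
    rw [hk, add_comm 2 k]
    exact GAM_F_prime_pow r m p k (Nat.prime_of_mem_primeFactors hp)

theorem GAM_sum_F (r : ℕ) (m : ℤ) (Q N : ℕ) (hN : N ≤ Q) :
    ∑ q ∈ Icc 1 N, |GAM_F r m q| ≤ dQ Q m * ∑ q ∈ Icc 1 Q, (1 : ℝ) / Nat.totient q := by
  have h1 : ∑ q ∈ Icc 1 N, |GAM_F r m q| ≤
      ∑ q ∈ (Icc 1 N).filter Squarefree, 1 / (Nat.totient (q / Nat.gcd q m.natAbs) : ℝ) := by
    rw [Finset.sum_filter]
    refine Finset.sum_le_sum (fun q hq => ?_)
    rw [mem_Icc] at hq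
    exact GAM_F_abs r m q (by omega)
  refine h1.trans ?_
  have h2 : ∑ q ∈ (Icc 1 N).filter Squarefree, 1 / (Nat.totient (q / Nat.gcd q m.natAbs) : ℝ) =
      ∑ x ∈ ((Icc 1 N).filter Squarefree).image (fun q => (Nat.gcd q m.natAbs, q / Nat.gcd q m.natAbs)),
        1 / (Nat.totient x.2 : ℝ) := by
    rw [Finset.sum_image]
    intro a ha b hb hab
    simp only [Prod.mk.injEq] at hab
    have ha' := Nat.mul_div_cancel' (Nat.gcd_dvd_left a m.natAbs)
    have hb' := Nat.mul_div_cancel' (Nat.gcd_dvd_left b m.natAbs)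
    rw [hab.2, hab.1] at ha'
    exact ha'.symm.trans hb'
  rw [h2]
  have h3 : dQ Q m * ∑ q ∈ Icc 1 Q, (1 : ℝ) / Nat.totient q =
      ∑ x ∈ ((Icc 1 Q).filter (fun d : ℕ => (d : ℤ) ∣ m)) ×ˢ (Icc 1 Q),
        1 / (Nat.totient x.2 : ℝ) := by
    rw [Finset.sum_product]
    unfold dQ
    simp only
    rw [Finset.sum_const, nsmul_eq_mul]
  rw [h3]
  refine Finset.sum_le_sum_of_subset_of_nonneg ?_ (fun _ _ _ => by positivity)
  intro x hx
  rw [mem_image] at hx
  obtain ⟨q, hq, rfl⟩ := hx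
  rw [mem_filter, mem_Icc] at hq
  have hg1 : 0 < Nat.gcd q m.natAbs := Nat.gcd_pos_of_pos_left _ (by omega)
  have hg2 : Nat.gcd q m.natAbs ≤ q := Nat.gcd_le_left _ (by omega)
  have hg3 : 0 < q / Nat.gcd q m.natAbs := Nat.div_pos hg2 hg1
  rw [mem_product, mem_filter, mem_Icc, mem_Icc]
  refine ⟨⟨⟨hg1, by simp only; omega⟩, ?_⟩, hg3, ?_⟩
  · exact Int.natCast_dvd.mpr (Nat.gcd_dvd_right _ _)
  · exact (Nat.div_le_self _ _).trans (by omega)

/-- `|Γ_r(m)| ≤ 100 (1 + log Q)^3 dQ(m)`. If `(r, m) ≠ 1` it is `0`. Otherwise write `q = r q'`,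
`d = r d'`; `d' ↦ [(d',m)=1] (r d'/φ(r d')) / (r/φ(r))` is multiplicative, equal at `p^j` (`j ≥ 1`)
to `1` if `p ∣ r`, `p/(p-1)` if `p ∤ r m`, `0` if `p ∣ m`; so its Dirichlet convolution with `μ` is
`0` at `q'` not squarefree or not coprime to `r`, and at squarefree `q'` coprime to `r` it is
`∏_{p ∣ q', p ∤ m} 1/(p-1) ∏_{p ∣ q', p ∣ m} (-1)`, of absolute value `φ((q',m))/φ(q')`. Hence
`|Γ_r(m)| ≤ (r/φ(r)) ∑_{g ∣ m, g ≤ Q} ∑_{q'' ≤ Q} 1/φ(q'')`, and `r/φ(r) ≤ 10 (1 + log Q)` for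
`r ≤ Q` (e.g. `r/φ(r) = ∏_{p ∣ r} (1 - 1/p)^{-1} ≤ ∏_{j ≤ ω(r)} (1 + 1/j) ≤ ω(r) + 1`, `2^ω(r) ≤ r`). -/
theorem abs_Gam_le (Q r : ℕ) (hr : 1 ≤ r) (hrQ : r ≤ Q) (m : ℤ) :
    |Gam Q r m| ≤ 100 * (1 + Real.log Q) ^ 3 * dQ Q m := by
  have hQ1 : (1 : ℝ) ≤ Q := by exact_mod_cast hr.trans hrQ
  have hL : 0 ≤ Real.log Q := Real.log_nonneg hQ1
  have hd0 : 0 ≤ dQ Q m := by unfold dQ; positivity
  by_cases hrm : IsCoprime (r : ℤ) m
  swap
  · have : Gam Q r m = 0 := by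
      unfold Gam
      refine Finset.sum_eq_zero (fun q _ => ?_)
      rw [Finset.filter_false_of_mem, Finset.sum_empty]
      rintro d _ ⟨⟨e, rfl⟩, h⟩
      rw [Nat.cast_mul, IsCoprime.mul_left_iff] at h
      exact hrm h.1
    rw [this, abs_zero]
    positivity
  have hr0 : r ≠ 0 := by omega
  have himg : (Icc 1 Q).filter (fun q => r ∣ q) = (Icc 1 (Q / r)).image (fun q => r * q) := by
    ext q
    simp only [mem_filter, mem_Icc, mem_image]
    constructor
    · rintro ⟨⟨h1, h2⟩, ⟨e, rfl⟩⟩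
      refine ⟨e, ⟨?_, ?_⟩, rfl⟩
      · rcases Nat.eq_zero_or_pos e with rfl | h
        · simp at h1
        · exact h
      · rw [Nat.le_div_iff_mul_le (by omega), mul_comm]
        exact h2
    · rintro ⟨e, ⟨h1, h2⟩, rfl⟩
      refine ⟨⟨Nat.mul_pos (by omega) (by omega), ?_⟩, Dvd.intro _ rfl⟩
      rw [Nat.le_div_iff_mul_le (by omega), mul_comm] at h2
      exact h2
  have hGam : Gam Q r m = (r : ℝ) / Nat.totient r * ∑ q ∈ Icc 1 (Q / r), GAM_F r m q := by
    unfold Gam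
    rw [himg, Finset.sum_image (fun a _ b _ h => Nat.eq_of_mul_eq_mul_left (by omega) h),
      Finset.mul_sum]
    refine Finset.sum_congr rfl (fun q hq => ?_)
    rw [mem_Icc] at hq
    exact GAM_inner r m hr0 hrm q (by omega)
  have hρ := GAM_ratio_le r hr0
  have hρ0 : 0 ≤ (r : ℝ) / Nat.totient r := by positivity
  have hlogr : Real.log r ≤ Real.log Q :=
    Real.log_le_log (by exact_mod_cast hr) (by exact_mod_cast hrQ)
  rw [hGam, abs_mul, abs_of_nonneg hρ0]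
  have h1 : |∑ q ∈ Icc 1 (Q / r), GAM_F r m q| ≤
      dQ Q m * ∑ q ∈ Icc 1 Q, (1 : ℝ) / Nat.totient q :=
    (Finset.abs_sum_le_sum_abs _ _).trans (GAM_sum_F r m Q (Q / r) (Nat.div_le_self _ _))
  have h2 := sum_inv_totient Q
  calc (r : ℝ) / Nat.totient r * |∑ q ∈ Icc 1 (Q / r), GAM_F r m q|
      ≤ (10 * (1 + Real.log Q)) * (dQ Q m * (10 * (1 + Real.log Q) ^ 2)) := by
        refine mul_le_mul (hρ.trans (by linarith)) (h1.trans ?_) (abs_nonneg _) (by positivity)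
        exact mul_le_mul_of_nonneg_left h2 hd0
    _ = _ := by ring

end Pool.Agent.Lib.H68T
end

-- from Lib.H68T.KER
section

/-!
# Chunk KER: the kernel in terms of primitive characters
-/

open Finset

namespace Pool.Agent.Lib.H68T

theorem KER_sigma_eq {d r r' : ℕ} [NeZero d] (hr : r ∣ d) (hr' : r' ∣ d)
    (ψ : DirichletCharacter ℂ r) (ψ' : DirichletCharacter ℂ r') (h : r = r')
    (he : DirichletCharacter.changeLevel hr ψ = DirichletCharacter.changeLevel hr' ψ') :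
    (⟨r, ψ⟩ : Σ r : ℕ, DirichletCharacter ℂ r) = ⟨r', ψ'⟩ := by
  subst h
  rw [DirichletCharacter.changeLevel_injective hr he]

theorem KER_sum (Q d : ℕ) [NeZero d] [Fintype (DirichletCharacter ℂ d)] (hd : d ≤ Q)
    (F : (Σ r : ℕ, DirichletCharacter ℂ r) → ℂ) :
    ∑ χ : DirichletCharacter ℂ d, F ⟨χ.conductor, χ.primitiveCharacter⟩ =
      ∑ p ∈ (PC Q).filter (fun p => p.1 ∣ d), F p := by
  refine Finset.sum_bij (fun χ _ => ⟨χ.conductor, χ.primitiveCharacter⟩) ?_ ?_ ?_ ?_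
  · intro χ _
    rw [mem_filter, mem_PC]
    have h1 := χ.conductor_dvd_level
    have h2 := χ.conductor_ne_zero
    have h3 := Nat.le_of_dvd (Nat.pos_of_ne_zero (NeZero.ne d)) h1
    exact ⟨⟨Nat.one_le_iff_ne_zero.mpr h2, h3.trans hd, χ.primitiveCharacter_isPrimitive⟩, h1⟩
  · intro χ₁ _ χ₂ _ h
    rw [← χ₁.changeLevel_primitiveCharacter, ← χ₂.changeLevel_primitiveCharacter]
    have : ∀ (p p' : Σ r : ℕ, DirichletCharacter ℂ r) (hp : p.1 ∣ d) (hp' : p'.1 ∣ d), p = p' →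
        DirichletCharacter.changeLevel hp p.2 = DirichletCharacter.changeLevel hp' p'.2 := by
      rintro p p' hp hp' rfl
      rfl
    exact this _ _ χ₁.conductor_dvd_level χ₂.conductor_dvd_level h
  · rintro ⟨r, ψ⟩ hp
    rw [mem_filter, mem_PC] at hp
    obtain ⟨⟨h1, h2, h3⟩, h4⟩ := hp
    have hr : NeZero r := ⟨by simp only at h1; omega⟩
    refine ⟨DirichletCharacter.changeLevel h4 ψ, mem_univ _, ?_⟩
    have hc := DirichletCharacter.conductor_changeLevel ψ h4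
    rw [h3] at hc
    refine KER_sigma_eq (DirichletCharacter.conductor_dvd_level _) h4 _ _ hc ?_
    rw [DirichletCharacter.changeLevel_primitiveCharacter]
  · intro χ _
    rfl

theorem KER_orth (Q d n : ℕ) (m : ℤ) (hd0 : d ≠ 0) (hd : d ≤ Q) (hn : n.Coprime d)
    (hm : IsCoprime (d : ℤ) m) :
    ∑ p ∈ (PC Q).filter (fun p => p.1 ∣ d), p.2 (n : ZMod p.1) *
        (starRingEnd ℂ) (p.2 (m : ZMod p.1)) =
      if (d : ℤ) ∣ (n : ℤ) - m then (d.totient : ℂ) else 0 := by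
  have hne : NeZero d := ⟨hd0⟩
  rw [← KER_sum Q d hd (fun p => p.2 (n : ZMod p.1) * (starRingEnd ℂ) (p.2 (m : ZMod p.1)))]
  have hnz : IsCoprime (n : ℤ) (d : ℤ) := Nat.isCoprime_iff_coprime.mpr hn
  have hu : IsUnit ((m : ℤ) : ZMod d) := by
    rw [← ZMod.coe_unitOfIsCoprime m hm.symm]
    exact Units.isUnit _
  have h1 : ∀ χ : DirichletCharacter ℂ d,
      χ.primitiveCharacter (n : ZMod χ.conductor) *
        (starRingEnd ℂ) (χ.primitiveCharacter (m : ZMod χ.conductor)) =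
      χ ((m : ZMod d)⁻¹) * χ (n : ZMod d) := by
    intro χ
    have h2 := χ.primitiveCharacter_apply_of_isCoprime (a := (n : ℤ)) hnz
    have h3 := χ.primitiveCharacter_apply_of_isCoprime (a := m) hm.symm
    rw [Int.cast_natCast, Int.cast_natCast] at h2
    rw [h2, h3, mul_comm]
    congr 1
    have h5 : (starRingEnd ℂ) (χ (m : ZMod d)) = χ⁻¹ (m : ZMod d) := MulChar.star_apply' χ _
    have hone : χ ((m : ZMod d)⁻¹) * χ (m : ZMod d) = 1 := by
      rw [← map_mul, ZMod.inv_mul_of_unit _ hu, map_one]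
    rw [h5, MulChar.inv_apply_eq_inv']
    exact (eq_inv_of_mul_eq_one_left hone).symm
  simp_rw [h1]
  rw [DirichletCharacter.sum_char_inv_mul_char_eq ℂ hu (n : ZMod d)]
  have h4 : ((m : ZMod d) = (n : ZMod d)) ↔ (d : ℤ) ∣ (n : ℤ) - m := by
    rw [← ZMod.intCast_eq_intCast_iff_dvd_sub, Int.cast_natCast]
  simp only [h4]

/-- For a prime `n > Q` and any integer `m`,
`∑_{q ≤ Q} c_q(n - m) = ∑_{ψ primitive, conductor r ≤ Q} Γ_r(m) ψ(n) conj ψ(m)`.

Proof. `c_q(n-m) = ∑_{d ∣ q, d ∣ n - m} d μ(q/d)`. Here `d ≤ Q < n` so `(n, d) = 1`, and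
`d ∣ n - m` forces `(m, d) = 1`; for `(m,d) = (n,d) = 1`,
`[d ∣ n - m] = (1/φ(d)) ∑_{χ mod d} χ(n) conj χ(m)`
(`DirichletCharacter.sum_char_inv_mul_char_eq`). Every `χ` mod `d` is `changeLevel` of the
primitive character `χ.primitiveCharacter` of conductor `r ∣ d`
(`changeLevel_primitiveCharacter`, `conductor_changeLevel`), with the same values at integers
coprime to `d`; this is a bijection between the characters mod `d` and the pairs `(r, ψ)`,
`r ∣ d`, `ψ` primitive mod `r`. Exchange the sums. -/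
theorem kernel_char (Q : ℕ) (n : ℕ) (hn : n.Prime) (hQn : Q < n) (m : ℤ) :
    ((∑ q ∈ Icc 1 Q, cq q ((n : ℤ) - m) : ℝ) : ℂ) =
      ∑ p ∈ PC Q, (Gam Q p.1 m : ℂ) * (p.2 (n : ZMod p.1) *
        (starRingEnd ℂ) (p.2 (m : ZMod p.1))) := by
  set E : (Σ r : ℕ, DirichletCharacter ℂ r) → ℂ := fun p => p.2 (n : ZMod p.1) *
        (starRingEnd ℂ) (p.2 (m : ZMod p.1)) with hE
  -- the left side
  have hL : ∀ q ∈ Icc 1 Q, ((cq q ((n : ℤ) - m) : ℝ) : ℂ) =
      ∑ d ∈ q.divisors.filter (fun d : ℕ => IsCoprime (d : ℤ) m),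
        ((ArithmeticFunction.moebius (q / d) : ℝ) : ℂ) * ((d : ℂ) / (Nat.totient d : ℂ)) *
          ∑ p ∈ (PC Q).filter (fun p => p.1 ∣ d), E p := by
    intro q hq
    rw [mem_Icc] at hq
    unfold cq
    rw [Complex.ofReal_sum, Finset.sum_filter, Finset.sum_filter]
    refine Finset.sum_congr rfl fun d hd => ?_
    rw [Nat.mem_divisors] at hd
    have hd0 : d ≠ 0 := by
      rintro rfl
      exact hd.2 (Nat.eq_zero_of_zero_dvd hd.1)
    have hdq : d ≤ q := Nat.le_of_dvd (by omega) hd.1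
    have hdn : n.Coprime d := by
      rw [Nat.Prime.coprime_iff_not_dvd hn]
      intro h
      have := Nat.le_of_dvd (Nat.pos_of_ne_zero hd0) h
      omega
    have hphi : (d.totient : ℂ) ≠ 0 := by
      have := Nat.totient_pos.mpr (Nat.pos_of_ne_zero hd0)
      exact_mod_cast this.ne'
    by_cases hm : IsCoprime (d : ℤ) m
    · rw [if_pos hm, KER_orth Q d n m hd0 (hdq.trans hq.2) hdn hm]
      by_cases hdv : (d : ℤ) ∣ (n : ℤ) - m
      · rw [if_pos hdv, if_pos hdv]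
        push_cast
        field_simp
      · rw [if_neg hdv, if_neg hdv]
        simp
    · rw [if_neg hm, if_neg]
      intro hdv
      apply hm
      have h1 : IsCoprime (d : ℤ) (n : ℤ) := (Nat.isCoprime_iff_coprime.mpr hdn).symm
      obtain ⟨c, hc⟩ := hdv
      have h2 : m = (n : ℤ) + (d : ℤ) * (-c) := by linear_combination -hc
      rw [h2]
      exact IsCoprime.add_mul_left_right h1 (-c)
  rw [Complex.ofReal_sum, Finset.sum_congr rfl hL]
  -- exchange
  simp_rw [Finset.mul_sum, Finset.sum_filter]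
  have hswap : ∀ q ∈ Icc 1 Q,
      (∑ d ∈ q.divisors, if IsCoprime (d : ℤ) m then ∑ p ∈ PC Q, if p.1 ∣ d then
        ((ArithmeticFunction.moebius (q / d) : ℝ) : ℂ) * ((d : ℂ) / (Nat.totient d : ℂ)) * E p
          else 0 else 0) =
      ∑ p ∈ PC Q, ((∑ d ∈ q.divisors.filter (fun d : ℕ => p.1 ∣ d ∧ IsCoprime (d : ℤ) m),
        (ArithmeticFunction.moebius (q / d) : ℝ) * ((d : ℝ) / (Nat.totient d : ℝ)) : ℝ) : ℂ)
          * E p := by
    intro q _
    have h1 : ∀ d ∈ q.divisors, (if IsCoprime (d : ℤ) m then ∑ p ∈ PC Q, if p.1 ∣ d then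
        ((ArithmeticFunction.moebius (q / d) : ℝ) : ℂ) * ((d : ℂ) / (Nat.totient d : ℂ)) * E p
          else 0 else 0) = ∑ p ∈ PC Q, if p.1 ∣ d ∧ IsCoprime (d : ℤ) m then
        ((ArithmeticFunction.moebius (q / d) : ℝ) : ℂ) * ((d : ℂ) / (Nat.totient d : ℂ)) * E p
          else 0 := by
      intro d _
      by_cases hm : IsCoprime (d : ℤ) m
      · simp [hm]
      · simp [hm]
    rw [Finset.sum_congr rfl h1, Finset.sum_comm]
    refine Finset.sum_congr rfl fun p _ => ?_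
    rw [Complex.ofReal_sum, Finset.sum_mul, Finset.sum_filter]
    refine Finset.sum_congr rfl fun d _ => ?_
    split_ifs <;> push_cast <;> ring
  rw [Finset.sum_congr rfl hswap, Finset.sum_comm]
  refine Finset.sum_congr rfl fun p hp => ?_
  rw [← Finset.sum_mul]
  congr 1
  unfold Gam
  rw [Complex.ofReal_sum, Finset.sum_filter]
  refine Finset.sum_congr rfl fun q hq => ?_
  split_ifs with hpq
  · rfl
  · rw [Finset.filter_false_of_mem]
    · simp
    · intro d hd h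
      rw [Nat.mem_divisors] at hd
      exact hpq (h.1.trans hd.1)

end Pool.Agent.Lib.H68T
end

-- from Lib.H68T.PV
section

/-!
# Chunk PV: correlations and Parseval
-/

open Finset

namespace Pool.Agent.Lib.H68T

theorem PV_e_add (x y : ℝ) : e (x + y) = e x * e y := by
  unfold e
  rw [← Complex.exp_add]
  congr 1
  push_cast
  ring

theorem PV_e_conj (x : ℝ) : (starRingEnd ℂ) (e x) = e (-x) := by
  unfold e
  rw [← Complex.exp_conj]
  congr 1
  simp only [map_mul, Complex.conj_ofReal, Complex.conj_I, map_ofNat]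
  push_cast
  ring

theorem PV_e_pow (x : ℝ) (n : ℕ) : e (n * x) = e x ^ n := by
  unfold e
  rw [← Complex.exp_nat_mul]
  congr 1
  push_cast
  ring

theorem PV_e_int (n : ℤ) : e n = 1 := by
  unfold e
  rw [Complex.exp_eq_one_iff]
  exact ⟨n, by push_cast; ring⟩

theorem PV_e_ne_one (N : ℕ) (hN : 0 < N) (k : ℤ) (hk : |k| < N) (hk0 : k ≠ 0) :
    e ((k : ℝ) / N) ≠ 1 := by
  unfold e
  rw [Ne, Complex.exp_eq_one_iff]
  rintro ⟨n, hn⟩
  have h1 : ((k : ℝ) / N : ℂ) = (n : ℂ) := by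
    have h2 : (2 * Real.pi * Complex.I : ℂ) ≠ 0 := Complex.two_pi_I_ne_zero
    apply mul_right_cancel₀ h2
    rw [← hn]
    push_cast
    ring
  have hN' : (N : ℂ) ≠ 0 := by exact_mod_cast hN.ne'
  rw [div_eq_iff hN'] at h1
  have h3 : k = n * N := by exact_mod_cast h1
  have h4 : n ≠ 0 := by
    rintro rfl
    exact hk0 (by rw [h3]; simp)
  have h5 : (1 : ℤ) ≤ |n| := Int.one_le_abs h4
  rw [h3, abs_mul, Nat.abs_cast] at hk
  have : (N : ℤ) > 0 := by exact_mod_cast hN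
  nlinarith

theorem PV_ortho (N : ℕ) (hN : 0 < N) (a : ℕ) (k : ℤ) (hk : |k| < N) :
    ∑ j ∈ Ico a (a + N), e ((j : ℝ) * ((k : ℝ) / N)) = if k = 0 then (N : ℂ) else 0 := by
  have hNr : (N : ℝ) ≠ 0 := by exact_mod_cast hN.ne'
  rw [Finset.sum_Ico_eq_sum_range]
  have h1 : ∀ j : ℕ, e (((a + j : ℕ) : ℝ) * ((k : ℝ) / N)) =
      e ((k : ℝ) / N) ^ a * e ((k : ℝ) / N) ^ j := by
    intro j
    rw [PV_e_pow, pow_add]
  simp only [h1, Nat.add_sub_cancel_left]
  rw [← Finset.mul_sum]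
  split_ifs with h0
  · subst h0
    have : e (((0 : ℤ) : ℝ) / N) = 1 := by
      have := PV_e_int 0
      simpa using this
    rw [this]
    simp
  · have hne := PV_e_ne_one N hN k hk h0
    have hpow : e ((k : ℝ) / N) ^ N = 1 := by
      rw [← PV_e_pow]
      have : (N : ℝ) * ((k : ℝ) / N) = ((k : ℤ) : ℝ) := by field_simp
      rw [this]
      exact PV_e_int k
    rw [geom_sum_eq hne, hpow]
    simp

theorem PV_parseval (N : ℕ) (hN : 0 < N) (a a' : ℕ) (b : ℕ → ℂ) :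
    ∑ j ∈ Ico a' (a' + N), ‖∑ t ∈ Ico a (a + N), b t * e ((j : ℝ) * ((t : ℝ) / N))‖ ^ 2 =
      N * ∑ t ∈ Ico a (a + N), ‖b t‖ ^ 2 := by
  have hC : ((∑ j ∈ Ico a' (a' + N), ‖∑ t ∈ Ico a (a + N), b t * e ((j : ℝ) * ((t : ℝ) / N))‖ ^ 2 :
      ℝ) : ℂ) = ((N * ∑ t ∈ Ico a (a + N), ‖b t‖ ^ 2 : ℝ) : ℂ) := by
    have hsq : ∀ z : ℂ, ((‖z‖ ^ 2 : ℝ) : ℂ) = z * (starRingEnd ℂ) z := by
      intro z
      rw [Complex.mul_conj, Complex.normSq_eq_norm_sq]
    push_cast
    have h1 : ∀ j : ℕ, ((‖∑ t ∈ Ico a (a + N), b t * e ((j : ℝ) * ((t : ℝ) / N))‖ : ℝ) : ℂ) ^ 2 =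
        ∑ t ∈ Ico a (a + N), ∑ t' ∈ Ico a (a + N), b t * (starRingEnd ℂ) (b t') *
          e ((j : ℝ) * ((((t : ℤ) - t' : ℤ) : ℝ) / N)) := by
      intro j
      have := hsq (∑ t ∈ Ico a (a + N), b t * e ((j : ℝ) * ((t : ℝ) / N)))
      push_cast at this
      rw [this, map_sum, Finset.sum_mul_sum]
      refine Finset.sum_congr rfl fun t _ => Finset.sum_congr rfl fun t' _ => ?_
      rw [map_mul, PV_e_conj]
      have h2 : (j : ℝ) * ((((t : ℤ) - t' : ℤ) : ℝ) / N) =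
          (j : ℝ) * ((t : ℝ) / N) + -((j : ℝ) * ((t' : ℝ) / N)) := by
        push_cast
        ring
      rw [h2, PV_e_add]
      ring
    simp only [h1]
    rw [Finset.sum_comm, Finset.mul_sum]
    refine Finset.sum_congr rfl fun t ht => ?_
    rw [Finset.sum_comm]
    have h3 : ∀ t' ∈ Ico a (a + N), ∑ j ∈ Ico a' (a' + N), b t * (starRingEnd ℂ) (b t') *
        e ((j : ℝ) * ((((t : ℤ) - t' : ℤ) : ℝ) / N)) =
        if t = t' then (N : ℂ) * (b t * (starRingEnd ℂ) (b t')) else 0 := by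
      intro t' ht'
      rw [← Finset.mul_sum]
      rw [mem_Ico] at ht ht'
      rw [PV_ortho N hN a' ((t : ℤ) - t') (by rw [abs_lt]; omega)]
      by_cases h : t = t'
      · subst h
        simp only [sub_self, if_true]
        ring
      · rw [if_neg h, if_neg (by omega), mul_zero]
    rw [Finset.sum_congr rfl h3, Finset.sum_ite_eq, if_pos ht]
    have := hsq (b t)
    push_cast at this
    rw [this]
  exact_mod_cast hC

/-- If all exponential sums of `u` over the intervals `[s, s + M)` are at most `D`, then the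
correlations with any `v` are small in mean square. For fixed `s` the numbers
`A(s') = ∑_{c < M} u(s + c) v(s' + c)` are correlation coefficients; with
`U(θ) = ∑_c u(s+c) e(cθ)`, `V(θ) = ∑_{l ∈ [M,3M)} v(l) e(lθ)` one has
`A(s') = ∫_0^1 U(θ) conj(V(θ)) e(s'θ) dθ` for `s' ∈ [M, 2M)` (or use a discrete Fourier transform
modulo `4M`), so by Bessel and Parseval
`∑_{s'} |A(s')|² ≤ ∫ |U V|² ≤ D² ∑_l |v(l)|²`. Sum over the `M` values of `s`. -/
theorem corr_sq_le (M : ℕ) (u v : ℕ → ℝ) (D : ℝ)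
    (hu : ∀ s ∈ Ico M (2 * M), ∀ θ : ℝ, ‖∑ c ∈ range M, (u (s + c) : ℂ) * e (c * θ)‖ ≤ D) :
    ∑ s ∈ Ico M (2 * M), ∑ s' ∈ Ico M (2 * M), (∑ c ∈ range M, u (s + c) * v (s' + c)) ^ 2 ≤
      M * D ^ 2 * ∑ l ∈ Ico M (3 * M), v l ^ 2 := by
  rcases Nat.eq_zero_or_pos M with rfl | hM
  · simp
  set N := 2 * M with hNdef
  have hN : 0 < N := by omega
  have hNr : (0 : ℝ) < N := by exact_mod_cast hN
  have h3 : 3 * M = M + N := by omega
  have key : ∀ s ∈ Ico M (2 * M), ∑ s' ∈ Ico M (2 * M),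
      (∑ c ∈ range M, u (s + c) * v (s' + c)) ^ 2 ≤ D ^ 2 * ∑ l ∈ Ico M (3 * M), v l ^ 2 := by
    intro s hs
    have hD : 0 ≤ D := (norm_nonneg _).trans (hu s hs 0)
    set U : ℕ → ℂ := fun j => ∑ c ∈ range M, (u (s + c) : ℂ) * e (c * ((j : ℝ) / N)) with hU
    set Vf : ℕ → ℂ := fun j => ∑ l ∈ Ico M (M + N), (v l : ℂ) * e ((j : ℝ) * ((l : ℝ) / N)) with hVf
    set B : ℕ → ℂ := fun j => Vf j * (starRingEnd ℂ) (U j) with hB
    have hUD : ∀ j, ‖U j‖ ≤ D := fun j => hu s hs _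
    -- the Fourier expansion of the correlation
    have hA : ∀ t ∈ Ico M (2 * M), ((N : ℝ) * ∑ c ∈ range M, u (s + c) * v (t + c) : ℝ) =
        (∑ j ∈ Ico 0 (0 + N), B j * e (-((j : ℝ) * ((t : ℝ) / N))) : ℂ) := by
      intro t ht
      rw [mem_Ico] at ht
      have e1 : ∀ j : ℕ, B j * e (-((j : ℝ) * ((t : ℝ) / N))) =
          ∑ l ∈ Ico M (M + N), ∑ c ∈ range M, ((v l : ℂ) * u (s + c)) *
            e ((j : ℝ) * ((((l : ℤ) - c - t : ℤ) : ℝ) / N)) := by
        intro j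
        simp only [hB, hVf, hU, map_sum, Finset.sum_mul_sum]
        rw [Finset.sum_mul]
        refine Finset.sum_congr rfl fun l _ => ?_
        rw [Finset.sum_mul]
        refine Finset.sum_congr rfl fun c _ => ?_
        rw [map_mul, PV_e_conj, Complex.conj_ofReal]
        have e2 : (j : ℝ) * ((((l : ℤ) - c - t : ℤ) : ℝ) / N) =
            (j : ℝ) * ((l : ℝ) / N) + (-((c : ℝ) * ((j : ℝ) / N)) + -((j : ℝ) * ((t : ℝ) / N))) := by
          push_cast
          ring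
        rw [e2, PV_e_add, PV_e_add]
        ring
      simp only [e1]
      rw [Finset.sum_comm]
      have e3 : ∀ l ∈ Ico M (M + N), ∑ j ∈ Ico 0 (0 + N), ∑ c ∈ range M,
          ((v l : ℂ) * u (s + c)) * e ((j : ℝ) * ((((l : ℤ) - c - t : ℤ) : ℝ) / N)) =
          ∑ c ∈ range M, if l = t + c then (N : ℂ) * ((v l : ℂ) * u (s + c)) else 0 := by
        intro l hl
        rw [Finset.sum_comm]
        refine Finset.sum_congr rfl fun c hc => ?_
        rw [mem_Ico] at hl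
        rw [mem_range] at hc
        rw [← Finset.mul_sum, PV_ortho N hN 0 ((l : ℤ) - c - t) (by rw [abs_lt]; omega)]
        by_cases h : l = t + c
        · rw [if_pos (by omega), if_pos h]
          ring
        · rw [if_neg (by omega), if_neg h, mul_zero]
      rw [Finset.sum_congr rfl e3, Finset.sum_comm]
      push_cast
      rw [Finset.mul_sum]
      refine Finset.sum_congr rfl fun c hc => ?_
      rw [mem_range] at hc
      rw [Finset.sum_ite_eq', if_pos (by rw [mem_Ico]; omega)]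
      ring
    have hle1 : ∑ t ∈ Ico M (2 * M), ((N : ℝ) * ∑ c ∈ range M, u (s + c) * v (t + c)) ^ 2 ≤
        ∑ t ∈ Ico M (M + N), ‖∑ j ∈ Ico 0 (0 + N), (starRingEnd ℂ) (B j) *
          e ((t : ℝ) * ((j : ℝ) / N))‖ ^ 2 := by
      have h1 : ∀ t ∈ Ico M (2 * M), ((N : ℝ) * ∑ c ∈ range M, u (s + c) * v (t + c)) ^ 2 =
          ‖∑ j ∈ Ico 0 (0 + N), (starRingEnd ℂ) (B j) * e ((t : ℝ) * ((j : ℝ) / N))‖ ^ 2 := by
        intro t ht
        have h2 := congrArg (fun z : ℂ => ‖z‖) (hA t ht)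
        rw [Complex.norm_real, Real.norm_eq_abs] at h2
        rw [← sq_abs, h2, ← RCLike.norm_conj (∑ j ∈ Ico 0 (0 + N), B j *
          e (-((j : ℝ) * ((t : ℝ) / N)))), map_sum]
        congr 2
        refine Finset.sum_congr rfl fun j _ => ?_
        rw [map_mul, PV_e_conj, neg_neg]
        congr 2
        ring
      rw [Finset.sum_congr rfl h1]
      refine Finset.sum_le_sum_of_subset_of_nonneg ?_ fun _ _ _ => by positivity
      intro t ht
      rw [mem_Ico] at ht ⊢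
      omega
    rw [PV_parseval N hN 0 M (fun j => (starRingEnd ℂ) (B j))] at hle1
    have hle2 : ∑ j ∈ Ico 0 (0 + N), ‖(starRingEnd ℂ) (B j)‖ ^ 2 ≤
        D ^ 2 * ((N : ℝ) * ∑ l ∈ Ico M (M + N), ‖((v l : ℝ) : ℂ)‖ ^ 2) := by
      rw [← PV_parseval N hN M 0 (fun l => ((v l : ℝ) : ℂ)), Finset.mul_sum]
      refine Finset.sum_le_sum fun j _ => ?_
      rw [RCLike.norm_conj]
      simp only [hB]
      rw [norm_mul, RCLike.norm_conj, mul_pow, mul_comm]
      exact mul_le_mul_of_nonneg_right (pow_le_pow_left₀ (norm_nonneg _) (hUD j) 2) (by positivity)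
    have hle3 : (N : ℝ) ^ 2 * ∑ t ∈ Ico M (2 * M), (∑ c ∈ range M, u (s + c) * v (t + c)) ^ 2 ≤
        (N : ℝ) ^ 2 * (D ^ 2 * ∑ l ∈ Ico M (3 * M), v l ^ 2) := by
      have h4 : ∑ l ∈ Ico M (M + N), ‖((v l : ℝ) : ℂ)‖ ^ 2 = ∑ l ∈ Ico M (3 * M), v l ^ 2 := by
        rw [h3]
        refine Finset.sum_congr rfl fun l _ => ?_
        rw [Complex.norm_real, Real.norm_eq_abs, sq_abs]
      rw [h4] at hle2
      calc (N : ℝ) ^ 2 * ∑ t ∈ Ico M (2 * M), (∑ c ∈ range M, u (s + c) * v (t + c)) ^ 2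
          = ∑ t ∈ Ico M (2 * M), ((N : ℝ) * ∑ c ∈ range M, u (s + c) * v (t + c)) ^ 2 := by
            rw [Finset.mul_sum]
            exact Finset.sum_congr rfl fun t _ => by ring
        _ ≤ _ := hle1
        _ ≤ (N : ℝ) * (D ^ 2 * ((N : ℝ) * ∑ l ∈ Ico M (3 * M), v l ^ 2)) :=
            mul_le_mul_of_nonneg_left hle2 hNr.le
        _ = _ := by ring
    exact le_of_mul_le_mul_left hle3 (by positivity)
  refine (Finset.sum_le_sum key).trans ?_
  rw [Finset.sum_const, Nat.card_Ico, nsmul_eq_mul]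
  have : ((2 * M - M : ℕ) : ℝ) = M := by
    congr 1
    omega
  rw [this, mul_assoc]

end Pool.Agent.Lib.H68T
end

-- from Lib.H68T.HBI
section

/-!
# Chunk HBI: Heath-Brown's identity with three factors
-/

open Finset ArithmeticFunction

namespace Pool.Agent.Lib.H68T

/-- Truncated Möbius function. -/
noncomputable def muV (V : ℕ) : ArithmeticFunction ℝ :=
  af (fun a => if a ≤ V then (moebius a : ℝ) else 0)

/-- Arithmetic function `n ↦ 1` and `n ↦ log n`, real valued. -/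
noncomputable def one1 : ArithmeticFunction ℝ := af (fun _ => 1)
noncomputable def logf : ArithmeticFunction ℝ := af (fun n => Real.log n)

theorem HBI_one1 : one1 = ((zeta : ArithmeticFunction ℕ) : ArithmeticFunction ℝ) := by
  ext n
  simp only [one1, af, coe_mk, natCoe_apply, zeta_apply]
  split_ifs <;> simp

theorem HBI_logf : logf = ArithmeticFunction.log := by
  ext n
  simp only [logf, af, coe_mk, log_apply]
  split_ifs with h
  · simp [h]
  · rfl

theorem HBI_vanish (f g : ArithmeticFunction ℝ) (a b : ℕ) (hf : ∀ n < a, f n = 0)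
    (hg : ∀ n < b, g n = 0) : ∀ n < a * b, (f * g) n = 0 := by
  intro n hn
  rw [mul_apply]
  refine Finset.sum_eq_zero fun p hp => ?_
  rw [Nat.mem_divisorsAntidiagonal] at hp
  by_cases h1 : p.1 < a
  · rw [hf _ h1, zero_mul]
  · by_cases h2 : p.2 < b
    · rw [hg _ h2, mul_zero]
    · exfalso
      have := Nat.mul_le_mul (not_lt.1 h1) (not_lt.1 h2)
      rw [hp.1] at this
      omega

theorem HBI_sub (f g : ArithmeticFunction ℝ) (n : ℕ) : (f - g) n = f n - g n := by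
  have h : (f - g + g) n = f n := by rw [sub_add_cancel]
  rw [ArithmeticFunction.add_apply] at h
  linarith

theorem HBI_eps (V n : ℕ) (hn : n < V + 1) : (1 - muV V * one1 : ArithmeticFunction ℝ) n = 0 := by
  rcases Nat.eq_zero_or_pos n with rfl | hpos
  · simp
  have h1 : (muV V * one1 : ArithmeticFunction ℝ) n =
      ((moebius : ArithmeticFunction ℝ) * (zeta : ArithmeticFunction ℝ)) n := by
    rw [mul_apply, mul_apply]
    refine Finset.sum_congr rfl fun p hp => ?_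
    rw [Nat.mem_divisorsAntidiagonal] at hp
    have hp1 : p.1 ≠ 0 := by
      intro h
      rw [h, zero_mul] at hp
      exact hp.2 hp.1.symm
    have hle : p.1 ≤ V := by
      have : p.1 ≤ n := Nat.le_of_dvd hpos ⟨p.2, hp.1.symm⟩
      omega
    rw [HBI_one1]
    congr 1
    simp only [muV, af, coe_mk, if_neg hp1, if_pos hle, intCoe_apply]
  rw [HBI_sub, h1, coe_moebius_mul_coe_zeta]
  simp

/-- **Heath-Brown's identity** (`J = 3`), for `m < (V+1)^3`. Proof: `ε = 1 - μ_V * 1` (in the ring of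
arithmetic functions) vanishes at all `m ≤ V`, hence `ε³` at all `m < (V+1)³`; and
`Λ ε³ = Λ - 3 μ_V * log + 3 μ_V² * 1 * log - μ_V³ * 1² * log` since `Λ * 1 = log`. -/
theorem heath_brown (V m : ℕ) (hm : m < (V + 1) ^ 3) :
    vonMangoldt m = (3 * (muV V * logf) - 3 * (muV V ^ 2 * one1 * logf) +
      muV V ^ 3 * one1 ^ 2 * logf : ArithmeticFunction ℝ) m := by
  have hlog : logf = vonMangoldt * one1 := by
    rw [HBI_logf, HBI_one1, vonMangoldt_mul_zeta]
  have hid : (3 * (muV V * logf) - 3 * (muV V ^ 2 * one1 * logf) +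
      muV V ^ 3 * one1 ^ 2 * logf : ArithmeticFunction ℝ) =
      vonMangoldt - ((1 - muV V * one1) * (1 - muV V * one1) * (1 - muV V * one1)) *
        vonMangoldt := by
    rw [hlog]
    ring
  have he := HBI_eps V
  have h2 := HBI_vanish _ _ _ _ he he
  have h3 := HBI_vanish _ _ _ _ h2 he
  have h4 := HBI_vanish _ (vonMangoldt : ArithmeticFunction ℝ) _ 1 h3 (by
    intro n hn
    have : n = 0 := by omega
    rw [this, ArithmeticFunction.map_zero])
  have h5 := h4 m (by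
    have : (V + 1) * (V + 1) * (V + 1) * 1 = (V + 1) ^ 3 := by ring
    rw [this]
    exact hm)
  rw [hid, HBI_sub, h5, sub_zero]

end Pool.Agent.Lib.H68T
end

-- from Lib.H68T.HDEC
section

/-!
# Chunk HDEC: splitting off the long smooth variables
-/

open Finset ArithmeticFunction

namespace Pool.Agent.Lib.H68T

lemma hd_af (f : ℕ → ℝ) (n : ℕ) : af f n = if n = 0 then 0 else f n := rfl

lemma hd_af_pos (f : ℕ → ℝ) {n : ℕ} (hn : 1 ≤ n) : af f n = f n := by
  rw [hd_af, if_neg (by omega)]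

/-- support in `[1, M]` -/
def hdSupp (f : ArithmeticFunction ℝ) (M : ℝ) : Prop := ∀ m : ℕ, M < m → f m = 0

lemma hdSupp_mul {f g : ArithmeticFunction ℝ} {M N : ℝ} (hM : 0 ≤ M) (hf : hdSupp f M)
    (hg : hdSupp g N) : hdSupp (f * g) (M * N) := by
  intro m hm
  rw [mul_apply]
  apply Finset.sum_eq_zero
  intro x hx
  have hxm : x.1 * x.2 = m := (Nat.mem_divisorsAntidiagonal.mp hx).1
  by_cases h1 : M < x.1
  · rw [hf _ h1, zero_mul]
  · push Not at h1
    by_cases h2 : N < x.2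
    · rw [hg _ h2, mul_zero]
    · push Not at h2
      exfalso
      have h3 : (m : ℝ) = x.1 * x.2 := by rw [← hxm]; push_cast; ring
      have h4 : (x.1 : ℝ) * x.2 ≤ M * N := by
        have h5 : (0 : ℝ) ≤ x.2 := by positivity
        nlinarith
      linarith

lemma hdSupp_add {f g : ArithmeticFunction ℝ} {M : ℝ} (hf : hdSupp f M)
    (hg : hdSupp g M) : hdSupp (f + g) M := by
  intro m hm
  rw [ArithmeticFunction.add_apply, hf m hm, hg m hm, add_zero]

lemma hdSupp_mono {f : ArithmeticFunction ℝ} {M N : ℝ} (hf : hdSupp f M) (h : M ≤ N) :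
    hdSupp f N := fun m hm => hf m (h.trans_lt hm)

/-- sums over divisor pairs -/
lemma hd_swap {E : Type*} [AddCommMonoid E] (N : ℕ) (h : ℕ → ℕ → E) :
    ∑ m ∈ Icc 1 N, ∑ x ∈ m.divisorsAntidiagonal, h x.1 x.2 =
      ∑ x ∈ ((Icc 1 N) ×ˢ (Icc 1 N)).filter (fun x => x.1 * x.2 ≤ N), h x.1 x.2 := by
  classical
  rw [← Finset.sum_fiberwise_of_maps_to (s := ((Icc 1 N) ×ˢ (Icc 1 N)).filter
    (fun x => x.1 * x.2 ≤ N)) (t := Icc 1 N) (g := fun x => x.1 * x.2)]
  · apply Finset.sum_congr rfl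
    intro m hm
    apply Finset.sum_congr _ fun _ _ => rfl
    ext x
    rw [Finset.mem_filter, Finset.mem_filter, Finset.mem_product, Nat.mem_divisorsAntidiagonal]
    simp only [Finset.mem_Icc] at hm ⊢
    constructor
    · rintro ⟨h1, h2⟩
      have hx1 : 1 ≤ x.1 := by
        rcases Nat.eq_zero_or_pos x.1 with h0 | h0
        · rw [h0, zero_mul] at h1; omega
        · exact h0
      have hx2 : 1 ≤ x.2 := by
        rcases Nat.eq_zero_or_pos x.2 with h0 | h0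
        · rw [h0, mul_zero] at h1; omega
        · exact h0
      have h3 : x.1 ≤ m := by rw [← h1]; exact Nat.le_mul_of_pos_right _ hx2
      have h4 : x.2 ≤ m := by rw [← h1]; exact Nat.le_mul_of_pos_left _ hx1
      exact ⟨⟨⟨⟨hx1, by omega⟩, ⟨hx2, by omega⟩⟩, by omega⟩, h1⟩
    · rintro ⟨⟨_, h1⟩, h2⟩
      exact ⟨h2, by omega⟩
  · intro x hx
    rw [Finset.mem_filter, Finset.mem_product] at hx
    simp only [Finset.mem_Icc] at hx ⊢
    exact ⟨Nat.mul_pos hx.1.1.1 hx.1.2.1, hx.2⟩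

/-- the weighted norm -/
noncomputable def hdN (N : ℕ) (f : ArithmeticFunction ℝ) : ℝ := ∑ a ∈ Icc 1 N, |f a| / a

lemma hdN_nonneg (N : ℕ) (f : ArithmeticFunction ℝ) : 0 ≤ hdN N f :=
  Finset.sum_nonneg fun a _ => by positivity

lemma hdN_add (N : ℕ) (f g : ArithmeticFunction ℝ) : hdN N (f + g) ≤ hdN N f + hdN N g := by
  unfold hdN
  rw [← Finset.sum_add_distrib]
  apply Finset.sum_le_sum
  intro a _
  rw [ArithmeticFunction.add_apply, ← add_div]
  exact div_le_div_of_nonneg_right (abs_add_le _ _) (by positivity)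

lemma hdN_neg (N : ℕ) (f : ArithmeticFunction ℝ) : hdN N (-f) = hdN N f := by
  unfold hdN
  apply Finset.sum_congr rfl
  intro a _
  have : (-f) a = - (f a) := rfl
  rw [this, abs_neg]

lemma hdN_mul (N : ℕ) (f g : ArithmeticFunction ℝ) : hdN N (f * g) ≤ hdN N f * hdN N g := by
  have h1 : hdN N (f * g) ≤ ∑ m ∈ Icc 1 N, ∑ x ∈ m.divisorsAntidiagonal,
      (|f x.1| / x.1) * (|g x.2| / x.2) := by
    unfold hdN
    apply Finset.sum_le_sum
    intro m hm
    rw [Finset.mem_Icc] at hm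
    have hm0 : (0 : ℝ) < m := by exact_mod_cast hm.1
    rw [mul_apply, div_le_iff₀ hm0, Finset.sum_mul]
    refine (Finset.abs_sum_le_sum_abs _ _).trans (Finset.sum_le_sum fun x hx => ?_)
    have hxm : x.1 * x.2 = m := (Nat.mem_divisorsAntidiagonal.mp hx).1
    have h3 : (m : ℝ) = x.1 * x.2 := by rw [← hxm]; push_cast; ring
    rw [h3] at hm0 ⊢
    have hx1 : (x.1 : ℝ) ≠ 0 := fun h => by rw [h, zero_mul] at hm0; exact lt_irrefl _ hm0
    have hx2 : (x.2 : ℝ) ≠ 0 := fun h => by rw [h, mul_zero] at hm0; exact lt_irrefl _ hm0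
    rw [abs_mul]
    apply le_of_eq
    field_simp
  refine h1.trans ?_
  rw [hd_swap N (fun a b => (|f a| / (a : ℝ)) * (|g b| / (b : ℝ)))]
  unfold hdN
  rw [Finset.sum_mul_sum, ← Finset.sum_product']
  apply Finset.sum_le_sum_of_subset_of_nonneg (Finset.filter_subset _ _)
  intro i _ _
  positivity

lemma hdN_le_of {N : ℕ} {f : ArithmeticFunction ℝ} {C : ℝ} (hC : 0 ≤ C)
    (h : ∀ a, 1 ≤ a → a ≤ N → |f a| ≤ C) : hdN N f ≤ C * (1 + Real.log N) := by
  have h1 : hdN N f ≤ ∑ a ∈ Icc 1 N, C * ((a : ℝ))⁻¹ := by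
    unfold hdN
    apply Finset.sum_le_sum
    intro a ha
    rw [Finset.mem_Icc] at ha
    rw [div_eq_mul_inv]
    exact mul_le_mul_of_nonneg_right (h a ha.1 ha.2) (by positivity)
  refine h1.trans ?_
  rw [← Finset.mul_sum]
  apply mul_le_mul_of_nonneg_left _ hC
  have h2 := harmonic_le_one_add_log N
  rw [harmonic_eq_sum_Icc] at h2
  push_cast at h2
  exact h2

/-! ### the pieces -/

lemma hd_rho_nonneg (Q n : ℕ) : 0 ≤ rho Q n := by
  unfold rho
  linarith [Real.smoothTransition.le_one (Real.log ((n : ℝ) / (Q : ℝ) ^ 20))]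

lemma hd_rho_le_one (Q n : ℕ) : rho Q n ≤ 1 := by
  unfold rho
  linarith [Real.smoothTransition.nonneg (Real.log ((n : ℝ) / (Q : ℝ) ^ 20))]

lemma hd_rho_zero {Q n : ℕ} (hQ : 1 ≤ Q) (h : Real.exp 1 * (Q : ℝ) ^ 20 < n) : rho Q n = 0 := by
  unfold rho
  have hQ0 : (0 : ℝ) < (Q : ℝ) ^ 20 := by
    have : (0 : ℝ) < Q := by exact_mod_cast hQ
    positivity
  have h1 : Real.exp 1 ≤ (n : ℝ) / (Q : ℝ) ^ 20 := by
    rw [le_div_iff₀ hQ0]; exact h.le
  have h2 : 1 ≤ Real.log ((n : ℝ) / (Q : ℝ) ^ 20) := by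
    rw [Real.le_log_iff_exp_le ((Real.exp_pos 1).trans_le h1)]
    exact h1
  rw [Real.smoothTransition.one_of_one_le h2, sub_self]

noncomputable def hds (Q : ℕ) : ArithmeticFunction ℝ := af (rho Q)
noncomputable def hdl (Q : ℕ) : ArithmeticFunction ℝ := af (fun n => 1 - rho Q n)
noncomputable def hdsL (Q : ℕ) : ArithmeticFunction ℝ := af (fun n => rho Q n * Real.log n)
noncomputable def hdlL (Q : ℕ) : ArithmeticFunction ℝ := af (fun n => (1 - rho Q n) * Real.log n)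
noncomputable def hduh (X : ℕ) : ArithmeticFunction ℝ :=
  af (fun a => if AA X ≤ a ∧ a ≤ VV X then (moebius a : ℝ) else 0)

lemma hd_one (Q : ℕ) : one1 = hds Q + hdl Q := by
  ext n
  rw [ArithmeticFunction.add_apply]
  unfold one1 hds hdl
  rw [hd_af, hd_af, hd_af]
  split_ifs <;> ring

lemma hd_log (Q : ℕ) : logf = hdsL Q + hdlL Q := by
  ext n
  rw [ArithmeticFunction.add_apply]
  unfold logf hdsL hdlL
  rw [hd_af, hd_af, hd_af]
  split_ifs <;> ring

lemma hd_supp_s {Q : ℕ} (hQ : 1 ≤ Q) : hdSupp (hds Q) (Real.exp 1 * (Q : ℝ) ^ 20) := by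
  intro m hm
  unfold hds
  rw [hd_af, hd_rho_zero hQ hm]
  split_ifs <;> rfl

lemma hd_supp_sL {Q : ℕ} (hQ : 1 ≤ Q) : hdSupp (hdsL Q) (Real.exp 1 * (Q : ℝ) ^ 20) := by
  intro m hm
  unfold hdsL
  rw [hd_af, hd_rho_zero hQ hm, zero_mul]
  split_ifs <;> rfl

lemma hd_supp_u (V : ℕ) : hdSupp (muV V) V := by
  intro m hm
  unfold muV
  rw [hd_af, if_neg (not_le.mpr (by exact_mod_cast hm) : ¬ m ≤ V)]
  split_ifs <;> rfl

lemma hd_supp_uh (X : ℕ) : hdSupp (hduh X) (VV X) := by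
  intro m hm
  unfold hduh
  have : ¬ m ≤ VV X := not_le.mpr (by exact_mod_cast hm)
  rw [hd_af]
  have h2 : ¬ (AA X ≤ m ∧ m ≤ VV X) := fun h => this h.2
  rw [if_neg h2]
  split_ifs <;> rfl

lemma hd_supp_ul (X : ℕ) : hdSupp (muV (VV X) + -hduh X) ((X : ℝ) ^ ((1 : ℝ) / 4)) := by
  intro m hm
  have hm2 : AA X ≤ m := Nat.ceil_le.mpr hm.le
  have e : (muV (VV X) + -hduh X) m = muV (VV X) m + -(hduh X m) := rfl
  rw [e]
  unfold muV hduh
  rw [hd_af, hd_af]
  by_cases h0 : m = 0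
  · simp [h0]
  · rw [if_neg h0, if_neg h0]
    by_cases h1 : m ≤ VV X
    · rw [if_pos h1, if_pos ⟨hm2, h1⟩]; ring
    · rw [if_neg h1, if_neg (fun h => h1 h.2)]; ring

noncomputable def hda1 (X : ℕ) : ArithmeticFunction ℝ :=
  muV (VV X) + muV (VV X) + muV (VV X) +
    -(muV (VV X) * muV (VV X) * one1) + -(muV (VV X) * muV (VV X) * one1) +
    -(muV (VV X) * muV (VV X) * one1) + muV (VV X) * muV (VV X) * muV (VV X) * one1 * one1

noncomputable def hda0 (Q X : ℕ) : ArithmeticFunction ℝ :=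
  -(muV (VV X) * muV (VV X) * hdsL Q) + -(muV (VV X) * muV (VV X) * hdsL Q) +
    -(muV (VV X) * muV (VV X) * hdsL Q) +
    muV (VV X) * muV (VV X) * muV (VV X) * hds Q * hdsL Q +
    muV (VV X) * muV (VV X) * muV (VV X) * one1 * hdsL Q

/-- the ring identity -/
lemma hd_ring (Q X : ℕ) :
    (3 * (muV (VV X) * logf) - 3 * (muV (VV X) ^ 2 * one1 * logf) +
      muV (VV X) ^ 3 * one1 ^ 2 * logf : ArithmeticFunction ℝ) =
    hmain Q X + hda1 X * hdlL Q + hda0 Q X * hdl Q +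
      (3 * (muV (VV X) * hdsL Q) + -(3 * (muV (VV X) * muV (VV X) * hds Q * hdsL Q)) +
        (muV (VV X) + -hduh X) * (muV (VV X) * muV (VV X) + muV (VV X) * hduh X +
          hduh X * hduh X) * (hds Q * hds Q) * hdsL Q) := by
  have h1 : hmain Q X = hduh X ^ 3 * hds Q ^ 2 * hdsL Q := rfl
  rw [h1]
  unfold hda1 hda0
  rw [hd_log Q, hd_one Q]
  ring

lemma hd_supp3 {f : ArithmeticFunction ℝ} {M : ℝ} (hf : hdSupp f M) : hdSupp (3 * f) M := by
  have : (3 : ArithmeticFunction ℝ) * f = f + f + f := by ring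
  rw [this]
  exact hdSupp_add (hdSupp_add hf hf) hf

lemma hd_supp_neg {f : ArithmeticFunction ℝ} {M : ℝ} (hf : hdSupp f M) : hdSupp (-f) M := by
  intro m hm
  have : (-f) m = -(f m) := rfl
  rw [this, hf m hm, neg_zero]

/-- the error terms live on short integers -/
lemma hd_err : ∃ K : ℝ, 1 ≤ K ∧ ∀ Q X : ℕ, Reg K Q X → ∀ m : ℕ, Real.exp (-2) * X < m →
    (3 * (muV (VV X) * hdsL Q) + -(3 * (muV (VV X) * muV (VV X) * hds Q * hdsL Q)) +
        (muV (VV X) + -hduh X) * (muV (VV X) * muV (VV X) + muV (VV X) * hduh X +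
          hduh X * hduh X) * (hds Q * hds Q) * hdsL Q) m = 0 := by
  obtain ⟨K, hK, h1⟩ := reg_pow_le (3601 * Real.exp 5) 60 (1 / 12) (by norm_num)
  refine ⟨K, hK, fun Q X hR m hm => ?_⟩
  have hQ : 1 ≤ Q := hR.Q_pos hK
  have hX : 1 ≤ X := hR.X_pos (by linarith)
  have hQr : (1 : ℝ) ≤ Q := by exact_mod_cast hQ
  have hXr : (1 : ℝ) ≤ X := by exact_mod_cast hX
  set E : ℝ := Real.exp 1 * (Q : ℝ) ^ 20 with hE
  set V : ℝ := (VV X : ℝ) with hV
  have he1 : (1 : ℝ) ≤ Real.exp 1 := Real.one_le_exp (by norm_num)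
  have hE1 : 1 ≤ E := by
    have : (1 : ℝ) ≤ (Q : ℝ) ^ 20 := one_le_pow₀ hQr
    rw [hE]; nlinarith
  have hV1 : 1 ≤ V := by
    have : 1 ≤ VV X := by
      unfold VV
      rw [Nat.one_le_floor_iff]
      apply Real.one_le_rpow _ (by norm_num)
      push_cast; linarith
    rw [hV]; exact_mod_cast this
  have hX4 : 1 ≤ (X : ℝ) ^ ((1 : ℝ) / 4) := Real.one_le_rpow hXr (by norm_num)
  set Z : ℝ := (X : ℝ) ^ ((1 : ℝ) / 4) * (V * V) * (E * E) * E with hZ
  have hVV : 1 ≤ V * V := by nlinarith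
  have hEE : 1 ≤ E * E := by nlinarith
  have hZ1 : V * V * E * E ≤ Z := by
    have e : Z = ((X : ℝ) ^ ((1 : ℝ) / 4) * E) * (V * V * E * E) := by rw [hZ]; ring
    rw [e]
    have h2 : 1 ≤ (X : ℝ) ^ ((1 : ℝ) / 4) * E := by nlinarith
    have h3 : 0 ≤ V * V * E * E := by positivity
    nlinarith
  have hZ2 : V * E ≤ Z := by
    have : V * E ≤ V * V * E * E := by
      have h2 : 1 ≤ V * E := by nlinarith
      have e : V * V * E * E = (V * E) * (V * E) := by ring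
      rw [e]
      nlinarith
    linarith
  have hsupp : hdSupp (3 * (muV (VV X) * hdsL Q) +
      -(3 * (muV (VV X) * muV (VV X) * hds Q * hdsL Q)) +
        (muV (VV X) + -hduh X) * (muV (VV X) * muV (VV X) + muV (VV X) * hduh X +
          hduh X * hduh X) * (hds Q * hds Q) * hdsL Q) Z := by
    refine hdSupp_add (hdSupp_add ?_ ?_) ?_
    · exact hdSupp_mono (hd_supp3 (hdSupp_mul (by linarith) (hd_supp_u _) (hd_supp_sL hQ))) hZ2
    · refine hdSupp_mono (hd_supp_neg (hd_supp3 (hdSupp_mul (by positivity)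
        (hdSupp_mul (by positivity) (hdSupp_mul (by linarith) (hd_supp_u _) (hd_supp_u _))
          (hd_supp_s hQ)) (hd_supp_sL hQ)))) hZ1
    · refine hdSupp_mul (by positivity) (hdSupp_mul (by positivity) (hdSupp_mul (by positivity)
        (hd_supp_ul X) ?_) (hdSupp_mul (by linarith) (hd_supp_s hQ) (hd_supp_s hQ)))
        (hd_supp_sL hQ)
      refine hdSupp_add (hdSupp_add ?_ ?_) ?_
      · exact hdSupp_mul (by linarith) (hd_supp_u _) (hd_supp_u _)
      · exact hdSupp_mul (by linarith) (hd_supp_u _) (hd_supp_uh _)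
      · exact hdSupp_mul (by linarith) (hd_supp_uh _) (hd_supp_uh _)
  apply hsupp
  refine lt_of_le_of_lt ?_ hm
  -- Z ≤ exp(-2) X
  have hV2 : V ≤ 60 * (X : ℝ) ^ ((1 : ℝ) / 3) := by
    have h2 : V ≤ ((60 * X : ℕ) : ℝ) ^ ((1 : ℝ) / 3) := Nat.floor_le (by positivity)
    have h3 : ((60 * X : ℕ) : ℝ) ^ ((1 : ℝ) / 3) = (60 : ℝ) ^ ((1 : ℝ) / 3) *
        (X : ℝ) ^ ((1 : ℝ) / 3) := by
      push_cast
      rw [Real.mul_rpow (by norm_num) (by positivity)]
    have h4 : (60 : ℝ) ^ ((1 : ℝ) / 3) ≤ 60 := by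
      calc (60 : ℝ) ^ ((1 : ℝ) / 3) ≤ (60 : ℝ) ^ (1 : ℝ) :=
            Real.rpow_le_rpow_of_exponent_le (by norm_num) (by norm_num)
        _ = 60 := Real.rpow_one _
    rw [h3] at h2
    exact h2.trans (mul_le_mul_of_nonneg_right h4 (by positivity))
  have h2 := h1 Q X hR
  have h3 : (Q : ℝ) ^ (60 : ℝ) = (Q : ℝ) ^ 60 := by rw [← Real.rpow_natCast]; norm_num
  rw [h3] at h2
  have hVV2 : V * V ≤ 3600 * (X : ℝ) ^ ((2 : ℝ) / 3) := by
    have h4 : V * V ≤ (60 * (X : ℝ) ^ ((1 : ℝ) / 3)) * (60 * (X : ℝ) ^ ((1 : ℝ) / 3)) :=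
      mul_le_mul hV2 hV2 (by linarith) (by positivity)
    have h5 : (X : ℝ) ^ ((2 : ℝ) / 3) = (X : ℝ) ^ ((1 : ℝ) / 3) * (X : ℝ) ^ ((1 : ℝ) / 3) := by
      rw [← Real.rpow_add (by linarith)]; norm_num
    rw [h5]; linarith
  have hE3 : (E * E) * E = Real.exp 3 * (Q : ℝ) ^ 60 := by
    have : Real.exp 3 = Real.exp 1 * Real.exp 1 * Real.exp 1 := by
      rw [← Real.exp_add, ← Real.exp_add]; norm_num
    rw [hE, this]; ring
  have hX11 : (X : ℝ) ^ ((1 : ℝ) / 4) * (X : ℝ) ^ ((2 : ℝ) / 3) * (X : ℝ) ^ ((1 : ℝ) / 12) = X := by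
    rw [← Real.rpow_add (by linarith), ← Real.rpow_add (by linarith)]
    norm_num
  have h6 : Z ≤ (X : ℝ) ^ ((1 : ℝ) / 4) * (3600 * (X : ℝ) ^ ((2 : ℝ) / 3)) *
      (Real.exp 3 * (Q : ℝ) ^ 60) := by
    rw [hZ, mul_assoc _ (E * E) E, hE3]
    apply mul_le_mul_of_nonneg_right _ (by positivity)
    exact mul_le_mul_of_nonneg_left hVV2 (by positivity)
  have h7 : Real.exp 3 = Real.exp (-2) * Real.exp 5 := by
    rw [← Real.exp_add]; norm_num
  calc Z ≤ (X : ℝ) ^ ((1 : ℝ) / 4) * (3600 * (X : ℝ) ^ ((2 : ℝ) / 3)) *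
      (Real.exp 3 * (Q : ℝ) ^ 60) := h6
    _ = Real.exp (-2) * ((X : ℝ) ^ ((1 : ℝ) / 4) * (X : ℝ) ^ ((2 : ℝ) / 3) *
        (3600 * Real.exp 5 * (Q : ℝ) ^ 60)) := by rw [h7]; ring
    _ ≤ Real.exp (-2) * ((X : ℝ) ^ ((1 : ℝ) / 4) * (X : ℝ) ^ ((2 : ℝ) / 3) *
        ((X : ℝ) ^ ((1 : ℝ) / 12))) := by
        apply mul_le_mul_of_nonneg_left _ (Real.exp_pos _).le
        apply mul_le_mul_of_nonneg_left _ (by positivity)
        refine le_trans ?_ h2
        apply mul_le_mul_of_nonneg_right _ (by positivity)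
        apply mul_le_mul_of_nonneg_right _ (Real.exp_pos _).le
        norm_num
    _ = Real.exp (-2) * X := by rw [hX11]

lemma hd_v_low {X m : ℕ} (hX : 1 ≤ X) (hm : 1 ≤ m) (h : (m : ℝ) ≤ Real.exp (-2) * X) :
    v X m = 0 := by
  unfold v w
  have hX0 : (0 : ℝ) < X := by exact_mod_cast hX
  have hm0 : (0 : ℝ) < m := by exact_mod_cast hm
  have h1 : Real.log ((m : ℝ) / X) ≤ -2 := by
    rw [Real.log_le_iff_le_exp (by positivity), div_le_iff₀ hX0]
    exact h
  rw [Real.smoothTransition.zero_of_nonpos (by linarith), zero_mul]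

lemma hd_v_high {X m : ℕ} (hX : 1 ≤ X) (h : 60 * X < m) : v X m = 0 := by
  unfold v w
  have hX0 : (0 : ℝ) < X := by exact_mod_cast hX
  have hm0 : (60 : ℝ) * X ≤ m := by exact_mod_cast h.le
  have h1 : 4 ≤ Real.log ((m : ℝ) / X) := by
    rw [Real.le_log_iff_exp_le (div_pos (by linarith) hX0), le_div_iff₀ hX0]
    have h2 : Real.exp 4 ≤ 60 := by
      have h3 : Real.exp 4 = Real.exp 1 ^ 4 := by rw [← Real.exp_nat_mul]; norm_num
      rw [h3]
      calc Real.exp 1 ^ 4 ≤ 2.7182818286 ^ 4 :=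
            pow_le_pow_left₀ (Real.exp_pos 1).le Real.exp_one_lt_d9.le 4
        _ ≤ 60 := by norm_num
    nlinarith
  rw [Real.smoothTransition.zero_of_nonpos (x := 4 - _) (by linarith), mul_zero]

lemma hd_conv (N : ℕ) (α β : ArithmeticFunction ℝ) (F : ℕ → ℂ) (hF : ∀ m, N < m → F m = 0) :
    ∑ m ∈ Icc 1 N, (((α * β) m : ℝ) : ℂ) * F m =
      ∑ a ∈ Icc 1 N, ∑ n ∈ Icc 1 N, (α a : ℂ) * (β n : ℂ) * F (a * n) := by
  have h1 : ∀ m ∈ Icc 1 N, (((α * β) m : ℝ) : ℂ) * F m =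
      ∑ x ∈ m.divisorsAntidiagonal, (α x.1 : ℂ) * (β x.2 : ℂ) * F (x.1 * x.2) := by
    intro m _
    rw [mul_apply]
    push_cast
    rw [Finset.sum_mul]
    apply Finset.sum_congr rfl
    intro x hx
    rw [(Nat.mem_divisorsAntidiagonal.mp hx).1]
  rw [Finset.sum_congr rfl h1, hd_swap N (fun a b => (α a : ℂ) * (β b : ℂ) * F (a * b)),
    ← Finset.sum_product']
  apply Finset.sum_filter_of_ne
  intro x _ hx
  by_contra hc
  push Not at hc
  exact hx (by rw [hF _ hc, mul_zero])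

/-- the two coefficient sequences are small -/
lemma hd_bounds : ∃ K : ℝ, 1 ≤ K ∧ ∀ Q X : ℕ, Reg K Q X →
    hdN (60 * X) (hda1 X) ≤ (Real.log X) ^ (7 : ℝ) ∧
    hdN (60 * X) (hda0 Q X) ≤ (Real.log X) ^ (7 : ℝ) := by
  refine ⟨1000, by norm_num, fun Q X hR => ?_⟩
  have hX : 1 ≤ X := hR.X_pos (by norm_num)
  have hXr : (1000 : ℝ) ≤ X := hR.X_ge (by norm_num)
  have hlX : (1001 : ℝ) ≤ Real.log X := by
    have := hR.logX_ge (by norm_num)
    have h2 := Real.add_one_le_exp (1000 : ℝ)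
    linarith
  set N := 60 * X with hN
  set L := Real.log X with hL
  set H : ℝ := 1 + Real.log N with hH
  have hlogN : Real.log N = Real.log 60 + L := by
    rw [hN, hL]; push_cast
    rw [Real.log_mul (by norm_num) (by positivity)]
  have hlog60 : Real.log 60 ≤ 60 := (Real.log_le_sub_one_of_pos (by norm_num)).trans (by norm_num)
  have hlog60' : 0 ≤ Real.log 60 := Real.log_nonneg (by norm_num)
  have hH2 : H ≤ 2 * L := by rw [hH, hlogN]; linarith
  have hH1 : 1 ≤ H := by rw [hH, hlogN]; linarith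
  have hmu : ∀ a : ℕ, |((moebius a : ℤ) : ℝ)| ≤ 1 := fun a => by
    exact_mod_cast ArithmeticFunction.abs_moebius_le_one
  set u := muV (VV X) with hu
  have hNu : hdN N u ≤ H := by
    have := hdN_le_of (N := N) (f := u) (C := 1) zero_le_one (fun a ha _ => by
      rw [hu]; unfold muV
      rw [hd_af_pos _ ha]
      split_ifs
      · exact hmu a
      · simp)
    linarith
  have hNo : hdN N one1 ≤ H := by
    have := hdN_le_of (N := N) (f := one1) (C := 1) zero_le_one (fun a ha _ => by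
      unfold one1
      rw [hd_af_pos _ ha]
      simp)
    linarith
  have hNs : hdN N (hds Q) ≤ H := by
    have := hdN_le_of (N := N) (f := hds Q) (C := 1) zero_le_one (fun a ha _ => by
      unfold hds
      rw [hd_af_pos _ ha, abs_of_nonneg (hd_rho_nonneg Q a)]
      exact hd_rho_le_one Q a)
    linarith
  have hNsL : hdN N (hdsL Q) ≤ H * H := by
    have := hdN_le_of (N := N) (f := hdsL Q) (C := H) (by linarith) (fun a ha haN => by
      unfold hdsL
      have ha0 : (1 : ℝ) ≤ a := by exact_mod_cast ha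
      have h1 : 0 ≤ Real.log a := Real.log_nonneg ha0
      have h2 : Real.log a ≤ Real.log N := Real.log_le_log (by linarith) (by exact_mod_cast haN)
      rw [hd_af_pos _ ha, abs_of_nonneg (mul_nonneg (hd_rho_nonneg Q a) h1)]
      have h3 := mul_le_mul_of_nonneg_right (hd_rho_le_one Q a) h1
      rw [one_mul] at h3
      linarith)
    exact this
  have n0 := hdN_nonneg N
  have hH0 : 0 ≤ H := by linarith
  have muluu : hdN N (u * u) ≤ H * H :=
    (hdN_mul N u u).trans (mul_le_mul hNu hNu (n0 _) hH0)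
  have muluuu : hdN N (u * u * u) ≤ H * H * H :=
    (hdN_mul N (u * u) u).trans (mul_le_mul muluu hNu (n0 _) (by positivity))
  have a1 : hdN N (u * u * one1) ≤ H * H * H :=
    (hdN_mul N (u * u) one1).trans (mul_le_mul muluu hNo (n0 _) (by positivity))
  have a2 : hdN N (u * u * u * one1) ≤ H * H * H * H :=
    (hdN_mul N (u * u * u) one1).trans (mul_le_mul muluuu hNo (n0 _) (by positivity))
  have a3 : hdN N (u * u * u * one1 * one1) ≤ H * H * H * H * H :=
    (hdN_mul N _ one1).trans (mul_le_mul a2 hNo (n0 _) (by positivity))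
  have b1 : hdN N (u * u * hdsL Q) ≤ H * H * (H * H) :=
    (hdN_mul N (u * u) _).trans (mul_le_mul muluu hNsL (n0 _) (by positivity))
  have b2 : hdN N (u * u * u * hds Q) ≤ H * H * H * H :=
    (hdN_mul N (u * u * u) _).trans (mul_le_mul muluuu hNs (n0 _) (by positivity))
  have b3 : hdN N (u * u * u * hds Q * hdsL Q) ≤ H * H * H * H * (H * H) :=
    (hdN_mul N _ _).trans (mul_le_mul b2 hNsL (n0 _) (by positivity))
  have b4 : hdN N (u * u * u * one1 * hdsL Q) ≤ H * H * H * H * (H * H) :=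
    (hdN_mul N _ _).trans (mul_le_mul a2 hNsL (n0 _) (by positivity))
  have hfin : 7 * H ^ 6 ≤ L ^ (7 : ℝ) := by
    have e : L ^ (7 : ℝ) = L ^ 7 := by rw [← Real.rpow_natCast]; norm_num
    rw [e]
    have h1 : H ^ 6 ≤ (2 * L) ^ 6 := pow_le_pow_left₀ hH0 hH2 6
    have h2 : (0 : ℝ) ≤ L ^ 6 := by positivity
    have e2 : (2 * L) ^ 6 = 64 * L ^ 6 := by ring
    have e3 : L ^ 7 = L ^ 6 * L := by ring
    rw [e2] at h1
    rw [e3]
    nlinarith
  have p1 : H ≤ H ^ 6 := by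
    calc H = H ^ 1 := (pow_one H).symm
      _ ≤ H ^ 6 := pow_le_pow_right₀ hH1 (by norm_num)
  have p3 : H * H * H ≤ H ^ 6 := by
    calc H * H * H = H ^ 3 := by ring
      _ ≤ H ^ 6 := pow_le_pow_right₀ hH1 (by norm_num)
  have p4 : H * H * (H * H) ≤ H ^ 6 := by
    calc H * H * (H * H) = H ^ 4 := by ring
      _ ≤ H ^ 6 := pow_le_pow_right₀ hH1 (by norm_num)
  have p5 : H * H * H * H * H ≤ H ^ 6 := by
    calc H * H * H * H * H = H ^ 5 := by ring
      _ ≤ H ^ 6 := pow_le_pow_right₀ hH1 (by norm_num)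
  have p6 : H * H * H * H * (H * H) ≤ H ^ 6 := le_of_eq (by ring)
  constructor
  · refine le_trans ?_ hfin
    unfold hda1
    rw [← hu]
    refine (hdN_add N _ _).trans ?_
    have s1 := hdN_add N (u + u + u + -(u * u * one1) + -(u * u * one1)) (-(u * u * one1))
    have s2 := hdN_add N (u + u + u + -(u * u * one1)) (-(u * u * one1))
    have s3 := hdN_add N (u + u + u) (-(u * u * one1))
    have s4 := hdN_add N (u + u) u
    have s5 := hdN_add N u u
    have s6 := hdN_neg N (u * u * one1)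
    rw [s6] at s1 s2 s3
    linarith
  · refine le_trans ?_ hfin
    unfold hda0
    rw [← hu]
    refine (hdN_add N _ _).trans ?_
    have s1 := hdN_add N (-(u * u * hdsL Q) + -(u * u * hdsL Q) + -(u * u * hdsL Q))
      (u * u * u * hds Q * hdsL Q)
    have s2 := hdN_add N (-(u * u * hdsL Q) + -(u * u * hdsL Q)) (-(u * u * hdsL Q))
    have s3 := hdN_add N (-(u * u * hdsL Q)) (-(u * u * hdsL Q))
    have s6 := hdN_neg N (u * u * hdsL Q)
    rw [s6] at s2 s3
    linarith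

/-- **Decomposition.** For `Reg K Q X` there are real sequences `α₀, α₁` with
`∑ |α_j(a)|/a ≤ (log X)^7` such that for every character and every `t`,
`F_ψ = FF(ψ hmain) + ∑_j ∑_a α_j(a) ψ(a) a^(-1-it) Long_j(a)`.

Proof. Write (Dirichlet convolutions, `u = μ 1_{≤V}`, `s = ρ`, `l = 1 - ρ`, `sℓ = ρ log`,
`lℓ = (1-ρ) log`, `1 = s + l`, `log = sℓ + lℓ`; `V = VV X`, `60 X < (V+1)³`). `heath_brown` gives on
`m ≤ 60X`: `Λ = [3u*sℓ - 3u²*s*sℓ + u³*s*s*sℓ] + α₁ * lℓ + α₀ * l` with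
`α₁ = 3u - 3u²*1 + u³*1*1`, `α₀ = -3u²*sℓ + u³*s*sℓ + u³*1*sℓ`.
If `v(m) ≠ 0` then `m ≥ X/e²` while `3u*sℓ`, `u²*s*sℓ` live on `m ≤ V² (e Q^20)²  < X/e²`; and in
`u³*s*s*sℓ` each `a_i ≥ (X/e²)/(V² (e Q^20)³) ≥ X^(1/4)`, so `u` may be replaced by `μ 1_{[A,V]}`,
which gives `hmain`. Twisting by `ψ` is harmless because `ψ` is completely multiplicative.
The bound for `α_j`: all factors are bounded by `1` or `log (60X)` and supported in `[1, 60X]` after
truncation, so `∑_{a ≤ 60X} |α_j(a)|/a ≤ 7 (1 + log(60X))^6 ≤ (log X)^7`.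
Note `Long j a` has `v(a n)` and `n ≤ 60X`; for `a > 60X` it vanishes. -/
theorem decomposition : ∃ K : ℝ, ∀ Q X : ℕ, Reg K Q X → ∃ α : ℕ → ℕ → ℝ,
    (∀ j ∈ range 2, ∑ a ∈ Icc 1 (60 * X), |α j a| / a ≤ (Real.log X) ^ (7 : ℝ)) ∧
    ∀ (p : Σ r : ℕ, DirichletCharacter ℂ r), 1 ≤ p.1 → ∀ t : ℝ,
      FL X p t = FF X (fun m => (hmain Q X m : ℂ) * p.2 (m : ZMod p.1)) t +
        ∑ j ∈ range 2, ∑ a ∈ Icc 1 (60 * X), (α j a : ℂ) * p.2 (a : ZMod p.1) *
          (a : ℂ) ^ (-(1 + t * Complex.I)) * Long Q X p j a t := by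
  obtain ⟨K1, hK1, herr⟩ := hd_err
  obtain ⟨K2, hK2, hbd⟩ := hd_bounds
  refine ⟨K1 + K2, fun Q X hR => ?_⟩
  have hR1 : Reg K1 Q X := hR.mono (by linarith) (by linarith)
  have hR2 : Reg K2 Q X := hR.mono (by linarith) (by linarith)
  have hX : 1 ≤ X := hR1.X_pos (by linarith)
  set N := 60 * X with hN
  refine ⟨fun j a => if j = 0 then hda0 Q X a else hda1 X a, ?_, ?_⟩
  · intro j hj
    rw [Finset.mem_range] at hj
    interval_cases j
    · exact (hbd Q X hR2).2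
    · exact (hbd Q X hR2).1
  · intro p hp t
    set F : ℕ → ℂ := fun m => p.2 (m : ZMod p.1) * (v X m : ℂ) * (m : ℂ) ^ (-(1 + t * Complex.I))
      with hF
    have hFhigh : ∀ m, N < m → F m = 0 := by
      intro m hm
      rw [hF]
      simp only
      rw [hd_v_high hX hm]
      simp
    have hFL : FL X p t = ∑ m ∈ Icc 1 N, (vonMangoldt m : ℂ) * F m := by
      unfold FL FF
      apply Finset.sum_congr rfl
      intro m _
      rw [hF]; ring
    have hFm : FF X (fun m => (hmain Q X m : ℂ) * p.2 (m : ZMod p.1)) t =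
        ∑ m ∈ Icc 1 N, (hmain Q X m : ℂ) * F m := by
      unfold FF
      apply Finset.sum_congr rfl
      intro m _
      rw [hF]; ring
    have hkey : ∀ m ∈ Icc 1 N, (vonMangoldt m : ℂ) * F m = (hmain Q X m : ℂ) * F m +
        ((((hda1 X * hdlL Q) m : ℝ) : ℂ) * F m + (((hda0 Q X * hdl Q) m : ℝ) : ℂ) * F m) := by
      intro m hm
      rw [Finset.mem_Icc] at hm
      rcases le_or_gt (m : ℝ) (Real.exp (-2) * X) with h | h
      · have : F m = 0 := by
          rw [hF]; simp only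
          rw [hd_v_low hX hm.1 h]; simp
        rw [this]; simp
      · have e1 := herr Q X hR1 m h
        have hV : m < (VV X + 1) ^ 3 := by
          have h1 : (m : ℝ) ≤ ((60 * X : ℕ) : ℝ) := by exact_mod_cast hm.2
          have h2 : ((60 * X : ℕ) : ℝ) ^ ((1 : ℝ) / 3) < (VV X : ℝ) + 1 := Nat.lt_floor_add_one _
          have h3 : ((60 * X : ℕ) : ℝ) = (((60 * X : ℕ) : ℝ) ^ ((1 : ℝ) / 3)) ^ 3 := by
            rw [← Real.rpow_natCast, ← Real.rpow_mul (by positivity)]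
            norm_num
          have h4 : (((60 * X : ℕ) : ℝ) ^ ((1 : ℝ) / 3)) ^ 3 < ((VV X : ℝ) + 1) ^ 3 :=
            pow_lt_pow_left₀ h2 (by positivity) (by norm_num)
          have h5 : (m : ℝ) < ((VV X : ℝ) + 1) ^ 3 := by
            rw [← h3] at h4; linarith
          exact_mod_cast h5
        have e2 := heath_brown (VV X) m hV
        rw [hd_ring Q X, ArithmeticFunction.add_apply, e1, add_zero, ArithmeticFunction.add_apply,
          ArithmeticFunction.add_apply] at e2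
        rw [e2]
        push_cast
        ring
    rw [hFL, hFm, Finset.sum_congr rfl hkey, Finset.sum_add_distrib, Finset.sum_add_distrib,
      hd_conv N _ _ F hFhigh, hd_conv N _ _ F hFhigh]
    congr 1
    rw [Finset.sum_range_succ, Finset.sum_range_one, add_comm]
    have hFmul : ∀ a n : ℕ, F (a * n) = p.2 (a : ZMod p.1) * p.2 (n : ZMod p.1) *
        (v X (a * n) : ℂ) * ((a : ℂ) ^ (-(1 + t * Complex.I)) *
        (n : ℂ) ^ (-(1 + t * Complex.I))) := by
      intro a n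
      rw [hF]
      simp only
      rw [Nat.cast_mul, map_mul]
      have : ((a * n : ℕ) : ℂ) ^ (-(1 + t * Complex.I)) = (a : ℂ) ^ (-(1 + t * Complex.I)) *
        (n : ℂ) ^ (-(1 + t * Complex.I)) := by
        push_cast
        exact Complex.natCast_mul_natCast_cpow a n _
      rw [this]
    congr 1
    · apply Finset.sum_congr rfl
      intro a _
      beta_reduce
      simp only [if_true]
      unfold Long
      rw [Finset.mul_sum]
      apply Finset.sum_congr rfl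
      intro n hn
      rw [Finset.mem_Icc] at hn
      rw [hFmul]
      unfold hdl
      rw [hd_af_pos _ hn.1]
      push_cast
      ring
    · apply Finset.sum_congr rfl
      intro a _
      beta_reduce
      simp only [one_ne_zero, if_false]
      unfold Long
      rw [Finset.mul_sum]
      apply Finset.sum_congr rfl
      intro n hn
      rw [Finset.mem_Icc] at hn
      rw [hFmul]
      unfold hdlL
      rw [hd_af_pos _ hn.1]
      push_cast
      ring

end Pool.Agent.Lib.H68T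
end
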