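import Pool.Agent.Lib.H59M.M1.M010
import Pool.Agent.Lib.H59M.M1.M011

/-! Merged copies (to shorten the build) of Lib.H68T.DB. -/

-- from Lib.H68T.DB
section

/-!
# Chunk DB: `lp - lp * kern` is Fourier uniform
-/

open Finset

namespace Pool.Agent.Lib.H68T

/-! ## The tent -/

theorem DB_tent_nonneg (Y : ℕ) (z : ℤ) : 0 ≤ tent Y z :=
  div_nonneg (le_max_left _ _) (sq_nonneg _)

theorem DB_tent_le (Y : ℕ) (hY : 1 ≤ Y) (z : ℤ) : tent Y z ≤ 1 / Y := by
  have hY0 : (0 : ℝ) < Y := by exact_mod_cast hY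
  unfold tent
  rw [div_le_div_iff₀ (by positivity) hY0]
  have h1 : max 0 ((Y : ℝ) - |(z : ℝ)|) ≤ Y :=
    max_le hY0.le (by linarith [abs_nonneg (z : ℝ)])
  calc max 0 ((Y : ℝ) - |(z : ℝ)|) * Y ≤ Y * Y := mul_le_mul_of_nonneg_right h1 hY0.le
    _ = 1 * (Y : ℝ) ^ 2 := by ring

theorem DB_tent_lip (Y : ℕ) (hY : 1 ≤ Y) (z : ℤ) :
    |tent Y (z + 1) - tent Y z| ≤ 1 / (Y : ℝ) ^ 2 := by
  have hY0 : (0 : ℝ) < Y := by exact_mod_cast hY
  unfold tent
  rw [← sub_div, abs_div, abs_of_pos (show (0 : ℝ) < (Y : ℝ) ^ 2 by positivity)]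
  apply div_le_div_of_nonneg_right _ (by positivity)
  have h1 := abs_max_sub_max_le_abs ((Y : ℝ) - |((z + 1 : ℤ) : ℝ)|) ((Y : ℝ) - |(z : ℝ)|) 0
  rw [max_comm, max_comm 0 ((Y : ℝ) - |(z : ℝ)|)]
  refine h1.trans ?_
  have e1 : (Y : ℝ) - |((z + 1 : ℤ) : ℝ)| - ((Y : ℝ) - |(z : ℝ)|) =
      |(z : ℝ)| - |((z + 1 : ℤ) : ℝ)| := by ring
  rw [e1]
  refine (abs_abs_sub_abs_le _ _).trans ?_
  push_cast
  have e2 : (z : ℝ) - (z + 1) = -1 := by ring
  rw [e2, abs_neg, abs_one]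

theorem DB_tent_count (Y : ℕ) : ∑ z ∈ Ioo (-(Y : ℤ)) Y, ((Y : ℝ) - |(z : ℝ)|) = (Y : ℝ) ^ 2 := by
  induction Y with
  | zero => simp
  | succ Y ih =>
    have e1 : Ioo (-((Y + 1 : ℕ) : ℤ)) ((Y + 1 : ℕ) : ℤ) = Icc (-(Y : ℤ)) Y := by
      ext z
      simp only [mem_Ioo, mem_Icc]
      push_cast
      omega
    rw [e1]
    have e2 : ∑ z ∈ Icc (-(Y : ℤ)) Y, (((Y + 1 : ℕ) : ℝ) - |(z : ℝ)|) =
        ∑ z ∈ Icc (-(Y : ℤ)) Y, ((Y : ℝ) - |(z : ℝ)|) + ∑ z ∈ Icc (-(Y : ℤ)) Y, (1 : ℝ) := by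
      rw [← sum_add_distrib]
      refine sum_congr rfl fun z _ => ?_
      push_cast
      ring
    rw [e2]
    have e3 : ∑ z ∈ Icc (-(Y : ℤ)) Y, ((Y : ℝ) - |(z : ℝ)|) =
        ∑ z ∈ Ioo (-(Y : ℤ)) Y, ((Y : ℝ) - |(z : ℝ)|) := by
      symm
      apply sum_subset
      · intro z hz
        rw [mem_Ioo] at hz
        rw [mem_Icc]
        omega
      · intro z hz hz'
        rw [mem_Icc] at hz
        rw [mem_Ioo] at hz'
        have h1 : z = Y ∨ z = -Y := by omega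
        rcases h1 with h | h
        · rw [h]; simp
        · rw [h]; simp
    rw [e3, ih, sum_const, Int.card_Icc, nsmul_eq_mul, mul_one]
    have e4 : ((((Y : ℤ) + 1 - -(Y : ℤ)).toNat : ℕ) : ℝ) = 2 * Y + 1 := by
      have : ((Y : ℤ) + 1 - -(Y : ℤ)).toNat = 2 * Y + 1 := by omega
      rw [this]; push_cast; ring
    rw [e4]
    push_cast
    ring

theorem DB_tent_sum (Y : ℕ) (hY : 1 ≤ Y) : ∑ z ∈ Ioo (-(Y : ℤ)) Y, tent Y z = 1 := by
  have hY0 : (0 : ℝ) < Y := by exact_mod_cast hY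
  have h1 : ∑ z ∈ Ioo (-(Y : ℤ)) Y, tent Y z =
      (∑ z ∈ Ioo (-(Y : ℤ)) Y, ((Y : ℝ) - |(z : ℝ)|)) / (Y : ℝ) ^ 2 := by
    rw [sum_div]
    refine sum_congr rfl fun z hz => ?_
    rw [mem_Ioo] at hz
    unfold tent
    rw [max_eq_right]
    have : |(z : ℝ)| ≤ Y := by
      rw [abs_le]
      constructor
      · exact_mod_cast hz.1.le
      · exact_mod_cast hz.2.le
    linarith
  rw [h1, DB_tent_count]
  exact div_self (by positivity)

/-- summation by parts against the tent -/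
theorem DB_parts (Y : ℕ) (β : ℝ) (p : ℤ) (n : ℕ) :
    (e β - 1) * ∑ z ∈ Ico p (p + n), (tent Y z : ℂ) * e (z * β) =
      (tent Y (p + n) : ℂ) * e ((p + n : ℤ) * β) - (tent Y p : ℂ) * e (p * β) -
      ∑ z ∈ Ico p (p + n), ((tent Y (z + 1) - tent Y z : ℝ) : ℂ) * e ((z + 1 : ℤ) * β) := by
  induction n with
  | zero => simp
  | succ n ih =>
    have h1 : Finset.Ico p (p + ((n + 1 : ℕ) : ℤ)) = insert (p + n) (Finset.Ico p (p + n)) := by
      ext x
      simp only [Finset.mem_insert, Finset.mem_Ico]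
      push_cast
      omega
    have h2 : (p + n : ℤ) ∉ Finset.Ico p (p + n) := by simp
    rw [h1, Finset.sum_insert h2, Finset.sum_insert h2, mul_add, ih]
    have h3 : e (((p + n + 1 : ℤ) : ℝ) * β) = e β * e (((p + n : ℤ) : ℝ) * β) := by
      rw [← VB_e_add]
      congr 1
      push_cast
      ring
    have h4 : (p + ((n + 1 : ℕ) : ℤ)) = p + n + 1 := by push_cast; ring
    rw [h4, h3]
    push_cast
    ring

theorem DB_tent_exp (Y : ℕ) (hY : 1 ≤ Y) (β : ℝ) (p q : ℤ) (hpq : p ≤ q)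
    (hlen : q - p ≤ 2 * Y) :
    ‖e β - 1‖ * ‖∑ z ∈ Ico p q, (tent Y z : ℂ) * e (z * β)‖ ≤ 4 / Y := by
  have hY0 : (0 : ℝ) < Y := by exact_mod_cast hY
  obtain ⟨n, rfl⟩ : ∃ n : ℕ, q = p + n := ⟨(q - p).toNat, by omega⟩
  rw [← norm_mul, DB_parts]
  have hn : (n : ℝ) ≤ 2 * Y := by
    have : (n : ℤ) ≤ 2 * Y := by omega
    exact_mod_cast this
  have h1 : ‖(tent Y (p + n) : ℂ) * e ((p + n : ℤ) * β)‖ ≤ 1 / Y := by
    rw [norm_mul, VB_norm_e, mul_one, Complex.norm_real, Real.norm_eq_abs,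
      abs_of_nonneg (DB_tent_nonneg _ _)]
    exact DB_tent_le Y hY _
  have h2 : ‖(tent Y p : ℂ) * e (p * β)‖ ≤ 1 / Y := by
    rw [norm_mul, VB_norm_e, mul_one, Complex.norm_real, Real.norm_eq_abs,
      abs_of_nonneg (DB_tent_nonneg _ _)]
    exact DB_tent_le Y hY _
  have h3 : ‖∑ z ∈ Ico p (p + n), ((tent Y (z + 1) - tent Y z : ℝ) : ℂ) *
      e ((z + 1 : ℤ) * β)‖ ≤ 2 / Y := by
    calc _ ≤ ∑ z ∈ Ico p (p + (n : ℤ)), 1 / (Y : ℝ) ^ 2 := by
          refine (norm_sum_le _ _).trans (sum_le_sum fun z _ => ?_)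
          rw [norm_mul, VB_norm_e, mul_one, Complex.norm_real, Real.norm_eq_abs]
          exact DB_tent_lip Y hY z
      _ = n * (1 / (Y : ℝ) ^ 2) := by
          rw [sum_const, Int.card_Ico, nsmul_eq_mul]
          have : (p + (n : ℤ) - p).toNat = n := by omega
          rw [this]
      _ ≤ (2 * Y) * (1 / (Y : ℝ) ^ 2) := mul_le_mul_of_nonneg_right hn (by positivity)
      _ = 2 / Y := by field_simp
  calc _ ≤ ‖(tent Y (p + n) : ℂ) * e ((p + n : ℤ) * β)‖ + ‖(tent Y p : ℂ) * e (p * β)‖ +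
        ‖∑ z ∈ Ico p (p + n), ((tent Y (z + 1) - tent Y z : ℝ) : ℂ) *
          e ((z + 1 : ℤ) * β)‖ := by
        refine (norm_sub_le _ _).trans ?_
        exact add_le_add (norm_sub_le _ _) le_rfl
    _ ≤ 1 / Y + 1 / Y + 2 / Y := add_le_add (add_le_add h1 h2) h3
    _ = 4 / Y := by ring

/-! ## Exponential sums over primes -/

/-- `∑_{n ∈ [a,b)} lp(n) e(nθ)` -/
noncomputable def DB_S (θ : ℝ) (a b : ℤ) : ℂ := ∑ n ∈ Ico a b, (lp n : ℂ) * e (n * θ)

theorem DB_lp_bounds (m : ℤ) (Z : ℝ) (hm : 1 ≤ m) (hZ : (m : ℝ) ≤ Z) :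
    0 ≤ lp m ∧ lp m ≤ Real.log Z := by
  have h1 : (1 : ℝ) ≤ m := by exact_mod_cast hm
  have h2 : 0 ≤ Real.log m := Real.log_nonneg h1
  have h3 : Real.log m ≤ Real.log Z := Real.log_le_log (by linarith) hZ
  unfold lp
  split_ifs
  · exact ⟨h2, h3⟩
  · exact ⟨le_refl _, h2.trans h3⟩

theorem DB_S_le (θ : ℝ) (u v : ℤ) (Z : ℝ) (hu : 1 ≤ u) (huv : u ≤ v) (hZ : (v : ℝ) ≤ Z) :
    ‖DB_S θ u v‖ ≤ (v - u) * Real.log Z := by
  unfold DB_S
  calc _ ≤ ∑ n ∈ Ico u v, Real.log Z := by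
        refine (norm_sum_le _ _).trans (sum_le_sum fun n hn => ?_)
        rw [mem_Ico] at hn
        have h1 : (n : ℝ) ≤ v := by exact_mod_cast hn.2.le
        obtain ⟨h2, h3⟩ := DB_lp_bounds n Z (by omega) (h1.trans hZ)
        rw [norm_mul, VB_norm_e, mul_one, Complex.norm_real, Real.norm_eq_abs, abs_of_nonneg h2]
        exact h3
    _ = (v - u) * Real.log Z := by
        rw [sum_const, Int.card_Ico, nsmul_eq_mul]
        have : (((v - u).toNat : ℤ) : ℝ) = ((v - u : ℤ) : ℝ) := by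
          rw [Int.toNat_of_nonneg (by omega)]
        push_cast at this
        rw [this]

theorem DB_S_add (θ : ℝ) (a b c : ℤ) (hab : a ≤ b) (hbc : b ≤ c) :
    DB_S θ a b + DB_S θ b c = DB_S θ a c := by
  unfold DB_S
  rw [← sum_union]
  · congr 1
    ext x
    simp only [mem_union, mem_Ico]
    omega
  · rw [disjoint_left]
    intro x hx hx'
    rw [mem_Ico] at hx hx'
    omega

/-- shifting an interval -/
theorem DB_S_shift (θ : ℝ) (a b z : ℤ) (Y : ℕ) (Z : ℝ) (hab : a ≤ b) (ha : (Y : ℤ) + 1 ≤ a)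
    (hZ : (b : ℝ) + Y ≤ Z) (hz : -(Y : ℤ) ≤ z) (hz' : z ≤ Y) (hZ1 : 1 ≤ Z) :
    ‖DB_S θ a b - DB_S θ (a - z) (b - z)‖ ≤ 2 * Y * Real.log Z := by
  have hlZ : 0 ≤ Real.log Z := Real.log_nonneg hZ1
  have hzY : (z : ℝ) ≤ Y := by exact_mod_cast hz'
  have hzY' : -(z : ℝ) ≤ Y := by
    have : -z ≤ (Y : ℤ) := by omega
    exact_mod_cast this
  rcases le_total 0 z with h0 | h0
  · have h1 := DB_S_add θ (a - z) a b (by omega) hab
    have h2 := DB_S_add θ (a - z) (b - z) b (by omega) (by omega)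
    have h3 : DB_S θ a b - DB_S θ (a - z) (b - z) = DB_S θ (b - z) b - DB_S θ (a - z) a := by
      rw [← h2] at h1
      linear_combination h1
    rw [h3]
    have hYr : (0 : ℝ) ≤ Y := by positivity
    have h4 := DB_S_le θ (b - z) b Z (by omega) (by omega) (by linarith)
    have h5 := DB_S_le θ (a - z) a Z (by omega) (by omega)
      (by
        have : (a : ℝ) ≤ b := by exact_mod_cast hab
        linarith)
    push_cast at h4 h5
    have e1 : (b : ℝ) - (b - z) = z := by ring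
    have e2 : (a : ℝ) - (a - z) = z := by ring
    rw [e1] at h4
    rw [e2] at h5
    have h6 : (z : ℝ) * Real.log Z ≤ Y * Real.log Z := mul_le_mul_of_nonneg_right hzY hlZ
    calc _ ≤ ‖DB_S θ (b - z) b‖ + ‖DB_S θ (a - z) a‖ := norm_sub_le _ _
      _ ≤ Y * Real.log Z + Y * Real.log Z := add_le_add (h4.trans h6) (h5.trans h6)
      _ = _ := by ring
  · have h1 := DB_S_add θ a (a - z) (b - z) (by omega) (by omega)
    have h2 := DB_S_add θ a b (b - z) hab (by omega)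
    have h3 : DB_S θ a b - DB_S θ (a - z) (b - z) = DB_S θ a (a - z) - DB_S θ b (b - z) := by
      rw [← h2] at h1
      linear_combination -h1
    rw [h3]
    have hbz : ((b - z : ℤ) : ℝ) ≤ Z := by push_cast; linarith
    have haz : ((a - z : ℤ) : ℝ) ≤ Z := by
      have : (a : ℝ) ≤ b := by exact_mod_cast hab
      push_cast; linarith
    have h4 := DB_S_le θ b (b - z) Z (by omega) (by omega) hbz
    have h5 := DB_S_le θ a (a - z) Z (by omega) (by omega) haz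
    push_cast at h4 h5
    have e1 : (b : ℝ) - z - b = -z := by ring
    have e2 : (a : ℝ) - z - a = -z := by ring
    rw [e1] at h4
    rw [e2] at h5
    have h6 : -(z : ℝ) * Real.log Z ≤ Y * Real.log Z := mul_le_mul_of_nonneg_right hzY' hlZ
    calc _ ≤ ‖DB_S θ a (a - z)‖ + ‖DB_S θ b (b - z)‖ := norm_sub_le _ _
      _ ≤ Y * Real.log Z + Y * Real.log Z := add_le_add (h5.trans h6) (h4.trans h6)
      _ = _ := by ring

/-- the smoothed sum at the frequency `β` -/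
noncomputable def DB_T (θ : ℝ) (Y : ℕ) (a b : ℤ) (β : ℝ) : ℂ :=
  ∑ z ∈ Ioo (-(Y : ℤ)) Y, (tent Y z : ℂ) * e (z * β) * DB_S θ (a - z) (b - z)

theorem DB_T_le (θ : ℝ) (Y : ℕ) (hY : 1 ≤ Y) (a b : ℤ) (β U : ℝ)
    (h : ∀ z ∈ Ioo (-(Y : ℤ)) Y, ‖DB_S θ (a - z) (b - z)‖ ≤ U) : ‖DB_T θ Y a b β‖ ≤ U := by
  unfold DB_T
  calc _ ≤ ∑ z ∈ Ioo (-(Y : ℤ)) Y, tent Y z * U := by
        refine (norm_sum_le _ _).trans (sum_le_sum fun z hz => ?_)
        rw [norm_mul, norm_mul, VB_norm_e, mul_one, Complex.norm_real, Real.norm_eq_abs,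
          abs_of_nonneg (DB_tent_nonneg _ _)]
        exact mul_le_mul_of_nonneg_left (h z hz) (DB_tent_nonneg _ _)
    _ = U := by rw [← sum_mul, DB_tent_sum Y hY, one_mul]

/-- near a rational: the smoothed sum reproduces the sum -/
theorem DB_near (θ : ℝ) (Y : ℕ) (hY : 1 ≤ Y) (a b : ℤ) (β Z : ℝ) (hab : a ≤ b)
    (ha : (Y : ℤ) + 1 ≤ a) (hZ : (b : ℝ) + Y ≤ Z) (hZ1 : 1 ≤ Z) :
    ‖DB_S θ a b - DB_T θ Y a b β‖ ≤ 2 * Y * Real.log Z + 7 * Y * nd β * ((b - a) * Real.log Z) := by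
  have hlZ : 0 ≤ Real.log Z := Real.log_nonneg hZ1
  have hY0 : (0 : ℝ) < Y := by exact_mod_cast hY
  have hab' : (a : ℝ) ≤ b := by exact_mod_cast hab
  have hnd : 0 ≤ nd β := abs_nonneg _
  have e0 : DB_S θ a b = ∑ z ∈ Ioo (-(Y : ℤ)) Y, (tent Y z : ℂ) * DB_S θ a b := by
    rw [← sum_mul, ← Complex.ofReal_sum, DB_tent_sum Y hY, Complex.ofReal_one, one_mul]
  have e1 : DB_S θ a b - DB_T θ Y a b β = ∑ z ∈ Ioo (-(Y : ℤ)) Y, (tent Y z : ℂ) *
      (DB_S θ a b - e (z * β) * DB_S θ (a - z) (b - z)) := by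
    conv_lhs => rw [e0]
    unfold DB_T
    rw [← sum_sub_distrib]
    refine sum_congr rfl fun z _ => ?_
    ring
  rw [e1]
  calc _ ≤ ∑ z ∈ Ioo (-(Y : ℤ)) Y, tent Y z *
        (2 * Y * Real.log Z + 7 * Y * nd β * ((b - a) * Real.log Z)) := by
        refine (norm_sum_le _ _).trans (sum_le_sum fun z hz => ?_)
        rw [norm_mul, Complex.norm_real, Real.norm_eq_abs, abs_of_nonneg (DB_tent_nonneg _ _)]
        refine mul_le_mul_of_nonneg_left ?_ (DB_tent_nonneg _ _)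
        rw [mem_Ioo] at hz
        have e2 : DB_S θ a b - e (z * β) * DB_S θ (a - z) (b - z) =
            (DB_S θ a b - DB_S θ (a - z) (b - z)) + (1 - e (z * β)) * DB_S θ (a - z) (b - z) := by
          ring
        rw [e2]
        refine (norm_add_le _ _).trans (add_le_add ?_ ?_)
        · exact DB_S_shift θ a b z Y Z hab ha hZ hz.1.le hz.2.le hZ1
        · rw [norm_mul]
          refine mul_le_mul ?_ ?_ (norm_nonneg _) (by positivity)
          · -- `|1 - e(zβ)| ≤ 2π |z| ‖β‖`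
            have h1 : e (z * β) = e (z * (β - round β)) := by
              have h : (z : ℝ) * β = z * (β - round β) + ((z * round β : ℤ) : ℝ) := by
                push_cast; ring
              rw [h, VB_e_add, VB_e_int, mul_one]
            rw [h1, norm_sub_rev]
            have h2 : e (z * (β - round β)) =
                Complex.exp (Complex.I * ((2 * Real.pi * (z * (β - round β)) : ℝ) : ℂ)) := by
              unfold e
              congr 1
              push_cast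
              ring
            rw [h2]
            refine (Real.norm_exp_I_mul_ofReal_sub_one_le).trans ?_
            rw [Real.norm_eq_abs, abs_mul, abs_mul, abs_mul, abs_two, abs_of_pos Real.pi_pos]
            have h3 : |(z : ℝ)| ≤ Y := by
              rw [abs_le]
              constructor
              · have : -(Y : ℤ) ≤ z := hz.1.le
                exact_mod_cast this
              · have : z ≤ (Y : ℤ) := hz.2.le
                exact_mod_cast this
            have h4 : Real.pi ≤ 7 / 2 := by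
              have := Real.pi_lt_d2
              linarith
            have h5 : |β - round β| = nd β := rfl
            rw [h5]
            calc 2 * Real.pi * (|(z : ℝ)| * nd β) ≤ 2 * (7 / 2) * (Y * nd β) := by gcongr
              _ = 7 * Y * nd β := by ring
          · have h1 := DB_S_le θ (a - z) (b - z) Z (by omega) (by omega) (by
              have : -(z : ℝ) ≤ Y := by
                have : -z ≤ (Y : ℤ) := by omega
                exact_mod_cast this
              push_cast; linarith)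
            push_cast at h1
            have e3 : (b : ℝ) - z - (a - z) = b - a := by ring
            rwa [e3] at h1
    _ = _ := by rw [← sum_mul, DB_tent_sum Y hY, one_mul]

/-- far from a rational: the smoothed sum is tiny -/
theorem DB_far (θ : ℝ) (Y : ℕ) (hY : 1 ≤ Y) (a b : ℤ) (β Z : ℝ) (hab : a ≤ b)
    (ha : (Y : ℤ) + 1 ≤ a) (hZ : (b : ℝ) + Y ≤ Z) (hZ1 : 1 ≤ Z) :
    ‖e β - 1‖ * ‖DB_T θ Y a b β‖ ≤ 4 / Y * ((b - a + 2 * Y) * Real.log Z) := by
  have hlZ : 0 ≤ Real.log Z := Real.log_nonneg hZ1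
  have hY0 : (0 : ℝ) < Y := by exact_mod_cast hY
  -- interchange
  have e1 : DB_T θ Y a b β = ∑ n ∈ Ico (a - Y) (b + Y), (lp n : ℂ) * e (n * θ) *
      ∑ z ∈ (Ioo (-(Y : ℤ)) Y).filter (fun z => a - z ≤ n ∧ n < b - z),
        (tent Y z : ℂ) * e (z * β) := by
    unfold DB_T
    have h1 : ∀ z ∈ Ioo (-(Y : ℤ)) Y, (tent Y z : ℂ) * e (z * β) * DB_S θ (a - z) (b - z) =
        ∑ n ∈ Ico (a - Y) (b + Y), if a - z ≤ n ∧ n < b - z then
          (lp n : ℂ) * e (n * θ) * ((tent Y z : ℂ) * e (z * β)) else 0 := by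
      intro z hz
      rw [mem_Ioo] at hz
      unfold DB_S
      rw [mul_sum, ← sum_filter]
      have h2 : (Ico (a - Y) (b + Y)).filter (fun n => a - z ≤ n ∧ n < b - z) =
          Ico (a - z) (b - z) := by
        ext n
        simp only [mem_filter, mem_Ico]
        omega
      rw [h2]
      refine sum_congr rfl fun n _ => ?_
      ring
    rw [sum_congr rfl h1, sum_comm]
    refine sum_congr rfl fun n _ => ?_
    rw [mul_sum, sum_filter]
  rw [e1]
  have h2 : ‖∑ n ∈ Ico (a - Y) (b + Y), (lp n : ℂ) * e (n * θ) *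
      ∑ z ∈ (Ioo (-(Y : ℤ)) Y).filter (fun z => a - z ≤ n ∧ n < b - z),
        (tent Y z : ℂ) * e (z * β)‖ ≤ ∑ n ∈ Ico (a - Y) (b + Y), Real.log Z *
      ‖∑ z ∈ (Ioo (-(Y : ℤ)) Y).filter (fun z => a - z ≤ n ∧ n < b - z),
        (tent Y z : ℂ) * e (z * β)‖ := by
    refine (norm_sum_le _ _).trans (sum_le_sum fun n hn => ?_)
    rw [mem_Ico] at hn
    have h1 : (n : ℝ) ≤ b + Y := by
      have : n ≤ b + (Y : ℤ) := hn.2.le
      exact_mod_cast this
    obtain ⟨h2, h3⟩ := DB_lp_bounds n Z (by omega) (h1.trans hZ)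
    rw [norm_mul, norm_mul, VB_norm_e, mul_one, Complex.norm_real, Real.norm_eq_abs,
      abs_of_nonneg h2]
    exact mul_le_mul_of_nonneg_right h3 (norm_nonneg _)
  have h3 : ∀ n ∈ Ico (a - Y) (b + Y), ‖e β - 1‖ *
      (Real.log Z * ‖∑ z ∈ (Ioo (-(Y : ℤ)) Y).filter (fun z => a - z ≤ n ∧ n < b - z),
        (tent Y z : ℂ) * e (z * β)‖) ≤ Real.log Z * (4 / Y) := by
    intro n _
    have e2 : (Ioo (-(Y : ℤ)) Y).filter (fun z => a - z ≤ n ∧ n < b - z) =
        Ico (max (-(Y : ℤ) + 1) (a - n)) (min (Y : ℤ) (b - n)) := by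
      ext z
      simp only [mem_filter, mem_Ioo, mem_Ico, max_le_iff, lt_min_iff]
      omega
    rw [e2]
    have e3 : ‖e β - 1‖ * (Real.log Z *
        ‖∑ z ∈ Ico (max (-(Y : ℤ) + 1) (a - n)) (min (Y : ℤ) (b - n)),
          (tent Y z : ℂ) * e (z * β)‖) = Real.log Z * (‖e β - 1‖ *
        ‖∑ z ∈ Ico (max (-(Y : ℤ) + 1) (a - n)) (min (Y : ℤ) (b - n)),
          (tent Y z : ℂ) * e (z * β)‖) := by ring
    rw [e3]
    apply mul_le_mul_of_nonneg_left _ hlZ
    rcases le_total (max (-(Y : ℤ) + 1) (a - n)) (min (Y : ℤ) (b - n)) with hle | hle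
    · refine DB_tent_exp Y hY β _ _ hle ?_
      have h4 : min (Y : ℤ) (b - n) ≤ Y := min_le_left _ _
      have h5 : -(Y : ℤ) + 1 ≤ max (-(Y : ℤ) + 1) (a - n) := le_max_left _ _
      omega
    · rw [Ico_eq_empty_of_le hle, sum_empty, norm_zero, mul_zero]
      positivity
  calc _ ≤ ‖e β - 1‖ * ∑ n ∈ Ico (a - Y) (b + Y), Real.log Z *
      ‖∑ z ∈ (Ioo (-(Y : ℤ)) Y).filter (fun z => a - z ≤ n ∧ n < b - z),
        (tent Y z : ℂ) * e (z * β)‖ := mul_le_mul_of_nonneg_left h2 (norm_nonneg _)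
    _ ≤ ∑ n ∈ Ico (a - Y) (b + Y), Real.log Z * (4 / Y) := by
        rw [mul_sum]
        exact sum_le_sum h3
    _ = 4 / Y * ((b - a + 2 * Y) * Real.log Z) := by
        rw [sum_const, Int.card_Ico, nsmul_eq_mul]
        have : ((((b + Y) - (a - Y)).toNat : ℤ) : ℝ) = (((b + Y) - (a - Y) : ℤ) : ℝ) := by
          rw [Int.toNat_of_nonneg (by omega)]
        push_cast at this
        rw [this]
        ring

/-- expansion of the projection in frequencies -/
theorem DB_expand (θ : ℝ) (Q Y : ℕ) (a b : ℤ) :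
    ∑ m ∈ Ico a b, (Lk Q Y m : ℂ) * e (m * θ) =
      ∑ q ∈ Icc 1 Q, ∑ α ∈ (range q).filter (fun α => Nat.Coprime α q),
        DB_T θ Y a b (θ + (α : ℝ) / q) := by
  have h1 : ∀ m : ℤ, (Lk Q Y m : ℂ) * e (m * θ) = ∑ z ∈ Ioo (-(Y : ℤ)) Y,
      (kern Q Y z : ℂ) * e (z * θ) * ((lp (m - z) : ℂ) * e ((m - z : ℤ) * θ)) := by
    intro m
    unfold Lk
    rw [Complex.ofReal_sum, sum_mul]
    refine sum_congr rfl fun z _ => ?_
    have : e (m * θ) = e (z * θ) * e ((m - z : ℤ) * θ) := by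
      rw [← VB_e_add]
      congr 1
      push_cast
      ring
    rw [this]
    push_cast
    ring
  have h2 : ∑ m ∈ Ico a b, (Lk Q Y m : ℂ) * e (m * θ) = ∑ z ∈ Ioo (-(Y : ℤ)) Y,
      (kern Q Y z : ℂ) * e (z * θ) * DB_S θ (a - z) (b - z) := by
    rw [sum_congr rfl fun m _ => h1 m, sum_comm]
    refine sum_congr rfl fun z _ => ?_
    rw [← mul_sum]
    congr 1
    unfold DB_S
    refine sum_nbij' (fun m => m - z) (fun n => n + z) ?_ ?_ ?_ ?_ ?_
    · intro m hm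
      rw [mem_Ico] at hm ⊢
      omega
    · intro n hn
      rw [mem_Ico] at hn ⊢
      omega
    · intro m _
      ring
    · intro n _
      ring
    · intro m _
      rfl
  rw [h2]
  have h3 : ∀ z ∈ Ioo (-(Y : ℤ)) Y, (kern Q Y z : ℂ) * e (z * θ) * DB_S θ (a - z) (b - z) =
      ∑ q ∈ Icc 1 Q, ∑ α ∈ (range q).filter (fun α => Nat.Coprime α q),
        (tent Y z : ℂ) * e (z * (θ + (α : ℝ) / q)) * DB_S θ (a - z) (b - z) := by
    intro z _
    unfold kern
    rw [Complex.ofReal_mul, Complex.ofReal_sum, mul_sum, sum_mul, sum_mul]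
    refine sum_congr rfl fun q hq => ?_
    rw [mem_Icc] at hq
    rw [cq_eq_sum q (by omega) z, mul_sum, sum_mul, sum_mul]
    refine sum_congr rfl fun α _ => ?_
    have : e (z * (θ + (α : ℝ) / q)) = e ((α : ℝ) * z / q) * e (z * θ) := by
      rw [← VB_e_add]
      congr 1
      ring
    rw [this]
    ring
  rw [sum_congr rfl h3, sum_comm]
  refine sum_congr rfl fun q _ => ?_
  rw [sum_comm]
  rfl

/-- the frequencies -/
def DB_P (Q : ℕ) : Finset (Σ _ : ℕ, ℕ) :=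
  (Icc 1 Q).sigma fun q => (range q).filter (fun α => Nat.Coprime α q)

theorem DB_P_card (Q : ℕ) : ((DB_P Q).card : ℝ) ≤ (Q : ℝ) ^ 2 := by
  unfold DB_P
  rw [card_sigma]
  have h1 : ∑ q ∈ Icc 1 Q, ((range q).filter (fun α => Nat.Coprime α q)).card ≤
      ∑ q ∈ Icc 1 Q, Q := by
    refine sum_le_sum fun q hq => ?_
    rw [mem_Icc] at hq
    exact (card_filter_le _ _).trans (by rw [card_range]; exact hq.2)
  have h2 : ∑ q ∈ Icc 1 Q, Q = Q ^ 2 := by
    rw [sum_const, Nat.card_Icc, smul_eq_mul]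
    simp [sq]
  rw [h2] at h1
  exact_mod_cast h1

/-- two fractions with denominators `≤ Q` are `1/Q²`-separated modulo one -/
theorem DB_sep (Q : ℕ) (θ : ℝ) (x y : Σ _ : ℕ, ℕ) (hx : x ∈ DB_P Q) (hy : y ∈ DB_P Q)
    (h1 : nd (θ + (x.2 : ℝ) / x.1) < 1 / (2 * (Q : ℝ) ^ 2))
    (h2 : nd (θ + (y.2 : ℝ) / y.1) < 1 / (2 * (Q : ℝ) ^ 2)) : x = y := by
  obtain ⟨q, α⟩ := x
  obtain ⟨q', α'⟩ := y
  unfold DB_P at hx hy
  simp only [mem_sigma, mem_Icc, mem_filter, mem_range] at hx hy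
  obtain ⟨⟨hq1, hqQ⟩, hα, hco⟩ := hx
  obtain ⟨⟨hq1', hqQ'⟩, hα', hco'⟩ := hy
  simp only at h1 h2
  unfold nd at h1 h2
  set k : ℤ := round (θ + (α : ℝ) / q)
  set k' : ℤ := round (θ + (α' : ℝ) / q')
  have hq0 : (0 : ℝ) < q := by exact_mod_cast hq1
  have hq0' : (0 : ℝ) < q' := by exact_mod_cast hq1'
  have hQ0 : (0 : ℝ) < Q := lt_of_lt_of_le hq0 (by exact_mod_cast hqQ)
  have h3 : |(α : ℝ) / q - (α' : ℝ) / q' - (k - k')| < 1 / (Q : ℝ) ^ 2 := by
    have e1 : (α : ℝ) / q - (α' : ℝ) / q' - (k - k') =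
        (θ + (α : ℝ) / q - k) - (θ + (α' : ℝ) / q' - k') := by ring
    rw [e1]
    refine lt_of_le_of_lt (abs_sub _ _) ?_
    have e2 : 1 / (Q : ℝ) ^ 2 = 1 / (2 * (Q : ℝ) ^ 2) + 1 / (2 * (Q : ℝ) ^ 2) := by
      field_simp; norm_num
    rw [e2]
    exact add_lt_add h1 h2
  -- the integer
  set N : ℤ := α * q' - α' * q - (k - k') * (q * q') with hN
  have h4 : (α : ℝ) / q - (α' : ℝ) / q' - (k - k') = (N : ℝ) / (q * q') := by
    rw [hN]
    push_cast
    field_simp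
  rw [h4, abs_div, abs_of_pos (by positivity : (0 : ℝ) < q * q')] at h3
  have h5 : |(N : ℝ)| < 1 := by
    rw [div_lt_div_iff₀ (by positivity) (by positivity)] at h3
    have h6 : (q : ℝ) * q' ≤ (Q : ℝ) ^ 2 := by
      rw [sq]
      exact mul_le_mul (by exact_mod_cast hqQ) (by exact_mod_cast hqQ') hq0'.le hQ0.le
    by_contra hc
    push Not at hc
    have : (Q : ℝ) ^ 2 ≤ |(N : ℝ)| * (Q : ℝ) ^ 2 := by
      nlinarith [sq_nonneg (Q : ℝ)]
    linarith
  have hN0 : N = 0 := by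
    have : |N| < 1 := by exact_mod_cast h5
    exact Int.abs_lt_one_iff.mp this
  -- the difference of fractions is an integer in (-1, 1)
  have hk : k - k' = 0 := by
    have h7 : (α : ℤ) * q' - α' * q = (k - k') * (q * q') := by
      rw [hN] at hN0
      linarith
    have h8 : (α : ℤ) * q' < q * q' := by
      have : (α : ℤ) < q := by exact_mod_cast hα
      have : (0 : ℤ) < q' := by exact_mod_cast hq1'
      nlinarith
    have h9 : (α' : ℤ) * q < q * q' := by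
      have h10 : (α' : ℤ) < q' := by exact_mod_cast hα'
      have : (0 : ℤ) < q := by exact_mod_cast hq1
      nlinarith
    have h10 : (0 : ℤ) ≤ (α : ℤ) * q' := by positivity
    have h11 : (0 : ℤ) ≤ (α' : ℤ) * q := by positivity
    have h12 : (0 : ℤ) < (q : ℤ) * q' := by
      have h13 : (0 : ℤ) < q' := by exact_mod_cast hq1'
      have h14 : (0 : ℤ) < q := by exact_mod_cast hq1
      positivity
    have h13 : (k - k') * ((q : ℤ) * q') < 1 * (q * q') := by linarith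
    have h14 : (-1) * ((q : ℤ) * q') < (k - k') * (q * q') := by linarith
    have h15 := lt_of_mul_lt_mul_right h13 h12.le
    have h16 := lt_of_mul_lt_mul_right h14 h12.le
    omega
  have h7 : (α : ℤ) * q' = α' * q := by
    rw [hN, hk] at hN0
    linarith
  have h8 : α * q' = α' * q := by exact_mod_cast h7
  have h9 : q ∣ q' := (Nat.Coprime.dvd_of_dvd_mul_left hco.symm (Dvd.intro_left α' h8.symm))
  have h10 : q' ∣ q := (Nat.Coprime.dvd_of_dvd_mul_left hco'.symm (Dvd.intro_left α h8))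
  have h11 : q = q' := Nat.dvd_antisymm h9 h10
  subst h11
  have h12 : α = α' := Nat.eq_of_mul_eq_mul_right (by omega) h8
  subst h12
  rfl

/-- the sums of `lp` versus the sums of `Λ` -/
theorem DB_vaughan (B θ : ℝ) (N : ℕ) (hN : 2 ≤ N)
    (hv : ∀ u v : ℕ, v ≤ N →
      ‖∑ m ∈ Ico u v, (ArithmeticFunction.vonMangoldt m : ℂ) * e (m * θ)‖ ≤ B)
    (u v : ℤ) (hu : 1 ≤ u) (huv : u ≤ v) (hvN : v ≤ N) :
    ‖DB_S θ u v‖ ≤ B + 2 * Real.sqrt N * Real.log N := by
  obtain ⟨u', rfl⟩ : ∃ u' : ℕ, u = u' := ⟨u.toNat, by omega⟩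
  obtain ⟨v', rfl⟩ : ∃ v' : ℕ, v = v' := ⟨v.toNat, by omega⟩
  have hlp : ∀ m : ℕ, (ArithmeticFunction.vonMangoldt m : ℝ) - lp m =
      if ¬ m.Prime then (ArithmeticFunction.vonMangoldt m : ℝ) else 0 := by
    intro m
    unfold lp
    rw [Int.toNat_natCast]
    by_cases hm : m.Prime
    · simp [hm, ArithmeticFunction.vonMangoldt_apply_prime]
    · simp [hm]
  have e1 : DB_S θ u' v' = ∑ m ∈ Ico u' v', (lp m : ℂ) * e (m * θ) := by
    unfold DB_S
    refine sum_nbij' (fun m => m.toNat) (fun n => (n : ℤ)) ?_ ?_ ?_ ?_ ?_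
    · intro m hm
      rw [mem_Ico] at hm ⊢
      omega
    · intro n hn
      rw [mem_Ico] at hn ⊢
      omega
    · intro m hm
      rw [mem_Ico] at hm
      omega
    · intro n _
      simp
    · intro m hm
      rw [mem_Ico] at hm
      have h : ((m.toNat : ℕ) : ℤ) = m := Int.toNat_of_nonneg (by omega)
      have h' : ((m.toNat : ℕ) : ℝ) = (m : ℝ) := by exact_mod_cast congrArg (Int.cast (R := ℝ)) h
      rw [h, h']
  have e2 : DB_S θ u' v' = ∑ m ∈ Ico u' v', (ArithmeticFunction.vonMangoldt m : ℂ) * e (m * θ) -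
      ∑ m ∈ Ico u' v', (((ArithmeticFunction.vonMangoldt m : ℝ) - lp m : ℝ) : ℂ) * e (m * θ) := by
    rw [e1, ← sum_sub_distrib]
    refine sum_congr rfl fun m _ => ?_
    push_cast
    ring
  rw [e2]
  refine (norm_sub_le _ _).trans (add_le_add (hv u' v' (by exact_mod_cast hvN)) ?_)
  have h1 : ‖∑ m ∈ Ico u' v', (((ArithmeticFunction.vonMangoldt m : ℝ) - lp m : ℝ) : ℂ) *
      e (m * θ)‖ ≤ ∑ m ∈ Ico u' v', if ¬ m.Prime then (ArithmeticFunction.vonMangoldt m : ℝ)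
        else 0 := by
    refine (norm_sum_le _ _).trans (sum_le_sum fun m _ => ?_)
    rw [norm_mul, VB_norm_e, mul_one, hlp m, Complex.norm_real, Real.norm_eq_abs,
      abs_of_nonneg]
    split_ifs
    · exact le_refl _
    · exact ArithmeticFunction.vonMangoldt_nonneg
  have h2 : ∑ m ∈ Ico u' v', (if ¬ m.Prime then (ArithmeticFunction.vonMangoldt m : ℝ)
        else 0) ≤ Chebyshev.psi N - Chebyshev.theta N := by
    rw [Chebyshev.psi_sub_theta_eq_sum_not_prime, sum_filter, Nat.floor_natCast]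
    apply sum_le_sum_of_subset_of_nonneg
    · intro m hm
      rw [mem_Ico] at hm
      rw [mem_Ioc]
      omega
    · intro m _ _
      split_ifs
      · exact le_refl _
      · exact ArithmeticFunction.vonMangoldt_nonneg
  have h3 : Chebyshev.psi N - Chebyshev.theta N ≤ 2 * Real.sqrt N * Real.log N :=
    Chebyshev.psi_sub_theta_le (by exact_mod_cast (by omega : 1 ≤ N))
  linarith

/-- `nd` is at most the distance to any integer -/
theorem DB_nd_le (x : ℝ) (k : ℤ) : nd x ≤ |x - k| := round_le x k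

/-- Dirichlet: if no fraction with denominator at most `Q` is close, then there is one with a
medium denominator -/
theorem DB_dirichlet (Q X : ℕ) (hQ : 1 ≤ Q) (hQX : Q ≤ X) (θ : ℝ)
    (h : ∀ x ∈ DB_P Q, (Q : ℝ) / X < nd (θ + (x.2 : ℝ) / x.1)) :
    ∃ (q : ℕ) (a : ℤ), Q < q ∧ (q : ℝ) ≤ X / Q ∧ IsCoprime a (q : ℤ) ∧
      |θ - a / q| ≤ 1 / (q : ℝ) ^ 2 := by
  have hQ0 : (0 : ℝ) < Q := by exact_mod_cast hQ
  have hX0 : (0 : ℝ) < X := by exact_mod_cast (by omega : 0 < X)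
  have hn : 0 < X / Q := Nat.div_pos hQX hQ
  obtain ⟨r, hr1, hr2⟩ := Real.exists_rat_abs_sub_le_and_den_le θ hn
  have hd0 : 0 < r.den := r.den_pos
  have hd0' : (0 : ℝ) < r.den := by exact_mod_cast hd0
  have hfl : (X : ℝ) / Q < ((X / Q : ℕ) : ℝ) + 1 := by
    rw [← Nat.floor_div_eq_div (K := ℝ)]
    exact Nat.lt_floor_add_one _
  have hfl2 : ((X / Q : ℕ) : ℝ) ≤ (X : ℝ) / Q := Nat.cast_div_le
  have hrr : (r : ℝ) = (r.num : ℝ) / r.den := by
    exact_mod_cast (Rat.num_div_den r).symm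
  rw [hrr] at hr1
  refine ⟨r.den, r.num, ?_, ?_, ?_, ?_⟩
  · by_contra hc
    push Not at hc
    -- the fraction `-num / den`
    set q := r.den with hq
    set α : ℕ := ((-r.num) % (q : ℤ)).toNat with hα
    have hmod0 : 0 ≤ (-r.num) % (q : ℤ) := Int.emod_nonneg _ (by omega)
    have hmod1 : (-r.num) % (q : ℤ) < q := Int.emod_lt_of_pos _ (by omega)
    have hαz : (α : ℤ) = (-r.num) % (q : ℤ) := by rw [hα]; exact Int.toNat_of_nonneg hmod0
    have hαq : α < q := by omega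
    have hdm : (q : ℤ) * ((-r.num) / (q : ℤ)) + (-r.num) % (q : ℤ) = -r.num :=
      Int.mul_ediv_add_emod _ _
    set t : ℤ := (-r.num) / (q : ℤ) with ht
    have hnum : r.num = -((q : ℤ) * t + α) := by rw [hαz]; linarith
    have hcop : Nat.Coprime α q := by
      have h1 : Nat.Coprime r.num.natAbs q := r.reduced
      have h2 : IsCoprime r.num (q : ℤ) := by
        rw [Int.isCoprime_iff_gcd_eq_one]
        exact h1
      rw [hnum] at h2
      have h3 : IsCoprime (α : ℤ) (q : ℤ) := by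
        obtain ⟨x, y, hxy⟩ := h2
        refine ⟨-x, y - x * t, ?_⟩
        rw [← hxy]
        ring
      exact_mod_cast Nat.isCoprime_iff_coprime.mp h3
    have hmem : (⟨q, α⟩ : Σ _ : ℕ, ℕ) ∈ DB_P Q := by
      unfold DB_P
      rw [mem_sigma, mem_Icc, mem_filter, mem_range]
      exact ⟨⟨hd0, hc⟩, hαq, hcop⟩
    have h1 := h _ hmem
    simp only at h1
    have h2 := DB_nd_le (θ + (α : ℝ) / q) (-t)
    have h3 : θ + (α : ℝ) / q - ((-t : ℤ) : ℝ) = θ - (r.num : ℝ) / q := by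
      rw [hnum]
      push_cast
      field_simp
      ring
    rw [h3] at h2
    have h4 : 1 / ((((X / Q : ℕ) : ℝ) + 1) * (q : ℝ)) ≤ (Q : ℝ) / X := by
      rw [div_le_div_iff₀ (by positivity) hX0]
      have h5 : (1 : ℝ) ≤ q := by exact_mod_cast hd0
      have h6 : (X : ℝ) ≤ (((X / Q : ℕ) : ℝ) + 1) * Q := by
        rw [div_lt_iff₀ hQ0] at hfl
        exact hfl.le
      have h7 : 0 ≤ (((X / Q : ℕ) : ℝ) + 1) * Q := by positivity
      nlinarith
    linarith
  · calc (r.den : ℝ) ≤ ((X / Q : ℕ) : ℝ) := by exact_mod_cast hr2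
      _ ≤ _ := hfl2
  · rw [Int.isCoprime_iff_gcd_eq_one]
    exact r.reduced
  · refine hr1.trans ?_
    apply one_div_le_one_div_of_le (by positivity)
    have h5 : (r.den : ℝ) ≤ ((X / Q : ℕ) : ℝ) + 1 := by
      have : (r.den : ℝ) ≤ ((X / Q : ℕ) : ℝ) := by exact_mod_cast hr2
      linarith
    rw [sq]
    exact mul_le_mul_of_nonneg_right h5 hd0'.le

/-- **Fourier uniformity.** `Y = ⌊X/Q²⌋`.

Proof. Write `S_J = ∑_{m ∈ J} lp(m) e(mθ)` for intervals `J` inside `[X/2, 5X]`. Replacing `Λ` by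
`lp` in `vaughan` costs `O(√X (log X)²)` (prime powers). With `cq_eq_sum`,
`∑_{m ∈ [a,b)} Lk(m) e(mθ) = ∑_{q ≤ Q} ∑_{(α,q)=1} ∑_{|z| < Y} tent(z) e(β z) S_{[a-z,b-z)}(θ)`,
`β = θ ± α/q` (both signs occur since the set of `α` is symmetric).
(far) If `‖β‖ ≥ 1/(2Q²)` interchange: `∑_m lp(m) e(mθ) ∑_{z} tent(z) e(βz)`, `z` in an interval;
`tent` is piecewise monotone with maximum `1/Y`, so the inner sum is `O(1/(Y‖β‖)) = O(Q²/Y)
= O(Q⁴/X)`. The total over all `(q,α)` and `m` is `O(Q^6 log X)`, negligible.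
(near) At most one `α/q` has `‖β‖ < 1/(2Q²)` (two such fractions differ by at least `1/Q²`).
 Case (i): `‖β‖ ≤ Q/X` for it. `|1 - ∑ tent(z) e(βz)| ≤ 2π‖β‖Y ≤ 7/Q` (`∑ tent = 1`),
 `|S_J - S_{J-z}| ≤ 2 Y log (5X)`, so `S_J - ∑_z tent(z) e(βz) S_{J-z} = O(X log X/Q)`.
 Case (ii): no fraction with denominator at most `Q` is within `Q/X` of `θ`. By Dirichlet there is
 `a/q`, `q ≤ X/Q`, `|θ - a/q| ≤ Q/(qX) ≤ 1/q²`; then `q > Q`, and `vaughan` (with `N = 5X`)
 gives `|S_J| ≤ C X Q^(-1/2) (log X)^10` for all `J ⊆ [X/2, 5X]` (differences of two sums starting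
 anywhere). -/
theorem fourier_small : ∃ K : ℝ, ∀ Q X : ℕ, Reg K Q X → ∀ θ : ℝ, ∀ a b : ℤ, (X : ℤ) ≤ a →
    b ≤ 4 * X → ‖∑ m ∈ Ico a b, ((lp m - Lk Q (X / Q ^ 2) m : ℝ) : ℂ) * e (m * θ)‖ ≤
      X * (Q : ℝ) ^ (-(1 / 4) : ℝ) := by
  obtain ⟨C, hC, hv⟩ := vaughan
  obtain ⟨K1, hK1, h1⟩ := reg_log_le (100 * (C + 1) * 3 ^ 10 + 1000) 10 (1 / 4) (by norm_num)
  obtain ⟨K2, hK2, h2⟩ := reg_pow_le 1000 9 (1 / 5) (by norm_num)
  refine ⟨max 4 (max K1 K2), fun Q X hR θ a b ha hb => ?_⟩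
  have hKpos : (0 : ℝ) ≤ max 4 (max K1 K2) := le_trans (by norm_num) (le_max_left _ _)
  have hR4 : Reg 4 Q X := hR.mono hKpos (le_max_left _ _)
  have hR1 : Reg K1 Q X := hR.mono hKpos ((le_max_left _ _).trans (le_max_right _ _))
  have hR2 : Reg K2 Q X := hR.mono hKpos ((le_max_right _ _).trans (le_max_right _ _))
  have hQ4 : (4 : ℝ) ≤ Q := hR4.Q_ge (by norm_num)
  have hQ4n : 4 ≤ Q := by exact_mod_cast hQ4
  have hX0n : 0 < X := hR4.X_pos (by norm_num)
  have hX0 : (0 : ℝ) < X := by exact_mod_cast hX0n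
  have hX1 : (1 : ℝ) ≤ X := by exact_mod_cast hX0n
  have hQ0 : (0 : ℝ) < Q := by linarith
  have hL1 : 1 ≤ Real.log X := hR4.logX_ge_one (by norm_num)
  set L := Real.log X with hL
  set w := (Q : ℝ) ^ (1 / 4 : ℝ) with hw
  have hw0 : 0 < w := Real.rpow_pos_of_pos hQ0 _
  have hw4 : w ^ 4 = Q := by
    rw [hw, ← Real.rpow_natCast, ← Real.rpow_mul hQ0.le]
    norm_num
  have hw2 : w ^ 2 = Real.sqrt Q := by
    rw [hw, ← Real.rpow_natCast, ← Real.rpow_mul hQ0.le, Real.sqrt_eq_rpow]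
    norm_num
  have hwneg : (Q : ℝ) ^ (-(1 / 4) : ℝ) = 1 / w := by
    rw [Real.rpow_neg hQ0.le, one_div w]
  have hw1 : 1 ≤ w := Real.one_le_rpow (by linarith) (by norm_num)
  have f1 := h1 Q X hR1
  have f2 := h2 Q X hR2
  rw [← hL, ← hw] at f1
  have f1' : (100 * (C + 1) * 3 ^ 10 + 1000) * L ^ 10 ≤ w := by
    have : L ^ (10 : ℝ) = L ^ 10 := by
      rw [← Real.rpow_natCast]; norm_num
    rwa [this] at f1
  have f2' : 1000 * (Q : ℝ) ^ 9 ≤ (X : ℝ) ^ (1 / 5 : ℝ) := by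
    have : (Q : ℝ) ^ (9 : ℝ) = (Q : ℝ) ^ 9 := by
      rw [← Real.rpow_natCast]; norm_num
    rwa [this] at f2
  clear f1 f2 h1 h2
  set x5 := (X : ℝ) ^ (1 / 5 : ℝ) with hx5
  have hx50 : 0 < x5 := Real.rpow_pos_of_pos hX0 _
  have hx51 : 1 ≤ x5 := Real.one_le_rpow hX1 (by norm_num)
  have hx5' : x5 ^ 5 = X := by
    rw [hx5, ← Real.rpow_natCast, ← Real.rpow_mul hX0.le]
    norm_num
  have hx5X : x5 ≤ X := by
    rw [← hx5']
    exact le_self_pow₀ hx51 (by norm_num)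
  have hLw : 1000 * L ≤ w := by
    have e1 : L ≤ L ^ 10 := le_self_pow₀ hL1 (by norm_num)
    have e2 : 0 ≤ 100 * (C + 1) * 3 ^ 10 * L ^ 10 := by positivity
    nlinarith
  -- `Q ≤ X` and `Y`
  have hQ9X : 1000 * (Q : ℝ) ^ 9 ≤ X := f2'.trans hx5X
  have hQle : ∀ n : ℕ, n ≤ 9 → (Q : ℝ) ^ n ≤ (Q : ℝ) ^ 9 := fun n hn =>
    pow_le_pow_right₀ (by linarith) hn
  set Y := X / Q ^ 2 with hY
  have hQ2 : (0 : ℝ) < (Q : ℝ) ^ 2 := by positivity
  have hYup : (Y : ℝ) ≤ X / (Q : ℝ) ^ 2 := by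
    have : ((X / Q ^ 2 : ℕ) : ℝ) ≤ (X : ℝ) / ((Q ^ 2 : ℕ) : ℝ) := Nat.cast_div_le
    rw [hY]
    push_cast at this ⊢
    exact this
  have hYlow : (X : ℝ) / (2 * (Q : ℝ) ^ 2) ≤ Y := by
    have e1 : (X : ℝ) / ((Q ^ 2 : ℕ) : ℝ) < ((X / Q ^ 2 : ℕ) : ℝ) + 1 := by
      rw [← Nat.floor_div_eq_div (K := ℝ)]
      exact Nat.lt_floor_add_one _
    rw [← hY] at e1
    push_cast at e1
    have e2 : (2 : ℝ) ≤ X / (Q : ℝ) ^ 2 := by
      rw [le_div_iff₀ hQ2]
      have := hQle 2 (by norm_num)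
      nlinarith [pow_pos hQ0 9]
    have e3 : (X : ℝ) / (2 * (Q : ℝ) ^ 2) = X / (Q : ℝ) ^ 2 / 2 := by
      field_simp
    rw [e3]
    linarith
  have hYpos : 1 ≤ Y := by
    have e2 : (1 : ℝ) ≤ X / (2 * (Q : ℝ) ^ 2) := by
      rw [le_div_iff₀ (by positivity)]
      have := hQle 2 (by norm_num)
      nlinarith [pow_pos hQ0 9]
    have : (1 : ℝ) ≤ Y := e2.trans hYlow
    exact_mod_cast this
  have hY0 : (0 : ℝ) < Y := by exact_mod_cast hYpos
  have hYX : Y + 1 ≤ X := by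
    have e1 : (Y : ℝ) ≤ X / 16 := by
      refine hYup.trans ?_
      apply div_le_div_of_nonneg_left hX0.le (by norm_num)
      nlinarith
    have e2 : (16 : ℝ) ≤ X := by
      have := hQle 0 (by norm_num)
      simp only [pow_zero] at this
      linarith
    have : (Y : ℝ) + 1 ≤ X := by linarith
    exact_mod_cast this
  rcases lt_or_ge b a with hab | hab
  · rw [Ico_eq_empty_of_le hab.le, sum_empty, norm_zero]
    positivity
  -- setup
  have haY : (Y : ℤ) + 1 ≤ a := by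
    have : (Y : ℤ) + 1 ≤ X := by exact_mod_cast hYX
    omega
  set Z : ℝ := 5 * X with hZdef
  have hZ1 : 1 ≤ Z := by rw [hZdef]; linarith
  have hYXr : (Y : ℝ) + 1 ≤ X := by exact_mod_cast hYX
  have hbr : (b : ℝ) ≤ 4 * X := by exact_mod_cast hb
  have har : (X : ℝ) ≤ a := by exact_mod_cast ha
  have hbaX : (b : ℝ) - a ≤ 3 * X := by linarith
  have hab' : (a : ℝ) ≤ b := by exact_mod_cast hab
  have hbYZ : (b : ℝ) + Y ≤ Z := by rw [hZdef]; linarith
  have hlZ : Real.log Z ≤ 3 * L := by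
    rw [hZdef, Real.log_mul (by norm_num) hX0.ne']
    have e1 : Real.log 5 ≤ 2 := by
      rw [Real.log_le_iff_le_exp (by norm_num)]
      have e2 : (1 : ℝ) + 1 ≤ Real.exp 1 := Real.add_one_le_exp 1
      have e3 : (2.7 : ℝ) < Real.exp 1 := lt_trans (by norm_num) Real.exp_one_gt_d9
      have e4 : Real.exp 2 = Real.exp 1 * Real.exp 1 := by rw [← Real.exp_add]; norm_num
      rw [e4]
      nlinarith
    linarith
  have hlZ0 : 0 ≤ Real.log Z := Real.log_nonneg hZ1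
  -- decomposition
  have e0 : ∑ m ∈ Ico a b, ((lp m - Lk Q Y m : ℝ) : ℂ) * e (m * θ) =
      DB_S θ a b - ∑ x ∈ DB_P Q, DB_T θ Y a b (θ + (x.2 : ℝ) / x.1) := by
    have e1 : ∑ x ∈ DB_P Q, DB_T θ Y a b (θ + (x.2 : ℝ) / x.1) =
        ∑ m ∈ Ico a b, (Lk Q Y m : ℂ) * e (m * θ) := by
      rw [DB_expand]
      unfold DB_P
      rw [sum_sigma]
    rw [e1]
    unfold DB_S
    rw [← sum_sub_distrib]
    refine sum_congr rfl fun m _ => ?_
    push_cast
    ring
  rw [e0, hwneg]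
  -- far part
  set far : Finset (Σ _ : ℕ, ℕ) :=
    (DB_P Q).filter (fun x => ¬ nd (θ + (x.2 : ℝ) / x.1) < 1 / (2 * (Q : ℝ) ^ 2)) with hfar
  set near : Finset (Σ _ : ℕ, ℕ) :=
    (DB_P Q).filter (fun x => nd (θ + (x.2 : ℝ) / x.1) < 1 / (2 * (Q : ℝ) ^ 2)) with hnear
  have hsplit : ∑ x ∈ DB_P Q, DB_T θ Y a b (θ + (x.2 : ℝ) / x.1) =
      ∑ x ∈ near, DB_T θ Y a b (θ + (x.2 : ℝ) / x.1) +
      ∑ x ∈ far, DB_T θ Y a b (θ + (x.2 : ℝ) / x.1) :=
    (sum_filter_add_sum_filter_not _ _ _).symm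
  have hfarb : ∀ x ∈ far, ‖DB_T θ Y a b (θ + (x.2 : ℝ) / x.1)‖ ≤ 60 * (Q : ℝ) ^ 4 * L := by
    intro x hx
    rw [hfar, mem_filter] at hx
    have hnd := hx.2
    push Not at hnd
    set β := θ + (x.2 : ℝ) / x.1 with hβ
    have g1 := DB_far θ Y hYpos a b β Z hab haY hbYZ hZ1
    have g2 := VB_four_nd_le β
    have g3 : 2 / (Q : ℝ) ^ 2 ≤ ‖e β - 1‖ := by
      refine le_trans ?_ g2
      have : 2 / (Q : ℝ) ^ 2 = 4 * (1 / (2 * (Q : ℝ) ^ 2)) := by field_simp; norm_num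
      rw [this]
      linarith
    have g4 : 2 / (Q : ℝ) ^ 2 * ‖DB_T θ Y a b β‖ ≤ 4 / Y * ((b - a + 2 * Y) * Real.log Z) :=
      (mul_le_mul_of_nonneg_right g3 (norm_nonneg _)).trans g1
    have g5 : 4 / (Y : ℝ) ≤ 8 * (Q : ℝ) ^ 2 / X := by
      rw [div_le_div_iff₀ hY0 hX0]
      rw [div_le_iff₀ (by positivity)] at hYlow
      linarith
    have g6 : ((b : ℝ) - a + 2 * Y) * Real.log Z ≤ 5 * X * (3 * L) := by
      apply mul_le_mul _ hlZ hlZ0 (by positivity)
      linarith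
    have g7 : 0 ≤ ((b : ℝ) - a + 2 * Y) * Real.log Z := by
      apply mul_nonneg _ hlZ0
      linarith
    have g8 : 4 / (Y : ℝ) * ((b - a + 2 * Y) * Real.log Z) ≤
        8 * (Q : ℝ) ^ 2 / X * (5 * X * (3 * L)) :=
      mul_le_mul g5 g6 g7 (by positivity)
    have g9 : 8 * (Q : ℝ) ^ 2 / X * (5 * X * (3 * L)) = 120 * (Q : ℝ) ^ 2 * L := by
      field_simp; ring
    have g10 : 2 / (Q : ℝ) ^ 2 * ‖DB_T θ Y a b β‖ ≤ 120 * (Q : ℝ) ^ 2 * L := by linarith
    rw [div_mul_eq_mul_div, div_le_iff₀ hQ2] at g10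
    have g11 : 120 * (Q : ℝ) ^ 2 * L * (Q : ℝ) ^ 2 = 2 * (60 * (Q : ℝ) ^ 4 * L) := by ring
    linarith
  have hfartot : ‖∑ x ∈ far, DB_T θ Y a b (θ + (x.2 : ℝ) / x.1)‖ ≤ X / (4 * w) := by
    calc _ ≤ ∑ x ∈ far, 60 * (Q : ℝ) ^ 4 * L := (norm_sum_le _ _).trans (sum_le_sum hfarb)
      _ = far.card * (60 * (Q : ℝ) ^ 4 * L) := by rw [sum_const, nsmul_eq_mul]
      _ ≤ (Q : ℝ) ^ 2 * (60 * (Q : ℝ) ^ 4 * L) := by
          apply mul_le_mul_of_nonneg_right _ (by positivity)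
          refine le_trans ?_ (DB_P_card Q)
          exact_mod_cast card_filter_le _ _
      _ ≤ X / (4 * w) := by
          rw [le_div_iff₀ (by positivity)]
          have g1 : L ≤ w := by linarith
          have g2 : w ≤ Q := by
            rw [← hw4]
            exact le_self_pow₀ hw1 (by norm_num)
          calc (Q : ℝ) ^ 2 * (60 * (Q : ℝ) ^ 4 * L) * (4 * w) =
                240 * (Q : ℝ) ^ 6 * (L * w) := by ring
            _ ≤ 240 * (Q : ℝ) ^ 6 * (Q * Q) := by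
                apply mul_le_mul_of_nonneg_left _ (by positivity)
                exact mul_le_mul (g1.trans g2) g2 hw0.le hQ0.le
            _ = 240 * (Q : ℝ) ^ 8 := by ring
            _ ≤ 1000 * (Q : ℝ) ^ 9 := by
                have := hQle 8 (by norm_num)
                nlinarith [pow_pos hQ0 8]
            _ ≤ X := hQ9X
  have hnear1 : near.card ≤ 1 := by
    rw [card_le_one]
    intro x hx y hy
    rw [hnear, mem_filter] at hx hy
    exact DB_sep Q θ x y hx.1 hy.1 hx.2 hy.2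
  rw [hsplit, ← sub_sub]
  refine (norm_sub_le _ _).trans ?_
  have hmain : ‖DB_S θ a b - ∑ x ∈ near, DB_T θ Y a b (θ + (x.2 : ℝ) / x.1)‖ ≤
      X / (2 * w) := by
    by_cases hcase : ∃ x ∈ DB_P Q, nd (θ + (x.2 : ℝ) / x.1) ≤ (Q : ℝ) / X
    · -- Case A
      obtain ⟨x, hx, hnd⟩ := hcase
      have hxn : x ∈ near := by
        rw [hnear, mem_filter]
        refine ⟨hx, lt_of_le_of_lt hnd ?_⟩
        rw [div_lt_div_iff₀ hX0 (by positivity)]
        have := hQle 3 (by norm_num)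
        nlinarith [pow_pos hQ0 9]
      have hns : near = {x} := by
        rw [card_le_one] at hnear1
        ext y
        rw [mem_singleton]
        exact ⟨fun hy => hnear1 y hy x hxn, fun hy => hy ▸ hxn⟩
      rw [hns, sum_singleton]
      set β := θ + (x.2 : ℝ) / x.1 with hβ
      refine (DB_near θ Y hYpos a b β Z hab haY hbYZ hZ1).trans ?_
      have g1 : 2 * (Y : ℝ) * Real.log Z ≤ 6 * (X / (Q : ℝ) ^ 2) * L := by
        calc 2 * (Y : ℝ) * Real.log Z ≤ 2 * (X / (Q : ℝ) ^ 2) * (3 * L) := by gcongr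
          _ = _ := by ring
      have g2 : 7 * (Y : ℝ) * nd β * ((b - a) * Real.log Z) ≤
          7 * (X / (Q : ℝ) ^ 2) * (Q / X) * (3 * X * (3 * L)) := by
        have : 0 ≤ (b : ℝ) - a := by linarith
        have hnd0 : 0 ≤ nd β := abs_nonneg _
        gcongr
      have g3 : 7 * (X / (Q : ℝ) ^ 2) * (Q / X) * (3 * X * (3 * L)) = 63 * (X / Q) * L := by
        field_simp
        ring
      have g4 : (X : ℝ) / (Q : ℝ) ^ 2 ≤ X / Q := by
        apply div_le_div_of_nonneg_left hX0.le hQ0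
        nlinarith
      have g5 : 6 * (X / (Q : ℝ) ^ 2) * L ≤ 6 * (X / Q) * L := by gcongr
      have g6 : 69 * ((X : ℝ) / Q) * L ≤ X / (2 * w) := by
        rw [le_div_iff₀ (by positivity)]
        have : 69 * ((X : ℝ) / Q) * L * (2 * w) = X * ((138 * L * w) / Q) := by
          field_simp
          ring
        rw [this]
        have h3 : 138 * L * w / Q ≤ 1 := by
          rw [div_le_one hQ0, ← hw4]
          have h4 : 138 * L * w ≤ w * w := by
            apply mul_le_mul_of_nonneg_right _ hw0.le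
            linarith
          have h5 : w * w ≤ w ^ 4 := by
            have : w * w = w ^ 2 := by ring
            rw [this]
            exact pow_le_pow_right₀ hw1 (by norm_num)
          linarith
        calc (X : ℝ) * ((138 * L * w) / Q) ≤ X * 1 := mul_le_mul_of_nonneg_left h3 hX0.le
          _ = X := mul_one _
      have g7 : 69 * ((X : ℝ) / Q) * L = 6 * (X / Q) * L + 63 * (X / Q) * L := by ring
      linarith
    · -- Case B
      push Not at hcase
      have hQX : Q ≤ X := by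
        have e1 : (Q : ℝ) ≤ X := by
          have := hQle 1 (by norm_num)
          rw [pow_one] at this
          nlinarith [pow_pos hQ0 9]
        exact_mod_cast e1
      obtain ⟨q, c, hq1, hq2, hco, hcθ⟩ := DB_dirichlet Q X (by omega) hQX θ hcase
      have hq1' : (Q : ℝ) < q := by exact_mod_cast hq1
      have hq0 : (0 : ℝ) < q := by linarith
      have hqX : (q : ℝ) ≤ X := hq2.trans (div_le_self hX0.le (by linarith))
      have hqN : q ≤ 5 * X := by
        have : (q : ℝ) ≤ 5 * X := by linarith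
        exact_mod_cast this
      set B : ℝ := C * (((5 * X : ℕ) : ℝ) / Real.sqrt q + ((5 * X : ℕ) : ℝ) ^ (4 / 5 : ℝ) +
        Real.sqrt (((5 * X : ℕ) : ℝ) * q)) * (Real.log ((5 * X : ℕ) : ℝ)) ^ 10 with hB
      have hvB : ∀ u v : ℕ, v ≤ 5 * X →
          ‖∑ m ∈ Ico u v, (ArithmeticFunction.vonMangoldt m : ℂ) * e (m * θ)‖ ≤ B :=
        fun u v hv' => hv θ q c (by omega) hco hcθ (5 * X) u v (by omega) hqN hv'
      set V : ℝ := B + 2 * Real.sqrt ((5 * X : ℕ) : ℝ) * Real.log ((5 * X : ℕ) : ℝ) with hV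
      have hSV : ∀ u v : ℤ, 1 ≤ u → u ≤ v → v ≤ 5 * X → ‖DB_S θ u v‖ ≤ V := by
        intro u v hu huv hv5
        exact DB_vaughan B θ (5 * X) (by omega) hvB u v hu huv (by push_cast; exact hv5)
      have hV0 : 0 ≤ V := (norm_nonneg _).trans (hSV 1 1 le_rfl le_rfl (by omega))
      have hTV : ∀ β : ℝ, ‖DB_T θ Y a b β‖ ≤ V := by
        intro β
        apply DB_T_le θ Y hYpos a b β V
        intro z hz
        rw [mem_Ioo] at hz
        have : (Y : ℤ) + 1 ≤ X := by exact_mod_cast hYX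
        exact hSV _ _ (by omega) (by omega) (by omega)
      have hsum : ‖∑ x ∈ near, DB_T θ Y a b (θ + (x.2 : ℝ) / x.1)‖ ≤ V := by
        calc _ ≤ ∑ x ∈ near, V := (norm_sum_le _ _).trans (sum_le_sum fun x _ => hTV _)
          _ = near.card * V := by rw [sum_const, nsmul_eq_mul]
          _ ≤ 1 * V := mul_le_mul_of_nonneg_right (by exact_mod_cast hnear1) hV0
          _ = V := one_mul _
      refine (norm_sub_le _ _).trans ((add_le_add (hSV a b (by omega) hab (by omega))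
        hsum).trans ?_)
      -- the size of `V`
      have k1 : ((5 * X : ℕ) : ℝ) = 5 * X := by push_cast; ring
      have k2 : Real.log ((5 * X : ℕ) : ℝ) ≤ 3 * L := by rw [k1]; exact hlZ
      have k2' : 0 ≤ Real.log ((5 * X : ℕ) : ℝ) := by rw [k1]; exact hlZ0
      have k3 : ((5 * X : ℕ) : ℝ) / Real.sqrt q ≤ 5 * (X / w ^ 2) := by
        rw [k1, mul_div_assoc, hw2]
        gcongr
      have k4 : Real.sqrt (((5 * X : ℕ) : ℝ) * q) ≤ 5 * (X / w ^ 2) := by
        rw [Real.sqrt_le_left (by positivity), k1]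
        have e1 : (5 * (X / w ^ 2)) ^ 2 = 25 * X * (X / Q) := by
          rw [← hw4]
          field_simp
          ring
        rw [e1]
        have e2 : (5 : ℝ) * X * q ≤ 5 * X * (X / Q) := by gcongr
        have e3 : (0 : ℝ) ≤ X * (X / Q) := by positivity
        nlinarith
      have hwx5 : w ^ 2 ≤ x5 := by
        have e1 : w ^ 2 ≤ w ^ 4 := pow_le_pow_right₀ hw1 (by norm_num)
        rw [hw4] at e1
        have e2 := hQle 1 (by norm_num)
        rw [pow_one] at e2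
        nlinarith [pow_pos hQ0 9]
      have k5 : ((5 * X : ℕ) : ℝ) ^ (4 / 5 : ℝ) ≤ 5 * (X / w ^ 2) := by
        rw [k1, Real.mul_rpow (by norm_num) hX0.le]
        have e1 : (5 : ℝ) ^ (4 / 5 : ℝ) ≤ 5 := by
          calc (5 : ℝ) ^ (4 / 5 : ℝ) ≤ (5 : ℝ) ^ (1 : ℝ) :=
                Real.rpow_le_rpow_of_exponent_le (by norm_num) (by norm_num)
            _ = 5 := Real.rpow_one 5
        have e2 : (X : ℝ) ^ (4 / 5 : ℝ) = x5 ^ 4 := by
          rw [hx5, ← Real.rpow_natCast, ← Real.rpow_mul hX0.le]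
          norm_num
        have e3 : x5 ^ 4 ≤ X / w ^ 2 := by
          rw [le_div_iff₀ (by positivity)]
          calc x5 ^ 4 * w ^ 2 ≤ x5 ^ 4 * x5 :=
                mul_le_mul_of_nonneg_left hwx5 (by positivity)
            _ = (X : ℝ) := by rw [← hx5']; ring
        rw [e2]
        exact mul_le_mul e1 e3 (by positivity) (by norm_num)
      have k6 : Real.sqrt ((5 * X : ℕ) : ℝ) ≤ 3 * (X / w ^ 2) := by
        rw [Real.sqrt_le_left (by positivity), k1]
        have e1 : (w ^ 2) ^ 2 ≤ X := by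
          have e3 : (w ^ 2) ^ 2 = Q := by rw [← hw4]; ring
          rw [e3]
          exact_mod_cast hQX
        have e2 : (3 * (X / w ^ 2)) ^ 2 = 9 * X * (X / (w ^ 2) ^ 2) := by
          field_simp
          ring
        rw [e2]
        have e3 : 1 ≤ (X : ℝ) / (w ^ 2) ^ 2 := by
          rw [le_div_iff₀ (by positivity)]
          linarith
        nlinarith
      have k7 : B ≤ C * (15 * (X / w ^ 2)) * (3 * L) ^ 10 := by
        rw [hB]
        have e1 : ((5 * X : ℕ) : ℝ) / Real.sqrt q + ((5 * X : ℕ) : ℝ) ^ (4 / 5 : ℝ) +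
            Real.sqrt (((5 * X : ℕ) : ℝ) * q) ≤ 15 * (X / w ^ 2) := by linarith
        have e2 : 0 ≤ ((5 * X : ℕ) : ℝ) / Real.sqrt q + ((5 * X : ℕ) : ℝ) ^ (4 / 5 : ℝ) +
            Real.sqrt (((5 * X : ℕ) : ℝ) * q) := by positivity
        exact mul_le_mul (mul_le_mul_of_nonneg_left e1 hC.le)
          (pow_le_pow_left₀ k2' k2 10) (pow_nonneg k2' 10) (by positivity)
      have k8 : 2 * Real.sqrt ((5 * X : ℕ) : ℝ) * Real.log ((5 * X : ℕ) : ℝ) ≤
          2 * (3 * (X / w ^ 2)) * (3 * L) := by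
        exact mul_le_mul (mul_le_mul_of_nonneg_left k6 (by norm_num)) k2 k2' (by positivity)
      have k9 : V + V ≤ (X / w ^ 2) * (30 * C * 3 ^ 10 * L ^ 10 + 36 * L) := by
        have e1 : (X / w ^ 2) * (30 * C * 3 ^ 10 * L ^ 10 + 36 * L) =
            2 * (C * (15 * (X / w ^ 2)) * (3 * L) ^ 10) + 2 * (2 * (3 * (X / w ^ 2)) * (3 * L)) := by
          ring
        rw [e1, hV]
        linarith
      refine k9.trans ?_
      have k10 : 30 * C * 3 ^ 10 * L ^ 10 + 36 * L ≤ w / 2 := by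
        have e1 : 100 * (C + 1) * 3 ^ 10 * L ^ 10 + 1000 * L ^ 10 ≤ w := by
          rw [← add_mul]
          exact f1'
        have e2 : L ≤ L ^ 10 := le_self_pow₀ hL1 (by norm_num)
        have e3 : 0 ≤ C * L ^ 10 := by positivity
        have e4 : 0 ≤ L ^ 10 := by positivity
        nlinarith
      calc (X : ℝ) / w ^ 2 * (30 * C * 3 ^ 10 * L ^ 10 + 36 * L) ≤ X / w ^ 2 * (w / 2) :=
            mul_le_mul_of_nonneg_left k10 (by positivity)
        _ = X / (2 * w) := by field_simp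
  calc _ ≤ (X : ℝ) / (2 * w) + X / (4 * w) := add_le_add hmain hfartot
    _ ≤ X * (1 / w) := by
        have : (X : ℝ) / (2 * w) + X / (4 * w) = X * (1 / w) * (3 / 4) := by
          field_simp
          ring
        rw [this]
        have h0 : 0 ≤ (X : ℝ) * (1 / w) := by positivity
        linarith

end Pool.Agent.Lib.H68T
end
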