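import Mathlib
import Pool.Agent.Lib.H59M.M1.M004
import Pool.Agent.Lib.H59M.M1.M010
import Pool.Agent.Lib.H59M.M1.M011

/-! Merged copies (to shorten the build) of Lib.H68T.MAINI, Lib.H68X.XL1, Lib.H68X.XSIE, Lib.H68T.MV. -/

-- from Lib.H68T.MAINI
section

/-!
# Chunk MAINI: the main part as an integral of products
-/

open Finset MeasureTheory

namespace Pool.Agent.Lib.H68T

open scoped FourierTransform SchwartzMap ContDiff

/-! ### The bump as a Fourier integral -/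

theorem MAINI_w_zero {y : ℝ} (hy : y ≤ -2 ∨ 4 ≤ y) : w y = 0 := by
  unfold w
  rcases hy with h | h
  · rw [Real.smoothTransition.zero_of_nonpos (by linarith), zero_mul]
  · rw [Real.smoothTransition.zero_of_nonpos (x := 4 - y) (by linarith), mul_zero]

theorem MAINI_w_rep : ∃ (W : ℝ → ℂ) (C : ℝ), 0 < C ∧ Continuous W ∧
    (∀ τ, ‖W τ‖ ≤ C * (1 + τ ^ 2)⁻¹) ∧
    ∀ y : ℝ, (w y : ℂ) = ∫ τ : ℝ, W τ * Complex.exp ((τ * y : ℝ) * Complex.I) := by
  have hc : HasCompactSupport (fun y : ℝ => (w y : ℂ)) := by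
    refine HasCompactSupport.of_support_subset_isCompact (isCompact_Icc (a := (-2 : ℝ)) (b := 4)) ?_
    intro y hy
    rw [Function.mem_support] at hy
    by_contra hcon
    apply hy
    rw [Set.mem_Icc, not_and_or, not_le, not_le] at hcon
    rw [MAINI_w_zero (hcon.imp le_of_lt le_of_lt), Complex.ofReal_zero]
  have hs : ContDiff ℝ ∞ (fun y : ℝ => (w y : ℂ)) := by
    have h1 : ContDiff ℝ ∞ w := by
      unfold w
      refine ContDiff.mul ?_ ?_
      · exact Real.smoothTransition.contDiff.comp (by fun_prop)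
      · exact Real.smoothTransition.contDiff.comp (by fun_prop)
    exact Complex.ofRealCLM.contDiff.comp h1
  set f : 𝓢(ℝ, ℂ) := hc.toSchwartzMap hs with hf
  set F : 𝓢(ℝ, ℂ) := 𝓕 f with hF
  have hfF : f = 𝓕⁻ F := (FourierTransform.fourierInv_fourier_eq f).symm
  obtain ⟨C0, hC0, h0⟩ := F.decay 0 0
  obtain ⟨C2, hC2, h2⟩ := F.decay 2 0
  have hFb : ∀ x : ℝ, (1 + x ^ 2) * ‖F x‖ ≤ C0 + C2 := by
    intro x
    have h3 := h0 x
    have h4 := h2 x
    rw [norm_iteratedFDeriv_zero] at h3 h4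
    rw [pow_zero, one_mul] at h3
    rw [Real.norm_eq_abs, sq_abs] at h4
    linarith
  refine ⟨fun τ => (1 / (2 * Real.pi) : ℂ) * F (τ / (2 * Real.pi)), 4 * Real.pi ^ 2 * (C0 + C2),
    by positivity, ?_, ?_, ?_⟩
  · have : Continuous F := F.continuous
    fun_prop
  · intro τ
    have hpi : 1 ≤ 2 * Real.pi := by
      have := Real.pi_gt_three
      linarith
    set x : ℝ := τ / (2 * Real.pi) with hx
    have hτ : τ = 2 * Real.pi * x := by
      rw [hx]
      field_simp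
    have h3 := hFb x
    have h4 : ‖(1 / (2 * Real.pi) : ℂ)‖ ≤ 1 := by
      rw [norm_div, norm_one, norm_mul]
      simp only [Complex.norm_ofNat, Complex.norm_real, Real.norm_of_nonneg Real.pi_pos.le]
      rw [div_le_one (by linarith)]
      exact hpi
    rw [norm_mul]
    have h5 : (1 + τ ^ 2) ≤ 4 * Real.pi ^ 2 * (1 + x ^ 2) := by
      rw [hτ]
      nlinarith
    have h6 : 0 < 1 + τ ^ 2 := by positivity
    rw [← div_eq_mul_inv, le_div_iff₀ h6]
    have h7 : 0 ≤ ‖F x‖ := norm_nonneg _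
    calc ‖(1 / (2 * Real.pi) : ℂ)‖ * ‖F x‖ * (1 + τ ^ 2) ≤ 1 * ‖F x‖ * (1 + τ ^ 2) := by
          gcongr
      _ ≤ ‖F x‖ * (4 * Real.pi ^ 2 * (1 + x ^ 2)) := by
          rw [one_mul]
          exact mul_le_mul_of_nonneg_left h5 h7
      _ = 4 * Real.pi ^ 2 * ((1 + x ^ 2) * ‖F x‖) := by ring
      _ ≤ 4 * Real.pi ^ 2 * (C0 + C2) := by gcongr
  · intro y
    have h1 : (w y : ℂ) = f y := rfl
    rw [h1, hfF, SchwartzMap.fourierInv_coe, Real.fourierInv_eq']
    have h3 := MeasureTheory.Measure.integral_comp_div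
      (fun v : ℝ => Complex.exp ((2 * Real.pi * inner ℝ v y : ℝ) * Complex.I) • F v)
      (2 * Real.pi)
    have hpi : 0 < 2 * Real.pi := by positivity
    rw [abs_of_pos hpi] at h3
    have h4 : (∫ v : ℝ, Complex.exp ((2 * Real.pi * inner ℝ v y : ℝ) * Complex.I) • F v) =
        (2 * Real.pi)⁻¹ • ∫ x : ℝ, Complex.exp ((2 * Real.pi *
          inner ℝ (x / (2 * Real.pi)) y : ℝ) * Complex.I) • F (x / (2 * Real.pi)) := by
      rw [h3, smul_smul, inv_mul_cancel₀ hpi.ne', one_smul]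
    rw [h4, ← integral_smul]
    refine integral_congr_ae (Filter.Eventually.of_forall fun τ => ?_)
    simp only [smul_eq_mul, Complex.real_smul]
    have h5 : (2 * Real.pi * inner ℝ (τ / (2 * Real.pi)) y : ℝ) = τ * y := by
      rw [real_inner_eq_re_inner]
      simp
      field_simp
    rw [h5]
    push_cast
    ring

/-! ### Dirichlet series of finitely supported twisted functions -/

/-- the twist of a real arithmetic function by a character -/
noncomputable def MAINI_tw {r : ℕ} (ψ : DirichletCharacter ℂ r) (f : ArithmeticFunction ℝ) :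
    ArithmeticFunction ℂ :=
  ⟨fun n => (f n : ℂ) * ψ (n : ZMod r), by simp⟩

theorem MAINI_tw_apply {r : ℕ} (ψ : DirichletCharacter ℂ r) (f : ArithmeticFunction ℝ) (n : ℕ) :
    MAINI_tw ψ f n = (f n : ℂ) * ψ (n : ZMod r) := rfl

theorem MAINI_tw_mul {r : ℕ} (ψ : DirichletCharacter ℂ r) (f g : ArithmeticFunction ℝ) :
    MAINI_tw ψ (f * g) = MAINI_tw ψ f * MAINI_tw ψ g := by
  ext n
  rw [MAINI_tw_apply, ArithmeticFunction.mul_apply, ArithmeticFunction.mul_apply]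
  push_cast
  rw [Finset.sum_mul]
  refine Finset.sum_congr rfl fun x hx => ?_
  rw [MAINI_tw_apply, MAINI_tw_apply]
  have h1 := (Nat.mem_divisorsAntidiagonal.mp hx).1
  rw [← h1]
  push_cast
  rw [map_mul]
  ring

/-- finitely supported -/
def MAINI_FS (f : ArithmeticFunction ℝ) (N : ℕ) : Prop := ∀ n, N < n → f n = 0

theorem MAINI_FS_mul {f g : ArithmeticFunction ℝ} {M N : ℕ} (hf : MAINI_FS f M)
    (hg : MAINI_FS g N) : MAINI_FS (f * g) (M * N) := by
  intro n hn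
  rw [ArithmeticFunction.mul_apply]
  refine Finset.sum_eq_zero fun x hx => ?_
  have h1 := (Nat.mem_divisorsAntidiagonal.mp hx).1
  by_contra hcon
  have h2 : x.1 ≤ M := by
    by_contra h
    push Not at h
    rw [hf _ h, zero_mul] at hcon
    exact hcon rfl
  have h3 : x.2 ≤ N := by
    by_contra h
    push Not at h
    rw [hg _ h, mul_zero] at hcon
    exact hcon rfl
  have := Nat.mul_le_mul h2 h3
  omega

theorem MAINI_term_zero {r : ℕ} (ψ : DirichletCharacter ℂ r) {f : ArithmeticFunction ℝ} {N : ℕ}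
    (hf : MAINI_FS f N) (s : ℂ) (n : ℕ) (hn : n ∉ Icc 1 N) :
    LSeries.term (fun n => MAINI_tw ψ f n) s n = 0 := by
  rcases Nat.eq_zero_or_pos n with h | h
  · rw [h, LSeries.term_zero]
  · have h1 : N < n := by
      by_contra hcon
      exact hn (mem_Icc.mpr ⟨h, by omega⟩)
    rw [LSeries.term_of_ne_zero (by omega), MAINI_tw_apply, hf n h1]
    simp

theorem MAINI_summable {r : ℕ} (ψ : DirichletCharacter ℂ r) {f : ArithmeticFunction ℝ} {N : ℕ}
    (hf : MAINI_FS f N) (s : ℂ) : LSeriesSummable (fun n => MAINI_tw ψ f n) s :=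
  summable_of_ne_finset_zero (s := Icc 1 N) fun n hn => MAINI_term_zero ψ hf s n hn

theorem MAINI_series {r : ℕ} (ψ : DirichletCharacter ℂ r) {f : ArithmeticFunction ℝ} {N : ℕ}
    (hf : MAINI_FS f N) (s : ℂ) : LSeries (fun n => MAINI_tw ψ f n) s =
      ∑ n ∈ Icc 1 N, (f n : ℂ) * ψ (n : ZMod r) * (n : ℂ) ^ (-s) := by
  rw [LSeries, tsum_eq_sum (s := Icc 1 N) fun n hn => MAINI_term_zero ψ hf s n hn]
  refine Finset.sum_congr rfl fun n hn => ?_
  rw [mem_Icc] at hn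
  rw [LSeries.term_of_ne_zero (by omega), MAINI_tw_apply, Complex.cpow_neg, div_eq_mul_inv]

theorem MAINI_series_mul {r : ℕ} (ψ : DirichletCharacter ℂ r) {f g : ArithmeticFunction ℝ}
    {M N : ℕ} (hf : MAINI_FS f M) (hg : MAINI_FS g N) (s : ℂ) :
    LSeries (fun n => MAINI_tw ψ (f * g) n) s =
      LSeries (fun n => MAINI_tw ψ f n) s * LSeries (fun n => MAINI_tw ψ g n) s := by
  rw [MAINI_tw_mul]
  exact ArithmeticFunction.LSeries_mul' (MAINI_summable ψ hf s) (MAINI_summable ψ hg s)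

theorem MAINI_norm_cpow {n : ℕ} (hn : 1 ≤ n) (t : ℝ) :
    ‖(n : ℂ) ^ (-(1 + t * Complex.I))‖ = (n : ℝ)⁻¹ := by
  have h0 : (0 : ℝ) < n := by exact_mod_cast hn
  have h1 : ((n : ℝ) : ℂ) = (n : ℂ) := by simp
  rw [← h1, Complex.norm_cpow_eq_rpow_re_of_pos h0]
  simp [Real.rpow_neg_one]

theorem MAINI_harm (N : ℕ) : ∑ n ∈ Icc 1 N, (n : ℝ)⁻¹ ≤ 1 + Real.log N := by
  have h := harmonic_le_one_add_log N
  rw [harmonic_eq_sum_Icc] at h
  push_cast at h
  exact h

theorem MAINI_series_le {r : ℕ} (ψ : DirichletCharacter ℂ r) {f : ArithmeticFunction ℝ} {N : ℕ}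
    (hf : MAINI_FS f N) {B : ℝ} (hB : ∀ n ∈ Icc 1 N, |f n| ≤ B) (hB0 : 0 ≤ B) (t : ℝ) :
    ‖LSeries (fun n => MAINI_tw ψ f n) (1 + t * Complex.I)‖ ≤ B * (1 + Real.log N) := by
  rw [MAINI_series ψ hf]
  calc ‖∑ n ∈ Icc 1 N, (f n : ℂ) * ψ (n : ZMod r) * (n : ℂ) ^ (-(1 + t * Complex.I))‖
      ≤ ∑ n ∈ Icc 1 N, ‖(f n : ℂ) * ψ (n : ZMod r) * (n : ℂ) ^ (-(1 + t * Complex.I))‖ :=
        norm_sum_le _ _
    _ ≤ ∑ n ∈ Icc 1 N, B * (n : ℝ)⁻¹ := by
        refine Finset.sum_le_sum fun n hn => ?_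
        have hn1 := (mem_Icc.mp hn).1
        rw [norm_mul, norm_mul, MAINI_norm_cpow hn1]
        have h1 : ‖(f n : ℂ)‖ ≤ B := by
          rw [Complex.norm_real, Real.norm_eq_abs]
          exact hB n hn
        have h2 : ‖ψ (n : ZMod r)‖ ≤ 1 := ψ.norm_le_one _
        have h3 : (0 : ℝ) ≤ (n : ℝ)⁻¹ := by positivity
        have h4 : ‖(f n : ℂ)‖ * ‖ψ (n : ZMod r)‖ ≤ B * 1 :=
          mul_le_mul h1 h2 (norm_nonneg _) hB0
        rw [mul_one] at h4
        exact mul_le_mul_of_nonneg_right h4 h3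
    _ = B * ∑ n ∈ Icc 1 N, (n : ℝ)⁻¹ := by rw [Finset.mul_sum]
    _ ≤ B * (1 + Real.log N) := mul_le_mul_of_nonneg_left (MAINI_harm N) hB0

/-! ### The Möbius polynomial -/

theorem continuous_Mu (X : ℕ) (p : Σ r : ℕ, DirichletCharacter ℂ r) : Continuous (Mu X p) := by
  unfold Mu
  refine continuous_finsetSum _ fun a _ => ?_
  refine Continuous.mul continuous_const ?_
  refine Continuous.const_cpow (by fun_prop) (Or.inr fun t h => ?_)
  have h1 := congrArg Complex.re h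
  simp at h1

/-- Trivial bound: `‖M_ψ(t)‖ ≤ 1 + log V ≤ 1 + log (60 X)`. -/
theorem Mu_le (X : ℕ) (p : Σ r : ℕ, DirichletCharacter ℂ r) (t : ℝ) (hX : 1 ≤ X) :
    ‖Mu X p t‖ ≤ 1 + Real.log (60 * X) := by
  have hX' : (1 : ℝ) ≤ X := by exact_mod_cast hX
  have hAA : 1 ≤ AA X := by
    unfold AA
    rw [Nat.one_le_ceil_iff]
    positivity
  have hVV : (VV X : ℝ) ≤ 60 * X := by
    unfold VV
    have h1 : (1 : ℝ) ≤ ((60 * X : ℕ) : ℝ) := by
      push_cast
      linarith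
    refine (Nat.floor_le (by positivity)).trans ?_
    calc ((60 * X : ℕ) : ℝ) ^ ((1 : ℝ) / 3) ≤ ((60 * X : ℕ) : ℝ) ^ (1 : ℝ) :=
          Real.rpow_le_rpow_of_exponent_le h1 (by norm_num)
      _ = 60 * X := by
          rw [Real.rpow_one]
          push_cast
          ring
  unfold Mu
  calc ‖∑ a ∈ Icc (AA X) (VV X), (ArithmeticFunction.moebius a : ℂ) * p.2 (a : ZMod p.1) *
        (a : ℂ) ^ (-(1 + t * Complex.I))‖
      ≤ ∑ a ∈ Icc (AA X) (VV X), (a : ℝ)⁻¹ := by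
        refine (norm_sum_le _ _).trans (Finset.sum_le_sum fun a ha => ?_)
        have ha1 : 1 ≤ a := hAA.trans (mem_Icc.mp ha).1
        rw [norm_mul, norm_mul, MAINI_norm_cpow ha1]
        have h1 : ‖(ArithmeticFunction.moebius a : ℂ)‖ ≤ 1 := by
          have h3 := ArithmeticFunction.abs_moebius_le_one (n := a)
          have h4 : ‖(ArithmeticFunction.moebius a : ℂ)‖ =
              ((|ArithmeticFunction.moebius a| : ℤ) : ℝ) := by
            rw [Complex.norm_intCast, Int.cast_abs]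
          rw [h4]
          exact_mod_cast h3
        have h2 : ‖p.2 (a : ZMod p.1)‖ ≤ 1 := p.2.norm_le_one _
        have h3 : (0 : ℝ) ≤ (a : ℝ)⁻¹ := by positivity
        have h4 : ‖(ArithmeticFunction.moebius a : ℂ)‖ * ‖p.2 (a : ZMod p.1)‖ ≤ 1 * 1 :=
          mul_le_mul h1 h2 (norm_nonneg _) zero_le_one
        rw [mul_one] at h4
        calc _ ≤ 1 * (a : ℝ)⁻¹ := mul_le_mul_of_nonneg_right h4 h3
          _ = _ := one_mul _
    _ ≤ ∑ a ∈ Icc 1 (VV X), (a : ℝ)⁻¹ := by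
        refine Finset.sum_le_sum_of_subset_of_nonneg (Finset.Icc_subset_Icc_left hAA) ?_
        intro a _ _
        positivity
    _ ≤ 1 + Real.log (VV X) := MAINI_harm _
    _ ≤ 1 + Real.log (60 * X) := by
        rcases Nat.eq_zero_or_pos (VV X) with h | h
        · rw [h]
          have : 0 ≤ Real.log (60 * (X : ℝ)) := Real.log_nonneg (by linarith)
          simpa using this
        · have h1 : (0 : ℝ) < VV X := by exact_mod_cast h
          have := Real.log_le_log h1 hVV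
          linarith

/-! ### The three kinds of factors -/

theorem MAINI_af_apply (f : ℕ → ℝ) {n : ℕ} (hn : 1 ≤ n) : af f n = f n := by
  have h : af f n = if n = 0 then 0 else f n := rfl
  rw [h, if_neg (by omega)]

theorem MAINI_series_Mu (X : ℕ) (p : Σ r : ℕ, DirichletCharacter ℂ r) (hX : 1 ≤ X) (t : ℝ) :
    MAINI_FS (af (fun a => if AA X ≤ a ∧ a ≤ VV X then (ArithmeticFunction.moebius a : ℝ) else 0))
      (VV X) ∧
    LSeries (fun n => MAINI_tw p.2 (af (fun a => if AA X ≤ a ∧ a ≤ VV X then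
      (ArithmeticFunction.moebius a : ℝ) else 0)) n) (1 + t * Complex.I) = Mu X p t := by
  have hX' : (1 : ℝ) ≤ X := by exact_mod_cast hX
  have hAA : 1 ≤ AA X := by
    unfold AA
    rw [Nat.one_le_ceil_iff]
    positivity
  have hFS : MAINI_FS (af (fun a => if AA X ≤ a ∧ a ≤ VV X then
      (ArithmeticFunction.moebius a : ℝ) else 0)) (VV X) := by
    intro n hn
    rw [MAINI_af_apply _ (by omega), if_neg (by omega)]
  refine ⟨hFS, ?_⟩
  rw [MAINI_series p.2 hFS]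
  unfold Mu
  symm
  rw [← Finset.sum_subset (Finset.Icc_subset_Icc_left hAA)]
  · refine Finset.sum_congr rfl fun a ha => ?_
    obtain ⟨h1, h2⟩ := mem_Icc.mp ha
    rw [MAINI_af_apply _ (hAA.trans h1), if_pos ⟨h1, h2⟩]
    simp
  · intro a ha hna
    obtain ⟨h1, h2⟩ := mem_Icc.mp ha
    have h3 : ¬ (AA X ≤ a ∧ a ≤ VV X) := fun h => hna (mem_Icc.mpr h)
    rw [MAINI_af_apply _ h1, if_neg h3]
    simp

theorem MAINI_rho_bd (Q n : ℕ) : 0 ≤ rho Q n ∧ rho Q n ≤ 1 := by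
  unfold rho
  have h1 := Real.smoothTransition.le_one (Real.log ((n : ℝ) / (Q : ℝ) ^ 20))
  have h2 := Real.smoothTransition.nonneg (Real.log ((n : ℝ) / (Q : ℝ) ^ 20))
  constructor <;> linarith

theorem MAINI_rho_zero {Q n : ℕ} (hQ : 1 ≤ Q) (hn : 3 * Q ^ 20 < n) : rho Q n = 0 := by
  unfold rho
  have hQ' : (0 : ℝ) < (Q : ℝ) ^ 20 := by positivity
  have hn' : (3 : ℝ) * (Q : ℝ) ^ 20 < n := by exact_mod_cast hn
  have h1 : 1 ≤ Real.log ((n : ℝ) / (Q : ℝ) ^ 20) := by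
    have h2 : (3 : ℝ) ≤ (n : ℝ) / (Q : ℝ) ^ 20 := by
      rw [le_div_iff₀ hQ']
      exact hn'.le
    rw [Real.le_log_iff_exp_le (by linarith)]
    have := Real.exp_one_lt_d9
    linarith
  rw [Real.smoothTransition.one_of_one_le h1, sub_self]

theorem MAINI_FS_rho {Q : ℕ} (hQ : 1 ≤ Q) : MAINI_FS (af (rho Q)) (3 * Q ^ 20) := by
  intro n hn
  rw [MAINI_af_apply _ (by omega), MAINI_rho_zero hQ hn]

theorem MAINI_FS_rholog {Q : ℕ} (hQ : 1 ≤ Q) :
    MAINI_FS (af (fun n => rho Q n * Real.log n)) (3 * Q ^ 20) := by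
  intro n hn
  rw [MAINI_af_apply _ (by omega), MAINI_rho_zero hQ hn, zero_mul]

theorem MAINI_logbound {Q X : ℕ} (h : Reg 100 Q X) :
    1 + Real.log ((3 * Q ^ 20 : ℕ) : ℝ) ≤ Real.log X ∧ 1 ≤ Real.log X := by
  have h1 := h.logX_ge (by norm_num)
  have h2 := h.logQ_le (by norm_num)
  have hQ := h.Q_pos (by norm_num)
  have hQ' : (0 : ℝ) < Q := by exact_mod_cast hQ
  have h3 : (101 : ℝ) ≤ Real.exp 100 := by
    have := Real.add_one_le_exp (100 : ℝ)
    linarith
  have h4 : Real.log 3 ≤ 2 := by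
    have := Real.log_le_sub_one_of_pos (x := (3 : ℝ)) (by norm_num)
    linarith
  have h5 : Real.log ((3 * Q ^ 20 : ℕ) : ℝ) = Real.log 3 + 20 * Real.log Q := by
    push_cast
    rw [Real.log_mul (by norm_num) (by positivity), Real.log_pow]
    push_cast
    ring
  rw [h5]
  constructor <;> linarith

theorem MAINI_hmain_norm {Q X : ℕ} (h : Reg 100 Q X) (p : Σ r : ℕ, DirichletCharacter ℂ r)
    (t : ℝ) : ‖LSeries (fun n => MAINI_tw p.2 (hmain Q X) n) (1 + t * Complex.I)‖ ≤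
      (Real.log X) ^ (4 : ℝ) * ‖Mu X p t‖ ^ 3 := by
  have hX : 1 ≤ X := h.X_pos (by norm_num)
  have hQ : 1 ≤ Q := h.Q_pos (by norm_num)
  obtain ⟨hl1, hl2⟩ := MAINI_logbound h
  obtain ⟨hF1, hM⟩ := MAINI_series_Mu X p hX t
  have hF2 := MAINI_FS_rho hQ
  have hF3 := MAINI_FS_rholog hQ
  set f1 := af (fun a => if AA X ≤ a ∧ a ≤ VV X then (ArithmeticFunction.moebius a : ℝ) else 0)
    with hf1
  set f2 := af (rho Q) with hf2
  set f3 := af (fun n => rho Q n * Real.log n) with hf3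
  have hm : hmain Q X = f1 * f1 * f1 * (f2 * f2) * f3 := by
    unfold hmain
    rw [← hf1, ← hf2, ← hf3]
    ring
  have hF11 := MAINI_FS_mul hF1 hF1
  have hF111 := MAINI_FS_mul hF11 hF1
  have hF22 := MAINI_FS_mul hF2 hF2
  have hF12 := MAINI_FS_mul hF111 hF22
  rw [hm, MAINI_series_mul p.2 hF12 hF3, MAINI_series_mul p.2 hF111 hF22,
    MAINI_series_mul p.2 hF11 hF1, MAINI_series_mul p.2 hF1 hF1, MAINI_series_mul p.2 hF2 hF2, hM]
  have hN : ‖LSeries (fun n => MAINI_tw p.2 f2 n) (1 + t * Complex.I)‖ ≤ Real.log X := by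
    refine (MAINI_series_le p.2 hF2 (B := 1) ?_ zero_le_one t).trans (by linarith)
    intro n hn
    rw [hf2, MAINI_af_apply _ (mem_Icc.mp hn).1, abs_le]
    have := MAINI_rho_bd Q n
    constructor <;> linarith
  have hN' : ‖LSeries (fun n => MAINI_tw p.2 f3 n) (1 + t * Complex.I)‖ ≤
      Real.log X * Real.log X := by
    refine (MAINI_series_le p.2 hF3 (B := Real.log X) ?_ (by linarith) t).trans
      (mul_le_mul_of_nonneg_left hl1 (by linarith))
    intro n hn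
    obtain ⟨hn1, hn2⟩ := mem_Icc.mp hn
    have hn1' : (1 : ℝ) ≤ n := by exact_mod_cast hn1
    have hn2' : (n : ℝ) ≤ ((3 * Q ^ 20 : ℕ) : ℝ) := by exact_mod_cast hn2
    have h5 : 0 ≤ Real.log n := Real.log_nonneg hn1'
    have h6 : Real.log n ≤ Real.log ((3 * Q ^ 20 : ℕ) : ℝ) :=
      Real.log_le_log (by linarith) hn2'
    obtain ⟨h7, h8⟩ := MAINI_rho_bd Q n
    rw [hf3, MAINI_af_apply _ hn1, abs_of_nonneg (mul_nonneg h7 h5)]
    nlinarith
  rw [norm_mul, norm_mul, norm_mul, norm_mul, norm_mul]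
  set N := ‖LSeries (fun n => MAINI_tw p.2 f2 n) (1 + t * Complex.I)‖ with hNdef
  set N' := ‖LSeries (fun n => MAINI_tw p.2 f3 n) (1 + t * Complex.I)‖ with hNdef'
  have h0 : 0 ≤ N := norm_nonneg _
  have h0' : 0 ≤ N' := norm_nonneg _
  have h4 : (Real.log X) ^ (4 : ℝ) = Real.log X * Real.log X * (Real.log X * Real.log X) := by
    have : (Real.log X) ^ (4 : ℝ) = (Real.log X) ^ (4 : ℕ) := by
      rw [← Real.rpow_natCast]
      norm_num
    rw [this]
    ring
  rw [h4]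
  have h5 : N * N ≤ Real.log X * Real.log X := mul_le_mul hN hN h0 (by linarith)
  have h6 : N * N * N' ≤ Real.log X * Real.log X * (Real.log X * Real.log X) :=
    mul_le_mul h5 hN' h0' (by positivity)
  calc ‖Mu X p t‖ * ‖Mu X p t‖ * ‖Mu X p t‖ * (N * N) * N' = (N * N * N') * ‖Mu X p t‖ ^ 3 := by
        ring
    _ ≤ _ := mul_le_mul_of_nonneg_right h6 (by positivity)

/-! ### The integral -/

theorem MAINI_v_zero {X m : ℕ} (hX : 1 ≤ X) (hm : 60 * X < m) : v X m = 0 := by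
  unfold v
  have hX' : (0 : ℝ) < X := by exact_mod_cast hX
  have hm' : (60 : ℝ) * X < m := by exact_mod_cast hm
  apply MAINI_w_zero
  right
  have h2 : (60 : ℝ) ≤ (m : ℝ) / X := by
    rw [le_div_iff₀ hX']
    exact hm'.le
  rw [Real.le_log_iff_exp_le (by linarith)]
  have h3 := Real.exp_one_lt_d9
  have h4 : Real.exp 4 = (Real.exp 1) ^ 4 := by
    rw [← Real.exp_nat_mul]
    norm_num
  rw [h4]
  have h5 : (Real.exp 1) ^ 4 ≤ (2.7182818286 : ℝ) ^ 4 :=
    pow_le_pow_left₀ (Real.exp_pos _).le h3.le 4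
  have h6 : (2.7182818286 : ℝ) ^ 4 ≤ 60 := by norm_num
  linarith

theorem MAINI_integrable_bound {W : ℝ → ℂ} {C : ℝ} (hWc : Continuous W)
    (hWb : ∀ τ, ‖W τ‖ ≤ C * (1 + τ ^ 2)⁻¹) {g : ℝ → ℂ} (hg : Continuous g) {B : ℝ}
    (hgb : ∀ τ, ‖g τ‖ ≤ B) : Integrable fun τ => W τ * g τ := by
  have h1 : Integrable (fun τ : ℝ => B * (C * (1 + τ ^ 2)⁻¹)) :=
    (integrable_inv_one_add_sq.const_mul C).const_mul B
  refine h1.mono' (hWc.mul hg).aestronglyMeasurable (Filter.Eventually.of_forall fun τ => ?_)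
  rw [norm_mul]
  have h2 := hWb τ
  have h3 := hgb τ
  calc ‖W τ‖ * ‖g τ‖ ≤ (C * (1 + τ ^ 2)⁻¹) * B :=
        mul_le_mul h2 h3 (norm_nonneg _) ((norm_nonneg _).trans h2)
    _ = _ := mul_comm _ _

/-- `w` is smooth of compact support, so `w(y) = ∫ ŵ(τ) e^(2πiτy) dτ` with
`|ŵ(τ)| ≤ C/(1+τ²)`. With `v(m) = w(log(m/X))` the variables separate:
`FF X (ψ hmain) t = ∫ ŵ(τ) X^(-2πiτ) M_ψ(t - 2πτ)³ N(t-2πτ)² N'(t-2πτ) dτ`,
`N(t) = ∑ ρ(n) ψ(n) n^(-1-it)`, `N'(t) = ∑ ρ(n) log n ψ(n) n^(-1-it)` (sums over `n ≤ e Q^20`),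
`|N| ≤ 1 + log(e Q^20) ≤ log X`, `|N'| ≤ (log X)²`. (All products `m` of the six variables are
`≤ V³ (e Q^20)³`; `v(m) = 0` unless `m ≤ 60X`, so the sum over `m ≤ 60 X` in `FF` is complete.)
Substitute `τ → τ/(2π)`. -/
theorem main_integral : ∃ C K : ℝ, 0 < C ∧ ∀ Q X : ℕ, Reg K Q X →
    ∀ p : Σ r : ℕ, DirichletCharacter ℂ r, 1 ≤ p.1 → ∀ t : ℝ,
    ‖FF X (fun m => (hmain Q X m : ℂ) * p.2 (m : ZMod p.1)) t‖ ≤
      C * (Real.log X) ^ (4 : ℝ) * ∫ τ : ℝ, (1 + τ ^ 2)⁻¹ * ‖Mu X p (t + τ)‖ ^ 3 := by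
  obtain ⟨W, C, hC, hWc, hWb, hW⟩ := MAINI_w_rep
  refine ⟨C, 100, hC, fun Q X h p _ t => ?_⟩
  have hX : 1 ≤ X := h.X_pos (by norm_num)
  have hX' : (0 : ℝ) < X := by exact_mod_cast hX
  have hQ : 1 ≤ Q := h.Q_pos (by norm_num)
  obtain ⟨hl1, hl2⟩ := MAINI_logbound h
  obtain ⟨hF1, -⟩ := MAINI_series_Mu X p hX t
  have hF2 := MAINI_FS_rho hQ
  have hF3 := MAINI_FS_rholog hQ
  have hFh : ∃ N, 60 * X ≤ N ∧ MAINI_FS (hmain Q X) N := by
    set f1 := af (fun a => if AA X ≤ a ∧ a ≤ VV X then (ArithmeticFunction.moebius a : ℝ) else 0)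
      with hf1
    set f2 := af (rho Q) with hf2
    set f3 := af (fun n => rho Q n * Real.log n) with hf3
    have hm : hmain Q X = f1 * f1 * f1 * (f2 * f2) * f3 := by
      unfold hmain
      rw [← hf1, ← hf2, ← hf3]
      ring
    have hF := MAINI_FS_mul (MAINI_FS_mul (MAINI_FS_mul (MAINI_FS_mul hF1 hF1) hF1)
      (MAINI_FS_mul hF2 hF2)) hF3
    rw [← hm] at hF
    refine ⟨max (60 * X) _, le_max_left _ _, fun n hn => hF n (lt_of_le_of_lt (le_max_right _ _) hn)⟩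
  obtain ⟨N, hN60, hFN⟩ := hFh
  set G : ℝ → ℂ := fun τ => W τ * Complex.exp (-((τ * Real.log X : ℝ) * Complex.I)) with hG
  have hGc : Continuous G := by
    rw [hG]
    fun_prop
  have hGb : ∀ τ, ‖G τ‖ ≤ C * (1 + τ ^ 2)⁻¹ := by
    intro τ
    rw [hG]
    simp only [norm_mul]
    rw [Complex.norm_exp]
    have h1 : (-(((τ * Real.log X : ℝ) : ℂ) * Complex.I)).re = 0 := by
      rw [Complex.neg_re, Complex.re_ofReal_mul, Complex.I_re, mul_zero, neg_zero]
    rw [h1, Real.exp_zero, mul_one]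
    exact hWb τ
  -- one term
  have hterm : ∀ m : ℕ, 1 ≤ m → (v X m : ℂ) * (m : ℂ) ^ (-(1 + t * Complex.I)) =
      ∫ τ : ℝ, G τ * (m : ℂ) ^ (-(1 + ((t - τ : ℝ) : ℂ) * Complex.I)) := by
    intro m hm
    have hm' : (0 : ℝ) < m := by exact_mod_cast hm
    have hmc : (m : ℂ) ≠ 0 := by exact_mod_cast hm'.ne'
    unfold v
    rw [hW, ← integral_mul_const]
    refine integral_congr_ae (Filter.Eventually.of_forall fun τ => ?_)
    simp only [hG]
    rw [Real.log_div hm'.ne' hX'.ne', Complex.cpow_def_of_ne_zero hmc,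
      Complex.cpow_def_of_ne_zero hmc, mul_assoc, mul_assoc, ← Complex.exp_add, ← Complex.exp_add]
    congr 2
    have h1 : Complex.log (m : ℂ) = ((Real.log m : ℝ) : ℂ) := by
      rw [Complex.ofReal_log hm'.le]
      simp
    rw [h1]
    push_cast
    ring
  have hcont : ∀ m : ℕ, Continuous fun τ : ℝ => (m : ℂ) ^ (-(1 + ((t - τ : ℝ) : ℂ) * Complex.I)) := by
    intro m
    refine Continuous.const_cpow (by fun_prop) (Or.inr fun τ h => ?_)
    have h1 := congrArg Complex.re h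
    simp at h1
  have hint : ∀ m : ℕ, 1 ≤ m → Integrable fun τ : ℝ =>
      G τ * (m : ℂ) ^ (-(1 + ((t - τ : ℝ) : ℂ) * Complex.I)) := by
    intro m hm
    refine MAINI_integrable_bound hGc hGb (hcont m) (B := (m : ℝ)⁻¹) fun τ => ?_
    rw [MAINI_norm_cpow hm]
  -- the whole sum
  have hFF : FF X (fun m => (hmain Q X m : ℂ) * p.2 (m : ZMod p.1)) t =
      ∫ τ : ℝ, G τ * LSeries (fun n => MAINI_tw p.2 (hmain Q X) n)
        (1 + ((t - τ : ℝ) : ℂ) * Complex.I) := by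
    unfold FF
    have h1 : ∑ m ∈ Icc 1 (60 * X), (hmain Q X m : ℂ) * p.2 (m : ZMod p.1) * (v X m : ℂ) *
        (m : ℂ) ^ (-(1 + t * Complex.I)) = ∑ m ∈ Icc 1 N, (hmain Q X m : ℂ) *
          p.2 (m : ZMod p.1) * (v X m : ℂ) * (m : ℂ) ^ (-(1 + t * Complex.I)) := by
      refine Finset.sum_subset (Finset.Icc_subset_Icc_right hN60) fun m hm hm' => ?_
      have h2 : 60 * X < m := by
        by_contra hcon
        exact hm' (mem_Icc.mpr ⟨(mem_Icc.mp hm).1, by omega⟩)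
      rw [MAINI_v_zero hX h2]
      simp
    rw [h1]
    have h2 : ∀ m ∈ Icc 1 N, (hmain Q X m : ℂ) * p.2 (m : ZMod p.1) * (v X m : ℂ) *
        (m : ℂ) ^ (-(1 + t * Complex.I)) = ∫ τ : ℝ, (hmain Q X m : ℂ) * p.2 (m : ZMod p.1) *
          (G τ * (m : ℂ) ^ (-(1 + ((t - τ : ℝ) : ℂ) * Complex.I))) := by
      intro m hm
      rw [integral_const_mul, ← hterm m (mem_Icc.mp hm).1]
      ring
    rw [Finset.sum_congr rfl h2, ← integral_finsetSum]
    · refine integral_congr_ae (Filter.Eventually.of_forall fun τ => ?_)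
      simp only
      rw [MAINI_series p.2 hFN, Finset.mul_sum]
      refine Finset.sum_congr rfl fun m _ => ?_
      ring
    · intro m hm
      exact (hint m (mem_Icc.mp hm).1).const_mul _
  rw [hFF]
  have hMub : ∀ τ : ℝ, ‖Mu X p τ‖ ≤ 1 + Real.log (60 * X) := fun τ => Mu_le X p τ hX
  have hbint : Integrable fun τ : ℝ => (1 + τ ^ 2)⁻¹ * ‖Mu X p (t - τ)‖ ^ 3 := by
    have h1 : Integrable (fun τ : ℝ => (1 + Real.log (60 * X)) ^ 3 * (1 + τ ^ 2)⁻¹) :=
      integrable_inv_one_add_sq.const_mul _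
    have hc := continuous_Mu X p
    refine h1.mono' ?_ (Filter.Eventually.of_forall fun τ => ?_)
    · refine Continuous.aestronglyMeasurable ?_
      refine Continuous.mul ?_ (by fun_prop)
      exact Continuous.inv₀ (by fun_prop) (fun τ => by positivity)
    · have h2 : (0 : ℝ) ≤ (1 + τ ^ 2)⁻¹ := by positivity
      rw [Real.norm_of_nonneg (by positivity), mul_comm]
      exact mul_le_mul_of_nonneg_right (pow_le_pow_left₀ (norm_nonneg _) (hMub _) 3) h2
  have hle : ‖∫ τ : ℝ, G τ * LSeries (fun n => MAINI_tw p.2 (hmain Q X) n)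
        (1 + ((t - τ : ℝ) : ℂ) * Complex.I)‖ ≤
      ∫ τ : ℝ, C * (Real.log X) ^ (4 : ℝ) * ((1 + τ ^ 2)⁻¹ * ‖Mu X p (t - τ)‖ ^ 3) := by
    refine norm_integral_le_of_norm_le (hbint.const_mul _) (Filter.Eventually.of_forall fun τ => ?_)
    rw [norm_mul]
    have h1 := MAINI_hmain_norm h p (t - τ)
    calc ‖G τ‖ * ‖LSeries (fun n => MAINI_tw p.2 (hmain Q X) n)
          (1 + ((t - τ : ℝ) : ℂ) * Complex.I)‖
        ≤ (C * (1 + τ ^ 2)⁻¹) * ((Real.log X) ^ (4 : ℝ) * ‖Mu X p (t - τ)‖ ^ 3) :=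
          mul_le_mul (hGb τ) h1 (norm_nonneg _) ((norm_nonneg _).trans (hGb τ))
      _ = _ := by ring
  refine hle.trans (le_of_eq ?_)
  rw [integral_const_mul]
  congr 1
  rw [← integral_neg_eq_self (fun τ : ℝ => (1 + τ ^ 2)⁻¹ * ‖Mu X p (t + τ)‖ ^ 3)]
  refine integral_congr_ae (Filter.Eventually.of_forall fun τ => ?_)
  simp only [neg_sq, ← sub_eq_add_neg]

end Pool.Agent.Lib.H68T
end

-- from Lib.H68X.XL1
section

/-!
# Chunk XL1: an elementary lower bound for `L(1,ψ)`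
-/

open Finset

namespace Pool.Agent.Lib.H68T

section zetaMul

open scoped ComplexOrder
open ArithmeticFunction hiding log
open DirichletCharacter

theorem XL1_zm_prime {N : ℕ} {χ : DirichletCharacter ℂ N} (hχ : χ ^ 2 = 1) {p : ℕ}
    (hp : p.Prime) (k : ℕ) : 1 ≤ zetaMul χ (p ^ (2 * k)) := by
  have h0 : zetaMul χ (p ^ (2 * k)) = ∑ i ∈ range (2 * k + 1), (χ (p : ZMod N)) ^ i := by
    rw [zetaMul, coe_zeta_mul_apply, Nat.sum_divisors_prime_pow hp]
    refine sum_congr rfl fun i _ => ?_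
    show (if p ^ i = 0 then (0 : ℂ) else χ ((p ^ i : ℕ) : ZMod N)) = _
    rw [if_neg (pow_ne_zero _ hp.ne_zero)]
    push_cast
    rw [map_pow]
  rw [h0]
  rcases MulChar.isQuadratic_iff_sq_eq_one.mpr hχ p with h | h | h
  · rw [h, sum_range_succ']
    simp
  · rw [h]
    simp only [one_pow, sum_const, card_range, nsmul_eq_mul, mul_one]
    have : (1 : ℂ) ≤ ((2 * k + 1 : ℕ) : ℂ) := by
      rw [← Nat.cast_one]
      exact_mod_cast (by omega : 1 ≤ 2 * k + 1)
    exact this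
  · rw [h, neg_one_geom_sum, if_neg]
    rw [Nat.not_even_iff_odd]
    exact ⟨k, rfl⟩

theorem XL1_zm_sq {N : ℕ} {χ : DirichletCharacter ℂ N} (hχ : χ ^ 2 = 1) {m : ℕ} (hm : m ≠ 0) :
    1 ≤ zetaMul χ (m ^ 2) := by
  rw [χ.isMultiplicative_zetaMul.multiplicative_factorization _ (pow_ne_zero 2 hm)]
  rw [Finsupp.prod]
  refine Finset.prod_induction _ (fun z : ℂ => 1 ≤ z) ?_ le_rfl ?_
  · intro a b ha hb
    exact one_le_mul_of_one_le_of_one_le ha hb
  · intro p hp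
    rw [Nat.support_factorization] at hp
    have h1 : (m ^ 2).factorization p = 2 * m.factorization p := by
      rw [Nat.factorization_pow]
      rfl
    rw [h1]
    exact XL1_zm_prime hχ (Nat.prime_of_mem_primeFactors hp) _

theorem XL1_zm_re {N : ℕ} {χ : DirichletCharacter ℂ N} (hχ : χ ^ 2 = 1) (n : ℕ) :
    0 ≤ (zetaMul χ n).re := by
  have := (Complex.le_def.1 (zetaMul_nonneg hχ n)).1
  simpa using this

theorem XL1_zm_sq_re {N : ℕ} {χ : DirichletCharacter ℂ N} (hχ : χ ^ 2 = 1) {m : ℕ} (hm : m ≠ 0) :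
    1 ≤ (zetaMul χ (m ^ 2)).re := by
  have := (Complex.le_def.1 (XL1_zm_sq hχ hm)).1
  simpa using this

theorem XL1_zm_eq {N : ℕ} (χ : DirichletCharacter ℂ N) (n : ℕ) :
    zetaMul χ n = ∑ d ∈ n.divisors, χ (d : ZMod N) := by
  rw [zetaMul, coe_zeta_mul_apply]
  refine sum_congr rfl fun d hd => ?_
  show (if d = 0 then (0 : ℂ) else χ (d : ZMod N)) = _
  rw [if_neg (Nat.pos_of_mem_divisors hd).ne']

end zetaMul

theorem XL1_swap (K : ℕ) (f : ℕ → ℕ → ℂ) :
    ∑ n ∈ Ioc 0 K, ∑ d ∈ n.divisors, f d n = ∑ d ∈ Ioc 0 K, ∑ e ∈ Ioc 0 (K / d), f d (d * e) := by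
  have h1 : ∀ n ∈ Ioc 0 K, ∑ d ∈ n.divisors, f d n =
      ∑ d ∈ Ioc 0 K, if d ∣ n then f d n else 0 := by
    intro n hn
    obtain ⟨hn1, hn2⟩ := mem_Ioc.1 hn
    rw [← sum_filter]
    refine sum_congr ?_ fun _ _ => rfl
    ext d
    simp only [Nat.mem_divisors, mem_filter, mem_Ioc]
    constructor
    · rintro ⟨h1, h2⟩
      exact ⟨⟨Nat.pos_of_dvd_of_pos h1 hn1, (Nat.le_of_dvd hn1 h1).trans hn2⟩, h1⟩
    · rintro ⟨-, h1⟩
      exact ⟨h1, by omega⟩
  rw [sum_congr rfl h1, sum_comm]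
  refine sum_congr rfl fun d hd => ?_
  have hd0 : 0 < d := (mem_Ioc.1 hd).1
  rw [← sum_filter]
  symm
  refine sum_nbij (fun e => d * e) ?_ ?_ ?_ ?_
  · intro e he
    obtain ⟨he1, he2⟩ := mem_Ioc.1 he
    rw [mem_filter, mem_Ioc]
    refine ⟨⟨Nat.mul_pos hd0 he1, ?_⟩, dvd_mul_right _ _⟩
    have := (Nat.le_div_iff_mul_le hd0).1 he2
    rwa [mul_comm] at this
  · intro e _ e' _ h
    exact Nat.eq_of_mul_eq_mul_left hd0 h
  · intro n hn
    rw [mem_coe, mem_filter, mem_Ioc] at hn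
    obtain ⟨⟨h1, h2⟩, e, rfl⟩ := hn
    refine ⟨e, ?_, rfl⟩
    rw [mem_coe, mem_Ioc]
    refine ⟨Nat.pos_of_mul_pos_left h1, ?_⟩
    rw [Nat.le_div_iff_mul_le hd0, mul_comm]
    exact h2
  · intro e _
    rfl

/-- `1 + t + ... + t^(n-1) ≥ n s^(n-1)`, `t = s²` -/
theorem XL1_geom (s : ℝ) (n : ℕ) :
    (n : ℝ) * s ^ (n - 1) ≤ ∑ i ∈ range n, (s ^ 2) ^ i := by
  have h1 : ∑ i ∈ range n, (s ^ 2) ^ (n - 1 - i) = ∑ i ∈ range n, (s ^ 2) ^ i :=
    sum_range_reflect (fun i => (s ^ 2) ^ i) n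
  have h2 : ∑ i ∈ range n, (2 * s ^ (n - 1)) ≤
      ∑ i ∈ range n, ((s ^ 2) ^ i + (s ^ 2) ^ (n - 1 - i)) := by
    refine sum_le_sum fun i hi => ?_
    have hi' := mem_range.1 hi
    have h3 : s ^ (n - 1) = s ^ i * s ^ (n - 1 - i) := by
      rw [← pow_add]
      congr 1
      omega
    rw [h3, ← pow_mul, ← pow_mul, mul_comm 2 i, mul_comm 2 (n - 1 - i), pow_mul, pow_mul]
    nlinarith [sq_nonneg (s ^ i - s ^ (n - 1 - i))]
  rw [sum_add_distrib, h1, sum_const, card_range, nsmul_eq_mul] at h2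
  linarith

/-- the coefficients of Monsky's proof -/
noncomputable def XL1_b (t : ℝ) (k : ℕ) : ℝ :=
  1 / ((k + 1) * (1 - t)) - t ^ (k + 1) / (1 - t ^ (k + 1))

theorem XL1_b_zero {t : ℝ} (ht1 : t < 1) : XL1_b t 0 = 1 := by
  unfold XL1_b
  have : 1 - t ≠ 0 := by linarith
  simp only [Nat.cast_zero, zero_add, one_mul, pow_one]
  field_simp

theorem XL1_g {t : ℝ} (ht1 : t < 1) (n : ℕ) :
    1 - t ^ n = (1 - t) * ∑ i ∈ range n, t ^ i := by
  have := mul_neg_geom_sum t n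
  rw [← this]

theorem XL1_b_anti {t : ℝ} (ht0 : 0 < t) (ht1 : t < 1) (k : ℕ) :
    XL1_b t (k + 1) ≤ XL1_b t k := by
  set s := √t with hs
  have hs2 : s ^ 2 = t := Real.sq_sqrt ht0.le
  have hs0 : 0 < s := Real.sqrt_pos.2 ht0
  have hs1 : s ≤ 1 := Real.sqrt_le_one.2 ht1.le
  have h1 := XL1_geom s (k + 1)
  have h2 := XL1_geom s (k + 2)
  rw [hs2] at h1 h2
  set g1 := ∑ i ∈ range (k + 1), t ^ i with hg1
  set g2 := ∑ i ∈ range (k + 2), t ^ i with hg2
  have e1 : 1 - t ^ (k + 1) = (1 - t) * g1 := XL1_g ht1 _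
  have e2 : 1 - t ^ (k + 2) = (1 - t) * g2 := XL1_g ht1 _
  have ht' : 0 < 1 - t := by linarith
  have hg1p : 0 < g1 := sum_pos (fun i _ => pow_pos ht0 i) ⟨0, mem_range.2 (by omega)⟩
  have hg2p : 0 < g2 := sum_pos (fun i _ => pow_pos ht0 i) ⟨0, mem_range.2 (by omega)⟩
  have h3 : ((k : ℝ) + 1) * (k + 2) * t ^ (k + 1) ≤ g1 * g2 := by
    have h4 : ((k : ℝ) + 1) * s ^ k ≤ g1 := by
      have : k + 1 - 1 = k := rfl
      rw [this] at h1
      push_cast at h1
      exact h1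
    have h5 : ((k : ℝ) + 2) * s ^ (k + 1) ≤ g2 := by
      have : k + 2 - 1 = k + 1 := rfl
      rw [this] at h2
      push_cast at h2
      exact h2
    have h6 : (((k : ℝ) + 1) * s ^ k) * (((k : ℝ) + 2) * s ^ (k + 1)) ≤ g1 * g2 :=
      mul_le_mul h4 h5 (by positivity) hg1p.le
    refine le_trans ?_ h6
    have h7 : t ^ (k + 1) ≤ s ^ k * s ^ (k + 1) := by
      rw [← hs2, ← pow_mul, ← pow_add]
      exact pow_le_pow_of_le_one hs0.le hs1 (by omega)
    calc ((k : ℝ) + 1) * (k + 2) * t ^ (k + 1) ≤ ((k : ℝ) + 1) * (k + 2) * (s ^ k * s ^ (k + 1)) :=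
          mul_le_mul_of_nonneg_left h7 (by positivity)
      _ = _ := by ring
  unfold XL1_b
  have e3 : k + 1 + 1 = k + 2 := rfl
  rw [e3, e1, e2]
  push_cast
  have h8 : t ^ (k + 1) / ((1 - t) * g1) - t ^ (k + 2) / ((1 - t) * g2) =
      t ^ (k + 1) / ((1 - t) * (g1 * g2)) := by
    have h9 : t ^ (k + 1) * g2 - t ^ (k + 2) * g1 = t ^ (k + 1) := by
      have h10 : g2 = g1 + t ^ (k + 1) := by rw [hg2, hg1, sum_range_succ]
      have h11 : t ^ (k + 2) = t ^ (k + 1) * t := pow_succ _ _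
      rw [h10, h11]
      have : t ^ (k + 1) * (g1 + t ^ (k + 1)) - t ^ (k + 1) * t * g1 =
          t ^ (k + 1) * ((1 - t) * g1 + t ^ (k + 1)) := by ring
      rw [this, ← e1]
      ring
    rw [div_sub_div _ _ (by positivity) (by positivity), div_eq_div_iff (by positivity) (by positivity)]
    calc (t ^ (k + 1) * ((1 - t) * g2) - (1 - t) * g1 * t ^ (k + 2)) * ((1 - t) * (g1 * g2))
        = (t ^ (k + 1) * g2 - t ^ (k + 2) * g1) * ((1 - t) * ((1 - t) * (g1 * g2))) := by ring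
      _ = _ := by rw [h9]; ring
  have h12 : t ^ (k + 1) / ((1 - t) * (g1 * g2)) ≤ 1 / ((1 - t) * (((k : ℝ) + 1) * (k + 2))) := by
    rw [div_le_div_iff₀ (by positivity) (by positivity)]
    nlinarith
  have h13 : 1 / (((k : ℝ) + 1) * (1 - t)) - 1 / (((k : ℝ) + 1 + 1) * (1 - t)) =
      1 / ((1 - t) * (((k : ℝ) + 1) * (k + 2))) := by
    have : (k : ℝ) + 1 + 1 = k + 2 := by ring
    rw [this, div_sub_div _ _ (by positivity) (by positivity),
      div_eq_div_iff (by positivity) (by positivity)]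
    ring
  linarith

theorem XL1_b_nonneg {t : ℝ} (ht0 : 0 < t) (ht1 : t < 1) (k : ℕ) : 0 ≤ XL1_b t k := by
  unfold XL1_b
  have ht' : 0 < 1 - t := by linarith
  set g1 := ∑ i ∈ range (k + 1), t ^ i with hg1
  have e1 : 1 - t ^ (k + 1) = (1 - t) * g1 := XL1_g ht1 _
  have hg1p : 0 < g1 := sum_pos (fun i _ => pow_pos ht0 i) ⟨0, mem_range.2 (by omega)⟩
  have h1 : ((k : ℝ) + 1) * t ^ (k + 1) ≤ g1 := by
    have : ∑ i ∈ range (k + 1), t ^ (k + 1) ≤ g1 := by
      refine sum_le_sum fun i hi => ?_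
      exact pow_le_pow_of_le_one ht0.le ht1.le (mem_range.1 hi).le
    rw [sum_const, card_range, nsmul_eq_mul] at this
    push_cast at this
    exact this
  rw [e1, sub_nonneg, div_le_div_iff₀ (by positivity) (by positivity)]
  nlinarith

theorem XL1_abel (r : ℕ) [NeZero r] (ψ : DirichletCharacter ℂ r) (hψ : ψ ≠ 1) {t : ℝ}
    (ht0 : 0 < t) (ht1 : t < 1) (K : ℕ) :
    ‖∑ k ∈ range K, ψ ((k + 1 : ℕ) : ZMod r) * (XL1_b t k : ℂ)‖ ≤ r := by
  rw [gl1_parts ψ (fun k => (XL1_b t k : ℂ)) K]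
  have h1 : ‖gl1_T ψ K * (XL1_b t K : ℂ)‖ ≤ r * XL1_b t K := by
    rw [norm_mul, Complex.norm_real, Real.norm_of_nonneg (XL1_b_nonneg ht0 ht1 K)]
    exact mul_le_mul_of_nonneg_right (gl1_T_bound r ψ hψ K) (XL1_b_nonneg ht0 ht1 K)
  have h2 : ‖∑ n ∈ range K, gl1_T ψ (n + 1) * ((XL1_b t n : ℂ) - (XL1_b t (n + 1) : ℂ))‖ ≤
      r * (XL1_b t 0 - XL1_b t K) := by
    refine (norm_sum_le _ _).trans ?_
    have h3 : XL1_b t 0 - XL1_b t K = ∑ n ∈ range K, (XL1_b t n - XL1_b t (n + 1)) :=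
      (sum_range_sub' _ _).symm
    rw [h3, mul_sum]
    refine sum_le_sum fun n _ => ?_
    have h4 : (XL1_b t n : ℂ) - (XL1_b t (n + 1) : ℂ) = ((XL1_b t n - XL1_b t (n + 1) : ℝ) : ℂ) := by
      push_cast; rfl
    have h5 : 0 ≤ XL1_b t n - XL1_b t (n + 1) := sub_nonneg.2 (XL1_b_anti ht0 ht1 n)
    rw [h4, norm_mul, Complex.norm_real, Real.norm_of_nonneg h5]
    exact mul_le_mul_of_nonneg_right (gl1_T_bound r ψ hψ _) h5
  refine (norm_add_le _ _).trans ((add_le_add h1 h2).trans (le_of_eq ?_))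
  rw [XL1_b_zero ht1]
  ring

theorem XL1_F (r : ℕ) (ψ : DirichletCharacter ℂ r)
    (hψ2 : ψ ^ 2 = 1) {t : ℝ} (ht0 : 0 < t) (ht1 : t < 1) {K M : ℕ} (hK : M ^ 2 ≤ K) :
    (∑ m ∈ Ioc 0 M, t ^ (m ^ 2)) - K * (t ^ K / (1 - t)) ≤
      (∑ k ∈ range K, ψ ((k + 1 : ℕ) : ZMod r) * ((t ^ (k + 1) / (1 - t ^ (k + 1)) : ℝ) : ℂ)).re := by
  have ht' : 0 < 1 - t := by linarith
  -- reindex
  have e0 : ∑ k ∈ range K, ψ ((k + 1 : ℕ) : ZMod r) * ((t ^ (k + 1) / (1 - t ^ (k + 1)) : ℝ) : ℂ) =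
      ∑ d ∈ Ioc 0 K, ψ (d : ZMod r) * ((t ^ d / (1 - t ^ d) : ℝ) : ℂ) := by
    have h4 : Ioc 0 K = Ico 1 (K + 1) := by
      ext x
      simp only [mem_Ioc, mem_Ico]
      omega
    rw [h4, sum_Ico_eq_sum_range]
    refine sum_congr rfl fun n _ => ?_
    rw [add_comm 1 n]
  have e1 : ∀ d ∈ Ioc 0 K, ψ (d : ZMod r) * ((t ^ d / (1 - t ^ d) : ℝ) : ℂ) =
      ∑ e ∈ Ioc 0 (K / d), ψ (d : ZMod r) * ((t ^ (d * e) : ℝ) : ℂ) +
        ψ (d : ZMod r) * ((t ^ (d * (K / d + 1)) / (1 - t ^ d) : ℝ) : ℂ) := by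
    intro d hd
    have hd0 : d ≠ 0 := by have := (mem_Ioc.1 hd).1; omega
    have htd : t ^ d < 1 := pow_lt_one₀ ht0.le ht1 hd0
    have htd' : 1 - t ^ d ≠ 0 := by linarith
    rw [← mul_sum, ← mul_add]
    congr 1
    rw [← Complex.ofReal_sum, ← Complex.ofReal_add]
    congr 1
    have h4 : Ioc 0 (K / d) = Ico 1 (K / d + 1) := by
      ext x
      simp only [mem_Ioc, mem_Ico]
      omega
    rw [h4, sum_Ico_eq_sum_range, Nat.add_sub_cancel]
    have h5 : ∑ k ∈ range (K / d), t ^ (d * (1 + k)) = t ^ d * ∑ k ∈ range (K / d), (t ^ d) ^ k := by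
      rw [mul_sum]
      refine sum_congr rfl fun k _ => ?_
      rw [← pow_mul, ← pow_add]
      congr 1
      ring
    have h6 := mul_neg_geom_sum (t ^ d) (K / d)
    have h7 : ∑ k ∈ range (K / d), (t ^ d) ^ k = (1 - (t ^ d) ^ (K / d)) / (1 - t ^ d) := by
      rw [eq_div_iff htd', mul_comm, h6]
    rw [h5, h7, mul_add, pow_add, mul_one, pow_mul]
    field_simp
    ring
  rw [e0, sum_congr rfl e1, sum_add_distrib,
    ← XL1_swap K (fun d n => ψ (d : ZMod r) * ((t ^ n : ℝ) : ℂ)), Complex.add_re]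
  have h1 : ∑ m ∈ Ioc 0 M, t ^ (m ^ 2) ≤
      (∑ n ∈ Ioc 0 K, ∑ d ∈ n.divisors, ψ (d : ZMod r) * ((t ^ n : ℝ) : ℂ)).re := by
    have h2 : (∑ n ∈ Ioc 0 K, ∑ d ∈ n.divisors, ψ (d : ZMod r) * ((t ^ n : ℝ) : ℂ)).re =
        ∑ n ∈ Ioc 0 K, (DirichletCharacter.zetaMul ψ n).re * t ^ n := by
      rw [Complex.re_sum]
      refine sum_congr rfl fun n _ => ?_
      rw [← sum_mul, ← XL1_zm_eq, Complex.re_mul_ofReal]
    rw [h2]
    have h3 : ∑ n ∈ (Ioc 0 M).image (fun m => m ^ 2), (DirichletCharacter.zetaMul ψ n).re * t ^ n ≤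
        ∑ n ∈ Ioc 0 K, (DirichletCharacter.zetaMul ψ n).re * t ^ n := by
      refine sum_le_sum_of_subset_of_nonneg ?_ ?_
      · intro n hn
        obtain ⟨m, hm, rfl⟩ := mem_image.1 hn
        obtain ⟨hm1, hm2⟩ := mem_Ioc.1 hm
        rw [mem_Ioc]
        exact ⟨by positivity, (Nat.pow_le_pow_left hm2 2).trans hK⟩
      · intro n _ _
        exact mul_nonneg (XL1_zm_re hψ2 n) (by positivity)
    refine le_trans ?_ h3
    rw [sum_image]
    · refine sum_le_sum fun m hm => ?_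
      have hm1 := (mem_Ioc.1 hm).1
      have := XL1_zm_sq_re hψ2 (m := m) (by omega)
      exact le_mul_of_one_le_left (by positivity) this
    · intro a _ b _ hab
      exact Nat.pow_left_injective (n := 2) (by norm_num) hab
  have h8 : -(K * (t ^ K / (1 - t))) ≤
      (∑ d ∈ Ioc 0 K, ψ (d : ZMod r) * ((t ^ (d * (K / d + 1)) / (1 - t ^ d) : ℝ) : ℂ)).re := by
    refine le_trans ?_ (neg_le_of_abs_le (Complex.abs_re_le_norm _))
    rw [neg_le_neg_iff]
    refine (norm_sum_le _ _).trans ((sum_le_sum (g := fun _ => t ^ K / (1 - t)) ?_).trans ?_)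
    · intro d hd
      have hd1 : 0 < d := (mem_Ioc.1 hd).1
      have hd0 : d ≠ 0 := by omega
      have htd : t ^ d < 1 := pow_lt_one₀ ht0.le ht1 hd0
      have htd' : 0 < 1 - t ^ d := by linarith
      rw [norm_mul, Complex.norm_real, Real.norm_of_nonneg (by positivity)]
      have h9 : t ^ (d * (K / d + 1)) / (1 - t ^ d) ≤ t ^ K / (1 - t) := by
        refine div_le_div₀ (by positivity) ?_ ht' ?_
        · exact pow_le_pow_of_le_one ht0.le ht1.le (Nat.lt_mul_div_succ K hd1).le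
        · have : t ^ d ≤ t := pow_le_of_le_one ht0.le ht1.le hd0
          linarith
      calc _ ≤ 1 * (t ^ K / (1 - t)) :=
            mul_le_mul (DirichletCharacter.norm_le_one ψ _) h9 (by positivity) (by norm_num)
        _ = _ := one_mul _
    · rw [sum_const, Nat.card_Ioc, Nat.sub_zero, nsmul_eq_mul]
  linarith

/-- `|L(1,ψ)| ≥ 1/(100 r)` for a real character `ψ ≠ 1` mod `r`.

Proof (Lambert series). `a(n) = ∑_{d ∣ n} ψ(d) ≥ 0` (real part; multiplicative), `a(n) ≥ 1` for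
squares (`DirichletCharacter` file on `BadChar`/nonvanishing has `zetaMul_nonneg`). For `x ≥ 1`:
`∑_n a(n) e^(-n/x) = ∑_d ψ(d)/(e^(d/x) - 1) = x L(1,ψ) + ∑_d ψ(d) g(d/x)`,
`g(u) = 1/(e^u - 1) - 1/u`, increasing from `-1/2` to `0` on `(0, ∞)`; the partial sums of `ψ` are
at most `r` in norm, so the last sum is at most `r/2·1`... (Abel summation: `≤ r · 1/2`). The left
side is at least `∑_{m ≤ √x} e^(-1) ≥ (√x - 1)/e`. With `x = 16 r²`:
`16 r² L(1,ψ) ≥ (4r - 1)/e - r/2 ≥ r/2`. (`L(1,ψ) = ∑ ψ(d)/d`, conditionally convergent: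
`DirichletCharacter.LFunction` at `1` is the limit of the partial sums; or work with `e^(-n/x)` and
`s → 1+`, any argument is fine. The constant `100` is not important.) -/
theorem L1_lower (r : ℕ) [NeZero r] (ψ : DirichletCharacter ℂ r) (hψ : ψ ≠ 1)
    (hψ2 : ψ ^ 2 = 1) : 1 / (100 * (r : ℝ)) ≤ ‖ψ.LFunction 1‖ := by
  have hr1 : 1 ≤ r := Nat.one_le_iff_ne_zero.2 (NeZero.ne r)
  have hr : (1 : ℝ) ≤ r := by exact_mod_cast hr1
  set N : ℝ := 64 * (r : ℝ) ^ 2 with hN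
  have hN0 : 0 < N := by positivity
  have hN64 : 64 ≤ N := by rw [hN]; nlinarith
  set t : ℝ := 1 - 1 / N with ht
  have htN : 1 - t = 1 / N := by rw [ht]; ring
  have hNi : 1 / N ≤ 1 / 64 := one_div_le_one_div_of_le (by norm_num) hN64
  have hNi0 : 0 < 1 / N := by positivity
  have ht0 : 0 < t := by rw [ht]; linarith
  have ht1 : t < 1 := by rw [ht]; linarith
  have hinv : 1 / (1 - t) = N := by rw [htN, one_div_one_div]
  -- powers of t
  have hpow : (1 / 4 : ℝ) ≤ t ^ (64 * r ^ 2) := by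
    have h1 := one_add_mul_le_pow (a := -(1 / N)) (by linarith) (32 * r ^ 2)
    have h2 : 1 + ((32 * r ^ 2 : ℕ) : ℝ) * -(1 / N) = 1 / 2 := by
      push_cast
      rw [hN]
      have : (r : ℝ) ^ 2 ≠ 0 := by positivity
      field_simp
      norm_num
    rw [h2] at h1
    have h3 : 1 + -(1 / N) = t := by rw [ht]; ring
    rw [h3] at h1
    have h4 : t ^ (64 * r ^ 2) = (t ^ (32 * r ^ 2)) ^ 2 := by
      rw [← pow_mul]
      congr 1
      ring
    rw [h4]
    nlinarith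
  have hsum : 2 * (r : ℝ) ≤ ∑ m ∈ Ioc 0 (8 * r), t ^ (m ^ 2) := by
    have h1 : ∑ m ∈ Ioc 0 (8 * r), (1 / 4 : ℝ) ≤ ∑ m ∈ Ioc 0 (8 * r), t ^ (m ^ 2) := by
      refine sum_le_sum fun m hm => hpow.trans ?_
      refine pow_le_pow_of_le_one ht0.le ht1.le ?_
      have := (mem_Ioc.1 hm).2
      nlinarith
    rw [sum_const, Nat.card_Ioc, Nat.sub_zero, nsmul_eq_mul] at h1
    push_cast at h1
    linarith
  have key : ∀ K : ℕ, 64 * r ^ 2 ≤ K →
      (r : ℝ) - N * (K * t ^ K) - N * (2 * r / (K + 1)) ≤ N * ‖ψ.LFunction 1‖ := by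
    intro K hK
    have h1 := XL1_abel r ψ hψ ht0 ht1 K
    have h2 := XL1_F r ψ hψ2 ht0 ht1 (K := K) (M := 8 * r) (by nlinarith)
    have h3 := XRH_tail r ψ hψ K
    set FK := ∑ k ∈ range K, ψ ((k + 1 : ℕ) : ZMod r) * ((t ^ (k + 1) / (1 - t ^ (k + 1)) : ℝ) : ℂ)
      with hFK
    set SK := ∑ d ∈ Ioc 0 K, ψ (d : ZMod r) / d with hSK
    have h4 : ∑ k ∈ range K, ψ ((k + 1 : ℕ) : ZMod r) * (XL1_b t k : ℂ) = (N : ℂ) * SK - FK := by
      have h5 : SK = ∑ n ∈ range K, ψ ((n + 1 : ℕ) : ZMod r) * ((1 : ℂ) / (n + 1)) := by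
        have h4 : Ioc 0 K = Ico 1 (K + 1) := by
          ext x
          simp only [mem_Ioc, mem_Ico]
          omega
        rw [hSK, h4, sum_Ico_eq_sum_range]
        refine sum_congr rfl fun n _ => ?_
        rw [add_comm 1 n]
        push_cast
        ring
      rw [h5, hFK, mul_sum, ← sum_sub_distrib]
      refine sum_congr rfl fun k _ => ?_
      have h6 : XL1_b t k = N * (1 / ((k : ℝ) + 1)) - t ^ (k + 1) / (1 - t ^ (k + 1)) := by
        unfold XL1_b
        rw [← hinv]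
        congr 1
        rw [div_mul_div_comm, one_mul, mul_comm]
      rw [h6]
      push_cast
      ring
    rw [h4] at h1
    have h7 : FK.re ≤ r + N * ‖SK‖ := by
      have h8 : ‖FK‖ ≤ ‖(N : ℂ) * SK - FK‖ + ‖(N : ℂ) * SK‖ := by
        have : FK = (N : ℂ) * SK - ((N : ℂ) * SK - FK) := by ring
        nth_rewrite 1 [this]
        refine (norm_sub_le _ _).trans (le_of_eq (add_comm _ _))
      have h9 : ‖(N : ℂ) * SK‖ = N * ‖SK‖ := by
        rw [norm_mul, Complex.norm_real, Real.norm_of_nonneg hN0.le]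
      have h10 := Complex.re_le_norm FK
      linarith
    have h11 : ‖SK‖ ≤ ‖ψ.LFunction 1‖ + 2 * r / (K + 1) := by
      have : SK = ψ.LFunction 1 - (ψ.LFunction 1 - SK) := by ring
      rw [this]
      refine (norm_sub_le _ _).trans (by linarith)
    have h12 : (K : ℝ) * (t ^ K / (1 - t)) = N * (K * t ^ K) := by
      rw [← hinv]
      ring
    rw [h12] at h2
    have h13 := mul_le_mul_of_nonneg_left h11 hN0.le
    rw [mul_add] at h13
    linarith
  have hlim : Filter.Tendsto (fun K : ℕ => (r : ℝ) - N * (K * t ^ K) - N * (2 * r / (K + 1)))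
      Filter.atTop (nhds ((r : ℝ) - N * 0 - N * 0)) := by
    refine ((tendsto_const_nhds).sub (Filter.Tendsto.const_mul _ ?_)).sub
      (Filter.Tendsto.const_mul _ ?_)
    · exact tendsto_self_mul_const_pow_of_lt_one ht0.le ht1
    · have h1 := (tendsto_one_div_add_atTop_nhds_zero_nat (𝕜 := ℝ)).const_mul (2 * (r : ℝ))
      rw [mul_zero] at h1
      refine h1.congr fun K => ?_
      ring
  have hfin : (r : ℝ) - N * 0 - N * 0 ≤ N * ‖ψ.LFunction 1‖ :=
    le_of_tendsto hlim ((Filter.eventually_ge_atTop (64 * r ^ 2)).mono fun K hK => key K hK)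
  have h1 : (r : ℝ) ≤ 64 * (r : ℝ) ^ 2 * ‖ψ.LFunction 1‖ := by
    rw [← hN]; linarith
  rw [div_le_iff₀ (by positivity)]
  have h2 : (r : ℝ) * 1 ≤ r * (64 * (r : ℝ) * ‖ψ.LFunction 1‖) := by nlinarith
  have h3 := le_of_mul_le_mul_left h2 (by linarith)
  have h4 : 0 ≤ (r : ℝ) * ‖ψ.LFunction 1‖ := by positivity
  nlinarith

end Pool.Agent.Lib.H68T
end

-- from Lib.H68X.XSIE
section

/-!
# Chunk XSIE: real zeros, elementary bound
-/

open Finset

namespace Pool.Agent.Lib.H68T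

/-- Cauchy estimate for the derivative of `L(·,ψ)` near `1`. -/
theorem XSIE_deriv (r : ℕ) [NeZero r] (ψ : DirichletCharacter ℂ r) (hψ : ψ ≠ 1) (σ : ℝ)
    (h1 : 3 / 4 ≤ σ) (h2 : σ ≤ 1) : ‖deriv ψ.LFunction (σ : ℂ)‖ ≤ 10 * r := by
  have hd : Differentiable ℂ ψ.LFunction := DirichletCharacter.differentiable_LFunction hψ
  have hr : (0 : ℝ) ≤ r := Nat.cast_nonneg r
  have hb : ∀ z ∈ Metric.sphere (σ : ℂ) (1 / 4), ‖ψ.LFunction z‖ ≤ 5 / 2 * r := by
    intro z hz
    rw [mem_sphere_iff_norm] at hz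
    have hre : |z.re - σ| ≤ 1 / 4 := by
      have := Complex.abs_re_le_norm (z - σ)
      rw [hz] at this
      simpa using this
    have hre1 : (1 : ℝ) / 2 ≤ z.re := by
      have := (abs_le.1 hre).1
      linarith
    have hz2 : ‖z‖ ≤ 5 / 4 := by
      have h3 : ‖z‖ ≤ ‖z - σ‖ + ‖(σ : ℂ)‖ := by
        have := norm_add_le (z - σ) (σ : ℂ)
        simpa using this
      rw [hz, Complex.norm_real, Real.norm_eq_abs, abs_of_nonneg (by linarith)] at h3
      linarith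
    have h4 := LFunction_bound r ψ hψ z (by linarith)
    refine h4.trans ?_
    nlinarith
  have := Complex.norm_deriv_le_of_forall_mem_sphere_norm_le (c := (σ : ℂ)) (R := 1 / 4)
    (C := 5 / 2 * r) (f := ψ.LFunction) (by norm_num) hd.diffContOnCl hb
  refine this.trans (le_of_eq ?_)
  ring

/-- A real zero `β < 1` of `L(·,ψ)` satisfies `1 - β ≥ c/r²`. If `β ≤ 3/4` clear. Otherwise
`|L(1)| = |L(1) - L(β)| ≤ (1-β) sup_{[β,1]} |L'|`, and `|L'(σ)| ≤ 4 sup_{|s-σ|=1/4} |L(s)| ≤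
4 · 2 r · 5/4 = 10 r` by Cauchy and `LFunction_bound`; `L1_lower`. -/
theorem zero_elementary : ∃ c : ℝ, 0 < c ∧ ∀ (r : ℕ) [NeZero r] (ψ : DirichletCharacter ℂ r),
    ψ ≠ 1 → ψ ^ 2 = 1 → ∀ β : ℝ, β < 1 → ψ.LFunction (β : ℂ) = 0 → c / (r : ℝ) ^ 2 ≤ 1 - β := by
  refine ⟨1 / 1000, by norm_num, ?_⟩
  intro r _ ψ hψ hψ2 β hβ h0
  have hr : (1 : ℝ) ≤ r := by
    have : 0 < r := Nat.pos_of_ne_zero (NeZero.ne r)
    exact_mod_cast this
  have hr2 : (1 : ℝ) ≤ (r : ℝ) ^ 2 := one_le_pow₀ hr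
  by_cases hb : β ≤ 3 / 4
  · have : (1 / 1000 : ℝ) / (r : ℝ) ^ 2 ≤ 1 / 1000 := div_le_self (by norm_num) hr2
    linarith
  · have hb' : 3 / 4 < β := not_le.1 hb
    have hd : Differentiable ℂ ψ.LFunction := DirichletCharacter.differentiable_LFunction hψ
    have hseg : ∀ z ∈ segment ℝ (β : ℂ) 1, ∃ t : ℝ, z = t ∧ β ≤ t ∧ t ≤ 1 := by
      rintro z ⟨a, b, ha, hb1, hab, rfl⟩
      refine ⟨a * β + b, ?_, ?_, ?_⟩
      · simp
      · have : b = 1 - a := by linarith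
        subst this
        nlinarith
      · have : b = 1 - a := by linarith
        subst this
        nlinarith
    have hmv := (convex_segment (β : ℂ) (1 : ℂ)).norm_image_sub_le_of_norm_deriv_le
      (𝕜 := ℂ) (f := ψ.LFunction) (C := 10 * r) (s := segment ℝ (β : ℂ) 1)
      (x := (β : ℂ)) (y := 1) (fun z _ => hd z) ?_ (left_mem_segment ℝ _ _)
      (right_mem_segment ℝ _ _)
    · rw [h0, sub_zero] at hmv
      have h1 := L1_lower r ψ hψ hψ2
      have h2 : ‖(1 : ℂ) - (β : ℂ)‖ = 1 - β := by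
        have : (1 : ℂ) - (β : ℂ) = ((1 - β : ℝ) : ℂ) := by push_cast; ring
        rw [this, Complex.norm_real, Real.norm_eq_abs, abs_of_pos (by linarith)]
      rw [h2] at hmv
      have h3 := h1.trans hmv
      rw [div_le_iff₀ (by positivity)] at h3
      rw [div_le_iff₀ (by positivity)]
      nlinarith
    · intro z hz
      obtain ⟨t, rfl, ht1, ht2⟩ := hseg z hz
      exact XSIE_deriv r ψ hψ t (by linarith) ht2

end Pool.Agent.Lib.H68T
end

-- from Lib.H68T.MV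
section

/-!
# Chunk MV: mean value theorem for the Möbius polynomials (crude large sieve)
-/

open Finset MeasureTheory ComplexConjugate

namespace Pool.Agent.Lib.H68T

/-- the function `y^(-(1+iu))` -/
noncomputable def mvg (u : ℝ) (y : ℝ) : ℂ := (y : ℂ) ^ (-(1 + u * Complex.I))

lemma mv_norm_g (u : ℝ) {y : ℝ} (hy : 0 < y) : ‖mvg u y‖ = 1 / y := by
  unfold mvg
  rw [Complex.norm_cpow_eq_rpow_re_of_pos hy]
  simp [Real.rpow_neg_one]

lemma mv_hasDeriv (u : ℝ) {y : ℝ} (hy : 0 < y) :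
    HasDerivAt (mvg u) (-(1 + u * Complex.I) * (y : ℂ) ^ (-(1 + u * Complex.I) - 1)) y := by
  unfold mvg
  have h := (hasDerivAt_id (y : ℂ)).cpow_const (c := -(1 + u * Complex.I))
    (Or.inl (by simpa using hy))
  have h2 := h.comp_ofReal
  simpa using h2

lemma mv_norm_deriv (u : ℝ) {y : ℝ} (hy : 0 < y) :
    ‖-(1 + u * Complex.I) * (y : ℂ) ^ (-(1 + u * Complex.I) - 1)‖ ≤ (1 + |u|) * (1 / y ^ 2) := by
  rw [norm_mul, Complex.norm_cpow_eq_rpow_re_of_pos hy]
  have h1 : ‖-(1 + u * Complex.I)‖ ≤ 1 + |u| := by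
    rw [norm_neg]
    refine (norm_add_le _ _).trans ?_
    simp
  have h2 : y ^ (-(1 + u * Complex.I) - 1).re = 1 / y ^ 2 := by
    have : (-(1 + u * Complex.I) - 1).re = -2 := by simp; norm_num
    rw [this, Real.rpow_neg hy.le]
    norm_num
  rw [h2]
  exact mul_le_mul_of_nonneg_right h1 (by positivity)

lemma mv_diff (u : ℝ) {a b : ℝ} (ha : 0 < a) (hab : a ≤ b) :
    ‖mvg u b - mvg u a‖ ≤ (1 + |u|) * (1 / a - 1 / b) := by
  have hpos : ∀ x ∈ Set.Icc a b, 0 < x := fun x hx => ha.trans_le hx.1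
  have hd : ∀ x ∈ Set.Icc a b, HasDerivAt (fun y => mvg u y - mvg u a)
      (-(1 + u * Complex.I) * (x : ℂ) ^ (-(1 + u * Complex.I) - 1)) x := fun x hx =>
    (mv_hasDeriv u (hpos x hx)).sub_const _
  have hB : ∀ x ∈ Set.Icc a b, HasDerivAt (fun y : ℝ => (1 + |u|) * (1 / a - 1 / y))
      ((1 + |u|) * (1 / x ^ 2)) x := fun x hx => by
    have h1 : HasDerivAt (fun y : ℝ => y⁻¹) (-(x ^ 2)⁻¹) x := hasDerivAt_inv (hpos x hx).ne'
    have h2 := ((h1.const_sub (1 / a)).const_mul (1 + |u|))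
    simpa [one_div] using h2
  have h := image_norm_le_of_norm_deriv_right_le_deriv_boundary' (a := a) (b := b)
    (f := fun y => mvg u y - mvg u a)
    (f' := fun x => -(1 + u * Complex.I) * (x : ℂ) ^ (-(1 + u * Complex.I) - 1))
    (B := fun y : ℝ => (1 + |u|) * (1 / a - 1 / y)) (B' := fun x => (1 + |u|) * (1 / x ^ 2))
    (fun x hx => (hd x hx).continuousAt.continuousWithinAt)
    (fun x hx => (hd x ⟨hx.1, hx.2.le⟩).hasDerivWithinAt)
    (by simp)
    (fun x hx => (hB x hx).continuousAt.continuousWithinAt)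
    (fun x hx => (hB x ⟨hx.1, hx.2.le⟩).hasDerivWithinAt)
    (fun x hx => mv_norm_deriv u (hpos x ⟨hx.1, hx.2.le⟩))
  exact h ⟨hab, le_refl b⟩

/-- partial sums of the centred periodic function are bounded -/
lemma mv_partial (q : ℕ) (hq : 1 ≤ q) (f : ℕ → ℂ) (hf : ∀ n, f (n + q) = f n)
    (hf1 : ∀ n, ‖f n‖ ≤ 1) (A : ℕ) : ∀ N : ℕ,
    ‖∑ a ∈ range N, (f (A + a) - (∑ a ∈ range q, f a) / q)‖ ≤ 2 * q := by
  have hq0 : (0 : ℝ) < q := by exact_mod_cast hq
  have hqC : (q : ℂ) ≠ 0 := by exact_mod_cast (by omega : q ≠ 0)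
  set fm : ℂ := (∑ a ∈ range q, f a) / q with hfm
  have hfm1 : ‖fm‖ ≤ 1 := by
    rw [hfm, norm_div, Complex.norm_natCast, div_le_one hq0]
    refine (norm_sum_le _ _).trans ?_
    refine (Finset.sum_le_sum (fun a _ => hf1 a)).trans ?_
    simp
  -- a full period starting anywhere has zero centred sum
  have hper : ∀ B : ℕ, ∑ a ∈ range q, f (B + a) = ∑ a ∈ range q, f a := by
    intro B
    induction B with
    | zero => simp
    | succ B ih =>
      rw [← ih]
      have e1 : ∑ a ∈ range (q + 1), f (B + a) = ∑ a ∈ range q, f (B + a) + f (B + q) :=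
        Finset.sum_range_succ _ _
      have e2 : ∑ a ∈ range (q + 1), f (B + a) = ∑ a ∈ range q, f (B + (a + 1)) + f (B + 0) :=
        Finset.sum_range_succ' _ _
      have e3 : f (B + q) = f B := hf B
      have e4 : ∑ a ∈ range q, f (B + 1 + a) = ∑ a ∈ range q, f (B + (a + 1)) := by
        apply Finset.sum_congr rfl; intro a _; congr 1; ring
      rw [e4]
      rw [e1] at e2
      rw [e3] at e2
      simp only [add_zero] at e2
      exact (add_right_cancel e2).symm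
  intro N
  induction N using Nat.strong_induction_on with
  | _ N ih =>
    rcases lt_or_ge N q with h | h
    · refine (norm_sum_le _ _).trans ?_
      have h1 : ∀ a ∈ range N, ‖f (A + a) - fm‖ ≤ 2 := fun a _ =>
        (norm_sub_le _ _).trans (by linarith [hf1 (A + a)])
      refine (Finset.sum_le_sum h1).trans ?_
      rw [Finset.sum_const, card_range, nsmul_eq_mul]
      have : (N : ℝ) ≤ q := by exact_mod_cast h.le
      linarith
    · obtain ⟨M, rfl⟩ := Nat.exists_eq_add_of_le' h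
      have h1 := ih M (by omega)
      rw [Finset.sum_range_add]
      have h2 : ∑ x ∈ range q, (f (A + (M + x)) - fm) = 0 := by
        rw [Finset.sum_sub_distrib]
        have e1 : ∑ x ∈ range q, f (A + (M + x)) = ∑ a ∈ range q, f a := by
          rw [← hper (A + M)]
          apply Finset.sum_congr rfl; intro a _; congr 1; ring
        rw [e1, Finset.sum_const, card_range, nsmul_eq_mul, hfm]
        field_simp
        ring
      rw [h2, add_zero]
      exact h1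

lemma mv_sum (q : ℕ) (f : ℕ → ℂ) (A : ℕ) (hA : 1 ≤ A) (u : ℝ) (D : ℝ) (hD : 0 ≤ D)
    (hE : ∀ N : ℕ, ‖∑ a ∈ range N, f a‖ ≤ D) (n : ℕ) :
    ‖∑ a ∈ range (n + 1), f a * mvg u ((A + a : ℕ) : ℝ)‖ ≤ D * (1 + |u|) / A := by
  have hA0 : (0 : ℝ) < A := by exact_mod_cast hA
  have h1 := Finset.sum_range_by_parts (fun k => mvg u ((A + k : ℕ) : ℝ)) f (n + 1)
  simp only [smul_eq_mul, add_tsub_cancel_right] at h1
  have h2 : ∑ a ∈ range (n + 1), f a * mvg u ((A + a : ℕ) : ℝ) =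
      ∑ a ∈ range (n + 1), mvg u ((A + a : ℕ) : ℝ) * f a :=
    Finset.sum_congr rfl fun a _ => mul_comm _ _
  rw [h2, h1]
  refine (norm_sub_le _ _).trans ?_
  have h3 : ‖mvg u ((A + n : ℕ) : ℝ) * ∑ i ∈ range (n + 1), f i‖ ≤ D * (1 / (A + n : ℕ)) := by
    rw [norm_mul, mv_norm_g u (by exact_mod_cast (by omega : 0 < A + n)), mul_comm]
    exact mul_le_mul_of_nonneg_right (hE _) (by positivity)
  have h4 : ‖∑ i ∈ range n, (mvg u ((A + (i + 1) : ℕ) : ℝ) - mvg u ((A + i : ℕ) : ℝ)) *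
      ∑ j ∈ range (i + 1), f j‖ ≤ D * ((1 + |u|) * (1 / (A : ℝ) - 1 / (A + n : ℕ))) := by
    refine (norm_sum_le _ _).trans ?_
    have h5 : ∀ i ∈ range n, ‖(mvg u ((A + (i + 1) : ℕ) : ℝ) - mvg u ((A + i : ℕ) : ℝ)) *
        ∑ j ∈ range (i + 1), f j‖ ≤
        D * (1 + |u|) * (1 / ((A + i : ℕ) : ℝ) - 1 / ((A + (i + 1) : ℕ) : ℝ)) := by
      intro i _
      rw [norm_mul]
      have := mv_diff u (a := ((A + i : ℕ) : ℝ)) (b := ((A + (i + 1) : ℕ) : ℝ))
        (by exact_mod_cast (by omega : 0 < A + i)) (by exact_mod_cast (by omega : A + i ≤ A + (i + 1)))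
      calc _ ≤ ((1 + |u|) * (1 / ((A + i : ℕ) : ℝ) - 1 / ((A + (i + 1) : ℕ) : ℝ))) * D :=
            mul_le_mul this (hE _) (norm_nonneg _) ((norm_nonneg _).trans this)
        _ = _ := by ring
    refine (Finset.sum_le_sum h5).trans ?_
    rw [← Finset.mul_sum, Finset.sum_range_sub' (fun i => 1 / ((A + i : ℕ) : ℝ))]
    simp only [add_zero]
    rw [mul_assoc]
  refine (add_le_add h3 h4).trans ?_
  have h6 : (0 : ℝ) ≤ 1 / (A + n : ℕ) := by positivity
  have h7 : 0 ≤ |u| := abs_nonneg u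
  have h8 : D * (1 + |u|) / A = D * (1 + |u|) * (1 / A) := by ring
  rw [h8]
  have h9 : 0 ≤ D * |u| * (1 / ((A + n : ℕ) : ℝ)) := by positivity
  nlinarith

lemma mv_int (A n : ℕ) (hA : 1 ≤ A) (u : ℝ) :
    ‖∑ a ∈ range (n + 1), mvg u ((A + a : ℕ) : ℝ) -
      ∫ y in (A : ℝ)..((A + n : ℕ) : ℝ), mvg u y‖ ≤ 2 * (1 + |u|) / A := by
  have hA0 : (0 : ℝ) < A := by exact_mod_cast hA
  have hcont : ContinuousOn (mvg u) (Set.Ioi 0) := fun y hy =>
    (mv_hasDeriv u hy).continuousAt.continuousWithinAt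
  have hint : ∀ a b : ℝ, 0 < a → a ≤ b → IntervalIntegrable (mvg u) volume a b := fun a b ha hab =>
    (hcont.mono (fun x hx => by
      rw [Set.uIcc_of_le hab] at hx
      exact ha.trans_le hx.1)).intervalIntegrable
  have hadj := intervalIntegral.sum_integral_adjacent_intervals (μ := volume) (f := mvg u)
    (a := fun k => ((A + k : ℕ) : ℝ)) (n := n) (fun k _ => hint _ _
      (by exact_mod_cast (by omega : 0 < A + k)) (by exact_mod_cast (by omega : A + k ≤ A + (k + 1))))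
  simp only [add_zero] at hadj
  rw [← hadj, Finset.sum_range_succ', add_sub_right_comm, ← Finset.sum_sub_distrib]
  refine (norm_add_le _ _).trans ?_
  have h1 : ‖mvg u ((A + 0 : ℕ) : ℝ)‖ ≤ 1 / A := by
    rw [add_zero, mv_norm_g u hA0]
  have h2 : ‖∑ k ∈ range n, (mvg u ((A + (k + 1) : ℕ) : ℝ) -
      ∫ y in ((A + k : ℕ) : ℝ)..((A + (k + 1) : ℕ) : ℝ), mvg u y)‖ ≤
      (1 + |u|) * (1 / A - 1 / (A + n : ℕ)) := by
    refine (norm_sum_le _ _).trans ?_
    have h3 : ∀ k ∈ range n, ‖mvg u ((A + (k + 1) : ℕ) : ℝ) -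
      ∫ y in ((A + k : ℕ) : ℝ)..((A + (k + 1) : ℕ) : ℝ), mvg u y‖ ≤
        (1 + |u|) * (1 / ((A + k : ℕ) : ℝ) - 1 / ((A + (k + 1) : ℕ) : ℝ)) := by
      intro k _
      have hk0 : (0 : ℝ) < ((A + k : ℕ) : ℝ) := by exact_mod_cast (by omega : 0 < A + k)
      have hk1 : ((A + k : ℕ) : ℝ) ≤ ((A + (k + 1) : ℕ) : ℝ) := by
        exact_mod_cast (by omega : A + k ≤ A + (k + 1))
      have e1 : mvg u ((A + (k + 1) : ℕ) : ℝ) =
          ∫ y in ((A + k : ℕ) : ℝ)..((A + (k + 1) : ℕ) : ℝ), mvg u ((A + (k + 1) : ℕ) : ℝ) := by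
        rw [intervalIntegral.integral_const]
        push_cast
        simp
      have e2 : mvg u ((A + (k + 1) : ℕ) : ℝ) -
          ∫ y in ((A + k : ℕ) : ℝ)..((A + (k + 1) : ℕ) : ℝ), mvg u y =
          ∫ y in ((A + k : ℕ) : ℝ)..((A + (k + 1) : ℕ) : ℝ),
            (mvg u ((A + (k + 1) : ℕ) : ℝ) - mvg u y) := by
        rw [intervalIntegral.integral_sub intervalIntegrable_const (hint _ _ hk0 hk1), ← e1]
      rw [e2]
      have h5 := intervalIntegral.norm_integral_le_of_norm_le_const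
        (a := ((A + k : ℕ) : ℝ)) (b := ((A + (k + 1) : ℕ) : ℝ))
        (f := fun y => mvg u ((A + (k + 1) : ℕ) : ℝ) - mvg u y)
        (C := (1 + |u|) * (1 / ((A + k : ℕ) : ℝ) - 1 / ((A + (k + 1) : ℕ) : ℝ))) (fun y hy => by
          rw [Set.uIoc_of_le hk1] at hy
          refine (mv_diff u (hk0.trans hy.1) hy.2).trans ?_
          apply mul_le_mul_of_nonneg_left _ (by positivity)
          have := one_div_le_one_div_of_le hk0 hy.1.le
          linarith)
      have h6 : |((A + (k + 1) : ℕ) : ℝ) - ((A + k : ℕ) : ℝ)| = 1 := by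
        push_cast; rw [show (A : ℝ) + (k + 1) - (A + k) = 1 by ring, abs_one]
      rw [h6, mul_one] at h5
      exact h5
    refine (Finset.sum_le_sum h3).trans ?_
    rw [← Finset.mul_sum, Finset.sum_range_sub' (fun i => 1 / ((A + i : ℕ) : ℝ))]
    simp only [add_zero]
    exact le_refl _
  refine (add_le_add h2 h1).trans ?_
  have h6 : (0 : ℝ) ≤ 1 / (A + n : ℕ) := by positivity
  have h7 : 0 ≤ |u| := abs_nonneg u
  have h8 : 2 * (1 + |u|) / A = 2 * (1 + |u|) * (1 / A) := by ring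
  rw [h8]
  have h9 : 0 ≤ (1 + |u|) * (1 / ((A + n : ℕ) : ℝ)) := by positivity
  have h10 : 0 ≤ |u| * (1 / (A : ℝ)) := by positivity
  nlinarith

/-- Sums of a periodic function against `a^(-1+iu)`: for `f` periodic mod `q`, `|f| ≤ 1`, with mean
`fm`, `1 ≤ A ≤ V`: partial summation from `∑_{n ≤ y} f(n) = fm y + O(q)`. -/
theorem periodic_sum (q : ℕ) (hq : 1 ≤ q) (f : ℕ → ℂ) (hf : ∀ n, f (n + q) = f n)
    (hf1 : ∀ n, ‖f n‖ ≤ 1) (A V : ℕ) (hA : 1 ≤ A) (hAV : A ≤ V) (u : ℝ) :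
    ‖∑ a ∈ Icc A V, f a * (a : ℂ) ^ (-(1 + u * Complex.I)) -
      (∑ a ∈ range q, f a) / q * ∫ y in (A : ℝ)..V, (y : ℂ) ^ (-(1 + u * Complex.I))‖ ≤
      10 * q * (1 + |u|) / A := by
  obtain ⟨n, rfl⟩ := Nat.exists_eq_add_of_le hAV
  have hA0 : (0 : ℝ) < A := by exact_mod_cast hA
  have hq1 : (1 : ℝ) ≤ q := by exact_mod_cast hq
  set fm : ℂ := (∑ a ∈ range q, f a) / q with hfm
  have hfm1 : ‖fm‖ ≤ 1 := by
    rw [hfm, norm_div, Complex.norm_natCast, div_le_one (by linarith)]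
    refine (norm_sum_le _ _).trans ?_
    refine (Finset.sum_le_sum (fun a _ => hf1 a)).trans ?_
    simp
  have e1 : ∑ a ∈ Icc A (A + n), f a * (a : ℂ) ^ (-(1 + u * Complex.I)) =
      ∑ a ∈ range (n + 1), f (A + a) * mvg u ((A + a : ℕ) : ℝ) := by
    have : Icc A (A + n) = Ico A (A + n + 1) := by
      ext x; simp only [mem_Icc, mem_Ico]; omega
    rw [this, Finset.sum_Ico_eq_sum_range]
    have h2 : A + n + 1 - A = n + 1 := by omega
    rw [h2]
    apply Finset.sum_congr rfl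
    intro a _
    unfold mvg
    push_cast
    rfl
  have e2 : ∑ a ∈ range (n + 1), f (A + a) * mvg u ((A + a : ℕ) : ℝ) -
      fm * ∫ y in (A : ℝ)..((A + n : ℕ) : ℝ), (y : ℂ) ^ (-(1 + u * Complex.I)) =
      ∑ a ∈ range (n + 1), (f (A + a) - fm) * mvg u ((A + a : ℕ) : ℝ) +
      fm * (∑ a ∈ range (n + 1), mvg u ((A + a : ℕ) : ℝ) -
        ∫ y in (A : ℝ)..((A + n : ℕ) : ℝ), mvg u y) := by
    have : ∑ a ∈ range (n + 1), (f (A + a) - fm) * mvg u ((A + a : ℕ) : ℝ) =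
        ∑ a ∈ range (n + 1), f (A + a) * mvg u ((A + a : ℕ) : ℝ) -
        fm * ∑ a ∈ range (n + 1), mvg u ((A + a : ℕ) : ℝ) := by
      rw [Finset.mul_sum, ← Finset.sum_sub_distrib]
      apply Finset.sum_congr rfl; intro a _; ring
    rw [this]
    unfold mvg
    ring
  rw [e1, e2]
  refine (norm_add_le _ _).trans ?_
  have h1 := mv_sum q (fun a => f (A + a) - fm) A hA u (2 * q) (by positivity)
    (mv_partial q hq f hf hf1 A) n
  have h2 : ‖fm * (∑ a ∈ range (n + 1), mvg u ((A + a : ℕ) : ℝ) -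
        ∫ y in (A : ℝ)..((A + n : ℕ) : ℝ), mvg u y)‖ ≤ 2 * (1 + |u|) / A := by
    rw [norm_mul]
    have := mv_int A n hA u
    calc _ ≤ 1 * (2 * (1 + |u|) / A) := mul_le_mul hfm1 this (norm_nonneg _) zero_le_one
      _ = _ := one_mul _
  refine (add_le_add h1 h2).trans ?_
  rw [← add_div]
  apply div_le_div_of_nonneg_right _ hA0.le
  have h7 : 0 ≤ |u| := abs_nonneg u
  nlinarith [mul_nonneg (by linarith : (0:ℝ) ≤ (q:ℝ) - 1) h7]

/-- **Duality and Schur's test.** -/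
lemma mv_dual {κ Ω : Type*} [MeasurableSpace Ω] (ν : Measure Ω) [IsFiniteMeasure ν]
    (I : Finset κ) (w : κ → ℝ) (hw : ∀ a, 0 ≤ w a) (c : κ → ℂ) (hc : ∀ a, ‖c a‖ ≤ 1)
    (φ : κ → Ω → ℂ) (hφ : ∀ a, Measurable (φ a)) (hφ1 : ∀ a x, ‖φ a x‖ ≤ 1) (B : ℝ)
    (hB0 : 0 ≤ B)
    (hB : ∀ᵐ x ∂ν, ∫ y, ‖∑ a ∈ I, (w a : ℂ) * (conj (φ a x) * φ a y)‖ ∂ν ≤ B) :
    ∫ x, ‖∑ a ∈ I, c a * (w a : ℂ) * φ a x‖ ^ 2 ∂ν ≤ B * ∑ a ∈ I, w a := by
  set W : ℝ := ∑ a ∈ I, w a with hW
  have hW0 : 0 ≤ W := Finset.sum_nonneg fun a _ => hw a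
  set M : Ω → ℂ := fun x => ∑ a ∈ I, c a * (w a : ℂ) * φ a x with hM
  set K : Ω → Ω → ℂ := fun x y => ∑ a ∈ I, (w a : ℂ) * (conj (φ a x) * φ a y) with hK
  have hMm : Measurable M := by
    rw [hM]
    exact Finset.measurable_fun_sum _ fun a _ => (hφ a).const_mul _
  have hconj : Measurable (fun z : ℂ => conj z) := Complex.continuous_conj.measurable
  have hKm : Measurable (Function.uncurry K) := by
    have : Function.uncurry K = fun z : Ω × Ω =>
        ∑ a ∈ I, (w a : ℂ) * (conj (φ a z.1) * φ a z.2) := by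
      funext z; rfl
    rw [this]
    refine Finset.measurable_fun_sum _ fun a _ => ?_
    refine Measurable.const_mul ?_ _
    exact (hconj.comp ((hφ a).comp measurable_fst)).mul ((hφ a).comp measurable_snd)
  have hM1 : ∀ x, ‖M x‖ ≤ W := by
    intro x
    refine (norm_sum_le _ _).trans (Finset.sum_le_sum fun a _ => ?_)
    rw [norm_mul, norm_mul, Complex.norm_real, Real.norm_of_nonneg (hw a)]
    have := mul_le_mul (mul_le_mul_of_nonneg_right (hc a) (hw a)) (hφ1 a x) (norm_nonneg _)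
      (by simpa using hw a)
    simpa using this
  have hK1 : ∀ x y, ‖K x y‖ ≤ W := by
    intro x y
    refine (norm_sum_le _ _).trans (Finset.sum_le_sum fun a _ => ?_)
    rw [norm_mul, norm_mul, Complex.norm_real, Real.norm_of_nonneg (hw a), RCLike.norm_conj]
    have h2 : ‖φ a x‖ * ‖φ a y‖ ≤ 1 * 1 :=
      mul_le_mul (hφ1 a x) (hφ1 a y) (norm_nonneg _) zero_le_one
    have := mul_le_mul_of_nonneg_left h2 (hw a)
    simpa using this
  have hKsymm : ∀ x y, ‖K x y‖ = ‖K y x‖ := by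
    intro x y
    have : K x y = conj (K y x) := by
      simp only [hK, map_sum, map_mul, Complex.conj_conj, Complex.conj_ofReal]
      apply Finset.sum_congr rfl; intro a _; ring
    rw [this, RCLike.norm_conj]
  have hbdd : ∀ {f : Ω → ℂ}, Measurable f → ∀ C : ℝ, (∀ x, ‖f x‖ ≤ C) → Integrable f ν :=
    fun hf C h => Integrable.of_bound hf.aestronglyMeasurable C (ae_of_all _ h)
  set e : κ → ℂ := fun a => ∫ x, conj (φ a x) * M x ∂ν with he
  set S : ℝ := ∫ x, ‖M x‖ ^ 2 ∂ν with hS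
  have hS0 : 0 ≤ S := integral_nonneg fun x => by positivity
  have hprodm : ∀ a, Measurable fun x => conj (φ a x) * M x := fun a =>
    (hconj.comp (hφ a)).mul hMm
  have hprodb : ∀ a x, ‖conj (φ a x) * M x‖ ≤ W := fun a x => by
    rw [norm_mul, RCLike.norm_conj]
    have := mul_le_mul (hφ1 a x) (hM1 x) (norm_nonneg _) zero_le_one
    simpa using this
  -- step 1
  have h1 : (S : ℂ) = ∑ a ∈ I, conj (c a) * (w a : ℂ) * e a := by
    have e1 : (S : ℂ) = ∫ x, ((‖M x‖ ^ 2 : ℝ) : ℂ) ∂ν := by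
      rw [hS]; exact integral_ofReal.symm
    have e2 : ∀ x, ((‖M x‖ ^ 2 : ℝ) : ℂ) =
        ∑ a ∈ I, conj (c a) * (w a : ℂ) * (conj (φ a x) * M x) := by
      intro x
      have : ((‖M x‖ ^ 2 : ℝ) : ℂ) = conj (M x) * M x := by
        rw [Complex.conj_mul']; push_cast; rfl
      rw [this]
      have e3 : conj (M x) = ∑ a ∈ I, conj (c a) * (w a : ℂ) * conj (φ a x) := by
        simp only [hM, map_sum, map_mul, Complex.conj_ofReal]
      rw [e3, Finset.sum_mul]
      apply Finset.sum_congr rfl; intro a _; ring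
    rw [e1]
    simp_rw [e2]
    rw [integral_finsetSum]
    · apply Finset.sum_congr rfl
      intro a _
      rw [integral_const_mul]
    · intro a _
      exact (hbdd (hprodm a) W (hprodb a)).const_mul _
  -- step 2
  have h2 : S ≤ ∑ a ∈ I, w a * ‖e a‖ := by
    have : S = ‖(S : ℂ)‖ := by rw [Complex.norm_real, Real.norm_of_nonneg hS0]
    rw [this, h1]
    refine (norm_sum_le _ _).trans (Finset.sum_le_sum fun a _ => ?_)
    rw [norm_mul, norm_mul, Complex.norm_real, Real.norm_of_nonneg (hw a), RCLike.norm_conj]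
    have := mul_le_mul_of_nonneg_right (mul_le_mul_of_nonneg_right (hc a) (hw a))
      (norm_nonneg (e a))
    simpa using this
  -- step 3
  set D : ℝ := ∑ a ∈ I, w a * ‖e a‖ ^ 2 with hD
  have h3 : S ^ 2 ≤ W * D := by
    have h4 : (∑ a ∈ I, w a * ‖e a‖) ^ 2 ≤ W * D := by
      apply Finset.sum_sq_le_sum_mul_sum_of_sq_le_mul
      · intro a _; exact hw a
      · intro a _; exact mul_nonneg (hw a) (by positivity)
      · intro a _; exact le_of_eq (by ring)
    exact (pow_le_pow_left₀ hS0 h2 2).trans h4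
  -- step 4
  have h4 : (D : ℂ) = ∫ x, M x * ∫ y, conj (M y) * K x y ∂ν ∂ν := by
    have e1 : ∀ x, ∫ y, conj (M y) * K x y ∂ν = ∑ a ∈ I, (w a : ℂ) * conj (φ a x) * conj (e a) := by
      intro x
      have e2 : ∀ y, conj (M y) * K x y =
          ∑ a ∈ I, (w a : ℂ) * conj (φ a x) * (φ a y * conj (M y)) := by
        intro y
        simp only [hK]
        rw [Finset.mul_sum]
        apply Finset.sum_congr rfl; intro a _; ring
      simp_rw [e2]
      rw [integral_finsetSum]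
      · apply Finset.sum_congr rfl
        intro a _
        rw [integral_const_mul]
        congr 1
        rw [he]
        simp only
        rw [← integral_conj]
        apply integral_congr_ae
        filter_upwards with y
        rw [map_mul, Complex.conj_conj]
      · intro a _
        refine Integrable.const_mul ?_ _
        refine hbdd ((hφ a).mul (hconj.comp hMm)) W fun y => ?_
        rw [norm_mul, RCLike.norm_conj]
        have := mul_le_mul (hφ1 a y) (hM1 y) (norm_nonneg _) zero_le_one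
        simpa using this
    simp_rw [e1]
    have e3 : ∀ x, M x * ∑ a ∈ I, (w a : ℂ) * conj (φ a x) * conj (e a) =
        ∑ a ∈ I, (w a : ℂ) * conj (e a) * (conj (φ a x) * M x) := by
      intro x
      rw [Finset.mul_sum]
      apply Finset.sum_congr rfl; intro a _; ring
    simp_rw [e3]
    rw [integral_finsetSum]
    · rw [hD]
      push_cast
      apply Finset.sum_congr rfl
      intro a _
      rw [integral_const_mul]
      have : ((‖e a‖ : ℂ)) ^ 2 = conj (e a) * e a := by rw [Complex.conj_mul']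
      rw [this, he]
      ring
    · intro a _
      exact (hbdd (hprodm a) W (hprodb a)).const_mul _
  have hKint : ∀ x, Integrable (fun y => ‖K x y‖) ν := fun x =>
    (hbdd (hKm.comp (measurable_const.prodMk measurable_id)) W (hK1 x)).norm
  -- the two product functions
  have hF1 : Integrable (Function.uncurry fun x y => ‖M x‖ ^ 2 * ‖K x y‖) (ν.prod ν) := by
    refine Integrable.of_bound (C := W ^ 2 * W) ?_ (ae_of_all _ fun z => ?_)
    · exact (((hMm.comp measurable_fst).norm.pow_const 2).mul hKm.norm).aestronglyMeasurable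
    · rw [Function.uncurry]
      rw [Real.norm_of_nonneg (by positivity)]
      exact mul_le_mul (pow_le_pow_left₀ (norm_nonneg _) (hM1 _) 2) (hK1 _ _) (norm_nonneg _)
        (by positivity)
  have hF2 : Integrable (Function.uncurry fun x y => ‖M y‖ ^ 2 * ‖K x y‖) (ν.prod ν) := by
    refine Integrable.of_bound (C := W ^ 2 * W) ?_ (ae_of_all _ fun z => ?_)
    · exact (((hMm.comp measurable_snd).norm.pow_const 2).mul hKm.norm).aestronglyMeasurable
    · rw [Function.uncurry]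
      rw [Real.norm_of_nonneg (by positivity)]
      exact mul_le_mul (pow_le_pow_left₀ (norm_nonneg _) (hM1 _) 2) (hK1 _ _) (norm_nonneg _)
        (by positivity)
  have hM2int : Integrable (fun x => ‖M x‖ ^ 2) ν := by
    refine Integrable.of_bound (C := W ^ 2) (hMm.norm.pow_const 2).aestronglyMeasurable
      (ae_of_all _ fun x => ?_)
    rw [Real.norm_of_nonneg (by positivity)]
    exact pow_le_pow_left₀ (norm_nonneg _) (hM1 _) 2
  have hA1 : ∫ x, ∫ y, ‖M x‖ ^ 2 * ‖K x y‖ ∂ν ∂ν ≤ B * S := by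
    have e1 : B * S = ∫ x, ‖M x‖ ^ 2 * B ∂ν := by
      rw [integral_mul_const, mul_comm]
    rw [e1]
    apply integral_mono_ae hF1.integral_prod_left (hM2int.mul_const B)
    filter_upwards [hB] with x hx
    change ∫ y, ‖M x‖ ^ 2 * ‖K x y‖ ∂ν ≤ ‖M x‖ ^ 2 * B
    rw [integral_const_mul]
    exact mul_le_mul_of_nonneg_left hx (by positivity)
  have hA2 : ∫ x, ∫ y, ‖M y‖ ^ 2 * ‖K x y‖ ∂ν ∂ν ≤ B * S := by
    rw [integral_integral_swap hF2]
    refine le_trans (le_of_eq ?_) hA1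
    apply integral_congr_ae
    filter_upwards with y
    apply integral_congr_ae
    filter_upwards with x
    rw [hKsymm]
  have h5 : D ≤ B * S := by
    have hD0 : 0 ≤ D := Finset.sum_nonneg fun a _ => mul_nonneg (hw a) (by positivity)
    have : D = ‖(D : ℂ)‖ := by rw [Complex.norm_real, Real.norm_of_nonneg hD0]
    rw [this, h4]
    refine (norm_integral_le_integral_norm _).trans ?_
    have hsum : ∫ x, ∫ y, ((1 / 2 : ℝ) * (‖M x‖ ^ 2 * ‖K x y‖) +
        (1 / 2 : ℝ) * (‖M y‖ ^ 2 * ‖K x y‖)) ∂ν ∂ν ≤ B * S := by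
      have e1 : ∀ᵐ x ∂ν, ∫ y, ((1 / 2 : ℝ) * (‖M x‖ ^ 2 * ‖K x y‖) +
          (1 / 2 : ℝ) * (‖M y‖ ^ 2 * ‖K x y‖)) ∂ν =
          (1 / 2 : ℝ) * ∫ y, ‖M x‖ ^ 2 * ‖K x y‖ ∂ν +
          (1 / 2 : ℝ) * ∫ y, ‖M y‖ ^ 2 * ‖K x y‖ ∂ν := by
        filter_upwards [hF1.prod_right_ae, hF2.prod_right_ae] with x hx1 hx2
        have hx1' : Integrable (fun y => ‖M x‖ ^ 2 * ‖K x y‖) ν := hx1
        have hx2' : Integrable (fun y => ‖M y‖ ^ 2 * ‖K x y‖) ν := hx2
        rw [integral_add (hx1'.const_mul _) (hx2'.const_mul _)]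
        congr 1
        · exact integral_const_mul _ _
        · exact integral_const_mul _ _
      have hL1 : Integrable (fun x => ∫ y, ‖M x‖ ^ 2 * ‖K x y‖ ∂ν) ν := hF1.integral_prod_left
      have hL2 : Integrable (fun x => ∫ y, ‖M y‖ ^ 2 * ‖K x y‖ ∂ν) ν := hF2.integral_prod_left
      have e2 : ∫ x, (1 / 2 : ℝ) * ∫ y, ‖M x‖ ^ 2 * ‖K x y‖ ∂ν ∂ν =
          (1 / 2 : ℝ) * ∫ x, ∫ y, ‖M x‖ ^ 2 * ‖K x y‖ ∂ν ∂ν := integral_const_mul _ _
      have e3 : ∫ x, (1 / 2 : ℝ) * ∫ y, ‖M y‖ ^ 2 * ‖K x y‖ ∂ν ∂ν =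
          (1 / 2 : ℝ) * ∫ x, ∫ y, ‖M y‖ ^ 2 * ‖K x y‖ ∂ν ∂ν := integral_const_mul _ _
      rw [integral_congr_ae e1, integral_add (hL1.const_mul _) (hL2.const_mul _), e2, e3]
      linarith
    refine le_trans ?_ hsum
    apply integral_mono_of_nonneg (ae_of_all _ fun x => norm_nonneg _)
    · have := ((hF1.const_mul (1 / 2 : ℝ)).add (hF2.const_mul (1 / 2 : ℝ))).integral_prod_left
      exact this
    · filter_upwards [hF1.prod_right_ae, hF2.prod_right_ae] with x hx1 hx2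
      rw [norm_mul, ← Real.norm_of_nonneg (norm_nonneg (M x))]
      rw [Real.norm_of_nonneg (norm_nonneg (M x))]
      calc ‖M x‖ * ‖∫ y, conj (M y) * K x y ∂ν‖ ≤ ‖M x‖ * ∫ y, ‖conj (M y) * K x y‖ ∂ν :=
            mul_le_mul_of_nonneg_left (norm_integral_le_integral_norm _) (norm_nonneg _)
        _ = ∫ y, ‖M x‖ * ‖conj (M y) * K x y‖ ∂ν := (integral_const_mul _ _).symm
        _ ≤ _ := by
          apply integral_mono_of_nonneg (ae_of_all _ fun y => by positivity)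
          · exact (hx1.const_mul _).add (hx2.const_mul _)
          · filter_upwards with y
            rw [norm_mul, RCLike.norm_conj]
            have h7 : ‖M x‖ * ‖M y‖ ≤ 1 / 2 * ‖M x‖ ^ 2 + 1 / 2 * ‖M y‖ ^ 2 := by
              nlinarith [sq_nonneg (‖M x‖ - ‖M y‖)]
            calc ‖M x‖ * (‖M y‖ * ‖K x y‖) = (‖M x‖ * ‖M y‖) * ‖K x y‖ := by ring
              _ ≤ (1 / 2 * ‖M x‖ ^ 2 + 1 / 2 * ‖M y‖ ^ 2) * ‖K x y‖ :=
                  mul_le_mul_of_nonneg_right h7 (norm_nonneg _)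
              _ = _ := by ring
  -- conclusion
  have h6 : S ^ 2 ≤ (B * W) * S := by
    calc S ^ 2 ≤ W * D := h3
      _ ≤ W * (B * S) := mul_le_mul_of_nonneg_left h5 hW0
      _ = _ := by ring
  rcases hS0.eq_or_lt with h0 | h0
  · rw [← h0]; exact mul_nonneg hB0 hW0
  · nlinarith

/-- orthogonality of distinct primitive characters -/
lemma mv_orth {r r' : ℕ} (hr : 1 ≤ r) (hr' : 1 ≤ r') (ψ : DirichletCharacter ℂ r)
    (ψ' : DirichletCharacter ℂ r') (h : ψ.IsPrimitive) (h' : ψ'.IsPrimitive)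
    (hne : (⟨r, ψ⟩ : Σ r : ℕ, DirichletCharacter ℂ r) ≠ ⟨r', ψ'⟩) :
    ∑ a ∈ range (r * r'), conj (ψ (a : ZMod r)) * ψ' (a : ZMod r') = 0 := by
  have hN : NeZero (r * r') := ⟨by positivity⟩
  have hr0 : NeZero r := ⟨by omega⟩
  have hr0' : NeZero r' := ⟨by omega⟩
  set χ := DirichletCharacter.changeLevel (Nat.dvd_mul_right r r') ψ with hχ
  set χ' := DirichletCharacter.changeLevel (Nat.dvd_mul_left r' r) ψ' with hχ'
  have hneq : χ⁻¹ * χ' ≠ 1 := by
    intro hc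
    have h1 : χ = χ' := by
      have := congrArg (fun z => χ * z) hc
      simp only [mul_one] at this
      rw [← mul_assoc, mul_inv_cancel, one_mul] at this
      exact this.symm
    have h2 : r = r' := by
      have e1 := DirichletCharacter.conductor_changeLevel (χ := ψ) (Nat.dvd_mul_right r r')
      have e2 := DirichletCharacter.conductor_changeLevel (χ := ψ') (Nat.dvd_mul_left r' r)
      rw [← hχ] at e1
      rw [← hχ'] at e2
      rw [h1, e2] at e1
      rw [(DirichletCharacter.isPrimitive_def _).mp h, (DirichletCharacter.isPrimitive_def _).mp h'] at e1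
      exact e1.symm
    subst h2
    apply hne
    congr 1
    exact DirichletCharacter.changeLevel_injective (Nat.dvd_mul_right r r) h1
  have hsum : ∑ a : ZMod (r * r'), (χ⁻¹ * χ') a = 0 := MulChar.sum_eq_zero_of_ne_one hneq
  rw [← hsum]
  refine Finset.sum_nbij' (fun a => (a : ZMod (r * r'))) (fun a => ZMod.val a) ?_ ?_ ?_ ?_ ?_
  · intro a _; exact Finset.mem_univ _
  · intro a _; exact Finset.mem_range.mpr (ZMod.val_lt a)
  · intro a ha; exact ZMod.val_cast_of_lt (Finset.mem_range.mp ha)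
  · intro a _; exact ZMod.natCast_zmod_val a
  · intro a _
    rw [MulChar.mul_apply, ← MulChar.star_apply' χ]
    by_cases hcop : Nat.Coprime a (r * r')
    · have hi : IsCoprime (a : ℤ) ((r * r' : ℕ) : ℤ) := Nat.isCoprime_iff_coprime.mpr hcop
      have e1 := DirichletCharacter.changeLevel_eq_cast_of_dvd' ψ (Nat.dvd_mul_right r r') hi
      have e2 := DirichletCharacter.changeLevel_eq_cast_of_dvd' ψ' (Nat.dvd_mul_left r' r) hi
      rw [Int.cast_natCast, Int.cast_natCast] at e1 e2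
      rw [hχ, hχ', e1, e2]
      rfl
    · have hnu : ¬ IsUnit ((a : ℕ) : ZMod (r * r')) := by
        rw [ZMod.isUnit_iff_coprime]; exact hcop
      rw [MulChar.map_nonunit χ' hnu, mul_zero]
      rw [Nat.coprime_mul_iff_right, not_and_or] at hcop
      rcases hcop with h3 | h3
      · rw [MulChar.map_nonunit ψ (by rw [ZMod.isUnit_iff_coprime]; exact h3)]; simp
      · rw [MulChar.map_nonunit ψ' (by rw [ZMod.isUnit_iff_coprime]; exact h3)]; simp

lemma mv_intbound (A V : ℕ) (hA : 1 ≤ A) (hAV : A ≤ V) (u : ℝ) :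
    ‖∫ y in (A : ℝ)..V, (y : ℂ) ^ (-(1 + u * Complex.I))‖ ≤ (2 * Real.log V + 4) / (1 + |u|) := by
  have hA0 : (0 : ℝ) < A := by exact_mod_cast hA
  have hA1 : (1 : ℝ) ≤ A := by exact_mod_cast hA
  have hAV' : (A : ℝ) ≤ V := by exact_mod_cast hAV
  have hV0 : (0 : ℝ) < V := hA0.trans_le hAV'
  have hlogV : 0 ≤ Real.log V := Real.log_nonneg (hA1.trans hAV')
  have hu0 : 0 ≤ |u| := abs_nonneg u
  rw [le_div_iff₀ (by positivity)]
  rcases le_or_gt |u| 1 with h | h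
  · have h1 : ‖∫ y in (A : ℝ)..V, (y : ℂ) ^ (-(1 + u * Complex.I))‖ ≤ Real.log V := by
      refine (intervalIntegral.norm_integral_le_integral_norm hAV').trans ?_
      have e1 : ∫ y in (A : ℝ)..V, ‖(y : ℂ) ^ (-(1 + u * Complex.I))‖ = ∫ y in (A : ℝ)..V, 1 / y := by
        apply intervalIntegral.integral_congr
        intro y hy
        rw [Set.uIcc_of_le hAV'] at hy
        exact mv_norm_g u (hA0.trans_le hy.1)
      rw [e1, integral_one_div_of_pos hA0 hV0]
      exact Real.log_le_log (by positivity) (div_le_self hV0.le hA1)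
    nlinarith
  · have hu : u ≠ 0 := by
      intro h0; rw [h0, abs_zero] at h; linarith
    have hr1 : -(1 + u * Complex.I) ≠ -1 := by
      intro h0
      have := congrArg Complex.im h0
      simp at this
      exact hu this
    rw [integral_cpow (Or.inr ⟨hr1, by
      rw [Set.uIcc_of_le hAV']
      intro h0
      exact absurd h0.1 (not_le.mpr hA0)⟩)]
    have e2 : -(1 + u * Complex.I) + 1 = -(u * Complex.I) := by ring
    rw [e2, norm_div]
    have e3 : ‖-((u : ℂ) * Complex.I)‖ = |u| := by simp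
    rw [e3]
    have hn : ∀ x : ℝ, 0 < x → ‖(x : ℂ) ^ (-(u * Complex.I))‖ = 1 := by
      intro x hx
      rw [Complex.norm_cpow_eq_rpow_re_of_pos hx]
      simp
    have h1 : ‖((V : ℝ) : ℂ) ^ (-(u * Complex.I)) - ((A : ℝ) : ℂ) ^ (-(u * Complex.I))‖ ≤ 2 := by
      refine (norm_sub_le _ _).trans ?_
      rw [hn _ hV0, hn _ hA0]
      norm_num
    have h2 : ‖((V : ℝ) : ℂ) ^ (-(u * Complex.I)) - ((A : ℝ) : ℂ) ^ (-(u * Complex.I))‖ / |u| *
        (1 + |u|) ≤ 2 * 2 := by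
      rw [div_mul_eq_mul_div, div_le_iff₀ (by linarith)]
      nlinarith [norm_nonneg (((V : ℝ) : ℂ) ^ (-(u * Complex.I)) -
        ((A : ℝ) : ℂ) ^ (-(u * Complex.I)))]
    linarith

lemma mv_J (T t : ℝ) (h1 : -T ≤ t) (h2 : t ≤ T) :
    ∫ s in (-T)..T, 1 / (1 + |s - t|) ≤ 2 * Real.log (1 + 2 * T) := by
  have hcont : Continuous fun s : ℝ => 1 / (1 + |s - t|) := by
    refine continuous_const.div (by fun_prop) fun s => ?_
    positivity
  have e1 : ∫ s in (-T)..t, 1 / (1 + |s - t|) = Real.log (1 + t + T) := by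
    have hd : ∀ s ∈ Set.uIcc (-T) t, HasDerivAt (fun s => -Real.log (1 + t - s))
        (1 / (1 + |s - t|)) s := by
      intro s hs
      rw [Set.uIcc_of_le h1] at hs
      have hs2 : 0 < 1 + t - s := by linarith [hs.2]
      have h3 : HasDerivAt (fun s : ℝ => 1 + t - s) (-1) s := by
        simpa using (hasDerivAt_id s).const_sub (1 + t)
      have h4 := (h3.log hs2.ne').fun_neg
      have h5 : 1 / (1 + |s - t|) = -(-1 / (1 + t - s)) := by
        rw [abs_of_nonpos (by linarith [hs.2]), show 1 + -(s - t) = 1 + t - s by ring]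
        ring
      rw [h5]
      exact h4
    rw [intervalIntegral.integral_eq_sub_of_hasDerivAt hd (hcont.intervalIntegrable _ _)]
    have : 1 + t - t = 1 := by ring
    rw [this, Real.log_one]
    have : 1 + t - -T = 1 + t + T := by ring
    rw [this]
    ring
  have e2 : ∫ s in t..T, 1 / (1 + |s - t|) = Real.log (1 - t + T) := by
    have hd : ∀ s ∈ Set.uIcc t T, HasDerivAt (fun s => Real.log (1 - t + s))
        (1 / (1 + |s - t|)) s := by
      intro s hs
      rw [Set.uIcc_of_le h2] at hs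
      have hs2 : 0 < 1 - t + s := by linarith [hs.1]
      have h3 : HasDerivAt (fun s : ℝ => 1 - t + s) 1 s := by
        simpa using (hasDerivAt_id s).const_add (1 - t)
      have h4 := (h3.log hs2.ne')
      have h5 : 1 / (1 + |s - t|) = 1 / (1 - t + s) := by
        rw [abs_of_nonneg (by linarith [hs.1]), show 1 + (s - t) = 1 - t + s by ring]
      rw [h5]
      exact h4
    rw [intervalIntegral.integral_eq_sub_of_hasDerivAt hd (hcont.intervalIntegrable _ _)]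
    have : 1 - t + t = 1 := by ring
    rw [this, Real.log_one, sub_zero]
  rw [← intervalIntegral.integral_add_adjacent_intervals (hcont.intervalIntegrable (-T) t)
    (hcont.intervalIntegrable t T), e1, e2]
  have h3 : Real.log (1 + t + T) ≤ Real.log (1 + 2 * T) :=
    Real.log_le_log (by linarith) (by linarith)
  have h4 : Real.log (1 - t + T) ≤ Real.log (1 + 2 * T) :=
    Real.log_le_log (by linarith) (by linarith)
  linarith

lemma mv_sum_inv (A V : ℕ) (hA : 1 ≤ A) : ∑ a ∈ Icc A V, 1 / (a : ℝ) ≤ 1 + Real.log V := by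
  have h1 : ∑ a ∈ Icc A V, 1 / (a : ℝ) ≤ ∑ a ∈ Icc 1 V, 1 / (a : ℝ) := by
    apply Finset.sum_le_sum_of_subset_of_nonneg
    · intro x hx
      rw [Finset.mem_Icc] at hx ⊢
      exact ⟨hA.trans hx.1, hx.2⟩
    · intro i _ _; positivity
  refine h1.trans ?_
  have h2 := harmonic_le_one_add_log V
  rw [harmonic_eq_sum_Icc] at h2
  push_cast at h2
  simpa [one_div] using h2

open scoped Classical in
/-- the kernel -/
lemma mv_kernel (Q A V : ℕ) (hA : 1 ≤ A) (hAV : A ≤ V) (p p' : Σ r : ℕ, DirichletCharacter ℂ r)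
    (hp : p ∈ PC Q) (hp' : p' ∈ PC Q) (u : ℝ) :
    ‖∑ a ∈ Icc A V, conj (p.2 (a : ZMod p.1)) * p'.2 (a : ZMod p'.1) *
      (a : ℂ) ^ (-(1 + u * Complex.I))‖ ≤
      (if p = p' then (2 * Real.log V + 4) / (1 + |u|) else 0) +
        10 * (Q : ℝ) ^ 2 * (1 + |u|) / A := by
  obtain ⟨h1, h2, h3⟩ := mem_PC.mp hp
  obtain ⟨h1', h2', h3'⟩ := mem_PC.mp hp'
  have hA0 : (0 : ℝ) < A := by exact_mod_cast hA
  have hb : ∀ n : ℕ, ‖conj (p.2 (n : ZMod p.1)) * p'.2 (n : ZMod p'.1)‖ ≤ 1 := by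
    intro n
    rw [norm_mul, RCLike.norm_conj]
    have := mul_le_mul (p.2.norm_le_one (n : ZMod p.1)) (p'.2.norm_le_one (n : ZMod p'.1))
      (norm_nonneg _) zero_le_one
    simpa using this
  have hper := periodic_sum (p.1 * p'.1) (Nat.mul_pos h1 h1')
    (fun a => conj (p.2 (a : ZMod p.1)) * p'.2 (a : ZMod p'.1)) (by
      intro n
      push_cast
      simp) hb A V hA hAV u
  set Sm := ∑ a ∈ Icc A V, conj (p.2 (a : ZMod p.1)) * p'.2 (a : ZMod p'.1) *
      (a : ℂ) ^ (-(1 + u * Complex.I)) with hSm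
  set J := ∫ y in (A : ℝ)..V, (y : ℂ) ^ (-(1 + u * Complex.I)) with hJ
  have hQ : ((p.1 * p'.1 : ℕ) : ℝ) ≤ (Q : ℝ) ^ 2 := by
    have : p.1 * p'.1 ≤ Q ^ 2 := by rw [pow_two]; exact Nat.mul_le_mul h2 h2'
    exact_mod_cast this
  have hper2 : ‖Sm - (∑ a ∈ range (p.1 * p'.1), conj (p.2 (a : ZMod p.1)) * p'.2 (a : ZMod p'.1)) /
      ((p.1 * p'.1 : ℕ) : ℂ) * J‖ ≤ 10 * (Q : ℝ) ^ 2 * (1 + |u|) / A := by
    refine hper.trans ?_
    apply div_le_div_of_nonneg_right _ hA0.le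
    apply mul_le_mul_of_nonneg_right _ (by positivity)
    linarith
  by_cases hpp : p = p'
  · rw [if_pos hpp]
    have h5 : ‖(∑ a ∈ range (p.1 * p'.1), conj (p.2 (a : ZMod p.1)) * p'.2 (a : ZMod p'.1)) /
      ((p.1 * p'.1 : ℕ) : ℂ) * J‖ ≤ (2 * Real.log V + 4) / (1 + |u|) := by
      rw [norm_mul, norm_div, Complex.norm_natCast]
      have hpos : (0 : ℝ) < ((p.1 * p'.1 : ℕ) : ℝ) := by exact_mod_cast Nat.mul_pos h1 h1'
      have h6 : ‖∑ a ∈ range (p.1 * p'.1), conj (p.2 (a : ZMod p.1)) * p'.2 (a : ZMod p'.1)‖ /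
          ((p.1 * p'.1 : ℕ) : ℝ) ≤ 1 := by
        rw [div_le_one hpos]
        refine (norm_sum_le _ _).trans ((Finset.sum_le_sum (fun a _ => hb a)).trans ?_)
        simp
      have := mul_le_mul h6 (mv_intbound A V hA hAV u) (norm_nonneg _) zero_le_one
      rw [one_mul] at this
      exact this
    calc ‖Sm‖ = ‖(∑ a ∈ range (p.1 * p'.1), conj (p.2 (a : ZMod p.1)) * p'.2 (a : ZMod p'.1)) /
      ((p.1 * p'.1 : ℕ) : ℂ) * J + (Sm - (∑ a ∈ range (p.1 * p'.1),
        conj (p.2 (a : ZMod p.1)) * p'.2 (a : ZMod p'.1)) / ((p.1 * p'.1 : ℕ) : ℂ) * J)‖ := by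
          congr 1; ring
      _ ≤ _ := (norm_add_le _ _).trans (add_le_add h5 hper2)
  · rw [if_neg hpp, zero_add]
    obtain ⟨r, ψ⟩ := p
    obtain ⟨r', ψ'⟩ := p'
    have := mv_orth h1 h1' ψ ψ' h3 h3' hpp
    simp only at this hper2 ⊢
    rw [this] at hper2
    simpa using hper2

lemma mv_phi_norm (a : ℕ) (t : ℝ) : ‖(a : ℂ) ^ (-(t * Complex.I))‖ ≤ 1 := by
  rcases Nat.eq_zero_or_pos a with h | h
  · subst h
    by_cases ht : t = 0
    · subst ht; simp
    · rw [Nat.cast_zero, Complex.zero_cpow]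
      · simp
      · simpa using ht
  · have h0 : (0 : ℝ) < a := by exact_mod_cast h
    have := Complex.norm_cpow_eq_rpow_re_of_pos h0 (-(t * Complex.I))
    rw [Complex.ofReal_natCast] at this
    rw [this]
    simp

lemma mv_cpow (a : ℕ) (ha : 1 ≤ a) (t s : ℝ) :
    ((1 / (a : ℝ) : ℝ) : ℂ) * (conj ((a : ℂ) ^ (-(t * Complex.I))) * (a : ℂ) ^ (-(s * Complex.I))) =
      (a : ℂ) ^ (-(1 + ((s - t : ℝ) : ℂ) * Complex.I)) := by
  have ha0 : (a : ℂ) ≠ 0 := by exact_mod_cast (by omega : a ≠ 0)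
  have hl : Complex.log (a : ℂ) = ((Real.log a : ℝ) : ℂ) := by
    rw [← Complex.ofReal_natCast, Complex.ofReal_log (by positivity)]
  rw [Complex.cpow_def_of_ne_zero ha0, Complex.cpow_def_of_ne_zero ha0,
    Complex.cpow_def_of_ne_zero ha0, ← Complex.exp_conj, hl]
  have e1 : ((1 / (a : ℝ) : ℝ) : ℂ) = Complex.exp (-((Real.log a : ℝ) : ℂ)) := by
    rw [← Complex.ofReal_neg, ← Complex.ofReal_exp, Real.exp_neg, Real.exp_log (by positivity)]
    simp
  rw [e1, ← Complex.exp_add, ← Complex.exp_add]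
  congr 1
  simp only [map_mul, map_neg, Complex.conj_ofReal, Complex.conj_I]
  push_cast
  ring

/-- large sieve bound for all parameters -/
lemma mv_main (Q X : ℕ) (T : ℝ) (hT : 0 ≤ T) (hA : 1 ≤ AA X) (hAV : AA X ≤ VV X) :
    ∑ p ∈ PC Q, ∫ t in (-T)..T, ‖Mu X p t‖ ^ 2 ≤
      ((2 * Real.log (VV X) + 4) * (2 * Real.log (1 + 2 * T)) +
        (Q : ℝ) ^ 2 * (2 * T) * (10 * (Q : ℝ) ^ 2 * (1 + 2 * T) / AA X)) *
      (1 + Real.log (VV X)) := by
  classical
  let : MeasurableSpace (PC Q) := ⊤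
  have : MeasurableSingletonClass (PC Q) := ⟨fun _ => trivial⟩
  have : IsFiniteMeasure (Measure.count : Measure (PC Q)) := inferInstance
  set ν0 : Measure ℝ := volume.restrict (Set.Ioc (-T) T) with hν0
  set ν : Measure ((PC Q) × ℝ) := (Measure.count : Measure (PC Q)).prod ν0 with hν
  set A := AA X
  set V := VV X
  have hAr : (1 : ℝ) ≤ A := by exact_mod_cast hA
  have hVr : (1 : ℝ) ≤ V := hAr.trans (by exact_mod_cast hAV)
  have hlogV : 0 ≤ Real.log V := Real.log_nonneg hVr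
  set ε : ℝ := 10 * (Q : ℝ) ^ 2 * (1 + 2 * T) / A with hε
  have hε0 : 0 ≤ ε := by positivity
  set φ : ℕ → (PC Q) × ℝ → ℂ := fun a z =>
    z.1.1.2 (a : ZMod z.1.1.1) * (a : ℂ) ^ (-(z.2 * Complex.I)) with hφ
  have hφm : ∀ a, Measurable (φ a) := by
    intro a
    apply measurable_from_prod_countable_right
    intro p
    have hmeas : Measurable (fun y : ℝ => (a : ℂ) ^ (-(y * Complex.I))) := by
      rcases Nat.eq_zero_or_pos a with h | h
      · subst h
        have : (fun y : ℝ => ((0 : ℕ) : ℂ) ^ (-(y * Complex.I))) = fun y : ℝ =>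
            if y = 0 then 1 else 0 := by
          funext y
          by_cases hy : y = 0
          · simp [hy]
          · rw [if_neg hy, Nat.cast_zero, Complex.zero_cpow]
            simpa using hy
        rw [this]
        exact Measurable.ite (measurableSet_eq) measurable_const measurable_const
      · have ha : (a : ℂ) ≠ 0 := by exact_mod_cast (by omega : a ≠ 0)
        apply Continuous.measurable
        exact Continuous.const_cpow (by fun_prop) (Or.inl ha)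
    exact hmeas.const_mul (p.1.2 (a : ZMod p.1.1))
  have hφ1 : ∀ a z, ‖φ a z‖ ≤ 1 := by
    intro a z
    rw [hφ]
    simp only
    rw [norm_mul]
    have := mul_le_mul (z.1.1.2.norm_le_one (a : ZMod z.1.1.1)) (mv_phi_norm a z.2)
      (norm_nonneg _) zero_le_one
    simpa using this
  set c : ℕ → ℂ := fun a => (ArithmeticFunction.moebius a : ℂ) with hc
  have hc1 : ∀ a, ‖c a‖ ≤ 1 := by
    intro a
    rw [hc]
    simp only
    rw [Complex.norm_intCast]
    exact_mod_cast ArithmeticFunction.abs_moebius_le_one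
  set w : ℕ → ℝ := fun a => 1 / (a : ℝ) with hw
  have hw0 : ∀ a, 0 ≤ w a := fun a => by positivity
  have hMu : ∀ z : (PC Q) × ℝ, Mu X z.1.1 z.2 = ∑ a ∈ Icc A V, c a * (w a : ℂ) * φ a z := by
    intro z
    unfold Mu
    apply Finset.sum_congr rfl
    intro a ha
    have ha1 : 1 ≤ a := hA.trans (Finset.mem_Icc.mp ha).1
    have ha0 : (a : ℂ) ≠ 0 := by exact_mod_cast (by omega : a ≠ 0)
    rw [hc, hw, hφ]
    simp only
    have e1 : (a : ℂ) ^ (-(1 + z.2 * Complex.I)) =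
        ((1 / (a : ℝ) : ℝ) : ℂ) * (a : ℂ) ^ (-(z.2 * Complex.I)) := by
      rw [neg_add, Complex.cpow_add _ _ ha0, Complex.cpow_neg_one]
      push_cast
      rw [one_div]
    rw [e1]
    ring
  set B : ℝ := (2 * Real.log V + 4) * (2 * Real.log (1 + 2 * T)) + (Q : ℝ) ^ 2 * (2 * T) * ε with hB
  have hlogT : 0 ≤ Real.log (1 + 2 * T) := Real.log_nonneg (by linarith)
  have hB0 : 0 ≤ B := by
    rw [hB]
    have : 0 ≤ (Q : ℝ) ^ 2 * (2 * T) * ε := by positivity
    have : 0 ≤ (2 * Real.log V + 4) * (2 * Real.log (1 + 2 * T)) := by positivity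
    linarith
  have hae : ∀ᵐ z ∂ν, z.2 ∈ Set.Ioc (-T) T := by
    have h1 : ∀ᵐ t ∂ν0, t ∈ Set.Ioc (-T) T := ae_restrict_mem measurableSet_Ioc
    have h2 := (Measure.quasiMeasurePreserving_snd (μ := (Measure.count : Measure (PC Q)))
      (ν := ν0)).ae h1
    exact h2
  have hker : ∀ᵐ z ∂ν, ∫ z', ‖∑ a ∈ Icc A V, (w a : ℂ) * (conj (φ a z) * φ a z')‖ ∂ν ≤ B := by
    filter_upwards [hae] with z hz
    set g : (PC Q) × ℝ → ℝ := fun z' =>
      (if z.1 = z'.1 then (2 * Real.log V + 4) * (1 / (1 + |z'.2 - z.2|)) else 0) + ε with hg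
    have hgm : Measurable g := by
      apply measurable_from_prod_countable_right
      intro p
      refine Measurable.add_const ?_ ε
      by_cases hp : z.1 = p
      · simp only [hp, if_true]
        apply Continuous.measurable
        refine continuous_const.mul (continuous_const.div (by fun_prop) fun s => ?_)
        positivity
      · simp only [hp, if_false]
        exact measurable_const
    have hgb : ∀ z', ‖g z'‖ ≤ (2 * Real.log V + 4) + ε := by
      intro z'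
      have h1 : 0 ≤ (1 / (1 + |z'.2 - z.2|)) := by positivity
      have h2 : (1 / (1 + |z'.2 - z.2|)) ≤ 1 := by
        rw [div_le_one (by positivity)]
        linarith [abs_nonneg (z'.2 - z.2)]
      rw [hg]
      simp only
      split_ifs
      · rw [Real.norm_of_nonneg (by positivity)]
        have : (2 * Real.log V + 4) * (1 / (1 + |z'.2 - z.2|)) ≤ (2 * Real.log V + 4) * 1 :=
          mul_le_mul_of_nonneg_left h2 (by positivity)
        linarith
      · rw [zero_add, Real.norm_of_nonneg hε0]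
        linarith
    have hgint : Integrable g ν :=
      Integrable.of_bound hgm.aestronglyMeasurable _ (ae_of_all _ hgb)
    have h1 : ∫ z', ‖∑ a ∈ Icc A V, (w a : ℂ) * (conj (φ a z) * φ a z')‖ ∂ν ≤ ∫ z', g z' ∂ν := by
      apply integral_mono_of_nonneg (ae_of_all _ fun _ => norm_nonneg _) hgint
      filter_upwards [hae] with z' hz'
      have e1 : ∑ a ∈ Icc A V, (w a : ℂ) * (conj (φ a z) * φ a z') =
          ∑ a ∈ Icc A V, conj (z.1.1.2 (a : ZMod z.1.1.1)) * z'.1.1.2 (a : ZMod z'.1.1.1) *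
            (a : ℂ) ^ (-(1 + ((z'.2 - z.2 : ℝ) : ℂ) * Complex.I)) := by
        apply Finset.sum_congr rfl
        intro a ha
        have ha1 : 1 ≤ a := hA.trans (Finset.mem_Icc.mp ha).1
        rw [← mv_cpow a ha1 z.2 z'.2, hφ, hw]
        simp only [map_mul]
        ring
      rw [e1]
      refine (mv_kernel Q A V hA hAV z.1.1 z'.1.1 z.1.2 z'.1.2 (z'.2 - z.2)).trans ?_
      have hu : |z'.2 - z.2| ≤ 2 * T := by
        rw [abs_le]
        constructor <;> linarith [hz.1, hz.2, hz'.1, hz'.2]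
      have h3 : 10 * (Q : ℝ) ^ 2 * (1 + |z'.2 - z.2|) / A ≤ ε := by
        rw [hε]
        apply div_le_div_of_nonneg_right _ (by positivity)
        apply mul_le_mul_of_nonneg_left _ (by positivity)
        linarith
      rw [hg]
      simp only
      by_cases hzz : z.1 = z'.1
      · rw [if_pos hzz, if_pos (congrArg Subtype.val hzz)]
        rw [mul_one_div]
        linarith
      · rw [if_neg hzz, if_neg (fun h => hzz (Subtype.ext h))]
        linarith
    refine h1.trans ?_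
    rw [hν, integral_prod _ hgint, integral_count]
    have e2 : ∀ p : (PC Q), ∫ t, g (p, t) ∂ν0 =
        (if z.1 = p then (2 * Real.log V + 4) * ∫ t in (-T)..T, 1 / (1 + |t - z.2|) else 0) +
          2 * T * ε := by
      intro p
      have hTT : -T ≤ T := by linarith
      rw [hν0, ← intervalIntegral.integral_of_le hTT]
      rw [hg]
      simp only
      by_cases hp : z.1 = p
      · simp only [hp, if_true]
        rw [intervalIntegral.integral_add, intervalIntegral.integral_const_mul,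
          intervalIntegral.integral_const, smul_eq_mul]
        · ring
        · apply Continuous.intervalIntegrable
          refine continuous_const.mul (continuous_const.div (by fun_prop) fun s => ?_)
          positivity
        · exact intervalIntegrable_const
      · simp only [hp, if_false, zero_add]
        rw [intervalIntegral.integral_const, smul_eq_mul]
        ring
    simp_rw [e2]
    rw [Finset.sum_add_distrib, Finset.sum_ite_eq, if_pos (Finset.mem_univ _), Finset.sum_const,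
      nsmul_eq_mul]
    have h4 := mv_J T z.2 (by linarith [hz.1]) hz.2
    have h5 : (2 * Real.log V + 4) * ∫ t in (-T)..T, 1 / (1 + |t - z.2|) ≤
        (2 * Real.log V + 4) * (2 * Real.log (1 + 2 * T)) :=
      mul_le_mul_of_nonneg_left h4 (by positivity)
    have h6 : ((Finset.univ : Finset (PC Q)).card : ℝ) ≤ (Q : ℝ) ^ 2 := by
      rw [Finset.card_univ, Fintype.card_coe]
      exact_mod_cast card_PC_le Q
    have h7 : ((Finset.univ : Finset (PC Q)).card : ℝ) * (2 * T * ε) ≤ (Q : ℝ) ^ 2 * (2 * T * ε) :=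
      mul_le_mul_of_nonneg_right h6 (by positivity)
    rw [hB]
    linarith
  have hmain := mv_dual ν (Icc A V) w hw0 c hc1 φ hφm hφ1 B hB0 hker
  have hint : Integrable (fun z : (PC Q) × ℝ => ‖Mu X z.1.1 z.2‖ ^ 2) ν := by
    have hm : Measurable (fun z : (PC Q) × ℝ => ‖Mu X z.1.1 z.2‖ ^ 2) := by
      have : (fun z : (PC Q) × ℝ => ‖Mu X z.1.1 z.2‖ ^ 2) =
          fun z => ‖∑ a ∈ Icc A V, c a * (w a : ℂ) * φ a z‖ ^ 2 := by
        funext z; rw [hMu z]
      rw [this]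
      exact (Finset.measurable_fun_sum _ fun a _ => (hφm a).const_mul _).norm.pow_const 2
    refine Integrable.of_bound (C := (∑ a ∈ Icc A V, w a) ^ 2) hm.aestronglyMeasurable
      (ae_of_all _ fun z => ?_)
    rw [Real.norm_of_nonneg (by positivity), hMu z]
    refine pow_le_pow_left₀ (norm_nonneg _) ?_ 2
    refine (norm_sum_le _ _).trans (Finset.sum_le_sum fun a _ => ?_)
    rw [norm_mul, norm_mul, Complex.norm_real, Real.norm_of_nonneg (hw0 a)]
    have := mul_le_mul (mul_le_mul_of_nonneg_right (hc1 a) (hw0 a)) (hφ1 a z) (norm_nonneg _)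
      (by simpa using hw0 a)
    simpa using this
  have e3 : ∑ p ∈ PC Q, ∫ t in (-T)..T, ‖Mu X p t‖ ^ 2 =
      ∫ z, ‖∑ a ∈ Icc A V, c a * (w a : ℂ) * φ a z‖ ^ 2 ∂ν := by
    have e4 : ∫ z, ‖∑ a ∈ Icc A V, c a * (w a : ℂ) * φ a z‖ ^ 2 ∂ν =
        ∫ z : (PC Q) × ℝ, ‖Mu X z.1.1 z.2‖ ^ 2 ∂ν := by
      apply integral_congr_ae
      filter_upwards with z
      rw [hMu z]
    rw [e4, hν, integral_prod _ hint, integral_count]
    rw [← Finset.sum_coe_sort]
    apply Finset.sum_congr rfl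
    intro p _
    rw [intervalIntegral.integral_of_le (by linarith : -T ≤ T)]
  rw [e3]
  refine hmain.trans ?_
  exact mul_le_mul_of_nonneg_left (mv_sum_inv A V hA) hB0

/-- **Mean value theorem.** `T = Q^11`, `S = ∑_p ∫_{-T}^{T} ‖M_p(t)‖² dt ≤ 100 (log X)^3`.

Proof (duality). `S = ∑_a μ(a)/a conj(E_a)`, `E_a = ∑_p ∫ M_p(t) conj(ψ_p(a)) a^(it) dt`, so
`S² ≤ (∑_a 1/a) (∑_a |E_a|²/a)`, all sums over `a ∈ [AA X, VV X]`; and
`∑_a |E_a|²/a = ∑_{p,p'} ∫∫ M_p(t) conj(M_{p'}(t')) K_{p,p'}(t-t')`,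
`K_{p,p'}(u) = ∑_a conj(ψ_p(a)) ψ_{p'}(a) a^(-1+iu)`. For `p ≠ p'` the function `conj ψ_p ψ_{p'}`
is periodic mod `r r'` with mean `0` (as `ψ_p, ψ_{p'}` are distinct primitive characters, their
lifts to level `r r'` differ), so `|K|` is small by `periodic_sum`; for `p = p'` one has
`|K(u)| ≤ (2 log V + 4) / (1 + |u|)` up to a small error, and Schur's test (`mv_dual`) finishes. -/
theorem mean_value : ∃ K : ℝ, ∀ Q X : ℕ, Reg K Q X →
    ∑ p ∈ PC Q, ∫ t in (-(Q : ℝ) ^ 11)..((Q : ℝ) ^ 11), ‖Mu X p t‖ ^ 2 ≤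
      100 * (Real.log X) ^ (3 : ℝ) := by
  obtain ⟨K1, hK1, h1⟩ := reg_pow_le 60 26 (1 / 4) (by norm_num)
  refine ⟨K1 + 100, fun Q X hR => ?_⟩
  have hR1 : Reg K1 Q X := hR.mono (by linarith) (by linarith)
  have hR2 : Reg 100 Q X := hR.mono (by linarith) (by linarith)
  have hX0 : 0 < X := hR2.X_pos (by norm_num)
  have hXr : (100 : ℝ) ≤ X := hR2.X_ge (by norm_num)
  have hlX : (101 : ℝ) ≤ Real.log X := by
    have := hR2.logX_ge (by norm_num)
    have h2 := Real.add_one_le_exp (100 : ℝ)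
    linarith
  have hQ1 : (100 : ℝ) ≤ Q := hR2.Q_ge (by norm_num)
  have hQ1' : (1 : ℝ) ≤ Q := by linarith
  have hlQ : 100 * Real.log Q ≤ Real.log X := hR2.logQ_le (by norm_num)
  have hlQ1 : 1 ≤ Real.log Q := by
    have := hR2.logQ_ge (by norm_num)
    linarith
  rcases lt_or_ge (VV X) (AA X) with hVA | hAV
  · -- empty sum
    have h3 : ∀ p t, Mu X p t = 0 := by
      intro p t
      unfold Mu
      rw [Finset.Icc_eq_empty (by omega), Finset.sum_empty]
    have : ∑ p ∈ PC Q, ∫ t in (-(Q : ℝ) ^ 11)..((Q : ℝ) ^ 11), ‖Mu X p t‖ ^ 2 = 0 := by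
      apply Finset.sum_eq_zero
      intro p _
      simp [h3]
    rw [this]
    positivity
  have hA : 1 ≤ AA X := by
    unfold AA
    rw [Nat.one_le_ceil_iff]
    positivity
  have hT0 : (0 : ℝ) ≤ (Q : ℝ) ^ 11 := by positivity
  refine (mv_main Q X ((Q : ℝ) ^ 11) hT0 hA hAV).trans ?_
  -- bounds for the parameters
  have hVlog : Real.log (VV X) ≤ Real.log X := by
    have hV1 : (1 : ℝ) ≤ (VV X : ℝ) := by exact_mod_cast hA.trans hAV
    have h2 : (VV X : ℝ) ≤ ((60 * X : ℕ) : ℝ) ^ ((1 : ℝ) / 3) := Nat.floor_le (by positivity)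
    have h3 : Real.log (VV X) ≤ (1 / 3) * Real.log ((60 * X : ℕ) : ℝ) := by
      rw [← Real.log_rpow (by positivity)]
      exact Real.log_le_log (by linarith) h2
    have h4 : Real.log ((60 * X : ℕ) : ℝ) = Real.log 60 + Real.log X := by
      push_cast
      rw [Real.log_mul (by norm_num) (by positivity)]
    have h5 : Real.log 60 ≤ Real.log X := Real.log_le_log (by norm_num) (by linarith)
    have h6 : 0 ≤ Real.log X := by linarith
    linarith
  have hlogT : Real.log (1 + 2 * (Q : ℝ) ^ 11) ≤ Real.log X := by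
    have h2 : 1 + 2 * (Q : ℝ) ^ 11 ≤ (Q : ℝ) ^ 12 := by
      have h3 : (1 : ℝ) ≤ (Q : ℝ) ^ 11 := one_le_pow₀ hQ1'
      have h4 : (Q : ℝ) ^ 12 = (Q : ℝ) ^ 11 * Q := by ring
      rw [h4]
      nlinarith
    have h3 : Real.log (1 + 2 * (Q : ℝ) ^ 11) ≤ 12 * Real.log Q := by
      have := Real.log_le_log (by positivity) h2
      rw [Real.log_pow] at this
      push_cast at this
      exact this
    linarith
  have hsmall : (Q : ℝ) ^ 2 * (2 * (Q : ℝ) ^ 11) *
      (10 * (Q : ℝ) ^ 2 * (1 + 2 * (Q : ℝ) ^ 11) / AA X) ≤ 1 := by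
    have hA' : (X : ℝ) ^ ((1 : ℝ) / 4) ≤ AA X := Nat.le_ceil _
    have hXp : 0 < (X : ℝ) ^ ((1 : ℝ) / 4) := by positivity
    have hAp : (0 : ℝ) < AA X := hXp.trans_le hA'
    have h2 := h1 Q X hR1
    have h3 : (Q : ℝ) ^ (26 : ℝ) = (Q : ℝ) ^ 26 := by
      rw [← Real.rpow_natCast]; norm_num
    rw [h3] at h2
    rw [← mul_div_assoc, div_le_one hAp]
    have h4 : 1 + 2 * (Q : ℝ) ^ 11 ≤ 3 * (Q : ℝ) ^ 11 := by
      have h3 : (1 : ℝ) ≤ (Q : ℝ) ^ 11 := one_le_pow₀ hQ1'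
      linarith
    calc (Q : ℝ) ^ 2 * (2 * (Q : ℝ) ^ 11) * (10 * (Q : ℝ) ^ 2 * (1 + 2 * (Q : ℝ) ^ 11))
        ≤ (Q : ℝ) ^ 2 * (2 * (Q : ℝ) ^ 11) * (10 * (Q : ℝ) ^ 2 * (3 * (Q : ℝ) ^ 11)) := by
          gcongr
      _ = 60 * (Q : ℝ) ^ 26 := by ring
      _ ≤ _ := h2.trans hA'
  set L := Real.log X with hL
  have hV0 : 0 ≤ Real.log (VV X) := Real.log_nonneg (by exact_mod_cast hA.trans hAV)
  have hT1 : 0 ≤ Real.log (1 + 2 * (Q : ℝ) ^ 11) := Real.log_nonneg (by linarith)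
  have h8 : (2 * Real.log (VV X) + 4) * (2 * Real.log (1 + 2 * (Q : ℝ) ^ 11)) ≤
      (2 * L + 4) * (2 * L) := by
    apply mul_le_mul (by linarith) (by linarith) (by linarith) (by linarith)
  have h9 : (2 * Real.log (VV X) + 4) * (2 * Real.log (1 + 2 * (Q : ℝ) ^ 11)) +
      (Q : ℝ) ^ 2 * (2 * (Q : ℝ) ^ 11) *
      (10 * (Q : ℝ) ^ 2 * (1 + 2 * (Q : ℝ) ^ 11) / AA X) ≤ 6 * L ^ 2 := by
    nlinarith
  have h10 : 1 + Real.log (VV X) ≤ 2 * L := by linarith
  calc _ ≤ (6 * L ^ 2) * (2 * L) := mul_le_mul h9 h10 (by linarith) (by positivity)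
    _ ≤ 100 * L ^ 3 := by nlinarith [pow_pos (by linarith : 0 < L) 3]
    _ = 100 * L ^ (3 : ℝ) := by
      rw [← Real.rpow_natCast]; norm_num

end Pool.Agent.Lib.H68T
end
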