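import Mathlib
import Pool.Agent.Lib.H59M.M1.M003
import Pool.Agent.Lib.H59M.M1.M004
import Pool.Agent.Lib.H59M.M1.M012

/-! Merged copies (to shorten the build) of Lib.H21AP.DivisorBound, Lib.H84V.Defs, Lib.H96G.Defs, Lib.HUK.Defs, Lib.HUK.P0, Lib.H44W.U1, Lib.H44W.V3, Lib.H44W.V5, Lib.H44W.V8, Lib.H44W.D1. -/

-- from Lib.H21AP.DivisorBound
section

/-!
# The divisor bound
-/

namespace Pool.Agent.Lib.H21AP

open Finset

theorem succ_le_pow {ε : ℝ} (hε : 0 < ε) {p : ℕ} (hp : 2 ≤ p) (a : ℕ) :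
    ((a : ℝ) + 1) ≤ (1 + 1 / (ε * Real.log 2)) * (((p ^ a : ℕ) : ℝ) ^ ε) := by
  have hl : 0 < Real.log 2 := Real.log_pos (by norm_num)
  have hel : 0 < ε * Real.log 2 := by positivity
  have h1 : (1 : ℝ) + a * (ε * Real.log 2) ≤ ((p ^ a : ℕ) : ℝ) ^ ε := by
    have h2 : ((2 : ℝ) ^ a) ^ ε ≤ ((p ^ a : ℕ) : ℝ) ^ ε := by
      apply Real.rpow_le_rpow (by positivity) _ hε.le
      push_cast
      exact pow_le_pow_left₀ (by norm_num) (by exact_mod_cast hp) a
    have h3 : ((2 : ℝ) ^ a) ^ ε = Real.exp (a * (ε * Real.log 2)) := by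
      rw [← Real.rpow_natCast, ← Real.rpow_mul (by norm_num), Real.rpow_def_of_pos (by norm_num)]
      congr 1
      ring
    have h4 := Real.add_one_le_exp ((a : ℝ) * (ε * Real.log 2))
    rw [← h3] at h4
    linarith
  have h5 : (1 + 1 / (ε * Real.log 2)) * (1 + a * (ε * Real.log 2)) =
      a + 1 + (a * (ε * Real.log 2) + 1 / (ε * Real.log 2)) := by
    field_simp
    ring
  have h6 : 0 ≤ (a : ℝ) * (ε * Real.log 2) + 1 / (ε * Real.log 2) := by positivity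
  have h7 : (1 + 1 / (ε * Real.log 2)) * (1 + a * (ε * Real.log 2)) ≤
      (1 + 1 / (ε * Real.log 2)) * (((p ^ a : ℕ) : ℝ) ^ ε) :=
    mul_le_mul_of_nonneg_left h1 (by positivity)
  linarith

theorem succ_le_pow_of_large {ε : ℝ} (hε : 0 < ε) {p : ℕ} (hp : (2 : ℝ) ^ (1 / ε) ≤ p) (a : ℕ) :
    ((a : ℝ) + 1) ≤ ((p ^ a : ℕ) : ℝ) ^ ε := by
  have h1 : (2 : ℝ) ≤ (p : ℝ) ^ ε := by
    have h2 : ((2 : ℝ) ^ (1 / ε)) ^ ε ≤ (p : ℝ) ^ ε :=
      Real.rpow_le_rpow (by positivity) hp hε.le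
    rw [← Real.rpow_mul (by norm_num), one_div, inv_mul_cancel₀ hε.ne', Real.rpow_one] at h2
    exact h2
  have h3 : ((p ^ a : ℕ) : ℝ) ^ ε = ((p : ℝ) ^ ε) ^ a := by
    push_cast
    rw [← Real.rpow_natCast, ← Real.rpow_mul (Nat.cast_nonneg p), ← Real.rpow_natCast,
      ← Real.rpow_mul (Nat.cast_nonneg p), mul_comm]
  rw [h3]
  have h4 : (2 : ℝ) ^ a ≤ ((p : ℝ) ^ ε) ^ a := pow_le_pow_left₀ (by norm_num) h1 a
  have h5 : ((a : ℝ) + 1) ≤ (2 : ℝ) ^ a := by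
    have h6 : a + 1 ≤ 2 ^ a := Nat.lt_two_pow_self
    exact_mod_cast h6
  exact h5.trans h4

/-- For every `ε > 0` there is a constant `C` such that every positive integer `n` has at most
`C n ^ ε` divisors. -/
theorem divisor_bound {ε : ℝ} (hε : 0 < ε) : ∃ C : ℝ, 0 < C ∧ ∀ n : ℕ, 1 ≤ n →
    (n.divisors.card : ℝ) ≤ C * (n : ℝ) ^ ε := by
  obtain ⟨K, hK⟩ : ∃ K : ℝ, K = 1 + 1 / (ε * Real.log 2) := ⟨_, rfl⟩
  have hl : 0 < Real.log 2 := Real.log_pos (by norm_num)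
  have hK1 : 1 ≤ K := by
    rw [hK]
    have : 0 < 1 / (ε * Real.log 2) := by positivity
    linarith
  obtain ⟨P, hP⟩ : ∃ P : ℕ, P = ⌈(2 : ℝ) ^ (1 / ε)⌉₊ := ⟨_, rfl⟩
  refine ⟨K ^ P, by positivity, ?_⟩
  intro n hn
  have hn0 : n ≠ 0 := by omega
  rw [Nat.card_divisors hn0]
  push_cast
  have h1 : ∀ p ∈ n.primeFactors, ((n.factorization p : ℝ) + 1) ≤
      (if p < P then K else 1) * (((p ^ n.factorization p : ℕ) : ℝ) ^ ε) := by
    intro p hp
    have hpp := Nat.prime_of_mem_primeFactors hp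
    split_ifs with h
    · rw [hK]
      exact succ_le_pow hε hpp.two_le _
    · rw [one_mul]
      apply succ_le_pow_of_large hε
      have h2 : (2 : ℝ) ^ (1 / ε) ≤ P := by
        rw [hP]
        exact Nat.le_ceil _
      have h3 : (P : ℝ) ≤ p := by exact_mod_cast not_lt.1 h
      linarith
  have h2 : ∏ p ∈ n.primeFactors, ((n.factorization p : ℝ) + 1) ≤
      ∏ p ∈ n.primeFactors, ((if p < P then K else 1) *
        (((p ^ n.factorization p : ℕ) : ℝ) ^ ε)) :=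
    prod_le_prod (fun p _ => by positivity) h1
  refine h2.trans ?_
  rw [prod_mul_distrib]
  have h3 : ∏ p ∈ n.primeFactors, (((p ^ n.factorization p : ℕ) : ℝ) ^ ε) = (n : ℝ) ^ ε := by
    rw [Real.finsetProd_rpow _ _ (fun p _ => Nat.cast_nonneg _)]
    congr 1
    have h4 : n.factorization.prod (fun p a => p ^ a) = n := Nat.prod_factorization_pow_eq_self hn0
    rw [Finsupp.prod, Nat.support_factorization] at h4
    conv_rhs => rw [← h4]
    push_cast
    rfl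
  rw [h3]
  apply mul_le_mul_of_nonneg_right _ (by positivity)
  have h4 : ∏ p ∈ n.primeFactors, (if p < P then K else 1) =
      K ^ (n.primeFactors.filter fun p => p < P).card := by
    rw [prod_ite, prod_const, prod_const_one, mul_one]
  rw [h4]
  apply pow_le_pow_right₀ hK1
  calc (n.primeFactors.filter fun p => p < P).card ≤ (range P).card := by
        apply card_le_card
        intro p hp
        rw [mem_filter] at hp
        exact mem_range.2 hp.2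
    _ = P := card_range P

end Pool.Agent.Lib.H21AP
end

-- from Lib.H84V.Defs
section

/-!
# H84V: Vinogradov's lemma and Lemma P (part of the inverse theorem, MP_443e5f candidate T). Owner: helper84.

`nd x`: distance to the nearest integer. `Idx X κ K δ`: a finite set with a map `κ` to `[K, 2K)` whose fibres have at most
`|X| / (δ K)` elements. `ec R A B`: number of pairs in `A × B` which are related.
-/

open Finset

namespace Pool.Agent.Lib.H84V

/-- Distance to the nearest integer. -/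
noncomputable def nd (x : ℝ) : ℝ := |x - round x|

/-- An index set: `κ` takes values in `[K, 2K)` and every value at most `|X| / (δ K)` times. -/
structure Idx {ι : Type} (X : Finset ι) (κ : ι → ℕ) (K : ℕ) (δ : ℝ) : Prop where
  lo : ∀ x ∈ X, K ≤ κ x
  hi : ∀ x ∈ X, κ x < 2 * K
  fib : ∀ k : ℕ, δ * (((X.filter fun x => κ x = k).card : ℝ) * K) ≤ X.card

open Classical in
/-- The number of related pairs in `A × B`. -/
noncomputable def ec {ι ι' : Type} (R : ι → ι' → Prop) (A : Finset ι) (B : Finset ι') : ℕ :=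
  ((A ×ˢ B).filter fun p => R p.1 p.2).card

theorem nd_nonneg (x : ℝ) : 0 ≤ nd x := abs_nonneg _


theorem nd_le_int (x : ℝ) (m : ℤ) : nd x ≤ |x - m| := round_le x m

theorem nd_le_abs (x : ℝ) : nd x ≤ |x| := by
  have h := nd_le_int x 0
  simpa using h

theorem exists_nd (x : ℝ) : ∃ m : ℤ, nd x = |x - m| := ⟨round x, rfl⟩

theorem nd_add_int (x : ℝ) (m : ℤ) : nd (x + m) = nd x := by
  apply le_antisymm
  · obtain ⟨k, hk⟩ := exists_nd x
    have h := nd_le_int (x + m) (k + m)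
    have e : x + m - ((k + m : ℤ) : ℝ) = x - k := by push_cast; ring
    rw [e] at h
    rw [hk]
    exact h
  · obtain ⟨k, hk⟩ := exists_nd (x + m)
    have h := nd_le_int x (k - m)
    have e : x - ((k - m : ℤ) : ℝ) = x + m - k := by push_cast; ring
    rw [e] at h
    rw [hk]
    exact h


theorem nd_neg (x : ℝ) : nd (-x) = nd x := by
  apply le_antisymm
  · obtain ⟨k, hk⟩ := exists_nd x
    have h := nd_le_int (-x) (-k)
    have e : -x - ((-k : ℤ) : ℝ) = -(x - k) := by push_cast; ring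
    rw [e, abs_neg] at h
    rw [hk]
    exact h
  · obtain ⟨k, hk⟩ := exists_nd (-x)
    have h := nd_le_int x (-k)
    have e : x - ((-k : ℤ) : ℝ) = -(-x - k) := by push_cast; ring
    rw [e, abs_neg] at h
    rw [hk]
    exact h

theorem nd_add_le (x y : ℝ) : nd (x + y) ≤ nd x + nd y := by
  obtain ⟨k, hk⟩ := exists_nd x
  obtain ⟨l, hl⟩ := exists_nd y
  have h := nd_le_int (x + y) (k + l)
  have e : x + y - ((k + l : ℤ) : ℝ) = (x - k) + (y - l) := by push_cast; ring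
  rw [e] at h
  rw [hk, hl]
  exact h.trans (abs_add_le _ _)

theorem nd_sub_le (x y : ℝ) : nd (x - y) ≤ nd x + nd y := by
  have h := nd_add_le x (-y)
  rw [nd_neg] at h
  exact h


theorem nd_nat_mul_le (n : ℕ) (x : ℝ) : nd (n * x) ≤ n * nd x := by
  obtain ⟨k, hk⟩ := exists_nd x
  have h := nd_le_int (n * x) (n * k)
  have e : (n : ℝ) * x - ((n * k : ℤ) : ℝ) = n * (x - k) := by push_cast; ring
  rw [e, abs_mul, Nat.abs_cast] at h
  rw [hk]
  exact h






/-- The two functions are close to linear functions of `κ` on `A` and on `B`, with nearly the same slope, and many pairs of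
`A × B` are related. -/
structure St {ι ι' : Type} (X : Finset ι) (X' : Finset ι') (κ : ι → ℕ) (κ' : ι' → ℕ) (R : ι → ι' → Prop) (u : ι → ℝ)
    (v : ι' → ℝ) (δ Z : ℝ) (A : Finset ι) (B : Finset ι') (φ r φ' r' : ℝ) : Prop where
  hA : A ⊆ X
  hB : B ⊆ X'
  hc : δ * ((X.card : ℝ) * X'.card) ≤ ec R A B
  hu : ∀ x ∈ A, |u x - κ x * φ - r| ≤ Z
  hv : ∀ y ∈ B, |v y - κ' y * φ' - r'| ≤ Z
  hφ : |φ - φ'| ≤ 2 * Z

theorem St.mono {ι ι' : Type} {X : Finset ι} {X' : Finset ι'} {κ : ι → ℕ} {κ' : ι' → ℕ} {R : ι → ι' → Prop} {u : ι → ℝ}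
    {v : ι' → ℝ} {δ Z : ℝ} {A : Finset ι} {B : Finset ι'} {φ r φ' r' : ℝ} (h : St X X' κ κ' R u v δ Z A B φ r φ' r')
    {δ₁ Z₁ : ℝ} (hd : δ₁ ≤ δ) (hZ : Z ≤ Z₁) : St X X' κ κ' R u v δ₁ Z₁ A B φ r φ' r' :=
  ⟨h.hA, h.hB, (mul_le_mul_of_nonneg_right hd (by positivity)).trans h.hc, fun x hx => (h.hu x hx).trans hZ,
    fun y hy => (h.hv y hy).trans hZ, h.hφ.trans (by linarith)⟩

theorem Idx.mono {ι : Type} {X : Finset ι} {κ : ι → ℕ} {K : ℕ} {δ δ' : ℝ} (h : Idx X κ K δ) (hd : δ' ≤ δ) :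
    Idx X κ K δ' :=
  ⟨h.lo, h.hi, fun k => (mul_le_mul_of_nonneg_right hd (by positivity)).trans (h.fib k)⟩

end Pool.Agent.Lib.H84V
end

-- from Lib.H96G.Defs
section

/-!
# Project H96G (MP_443e5f_co, project T, module G): from the kernel estimates to the graph

`GIn n M L c B b` is the input at the size `n`: scales are multiples of `M`, `L X` is the model of the primes on
`[X, 4X]`, power savings `c`, base scales `Z ≥ n^(1-B)`, losses `n^(-b)`, `100 b ≤ B`, `100 B ≤ c`.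

The graph is `HL lo n` (halved coordinates, `lo = 0` or `1`): `x`, `y` in `[lo, n]` are adjacent iff `x + y` and
`|x - y|` are odd primes (`hadj x y`).
-/

open Finset

namespace Pool.Agent.Lib.H96G

open Pool.Agent.Lib.H68T (lp)
open Pool.Agent.Lib.GoldbachGraph (hadj hadj_comm)

noncomputable section

/-- The kernel of the primes. -/
def kp (x y : ℕ) : ℝ := lp ((x : ℤ) + y) * lp ((x : ℤ) - y)


/-- The halved graph on `[lo, n]`. -/
def HL (lo n : ℕ) : SimpleGraph ℕ where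
  Adj x y := hadj x y ∧ x ∈ Finset.Icc lo n ∧ y ∈ Finset.Icc lo n
  symm := ⟨fun _ _ h => ⟨(hadj_comm _ _).mp h.1, h.2.2, h.2.1⟩⟩
  loopless := ⟨fun x h => by
    have := h.1.2.2.1
    rw [Nat.dist_self] at this
    exact Nat.not_prime_zero this⟩



/-- `X` is a scale for `x ∈ [2X, 3X)` and `Z` one for `y ∈ [Z, 2Z)`. -/
structure Sc (n M : ℕ) (B : ℝ) (X Z : ℕ) : Prop where
  dX : M ∣ X
  dZ : M ∣ Z
  lo : (n : ℝ) ^ (1 - B) ≤ Z
  le : 2 * Z ≤ X
  hi : X ≤ n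









end

end Pool.Agent.Lib.H96G
end

-- from Lib.HUK.Defs
section

/-!
# Project HUK: power saving for all Gowers norms of the primes. Definitions for modules A and B

Paper proof: `PROOF.md`. `ee θ = exp(2πiθ)` (`H44W/W0`, rules in `H44W/E1`), `nd x` the distance to the nearest integer
(`H84V/Defs`, with rules).
-/

open Finset

namespace Pool.Agent.HUK

open Pool.Agent.H44W (ee)
open Pool.Agent.Lib.H84V (nd)

noncomputable section

/-- The difference operator `f(y) conj f(y + h)`. -/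
def DD {G : Type*} [Add G] (h : G) (f : G → ℂ) : G → ℂ := fun y => f y * (starRingEnd ℂ) (f (y + h))

/-- Iterated differences. -/
def DL {G : Type*} [Add G] : List G → (G → ℂ) → G → ℂ
  | [], f => f
  | h :: l, f => DL l (DD h f)

/-- The box `(-H, H)^s`. -/
def bxS (s H : ℕ) : Finset (Fin s → ℤ) := Fintype.piFinset fun _ => Ioo (-(H : ℤ)) H

/-- Differences of a function on `ℤ` in the directions `h 0, …, h (s-1)`. -/
def DV {s : ℕ} (h : Fin s → ℤ) (f : ℤ → ℂ) : ℤ → ℂ := DL (List.ofFn h) f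

/-- Bounded by `1` and supported in `[-X, X)`. -/
structure Bdd (X : ℕ) (f : ℤ → ℂ) : Prop where
  le : ∀ y, ‖f y‖ ≤ 1
  sup : ∀ y, y ∉ Ico (-(X : ℤ)) X → f y = 0

/-- `∑_y Δ_h f(y)` for `f` supported in `[-X, X)`. -/
def FF (X : ℕ) {s : ℕ} (h : Fin s → ℤ) (f : ℤ → ℂ) : ℂ := ∑ y ∈ Ico (-(X : ℤ)) X, DV h f y

/-- `∑_{h ∈ ℤ^s} ∑_y Δ_h f(y)` (all `h` with a non-zero term) for `f` supported in `[-X, X)`: the power `2^s` of the
unnormalised `U^s` norm. -/
def GG (X s : ℕ) (f : ℤ → ℂ) : ℝ := (∑ h ∈ bxS s (2 * X), FF X h f).re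

/-- The Fejer weight. -/
def fw (M : ℕ) (t : ℤ) : ℝ := max 0 (1 - |(t : ℝ)| / M)

/-- Product of Fejer weights. -/
def FW (M : ℕ) {s : ℕ} (t : Fin s → ℤ) : ℝ := ∏ i, fw M (t i)

/-- Normalised `U^s` norm (power `2^s`, times `X`) along the progressions `d [0, M)`, Fejer weights. -/
def NU (X s M : ℕ) (d : ℤ) (f : ℤ → ℂ) : ℝ :=
  (∑ t ∈ bxS s M, ((FW M t : ℝ) : ℂ) * FF X (fun i => d * t i) f).re / (M : ℝ) ^ s

/-- Normalised average of differences over mixed progressions: the entry `(m, d)` stands for the differences `d t`,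
`|t| < m`, with Fejer weights. `NU X s M d f = (MQ X (List.replicate s (M, d)) f).re`. -/
def MQ (X : ℕ) : List (ℕ × ℤ) → (ℤ → ℂ) → ℂ
  | [], f => ∑ y ∈ Ico (-(X : ℤ)) X, f y
  | p :: l, f => (∑ t ∈ Ioo (-(p.1 : ℤ)) p.1, ((fw p.1 t : ℝ) : ℂ) * MQ X l (DD (p.2 * t) f)) / p.1

/-- The weights of the elimination lemma without absolute values. -/
def WT (H : ℕ) {r : ℕ} (j : Fin r → ℤ) : ℝ := ∏ i : Fin r, fw H (j i) ^ (2 ^ (r - 1 - (i : ℕ)))

/-- Number of coordinates equal to `true`. -/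
def sg {s : ℕ} (ω : Fin s → Bool) : ℕ := (univ.filter fun i => ω i = true).card

/-- Complex conjugation iterated `n` times. -/
def cj (n : ℕ) (z : ℂ) : ℂ := if Even n then z else (starRingEnd ℂ) z

/-- The vertex `ω · h`. -/
def vt {G : Type*} [AddCommMonoid G] {s : ℕ} (ω : Fin s → Bool) (h : Fin s → G) : G := ∑ i, if ω i then h i else 0

/-! ### Quasi-periodic weights -/

/-- The product of all vertices `a + ω · j`. -/
def Qf : List ℤ → ℤ → ℤ
  | [], a => a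
  | j :: l, a => Qf l a * Qf l (a + j)

/-- `Qf` times the alternating sum of the `1 / (a + ω · j)`. -/
def Df : List ℤ → ℤ → ℤ
  | [], _ => 1
  | j :: l, a => Df l a * Qf l (a + j) - Df l (a + j) * Qf l a

/-- All vertices `a + ω · j` are in `(K, 2K]`. -/
def Vt (K : ℕ) : List ℤ → ℤ → Prop
  | [], a => (K : ℤ) < a ∧ a ≤ 2 * K
  | j :: l, a => Vt K l a ∧ Vt K l (a + j)

/-- Quasi-periodic weights `c (z, a)`: a translation of `z` by `a k` multiplies by `ee (ψ k)`, up to `k / H`. -/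
structure QP (X K H : ℕ) (ψ : ℝ) (c : ℤ × ℤ → ℂ) : Prop where
  le : ∀ p, ‖c p‖ ≤ 1
  supz : ∀ z a : ℤ, z ∉ Ico (-(3 * X : ℤ)) (3 * X) → c (z, a) = 0
  supa : ∀ z a : ℤ, ¬ ((K : ℤ) < a ∧ a ≤ 2 * K) → c (z, a) = 0
  qp : ∀ (z a : ℤ) (k : ℕ), (K : ℤ) < a → a ≤ 2 * K → ‖c (z + a * k, a) - ee (ψ * k) * c (z, a)‖ ≤ k / H

/-- Mean square of the averages of `g` times a phase over progressions of length `M` and difference `a`. -/
def TQ (X M : ℕ) (a : ℤ) (ψ : ℝ) (g : ℤ → ℂ) : ℝ :=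
  ∑ z ∈ Ico (-(2 * X : ℤ)) (2 * X), ‖(∑ j ∈ range M, g (z + a * j) * ee (ψ * j)) / M‖ ^ 2

/-- The dual function of the forms `n - (k - j) h`, `j < k`, `f j` supported in `[-X, X)`, `k ≥ 2`. -/
def Psi (X k : ℕ) (f : ℕ → ℤ → ℂ) (n : ℤ) : ℂ :=
  ∑ h ∈ Ioo (-(2 * X : ℤ)) (2 * X), ∏ j ∈ range k, f j (n - ((k : ℤ) - j) * h)

/-- The exponent up to which factors are treated as small in type II sums for `k + 1` forms. -/
def cs (k : ℕ) : ℝ := (1 / 2) ^ (2 ^ (k - 1) + 4)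

/-- **Interface of module A: type II sums with a small factor.** -/
def TII (k : ℕ) : Prop := ∀ θ κ : ℝ, 0 < θ → 0 < κ → ∃ κ' ε : ℝ, 0 < κ' ∧ 0 < ε ∧ ∃ X0 : ℕ, ∀ X : ℕ, X0 ≤ X →
  ∀ α β : ℕ → ℂ, (∀ a, ‖α a‖ ≤ (X : ℝ) ^ ε) → (∀ b, ‖β b‖ ≤ (X : ℝ) ^ ε) →
  (∀ a : ℕ, α a ≠ 0 → (X : ℝ) ^ θ ≤ a ∧ (a : ℝ) ≤ (X : ℝ) ^ cs k) →
  ∀ f : ℕ → ℤ → ℂ, (∀ j, j < k → Bdd X (f j)) → GG X (k - 1) (f 0) ≤ (X : ℝ) ^ (k - κ) →
  ‖∑ a ∈ Icc 1 (2 * k * X), ∑ b ∈ Icc 1 (2 * k * X), α a * β b * Psi X k f ((a : ℤ) * b)‖ ≤ (X : ℝ) ^ (2 - κ')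

end

end Pool.Agent.HUK
end

-- from Lib.HUK.P0
section

/-!
# Project HUK, chunk P0 (M): rules for iterated differences (only `Defs`)
-/

open Finset

namespace Pool.Agent.HUK

theorem p0_DD_DD {G : Type*} [AddCommMonoid G] (a h : G) (f : G → ℂ) : DD a (DD h f) = DD h (DD a f) := by
  funext y
  simp only [DD, map_mul, Complex.conj_conj, add_right_comm y a h]
  ring

theorem p0_DD_mul {G : Type*} [AddCommMonoid G] (h : G) (f g : G → ℂ) :
    DD h (fun z => f z * g z) = fun z => DD h f z * DD h g z := by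
  funext y
  simp only [DD, map_mul]
  ring

theorem p0_cj_mul (n : ℕ) (a b : ℂ) : cj n (a * b) = cj n a * cj n b := by
  unfold cj
  split_ifs
  · rfl
  · exact map_mul _ _ _

theorem p0_cj_conj (n : ℕ) (a : ℂ) : cj n ((starRingEnd ℂ) a) = cj (n + 1) a := by
  unfold cj
  by_cases h : Even n
  · rw [if_pos h, if_neg (by rw [Nat.even_add_one]; exact not_not.mpr h)]
  · rw [if_neg h, if_pos (Nat.even_add_one.mpr h), Complex.conj_conj]

theorem p0_sg_cons {s : ℕ} (b : Bool) (ω : Fin s → Bool) :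
    sg (Fin.cons b ω : Fin (s + 1) → Bool) = sg ω + (if b then 1 else 0) := by
  unfold sg
  rw [Finset.card_filter, Finset.card_filter, Fin.sum_univ_succ]
  simp only [Fin.cons_zero, Fin.cons_succ]
  rw [add_comm]

theorem p0_vt_cons {G : Type*} [AddCommMonoid G] {s : ℕ} (b : Bool) (ω : Fin s → Bool) (h : Fin (s + 1) → G) :
    vt (Fin.cons b ω : Fin (s + 1) → Bool) h = (if b then h 0 else 0) + vt ω (fun i => h i.succ) := by
  unfold vt
  rw [Fin.sum_univ_succ]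
  simp only [Fin.cons_zero, Fin.cons_succ]

/-- Differences commute. Induction on `l` (commutative addition). -/
theorem DL_DD {G : Type*} [AddCommMonoid G] (l : List G) (h : G) (f : G → ℂ) : DL l (DD h f) = DD h (DL l f) := by
  induction l generalizing f with
  | nil => rfl
  | cons a l ih =>
    change DL l (DD a (DD h f)) = DD h (DL l (DD a f))
    rw [p0_DD_DD, ih]


/-- Multiplicativity. -/
theorem DL_mul {G : Type*} [AddCommMonoid G] (l : List G) (f g : G → ℂ) :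
    DL l (fun z => f z * g z) = fun z => DL l f z * DL l g z := by
  induction l generalizing f g with
  | nil => rfl
  | cons a l ih =>
    change DL l (DD a (fun z => f z * g z)) = fun z => DL l (DD a f) z * DL l (DD a g) z
    rw [p0_DD_mul, ih]

theorem DL_smul {G : Type*} [AddCommMonoid G] (l : List G) (w : ℝ) (f : G → ℂ) :
    DL l (fun z => (w : ℂ) * f z) = fun z => ((w ^ (2 ^ l.length) : ℝ) : ℂ) * DL l f z := by
  induction l generalizing w f with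
  | nil =>
    funext z
    simp only [DL, List.length_nil, pow_zero, pow_one]
  | cons a l ih =>
    change DL l (DD a (fun z => (w : ℂ) * f z)) = _
    have h1 : DD a (fun z => (w : ℂ) * f z) = fun z => ((w ^ 2 : ℝ) : ℂ) * DD a f z := by
      funext z
      simp only [DD, map_mul, Complex.conj_ofReal]
      push_cast
      ring
    rw [h1, ih (w ^ 2) (DD a f)]
    funext z
    change _ = _ * DL l (DD a f) z
    rw [List.length_cons, ← pow_mul, pow_succ, mul_comm 2]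

theorem DL_norm {G : Type*} [AddCommMonoid G] (l : List G) (f : G → ℂ) (hf : ∀ z, ‖f z‖ ≤ 1) (z : G) :
    ‖DL l f z‖ ≤ 1 := by
  induction l generalizing f with
  | nil => exact hf z
  | cons a l ih =>
    refine ih (DD a f) ?_
    intro y
    unfold DD
    rw [norm_mul, RCLike.norm_conj]
    exact mul_le_one₀ (hf y) (norm_nonneg _) (hf _)

/-- If `DL l f z ≠ 0` then `f z ≠ 0`. -/
theorem DL_supp {G : Type*} [AddCommMonoid G] (l : List G) (f : G → ℂ) (z : G) (h : f z = 0) : DL l f z = 0 := by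
  induction l generalizing f with
  | nil => exact h
  | cons a l ih =>
    refine ih (DD a f) ?_
    unfold DD
    rw [h, zero_mul]

/-- Product over the vertices of the cube. Induction on `s`: `List.ofFn_succ`, `DL (h 0 :: l) f = DL l (DD (h 0) f)`, and the vertices of
`{0,1}^(s+1)` are `Fin.cons false ω`, `Fin.cons true ω` (`vt (Fin.cons true ω) h = h 0 + vt ω (Fin.tail h)`, `sg (Fin.cons true ω) = sg ω + 1`). -/
theorem DL_prod {G : Type*} [AddCommMonoid G] (s : ℕ) (h : Fin s → G) (f : G → ℂ) (y : G) :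
    DL (List.ofFn h) f y = ∏ ω : Fin s → Bool, cj (sg ω) (f (y + vt ω h)) := by
  induction s generalizing f y with
  | zero =>
    rw [List.ofFn_zero, Fintype.prod_unique]
    have h1 : ∀ ω : Fin 0 → Bool, sg ω = 0 := by
      intro ω
      unfold sg
      simp
    have h2 : ∀ ω : Fin 0 → Bool, vt ω h = 0 := by
      intro ω
      unfold vt
      simp
    rw [h1, h2, add_zero]
    simp [cj, DL]
  | succ s ih =>
    rw [List.ofFn_succ]
    change DL (List.ofFn fun i : Fin s => h i.succ) (DD (h 0) f) y = _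
    rw [ih]
    rw [← (Fin.consEquiv fun _ : Fin (s + 1) => Bool).prod_comp, Fintype.prod_prod_type, Fintype.prod_bool,
      ← Finset.prod_mul_distrib]
    refine Finset.prod_congr rfl fun ω _ => ?_
    change _ = cj (sg (Fin.cons true ω : Fin (s + 1) → Bool)) (f (y + vt (Fin.cons true ω : Fin (s + 1) → Bool) h)) *
      cj (sg (Fin.cons false ω : Fin (s + 1) → Bool)) (f (y + vt (Fin.cons false ω : Fin (s + 1) → Bool) h))
    rw [p0_sg_cons, p0_sg_cons, p0_vt_cons, p0_vt_cons]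
    simp only [if_true, Bool.false_eq_true, if_false, add_zero, zero_add]
    unfold DD
    rw [p0_cj_mul, p0_cj_conj, mul_comm]
    congr 3
    rw [add_assoc, add_comm (h 0)]

end Pool.Agent.HUK
end

-- from Lib.H44W.U1
section
/-!
CHUNK U1 (M). Replacement of g by a dual function (abstract kernel TF).
D(y) := sum_{x in [1,n]} f x * F(x+y) * W(x-y), so TF n F W f g = sum_{y in [1,n]} g y * D y. For y in [1,n]:
|D y| <= sum_{x in [1,n]} |F(x+y)| <= sum_{m in [1,2n]} |F m| <= ka n (x -> x + y injective into Icc 1 (2n)).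
g' y := conj(D y)/(ka n) if y in [1,n], else 0: |g'| <= 1. TF n F W f g' = sum_y |D y|^2/(ka n) (real and nonnegative).
Cauchy-Schwarz: (de n^2)^2 <= |sum g D|^2 <= n * sum |D|^2 (|g| <= 1, card (Icc 1 n) = n). Hence
|TF n F W f g'| >= de^2 n^4/(n * ka n) = (de^2/ka) n^2. By hypothesis hinv there is w, WL l w, with ph * n <= |sum g' w|.
conj w is again WL l (WL_conj: ep -> conj ep, th -> -th, ee_neg), and TF n F W f (conj w) = sum_y conj(w y) D y, whose norm is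
|sum_y w y * conj(D y)| = ka n |sum_y g' y * w y| >= ka ph n^2.
-/
namespace Pool.Agent.H44W
open Finset

/-- The dual function. -/
noncomputable def u1D (n : ℕ) (F W f : ℤ → ℂ) (y : ℤ) : ℂ := ∑ x ∈ Icc (1:ℤ) n, f x * F (x + y) * W (x - y)

theorem u1_TF (n : ℕ) (F W f g : ℤ → ℂ) : TF n F W f g = ∑ y ∈ Icc (1:ℤ) n, g y * u1D n F W f y := by
  rw [TF, Finset.sum_comm]
  refine Finset.sum_congr rfl fun y _ => ?_
  rw [u1D, Finset.mul_sum]
  exact Finset.sum_congr rfl fun x _ => by ring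

theorem u1_bd (n : ℕ) (F W f : ℤ → ℂ) (hW : ∀ x, ‖W x‖ ≤ 1) (hf : ∀ x, ‖f x‖ ≤ 1) (K : ℝ)
    (hF : ∑ m ∈ Icc (1:ℤ) (2 * n), ‖F m‖ ≤ K) (y : ℤ) (hy : y ∈ Icc (1:ℤ) n) : ‖u1D n F W f y‖ ≤ K := by
  have hy' := Finset.mem_Icc.1 hy
  calc ‖u1D n F W f y‖ ≤ ∑ x ∈ Icc (1:ℤ) n, ‖f x * F (x + y) * W (x - y)‖ := norm_sum_le _ _
    _ ≤ ∑ x ∈ Icc (1:ℤ) n, ‖F (x + y)‖ := by
        refine Finset.sum_le_sum fun x _ => ?_
        rw [norm_mul, norm_mul]
        calc ‖f x‖ * ‖F (x + y)‖ * ‖W (x - y)‖ ≤ 1 * ‖F (x + y)‖ * 1 := by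
              gcongr
              · exact hf x
              · exact hW _
          _ = ‖F (x + y)‖ := by ring
    _ = ∑ m ∈ (Icc (1:ℤ) n).image (fun x => x + y), ‖F m‖ := by
        rw [Finset.sum_image]
        intro a _ b _ h
        exact add_right_cancel h
    _ ≤ ∑ m ∈ Icc (1:ℤ) (2 * n), ‖F m‖ := by
        refine Finset.sum_le_sum_of_subset_of_nonneg ?_ fun _ _ _ => norm_nonneg _
        intro m hm
        obtain ⟨x, hx, rfl⟩ := Finset.mem_image.1 hm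
        have hx' := Finset.mem_Icc.1 hx
        exact Finset.mem_Icc.2 ⟨by omega, by omega⟩
    _ ≤ K := hF

theorem u1_sq (z : ℂ) : (starRingEnd ℂ) z * z = ((‖z‖ ^ 2 : ℝ) : ℂ) := by
  rw [mul_comm, Complex.mul_conj, Complex.normSq_eq_norm_sq]

theorem WL_conj (l : ℕ) (w : ℤ → ℂ) (h : WL l w) : WL l (fun y => (starRingEnd ℂ) (w y)) := by
  obtain ⟨r, ep, th, h1, h2⟩ := h
  refine ⟨r, fun k => (starRingEnd ℂ) (ep k), fun k => -th k, fun k => ?_, fun y => ?_⟩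
  · rw [Complex.norm_conj]
    exact h1 k
  · show (starRingEnd ℂ) (w y) = (starRingEnd ℂ) (ep ((y - r) / l)) * ee (-th ((y - r) / l) * y)
    rw [h2 y, map_mul, ← ee_neg, neg_mul]

theorem norm_WL (l : ℕ) (w : ℤ → ℂ) (h : WL l w) (y : ℤ) : ‖w y‖ ≤ 1 := by
  obtain ⟨r, ep, th, h1, h2⟩ := h
  rw [h2 y, norm_mul, norm_ee, mul_one]
  exact h1 _

theorem dual_step (n l : ℕ) (hn : 1 ≤ n) (F W f : ℤ → ℂ) (hW : ∀ x, ‖W x‖ ≤ 1)
    (hf : ∀ x, ‖f x‖ ≤ 1) (ka : ℝ) (hka : 0 < ka)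
    (hF : ∑ m ∈ Icc (1:ℤ) (2 * n), ‖F m‖ ≤ ka * n) (de ph : ℝ) (hde : 0 ≤ de)
    (hinv : ∀ g : ℤ → ℂ, (∀ x, ‖g x‖ ≤ 1) → de ^ 2 / ka * (n:ℝ) ^ 2 ≤ ‖TF n F W f g‖ →
      ∃ w : ℤ → ℂ, WL l w ∧ ph * n ≤ ‖∑ y ∈ Icc (1:ℤ) n, g y * w y‖)
    (g : ℤ → ℂ) (hg : ∀ x, ‖g x‖ ≤ 1) (hT : de * (n:ℝ) ^ 2 ≤ ‖TF n F W f g‖) :
    ∃ w : ℤ → ℂ, WL l w ∧ ka * ph * (n:ℝ) ^ 2 ≤ ‖TF n F W f w‖ := by
  have hn0 : (0:ℝ) < n := by exact_mod_cast hn
  have hK : 0 < ka * n := mul_pos hka hn0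
  set D : ℤ → ℂ := u1D n F W f with hD
  have hDb : ∀ y ∈ Icc (1:ℤ) n, ‖D y‖ ≤ ka * n := fun y hy => u1_bd n F W f hW hf _ hF y hy
  set S : ℝ := ∑ y ∈ Icc (1:ℤ) n, ‖D y‖ ^ 2 with hS
  have hS0 : 0 ≤ S := Finset.sum_nonneg fun _ _ => by positivity
  obtain ⟨g', hg'⟩ : ∃ g' : ℤ → ℂ, ∀ y, g' y = if y ∈ Icc (1:ℤ) n then (starRingEnd ℂ) (D y) / ((ka * n : ℝ) : ℂ) else 0 :=
    ⟨_, fun _ => rfl⟩
  have h1 : ∀ y, ‖g' y‖ ≤ 1 := by
    intro y
    rw [hg' y]
    split_ifs with hy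
    · rw [norm_div, Complex.norm_conj, Complex.norm_real, Real.norm_of_nonneg hK.le, div_le_one hK]
      exact hDb y hy
    · rw [norm_zero]
      exact zero_le_one
  have h2 : TF n F W f g' = ((S / (ka * n) : ℝ) : ℂ) := by
    rw [u1_TF, Complex.ofReal_div, hS, Complex.ofReal_sum, Finset.sum_div]
    refine Finset.sum_congr rfl fun y hy => ?_
    rw [hg' y, if_pos hy, ← hD, div_mul_eq_mul_div, u1_sq]
  have h3 : ‖TF n F W f g'‖ = S / (ka * n) := by
    rw [h2, Complex.norm_real, Real.norm_of_nonneg (div_nonneg hS0 hK.le)]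
  have h4 : (de * (n:ℝ) ^ 2) ^ 2 ≤ n * S := by
    have h5 : ‖TF n F W f g‖ ≤ ∑ y ∈ Icc (1:ℤ) n, ‖D y‖ := by
      rw [u1_TF]
      refine (norm_sum_le _ _).trans (Finset.sum_le_sum fun y _ => ?_)
      rw [norm_mul]
      exact mul_le_of_le_one_left (norm_nonneg _) (hg y)
    have h6 : (∑ y ∈ Icc (1:ℤ) n, ‖D y‖) ^ 2 ≤ ((Icc (1:ℤ) n).card : ℝ) * S := sq_sum_le_card_mul_sum_sq
    have h7 : ((Icc (1:ℤ) n).card : ℝ) = n := by
      rw [Int.card_Icc]
      simp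
    rw [h7] at h6
    exact (pow_le_pow_left₀ (by positivity) (hT.trans h5) 2).trans h6
  have h8 : de ^ 2 / ka * (n:ℝ) ^ 2 ≤ ‖TF n F W f g'‖ := by
    rw [h3, le_div_iff₀ hK]
    have h9 : de ^ 2 / ka * (n:ℝ) ^ 2 * (ka * n) = de ^ 2 * (n:ℝ) ^ 3 := by
      field_simp
    rw [h9]
    have h10 : (n:ℝ) * (de ^ 2 * (n:ℝ) ^ 3) ≤ n * S := by
      calc (n:ℝ) * (de ^ 2 * (n:ℝ) ^ 3) = (de * (n:ℝ) ^ 2) ^ 2 := by ring
        _ ≤ _ := h4
    exact le_of_mul_le_mul_left h10 hn0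
  obtain ⟨w, hw, h11⟩ := hinv g' h1 h8
  refine ⟨fun y => (starRingEnd ℂ) (w y), WL_conj l w hw, ?_⟩
  have h12 : TF n F W f (fun y => (starRingEnd ℂ) (w y)) =
      (starRingEnd ℂ) (((ka * n : ℝ) : ℂ) * ∑ y ∈ Icc (1:ℤ) n, g' y * w y) := by
    rw [u1_TF, map_mul, Complex.conj_ofReal, map_sum, Finset.mul_sum]
    refine Finset.sum_congr rfl fun y hy => ?_
    have h13 : ((ka * n : ℝ) : ℂ) ≠ 0 := Complex.ofReal_ne_zero.2 hK.ne'
    rw [hg' y, if_pos hy, map_mul, map_div₀, Complex.conj_conj, Complex.conj_ofReal, ← hD]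
    field_simp
  rw [h12, Complex.norm_conj, norm_mul, Complex.norm_real, Real.norm_of_nonneg hK.le]
  calc ka * ph * (n:ℝ) ^ 2 = (ka * n) * (ph * n) := by ring
    _ ≤ _ := mul_le_mul_of_nonneg_left h11 hK.le

end Pool.Agent.H44W
end

-- from Lib.H44W.V3
section
/-!
CHUNK V3 (M). First van der Corput step, shifts (2s, 2t), 0 <= s, t < L.
Apply vdc with S = bx A1 A1' A2 A2' (S = Ico x Ico by unfolding bx), S' = bx (A1 - 2L) A1' (A2 - 2L) A2', V = Icc (-n) n,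
J = range L x range L, ta (s,t) = (2s, 2t), Th = Th1 .. (zero off S by definition), w p v = W v.
B: sum over p in S', v in V of |W v|^2 <= card S' * (2n+1) <= (A1' - A1 + 2L)(A2' - A2 + 2L)(2n+1) <= (2 A1)(2 A2)(3n)
= 12 n A1 A2 (A1' <= 2 A1, 2L <= A1, 1 <= n; if A1' < A1 - 2L the box is empty and the bound is trivial: card of Ico is
toNat of the difference; use card <= 2 A1 and card <= 2 A2 for the two factors).
The double sum over J x J: for pairs (s,t),(s',t') with s = s' or t = t' (at most 2 L^3 pairs) use the trivial bound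
|Cor| <= card S * (2n+1) <= A1 A2 * 3n (norm_Th1_le, card S <= A1 A2); for the others ta i - ta j = (2(s-s'), 2(t-t')) with
0 < |s - s'| < L etc., so |Cor| <= M by hypothesis. Total <= 2 L^3 * 3 n A1 A2 + L^4 M. Divide by L^4 (card J = L^2).
-/
namespace Pool.Agent.H44W
open Finset

theorem norm_Th1_le (n q : ℕ) (S : Finset (ℤ × ℤ)) (f g : ℤ → ℂ) (hf : ∀ x, ‖f x‖ ≤ 1)
    (hg : ∀ x, ‖g x‖ ≤ 1) (p : ℤ × ℤ) (v : ℤ) : ‖Th1 n q S f g p v‖ ≤ 1 := by
  unfold Th1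
  split_ifs
  · rw [norm_mul]
    exact mul_le_one₀ (norm_cut n f hf _) (norm_nonneg _) (norm_cut n g hg _)
  · rw [norm_zero]
    exact zero_le_one

theorem v3_cor (n q : ℕ) (A1 A2 B1 B2 : ℕ) (hn : 1 ≤ n) (hB1 : B1 ≤ 2 * A1) (hB2 : B2 ≤ 2 * A2)
    (f g : ℤ → ℂ) (hf : ∀ x, ‖f x‖ ≤ 1) (hg : ∀ x, ‖g x‖ ≤ 1) (t : ℤ × ℤ) :
    ‖Cor (bx A1 B1 A2 B2) (Icc (-(n:ℤ)) n) (Th1 n q (bx A1 B1 A2 B2) f g) t‖ ≤ 3 * n * A1 * A2 := by
  unfold Cor
  refine (norm_sum_le _ _).trans ?_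
  have h1 : ∀ p ∈ bx (A1:ℤ) B1 A2 B2, ‖∑ v ∈ Icc (-(n:ℤ)) n,
      Th1 n q (bx A1 B1 A2 B2) f g (p + t) v *
        (starRingEnd ℂ) (Th1 n q (bx A1 B1 A2 B2) f g p v)‖ ≤ 3 * n := by
    intro p _
    refine (norm_sum_le _ _).trans ((Finset.sum_le_sum (g := fun _ => (1:ℝ)) fun v _ => ?_).trans ?_)
    · rw [norm_mul, RCLike.norm_conj]
      exact mul_le_one₀ (norm_Th1_le n q _ f g hf hg _ _) (norm_nonneg _)
        (norm_Th1_le n q _ f g hf hg _ _)
    · rw [Finset.sum_const, nsmul_eq_mul, mul_one]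
      have h2 : (Icc (-(n:ℤ)) n).card ≤ 3 * n := by
        rw [Int.card_Icc]
        omega
      exact_mod_cast h2
  refine (Finset.sum_le_sum h1).trans ?_
  rw [Finset.sum_const, nsmul_eq_mul]
  have hcard : ((bx (A1:ℤ) B1 A2 B2).card : ℝ) ≤ (A1:ℝ) * A2 := by
    have h3 : (bx (A1:ℤ) B1 A2 B2).card ≤ A1 * A2 := by
      unfold bx
      rw [Finset.card_product, Int.card_Ico, Int.card_Ico]
      exact Nat.mul_le_mul (by omega) (by omega)
    exact_mod_cast h3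
  calc ((bx (A1:ℤ) B1 A2 B2).card : ℝ) * (3 * n) ≤ (A1:ℝ) * A2 * (3 * n) :=
        mul_le_mul_of_nonneg_right hcard (by positivity)
    _ = 3 * n * A1 * A2 := by ring

theorem step1 (n q L A1 A2 B1 B2 : ℕ) (hn : 1 ≤ n) (hL : 1 ≤ L) (hA1 : 2 * L ≤ A1)
    (hA2 : 2 * L ≤ A2) (hB1 : B1 ≤ 2 * A1) (hB2 : B2 ≤ 2 * A2) (W f g : ℤ → ℂ)
    (hW : ∀ x, ‖W x‖ ≤ 1) (hf : ∀ x, ‖f x‖ ≤ 1) (hg : ∀ x, ‖g x‖ ≤ 1) (M : ℝ) (hM0 : 0 ≤ M)
    (hM : ∀ s t : ℤ, s ≠ 0 → t ≠ 0 → |s| < L → |t| < L →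
      ‖Cor (bx A1 B1 A2 B2) (Icc (-(n:ℤ)) n) (Th1 n q (bx A1 B1 A2 B2) f g) (2 * s, 2 * t)‖ ≤ M) :
    ‖TF n (pd q (Ico (A1:ℤ) B1) (Ico (A2:ℤ) B2)) W f g‖ ^ 2 ≤
      12 * n * A1 * A2 * (6 * n * A1 * A2 / L + M) := by
  classical
  have hLr : (0:ℝ) < L := by
    have : 0 < L := by omega
    exact_mod_cast this
  obtain ⟨S, hS⟩ : ∃ S, S = bx (A1:ℤ) B1 A2 B2 := ⟨_, rfl⟩
  obtain ⟨V, hV⟩ : ∃ V, V = Icc (-(n:ℤ)) n := ⟨_, rfl⟩
  have hTF : TF n (pd q (Ico (A1:ℤ) B1) (Ico (A2:ℤ) B2)) W f g =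
      ∑ p ∈ S, ∑ v ∈ V, W v * Th1 n q S f g p v := by
    rw [TF_pd, hS, hV]
    rfl
  rw [← hS, ← hV] at hM
  have hcor := v3_cor n q A1 A2 B1 B2 hn hB1 hB2 f g hf hg
  rw [← hS, ← hV] at hcor
  have hv := vdc S (bx ((A1:ℤ) - 2 * L) B1 ((A2:ℤ) - 2 * L) B2) V (range L ×ˢ range L)
    (fun i => (2 * (i.1 : ℤ), 2 * (i.2 : ℤ))) (Th1 n q S f g) (fun _ v => W v) ?_ ?_
    (fun _ _ _ _ => rfl) (12 * n * A1 * A2) ?_
  rotate_left
  · intro p v hp
    unfold Th1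
    rw [if_neg]
    exact fun h => hp h.1
  · intro p hp i hi
    rw [hS] at hp
    unfold bx at hp ⊢
    rw [Finset.mem_product, mem_Ico, mem_Ico] at hp ⊢
    rw [Finset.mem_product, mem_range, mem_range] at hi
    simp only [Prod.fst_sub, Prod.snd_sub]
    omega
  · have h1 : ∀ p ∈ bx ((A1:ℤ) - 2 * L) B1 ((A2:ℤ) - 2 * L) B2, ∑ v ∈ V, ‖W v‖ ^ 2 ≤ 3 * (n:ℝ) := by
      intro p _
      refine (Finset.sum_le_sum (g := fun _ => (1:ℝ)) fun v _ => ?_).trans ?_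
      · exact pow_le_one₀ (norm_nonneg _) (hW v)
      · rw [Finset.sum_const, nsmul_eq_mul, mul_one]
        have h2 : V.card ≤ 3 * n := by
          rw [hV, Int.card_Icc]
          omega
        exact_mod_cast h2
    refine (Finset.sum_le_sum h1).trans ?_
    rw [Finset.sum_const, nsmul_eq_mul]
    have hcard : ((bx ((A1:ℤ) - 2 * L) B1 ((A2:ℤ) - 2 * L) B2).card : ℝ) ≤ (2 * A1:ℝ) * (2 * A2) := by
      have h3 : (bx ((A1:ℤ) - 2 * L) B1 ((A2:ℤ) - 2 * L) B2).card ≤ (2 * A1) * (2 * A2) := by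
        unfold bx
        rw [Finset.card_product, Int.card_Ico, Int.card_Ico]
        exact Nat.mul_le_mul (by omega) (by omega)
      exact_mod_cast h3
    calc _ ≤ (2 * A1:ℝ) * (2 * A2) * (3 * n) :=
          mul_le_mul_of_nonneg_right hcard (by positivity)
      _ = 12 * n * A1 * A2 := by ring
  rw [← hTF, Finset.card_product, card_range] at hv
  -- the double sum
  obtain ⟨T, hT⟩ : ∃ T : ℝ, T = 3 * n * A1 * A2 := ⟨_, rfl⟩
  rw [← hT] at hcor
  have hT0 : 0 ≤ T := by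
    rw [hT]
    positivity
  let z : (ℕ × ℕ) → (ℕ × ℕ) → ℝ := fun i j =>
    ‖Cor S V (Th1 n q S f g) ((2 * (i.1 : ℤ), 2 * (i.2 : ℤ)) - (2 * (j.1 : ℤ), 2 * (j.2 : ℤ)))‖
  have hz1 : ∀ i ∈ range L ×ˢ range L, ∀ j ∈ range L ×ˢ range L,
      z i j ≤ (if i.1 = j.1 then T else 0) + (if i.2 = j.2 then T else 0) + M := by
    intro i hi j hj
    rw [Finset.mem_product, mem_range, mem_range] at hi hj
    have hz := hcor ((2 * (i.1 : ℤ), 2 * (i.2 : ℤ)) - (2 * (j.1 : ℤ), 2 * (j.2 : ℤ)))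
    by_cases h1 : i.1 = j.1
    · rw [if_pos h1]
      have : (0:ℝ) ≤ if i.2 = j.2 then T else 0 := by
        split_ifs
        · exact hT0
        · exact le_rfl
      simp only [z]
      linarith
    · by_cases h2 : i.2 = j.2
      · rw [if_neg h1, if_pos h2]
        simp only [z]
        linarith
      · rw [if_neg h1, if_neg h2]
        have e : ((2 * (i.1 : ℤ), 2 * (i.2 : ℤ)) - (2 * (j.1 : ℤ), 2 * (j.2 : ℤ)) : ℤ × ℤ) =
            (2 * ((i.1 : ℤ) - j.1), 2 * ((i.2 : ℤ) - j.2)) := by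
          ext
          · simp only [Prod.fst_sub]
            ring
          · simp only [Prod.snd_sub]
            ring
        have h3 := hM ((i.1 : ℤ) - j.1) ((i.2 : ℤ) - j.2) (by omega) (by omega)
          (by rw [abs_lt]; omega) (by rw [abs_lt]; omega)
        simp only [z]
        rw [e]
        linarith
  have hin : ∀ i ∈ range L ×ˢ range L, ∑ j ∈ range L ×ˢ range L, z i j ≤
      L * T + L * T + (L:ℝ) * L * M := by
    intro i hi
    refine (Finset.sum_le_sum fun j hj => hz1 i hi j hj).trans (le_of_eq ?_)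
    rw [Finset.mem_product, mem_range, mem_range] at hi
    rw [Finset.sum_add_distrib, Finset.sum_add_distrib]
    have s1 : ∑ j ∈ range L ×ˢ range L, (if i.1 = j.1 then T else 0) = L * T := by
      rw [Finset.sum_product]
      have : ∀ a ∈ range L, ∑ b ∈ range L, (if i.1 = (a, b).1 then T else 0) =
          if i.1 = a then L * T else 0 := by
        intro a _
        simp only
        split_ifs
        · rw [Finset.sum_const, card_range, nsmul_eq_mul]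
        · rw [Finset.sum_const_zero]
      rw [Finset.sum_congr rfl this, Finset.sum_ite_eq, if_pos (mem_range.2 hi.1)]
    have s2 : ∑ j ∈ range L ×ˢ range L, (if i.2 = j.2 then T else 0) = L * T := by
      rw [Finset.sum_product]
      have : ∀ a ∈ range L, ∑ b ∈ range L, (if i.2 = (a, b).2 then T else 0) = T := by
        intro a _
        simp only
        rw [Finset.sum_ite_eq, if_pos (mem_range.2 hi.2)]
      rw [Finset.sum_congr rfl this, Finset.sum_const, card_range, nsmul_eq_mul]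
    rw [s1, s2, Finset.sum_const, Finset.card_product, card_range, nsmul_eq_mul]
    push_cast
    ring
  have hdouble : ∑ i ∈ range L ×ˢ range L, ∑ j ∈ range L ×ˢ range L, z i j ≤
      (L:ℝ) * L * (L * T + L * T + (L:ℝ) * L * M) := by
    refine (Finset.sum_le_sum hin).trans (le_of_eq ?_)
    rw [Finset.sum_const, Finset.card_product, card_range, nsmul_eq_mul]
    push_cast
    ring
  have hB0 : (0:ℝ) ≤ 12 * n * A1 * A2 := by positivity
  have hv2 := hv.trans (mul_le_mul_of_nonneg_left hdouble hB0)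
  have hL4 : (0:ℝ) < (L:ℝ) ^ 4 := by positivity
  refine le_of_mul_le_mul_left ?_ hL4
  calc (L:ℝ) ^ 4 * ‖TF n (pd q (Ico (A1:ℤ) B1) (Ico (A2:ℤ) B2)) W f g‖ ^ 2
      = ((L * L : ℕ) : ℝ) ^ 2 * ‖TF n (pd q (Ico (A1:ℤ) B1) (Ico (A2:ℤ) B2)) W f g‖ ^ 2 := by
        push_cast
        ring
    _ ≤ 12 * n * A1 * A2 * ((L:ℝ) * L * (L * T + L * T + (L:ℝ) * L * M)) := hv2
    _ = (L:ℝ) ^ 4 * (12 * n * A1 * A2 * (6 * n * A1 * A2 / L + M)) := by
        rw [hT]
        field_simp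
        ring

end Pool.Agent.H44W
end

-- from Lib.H44W.V5
section
/-!
CHUNK V5 (M). Second van der Corput step, shifts h (s, -t), 0 <= h < H; the weight w2 is invariant.
S2 = S.filter (p + (2s,2t) in S), S = bx A1 B1 A2 B2. By cor1_eq (V4) with M = any integer >= n the correlation is
sum_{p in S2} sum_{x in V2} w2 p x * Th2 p x, V2 = Icc (-n) M.
sD q s t (p + (h s, -h t)) = sD q s t p (ring), so w2 is invariant. Apply vdc with J = range H, ta h = (h s, -(h t)),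
S' = bx (A1 - H L) (B1 + H L) (A2 - H L) (B2 + H L) (|h s| <= H L; the coordinates of p - ta h are in these intervals),
B = 9 n A1 A2: |w2 p x|^2 <= 1 if x in [1,n] and = 0 otherwise (norm_cut), so the sum is <= card S' * n <= (3 A1)(3 A2) n
because B1 - A1 + 2 H L <= A1 + 2 A1. The double sum: pairs h = h': H of them, |Cor S2 V2 Th2 0| <= n A1 A2
(for fixed p: |Th2 p x|^2 <= 1 and it vanishes unless q p1 p2 - x in [1,n], so at most n values of x; card S2 <= A1 A2);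
pairs h # h': ta h - ta h' = ((h-h') s, -((h-h') t)), hypothesis: <= M2. Total <= H n A1 A2 + H^2 M2. Divide by H^2.
-/
namespace Pool.Agent.H44W
open Finset

theorem v5_norm_cut {n : ℕ} {f : ℤ → ℂ} (hf : ∀ x, ‖f x‖ ≤ 1) (x : ℤ) : ‖cut n f x‖ ≤ 1 := by
  unfold cut
  split_ifs
  · exact hf x
  · rw [norm_zero]; exact zero_le_one

theorem v5_cut_zero {n : ℕ} {f : ℤ → ℂ} {x : ℤ} (hx : x ∉ Icc (1:ℤ) n) : cut n f x = 0 := by
  unfold cut
  rw [if_neg hx]

/-- A function bounded by 1, supported on [1,n] after a reflection: sum of squares over any interval. -/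
theorem v5_sum {n : ℕ} (V : Finset ℤ) (e : ℤ → ℤ) (he : Function.Injective e) (F : ℤ → ℝ) (hF : ∀ x, F x ≤ 1) (hF0 : ∀ x, 0 ≤ F x)
    (hz : ∀ x, e x ∉ Icc (1:ℤ) n → F x = 0) : ∑ x ∈ V, F x ≤ n := by
  classical
  have h1 : ∑ x ∈ V, F x = ∑ x ∈ V.filter (fun x => e x ∈ Icc (1:ℤ) n), F x := by
    rw [Finset.sum_filter]
    refine Finset.sum_congr rfl fun x _ => ?_
    split_ifs with h
    · rfl
    · exact hz x h
  rw [h1]
  calc ∑ x ∈ V.filter (fun x => e x ∈ Icc (1:ℤ) n), F x ≤ ∑ x ∈ V.filter (fun x => e x ∈ Icc (1:ℤ) n), (1 : ℝ) :=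
        Finset.sum_le_sum fun x _ => hF x
    _ = ((V.filter (fun x => e x ∈ Icc (1:ℤ) n)).card : ℝ) := by rw [Finset.sum_const, nsmul_eq_mul, mul_one]
    _ ≤ ((Icc (1:ℤ) n).card : ℝ) := by
        have : (V.filter (fun x => e x ∈ Icc (1:ℤ) n)).card ≤ (Icc (1:ℤ) n).card :=
          Finset.card_le_card_of_injOn e (fun x hx => (Finset.mem_filter.1 hx).2) (he.injOn)
        exact_mod_cast this
    _ = n := by rw [Int.card_Icc]; simp

theorem v5_card (a b : ℤ) (c : ℕ) (h : b - a ≤ c) : ((Ico a b).card : ℝ) ≤ c := by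
  rw [Int.card_Ico]
  have : (b - a).toNat ≤ c := by omega
  exact_mod_cast this

theorem step2 (n q L H A1 A2 B1 B2 : ℕ) (hn : 1 ≤ n) (hH : 1 ≤ H) (hA1 : H * L ≤ A1)
    (hA2 : H * L ≤ A2) (hB1 : B1 ≤ 2 * A1) (hB2 : B2 ≤ 2 * A2) (M : ℤ) (hM : (n:ℤ) ≤ M)
    (f g : ℤ → ℂ) (hf : ∀ x, ‖f x‖ ≤ 1) (hg : ∀ x, ‖g x‖ ≤ 1) (s t : ℤ) (hs : |s| < L)
    (ht : |t| < L) (M2 : ℝ) (hM20 : 0 ≤ M2)
    (hM2 : ∀ h : ℤ, h ≠ 0 → |h| < H →
      ‖Cor ((bx A1 B1 A2 B2).filter (fun p => p + (2 * s, 2 * t) ∈ bx A1 B1 A2 B2))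
        (Icc (-(n:ℤ)) M)
        (Th2 n q ((bx A1 B1 A2 B2).filter (fun p => p + (2 * s, 2 * t) ∈ bx A1 B1 A2 B2)) s t g)
        (h * s, -(h * t))‖ ≤ M2) :
    ‖Cor (bx A1 B1 A2 B2) (Icc (-(n:ℤ)) n) (Th1 n q (bx A1 B1 A2 B2) f g) (2 * s, 2 * t)‖ ^ 2 ≤
      9 * n * A1 * A2 * (n * A1 * A2 / H + M2) := by
  rw [cor1_eq n q M hM]
  set S2 := (bx A1 B1 A2 B2).filter (fun p => p + (2 * s, 2 * t) ∈ bx A1 B1 A2 B2) with hS2
  set V := Icc (-(n:ℤ)) M with hV
  have hsub : S2 ⊆ bx A1 B1 A2 B2 := Finset.filter_subset _ _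
  -- cardinality of S2
  have hcS : (S2.card : ℝ) ≤ A1 * A2 := by
    have h1 : (S2.card : ℝ) ≤ ((bx A1 B1 A2 B2).card : ℝ) := by exact_mod_cast Finset.card_le_card hsub
    refine h1.trans ?_
    unfold bx
    rw [Finset.card_product, Nat.cast_mul]
    exact mul_le_mul (v5_card _ _ _ (by omega)) (v5_card _ _ _ (by omega)) (by positivity) (by positivity)
  have hHL : (0:ℤ) ≤ (H:ℤ) * L := by positivity
  have hshift : ∀ i ∈ range H, ∀ u : ℤ, |u| < L → |(i:ℤ) * u| ≤ (H:ℤ) * L := by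
    intro i hi u hu
    rw [abs_mul, Nat.abs_cast]
    have h1 : (i:ℤ) ≤ H := by have := Finset.mem_range.1 hi; omega
    exact mul_le_mul h1 hu.le (abs_nonneg _) (by positivity)
  have hvdc := vdc S2 (bx ((A1:ℤ) - H * L) ((B1:ℤ) + H * L) ((A2:ℤ) - H * L) ((B2:ℤ) + H * L)) V (range H)
    (fun i => ((i:ℤ) * s, -((i:ℤ) * t))) (Th2 n q S2 s t g) (w2 n q s t f)
    (fun p v hp => by unfold Th2; rw [if_neg hp])
    (by
      intro p hp i hi
      have h1 := hsub hp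
      unfold bx at h1 ⊢
      rw [Finset.mem_product, Finset.mem_Ico, Finset.mem_Ico] at h1
      have h2 := abs_le.1 (hshift i hi s hs)
      have h3 := abs_le.1 (hshift i hi t ht)
      rw [Finset.mem_product, Finset.mem_Ico, Finset.mem_Ico]
      obtain ⟨⟨a1, a2⟩, a3, a4⟩ := h1
      obtain ⟨b1, b2⟩ := h2
      obtain ⟨c1, c2⟩ := h3
      change ((A1:ℤ) - H * L ≤ p.1 - (i:ℤ) * s ∧ p.1 - (i:ℤ) * s < (B1:ℤ) + H * L) ∧
        ((A2:ℤ) - H * L ≤ p.2 - (-((i:ℤ) * t)) ∧ p.2 - (-((i:ℤ) * t)) < (B2:ℤ) + H * L)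
      refine ⟨⟨?_, ?_⟩, ?_, ?_⟩ <;> linarith)
    (by
      intro p v i _
      have h1 : sD q s t (p + ((i:ℤ) * s, -((i:ℤ) * t))) = sD q s t p := by
        unfold sD
        change (q:ℤ) * ((p.1 + (i:ℤ) * s) * t + (p.2 + -((i:ℤ) * t)) * s + 2 * s * t) = _
        ring
      unfold w2
      rw [h1])
    (9 * n * A1 * A2)
    (by
      have h1 : ∀ p : ℤ × ℤ, ∑ v ∈ V, ‖w2 n q s t f p v‖ ^ 2 ≤ n := by
        intro p
        refine v5_sum V id Function.injective_id _ ?_ (fun _ => sq_nonneg _) ?_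
        · intro x
          unfold w2
          rw [norm_mul, RCLike.norm_conj]
          have := mul_le_one₀ (v5_norm_cut (n := n) hf (x + sD q s t p)) (norm_nonneg _) (v5_norm_cut (n := n) hf x)
          exact pow_le_one₀ (by positivity) this
        · intro x hx
          unfold w2
          rw [v5_cut_zero (f := f) (x := x) hx, map_zero, mul_zero, norm_zero]
          norm_num
      refine (Finset.sum_le_sum fun p _ => h1 p).trans ?_
      rw [Finset.sum_const, nsmul_eq_mul]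
      unfold bx
      rw [Finset.card_product, Nat.cast_mul]
      have hc1 : ((Ico ((A1:ℤ) - H * L) ((B1:ℤ) + H * L)).card : ℝ) ≤ (3 * A1 : ℕ) := by
        refine v5_card _ _ _ ?_
        have h2 : (H:ℤ) * L ≤ A1 := by exact_mod_cast hA1
        push_cast
        have h3 : (B1:ℤ) ≤ 2 * A1 := by exact_mod_cast hB1
        linarith
      have hc2 : ((Ico ((A2:ℤ) - H * L) ((B2:ℤ) + H * L)).card : ℝ) ≤ (3 * A2 : ℕ) := by
        refine v5_card _ _ _ ?_
        have h2 : (H:ℤ) * L ≤ A2 := by exact_mod_cast hA2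
        push_cast
        have h3 : (B2:ℤ) ≤ 2 * A2 := by exact_mod_cast hB2
        linarith
      have h4 := mul_le_mul hc1 hc2 (by positivity) (by positivity)
      push_cast at h4
      have h5 : (0:ℝ) ≤ n := by positivity
      nlinarith)
  rw [Finset.card_range] at hvdc
  -- double sum
  have hdiag : ‖Cor S2 V (Th2 n q S2 s t g) 0‖ ≤ n * A1 * A2 := by
    unfold Cor
    have h1 : ∀ p ∈ S2, ‖∑ v ∈ V, Th2 n q S2 s t g (p + 0) v * (starRingEnd ℂ) (Th2 n q S2 s t g p v)‖ ≤ n := by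
      intro p hp
      refine (norm_sum_le _ _).trans ?_
      refine v5_sum V (fun x => (q:ℤ) * p.1 * p.2 - x) (fun a b h => by
        have h' : (q:ℤ) * p.1 * p.2 - a = (q:ℤ) * p.1 * p.2 - b := h
        omega) _ ?_ (fun _ => norm_nonneg _) ?_
      · intro x
        rw [add_zero, norm_mul, RCLike.norm_conj]
        have h2 : ‖Th2 n q S2 s t g p x‖ ≤ 1 := by
          unfold Th2
          rw [if_pos hp, norm_mul, RCLike.norm_conj]
          exact mul_le_one₀ (v5_norm_cut hg _) (norm_nonneg _) (v5_norm_cut hg _)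
        exact mul_le_one₀ h2 (norm_nonneg _) h2
      · intro x hx
        have h2 : Th2 n q S2 s t g p x = 0 := by
          unfold Th2
          rw [if_pos hp, v5_cut_zero hx, map_zero, mul_zero]
        rw [h2, map_zero, mul_zero, norm_zero]
    refine (norm_sum_le _ _).trans ((Finset.sum_le_sum h1).trans ?_)
    rw [Finset.sum_const, nsmul_eq_mul]
    have h5 : (0:ℝ) ≤ n := by positivity
    nlinarith
  have hdouble : ∑ i ∈ range H, ∑ j ∈ range H, ‖Cor S2 V (Th2 n q S2 s t g)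
      (((i:ℤ) * s, -((i:ℤ) * t)) - ((j:ℤ) * s, -((j:ℤ) * t)))‖ ≤ H * (n * A1 * A2) + (H:ℝ) ^ 2 * M2 := by
    have h1 : ∀ i ∈ range H, ∑ j ∈ range H, ‖Cor S2 V (Th2 n q S2 s t g)
        (((i:ℤ) * s, -((i:ℤ) * t)) - ((j:ℤ) * s, -((j:ℤ) * t)))‖ ≤ n * A1 * A2 + H * M2 := by
      intro i hi
      have h2 : ∀ j ∈ range H, ‖Cor S2 V (Th2 n q S2 s t g)
          (((i:ℤ) * s, -((i:ℤ) * t)) - ((j:ℤ) * s, -((j:ℤ) * t)))‖ ≤ (if i = j then (n * A1 * A2 : ℝ) else 0) + M2 := by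
        intro j hj
        split_ifs with hij
        · rw [hij, sub_self]
          linarith
        · rw [zero_add]
          have h3 : (((i:ℤ) * s, -((i:ℤ) * t)) - ((j:ℤ) * s, -((j:ℤ) * t)) : ℤ × ℤ) =
              (((i:ℤ) - j) * s, -(((i:ℤ) - j) * t)) := by
            rw [Prod.mk_sub_mk]
            congr 1 <;> ring
          rw [h3]
          have hi' := Finset.mem_range.1 hi
          have hj' := Finset.mem_range.1 hj
          exact hM2 _ (by omega) (by rw [abs_lt]; constructor <;> omega)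
      refine (Finset.sum_le_sum h2).trans ?_
      rw [Finset.sum_add_distrib, Finset.sum_ite_eq, if_pos hi, Finset.sum_const, Finset.card_range, nsmul_eq_mul]
    refine (Finset.sum_le_sum h1).trans ?_
    rw [Finset.sum_const, Finset.card_range, nsmul_eq_mul]
    apply le_of_eq
    ring
  have hH0 : (0:ℝ) < H := by exact_mod_cast hH
  have hfin := hvdc.trans (mul_le_mul_of_nonneg_left hdouble (by positivity))
  have h9 : (H:ℝ) ^ 2 * ‖∑ p ∈ S2, ∑ v ∈ V, w2 n q s t f p v * Th2 n q S2 s t g p v‖ ^ 2 ≤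
      (H:ℝ) ^ 2 * (9 * n * A1 * A2 * (n * A1 * A2 / H + M2)) := by
    refine hfin.trans (le_of_eq ?_)
    field_simp
  exact le_of_mul_le_mul_left h9 (by positivity)

end Pool.Agent.H44W
end

-- from Lib.H44W.V8
section
/-!
CHUNK V8 (M). The fourfold correlations over a box are small if g has no correlation with window-linear functions.
Apply box_avg (V7) with ph p = CG n (cut n g) (sD q s t p) (sE q s t h p), |ph| <= n (n terms of norm <= 1: norm_cut).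
For p' = p + ((i+j) s, (j-i) t): sD q s t p' = sD q s t p + P j with P = 2 q s t, and sE q s t h p' = sE q s t h p + Q i with
Q = -(2 q h s t) (ring). P, Q are not 0 (q >= 1). |P| + |Q| = 2 q |s t| (1 + |h|) <= 2 q L^2 (1 + H), so
2 N (|P| + |Q|) <= 4 q L^2 (1+H) N <= l. CG_prog (E5): the inner double sum is <= N * (l * m). The box has at most A1 A2 points.
So N^2 |sum| <= N^2 * 4 n N L (A1 + A2) + A1 A2 * N l m; divide by N^2.
-/
namespace Pool.Agent.H44W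
open Finset

theorem cg_box (n q l N L H A1 A2 : ℕ) (hq : 1 ≤ q) (hN : 1 ≤ N)
    (hl : 4 * q * L ^ 2 * (1 + H) * N ≤ l) (a1 b1 a2 b2 : ℤ) (h1 : b1 - a1 ≤ A1)
    (h2 : b2 - a2 ≤ A2) (s t h : ℤ) (hs0 : s ≠ 0) (ht0 : t ≠ 0) (hh0 : h ≠ 0) (hs : |s| ≤ L)
    (ht : |t| ≤ L) (hh : |h| ≤ H) (g : ℤ → ℂ) (hg : ∀ x, ‖g x‖ ≤ 1) (m : ℝ)
    (hm : ∀ w : ℤ → ℂ, WL l w → ‖∑ y ∈ Icc (1:ℤ) n, g y * w y‖ ≤ m) :
    ‖∑ p ∈ bx a1 b1 a2 b2, CG n (cut n g) (sD q s t p) (sE q s t h p)‖ ≤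
      4 * n * N * L * (A1 + A2) + A1 * A2 * l * m / N := by
  have hN0 : 0 < N := by omega
  have hNr : (0:ℝ) < N := by exact_mod_cast hN0
  have hm0 : 0 ≤ m := by
    have h := hm (fun _ => 0) ⟨0, fun _ => 0, fun _ => 0, fun _ => by simp, fun y => by simp⟩
    exact (norm_nonneg _).trans h
  have hph : ∀ p : ℤ × ℤ, ‖CG n (cut n g) (sD q s t p) (sE q s t h p)‖ ≤ (n:ℝ) := by
    intro p
    unfold CG
    refine (norm_sum_le _ _).trans ?_
    have hc : ∀ x, ‖cut n g x‖ ≤ 1 := norm_cut n g hg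
    have h1 : ∀ y ∈ Icc (1:ℤ) n, ‖cut n g y * (starRingEnd ℂ) (cut n g (y + sD q s t p)) *
        (starRingEnd ℂ) (cut n g (y + sE q s t h p)) *
        cut n g (y + sD q s t p + sE q s t h p)‖ ≤ 1 := by
      intro y _
      rw [norm_mul, norm_mul, norm_mul, RCLike.norm_conj, RCLike.norm_conj]
      exact mul_le_one₀ (mul_le_one₀ (mul_le_one₀ (hc _) (norm_nonneg _) (hc _)) (norm_nonneg _) (hc _))
        (norm_nonneg _) (hc _)
    refine (Finset.sum_le_sum h1).trans ?_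
    rw [Finset.sum_const, Int.card_Icc]
    simp
  have hbox := box_avg a1 b1 a2 b2 A1 A2 h1 h2 (n:ℝ) (Nat.cast_nonneg n)
    (fun p => CG n (cut n g) (sD q s t p) (sE q s t h p)) hph N L hN s t hs ht
  have hq0 : (q:ℤ) ≠ 0 := by
    have : q ≠ 0 := by omega
    exact_mod_cast this
  have hP : 2 * (q:ℤ) * s * t ≠ 0 := mul_ne_zero (mul_ne_zero (mul_ne_zero two_ne_zero hq0) hs0) ht0
  have hQ : -(2 * (q:ℤ) * h * s * t) ≠ 0 :=
    neg_ne_zero.2 (mul_ne_zero (mul_ne_zero (mul_ne_zero (mul_ne_zero two_ne_zero hq0) hh0) hs0) ht0)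
  have hl' : 2 * ((N:ℤ) * (|2 * (q:ℤ) * s * t| + |-(2 * (q:ℤ) * h * s * t)|)) ≤ (l:ℤ) := by
    have e1 : |2 * (q:ℤ) * s * t| = 2 * q * (|s| * |t|) := by
      rw [abs_mul, abs_mul, abs_mul, abs_two, Nat.abs_cast]
      ring
    have e2 : |-(2 * (q:ℤ) * h * s * t)| = 2 * q * (|h| * (|s| * |t|)) := by
      rw [abs_neg, abs_mul, abs_mul, abs_mul, abs_mul, abs_two, Nat.abs_cast]
      ring
    have hst : |s| * |t| ≤ (L:ℤ) * L := mul_le_mul hs ht (abs_nonneg _) (by positivity)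
    have hhst : |h| * (|s| * |t|) ≤ (H:ℤ) * ((L:ℤ) * L) :=
      mul_le_mul hh hst (by positivity) (by positivity)
    have hlz : 4 * (q:ℤ) * (L:ℤ) ^ 2 * (1 + (H:ℤ)) * N ≤ l := by exact_mod_cast hl
    rw [e1, e2]
    calc 2 * ((N:ℤ) * (2 * q * (|s| * |t|) + 2 * q * (|h| * (|s| * |t|))))
        ≤ 2 * ((N:ℤ) * (2 * q * ((L:ℤ) * L) + 2 * q * ((H:ℤ) * ((L:ℤ) * L)))) := by
          gcongr
      _ = 4 * (q:ℤ) * (L:ℤ) ^ 2 * (1 + (H:ℤ)) * N := by ring
      _ ≤ l := hlz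
  have hin : ∀ p ∈ bx a1 b1 a2 b2, ‖∑ i ∈ range N, ∑ j ∈ range N,
      CG n (cut n g) (sD q s t (p + (((i:ℤ) + j) * s, ((j:ℤ) - i) * t)))
        (sE q s t h (p + (((i:ℤ) + j) * s, ((j:ℤ) - i) * t)))‖ ≤ (N:ℝ) * (l * m) := by
    intro p _
    have e : ∀ i j : ℕ, CG n (cut n g) (sD q s t (p + (((i:ℤ) + j) * s, ((j:ℤ) - i) * t)))
        (sE q s t h (p + (((i:ℤ) + j) * s, ((j:ℤ) - i) * t))) =
        CG n (cut n g) (sD q s t p + (2 * (q:ℤ) * s * t) * j)
          (sE q s t h p + (-(2 * (q:ℤ) * h * s * t)) * i) := by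
      intro i j
      have a1 : sD q s t (p + (((i:ℤ) + j) * s, ((j:ℤ) - i) * t)) =
          sD q s t p + (2 * (q:ℤ) * s * t) * j := by
        unfold sD
        simp only [Prod.fst_add, Prod.snd_add]
        ring
      have a2 : sE q s t h (p + (((i:ℤ) + j) * s, ((j:ℤ) - i) * t)) =
          sE q s t h p + (-(2 * (q:ℤ) * h * s * t)) * i := by
        unfold sE
        simp only [Prod.fst_add, Prod.snd_add]
        ring
      rw [a1, a2]
    rw [Finset.sum_congr rfl (fun i _ => Finset.sum_congr rfl (fun j _ => e i j))]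
    exact CG_prog l n N hN0 _ _ hP hQ hl' g hg m hm _ _
  have hcard : ((bx a1 b1 a2 b2).card : ℝ) ≤ (A1:ℝ) * A2 := by
    have h3 : (bx a1 b1 a2 b2).card ≤ A1 * A2 := by
      unfold bx
      rw [Finset.card_product, Int.card_Ico, Int.card_Ico]
      exact Nat.mul_le_mul (by omega) (by omega)
    exact_mod_cast h3
  have hsum := Finset.sum_le_sum hin
  rw [Finset.sum_const, nsmul_eq_mul] at hsum
  have hlm : (0:ℝ) ≤ (N:ℝ) * (l * m) := by positivity
  have hsum2 := hsum.trans (mul_le_mul_of_nonneg_right hcard hlm)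
  have hN2 : (0:ℝ) < (N:ℝ) ^ 2 := by positivity
  refine le_of_mul_le_mul_left ?_ hN2
  refine hbox.trans ?_
  calc _ ≤ (N:ℝ) ^ 2 * (n * (4 * N * L * (A1 + A2))) + (A1:ℝ) * A2 * ((N:ℝ) * (l * m)) := by
        exact add_le_add le_rfl hsum2
    _ = (N:ℝ) ^ 2 * (4 * n * N * L * (A1 + A2) + A1 * A2 * l * m / N) := by
        field_simp

end Pool.Agent.H44W
end

-- from Lib.H44W.D1
section
/-!
CHUNK D1 (S/M). The two steps and the box sum put together (no parameters chosen yet).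
Let S = bx A1 B1 A2 B2 and C(s,t) = the first correlation. step1 (V3) with M := the bound M1, where for all nonzero s, t with
|s|,|t| < L: step2 (V5; take M = max n (q B1 B2)) gives |C(s,t)|^2 <= 9 n A1 A2 (n A1 A2 / H + M2), M2 := 4 n N L (A1+A2) +
A1 A2 l m / N, because by cor2_eq (V6) the second correlation is a sum of CG over a box with sides <= A1, A2
(b1 - a1 <= B1 - A1 <= A1), bounded by M2 by cg_box (V8) (|s| < L gives |s| <= L, |h| < H gives |h| <= H).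
So |C(s,t)| <= sqrt(9 n A1 A2 (n A1 A2/H + M2)) =: M1 (m >= 0 is needed for nothing, but M2 >= 0: m >= 0 since hm with w = 0,
WL l 0 holds with ep = 0). Conclusion: step1.
-/
namespace Pool.Agent.H44W
open Finset

theorem two_steps (n q l N L H A1 A2 B1 B2 : ℕ) (hn : 1 ≤ n) (hq : 1 ≤ q) (hN : 1 ≤ N)
    (hL : 1 ≤ L) (hH : 1 ≤ H) (hl : 4 * q * L ^ 2 * (1 + H) * N ≤ l) (h2L1 : 2 * L ≤ A1)
    (h2L2 : 2 * L ≤ A2) (hHL1 : H * L ≤ A1) (hHL2 : H * L ≤ A2) (hB1 : B1 ≤ 2 * A1)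
    (hB2 : B2 ≤ 2 * A2) (W f g : ℤ → ℂ) (hW : ∀ x, ‖W x‖ ≤ 1) (hf : ∀ x, ‖f x‖ ≤ 1)
    (hg : ∀ x, ‖g x‖ ≤ 1) (m : ℝ)
    (hm : ∀ w : ℤ → ℂ, WL l w → ‖∑ y ∈ Icc (1:ℤ) n, g y * w y‖ ≤ m) :
    ‖TF n (pd q (Ico (A1:ℤ) B1) (Ico (A2:ℤ) B2)) W f g‖ ^ 2 ≤
      12 * n * A1 * A2 * (6 * n * A1 * A2 / L + Real.sqrt (9 * n * A1 * A2 *
        (n * A1 * A2 / H + (4 * n * N * L * (A1 + A2) + A1 * A2 * l * m / N)))) := by
  have hWL0 : WL l (fun _ => (0 : ℂ)) :=
    ⟨0, fun _ => 0, fun _ => 0, fun j => by rw [norm_zero]; exact zero_le_one, fun y => by rw [zero_mul]⟩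
  have hm0 : 0 ≤ m := (norm_nonneg _).trans (hm _ hWL0)
  have hM20 : 0 ≤ 4 * (n : ℝ) * N * L * (A1 + A2) + A1 * A2 * l * m / N := by positivity
  refine step1 n q L A1 A2 B1 B2 hn hL h2L1 h2L2 hB1 hB2 W f g hW hf hg _ (Real.sqrt_nonneg _) ?_
  intro s t hs ht hsL htL
  refine Real.le_sqrt_of_sq_le ?_
  refine step2 n q L H A1 A2 B1 B2 hn hH hHL1 hHL2 hB1 hB2 (max (n : ℤ) ((q : ℤ) * B1 * B2)) (le_max_left _ _) f g hf hg
    s t hsL htL _ hM20 ?_
  intro h hh0 hhH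
  obtain ⟨a1, b1, a2, b2, ha1, hb1, ha2, hb2, e⟩ := cor2_eq n q A1 A2 B1 B2 _ (le_max_right (n : ℤ) _) g s t h
  rw [e]
  exact cg_box n q l N L H A1 A2 hq hN hl a1 b1 a2 b2 (by omega) (by omega) s t h hs ht hh0 hsL.le htL.le hhH.le g hg m hm

end Pool.Agent.H44W
end
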