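import Mathlib
import Pool.Agent.Lib.H59M.M1.M010
import Pool.Agent.Lib.H59M.M1.M011
import Pool.Agent.Lib.H59M.M1.M012
import Pool.Agent.Lib.H59M.M1.M013
import Pool.Agent.Lib.H59M.M1.M014

/-! Merged copies (to shorten the build) of Lib.H18E.CM, Lib.H18Q.CDefs, Lib.H18Q.CA, Lib.H18Q.R2A, Lib.H51D.DHF, Lib.H18Q.E1, Lib.H51D.DHC, Lib.H18Q.E2. -/

-- from Lib.H18E.CM
section

/-!
# Chunk CM: many classes on which the exceptional character is `-1` twice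
-/

open Finset

namespace Pool.Agent.Lib.H18E


theorem CM_ex (r : ℕ) [NeZero r] (ψ : DirichletCharacter ℂ r) (hψ : ψ.IsPrimitive)
    (m : ℕ) (hm : m ∣ r) (hlt : m < r) :
    ∃ u : (ZMod r)ˣ, ZMod.unitsMap hm u = 1 ∧ ψ (u : ZMod r) ≠ 1 := by
  by_contra hcon
  push Not at hcon
  have hm0 : 0 < m := Nat.pos_of_dvd_of_pos hm (NeZero.pos r)
  have hf : DirichletCharacter.FactorsThrough ψ m := by
    rw [DirichletCharacter.factorsThrough_iff_ker_unitsMap hm]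
    intro u hu
    rw [MonoidHom.mem_ker] at hu ⊢
    apply Units.ext
    simpa using hcon u hu
  have h7 : ψ.conductor ≤ m :=
    Nat.le_of_dvd hm0 (DirichletCharacter.conductor_dvd_of_mem_conductorSet _ hf)
  rw [(DirichletCharacter.isPrimitive_def ψ).1 hψ] at h7
  omega



end Pool.Agent.Lib.H18E
end

-- from Lib.H18Q.CDefs
section

/-!
# Project H18Q: definitions for module C (correlations of components)
-/

open Finset

namespace Pool.Agent.Lib.H18Q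

open Pool.Agent.Lib.H68T

noncomputable section

/-- The component of modulus `p.1 k` of `Gam Q p.1 m conj χ(m)`:
`(r/φ(r)) conj χ(m) μ(k) c_k(m)/φ(k)`, `r = p.1`. -/
def gk (p : Σ r : ℕ, DirichletCharacter ℂ r) (k : ℕ) (m : ℤ) : ℂ :=
  (((p.1 : ℝ) / (Nat.totient p.1 : ℝ) : ℝ) : ℂ) * (starRingEnd ℂ) (p.2 (m : ZMod p.1)) *
    (((ArithmeticFunction.moebius k : ℝ) / (Nat.totient k : ℝ) * cq k m : ℝ) : ℂ)

/-- The squarefree `k ≤ Q/r` coprime to `r`. -/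
def KS (Q r : ℕ) : Finset ℕ :=
  open Classical in (Icc 1 (Q / r)).filter (fun k => Squarefree k ∧ Nat.Coprime k r)



/-- The full sum `∑_p Gam_p(m) conj χ_p(m) b_p`. -/
def SG (Q : ℕ) (b : (Σ r : ℕ, DirichletCharacter ℂ r) → ℂ) (m : ℤ) : ℂ :=
  ∑ p ∈ PC Q, (Gam Q p.1 m : ℂ) * (starRingEnd ℂ) (p.2 (m : ZMod p.1)) * b p


end

end Pool.Agent.Lib.H18Q
end

-- from Lib.H18Q.CA
section

/-!
# Project H18Q, chunk CA: the components of the projection
-/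

open Finset

namespace Pool.Agent.Lib.H18Q

open Pool.Agent.Lib.H68T

theorem CA_chi_zero (r : ℕ) (χ : DirichletCharacter ℂ r) (m : ℤ) (h : ¬ IsCoprime (r : ℤ) m) :
    χ (m : ZMod r) = 0 := by
  apply MulChar.map_nonunit
  rw [ZMod.coe_int_isUnit_iff_isCoprime]
  exact h

theorem CA_sum_icc (Q r : ℕ) (hr : 1 ≤ r) (m : ℤ) (hrm : IsCoprime (r : ℤ) m) :
    Gam Q r m = (r : ℝ) / Nat.totient r * ∑ q ∈ Icc 1 (Q / r), GAM_F r m q := by
  have himg : (Icc 1 Q).filter (fun q => r ∣ q) = (Icc 1 (Q / r)).image (fun q => r * q) := by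
    ext q
    simp only [mem_filter, mem_Icc, mem_image]
    constructor
    · rintro ⟨⟨h1, h2⟩, ⟨e, rfl⟩⟩
      refine ⟨e, ⟨?_, ?_⟩, rfl⟩
      · rcases Nat.eq_zero_or_pos e with rfl | h
        · simp at h1
        · exact h
      · rw [Nat.le_div_iff_mul_le (by omega), mul_comm]
        exact h2
    · rintro ⟨e, ⟨h1, h2⟩, rfl⟩
      refine ⟨⟨Nat.mul_pos (by omega) (by omega), ?_⟩, Dvd.intro _ rfl⟩
      rw [Nat.le_div_iff_mul_le (by omega), mul_comm] at h2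
      exact h2
  unfold Gam
  rw [himg, Finset.sum_image (fun a _ b _ h => Nat.eq_of_mul_eq_mul_left (by omega) h),
    Finset.mul_sum]
  refine Finset.sum_congr rfl (fun q hq => ?_)
  rw [mem_Icc] at hq
  exact GAM_inner r m (by omega) hrm q (by omega)

theorem CA_F_zero (r : ℕ) (m : ℤ) (hrm : IsCoprime (r : ℤ) m) (q : ℕ) (hq : q ≠ 0)
    (h : ¬ (Squarefree q ∧ Nat.Coprime q r)) : GAM_F r m q = 0 := by
  by_cases hs : Squarefree q
  · have hc : ¬ Nat.Coprime q r := fun h' => h ⟨hs, h'⟩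
    obtain ⟨l, hl, hlq, hlr⟩ := Nat.Prime.not_coprime_iff_dvd.1 hc
    rw [← (GAM_F_mult r m).prod_primeFactors hs]
    refine Finset.prod_eq_zero (Nat.mem_primeFactors.2 ⟨hl, hlq, hq⟩) ?_
    rw [GAM_F_prime r m l hl, if_neg, if_pos hlr]
    intro hlm
    have h1 : IsCoprime (l : ℤ) m := by
      obtain ⟨c, rfl⟩ := hlr
      rw [Nat.cast_mul, IsCoprime.mul_left_iff] at hrm
      exact hrm.1
    exact (Nat.prime_iff_prime_int.mp hl).not_unit (h1.isUnit_of_dvd' dvd_rfl hlm)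
  · have h1 := GAM_F_abs r m q hq
    rw [if_neg hs, abs_nonpos_iff] at h1
    exact h1

theorem CA_F_one (m : ℤ) (k : ℕ) : GAM_F 1 m k =
    (ArithmeticFunction.moebius k : ℝ) / (Nat.totient k : ℝ) * cq k m := by
  rw [GAM_identity, ArithmeticFunction.pdiv_apply, ArithmeticFunction.pmul_apply, GAM_c_apply,
    ArithmeticFunction.intCoe_apply]
  change _ / ((Nat.totient k : ℕ) : ℝ) = _
  ring

theorem CA_F_eq (r : ℕ) (m : ℤ) (k : ℕ) (hs : Squarefree k) (hc : Nat.Coprime k r) :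
    GAM_F r m k = GAM_F 1 m k := by
  rw [← (GAM_F_mult r m).prod_primeFactors hs, ← (GAM_F_mult 1 m).prod_primeFactors hs]
  refine Finset.prod_congr rfl fun l hl => ?_
  have hl' := Nat.mem_primeFactors.1 hl
  rw [GAM_F_prime r m l hl'.1, GAM_F_prime 1 m l hl'.1]
  have h1 : ¬ l ∣ r := fun h => hl'.1.one_lt.ne' (Nat.dvd_one.1 (hc ▸ Nat.dvd_gcd hl'.2.1 h))
  have h2 : ¬ l ∣ 1 := fun h => hl'.1.one_lt.ne' (Nat.dvd_one.1 h)
  rw [if_neg h1, if_neg h2]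

theorem CA_mem_KS {Q r k : ℕ} : k ∈ KS Q r ↔ (1 ≤ k ∧ k ≤ Q / r) ∧ Squarefree k ∧ Nat.Coprime k r := by
  classical
  unfold KS
  rw [mem_filter, mem_Icc]

theorem CA_F_abs (m : ℤ) (k : ℕ) (hs : Squarefree k) : |GAM_F 1 m k| =
    ∏ l ∈ k.primeFactors, (if (l : ℤ) ∣ m then 1 else 1 / ((l : ℝ) - 1)) := by
  rw [← (GAM_F_mult 1 m).prod_primeFactors hs, Finset.abs_prod]
  refine Finset.prod_congr rfl fun l hl => ?_
  have hl' := Nat.mem_primeFactors.1 hl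
  have h2 : ¬ l ∣ 1 := fun h => hl'.1.one_lt.ne' (Nat.dvd_one.1 h)
  have h3 : (2 : ℝ) ≤ l := by exact_mod_cast hl'.1.two_le
  rw [GAM_F_prime 1 m l hl'.1, if_neg h2]
  split_ifs
  · simp
  · rw [abs_of_nonneg]
    exact div_nonneg zero_le_one (by linarith)

theorem CA_norm (p : Σ r : ℕ, DirichletCharacter ℂ r) (k : ℕ) (m : ℤ) :
    ‖gk p k m‖ = (p.1 : ℝ) / (Nat.totient p.1 : ℝ) * ‖p.2 (m : ZMod p.1)‖ * |GAM_F 1 m k| := by
  unfold gk
  rw [norm_mul, norm_mul, RCLike.norm_conj, Complex.norm_real, Complex.norm_real, Real.norm_eq_abs,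
    Real.norm_eq_abs, ← CA_F_one, abs_of_nonneg (by positivity : (0 : ℝ) ≤ (p.1 : ℝ) / (Nat.totient p.1 : ℝ))]

theorem CA_cq_congr (k : ℕ) (a b : ℤ) (h : (k : ℤ) ∣ a - b) : cq k a = cq k b := by
  unfold cq
  refine Finset.sum_congr ?_ fun _ _ => rfl
  refine Finset.filter_congr fun d hd => ?_
  have h1 : (d : ℤ) ∣ a - b := (Int.natCast_dvd_natCast.2 (Nat.dvd_of_mem_divisors hd)).trans h
  exact (dvd_iff_dvd_of_dvd_sub h1)

theorem CA_cq_mul (a b : ℕ) (n : ℤ) (h : Nat.Coprime a b) : cq (a * b) n = cq a n * cq b n := by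
  rw [← GAM_c_apply, ← GAM_c_apply, ← GAM_c_apply]
  exact (GAM_c_mult n).2 h

theorem CA_cq_prime (l : ℕ) (hl : l.Prime) (n : ℤ) : cq l n = -1 + if (l : ℤ) ∣ n then (l : ℝ) else 0 := by
  unfold cq
  rw [Finset.sum_filter, hl.divisors, Finset.sum_pair hl.one_lt.ne, Nat.div_one,
    Nat.div_self hl.pos, ArithmeticFunction.moebius_apply_one,
    ArithmeticFunction.moebius_apply_prime hl]
  simp

theorem CA_range (l : ℕ) [NeZero l] (g : ZMod l → ℂ) : ∑ j ∈ range l, g (j : ZMod l) = ∑ z, g z := by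
  refine Finset.sum_bij' (fun (j : ℕ) _ => (j : ZMod l)) (fun (z : ZMod l) _ => z.val)
    (fun _ _ => mem_univ _) (fun z _ => mem_range.2 (ZMod.val_lt z)) (fun j hj => ?_)
    (fun z _ => ZMod.natCast_zmod_val z) (fun _ _ => rfl)
  rw [ZMod.val_natCast, Nat.mod_eq_of_lt (mem_range.1 hj)]

theorem CA_shift (l : ℕ) [NeZero l] (f : ℤ → ℂ) (hf : ∀ a b : ℤ, (a : ZMod l) = b → f a = f b)
    (a b : ℤ) (ha : IsUnit (a : ZMod l)) : ∑ j ∈ range l, f (a * j + b) = ∑ j ∈ range l, f j := by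
  obtain ⟨F, hF⟩ : ∃ F : ZMod l → ℂ, ∀ n : ℤ, f n = F (n : ZMod l) := by
    refine ⟨fun z => f (z.val : ℤ), fun n => hf _ _ ?_⟩
    simp
  have h1 : ∑ j ∈ range l, f (a * j + b) = ∑ z : ZMod l, F ((a : ZMod l) * z + b) := by
    rw [← CA_range l fun z => F ((a : ZMod l) * z + b)]
    refine Finset.sum_congr rfl fun j _ => ?_
    rw [hF]
    push_cast
    rfl
  have h2 : ∑ j ∈ range l, f j = ∑ z : ZMod l, F z := by
    rw [← CA_range l F]
    refine Finset.sum_congr rfl fun j _ => ?_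
    rw [hF]
    push_cast
    rfl
  rw [h1, h2]
  have hbij : Function.Bijective fun z : ZMod l => (a : ZMod l) * z + b := by
    rw [← Finite.injective_iff_bijective]
    intro x y hxy
    exact ha.mul_left_cancel (add_right_cancel hxy)
  exact hbij.sum_comp F

/-- Expansion into components. Proof: if `(m, r) ≠ 1`, `r = p.1`, then `χ(m) = 0` and both sides
vanish. Otherwise `Gam Q r m = ∑_{q ≤ Q, r ∣ q} (...)`, `q = r k`, `k ≤ Q/r`, and the inner sum is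
`(r/φ(r)) GAM_F r m k` (`GAM_inner` in `H68T/GAM1`). `GAM_F r m` is multiplicative, `0` at squares of
primes and beyond (`GAM_F_prime_pow`), and at a prime `l` it is `-1` if `l ∣ m`, `0` if `l ∣ r` (then
`l ∤ m`), else `1/(l-1)` (`GAM_F_prime`). So it vanishes unless `k` is squarefree and coprime to
`r`, and then equals `GAM_F 1 m k = μ(k) c_k(m)/φ(k)` (`GAM_identity`; compare prime by prime). -/
theorem gam_expand (Q : ℕ) (p : Σ r : ℕ, DirichletCharacter ℂ r) (hp : p ∈ PC Q) (m : ℤ) :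
    (Gam Q p.1 m : ℂ) * (starRingEnd ℂ) (p.2 (m : ZMod p.1)) = ∑ k ∈ KS Q p.1, gk p k m := by
  obtain ⟨hr1, hrQ, hprim⟩ := mem_PC.1 hp
  by_cases hrm : IsCoprime (p.1 : ℤ) m
  · rw [CA_sum_icc Q p.1 hr1 m hrm]
    have h1 : ∑ q ∈ Icc 1 (Q / p.1), GAM_F p.1 m q = ∑ k ∈ KS Q p.1, GAM_F 1 m k := by
      rw [← Finset.sum_subset (s₁ := KS Q p.1)]
      · refine Finset.sum_congr rfl fun k hk => ?_
        obtain ⟨-, h2, h3⟩ := CA_mem_KS.1 hk
        exact CA_F_eq p.1 m k h2 h3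
      · intro k hk
        exact mem_Icc.2 (CA_mem_KS.1 hk).1
      · intro k hk hk'
        refine CA_F_zero p.1 m hrm k ?_ fun h => hk' (CA_mem_KS.2 ⟨mem_Icc.1 hk, h⟩)
        have := (mem_Icc.1 hk).1
        omega
    rw [h1]
    push_cast
    rw [Finset.mul_sum, Finset.sum_mul]
    refine Finset.sum_congr rfl fun k _ => ?_
    unfold gk
    rw [CA_F_one]
    push_cast
    ring
  · have h0 := CA_chi_zero p.1 p.2 m hrm
    rw [h0, map_zero, mul_zero]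
    symm
    refine Finset.sum_eq_zero fun k _ => ?_
    unfold gk
    rw [h0, map_zero, mul_zero, zero_mul]


/-- `|gk| ≤ Q`: `r/φ(r) ≤ r ≤ Q` and the other factors are at most `1`. -/
theorem gk_bound (Q : ℕ) (p : Σ r : ℕ, DirichletCharacter ℂ r) (hp : p ∈ PC Q) (k : ℕ)
    (hk : k ∈ KS Q p.1) (m : ℤ) : ‖gk p k m‖ ≤ Q := by
  obtain ⟨hr1, hrQ, hprim⟩ := mem_PC.1 hp
  obtain ⟨-, hs, -⟩ := CA_mem_KS.1 hk
  rw [CA_norm, CA_F_abs m k hs]
  have h1 : ∏ l ∈ k.primeFactors, (if (l : ℤ) ∣ m then 1 else 1 / ((l : ℝ) - 1)) ≤ 1 := by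
    refine Finset.prod_le_one (fun l hl => ?_) (fun l hl => ?_)
    · have hl' := Nat.mem_primeFactors.1 hl
      have h3 : (2 : ℝ) ≤ l := by exact_mod_cast hl'.1.two_le
      split_ifs
      · exact zero_le_one
      · exact div_nonneg zero_le_one (by linarith)
    · have hl' := Nat.mem_primeFactors.1 hl
      have h3 : (2 : ℝ) ≤ l := by exact_mod_cast hl'.1.two_le
      split_ifs
      · exact le_rfl
      · rw [div_le_one (by linarith)]
        linarith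
  have h0 : 0 ≤ ∏ l ∈ k.primeFactors, (if (l : ℤ) ∣ m then 1 else 1 / ((l : ℝ) - 1)) := by
    refine Finset.prod_nonneg fun l hl => ?_
    have hl' := Nat.mem_primeFactors.1 hl
    have h3 : (2 : ℝ) ≤ l := by exact_mod_cast hl'.1.two_le
    split_ifs
    · exact zero_le_one
    · exact div_nonneg zero_le_one (by linarith)
  have h2 : (p.1 : ℝ) / (Nat.totient p.1 : ℝ) ≤ Q := by
    have h4 : (1 : ℝ) ≤ (Nat.totient p.1 : ℝ) := by
      exact_mod_cast Nat.totient_pos.2 (by omega)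
    refine (div_le_self (by positivity) h4).trans ?_
    exact_mod_cast hrQ
  have h5 := DirichletCharacter.norm_le_one p.2 (m : ZMod p.1)
  calc (p.1 : ℝ) / (Nat.totient p.1 : ℝ) * ‖p.2 (m : ZMod p.1)‖ *
        ∏ l ∈ k.primeFactors, (if (l : ℤ) ∣ m then 1 else 1 / ((l : ℝ) - 1))
      ≤ (Q : ℝ) * 1 * 1 := by
        refine mul_le_mul (mul_le_mul h2 h5 (norm_nonneg _) (by positivity)) h1 h0 (by positivity)
    _ = Q := by ring

theorem gk_period (p : Σ r : ℕ, DirichletCharacter ℂ r) (k : ℕ) (m j : ℤ) :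
    gk p k (m + (p.1 * k : ℕ) * j) = gk p k m := by
  unfold gk
  have h1 : ((m + (p.1 * k : ℕ) * j : ℤ) : ZMod p.1) = (m : ZMod p.1) := by
    push_cast
    simp
  have h2 : cq k (m + (p.1 * k : ℕ) * j) = cq k m := by
    refine CA_cq_congr k _ _ ⟨p.1 * j, ?_⟩
    push_cast
    ring
  rw [h1, h2]

/-- Primitivity. Let `l` be a prime dividing `p.1 k`, `N = p.1 k / l`. If `l ∣ k` (then `l ∤ r`):
`N = r (k/l)`, `χ` and `c_(k/l)` do not see the shift, `c_k = c_(k/l) c_l`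
(`GAM_c_mult`; coprime since `k` is squarefree), and `c_l(n) = l - 1` if `l ∣ n`, `-1` else, so the sum
of `c_l` over the `l` different classes `m + j N` modulo `l` is `0`. If `l ∣ r` (then `l ∤ k`):
`N = k (r/l)`, `c_k` does not see the shift, and `∑_j conj χ(m + j k r/l) = 0`: the values
`m + j k (r/l)` run through all classes modulo `r` congruent to `m` modulo `r/l` (`k` is a unit
modulo `l`); by primitivity there is a unit `u ≡ 1` modulo `r/l` with `χ(u) ≠ 1` (`CM_ex` in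
`H18E/CM`), multiplication by `u` permutes these classes, so the sum `S` satisfies `S = χ(u) S`. -/
theorem gk_prim (Q : ℕ) (p : Σ r : ℕ, DirichletCharacter ℂ r) (hp : p ∈ PC Q) (k : ℕ)
    (hk : k ∈ KS Q p.1) (l : ℕ) (hl : l.Prime) (hlk : l ∣ p.1 * k) (m : ℤ) :
    ∑ j ∈ range l, gk p k (m + (j : ℤ) * (p.1 * k / l : ℕ)) = 0 := by
  obtain ⟨hr1, hrQ, hprim⟩ := mem_PC.1 hp
  obtain ⟨⟨hk1, -⟩, hs, hcop⟩ := CA_mem_KS.1 hk
  have hl0 : NeZero l := ⟨hl.ne_zero⟩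
  have hr0 : NeZero p.1 := ⟨by omega⟩
  by_cases hlk' : l ∣ k
  · obtain ⟨k', rfl⟩ := hlk'
    have hck : Nat.Coprime l k' := by
      rw [hl.coprime_iff_not_dvd]
      rintro ⟨c, rfl⟩
      exact hl.one_lt.ne' (Nat.isUnit_iff.1 (hs l ⟨c, by ring⟩))
    have hcr : Nat.Coprime l p.1 := Nat.Coprime.coprime_mul_right hcop
    have hN : p.1 * (l * k') / l = p.1 * k' := by
      rw [show p.1 * (l * k') = l * (p.1 * k') by ring, Nat.mul_div_cancel_left _ hl.pos]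
    rw [hN]
    have h1 : ∀ j : ℕ, gk p (l * k') (m + (j : ℤ) * (p.1 * k' : ℕ)) =
        ((((p.1 : ℝ) / (Nat.totient p.1 : ℝ) : ℝ) : ℂ) * (starRingEnd ℂ) (p.2 (m : ZMod p.1)) *
        (((ArithmeticFunction.moebius (l * k') : ℝ) / (Nat.totient (l * k') : ℝ) * cq k' m : ℝ) : ℂ)) *
        ((cq l (((p.1 * k' : ℕ) : ℤ) * j + m) : ℝ) : ℂ) := by
      intro j
      unfold gk
      have e1 : ((m + (j : ℤ) * (p.1 * k' : ℕ) : ℤ) : ZMod p.1) = (m : ZMod p.1) := by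
        push_cast
        simp
      have e2 : cq (l * k') (m + (j : ℤ) * (p.1 * k' : ℕ)) = cq l (((p.1 * k' : ℕ) : ℤ) * j + m) * cq k' m := by
        rw [CA_cq_mul l k' _ hck]
        congr 1
        · congr 1
          ring
        · refine CA_cq_congr k' _ _ ⟨j * p.1, ?_⟩
          push_cast
          ring
      rw [e1, e2]
      push_cast
      ring
    rw [Finset.sum_congr rfl fun j _ => h1 j, ← Finset.mul_sum]
    have h2 := CA_shift l (fun n => ((cq l n : ℝ) : ℂ)) (fun a b hab => by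
      rw [CA_cq_congr l a b ((ZMod.intCast_eq_intCast_iff_dvd_sub b a l).1 hab.symm)]) ((p.1 * k' : ℕ) : ℤ) m (by
      rw [Int.cast_natCast, ZMod.isUnit_iff_coprime]
      exact (Nat.Coprime.mul_right hcr hck).symm)
    rw [h2]
    have h3 : ∑ j ∈ range l, ((cq l (j : ℤ) : ℝ) : ℂ) = 0 := by
      rw [← Complex.ofReal_sum]
      have h4 : ∑ j ∈ range l, cq l (j : ℤ) = 0 := by
        have h5 : ∀ j ∈ range l, cq l (j : ℤ) = -1 + if j = 0 then (l : ℝ) else 0 := by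
          intro j hj
          rw [CA_cq_prime l hl]
          congr 1
          have h6 : ((l : ℤ) ∣ (j : ℤ)) ↔ j = 0 := by
            rw [Int.natCast_dvd_natCast]
            constructor
            · intro h
              exact Nat.eq_zero_of_dvd_of_lt h (mem_range.1 hj)
            · rintro rfl
              exact dvd_zero _
          simp only [h6]
        rw [Finset.sum_congr rfl h5, Finset.sum_add_distrib, Finset.sum_ite_eq' (range l) 0,
          if_pos (mem_range.2 hl.pos), Finset.sum_const, card_range]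
        simp
      rw [h4, Complex.ofReal_zero]
    rw [h3, mul_zero]
  · have hlr : l ∣ p.1 := (hl.dvd_mul.1 hlk).resolve_right hlk'
    obtain ⟨r', hr'⟩ := hlr
    have hr'0 : 0 < r' := by
      rcases Nat.eq_zero_or_pos r' with h | h
      · rw [h, mul_zero] at hr'
        omega
      · exact h
    have hN : p.1 * k / l = r' * k := by
      rw [hr', mul_assoc, Nat.mul_div_cancel_left _ hl.pos]
    rw [hN]
    obtain ⟨f, hf⟩ : ∃ f : ℤ → ℂ, ∀ t, f t = p.2 ((m + t * r' : ℤ) : ZMod p.1) := ⟨_, fun _ => rfl⟩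
    have hfc : ∀ a b : ℤ, (a : ZMod l) = b → f a = f b := by
      intro a b hab
      rw [hf, hf]
      congr 1
      rw [ZMod.intCast_eq_intCast_iff_dvd_sub] at hab ⊢
      obtain ⟨c, hc⟩ := hab
      refine ⟨c, ?_⟩
      rw [hr']
      push_cast
      linear_combination (r' : ℤ) * hc
    have h1 : ∀ j : ℕ, gk p k (m + (j : ℤ) * (r' * k : ℕ)) =
        ((((p.1 : ℝ) / (Nat.totient p.1 : ℝ) : ℝ) : ℂ) *
        (((ArithmeticFunction.moebius k : ℝ) / (Nat.totient k : ℝ) * cq k m : ℝ) : ℂ)) *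
        (starRingEnd ℂ) (f ((k : ℤ) * j + 0)) := by
      intro j
      unfold gk
      have e1 : p.2 ((m + (j : ℤ) * (r' * k : ℕ) : ℤ) : ZMod p.1) = f ((k : ℤ) * j + 0) := by
        rw [hf]
        congr 1
        push_cast
        ring
      have e2 : cq k (m + (j : ℤ) * (r' * k : ℕ)) = cq k m := by
        refine CA_cq_congr k _ _ ⟨j * r', ?_⟩
        push_cast
        ring
      rw [e1, e2]
      ring
    rw [Finset.sum_congr rfl fun j _ => h1 j, ← Finset.mul_sum, ← map_sum]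
    have hku : IsUnit ((k : ℤ) : ZMod l) := by
      rw [Int.cast_natCast, ZMod.isUnit_iff_coprime]
      exact ((hl.coprime_iff_not_dvd).2 hlk').symm
    rw [CA_shift l f hfc (k : ℤ) 0 hku]
    have hlt : r' < p.1 := by
      rw [hr']
      have := hl.two_le
      nlinarith
    have hdvd : r' ∣ p.1 := ⟨l, by rw [hr', mul_comm]⟩
    have hldvd : l ∣ p.1 := ⟨r', hr'⟩
    obtain ⟨u, hu1, hu2⟩ := Pool.Agent.Lib.H18E.CM_ex p.1 p.2 hprim r' hdvd hlt
    obtain ⟨U, hU⟩ : ∃ U : ℤ, U = (((u : ZMod p.1).val : ℕ) : ℤ) := ⟨_, rfl⟩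
    have hUu : ((U : ℤ) : ZMod p.1) = (u : ZMod p.1) := by
      rw [hU, Int.cast_natCast, ZMod.natCast_zmod_val]
    have hU1 : ((U : ℤ) : ZMod r') = 1 := by
      have h3 := congrArg (fun z : (ZMod r')ˣ => (z : ZMod r')) hu1
      have h4 : ZMod.castHom hdvd (ZMod r') (u : ZMod p.1) = 1 := by
        simpa [ZMod.unitsMap_def] using h3
      rw [← hUu, map_intCast] at h4
      exact h4
    have hUl : IsUnit ((U : ℤ) : ZMod l) := by
      have h3 : IsUnit (ZMod.castHom hldvd (ZMod l) (u : ZMod p.1)) := u.isUnit.map _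
      rw [← hUu, map_intCast] at h3
      exact h3
    obtain ⟨s, hs'⟩ : ∃ s : ℤ, U = 1 + s * r' := by
      have h3 : ((1 : ℤ) : ZMod r') = ((U : ℤ) : ZMod r') := by rw [hU1, Int.cast_one]
      rw [ZMod.intCast_eq_intCast_iff_dvd_sub] at h3
      obtain ⟨c, hc⟩ := h3
      exact ⟨c, by linear_combination hc⟩
    have h5 := CA_shift l f hfc U (s * m) hUl
    have h6 : ∀ j : ℕ, f (U * j + s * m) = p.2 (u : ZMod p.1) * f j := by
      intro j
      rw [hf, hf, ← hUu, ← map_mul]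
      congr 1
      rw [← Int.cast_mul]
      congr 1
      linear_combination (-m) * hs'
    rw [Finset.sum_congr rfl fun j _ => h6 j, ← Finset.mul_sum] at h5
    have h7 : ∑ j ∈ range l, f (j : ℤ) = 0 := by
      have h8 : (p.2 (u : ZMod p.1) - 1) * ∑ j ∈ range l, f (j : ℤ) = 0 := by
        linear_combination h5
      exact (mul_eq_zero.1 h8).resolve_left (sub_ne_zero.2 hu2)
    rw [h7, map_zero, mul_zero]

end Pool.Agent.Lib.H18Q
end

-- from Lib.H18Q.R2A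
section

/-!
# Project H18Q, chunk R2A: ports of `B_le`, `B0_le` to the regime `RegP`
-/

open Finset

namespace Pool.Agent.Lib.H18Q

open Pool.Agent.Lib.H68T

/-- PORT of `BPS_regime` (end of `H68T/BPS.lean`) to `RegP K Q X : K ≤ log log X ∧ K log log X ≤
log Q ∧ K log Q ≤ log X` (lemmas in `R0.lean`: the same names as in `RegL.lean`). With `K ≥ 100`:
`X ≥ Q^100`, `log (60 X) ≤ Q`. -/
theorem BPS_regimeP : ∃ K : ℝ, 1 ≤ K ∧ ∀ Q X : ℕ, RegP K Q X →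
    1 ≤ Q ∧ 1 ≤ X ∧ 1 ≤ X / Q ^ 2 ∧ 2 * (X / Q ^ 2) ≤ X ∧
    (X : ℝ) ≤ 2 * Q ^ 2 * ((X / Q ^ 2 : ℕ) : ℝ) ∧
    11520 * 700 / (Q : ℝ) ^ 3 + (1 / ((X / Q ^ 2 : ℕ) : ℝ)) *
      (2 * √((60 * X : ℕ) : ℝ) * Real.log ((60 * X : ℕ) : ℝ)) ≤ (Q : ℝ) ^ (-(5 / 2) : ℝ) := by
  obtain ⟨K1, hK1, h1⟩ := regp_log_le 1 1 1 one_pos
  obtain ⟨K2, hK2, h2⟩ := regp_pow_le 128 (11 / 2) (1 / 2) (by norm_num)
  obtain ⟨K3, hK3, h3⟩ := regp_log_le (2 * (11520 * 700)) 0 (1 / 2) (by norm_num)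
  obtain ⟨K4, hK4, h4⟩ := regp_pow_le 2 2 1 one_pos
  refine ⟨60 + K1 + K2 + K3 + K4, by linarith, fun Q X h => ?_⟩
  set K := 60 + K1 + K2 + K3 + K4 with hKdef
  have hK : 1 ≤ K := by linarith
  have hK0 : 0 < K := by linarith
  have e1 := h1 Q X (h.mono hK0.le (by linarith))
  have e2 := h2 Q X (h.mono hK0.le (by linarith))
  have e3 := h3 Q X (h.mono hK0.le (by linarith))
  have e4 := h4 Q X (h.mono hK0.le (by linarith))
  have hQ0 := h.Q_pos hK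
  have hX0 := h.X_pos hK0
  have hXK := h.X_ge hK0
  have hQK := h.Q_ge hK
  have hQ' : (0:ℝ) < Q := by exact_mod_cast hQ0
  have hX' : (0:ℝ) < X := by exact_mod_cast hX0
  have hlX := h.logX_ge_one hK0
  rw [Real.rpow_one, Real.rpow_one, one_mul] at e1
  rw [Real.rpow_one] at e4
  have e4' : 2 * (Q:ℝ) ^ 2 ≤ X := by
    have : ((Q:ℝ) ^ (2:ℝ)) = (Q:ℝ) ^ 2 := by rw [← Real.rpow_natCast]; norm_num
    rw [this] at e4; exact e4
  have e4n : 2 * Q ^ 2 ≤ X := by exact_mod_cast e4'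
  have hQ2 : 2 ≤ Q := by
    have : (2:ℝ) ≤ Q := by linarith
    exact_mod_cast this
  have hQsq : 0 < Q ^ 2 := by positivity
  have hY1 : 1 ≤ X / Q ^ 2 := by
    rw [Nat.one_le_div_iff hQsq]; linarith
  have hYX : 2 * (X / Q ^ 2) ≤ X := by
    have h5 : X / Q ^ 2 ≤ X / 2 := Nat.div_le_div_left (by nlinarith) (by norm_num)
    omega
  have hXY : (X : ℝ) ≤ 2 * Q ^ 2 * ((X / Q ^ 2 : ℕ) : ℝ) := by
    have h5 : X < Q ^ 2 * (X / Q ^ 2 + 1) := Nat.lt_mul_div_succ X hQsq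
    have h6 : X ≤ 2 * Q ^ 2 * (X / Q ^ 2) := by nlinarith
    exact_mod_cast h6
  refine ⟨hQ0, hX0, hY1, hYX, hXY, ?_⟩
  have hY' : (0:ℝ) < ((X / Q ^ 2 : ℕ) : ℝ) := by exact_mod_cast hY1
  set Y : ℝ := ((X / Q ^ 2 : ℕ) : ℝ) with hYdef
  -- first term
  have t1 : 11520 * 700 / (Q : ℝ) ^ 3 ≤ (1 / 2) * (Q : ℝ) ^ (-(5 / 2) : ℝ) := by
    rw [Real.rpow_zero, mul_one] at e3
    have h5 : (Q : ℝ) ^ (-(5 / 2) : ℝ) = (Q:ℝ) ^ (1 / 2 : ℝ) / (Q:ℝ) ^ 3 := by
      rw [eq_div_iff (by positivity), ← Real.rpow_natCast, ← Real.rpow_add hQ']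
      norm_num
    rw [h5, ← mul_div_assoc]
    apply div_le_div_of_nonneg_right _ (by positivity)
    linarith
  have t2 : (1 / Y) * (2 * √((60 * X : ℕ) : ℝ) * Real.log ((60 * X : ℕ) : ℝ)) ≤
      (1 / 2) * (Q : ℝ) ^ (-(5 / 2) : ℝ) := by
    have h5 : 1 / Y ≤ 2 * Q ^ 2 / X := by
      rw [div_le_div_iff₀ hY' hX']; linarith
    have h6 : √((60 * X : ℕ) : ℝ) ≤ 8 * √(X:ℝ) := by
      rw [Real.sqrt_le_left (by positivity), mul_pow, Real.sq_sqrt hX'.le]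
      push_cast
      linarith
    have h7 : Real.log ((60 * X : ℕ) : ℝ) ≤ 2 * Real.log X := by
      push_cast
      rw [Real.log_mul (by norm_num) hX'.ne']
      have := Real.log_le_log (by norm_num : (0:ℝ) < 60) (by linarith : (60:ℝ) ≤ X)
      linarith
    have h8 : 0 ≤ Real.log ((60 * X : ℕ) : ℝ) := by positivity
    have h9 : √(X:ℝ) = (X:ℝ) ^ (1 / 2 : ℝ) := Real.sqrt_eq_rpow _
    have h10 : (X:ℝ) = √(X:ℝ) * √(X:ℝ) := (Real.mul_self_sqrt hX'.le).symm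
    have hs0 : 0 < √(X:ℝ) := Real.sqrt_pos.mpr hX'
    calc (1 / Y) * (2 * √((60 * X : ℕ) : ℝ) * Real.log ((60 * X : ℕ) : ℝ))
        ≤ (2 * Q ^ 2 / X) * (2 * (8 * √(X:ℝ)) * (2 * Q)) := by
          apply mul_le_mul h5 _ (by positivity) (by positivity)
          apply mul_le_mul _ _ h8 (by positivity)
          · linarith
          · linarith
      _ = 64 * Q ^ 3 / √(X:ℝ) := by
          rw [div_mul_eq_mul_div, div_eq_div_iff hX'.ne' hs0.ne']
          calc 2 * (Q:ℝ) ^ 2 * (2 * (8 * √(X:ℝ)) * (2 * Q)) * √(X:ℝ)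
              = 64 * (Q:ℝ) ^ 3 * (√(X:ℝ) * √(X:ℝ)) := by ring
            _ = 64 * (Q:ℝ) ^ 3 * (X:ℝ) := by rw [← h10]
      _ ≤ (1 / 2) * (Q : ℝ) ^ (-(5 / 2) : ℝ) := by
          rw [div_le_iff₀ hs0]
          rw [← h9] at e2
          have h11 : (Q:ℝ) ^ (-(5 / 2) : ℝ) * (Q:ℝ) ^ (11 / 2 : ℝ) = (Q:ℝ) ^ 3 := by
            rw [← Real.rpow_add hQ', ← Real.rpow_natCast]
            norm_num
          have h12 : 0 < (Q:ℝ) ^ (-(5 / 2) : ℝ) := Real.rpow_pos_of_pos hQ' _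
          have h13 := mul_le_mul_of_nonneg_left e2 h12.le
          nlinarith
  linarith

/-- PORT of `B_le` (the proof is the same with `BPS_regimeP`). -/
theorem B_leP : ∃ K : ℝ, 1 ≤ K ∧ ∀ Q X : ℕ, RegP K Q X → ∀ p : Σ r : ℕ, DirichletCharacter ℂ r,
    1 ≤ p.1 → ∀ m : ℤ, (X : ℤ) ≤ m → m ≤ 4 * X →
    ‖∑ n ∈ Icc 1 (60 * X), ((lp n * tent (X / Q ^ 2) (m - n) : ℝ) : ℂ) * p.2 (n : ZMod p.1)‖ ≤
      (∫ t in (-(Q : ℝ) ^ 7)..((Q : ℝ) ^ 7), ‖FL X p t‖) + (Q : ℝ) ^ (-(5 / 2) : ℝ) := by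
  obtain ⟨K, hK1, hK⟩ := BPS_regimeP
  refine ⟨K, hK1, fun Q X h p _ m hm1 hm2 => ?_⟩
  obtain ⟨hQ, hX, hY, hYX, hXY, hbd⟩ := hK Q X h
  have hQ' : (0:ℝ) < Q := by exact_mod_cast hQ
  have h1 := BPS_general hQ hX hY hYX hXY
    (fun n => (ArithmeticFunction.vonMangoldt n : ℂ) * p.2 (n : ZMod p.1)) (D := 600)
    (by norm_num) (BPS_sum_norm p) m hm1 hm2
  have h2 := BPS_replace (Y := X / Q ^ 2) hX (fun n => p.2 (n : ZMod p.1))
    (fun n => DirichletCharacter.norm_le_one _ _) m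
  have h3 := norm_le_norm_add_norm_sub' (∑ n ∈ Icc 1 (60 * X),
    ((lp n * tent (X / Q ^ 2) (m - n) : ℝ) : ℂ) * p.2 (n : ZMod p.1))
    (∑ n ∈ Icc 1 (60 * X), (ArithmeticFunction.vonMangoldt n : ℂ) * p.2 (n : ZMod p.1) *
      (tent (X / Q ^ 2) (m - n) : ℂ))
  have h4 : 11520 * 600 / (Q:ℝ) ^ 3 ≤ 11520 * 700 / (Q:ℝ) ^ 3 := by
    apply div_le_div_of_nonneg_right _ (by positivity)
    norm_num
  have h5 : (∫ t in (-(Q : ℝ) ^ 7)..((Q : ℝ) ^ 7), ‖FL X p t‖) =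
      ∫ t in (-(Q : ℝ) ^ 7)..((Q : ℝ) ^ 7),
        ‖FF X (fun n => (ArithmeticFunction.vonMangoldt n : ℂ) * p.2 (n : ZMod p.1)) t‖ := rfl
  rw [h5]
  linarith

/-- PORT of `B0_le`. -/
theorem B0_leP : ∃ K : ℝ, 1 ≤ K ∧ ∀ Q X : ℕ, RegP K Q X → ∀ m : ℤ, (X : ℤ) ≤ m → m ≤ 4 * X →
    |∑ n ∈ Icc 1 (60 * X), lp n * tent (X / Q ^ 2) (m - n) - 1| ≤
      (∫ t in (-(Q : ℝ) ^ 7)..((Q : ℝ) ^ 7), ‖FL X p0 t - F0 X t‖) +
        (Q : ℝ) ^ (-(5 / 2) : ℝ) := by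
  obtain ⟨K, hK1, hK⟩ := BPS_regimeP
  refine ⟨K, hK1, fun Q X h m hm1 hm2 => ?_⟩
  obtain ⟨hQ, hX, hY, hYX, hXY, hbd⟩ := hK Q X h
  have hQ' : (0:ℝ) < Q := by exact_mod_cast hQ
  have hone : ∀ n : ℕ, p0.2 (n : ZMod p0.1) = 1 := by
    intro n
    have : (n : ZMod 1) = 1 := Subsingleton.elim _ _
    change (1 : DirichletCharacter ℂ 1) (n : ZMod 1) = 1
    rw [this, map_one]
  have hsum : ∑ n ∈ Icc 1 (60 * X), ‖(ArithmeticFunction.vonMangoldt n : ℂ) - 1‖ ≤ 700 * X := by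
    calc ∑ n ∈ Icc 1 (60 * X), ‖(ArithmeticFunction.vonMangoldt n : ℂ) - 1‖
        ≤ ∑ n ∈ Icc 1 (60 * X), (ArithmeticFunction.vonMangoldt n + 1) := by
          apply Finset.sum_le_sum
          intro n _
          refine (norm_sub_le _ _).trans ?_
          rw [Complex.norm_real, Real.norm_of_nonneg ArithmeticFunction.vonMangoldt_nonneg,
            norm_one]
      _ = ∑ n ∈ Icc 1 (60 * X), ArithmeticFunction.vonMangoldt n + 60 * X := by
          rw [Finset.sum_add_distrib, Finset.sum_const, Nat.card_Icc]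
          simp
      _ ≤ 700 * X := by
          have := BPS_sum_vM (X := X)
          have : (0:ℝ) ≤ X := by positivity
          linarith
  have h1 := BPS_general hQ hX hY hYX hXY
    (fun n => (ArithmeticFunction.vonMangoldt n : ℂ) - 1) (D := 700)
    (by norm_num) hsum m hm1 hm2
  have h2 := BPS_replace (Y := X / Q ^ 2) hX (fun _ => 1) (fun n => by simp) m
  have hmass := BPS_mass (Y := X / Q ^ 2) hY hYX hm1 hm2
  have h3 : ((∑ n ∈ Icc 1 (60 * X), lp n * tent (X / Q ^ 2) (m - n) - 1 : ℝ) : ℂ) =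
      (∑ n ∈ Icc 1 (60 * X), ((lp n * tent (X / Q ^ 2) (m - n) : ℝ) : ℂ) * 1 -
        ∑ n ∈ Icc 1 (60 * X), (ArithmeticFunction.vonMangoldt n : ℂ) * 1 *
          (tent (X / Q ^ 2) (m - n) : ℂ)) +
      ∑ n ∈ Icc 1 (60 * X), ((ArithmeticFunction.vonMangoldt n : ℂ) - 1) *
          (tent (X / Q ^ 2) (m - n) : ℂ) := by
    rw [← hmass]
    push_cast
    simp only [mul_one, sub_mul, one_mul, Finset.sum_sub_distrib]
    ring
  have h4 : |∑ n ∈ Icc 1 (60 * X), lp n * tent (X / Q ^ 2) (m - n) - 1| =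
      ‖((∑ n ∈ Icc 1 (60 * X), lp n * tent (X / Q ^ 2) (m - n) - 1 : ℝ) : ℂ)‖ := by
    rw [Complex.norm_real, Real.norm_eq_abs]
  have h5 : (∫ t in (-(Q : ℝ) ^ 7)..((Q : ℝ) ^ 7), ‖FL X p0 t - F0 X t‖) =
      ∫ t in (-(Q : ℝ) ^ 7)..((Q : ℝ) ^ 7),
        ‖FF X (fun n => (ArithmeticFunction.vonMangoldt n : ℂ) - 1) t‖ := by
    congr 1
    ext t
    congr 1
    unfold FL F0 FF
    rw [← Finset.sum_sub_distrib]
    apply Finset.sum_congr rfl
    intro n _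
    simp only [hone]
    ring
  rw [h4, h5, h3]
  refine (norm_add_le _ _).trans ?_
  linarith

end Pool.Agent.Lib.H18Q
end

-- from Lib.H51D.DHF
section

/-!
# Chunk DHF: the twisted sums of `λ` at a zero
-/

open Finset

namespace Pool.Agent.Lib.H68T

/-- the convolution of two characters -/
noncomputable def DHF_f {N₁ N₂ : ℕ} (χ₁ : DirichletCharacter ℂ N₁) (χ₂ : DirichletCharacter ℂ N₂)
    (n : ℕ) : ℂ :=
  ∑ d ∈ n.divisors, χ₁ (d : ZMod N₁) * χ₂ ((n / d : ℕ) : ZMod N₂)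

theorem DHF_f_eq {N₁ N₂ : ℕ} (χ₁ : DirichletCharacter ℂ N₁) (χ₂ : DirichletCharacter ℂ N₂) :
    DHF_f χ₁ χ₂ = LSeries.convolution (fun n : ℕ => χ₁ (n : ZMod N₁))
      (fun n : ℕ => χ₂ (n : ZMod N₂)) := by
  rw [LSeries.convolution_def]
  funext n
  unfold DHF_f
  exact (Nat.sum_divisorsAntidiagonal
    (f := fun a b => χ₁ (a : ZMod N₁) * χ₂ (b : ZMod N₂))).symm

theorem DHF_summable {N₁ N₂ : ℕ} (χ₁ : DirichletCharacter ℂ N₁) (χ₂ : DirichletCharacter ℂ N₂)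
    (s : ℂ) (hs : 1 < s.re) : LSeriesSummable (DHF_f χ₁ χ₂) s := by
  rw [DHF_f_eq]
  exact LSeriesSummable.convolution (DirichletCharacter.LSeriesSummable_of_one_lt_re χ₁ hs)
    (DirichletCharacter.LSeriesSummable_of_one_lt_re χ₂ hs)

theorem DHF_LSeries {N₁ N₂ : ℕ} [NeZero N₁] [NeZero N₂] (χ₁ : DirichletCharacter ℂ N₁)
    (χ₂ : DirichletCharacter ℂ N₂)
    (s : ℂ) (hs : 1 < s.re) : LSeries (DHF_f χ₁ χ₂) s = χ₁.LFunction s * χ₂.LFunction s := by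
  rw [DHF_f_eq, LSeries_convolution' (DirichletCharacter.LSeriesSummable_of_one_lt_re χ₁ hs)
    (DirichletCharacter.LSeriesSummable_of_one_lt_re χ₂ hs),
    DirichletCharacter.LFunction_eq_LSeries χ₁ hs, DirichletCharacter.LFunction_eq_LSeries χ₂ hs]


/-- the value of a product of characters to different moduli -/
theorem DHF_val (q r : ℕ) [NeZero q] [NeZero r] (χ : DirichletCharacter ℂ q)
    (ψ : DirichletCharacter ℂ r) (d : ℕ) :
    (DirichletCharacter.changeLevel (Dvd.intro r rfl) χ *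
      DirichletCharacter.changeLevel (Dvd.intro_left q rfl) ψ : DirichletCharacter ℂ (q * r))
        (d : ZMod (q * r)) = χ (d : ZMod q) * ψ (d : ZMod r) := by
  rw [MulChar.mul_apply]
  by_cases h : IsUnit (d : ZMod (q * r))
  · have e1 := DirichletCharacter.changeLevel_eq_cast_of_dvd χ (Dvd.intro r rfl) h.unit
    have e2 := DirichletCharacter.changeLevel_eq_cast_of_dvd ψ (Dvd.intro_left q rfl) h.unit
    simp only [IsUnit.unit_spec] at e1 e2
    rw [e1, e2, ZMod.cast_natCast (Dvd.intro r rfl), ZMod.cast_natCast (Dvd.intro_left q rfl)]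
  · have h0 : ∀ ξ : DirichletCharacter ℂ (q * r), ξ (d : ZMod (q * r)) = 0 :=
      fun ξ => MulChar.map_nonunit ξ h
    rw [h0, zero_mul]
    rw [ZMod.isUnit_iff_coprime, Nat.coprime_mul_iff_right, not_and_or] at h
    rcases h with h | h
    · rw [MulChar.map_nonunit χ (fun hu => h ((ZMod.isUnit_iff_coprime d q).1 hu)), zero_mul]
    · rw [MulChar.map_nonunit ψ (fun hu => h ((ZMod.isUnit_iff_coprime d r).1 hu)), mul_zero]



end Pool.Agent.Lib.H68T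
end

-- from Lib.H18Q.E1
section

/-!
# Project H18Q, chunk E1: the partial sums of `λ(m) m^(-β)` at a zero `β`
-/

open Finset

namespace Pool.Agent.Lib.H18Q

open Pool.Agent.Lib.H68T

/-- Difference of two powers, without a sign of the exponent. -/
theorem e1_diff (s : ℂ) {a b : ℝ} (hs : -1 ≤ s.re) (ha : 0 < a) (hab : a ≤ b) :
    ‖(b : ℂ) ^ (-s) - (a : ℂ) ^ (-s)‖ ≤ ‖s‖ * a ^ (-s.re - 1) * (b - a) := by
  have hpos : ∀ x ∈ Set.Icc a b, 0 < x := fun x hx => lt_of_lt_of_le ha hx.1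
  refine norm_image_sub_le_of_norm_deriv_le_segment' (f := fun x : ℝ => (x : ℂ) ^ (-s))
    (a := a) (b := b) (f' := fun x => -s * (x : ℂ) ^ (-s - 1))
    (fun x hx => (gl1_hasDerivAt s (hpos x hx)).hasDerivWithinAt) (fun x hx => ?_) b ⟨hab, le_rfl⟩
  have hx' := hpos x ⟨hx.1, hx.2.le⟩
  rw [gl1_norm_deriv s hx']
  refine mul_le_mul_of_nonneg_left ?_ (norm_nonneg _)
  exact Real.rpow_le_rpow_of_nonpos ha hx.1 (by linarith)

/-- Let `f : ℕ → ℂ` have `|∑_{n ≤ u} f n - κ u| ≤ D √u`, and let `F` be analytic in `Re s > 1/2` with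
`F s = (s-1) ∑ f n n^(-s)` for `Re s > 1`, `F s = 0`, `3/4 ≤ Re s ≤ 1`, `s ≠ 1`. Then
`∑_{n ≤ u} f n n^(-s) = κ u^(1-s)/(1-s) + O((D + |κ|)(1 + |s|) u^(1/2 - Re s))`.

Proof. Exactly the proof of `dh_analytic` (file `H51D/DHE`), which states the upper bound that
follows from this formula: before the last triangle inequality its proof has the formula (the main
term there is `κ (ζ-part) = κ u^(1-s)/(1-s)`, with a constant `2` lost in
`∑_{n ≤ u} n^(-s) = u^(1-s)/(1-s) + ζ(s) + O(...)`). Copy that proof and keep the main term. -/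
theorem E1_formula (f : ℕ → ℂ) (κ : ℂ) (D : ℝ) (hD : 0 ≤ D)
    (hM : ∀ u : ℕ, ‖(∑ n ∈ Icc 1 u, f n) - κ * u‖ ≤ D * Real.sqrt u)
    (hsum : ∀ s : ℂ, 1 < s.re → LSeriesSummable f s)
    (F : ℂ → ℂ) (hF : AnalyticOnNhd ℂ F {s | 1 / 2 < s.re})
    (hFs : ∀ s : ℂ, 1 < s.re → F s = (s - 1) * LSeries f s)
    (s : ℂ) (h1 : 3 / 4 ≤ s.re) (h2 : s.re ≤ 1) (hs1 : s ≠ 1) (h0 : F s = 0) (u : ℕ)
    (hu : 1 ≤ u) :
    ‖(∑ n ∈ Icc 1 u, f n * (n : ℂ) ^ (-s)) - κ * (u : ℂ) ^ (1 - s) / (1 - s)‖ ≤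
      100 * (D + ‖κ‖) * (1 + ‖s‖) * (u : ℝ) ^ (1 / 2 - s.re) := by
  have hs0 : 0 < s.re := by linarith
  have hs12 : 1 / 2 < s.re := by linarith
  have hG := DHE_analytic f κ D hD hM
  -- the identity
  have hid : F s = κ * gl2_Z s + (s - 1) * ∑' n, DHE_A f κ n s := by
    have ha : AnalyticOnNhd ℂ (fun s => κ * gl2_Z s + (s - 1) * ∑' n, DHE_A f κ n s)
        {s | 1 / 2 < s.re} := by
      intro z hz
      exact (analyticAt_const.mul (gl2_Z_differentiable.analyticAt z)).add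
        ((analyticAt_id.sub analyticAt_const).mul (hG z hz))
    have hp : IsPreconnected {s : ℂ | 1 / 2 < s.re} :=
      (convex_halfSpace_re_gt (1 / 2)).isPreconnected
    have h4 := hF.eqOn_of_preconnected_of_eventuallyEq ha hp (z₀ := 2) (by simp; norm_num) ?_
    · exact h4 hs12
    · have h5 : {s : ℂ | 1 < s.re} ∈ nhds (2 : ℂ) :=
        (isOpen_lt continuous_const Complex.continuous_re).mem_nhds (by simp)
      filter_upwards [h5] with z hz
      have hz' : 1 < z.re := hz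
      rw [hFs z hz', DHE_series f κ D hM hsum z hz', gl2_Z_eq z (by rintro rfl; simp at hz')]
      ring
  rw [h0] at hid
  -- the finite sum
  have e1 : ∑ n ∈ Icc 1 u, f n * (n : ℂ) ^ (-s) = ∑ n ∈ range u, f (n + 1) * DHE_p n s := by
    rw [← Finset.Ico_succ_right_eq_Icc, Finset.sum_Ico_eq_sum_range]
    simp only [Order.succ_eq_add_one, Nat.add_sub_cancel]
    refine sum_congr rfl fun n _ => ?_
    rw [add_comm 1 n, DHE_p]
    push_cast
    rfl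
  have e2 := DHE_abel f κ s u
  -- sums of `gl2_B`
  have hsumB := (gl1_tele s.re hs0 (‖s - 1‖ * ‖s‖ / s.re) (by positivity) (fun n => gl2_B n s)
    (fun n => gl2_B_norm n s hs0)).1
  have e3 : ∀ K : ℕ, ∑ n ∈ range K, gl2_B n s = (s - 1) * ∑ n ∈ range K, DHE_p n s +
      ((((K : ℝ) + 1 : ℝ) : ℂ) ^ (-(s - 1)) - 1) := by
    intro K
    induction K with
    | zero => simp
    | succ K ih =>
      rw [sum_range_succ, sum_range_succ, ih, gl2_B, DHE_p]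
      have e2 : (((K + 1 : ℕ) : ℝ) + 1 : ℝ) = (K : ℝ) + 2 := by
        push_cast
        ring
      rw [e2]
      ring
  have e4 : gl2_Z s = 1 + ∑ n ∈ range u, gl2_B n s + ∑' n, gl2_B (n + u) s := by
    rw [gl2_eqOn s hs0, ← hsumB.sum_add_tsum_nat_add u]
    ring
  have hsumA := DHE_summable f κ D hM s hs12
  have e5 : ∑' n, DHE_A f κ n s = ∑ n ∈ range u, DHE_A f κ n s + ∑' n, DHE_A f κ (n + u) s :=
    (hsumA.sum_add_tsum_nat_add u).symm
  have hs1' : s - 1 ≠ 0 := sub_ne_zero.2 hs1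
  have hu0 : (0 : ℝ) < u := by exact_mod_cast hu
  have hu1 : (1 : ℝ) ≤ u := by exact_mod_cast hu
  -- the tails
  have hB : ‖∑' n, gl2_B (n + u) s‖ ≤ ‖s - 1‖ * ‖s‖ / s.re * ((u : ℝ) + 1) ^ (-s.re) :=
    XRL_tele s.re _ (by positivity) u _ (fun n => gl2_B_norm (n + u) s hs0)
  have hA : ‖∑' n, DHE_A f κ (n + u) s‖ ≤
      D * ‖s‖ / (s.re - 1 / 2) * (u : ℝ) ^ (-(s.re - 1 / 2)) := by
    have hh := XRL_tele (s.re - 1 / 2) (D * ‖s‖ / (s.re - 1 / 2))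
      (div_nonneg (by positivity) (by linarith)) (u - 1) (fun n => DHE_A f κ (n + u) s) ?_
    · have e6 : (((u - 1 : ℕ) : ℝ) + 1) = u := by
        rw [Nat.cast_sub hu]
        simp
      rwa [e6] at hh
    · intro n
      refine (DHE_A_norm f κ D hM (n + u) s hs0).trans ?_
      have e7 : ((n + (u - 1) : ℕ) : ℝ) + 1 = ((n + u : ℕ) : ℝ) := by
        have : n + (u - 1) + 1 = n + u := by omega
        exact_mod_cast this
      have e8 : ((n + (u - 1) : ℕ) : ℝ) + 2 = ((n + u : ℕ) : ℝ) + 1 := by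
        linarith
      rw [e7, e8]
      have hx : (0 : ℝ) < ((n + u : ℕ) : ℝ) := by
        have : 0 < n + u := by omega
        exact_mod_cast this
      have h9 := DHE_mvt (s.re - 1 / 2) ((n + u : ℕ) : ℝ) (by linarith) hx
      have e9 : -(s.re - 1 / 2) - 1 = -s.re - 1 / 2 := by ring
      rw [e9] at h9
      have hp : 0 < s.re - 1 / 2 := by linarith
      calc D * ‖s‖ * (((n + u : ℕ) : ℝ) + 1) ^ (-s.re - 1 / 2)
          = D * ‖s‖ / (s.re - 1 / 2) *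
            ((s.re - 1 / 2) * (((n + u : ℕ) : ℝ) + 1) ^ (-s.re - 1 / 2)) := by
            rw [← mul_assoc, div_mul_cancel₀ _ hp.ne']
        _ ≤ _ := mul_le_mul_of_nonneg_left h9 (div_nonneg (by positivity) hp.le)
  -- the formula
  have key : ∑ n ∈ Icc 1 u, f n * (n : ℂ) ^ (-s) =
      DHE_E f κ u * DHE_p u s - κ * (∑' n, gl2_B (n + u) s) / (s - 1) -
        κ * (((u : ℝ) + 1 : ℝ) : ℂ) ^ (-(s - 1)) / (s - 1) - ∑' n, DHE_A f κ (n + u) s := by
    rw [e1, e2]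
    have e10 : ∑ n ∈ range u, DHE_p n s = (gl2_Z s - ∑' n, gl2_B (n + u) s -
        (((u : ℝ) + 1 : ℝ) : ℂ) ^ (-(s - 1))) / (s - 1) := by
      rw [eq_div_iff hs1', e4, e3 u]
      ring
    have e11 : ∑ n ∈ range u, DHE_A f κ n s =
        -(κ * gl2_Z s / (s - 1)) - ∑' n, DHE_A f κ (n + u) s := by
      have e12 : ∑' n, DHE_A f κ n s = -(κ * gl2_Z s / (s - 1)) := by
        field_simp
        linear_combination -hid
      rw [← e12, e5]
      ring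
    rw [e10, e11]
    ring
  have hn1 : 0 < ‖1 - s‖ := by
    rw [norm_pos_iff]
    exact sub_ne_zero.2 hs1.symm
  have hs1'' : 1 - s ≠ 0 := sub_ne_zero.2 hs1.symm
  have key2 : (∑ n ∈ Icc 1 u, f n * (n : ℂ) ^ (-s)) - κ * (u : ℂ) ^ (1 - s) / (1 - s) =
      DHE_E f κ u * DHE_p u s - κ * (∑' n, gl2_B (n + u) s) / (s - 1) -
        κ * ((u : ℂ) ^ (1 - s) - (((u : ℝ) + 1 : ℝ) : ℂ) ^ (1 - s)) / (1 - s) -
        ∑' n, DHE_A f κ (n + u) s := by
    rw [key]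
    have e20 : -(s - 1) = 1 - s := by ring
    rw [e20]
    have e21 : s - 1 = -(1 - s) := by ring
    rw [e21]
    field_simp
    ring
  rw [key2]
  have hκ := norm_nonneg κ
  have hns := norm_nonneg s
  have hsw : ‖s - 1‖ = ‖1 - s‖ := norm_sub_rev _ _
  -- bounds
  have b1 : ‖DHE_E f κ u * DHE_p u s‖ ≤ D * (u : ℝ) ^ (1 / 2 - s.re) := by
    rw [norm_mul, DHE_p, Complex.norm_cpow_eq_rpow_re_of_pos (by positivity)]
    have h3 : ‖DHE_E f κ u‖ ≤ D * (u : ℝ) ^ (1 / 2 : ℝ) := by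
      rw [← Real.sqrt_eq_rpow]
      exact hM u
    have h4 : ((u : ℝ) + 1) ^ (-s).re ≤ (u : ℝ) ^ (-s.re) := by
      rw [Complex.neg_re]
      exact Real.rpow_le_rpow_of_nonpos hu0 (by linarith) (by linarith)
    calc ‖DHE_E f κ u‖ * ((u : ℝ) + 1) ^ (-s).re ≤ (D * (u : ℝ) ^ (1 / 2 : ℝ)) * (u : ℝ) ^ (-s.re) :=
          mul_le_mul h3 h4 (Real.rpow_nonneg (by positivity) _) ((norm_nonneg _).trans h3)
      _ = D * ((u : ℝ) ^ (1 / 2 : ℝ) * (u : ℝ) ^ (-s.re)) := by ring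
      _ = _ := by
        rw [← Real.rpow_add hu0]
        ring_nf
  have hpow : ((u : ℝ) + 1) ^ (-s.re) ≤ (u : ℝ) ^ (1 / 2 - s.re) := by
    calc ((u : ℝ) + 1) ^ (-s.re) ≤ (u : ℝ) ^ (-s.re) :=
          Real.rpow_le_rpow_of_nonpos hu0 (by linarith) (by linarith)
      _ ≤ _ := Real.rpow_le_rpow_of_exponent_le hu1 (by linarith)
  have hpos : 0 ≤ (u : ℝ) ^ (1 / 2 - s.re) := Real.rpow_nonneg hu0.le _
  have b2 : ‖κ * (∑' n, gl2_B (n + u) s) / (s - 1)‖ ≤ 2 * ‖κ‖ * ‖s‖ * (u : ℝ) ^ (1 / 2 - s.re) := by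
    rw [norm_div, norm_mul, div_le_iff₀ (by rw [hsw]; exact hn1)]
    have h3 : ‖s - 1‖ * ‖s‖ / s.re ≤ 2 * (‖s - 1‖ * ‖s‖) := by
      rw [div_le_iff₀ hs0]
      have : 0 ≤ ‖s - 1‖ * ‖s‖ := by positivity
      nlinarith
    calc ‖κ‖ * ‖∑' n, gl2_B (n + u) s‖
        ≤ ‖κ‖ * (2 * (‖s - 1‖ * ‖s‖) * (u : ℝ) ^ (1 / 2 - s.re)) := by
          apply mul_le_mul_of_nonneg_left _ hκ
          refine hB.trans ?_
          exact mul_le_mul h3 hpow (Real.rpow_nonneg (by positivity) _) (by positivity)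
      _ = _ := by ring
  have b3 : ‖κ * ((u : ℂ) ^ (1 - s) - (((u : ℝ) + 1 : ℝ) : ℂ) ^ (1 - s)) / (1 - s)‖ ≤
      ‖κ‖ * (u : ℝ) ^ (1 / 2 - s.re) := by
    rw [norm_div, norm_mul, div_le_iff₀ hn1]
    have h3 := e1_diff (s - 1) (a := (u : ℝ)) (b := (u : ℝ) + 1) (by simp; linarith) hu0
      (by linarith)
    have e30 : -(s - 1) = 1 - s := by ring
    have e31 : -(s - 1).re - 1 = -s.re := by simp
    have e32 : (u : ℝ) + 1 - (u : ℝ) = 1 := by ring
    rw [e30, e31, e32, mul_one, hsw, norm_sub_rev] at h3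
    have h4 : (u : ℝ) ^ (-s.re) ≤ (u : ℝ) ^ (1 / 2 - s.re) :=
      Real.rpow_le_rpow_of_exponent_le hu1 (by linarith)
    calc ‖κ‖ * ‖(u : ℂ) ^ (1 - s) - (((u : ℝ) + 1 : ℝ) : ℂ) ^ (1 - s)‖
        ≤ ‖κ‖ * (‖1 - s‖ * (u : ℝ) ^ (1 / 2 - s.re)) := by
          apply mul_le_mul_of_nonneg_left _ hκ
          have h5 : ‖(u : ℂ) ^ (1 - s) - (((u : ℝ) + 1 : ℝ) : ℂ) ^ (1 - s)‖ ≤
              ‖1 - s‖ * (u : ℝ) ^ (-s.re) := by
            simpa using h3
          exact h5.trans (mul_le_mul_of_nonneg_left h4 hn1.le)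
      _ = _ := by ring
  have b4 : ‖∑' n, DHE_A f κ (n + u) s‖ ≤ 4 * D * ‖s‖ * (u : ℝ) ^ (1 / 2 - s.re) := by
    refine hA.trans ?_
    have e14 : -(s.re - 1 / 2) = 1 / 2 - s.re := by ring
    rw [e14]
    apply mul_le_mul_of_nonneg_right _ hpos
    rw [div_le_iff₀ (by linarith)]
    have : 0 ≤ D * ‖s‖ := by positivity
    nlinarith
  have t1 := norm_sub_le (DHE_E f κ u * DHE_p u s - κ * (∑' n, gl2_B (n + u) s) / (s - 1) -
        κ * ((u : ℂ) ^ (1 - s) - (((u : ℝ) + 1 : ℝ) : ℂ) ^ (1 - s)) / (1 - s))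
        (∑' n, DHE_A f κ (n + u) s)
  have t2 := norm_sub_le (DHE_E f κ u * DHE_p u s - κ * (∑' n, gl2_B (n + u) s) / (s - 1))
        (κ * ((u : ℂ) ^ (1 - s) - (((u : ℝ) + 1 : ℝ) : ℂ) ^ (1 - s)) / (1 - s))
  have t3 := norm_sub_le (DHE_E f κ u * DHE_p u s) (κ * (∑' n, gl2_B (n + u) s) / (s - 1))
  have t4 : D * (u : ℝ) ^ (1 / 2 - s.re) + 2 * ‖κ‖ * ‖s‖ * (u : ℝ) ^ (1 / 2 - s.re) +
      ‖κ‖ * (u : ℝ) ^ (1 / 2 - s.re) + 4 * D * ‖s‖ * (u : ℝ) ^ (1 / 2 - s.re) ≤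
      100 * (D + ‖κ‖) * (1 + ‖s‖) * (u : ℝ) ^ (1 / 2 - s.re) := by
    have : D + 2 * ‖κ‖ * ‖s‖ + ‖κ‖ + 4 * D * ‖s‖ ≤ 100 * (D + ‖κ‖) * (1 + ‖s‖) := by
      have h5 : 0 ≤ D * ‖s‖ := by positivity
      have h6 : 0 ≤ ‖κ‖ * ‖s‖ := by positivity
      nlinarith
    have h7 := mul_le_mul_of_nonneg_right this hpos
    linarith
  linarith

/-- Lower bound for the partial sums of `λ = 1 * ψ` at a real zero `β` of `L(s, ψ)`.

Proof. `E1_formula` with `f = λ` (as complex numbers), `κ = L(1, ψ)`, `D = 4 r`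
(`hyperbola` in `H68X/XRH`), `F s = gl2_Z s * ψ.LFunction s` (`gl2_Z s = (s-1) ζ(s)`,
`LSeries λ = ζ L` by `LSeries_convolution'`/`zetaMul`-lemmas as in `H51D` file `DHF` or `DHG`),
`s = β`. `L(1, ψ)` is real and positive (its norm is its value: real since `ψ` is real,
`ZF2_conj`; positivity is not needed if one takes the real part and uses
`(L(1)).re = ‖L(1)‖`, which follows from the formula itself or from
`DirichletCharacter.LFunction` positivity for real characters: `0 ≤ ∑_{m ≤ u} λ(m)/u → L(1)`).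
`‖κ‖ ≤ 2 r` (`LFunction_bound`), `1 + β ≤ 2`: the error is at most `100 · 6 r · 2 ≤ 2000 r`. -/
theorem E1_lower (r : ℕ) [NeZero r] (ψ : DirichletCharacter ℂ r) (hψ : ψ ≠ 1) (h2 : ψ ^ 2 = 1)
    (β : ℝ) (hβ : 3 / 4 ≤ β) (hβ1 : β < 1) (h0 : ψ.LFunction (β : ℂ) = 0) (x : ℕ) (hx : 1 ≤ x) :
    ‖ψ.LFunction 1‖ * (x : ℝ) ^ (1 - β) / (1 - β) - 2000 * r * (x : ℝ) ^ (1 / 2 - β) ≤
      ∑ m ∈ Icc 1 x, lam ψ m * (m : ℝ) ^ (-β) := by
  have hr1 : (1 : ℝ) ≤ r := by exact_mod_cast Nat.one_le_iff_ne_zero.2 (NeZero.ne r)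
  set κ : ℂ := ψ.LFunction 1 with hκdef
  set f : ℕ → ℂ := fun n => ∑ d ∈ n.divisors, ψ (d : ZMod r) with hf
  have hflam : ∀ n, f n = ((lam ψ n : ℝ) : ℂ) := fun n => (lam_cast r ψ h2 n).symm
  have hfD : f = DHF_f ψ (1 : DirichletCharacter ℂ 1) := by
    funext n
    rw [hf]
    unfold DHF_f
    apply Finset.sum_congr rfl
    intro d _
    have : (1 : DirichletCharacter ℂ 1) ((n / d : ℕ) : ZMod 1) = 1 := by
      rw [Subsingleton.elim ((n / d : ℕ) : ZMod 1) 1, map_one]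
    rw [this, mul_one]
  have hMf : ∀ u : ℕ, ‖(∑ n ∈ Icc 1 u, f n) - κ * u‖ ≤ (4 * r) * Real.sqrt u := by
    intro u
    have := hyperbola r ψ hψ u
    rw [mul_comm κ]
    exact this
  -- positivity of `L(1)`
  have hκpos : κ = ((‖κ‖ : ℝ) : ℂ) := by
    have hcl : IsClosed {z : ℂ | z.im = 0 ∧ 0 ≤ z.re} :=
      (isClosed_eq Complex.continuous_im continuous_const).inter
        (isClosed_le continuous_const Complex.continuous_re)
    have hlim : Filter.Tendsto (fun y : ℕ => (∑ n ∈ Icc 1 (y + 1), f n) / ((y + 1 : ℕ) : ℂ))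
        Filter.atTop (nhds κ) := by
      rw [tendsto_iff_norm_sub_tendsto_zero]
      have h3 : Filter.Tendsto (fun y : ℕ => (4 * (r : ℝ)) / Real.sqrt ((y + 1 : ℕ) : ℝ))
          Filter.atTop (nhds 0) := by
        apply Filter.Tendsto.div_atTop tendsto_const_nhds
        apply Real.tendsto_sqrt_atTop.comp
        exact tendsto_natCast_atTop_atTop.comp (Filter.tendsto_add_atTop_nat 1)
      refine squeeze_zero (fun _ => norm_nonneg _) (fun y => ?_) h3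
      have hy : (0 : ℝ) < ((y + 1 : ℕ) : ℝ) := by positivity
      have hyc : (((y + 1 : ℕ) : ℂ)) ≠ 0 := by exact_mod_cast hy.ne'
      have e1 : (∑ n ∈ Icc 1 (y + 1), f n) / ((y + 1 : ℕ) : ℂ) - κ =
          ((∑ n ∈ Icc 1 (y + 1), f n) - κ * ((y + 1 : ℕ) : ℂ)) / ((y + 1 : ℕ) : ℂ) := by
        rw [sub_div, mul_div_assoc, div_self hyc, mul_one]
      rw [e1, norm_div, Complex.norm_natCast, div_le_iff₀ hy]
      refine (hMf (y + 1)).trans (le_of_eq ?_)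
      have hsq : Real.sqrt ((y + 1 : ℕ) : ℝ) * Real.sqrt ((y + 1 : ℕ) : ℝ) = ((y + 1 : ℕ) : ℝ) :=
        Real.mul_self_sqrt hy.le
      have hsp : 0 < Real.sqrt ((y + 1 : ℕ) : ℝ) := Real.sqrt_pos.mpr hy
      rw [div_mul_eq_mul_div, eq_div_iff hsp.ne', mul_assoc, hsq]
    have hmem : κ ∈ {z : ℂ | z.im = 0 ∧ 0 ≤ z.re} := by
      refine hcl.mem_of_tendsto hlim (Filter.Eventually.of_forall fun y => ?_)
      have e2 : (∑ n ∈ Icc 1 (y + 1), f n) / ((y + 1 : ℕ) : ℂ) =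
          (((∑ n ∈ Icc 1 (y + 1), lam ψ n) / ((y + 1 : ℕ) : ℝ) : ℝ) : ℂ) := by
        rw [Finset.sum_congr rfl (fun n _ => hflam n)]
        push_cast
        rfl
      rw [e2]
      refine ⟨Complex.ofReal_im _, ?_⟩
      rw [Complex.ofReal_re]
      exact div_nonneg (Finset.sum_nonneg fun n _ => lam_nonneg r ψ h2 n) (Nat.cast_nonneg _)
    have h4 : κ = ((κ.re : ℝ) : ℂ) := by
      apply Complex.ext
      · simp
      · simp [hmem.1]
    have h5 : ‖κ‖ = κ.re := by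
      rw [h4, Complex.norm_real, Complex.ofReal_re, Real.norm_of_nonneg hmem.2]
    rw [h5]
    exact h4
  have hκ2 : ‖κ‖ ≤ 2 * r := by
    have := LFunction_bound r ψ hψ 1 (by norm_num)
    simpa using this
  have hβ0 : (β : ℂ) ≠ 1 := by
    intro h
    have : β = 1 := by exact_mod_cast h
    linarith
  have hmain := E1_formula f κ (4 * r) (by positivity) hMf
    (fun s hs => by rw [hfD]; exact DHF_summable ψ _ s hs)
    (fun z => ψ.LFunction z * gl2_Z z)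
    (fun z _ => ((DirichletCharacter.differentiable_LFunction hψ).mul
      gl2_Z_differentiable).analyticAt z)
    (fun z hz => by
      have hz1 : z ≠ 1 := by
        rintro rfl
        simp at hz
      change ψ.LFunction z * gl2_Z z = _
      rw [hfD, DHF_LSeries ψ _ z hz, gl2_Z_eq z hz1, DirichletCharacter.LFunction_modOne_eq]
      ring)
    (β : ℂ) (by rw [Complex.ofReal_re]; exact hβ) (by rw [Complex.ofReal_re]; exact hβ1.le) hβ0
    (by rw [h0, zero_mul]) x hx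
  have e3 : ∑ n ∈ Icc 1 x, f n * (n : ℂ) ^ (-(β : ℂ)) =
      ((∑ m ∈ Icc 1 x, lam ψ m * (m : ℝ) ^ (-β) : ℝ) : ℂ) := by
    rw [Complex.ofReal_sum]
    apply Finset.sum_congr rfl
    intro n _
    rw [hflam, Complex.ofReal_mul, Complex.ofReal_cpow (Nat.cast_nonneg _)]
    push_cast
    rfl
  have e4 : κ * (x : ℂ) ^ (1 - (β : ℂ)) / (1 - (β : ℂ)) =
      ((‖κ‖ * (x : ℝ) ^ (1 - β) / (1 - β) : ℝ) : ℂ) := by
    rw [Complex.ofReal_div, Complex.ofReal_mul, Complex.ofReal_cpow (Nat.cast_nonneg _), ← hκpos]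
    push_cast
    rfl
  rw [e3, e4, ← Complex.ofReal_sub, Complex.norm_real, Complex.norm_real, Complex.ofReal_re,
    Real.norm_eq_abs, Real.norm_of_nonneg (by linarith : (0 : ℝ) ≤ β)] at hmain
  have hpx : 0 ≤ (x : ℝ) ^ (1 / 2 - β) := Real.rpow_nonneg (Nat.cast_nonneg _) _
  have h6 : 100 * (4 * (r : ℝ) + ‖κ‖) * (1 + β) ≤ 2000 * r := by
    have := norm_nonneg κ
    nlinarith
  have h7 := mul_le_mul_of_nonneg_right h6 hpx
  have h8 := (abs_le.mp hmain).1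
  linarith

end Pool.Agent.Lib.H18Q
end

-- from Lib.H51D.DHC
section

/-!
# Chunk DHC: sums of `λ`
-/

open Finset

namespace Pool.Agent.Lib.H68T





/-- Partial summation from `hyperbola` (`H68X/XRH.lean`): with `M(u) = ∑_{n ≤ u} λ(n)`,
`|M(u) - u L(1)| ≤ 4 r √u` (take real parts or norms; `lam_cast`),
`∑_{y < n ≤ N} λ(n)/n = M(N)/N - M(y)/(y+1) + ∑_{y < n < N} M(n)/(n(n+1))
≤ ‖L(1)‖ + 4r/√N + ‖L(1)‖ ∑_{y<n<N} 1/(n+1) + 4 r ∑_{n > y} n^(-3/2)`. -/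
theorem lam_tail (r : ℕ) [NeZero r] (ψ : DirichletCharacter ℂ r) (hψ : ψ ≠ 1) (h2 : ψ ^ 2 = 1)
    (y N : ℕ) (hy : 1 ≤ y) (hyN : y ≤ N) :
    ∑ n ∈ Ioc y N, lam ψ n / n ≤
      ‖ψ.LFunction 1‖ * (2 + Real.log N) + 20 * r / Real.sqrt y := by
  have hr : (0 : ℝ) ≤ r := Nat.cast_nonneg _
  have hL : 0 ≤ ‖ψ.LFunction 1‖ := norm_nonneg _
  set M : ℕ → ℝ := fun u => ∑ n ∈ Icc 1 u, lam ψ n with hM
  have hM0 : ∀ u, 0 ≤ M u := fun u => sum_nonneg fun n _ => lam_nonneg r ψ h2 n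
  have hMs : ∀ u, M (u + 1) = M u + lam ψ (u + 1) := by
    intro u
    simp only [hM]
    rw [sum_Icc_succ_top (by omega)]
  have hMb : ∀ u, M u ≤ u * ‖ψ.LFunction 1‖ + 4 * r * Real.sqrt u := by
    intro u
    have h1 := hyperbola r ψ hψ u
    have h3 : (∑ m ∈ Icc 1 u, ∑ d ∈ m.divisors, ψ (d : ZMod r)) = ((M u : ℝ) : ℂ) := by
      simp only [hM]
      push_cast
      exact sum_congr rfl fun m _ => (lam_cast r ψ h2 m).symm
    rw [h3] at h1
    have h4 : M u ≤ ‖((M u : ℝ) : ℂ)‖ := by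
      rw [Complex.norm_real]
      exact Real.le_norm_self _
    have h5 : ‖((M u : ℝ) : ℂ)‖ ≤ ‖((M u : ℝ) : ℂ) - u * ψ.LFunction 1‖ +
        ‖(u : ℂ) * ψ.LFunction 1‖ := by
      have := norm_add_le (((M u : ℝ) : ℂ) - u * ψ.LFunction 1) ((u : ℂ) * ψ.LFunction 1)
      rwa [sub_add_cancel] at this
    rw [norm_mul, Complex.norm_natCast] at h5
    linarith
  -- summation by parts
  have hab : ∀ K, y ≤ K → ∑ n ∈ Ioc y K, lam ψ n / n =
      M K / (K + 1) - M y / (y + 1) + ∑ n ∈ Ioc y K, M n / (n * (n + 1)) := by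
    intro K hK
    induction K, hK using Nat.le_induction with
    | base => simp
    | succ K hK ih =>
      rw [sum_Ioc_succ_top (by omega), sum_Ioc_succ_top (by omega), ih, hMs K]
      have h1 : (0 : ℝ) < K + 1 := by positivity
      have h2 : (0 : ℝ) < (K : ℝ) + 1 + 1 := by positivity
      push_cast
      field_simp
      ring
  have hsum : ∀ K, y ≤ K → ∑ n ∈ Ioc y K, M n / (n * (n + 1)) ≤
      ‖ψ.LFunction 1‖ * (Real.log (K + 1) - Real.log (y + 1)) +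
        8 * r * (1 / Real.sqrt (y + 1) - 1 / Real.sqrt (K + 1)) := by
    intro K hK
    induction K, hK using Nat.le_induction with
    | base => simp
    | succ K hK ih =>
      rw [sum_Ioc_succ_top (by omega)]
      have hK1 : (0 : ℝ) < (K : ℝ) + 1 := by positivity
      have hK2 : (0 : ℝ) < (K : ℝ) + 1 + 1 := by positivity
      have h1 := hMb (K + 1)
      have h2 : M (K + 1) / (((K + 1 : ℕ) : ℝ) * (((K + 1 : ℕ) : ℝ) + 1)) ≤
          ‖ψ.LFunction 1‖ * (1 / ((K : ℝ) + 1 + 1)) +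
            4 * r * (1 / (Real.sqrt (K + 1) * ((K : ℝ) + 1 + 1))) := by
        rw [div_le_iff₀ (by positivity)]
        refine h1.trans (le_of_eq ?_)
        push_cast
        have h3 : 0 < Real.sqrt ((K : ℝ) + 1) := Real.sqrt_pos.2 hK1
        have h4 : Real.sqrt ((K : ℝ) + 1) * Real.sqrt ((K : ℝ) + 1) = (K : ℝ) + 1 :=
          Real.mul_self_sqrt hK1.le
        field_simp
        linear_combination (4 * (r : ℝ)) * h4
      have h3 : 1 / ((K : ℝ) + 1 + 1) ≤ Real.log (K + 1 + 1) - Real.log (K + 1) := by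
        have h4 := Real.one_sub_inv_le_log_of_pos (x := ((K : ℝ) + 1 + 1) / (K + 1)) (by positivity)
        rw [Real.log_div hK2.ne' hK1.ne'] at h4
        refine le_trans (le_of_eq ?_) h4
        rw [inv_div]
        field_simp
        ring
      have h5 : 1 / (Real.sqrt ((K : ℝ) + 1) * ((K : ℝ) + 1 + 1)) ≤
          2 * (1 / Real.sqrt ((K : ℝ) + 1) - 1 / Real.sqrt ((K : ℝ) + 1 + 1)) := by
        have ha : 0 < Real.sqrt ((K : ℝ) + 1) := Real.sqrt_pos.2 hK1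
        have hb : 0 < Real.sqrt ((K : ℝ) + 1 + 1) := Real.sqrt_pos.2 hK2
        have hab : Real.sqrt ((K : ℝ) + 1) ≤ Real.sqrt ((K : ℝ) + 1 + 1) :=
          Real.sqrt_le_sqrt (by linarith)
        have ha2 : Real.sqrt ((K : ℝ) + 1) ^ 2 = (K : ℝ) + 1 := Real.sq_sqrt hK1.le
        have hb2 : Real.sqrt ((K : ℝ) + 1 + 1) ^ 2 = (K : ℝ) + 1 + 1 := Real.sq_sqrt hK2.le
        set a := Real.sqrt ((K : ℝ) + 1) with ha'
        set b := Real.sqrt ((K : ℝ) + 1 + 1) with hb'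
        have h6 : 2 * (1 / a - 1 / b) = 2 * (b - a) / (a * b) := by
          field_simp
        rw [h6, ← hb2, div_le_div_iff₀ (by positivity) (by positivity)]
        have h7 : (b - a) * (b + a) = 1 := by nlinarith
        have h8 : 1 ≤ 2 * (b - a) * b := by nlinarith
        have h9 : 0 < a * b := by positivity
        nlinarith [mul_le_mul_of_nonneg_left h8 h9.le]
      have h10 : (((K + 1 : ℕ) : ℝ)) = (K : ℝ) + 1 := by push_cast; ring
      rw [h10] at h2 ⊢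
      have h11 := mul_le_mul_of_nonneg_left h3 hL
      have h12 := mul_le_mul_of_nonneg_left h5 (by positivity : (0 : ℝ) ≤ 4 * r)
      linarith
  rw [hab N hyN]
  have hN1 : 1 ≤ N := hy.trans hyN
  have hN0 : (1 : ℝ) ≤ N := by exact_mod_cast hN1
  have hy0 : (1 : ℝ) ≤ y := by exact_mod_cast hy
  have hyN' : (y : ℝ) ≤ N := by exact_mod_cast hyN
  have hsy : 0 < Real.sqrt (y : ℝ) := Real.sqrt_pos.2 (by linarith)
  have hsN : 0 < Real.sqrt (N : ℝ) := Real.sqrt_pos.2 (by linarith)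
  have hsyN : Real.sqrt (y : ℝ) ≤ Real.sqrt N := Real.sqrt_le_sqrt hyN'
  have k1 := hsum N hyN
  have k2 : M N / (N + 1) ≤ ‖ψ.LFunction 1‖ + 4 * r * (1 / Real.sqrt y) := by
    rw [div_le_iff₀ (by positivity)]
    refine (hMb N).trans ?_
    have h3 : Real.sqrt N ≤ 1 / Real.sqrt y * (N + 1) := by
      rw [one_div, inv_mul_eq_div, le_div_iff₀ hsy]
      have h4 : Real.sqrt (N : ℝ) * Real.sqrt N = N := Real.mul_self_sqrt (by positivity)
      nlinarith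
    have h5 := mul_le_mul_of_nonneg_left h3 (by positivity : (0 : ℝ) ≤ 4 * r)
    nlinarith
  have k3 : 0 ≤ M y / (y + 1) := div_nonneg (hM0 y) (by positivity)
  have k4 : Real.log (N + 1) - Real.log (y + 1) ≤ Real.log N := by
    have h3 : Real.log (N + 1) ≤ Real.log (N * (y + 1)) :=
      Real.log_le_log (by positivity) (by nlinarith)
    rw [Real.log_mul (by positivity) (by positivity)] at h3
    linarith
  have k5 : 1 / Real.sqrt ((y : ℝ) + 1) - 1 / Real.sqrt ((N : ℝ) + 1) ≤ 1 / Real.sqrt y := by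
    have h3 : 0 ≤ 1 / Real.sqrt ((N : ℝ) + 1) := by positivity
    have h4 : 1 / Real.sqrt ((y : ℝ) + 1) ≤ 1 / Real.sqrt y :=
      one_div_le_one_div_of_le hsy (Real.sqrt_le_sqrt (by linarith))
    linarith
  have k6 := mul_le_mul_of_nonneg_left k4 hL
  have k7 := mul_le_mul_of_nonneg_left k5 (by positivity : (0 : ℝ) ≤ 8 * r)
  have k8 : 20 * (r : ℝ) / Real.sqrt y = 20 * r * (1 / Real.sqrt y) := by ring
  have k9 : 0 ≤ (r : ℝ) * (1 / Real.sqrt y) := by positivity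
  rw [k8]
  nlinarith


end Pool.Agent.Lib.H68T
end

-- from Lib.H18Q.E2
section

/-!
# Project H18Q, chunk E2: few primes with `ψ(p) = 1`
-/

open Finset

namespace Pool.Agent.Lib.H18Q

open Pool.Agent.Lib.H68T

/-- `(∑_{m ≤ x} λ(m)/m) (∑_{x < p ≤ y, ψ(p) = 1} 2/p) ≤ ∑_{x < n ≤ x y} λ(n)/n`.

Proof. For `m ≤ x < p`, `p` prime, `ψ(p) = 1`: `p ∤ m`, `λ(m p) = 2 λ(m)` (`λ` is multiplicative;
directly: the divisors of `m p` are `d`, `p d` for `d ∣ m`, and `ψ(p d) = ψ(d)`), `x < m p ≤ x y`,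
and `(m, p) ↦ m p` is injective (`m p = m' p'`, `p ≠ p'` gives `p ∣ m' ≤ x < p`). `λ ≥ 0`
(`XRP_nonneg`, or `lam` lemmas in `H51D`). -/
theorem E2_product (r : ℕ) [NeZero r] (ψ : DirichletCharacter ℂ r) (h2 : ψ ^ 2 = 1) (x y : ℕ)
    (hx : 1 ≤ x) :
    (∑ m ∈ Icc 1 x, lam ψ m / m) *
      (∑ p ∈ (Ioc x y).filter (fun p : ℕ => p.Prime ∧ ψ (p : ZMod r) = 1), 2 / (p : ℝ)) ≤
      ∑ n ∈ Ioc x (x * y), lam ψ n / n := by
  classical
  set P := (Ioc x y).filter (fun p : ℕ => p.Prime ∧ ψ (p : ZMod r) = 1) with hP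
  have hPm : ∀ p ∈ P, x < p ∧ p ≤ y ∧ p.Prime ∧ ψ (p : ZMod r) = 1 := by
    intro p hp
    rw [hP, mem_filter, mem_Ioc] at hp
    exact ⟨hp.1.1, hp.1.2, hp.2.1, hp.2.2⟩
  have hval : ∀ q ∈ Icc 1 x ×ˢ P, lam ψ q.1 / q.1 * (2 / (q.2 : ℝ)) = lam ψ (q.1 * q.2) / ((q.1 * q.2 : ℕ) : ℝ) := by
    rintro ⟨m, p⟩ hq
    rw [mem_product, mem_Icc] at hq
    obtain ⟨h1, h3, h4, h5⟩ := hPm p hq.2
    have hm1 := hq.1.1
    have hm2 := hq.1.2
    simp only at h1 h3 h4 h5 hm1 hm2 ⊢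
    have hcop : m.Coprime p := by
      rw [Nat.coprime_comm, Nat.Prime.coprime_iff_not_dvd h4]
      intro hd
      have := Nat.le_of_dvd (by omega) hd
      omega
    have hlp : lam ψ p = 2 := by
      have := dha_lam_pp r ψ h2 p 1 h4
      rw [pow_one, sum_range_succ, sum_range_one, h5] at this
      rw [this]
      norm_num
    have hmul : lam ψ (m * p) = lam ψ m * 2 := by
      rw [dha_lam ψ (m * p), (dha_lam_mult r ψ h2).map_mul_of_coprime hcop, ← dha_lam, ← dha_lam, hlp]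
    rw [hmul]
    push_cast
    rw [mul_comm (m : ℝ) (p : ℝ)]
    have hm0 : (m : ℝ) ≠ 0 := by exact_mod_cast (by omega : m ≠ 0)
    have hp0 : (p : ℝ) ≠ 0 := by exact_mod_cast h4.ne_zero
    field_simp
  have hinj : Set.InjOn (fun q : ℕ × ℕ => q.1 * q.2) (Icc 1 x ×ˢ P : Finset (ℕ × ℕ)) := by
    rintro ⟨m, p⟩ hq ⟨m', p'⟩ hq' h
    rw [mem_coe, mem_product, mem_Icc] at hq hq'
    obtain ⟨h1, h3, h4, h5⟩ := hPm p hq.2
    obtain ⟨h1', h3', h4', h5'⟩ := hPm p' hq'.2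
    simp only at h h1 h1' hq hq' h4 h4'
    have hpp : p = p' := by
      have hd : p ∣ m' * p' := ⟨m, by rw [← h]; ring⟩
      rcases h4.dvd_mul.1 hd with h6 | h6
      · have := Nat.le_of_dvd (by omega) h6
        omega
      · exact (Nat.prime_dvd_prime_iff_eq h4 h4').1 h6
    subst hpp
    have := Nat.eq_of_mul_eq_mul_right h4.pos h
    rw [this]
  rw [sum_mul_sum, ← sum_product', sum_congr rfl hval]
  have himg : ∑ q ∈ Icc 1 x ×ˢ P, lam ψ (q.1 * q.2) / ((q.1 * q.2 : ℕ) : ℝ) =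
      ∑ n ∈ (Icc 1 x ×ˢ P).image (fun q : ℕ × ℕ => q.1 * q.2), lam ψ n / (n : ℝ) :=
    (sum_image (f := fun n : ℕ => lam ψ n / (n : ℝ)) hinj).symm
  rw [himg]
  refine sum_le_sum_of_subset_of_nonneg ?_ fun n _ _ => div_nonneg (lam_nonneg r ψ h2 n) (Nat.cast_nonneg _)
  intro n hn
  rw [mem_image] at hn
  obtain ⟨⟨m, p⟩, hq, rfl⟩ := hn
  rw [mem_product, mem_Icc] at hq
  obtain ⟨h1, h3, h4, h5⟩ := hPm p hq.2
  simp only at h1 h3 hq ⊢
  rw [mem_Ioc]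
  exact ⟨lt_of_lt_of_le h1 (Nat.le_mul_of_pos_left p (by omega)), Nat.mul_le_mul hq.1.2 h3⟩

/-- **Few primes with `ψ(p) = 1`.** Let `β` be a real zero of `L(s, ψ)`, `3/4 ≤ β < 1`,
`η = 1 - β`, `(4000 r)² ≤ x ≤ y`. Then
`∑_{x < p ≤ y, ψ(p) = 1} 1/p ≤ η (2 + log (x y)) + 10 r/√x`.

Proof. `A = ∑_{m ≤ x} λ(m)/m ≥ 1` (term `m = 1`, `λ ≥ 0`), and `m^(-1) = m^(-β) m^(-η) ≥ m^(-β)
x^(-η)`, so by `E1_lower` `A ≥ x^(-η) ∑ λ(m) m^(-β) ≥ ‖L(1)‖/η - 2000 r x^(-1/2) ≥ ‖L(1)‖/η - 1/2`;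
hence `A ≥ (2/3) ‖L(1)‖/η` (if `‖L(1)‖/η ≤ 3/2` from `A ≥ 1`, else from `t - 1/2 ≥ 2 t/3`). By
`E2_product` and `lam_tail` (`H51D/DHC`; `y N` there is `x`, `x y`):
`2 A ∑ 1/p ≤ ‖L(1)‖ (2 + log (x y)) + 20 r/√x`. Divide by `2 A ≥ 2`, `2 A ≥ (4/3) ‖L(1)‖/η`. -/
theorem E2_primes (r : ℕ) [NeZero r] (ψ : DirichletCharacter ℂ r) (hψ : ψ ≠ 1) (h2 : ψ ^ 2 = 1)
    (β : ℝ) (hβ : 3 / 4 ≤ β) (hβ1 : β < 1) (h0 : ψ.LFunction (β : ℂ) = 0) (x y : ℕ)
    (hx : (4000 * r) ^ 2 ≤ x) (hxy : x ≤ y) :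
    ∑ p ∈ (Ioc x y).filter (fun p : ℕ => p.Prime ∧ ψ (p : ZMod r) = 1), 1 / (p : ℝ) ≤
      (1 - β) * (2 + Real.log (x * y : ℕ)) + 10 * r / Real.sqrt x := by
  have hr1 : (1 : ℝ) ≤ r := by exact_mod_cast Nat.one_le_iff_ne_zero.2 (NeZero.ne r)
  have hrn : 1 ≤ r := Nat.one_le_iff_ne_zero.2 (NeZero.ne r)
  have hx1 : 1 ≤ x := le_trans (Nat.one_le_pow _ _ (by omega)) hx
  have hxR : (0 : ℝ) < x := by exact_mod_cast hx1
  have hη : 0 < 1 - β := by linarith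
  obtain ⟨η, hηd⟩ : ∃ η, η = 1 - β := ⟨_, rfl⟩
  obtain ⟨L1, hL1⟩ : ∃ L1, L1 = ‖ψ.LFunction 1‖ := ⟨_, rfl⟩
  have hL0 : 0 ≤ L1 := by rw [hL1]; exact norm_nonneg _
  obtain ⟨A, hA⟩ : ∃ A, A = ∑ m ∈ Icc 1 x, lam ψ m / m := ⟨_, rfl⟩
  obtain ⟨S, hS⟩ : ∃ S, S = ∑ p ∈ (Ioc x y).filter (fun p : ℕ => p.Prime ∧ ψ (p : ZMod r) = 1), 1 / (p : ℝ) := ⟨_, rfl⟩
  have hS0 : 0 ≤ S := by
    rw [hS]
    exact sum_nonneg fun p _ => by positivity
  have h1 := E2_product r ψ h2 x y hx1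
  have h2S : ∑ p ∈ (Ioc x y).filter (fun p : ℕ => p.Prime ∧ ψ (p : ZMod r) = 1), 2 / (p : ℝ) = 2 * S := by
    rw [hS, mul_sum]
    exact sum_congr rfl fun p _ => by ring
  rw [h2S, ← hA] at h1
  have hxy1 : x ≤ x * y := Nat.le_mul_of_pos_right x (by omega)
  have h3 := lam_tail r ψ hψ h2 x (x * y) hx1 hxy1
  rw [← hL1] at h3
  have hA1 : 1 ≤ A := by
    have h4 : lam ψ 1 / ((1 : ℕ) : ℝ) ≤ A := by
      rw [hA]
      exact single_le_sum (f := fun m : ℕ => lam ψ m / (m : ℝ)) (fun m _ => div_nonneg (lam_nonneg r ψ h2 m) (Nat.cast_nonneg _))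
        (mem_Icc.2 ⟨le_rfl, hx1⟩)
    have h5 : lam ψ 1 = 1 := by
      unfold lam
      simp
    rw [h5] at h4
    simpa using h4
  have hsq : 4000 * (r : ℝ) ≤ Real.sqrt x := by
    apply Real.le_sqrt_of_sq_le
    exact_mod_cast hx
  have hAl : L1 / η - 1 / 2 ≤ A := by
    have h4 := E1_lower r ψ hψ h2 β hβ hβ1 h0 x hx1
    rw [← hL1, ← hηd] at h4
    have h5 : (x : ℝ) ^ (-η) * ∑ m ∈ Icc 1 x, lam ψ m * (m : ℝ) ^ (-β) ≤ A := by
      rw [hA, mul_sum]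
      refine sum_le_sum fun m hm => ?_
      rw [mem_Icc] at hm
      have hm0 : (0 : ℝ) < m := by exact_mod_cast (by omega : 0 < m)
      have hmx : (m : ℝ) ≤ x := by exact_mod_cast hm.2
      have h6 : (x : ℝ) ^ (-η) ≤ (m : ℝ) ^ (-η) :=
        Real.rpow_le_rpow_of_nonpos hm0 hmx (by rw [hηd]; linarith)
      have h7 : (m : ℝ) ^ (-η) * (m : ℝ) ^ (-β) = 1 / m := by
        rw [← Real.rpow_add hm0, hηd]
        have : -(1 - β) + -β = -1 := by ring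
        rw [this, Real.rpow_neg_one, one_div]
      calc (x : ℝ) ^ (-η) * (lam ψ m * (m : ℝ) ^ (-β)) ≤ (m : ℝ) ^ (-η) * (lam ψ m * (m : ℝ) ^ (-β)) :=
            mul_le_mul_of_nonneg_right h6 (mul_nonneg (lam_nonneg r ψ h2 m) (Real.rpow_nonneg hm0.le _))
        _ = lam ψ m * ((m : ℝ) ^ (-η) * (m : ℝ) ^ (-β)) := by ring
        _ = lam ψ m / m := by rw [h7]; ring
    have h6 := mul_le_mul_of_nonneg_left h4 (Real.rpow_nonneg hxR.le (-η))
    have h7 : (x : ℝ) ^ (-η) * (L1 * (x : ℝ) ^ η / η - 2000 * r * (x : ℝ) ^ (1 / 2 - β)) =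
        L1 / η - 2000 * r / Real.sqrt x := by
      have e1 : (x : ℝ) ^ (-η) * (x : ℝ) ^ η = 1 := by
        rw [← Real.rpow_add hxR, neg_add_cancel, Real.rpow_zero]
      have e2 : (x : ℝ) ^ (-η) * (x : ℝ) ^ (1 / 2 - β) = 1 / Real.sqrt x := by
        rw [← Real.rpow_add hxR, Real.sqrt_eq_rpow, one_div ((x : ℝ) ^ (1 / 2 : ℝ)), ← Real.rpow_neg hxR.le, hηd]
        congr 1
        ring
      calc (x : ℝ) ^ (-η) * (L1 * (x : ℝ) ^ η / η - 2000 * r * (x : ℝ) ^ (1 / 2 - β)) =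
          L1 * ((x : ℝ) ^ (-η) * (x : ℝ) ^ η) / η - 2000 * r * ((x : ℝ) ^ (-η) * (x : ℝ) ^ (1 / 2 - β)) := by ring
        _ = _ := by rw [e1, e2]; ring
    rw [h7] at h6
    have h8 : 2000 * r / Real.sqrt x ≤ 1 / 2 := by
      rw [div_le_iff₀ (by linarith)]
      linarith
    linarith
  have hη' : 0 < η := by rw [hηd]; exact hη
  have hLA : L1 ≤ 3 / 2 * η * A := by
    have h5 : L1 = L1 / η * η := by field_simp
    by_cases h6 : L1 / η ≤ 3 / 2
    · rw [h5]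
      nlinarith
    · push Not at h6
      rw [h5]
      nlinarith
  obtain ⟨l, hl⟩ : ∃ l, l = Real.log ((x * y : ℕ) : ℝ) := ⟨_, rfl⟩
  rw [← hl] at h3 ⊢
  rw [← hS, ← hηd]
  have hl0 : 0 ≤ l := by
    rw [hl]
    exact Real.log_natCast_nonneg _
  obtain ⟨z, hz⟩ : ∃ z, z = r / Real.sqrt x := ⟨_, rfl⟩
  have hz0 : 0 ≤ z := by
    rw [hz]
    positivity
  have e20 : 20 * r / Real.sqrt x = 20 * z := by rw [hz]; ring
  have e10 : 10 * r / Real.sqrt x = 10 * z := by rw [hz]; ring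
  rw [e20] at h3
  rw [e10]
  have h9 : A * (2 * S) ≤ 3 / 2 * η * A * (2 + l) + 20 * z :=
    (h1.trans h3).trans (add_le_add (mul_le_mul_of_nonneg_right hLA (by linarith)) le_rfl)
  have hA0 : 0 < A := by linarith
  by_contra hcon
  push Not at hcon
  have h10 : A * (2 * (η * (2 + l) + 10 * z)) < A * (2 * S) := by
    apply mul_lt_mul_of_pos_left _ hA0
    linarith
  have h11 : 20 * z ≤ A * (20 * z) := le_mul_of_one_le_left (by positivity) hA1
  have h12 : 0 ≤ η * A * (2 + l) := by positivity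
  nlinarith

end Pool.Agent.Lib.H18Q
end
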