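import Pool.Agent.Lib.H59M.M1.M011
import Pool.Agent.Lib.H59M.M1.M019
import Pool.Agent.Lib.H59M.M1.M020

/-! Merged copies (to shorten the build) of Lib.H68T.INV1, Lib.H68T.INV2, Lib.H68T.INVZ, Lib.H68T.INVA, Lib.H68X.XZ3, Lib.H68X.XZ4. -/

-- from Lib.H68T.INV1
section

/-!
# Chunk INV1; part of INV: bounds for the inverses of L-functions
-/

open Finset Metric

namespace Pool.Agent.Lib.H68T

theorem INV1_re_sum (Z : Multiset ℂ) (s : ℂ) (h : ∀ ρ ∈ Z, ρ.re ≤ s.re) :
    0 ≤ ((Z.map (fun ρ => 1 / (s - ρ))).sum).re := by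
  have h1 : ((Z.map (fun ρ => 1 / (s - ρ))).sum).re = (Z.map (fun ρ => (1 / (s - ρ)).re)).sum := by
    have := map_multiset_sum Complex.reAddGroupHom (Z.map (fun ρ => 1 / (s - ρ)))
    rw [Multiset.map_map] at this
    exact this
  rw [h1]
  refine Multiset.sum_nonneg ?_
  intro x hx
  rw [Multiset.mem_map] at hx
  obtain ⟨ρ, hρ, rfl⟩ := hx
  rw [one_div, Complex.inv_re]
  refine div_nonneg ?_ (Complex.normSq_nonneg _)
  rw [Complex.sub_re]
  linarith [h ρ hρ]

/-- **Local bound** (Titchmarsh 3.9, Lemma γ). Under the hypotheses of `landau`, if all zeros in the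
disc of radius `R/2` have real part at most `Re s₀ - 2 r'` (`0 < 2 r' ≤ R/4`), and
`‖f'/f(s₀)‖ ≤ (M+1)/R`, then `‖f'/f‖ ≤ A (M+1)/R` on the disc of radius `r'` and
`‖f(s₀)‖ ≤ exp (A (M+1) r'/R) ‖f(s)‖` there.

Proof. For `s` in the open disc of radius `2r'`: `Re s > Re s₀ - 2 r' ≥ Re ρ`, so
`Re 1/(s-ρ) > 0` for all zeros and `landau` gives `Re(-f'/f(s)) ≤ A(M+1)/R`;
`Complex.borelCaratheodory` on this disc for `-f'/f`. Then integrate `f'/f` along the segment
(`log|f|` has derivative `Re f'/f`). -/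
theorem local_bound : ∃ A : ℝ, 0 < A ∧ ∀ (f : ℂ → ℂ) (s₀ : ℂ) (R M r' : ℝ), 0 < R → 0 ≤ M →
    0 < r' → 2 * r' ≤ R / 4 → AnalyticOnNhd ℂ f (closedBall s₀ R) → f s₀ ≠ 0 →
    (∀ s ∈ closedBall s₀ R, ‖f s‖ ≤ Real.exp M * ‖f s₀‖) →
    (∀ ρ, ‖ρ - s₀‖ ≤ R / 2 → f ρ = 0 → ρ.re ≤ s₀.re - 2 * r') →
    ‖deriv f s₀ / f s₀‖ ≤ (M + 1) / R →
    ∀ s ∈ closedBall s₀ r', f s ≠ 0 ∧ ‖deriv f s / f s‖ ≤ A * (M + 1) / R ∧
      ‖f s₀‖ ≤ Real.exp (A * (M + 1) * r' / R) * ‖f s‖ := by
  obtain ⟨A₀, hA₀, hlan⟩ := landau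
  refine ⟨2 * A₀ + 3, by positivity, ?_⟩
  intro f s₀ R M r' hR hM hr' hr'R han hf0 hbd hz hlog
  obtain ⟨Z, hZ1, hZ2, hZ3⟩ := hlan f s₀ R M hR hM han hf0 hbd
  have hre_gt : ∀ s : ℂ, ‖s - s₀‖ < 2 * r' → s₀.re - 2 * r' < s.re := by
    intro s hs
    have h1 := Complex.abs_re_le_norm (s - s₀)
    rw [Complex.sub_re] at h1
    have h2 := neg_abs_le (s.re - s₀.re)
    linarith
  have hne : ∀ s : ℂ, ‖s - s₀‖ < 2 * r' → f s ≠ 0 := by
    intro s hs h0
    have h1 := hz s (by linarith) h0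
    linarith [hre_gt s hs]
  have hM1 : 0 < A₀ * (M + 1) / R := by positivity
  have hre : ∀ s : ℂ, ‖s - s₀‖ < 2 * r' → (-(deriv f s / f s)).re ≤ A₀ * (M + 1) / R := by
    intro s hs
    have h1 := hZ3 s (by rw [mem_closedBall, dist_eq_norm]; linarith) (hne s hs)
    have h2 := INV1_re_sum Z s (by
      intro ρ hρ
      have := hz ρ (hZ1 ρ hρ).1 (hZ1 ρ hρ).2
      linarith [hre_gt s hs])
    have h3 := (Complex.abs_re_le_norm (deriv f s / f s - (Z.map (fun ρ => 1 / (s - ρ))).sum)).trans h1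
    rw [Complex.sub_re] at h3
    have h4 := neg_abs_le ((deriv f s / f s).re - ((Z.map (fun ρ => 1 / (s - ρ))).sum).re)
    rw [Complex.neg_re]
    linarith
  -- Borel-Caratheodory on the disc of radius `2 r'`
  have hbc : ∀ s : ℂ, ‖s - s₀‖ ≤ r' → ‖deriv f s / f s‖ ≤ (2 * A₀ + 3) * (M + 1) / R := by
    intro s hs
    set g : ℂ → ℂ := fun w => -(deriv f (s₀ + w) / f (s₀ + w)) with hg
    have hsub : ∀ w ∈ ball (0 : ℂ) (2 * r'), ‖(s₀ + w) - s₀‖ < 2 * r' := by
      intro w hw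
      rw [add_sub_cancel_left]
      rwa [mem_ball_zero_iff] at hw
    have hin : ∀ w ∈ ball (0 : ℂ) (2 * r'), s₀ + w ∈ closedBall s₀ R := by
      intro w hw
      rw [mem_closedBall, dist_eq_norm]
      linarith [hsub w hw]
    have hdiff : DifferentiableOn ℂ g (ball 0 (2 * r')) := by
      intro w hw
      have h1 : DifferentiableAt ℂ f (s₀ + w) := (han _ (hin w hw)).differentiableAt
      have h2 : DifferentiableAt ℂ (deriv f) (s₀ + w) := (han _ (hin w hw)).deriv.differentiableAt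
      have h3 : DifferentiableAt ℂ (fun w : ℂ => s₀ + w) w := by fun_prop
      have h4 : DifferentiableAt ℂ (fun w : ℂ => f (s₀ + w)) w := h1.comp w h3
      have h5 : DifferentiableAt ℂ (fun w : ℂ => deriv f (s₀ + w)) w := h2.comp w h3
      exact ((h5.div h4 (hne _ (hsub w hw))).neg).differentiableWithinAt
    have hmap : Set.MapsTo g (ball 0 (2 * r')) {z | z.re ≤ A₀ * (M + 1) / R} := by
      intro w hw
      exact hre _ (hsub w hw)
    have hw : s - s₀ ∈ ball (0 : ℂ) (2 * r') := by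
      rw [mem_ball_zero_iff]
      linarith
    have h6 := Complex.borelCaratheodory hM1 hdiff hmap (by positivity) hw
    have h7 : g (s - s₀) = -(deriv f s / f s) := by
      simp only [hg, add_sub_cancel]
    have h8 : ‖g 0‖ ≤ (M + 1) / R := by
      simp only [hg, add_zero, norm_neg]
      exact hlog
    rw [h7, norm_neg] at h6
    have h9 : 0 ≤ ‖s - s₀‖ := norm_nonneg _
    have h10 : 0 < 2 * r' - ‖s - s₀‖ := by linarith
    have h11 : 2 * (A₀ * (M + 1) / R) * ‖s - s₀‖ / (2 * r' - ‖s - s₀‖) ≤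
        2 * (A₀ * (M + 1) / R) := by
      rw [div_le_iff₀ h10]
      exact mul_le_mul_of_nonneg_left (by linarith) (by positivity)
    have h12 : ‖g 0‖ * (2 * r' + ‖s - s₀‖) / (2 * r' - ‖s - s₀‖) ≤ 3 * ((M + 1) / R) := by
      rw [div_le_iff₀ h10]
      have h13 : 2 * r' + ‖s - s₀‖ ≤ 3 * (2 * r' - ‖s - s₀‖) := by linarith
      have h14 : 0 ≤ (M + 1) / R := by positivity
      calc ‖g 0‖ * (2 * r' + ‖s - s₀‖) ≤ (M + 1) / R * (3 * (2 * r' - ‖s - s₀‖)) :=
            mul_le_mul h8 h13 (by positivity) h14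
        _ = _ := by ring
    calc ‖deriv f s / f s‖ ≤ _ := h6
      _ ≤ 2 * (A₀ * (M + 1) / R) + 3 * ((M + 1) / R) := add_le_add h11 h12
      _ = _ := by ring
  intro s hs
  rw [mem_closedBall, dist_eq_norm] at hs
  refine ⟨hne s (by linarith), hbc s hs, ?_⟩
  -- Gronwall for `1/f` along the segment
  set B : ℝ := (2 * A₀ + 3) * (M + 1) / R * r' with hB
  have hB0 : 0 ≤ (2 * A₀ + 3) * (M + 1) / R := by positivity
  have hseg : ∀ t ∈ Set.Icc (0 : ℝ) 1, ‖(s₀ + (t : ℂ) * (s - s₀)) - s₀‖ ≤ r' := by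
    intro t ht
    rw [add_sub_cancel_left, norm_mul, Complex.norm_real, Real.norm_of_nonneg ht.1]
    calc t * ‖s - s₀‖ ≤ 1 * r' := mul_le_mul ht.2 hs (norm_nonneg _) zero_le_one
      _ = r' := one_mul _
  set G : ℝ → ℂ := fun t => (f (s₀ + (t : ℂ) * (s - s₀)))⁻¹ with hG
  set G' : ℝ → ℂ := fun t => -(deriv f (s₀ + (t : ℂ) * (s - s₀)) * (s - s₀)) /
    (f (s₀ + (t : ℂ) * (s - s₀))) ^ 2 with hG'
  have hderiv : ∀ t ∈ Set.Icc (0 : ℝ) 1, HasDerivAt G (G' t) t := by
    intro t ht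
    have h1 := hseg t ht
    have h2 : HasDerivAt (fun t : ℝ => s₀ + (t : ℂ) * (s - s₀)) (s - s₀) t := by
      have := ((Complex.ofRealCLM.hasDerivAt (x := t)).mul_const (s - s₀)).const_add s₀
      simpa using this
    have h3 : HasDerivAt f (deriv f (s₀ + (t : ℂ) * (s - s₀))) (s₀ + (t : ℂ) * (s - s₀)) :=
      (han _ (by rw [mem_closedBall, dist_eq_norm]; linarith)).differentiableAt.hasDerivAt
    have h4 : HasDerivAt (fun t : ℝ => f (s₀ + (t : ℂ) * (s - s₀)))
        (deriv f (s₀ + (t : ℂ) * (s - s₀)) * (s - s₀)) t := h3.comp t h2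
    exact h4.inv (hne _ (by linarith))
  have hgr := norm_le_gronwallBound_of_norm_deriv_right_le (f := G) (f' := G') (δ := ‖G 0‖)
    (K := B) (ε := 0) (a := 0) (b := 1)
    (fun t ht => (hderiv t ht).continuousAt.continuousWithinAt)
    (fun t ht => (hderiv t ⟨ht.1, ht.2.le⟩).hasDerivWithinAt) le_rfl (by
      intro t ht
      have h1 := hseg t ⟨ht.1, ht.2.le⟩
      have h2 := hbc _ h1
      have h3 : f (s₀ + (t : ℂ) * (s - s₀)) ≠ 0 := hne _ (by linarith)
      have h4 : G' t = -(deriv f (s₀ + (t : ℂ) * (s - s₀)) / f (s₀ + (t : ℂ) * (s - s₀))) *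
          (s - s₀) * G t := by
        simp only [hG, hG']
        field_simp
      rw [h4, norm_mul, norm_mul, norm_neg, add_zero]
      exact mul_le_mul_of_nonneg_right (mul_le_mul h2 hs (norm_nonneg _) hB0) (norm_nonneg _))
    1 (Set.right_mem_Icc.2 zero_le_one)
  rw [sub_zero, gronwallBound_ε0, mul_one] at hgr
  simp only [hG, Complex.ofReal_one, one_mul, Complex.ofReal_zero, zero_mul, add_zero,
    add_sub_cancel, norm_inv] at hgr
  have h5 : 0 < ‖f s‖ := norm_pos_iff.2 (hne s (by linarith))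
  have h6 : 0 < ‖f s₀‖ := norm_pos_iff.2 hf0
  have h7 : (2 * A₀ + 3) * (M + 1) * r' / R = B := by rw [hB]; ring
  rw [h7]
  rw [inv_le_iff_one_le_mul₀ h5] at hgr
  have h8 := mul_le_mul_of_nonneg_left hgr h6.le
  rw [mul_one] at h8
  calc ‖f s₀‖ ≤ ‖f s₀‖ * (‖f s₀‖⁻¹ * Real.exp B * ‖f s‖) := h8
    _ = Real.exp B * ‖f s‖ := by field_simp

end Pool.Agent.Lib.H68T
end

-- from Lib.H68T.INV2
section

/-!
# Chunk INV2; part of INV: bounds for the inverses of L-functions
-/

open Finset Metric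

namespace Pool.Agent.Lib.H68T

/-- Dirichlet series with coefficients bounded by `1`. -/
theorem INV2_lseries (f : ℕ → ℂ) (hf : ∀ n, ‖f n‖ ≤ 1) (s : ℂ) (hs : 1 < s.re) :
    ‖LSeries f s‖ ≤ 1 + 1 / (s.re - 1) := by
  have hsum : Summable fun n : ℕ => 1 / (n : ℝ) ^ s.re := Real.summable_one_div_nat_rpow.2 hs
  have hle : ∀ n, ‖LSeries.term f s n‖ ≤ 1 / (n : ℝ) ^ s.re := by
    intro n
    rw [LSeries.norm_term_eq]
    split_ifs with h
    · positivity
    · exact div_le_div_of_nonneg_right (hf n) (by positivity)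
  have hsn : Summable fun n => ‖LSeries.term f s n‖ :=
    Summable.of_nonneg_of_le (fun n => norm_nonneg _) hle hsum
  have h1 : ‖LSeries f s‖ ≤ ∑' n : ℕ, 1 / (n : ℝ) ^ s.re := by
    unfold LSeries
    exact (norm_tsum_le_tsum_norm hsn).trans (hsn.tsum_le_tsum hle hsum)
  have h2 : ∑' n : ℕ, 1 / (n : ℝ) ^ s.re = ∑' n : ℕ, 1 / ((n : ℝ) + 1) ^ s.re := by
    rw [hsum.tsum_eq_zero_add]
    have h0 : (1 : ℝ) / ((0 : ℕ) : ℝ) ^ s.re = 0 := by
      rw [Nat.cast_zero, Real.zero_rpow (by linarith), div_zero]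
    rw [h0, zero_add]
    refine tsum_congr fun n => ?_
    push_cast
    rfl
  have h3 := ZetaAsymptotics.zeta_limit_aux1 hs
  have h4 : 0 ≤ ZetaAsymptotics.termTSum s.re := tsum_nonneg fun n => ZetaAsymptotics.term_nonneg _ _
  have h5 : 0 ≤ s.re * ZetaAsymptotics.termTSum s.re := mul_nonneg (by linarith) h4
  rw [h2] at h1
  linarith

theorem INV2_mul (r : ℕ) [NeZero r] (ψ : DirichletCharacter ℂ r) (s : ℂ) (hs : 1 < s.re) :
    ψ.LFunction s * LSeries (fun n => (ArithmeticFunction.moebius n : ℂ) * ψ (n : ZMod r)) s = 1 := by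
  have h := DirichletCharacter.LSeries.mul_mu_eq_one ψ hs
  rw [DirichletCharacter.LFunction_eq_LSeries ψ hs]
  have h2 : ((fun n : ℕ => ψ (n : ZMod r)) * fun n : ℕ => (ArithmeticFunction.moebius n : ℂ)) =
      fun n : ℕ => (ArithmeticFunction.moebius n : ℂ) * ψ (n : ZMod r) := by
    funext n
    simp only [Pi.mul_apply]
    ring
  rw [h2] at h
  exact h

theorem INV2_norm_le (r : ℕ) (ψ : DirichletCharacter ℂ r) (n : ℕ) :
    ‖(ArithmeticFunction.moebius n : ℂ) * ψ (n : ZMod r)‖ ≤ 1 := by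
  rw [norm_mul]
  have h1 : ‖(ArithmeticFunction.moebius n : ℂ)‖ ≤ 1 := by
    rw [Complex.norm_intCast]
    exact_mod_cast ArithmeticFunction.abs_moebius_le_one
  exact mul_le_one₀ h1 (norm_nonneg _) (ψ.norm_le_one _)

/-- The logarithmic derivative to the right of `1`. -/
theorem INV2_logderiv (r : ℕ) [NeZero r] (ψ : DirichletCharacter ℂ r) (s : ℂ) (hs : 1 < s.re) :
    ‖deriv ψ.LFunction s / ψ.LFunction s‖ ≤
      (LSeries (fun n => (ArithmeticFunction.vonMangoldt n : ℂ)) s.re).re := by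
  have h1 := DirichletCharacter.LSeries_twist_vonMangoldt_eq ψ hs
  rw [DirichletCharacter.deriv_LFunction_eq_deriv_LSeries ψ hs,
    DirichletCharacter.LFunction_eq_LSeries ψ hs, ← norm_neg, ← neg_div, ← h1]
  have h2 : ((fun n : ℕ => ψ (n : ZMod r)) * fun n : ℕ => (ArithmeticFunction.vonMangoldt n : ℂ)) =
      fun n : ℕ => (ArithmeticFunction.vonMangoldt n : ℂ) * ψ (n : ZMod r) := by
    funext n
    simp only [Pi.mul_apply]
    ring
  rw [h2]
  exact norm_LSeries_vM_le r ψ s hs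

/-- **Non-trivial characters.** `L = log Q`, `c₁` from `zero_free_complex`, `zero_free_real`, the
hypothesis `Good c Q` (real zeros): all zeros with `|Im| ≤ Q^12 + 1` have `Re < 1 - c₁/L`.
`g = 1/L(·,ψ)` near the rectangle (`g s = LSeries (μψ) s` for `Re s > 1`,
`DirichletCharacter.LSeries` times `LSeries (μ ψ)` is `1`). Bound: for `Re s ≥ 1 + c₁/(3L)`,
`‖g(s)‖ ≤ ζ(Re s) ≤ 1 + 3L/c₁`. Otherwise `local_bound` with `s₀ = 1 + c₁/(3L) + i Im s`, `R = 1/2`,
`r' = 2c₁/(3L)`, `M = C L` (`LFunction_bound`, `‖f(s₀)‖ ≥ 1/ζ(σ₀)`,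
`‖f'/f(s₀)‖ ≤ L_Λ(σ₀) ≤ 3L/c₁ + C`). With `c' = c₁/3`. -/
theorem inv_char (c : ℝ) (hc : 0 < c) : ∃ c' C K : ℝ, 0 < c' ∧ 0 < C ∧ ∀ Q : ℕ, K ≤ Q →
    Good c Q → ∀ (r : ℕ) [NeZero r] (ψ : DirichletCharacter ℂ r), r ≤ Q → ψ.IsPrimitive →
    ψ ≠ 1 → InvStmt c' C Q ⟨r, ψ⟩ := by
  obtain ⟨c₁, K₁, hc₁, hZ1⟩ := zero_free_complex
  obtain ⟨c₂, K₂, hc₂, hZ2⟩ := zero_free_real
  obtain ⟨C₀, hC₀, hvM⟩ := vonMangoldt_le
  obtain ⟨A, hA, hloc⟩ := local_bound
  set b : ℝ := min (min c₁ c₂) (min c 1) with hb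
  have hb0 : 0 < b := by
    rw [hb]
    exact lt_min (lt_min hc₁ hc₂) (lt_min hc one_pos)
  have hb1 : b ≤ c₁ := (min_le_left _ _).trans (min_le_left _ _)
  have hb2 : b ≤ c₂ := (min_le_left _ _).trans (min_le_right _ _)
  have hb3 : b ≤ c := (min_le_right _ _).trans (min_le_left _ _)
  have hb4 : b ≤ 1 := (min_le_right _ _).trans (min_le_right _ _)
  set m : ℝ := 16 + 3 / b with hm
  have hm16 : 16 ≤ m := by
    rw [hm]
    have : 0 ≤ 3 / b := by positivity
    linarith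
  set E : ℝ := 2 * A * (m + 1) with hE
  refine ⟨b / 3, Real.exp E * (1 + 3 / b), K₁ ⊔ K₂ ⊔ Real.exp (32 + C₀ + 3 / b), by positivity,
    by positivity, ?_⟩
  intro Q hQ hgood r _ ψ hrQ hprim hψ
  have hQ1 : K₁ ≤ Q := le_sup_left.trans (le_sup_left.trans hQ)
  have hQ2 : K₂ ≤ Q := le_sup_right.trans (le_sup_left.trans hQ)
  have hQ3 : Real.exp (32 + C₀ + 3 / b) ≤ Q := le_sup_right.trans hQ
  have hQpos : (0 : ℝ) < Q := (Real.exp_pos _).trans_le hQ3
  set L : ℝ := Real.log Q with hL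
  have hLge : 32 + C₀ + 3 / b ≤ L := (Real.le_log_iff_exp_le hQpos).2 hQ3
  have h3b : 0 < 3 / b := by positivity
  have hL32 : 32 ≤ L := by linarith
  have hLpos : 0 < L := by linarith
  have hQexp : (Q : ℝ) = Real.exp L := (Real.exp_log hQpos).symm
  have hQ10 : (10 : ℝ) ≤ Q := by
    rw [hQexp]
    linarith [Real.add_one_le_exp L]
  have hf := DirichletCharacter.differentiable_LFunction hψ
  -- the zeros
  have hzeros : ∀ ρ : ℂ, ψ.LFunction ρ = 0 → |ρ.im| ≤ (Q : ℝ) ^ 12 + 1 → ρ.re < 1 - b / L := by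
    intro ρ hρ him
    by_contra hcon
    push Not at hcon
    have hlt : ρ.re < 1 := by
      by_contra h1
      exact DirichletCharacter.LFunction_ne_zero_of_one_le_re ψ (Or.inl hψ) (not_lt.1 h1) hρ
    by_cases hsq : ψ ^ 2 = 1
    · by_cases him0 : ρ.im = 0
      · have h1 : (ρ.re : ℂ) = ρ := by
          apply Complex.ext
          · simp
          · simp [him0]
        refine hgood r ψ hrQ hprim hψ hsq ρ.re ?_ hlt.le (by rw [h1]; exact hρ)
        have : b / L ≤ c / L := div_le_div_of_nonneg_right hb3 hLpos.le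
        linarith
      · have h1 := hZ2 Q hQ2 r ψ hrQ hψ hsq ρ hρ him0 him
        have : b / L ≤ c₂ / L := div_le_div_of_nonneg_right hb2 hLpos.le
        linarith
    · have h1 := hZ1 Q hQ1 r ψ hrQ hsq ρ hρ him
      have : b / L ≤ c₁ / L := div_le_div_of_nonneg_right hb1 hLpos.le
      linarith
  have hbL : 0 < b / L := by positivity
  have hb3L : b / 3 / L = b / L / 3 := by ring
  have hne : ∀ s ∈ Rg (b / 3) Q, ψ.LFunction s ≠ 0 := by
    rintro s ⟨h1, _, h3⟩ h0
    rw [← hL, hb3L] at h1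
    have := hzeros s h0 (by linarith)
    linarith
  -- the bound to the right of `1`
  have hright : ∀ s : ℂ, 1 < s.re → ‖(ψ.LFunction s)⁻¹‖ ≤ 1 + 1 / (s.re - 1) := by
    intro s hs
    have h1 := INV2_mul r ψ s hs
    have h2 : (ψ.LFunction s)⁻¹ =
        LSeries (fun n => (ArithmeticFunction.moebius n : ℂ) * ψ (n : ZMod r)) s :=
      inv_eq_of_mul_eq_one_right h1
    rw [h2]
    exact INV2_lseries _ (INV2_norm_le r ψ) s hs
  refine ⟨fun s => (ψ.LFunction s)⁻¹, ?_, ?_, ?_⟩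
  · intro s hs
    exact (hf.analyticAt s).inv (hne s hs)
  · intro s hs
    exact inv_eq_of_mul_eq_one_right (INV2_mul r ψ s hs)
  · rintro s hs
    obtain ⟨hs1, hs2, hs3⟩ := id hs
    rw [← hL, hb3L] at hs1
    have hEpos : 0 ≤ E := by
      rw [hE]
      positivity
    have hexpE : 1 ≤ Real.exp E := Real.one_le_exp hEpos
    have hbase : ∀ x : ℝ, b / L / 3 ≤ x → 1 + 1 / x ≤ (1 + 3 / b) * L := by
      intro x hx
      have h1 : 1 / x ≤ 3 / b * L := by
        rw [div_le_iff₀ (by linarith [show 0 < b / L / 3 by positivity])]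
        calc (1 : ℝ) = 3 / b * L * (b / L / 3) := by field_simp
          _ ≤ 3 / b * L * x := mul_le_mul_of_nonneg_left hx (by positivity)
      have h2 : (1 + 3 / b) * L = L + 3 / b * L := by ring
      rw [h2]
      linarith
    rcases le_or_gt (1 + b / L / 3) s.re with hcase | hcase
    · -- right part
      have h1 := hright s (by linarith [show 0 < b / L / 3 by positivity])
      have h2 := hbase (s.re - 1) (by linarith)
      calc ‖(ψ.LFunction s)⁻¹‖ ≤ 1 + 1 / (s.re - 1) := h1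
        _ ≤ (1 + 3 / b) * L := h2
        _ ≤ Real.exp E * ((1 + 3 / b) * L) :=
            le_mul_of_one_le_left (by positivity) hexpE
        _ = _ := by ring
    · -- left part
      have hx3 : 0 < b / L / 3 := by positivity
      set s₀ : ℂ := ⟨1 + b / L / 3, s.im⟩ with hs₀
      have hs₀re : s₀.re = 1 + b / L / 3 := rfl
      have hs₀im : s₀.im = s.im := rfl
      have hbL1 : b / L ≤ 1 / 32 := by
        rw [div_le_div_iff₀ hLpos (by norm_num)]
        linarith
      have hs0gt : 1 < s₀.re := by rw [hs₀re]; linarith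
      have hf0 : ψ.LFunction s₀ ≠ 0 :=
        DirichletCharacter.LFunction_ne_zero_of_one_le_re ψ (Or.inl hψ) hs0gt.le
      have hinv0 : ‖(ψ.LFunction s₀)⁻¹‖ ≤ (1 + 3 / b) * L := by
        have h1 := hright s₀ hs0gt
        refine h1.trans (hbase _ ?_)
        rw [hs₀re]
        linarith
      have hf0pos : 0 < ‖ψ.LFunction s₀‖ := norm_pos_iff.2 hf0
      have hnorms₀ : ‖s₀‖ ≤ 2 + (Q : ℝ) ^ 12 := by
        have h1 := Complex.norm_le_abs_re_add_abs_im s₀
        rw [hs₀re, hs₀im, abs_of_pos (by linarith)] at h1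
        linarith
      have hM0 : 0 ≤ m * L := by positivity
      have hres := hloc ψ.LFunction s₀ (1 / 2) (m * L) (2 * (b / L / 3)) (by norm_num) hM0
        (by positivity) (by linarith) (fun z _ => hf.analyticAt z) hf0 ?_ ?_ ?_ s ?_
      · obtain ⟨_, _, h3⟩ := hres
        have hfs : 0 < ‖ψ.LFunction s‖ := norm_pos_iff.2 (hne s hs)
        have h4 : A * (m * L + 1) * (2 * (b / L / 3)) / (1 / 2) ≤ E := by
          rw [hE]
          have h5 : (m * L + 1) * (b / L) ≤ m + 1 := by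
            have h6 : (m * L + 1) * (b / L) = m * b + b / L := by field_simp
            rw [h6]
            have h12 : m * b ≤ m * 1 := mul_le_mul_of_nonneg_left hb4 (by linarith)
            linarith
          have h7 : A * (m * L + 1) * (2 * (b / L / 3)) / (1 / 2) =
              (4 / 3) * A * ((m * L + 1) * (b / L)) := by ring
          rw [h7]
          have h8 : (4 / 3) * A * ((m * L + 1) * (b / L)) ≤ (4 / 3) * A * (m + 1) :=
            mul_le_mul_of_nonneg_left h5 (by positivity)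
          have h9 : 0 ≤ A * (m + 1) := mul_nonneg hA.le (by linarith)
          have h10 : (4 / 3) * A * (m + 1) = (4 / 3) * (A * (m + 1)) := by ring
          have h11 : 2 * A * (m + 1) = 2 * (A * (m + 1)) := by ring
          rw [h10] at h8
          rw [h11]
          linarith
        have h9 : ‖ψ.LFunction s₀‖ ≤ Real.exp E * ‖ψ.LFunction s‖ :=
          h3.trans (mul_le_mul_of_nonneg_right (Real.exp_le_exp.2 h4) hfs.le)
        rw [norm_inv] at hinv0 ⊢
        have h10 : ‖ψ.LFunction s‖⁻¹ ≤ Real.exp E * ‖ψ.LFunction s₀‖⁻¹ := by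
          rw [inv_le_iff_one_le_mul₀ hfs]
          calc (1 : ℝ) = ‖ψ.LFunction s₀‖ * ‖ψ.LFunction s₀‖⁻¹ := by field_simp
            _ ≤ (Real.exp E * ‖ψ.LFunction s‖) * ‖ψ.LFunction s₀‖⁻¹ :=
                mul_le_mul_of_nonneg_right h9 (by positivity)
            _ = _ := by ring
        calc ‖ψ.LFunction s‖⁻¹ ≤ Real.exp E * ‖ψ.LFunction s₀‖⁻¹ := h10
          _ ≤ Real.exp E * ((1 + 3 / b) * L) := mul_le_mul_of_nonneg_left hinv0 (Real.exp_pos _).le
          _ = _ := by ring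
      · -- growth
        intro z hz
        rw [mem_closedBall, dist_eq_norm] at hz
        have hre : 1 / 2 ≤ z.re := by
          have h1 := Complex.abs_re_le_norm (z - s₀)
          rw [Complex.sub_re, hs₀re] at h1
          have h2 := neg_abs_le (z.re - (1 + b / L / 3))
          linarith
        have h1 := LFunction_bound r ψ hψ z hre
        have h2 : ‖z‖ ≤ ‖s₀‖ + 1 / 2 := by
          have := norm_add_le (z - s₀) s₀
          rw [sub_add_cancel] at this
          linarith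
        have h3 : (r : ℝ) ≤ Q := by exact_mod_cast hrQ
        have hQ12 : (10 : ℝ) ^ 12 ≤ (Q : ℝ) ^ 12 := pow_le_pow_left₀ (by norm_num) hQ10 12
        have h4 : ‖ψ.LFunction z‖ ≤ (Q : ℝ) ^ 14 := by
          calc ‖ψ.LFunction z‖ ≤ 2 * r * ‖z‖ := h1
            _ ≤ 2 * Q * (2 * (Q : ℝ) ^ 12) := by
                refine mul_le_mul (by linarith) ?_ (norm_nonneg _) (by positivity)
                norm_num at hQ12
                linarith
            _ = 4 * (Q : ℝ) ^ 13 := by ring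
            _ ≤ Q * (Q : ℝ) ^ 13 := mul_le_mul_of_nonneg_right (by linarith) (by positivity)
            _ = (Q : ℝ) ^ 14 := by ring
        have h5 : 1 ≤ ((1 + 3 / b) * L) * ‖ψ.LFunction s₀‖ := by
          rw [norm_inv, inv_le_iff_one_le_mul₀ hf0pos] at hinv0
          exact hinv0
        have h6 : (1 + 3 / b) * L ≤ (Q : ℝ) ^ 2 := by
          have h7 : L ≤ Q := by
            rw [hQexp]
            linarith [Real.add_one_le_exp L]
          calc (1 + 3 / b) * L ≤ L * L := mul_le_mul_of_nonneg_right (by linarith) hLpos.le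
            _ ≤ Q * Q := mul_le_mul h7 h7 hLpos.le hQpos.le
            _ = (Q : ℝ) ^ 2 := by ring
        have h8 : (Q : ℝ) ^ 16 ≤ Real.exp (m * L) := by
          rw [hQexp, ← Real.exp_nat_mul]
          refine Real.exp_le_exp.2 ?_
          push_cast
          exact mul_le_mul_of_nonneg_right hm16 hLpos.le
        calc ‖ψ.LFunction z‖ ≤ (Q : ℝ) ^ 14 * 1 := by rw [mul_one]; exact h4
          _ ≤ (Q : ℝ) ^ 14 * ((Q : ℝ) ^ 2 * ‖ψ.LFunction s₀‖) := by
              refine mul_le_mul_of_nonneg_left ?_ (by positivity)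
              exact h5.trans (mul_le_mul_of_nonneg_right h6 hf0pos.le)
          _ = (Q : ℝ) ^ 16 * ‖ψ.LFunction s₀‖ := by ring
          _ ≤ _ := mul_le_mul_of_nonneg_right h8 hf0pos.le
      · -- zeros
        intro ρ hρ hρ0
        have h1 := Complex.abs_im_le_norm (ρ - s₀)
        rw [Complex.sub_im, hs₀im] at h1
        have h2 : |ρ.im| ≤ (Q : ℝ) ^ 12 + 1 := by
          have h3 : |ρ.im| ≤ |ρ.im - s.im| + |s.im| := by
            have := abs_add_le (ρ.im - s.im) s.im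
            rwa [sub_add_cancel] at this
          linarith
        have h4 := hzeros ρ hρ0 h2
        rw [hs₀re]
        linarith
      · -- logarithmic derivative
        have h1 := INV2_logderiv r ψ s₀ hs0gt
        have h2 := hvM s₀.re hs0gt (by rw [hs₀re]; linarith)
        have h3 : 1 / (s₀.re - 1) = 3 / b * L := by
          have h5 : s₀.re - 1 = b / L / 3 := by rw [hs₀re]; ring
          rw [h5]
          field_simp
        rw [h3] at h2
        have h4 : (m * L + 1) / (1 / 2) = 2 * (m * L + 1) := by ring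
        rw [h4]
        calc ‖deriv ψ.LFunction s₀ / ψ.LFunction s₀‖ ≤ _ := h1
          _ ≤ 3 / b * L + C₀ := h2
          _ ≤ 2 * (m * L + 1) := by
              have h6 : 2 * (m * L + 1) = 32 * L + 2 * (3 / b * L) + 2 := by rw [hm]; ring
              have h7 : 0 ≤ 3 / b * L := by positivity
              rw [h6]
              linarith
      · rw [mem_closedBall, dist_eq_norm]
        have h1 : s - s₀ = ((s.re - (1 + b / L / 3) : ℝ) : ℂ) := by
          apply Complex.ext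
          · simp [hs₀re]
          · simp [hs₀im]
        rw [h1, Complex.norm_real, Real.norm_eq_abs, abs_le]
        constructor <;> linarith

end Pool.Agent.Lib.H68T
end

-- from Lib.H68T.INVZ
section

/-!
# Chunk INVZ: the same for zeta
-/

open Finset Metric

namespace Pool.Agent.Lib.H68T

/-- `ζ` is not zero and not small to the right of `1`. -/
theorem INVZ_lower (s : ℂ) (hs : 1 < s.re) : (s.re - 1) / s.re ≤ ‖riemannZeta s‖ := by
  have e1 := lab2_lower 1 1 s hs
  have e2 : LSeries (fun n => (1 : DirichletCharacter ℂ 1) (n : ZMod 1)) s = riemannZeta s := by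
    rw [← DirichletCharacter.LFunction_eq_LSeries (1 : DirichletCharacter ℂ 1) hs,
      DirichletCharacter.LFunction_modOne_eq]
  rwa [e2] at e1

theorem INVZ_vM : ∃ C : ℝ, 0 < C ∧ ∀ s : ℂ, 1 < s.re → s.re ≤ 2 →
    ‖deriv gl2_Z s / gl2_Z s‖ ≤ 2 / (s.re - 1) + C := by
  obtain ⟨C, hC, h⟩ := vonMangoldt_le
  refine ⟨C, hC, fun s hs hs2 => ?_⟩
  have h1 := lab1_Z s hs
  rw [logDeriv_apply] at h1
  have h2 : deriv gl2_Z s / gl2_Z s = 1 / (s - 1) -
      LSeries (fun n => (ArithmeticFunction.vonMangoldt n : ℂ)) s := by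
    rw [h1]
    ring
  rw [h2]
  have h3 := norm_LSeries_vM_le 1 1 s hs
  have h4 : (fun n : ℕ => (ArithmeticFunction.vonMangoldt n : ℂ) *
      (1 : DirichletCharacter ℂ 1) (n : ZMod 1)) =
      fun n : ℕ => (ArithmeticFunction.vonMangoldt n : ℂ) := by
    funext n
    have : (1 : DirichletCharacter ℂ 1) (n : ZMod 1) = 1 := by
      rw [Subsingleton.elim (n : ZMod 1) 1, map_one]
    rw [this, mul_one]
  rw [h4] at h3
  have h5 := h s.re hs hs2
  have h6 : ‖1 / (s - 1)‖ ≤ 1 / (s.re - 1) := by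
    rw [norm_div, norm_one]
    have h7 : s.re - 1 ≤ ‖s - 1‖ := by
      have := Complex.re_le_norm (s - 1)
      simpa using this
    exact one_div_le_one_div_of_le (by linarith) h7
  calc ‖1 / (s - 1) - LSeries (fun n => (ArithmeticFunction.vonMangoldt n : ℂ)) s‖
      ≤ ‖1 / (s - 1)‖ + ‖LSeries (fun n => (ArithmeticFunction.vonMangoldt n : ℂ)) s‖ :=
        norm_sub_le _ _
    _ ≤ 1 / (s.re - 1) + (1 / (s.re - 1) + C) := add_le_add h6 (h3.trans h5)
    _ = 2 / (s.re - 1) + C := by ring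

/-- the growth of `(s-1) ζ(s)` near `s₀` compared with its value at `s₀` -/
theorem INVZ_growth (σ t : ℝ) (h1 : 1 < σ) (h2 : σ ≤ 5 / 4) :
    0 < ‖gl2_Z (σ + t * Complex.I)‖ ∧ ∀ s ∈ closedBall (σ + t * Complex.I : ℂ) (1 / 2),
      ‖gl2_Z s‖ ≤ Real.exp (4 + 2 * Real.log (|t| + 3) + 2 * Real.log (1 / (σ - 1))) *
        ‖gl2_Z (σ + t * Complex.I)‖ := by
  set s₀ : ℂ := σ + t * Complex.I with hs₀
  have hre : s₀.re = σ := by simp [hs₀]
  have him : s₀.im = t := by simp [hs₀]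
  have hs1 : 1 < s₀.re := by rw [hre]; exact h1
  have hne1 : s₀ ≠ 1 := by
    intro h
    rw [h] at hs1
    simp at hs1
  have hσ0 : 0 < σ := by linarith
  have hσ1 : 0 < σ - 1 := by linarith
  have hlow : (σ - 1) * ((σ - 1) / σ) ≤ ‖gl2_Z s₀‖ := by
    have e1 := INVZ_lower s₀ hs1
    rw [hre] at e1
    rw [gl2_Z_eq s₀ hne1, norm_mul]
    refine mul_le_mul ?_ e1 (by positivity) (norm_nonneg _)
    have e3 := Complex.abs_re_le_norm (s₀ - 1)
    rw [Complex.sub_re, hre, Complex.one_re, abs_of_pos hσ1] at e3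
    exact e3
  have hf0 : 0 < ‖gl2_Z s₀‖ := lt_of_lt_of_le (by positivity) hlow
  refine ⟨hf0, fun s hs => ?_⟩
  have ht : 0 ≤ |t| := abs_nonneg t
  set T : ℝ := 16 * ((|t| + 3) * (|t| + 3)) * (σ * (1 / (σ - 1)) * (1 / (σ - 1))) with hT
  have hTpos : 0 < T := by positivity
  have hexp : T ≤ Real.exp (4 + 2 * Real.log (|t| + 3) + 2 * Real.log (1 / (σ - 1))) := by
    rw [← Real.log_le_iff_le_exp hTpos]
    have hlogT : Real.log T = Real.log 16 + (Real.log (|t| + 3) + Real.log (|t| + 3)) +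
        (Real.log σ + Real.log (1 / (σ - 1)) + Real.log (1 / (σ - 1))) := by
      rw [hT, Real.log_mul (by positivity) (by positivity), Real.log_mul (by positivity)
        (by positivity), Real.log_mul (by positivity) (by positivity),
        Real.log_mul (by positivity) (by positivity), Real.log_mul (by positivity) (by positivity)]
    have l1 : Real.log 16 ≤ 3 := by
      have e1 : (16 : ℝ) = 2 ^ 4 := by norm_num
      rw [e1, Real.log_pow]
      have := Real.log_two_lt_d9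
      push_cast
      linarith
    have l2 : Real.log σ ≤ 1 := by
      have := Real.log_le_sub_one_of_pos hσ0
      linarith
    rw [hlogT]
    linarith
  rw [mem_closedBall, dist_eq_norm] at hs
  have e1 : |s.re - σ| ≤ 1 / 2 := by
    have := Complex.abs_re_le_norm (s - s₀)
    rw [Complex.sub_re, hre] at this
    linarith
  have e1' := abs_le.1 e1
  have e2 : |s.im - t| ≤ 1 / 2 := by
    have := Complex.abs_im_le_norm (s - s₀)
    rw [Complex.sub_im, him] at this
    linarith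
  refine (gl2_Z_bound s (by linarith [e1'.1]) (by linarith [e1'.2])).trans ?_
  have e3 : |s.im| ≤ |t| + 1 / 2 := by
    have := abs_sub_abs_le_abs_sub s.im t
    linarith
  have e4 : 4 * (|s.im| + 3) ^ 2 ≤ 16 * ((|t| + 3) * (|t| + 3)) := by
    have e5 : |s.im| + 3 ≤ 2 * (|t| + 3) := by linarith
    have e6 : 0 ≤ |s.im| + 3 := by positivity
    nlinarith
  refine e4.trans ?_
  have e5 : 1 ≤ (σ * (1 / (σ - 1)) * (1 / (σ - 1))) * ‖gl2_Z s₀‖ := by
    have e6 : (σ * (1 / (σ - 1)) * (1 / (σ - 1))) * ((σ - 1) * ((σ - 1) / σ)) = 1 := by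
      field_simp
    exact e6.symm.le.trans (mul_le_mul_of_nonneg_left hlow (by positivity))
  calc 16 * ((|t| + 3) * (|t| + 3)) = 16 * ((|t| + 3) * (|t| + 3)) * 1 := (mul_one _).symm
    _ ≤ 16 * ((|t| + 3) * (|t| + 3)) * ((σ * (1 / (σ - 1)) * (1 / (σ - 1))) * ‖gl2_Z s₀‖) :=
        mul_le_mul_of_nonneg_left e5 (by positivity)
    _ = T * ‖gl2_Z s₀‖ := by rw [hT]; ring
    _ ≤ _ := mul_le_mul_of_nonneg_right hexp hf0.le

/-- Everything for `(s-1) ζ(s)` in the rectangle. -/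
theorem INVZ_core : ∃ c C K : ℝ, 0 < c ∧ 0 < C ∧ ∀ Q : ℕ, K ≤ Q → ∀ s ∈ Rg c Q,
    gl2_Z s ≠ 0 ∧ ‖deriv gl2_Z s / gl2_Z s‖ ≤ C * Real.log Q ∧
      ‖(s - 1) / gl2_Z s‖ ≤ C * Real.log Q := by
  obtain ⟨c₁, K₁, hc₁, hzf⟩ := zero_free_zeta
  obtain ⟨A, hA, hloc⟩ := local_bound
  obtain ⟨Cv, hCv, hvM⟩ := INVZ_vM
  set c₀ : ℝ := min c₁ 1 with hc₀
  have hc₀0 : 0 < c₀ := lt_min hc₁ one_pos
  have hc₀1 : c₀ ≤ 1 := min_le_right _ _
  have hc₀c : c₀ ≤ c₁ := min_le_left _ _
  -- the constants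
  set D : ℝ := 30 + 6 / c₀ + Cv with hD
  have hD0 : 0 < D := by positivity
  have hD30 : 30 ≤ D := by
    have : 0 < 6 / c₀ := by positivity
    rw [hD]
    linarith
  set E : ℝ := Real.exp (A * (D + 1) * 2) with hE
  have hE1 : 0 < E := Real.exp_pos _
  refine ⟨c₀ / 3, D + 2 * A * (D + 1) + 18 * E / c₀, max K₁ (Real.exp 11), by positivity,
    by positivity, ?_⟩
  intro Q hQ s hs
  set L : ℝ := Real.log Q with hL
  have hQe : Real.exp 11 ≤ (Q : ℝ) := (le_max_right _ _).trans hQ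
  have hQ1 : K₁ ≤ (Q : ℝ) := (le_max_left _ _).trans hQ
  have hQpos : (0 : ℝ) < Q := lt_of_lt_of_le (Real.exp_pos _) hQe
  have hL11 : 11 ≤ L := (Real.le_log_iff_exp_le hQpos).2 hQe
  have hQ1' : (1 : ℝ) ≤ Q := (Real.one_le_exp (by norm_num)).trans hQe
  obtain ⟨hs1, hs2, hs3⟩ := hs
  have hs1' : 1 - c₀ / 3 / L ≤ s.re := hs1
  -- zeros
  have hzero : ∀ ρ : ℂ, gl2_Z ρ = 0 → |ρ.im| ≤ (Q : ℝ) ^ 12 + 1 → ρ.re < 1 - c₀ / L := by
    intro ρ hρ hρi
    have h1 := hzf Q hQ1 ρ (lab3_Z_zero ρ hρ) hρi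
    have h2 : c₀ / L ≤ c₁ / L := div_le_div_of_nonneg_right hc₀c (by linarith)
    linarith
  have hne : gl2_Z s ≠ 0 := by
    intro h
    have h1 := hzero s h (by linarith)
    have h2 : c₀ / 3 / L ≤ c₀ / L := by
      apply div_le_div_of_nonneg_right _ (by linarith)
      linarith
    linarith
  have hCfinal0 : 0 ≤ 2 * A * (D + 1) := by positivity
  have hCfinal1 : 0 ≤ 18 * E / c₀ := by positivity
  have hη : 0 < c₀ / 3 / L := by positivity
  have hq : ∀ x : ℝ, x / (c₀ / 3 / L) = 3 * x / c₀ * L := by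
    intro x
    rw [div_div_eq_mul_div, div_div_eq_mul_div]
    ring
  refine ⟨hne, ?_⟩
  by_cases hcase : 1 + c₀ / 3 / L ≤ s.re
  · -- to the right
    have hσ : 1 < s.re := by linarith
    have hne1 : s ≠ 1 := by
      rintro rfl
      simp at hσ
    constructor
    · refine (hvM s hσ hs2).trans ?_
      have h1 : 2 / (s.re - 1) ≤ 2 / (c₀ / 3 / L) :=
        div_le_div_of_nonneg_left (by norm_num) hη (by linarith)
      have h2 : 2 / (c₀ / 3 / L) = 6 / c₀ * L := by
        rw [hq]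
        norm_num
      have h3 : Cv ≤ Cv * L := by nlinarith
      have h4 : 0 ≤ 2 * A * (D + 1) * L := by positivity
      have h5 : 0 ≤ 18 * E / c₀ * L := by positivity
      rw [hD]
      rw [hD] at h4
      nlinarith
    · rw [gl2_Z_eq s hne1]
      have hsub : s - 1 ≠ 0 := sub_ne_zero.2 hne1
      have h0 : (s - 1) / ((s - 1) * riemannZeta s) = (riemannZeta s)⁻¹ := by
        rw [div_mul_eq_div_div, div_self hsub, one_div]
      rw [h0, norm_inv]
      have h1 := INVZ_lower s hσ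
      have h2 : 0 < (s.re - 1) / s.re := div_pos (by linarith) (by linarith)
      have h3 : ‖riemannZeta s‖⁻¹ ≤ ((s.re - 1) / s.re)⁻¹ := inv_anti₀ h2 h1
      refine h3.trans ?_
      rw [inv_div]
      have h4 : s.re / (s.re - 1) ≤ 2 / (c₀ / 3 / L) := by
        apply div_le_div₀ (by norm_num) hs2 hη (by linarith)
      have h5 : 2 / (c₀ / 3 / L) = 6 / c₀ * L := by
        rw [hq]
        norm_num
      rw [h5] at h4
      refine h4.trans ?_
      apply mul_le_mul_of_nonneg_right _ (by linarith)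
      rw [hD] at hCfinal0 ⊢
      linarith
  · -- near the line
    push Not at hcase
    set σ₀ : ℝ := 1 + c₀ / 3 / L with hσ₀
    set t : ℝ := s.im with ht
    set s₀ : ℂ := σ₀ + t * Complex.I with hs₀
    have hre : s₀.re = σ₀ := by simp [hs₀]
    have him : s₀.im = t := by simp [hs₀]
    have hη1 : c₀ / 3 / L ≤ 1 / 33 := by
      rw [div_div, div_le_div_iff₀ (by linarith) (by norm_num)]
      nlinarith
    obtain ⟨hf0, hgrow⟩ := INVZ_growth σ₀ t (by rw [hσ₀]; linarith) (by rw [hσ₀]; linarith)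
    set M : ℝ := D * L with hM
    have hlog1 : Real.log (|t| + 3) ≤ 13 * L := by
      have h1 : |t| + 3 ≤ (Q : ℝ) ^ 13 := by
        have h2 : (3 : ℝ) + 1 ≤ Q := by
          have := Real.add_one_le_exp (11 : ℝ)
          linarith
        have h3 : (1 : ℝ) ≤ (Q : ℝ) ^ 12 := one_le_pow₀ hQ1'
        calc |t| + 3 ≤ (Q : ℝ) ^ 12 + 3 * (Q : ℝ) ^ 12 := by linarith
          _ = 4 * (Q : ℝ) ^ 12 := by ring
          _ ≤ Q * (Q : ℝ) ^ 12 := mul_le_mul_of_nonneg_right (by linarith) (by positivity)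
          _ = (Q : ℝ) ^ 13 := by ring
      have h2 := Real.log_le_log (by positivity) h1
      rw [Real.log_pow] at h2
      push_cast at h2
      exact h2
    have hlog2 : Real.log (1 / (σ₀ - 1)) ≤ 3 / c₀ * L := by
      have h1 : 1 / (σ₀ - 1) = 3 / c₀ * L := by
        rw [hσ₀, add_sub_cancel_left, hq, mul_one]
      rw [h1]
      have h2 : 0 < 3 / c₀ * L := by positivity
      have := Real.log_le_sub_one_of_pos h2
      linarith
    have hMb : 4 + 2 * Real.log (|t| + 3) + 2 * Real.log (1 / (σ₀ - 1)) ≤ M := by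
      rw [hM, hD]
      have e1 : 0 ≤ Cv * L := by positivity
      have e2 : (6 : ℝ) / c₀ * L = 2 * (3 / c₀ * L) := by ring
      nlinarith
    have hM0 : 0 ≤ M := by positivity
    have hder : ‖deriv gl2_Z s₀ / gl2_Z s₀‖ ≤ (M + 1) / (1 / 2) := by
      have h1 := hvM s₀ (by rw [hre, hσ₀]; linarith) (by rw [hre, hσ₀]; linarith)
      refine h1.trans ?_
      have h2 : 2 / (s₀.re - 1) = 6 / c₀ * L := by
        rw [hre, hσ₀, add_sub_cancel_left, hq]
        norm_num
      rw [h2, hM, hD]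
      have e1 : Cv ≤ Cv * L := by nlinarith
      have e3 : 0 ≤ 6 / c₀ * L := by positivity
      have e4 : (30 + 6 / c₀ + Cv) * L = 30 * L + 6 / c₀ * L + Cv * L := by ring
      rw [e4]
      linarith
    set r' : ℝ := 2 * (c₀ / 3 / L) with hr'
    have hsball : s ∈ closedBall s₀ r' := by
      rw [mem_closedBall, dist_eq_norm]
      have h1 : s - s₀ = ((s.re - σ₀ : ℝ) : ℂ) := by
        apply Complex.ext
        · simp [hs₀]
        · simp [hs₀, ht]
      rw [h1, Complex.norm_real, Real.norm_eq_abs, abs_le]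
      constructor
      · rw [hr', hσ₀]
        linarith
      · rw [hr']
        linarith
    have hR : (0 : ℝ) < 1 / 2 := by norm_num
    have hres := hloc gl2_Z s₀ (1 / 2) M r' hR hM0 (by positivity) (by rw [hr']; linarith)
      (fun z _ => gl2_Z_differentiable.analyticAt z) (norm_pos_iff.1 hf0)
      (fun z hz => (hgrow z hz).trans (mul_le_mul_of_nonneg_right (Real.exp_le_exp.2 hMb) hf0.le))
      (by
        intro ρ hρ hρ0
        have h1 : |ρ.im - t| ≤ 1 / 2 / 2 := by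
          have := Complex.abs_im_le_norm (ρ - s₀)
          rw [Complex.sub_im, him] at this
          linarith
        have h2 : |ρ.im| ≤ (Q : ℝ) ^ 12 + 1 := by
          have := abs_sub_abs_le_abs_sub ρ.im t
          linarith
        have h3 := hzero ρ hρ0 h2
        have h4 : c₀ / L = 3 * (c₀ / 3 / L) := by
          field_simp
        rw [hre, hσ₀, hr']
        linarith) hder s hsball
    obtain ⟨-, hd2, hd3⟩ := hres
    have hM1 : M + 1 ≤ (D + 1) * L := by
      rw [hM]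
      nlinarith
    constructor
    · refine hd2.trans ?_
      have e1 : A * (M + 1) / (1 / 2) ≤ 2 * A * (D + 1) * L := by
        have : A * (M + 1) ≤ A * ((D + 1) * L) := mul_le_mul_of_nonneg_left hM1 hA.le
        rw [div_le_iff₀ hR]
        linarith
      refine e1.trans ?_
      apply mul_le_mul_of_nonneg_right _ (by linarith)
      linarith
    · have e1 : A * (M + 1) * r' / (1 / 2) ≤ A * (D + 1) * 2 := by
        have h1 : (M + 1) * r' ≤ (D + 1) := by
          have h2 : (M + 1) * r' ≤ (D + 1) * L * r' :=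
            mul_le_mul_of_nonneg_right hM1 (by positivity)
          have h3 : (D + 1) * L * r' = (D + 1) * (2 * c₀ / 3) := by
            rw [hr']
            field_simp
          rw [h3] at h2
          refine h2.trans ?_
          have h4 : 2 * c₀ / 3 ≤ 1 := by linarith
          nlinarith
        rw [div_le_iff₀ hR]
        have h2 : A * ((M + 1) * r') ≤ A * (D + 1) := mul_le_mul_of_nonneg_left h1 hA.le
        linarith
      have e2 : ‖gl2_Z s₀‖ ≤ E * ‖gl2_Z s‖ :=
        hd3.trans (mul_le_mul_of_nonneg_right (Real.exp_le_exp.2 e1) (norm_nonneg _))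
      have hs₀1 : 1 < s₀.re := by
        rw [hre, hσ₀]
        linarith
      have hne1 : s₀ ≠ 1 := by
        intro h
        rw [h] at hs₀1
        simp at hs₀1
      have e3 : ‖s₀ - 1‖ * ((σ₀ - 1) / σ₀) ≤ ‖gl2_Z s₀‖ := by
        have h1 := INVZ_lower s₀ hs₀1
        rw [hre] at h1
        rw [gl2_Z_eq s₀ hne1, norm_mul]
        exact mul_le_mul_of_nonneg_left h1 (norm_nonneg _)
      have e4 : c₀ / 3 / L ≤ ‖s₀ - 1‖ := by
        have h1 := Complex.re_le_norm (s₀ - 1)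
        rw [Complex.sub_re, hre, Complex.one_re, hσ₀] at h1
        linarith
      have e5 : ‖s - 1‖ ≤ 3 * ‖s₀ - 1‖ := by
        have h1 : ‖s - s₀‖ ≤ r' := by
          rw [← dist_eq_norm]
          exact hsball
        have h2 : ‖s - 1‖ ≤ ‖s - s₀‖ + ‖s₀ - 1‖ := by
          have := norm_add_le (s - s₀) (s₀ - 1)
          rwa [sub_add_sub_cancel] at this
        rw [hr'] at h1
        linarith
      rw [norm_div]
      have hgs : 0 < ‖gl2_Z s‖ := norm_pos_iff.2 hne
      have hs₀n : 0 < ‖s₀ - 1‖ := lt_of_lt_of_le hη e4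
      rw [div_le_iff₀ hgs]
      -- `‖s-1‖ ≤ 3 ‖s₀-1‖ ≤ 3 σ₀/(σ₀-1) ‖gl2_Z s₀‖ ≤ 3 σ₀/(σ₀-1) E ‖gl2_Z s‖`
      have e6 : (σ₀ - 1) / σ₀ = (c₀ / 3 / L) / σ₀ := by
        rw [hσ₀]
        ring
      have hσ₀2 : σ₀ ≤ 2 := by
        rw [hσ₀]
        linarith
      have hσ₀0 : 0 < σ₀ := by
        rw [hσ₀]
        linarith
      have e7 : ‖s₀ - 1‖ ≤ 6 * L / c₀ * ‖gl2_Z s₀‖ := by
        rw [e6] at e3
        have h1 : (c₀ / 3 / L) / 2 ≤ (c₀ / 3 / L) / σ₀ :=
          div_le_div_of_nonneg_left hη.le hσ₀0 hσ₀2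
        have h2 : ‖s₀ - 1‖ * ((c₀ / 3 / L) / 2) ≤ ‖gl2_Z s₀‖ :=
          (mul_le_mul_of_nonneg_left h1 hs₀n.le).trans e3
        have h3 : (c₀ / 3 / L) / 2 = c₀ / (6 * L) := by
          field_simp
          ring
        rw [h3] at h2
        have h4 : ‖s₀ - 1‖ = 6 * L / c₀ * (‖s₀ - 1‖ * (c₀ / (6 * L))) := by
          field_simp
        rw [h4]
        exact mul_le_mul_of_nonneg_left h2 (by positivity)
      calc ‖s - 1‖ ≤ 3 * ‖s₀ - 1‖ := e5
        _ ≤ 3 * (6 * L / c₀ * ‖gl2_Z s₀‖) := by linarith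
        _ ≤ 3 * (6 * L / c₀ * (E * ‖gl2_Z s‖)) := by
            have : 6 * L / c₀ * ‖gl2_Z s₀‖ ≤ 6 * L / c₀ * (E * ‖gl2_Z s‖) :=
              mul_le_mul_of_nonneg_left e2 (by positivity)
            linarith
        _ = 18 * E / c₀ * L * ‖gl2_Z s‖ := by ring
        _ ≤ (D + 2 * A * (D + 1) + 18 * E / c₀) * L * ‖gl2_Z s‖ := by
            apply mul_le_mul_of_nonneg_right _ hgs.le
            apply mul_le_mul_of_nonneg_right _ (by linarith)
            linarith

/-- `f(s) = (s-1) ζ(s)`, `f(1) = 1`, entire; zeros of `f` = zeros of `ζ`. As in `inv_char` with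
`zero_free_zeta`: `local_bound` for `f` at `s₀ = 1 + c₁/(3L) + it`
(`‖f'/f(s₀)‖ ≤ 1/(σ₀-1) + L_Λ(σ₀)`, `‖f(s₀)‖ ≥ (σ₀-1)²/σ₀`). `g = (s-1)/f(s)`; since
`|s - 1| ≤ 4 |s₀ - 1|`, `‖g(s)‖ ≤ 4 ‖s₀-1‖ e^(C'')/‖f(s₀)‖ = 4 e^(C'')/‖ζ(s₀)‖ ≤ C L`. -/
theorem inv_zeta : ∃ c' C K : ℝ, 0 < c' ∧ 0 < C ∧ ∀ Q : ℕ, K ≤ Q → InvStmt c' C Q p0 := by
  obtain ⟨c, C, K, hc, hC, h⟩ := INVZ_core
  refine ⟨c, C, K, hc, hC, fun Q hQ => ⟨fun s => (s - 1) / gl2_Z s, ?_, ?_, ?_⟩⟩
  · intro s hs
    refine AnalyticAt.div (by fun_prop) (gl2_Z_differentiable.analyticAt s) (h Q hQ s hs).1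
  · intro s hs
    have hne1 : s ≠ 1 := by
      rintro rfl
      simp at hs
    have hsub : s - 1 ≠ 0 := sub_ne_zero.2 hne1
    have hz : riemannZeta s ≠ 0 := riemannZeta_ne_zero_of_one_le_re hs.le
    have h1 := DirichletCharacter.LSeries.mul_mu_eq_one (1 : DirichletCharacter ℂ 1) hs
    have e2 : LSeries (fun n => (1 : DirichletCharacter ℂ 1) (n : ZMod 1)) s = riemannZeta s := by
      rw [← DirichletCharacter.LFunction_eq_LSeries (1 : DirichletCharacter ℂ 1) hs,
        DirichletCharacter.LFunction_modOne_eq]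
    rw [e2] at h1
    have e3 : LSeries ((fun n : ℕ => (1 : DirichletCharacter ℂ 1) (n : ZMod 1)) *
        fun n : ℕ => ((ArithmeticFunction.moebius n : ℤ) : ℂ)) s =
        LSeries (fun n => (ArithmeticFunction.moebius n : ℂ) * p0.2 (n : ZMod p0.1)) s := by
      congr 1
      funext n
      rw [Pi.mul_apply, mul_comm]
      rfl
    rw [e3] at h1
    have e4 : (s - 1) / gl2_Z s = (riemannZeta s)⁻¹ := by
      rw [gl2_Z_eq s hne1, div_mul_eq_div_div, div_self hsub, one_div]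
    simp only [e4]
    exact (eq_inv_of_mul_eq_one_right h1).symm
  · intro s hs
    exact (h Q hQ s hs).2.2

/-- `g = -f'/f = -ζ'/ζ - 1/(s-1)`; for `Re s ≥ 1 + c₁/(3L)` it is at most
`L_Λ(Re s) + 1/(Re s - 1)`. -/
theorem zeta_stmt : ∃ c' C K : ℝ, 0 < c' ∧ 0 < C ∧ ∀ Q : ℕ, K ≤ Q → ZetaStmt c' C Q := by
  obtain ⟨c, C, K, hc, hC, h⟩ := INVZ_core
  refine ⟨c, C, K, hc, hC, fun Q hQ => ⟨fun s => -(deriv gl2_Z s / gl2_Z s), ?_, ?_, ?_⟩⟩
  · intro s hs
    have han := gl2_Z_differentiable.analyticAt s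
    exact (AnalyticAt.div han.deriv han (h Q hQ s hs).1).neg
  · intro s hs
    rw [lab1_Z s hs, logDeriv_apply]
    ring
  · intro s hs
    rw [norm_neg]
    exact (h Q hQ s hs).2.1

end Pool.Agent.Lib.H68T
end

-- from Lib.H68T.INVA
section

/-!
# Chunk INVA: assembly of the zero-free region part
-/

namespace Pool.Agent.Lib.H68T

theorem INVA_Rg_mono {c c' : ℝ} (hcc : c' ≤ c) (Q : ℕ) : Rg c' Q ⊆ Rg c Q := by
  rintro s ⟨h1, h2, h3⟩
  have hL : 0 ≤ Real.log Q := Real.log_natCast_nonneg Q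
  refine ⟨?_, h2, h3⟩
  have := div_le_div_of_nonneg_right hcc hL
  linarith

theorem INVA_mono {c c' C C' : ℝ} (hcc : c' ≤ c) (hCC : C ≤ C') {Q : ℕ}
    {p : Σ r : ℕ, DirichletCharacter ℂ r} (h : InvStmt c C Q p) : InvStmt c' C' Q p := by
  obtain ⟨g, h1, h2, h3⟩ := h
  have hL : 0 ≤ Real.log Q := Real.log_natCast_nonneg Q
  exact ⟨g, fun s hs => h1 s (INVA_Rg_mono hcc Q hs), h2, fun s hs =>
    (h3 s (INVA_Rg_mono hcc Q hs)).trans (mul_le_mul_of_nonneg_right hCC hL)⟩

/-- `InvStmt` for all primitive characters of conductor at most `Q`: `inv_char` for `p ≠ p0` (then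
`p.2 ≠ 1` since a primitive trivial character has conductor `1`), `inv_zeta` for `p0`. -/
theorem inv_all (c : ℝ) (hc : 0 < c) : ∃ c' C K : ℝ, 0 < c' ∧ 0 < C ∧ ∀ Q : ℕ, K ≤ Q → Good c Q →
    ∀ p ∈ PC Q, InvStmt c' C Q p := by
  obtain ⟨c₁, C₁, K₁, hc₁, hC₁, h₁⟩ := inv_char c hc
  obtain ⟨c₂, C₂, K₂, hc₂, hC₂, h₂⟩ := inv_zeta
  refine ⟨min c₁ c₂, max C₁ C₂, max K₁ K₂, lt_min hc₁ hc₂, lt_max_of_lt_left hC₁, ?_⟩
  intro Q hQ hG p hp
  obtain ⟨r, ψ⟩ := p
  obtain ⟨hr1, hr2, hprim⟩ := mem_PC.mp hp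
  have hr1' : 1 ≤ r := hr1
  have hne : NeZero r := ⟨by omega⟩
  by_cases hψ : ψ = 1
  · have hr : r = 1 := by
      have h3 : ψ.conductor = r := hprim
      rw [hψ, DirichletCharacter.conductor_one] at h3
      exact h3.symm
    subst hr
    have hp0 : (⟨1, ψ⟩ : Σ r : ℕ, DirichletCharacter ℂ r) = p0 := by
      rw [hψ]
      rfl
    rw [hp0]
    exact INVA_mono (min_le_right _ _) (le_max_right _ _) (h₂ Q ((le_max_right _ _).trans hQ))
  · exact INVA_mono (min_le_left _ _) (le_max_left _ _)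
      (h₁ Q ((le_max_left _ _).trans hQ) hG r ψ hr2 hprim hψ)

theorem zeta_all : ∃ c' C K : ℝ, 0 < c' ∧ 0 < C ∧ ∀ Q : ℕ, K ≤ Q → ZetaStmt c' C Q :=
  zeta_stmt

end Pool.Agent.Lib.H68T
end

-- from Lib.H68X.XZ3
section

/-!
# Chunk XZ3: the exceptional zero is simple and the only one
-/

open Finset Metric

namespace Pool.Agent.Lib.H68T

private theorem XZ3_diff (N : ℕ) [NeZero N] (χ : DirichletCharacter ℂ N) (hχ : χ ≠ 1) (β : ℝ) :
    Differentiable ℂ (dslope χ.LFunction (β : ℂ)) := by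
  rw [← differentiableOn_univ, Complex.differentiableOn_dslope Filter.univ_mem]
  exact (DirichletCharacter.differentiable_LFunction hχ).differentiableOn

private theorem XZ3_mul (N : ℕ) [NeZero N] (χ : DirichletCharacter ℂ N) (β : ℝ)
    (hL : χ.LFunction (β : ℂ) = 0) (s : ℂ) :
    (s - β) * dslope χ.LFunction (β : ℂ) s = χ.LFunction s := by
  have h := sub_smul_dslope χ.LFunction (β : ℂ) s
  rw [hL, sub_zero, smul_eq_mul] at h
  exact h

/-- Growth of `F(s) = L(s,ψ)/(s-β)` (`dslope`, entire since `L(·,ψ)` is): for `1 ≥ |s - β| ≥ 1/4`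
and outside use `F(s) = L(s)/(s-β)` and `LFunction_bound`; inside the disc `|s - β| ≤ 1/4` the
maximum modulus principle (`Complex.norm_le_of_forall_mem_frontier_norm_le` or similar). -/
theorem dslope_bound (N : ℕ) [NeZero N] (χ : DirichletCharacter ℂ N) (hχ : χ ≠ 1) (β : ℝ)
    (hβ : 3 / 4 ≤ β) (hβ1 : β < 1) (hL : χ.LFunction (β : ℂ) = 0) (s : ℂ) (hs : 1 / 2 ≤ s.re) :
    ‖dslope χ.LFunction (β : ℂ) s‖ ≤ 16 * N * (1 + ‖s‖) := by
  have hF := XZ3_diff N χ hχ β
  have hN : (1 : ℝ) ≤ N := by exact_mod_cast NeZero.one_le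
  have hout : ∀ z : ℂ, 1 / 2 ≤ z.re → 1 / 4 ≤ ‖z - β‖ →
      ‖dslope χ.LFunction (β : ℂ) z‖ ≤ 8 * N * ‖z‖ := by
    intro z hz hzb
    have h1 := LFunction_bound N χ hχ z hz
    rw [← XZ3_mul N χ β hL z, norm_mul] at h1
    have h2 : 1 / 4 * ‖dslope χ.LFunction (β : ℂ) z‖ ≤
        ‖z - β‖ * ‖dslope χ.LFunction (β : ℂ) z‖ :=
      mul_le_mul_of_nonneg_right hzb (norm_nonneg _)
    linarith
  rcases le_or_gt (1 / 4) ‖s - β‖ with h | h
  · refine (hout s hs h).trans ?_
    have : 0 ≤ (N : ℝ) * ‖s‖ := by positivity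
    nlinarith
  · have h1 : ‖dslope χ.LFunction (β : ℂ) s‖ ≤ 10 * N := by
      refine Complex.norm_le_of_forall_mem_frontier_norm_le (U := ball (β : ℂ) (1 / 4))
        isBounded_ball hF.diffContOnCl ?_ (subset_closure (by rwa [mem_ball_iff_norm]))
      intro z hz
      rw [frontier_ball _ (by norm_num), mem_sphere_iff_norm] at hz
      have h3 := Complex.abs_re_le_norm (z - β)
      rw [hz, Complex.sub_re, Complex.ofReal_re] at h3
      have h4 := (abs_le.1 h3).1
      have h5 : ‖z‖ ≤ 5 / 4 := by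
        have h6 : ‖z‖ ≤ ‖z - β‖ + ‖(β : ℂ)‖ := by
          calc ‖z‖ = ‖(z - β) + β‖ := by rw [sub_add_cancel]
            _ ≤ _ := norm_add_le _ _
        rw [hz, Complex.norm_real, Real.norm_of_nonneg (by linarith)] at h6
        linarith
      have h6 := hout z (by linarith) hz.ge
      have h7 : (N : ℝ) * ‖z‖ ≤ N * (5 / 4) := mul_le_mul_of_nonneg_left h5 (by linarith)
      linarith
    refine h1.trans ?_
    have : 0 ≤ (N : ℝ) * ‖s‖ := by positivity
    nlinarith


end Pool.Agent.Lib.H68T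
end

-- from Lib.H68X.XZ4
section

/-!
# Chunk XZ4: the logarithmic derivative of the exceptional L-function
-/

open Finset Metric

namespace Pool.Agent.Lib.H68T

theorem XZ4_dslope_diff {f : ℂ → ℂ} (hf : Differentiable ℂ f) (a : ℂ) :
    Differentiable ℂ (dslope f a) := by
  have h1 := (Complex.differentiableOn_dslope (s := Set.univ) (c := a) Filter.univ_mem
    (f := f)).2 hf.differentiableOn
  exact differentiableOn_univ.1 h1

/-- The logarithmic derivative of `f(s)/(s-a)` if `f(a) = 0`. -/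
theorem XZ4_dslope_logderiv {f : ℂ → ℂ} (hf : Differentiable ℂ f) (a s : ℂ) (ha : f a = 0)
    (hs : s ≠ a) (hfs : f s ≠ 0) :
    deriv (dslope f a) s / dslope f a s = deriv f s / f s - 1 / (s - a) := by
  have hsa : s - a ≠ 0 := sub_ne_zero.2 hs
  have hF : ∀ z : ℂ, dslope f a z * (z - a) = f z := by
    intro z
    rcases eq_or_ne z a with h | h
    · rw [h, ha, sub_self, mul_zero]
    · rw [dslope_of_ne _ h, slope_def_field, ha, sub_zero]
      have : z - a ≠ 0 := sub_ne_zero.2 h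
      field_simp
  have hd := XZ4_dslope_diff hf a
  have h1 : deriv f s = deriv (dslope f a) s * (s - a) + dslope f a s := by
    have h2 : f = fun z => dslope f a z * (z - a) := funext fun z => (hF z).symm
    have h3 : HasDerivAt (fun z => dslope f a z * (z - a))
        (deriv (dslope f a) s * (s - a) + dslope f a s * 1) s :=
      (hd s).hasDerivAt.mul ((hasDerivAt_id s).sub_const a)
    rw [mul_one] at h3
    rw [← h2] at h3
    exact h3.deriv
  have hFs : dslope f a s ≠ 0 := by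
    intro h
    have := hF s
    rw [h, zero_mul] at this
    exact hfs this.symm
  rw [h1, ← hF s]
  field_simp
  ring


end Pool.Agent.Lib.H68T
end
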