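import Mathlib
import Pool.Agent.Lib.H59M.M1.M002
import Pool.Agent.Lib.H59M.M1.M003
import Pool.Agent.Lib.H59M.M1.M021

/-! Merged copies (to shorten the build) of Lib.H21T.F1, Lib.HUK.BDefs, Lib.H9U.U1A, Lib.SZW.C1, Lib.H81A.T2, Lib.HUK.A8a, Lib.H21T.G1, Lib.H44W.W1, Lib.H3B.Defs, Lib.H3B.A2, Lib.H21T.Z5A, Lib.H21T.Z7, Lib.HUK.KB0, Lib.HUK.KB3, Lib.HUK.KB1, Lib.HUK.KB2, Lib.HUK.A4, Lib.HUK.A5. -/

-- from Lib.H21T.F1
section

/-!
# Chunk F1 (S): Dirichlet directions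
-/

namespace Pool.Agent.Lib.H21T

open Finset Pool.Agent.SZW

/-- `Real.exists_nat_abs_mul_sub_round_le` gives `k` with `0 < k ≤ S` and `|k ρ - round (k ρ)| ≤ 1 / (S + 1)`. `round (k ρ) ≥ 0` because `k ρ ≥ 0`.
Divide `k` and `round (k ρ)` by their gcd `g ≥ 1`: `|s ρ - t| ≤ 1 / (g (S + 1)) ≤ 1 / S`. -/
theorem f1 (ρ : ℝ) (hρ : 0 ≤ ρ) (S : ℕ) (hS : 1 ≤ S) :
    ∃ s t : ℕ, 1 ≤ s ∧ s ≤ S ∧ Nat.Coprime s t ∧ |(s : ℝ) * ρ - t| ≤ 1 / S := by
  obtain ⟨k, hk0, hkS, hk⟩ := Real.exists_nat_abs_mul_sub_round_le ρ (n := S) (by omega)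
  have hr : 0 ≤ round ((k : ℝ) * ρ) := by
    rw [round_eq]
    apply Int.floor_nonneg.2
    positivity
  obtain ⟨m, hm⟩ := Int.eq_ofNat_of_zero_le hr
  rw [hm] at hk
  have hg : 0 < Nat.gcd k m := Nat.gcd_pos_of_pos_left _ hk0
  have hSr : (1 : ℝ) ≤ S := by exact_mod_cast hS
  refine ⟨k / Nat.gcd k m, m / Nat.gcd k m, ?_, ?_, ?_, ?_⟩
  · exact Nat.div_pos (Nat.le_of_dvd hk0 (Nat.gcd_dvd_left k m)) hg
  · exact (Nat.div_le_self _ _).trans hkS
  · exact Nat.coprime_div_gcd_div_gcd hg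
  · have hg1 : (1 : ℝ) ≤ (Nat.gcd k m : ℕ) := by exact_mod_cast hg
    have hg0 : (0 : ℝ) < (Nat.gcd k m : ℕ) := by linarith
    rw [Nat.cast_div (Nat.gcd_dvd_left k m) hg0.ne', Nat.cast_div (Nat.gcd_dvd_right k m) hg0.ne']
    have he : (k : ℝ) / (Nat.gcd k m : ℕ) * ρ - (m : ℝ) / (Nat.gcd k m : ℕ) = (k * ρ - m) / (Nat.gcd k m : ℕ) := by
      field_simp
    rw [he, abs_div, abs_of_pos hg0]
    have hk' : |(k : ℝ) * ρ - m| ≤ 1 / (S + 1) := by
      have h2 : (((m : ℕ) : ℤ) : ℝ) = (m : ℝ) := by push_cast; rfl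
      rw [← h2]
      exact hk
    calc |(k : ℝ) * ρ - m| / (Nat.gcd k m : ℕ) ≤ |(k : ℝ) * ρ - m| := div_le_self (abs_nonneg _) hg1
      _ ≤ 1 / (S + 1) := hk'
      _ ≤ 1 / S := one_div_le_one_div_of_le (by linarith) (by linarith)

theorem exists_dir (A1 Λ x S : ℕ) (hS : 1 ≤ S) : ∃ s t : ℕ → ℕ, ∀ n, Dir A1 Λ x S n s t := by
  have h : ∀ i : ℕ, ∃ p : ℕ × ℕ, 1 ≤ p.1 ∧ p.1 ≤ S ∧ Nat.Coprime p.1 p.2 ∧ Ap x S (pa A1 Λ i) p.1 p.2 := by
    intro i
    obtain ⟨s, t, h1, h2, h3, h4⟩ := f1 ((x : ℝ) / ((pa A1 Λ i : ℕ) : ℝ) ^ 2) (by positivity) S hS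
    exact ⟨(s, t), h1, h2, h3, h4⟩
  choose p hp using h
  exact ⟨fun i => (p i).1, fun i => (p i).2, fun n => ⟨fun i _ => (hp i).1, fun i _ => (hp i).2.1, fun i _ => (hp i).2.2.1,
    fun i _ => (hp i).2.2.2⟩⟩

end Pool.Agent.Lib.H21T
end

-- from Lib.HUK.BDefs
section

/-!
# Project HUK, module B: replacing a smooth variable by a tiny prime times a smooth variable (definitions)

`PA A` = the primes in `(A, 4A]` (not `(A, 2A]`: Chebyshev of Mathlib is enough), `SA A` = the sum of their reciprocals.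
For `d ≥ 1`: `1 = sml d + ∑_{p e = d} uu p * vv e + eta d`.
-/

open Finset

namespace Pool.Agent.HUK

noncomputable section

/-- The primes in `(A, 4A]`. -/
def PA (A : ℕ) : Finset ℕ := (Ioc A (4 * A)).filter Nat.Prime

/-- The sum of the reciprocals of these primes. -/
def SA (A : ℕ) : ℝ := ∑ p ∈ PA A, 1 / (p : ℝ)

/-- One prime: `1_{pD < dA} (1_{p ∣ d} - 1/p)`. -/
def eprime (A D p d : ℕ) : ℝ := if p * D < d * A then ((if p ∣ d then 1 else 0) - 1 / (p : ℝ)) else 0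

/-- The error `η = ℓ - ν`, supported on `d > D`. -/
def eta (A D d : ℕ) : ℝ := -(1 / SA A) * ∑ p ∈ PA A, eprime A D p d

/-- The smooth cutoff `ℓ`: `0` for `d ≤ D`, `1` for `d > 4 D`. -/
def ell (A D d : ℕ) : ℝ := (1 / SA A) * ∑ p ∈ PA A, if p * D < d * A then 1 / (p : ℝ) else 0

/-- `s = 1 - ℓ`, supported on `d ≤ 4 D`, values in `[0,1]`. -/
def sml (A D d : ℕ) : ℝ := 1 - ell A D d

/-- `u = S⁻¹ 1_P`. -/
def uu (A p : ℕ) : ℝ := if p ∈ PA A then 1 / SA A else 0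

/-- `v(e) = 1` for `e > D / A`. -/
def vv (A D e : ℕ) : ℝ := if D < e * A then 1 else 0

/-- One prime, on the integers, cut to the interval `(lo, hi]`. -/
def gp (A D p : ℕ) (lo hi : ℤ) (d : ℤ) : ℝ :=
  if lo < d ∧ d ≤ hi ∧ (p : ℤ) * D < d * A then ((if (p : ℤ) ∣ d then 1 else 0) - 1 / (p : ℝ)) else 0

/-- `η` on the integers, cut to `(lo, hi]`. -/
def ge (A D : ℕ) (lo hi : ℤ) (d : ℤ) : ℝ := -(1 / SA A) * ∑ p ∈ PA A, gp A D p lo hi d

/-- The shift `∑_{i ∈ w} c_i j_i`. -/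
def sgb {k : ℕ} (c j : Fin k → ℤ) (w : Finset (Fin k)) : ℤ := ∑ i ∈ w, c i * j i

/-- The non-empty subsets of `Fin k`. -/
def NE (k : ℕ) : Finset (Finset (Fin k)) := univ.erase ∅

end

end Pool.Agent.HUK
end

-- from Lib.H9U.U1A
section

/-!
# H9U, chunk U1A (M): Fourier expansion of the indicator function of an interval
-/

open Finset

namespace Pool.Agent.H9U

open Pool.Agent.H44W (ee)

theorem u1a_tel (θ : ℝ) (a : ℤ) (n : ℕ) :
    (1 - ee θ) * ∑ s ∈ Ico a (a + n), ee (θ * s) = ee (θ * a) - ee (θ * (a + n)) := by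
  induction n with
  | zero => simp
  | succ n ih =>
    have h1 : Ico a (a + ((n + 1 : ℕ) : ℤ)) = insert (a + n) (Ico a (a + n)) := by
      ext x
      simp only [mem_insert, mem_Ico]
      push_cast
      omega
    rw [h1, sum_insert (by simp), mul_add, ih]
    have h2 : ee (θ * (a + ((n + 1 : ℕ) : ℝ))) = ee θ * ee (θ * ((a + n : ℤ) : ℝ)) := by
      rw [← Pool.Agent.H44W.ee_add]
      congr 1
      push_cast
      ring
    rw [h2]
    push_cast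
    ring

theorem u1a_norm (θ : ℝ) : ‖1 - ee θ‖ = 2 * |Real.sin (Real.pi * θ)| := by
  have h := Complex.norm_exp_I_mul_ofReal_sub_one (2 * Real.pi * θ)
  have h1 : Complex.I * ((2 * Real.pi * θ : ℝ) : ℂ) = 2 * Real.pi * θ * Complex.I := by
    push_cast; ring
  rw [h1] at h
  rw [norm_sub_rev, ee, h]
  have h2 : 2 * Real.pi * θ / 2 = Real.pi * θ := by ring
  rw [h2, norm_mul, Real.norm_eq_abs, Real.norm_eq_abs, abs_of_pos (by norm_num : (0:ℝ) < 2)]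

theorem u1a_sin {x : ℝ} (h0 : 0 ≤ x) (h1 : x ≤ 1) :
    1 ≤ |Real.sin (Real.pi * x)| * (1 / (2 * x) + 1 / (2 * (1 - x))) ∨ x = 0 ∨ x = 1 := by
  by_cases hx0 : x = 0
  · exact Or.inr (Or.inl hx0)
  by_cases hx1 : x = 1
  · exact Or.inr (Or.inr hx1)
  left
  have hp0 : 0 < x := lt_of_le_of_ne h0 (Ne.symm hx0)
  have hp1 : 0 < 1 - x := by
    have := lt_of_le_of_ne h1 hx1
    linarith
  have hpi := Real.pi_pos
  rcases le_total x (1 / 2) with h | h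
  · have h2 : 2 / Real.pi * (Real.pi * x) ≤ Real.sin (Real.pi * x) :=
      Real.mul_le_sin (by positivity) (by nlinarith)
    have h3 : 2 / Real.pi * (Real.pi * x) = 2 * x := by field_simp
    rw [h3] at h2
    have h4 : 2 * x ≤ |Real.sin (Real.pi * x)| := le_trans h2 (le_abs_self _)
    have h5 : 1 = 2 * x * (1 / (2 * x)) := by field_simp
    have h6 : 0 ≤ 1 / (2 * (1 - x)) := by positivity
    have h7 : 0 ≤ 1 / (2 * x) := by positivity
    calc (1:ℝ) = 2 * x * (1 / (2 * x)) := h5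
      _ ≤ |Real.sin (Real.pi * x)| * (1 / (2 * x)) := mul_le_mul_of_nonneg_right h4 h7
      _ ≤ _ := mul_le_mul_of_nonneg_left (by linarith) (abs_nonneg _)
  · have h2 : 2 / Real.pi * (Real.pi * (1 - x)) ≤ Real.sin (Real.pi * (1 - x)) :=
      Real.mul_le_sin (by positivity) (by nlinarith)
    have h3 : 2 / Real.pi * (Real.pi * (1 - x)) = 2 * (1 - x) := by field_simp
    have h3' : Real.sin (Real.pi * (1 - x)) = Real.sin (Real.pi * x) := by
      rw [← Real.sin_pi_sub]; congr 1; ring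
    rw [h3, h3'] at h2
    have h4 : 2 * (1 - x) ≤ |Real.sin (Real.pi * x)| := le_trans h2 (le_abs_self _)
    have h5 : 1 = 2 * (1 - x) * (1 / (2 * (1 - x))) := by field_simp
    have h6 : 0 ≤ 1 / (2 * (1 - x)) := by positivity
    have h7 : 0 ≤ 1 / (2 * x) := by positivity
    calc (1:ℝ) = 2 * (1 - x) * (1 / (2 * (1 - x))) := h5
      _ ≤ |Real.sin (Real.pi * x)| * (1 / (2 * (1 - x))) := mul_le_mul_of_nonneg_right h4 h6
      _ ≤ _ := mul_le_mul_of_nonneg_left (by linarith) (abs_nonneg _)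

theorem u1a_geo (M j : ℕ) (hj : 0 < j) (hjM : j < M) (a b : ℤ) :
    ‖∑ s ∈ Ico a b, ee (-((j : ℝ) * s / M))‖ ≤ M * (1 / (2 * (j : ℝ)) + 1 / (2 * ((M : ℝ) - j))) := by
  have hM0 : (0:ℝ) < M := by exact_mod_cast lt_trans hj hjM
  have hj0 : (0:ℝ) < j := by exact_mod_cast hj
  have hjM' : (0:ℝ) < (M:ℝ) - j := by
    have : (j:ℝ) < M := by exact_mod_cast hjM
    linarith
  rcases le_total b a with hab | hab
  · rw [Ico_eq_empty (by omega), sum_empty, norm_zero]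
    positivity
  obtain ⟨n, hn⟩ := Int.le.dest hab
  have hθ : ∀ s : ℤ, ee (-((j : ℝ) * s / M)) = ee (-((j:ℝ) / M) * s) := by
    intro s; congr 1; ring
  rw [sum_congr rfl fun s _ => hθ s, ← hn]
  have h1 := congrArg norm (u1a_tel (-((j:ℝ) / M)) a n)
  rw [norm_mul, u1a_norm] at h1
  have h2 : ‖ee (-((j:ℝ) / M) * a) - ee (-((j:ℝ) / M) * (a + n))‖ ≤ 2 := by
    refine le_trans (norm_sub_le _ _) ?_
    rw [Pool.Agent.H44W.norm_ee, Pool.Agent.H44W.norm_ee]; norm_num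
  have h3 : |Real.sin (Real.pi * -((j:ℝ) / M))| = |Real.sin (Real.pi * ((j:ℝ) / M))| := by
    rw [mul_neg, Real.sin_neg, abs_neg]
  rw [h3] at h1
  set S := ‖∑ s ∈ Ico a (a + n), ee (-((j:ℝ) / M) * s)‖ with hS
  have hx1 : (j:ℝ) / M < 1 := by rw [div_lt_one hM0]; linarith
  rcases u1a_sin (x := (j:ℝ) / M) (by positivity) hx1.le with h4 | h4 | h4
  · have h5 : (1 / (2 * ((j:ℝ) / M)) + 1 / (2 * (1 - (j:ℝ) / M))) = M * (1 / (2 * (j : ℝ)) + 1 / (2 * ((M : ℝ) - j))) := by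
      have : 1 - (j:ℝ) / M = ((M:ℝ) - j) / M := by field_simp
      rw [this]
      field_simp
    rw [h5] at h4
    set R := M * (1 / (2 * (j : ℝ)) + 1 / (2 * ((M : ℝ) - j))) with hR
    have hR0 : 0 ≤ R := by positivity
    have hS0 : 0 ≤ S := norm_nonneg _
    have h6 : |Real.sin (Real.pi * ((j:ℝ) / M))| * S ≤ 1 := by linarith
    calc S = 1 * S := (one_mul _).symm
      _ ≤ |Real.sin (Real.pi * ((j:ℝ) / M))| * R * S := mul_le_mul_of_nonneg_right h4 hS0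
      _ = |Real.sin (Real.pi * ((j:ℝ) / M))| * S * R := by ring
      _ ≤ 1 * R := mul_le_mul_of_nonneg_right h6 hR0
      _ = R := one_mul _
  · exfalso
    have : 0 < (j:ℝ) / M := by positivity
    linarith
  · exfalso; linarith

/-- Proof. `c_j = (1/M) ∑_{s ∈ A} ee(-j s/M)`, `A = {0 ≤ s < M, u ≤ s < v}` (an interval `Ico u' v'`). Orthogonality (`ee_orth`): the sum over `j`
is `∑_{s ∈ A} [M ∣ m - s]`, i.e. the indicator of `A` at `m` for `0 ≤ m < M`. Size: `|c_0| ≤ 1`; for `0 < j < M` the geometric sum is at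
most `2/|1 - ee(-j/M)|` and `|1 - ee(x)| = 2 |sin (π x)| ≥ 4 min(j, M-j)/M` (Jordan), so `‖c_j‖ ≤ 1/(2 min(j, M - j))
≤ 1/(2j) + 1/(2(M-j))`; the sum over `0 < j < M` is at most `∑_{0<j<M} 1/j ≤ 1 + log M` (`harmonic_le_one_add_log`). -/
theorem U1A_ind (M : ℕ) (hM : 1 ≤ M) (u v : ℤ) : ∃ c : ℕ → ℂ,
    (∀ m : ℤ, 0 ≤ m → m < M → (if u ≤ m ∧ m < v then (1 : ℂ) else 0) = ∑ j ∈ range M, c j * ee ((j : ℝ) * m / M)) ∧
    ∑ j ∈ range M, ‖c j‖ ≤ 4 * (1 + Real.log M) := by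
  have hM0 : (0:ℝ) < M := by exact_mod_cast hM
  have hMc : (M:ℂ) ≠ 0 := by
    have : (M:ℝ) ≠ 0 := hM0.ne'
    exact_mod_cast this
  set A : Finset ℤ := Ico (max u 0) (min v M) with hA
  refine ⟨fun j => (1 / (M:ℂ)) * ∑ s ∈ A, ee (-((j : ℝ) * s / M)), ?_, ?_⟩
  · intro m hm0 hmM
    have h1 : ∀ j ∈ range M, (1 / (M:ℂ)) * (∑ s ∈ A, ee (-((j : ℝ) * s / M))) * ee ((j : ℝ) * m / M) =
        ∑ s ∈ A, (1 / (M:ℂ)) * ee ((j:ℝ) * ((m - s : ℤ) : ℝ) / M) := by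
      intro j _
      rw [mul_assoc, sum_mul, mul_sum]
      refine sum_congr rfl fun s _ => ?_
      rw [← Pool.Agent.H44W.ee_add]
      congr 2
      push_cast
      ring
    rw [sum_congr rfl h1, sum_comm]
    have h2 : ∀ s ∈ A, ∑ j ∈ range M, (1 / (M:ℂ)) * ee ((j:ℝ) * ((m - s : ℤ) : ℝ) / M) = if s = m then 1 else 0 := by
      intro s hs
      rw [← mul_sum, Pool.Agent.H44W.ee_orth M hM]
      rw [hA, mem_Ico] at hs
      have hs0 : 0 ≤ s := le_trans (le_max_right _ _) hs.1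
      have hs1 : s < M := lt_of_lt_of_le hs.2 (min_le_right _ _)
      by_cases h : s = m
      · rw [if_pos h, if_pos (by rw [h, sub_self]; exact dvd_zero _), one_div, inv_mul_cancel₀ hMc]
      · rw [if_neg h, if_neg, mul_zero]
        intro hd
        apply h
        have h3 : m - s = 0 := Int.eq_zero_of_abs_lt_dvd hd (by rw [abs_lt]; constructor <;> omega)
        omega
    rw [sum_congr rfl h2, sum_ite_eq' A m (fun _ => (1:ℂ))]
    by_cases h : u ≤ m ∧ m < v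
    · rw [if_pos h, if_pos]
      rw [hA, mem_Ico]
      exact ⟨max_le h.1 hm0, lt_min h.2 hmM⟩
    · rw [if_neg h, if_neg]
      rw [hA, mem_Ico]
      intro h3
      exact h ⟨le_trans (le_max_left _ _) h3.1, lt_of_lt_of_le h3.2 (min_le_left _ _)⟩
  · obtain ⟨K, rfl⟩ : ∃ K, M = K + 1 := ⟨M - 1, by omega⟩
    have hlog : 0 ≤ Real.log ((K + 1 : ℕ) : ℝ) := Real.log_nonneg (by exact_mod_cast hM)
    have hnorm : ∀ j : ℕ, ‖(1 / ((K + 1 : ℕ):ℂ)) * ∑ s ∈ A, ee (-((j : ℝ) * s / ((K + 1 : ℕ) : ℝ)))‖ =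
        (1 / ((K + 1 : ℕ) : ℝ)) * ‖∑ s ∈ A, ee (-((j : ℝ) * s / ((K + 1 : ℕ) : ℝ)))‖ := by
      intro j
      rw [norm_mul, norm_div, norm_one, Complex.norm_natCast]
    rw [sum_range_succ']
    have h0 : ‖(1 / ((K + 1 : ℕ):ℂ)) * ∑ s ∈ A, ee (-(((0 : ℕ) : ℝ) * s / ((K + 1 : ℕ) : ℝ)))‖ ≤ 1 := by
      rw [hnorm]
      have h1 : ‖∑ s ∈ A, ee (-(((0 : ℕ) : ℝ) * s / ((K + 1 : ℕ) : ℝ)))‖ ≤ ((K + 1 : ℕ) : ℝ) := by
        refine le_trans (norm_sum_le _ _) ?_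
        rw [sum_congr rfl fun s _ => Pool.Agent.H44W.norm_ee _, sum_const, nsmul_eq_mul, mul_one]
        have h2 : A.card ≤ K + 1 := by
          rw [hA, Int.card_Ico]
          have e1 : (0:ℤ) ≤ max u 0 := le_max_right _ _
          have e2 : min v ((K + 1 : ℕ) : ℤ) ≤ ((K + 1 : ℕ) : ℤ) := min_le_right _ _
          omega
        exact_mod_cast h2
      calc (1 / ((K + 1 : ℕ) : ℝ)) * ‖∑ s ∈ A, ee (-(((0 : ℕ) : ℝ) * s / ((K + 1 : ℕ) : ℝ)))‖
          ≤ (1 / ((K + 1 : ℕ) : ℝ)) * ((K + 1 : ℕ) : ℝ) := mul_le_mul_of_nonneg_left h1 (by positivity)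
        _ = 1 := by rw [one_div, inv_mul_cancel₀ hM0.ne']
    have h1 : ∀ j ∈ range K, ‖(1 / ((K + 1 : ℕ):ℂ)) * ∑ s ∈ A, ee (-(((j + 1 : ℕ) : ℝ) * s / ((K + 1 : ℕ) : ℝ)))‖ ≤
        1 / 2 * (1 / ((j:ℝ) + 1)) + 1 / 2 * (1 / (((K - 1 - j : ℕ) : ℝ) + 1)) := by
      intro j hj
      rw [mem_range] at hj
      rw [hnorm]
      have h2 := u1a_geo (K + 1) (j + 1) (by omega) (by omega) (max u 0) (min v ((K + 1 : ℕ) : ℤ))
      rw [← hA] at h2
      calc (1 / ((K + 1 : ℕ) : ℝ)) * ‖∑ s ∈ A, ee (-(((j + 1 : ℕ) : ℝ) * s / ((K + 1 : ℕ) : ℝ)))‖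
          ≤ (1 / ((K + 1 : ℕ) : ℝ)) * (((K + 1 : ℕ) : ℝ) * (1 / (2 * ((j + 1 : ℕ) : ℝ)) + 1 / (2 * (((K + 1 : ℕ) : ℝ) - ((j + 1 : ℕ) : ℝ))))) :=
            mul_le_mul_of_nonneg_left h2 (by positivity)
        _ = 1 / (2 * ((j + 1 : ℕ) : ℝ)) + 1 / (2 * (((K + 1 : ℕ) : ℝ) - ((j + 1 : ℕ) : ℝ))) := by
            rw [← mul_assoc, one_div, inv_mul_cancel₀ hM0.ne', one_mul]
        _ = _ := by
            have e1 : ((K - 1 - j : ℕ) : ℝ) + 1 = (K:ℝ) - j := by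
              rw [Nat.cast_sub (by omega), Nat.cast_sub (by omega)]
              push_cast; ring
            rw [e1]
            push_cast
            rw [show (K:ℝ) + 1 - ((j:ℝ) + 1) = (K:ℝ) - j by ring, one_div_mul_one_div, one_div_mul_one_div]
    have hharm : ∑ j ∈ range K, 1 / ((j:ℝ) + 1) ≤ 1 + Real.log ((K + 1 : ℕ) : ℝ) := by
      have e1 := harmonic_le_one_add_log K
      have e2 : ((harmonic K : ℚ) : ℝ) = ∑ j ∈ range K, 1 / ((j:ℝ) + 1) := by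
        rw [harmonic]
        push_cast
        exact sum_congr rfl fun j _ => by rw [one_div]
      rw [← e2]
      refine le_trans e1 ?_
      rcases Nat.eq_zero_or_pos K with hK | hK
      · subst hK
        simp
      · have : Real.log K ≤ Real.log ((K + 1 : ℕ) : ℝ) :=
          Real.log_le_log (by exact_mod_cast hK) (by push_cast; linarith)
        linarith
    have hrefl : ∑ j ∈ range K, 1 / (((K - 1 - j : ℕ) : ℝ) + 1) = ∑ j ∈ range K, 1 / ((j:ℝ) + 1) :=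
      sum_range_reflect (fun j => 1 / ((j:ℝ) + 1)) K
    have h3 := sum_le_sum h1
    rw [sum_add_distrib, ← mul_sum, ← mul_sum, hrefl] at h3
    linarith

end Pool.Agent.H9U
end

-- from Lib.SZW.C1
section

/-!
# C1 (S/M): algebra of the phases
-/

set_option autoImplicit false

namespace Pool.Agent.SZW

variable {ι : Type*} [Fintype ι] [DecidableEq ι] {R : Type*} [CommRing R]
  (b : Module.Basis ι ℤ R)

theorem E_add (x y : ι → ℤ) : E b (x + y) = E b x + E b y := by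
  simp only [E, Pi.add_apply, add_smul, Finset.sum_add_distrib]

theorem E_smul (n : ℤ) (x : ι → ℤ) : E b (n • x) = n • E b x := by
  simp only [E, Pi.smul_apply, smul_eq_mul, mul_smul, Finset.smul_sum]

/-- coordinates of one -/
theorem E_repr (r : R) : E b (fun i => b.repr r i) = r := by
  exact b.sum_repr r

/-- an additive map, in coordinates -/
theorem map_E (θ : R →+ ℝ) (r : R) (x : ι → ℤ) :
    θ (r * E b x) = ∑ i, (x i : ℝ) * θ (r * b i) := by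
  rw [E, Finset.mul_sum, map_sum]
  refine Finset.sum_congr rfl fun i _ => ?_
  rw [mul_smul_comm, map_zsmul, zsmul_eq_mul]

/-- the difference of a quadratic phase is affine -/
theorem diff_two (θ : R →+ ℝ) (γ : ι → ℝ) (γ₀ : ℝ) (k : ι → ℤ) :
    ∃ γ' : ℝ, (fun x : ι → ℤ => (θ (E b (x + k) ^ 2) + aff γ γ₀ (x + k)) -
      (θ (E b x ^ 2) + aff γ γ₀ x)) = aff (fun i => θ (2 * E b k * b i)) γ' := by
  refine ⟨θ (E b k ^ 2) + ∑ i, (k i : ℝ) * γ i, ?_⟩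
  funext x
  have h1 : E b (x + k) ^ 2 = 2 * E b k * E b x + E b k ^ 2 + E b x ^ 2 := by
    rw [E_add]; ring
  have h2 : ∑ i, (((x + k) i : ℤ) : ℝ) * γ i = ∑ i, (x i : ℝ) * γ i + ∑ i, (k i : ℝ) * γ i := by
    rw [← Finset.sum_add_distrib]
    refine Finset.sum_congr rfl fun i _ => ?_
    rw [Pi.add_apply]; push_cast; ring
  have h3 := map_E b θ (2 * E b k) x
  simp only [aff]
  rw [h1, map_add, map_add, h2, h3]
  ring


end Pool.Agent.SZW
end

-- from Lib.H81A.T2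
section

/-!
# H81A, chunk T2 (M): boxes with a sub-product in the range
-/

namespace Pool.Agent.Lib.H81A

open Finset ArithmeticFunction

theorem t2_part (A : ℕ → ℝ) {N s r : ℕ} (hA : ∀ a, A a ≠ 0 → 2 ^ s ≤ a ∧ a ≤ 2 ^ (s + r)) {a : ℕ} (ha : 1 ≤ a) (haN : a ≤ N) :
    A a = ∑ t ∈ range (r + 1), (if 2 ^ (s + t) ≤ a ∧ a < 2 ^ (s + t + 1) ∧ a ≤ N then A a else 0) := by
  by_cases h0 : A a = 0
  · rw [h0]
    symm
    exact Finset.sum_eq_zero (fun t _ => by rw [ite_self])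
  · obtain ⟨h1, h2⟩ := hA a h0
    have h3 : s ≤ Nat.log 2 a := (Nat.le_log_iff_pow_le (by norm_num) (by omega)).2 h1
    have h4 : Nat.log 2 a ≤ s + r := by
      have := Nat.log_mono_right (b := 2) h2
      rwa [Nat.log_pow (by norm_num)] at this
    obtain ⟨h5, h6⟩ := (Nat.log_eq_iff (b := 2) (m := Nat.log 2 a) (n := a) (Or.inr ⟨by norm_num, by omega⟩)).1 rfl
    have h7 : s + (Nat.log 2 a - s) = Nat.log 2 a := by omega
    rw [Finset.sum_eq_single (Nat.log 2 a - s)]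
    · rw [if_pos]
      rw [h7]
      exact ⟨h5, h6, haN⟩
    · intro t _ ht
      rw [if_neg]
      rintro ⟨h8, h9, -⟩
      apply ht
      have h10 : Nat.log 2 a = s + t :=
        (Nat.log_eq_iff (Or.inr ⟨by norm_num, by omega⟩)).2 ⟨h8, h9⟩
      omega
    · intro h
      exact absurd (Finset.mem_range.2 (by omega)) h

theorem t2_nonneg {c η : ℝ} {N L u v r : ℕ} {V : ℝ} (par : Par c η N L u v r V) {p : Seminorm ℝ (ℕ → ℝ)} {X : ℝ}
    (h2 : H2 c η N p X) (huv : u ≤ v + r) : 0 ≤ X := by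
  have h := h2 (2 ^ u) 1 par.hc ((pow_le_pow_right₀ (by norm_num) huv).trans par.hv) (le_refl _) (fun _ => 0) (fun _ => 0)
    (fun a => by rw [abs_zero]; exact zero_le_one) (fun a => by rw [abs_zero]; exact zero_le_one)
    (fun a h => absurd rfl h) (fun a h => absurd rfl h)
  exact (apply_nonneg p _).trans h

/-- PROOF. `∏ i, dy (k i) (G i) = A * E`, `A = ∏ i ∈ S`, `E = ∏ i ∈ Sᶜ` (`Finset.prod_mul_prod_compl`). `A` is supported in `[2 ^ s, 2 ^ (s + r)]`, `s = ∑ S` (`supp`; `S.card ≤ r`); on `1 ≤ m ≤ N` (`Loc.congr`) one has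
`(A * E) m = ∑ t ∈ range (r + 1), ∑ l ∈ range L, ∑ x ∈ m.divisorsAntidiagonal, A_t x.1 * E_l x.2`, `A_t a = if 2 ^ (s + t) ≤ a ∧ a < 2 ^ (s + t + 1) ∧ a ≤ N then A a else 0`, `E_l b = if 2 ^ l ≤ b ∧ b < 2 ^ (l + 1) ∧ b ≤ N then E b else 0` (divisors of `m` are in `[1, N]`,
`N < 2 ^ L`). `|A_t| ≤ (V * V) ^ S.card`, `|E_l| ≤ (V * V) ^ (Sᶜ).card` (`bound`, `bd_dy`): divide by these constants (`p` homogeneous) and apply `H2` with `K = 2 ^ (s + t)` (`N ^ c ≤ 2 ^ u ≤ K ≤ 2 ^ (v + r) ≤ N ^ (1 / 2 - η)`), `M = 2 ^ l`. Total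
`(r + 1) L (V * V) ^ (card ι) X ≤ V ^ (2 r + 2) X`; `0 ≤ X` since `H2` holds for `α = β = 0`. (`map_sum_le` for seminorms: `Seminorm` is subadditive, induction, or `map_sum_le_sum`.) -/
theorem type2 {ι : Type} [Fintype ι] [DecidableEq ι] {c η : ℝ} {N L u v r : ℕ} {V : ℝ} (par : Par c η N L u v r V) (hr : Fintype.card ι ≤ r) (p : Seminorm ℝ (ℕ → ℝ)) (hp : Loc N p)
    {X : ℝ} (h2 : H2 c η N p X) (k : ι → ℕ) (G : ι → ArithmeticFunction ℝ) (hG : ∀ i, ∀ n, 1 ≤ n → n ≤ N → |G i n| ≤ V)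
    (S : Finset ι) (hS1 : u ≤ ∑ i ∈ S, k i) (hS2 : ∑ i ∈ S, k i ≤ v) : p (fun m => (∏ i, dy (k i) (G i)) m) ≤ V ^ (2 * r + 2) * X := by
  have hX : 0 ≤ X := t2_nonneg par h2 (by omega)
  have hV0 : 0 < V := lt_of_lt_of_le zero_lt_one par.hV
  obtain ⟨s, hs⟩ : ∃ s, s = ∑ i ∈ S, k i := ⟨_, rfl⟩
  obtain ⟨A, hA⟩ : ∃ A : ArithmeticFunction ℝ, A = ∏ i ∈ S, dy (k i) (G i) := ⟨_, rfl⟩
  obtain ⟨E, hE⟩ : ∃ E : ArithmeticFunction ℝ, E = ∏ i ∈ Sᶜ, dy (k i) (G i) := ⟨_, rfl⟩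
  have hprod : ∏ i, dy (k i) (G i) = A * E := by
    rw [hA, hE, Finset.prod_mul_prod_compl]
  have hScard : S.card ≤ r := (Finset.card_le_univ S).trans hr
  have hsupp : ∀ a, A a ≠ 0 → 2 ^ s ≤ a ∧ a ≤ 2 ^ (s + r) := by
    intro a ha
    rw [hA] at ha
    obtain ⟨h3, h4⟩ := supp S k G ha
    rw [← hs] at h3 h4
    exact ⟨h3, h4.trans (Nat.pow_le_pow_right (by norm_num) (by omega))⟩
  obtain ⟨C1, hC1⟩ : ∃ C1 : ℝ, C1 = (V * V) ^ S.card := ⟨_, rfl⟩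
  obtain ⟨C2, hC2⟩ : ∃ C2 : ℝ, C2 = (V * V) ^ (Sᶜ).card := ⟨_, rfl⟩
  have hC1p : 0 < C1 := by rw [hC1]; positivity
  have hC2p : 0 < C2 := by rw [hC2]; positivity
  have hAb : ∀ n, 1 ≤ n → n ≤ N → |A n| ≤ C1 := by
    intro n h3 h4
    rw [hA, hC1]
    exact bound S _ par.hV par.hV (fun i _ m h5 h6 => bd_dy _ _ (hG i m h5 h6)) par.hVd h3 h4
  have hEb : ∀ n, 1 ≤ n → n ≤ N → |E n| ≤ C2 := by
    intro n h3 h4
    rw [hE, hC2]
    exact bound Sᶜ _ par.hV par.hV (fun i _ m h5 h6 => bd_dy _ _ (hG i m h5 h6)) par.hVd h3 h4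
  let α : ℕ → ℕ → ℝ := fun t a => if 2 ^ (s + t) ≤ a ∧ a < 2 ^ (s + t + 1) ∧ a ≤ N then A a else 0
  let β : ℕ → ℕ → ℝ := fun l a => if 2 ^ l ≤ a ∧ a < 2 ^ (l + 1) ∧ a ≤ N then E a else 0
  have key : p (fun m => (∏ i, dy (k i) (G i)) m) =
      p (∑ t ∈ range (r + 1), ∑ l ∈ range L, fun m => ∑ x ∈ m.divisorsAntidiagonal, α t x.1 * β l x.2) := by
    apply hp.congr
    intro m hm hmN
    rw [hprod, ArithmeticFunction.mul_apply, Finset.sum_apply]
    have e1 : ∀ x ∈ m.divisorsAntidiagonal, A x.1 * E x.2 =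
        ∑ t ∈ range (r + 1), ∑ l ∈ range L, α t x.1 * β l x.2 := by
      intro x hx
      obtain ⟨h3, h4⟩ := Nat.mem_divisorsAntidiagonal.1 hx
      have h5 : 1 ≤ x.1 := by
        rcases Nat.eq_zero_or_pos x.1 with h | h
        · rw [h, zero_mul] at h3
          omega
        · exact h
      have h6 : 1 ≤ x.2 := by
        rcases Nat.eq_zero_or_pos x.2 with h | h
        · rw [h, mul_zero] at h3
          omega
        · exact h
      have h7 : x.1 ≤ N := by nlinarith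
      have h8 : x.2 ≤ N := by nlinarith
      have h9 : A x.1 = ∑ t ∈ range (r + 1), α t x.1 := t2_part (fun a => A a) hsupp h5 h7
      have hL1 : 1 ≤ L := by
        rcases Nat.eq_zero_or_pos L with h | h
        · have := par.hL
          rw [h] at this
          have h10 := par.hN
          omega
        · exact h
      have h10 : E x.2 = ∑ l ∈ range L, β l x.2 := by
        obtain ⟨h13, h14⟩ := (Nat.log_eq_iff (b := 2) (m := Nat.log 2 x.2) (n := x.2)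
          (Or.inr ⟨by norm_num, by omega⟩)).1 rfl
        have h15 : Nat.log 2 x.2 < L := by
          rw [Nat.log_lt_iff_lt_pow (by norm_num) (by omega)]
          exact lt_of_le_of_lt h8 par.hL
        rw [Finset.sum_eq_single (Nat.log 2 x.2)]
        · show E x.2 = if _ then _ else _
          rw [if_pos ⟨h13, h14, h8⟩]
        · intro t _ ht
          show (if _ then _ else _) = (0 : ℝ)
          rw [if_neg]
          rintro ⟨h16, h17, -⟩
          exact ht ((Nat.log_eq_iff (Or.inr ⟨by norm_num, by omega⟩)).2 ⟨h16, h17⟩).symm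
        · intro h
          exact absurd (Finset.mem_range.2 h15) h
      rw [h9, h10, Finset.sum_mul_sum]
    rw [Finset.sum_congr rfl e1, Finset.sum_comm]
    refine Finset.sum_congr rfl (fun t _ => ?_)
    rw [Finset.sum_apply, Finset.sum_comm]
  have hone : ∀ t ∈ range (r + 1), ∀ l ∈ range L,
      p (fun m => ∑ x ∈ m.divisorsAntidiagonal, α t x.1 * β l x.2) ≤ C1 * C2 * X := by
    intro t ht l _
    have ht' := Finset.mem_range.1 ht
    have h3 := h2 (2 ^ (s + t)) (2 ^ l)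
      (par.hc.trans (pow_le_pow_right₀ (by norm_num) (by omega)))
      ((pow_le_pow_right₀ (by norm_num) (by omega)).trans par.hv)
      (one_le_pow₀ (by norm_num)) (fun a => α t a / C1) (fun b => β l b / C2) ?_ ?_ ?_ ?_
    · have e : (fun m : ℕ => ∑ x ∈ m.divisorsAntidiagonal, α t x.1 * β l x.2) =
          (C1 * C2) • (fun m : ℕ => ∑ x ∈ m.divisorsAntidiagonal, α t x.1 / C1 * (β l x.2 / C2)) := by
        funext m
        rw [Pi.smul_apply, smul_eq_mul, Finset.mul_sum]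
        refine Finset.sum_congr rfl (fun x _ => ?_)
        field_simp
      rw [e, map_smul_eq_mul, Real.norm_of_nonneg (mul_pos hC1p hC2p).le]
      exact mul_le_mul_of_nonneg_left h3 (mul_pos hC1p hC2p).le
    · intro a
      rw [abs_div, abs_of_pos hC1p]
      apply div_le_one_of_le₀ _ hC1p.le
      show |if _ then _ else _| ≤ _
      split_ifs with h
      · exact hAb a ((Nat.one_le_two_pow).trans h.1) h.2.2
      · rw [abs_zero]
        exact hC1p.le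
    · intro a
      rw [abs_div, abs_of_pos hC2p]
      apply div_le_one_of_le₀ _ hC2p.le
      show |if _ then _ else _| ≤ _
      split_ifs with h
      · exact hEb a ((Nat.one_le_two_pow).trans h.1) h.2.2
      · rw [abs_zero]
        exact hC2p.le
    · intro a ha
      have h4 : 2 ^ (s + t) ≤ a ∧ a < 2 ^ (s + t + 1) ∧ a ≤ N := by
        by_contra h5
        apply ha
        show (if _ then _ else _) / C1 = 0
        rw [if_neg h5, zero_div]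
      constructor
      · exact_mod_cast h4.1
      · have h5 : (a : ℝ) ≤ 2 ^ (s + t + 1) := by exact_mod_cast h4.2.1.le
        rw [pow_succ] at h5
        linarith
    · intro a ha
      have h4 : 2 ^ l ≤ a ∧ a < 2 ^ (l + 1) ∧ a ≤ N := by
        by_contra h5
        apply ha
        show (if _ then _ else _) / C2 = 0
        rw [if_neg h5, zero_div]
      constructor
      · exact_mod_cast h4.1
      · have h5 : (a : ℝ) ≤ 2 ^ (l + 1) := by exact_mod_cast h4.2.1.le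
        rw [pow_succ] at h5
        linarith
  rw [key]
  have hC : C1 * C2 ≤ V ^ (2 * r) := by
    rw [hC1, hC2, ← pow_add, Finset.card_add_card_compl, ← pow_two, ← pow_mul]
    exact pow_le_pow_right₀ par.hV (by omega)
  calc p (∑ t ∈ range (r + 1), ∑ l ∈ range L, fun m => ∑ x ∈ m.divisorsAntidiagonal, α t x.1 * β l x.2)
      ≤ ∑ t ∈ range (r + 1), p (∑ l ∈ range L, fun m => ∑ x ∈ m.divisorsAntidiagonal, α t x.1 * β l x.2) :=
        Finset.le_sum_of_subadditive p (_root_.map_zero p).le (map_add_le_add p) _ _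
    _ ≤ ∑ t ∈ range (r + 1), ∑ l ∈ range L, p (fun m => ∑ x ∈ m.divisorsAntidiagonal, α t x.1 * β l x.2) :=
        Finset.sum_le_sum (fun t _ => Finset.le_sum_of_subadditive p (_root_.map_zero p).le (map_add_le_add p) _ _)
    _ ≤ ∑ t ∈ range (r + 1), ∑ l ∈ range L, C1 * C2 * X :=
        Finset.sum_le_sum (fun t ht => Finset.sum_le_sum (fun l hl => hone t ht l hl))
    _ = ((r : ℝ) + 1) * L * (C1 * C2 * X) := by
        rw [Finset.sum_const, Finset.sum_const, Finset.card_range, Finset.card_range, nsmul_eq_mul, nsmul_eq_mul]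
        push_cast
        ring
    _ ≤ V * V * (V ^ (2 * r) * X) := by
        have h5 : (L : ℝ) ≤ V := by linarith [par.hVL]
        have h6 := par.hVr
        have h7 : C1 * C2 * X ≤ V ^ (2 * r) * X := mul_le_mul_of_nonneg_right hC hX
        refine mul_le_mul (mul_le_mul h6 h5 (Nat.cast_nonneg _) hV0.le) h7 ?_ (mul_pos hV0 hV0).le
        exact mul_nonneg (mul_pos hC1p hC2p).le hX
    _ = V ^ (2 * r + 2) * X := by ring

end Pool.Agent.Lib.H81A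
end

-- from Lib.HUK.A8a
section

/-!
# Project HUK, A8a (helper37): integer functions of degree at most `d` with a given leading coefficient; `Qf`, `Df` on lines
-/

open Finset

namespace Pool.Agent.HUK

/-- `P` is a polynomial function of degree at most `d` with leading coefficient `c` (coefficient of `k ^ d`). -/
def PF : ℕ → ℤ → (ℤ → ℤ) → Prop
  | 0, c, P => ∀ k, P k = c
  | d + 1, c, P => ∀ h : ℤ, PF d (((d : ℤ) + 1) * h * c) (fun k => P (k + h) - P k)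

theorem pf_congr {d : ℕ} {c c' : ℤ} {P P' : ℤ → ℤ} (hc : c = c') (hP : ∀ k, P k = P' k) (h : PF d c P) : PF d c' P' := by
  have h1 : P = P' := funext hP
  rw [← hc, ← h1]
  exact h

theorem pf_add (d : ℕ) : ∀ (c c' : ℤ) (P P' : ℤ → ℤ), PF d c P → PF d c' P' → PF d (c + c') (fun k => P k + P' k) := by
  induction d with
  | zero =>
    intro c c' P P' h h' k
    change P k + P' k = _
    rw [h k, h' k]
  | succ d ih =>
    intro c c' P P' h h' t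
    refine pf_congr ?_ ?_ (ih _ _ _ _ (h t) (h' t))
    · ring
    · intro k
      ring

theorem pf_smul (d : ℕ) (a : ℤ) : ∀ (c : ℤ) (P : ℤ → ℤ), PF d c P → PF d (a * c) (fun k => a * P k) := by
  induction d with
  | zero =>
    intro c P h k
    change a * P k = _
    rw [h k]
  | succ d ih =>
    intro c P h t
    refine pf_congr ?_ ?_ (ih _ _ (h t))
    · ring
    · intro k
      ring

theorem pf_shift (d : ℕ) (a : ℤ) : ∀ (c : ℤ) (P : ℤ → ℤ), PF d c P → PF d c (fun k => P (k + a)) := by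
  induction d with
  | zero =>
    intro c P h k
    exact h _
  | succ d ih =>
    intro c P h t
    refine pf_congr rfl ?_ (ih _ _ (h t))
    intro k
    simp only [add_right_comm k a t]

theorem pf_mul (n : ℕ) : ∀ (d1 d2 : ℕ), d1 + d2 = n → ∀ (c1 c2 : ℤ) (P Q : ℤ → ℤ), PF d1 c1 P → PF d2 c2 Q →
    PF n (c1 * c2) (fun k => P k * Q k) := by
  induction n with
  | zero =>
    intro d1 d2 hd c1 c2 P Q hP hQ
    obtain rfl : d1 = 0 := by omega
    obtain rfl : d2 = 0 := by omega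
    intro k
    change P k * Q k = _
    rw [hP k, hQ k]
  | succ n ih =>
    intro d1 d2 hd c1 c2 P Q hP hQ
    rcases d1 with _ | a
    · obtain rfl : d2 = n + 1 := by omega
      exact pf_congr rfl (fun k => by rw [hP k]) (pf_smul (n + 1) c1 c2 Q hQ)
    · rcases d2 with _ | b
      · obtain rfl : a = n := by omega
        exact pf_congr (mul_comm _ _) (fun k => by rw [hQ k, mul_comm]) (pf_smul (a + 1) c2 c1 P hP)
      · intro t
        have h1 := ih a (b + 1) (by omega) _ _ _ _ (hP t) (pf_shift (b + 1) t c2 Q hQ)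
        have h2 := ih (a + 1) b (by omega) _ _ _ _ hP (hQ t)
        refine pf_congr ?_ ?_ (pf_add n _ _ _ _ h1 h2)
        · have h3 : (n : ℤ) = a + b + 1 := by
            have : n = a + b + 1 := by omega
            rw [this]
            push_cast
            ring
          rw [h3]
          ring
        · intro k
          ring

theorem pf_lin (a m : ℤ) : PF 1 m (fun k => a + m * k) := by
  intro h k
  simp only [Nat.cast_zero]
  ring

theorem pf_Q (l : List ℤ) : ∀ a m : ℤ, PF (2 ^ l.length) (Qf (List.replicate l.length 1) m)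
    (fun k => Qf (l.map (· + k)) (a + m * k)) := by
  induction l with
  | nil =>
    intro a m
    exact pf_lin a m
  | cons j l ih =>
    intro a m
    have h1 := pf_mul (2 ^ l.length + 2 ^ l.length) _ _ rfl _ _ _ _ (ih a m) (ih (a + j) (m + 1))
    have h2 : 2 ^ (j :: l).length = 2 ^ l.length + 2 ^ l.length := by
      rw [List.length_cons, pow_succ]
      ring
    rw [h2]
    refine pf_congr ?_ ?_ h1
    · rw [List.length_cons, List.replicate_succ]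
      rfl
    · intro k
      rw [List.map_cons]
      change _ = Qf (l.map (· + k)) (a + m * k) * Qf (l.map (· + k)) (a + m * k + (j + k))
      rw [show a + m * k + (j + k) = a + j + (m + 1) * k by ring]

theorem pf_D (l : List ℤ) : ∀ a m : ℤ, PF (2 ^ l.length - 1) (Df (List.replicate l.length 1) m)
    (fun k => Df (l.map (· + k)) (a + m * k)) := by
  induction l with
  | nil =>
    intro a m k
    rfl
  | cons j l ih =>
    intro a m
    have h1 := pf_mul (2 ^ l.length - 1 + 2 ^ l.length) _ _ rfl _ _ _ _ (ih a m) (pf_Q l (a + j) (m + 1))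
    have h2 := pf_mul (2 ^ l.length - 1 + 2 ^ l.length) _ _ rfl _ _ _ _ (ih (a + j) (m + 1)) (pf_Q l a m)
    have h3 := pf_add _ _ _ _ _ h1 (pf_smul _ (-1) _ _ h2)
    have h4 : 2 ^ (j :: l).length - 1 = 2 ^ l.length - 1 + 2 ^ l.length := by
      have h5 := Nat.one_le_two_pow (n := l.length)
      rw [List.length_cons, pow_succ]
      omega
    rw [h4]
    refine pf_congr ?_ ?_ h3
    · rw [List.length_cons, List.replicate_succ]
      change _ = Df (List.replicate l.length 1) m * Qf (List.replicate l.length 1) (m + 1) -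
        Df (List.replicate l.length 1) (m + 1) * Qf (List.replicate l.length 1) m
      ring
    · intro k
      rw [List.map_cons]
      change _ = Df (l.map (· + k)) (a + m * k) * Qf (l.map (· + k)) (a + m * k + (j + k)) -
        Df (l.map (· + k)) (a + m * k + (j + k)) * Qf (l.map (· + k)) (a + m * k)
      rw [show a + m * k + (j + k) = a + j + (m + 1) * k by ring]
      ring

theorem pf_Q_pos (r : ℕ) : ∀ a : ℤ, 0 < a → 0 < Qf (List.replicate r 1) a := by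
  induction r with
  | zero =>
    intro a ha
    exact ha
  | succ r ih =>
    intro a ha
    rw [List.replicate_succ]
    exact mul_pos (ih a ha) (ih (a + 1) (by omega))

theorem pf_D_eq (r : ℕ) : ∀ a : ℤ, Df (List.replicate r 1) a * ∏ i ∈ range (r + 1), (a + i) =
    (r.factorial : ℤ) * Qf (List.replicate r 1) a := by
  induction r with
  | zero =>
    intro a
    rw [zero_add, Finset.prod_range_one]
    simp [Df, Qf]
  | succ r ih =>
    intro a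
    rw [List.replicate_succ]
    change (Df (List.replicate r 1) a * Qf (List.replicate r 1) (a + 1) -
      Df (List.replicate r 1) (a + 1) * Qf (List.replicate r 1) a) * _ =
      _ * (Qf (List.replicate r 1) a * Qf (List.replicate r 1) (a + 1))
    have h1 := ih a
    have h2 := ih (a + 1)
    have h3 : ∏ i ∈ range (r + 1 + 1), (a + (i : ℤ)) = (∏ i ∈ range (r + 1), (a + (i : ℤ))) * (a + (r + 1)) := by
      rw [Finset.prod_range_succ]
      push_cast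
      rfl
    have h4 : ∏ i ∈ range (r + 1 + 1), (a + (i : ℤ)) = a * ∏ i ∈ range (r + 1), (a + 1 + (i : ℤ)) := by
      rw [Finset.prod_range_succ']
      rw [mul_comm]
      congr 1
      · push_cast
        ring
      · refine Finset.prod_congr rfl fun i _ => ?_
        push_cast
        ring
    have h5 : (Df (List.replicate r 1) a * Qf (List.replicate r 1) (a + 1) -
      Df (List.replicate r 1) (a + 1) * Qf (List.replicate r 1) a) * ∏ i ∈ range (r + 1 + 1), (a + (i : ℤ)) =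
      Df (List.replicate r 1) a * Qf (List.replicate r 1) (a + 1) * ((∏ i ∈ range (r + 1), (a + (i : ℤ))) * (a + (r + 1))) -
      Df (List.replicate r 1) (a + 1) * Qf (List.replicate r 1) a * (a * ∏ i ∈ range (r + 1), (a + 1 + (i : ℤ))) := by
      rw [sub_mul]
      congr 1
      · rw [h3]
      · rw [h4]
    rw [h5, Nat.factorial_succ]
    push_cast
    linear_combination (Qf (List.replicate r 1) (a + 1) * (a + (r + 1))) * h1 - (Qf (List.replicate r 1) a * a) * h2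

theorem pf_D_ne (r : ℕ) : Df (List.replicate r 1) 1 ≠ 0 := by
  intro h
  have h1 := pf_D_eq r 1
  rw [h, zero_mul] at h1
  have h2 : (0 : ℤ) < (r.factorial : ℤ) * Qf (List.replicate r 1) 1 :=
    mul_pos (by exact_mod_cast Nat.factorial_pos r) (pf_Q_pos r 1 one_pos)
  omega

end Pool.Agent.HUK
end

-- from Lib.H21T.G1
section

/-!
# Chunk G1 (S/M): the geometric parameters
-/

namespace Pool.Agent.Lib.H21T

open Finset Pool.Agent.SZW

/-- `X = ⌈4 u ^ 2⌉₊`, `S = ⌊u ^ 2500⌋₊` (at least `u ^ 2500 / 2`), `Λ = A ^ 3 / (2 * x * S ^ 2)` (natural division). `2 x S ^ 2 ≤ 8 u ^ 5002 A ^ 2 ≤ A ^ 3` as `A ≥ u ^ 9999`, so `Λ ≥ 1`, and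
`⌊y⌋ ≥ y / 2` for `y ≥ 1` gives `hlo`. `Λ ≤ A ^ 3 / (2 x S ^ 2) ≤ A / S ^ 2 ≤ 4 u ^ 5000`; `hlo` gives `A ^ 3 ≤ 4 x Λ S ^ 2 ≤ 16 u ^ 2 A ^ 2 Λ u ^ 5000`. (Never unfold the powers;
products with `← pow_add`, comparisons with `pow_le_pow_right₀`.) -/
theorem g1 (u : ℝ) (hu : 10 ≤ u) (A x : ℕ) (h1 : u ^ 9999 ≤ A) (h2 : (A : ℝ) ≤ u ^ 10000) (h3 : A ^ 2 ≤ 2 * x)
    (h4 : (x : ℝ) ≤ 4 * u ^ 2 * (A : ℝ) ^ 2) :
    ∃ X S Λ : ℕ, Geo A x X S Λ ∧ 4 * u ^ 2 ≤ X ∧ (X : ℝ) ≤ 5 * u ^ 2 ∧ (S : ℝ) ≤ u ^ 2500 ∧ u ^ 2500 ≤ 2 * S ∧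
      (Λ : ℝ) ≤ 4 * u ^ 5000 ∧ (A : ℝ) ≤ 16 * u ^ 5002 * Λ := by
  have hu0 : (0 : ℝ) < u := by linarith
  have hu1 : (1 : ℝ) ≤ u := by linarith
  obtain ⟨v, hv⟩ : ∃ v : ℝ, v = u ^ 2500 := ⟨_, rfl⟩
  have hv1 : 1 ≤ v := by rw [hv]; exact one_le_pow₀ hu1
  have hv0 : 0 < v := by linarith
  have hvv : v ^ 2 = u ^ 5000 := by rw [hv, ← pow_mul]
  obtain ⟨X, hXd⟩ : ∃ X : ℕ, X = ⌈4 * u ^ 2⌉₊ := ⟨_, rfl⟩
  obtain ⟨S, hSd⟩ : ∃ S : ℕ, S = ⌊v⌋₊ := ⟨_, rfl⟩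
  have hX1 : 4 * u ^ 2 ≤ X := by rw [hXd]; exact Nat.le_ceil _
  have hX2 : (X : ℝ) ≤ 5 * u ^ 2 := by
    have h := (Nat.ceil_lt_add_one (show 0 ≤ 4 * u ^ 2 by positivity)).le
    rw [← hXd] at h
    nlinarith
  have hS1 : (S : ℝ) ≤ v := by rw [hSd]; exact Nat.floor_le hv0.le
  have hS2 : v < S + 1 := by rw [hSd]; exact Nat.lt_floor_add_one v
  have hSn : 1 ≤ S := by
    have : (0 : ℝ) < S := by linarith
    have h2 : 0 < S := by exact_mod_cast this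
    omega
  have hSr : (1 : ℝ) ≤ S := by exact_mod_cast hSn
  have hS3 : v ≤ 2 * S := by linarith
  have hA0 : (0 : ℝ) < A := lt_of_lt_of_le (by positivity) h1
  have hAn : 1 ≤ A := by
    have h2 : 0 < A := by exact_mod_cast hA0
    omega
  have h3' : (A : ℝ) ^ 2 ≤ 2 * x := by exact_mod_cast h3
  have hx0 : (0 : ℝ) < x := by
    have : (0 : ℝ) < (A : ℝ) ^ 2 := by positivity
    linarith
  have hxn : 0 < x := by exact_mod_cast hx0
  have hM0 : 0 < 2 * x * S ^ 2 := by positivity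
  have key : 2 * (x : ℝ) * (S : ℝ) ^ 2 ≤ (A : ℝ) ^ 3 := by
    have k1 : (S : ℝ) ^ 2 ≤ u ^ 5000 := by
      rw [← hvv]
      exact pow_le_pow_left₀ (by linarith) hS1 2
    have k2 : 2 * (x : ℝ) * (S : ℝ) ^ 2 ≤ 2 * (4 * u ^ 2 * (A : ℝ) ^ 2) * u ^ 5000 := by
      apply mul_le_mul _ k1 (by positivity) (by positivity)
      linarith
    have k3 : 8 * u ^ 5002 ≤ (A : ℝ) := by
      have k4 : (8 : ℝ) * u ^ 5002 ≤ u * u ^ 5002 := by
        apply mul_le_mul_of_nonneg_right (by linarith) (by positivity)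
      have k5 : u * u ^ 5002 = u ^ 5003 := by rw [← pow_succ']
      have k6 : u ^ 5003 ≤ u ^ 9999 := pow_le_pow_right₀ hu1 (by norm_num)
      linarith
    have k7 : 2 * (4 * u ^ 2 * (A : ℝ) ^ 2) * u ^ 5000 = 8 * u ^ 5002 * (A : ℝ) ^ 2 := by
      have : u ^ 5002 = u ^ 2 * u ^ 5000 := by rw [← pow_add]
      rw [this]
      ring
    have k8 : 8 * u ^ 5002 * (A : ℝ) ^ 2 ≤ (A : ℝ) * (A : ℝ) ^ 2 :=
      mul_le_mul_of_nonneg_right k3 (by positivity)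
    calc 2 * (x : ℝ) * (S : ℝ) ^ 2 ≤ 2 * (4 * u ^ 2 * (A : ℝ) ^ 2) * u ^ 5000 := k2
      _ = 8 * u ^ 5002 * (A : ℝ) ^ 2 := k7
      _ ≤ (A : ℝ) * (A : ℝ) ^ 2 := k8
      _ = (A : ℝ) ^ 3 := by ring
  have keyn : 2 * x * S ^ 2 ≤ A ^ 3 := by exact_mod_cast key
  obtain ⟨L, hLd⟩ : ∃ L : ℕ, L = A ^ 3 / (2 * x * S ^ 2) := ⟨_, rfl⟩
  have hL1 : 1 ≤ L := by
    rw [hLd]
    exact Nat.div_pos keyn hM0
  have hL2 : L * (2 * x * S ^ 2) ≤ A ^ 3 := by
    rw [hLd]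
    exact Nat.div_mul_le_self _ _
  have hL3 : A ^ 3 < (L + 1) * (2 * x * S ^ 2) := by
    rw [hLd, mul_comm]
    exact Nat.lt_mul_div_succ _ hM0
  have hL4 : A ^ 3 ≤ 4 * x * L * S ^ 2 := by
    have h5 : (L + 1) * (2 * x * S ^ 2) ≤ (2 * L) * (2 * x * S ^ 2) := Nat.mul_le_mul_right _ (by omega)
    have h6 : (2 * L) * (2 * x * S ^ 2) = 4 * x * L * S ^ 2 := by ring
    omega
  have hL2r : (L : ℝ) * (2 * x * S ^ 2) ≤ (A : ℝ) ^ 3 := by exact_mod_cast hL2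
  have hL4r : (A : ℝ) ^ 3 ≤ 4 * x * L * S ^ 2 := by exact_mod_cast hL4
  have hLr : (1 : ℝ) ≤ L := by exact_mod_cast hL1
  refine ⟨X, S, L, ⟨hAn, ?_, hSn, hL1, h3, ?_, ?_, hL4⟩, hX1, hX2, ?_, ?_, ?_, ?_⟩
  · have : (0 : ℝ) < X := lt_of_lt_of_le (by positivity) hX1
    have h2 : 0 < X := by exact_mod_cast this
    omega
  · have : (x : ℝ) ≤ X * (A : ℝ) ^ 2 := h4.trans (mul_le_mul_of_nonneg_right hX1 (by positivity))
    exact_mod_cast this
  · calc 2 * x * L * S ^ 2 = L * (2 * x * S ^ 2) := by ring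
      _ ≤ A ^ 3 := hL2
  · rw [← hv]; exact hS1
  · rw [← hv]; exact hS3
  · -- L ≤ 4 u ^ 5000
    have m1 : (L : ℝ) * (S : ℝ) ^ 2 * (A : ℝ) ^ 2 ≤ (A : ℝ) * (A : ℝ) ^ 2 := by
      calc (L : ℝ) * (S : ℝ) ^ 2 * (A : ℝ) ^ 2 ≤ (L : ℝ) * (S : ℝ) ^ 2 * (2 * x) :=
            mul_le_mul_of_nonneg_left h3' (by positivity)
        _ = L * (2 * x * S ^ 2) := by ring
        _ ≤ (A : ℝ) ^ 3 := hL2r
        _ = (A : ℝ) * (A : ℝ) ^ 2 := by ring
    have m2 : (L : ℝ) * (S : ℝ) ^ 2 ≤ A := le_of_mul_le_mul_right m1 (by positivity)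
    have m3 : v ^ 2 ≤ 4 * (S : ℝ) ^ 2 := by
      calc v ^ 2 ≤ (2 * (S : ℝ)) ^ 2 := pow_le_pow_left₀ hv0.le hS3 2
        _ = 4 * (S : ℝ) ^ 2 := by ring
    have m4 : (L : ℝ) * v ^ 2 ≤ 4 * u ^ 5000 * v ^ 2 := by
      calc (L : ℝ) * v ^ 2 ≤ L * (4 * (S : ℝ) ^ 2) := mul_le_mul_of_nonneg_left m3 (by linarith)
        _ = 4 * (L * (S : ℝ) ^ 2) := by ring
        _ ≤ 4 * u ^ 10000 := by linarith
        _ = 4 * u ^ 5000 * v ^ 2 := by
            rw [hvv, mul_assoc, ← pow_add]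
    exact le_of_mul_le_mul_right m4 (by positivity)
  · -- A ≤ 16 u ^ 5002 L
    have k1 : (S : ℝ) ^ 2 ≤ u ^ 5000 := by
      rw [← hvv]
      exact pow_le_pow_left₀ (by linarith) hS1 2
    have m1 : (A : ℝ) * (A : ℝ) ^ 2 ≤ 16 * u ^ 5002 * L * (A : ℝ) ^ 2 := by
      have m0 : (A : ℝ) * (A : ℝ) ^ 2 = (A : ℝ) ^ 3 := by ring
      rw [m0]
      calc (A : ℝ) ^ (3 : ℕ) ≤ 4 * (x : ℝ) * L * (S : ℝ) ^ (2 : ℕ) := hL4r
        _ ≤ 4 * (x : ℝ) * L * u ^ (5000 : ℕ) := mul_le_mul_of_nonneg_left k1 (by positivity)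
        _ = (x : ℝ) * (4 * L * u ^ (5000 : ℕ)) := by ring
        _ ≤ 4 * u ^ 2 * (A : ℝ) ^ 2 * (4 * L * u ^ 5000) := mul_le_mul_of_nonneg_right h4 (by positivity)
        _ = 16 * (u ^ 2 * u ^ 5000) * L * (A : ℝ) ^ 2 := by ring
        _ = 16 * u ^ 5002 * L * (A : ℝ) ^ 2 := by rw [← pow_add]
    exact le_of_mul_le_mul_right m1 (by positivity)

end Pool.Agent.Lib.H21T
end

-- from Lib.H44W.W1
section
/-!
H44W: Type II pieces and the interface of module B (class_two).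
-/
namespace Pool.Agent.H44W
open Finset

/-- Type II piece: a in [K, 2K), b in [M, 2M), arbitrary coefficients. -/
noncomputable def tII (K M : ℕ) (al be : ℕ → ℂ) (m : ℤ) : ℂ :=
  ∑ a ∈ Ico K (2 * K), ∑ b ∈ Ico M (2 * M), if ((a * b : ℕ) : ℤ) = m then al a * be b else 0

/-- Type I sum with divisors up to A. -/
noncomputable def psi (A : ℕ) (al : ℕ → ℂ) (m : ℤ) : ℂ :=
  ∑ a ∈ Icc 1 A, if (a:ℤ) ∣ m then al a else 0

/-- The statement of module B (helper3's form, with the divisor hypothesis). -/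
def ClassTwo (C : ℕ) : Prop :=
  ∀ (n K M : ℕ) (D : ℝ), 2 ≤ D → (∀ m : ℕ, 1 ≤ m → m ≤ 2 * n → (m.divisors.card : ℝ) ≤ D) →
    D ^ C ≤ K → (K:ℝ) ^ 2 * D ^ C ≤ n →
    ∀ al be : ℕ → ℂ, (∀ a, ‖al a‖ ≤ 1) → (∀ b, ‖be b‖ ≤ 1) →
    ∀ W f g : ℤ → ℂ, (∀ x, ‖W x‖ ≤ 1) → (∀ x, ‖f x‖ ≤ 1) → (∀ x, ‖g x‖ ≤ 1) →
    (n:ℝ) ^ 2 / D ≤ ‖TF n (tII K M al be) W f g‖ →
    ∃ th : ℝ, (n:ℝ) / D ^ C ≤ ‖∑ z ∈ Icc (1:ℤ) n, g z * ee (th * z)‖

end Pool.Agent.H44W
end

-- from Lib.H3B.Defs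
section

/-!
# H3B (MP_443e5f, candidate T, module B): the inverse theorem for class II kernels. Definitions.

All sums over the integers are `tsum`s of finitely supported functions. `ee x = exp (2 pi i x)`.
See `PROOF.md`.
-/

namespace Pool.Agent.H3B

open Finset
open Pool.Agent.H44W (ee TF cut)

noncomputable section

/-- `u` vanishes outside `[-N, N]`. -/
def Sp (N : ℕ) (u : ℤ → ℂ) : Prop := ∀ y : ℤ, u y ≠ 0 → |y| ≤ (N : ℤ)

/-- `G_d(y) = g(y) conj g(y + d)`. -/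
def Gd (g : ℤ → ℂ) (d y : ℤ) : ℂ := g y * (starRingEnd ℂ) (g (y + d))

/-- The modulation `u(y) e(-θ y)`. -/
def tw (θ : ℝ) (u : ℤ → ℂ) (y : ℤ) : ℂ := u y * ee (-(θ * y))

/-- The autocorrelation. -/
def R (u : ℤ → ℂ) (k : ℤ) : ℂ := ∑' y : ℤ, u y * (starRingEnd ℂ) (u (y + k))

/-- `E_m(u)`: the sum over the residue classes modulo `m` of the squares of the sums of `u`. -/
def E (m : ℕ) (u : ℤ → ℂ) : ℝ := ∑ r ∈ range m, ‖∑' v : ℤ, u (r + m * v)‖ ^ 2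

/-- The `a` in `[K, 2K)` with `a + j` in `[K, 2K)`. -/
def Ij (K : ℕ) (j : ℤ) : Finset ℕ :=
  (Ico K (2 * K)).filter (fun a => (K : ℤ) ≤ a + j ∧ (a : ℤ) + j < 2 * K)


theorem Sp.finite {N : ℕ} {u : ℤ → ℂ} (h : Sp N u) : (Function.support u).Finite := by
  refine (Set.finite_Icc (-(N : ℤ)) N).subset fun y hy => ?_
  exact abs_le.1 (h y hy)

theorem Sp.summable {N : ℕ} {u : ℤ → ℂ} (h : Sp N u) : Summable u := summable_of_hasFiniteSupport h.finite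

theorem Sp.zero {N : ℕ} {u : ℤ → ℂ} (h : Sp N u) {y : ℤ} (hy : (N : ℤ) < |y|) : u y = 0 := by
  by_contra h0
  exact absurd (h y h0) (not_le.2 hy)


theorem Sp.mul_left {N : ℕ} {u : ℤ → ℂ} (h : Sp N u) (w : ℤ → ℂ) : Sp N (fun y => w y * u y) :=
  fun y hy => h y (right_ne_zero_of_mul hy)

theorem Sp.mul_right {N : ℕ} {u : ℤ → ℂ} (h : Sp N u) (w : ℤ → ℂ) : Sp N (fun y => u y * w y) :=
  fun y hy => h y (left_ne_zero_of_mul hy)

theorem Sp.Gd {N : ℕ} {g : ℤ → ℂ} (h : Sp N g) (d : ℤ) : Sp N (Gd g d) := h.mul_right _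

theorem Sp.tw {N : ℕ} {u : ℤ → ℂ} (h : Sp N u) (θ : ℝ) : Sp N (tw θ u) := h.mul_right _

theorem Sp.shift {N : ℕ} {u : ℤ → ℂ} (h : Sp N u) (t : ℤ) : Sp (N + t.natAbs) (fun y => u (y + t)) := by
  intro y hy
  have h1 := h (y + t) hy
  have h2 : |y| ≤ |y + t| + |t| := by
    have := abs_sub (y + t) t
    simpa using this
  push_cast
  linarith

theorem Sp.tsum_eq {N : ℕ} {u : ℤ → ℂ} (h : Sp N u) : ∑' y, u y = ∑ y ∈ Icc (-(N : ℤ)) N, u y := by
  refine tsum_eq_sum fun y hy => ?_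
  by_contra h0
  exact hy (mem_Icc.2 (abs_le.1 (h y h0)))

theorem Sp.norm_tsum_le {N : ℕ} {u : ℤ → ℂ} (h : Sp N u) {b : ℝ} (hb : ∀ y, ‖u y‖ ≤ b) :
    ‖∑' y, u y‖ ≤ (2 * N + 1) * b := by
  rw [h.tsum_eq]
  refine (norm_sum_le_of_le _ fun y _ => hb y).trans ?_
  rw [sum_const, Int.card_Icc, nsmul_eq_mul]
  have h1 : (N : ℤ) + 1 - -(N : ℤ) = ((2 * N + 1 : ℕ) : ℤ) := by push_cast; ring
  rw [h1, Int.toNat_natCast]
  push_cast
  exact le_rfl

theorem ee_zero : ee 0 = 1 := by simp [ee]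

theorem ee_add (x y : ℝ) : ee (x + y) = ee x * ee y := by
  unfold ee
  rw [← Complex.exp_add]
  congr 1
  push_cast
  ring

theorem ee_norm (x : ℝ) : ‖ee x‖ = 1 := by
  unfold ee
  have : (2 * Real.pi * x * Complex.I : ℂ) = ((2 * Real.pi * x : ℝ) : ℂ) * Complex.I := by push_cast; ring
  rw [this, Complex.norm_exp_ofReal_mul_I]

theorem ee_conj (x : ℝ) : (starRingEnd ℂ) (ee x) = ee (-x) := by
  unfold ee
  rw [← Complex.exp_conj]
  congr 1
  have h2 : (starRingEnd ℂ) 2 = 2 := by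
    have := Complex.conj_ofReal 2
    exact_mod_cast this
  rw [map_mul, map_mul, map_mul, h2, Complex.conj_ofReal, Complex.conj_ofReal, Complex.conj_I]
  push_cast
  ring

theorem ee_int (k : ℤ) : ee k = 1 := by
  unfold ee
  rw [Complex.exp_eq_one_iff]
  exact ⟨k, by push_cast; ring⟩

theorem tw_norm (θ : ℝ) (u : ℤ → ℂ) (y : ℤ) : ‖tw θ u y‖ = ‖u y‖ := by
  unfold tw
  rw [norm_mul, ee_norm, mul_one]

theorem Gd_norm {g : ℤ → ℂ} (h : ∀ z, ‖g z‖ ≤ 1) (d y : ℤ) : ‖Gd g d y‖ ≤ 1 := by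
  unfold Gd
  rw [norm_mul, RCLike.norm_conj]
  exact mul_le_one₀ (h _) (norm_nonneg _) (h _)

theorem E_nonneg (m : ℕ) (u : ℤ → ℂ) : 0 ≤ E m u := sum_nonneg fun _ _ => sq_nonneg _

theorem cut_Sp (n : ℕ) (g : ℤ → ℂ) : Sp n (cut n g) := by
  intro y hy
  unfold cut at hy
  split_ifs at hy with h
  · rw [mem_Icc] at h
    rw [abs_le]
    omega
  · exact absurd rfl hy

theorem cut_norm {n : ℕ} {g : ℤ → ℂ} (h : ∀ z, ‖g z‖ ≤ 1) (z : ℤ) : ‖cut n g z‖ ≤ 1 := by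
  unfold cut
  split_ifs
  · exact h z
  · simp

end

end Pool.Agent.H3B
end

-- from Lib.H3B.A2
section

/-! # H3B (MP_443e5f, candidate T, module B), chunk A2 -/

namespace Pool.Agent.H3B

open Finset
open Pool.Agent.H44W (ee TF cut)

/-- Chunk A2a (S/M). The sum over the residue classes modulo m. PROOF. `Int.divModEquiv` (or: both sides are finite sums; the map (r, v) ↦ r + m v from range m × ℤ to ℤ is a
bijection, inverse y ↦ (y mod m, y / m)). Summability: everything has finite support (Sp). -/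
theorem tsum_res {N : ℕ} {u : ℤ → ℂ} (h : Sp N u) {m : ℕ} (hm : 0 < m) :
    ∑' y, u y = ∑ r ∈ range m, ∑' v : ℤ, u (r + m * v) := by
  have hne : NeZero m := ⟨hm.ne'⟩
  have e1 : ∑' y, u y = ∑' p : Fin m × ℤ, u (((Int.divModEquiv m).symm.trans (Equiv.refl ℤ)) (p.2, p.1)) := by
    rw [← Equiv.tsum_eq ((Equiv.prodComm (Fin m) ℤ).trans (Int.divModEquiv m).symm)]
    rfl
  have hs : Summable fun p : Fin m × ℤ => u (((Int.divModEquiv m).symm.trans (Equiv.refl ℤ)) (p.2, p.1)) := by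
    have h1 := (Equiv.summable_iff ((Equiv.prodComm (Fin m) ℤ).trans (Int.divModEquiv m).symm)).2 h.summable
    exact h1
  rw [e1, hs.tsum_prod, tsum_fintype, Finset.sum_range]
  refine Finset.sum_congr rfl fun r _ => tsum_congr fun v => ?_
  congr 1
  simp only [Int.divModEquiv, Equiv.trans_apply, Equiv.refl_apply, Equiv.coe_fn_symm_mk]
  ring

/-- the sum over a range as a sum over `ZMod m` -/
theorem a2_range (m : ℕ) [NeZero m] (F : ZMod m → ℝ) : ∑ r ∈ range m, F (r : ZMod m) = ∑ x, F x := by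
  refine Finset.sum_bij' (fun (j : ℕ) _ => (j : ZMod m)) (fun (z : ZMod m) _ => z.val)
    (fun _ _ => mem_univ _) (fun z _ => mem_range.2 (ZMod.val_lt z)) (fun j hj => ?_)
    (fun z _ => ZMod.natCast_zmod_val z) (fun _ _ => rfl)
  rw [ZMod.val_natCast, Nat.mod_eq_of_lt (mem_range.1 hj)]

/-- the inner sum depends on the residue class only -/
theorem a2_class (m : ℕ) [NeZero m] (u : ℤ → ℂ) (s : ℤ) :
    ‖∑' v : ℤ, u (s + m * v)‖ ^ 2 = ‖∑' v : ℤ, u (((s : ZMod m).val : ℤ) + m * v)‖ ^ 2 := by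
  have e1 : ((s : ZMod m).val : ℤ) = s % m := by
    rw [ZMod.val_intCast]
  have e2 : ∑' v : ℤ, u (s + m * v) = ∑' v : ℤ, u (s % m + m * v) := by
    rw [← Equiv.tsum_eq (Equiv.addRight (s / m)) (fun v => u (s % m + m * v))]
    refine tsum_congr fun v => ?_
    congr 1
    simp only [Equiv.coe_addRight]
    have := Int.emod_add_mul_ediv s m
    linear_combination -this
  rw [e1, e2]

theorem a2_E (m : ℕ) [NeZero m] (u : ℤ → ℂ) (t : ℤ) : E m (fun y => u (y + t)) =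
    ∑ x : ZMod m, ‖∑' v : ℤ, u (((x + (t : ZMod m)).val : ℤ) + m * v)‖ ^ 2 := by
  rw [← a2_range]
  unfold E
  refine Finset.sum_congr rfl fun r _ => ?_
  have e1 : ((r : ZMod m) + (t : ZMod m)) = (((r : ℤ) + t : ℤ) : ZMod m) := by push_cast; rfl
  rw [e1, ← a2_class]
  have e2 : ∀ v : ℤ, (r : ℤ) + m * v + t = (r : ℤ) + t + m * v := fun v => by ring
  simp only [e2]

/-- Chunk A2b (S/M). `E` does not change under translation. PROOF. It suffices to treat t = 1 and t = -1, or: r + t = r' + m s with r' = (r + t) mod m; r ↦ r' is a permutation of range m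
and ∑' v, u (r + t + m v) = ∑' v, u (r' + m (v + s)) = ∑' v, u (r' + m v) (Equiv.addRight, tsum_eq). No support condition is needed. -/
theorem E_shift (m : ℕ) (u : ℤ → ℂ) (t : ℤ) : E m (fun y => u (y + t)) = E m u := by
  rcases Nat.eq_zero_or_pos m with hm | hm
  · subst hm
    simp [E]
  have hne : NeZero m := ⟨hm.ne'⟩
  have h0 : E m u = ∑ x : ZMod m, ‖∑' v : ℤ, u ((x.val : ℤ) + m * v)‖ ^ 2 := by
    have h1 := a2_E m u 0
    simpa using h1
  rw [a2_E, h0]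
  exact Equiv.sum_comp (Equiv.addRight (t : ZMod m)) (fun x : ZMod m => ‖∑' v : ℤ, u ((x.val : ℤ) + m * v)‖ ^ 2)

/-- Chunk A2c (S). -/
theorem E_conj (m : ℕ) (u : ℤ → ℂ) : E m (fun y => (starRingEnd ℂ) (u y)) = E m u := by
  unfold E
  refine Finset.sum_congr rfl fun r _ => ?_
  rw [← Complex.conj_tsum, RCLike.norm_conj]

/-- Chunk A2d (S). -/
theorem E_const (m : ℕ) (u : ℤ → ℂ) {c : ℂ} (hc : ‖c‖ = 1) : E m (fun y => c * u y) = E m u := by
  unfold E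
  refine Finset.sum_congr rfl fun r _ => ?_
  rw [tsum_mul_left, norm_mul, hc, one_mul]

end Pool.Agent.H3B
end

-- from Lib.H21T.Z5A
section

/-!
# Chunk Z5A (S/M): numbers for the major arcs
-/

namespace Pool.Agent.Lib.H21T

open Finset Pool.Agent.SZW

/-- `X`, `S`, `Λ` from `g1`, `s0 = ⌊u ^ 1250⌋₊`. `H S ^ 2 ≤ 3 u ^ 14740 ≤ u ^ 19998 ≤ A ^ 2`. The sum is at most
`4 u ^ 8750 + 48 u ^ 7500 + 32 u ^ 7502 + 291 * 5 u ^ 2 u ^ 1250 u ^ 2500 4 u ^ 5000 + 6 ≤ u ^ 8753`. -/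
theorem z5_num : ∃ U0 : ℝ, 1 ≤ U0 ∧ ∀ u : ℝ, U0 ≤ u → ∀ A x H : ℕ, u ^ 9999 ≤ A → (A : ℝ) ≤ u ^ 10000 →
    A ^ 2 ≤ 2 * x → (x : ℝ) ≤ 4 * u ^ 2 * (A : ℝ) ^ 2 → (H : ℝ) ≤ 3 * u ^ 9740 →
    ∃ X S Λ s0 : ℕ, Geo A x X S Λ ∧ H * S ^ 2 ≤ A ^ 2 ∧ 1 ≤ s0 ∧
      2 * A * (1 / (s0 : ℝ) + 12 / S) + 2 * A * S / Λ + 291 * X * s0 * S * Λ + 2 * H / A ≤ u ^ 8753 := by
  refine ⟨10000, by norm_num, ?_⟩
  intro u hu A x H hA1 hA2 hAx hxA hH
  have hu1 : (1 : ℝ) ≤ u := by linarith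
  have hu0 : (0 : ℝ) < u := by linarith
  obtain ⟨X, S, Λ, hG, hX1, hX2, hS1, hS2, hL1, hL2⟩ := g1 u (by linarith) A x hA1 hA2 hAx hxA
  have hP1250 : 1 ≤ u ^ 1250 := one_le_pow₀ hu1
  have hP2500 : 1 ≤ u ^ 2500 := one_le_pow₀ hu1
  have hP5000 : 1 ≤ u ^ 5000 := one_le_pow₀ hu1
  have hs0a : ((⌊u ^ 1250⌋₊ : ℕ) : ℝ) ≤ u ^ 1250 := Nat.floor_le (by positivity)
  have hs0b : u ^ 1250 < (⌊u ^ 1250⌋₊ : ℕ) + 1 := Nat.lt_floor_add_one _
  have hs0c : 1 ≤ ⌊u ^ 1250⌋₊ := by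
    rw [Nat.one_le_floor_iff]
    exact hP1250
  obtain ⟨s0, hs0⟩ : ∃ s0 : ℕ, s0 = ⌊u ^ 1250⌋₊ := ⟨_, rfl⟩
  rw [← hs0] at hs0a hs0b hs0c
  have hs0r : (1 : ℝ) ≤ s0 := by exact_mod_cast hs0c
  have hs0d : u ^ 1250 ≤ 2 * s0 := by linarith
  have hSr : (1 : ℝ) ≤ S := by exact_mod_cast hG.hS
  have hLr : (1 : ℝ) ≤ Λ := by exact_mod_cast hG.hΛ
  have hXr : (1 : ℝ) ≤ X := by exact_mod_cast hG.hX1
  have hA0 : (1 : ℝ) ≤ A := le_trans (one_le_pow₀ hu1) hA1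
  have hpos : 0 < u ^ 8752 := pow_pos hu0 _
  have hp1 : u ^ 8750 ≤ u ^ 8752 := pow_le_pow_right₀ hu1 (by norm_num)
  have hp2 : u ^ 7500 ≤ u ^ 8752 := pow_le_pow_right₀ hu1 (by norm_num)
  have hp3 : u ^ 7502 ≤ u ^ 8752 := pow_le_pow_right₀ hu1 (by norm_num)
  have hp4 : 1 ≤ u ^ 8752 := one_le_pow₀ hu1
  have hp5 : u ^ 8753 = u * u ^ 8752 := by rw [← pow_succ']
  refine ⟨X, S, Λ, s0, hG, ?_, hs0c, ?_⟩
  · have h1 : (H : ℝ) * (S : ℝ) ^ 2 ≤ (A : ℝ) ^ 2 := by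
      calc (H : ℝ) * (S : ℝ) ^ 2 ≤ (3 * u ^ 9740) * (u ^ 2500) ^ 2 := by
            apply mul_le_mul hH _ (by positivity) (by positivity)
            exact pow_le_pow_left₀ (by linarith) hS1 2
        _ = 3 * u ^ 14740 := by
            rw [← pow_mul, mul_assoc, ← pow_add]
        _ ≤ u * u ^ 14740 := by
            apply mul_le_mul_of_nonneg_right (by linarith) (by positivity)
        _ = u ^ 14741 := by rw [← pow_succ']
        _ ≤ u ^ 19998 := pow_le_pow_right₀ hu1 (by norm_num)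
        _ = (u ^ 9999) ^ 2 := by rw [← pow_mul]
        _ ≤ (A : ℝ) ^ 2 := pow_le_pow_left₀ (by positivity) hA1 2
    exact_mod_cast h1
  · have t1 : 2 * (A : ℝ) * (1 / (s0 : ℝ)) ≤ 4 * u ^ 8750 := by
      rw [mul_one_div, div_le_iff₀ (by linarith)]
      calc 2 * (A : ℝ) ≤ 2 * u ^ 10000 := by linarith
        _ = 2 * u ^ 8750 * u ^ 1250 := by rw [mul_assoc, ← pow_add]
        _ ≤ 2 * u ^ 8750 * (2 * s0) := by
            apply mul_le_mul_of_nonneg_left hs0d (by positivity)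
        _ = 4 * u ^ 8750 * s0 := by ring
    have t2 : 2 * (A : ℝ) * (12 / (S : ℝ)) ≤ 48 * u ^ 7500 := by
      rw [← mul_div_assoc, div_le_iff₀ (by linarith)]
      calc 2 * (A : ℝ) * 12 ≤ 2 * u ^ 10000 * 12 := by linarith
        _ = 24 * u ^ 7500 * u ^ 2500 := by
            have : u ^ 10000 = u ^ 7500 * u ^ 2500 := by rw [← pow_add]
            rw [this]; ring
        _ ≤ 24 * u ^ 7500 * (2 * S) := by
            apply mul_le_mul_of_nonneg_left hS2 (by positivity)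
        _ = 48 * u ^ 7500 * S := by ring
    have t3 : 2 * (A : ℝ) * S / Λ ≤ 32 * u ^ 7502 := by
      rw [div_le_iff₀ (by linarith)]
      calc 2 * (A : ℝ) * S ≤ 2 * (16 * u ^ 5002 * Λ) * u ^ 2500 := by
            apply mul_le_mul (by linarith) hS1 (by linarith) (by positivity)
        _ = 32 * u ^ 7502 * Λ := by
            have : u ^ 7502 = u ^ 5002 * u ^ 2500 := by rw [← pow_add]
            rw [this]; ring
    have t4 : 291 * (X : ℝ) * s0 * S * Λ ≤ 5820 * u ^ 8752 := by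
      calc 291 * (X : ℝ) * s0 * S * Λ ≤ 291 * (5 * u ^ 2) * u ^ 1250 * u ^ 2500 * (4 * u ^ 5000) := by
            have a1 : 291 * (X : ℝ) ≤ 291 * (5 * u ^ 2) := by linarith
            have a2 : 291 * (X : ℝ) * s0 ≤ 291 * (5 * u ^ 2) * u ^ 1250 :=
              mul_le_mul a1 hs0a (by linarith) (by positivity)
            have a3 : 291 * (X : ℝ) * s0 * S ≤ 291 * (5 * u ^ 2) * u ^ 1250 * u ^ 2500 :=
              mul_le_mul a2 hS1 (by linarith) (by positivity)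
            exact mul_le_mul a3 hL1 (by linarith) (by positivity)
        _ = 5820 * u ^ 8752 := by
            have : u ^ 8752 = u ^ 2 * u ^ 1250 * u ^ 2500 * u ^ 5000 := by
              rw [← pow_add, ← pow_add, ← pow_add]
            rw [this]; ring
    have t5 : 2 * (H : ℝ) / A ≤ 6 := by
      rw [div_le_iff₀ (by linarith)]
      have : u ^ 9740 ≤ u ^ 9999 := pow_le_pow_right₀ hu1 (by norm_num)
      linarith
    have hfin : 5910 * u ^ 8752 ≤ u ^ 8753 := by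
      rw [hp5]
      exact mul_le_mul_of_nonneg_right (by linarith) hpos.le
    have hsplit : 2 * (A : ℝ) * (1 / (s0 : ℝ) + 12 / S) = 2 * (A : ℝ) * (1 / (s0 : ℝ)) + 2 * (A : ℝ) * (12 / (S : ℝ)) := by
      ring
    rw [hsplit]
    linarith

end Pool.Agent.Lib.H21T
end

-- from Lib.H21T.Z7
section

/-!
# Chunk Z7 (S): long intervals
-/

namespace Pool.Agent.Lib.H21T

open Finset Pool.Agent.SZW

/-- Strong induction on `H`: if `H ≤ 3 h0` it is the hypothesis; otherwise split off an interval of length `⌈h0⌉₊` (`h0 ≤ ⌈h0⌉₊ ≤ h0 + 1 ≤ 2 h0`), the rest has length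
`> 3 h0 - 2 h0`. -/
theorem z7 (F : ℕ → ℂ) (h0 c : ℝ) (h1 : 1 ≤ h0) (hc : 0 ≤ c)
    (h : ∀ y k : ℕ, h0 ≤ k → (k : ℝ) ≤ 3 * h0 → ‖∑ m ∈ Ico y (y + k), F m‖ ≤ c * k) (x H : ℕ) (hH : h0 ≤ H) :
    ‖∑ m ∈ Ico x (x + H), F m‖ ≤ c * H := by
  induction H using Nat.strong_induction_on generalizing x with
  | _ H ih =>
    by_cases h3 : (H : ℝ) ≤ 3 * h0
    · exact h x H hH h3
    · push Not at h3
      set k := ⌈h0⌉₊ with hk
      have hk0 : h0 ≤ k := Nat.le_ceil h0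
      have hk1 : (k : ℝ) < h0 + 1 := Nat.ceil_lt_add_one (by linarith)
      have hkH : k ≤ H := by
        have : (k : ℝ) ≤ H := by linarith
        exact_mod_cast this
      have hkpos : 1 ≤ k := by
        have : (1 : ℝ) ≤ k := by linarith
        exact_mod_cast this
      obtain ⟨j, hj⟩ := Nat.exists_eq_add_of_le hkH
      have hjr : (H : ℝ) = k + j := by rw [hj]; push_cast; ring
      have hj1 : h0 ≤ (j : ℝ) := by linarith
      have hjH : j < H := by omega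
      have hsum : ∑ m ∈ Ico x (x + H), F m
          = ∑ m ∈ Ico x (x + k), F m + ∑ m ∈ Ico (x + k) (x + k + j), F m := by
        rw [hj, ← Nat.add_assoc]
        exact (Finset.sum_Ico_consecutive F (by omega) (by omega)).symm
      rw [hsum]
      calc ‖∑ m ∈ Ico x (x + k), F m + ∑ m ∈ Ico (x + k) (x + k + j), F m‖
          ≤ ‖∑ m ∈ Ico x (x + k), F m‖ + ‖∑ m ∈ Ico (x + k) (x + k + j), F m‖ := norm_add_le _ _
        _ ≤ c * k + c * j := add_le_add (h x k hk0 (by linarith)) (ih j hjH (x + k) hj1)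
        _ = c * H := by rw [hjr]; ring

end Pool.Agent.Lib.H21T
end

-- from Lib.HUK.KB0
section

/-!
# Project HUK, module K, part 2: averages over complete periods (definitions; only `P0`)
-/

open Finset

namespace Pool.Agent.HUK

noncomputable section

/-- The coefficients `k - i`. -/
def lam (k : ℕ) (i : Fin k) : ℤ := (k : ℤ) - (i : ℕ)

/-- The vertex `∑_{ω i} (k - i) h_i`. -/
def vl {k : ℕ} (ω : Fin k → Bool) (h : Fin k → ℤ) : ℤ := vt ω (fun i => lam k i * h i)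

/-- Periodic modulo `M` in all variables. -/
def Pe {k : ℕ} (M : ℕ) (φ : ℤ → (Fin k → ℤ) → ℂ) : Prop :=
  ∀ (y y' : ℤ) (h h' : Fin k → ℤ), (M : ℤ) ∣ y - y' → (∀ i, (M : ℤ) ∣ h i - h' i) → φ y h = φ y' h'

/-- The average over a period of the absolute value of the average over `y`. -/
def Av (k M : ℕ) (φ : ℤ → (Fin k → ℤ) → ℂ) : ℝ :=
  (∑ h ∈ Fintype.piFinset (fun _ : Fin k => Ico (0 : ℤ) M), ‖∑ y ∈ Ico (0 : ℤ) M, φ y h‖) / (M : ℝ) ^ (k + 1)

end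

end Pool.Agent.HUK
end

-- from Lib.HUK.KB3
section

/-!
# Project HUK, chunk KB3 (M): long sums of periodic functions
-/

open Finset

namespace Pool.Agent.HUK

theorem kb3_block (M : ℕ) (hM : 1 ≤ M) (g : ℤ → ℂ) (hg : ∀ y y' : ℤ, (M : ℤ) ∣ y - y' → g y = g y') (a : ℤ) :
    ∑ l ∈ range M, g (a + l) = ∑ y ∈ Ico (0 : ℤ) M, g y := by
  have hM0 : (0 : ℤ) < M := by exact_mod_cast hM
  apply Finset.sum_nbij' (fun l : ℕ => (a + l) % (M : ℤ)) (fun y : ℤ => ((y - a) % (M : ℤ)).toNat)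
  · intro l _
    rw [mem_Ico]
    exact ⟨Int.emod_nonneg _ hM0.ne', Int.emod_lt_of_pos _ hM0⟩
  · intro y _
    rw [mem_range]
    have h1 := Int.emod_nonneg (y - a) hM0.ne'
    have h2 := Int.emod_lt_of_pos (y - a) hM0
    omega
  · intro l hl
    rw [mem_range] at hl
    have h3 : ((a + l) % (M : ℤ) - a) % (M : ℤ) = l := by
      rw [Int.emod_sub_emod, add_sub_cancel_left, Int.emod_eq_of_lt (by omega) (by omega)]
    rw [h3, Int.toNat_natCast]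
  · intro y hy
    rw [mem_Ico] at hy
    have h1 := Int.emod_nonneg (y - a) hM0.ne'
    show (a + (((y - a) % (M : ℤ)).toNat : ℤ)) % (M : ℤ) = y
    rw [Int.toNat_of_nonneg h1, Int.add_emod_emod, add_sub_cancel, Int.emod_eq_of_lt hy.1 hy.2]
  · intro l _
    apply hg
    exact Int.dvd_self_sub_emod

theorem kb3_blocks (M : ℕ) (hM : 1 ≤ M) (g : ℤ → ℂ) (hg : ∀ y y' : ℤ, (M : ℤ) ∣ y - y' → g y = g y') (a : ℤ) (q : ℕ) :
    ∑ l ∈ range (M * q), g (a + l) = q * ∑ y ∈ Ico (0 : ℤ) M, g y := by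
  induction q with
  | zero => simp
  | succ q ih =>
    rw [Nat.mul_succ, Finset.sum_range_add, ih, Nat.cast_add, add_mul, Nat.cast_one, one_mul]
    congr 1
    rw [← kb3_block M hM g hg (a + (M * q : ℕ))]
    apply Finset.sum_congr rfl
    intro l _
    rw [Nat.cast_add, add_assoc]

theorem kb3_one (M H : ℕ) (hM : 1 ≤ M) (g : ℤ → ℂ) (hg : ∀ y y' : ℤ, (M : ℤ) ∣ y - y' → g y = g y')
    (S : ℝ) (hS : ∀ y, ‖g y‖ ≤ S) (a : ℤ) :
    ‖∑ l ∈ range H, g (a + l)‖ ≤ ((H : ℝ) / M) * ‖∑ y ∈ Ico (0 : ℤ) M, g y‖ + M * S := by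
  have hS0 : 0 ≤ S := (norm_nonneg _).trans (hS 0)
  have hM0 : (0 : ℝ) < M := by exact_mod_cast hM
  have h1 : H = M * (H / M) + H % M := (Nat.div_add_mod H M).symm
  rw [h1, Finset.sum_range_add, kb3_blocks M hM g hg a, ← h1]
  refine (norm_add_le _ _).trans (add_le_add ?_ ?_)
  · rw [norm_mul, Complex.norm_natCast]
    apply mul_le_mul_of_nonneg_right _ (norm_nonneg _)
    exact Nat.cast_div_le
  · refine (norm_sum_le _ _).trans ?_
    calc ∑ x ∈ range (H % M), ‖g (a + ((M * (H / M) + x : ℕ) : ℤ))‖ ≤ ∑ x ∈ range (H % M), S :=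
          Finset.sum_le_sum fun x _ => hS _
      _ = (H % M : ℕ) * S := by rw [Finset.sum_const, card_range, nsmul_eq_mul]
      _ ≤ M * S := by
          apply mul_le_mul_of_nonneg_right _ hS0
          exact_mod_cast (Nat.mod_lt H hM).le

theorem kb3_card (M H : ℕ) (hM : 1 ≤ M) (hMH : M ≤ H) (r : ℤ) :
    (((Ioo (-(H : ℤ)) H).filter fun x : ℤ => x % (M : ℤ) = r).card : ℝ) ≤ 4 * H / M := by
  have hM0 : (0 : ℤ) < M := by exact_mod_cast hM
  have hMr : (0 : ℝ) < M := by exact_mod_cast hM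
  have h1 : ((Ioo (-(H : ℤ)) H).filter fun x : ℤ => x % (M : ℤ) = r) ⊆
      (Ico (-(H : ℤ)) H).filter fun x : ℤ => x ≡ r [ZMOD (M : ℤ)] := by
    intro x hx
    rw [mem_filter, mem_Ioo] at hx
    rw [mem_filter, mem_Ico]
    refine ⟨⟨hx.1.1.le, hx.1.2⟩, ?_⟩
    rw [← hx.2]
    exact (Int.mod_modEq x M).symm
  have h2 := Int.Ico_filter_modEq_card (-(H : ℤ)) (H : ℤ) hM0 r
  have h3 : ((((Ico (-(H : ℤ)) H).filter fun x : ℤ => x ≡ r [ZMOD (M : ℤ)]).card : ℤ) : ℚ) ≤ 2 * H / M + 1 := by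
    rw [h2]
    rw [Int.cast_max]
    apply max_le
    · rw [Int.cast_sub]
      have h4 := Int.ceil_lt_add_one (((H : ℤ) - r : ℚ) / ((M : ℤ) : ℚ))
      have h5 := Int.le_ceil (((-(H : ℤ) : ℤ) - r : ℚ) / ((M : ℤ) : ℚ))
      have h6 : ((H : ℤ) - r : ℚ) / ((M : ℤ) : ℚ) - ((-(H : ℤ) : ℤ) - r : ℚ) / ((M : ℤ) : ℚ) = 2 * H / M := by
        rw [← sub_div]
        push_cast
        ring
      linarith
    · simp only [Int.cast_zero]
      positivity
  have h4 : (((Ico (-(H : ℤ)) H).filter fun x : ℤ => x ≡ r [ZMOD (M : ℤ)]).card : ℝ) ≤ 2 * H / M + 1 := by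
    have h3' := (Rat.cast_le (K := ℝ)).mpr h3
    push_cast at h3'
    exact h3'
  have h5 : (1 : ℝ) ≤ H / M := by
    rw [le_div_iff₀ hMr, one_mul]
    exact_mod_cast hMH
  have h6 : ((((Ioo (-(H : ℤ)) H).filter fun x : ℤ => x % (M : ℤ) = r).card : ℕ) : ℝ) ≤
      (((Ico (-(H : ℤ)) H).filter fun x : ℤ => x ≡ r [ZMOD (M : ℤ)]).card : ℝ) := by
    exact_mod_cast Finset.card_le_card h1
  have h7 : (2 * H / M : ℝ) = 2 * (H / M) := by ring
  have h8 : (4 * H / M : ℝ) = 4 * (H / M) := by ring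
  rw [h8]
  rw [h7] at h4
  linarith

theorem kb3_fib {k : ℕ} (M H : ℕ) (hM : 1 ≤ M) (hMH : M ≤ H) (G : (Fin k → ℤ) → ℝ) (hG0 : ∀ h, 0 ≤ G h)
    (hG : ∀ h h' : Fin k → ℤ, (∀ i, (M : ℤ) ∣ h i - h' i) → G h = G h') :
    ∑ j ∈ bxS k H, G j ≤ (4 * H / M : ℝ) ^ k * ∑ h ∈ Fintype.piFinset (fun _ : Fin k => Ico (0 : ℤ) M), G h := by
  have hM0 : (0 : ℤ) < M := by exact_mod_cast hM
  have hmap : ∀ j ∈ bxS k H, (fun i => j i % (M : ℤ)) ∈ Fintype.piFinset (fun _ : Fin k => Ico (0 : ℤ) M) := by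
    intro j _
    rw [Fintype.mem_piFinset]
    intro i
    rw [mem_Ico]
    exact ⟨Int.emod_nonneg _ hM0.ne', Int.emod_lt_of_pos _ hM0⟩
  rw [← Finset.sum_fiberwise_of_maps_to hmap, Finset.mul_sum]
  apply Finset.sum_le_sum
  intro h _
  have h1 : ∑ j ∈ bxS k H with (fun i => j i % (M : ℤ)) = h, G j =
      ((bxS k H).filter fun j => (fun i => j i % (M : ℤ)) = h).card * G h := by
    rw [← nsmul_eq_mul, ← Finset.sum_const]
    apply Finset.sum_congr rfl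
    intro j hj
    rw [mem_filter] at hj
    apply hG
    intro i
    rw [← hj.2]
    exact Int.dvd_self_sub_emod
  rw [h1]
  apply mul_le_mul_of_nonneg_right _ (hG0 h)
  have h2 : ((bxS k H).filter fun j => (fun i => j i % (M : ℤ)) = h) ⊆
      Fintype.piFinset fun i => (Ioo (-(H : ℤ)) H).filter fun x : ℤ => x % (M : ℤ) = h i := by
    intro j hj
    rw [mem_filter, bxS, Fintype.mem_piFinset] at hj
    rw [Fintype.mem_piFinset]
    intro i
    rw [mem_filter]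
    exact ⟨hj.1 i, congrFun hj.2 i⟩
  have h3 : (((bxS k H).filter fun j => (fun i => j i % (M : ℤ)) = h).card : ℝ) ≤
      ∏ i : Fin k, (((Ioo (-(H : ℤ)) H).filter fun x : ℤ => x % (M : ℤ) = h i).card : ℝ) := by
    have := Finset.card_le_card h2
    rw [Fintype.card_piFinset] at this
    exact_mod_cast this
  refine h3.trans ?_
  calc ∏ i : Fin k, (((Ioo (-(H : ℤ)) H).filter fun x : ℤ => x % (M : ℤ) = h i).card : ℝ)
      ≤ ∏ i : Fin k, (4 * H / M : ℝ) := by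
        apply Finset.prod_le_prod
        · intro i _; positivity
        · intro i _; exact kb3_card M H hM hMH (h i)
    _ = (4 * H / M : ℝ) ^ k := by rw [Finset.prod_const, Finset.card_univ, Fintype.card_fin]

/-- Proof. (1) For every `j`: `‖∑ l ∈ range H, φ (n + l) j‖ ≤ (H / M) ‖∑ y ∈ Ico 0 M, φ y j‖ + M S`: write `H = M q + ρ`, `q = H / M ≤ H / M` (real),
`ρ < M`; each of the `q` blocks of `M` consecutive integers gives `∑ y ∈ Ico 0 M, φ y j` by periodicity (a block of `M` consecutive integers is a complete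
system of residues: e.g. `Int.emod` is a bijection from `Ico a (a + M)` to `Ico 0 M`), the rest is at most `ρ S`. (2) `G j = ‖∑ y ∈ Ico 0 M, φ y j‖` is
non-negative and depends only on the residues of `j`; the map `bxS k H → piFinset (Ico 0 M)`, `j ↦ (fun i => j i % M)`, has fibres of size at most
`(4 H / M)^k`: in `(-H, H)` there are at most `2 H / M + 2 ≤ 4 H / M` integers in a residue class (`M ≤ H`). So
`∑_{j ∈ bxS k H} G j ≤ (4 H / M)^k M^(k+1) Av k M φ`. (3) `card (bxS k H) ≤ (2 H)^k`. Total: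
`(H / M) (4 H / M)^k M^(k+1) Av = 4^k H^(k+1) Av`, plus `(2 H)^k M S`. -/
theorem KB3_long {k : ℕ} (M H : ℕ) (hM : 1 ≤ M) (hMH : M ≤ H) (φ : ℤ → (Fin k → ℤ) → ℂ) (hφ : Pe M φ)
    (S : ℝ) (hS : ∀ y h, ‖φ y h‖ ≤ S) (n : ℤ) :
    ∑ j ∈ bxS k H, ‖∑ l ∈ range H, φ (n + l) j‖ ≤
      4 ^ k * (H : ℝ) ^ (k + 1) * Av k M φ + (2 * H) ^ k * M * S := by
  have hMr : (0 : ℝ) < M := by exact_mod_cast hM
  have hS0 : 0 ≤ S := (norm_nonneg _).trans (hS 0 0)
  have h0 : ∀ (y : ℤ) (h h' : Fin k → ℤ), (∀ i, (M : ℤ) ∣ h i - h' i) → φ y h = φ y h' :=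
    fun y h h' hh => hφ y y h h' (by simp) hh
  have h1 : ∀ j ∈ bxS k H, ‖∑ l ∈ range H, φ (n + l) j‖ ≤
      ((H : ℝ) / M) * ‖∑ y ∈ Ico (0 : ℤ) M, φ y j‖ + M * S := by
    intro j _
    exact kb3_one M H hM (fun y => φ y j) (fun y y' hy => hφ y y' j j hy (by simp)) S (fun y => hS y j) n
  refine (Finset.sum_le_sum h1).trans ?_
  rw [Finset.sum_add_distrib, ← Finset.mul_sum, Finset.sum_const, nsmul_eq_mul]
  apply add_le_add
  · have h2 := kb3_fib M H hM hMH (fun j => ‖∑ y ∈ Ico (0 : ℤ) M, φ y j‖) (fun _ => norm_nonneg _)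
      (fun h h' hh => by
        show ‖_‖ = ‖_‖
        congr 1
        exact Finset.sum_congr rfl fun y _ => h0 y h h' hh)
    refine (mul_le_mul_of_nonneg_left h2 (by positivity)).trans (le_of_eq ?_)
    unfold Av
    rw [div_pow, mul_pow]
    field_simp
    ring
  · have h3 : ((bxS k H).card : ℝ) ≤ (2 * H) ^ k := by
      unfold bxS
      rw [Fintype.card_piFinset]
      simp only [Int.card_Ioo, Finset.prod_const, Finset.card_univ, Fintype.card_fin]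
      rw [Nat.cast_pow]
      apply pow_le_pow_left₀ (by positivity)
      have : ((H : ℤ) - -(H : ℤ) - 1).toNat ≤ 2 * H := by omega
      exact_mod_cast this
    rw [mul_assoc]
    exact mul_le_mul_of_nonneg_right h3 (by positivity)

end Pool.Agent.HUK
end

-- from Lib.HUK.KB1
section

/-!
# Project HUK, chunk KB1 (M): Chinese remainder theorem for averages
-/

open Finset

namespace Pool.Agent.HUK

theorem kb1_inj (M1 M2 : ℕ) (hc : Nat.Coprime M1 M2) {x y : ℤ}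
    (hx : x ∈ Ico (0 : ℤ) ((M1 * M2 : ℕ) : ℤ)) (hy : y ∈ Ico (0 : ℤ) ((M1 * M2 : ℕ) : ℤ))
    (e1 : x % (M1 : ℤ) = y % (M1 : ℤ)) (e2 : x % (M2 : ℤ) = y % (M2 : ℤ)) : x = y := by
  have d1 : (M1 : ℤ) ∣ x - y := Int.ModEq.dvd (show y ≡ x [ZMOD M1] from e1.symm)
  have d2 : (M2 : ℤ) ∣ x - y := Int.ModEq.dvd (show y ≡ x [ZMOD M2] from e2.symm)
  have hc' : IsCoprime (M1 : ℤ) (M2 : ℤ) := Nat.isCoprime_iff_coprime.2 hc
  have d : (M1 : ℤ) * M2 ∣ x - y := hc'.mul_dvd d1 d2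
  rw [mem_Ico] at hx hy
  push_cast at hx hy
  have h0 : x - y = 0 := Int.eq_zero_of_abs_lt_dvd d (by rw [abs_lt]; constructor <;> linarith [hx.1, hx.2, hy.1, hy.2])
  linarith

theorem kb1_surj (M1 M2 : ℕ) (h1 : 1 ≤ M1) (h2 : 1 ≤ M2) (hc : Nat.Coprime M1 M2) {a b : ℤ}
    (ha : a ∈ Ico (0 : ℤ) M1) (hb : b ∈ Ico (0 : ℤ) M2) :
    ∃ x ∈ Ico (0 : ℤ) ((M1 * M2 : ℕ) : ℤ), x % (M1 : ℤ) = a ∧ x % (M2 : ℤ) = b := by
  rw [mem_Ico] at ha hb
  have hk := (Nat.chineseRemainder hc a.toNat b.toNat).2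
  have hlt := Nat.chineseRemainder_lt_mul hc a.toNat b.toNat (by omega) (by omega)
  set k : ℕ := (Nat.chineseRemainder hc a.toNat b.toNat : ℕ) with hkd
  refine ⟨(k : ℤ), ?_, ?_, ?_⟩
  · rw [mem_Ico]
    exact ⟨by positivity, by exact_mod_cast hlt⟩
  · have e := hk.1
    have e' : (k : ℤ) % (M1 : ℤ) = (a.toNat : ℤ) % (M1 : ℤ) := by
      have := congrArg (fun n : ℕ => (n : ℤ)) (show k % M1 = a.toNat % M1 from e)
      simpa using this
    rw [e', Int.toNat_of_nonneg ha.1, Int.emod_eq_of_lt ha.1 ha.2]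
  · have e := hk.2
    have e' : (k : ℤ) % (M2 : ℤ) = (b.toNat : ℤ) % (M2 : ℤ) := by
      have := congrArg (fun n : ℕ => (n : ℤ)) (show k % M2 = b.toNat % M2 from e)
      simpa using this
    rw [e', Int.toNat_of_nonneg hb.1, Int.emod_eq_of_lt hb.1 hb.2]

theorem kb1_mem (M : ℕ) (h : 1 ≤ M) (x : ℤ) : x % (M : ℤ) ∈ Ico (0 : ℤ) M := by
  rw [mem_Ico]
  have : (0 : ℤ) < M := by exact_mod_cast h
  exact ⟨Int.emod_nonneg _ this.ne', Int.emod_lt_of_pos _ this⟩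

theorem kb1_sum1 (M1 M2 : ℕ) (h1 : 1 ≤ M1) (h2 : 1 ≤ M2) (hc : Nat.Coprime M1 M2) (F : ℤ → ℤ → ℂ) :
    ∑ x ∈ Ico (0 : ℤ) ((M1 * M2 : ℕ) : ℤ), F (x % (M1 : ℤ)) (x % (M2 : ℤ)) =
      ∑ a ∈ Ico (0 : ℤ) M1, ∑ b ∈ Ico (0 : ℤ) M2, F a b := by
  rw [← sum_product' (Ico (0 : ℤ) M1) (Ico (0 : ℤ) M2) F]
  refine sum_bij (fun x _ => (x % (M1 : ℤ), x % (M2 : ℤ))) ?_ ?_ ?_ ?_
  · intro x _
    exact mem_product.2 ⟨kb1_mem M1 h1 x, kb1_mem M2 h2 x⟩
  · intro x hx y hy e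
    rw [Prod.mk.injEq] at e
    exact kb1_inj M1 M2 hc hx hy e.1 e.2
  · rintro ⟨a, b⟩ hab
    rw [mem_product] at hab
    obtain ⟨x, hx, e1, e2⟩ := kb1_surj M1 M2 h1 h2 hc hab.1 hab.2
    exact ⟨x, hx, by rw [e1, e2]⟩
  · intro x _; rfl

theorem kb1_sumk (k M1 M2 : ℕ) (h1 : 1 ≤ M1) (h2 : 1 ≤ M2) (hc : Nat.Coprime M1 M2)
    (F : (Fin k → ℤ) → (Fin k → ℤ) → ℝ) :
    ∑ h ∈ Fintype.piFinset (fun _ : Fin k => Ico (0 : ℤ) ((M1 * M2 : ℕ) : ℤ)),
      F (fun i => h i % (M1 : ℤ)) (fun i => h i % (M2 : ℤ)) =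
      ∑ a ∈ Fintype.piFinset (fun _ : Fin k => Ico (0 : ℤ) M1),
        ∑ b ∈ Fintype.piFinset (fun _ : Fin k => Ico (0 : ℤ) M2), F a b := by
  rw [← sum_product' _ _ F]
  refine sum_bij (fun h _ => (fun i => h i % (M1 : ℤ), fun i => h i % (M2 : ℤ))) ?_ ?_ ?_ ?_
  · intro h _
    exact mem_product.2 ⟨Fintype.mem_piFinset.2 fun i => kb1_mem M1 h1 _,
      Fintype.mem_piFinset.2 fun i => kb1_mem M2 h2 _⟩
  · intro x hx y hy e
    rw [Prod.mk.injEq] at e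
    funext i
    exact kb1_inj M1 M2 hc (Fintype.mem_piFinset.1 hx i) (Fintype.mem_piFinset.1 hy i)
      (congrFun e.1 i) (congrFun e.2 i)
  · rintro ⟨a, b⟩ hab
    rw [mem_product, Fintype.mem_piFinset, Fintype.mem_piFinset] at hab
    choose x hx e1 e2 using fun i => kb1_surj M1 M2 h1 h2 hc (hab.1 i) (hab.2 i)
    refine ⟨x, Fintype.mem_piFinset.2 hx, ?_⟩
    rw [Prod.mk.injEq]
    exact ⟨funext e1, funext e2⟩
  · intro x _; rfl

/-- Proof. The map `x ↦ (x % M1, x % M2)` is a bijection from `Ico 0 (M1 * M2)` to `Ico 0 M1 ×ˢ Ico 0 M2` (injective by coprimality, and both sides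
have `M1 * M2` elements; or surjective by `Nat.chineseRemainder`), and for `h : Fin k → ℤ` coordinatewise. For fixed `h` with residues `h1`, `h2`
(modulo `M1`, `M2`): `∑_{y ∈ Ico 0 (M1 M2)} φ1 y h * φ2 y h = ∑_{y1} ∑_{y2} φ1 y1 h1 * φ2 y2 h2 = (∑_{y1} φ1 y1 h1) (∑_{y2} φ2 y2 h2)` (periodicity);
take norms and sum over `h` in the same way; `(M1 M2)^(k+1) = M1^(k+1) M2^(k+1)`. -/
theorem KB1_mul {k : ℕ} (M1 M2 : ℕ) (h1 : 1 ≤ M1) (h2 : 1 ≤ M2) (hc : Nat.Coprime M1 M2)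
    (φ1 φ2 : ℤ → (Fin k → ℤ) → ℂ) (hp1 : Pe M1 φ1) (hp2 : Pe M2 φ2) :
    Av k (M1 * M2) (fun y h => φ1 y h * φ2 y h) = Av k M1 φ1 * Av k M2 φ2 := by
  have e1 : ∀ (M : ℕ) (φ : ℤ → (Fin k → ℤ) → ℂ), Pe M φ → ∀ y h,
      φ y h = φ (y % (M : ℤ)) (fun i => h i % (M : ℤ)) := by
    intro M φ hp y h
    apply hp
    · exact Int.dvd_self_sub_emod
    · intro i; exact Int.dvd_self_sub_emod
  have e2 : ∀ h : Fin k → ℤ, ‖∑ y ∈ Ico (0 : ℤ) ((M1 * M2 : ℕ) : ℤ), φ1 y h * φ2 y h‖ =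
      ‖∑ y ∈ Ico (0 : ℤ) M1, φ1 y (fun i => h i % (M1 : ℤ))‖ * ‖∑ y ∈ Ico (0 : ℤ) M2, φ2 y (fun i => h i % (M2 : ℤ))‖ := by
    intro h
    rw [← norm_mul, sum_mul_sum]
    congr 1
    rw [← kb1_sum1 M1 M2 h1 h2 hc
      (fun a b => φ1 a (fun i => h i % (M1 : ℤ)) * φ2 b (fun i => h i % (M2 : ℤ)))]
    apply sum_congr rfl; intro y _
    rw [e1 M1 φ1 hp1 y h, e1 M2 φ2 hp2 y h]
  simp only [Av]
  rw [sum_congr rfl fun h _ => e2 h]
  rw [kb1_sumk k M1 M2 h1 h2 hc (fun a b => ‖∑ y ∈ Ico (0 : ℤ) M1, φ1 y a‖ * ‖∑ y ∈ Ico (0 : ℤ) M2, φ2 y b‖)]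
  rw [← sum_mul_sum, div_mul_div_comm]
  congr 1
  push_cast
  rw [mul_pow]

/-- Rules for `Pe` and `Av` (short). -/
theorem KB1_per {k : ℕ} (M1 M2 : ℕ) (φ1 φ2 : ℤ → (Fin k → ℤ) → ℂ) (hp1 : Pe M1 φ1) (hp2 : Pe M2 φ2) :
    Pe (M1 * M2) (fun y h => φ1 y h * φ2 y h) := by
  intro y y' h h' hy hh
  have hm : ((M1 * M2 : ℕ) : ℤ) = (M1 : ℤ) * M2 := by push_cast; rfl
  rw [hm] at hy
  have a1 := hp1 y y' h h' ((dvd_mul_right _ _).trans hy) fun i => (dvd_mul_right _ _).trans (hm ▸ hh i)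
  have a2 := hp2 y y' h h' ((dvd_mul_left _ _).trans hy) fun i => (dvd_mul_left _ _).trans (hm ▸ hh i)
  simp only [a1, a2]

theorem KB1_nn (k M : ℕ) (φ : ℤ → (Fin k → ℤ) → ℂ) : 0 ≤ Av k M φ := by
  rw [Av]
  positivity

theorem KB1_smul (k M : ℕ) (a : ℂ) (φ : ℤ → (Fin k → ℤ) → ℂ) : Av k M (fun y h => a * φ y h) = ‖a‖ * Av k M φ := by
  rw [Av, Av, mul_div_assoc', mul_sum]
  congr 1
  apply sum_congr rfl; intro h _
  rw [← mul_sum, norm_mul]

theorem KB1_one (k : ℕ) (M : ℕ) (hM : 1 ≤ M) (φ : ℤ → (Fin k → ℤ) → ℂ) (h : ∀ y h, ‖φ y h‖ ≤ 1) : Av k M φ ≤ 1 := by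
  have hM' : (0 : ℝ) < M := by exact_mod_cast hM
  rw [Av]
  apply div_le_one_of_le₀ _ (by positivity)
  have h1 : ∀ a : Fin k → ℤ, ‖∑ y ∈ Ico (0 : ℤ) M, φ y a‖ ≤ M := by
    intro a
    refine (norm_sum_le _ _).trans ?_
    refine (sum_le_sum fun y _ => h y a).trans ?_
    simp
  refine (sum_le_sum fun a _ => h1 a).trans ?_
  rw [sum_const, Fintype.card_piFinset]
  simp only [Int.card_Ico, sub_zero, Int.toNat_natCast, prod_const, card_univ, Fintype.card_fin, nsmul_eq_mul]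
  push_cast
  rw [pow_succ]

end Pool.Agent.HUK
end

-- from Lib.HUK.KB2
section

/-!
# Project HUK, chunk KB2 (S/M): products over primes
-/

open Finset

namespace Pool.Agent.HUK

/-- Proof. Induction on `P` (`Finset.induction_on`): `P = ∅`: `r * 1 = r`, `φ0 * 1 = φ0`. Step `insert q P`: `r * (q * ∏ l ∈ P, l) = (r * ∏ l ∈ P, l) * q`,
the numbers `r * ∏ l ∈ P, l` and `q` are coprime (distinct primes; `Nat.Coprime.prod_left`), `KB1_mul`, `KB1_per`. -/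
theorem KB2_prod {k : ℕ} (r : ℕ) (hr : 1 ≤ r) (P : Finset ℕ) (hP : ∀ l ∈ P, l.Prime) (hPr : ∀ l ∈ P, Nat.Coprime l r)
    (φ0 : ℤ → (Fin k → ℤ) → ℂ) (h0 : Pe r φ0) (φ : ℕ → ℤ → (Fin k → ℤ) → ℂ) (hφ : ∀ l ∈ P, Pe l (φ l)) :
    Pe (r * ∏ l ∈ P, l) (fun y h => φ0 y h * ∏ l ∈ P, φ l y h) ∧
    Av k (r * ∏ l ∈ P, l) (fun y h => φ0 y h * ∏ l ∈ P, φ l y h) = Av k r φ0 * ∏ l ∈ P, Av k l (φ l) := by
  classical
  revert hP hPr hφ
  refine Finset.induction_on P ?_ ?_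
  · intro _ _ _
    simp only [Finset.prod_empty, mul_one]
    exact ⟨h0, trivial⟩
  · intro q S hq ih hP hPr hφ
    have hqS : q ∈ insert q S := mem_insert_self _ _
    obtain ⟨ih1, ih2⟩ := ih (fun l hl => hP l (mem_insert_of_mem hl)) (fun l hl => hPr l (mem_insert_of_mem hl))
      (fun l hl => hφ l (mem_insert_of_mem hl))
    have hqp := hP q hqS
    have hM : 1 ≤ r * ∏ l ∈ S, l := Nat.mul_pos hr (Finset.prod_pos fun l hl => (hP l (mem_insert_of_mem hl)).pos)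
    have hco : Nat.Coprime (r * ∏ l ∈ S, l) q := by
      refine Nat.Coprime.mul_left (hPr q hqS).symm ?_
      refine Nat.Coprime.prod_left fun l hl => ?_
      exact (Nat.coprime_primes (hP l (mem_insert_of_mem hl)) hqp).2 (fun h => hq (h ▸ hl))
    have e1 : r * ∏ l ∈ insert q S, l = (r * ∏ l ∈ S, l) * q := by
      rw [prod_insert hq]
      ring
    have e2 : (fun y h => φ0 y h * ∏ l ∈ insert q S, φ l y h) = fun y h => (φ0 y h * ∏ l ∈ S, φ l y h) * φ q y h := by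
      funext y h
      rw [prod_insert hq]
      ring
    rw [e1, e2]
    refine ⟨KB1_per _ _ _ _ ih1 (hφ q hqS), ?_⟩
    rw [KB1_mul _ _ hM hqp.pos hco _ _ ih1 (hφ q hqS), ih2, prod_insert hq]
    ring

end Pool.Agent.HUK
end

-- from Lib.HUK.A4
section

/-!
# Project HUK, chunk A4 (M): the quasi-period of the product over the cube
-/

open Finset

namespace Pool.Agent.HUK

open Pool.Agent.H44W (ee)

/-- Auxiliary: the recursion of `DL` at the first direction. -/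
theorem a4_cons (c : ℤ × ℤ → ℂ) (p : ℤ × ℤ) (L : List (ℤ × ℤ)) (z a : ℤ) :
    DL (p :: L) c (z, a) = DL L c (z, a) * (starRingEnd ℂ) (DL L c (z + p.1, a + p.2)) := by
  have h : DL (p :: L) c = DD p (DL L c) := DL_DD L p c
  rw [h]
  rfl

/-- If not all vertices are in `(K, 2K]`, the product vanishes. Induction on `L` (`DL_DD`: `DL (p :: L) c = DD p (DL L c)`). -/
theorem A4_zero (X K H : ℕ) (ψ : ℝ) (c : ℤ × ℤ → ℂ) (hc : QP X K H ψ c) (L : List (ℤ × ℤ)) (z a : ℤ)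
    (hV : ¬ Vt K (L.map Prod.snd) a) : DL L c (z, a) = 0 := by
  induction L generalizing z a with
  | nil => exact hc.supa z a hV
  | cons p L ih =>
    rw [a4_cons]
    by_cases h1 : Vt K (L.map Prod.snd) a
    · have h2 : ¬ Vt K (L.map Prod.snd) (a + p.2) := fun h2 => hV ⟨h1, h2⟩
      rw [ih (z + p.1) (a + p.2) h2, map_zero, mul_zero]
    · rw [ih z a h1, zero_mul]

theorem A4_pos (K : ℕ) (l : List ℤ) (a : ℤ) (hV : Vt K l a) :
    0 < Qf l a ∧ (Qf l a : ℝ) ≤ (2 * K) ^ (2 ^ l.length) := by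
  induction l generalizing a with
  | nil =>
    obtain ⟨h1, h2⟩ := hV
    refine ⟨lt_of_le_of_lt (Int.natCast_nonneg K) h1, ?_⟩
    have h3 : ((a : ℤ) : ℝ) ≤ ((2 * K : ℤ) : ℝ) := by exact_mod_cast h2
    simpa [Qf] using h3
  | cons j l ih =>
    obtain ⟨h1, h2⟩ := hV
    obtain ⟨p1, q1⟩ := ih a h1
    obtain ⟨p2, q2⟩ := ih (a + j) h2
    refine ⟨mul_pos p1 p2, ?_⟩
    have p2' : (0 : ℝ) ≤ (Qf l (a + j) : ℝ) := by exact_mod_cast p2.le
    have p1' : (0 : ℝ) ≤ (Qf l a : ℝ) := by exact_mod_cast p1.le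
    have e : (Qf (j :: l) a : ℝ) = (Qf l a : ℝ) * (Qf l (a + j) : ℝ) := by
      show (((Qf l a * Qf l (a + j) : ℤ)) : ℝ) = _
      push_cast
      rfl
    rw [e, List.length_cons, pow_succ, pow_mul, sq]
    exact mul_le_mul q1 q2 p2' (p1'.trans q1)

/-- Auxiliary: products of two approximations. -/
theorem a4_prod (U1 U2 u1 u2 e1 e2 : ℂ) (δ1 δ2 : ℝ) (h1 : ‖U1 - e1 * u1‖ ≤ δ1) (h2 : ‖U2 - e2 * u2‖ ≤ δ2)
    (hU2 : ‖U2‖ ≤ 1) (hu1 : ‖u1‖ ≤ 1) (he1 : ‖e1‖ = 1) :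
    ‖U1 * (starRingEnd ℂ) U2 - (e1 * (starRingEnd ℂ) e2) * (u1 * (starRingEnd ℂ) u2)‖ ≤ δ1 + δ2 := by
  have e : U1 * (starRingEnd ℂ) U2 - (e1 * (starRingEnd ℂ) e2) * (u1 * (starRingEnd ℂ) u2) =
      (U1 - e1 * u1) * (starRingEnd ℂ) U2 + (e1 * u1) * (starRingEnd ℂ) (U2 - e2 * u2) := by
    rw [map_sub, map_mul]
    ring
  rw [e]
  refine (norm_add_le _ _).trans (add_le_add ?_ ?_)
  · rw [norm_mul, Complex.norm_conj]
    calc ‖U1 - e1 * u1‖ * ‖U2‖ ≤ ‖U1 - e1 * u1‖ * 1 := mul_le_mul_of_nonneg_left hU2 (norm_nonneg _)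
      _ ≤ δ1 := by rw [mul_one]; exact h1
  · rw [norm_mul, Complex.norm_conj, norm_mul, he1, one_mul]
    calc ‖u1‖ * ‖U2 - e2 * u2‖ ≤ 1 * ‖U2 - e2 * u2‖ := mul_le_mul_of_nonneg_right hu1 (norm_nonneg _)
      _ ≤ δ2 := by rw [one_mul]; exact h2

/-- Proof by induction on `L`. `U = DL L c`, `DL ((σ, j) :: L) c (z, a) = U (z, a) * conj U (z + σ, a + j)` (`DL_DD`). With `Q = Qf l a`, `Q' = Qf l (a + j)`,
`Qf (j :: l) a = Q Q'`: the translation by `Q Q' k` is `Q (Q' k)` for the first and `Q' (Q k)` for the second factor; the phases are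
`ee(ψ Df l a Q' k)`, `ee(ψ Df l (a+j) Q k)`, the quotient is `ee(ψ Df (j :: l) a k)`; the errors `2^|l| (Q' k) Q/(K H)` and `2^|l| (Q k) Q'/(K H)`, all
functions are bounded by `1`. Base: `k/H ≤ k a/(K H)`. -/
theorem A4_qp (X K H : ℕ) (hK : 1 ≤ K) (hH : 1 ≤ H) (ψ : ℝ) (c : ℤ × ℤ → ℂ) (hc : QP X K H ψ c) (L : List (ℤ × ℤ)) (a : ℤ)
    (hV : Vt K (L.map Prod.snd) a) (z : ℤ) (k : ℕ) :
    ‖DL L c (z + Qf (L.map Prod.snd) a * k, a) - ee (ψ * (Df (L.map Prod.snd) a * k)) * DL L c (z, a)‖ ≤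
      2 ^ L.length * (k * Qf (L.map Prod.snd) a) / (K * H) := by
  induction L generalizing a z k with
  | nil =>
    obtain ⟨h1, h2⟩ := hV
    have h3 := hc.qp z a k h1 h2
    have hK' : (0 : ℝ) < K := by exact_mod_cast hK
    have hH' : (0 : ℝ) < H := by exact_mod_cast hH
    have ha : (K : ℝ) ≤ (a : ℝ) := by exact_mod_cast h1.le
    have e1 : ψ * (((Df (List.map Prod.snd ([] : List (ℤ × ℤ))) a : ℤ) : ℝ) * (k : ℝ)) = ψ * k := by
      simp [Df]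
    rw [e1]
    refine h3.trans ?_
    show (k : ℝ) / H ≤ 2 ^ 0 * (k * (a : ℝ)) / (K * H)
    rw [pow_zero, one_mul, div_le_div_iff₀ hH' (mul_pos hK' hH')]
    have hk : (0 : ℝ) ≤ k := Nat.cast_nonneg k
    have := mul_le_mul_of_nonneg_left ha (mul_nonneg hk hH'.le)
    nlinarith
  | cons p L ih =>
    obtain ⟨h1, h2⟩ := hV
    set l := L.map Prod.snd with hl
    obtain ⟨p1, -⟩ := A4_pos K l a h1
    obtain ⟨p2, -⟩ := A4_pos K l (a + p.2) h2
    obtain ⟨Q, hQ⟩ : ∃ Q : ℕ, (Q : ℤ) = Qf l a := ⟨(Qf l a).toNat, Int.toNat_of_nonneg p1.le⟩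
    obtain ⟨Q', hQ'⟩ : ∃ Q' : ℕ, (Q' : ℤ) = Qf l (a + p.2) := ⟨(Qf l (a + p.2)).toNat, Int.toNat_of_nonneg p2.le⟩
    have i1 := ih a h1 z (Q' * k)
    have i2 := ih (a + p.2) h2 (z + p.1) (Q * k)
    have eQ : Qf (List.map Prod.snd (p :: L)) a = Qf l a * Qf l (a + p.2) := rfl
    have eD : Df (List.map Prod.snd (p :: L)) a = Df l a * Qf l (a + p.2) - Df l (a + p.2) * Qf l a := rfl
    rw [a4_cons, a4_cons, eQ, eD, List.length_cons]
    rw [← hQ] at i1 ⊢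
    rw [← hQ'] at i2 ⊢
    have z1 : z + (Q : ℤ) * ((Q' * k : ℕ) : ℤ) = z + (Q : ℤ) * (Q' : ℤ) * (k : ℤ) := by push_cast; ring
    have z2 : z + p.1 + (Q' : ℤ) * ((Q * k : ℕ) : ℤ) = z + (Q : ℤ) * (Q' : ℤ) * (k : ℤ) + p.1 := by push_cast; ring
    rw [z1] at i1
    rw [z2] at i2
    have hP := a4_prod _ _ _ _ _ _ _ _ i1 i2 (DL_norm L c hc.le _) (DL_norm L c hc.le _)
      (Pool.Agent.H44W.norm_ee _)
    rw [← Pool.Agent.H44W.ee_neg, ← Pool.Agent.H44W.ee_add] at hP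
    have e1 : ψ * (((Df l a : ℤ) : ℝ) * ((Q' * k : ℕ) : ℝ)) + -(ψ * (((Df l (a + p.2) : ℤ) : ℝ) * ((Q * k : ℕ) : ℝ))) =
        ψ * (((Df l a * (Q' : ℤ) - Df l (a + p.2) * (Q : ℤ) : ℤ) : ℝ) * (k : ℝ)) := by
      push_cast
      ring
    have e2 : 2 ^ L.length * (((Q' * k : ℕ) : ℝ) * (((Q : ℤ)) : ℝ)) / ((K : ℝ) * H) +
        2 ^ L.length * (((Q * k : ℕ) : ℝ) * (((Q' : ℤ)) : ℝ)) / ((K : ℝ) * H) =
        2 ^ (L.length + 1) * ((k : ℝ) * (((Q : ℤ) * (Q' : ℤ) : ℤ) : ℝ)) / ((K : ℝ) * H) := by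
      push_cast
      ring
    rw [e1, e2] at hP
    exact hP

end Pool.Agent.HUK
end

-- from Lib.HUK.A5
section

/-!
# Project HUK, chunk A5 (M): a large sum over `z` gives a diophantine condition for `ψ`
-/

open Finset

namespace Pool.Agent.HUK

open Pool.Agent.H44W (ee)
open Pool.Agent.Lib.H84V (nd)

theorem a5_one_sub (t : ℝ) : 4 * nd t ≤ ‖1 - ee t‖ := by
  have h1 : ee t = ee (t - round t) := by
    have h2 : t = (t - round t) + ((round t : ℤ) : ℝ) := by ring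
    conv_lhs => rw [h2]
    rw [Pool.Agent.H44W.ee_add, Pool.Agent.H44W.ee_int, mul_one]
  have h3 : |t - round t| ≤ 1 / 2 := abs_sub_round t
  rw [h1]
  unfold Pool.Agent.Lib.H84V.nd
  set s := t - round t with hs
  have h4 : ‖1 - ee s‖ = ‖2 * Real.sin (Real.pi * s)‖ := by
    rw [norm_sub_rev]
    have h5 := Complex.norm_exp_I_mul_ofReal_sub_one (2 * Real.pi * s)
    have h6 : 2 * Real.pi * s / 2 = Real.pi * s := by ring
    rw [h6] at h5
    rw [← h5]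
    unfold Pool.Agent.H44W.ee
    congr 3
    push_cast
    ring
  rw [h4, Real.norm_eq_abs, abs_mul, abs_two]
  have h7 : |Real.sin (Real.pi * s)| = |Real.sin (Real.pi * |s|)| := by
    rcases le_or_gt 0 s with h | h
    · rw [abs_of_nonneg h]
    · rw [abs_of_neg h, mul_neg, Real.sin_neg, abs_neg]
  have h8 : 2 / Real.pi * (Real.pi * |s|) ≤ Real.sin (Real.pi * |s|) := by
    refine Real.mul_le_sin (by positivity) ?_
    have := Real.pi_pos
    nlinarith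
  have h9 : 2 / Real.pi * (Real.pi * |s|) = 2 * |s| := by
    field_simp
  rw [h9] at h8
  rw [h7]
  have h10 := le_abs_self (Real.sin (Real.pi * |s|))
  linarith


/-- Proof. `U z = DL L c (z, a)`, `Q = Qf …`, `D = Df …`, `n = 2^|L|`. `U` is bounded by `1`, supported in `[-3X, 3X)`. For `R ≥ 1` with `Q R ≤ X`:
`R ∑_z U(z) = ∑_{k<R} ∑_{z ∈ [-4X, 3X)} U(z + Q k)`, so by `A4_qp`
`‖∑_z U(z)‖ ≤ 7X ‖(1/R) ∑_{k<R} ee(ψ D k)‖ + 7X n R Q/(K H)`. Take `R = ⌊ρ K H/(14 n Q)⌋ ≥ 1` (`≥ ρ K H/(28 n Q)`): the last term is at most `ρ X/2`, so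
`‖∑_{k<R} ee(ψ D k)‖ ≥ ρ R/14`, and `A5_geo` gives `nd(ψ D) ≤ 7/(ρ R) ≤ 196 n Q/(ρ² K H)`. -/
theorem A5_sum (X K H : ℕ) (hX : 1 ≤ X) (hK : 1 ≤ K) (hH : 1 ≤ H) (hKH : K * H ≤ X) (ψ : ℝ) (c : ℤ × ℤ → ℂ)
    (hc : QP X K H ψ c) (L : List (ℤ × ℤ)) (a : ℤ) (hV : Vt K (L.map Prod.snd) a) (ρ : ℝ) (hρ : 0 < ρ) (hρ1 : ρ ≤ 1)
    (hQ : 14 * 2 ^ L.length * (Qf (L.map Prod.snd) a : ℝ) ≤ ρ * (K * H))
    (h : ρ * X ≤ ‖∑ z ∈ Ico (-(3 * X : ℤ)) (3 * X), DL L c (z, a)‖) :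
    nd (ψ * Df (L.map Prod.snd) a) ≤ 196 * 2 ^ L.length * Qf (L.map Prod.snd) a / (ρ ^ 2 * (K * H)) := by
  have hpos := A4_pos K (L.map Prod.snd) a hV
  have hqp := fun z : ℤ => A4_qp X K H hK hH ψ c hc L a hV z 1
  set Q := Qf (L.map Prod.snd) a with hQdef
  set D := Df (L.map Prod.snd) a with hDdef
  have hQpos : (0 : ℝ) < Q := by exact_mod_cast hpos.1
  have hU0 : ∀ z : ℤ, z ∉ Ico (-(3 * X : ℤ)) (3 * X) → DL L c (z, a) = 0 := fun z hz =>
    DL_supp L c (z, a) (hc.supz z a hz)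
  have hXr : (1 : ℝ) ≤ X := by exact_mod_cast hX
  have hKr : (1 : ℝ) ≤ K := by exact_mod_cast hK
  have hHr : (1 : ℝ) ≤ H := by exact_mod_cast hH
  have hKHr : (K : ℝ) * H ≤ X := by exact_mod_cast hKH
  have hn1 : (1 : ℝ) ≤ 2 ^ L.length := one_le_pow₀ (by norm_num)
  have hKHpos : (0 : ℝ) < (K : ℝ) * H := by positivity
  -- `Q ≤ X`
  have hQX : Q ≤ (X : ℤ) := by
    have h1 : (Q : ℝ) ≤ 14 * 2 ^ L.length * (Q : ℝ) := by nlinarith
    have h2 : ρ * (K * H) ≤ X := by nlinarith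
    have h3 : (Q : ℝ) ≤ ((X : ℤ) : ℝ) := by push_cast; linarith
    exact_mod_cast h3
  -- the sum over the larger interval
  set S := ∑ z ∈ Ico (-(3 * X : ℤ)) (3 * X), DL L c (z, a) with hS
  have hS0 : ∑ z ∈ Ico (-(4 * X : ℤ)) (3 * X), DL L c (z, a) = S := by
    rw [hS]
    symm
    apply Finset.sum_subset
    · intro z hz
      simp only [Finset.mem_Ico] at hz ⊢
      constructor
      · have : (0 : ℤ) ≤ X := by positivity
        linarith
      · exact hz.2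
    · intro z _ hz
      exact hU0 z hz
  have hS1 : ∑ z ∈ Ico (-(4 * X : ℤ)) (3 * X), DL L c (z + Q, a) = S := by
    have h1 := Finset.sum_Ico_add' (fun z : ℤ => DL L c (z, a)) (-(4 * X : ℤ)) (3 * X) Q
    rw [h1, hS]
    symm
    apply Finset.sum_subset
    · intro z hz
      simp only [Finset.mem_Ico] at hz ⊢
      have h5 := hpos.1
      constructor
      · linarith
      · linarith
    · intro z _ hz
      exact hU0 z hz
  have h1 : ‖S - ee (ψ * D) * S‖ ≤ 7 * X * (2 ^ L.length * Q / (K * H)) := by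
    have h2 : S - ee (ψ * D) * S = ∑ z ∈ Ico (-(4 * X : ℤ)) (3 * X),
        (DL L c (z + Q, a) - ee (ψ * D) * DL L c (z, a)) := by
      rw [Finset.sum_sub_distrib, ← Finset.mul_sum, hS0, hS1]
    rw [h2]
    have h3 : ∀ z ∈ Ico (-(4 * X : ℤ)) (3 * X), ‖DL L c (z + Q, a) - ee (ψ * D) * DL L c (z, a)‖ ≤
        2 ^ L.length * Q / (K * H) := by
      intro z _
      have h4 := hqp z
      simpa using h4
    refine (norm_sum_le_of_le _ h3).trans ?_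
    rw [Finset.sum_const, nsmul_eq_mul, Int.card_Ico]
    have h5 : ((3 * X : ℤ) - -(4 * X : ℤ)).toNat = 7 * X := by omega
    rw [h5]
    push_cast
    exact le_refl _
  have h2 : ‖S - ee (ψ * D) * S‖ = ‖1 - ee (ψ * D)‖ * ‖S‖ := by
    rw [← norm_mul]
    congr 1
    ring
  rw [h2] at h1
  have h3 := a5_one_sub (ψ * D)
  have hnd := Pool.Agent.Lib.H84V.nd_nonneg (ψ * D)
  -- `4 nd (ρ X) ≤ 7 X n Q/(KH)`
  have h4 : 4 * nd (ψ * D) * (ρ * X) ≤ 7 * X * (2 ^ L.length * Q / (K * H)) := by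
    refine le_trans ?_ h1
    exact mul_le_mul h3 h (by positivity) (norm_nonneg _)
  have h5 : 4 * nd (ψ * D) * ρ ≤ 7 * (2 ^ L.length * Q / (K * H)) := by
    have hX0 : (0 : ℝ) < X := by linarith
    have h6 : (4 * nd (ψ * D) * ρ) * X ≤ (7 * (2 ^ L.length * Q / (K * H))) * X := by
      calc (4 * nd (ψ * D) * ρ) * X = 4 * nd (ψ * D) * (ρ * X) := by ring
        _ ≤ 7 * X * (2 ^ L.length * Q / (K * H)) := h4
        _ = _ := by ring
    exact le_of_mul_le_mul_right h6 hX0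
  rw [le_div_iff₀ (by positivity)]
  have h7 : 4 * nd (ψ * D) * ρ * (K * H) ≤ 7 * (2 ^ L.length * Q) := by
    have h8 := mul_le_mul_of_nonneg_right h5 hKHpos.le
    have h9 : 7 * (2 ^ L.length * (Q : ℝ) / (K * H)) * (K * H) = 7 * (2 ^ L.length * Q) := by
      field_simp
    rw [h9] at h8
    exact h8
  have h10 : nd (ψ * D) * (ρ ^ 2 * (K * H)) = (nd (ψ * D) * ρ * (K * H)) * ρ := by ring
  rw [h10]
  have h11 : 0 ≤ nd (ψ * D) * ρ * (K * H) := by positivity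
  have h12 : (nd (ψ * D) * ρ * (K * H)) * ρ ≤ nd (ψ * D) * ρ * (K * H) := by nlinarith
  have h13 : (0 : ℝ) ≤ 2 ^ L.length * Q := by positivity
  linarith

end Pool.Agent.HUK
end
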