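import Pool.Agent.Lib.H59M.M1.M021

/-! Merged copies (to shorten the build) of Lib.H84V.V1, Lib.H84V.V2, Lib.H84V.V3, Lib.HUK.E0, Lib.HUK.E1, Lib.HUK.A3, Lib.HUK.P1, Lib.HUK.MQ1, Lib.HUK.MQ2, Lib.HUK.LLD, Lib.HUK.LL1, Lib.HUK.LL2. -/

-- from Lib.H84V.V1
section

/-!
# H84V, chunk V1: two close elements
-/

open Finset

namespace Pool.Agent.Lib.H84V

/-- PROOF. Let `m = ⌊2 / η⌋₊`, blocks of length `m + 1 > 2 / η`: the map `s ↦ (s - a) / (m + 1)` (integer division) maps `S` to `Ico 0 b`, `b = (N - 1) / (m + 1) + 1 ≤ N / (m + 1) + 1 < η N / 2 + 1 ≤ η N ≤ |S|` (`η N ≥ 2`), so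
two different elements of `S` have the same image (`Finset.exists_ne_map_eq_of_card_lt_of_maps_to`); their difference is at most `m ≤ 2 / η`. Take the smaller one for `s`. -/
theorem v1_close {N : ℕ} {a : ℤ} {η : ℝ} (hη : 0 < η) (hη1 : η ≤ 1) (hN : 2 / η ≤ N) (S : Finset ℤ)
    (hS : S ⊆ Finset.Ico a (a + N)) (h : η * N ≤ S.card) :
    ∃ s ∈ S, ∃ t ∈ S, s < t ∧ ((t - s : ℤ) : ℝ) ≤ 2 / η := by
  obtain ⟨m, hm⟩ : ∃ m : ℕ, m = ⌊2 / η⌋₊ := ⟨_, rfl⟩
  have hpos : (0 : ℝ) ≤ 2 / η := by positivity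
  have hm1 : (m : ℝ) ≤ 2 / η := by rw [hm]; exact Nat.floor_le hpos
  have hm2 : 2 / η < (m : ℝ) + 1 := by rw [hm]; exact Nat.lt_floor_add_one _
  have hN2 : (2 : ℝ) ≤ η * N := by
    have := (div_le_iff₀ hη).1 hN
    linarith
  have hNp : (1 : ℝ) ≤ N := by
    have h0 : (0 : ℝ) ≤ N := Nat.cast_nonneg _
    nlinarith
  have hN1 : 1 ≤ N := by exact_mod_cast hNp
  have hM : (0 : ℤ) < (m : ℤ) + 1 := by positivity
  obtain ⟨b, hb⟩ : ∃ b : ℤ, b = ((N : ℤ) - 1) / ((m : ℤ) + 1) + 1 := ⟨_, rfl⟩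
  have hb0 : 0 ≤ b := by
    have : 0 ≤ ((N : ℤ) - 1) / ((m : ℤ) + 1) := Int.ediv_nonneg (by omega) hM.le
    omega
  have hMR : (0 : ℝ) < (m : ℝ) + 1 := by positivity
  have hbR : (b : ℝ) < η * N := by
    have h1 : ((((N : ℤ) - 1) / ((m : ℤ) + 1) : ℤ) : ℝ) * ((m : ℝ) + 1) ≤ (N : ℝ) - 1 := by
      have h2 : (((N : ℤ) - 1) / ((m : ℤ) + 1)) * ((m : ℤ) + 1) ≤ (N : ℤ) - 1 := Int.ediv_mul_le _ (ne_of_gt hM)
      have h3 : (((((N : ℤ) - 1) / ((m : ℤ) + 1)) * ((m : ℤ) + 1) : ℤ) : ℝ) ≤ (((N : ℤ) - 1 : ℤ) : ℝ) :=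
        Int.cast_le.2 h2
      push_cast at h3
      exact h3
    have h4 : ((((N : ℤ) - 1) / ((m : ℤ) + 1) : ℤ) : ℝ) < η * N / 2 := by
      by_contra hcon
      push Not at hcon
      have h5 : η * N / 2 * ((m : ℝ) + 1) ≤ (N : ℝ) - 1 := (mul_le_mul_of_nonneg_right hcon hMR.le).trans h1
      have h6 : 2 < ((m : ℝ) + 1) * η := (div_lt_iff₀ hη).1 hm2
      nlinarith
    have h7 : (b : ℝ) = ((((N : ℤ) - 1) / ((m : ℤ) + 1) : ℤ) : ℝ) + 1 := by rw [hb]; push_cast; ring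
    rw [h7]
    linarith
  have hcard : (Finset.Ico (0 : ℤ) b).card < S.card := by
    have h1 : (Finset.Ico (0 : ℤ) b).card = b.toNat := by simp
    rw [h1]
    have h2 : ((b.toNat : ℕ) : ℝ) < (S.card : ℝ) := by
      have h3 : ((b.toNat : ℕ) : ℝ) = (b : ℝ) := by
        have : ((b.toNat : ℕ) : ℤ) = b := Int.toNat_of_nonneg hb0
        exact_mod_cast this
      rw [h3]
      exact hbR.trans_le h
    exact_mod_cast h2
  have hmaps : ∀ s ∈ S, (s - a) / ((m : ℤ) + 1) ∈ Finset.Ico (0 : ℤ) b := by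
    intro s hs
    have hs' := Finset.mem_Ico.1 (hS hs)
    rw [Finset.mem_Ico]
    refine ⟨Int.ediv_nonneg (by omega) hM.le, ?_⟩
    have : (s - a) / ((m : ℤ) + 1) ≤ ((N : ℤ) - 1) / ((m : ℤ) + 1) := Int.ediv_le_ediv hM (by omega)
    omega
  obtain ⟨x, hx, y, hy, hne, hxy⟩ := Finset.exists_ne_map_eq_of_card_lt_of_maps_to hcard hmaps
  have key : ∀ s t : ℤ, (s - a) / ((m : ℤ) + 1) = (t - a) / ((m : ℤ) + 1) → s < t → ((t - s : ℤ) : ℝ) ≤ 2 / η := by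
    intro s t hst _
    have e1 := Int.emod_add_mul_ediv (s - a) ((m : ℤ) + 1)
    have e2 := Int.emod_add_mul_ediv (t - a) ((m : ℤ) + 1)
    have b1 := Int.emod_nonneg (s - a) (ne_of_gt hM)
    have b2 := Int.emod_lt_of_pos (t - a) hM
    rw [hst] at e1
    have h1 : t - s ≤ (m : ℤ) := by linarith
    have h2 : ((t - s : ℤ) : ℝ) ≤ ((m : ℤ) : ℝ) := Int.cast_le.2 h1
    refine h2.trans ?_
    rw [Int.cast_natCast]
    exact hm1
  rcases lt_or_gt_of_ne hne with hlt | hgt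
  · exact ⟨x, hx, y, hy, hlt, key x y hxy hlt⟩
  · exact ⟨y, hy, x, hx, hgt, key y x hxy.symm hgt⟩

end Pool.Agent.Lib.H84V
end

-- from Lib.H84V.V2
section

/-!
# H84V, chunk V2: counting in an arithmetic progression
-/

open Finset

namespace Pool.Agent.Lib.H84V

theorem v2_card_int (S : Finset ℤ) (x y : ℝ) (hxy : x ≤ y) (h : ∀ j ∈ S, x ≤ (j : ℝ) ∧ (j : ℝ) ≤ y) :
    (S.card : ℝ) ≤ y - x + 1 := by
  have hsub : S ⊆ Finset.Icc ⌈x⌉ ⌊y⌋ := by
    intro j hj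
    rw [Finset.mem_Icc]
    exact ⟨Int.ceil_le.2 (h j hj).1, Int.le_floor.2 (h j hj).2⟩
  have h1 := Finset.card_le_card hsub
  rw [Int.card_Icc] at h1
  have h2 : (S.card : ℝ) ≤ (((⌊y⌋ + 1 - ⌈x⌉).toNat : ℕ) : ℝ) := by exact_mod_cast h1
  refine h2.trans ?_
  have h3 : (((⌊y⌋ + 1 - ⌈x⌉).toNat : ℕ) : ℝ) = ((((⌊y⌋ + 1 - ⌈x⌉).toNat : ℕ) : ℤ) : ℝ) := by push_cast; rfl
  rw [h3, Int.toNat_eq_max, Int.cast_max]
  apply max_le
  · push_cast
    have := Int.floor_le y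
    have := Int.le_ceil x
    linarith
  · push_cast
    linarith

theorem v2_card_nat (S : Finset ℕ) (x y : ℝ) (hxy : x ≤ y) (h : ∀ j ∈ S, x ≤ (j : ℝ) ∧ (j : ℝ) ≤ y) :
    (S.card : ℝ) ≤ y - x + 1 := by
  have h1 := v2_card_int (S.map Nat.castEmbedding) x y hxy (by
    intro j hj
    rw [Finset.mem_map] at hj
    obtain ⟨i, hi, rfl⟩ := hj
    have := h i hi
    simpa using this)
  rwa [Finset.card_map] at h1

/-- PROOF. For `j` in the set let `m_j = round (γ + j θ)`, `|γ + j θ - m_j| ≤ e` and `≤ 1/2`. All `m_j` are in a closed interval of length `(L - 1) |θ| + 1` (the numbers `γ + j θ`, `j < L`, are between `γ` and `γ + (L - 1) θ`), so there are at most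
`L |θ| + 2` values of `m`. For each integer `m` the `j` with `|γ + j θ - m| ≤ e` are in a closed interval of length `2 e / |θ|`: at most `2 e / |θ| + 1` of them. `Finset.card_le_mul_card_image` (or `card_eq_sum_card_fiberwise`). -/
theorem v2_count (L : ℕ) (hL : 1 ≤ L) (γ θ e : ℝ) (hθ : θ ≠ 0) (he : 0 ≤ e) :
    (((Finset.range L).filter fun j : ℕ => nd (γ + j * θ) ≤ e).card : ℝ) ≤ (L * |θ| + 2) * (2 * e / |θ| + 1) := by
  have hθ0 : 0 < |θ| := abs_pos.2 hθ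
  have hL1 : (1 : ℝ) ≤ L := by exact_mod_cast hL
  obtain ⟨F, hF⟩ : ∃ F : Finset ℕ, F = (Finset.range L).filter fun j : ℕ => nd (γ + j * θ) ≤ e := ⟨_, rfl⟩
  rw [← hF]
  have hmem : ∀ j ∈ F, j < L ∧ nd (γ + j * θ) ≤ e := by
    intro j hj
    rw [hF, Finset.mem_filter, Finset.mem_range] at hj
    exact hj
  have hq : 0 ≤ 2 * e / |θ| + 1 := by positivity
  -- the fibres
  have hfib : ∀ m ∈ F.image (fun j : ℕ => round (γ + j * θ)),
      (F.filter fun j : ℕ => round (γ + j * θ) = m).card ≤ ⌊2 * e / |θ| + 1⌋₊ := by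
    intro m _
    apply Nat.le_floor
    have h1 := v2_card_nat (F.filter fun j : ℕ => round (γ + j * θ) = m) (((m : ℝ) - γ) / θ - e / |θ|)
      (((m : ℝ) - γ) / θ + e / |θ|) (by
        have : 0 ≤ e / |θ| := by positivity
        linarith) (by
        intro j hj
        rw [Finset.mem_filter] at hj
        have h2 := (hmem j hj.1).2
        unfold nd at h2
        rw [hj.2] at h2
        have h3 : γ + (j : ℝ) * θ - m = ((j : ℝ) - ((m : ℝ) - γ) / θ) * θ := by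
          field_simp
          ring
        rw [h3, abs_mul] at h2
        have h4 : |(j : ℝ) - ((m : ℝ) - γ) / θ| ≤ e / |θ| := (le_div_iff₀ hθ0).2 h2
        have h5 := abs_le.1 h4
        constructor
        · linarith [h5.1]
        · linarith [h5.2])
    refine h1.trans (le_of_eq ?_)
    ring
  have h1 := Finset.card_le_mul_card_image F ⌊2 * e / |θ| + 1⌋₊ hfib
  have h2 : ((F.image (fun j : ℕ => round (γ + j * θ))).card : ℝ) ≤ L * |θ| + 2 := by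
    have h3 := v2_card_int (F.image (fun j : ℕ => round (γ + j * θ))) (min γ (γ + (L - 1) * θ) - 1 / 2)
      (max γ (γ + (L - 1) * θ) + 1 / 2) (by
        have := min_le_max (a := γ) (b := γ + (L - 1) * θ)
        linarith) (by
        intro m hm
        rw [Finset.mem_image] at hm
        obtain ⟨j, hj, rfl⟩ := hm
        have hjL := (hmem j hj).1
        have h4 := abs_le.1 (abs_sub_round (γ + (j : ℝ) * θ))
        have hj0 : (0 : ℝ) ≤ j := Nat.cast_nonneg _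
        have hj1 : (j : ℝ) ≤ L - 1 := by
          have : (j : ℝ) + 1 ≤ L := by exact_mod_cast hjL
          linarith
        rcases le_total 0 θ with hθp | hθn
        · have e1 : min γ (γ + (L - 1) * θ) ≤ γ := min_le_left _ _
          have e2 : γ + (L - 1) * θ ≤ max γ (γ + (L - 1) * θ) := le_max_right _ _
          have e3 : 0 ≤ (j : ℝ) * θ := mul_nonneg hj0 hθp
          have e4 : (j : ℝ) * θ ≤ (L - 1) * θ := mul_le_mul_of_nonneg_right hj1 hθp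
          constructor
          · linarith [h4.2]
          · linarith [h4.1]
        · have e1 : min γ (γ + (L - 1) * θ) ≤ γ + (L - 1) * θ := min_le_right _ _
          have e2 : γ ≤ max γ (γ + (L - 1) * θ) := le_max_left _ _
          have e3 : (j : ℝ) * θ ≤ 0 := mul_nonpos_of_nonneg_of_nonpos hj0 hθn
          have e4 : (L - 1) * θ ≤ (j : ℝ) * θ := mul_le_mul_of_nonpos_right hj1 hθn
          constructor
          · linarith [h4.2]
          · linarith [h4.1])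
    refine h3.trans ?_
    have h5 : max γ (γ + (L - 1) * θ) - min γ (γ + (L - 1) * θ) = (L - 1) * |θ| := by
      rw [max_sub_min_eq_abs]
      have : γ + (L - 1) * θ - γ = (L - 1) * θ := by ring
      rw [this, abs_mul, abs_of_nonneg (by linarith : (0 : ℝ) ≤ L - 1)]
    have h6 : max γ (γ + (L - 1) * θ) + 1 / 2 - (min γ (γ + (L - 1) * θ) - 1 / 2) + 1 = (L - 1) * |θ| + 2 := by
      rw [← h5]
      ring
    rw [h6]
    nlinarith
  calc (F.card : ℝ) ≤ ((⌊2 * e / |θ| + 1⌋₊ * (F.image (fun j : ℕ => round (γ + j * θ))).card : ℕ) : ℝ) := by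
        exact_mod_cast h1
    _ = (⌊2 * e / |θ| + 1⌋₊ : ℝ) * ((F.image (fun j : ℕ => round (γ + j * θ))).card : ℝ) := by push_cast; ring
    _ ≤ (2 * e / |θ| + 1) * (L * |θ| + 2) := by
        apply mul_le_mul (Nat.floor_le hq) h2 (Nat.cast_nonneg _) hq
    _ = (L * |θ| + 2) * (2 * e / |θ| + 1) := by ring

end Pool.Agent.Lib.H84V
end

-- from Lib.H84V.V3
section

/-!
# H84V, chunk V3: Vinogradov lemma
-/

open Finset

namespace Pool.Agent.Lib.H84V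

/-- Residue classes: the counting step. -/
theorem v3_card {N : ℕ} {a : ℤ} {α β ε : ℝ} (hε : 0 ≤ ε) (hN : 1 ≤ N) (S : Finset ℤ) (hS : S ⊆ Finset.Ico a (a + N))
    (hw : ∀ w ∈ S, nd (w * α + β) ≤ ε) (q : ℕ) (hq : 1 ≤ q) (θ : ℝ) (m : ℤ) (hθ : (q : ℝ) * α = θ + m) (hθ0 : θ ≠ 0) :
    (S.card : ℝ) ≤ ((((N - 1) / q + 1 : ℕ) : ℝ) * |θ| + 2) * (2 * ε / |θ| + 1) * q := by
  have habs : 0 < |θ| := abs_pos.2 hθ0
  have hB : 0 ≤ ((((N - 1) / q + 1 : ℕ) : ℝ) * |θ| + 2) * (2 * ε / |θ| + 1) := by positivity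
  have hz : ∀ w ∈ S, (((w - a).toNat : ℕ) : ℤ) = w - a ∧ (w - a).toNat < N := by
    intro w hwS
    have h1 := Finset.mem_Ico.1 (hS hwS)
    constructor
    · exact Int.toNat_of_nonneg (by omega)
    · omega
  have hmaps : ∀ w ∈ S, (w - a).toNat % q ∈ Finset.range q := by
    intro w _
    rw [Finset.mem_range]
    exact Nat.mod_lt _ hq
  have hfib : ∀ ρ ∈ Finset.range q, (S.filter fun w : ℤ => (w - a).toNat % q = ρ).card ≤
      ⌊((((N - 1) / q + 1 : ℕ) : ℝ) * |θ| + 2) * (2 * ε / |θ| + 1)⌋₊ := by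
    intro ρ _
    apply Nat.le_floor
    refine le_trans ?_ (v2_count ((N - 1) / q + 1) (Nat.le_add_left 1 _) (((a : ℝ) + ρ) * α + β) θ ε hθ0 hε)
    have hle : (S.filter fun w : ℤ => (w - a).toNat % q = ρ).card ≤
        ((Finset.range ((N - 1) / q + 1)).filter fun j : ℕ => nd (((a : ℝ) + ρ) * α + β + j * θ) ≤ ε).card := by
      refine Finset.card_le_card_of_injOn (fun w : ℤ => (w - a).toNat / q) ?_ ?_
      · intro w hwF
        rw [Finset.mem_coe, Finset.mem_filter] at hwF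
        obtain ⟨hwS, hρ⟩ := hwF
        obtain ⟨hz1, hz2⟩ := hz w hwS
        rw [Finset.mem_coe, Finset.mem_filter, Finset.mem_range]
        refine ⟨?_, ?_⟩
        · have : (w - a).toNat / q ≤ (N - 1) / q := Nat.div_le_div_right (by omega)
          exact Nat.lt_succ_of_le this
        · have h1 := hw w hwS
          have h2 : (w - a).toNat = ρ + q * ((w - a).toNat / q) := by
            have := Nat.mod_add_div (w - a).toNat q
            rw [hρ] at this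
            exact this.symm
          show nd (((a : ℝ) + ρ) * α + β + (((w - a).toNat / q : ℕ) : ℝ) * θ) ≤ ε
          obtain ⟨j, hj⟩ : ∃ j : ℕ, j = (w - a).toNat / q := ⟨_, rfl⟩
          rw [← hj] at h2 ⊢
          have h3 : w = a + ρ + q * (j : ℤ) := by
            have h4 : (((w - a).toNat : ℕ) : ℤ) = ρ + q * (j : ℤ) := by exact_mod_cast h2
            rw [hz1] at h4
            linarith
          have h5 : (w : ℝ) = a + ρ + q * (j : ℝ) := by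
            have := congrArg (fun x : ℤ => (x : ℝ)) h3
            push_cast at this
            exact this
          have h7 : (q : ℝ) * (j : ℝ) * α = (j : ℝ) * (θ + m) := by
            rw [← hθ]
            ring
          have h8 : (w : ℝ) * α = ((a : ℝ) + ρ) * α + (q : ℝ) * (j : ℝ) * α := by
            rw [h5]
            ring
          have h6 : (w : ℝ) * α + β = (((a : ℝ) + ρ) * α + β + (j : ℝ) * θ) + (((j : ℤ) * m : ℤ) : ℝ) := by
            rw [h8, h7]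
            push_cast
            ring
          rw [h6, nd_add_int] at h1
          exact h1
      · intro w hwF w' hwF' hww
        rw [Finset.mem_coe, Finset.mem_filter] at hwF hwF'
        obtain ⟨hz1, _⟩ := hz w hwF.1
        obtain ⟨hz1', _⟩ := hz w' hwF'.1
        have h1 := Nat.mod_add_div (w - a).toNat q
        have h2 := Nat.mod_add_div (w' - a).toNat q
        have hww' : (w - a).toNat / q = (w' - a).toNat / q := hww
        rw [hwF.2, hww'] at h1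
        rw [hwF'.2] at h2
        have h3 : (w - a).toNat = (w' - a).toNat := h1.symm.trans h2
        have h4 : w - a = w' - a := by rw [← hz1, ← hz1', h3]
        linarith
    exact_mod_cast hle
  have h1 := Finset.card_le_mul_card_image_of_maps_to hmaps _ hfib
  rw [Finset.card_range] at h1
  calc (S.card : ℝ) ≤ ((⌊((((N - 1) / q + 1 : ℕ) : ℝ) * |θ| + 2) * (2 * ε / |θ| + 1)⌋₊ * q : ℕ) : ℝ) := by
        exact_mod_cast h1
    _ = (⌊((((N - 1) / q + 1 : ℕ) : ℝ) * |θ| + 2) * (2 * ε / |θ| + 1)⌋₊ : ℝ) * q := by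
        rw [Nat.cast_mul]
    _ ≤ ((((N - 1) / q + 1 : ℕ) : ℝ) * |θ| + 2) * (2 * ε / |θ| + 1) * q :=
        mul_le_mul_of_nonneg_right (Nat.floor_le hB) (Nat.cast_nonneg _)

/-- PROOF. Let `S` be the set. `v1_close` gives `s < t` in `S`, `q = t - s ≤ 2 / η`; `nd (q α) ≤ 2 ε` (`nd_sub_le`, `q α = (t α + β) - (s α + β)`). Let `θ = q α - round (q α)`, `|θ| = nd (q α)`. If `θ = 0` we are done. Let `L = (N - 1) / q + 1 ≤ N / q + 1`. Every `w` in `S` is `a + ρ + j q`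
with `0 ≤ ρ < q`, `0 ≤ j < L` (division with remainder), and `nd (w α + β) = nd (((a + ρ) α + β) + j θ)` (`nd_add_int`). By `v2_count`: `η N ≤ |S| ≤ q (L |θ| + 2) (2 ε / |θ| + 1) ≤ ((N + q) |θ| + 2 q) (2 ε / |θ| + 1) ≤ 4 ε (N + q) + 2 q + 4 q ε / |θ|`
(`|θ| ≤ 2 ε`); `4 ε N ≤ η N / 4`, `4 ε q + 2 q ≤ 1/2 + 4 / η ≤ 6 / η ≤ η N / 4`, so `η N / 2 ≤ 4 q ε / |θ|`, `|θ| ≤ 8 q ε / (η N) ≤ 16 ε / (η ^ 2 N)`. -/
theorem vino {N : ℕ} {a : ℤ} {α β ε η : ℝ} (hη : 0 < η) (hη1 : η ≤ 1) (hε : 0 ≤ ε) (hε1 : ε ≤ η / 16)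
    (hN : 24 / η ^ 2 ≤ N) (S : Finset ℤ) (hS : S ⊆ Finset.Ico a (a + N)) (h : η * N ≤ S.card)
    (hw : ∀ w ∈ S, nd (w * α + β) ≤ ε) :
    ∃ q : ℕ, 1 ≤ q ∧ (q : ℝ) ≤ 2 / η ∧ nd (q * α) ≤ 16 * ε / (η ^ 2 * N) := by
  have hη2 : 0 < η ^ 2 := by positivity
  have hN24 : 24 ≤ (N : ℝ) * η ^ 2 := (div_le_iff₀ hη2).1 hN
  have hN0 : (0 : ℝ) ≤ N := Nat.cast_nonneg _
  have hNη : 24 ≤ η * ((N : ℝ) * η) := by linarith [show (N : ℝ) * η ^ 2 = η * ((N : ℝ) * η) by ring]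
  have hNη0 : 0 ≤ (N : ℝ) * η := by positivity
  have hNη1 : 24 ≤ (N : ℝ) * η := by nlinarith
  have hN24' : (24 : ℝ) ≤ N := by nlinarith
  have hNpos : (0 : ℝ) < N := by linarith
  have hN1 : 1 ≤ N := by
    have : (1 : ℝ) ≤ N := by linarith
    exact_mod_cast this
  have hN2 : 2 / η ≤ N := by
    rw [div_le_iff₀ hη]
    linarith
  obtain ⟨s, hs, t, ht, hst, hts⟩ := v1_close hη hη1 hN2 S hS h
  obtain ⟨q, hq⟩ : ∃ q : ℕ, (q : ℤ) = t - s := ⟨(t - s).toNat, Int.toNat_of_nonneg (by omega)⟩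
  have hq1 : 1 ≤ q := by omega
  have hqR : (q : ℝ) = (t : ℝ) - s := by
    have := congrArg (fun x : ℤ => (x : ℝ)) hq
    push_cast at this
    exact this
  have hq2 : (q : ℝ) ≤ 2 / η := by
    rw [hqR]
    push_cast at hts
    exact hts
  have hq1R : (1 : ℝ) ≤ q := by exact_mod_cast hq1
  have hqη : (q : ℝ) * η ≤ 2 := (le_div_iff₀ hη).1 hq2
  refine ⟨q, hq1, hq2, ?_⟩
  have hnd : nd (q * α) ≤ 2 * ε := by
    have h1 : (q : ℝ) * α = (t * α + β) - (s * α + β) := by rw [hqR]; ring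
    rw [h1]
    have h2 := nd_sub_le (t * α + β) (s * α + β)
    have h3 := hw t ht
    have h4 := hw s hs
    linarith
  obtain ⟨θ, hθ⟩ : ∃ θ : ℝ, θ = q * α - round (q * α) := ⟨_, rfl⟩
  have hndθ : nd (q * α) = |θ| := by rw [hθ]; rfl
  rw [hndθ]
  rw [hndθ] at hnd
  by_cases hθ0 : θ = 0
  · rw [hθ0, abs_zero]
    positivity
  have habs : 0 < |θ| := abs_pos.2 hθ0
  have hcard := v3_card hε hN1 S hS hw q hq1 θ (round (q * α)) (by rw [hθ]; ring) hθ0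
  have hL : (((N - 1) / q + 1 : ℕ) : ℝ) * q ≤ N + q := by
    have h1 : ((N - 1) / q + 1) * q ≤ N + q := by
      have h2 : (N - 1) / q * q ≤ N - 1 := Nat.div_mul_le_self _ _
      have h3 : ((N - 1) / q + 1) * q = (N - 1) / q * q + q := by ring
      omega
    exact_mod_cast h1
  obtain ⟨L, hLdef⟩ : ∃ L : ℝ, L = (((N - 1) / q + 1 : ℕ) : ℝ) := ⟨_, rfl⟩
  rw [← hLdef] at hcard hL
  have hL0 : 0 ≤ L := by rw [hLdef]; positivity
  -- `x = ε / |θ|`
  obtain ⟨x, hx⟩ : ∃ x : ℝ, x = ε / |θ| := ⟨_, rfl⟩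
  have hx0 : 0 ≤ x := by rw [hx]; positivity
  have hxθ : x * |θ| = ε := by rw [hx]; field_simp
  have h2x : 2 * ε / |θ| = 2 * x := by rw [hx]; ring
  rw [h2x] at hcard
  have hstep : η * N ≤ 4 * ε * (N + q) + 2 * q + 4 * q * x := by
    have h1 : (L * |θ| + 2) * (2 * x + 1) * q = (L * q * |θ| + 2 * q) * (2 * x + 1) := by ring
    have h2 : (L * q * |θ| + 2 * q) * (2 * x + 1) ≤ ((N + q) * |θ| + 2 * q) * (2 * x + 1) := by
      apply mul_le_mul_of_nonneg_right _ (by positivity)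
      have := mul_le_mul_of_nonneg_right hL habs.le
      linarith
    have h3 : ((N + q) * |θ| + 2 * q) * (2 * x + 1) = 2 * (N + q) * (x * |θ|) + (N + q) * |θ| + 4 * q * x + 2 * q := by
      ring
    have h4 : ((N : ℝ) + q) * |θ| ≤ (N + q) * (2 * ε) := mul_le_mul_of_nonneg_left hnd (by positivity)
    rw [hxθ] at h3
    linarith
  have h4 : 4 * ε * N ≤ η * N / 4 := by
    have := mul_le_mul_of_nonneg_right hε1 hN0
    linarith
  have h5 : 4 * ε * q ≤ 1 / 2 := by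
    have := mul_le_mul_of_nonneg_right hε1 (by linarith : (0 : ℝ) ≤ q)
    linarith
  have h6 : 1 / 2 + 2 * (q : ℝ) ≤ η * N / 4 := by
    -- multiply by `η`
    have h7 : (1 / 2 + 2 * (q : ℝ)) * η ≤ (η * N / 4) * η := by nlinarith
    exact le_of_mul_le_mul_right h7 hη
  have h8 : η * N / 2 ≤ 4 * q * x := by linarith
  -- now multiply by `|θ|`
  have h9 : η * N / 2 * |θ| ≤ 4 * q * ε := by
    calc η * N / 2 * |θ| ≤ 4 * q * x * |θ| := mul_le_mul_of_nonneg_right h8 habs.le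
      _ = 4 * q * (x * |θ|) := by ring
      _ = 4 * q * ε := by rw [hxθ]
  rw [le_div_iff₀ (by positivity)]
  have h10 : η * (η * N / 2 * |θ|) ≤ η * (4 * q * ε) := mul_le_mul_of_nonneg_left h9 hη.le
  have h11 : (q : ℝ) * η * (4 * ε) ≤ 2 * (4 * ε) := mul_le_mul_of_nonneg_right hqη (by positivity)
  nlinarith

end Pool.Agent.Lib.H84V
end

-- from Lib.HUK.E0
section

/-!
# Project HUK, chunk E0 (S/M): one Cauchy-Schwarz step in an additive group (only `Defs`)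
-/

open Finset

namespace Pool.Agent.HUK

theorem e0_inv {G : Type*} [AddCommGroup G] (v : G) (g : G → ℂ) (hinv : ∀ z, g (z + v) = g z) (h : ℕ) (z : G) :
    g (z + h • v) = g z := by
  induction h with
  | zero => rw [zero_smul, add_zero]
  | succ n ih => rw [succ_nsmul, ← add_assoc, hinv, ih]

/-- Substitution of `z + h • v`. -/
theorem e0_shift {G : Type*} [AddCommGroup G] [DecidableEq G] (B B' : Finset G) (H : ℕ) (v : G) (F : G → ℂ)
    (hB : ∀ z, ∀ h : ℕ, h < H → z + h • v ∈ B → z ∈ B') (hF : ∀ z, z ∉ B → F z = 0) (h : ℕ) (hh : h < H) :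
    ∑ z ∈ B', F (z + h • v) = ∑ z ∈ B, F z := by
  have h1 : ∑ z ∈ B', F (z + h • v) = ∑ z ∈ B'.filter (fun z => z + h • v ∈ B), F (z + h • v) := by
    rw [Finset.sum_filter]
    refine Finset.sum_congr rfl fun z _ => ?_
    by_cases h2 : z + h • v ∈ B
    · rw [if_pos h2]
    · rw [if_neg h2, hF _ h2]
  rw [h1]
  refine Finset.sum_nbij' (fun z => z + h • v) (fun w => w - h • v) ?_ ?_ ?_ ?_ ?_
  · intro z hz
    exact (mem_filter.1 hz).2
  · intro w hw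
    have e1 : w - h • v + h • v = w := sub_add_cancel _ _
    rw [mem_filter]
    refine ⟨hB _ h hh ?_, ?_⟩
    · rw [e1]
      exact hw
    · rw [e1]
      exact hw
  · intro z _
    exact add_sub_cancel_right _ _
  · intro w _
    exact sub_add_cancel _ _
  · intro z _
    rfl

theorem e0_card (H : ℕ) (j : ℤ) (hj : j ∈ Ioo (-(H : ℤ)) H) :
    (((range H ×ˢ range H).filter fun p : ℕ × ℕ => (p.2 : ℤ) - p.1 = j).card : ℝ) = H * fw H j := by
  rw [mem_Ioo] at hj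
  have h1 : ((range H ×ˢ range H).filter fun p : ℕ × ℕ => (p.2 : ℤ) - p.1 = j).card = (range (H - j.natAbs)).card := by
    refine Finset.card_nbij' (fun p => min p.1 p.2) (fun m => if 0 ≤ j then (m, m + j.natAbs) else (m + j.natAbs, m))
      ?_ ?_ ?_ ?_
    · intro p hp
      simp only [coe_filter, mem_product, mem_range, Set.mem_ofPred_eq, coe_range, Set.mem_Iio] at hp ⊢
      omega
    · intro m hm
      simp only [coe_filter, mem_product, mem_range, Set.mem_ofPred_eq, coe_range, Set.mem_Iio] at hm ⊢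
      by_cases h0 : 0 ≤ j
      · rw [if_pos h0]
        simp only [Nat.cast_add]
        omega
      · rw [if_neg h0]
        simp only [Nat.cast_add]
        omega
    · intro p hp
      simp only [coe_filter, mem_product, mem_range, Set.mem_ofPred_eq] at hp
      by_cases h0 : 0 ≤ j
      · simp only [if_pos h0]
        refine Prod.ext ?_ ?_
        · simp only
          omega
        · simp only
          omega
      · simp only [if_neg h0]
        refine Prod.ext ?_ ?_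
        · simp only
          omega
        · simp only
          omega
    · intro m hm
      by_cases h0 : 0 ≤ j
      · simp only [if_pos h0]
        omega
      · simp only [if_neg h0]
        omega
  rw [h1, card_range]
  have h2 : j.natAbs ≤ H := by omega
  have hH : (0 : ℝ) < H := by
    have : 0 < H := by omega
    exact_mod_cast this
  have h3 : |(j : ℝ)| = (j.natAbs : ℝ) := by
    rw [Nat.cast_natAbs, Int.cast_abs]
  have h4 : ((j.natAbs : ℕ) : ℝ) ≤ H := by exact_mod_cast h2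
  rw [Nat.cast_sub h2]
  unfold fw
  rw [h3, max_eq_right]
  · field_simp
  · rw [sub_nonneg, div_le_one hH]
    exact h4

/-- Pairs with difference `j`. -/
theorem e0_pairs (H : ℕ) (φ : ℤ → ℂ) : ∑ h ∈ range H, ∑ h' ∈ range H, φ ((h' : ℤ) - h) =
    H * ∑ j ∈ Ioo (-(H : ℤ)) H, ((fw H j : ℝ) : ℂ) * φ j := by
  rw [← Finset.sum_product' (range H) (range H) (fun h h' : ℕ => φ ((h' : ℤ) - h))]
  rw [← Finset.sum_fiberwise_of_maps_to (t := Ioo (-(H : ℤ)) H) (g := fun p : ℕ × ℕ => (p.2 : ℤ) - p.1)]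
  · rw [Finset.mul_sum]
    refine Finset.sum_congr rfl fun j hj => ?_
    have h1 : ∀ p ∈ (range H ×ˢ range H).filter (fun p : ℕ × ℕ => (p.2 : ℤ) - p.1 = j),
        φ ((p.2 : ℤ) - p.1) = φ j := by
      intro p hp
      rw [(mem_filter.1 hp).2]
    rw [Finset.sum_congr rfl h1, Finset.sum_const, nsmul_eq_mul, ← mul_assoc]
    congr 1
    have h2 := e0_card H j hj
    have h3 : ((((range H ×ˢ range H).filter fun p : ℕ × ℕ => (p.2 : ℤ) - p.1 = j).card : ℝ) : ℂ) =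
        ((H * fw H j : ℝ) : ℂ) := by rw [h2]
    push_cast at h3
    exact h3
  · intro p hp
    simp only [mem_product, mem_range] at hp
    rw [mem_Ioo]
    omega

theorem e0_sq (s : Finset ℕ) (a : ℕ → ℂ) : ((‖∑ h ∈ s, a h‖ ^ 2 : ℝ) : ℂ) =
    ∑ h ∈ s, ∑ h' ∈ s, a h * (starRingEnd ℂ) (a h') := by
  have h1 : ((‖∑ h ∈ s, a h‖ ^ 2 : ℝ) : ℂ) = (∑ h ∈ s, a h) * (starRingEnd ℂ) (∑ h ∈ s, a h) := by
    rw [Complex.mul_conj, Complex.normSq_eq_norm_sq]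
  rw [h1, map_sum, Finset.sum_mul_sum]

/-- Proof. For every `h < H`, substituting `z + h • v` for `z` and `g (z + h • v) = g z`: `∑_{z ∈ B} g z u z = ∑_{z ∈ B'} g z u (z + h • v)`
(terms which are not `0` have `z + h • v ∈ B`, so `z ∈ B'`). Average over `h < H`, Cauchy-Schwarz over `z ∈ B'` (`‖g‖ ≤ 1`):
`‖S‖² ≤ (|B'| / H²) ∑_{z ∈ B'} ‖∑_{h<H} u (z + h • v)‖²`, and the last sum is
`∑_{h,h'<H} ∑_{z ∈ B'} u (z + h • v) conj u (z + h' • v) = ∑_{h,h'<H} ∑_{w ∈ B} u w conj u (w + (h' - h) • v)`. Every `j = h' - h ∈ (-H, H)` occurs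
`H - |j|` times, i.e. `H * fw H j` times. First the form without absolute values. -/
theorem E0_real {G : Type*} [AddCommGroup G] [DecidableEq G] (B B' : Finset G) (N : ℝ) (hN : (B'.card : ℝ) ≤ N) (H : ℕ)
    (hH : 0 < H) (v : G) (g u : G → ℂ) (hg : ∀ z, ‖g z‖ ≤ 1) (hinv : ∀ z, g (z + v) = g z) (hu : ∀ z, z ∉ B → u z = 0)
    (hB : ∀ z, ∀ h : ℕ, h < H → z + h • v ∈ B → z ∈ B') :
    ‖∑ z ∈ B, g z * u z‖ ^ 2 ≤
      N / H * (∑ j ∈ Ioo (-(H : ℤ)) H, ((fw H j : ℝ) : ℂ) * ∑ z ∈ B, DD (j • v) u z).re := by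
  have hHr : (0 : ℝ) < H := by exact_mod_cast hH
  have hHc : (H : ℂ) ≠ 0 := by exact_mod_cast hH.ne'
  -- the averaged sum
  have h1 : (H : ℂ) * ∑ z ∈ B, g z * u z = ∑ z ∈ B', g z * ∑ h ∈ range H, u (z + h • v) := by
    have h2 : ∀ h ∈ range H, ∑ z ∈ B', g z * u (z + h • v) = ∑ z ∈ B, g z * u z := by
      intro h hh
      rw [← e0_shift B B' H v (fun z => g z * u z) hB (fun z hz => by simp only [hu z hz, mul_zero]) h
        (mem_range.1 hh)]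
      refine Finset.sum_congr rfl fun z _ => ?_
      simp only [e0_inv v g hinv]
    calc (H : ℂ) * ∑ z ∈ B, g z * u z = ∑ h ∈ range H, ∑ z ∈ B', g z * u (z + h • v) := by
          rw [Finset.sum_congr rfl h2, Finset.sum_const, card_range, nsmul_eq_mul]
      _ = ∑ z ∈ B', g z * ∑ h ∈ range H, u (z + h • v) := by
          rw [Finset.sum_comm]
          refine Finset.sum_congr rfl fun z _ => ?_
          rw [Finset.mul_sum]
  -- Cauchy-Schwarz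
  have h3 : (H : ℝ) ^ 2 * ‖∑ z ∈ B, g z * u z‖ ^ 2 ≤ N * ∑ z ∈ B', ‖∑ h ∈ range H, u (z + h • v)‖ ^ 2 := by
    have h4 : (H : ℝ) * ‖∑ z ∈ B, g z * u z‖ ≤ ∑ z ∈ B', 1 * ‖∑ h ∈ range H, u (z + h • v)‖ := by
      have h5 : (H : ℝ) * ‖∑ z ∈ B, g z * u z‖ = ‖(H : ℂ) * ∑ z ∈ B, g z * u z‖ := by
        rw [norm_mul, Complex.norm_natCast]
      rw [h5, h1]
      refine (norm_sum_le _ _).trans (Finset.sum_le_sum fun z _ => ?_)
      rw [norm_mul]
      exact mul_le_mul_of_nonneg_right (hg z) (norm_nonneg _)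
    have h6 : (∑ z ∈ B', 1 * ‖∑ h ∈ range H, u (z + h • v)‖) ^ 2 ≤
        (∑ z ∈ B', (1 : ℝ) ^ 2) * ∑ z ∈ B', ‖∑ h ∈ range H, u (z + h • v)‖ ^ 2 :=
      Finset.sum_mul_sq_le_sq_mul_sq _ _ _
    have h7 : (∑ z ∈ B', (1 : ℝ) ^ 2) = B'.card := by
      rw [Finset.sum_const, one_pow, nsmul_eq_mul, mul_one]
    rw [h7] at h6
    calc (H : ℝ) ^ 2 * ‖∑ z ∈ B, g z * u z‖ ^ 2 = ((H : ℝ) * ‖∑ z ∈ B, g z * u z‖) ^ 2 := by ring
      _ ≤ (∑ z ∈ B', 1 * ‖∑ h ∈ range H, u (z + h • v)‖) ^ 2 := by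
          refine pow_le_pow_left₀ (by positivity) h4 2
      _ ≤ _ := h6
      _ ≤ _ := mul_le_mul_of_nonneg_right hN (Finset.sum_nonneg fun z _ => by positivity)
  -- the squares
  have h8 : ((∑ z ∈ B', ‖∑ h ∈ range H, u (z + h • v)‖ ^ 2 : ℝ) : ℂ) =
      H * ∑ j ∈ Ioo (-(H : ℤ)) H, ((fw H j : ℝ) : ℂ) * ∑ z ∈ B, DD (j • v) u z := by
    rw [Complex.ofReal_sum, ← e0_pairs H (fun j => ∑ z ∈ B, DD (j • v) u z)]
    have h9 : ∀ z ∈ B', ((‖∑ h ∈ range H, u (z + h • v)‖ ^ 2 : ℝ) : ℂ) =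
        ∑ h ∈ range H, ∑ h' ∈ range H, u (z + h • v) * (starRingEnd ℂ) (u (z + h' • v)) := by
      intro z _
      exact e0_sq _ _
    rw [Finset.sum_congr rfl h9, Finset.sum_comm]
    refine Finset.sum_congr rfl fun h hh => ?_
    rw [Finset.sum_comm]
    refine Finset.sum_congr rfl fun h' _ => ?_
    rw [← e0_shift B B' H v (fun z => DD (((h' : ℤ) - h) • v) u z) hB (fun z hz => by
      simp only [DD, hu z hz, zero_mul]) h (mem_range.1 hh)]
    refine Finset.sum_congr rfl fun z _ => ?_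
    simp only [DD]
    congr 2
    rw [sub_smul, natCast_zsmul, natCast_zsmul]
    abel_nf
  have h10 : ∑ z ∈ B', ‖∑ h ∈ range H, u (z + h • v)‖ ^ 2 =
      H * (∑ j ∈ Ioo (-(H : ℤ)) H, ((fw H j : ℝ) : ℂ) * ∑ z ∈ B, DD (j • v) u z).re := by
    have h11 := congrArg Complex.re h8
    rw [Complex.ofReal_re, ← Complex.ofReal_natCast, Complex.re_ofReal_mul] at h11
    exact h11
  rw [h10] at h3
  have h12 : N / H * (∑ j ∈ Ioo (-(H : ℤ)) H, ((fw H j : ℝ) : ℂ) * ∑ z ∈ B, DD (j • v) u z).re =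
      (N * (H * (∑ j ∈ Ioo (-(H : ℤ)) H, ((fw H j : ℝ) : ℂ) * ∑ z ∈ B, DD (j • v) u z).re)) / (H : ℝ) ^ 2 := by
    field_simp
  rw [h12, le_div_iff₀ (by positivity), mul_comm]
  exact h3

theorem e0_fw_nonneg (H : ℕ) (j : ℤ) : 0 ≤ fw H j := le_max_left _ _

theorem e0_fw_le (H : ℕ) (j : ℤ) : fw H j ≤ 1 := by
  unfold fw
  refine max_le zero_le_one ?_
  have : 0 ≤ |(j : ℝ)| / H := by positivity
  linarith

/-- From `E0_real`: the real part is at most the sum of the absolute values, `0 ≤ fw H j ≤ 1`. -/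
theorem E0_step {G : Type*} [AddCommGroup G] [DecidableEq G] (B B' : Finset G) (N : ℝ) (hN : (B'.card : ℝ) ≤ N) (H : ℕ)
    (hH : 0 < H) (v : G) (g u : G → ℂ) (hg : ∀ z, ‖g z‖ ≤ 1) (hinv : ∀ z, g (z + v) = g z) (hu : ∀ z, z ∉ B → u z = 0)
    (hB : ∀ z, ∀ h : ℕ, h < H → z + h • v ∈ B → z ∈ B') :
    ‖∑ z ∈ B, g z * u z‖ ^ 2 ≤ N / H * ∑ j ∈ Ioo (-(H : ℤ)) H, ‖∑ z ∈ B, DD (j • v) u z‖ := by
  have hN0 : 0 ≤ N := (Nat.cast_nonneg _).trans hN
  refine (E0_real B B' N hN H hH v g u hg hinv hu hB).trans ?_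
  refine mul_le_mul_of_nonneg_left ?_ (by positivity)
  refine (Complex.re_le_norm _).trans ((norm_sum_le _ _).trans (Finset.sum_le_sum fun j _ => ?_))
  rw [norm_mul, Complex.norm_real, Real.norm_of_nonneg (e0_fw_nonneg H j)]
  exact (mul_le_mul_of_nonneg_right (e0_fw_le H j) (norm_nonneg _)).trans (one_mul _).le

end Pool.Agent.HUK
end

-- from Lib.HUK.E1
section

/-!
# Project HUK, chunk E1 (M): the elimination lemma with absolute values
-/

open Finset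

namespace Pool.Agent.HUK

theorem e1_box_succ {M : Type*} [AddCommMonoid M] (r H : ℕ) (F : (Fin (r + 1) → ℤ) → M) :
    ∑ j ∈ bxS (r + 1) H, F j = ∑ j0 ∈ Ioo (-(H : ℤ)) H, ∑ j' ∈ bxS r H, F (Fin.cons j0 j') := by
  rw [← Finset.sum_product' (Ioo (-(H : ℤ)) H) (bxS r H) (fun j0 j' => F (Fin.cons j0 j'))]
  refine Finset.sum_nbij' (fun j => (j 0, fun i => j i.succ)) (fun p => Fin.cons p.1 p.2) ?_ ?_ ?_ ?_ ?_
  · intro j hj
    unfold bxS at hj ⊢
    rw [Fintype.mem_piFinset] at hj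
    rw [mem_product, Fintype.mem_piFinset]
    exact ⟨hj 0, fun i => hj i.succ⟩
  · intro p hp
    unfold bxS at hp ⊢
    rw [mem_product, Fintype.mem_piFinset] at hp
    rw [Fintype.mem_piFinset]
    refine Fin.cases ?_ ?_
    · exact hp.1
    · exact fun i => hp.2 i
  · intro j _
    exact Fin.cons_self_tail j
  · intro p _
    rfl
  · intro j _
    exact congrArg F (Fin.cons_self_tail j).symm

theorem e1_DD_prod {G : Type*} [Add G] {r : ℕ} (h : G) (g : Fin r → G → ℂ) (c : G → ℂ) (z : G) :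
    DD h (fun z => (∏ i, g i z) * c z) z = (∏ i, DD h (g i) z) * DD h c z := by
  simp only [DD, map_mul, map_prod, Finset.prod_mul_distrib]
  ring

theorem e1_DD_le {G : Type*} [Add G] (h : G) (g : G → ℂ) (hg : ∀ z, ‖g z‖ ≤ 1) (z : G) : ‖DD h g z‖ ≤ 1 := by
  simp only [DD, norm_mul, RCLike.norm_conj]
  exact mul_le_one₀ (hg _) (norm_nonneg _) (hg _)

theorem e1_DD_inv {G : Type*} [AddCommGroup G] (h v : G) (g : G → ℂ) (hg : ∀ z, g (z + v) = g z) (z : G) :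
    DD h g (z + v) = DD h g z := by
  simp only [DD, hg, add_right_comm z v h]

/-- Power mean over the `2H - 1` values of `j`. -/
theorem e1_mean (H : ℕ) (hH : 0 < H) (n : ℕ) (y : ℤ → ℝ) (hy : ∀ j, 0 ≤ y j) :
    ((∑ j ∈ Ioo (-(H : ℤ)) H, y j) / H) ^ (n + 1) ≤ 2 ^ n / H * ∑ j ∈ Ioo (-(H : ℤ)) H, y j ^ (n + 1) := by
  have hHr : (0 : ℝ) < H := by exact_mod_cast hH
  have h1 := pow_sum_div_card_le_sum_pow (s := Ioo (-(H : ℤ)) H) (f := y) (fun j _ => hy j) n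
  have hc : ((Ioo (-(H : ℤ)) H).card : ℝ) ≤ 2 * H := by
    have h2 : (Ioo (-(H : ℤ)) H).card ≤ 2 * H := by
      rw [Int.card_Ioo]
      omega
    exact_mod_cast h2
  have hc0 : (0 : ℝ) < (Ioo (-(H : ℤ)) H).card := by
    have h2 : 0 < (Ioo (-(H : ℤ)) H).card := by
      rw [Int.card_Ioo]
      omega
    exact_mod_cast h2
  rw [div_le_iff₀ (pow_pos hc0 n)] at h1
  rw [div_pow, div_le_iff₀ (by positivity)]
  refine h1.trans ?_
  have h3 : ((Ioo (-(H : ℤ)) H).card : ℝ) ^ n ≤ (2 * H) ^ n := pow_le_pow_left₀ hc0.le hc n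
  have h4 : 0 ≤ ∑ j ∈ Ioo (-(H : ℤ)) H, y j ^ (n + 1) := Finset.sum_nonneg fun j _ => pow_nonneg (hy j) _
  refine (mul_le_mul_of_nonneg_left h3 h4).trans (le_of_eq ?_)
  rw [mul_pow, pow_succ]
  field_simp

/-- Proof by induction on `r` (generalise `c`, `g`, `v`). `r = 0`: clear (`DL [] c = c`, one `j`, `2 ≥ 1`). Step: `x = ‖S‖/N`. `E0_step` with
`v 0`, `g 0` and `u z = (∏_{i} g i.succ z) * c z`: `x² ≤ (1/H) ∑_{|j| < H} y_j`, `y_j = ‖∑_z DD (j • v 0) u z‖ / N`, and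
`DD (j • v 0) u z = (∏_i DD (j • v 0) (g i.succ) z) * DD (j • v 0) c z`; the new functions are bounded by `1` and invariant under `v i.succ`
(commutative group), and `DD (j • v 0) c` vanishes outside `B`. Hoelder (power mean) with `p = 2^r`:
`x^(2^(r+1)) ≤ ((1/H) ∑_j y_j)^p ≤ (2^(p-1)/H) ∑_j y_j^p` (at most `2H` values of `j`), induction hypothesis for each `j`, and
`∑_{j ∈ Ioo} ∑_{j' ∈ bxS r H} = ∑_{bxS (r+1) H}` via `Fin.cons` (`List.ofFn_succ`, `DL (h :: l) c = DL l (DD h c)`). -/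
theorem E1_elim {G : Type*} [AddCommGroup G] [DecidableEq G] (B B' : Finset G) (N : ℝ) (hN : (B'.card : ℝ) ≤ N)
    (hN0 : 0 < N) (H : ℕ) (hH : 0 < H) (r : ℕ) (v : Fin r → G) (g : Fin r → G → ℂ) (c : G → ℂ)
    (hg : ∀ i z, ‖g i z‖ ≤ 1) (hinv : ∀ i z, g i (z + v i) = g i z) (hc : ∀ z, z ∉ B → c z = 0)
    (hB : ∀ i z, ∀ h : ℕ, h < H → z + h • v i ∈ B → z ∈ B') :
    (‖∑ z ∈ B, (∏ i, g i z) * c z‖ / N) ^ (2 ^ r) ≤
      2 ^ (2 ^ r) / (H : ℝ) ^ r * ∑ j ∈ bxS r H, ‖∑ z ∈ B, DL (List.ofFn fun i => j i • v i) c z‖ / N := by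
  have hHr : (0 : ℝ) < H := by exact_mod_cast hH
  induction r generalizing c with
  | zero =>
    have h1 : ∑ j ∈ bxS 0 H, ‖∑ z ∈ B, DL (List.ofFn fun i => j i • v i) c z‖ / N = ‖∑ z ∈ B, c z‖ / N := by
      have h2 : bxS 0 H = {fun i => i.elim0} := by
        unfold bxS
        rw [Fintype.piFinset_of_isEmpty]
        ext j
        simp only [mem_univ, mem_singleton, true_iff]
        exact Subsingleton.elim _ _
      rw [h2, Finset.sum_singleton]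
      simp only [List.ofFn_zero, DL]
    rw [h1, pow_zero, pow_one, pow_one, pow_zero, div_one]
    have h3 : ∑ z ∈ B, (∏ i : Fin 0, g i z) * c z = ∑ z ∈ B, c z := by
      refine Finset.sum_congr rfl fun z _ => ?_
      rw [Finset.univ_eq_empty, Finset.prod_empty, one_mul]
    rw [h3]
    have h4 : 0 ≤ ‖∑ z ∈ B, c z‖ / N := by positivity
    linarith
  | succ r ih =>
    -- one step
    have h1 := E0_step B B' N hN H hH (v 0) (g 0) (fun z => (∏ i : Fin r, g i.succ z) * c z) (hg 0) (hinv 0)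
      (fun z hz => by simp only [hc z hz, mul_zero]) (hB 0)
    have h2 : ∑ z ∈ B, (∏ i, g i z) * c z = ∑ z ∈ B, g 0 z * ((∏ i : Fin r, g i.succ z) * c z) := by
      refine Finset.sum_congr rfl fun z _ => ?_
      rw [Fin.prod_univ_succ, mul_assoc]
    rw [h2]
    obtain ⟨x, hx⟩ : ∃ x : ℝ, x = ‖∑ z ∈ B, g 0 z * ((∏ i : Fin r, g i.succ z) * c z)‖ / N := ⟨_, rfl⟩
    obtain ⟨y, hy⟩ : ∃ y : ℤ → ℝ, ∀ j, y j =
        ‖∑ z ∈ B, (∏ i : Fin r, DD (j • v 0) (g i.succ) z) * DD (j • v 0) c z‖ / N := ⟨_, fun _ => rfl⟩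
    have hx0 : 0 ≤ x := by rw [hx]; positivity
    have hy0 : ∀ j, 0 ≤ y j := by
      intro j
      rw [hy]
      positivity
    rw [← hx]
    have h3 : x ^ 2 ≤ (∑ j ∈ Ioo (-(H : ℤ)) H, y j) / H := by
      rw [hx, div_pow, div_le_iff₀ (by positivity)]
      refine h1.trans (le_of_eq ?_)
      have h4 : ∑ j ∈ Ioo (-(H : ℤ)) H, y j = (∑ j ∈ Ioo (-(H : ℤ)) H,
          ‖∑ z ∈ B, DD (j • v 0) (fun z => (∏ i : Fin r, g i.succ z) * c z) z‖) / N := by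
        rw [Finset.sum_div]
        refine Finset.sum_congr rfl fun j _ => ?_
        rw [hy]
        congr 2
        exact Finset.sum_congr rfl fun z _ => (e1_DD_prod _ _ _ _).symm
      rw [h4]
      field_simp
    obtain ⟨n, hn⟩ : ∃ n : ℕ, 2 ^ r = n + 1 := ⟨2 ^ r - 1, by
      have := Nat.one_le_two_pow (n := r)
      omega⟩
    have h5 : x ^ (2 ^ (r + 1)) ≤ 2 ^ n / H * ∑ j ∈ Ioo (-(H : ℤ)) H, y j ^ (2 ^ r) := by
      calc x ^ (2 ^ (r + 1)) = (x ^ 2) ^ (n + 1) := by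
            rw [← hn, ← pow_mul, pow_succ, mul_comm]
        _ ≤ ((∑ j ∈ Ioo (-(H : ℤ)) H, y j) / H) ^ (n + 1) := pow_le_pow_left₀ (by positivity) h3 _
        _ ≤ 2 ^ n / H * ∑ j ∈ Ioo (-(H : ℤ)) H, y j ^ (n + 1) := e1_mean H hH n y hy0
        _ = _ := by rw [hn]
    refine h5.trans ?_
    -- induction hypothesis
    have h6 : ∀ j ∈ Ioo (-(H : ℤ)) H, y j ^ (2 ^ r) ≤ 2 ^ (2 ^ r) / (H : ℝ) ^ r *
        ∑ j' ∈ bxS r H, ‖∑ z ∈ B, DL (List.ofFn fun i => (Fin.cons j j' : Fin (r + 1) → ℤ) i • v i) c z‖ / N := by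
      intro j _
      rw [hy]
      refine (ih (fun i => v i.succ) (fun i => DD (j • v 0) (g i.succ)) (DD (j • v 0) c)
        (fun i z => e1_DD_le _ _ (hg i.succ) z) (fun i z => e1_DD_inv _ _ _ (hinv i.succ) z)
        (fun z hz => by simp only [DD, hc z hz, zero_mul]) (fun i => hB i.succ)).trans (le_of_eq ?_)
      congr 1
      refine Finset.sum_congr rfl fun j' _ => ?_
      rw [List.ofFn_succ]
      simp only [Fin.cons_zero, Fin.cons_succ, DL]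
    calc 2 ^ n / (H : ℝ) * ∑ j ∈ Ioo (-(H : ℤ)) H, y j ^ (2 ^ r)
        ≤ 2 ^ n / (H : ℝ) * ∑ j ∈ Ioo (-(H : ℤ)) H, 2 ^ (2 ^ r) / (H : ℝ) ^ r *
        ∑ j' ∈ bxS r H, ‖∑ z ∈ B, DL (List.ofFn fun i => (Fin.cons j j' : Fin (r + 1) → ℤ) i • v i) c z‖ / N := by
          refine mul_le_mul_of_nonneg_left (Finset.sum_le_sum h6) (by positivity)
      _ = 2 ^ n * 2 ^ (2 ^ r) / (H : ℝ) ^ (r + 1) * ∑ j ∈ bxS (r + 1) H,
          ‖∑ z ∈ B, DL (List.ofFn fun i => j i • v i) c z‖ / N := by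
          rw [e1_box_succ, ← Finset.mul_sum, ← mul_assoc]
          congr 1
          rw [pow_succ (H : ℝ) r]
          field_simp
      _ ≤ _ := by
          refine mul_le_mul_of_nonneg_right ?_ (Finset.sum_nonneg fun j _ => by positivity)
          refine div_le_div_of_nonneg_right ?_ (by positivity)
          rw [← pow_add]
          refine pow_le_pow_right₀ one_le_two ?_
          rw [pow_succ]
          omega

end Pool.Agent.HUK
end

-- from Lib.HUK.A3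
section

/-!
# Project HUK, chunk A3 (M): elimination of all values of `f`
-/

open Finset

namespace Pool.Agent.HUK

/-- Vertex sum `∑_l [ω l] t l`. -/
def ws {n : ℕ} (t : Fin n → ℤ) (ω : Fin n → Bool) : ℤ := ∑ l, if ω l then t l else 0

theorem a3_ws_abs (n H : ℕ) (t : Fin n → ℤ) (ht : ∀ i, |t i| ≤ (H : ℤ)) (ω : Fin n → Bool) :
    |ws t ω| ≤ (n : ℤ) * H := by
  unfold ws
  refine (Finset.abs_sum_le_sum_abs _ _).trans ?_
  have h1 : ∀ l ∈ (univ : Finset (Fin n)), |if ω l then t l else 0| ≤ (H : ℤ) := by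
    intro l _
    split_ifs
    · exact ht l
    · simp
  refine (Finset.sum_le_sum h1).trans ?_
  simp

theorem a3_vt (n : ℕ) (t : Fin n → ℤ) (a : ℤ) (ω : Fin n → Bool) :
    vt ω (fun i => a * t i) = a * ws t ω := by
  unfold vt ws
  rw [Finset.mul_sum]
  refine Finset.sum_congr rfl fun i _ => ?_
  split_ifs <;> simp

theorem a3_prod (n : ℕ) (t : Fin n → ℤ) (e : Fin (2 ^ n) ≃ (Fin n → Bool)) (f : ℤ → ℂ) (z a : ℤ) :
    (∏ i, cj (sg (e i)) (f (z + a * ws t (e i)))) = DV (fun i => a * t i) f z := by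
  unfold DV
  rw [DL_prod]
  rw [← Equiv.prod_comp e (fun ω => cj (sg ω) (f (z + vt ω fun i => a * t i)))]
  refine Finset.prod_congr rfl fun i _ => ?_
  rw [a3_vt]

theorem a3_cj_norm (n : ℕ) (z : ℂ) : ‖cj n z‖ = ‖z‖ := by
  unfold cj
  split_ifs
  · rfl
  · exact RCLike.norm_conj z

/-- Proof. `E1_elim` in `ℤ × ℤ`, `r = 2^n`, `B = Ico (-3X) (3X) ×ˢ Ioc K (2K)`, `B' = Ico (-4X) (4X) ×ˢ Ioc 0 (2K)`, `N = 16 X K`, vectors
`v i = (-(ws t (e i)), 1)`, functions `g i (z, a) = cj (sg (e i)) (f (z + a ws t (e i)))`: invariant under `v i`; their product is `DL (ofFn (a • t)) f z`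
(`DL_prod`; `vt ω (a • t) = a ws t ω`; reindex by `e`). The sum over `(z, a) ∈ B` is the sum of the hypothesis (for `z ∉ [-X, X)` the factor of the vertex `0`
vanishes). Windows: `|j ws| ≤ H2 n H ≤ X`, `H2 ≤ K`. `‖∑_{(z,a)}‖ ≤ ∑_a ‖∑_z‖`. Constants: `(ρ/16)^(2^r) ≤ 2^(2^r)/H2^r · (1/(16 X K)) ∑ …`. -/
theorem A3_elim (n X K H H2 : ℕ) (hX : 1 ≤ X) (hK : 1 ≤ K) (hH2 : 1 ≤ H2) (hHK : H2 ≤ K) (hHH : n * H * H2 ≤ X) (ψ : ℝ)
    (c : ℤ × ℤ → ℂ) (hc : QP X K H ψ c) (t : Fin n → ℤ) (ht : ∀ i, |t i| ≤ H) (e : Fin (2 ^ n) ≃ (Fin n → Bool))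
    (f : ℤ → ℂ) (hf : Bdd X f) (ρ : ℝ) (hρ : 0 < ρ)
    (h : ρ * (K * X) ≤ ‖∑ a ∈ Ioc (K : ℤ) (2 * K), ∑ z ∈ Ico (-(X : ℤ)) X, DV (fun i => a * t i) f z * c (z, a)‖) :
    (ρ / 32) ^ (2 ^ 2 ^ n) * (K * X * (H2 : ℝ) ^ (2 ^ n)) ≤ ∑ j ∈ bxS (2 ^ n) H2, ∑ a ∈ Ioc (K : ℤ) (2 * K),
      ‖∑ z ∈ Ico (-(3 * X : ℤ)) (3 * X), DL (List.ofFn fun i => (-(j i * ws t (e i)), j i)) c (z, a)‖ := by
  set B : Finset (ℤ × ℤ) := Ico (-(3 * X : ℤ)) (3 * X) ×ˢ Ioc (K : ℤ) (2 * K) with hB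
  set B' : Finset (ℤ × ℤ) := Ico (-(4 * X : ℤ)) (4 * X) ×ˢ Ioc (0 : ℤ) (2 * K) with hB'
  set N : ℝ := 16 * X * K with hN
  have hXr : (1 : ℝ) ≤ X := by exact_mod_cast hX
  have hKr : (1 : ℝ) ≤ K := by exact_mod_cast hK
  have hHr : (1 : ℝ) ≤ H2 := by exact_mod_cast hH2
  have hN0 : 0 < N := by
    rw [hN]
    positivity
  have hcard : (B'.card : ℝ) ≤ N := by
    rw [hB', Finset.card_product, Int.card_Ico, Int.card_Ioc, hN]
    have e1 : (4 * (X : ℤ) - -(4 * (X : ℤ))).toNat = 8 * X := by omega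
    have e2 : (2 * (K : ℤ) - 0).toNat = 2 * K := by omega
    rw [e1, e2]
    push_cast
    apply le_of_eq
    ring
  have hcB : ∀ z, z ∉ B → c z = 0 := by
    rintro ⟨z, a⟩ hz
    by_cases h1 : z ∈ Ico (-(3 * X : ℤ)) (3 * X)
    · apply hc.supa
      rintro ⟨h2, h3⟩
      apply hz
      rw [hB, Finset.mem_product]
      exact ⟨h1, Finset.mem_Ioc.2 ⟨h2, h3⟩⟩
    · exact hc.supz z a h1
  have hwin : ∀ i (z : ℤ × ℤ), ∀ h : ℕ, h < H2 →
      z + h • ((-(ws t (e i)), 1) : ℤ × ℤ) ∈ B → z ∈ B' := by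
    rintro i ⟨z, a⟩ h hh hz
    rw [hB, Finset.mem_product, Finset.mem_Ico, Finset.mem_Ioc] at hz
    simp only [Prod.smul_mk, Prod.mk_add_mk, nsmul_eq_mul, mul_one] at hz
    obtain ⟨⟨h1, h2⟩, h3, h4⟩ := hz
    have hw : |(h : ℤ) * -(ws t (e i))| ≤ X := by
      rw [abs_mul, abs_neg, Nat.abs_cast]
      have h5 := a3_ws_abs n H t ht (e i)
      calc (h : ℤ) * |ws t (e i)| ≤ (H2 : ℤ) * ((n : ℤ) * H) := by
            apply mul_le_mul
            · exact_mod_cast hh.le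
            · exact h5
            · exact abs_nonneg _
            · positivity
        _ = ((n * H * H2 : ℕ) : ℤ) := by push_cast; ring
        _ ≤ X := by exact_mod_cast hHH
    rw [abs_le] at hw
    have hhK : (h : ℤ) < K := by exact_mod_cast lt_of_lt_of_le hh hHK
    have hh0 : (0 : ℤ) ≤ h := by positivity
    rw [hB', Finset.mem_product, Finset.mem_Ico, Finset.mem_Ioc]
    obtain ⟨hw1, hw2⟩ := hw
    refine ⟨⟨?_, ?_⟩, ?_, ?_⟩
    · show -(4 * X : ℤ) ≤ z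
      linarith
    · show z < 4 * X
      linarith
    · show 0 < a
      linarith
    · show a ≤ 2 * K
      linarith
  have main := E1_elim B B' N hcard hN0 H2 hH2 (2 ^ n) (fun i => ((-(ws t (e i)), 1) : ℤ × ℤ))
    (fun i z => cj (sg (e i)) (f (z.1 + z.2 * ws t (e i)))) c
    (fun i z => by
      show ‖cj (sg (e i)) (f (z.1 + z.2 * ws t (e i)))‖ ≤ 1
      rw [a3_cj_norm]
      exact hf.le _)
    (fun i z => by
      show cj (sg (e i)) (f ((z.1 + -(ws t (e i))) + (z.2 + 1) * ws t (e i))) =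
        cj (sg (e i)) (f (z.1 + z.2 * ws t (e i)))
      congr 2
      ring)
    hcB hwin
  have hS : ∑ z ∈ B, (∏ i, cj (sg (e i)) (f (z.1 + z.2 * ws t (e i)))) * c z =
      ∑ a ∈ Ioc (K : ℤ) (2 * K), ∑ z ∈ Ico (-(X : ℤ)) X, DV (fun i => a * t i) f z * c (z, a) := by
    rw [hB, Finset.sum_product_right]
    refine Finset.sum_congr rfl fun a _ => ?_
    have hsub : Ico (-(X : ℤ)) X ⊆ Ico (-(3 * X : ℤ)) (3 * X) := by
      apply Finset.Ico_subset_Ico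
      · have : (0 : ℤ) ≤ X := by positivity
        linarith
      · have : (0 : ℤ) ≤ X := by positivity
        linarith
    rw [← Finset.sum_subset hsub]
    · refine Finset.sum_congr rfl fun z _ => ?_
      rw [a3_prod]
    · intro z _ hz
      rw [a3_prod]
      unfold DV
      rw [DL_supp _ _ _ (hf.sup z hz), zero_mul]
  rw [hS] at main
  have hvec : ∀ j : Fin (2 ^ n) → ℤ,
      (List.ofFn fun i => j i • ((-(ws t (e i)), 1) : ℤ × ℤ)) =
      List.ofFn fun i => (-(j i * ws t (e i)), j i) := by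
    intro j
    congr 1
    funext i
    simp
  have hT : ∀ j : Fin (2 ^ n) → ℤ, ‖∑ z ∈ B, DL (List.ofFn fun i => j i • ((-(ws t (e i)), 1) : ℤ × ℤ)) c z‖ ≤
      ∑ a ∈ Ioc (K : ℤ) (2 * K),
      ‖∑ z ∈ Ico (-(3 * X : ℤ)) (3 * X), DL (List.ofFn fun i => (-(j i * ws t (e i)), j i)) c (z, a)‖ := by
    intro j
    rw [hvec, hB, Finset.sum_product_right]
    exact norm_sum_le _ _
  set SS : ℝ := ∑ j ∈ bxS (2 ^ n) H2, ∑ a ∈ Ioc (K : ℤ) (2 * K),
      ‖∑ z ∈ Ico (-(3 * X : ℤ)) (3 * X), DL (List.ofFn fun i => (-(j i * ws t (e i)), j i)) c (z, a)‖ with hSS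
  have h1 : ∑ j ∈ bxS (2 ^ n) H2, ‖∑ z ∈ B, DL (List.ofFn fun i => j i • ((-(ws t (e i)), 1) : ℤ × ℤ)) c z‖ / N ≤
      SS / N := by
    rw [← Finset.sum_div]
    apply div_le_div_of_nonneg_right _ hN0.le
    exact Finset.sum_le_sum fun j _ => hT j
  have h2 : (ρ / 16) ^ (2 ^ 2 ^ n) ≤ 2 ^ (2 ^ 2 ^ n) / (H2 : ℝ) ^ (2 ^ n) * (SS / N) := by
    refine le_trans ?_ (main.trans (mul_le_mul_of_nonneg_left h1 (by positivity)))
    apply pow_le_pow_left₀ (by positivity)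
    rw [le_div_iff₀ hN0, hN]
    refine le_trans (le_of_eq ?_) h
    ring
  have h3 : (ρ / 32) ^ (2 ^ 2 ^ n) = (ρ / 16) ^ (2 ^ 2 ^ n) / 2 ^ (2 ^ 2 ^ n) := by
    rw [← div_pow]
    congr 1
    ring
  have hp2 : (0 : ℝ) < 2 ^ (2 ^ 2 ^ n) := by positivity
  have hpH : (0 : ℝ) < (H2 : ℝ) ^ (2 ^ n) := by positivity
  have h4 : (ρ / 32) ^ (2 ^ 2 ^ n) * (N * (H2 : ℝ) ^ (2 ^ n)) ≤ SS := by
    rw [h3]
    calc (ρ / 16) ^ (2 ^ 2 ^ n) / 2 ^ (2 ^ 2 ^ n) * (N * (H2 : ℝ) ^ (2 ^ n))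
        ≤ (2 ^ (2 ^ 2 ^ n) / (H2 : ℝ) ^ (2 ^ n) * (SS / N)) / 2 ^ (2 ^ 2 ^ n) * (N * (H2 : ℝ) ^ (2 ^ n)) := by
          gcongr
      _ = SS := by
          field_simp
  refine le_trans ?_ h4
  apply mul_le_mul_of_nonneg_left _ (by positivity)
  apply mul_le_mul_of_nonneg_right _ hpH.le
  rw [hN]
  nlinarith [mul_nonneg (by linarith : (0 : ℝ) ≤ K) (by linarith : (0 : ℝ) ≤ X)]

end Pool.Agent.HUK
end

-- from Lib.HUK.P1
section

/-!
# Project HUK, chunk P1 (M): rules for `GG`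
-/

open Finset

namespace Pool.Agent.HUK

open Pool.Agent.H44W (ee)

theorem Bdd_DD {X : ℕ} {f : ℤ → ℂ} (hf : Bdd X f) (h : ℤ) : Bdd X (DD h f) := by
  refine ⟨fun y => ?_, fun y hy => ?_⟩
  · unfold DD
    rw [norm_mul, RCLike.norm_conj]
    have h1 := hf.le y
    have h2 := hf.le (y + h)
    have h3 := norm_nonneg (f y)
    have h4 := norm_nonneg (f (y + h))
    nlinarith
  · unfold DD
    rw [hf.sup y hy, zero_mul]

theorem Bdd_DV {X s : ℕ} {f : ℤ → ℂ} (hf : Bdd X f) (h : Fin s → ℤ) : Bdd X (DV h f) :=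
  ⟨fun y => DL_norm _ f hf.le y, fun y hy => DL_supp _ f y (hf.sup y hy)⟩

theorem bxS_sum (s H : ℕ) (F : (Fin (s + 1) → ℤ) → ℂ) :
    ∑ h ∈ bxS (s + 1) H, F h = ∑ k ∈ Ioo (-(H : ℤ)) H, ∑ h ∈ bxS s H, F (Fin.cons k h : Fin (s + 1) → ℤ) := by
  rw [← Finset.sum_product']
  refine Finset.sum_nbij' (fun h => (h 0, Fin.tail h)) (fun p => (Fin.cons p.1 p.2 : Fin (s + 1) → ℤ)) ?_ ?_ ?_ ?_ ?_
  · intro h hh
    rw [bxS, Fintype.mem_piFinset] at hh
    rw [Finset.mem_product]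
    refine ⟨hh 0, ?_⟩
    rw [bxS, Fintype.mem_piFinset]
    intro i
    exact hh i.succ
  · intro p hp
    rw [Finset.mem_product] at hp
    rw [bxS, Fintype.mem_piFinset]
    intro i
    have h2 := hp.2
    rw [bxS, Fintype.mem_piFinset] at h2
    refine Fin.cases ?_ ?_ i
    · simpa using hp.1
    · intro j
      simpa using h2 j
  · intro h _
    exact Fin.cons_self_tail h
  · intro p _
    simp
  · intro h _
    show F h = F (Fin.cons (h 0) (Fin.tail h) : Fin (s + 1) → ℤ)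
    rw [Fin.cons_self_tail]

theorem bxS_card (s H : ℕ) : ((bxS s H).card : ℝ) ≤ (2 * H) ^ s := by
  unfold bxS
  rw [Fintype.card_piFinset]
  simp only [Int.card_Ioo, Finset.prod_const, Finset.card_univ, Fintype.card_fin]
  push_cast
  refine pow_le_pow_left₀ (by positivity) ?_ s
  have h1 : ((H : ℤ) - -(H : ℤ) - 1).toNat ≤ 2 * H := by omega
  exact_mod_cast h1

theorem FF_cons (X s : ℕ) (k : ℤ) (h : Fin s → ℤ) (f : ℤ → ℂ) :
    FF X (Fin.cons k h : Fin (s + 1) → ℤ) f = FF X h (DD k f) := by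
  unfold FF DV
  rw [List.ofFn_cons]
  rfl

theorem GG_succ (X s : ℕ) (f : ℤ → ℂ) : GG X (s + 1) f = ∑ k ∈ Ioo (-(2 * X : ℤ)) (2 * X), GG X s (DD k f) := by
  unfold GG
  rw [bxS_sum, Complex.re_sum]
  push_cast
  refine Finset.sum_congr rfl fun k _ => ?_
  congr 1
  exact Finset.sum_congr rfl fun h _ => FF_cons X s k h f

theorem p1_sum_zero (X : ℕ) (f : ℤ → ℂ) :
    ∑ h ∈ bxS 0 (2 * X), FF X h f = ∑ y ∈ Ico (-(X : ℤ)) X, f y := by
  have h1 : bxS 0 (2 * X) = {(fun i : Fin 0 => i.elim0)} := by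
    ext h
    rw [bxS, Fintype.mem_piFinset, Finset.mem_singleton]
    exact ⟨fun _ => Subsingleton.elim _ _, fun _ i => i.elim0⟩
  rw [h1, Finset.sum_singleton]
  rfl

theorem p1_DD_supp {X : ℕ} {f : ℤ → ℂ} (hf : ∀ y, y ∉ Ico (-(X : ℤ)) X → f y = 0) (k : ℤ) :
    ∀ y, y ∉ Ico (-(X : ℤ)) X → DD k f y = 0 := by
  intro y hy
  unfold DD
  rw [hf y hy, zero_mul]

theorem p1_inner (X : ℕ) (f : ℤ → ℂ) (hf : ∀ y, y ∉ Ico (-(X : ℤ)) X → f y = 0) (y : ℤ)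
    (hy : y ∈ Ico (-(X : ℤ)) X) :
    ∑ k ∈ Ioo (-(2 * X : ℤ)) (2 * X), (starRingEnd ℂ) (f (y + k)) = (starRingEnd ℂ) (∑ z ∈ Ico (-(X : ℤ)) X, f z) := by
  rw [map_sum]
  symm
  refine Finset.sum_bij_ne_zero (fun z _ _ => z - y) ?_ ?_ ?_ ?_
  · intro z hz _
    rw [Finset.mem_Ico] at hz hy
    rw [Finset.mem_Ioo]
    omega
  · intro a _ _ b _ _ hab
    have : a - y = b - y := hab
    omega
  · intro k hk hne
    refine ⟨y + k, ?_, hne, ?_⟩
    · by_contra hc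
      apply hne
      rw [hf _ hc, map_zero]
    · show y + k - y = k
      ring
  · intro z _ _
    show (starRingEnd ℂ) (f z) = (starRingEnd ℂ) (f (y + (z - y)))
    rw [show y + (z - y) = z by ring]

theorem p1_one (X : ℕ) (f : ℤ → ℂ) (hf : ∀ y, y ∉ Ico (-(X : ℤ)) X → f y = 0) :
    ∑ h ∈ bxS 1 (2 * X), FF X h f = ((‖∑ y ∈ Ico (-(X : ℤ)) X, f y‖ ^ 2 : ℝ) : ℂ) := by
  have h0 : ∑ h ∈ bxS (0 + 1) (2 * X), FF X h f
      = ∑ k ∈ Ioo (-(2 * X : ℤ)) (2 * X), ∑ y ∈ Ico (-(X : ℤ)) X, DD k f y := by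
    rw [bxS_sum]
    push_cast
    refine Finset.sum_congr rfl fun k _ => ?_
    rw [← p1_sum_zero X (DD k f)]
    exact Finset.sum_congr rfl fun h _ => FF_cons X 0 k h f
  rw [show (1 : ℕ) = 0 + 1 from rfl, h0, Finset.sum_comm]
  have h1 : ∀ y ∈ Ico (-(X : ℤ)) X, ∑ k ∈ Ioo (-(2 * X : ℤ)) (2 * X), DD k f y
      = f y * (starRingEnd ℂ) (∑ z ∈ Ico (-(X : ℤ)) X, f z) := by
    intro y hy
    rw [← p1_inner X f hf y hy, Finset.mul_sum]
    rfl
  rw [Finset.sum_congr rfl h1, ← Finset.sum_mul, Complex.mul_conj, Complex.normSq_eq_norm_sq]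

/-- `∑_h ∑_y f(y) conj f(y + h)`, all differences are in `(-2X, 2X)`. -/
theorem GG_one (X : ℕ) (f : ℤ → ℂ) (hf : ∀ y, y ∉ Ico (-(X : ℤ)) X → f y = 0) :
    GG X 1 f = ‖∑ y ∈ Ico (-(X : ℤ)) X, f y‖ ^ 2 := by
  unfold GG
  rw [p1_one X f hf, Complex.ofReal_re]

theorem p1_real (X s : ℕ) (f : ℤ → ℂ) (hf : ∀ y, y ∉ Ico (-(X : ℤ)) X → f y = 0) :
    0 ≤ GG X (s + 1) f ∧ ∑ h ∈ bxS (s + 1) (2 * X), FF X h f = ((GG X (s + 1) f : ℝ) : ℂ) := by
  induction s generalizing f with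
  | zero =>
    rw [zero_add, GG_one X f hf]
    exact ⟨by positivity, p1_one X f hf⟩
  | succ s ih =>
    rw [GG_succ X (s + 1) f]
    refine ⟨Finset.sum_nonneg fun k _ => (ih _ (p1_DD_supp hf k)).1, ?_⟩
    rw [bxS_sum]
    push_cast
    refine Finset.sum_congr rfl fun k _ => ?_
    rw [← (ih _ (p1_DD_supp hf k)).2]
    exact Finset.sum_congr rfl fun h _ => FF_cons X (s + 1) k h f

theorem GG_nonneg (X s : ℕ) (hs : 1 ≤ s) (f : ℤ → ℂ) (hf : ∀ y, y ∉ Ico (-(X : ℤ)) X → f y = 0) : 0 ≤ GG X s f := by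
  obtain ⟨t, rfl⟩ : ∃ t, s = t + 1 := ⟨s - 1, by omega⟩
  exact (p1_real X t f hf).1

/-- The sum without real part is real (`s ≥ 1`), same induction. -/
theorem GG_real (X s : ℕ) (hs : 1 ≤ s) (f : ℤ → ℂ) (hf : ∀ y, y ∉ Ico (-(X : ℤ)) X → f y = 0) :
    ∑ h ∈ bxS s (2 * X), FF X h f = ((GG X s f : ℝ) : ℂ) := by
  obtain ⟨t, rfl⟩ : ∃ t, s = t + 1 := ⟨s - 1, by omega⟩
  exact (p1_real X t f hf).2


theorem p1_const (X s : ℕ) (f : ℤ → ℂ) (c : ℂ) (hc : ‖c‖ = 1) :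
    GG X (s + 1) (fun y => c * f y) = GG X (s + 1) f := by
  rw [GG_succ, GG_succ]
  refine Finset.sum_congr rfl fun k _ => ?_
  congr 1
  funext y
  unfold DD
  rw [map_mul]
  have h1 : c * (starRingEnd ℂ) c = 1 := by
    rw [Complex.mul_conj, Complex.normSq_eq_norm_sq, hc]
    norm_num
  calc c * f y * ((starRingEnd ℂ) c * (starRingEnd ℂ) (f (y + k)))
      = (c * (starRingEnd ℂ) c) * (f y * (starRingEnd ℂ) (f (y + k))) := by ring
    _ = f y * (starRingEnd ℂ) (f (y + k)) := by rw [h1, one_mul]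

/-- Phases of degree one do not change `GG X s`, `s ≥ 2`: `DD k (f e)` is `DD k f` times a constant of absolute value `1`, and `DD h (c g) = DD h g`
for `‖c‖ = 1`. -/
theorem GG_phase (X s : ℕ) (hs : 2 ≤ s) (f : ℤ → ℂ) (θ : ℝ) : GG X s (fun y => f y * ee (θ * y)) = GG X s f := by
  obtain ⟨t, rfl⟩ : ∃ t, s = t + 1 + 1 := ⟨s - 2, by omega⟩
  rw [GG_succ, GG_succ]
  refine Finset.sum_congr rfl fun k _ => ?_
  rw [← p1_const X t (DD k f) (ee (-(θ * k))) (Pool.Agent.H44W.norm_ee _)]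
  congr 1
  funext y
  unfold DD
  rw [map_mul, ← Pool.Agent.H44W.ee_neg]
  have h1 : ee (θ * y) * ee (-(θ * ((y + k : ℤ) : ℝ))) = ee (-(θ * k)) := by
    rw [← Pool.Agent.H44W.ee_add]
    congr 1
    push_cast
    ring
  calc f y * ee (θ * y) * ((starRingEnd ℂ) (f (y + k)) * ee (-(θ * ((y + k : ℤ) : ℝ))))
      = (ee (θ * y) * ee (-(θ * ((y + k : ℤ) : ℝ)))) * (f y * (starRingEnd ℂ) (f (y + k))) := by ring
    _ = ee (-(θ * k)) * (f y * (starRingEnd ℂ) (f (y + k))) := by rw [h1]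

theorem p1_zero (X s : ℕ) : GG X s (fun _ => 0) = 0 := by
  induction s with
  | zero =>
    unfold GG
    rw [p1_sum_zero]
    simp
  | succ s ih =>
    rw [GG_succ]
    refine Finset.sum_eq_zero fun k _ => ?_
    rw [← ih]
    congr 1
    funext y
    unfold DD
    rw [zero_mul]

theorem p1_DD_zero {A B : ℤ} {f : ℤ → ℂ} (hf : ∀ y, y ∉ Ico A B → f y = 0) (k : ℤ)
    (hk : k ∉ Ioo (-(B - A)) (B - A)) : DD k f = fun _ => 0 := by
  funext y
  unfold DD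
  by_cases hy : y ∈ Ico A B
  · have h2 : y + k ∉ Ico A B := by
      intro h3
      apply hk
      rw [Finset.mem_Ico] at hy h3
      rw [Finset.mem_Ioo]
      omega
    rw [hf _ h2, map_zero, mul_zero]
  · rw [hf _ hy, zero_mul]

/-- Translations. -/
theorem GG_shift (X X' s : ℕ) (a : ℤ) (f : ℤ → ℂ) (hf : ∀ y, y ∉ Ico (-(X : ℤ)) X → f y = 0)
    (hf' : ∀ y, y ∉ Ico (-(X' : ℤ)) X' → f (y + a) = 0) : GG X' s (fun y => f (y + a)) = GG X s f := by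
  induction s generalizing f with
  | zero =>
    unfold GG
    rw [p1_sum_zero, p1_sum_zero]
    congr 1
    refine Finset.sum_bij_ne_zero (fun z _ _ => z + a) ?_ ?_ ?_ ?_
    · intro z _ hne
      by_contra hc
      exact hne (hf _ hc)
    · intro z _ _ w _ _ hzw
      have : z + a = w + a := hzw
      omega
    · intro z _ hne
      refine ⟨z - a, ?_, ?_, ?_⟩
      · by_contra hc
        apply hne
        have := hf' _ hc
        rwa [sub_add_cancel] at this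
      · rwa [sub_add_cancel]
      · show z - a + a = z
        ring
    · intro z _ _
      rfl
  | succ s ih =>
    rw [GG_succ, GG_succ]
    have h1 : ∀ k : ℤ, GG X' s (DD k (fun y => f (y + a))) = GG X s (DD k f) := by
      intro k
      rw [← ih (DD k f) (p1_DD_supp hf k) ?_]
      · congr 1
        funext y
        unfold DD
        show f (y + a) * (starRingEnd ℂ) (f (y + k + a)) = f (y + a) * (starRingEnd ℂ) (f (y + a + k))
        rw [show y + k + a = y + a + k by ring]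
      · intro y hy
        unfold DD
        rw [hf' y hy, zero_mul]
    rw [Finset.sum_congr rfl fun k _ => h1 k]
    have hf2 : ∀ y, y ∉ Ico (-(X' : ℤ) + a) (X' + a) → f y = 0 := by
      intro y hy
      have := hf' (y - a) (by
        intro h3
        apply hy
        rw [Finset.mem_Ico] at h3 ⊢
        omega)
      rwa [sub_add_cancel] at this
    have h2 : ∀ k : ℤ, GG X s (DD k f) ≠ 0 →
        k ∈ Ioo (-(2 * X : ℤ)) (2 * X) ∧ k ∈ Ioo (-(2 * X' : ℤ)) (2 * X') := by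
      intro k hk
      constructor
      · by_contra hc
        apply hk
        rw [p1_DD_zero hf k (by rw [show (X : ℤ) - -(X : ℤ) = 2 * X by ring]; exact hc), p1_zero]
      · by_contra hc
        apply hk
        rw [p1_DD_zero hf2 k (by rw [show (X' : ℤ) + a - (-(X' : ℤ) + a) = 2 * X' by ring]; exact hc), p1_zero]
    refine Finset.sum_bij_ne_zero (fun k _ _ => k) ?_ ?_ ?_ ?_
    · intro k _ hne
      exact (h2 k hne).1
    · intro k _ _ l _ _ hkl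
      exact hkl
    · intro k _ hne
      exact ⟨k, (h2 k hne).2, hne, rfl⟩
    · intro k _ _
      rfl

/-- The window does not matter. -/
theorem GG_scale (X X' s : ℕ) (h : X ≤ X') (f : ℤ → ℂ) (hf : ∀ y, y ∉ Ico (-(X : ℤ)) X → f y = 0) :
    GG X' s f = GG X s f := by
  have h1 := GG_shift X X' s 0 f hf (by
    intro y hy
    rw [add_zero]
    apply hf
    intro h3
    apply hy
    rw [Finset.mem_Ico] at h3 ⊢
    omega)
  simpa using h1

end Pool.Agent.HUK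
end

-- from Lib.HUK.MQ1
section

/-!
# Project HUK, chunk MQ1 (M): mixed averages `MQ`, mean squares `TQ`
-/

open Finset

namespace Pool.Agent.HUK

open Pool.Agent.H44W (ee)

/-! ### Auxiliary lemmas -/

theorem mq1_ioo (M : ℕ) (F : ℤ → ℂ) : ∑ n ∈ Ioo (-((M + 1 : ℕ) : ℤ)) ((M + 1 : ℕ) : ℤ), F n =
    F 0 + ∑ j ∈ range M, (F ((j : ℤ) + 1) + F (-((j : ℤ) + 1))) := by
  induction M with
  | zero =>
    have h : Ioo (-((0 + 1 : ℕ) : ℤ)) ((0 + 1 : ℕ) : ℤ) = {0} := by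
      ext x; simp only [mem_Ioo, mem_singleton]; push_cast; omega
    rw [h]; simp
  | succ M ih =>
    have h : Ioo (-((M + 1 + 1 : ℕ) : ℤ)) ((M + 1 + 1 : ℕ) : ℤ) =
        insert ((M : ℤ) + 1) (insert (-((M : ℤ) + 1)) (Ioo (-((M + 1 : ℕ) : ℤ)) ((M + 1 : ℕ) : ℤ))) := by
      ext x; simp only [mem_Ioo, mem_insert]; push_cast; omega
    rw [h, sum_insert (by simp only [mem_insert, mem_Ioo]; push_cast; omega),
      sum_insert (by simp only [mem_Ioo]; push_cast; omega), ih, sum_range_succ]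
    ring

theorem mq1_refl (M : ℕ) (F : ℤ → ℂ) : ∑ j ∈ range M, F ((M : ℤ) - j) = ∑ j ∈ range M, F ((j : ℤ) + 1) := by
  induction M with
  | zero => simp
  | succ M ih =>
    rw [sum_range_succ', sum_range_succ, ← ih]
    have e1 : ∀ j : ℕ, F (((M + 1 : ℕ) : ℤ) - ((j + 1 : ℕ) : ℤ)) = F ((M : ℤ) - j) := by
      intro j; congr 1; push_cast; ring
    have e2 : F (((M + 1 : ℕ) : ℤ) - ((0 : ℕ) : ℤ)) = F ((M : ℤ) + 1) := by
      congr 1
    rw [e2, sum_congr rfl fun j _ => e1 j]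

theorem mq1_pairs (M : ℕ) (H : ℤ → ℂ) : ∑ j ∈ range M, ∑ i ∈ range M, H ((i : ℤ) - j) =
    ∑ n ∈ Ioo (-(M : ℤ)) M, ((M : ℂ) - ((|n| : ℤ) : ℂ)) * H n := by
  induction M with
  | zero => simp
  | succ M ih =>
    have h1 : ∑ n ∈ Ioo (-((M + 1 : ℕ) : ℤ)) ((M + 1 : ℕ) : ℤ), (((M + 1 : ℕ) : ℂ) - ((|n| : ℤ) : ℂ)) * H n =
        ∑ n ∈ Ioo (-((M + 1 : ℕ) : ℤ)) ((M + 1 : ℕ) : ℤ), ((M : ℂ) - ((|n| : ℤ) : ℂ)) * H n +
        ∑ n ∈ Ioo (-((M + 1 : ℕ) : ℤ)) ((M + 1 : ℕ) : ℤ), H n := by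
      rw [← sum_add_distrib]
      apply sum_congr rfl; intro n _; push_cast; ring
    have h2 : ∑ n ∈ Ioo (-((M + 1 : ℕ) : ℤ)) ((M + 1 : ℕ) : ℤ), ((M : ℂ) - ((|n| : ℤ) : ℂ)) * H n =
        ∑ n ∈ Ioo (-(M : ℤ)) M, ((M : ℂ) - ((|n| : ℤ) : ℂ)) * H n := by
      symm
      apply sum_subset
      · intro x hx; rw [mem_Ioo] at hx ⊢; push_cast; omega
      · intro x hx hx'
        rw [mem_Ioo] at hx hx'
        have h3 : |x| = (M : ℤ) := by
          push_cast at hx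
          rcases abs_cases x with h | h <;> omega
        rw [h3]; simp
    rw [h1, h2, ← ih, mq1_ioo, sum_add_distrib, sum_range_succ]
    have h5 : ∑ j ∈ range M, ∑ i ∈ range (M + 1), H ((i : ℤ) - j) =
        ∑ j ∈ range M, ∑ i ∈ range M, H ((i : ℤ) - j) + ∑ j ∈ range M, H ((j : ℤ) + 1) := by
      rw [sum_congr rfl fun (j : ℕ) _ => sum_range_succ (fun i : ℕ => H ((i : ℤ) - j)) M, sum_add_distrib, mq1_refl M H]
    rw [h5, sum_range_succ]
    have h4 : ∑ i ∈ range M, H ((i : ℤ) - M) = ∑ j ∈ range M, H (-((j : ℤ) + 1)) := by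
      rw [← mq1_refl M (fun n => H (-n))]
      apply sum_congr rfl; intro j _; congr 1; ring
    rw [h4, sub_self]
    ring

theorem mq1_fw (M : ℕ) (hM : 1 ≤ M) {n : ℤ} (hn : n ∈ Ioo (-(M : ℤ)) M) :
    (M : ℂ) * ((fw M n : ℝ) : ℂ) = (M : ℂ) - ((|n| : ℤ) : ℂ) := by
  rw [mem_Ioo] at hn
  have hM' : (0 : ℝ) < M := by exact_mod_cast hM
  have h1 : |(n : ℝ)| ≤ M := by
    have : |n| ≤ (M : ℤ) := abs_le.2 ⟨hn.1.le, hn.2.le⟩
    exact_mod_cast this
  have h2 : fw M n = 1 - |(n : ℝ)| / M := by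
    rw [fw, max_eq_right]
    rw [sub_nonneg, div_le_one hM']
    exact h1
  have h3 : (M : ℝ) * fw M n = (M : ℝ) - ((|n| : ℤ) : ℝ) := by
    rw [h2, mul_sub, mul_one, mul_div_cancel₀ _ hM'.ne']
    simp
  have h4 := congrArg (fun x : ℝ => (x : ℂ)) h3
  simp only [Complex.ofReal_mul, Complex.ofReal_sub, Complex.ofReal_natCast, Complex.ofReal_intCast] at h4
  exact h4

theorem mq1_fw_nonneg (M : ℕ) (n : ℤ) : 0 ≤ fw M n := le_max_left _ _

theorem mq1_fw_sum (M : ℕ) (hM : 1 ≤ M) : ∑ n ∈ Ioo (-(M : ℤ)) M, fw M n = M := by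
  have h := mq1_pairs M (fun _ => 1)
  have hM' : (M : ℂ) ≠ 0 := by
    have : M ≠ 0 := by omega
    exact_mod_cast this
  have h1 : ∑ n ∈ Ioo (-(M : ℤ)) M, ((M : ℂ) - ((|n| : ℤ) : ℂ)) * 1 = (M : ℂ) * ∑ n ∈ Ioo (-(M : ℤ)) M, ((fw M n : ℝ) : ℂ) := by
    rw [mul_sum]
    apply sum_congr rfl; intro n hn
    rw [mq1_fw M hM hn, mul_one]
  rw [h1] at h
  simp only [sum_const, card_range, nsmul_eq_mul, mul_one] at h
  have h2 := mul_left_cancel₀ hM' h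
  have h3 : ((∑ n ∈ Ioo (-(M : ℤ)) M, fw M n : ℝ) : ℂ) = ((M : ℝ) : ℂ) := by
    push_cast; exact h2.symm
  exact_mod_cast h3

theorem mq1_DD_supp {X : ℕ} {f : ℤ → ℂ} (hf : ∀ y, y ∉ Ico (-(X : ℤ)) X → f y = 0) (h : ℤ) :
    ∀ y, y ∉ Ico (-(X : ℤ)) X → DD h f y = 0 := by
  intro y hy
  simp only [DD]
  rw [hf y hy, zero_mul]

theorem mq1_DD_comm (h k : ℤ) (f : ℤ → ℂ) : DD h (DD k f) = DD k (DD h f) := by
  funext y
  simp only [DD, map_mul]
  rw [add_right_comm y h k]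
  ring

/-- The order of the progressions does not matter (differences commute, finite sums; adjacent transpositions, `List.Perm.rec`). -/
theorem MQ_perm (X : ℕ) {l l' : List (ℕ × ℤ)} (h : l.Perm l') (f : ℤ → ℂ) : MQ X l f = MQ X l' f := by
  induction h generalizing f with
  | nil => rfl
  | cons p _ ih =>
    simp only [MQ]
    rw [sum_congr rfl fun t _ => by rw [ih (DD (p.2 * t) f)]]
  | swap p q l =>
    simp only [MQ]
    simp only [sum_div, mul_sum, mul_div_assoc']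
    rw [sum_comm]
    apply sum_congr rfl; intro t _
    apply sum_congr rfl; intro u _
    rw [mq1_DD_comm]
    ring
  | trans _ _ ih1 ih2 => rw [ih1, ih2]

theorem MQ_NU (X s M : ℕ) (hM : 1 ≤ M) (d : ℤ) (f : ℤ → ℂ) : (MQ X (List.replicate s (M, d)) f).re = NU X s M d f := by
  have key : ∀ (s : ℕ) (f : ℤ → ℂ), MQ X (List.replicate s (M, d)) f =
      (∑ t ∈ bxS s M, ((FW M t : ℝ) : ℂ) * FF X (fun i => d * t i) f) / (M : ℂ) ^ s := by
    intro s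
    induction s with
    | zero =>
      intro f
      have h : bxS 0 M = {fun i => i.elim0} := by
        ext x
        simp only [bxS, Fintype.mem_piFinset, mem_singleton]
        constructor
        · intro _; funext i; exact i.elim0
        · intro _ i; exact i.elim0
      rw [h]
      simp [MQ, FW, FF, DV, DL]
    | succ s ih =>
      intro f
      rw [List.replicate_succ]
      simp only [MQ]
      rw [bxS_sum, pow_succ, ← div_div]
      congr 1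
      rw [sum_div]
      apply sum_congr rfl; intro k _
      rw [ih, mul_div_assoc', mul_sum]
      congr 1
      apply sum_congr rfl; intro h _
      have h1 : (fun i => d * (Fin.cons k h : Fin (s + 1) → ℤ) i) = (Fin.cons (d * k) (fun i => d * h i) : Fin (s + 1) → ℤ) := by
        funext i
        refine Fin.cases ?_ (fun j => ?_) i
        · simp
        · simp
      rw [h1, FF_cons]
      have h2 : FW M (Fin.cons k h : Fin (s + 1) → ℤ) = fw M k * FW M h := by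
        simp [FW, Fin.prod_univ_succ]
      rw [h2]
      push_cast
      ring
  rw [key, NU]
  have h : ((M : ℂ) ^ s) = (((M : ℝ) ^ s : ℝ) : ℂ) := by push_cast; rfl
  rw [h, Complex.div_ofReal_re]

/-- Opening the square: `‖∑_{j<M} g(z + a j) ee(ψ j)‖² = ∑_{j,i<M} g(z + a j) conj g(z + a i) ee(ψ (j - i))`, put `y = z + a j`, `n = i - j`
(`M - |n| = M fw M n` pairs); `y ∈ [-X, X)` forces `z ∈ [-2X, 2X)` because `0 ≤ a j ≤ X`. -/
theorem TQ_eq (X M : ℕ) (hM : 1 ≤ M) (a : ℤ) (ha : 0 ≤ a) (haM : a * M ≤ X) (ψ : ℝ) (g : ℤ → ℂ)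
    (hg : ∀ y, y ∉ Ico (-(X : ℤ)) X → g y = 0) :
    ((M * TQ X M a ψ g : ℝ) : ℂ) = ∑ n ∈ Ioo (-(M : ℤ)) M, ((fw M n : ℝ) : ℂ) * ee (-(ψ * n)) *
      ∑ y ∈ Ico (-(X : ℤ)) X, g y * (starRingEnd ℂ) (g (y + a * n)) := by
  have hM' : (M : ℂ) ≠ 0 := by
    have : M ≠ 0 := by omega
    exact_mod_cast this
  set S : ℤ → ℂ := fun n => ∑ y ∈ Ico (-(X : ℤ)) X, g y * (starRingEnd ℂ) (g (y + a * n)) with hS
  have hshift : ∀ j ∈ range M, ∀ n : ℤ,
      ∑ z ∈ Ico (-(2 * X : ℤ)) (2 * X), g (z + a * j) * (starRingEnd ℂ) (g (z + a * j + a * n)) = S n := by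
    intro j hj n
    rw [mem_range] at hj
    have hj1 : a * j ≤ X := by
      have : (j : ℤ) ≤ M := by exact_mod_cast hj.le
      nlinarith
    have hj0 : 0 ≤ a * j := mul_nonneg ha (by positivity)
    have e1 : ∑ z ∈ Ico (-(2 * X : ℤ)) (2 * X), g (z + a * j) * (starRingEnd ℂ) (g (z + a * j + a * n)) =
        ∑ y ∈ Ico (-(2 * X : ℤ) + a * j) (2 * X + a * j), g y * (starRingEnd ℂ) (g (y + a * n)) := by
      refine sum_bij (fun z _ => z + a * j) ?_ ?_ ?_ ?_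
      · intro z hz; rw [mem_Ico] at hz ⊢; omega
      · intro z _ z' _ h; simpa using h
      · intro y hy
        rw [mem_Ico] at hy
        exact ⟨y - a * j, by rw [mem_Ico]; omega, by ring⟩
      · intro z _; rfl
    rw [e1]
    symm
    apply sum_subset
    · intro y hy; rw [mem_Ico] at hy ⊢; omega
    · intro y _ hy; rw [hg y hy, zero_mul]
  have hsq : ∀ z : ℤ, ((‖(∑ j ∈ range M, g (z + a * j) * ee (ψ * j)) / M‖ ^ 2 : ℝ) : ℂ) =
      (∑ j ∈ range M, ∑ i ∈ range M, ee (-(ψ * ((i : ℤ) - j : ℤ))) *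
        (g (z + a * j) * (starRingEnd ℂ) (g (z + a * j + a * ((i : ℤ) - j))))) / ((M : ℂ) * M) := by
    intro z
    have h0 : ∀ w : ℂ, ((‖w‖ ^ 2 : ℝ) : ℂ) = w * (starRingEnd ℂ) w := by
      intro w
      rw [Complex.mul_conj, Complex.normSq_eq_norm_sq]
    rw [h0, map_div₀, map_sum, Complex.conj_natCast, div_mul_div_comm, sum_mul_sum]
    congr 1
    apply sum_congr rfl; intro j _
    apply sum_congr rfl; intro i _
    rw [map_mul, ← Pool.Agent.H44W.ee_neg]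
    have e1 : z + a * j + a * ((i : ℤ) - j) = z + a * i := by ring
    have e2 : -(ψ * (((i : ℤ) - j : ℤ) : ℝ)) = ψ * j + -(ψ * i) := by push_cast; ring
    rw [e1, e2, Pool.Agent.H44W.ee_add]
    ring
  have h1 : ((M * TQ X M a ψ g : ℝ) : ℂ) = (∑ j ∈ range M, ∑ i ∈ range M,
      ee (-(ψ * ((i : ℤ) - j : ℤ))) * S ((i : ℤ) - j)) / M := by
    rw [TQ]
    rw [Complex.ofReal_mul, Complex.ofReal_sum, sum_congr rfl fun z _ => hsq z, ← sum_div]
    rw [Complex.ofReal_natCast, mul_div_assoc', mul_comm (M : ℂ), mul_div_mul_right _ _ hM']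
    congr 1
    rw [sum_comm]
    apply sum_congr rfl; intro j hj
    rw [sum_comm]
    apply sum_congr rfl; intro i _
    rw [← mul_sum, hshift j hj]
  rw [h1, mq1_pairs M (fun n => ee (-(ψ * (n : ℤ))) * S n), sum_div]
  apply sum_congr rfl; intro n hn
  rw [← mq1_fw M hM hn, mul_assoc, mul_assoc, mul_div_assoc, mul_div_cancel₀ _ hM']

/-- One progression. -/
theorem MQ_one (X M : ℕ) (hM : 1 ≤ M) (a : ℤ) (ha : 0 ≤ a) (haM : a * M ≤ X) (g : ℤ → ℂ)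
    (hg : ∀ y, y ∉ Ico (-(X : ℤ)) X → g y = 0) : MQ X [(M, a)] g = ((TQ X M a 0 g : ℝ) : ℂ) := by
  have hM' : (M : ℂ) ≠ 0 := by
    have : M ≠ 0 := by omega
    exact_mod_cast this
  have h := TQ_eq X M hM a ha haM 0 g hg
  simp only [MQ]
  rw [div_eq_iff hM', mul_comm]
  have h2 : (M : ℂ) * ((TQ X M a 0 g : ℝ) : ℂ) = ((M * TQ X M a 0 g : ℝ) : ℂ) := by push_cast; rfl
  rw [h2, h]
  apply sum_congr rfl; intro n _
  rw [zero_mul, neg_zero, Pool.Agent.H44W.ee_zero, mul_one]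
  rfl

/-- Real and nonnegative: induction on the list, the last entry (`MQ_one`) is a mean square, the weights `fw` are `≥ 0`. -/
theorem MQ_nonneg (X : ℕ) (l : List (ℕ × ℤ)) (hl : l ≠ []) (hp : ∀ p ∈ l, 1 ≤ p.1 ∧ 0 ≤ p.2 ∧ p.2 * p.1 ≤ X) (f : ℤ → ℂ)
    (hf : ∀ y, y ∉ Ico (-(X : ℤ)) X → f y = 0) : ∃ x : ℝ, 0 ≤ x ∧ MQ X l f = (x : ℂ) := by
  induction l generalizing f with
  | nil => exact absurd rfl hl
  | cons p l ih =>
    rcases l with _ | ⟨q, l⟩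
    · have h := hp p (by simp)
      refine ⟨TQ X p.1 p.2 0 f, ?_, ?_⟩
      · rw [TQ]; exact sum_nonneg fun _ _ => by positivity
      · exact MQ_one X p.1 h.1 p.2 h.2.1 h.2.2 f hf
    · have h1 : ∀ t : ℤ, ∃ x : ℝ, 0 ≤ x ∧ MQ X (q :: l) (DD (p.2 * t) f) = (x : ℂ) := fun t =>
        ih (by simp) (fun r hr => hp r (List.mem_cons_of_mem _ hr)) (DD (p.2 * t) f) (mq1_DD_supp hf _)
      choose x hx0 hx using h1
      refine ⟨(∑ t ∈ Ioo (-(p.1 : ℤ)) p.1, fw p.1 t * x t) / p.1, ?_, ?_⟩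
      · exact div_nonneg (sum_nonneg fun t _ => mul_nonneg (mq1_fw_nonneg _ _) (hx0 t)) (by positivity)
      · rw [MQ, sum_congr rfl fun t _ => by rw [hx t]]
        push_cast
        rfl

theorem NU_nonneg (X s M : ℕ) (hs : 1 ≤ s) (hM : 1 ≤ M) (d : ℤ) (hd : 0 ≤ d) (hdM : d * M ≤ X) (f : ℤ → ℂ)
    (hf : ∀ y, y ∉ Ico (-(X : ℤ)) X → f y = 0) : 0 ≤ NU X s M d f := by
  rw [← MQ_NU X s M hM d f]
  obtain ⟨x, hx, h⟩ := MQ_nonneg X (List.replicate s (M, d))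
    (by intro h; rw [List.replicate_eq_nil_iff] at h; omega)
    (by
      intro p hp
      rw [List.eq_of_mem_replicate hp]
      exact ⟨hM, hd, hdM⟩) f hf
  rw [h, Complex.ofReal_re]
  exact hx


/-- At most `2X` (the trivial bound for each difference, and `∑_{|t|<M} fw M t = M`). -/
theorem MQ_le (X : ℕ) (l : List (ℕ × ℤ)) (hp : ∀ p ∈ l, 1 ≤ p.1) (f : ℤ → ℂ) (hf : Bdd X f) : ‖MQ X l f‖ ≤ 2 * X := by
  induction l generalizing f with
  | nil =>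
    simp only [MQ]
    refine (norm_sum_le _ _).trans ?_
    refine (sum_le_sum fun y _ => hf.le y).trans ?_
    rw [sum_const, nsmul_eq_mul, mul_one, Int.card_Ico]
    have : ((X : ℤ) - -(X : ℤ)).toNat = 2 * X := by omega
    rw [this]
    push_cast
    exact le_refl _
  | cons p l ih =>
    have hp1 := hp p (by simp)
    have hp' : (0 : ℝ) < p.1 := by exact_mod_cast hp1
    simp only [MQ]
    rw [norm_div, Complex.norm_natCast, div_le_iff₀ hp']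
    refine (norm_sum_le _ _).trans ?_
    have h1 : ∑ t ∈ Ioo (-(p.1 : ℤ)) p.1, ‖((fw p.1 t : ℝ) : ℂ) * MQ X l (DD (p.2 * t) f)‖ ≤
        ∑ t ∈ Ioo (-(p.1 : ℤ)) p.1, fw p.1 t * (2 * X) := by
      apply sum_le_sum; intro t _
      rw [norm_mul, Complex.norm_real, Real.norm_eq_abs, abs_of_nonneg (mq1_fw_nonneg _ _)]
      exact mul_le_mul_of_nonneg_left (ih (fun r hr => hp r (List.mem_cons_of_mem _ hr)) _ (Bdd_DD hf _))
        (mq1_fw_nonneg _ _)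
    refine h1.trans ?_
    rw [← sum_mul, mq1_fw_sum p.1 hp1, mul_comm]


end Pool.Agent.HUK
end

-- from Lib.HUK.MQ2
section

/-!
# Project HUK, chunk MQ2 (M): shorter progressions with a multiple of the difference
-/

open Finset

namespace Pool.Agent.HUK

open Pool.Agent.H44W (ee)
open Pool.Agent.Lib.H84V (nd)

theorem mq2_ee (x : ℝ) : ‖ee x - 1‖ ≤ 7 * nd x := by
  obtain ⟨m, hm⟩ := Pool.Agent.Lib.H84V.exists_nd x
  have h1 : ee x = ee (x - m) := by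
    have h2 : ee (-(m : ℝ)) = 1 := by
      have h3 := Pool.Agent.H44W.ee_int (-m)
      push_cast at h3
      exact h3
    rw [sub_eq_add_neg, Pool.Agent.H44W.ee_add, h2, mul_one]
  rw [h1, hm]
  have h2 : ee (x - m) = Complex.exp (Complex.I * ((2 * Real.pi * (x - m) : ℝ) : ℂ)) := by
    unfold Pool.Agent.H44W.ee
    congr 1
    push_cast
    ring
  rw [h2]
  refine (Real.norm_exp_I_mul_ofReal_sub_one_le).trans ?_
  rw [Real.norm_eq_abs, abs_mul, abs_of_pos (by positivity : (0 : ℝ) < 2 * Real.pi)]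
  have h3 := Real.pi_lt_d2
  exact mul_le_mul_of_nonneg_right (by linarith) (abs_nonneg _)

theorem mq2_shift (F : ℕ → ℂ) (hF : ∀ j, ‖F j‖ ≤ 1) (M n : ℕ) :
    ‖∑ j ∈ range M, F j - ∑ j ∈ range M, F (j + n)‖ ≤ 2 * n := by
  induction n with
  | zero => simp
  | succ n ih =>
    have h1 : ∑ j ∈ range M, F (j + n) - ∑ j ∈ range M, F (j + (n + 1)) = F n - F (M + n) := by
      rw [← Finset.sum_sub_distrib]
      have h2 := Finset.sum_range_sub' (fun j => F (j + n)) M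
      simp only [zero_add] at h2
      rw [← h2]
      refine Finset.sum_congr rfl fun j _ => ?_
      rw [show j + (n + 1) = j + 1 + n by ring]
    calc ‖∑ j ∈ range M, F j - ∑ j ∈ range M, F (j + (n + 1))‖ =
          ‖(∑ j ∈ range M, F j - ∑ j ∈ range M, F (j + n)) + (F n - F (M + n))‖ := by
          rw [← h1]
          congr 1
          ring
      _ ≤ 2 * n + (1 + 1) :=
          (norm_add_le _ _).trans (add_le_add ih ((norm_sub_le _ _).trans (add_le_add (hF _) (hF _))))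
      _ = 2 * ((n + 1 : ℕ) : ℝ) := by
          push_cast
          ring

theorem mq2_shiftsum (G : ℤ → ℝ) (hG0 : ∀ y, 0 ≤ G y) (A B b : ℤ) (hG : ∀ y, y ∉ Ico A B → G y = 0) :
    ∑ z ∈ Ico A B, G (z + b) ≤ ∑ y ∈ Ico A B, G y := by
  rw [Finset.sum_Ico_add' G A B b]
  calc ∑ y ∈ Ico (A + b) (B + b), G y = ∑ y ∈ (Ico (A + b) (B + b)).filter (fun y => y ∈ Ico A B), G y :=
        (Finset.sum_filter_of_ne (fun y _ hy => by
          by_contra h
          exact hy (hG y h))).symm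
    _ ≤ ∑ y ∈ Ico A B, G y :=
        Finset.sum_le_sum_of_subset_of_nonneg (fun y hy => (mem_filter.1 hy).2) (fun y _ _ => hG0 y)

theorem mq2_point (M M1 q : ℕ) (hM : 1 ≤ M) (hM1 : 1 ≤ M1) (a : ℤ) (ψ : ℝ) (g : ℤ → ℂ)
    (hg : ∀ y, ‖g y‖ ≤ 1) (z : ℤ) :
    ‖(∑ j ∈ range M, g (z + a * j) * ee (ψ * j)) / M‖ ≤
      (∑ j ∈ range M, ‖(∑ i ∈ range M1, g (z + a * j + a * q * i) * ee (0 * i)) / M1‖) / M +
        (2 * q * M1 / M + 7 * M1 * nd (q * ψ)) := by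
  have hM' : (0 : ℝ) < M := by exact_mod_cast hM
  have hM1' : (0 : ℝ) < M1 := by exact_mod_cast hM1
  have hnd : 0 ≤ nd (q * ψ) := Pool.Agent.Lib.H84V.nd_nonneg _
  have h1 : ∀ i ∈ range M1, ‖(∑ j ∈ range M, g (z + a * j) * ee (ψ * j)) -
      ∑ j ∈ range M, g (z + a * j + a * q * i) * ee (ψ * j)‖ ≤ 2 * q * M1 + 7 * M * M1 * nd (q * ψ) := by
    intro i hi
    have hi' : (i : ℝ) ≤ M1 := by exact_mod_cast (mem_range.1 hi).le
    have h2 := mq2_shift (fun j => g (z + a * j) * ee (ψ * j)) (fun j => by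
      rw [norm_mul, Pool.Agent.H44W.norm_ee, mul_one]
      exact hg _) M (q * i)
    have h3 : ‖∑ j ∈ range M, g (z + a * ((j + q * i : ℕ) : ℤ)) * ee (ψ * ((j + q * i : ℕ) : ℝ)) -
        ∑ j ∈ range M, g (z + a * j + a * q * i) * ee (ψ * j)‖ ≤ M * (7 * (i * nd (q * ψ))) := by
      rw [← Finset.sum_sub_distrib]
      refine (norm_sum_le _ _).trans ?_
      have h4 : ∀ j ∈ range M, ‖g (z + a * ((j + q * i : ℕ) : ℤ)) * ee (ψ * ((j + q * i : ℕ) : ℝ)) -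
          g (z + a * j + a * q * i) * ee (ψ * j)‖ ≤ 7 * (i * nd (q * ψ)) := by
        intro j _
        have e1 : z + a * ((j + q * i : ℕ) : ℤ) = z + a * j + a * q * i := by
          push_cast
          ring
        have e2 : ee (ψ * ((j + q * i : ℕ) : ℝ)) = ee (ψ * j) * ee (i * (q * ψ)) := by
          rw [← Pool.Agent.H44W.ee_add]
          congr 1
          push_cast
          ring
        rw [e1, e2]
        have e3 : g (z + a * j + a * q * i) * (ee (ψ * j) * ee (i * (q * ψ))) -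
            g (z + a * j + a * q * i) * ee (ψ * j) =
            g (z + a * j + a * q * i) * ee (ψ * j) * (ee (i * (q * ψ)) - 1) := by ring
        rw [e3, norm_mul, norm_mul, Pool.Agent.H44W.norm_ee, mul_one]
        have h5 := mq2_ee (i * (q * ψ))
        have h6 := Pool.Agent.Lib.H84V.nd_nat_mul_le i (q * ψ)
        calc ‖g (z + a * j + a * q * i)‖ * ‖ee (i * (q * ψ)) - 1‖ ≤ 1 * (7 * (i * nd (q * ψ))) :=
              mul_le_mul (hg _) (h5.trans (by linarith)) (norm_nonneg _) zero_le_one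
          _ = 7 * (i * nd (q * ψ)) := one_mul _
      refine (Finset.sum_le_sum h4).trans ?_
      rw [Finset.sum_const, card_range, nsmul_eq_mul]
    have h7 : (∑ j ∈ range M, g (z + a * j) * ee (ψ * j)) -
        ∑ j ∈ range M, g (z + a * j + a * q * i) * ee (ψ * j) =
        ((∑ j ∈ range M, g (z + a * j) * ee (ψ * j)) -
          ∑ j ∈ range M, g (z + a * ((j + q * i : ℕ) : ℤ)) * ee (ψ * ((j + q * i : ℕ) : ℝ))) +
        (∑ j ∈ range M, g (z + a * ((j + q * i : ℕ) : ℤ)) * ee (ψ * ((j + q * i : ℕ) : ℝ)) -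
          ∑ j ∈ range M, g (z + a * j + a * q * i) * ee (ψ * j)) := by ring
    rw [h7]
    refine (norm_add_le _ _).trans ((add_le_add h2 h3).trans ?_)
    have h8 : (q : ℝ) * i ≤ q * M1 := mul_le_mul_of_nonneg_left hi' (by positivity)
    have h9 : (i : ℝ) * nd (q * ψ) ≤ M1 * nd (q * ψ) := mul_le_mul_of_nonneg_right hi' hnd
    have h10 : (M : ℝ) * (i * nd (q * ψ)) ≤ M * (M1 * nd (q * ψ)) :=
      mul_le_mul_of_nonneg_left h9 hM'.le
    push_cast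
    nlinarith
  have h2 : (M1 : ℂ) * (∑ j ∈ range M, g (z + a * j) * ee (ψ * j)) =
      (∑ i ∈ range M1, ((∑ j ∈ range M, g (z + a * j) * ee (ψ * j)) -
        ∑ j ∈ range M, g (z + a * j + a * q * i) * ee (ψ * j))) +
      ∑ j ∈ range M, ee (ψ * j) * ∑ i ∈ range M1, g (z + a * j + a * q * i) * ee (0 * i) := by
    rw [Finset.sum_sub_distrib, Finset.sum_const, card_range, nsmul_eq_mul]
    have h3 : ∑ i ∈ range M1, ∑ j ∈ range M, g (z + a * j + a * q * i) * ee (ψ * j) =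
        ∑ j ∈ range M, ee (ψ * j) * ∑ i ∈ range M1, g (z + a * j + a * q * i) * ee (0 * i) := by
      rw [Finset.sum_comm]
      refine Finset.sum_congr rfl fun j _ => ?_
      rw [Finset.mul_sum]
      refine Finset.sum_congr rfl fun i _ => ?_
      rw [zero_mul, Pool.Agent.H44W.ee_zero]
      ring
    rw [h3]
    ring
  have h3 : (M1 : ℝ) * ‖∑ j ∈ range M, g (z + a * j) * ee (ψ * j)‖ ≤
      M1 * (2 * q * M1 + 7 * M * M1 * nd (q * ψ)) +
        ∑ j ∈ range M, ‖∑ i ∈ range M1, g (z + a * j + a * q * i) * ee (0 * i)‖ := by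
    have h4 : (M1 : ℝ) * ‖∑ j ∈ range M, g (z + a * j) * ee (ψ * j)‖ =
        ‖(M1 : ℂ) * (∑ j ∈ range M, g (z + a * j) * ee (ψ * j))‖ := by
      rw [norm_mul, Complex.norm_natCast]
    rw [h4, h2]
    refine (norm_add_le _ _).trans (add_le_add ?_ ?_)
    · refine (norm_sum_le _ _).trans ((Finset.sum_le_sum h1).trans ?_)
      rw [Finset.sum_const, card_range, nsmul_eq_mul]
    · refine (norm_sum_le _ _).trans (Finset.sum_le_sum fun j _ => ?_)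
      rw [norm_mul, Pool.Agent.H44W.norm_ee, one_mul]
  have h4 : ∑ j ∈ range M, ‖(∑ i ∈ range M1, g (z + a * j + a * q * i) * ee (0 * i)) / M1‖ =
      (∑ j ∈ range M, ‖∑ i ∈ range M1, g (z + a * j + a * q * i) * ee (0 * i)‖) / M1 := by
    rw [Finset.sum_div]
    refine Finset.sum_congr rfl fun j _ => ?_
    rw [norm_div, Complex.norm_natCast]
  rw [h4, norm_div, Complex.norm_natCast]
  set s1 := ‖∑ j ∈ range M, g (z + a * j) * ee (ψ * j)‖
  set s2 := ∑ j ∈ range M, ‖∑ i ∈ range M1, g (z + a * j + a * q * i) * ee (0 * i)‖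
  have h5 : s2 / M1 / M + (2 * q * M1 / M + 7 * M1 * nd (q * ψ)) =
      (M1 * (2 * q * M1 + 7 * M * M1 * nd (q * ψ)) + s2) / (M1 * M) := by
    field_simp
    ring
  have h6 : s1 / M = (M1 * s1) / (M1 * M) := by
    field_simp
  rw [h5, h6]
  exact div_le_div_of_nonneg_right h3 (by positivity)

/-- Proof. `w(z) = (1/M) ∑_{j<M} g(z + a j) ee(ψ j)`, `w₁(y) = (1/M1) ∑_{i<M1} g(y + a q i)`. For `i < M1` shift `j` by `q i`:
`‖w(z) - (1/M) ∑_{j<M} g(z + a j + a q i) ee(ψ j) ee(ψ q i)‖ ≤ 2 q i/M`, and `‖ee(ψ q i) - 1‖ ≤ 2π i nd(q ψ) ≤ 7 M1 nd(q ψ)` (`nd (i x) ≤ i nd x`,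
`‖ee x - 1‖ ≤ 2π nd x`). Average over `i`: `‖w(z)‖ ≤ (1/M) ∑_{j<M} ‖w₁(z + a j)‖ + e`, `e = 2 q M1/M + 7 M1 nd(q ψ)`. Square (`(x+y)² ≤ 2x² + 2y²`,
Cauchy-Schwarz over `j`), sum over `z ∈ [-2X, 2X)`; `w₁` is supported in `[-2X, X)` (`a q M1 ≤ X`), so `∑_z ‖w₁(z + a j)‖² ≤ TQ X M1 (a q) 0 g`. -/
theorem TQ_block (X M M1 q : ℕ) (hM : 1 ≤ M) (hM1 : 1 ≤ M1) (hq : 1 ≤ q) (a : ℤ) (ha : 0 ≤ a) (haM : a * (q * M1) ≤ X)
    (ψ : ℝ) (g : ℤ → ℂ) (hg : Bdd X g) :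
    TQ X M a ψ g ≤ 2 * TQ X M1 (a * q) 0 g + 8 * X * (2 * q * M1 / M + 7 * M1 * nd (q * ψ)) ^ 2 := by
  have hM' : (0 : ℝ) < M := by exact_mod_cast hM
  set w1 : ℤ → ℂ := fun y => (∑ i ∈ range M1, g (y + a * q * i) * ee (0 * i)) / M1 with hw1
  set e : ℝ := 2 * q * M1 / M + 7 * M1 * nd (q * ψ) with he
  have he0 : 0 ≤ e := by
    have := Pool.Agent.Lib.H84V.nd_nonneg (q * ψ)
    positivity
  have hsup : ∀ y, y ∉ Ico (-(2 * X : ℤ)) (2 * X) → ‖w1 y‖ ^ 2 = 0 := by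
    intro y hy
    have h1 : w1 y = 0 := by
      rw [hw1]
      simp only
      rw [Finset.sum_eq_zero, zero_div]
      intro i hi
      have h2 : a * (q * (i : ℤ)) ≤ a * (q * M1) := by
        refine mul_le_mul_of_nonneg_left ?_ ha
        refine mul_le_mul_of_nonneg_left ?_ (by positivity)
        exact_mod_cast (mem_range.1 hi).le
      have h3 : 0 ≤ a * (q * (i : ℤ)) := by positivity
      rw [hg.sup, zero_mul]
      rw [mem_Ico] at hy ⊢
      rw [mul_assoc]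
      omega
    rw [h1, norm_zero]
    ring
  have hpt : ∀ z, ‖(∑ j ∈ range M, g (z + a * j) * ee (ψ * j)) / M‖ ^ 2 ≤
      2 * ((∑ j ∈ range M, ‖w1 (z + a * j)‖ ^ 2) / M) + 2 * e ^ 2 := by
    intro z
    have h1 := mq2_point M M1 q hM hM1 a ψ g hg.le z
    have h2 : 0 ≤ (∑ j ∈ range M, ‖w1 (z + a * j)‖) / M := by positivity
    have h3 : ((∑ j ∈ range M, ‖w1 (z + a * j)‖) / M) ^ 2 ≤ (∑ j ∈ range M, ‖w1 (z + a * j)‖ ^ 2) / M := by
      have h4 := sq_sum_le_card_mul_sum_sq (s := range M) (f := fun j => ‖w1 (z + a * j)‖)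
      rw [card_range] at h4
      rw [div_pow, div_le_div_iff₀ (by positivity) hM']
      calc (∑ j ∈ range M, ‖w1 (z + a * j)‖) ^ 2 * M ≤ (M * ∑ j ∈ range M, ‖w1 (z + a * j)‖ ^ 2) * M :=
            mul_le_mul_of_nonneg_right h4 hM'.le
        _ = (∑ j ∈ range M, ‖w1 (z + a * j)‖ ^ 2) * M ^ 2 := by ring
    have h5 : ‖(∑ j ∈ range M, g (z + a * j) * ee (ψ * j)) / M‖ ^ 2 ≤
        ((∑ j ∈ range M, ‖w1 (z + a * j)‖) / M + e) ^ 2 :=
      pow_le_pow_left₀ (norm_nonneg _) h1 2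
    nlinarith [sq_nonneg ((∑ j ∈ range M, ‖w1 (z + a * j)‖) / M - e)]
  have hcard : ((Ico (-(2 * X : ℤ)) (2 * X)).card : ℝ) = 4 * X := by
    rw [Int.card_Ico]
    have : ((2 * X : ℤ) - -(2 * X : ℤ)).toNat = 4 * X := by omega
    rw [this]
    push_cast
    ring
  have hswap : ∑ z ∈ Ico (-(2 * X : ℤ)) (2 * X), ∑ j ∈ range M, ‖w1 (z + a * j)‖ ^ 2 ≤
      M * TQ X M1 (a * q) 0 g := by
    rw [Finset.sum_comm]
    refine (Finset.sum_le_sum (g := fun _ => TQ X M1 (a * q) 0 g) fun j _ => ?_).trans ?_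
    · exact mq2_shiftsum (fun y => ‖w1 y‖ ^ 2) (fun y => by positivity) _ _ (a * j) hsup
    · rw [Finset.sum_const, card_range, nsmul_eq_mul]
  calc TQ X M a ψ g ≤ ∑ z ∈ Ico (-(2 * X : ℤ)) (2 * X),
        (2 * ((∑ j ∈ range M, ‖w1 (z + a * j)‖ ^ 2) / M) + 2 * e ^ 2) :=
        Finset.sum_le_sum fun z _ => hpt z
    _ = 2 * ((∑ z ∈ Ico (-(2 * X : ℤ)) (2 * X), ∑ j ∈ range M, ‖w1 (z + a * j)‖ ^ 2) / M) +
          8 * X * e ^ 2 := by
        rw [Finset.sum_add_distrib, Finset.sum_const, nsmul_eq_mul, hcard, ← Finset.mul_sum,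
          ← Finset.sum_div]
        ring
    _ ≤ 2 * TQ X M1 (a * q) 0 g + 8 * X * e ^ 2 := by
        have h1 : (∑ z ∈ Ico (-(2 * X : ℤ)) (2 * X), ∑ j ∈ range M, ‖w1 (z + a * j)‖ ^ 2) / M ≤
            TQ X M1 (a * q) 0 g := by
          rw [div_le_iff₀ hM']
          exact hswap.trans (le_of_eq (mul_comm _ _))
        linarith

theorem mq2_fw_nonneg (m : ℕ) (t : ℤ) : 0 ≤ fw m t := le_max_left _ _

theorem mq2_abs_sum (m : ℕ) : ∑ t ∈ Ioo (-(m : ℤ)) m, ((m : ℝ) - |(t : ℝ)|) = (m : ℝ) ^ 2 := by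
  induction m with
  | zero => simp
  | succ m ih =>
    have h1 : ∑ t ∈ Ioo (-((m + 1 : ℕ) : ℤ)) ((m + 1 : ℕ) : ℤ), ((m : ℝ) - |(t : ℝ)|) = (m : ℝ) ^ 2 := by
      rw [← ih]
      symm
      refine Finset.sum_subset ?_ ?_
      · intro t ht
        rw [mem_Ioo] at ht ⊢
        push_cast
        omega
      · intro t ht ht'
        rw [mem_Ioo] at ht ht'
        push_cast at ht
        have h2 : t = m ∨ t = -m := by omega
        rcases h2 with rfl | rfl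
        · simp
        · simp
    have h2 : ∑ t ∈ Ioo (-((m + 1 : ℕ) : ℤ)) ((m + 1 : ℕ) : ℤ), (((m + 1 : ℕ) : ℝ) - |(t : ℝ)|) =
        ∑ t ∈ Ioo (-((m + 1 : ℕ) : ℤ)) ((m + 1 : ℕ) : ℤ), ((m : ℝ) - |(t : ℝ)|) +
          ∑ _t ∈ Ioo (-((m + 1 : ℕ) : ℤ)) ((m + 1 : ℕ) : ℤ), (1 : ℝ) := by
      rw [← Finset.sum_add_distrib]
      refine Finset.sum_congr rfl fun t _ => ?_
      push_cast
      ring
    rw [h2, h1, Finset.sum_const, Int.card_Ioo, nsmul_eq_mul, mul_one]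
    have h3 : (((m + 1 : ℕ) : ℤ) - -((m + 1 : ℕ) : ℤ) - 1).toNat = 2 * m + 1 := by
      push_cast
      omega
    rw [h3]
    push_cast
    ring

theorem mq2_fw_sum (m : ℕ) (hm : 1 ≤ m) : ∑ t ∈ Ioo (-(m : ℤ)) m, fw m t = m := by
  have hm' : (0 : ℝ) < m := by exact_mod_cast hm
  have h1 : ∀ t ∈ Ioo (-(m : ℤ)) m, fw m t = ((m : ℝ) - |(t : ℝ)|) / m := by
    intro t ht
    rw [mem_Ioo] at ht
    have h2 : |(t : ℝ)| ≤ m := by
      rw [abs_le]
      constructor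
      · exact_mod_cast ht.1.le
      · exact_mod_cast ht.2.le
    unfold fw
    rw [max_eq_right (by rw [sub_nonneg, div_le_one hm']; exact h2)]
    field_simp
  rw [Finset.sum_congr rfl h1, ← Finset.sum_div, mq2_abs_sum]
  field_simp

theorem mq2_cons_re (X : ℕ) (p : ℕ × ℤ) (l : List (ℕ × ℤ)) (f : ℤ → ℂ) :
    (MQ X (p :: l) f).re =
      (∑ t ∈ Ioo (-(p.1 : ℤ)) p.1, fw p.1 t * (MQ X l (DD (p.2 * t) f)).re) / p.1 := by
  show ((∑ t ∈ Ioo (-(p.1 : ℤ)) p.1, ((fw p.1 t : ℝ) : ℂ) * MQ X l (DD (p.2 * t) f)) / (p.1 : ℂ)).re = _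
  rw [Complex.div_natCast_re, Complex.re_sum]
  congr 1
  refine Finset.sum_congr rfl fun t _ => ?_
  rw [Complex.re_ofReal_mul]

theorem mq2_change_end (X M M1 q : ℕ) (hM : 1 ≤ M) (hM1 : 1 ≤ M1) (hq : 1 ≤ q) (d : ℤ) (hd : 0 ≤ d)
    (hdM : d * M ≤ X) (hdM1 : d * (q * M1) ≤ X) (l : List (ℕ × ℤ)) (hp : ∀ p ∈ l, 1 ≤ p.1) :
    ∀ f : ℤ → ℂ, Bdd X f → (MQ X (l ++ [(M, d)]) f).re ≤
      2 * (MQ X (l ++ [(M1, d * q)]) f).re + 32 * X * (q * M1 / M : ℝ) ^ 2 := by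
  induction l with
  | nil =>
    intro f hf
    have h1 : (d * q) * (M1 : ℤ) ≤ X := by
      rw [mul_assoc]
      exact hdM1
    rw [List.nil_append, List.nil_append, MQ_one X M hM d hd hdM f hf.sup,
      MQ_one X M1 hM1 (d * q) (by positivity) h1 f hf.sup, Complex.ofReal_re, Complex.ofReal_re]
    have h2 := TQ_block X M M1 q hM hM1 hq d hd hdM1 0 f hf
    have h3 : nd (q * (0 : ℝ)) = 0 := by
      rw [mul_zero]
      refine le_antisymm ?_ (Pool.Agent.Lib.H84V.nd_nonneg _)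
      refine (Pool.Agent.Lib.H84V.nd_le_abs 0).trans ?_
      rw [abs_zero]
    rw [h3, mul_zero, add_zero] at h2
    refine h2.trans (le_of_eq ?_)
    ring
  | cons p l ih =>
    intro f hf
    have hp1 : 1 ≤ p.1 := hp p (List.mem_cons_self)
    have hp' : (0 : ℝ) < p.1 := by exact_mod_cast hp1
    have hih := ih (fun p' h' => hp p' (List.mem_cons_of_mem _ h'))
    rw [List.cons_append, List.cons_append, mq2_cons_re, mq2_cons_re]
    set E : ℝ := 32 * X * (q * M1 / M : ℝ) ^ 2 with hE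
    calc (∑ t ∈ Ioo (-(p.1 : ℤ)) p.1, fw p.1 t * (MQ X (l ++ [(M, d)]) (DD (p.2 * t) f)).re) / p.1 ≤
          (∑ t ∈ Ioo (-(p.1 : ℤ)) p.1,
            (2 * (fw p.1 t * (MQ X (l ++ [(M1, d * q)]) (DD (p.2 * t) f)).re) + fw p.1 t * E)) / p.1 := by
          refine div_le_div_of_nonneg_right (Finset.sum_le_sum fun t _ => ?_) hp'.le
          have h1 := mul_le_mul_of_nonneg_left (hih _ (Bdd_DD hf (p.2 * t))) (mq2_fw_nonneg p.1 t)
          refine h1.trans (le_of_eq ?_)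
          ring
      _ = 2 * ((∑ t ∈ Ioo (-(p.1 : ℤ)) p.1,
            fw p.1 t * (MQ X (l ++ [(M1, d * q)]) (DD (p.2 * t) f)).re) / p.1) + E := by
          rw [Finset.sum_add_distrib, ← Finset.mul_sum, ← Finset.sum_mul, mq2_fw_sum p.1 hp1]
          field_simp

/-- Change of one progression. Proof: move the entry to the end (`MQ_perm`), then `TQ_block` with `ψ = 0` (`MQ_one`) for every value of the other
differences, weights `fw ≥ 0` with `∑_{|t|<m} fw m t = m`. -/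
theorem MQ_change (X M M1 q : ℕ) (hM : 1 ≤ M) (hM1 : 1 ≤ M1) (hq : 1 ≤ q) (d : ℤ) (hd : 0 ≤ d) (hdM : d * M ≤ X)
    (hdM1 : d * (q * M1) ≤ X) (l : List (ℕ × ℤ)) (hp : ∀ p ∈ l, 1 ≤ p.1) (f : ℤ → ℂ) (hf : Bdd X f) :
    (MQ X ((M, d) :: l) f).re ≤ 2 * (MQ X ((M1, d * q) :: l) f).re + 32 * X * (q * M1 / M : ℝ) ^ 2 := by
  have h1 : ∀ p : ℕ × ℤ, (p :: l).Perm (l ++ [p]) := fun p => (List.perm_append_singleton p l).symm
  rw [MQ_perm X (h1 (M, d)) f, MQ_perm X (h1 (M1, d * q)) f]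
  exact mq2_change_end X M M1 q hM hM1 hq d hd hdM hdM1 l hp f hf

theorem mq2_rep (X n M : ℕ) (a : ℤ) (l : List (ℕ × ℤ)) : ∀ f : ℤ → ℂ,
    MQ X (List.replicate n (M, a) ++ l) f =
      (∑ t ∈ bxS n M, ((FW M t : ℝ) : ℂ) * MQ X l (DV (fun i => a * t i) f)) / (M : ℂ) ^ n := by
  induction n with
  | zero =>
    intro f
    simp [bxS, FW, DV, DL]
  | succ n ih =>
    intro f
    rw [List.replicate_succ, List.cons_append]
    show (∑ t ∈ Ioo (-(M : ℤ)) M, ((fw M t : ℝ) : ℂ) * MQ X (List.replicate n (M, a) ++ l) (DD (a * t) f)) /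
      (M : ℂ) = _
    rw [bxS_sum, pow_succ, ← div_div, Finset.sum_div (s := Ioo (-(M : ℤ)) M) (a := (M : ℂ) ^ n)]
    congr 1
    refine Finset.sum_congr rfl fun k _ => ?_
    rw [ih, mul_div_assoc', Finset.mul_sum]
    congr 1
    refine Finset.sum_congr rfl fun h _ => ?_
    have e1 : FW M (Fin.cons k h : Fin (n + 1) → ℤ) = fw M k * FW M h := by
      unfold FW
      rw [Fin.prod_univ_succ, Fin.cons_zero]
      congr 1
    have e2 : DV (fun i => a * (Fin.cons k h : Fin (n + 1) → ℤ) i) f = DV (fun i => a * h i) (DD (a * k) f) := by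
      unfold DV
      rw [List.ofFn_succ]
      rfl
    rw [e1, e2]
    push_cast
    ring

theorem mq2_many (X M M1 q : ℕ) (hM : 1 ≤ M) (hM1 : 1 ≤ M1) (hq : 1 ≤ q) (d : ℤ) (hd : 0 ≤ d)
    (hdM : d * M ≤ X) (hdM1 : d * (q * M1) ≤ X) (f : ℤ → ℂ) (hf : Bdd X f) (n : ℕ) : ∀ m : ℕ,
    (MQ X (List.replicate n (M, d) ++ List.replicate m (M1, d * q)) f).re ≤
      2 ^ n * (MQ X (List.replicate (n + m) (M1, d * q)) f).re +
        (2 ^ n - 1) * (32 * X * (q * M1 / M : ℝ) ^ 2) := by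
  induction n with
  | zero =>
    intro m
    simp
  | succ n ih =>
    intro m
    have h1 := MQ_change X M M1 q hM hM1 hq d hd hdM hdM1
      (List.replicate n (M, d) ++ List.replicate m (M1, d * q)) (by
        intro p hp
        rcases List.mem_append.1 hp with h | h
        · rw [(List.mem_replicate.1 h).2]
          exact hM
        · rw [(List.mem_replicate.1 h).2]
          exact hM1) f hf
    have h2 : ((M1, d * q) :: (List.replicate n (M, d) ++ List.replicate m (M1, d * q))).Perm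
        (List.replicate n (M, d) ++ List.replicate (m + 1) (M1, d * q)) := by
      rw [List.replicate_succ (n := m)]
      exact (List.perm_middle).symm
    rw [MQ_perm X h2 f] at h1
    have h3 := ih (m + 1)
    have h4 : n + (m + 1) = n + 1 + m := by ring
    rw [h4] at h3
    rw [List.replicate_succ, List.cons_append]
    rw [pow_succ]
    nlinarith

/-- The other progressions: `n` coordinates `t ∈ (-M, M)^n` with direction `a` become coordinates with direction `a q` and length `M1`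
(`MQ_change` `n` times, `MQ_perm`, `MQ_NU`; the left side is `(MQ X (replicate n (M, a) ++ [(M1, a q)]) f).re`). -/
theorem A10_coord (n X M M1 q a : ℕ) (hM : 1 ≤ M) (hM1 : 1 ≤ M1) (hq : 1 ≤ q) (haM : a * M ≤ X) (haM1 : a * (q * M1) ≤ X)
    (f : ℤ → ℂ) (hf : Bdd X f) :
    (∑ t ∈ bxS n M, FW M t * TQ X M1 (a * q) 0 (DV (fun i => (a : ℤ) * t i) f)) / (M : ℝ) ^ n ≤
      2 ^ n * (NU X (n + 1) M1 (a * q) f + 32 * X * (q * M1 / M : ℝ) ^ 2) := by
  have hM' : (0 : ℝ) < M := by exact_mod_cast hM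
  have ha : (0 : ℤ) ≤ a := by positivity
  have h1 : (a : ℤ) * M ≤ X := by exact_mod_cast haM
  have h2 : (a : ℤ) * (q * M1) ≤ X := by exact_mod_cast haM1
  have h2' : (a : ℤ) * q * M1 ≤ X := by
    rw [mul_assoc]
    exact h2
  have h3 := mq2_many X M M1 q hM hM1 hq a ha h1 h2 f hf n 1
  have h4 : (MQ X (List.replicate n (M, (a : ℤ)) ++ List.replicate 1 (M1, (a : ℤ) * q)) f).re =
      (∑ t ∈ bxS n M, FW M t * TQ X M1 (a * q) 0 (DV (fun i => (a : ℤ) * t i) f)) / (M : ℝ) ^ n := by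
    rw [mq2_rep]
    have h5 : ∀ t ∈ bxS n M, ((FW M t : ℝ) : ℂ) *
        MQ X (List.replicate 1 (M1, (a : ℤ) * q)) (DV (fun i => (a : ℤ) * t i) f) =
        ((FW M t * TQ X M1 (a * q) 0 (DV (fun i => (a : ℤ) * t i) f) : ℝ) : ℂ) := by
      intro t _
      rw [List.replicate_one, MQ_one X M1 hM1 ((a : ℤ) * q) (by positivity) h2' _
        (Bdd_DV hf _).sup]
      push_cast
      rfl
    rw [Finset.sum_congr rfl h5]
    have h6 : (∑ t ∈ bxS n M, ((FW M t * TQ X M1 (a * q) 0 (DV (fun i => (a : ℤ) * t i) f) : ℝ) : ℂ)) /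
        (M : ℂ) ^ n =
        (((∑ t ∈ bxS n M, FW M t * TQ X M1 (a * q) 0 (DV (fun i => (a : ℤ) * t i) f)) / (M : ℝ) ^ n : ℝ) : ℂ) := by
      push_cast
      rfl
    rw [h6, Complex.ofReal_re]
  rw [← h4]
  refine h3.trans ?_
  rw [MQ_NU X (n + 1) M1 hM1 ((a : ℤ) * q) f]
  have h7 : 0 ≤ 32 * X * (q * M1 / M : ℝ) ^ 2 := by positivity
  nlinarith

end Pool.Agent.HUK
end

-- from Lib.HUK.LLD
section

/-!
# Project HUK, definitions for the chunks LL1 .. LL9 (pair trick, `PROOF.md` 2.7, by recursion over the coordinates)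
-/

open Finset

namespace Pool.Agent.HUK

noncomputable section

/-- Product over the vertices `ω` of `U ω` at `y + β (ω · t)`. -/
def PV {s : ℕ} (β : ℤ) (U : (Fin s → Bool) → ℤ → ℂ) (t : Fin s → ℤ) (y : ℤ) : ℂ :=
  ∏ ω : Fin s → Bool, U ω (y + β * vt ω t)

/-- Average over two boxes with the directions `β`, `β'`. The product of the vertices `0` is supported in `[-X, X)`. -/
def TT (X M : ℕ) {s : ℕ} (β β' : ℤ) (U U' : (Fin s → Bool) → ℤ → ℂ) : ℂ :=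
  (∑ t ∈ bxS s M, ∑ t' ∈ bxS s M, ((FW M t * FW M t' : ℝ) : ℂ) *
    ∑ y ∈ Ico (-(X : ℤ)) X, PV β U t y * PV β' U' t' y) / (M : ℂ) ^ (2 * s)

/-- The vertex `(0, .., 0)`. -/
def zv (s : ℕ) : Fin s → Bool := fun _ => false

/-- The vertices `(0, ω)` and `(1, ω)` of the cube without the vertex `(0, 0)`, first coordinate `z`. -/
def Uf {s : ℕ} (f : ℤ → ℂ) (z : ℤ) (ω : Fin s → Bool) (y : ℤ) : ℂ :=
  (if ω = zv s then 1 else cj (sg ω) (f y)) * cj (sg ω + 1) (f (y + z))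

/-- The dual function: `NU X (s + 1) M β f = (∑_y f(y) Db(y)).re`. -/
def Db (s M : ℕ) (β : ℤ) (f : ℤ → ℂ) (y : ℤ) : ℂ :=
  (∑ t0 ∈ Ioo (-(M : ℤ)) M, ((fw M t0 : ℝ) : ℂ) * ∑ t ∈ bxS s M, ((FW M t : ℝ) : ℂ) * PV β (Uf (s := s) f (β * t0)) t y) /
    (M : ℂ) ^ (s + 1)

/-- Conjugate of a family. -/
def cU {s : ℕ} (U : (Fin s → Bool) → ℤ → ℂ) : (Fin s → Bool) → ℤ → ℂ := fun ω y => (starRingEnd ℂ) (U ω y)

/-- The correlation of the dual functions for the directions `β` and `β'`. -/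
def SPd (X s M : ℕ) (β β' : ℤ) (f : ℤ → ℂ) : ℝ :=
  ((∑ t ∈ Ioo (-(M : ℤ)) M, ∑ t' ∈ Ioo (-(M : ℤ)) M, ((fw M t * fw M t' : ℝ) : ℂ) *
    TT (2 * X) M β β' (Uf (s := s) f (β * t)) (cU (Uf (s := s) f (β' * t')))) / (M : ℂ) ^ 2).re

end

end Pool.Agent.HUK
end

-- from Lib.HUK.LL1
section

/-!
# Project HUK, chunk LL1 (M): averages over progressions are almost invariant; one Cauchy-Schwarz step
-/

open Finset

namespace Pool.Agent.HUK

theorem ll1_shiftN (C : ℝ) (G : ℤ → ℂ) (hG : ∀ t, ‖G t‖ ≤ C) (M m : ℕ) :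
    ‖∑ j ∈ range M, G ((j : ℤ) + m) - ∑ j ∈ range M, G (j : ℤ)‖ ≤ 2 * m * C := by
  induction m with
  | zero => simp
  | succ m ih =>
    have h1 : ∑ j ∈ range M, G ((j : ℤ) + ((m + 1 : ℕ) : ℤ)) - ∑ j ∈ range M, G ((j : ℤ) + m) =
        G ((M : ℤ) + m) - G (m : ℤ) := by
      rw [← Finset.sum_sub_distrib]
      have h2 := Finset.sum_range_sub (fun j : ℕ => G ((j : ℤ) + m)) M
      have e0 : ((0 : ℕ) : ℤ) + m = m := by push_cast; ring
      rw [e0] at h2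
      rw [← h2]
      refine Finset.sum_congr rfl fun j _ => ?_
      congr 2
      push_cast
      ring
    calc ‖∑ j ∈ range M, G ((j : ℤ) + ((m + 1 : ℕ) : ℤ)) - ∑ j ∈ range M, G (j : ℤ)‖ =
          ‖(G ((M : ℤ) + m) - G (m : ℤ)) + (∑ j ∈ range M, G ((j : ℤ) + m) - ∑ j ∈ range M, G (j : ℤ))‖ := by
          rw [← h1]
          congr 1
          ring
      _ ≤ (C + C) + 2 * m * C :=
          (norm_add_le _ _).trans (add_le_add ((norm_sub_le _ _).trans (add_le_add (hG _) (hG _))) ih)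
      _ = 2 * ((m + 1 : ℕ) : ℝ) * C := by
          push_cast
          ring

theorem ll1_shift (C : ℝ) (G : ℤ → ℂ) (hG : ∀ t, ‖G t‖ ≤ C) (M : ℕ) (n : ℤ) :
    ‖∑ j ∈ range M, G ((j : ℤ) + n) - ∑ j ∈ range M, G (j : ℤ)‖ ≤ 2 * |(n : ℝ)| * C := by
  rcases le_total 0 n with h | h
  · obtain ⟨m, rfl⟩ := Int.eq_ofNat_of_zero_le h
    have h1 := ll1_shiftN C G hG M m
    simpa using h1
  · obtain ⟨m, hm⟩ := Int.eq_ofNat_of_zero_le (neg_nonneg.2 h)
    have hn : n = -(m : ℤ) := by omega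
    subst hn
    have h1 := ll1_shiftN C (fun t => G (t + -(m : ℤ))) (fun t => hG _) M m
    rw [norm_sub_rev]
    have e1 : ∑ j ∈ range M, G ((j : ℤ) + m + -(m : ℤ)) = ∑ j ∈ range M, G (j : ℤ) :=
      Finset.sum_congr rfl fun j _ => by rw [add_neg_cancel_right]
    have h2 : ‖∑ j ∈ range M, G ((j : ℤ) + m + -(m : ℤ)) - ∑ j ∈ range M, G ((j : ℤ) + -(m : ℤ))‖ ≤ 2 * m * C := h1
    rw [e1] at h2
    refine h2.trans (le_of_eq ?_)
    rw [Int.cast_neg, Int.cast_natCast, abs_neg, Nat.abs_cast]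

/-- Fejer averages are almost invariant. By `mq1_fw`, `mq1_pairs`: `M ∑_t fw(t) F(t) = ∑_{j<M} ∑_{i<M} F(i - j)`; for `n ≥ 0` the inner
sums for `F` and `F(· + n)` differ by at most `2 n C` (`mq2_shift`, applied to `F / C`, or repeat its proof); `n < 0`: put
`F' = F(· + n)`. (`C = 0`: both sides are `0`; or divide by `max C ..`.) -/
theorem LL1_fej (M : ℕ) (hM : 1 ≤ M) (C : ℝ) (F : ℤ → ℂ) (hF : ∀ t, ‖F t‖ ≤ C) (n : ℤ) :
    ‖(∑ t ∈ Ioo (-(M : ℤ)) M, ((fw M t : ℝ) : ℂ) * F (t + n)) / (M : ℂ) -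
      (∑ t ∈ Ioo (-(M : ℤ)) M, ((fw M t : ℝ) : ℂ) * F t) / (M : ℂ)‖ ≤ C * (2 * |(n : ℝ)| / M) := by
  have hM' : (0 : ℝ) < M := by exact_mod_cast hM
  have key : ∀ H : ℤ → ℂ, (M : ℂ) * ∑ t ∈ Ioo (-(M : ℤ)) M, ((fw M t : ℝ) : ℂ) * H t =
      ∑ j ∈ range M, ∑ i ∈ range M, H ((i : ℤ) - j) := by
    intro H
    rw [mq1_pairs M H, mul_sum]
    refine sum_congr rfl fun t ht => ?_
    rw [← mul_assoc, mq1_fw M hM ht]
  have h1 : (M : ℂ) * ((∑ t ∈ Ioo (-(M : ℤ)) M, ((fw M t : ℝ) : ℂ) * F (t + n)) -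
      ∑ t ∈ Ioo (-(M : ℤ)) M, ((fw M t : ℝ) : ℂ) * F t) =
      ∑ j ∈ range M, (∑ i ∈ range M, F (((i : ℤ) + n) - j) - ∑ i ∈ range M, F ((i : ℤ) - j)) := by
    rw [mul_sub, key (fun t => F (t + n)), key F, sum_sub_distrib]
    congr 1
    refine sum_congr rfl fun j _ => sum_congr rfl fun i _ => ?_
    show F ((i : ℤ) - j + n) = F (((i : ℤ) + n) - j)
    congr 1
    ring
  have h2 : (M : ℝ) * ‖(∑ t ∈ Ioo (-(M : ℤ)) M, ((fw M t : ℝ) : ℂ) * F (t + n)) -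
      ∑ t ∈ Ioo (-(M : ℤ)) M, ((fw M t : ℝ) : ℂ) * F t‖ ≤ M * (2 * |(n : ℝ)| * C) := by
    have h3 : (M : ℝ) * ‖(∑ t ∈ Ioo (-(M : ℤ)) M, ((fw M t : ℝ) : ℂ) * F (t + n)) -
      ∑ t ∈ Ioo (-(M : ℤ)) M, ((fw M t : ℝ) : ℂ) * F t‖ = ‖(M : ℂ) * ((∑ t ∈ Ioo (-(M : ℤ)) M, ((fw M t : ℝ) : ℂ) * F (t + n)) -
      ∑ t ∈ Ioo (-(M : ℤ)) M, ((fw M t : ℝ) : ℂ) * F t)‖ := by
      rw [norm_mul, Complex.norm_natCast]
    rw [h3, h1]
    refine (norm_sum_le _ _).trans ?_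
    refine (sum_le_sum (g := fun _ => 2 * |(n : ℝ)| * C) fun j _ => ?_).trans ?_
    · exact ll1_shift C (fun t => F (t - j)) (fun t => hF _) M n
    · rw [sum_const, card_range, nsmul_eq_mul]
  have h4 := le_of_mul_le_mul_left h2 hM'
  rw [← sub_div, norm_div, Complex.norm_natCast]
  calc _ ≤ (2 * |(n : ℝ)| * C) / M := div_le_div_of_nonneg_right h4 hM'.le
    _ = C * (2 * |(n : ℝ)| / M) := by ring

theorem ll1_avg (M : ℕ) (hM : 1 ≤ M) (C : ℝ) (G : ℤ → ℂ) (hG : ∀ t, ‖G t‖ ≤ C) :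
    ‖(∑ t ∈ Ioo (-(M : ℤ)) M, ((fw M t : ℝ) : ℂ) * G t) / (M : ℂ)‖ ≤ C := by
  have hM' : (0 : ℝ) < M := by exact_mod_cast hM
  rw [norm_div, Complex.norm_natCast, div_le_iff₀ hM']
  calc ‖∑ t ∈ Ioo (-(M : ℤ)) M, ((fw M t : ℝ) : ℂ) * G t‖ ≤ ∑ t ∈ Ioo (-(M : ℤ)) M, fw M t * C := by
        refine (norm_sum_le _ _).trans (sum_le_sum fun t _ => ?_)
        rw [norm_mul, Complex.norm_real, Real.norm_eq_abs, abs_of_nonneg (mq1_fw_nonneg M t)]
        exact mul_le_mul_of_nonneg_left (hG t) (mq1_fw_nonneg M t)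
    _ = C * M := by rw [← sum_mul, mq1_fw_sum M hM, mul_comm]

/-- Two variables (triangle inequality, `LL1_fej` for each variable, the other average has total weight `1`, `mq1_fw_sum`). -/
theorem LL1_fej2 (M : ℕ) (hM : 1 ≤ M) (C : ℝ) (F : ℤ → ℤ → ℂ) (hF : ∀ t t', ‖F t t'‖ ≤ C) (n n' : ℤ) :
    ‖(∑ t ∈ Ioo (-(M : ℤ)) M, ∑ t' ∈ Ioo (-(M : ℤ)) M, ((fw M t * fw M t' : ℝ) : ℂ) * F (t + n) (t' + n')) / (M : ℂ) ^ 2 -
      (∑ t ∈ Ioo (-(M : ℤ)) M, ∑ t' ∈ Ioo (-(M : ℤ)) M, ((fw M t * fw M t' : ℝ) : ℂ) * F t t') / (M : ℂ) ^ 2‖ ≤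
      C * (2 * (|(n : ℝ)| + |(n' : ℝ)|) / M) := by
  have hM' : (0 : ℝ) < M := by exact_mod_cast hM
  have hMc : (M : ℂ) ≠ 0 := by
    have : M ≠ 0 := by omega
    exact_mod_cast this
  have key : ∀ H : ℤ → ℤ → ℂ, (∑ t ∈ Ioo (-(M : ℤ)) M, ∑ t' ∈ Ioo (-(M : ℤ)) M, ((fw M t * fw M t' : ℝ) : ℂ) * H t t') / (M : ℂ) ^ 2 =
      (∑ t ∈ Ioo (-(M : ℤ)) M, ((fw M t : ℝ) : ℂ) * ((∑ t' ∈ Ioo (-(M : ℤ)) M, ((fw M t' : ℝ) : ℂ) * H t t') / (M : ℂ))) / (M : ℂ) := by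
    intro H
    rw [sum_div, sum_div]
    refine sum_congr rfl fun t _ => ?_
    rw [mul_div_assoc', div_div, ← sq, mul_sum]
    congr 1
    refine sum_congr rfl fun t' _ => ?_
    push_cast
    ring
  have key' : ∀ H : ℤ → ℤ → ℂ, (∑ t ∈ Ioo (-(M : ℤ)) M, ∑ t' ∈ Ioo (-(M : ℤ)) M, ((fw M t * fw M t' : ℝ) : ℂ) * H t t') / (M : ℂ) ^ 2 =
      (∑ t' ∈ Ioo (-(M : ℤ)) M, ((fw M t' : ℝ) : ℂ) * ((∑ t ∈ Ioo (-(M : ℤ)) M, ((fw M t : ℝ) : ℂ) * H t t') / (M : ℂ))) / (M : ℂ) := by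
    intro H
    rw [sum_comm, ← key (fun t' t => H t t')]
    congr 1
    refine sum_congr rfl fun t' _ => sum_congr rfl fun t _ => ?_
    rw [mul_comm (fw M t) (fw M t')]
  have h1 : ‖(∑ t ∈ Ioo (-(M : ℤ)) M, ∑ t' ∈ Ioo (-(M : ℤ)) M, ((fw M t * fw M t' : ℝ) : ℂ) * F (t + n) (t' + n')) / (M : ℂ) ^ 2 -
      (∑ t ∈ Ioo (-(M : ℤ)) M, ∑ t' ∈ Ioo (-(M : ℤ)) M, ((fw M t * fw M t' : ℝ) : ℂ) * F (t + n) t') / (M : ℂ) ^ 2‖ ≤
      C * (2 * |(n' : ℝ)| / M) := by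
    rw [key (fun t t' => F (t + n) (t' + n')), key (fun t t' => F (t + n) t'), ← sub_div, ← sum_sub_distrib]
    have e : ∀ t ∈ Ioo (-(M : ℤ)) M, ((fw M t : ℝ) : ℂ) * ((∑ t' ∈ Ioo (-(M : ℤ)) M, ((fw M t' : ℝ) : ℂ) * F (t + n) (t' + n')) / (M : ℂ)) -
        ((fw M t : ℝ) : ℂ) * ((∑ t' ∈ Ioo (-(M : ℤ)) M, ((fw M t' : ℝ) : ℂ) * F (t + n) t') / (M : ℂ)) =
        ((fw M t : ℝ) : ℂ) * ((∑ t' ∈ Ioo (-(M : ℤ)) M, ((fw M t' : ℝ) : ℂ) * F (t + n) (t' + n')) / (M : ℂ) -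
          (∑ t' ∈ Ioo (-(M : ℤ)) M, ((fw M t' : ℝ) : ℂ) * F (t + n) t') / (M : ℂ)) := fun t _ => by ring
    rw [sum_congr rfl e]
    exact ll1_avg M hM _ (fun t => (∑ t' ∈ Ioo (-(M : ℤ)) M, ((fw M t' : ℝ) : ℂ) * F (t + n) (t' + n')) / (M : ℂ) -
          (∑ t' ∈ Ioo (-(M : ℤ)) M, ((fw M t' : ℝ) : ℂ) * F (t + n) t') / (M : ℂ))
      (fun t => LL1_fej M hM C (F (t + n)) (fun t' => hF _ _) n')
  have h2 : ‖(∑ t ∈ Ioo (-(M : ℤ)) M, ∑ t' ∈ Ioo (-(M : ℤ)) M, ((fw M t * fw M t' : ℝ) : ℂ) * F (t + n) t') / (M : ℂ) ^ 2 -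
      (∑ t ∈ Ioo (-(M : ℤ)) M, ∑ t' ∈ Ioo (-(M : ℤ)) M, ((fw M t * fw M t' : ℝ) : ℂ) * F t t') / (M : ℂ) ^ 2‖ ≤
      C * (2 * |(n : ℝ)| / M) := by
    rw [key' (fun t t' => F (t + n) t'), key' F, ← sub_div, ← sum_sub_distrib]
    have e : ∀ t' ∈ Ioo (-(M : ℤ)) M, ((fw M t' : ℝ) : ℂ) * ((∑ t ∈ Ioo (-(M : ℤ)) M, ((fw M t : ℝ) : ℂ) * F (t + n) t') / (M : ℂ)) -
        ((fw M t' : ℝ) : ℂ) * ((∑ t ∈ Ioo (-(M : ℤ)) M, ((fw M t : ℝ) : ℂ) * F t t') / (M : ℂ)) =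
        ((fw M t' : ℝ) : ℂ) * ((∑ t ∈ Ioo (-(M : ℤ)) M, ((fw M t : ℝ) : ℂ) * F (t + n) t') / (M : ℂ) -
          (∑ t ∈ Ioo (-(M : ℤ)) M, ((fw M t : ℝ) : ℂ) * F t t') / (M : ℂ)) := fun t' _ => by ring
    rw [sum_congr rfl e]
    exact ll1_avg M hM _ (fun t' => (∑ t ∈ Ioo (-(M : ℤ)) M, ((fw M t : ℝ) : ℂ) * F (t + n) t') / (M : ℂ) -
          (∑ t ∈ Ioo (-(M : ℤ)) M, ((fw M t : ℝ) : ℂ) * F t t') / (M : ℂ))
      (fun t' => LL1_fej M hM C (fun t => F t t') (fun t => hF _ _) n)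
  refine (norm_sub_le_norm_sub_add_norm_sub _ _ _).trans ((add_le_add h1 h2).trans (le_of_eq ?_))
  ring

/-- **One step.** `a` supported in `[-X, X)`; `c(y) = B̃(y) B̃'(y)`, `B̃(y) = (∑_t fw(t) B(y + b q t)) / M` etc., bounded by `1`.
With `d = b b' q`, `k < H`: `c(y + d k)` is `c(y)` up to `e = 2 (b + b') H / M` (`LL1_fej` with `n = b' k` and `n = b k`). As
`a` is supported in `[-X, X)` and `d k ≤ X`: `S = ∑_{y ∈ [-2X, 2X)} a(y + d k) c(y + d k)`, so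
`‖S - ∑_{y ∈ [-2X, 2X)} (avg_{k<H} a(y + d k)) c(y)‖ ≤ 2X e`, and Cauchy-Schwarz: `‖∑ ..‖² ≤ 4X TQ X H d 0 a` (`TQ` has the range
`[-2X, 2X)`; `ee (0 * j) = 1`). -/
theorem LL1_step (X M H b b' q : ℕ) (hM : 1 ≤ M) (hH : 1 ≤ H) (hd : b * b' * q * H ≤ X) (a B B' : ℤ → ℂ) (ha : Bdd X a)
    (hB : ∀ y, ‖B y‖ ≤ 1) (hB' : ∀ y, ‖B' y‖ ≤ 1) :
    ‖∑ y ∈ Ico (-(X : ℤ)) X, a y * ((∑ t ∈ Ioo (-(M : ℤ)) M, ((fw M t : ℝ) : ℂ) * B (y + b * q * t)) / (M : ℂ)) *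
      ((∑ t ∈ Ioo (-(M : ℤ)) M, ((fw M t : ℝ) : ℂ) * B' (y + b' * q * t)) / (M : ℂ))‖ ^ 2 ≤
      8 * X * TQ X H (b * b' * q) 0 a + 8 * (X : ℝ) ^ 2 * (2 * (b + b') * H / M) ^ 2 := by
  have hM' : (0 : ℝ) < M := by exact_mod_cast hM
  have hH' : (0 : ℝ) < H := by exact_mod_cast hH
  have hHc : (H : ℂ) ≠ 0 := by
    have : H ≠ 0 := by omega
    exact_mod_cast this
  set Bt : ℤ → ℂ := fun y => (∑ t ∈ Ioo (-(M : ℤ)) M, ((fw M t : ℝ) : ℂ) * B (y + b * q * t)) / (M : ℂ) with hBt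
  set Bt' : ℤ → ℂ := fun y => (∑ t ∈ Ioo (-(M : ℤ)) M, ((fw M t : ℝ) : ℂ) * B' (y + b' * q * t)) / (M : ℂ) with hBt'
  set c : ℤ → ℂ := fun y => Bt y * Bt' y with hc
  set d : ℤ := (b : ℤ) * b' * q with hdd
  set e : ℝ := 2 * (b + b') * H / M with he
  have hS : ∑ y ∈ Ico (-(X : ℤ)) X, a y * ((∑ t ∈ Ioo (-(M : ℤ)) M, ((fw M t : ℝ) : ℂ) * B (y + b * q * t)) / (M : ℂ)) *
      ((∑ t ∈ Ioo (-(M : ℤ)) M, ((fw M t : ℝ) : ℂ) * B' (y + b' * q * t)) / (M : ℂ)) =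
      ∑ y ∈ Ico (-(X : ℤ)) X, a y * c y := sum_congr rfl fun y _ => by
    show a y * Bt y * Bt' y = a y * (Bt y * Bt' y)
    ring
  have hBt1 : ∀ y, ‖Bt y‖ ≤ 1 := fun y => ll1_avg M hM 1 (fun t => B (y + b * q * t)) (fun t => hB _)
  have hBt1' : ∀ y, ‖Bt' y‖ ≤ 1 := fun y => ll1_avg M hM 1 (fun t => B' (y + b' * q * t)) (fun t => hB' _)
  have hc1 : ∀ y, ‖c y‖ ≤ 1 := fun y => by
    show ‖Bt y * Bt' y‖ ≤ 1
    rw [norm_mul]
    exact mul_le_one₀ (hBt1 y) (norm_nonneg _) (hBt1' y)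
  have hsh : ∀ (k : ℕ), k < H → ∀ y, ‖c (y + d * k) - c y‖ ≤ e := by
    intro k hk y
    have hk' : (k : ℝ) ≤ H := by exact_mod_cast hk.le
    have h1 : ‖Bt (y + d * k) - Bt y‖ ≤ 2 * b' * H / M := by
      have h2 := LL1_fej M hM 1 (fun t => B (y + b * q * t)) (fun t => hB _) (b' * k : ℤ)
      have h3 : (∑ t ∈ Ioo (-(M : ℤ)) M, ((fw M t : ℝ) : ℂ) * B (y + b * q * (t + (b' * k : ℤ)))) / (M : ℂ) = Bt (y + d * k) := by
        show _ = (∑ t ∈ Ioo (-(M : ℤ)) M, ((fw M t : ℝ) : ℂ) * B (y + d * k + b * q * t)) / (M : ℂ)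
        congr 1
        refine sum_congr rfl fun t _ => ?_
        rw [hdd]
        congr 2
        ring
      have h4 : ‖Bt (y + d * k) - Bt y‖ ≤ 1 * (2 * |((b' * k : ℤ) : ℝ)| / M) := by
        rw [← h3]; exact h2
      refine h4.trans ?_
      rw [one_mul]
      refine div_le_div_of_nonneg_right ?_ hM'.le
      have h5 : |((b' * k : ℤ) : ℝ)| = (b' : ℝ) * k := by
        push_cast
        exact abs_of_nonneg (by positivity)
      rw [h5]
      have h6 : (b' : ℝ) * k ≤ b' * H := mul_le_mul_of_nonneg_left hk' (by positivity)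
      linarith
    have h1' : ‖Bt' (y + d * k) - Bt' y‖ ≤ 2 * b * H / M := by
      have h2 := LL1_fej M hM 1 (fun t => B' (y + b' * q * t)) (fun t => hB' _) (b * k : ℤ)
      have h3 : (∑ t ∈ Ioo (-(M : ℤ)) M, ((fw M t : ℝ) : ℂ) * B' (y + b' * q * (t + (b * k : ℤ)))) / (M : ℂ) = Bt' (y + d * k) := by
        show _ = (∑ t ∈ Ioo (-(M : ℤ)) M, ((fw M t : ℝ) : ℂ) * B' (y + d * k + b' * q * t)) / (M : ℂ)
        congr 1
        refine sum_congr rfl fun t _ => ?_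
        rw [hdd]
        congr 2
        ring
      have h4 : ‖Bt' (y + d * k) - Bt' y‖ ≤ 1 * (2 * |((b * k : ℤ) : ℝ)| / M) := by
        rw [← h3]; exact h2
      refine h4.trans ?_
      rw [one_mul]
      refine div_le_div_of_nonneg_right ?_ hM'.le
      have h5 : |((b * k : ℤ) : ℝ)| = (b : ℝ) * k := by
        push_cast
        exact abs_of_nonneg (by positivity)
      rw [h5]
      have h6 : (b : ℝ) * k ≤ b * H := mul_le_mul_of_nonneg_left hk' (by positivity)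
      linarith
    have h7 : c (y + d * k) - c y = (Bt (y + d * k) - Bt y) * Bt' (y + d * k) + Bt y * (Bt' (y + d * k) - Bt' y) := by
      show Bt (y + d * k) * Bt' (y + d * k) - Bt y * Bt' y = _
      ring
    rw [h7]
    refine (norm_add_le _ _).trans ?_
    rw [norm_mul, norm_mul]
    calc ‖Bt (y + d * k) - Bt y‖ * ‖Bt' (y + d * k)‖ + ‖Bt y‖ * ‖Bt' (y + d * k) - Bt' y‖ ≤
          (2 * b' * H / M) * 1 + 1 * (2 * b * H / M) :=
          add_le_add (mul_le_mul h1 (hBt1' _) (norm_nonneg _) (by positivity))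
            (mul_le_mul (hBt1 _) h1' (norm_nonneg _) zero_le_one)
      _ = e := by rw [he]; ring
  have hdH : d * H ≤ X := by
    rw [hdd]; exact_mod_cast hd
  have hd0 : 0 ≤ d := by rw [hdd]; positivity
  have hdk : ∀ k : ℕ, k < H → d * k ≤ X := fun k hk =>
    (mul_le_mul_of_nonneg_left (by exact_mod_cast hk.le : (k : ℤ) ≤ H) hd0).trans hdH
  have hdk0 : ∀ k : ℕ, 0 ≤ d * k := fun k => by positivity
  -- shift of the window
  have hwin : ∀ (k : ℕ), k < H → ∀ G : ℤ → ℂ, (∀ y, y ∉ Ico (-(X : ℤ)) X → G y = 0) →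
      ∑ z ∈ Ico (-(2 * X : ℤ)) (2 * X), G (z + d * k) = ∑ y ∈ Ico (-(X : ℤ)) X, G y := by
    intro k hk G hG
    rw [Finset.sum_Ico_add' G (-(2 * X : ℤ)) (2 * X) (d * k)]
    symm
    refine sum_subset ?_ ?_
    · intro y hy
      rw [mem_Ico] at hy ⊢
      have h1 := hdk k hk
      have h2 := hdk0 k
      constructor <;> omega
    · intro y _ hy
      exact hG y hy
  have hwinR : ∀ (k : ℕ), k < H → ∀ G : ℤ → ℝ, (∀ y, y ∉ Ico (-(X : ℤ)) X → G y = 0) →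
      ∑ z ∈ Ico (-(2 * X : ℤ)) (2 * X), G (z + d * k) = ∑ y ∈ Ico (-(X : ℤ)) X, G y := by
    intro k hk G hG
    rw [Finset.sum_Ico_add' G (-(2 * X : ℤ)) (2 * X) (d * k)]
    symm
    refine sum_subset ?_ ?_
    · intro y hy
      rw [mem_Ico] at hy ⊢
      have h1 := hdk k hk
      have h2 := hdk0 k
      constructor <;> omega
    · intro y _ hy
      exact hG y hy
  set S : ℂ := ∑ y ∈ Ico (-(X : ℤ)) X, a y * c y with hSdef
  set A : ℤ → ℂ := fun z => (∑ j ∈ range H, a (z + d * j) * Pool.Agent.H44W.ee (0 * j)) / H with hA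
  set T : ℂ := ∑ z ∈ Ico (-(2 * X : ℤ)) (2 * X), A z * c z with hT
  have hTeq : (H : ℂ) * T = ∑ k ∈ range H, ∑ z ∈ Ico (-(2 * X : ℤ)) (2 * X), a (z + d * k) * c z := by
    rw [hT, sum_comm, mul_sum]
    refine sum_congr rfl fun z _ => ?_
    show (H : ℂ) * ((∑ j ∈ range H, a (z + d * j) * Pool.Agent.H44W.ee (0 * j)) / H * c z) = _
    rw [← mul_assoc, mul_div_cancel₀ _ hHc, sum_mul]
    refine sum_congr rfl fun k _ => ?_
    rw [zero_mul, Pool.Agent.H44W.ee_zero, mul_one]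
  have hdiff : ‖S - T‖ ≤ 2 * X * e := by
    have h1 : (H : ℂ) * (S - T) = ∑ k ∈ range H, ∑ z ∈ Ico (-(2 * X : ℤ)) (2 * X), a (z + d * k) * (c (z + d * k) - c z) := by
      have h2 : (H : ℂ) * S = ∑ k ∈ range H, ∑ z ∈ Ico (-(2 * X : ℤ)) (2 * X), a (z + d * k) * c (z + d * k) := by
        have h3 : ∀ k ∈ range H, ∑ z ∈ Ico (-(2 * X : ℤ)) (2 * X), a (z + d * k) * c (z + d * k) = S := fun k hk =>
          hwin k (mem_range.1 hk) (fun y => a y * c y) (fun y hy => by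
            show a y * c y = 0
            rw [ha.sup y hy, zero_mul])
        rw [sum_congr rfl h3, sum_const, card_range, nsmul_eq_mul]
      rw [mul_sub, h2, hTeq, ← sum_sub_distrib]
      refine sum_congr rfl fun k _ => ?_
      rw [← sum_sub_distrib]
      refine sum_congr rfl fun z _ => ?_
      ring
    have h2 : (H : ℝ) * ‖S - T‖ ≤ H * (2 * X * e) := by
      have h3 : (H : ℝ) * ‖S - T‖ = ‖(H : ℂ) * (S - T)‖ := by rw [norm_mul, Complex.norm_natCast]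
      rw [h3, h1]
      refine (norm_sum_le _ _).trans ((sum_le_sum (g := fun _ => 2 * X * e) fun k hk => ?_).trans ?_)
      · have hk' := mem_range.1 hk
        have he0 : 0 ≤ e := by rw [he]; positivity
        calc ‖∑ z ∈ Ico (-(2 * X : ℤ)) (2 * X), a (z + d * k) * (c (z + d * k) - c z)‖ ≤
              ∑ z ∈ Ico (-(2 * X : ℤ)) (2 * X), ‖a (z + d * k)‖ * e := by
              refine (norm_sum_le _ _).trans (sum_le_sum fun z _ => ?_)
              rw [norm_mul]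
              exact mul_le_mul_of_nonneg_left (hsh k hk' z) (norm_nonneg _)
          _ = (∑ y ∈ Ico (-(X : ℤ)) X, ‖a y‖) * e := by
              rw [← sum_mul]
              congr 1
              exact hwinR k hk' (fun y => ‖a y‖) (fun y hy => by
                show ‖a y‖ = 0
                rw [ha.sup y hy, norm_zero])
          _ ≤ 2 * X * e := by
              refine mul_le_mul_of_nonneg_right ?_ he0
              refine (sum_le_sum (g := fun _ => (1 : ℝ)) fun y _ => ha.le y).trans (le_of_eq ?_)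
              rw [sum_const, Int.card_Ico, nsmul_eq_mul, mul_one]
              have h4 : ((X : ℤ) - -(X : ℤ)).toNat = 2 * X := by omega
              rw [h4]
              push_cast
              ring
      · rw [sum_const, card_range, nsmul_eq_mul]
    exact le_of_mul_le_mul_left h2 hH'
  have hCS : ‖T‖ ^ 2 ≤ 4 * X * TQ X H d 0 a := by
    have h1 : ‖T‖ ≤ ∑ z ∈ Ico (-(2 * X : ℤ)) (2 * X), ‖A z‖ * 1 := by
      refine (norm_sum_le _ _).trans (sum_le_sum fun z _ => ?_)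
      rw [norm_mul]
      exact mul_le_mul_of_nonneg_left (hc1 z) (norm_nonneg _)
    have h2 := sum_mul_sq_le_sq_mul_sq (Ico (-(2 * X : ℤ)) (2 * X)) (fun z => ‖A z‖) (fun _ => (1 : ℝ))
    have h3 : ∑ _z ∈ Ico (-(2 * X : ℤ)) (2 * X), (1 : ℝ) ^ 2 = 4 * X := by
      rw [one_pow, sum_const, Int.card_Ico, nsmul_eq_mul, mul_one]
      have h4 : ((2 * X : ℤ) - -(2 * X : ℤ)).toNat = 4 * X := by omega
      rw [h4]
      push_cast
      ring
    rw [h3] at h2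
    have h5 : TQ X H d 0 a = ∑ z ∈ Ico (-(2 * X : ℤ)) (2 * X), ‖A z‖ ^ 2 := rfl
    rw [h5]
    calc ‖T‖ ^ 2 ≤ (∑ z ∈ Ico (-(2 * X : ℤ)) (2 * X), ‖A z‖ * 1) ^ 2 := pow_le_pow_left₀ (norm_nonneg _) h1 2
      _ ≤ _ := h2
      _ = _ := by ring
  rw [hS]
  have h1 : ‖S‖ ≤ ‖T‖ + 2 * X * e := by
    have h2 : S = T + (S - T) := by ring
    calc ‖S‖ = ‖T + (S - T)‖ := by rw [← h2]
      _ ≤ ‖T‖ + ‖S - T‖ := norm_add_le _ _
      _ ≤ ‖T‖ + 2 * X * e := add_le_add le_rfl hdiff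
  have h2 : ‖S‖ ^ 2 ≤ (‖T‖ + 2 * X * e) ^ 2 := pow_le_pow_left₀ (norm_nonneg _) h1 2
  nlinarith [sq_nonneg (‖T‖ - 2 * X * e)]

end Pool.Agent.HUK
end

-- from Lib.HUK.LL2
section

/-!
# Project HUK, chunk LL2 (M): splitting off one coordinate
-/

open Finset

namespace Pool.Agent.HUK

/-- Products over the cube split: `Fin.consEquiv` as in the proof of `DL_prod` (`P0.lean`), `p0_vt_cons`. -/
theorem LL2_cons (s : ℕ) (β : ℤ) (U : (Fin (s + 1) → Bool) → ℤ → ℂ) (t0 : ℤ) (t : Fin s → ℤ) (y : ℤ) :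
    PV β U (Fin.cons t0 t : Fin (s + 1) → ℤ) y = PV β (fun ω => U (Fin.cons false ω : Fin (s + 1) → Bool)) t y *
      PV β (fun ω => U (Fin.cons true ω : Fin (s + 1) → Bool)) t (y + β * t0) := by
  unfold PV
  rw [← (Fin.consEquiv fun _ : Fin (s + 1) => Bool).prod_comp, Fintype.prod_prod_type, Fintype.prod_bool, mul_comm]
  have e1 : ∀ ω : Fin s → Bool, vt (Fin.cons false ω : Fin (s + 1) → Bool) (Fin.cons t0 t : Fin (s + 1) → ℤ) = vt ω t := by
    intro ω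
    rw [p0_vt_cons]
    simp
  have e2 : ∀ ω : Fin s → Bool, vt (Fin.cons true ω : Fin (s + 1) → Bool) (Fin.cons t0 t : Fin (s + 1) → ℤ) = t0 + vt ω t := by
    intro ω
    rw [p0_vt_cons]
    simp
  refine congrArg₂ (· * ·) ?_ ?_
  · refine Finset.prod_congr rfl fun ω _ => ?_
    change U (Fin.cons false ω : Fin (s + 1) → Bool)
      (y + β * vt (Fin.cons false ω : Fin (s + 1) → Bool) (Fin.cons t0 t : Fin (s + 1) → ℤ)) = _
    rw [e1]
  · refine Finset.prod_congr rfl fun ω _ => ?_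
    change U (Fin.cons true ω : Fin (s + 1) → Bool)
      (y + β * vt (Fin.cons true ω : Fin (s + 1) → Bool) (Fin.cons t0 t : Fin (s + 1) → ℤ)) = _
    rw [e2]
    congr 1
    ring

/-- `DD` is multiplicative (`p0_DD_mul` for finite products). -/
theorem LL2_DD (s : ℕ) (β h : ℤ) (U : (Fin s → Bool) → ℤ → ℂ) (t : Fin s → ℤ) :
    DD h (PV β U t) = PV β (fun ω => DD h (U ω)) t := by
  funext y
  simp only [DD, PV]
  rw [map_prod, ← Finset.prod_mul_distrib]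
  refine Finset.prod_congr rfl fun ω _ => ?_
  rw [add_right_comm y h]

theorem LL2_le (s : ℕ) (β : ℤ) (U : (Fin s → Bool) → ℤ → ℂ) (hU : ∀ ω y, ‖U ω y‖ ≤ 1) (t : Fin s → ℤ) (y : ℤ) :
    ‖PV β U t y‖ ≤ 1 := by
  unfold PV
  rw [norm_prod]
  exact Finset.prod_le_one (fun ω _ => norm_nonneg _) (fun ω _ => hU ω _)

/-- The vertex `0` (`vt (zv s) t = 0`) is a factor. -/
theorem LL2_supp (X s : ℕ) (β β' : ℤ) (U U' : (Fin s → Bool) → ℤ → ℂ)
    (h0 : ∀ y, y ∉ Ico (-(X : ℤ)) X → U (zv s) y * U' (zv s) y = 0) (t t' : Fin s → ℤ) (y : ℤ)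
    (hy : y ∉ Ico (-(X : ℤ)) X) : PV β U t y * PV β' U' t' y = 0 := by
  have e : ∀ r : Fin s → ℤ, vt (zv s) r = 0 := by
    intro r
    unfold vt zv
    simp
  rcases mul_eq_zero.1 (h0 y hy) with h | h
  · have h1 : PV β U t y = 0 := by
      unfold PV
      refine Finset.prod_eq_zero (Finset.mem_univ (zv s)) ?_
      rw [e, mul_zero, add_zero]
      exact h
    rw [h1, zero_mul]
  · have h1 : PV β' U' t' y = 0 := by
      unfold PV
      refine Finset.prod_eq_zero (Finset.mem_univ (zv s)) ?_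
      rw [e, mul_zero, add_zero]
      exact h
    rw [h1, mul_zero]

/-- Total weight of the box: `∑_{t ∈ bxS s M} FW M t = M^s` (induction, `D0_bx` or `bxS_sum`-style splitting, `mq1_fw_sum`). -/
theorem LL2_FW (s M : ℕ) (hM : 1 ≤ M) : ∑ t ∈ bxS s M, FW M t = (M : ℝ) ^ s := by
  unfold bxS FW
  rw [← Finset.prod_univ_sum]
  rw [Finset.prod_congr rfl fun (i : Fin s) _ => mq1_fw_sum M hM]
  simp

theorem ll2_FW_cons (s M : ℕ) (t0 : ℤ) (t : Fin s → ℤ) :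
    FW M (Fin.cons t0 t : Fin (s + 1) → ℤ) = fw M t0 * FW M t := by
  unfold FW
  rw [Fin.prod_univ_succ, Fin.cons_zero]
  rfl

theorem ll2_FW_nonneg {s : ℕ} (M : ℕ) (t : Fin s → ℤ) : 0 ≤ FW M t :=
  Finset.prod_nonneg fun i _ => le_max_left _ _

theorem ll2_bx {A : Type*} [AddCommMonoid A] (s N : ℕ) (F : (Fin (s + 1) → ℤ) → A) :
    ∑ t ∈ bxS (s + 1) N, F t = ∑ t ∈ bxS s N, ∑ t0 ∈ Ioo (-(N : ℤ)) N, F (Fin.cons t0 t : Fin (s + 1) → ℤ) := by
  rw [Finset.sum_comm, ← Finset.sum_product']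
  symm
  refine Finset.sum_bij' (fun p _ => (Fin.cons p.1 p.2 : Fin (s + 1) → ℤ)) (fun h _ => (h 0, fun i => h i.succ))
    ?_ ?_ ?_ ?_ ?_
  · rintro ⟨a, h⟩ hm
    rw [Finset.mem_product] at hm
    unfold bxS at hm ⊢
    rw [Fintype.mem_piFinset] at hm ⊢
    intro i
    refine Fin.cases ?_ ?_ i
    · rw [Fin.cons_zero]
      exact hm.1
    · intro j
      rw [Fin.cons_succ]
      exact hm.2 j
  · intro h hm
    unfold bxS at hm ⊢
    rw [Finset.mem_product, Fintype.mem_piFinset]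
    rw [Fintype.mem_piFinset] at hm
    exact ⟨hm 0, fun i => hm i.succ⟩
  · rintro ⟨a, h⟩ _
    simp
  · intro h _
    exact Fin.cons_self_tail h
  · intro p _
    rfl

/-- Splitting `TT` (`bxS (s+1) M` = pairs `(t0, t)`, `FW M (cons t0 t) = fw M t0 * FW M t`, `LL2_cons`; exchange the sums). -/
theorem LL2_split (X M s : ℕ) (β β' : ℤ) (U U' : (Fin (s + 1) → Bool) → ℤ → ℂ) :
    TT X M β β' U U' = (∑ t ∈ bxS s M, ∑ t' ∈ bxS s M, ((FW M t * FW M t' : ℝ) : ℂ) * ∑ y ∈ Ico (-(X : ℤ)) X,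
      (PV β (fun ω => U (Fin.cons false ω : Fin (s + 1) → Bool)) t y *
        PV β' (fun ω => U' (Fin.cons false ω : Fin (s + 1) → Bool)) t' y) *
      ((∑ t0 ∈ Ioo (-(M : ℤ)) M, ((fw M t0 : ℝ) : ℂ) *
        PV β (fun ω => U (Fin.cons true ω : Fin (s + 1) → Bool)) t (y + β * t0)) / (M : ℂ)) *
      ((∑ t0 ∈ Ioo (-(M : ℤ)) M, ((fw M t0 : ℝ) : ℂ) *
        PV β' (fun ω => U' (Fin.cons true ω : Fin (s + 1) → Bool)) t' (y + β' * t0)) / (M : ℂ))) / (M : ℂ) ^ (2 * s) := by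
  have e1 : ∀ a A B : ℂ, a * (A / (M : ℂ)) * (B / (M : ℂ)) = (a * A * B) / (M : ℂ) ^ 2 := by
    intro a A B
    ring
  have e2 : (M : ℂ) ^ (2 * (s + 1)) = (M : ℂ) ^ 2 * (M : ℂ) ^ (2 * s) := by ring
  have e5 : (∑ t ∈ bxS s M, ∑ t' ∈ bxS s M, ((FW M t * FW M t' : ℝ) : ℂ) * ∑ y ∈ Ico (-(X : ℤ)) X,
      (PV β (fun ω => U (Fin.cons false ω : Fin (s + 1) → Bool)) t y *
        PV β' (fun ω => U' (Fin.cons false ω : Fin (s + 1) → Bool)) t' y) *
      ((∑ t0 ∈ Ioo (-(M : ℤ)) M, ((fw M t0 : ℝ) : ℂ) *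
        PV β (fun ω => U (Fin.cons true ω : Fin (s + 1) → Bool)) t (y + β * t0)) / (M : ℂ)) *
      ((∑ t0 ∈ Ioo (-(M : ℤ)) M, ((fw M t0 : ℝ) : ℂ) *
        PV β' (fun ω => U' (Fin.cons true ω : Fin (s + 1) → Bool)) t' (y + β' * t0)) / (M : ℂ))) =
      (∑ t ∈ bxS s M, ∑ t' ∈ bxS s M, ((FW M t * FW M t' : ℝ) : ℂ) * ∑ y ∈ Ico (-(X : ℤ)) X,
      (PV β (fun ω => U (Fin.cons false ω : Fin (s + 1) → Bool)) t y *
        PV β' (fun ω => U' (Fin.cons false ω : Fin (s + 1) → Bool)) t' y) *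
      (∑ t0 ∈ Ioo (-(M : ℤ)) M, ((fw M t0 : ℝ) : ℂ) *
        PV β (fun ω => U (Fin.cons true ω : Fin (s + 1) → Bool)) t (y + β * t0)) *
      (∑ t0 ∈ Ioo (-(M : ℤ)) M, ((fw M t0 : ℝ) : ℂ) *
        PV β' (fun ω => U' (Fin.cons true ω : Fin (s + 1) → Bool)) t' (y + β' * t0))) / (M : ℂ) ^ 2 := by
    rw [Finset.sum_div]
    refine Finset.sum_congr rfl fun t _ => ?_
    rw [Finset.sum_div]
    refine Finset.sum_congr rfl fun t' _ => ?_
    rw [mul_div_assoc, Finset.sum_div]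
    refine congrArg (((FW M t * FW M t' : ℝ) : ℂ) * ·) ?_
    exact Finset.sum_congr rfl fun y _ => e1 _ _ _
  rw [e5, div_div, ← e2]
  unfold TT
  congr 1
  rw [ll2_bx]
  refine Finset.sum_congr rfl fun t _ => ?_
  have e3 : ∀ t0 : ℤ, ∑ t' ∈ bxS (s + 1) M, ((FW M (Fin.cons t0 t : Fin (s + 1) → ℤ) * FW M t' : ℝ) : ℂ) *
      ∑ y ∈ Ico (-(X : ℤ)) X, PV β U (Fin.cons t0 t : Fin (s + 1) → ℤ) y * PV β' U' t' y =
      ∑ t' ∈ bxS s M, ∑ t0' ∈ Ioo (-(M : ℤ)) M,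
        ((FW M (Fin.cons t0 t : Fin (s + 1) → ℤ) * FW M (Fin.cons t0' t' : Fin (s + 1) → ℤ) : ℝ) : ℂ) *
      ∑ y ∈ Ico (-(X : ℤ)) X, PV β U (Fin.cons t0 t : Fin (s + 1) → ℤ) y *
        PV β' U' (Fin.cons t0' t' : Fin (s + 1) → ℤ) y := by
    intro t0
    rw [ll2_bx]
  rw [Finset.sum_congr rfl fun t0 _ => e3 t0, Finset.sum_comm]
  refine Finset.sum_congr rfl fun t' _ => ?_
  simp only [Finset.mul_sum, Finset.sum_mul]
  rw [Finset.sum_congr rfl fun t0 _ => Finset.sum_comm, Finset.sum_comm]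
  refine Finset.sum_congr rfl fun y _ => ?_
  rw [Finset.sum_comm]
  refine Finset.sum_congr rfl fun t0' _ => ?_
  refine Finset.sum_congr rfl fun t0 _ => ?_
  rw [ll2_FW_cons, ll2_FW_cons, LL2_cons, LL2_cons]
  push_cast
  ring

theorem ll2_cs {ι : Type*} (P : Finset ι) (w : ι → ℝ) (S : ι → ℂ) (hw : ∀ i, 0 ≤ w i) :
    ‖∑ i ∈ P, ((w i : ℝ) : ℂ) * S i‖ ^ 2 ≤ (∑ i ∈ P, w i) * ∑ i ∈ P, w i * ‖S i‖ ^ 2 := by
  have h1 : ‖∑ i ∈ P, ((w i : ℝ) : ℂ) * S i‖ ≤ ∑ i ∈ P, w i * ‖S i‖ := by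
    refine (norm_sum_le _ _).trans (le_of_eq ?_)
    refine Finset.sum_congr rfl fun i _ => ?_
    rw [norm_mul, Complex.norm_real, Real.norm_of_nonneg (hw i)]
  have h2 : (∑ i ∈ P, w i * ‖S i‖) ^ 2 ≤ (∑ i ∈ P, w i) * ∑ i ∈ P, w i * ‖S i‖ ^ 2 := by
    refine Finset.sum_sq_le_sum_mul_sum_of_sq_le_mul P (fun i _ => hw i) (fun i _ => mul_nonneg (hw i) (sq_nonneg _)) ?_
    intro i _
    exact le_of_eq (by ring)
  exact (pow_le_pow_left₀ (norm_nonneg _) h1 2).trans h2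

theorem ll2_zv (s : ℕ) : (Fin.cons false (zv s) : Fin (s + 1) → Bool) = zv (s + 1) := by
  funext i
  refine Fin.cases ?_ ?_ i
  · rfl
  · intro j
    rw [Fin.cons_succ]
    rfl

/-- **One coordinate.** `LL2_split`; Cauchy-Schwarz over `(t, t')` (weights `FW FW / M^(2s)`, total `1`, `LL2_FW`), `LL1_step` with
`a = PV .. * PV ..` (support by `LL2_supp` for the families `cons false`, `cons false (zv s) = zv (s+1)`), and
`TQ X H d 0 a = (∑_k fw H k ∑_y DD (d k) a y) / H` (`MQ_one`, `MQ`), `DD (d k) a` by `p0_DD_mul`, `LL2_DD`; exchange the sums. -/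
theorem LL2_rec (X M H b b' q s : ℕ) (hM : 1 ≤ M) (hH : 1 ≤ H) (hd : b * b' * q * H ≤ X)
    (U U' : (Fin (s + 1) → Bool) → ℤ → ℂ) (hU : ∀ ω y, ‖U ω y‖ ≤ 1) (hU' : ∀ ω y, ‖U' ω y‖ ≤ 1)
    (h0 : ∀ y, y ∉ Ico (-(X : ℤ)) X → U (zv (s + 1)) y * U' (zv (s + 1)) y = 0) :
    ‖TT X M (b * q) (b' * q) U U'‖ ^ 2 ≤
      8 * X * ((∑ k ∈ Ioo (-(H : ℤ)) H, fw H k * (TT X M (b * q) (b' * q)
        (fun ω => DD (b * b' * q * k) (U (Fin.cons false ω : Fin (s + 1) → Bool)))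
        (fun ω => DD (b * b' * q * k) (U' (Fin.cons false ω : Fin (s + 1) → Bool)))).re) / H) +
      8 * (X : ℝ) ^ 2 * (2 * (b + b') * H / M) ^ 2 := by
  have hM' : (0 : ℝ) < M := by exact_mod_cast hM
  have hMc : (M : ℂ) ≠ 0 := by
    have : M ≠ 0 := by omega
    exact_mod_cast this
  have hHc : (H : ℂ) ≠ 0 := by
    have : H ≠ 0 := by omega
    exact_mod_cast this
  obtain ⟨V, hV⟩ : ∃ V : (Fin s → Bool) → ℤ → ℂ, V = fun ω => U (Fin.cons false ω : Fin (s + 1) → Bool) := ⟨_, rfl⟩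
  obtain ⟨V', hV'⟩ : ∃ V' : (Fin s → Bool) → ℤ → ℂ, V' = fun ω => U' (Fin.cons false ω : Fin (s + 1) → Bool) := ⟨_, rfl⟩
  obtain ⟨W, hW⟩ : ∃ W : (Fin s → Bool) → ℤ → ℂ, W = fun ω => U (Fin.cons true ω : Fin (s + 1) → Bool) := ⟨_, rfl⟩
  obtain ⟨W', hW'⟩ : ∃ W' : (Fin s → Bool) → ℤ → ℂ, W' = fun ω => U' (Fin.cons true ω : Fin (s + 1) → Bool) := ⟨_, rfl⟩
  obtain ⟨a, hadef⟩ : ∃ a : (Fin s → ℤ) × (Fin s → ℤ) → ℤ → ℂ,
      a = fun p y => PV (b * q) V p.1 y * PV (b' * q) V' p.2 y := ⟨_, rfl⟩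
  obtain ⟨S, hSdef⟩ : ∃ S : (Fin s → ℤ) × (Fin s → ℤ) → ℂ, S = fun p => ∑ y ∈ Ico (-(X : ℤ)) X, a p y *
      ((∑ t ∈ Ioo (-(M : ℤ)) M, ((fw M t : ℝ) : ℂ) * PV (b * q) W p.1 (y + b * q * t)) / (M : ℂ)) *
      ((∑ t ∈ Ioo (-(M : ℤ)) M, ((fw M t : ℝ) : ℂ) * PV (b' * q) W' p.2 (y + b' * q * t)) / (M : ℂ)) := ⟨_, rfl⟩
  obtain ⟨w, hwdef⟩ : ∃ w : (Fin s → ℤ) × (Fin s → ℤ) → ℝ, w = fun p => FW M p.1 * FW M p.2 := ⟨_, rfl⟩
  have hw : ∀ p, 0 ≤ w p := fun p => by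
    rw [hwdef]
    exact mul_nonneg (ll2_FW_nonneg _ _) (ll2_FW_nonneg _ _)
  have hT : TT X M (b * q) (b' * q) U U' = (∑ p ∈ bxS s M ×ˢ bxS s M, ((w p : ℝ) : ℂ) * S p) / (M : ℂ) ^ (2 * s) := by
    rw [LL2_split, Finset.sum_product, hSdef, hadef, hwdef, hV, hV', hW, hW']
  have hsw : ∑ p ∈ bxS s M ×ˢ bxS s M, w p = (M : ℝ) ^ (2 * s) := by
    rw [hwdef, Finset.sum_product]
    simp only [← Finset.mul_sum, ← Finset.sum_mul]
    rw [LL2_FW s M hM]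
    ring
  have ha : ∀ p, Bdd X (a p) := by
    intro p
    rw [hadef]
    constructor
    · intro y
      rw [norm_mul]
      refine mul_le_one₀ (LL2_le s _ V (fun ω y => ?_) _ y) (norm_nonneg _) (LL2_le s _ V' (fun ω y => ?_) _ y)
      · rw [hV]
        exact hU _ _
      · rw [hV']
        exact hU' _ _
    · intro y hy
      refine LL2_supp X s _ _ V V' (fun y hy => ?_) _ _ y hy
      rw [hV, hV']
      change U (Fin.cons false (zv s) : Fin (s + 1) → Bool) y * U' (Fin.cons false (zv s) : Fin (s + 1) → Bool) y = 0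
      rw [ll2_zv]
      exact h0 y hy
  have hS : ∀ p, ‖S p‖ ^ 2 ≤ 8 * X * TQ X H (b * b' * q) 0 (a p) + 8 * (X : ℝ) ^ 2 * (2 * (b + b') * H / M) ^ 2 := by
    intro p
    rw [hSdef]
    refine LL1_step X M H b b' q hM hH hd (a p) (PV (b * q) W p.1) (PV (b' * q) W' p.2) (ha p) (fun y => ?_) (fun y => ?_)
    · refine LL2_le s _ W (fun ω y => ?_) _ y
      rw [hW]
      exact hU _ _
    · refine LL2_le s _ W' (fun ω y => ?_) _ y
      rw [hW']
      exact hU' _ _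
  have hCS := ll2_cs (bxS s M ×ˢ bxS s M) w S hw
  rw [hsw] at hCS
  have hsum : ∑ p ∈ bxS s M ×ˢ bxS s M, w p * ‖S p‖ ^ 2 ≤
      8 * X * (∑ p ∈ bxS s M ×ˢ bxS s M, w p * TQ X H (b * b' * q) 0 (a p)) +
        8 * (X : ℝ) ^ 2 * (2 * (b + b') * H / M) ^ 2 * (M : ℝ) ^ (2 * s) := by
    rw [← hsw, Finset.mul_sum, Finset.mul_sum, ← Finset.sum_add_distrib]
    refine Finset.sum_le_sum fun p _ => ?_
    refine (mul_le_mul_of_nonneg_left (hS p) (hw p)).trans (le_of_eq ?_)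
    ring
  have hkey : (∑ p ∈ bxS s M ×ˢ bxS s M, w p * TQ X H (b * b' * q) 0 (a p)) / (M : ℝ) ^ (2 * s) =
      (∑ k ∈ Ioo (-(H : ℤ)) H, fw H k * (TT X M (b * q) (b' * q)
        (fun ω => DD (b * b' * q * k) (U (Fin.cons false ω : Fin (s + 1) → Bool)))
        (fun ω => DD (b * b' * q * k) (U' (Fin.cons false ω : Fin (s + 1) → Bool)))).re) / H := by
    have hTQ : ∀ p, ((TQ X H (b * b' * q) 0 (a p) : ℝ) : ℂ) =
        (∑ k ∈ Ioo (-(H : ℤ)) H, ((fw H k : ℝ) : ℂ) * ∑ y ∈ Ico (-(X : ℤ)) X, DD (b * b' * q * k) (a p) y) / (H : ℂ) := by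
      intro p
      rw [← MQ_one X H hH ((b : ℤ) * b' * q) (by positivity) (by exact_mod_cast hd) (a p) (ha p).sup]
      rfl
    have hTT : ∀ k : ℤ, TT X M (b * q) (b' * q)
        (fun ω => DD (b * b' * q * k) (U (Fin.cons false ω : Fin (s + 1) → Bool)))
        (fun ω => DD (b * b' * q * k) (U' (Fin.cons false ω : Fin (s + 1) → Bool))) =
        (∑ p ∈ bxS s M ×ˢ bxS s M, ((w p : ℝ) : ℂ) * ∑ y ∈ Ico (-(X : ℤ)) X, DD (b * b' * q * k) (a p) y) /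
          (M : ℂ) ^ (2 * s) := by
      intro k
      unfold TT
      rw [Finset.sum_product, hwdef, hadef]
      refine congrArg (· / (M : ℂ) ^ (2 * s)) ?_
      refine Finset.sum_congr rfl fun t _ => ?_
      refine Finset.sum_congr rfl fun t' _ => ?_
      refine congrArg (((FW M t * FW M t' : ℝ) : ℂ) * ·) ?_
      refine Finset.sum_congr rfl fun y _ => ?_
      change _ = DD (b * b' * q * k) (fun y => PV (b * q) V t y * PV (b' * q) V' t' y) y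
      rw [p0_DD_mul, LL2_DD, LL2_DD, hV, hV']
    have hc : (((∑ p ∈ bxS s M ×ˢ bxS s M, w p * TQ X H (b * b' * q) 0 (a p)) / (M : ℝ) ^ (2 * s) : ℝ) : ℂ) =
        (∑ k ∈ Ioo (-(H : ℤ)) H, ((fw H k : ℝ) : ℂ) * TT X M (b * q) (b' * q)
        (fun ω => DD (b * b' * q * k) (U (Fin.cons false ω : Fin (s + 1) → Bool)))
        (fun ω => DD (b * b' * q * k) (U' (Fin.cons false ω : Fin (s + 1) → Bool)))) / ((H : ℝ) : ℂ) := by
      simp only [hTT]
      push_cast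
      rw [Finset.sum_congr rfl fun p _ => congrArg (((w p : ℝ) : ℂ) * ·) (hTQ p)]
      simp only [mul_div_assoc', ← Finset.sum_div]
      rw [div_div, div_div, mul_comm (H : ℂ)]
      refine congrArg (· / ((M : ℂ) ^ (2 * s) * (H : ℂ))) ?_
      simp only [Finset.mul_sum]
      rw [Finset.sum_comm]
      refine Finset.sum_congr rfl fun k _ => ?_
      refine Finset.sum_congr rfl fun p _ => ?_
      refine Finset.sum_congr rfl fun y _ => ?_
      ring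
    have hre := congrArg Complex.re hc
    rw [Complex.ofReal_re, Complex.div_ofReal_re, Complex.re_sum] at hre
    simp only [Complex.re_ofReal_mul] at hre
    exact hre
  have hMp : (0 : ℝ) < (M : ℝ) ^ (2 * s) := by positivity
  have hnorm : ‖TT X M (b * q) (b' * q) U U'‖ ^ 2 =
      ‖∑ p ∈ bxS s M ×ˢ bxS s M, ((w p : ℝ) : ℂ) * S p‖ ^ 2 / ((M : ℝ) ^ (2 * s)) ^ 2 := by
    rw [hT, norm_div, div_pow, norm_pow, Complex.norm_natCast]
  rw [hnorm, ← hkey, div_le_iff₀ (by positivity)]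
  have h5 : (8 * X * ((∑ p ∈ bxS s M ×ˢ bxS s M, w p * TQ X H (b * b' * q) 0 (a p)) / (M : ℝ) ^ (2 * s)) +
      8 * (X : ℝ) ^ 2 * (2 * (b + b') * H / M) ^ 2) * ((M : ℝ) ^ (2 * s)) ^ 2 =
      (M : ℝ) ^ (2 * s) * (8 * X * (∑ p ∈ bxS s M ×ˢ bxS s M, w p * TQ X H (b * b' * q) 0 (a p)) +
        8 * (X : ℝ) ^ 2 * (2 * (b + b') * H / M) ^ 2 * (M : ℝ) ^ (2 * s)) := by
    have e : ∀ A B C D : ℝ, D ≠ 0 → (A * (B / D) + C) * D ^ 2 = D * (A * B + C * D) := by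
      intro A B C D hD
      field_simp
    exact e _ _ _ _ hMp.ne'
  rw [h5]
  exact hCS.trans (mul_le_mul_of_nonneg_left hsum hMp.le)

end Pool.Agent.HUK
end
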