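import Pool.Agent.Lib.H59M.M1.M021

/-! Merged copies (to shorten the build) of Lib.HPP.Defs, Lib.HPP.A1, Lib.HPP.A2, Lib.HPP.A3, Lib.HPP.BDefs, Lib.HPP.B1, Lib.HPP.B2, Lib.HPP.A4, Lib.HPP.A6, Lib.HPP.A5, Lib.HPP.B3, Lib.HPP.B4, Lib.HPP.A8, Lib.HPP.A9b, Lib.HPP.B6a, Lib.HPP.B5a, Lib.HPP.C1, Lib.HPP.C1L. -/

-- from Lib.HPP.Defs
section

/-!
# Project HPP: systems of polynomials in one parameter. Definitions for modules A (concatenation) and C (energy)

Paper proof: `PROOF.md`. Averages `av`, `avc`; the class `FN N` of functions bounded by `1` with at most `N` nonzero values;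
directions `Dir G` (finite families in `G`), the box averages `NN L f` (absolute values inside), adapted families `Ad`.
-/

open Finset

namespace Pool.Agent.HPP

noncomputable section

/-- The average of a real function on a finite type. -/
def av {ι : Type*} [Fintype ι] (F : ι → ℝ) : ℝ := (∑ x, F x) / Fintype.card ι

/-- The average of a complex function on a finite type. -/
def avc {ι : Type*} [Fintype ι] (F : ι → ℂ) : ℂ := (∑ x, F x) / Fintype.card ι

/-- Bounded by `1`, at most `N` nonzero values. -/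
structure FN {G : Type} (N : ℝ) (f : G → ℂ) : Prop where
  le : ∀ y, ‖f y‖ ≤ 1
  sup : ∃ S : Finset G, (S.card : ℝ) ≤ N ∧ ∀ y, y ∉ S → f y = 0

/-- A direction: a finite non-empty family of elements of `G`. -/
structure Dir (G : Type) where
  ι : Type
  [fin : Fintype ι]
  [non : Nonempty ι]
  a : ι → G

attribute [instance] Dir.fin Dir.non

/-- The family of the differences. -/
def Dir.sub {G : Type} [Sub G] (d e : Dir G) : Dir G := ⟨d.ι × e.ι, fun p => d.a p.1 - e.a p.2⟩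

/-- The difference operator with two shifts. -/
def D2 {G : Type} [Add G] (a b : G) (f : G → ℂ) : G → ℂ := fun y => f (y + a) * (starRingEnd ℂ) (f (y + b))

/-- The index set: a pair of indices for every direction. -/
def Om {G : Type} : List (Dir G) → Type
  | [] => Unit
  | d :: L => (d.ι × d.ι) × Om L

instance omFin {G : Type} : (L : List (Dir G)) → Fintype (Om L)
  | [] => inferInstanceAs (Fintype Unit)
  | d :: L => haveI := omFin L; inferInstanceAs (Fintype ((d.ι × d.ι) × Om L))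

instance omNe {G : Type} : (L : List (Dir G)) → Nonempty (Om L)
  | [] => inferInstanceAs (Nonempty Unit)
  | d :: L => haveI := omNe L; inferInstanceAs (Nonempty ((d.ι × d.ι) × Om L))

/-- Iterated differences. -/
def nab {G : Type} [Add G] : (L : List (Dir G)) → Om L → (G → ℂ) → G → ℂ
  | [], _, f => f
  | d :: L, o, f => D2 (d.a o.1.1) (d.a o.1.2) (nab L o.2 f)

/-- The shift of the first vertex. -/
def sh {G : Type} [AddCommGroup G] : (L : List (Dir G)) → Om L → G
  | [], _ => 0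
  | d :: L, o => d.a o.1.1 + sh L o.2

/-- **Box average with absolute values inside** for the directions in the list. -/
def NN {G : Type} [AddCommGroup G] [Fintype G] (L : List (Dir G)) (f : G → ℂ) : ℝ :=
  av fun o : Om L => ‖∑ y, nab L o f y‖

/-- The product of the vertices other than the first one, relative to the first one (see `A4`). -/
def Phi {G : Type} [AddCommGroup G] : (L : List (Dir G)) → (G → ℂ) → Om L → G → ℂ
  | [], _, _ => fun _ => 1
  | d :: L, f, o => fun y => (starRingEnd ℂ) (f (y + (d.a o.1.2 - d.a o.1.1)) * Phi L f o.2 (y + (d.a o.1.2 - d.a o.1.1))) *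
      Phi L f o.2 y

/-- Adapted families of functions. -/
def Ad {G : Type} [AddCommGroup G] (N : ℝ) : (L : List (Dir G)) → (Om L → G → ℂ) → Prop
  | [], Φ => ∃ ξ : ℂ, ‖ξ‖ ≤ 1 ∧ ∀ o y, Φ o y = ξ
  | d :: L, Φ => ∃ (ξ : (d.ι × d.ι) × Om L → ℂ) (U Φ' : Om L → G → ℂ), (∀ o, ‖ξ o‖ ≤ 1) ∧ (∀ o, FN N (U o)) ∧ Ad N L Φ' ∧
      ∀ (o : (d.ι × d.ι) × Om L) (y : G), Φ o y = ξ o * U o.2 (y + (d.a o.1.2 - d.a o.1.1)) * Φ' o.2 y

/-- The Fourier transform of a direction. -/
def ft {G : Type} [AddCommGroup G] (d : Dir G) (χ : AddChar G ℂ) : ℂ := avc fun x => χ (d.a x)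

/-- **The statement `T_p`** (`PROOF.md`, section A): `p` pure directions `α`, `q` extra directions `γ`. -/
def TP (p q E n : ℕ) (C : ℝ) : Prop := ∀ (I : Type) [Fintype I] [Nonempty I], ∃ (J : Type) (_ : Fintype J) (_ : Nonempty J),
  ∀ (G : Type) [AddCommGroup G] [Fintype G] (α : Fin p → I → Dir G) (γ : Fin q → I → Dir G), ∃ δ : Fin n → J → Dir G,
    (∀ (N : ℝ) (f : G → ℂ), 0 < N → FN N f →
      ((av fun i => NN (List.ofFn (fun l => α l i) ++ List.ofFn (fun l => γ l i)) f) / N) ^ E ≤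
        (av fun j => NN (List.ofFn fun k => δ k j) f) / N) ∧
    ∀ (χ : AddChar G ℂ) (B B' : ℝ), 0 ≤ B → 0 ≤ B' → (∀ l, (av fun i => ‖ft (α l i) χ‖ ^ 2) ≤ B) →
      (∀ l, (av fun i => ‖ft (γ l i) χ‖ ^ 2) ≤ B') → ∀ k, (av fun j => ‖ft (δ k j) χ‖ ^ 2) ≤ C * (B ^ 2 + B')

/-- **The iterated concatenation**: all directions become sums of `2 ^ ν` independent ones. -/
def TN (p ν E n : ℕ) (C : ℝ) : Prop := ∀ (I : Type) [Fintype I] [Nonempty I], ∃ (J : Type) (_ : Fintype J) (_ : Nonempty J),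
  ∀ (G : Type) [AddCommGroup G] [Fintype G] (α : Fin p → I → Dir G), ∃ δ : Fin n → J → Dir G,
    (∀ (N : ℝ) (f : G → ℂ), 0 < N → FN N f →
      ((av fun i => NN (List.ofFn fun l => α l i) f) / N) ^ E ≤ (av fun j => NN (List.ofFn fun k => δ k j) f) / N) ∧
    ∀ (χ : AddChar G ℂ) (B : ℝ), 0 ≤ B → (∀ l, (av fun i => ‖ft (α l i) χ‖ ^ 2) ≤ B) →
      ∀ k, (av fun j => ‖ft (δ k j) χ‖ ^ 2) ≤ C * B ^ (2 ^ ν)

/-- The energy of a direction: the probability that two independent members agree. -/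
def en {G : Type} [DecidableEq G] (d : Dir G) : ℝ := av fun p : d.ι × d.ι => if d.a p.1 = d.a p.2 then 1 else 0

/-- The power `2 ^ s` of the unnormalised `U^s` norm on a finite group, `s ≥ 1`. -/
def Gs {G : Type} [AddCommGroup G] [Fintype G] : ℕ → (G → ℂ) → ℝ
  | 0, f => ‖∑ y, f y‖
  | 1, f => ‖∑ y, f y‖ ^ 2
  | s + 2, f => ∑ u, Gs (s + 1) (D2 0 u f)

/-- The interval `[-X, X]` as a type. -/
abbrev Iv (X : ℕ) : Type := ↥(Icc (-(X : ℤ)) X)

instance ivNe (X : ℕ) : Nonempty (Iv X) := ⟨⟨0, by rw [mem_Icc]; omega⟩⟩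

/-- The direction `c m`, `|m| ≤ X`, in `ℤ/M`. -/
def cdir (M X : ℕ) (c : ℤ) : Dir (ZMod M) := ⟨Iv X, fun m => ((c * (m : ℤ) : ℤ) : ZMod M)⟩

/-- Average over the parameters `l ∈ [-X, X]^ρ` (as lists). -/
def AL (X ρ : ℕ) (F : List ℤ → ℝ) : ℝ := av fun v : Fin ρ → Iv X => F (List.ofFn fun i => ((v i : Iv X) : ℤ))

/-- `KD X χ d x = avg χ (x k_1 ⋯ k_d)`, every `k_i` the difference of two independent elements of `[-X, X]`. -/
def KD {M : ℕ} (X : ℕ) (χ : AddChar (ZMod M) ℂ) : ℕ → ℤ → ℝ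
  | 0, _ => 1
  | 1, x => ‖avc fun m : Iv X => χ ((x * (m : ℤ) : ℤ) : ZMod M)‖ ^ 2
  | d + 2, x => av fun p : Iv X × Iv X => KD X χ (d + 1) (x * ((p.1 : ℤ) - (p.2 : ℤ)))

end

end Pool.Agent.HPP
end

-- from Lib.HPP.A1
section

/-!
# Project HPP, A1 (S): rules for averages
-/

open Finset

namespace Pool.Agent.HPP

variable {ι κ : Type*} [Fintype ι] [Fintype κ]

theorem av_nonneg {F : ι → ℝ} (h : ∀ x, 0 ≤ F x) : 0 ≤ av F := by
  unfold av
  exact div_nonneg (Finset.sum_nonneg fun x _ => h x) (Nat.cast_nonneg _)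

theorem av_mono {F H : ι → ℝ} (h : ∀ x, F x ≤ H x) : av F ≤ av H := by
  unfold av
  gcongr with x _
  exact h x

theorem av_const [Nonempty ι] (c : ℝ) : (av fun _ : ι => c) = c := by
  unfold av
  rw [Finset.sum_const, Finset.card_univ, nsmul_eq_mul, mul_div_cancel_left₀]
  exact Nat.cast_ne_zero.2 Fintype.card_ne_zero

theorem av_le [Nonempty ι] {F : ι → ℝ} {c : ℝ} (h : ∀ x, F x ≤ c) : av F ≤ c :=
  (av_mono h).trans (av_const c).le

theorem av_add (F H : ι → ℝ) : (av fun x => F x + H x) = av F + av H := by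
  unfold av
  rw [Finset.sum_add_distrib, add_div]

theorem av_mul_left (c : ℝ) (F : ι → ℝ) : (av fun x => c * F x) = c * av F := by
  unfold av
  rw [← Finset.mul_sum, mul_div_assoc]

theorem av_div (c : ℝ) (F : ι → ℝ) : (av fun x => F x / c) = av F / c := by
  unfold av
  rw [← Finset.sum_div, div_right_comm]

theorem av_sum {σ : Type*} (s : Finset σ) (F : σ → ι → ℝ) : (av fun x => ∑ k ∈ s, F k x) = ∑ k ∈ s, av (F k) := by
  unfold av
  rw [Finset.sum_comm, Finset.sum_div]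

theorem av_prod (F : ι × κ → ℝ) : av F = av fun x => av fun y => F (x, y) := by
  unfold av
  rw [Fintype.sum_prod_type, Fintype.card_prod, Nat.cast_mul, ← Finset.sum_div, div_div, mul_comm]

theorem av_comm (F : ι → κ → ℝ) : (av fun x => av fun y => F x y) = av fun y => av fun x => F x y := by
  unfold av
  rw [← Finset.sum_div, ← Finset.sum_div, Finset.sum_comm, div_right_comm]

theorem av_equiv (e : ι ≃ κ) (F : κ → ℝ) : (av fun x => F (e x)) = av F := by
  unfold av
  rw [e.sum_comp, Fintype.card_congr e]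

/-- Power means (`inner_le_nnorm_mul_nnorm` / `inv_pow_sum_le..`: use `pow_sum_div_card_le_sum_pow`). -/
theorem av_pow [Nonempty ι] (n : ℕ) {F : ι → ℝ} (hF : ∀ x, 0 ≤ F x) : av F ^ n ≤ av fun x => F x ^ n := by
  cases n with
  | zero => simp only [pow_zero, av_const, le_refl]
  | succ n =>
    have h1 := pow_sum_div_card_le_sum_pow (s := (univ : Finset ι)) (f := F) (fun x _ => hF x) n
    have hc : (0 : ℝ) < Fintype.card ι := Nat.cast_pos.2 Fintype.card_pos
    unfold av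
    rw [Finset.card_univ] at h1
    rw [div_pow, pow_succ (Fintype.card ι : ℝ) n, ← div_div]
    gcongr

theorem avc_const [Nonempty ι] (c : ℂ) : (avc fun _ : ι => c) = c := by
  unfold avc
  rw [Finset.sum_const, Finset.card_univ, nsmul_eq_mul, mul_div_cancel_left₀]
  exact Nat.cast_ne_zero.2 Fintype.card_ne_zero

theorem avc_mul_left (c : ℂ) (F : ι → ℂ) : (avc fun x => c * F x) = c * avc F := by
  unfold avc
  rw [← Finset.mul_sum, mul_div_assoc]

theorem avc_mul_right (c : ℂ) (F : ι → ℂ) : (avc fun x => F x * c) = avc F * c := by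
  unfold avc
  rw [← Finset.sum_mul, mul_div_right_comm]

theorem avc_sum {σ : Type*} (s : Finset σ) (F : σ → ι → ℂ) : (avc fun x => ∑ k ∈ s, F k x) = ∑ k ∈ s, avc (F k) := by
  unfold avc
  rw [Finset.sum_comm, Finset.sum_div]

theorem avc_prod (F : ι × κ → ℂ) : avc F = avc fun x => avc fun y => F (x, y) := by
  unfold avc
  rw [Fintype.sum_prod_type, Fintype.card_prod, Nat.cast_mul, ← Finset.sum_div, div_div, mul_comm]

theorem avc_comm (F : ι → κ → ℂ) : (avc fun x => avc fun y => F x y) = avc fun y => avc fun x => F x y := by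
  unfold avc
  rw [← Finset.sum_div, ← Finset.sum_div, Finset.sum_comm, div_right_comm]

theorem avc_equiv (e : ι ≃ κ) (F : κ → ℂ) : (avc fun x => F (e x)) = avc F := by
  unfold avc
  rw [e.sum_comp, Fintype.card_congr e]

theorem norm_avc_le (F : ι → ℂ) : ‖avc F‖ ≤ av fun x => ‖F x‖ := by
  unfold avc av
  rw [norm_div, RCLike.norm_natCast]
  gcongr
  exact norm_sum_le _ _

theorem avc_star (F : ι → ℂ) : (starRingEnd ℂ) (avc F) = avc fun x => (starRingEnd ℂ) (F x) := by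
  unfold avc
  rw [map_div₀, map_sum, map_natCast]

theorem avc_mul_conj (F : ι → ℂ) : avc F * (starRingEnd ℂ) (avc F) = avc fun p : ι × ι => F p.1 * (starRingEnd ℂ) (F p.2) := by
  rw [avc_prod (fun p : ι × ι => F p.1 * (starRingEnd ℂ) (F p.2)), avc_star]
  simp only [avc_mul_left, avc_mul_right]

/-- `‖avc F‖ ^ 2 ≤ av ‖F‖ ^ 2`. -/
theorem norm_avc_sq [Nonempty ι] (F : ι → ℂ) : ‖avc F‖ ^ 2 ≤ av fun x => ‖F x‖ ^ 2 :=
  (pow_le_pow_left₀ (norm_nonneg _) (norm_avc_le F) 2).trans (av_pow 2 fun _ => norm_nonneg _)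

/-- The real average as a complex one. -/
theorem av_ofReal (F : ι → ℝ) : ((av F : ℝ) : ℂ) = avc fun x => ((F x : ℝ) : ℂ) := by
  unfold av avc
  push_cast
  rfl

/-- The phase of a complex number. -/
theorem phase (z : ℂ) : ∃ ξ : ℂ, ‖ξ‖ ≤ 1 ∧ ((‖z‖ : ℝ) : ℂ) = ξ * z := by
  by_cases h : z = 0
  · exact ⟨0, by simp, by simp [h]⟩
  · refine ⟨(‖z‖ : ℂ) / z, ?_, ?_⟩
    · rw [norm_div, Complex.norm_real, norm_norm, div_self (norm_ne_zero_iff.2 h)]
    · rw [div_mul_cancel₀ _ h]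

end Pool.Agent.HPP
end

-- from Lib.HPP.A2
section

/-!
# Project HPP, A2 (S): the class `FN`, Cauchy-Schwarz, translations
-/

open Finset

namespace Pool.Agent.HPP

variable {G : Type} [AddCommGroup G]

theorem FN.mul {N : ℝ} {f g : G → ℂ} (hf : FN N f) (hg : ∀ y, ‖g y‖ ≤ 1) : FN N fun y => f y * g y := by
  obtain ⟨S, hS, h0⟩ := hf.sup
  refine ⟨fun y => ?_, S, hS, fun y hy => ?_⟩
  · rw [norm_mul]
    exact mul_le_one₀ (hf.le y) (norm_nonneg _) (hg y)
  · show f y * g y = 0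
    rw [h0 y hy, zero_mul]

theorem FN.trans {N : ℝ} {f : G → ℂ} (hf : FN N f) (c : G) : FN N fun y => f (y + c) := by
  obtain ⟨S, hS, h0⟩ := hf.sup
  refine ⟨fun y => hf.le _, S.map (Equiv.addRight (-c)).toEmbedding, ?_, fun y hy => h0 _ fun h => hy ?_⟩
  · rw [Finset.card_map]
    exact hS
  · rw [Finset.mem_map]
    exact ⟨y + c, h, by simp⟩

theorem FN.star {N : ℝ} {f : G → ℂ} (hf : FN N f) : FN N fun y => (starRingEnd ℂ) (f y) := by
  obtain ⟨S, hS, h0⟩ := hf.sup
  refine ⟨fun y => ?_, S, hS, fun y hy => ?_⟩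
  · rw [RCLike.norm_conj]
    exact hf.le y
  · show (starRingEnd ℂ) (f y) = 0
    rw [h0 y hy, map_zero]

theorem FN.D2 {N : ℝ} {f : G → ℂ} (hf : FN N f) (a b : G) : FN N (D2 a b f) := by
  refine (hf.trans a).mul (g := fun y => (starRingEnd ℂ) (f (y + b))) fun y => ?_
  rw [RCLike.norm_conj]
  exact hf.le _

theorem FN.nab {N : ℝ} {f : G → ℂ} (hf : FN N f) (L : List (Dir G)) (o : Om L) : FN N (nab L o f) := by
  induction L with
  | nil => exact hf
  | cons d L ih => exact (ih o.2).D2 _ _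

/-- Cauchy-Schwarz. -/
theorem FN.cs [Fintype G] {N : ℝ} {f : G → ℂ} (hf : FN N f) (W : G → ℂ) :
    ‖∑ y, f y * W y‖ ^ 2 ≤ N * ∑ y, ‖W y‖ ^ 2 := by
  obtain ⟨S, hS, h0⟩ := hf.sup
  have h1 : ∑ y, f y * W y = ∑ y ∈ S, f y * W y := by
    symm
    refine Finset.sum_subset (Finset.subset_univ _) fun y _ hy => ?_
    rw [h0 y hy, zero_mul]
  have h2 : ‖∑ y, f y * W y‖ ≤ ∑ y ∈ S, ‖W y‖ := by
    rw [h1]
    refine (norm_sum_le _ _).trans (Finset.sum_le_sum fun y _ => ?_)
    rw [norm_mul]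
    exact mul_le_of_le_one_left (norm_nonneg _) (hf.le y)
  calc ‖∑ y, f y * W y‖ ^ 2 ≤ (∑ y ∈ S, ‖W y‖) ^ 2 := pow_le_pow_left₀ (norm_nonneg _) h2 2
    _ ≤ S.card * ∑ y ∈ S, ‖W y‖ ^ 2 := sq_sum_le_card_mul_sum_sq
    _ ≤ N * ∑ y, ‖W y‖ ^ 2 := by
      refine mul_le_mul hS ?_ (Finset.sum_nonneg fun y _ => sq_nonneg _) ((Nat.cast_nonneg _).trans hS)
      exact Finset.sum_le_sum_of_subset_of_nonneg (Finset.subset_univ _) fun y _ _ => sq_nonneg _

theorem FN.norm_sum [Fintype G] {N : ℝ} {f : G → ℂ} (hf : FN N f) : ‖∑ y, f y‖ ≤ N := by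
  obtain ⟨S, hS, h0⟩ := hf.sup
  have h1 : ∑ y, f y = ∑ y ∈ S, f y := by
    symm
    exact Finset.sum_subset (Finset.subset_univ _) fun y _ hy => h0 y hy
  rw [h1]
  refine (norm_sum_le _ _).trans ((Finset.sum_le_sum fun y _ => hf.le y).trans ?_)
  rw [Finset.sum_const, nsmul_eq_mul, mul_one]
  exact hS

theorem FN.ge {N : ℝ} {f : G → ℂ} (hf : FN N f) : 0 ≤ N := by
  obtain ⟨S, hS, -⟩ := hf.sup
  exact (Nat.cast_nonneg _).trans hS

/-- The differences commute. -/
theorem D2_comm (a b c d : G) (f : G → ℂ) : D2 a b (D2 c d f) = D2 c d (D2 a b f) := by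
  funext y
  simp only [D2, map_mul, Complex.conj_conj]
  rw [add_right_comm y a c, add_right_comm y a d, add_right_comm y b c, add_right_comm y b d]
  ring


theorem D2_trans (a b c : G) (f : G → ℂ) : D2 a b (fun y => f (y + c)) = fun y => D2 a b f (y + c) := by
  funext y
  simp only [D2]
  rw [add_right_comm y a c, add_right_comm y b c]

/-- `D2 a b f` is a translate of `D2 0 (b - a) f`. -/
theorem D2_zero (a b : G) (f : G → ℂ) (y : G) : D2 a b f y = D2 0 (b - a) f (y + a) := by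
  simp only [D2]
  rw [add_zero, add_assoc, add_sub_cancel]

theorem D2_nab (a b : G) (L : List (Dir G)) (o : Om L) (f : G → ℂ) : D2 a b (nab L o f) = nab L o (D2 a b f) := by
  induction L with
  | nil => rfl
  | cons d L ih =>
    show D2 a b (D2 _ _ (nab L o.2 f)) = D2 _ _ (nab L o.2 (D2 a b f))
    rw [D2_comm, ih o.2]

theorem nab_trans (L : List (Dir G)) (o : Om L) (f : G → ℂ) (c : G) :
    nab L o (fun y => f (y + c)) = fun y => nab L o f (y + c) := by
  induction L with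
  | nil => rfl
  | cons d L ih =>
    show D2 _ _ (nab L o.2 (fun y => f (y + c))) = fun y => D2 _ _ (nab L o.2 f) (y + c)
    rw [ih o.2, D2_trans]

theorem sum_trans [Fintype G] (f : G → ℂ) (c : G) : ∑ y, f (y + c) = ∑ y, f y :=
  Equiv.sum_comp (Equiv.addRight c) f

end Pool.Agent.HPP
end

-- from Lib.HPP.A3
section

/-!
# Project HPP, A3 (S/M): rules for the box averages `NN`
-/

open Finset

namespace Pool.Agent.HPP

variable {G : Type} [AddCommGroup G] [Fintype G]

theorem NN_nonneg (L : List (Dir G)) (f : G → ℂ) : 0 ≤ NN L f := by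
  exact av_nonneg fun _ => norm_nonneg _

theorem NN_nil (f : G → ℂ) : NN [] f = ‖∑ y, f y‖ := by
  change av (fun _ : Om ([] : List (Dir G)) => ‖∑ y, f y‖) = _
  exact av_const _

/-- Averages over `Om (d :: L)` are iterated (`av_prod`; `Om (d :: L)` is by definition the product). -/
theorem av_Om_cons (d : Dir G) (L : List (Dir G)) (F : (d.ι × d.ι) × Om L → ℝ) :
    av (ι := Om (d :: L)) F = av fun p : d.ι × d.ι => av fun o : Om L => F (p, o) := by
  exact av_prod (ι := d.ι × d.ι) (κ := Om L) F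


/-- `av_Om_cons`, `D2_nab`. -/
theorem NN_cons (d : Dir G) (L : List (Dir G)) (f : G → ℂ) :
    NN (d :: L) f = av fun p : d.ι × d.ι => NN L (D2 (d.a p.1) (d.a p.2) f) := by
  unfold NN
  refine (av_Om_cons d L _).trans ?_
  refine congrArg av (funext fun p => congrArg av (funext fun o => ?_))
  change ‖∑ y, D2 (d.a p.1) (d.a p.2) (nab L o f) y‖ = _
  rw [D2_nab]

/-- `nab_trans`, `sum_trans`. -/
theorem NN_trans (L : List (Dir G)) (f : G → ℂ) (c : G) : NN L (fun y => f (y + c)) = NN L f := by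
  unfold NN
  refine congrArg av (funext fun o => ?_)
  rw [nab_trans, sum_trans]

/-- Induction on `List.Perm`, generalising `f` (`NN_cons`, `av_comm`, `D2_comm`). -/
theorem NN_perm {L L' : List (Dir G)} (h : L.Perm L') : ∀ f : G → ℂ, NN L f = NN L' f := by
  induction h with
  | nil => exact fun f => rfl
  | cons d h ih =>
    intro f
    rw [NN_cons, NN_cons]
    exact congrArg av (funext fun p => ih _)
  | swap d e L =>
    intro f
    simp only [NN_cons]
    rw [av_comm]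
    refine congrArg av (funext fun p => congrArg av (funext fun q => ?_))
    rw [D2_comm]
  | trans h1 h2 ih1 ih2 => exact fun f => (ih1 f).trans (ih2 f)

/-- Induction on `L` (`NN_cons`, `FN.D2`, `av_le`); `L = []`: `FN.norm_sum`. -/
theorem NN_le {N : ℝ} (L : List (Dir G)) {f : G → ℂ} (hf : FN N f) : NN L f ≤ N := by
  induction L generalizing f with
  | nil =>
    rw [NN_nil]
    exact hf.norm_sum
  | cons d L ih =>
    rw [NN_cons]
    exact av_le fun p => ih (hf.D2 _ _)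

/-- `NN` of an appended list: `NN (L ++ L') f = av_o NN L' (nab L o f)`. Induction on `L`. -/
theorem NN_append (L L' : List (Dir G)) (f : G → ℂ) : NN (L ++ L') f = av fun o : Om L => NN L' (nab L o f) := by
  induction L generalizing f with
  | nil =>
    change NN L' f = av fun _ : Om ([] : List (Dir G)) => NN L' f
    exact (av_const _).symm
  | cons d L ih =>
    rw [List.cons_append, NN_cons]
    refine Eq.trans ?_ (av_Om_cons d L _).symm
    refine congrArg av (funext fun p => ?_)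
    rw [ih]
    refine congrArg av (funext fun o => ?_)
    change _ = NN L' (D2 (d.a p.1) (d.a p.2) (nab L o f))
    rw [D2_nab]

end Pool.Agent.HPP
end

-- from Lib.HPP.BDefs
section

/-!
# Project HPP, module B (PET). Definitions

A bystander is a function `A t n`, `t ∈ ℤ/M`, `n ∈ ℤ`, which vanishes unless `0 ≤ n < X`. `EO h W A (t, n) = A(t, n) conj A(t + W(n), n + h)`.
-/

open Finset Polynomial

namespace Pool.Agent.HPP

noncomputable section

/-- Degree at most `d`, coefficient of `x ^ d` equal to `r`. -/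
def PD (d : ℕ) (r : ℤ) (R : ℤ[X]) : Prop := R.natDegree ≤ d ∧ R.coeff d = r

/-- The polynomials `W` which occur when a function with a polynomial of degree `≤ d` and leading coefficient `r` is eliminated with
the shift `h`. -/
def PW : ℕ → ℤ → ℤ → ℤ[X] → Prop
  | 0, _, _, W => W = 0
  | d + 1, h, r, W => PD d (-(((d : ℤ) + 1) * h * r)) W

/-- The elementary operator. -/
def EO {M : ℕ} (h : ℤ) (W : ℤ[X]) (A : ZMod M → ℤ → ℂ) : ZMod M → ℤ → ℂ :=
  fun t n => A t n * (starRingEnd ℂ) (A (t + ((W.eval n : ℤ) : ZMod M)) (n + h))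

/-- A list of elementary operators (the head is applied first). -/
def EL {M : ℕ} : List (ℤ × ℤ[X]) → (ZMod M → ℤ → ℂ) → ZMod M → ℤ → ℂ
  | [], A => A
  | p :: l, A => EL l (EO p.1 p.2 A)

/-- Functions with polynomials. -/
abbrev Fam (M : ℕ) : Type := List ((ZMod M → ℂ) × ℤ[X])

/-- The product of the functions `f(t + R(n))`. -/
def pr {M : ℕ} (L : Fam M) (t : ZMod M) (n : ℤ) : ℂ := (L.map fun p => p.1 (t + ((p.2.eval n : ℤ) : ZMod M))).prod

/-- The family after one elementary operator. -/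
def XO {M : ℕ} (h : ℤ) (W : ℤ[X]) (L : Fam M) : Fam M :=
  L ++ L.map fun p => ((fun y => (starRingEnd ℂ) (p.1 y)), W + taylor h p.2)

/-- The family after a list of elementary operators. -/
def XL {M : ℕ} : List (ℤ × ℤ[X]) → Fam M → Fam M
  | [], L => L
  | p :: l, L => XL l (XO p.1 p.2 L)

/-- The sum over `t` and `0 ≤ n < X`. -/
def SS {M : ℕ} [NeZero M] (X : ℕ) (A : ZMod M → ℤ → ℂ) : ℂ := ∑ t : ZMod M, ∑ n ∈ Ico (0 : ℤ) X, A t n

/-- Vanishes unless `0 ≤ n < X`. -/
def Vn {M : ℕ} (X : ℕ) (A : ZMod M → ℤ → ℂ) : Prop := ∀ t n, n ∉ Ico (0 : ℤ) X → A t n = 0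

/-- A class: functions in `FN N`, polynomials of degree `≤ d` with the same coefficient `r` of `x ^ d`. -/
def Cls {M : ℕ} (N : ℝ) (d : ℕ) (r : ℤ) (L : Fam M) : Prop := ∀ p ∈ L, FN N p.1 ∧ PD d r p.2

/-- **Elimination of one class** with `s` functions in `ρ` steps. -/
def KC (d s ρ : ℕ) : Prop := ∀ (M : ℕ) [NeZero M] (X : ℕ) (N : ℝ), 0 < X → 0 < N → ∀ (r : ℤ) (L : Fam M), L.length = s →
  Cls N d r L → ∀ A : ZMod M → ℤ → ℂ, Vn X A → ∃ W : List ℤ → List ℤ[X],
    (∀ l : List ℤ, l.length = ρ → List.Forall₂ (fun h w => PW d h r w) l (W l)) ∧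
    (‖SS X fun t n => A t n * pr L t n‖ / (N * X)) ^ (2 ^ ρ) ≤
      3 ^ (2 ^ ρ - 1) * AL X ρ fun l => ‖SS X (EL (l.zip (W l)) A)‖ / (N * X)

/-- **Elimination of several classes** `C = [(r_1, L_1), …]` with the sizes in the list `sz`; `lab` is the list of the labels
(positions of classes) of the steps. -/
def KF (d : ℕ) (sz lab : List ℕ) : Prop := ∀ (M : ℕ) [NeZero M] (X : ℕ) (N : ℝ), 0 < X → 0 < N → ∀ C : List (ℤ × Fam M),
  (C.map fun c => c.2.length) = sz → (∀ c ∈ C, Cls N d c.1 c.2) → ∀ A : ZMod M → ℤ → ℂ, Vn X A → ∃ W : List ℤ → List ℤ[X],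
    (∀ l : List ℤ, l.length = lab.length → (W l).length = lab.length ∧
      List.Forall₂ (fun (p : ℤ × ℤ[X]) (k : ℕ) => PW d p.1 ((C.map Prod.fst).getD k 0) p.2) (l.zip (W l)) lab) ∧
    (‖SS X fun t n => A t n * (C.map fun c => pr c.2 t n).prod‖ / (N * X)) ^ (2 ^ lab.length) ≤
      3 ^ (2 ^ lab.length - 1) * AL X lab.length fun l => ‖SS X (EL (l.zip (W l)) A)‖ / (N * X)

/-- The coefficients of `x ^ d` of the copies of the target after the elimination of functions of degree `≤ d + 1` with leading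
coefficients `r` (labels `lab`, parameters `l`): copy number `j` (binary digits = set of steps). -/
def rn (d : ℕ) {q : ℕ} (lab : List ℕ) (r : Fin q → ℤ) (l : List ℤ) (j : ℕ) : ℤ :=
  -(((d : ℤ) + 1) * ∑ i ∈ range lab.length, if j.testBit i then l.getD i 0 * (List.ofFn r).getD (lab.getD i 0) 0 else 0)

/-- **The complete elimination** (inequality): `q` functions of degree `≤ d` with leading coefficients `r`; `ρ` parameters, `n` directions
`c r k l`. -/
def FU (d q ρ n E : ℕ) (K : ℝ) (c : (Fin q → ℤ) → Fin n → List ℤ → ℤ) : Prop :=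
  ∀ (M : ℕ) [NeZero M] (X : ℕ) (N : ℝ), 0 < X → 0 < N → ∀ (r : Fin q → ℤ) (f : Fin q → ZMod M → ℂ) (R : Fin q → ℤ[X]),
    (∀ j, FN N (f j) ∧ PD d (r j) (R j)) → ∀ f0 : ZMod M → ℂ, FN N f0 → ∀ a b : ℤ, 0 ≤ a → b ≤ X →
    (‖∑ t : ZMod M, ∑ n ∈ Ico a b, f0 t * ∏ j, f j (t + (((R j).eval n : ℤ) : ZMod M))‖ / (N * X)) ^ E ≤
      K * AL X ρ fun l => NN (List.ofFn fun k => cdir M X (c r k l)) f0 / N

/-- Iterated one-sided differences. -/
def DI {M : ℕ} : List (ZMod M) → (ZMod M → ℂ) → ZMod M → ℂ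
  | [], f => f
  | w :: l, f => DI l (D2 0 w f)

/-- **The energy of the directions.** -/
def EP (d q ρ n : ℕ) (c : (Fin q → ℤ) → Fin n → List ℤ → ℤ) : Prop :=
  ∀ k : Fin n, ∃ κ : ℤ, κ ≠ 0 ∧ ∃ j : Fin q, ∀ (M X : ℕ) [NeZero M] (χ : AddChar (ZMod M) ℂ) (r : Fin q → ℤ),
    (AL X ρ fun l => KD X χ 1 (c r k l)) ≤ (KD X χ d (κ * r j)) ^ ((1 / 2 : ℝ) ^ (d - 1))

end

end Pool.Agent.HPP
end

-- from Lib.HPP.B1
section

/-!
# Project HPP, B1 (M): one Cauchy-Schwarz step; averages over lists of parameters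
-/

open Finset Polynomial

namespace Pool.Agent.HPP

theorem AL_zero (X : ℕ) (F : List ℤ → ℝ) : AL X 0 F = F [] := by
  unfold AL
  have : (fun v : Fin 0 → Iv X => F (List.ofFn fun i => ((v i : Iv X) : ℤ))) = fun _ => F [] := by
    funext v
    rw [List.ofFn_zero]
  rw [this, av_const]

/-- `Fin.consEquiv` / `Fin.insertNthEquiv`, `av_prod`, `av_equiv`, `List.ofFn_succ`. -/
theorem AL_succ (X ρ : ℕ) (F : List ℤ → ℝ) :
    AL X (ρ + 1) F = av fun h : Iv X => AL X ρ fun l => F ((h : ℤ) :: l) := by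
  have e1 : AL X (ρ + 1) F = av fun p : Iv X × (Fin ρ → Iv X) =>
      F (((p.1 : Iv X) : ℤ) :: List.ofFn fun i => ((p.2 i : Iv X) : ℤ)) := by
    unfold AL
    rw [← av_equiv (Fin.consEquiv fun _ : Fin (ρ + 1) => Iv X)]
    refine congrArg av (funext fun p => ?_)
    rw [List.ofFn_succ]
    rfl
  rw [e1, av_prod]
  rfl

/-- Induction on `ρ`. -/
theorem AL_add (X ρ ρ' : ℕ) (F : List ℤ → ℝ) : AL X (ρ + ρ') F = AL X ρ fun l => AL X ρ' fun l' => F (l ++ l') := by
  induction ρ generalizing F with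
  | zero =>
    rw [AL_zero, Nat.zero_add]
    rfl
  | succ ρ ih =>
    rw [show ρ + 1 + ρ' = ρ + ρ' + 1 by omega, AL_succ, AL_succ]
    exact congrArg av (funext fun h => ih _)

/-- Only lists of length `ρ` matter. -/
theorem AL_mono (X ρ : ℕ) {F H : List ℤ → ℝ} (h : ∀ l : List ℤ, l.length = ρ → F l ≤ H l) : AL X ρ F ≤ AL X ρ H := by
  unfold AL
  exact av_mono fun v => h _ (List.length_ofFn)

theorem AL_congr (X ρ : ℕ) {F H : List ℤ → ℝ} (h : ∀ l : List ℤ, l.length = ρ → F l = H l) : AL X ρ F = AL X ρ H :=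
  le_antisymm (AL_mono X ρ fun l hl => (h l hl).le) (AL_mono X ρ fun l hl => (h l hl).ge)

theorem AL_nonneg (X ρ : ℕ) {F : List ℤ → ℝ} (h : ∀ l : List ℤ, l.length = ρ → 0 ≤ F l) : 0 ≤ AL X ρ F := by
  unfold AL
  exact av_nonneg fun v => h _ (List.length_ofFn)


theorem AL_mul_left (X ρ : ℕ) (c : ℝ) (F : List ℤ → ℝ) : (AL X ρ fun l => c * F l) = c * AL X ρ F := by
  unfold AL
  exact av_mul_left c _

/-- `av_pow`. -/
theorem AL_pow (X ρ n : ℕ) {F : List ℤ → ℝ} (h : ∀ l, 0 ≤ F l) : (AL X ρ F) ^ n ≤ AL X ρ fun l => F l ^ n := by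
  unfold AL
  exact av_pow n fun v => h _

theorem b1_shift (X : ℕ) (n : ℤ) (hn : n ∈ Ico (0 : ℤ) X) (G : ℤ → ℂ) (hG : ∀ n', n' ∉ Ico (0 : ℤ) X → G n' = 0) :
    ∑ n' ∈ Ico (0 : ℤ) X, G n' = ∑ h : Iv X, G (n + (h : ℤ)) := by
  rw [Finset.sum_coe_sort (Icc (-(X : ℤ)) X) (fun h => G (n + h))]
  have h1 : ∑ h ∈ Icc (-(X : ℤ)) X, G (n + h) = ∑ n' ∈ Icc (n - X) (n + X), G n' := by
    refine Finset.sum_nbij' (fun h => n + h) (fun n' => n' - n) ?_ ?_ ?_ ?_ ?_
    · intro h hh
      rw [mem_Icc] at hh ⊢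
      constructor <;> linarith [hh.1, hh.2]
    · intro h hh
      rw [mem_Icc] at hh ⊢
      constructor <;> linarith [hh.1, hh.2]
    · intro h _
      ring
    · intro h _
      ring
    · intro h _
      rfl
  rw [h1]
  refine Finset.sum_subset ?_ fun n' _ h => hG n' h
  intro n' hn'
  rw [mem_Ico] at hn hn'
  rw [mem_Icc]
  constructor <;> linarith [hn.1, hn.2, hn'.1, hn'.2]

/-- **B1.** Proof. Put `m(n)` for the value of `P` at `n`. For fixed `n` replace `t` by `t - m(n)`: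
`SS = ∑_t f(t) ∑_n A(t - m(n), n)`. `FN.cs`: `|SS|² ≤ N ∑_t |∑_n A(t - m(n), n)|² = N ∑_{n, n' ∈ [0, X)} ∑_t A(t - m(n), n) conj A(t - m(n'), n')`.
Put `n' = n + h`, `|h| < X` (for `n'` outside `[0, X)` the term is zero, `Vn`), replace `t` by `t + m(n)`: the sum over `t, n` is
`SS X (EO h W A)` with `W(n) = -(m(n + h) - m(n))` (`taylor_eval`). Absolute values for every `h`: `|SS|² ≤ N ∑_{|h| < X} |SS_h|
≤ N (2 X + 1) av_{|h| ≤ X} |SS_h| ≤ 3 N X av_h |SS_h|`. -/
theorem B1_step (M : ℕ) [NeZero M] (X : ℕ) (N : ℝ) (hX : 0 < X) (hN : 0 < N) (f : ZMod M → ℂ) (hf : FN N f) (P : ℤ[X])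
    (A : ZMod M → ℤ → ℂ) (hA : Vn X A) :
    (‖SS X fun t n => A t n * f (t + ((P.eval n : ℤ) : ZMod M))‖ / (N * X)) ^ 2 ≤
      3 * av fun h : Iv X => ‖SS X (EO (h : ℤ) (-(taylor (h : ℤ) P - P)) A)‖ / (N * X) := by
  obtain ⟨m, hm⟩ : ∃ m : ℤ → ZMod M, m = fun n => ((P.eval n : ℤ) : ZMod M) := ⟨_, rfl⟩
  obtain ⟨W, hW⟩ : ∃ W : ZMod M → ℂ, W = fun t => ∑ n ∈ Ico (0 : ℤ) X, A (t - m n) n := ⟨_, rfl⟩
  obtain ⟨S, hS⟩ : ∃ S : Iv X → ℂ, S = fun h : Iv X => SS X (EO (h : ℤ) (-(taylor (h : ℤ) P - P)) A) := ⟨_, rfl⟩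
  have e1 : SS X (fun t n => A t n * f (t + ((P.eval n : ℤ) : ZMod M))) = ∑ t, f t * W t := by
    unfold SS
    rw [Finset.sum_comm]
    have : ∀ n : ℤ, ∑ t : ZMod M, A t n * f (t + ((P.eval n : ℤ) : ZMod M)) = ∑ t, f t * A (t - m n) n := by
      intro n
      rw [hm]
      refine Eq.trans ?_ (Equiv.sum_comp (Equiv.addRight ((P.eval n : ℤ) : ZMod M))
        (fun t => f t * A (t - ((P.eval n : ℤ) : ZMod M)) n))
      refine Finset.sum_congr rfl fun t _ => ?_
      simp only [Equiv.coe_addRight, add_sub_cancel_right]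
      rw [mul_comm]
    rw [Finset.sum_congr rfl fun n _ => this n, Finset.sum_comm, hW]
    refine Finset.sum_congr rfl fun t _ => ?_
    rw [Finset.mul_sum]
  have e2 : ((∑ t, ‖W t‖ ^ 2 : ℝ) : ℂ) = ∑ h, S h := by
    have h1 : ((∑ t, ‖W t‖ ^ 2 : ℝ) : ℂ) = ∑ t, ∑ n ∈ Ico (0 : ℤ) X, ∑ n' ∈ Ico (0 : ℤ) X,
        A (t - m n) n * (starRingEnd ℂ) (A (t - m n') n') := by
      rw [Complex.ofReal_sum]
      refine Finset.sum_congr rfl fun t _ => ?_
      rw [Complex.ofReal_pow, ← Complex.mul_conj', hW, map_sum, Finset.sum_mul_sum]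
    have h2 : ∀ n : ℤ, ∑ t : ZMod M, ∑ n' ∈ Ico (0 : ℤ) X, A (t - m n) n * (starRingEnd ℂ) (A (t - m n') n') =
        ∑ t : ZMod M, ∑ n' ∈ Ico (0 : ℤ) X, A t n * (starRingEnd ℂ) (A (t + (m n - m n')) n') := by
      intro n
      refine (Equiv.sum_comp (Equiv.addRight (m n)) (fun t => ∑ n' ∈ Ico (0 : ℤ) X,
        A (t - m n) n * (starRingEnd ℂ) (A (t - m n') n'))).symm.trans ?_
      refine Finset.sum_congr rfl fun t _ => Finset.sum_congr rfl fun n' _ => ?_
      simp only [Equiv.coe_addRight, add_sub_cancel_right]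
      rw [add_sub_assoc]
    have h3 : ∀ n ∈ Ico (0 : ℤ) X, ∀ t : ZMod M,
        ∑ n' ∈ Ico (0 : ℤ) X, A t n * (starRingEnd ℂ) (A (t + (m n - m n')) n') =
        ∑ h : Iv X, A t n * (starRingEnd ℂ) (A (t + (m n - m (n + (h : ℤ)))) (n + (h : ℤ))) := by
      intro n hn t
      refine b1_shift X n hn (fun n' => A t n * (starRingEnd ℂ) (A (t + (m n - m n')) n')) fun n' hn' => ?_
      rw [hA _ n' hn', map_zero, mul_zero]
    rw [h1, Finset.sum_comm, hS]
    rw [Finset.sum_congr rfl fun n _ => h2 n]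
    rw [Finset.sum_congr rfl fun n hn => Finset.sum_congr rfl fun t _ => h3 n hn t]
    unfold SS EO
    rw [Finset.sum_comm, Finset.sum_comm (s := (univ : Finset (Iv X)))]
    refine Finset.sum_congr rfl fun t _ => ?_
    rw [Finset.sum_comm]
    refine Finset.sum_congr rfl fun h _ => Finset.sum_congr rfl fun n _ => ?_
    have : m n - m (n + (h : ℤ)) = ((((-(taylor (h : ℤ) P - P)).eval n : ℤ)) : ZMod M) := by
      rw [hm, eval_neg, eval_sub, taylor_eval]
      push_cast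
      ring_nf
    rw [this]
  have e3 : ∑ t, ‖W t‖ ^ 2 ≤ 3 * X * av fun h => ‖S h‖ := by
    have h1 : (∑ t, ‖W t‖ ^ 2 : ℝ) ≤ ∑ h, ‖S h‖ := by
      have h0 : 0 ≤ (∑ t, ‖W t‖ ^ 2 : ℝ) := Finset.sum_nonneg fun t _ => sq_nonneg _
      calc (∑ t, ‖W t‖ ^ 2 : ℝ) = ‖((∑ t, ‖W t‖ ^ 2 : ℝ) : ℂ)‖ := by
            rw [Complex.norm_real, Real.norm_of_nonneg h0]
        _ = ‖∑ h, S h‖ := by rw [e2]
        _ ≤ _ := norm_sum_le _ _
    refine h1.trans ?_
    unfold av
    have hc : (Fintype.card (Iv X) : ℝ) = 2 * X + 1 := by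
      rw [Fintype.card_coe, Int.card_Icc]
      have : ((X : ℤ) + 1 - -(X : ℤ)).toNat = 2 * X + 1 := by omega
      rw [this]
      push_cast
      ring
    have hX1 : (1 : ℝ) ≤ X := by exact_mod_cast hX
    have hs : 0 ≤ ∑ h, ‖S h‖ := Finset.sum_nonneg fun h _ => norm_nonneg _
    rw [hc, mul_div_assoc', le_div_iff₀ (by linarith)]
    nlinarith
  have e4 : ‖SS X (fun t n => A t n * f (t + ((P.eval n : ℤ) : ZMod M)))‖ ^ 2 ≤
      N * (3 * X * av fun h => ‖S h‖) := by
    rw [e1]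
    exact (hf.cs W).trans (mul_le_mul_of_nonneg_left e3 hN.le)
  have hX0 : (0 : ℝ) < X := by exact_mod_cast hX
  have e5 : (av fun h : Iv X => ‖SS X (EO (h : ℤ) (-(taylor (h : ℤ) P - P)) A)‖ / (N * X)) =
      (av fun h => ‖S h‖) / (N * X) := by
    rw [hS, av_div]
  rw [e5, div_pow, div_le_iff₀ (by positivity)]
  refine e4.trans (le_of_eq ?_)
  field_simp

end Pool.Agent.HPP
end

-- from Lib.HPP.B2
section

/-!
# Project HPP, B2 (S/M): rules for polynomials and operators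
-/

open Finset Polynomial

namespace Pool.Agent.HPP

theorem PD.add {d : ℕ} {r r' : ℤ} {R R' : ℤ[X]} (h : PD d r R) (h' : PD d r' R') : PD d (r + r') (R + R') := by
  refine ⟨(natDegree_add_le_of_le h.1 h'.1).trans (max_self d).le, ?_⟩
  rw [coeff_add, h.2, h'.2]

theorem PD.sub {d : ℕ} {r r' : ℤ} {R R' : ℤ[X]} (h : PD d r R) (h' : PD d r' R') : PD d (r - r') (R - R') := by
  refine ⟨(natDegree_sub_le_of_le h.1 h'.1).trans (max_self d).le, ?_⟩
  rw [coeff_sub, h.2, h'.2]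


theorem PD.up {d : ℕ} {r : ℤ} {R : ℤ[X]} (h : PD d r R) : PD (d + 1) 0 R := by
  refine ⟨h.1.trans (Nat.le_succ d), ?_⟩
  exact coeff_eq_zero_of_natDegree_lt (Nat.lt_succ_of_le h.1)

theorem PD.down {d : ℕ} {R : ℤ[X]} (h : PD (d + 1) 0 R) : PD d (R.coeff d) R := by
  refine ⟨?_, rfl⟩
  by_contra hcon
  have h1 : R.natDegree = d + 1 := by
    have := h.1
    omega
  have h2 : R.leadingCoeff = 0 := by
    rw [leadingCoeff, h1]
    exact h.2
  rw [leadingCoeff_eq_zero] at h2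
  rw [h2, natDegree_zero] at h1
  omega

/-- `taylor_eval`, `natDegree_taylor`, `taylor_coeff` (the coefficient of `x ^ d` of `R(x + h)` is that of `R` if `natDegree ≤ d`). -/
theorem PD.taylor {d : ℕ} {r : ℤ} {R : ℤ[X]} (h : PD d r R) (a : ℤ) : PD d r (taylor a R) := by
  refine ⟨?_, ?_⟩
  · rw [natDegree_taylor]
    exact h.1
  · have h1 : (hasseDeriv d R).natDegree ≤ 0 := by
      refine (natDegree_hasseDeriv_le R d).trans ?_
      have := h.1
      omega
    rw [taylor_coeff, eq_C_of_natDegree_le_zero h1, eval_C, hasseDeriv_coeff]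
    simp [h.2]

/-- The difference of `R(x + h)` and `R`: coefficient `(d + 1) h r` of `x ^ d`. -/
theorem PD.delta {d : ℕ} {r : ℤ} {R : ℤ[X]} (h : PD (d + 1) r R) (a : ℤ) :
    PD d (((d : ℤ) + 1) * a * r) (Polynomial.taylor a R - R) := by
  have h1 : PD (d + 1) 0 (Polynomial.taylor a R - R) := by
    have := (h.taylor a).sub h
    rwa [sub_self] at this
  refine ⟨h1.down.1, ?_⟩
  have h2 : (hasseDeriv d R).natDegree < 2 := by
    have h3 := natDegree_hasseDeriv_le R d
    have h4 := h.1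
    omega
  rw [coeff_sub, taylor_coeff, eval_eq_sum_range' h2, Finset.sum_range_succ, Finset.sum_range_one,
    hasseDeriv_coeff, hasseDeriv_coeff]
  have h5 : R.coeff (1 + d) = r := by
    rw [add_comm]
    exact h.2
  rw [h5]
  have h6 : (1 + d).choose d = d + 1 := by
    rw [add_comm 1 d, Nat.choose_succ_self_right]
  rw [h6, zero_add, Nat.choose_self]
  push_cast
  ring

theorem PD.const {r : ℤ} {R : ℤ[X]} (h : PD 0 r R) (n : ℤ) : R.eval n = r := by
  rw [eq_C_of_natDegree_le_zero h.1, eval_C]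
  exact h.2

/-- `PW (d + 1)` polynomials have degree `≤ d`, `PW 0` is zero: always `PD d 0`. -/
theorem PW.pd {d : ℕ} {h r : ℤ} {W : ℤ[X]} (hW : PW d h r W) : PD d 0 W := by
  cases d with
  | zero =>
    have hW0 : W = 0 := hW
    subst hW0
    exact ⟨by simp, by simp⟩
  | succ d => exact PD.up hW

variable {M : ℕ}

theorem EO_mul (h : ℤ) (W : ℤ[X]) (A B : ZMod M → ℤ → ℂ) :
    EO h W (fun t n => A t n * B t n) = fun t n => EO h W A t n * EO h W B t n := by
  funext t n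
  simp only [EO, map_mul]
  ring

theorem EL_mul (l : List (ℤ × ℤ[X])) (A B : ZMod M → ℤ → ℂ) :
    EL l (fun t n => A t n * B t n) = fun t n => EL l A t n * EL l B t n := by
  induction l generalizing A B with
  | nil => rfl
  | cons p l ih =>
    simp only [EL]
    rw [EO_mul, ih]

theorem EL_append (l l' : List (ℤ × ℤ[X])) (A : ZMod M → ℤ → ℂ) : EL (l ++ l') A = EL l' (EL l A) := by
  induction l generalizing A with
  | nil => rfl
  | cons p l ih =>
    simp only [List.cons_append, EL]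
    rw [ih]

/-- `EO` of the product of a family is the product of the family `XO` (`taylor_eval`, `List.prod_append`, `map_list_prod`, `push_cast`). -/
theorem EO_pr (h : ℤ) (W : ℤ[X]) (L : Fam M) : EO h W (pr L) = pr (XO h W L) := by
  funext t n
  simp only [EO, pr, XO, List.map_append, List.prod_append, List.map_map, map_list_prod]
  congr 1
  refine congrArg List.prod (List.map_congr_left fun p _ => ?_)
  simp only [Function.comp_apply, eval_add, taylor_eval]
  congr 2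
  push_cast
  rw [add_assoc]

theorem EL_pr (l : List (ℤ × ℤ[X])) (L : Fam M) : EL l (pr L) = pr (XL l L) := by
  induction l generalizing L with
  | nil => rfl
  | cons p l ih =>
    simp only [EL, XL]
    rw [EO_pr, ih]

theorem EO_vn {X : ℕ} (h : ℤ) (W : ℤ[X]) {A : ZMod M → ℤ → ℂ} (hA : Vn X A) : Vn X (EO h W A) := by
  intro t n hn
  simp only [EO]
  rw [hA t n hn, zero_mul]

theorem EL_vn {X : ℕ} (l : List (ℤ × ℤ[X])) {A : ZMod M → ℤ → ℂ} (hA : Vn X A) : Vn X (EL l A) := by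
  induction l generalizing A with
  | nil => exact hA
  | cons p l ih =>
    simp only [EL]
    exact ih (EO_vn p.1 p.2 hA)

theorem XL_length (l : List (ℤ × ℤ[X])) (L : Fam M) : (XL l L).length = L.length * 2 ^ l.length := by
  induction l generalizing L with
  | nil => simp [XL]
  | cons p l ih =>
    simp only [XL]
    rw [ih]
    simp only [XO, List.length_append, List.length_map, List.length_cons]
    ring

/-- A class stays a class (`PD.taylor`, `PD.add` with `PD d 0 W`, `FN.star`). -/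
theorem XL_cls {N : ℝ} {d : ℕ} {r : ℤ} (l : List (ℤ × ℤ[X])) (hl : ∀ p ∈ l, PD d 0 p.2) (L : Fam M) (hL : Cls N d r L) :
    Cls N d r (XL l L) := by
  induction l generalizing L with
  | nil => exact hL
  | cons p l ih =>
    simp only [XL]
    refine ih (fun q hq => hl q (List.mem_cons_of_mem _ hq)) _ ?_
    intro q hq
    simp only [XO, List.mem_append, List.mem_map] at hq
    rcases hq with hq | ⟨q', hq', rfl⟩
    · exact hL q hq
    · have h1 := hL q' hq'
      refine ⟨h1.1.star, ?_⟩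
      have h2 := (hl p (List.mem_cons_self)).add (h1.2.taylor p.1)
      rwa [zero_add] at h2

/-- **Recentering.** `A~(t, n) = A(t - P(n), n)`; `EO h W~ A~ = (EO h W A)~` with `W = W~ - (P(x + h) - P)`. -/
theorem EO_rec (h : ℤ) (W P : ℤ[X]) (A : ZMod M → ℤ → ℂ) :
    EO h W (fun t n => A (t - ((P.eval n : ℤ) : ZMod M)) n) =
      fun t n => EO h (W - (taylor h P - P)) A (t - ((P.eval n : ℤ) : ZMod M)) n := by
  funext t n
  simp only [EO]
  congr 3
  simp only [eval_sub, taylor_eval]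
  push_cast
  ring

/-- The sum does not change. -/
theorem SS_rec [NeZero M] (X : ℕ) (P : ℤ[X]) (A : ZMod M → ℤ → ℂ) :
    SS X (fun t n => A (t - ((P.eval n : ℤ) : ZMod M)) n) = SS X A := by
  simp only [SS]
  rw [Finset.sum_comm, Finset.sum_comm (s := (Finset.univ : Finset (ZMod M))) (t := Ico (0 : ℤ) X) (f := fun t n => A t n)]
  refine Finset.sum_congr rfl fun n _ => ?_
  exact Equiv.sum_comp (Equiv.subRight ((P.eval n : ℤ) : ZMod M)) (fun t => A t n)

end Pool.Agent.HPP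
end

-- from Lib.HPP.A4
section

/-!
# Project HPP, A4 (M): the vertices relative to the first one, adapted families
-/

open Finset

namespace Pool.Agent.HPP

variable {G : Type} [AddCommGroup G]

/-- **A4.** `nab L o f (y - sh L o) = f(y) Phi_o(y)`.
Proof. Induction on `L`. `d :: L`, `o = ((x, x'), o')`, `δ = a x' - a x`: `nab (d :: L) o f (y - a x - sh L o') =
nab L o' f (y - sh L o') * conj (nab L o' f (y - sh L o' + δ))` (associativity), and by the induction hypothesis for `y` and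
`y + δ` it is `f y * Phi L f o' y * conj (f (y + δ) * Phi L f o' (y + δ))`. -/
theorem A4_phi (L : List (Dir G)) (o : Om L) (f : G → ℂ) (y : G) : nab L o f (y - sh L o) = f y * Phi L f o y := by
  induction L generalizing y with
  | nil =>
    change f (y - 0) = f y * 1
    rw [sub_zero, mul_one]
  | cons d L ih =>
    obtain ⟨p, o'⟩ := o
    change nab L o' f (y - (d.a p.1 + sh L o') + d.a p.1) *
        (starRingEnd ℂ) (nab L o' f (y - (d.a p.1 + sh L o') + d.a p.2)) =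
      f y * ((starRingEnd ℂ) (f (y + (d.a p.2 - d.a p.1)) * Phi L f o' (y + (d.a p.2 - d.a p.1))) * Phi L f o' y)
    have h1 : y - (d.a p.1 + sh L o') + d.a p.1 = y - sh L o' := by abel
    have h2 : y - (d.a p.1 + sh L o') + d.a p.2 = y + (d.a p.2 - d.a p.1) - sh L o' := by abel
    rw [h1, h2, ih, ih]
    ring

/-- Induction on `L`. -/
theorem A4_le (L : List (Dir G)) (f : G → ℂ) (hf : ∀ y, ‖f y‖ ≤ 1) (o : Om L) (y : G) : ‖Phi L f o y‖ ≤ 1 := by
  induction L generalizing y with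
  | nil =>
    change ‖(1 : ℂ)‖ ≤ 1
    rw [norm_one]
  | cons d L ih =>
    obtain ⟨p, o'⟩ := o
    change ‖(starRingEnd ℂ) (f (y + (d.a p.2 - d.a p.1)) * Phi L f o' (y + (d.a p.2 - d.a p.1))) * Phi L f o' y‖ ≤ 1
    rw [norm_mul, RCLike.norm_conj, norm_mul]
    exact mul_le_one₀ (mul_le_one₀ (hf _) (norm_nonneg _) (ih _ _)) (norm_nonneg _) (ih _ _)

/-- **The family `Phi` is adapted.** Proof. Induction on `L`. `[]`: `ξ = 1`. `d :: L`: `ξ = 1`,
`U o' = fun y => conj (f y * Phi L f o' y)` (in `FN N` by `FN.mul`, `FN.star`, `A4_le`), `Φ' = Phi L f`. -/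
theorem A4_ad {N : ℝ} (L : List (Dir G)) (f : G → ℂ) (hf : FN N f) : Ad N L (Phi L f) := by
  induction L with
  | nil => exact ⟨1, by rw [norm_one], fun o y => rfl⟩
  | cons d L ih =>
    refine ⟨fun _ => 1, fun o' y => (starRingEnd ℂ) (f y * Phi L f o' y), Phi L f, fun _ => by rw [norm_one],
      fun o' => (hf.mul (A4_le L f hf.le o')).star, ih, fun o y => ?_⟩
    change (starRingEnd ℂ) (f (y + (d.a o.1.2 - d.a o.1.1)) * Phi L f o.2 (y + (d.a o.1.2 - d.a o.1.1))) *
      Phi L f o.2 y = 1 * (starRingEnd ℂ) (f (y + (d.a o.1.2 - d.a o.1.1)) * Phi L f o.2 (y + (d.a o.1.2 - d.a o.1.1))) *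
      Phi L f o.2 y
    rw [one_mul]

/-- Adapted families are bounded by `1`. Induction on `L`. -/
theorem Ad.le {N : ℝ} {L : List (Dir G)} {Φ : Om L → G → ℂ} (h : Ad N L Φ) (o : Om L) (y : G) : ‖Φ o y‖ ≤ 1 := by
  induction L generalizing y with
  | nil =>
    obtain ⟨ξ, h1, h2⟩ := h
    rw [h2]
    exact h1
  | cons d L ih =>
    obtain ⟨ξ, U, Φ', h1, h2, h3, h4⟩ := h
    rw [h4 o y, norm_mul, norm_mul]
    exact mul_le_one₀ (mul_le_one₀ (h1 o) (norm_nonneg _) ((h2 o.2).le _)) (norm_nonneg _) (ih h3 _ _)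

/-- Multiplication by scalars which depend on the index. `[]`: `Om []` has one element. `d :: L`: multiply `ξ`. -/
theorem Ad.smul {N : ℝ} {L : List (Dir G)} {Φ : Om L → G → ℂ} (h : Ad N L Φ) (ξ : Om L → ℂ) (hξ : ∀ o, ‖ξ o‖ ≤ 1) :
    Ad N L fun o y => ξ o * Φ o y := by
  cases L with
  | nil =>
    obtain ⟨ξ0, h1, h2⟩ := h
    refine ⟨ξ () * ξ0, ?_, fun o y => ?_⟩
    · rw [norm_mul]
      exact mul_le_one₀ (hξ _) (norm_nonneg _) h1
    · exact congrArg (fun z => ξ o * z) (h2 o y)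
  | cons d L =>
    obtain ⟨ξ0, U, Φ', h1, h2, h3, h4⟩ := h
    refine ⟨fun o => ξ o * ξ0 o, U, Φ', fun o => ?_, h2, h3, fun o y => ?_⟩
    · rw [norm_mul]
      exact mul_le_one₀ (hξ _) (norm_nonneg _) (h1 o)
    · refine (congrArg (fun z => ξ o * z) (h4 o y)).trans ?_
      change ξ o * (ξ0 o * U o.2 (y + (d.a o.1.2 - d.a o.1.1)) * Φ' o.2 y) =
        ξ o * ξ0 o * U o.2 (y + (d.a o.1.2 - d.a o.1.1)) * Φ' o.2 y
      ring

/-- Products: induction on `L` (`U o y * V o y`, `FN.mul`). -/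
theorem Ad.mul {N : ℝ} {L : List (Dir G)} {Φ Θ : Om L → G → ℂ} (h : Ad N L Φ) (h' : Ad N L Θ) :
    Ad N L fun o y => Φ o y * Θ o y := by
  induction L with
  | nil =>
    obtain ⟨ξ, h1, h2⟩ := h
    obtain ⟨ζ, h3, h4⟩ := h'
    refine ⟨ξ * ζ, ?_, fun o y => ?_⟩
    · rw [norm_mul]
      exact mul_le_one₀ h1 (norm_nonneg _) h3
    · exact congrArg₂ (fun z w => z * w) (h2 o y) (h4 o y)
  | cons d L ih =>
    obtain ⟨ξ, U, Φ', h1, h2, h3, h4⟩ := h
    obtain ⟨ζ, V, Θ', k1, k2, k3, k4⟩ := h'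
    refine ⟨fun o => ξ o * ζ o, fun o y => U o y * V o y, fun o y => Φ' o y * Θ' o y, fun o => ?_,
      fun o => (h2 o).mul (k2 o).le, ih h3 k3, fun o y => ?_⟩
    · rw [norm_mul]
      exact mul_le_one₀ (h1 o) (norm_nonneg _) (k1 o)
    · refine (congrArg₂ (fun z w => z * w) (h4 o y) (k4 o y)).trans ?_
      change ξ o * U o.2 (y + (d.a o.1.2 - d.a o.1.1)) * Φ' o.2 y *
          (ζ o * V o.2 (y + (d.a o.1.2 - d.a o.1.1)) * Θ' o.2 y) =
        ξ o * ζ o * (U o.2 (y + (d.a o.1.2 - d.a o.1.1)) * V o.2 (y + (d.a o.1.2 - d.a o.1.1))) *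
          (Φ' o.2 y * Θ' o.2 y)
      ring

/-- Translation: induction on `L` (`FN.trans`). -/
theorem Ad.trans {N : ℝ} {L : List (Dir G)} {Φ : Om L → G → ℂ} (h : Ad N L Φ) (c : G) : Ad N L fun o y => Φ o (y + c) := by
  induction L with
  | nil =>
    obtain ⟨ξ, h1, h2⟩ := h
    exact ⟨ξ, h1, fun o y => h2 o (y + c)⟩
  | cons d L ih =>
    obtain ⟨ξ, U, Φ', h1, h2, h3, h4⟩ := h
    refine ⟨ξ, fun o y => U o (y + c), fun o y => Φ' o (y + c), h1, fun o => (h2 o).trans c, ih h3, fun o y => ?_⟩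
    refine (h4 o (y + c)).trans ?_
    change ξ o * U o.2 (y + c + (d.a o.1.2 - d.a o.1.1)) * Φ' o.2 (y + c) =
      ξ o * U o.2 (y + (d.a o.1.2 - d.a o.1.1) + c) * Φ' o.2 (y + c)
    rw [add_right_comm]

/-- Complex conjugation: induction on `L` (`FN.star`). -/
theorem Ad.star {N : ℝ} {L : List (Dir G)} {Φ : Om L → G → ℂ} (h : Ad N L Φ) :
    Ad N L fun o y => (starRingEnd ℂ) (Φ o y) := by
  induction L with
  | nil =>
    obtain ⟨ξ, h1, h2⟩ := h
    refine ⟨(starRingEnd ℂ) ξ, ?_, fun o y => ?_⟩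
    · rw [RCLike.norm_conj]
      exact h1
    · exact congrArg (fun z => (starRingEnd ℂ) z) (h2 o y)
  | cons d L ih =>
    obtain ⟨ξ, U, Φ', h1, h2, h3, h4⟩ := h
    refine ⟨fun o => (starRingEnd ℂ) (ξ o), fun o y => (starRingEnd ℂ) (U o y), fun o y => (starRingEnd ℂ) (Φ' o y),
      fun o => ?_, fun o => (h2 o).star, ih h3, fun o y => ?_⟩
    · rw [RCLike.norm_conj]
      exact h1 o
    · refine (congrArg (fun z => (starRingEnd ℂ) z) (h4 o y)).trans ?_
      change (starRingEnd ℂ) (ξ o * U o.2 (y + (d.a o.1.2 - d.a o.1.1)) * Φ' o.2 y) =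
        (starRingEnd ℂ) (ξ o) * (starRingEnd ℂ) (U o.2 (y + (d.a o.1.2 - d.a o.1.1))) * (starRingEnd ℂ) (Φ' o.2 y)
      rw [map_mul, map_mul]

/-- Differences: `D2 a b Φ_o = (translate by a) * conj (translate by b)`: `Ad.mul`, `Ad.trans`, `Ad.star`. -/
theorem Ad.D2 {N : ℝ} {L : List (Dir G)} {Φ : Om L → G → ℂ} (h : Ad N L Φ) (a b : G) : Ad N L fun o => D2 a b (Φ o) := by
  exact (h.trans a).mul (h.trans b).star

end Pool.Agent.HPP
end

-- from Lib.HPP.A6
section

/-!
# Project HPP, A6 (M): the killing lemma (K)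
-/

open Finset

namespace Pool.Agent.HPP

variable {G : Type} [AddCommGroup G] [Fintype G]

theorem a6_shift (d : Dir G) (L : List (Dir G)) (g : G → ℂ) (ξ : (d.ι × d.ι) × Om L → ℂ)
    (U Φ' : Om L → G → ℂ) (z z' : d.ι) (o : Om L) : (∑ y, g y * (ξ ((z, z'), o) * U o (y + (d.a z' - d.a z)) * Φ' o y)) =
      ∑ w, U o (w + d.a z') * (ξ ((z, z'), o) * g (w + d.a z) * Φ' o (w + d.a z)) := by
  rw [← sum_trans (fun y => g y * (ξ ((z, z'), o) * U o (y + (d.a z' - d.a z)) * Φ' o y)) (d.a z)]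
  refine Finset.sum_congr rfl fun w _ => ?_
  have e : w + d.a z + (d.a z' - d.a z) = w + d.a z' := by abel
  simp only [e]
  ring

theorem a6_T (d : Dir G) (L : List (Dir G)) (g : G → ℂ) (ξ : (d.ι × d.ι) × Om L → ℂ)
    (U Φ' : Om L → G → ℂ) :
    (avc fun o : (d.ι × d.ι) × Om L => ∑ y, g y * (ξ o * U o.2 (y + (d.a o.1.2 - d.a o.1.1)) * Φ' o.2 y)) =
      avc fun t : d.ι × Om L => ∑ w, U t.2 (w + d.a t.1) * avc fun z => ξ ((z, t.1), t.2) * g (w + d.a z) * Φ' t.2 (w + d.a z) := by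
  calc (avc fun o : (d.ι × d.ι) × Om L => ∑ y, g y * (ξ o * U o.2 (y + (d.a o.1.2 - d.a o.1.1)) * Φ' o.2 y))
      = avc fun z : d.ι => avc fun z' : d.ι => avc fun o : Om L => ∑ w, U o (w + d.a z') * (ξ ((z, z'), o) * g (w + d.a z) * Φ' o (w + d.a z)) := by
        rw [avc_prod, avc_prod]
        exact congrArg avc (funext fun z => congrArg avc (funext fun z' => congrArg avc (funext fun o => a6_shift d L g ξ U Φ' z z' o)))
    _ = avc fun z' : d.ι => avc fun o : Om L => avc fun z : d.ι => ∑ w, U o (w + d.a z') * (ξ ((z, z'), o) * g (w + d.a z) * Φ' o (w + d.a z)) := by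
        rw [avc_comm]
        exact congrArg avc (funext fun z' => avc_comm _)
    _ = _ := by
        rw [avc_prod (ι := d.ι) (κ := Om L)]
        refine congrArg avc (funext fun z' => congrArg avc (funext fun o => ?_))
        change _ = ∑ w, U o (w + d.a z') * avc fun z => ξ ((z, z'), o) * g (w + d.a z) * Φ' o (w + d.a z)
        rw [avc_sum]
        simp only [avc_mul_left]

theorem a6_sq (d : Dir G) (L : List (Dir G)) (g : G → ℂ) (ξ : (d.ι × d.ι) × Om L → ℂ) (Φ' : Om L → G → ℂ) (z' : d.ι) (o : Om L) :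
    ((∑ w, ‖avc fun z => ξ ((z, z'), o) * g (w + d.a z) * Φ' o (w + d.a z)‖ ^ 2 : ℝ) : ℂ) = avc fun p : d.ι × d.ι => ∑ w, D2 (d.a p.1) (d.a p.2) g w *
        (ξ ((p.1, z'), o) * (starRingEnd ℂ) (ξ ((p.2, z'), o)) * D2 (d.a p.1) (d.a p.2) (Φ' o) w) := by
  rw [avc_sum, Complex.ofReal_sum]
  refine Finset.sum_congr rfl fun w _ => ?_
  rw [Complex.ofReal_pow, ← Complex.mul_conj', avc_mul_conj]
  refine congrArg avc (funext fun p => ?_)
  simp only [D2, map_mul]
  ring

theorem a6_fin (d : Dir G) (L : List (Dir G)) (g : G → ℂ) (ξ : (d.ι × d.ι) × Om L → ℂ) (Φ' : Om L → G → ℂ) :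
    (av fun t : d.ι × Om L => ∑ w, ‖avc fun z => ξ ((z, t.1), t.2) * g (w + d.a z) * Φ' t.2 (w + d.a z)‖ ^ 2) ≤
      av fun q : d.ι × (d.ι × d.ι) => ‖avc fun o : Om L => ∑ w, D2 (d.a q.2.1) (d.a q.2.2) g w *
        (ξ ((q.2.1, q.1), o) * (starRingEnd ℂ) (ξ ((q.2.2, q.1), o)) * D2 (d.a q.2.1) (d.a q.2.2) (Φ' o) w)‖ := by
  have h6 : ((av fun t : d.ι × Om L => ∑ w, ‖avc fun z => ξ ((z, t.1), t.2) * g (w + d.a z) * Φ' t.2 (w + d.a z)‖ ^ 2 : ℝ) : ℂ) =
      avc fun q : d.ι × (d.ι × d.ι) => avc fun o : Om L => ∑ w, D2 (d.a q.2.1) (d.a q.2.2) g w *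
        (ξ ((q.2.1, q.1), o) * (starRingEnd ℂ) (ξ ((q.2.2, q.1), o)) * D2 (d.a q.2.1) (d.a q.2.2) (Φ' o) w) := by
    rw [av_ofReal, avc_prod, avc_prod (ι := d.ι) (κ := d.ι × d.ι)]
    refine congrArg avc (funext fun z' => ?_)
    refine Eq.trans ?_ (avc_comm _)
    exact congrArg avc (funext fun o => a6_sq d L g ξ Φ' z' o)
  refine (le_abs_self _).trans ?_
  rw [← Real.norm_eq_abs, ← Complex.norm_real, h6]
  exact norm_avc_le _

/-- One step. Proof. For fixed `o : Om L` and `z' = p.2` put `y = w + a z` (`z = p.1`, `sum_trans`):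
`∑_y g y * (ξ U_o (y + (a z' - a z)) Φ'_o y) = ∑_w U_o (w + a z') * (ξ g (w + a z) Φ'_o (w + a z))`. So the left side is
`‖avc_{o, z'} ∑_w U_o (w + a z') * avc_z (ξ ..)‖ ^ 2 ≤ av_{o, z'} ‖∑_w ..‖ ^ 2 ≤ N av_{o, z'} ∑_w ‖avc_z ξ g (w + a z) Φ'_o (w + a z)‖ ^ 2`
(`norm_avc_sq`, `FN.cs`, `FN.trans`) and the square is `avc_{z, z~}` (`avc_mul_conj`) of
`ξ(z, z', o) conj ξ(z~, z', o) * D2 (a z) (a z~) g w * D2 (a z) (a z~) Φ'_o w`; exchange the averages, `norm_avc_le`. -/
theorem A6_step {N : ℝ} (hN : 0 < N) (d : Dir G) (L : List (Dir G)) (g : G → ℂ) (ξ : (d.ι × d.ι) × Om L → ℂ)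
    (U Φ' : Om L → G → ℂ) (hU : ∀ o, FN N (U o)) :
    ‖avc fun o : (d.ι × d.ι) × Om L => ∑ y, g y * (ξ o * U o.2 (y + (d.a o.1.2 - d.a o.1.1)) * Φ' o.2 y)‖ ^ 2 ≤
      N * av fun q : d.ι × (d.ι × d.ι) => ‖avc fun o : Om L => ∑ w, D2 (d.a q.2.1) (d.a q.2.2) g w *
        (ξ ((q.2.1, q.1), o) * (starRingEnd ℂ) (ξ ((q.2.2, q.1), o)) * D2 (d.a q.2.1) (d.a q.2.2) (Φ' o) w)‖ := by
  rw [a6_T]
  refine (norm_avc_sq _).trans ?_
  refine le_trans (av_mono (H := fun t : d.ι × Om L => N * ∑ w, ‖avc fun z => ξ ((z, t.1), t.2) * g (w + d.a z) * Φ' t.2 (w + d.a z)‖ ^ 2)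
    fun t => ((hU t.2).trans (d.a t.1)).cs _) ?_
  rw [av_mul_left]
  exact mul_le_mul_of_nonneg_left (a6_fin d L g ξ Φ') hN.le

/-- **The killing lemma (K).** Proof. Induction on `L`, generalising `g` and `Φ`. `[]`: `Φ = ξ` constant: `‖∑ g ξ‖ ≤ ‖∑ g‖` (`NN_nil`, exponent `1`).
`d :: L`: `A6_step`; for fixed `q = (z', z, z~)` the family `o ↦ ξ ξ' D2 Φ'_o` is adapted (`Ad.D2`, `Ad.smul`) and `D2 g ∈ FN N`: the
induction hypothesis. With `x = ‖..‖ / N`, `m = 2 ^ L.length`: `x ^ (2 m) ≤ (av_q ‖..‖ / N) ^ m ≤ av_q (‖..‖ / N) ^ m ≤ av_q NN L (D2 g) / N`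
(`av_pow`), and `av_q` over `(z', (z, z~))` of a function of `(z, z~)` is `NN (d :: L) g / N` (`av_prod`, `av_const`, `NN_cons`). -/
theorem A6_kill {N : ℝ} (hN : 0 < N) : ∀ (L : List (Dir G)) (g : G → ℂ), FN N g → ∀ Φ : Om L → G → ℂ, Ad N L Φ →
    (‖avc fun o : Om L => ∑ y, g y * Φ o y‖ / N) ^ (2 ^ L.length) ≤ NN L g / N := by
  intro L
  induction L with
  | nil =>
    rintro g hg Φ ⟨ξ, hξ, e⟩
    have h1 : (avc fun o : Om ([] : List (Dir G)) => ∑ y, g y * Φ o y) = (∑ y, g y) * ξ := by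
      simp only [e, ← Finset.sum_mul]
      exact avc_const _
    rw [h1, NN_nil, List.length_nil, pow_zero, pow_one, norm_mul]
    exact div_le_div_of_nonneg_right (mul_le_of_le_one_right (norm_nonneg _) hξ) hN.le
  | cons d L ih =>
    rintro g hg Φ ⟨ξ, U, Φ', hξ, hU, hΦ', e⟩
    have h0 : (avc fun o : Om (d :: L) => ∑ y, g y * Φ o y) =
        avc fun o : (d.ι × d.ι) × Om L => ∑ y, g y * (ξ o * U o.2 (y + (d.a o.1.2 - d.a o.1.1)) * Φ' o.2 y) := by
      exact congrArg avc (funext fun o => Finset.sum_congr rfl fun y _ => congrArg (fun x => g y * x) (e o y))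
    rw [h0]
    have h1 := A6_step hN d L g ξ U Φ' hU
    obtain ⟨X, hX⟩ : ∃ X : ℝ, X = ‖avc fun o : (d.ι × d.ι) × Om L => ∑ y, g y * (ξ o * U o.2 (y + (d.a o.1.2 - d.a o.1.1)) * Φ' o.2 y)‖ := ⟨_, rfl⟩
    rw [← hX] at h1 ⊢
    have hX0 : 0 ≤ X := by
      rw [hX]
      exact norm_nonneg _
    let Z : d.ι × (d.ι × d.ι) → ℝ := fun q => ‖avc fun o : Om L => ∑ w, D2 (d.a q.2.1) (d.a q.2.2) g w *
        (ξ ((q.2.1, q.1), o) * (starRingEnd ℂ) (ξ ((q.2.2, q.1), o)) * D2 (d.a q.2.1) (d.a q.2.2) (Φ' o) w)‖ / N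
    have hZ0 : ∀ q, 0 ≤ Z q := fun q => div_nonneg (norm_nonneg _) hN.le
    have h2 : (X / N) ^ 2 ≤ av Z := by
      have h3 : av Z = (N * av fun q : d.ι × (d.ι × d.ι) => ‖avc fun o : Om L => ∑ w, D2 (d.a q.2.1) (d.a q.2.2) g w *
        (ξ ((q.2.1, q.1), o) * (starRingEnd ℂ) (ξ ((q.2.2, q.1), o)) * D2 (d.a q.2.1) (d.a q.2.2) (Φ' o) w)‖) / N ^ 2 := by
        rw [show av Z = _ from av_div N _]
        field_simp
      rw [h3, div_pow]
      exact div_le_div_of_nonneg_right h1 (by positivity)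
    have h4 : ∀ q, Z q ^ (2 ^ L.length) ≤ NN L (D2 (d.a q.2.1) (d.a q.2.2) g) / N := by
      intro q
      refine ih (D2 (d.a q.2.1) (d.a q.2.2) g) (hg.D2 _ _) (fun o w => ξ ((q.2.1, q.1), o) * (starRingEnd ℂ) (ξ ((q.2.2, q.1), o)) *
        D2 (d.a q.2.1) (d.a q.2.2) (Φ' o) w) ?_
      refine (hΦ'.D2 (d.a q.2.1) (d.a q.2.2)).smul (fun o => ξ ((q.2.1, q.1), o) * (starRingEnd ℂ) (ξ ((q.2.2, q.1), o))) fun o => ?_
      rw [norm_mul, RCLike.norm_conj]
      exact mul_le_one₀ (hξ _) (norm_nonneg _) (hξ _)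
    calc (X / N) ^ 2 ^ (d :: L).length = ((X / N) ^ 2) ^ (2 ^ L.length) := by
          rw [List.length_cons, ← pow_mul, pow_succ']
      _ ≤ (av Z) ^ (2 ^ L.length) := pow_le_pow_left₀ (sq_nonneg _) h2 _
      _ ≤ av fun q => Z q ^ (2 ^ L.length) := av_pow _ hZ0
      _ ≤ av fun q : d.ι × (d.ι × d.ι) => NN L (D2 (d.a q.2.1) (d.a q.2.2) g) / N := av_mono h4
      _ = NN (d :: L) g / N := by
          rw [av_div, NN_cons, av_prod]
          exact congrArg (fun x => x / N) (av_const (ι := d.ι) (av fun p : d.ι × d.ι => NN L (D2 (d.a p.1) (d.a p.2) g)))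

end Pool.Agent.HPP
end

-- from Lib.HPP.A5
section

/-!
# Project HPP, A5 (S/M): appended lists of directions
-/

open Finset

namespace Pool.Agent.HPP

/-- The two parts of an index of an appended list. -/
def omSplit {G : Type} : (L L' : List (Dir G)) → Om (L ++ L') → Om L × Om L'
  | [], _, o => ((), o)
  | _ :: L, L', o => ((o.1, (omSplit L L' o.2).1), (omSplit L L' o.2).2)

variable {G : Type}

theorem a5_cons (d : Dir G) (L : List (Dir G)) (F : (d.ι × d.ι) × Om L → ℂ) :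
    avc (ι := Om (d :: L)) F = avc fun p : d.ι × d.ι => avc fun o : Om L => F (p, o) := avc_prod F

/-- Averages over `Om (L ++ L')`: induction on `L` (`avc_Om_cons`; `Om (d :: L ++ L')` is the product of `d.ι × d.ι` and `Om (L ++ L')`). -/
theorem avc_split (L L' : List (Dir G)) (F : Om L × Om L' → ℂ) :
    (avc fun o : Om (L ++ L') => F (omSplit L L' o)) = avc fun o : Om L => avc fun o' : Om L' => F (o, o') := by
  induction L with
  | nil => exact (avc_const (ι := Om ([] : List (Dir G))) (avc fun o' : Om L' => F ((), o'))).symm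
  | cons d L ih =>
    have h1 := a5_cons d (L ++ L') (fun o => F (omSplit (d :: L) L' o))
    have h2 := a5_cons d L (fun o => avc fun o' : Om L' => F (o, o'))
    have h3 : ∀ p : d.ι × d.ι, (avc fun o : Om (L ++ L') => F ((p, (omSplit L L' o).1), (omSplit L L' o).2)) =
        avc fun o : Om L => avc fun o' : Om L' => F ((p, o), o') := fun p => ih (fun q => F ((p, q.1), q.2))
    refine h1.trans (Eq.trans ?_ h2.symm)
    have h4 : (fun p : d.ι × d.ι => avc fun o : Om (L ++ L') => F ((p, (omSplit L L' o).1), (omSplit L L' o).2)) =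
        fun p => avc fun o : Om L => avc fun o' : Om L' => F ((p, o), o') := funext h3
    exact congrArg avc h4

/-- **Products of adapted families in independent indices are adapted.** Induction on `L`. `[]`: `Φ = ξ` constant, `Ad.smul`.
`d :: L`: `ξ` and `U` are those of `Φ` (with the part `(omSplit ..).1` of the index), `Φ'` the product of `Φ'` and `Θ` by the induction
hypothesis. -/
theorem A5_append [AddCommGroup G] {N : ℝ} (L L' : List (Dir G)) {Φ : Om L → G → ℂ} {Θ : Om L' → G → ℂ} (h : Ad N L Φ)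
    (h' : Ad N L' Θ) : Ad N (L ++ L') fun o y => Φ (omSplit L L' o).1 y * Θ (omSplit L L' o).2 y := by
  induction L with
  | nil =>
    obtain ⟨ξ, hξ, hΦ⟩ := h
    have h1 := h'.smul (fun _ => ξ) (fun _ => hξ)
    have h2 : (fun (o : Om ([] ++ L')) y => Φ (omSplit [] L' o).1 y * Θ (omSplit [] L' o).2 y) =
        fun (o : Om L') y => ξ * Θ o y := by
      funext o y
      rw [hΦ]
      rfl
    rw [h2]
    exact h1
  | cons d L ih =>
    obtain ⟨ξ, U, Φ', hξ, hU, hΦ', hΦ⟩ := h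
    refine ⟨fun o => ξ (o.1, (omSplit L L' o.2).1), fun o => U (omSplit L L' o).1,
      fun o y => Φ' (omSplit L L' o).1 y * Θ (omSplit L L' o).2 y, fun o => hξ _, fun o => hU _, ih hΦ', ?_⟩
    intro o y
    have h1 := hΦ (o.1, (omSplit L L' o.2).1) y
    show Φ (o.1, (omSplit L L' o.2).1) y * Θ (omSplit L L' o.2).2 y = _
    rw [h1]
    ring

end Pool.Agent.HPP
end

-- from Lib.HPP.B3
section

/-!
# Project HPP, B3 (M): elimination of one class
-/

open Finset Polynomial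

namespace Pool.Agent.HPP

/-- A product of functions of a nonempty family. -/
theorem b3_prod {M : ℕ} (N : ℝ) (L : Fam M) (hne : L ≠ []) (h : ∀ p ∈ L, FN N p.1) :
    FN N fun y : ZMod M => (L.map fun p => p.1 y).prod := by
  cases L with
  | nil => exact absurd rfl hne
  | cons p L =>
    have h1 : ∀ y : ZMod M, ‖(L.map fun p => p.1 y).prod‖ ≤ 1 := by
      intro y
      have h2 : ∀ q ∈ L, FN N q.1 := fun q hq => h q (List.mem_cons_of_mem _ hq)
      clear h hne
      induction L with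
      | nil => simp
      | cons q L ih =>
        rw [List.map_cons, List.prod_cons, norm_mul]
        have h3 := (h2 q (by simp)).le y
        have h4 := ih fun a ha => h2 a (List.mem_cons_of_mem _ ha)
        calc ‖q.1 y‖ * ‖(L.map fun p => p.1 y).prod‖ ≤ 1 * 1 := mul_le_mul h3 h4 (norm_nonneg _) zero_le_one
          _ = 1 := one_mul 1
    have h5 := (h p (by simp)).mul h1
    simpa using h5

theorem b3_mem {α β : Type*} {R : α → β → Prop} {a : List α} {b : List β} (h : List.Forall₂ R a b) :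
    ∀ x ∈ a, ∃ y, R x y := by
  induction h with
  | nil => intro x hx; simp at hx
  | cons h1 _ ih =>
    intro x hx
    rw [List.mem_cons] at hx
    rcases hx with rfl | hx
    · exact ⟨_, h1⟩
    · exact ih x hx

theorem b3_forall (d : ℕ) (r : ℤ) (P : ℤ[X]) (hP : PD (d + 1) r P) : ∀ (l : List ℤ) (v : List ℤ[X]), l.length = v.length →
    (∀ p ∈ l.zip v, PD d 0 p.2) →
    List.Forall₂ (fun h w => PW (d + 1) h r w) l (List.zipWith (fun h w => w - (taylor h P - P)) l v) := by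
  intro l
  induction l with
  | nil => intro v _ _; exact List.Forall₂.nil
  | cons h l ih =>
    intro v hv hp
    cases v with
    | nil => simp at hv
    | cons w v =>
      rw [List.zipWith_cons_cons]
      refine List.Forall₂.cons ?_ (ih v (by simpa using hv) fun p hp' => hp p (by rw [List.zip_cons_cons]; exact List.mem_cons_of_mem _ hp'))
      have h1 : PD d 0 w := hp (h, w) (by simp)
      have h2 := h1.sub (hP.delta h)
      rw [zero_sub] at h2
      exact h2

theorem b3_EL {M : ℕ} (P : ℤ[X]) : ∀ (l : List ℤ) (v : List ℤ[X]) (A : ZMod M → ℤ → ℂ),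
    EL (l.zip v) (fun t n => A (t - ((P.eval n : ℤ) : ZMod M)) n) =
      fun t n => EL (l.zip (List.zipWith (fun h w => w - (taylor h P - P)) l v)) A (t - ((P.eval n : ℤ) : ZMod M)) n := by
  intro l
  induction l with
  | nil => intro v A; rfl
  | cons h l ih =>
    intro v A
    cases v with
    | nil => rfl
    | cons w v =>
      rw [List.zipWith_cons_cons, List.zip_cons_cons, List.zip_cons_cons]
      show EL (l.zip v) (EO h w (fun t n => A (t - ((P.eval n : ℤ) : ZMod M)) n)) = _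
      rw [EO_rec, ih v (EO h (w - (taylor h P - P)) A)]
      rfl

/-- An empty class: no step. -/
theorem B3_nil (d : ℕ) : KC d 0 0 := by
  intro M _ X N hX hN r L hL hC A hA
  refine ⟨fun _ => [], fun l hl => ?_, ?_⟩
  · rw [List.length_eq_zero_iff] at hl
    subst hl
    exact List.Forall₂.nil
  · rw [List.length_eq_zero_iff] at hL
    subst hL
    rw [AL_zero]
    have h1 : (fun (t : ZMod M) (n : ℤ) => A t n * pr ([] : Fam M) t n) = A := by
      funext t n
      simp [pr]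
    rw [h1]
    simp [EL]

/-- **Constants**: `s + 1` functions `f_j(t + r)`: their product is a function `F(t + r)`, `F = ∏ f_j ∈ FN N`; `B1_step` with the polynomial
`C r` (`taylor h (C r) = C r`, so the polynomial `-(..)` is `0`). One step. -/
theorem B3_zero (s : ℕ) : KC 0 (s + 1) 1 := by
  intro M _ X N hX hN r L hL hC A hA
  have hne : L ≠ [] := by
    intro h
    rw [h] at hL
    simp at hL
  have hF := b3_prod N L hne fun p hp => (hC p hp).1
  have hpr : (fun (t : ZMod M) (n : ℤ) => A t n * pr L t n) =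
      fun t n => A t n * (fun y : ZMod M => (L.map fun p => p.1 y).prod) (t + (((C r : ℤ[X]).eval n : ℤ) : ZMod M)) := by
    funext t n
    have h1 : pr L t n = (L.map fun p => p.1 (t + (((C r : ℤ[X]).eval n : ℤ) : ZMod M))).prod := by
      unfold pr
      congr 1
      apply List.map_congr_left
      intro p hp
      rw [(hC p hp).2.const n, eval_C]
    rw [h1]
  have hstep := B1_step M X N hX hN (fun y : ZMod M => (L.map fun p => p.1 y).prod) hF (C r) A hA
  refine ⟨fun l => l.map fun _ => 0, fun l hl => ?_, ?_⟩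
  · clear hl
    induction l with
    | nil => exact List.Forall₂.nil
    | cons h l ih => exact List.Forall₂.cons rfl ih
  · rw [AL_succ]
    simp only [AL_zero]
    rw [hpr]
    have h2 : ∀ h : Iv X, -(taylor (h : ℤ) (C r : ℤ[X]) - C r) = 0 := by
      intro h
      rw [taylor_C, sub_self, neg_zero]
    simp only [h2] at hstep
    have h3 : (3 : ℝ) ^ (2 ^ 1 - 1) = 3 := by norm_num
    rw [h3]
    exact hstep

/-- **The step in the degree.** `L = p0 :: L'`, `P = p0.2`. `A~(t, n) = A(t - P(n), n)`; by `SS_rec` the sum is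
`SS X (A~ * ∏_j f_j(t + (R_j - P)(n)))`. Every `R_j - P` is `PD (d + 1) 0`, hence `PD d (its coefficient)` (`PD.sub`, `PD.down`): classes with one
element each (`C = L.map fun p => ((p.2 - P).coeff d, [(p.1, p.2 - P)])`, sizes `replicate (s + 1) 1`). The hypothesis gives `W~`; put
`W l = zipWith (fun h w => w - (taylor h P - P)) l (W~ l)`: `PD d 0 w` (`PW.pd`) minus `PD d ((d+1) h r)` (`PD.delta`). `EO_rec` along the list
(induction) and `SS_rec`. -/
theorem B3_succ (d s : ℕ) (lab : List ℕ) (h : KF d (List.replicate (s + 1) 1) lab) : KC (d + 1) (s + 1) lab.length := by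
  intro M _ X N hX hN r L hL hC A hA
  cases L with
  | nil => simp at hL
  | cons p0 L' =>
    have hP : PD (d + 1) r p0.2 := (hC p0 (by simp)).2
    -- the recentered bystander
    have hpd : ∀ p ∈ p0 :: L', PD d ((p.2 - p0.2).coeff d) (p.2 - p0.2) := by
      intro p hp
      have h1 := PD.sub (hC p hp).2 hP
      rw [sub_self] at h1
      exact h1.down
    have hAn : Vn X fun t n => A (t - ((p0.2.eval n : ℤ) : ZMod M)) n := by
      intro t n hn
      exact hA _ _ hn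
    obtain ⟨W, hW1, hW2⟩ := h M X N hX hN
      ((p0 :: L').map fun p => ((p.2 - p0.2).coeff d, [(p.1, p.2 - p0.2)]))
      (by
        rw [List.map_map]
        have h1 : ((fun c : ℤ × Fam M => c.2.length) ∘ fun p : (ZMod M → ℂ) × ℤ[X] => ((p.2 - p0.2).coeff d, [(p.1, p.2 - p0.2)])) =
            fun _ => 1 := by
          funext p
          rfl
        rw [h1, List.map_const', hL])
      (by
        intro c hc
        rw [List.mem_map] at hc
        obtain ⟨p, hp, rfl⟩ := hc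
        intro q hq
        simp only [List.mem_singleton] at hq
        subst hq
        exact ⟨(hC p hp).1, hpd p hp⟩)
      (fun t n => A (t - ((p0.2.eval n : ℤ) : ZMod M)) n) hAn
    refine ⟨fun l => List.zipWith (fun h w => w - (taylor h p0.2 - p0.2)) l (W l), fun l hl => ?_, ?_⟩
    · obtain ⟨h1, h2⟩ := hW1 l hl
      refine b3_forall d r p0.2 hP l (W l) (by rw [hl, h1]) fun p hp => ?_
      obtain ⟨k, hk⟩ := b3_mem h2 p hp
      exact hk.pd
    · have h1 : SS X (fun t n => A t n * pr (p0 :: L') t n) = SS X (fun t n => A (t - ((p0.2.eval n : ℤ) : ZMod M)) n *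
          (((p0 :: L').map fun p => ((p.2 - p0.2).coeff d, [(p.1, p.2 - p0.2)])).map fun c => pr c.2 t n).prod) := by
        rw [← SS_rec X p0.2 (fun t n => A t n * pr (p0 :: L') t n)]
        congr 1
        funext t n
        congr 1
        rw [List.map_map]
        unfold pr
        congr 1
        apply List.map_congr_left
        intro p _
        have h3 : t - ((p0.2.eval n : ℤ) : ZMod M) + ((p.2.eval n : ℤ) : ZMod M) = t + (((p.2 - p0.2).eval n : ℤ) : ZMod M) := by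
          rw [eval_sub]
          push_cast
          ring
        rw [h3]
        simp
      rw [h1]
      refine hW2.trans (le_of_eq ?_)
      congr 1
      apply AL_congr
      intro l _
      rw [b3_EL p0.2 l (W l) A, SS_rec]

end Pool.Agent.HPP
end

-- from Lib.HPP.B4
section

/-!
# Project HPP, B4 (M/L): elimination of several classes
-/

open Finset Polynomial

namespace Pool.Agent.HPP

/-- No class. -/
theorem B4_nil (d : ℕ) : KF d [] [] := by
  intro M _ X N hX hN C hC hcls A hA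
  have hC0 : C = [] := List.map_eq_nil_iff.1 hC
  subst hC0
  refine ⟨fun _ => [], ?_, ?_⟩
  · intro l hl
    have hl0 : l = [] := List.length_eq_zero_iff.1 hl
    subst hl0
    exact ⟨rfl, List.Forall₂.nil⟩
  · simp only [List.length_nil, AL_zero, List.zip_nil_right, List.map_nil, List.prod_nil, mul_one, EL, pow_zero, pow_one, tsub_self,
      one_mul]
    exact le_refl _

/-- The operators on a bystander times several families. -/
theorem b4_EL {M : ℕ} (l : List (ℤ × ℤ[X])) (A : ZMod M → ℤ → ℂ) : ∀ C : List (ℤ × Fam M),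
    EL l (fun t n => A t n * (C.map fun c => pr c.2 t n).prod) =
      fun t n => EL l A t n * ((C.map fun c => ((c.1, XL l c.2) : ℤ × Fam M)).map fun c => pr c.2 t n).prod
  | [] => by
    simp only [List.map_nil, List.prod_nil, mul_one]
  | c :: C => by
    have h : (fun t n => A t n * ((c :: C).map fun c => pr c.2 t n).prod) =
        fun t n => (A t n * (C.map fun c => pr c.2 t n).prod) * pr c.2 t n := by
      funext t n
      rw [List.map_cons, List.prod_cons]
      ring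
    rw [h, EL_mul l (fun t n => A t n * (C.map fun c => pr c.2 t n).prod) (pr c.2), b4_EL l A C, EL_pr]
    funext t n
    simp only [List.map_cons, List.prod_cons]
    ring

theorem b4_rep {α β : Type*} {R : α → β → Prop} {S : α × β → ℕ → Prop} {l : List α} {w : List β} (h : List.Forall₂ R l w)
    (hRS : ∀ a b, R a b → S (a, b) 0) : List.Forall₂ S (l.zip w) (List.replicate l.length 0) := by
  induction h with
  | nil => exact List.Forall₂.nil
  | cons h1 _ ih =>
    rw [List.zip_cons_cons, List.length_cons, List.replicate_succ]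
    exact List.Forall₂.cons (hRS _ _ h1) ih

theorem b4_zip {d : ℕ} {r : ℤ} {l : List ℤ} {w : List ℤ[X]} (h : List.Forall₂ (fun h w => PW d h r w) l w) :
    ∀ p ∈ l.zip w, PD d 0 p.2 := by
  induction h with
  | nil => intro p hp; exact absurd hp (List.not_mem_nil)
  | cons h1 _ ih =>
    intro p hp
    rw [List.zip_cons_cons, List.mem_cons] at hp
    rcases hp with rfl | hp
    · exact PW.pd h1
    · exact ih p hp

theorem b4_exp (a b : ℕ) : (2 ^ a - 1) * 2 ^ b + (2 ^ b - 1) = 2 ^ (a + b) - 1 := by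
  have h1 : 1 ≤ 2 ^ a := Nat.one_le_two_pow
  have h2 : 1 ≤ 2 ^ b := Nat.one_le_two_pow
  rw [pow_add, Nat.sub_mul, one_mul]
  have h3 : 2 ^ b ≤ 2 ^ a * 2 ^ b := Nat.le_mul_of_pos_left _ (by positivity)
  omega

/-- **One more class.** `C = (r, L) :: C'`. `KC` for `L` with the bystander `A' = A * ∏_{c ∈ C'} pr c.2` (`Vn`): `ρ` steps with polynomials `W1 l1`,
all `PW d h r`. `EL (l1.zip (W1 l1)) A' = EL .. A * ∏ pr (XL .. c.2)` (`EL_mul`, `EL_pr`, induction on the list `C'`), the classes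
`(c.1, XL .. c.2)` have the sizes `(c.2.length) * 2 ^ ρ` (`XL_length`) and are classes (`XL_cls`, `PW.pd`). For every `l1` of length `ρ` `KF` for
them with the bystander `EL (l1.zip (W1 l1)) A` gives `W2 l1` (`choose`). `W l = W1 (l.take ρ) ++ W2 (l.take ρ) (l.drop ρ)`,
labels `replicate ρ 0 ++ lab.map (· + 1)`; `List.zip_append`, `EL_append`, `AL_add`, `AL_congr`. Exponents: with `x = ‖SS‖ / (N X)`, `m = 2 ^ lab.length`:
`x ^ (2 ^ ρ m) ≤ (3 ^ (2 ^ ρ - 1) AL_1 y_l) ^ m ≤ 3 ^ ((2 ^ ρ - 1) m) AL_1 (y_l ^ m) ≤ 3 ^ ((2 ^ ρ - 1) m + m - 1) AL ..` (`AL_pow`). -/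
theorem B4_cons (d s ρ : ℕ) (sz lab : List ℕ) (h1 : KC d s ρ) (h2 : KF d (sz.map fun x => x * 2 ^ ρ) lab) :
    KF d (s :: sz) (List.replicate ρ 0 ++ lab.map (· + 1)) := by
  intro M _ X N hX hN C hC hcls A hA
  cases C with
  | nil => exact absurd hC (by simp)
  | cons c0 C =>
  rw [List.map_cons, List.cons.injEq] at hC
  obtain ⟨hs, hsz⟩ := hC
  have hNX : (0 : ℝ) < N * X := mul_pos hN (Nat.cast_pos.2 hX)
  have hc0 : Cls N d c0.1 c0.2 := hcls c0 List.mem_cons_self
  have hcC : ∀ c ∈ C, Cls N d c.1 c.2 := fun c hc => hcls c (List.mem_cons_of_mem _ hc)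
  have hA' : Vn X (fun t n => A t n * (C.map fun c => pr c.2 t n).prod) := by
    intro t n hn
    show A t n * _ = 0
    rw [hA t n hn, zero_mul]
  obtain ⟨W1, hW1, hin1⟩ := h1 M X N hX hN c0.1 c0.2 hs hc0 _ hA'
  have key : ∀ l1 : List ℤ, ∃ W2 : List ℤ → List ℤ[X], l1.length = ρ →
      (∀ l : List ℤ, l.length = lab.length → (W2 l).length = lab.length ∧
        List.Forall₂ (fun (p : ℤ × ℤ[X]) (k : ℕ) => PW d p.1 ((C.map Prod.fst).getD k 0) p.2) (l.zip (W2 l)) lab) ∧
      (‖SS X (EL (l1.zip (W1 l1)) fun t n => A t n * (C.map fun c => pr c.2 t n).prod)‖ / (N * X)) ^ (2 ^ lab.length) ≤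
        3 ^ (2 ^ lab.length - 1) * AL X lab.length fun l => ‖SS X (EL (l.zip (W2 l)) (EL (l1.zip (W1 l1)) A))‖ / (N * X) := by
    intro l1
    by_cases hl1 : l1.length = ρ
    · have hf := hW1 l1 hl1
      have hlen : (l1.zip (W1 l1)).length = ρ := by
        rw [List.length_zip, ← hf.length_eq, min_self, hl1]
      obtain ⟨W2, hW2, hin2⟩ := h2 M X N hX hN (C.map fun c => ((c.1, XL (l1.zip (W1 l1)) c.2) : ℤ × Fam M))
        (by
          rw [List.map_map, ← hsz, List.map_map]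
          refine List.map_congr_left fun c _ => ?_
          show (XL (l1.zip (W1 l1)) c.2).length = c.2.length * 2 ^ ρ
          rw [XL_length, hlen])
        (by
          intro c hc
          obtain ⟨c', hc', rfl⟩ := List.mem_map.1 hc
          exact XL_cls _ (b4_zip hf) _ (hcC c' hc'))
        (EL (l1.zip (W1 l1)) A) (EL_vn _ hA)
      refine ⟨W2, fun _ => ⟨?_, ?_⟩⟩
      · intro l hl
        have h := hW2 l hl
        rw [List.map_map] at h
        exact h
      · rw [b4_EL]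
        exact hin2
    · exact ⟨fun _ => [], fun h => absurd h hl1⟩
  choose W2 hW2 using key
  refine ⟨fun l => W1 (l.take ρ) ++ W2 (l.take ρ) (l.drop ρ), ?_, ?_⟩
  · intro l hl
    have hl' : l.length = ρ + lab.length := by
      rw [hl, List.length_append, List.length_replicate, List.length_map]
    have ht : (l.take ρ).length = ρ := by
      rw [List.length_take, hl']
      exact min_eq_left (Nat.le_add_right _ _)
    have hd : (l.drop ρ).length = lab.length := by
      rw [List.length_drop, hl']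
      exact Nat.add_sub_cancel_left _ _
    have hf := hW1 _ ht
    obtain ⟨hl2, hf2⟩ := (hW2 _ ht).1 _ hd
    refine ⟨?_, ?_⟩
    · show (W1 (l.take ρ) ++ W2 (l.take ρ) (l.drop ρ)).length = _
      rw [List.length_append, hl2, ← hf.length_eq, ht, List.length_append, List.length_replicate, List.length_map]
    · show List.Forall₂ _ (l.zip (W1 (l.take ρ) ++ W2 (l.take ρ) (l.drop ρ))) _
      have hz : l.zip (W1 (l.take ρ) ++ W2 (l.take ρ) (l.drop ρ)) =
          (l.take ρ).zip (W1 (l.take ρ)) ++ (l.drop ρ).zip (W2 (l.take ρ) (l.drop ρ)) := by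
        rw [← List.zip_append hf.length_eq, List.take_append_drop]
      rw [hz]
      refine List.rel_append ?_ ?_
      · have h := b4_rep (S := fun (p : ℤ × ℤ[X]) (k : ℕ) => PW d p.1 (((c0 :: C).map Prod.fst).getD k 0) p.2) hf (fun a b hab => hab)
        rw [ht] at h
        exact h
      · rw [List.forall₂_map_right_iff]
        exact hf2
  · have hfun : (fun t n => A t n * ((c0 :: C).map fun c => pr c.2 t n).prod) =
        fun t n => (A t n * (C.map fun c => pr c.2 t n).prod) * pr c0.2 t n := by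
      funext t n
      rw [List.map_cons, List.prod_cons]
      ring
    rw [hfun]
    have hlen : (List.replicate ρ 0 ++ lab.map (· + 1)).length = ρ + lab.length := by
      rw [List.length_append, List.length_replicate, List.length_map]
    rw [hlen, AL_add, pow_add, pow_mul]
    have hy : ∀ l1 : List ℤ, (0 : ℝ) ≤
        ‖SS X (EL (l1.zip (W1 l1)) fun t n => A t n * (C.map fun c => pr c.2 t n).prod)‖ / (N * X) := fun l1 => by positivity
    have hstep : (AL X ρ fun l1 => (‖SS X (EL (l1.zip (W1 l1)) fun t n => A t n * (C.map fun c => pr c.2 t n).prod)‖ / (N * X)) ^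
        (2 ^ lab.length)) ≤ 3 ^ (2 ^ lab.length - 1) * AL X ρ fun l1 => AL X lab.length fun l2 =>
          ‖SS X (EL ((l1 ++ l2).zip (W1 ((l1 ++ l2).take ρ) ++ W2 ((l1 ++ l2).take ρ) ((l1 ++ l2).drop ρ))) A)‖ / (N * X) := by
      rw [← AL_mul_left]
      refine AL_mono X ρ fun l1 hl1 => ?_
      refine ((hW2 l1 hl1).2).trans (le_of_eq ?_)
      congr 1
      refine AL_congr X lab.length fun l2 hl2 => ?_
      have e1 : (l1 ++ l2).take ρ = l1 := by rw [← hl1]; exact List.take_left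
      have e2 : (l1 ++ l2).drop ρ = l2 := by rw [← hl1]; exact List.drop_left
      rw [e1, e2, List.zip_append (hW1 l1 hl1).length_eq, EL_append]
    calc _ ≤ (3 ^ (2 ^ ρ - 1) * AL X ρ fun l => ‖SS X (EL (l.zip (W1 l)) fun t n => A t n * (C.map fun c => pr c.2 t n).prod)‖ / (N * X)) ^
          (2 ^ lab.length) := pow_le_pow_left₀ (by positivity) hin1 _
      _ = 3 ^ ((2 ^ ρ - 1) * 2 ^ lab.length) * (AL X ρ fun l => ‖SS X (EL (l.zip (W1 l))
          fun t n => A t n * (C.map fun c => pr c.2 t n).prod)‖ / (N * X)) ^ (2 ^ lab.length) := by rw [mul_pow, ← pow_mul]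
      _ ≤ 3 ^ ((2 ^ ρ - 1) * 2 ^ lab.length) * (3 ^ (2 ^ lab.length - 1) * AL X ρ fun l1 => AL X lab.length fun l2 =>
          ‖SS X (EL ((l1 ++ l2).zip (W1 ((l1 ++ l2).take ρ) ++ W2 ((l1 ++ l2).take ρ) ((l1 ++ l2).drop ρ))) A)‖ / (N * X)) := by
        refine mul_le_mul_of_nonneg_left ?_ (by positivity)
        exact (AL_pow X ρ _ hy).trans hstep
      _ = _ := by
        rw [← mul_assoc, ← pow_add, b4_exp]
        rw [← pow_add]

/-- From one class to several classes. -/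
theorem b4_KF (d : ℕ) (h : ∀ s : ℕ, ∃ ρ : ℕ, KC d s ρ) : ∀ (n : ℕ) (sz : List ℕ), sz.length = n →
    ∃ lab : List ℕ, (∀ k ∈ lab, k < sz.length) ∧ KF d sz lab := by
  intro n
  induction n with
  | zero =>
    intro sz hsz
    have h0 : sz = [] := List.length_eq_zero_iff.1 hsz
    subst h0
    exact ⟨[], fun k hk => absurd hk List.not_mem_nil, B4_nil d⟩
  | succ n ih =>
    intro sz hsz
    cases sz with
    | nil => exact absurd hsz (by simp)
    | cons s sz =>
      obtain ⟨ρ, hρ⟩ := h s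
      obtain ⟨lab, hlab, hKF⟩ := ih (sz.map fun x => x * 2 ^ ρ) (by
        rw [List.length_map]
        rw [List.length_cons] at hsz
        omega)
      refine ⟨List.replicate ρ 0 ++ lab.map (· + 1), ?_, B4_cons d s ρ sz lab hρ hKF⟩
      intro k hk
      rw [List.length_cons]
      rcases List.mem_append.1 hk with hk | hk
      · rw [List.eq_of_mem_replicate hk]
        exact Nat.succ_pos _
      · obtain ⟨k', hk', rfl⟩ := List.mem_map.1 hk
        have h3 := hlab k' hk'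
        rw [List.length_map] at h3
        exact Nat.succ_lt_succ h3

/-- **Everything can be eliminated.** Induction on `d`. `KC 0`: `B3_nil`, `B3_zero`. `KF d` from `KC d` (all sizes): induction on the list of
the sizes (for all lists of the same length; `B4_nil`, `B4_cons`; the labels stay below the length). `KC (d + 1)` from `KF d`: `B3_nil`, `B3_succ`. -/
theorem B4_all (d : ℕ) : (∀ s : ℕ, ∃ ρ : ℕ, KC d s ρ) ∧
    ∀ sz : List ℕ, ∃ lab : List ℕ, (∀ k ∈ lab, k < sz.length) ∧ KF d sz lab := by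
  induction d with
  | zero =>
    have h : ∀ s : ℕ, ∃ ρ : ℕ, KC 0 s ρ := by
      intro s
      cases s with
      | zero => exact ⟨0, B3_nil 0⟩
      | succ s => exact ⟨1, B3_zero s⟩
    exact ⟨h, fun sz => b4_KF 0 h _ sz rfl⟩
  | succ d ih =>
    have h : ∀ s : ℕ, ∃ ρ : ℕ, KC (d + 1) s ρ := by
      intro s
      cases s with
      | zero => exact ⟨0, B3_nil (d + 1)⟩
      | succ s =>
        obtain ⟨lab, _, hKF⟩ := ih.2 (List.replicate (s + 1) 1)
        exact ⟨lab.length, B3_succ d s lab hKF⟩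
    exact ⟨h, fun sz => b4_KF (d + 1) h _ sz rfl⟩

end Pool.Agent.HPP
end

-- from Lib.HPP.A8
section

/-!
# Project HPP, A8 (S): common directions; Fourier transforms of directions
-/

open Finset

namespace Pool.Agent.HPP

variable {G : Type} [AddCommGroup G] [Fintype G]

/-- **Common directions.** If the inequality holds for all `f ∈ FN N` then it holds with the fixed directions `C` added in front.
Proof. `NN_append`: `NN (C ++ A i) f = av_c NN (A i) (nab C c f)`, `nab C c f ∈ FN N` (`FN.nab`). `av_comm`; with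
`X_c = (av_i NN (A i) (nab C c f)) / N`: `(av_c X_c) ^ E ≤ av_c X_c ^ E` (`av_pow`) `≤ av_c (av_j NN (B j) (nab C c f)) / N`. -/
theorem A8_common {N : ℝ} (hN : 0 < N) {I J : Type} [Fintype I] [Nonempty I] [Fintype J] [Nonempty J] (E : ℕ)
    (A : I → List (Dir G)) (B : J → List (Dir G))
    (h : ∀ f : G → ℂ, FN N f → ((av fun i => NN (A i) f) / N) ^ E ≤ (av fun j => NN (B j) f) / N)
    (C : List (Dir G)) (f : G → ℂ) (hf : FN N f) :
    ((av fun i => NN (C ++ A i) f) / N) ^ E ≤ (av fun j => NN (C ++ B j) f) / N := by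
  have key : ∀ {K : Type} [Fintype K] [Nonempty K] (A : K → List (Dir G)),
      (av fun i => NN (C ++ A i) f) / N = av fun c : Om C => (av fun i => NN (A i) (nab C c f)) / N := by
    intro K _ _ A
    simp only [NN_append]
    rw [av_comm, av_div]
  rw [key A, key B]
  refine (av_pow E fun c => ?_).trans (av_mono fun c => h _ (hf.nab C c))
  exact div_nonneg (av_nonneg fun i => NN_nonneg _ _) hN.le


omit [Fintype G] in
/-- `‖ft (d.sub e) χ‖ = ‖ft d χ‖ ‖ft e χ‖` (`χ (a - b) = χ a conj (χ b)` on a finite group, `AddChar.map_neg_eq_conj`; `avc_prod`). -/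
theorem ft_sub (d e : Dir G) (χ : AddChar G ℂ) [Finite G] : ‖ft (d.sub e) χ‖ = ‖ft d χ‖ * ‖ft e χ‖ := by
  have h1 : ft (d.sub e) χ = ft d χ * (starRingEnd ℂ) (ft e χ) := by
    change (avc fun p : d.ι × e.ι => χ (d.a p.1 - e.a p.2)) = _
    unfold ft
    rw [avc_prod, avc_star, ← avc_mul_right]
    refine congrArg avc (funext fun x => ?_)
    rw [← avc_mul_left]
    refine congrArg avc (funext fun y => ?_)
    rw [sub_eq_add_neg, AddChar.map_add_eq_mul, AddChar.map_neg_eq_conj]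
  rw [h1, norm_mul, RCLike.norm_conj]

end Pool.Agent.HPP
end

-- from Lib.HPP.A9b
section

/-!
# Project HPP, A9b (S/M): the Fourier bound in the step of `T_p`
-/

open Finset

namespace Pool.Agent.HPP

/-- **The Fourier bound in the step.** Proof. For fixed `i'` the extras of the first application are bounded by
`B1 i' = B ‖ft (α_p i') χ‖² + B'` (`ft_sub`, `av_mul_left`): `av_j ‖ft (δ1 i' k j)‖² ≤ C2 (B² + B1 i')`; average over `i'`:
`≤ C2 (2 B² + B')`. For fixed `j` the extras of the second one are bounded by `B2 j = B' + ∑_k av_{i'} ‖ft (δ1 i' k j)‖²`: `≤ C3 (B² + B2 j)`;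
average over `j` (`av_sum`, `av_comm`): `≤ C3 (B² + B' + n2 C2 (2 B² + B')) ≤ C3 (1 + 2 n2 C2) (B² + B')`. -/
theorem A9_four (p q n2 n3 : ℕ) (C2 C3 : ℝ) (hC2 : 0 ≤ C2) (hC3 : 0 ≤ C3) {I J1 J2 : Type} [Fintype I] [Nonempty I]
    [Fintype J1] [Nonempty J1] [Fintype J2] [Nonempty J2] {G : Type} [AddCommGroup G] [Fintype G]
    (α : Fin (p + 1) → I → Dir G) (γ : Fin q → I → Dir G) (δ1 : I → Fin n2 → J1 → Dir G) (δ2 : J1 → Fin n3 → J2 → Dir G)
    (χ : AddChar G ℂ) (h1 : ∀ (i' : I) (B B' : ℝ), 0 ≤ B → 0 ≤ B' →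
      (∀ l : Fin p, (av fun i => ‖ft (α l.castSucc i) χ‖ ^ 2) ≤ B) →
      (∀ l : Fin (q + 1), (av fun i => ‖ft ((Fin.cons ((α (Fin.last p) i').sub (α (Fin.last p) i)) (fun l => γ l i) :
        Fin (q + 1) → Dir G) l) χ‖ ^ 2) ≤ B') → ∀ k, (av fun j => ‖ft (δ1 i' k j) χ‖ ^ 2) ≤ C2 * (B ^ 2 + B'))
    (h2 : ∀ (j : J1) (B B' : ℝ), 0 ≤ B → 0 ≤ B' → (∀ l : Fin p, (av fun i => ‖ft (α l.castSucc i) χ‖ ^ 2) ≤ B) →
      (∀ l : Fin (q + n2), (av fun i' => ‖ft ((Fin.append (fun l => γ l i') (fun k => δ1 i' k j) :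
        Fin (q + n2) → Dir G) l) χ‖ ^ 2) ≤ B') → ∀ k, (av fun j' => ‖ft (δ2 j k j') χ‖ ^ 2) ≤ C3 * (B ^ 2 + B'))
    (B B' : ℝ) (hB : 0 ≤ B) (hB' : 0 ≤ B') (hα : ∀ l, (av fun i => ‖ft (α l i) χ‖ ^ 2) ≤ B)
    (hγ : ∀ l, (av fun i => ‖ft (γ l i) χ‖ ^ 2) ≤ B') (k : Fin n3) :
    (av fun x : J1 × J2 => ‖ft (δ2 x.1 k x.2) χ‖ ^ 2) ≤ C3 * (1 + 2 * n2 * C2) * (B ^ 2 + B') := by
  obtain ⟨g, hg⟩ : ∃ g : I → ℝ, g = fun i' => ‖ft (α (Fin.last p) i') χ‖ ^ 2 := ⟨_, rfl⟩
  have hg0 : ∀ i, 0 ≤ g i := fun i => by rw [hg]; exact sq_nonneg _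
  have hgB : av g ≤ B := by
    rw [hg]
    exact hα (Fin.last p)
  -- first application
  have e1 : ∀ (i' : I) (k : Fin n2), (av fun j => ‖ft (δ1 i' k j) χ‖ ^ 2) ≤ C2 * (B ^ 2 + (B * g i' + B')) := by
    intro i' k
    refine h1 i' B (B * g i' + B') hB (add_nonneg (mul_nonneg hB (hg0 i')) hB') (fun l => hα l.castSucc) ?_ k
    intro l
    refine Fin.cases ?_ (fun l => ?_) l
    · have e : (av fun i => ‖ft ((Fin.cons ((α (Fin.last p) i').sub (α (Fin.last p) i)) (fun l => γ l i) :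
          Fin (q + 1) → Dir G) 0) χ‖ ^ 2) = g i' * av g := by
        rw [← av_mul_left]
        refine congrArg av (funext fun i => ?_)
        rw [Fin.cons_zero, ft_sub, mul_pow, hg]
      rw [e]
      have := mul_le_mul_of_nonneg_left hgB (hg0 i')
      linarith
    · have e : (av fun i => ‖ft ((Fin.cons ((α (Fin.last p) i').sub (α (Fin.last p) i)) (fun l => γ l i) :
          Fin (q + 1) → Dir G) l.succ) χ‖ ^ 2) = av fun i => ‖ft (γ l i) χ‖ ^ 2 := by
        refine congrArg av (funext fun i => ?_)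
        rw [Fin.cons_succ]
      rw [e]
      have := hγ l
      have := mul_nonneg hB (hg0 i')
      linarith
  -- second application
  obtain ⟨T, hT⟩ : ∃ T : J1 → ℝ, T = fun j => ∑ k : Fin n2, av fun i' => ‖ft (δ1 i' k j) χ‖ ^ 2 := ⟨_, rfl⟩
  have hT0 : ∀ j, 0 ≤ T j := fun j => by
    rw [hT]
    exact Finset.sum_nonneg fun k _ => av_nonneg fun i => sq_nonneg _
  have hTk : ∀ j (k : Fin n2), (av fun i' => ‖ft (δ1 i' k j) χ‖ ^ 2) ≤ T j := fun j k => by
    rw [hT]
    exact Finset.single_le_sum (f := fun k : Fin n2 => av fun i' => ‖ft (δ1 i' k j) χ‖ ^ 2)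
      (fun k _ => av_nonneg fun i => sq_nonneg _) (Finset.mem_univ k)
  have e2 : ∀ j : J1, (av fun j' => ‖ft (δ2 j k j') χ‖ ^ 2) ≤ C3 * (B ^ 2 + (B' + T j)) := by
    intro j
    refine h2 j B (B' + T j) hB (add_nonneg hB' (hT0 j)) (fun l => hα l.castSucc) ?_ k
    intro l
    refine Fin.addCases (fun l => ?_) (fun l => ?_) l
    · have e : (av fun i' => ‖ft ((Fin.append (fun l => γ l i') (fun k => δ1 i' k j) :
          Fin (q + n2) → Dir G) (Fin.castAdd n2 l)) χ‖ ^ 2) = av fun i => ‖ft (γ l i) χ‖ ^ 2 := by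
        refine congrArg av (funext fun i => ?_)
        rw [Fin.append_left]
      rw [e]
      have := hγ l
      have := hT0 j
      linarith
    · have e : (av fun i' => ‖ft ((Fin.append (fun l => γ l i') (fun k => δ1 i' k j) :
          Fin (q + n2) → Dir G) (Fin.natAdd q l)) χ‖ ^ 2) = av fun i' => ‖ft (δ1 i' l j) χ‖ ^ 2 := by
        refine congrArg av (funext fun i => ?_)
        rw [Fin.append_right]
      rw [e]
      have := hTk j l
      linarith
  -- the average of `T`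
  have e3 : av T ≤ n2 * (C2 * (2 * B ^ 2 + B')) := by
    rw [hT, av_sum]
    have : ∀ k : Fin n2, (av fun j => av fun i' => ‖ft (δ1 i' k j) χ‖ ^ 2) ≤ C2 * (2 * B ^ 2 + B') := by
      intro k
      rw [av_comm]
      refine (av_mono fun i' => e1 i' k).trans ?_
      rw [av_mul_left]
      refine mul_le_mul_of_nonneg_left ?_ hC2
      have e : (av fun i' => B ^ 2 + (B * g i' + B')) = B ^ 2 + (B * av g + B') := by
        rw [av_add, av_add, av_const, av_const, av_mul_left]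
      rw [e]
      have := mul_le_mul_of_nonneg_left hgB hB
      nlinarith
    refine (Finset.sum_le_sum fun k _ => this k).trans (le_of_eq ?_)
    rw [Finset.sum_const, Finset.card_univ, Fintype.card_fin, nsmul_eq_mul]
  have e4 : (av fun x : J1 × J2 => ‖ft (δ2 x.1 k x.2) χ‖ ^ 2) ≤ C3 * (B ^ 2 + (B' + av T)) := by
    rw [av_prod]
    refine (av_mono e2).trans (le_of_eq ?_)
    rw [av_mul_left, av_add, av_add, av_const, av_const]
  refine e4.trans ?_
  rw [mul_assoc]
  refine mul_le_mul_of_nonneg_left ?_ hC3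
  have hn : (0 : ℝ) ≤ n2 * C2 := mul_nonneg (Nat.cast_nonneg _) hC2
  have h5 : 0 ≤ n2 * C2 * B' := mul_nonneg hn hB'
  nlinarith

end Pool.Agent.HPP
end

-- from Lib.HPP.B6a
section

/-!
# Project HPP, B6a (S/M): from one-sided to two-sided differences
-/

open Finset Polynomial

namespace Pool.Agent.HPP

theorem b6a_av_iv (X : ℕ) (F : ℤ → ℝ) :
    (av fun h : Iv X => F (h : ℤ)) = (∑ h ∈ Icc (-(X : ℤ)) X, F h) / (2 * X + 1) := by
  unfold av
  rw [Finset.sum_coe_sort (Icc (-(X : ℤ)) X) F, Fintype.card_coe, Int.card_Icc]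
  have h1 : ((((X : ℤ) + 1 - -(X : ℤ)).toNat : ℕ) : ℝ) = 2 * X + 1 := by
    have h2 : ((X : ℤ) + 1 - -(X : ℤ)).toNat = 2 * X + 1 := by omega
    rw [h2]
    push_cast
    ring
  rw [h1]

theorem b6a_card (X : ℕ) (Φ : ℤ → ℝ) (h : ∀ x, 0 ≤ Φ x) :
    ((X : ℝ) + 1) * ∑ y ∈ Icc (-(X : ℤ)) X, Φ y ≤ ∑ x ∈ Icc (-(X : ℤ)) X, ∑ x' ∈ Icc (-(X : ℤ)) X, Φ (x - x') := by
  classical
  have h1 : ((X : ℝ) + 1) * ∑ y ∈ Icc (-(X : ℤ)) X, Φ y = ∑ q ∈ Icc (-(X : ℤ)) X ×ˢ Icc (0 : ℤ) X, Φ q.1 := by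
    rw [Finset.sum_product, Finset.mul_sum]
    refine Finset.sum_congr rfl fun y _ => ?_
    change _ = ∑ _y ∈ Icc (0 : ℤ) X, Φ y
    rw [Finset.sum_const, Int.card_Icc, nsmul_eq_mul]
    have h2 : ((X : ℤ) + 1 - 0).toNat = X + 1 := by omega
    rw [h2]
    push_cast
    ring
  have h3 : ∑ x ∈ Icc (-(X : ℤ)) X, ∑ x' ∈ Icc (-(X : ℤ)) X, Φ (x - x') =
      ∑ p ∈ Icc (-(X : ℤ)) X ×ˢ Icc (-(X : ℤ)) X, Φ (p.1 - p.2) := by
    rw [Finset.sum_product]
  rw [h1, h3]
  set g : ℤ × ℤ → ℤ × ℤ := fun q => if 0 ≤ q.1 then (q.1 - q.2, -q.2) else (q.1 + q.2, q.2) with hg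
  have hinj : Set.InjOn g (Icc (-(X : ℤ)) X ×ˢ Icc (0 : ℤ) X : Finset (ℤ × ℤ)) := by
    rintro ⟨a, b⟩ hab ⟨c, d⟩ hcd he
    rw [Finset.mem_coe, Finset.mem_product, Finset.mem_Icc, Finset.mem_Icc] at hab hcd
    simp only [hg] at he
    simp only at hab hcd
    by_cases h0 : 0 ≤ a <;> by_cases h1 : 0 ≤ c <;> simp only [h0, h1, if_true, if_false, Prod.mk.injEq] at he <;>
      rw [Prod.mk.injEq] <;> omega
  have h4 : ∑ q ∈ Icc (-(X : ℤ)) X ×ˢ Icc (0 : ℤ) X, Φ q.1 =
      ∑ p ∈ (Icc (-(X : ℤ)) X ×ˢ Icc (0 : ℤ) X).image g, Φ (p.1 - p.2) := by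
    rw [Finset.sum_image hinj]
    refine Finset.sum_congr rfl fun q _ => ?_
    simp only [hg]
    by_cases h0 : 0 ≤ q.1
    · simp only [h0, if_true]
      congr 1
      ring
    · simp only [h0, if_false]
      congr 1
      ring
  rw [h4]
  refine Finset.sum_le_sum_of_subset_of_nonneg ?_ fun _ _ _ => h _
  intro p hp
  rw [Finset.mem_image] at hp
  obtain ⟨⟨a, b⟩, hq, rfl⟩ := hp
  rw [Finset.mem_product, Finset.mem_Icc, Finset.mem_Icc] at hq ⊢
  simp only at hq
  simp only [hg]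
  by_cases h0 : 0 ≤ a
  · simp only [h0, if_true]
    omega
  · simp only [h0, if_false]
    omega

/-- **B6a.** One direction: for a non-negative function `Φ` of the difference: `x - x' = h` has at least `X + 1` solutions in `[-X, X]` for
`|h| ≤ X`, so `av_h Φ(h) ≤ 2 av_{x, x'} Φ(x - x')`. -/
theorem B6_one (X : ℕ) (Φ : ℤ → ℝ) (h : ∀ x, 0 ≤ Φ x) :
    (av fun h : Iv X => Φ (h : ℤ)) ≤ 2 * av fun p : Iv X × Iv X => Φ ((p.1 : ℤ) - (p.2 : ℤ)) := by
  rw [av_prod (fun p : Iv X × Iv X => Φ ((p.1 : ℤ) - (p.2 : ℤ)))]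
  have h1 : (av fun x : Iv X => av fun y : Iv X => Φ ((x : ℤ) - (y : ℤ))) =
      (∑ x ∈ Icc (-(X : ℤ)) X, ∑ x' ∈ Icc (-(X : ℤ)) X, Φ (x - x')) / (2 * X + 1) / (2 * X + 1) := by
    have h2 : ∀ x : Iv X, (av fun y : Iv X => Φ ((x : ℤ) - (y : ℤ))) =
        (fun x : ℤ => (∑ y ∈ Icc (-(X : ℤ)) X, Φ (x - y)) / (2 * X + 1)) (x : ℤ) := fun x =>
      b6a_av_iv X fun y => Φ ((x : ℤ) - y)
    simp only [h2]
    rw [b6a_av_iv X fun x => (∑ y ∈ Icc (-(X : ℤ)) X, Φ (x - y)) / (2 * X + 1), ← Finset.sum_div]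
  rw [h1, b6a_av_iv X Φ]
  have h3 := b6a_card X Φ h
  have h4 : 0 ≤ ∑ y ∈ Icc (-(X : ℤ)) X, Φ y := Finset.sum_nonneg fun x _ => h x
  have h5 : (0 : ℝ) < 2 * X + 1 := by positivity
  rw [div_div, ← mul_div_assoc, div_le_div_iff₀ h5 (by positivity)]
  nlinarith [mul_le_mul_of_nonneg_right h3 h5.le, mul_nonneg h4 h5.le]

/-- **B6b.** All directions. Proof. Induction on `rs` (`AL_succ`, `NN_cons`): for `r :: rs` `B6_one` with
`Φ h = AL X ρ (fun l => ‖∑ DI .. (D2 0 (-(h r)) f)‖)`, induction hypothesis; `D2 (r x) (r x') f` is a translate of `D2 0 (r x' - r x) f` (`D2_zero`, `NN_trans`) and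
`r x' - r x = -((x - x') r)`. -/
theorem B6_two {M : ℕ} [NeZero M] (X : ℕ) (rs : List ℤ) : ∀ f : ZMod M → ℂ,
    (AL X rs.length fun l => ‖∑ t, DI (List.zipWith (fun h r : ℤ => ((-(h * r) : ℤ) : ZMod M)) l rs) f t‖) ≤
      2 ^ rs.length * NN (rs.map fun c => cdir M X c) f := by
  induction rs with
  | nil =>
    intro f
    rw [List.length_nil, AL_zero, List.map_nil, NN_nil, List.zipWith_nil_left]
    simp only [DI, pow_zero, one_mul, le_refl]
  | cons r rs ih =>
    intro f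
    rw [List.length_cons, AL_succ]
    simp only [List.zipWith_cons_cons, DI]
    have h1 := B6_one X (fun h : ℤ => AL X rs.length fun l =>
      ‖∑ t, DI (List.zipWith (fun h r : ℤ => ((-(h * r) : ℤ) : ZMod M)) l rs) (D2 0 ((-(h * r) : ℤ) : ZMod M) f) t‖)
      fun h => AL_nonneg X rs.length fun l _ => norm_nonneg _
    refine h1.trans ?_
    have h2 : ∀ p : Iv X × Iv X, (AL X rs.length fun l =>
        ‖∑ t, DI (List.zipWith (fun h r : ℤ => ((-(h * r) : ℤ) : ZMod M)) l rs)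
          (D2 0 ((-(((p.1 : ℤ) - (p.2 : ℤ)) * r) : ℤ) : ZMod M) f) t‖) ≤
        2 ^ rs.length * NN (rs.map fun c => cdir M X c) (D2 ((cdir M X r).a p.1) ((cdir M X r).a p.2) f) := by
      intro p
      refine (ih _).trans (le_of_eq ?_)
      congr 1
      have h3 : D2 ((cdir M X r).a p.1) ((cdir M X r).a p.2) f =
          fun y => (D2 0 ((-(((p.1 : ℤ) - (p.2 : ℤ)) * r) : ℤ) : ZMod M) f) (y + (cdir M X r).a p.1) := by
        funext y
        rw [D2_zero]
        have h4 : (cdir M X r).a p.2 - (cdir M X r).a p.1 = ((-(((p.1 : ℤ) - (p.2 : ℤ)) * r) : ℤ) : ZMod M) := by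
          simp only [cdir]
          push_cast
          ring
        rw [h4]
      rw [h3, NN_trans]
    have h5 : (av fun p : Iv X × Iv X => AL X rs.length fun l =>
        ‖∑ t, DI (List.zipWith (fun h r : ℤ => ((-(h * r) : ℤ) : ZMod M)) l rs)
          (D2 0 ((-(((p.1 : ℤ) - (p.2 : ℤ)) * r) : ℤ) : ZMod M) f) t‖) ≤
        2 ^ rs.length * NN (cdir M X r :: rs.map fun c => cdir M X c) f := by
      rw [NN_cons, ← av_mul_left]
      exact av_mono h2
    rw [List.map_cons, pow_succ]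
    nlinarith [h5]

end Pool.Agent.HPP
end

-- from Lib.HPP.B5a
section

/-!
# Project HPP, B5a (M): coefficients in the extended family
-/

open Finset Polynomial

namespace Pool.Agent.HPP

private theorem b5a_step {M : ℕ} (N : ℝ) (d : ℕ) (h : ℤ) (W : ℤ[X]) (w : ℤ) (hW : PD d w W) (L : Fam M) (m : ℕ) (u : ℕ → ℤ)
    (hL : L.length = 2 ^ m) (H : ∀ (j : ℕ) (hj : j < L.length), FN N (L[j]).1 ∧ PD d (u j) (L[j]).2) :
    ∀ (j : ℕ) (hj : j < (XO h W L).length), FN N ((XO h W L)[j]).1 ∧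
      PD d (u (j % 2 ^ m) + if j.testBit m then w else 0) ((XO h W L)[j]).2 := by
  intro j hj
  by_cases hjm : j < L.length
  · have e : (XO h W L)[j] = L[j] := List.getElem_append_left hjm
    have hj2 : j < 2 ^ m := by rw [← hL]; exact hjm
    rw [e, Nat.mod_eq_of_lt hj2, Nat.testBit_lt_two_pow hj2, if_neg (by simp), add_zero]
    exact H j hjm
  · have hjm' : L.length ≤ j := not_lt.mp hjm
    have hlen : j - L.length < L.length := by
      have h1 : (XO h W L).length = L.length + L.length := by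
        unfold XO
        rw [List.length_append, List.length_map]
      rw [h1] at hj
      omega
    have e : (XO h W L)[j] = ((fun y => (starRingEnd ℂ) ((L[j - L.length]).1 y)), W + taylor h (L[j - L.length]).2) := by
      unfold XO
      rw [List.getElem_append_right hjm', List.getElem_map]
    have hj3 : j - L.length < 2 ^ m := by rw [← hL]; exact hlen
    obtain ⟨i, hi⟩ : ∃ i, i = j - L.length := ⟨_, rfl⟩
    have hji : j = 2 ^ m + i := by rw [hi, ← hL]; omega
    have hi2 : i < 2 ^ m := by rw [hi]; exact hj3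
    have e1 : j % 2 ^ m = i := by
      rw [hji, Nat.add_mod_left, Nat.mod_eq_of_lt hi2]
    have e2 : j.testBit m = true := by
      rw [hji, Nat.testBit_two_pow_add_eq, Nat.testBit_lt_two_pow hi2]
      rfl
    have H2 := H (j - L.length) hlen
    rw [e, e1, e2, if_pos rfl]
    refine ⟨⟨fun y => ?_, ?_⟩, ?_⟩
    · rw [RCLike.norm_conj]
      exact H2.1.le y
    · obtain ⟨S, hS, hS2⟩ := H2.1.sup
      refine ⟨S, hS, fun y hy => ?_⟩
      show (starRingEnd ℂ) ((L[j - L.length]).1 y) = 0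
      rw [hS2 y hy, map_zero]
    · rw [add_comm]
      have H3 : PD d (u i) (L[j - L.length]).2 := by
        rw [hi]
        exact H2.2
      exact PD.add hW (PD.taylor H3 h)

/-- **B5a.** Coefficients in the extended family. Proof. Induction on `ops`, generalising `L`, `m`, `u`. Step with `p = (h, W)`: `XO p.1 p.2 L` has length
`2 ^ (m + 1)`; its entry `j < 2 ^ m` is that of `L`, the entry `2 ^ m + j` has the polynomial `W + taylor h V` (`PD.add`, `PD.taylor`) and coefficient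
`w + u j`. So the hypothesis holds with `u' j = u (j % 2 ^ m) + if j.testBit m then w else 0`. -/
theorem B5_coef {M : ℕ} (N : ℝ) (d : ℕ) (ops : List (ℤ × ℤ[X])) : ∀ (ws : List ℤ) (L : Fam M) (m : ℕ) (u : ℕ → ℤ),
    List.Forall₂ (fun (p : ℤ × ℤ[X]) (w : ℤ) => PD d w p.2) ops ws → L.length = 2 ^ m →
    (∀ (j : ℕ) (hj : j < L.length), FN N (L[j]).1 ∧ PD d (u j) (L[j]).2) →
    ∀ (j : ℕ) (hj : j < (XL ops L).length), FN N ((XL ops L)[j]).1 ∧
      PD d (u (j % 2 ^ m) + ∑ i ∈ range ws.length, if j.testBit (m + i) then ws.getD i 0 else 0) ((XL ops L)[j]).2 := by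
  induction ops with
  | nil =>
    intro ws L m u hf hL H j hj
    cases hf
    have hj2 : j < 2 ^ m := by rw [← hL]; exact hj
    rw [List.length_nil, Finset.sum_range_zero, add_zero, Nat.mod_eq_of_lt hj2]
    exact H j hj
  | cons p ops ih =>
    intro ws L m u hf hL H
    cases hf with
    | @cons _ w _ ws' hw hf' =>
      intro j hj
      have hL' : (XO p.1 p.2 L).length = 2 ^ (m + 1) := by
        unfold XO
        rw [List.length_append, List.length_map, hL, pow_succ]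
        ring
      have h1 := ih ws' (XO p.1 p.2 L) (m + 1) (fun j => u (j % 2 ^ m) + if j.testBit m then w else 0) hf' hL'
        (b5a_step N d p.1 p.2 w hw L m u hL H) j hj
      refine ⟨h1.1, ?_⟩
      have h2 := h1.2
      have e1 : j % 2 ^ (m + 1) % 2 ^ m = j % 2 ^ m := Nat.mod_mod_of_dvd j (pow_dvd_pow 2 (Nat.le_succ m))
      have e2 : (j % 2 ^ (m + 1)).testBit m = j.testBit m := by
        rw [Nat.testBit_mod_two_pow]
        simp
      simp only [e1, e2] at h2
      have e3 : ∑ i ∈ range (w :: ws').length, (if j.testBit (m + i) then (w :: ws').getD i 0 else 0) =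
          (∑ i ∈ range ws'.length, if j.testBit (m + 1 + i) then ws'.getD i 0 else 0) + if j.testBit m then w else 0 := by
        rw [List.length_cons, Finset.sum_range_succ']
        congr 1
        refine Finset.sum_congr rfl fun i _ => ?_
        rw [List.getD_cons_succ, show m + (i + 1) = m + 1 + i by omega]
      rw [e3]
      have e4 : u (j % 2 ^ m) + ((∑ i ∈ range ws'.length, if j.testBit (m + 1 + i) then ws'.getD i 0 else 0) +
          if j.testBit m then w else 0) = (u (j % 2 ^ m) + if j.testBit m then w else 0) +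
          ∑ i ∈ range ws'.length, if j.testBit (m + 1 + i) then ws'.getD i 0 else 0 := by ring
      rw [e4]
      exact h2

end Pool.Agent.HPP
end

-- from Lib.HPP.C1
section

/-!
# Project HPP, C1 (M): the functions `KD`
-/

open Finset

namespace Pool.Agent.HPP

variable {M : ℕ} [NeZero M] (X : ℕ) (χ : AddChar (ZMod M) ℂ)

/-- a character times a conjugate value -/
theorem c1_char (x a b : ℤ) : χ ((x * a : ℤ) : ZMod M) * (starRingEnd ℂ) (χ ((x * b : ℤ) : ZMod M)) =
    χ ((x * (a - b) : ℤ) : ZMod M) := by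
  rw [← AddChar.map_neg_eq_conj, ← AddChar.map_add_eq_mul]
  congr 1
  push_cast
  ring

/-- Adding a first coordinate. -/
theorem c1_cons (d : ℕ) (F : (Fin (d + 1) → Iv X × Iv X) → ℂ) :
    avc F = avc fun p : Iv X × Iv X => avc fun P : Fin d → Iv X × Iv X => F (Fin.cons p P) := by
  rw [← avc_equiv (Fin.consEquiv fun _ : Fin (d + 1) => Iv X × Iv X) F, avc_prod]
  rfl

theorem c1_consr (d : ℕ) (F : (Fin (d + 1) → Iv X × Iv X) → ℝ) :
    av F = av fun p : Iv X × Iv X => av fun P : Fin d → Iv X × Iv X => F (Fin.cons p P) := by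
  rw [← av_equiv (Fin.consEquiv fun _ : Fin (d + 1) => Iv X × Iv X) F, av_prod]
  rfl

/-- The product after adding a first coordinate. -/
theorem c1_prod (d : ℕ) (x : ℤ) (p : Iv X × Iv X) (P : Fin d → Iv X × Iv X) :
    x * ∏ i, ((((Fin.cons p P : Fin (d + 1) → Iv X × Iv X) i).1 : ℤ) -
      (((Fin.cons p P : Fin (d + 1) → Iv X × Iv X) i).2 : ℤ)) =
    x * ((p.1 : ℤ) - (p.2 : ℤ)) * ∏ i, (((P i).1 : ℤ) - ((P i).2 : ℤ)) := by
  rw [Fin.prod_univ_succ]
  simp only [Fin.cons_zero, Fin.cons_succ]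
  ring

/-- `0 ≤ KD ≤ 1`. -/
theorem KD_nonneg (d : ℕ) (x : ℤ) : 0 ≤ KD X χ d x := by
  induction d generalizing x with
  | zero => exact zero_le_one
  | succ d ih =>
    cases d with
    | zero => exact sq_nonneg _
    | succ d => exact av_nonneg fun p => ih _

theorem KD_le (d : ℕ) (x : ℤ) : KD X χ d x ≤ 1 := by
  induction d generalizing x with
  | zero => exact le_refl _
  | succ d ih =>
    cases d with
    | zero =>
      have h1 : ‖avc fun m : Iv X => χ ((x * (m : ℤ) : ℤ) : ZMod M)‖ ≤ 1 := by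
        refine (norm_avc_le _).trans (av_le fun m => ?_)
        rw [AddChar.norm_apply]
      exact pow_le_one₀ (norm_nonneg _) h1
    | succ d => exact av_le fun p => ih _

/-- `KD` as an average of characters: `d ≥ 1`. Induction on `d`: `d = 1`: `avc_mul_conj` (`χ a conj (χ b) = χ (a - b)`); step: `av_ofReal`, `Fin.consEquiv`. -/
theorem KD_char (d : ℕ) (hd : 1 ≤ d) (x : ℤ) : ((KD X χ d x : ℝ) : ℂ) =
    avc fun P : Fin d → Iv X × Iv X => χ ((x * ∏ i, (((P i).1 : ℤ) - ((P i).2 : ℤ)) : ℤ) : ZMod M) := by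
  obtain ⟨e, rfl⟩ : ∃ e, d = e + 1 := ⟨d - 1, by omega⟩
  clear hd
  induction e generalizing x with
  | zero =>
    have h0 : KD X χ (0 + 1) x = ‖avc fun m : Iv X => χ ((x * (m : ℤ) : ℤ) : ZMod M)‖ ^ 2 := rfl
    rw [h0, Complex.ofReal_pow, ← Complex.mul_conj', avc_mul_conj, c1_cons]
    congr 1
    funext p
    have h1 : ∀ P : Fin 0 → Iv X × Iv X,
        χ ((x * ∏ i, ((((Fin.cons p P : Fin (0 + 1) → Iv X × Iv X) i).1 : ℤ) -
          (((Fin.cons p P : Fin (0 + 1) → Iv X × Iv X) i).2 : ℤ)) : ℤ) : ZMod M) =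
        χ ((x * ((p.1 : ℤ) - (p.2 : ℤ)) : ℤ) : ZMod M) := by
      intro P
      rw [c1_prod]
      congr 2
      simp
    simp only [h1]
    rw [avc_const, c1_char]
  | succ e ih =>
    have h0 : KD X χ (e + 1 + 1) x = av fun p : Iv X × Iv X => KD X χ (e + 1) (x * ((p.1 : ℤ) - (p.2 : ℤ))) := rfl
    rw [h0, av_ofReal, c1_cons]
    congr 1
    funext p
    rw [ih]
    congr 1
    funext P
    rw [c1_prod]

/-- `KD (d + 1)` as an average of `KD 1`. Induction on `d`. -/
theorem KD_one (d : ℕ) (x : ℤ) : KD X χ (d + 1) x =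
    av fun P : Fin d → Iv X × Iv X => KD X χ 1 (x * ∏ i, (((P i).1 : ℤ) - ((P i).2 : ℤ))) := by
  induction d generalizing x with
  | zero =>
    have h1 : ∀ P : Fin 0 → Iv X × Iv X, KD X χ 1 (x * ∏ i, (((P i).1 : ℤ) - ((P i).2 : ℤ))) = KD X χ 1 x := by
      intro P
      rw [Fin.prod_univ_zero, mul_one]
    simp only [h1]
    rw [av_const]
  | succ e ih =>
    have h0 : KD X χ (e + 1 + 1) x = av fun p : Iv X × Iv X => KD X χ (e + 1) (x * ((p.1 : ℤ) - (p.2 : ℤ))) := rfl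
    rw [h0, c1_consr]
    congr 1
    funext p
    rw [ih]
    congr 1
    funext P
    rw [c1_prod]

/-- `KD` is even (conjugation). -/
theorem KD_neg (d : ℕ) (x : ℤ) : KD X χ d (-x) = KD X χ d x := by
  induction d generalizing x with
  | zero => rfl
  | succ d ih =>
    cases d with
    | zero =>
      have h0 : ∀ y : ℤ, KD X χ (0 + 1) y = ‖avc fun m : Iv X => χ ((y * (m : ℤ) : ℤ) : ZMod M)‖ ^ 2 := fun y => rfl
      rw [h0, h0]
      congr 1
      have h1 : (avc fun m : Iv X => χ ((-x * (m : ℤ) : ℤ) : ZMod M)) =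
          (starRingEnd ℂ) (avc fun m : Iv X => χ ((x * (m : ℤ) : ℤ) : ZMod M)) := by
        rw [avc_star]
        congr 1
        funext m
        rw [← AddChar.map_neg_eq_conj]
        congr 1
        push_cast
        ring
      rw [h1, Complex.norm_conj]
    | succ d =>
      have h0 : ∀ y : ℤ, KD X χ (d + 1 + 1) y =
          av fun p : Iv X × Iv X => KD X χ (d + 1) (y * ((p.1 : ℤ) - (p.2 : ℤ))) := fun y => rfl
      rw [h0, h0]
      congr 1
      funext p
      rw [neg_mul, ih]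

/-- Jensen for roots: `av (F ^ s) ≤ (av F) ^ s` for `s = (1/2) ^ m`: with `G = F ^ s`, `(av G) ^ (2 ^ m) ≤ av (G ^ (2 ^ m)) = av F` (`AL_pow`). -/
theorem C1_root (X ρ m : ℕ) {F : List ℤ → ℝ} (h : ∀ l, 0 ≤ F l) :
    (AL X ρ fun l => F l ^ ((1 / 2 : ℝ) ^ m)) ≤ (AL X ρ F) ^ ((1 / 2 : ℝ) ^ m) := by
  set s : ℝ := (1 / 2 : ℝ) ^ m with hs
  have hs0 : 0 ≤ s := by positivity
  have hs1 : s * ((2 ^ m : ℕ) : ℝ) = 1 := by
    rw [hs]
    push_cast
    rw [← mul_pow]
    norm_num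
  have hG : ∀ l, 0 ≤ F l ^ s := fun l => Real.rpow_nonneg (h l) s
  have h1 := AL_pow X ρ (2 ^ m) hG
  have h2 : (fun l => (F l ^ s) ^ (2 ^ m)) = F := by
    funext l
    rw [← Real.rpow_natCast, ← Real.rpow_mul (h l), hs1, Real.rpow_one]
  rw [h2] at h1
  have h3 : 0 ≤ AL X ρ fun l => F l ^ s := AL_nonneg X ρ fun l _ => hG l
  calc (AL X ρ fun l => F l ^ s) = ((AL X ρ fun l => F l ^ s) ^ (2 ^ m)) ^ s := by
        rw [← Real.rpow_natCast, ← Real.rpow_mul h3, mul_comm, hs1, Real.rpow_one]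
    _ ≤ (AL X ρ F) ^ s := Real.rpow_le_rpow (pow_nonneg h3 _) h1 hs0

end Pool.Agent.HPP
end

-- from Lib.HPP.C1L
section

/-!
# Project HPP, C1L (M): the linear step for the energies
-/

open Finset

namespace Pool.Agent.HPP

variable {M : ℕ} [NeZero M] (X : ℕ) (χ : AddChar (ZMod M) ℂ)

/-- Auxiliary: an entry of a list. -/
theorem c1l_getD {ρ : ℕ} (v : Fin ρ → ℤ) (a : ℕ) (ha : a < ρ) : (List.ofFn v).getD a 0 = v ⟨a, ha⟩ := by
  rw [List.getD_eq_getElem _ _ (by rw [List.length_ofFn]; exact ha), List.getElem_ofFn]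

/-- Auxiliary: `rn` is affine in the `i`-th parameter. -/
theorem c1l_rn (d : ℕ) {q : ℕ} (lab : List ℕ) (r : Fin q → ℤ) (s i : ℕ) (hi : i < lab.length)
    (hs : s.testBit i = true) (v v' : Fin lab.length → ℤ) (hv : ∀ a, a ≠ ⟨i, hi⟩ → v a = v' a) :
    rn d lab r (List.ofFn v) s = rn d lab r (List.ofFn v') s -
      ((d : ℤ) + 1) * (List.ofFn r).getD (lab.getD i 0) 0 * (v ⟨i, hi⟩ - v' ⟨i, hi⟩) := by
  have h1 : (∑ a ∈ range lab.length, if s.testBit a then (List.ofFn v).getD a 0 * (List.ofFn r).getD (lab.getD a 0) 0 else 0) -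
      (∑ a ∈ range lab.length, if s.testBit a then (List.ofFn v').getD a 0 * (List.ofFn r).getD (lab.getD a 0) 0 else 0) =
      (v ⟨i, hi⟩ - v' ⟨i, hi⟩) * (List.ofFn r).getD (lab.getD i 0) 0 := by
    rw [← Finset.sum_sub_distrib, Finset.sum_eq_single i]
    · rw [if_pos hs, if_pos hs, c1l_getD v i hi, c1l_getD v' i hi, sub_mul]
    · intro b hb hbi
      have hb' : b < lab.length := mem_range.1 hb
      have h2 : v ⟨b, hb'⟩ = v' ⟨b, hb'⟩ := hv _ fun h => hbi (Fin.mk.inj_iff.1 h)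
      rw [c1l_getD v b hb', c1l_getD v' b hb', h2, sub_self]
    · intro h
      exact absurd (mem_range.2 hi) h
  unfold rn
  linear_combination (-((d : ℤ) + 1)) * h1

/-- Auxiliary: Jensen for the square root. -/
theorem c1l_root {ι : Type*} [Fintype ι] [Nonempty ι] {F : ι → ℝ} (hF : ∀ x, 0 ≤ F x) :
    (av fun x => F x ^ (1 / 2 : ℝ)) ≤ (av F) ^ (1 / 2 : ℝ) := by
  rw [← Real.sqrt_eq_rpow]
  refine Real.le_sqrt_of_sq_le ?_
  refine (av_pow 2 fun x => Real.rpow_nonneg (hF x) _).trans (le_of_eq ?_)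
  congr 1
  funext x
  rw [← Real.sqrt_eq_rpow, Real.sq_sqrt (hF x)]

/-- **The linear step.** `i < lab.length` is a digit of `s`. Proof. `KD_char`: `KD d (κ rn(l)) = avc_P χ(κ rn(l) ∏ P)`. `rn d lab r l s` is
`-(d + 1) r_{lab i} l_i` plus a function of the other `l`'s. For fixed `P` and fixed other `l`'s average over `l_i ∈ [-X, X]` inside:
the absolute value is `‖avc_{h} χ(-(κ (d+1) r_{lab i} ∏ P) h)‖ = (KD 1 (κ (d+1) r_{lab i} ∏ P)) ^ (1/2)` (`KD_neg`); so the left side is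
`≤ av_P (KD 1 (..)) ^ (1/2) ≤ (av_P KD 1 (..)) ^ (1/2) = (KD (d + 1) (κ (d+1) r_{lab i})) ^ (1/2)` (`av_pow`, `KD_one`). To average over one coordinate
of `v : Fin ρ → Iv X` use `av_equiv` with `Fin.insertNthEquiv` (or `Equiv.piSplitAt`). -/
theorem C1_lin (d : ℕ) (hd : 1 ≤ d) {q : ℕ} (lab : List ℕ) (r : Fin q → ℤ) (κ : ℤ) (s i : ℕ) (hi : i < lab.length)
    (hs : s.testBit i = true) :
    (AL X lab.length fun l => KD X χ d (κ * rn d lab r l s)) ≤
      (KD X χ (d + 1) (κ * ((d : ℤ) + 1) * (List.ofFn r).getD (lab.getD i 0) 0)) ^ (1 / 2 : ℝ) := by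
  classical
  obtain ⟨i', hi'⟩ : ∃ i' : Fin lab.length, i' = ⟨i, hi⟩ := ⟨_, rfl⟩
  obtain ⟨Rr, hRr⟩ : ∃ Rr : ℤ, Rr = (List.ofFn r).getD (lab.getD i 0) 0 := ⟨_, rfl⟩
  have hint : ∀ a b : ℤ, χ ((a + b : ℤ) : ZMod M) = χ (a : ZMod M) * χ (b : ZMod M) := by
    intro a b
    rw [Int.cast_add, AddChar.map_add_eq_mul]
  -- one choice of the differences
  have hP : ∀ P : Fin d → Iv X × Iv X,
      ‖avc fun v : Fin lab.length → Iv X =>
        χ ((κ * rn d lab r (List.ofFn fun j => ((v j : Iv X) : ℤ)) s * ∏ j, (((P j).1 : ℤ) - ((P j).2 : ℤ)) : ℤ) : ZMod M)‖ ≤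
      (KD X χ 1 (κ * ((d : ℤ) + 1) * Rr * ∏ j, (((P j).1 : ℤ) - ((P j).2 : ℤ)))) ^ (1 / 2 : ℝ) := by
    intro P
    obtain ⟨Pp, hPp⟩ : ∃ Pp : ℤ, Pp = ∏ j, (((P j).1 : ℤ) - ((P j).2 : ℤ)) := ⟨_, rfl⟩
    rw [← hPp]
    rw [← avc_equiv (Equiv.funSplitAt i' (Iv X)).symm, avc_prod, avc_comm]
    refine (norm_avc_le _).trans (av_le fun w => ?_)
    obtain ⟨z0, hz0⟩ : ∃ z0 : Iv X, (z0 : ℤ) = 0 := ⟨⟨0, by rw [mem_Icc]; omega⟩, rfl⟩
    have hsplit : ∀ h : Iv X,
        χ ((κ * rn d lab r (List.ofFn fun j => ((((Equiv.funSplitAt i' (Iv X)).symm (h, w) : Fin lab.length → Iv X) j : Iv X) : ℤ)) s * Pp : ℤ) : ZMod M) =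
        χ ((κ * rn d lab r (List.ofFn fun j => ((((Equiv.funSplitAt i' (Iv X)).symm (z0, w) : Fin lab.length → Iv X) j : Iv X) : ℤ)) s * Pp : ℤ) : ZMod M) *
          χ ((-(κ * ((d : ℤ) + 1) * Rr * Pp) * (h : ℤ) : ℤ) : ZMod M) := by
      intro h
      rw [← hint]
      congr 2
      rw [c1l_rn d lab r s i hi hs
        (fun j => ((((Equiv.funSplitAt i' (Iv X)).symm (h, w) : Fin lab.length → Iv X) j : Iv X) : ℤ))
        (fun j => ((((Equiv.funSplitAt i' (Iv X)).symm (z0, w) : Fin lab.length → Iv X) j : Iv X) : ℤ)) ?_]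
      · rw [← hRr, ← hi']
        have e1 : (((Equiv.funSplitAt i' (Iv X)).symm (h, w) : Fin lab.length → Iv X) i' : Iv X) = h := by
          simp [Equiv.funSplitAt, Equiv.piSplitAt]
        have e2 : (((Equiv.funSplitAt i' (Iv X)).symm (z0, w) : Fin lab.length → Iv X) i' : Iv X) = z0 := by
          simp [Equiv.funSplitAt, Equiv.piSplitAt]
        rw [e1, e2, hz0]
        ring
      · intro a ha
        rw [← hi'] at ha
        simp [Equiv.funSplitAt, Equiv.piSplitAt, ha]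
    have h1 : (avc fun h : Iv X =>
        χ ((κ * rn d lab r (List.ofFn fun j => ((((Equiv.funSplitAt i' (Iv X)).symm (h, w) : Fin lab.length → Iv X) j : Iv X) : ℤ)) s * Pp : ℤ) : ZMod M)) =
        χ ((κ * rn d lab r (List.ofFn fun j => ((((Equiv.funSplitAt i' (Iv X)).symm (z0, w) : Fin lab.length → Iv X) j : Iv X) : ℤ)) s * Pp : ℤ) : ZMod M) *
          avc fun h : Iv X => χ ((-(κ * ((d : ℤ) + 1) * Rr * Pp) * (h : ℤ) : ℤ) : ZMod M) := by
      rw [← avc_mul_left]
      congr 1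
      funext h
      exact hsplit h
    have h2 : ‖avc fun h : Iv X => χ ((-(κ * ((d : ℤ) + 1) * Rr * Pp) * (h : ℤ) : ℤ) : ZMod M)‖ =
        (KD X χ 1 (κ * ((d : ℤ) + 1) * Rr * Pp)) ^ (1 / 2 : ℝ) := by
      rw [← KD_neg X χ 1 (κ * ((d : ℤ) + 1) * Rr * Pp), ← Real.sqrt_eq_rpow]
      show _ = √(‖avc fun m : Iv X => χ ((-(κ * ((d : ℤ) + 1) * Rr * Pp) * (m : ℤ) : ℤ) : ZMod M)‖ ^ 2)
      rw [Real.sqrt_sq (norm_nonneg _)]
    calc _ = ‖χ ((κ * rn d lab r (List.ofFn fun j => ((((Equiv.funSplitAt i' (Iv X)).symm (z0, w) : Fin lab.length → Iv X) j : Iv X) : ℤ)) s * Pp : ℤ) : ZMod M) *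
          avc fun h : Iv X => χ ((-(κ * ((d : ℤ) + 1) * Rr * Pp) * (h : ℤ) : ℤ) : ZMod M)‖ := by
            rw [← h1]
      _ ≤ (KD X χ 1 (κ * ((d : ℤ) + 1) * Rr * Pp)) ^ (1 / 2 : ℝ) := by
            rw [norm_mul, AddChar.norm_apply, one_mul, h2]
  -- all
  have hre : ((AL X lab.length fun l => KD X χ d (κ * rn d lab r l s) : ℝ) : ℂ) =
      avc fun P : Fin d → Iv X × Iv X => avc fun v : Fin lab.length → Iv X =>
        χ ((κ * rn d lab r (List.ofFn fun j => ((v j : Iv X) : ℤ)) s * ∏ j, (((P j).1 : ℤ) - ((P j).2 : ℤ)) : ℤ) : ZMod M) := by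
    unfold AL
    rw [av_ofReal, avc_comm]
    congr 1
    funext v
    exact KD_char X χ d hd _
  have h0 : 0 ≤ AL X lab.length fun l => KD X χ d (κ * rn d lab r l s) := by
    unfold AL
    exact av_nonneg fun v => KD_nonneg X χ d _
  calc (AL X lab.length fun l => KD X χ d (κ * rn d lab r l s))
      = ‖((AL X lab.length fun l => KD X χ d (κ * rn d lab r l s) : ℝ) : ℂ)‖ := by
        rw [Complex.norm_real, Real.norm_of_nonneg h0]
    _ ≤ av fun P : Fin d → Iv X × Iv X => (KD X χ 1 (κ * ((d : ℤ) + 1) * Rr * ∏ j, (((P j).1 : ℤ) - ((P j).2 : ℤ)))) ^ (1 / 2 : ℝ) := by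
        rw [hre]
        exact (norm_avc_le _).trans (av_mono hP)
    _ ≤ (av fun P : Fin d → Iv X × Iv X => KD X χ 1 (κ * ((d : ℤ) + 1) * Rr * ∏ j, (((P j).1 : ℤ) - ((P j).2 : ℤ)))) ^ (1 / 2 : ℝ) :=
        c1l_root fun P => KD_nonneg X χ 1 _
    _ = (KD X χ (d + 1) (κ * ((d : ℤ) + 1) * (List.ofFn r).getD (lab.getD i 0) 0)) ^ (1 / 2 : ℝ) := by
        rw [← hRr, KD_one]

end Pool.Agent.HPP
end
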