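import Pool.Agent.Lib.H59M.M1.M001
import Pool.Agent.Lib.H59M.M1.M011
import Pool.Agent.Lib.H59M.M1.M012
import Pool.Agent.Lib.H59M.M1.M016
import Pool.Agent.Lib.H59M.M1.M022

/-! Merged copies (to shorten the build) of Lib.H18Q.PA, Lib.H68X.XFB, Lib.H18Q.PB2, Lib.H18Q.PB3, Lib.H18Q.PC1, Lib.H18Q.PG2, Lib.H18Q.PF. -/

-- from Lib.H18Q.PA
section

/-!
# Project H18Q, chunk PA: the weighted series and the zeros
-/

open Finset

namespace Pool.Agent.Lib.H18Q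

open ArithmeticFunction Pool.Agent.Lib.H68T

theorem pa_summable (c : ℕ → ℂ) (hc : ∀ n, ‖c n‖ ≤ 1) {s : ℂ} (hs : 1 < s.re) :
    LSeriesSummable (fun n => (Λ n : ℂ) * c n) s := by
  have h1 : LSeriesSummable (fun n => (Λ n : ℂ)) s :=
    ArithmeticFunction.LSeriesSummable_vonMangoldt hs
  refine Summable.of_norm_bounded (g := fun n => ‖LSeries.term (fun n => (Λ n : ℂ)) s n‖) h1.norm ?_
  intro n
  rcases eq_or_ne n 0 with rfl | hn
  · simp [LSeries.term_zero]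
  · rw [LSeries.term_of_ne_zero hn, LSeries.term_of_ne_zero hn, norm_div, norm_div, norm_mul]
    apply div_le_div_of_nonneg_right _ (norm_nonneg _)
    exact mul_le_of_le_one_right (norm_nonneg _) (hc n)

theorem pa_analytic (c : ℕ → ℂ) (hc : ∀ n, ‖c n‖ ≤ 1) {s : ℂ} (hs : 1 < s.re) :
    AnalyticAt ℂ (LSeries (fun n => (Λ n : ℂ) * c n)) s := by
  apply LSeries_analyticOnNhd
  have h1 : LSeries.abscissaOfAbsConv (fun n => (Λ n : ℂ) * c n) ≤ (1 : ℝ) := by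
    apply LSeries.abscissaOfAbsConv_le_of_forall_lt_LSeriesSummable
    intro y hy
    apply pa_summable c hc
    simpa using hy
  exact lt_of_le_of_lt h1 (EReal.coe_lt_coe_iff.mpr hs)

theorem pa_iter (ε b s₀ : ℂ) (k : ℕ) :
    iteratedDeriv k (fun s : ℂ => ε / (s - b)) s₀ =
      ε * ((-1) ^ k * (k.factorial : ℂ) * (1 / (s₀ - b)) ^ (k + 1)) := by
  have h1 : (fun s : ℂ => ε / (s - b)) = fun s : ℂ => ε * (1 * s - b)⁻¹ := by
    funext s
    rw [one_mul, div_eq_mul_inv]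
  rw [h1, iteratedDeriv_const_mul_field, iteratedDeriv_eq_iterate, iter_deriv_inv_linear_sub]
  simp only [one_pow, mul_one, one_mul]
  have h2 : (-1 - (k : ℤ)) = -((k + 1 : ℕ) : ℤ) := by
    push_cast
    ring
  rw [h2, zpow_neg, zpow_natCast, one_div, inv_pow]

theorem pa_div (a w : ℂ) (k : ℕ) : (a / w) ^ k = a ^ k * (1 / w) ^ k := by
  rw [← mul_pow, mul_one_div]

/-- Proof: `landau_k` at `s₀ = 1 + 1/64 + iv`, `R = 1/2`, `M = C0 ℓ` (`LDat.growth` with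
`lam = 1/64 ≥ 1/ℓ`), times `(1/64)^(k+1)`: error `2 A (C0 ℓ + 1) 8^k 64^(-k-1) ≤ C ℓ 8^(-k)`. Near
`s₀`, `logDeriv f = -LSeries (Λ c) + ε/(s - b)`, whose `k`-th derivative at `s₀` times
`(1/64)^(k+1)/k!` is `-(-1)^k Pk c k v + (-1)^k ε Mk b k v` (`D0_series` with `lam = 1/64`;
`s₀ - b = 1/64 + 1 - b + iv`). Multiply by `(-1)^(k+1)`. -/
theorem PA_formula (C0 : ℝ) (h0 : 1 ≤ C0) : ∃ C : ℝ, 0 < C ∧ ∀ (ℓ T : ℝ) (f : ℂ → ℂ)
    (c : ℕ → ℂ) (ε b : ℝ), 64 ≤ ℓ → LDat C0 ℓ T f → (∀ n, ‖c n‖ ≤ 1) → b ≤ 1 →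
    (∀ s : ℂ, 1 < s.re → logDeriv f s = -LSeries (fun n => (Λ n : ℂ) * c n) s + ε / (s - b)) →
    ∀ v : ℝ, |v| ≤ T → ∀ k : ℕ,
    ‖Pk c k v - ε * Mk b k v + ∑ ρ ∈ ZD f (1 + (1 / 64 : ℝ) + v * Complex.I) (1 / 4),
      (od f ρ : ℂ) * (((1 / 64 : ℝ) : ℂ) / (1 + (1 / 64 : ℝ) + v * Complex.I - ρ)) ^ (k + 1)‖ ≤
      C * ℓ * (1 / 8) ^ k := by
  obtain ⟨A, hA, H⟩ := landau_k
  refine ⟨A * (C0 + 1), by positivity, ?_⟩
  intro ℓ T f c ε b hℓ hf hc hb hld v hv k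
  have hℓ0 : 0 < ℓ := by linarith
  set a : ℂ := ((1 / 64 : ℝ) : ℂ) with ha
  have hanorm : ‖a‖ = 1 / 64 := by
    rw [ha, Complex.norm_real, Real.norm_eq_abs, abs_of_pos (by norm_num)]
  set s₀ : ℂ := 1 + a + v * Complex.I with hs₀
  have hre : s₀.re = 1 + 1 / 64 := by
    rw [hs₀, ha]
    simp
  have hs₀1 : 1 < s₀.re := by rw [hre]; norm_num
  have hlam : 1 / ℓ ≤ (1 / 64 : ℝ) := one_div_le_one_div_of_le (by norm_num) hℓ
  have hf0 : f s₀ ≠ 0 := by
    intro h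
    have := hf.zre _ h
    linarith
  have hgr := hf.growth (1 / 64) v hlam (by norm_num) hv
  have h1 := H f s₀ (1 / 2) (C0 * ℓ) (by norm_num) (by positivity) hf.diff hf0 hgr k
  have hR : (1 / 2 : ℝ) / 2 = 1 / 4 := by norm_num
  rw [hR] at h1
  -- the derivatives
  have h2 : iteratedDeriv k (logDeriv f) s₀ =
      -iteratedDeriv k (LSeries (fun n => (Λ n : ℂ) * c n)) s₀ +
        ε * ((-1) ^ k * (k.factorial : ℂ) * (1 / (s₀ - b)) ^ (k + 1)) := by
    have hopen : IsOpen {s : ℂ | 1 < s.re} := isOpen_lt continuous_const Complex.continuous_re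
    have hev : logDeriv f =ᶠ[nhds s₀]
        (fun s => -LSeries (fun n => (Λ n : ℂ) * c n) s + ε / (s - b)) := by
      filter_upwards [hopen.mem_nhds hs₀1] with s hs
      exact hld s hs
    rw [(hev.iteratedDeriv k).eq_of_nhds]
    have hc1 : ContDiffAt ℂ k (fun s => -LSeries (fun n => (Λ n : ℂ) * c n) s) s₀ :=
      ((pa_analytic c hc hs₀1).neg).contDiffAt
    have hsb : s₀ - b ≠ 0 := by
      intro h
      have h3 := congrArg Complex.re h
      rw [Complex.sub_re, Complex.ofReal_re, hre, Complex.zero_re] at h3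
      linarith
    have hc2 : ContDiffAt ℂ k (fun s : ℂ => (ε : ℂ) / (s - b)) s₀ := by
      apply AnalyticAt.contDiffAt
      exact analyticAt_const.div (analyticAt_id.sub analyticAt_const) hsb
    rw [iteratedDeriv_fun_add hc1 hc2, iteratedDeriv_fun_neg, pa_iter]
  have h3 := D0_series c (fun n => (hc n).trans (by norm_num)) (1 / 64) (by norm_num) k v
  rw [← ha, ← hs₀] at h3
  have hk : (k.factorial : ℂ) ≠ 0 := Nat.cast_ne_zero.mpr (Nat.factorial_ne_zero k)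
  have hM : Mk b k v = (a / (s₀ - b)) ^ (k + 1) := by
    unfold Mk
    rw [← ha]
    have : ((1 / 64 + 1 - b : ℝ) : ℂ) + v * Complex.I = s₀ - b := by
      rw [hs₀, ha]
      push_cast
      ring
    rw [this]
  have hP : a ^ (k + 1) * (iteratedDeriv k (LSeries (fun n => (Λ n : ℂ) * c n)) s₀ /
      (k.factorial : ℂ)) = (-1) ^ k * Pk c k v := h3
  have h4 : a ^ (k + 1) * (iteratedDeriv k (logDeriv f) s₀ / (k.factorial : ℂ)) =
      -((-1) ^ k * Pk c k v) + (-1) ^ k * (ε * Mk b k v) := by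
    rw [h2, hM, ← hP, pa_div a (s₀ - b)]
    generalize (1 / (s₀ - (b : ℂ))) ^ (k + 1) = X
    field_simp
  have hsq : ((-1 : ℂ) ^ k) * (-1) ^ k = 1 := by
    rw [← mul_pow]
    norm_num
  have h5 : Pk c k v - ε * Mk b k v + ∑ ρ ∈ ZD f s₀ (1 / 4),
      (od f ρ : ℂ) * (a / (s₀ - ρ)) ^ (k + 1) =
      -((-1) ^ k * (a ^ (k + 1) * (iteratedDeriv k (logDeriv f) s₀ / (k.factorial : ℂ) -
        (-1) ^ k * ∑ ρ ∈ ZD f s₀ (1 / 4), (od f ρ : ℂ) * (1 / (s₀ - ρ)) ^ (k + 1)))) := by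
    rw [mul_sub, h4]
    have h6 : a ^ (k + 1) * ((-1) ^ k * ∑ ρ ∈ ZD f s₀ (1 / 4),
        (od f ρ : ℂ) * (1 / (s₀ - ρ)) ^ (k + 1)) =
        (-1) ^ k * ∑ ρ ∈ ZD f s₀ (1 / 4), (od f ρ : ℂ) * (a / (s₀ - ρ)) ^ (k + 1) := by
      rw [mul_left_comm, mul_sum]
      congr 1
      apply sum_congr rfl
      intro ρ _
      rw [pa_div a (s₀ - ρ)]
      ring
    rw [h6]
    linear_combination (-(Pk c k v) + ε * Mk b k v - ∑ ρ ∈ ZD f s₀ (1 / 4),
      (od f ρ : ℂ) * (a / (s₀ - ρ)) ^ (k + 1)) * hsq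
  rw [h5, norm_neg, norm_mul, norm_pow, norm_neg, norm_one, one_pow, one_mul, norm_mul, norm_pow,
    hanorm]
  have h7 : (1 / 64 : ℝ) ^ (k + 1) * (A * (C0 * ℓ + 1) / (1 / 2) * (4 / (1 / 2)) ^ k) =
      A * (C0 * ℓ + 1) / 32 * (1 / 8) ^ k := by
    rw [pow_succ]
    have : (1 / 64 : ℝ) ^ k * (4 / (1 / 2)) ^ k = (1 / 8) ^ k := by
      rw [← mul_pow]
      norm_num
    linear_combination (A * (C0 * ℓ + 1) / (1 / 2) / 64) * this
  calc (1 / 64 : ℝ) ^ (k + 1) * _ ≤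
        (1 / 64 : ℝ) ^ (k + 1) * (A * (C0 * ℓ + 1) / (1 / 2) * (4 / (1 / 2)) ^ k) :=
        mul_le_mul_of_nonneg_left h1 (by positivity)
    _ = A * (C0 * ℓ + 1) / 32 * (1 / 8) ^ k := h7
    _ ≤ A * (C0 + 1) * ℓ * (1 / 8) ^ k := by
        apply mul_le_mul_of_nonneg_right _ (by positivity)
        rw [div_le_iff₀ (by norm_num)]
        nlinarith [mul_pos hA hℓ0, mul_nonneg hA.le (by linarith : (0 : ℝ) ≤ ℓ - 1),
          mul_pos (mul_pos hA hℓ0) (by linarith : (0 : ℝ) < C0)]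

theorem pa_term_le (c : ℕ → ℂ) (hc : ∀ n, ‖c n‖ ≤ 1) (k : ℕ) (v : ℝ) (n : ℕ) :
    ‖((Λ n * Jk (1 / 64) k n : ℝ) : ℂ) * c n * (n : ℂ) ^ (-(v * Complex.I))‖ ≤
      Λ n * Jk (1 / 64) k n := by
  have h0 : 0 ≤ Λ n * Jk (1 / 64) k n :=
    mul_nonneg ArithmeticFunction.vonMangoldt_nonneg (Jk_nonneg _ k n (by norm_num))
  rcases eq_or_ne n 0 with rfl | hn
  · simp
  · have h1 : ‖(n : ℂ) ^ (-(v * Complex.I))‖ = 1 := by
      rw [Complex.norm_natCast_cpow_of_pos (Nat.pos_of_ne_zero hn)]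
      simp
    rw [norm_mul, norm_mul, h1, mul_one, Complex.norm_real, Real.norm_eq_abs, abs_of_nonneg h0]
    exact mul_le_of_le_one_right h0 (hc n)

/-- Bounds and continuity: `|Pk| ≤ C` (`Jk_sum`, `Jk_summable`), `|Mk| ≤ 1` for `b ≤ 1`, both
continuous in `v`. -/
theorem PA_bounds : ∃ C : ℝ, 1 ≤ C ∧ ∀ (c : ℕ → ℂ), (∀ n, ‖c n‖ ≤ 1) → ∀ (k : ℕ) (v : ℝ),
    ‖Pk c k v‖ ≤ C := by
  obtain ⟨C, hC, h⟩ := Jk_sum
  refine ⟨max C 1, le_max_right _ _, ?_⟩
  intro c hc k v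
  have hs := Jk_summable (1 / 64) k (by norm_num) (by norm_num)
  unfold Pk
  refine (tsum_of_norm_bounded hs.hasSum (pa_term_le c hc k v)).trans ?_
  refine le_trans ?_ (le_max_left _ _)
  exact hs.tsum_le_of_sum_le fun s => h (1 / 64) k s (by norm_num) (by norm_num)

theorem Pk_continuous (c : ℕ → ℂ) (hc : ∀ n, ‖c n‖ ≤ 1) (k : ℕ) : Continuous (Pk c k) := by
  have hs := Jk_summable (1 / 64) k (by norm_num) (by norm_num)
  unfold Pk
  refine continuous_tsum ?_ hs fun n v => pa_term_le c hc k v n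
  intro n
  rcases eq_or_ne n 0 with rfl | hn
  · have : (fun v : ℝ => ((Λ 0 * Jk (1 / 64) k 0 : ℝ) : ℂ) * c 0 *
        ((0 : ℕ) : ℂ) ^ (-(v * Complex.I))) = fun _ => 0 := by
      funext v
      simp
    rw [this]
    exact continuous_const
  · apply continuous_const.mul
    have hn0 : (n : ℂ) ≠ 0 := Nat.cast_ne_zero.mpr hn
    exact Continuous.const_cpow (by fun_prop) (Or.inl hn0)

theorem pa_re (b v : ℝ) : (((1 / 64 + 1 - b : ℝ) : ℂ) + v * Complex.I).re = 1 / 64 + 1 - b := by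
  simp

theorem Mk_norm (b : ℝ) (hb : b ≤ 1) (k : ℕ) (v : ℝ) : ‖Mk b k v‖ ≤ 1 := by
  unfold Mk
  rw [norm_pow]
  apply pow_le_one₀ (norm_nonneg _)
  rw [norm_div]
  have h1 : ‖((1 / 64 : ℝ) : ℂ)‖ = 1 / 64 := by
    rw [Complex.norm_real, Real.norm_eq_abs, abs_of_pos (by norm_num)]
  have h2 : (1 / 64 : ℝ) ≤ ‖((1 / 64 + 1 - b : ℝ) : ℂ) + v * Complex.I‖ := by
    have h3 := Complex.re_le_norm (((1 / 64 + 1 - b : ℝ) : ℂ) + v * Complex.I)
    rw [pa_re] at h3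
    linarith
  rw [h1]
  exact div_le_one_of_le₀ h2 (norm_nonneg _)

theorem Mk_continuous (b : ℝ) (hb : b ≤ 1) (k : ℕ) : Continuous (Mk b k) := by
  unfold Mk
  apply Continuous.pow
  apply Continuous.div continuous_const (by fun_prop)
  intro v h
  have h1 := congrArg Complex.re h
  rw [pa_re, Complex.zero_re] at h1
  linarith

end Pool.Agent.Lib.H18Q
end

-- from Lib.H68X.XFB
section

/-!
# Chunk XFB: the polynomial `Fb`
-/

open Finset

namespace Pool.Agent.Lib.H68T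

/-- A smooth amplitude with compact support. -/
structure XFB_Amp (A M : ℝ) (O O1 O2 : ℝ → ℝ) : Prop where
  d0 : ∀ y, HasDerivAt O (O1 y) y
  d1 : ∀ y, HasDerivAt O1 (O2 y) y
  c2 : Continuous O2
  b0 : ∀ y, |O y| ≤ M
  b1 : ∀ y, |O1 y| ≤ M
  b2 : ∀ y, |O2 y| ≤ M
  z0 : ∀ y, y ∉ Set.Icc A (A + 6) → O y = 0
  z1 : ∀ y, y ∉ Set.Icc A (A + 6) → O1 y = 0
  z2 : ∀ y, y ∉ Set.Icc A (A + 6) → O2 y = 0

theorem XFB_Amp.c0 {A M : ℝ} {O O1 O2 : ℝ → ℝ} (h : XFB_Amp A M O O1 O2) : Continuous O :=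
  continuous_iff_continuousAt.mpr (fun y => (h.d0 y).continuousAt)

theorem XFB_Amp.c1 {A M : ℝ} {O O1 O2 : ℝ → ℝ} (h : XFB_Amp A M O O1 O2) : Continuous O1 :=
  continuous_iff_continuousAt.mpr (fun y => (h.d1 y).continuousAt)



/-- The summand. -/
noncomputable def XFB_W (O : ℝ → ℝ) (t u : ℝ) : ℂ :=
  (O (Real.log u) : ℂ) * (u : ℂ) ^ (-(1 + t * Complex.I))

theorem XFB_lip {A M : ℝ} {O O1 O2 : ℝ → ℝ} (h : XFB_Amp A M O O1 O2) (x y : ℝ) :
    |O y - O x| ≤ M * |y - x| := by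
  have := Convex.norm_image_sub_le_of_norm_hasDerivWithin_le (f := O) (f' := O1) (s := Set.univ)
    (C := M) (x := x) (y := y) (fun z _ => (h.d0 z).hasDerivWithinAt) (fun z _ => h.b1 z)
    convex_univ (Set.mem_univ _) (Set.mem_univ _)
  simpa [Real.norm_eq_abs] using this

theorem XFB_diff {A M : ℝ} {O O1 O2 : ℝ → ℝ} (h : XFB_Amp A M O O1 O2) (hM : 0 ≤ M)
    (t u u' : ℝ) (hu : 1 ≤ u) (huu : u ≤ u') :
    ‖XFB_W O t u' - XFB_W O t u‖ ≤ M * (2 + |t|) * ((u' - u) / u ^ 2) := by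
  have hu0 : 0 < u := by linarith
  have hu0' : 0 < u' := by linarith
  have hll : Real.log u ≤ Real.log u' := Real.log_le_log hu0 huu
  have hd : Real.log u' - Real.log u ≤ (u' - u) / u := by
    rw [← Real.log_div hu0'.ne' hu0.ne']
    refine (Real.log_le_sub_one_of_pos (by positivity)).trans ?_
    rw [sub_div, div_self hu0.ne']
  have h1 := XFB_lip h (Real.log u) (Real.log u')
  rw [abs_of_nonneg (by linarith : 0 ≤ Real.log u' - Real.log u)] at h1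
  have h2 := h.b0 (Real.log u)
  have h3 := LONG_cpow_norm t u' hu0'
  have h4 := LONG_cpow_diff t u u' hu0 huu
  unfold XFB_W
  have e : (O (Real.log u') : ℂ) * (u' : ℂ) ^ (-(1 + t * Complex.I)) -
      (O (Real.log u) : ℂ) * (u : ℂ) ^ (-(1 + t * Complex.I)) =
      ((O (Real.log u') - O (Real.log u) : ℝ) : ℂ) *
        (u' : ℂ) ^ (-(1 + t * Complex.I)) +
      (O (Real.log u) : ℂ) * ((u' : ℂ) ^ (-(1 + t * Complex.I)) -
        (u : ℂ) ^ (-(1 + t * Complex.I))) := by push_cast; ring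
  rw [e]
  refine (norm_add_le _ _).trans ?_
  rw [norm_mul, norm_mul, Complex.norm_real, Complex.norm_real, h3, Real.norm_eq_abs,
    Real.norm_eq_abs]
  have b1 : |O (Real.log u') - O (Real.log u)| * u'⁻¹ ≤ (M * ((u' - u) / u)) * u⁻¹ := by
    have : M * (Real.log u' - Real.log u) ≤ M * ((u' - u) / u) :=
      mul_le_mul_of_nonneg_left hd hM
    apply mul_le_mul (h1.trans this) (inv_anti₀ hu0 huu) (by positivity)
    exact le_trans (abs_nonneg _) (h1.trans this)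
  have b2 : |O (Real.log u)| * ‖(u' : ℂ) ^ (-(1 + t * Complex.I)) -
        (u : ℂ) ^ (-(1 + t * Complex.I))‖ ≤ M * ((1 + |t|) * (u' - u) / u ^ 2) := by
    apply mul_le_mul h2 h4 (norm_nonneg _) hM
  calc _ ≤ (M * ((u' - u) / u)) * u⁻¹ + M * ((1 + |t|) * (u' - u) / u ^ 2) := add_le_add b1 b2
    _ = _ := by field_simp; ring

theorem XFB_W_cont (O : ℝ → ℝ) (hO : Continuous O) (t : ℝ) (u : ℝ) (hpos : 0 < u) :
    ContinuousAt (XFB_W O t) u := by
  unfold XFB_W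
  apply ContinuousAt.mul
  · apply Complex.continuous_ofReal.continuousAt.comp
    exact ContinuousAt.comp (f := Real.log) (g := O) hO.continuousAt
      (Real.continuousAt_log hpos.ne')
  · have h1 : ContinuousAt (fun z : ℂ => z ^ (-(1 + t * Complex.I))) ((u : ℝ) : ℂ) :=
      continuousAt_cpow_const (Or.inl (by simpa using hpos))
    exact ContinuousAt.comp (f := fun x : ℝ => (x : ℂ)) h1 Complex.continuous_ofReal.continuousAt

theorem XFB_W_ii (O : ℝ → ℝ) (hO : Continuous O) (t : ℝ) (a b : ℝ) (ha : 0 < a) (hab : a ≤ b) :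
    IntervalIntegrable (XFB_W O t) MeasureTheory.volume a b :=
  ContinuousOn.intervalIntegrable_of_Icc hab
    (fun u hu => (XFB_W_cont O hO t u (lt_of_lt_of_le ha hu.1)).continuousWithinAt)

/-- Substitution `u = e^y`. -/
theorem XFB_subst (O : ℝ → ℝ) (hO : Continuous O) (t : ℝ) (N : ℝ) (hN : 1 ≤ N) :
    ∫ u in (1:ℝ)..N, XFB_W O t u =
      ∫ y in (0:ℝ)..Real.log N, (O y : ℂ) * Complex.exp (-(t * Complex.I) * y) := by
  have hN0 : 0 < N := by linarith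
  have h := intervalIntegral.integral_deriv_smul_comp' (f := Real.exp) (f' := Real.exp)
    (g := XFB_W O t) (a := 0) (b := Real.log N) (fun x _ => Real.hasDerivAt_exp x)
    Real.continuous_exp.continuousOn ?_
  · rw [Real.exp_zero, Real.exp_log hN0] at h
    rw [← h]
    apply intervalIntegral.integral_congr
    intro y _
    simp only [Function.comp_apply, XFB_W, Real.log_exp, Complex.real_smul]
    rw [Complex.cpow_def_of_ne_zero (by exact_mod_cast (Real.exp_pos y).ne'),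
      ← Complex.ofReal_log (Real.exp_pos y).le, Real.log_exp, Complex.ofReal_exp,
      mul_left_comm, ← Complex.exp_add]
    congr 2
    ring
  · intro u hu
    obtain ⟨y, -, rfl⟩ := hu
    exact (XFB_W_cont O hO t _ (Real.exp_pos y)).continuousWithinAt


/-- The amplitude of `Fb`. -/
noncomputable def XFB_O (c β y : ℝ) : ℝ := w (y + c) * Real.exp ((β - 1) * y)

noncomputable def XFB_O1 (c β y : ℝ) : ℝ :=
  (LONG2_V1 c y + (β - 1) * w (y + c)) * Real.exp ((β - 1) * y)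

noncomputable def XFB_O2 (c β y : ℝ) : ℝ :=
  (LONG2_V2 c y + 2 * ((β - 1) * LONG2_V1 c y) + (β - 1) ^ 2 * w (y + c)) *
    Real.exp ((β - 1) * y)

theorem XFB_amp : ∃ M : ℝ, 0 ≤ M ∧ ∀ c β : ℝ, c ≤ -2 → 1 / 2 ≤ β → β ≤ 1 →
    XFB_Amp (-c - 2) M (XFB_O c β) (XFB_O1 c β) (XFB_O2 c β) := by
  obtain ⟨B, hB1, hs1, hs2, hz1, hz2⟩ := LONG_sT
  have hs1' : ∀ x, |LONG2_s1 x| ≤ B := hs1
  have hs2' : ∀ x, |LONG2_s2 x| ≤ B := hs2
  have hB0 : 0 ≤ B := by linarith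
  refine ⟨9 * B ^ 2, by positivity, fun c β hc hβ hβ1 => ?_⟩
  have t1 : ∀ x, |Real.smoothTransition x| ≤ 1 := fun x => by
    rw [abs_of_nonneg (Real.smoothTransition.nonneg _)]; exact Real.smoothTransition.le_one _
  have tw : ∀ x, |w x| ≤ 1 := fun x => by
    rw [abs_of_nonneg (LONG_w_nonneg _)]; exact LONG_w_le_one _
  have V1 : ∀ y, |LONG2_V1 c y| ≤ 2 * B := by
    intro y
    unfold LONG2_V1
    refine (abs_sub _ _).trans ?_
    rw [abs_mul, abs_mul]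
    calc _ ≤ B * 1 + 1 * B := by
          gcongr
          · exact hs1' _
          · exact t1 _
          · exact t1 _
          · exact hs1' _
      _ = _ := by ring
  have V2 : ∀ y, |LONG2_V2 c y| ≤ 2 * B + 2 * B ^ 2 := by
    intro y
    unfold LONG2_V2
    refine (abs_add_le _ _).trans ?_
    have h1 := abs_sub (LONG2_s2 (y + c + 2) * Real.smoothTransition (4 - (y + c)))
      (2 * (LONG2_s1 (y + c + 2) * LONG2_s1 (4 - (y + c))))
    rw [abs_mul, abs_mul, abs_mul, abs_two] at h1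
    rw [abs_mul (Real.smoothTransition (y + c + 2))]
    have h2 : |LONG2_s2 (y + c + 2)| * |Real.smoothTransition (4 - (y + c))| ≤ B * 1 := by
      gcongr
      · exact hs2' _
      · exact t1 _
    have h3 : |LONG2_s1 (y + c + 2)| * |LONG2_s1 (4 - (y + c))| ≤ B * B := by
      gcongr
      · exact hs1' _
      · exact hs1' _
    have h4 : |Real.smoothTransition (y + c + 2)| * |LONG2_s2 (4 - (y + c))| ≤ 1 * B := by
      gcongr
      · exact t1 _
      · exact hs2' _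
    nlinarith
  have hout : ∀ y, y ∉ Set.Icc (-c - 2) (-c - 2 + 6) →
      w (y + c) = 0 ∧ LONG2_V1 c y = 0 ∧ LONG2_V2 c y = 0 := by
    intro y hy
    rw [Set.mem_Icc, not_and_or, not_le, not_le] at hy
    rcases hy with hy | hy
    · have e0 : Real.smoothTransition (y + c + 2) = 0 :=
        Real.smoothTransition.zero_of_nonpos (by linarith)
      have e1 : LONG2_s1 (y + c + 2) = 0 := hz1 _ (by rw [Set.mem_Icc]; intro h; linarith [h.1])
      have e2 : LONG2_s2 (y + c + 2) = 0 := hz2 _ (by rw [Set.mem_Icc]; intro h; linarith [h.1])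
      unfold w LONG2_V1 LONG2_V2
      rw [e0, e1, e2]
      simp
    · have e0 : Real.smoothTransition (4 - (y + c)) = 0 :=
        Real.smoothTransition.zero_of_nonpos (by linarith)
      have e1 : LONG2_s1 (4 - (y + c)) = 0 := hz1 _ (by rw [Set.mem_Icc]; intro h; linarith [h.1])
      have e2 : LONG2_s2 (4 - (y + c)) = 0 := hz2 _ (by rw [Set.mem_Icc]; intro h; linarith [h.1])
      unfold w LONG2_V1 LONG2_V2
      rw [e0, e1, e2]
      simp
  have hbeta : |β - 1| ≤ 1 := by rw [abs_le]; constructor <;> linarith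
  have hexp : ∀ y, y ∈ Set.Icc (-c - 2) (-c - 2 + 6) → |Real.exp ((β - 1) * y)| ≤ 1 := by
    intro y hy
    rw [abs_of_pos (Real.exp_pos _), Real.exp_le_one_iff]
    have : 0 ≤ y := by linarith [hy.1]
    nlinarith
  have hE : ∀ y : ℝ, HasDerivAt (fun y : ℝ => Real.exp ((β - 1) * y))
      (Real.exp ((β - 1) * y) * (β - 1)) y := by
    intro y
    have := ((hasDerivAt_id' y).const_mul (β - 1)).exp
    simpa using this
  have gen : ∀ (f : ℝ → ℝ) (D : ℝ), 0 ≤ D → (∀ y, |f y| ≤ D) →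
      (∀ y, y ∉ Set.Icc (-c - 2) (-c - 2 + 6) → f y = 0) → ∀ y,
      |f y * Real.exp ((β - 1) * y)| ≤ D := by
    intro f D hD hf hz y
    by_cases h : y ∈ Set.Icc (-c - 2) (-c - 2 + 6)
    · rw [abs_mul]
      calc _ ≤ D * 1 := mul_le_mul (hf y) (hexp y h) (abs_nonneg _) hD
        _ = D := mul_one D
    · rw [hz y h]; simpa using hD
  refine ⟨?_, ?_, ?_, ?_, ?_, ?_, ?_, ?_, ?_⟩
  · intro y
    unfold XFB_O XFB_O1
    refine HasDerivAt.congr_deriv ((LONG2_hV c y).mul (hE y)) ?_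
    ring
  · intro y
    unfold XFB_O1 XFB_O2
    refine HasDerivAt.congr_deriv
      (((LONG2_hV1 c y).add ((LONG2_hV c y).const_mul (β - 1))).mul (hE y)) ?_
    simp only [Pi.add_apply]
    ring
  · unfold XFB_O2 LONG2_V1 LONG2_V2
    have := LONG2_cw
    have := LONG2_c0
    have := LONG2_c1
    have := LONG2_c2
    fun_prop
  · intro y
    unfold XFB_O
    refine (gen (fun y => w (y + c)) 1 zero_le_one (fun y => tw _) (fun y hy => (hout y hy).1)
      y).trans ?_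
    nlinarith
  · intro y
    unfold XFB_O1
    refine (gen (fun y => LONG2_V1 c y + (β - 1) * w (y + c)) (2 * B + 1) (by linarith)
      (fun y => ?_) (fun y hy => ?_) y).trans ?_
    · refine (abs_add_le _ _).trans (add_le_add (V1 y) ?_)
      rw [abs_mul]
      calc _ ≤ (1:ℝ) * 1 := mul_le_mul hbeta (tw _) (abs_nonneg _) zero_le_one
        _ = 1 := one_mul 1
    · rw [(hout y hy).1, (hout y hy).2.1]; simp
    · nlinarith
  · intro y
    unfold XFB_O2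
    refine (gen (fun y => LONG2_V2 c y + 2 * ((β - 1) * LONG2_V1 c y) + (β - 1) ^ 2 * w (y + c))
      ((2 * B + 2 * B ^ 2) + 2 * (2 * B) + 1) (by positivity)
      (fun y => ?_) (fun y hy => ?_) y).trans ?_
    · refine (abs_add_three _ _ _).trans ?_
      have h1 : |2 * ((β - 1) * LONG2_V1 c y)| ≤ 2 * (2 * B) := by
        rw [abs_mul, abs_mul, abs_two]
        have := mul_le_mul hbeta (V1 y) (abs_nonneg _) zero_le_one
        linarith
      have h2 : |(β - 1) ^ 2 * w (y + c)| ≤ 1 := by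
        rw [abs_mul, abs_pow]
        calc _ ≤ (1:ℝ) ^ 2 * 1 := by
              apply mul_le_mul _ (tw _) (abs_nonneg _) (by norm_num)
              exact pow_le_pow_left₀ (abs_nonneg _) hbeta 2
          _ = 1 := by norm_num
      exact add_le_add (add_le_add (V2 y) h1) h2
    · rw [(hout y hy).1, (hout y hy).2.1, (hout y hy).2.2]; simp
    · nlinarith
  · intro y hy
    unfold XFB_O
    rw [(hout y hy).1]; simp
  · intro y hy
    unfold XFB_O1
    rw [(hout y hy).1, (hout y hy).2.1]; simp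
  · intro y hy
    unfold XFB_O2
    rw [(hout y hy).1, (hout y hy).2.1, (hout y hy).2.2]; simp

theorem XFB_eq (X : ℕ) (β t : ℝ) (hX : 1 ≤ X) :
    Fb X β t = ∑ n ∈ Icc 1 (60 * X), XFB_W (XFB_O (-Real.log X) β) t n := by
  unfold Fb FF
  apply sum_congr rfl
  intro m hm
  rw [mem_Icc] at hm
  have hm0 : (0:ℝ) < m := by exact_mod_cast hm.1
  have hX0 : (0:ℝ) < X := by exact_mod_cast hX
  unfold XFB_W XFB_O v
  show (((m : ℝ) ^ (β - 1) : ℝ) : ℂ) * _ * _ = _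
  rw [Real.log_div hm0.ne' hX0.ne', ← sub_eq_add_neg, Real.rpow_def_of_pos hm0,
    mul_comm (Real.log (m:ℝ)) (β - 1)]
  push_cast
  ring



end Pool.Agent.Lib.H68T
end

-- from Lib.H18Q.PB2
section

/-!
# Project H18Q, chunk PB2: the quotient of the bump by the Gamma density
-/

open Finset

namespace Pool.Agent.Lib.H18Q

open Pool.Agent.Lib.H68T

/-- One step: a smooth function vanishing outside `[a, b]`. -/
theorem pb2_step (g : ℝ → ℝ) (a b : ℝ) (hg : ContDiff ℝ (⊤ : ℕ∞) g)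
    (hz : ∀ y, y ∉ Set.Icc a b → g y = 0) :
    (∀ y, HasDerivAt g (deriv g y) y) ∧ ContDiff ℝ (⊤ : ℕ∞) (deriv g) ∧
    (∀ y, y ∉ Set.Icc a b → deriv g y = 0) ∧ ∃ M : ℝ, ∀ y, |g y| ≤ M := by
  obtain ⟨h1, h2⟩ := contDiff_infty_iff_deriv.mp hg
  have hsup : Function.support g ⊆ Set.Icc a b := by
    intro y hy
    by_contra h
    exact hy (hz y h)
  have hts : tsupport g ⊆ Set.Icc a b := closure_minimal hsup isClosed_Icc
  refine ⟨fun y => (h1 y).hasDerivAt, h2, ?_, ?_⟩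
  · intro y hy
    by_contra h
    exact hy (hts (support_deriv_subset h))
  · have hc : HasCompactSupport g := isCompact_Icc.of_isClosed_subset (isClosed_tsupport _) hts
    obtain ⟨C, hC⟩ := hc.exists_bound_of_continuous hg.continuous
    exact ⟨C, hC⟩

/-- Three derivatives of `w`: explicit functions, continuous, bounded, zero outside `[-2, 4]`
(`w` is smooth: `Real.smoothTransition.contDiff`; it vanishes outside `[-2, 4]`, so its derivatives
do; take `iteratedDeriv j w`; see `XFB_amp` in `H68X/XFB` for two derivatives). -/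
theorem PB2_w : ∃ (w1 w2 w3 : ℝ → ℝ) (M : ℝ), 1 ≤ M ∧ (∀ y, HasDerivAt w (w1 y) y) ∧
    (∀ y, HasDerivAt w1 (w2 y) y) ∧ (∀ y, HasDerivAt w2 (w3 y) y) ∧ Continuous w3 ∧
    (∀ y, y ∉ Set.Icc (-2 : ℝ) 4 → w y = 0 ∧ w1 y = 0 ∧ w2 y = 0 ∧ w3 y = 0) ∧
    ∀ y, |w y| ≤ M ∧ |w1 y| ≤ M ∧ |w2 y| ≤ M ∧ |w3 y| ≤ M := by
  have hw : ContDiff ℝ (⊤ : ℕ∞) w := by
    unfold w
    have h1 : ContDiff ℝ (⊤ : ℕ∞) (fun y : ℝ => Real.smoothTransition (y + 2)) :=
      Real.smoothTransition.contDiff.comp (contDiff_id.add contDiff_const)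
    have h2 : ContDiff ℝ (⊤ : ℕ∞) (fun y : ℝ => Real.smoothTransition (4 - y)) :=
      Real.smoothTransition.contDiff.comp (contDiff_const.sub contDiff_id)
    exact h1.mul h2
  have hz : ∀ y, y ∉ Set.Icc (-2 : ℝ) 4 → w y = 0 := by
    intro y hy
    rw [Set.mem_Icc, not_and_or, not_le, not_le] at hy
    unfold w
    rcases hy with hy | hy
    · rw [Real.smoothTransition.zero_of_nonpos (by linarith), zero_mul]
    · rw [Real.smoothTransition.zero_of_nonpos (x := 4 - y) (by linarith), mul_zero]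
  obtain ⟨a1, a2, a3, M0, hM0⟩ := pb2_step w (-2) 4 hw hz
  obtain ⟨b1, b2, b3, M1, hM1⟩ := pb2_step (deriv w) (-2) 4 a2 a3
  obtain ⟨c1, c2, c3, M2, hM2⟩ := pb2_step (deriv (deriv w)) (-2) 4 b2 b3
  obtain ⟨d1, d2, d3, M3, hM3⟩ := pb2_step (deriv (deriv (deriv w))) (-2) 4 c2 c3
  refine ⟨deriv w, deriv (deriv w), deriv (deriv (deriv w)), 1 + |M0| + |M1| + |M2| + |M3|, ?_,
    a1, b1, c1, c2.continuous, fun y hy => ⟨hz y hy, a3 y hy, b3 y hy, c3 y hy⟩, fun y => ?_⟩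
  · have := abs_nonneg M0
    have := abs_nonneg M1
    have := abs_nonneg M2
    have := abs_nonneg M3
    linarith
  · have h0 := (hM0 y).trans (le_abs_self M0)
    have h1 := (hM1 y).trans (le_abs_self M1)
    have h2 := (hM2 y).trans (le_abs_self M2)
    have h3 := (hM3 y).trans (le_abs_self M3)
    have := abs_nonneg M0
    have := abs_nonneg M1
    have := abs_nonneg M2
    have := abs_nonneg M3
    refine ⟨?_, ?_, ?_, ?_⟩ <;> linarith

/-- `k! ≤ e √k (k/e)^k`. -/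
theorem pb2_fact (k : ℕ) (hk : 1 ≤ k) :
    (k.factorial : ℝ) ≤ Real.exp 1 * Real.sqrt k * ((k : ℝ) / Real.exp 1) ^ k := by
  obtain ⟨m, rfl⟩ : ∃ m, k = m + 1 := ⟨k - 1, by omega⟩
  have h := Stirling.stirlingSeq'_antitone (Nat.zero_le m)
  simp only [Function.comp, Nat.succ_eq_add_one, zero_add] at h
  rw [Stirling.stirlingSeq_one] at h
  unfold Stirling.stirlingSeq at h
  have hp : (0 : ℝ) < ((m + 1 : ℕ) : ℝ) := by positivity
  have hs : 0 < Real.sqrt (2 * ((m + 1 : ℕ) : ℝ)) * (((m + 1 : ℕ) : ℝ) / Real.exp 1) ^ (m + 1) := by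
    positivity
  rw [div_le_iff₀ hs] at h
  refine h.trans (le_of_eq ?_)
  rw [Real.sqrt_mul (by norm_num)]
  have h2 : Real.sqrt 2 ≠ 0 := by positivity
  field_simp

/-- `1/Wd k U ≤ C √U` for `k = ⌊U/64⌋ ≥ 1`.

Proof. `Wd k U = (1/64) y^k e^(-y)/k!` with `y = U/64 ∈ [k, k+1)`. `y^k e^(-y)` is decreasing for
`y ≥ k`, so it is `≥ (k+1)^k e^(-k-1) ≥ 2 k^k e^(-k)/e` (`(1 + 1/k)^k ≥ 2`), and
`k! ≤ e √k (k/e)^k` (`Stirling.stirlingSeq` is antitone for `n ≥ 1`, value `e/√2` at `1`; or by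
induction). So `1/Wd ≤ 64 (e/2) e √k ≤ 300 √k`. -/
theorem PB2_W (X : ℕ) (hk : 1 ≤ kX X) : 0 < Wd (kX X) (Real.log X) ∧
    1 / Wd (kX X) (Real.log X) ≤ 300 * Real.sqrt (Real.log X) := by
  set k := kX X with hkd
  set U := Real.log X with hU
  have hk1 : (1 : ℝ) ≤ k := by exact_mod_cast hk
  have hU0 : 0 ≤ U := Real.log_natCast_nonneg X
  have hkle : (k : ℝ) ≤ U / 64 := by
    rw [hkd]
    unfold kX
    exact Nat.floor_le (by positivity)
  have hklt : U / 64 < k + 1 := by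
    rw [hkd]
    unfold kX
    exact Nat.lt_floor_add_one _
  have hUp : 0 < U := by linarith
  have hW : 0 < Wd k U := by
    unfold Wd
    positivity
  refine ⟨hW, ?_⟩
  rw [div_le_iff₀ hW]
  -- `1 ≤ 300 √U Wd`
  have hf := pb2_fact k hk
  have hfp : (0 : ℝ) < (k.factorial : ℝ) := by exact_mod_cast k.factorial_pos
  have h1 : (k : ℝ) ^ k ≤ (U / 64) ^ k := pow_le_pow_left₀ (by positivity) hkle k
  have h2 : Real.exp (-((k : ℝ) + 1)) ≤ Real.exp (-(U / 64)) := Real.exp_le_exp.mpr (by linarith)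
  have h3 : Real.sqrt k ≤ Real.sqrt U / 8 := by
    have e : Real.sqrt (U / 64) = Real.sqrt U / 8 := by
      rw [Real.sqrt_div hU0]
      congr 1
      rw [show (64 : ℝ) = 8 ^ 2 by norm_num]
      exact Real.sqrt_sq (by norm_num)
    rw [← e]
    exact Real.sqrt_le_sqrt hkle
  have hWe : Wd k U = (1 / 64) * ((U / 64) ^ k * Real.exp (-(U / 64))) / (k.factorial : ℝ) := by
    unfold Wd
    rw [div_pow, pow_succ, div_pow, one_pow]
    ring
  rw [hWe, mul_div_assoc', le_div_iff₀ hfp, one_mul]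
  have he : Real.exp 1 * Real.exp 1 ≤ 8 := by
    have := Real.exp_one_lt_d9
    have := Real.exp_pos 1
    nlinarith
  have h4 : ((k : ℝ) / Real.exp 1) ^ k = (k : ℝ) ^ k * (Real.exp 1 * Real.exp (-((k : ℝ) + 1))) := by
    rw [div_pow, div_eq_mul_inv]
    congr 1
    rw [← Real.exp_nat_mul, mul_one, ← Real.exp_neg, ← Real.exp_add]
    congr 1
    ring
  calc (k.factorial : ℝ) ≤ Real.exp 1 * Real.sqrt k * ((k : ℝ) / Real.exp 1) ^ k := hf
    _ = (Real.exp 1 * Real.exp 1) * Real.sqrt k * ((k : ℝ) ^ k * Real.exp (-((k : ℝ) + 1))) := by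
        rw [h4]; ring
    _ ≤ 8 * (Real.sqrt U / 8) * ((U / 64) ^ k * Real.exp (-(U / 64))) := by
        gcongr
    _ = 64 * Real.sqrt U * (1 / 64 * ((U / 64) ^ k * Real.exp (-(U / 64)))) := by ring
    _ ≤ _ := by
        gcongr
        norm_num

/-- The exponent `h(u) = (u - U)/64 - k (log u - log U)`. -/
noncomputable def pb2_h (k : ℕ) (U u : ℝ) : ℝ := (u - U) / 64 - k * (Real.log u - Real.log U)

/-- `h'`. -/
noncomputable def pb2_h1 (k : ℕ) (u : ℝ) : ℝ := 1 / 64 - k * u⁻¹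

/-- `h''`. -/
noncomputable def pb2_h2 (k : ℕ) (u : ℝ) : ℝ := k * (u⁻¹) ^ 2

/-- `h'''`. -/
noncomputable def pb2_h3 (k : ℕ) (u : ℝ) : ℝ := -(2 * k * (u⁻¹) ^ 3)

theorem pb2_dh (k : ℕ) (U u : ℝ) (hu : 0 < u) : HasDerivAt (pb2_h k U) (pb2_h1 k u) u := by
  unfold pb2_h pb2_h1
  have h1 : HasDerivAt (fun u : ℝ => (u - U) / 64) (1 / 64) u :=
    ((hasDerivAt_id u).sub_const U).div_const 64
  have h2 : HasDerivAt (fun u : ℝ => (k : ℝ) * (Real.log u - Real.log U)) (k * u⁻¹) u :=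
    ((Real.hasDerivAt_log hu.ne').sub_const _).const_mul _
  exact h1.sub h2

theorem pb2_dh1 (k : ℕ) (u : ℝ) (hu : 0 < u) : HasDerivAt (pb2_h1 k) (pb2_h2 k u) u := by
  unfold pb2_h1 pb2_h2
  have h2 := ((hasDerivAt_inv hu.ne').const_mul (k : ℝ)).const_sub (1 / 64 : ℝ)
  refine h2.congr_deriv ?_
  rw [inv_pow]
  ring

theorem pb2_dh2 (k : ℕ) (u : ℝ) (hu : 0 < u) : HasDerivAt (pb2_h2 k) (pb2_h3 k u) u := by
  unfold pb2_h2 pb2_h3
  have h2 := ((hasDerivAt_inv hu.ne').pow 2).const_mul (k : ℝ)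
  refine h2.congr_deriv ?_
  rw [← inv_pow]
  push_cast
  ring

theorem pb2_dG (k : ℕ) (U u : ℝ) (hu : 0 < u) :
    HasDerivAt (fun u => Real.exp (pb2_h k U u)) (pb2_h1 k u * Real.exp (pb2_h k U u)) u := by
  have := (pb2_dh k U u hu).exp
  rwa [mul_comm] at this

theorem pb2_dG1 (k : ℕ) (U u : ℝ) (hu : 0 < u) :
    HasDerivAt (fun u => pb2_h1 k u * Real.exp (pb2_h k U u))
      ((pb2_h2 k u + pb2_h1 k u ^ 2) * Real.exp (pb2_h k U u)) u := by
  refine ((pb2_dh1 k u hu).mul (pb2_dG k U u hu)).congr_deriv ?_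
  ring

theorem pb2_dG2 (k : ℕ) (U u : ℝ) (hu : 0 < u) :
    HasDerivAt (fun u => (pb2_h2 k u + pb2_h1 k u ^ 2) * Real.exp (pb2_h k U u))
      ((pb2_h3 k u + 3 * pb2_h1 k u * pb2_h2 k u + pb2_h1 k u ^ 3) * Real.exp (pb2_h k U u)) u := by
  refine (((pb2_dh2 k u hu).add ((pb2_dh1 k u hu).pow 2)).mul (pb2_dG k U u hu)).congr_deriv ?_
  simp only [Pi.add_apply, Pi.pow_apply]
  push_cast
  ring

theorem pb2_cG3 (k : ℕ) (U u : ℝ) (hu : 0 < u) :
    ContinuousAt (fun u => (pb2_h3 k u + 3 * pb2_h1 k u * pb2_h2 k u + pb2_h1 k u ^ 3) *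
      Real.exp (pb2_h k U u)) u := by
  have c0 := (pb2_dG k U u hu).continuousAt
  have c1 := (pb2_dh1 k u hu).continuousAt
  have c2 := (pb2_dh2 k u hu).continuousAt
  have c3 : ContinuousAt (pb2_h3 k) u := by
    unfold pb2_h3
    have := continuousAt_inv₀ hu.ne'
    fun_prop (disch := exact hu.ne')
  exact ((c3.add ((continuousAt_const.mul c1).mul c2)).add (c1.pow 3)).mul c0

/-- Bounds for the exponent on `[U - 2, U + 4]`. -/
theorem pb2_hb (k : ℕ) (U : ℝ) (hU : 100 ≤ U) (h1 : (k : ℝ) ≤ U / 64)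
    (u : ℝ) (hu : u ∈ Set.Icc (U - 2) (U + 4)) :
    |pb2_h1 k u| ≤ 1 ∧ |pb2_h2 k u| ≤ 1 ∧ |pb2_h3 k u| ≤ 1 := by
  obtain ⟨hu1, hu2⟩ := Set.mem_Icc.mp hu
  have hu0 : 0 < u := by linarith
  have hi : 0 < u⁻¹ := inv_pos.mpr hu0
  have hk : (0 : ℝ) ≤ k := Nat.cast_nonneg k
  have hki : k * u⁻¹ ≤ 1 := by
    rw [← div_eq_mul_inv, div_le_one hu0]
    linarith
  have hki0 : 0 ≤ k * u⁻¹ := by positivity
  have hi1 : u⁻¹ ≤ 1 / 2 := by
    rw [inv_eq_one_div]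
    exact one_div_le_one_div_of_le (by norm_num) (by linarith)
  refine ⟨?_, ?_, ?_⟩
  · unfold pb2_h1
    rw [abs_le]
    constructor <;> linarith
  · unfold pb2_h2
    rw [abs_of_nonneg (by positivity)]
    calc (k : ℝ) * u⁻¹ ^ 2 = (k * u⁻¹) * u⁻¹ := by ring
      _ ≤ 1 * (1 / 2) := mul_le_mul hki hi1 hi.le (by norm_num)
      _ ≤ 1 := by norm_num
  · unfold pb2_h3
    rw [abs_neg, abs_of_nonneg (by positivity)]
    calc 2 * (k : ℝ) * u⁻¹ ^ 3 = 2 * ((k * u⁻¹) * (u⁻¹ * u⁻¹)) := by ring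
      _ ≤ 2 * (1 * ((1 / 2) * (1 / 2))) := by
          gcongr
      _ ≤ 1 := by norm_num

theorem pb2_hh (k : ℕ) (U : ℝ) (hU : 100 ≤ U) (h1 : (k : ℝ) ≤ U / 64)
    (u : ℝ) (hu : u ∈ Set.Icc (U - 2) (U + 4)) : pb2_h k U u ≤ 4 := by
  have h := Convex.norm_image_sub_le_of_norm_hasDerivWithin_le (f := pb2_h k U)
    (f' := pb2_h1 k) (s := Set.Icc (U - 2) (U + 4)) (C := 1) (x := U) (y := u)
    (fun z hz => (pb2_dh k U z (by linarith [(Set.mem_Icc.mp hz).1])).hasDerivWithinAt)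
    (fun z hz => (pb2_hb k U hU h1 z hz).1) (convex_Icc _ _)
    (Set.mem_Icc.mpr ⟨by linarith, by linarith⟩) hu
  have h0 : pb2_h k U U = 0 := by
    unfold pb2_h
    ring
  rw [h0, sub_zero, one_mul, Real.norm_eq_abs, Real.norm_eq_abs] at h
  obtain ⟨hu1, hu2⟩ := Set.mem_Icc.mp hu
  refine (le_abs_self _).trans (h.trans ?_)
  rw [abs_le]
  constructor <;> linarith

/-- A function vanishing below `a > 0` with a derivative on `(0, ∞)` has a derivative. -/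
theorem pb2_glue (a : ℝ) (ha : 0 < a) (f f1 : ℝ → ℝ) (hz : ∀ y, y < a → f y = 0)
    (hz1 : ∀ y, y < a → f1 y = 0) (hd : ∀ y, 0 < y → HasDerivAt f (f1 y) y) (y : ℝ) :
    HasDerivAt f (f1 y) y := by
  by_cases h : 0 < y
  · exact hd y h
  · have hy : y < a := by linarith [not_lt.mp h]
    rw [hz1 y hy]
    have he : f =ᶠ[nhds y] fun _ => 0 := by
      filter_upwards [Iio_mem_nhds hy] with z hz'
      exact hz z hz'
    exact (hasDerivAt_const y (0 : ℝ)).congr_of_eventuallyEq he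

/-- The quotient `κ(u) = w(u - U)/Wd(k, u)` (`0` for `u ∉ [U-2, U+4]`), `U = log X`, `k = kX X`, has
three derivatives bounded by `C √U`.

Proof. For `u > 0`, `1/Wd k u = (1/Wd k U) e^(h(u))`, `h(u) = (u - U)/64 - k log (u/U)`. On
`[U-2, U+4]` (`U` large, `|k - U/64| ≤ 1`): `|h'(u)| = |1/64 - k/u| = |u/64 - k|/u ≤ 2/u ≤ 1`,
`|h''| = k/u² ≤ 1`, `|h'''| = 2 k/u³ ≤ 1`, and `h(U) = 0`, so `|h| ≤ 4` there. So `G = e^h` has
`G' = h' G`, `G'' = (h'' + h'²) G`, `G''' = (h''' + 3 h' h'' + h'³) G`, all at most `5 e^4` in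
absolute value. `κ = (1/Wd k U) w(u - U) G(u)`: Leibniz with `PB2_w`; outside `[U - 2, U + 4]`
everything is `0` (the functions `κ_j(u)` are defined as the Leibniz expressions for `u > 0` and `0`
for `u ≤ 0`, and `HasDerivAt` at `u ≤ 0` holds since `κ_j = 0` on `(-∞, U-2)`). `PB2_W` for the
factor `1/Wd k U`. -/
theorem PB2_quot : ∃ C K : ℝ, 0 < C ∧ ∀ X : ℕ, K ≤ X → ∃ f f1 f2 f3 : ℝ → ℝ,
    (∀ y, HasDerivAt f (f1 y) y) ∧ (∀ y, HasDerivAt f1 (f2 y) y) ∧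
    (∀ y, HasDerivAt f2 (f3 y) y) ∧ Continuous f3 ∧
    (∀ y, y ∉ Set.Icc (Real.log X - 2) (Real.log X + 4) → f y = 0 ∧ f1 y = 0 ∧ f2 y = 0 ∧
      f3 y = 0) ∧
    (∀ y, |f y| ≤ C * Real.sqrt (Real.log X) ∧ |f3 y| ≤ C * Real.sqrt (Real.log X)) ∧
    ∀ u : ℝ, 0 < u → w (u - Real.log X) = Wd (kX X) u * f u := by
  obtain ⟨w1, w2, w3, M, hM, d0, d1, d2, c3, hout, hb⟩ := PB2_w
  have hE4 : 1 ≤ Real.exp 4 := Real.one_le_exp (by norm_num)
  refine ⟨300 * (15 * M * Real.exp 4), Real.exp 100, by positivity, fun X hX => ?_⟩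
  have hX0 : (0 : ℝ) < X := lt_of_lt_of_le (Real.exp_pos _) hX
  set U := Real.log X with hUd
  have hU : 100 ≤ U := (Real.le_log_iff_exp_le hX0).mpr hX
  set k := kX X with hkd
  have hkle : (k : ℝ) ≤ U / 64 := by
    rw [hkd]
    unfold kX
    exact Nat.floor_le (by positivity)
  have hklt : U / 64 < k + 1 := by
    rw [hkd]
    unfold kX
    exact Nat.lt_floor_add_one _
  have hk1 : 1 ≤ k := by
    by_contra h
    have : k = 0 := by omega
    rw [this] at hklt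
    norm_num at hklt
    linarith
  obtain ⟨hWp, hWb⟩ := PB2_W X hk1
  rw [← hkd, ← hUd] at hWp hWb
  set c := 1 / Wd k U with hc
  have hc0 : 0 < c := by rw [hc]; positivity
  set G : ℝ → ℝ := fun u => Real.exp (pb2_h k U u) with hG
  set G1 : ℝ → ℝ := fun u => pb2_h1 k u * Real.exp (pb2_h k U u) with hG1
  set G2 : ℝ → ℝ := fun u => (pb2_h2 k u + pb2_h1 k u ^ 2) * Real.exp (pb2_h k U u) with hG2
  set G3 : ℝ → ℝ := fun u => (pb2_h3 k u + 3 * pb2_h1 k u * pb2_h2 k u + pb2_h1 k u ^ 3) *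
      Real.exp (pb2_h k U u) with hG3
  have dG : ∀ u, 0 < u → HasDerivAt G (G1 u) u := pb2_dG k U
  have dG1 : ∀ u, 0 < u → HasDerivAt G1 (G2 u) u := pb2_dG1 k U
  have dG2 : ∀ u, 0 < u → HasDerivAt G2 (G3 u) u := pb2_dG2 k U
  have cG3 : ∀ u, 0 < u → ContinuousAt G3 u := pb2_cG3 k U
  -- the shifted bump
  have e0 : ∀ u, HasDerivAt (fun u => w (u - U)) (w1 (u - U)) u := fun u => by
    simpa using (d0 (u - U)).comp_sub_const u U
  have e1 : ∀ u, HasDerivAt (fun u => w1 (u - U)) (w2 (u - U)) u := fun u => by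
    simpa using (d1 (u - U)).comp_sub_const u U
  have e2 : ∀ u, HasDerivAt (fun u => w2 (u - U)) (w3 (u - U)) u := fun u => by
    simpa using (d2 (u - U)).comp_sub_const u U
  have e3 : ∀ u, ContinuousAt (fun u => w3 (u - U)) u := fun u =>
    (c3.comp (continuous_id.sub continuous_const)).continuousAt
  have hz : ∀ u, u ∉ Set.Icc (U - 2) (U + 4) → w (u - U) = 0 ∧ w1 (u - U) = 0 ∧
      w2 (u - U) = 0 ∧ w3 (u - U) = 0 := by
    intro u hu
    apply hout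
    intro h
    apply hu
    rw [Set.mem_Icc] at h ⊢
    constructor <;> linarith [h.1, h.2]
  -- the functions
  set f : ℝ → ℝ := fun u => c * (w (u - U) * G u) with hf
  set f1 : ℝ → ℝ := fun u => c * (w1 (u - U) * G u + w (u - U) * G1 u) with hf1
  set f2 : ℝ → ℝ := fun u => c * (w2 (u - U) * G u + 2 * (w1 (u - U) * G1 u) +
    w (u - U) * G2 u) with hf2
  set f3 : ℝ → ℝ := fun u => c * (w3 (u - U) * G u + 3 * (w2 (u - U) * G1 u) +
    3 * (w1 (u - U) * G2 u) + w (u - U) * G3 u) with hf3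
  have hfz : ∀ y, y ∉ Set.Icc (U - 2) (U + 4) → f y = 0 ∧ f1 y = 0 ∧ f2 y = 0 ∧ f3 y = 0 := by
    intro y hy
    obtain ⟨h0, h1, h2, h3⟩ := hz y hy
    simp only [hf, hf1, hf2, hf3, h0, h1, h2, h3]
    simp
  have hlow : ∀ y, y < U - 2 → y ∉ Set.Icc (U - 2) (U + 4) := by
    intro y hy h
    linarith [(Set.mem_Icc.mp h).1]
  have ha : 0 < U - 2 := by linarith
  refine ⟨f, f1, f2, f3, ?_, ?_, ?_, ?_, hfz, ?_, ?_⟩
  · refine pb2_glue (U - 2) ha f f1 (fun y hy => (hfz y (hlow y hy)).1)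
      (fun y hy => (hfz y (hlow y hy)).2.1) (fun y hy => ?_)
    exact ((e0 y).mul (dG y hy)).const_mul c
  · refine pb2_glue (U - 2) ha f1 f2 (fun y hy => (hfz y (hlow y hy)).2.1)
      (fun y hy => (hfz y (hlow y hy)).2.2.1) (fun y hy => ?_)
    refine ((((e1 y).mul (dG y hy)).add ((e0 y).mul (dG1 y hy))).const_mul c).congr_deriv ?_
    simp only [hf2]
    ring
  · refine pb2_glue (U - 2) ha f2 f3 (fun y hy => (hfz y (hlow y hy)).2.2.1)
      (fun y hy => (hfz y (hlow y hy)).2.2.2) (fun y hy => ?_)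
    refine (((((e2 y).mul (dG y hy)).add (((e1 y).mul (dG1 y hy)).const_mul 2)).add
      ((e0 y).mul (dG2 y hy))).const_mul c).congr_deriv ?_
    simp only [hf3]
    ring
  · rw [continuous_iff_continuousAt]
    intro y
    by_cases h : 0 < y
    · have g0 := (dG y h).continuousAt
      have g1 := (dG1 y h).continuousAt
      have g2 := (dG2 y h).continuousAt
      have g3 := cG3 y h
      exact continuousAt_const.mul (((((e3 y).mul g0).add
        (continuousAt_const.mul ((e2 y).continuousAt.mul g1))).add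
        (continuousAt_const.mul ((e1 y).continuousAt.mul g2))).add ((e0 y).continuousAt.mul g3))
    · have hy : y < U - 2 := by linarith [not_lt.mp h]
      have he : f3 =ᶠ[nhds y] fun _ => 0 := by
        filter_upwards [Iio_mem_nhds hy] with z hz'
        exact (hfz z (hlow z hz')).2.2.2
      exact (continuousAt_const (y := (0 : ℝ))).congr he.symm
  · intro y
    have hM0 : 0 ≤ M := by linarith
    have hs : 0 ≤ Real.sqrt U := Real.sqrt_nonneg U
    by_cases hy : y ∈ Set.Icc (U - 2) (U + 4)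
    · obtain ⟨b0, b1, b2, b3⟩ := hb (y - U)
      obtain ⟨p1, p2, p3⟩ := pb2_hb k U hU hkle y hy
      have p0 := pb2_hh k U hU hkle y hy
      have q0 : |G y| ≤ Real.exp 4 := by
        simp only [hG]
        rw [abs_of_pos (Real.exp_pos _)]
        exact Real.exp_le_exp.mpr p0
      have q1 : |G1 y| ≤ Real.exp 4 := by
        simp only [hG1]
        rw [abs_mul]
        calc _ ≤ 1 * Real.exp 4 := mul_le_mul p1 q0 (abs_nonneg _) (by norm_num)
          _ = _ := one_mul _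
      have q2 : |G2 y| ≤ 2 * Real.exp 4 := by
        simp only [hG2]
        rw [abs_mul]
        refine mul_le_mul ?_ q0 (abs_nonneg _) (by norm_num)
        refine (abs_add_le _ _).trans ?_
        rw [abs_pow]
        have := pow_le_one₀ (n := 2) (abs_nonneg _) p1
        linarith
      have q3 : |G3 y| ≤ 5 * Real.exp 4 := by
        simp only [hG3]
        rw [abs_mul]
        refine mul_le_mul ?_ q0 (abs_nonneg _) (by norm_num)
        refine (abs_add_three _ _ _).trans ?_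
        rw [abs_pow, abs_mul, abs_mul]
        have h1 := pow_le_one₀ (n := 3) (abs_nonneg _) p1
        have h2 : |(3 : ℝ)| * |pb2_h1 k y| * |pb2_h2 k y| ≤ 3 * 1 * 1 := by
          rw [abs_of_pos (by norm_num : (0 : ℝ) < 3)]
          gcongr
        linarith
      have r : ∀ a b A B : ℝ, |a| ≤ A → |b| ≤ B → |a * b| ≤ A * B := by
        intro a b A B hA hB
        rw [abs_mul]
        exact mul_le_mul hA hB (abs_nonneg _) ((abs_nonneg _).trans hA)
      constructor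
      · simp only [hf]
        rw [abs_mul, abs_of_pos hc0]
        calc c * |w (y - U) * G y| ≤ (300 * Real.sqrt U) * (M * Real.exp 4) :=
              mul_le_mul hWb (r _ _ _ _ b0 q0) (abs_nonneg _) (by positivity)
          _ ≤ (300 * Real.sqrt U) * (15 * (M * Real.exp 4)) := by
              apply mul_le_mul_of_nonneg_left _ (by positivity)
              have : 0 ≤ M * Real.exp 4 := by positivity
              linarith
          _ = _ := by ring
      · simp only [hf3]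
        rw [abs_mul, abs_of_pos hc0]
        have t0 := r _ _ _ _ b3 q0
        have t1 := r _ _ _ _ b2 q1
        have t2 := r _ _ _ _ b1 q2
        have t3 := r _ _ _ _ b0 q3
        have key : |w3 (y - U) * G y + 3 * (w2 (y - U) * G1 y) + 3 * (w1 (y - U) * G2 y) +
            w (y - U) * G3 y| ≤ 15 * (M * Real.exp 4) := by
          refine (abs_add_le _ _).trans ?_
          have s1 := abs_add_three (w3 (y - U) * G y) (3 * (w2 (y - U) * G1 y))
            (3 * (w1 (y - U) * G2 y))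
          rw [abs_mul 3, abs_mul 3, abs_of_pos (by norm_num : (0 : ℝ) < 3)] at s1
          linarith
        calc _ ≤ (300 * Real.sqrt U) * (15 * (M * Real.exp 4)) :=
              mul_le_mul hWb key (abs_nonneg _) (by positivity)
          _ = _ := by ring
    · obtain ⟨h0, -, -, h3⟩ := hfz y hy
      rw [h0, h3, abs_zero]
      constructor <;> positivity
  · intro u hu
    simp only [hf, hG, hc]
    have hW' : Wd k u * Real.exp (pb2_h k U u) = Wd k U := by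
      unfold Wd pb2_h
      have hUp : 0 < U := by linarith
      have h1 : Real.exp ((u - U) / 64 - k * (Real.log u - Real.log U)) =
          Real.exp (u / 64) * Real.exp (-(U / 64)) * (U ^ k / u ^ k) := by
        rw [show (u - U) / 64 - k * (Real.log u - Real.log U) =
          u / 64 + -(U / 64) + (k * Real.log U - k * Real.log u) by ring, Real.exp_add,
          Real.exp_add, Real.exp_sub, Real.exp_nat_mul, Real.exp_nat_mul, Real.exp_log hu,
          Real.exp_log hUp]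
      rw [h1, Real.exp_neg (u / 64)]
      have h2 : Real.exp (u / 64) ≠ 0 := (Real.exp_pos _).ne'
      have h3 : u ^ k ≠ 0 := (pow_pos hu k).ne'
      have h4 : (k.factorial : ℝ) ≠ 0 := by exact_mod_cast k.factorial_ne_zero
      field_simp
    calc w (u - U) = (Wd k U) * (1 / Wd k U * w (u - U)) := by
          field_simp
      _ = _ := by rw [← hW']; ring

end Pool.Agent.Lib.H18Q
end

-- from Lib.H18Q.PB3
section

/-!
# Project H18Q, chunk PB3: the bump as a superposition of Gamma densities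
-/

open Finset MeasureTheory

namespace Pool.Agent.Lib.H18Q

open ArithmeticFunction Pool.Agent.Lib.H68T

/-- Proof: `fourier_inv3` for the functions of `PB2_quot` (`b - a = 6`). -/
theorem PB3_repr : ∃ C K : ℝ, 1 ≤ C ∧ ∀ X : ℕ, K ≤ X → ∃ kh : ℝ → ℂ, Continuous kh ∧
    (∀ ξ, ‖kh ξ‖ ≤ C * Real.sqrt (Real.log X) / (1 + |ξ|) ^ 3) ∧
    ∀ u : ℝ, 0 < u → (w (u - Real.log X) : ℂ) =
      (Wd (kX X) u : ℂ) * ∫ ξ : ℝ, kh ξ * Complex.exp (u * ξ * Complex.I) := by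
  obtain ⟨C, K, hC, h⟩ := PB2_quot
  refine ⟨max 1 (12 * C), K, le_max_left _ _, ?_⟩
  intro X hX
  obtain ⟨f, f1, f2, f3, h0, h1, h2, hc, hz, hb, hw⟩ := h X hX
  obtain ⟨g, hgc, hgb, hgf⟩ := fourier_inv3 f f1 f2 f3 (Real.log X - 2) (Real.log X + 4)
    (C * Real.sqrt (Real.log X)) (by linarith) (by positivity) h0 h1 h2 hc
    (fun y hy => (hz y hy).1) (fun y hy => (hz y hy).2.1) (fun y hy => (hz y hy).2.2.1)
    (fun y hy => (hz y hy).2.2.2) (fun y => (hb y).1) (fun y => (hb y).2)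
  refine ⟨g, hgc, ?_, ?_⟩
  · intro ξ
    refine (hgb ξ).trans ?_
    apply div_le_div_of_nonneg_right _ (by positivity)
    have h3 : 12 * C ≤ max 1 (12 * C) := le_max_right _ _
    have h4 := mul_le_mul_of_nonneg_right h3 (Real.sqrt_nonneg (Real.log X))
    linarith
  · intro u hu
    rw [← hgf u, hw u hu]
    push_cast
    ring

/-- Integrability of the Gamma densities. -/
theorem pb3_intOn (k : ℕ) (b : ℝ) (hb : 0 < b) :
    IntegrableOn (fun u : ℝ => u ^ k * Real.exp (-(b * u))) (Set.Ioi 0) := by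
  have h := integrableOn_rpow_mul_exp_neg_mul_rpow (p := 1) (s := (k : ℝ)) (b := b)
    (by have : (0 : ℝ) ≤ k := Nat.cast_nonneg k
        linarith) one_pos hb
  refine h.congr_fun ?_ measurableSet_Ioi
  intro x _
  simp only [Real.rpow_natCast, Real.rpow_one, neg_mul]

theorem pb3_norm (k : ℕ) (z : ℂ) (u : ℝ) (hu : 0 ≤ u) :
    ‖(u : ℂ) ^ k * Complex.exp (-(z * u))‖ = u ^ k * Real.exp (-(z.re * u)) := by
  rw [norm_mul, norm_pow, Complex.norm_real, Real.norm_of_nonneg hu, Complex.norm_exp]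
  congr 2
  simp

theorem pb3_intOnC (k : ℕ) (z : ℂ) (hz : 0 < z.re) :
    IntegrableOn (fun u : ℝ => (u : ℂ) ^ k * Complex.exp (-(z * u))) (Set.Ioi 0) := by
  refine Integrable.mono' (pb3_intOn k z.re hz) ?_ ?_
  · apply Continuous.aestronglyMeasurable
    fun_prop
  · refine (ae_restrict_iff' measurableSet_Ioi).mpr (Filter.Eventually.of_forall ?_)
    intro u hu
    rw [pb3_norm k z u (le_of_lt hu)]

/-- The Gamma integral with complex parameter. -/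
theorem pb3_gamma (k : ℕ) (z : ℂ) (hz : 0 < z.re) :
    ∫ u in Set.Ioi (0 : ℝ), (u : ℂ) ^ k * Complex.exp (-(z * u)) =
      (k.factorial : ℂ) / z ^ (k + 1) := by
  have hz0 : z ≠ 0 := by
    intro h
    rw [h] at hz
    simp at hz
  have htend : ∀ k : ℕ, Filter.Tendsto (fun u : ℝ => (u : ℂ) ^ k * Complex.exp (-(z * u)))
      Filter.atTop (nhds 0) := by
    intro k
    rw [tendsto_zero_iff_norm_tendsto_zero]
    have h1 : Filter.Tendsto (fun u : ℝ => u ^ k * Real.exp (-(z.re * u)))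
        Filter.atTop (nhds 0) := by
      have := tendsto_rpow_mul_exp_neg_mul_atTop_nhds_zero (k : ℝ) z.re hz
      simpa [Real.rpow_natCast, neg_mul] using this
    refine h1.congr' ?_
    filter_upwards [Filter.eventually_ge_atTop 0] with u hu
    rw [pb3_norm k z u hu]
  induction k with
  | zero =>
    have h1 := integral_Ioi_of_hasDerivAt_of_tendsto' (a := (0 : ℝ))
      (f := fun u : ℝ => -(Complex.exp (-(z * u)) / z))
      (f' := fun u : ℝ => (u : ℂ) ^ 0 * Complex.exp (-(z * u))) (m := 0)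
      (fun u _ => by
        have h2 : HasDerivAt (fun u : ℝ => -(z * (u : ℂ))) (-(z * 1)) u :=
          ((Complex.ofRealCLM.hasDerivAt (x := u)).const_mul z).neg
        have h3 := ((h2.cexp).div_const z).neg
        convert! h3 using 1
        field_simp) (pb3_intOnC 0 z hz) (by
        have := ((htend 0).div_const z).neg
        simpa using this)
    rw [h1]
    simp
  | succ k ih =>
    have h1 := integral_Ioi_of_hasDerivAt_of_tendsto' (a := (0 : ℝ))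
      (f := fun u : ℝ => -((u : ℂ) ^ (k + 1) * Complex.exp (-(z * u)) / z))
      (f' := fun u : ℝ => (u : ℂ) ^ (k + 1) * Complex.exp (-(z * u)) -
        ((k : ℂ) + 1) / z * ((u : ℂ) ^ k * Complex.exp (-(z * u)))) (m := 0)
      (fun u _ => by
        have h0 : HasDerivAt (fun u : ℝ => (u : ℂ)) 1 u := Complex.ofRealCLM.hasDerivAt (x := u)
        have h2 : HasDerivAt (fun u : ℝ => -(z * (u : ℂ))) (-(z * 1)) u :=
          (h0.const_mul z).neg
        have h4 := h0.pow (k + 1)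
        have h3 := ((h4.mul h2.cexp).div_const z).neg
        convert! h3 using 1
        field_simp
        push_cast
        simp
        ring) ((pb3_intOnC (k + 1) z hz).sub ((pb3_intOnC k z hz).const_mul _)) (by
        have := ((htend (k + 1)).div_const z).neg
        simpa using this)
    rw [integral_sub (pb3_intOnC (k + 1) z hz) ((pb3_intOnC k z hz).const_mul _),
      integral_const_mul, ih] at h1
    have h5 : ∫ u in Set.Ioi (0 : ℝ), (u : ℂ) ^ (k + 1) * Complex.exp (-(z * u)) =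
        ((k : ℂ) + 1) / z * ((k.factorial : ℂ) / z ^ (k + 1)) := by
      have h6 : (0 : ℂ) - -(((0 : ℝ) : ℂ) ^ (k + 1) * Complex.exp (-(z * ((0 : ℝ) : ℂ))) / z) = 0 := by
        simp
      rw [h6] at h1
      linear_combination h1
    rw [h5, Nat.factorial_succ]
    push_cast
    field_simp
    ring

/-- Integrability of `kh`. -/
theorem pb3_kh_int (kh : ℝ → ℂ) (B : ℝ) (hkc : Continuous kh)
    (hkb : ∀ ξ, ‖kh ξ‖ ≤ B / (1 + |ξ|) ^ 3) : Integrable kh := by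
  have hB : 0 ≤ B := by
    have := (norm_nonneg _).trans (hkb 0)
    simpa using this
  have h1 : Integrable (fun ξ : ℝ => B * (1 + ξ ^ 2)⁻¹) := integrable_inv_one_add_sq.const_mul B
  refine Integrable.mono' h1 hkc.aestronglyMeasurable ?_
  refine Filter.Eventually.of_forall ?_
  intro ξ
  refine (hkb ξ).trans ?_
  rw [div_eq_mul_inv]
  apply mul_le_mul_of_nonneg_left _ hB
  apply inv_anti₀ (by positivity)
  have h2 : 0 ≤ |ξ| := abs_nonneg ξ
  have h3 : ξ ^ 2 = |ξ| ^ 2 := (sq_abs ξ).symm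
  rw [h3]
  nlinarith [pow_nonneg h2 3, pow_nonneg h2 2]

theorem pb3_Jk_eq (k n : ℕ) (hn : 1 ≤ n) : Jk (1 / 64) k n = Wd k (Real.log n) / n := by
  have hn0 : (0 : ℝ) < n := by exact_mod_cast hn
  unfold Jk Wd
  have h1 : (n : ℝ) ^ (-1 - 1 / 64 : ℝ) = Real.exp (-(Real.log n / 64)) / n := by
    rw [Real.rpow_sub hn0, Real.rpow_neg_one, Real.rpow_def_of_pos hn0, Real.exp_neg]
    rw [show Real.log n * (1 / 64) = Real.log n / 64 by ring]
    field_simp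
  rw [h1]
  ring


theorem pb3_v_zero (X m : ℕ) (hX : 1 ≤ X) (hm : 60 * X < m) : v X m = 0 := by
  unfold v w
  have hX0 : (0 : ℝ) < X := by exact_mod_cast hX
  have h60 : (60 : ℝ) ≤ (m : ℝ) / X := by
    rw [le_div_iff₀ hX0]
    exact_mod_cast hm.le
  have h4 : (4 : ℝ) ≤ Real.log ((m : ℝ) / X) := by
    rw [Real.le_log_iff_exp_le (by linarith)]
    refine le_trans ?_ h60
    have h1 : Real.exp 4 = Real.exp 1 ^ 4 := by
      rw [← Real.exp_nat_mul]
      norm_num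
    rw [h1]
    have h2 := Real.exp_one_lt_d9
    have h3 := Real.exp_pos 1
    calc Real.exp 1 ^ 4 ≤ 2.7182818286 ^ 4 := by gcongr
      _ ≤ 60 := by norm_num
  have h5 : Real.smoothTransition (4 - Real.log ((m : ℝ) / X)) = 0 :=
    Real.smoothTransition.zero_of_nonpos (by linarith)
  rw [h5, mul_zero]

/-- `FL(t) = ∫ kh(ξ) Pk(t - ξ) dξ`.

Proof. `Jk (1/64) k n = Wd k (log n)/n` for `n ≥ 1`. Interchange sum and integral (`∑ Λ Jk < ∞`,
`kh` integrable by the bound): for `n ≥ 2` (`Λ 0 = Λ 1 = 0`),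
`∫ kh(ξ) n^(-i(t-ξ)) dξ = n^(-it) ∫ kh(ξ) e^(i ξ log n) dξ`, and times `Wd k (log n)` this is
`n^(-it) w(log n - log X)`. `FL` has the terms `1 ≤ m ≤ 60 X`, `v X m = w(log (m/X))`, and
`w = 0` for `m > 60 X` (`log 60 > 4`). -/
theorem PB3_FL (X : ℕ) (hX : 1 ≤ X) (kh : ℝ → ℂ) (B : ℝ) (hkc : Continuous kh)
    (hkb : ∀ ξ, ‖kh ξ‖ ≤ B / (1 + |ξ|) ^ 3)
    (hk : ∀ u : ℝ, 0 < u → (w (u - Real.log X) : ℂ) =
      (Wd (kX X) u : ℂ) * ∫ ξ : ℝ, kh ξ * Complex.exp (u * ξ * Complex.I))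
    (p : Σ r : ℕ, DirichletCharacter ℂ r) (t : ℝ) :
    FL X p t = ∫ ξ : ℝ, kh ξ * Pk (fun n => p.2 (n : ZMod p.1)) (kX X) (t - ξ) := by
  have hint := pb3_kh_int kh B hkc hkb
  have hX0 : (0 : ℝ) < X := by exact_mod_cast hX
  set k := kX X with hkdef
  set F : ℕ → ℝ → ℂ := fun n ξ => kh ξ *
    (((ArithmeticFunction.vonMangoldt n * Jk (1 / 64) k n : ℝ) : ℂ) * p.2 (n : ZMod p.1) *
      (n : ℂ) ^ (-(((t - ξ : ℝ) : ℂ) * Complex.I))) with hF
  -- the exponential form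
  have hexp : ∀ n : ℕ, 1 ≤ n → ∀ ξ : ℝ, (n : ℂ) ^ (-(((t - ξ : ℝ) : ℂ) * Complex.I)) =
      (n : ℂ) ^ (-((t : ℂ) * Complex.I)) *
        Complex.exp ((Real.log n : ℝ) * ξ * Complex.I) := by
    intro n hn ξ
    have hn0 : (n : ℂ) ≠ 0 := by
      have : n ≠ 0 := by omega
      exact_mod_cast this
    rw [show (-(((t - ξ : ℝ) : ℂ) * Complex.I)) = -((t : ℂ) * Complex.I) + (ξ : ℂ) * Complex.I by
      push_cast; ring, Complex.cpow_add _ _ hn0]
    congr 1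
    rw [Complex.cpow_def_of_ne_zero hn0, Complex.natCast_log]
    congr 1
    ring
  have hnF : ∀ n : ℕ, ∀ ξ : ℝ, ‖F n ξ‖ ≤ (ArithmeticFunction.vonMangoldt n * Jk (1 / 64) k n) *
      ‖kh ξ‖ := by
    intro n ξ
    have hJ : 0 ≤ ArithmeticFunction.vonMangoldt n * Jk (1 / 64) k n :=
      mul_nonneg ArithmeticFunction.vonMangoldt_nonneg (Jk_nonneg _ _ _ (by norm_num))
    rw [hF]
    simp only [norm_mul]
    rw [Complex.norm_real, Real.norm_of_nonneg hJ, mul_comm (‖kh ξ‖)]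
    apply mul_le_mul_of_nonneg_right _ (norm_nonneg _)
    rcases Nat.eq_zero_or_pos n with h0 | hn
    · subst h0
      simp
    · have h1 : ‖(n : ℂ) ^ (-(((t - ξ : ℝ) : ℂ) * Complex.I))‖ = 1 := by
        rw [Complex.norm_natCast_cpow_of_pos hn]
        simp
      rw [h1, mul_one]
      calc _ ≤ (ArithmeticFunction.vonMangoldt n * Jk (1 / 64) k n) * 1 :=
            mul_le_mul_of_nonneg_left (p.2.norm_le_one _) hJ
        _ = _ := mul_one _
  have hcF : ∀ n : ℕ, Continuous (F n) := by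
    intro n
    rcases Nat.eq_zero_or_pos n with h0 | hn
    · subst h0
      have : F 0 = fun _ => 0 := by
        funext ξ
        rw [hF]
        simp
      rw [this]
      exact continuous_const
    · have : F n = fun ξ => kh ξ *
        (((ArithmeticFunction.vonMangoldt n * Jk (1 / 64) k n : ℝ) : ℂ) * p.2 (n : ZMod p.1) *
        ((n : ℂ) ^ (-((t : ℂ) * Complex.I)) *
        Complex.exp ((Real.log n : ℝ) * ξ * Complex.I))) := by
        funext ξ
        rw [hF]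
        simp only
        rw [hexp n hn ξ]
      rw [this]
      fun_prop
  have hiF : ∀ n : ℕ, Integrable (F n) := by
    intro n
    refine Integrable.mono' (hint.norm.const_mul
      (ArithmeticFunction.vonMangoldt n * Jk (1 / 64) k n)) (hcF n).aestronglyMeasurable ?_
    exact Filter.Eventually.of_forall fun ξ => hnF n ξ
  have hsF : Summable fun n : ℕ => ∫ ξ, ‖F n ξ‖ := by
    have hs := (Jk_summable (1 / 64) k (by norm_num) (by norm_num)).mul_right (∫ ξ, ‖kh ξ‖)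
    refine Summable.of_nonneg_of_le (fun n => integral_nonneg fun ξ => norm_nonneg _) ?_ hs
    intro n
    rw [← integral_const_mul]
    exact integral_mono (hiF n).norm (hint.norm.const_mul _) (fun ξ => hnF n ξ)
  have hsw := integral_tsum_of_summable_integral_norm hiF hsF
  have hrhs : (∫ ξ : ℝ, kh ξ * Pk (fun n => p.2 (n : ZMod p.1)) k (t - ξ)) =
      ∫ ξ : ℝ, ∑' n : ℕ, F n ξ := by
    apply integral_congr_ae
    refine Filter.Eventually.of_forall ?_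
    intro ξ
    simp only [hF, Pk]
    rw [tsum_mul_left]
  rw [hrhs, ← hsw]
  have hterm : ∀ n : ℕ, 1 ≤ n → ∫ ξ, F n ξ =
      ((ArithmeticFunction.vonMangoldt n : ℂ) * p.2 (n : ZMod p.1)) * (v X n : ℂ) *
        (n : ℂ) ^ (-(1 + t * Complex.I)) := by
    intro n hn
    have hn0 : (n : ℂ) ≠ 0 := by
      have : n ≠ 0 := by omega
      exact_mod_cast this
    have hnr : (0 : ℝ) < n := by exact_mod_cast hn
    rcases Nat.lt_or_ge 1 n with h2 | h2
    · have hlog : 0 < Real.log n := Real.log_pos (by exact_mod_cast h2)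
      have h3 : ∫ ξ, F n ξ = (((ArithmeticFunction.vonMangoldt n * Jk (1 / 64) k n : ℝ) : ℂ) *
          p.2 (n : ZMod p.1) * (n : ℂ) ^ (-((t : ℂ) * Complex.I))) *
          ∫ ξ : ℝ, kh ξ * Complex.exp ((Real.log n : ℝ) * ξ * Complex.I) := by
        rw [← integral_const_mul]
        apply integral_congr_ae
        refine Filter.Eventually.of_forall ?_
        intro ξ
        simp only [hF]
        rw [hexp n hn ξ]
        ring
      have h4 := hk (Real.log n) hlog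
      have h5 : (v X n : ℂ) = (w (Real.log n - Real.log X) : ℂ) := by
        unfold v
        rw [Real.log_div hnr.ne' hX0.ne']
      rw [h3, h5, h4, pb3_Jk_eq k n hn]
      have h6 : (n : ℂ) ^ (-(1 + (t : ℂ) * Complex.I)) =
          (n : ℂ)⁻¹ * (n : ℂ) ^ (-((t : ℂ) * Complex.I)) := by
        rw [show (-(1 + (t : ℂ) * Complex.I)) = -1 + -((t : ℂ) * Complex.I) by ring,
          Complex.cpow_add _ _ hn0, Complex.cpow_neg_one]
      rw [h6]
      push_cast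
      ring
    · have h1 : n = 1 := by omega
      subst h1
      have : ∀ ξ, F 1 ξ = 0 := by
        intro ξ
        simp [hF]
      simp [this]
  have hterm0 : ∫ ξ, F 0 ξ = 0 := by
    have : ∀ ξ, F 0 ξ = 0 := by
      intro ξ
      simp [hF]
    simp [this]
  rw [tsum_eq_sum (s := Icc 1 (60 * X))]
  · unfold FL FF
    apply Finset.sum_congr rfl
    intro n hn
    rw [hterm n (Finset.mem_Icc.mp hn).1]
  · intro n hn
    rcases Nat.eq_zero_or_pos n with h0 | hn1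
    · subst h0
      exact hterm0
    · have h2 : 60 * X < n := by
        by_contra h
        exact hn (Finset.mem_Icc.mpr ⟨hn1, by omega⟩)
      rw [hterm n hn1, pb3_v_zero X n hX h2]
      simp

/-- The Gamma integral for `Mk`. -/
theorem pb3_Mk (b : ℝ) (hb : b ≤ 1) (k : ℕ) (v : ℝ) :
    Mk b k v = ∫ u in Set.Ioi (0 : ℝ), (Wd k u : ℂ) *
      Complex.exp (-(((1 - b : ℝ) + v * Complex.I) * u)) := by
  have hz : 0 < ((1 / 64 + 1 - b : ℝ) + v * Complex.I : ℂ).re := by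
    simp
    linarith
  have h1 := pb3_gamma k _ hz
  have h2 : (∫ u in Set.Ioi (0 : ℝ), (Wd k u : ℂ) *
      Complex.exp (-(((1 - b : ℝ) + v * Complex.I) * u))) =
      ((1 / 64 : ℂ) ^ (k + 1) / (k.factorial : ℂ)) * ∫ u in Set.Ioi (0 : ℝ), (u : ℂ) ^ k *
        Complex.exp (-(((1 / 64 + 1 - b : ℝ) + v * Complex.I : ℂ) * u)) := by
    rw [← integral_const_mul]
    apply integral_congr_ae
    refine Filter.Eventually.of_forall ?_
    intro u
    simp only [Wd]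
    push_cast
    rw [show (-((1 / 64 + 1 - (b : ℂ) + v * Complex.I) * u)) =
      -((u : ℂ) / 64) + -((1 - (b : ℂ) + v * Complex.I) * u) by ring, Complex.exp_add]
    ring
  rw [h2, h1]
  unfold Mk
  have hk : (k.factorial : ℂ) ≠ 0 := by exact_mod_cast k.factorial_ne_zero
  have hz0 : ((1 / 64 + 1 - b : ℝ) + v * Complex.I : ℂ) ≠ 0 := by
    intro h
    rw [h] at hz
    simp at hz
  rw [div_pow]
  push_cast
  push_cast at hz0
  field_simp

/-- `Mb(t) = ∫ kh(ξ) Mk(t - ξ) dξ` for `b ≤ 1`.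

Proof. `Mk b k v = ∫_0^∞ Wd k u e^(-(1-b+iv) u) du` (Gamma integral,
`Complex.integral_cpow_mul_exp_neg_mul_Ioi` with exponent `k + 1`, `Γ(k+1) = k!`). Fubini
(`|Wd k u e^(..)| ≤ Wd k u`, `∫ Wd = 1`, `kh` integrable), and
`Wd k u ∫ kh(ξ) e^(iξu) dξ = w(u - log X)` for `u > 0`; for `u ≤ 0` the integrand of `Mb` vanishes
(`log X ≥ 2`: `hX`). -/
theorem PB3_Mb (X : ℕ) (hX : 8 ≤ X) (kh : ℝ → ℂ) (B : ℝ) (hkc : Continuous kh)
    (hkb : ∀ ξ, ‖kh ξ‖ ≤ B / (1 + |ξ|) ^ 3)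
    (hk : ∀ u : ℝ, 0 < u → (w (u - Real.log X) : ℂ) =
      (Wd (kX X) u : ℂ) * ∫ ξ : ℝ, kh ξ * Complex.exp (u * ξ * Complex.I))
    (b : ℝ) (hb : b ≤ 1) (t : ℝ) :
    Mb X b t = ∫ ξ : ℝ, kh ξ * Mk b (kX X) (t - ξ) := by
  have hint := pb3_kh_int kh B hkc hkb
  set k := kX X with hkdef
  have hlogX : 2 < Real.log X := by
    rw [Real.lt_log_iff_exp_lt (by positivity)]
    have h1 : Real.exp 2 = Real.exp 1 ^ 2 := by
      rw [← Real.exp_nat_mul]
      norm_num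
    rw [h1]
    have h2 := Real.exp_one_lt_d9
    have h3 := Real.exp_pos 1
    have h4 : (8 : ℝ) ≤ X := by exact_mod_cast hX
    calc Real.exp 1 ^ 2 ≤ 2.7182818286 ^ 2 := by gcongr
      _ < 8 := by norm_num
      _ ≤ X := h4
  -- the left side is an integral over the positive half line
  have hL : Mb X b t = ∫ u in Set.Ioi (0 : ℝ), (w (u - Real.log X) : ℂ) *
      Complex.exp (-((1 - b : ℝ) + t * Complex.I) * u) := by
    unfold Mb
    symm
    apply setIntegral_eq_integral_of_forall_compl_eq_zero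
    intro u hu
    have hu' : u ≤ 0 := by simpa using hu
    have h0 : w (u - Real.log X) = 0 := by
      unfold w
      rw [Real.smoothTransition.zero_of_nonpos (by linarith : u - Real.log X + 2 ≤ 0), zero_mul]
    rw [h0]
    simp
  rw [hL]
  set G : ℝ → ℝ → ℂ := fun u ξ => ((Wd k u : ℂ) *
      Complex.exp (-(((1 - b : ℝ) + t * Complex.I) * u))) * kh ξ *
      Complex.exp (u * ξ * Complex.I) with hG
  have h1 : (∫ u in Set.Ioi (0 : ℝ), (w (u - Real.log X) : ℂ) *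
      Complex.exp (-((1 - b : ℝ) + t * Complex.I) * u)) =
      ∫ u in Set.Ioi (0 : ℝ), ∫ ξ : ℝ, G u ξ := by
    apply setIntegral_congr_fun measurableSet_Ioi
    intro u hu
    simp only [hG]
    rw [hk u hu]
    have : (fun ξ : ℝ => ((Wd k u : ℂ) *
      Complex.exp (-(((1 - b : ℝ) + t * Complex.I) * u))) * kh ξ *
      Complex.exp (u * ξ * Complex.I)) = fun ξ : ℝ => ((Wd k u : ℂ) *
      Complex.exp (-(((1 - b : ℝ) + t * Complex.I) * u))) * (kh ξ *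
      Complex.exp (u * ξ * Complex.I)) := by
      funext ξ
      ring
    rw [this, integral_const_mul, neg_mul]
    ring
  rw [h1]
  have hWint : Integrable (fun u : ℝ => (Wd k u : ℂ) *
      Complex.exp (-(((1 - b : ℝ) + t * Complex.I) * u))) (volume.restrict (Set.Ioi 0)) := by
    have hz : 0 < ((1 / 64 + 1 - b : ℝ) + t * Complex.I : ℂ).re := by
      simp
      linarith
    have h2 := (pb3_intOnC k _ hz).const_mul ((1 / 64 : ℂ) ^ (k + 1) / (k.factorial : ℂ))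
    refine h2.congr (Filter.Eventually.of_forall ?_)
    intro u
    simp only [Wd]
    push_cast
    rw [show (-((1 / 64 + 1 - (b : ℂ) + t * Complex.I) * u)) =
      -((u : ℂ) / 64) + -((1 - (b : ℂ) + t * Complex.I) * u) by ring, Complex.exp_add]
    ring
  have hGint : Integrable (Function.uncurry G) ((volume.restrict (Set.Ioi 0)).prod volume) := by
    have h3 := hWint.mul_prod hint
    refine Integrable.mono h3 ?_ ?_
    · have h4 : AEStronglyMeasurable (fun z : ℝ × ℝ => Complex.exp (z.1 * z.2 * Complex.I))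
          ((volume.restrict (Set.Ioi 0)).prod volume) := by
        apply Continuous.aestronglyMeasurable
        fun_prop
      exact h3.1.mul h4
    · refine Filter.Eventually.of_forall ?_
      intro z
      simp only [hG, Function.uncurry]
      rw [norm_mul _ (Complex.exp (z.1 * z.2 * Complex.I))]
      have h5 : ‖Complex.exp ((z.1 : ℂ) * z.2 * Complex.I)‖ = 1 := by
        rw [← Complex.ofReal_mul]
        exact Complex.norm_exp_ofReal_mul_I _
      rw [h5, mul_one]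
  rw [integral_integral_swap hGint]
  apply integral_congr_ae
  refine Filter.Eventually.of_forall ?_
  intro ξ
  simp only
  rw [pb3_Mk b hb, ← integral_const_mul]
  apply setIntegral_congr_fun measurableSet_Ioi
  intro u _
  simp only [hG]
  rw [show (-(((1 - b : ℝ) + ((t - ξ : ℝ) : ℂ) * Complex.I) * (u : ℂ))) =
    -(((1 - b : ℝ) + (t : ℂ) * Complex.I) * u) + (u * ξ * Complex.I) by push_cast; ring,
    Complex.exp_add]
  ring

end Pool.Agent.Lib.H18Q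
end

-- from Lib.H18Q.PC1
section

/-!
# Project H18Q, chunk PC1: the mean of the contribution of the zeros
-/

open Finset

namespace Pool.Agent.Lib.H18Q

open Pool.Agent.Lib.H68T

theorem pc1_bern {k : ℕ} (hk : 1 ≤ k) (y : ℝ) :
    (1 / Real.sqrt (1 + y ^ 2)) ^ (k + 1) ≤ (1 + (k + 1) / 2 * y ^ 2)⁻¹ := by
  have h0 : (0 : ℝ) < 1 + y ^ 2 := by positivity
  have hk' : (1 : ℝ) ≤ k := by exact_mod_cast hk
  have h1 : 1 + (((k : ℝ) + 1) / 2) * y ^ 2 ≤ (1 + y ^ 2) ^ (((k : ℝ) + 1) / 2) :=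
    one_add_mul_self_le_rpow_one_add (by nlinarith [sq_nonneg y]) (by linarith)
  have h2 : Real.sqrt (1 + y ^ 2) ^ (k + 1) = (1 + y ^ 2) ^ (((k : ℝ) + 1) / 2) := by
    rw [Real.sqrt_eq_rpow, ← Real.rpow_natCast, ← Real.rpow_mul h0.le]
    congr 1
    push_cast
    ring
  rw [one_div, inv_pow, h2]
  exact inv_anti₀ (by positivity) h1

theorem pc1_cauchy {c : ℝ} (hc : 0 < c) :
    MeasureTheory.Integrable (fun y : ℝ => (1 + c * y ^ 2)⁻¹) ∧
    ∫ y : ℝ, (1 + c * y ^ 2)⁻¹ = Real.pi / Real.sqrt c := by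
  have hs : 0 < Real.sqrt c := Real.sqrt_pos.2 hc
  have h1 : (fun y : ℝ => (1 + c * y ^ 2)⁻¹) = fun y : ℝ =>
      (fun x : ℝ => (1 + x ^ 2)⁻¹) (Real.sqrt c * y) := by
    funext y
    simp only [mul_pow, Real.sq_sqrt hc.le]
  constructor
  · rw [h1]
    exact integrable_inv_one_add_sq.comp_mul_left' hs.ne'
  · have h2 := MeasureTheory.Measure.integral_comp_mul_left (fun x : ℝ => (1 + x ^ 2)⁻¹) (Real.sqrt c)
    rw [h1, h2, integral_univ_inv_one_add_sq, abs_of_pos (inv_pos.2 hs), smul_eq_mul]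
    ring

/-- `∫ (1+y²)^(-(k+1)/2) dy ≤ C/√(k+1)` for `k ≥ 1`.

Proof. For `|y| ≤ 1`, `log (1+y²) ≥ y²/2`, so the integrand is `≤ e^(-(k+1) y²/4)`, with integral
`√(4π/(k+1))`. For `|y| > 1` it is at most `2^(-(k-1)/2) (1+y²)^(-1)`, integral
`≤ π 2^(-(k-1)/2) ≤ C/√(k+1)`. -/
theorem PC1_beta : ∃ C : ℝ, 0 < C ∧ ∀ k : ℕ, 1 ≤ k →
    MeasureTheory.Integrable (fun y : ℝ => (1 / Real.sqrt (1 + y ^ 2)) ^ (k + 1)) ∧
    ∫ y : ℝ, (1 / Real.sqrt (1 + y ^ 2)) ^ (k + 1) ≤ C / Real.sqrt (k + 1) := by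
  refine ⟨Real.pi * Real.sqrt 2, by positivity, ?_⟩
  intro k hk
  have hc : (0 : ℝ) < (k + 1) / 2 := by positivity
  obtain ⟨h1, h2⟩ := pc1_cauchy hc
  have h3 : MeasureTheory.Integrable (fun y : ℝ => (1 / Real.sqrt (1 + y ^ 2)) ^ (k + 1)) := by
    refine h1.mono' ?_ ?_
    · apply Continuous.aestronglyMeasurable
      refine Continuous.pow (Continuous.div continuous_const ?_ ?_) _
      · exact Real.continuous_sqrt.comp (by fun_prop)
      · intro y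
        have : 0 < Real.sqrt (1 + y ^ 2) := Real.sqrt_pos.2 (by positivity)
        exact this.ne'
    · refine Filter.Eventually.of_forall fun y => ?_
      rw [Real.norm_of_nonneg (by positivity)]
      exact pc1_bern hk y
  refine ⟨h3, ?_⟩
  refine (MeasureTheory.integral_mono h3 h1 fun y => pc1_bern hk y).trans ?_
  rw [h2]
  have h4 : Real.sqrt ((k + 1) / 2) = Real.sqrt (k + 1) / Real.sqrt 2 :=
    Real.sqrt_div (by positivity) 2
  rw [h4, div_div_eq_mul_div]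

/-- One zero: for `Re ρ ≤ 1`,
`∫_a^b |(1/64)/(1 + 1/64 + iv - ρ)|^(k+1) dv ≤ C/√(k+1) (1/(1 + 64 (1 - Re ρ)))^k`.

Proof. With `A = 1/64 + 1 - Re ρ ≥ 1/64`, `|1 + 1/64 + iv - ρ| = √(A² + (v - Im ρ)²)`; substitute
`v = Im ρ + A y`: `(1/64)^(k+1) A^(-k) ∫ (1+y²)^(-(k+1)/2) dy`, and `(1/64)/A = 1/(1 + 64(1 - Re ρ))`. -/
theorem PC1_one : ∃ C : ℝ, 0 < C ∧ ∀ (k : ℕ) (ρ : ℂ) (a b : ℝ), 1 ≤ k → ρ.re ≤ 1 → a ≤ b →
    ∫ v in a..b, ‖((1 / 64 : ℝ) : ℂ) / (1 + (1 / 64 : ℝ) + v * Complex.I - ρ)‖ ^ (k + 1) ≤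
      C / Real.sqrt (k + 1) * (1 / (1 + 64 * (1 - ρ.re))) ^ k := by
  obtain ⟨C, hC, H⟩ := PC1_beta
  refine ⟨C, hC, ?_⟩
  intro k ρ a b hk hρ hab
  obtain ⟨h1, h2⟩ := H k hk
  set A : ℝ := 1 / 64 + 1 - ρ.re with hA
  have hA0 : 1 / 64 ≤ A := by rw [hA]; linarith
  have hAp : 0 < A := by linarith
  have hform : ∀ v : ℝ, ‖((1 / 64 : ℝ) : ℂ) / (1 + (1 / 64 : ℝ) + v * Complex.I - ρ)‖ ^ (k + 1) =
      ((1 / 64) / A) ^ (k + 1) *
        (fun y : ℝ => (1 / Real.sqrt (1 + y ^ 2)) ^ (k + 1)) (A⁻¹ * (v - ρ.im)) := by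
    intro v
    have h3 : ‖(1 + (1 / 64 : ℝ) + v * Complex.I - ρ : ℂ)‖ =
        A * Real.sqrt (1 + (A⁻¹ * (v - ρ.im)) ^ 2) := by
      rw [Complex.norm_eq_sqrt_sq_add_sq, Complex.sub_re, Complex.sub_im, z2_re, z2_im]
      have h4 : (1 + 1 / 64 - ρ.re) ^ 2 + (v - ρ.im) ^ 2 =
          A ^ 2 * (1 + (A⁻¹ * (v - ρ.im)) ^ 2) := by
        have h5 : (1 + 1 / 64 - ρ.re) = A := by rw [hA]; ring
        rw [h5]
        field_simp
      rw [h4, Real.sqrt_mul (sq_nonneg A), Real.sqrt_sq hAp.le]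
    rw [norm_div, h3, Complex.norm_real, Real.norm_of_nonneg (by norm_num : (0 : ℝ) ≤ 1 / 64)]
    show _ = (1 / 64 / A) ^ (k + 1) * (1 / Real.sqrt (1 + (A⁻¹ * (v - ρ.im)) ^ 2)) ^ (k + 1)
    rw [← mul_pow]
    congr 1
    rw [div_mul_div_comm, mul_one]
  have hint : MeasureTheory.Integrable (fun v : ℝ =>
      (fun y : ℝ => (1 / Real.sqrt (1 + y ^ 2)) ^ (k + 1)) (A⁻¹ * (v - ρ.im))) := by
    have h3 := (h1.comp_mul_left' (inv_ne_zero hAp.ne')).comp_sub_right ρ.im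
    exact h3
  have hval : ∫ v : ℝ, (fun y : ℝ => (1 / Real.sqrt (1 + y ^ 2)) ^ (k + 1)) (A⁻¹ * (v - ρ.im)) =
      A * ∫ y : ℝ, (1 / Real.sqrt (1 + y ^ 2)) ^ (k + 1) := by
    have h3 := MeasureTheory.integral_sub_right_eq_self (μ := MeasureTheory.volume)
      (fun v : ℝ => (fun y : ℝ => (1 / Real.sqrt (1 + y ^ 2)) ^ (k + 1)) (A⁻¹ * v)) ρ.im
    have h4 := MeasureTheory.Measure.integral_comp_mul_left
      (fun y : ℝ => (1 / Real.sqrt (1 + y ^ 2)) ^ (k + 1)) A⁻¹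
    rw [h3, h4, inv_inv, abs_of_pos hAp, smul_eq_mul]
  have hle : ∫ v in a..b, ‖((1 / 64 : ℝ) : ℂ) / (1 + (1 / 64 : ℝ) + v * Complex.I - ρ)‖ ^ (k + 1) ≤
      ((1 / 64) / A) ^ (k + 1) * (A * ∫ y : ℝ, (1 / Real.sqrt (1 + y ^ 2)) ^ (k + 1)) := by
    simp_rw [hform]
    rw [intervalIntegral.integral_const_mul, ← hval, intervalIntegral.integral_of_le hab]
    apply mul_le_mul_of_nonneg_left _ (by positivity)
    apply MeasureTheory.setIntegral_le_integral hint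
    exact Filter.Eventually.of_forall fun v => by
      show (0 : ℝ) ≤ (1 / Real.sqrt (1 + (A⁻¹ * (v - ρ.im)) ^ 2)) ^ (k + 1)
      positivity
  refine hle.trans ?_
  have hq : 1 / (1 + 64 * (1 - ρ.re)) = (1 / 64) / A := by
    rw [div_div]
    congr 1
    rw [hA]
    ring
  rw [hq]
  have hI : 0 ≤ ∫ y : ℝ, (1 / Real.sqrt (1 + y ^ 2)) ^ (k + 1) :=
    MeasureTheory.integral_nonneg fun y => by positivity
  have h5 : ((1 / 64) / A) ^ (k + 1) * (A * ∫ y : ℝ, (1 / Real.sqrt (1 + y ^ 2)) ^ (k + 1)) =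
      (1 / 64) * ((∫ y : ℝ, (1 / Real.sqrt (1 + y ^ 2)) ^ (k + 1)) * ((1 / 64) / A) ^ k) := by
    rw [pow_succ]
    have h6 : (1 / 64) / A * A = 1 / 64 := div_mul_cancel₀ _ hAp.ne'
    calc _ = ((1 / 64) / A * A) * ((∫ y : ℝ, (1 / Real.sqrt (1 + y ^ 2)) ^ (k + 1)) *
        ((1 / 64) / A) ^ k) := by ring
      _ = _ := by rw [h6]
  rw [h5]
  have h7 : 0 ≤ (∫ y : ℝ, (1 / Real.sqrt (1 + y ^ 2)) ^ (k + 1)) * ((1 / 64) / A) ^ k := by
    positivity
  have h8 : (∫ y : ℝ, (1 / Real.sqrt (1 + y ^ 2)) ^ (k + 1)) * ((1 / 64) / A) ^ k ≤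
      C / Real.sqrt (k + 1) * ((1 / 64) / A) ^ k :=
    mul_le_mul_of_nonneg_right h2 (by positivity)
  linarith

/-- The sum over the zeros near `s₀ = 1 + 1/64 + iv`, pointwise, `|v| ≤ Q^8 - 1`: it is at most the
sum over all zeros in `ZR f (7/8) (Q^8)` plus `C log Q (1/9)^k`.

Proof. A zero in `ZD f s₀ (1/4)` has `|Im ρ - v| ≤ 1/4`, so `|Im ρ| ≤ Q^8`. If `Re ρ ≥ 7/8` it is in
`ZR f (1 - 1/8) (Q^8)`. Otherwise `|s₀ - ρ| ≥ 1/64 + 1/8`, the ratio is `≤ 1/9`, and the number of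
zeros in `ZD f s₀ (1/4)` is at most `C log Q` (`ldat_sum` with `lam = 1/64`:
`(lam/|s₀ - ρ|)² ≥ 1/256`). -/
theorem PC1_point (C0 : ℝ) (h0 : 1 ≤ C0) : ∃ C : ℝ, 0 < C ∧ ∀ (Q : ℕ) (f : ℂ → ℂ),
    64 ≤ Real.log Q → LDat C0 (Real.log Q) ((Q : ℝ) ^ 10) f → ∀ (v : ℝ) (k : ℕ),
    |v| ≤ (Q : ℝ) ^ 8 - 1 →
    ‖∑ ρ ∈ ZD f (1 + (1 / 64 : ℝ) + v * Complex.I) (1 / 4),
      (od f ρ : ℂ) * (((1 / 64 : ℝ) : ℂ) / (1 + (1 / 64 : ℝ) + v * Complex.I - ρ)) ^ (k + 1)‖ ≤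
    (∑ ρ ∈ ZR f (1 - 1 / 8) ((Q : ℝ) ^ 8), (od f ρ : ℝ) *
      ‖((1 / 64 : ℝ) : ℂ) / (1 + (1 / 64 : ℝ) + v * Complex.I - ρ)‖ ^ (k + 1)) +
      C * Real.log Q * (1 / 9) ^ k := by
  obtain ⟨C1, hC1, H⟩ := ldat_sum C0 h0
  refine ⟨4 * C1, by positivity, ?_⟩
  intro Q f hQ hf v k hv
  have hQ1 : (1 : ℝ) ≤ Q := by
    rcases Nat.eq_zero_or_pos Q with h | h
    · rw [h] at hQ
      norm_num at hQ
    · exact_mod_cast h
  have hl1 : 1 / Real.log Q ≤ 1 / 64 := one_div_le_one_div_of_le (by norm_num) hQ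
  have hv' : |v| ≤ (Q : ℝ) ^ 10 := by
    have : (Q : ℝ) ^ 8 ≤ (Q : ℝ) ^ 10 := pow_le_pow_right₀ hQ1 (by norm_num)
    linarith
  have h1 := H (Real.log Q) ((Q : ℝ) ^ 10) f (by linarith) hf (1 / 64) v hl1 (by norm_num) hv'
  have hs0 : f (1 + (1 / 64 : ℝ) + v * Complex.I) ≠ 0 := z2_ne hf (by norm_num)
  set s₀ : ℂ := 1 + (1 / 64 : ℝ) + v * Complex.I with hs
  have hre : s₀.re = 1 + 1 / 64 := z2_re (1 / 64) v
  have him : s₀.im = v := z2_im (1 / 64) v
  have hmem : ∀ ρ ∈ ZD f s₀ (1 / 4), f ρ = 0 ∧ ‖ρ - s₀‖ ≤ 1 / 4 := fun ρ hρ =>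
    (mem_ZD hf.diff ⟨_, hs0⟩).1 hρ
  have hpos : ∀ ρ ∈ ZD f s₀ (1 / 4), 0 < ‖s₀ - ρ‖ := by
    intro ρ hρ
    rw [norm_pos_iff, sub_ne_zero]
    intro h5
    rw [h5] at hs0
    exact hs0 (hmem ρ hρ).1
  have hcount : ∑ ρ ∈ ZD f s₀ (1 / 4), (od f ρ : ℝ) ≤ 4 * C1 * Real.log Q := by
    have h2 : ∑ ρ ∈ ZD f s₀ (1 / 4), (od f ρ : ℝ) ≤
        ∑ ρ ∈ ZD f s₀ (1 / 4), 256 * ((od f ρ : ℝ) * ((1 / 64) / ‖s₀ - ρ‖) ^ 2) := by
      refine sum_le_sum fun ρ hρ => ?_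
      have h3 : ‖s₀ - ρ‖ ≤ 1 / 4 := by
        rw [norm_sub_rev]
        exact (hmem ρ hρ).2
      have h4 := hpos ρ hρ
      have h5 : 1 / 16 ≤ (1 / 64) / ‖s₀ - ρ‖ := by
        rw [le_div_iff₀ h4]
        linarith
      have h6 : (1 / 16 : ℝ) ^ 2 ≤ ((1 / 64) / ‖s₀ - ρ‖) ^ 2 := by gcongr
      have h7 : (0 : ℝ) ≤ od f ρ := Nat.cast_nonneg _
      nlinarith
    refine h2.trans ?_
    rw [← mul_sum]
    linarith
  have hsplit : ‖∑ ρ ∈ ZD f s₀ (1 / 4),
      (od f ρ : ℂ) * (((1 / 64 : ℝ) : ℂ) / (s₀ - ρ)) ^ (k + 1)‖ ≤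
      ∑ ρ ∈ ZD f s₀ (1 / 4), (od f ρ : ℝ) * ‖((1 / 64 : ℝ) : ℂ) / (s₀ - ρ)‖ ^ (k + 1) := by
    refine (norm_sum_le _ _).trans (le_of_eq (sum_congr rfl fun ρ _ => ?_))
    rw [norm_mul, norm_pow, Complex.norm_natCast]
  refine hsplit.trans ?_
  rw [← sum_filter_add_sum_filter_not (ZD f s₀ (1 / 4)) (fun ρ => 7 / 8 ≤ ρ.re)]
  apply add_le_add
  · apply sum_le_sum_of_subset_of_nonneg
    · intro ρ hρ
      rw [mem_filter] at hρ
      obtain ⟨hρ1, hρ2⟩ := hρ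
      obtain ⟨h3, h4⟩ := hmem ρ hρ1
      rw [mem_ZR hf.diff ⟨_, hs0⟩]
      refine ⟨h3, by linarith, (hf.zre ρ h3).le, ?_⟩
      have h5 : |ρ.im - v| ≤ 1 / 4 := by
        have h6 := Complex.abs_im_le_norm (ρ - s₀)
        rw [Complex.sub_im, him] at h6
        exact h6.trans h4
      have h7 : |ρ.im| ≤ |ρ.im - v| + |v| := by
        have := abs_add_le (ρ.im - v) v
        rwa [sub_add_cancel] at this
      linarith
    · intro ρ _ _
      positivity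
  · have h3 : ∑ ρ ∈ (ZD f s₀ (1 / 4)).filter (fun ρ => ¬ 7 / 8 ≤ ρ.re),
        (od f ρ : ℝ) * ‖((1 / 64 : ℝ) : ℂ) / (s₀ - ρ)‖ ^ (k + 1) ≤
        ∑ ρ ∈ (ZD f s₀ (1 / 4)).filter (fun ρ => ¬ 7 / 8 ≤ ρ.re), (od f ρ : ℝ) * (1 / 9) ^ k := by
      refine sum_le_sum fun ρ hρ => ?_
      rw [mem_filter] at hρ
      obtain ⟨hρ1, hρ2⟩ := hρ
      push Not at hρ2
      apply mul_le_mul_of_nonneg_left _ (Nat.cast_nonneg _)
      have h4 : 9 / 64 ≤ ‖s₀ - ρ‖ := by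
        have h5 := Complex.re_le_norm (s₀ - ρ)
        rw [Complex.sub_re, hre] at h5
        linarith
      have h6 : ‖((1 / 64 : ℝ) : ℂ) / (s₀ - ρ)‖ ≤ 1 / 9 := by
        rw [norm_div, Complex.norm_real, Real.norm_of_nonneg (by norm_num : (0 : ℝ) ≤ 1 / 64),
          div_le_iff₀ (by linarith)]
        linarith
      calc ‖((1 / 64 : ℝ) : ℂ) / (s₀ - ρ)‖ ^ (k + 1) ≤ (1 / 9) ^ (k + 1) := by gcongr
        _ ≤ (1 / 9) ^ k := pow_le_pow_of_le_one (by norm_num) (by norm_num) (Nat.le_succ k)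
    refine h3.trans ?_
    rw [← sum_mul]
    apply mul_le_mul_of_nonneg_right _ (by positivity)
    exact (sum_le_sum_of_subset_of_nonneg (filter_subset _ _) fun ρ _ _ => Nat.cast_nonneg _).trans
      hcount

end Pool.Agent.Lib.H18Q
end

-- from Lib.H18Q.PG2
section

/-!
# Project H18Q, chunk PG2: L1 norms for a family
-/

open Finset

namespace Pool.Agent.Lib.H18Q

open ArithmeticFunction Pool.Agent.Lib.H68T

theorem pg2_ratio_cont (ρ : ℂ) (hρ : ρ.re ≤ 1) (k : ℕ) : Continuous fun v : ℝ =>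
    ‖((1 / 64 : ℝ) : ℂ) / (1 + (1 / 64 : ℝ) + v * Complex.I - ρ)‖ ^ (k + 1) := by
  refine Continuous.pow (Continuous.norm ?_) _
  refine Continuous.div continuous_const (by fun_prop) fun v h => ?_
  have := congrArg Complex.re h
  simp at this
  linarith

/-- The mean of `Pk - ε Mk` over `|v| ≤ Q^8 - 1` for one member of the family.

Proof: `PA_formula` (`ℓ = log Q`, `T = Q^10`), `PC1_point`, and `PC1_one` for each zero of
`ZR f (7/8) (Q^8)` (`Re ρ ≤ 1`, `mem_ZR`); the errors `C log Q (1/8)^k`, `C log Q (1/9)^k` over a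
range of length `≤ 2 Q^8`. -/
theorem PG2_one (C0 : ℝ) (h0 : 1 ≤ C0) : ∃ C : ℝ, 1 ≤ C ∧ ∀ (Q : ℕ) (f : ℂ → ℂ)
    (c : ℕ → ℂ) (ε b : ℝ), 64 ≤ Real.log Q → LDat C0 (Real.log Q) ((Q : ℝ) ^ 10) f →
    (∀ n, ‖c n‖ ≤ 1) → b ≤ 1 →
    (∀ s : ℂ, 1 < s.re → logDeriv f s = -LSeries (fun n => (Λ n : ℂ) * c n) s + ε / (s - b)) →
    ∀ k : ℕ, 1 ≤ k →
    ∫ v in (-((Q : ℝ) ^ 8 - 1))..((Q : ℝ) ^ 8 - 1), ‖Pk c k v - ε * Mk b k v‖ ≤
      C / Real.sqrt (k + 1) * (∑ ρ ∈ ZR f (1 - 1 / 8) ((Q : ℝ) ^ 8), (od f ρ : ℝ) *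
        (1 / (1 + 64 * (1 - ρ.re))) ^ k) + C * (Q : ℝ) ^ 8 * Real.log Q * (1 / 8) ^ k := by
  obtain ⟨C1, hC1, hA⟩ := PA_formula C0 h0
  obtain ⟨C2, hC2, hP⟩ := PC1_point C0 h0
  obtain ⟨C3, hC3, hO⟩ := PC1_one
  refine ⟨1 + C3 + 2 * (C1 + C2), by linarith, ?_⟩
  intro Q f c ε b hQ hf hc hb hld k hk
  have hQ0 : (0 : ℝ) < Q := by
    rcases Nat.eq_zero_or_pos Q with h | h
    · rw [h] at hQ
      norm_num at hQ
    · exact_mod_cast h
  have hQ1 : (1 : ℝ) ≤ Q := by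
    by_contra hcon
    have := Real.log_nonpos hQ0.le (not_le.1 hcon).le
    linarith
  have hQ8 : (1 : ℝ) ≤ (Q : ℝ) ^ 8 := one_le_pow₀ hQ1
  set R : ℝ := (Q : ℝ) ^ 8 - 1 with hR
  have hR0 : 0 ≤ R := by linarith
  have hne : ∃ c, f c ≠ 0 := ⟨2, fun h => by
    have := hf.zre 2 h
    norm_num at this⟩
  set Z := ZR f (1 - 1 / 8) ((Q : ℝ) ^ 8) with hZ
  have hZ1 : ∀ ρ ∈ Z, ρ.re ≤ 1 := fun ρ hρ => ((mem_ZR hf.diff hne).1 hρ).2.2.1
  set L := Real.log Q with hL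
  have hQ10 : R ≤ (Q : ℝ) ^ 10 := by
    have : (Q : ℝ) ^ 8 ≤ (Q : ℝ) ^ 10 := pow_le_pow_right₀ hQ1 (by norm_num)
    linarith
  have hpt : ∀ v ∈ Set.Icc (-R) R, ‖Pk c k v - ε * Mk b k v‖ ≤
      (∑ ρ ∈ Z, (od f ρ : ℝ) *
        ‖((1 / 64 : ℝ) : ℂ) / (1 + (1 / 64 : ℝ) + v * Complex.I - ρ)‖ ^ (k + 1)) +
      (C1 + C2) * L * (1 / 8) ^ k := by
    intro v hv
    have hv' : |v| ≤ R := abs_le.2 ⟨hv.1, hv.2⟩
    have h1 := hA L ((Q : ℝ) ^ 10) f c ε b hQ hf hc hb hld v (hv'.trans hQ10) k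
    have h2 := hP Q f hQ hf v k hv'
    rw [← hZ, ← hL] at h2
    have h3 : (1 / 9 : ℝ) ^ k ≤ (1 / 8) ^ k := pow_le_pow_left₀ (by norm_num) (by norm_num) k
    have h4 : C2 * L * (1 / 9) ^ k ≤ C2 * L * (1 / 8) ^ k :=
      mul_le_mul_of_nonneg_left h3 (mul_nonneg hC2.le (by linarith))
    have h5 : ‖Pk c k v - ε * Mk b k v‖ ≤
        ‖Pk c k v - ε * Mk b k v + ∑ ρ ∈ ZD f (1 + (1 / 64 : ℝ) + v * Complex.I) (1 / 4),
          (od f ρ : ℂ) * (((1 / 64 : ℝ) : ℂ) / (1 + (1 / 64 : ℝ) + v * Complex.I - ρ)) ^ (k + 1)‖ +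
        ‖∑ ρ ∈ ZD f (1 + (1 / 64 : ℝ) + v * Complex.I) (1 / 4),
          (od f ρ : ℂ) * (((1 / 64 : ℝ) : ℂ) / (1 + (1 / 64 : ℝ) + v * Complex.I - ρ)) ^ (k + 1)‖ := by
      set A := Pk c k v - ε * Mk b k v
      set B := ∑ ρ ∈ ZD f (1 + (1 / 64 : ℝ) + v * Complex.I) (1 / 4),
          (od f ρ : ℂ) * (((1 / 64 : ℝ) : ℂ) / (1 + (1 / 64 : ℝ) + v * Complex.I - ρ)) ^ (k + 1)
      calc ‖A‖ = ‖(A + B) - B‖ := by rw [add_sub_cancel_right]
        _ ≤ ‖A + B‖ + ‖B‖ := norm_sub_le _ _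
    have h6 : (C1 + C2) * L * (1 / 8) ^ k = C1 * L * (1 / 8) ^ k + C2 * L * (1 / 8) ^ k := by ring
    rw [h6]
    linarith
  have hc1 : Continuous fun v : ℝ => ‖Pk c k v - ε * Mk b k v‖ :=
    ((Pk_continuous c hc k).sub (continuous_const.mul (Mk_continuous b hb k))).norm
  have hc2 : ∀ ρ ∈ Z, Continuous fun v : ℝ => (od f ρ : ℝ) *
      ‖((1 / 64 : ℝ) : ℂ) / (1 + (1 / 64 : ℝ) + v * Complex.I - ρ)‖ ^ (k + 1) :=
    fun ρ hρ => continuous_const.mul (pg2_ratio_cont ρ (hZ1 ρ hρ) k)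
  have hc3 : Continuous fun v : ℝ => ∑ ρ ∈ Z, (od f ρ : ℝ) *
      ‖((1 / 64 : ℝ) : ℂ) / (1 + (1 / 64 : ℝ) + v * Complex.I - ρ)‖ ^ (k + 1) :=
    continuous_finsetSum _ hc2
  have hc4 : Continuous fun v : ℝ => (∑ ρ ∈ Z, (od f ρ : ℝ) *
      ‖((1 / 64 : ℝ) : ℂ) / (1 + (1 / 64 : ℝ) + v * Complex.I - ρ)‖ ^ (k + 1)) +
        (C1 + C2) * L * (1 / 8) ^ k := hc3.add continuous_const
  have hint := intervalIntegral.integral_mono_on (μ := MeasureTheory.volume) (by linarith : -R ≤ R)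
    (hc1.intervalIntegrable _ _) (hc4.intervalIntegrable _ _) hpt
  refine hint.trans ?_
  rw [intervalIntegral.integral_add (hc3.intervalIntegrable _ _) (continuous_const.intervalIntegrable _ _),
    intervalIntegral.integral_finsetSum fun ρ hρ => (hc2 ρ hρ).intervalIntegrable _ _,
    intervalIntegral.integral_const]
  have hsq : 0 < Real.sqrt (k + 1) := Real.sqrt_pos.2 (by positivity)
  have h1 : ∑ ρ ∈ Z, ∫ v in (-R)..R, (od f ρ : ℝ) *
      ‖((1 / 64 : ℝ) : ℂ) / (1 + (1 / 64 : ℝ) + v * Complex.I - ρ)‖ ^ (k + 1) ≤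
      C3 / Real.sqrt (k + 1) * ∑ ρ ∈ Z, (od f ρ : ℝ) * (1 / (1 + 64 * (1 - ρ.re))) ^ k := by
    rw [Finset.mul_sum]
    refine Finset.sum_le_sum fun ρ hρ => ?_
    rw [intervalIntegral.integral_const_mul]
    calc (od f ρ : ℝ) * ∫ v in (-R)..R,
          ‖((1 / 64 : ℝ) : ℂ) / (1 + (1 / 64 : ℝ) + v * Complex.I - ρ)‖ ^ (k + 1)
        ≤ (od f ρ : ℝ) * (C3 / Real.sqrt (k + 1) * (1 / (1 + 64 * (1 - ρ.re))) ^ k) :=
          mul_le_mul_of_nonneg_left (hO k ρ (-R) R hk (hZ1 ρ hρ) (by linarith)) (Nat.cast_nonneg _)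
      _ = _ := by ring
  have hsum0 : 0 ≤ ∑ ρ ∈ Z, (od f ρ : ℝ) * (1 / (1 + 64 * (1 - ρ.re))) ^ k := by
    refine Finset.sum_nonneg fun ρ hρ => mul_nonneg (Nat.cast_nonneg _) (pow_nonneg ?_ _)
    have := hZ1 ρ hρ
    apply div_nonneg zero_le_one
    linarith
  have h2 : C3 / Real.sqrt (k + 1) * ∑ ρ ∈ Z, (od f ρ : ℝ) * (1 / (1 + 64 * (1 - ρ.re))) ^ k ≤
      (1 + C3 + 2 * (C1 + C2)) / Real.sqrt (k + 1) *
        ∑ ρ ∈ Z, (od f ρ : ℝ) * (1 / (1 + 64 * (1 - ρ.re))) ^ k := by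
    apply mul_le_mul_of_nonneg_right _ hsum0
    apply div_le_div_of_nonneg_right _ hsq.le
    linarith
  have h3 : (R - -R) • ((C1 + C2) * L * (1 / 8) ^ k) ≤
      (1 + C3 + 2 * (C1 + C2)) * (Q : ℝ) ^ 8 * L * (1 / 8) ^ k := by
    rw [smul_eq_mul]
    have e1 : (R - -R) * ((C1 + C2) * L * (1 / 8) ^ k) = (2 * (C1 + C2)) * R * (L * (1 / 8) ^ k) := by
      ring
    have e2 : (1 + C3 + 2 * (C1 + C2)) * (Q : ℝ) ^ 8 * L * (1 / 8) ^ k =
        (1 + C3 + 2 * (C1 + C2)) * (Q : ℝ) ^ 8 * (L * (1 / 8) ^ k) := by ring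
    rw [e1, e2]
    apply mul_le_mul_of_nonneg_right _ (mul_nonneg (by linarith) (by positivity))
    apply mul_le_mul (by linarith) (by linarith) hR0 (by positivity)
  linarith

theorem pg2_kX {K : ℝ} {Q X : ℕ} (hK : 128 ≤ K) (h : RegP K Q X) :
    1 ≤ kX X ∧ Real.log X / 64 - 1 ≤ kX X ∧ Real.log X / 64 ≤ (kX X : ℝ) + 1 := by
  have h1 := h.logX_ge (by linarith)
  have h2 := Real.add_one_le_exp K
  have h3 : (1 : ℝ) ≤ Real.log X / 64 := by linarith
  unfold kX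
  have h4 := Nat.lt_floor_add_one (Real.log X / 64)
  refine ⟨Nat.le_floor (by exact_mod_cast h3), by linarith, h4.le⟩

/-- the first error -/
theorem pg2_err1 {K : ℝ} {Q X : ℕ} (hK : 1280 ≤ K) (h : RegP K Q X) :
    (Q : ℝ) ^ 2 * (Real.sqrt (Real.log X) * ((Q : ℝ) ^ 8 * Real.log Q * (1 / 8) ^ kX X)) ≤
      640 * (Q : ℝ) ^ (-7 : ℝ) * (1 / Q) := by
  have hK1 : 1 ≤ K := by linarith
  obtain ⟨hk1, hk2, hk3⟩ := pg2_kX (by linarith) h
  have hX1 := h.logX_ge_one (by linarith)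
  have hQ : (0 : ℝ) < Q := by exact_mod_cast h.Q_pos hK1
  have hlQ : 0 < Real.log Q := by linarith [h.logQ_ge hK1]
  have hlQ2 : Real.log Q ≤ Q := by
    have := Real.log_le_sub_one_of_pos hQ
    linarith
  have hlog8 : (2 : ℝ) ≤ Real.log 8 := by
    rw [show (8 : ℝ) = 2 ^ 3 by norm_num, Real.log_pow]
    have := Real.log_two_gt_d9
    push_cast
    linarith
  have h8 : (1 / 8 : ℝ) ^ kX X ≤ Real.exp (2 - Real.log X / 32) := by
    have e1 : (1 / 8 : ℝ) ^ kX X = Real.exp (-(kX X * Real.log 8)) := by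
      rw [Real.exp_neg, mul_comm, Real.exp_mul, Real.exp_log (by norm_num), Real.rpow_natCast,
        one_div, inv_pow]
    rw [e1]
    apply Real.exp_le_exp.2
    have : (kX X : ℝ) * 2 ≤ kX X * Real.log 8 := mul_le_mul_of_nonneg_left hlog8 (Nat.cast_nonneg _)
    linarith
  have he2 : Real.exp 2 ≤ 10 := by
    have : Real.exp 2 = Real.exp 1 * Real.exp 1 := by rw [← Real.exp_add]; norm_num
    rw [this]
    have h1 := Real.exp_one_lt_d9
    have h2 := Real.exp_pos 1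
    nlinarith
  have hsqrt : Real.sqrt (Real.log X) ≤ 64 * Real.exp (Real.log X / 64) := by
    have h1 : Real.sqrt (Real.log X) ≤ Real.log X := by
      rw [Real.sqrt_le_left (by linarith)]
      nlinarith
    have h2 := Real.add_one_le_exp (Real.log X / 64)
    linarith
  have hX2 : Real.exp (-(Real.log X / 64)) ≤ (Q : ℝ) ^ (-20 : ℝ) := by
    rw [Real.rpow_def_of_pos hQ]
    apply Real.exp_le_exp.2
    have h1 := h.logQ_le hK1
    have h2 : 1280 * Real.log Q ≤ K * Real.log Q := mul_le_mul_of_nonneg_right hK hlQ.le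
    linarith
  have hprod : Real.sqrt (Real.log X) * (1 / 8) ^ kX X ≤ 640 * (Q : ℝ) ^ (-20 : ℝ) := by
    calc Real.sqrt (Real.log X) * (1 / 8) ^ kX X ≤
        (64 * Real.exp (Real.log X / 64)) * Real.exp (2 - Real.log X / 32) :=
          mul_le_mul hsqrt h8 (by positivity) (by positivity)
      _ = 64 * Real.exp 2 * Real.exp (-(Real.log X / 64)) := by
          rw [mul_assoc, mul_assoc, ← Real.exp_add, ← Real.exp_add]
          congr 2
          ring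
      _ ≤ 64 * 10 * (Q : ℝ) ^ (-20 : ℝ) := by
          apply mul_le_mul _ hX2 (by positivity) (by norm_num)
          linarith
      _ = _ := by ring
  have hQpow : (Q : ℝ) ^ (-20 : ℝ) = (Q : ℝ) ^ (-7 : ℝ) * (1 / Q) * (1 / Q ^ 12) := by
    rw [Real.rpow_neg hQ.le, Real.rpow_neg hQ.le]
    have e1 : (Q : ℝ) ^ (20 : ℝ) = (Q : ℝ) ^ 20 := by exact_mod_cast Real.rpow_natCast (Q : ℝ) 20
    have e2 : (Q : ℝ) ^ (7 : ℝ) = (Q : ℝ) ^ 7 := by exact_mod_cast Real.rpow_natCast (Q : ℝ) 7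
    rw [e1, e2]
    field_simp
  calc (Q : ℝ) ^ 2 * (Real.sqrt (Real.log X) * ((Q : ℝ) ^ 8 * Real.log Q * (1 / 8) ^ kX X))
      = ((Q : ℝ) ^ 10 * Real.log Q) * (Real.sqrt (Real.log X) * (1 / 8) ^ kX X) := by ring
    _ ≤ ((Q : ℝ) ^ 10 * Q) * (640 * (Q : ℝ) ^ (-20 : ℝ)) := by
        apply mul_le_mul _ hprod (by positivity) (by positivity)
        exact mul_le_mul_of_nonneg_left hlQ2 (by positivity)
    _ = 640 * (Q : ℝ) ^ (-7 : ℝ) * (1 / Q) * (Q ^ 11 / Q ^ 12) := by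
        rw [hQpow]
        ring
    _ ≤ 640 * (Q : ℝ) ^ (-7 : ℝ) * (1 / Q) * 1 := by
        apply mul_le_mul_of_nonneg_left _ (by positivity)
        rw [div_le_one (by positivity)]
        have hQ1 : (1 : ℝ) ≤ Q := by linarith [h.Q_ge hK1]
        exact pow_le_pow_right₀ hQ1 (by norm_num)
    _ = _ := by ring

/-- the second error -/
theorem pg2_err2 {Q : ℕ} (hQ : (4 : ℝ) ≤ Q) {B M : ℝ} (hB : 0 ≤ B) (hM : 0 ≤ M) :
    (Q : ℝ) ^ 2 * (2 * (Q : ℝ) ^ 7 * B * M / ((Q : ℝ) ^ 8 - 1 - (Q : ℝ) ^ 7) ^ 2) ≤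
      8 * (B * M) * (Q : ℝ) ^ (-7 : ℝ) := by
  have hQ0 : (0 : ℝ) < Q := by linarith
  have h7 : (4 : ℝ) ^ 7 ≤ (Q : ℝ) ^ 7 := pow_le_pow_left₀ (by norm_num) hQ 7
  have h1 : (Q : ℝ) ^ 8 / 2 ≤ (Q : ℝ) ^ 8 - 1 - (Q : ℝ) ^ 7 := by
    have : (Q : ℝ) ^ 8 = (Q : ℝ) ^ 7 * Q := by ring
    rw [this]
    nlinarith
  have h2 : ((Q : ℝ) ^ 8 / 2) ^ 2 ≤ ((Q : ℝ) ^ 8 - 1 - (Q : ℝ) ^ 7) ^ 2 :=
    pow_le_pow_left₀ (by positivity) h1 2
  have h3 : 2 * (Q : ℝ) ^ 7 * B * M / ((Q : ℝ) ^ 8 - 1 - (Q : ℝ) ^ 7) ^ 2 ≤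
      2 * (Q : ℝ) ^ 7 * B * M / ((Q : ℝ) ^ 8 / 2) ^ 2 :=
    div_le_div_of_nonneg_left (by positivity) (by positivity) h2
  refine (mul_le_mul_of_nonneg_left h3 (by positivity)).trans (le_of_eq ?_)
  have e2 : (Q : ℝ) ^ (7 : ℝ) = (Q : ℝ) ^ 7 := by exact_mod_cast Real.rpow_natCast (Q : ℝ) 7
  rw [Real.rpow_neg hQ0.le, e2]
  field_simp
  ring

/-- **L1 norms for a family.** Proof. For each `p`: `FL - ε Mb = ∫ kh(ξ) (Pk - ε Mk)(t - ξ) dξ`
(`PB3_repr`, `PB3_FL`, `PB3_Mb`; linearity, both integrable); `PG1_conv` with `S = Q^7`,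
`R = Q^8 - 1`, `B = C √(log X)`, `M = C + 1` (`PA_bounds`, `Mk_norm`, `|ε| ≤ 1`; `Pk_continuous`,
`Mk_continuous`); `PG2_one` with `k = kX X`. `√(log X)/√(k+1) ≤ 8` (`k + 1 ≥ log X/64`). Sum over
`p ∈ PC Q` (`card_PC_le`: at most `Q²`). The remaining errors are, for `K` large,
`Q² · C √(log X) · Q^8 log Q (1/8)^k` with `k ≥ (K/100) log Q`, `(1/8)^k ≤ Q^(-K/50)`, and
`Q² · 2 Q^7 C √(log X) M/(Q^8/2)² ≤ C' √(log X) Q^(-7)`, `log X ≤ Q^(1/K)` (`regp_log_le` in `R0`);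
together `≤ Q^(-6)`. -/
theorem L1_family (C0 : ℝ) (h0 : 1 ≤ C0) : ∃ C K : ℝ, 1 ≤ C ∧ 1 ≤ K ∧ ∀ Q X : ℕ, RegP K Q X →
    ∀ (g : (Σ r : ℕ, DirichletCharacter ℂ r) → ℂ → ℂ)
      (ε b : (Σ r : ℕ, DirichletCharacter ℂ r) → ℝ), Fam C0 Q g →
    (∀ p ∈ PC Q, |ε p| ≤ 1 ∧ b p ≤ 1 ∧ ∀ s : ℂ, 1 < s.re → logDeriv (g p) s =
      -LSeries (fun n => (Λ n : ℂ) * p.2 (n : ZMod p.1)) s + ε p / (s - b p)) →
    ∑ p ∈ PC Q, ∫ t in (-(Q : ℝ) ^ 7)..((Q : ℝ) ^ 7), ‖FL X p t - ε p * Mb X (b p) t‖ ≤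
      C * (∑ p ∈ PC Q, ∑ ρ ∈ ZR (g p) (1 - 1 / 8) ((Q : ℝ) ^ 8), (od (g p) ρ : ℝ) *
        (1 / (1 + 64 * (1 - ρ.re))) ^ kX X) + (Q : ℝ) ^ (-6 : ℝ) := by
  obtain ⟨CA, hCA, hPA⟩ := PA_bounds
  obtain ⟨CB, KB, hCB, hPB⟩ := PB3_repr
  obtain ⟨CG, hCG, hPG⟩ := PG2_one C0 h0
  obtain ⟨K1, hK1, hlog⟩ := regp_log_le (16 * (CB * (CA + 1))) (1 / 2) 1 one_pos
  refine ⟨8 * CB * CG, max (max KB K1) (max 1280 (1280 * (CB * CG))), by nlinarith,
    le_trans (by norm_num) ((le_max_left _ _).trans (le_max_right _ _)), ?_⟩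
  intro Q X hreg g ε b hfam hmain
  set K := max (max KB K1) (max 1280 (1280 * (CB * CG))) with hKdef
  have hKB : KB ≤ K := (le_max_left _ _).trans (le_max_left _ _)
  have hKK1 : K1 ≤ K := (le_max_right _ _).trans (le_max_left _ _)
  have hK1280 : 1280 ≤ K := (le_max_left _ _).trans (le_max_right _ _)
  have hKC : 1280 * (CB * CG) ≤ K := (le_max_right _ _).trans (le_max_right _ _)
  have hK0 : 0 ≤ K := by linarith
  obtain ⟨hk1, hk2, hk3⟩ := pg2_kX (by linarith) hreg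
  have hQK := hreg.Q_ge (by linarith)
  have hQ4 : (4 : ℝ) ≤ Q := by linarith
  have hQ0 : (0 : ℝ) < Q := by linarith
  have hlogQ := hreg.logQ_ge (by linarith)
  have hXK := hreg.X_ge (by linarith)
  have hX8 : 8 ≤ X := by
    have : (8 : ℝ) ≤ X := by linarith
    exact_mod_cast this
  have hlX := hreg.logX_ge_one (by linarith)
  obtain ⟨kh, hkc, hkb, hkr⟩ := hPB X (hKB.trans hXK)
  set B := CB * Real.sqrt (Real.log X) with hBdef
  have hB0 : 0 ≤ B := by positivity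
  have hkint : MeasureTheory.Integrable fun ξ : ℝ => 1 / (1 + |ξ|) ^ 3 := PG1_kernel.1
  have hintD : ∀ D : ℝ → ℂ, Continuous D → ∀ M : ℝ, (∀ v, ‖D v‖ ≤ M) → ∀ t : ℝ,
      MeasureTheory.Integrable fun ξ : ℝ => kh ξ * D (t - ξ) := by
    intro D hD M hM t
    refine MeasureTheory.Integrable.mono' (hkint.const_mul (B * M))
      (hkc.mul (hD.comp (continuous_const.sub continuous_id))).aestronglyMeasurable ?_
    refine Filter.Eventually.of_forall fun ξ => ?_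
    rw [norm_mul]
    calc ‖kh ξ‖ * ‖D (t - ξ)‖ ≤ (B / (1 + |ξ|) ^ 3) * M :=
          mul_le_mul (hkb ξ) (hM _) (norm_nonneg _) (by positivity)
      _ = B * M * (1 / (1 + |ξ|) ^ 3) := by ring
  have hone : ∀ p ∈ PC Q, ∫ t in (-(Q : ℝ) ^ 7)..((Q : ℝ) ^ 7), ‖FL X p t - ε p * Mb X (b p) t‖ ≤
      8 * CB * CG * (∑ ρ ∈ ZR (g p) (1 - 1 / 8) ((Q : ℝ) ^ 8), (od (g p) ρ : ℝ) *
        (1 / (1 + 64 * (1 - ρ.re))) ^ kX X) +
      (CB * CG * (Real.sqrt (Real.log X) * ((Q : ℝ) ^ 8 * Real.log Q * (1 / 8) ^ kX X)) +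
        2 * (Q : ℝ) ^ 7 * B * (CA + 1) / ((Q : ℝ) ^ 8 - 1 - (Q : ℝ) ^ 7) ^ 2) := by
    intro p hp
    obtain ⟨hε, hb, hld⟩ := hmain p hp
    have hc : ∀ n : ℕ, ‖p.2 (n : ZMod p.1)‖ ≤ 1 := fun n => DirichletCharacter.norm_le_one p.2 _
    have hPc := Pk_continuous (fun n => p.2 (n : ZMod p.1)) hc (kX X)
    have hMc := Mk_continuous (b p) hb (kX X)
    have hPb := hPA (fun n => p.2 (n : ZMod p.1)) hc (kX X)
    have hMb := Mk_norm (b p) hb (kX X)
    set D : ℝ → ℂ := fun v => Pk (fun n => p.2 (n : ZMod p.1)) (kX X) v - ε p * Mk (b p) (kX X) v with hD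
    have hDc : Continuous D := hPc.sub (continuous_const.mul hMc)
    have hDb : ∀ v, ‖D v‖ ≤ CA + 1 := by
      intro v
      refine (norm_sub_le _ _).trans (add_le_add (hPb v) ?_)
      rw [norm_mul, Complex.norm_real, Real.norm_eq_abs]
      calc |ε p| * ‖Mk (b p) (kX X) v‖ ≤ 1 * 1 := mul_le_mul hε (hMb v) (norm_nonneg _) zero_le_one
        _ = 1 := one_mul 1
    have hrep : ∀ t : ℝ, FL X p t - ε p * Mb X (b p) t = ∫ ξ : ℝ, kh ξ * D (t - ξ) := by
      intro t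
      rw [PB3_FL X (by omega) kh B hkc hkb hkr p t, PB3_Mb X hX8 kh B hkc hkb hkr (b p) hb t,
        ← MeasureTheory.integral_const_mul, ← MeasureTheory.integral_sub]
      · refine MeasureTheory.integral_congr_ae (Filter.Eventually.of_forall fun ξ => ?_)
        simp only [hD]
        ring
      · exact hintD _ hPc CA hPb t
      · exact (hintD _ hMc 1 hMb t).const_mul _
    have h1 := PG1_conv kh D B (CA + 1) ((Q : ℝ) ^ 7) ((Q : ℝ) ^ 8 - 1) hB0 (by linarith) (by positivity)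
      (by
        have h7 : (4 : ℝ) ^ 7 ≤ (Q : ℝ) ^ 7 := pow_le_pow_left₀ (by norm_num) hQ4 7
        have : (Q : ℝ) ^ 8 = (Q : ℝ) ^ 7 * Q := by ring
        rw [this]
        nlinarith) hkc hkb hDc hDb
    simp only [← hrep] at h1
    have h2 := hPG Q (g p) (fun n => p.2 (n : ZMod p.1)) (ε p) (b p) (by linarith) (hfam.dat p hp)
      hc hb hld (kX X) hk1
    refine h1.trans ?_
    have hsq : 0 < Real.sqrt (kX X + 1) := Real.sqrt_pos.2 (by positivity)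
    have h3 : Real.sqrt (Real.log X) ≤ 8 * Real.sqrt (kX X + 1) := by
      rw [Real.sqrt_le_left (by positivity), mul_pow, Real.sq_sqrt (by positivity)]
      linarith
    set Sg := ∑ ρ ∈ ZR (g p) (1 - 1 / 8) ((Q : ℝ) ^ 8), (od (g p) ρ : ℝ) *
        (1 / (1 + 64 * (1 - ρ.re))) ^ kX X with hSg
    have hSg0 : 0 ≤ Sg := by
      have hne : ∃ c, g p c ≠ 0 := ⟨2, fun h => by
        have := (hfam.dat p hp).zre 2 h
        norm_num at this⟩
      refine Finset.sum_nonneg fun ρ hρ => mul_nonneg (Nat.cast_nonneg _) (pow_nonneg ?_ _)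
      have := ((mem_ZR (hfam.dat p hp).diff hne).1 hρ).2.2.1
      apply div_nonneg zero_le_one
      linarith
    have h4 : B * (CG / Real.sqrt (kX X + 1) * Sg) ≤ 8 * CB * CG * Sg := by
      have e1 : B * (CG / Real.sqrt (kX X + 1) * Sg) =
          (CB * CG) * (Real.sqrt (Real.log X) / Real.sqrt (kX X + 1)) * Sg := by
        rw [hBdef]
        ring
      rw [e1]
      have h5 : Real.sqrt (Real.log X) / Real.sqrt (kX X + 1) ≤ 8 := by
        rw [div_le_iff₀ hsq]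
        exact h3
      have h6 : (CB * CG) * (Real.sqrt (Real.log X) / Real.sqrt (kX X + 1)) ≤ (CB * CG) * 8 :=
        mul_le_mul_of_nonneg_left h5 (by positivity)
      have h7 := mul_le_mul_of_nonneg_right h6 hSg0
      linarith
    have h5 := mul_le_mul_of_nonneg_left h2 hB0
    have e2 : B * (CG / Real.sqrt (kX X + 1) * Sg + CG * (Q : ℝ) ^ 8 * Real.log Q * (1 / 8) ^ kX X) =
        B * (CG / Real.sqrt (kX X + 1) * Sg) +
          CB * CG * (Real.sqrt (Real.log X) * ((Q : ℝ) ^ 8 * Real.log Q * (1 / 8) ^ kX X)) := by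
      rw [hBdef]
      ring
    rw [e2] at h5
    linarith
  refine (Finset.sum_le_sum hone).trans ?_
  rw [Finset.sum_add_distrib, ← Finset.mul_sum, Finset.sum_const, nsmul_eq_mul]
  have hcard : ((PC Q).card : ℝ) ≤ (Q : ℝ) ^ 2 := by exact_mod_cast card_PC_le Q
  set E1 := Real.sqrt (Real.log X) * ((Q : ℝ) ^ 8 * Real.log Q * (1 / 8) ^ kX X) with hE1
  set E2 := 2 * (Q : ℝ) ^ 7 * B * (CA + 1) / ((Q : ℝ) ^ 8 - 1 - (Q : ℝ) ^ 7) ^ 2 with hE2
  have hE10 : 0 ≤ E1 := by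
    have : 0 ≤ Real.log Q := by linarith
    positivity
  have hE20 : 0 ≤ E2 := by positivity
  have he1 : (Q : ℝ) ^ 2 * E1 ≤ 640 * (Q : ℝ) ^ (-7 : ℝ) * (1 / Q) := pg2_err1 hK1280 hreg
  have he2 : (Q : ℝ) ^ 2 * E2 ≤ 8 * (B * (CA + 1)) * (Q : ℝ) ^ (-7 : ℝ) :=
    pg2_err2 hQ4 hB0 (by linarith)
  have hQ76 : (Q : ℝ) ^ (-7 : ℝ) * Q = (Q : ℝ) ^ (-6 : ℝ) := by
    rw [← Real.rpow_add_one hQ0.ne']
    norm_num
  have hp7 : 0 < (Q : ℝ) ^ (-7 : ℝ) := by positivity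
  have hf1 : (Q : ℝ) ^ 2 * (CB * CG * E1) ≤ (Q : ℝ) ^ (-6 : ℝ) / 2 := by
    have hCC : 0 ≤ CB * CG := by positivity
    calc (Q : ℝ) ^ 2 * (CB * CG * E1) = (CB * CG) * ((Q : ℝ) ^ 2 * E1) := by ring
      _ ≤ (CB * CG) * (640 * (Q : ℝ) ^ (-7 : ℝ) * (1 / Q)) := mul_le_mul_of_nonneg_left he1 hCC
      _ = (640 * (CB * CG) * (1 / Q)) * (Q : ℝ) ^ (-7 : ℝ) := by ring
      _ ≤ (Q / 2) * (Q : ℝ) ^ (-7 : ℝ) := by
          apply mul_le_mul_of_nonneg_right _ hp7.le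
          have h1 : 1 / (Q : ℝ) ≤ 1 := by
            rw [div_le_one hQ0]
            linarith
          have h2 : 640 * (CB * CG) * (1 / Q) ≤ 640 * (CB * CG) * 1 :=
            mul_le_mul_of_nonneg_left h1 (by positivity)
          linarith
      _ = (Q : ℝ) ^ (-6 : ℝ) / 2 := by
          rw [← hQ76]
          ring
  have hf2 : (Q : ℝ) ^ 2 * E2 ≤ (Q : ℝ) ^ (-6 : ℝ) / 2 := by
    refine he2.trans ?_
    have h1 := hlog Q X (hreg.mono hK0 hKK1)
    rw [Real.rpow_one, ← Real.sqrt_eq_rpow] at h1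
    have h2 : 8 * (B * (CA + 1)) ≤ Q / 2 := by
      rw [hBdef]
      linarith
    calc 8 * (B * (CA + 1)) * (Q : ℝ) ^ (-7 : ℝ) ≤ (Q / 2) * (Q : ℝ) ^ (-7 : ℝ) :=
          mul_le_mul_of_nonneg_right h2 hp7.le
      _ = (Q : ℝ) ^ (-6 : ℝ) / 2 := by
          rw [← hQ76]
          ring
  have hf3 : ((PC Q).card : ℝ) * (CB * CG * E1 + E2) ≤ (Q : ℝ) ^ 2 * (CB * CG * E1 + E2) :=
    mul_le_mul_of_nonneg_right hcard (by positivity)
  have e3 : (Q : ℝ) ^ 2 * (CB * CG * E1 + E2) = (Q : ℝ) ^ 2 * (CB * CG * E1) + (Q : ℝ) ^ 2 * E2 := by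
    ring
  linarith

end Pool.Agent.Lib.H18Q
end

-- from Lib.H18Q.PF
section

/-!
# Project H18Q, chunk PF: the smooth main terms
-/

open Finset

namespace Pool.Agent.Lib.H18Q

open Pool.Agent.Lib.H68T

theorem pf_sum_int {A M t : ℝ} {O O1 O2 : ℝ → ℝ} (h : XFB_Amp A M O O1 O2) (hM : 0 ≤ M)
    (_hA : 0 < A) (N N0 : ℕ) (hN : A + 6 < Real.log N) (hN0 : 1 ≤ N0) (hAN : Real.log N0 < A) :
    ‖∑ n ∈ Icc 1 N, XFB_W O t (n:ℝ) - ∫ u in (1:ℝ)..(N : ℝ), XFB_W O t u‖ ≤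
      M * (2 + |t|) * (2 / N0) := by
  have hNpos : 1 ≤ N := by
    rcases Nat.eq_zero_or_pos N with h0 | h0
    · rw [h0] at hN; simp at hN; linarith
    · exact h0
  have hzero : ∀ u : ℝ, 1 ≤ u → u ≤ N0 → XFB_W O t u = 0 := by
    intro u hu hu'
    unfold XFB_W
    rw [h.z0 _ (by
      rw [Set.mem_Icc]
      intro h'
      have := Real.log_le_log (by linarith) hu'
      linarith [h'.1])]
    simp
  have hNN : N0 ≤ N := by
    by_contra hc
    push Not at hc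
    have : Real.log N ≤ Real.log N0 := Real.log_le_log (by exact_mod_cast hNpos)
      (by exact_mod_cast hc.le)
    linarith
  have hW1 : XFB_W O t ((1 : ℕ) : ℝ) = 0 := hzero _ (by simp) (by exact_mod_cast hN0)
  have hint : ∀ N : ℕ, 1 ≤ N → ∫ u in (1:ℝ)..(N:ℝ), XFB_W O t u =
      ∑ n ∈ Ico 1 N, ∫ u in (n:ℝ)..((n + 1 : ℕ) : ℝ), XFB_W O t u := by
    intro N hN
    induction N, hN using Nat.le_induction with
    | base => simp
    | succ N hN ih =>
      rw [sum_Ico_succ_top hN, ← ih, intervalIntegral.integral_add_adjacent_intervals]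
      · exact XFB_W_ii O h.c0 t 1 N one_pos (by exact_mod_cast hN)
      · exact XFB_W_ii O h.c0 t N _ (by exact_mod_cast hN) (by push_cast; linarith)
  have hsum : ∀ N : ℕ, 1 ≤ N → ∑ n ∈ Icc 1 N, XFB_W O t (n:ℝ) =
      ∑ n ∈ Ico 1 N, XFB_W O t ((n + 1 : ℕ) : ℝ) := by
    intro N hN
    induction N, hN using Nat.le_induction with
    | base => simpa using hW1
    | succ N hN ih =>
      rw [sum_Ico_succ_top hN, ← ih, sum_Icc_succ_top (by omega)]
  have hdiff : ‖∑ n ∈ Icc 1 N, XFB_W O t (n:ℝ) - ∫ u in (1:ℝ)..(N : ℝ), XFB_W O t u‖ ≤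
      M * (2 + |t|) * (2 / N0) := by
    rw [hint _ hNpos, hsum _ hNpos, ← sum_sub_distrib]
    have hz : ∑ n ∈ Ico 1 N, (XFB_W O t ((n + 1 : ℕ) : ℝ) -
        ∫ u in (n:ℝ)..((n + 1 : ℕ) : ℝ), XFB_W O t u) =
        ∑ n ∈ Ico N0 N, (XFB_W O t ((n + 1 : ℕ) : ℝ) -
        ∫ u in (n:ℝ)..((n + 1 : ℕ) : ℝ), XFB_W O t u) := by
      symm
      apply sum_subset
      · intro n hn
        rw [mem_Ico] at hn ⊢
        exact ⟨le_trans hN0 hn.1, hn.2⟩
      · intro n hn hn'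
        rw [mem_Ico] at hn
        rw [mem_Ico, not_and] at hn'
        have hlt : n < N0 := by
          by_contra h
          exact hn' (not_lt.mp h) hn.2
        have hlt' : ((n + 1 : ℕ) : ℝ) ≤ (N0:ℝ) := by exact_mod_cast hlt
        have z2 : XFB_W O t ((n + 1 : ℕ) : ℝ) = 0 := hzero _ (by push_cast; linarith) hlt'
        rw [z2, zero_sub, neg_eq_zero]
        rw [intervalIntegral.integral_congr (g := fun _ => (0:ℂ))]
        · simp
        · intro u hu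
          rw [Set.uIcc_of_le (by push_cast; linarith)] at hu
          have hn1 : (1:ℝ) ≤ n := by exact_mod_cast hn.1
          exact hzero _ (by linarith [hu.1]) (hu.2.trans hlt')
    rw [hz]
    have hterm : ∀ n ∈ Ico N0 N, ‖XFB_W O t ((n + 1 : ℕ) : ℝ) -
        ∫ u in (n:ℝ)..((n + 1 : ℕ) : ℝ), XFB_W O t u‖ ≤ M * (2 + |t|) * (1 / (n : ℝ) ^ 2) := by
      intro n hn
      rw [mem_Ico] at hn
      have hn1 : 1 ≤ n := le_trans hN0 hn.1
      have hn1' : (1:ℝ) ≤ n := by exact_mod_cast hn1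
      have hle : (n:ℝ) ≤ ((n + 1 : ℕ) : ℝ) := by push_cast; linarith
      have h5 : (((n + 1 : ℕ) : ℝ) - n) = 1 := by push_cast; ring
      have hconst : XFB_W O t ((n + 1 : ℕ) : ℝ) =
          ∫ u in (n:ℝ)..((n + 1 : ℕ) : ℝ), XFB_W O t ((n + 1 : ℕ) : ℝ) := by
        rw [intervalIntegral.integral_const, h5, one_smul]
      rw [hconst, ← intervalIntegral.integral_sub (by simp)
        (XFB_W_ii O h.c0 t n _ (by linarith) hle)]
      have := intervalIntegral.norm_integral_le_of_norm_le_const (a := (n:ℝ))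
        (b := ((n + 1 : ℕ) : ℝ)) (C := M * (2 + |t|) * (1 / (n : ℝ) ^ 2))
        (f := fun u => XFB_W O t ((n + 1 : ℕ) : ℝ) - XFB_W O t u) ?_
      · rw [h5, abs_one, mul_one] at this
        exact this
      · intro u hu
        rw [Set.uIoc_of_le hle] at hu
        have hu1 : 1 ≤ u := by linarith [hu.1]
        refine (XFB_diff h hM t u ((n + 1 : ℕ) : ℝ) hu1 hu.2).trans ?_
        have h7 : (((n + 1 : ℕ) : ℝ) - u) / u ^ 2 ≤ 1 / (n:ℝ) ^ 2 := by
          apply div_le_div₀ zero_le_one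
          · have := hu.1; push_cast; linarith
          · positivity
          · exact pow_le_pow_left₀ (by linarith) hu.1.le 2
        have := abs_nonneg t
        exact mul_le_mul_of_nonneg_left h7 (by positivity)
    refine (norm_sum_le _ _).trans ((sum_le_sum hterm).trans ?_)
    rw [← mul_sum]
    have := abs_nonneg t
    exact mul_le_mul_of_nonneg_left (LONG_sum_inv_sq N0 N hN0) (by positivity)
  exact hdiff

/-- The integral `Mb` over the support. -/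
theorem pf_Mb (X : ℕ) (hX : 8 ≤ X) (b t : ℝ) :
    Mb X b t = ∫ y in (0:ℝ)..Real.log ((60 * X : ℕ) : ℝ),
      (XFB_O (-Real.log X) b y : ℂ) * Complex.exp (-(t * Complex.I) * y) := by
  have hX0 : (0:ℝ) < X := by
    have : 0 < X := by omega
    exact_mod_cast this
  have hX8 : (8:ℝ) ≤ X := by exact_mod_cast hX
  have hexp2 : Real.exp 2 ≤ 8 := by
    have h2 : Real.exp 2 = (Real.exp 1) ^ 2 := by rw [← Real.exp_nat_mul]; norm_num
    rw [h2]
    have h1 := Real.exp_one_lt_d9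
    calc (Real.exp 1) ^ 2 ≤ (2.7182818286:ℝ) ^ 2 := pow_le_pow_left₀ (Real.exp_pos 1).le h1.le 2
      _ ≤ 8 := by norm_num
  have hlX : 2 ≤ Real.log X := (Real.le_log_iff_exp_le hX0).mpr (hexp2.trans hX8)
  have hl60 : (4:ℝ) < Real.log 60 := by
    rw [Real.lt_log_iff_exp_lt (by norm_num)]
    have : Real.exp 4 = (Real.exp 1) ^ 4 := by
      rw [← Real.exp_nat_mul]; norm_num
    rw [this]
    have h1 := Real.exp_one_lt_d9
    calc (Real.exp 1) ^ 4 ≤ (2.7182818286:ℝ) ^ 4 :=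
          pow_le_pow_left₀ (Real.exp_pos 1).le h1.le 4
      _ < 60 := by norm_num
  have hlN : Real.log X + 4 < Real.log ((60 * X : ℕ) : ℝ) := by
    push_cast
    rw [Real.log_mul (by norm_num) hX0.ne']
    linarith
  have hpt : ∀ y : ℝ, (w (y - Real.log X) : ℂ) *
      Complex.exp (-((1 - b : ℝ) + t * Complex.I) * y) =
      (XFB_O (-Real.log X) b y : ℂ) * Complex.exp (-(t * Complex.I) * y) := by
    intro y
    unfold XFB_O
    rw [← sub_eq_add_neg]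
    push_cast
    rw [mul_assoc, ← Complex.exp_add]
    congr 2
    ring
  have hz : ∀ y : ℝ, y ∉ Set.Ioc 0 (Real.log ((60 * X : ℕ) : ℝ)) →
      w (y - Real.log X) = 0 := by
    intro y hy
    rw [Set.mem_Ioc, not_and_or, not_lt, not_le] at hy
    unfold w
    rcases hy with hy | hy
    · rw [Real.smoothTransition.zero_of_nonpos (by linarith), zero_mul]
    · rw [Real.smoothTransition.zero_of_nonpos (x := 4 - (y - Real.log X)) (by linarith), mul_zero]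
  unfold Mb
  rw [intervalIntegral.integral_of_le (by linarith)]
  rw [← MeasureTheory.setIntegral_eq_integral_of_forall_compl_eq_zero
    (s := Set.Ioc 0 (Real.log ((60 * X : ℕ) : ℝ)))]
  · exact MeasureTheory.setIntegral_congr_fun measurableSet_Ioc (fun y _ => hpt y)
  · intro y hy
    rw [hz y hy]
    simp

theorem PF_F0 (X : ℕ) (t : ℝ) : F0 X t = Fb X 1 t := by
  unfold F0 Fb
  congr 1
  funext m
  simp

/-- Sum and integral: `|Fb X b t - Mb X b t| ≤ C (1 + |t|)/X` for `1/2 ≤ b ≤ 1`, `X` large.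

Proof. `Fb X b t = ∑_{m ≤ 60 X} φ(m)`, `φ(x) = w(log x - log X) x^(b - 2 - it)`, and substituting
`x = e^u`, `Mb X b t = ∫_0^∞ φ(x) dx = ∫_{X/e²}^{e⁴ X} φ`. `|φ'(x)| ≤ C (1 + |t|) x^(b-3) ≤
C (1+|t|) x^(-2)`. `|∑_{m ∈ (A, B]} φ(m) - ∫_A^B φ| ≤ ∫_A^B |φ'| ≤ C (1+|t|)/A` with `A = ⌊X/8⌋ - 1`
(`φ = 0` below, as `e² < 7.4`), `B = 60 X`. The lemmas `XFB_W`, `XFB_diff`, `XFB_subst`, `XFB_eq` of
`H68X/XFB` do exactly this. -/
theorem PF_main : ∃ C K : ℝ, 0 < C ∧ ∀ X : ℕ, K ≤ X → ∀ b t : ℝ, 1 / 2 ≤ b → b ≤ 1 →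
    ‖Fb X b t - Mb X b t‖ ≤ C * (1 + |t|) / X := by
  obtain ⟨M, hM, hamp⟩ := XFB_amp
  refine ⟨40 * (M + 1), 100, by positivity, fun X hXK b t hb hb1 => ?_⟩
  have hX100 : (100:ℝ) ≤ X := hXK
  have hXn : 100 ≤ X := by exact_mod_cast hX100
  have hX0 : (0:ℝ) < X := by linarith
  rw [XFB_eq X b t (by omega), pf_Mb X (by omega) b t]
  have hexp2 : Real.exp 2 ≤ 8 := by
    have h2 : Real.exp 2 = (Real.exp 1) ^ 2 := by rw [← Real.exp_nat_mul]; norm_num
    rw [h2]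
    have h1 := Real.exp_one_lt_d9
    calc (Real.exp 1) ^ 2 ≤ (2.7182818286:ℝ) ^ 2 := pow_le_pow_left₀ (Real.exp_pos 1).le h1.le 2
      _ ≤ 8 := by norm_num
  have hlX : 3 ≤ Real.log X := by
    have h1 : Real.exp 3 ≤ 100 := by
      have h2 : Real.exp 3 = (Real.exp 1) ^ 3 := by rw [← Real.exp_nat_mul]; norm_num
      rw [h2]
      have h1 := Real.exp_one_lt_d9
      calc (Real.exp 1) ^ 3 ≤ (2.7182818286:ℝ) ^ 3 := pow_le_pow_left₀ (Real.exp_pos 1).le h1.le 3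
        _ ≤ 100 := by norm_num
    exact (Real.le_log_iff_exp_le hX0).mpr (h1.trans hX100)
  have hA := hamp (-Real.log X) b (by linarith) hb hb1
  rw [neg_neg] at hA
  have hN01 : 1 ≤ X / 9 := by omega
  have hN0' : ((X / 9 : ℕ) : ℝ) ≤ X / 9 := by exact_mod_cast Nat.cast_div_le
  have hN0'' : (X : ℝ) / 10 ≤ ((X / 9 : ℕ) : ℝ) := by
    have h1 : X < (X / 9 + 1) * 9 := by omega
    have h2 : (X : ℝ) < (((X / 9 : ℕ) : ℝ) + 1) * 9 := by exact_mod_cast h1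
    linarith
  have hN00 : (0:ℝ) < ((X / 9 : ℕ) : ℝ) := by exact_mod_cast hN01
  have hlN0 : Real.log ((X / 9 : ℕ) : ℝ) < Real.log X - 2 := by
    have h1 : Real.log ((X / 9 : ℕ) : ℝ) ≤ Real.log (X / 9) := Real.log_le_log hN00 hN0'
    rw [Real.log_div hX0.ne' (by norm_num)] at h1
    have h2 : 2 < Real.log 9 := by
      rw [Real.lt_log_iff_exp_lt (by norm_num)]; linarith
    linarith
  have hlN : Real.log X - 2 + 6 < Real.log ((60 * X : ℕ) : ℝ) := by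
    push_cast
    rw [Real.log_mul (by norm_num) hX0.ne']
    have hlog60 : (4:ℝ) < Real.log 60 := by
      rw [Real.lt_log_iff_exp_lt (by norm_num)]
      have : Real.exp 4 = (Real.exp 1) ^ 4 := by
        rw [← Real.exp_nat_mul]; norm_num
      rw [this]
      have h1 := Real.exp_one_lt_d9
      calc (Real.exp 1) ^ 4 ≤ (2.7182818286:ℝ) ^ 4 :=
            pow_le_pow_left₀ (Real.exp_pos 1).le h1.le 4
        _ < 60 := by norm_num
    linarith
  have hmain := pf_sum_int (t := t) hA hM (by linarith) (60 * X) (X / 9) hlN hN01 hlN0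
  have h60 : (1:ℝ) ≤ ((60 * X : ℕ) : ℝ) := by
    have : 1 ≤ 60 * X := by omega
    exact_mod_cast this
  rw [XFB_subst _ hA.c0 t _ h60] at hmain
  refine hmain.trans ?_
  have ht := abs_nonneg t
  calc M * (2 + |t|) * (2 / ((X / 9 : ℕ) : ℝ)) ≤ (M + 1) * (2 * (1 + |t|)) * (20 / X) := by
        apply mul_le_mul _ _ (by positivity) (by positivity)
        · nlinarith
        · rw [div_le_div_iff₀ hN00 hX0]
          linarith
    _ = 40 * (M + 1) * (1 + |t|) / X := by ring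

end Pool.Agent.Lib.H18Q
end
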