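import Pool.Agent.Lib.H59M.M1.M012
import Pool.Agent.Lib.H59M.M1.M017
import Pool.Agent.Lib.H59M.M1.M022
import Pool.Agent.Lib.H59M.M1.M023
import Pool.Agent.Lib.H59M.M1.M025

/-! Merged copies (to shorten the build) of Lib.H18Q.Z5B, Lib.H18Q.E4, Lib.H18Q.E6. -/

-- from Lib.H18Q.Z5B
section

/-!
# Project H18Q, chunk Z5B: growth data with the exceptional zero removed
-/

open Finset

namespace Pool.Agent.Lib.H18Q

open Pool.Agent.Lib.H68T

/-- Growth data of `L(s, ψ)/(s - β)`.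

Proof. `g = dslope ψ.LFunction β` is entire (`XZ4_dslope_diff`), `g s = L(s)/(s - β)` for `s ≠ β`.
`zre`: `g ρ = 0` implies `L(ρ) = 0` (`ρ ≠ β`: numerator; `ρ = β`: `Re β < 1` anyway). Growth:
`dslope_bound` (`|g s| ≤ 16 N (1 + |s|)` for `Re s ≥ 1/2`, file `H68X/XZ3`), and at `s₀ = 1 + lam +
i v`, `|g s₀| = |L(s₀)|/|s₀ - β| ≥ (lam/2)/(Q^10 + 3)` (`lab2_lower`, `|s₀ - β| ≤ |v| + 2`).
Logarithmic derivative: `XZ4_dslope_logderiv`: `L'/L - 1/(s₀ - β)`, and `|s₀ - β| ≥ 1 + lam - β ≥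
lam`. -/
theorem LDat_dslope : ∃ C0 K : ℝ, 1 ≤ C0 ∧ ∀ Q : ℕ, K ≤ Q → ∀ (r : ℕ) [NeZero r]
    (ψ : DirichletCharacter ℂ r), r ≤ Q → ψ ≠ 1 → ∀ β : ℝ, 3 / 4 ≤ β → β < 1 →
    ψ.LFunction (β : ℂ) = 0 →
    LDat C0 (Real.log Q) ((Q : ℝ) ^ 10) (dslope ψ.LFunction (β : ℂ)) := by
  obtain ⟨C₀, hC₀, hvM⟩ := vonMangoldt_le
  refine ⟨40 + C₀, 32, by linarith, ?_⟩
  intro Q hQ r _ ψ hrQ hψ β hβ hβ1 hβ0
  have hQpos : (0 : ℝ) < Q := by linarith
  set L : ℝ := Real.log Q with hL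
  have hQexp : (Q : ℝ) = Real.exp L := (Real.exp_log hQpos).symm
  have hLpos : 0 < L := Real.log_pos (by linarith)
  have hLQ : L ≤ Q := (Real.log_le_sub_one_of_pos hQpos).trans (by linarith)
  have hf := DirichletCharacter.differentiable_LFunction hψ
  set F : ℂ → ℂ := dslope ψ.LFunction (β : ℂ) with hF
  have hFd : Differentiable ℂ F := XZ4_dslope_diff hf _
  have hLne : ∀ s : ℂ, 1 ≤ s.re → ψ.LFunction s ≠ 0 := fun s hs =>
    DirichletCharacter.LFunction_ne_zero_of_one_le_re ψ (Or.inl hψ) hs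
  have hsβ : ∀ s : ℂ, 1 ≤ s.re → s ≠ (β : ℂ) := by
    intro s hs h
    rw [h, Complex.ofReal_re] at hs
    linarith
  have hFL : ∀ s : ℂ, s ≠ (β : ℂ) → F s * (s - (β : ℂ)) = ψ.LFunction s := by
    intro s hs
    rw [hF, dslope_of_ne _ hs, slope_def_field, hβ0, sub_zero]
    have : s - (β : ℂ) ≠ 0 := sub_ne_zero.2 hs
    field_simp
  refine ⟨hFd, ?_, ?_, ?_⟩
  · intro ρ hρ
    by_contra hcon
    push Not at hcon
    have h1 := hFL ρ (hsβ ρ hcon)
    rw [hρ, zero_mul] at h1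
    exact hLne ρ hcon h1.symm
  · intro lam v hlam hlam8 hv s hs
    have hlam0 : 0 < lam := (by positivity : (0 : ℝ) < 1 / L).trans_le hlam
    set s₀ : ℂ := 1 + lam + v * Complex.I with hs₀
    have hre : s₀.re = 1 + lam := by simp [hs₀]
    have him : s₀.im = v := by simp [hs₀]
    have hQ10 : (1 : ℝ) ≤ (Q : ℝ) ^ 10 := one_le_pow₀ (by linarith)
    have hn0 : ‖s₀‖ ≤ 2 + (Q : ℝ) ^ 10 := by
      have h1 := Complex.norm_le_abs_re_add_abs_im s₀
      rw [hre, him, abs_of_pos (by linarith)] at h1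
      linarith
    have hdist : ‖s - s₀‖ ≤ 1 / 2 := by
      rwa [Metric.mem_closedBall, dist_eq_norm] at hs
    have hsre : 1 / 2 ≤ s.re := by
      have h1 := Complex.abs_re_le_norm (s - s₀)
      rw [Complex.sub_re, hre] at h1
      have h2 := (abs_le.1 (h1.trans hdist)).1
      linarith
    have hns : ‖s‖ ≤ 3 + (Q : ℝ) ^ 10 := by
      have h1 : ‖s‖ ≤ ‖s - s₀‖ + ‖s₀‖ := by
        have := norm_add_le (s - s₀) s₀
        rwa [sub_add_cancel] at this
      linarith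
    have hb := dslope_bound r ψ hψ β hβ hβ1 hβ0 s hsre
    have hrQ' : (r : ℝ) ≤ Q := by exact_mod_cast hrQ
    have hup : ‖F s‖ ≤ 16 * Q * (4 + (Q : ℝ) ^ 10) := by
      refine hb.trans ?_
      have h1 : 0 ≤ 1 + ‖s‖ := by positivity
      have h2 : 16 * (r : ℝ) * (1 + ‖s‖) ≤ 16 * Q * (1 + ‖s‖) :=
        mul_le_mul_of_nonneg_right (by linarith) h1
      refine h2.trans ?_
      apply mul_le_mul_of_nonneg_left _ (by positivity)
      linarith
    -- the lower bound at the centre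
    have hs₀gt : 1 < s₀.re := by rw [hre]; linarith
    have hlow := lab2_lower r ψ s₀ hs₀gt
    rw [← DirichletCharacter.LFunction_eq_LSeries ψ hs₀gt, hre] at hlow
    have hlow2 : lam / 2 ≤ ‖ψ.LFunction s₀‖ := by
      refine le_trans ?_ hlow
      rw [show 1 + lam - 1 = lam by ring, div_le_div_iff₀ (by norm_num) (by linarith)]
      nlinarith
    have hnb : ‖s₀ - (β : ℂ)‖ ≤ 4 + (Q : ℝ) ^ 10 := by
      have h1 := norm_sub_le s₀ (β : ℂ)
      have h2 : ‖(β : ℂ)‖ ≤ 1 := by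
        rw [Complex.norm_real, Real.norm_eq_abs, abs_of_pos (by linarith)]
        exact hβ1.le
      linarith
    have hmul := hFL s₀ (hsβ s₀ hs₀gt.le)
    have hlow3 : lam / 2 ≤ ‖F s₀‖ * (4 + (Q : ℝ) ^ 10) := by
      refine hlow2.trans ?_
      rw [← hmul, norm_mul]
      exact mul_le_mul_of_nonneg_left hnb (norm_nonneg _)
    have hlow4 : 1 ≤ 2 * Q * (4 + (Q : ℝ) ^ 10) * ‖F s₀‖ := by
      have h1 : 1 / (Q : ℝ) ≤ lam :=
        (one_div_le_one_div_of_le hLpos hLQ).trans hlam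
      have h2 : 1 ≤ lam * Q := by
        rw [div_le_iff₀ hQpos] at h1
        exact h1
      have h3 : lam * Q ≤ 2 * (‖F s₀‖ * (4 + (Q : ℝ) ^ 10)) * Q :=
        mul_le_mul_of_nonneg_right (by linarith) hQpos.le
      calc (1 : ℝ) ≤ 2 * (‖F s₀‖ * (4 + (Q : ℝ) ^ 10)) * Q := h2.trans h3
        _ = 2 * Q * (4 + (Q : ℝ) ^ 10) * ‖F s₀‖ := by ring
    have hexp : 16 * Q * (4 + (Q : ℝ) ^ 10) * (2 * Q * (4 + (Q : ℝ) ^ 10)) ≤
        Real.exp ((40 + C₀) * L) := by
      have h1 : (Q : ℝ) ^ 40 ≤ Real.exp ((40 + C₀) * L) := by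
        rw [hQexp, ← Real.exp_nat_mul]
        apply Real.exp_le_exp.mpr
        push_cast
        nlinarith
      refine le_trans ?_ h1
      have h2 : 4 + (Q : ℝ) ^ 10 ≤ 5 * (Q : ℝ) ^ 10 := by linarith
      have h3 : 16 * Q * (4 + (Q : ℝ) ^ 10) * (2 * Q * (4 + (Q : ℝ) ^ 10)) ≤
          16 * Q * (5 * (Q : ℝ) ^ 10) * (2 * Q * (5 * (Q : ℝ) ^ 10)) := by
        apply mul_le_mul
        · exact mul_le_mul_of_nonneg_left h2 (by positivity)
        · exact mul_le_mul_of_nonneg_left h2 (by positivity)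
        · positivity
        · positivity
      refine h3.trans ?_
      have h4 : 16 * Q * (5 * (Q : ℝ) ^ 10) * (2 * Q * (5 * (Q : ℝ) ^ 10)) =
          800 * (Q : ℝ) ^ 22 := by ring
      rw [h4]
      have h5 : (800 : ℝ) ≤ (Q : ℝ) ^ 2 := by nlinarith
      calc 800 * (Q : ℝ) ^ 22 ≤ (Q : ℝ) ^ 2 * (Q : ℝ) ^ 22 :=
            mul_le_mul_of_nonneg_right h5 (by positivity)
        _ = (Q : ℝ) ^ 24 := by ring
        _ ≤ (Q : ℝ) ^ 40 := pow_le_pow_right₀ (by linarith) (by norm_num)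
    calc ‖F s‖ ≤ 16 * Q * (4 + (Q : ℝ) ^ 10) := hup
      _ ≤ 16 * Q * (4 + (Q : ℝ) ^ 10) * (2 * Q * (4 + (Q : ℝ) ^ 10) * ‖F s₀‖) :=
          le_mul_of_one_le_right (by positivity) hlow4
      _ = 16 * Q * (4 + (Q : ℝ) ^ 10) * (2 * Q * (4 + (Q : ℝ) ^ 10)) * ‖F s₀‖ := by ring
      _ ≤ Real.exp ((40 + C₀) * L) * ‖F s₀‖ :=
          mul_le_mul_of_nonneg_right hexp (norm_nonneg _)
  · intro lam v hlam hlam8 _
    have hlam0 : 0 < lam := (by positivity : (0 : ℝ) < 1 / L).trans_le hlam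
    set s₀ : ℂ := 1 + lam + v * Complex.I with hs₀
    have hre : s₀.re = 1 + lam := by simp [hs₀]
    have hs₀gt : 1 < s₀.re := by rw [hre]; linarith
    rw [logDeriv_apply, XZ4_dslope_logderiv hf (β : ℂ) s₀ hβ0 (hsβ s₀ hs₀gt.le)
      (hLne s₀ hs₀gt.le)]
    have h1 : ‖deriv ψ.LFunction s₀ / ψ.LFunction s₀‖ ≤ 1 / lam + C₀ := by
      have h2 := lab1_char r ψ s₀ hs₀gt
      rw [logDeriv_apply] at h2
      have h3 : ‖deriv ψ.LFunction s₀ / ψ.LFunction s₀‖ =
          ‖LSeries (fun n => (ArithmeticFunction.vonMangoldt n : ℂ) * ψ (n : ZMod r)) s₀‖ := by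
        rw [h2, norm_neg]
      rw [h3]
      refine (norm_LSeries_vM_le r ψ s₀ hs₀gt).trans ?_
      have h4 := hvM s₀.re hs₀gt (by rw [hre]; linarith)
      refine h4.trans ?_
      rw [hre, show 1 + lam - 1 = lam by ring]
    have h5 : ‖1 / (s₀ - (β : ℂ))‖ ≤ 1 / lam := by
      rw [norm_div, norm_one]
      apply one_div_le_one_div_of_le hlam0
      have h6 := Complex.re_le_norm (s₀ - (β : ℂ))
      rw [Complex.sub_re, Complex.ofReal_re, hre] at h6
      linarith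
    refine (norm_sub_le _ _).trans ((add_le_add h1 h5).trans ?_)
    rw [le_div_iff₀ hlam0]
    have h7 : (1 / lam + C₀ + 1 / lam) * lam = 2 + C₀ * lam := by
      field_simp
      ring
    rw [h7]
    nlinarith

end Pool.Agent.Lib.H18Q
end

-- from Lib.H18Q.E4
section

/-!
# Project H18Q, chunk E4: the product used for the repulsion
-/

open Finset

namespace Pool.Agent.Lib.H18Q

open ArithmeticFunction Pool.Agent.Lib.H68T

theorem e4_sigma_eq {d r r' : ℕ} [NeZero d] (hr : r ∣ d) (hr' : r' ∣ d)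
    (ψ : DirichletCharacter ℂ r) (ψ' : DirichletCharacter ℂ r') (h : r = r')
    (he : DirichletCharacter.changeLevel hr ψ = DirichletCharacter.changeLevel hr' ψ') :
    (⟨r, ψ⟩ : Σ r : ℕ, DirichletCharacter ℂ r) = ⟨r', ψ'⟩ := by
  subst h
  rw [DirichletCharacter.changeLevel_injective hr he]

theorem e4_shift_diff {f : ℂ → ℂ} (hf : Differentiable ℂ f) (a s : ℂ) :
    DifferentiableAt ℂ (fun z => f (z + a)) s :=
  (hf _).comp s (differentiableAt_id.add_const _)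

theorem e4_logDeriv_shift (f : ℂ → ℂ) (a s : ℂ) :
    logDeriv (fun z => f (z + a)) s = logDeriv f (s + a) := by
  rw [logDeriv_apply, logDeriv_apply, deriv_comp_add_const]

theorem e4_term (f : ℕ → ℂ) (η : ℝ) (s : ℂ) (n : ℕ) :
    LSeries.term f (s + η) n =
      LSeries.term (fun n => f n * ((((n : ℝ) ^ (-η) : ℝ)) : ℂ)) s n := by
  rcases Nat.eq_zero_or_pos n with rfl | hn
  · simp [LSeries.term_zero]
  · have hn0 : n ≠ 0 := hn.ne'
    have hnc : (n : ℂ) ≠ 0 := by exact_mod_cast hn0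
    rw [LSeries.term_of_ne_zero hn0, LSeries.term_of_ne_zero hn0, Complex.cpow_add _ _ hnc,
      Complex.ofReal_cpow (Nat.cast_nonneg n)]
    push_cast
    rw [Complex.cpow_neg]
    have h1 : (n : ℂ) ^ s ≠ 0 := by simp [Complex.cpow_eq_zero_iff, hnc]
    have h2 : (n : ℂ) ^ (η : ℂ) ≠ 0 := by simp [Complex.cpow_eq_zero_iff, hnc]
    field_simp

theorem e4_LS (f : ℕ → ℂ) (η : ℝ) (s : ℂ) :
    LSeries f (s + η) = LSeries (fun n => f n * ((((n : ℝ) ^ (-η) : ℝ)) : ℂ)) s :=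
  tsum_congr (e4_term f η s)

theorem e4_sum {f : ℕ → ℂ} {η : ℝ} {s : ℂ} (h : LSeriesSummable f (s + η)) :
    LSeriesSummable (fun n => f n * ((((n : ℝ) ^ (-η) : ℝ)) : ℂ)) s :=
  Summable.congr h (fun n => e4_term f η s n)

theorem e4_sumΛ {N : ℕ} (χ : DirichletCharacter ℂ N) {s : ℂ} (hs : 1 < s.re) :
    LSeriesSummable (fun n => (Λ n : ℂ) * χ (n : ZMod N)) s := by
  have h := DirichletCharacter.LSeriesSummable_twist_vonMangoldt χ hs
  refine (LSeriesSummable_congr s ?_).1 h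
  intro n _
  simp [mul_comm]

/-- The product of the lifts of two characters. -/
theorem e4_lift {q r : ℕ} [NeZero q] [NeZero r] (χ : DirichletCharacter ℂ q)
    (ψ : DirichletCharacter ℂ r) (n : ℕ) :
    (DirichletCharacter.changeLevel (Dvd.intro _ rfl : q ∣ q * r) χ *
      DirichletCharacter.changeLevel (Dvd.intro_left _ rfl : r ∣ q * r) ψ)
        (n : ZMod (q * r)) = χ (n : ZMod q) * ψ (n : ZMod r) := by
  by_cases h : IsCoprime (n : ℤ) ((q * r : ℕ) : ℤ)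
  · have h1 := DirichletCharacter.changeLevel_eq_cast_of_dvd' χ (Dvd.intro _ rfl : q ∣ q * r) h
    have h2 := DirichletCharacter.changeLevel_eq_cast_of_dvd' ψ
      (Dvd.intro_left _ rfl : r ∣ q * r) h
    rw [MulChar.mul_apply]
    push_cast at h1 h2 ⊢
    rw [h1, h2]
  · have h3 : ¬ n.Coprime (q * r) := by
      intro h4
      exact h (Nat.isCoprime_iff_coprime.2 h4)
    have h5 : (DirichletCharacter.changeLevel (Dvd.intro _ rfl : q ∣ q * r) χ *
      DirichletCharacter.changeLevel (Dvd.intro_left _ rfl : r ∣ q * r) ψ)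
        (n : ZMod (q * r)) = 0 := by
      apply MulChar.map_nonunit
      rw [ZMod.isUnit_iff_coprime]
      exact h3
    rw [h5]
    by_cases h6 : n.Coprime q
    · have h7 : ¬ n.Coprime r := fun h8 => h3 (Nat.Coprime.mul_right h6 h8)
      rw [MulChar.map_nonunit ψ (by rw [ZMod.isUnit_iff_coprime]; exact h7), mul_zero]
    · rw [MulChar.map_nonunit χ (by rw [ZMod.isUnit_iff_coprime]; exact h6), zero_mul]

theorem e4_lift_ne {q r : ℕ} [NeZero q] [NeZero r] (χ : DirichletCharacter ℂ q)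
    (ψ : DirichletCharacter ℂ r) (hχ : χ.IsPrimitive) (hψ : ψ.IsPrimitive) (h2 : ψ ^ 2 = 1)
    (hne : (⟨q, χ⟩ : Σ r : ℕ, DirichletCharacter ℂ r) ≠ ⟨r, ψ⟩) :
    DirichletCharacter.changeLevel (Dvd.intro _ rfl : q ∣ q * r) χ *
      DirichletCharacter.changeLevel (Dvd.intro_left _ rfl : r ∣ q * r) ψ ≠ 1 := by
  intro h
  apply hne
  have h3 : DirichletCharacter.changeLevel (Dvd.intro_left _ rfl : r ∣ q * r) ψ *
      DirichletCharacter.changeLevel (Dvd.intro_left _ rfl : r ∣ q * r) ψ = 1 := by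
    rw [← map_mul, ← pow_two, h2, map_one]
  have h4 : DirichletCharacter.changeLevel (Dvd.intro _ rfl : q ∣ q * r) χ =
      DirichletCharacter.changeLevel (Dvd.intro_left _ rfl : r ∣ q * r) ψ := by
    calc DirichletCharacter.changeLevel (Dvd.intro _ rfl : q ∣ q * r) χ
        = DirichletCharacter.changeLevel (Dvd.intro _ rfl : q ∣ q * r) χ *
          (DirichletCharacter.changeLevel (Dvd.intro_left _ rfl : r ∣ q * r) ψ *
          DirichletCharacter.changeLevel (Dvd.intro_left _ rfl : r ∣ q * r) ψ) := by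
          rw [h3, mul_one]
      _ = (DirichletCharacter.changeLevel (Dvd.intro _ rfl : q ∣ q * r) χ *
          DirichletCharacter.changeLevel (Dvd.intro_left _ rfl : r ∣ q * r) ψ) *
          DirichletCharacter.changeLevel (Dvd.intro_left _ rfl : r ∣ q * r) ψ := by
          rw [mul_assoc]
      _ = _ := by rw [h, one_mul]
  have : NeZero (q * r) := ⟨Nat.mul_ne_zero (NeZero.ne q) (NeZero.ne r)⟩
  have h5 : q = r := by
    have h6 := DirichletCharacter.conductor_changeLevel χ (Dvd.intro _ rfl : q ∣ q * r)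
    have h7 := DirichletCharacter.conductor_changeLevel ψ (Dvd.intro_left _ rfl : r ∣ q * r)
    have h8 : χ.conductor = q := hχ
    have h9 : ψ.conductor = r := hψ
    rw [← h8, ← h6, h4, h7, h9]
  exact e4_sigma_eq _ _ χ ψ h5 h4

theorem e4_ld_char {N : ℕ} [NeZero N] (χ : DirichletCharacter ℂ N) (η : ℝ) (hη : 0 ≤ η) (s : ℂ)
    (hs : 1 < s.re) : logDeriv (fun z => χ.LFunction (z + (η : ℂ))) s =
      -LSeries (fun n => (Λ n : ℂ) * χ (n : ZMod N) * ((((n : ℝ) ^ (-η) : ℝ)) : ℂ)) s := by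
  have h1 : 1 < (s + (η : ℂ)).re := by
    rw [Complex.add_re, Complex.ofReal_re]
    linarith
  rw [e4_logDeriv_shift, ← e4_LS (fun n => (Λ n : ℂ) * χ (n : ZMod N)) η s, lab1_char N χ _ h1,
    neg_neg]

theorem e4_sum_char {N : ℕ} (χ : DirichletCharacter ℂ N) (η : ℝ) (hη : 0 ≤ η) (s : ℂ)
    (hs : 1 < s.re) : LSeriesSummable
      (fun n => (Λ n : ℂ) * χ (n : ZMod N) * ((((n : ℝ) ^ (-η) : ℝ)) : ℂ)) s := by
  have h1 : 1 < (s + (η : ℂ)).re := by
    rw [Complex.add_re, Complex.ofReal_re]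
    linarith
  exact e4_sum (e4_sumΛ χ h1)

theorem e4_ld_triv {N : ℕ} [NeZero N] (s : ℂ) (hs : 1 < s.re) :
    logDeriv (DirichletCharacter.LFunctionTrivChar₁ N) s = 1 / (s - 1) -
      LSeries (fun n => (Λ n : ℂ) * (1 : DirichletCharacter ℂ N) (n : ZMod N)) s := by
  have hs1 : s ≠ 1 := by
    rintro rfl
    simp at hs
  have hs2 : s - 1 ≠ 0 := sub_ne_zero.2 hs1
  have hL : DirichletCharacter.LFunctionTrivChar N s ≠ 0 :=
    DirichletCharacter.LFunction_ne_zero_of_one_le_re (1 : DirichletCharacter ℂ N) (Or.inr hs1)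
      hs.le
  rw [logDeriv_apply, DirichletCharacter.deriv_LFunctionTrivChar₁_apply_of_ne_one N hs1,
    lab1_char N 1 s hs, logDeriv_apply]
  have h3 : DirichletCharacter.LFunctionTrivChar₁ N s =
      (s - 1) * DirichletCharacter.LFunctionTrivChar N s := by
    rw [DirichletCharacter.LFunctionTrivChar₁, Function.update_of_ne hs1]
  rw [h3, sub_neg_eq_add]
  change ((s - 1) * deriv (DirichletCharacter.LFunctionTrivChar N) s +
    DirichletCharacter.LFunctionTrivChar N s) /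
    ((s - 1) * DirichletCharacter.LFunctionTrivChar N s) = 1 / (s - 1) +
    deriv (DirichletCharacter.LFunctionTrivChar N) s / DirichletCharacter.LFunctionTrivChar N s
  field_simp
  ring

/-- The coefficients `χ(n) (1 + ψ(n) n^(β-1))`. -/
noncomputable def cE (r : ℕ) (ψ : DirichletCharacter ℂ r) (β : ℝ)
    (p : Σ r : ℕ, DirichletCharacter ℂ r) (n : ℕ) : ℂ :=
  p.2 (n : ZMod p.1) * (1 + ψ (n : ZMod r) * (((n : ℝ) ^ (β - 1) : ℝ) : ℂ))

theorem cE_norm (r : ℕ) (ψ : DirichletCharacter ℂ r) (β : ℝ) (hβ : β < 1)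
    (p : Σ r : ℕ, DirichletCharacter ℂ r) (n : ℕ) : ‖cE r ψ β p n‖ ≤ 2 := by
  unfold cE
  rw [norm_mul]
  have h1 : ‖p.2 (n : ZMod p.1)‖ ≤ 1 := DirichletCharacter.norm_le_one p.2 _
  have h2 : ‖(1 : ℂ) + ψ (n : ZMod r) * (((n : ℝ) ^ (β - 1) : ℝ) : ℂ)‖ ≤ 2 := by
    refine (norm_add_le _ _).trans ?_
    rw [norm_one, norm_mul]
    have h3 : ‖ψ (n : ZMod r)‖ ≤ 1 := DirichletCharacter.norm_le_one ψ _
    have h4 : ‖(((n : ℝ) ^ (β - 1) : ℝ) : ℂ)‖ ≤ 1 := by
      rw [Complex.norm_real, Real.norm_of_nonneg (Real.rpow_nonneg (Nat.cast_nonneg n) _)]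
      rcases Nat.eq_zero_or_pos n with rfl | hn
      · rw [Nat.cast_zero, Real.zero_rpow (by linarith)]
        norm_num
      · exact Real.rpow_le_one_of_one_le_of_nonpos (by exact_mod_cast hn) (by linarith)
    have h5 : ‖ψ (n : ZMod r)‖ * ‖(((n : ℝ) ^ (β - 1) : ℝ) : ℂ)‖ ≤ 1 * 1 :=
      mul_le_mul h3 h4 (norm_nonneg _) (by norm_num)
    linarith
  calc ‖p.2 (n : ZMod p.1)‖ * ‖(1 : ℂ) + ψ (n : ZMod r) * (((n : ℝ) ^ (β - 1) : ℝ) : ℂ)‖
      ≤ 1 * 2 := mul_le_mul h1 h2 (norm_nonneg _) (by norm_num)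
    _ = 2 := by norm_num

/-- For every `p ∈ PC Q` there is an entire function `F` with growth data, vanishing at the zeros
of `Lx r ψ β p`, and with `F'/F = - ∑ Λ(n) χ(n) (1 + ψ(n) n^(-η)) n^(-s)` (`+ 1/(s-1)` for `p0`),
`η = 1 - β`, for `Re s > 1`.

Proof. (1) `p = (q, χ) ≠ p0, (r, ψ)`: `F s = L(s, χ) L(s + η, χψ)`, `χψ` the product of the lifts to
level `q r ≤ Q²`; it is not `1`: otherwise the lift of `χ` is the inverse of the lift of `ψ`, which
is the lift of `ψ` (`ψ² = 1`), and then `(q, χ) = (r, ψ)` (primitive characters; compare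
`KER_sigma_eq` in `H68T/KER`). `LDat_shift` twice (`η = 0` and `η`; `χ ≠ 1` by `ne_one_of_ne_p0`),
`LDat.mul`; `lab1_char` for both factors; `Λ(n) (χψ)(n) n^(-(s+η)) = Λ(n) χ(n) ψ(n) n^(-η) n^(-s)`
(`changeLevel` values at `n` coprime to `q r`, both sides `0` otherwise; `LSeries_add`).
(2) `p = (r, ψ)`: `F s = dslope L(ψ) β (s) · LFunctionTrivChar₁ r (s + η)`: `LDat_dslope`,
`LDat_shift_triv`. For `Re s > 1`, `logDeriv (dslope L β) = L'/L - 1/(s - β)`
(`XZ4_dslope_logderiv`), and `LFunctionTrivChar₁ r (s+η) = (s + η - 1) L(s + η, 1_r)`, whose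
logarithmic derivative is `1/(s + η - 1) + L'/L(s + η, 1_r)`, and `s + η - 1 = s - β`: the two
fractions cancel. `ψ(n) · ψ(n) = 1_r(n)`. (3) `p = p0`: `F s = gl2_Z s · L(s + η, ψ)`
(`LDat_shift_triv` with `N = 1`, `η = 0`, and `LDat_shift`); `lab1_Z` gives `gl2_Z'/gl2_Z =
1/(s-1) - LSeries Λ`. `C0` is the sum of the two constants. `β ≥ 7/8` gives `η ≤ 1/8`. -/
theorem E4_data : ∃ C0 K : ℝ, 1 ≤ C0 ∧ ∀ Q : ℕ, K ≤ Q → ∀ (r : ℕ) [NeZero r]
    (ψ : DirichletCharacter ℂ r), r ≤ Q → ψ.IsPrimitive → ψ ≠ 1 → ψ ^ 2 = 1 → ∀ β : ℝ,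
    7 / 8 ≤ β → β < 1 → ψ.LFunction (β : ℂ) = 0 → ∀ p ∈ PC Q,
    ∃ F : ℂ → ℂ, LDat C0 (Real.log Q) ((Q : ℝ) ^ 10) F ∧ (∀ ρ, Lx r ψ β p ρ = 0 → F ρ = 0) ∧
      ∀ s : ℂ, 1 < s.re → logDeriv F s = -LSeries (fun n => (Λ n : ℂ) * cE r ψ β p n) s +
        (open Classical in if p = p0 then 1 / (s - 1) else 0) := by
  obtain ⟨C1, K1, hC1, h1⟩ := LDat_shift
  obtain ⟨C2, K2, hC2, h2⟩ := LDat_shift_triv
  obtain ⟨C3, K3, hC3, h3⟩ := LDat_dslope
  refine ⟨C1 + C1 + C2 + C3, max (max K1 K2) (max K3 1), by linarith, ?_⟩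
  intro Q hQ r _ ψ hrQ hprim hψ1 hψ2 β hβ hβ1 hzero p hp
  have hK1 : K1 ≤ (Q : ℝ) := le_trans (le_trans (le_max_left _ _) (le_max_left _ _)) hQ
  have hK2 : K2 ≤ (Q : ℝ) := le_trans (le_trans (le_max_right _ _) (le_max_left _ _)) hQ
  have hK3 : K3 ≤ (Q : ℝ) := le_trans (le_trans (le_max_left _ _) (le_max_right _ _)) hQ
  have hQ1 : (1 : ℝ) ≤ (Q : ℝ) := le_trans (le_trans (le_max_right _ _) (le_max_right _ _)) hQ
  have hQ1' : 1 ≤ Q := by exact_mod_cast hQ1
  have hlog : 0 ≤ Real.log Q := Real.log_nonneg hQ1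
  have hη : 0 ≤ 1 - β := by linarith
  have hη8 : 1 - β ≤ 1 / 8 := by linarith
  have hβη : β - 1 = -(1 - β) := by ring
  have hrQ2 : r ≤ Q ^ 2 := hrQ.trans (Nat.le_self_pow (by norm_num) Q)
  have hψp0 : (⟨r, ψ⟩ : Σ r : ℕ, DirichletCharacter ℂ r) ≠ p0 := by
    intro h
    have hr1 : r = 1 := congrArg Sigma.fst h
    subst hr1
    apply hψ1
    have h' : (⟨1, ψ⟩ : Σ r : ℕ, DirichletCharacter ℂ r) = ⟨1, 1⟩ := h
    exact eq_of_heq (Sigma.mk.inj h').2
  by_cases hpψ : p = ⟨r, ψ⟩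
  · -- the exceptional character
    subst hpψ
    refine ⟨fun s => dslope ψ.LFunction (β : ℂ) s *
      DirichletCharacter.LFunctionTrivChar₁ r (s + ((1 - β : ℝ) : ℂ)), ?_, ?_, ?_⟩
    · have hA := h3 Q hK3 r ψ hrQ hψ1 β (by linarith) hβ1 hzero
      have hB := h2 Q hK2 r hrQ2 (1 - β) hη hη8
      exact (hA.mul hB).mono (by linarith) le_rfl hlog
    · intro ρ hρ
      rw [Lx_mk, Lp_mk r ψ hψp0] at hρ
      simp only [hρ, zero_mul]
    · intro s hs
      rw [if_neg hψp0, add_zero]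
      have hsβ : s ≠ (β : ℂ) := by
        rintro rfl
        rw [Complex.ofReal_re] at hs
        linarith
      have hLs : ψ.LFunction s ≠ 0 :=
        DirichletCharacter.LFunction_ne_zero_of_one_le_re ψ (Or.inl hψ1) hs.le
      have hd := DirichletCharacter.differentiable_LFunction hψ1
      have hs' : 1 < (s + ((1 - β : ℝ) : ℂ)).re := by
        rw [Complex.add_re, Complex.ofReal_re]
        linarith
      have hs'1 : s + ((1 - β : ℝ) : ℂ) ≠ 1 := by
        intro h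
        rw [h] at hs'
        simp at hs'
      have hT : DirichletCharacter.LFunctionTrivChar₁ r (s + ((1 - β : ℝ) : ℂ)) ≠ 0 := by
        rw [DirichletCharacter.LFunctionTrivChar₁, Function.update_of_ne hs'1]
        exact mul_ne_zero (sub_ne_zero.2 hs'1)
          (DirichletCharacter.LFunction_ne_zero_of_one_le_re (1 : DirichletCharacter ℂ r)
            (Or.inr hs'1) hs'.le)
      have hdne : dslope ψ.LFunction (β : ℂ) s ≠ 0 := fun h => hLs (dslope_zero hzero h)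
      rw [logDeriv_mul s hdne hT (Pool.Agent.Lib.H68T.XZ4_dslope_diff hd _ s)
        (e4_shift_diff (DirichletCharacter.differentiable_LFunctionTrivChar₁ r) _ s)]
      rw [e4_logDeriv_shift, e4_ld_triv _ hs', logDeriv_apply,
        Pool.Agent.Lib.H68T.XZ4_dslope_logderiv hd _ s hzero hsβ hLs]
      have h10 := lab1_char r ψ s hs
      rw [logDeriv_apply] at h10
      have h11 : deriv ψ.LFunction s / ψ.LFunction s =
          -LSeries (fun n => (Λ n : ℂ) * ψ (n : ZMod r)) s := by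
        rw [h10, neg_neg]
      rw [h11, e4_LS]
      have h12 : s + ((1 - β : ℝ) : ℂ) - 1 = s - (β : ℂ) := by
        push_cast
        ring
      rw [h12]
      have h13 : (fun n => (Λ n : ℂ) * cE r ψ β ⟨r, ψ⟩ n) =
          (fun n => (Λ n : ℂ) * ψ (n : ZMod r)) + (fun n => (Λ n : ℂ) *
            (1 : DirichletCharacter ℂ r) (n : ZMod r) *
              ((((n : ℝ) ^ (-(1 - β)) : ℝ)) : ℂ)) := by
        funext n
        have h14 : ψ (n : ZMod r) * ψ (n : ZMod r) =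
            (1 : DirichletCharacter ℂ r) (n : ZMod r) := by
          rw [← MulChar.mul_apply, ← pow_two, hψ2]
        simp only [cE, Pi.add_apply, hβη]
        rw [← h14]
        ring
      rw [h13, LSeries_add (e4_sumΛ ψ hs) (e4_sum_char 1 (1 - β) hη s hs)]
      ring
  · by_cases hpp : p = p0
    · -- the trivial character
      subst hpp
      refine ⟨fun s => DirichletCharacter.LFunctionTrivChar₁ 1 (s + ((0 : ℝ) : ℂ)) *
        ψ.LFunction (s + ((1 - β : ℝ) : ℂ)), ?_, ?_, ?_⟩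
      · have hA := h2 Q hK2 1 (Nat.one_le_pow _ _ hQ1') 0 le_rfl (by norm_num)
        have hB := h1 Q hK1 r ψ hrQ2 hψ1 (1 - β) hη hη8
        exact (hA.mul hB).mono (by linarith) le_rfl hlog
      · intro ρ hρ
        rw [Lx_of_ne r ψ β p0 hpψ, Lp_p0] at hρ
        have h4 : DirichletCharacter.LFunctionTrivChar₁ 1 (ρ + ((0 : ℝ) : ℂ)) = 0 := by
          rw [Complex.ofReal_zero, add_zero]
          exact hρ
        simp only [h4, zero_mul]
      · intro s hs
        rw [if_pos rfl]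
        have hs' : 1 < (s + ((1 - β : ℝ) : ℂ)).re := by
          rw [Complex.add_re, Complex.ofReal_re]
          linarith
        have hs1 : s ≠ 1 := by
          rintro rfl
          simp at hs
        have hLs : ψ.LFunction (s + ((1 - β : ℝ) : ℂ)) ≠ 0 :=
          DirichletCharacter.LFunction_ne_zero_of_one_le_re ψ (Or.inl hψ1) hs'.le
        have hd := DirichletCharacter.differentiable_LFunction hψ1
        have hT : DirichletCharacter.LFunctionTrivChar₁ 1 (s + ((0 : ℝ) : ℂ)) ≠ 0 := by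
          rw [Complex.ofReal_zero, add_zero, DirichletCharacter.LFunctionTrivChar₁,
            Function.update_of_ne hs1]
          exact mul_ne_zero (sub_ne_zero.2 hs1)
            (DirichletCharacter.LFunction_ne_zero_of_one_le_re (1 : DirichletCharacter ℂ 1)
              (Or.inr hs1) hs.le)
        rw [logDeriv_mul s hT hLs
          (e4_shift_diff (DirichletCharacter.differentiable_LFunctionTrivChar₁ 1) _ s)
          (e4_shift_diff hd _ s)]
        rw [e4_logDeriv_shift, Complex.ofReal_zero, add_zero, e4_ld_triv s hs,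
          e4_ld_char ψ (1 - β) hη s hs]
        have h13 : (fun n => (Λ n : ℂ) * cE r ψ β p0 n) =
            (fun n => (Λ n : ℂ) * (1 : DirichletCharacter ℂ 1) (n : ZMod 1)) +
            (fun n => (Λ n : ℂ) * ψ (n : ZMod r) *
              ((((n : ℝ) ^ (-(1 - β)) : ℝ)) : ℂ)) := by
          funext n
          have h15 : (1 : DirichletCharacter ℂ 1) (n : ZMod 1) = 1 := by
            rw [MulChar.one_apply]
            exact isUnit_of_subsingleton _
          have h16 : p0.2 (n : ZMod p0.1) = 1 := h15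
          simp only [cE, Pi.add_apply, hβη, h16]
          rw [h15]
          ring
        rw [h13, LSeries_add (e4_sumΛ 1 hs) (e4_sum_char ψ (1 - β) hη s hs)]
        ring
    · -- the general case
      obtain ⟨q, χ⟩ := p
      have hq := (mem_PC.mp hp).1
      have hqQ := (mem_PC.mp hp).2.1
      have hχprim := (mem_PC.mp hp).2.2
      have hχ1 : χ ≠ 1 := ne_one_of_ne_p0 hp hpp
      simp only at hq hqQ hχprim
      have hNq : NeZero q := ⟨by omega⟩
      have hNqr : NeZero (q * r) := ⟨Nat.mul_ne_zero (NeZero.ne q) (NeZero.ne r)⟩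
      have hθ := e4_lift_ne χ ψ hχprim hprim hψ2 hpψ
      have hθv := e4_lift χ ψ
      set θ : DirichletCharacter ℂ (q * r) :=
        DirichletCharacter.changeLevel (Dvd.intro _ rfl : q ∣ q * r) χ *
        DirichletCharacter.changeLevel (Dvd.intro_left _ rfl : r ∣ q * r) ψ with hθdef
      have hqr : q * r ≤ Q ^ 2 := by
        rw [pow_two]
        exact Nat.mul_le_mul hqQ hrQ
      have hqQ2 : q ≤ Q ^ 2 := hqQ.trans (Nat.le_self_pow (by norm_num) Q)
      refine ⟨fun s => χ.LFunction (s + ((0 : ℝ) : ℂ)) *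
        θ.LFunction (s + ((1 - β : ℝ) : ℂ)), ?_, ?_, ?_⟩
      · have hA := h1 Q hK1 q χ hqQ2 hχ1 0 le_rfl (by norm_num)
        have hB := h1 Q hK1 (q * r) θ hqr hθ (1 - β) hη hη8
        exact (hA.mul hB).mono (by linarith) le_rfl hlog
      · intro ρ hρ
        rw [Lx_of_ne r ψ β _ hpψ, Lp_mk q χ hpp] at hρ
        have h4 : χ.LFunction (ρ + ((0 : ℝ) : ℂ)) = 0 := by
          rw [Complex.ofReal_zero, add_zero]
          exact hρ
        simp only [h4, zero_mul]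
      · intro s hs
        rw [if_neg hpp, add_zero]
        have hs' : 1 < (s + ((1 - β : ℝ) : ℂ)).re := by
          rw [Complex.add_re, Complex.ofReal_re]
          linarith
        have hLs : θ.LFunction (s + ((1 - β : ℝ) : ℂ)) ≠ 0 :=
          DirichletCharacter.LFunction_ne_zero_of_one_le_re θ (Or.inl hθ) hs'.le
        have hd := DirichletCharacter.differentiable_LFunction hθ
        have hdχ := DirichletCharacter.differentiable_LFunction hχ1
        have hT : χ.LFunction (s + ((0 : ℝ) : ℂ)) ≠ 0 := by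
          rw [Complex.ofReal_zero, add_zero]
          exact DirichletCharacter.LFunction_ne_zero_of_one_le_re χ (Or.inl hχ1) hs.le
        rw [logDeriv_mul s hT hLs (e4_shift_diff hdχ _ s) (e4_shift_diff hd _ s)]
        rw [e4_logDeriv_shift, Complex.ofReal_zero, add_zero, e4_ld_char θ (1 - β) hη s hs]
        have h10 : logDeriv χ.LFunction s =
            -LSeries (fun n => (Λ n : ℂ) * χ (n : ZMod q)) s := by
          rw [lab1_char q χ s hs, neg_neg]
        rw [h10]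
        have h13 : (fun n => (Λ n : ℂ) * cE r ψ β ⟨q, χ⟩ n) =
            (fun n => (Λ n : ℂ) * χ (n : ZMod q)) +
            (fun n => (Λ n : ℂ) * θ (n : ZMod (q * r)) *
              ((((n : ℝ) ^ (-(1 - β)) : ℝ)) : ℂ)) := by
          funext n
          simp only [cE, Pi.add_apply, hβη, hθv]
          ring
        rw [h13, LSeries_add (e4_sumΛ χ hs) (e4_sum_char θ (1 - β) hη s hs)]
        ring

end Pool.Agent.Lib.H18Q
end

-- from Lib.H18Q.E6
section

/-!
# Project H18Q, chunk E6: the detecting sum is small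
-/

open Finset

namespace Pool.Agent.Lib.H18Q

open ArithmeticFunction Pool.Agent.Lib.H68T

/-- `|PP(c_E)| ≤ C K1 η log Q`, `η = 1 - β`, for `C3 κ ≤ K1 ≤ 2 C3 κ`.

Proof. Let `lam = κ/log Q`, `x = xlo K1 lam`, `y = yhi K1 lam`; `log x = (K1 - 1) log Q/(2^20 κ) ≥
100 log Q` if `C3 ≥ 2^28`, so `x ≥ Q^100`, all primes `n ∈ PI x y` are `> Q ≥ r` and
`ψ(n) = ±1`. `|PP| ≤ ∑ log n Jk(n) |1 + ψ(n) n^(-η)|`. If `ψ(n) = -1`:
`1 - n^(-η) ≤ η log n ≤ η log y = 128 η K1/lam`, and `∑ log n Jk(n) ≤ C` (`Jk_sum`, `Λ n = log n`): at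
most `C 128 η K1 log Q/κ ≤ C' η log Q` (`K1 ≤ 2 C3 κ`). If `ψ(n) = 1`: factor `≤ 2`,
`log n Jk(n) ≤ lam log y/n = 128 K1/n` (`Jk_le`), and by `E2_primes` (between `X0 = ⌈x⌉ - 1 ≥ Q^99`
and `Y0 = ⌊y⌋`) `∑ 1/n ≤ η (2 + log (X0 Y0)) + 10 r/√X0 ≤ η (2 + 256 K1/lam) + 10 Q^(-48)`, where
`K1/lam ≤ 2 C3 log Q`, and `10 Q^(-48) ≤ Q^(-3) ≤ η` for `Q` large (`zero_elementary` in
`H68X/XSIE`: `η ≥ c/r² ≥ c/Q²`). Total `≤ 256 K1 (C'' η log Q)`. -/
theorem E6_small (C3 : ℝ) (hC3 : 2 ^ 28 ≤ C3) : ∃ C K : ℝ, 0 < C ∧ ∀ Q : ℕ, K ≤ Q →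
    ∀ (r : ℕ) [NeZero r] (ψ : DirichletCharacter ℂ r), r ≤ Q → ψ ≠ 1 → ψ ^ 2 = 1 → ∀ β : ℝ,
    7 / 8 ≤ β → β < 1 → ψ.LFunction (β : ℂ) = 0 →
    ∀ (p : Σ r : ℕ, DirichletCharacter ℂ r) (κ v : ℝ), 1 ≤ κ →
    κ ≤ th0 * Real.log Q → ∀ K1 k : ℕ, C3 * κ ≤ K1 → (K1 : ℝ) ≤ 2 * C3 * κ →
    ‖PP (cE r ψ β p) (κ / Real.log Q) k K1 v‖ ≤ C * K1 * ((1 - β) * Real.log Q) := by
  obtain ⟨CJ, hCJ, hJ⟩ := Jk_sum
  obtain ⟨c, hc, hel⟩ := H68T.zero_elementary
  refine ⟨128 * CJ + 256 * (3 + 512 * C3), max 3 (10 / c), by positivity, ?_⟩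
  intro Q hQ r _ ψ hrQ hψ hψ2 β hβ hβ1 h0 p κ v hκ hκQ K1 k hK1 hK2
  have hQ3 : (3 : ℝ) ≤ Q := (le_max_left _ _).trans hQ
  have hQc : 10 / c ≤ (Q : ℝ) := (le_max_right _ _).trans hQ
  have hQ3' : 3 ≤ Q := by exact_mod_cast hQ3
  have hQ0 : (0 : ℝ) < Q := by linarith
  have hlogQ : 1 ≤ Real.log Q := by
    rw [Real.le_log_iff_exp_le hQ0]
    exact (lt_trans Real.exp_one_lt_d9 (by norm_num)).le.trans hQ3
  obtain ⟨Lq, hLq⟩ : ∃ Lq, Lq = Real.log Q := ⟨_, rfl⟩
  rw [← hLq] at hlogQ hκQ ⊢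
  have hLq0 : 0 < Lq := by linarith
  obtain ⟨lam, hlam⟩ : ∃ lam, lam = κ / Lq := ⟨_, rfl⟩
  rw [← hlam]
  have hlam0 : 0 < lam := by rw [hlam]; positivity
  have hlamth : lam ≤ th0 := by
    rw [hlam, div_le_iff₀ hLq0]
    exact hκQ
  have hlam1 : lam ≤ 1 := hlamth.trans (by unfold th0; norm_num)
  have hil : 1 / lam ≤ Lq := by
    rw [hlam, one_div_div]
    exact div_le_self hLq0.le hκ
  obtain ⟨η, hη⟩ : ∃ η, η = 1 - β := ⟨_, rfl⟩
  rw [← hη]
  have hη0 : 0 < η := by rw [hη]; linarith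
  have hK1r : 2 ^ 28 ≤ (K1 : ℝ) := hC3.trans ((le_mul_of_one_le_right (by linarith) hκ).trans hK1)
  have hK10 : (0 : ℝ) < K1 := by linarith
  obtain ⟨x, hx⟩ : ∃ x, x = xlo K1 lam := ⟨_, rfl⟩
  obtain ⟨y, hy⟩ : ∃ y, y = yhi K1 lam := ⟨_, rfl⟩
  obtain ⟨Y, hY⟩ : ∃ Y, Y = 128 * K1 / lam := ⟨_, rfl⟩
  have hY0 : 0 < Y := by rw [hY]; positivity
  have hylog : Real.log y = Y := by rw [hy, yhi, Real.log_exp, hY]
  have hy0 : 0 < y := by rw [hy, yhi]; positivity
  have hx0 : 0 < x := by rw [hx, xlo]; positivity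
  -- x is large
  have hlogx : 100 * Lq ≤ Real.log x := by
    rw [hx, xlo, Real.log_exp, le_div_iff₀ (by positivity), hlam]
    have h1 : 100 * Lq * (2 ^ 20 * (κ / Lq)) = 100 * 2 ^ 20 * κ := by field_simp
    rw [h1]
    have h2 : 2 ^ 28 * κ ≤ K1 := (mul_le_mul_of_nonneg_right hC3 (by linarith)).trans hK1
    linarith only [h2, hκ]
  have hxQ : (Q : ℝ) ^ 100 ≤ x := by
    rw [← Real.log_le_log_iff (by positivity) hx0, Real.log_pow, ← hLq]
    exact_mod_cast hlogx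
  have hxy : x ≤ y := by
    rw [hx, hy, xlo, yhi]
    apply Real.exp_le_exp.2
    rw [div_le_div_iff₀ (by positivity) hlam0]
    have h1 : (0 : ℝ) < K1 * lam := by positivity
    linarith only [h1, hlam0]
  obtain ⟨X0, hX0⟩ : ∃ X0, X0 = ⌈x⌉₊ - 1 := ⟨_, rfl⟩
  obtain ⟨Y0, hY0'⟩ : ∃ Y0, Y0 = ⌊y⌋₊ := ⟨_, rfl⟩
  have hceil : 1 ≤ ⌈x⌉₊ := Nat.one_le_iff_ne_zero.2 (by rw [Ne, Nat.ceil_eq_zero, not_le]; exact hx0)
  have hX0r : x - 1 ≤ X0 := by
    have h1 := Nat.le_ceil x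
    have h2 : ((X0 : ℕ) : ℝ) = (⌈x⌉₊ : ℝ) - 1 := by
      rw [hX0, Nat.cast_sub hceil, Nat.cast_one]
    rw [h2]
    linarith
  have hX0x : (X0 : ℝ) ≤ x := by
    have h1 := Nat.ceil_lt_add_one hx0.le
    have h2 : ((X0 : ℕ) : ℝ) = (⌈x⌉₊ : ℝ) - 1 := by
      rw [hX0, Nat.cast_sub hceil, Nat.cast_one]
    rw [h2]
    linarith
  have hX0Y0 : X0 ≤ Y0 := by
    rw [hY0']
    exact Nat.le_floor (hX0x.trans hxy)
  have hQ99 : (Q : ℝ) ^ 99 ≤ X0 := by
    refine le_trans ?_ hX0r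
    have h1 : (Q : ℝ) ^ 100 = Q ^ 99 * Q := pow_succ _ _
    have h2 : (1 : ℝ) ≤ (Q : ℝ) ^ 99 := one_le_pow₀ (by linarith)
    have h3 := mul_le_mul_of_nonneg_left hQ3 (by linarith only [h2] : (0 : ℝ) ≤ (Q : ℝ) ^ 99)
    linarith only [h1, h2, h3, hxQ]
  have hr1 : (1 : ℝ) ≤ r := by
    have : 0 < r := Nat.pos_of_ne_zero (NeZero.ne r)
    exact_mod_cast this
  have hrQr : (r : ℝ) ≤ Q := by exact_mod_cast hrQ
  have hX0big : (4000 * r) ^ 2 ≤ X0 := by
    have h1 : ((4000 * r) ^ 2 : ℝ) ≤ (Q : ℝ) ^ 99 := by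
      have h2 : ((4000 * r) ^ 2 : ℝ) ≤ 16000000 * (Q : ℝ) ^ 2 := by
        have h5 := pow_le_pow_left₀ (by linarith only [hr1] : (0 : ℝ) ≤ r) hrQr 2
        linarith only [h5, mul_pow (4000 : ℝ) r 2]
      have h3 : (16000000 : ℝ) ≤ (Q : ℝ) ^ 97 :=
        le_trans (by norm_num) (pow_le_pow_left₀ (by norm_num) hQ3 97)
      have h4 : (Q : ℝ) ^ 99 = Q ^ 97 * Q ^ 2 := by rw [← pow_add]
      rw [h4]
      exact h2.trans (mul_le_mul_of_nonneg_right h3 (by positivity))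
    exact_mod_cast h1.trans hQ99
  have hE2 := E2_primes r ψ hψ hψ2 β (by linarith) hβ1 h0 X0 Y0 hX0big hX0Y0
  rw [← hη] at hE2
  have hX0pos : (0 : ℝ) < X0 := lt_of_lt_of_le (by positivity) hQ99
  have hY0pos : (0 : ℝ) < Y0 := lt_of_lt_of_le hX0pos (by exact_mod_cast hX0Y0)
  have hlogXY : Real.log ((X0 * Y0 : ℕ) : ℝ) ≤ 512 * C3 * Lq := by
    rw [Nat.cast_mul, Real.log_mul hX0pos.ne' hY0pos.ne']
    have h1 : Real.log X0 ≤ Y := by
      rw [← hylog]
      exact Real.log_le_log hX0pos (hX0x.trans hxy)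
    have h2 : Real.log Y0 ≤ Y := by
      rw [← hylog]
      refine Real.log_le_log hY0pos ?_
      rw [hY0']
      exact Nat.floor_le hy0.le
    have h3 : Y ≤ 256 * C3 * Lq := by
      rw [hY, hlam]
      have h4 : 128 * (K1 : ℝ) / (κ / Lq) = 128 * K1 * Lq / κ := by field_simp
      rw [h4, div_le_iff₀ (by linarith)]
      have h5 := mul_le_mul_of_nonneg_left hK2 (by positivity : 0 ≤ 128 * Lq)
      linarith only [h5]
    linarith only [h1, h2, h3]
  have hsq : 10 * r / Real.sqrt X0 ≤ η := by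
    have h1 : (Q : ℝ) ^ 49 ≤ Real.sqrt X0 := by
      apply Real.le_sqrt_of_sq_le
      refine le_trans ?_ hQ99
      rw [← pow_mul]
      exact pow_le_pow_right₀ (by linarith) (by norm_num)
    have h2 : 10 * (r : ℝ) / Real.sqrt X0 ≤ 10 * Q / (Q : ℝ) ^ 49 :=
      div_le_div₀ (by positivity) (by linarith) (by positivity) h1
    have h3 : 10 * (Q : ℝ) / (Q : ℝ) ^ 49 ≤ c / (Q : ℝ) ^ 2 := by
      rw [div_le_div_iff₀ (by positivity) (by positivity)]
      have h4 : 10 ≤ c * Q := by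
        rw [div_le_iff₀ hc] at hQc
        linarith
      have h5 : (1 : ℝ) ≤ (Q : ℝ) ^ 45 := one_le_pow₀ (by linarith)
      have h6 : c * (Q : ℝ) ^ 49 = (c * Q) * (Q ^ 45 * Q ^ 3) := by ring
      rw [h6]
      have h7 : 10 * (Q : ℝ) * Q ^ 2 = 10 * (1 * Q ^ 3) := by ring
      rw [h7]
      exact mul_le_mul h4 (mul_le_mul_of_nonneg_right h5 (by positivity)) (by positivity) (by positivity)
    have h4 : c / (Q : ℝ) ^ 2 ≤ c / (r : ℝ) ^ 2 :=
      div_le_div_of_nonneg_left hc.le (by positivity) (pow_le_pow_left₀ (by linarith) hrQr 2)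
    have h5 := hel r ψ hψ hψ2 β hβ1 h0
    rw [← hη] at h5
    linarith
  have hprimes : ∑ n ∈ (Ioc X0 Y0).filter (fun n : ℕ => n.Prime ∧ ψ (n : ZMod r) = 1), 1 / (n : ℝ) ≤
      (3 + 512 * C3) * (η * Lq) := by
    refine hE2.trans ?_
    have h1 : η * (2 + Real.log ((X0 * Y0 : ℕ) : ℝ)) ≤ η * (2 + 512 * C3 * Lq) :=
      mul_le_mul_of_nonneg_left (by linarith) hη0.le
    have h2 : η ≤ η * Lq := le_mul_of_one_le_right hη0.le hlogQ
    linarith only [h1, h2, hsq]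
  -- members of the range
  have hmem : ∀ n ∈ PI x y, n.Prime ∧ X0 < n ∧ n ≤ Y0 := by
    intro n hn
    rw [PI, Finset.mem_filter, Finset.mem_Icc] at hn
    refine ⟨hn.2, by omega, by rw [hY0']; exact hn.1.2⟩
  classical
  have hterm : ∀ n ∈ PI x y, ‖((Real.log n * Jk lam k n : ℝ) : ℂ) * cE r ψ β p n *
      (n : ℂ) ^ (-(v * Complex.I))‖ ≤ Λ n * Jk lam k n * (η * Y) +
        (if ψ (n : ZMod r) = 1 then 256 * K1 * (1 / (n : ℝ)) else 0) := by
    intro n hn
    obtain ⟨hnp, hn1, hn2⟩ := hmem n hn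
    have hnpos : 0 < n := hnp.pos
    have hn0 : (0 : ℝ) < n := by exact_mod_cast hnpos
    have hJn : 0 ≤ Jk lam k n := Jk_nonneg lam k n hlam0.le
    have hlogn : 0 ≤ Real.log n := Real.log_natCast_nonneg n
    have hlogY : Real.log n ≤ Y := by
      rw [← hylog]
      refine Real.log_le_log hn0 ?_
      have h1 : (n : ℝ) ≤ Y0 := by exact_mod_cast hn2
      refine h1.trans ?_
      rw [hY0']
      exact Nat.floor_le hy0.le
    rw [norm_mul, norm_mul, d0_norm n hnpos v, mul_one, Complex.norm_real, Real.norm_eq_abs,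
      abs_of_nonneg (mul_nonneg hlogn hJn), vonMangoldt_apply_prime hnp]
    have hcE : ‖cE r ψ β p n‖ ≤ ‖1 + ψ (n : ZMod r) * (((n : ℝ) ^ (β - 1) : ℝ) : ℂ)‖ := by
      unfold cE
      rw [norm_mul]
      exact mul_le_of_le_one_left (norm_nonneg _) (DirichletCharacter.norm_le_one _ _)
    have hrn : (r : ℝ) < n := by
      have h1 : (X0 : ℝ) < n := by exact_mod_cast hn1
      have h2 : (Q : ℝ) ≤ (Q : ℝ) ^ 99 := le_self_pow₀ (by linarith) (by norm_num)
      linarith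
    have hrn' : r < n := by exact_mod_cast hrn
    have hunit : IsUnit (n : ZMod r) := by
      rw [ZMod.isUnit_iff_coprime]
      refine (Nat.Prime.coprime_iff_not_dvd hnp).2 fun hd => ?_
      exact absurd (Nat.le_of_dvd (Nat.pos_of_ne_zero (NeZero.ne r)) hd) (by omega)
    have hψn : ψ (n : ZMod r) = 1 ∨ ψ (n : ZMod r) = -1 := by
      have h1 : ψ (n : ZMod r) ^ 2 = 1 := by
        rw [← MulChar.pow_apply' ψ two_ne_zero, hψ2, MulChar.one_apply hunit]
      exact sq_eq_one_iff.1 h1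
    have hpow : (n : ℝ) ^ (β - 1) = Real.exp (-(η * Real.log n)) := by
      rw [Real.rpow_def_of_pos hn0, hη]
      congr 1
      ring
    have hpow1 : (n : ℝ) ^ (β - 1) ≤ 1 := by
      rw [hpow]
      exact Real.exp_le_one_iff.2 (neg_nonpos.2 (mul_nonneg hη0.le hlogn))
    have hpow0 : 1 - η * Real.log n ≤ (n : ℝ) ^ (β - 1) := by
      rw [hpow]
      have := Real.add_one_le_exp (-(η * Real.log n))
      linarith
    have hpow2 : 0 ≤ (n : ℝ) ^ (β - 1) := by positivity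
    rcases hψn with h1 | h1
    · rw [if_pos h1]
      have h2 : ‖cE r ψ β p n‖ ≤ 2 := cE_norm r ψ β hβ1 p n
      have h3 := Jk_le lam k n hlam0
      have h4 : 0 ≤ Real.log n * Jk lam k n * (η * Y) := by positivity
      have h5 : Real.log n * Jk lam k n * ‖cE r ψ β p n‖ ≤ 256 * K1 * (1 / (n : ℝ)) := by
        calc Real.log n * Jk lam k n * ‖cE r ψ β p n‖ ≤ Real.log n * Jk lam k n * 2 :=
              mul_le_mul_of_nonneg_left h2 (by positivity)
          _ ≤ Y * Jk lam k n * 2 :=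
              mul_le_mul_of_nonneg_right (mul_le_mul_of_nonneg_right hlogY hJn) (by norm_num)
          _ ≤ Y * (lam / n) * 2 := by
              refine mul_le_mul_of_nonneg_right (mul_le_mul_of_nonneg_left ?_ hY0.le) (by norm_num)
              rw [le_div_iff₀ hn0]
              linarith
          _ = 256 * K1 * (1 / (n : ℝ)) := by
              rw [hY]
              field_simp
              norm_num
      linarith
    · rw [if_neg (by rw [h1]; norm_num), add_zero, mul_assoc, mul_assoc]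
      refine mul_le_mul_of_nonneg_left (mul_le_mul_of_nonneg_left (hcE.trans ?_) hJn) hlogn
      rw [h1]
      have h2 : (1 + -1 * (((n : ℝ) ^ (β - 1) : ℝ) : ℂ)) = ((1 - (n : ℝ) ^ (β - 1) : ℝ) : ℂ) := by
        push_cast
        ring
      rw [h2, Complex.norm_real, Real.norm_eq_abs, abs_of_nonneg (by linarith)]
      have h3 : η * Real.log n ≤ η * Y := mul_le_mul_of_nonneg_left hlogY hη0.le
      linarith
  have hsum1 : ∑ n ∈ PI x y, Λ n * Jk lam k n * (η * Y) ≤ CJ * (η * Y) := by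
    rw [← Finset.sum_mul]
    exact mul_le_mul_of_nonneg_right (hJ lam k _ hlam0 hlam1) (by positivity)
  have hsum2 : ∑ n ∈ PI x y, (if ψ (n : ZMod r) = 1 then 256 * K1 * (1 / (n : ℝ)) else 0) ≤
      256 * K1 * ((3 + 512 * C3) * (η * Lq)) := by
    rw [← Finset.sum_filter, ← Finset.mul_sum]
    refine mul_le_mul_of_nonneg_left (le_trans ?_ hprimes) (by positivity)
    apply Finset.sum_le_sum_of_subset_of_nonneg
    · intro n hn
      rw [Finset.mem_filter] at hn ⊢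
      obtain ⟨h1, h2, h3⟩ := hmem n hn.1
      rw [Finset.mem_Ioc]
      exact ⟨⟨h2, h3⟩, h1, hn.2⟩
    · intro n _ _
      positivity
  have hfin : ‖PP (cE r ψ β p) lam k K1 v‖ ≤ CJ * (η * Y) + 256 * K1 * ((3 + 512 * C3) * (η * Lq)) := by
    unfold PP
    rw [← hx, ← hy]
    refine (norm_sum_le _ _).trans ((Finset.sum_le_sum hterm).trans ?_)
    rw [Finset.sum_add_distrib]
    linarith
  refine hfin.trans ?_
  have hYL : Y ≤ 128 * K1 * Lq := by
    rw [hY, mul_div_assoc, ← mul_one_div, ← mul_assoc]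
    exact mul_le_mul_of_nonneg_left hil (by positivity)
  have h1 : CJ * (η * Y) ≤ CJ * (η * (128 * K1 * Lq)) :=
    mul_le_mul_of_nonneg_left (mul_le_mul_of_nonneg_left hYL hη0.le) hCJ.le
  refine (add_le_add h1 le_rfl).trans (le_of_eq ?_)
  ring

end Pool.Agent.Lib.H18Q
end
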