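import Pool.Agent.Lib.H59M.M1.M016
import Pool.Agent.Lib.H59M.M1.M018
import Pool.Agent.Lib.H59M.M1.M025

/-! Merged copies (to shorten the build) of Lib.H68T.MS. -/

-- from Lib.H68T.MS
section

/-!
# Chunk MS: uniform smallness of the Möbius polynomials
-/

open Finset

namespace Pool.Agent.Lib.H68T

/-- partial summation, identity -/
theorem ms_abel_eq (a : ℕ → ℂ) (M N : ℕ) (hMN : M ≤ N) :
    ∑ n ∈ Icc (M + 1) N, a n * (n : ℂ)⁻¹ =
      (∑ k ∈ Icc 1 N, a k) * ((N : ℂ) + 1)⁻¹ - (∑ k ∈ Icc 1 M, a k) * ((M : ℂ) + 1)⁻¹ +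
        ∑ n ∈ Icc (M + 1) N, (∑ k ∈ Icc 1 n, a k) * ((n : ℂ)⁻¹ - ((n : ℂ) + 1)⁻¹) := by
  induction N, hMN using Nat.le_induction with
  | base => simp
  | succ N hMN ih =>
    rw [Finset.sum_Icc_succ_top (show M + 1 ≤ N + 1 by omega), ih,
      Finset.sum_Icc_succ_top (show M + 1 ≤ N + 1 by omega),
      Finset.sum_Icc_succ_top (show 1 ≤ N + 1 by omega)]
    push_cast
    ring

/-- partial summation against `1/n` -/
theorem ms_abel (a : ℕ → ℂ) (δ : ℝ) (hδ : 0 ≤ δ) (M N : ℕ) (hN : 1 ≤ N)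
    (h : ∀ n, M ≤ n → n ≤ N → ‖∑ k ∈ Icc 1 n, a k‖ ≤ δ * n) :
    ‖∑ n ∈ Icc (M + 1) N, a n * (n : ℂ)⁻¹‖ ≤ δ * (3 + Real.log N) := by
  have hlog : 0 ≤ Real.log N := Real.log_natCast_nonneg N
  rcases lt_or_ge N M with hlt | hMN
  · rw [Finset.Icc_eq_empty (by omega), Finset.sum_empty, norm_zero]
    positivity
  rw [ms_abel_eq a M N hMN]
  have e0 : ∀ n : ℕ, ‖((n : ℂ) + 1)⁻¹‖ = ((n : ℝ) + 1)⁻¹ := by
    intro n
    rw [norm_inv]
    congr 1
    have : ((n : ℂ) + 1) = (((n : ℝ) + 1 : ℝ) : ℂ) := by push_cast; rfl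
    rw [this, Complex.norm_real, Real.norm_of_nonneg (by positivity)]
  have e1 : ∀ n, M ≤ n → n ≤ N → ‖(∑ k ∈ Icc 1 n, a k) * ((n : ℂ) + 1)⁻¹‖ ≤ δ := by
    intro n h1 h2
    rw [norm_mul, e0]
    have h3 := h n h1 h2
    have h4 : (0 : ℝ) < (n : ℝ) + 1 := by positivity
    rw [← div_eq_mul_inv, div_le_iff₀ h4]
    nlinarith
  have e2 : ‖∑ n ∈ Icc (M + 1) N, (∑ k ∈ Icc 1 n, a k) * ((n : ℂ)⁻¹ - ((n : ℂ) + 1)⁻¹)‖ ≤
      δ * (1 + Real.log N) := by
    refine (norm_sum_le _ _).trans ?_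
    have h5 : ∀ n ∈ Icc (M + 1) N, ‖(∑ k ∈ Icc 1 n, a k) * ((n : ℂ)⁻¹ - ((n : ℂ) + 1)⁻¹)‖ ≤
        δ * (n : ℝ)⁻¹ := by
      intro n hn
      obtain ⟨hn1, hn2⟩ := mem_Icc.mp hn
      have hn0 : (0 : ℝ) < n := by
        have : 0 < n := by omega
        exact_mod_cast this
      have h6 : ‖((n : ℂ)⁻¹ - ((n : ℂ) + 1)⁻¹)‖ = ((n : ℝ) * (n + 1))⁻¹ := by
        have : ((n : ℂ)⁻¹ - ((n : ℂ) + 1)⁻¹) = ((((n : ℝ) * (n + 1))⁻¹ : ℝ) : ℂ) := by
          push_cast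
          have h7 : (n : ℂ) ≠ 0 := by exact_mod_cast hn0.ne'
          have h8 : (n : ℂ) + 1 ≠ 0 := by exact_mod_cast (by positivity : (n : ℝ) + 1 ≠ 0)
          field_simp
          ring
        rw [this, Complex.norm_real, Real.norm_of_nonneg (by positivity)]
      rw [norm_mul, h6]
      calc ‖∑ k ∈ Icc 1 n, a k‖ * ((n : ℝ) * (n + 1))⁻¹
          ≤ δ * n * ((n : ℝ) * (n + 1))⁻¹ :=
            mul_le_mul_of_nonneg_right (h n (by omega) hn2) (by positivity)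
        _ = δ * ((n : ℝ) + 1)⁻¹ := by field_simp
        _ ≤ δ * (n : ℝ)⁻¹ := by
            refine mul_le_mul_of_nonneg_left (inv_anti₀ hn0 (by linarith)) hδ
    refine (Finset.sum_le_sum h5).trans ?_
    rw [← Finset.mul_sum]
    refine mul_le_mul_of_nonneg_left ?_ hδ
    have h9 : ∑ n ∈ Icc (M + 1) N, (n : ℝ)⁻¹ ≤ ∑ n ∈ Icc 1 N, (n : ℝ)⁻¹ :=
      Finset.sum_le_sum_of_subset_of_nonneg (Finset.Icc_subset_Icc (by omega) le_rfl)
        fun n _ _ => by positivity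
    refine h9.trans ?_
    have h10 := harmonic_le_one_add_log N
    rw [harmonic_eq_sum_Icc] at h10
    push_cast at h10
    exact h10
  have e3 := e1 N hMN le_rfl
  have e4 := e1 M le_rfl hMN
  have e5 := norm_add_le ((∑ k ∈ Icc 1 N, a k) * ((N : ℂ) + 1)⁻¹ -
    (∑ k ∈ Icc 1 M, a k) * ((M : ℂ) + 1)⁻¹)
    (∑ n ∈ Icc (M + 1) N, (∑ k ∈ Icc 1 n, a k) * ((n : ℂ)⁻¹ - ((n : ℂ) + 1)⁻¹))
  have e6 := norm_sub_le ((∑ k ∈ Icc 1 N, a k) * ((N : ℂ) + 1)⁻¹)
    ((∑ k ∈ Icc 1 M, a k) * ((M : ℂ) + 1)⁻¹)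
  linarith

/-- twisted coefficients -/
noncomputable def msA (p : Σ r : ℕ, DirichletCharacter ℂ r) (t : ℝ) (n : ℕ) : ℂ :=
  (ArithmeticFunction.moebius n : ℂ) * p.2 (n : ZMod p.1) * (n : ℂ) ^ (-(t * Complex.I))

theorem ms_norm_A (p : Σ r : ℕ, DirichletCharacter ℂ r) (t : ℝ) (n : ℕ) (hn : 1 ≤ n) :
    ‖msA p t n‖ ≤ 1 := by
  unfold msA
  rw [norm_mul, norm_mul, Complex.norm_natCast_cpow_of_pos (by omega)]
  have e1 : ‖p.2 (n : ZMod p.1)‖ ≤ 1 := DirichletCharacter.norm_le_one _ _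
  have e2 : ‖((ArithmeticFunction.moebius n : ℤ) : ℂ)‖ ≤ 1 := by
    have := ArithmeticFunction.abs_moebius_le_one (n := n)
    rw [Complex.norm_intCast]
    exact_mod_cast this
  have e3 : (n : ℝ) ^ (-(t * Complex.I)).re = 1 := by simp
  rw [e3, mul_one]
  calc ‖((ArithmeticFunction.moebius n : ℤ) : ℂ)‖ * ‖p.2 (n : ZMod p.1)‖ ≤ 1 * 1 :=
        mul_le_mul e2 e1 (norm_nonneg _) zero_le_one
    _ = 1 := one_mul 1

theorem ms_LSeries (p : Σ r : ℕ, DirichletCharacter ℂ r) (t : ℝ) (s : ℂ) :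
    LSeries (msA p t) s = LSeries (fun n => (ArithmeticFunction.moebius n : ℂ) *
      p.2 (n : ZMod p.1)) (s + t * Complex.I) := by
  unfold LSeries
  refine tsum_congr fun n => ?_
  rcases Nat.eq_zero_or_pos n with h0 | h0
  · rw [h0]; simp [LSeries.term]
  · have hn : (n : ℂ) ≠ 0 := by exact_mod_cast h0.ne'
    rw [LSeries.term_of_ne_zero h0.ne', LSeries.term_of_ne_zero h0.ne']
    unfold msA
    rw [Complex.cpow_neg, Complex.cpow_add _ _ hn]
    have h1 : (n : ℂ) ^ s ≠ 0 := by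
      rw [Ne, Complex.cpow_eq_zero_iff]
      tauto
    have h2 : (n : ℂ) ^ (t * Complex.I) ≠ 0 := by
      rw [Ne, Complex.cpow_eq_zero_iff]
      tauto
    field_simp

theorem ms_Mu (X : ℕ) (p : Σ r : ℕ, DirichletCharacter ℂ r) (t : ℝ) (hA : 1 ≤ AA X) :
    Mu X p t = ∑ n ∈ Icc (AA X) (VV X), msA p t n * (n : ℂ)⁻¹ := by
  unfold Mu msA
  refine Finset.sum_congr rfl fun n hn => ?_
  have hn1 : 1 ≤ n := hA.trans (mem_Icc.mp hn).1
  have hn0 : (n : ℂ) ≠ 0 := by exact_mod_cast (show n ≠ 0 by omega)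
  have e : (n : ℂ) ^ (-(1 + t * Complex.I)) = (n : ℂ) ^ (-(t * Complex.I)) * (n : ℂ)⁻¹ := by
    rw [show (-(1 + t * Complex.I) : ℂ) = -(t * Complex.I) + (-1) by ring,
      Complex.cpow_add _ _ hn0, Complex.cpow_neg_one]
  rw [e]
  ring

/-- For `|t| ≤ Q^11`, `p ∈ PC Q`: `‖M_p(t)‖ ≤ (log X)^(-A)`.

Proof. `a_n = μ(n) ψ(n) n^(-it)`, `f(s) = g(s + it)` with `g` from `inv_all`; `f` is analytic and
bounded by `C log Q` on `[1 - c'/log Q, 2] × [-T, T]`, `T = Q^11` (`Q^12 - Q^11 ≥ Q^11`). For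
`u ≥ X^(1/5)`, `perron` (with `κ = 0`) bounds the Cesàro sums by
`C u (log Q exp (-c' log X/(5 log Q)) + log Q/Q^22 + (1+log u)²/Q^11) ≤ κ u` with
`κ = (log X)^(-2A-10)` (`reg_exp_le`, `reg_log_le`), and `unsmooth` gives
`|∑_{n ≤ u} a_n| ≤ 20 √κ u (1 + log u)` for `X^(1/5) ≤ u ≤ X`. Partial summation against `1/n` on
`[AA X, VV X]`. -/
theorem Mu_small (c : ℝ) (hc : 0 < c) (A : ℝ) : ∃ K : ℝ, ∀ Q X : ℕ, Reg K Q X → Good c Q →
    ∀ p ∈ PC Q, ∀ t : ℝ, |t| ≤ (Q : ℝ) ^ 11 → ‖Mu X p t‖ ≤ (Real.log X) ^ (-A) := by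
  set A₀ : ℝ := |A| with hA₀
  have hA₀0 : 0 ≤ A₀ := abs_nonneg _
  have hAA₀ : A ≤ A₀ := le_abs_self _
  obtain ⟨c', C, K₁, hc', hC, hinv⟩ := inv_all c hc
  obtain ⟨P, hP, hper⟩ := perron
  obtain ⟨K₂, hK₂1, hK₂⟩ := reg_exp_le (3 * P * (C + 1)) (2 * A₀ + 11) (c' / 5) (by positivity)
  obtain ⟨K₃, hK₃1, hK₃⟩ := reg_log_le (3 * P * (C + 1)) (2 * A₀ + 11) 22 (by norm_num)
  obtain ⟨K₄, hK₄1, hK₄⟩ := reg_log_le (12 * P) (2 * A₀ + 12) 11 (by norm_num)
  obtain ⟨K₅, hK₅1, hK₅⟩ := reg_log_le 1 (2 * A₀ + 10) 1 (by norm_num)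
  obtain ⟨K₆, hK₆1, hK₆⟩ := reg_pow_le 1 1 (1 / 5) (by norm_num)
  obtain ⟨K₇, hK₇1, hK₇⟩ := reg_pow_le 2 0 (1 / 20) (by norm_num)
  refine ⟨|K₁| + K₂ + K₃ + K₄ + K₅ + K₆ + K₇ + 2 * c' + 10, ?_⟩
  intro Q X hreg hgood p hp t ht
  have a1 : 0 ≤ |K₁| := abs_nonneg _
  have b1 : K₁ ≤ |K₁| := le_abs_self _
  have hKpos : 0 ≤ |K₁| + K₂ + K₃ + K₄ + K₅ + K₆ + K₇ + 2 * c' + 10 := by linarith
  have r1 : Reg (|K₁| + 2 * c' + 10) Q X := hreg.mono hKpos (by linarith)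
  have r2 : Reg K₂ Q X := hreg.mono hKpos (by linarith)
  have r3 : Reg K₃ Q X := hreg.mono hKpos (by linarith)
  have r4 : Reg K₄ Q X := hreg.mono hKpos (by linarith)
  have r5 : Reg K₅ Q X := hreg.mono hKpos (by linarith)
  have r6 : Reg K₆ Q X := hreg.mono hKpos (by linarith)
  have r7 : Reg K₇ Q X := hreg.mono hKpos (by linarith)
  set L : ℝ := Real.log X with hL
  have hLbig : 10 ≤ L := by
    have h1 := r1.logX_ge (by linarith)
    have := Real.add_one_le_exp (|K₁| + 2 * c' + 10)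
    linarith
  have hL0 : 0 < L := by linarith
  have hL1 : 1 ≤ L := by linarith
  have hQbig : |K₁| + 2 * c' + 10 ≤ Q := r1.Q_ge (by linarith)
  have hQ10 : (10 : ℝ) ≤ Q := by linarith
  have hQ0 : (0 : ℝ) < Q := by linarith
  have hQK : K₁ ≤ Q := by linarith
  have hlQbig : |K₁| + 2 * c' + 10 ≤ Real.log Q := r1.logQ_ge (by linarith)
  have hlQ0 : 0 < Real.log Q := by linarith
  have hlQL : Real.log Q ≤ L := by
    have h1 := r1.logQ_le (by linarith)
    have h2 : 1 * Real.log Q ≤ (|K₁| + 2 * c' + 10) * Real.log Q :=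
      mul_le_mul_of_nonneg_right (by linarith) hlQ0.le
    linarith
  have hX1 : 1 ≤ X := r1.X_pos (by linarith)
  have hX0 : (0 : ℝ) < X := by exact_mod_cast hX1
  have hX10 : (10 : ℝ) ≤ X := by
    have := r1.X_ge (by linarith)
    linarith
  -- the numbers
  set κ : ℝ := L ^ (-(2 * A₀ + 10)) with hκ
  have hκ0 : 0 < κ := Real.rpow_pos_of_pos hL0 _
  have hκ1 : κ ≤ 1 := Real.rpow_le_one_of_one_le_of_nonpos hL1 (by linarith)
  have hy : (2 : ℝ) ≤ (X : ℝ) ^ ((1 : ℝ) / 20) := by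
    have := hK₇ Q X r7
    simpa using this
  set y : ℝ := (X : ℝ) ^ ((1 : ℝ) / 20) with hydef
  have hy4 : (X : ℝ) ^ ((1 : ℝ) / 5) = y ^ 4 := by
    rw [hydef, ← Real.rpow_natCast, ← Real.rpow_mul hX0.le]
    norm_num
  have hy5 : (X : ℝ) ^ ((1 : ℝ) / 4) = y ^ 5 := by
    rw [hydef, ← Real.rpow_natCast, ← Real.rpow_mul hX0.le]
    norm_num
  set u₀ : ℝ := (X : ℝ) ^ ((1 : ℝ) / 5) with hu₀
  have hu₀16 : (16 : ℝ) ≤ u₀ := by
    rw [hy4]
    have := pow_le_pow_left₀ (by norm_num) hy 4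
    linarith
  have hκu : 1 ≤ κ * u₀ := by
    have h1 : L ^ (2 * A₀ + 10) ≤ Q := by
      have := hK₅ Q X r5
      simpa using this
    have h2 : (Q : ℝ) ≤ u₀ := by
      have := hK₆ Q X r6
      rw [one_mul, Real.rpow_one] at this
      exact this
    rw [hκ, Real.rpow_neg hL0.le, ← div_eq_inv_mul, le_div_iff₀ (Real.rpow_pos_of_pos hL0 _)]
    linarith
  -- the analytic input
  obtain ⟨g, hg1, hg2, hg3⟩ := hinv Q hQK hgood p hp
  set η : ℝ := c' / Real.log Q with hη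
  have hη0 : 0 < η := by positivity
  have hη1 : η ≤ 1 / 2 := by
    rw [hη, div_le_iff₀ hlQ0]
    linarith
  set T : ℝ := (Q : ℝ) ^ 11 with hT
  have hT1 : 1 ≤ T := one_le_pow₀ (by linarith)
  have hT0 : 0 < T := by linarith
  have hT2 : 2 * T ≤ (Q : ℝ) ^ 12 := by
    have : (Q : ℝ) ^ 12 = T * Q := by rw [hT]; ring
    rw [this]
    nlinarith
  set B : ℝ := (C + 1) * L with hB
  have hB1 : 1 ≤ B := by
    rw [hB]
    nlinarith
  have hCB : C * Real.log Q ≤ B := by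
    rw [hB]
    nlinarith
  have hmem : ∀ s : ℂ, 1 - η ≤ s.re → s.re ≤ 2 → |s.im| ≤ T →
      s + t * Complex.I ∈ Rg c' Q := by
    intro s h1 h2 h3
    refine ⟨?_, ?_, ?_⟩
    · simpa using h1
    · simpa using h2
    · have : (s + t * Complex.I).im = s.im + t := by simp
      rw [this]
      refine (abs_add_le _ _).trans ?_
      linarith
  have hf1 : AnalyticOnNhd ℂ (fun s => g (s + t * Complex.I))
      {s | 1 - η ≤ s.re ∧ s.re ≤ 2 ∧ |s.im| ≤ T} := by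
    intro s hs
    have h1 := hg1 _ (hmem s hs.1 hs.2.1 hs.2.2)
    exact AnalyticAt.fun_comp h1 (by fun_prop)
  have hces : ∀ u : ℝ, u₀ ≤ u → u ≤ 2 * (X : ℝ) →
      ‖∑ n ∈ Icc 1 ⌊u⌋₊, msA p t n * (1 - n / u)‖ ≤ κ * u := by
    intro u hu1 hu2
    have hu0 : 0 < u := by linarith
    have h1 := hper (msA p t) (fun s => g (s + t * Complex.I)) 0 η T B u (by simp) hη0 hη1 hT1
      (by linarith) hB1 (fun n hn => by
        have h2 := ms_norm_A p t n hn
        have h3 : 0 ≤ Real.log n := Real.log_natCast_nonneg n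
        linarith) hf1
      (fun s h1 h2 h3 => (hg3 _ (hmem s h1 h2 h3)).trans hCB)
      (fun s hs => by
        rw [ms_LSeries]
        have : (1 : ℝ) < (s + t * Complex.I).re := by simpa using hs
        rw [← hg2 _ this]
        simp)
    rw [zero_mul, sub_zero] at h1
    refine h1.trans ?_
    -- first term
    have hlogu : L / 5 ≤ Real.log u := by
      have : Real.log u₀ = L / 5 := by
        rw [hu₀, Real.log_rpow hX0]
        ring
      rw [← this]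
      exact Real.log_le_log (by linarith) hu1
    have hlogu2 : 1 + Real.log u ≤ 2 * L := by
      have h2 : Real.log u ≤ Real.log (2 * X) := Real.log_le_log hu0 hu2
      rw [Real.log_mul (by norm_num) hX0.ne', ← hL] at h2
      have : Real.log 2 ≤ 1 := by
        have := Real.log_two_lt_d9
        linarith
      linarith
    have hlogu0 : 0 ≤ Real.log u := by
      refine le_trans (by positivity) hlogu
    have t1 : P * (B * u ^ (1 - η)) ≤ κ / 3 * u := by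
      have h2 : u ^ (1 - η) ≤ u * Real.exp (-(c' / 5 * (L / Real.log Q))) := by
        rw [Real.rpow_sub hu0, Real.rpow_one, div_eq_mul_inv, ← Real.rpow_neg hu0.le]
        refine mul_le_mul_of_nonneg_left ?_ hu0.le
        rw [Real.rpow_def_of_pos hu0]
        refine Real.exp_le_exp.2 ?_
        have h3 : L / 5 * η ≤ Real.log u * η := mul_le_mul_of_nonneg_right hlogu hη0.le
        have h4 : c' / 5 * (L / Real.log Q) = L / 5 * η := by
          rw [hη]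
          ring
        rw [h4]
        linarith
      have h3 := hK₂ Q X r2
      have h4 : L ^ (2 * A₀ + 11) = L / κ := by
        rw [hκ, Real.rpow_neg hL0.le, div_inv_eq_mul, show 2 * A₀ + 11 = 1 + (2 * A₀ + 10) by ring,
          Real.rpow_add hL0, Real.rpow_one]
      rw [← hL, h4] at h3
      have h5 : 3 * P * (C + 1) * L * Real.exp (-(c' / 5 * (L / Real.log Q))) ≤ κ := by
        have h6 : 3 * P * (C + 1) * (L / κ) * Real.exp (-(c' / 5 * (L / Real.log Q))) =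
          (3 * P * (C + 1) * L * Real.exp (-(c' / 5 * (L / Real.log Q)))) / κ := by ring
        rw [h6, div_le_one hκ0] at h3
        exact h3
      calc P * (B * u ^ (1 - η)) ≤ P * (B * (u * Real.exp (-(c' / 5 * (L / Real.log Q))))) := by
            gcongr
        _ = (3 * P * (C + 1) * L * Real.exp (-(c' / 5 * (L / Real.log Q)))) / 3 * u := by
            rw [hB]; ring
        _ ≤ κ / 3 * u := by gcongr
    have t2 : P * (B * u / T ^ 2) ≤ κ / 3 * u := by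
      have h3 := hK₃ Q X r3
      have h4 : L ^ (2 * A₀ + 11) = L / κ := by
        rw [hκ, Real.rpow_neg hL0.le, div_inv_eq_mul, show 2 * A₀ + 11 = 1 + (2 * A₀ + 10) by ring,
          Real.rpow_add hL0, Real.rpow_one]
      have h5 : (Q : ℝ) ^ (22 : ℝ) = T ^ 2 := by
        rw [hT, ← pow_mul, ← Real.rpow_natCast]
        norm_num
      rw [← hL, h4, h5] at h3
      have h6 : 3 * P * (C + 1) * L / T ^ 2 ≤ κ := by
        rw [div_le_iff₀ (by positivity)]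
        have h7 : 3 * P * (C + 1) * (L / κ) = (3 * P * (C + 1) * L) / κ := by ring
        rw [h7, div_le_iff₀ hκ0] at h3
        linarith
      calc P * (B * u / T ^ 2) = (3 * P * (C + 1) * L / T ^ 2) / 3 * u := by rw [hB]; ring
        _ ≤ κ / 3 * u := by gcongr
    have t3 : P * (u * (1 + Real.log u) ^ 2 / T) ≤ κ / 3 * u := by
      have h3 := hK₄ Q X r4
      have h4 : L ^ (2 * A₀ + 12) = L ^ 2 / κ := by
        rw [hκ, Real.rpow_neg hL0.le, div_inv_eq_mul, show 2 * A₀ + 12 = 2 + (2 * A₀ + 10) by ring,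
          Real.rpow_add hL0, Real.rpow_two]
      have h5 : (Q : ℝ) ^ (11 : ℝ) = T := by
        rw [hT, ← Real.rpow_natCast]
        norm_num
      rw [← hL, h4, h5] at h3
      have h6 : 12 * P * L ^ 2 / T ≤ κ := by
        rw [div_le_iff₀ hT0]
        have h7 : 12 * P * (L ^ 2 / κ) = (12 * P * L ^ 2) / κ := by ring
        rw [h7, div_le_iff₀ hκ0] at h3
        linarith
      have h8 : (1 + Real.log u) ^ 2 ≤ (2 * L) ^ 2 :=
        pow_le_pow_left₀ (by linarith) hlogu2 2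
      calc P * (u * (1 + Real.log u) ^ 2 / T) ≤ P * (u * (2 * L) ^ 2 / T) := by gcongr
        _ = (12 * P * L ^ 2 / T) / 3 * u := by ring
        _ ≤ κ / 3 * u := by gcongr
    rw [mul_add, mul_add]
    linarith
  have huns := unsmooth (msA p t) κ u₀ X hκ0 hκ1 (by linarith) hκu
    (fun n hn => by
        have h2 := ms_norm_A p t n hn
        have h3 : 0 ≤ Real.log n := Real.log_natCast_nonneg n
        linarith) hces
  -- partial summation
  have hsq : Real.sqrt κ = L ^ (-(A₀ + 5)) := by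
    rw [hκ, Real.sqrt_eq_rpow, ← Real.rpow_mul hL0.le]
    congr 1
    ring
  set δ : ℝ := 40 * L ^ (-(A₀ + 4)) with hδ
  have hδ0 : 0 ≤ δ := by positivity
  have hAA1 : y ^ 5 ≤ (AA X : ℝ) := by
    rw [← hy5]
    exact Nat.le_ceil _
  have hAA2 : 1 ≤ AA X := by
    have h1 : (1 : ℝ) ≤ AA X := by
      refine le_trans ?_ hAA1
      exact one_le_pow₀ (by linarith)
    exact_mod_cast h1
  have hVV : (VV X : ℝ) ≤ X := by
    unfold VV
    have h1 : (((60 * X : ℕ) : ℝ) ^ ((1 : ℝ) / 3)) ≤ X := by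
      have h2 : ((60 * X : ℕ) : ℝ) ≤ (X : ℝ) ^ (3 : ℝ) := by
        push_cast
        rw [show (3 : ℝ) = ((3 : ℕ) : ℝ) by norm_num, Real.rpow_natCast]
        nlinarith [mul_pos hX0 hX0]
      calc (((60 * X : ℕ) : ℝ) ^ ((1 : ℝ) / 3)) ≤ ((X : ℝ) ^ (3 : ℝ)) ^ ((1 : ℝ) / 3) :=
            Real.rpow_le_rpow (by positivity) h2 (by norm_num)
        _ = X := by
            rw [← Real.rpow_mul hX0.le]
            norm_num
    exact (Nat.floor_le (by positivity)).trans h1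
  have hVV1 : 1 ≤ VV X := by
    unfold VV
    refine Nat.le_floor ?_
    push_cast
    refine Real.one_le_rpow ?_ (by norm_num)
    linarith
  obtain ⟨M, hM⟩ : ∃ M, AA X = M + 1 := ⟨AA X - 1, by omega⟩
  have hMu₀ : u₀ ≤ (M : ℝ) := by
    have h1 : (AA X : ℝ) = M + 1 := by rw [hM]; push_cast; ring
    rw [h1] at hAA1
    rw [hy4]
    have h2 : y ^ 5 = y ^ 4 * y := by ring
    have h3 : 1 ≤ y ^ 4 := one_le_pow₀ (by linarith)
    nlinarith
  rw [ms_Mu X p t hAA2, hM]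
  have hab := ms_abel (msA p t) δ hδ0 M (VV X) hVV1 (fun n h1 h2 => by
    have hn1 : u₀ ≤ (n : ℝ) := hMu₀.trans (by exact_mod_cast h1)
    have hn2 : (n : ℝ) ≤ X := le_trans (by exact_mod_cast h2) hVV
    have hn0 : (0 : ℝ) < n := by linarith
    have h3 := huns n hn1 hn2
    rw [Nat.floor_natCast, hsq] at h3
    refine h3.trans ?_
    have h4 : 1 + Real.log n ≤ 2 * L := by
      have : Real.log n ≤ L := Real.log_le_log hn0 hn2
      linarith
    have h5 : L ^ (-(A₀ + 5)) * L = L ^ (-(A₀ + 4)) := by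
      rw [show -(A₀ + 4) = -(A₀ + 5) + 1 by ring, Real.rpow_add hL0, Real.rpow_one]
    calc 20 * L ^ (-(A₀ + 5)) * n * (1 + Real.log n)
        ≤ 20 * L ^ (-(A₀ + 5)) * n * (2 * L) := by gcongr
      _ = 40 * (L ^ (-(A₀ + 5)) * L) * n := by ring
      _ = δ * n := by rw [h5, hδ])
  refine hab.trans ?_
  have hlV : Real.log (VV X) ≤ L := by
    refine Real.log_le_log (by exact_mod_cast hVV1) hVV
  have h6 : L ^ (-(A₀ + 4)) * L ^ 4 = L ^ (-A₀) := by
    rw [← Real.rpow_natCast L 4, ← Real.rpow_add hL0]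
    congr 1
    push_cast
    ring
  have h7 : L ^ (-A₀) ≤ L ^ (-A) := Real.rpow_le_rpow_of_exponent_le hL1 (by linarith)
  refine le_trans ?_ h7
  calc δ * (3 + Real.log (VV X)) ≤ δ * (2 * L) := by gcongr; linarith
    _ = L ^ (-(A₀ + 4)) * (80 * L) := by rw [hδ]; ring
    _ ≤ L ^ (-(A₀ + 4)) * L ^ 4 := by
        refine mul_le_mul_of_nonneg_left ?_ (by positivity)
        have h8 : (80 : ℝ) ≤ L ^ 3 := by
          have := pow_le_pow_left₀ (by norm_num) hLbig 3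
          linarith
        calc 80 * L ≤ L ^ 3 * L := mul_le_mul_of_nonneg_right h8 hL0.le
          _ = L ^ 4 := by ring
    _ = L ^ (-A₀) := h6

end Pool.Agent.Lib.H68T
end
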