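import Pool.Agent.Lib.H59M.M1.M011
import Pool.Agent.Lib.H59M.M1.M013
import Pool.Agent.Lib.H59M.M1.M016
import Pool.Agent.Lib.H59M.M1.M017
import Pool.Agent.Lib.H59M.M1.M018
import Pool.Agent.Lib.H59M.M1.M025

/-! Merged copies (to shorten the build) of Lib.H68T.PNTE, Lib.H68X.XEX. -/

-- from Lib.H68T.PNTE
section

/-!
# Chunk PNTE: prime number theorem with error term, and small frequencies of the trivial character
-/

open Finset

namespace Pool.Agent.Lib.H68T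

/-- the Cesàro sum of `1` -/
theorem PNTE_ces (u : ℝ) (hu : 1 ≤ u) :
    ‖∑ n ∈ Icc 1 ⌊u⌋₊, (1 : ℂ) * (1 - n / u) - 1 * (u / 2 - 1 + 1 / (2 * u))‖ ≤ 3 := by
  set N : ℕ := ⌊u⌋₊ with hN
  have hu0 : 0 < u := by linarith
  have h1 : (N : ℝ) ≤ u := Nat.floor_le hu0.le
  have h2 : u < (N : ℝ) + 1 := Nat.lt_floor_add_one u
  have hN0 : (0 : ℝ) ≤ N := Nat.cast_nonneg N
  have hsum : ∑ n ∈ Icc 1 N, (n : ℝ) = N * (N + 1) / 2 := by
    clear_value N
    clear h1 h2 hN0 hN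
    induction N with
    | zero => simp
    | succ N ih =>
      rw [Finset.sum_Icc_succ_top (by omega), ih]
      push_cast
      ring
  have hreal : ∑ n ∈ Icc 1 N, (1 - (n : ℝ) / u) = N - N * (N + 1) / 2 / u := by
    rw [Finset.sum_sub_distrib, ← Finset.sum_div, hsum]
    simp
  have hcast : (∑ n ∈ Icc 1 N, (1 : ℂ) * (1 - n / u) - 1 * (u / 2 - 1 + 1 / (2 * u)) : ℂ) =
      ((N - N * (N + 1) / 2 / u - (u / 2 - 1 + 1 / (2 * u)) : ℝ) : ℂ) := by
    rw [← hreal]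
    push_cast
    simp
  rw [hcast, Complex.norm_real, Real.norm_eq_abs]
  have h3 : (N : ℝ) - N * (N + 1) / 2 / u - (u / 2 - 1 + 1 / (2 * u)) =
      1 - ((u - N) ^ 2 + N + 1) / (2 * u) := by
    field_simp
    ring
  rw [h3]
  have h4 : 0 ≤ ((u - N) ^ 2 + N + 1) / (2 * u) := by positivity
  have h5 : ((u - N) ^ 2 + N + 1) / (2 * u) ≤ 3 / 2 := by
    rw [div_le_iff₀ (by positivity)]
    nlinarith
  rw [abs_le]
  constructor <;> linarith

/-- `|∑_{m ≤ u} (Λ(m) - 1)| ≤ u (log X)^(-A)` for `X/8 ≤ u ≤ 60 X`: as in `Mu_small`, with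
`perron` for `a_n = Λ(n)`, `κ = 1`, `zeta_all`, `T = Q^12`; since
`∑_{n ≤ u} (1 - n/u) = u/2 + O(1)`, this gives `|∑_{n ≤ u} (Λ(n) - 1)(1 - n/u)| ≤ κ' u`; then
`unsmooth` for `a_n = Λ(n) - 1`. (`zeta_all` needs only `K ≤ Q`.) -/
theorem pnt_error (A : ℝ) : ∃ K : ℝ, ∀ Q X : ℕ, Reg K Q X → ∀ u : ℝ, (X : ℝ) / 8 ≤ u →
    u ≤ 60 * X → |∑ m ∈ Icc 1 ⌊u⌋₊, (ArithmeticFunction.vonMangoldt m - 1)| ≤
      u * (Real.log X) ^ (-A) := by
  set A₀ : ℝ := |A| with hA₀
  have hA₀0 : 0 ≤ A₀ := abs_nonneg _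
  have hAA₀ : A ≤ A₀ := le_abs_self _
  obtain ⟨c', C, K₁, hc', hC, hinv⟩ := zeta_all
  obtain ⟨P, hP, hper⟩ := perron
  obtain ⟨K₂, hK₂1, hK₂⟩ := reg_exp_le (4 * P * (C + 1)) (2 * A₀ + 11) (c' / 5) (by positivity)
  obtain ⟨K₃, hK₃1, hK₃⟩ := reg_log_le (4 * P * (C + 1)) (2 * A₀ + 11) 22 (by norm_num)
  obtain ⟨K₄, hK₄1, hK₄⟩ := reg_log_le (16 * P) (2 * A₀ + 12) 11 (by norm_num)
  obtain ⟨K₅, hK₅1, hK₅⟩ := reg_log_le 12 (2 * A₀ + 10) 1 (by norm_num)
  obtain ⟨K₆, hK₆1, hK₆⟩ := reg_pow_le 1 1 (1 / 5) (by norm_num)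
  obtain ⟨K₇, hK₇1, hK₇⟩ := reg_pow_le 2 0 (1 / 20) (by norm_num)
  refine ⟨|K₁| + K₂ + K₃ + K₄ + K₅ + K₆ + K₇ + 2 * c' + 10, ?_⟩
  intro Q X hreg
  have a1 : 0 ≤ |K₁| := abs_nonneg _
  have b1 : K₁ ≤ |K₁| := le_abs_self _
  have hKpos : 0 ≤ |K₁| + K₂ + K₃ + K₄ + K₅ + K₆ + K₇ + 2 * c' + 10 := by linarith
  have r1 : Reg (|K₁| + 2 * c' + 10) Q X := hreg.mono hKpos (by linarith)
  have r2 : Reg K₂ Q X := hreg.mono hKpos (by linarith)
  have r3 : Reg K₃ Q X := hreg.mono hKpos (by linarith)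
  have r4 : Reg K₄ Q X := hreg.mono hKpos (by linarith)
  have r5 : Reg K₅ Q X := hreg.mono hKpos (by linarith)
  have r6 : Reg K₆ Q X := hreg.mono hKpos (by linarith)
  have r7 : Reg K₇ Q X := hreg.mono hKpos (by linarith)
  set L : ℝ := Real.log X with hL
  have hLbig : 10 ≤ L := by
    have h1 := r1.logX_ge (by linarith)
    have := Real.add_one_le_exp (|K₁| + 2 * c' + 10)
    linarith
  have hL0 : 0 < L := by linarith
  have hL1 : 1 ≤ L := by linarith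
  have hQbig : |K₁| + 2 * c' + 10 ≤ Q := r1.Q_ge (by linarith)
  have hQ10 : (10 : ℝ) ≤ Q := by linarith
  have hQ0 : (0 : ℝ) < Q := by linarith
  have hQK : K₁ ≤ Q := by linarith
  have hlQbig : |K₁| + 2 * c' + 10 ≤ Real.log Q := r1.logQ_ge (by linarith)
  have hlQ0 : 0 < Real.log Q := by linarith
  have hlQL : Real.log Q ≤ L := by
    have h1 := r1.logQ_le (by linarith)
    have h2 : 1 * Real.log Q ≤ (|K₁| + 2 * c' + 10) * Real.log Q :=
      mul_le_mul_of_nonneg_right (by linarith) hlQ0.le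
    linarith
  have hX1 : 1 ≤ X := r1.X_pos (by linarith)
  have hX0 : (0 : ℝ) < X := by exact_mod_cast hX1
  have hX10 : (10 : ℝ) ≤ X := by
    have := r1.X_ge (by linarith)
    linarith
  -- the numbers
  set κ : ℝ := L ^ (-(2 * A₀ + 10)) with hκ
  have hκ0 : 0 < κ := Real.rpow_pos_of_pos hL0 _
  have hκ1 : κ ≤ 1 := Real.rpow_le_one_of_one_le_of_nonpos hL1 (by linarith)
  have hy : (2 : ℝ) ≤ (X : ℝ) ^ ((1 : ℝ) / 20) := by
    have := hK₇ Q X r7
    simpa using this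
  set y : ℝ := (X : ℝ) ^ ((1 : ℝ) / 20) with hydef
  have hy4 : (X : ℝ) ^ ((1 : ℝ) / 5) = y ^ 4 := by
    rw [hydef, ← Real.rpow_natCast, ← Real.rpow_mul hX0.le]
    norm_num
  have hy20 : (X : ℝ) = y ^ 20 := by
    rw [hydef, ← Real.rpow_natCast, ← Real.rpow_mul hX0.le]
    norm_num
  set u₀ : ℝ := (X : ℝ) ^ ((1 : ℝ) / 5) with hu₀
  have hu₀16 : (16 : ℝ) ≤ u₀ := by
    rw [hy4]
    have := pow_le_pow_left₀ (by norm_num) hy 4
    linarith
  have hu₀X : u₀ ≤ X / 8 := by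
    rw [hy4, hy20]
    have h1 : (2 : ℝ) ^ 16 ≤ y ^ 16 := pow_le_pow_left₀ (by norm_num) hy 16
    have h2 : y ^ 20 = y ^ 4 * y ^ 16 := by ring
    have h3 : 0 < y ^ 4 := by positivity
    rw [le_div_iff₀ (by norm_num), h2]
    exact mul_le_mul_of_nonneg_left (by linarith) h3.le
  have hκu12 : 12 ≤ κ * u₀ := by
    have h1 : 12 * L ^ (2 * A₀ + 10) ≤ Q := by
      have := hK₅ Q X r5
      rwa [Real.rpow_one] at this
    have h2 : (Q : ℝ) ≤ u₀ := by
      have := hK₆ Q X r6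
      rw [one_mul, Real.rpow_one] at this
      exact this
    rw [hκ, Real.rpow_neg hL0.le, ← div_eq_inv_mul, le_div_iff₀ (Real.rpow_pos_of_pos hL0 _)]
    linarith
  have hκu : 1 ≤ κ * u₀ := by linarith
  -- the analytic input
  obtain ⟨g, hg1, hg2, hg3⟩ := hinv Q hQK
  set η : ℝ := c' / Real.log Q with hη
  have hη0 : 0 < η := by positivity
  have hη1 : η ≤ 1 / 2 := by
    rw [hη, div_le_iff₀ hlQ0]
    linarith
  set T : ℝ := (Q : ℝ) ^ 11 with hT
  have hT1 : 1 ≤ T := one_le_pow₀ (by linarith)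
  have hT0 : 0 < T := by linarith
  have hT2 : T ≤ (Q : ℝ) ^ 12 := by
    have : (Q : ℝ) ^ 12 = T * Q := by rw [hT]; ring
    rw [this]
    nlinarith
  set B : ℝ := (C + 1) * L with hB
  have hB1 : 1 ≤ B := by
    rw [hB]
    nlinarith
  have hCB : C * Real.log Q ≤ B := by
    rw [hB]
    nlinarith
  have hmem : ∀ s : ℂ, 1 - η ≤ s.re → s.re ≤ 2 → |s.im| ≤ T → s ∈ Rg c' Q := by
    intro s h1 h2 h3
    exact ⟨h1, h2, h3.trans hT2⟩
  have hf1 : AnalyticOnNhd ℂ g {s | 1 - η ≤ s.re ∧ s.re ≤ 2 ∧ |s.im| ≤ T} := by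
    intro s hs
    exact hg1 _ (hmem s hs.1 hs.2.1 hs.2.2)
  have hLam : ∀ n : ℕ, 1 ≤ n → 0 ≤ ArithmeticFunction.vonMangoldt n ∧
      ArithmeticFunction.vonMangoldt n ≤ Real.log n := fun n _ =>
    ⟨ArithmeticFunction.vonMangoldt_nonneg, ArithmeticFunction.vonMangoldt_le_log⟩
  have hces : ∀ u : ℝ, u₀ ≤ u → u ≤ 2 * (60 * (X : ℝ)) →
      ‖∑ n ∈ Icc 1 ⌊u⌋₊, ((ArithmeticFunction.vonMangoldt n - 1 : ℝ) : ℂ) * (1 - n / u)‖ ≤
        κ * u := by
    intro u hu1 hu2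
    have hu0 : 0 < u := by linarith
    have h1 := hper (fun n => (ArithmeticFunction.vonMangoldt n : ℂ)) g 1 η T B u (by simp) hη0 hη1
      hT1 (by linarith) hB1 (fun n hn => by
        obtain ⟨h2, h3⟩ := hLam n hn
        rw [Complex.norm_real, Real.norm_of_nonneg h2]
        linarith) hf1
      (fun s h1 h2 h3 => (hg3 _ (hmem s h1 h2 h3)).trans hCB)
      (fun s hs => hg2 s hs)
    have hone := PNTE_ces u (by linarith)
    have hsplit : (∑ n ∈ Icc 1 ⌊u⌋₊, ((ArithmeticFunction.vonMangoldt n - 1 : ℝ) : ℂ) *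
        (1 - n / u)) =
        (∑ n ∈ Icc 1 ⌊u⌋₊, (ArithmeticFunction.vonMangoldt n : ℂ) * (1 - n / u) -
          1 * (u / 2 - 1 + 1 / (2 * u))) -
        (∑ n ∈ Icc 1 ⌊u⌋₊, (1 : ℂ) * (1 - n / u) - 1 * (u / 2 - 1 + 1 / (2 * u))) := by
      rw [sub_sub_sub_cancel_right, ← Finset.sum_sub_distrib]
      refine Finset.sum_congr rfl fun n _ => ?_
      push_cast
      ring
    rw [hsplit]
    refine (norm_sub_le _ _).trans ?_
    refine (add_le_add h1 hone).trans ?_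
    -- first term
    have hlogu : L / 5 ≤ Real.log u := by
      have : Real.log u₀ = L / 5 := by
        rw [hu₀, Real.log_rpow hX0]
        ring
      rw [← this]
      exact Real.log_le_log (by linarith) hu1
    have hlogu2 : 1 + Real.log u ≤ 2 * L := by
      have h2 : Real.log u ≤ Real.log (120 * X) := Real.log_le_log hu0 (by linarith)
      rw [Real.log_mul (by norm_num) hX0.ne', ← hL] at h2
      have h3 : Real.log 120 ≤ 7 := by
        have e1 : Real.log 120 ≤ Real.log (2 ^ 7) := Real.log_le_log (by norm_num) (by norm_num)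
        rw [Real.log_pow] at e1
        have := Real.log_two_lt_d9
        push_cast at e1
        linarith
      linarith
    have hlogu0 : 0 ≤ Real.log u := by
      refine le_trans (by positivity) hlogu
    have t1 : P * (B * u ^ (1 - η)) ≤ κ / 4 * u := by
      have h2 : u ^ (1 - η) ≤ u * Real.exp (-(c' / 5 * (L / Real.log Q))) := by
        rw [Real.rpow_sub hu0, Real.rpow_one, div_eq_mul_inv, ← Real.rpow_neg hu0.le]
        refine mul_le_mul_of_nonneg_left ?_ hu0.le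
        rw [Real.rpow_def_of_pos hu0]
        refine Real.exp_le_exp.2 ?_
        have h3 : L / 5 * η ≤ Real.log u * η := mul_le_mul_of_nonneg_right hlogu hη0.le
        have h4 : c' / 5 * (L / Real.log Q) = L / 5 * η := by
          rw [hη]
          ring
        rw [h4]
        linarith
      have h3 := hK₂ Q X r2
      have h4 : L ^ (2 * A₀ + 11) = L / κ := by
        rw [hκ, Real.rpow_neg hL0.le, div_inv_eq_mul, show 2 * A₀ + 11 = 1 + (2 * A₀ + 10) by ring,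
          Real.rpow_add hL0, Real.rpow_one]
      rw [← hL, h4] at h3
      have h5 : 4 * P * (C + 1) * L * Real.exp (-(c' / 5 * (L / Real.log Q))) ≤ κ := by
        have h6 : 4 * P * (C + 1) * (L / κ) * Real.exp (-(c' / 5 * (L / Real.log Q))) =
          (4 * P * (C + 1) * L * Real.exp (-(c' / 5 * (L / Real.log Q)))) / κ := by ring
        rw [h6, div_le_one hκ0] at h3
        exact h3
      calc P * (B * u ^ (1 - η)) ≤ P * (B * (u * Real.exp (-(c' / 5 * (L / Real.log Q))))) := by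
            gcongr
        _ = (4 * P * (C + 1) * L * Real.exp (-(c' / 5 * (L / Real.log Q)))) / 4 * u := by
            rw [hB]; ring
        _ ≤ κ / 4 * u := by gcongr
    have t2 : P * (B * u / T ^ 2) ≤ κ / 4 * u := by
      have h3 := hK₃ Q X r3
      have h4 : L ^ (2 * A₀ + 11) = L / κ := by
        rw [hκ, Real.rpow_neg hL0.le, div_inv_eq_mul, show 2 * A₀ + 11 = 1 + (2 * A₀ + 10) by ring,
          Real.rpow_add hL0, Real.rpow_one]
      have h5 : (Q : ℝ) ^ (22 : ℝ) = T ^ 2 := by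
        rw [hT, ← pow_mul, ← Real.rpow_natCast]
        norm_num
      rw [← hL, h4, h5] at h3
      have h6 : 4 * P * (C + 1) * L / T ^ 2 ≤ κ := by
        rw [div_le_iff₀ (by positivity)]
        have h7 : 4 * P * (C + 1) * (L / κ) = (4 * P * (C + 1) * L) / κ := by ring
        rw [h7, div_le_iff₀ hκ0] at h3
        linarith
      calc P * (B * u / T ^ 2) = (4 * P * (C + 1) * L / T ^ 2) / 4 * u := by rw [hB]; ring
        _ ≤ κ / 4 * u := by gcongr
    have t3 : P * (u * (1 + Real.log u) ^ 2 / T) ≤ κ / 4 * u := by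
      have h3 := hK₄ Q X r4
      have h4 : L ^ (2 * A₀ + 12) = L ^ 2 / κ := by
        rw [hκ, Real.rpow_neg hL0.le, div_inv_eq_mul, show 2 * A₀ + 12 = 2 + (2 * A₀ + 10) by ring,
          Real.rpow_add hL0, Real.rpow_two]
      have h5 : (Q : ℝ) ^ (11 : ℝ) = T := by
        rw [hT, ← Real.rpow_natCast]
        norm_num
      rw [← hL, h4, h5] at h3
      have h6 : 16 * P * L ^ 2 / T ≤ κ := by
        rw [div_le_iff₀ hT0]
        have h7 : 16 * P * (L ^ 2 / κ) = (16 * P * L ^ 2) / κ := by ring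
        rw [h7, div_le_iff₀ hκ0] at h3
        linarith
      have h8 : (1 + Real.log u) ^ 2 ≤ (2 * L) ^ 2 :=
        pow_le_pow_left₀ (by linarith) hlogu2 2
      calc P * (u * (1 + Real.log u) ^ 2 / T) ≤ P * (u * (2 * L) ^ 2 / T) := by gcongr
        _ = (16 * P * L ^ 2 / T) / 4 * u := by ring
        _ ≤ κ / 4 * u := by gcongr
    have t4 : 3 ≤ κ / 4 * u := by
      have h3 : κ * u₀ ≤ κ * u := mul_le_mul_of_nonneg_left hu1 hκ0.le
      linarith
    rw [mul_add, mul_add]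
    linarith
  have huns := unsmooth (fun n => ((ArithmeticFunction.vonMangoldt n - 1 : ℝ) : ℂ)) κ u₀ (60 * X)
    hκ0 hκ1 (by linarith) hκu
    (fun n hn => by
        obtain ⟨h2, h3⟩ := hLam n hn
        rw [Complex.norm_real, Real.norm_eq_abs, abs_le]
        constructor <;> linarith) hces
  have hsq : Real.sqrt κ = L ^ (-(A₀ + 5)) := by
    rw [hκ, Real.sqrt_eq_rpow, ← Real.rpow_mul hL0.le]
    congr 1
    ring
  intro u hu1 hu2
  have hu0 : 0 < u := by linarith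
  have h1 := huns u (by linarith) hu2
  have h2 : (∑ n ∈ Icc 1 ⌊u⌋₊, ((ArithmeticFunction.vonMangoldt n - 1 : ℝ) : ℂ)) =
      ((∑ n ∈ Icc 1 ⌊u⌋₊, (ArithmeticFunction.vonMangoldt n - 1) : ℝ) : ℂ) := by
    push_cast
    rfl
  rw [h2, Complex.norm_real, Real.norm_eq_abs, hsq] at h1
  refine h1.trans ?_
  have hlogu2 : 1 + Real.log u ≤ 2 * L := by
    have h2 : Real.log u ≤ Real.log (60 * X) := Real.log_le_log hu0 (by linarith)
    rw [Real.log_mul (by norm_num) hX0.ne', ← hL] at h2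
    have h3 : Real.log 60 ≤ 7 := by
      have e1 : Real.log 60 ≤ Real.log (2 ^ 7) := Real.log_le_log (by norm_num) (by norm_num)
      rw [Real.log_pow] at e1
      have := Real.log_two_lt_d9
      push_cast at e1
      linarith
    linarith
  have h5 : L ^ (-(A₀ + 5)) * L = L ^ (-(A₀ + 4)) := by
    rw [show -(A₀ + 4) = -(A₀ + 5) + 1 by ring, Real.rpow_add hL0, Real.rpow_one]
  have h6 : L ^ (-(A₀ + 4)) * L ^ 4 = L ^ (-A₀) := by
    rw [← Real.rpow_natCast L 4, ← Real.rpow_add hL0]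
    congr 1
    push_cast
    ring
  have h7 : L ^ (-A₀) ≤ L ^ (-A) := Real.rpow_le_rpow_of_exponent_le hL1 (by linarith)
  calc 20 * L ^ (-(A₀ + 5)) * u * (1 + Real.log u) ≤ 20 * L ^ (-(A₀ + 5)) * u * (2 * L) := by
        gcongr
    _ = u * (L ^ (-(A₀ + 4)) * 40) := by rw [← h5]; ring
    _ ≤ u * (L ^ (-(A₀ + 4)) * L ^ 4) := by
        refine mul_le_mul_of_nonneg_left ?_ hu0.le
        refine mul_le_mul_of_nonneg_left ?_ (by positivity)
        have := pow_le_pow_left₀ (by norm_num) hLbig 4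
        linarith
    _ = u * L ^ (-A₀) := by rw [h6]
    _ ≤ u * L ^ (-A) := mul_le_mul_of_nonneg_left h7 hu0.le

/-! ### Partial summation -/

theorem PNTE_abel (b φ : ℕ → ℂ) (N : ℕ) :
    ∑ m ∈ Icc 1 N, b m * φ m = (∑ k ∈ Icc 1 N, b k) * φ (N + 1) +
      ∑ m ∈ Icc 1 N, (∑ k ∈ Icc 1 m, b k) * (φ m - φ (m + 1)) := by
  induction N with
  | zero => simp
  | succ N ih =>
    rw [Finset.sum_Icc_succ_top (show 1 ≤ N + 1 by omega), ih,
      Finset.sum_Icc_succ_top (show 1 ≤ N + 1 by omega) (fun m =>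
        (∑ k ∈ Icc 1 m, b k) * (φ m - φ (m + 1))),
      Finset.sum_Icc_succ_top (show 1 ≤ N + 1 by omega) b]
    ring

theorem PNTE_w_lip : ∃ D : ℝ, 0 ≤ D ∧ ∀ x y : ℝ, |w x - w y| ≤ D * |x - y| := by
  have hc : HasCompactSupport w := by
    refine HasCompactSupport.of_support_subset_isCompact (isCompact_Icc (a := (-2 : ℝ)) (b := 4)) ?_
    intro y hy
    rw [Function.mem_support] at hy
    by_contra hcon
    apply hy
    rw [Set.mem_Icc, not_and_or, not_le, not_le] at hcon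
    exact MAINI_w_zero (hcon.imp le_of_lt le_of_lt)
  have hs : ContDiff ℝ 1 w := by
    unfold w
    refine ContDiff.mul ?_ ?_
    · exact Real.smoothTransition.contDiff.comp (by fun_prop)
    · exact Real.smoothTransition.contDiff.comp (by fun_prop)
  obtain ⟨D, hD⟩ := ContDiff.lipschitzWith_of_hasCompactSupport hc hs one_ne_zero
  refine ⟨D, D.2, fun x y => ?_⟩
  have := hD.dist_le_mul x y
  rwa [Real.dist_eq, Real.dist_eq] at this

theorem PNTE_w_bd (y : ℝ) : |w y| ≤ 1 := by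
  unfold w
  have h1 := Real.smoothTransition.le_one (y + 2)
  have h2 := Real.smoothTransition.nonneg (y + 2)
  have h3 := Real.smoothTransition.le_one (4 - y)
  have h4 := Real.smoothTransition.nonneg (4 - y)
  rw [abs_of_nonneg (mul_nonneg h2 h4)]
  nlinarith

theorem PNTE_v_zero {X m : ℕ} (hX : (1000 : ℝ) ≤ X) (hm1 : 1 ≤ m) (hm : (m : ℝ) ≤ X / 8 + 1) :
    v X m = 0 := by
  have hX0 : (0 : ℝ) < X := by linarith
  unfold v
  have hm0 : (0 : ℝ) < m := by exact_mod_cast hm1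
  apply MAINI_w_zero
  left
  rw [Real.log_le_iff_le_exp (by positivity), div_le_iff₀ hX0]
  have h3 := Real.exp_one_lt_d9
  have h4 : Real.exp (-2) * (Real.exp 1) ^ 2 = 1 := by
    rw [← Real.exp_nat_mul, ← Real.exp_add]
    norm_num
  have h5 : (Real.exp 1) ^ 2 ≤ (2.7182818286 : ℝ) ^ 2 :=
    pow_le_pow_left₀ (Real.exp_pos _).le h3.le 2
  have h6 : (2.7182818286 : ℝ) ^ 2 ≤ 7.4 := by norm_num
  have h7 : 0 < Real.exp (-2) := Real.exp_pos _
  have h8 : 1 / 7.4 ≤ Real.exp (-2) := by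
    rw [div_le_iff₀ (by norm_num)]
    nlinarith
  have h9 : 1 / 7.4 * (X : ℝ) ≤ Real.exp (-2) * X := mul_le_mul_of_nonneg_right h8 hX0.le
  refine le_trans ?_ h9
  linarith

/-- the weights of the partial summation -/
noncomputable def PNTE_phi (X : ℕ) (t : ℝ) (m : ℕ) : ℂ :=
  (v X m : ℂ) * (m : ℂ) ^ (-(1 + t * Complex.I))

theorem PNTE_phi_diff {D : ℝ} (hD0 : 0 ≤ D) (hD : ∀ x y : ℝ, |w x - w y| ≤ D * |x - y|) {X : ℕ}
    (hX : 1 ≤ X) (t : ℝ) (m : ℕ) (hm : 1 ≤ m) :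
    ‖PNTE_phi X t m - PNTE_phi X t (m + 1)‖ ≤ (D + 1) * (1 + |t|) * ((m : ℝ) ^ 2)⁻¹ := by
  have hX0 : (0 : ℝ) < X := by exact_mod_cast hX
  have hm0 : (0 : ℝ) < m := by exact_mod_cast hm
  have hm0' : (0 : ℝ) < ((m + 1 : ℕ) : ℝ) := by positivity
  set s : ℂ := 1 + t * Complex.I with hs
  have hsplit : PNTE_phi X t m - PNTE_phi X t (m + 1) =
      ((v X m - v X (m + 1) : ℝ) : ℂ) * (m : ℂ) ^ (-s) +
        (v X (m + 1) : ℂ) * ((m : ℂ) ^ (-s) - ((m + 1 : ℕ) : ℂ) ^ (-s)) := by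
    unfold PNTE_phi
    push_cast
    ring
  rw [hsplit]
  have e1 : |v X m - v X (m + 1)| ≤ D * (m : ℝ)⁻¹ := by
    unfold v
    refine (hD _ _).trans (mul_le_mul_of_nonneg_left ?_ hD0)
    rw [Real.log_div hm0.ne' hX0.ne', Real.log_div hm0'.ne' hX0.ne', abs_sub_comm]
    have h1 : Real.log ((m + 1 : ℕ) : ℝ) - Real.log X - (Real.log m - Real.log X) =
        Real.log (((m + 1 : ℕ) : ℝ) / m) := by
      rw [Real.log_div hm0'.ne' hm0.ne']
      ring
    rw [h1]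
    have h2 : ((m + 1 : ℕ) : ℝ) / m = 1 + (m : ℝ)⁻¹ := by
      push_cast
      field_simp
    rw [h2]
    have h3 : (0 : ℝ) < (m : ℝ)⁻¹ := by positivity
    have h4 := Real.log_le_sub_one_of_pos (x := 1 + (m : ℝ)⁻¹) (by positivity)
    have h5 := Real.log_nonneg (x := 1 + (m : ℝ)⁻¹) (by linarith)
    rw [abs_of_nonneg h5]
    linarith
  have e2 : ‖(m : ℂ) ^ (-s)‖ = (m : ℝ)⁻¹ := MAINI_norm_cpow hm t
  have e3 : |v X (m + 1)| ≤ 1 := PNTE_w_bd _
  have hsre : s.re = 1 := by simp [hs]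
  have hsn : ‖s‖ ≤ 1 + |t| := by
    rw [hs]
    refine (norm_add_le _ _).trans ?_
    simp
  have e4 : ‖(m : ℂ) ^ (-s) - ((m + 1 : ℕ) : ℂ) ^ (-s)‖ ≤ (1 + |t|) * ((m : ℝ) ^ 2)⁻¹ := by
    have h1 := gl1_diff' s (by rw [hsre]; norm_num) hm0 (b := ((m + 1 : ℕ) : ℝ)) (by push_cast; linarith)
    have h2 : ((m : ℝ) : ℂ) = (m : ℂ) := by simp
    have h3 : (((m + 1 : ℕ) : ℝ) : ℂ) = ((m + 1 : ℕ) : ℂ) := by simp
    rw [h2, h3, norm_sub_rev, hsre] at h1
    refine h1.trans ?_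
    have h4 : (m : ℝ) ^ (-(1 : ℝ) - 1) = ((m : ℝ) ^ 2)⁻¹ := by
      rw [show (-(1 : ℝ) - 1) = -((2 : ℕ) : ℝ) by norm_num, Real.rpow_neg hm0.le, Real.rpow_natCast]
    rw [h4]
    have h5 : ((m + 1 : ℕ) : ℝ) - m = 1 := by
      push_cast
      ring
    rw [h5, mul_one]
    exact mul_le_mul_of_nonneg_right hsn (by positivity)
  have hsq : (m : ℝ)⁻¹ * (m : ℝ)⁻¹ = ((m : ℝ) ^ 2)⁻¹ := by
    rw [sq, mul_inv]
  have hi : (0 : ℝ) ≤ ((m : ℝ) ^ 2)⁻¹ := by positivity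
  have ht : 0 ≤ |t| := abs_nonneg t
  calc ‖((v X m - v X (m + 1) : ℝ) : ℂ) * (m : ℂ) ^ (-s) +
        (v X (m + 1) : ℂ) * ((m : ℂ) ^ (-s) - ((m + 1 : ℕ) : ℂ) ^ (-s))‖
      ≤ ‖((v X m - v X (m + 1) : ℝ) : ℂ) * (m : ℂ) ^ (-s)‖ +
        ‖(v X (m + 1) : ℂ) * ((m : ℂ) ^ (-s) - ((m + 1 : ℕ) : ℂ) ^ (-s))‖ := norm_add_le _ _
    _ ≤ D * (m : ℝ)⁻¹ * (m : ℝ)⁻¹ + 1 * ((1 + |t|) * ((m : ℝ) ^ 2)⁻¹) := by
        refine add_le_add ?_ ?_
        · rw [norm_mul, e2, Complex.norm_real, Real.norm_eq_abs]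
          exact mul_le_mul_of_nonneg_right e1 (by positivity)
        · rw [norm_mul, Complex.norm_real, Real.norm_eq_abs]
          exact mul_le_mul e3 e4 (norm_nonneg _) zero_le_one
    _ = (D + (1 + |t|)) * ((m : ℝ) ^ 2)⁻¹ := by rw [mul_assoc, hsq]; ring
    _ ≤ (D + 1) * (1 + |t|) * ((m : ℝ) ^ 2)⁻¹ := by
        refine mul_le_mul_of_nonneg_right ?_ hi
        nlinarith

/-- Partial summation: `v(m) m^(-1-it)` has derivative `O((1+|t|) m^(-2))` on
`[X/e², e^4 X]` and vanishes outside. -/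
theorem FL_sub_F0_le (A : ℝ) : ∃ K : ℝ, ∀ Q X : ℕ, Reg K Q X → ∀ t : ℝ,
    ‖FL X p0 t - F0 X t‖ ≤ (1 + |t|) * (Real.log X) ^ (-A) := by
  obtain ⟨D, hD0, hD⟩ := PNTE_w_lip
  obtain ⟨K₁, hK₁⟩ := pnt_error (A + 2)
  refine ⟨|K₁| + 2 * (D + 1) + 1000, fun Q X hreg t => ?_⟩
  have a1 : 0 ≤ |K₁| := abs_nonneg _
  have b1 : K₁ ≤ |K₁| := le_abs_self _
  have hKpos : 0 ≤ |K₁| + 2 * (D + 1) + 1000 := by linarith
  have r1 : Reg K₁ Q X := hreg.mono hKpos (by linarith)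
  have hX1 : 1 ≤ X := hreg.X_pos (by linarith)
  have hX1000 : (1000 : ℝ) ≤ X := by
    have := hreg.X_ge (by linarith)
    linarith
  have hX0 : (0 : ℝ) < X := by linarith
  set L : ℝ := Real.log X with hL
  have hLbig : 2 * (D + 1) + 1000 ≤ L := by
    have h1 := hreg.logX_ge (by linarith)
    have := Real.add_one_le_exp (|K₁| + 2 * (D + 1) + 1000)
    linarith
  have hL0 : 0 < L := by linarith
  have hpnt := hK₁ Q X r1
  set δ : ℝ := L ^ (-(A + 2)) with hδ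
  have hδ0 : 0 < δ := Real.rpow_pos_of_pos hL0 _
  set b : ℕ → ℂ := fun m => ((ArithmeticFunction.vonMangoldt m - 1 : ℝ) : ℂ) with hb
  have hdiff : FL X p0 t - F0 X t = ∑ m ∈ Icc 1 (60 * X), b m * PNTE_phi X t m := by
    unfold FL F0 FF
    rw [← Finset.sum_sub_distrib]
    refine Finset.sum_congr rfl fun m _ => ?_
    have h1 : p0.2 (m : ZMod p0.1) = 1 := by
      show (1 : DirichletCharacter ℂ 1) (m : ZMod 1) = 1
      rw [Subsingleton.elim (m : ZMod 1) 1, map_one]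
    unfold PNTE_phi
    simp only [h1, hb]
    push_cast
    ring
  rw [hdiff, PNTE_abel]
  have hlast : PNTE_phi X t (60 * X + 1) = 0 := by
    unfold PNTE_phi
    rw [MAINI_v_zero hX1 (by omega)]
    simp
  rw [hlast, mul_zero, zero_add]
  have hterm : ∀ m ∈ Icc 1 (60 * X), ‖(∑ k ∈ Icc 1 m, b k) *
      (PNTE_phi X t m - PNTE_phi X t (m + 1))‖ ≤ δ * ((D + 1) * (1 + |t|)) * (m : ℝ)⁻¹ := by
    intro m hm
    obtain ⟨hm1, hm2⟩ := mem_Icc.mp hm
    have hm0 : (0 : ℝ) < m := by exact_mod_cast hm1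
    have ht : 0 ≤ |t| := abs_nonneg t
    by_cases hcase : (m : ℝ) < X / 8
    · have h1 : PNTE_phi X t m = 0 := by
        unfold PNTE_phi
        rw [PNTE_v_zero hX1000 hm1 (by linarith)]
        simp
      have h2 : PNTE_phi X t (m + 1) = 0 := by
        unfold PNTE_phi
        rw [PNTE_v_zero hX1000 (by omega) (by push_cast; linarith)]
        simp
      rw [h1, h2, sub_zero, mul_zero, norm_zero]
      positivity
    · push Not at hcase
      have hm2' : (m : ℝ) ≤ 60 * X := by exact_mod_cast hm2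
      have h1 := hpnt m hcase hm2'
      rw [Nat.floor_natCast] at h1
      have h2 : ‖∑ k ∈ Icc 1 m, b k‖ ≤ m * δ := by
        have h3 : (∑ k ∈ Icc 1 m, b k) =
            ((∑ k ∈ Icc 1 m, (ArithmeticFunction.vonMangoldt k - 1) : ℝ) : ℂ) := by
          rw [hb]
          push_cast
          rfl
        rw [h3, Complex.norm_real, Real.norm_eq_abs]
        exact h1
      rw [norm_mul]
      calc ‖∑ k ∈ Icc 1 m, b k‖ * ‖PNTE_phi X t m - PNTE_phi X t (m + 1)‖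
          ≤ (m * δ) * ((D + 1) * (1 + |t|) * ((m : ℝ) ^ 2)⁻¹) :=
            mul_le_mul h2 (PNTE_phi_diff hD0 hD hX1 t m hm1) (norm_nonneg _) (by positivity)
        _ = δ * ((D + 1) * (1 + |t|)) * (m * ((m : ℝ) ^ 2)⁻¹) := by ring
        _ = δ * ((D + 1) * (1 + |t|)) * (m : ℝ)⁻¹ := by
            congr 1
            field_simp
  refine (norm_sum_le _ _).trans ((Finset.sum_le_sum hterm).trans ?_)
  rw [← Finset.mul_sum]
  have hharm := MAINI_harm (60 * X)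
  have hlog : Real.log ((60 * X : ℕ) : ℝ) ≤ 7 + L := by
    push_cast
    rw [Real.log_mul (by norm_num) hX0.ne', ← hL]
    have h3 : Real.log 60 ≤ 7 := by
      have e1 : Real.log 60 ≤ Real.log (2 ^ 7) := Real.log_le_log (by norm_num) (by norm_num)
      rw [Real.log_pow] at e1
      have := Real.log_two_lt_d9
      push_cast at e1
      linarith
    linarith
  have ht : 0 ≤ |t| := abs_nonneg t
  have h8 : δ * L ^ 2 = L ^ (-A) := by
    rw [hδ, ← Real.rpow_natCast L 2, ← Real.rpow_add hL0]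
    congr 1
    push_cast
    ring
  rw [← h8]
  calc δ * ((D + 1) * (1 + |t|)) * ∑ m ∈ Icc 1 (60 * X), (m : ℝ)⁻¹
      ≤ δ * ((D + 1) * (1 + |t|)) * (2 * L) := by
        refine mul_le_mul_of_nonneg_left ?_ (by positivity)
        linarith
    _ = (1 + |t|) * (δ * ((2 * (D + 1)) * L)) := by ring
    _ ≤ (1 + |t|) * (δ * (L * L)) := by
        refine mul_le_mul_of_nonneg_left ?_ (by positivity)
        refine mul_le_mul_of_nonneg_left ?_ hδ0.le
        exact mul_le_mul_of_nonneg_right (by linarith) hL0.le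
    _ = (1 + |t|) * (δ * L ^ 2) := by ring

end Pool.Agent.Lib.H68T
end

-- from Lib.H68X.XEX
section

/-!
# Chunk XEX: everything about a level with an exceptional zero
-/

open Finset Metric

namespace Pool.Agent.Lib.H68T


/-- Below the conductor of an exceptional character the levels are good: if `ψ'` of conductor
`≤ r - 1` had a zero `σ ≥ 1 - c/log (r-1)`, then `σ ≥ 1 - c₀/log r` (`log r ≤ 2 log (r-1)`,
`c ≤ c₀/2`) and `β ≥ 1 - c/log Q ≥ 1 - c₀/log r` contradict `page` at the level `r`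
(the conductors differ, so `⟨r', ψ'⟩ ≠ ⟨r, ψ⟩`). -/
theorem good_below : ∃ c K : ℝ, 0 < c ∧ ∀ (Q r : ℕ) [NeZero r] (ψ : DirichletCharacter ℂ r)
    (β : ℝ), K ≤ r → Exc c Q r ψ β → Good c (r - 1) := by
  obtain ⟨c₀, K₀, hc₀, hpage⟩ := page
  refine ⟨c₀ / 2, max K₀ 3, by positivity, ?_⟩
  intro Q r _ ψ β hK hexc
  obtain ⟨hrQ, hprim, hne, hsq, hβ, hβ1, hz⟩ := hexc
  have hK0 : K₀ ≤ r := (le_max_left _ _).trans hK
  have h3r : (3 : ℝ) ≤ r := (le_max_right _ _).trans hK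
  have h3 : 3 ≤ r := by exact_mod_cast h3r
  have hlog : 0 < Real.log r := Real.log_pos (by linarith)
  have hcast : ((r - 1 : ℕ) : ℝ) = r - 1 := by
    rw [Nat.cast_sub (by omega), Nat.cast_one]
  have hlog1 : 0 < Real.log ((r - 1 : ℕ) : ℝ) := Real.log_pos (by rw [hcast]; linarith)
  have hlog2 : Real.log r ≤ 2 * Real.log ((r - 1 : ℕ) : ℝ) := by
    have h1 : 2 * Real.log ((r - 1 : ℕ) : ℝ) = Real.log (((r - 1 : ℕ) : ℝ) ^ 2) := by
      rw [Real.log_pow]
      push_cast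
      ring
    rw [h1]
    refine Real.log_le_log (by linarith) ?_
    rw [hcast]
    nlinarith
  intro r' _ ψ' hr' hp' hψ' hs' σ hσ hσ1 hz'
  have hr'r : r' ≤ r := by omega
  refine hpage r hK0 r r' ψ ψ' le_rfl hr'r hprim hp' hne hψ' hsq hs' ?_ β σ ?_ hβ1.le ?_ hσ1 hz hz'
  · intro h
    have h1 : r = r' := congrArg Sigma.fst h
    omega
  · have h1 : Real.log r ≤ Real.log Q :=
      Real.log_le_log (by linarith) (by exact_mod_cast hrQ)
    have h2 : c₀ / 2 / Real.log Q ≤ c₀ / Real.log r :=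
      div_le_div₀ hc₀.le (by linarith) hlog h1
    linarith
  · have h1 : c₀ / 2 / Real.log ((r - 1 : ℕ) : ℝ) ≤ c₀ / Real.log r := by
      rw [div_le_div_iff₀ hlog1 hlog]
      have := mul_le_mul_of_nonneg_left hlog2 hc₀.le
      linarith
    linarith

end Pool.Agent.Lib.H68T
end
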