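import Pool.Agent.Lib.H59M.M1.M005
import Pool.Agent.Lib.H59M.M1.M007
import Pool.Agent.Lib.H59M.M1.M026

/-! Merged copies (to shorten the build) of Lib.H21T.B4, Lib.H21T.B5, Lib.H21T.B6, Lib.H21T.B9, Lib.H21T.B11, Lib.H21T.Z1, Lib.H44W.M0, Lib.HUK.B08, Lib.HUK.B02, Lib.HUK.B03. -/

-- from Lib.H21T.B4
section

/-!
# Chunk B4 (S/M): the slope along a progression
-/

namespace Pool.Agent.Lib.H21T

open Finset Pool.Agent.SZW

/-- For `a' = a + q j`: `yv x' q r a' - yv x' q r a = (x' / a' - x' / a) / q = - x' j / (a a')`, so the expression is `(j / s) (t - s x' / (a a'))`, at most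
`|t - s x' / (a a')| ≤ |t - s x / a0 ^ 2| + s |x / a0 ^ 2 - x / (a a')| + s (x' - x) / (a a') ≤ 1 / S + S / S ^ 2 + S H / A ^ 2 ≤ 3 / S`
(`Ap`, `f2_var`, `hH`). Here `x' = x` or `x' = x + H`, so `0 ≤ x' - x ≤ H`. -/
theorem b4 {A x X S Λ : ℕ} (G : Geo A x X S Λ) {a0 s t x' H q r a j : ℕ} (h0 : A ≤ a0) (hs1 : 1 ≤ s) (hsS : s ≤ S) (hap : Ap x S a0 s t)
    (hx1 : x ≤ x') (hx2 : x' ≤ x + H) (hH : H * S ^ 2 ≤ A ^ 2) (hq : 1 ≤ q) (h1 : a0 ≤ a) (h2 : a + q * j ≤ a0 + Λ) (hj : j ≤ s) :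
    |yv x' q r (a + q * j) - (yv x' q r a - (t : ℝ) * j / s)| ≤ 3 / S := by
  have hA := G.hA
  have hS := G.hS
  have hq' : (0 : ℝ) < q := by exact_mod_cast hq
  have hs' : (0 : ℝ) < s := by exact_mod_cast hs1
  have hS' : (0 : ℝ) < S := by exact_mod_cast hS
  have hA' : (0 : ℝ) < A := by exact_mod_cast hA
  have hAa : (A : ℝ) ≤ a := by exact_mod_cast h0.trans h1
  have ha' : (0 : ℝ) < a := lt_of_lt_of_le hA' hAa
  have hsS' : (s : ℝ) ≤ S := by exact_mod_cast hsS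
  have hj' : (j : ℝ) ≤ s := by exact_mod_cast hj
  have hj0 : (0 : ℝ) ≤ j := by positivity
  obtain ⟨b, hb⟩ : ∃ b : ℕ, b = a + q * j := ⟨_, rfl⟩
  have hbr : (b : ℝ) = a + q * j := by
    rw [hb]
    push_cast
    ring
  rw [← hb] at h2 ⊢
  have hab : a ≤ b := by
    rw [hb]
    exact Nat.le_add_right _ _
  have hab' : (a : ℝ) ≤ b := by exact_mod_cast hab
  have hb0 : (0 : ℝ) < b := lt_of_lt_of_le ha' hab'
  have e1 : yv x' q r b - (yv x' q r a - (t : ℝ) * j / s) = (j / s) * (t - s * ((x' : ℝ) / (a * b))) := by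
    unfold yv
    have e2 : (x' : ℝ) / b - x' / a = - (x' * (q * j)) / (a * b) := by
      field_simp
      rw [hbr]
      ring
    have e3 : ((x' : ℝ) / b - r) / q - ((x' / a - r) / q - (t : ℝ) * j / s) = ((x' : ℝ) / b - x' / a) / q + (t : ℝ) * j / s := by
      ring
    rw [e3, e2]
    field_simp
    ring
  have hv := f2_var G h0 h1 (by omega : a ≤ a0 + Λ) (h1.trans hab) h2
  unfold Ap at hap
  have hxx : (0 : ℝ) ≤ (x' : ℝ) - x := by
    have : (x : ℝ) ≤ x' := by exact_mod_cast hx1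
    linarith
  have hxH : (x' : ℝ) - x ≤ H := by
    have : (x' : ℝ) ≤ ((x + H : ℕ) : ℝ) := by exact_mod_cast hx2
    push_cast at this
    linarith
  have hH' : (H : ℝ) * S ^ 2 ≤ A ^ 2 := by exact_mod_cast hH
  have hAA : (A : ℝ) ^ 2 ≤ a * b := by
    have := mul_le_mul hAa (hAa.trans hab') hA'.le ha'.le
    nlinarith
  have h3 : s * (((x' : ℝ) - x) / (a * b)) ≤ 1 / S := by
    have h4 : ((x' : ℝ) - x) / (a * b) ≤ H / A ^ 2 := by
      apply div_le_div₀ (by positivity) hxH (by positivity) hAA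
    have h5 : (H : ℝ) / A ^ 2 ≤ 1 / S ^ 2 := by
      rw [div_le_div_iff₀ (by positivity) (by positivity)]
      linarith
    have h6 : (0 : ℝ) ≤ ((x' : ℝ) - x) / (a * b) := by positivity
    calc s * (((x' : ℝ) - x) / (a * b)) ≤ S * (1 / S ^ 2) := mul_le_mul hsS' (h4.trans h5) h6 hS'.le
      _ = 1 / S := by field_simp
  have h3' : 0 ≤ s * (((x' : ℝ) - x) / (a * b)) := by positivity
  have h7 : |(s : ℝ) * ((x : ℝ) / (a0 : ℝ) ^ 2 - (x : ℝ) / ((a : ℝ) * b))| ≤ 1 / S := by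
    rw [abs_mul, abs_of_pos hs']
    calc (s : ℝ) * |(x : ℝ) / (a0 : ℝ) ^ 2 - (x : ℝ) / ((a : ℝ) * b)| ≤ S * (1 / S ^ 2) :=
          mul_le_mul hsS' hv (abs_nonneg _) hS'.le
      _ = 1 / S := by field_simp
  have e4 : (t : ℝ) - s * ((x' : ℝ) / (a * b)) = - (s * (x / (a0 : ℝ) ^ 2) - t) +
      s * ((x : ℝ) / (a0 : ℝ) ^ 2 - (x : ℝ) / ((a : ℝ) * b)) - s * (((x' : ℝ) - x) / (a * b)) := by
    rw [sub_div]
    ring
  have h8 : |(t : ℝ) - s * ((x' : ℝ) / (a * b))| ≤ 3 / S := by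
    have e5 : (3 : ℝ) / S = 1 / S + 1 / S + 1 / S := by ring
    rw [e4, e5]
    rw [abs_le] at hap h7 ⊢
    constructor
    · linarith [hap.1, hap.2, h7.1, h7.2]
    · linarith [hap.1, hap.2, h7.1, h7.2]
  rw [e1, abs_mul]
  have h9 : |(j : ℝ) / s| ≤ 1 := by
    rw [abs_of_nonneg (by positivity), div_le_one hs']
    exact hj'
  calc |(j : ℝ) / s| * |(t : ℝ) - s * ((x' : ℝ) / (a * b))| ≤ 1 * |(t : ℝ) - s * ((x' : ℝ) / (a * b))| :=
        mul_le_mul_of_nonneg_right h9 (abs_nonneg _)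
    _ ≤ 3 / S := by rw [one_mul]; exact h8

end Pool.Agent.Lib.H21T
end

-- from Lib.H21T.B5
section

/-!
# Chunk B5 (S/M): one piece
-/

namespace Pool.Agent.Lib.H21T

open Finset Pool.Agent.SZW

/-- A residue class in an interval is a progression: if the set is not empty let `a` be its smallest element and `W` its cardinality; it is
the image of `range W` under `j ↦ a + q j`. -/
theorem b5_ap (a0 a1 q r : ℕ) (hq : 1 ≤ q) : ∃ a W : ℕ, a0 ≤ a ∧ (∀ j < W, a + q * j < a1) ∧ W ≤ a1 - a0 ∧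
    (Ico a0 a1).filter (fun a => a % q = r) = (range W).image fun j => a + q * j := by
  rcases Finset.eq_empty_or_nonempty ((Ico a0 a1).filter (fun a => a % q = r)) with h | h
  · refine ⟨a0, 0, le_refl _, ?_, Nat.zero_le _, ?_⟩
    · intro j hj
      omega
    · rw [h]
      simp
  · obtain ⟨a, ha⟩ : ∃ a, a = ((Ico a0 a1).filter (fun a => a % q = r)).min' h := ⟨_, rfl⟩
    have ham : a ∈ (Ico a0 a1).filter (fun a => a % q = r) := by
      rw [ha]
      exact Finset.min'_mem _ h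
    have hmin : ∀ b ∈ (Ico a0 a1).filter (fun a => a % q = r), a ≤ b := by
      intro b hb
      rw [ha]
      exact Finset.min'_le _ b hb
    rw [mem_filter, mem_Ico] at ham
    obtain ⟨⟨h1, h2⟩, h3⟩ := ham
    have hW : ∀ j, j < (a1 - a - 1) / q + 1 → a + q * j < a1 := by
      intro j hj
      have h4 : j ≤ (a1 - a - 1) / q := by omega
      have h5 : j * q ≤ a1 - a - 1 := (Nat.le_div_iff_mul_le (by omega)).1 h4
      have h6 : q * j = j * q := Nat.mul_comm q j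
      omega
    refine ⟨a, (a1 - a - 1) / q + 1, h1, hW, ?_, ?_⟩
    · have := Nat.div_le_self (a1 - a - 1) q
      omega
    · ext b
      rw [mem_image]
      constructor
      · intro hb
        have h4 := hmin b hb
        rw [mem_filter, mem_Ico] at hb
        have h5 : a ≡ b [MOD q] := by
          unfold Nat.ModEq
          rw [h3, hb.2]
        obtain ⟨j, hj⟩ := (Nat.modEq_iff_dvd' h4).1 h5
        refine ⟨j, ?_, by omega⟩
        rw [mem_range]
        have h6 : j * q ≤ a1 - a - 1 := by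
          rw [Nat.mul_comm]
          omega
        have h7 := (Nat.le_div_iff_mul_le (by omega : 0 < q)).2 h6
        omega
      · rintro ⟨j, hj, rfl⟩
        rw [mem_range] at hj
        rw [mem_filter, mem_Ico]
        refine ⟨⟨by omega, hW j hj⟩, ?_⟩
        rw [Nat.add_mul_mod_self_left]
        exact h3

/-- `b5_ap` and `b3` for `y j = yv x q r' (a + q j)`, `z j = yv (x + H) q r' (a + q j)`, `η = 3 / S` (`b4` with `a + q l s` in place of `a`; for `(l + 1) s ≤ W`, `j < s`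
the point `a + q (l s + j)` is `< a1 ≤ a0 + Λ`). The map `j ↦ a + q j` is injective. `W ≤ Λ`, so the bound is `W / s + 12 W / S + s ≤ Λ (1 / s + 12 / S) + S`. -/
theorem b5 {A x X S Λ : ℕ} (G : Geo A x X S Λ) {a0 a1 s t H q r r' : ℕ} (h0 : A ≤ a0) (h1 : a1 ≤ a0 + Λ) (hs1 : 1 ≤ s) (hsS : s ≤ S)
    (hco : Nat.Coprime s t) (hap : Ap x S a0 s t) (hH : H * S ^ 2 ≤ A ^ 2) (hq : 1 ≤ q) :
    |∑ a ∈ (Ico a0 a1).filter (fun a => a % q = r), (Fr (yv (x + H) q r' a) - Fr (yv x q r' a))| ≤ Λ * (1 / (s : ℝ) + 12 / S) + S := by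
  obtain ⟨a, W, ha, hW1, hW2, hT⟩ := b5_ap a0 a1 q r hq
  have hS := G.hS
  have hS' : (0 : ℝ) < S := by exact_mod_cast hS
  have hs' : (0 : ℝ) < s := by exact_mod_cast hs1
  rw [hT, Finset.sum_image]
  · have hb : ∀ x' : ℕ, x ≤ x' → x' ≤ x + H → ∀ l j, (l + 1) * s ≤ W → j < s →
        |yv x' q r' (a + q * (l * s + j)) - (yv x' q r' (a + q * (l * s)) - (t : ℝ) * j / s)| ≤ 3 / S := by
      intro x' hx1 hx2 l j hl hj
      have e1 : a + q * (l * s + j) = a + q * (l * s) + q * j := by ring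
      have h2 : l * s + j < W := by
        have : (l + 1) * s = l * s + s := by ring
        omega
      have h3 := hW1 _ h2
      rw [e1] at h3 ⊢
      exact b4 G h0 hs1 hsS hap hx1 hx2 hH hq (by omega) (by omega) hj.le
    have h3 := b3 s t W hs1 hco (fun j => yv x q r' (a + q * j)) (fun j => yv (x + H) q r' (a + q * j)) (3 / S) (by positivity)
      (hb x (le_refl _) (Nat.le_add_right _ _)) (hb (x + H) (Nat.le_add_right _ _) (le_refl _))
    refine h3.trans ?_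
    have hWΛ : (W : ℝ) ≤ Λ := by
      have : W ≤ Λ := by omega
      exact_mod_cast this
    have hsS' : (s : ℝ) ≤ S := by exact_mod_cast hsS
    have e2 : (W : ℝ) / s * (1 + 4 * s * (3 / S)) = W * (1 / (s : ℝ) + 12 / S) := by
      field_simp
      ring
    rw [e2]
    have h4 : (W : ℝ) * (1 / (s : ℝ) + 12 / S) ≤ Λ * (1 / (s : ℝ) + 12 / S) :=
      mul_le_mul_of_nonneg_right hWΛ (by positivity)
    linarith
  · intro i _ j _ hij
    have h5 : q * i = q * j := by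
      have : a + q * i = a + q * j := hij
      omega
    exact Nat.eq_of_mul_eq_mul_left (by omega) h5

end Pool.Agent.Lib.H21T
end

-- from Lib.H21T.B6
section

/-!
# Chunk B6 (S/M): all pieces
-/

namespace Pool.Agent.Lib.H21T

open Finset Pool.Agent.SZW

/-- `s6_part` (with `f a = if a % q = r then .. else 0`). Pieces with `s i ≥ s0`: `b5`, at most `Λ (1 / s0 + 12 / S) + S`; the other pieces (at most `291 X s0 S`, `f4_small`):
at most `Λ` terms of absolute value at most `1`. `nJ A1 A2 Λ ≤ A / Λ + 1 ≤ 2 A / Λ` (`A2 - A1 ≤ A`, `Λ ≤ A` by `f2_small`). Directions from `exists_dir`.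
Total: `2 A (1 / s0 + 12 / S) + 2 A S / Λ + 291 X s0 S Λ`. -/
theorem b6 {A x X S Λ A1 A2 : ℕ} (G : Geo A x X S Λ) (h1 : A ≤ A1) (h2 : A1 ≤ A2) (h3 : A2 ≤ 2 * A) {H q r r' s0 : ℕ}
    (hH : H * S ^ 2 ≤ A ^ 2) (hq : 1 ≤ q) (hs0 : 1 ≤ s0) :
    |∑ a ∈ (Ico A1 A2).filter (fun a => a % q = r), (Fr (yv (x + H) q r' a) - Fr (yv x q r' a))| ≤
      2 * A * (1 / (s0 : ℝ) + 12 / S) + 2 * A * S / Λ + 291 * X * s0 * S * Λ := by
  obtain ⟨sd, td, hDall⟩ := exists_dir A1 Λ x S G.hS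
  have hD := hDall (nJ A1 A2 Λ)
  have hS' : (0 : ℝ) < S := by exact_mod_cast G.hS
  have hΛ' : (0 : ℝ) < Λ := by exact_mod_cast G.hΛ
  have hs0' : (0 : ℝ) < s0 := by exact_mod_cast hs0
  have hA' : (0 : ℝ) < A := by exact_mod_cast G.hA
  have e0 : ∑ a ∈ (Ico A1 A2).filter (fun a => a % q = r), (Fr (yv (x + H) q r' a) - Fr (yv x q r' a)) =
      ∑ i ∈ range (nJ A1 A2 Λ), ∑ a ∈ (Ico (pa A1 Λ i) (pb A1 A2 Λ i)).filter (fun a => a % q = r),
        (Fr (yv (x + H) q r' a) - Fr (yv x q r' a)) := by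
    rw [Finset.sum_filter, s6_part G.hΛ h2]
    refine Finset.sum_congr rfl fun i _ => ?_
    rw [Finset.sum_filter]
  obtain ⟨B, hB⟩ : ∃ B : ℝ, B = Λ * (1 / (s0 : ℝ) + 12 / S) + S := ⟨_, rfl⟩
  have hB0 : 0 ≤ B := by
    rw [hB]
    positivity
  have hpb : ∀ i, pb A1 A2 Λ i ≤ pa A1 Λ i + Λ := by
    intro i
    unfold pb pa
    have : (i + 1) * Λ = i * Λ + Λ := by ring
    exact (min_le_right _ _).trans (by omega)
  have hterm : ∀ i ∈ range (nJ A1 A2 Λ), |∑ a ∈ (Ico (pa A1 Λ i) (pb A1 A2 Λ i)).filter (fun a => a % q = r),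
        (Fr (yv (x + H) q r' a) - Fr (yv x q r' a))| ≤ B + (if sd i < s0 then (Λ : ℝ) else 0) := by
    intro i hi
    rw [mem_range] at hi
    by_cases hc : sd i < s0
    · rw [if_pos hc]
      have h4 : |∑ a ∈ (Ico (pa A1 Λ i) (pb A1 A2 Λ i)).filter (fun a => a % q = r),
          (Fr (yv (x + H) q r' a) - Fr (yv x q r' a))| ≤ Λ := by
        refine (Finset.abs_sum_le_sum_abs _ _).trans ?_
        have h5 : ∑ a ∈ (Ico (pa A1 Λ i) (pb A1 A2 Λ i)).filter (fun a => a % q = r),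
            |Fr (yv (x + H) q r' a) - Fr (yv x q r' a)| ≤
            ∑ _a ∈ (Ico (pa A1 Λ i) (pb A1 A2 Λ i)).filter (fun a => a % q = r), (1 : ℝ) :=
          Finset.sum_le_sum fun j _ => b3_fr _ _
        refine h5.trans ?_
        rw [Finset.sum_const, nsmul_eq_mul, mul_one]
        have h6 : ((Ico (pa A1 Λ i) (pb A1 A2 Λ i)).filter (fun a => a % q = r)).card ≤ Λ := by
          refine (Finset.card_filter_le _ _).trans ?_
          rw [Nat.card_Ico]
          have := hpb i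
          omega
        exact_mod_cast h6
      linarith
    · rw [if_neg hc, add_zero]
      have hsi : s0 ≤ sd i := not_lt.1 hc
      have h4 := b5 (r := r) (r' := r') G (show A ≤ pa A1 Λ i from h1.trans (Nat.le_add_right _ _)) (hpb i) (hD.s1 i hi) (hD.sS i hi)
        (hD.co i hi) (hD.ap i hi) hH hq
      refine h4.trans ?_
      rw [hB]
      have h5 : (s0 : ℝ) ≤ sd i := by exact_mod_cast hsi
      have h6 : 1 / (sd i : ℝ) ≤ 1 / s0 := one_div_le_one_div_of_le hs0' h5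
      have h7 : (Λ : ℝ) * (1 / (sd i : ℝ) + 12 / S) ≤ Λ * (1 / (s0 : ℝ) + 12 / S) :=
        mul_le_mul_of_nonneg_left (by linarith) hΛ'.le
      linarith
  have hnJ : (nJ A1 A2 Λ : ℝ) * Λ ≤ 2 * A := by
    have h4 : nJ A1 A2 Λ * Λ ≤ 2 * A := by
      unfold nJ
      have h5 := Nat.div_mul_le_self (A2 - A1) Λ
      have h6 : Λ ≤ A := by
        have h7 := f2_small G
        have h8 : 1 ≤ S ^ 2 := Nat.one_le_pow _ _ G.hS
        calc Λ = Λ * 1 := (Nat.mul_one _).symm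
          _ ≤ Λ * S ^ 2 := Nat.mul_le_mul_left _ h8
          _ ≤ A := h7
      rw [Nat.add_mul, Nat.one_mul]
      omega
    exact_mod_cast h4
  have hsmall := f4_small G h1 h2 h3 hD s0
  rw [e0]
  refine (Finset.abs_sum_le_sum_abs _ _).trans ((Finset.sum_le_sum hterm).trans ?_)
  rw [Finset.sum_add_distrib, Finset.sum_const, card_range, nsmul_eq_mul, ← Finset.sum_filter, Finset.sum_const, nsmul_eq_mul]
  have h8 : (nJ A1 A2 Λ : ℝ) * B ≤ 2 * A * (1 / (s0 : ℝ) + 12 / S) + 2 * A * S / Λ := by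
    have h9 : (nJ A1 A2 Λ : ℝ) * B = (nJ A1 A2 Λ * Λ) * (1 / (s0 : ℝ) + 12 / S) + (nJ A1 A2 Λ * Λ) * (S / Λ) := by
      rw [hB]
      field_simp
    have h10 : (nJ A1 A2 Λ * Λ : ℝ) * (1 / (s0 : ℝ) + 12 / S) ≤ 2 * A * (1 / (s0 : ℝ) + 12 / S) :=
      mul_le_mul_of_nonneg_right hnJ (by positivity)
    have h11 : (nJ A1 A2 Λ * Λ : ℝ) * (S / Λ) ≤ 2 * A * (S / Λ) :=
      mul_le_mul_of_nonneg_right hnJ (by positivity)
    have h12 : 2 * (A : ℝ) * S / Λ = 2 * A * (S / Λ) := by ring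
    rw [h9, h12]
    linarith
  have h13 := mul_le_mul_of_nonneg_right hsmall hΛ'.le
  linarith

end Pool.Agent.Lib.H21T
end

-- from Lib.H21T.B9
section

/-!
# Chunk B9 (S/M): the number of pairs in a residue class
-/

namespace Pool.Agent.Lib.H21T

open Finset Pool.Agent.SZW

theorem b9_cnt (A1 A2 x H q r1 r2 : ℕ) : cnt A1 A2 x H q r1 r2 =
    ∑ a ∈ (Ico A1 A2).filter (fun a => a % q = r1),
      ((range (x + H)).filter fun b => (x ≤ a * b ∧ a * b < x + H) ∧ b % q = r2).card := by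
  unfold cnt Rg
  rw [Finset.filter_filter, Finset.card_filter, Finset.sum_product, Finset.sum_filter]
  refine Finset.sum_congr rfl fun a _ => ?_
  split_ifs with h
  · rw [Finset.card_filter]
    refine Finset.sum_congr rfl fun b _ => ?_
    simp only [h, true_and]
  · refine Finset.sum_eq_zero fun b _ => ?_
    rw [if_neg]
    rintro ⟨-, h1, -⟩
    exact h h1

/-- `cnt = ∑_{a ∈ Ico A1 A2, a % q = r1} #{b : x ≤ a b < x + H, b % q = r2}` (fibres of `Rg`), `b7` for each `a`, then `b8` (times `H / q`) and `b6`. -/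
theorem b9 {A x X S Λ A1 A2 : ℕ} (G : Geo A x X S Λ) (h1 : A ≤ A1) (h2 : A1 ≤ A2) (h3 : A2 ≤ 2 * A) {H q r1 r2 s0 : ℕ}
    (hH : H * S ^ 2 ≤ A ^ 2) (hq : 1 ≤ q) (hqA : 2 * q ≤ A) (hr1 : r1 < q) (hr2 : r2 < q) (hs0 : 1 ≤ s0) :
    |(cnt A1 A2 x H q r1 r2 : ℝ) - (H : ℝ) / q ^ 2 * (Real.log A2 - Real.log A1)| ≤
      2 * A * (1 / (s0 : ℝ) + 12 / S) + 2 * A * S / Λ + 291 * X * s0 * S * Λ + 2 * H / A := by
  have hx : 1 ≤ x := by
    have ha := G.hA
    have hb := G.hx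
    by_contra hcon
    have h4 : x = 0 := by omega
    rw [h4, mul_zero] at hb
    have : 1 ≤ A ^ 2 := Nat.one_le_pow _ _ ha
    omega
  have hq0 : (0:ℝ) < q := by exact_mod_cast hq
  have hA0 : (0:ℝ) < A := by exact_mod_cast G.hA
  have hAA1 : (A:ℝ) ≤ A1 := by exact_mod_cast h1
  have hcnt : (cnt A1 A2 x H q r1 r2 : ℝ) = (H : ℝ) / q * (∑ a ∈ (Ico A1 A2).filter (fun a => a % q = r1), 1 / (a : ℝ)) +
      ∑ a ∈ (Ico A1 A2).filter (fun a => a % q = r1), (Fr (yv (x + H) q r2 a) - Fr (yv x q r2 a)) := by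
    rw [b9_cnt, Nat.cast_sum, Finset.mul_sum, ← Finset.sum_add_distrib]
    refine Finset.sum_congr rfl fun a ha => ?_
    have ha1 : 1 ≤ a := by
      have := (Finset.mem_Ico.1 (Finset.mem_filter.1 ha).1).1
      have := G.hA
      omega
    rw [b7 x H q r2 a hx hq hr2 ha1]
    have ha0 : (a : ℝ) ≠ 0 := by positivity
    congr 1
    field_simp
  have e1 := b6 G h1 h2 h3 (r := r1) (r' := r2) hH hq hs0
  have e2 := b8 A1 A2 q r1 hq hr1 (by omega) h2
  have e3 : (cnt A1 A2 x H q r1 r2 : ℝ) - (H : ℝ) / q ^ 2 * (Real.log A2 - Real.log A1) =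
      (H : ℝ) / q * (∑ a ∈ (Ico A1 A2).filter (fun a => a % q = r1), 1 / (a : ℝ) - (Real.log A2 - Real.log A1) / q) +
      ∑ a ∈ (Ico A1 A2).filter (fun a => a % q = r1), (Fr (yv (x + H) q r2 a) - Fr (yv x q r2 a)) := by
    rw [hcnt]
    field_simp
    ring
  rw [e3]
  refine (abs_add_le _ _).trans ?_
  have e4 : |(H : ℝ) / q * (∑ a ∈ (Ico A1 A2).filter (fun a => a % q = r1), 1 / (a : ℝ) - (Real.log A2 - Real.log A1) / q)| ≤
      2 * H / A := by
    rw [abs_mul, abs_of_nonneg (by positivity : (0:ℝ) ≤ (H : ℝ) / q)]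
    have h5 : (H : ℝ) / q ≤ H := div_le_self (by positivity) (by exact_mod_cast hq)
    have h6 : (2:ℝ) / A1 ≤ 2 / A := by
      apply div_le_div_of_nonneg_left (by norm_num) hA0 hAA1
    calc (H : ℝ) / q * |∑ a ∈ (Ico A1 A2).filter (fun a => a % q = r1), 1 / (a : ℝ) - (Real.log A2 - Real.log A1) / q|
        ≤ H * (2 / A) := mul_le_mul h5 (e2.trans h6) (abs_nonneg _) (by positivity)
      _ = 2 * H / A := by ring
  linarith

end Pool.Agent.Lib.H21T
end

-- from Lib.H21T.B11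
section

/-!
# Chunk B11 (S/M): the exponential sum at a rational
-/

namespace Pool.Agent.Lib.H21T

open Finset Pool.Agent.SZW

theorem b11_ee (q : ℕ) (p : ℤ) (hq : 1 ≤ q) (a b : ℕ) :
    ee ((p : ℝ) / q * ((a : ℝ) * b)) = ee ((p : ℝ) / q * (((a % q : ℕ) : ℝ) * ((b % q : ℕ) : ℝ))) := by
  have hq0 : (q : ℝ) ≠ 0 := by positivity
  have h1 : (a : ℝ) = q * ((a / q : ℕ) : ℝ) + ((a % q : ℕ) : ℝ) := by exact_mod_cast (Nat.div_add_mod a q).symm
  have h2 : (b : ℝ) = q * ((b / q : ℕ) : ℝ) + ((b % q : ℕ) : ℝ) := by exact_mod_cast (Nat.div_add_mod b q).symm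
  generalize a / q = a' at h1
  generalize b / q = b' at h2
  generalize a % q = ra at h1 ⊢
  generalize b % q = rb at h2 ⊢
  have h3 : (p : ℝ) / q * ((a : ℝ) * b) = (p : ℝ) / q * ((ra : ℝ) * (rb : ℝ)) +
      ((p * (q * a' * b' + a' * rb + ra * b') : ℤ) : ℝ) := by
    push_cast
    rw [h1, h2]
    field_simp
    ring
  rw [h3, ee_add, ee_int, mul_one]

theorem b11_SR (A1 A2 x H q : ℕ) (p : ℤ) (hq : 1 ≤ q) :
    SR ((p : ℝ) / q) A1 A2 x H = ∑ r1 ∈ range q, ∑ r2 ∈ range q, ee ((p : ℝ) / q * ((r1 : ℝ) * r2)) * (cnt A1 A2 x H q r1 r2 : ℂ) := by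
  unfold SR
  have hm : ∀ pp ∈ Rg A1 A2 x H, (pp.1 % q, pp.2 % q) ∈ range q ×ˢ range q := by
    intro pp _
    rw [Finset.mem_product, Finset.mem_range, Finset.mem_range]
    exact ⟨Nat.mod_lt _ hq, Nat.mod_lt _ hq⟩
  rw [← Finset.sum_fiberwise_of_maps_to hm, Finset.sum_product]
  refine Finset.sum_congr rfl fun r1 _ => Finset.sum_congr rfl fun r2 _ => ?_
  have h1 : ∀ pp ∈ (Rg A1 A2 x H).filter (fun pp => (pp.1 % q, pp.2 % q) = (r1, r2)),
      ee ((p : ℝ) / q * ((pp.1 : ℝ) * pp.2)) = ee ((p : ℝ) / q * ((r1 : ℝ) * r2)) := by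
    intro pp hpp
    have h2 := (Finset.mem_filter.1 hpp).2
    rw [Prod.mk.injEq] at h2
    rw [b11_ee q p hq, h2.1, h2.2]
  rw [Finset.sum_congr rfl h1, Finset.sum_const, nsmul_eq_mul, mul_comm]
  congr 2
  unfold cnt
  congr 1
  ext pp
  simp only [Finset.mem_filter, Prod.mk.injEq]

/-- `ee (p a b / q)` depends only on `a % q`, `b % q` (`ee_int`); so `SR (p / q) = ∑_{r1, r2 < q} ee (p r1 r2 / q) cnt(r1, r2)`. Replace `cnt` by the main term of `b9` (`q ^ 2` errors) and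
use `b10`: the main term is `q * (H / q ^ 2) (log A2 - log A1)`. -/
theorem b11 {A x X S Λ A1 A2 : ℕ} (G : Geo A x X S Λ) (h1 : A ≤ A1) (h2 : A1 ≤ A2) (h3 : A2 ≤ 2 * A) {H q s0 : ℕ} {p : ℤ}
    (hH : H * S ^ 2 ≤ A ^ 2) (hq : 1 ≤ q) (hqA : 2 * q ≤ A) (hp : IsCoprime p (q : ℤ)) (hs0 : 1 ≤ s0) :
    ‖SR ((p : ℝ) / q) A1 A2 x H - (((H : ℝ) / q * (Real.log A2 - Real.log A1) : ℝ) : ℂ)‖ ≤
      (q : ℝ) ^ 2 * (2 * A * (1 / (s0 : ℝ) + 12 / S) + 2 * A * S / Λ + 291 * X * s0 * S * Λ + 2 * H / A) := by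
  have hq0 : (q : ℝ) ≠ 0 := by positivity
  set c0 : ℝ := (H : ℝ) / q ^ 2 * (Real.log A2 - Real.log A1) with hc0
  have e1 : (((H : ℝ) / q * (Real.log A2 - Real.log A1) : ℝ) : ℂ) =
      ∑ r1 ∈ range q, ∑ r2 ∈ range q, ee ((p : ℝ) / q * ((r1 : ℝ) * r2)) * (c0 : ℂ) := by
    have h4 := b10 q p hq hp
    have h5 : ∑ r1 ∈ range q, ∑ r2 ∈ range q, ee ((p : ℝ) / q * ((r1 : ℝ) * r2)) * (c0 : ℂ) =
        (∑ r1 ∈ range q, ∑ r2 ∈ range q, ee ((p : ℝ) / q * ((r1 : ℝ) * r2))) * (c0 : ℂ) := by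
      rw [Finset.sum_mul]
      refine Finset.sum_congr rfl fun r1 _ => ?_
      rw [Finset.sum_mul]
    rw [h5, h4]
    have h6 : (H : ℝ) / q * (Real.log A2 - Real.log A1) = q * c0 := by
      rw [hc0]
      field_simp
    rw [h6]
    push_cast
    rfl
  rw [b11_SR A1 A2 x H q p hq, e1, ← Finset.sum_sub_distrib]
  refine (norm_sum_le _ _).trans ?_
  set bd : ℝ := 2 * A * (1 / (s0 : ℝ) + 12 / S) + 2 * A * S / Λ + 291 * X * s0 * S * Λ + 2 * H / A with hbd
  have h4 : ∀ r1 ∈ range q, ‖∑ r2 ∈ range q, ee ((p : ℝ) / q * ((r1 : ℝ) * r2)) * (cnt A1 A2 x H q r1 r2 : ℂ) -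
      ∑ r2 ∈ range q, ee ((p : ℝ) / q * ((r1 : ℝ) * r2)) * (c0 : ℂ)‖ ≤ q * bd := by
    intro r1 hr1
    rw [← Finset.sum_sub_distrib]
    refine (norm_sum_le _ _).trans ?_
    have h5 : ∀ r2 ∈ range q, ‖ee ((p : ℝ) / q * ((r1 : ℝ) * r2)) * (cnt A1 A2 x H q r1 r2 : ℂ) -
        ee ((p : ℝ) / q * ((r1 : ℝ) * r2)) * (c0 : ℂ)‖ ≤ bd := by
      intro r2 hr2
      rw [← mul_sub, norm_mul, norm_ee, one_mul]
      have h6 := b9 G h1 h2 h3 (r1 := r1) (r2 := r2) hH hq hqA (Finset.mem_range.1 hr1) (Finset.mem_range.1 hr2) hs0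
      have h7 : ((cnt A1 A2 x H q r1 r2 : ℂ) - (c0 : ℂ)) = (((cnt A1 A2 x H q r1 r2 : ℝ) - c0 : ℝ) : ℂ) := by
        push_cast
        rfl
      rw [h7, Complex.norm_real, Real.norm_eq_abs]
      exact h6
    refine (Finset.sum_le_sum h5).trans ?_
    rw [Finset.sum_const, Finset.card_range, nsmul_eq_mul]
  refine (Finset.sum_le_sum h4).trans ?_
  rw [Finset.sum_const, Finset.card_range, nsmul_eq_mul]
  apply le_of_eq
  ring

end Pool.Agent.Lib.H21T
end

-- from Lib.H21T.Z1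
section

/-!
# Chunk Z1 (M): the condition on b becomes a condition on a
-/

namespace Pool.Agent.Lib.H21T

open Finset Pool.Agent.SZW

/-- Both sides are sums of `ee (α a b)`: over `X = {A1 ≤ a < A2, B1 ≤ b < B2, x ≤ a b < x + H}` (`∑_m dbox m ee (α m)`, fibres over `m = a b`) and over `Y = Rg A1' A2' x H`.
`X \ Y`: for `(a, b) ∈ X`, `a B2 > a b ≥ x`, so `a ≥ x / B2 + 1` (natural division); so `a ≥ x / B1 + 1`, i.e. `a B1 > x`, and `a B1 ≤ a b < x + H`: at most `H / B1 + 1` values of `a`, each (`a ≥ A1`) for at most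
`H / A1 + 1` values of `b`. `Y \ X`: `b < B1` is impossible (`a ≤ x / B1` gives `a B1 ≤ x ≤ a b`), so `b ≥ B2`, and `x < a B2 ≤ a b < x + H`: again at most `H / B2 + 1 ≤ H / B1 + 1` values of `a`. -/
theorem z1 (A1 A2 B1 B2 x H : ℕ) (α : ℝ) (hA : 1 ≤ A1) (hB : 1 ≤ B1) (hB2 : B1 ≤ B2) (hx : 1 ≤ x) :
    ‖∑ m ∈ Ico x (x + H), (dbox A1 A2 B1 B2 m : ℂ) * ee (α * m) - SR α (max A1 (x / B2 + 1)) (min A2 (x / B1 + 1)) x H‖ ≤
      2 * (((H : ℝ) / B1 + 1) * ((H : ℝ) / A1 + 1)) := by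
  classical
  set f : ℕ × ℕ → ℂ := fun p => ee (α * ((p.1 : ℝ) * p.2)) with hf
  set X : Finset (ℕ × ℕ) := ((Ico A1 A2) ×ˢ (Ico B1 B2)).filter fun p => x ≤ p.1 * p.2 ∧ p.1 * p.2 < x + H with hX
  set A1' := max A1 (x / B2 + 1) with hA1'
  set A2' := min A2 (x / B1 + 1) with hA2'
  have hB2' : 0 < B2 := by omega
  have hmX : ∀ p : ℕ × ℕ, p ∈ X ↔ A1 ≤ p.1 ∧ p.1 < A2 ∧ B1 ≤ p.2 ∧ p.2 < B2 ∧ x ≤ p.1 * p.2 ∧ p.1 * p.2 < x + H := by
    intro p
    rw [hX, mem_filter, mem_product, mem_Ico, mem_Ico]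
    tauto
  have hA1pos : 1 ≤ A1' := by omega
  have h1 : ∑ m ∈ Ico x (x + H), (dbox A1 A2 B1 B2 m : ℂ) * ee (α * m) = ∑ p ∈ X, f p := by
    rw [← Finset.sum_fiberwise_of_maps_to (s := X) (t := Ico x (x + H)) (g := fun p : ℕ × ℕ => p.1 * p.2)
      (fun p hp => by
        have := (hmX p).1 hp
        rw [mem_Ico]
        exact ⟨this.2.2.2.2.1, this.2.2.2.2.2⟩)]
    refine Finset.sum_congr rfl fun m hm => ?_
    rw [mem_Ico] at hm
    have h2 : (X.filter fun p => p.1 * p.2 = m) = ((Ico A1 A2) ×ˢ (Ico B1 B2)).filter fun p => p.1 * p.2 = m := by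
      rw [hX, Finset.filter_filter]
      refine Finset.filter_congr fun p _ => ?_
      constructor
      · rintro ⟨_, h⟩
        exact h
      · intro h
        rw [h]
        exact ⟨hm, rfl⟩
    rw [h2]
    have h3 : ∀ p ∈ ((Ico A1 A2) ×ˢ (Ico B1 B2)).filter fun p => p.1 * p.2 = m, f p = ee (α * m) := by
      intro p hp
      rw [mem_filter] at hp
      show ee (α * ((p.1 : ℝ) * p.2)) = _
      rw [← hp.2]
      push_cast
      rfl
    rw [Finset.sum_congr rfl h3, Finset.sum_const, nsmul_eq_mul]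
    rfl
  have hSR : SR α A1' A2' x H = ∑ p ∈ Rg A1' A2' x H, f p := rfl
  rw [h1, hSR, ← Finset.sum_sdiff_sub_sum_sdiff]
  have hcard : ∀ (B : ℕ) (U : Finset (ℕ × ℕ)), B1 ≤ B → 1 ≤ B →
      (∀ p ∈ U, p ∈ Rg A1 A2 x H ∧ x ≤ B * p.1 ∧ B * p.1 < x + H) →
      (U.card : ℝ) ≤ ((H : ℝ) / B1 + 1) * ((H : ℝ) / A1 + 1) := by
    intro B U hB1 hBpos hU
    set T := (range (x + H)).filter fun a => x ≤ B * a ∧ B * a < x + H with hT
    have h2 := s4_card (A := A1) (A1 := A1) (A2 := A2) (x := x) (H := H) hA le_rfl T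
    have h3 : U ⊆ (Rg A1 A2 x H).filter fun p => p.1 ∈ T := by
      intro p hp
      obtain ⟨h4, h5, h6⟩ := hU p hp
      rw [mem_filter]
      refine ⟨h4, ?_⟩
      rw [hT, mem_filter, mem_range]
      refine ⟨?_, h5, h6⟩
      have : p.1 ≤ B * p.1 := Nat.le_mul_of_pos_left _ (by omega)
      omega
    have h4 : (T.card : ℝ) ≤ (H : ℝ) / B + 1 := s4_fib x H B hBpos
    have h5 : (H : ℝ) / B ≤ (H : ℝ) / B1 := by
      have hb1 : (0 : ℝ) < B1 := by exact_mod_cast hB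
      have hb2 : (B1 : ℝ) ≤ B := by exact_mod_cast hB1
      exact div_le_div_of_nonneg_left (Nat.cast_nonneg H) hb1 hb2
    have h6 : (U.card : ℝ) ≤ (((Rg A1 A2 x H).filter fun p => p.1 ∈ T).card : ℝ) := by
      exact_mod_cast Finset.card_le_card h3
    have h7 : (0 : ℝ) ≤ (H : ℝ) / A1 + 1 := by positivity
    calc (U.card : ℝ) ≤ T.card * ((H : ℝ) / A1 + 1) := h6.trans h2
      _ ≤ ((H : ℝ) / B1 + 1) * ((H : ℝ) / A1 + 1) := mul_le_mul_of_nonneg_right (by linarith) h7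
  have hnorm : ∀ U : Finset (ℕ × ℕ), ‖∑ p ∈ U, f p‖ ≤ U.card := by
    intro U
    refine (norm_sum_le _ _).trans ?_
    have h2 : ∀ p ∈ U, ‖f p‖ ≤ 1 := fun p _ => (norm_ee _).le
    refine (Finset.sum_le_sum h2).trans ?_
    rw [Finset.sum_const, nsmul_eq_mul, mul_one]
  have hXY : ((X \ Rg A1' A2' x H).card : ℝ) ≤ ((H : ℝ) / B1 + 1) * ((H : ℝ) / A1 + 1) := by
    refine hcard B1 _ le_rfl hB fun p hp => ?_
    rw [mem_sdiff, hmX, mem_Rg hA1pos] at hp
    obtain ⟨⟨h2, h3, h4, h5, h6, h7⟩, h8⟩ := hp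
    have h9 : p.1 * B1 ≤ p.1 * p.2 := Nat.mul_le_mul_left _ h4
    have h10 : p.1 * p.2 < p.1 * B2 := Nat.mul_lt_mul_of_pos_left h5 (by omega)
    have h11 : x / B2 < p.1 := (Nat.div_lt_iff_lt_mul hB2').2 (by omega)
    have h12 : x / B1 < p.1 := by
      by_contra hcon
      apply h8
      refine ⟨?_, ?_, h6, h7⟩ <;> omega
    have h13 : x < p.1 * B1 := (Nat.div_lt_iff_lt_mul (by omega)).1 h12
    refine ⟨(mem_Rg hA).2 ⟨h2, h3, h6, h7⟩, ?_, ?_⟩
    · rw [mul_comm]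
      omega
    · rw [mul_comm]
      omega
  have hYX : ((Rg A1' A2' x H \ X).card : ℝ) ≤ ((H : ℝ) / B1 + 1) * ((H : ℝ) / A1 + 1) := by
    refine hcard B2 _ hB2 hB2' fun p hp => ?_
    rw [mem_sdiff, hmX, mem_Rg hA1pos] at hp
    obtain ⟨⟨h2, h3, h6, h7⟩, h8⟩ := hp
    have h4 : A1 ≤ p.1 := by omega
    have h5 : p.1 < A2 := by omega
    have h9 : p.1 ≤ x / B1 := by omega
    have h10 : p.1 * B1 ≤ x := (Nat.le_div_iff_mul_le (by omega)).1 h9
    have h11 : x / B2 < p.1 := by omega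
    have h12 : x < p.1 * B2 := (Nat.div_lt_iff_lt_mul hB2').1 h11
    have h13 : B1 ≤ p.2 := by
      by_contra hcon
      have h14 : p.1 * p.2 < p.1 * B1 := Nat.mul_lt_mul_of_pos_left (not_le.1 hcon) (by omega)
      omega
    have h14 : B2 ≤ p.2 := by
      by_contra hcon
      exact h8 ⟨h4, h5, h13, not_le.1 hcon, h6, h7⟩
    have h15 : p.1 * B2 ≤ p.1 * p.2 := Nat.mul_le_mul_left _ h14
    refine ⟨(mem_Rg hA).2 ⟨h4, h5, h6, h7⟩, ?_, ?_⟩
    · rw [mul_comm]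
      omega
    · rw [mul_comm]
      omega
  refine (norm_sub_le _ _).trans ?_
  have h2 := hnorm (X \ Rg A1' A2' x H)
  have h3 := hnorm (Rg A1' A2' x H \ X)
  linarith

end Pool.Agent.Lib.H21T
end

-- from Lib.H44W.M0
section
/-!
M0: module C in the form used by psi_cf.
-/
namespace Pool.Agent.H44W
open Finset

theorem type_one_psi (n A : ℕ) (al : ℕ → ℂ) (hn : 1 ≤ n) (hal : ∀ a, ‖al a‖ ≤ 1) (W f g : ℤ → ℂ)
    (hW : ∀ x, ‖W x‖ ≤ 1) (hf : ∀ x, ‖f x‖ ≤ 1) (_hg : ∀ x, ‖g x‖ ≤ 1) :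
    ∃ th : ℝ, ‖TF n (psi A al) W f g‖ ≤
      20 * A * (1 + Real.log n) * n * ‖∑ z ∈ Icc (1:ℤ) n, g z * ee (th * z)‖ := by
  have h1 : Pool.Agent.H81E.Rep n (∑ a ∈ Icc 1 A, ‖al a‖ * 1) (fun m => ∑ a ∈ Icc 1 A, al a * (if (a:ℤ) ∣ m then 1 else 0)) :=
    Pool.Agent.H81E.Rep.sum (Icc 1 A) _ _ fun a ha =>
      (Pool.Agent.H81E.Rep.dvd n a (by rw [mem_Icc] at ha; omega)).smul (al a)
  have h2 : Pool.Agent.H81E.Rep n A (psi A al) := by
    refine (h1.congr fun m _ _ => ?_).mono ?_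
    · unfold psi
      refine sum_congr rfl fun a _ => ?_
      by_cases h : (a:ℤ) ∣ m
      · rw [if_pos h, if_pos h, mul_one]
      · rw [if_neg h, if_neg h, mul_zero]
    · refine (sum_le_sum (g := fun _ => (1:ℝ)) fun a _ => ?_).trans ?_
      · rw [mul_one]; exact hal a
      · simp
  obtain ⟨th, hth⟩ := h2.TF_le W f g hW hf
  refine ⟨th, hth.trans ?_⟩
  have hlog : 0 ≤ Real.log n := Real.log_natCast_nonneg n
  have h3 : 0 ≤ (A:ℝ) * (n * ‖∑ z ∈ Icc (1:ℤ) n, g z * ee (th * z)‖) := by positivity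
  calc (A:ℝ) * (2 * n * ‖∑ z ∈ Icc (1:ℤ) n, g z * ee (th * z)‖)
      = 2 * (A * (n * ‖∑ z ∈ Icc (1:ℤ) n, g z * ee (th * z)‖)) := by ring
    _ ≤ (20 * (1 + Real.log n)) * (A * (n * ‖∑ z ∈ Icc (1:ℤ) n, g z * ee (th * z)‖)) := by
        apply mul_le_mul_of_nonneg_right _ h3
        linarith
    _ = 20 * A * (1 + Real.log n) * n * ‖∑ z ∈ Icc (1:ℤ) n, g z * ee (th * z)‖ := by ring

end Pool.Agent.H44W
end

-- from Lib.HUK.B08
section

/-!
# HUK B08 (S/M, only Mathlib): difference of two products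

PROOF. Induction on `W` (`Finset.induction_on`): with `x = ∏_{W}(a+b)`, `y = ∏_W a`,
`(a_i + b_i) x - a_i y = b_i x + a_i (x - y)`, `|b_i x| ≤ |b_i| G^{#W}`, `|a_i (x - y)| ≤ G * G^{#W - 1} ∑ ...`. To avoid `#W - 1` the bound has
`G^{#W}` (`G ≥ 1`).
-/

open Finset

namespace Pool.Agent.HUK

theorem b08_prod {ι : Type*} (W : Finset ι) (a b : ι → ℝ) (G : ℝ) (hG : 1 ≤ G) (ha : ∀ i ∈ W, |a i| ≤ G)
    (hab : ∀ i ∈ W, |a i + b i| ≤ G) :
    |∏ i ∈ W, (a i + b i) - ∏ i ∈ W, a i| ≤ G ^ #W * ∑ i ∈ W, |b i| := by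
  classical
  have hG0 : (0 : ℝ) ≤ G := le_trans zero_le_one hG
  induction W using Finset.induction_on with
  | empty => simp
  | insert i W hi ih =>
    have ih' := ih (fun j hj => ha j (Finset.mem_insert_of_mem hj))
      (fun j hj => hab j (Finset.mem_insert_of_mem hj))
    rw [Finset.prod_insert hi, Finset.prod_insert hi, Finset.sum_insert hi,
      Finset.card_insert_of_notMem hi]
    set x := ∏ j ∈ W, (a j + b j) with hx
    set y := ∏ j ∈ W, a j with hy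
    have h1 : |x| ≤ G ^ #W := by
      rw [hx, Finset.abs_prod]
      calc ∏ j ∈ W, |a j + b j| ≤ ∏ _j ∈ W, G :=
            Finset.prod_le_prod (fun j _ => abs_nonneg _)
              (fun j hj => hab j (Finset.mem_insert_of_mem hj))
        _ = G ^ #W := by rw [Finset.prod_const]
    have h2 : |a i| ≤ G := ha i (Finset.mem_insert_self i W)
    have h3 : (a i + b i) * x - a i * y = b i * x + a i * (x - y) := by ring
    have h4 : (0 : ℝ) ≤ G ^ #W := pow_nonneg hG0 _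
    have h5 : (0 : ℝ) ≤ ∑ j ∈ W, |b j| := Finset.sum_nonneg fun j _ => abs_nonneg _
    rw [h3]
    calc |b i * x + a i * (x - y)| ≤ |b i * x| + |a i * (x - y)| := abs_add_le _ _
      _ = |b i| * |x| + |a i| * |x - y| := by rw [abs_mul, abs_mul]
      _ ≤ |b i| * G ^ #W + G * (G ^ #W * ∑ j ∈ W, |b j|) := by
          apply add_le_add
          · exact mul_le_mul_of_nonneg_left h1 (abs_nonneg _)
          · exact mul_le_mul h2 ih' (abs_nonneg _) hG0
      _ ≤ G ^ (#W + 1) * (|b i| + ∑ j ∈ W, |b j|) := by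
          rw [pow_succ]
          have h6 : |b i| * G ^ #W ≤ |b i| * G ^ #W * G :=
            le_mul_of_one_le_right (mul_nonneg (abs_nonneg _) h4) hG
          nlinarith [h6]

end Pool.Agent.HUK
end

-- from Lib.HUK.B02
section

/-!
# HUK B02 (M, only Mathlib): the decomposition `1 = s + u * v + η`

PROOF. For `d ≥ 1` the pairs `(p, e)` with `p e = d`, `p ∈ PA A` are the `p ∈ PA A` with `p ∣ d`, `e = d / p`, and then
`D < e A ↔ p D < d A` (multiply by `p > 0`). So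
`∑_{(p,e)} uu p * vv e = (1/S) ∑_{p ∈ PA, p ∣ d} 1_{pD < dA}` (`Nat.sum_divisorsAntidiagonal`, or `Finset.sum_bij`), and
`sml + this + eta = 1 - (1/S) ∑_p 1_{pD<dA}/p + (1/S) ∑_p 1_{pD<dA} 1_{p∣d} - (1/S) ∑_p 1_{pD<dA} (1_{p∣d} - 1/p) = 1`.
`b02_log`: multiply by `log d` and use `log d = log p + log e` for `p e = d` (all non-zero).
-/

open Finset

namespace Pool.Agent.HUK

/-- The divisor sum of a function of the first factor times `v` of the second. -/
theorem b02_sum (A D d : ℕ) (hd : 1 ≤ d) (f : ℕ → ℕ → ℝ) :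
    ∑ x ∈ d.divisorsAntidiagonal, uu A x.1 * vv A D x.2 * f x.1 x.2 =
      (1 / SA A) * ∑ p ∈ PA A, if p * D < d * A then (if p ∣ d then f p (d / p) else 0) else 0 := by
  have h1 : ∀ x ∈ d.divisorsAntidiagonal, uu A x.1 * vv A D x.2 * f x.1 x.2 =
      if x.1 ∈ PA A then (1 / SA A) * (if x.1 * D < d * A then f x.1 x.2 else 0) else 0 := by
    intro x hx
    obtain ⟨hx1, hx2⟩ := Nat.mem_divisorsAntidiagonal.1 hx
    have hp : 0 < x.1 := Nat.pos_of_ne_zero (by rintro h; rw [h, zero_mul] at hx1; omega)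
    have hiff : D < x.2 * A ↔ x.1 * D < d * A := by
      rw [← hx1, mul_assoc]
      exact (Nat.mul_lt_mul_left hp).symm
    by_cases h : x.1 ∈ PA A
    · by_cases h' : D < x.2 * A
      · rw [uu, vv, if_pos h, if_pos h', if_pos h, if_pos (hiff.1 h'), mul_one]
      · rw [uu, vv, if_pos h, if_neg h', if_pos h, if_neg (fun h2 => h' (hiff.2 h2))]
        ring
    · rw [uu, if_neg h, if_neg h, zero_mul, zero_mul]
  rw [Finset.sum_congr rfl h1]
  have h2 := Nat.sum_divisorsAntidiagonal (f := fun p e => if p ∈ PA A then (1 / SA A) * (if p * D < d * A then f p e else 0) else 0) (n := d)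
  rw [h2, Finset.mul_sum, ← Finset.sum_filter]
  have h3 : (∑ p ∈ PA A, (1 / SA A) * (if p * D < d * A then (if p ∣ d then f p (d / p) else 0) else 0)) =
      ∑ p ∈ (PA A).filter (fun p => p ∣ d), (1 / SA A) * (if p * D < d * A then f p (d / p) else 0) := by
    rw [Finset.sum_filter]
    refine Finset.sum_congr rfl fun p _ => ?_
    by_cases h : p ∣ d
    · simp [h]
    · simp [h]
  rw [h3]
  refine Finset.sum_congr ?_ fun _ _ => rfl
  ext p
  simp only [Finset.mem_filter, Nat.mem_divisors]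
  constructor
  · rintro ⟨⟨h, _⟩, h'⟩
    exact ⟨h', h⟩
  · rintro ⟨h, h'⟩
    exact ⟨⟨h', by omega⟩, h⟩

/-- `1 = s + u * v + η`. -/
theorem b02_one (A D d : ℕ) (hS : 0 < SA A) (hd : 1 ≤ d) :
    (1 : ℝ) = sml A D d + ∑ x ∈ d.divisorsAntidiagonal, uu A x.1 * vv A D x.2 + eta A D d := by
  have h1 : ∑ x ∈ d.divisorsAntidiagonal, uu A x.1 * vv A D x.2 =
      (1 / SA A) * ∑ p ∈ PA A, if p * D < d * A then (if p ∣ d then (1 : ℝ) else 0) else 0 := by
    have h := b02_sum A D d hd (fun _ _ => 1)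
    simp only [mul_one] at h
    exact h
  have h2 : ∑ p ∈ PA A, eprime A D p d =
      (∑ p ∈ PA A, if p * D < d * A then (if p ∣ d then (1 : ℝ) else 0) else 0) -
        ∑ p ∈ PA A, if p * D < d * A then 1 / (p : ℝ) else 0 := by
    rw [← Finset.sum_sub_distrib]
    refine Finset.sum_congr rfl fun p _ => ?_
    rw [eprime]
    by_cases h : p * D < d * A
    · rw [if_pos h, if_pos h, if_pos h]
    · rw [if_neg h, if_neg h, if_neg h, sub_zero]
  rw [h1, sml, ell, eta, h2]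
  ring

/-- `log = s log + (u log) * v + u * (v log) + η log`. -/
theorem b02_log (A D d : ℕ) (hS : 0 < SA A) (hd : 1 ≤ d) :
    Real.log d = sml A D d * Real.log d
      + ∑ x ∈ d.divisorsAntidiagonal, uu A x.1 * Real.log x.1 * vv A D x.2
      + ∑ x ∈ d.divisorsAntidiagonal, uu A x.1 * (vv A D x.2 * Real.log x.2) + eta A D d * Real.log d := by
  have h1 := b02_one A D d hS hd
  have h2 : (∑ x ∈ d.divisorsAntidiagonal, uu A x.1 * Real.log x.1 * vv A D x.2) +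
      ∑ x ∈ d.divisorsAntidiagonal, uu A x.1 * (vv A D x.2 * Real.log x.2) =
      (∑ x ∈ d.divisorsAntidiagonal, uu A x.1 * vv A D x.2) * Real.log d := by
    rw [← Finset.sum_add_distrib, Finset.sum_mul]
    refine Finset.sum_congr rfl fun x hx => ?_
    obtain ⟨hx1, hx2⟩ := Nat.mem_divisorsAntidiagonal.1 hx
    have ha : (x.1 : ℝ) ≠ 0 := by
      rintro h
      rw [Nat.cast_eq_zero] at h
      rw [h, zero_mul] at hx1
      omega
    have hb : (x.2 : ℝ) ≠ 0 := by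
      rintro h
      rw [Nat.cast_eq_zero] at h
      rw [h, mul_zero] at hx1
      omega
    have h3 : Real.log d = Real.log x.1 + Real.log x.2 := by
      rw [← hx1, Nat.cast_mul, Real.log_mul ha hb]
    rw [h3]
    ring
  have h4 : Real.log d = (sml A D d + ∑ x ∈ d.divisorsAntidiagonal, uu A x.1 * vv A D x.2 + eta A D d) * Real.log d := by
    rw [← h1, one_mul]
  calc Real.log d = (sml A D d + ∑ x ∈ d.divisorsAntidiagonal, uu A x.1 * vv A D x.2 + eta A D d) * Real.log d := h4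
    _ = sml A D d * Real.log d + (∑ x ∈ d.divisorsAntidiagonal, uu A x.1 * vv A D x.2) * Real.log d
        + eta A D d * Real.log d := by ring
    _ = _ := by rw [← h2]; ring

end Pool.Agent.HUK
end

-- from Lib.HUK.B03
section

/-!
# HUK B03 (S/M, only Mathlib): simple properties of `s`, `u`, `v`, `η`

PROOFS. `sml`: for `d > 4D` every `p ∈ PA A` has `p D ≤ 4 A D < d A` (`A > 0` as `SA A > 0` forces `PA A` non-empty; if `D = 0`
the claim is `0 < dA`), so `ell = (1/S) S = 1`. `0 ≤ ell ≤ 1`: the sum is over a subset of terms of `S`, all `≥ 0`.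
`eta_supp`: some term is non-zero, so `p D < d A` with `p > A`, hence `D < d`.
`b03_ge`: for `0 ≤ lo` the two definitions agree term by term (casts of `<`, `∣`).
-/

open Finset

namespace Pool.Agent.HUK

theorem b03_mem (A p : ℕ) (hp : p ∈ PA A) : A < p ∧ p ≤ 4 * A ∧ p.Prime := by
  unfold PA at hp
  rw [mem_filter, mem_Ioc] at hp
  exact ⟨hp.1.1, hp.1.2, hp.2⟩

theorem b03_ell_mem (A D d : ℕ) (hS : 0 < SA A) : 0 ≤ ell A D d ∧ ell A D d ≤ 1 := by
  unfold ell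
  have hinv : 0 ≤ 1 / SA A := by positivity
  have h1 : (∑ p ∈ PA A, if p * D < d * A then 1 / (p : ℝ) else 0) ≤ SA A := by
    unfold SA
    refine sum_le_sum fun p _ => ?_
    split_ifs
    · exact le_rfl
    · positivity
  refine ⟨mul_nonneg hinv (sum_nonneg fun p _ => by split_ifs <;> positivity), ?_⟩
  calc 1 / SA A * (∑ p ∈ PA A, if p * D < d * A then 1 / (p : ℝ) else 0) ≤ 1 / SA A * SA A :=
        mul_le_mul_of_nonneg_left h1 hinv
    _ = 1 := by field_simp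

theorem b03_sml_zero (A D d : ℕ) (hS : 0 < SA A) (hd : 4 * D < d) : sml A D d = 0 := by
  have hell : ell A D d = 1 := by
    unfold ell
    have h1 : (∑ p ∈ PA A, if p * D < d * A then 1 / (p : ℝ) else 0) = SA A := by
      unfold SA
      refine sum_congr rfl fun p hp => ?_
      obtain ⟨h1, h2, h3⟩ := b03_mem A p hp
      have hA : 0 < A := by omega
      have h4 : p * D < d * A := by
        calc p * D ≤ 4 * A * D := Nat.mul_le_mul_right _ h2
          _ = 4 * D * A := by ring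
          _ < d * A := Nat.mul_lt_mul_of_pos_right hd hA
      rw [if_pos h4]
    rw [h1]
    field_simp
  unfold sml
  rw [hell]
  norm_num

theorem b03_sml_mem (A D d : ℕ) (hS : 0 < SA A) : 0 ≤ sml A D d ∧ sml A D d ≤ 1 := by
  obtain ⟨h1, h2⟩ := b03_ell_mem A D d hS
  unfold sml
  constructor <;> linarith

theorem b03_uu_supp (A p : ℕ) (h : uu A p ≠ 0) : A < p ∧ p ≤ 4 * A := by
  unfold uu at h
  by_cases hp : p ∈ PA A
  · exact ⟨(b03_mem A p hp).1, (b03_mem A p hp).2.1⟩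
  · rw [if_neg hp] at h
    exact absurd rfl h

theorem b03_uu_mem (A p : ℕ) : 0 ≤ uu A p ∧ uu A p ≤ 1 / SA A := by
  have hS : 0 ≤ SA A := by
    unfold SA
    exact sum_nonneg fun p _ => by positivity
  have hinv : 0 ≤ 1 / SA A := by positivity
  unfold uu
  split_ifs
  · exact ⟨hinv, le_rfl⟩
  · exact ⟨le_rfl, hinv⟩

theorem b03_vv_mem (A D e : ℕ) : 0 ≤ vv A D e ∧ vv A D e ≤ 1 := by
  unfold vv
  split_ifs
  · exact ⟨zero_le_one, le_rfl⟩
  · exact ⟨le_rfl, zero_le_one⟩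

/-- `η` is supported on `d > D`. -/
theorem b03_eta_supp (A D d : ℕ) (h : eta A D d ≠ 0) : D < d := by
  by_contra hc
  apply h
  unfold eta
  have h0 : ∑ p ∈ PA A, eprime A D p d = 0 := by
    refine sum_eq_zero fun p hp => ?_
    obtain ⟨h1, h2, h3⟩ := b03_mem A p hp
    unfold eprime
    have h4 : ¬ (p * D < d * A) := by
      push Not at hc ⊢
      calc d * A ≤ D * p := Nat.mul_le_mul hc h1.le
        _ = p * D := Nat.mul_comm _ _
    rw [if_neg h4]
  rw [h0, mul_zero]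

/-- `ge` is `η` cut to `(lo, hi]`. -/
theorem b03_ge (A D d : ℕ) (lo : ℕ) (hi : ℤ) : ge A D lo hi d = if lo < d ∧ (d : ℤ) ≤ hi then eta A D d else 0 := by
  unfold ge eta
  by_cases hc : lo < d ∧ (d : ℤ) ≤ hi
  · rw [if_pos hc]
    congr 1
    refine sum_congr rfl fun p _ => ?_
    unfold gp eprime
    by_cases h1 : p * D < d * A
    · have h2 : (lo : ℤ) < (d : ℤ) ∧ (d : ℤ) ≤ hi ∧ (p : ℤ) * D < (d : ℤ) * A := by
        refine ⟨by exact_mod_cast hc.1, hc.2, by exact_mod_cast h1⟩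
      rw [if_pos h1, if_pos h2]
      by_cases h3 : p ∣ d
      · have h4 : (p : ℤ) ∣ (d : ℤ) := by exact_mod_cast h3
        rw [if_pos h3, if_pos h4]
      · have h4 : ¬ (p : ℤ) ∣ (d : ℤ) := by
          intro h5
          exact h3 (by exact_mod_cast h5)
        rw [if_neg h3, if_neg h4]
    · have h2 : ¬ ((lo : ℤ) < (d : ℤ) ∧ (d : ℤ) ≤ hi ∧ (p : ℤ) * D < (d : ℤ) * A) := by
        intro h5
        exact h1 (by exact_mod_cast h5.2.2)
      rw [if_neg h1, if_neg h2]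
  · rw [if_neg hc]
    have h0 : ∑ p ∈ PA A, gp A D p lo hi d = 0 := by
      refine sum_eq_zero fun p _ => ?_
      unfold gp
      rw [if_neg]
      intro h5
      exact hc ⟨by exact_mod_cast h5.1, h5.2.1⟩
    rw [h0, mul_zero]

end Pool.Agent.HUK
end
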