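import Mathlib
import Pool.Agent.Lib.H59M.M1.M002
import Pool.Agent.Lib.H59M.M1.M021
import Pool.Agent.Lib.H59M.M1.M026

/-! Merged copies (to shorten the build) of Lib.H3B.CS, Lib.H3B.SY, Lib.H3B.TP, Lib.H3B.S2A, Lib.H3B.D0, Lib.H3B.S0B, Lib.H3B.S0A, Lib.H3B.S0C, Lib.H3B.S0D, Lib.H81A.NU. -/

-- from Lib.H3B.CS
section

/-! # H3B (MP_443e5f, candidate T, module B), chunk CS -/

namespace Pool.Agent.H3B

open Finset
open Pool.Agent.H44W (ee TF cut)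

theorem cs_sq {n : ℕ} (hn : 1 ≤ n) {g : ℤ → ℂ} (hg : ∀ z, ‖g z‖ ≤ 1) (hs : Sp n g) (Z : Finset ℤ)
    (hZ : Icc (-(n : ℤ)) n ⊆ Z) : ∑ y ∈ Z, ‖g y‖ ^ 2 ≤ 3 * (n : ℝ) := by
  have h1 : ∑ y ∈ Z, ‖g y‖ ^ 2 = ∑ y ∈ Icc (-(n : ℤ)) n, ‖g y‖ ^ 2 := by
    symm
    refine sum_subset hZ fun y _ hy => ?_
    have h2 : g y = 0 := by
      by_contra h0
      exact hy (mem_Icc.2 (abs_le.1 (hs y h0)))
    rw [h2]
    simp
  have h2 : ∑ y ∈ Icc (-(n : ℤ)) n, ‖g y‖ ^ 2 ≤ ∑ _y ∈ Icc (-(n : ℤ)) n, (1 : ℝ) :=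
    sum_le_sum fun y _ => pow_le_one₀ (norm_nonneg _) (hg y)
  rw [h1]
  refine h2.trans ?_
  rw [sum_const, Int.card_Icc, nsmul_eq_mul, mul_one]
  have h3 : (n : ℤ) + 1 - -(n : ℤ) = ((2 * n + 1 : ℕ) : ℤ) := by push_cast; ring
  rw [h3, Int.toNat_natCast]
  push_cast
  have h4 : (1 : ℝ) ≤ n := by exact_mod_cast hn
  linarith

/-- Chunk CS (M). Cauchy-Schwarz removing g(y). PROOF. The left side is |∑' y, g y * V y|², V y = ∑_{a in s} conj g (y + q a) * v a y (finite sums). ≤ (∑ |g|²)(∑' y, |V y|²), ∑ |g|² ≤ 2 n + 1 ≤ 3 n,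
and ∑' y, |V y|² = ∑_{a, a'} ∑' y, conj g (y + q a) g (y + q a') v a y conj v a' y (all have finite support, Sp.shift). -/
theorem CSg {n : ℕ} (hn : 1 ≤ n) {g : ℤ → ℂ} (hg : ∀ z, ‖g z‖ ≤ 1) (hs : Sp n g) {ι : Type} (s : Finset ι) (q : ι → ℤ) (v : ι → ℤ → ℂ) :
    ‖∑ a ∈ s, ∑' y : ℤ, Gd g (q a) y * v a y‖ ^ 2 ≤ 3 * n * ∑ a ∈ s, ∑ a' ∈ s,
      ‖∑' y : ℤ, (starRingEnd ℂ) (g (y + q a)) * g (y + q a') * (v a y * (starRingEnd ℂ) (v a' y))‖ := by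
  obtain ⟨T, hT⟩ : ∃ T : ℕ, ∀ a ∈ s, (q a).natAbs ≤ T :=
    ⟨∑ a ∈ s, (q a).natAbs, fun a ha => single_le_sum (f := fun a => (q a).natAbs) (fun _ _ => Nat.zero_le _) ha⟩
  obtain ⟨Z, hZd⟩ : ∃ Z : Finset ℤ, Z = Icc (-((n + T : ℕ) : ℤ)) ((n + T : ℕ) : ℤ) := ⟨_, rfl⟩
  have hZ : Icc (-(n : ℤ)) n ⊆ Z := by
    rw [hZd]
    apply Icc_subset_Icc <;> push_cast <;> omega
  have hz : ∀ y ∉ Z, g y = 0 := by
    intro y hy
    by_contra h0
    exact hy (hZ (mem_Icc.2 (abs_le.1 (hs y h0))))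
  have hzq : ∀ a ∈ s, ∀ y ∉ Z, g (y + q a) = 0 := by
    intro a ha y hy
    by_contra h0
    have h1 := abs_le.1 (hs _ h0)
    have h2 := hT a ha
    apply hy
    rw [hZd, mem_Icc]
    push_cast
    omega
  have e1 : ∑ a ∈ s, ∑' y : ℤ, Gd g (q a) y * v a y =
      ∑ y ∈ Z, g y * ∑ a ∈ s, (starRingEnd ℂ) (g (y + q a)) * v a y := by
    have h1 : ∀ a ∈ s, ∑' y : ℤ, Gd g (q a) y * v a y = ∑ y ∈ Z, Gd g (q a) y * v a y := by
      intro a _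
      refine tsum_eq_sum fun y hy => ?_
      unfold Gd
      rw [hz y hy]
      ring
    rw [sum_congr rfl h1, sum_comm]
    refine sum_congr rfl fun y _ => ?_
    rw [mul_sum]
    refine sum_congr rfl fun a _ => ?_
    unfold Gd
    ring
  obtain ⟨V, hV⟩ : ∃ V : ℤ → ℂ, ∀ y, V y = ∑ a ∈ s, (starRingEnd ℂ) (g (y + q a)) * v a y := ⟨_, fun _ => rfl⟩
  have e1' : ∑ a ∈ s, ∑' y : ℤ, Gd g (q a) y * v a y = ∑ y ∈ Z, g y * V y := by
    rw [e1]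
    exact sum_congr rfl fun y _ => by rw [hV y]
  have e2 : ((∑ y ∈ Z, ‖V y‖ ^ 2 : ℝ) : ℂ) = ∑ a ∈ s, ∑ a' ∈ s,
      ∑' y : ℤ, (starRingEnd ℂ) (g (y + q a)) * g (y + q a') * (v a y * (starRingEnd ℂ) (v a' y)) := by
    have h1 : ∀ a ∈ s, ∀ a' ∈ s,
        ∑' y : ℤ, (starRingEnd ℂ) (g (y + q a)) * g (y + q a') * (v a y * (starRingEnd ℂ) (v a' y)) =
        ∑ y ∈ Z, (starRingEnd ℂ) (g (y + q a)) * g (y + q a') * (v a y * (starRingEnd ℂ) (v a' y)) := by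
      intro a ha a' _
      refine tsum_eq_sum fun y hy => ?_
      rw [hzq a ha y hy]
      simp
    rw [sum_congr rfl fun a ha => sum_congr rfl fun a' ha' => h1 a ha a' ha']
    push_cast
    have h2 : ∀ y ∈ Z, ((‖V y‖ : ℝ) : ℂ) ^ 2 =
        ∑ a ∈ s, ∑ a' ∈ s, (starRingEnd ℂ) (g (y + q a)) * g (y + q a') * (v a y * (starRingEnd ℂ) (v a' y)) := by
      intro y _
      rw [← Complex.mul_conj', hV y, map_sum, sum_mul_sum]
      refine sum_congr rfl fun a _ => sum_congr rfl fun a' _ => ?_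
      rw [map_mul, Complex.conj_conj]
      ring
    rw [sum_congr rfl h2, sum_comm]
    refine sum_congr rfl fun a _ => ?_
    rw [sum_comm]
  have e3 : ∑ y ∈ Z, ‖V y‖ ^ 2 ≤ ∑ a ∈ s, ∑ a' ∈ s,
      ‖∑' y : ℤ, (starRingEnd ℂ) (g (y + q a)) * g (y + q a') * (v a y * (starRingEnd ℂ) (v a' y))‖ := by
    have h0 : 0 ≤ ∑ y ∈ Z, ‖V y‖ ^ 2 := sum_nonneg fun _ _ => sq_nonneg _
    have h1 : ∑ y ∈ Z, ‖V y‖ ^ 2 = ‖((∑ y ∈ Z, ‖V y‖ ^ 2 : ℝ) : ℂ)‖ := by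
      rw [Complex.norm_real, Real.norm_of_nonneg h0]
    rw [h1, e2]
    refine (norm_sum_le _ _).trans (sum_le_sum fun a _ => ?_)
    exact norm_sum_le _ _
  have e4 : ‖∑ y ∈ Z, g y * V y‖ ^ 2 ≤ (∑ y ∈ Z, ‖g y‖ ^ 2) * ∑ y ∈ Z, ‖V y‖ ^ 2 := by
    have h1 : ‖∑ y ∈ Z, g y * V y‖ ≤ ∑ y ∈ Z, ‖g y‖ * ‖V y‖ := by
      refine (norm_sum_le _ _).trans (le_of_eq (sum_congr rfl fun y _ => ?_))
      rw [norm_mul]
    exact (pow_le_pow_left₀ (norm_nonneg _) h1 2).trans (sum_mul_sq_le_sq_mul_sq _ _ _)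
  rw [e1']
  refine e4.trans ?_
  have h5 : 0 ≤ ∑ y ∈ Z, ‖V y‖ ^ 2 := sum_nonneg fun _ _ => sq_nonneg _
  calc (∑ y ∈ Z, ‖g y‖ ^ 2) * ∑ y ∈ Z, ‖V y‖ ^ 2 ≤ 3 * n * ∑ y ∈ Z, ‖V y‖ ^ 2 :=
        mul_le_mul_of_nonneg_right (cs_sq hn hg hs Z hZ) h5
    _ ≤ _ := mul_le_mul_of_nonneg_left e3 (by positivity)

end Pool.Agent.H3B
end

-- from Lib.H3B.SY
section

/-! # H3B (MP_443e5f, candidate T, module B), chunk SY -/

namespace Pool.Agent.H3B

open Finset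
open Pool.Agent.H44W (ee TF cut)

/-- Chunk SYa (S). PROOF. tsum_congr; both terms are g y conj g (y + d) conj g (y + q) g (y + d + q). -/
theorem R_symm (g : ℤ → ℂ) (d q : ℤ) : R (Gd g d) q = R (Gd g q) d := by
  unfold R Gd
  refine tsum_congr fun y => ?_
  rw [map_mul, map_mul, Complex.conj_conj, Complex.conj_conj]
  have h1 : y + q + d = y + d + q := by ring
  rw [h1]
  ring

/-- Chunk SYb (S). -/
theorem R_bound {n : ℕ} {g : ℤ → ℂ} (h : Sp n g) (hg : ∀ z, ‖g z‖ ≤ 1) (hn : 1 ≤ n) (d q : ℤ) : ‖R (Gd g d) q‖ ≤ 3 * n := by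
  have h1 : Sp n (fun y => Gd g d y * (starRingEnd ℂ) (Gd g d (y + q))) := (h.Gd d).mul_right _
  have h2 := h1.norm_tsum_le (b := 1) (fun y => by
    rw [norm_mul, RCLike.norm_conj]
    exact mul_le_one₀ (Gd_norm hg _ _) (norm_nonneg _) (Gd_norm hg _ _))
  unfold R
  refine h2.trans ?_
  have h3 : (1 : ℝ) ≤ n := by exact_mod_cast hn
  linarith

/-- Chunk SYc (S). g y and g (y + q) are not both nonzero. -/
theorem R_zero {n : ℕ} {g : ℤ → ℂ} (h : Sp n g) {d q : ℤ} (hq : 2 * (n : ℤ) < |q|) : R (Gd g d) q = 0 := by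
  unfold R
  have h1 : ∀ y, Gd g d y * (starRingEnd ℂ) (Gd g d (y + q)) = 0 := by
    intro y
    by_contra h0
    have h2 : Gd g d y ≠ 0 := left_ne_zero_of_mul h0
    have h3 : Gd g d (y + q) ≠ 0 := by
      intro h4
      apply h0
      rw [h4, map_zero, mul_zero]
    have h4 := h.Gd d y h2
    have h5 := h.Gd d (y + q) h3
    have h6 : |q| ≤ |y + q| + |y| := by
      have := abs_sub (y + q) y
      simpa using this
    omega
  simp only [h1, tsum_zero]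


end Pool.Agent.H3B
end

-- from Lib.H3B.TP
section

/-! # H3B (MP_443e5f, candidate T, module B), chunk TP -/

namespace Pool.Agent.H3B

open Finset
open Pool.Agent.H44W (ee TF cut)

theorem tp_pow (x : ℝ) (i : ℕ) : ee (i * x) = ee x ^ i := by
  induction i with
  | zero => simp [ee_zero]
  | succ i ih =>
    rw [pow_succ, ← ih, ← ee_add]
    congr 1
    push_cast
    ring

/-- orthogonality -/
theorem tp_orth (Q : ℕ) (hQ : 0 < Q) (t : ℤ) (ht : |t| < Q) :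
    ∑ i ∈ range Q, ee ((i : ℝ) / Q * t) = if t = 0 then (Q : ℂ) else 0 := by
  have hQ0 : (Q : ℝ) ≠ 0 := by exact_mod_cast hQ.ne'
  have e1 : ∀ i : ℕ, ee ((i : ℝ) / Q * t) = ee (t / Q) ^ i := by
    intro i
    rw [← tp_pow]
    congr 1
    ring
  rw [Finset.sum_congr rfl fun i _ => e1 i]
  split_ifs with h
  · rw [h]
    simp [ee_zero]
  · have h1 : ee ((t : ℝ) / Q) ≠ 1 := by
      intro h2
      unfold ee at h2
      rw [Complex.exp_eq_one_iff] at h2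
      obtain ⟨k, hk⟩ := h2
      have h3 : ((t : ℝ) / Q : ℝ) = k := by
        have h4 : (2 * Real.pi * Complex.I : ℂ) ≠ 0 := by
          have hpi : (Real.pi : ℂ) ≠ 0 := by exact_mod_cast Real.pi_ne_zero
          exact mul_ne_zero (mul_ne_zero two_ne_zero hpi) Complex.I_ne_zero
        have h5 : (((t : ℝ) / Q : ℝ) : ℂ) * (2 * Real.pi * Complex.I) = k * (2 * Real.pi * Complex.I) := by
          rw [← hk]
          ring
        have h6 := mul_right_cancel₀ h4 h5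
        exact_mod_cast h6
      rw [div_eq_iff hQ0] at h3
      have h4 : t = k * Q := by exact_mod_cast h3
      rw [h4, abs_mul, Nat.abs_cast] at ht
      have h5 : |k| < 1 := by
        by_contra h6
        have h7 : 1 ≤ |k| := not_lt.1 h6
        nlinarith
      have h6 : k = 0 := Int.abs_lt_one_iff.1 h5
      rw [h6, zero_mul] at h4
      exact h h4
    rw [geom_sum_eq h1, ← tp_pow]
    have e2 : (Q : ℝ) * ((t : ℝ) / Q) = t := by field_simp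
    rw [e2, ee_int, sub_self, zero_div]

/-- Parseval -/
theorem tp_pars (Q : ℕ) (hQ : 0 < Q) (S : Finset ℤ) (B : ℤ → ℂ) (hS : ∀ b ∈ S, ∀ b' ∈ S, |b' - b| < (Q : ℤ)) :
    ∑ i ∈ range Q, ‖∑ b ∈ S, B b * ee ((i : ℝ) / Q * b)‖ ^ 2 = Q * ∑ b ∈ S, ‖B b‖ ^ 2 := by
  have e0 : ((∑ i ∈ range Q, ‖∑ b ∈ S, B b * ee ((i : ℝ) / Q * b)‖ ^ 2 : ℝ) : ℂ) =
      ((Q * ∑ b ∈ S, ‖B b‖ ^ 2 : ℝ) : ℂ) := by
    rw [Complex.ofReal_sum]
    have e1 : ∀ i ∈ range Q, ((‖∑ b ∈ S, B b * ee ((i : ℝ) / Q * b)‖ ^ 2 : ℝ) : ℂ) =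
        ∑ b' ∈ S, ∑ b ∈ S, (B b' * (starRingEnd ℂ) (B b)) * ee ((i : ℝ) / Q * ((b' - b : ℤ) : ℝ)) := by
      intro i _
      rw [← Complex.normSq_eq_norm_sq, ← Complex.mul_conj, map_sum, Finset.sum_mul_sum]
      refine Finset.sum_congr rfl fun b' _ => Finset.sum_congr rfl fun b _ => ?_
      rw [map_mul, ee_conj]
      have e2 : ee ((i : ℝ) / Q * ((b' - b : ℤ) : ℝ)) = ee ((i : ℝ) / Q * b') * ee (-((i : ℝ) / Q * b)) := by
        rw [← ee_add]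
        congr 1
        push_cast
        ring
      rw [e2]
      ring
    rw [Finset.sum_congr rfl e1, Finset.sum_comm]
    have e3 : ∀ b' ∈ S, ∑ i ∈ range Q, ∑ b ∈ S, (B b' * (starRingEnd ℂ) (B b)) *
        ee ((i : ℝ) / Q * ((b' - b : ℤ) : ℝ)) = Q * (B b' * (starRingEnd ℂ) (B b')) := by
      intro b' hb'
      rw [Finset.sum_comm]
      have e4 : ∀ b ∈ S, ∑ i ∈ range Q, (B b' * (starRingEnd ℂ) (B b)) *
          ee ((i : ℝ) / Q * ((b' - b : ℤ) : ℝ)) = if b = b' then Q * (B b' * (starRingEnd ℂ) (B b')) else 0 := by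
        intro b hb
        rw [← Finset.mul_sum, tp_orth Q hQ (b' - b) (hS b hb b' hb')]
        by_cases h : b = b'
        · rw [if_pos (sub_eq_zero.2 h.symm), if_pos h, h]
          ring
        · rw [if_neg (fun h' => h (sub_eq_zero.1 h').symm), if_neg h, mul_zero]
      rw [Finset.sum_congr rfl e4, Finset.sum_ite_eq' S b', if_pos hb']
    rw [Finset.sum_congr rfl e3, ← Finset.mul_sum]
    push_cast
    congr 1
    refine Finset.sum_congr rfl fun b _ => ?_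
    rw [Complex.mul_conj, Complex.normSq_eq_norm_sq]
    push_cast
    rfl
  exact_mod_cast e0

/-- inversion -/
theorem tp_inv (Q : ℕ) (hQ : 0 < Q) {N : ℕ} {ρ : ℤ → ℂ} (hρ : ∀ l, l ∉ Icc (-(N : ℤ)) N → ρ l = 0) (En : ℝ → ℝ)
    (hexp : ∀ φ, ((En φ : ℝ) : ℂ) = ∑ l ∈ Icc (-(N : ℤ)) N, ρ l * ee (φ * l)) (h : ℤ)
    (hh : ∀ l ∈ Icc (-(N : ℤ)) N, |l - h| < (Q : ℤ)) :
    ∑ i ∈ range Q, ((En ((i : ℝ) / Q) : ℝ) : ℂ) * ee (-((i : ℝ) / Q * h)) = Q * ρ h := by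
  have e1 : ∀ i ∈ range Q, ((En ((i : ℝ) / Q) : ℝ) : ℂ) * ee (-((i : ℝ) / Q * h)) =
      ∑ l ∈ Icc (-(N : ℤ)) N, ρ l * ee ((i : ℝ) / Q * ((l - h : ℤ) : ℝ)) := by
    intro i _
    rw [hexp, Finset.sum_mul]
    refine Finset.sum_congr rfl fun l _ => ?_
    rw [mul_assoc, ← ee_add]
    congr 2
    push_cast
    ring
  rw [Finset.sum_congr rfl e1, Finset.sum_comm]
  have e2 : ∀ l ∈ Icc (-(N : ℤ)) N, ∑ i ∈ range Q, ρ l * ee ((i : ℝ) / Q * ((l - h : ℤ) : ℝ)) =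
      if l = h then Q * ρ h else 0 := by
    intro l hl
    rw [← Finset.mul_sum, tp_orth Q hQ (l - h) (hh l hl)]
    by_cases h1 : l = h
    · rw [if_pos (sub_eq_zero.2 h1), if_pos h1, h1]
      ring
    · rw [if_neg (fun h' => h1 (sub_eq_zero.1 h')), if_neg h1, mul_zero]
  rw [Finset.sum_congr rfl e2, Finset.sum_ite_eq']
  split_ifs with h3
  · rfl
  · rw [hρ h h3, mul_zero]

/-- an upper bound for the elements -/
theorem tp_size (T : Finset ℤ) (h : ℤ) (hh : h ∈ T) : |h| ≤ ((∑ x ∈ T, x.natAbs : ℕ) : ℤ) := by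
  have h1 : h.natAbs ≤ ∑ x ∈ T, x.natAbs := Finset.single_le_sum (f := fun x : ℤ => x.natAbs) (fun _ _ => Nat.zero_le _) hh
  have h2 : |h| = (h.natAbs : ℤ) := Int.abs_eq_natAbs h
  rw [h2]
  exact_mod_cast h1

/-- Chunk TP1 (M). PROOF. Choose Q = 2 N + 1 + (bound for the elements of T) large: Q greater than |l - h| for all l in Icc (-N) N and h in T or in Icc (-N) N. Orthogonality:
∑_{i < Q} ee (i t / Q) = Q if Q divides t, else 0 (geometric sum); so ρ h = (1/Q) ∑_i En (i/Q) ee (-i h/Q) for h in T (both sides 0 if h is not in Icc (-N) N).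
∑_{h in T} c h ρ h = (1/Q) ∑_i En(i/Q) C_i, C_i = ∑_{h in T} c h ee (-i h/Q). |C_i| ≤ η L + |C_i|²/(η L). (1/Q) ∑_i En (i/Q) = ρ 0 (so ρ 0 is real, equal to its norm);
(1/Q) ∑_i |C_i|² = ∑_{h in T} |c h|² ≤ L (distinct elements of T are distinct modulo Q). Take φ = i/Q with En maximal (exists_max_image on range Q): the sum is at most
η L ρ 0 + En φ (1/(η L)) L. -/
theorem TP1 {N : ℕ} {ρ : ℤ → ℂ} (hρ : ∀ l, l ∉ Icc (-(N : ℤ)) N → ρ l = 0) (En : ℝ → ℝ) (hE : ∀ φ, 0 ≤ En φ)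
    (hexp : ∀ φ, ((En φ : ℝ) : ℂ) = ∑ l ∈ Icc (-(N : ℤ)) N, ρ l * ee (φ * l)) (T : Finset ℤ) (c : ℤ → ℂ) (hc : ∀ h, ‖c h‖ ≤ 1)
    {η L : ℝ} (hη : 0 < η) (hL0 : 0 < L) (hL : (T.card : ℝ) ≤ L) :
    ∃ φ : ℝ, ‖∑ h ∈ T, c h * ρ h‖ ≤ η * L * ‖ρ 0‖ + En φ / η := by
  obtain ⟨Q, hQd⟩ : ∃ Q : ℕ, Q = 2 * N + 1 + 2 * ∑ x ∈ T, x.natAbs := ⟨_, rfl⟩
  have hQ : 0 < Q := by omega
  have hQR : (0 : ℝ) < Q := by exact_mod_cast hQ
  have hT : ∀ h ∈ T, ∀ l ∈ Icc (-(N : ℤ)) N, |l - h| < (Q : ℤ) := by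
    intro h hh l hl
    have h1 := tp_size T h hh
    rw [mem_Icc] at hl
    rw [abs_le] at h1
    rw [abs_lt]
    push_cast [hQd]
    push_cast at h1
    constructor <;> omega
  have hTT : ∀ h ∈ T, ∀ h' ∈ T, |h' - h| < (Q : ℤ) := by
    intro h hh h' hh'
    have h1 := tp_size T h hh
    have h2 := tp_size T h' hh'
    rw [abs_le] at h1 h2
    rw [abs_lt]
    push_cast [hQd]
    push_cast at h1 h2
    constructor <;> omega
  have h0 : ∀ l ∈ Icc (-(N : ℤ)) N, |l - 0| < (Q : ℤ) := by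
    intro l hl
    rw [mem_Icc] at hl
    have hNQ : (N : ℤ) < Q := by
      have h5 : N < Q := by omega
      exact_mod_cast h5
    rw [abs_lt]
    constructor <;> omega
  obtain ⟨i0, hi0, hmax⟩ := exists_max_image (range Q) (fun i : ℕ => En ((i : ℝ) / Q)) ⟨0, mem_range.2 hQ⟩
  refine ⟨(i0 : ℝ) / Q, ?_⟩
  set C : ℕ → ℂ := fun i => ∑ h ∈ T, c h * ee (-((i : ℝ) / Q * h)) with hC
  have s1 : (Q : ℂ) * ∑ h ∈ T, c h * ρ h = ∑ i ∈ range Q, ((En ((i : ℝ) / Q) : ℝ) : ℂ) * C i := by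
    rw [Finset.mul_sum]
    have e1 : ∀ h ∈ T, (Q : ℂ) * (c h * ρ h) =
        ∑ i ∈ range Q, ((En ((i : ℝ) / Q) : ℝ) : ℂ) * (c h * ee (-((i : ℝ) / Q * h))) := by
      intro h hh
      have e2 := tp_inv Q hQ hρ En hexp h (hT h hh)
      calc (Q : ℂ) * (c h * ρ h) = c h * (Q * ρ h) := by ring
        _ = _ := by
          rw [← e2, Finset.mul_sum]
          refine Finset.sum_congr rfl fun i _ => ?_
          ring
    rw [Finset.sum_congr rfl e1, Finset.sum_comm]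
    refine Finset.sum_congr rfl fun i _ => ?_
    rw [hC, Finset.mul_sum]
  have s2 : ∑ i ∈ range Q, En ((i : ℝ) / Q) = Q * ‖ρ 0‖ := by
    have e2 := tp_inv Q hQ hρ En hexp 0 h0
    have e3 : ((∑ i ∈ range Q, En ((i : ℝ) / Q) : ℝ) : ℂ) = Q * ρ 0 := by
      rw [← e2, Complex.ofReal_sum]
      refine Finset.sum_congr rfl fun i _ => ?_
      simp [ee_zero]
    have e4 := congrArg norm e3
    rw [Complex.norm_real, Real.norm_of_nonneg (Finset.sum_nonneg fun _ _ => hE _), norm_mul,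
      Complex.norm_natCast] at e4
    exact e4
  have s3 : ∑ i ∈ range Q, ‖C i‖ ^ 2 = Q * ∑ h ∈ T, ‖c h‖ ^ 2 := by
    have e1 := tp_pars Q hQ T (fun h => (starRingEnd ℂ) (c h)) hTT
    have e2 : ∀ i : ℕ, ‖∑ h ∈ T, (starRingEnd ℂ) (c h) * ee ((i : ℝ) / Q * h)‖ = ‖C i‖ := by
      intro i
      have e3 : ∑ h ∈ T, (starRingEnd ℂ) (c h) * ee ((i : ℝ) / Q * h) = (starRingEnd ℂ) (C i) := by
        rw [hC, map_sum]
        refine Finset.sum_congr rfl fun h _ => ?_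
        rw [map_mul, ee_conj, neg_neg]
      rw [e3, RCLike.norm_conj]
    simp only [e2, RCLike.norm_conj] at e1
    exact e1
  have s4 : ∑ h ∈ T, ‖c h‖ ^ 2 ≤ L := by
    refine le_trans ?_ hL
    calc ∑ h ∈ T, ‖c h‖ ^ 2 ≤ ∑ _h ∈ T, (1 : ℝ) :=
          Finset.sum_le_sum fun h _ => pow_le_one₀ (norm_nonneg _) (hc h)
      _ = T.card := by simp
  have hηL : 0 < η * L := mul_pos hη hL0
  have s5 : ∀ i, ‖C i‖ ≤ η * L + ‖C i‖ ^ 2 / (η * L) := by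
    intro i
    rw [← sub_le_iff_le_add', le_div_iff₀ hηL]
    nlinarith [sq_nonneg (‖C i‖ - η * L), norm_nonneg (C i), mul_nonneg hηL.le (norm_nonneg (C i))]
  have s6 : Q * ‖∑ h ∈ T, c h * ρ h‖ ≤ Q * (η * L * ‖ρ 0‖ + En ((i0 : ℝ) / Q) / η) := by
    have e1 : Q * ‖∑ h ∈ T, c h * ρ h‖ = ‖(Q : ℂ) * ∑ h ∈ T, c h * ρ h‖ := by
      rw [norm_mul, Complex.norm_natCast]
    rw [e1, s1]
    calc _ ≤ ∑ i ∈ range Q, En ((i : ℝ) / Q) * ‖C i‖ := by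
          refine (norm_sum_le _ _).trans (Finset.sum_le_sum fun i _ => ?_)
          rw [norm_mul, Complex.norm_real, Real.norm_of_nonneg (hE _)]
      _ ≤ ∑ i ∈ range Q, (En ((i : ℝ) / Q) * (η * L) + En ((i0 : ℝ) / Q) * (‖C i‖ ^ 2 / (η * L))) := by
          refine Finset.sum_le_sum fun i hi => ?_
          calc _ ≤ En ((i : ℝ) / Q) * (η * L + ‖C i‖ ^ 2 / (η * L)) :=
                mul_le_mul_of_nonneg_left (s5 i) (hE _)
            _ = En ((i : ℝ) / Q) * (η * L) + En ((i : ℝ) / Q) * (‖C i‖ ^ 2 / (η * L)) := by ring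
            _ ≤ _ := by
              have e2 : En ((i : ℝ) / Q) * (‖C i‖ ^ 2 / (η * L)) ≤ En ((i0 : ℝ) / Q) * (‖C i‖ ^ 2 / (η * L)) :=
                mul_le_mul_of_nonneg_right (hmax i hi) (by positivity)
              linarith
      _ = η * L * (Q * ‖ρ 0‖) + En ((i0 : ℝ) / Q) / (η * L) * (Q * ∑ h ∈ T, ‖c h‖ ^ 2) := by
          rw [Finset.sum_add_distrib, ← Finset.sum_mul, s2, ← s3, ← Finset.mul_sum, ← Finset.sum_div]
          ring
      _ ≤ η * L * (Q * ‖ρ 0‖) + En ((i0 : ℝ) / Q) / (η * L) * (Q * L) := by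
          have e3 : 0 ≤ En ((i0 : ℝ) / Q) / (η * L) := div_nonneg (hE _) hηL.le
          have e4 : (Q : ℝ) * ∑ h ∈ T, ‖c h‖ ^ 2 ≤ Q * L := mul_le_mul_of_nonneg_left s4 hQR.le
          have e5 := mul_le_mul_of_nonneg_left e4 e3
          linarith
      _ = Q * (η * L * ‖ρ 0‖ + En ((i0 : ℝ) / Q) / η) := by
          field_simp
  exact le_of_mul_le_mul_left s6 hQR

/-- Chunk TP2 (M). PROOF. As in TP1 with Q larger than N + |b' - b| for all b, b' in S: ∑_{b, b'} B b conj B b' ρ (b' - b) = (1/Q) ∑_i En (i/Q) |∑_b B b ee (i b/Q)|²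
(ee (-i (b' - b)/Q) = ee (i b/Q) conj ee (i b'/Q)), and (1/Q) ∑_i |∑_b B b ee (i b/Q)|² = ∑_b |B b|². -/
theorem TP2 {N : ℕ} {ρ : ℤ → ℂ} (hρ : ∀ l, l ∉ Icc (-(N : ℤ)) N → ρ l = 0) (En : ℝ → ℝ) (hE : ∀ φ, 0 ≤ En φ)
    (hexp : ∀ φ, ((En φ : ℝ) : ℂ) = ∑ l ∈ Icc (-(N : ℤ)) N, ρ l * ee (φ * l)) (S : Finset ℤ) (B : ℤ → ℂ) :
    ∃ φ : ℝ, ‖∑ b ∈ S, ∑ b' ∈ S, B b * (starRingEnd ℂ) (B b') * ρ (b' - b)‖ ≤ (∑ b ∈ S, ‖B b‖ ^ 2) * En φ := by
  obtain ⟨Q, hQd⟩ : ∃ Q : ℕ, Q = 2 * N + 1 + 2 * ∑ x ∈ S, x.natAbs := ⟨_, rfl⟩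
  have hQ : 0 < Q := by omega
  have hQR : (0 : ℝ) < Q := by exact_mod_cast hQ
  have hSS : ∀ h ∈ S, ∀ h' ∈ S, |h' - h| < (Q : ℤ) := by
    intro h hh h' hh'
    have h1 := tp_size S h hh
    have h2 := tp_size S h' hh'
    rw [abs_le] at h1 h2
    rw [abs_lt]
    push_cast [hQd]
    push_cast at h1 h2
    constructor <;> omega
  have hS : ∀ b ∈ S, ∀ b' ∈ S, ∀ l ∈ Icc (-(N : ℤ)) N, |l - (b' - b)| < (Q : ℤ) := by
    intro h hh h' hh' l hl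
    have h1 := tp_size S h hh
    have h2 := tp_size S h' hh'
    rw [mem_Icc] at hl
    rw [abs_le] at h1 h2
    rw [abs_lt]
    push_cast [hQd]
    push_cast at h1 h2
    constructor <;> omega
  obtain ⟨i0, hi0, hmax⟩ := exists_max_image (range Q) (fun i : ℕ => En ((i : ℝ) / Q)) ⟨0, mem_range.2 hQ⟩
  refine ⟨(i0 : ℝ) / Q, ?_⟩
  have s1 : (Q : ℂ) * ∑ b ∈ S, ∑ b' ∈ S, B b * (starRingEnd ℂ) (B b') * ρ (b' - b) =
      ((∑ i ∈ range Q, En ((i : ℝ) / Q) * ‖∑ b ∈ S, B b * ee ((i : ℝ) / Q * b)‖ ^ 2 : ℝ) : ℂ) := by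
    rw [Complex.ofReal_sum]
    have e1 : ∀ i ∈ range Q, ((En ((i : ℝ) / Q) * ‖∑ b ∈ S, B b * ee ((i : ℝ) / Q * b)‖ ^ 2 : ℝ) : ℂ) =
        ∑ b ∈ S, ∑ b' ∈ S, B b * (starRingEnd ℂ) (B b') *
          (((En ((i : ℝ) / Q) : ℝ) : ℂ) * ee (-((i : ℝ) / Q * ((b' - b : ℤ) : ℝ)))) := by
      intro i _
      rw [Complex.ofReal_mul, ← Complex.normSq_eq_norm_sq, ← Complex.mul_conj, map_sum, Finset.sum_mul_sum]
      rw [Finset.mul_sum]
      refine Finset.sum_congr rfl fun b _ => ?_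
      rw [Finset.mul_sum]
      refine Finset.sum_congr rfl fun b' _ => ?_
      rw [map_mul, ee_conj]
      have e2 : ee (-((i : ℝ) / Q * ((b' - b : ℤ) : ℝ))) = ee ((i : ℝ) / Q * b) * ee (-((i : ℝ) / Q * b')) := by
        rw [← ee_add]
        congr 1
        push_cast
        ring
      rw [e2]
      ring
    symm
    rw [Finset.sum_congr rfl e1, Finset.sum_comm, Finset.mul_sum]
    refine Finset.sum_congr rfl fun b hb => ?_
    rw [Finset.sum_comm, Finset.mul_sum]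
    refine Finset.sum_congr rfl fun b' hb' => ?_
    rw [← Finset.mul_sum, tp_inv Q hQ hρ En hexp (b' - b) (hS b hb b' hb')]
    ring
  have s3 := tp_pars Q hQ S B hSS
  have s6 : Q * ‖∑ b ∈ S, ∑ b' ∈ S, B b * (starRingEnd ℂ) (B b') * ρ (b' - b)‖ ≤
      Q * ((∑ b ∈ S, ‖B b‖ ^ 2) * En ((i0 : ℝ) / Q)) := by
    have e1 : Q * ‖∑ b ∈ S, ∑ b' ∈ S, B b * (starRingEnd ℂ) (B b') * ρ (b' - b)‖ =
        ‖(Q : ℂ) * ∑ b ∈ S, ∑ b' ∈ S, B b * (starRingEnd ℂ) (B b') * ρ (b' - b)‖ := by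
      rw [norm_mul, Complex.norm_natCast]
    rw [e1, s1, Complex.norm_real, Real.norm_of_nonneg (Finset.sum_nonneg fun _ _ => mul_nonneg (hE _) (by positivity))]
    calc _ ≤ ∑ i ∈ range Q, En ((i0 : ℝ) / Q) * ‖∑ b ∈ S, B b * ee ((i : ℝ) / Q * b)‖ ^ 2 :=
          Finset.sum_le_sum fun i hi => mul_le_mul_of_nonneg_right (hmax i hi) (by positivity)
      _ = Q * ((∑ b ∈ S, ‖B b‖ ^ 2) * En ((i0 : ℝ) / Q)) := by
          rw [← Finset.mul_sum, s3]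
          ring
  exact le_of_mul_le_mul_left s6 hQR

end Pool.Agent.H3B
end

-- from Lib.H3B.S2A
section

/-! # H3B (MP_443e5f, candidate T, module B), chunk S2A -/

namespace Pool.Agent.H3B

open Finset
open Pool.Agent.H44W (ee TF cut)

theorem s2a_icc (m : ℕ) : ((Icc (-(m : ℤ)) m).card : ℝ) = 2 * m + 1 := by
  rw [Int.card_Icc]
  have h1 : ((m : ℤ) + 1 - -(m : ℤ)).toNat = 2 * m + 1 := by omega
  rw [h1]
  push_cast
  ring

theorem s2a_union {α : Type*} [DecidableEq α] (A B : Finset α) (f : α → ℝ) (hf : ∀ x, 0 ≤ f x) :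
    ∑ x ∈ A ∪ B, f x ≤ ∑ x ∈ A, f x + ∑ x ∈ B, f x := by
  rw [← Finset.sum_union_inter]
  have : 0 ≤ ∑ x ∈ A ∩ B, f x := Finset.sum_nonneg fun x _ => hf x
  linarith

/-- Chunk S2A (M). Counting. PROOF. C₁ = A + 5: P = the pairs (j, k) with K / D^(A+5) ≤ |j| < K, k ≠ 0, K² |k| ≤ 2 n, ‖v j k‖ ≥ K M n / D^(A+6). There are at most 4 n/K² values k ≠ 0 with K² |k| ≤ 2 n and (with k = 0)
at most 4 n/K² + 1 ≤ 5 n/K². Pairs with |j| < K/D^(A+5): at most 2 K/D^(A+5) + 1 ≤ 3 K/D^(A+5) values of j (K ≥ D^C), contribution ≤ 3 K/D^(A+5) · 5 n/K² · 6 K M n = 90 M n²/D^(A+5) ... take C₁ larger if necessary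
(90 ≤ 2^7): use |j| ≥ K/D^(A+9): contribution ≤ 90 M n²/D^(A+9) ≤ M n²/(4 D^A). Pairs with k = 0: ≤ 2 K · 6 K M n = 12 K² M n ≤ M n²/(4 D^A) if K² D^(A+6) ≤ n. Pairs with small v: at most 2K · 4n/K² = 8 n/K pairs,
contribution ≤ (8 n/K) K M n/D^(A+5) ≤ M n²/(4 D^A). The rest is ≥ M n²/(4 D^A), each term ≤ 6 K M n: card P ≥ n/(24 K D^A) ≥ n/(K D^(A+5)). So C₁ = A + 9 works everywhere. (M ≥ 1.) -/
theorem step2a (A : ℕ) : ∃ C₁ C : ℕ, ∀ (n K M : ℕ) (D : ℝ), 2 ≤ D → 1 ≤ M → D ^ C ≤ K → (K : ℝ) ^ 2 * D ^ C ≤ n → ∀ v : ℤ → ℤ → ℂ,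
    (∀ j k, ‖v j k‖ ≤ 6 * K * M * n) → (∀ j k, 2 * (n : ℤ) < K ^ 2 * |k| → v j k = 0) →
    (M : ℝ) * n ^ 2 / D ^ A ≤ ∑ j ∈ Ioo (-(K : ℤ)) K, ∑ k ∈ Icc (-(2 * n : ℤ)) (2 * n), ‖v j k‖ →
    ∃ P : Finset (ℤ × ℤ), (n : ℝ) / (K * D ^ C₁) ≤ P.card ∧
      ∀ p ∈ P, (K : ℝ) / D ^ C₁ ≤ |(p.1 : ℝ)| ∧ |p.1| < K ∧ p.2 ≠ 0 ∧ (K : ℝ) * M * n / D ^ C₁ ≤ ‖v p.1 p.2‖ := by
  classical
  refine ⟨A + 8, A + 8, ?_⟩
  intro n K M D hD hM hK hn v hv hv0 hsum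
  obtain ⟨c, hc⟩ : ∃ c, c = A + 8 := ⟨_, rfl⟩
  rw [← hc] at hK hn ⊢
  have hD0 : 0 < D := by linarith
  have hD1 : 1 ≤ D := by linarith
  have hDc : 0 < D ^ c := by positivity
  have hDA : 0 < D ^ A := by positivity
  have hDc1 : 1 ≤ D ^ c := one_le_pow₀ hD1
  have hD8 : (256 : ℝ) ≤ D ^ 8 := by
    calc (256 : ℝ) = 2 ^ 8 := by norm_num
      _ ≤ D ^ 8 := pow_le_pow_left₀ (by norm_num) hD 8
  have hDcA : D ^ c = D ^ A * D ^ 8 := by rw [hc, pow_add]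
  have hK1 : (1 : ℝ) ≤ K := hDc1.trans hK
  have hK0 : (0 : ℝ) < K := by linarith
  have hM1 : (1 : ℝ) ≤ M := by exact_mod_cast hM
  have hM0 : (0 : ℝ) < M := by linarith
  have hnK : (K : ℝ) ^ 2 ≤ n := by
    calc (K : ℝ) ^ 2 = (K : ℝ) ^ 2 * 1 := (mul_one _).symm
      _ ≤ (K : ℝ) ^ 2 * D ^ c := mul_le_mul_of_nonneg_left hDc1 (by positivity)
      _ ≤ n := hn
  have hn1 : (1 : ℝ) ≤ n := by nlinarith
  have hn0 : (0 : ℝ) < n := by linarith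
  obtain ⟨E, hE⟩ : ∃ E : ℝ, E = 6 * K * M * n := ⟨_, rfl⟩
  have hE0 : 0 ≤ E := by rw [hE]; positivity
  rw [← hE] at hv
  set J : Finset ℤ := Ioo (-(K : ℤ)) K with hJ
  set I : Finset ℤ := Icc (-(2 * n : ℤ)) (2 * n) with hI
  set W : Finset ℤ := I.filter (fun k => (K : ℤ) ^ 2 * |k| ≤ 2 * n) with hW
  set J' : Finset ℤ := J.filter (fun j => |(j : ℝ)| < K / D ^ c) with hJ'
  set P : Finset (ℤ × ℤ) := (J ×ˢ W).filter (fun p => (K : ℝ) / D ^ c ≤ |(p.1 : ℝ)| ∧ p.2 ≠ 0 ∧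
    (K : ℝ) * M * n / D ^ c ≤ ‖v p.1 p.2‖) with hP
  set Rs : Finset (ℤ × ℤ) := (J ×ˢ W).filter (fun p => ‖v p.1 p.2‖ < (K : ℝ) * M * n / D ^ c) with hR
  -- cardinalities
  have cJ : (J.card : ℝ) ≤ 2 * K := by
    rw [hJ, Int.card_Ioo]
    have h1 : ((K : ℤ) - -(K : ℤ) - 1).toNat ≤ 2 * K := by omega
    exact_mod_cast h1
  have cW : (W.card : ℝ) ≤ 5 * n / (K : ℝ) ^ 2 := by
    have h1 : W ⊆ Icc (-((2 * n / K ^ 2 : ℕ) : ℤ)) ((2 * n / K ^ 2 : ℕ) : ℤ) := by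
      intro k hk
      have h2 := (mem_filter.1 hk).2
      have hKn : 0 < K ^ 2 := by
        have : 0 < K := by exact_mod_cast hK0
        positivity
      have h3 : K ^ 2 * k.natAbs ≤ 2 * n := by
        have h4 : ((K ^ 2 * k.natAbs : ℕ) : ℤ) ≤ ((2 * n : ℕ) : ℤ) := by
          push_cast
          exact h2
        exact_mod_cast h4
      have h4 : k.natAbs ≤ 2 * n / K ^ 2 := by
        rw [Nat.le_div_iff_mul_le hKn, mul_comm]
        exact h3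
      rw [mem_Icc, ← abs_le]
      rw [Int.abs_eq_natAbs]
      exact_mod_cast h4
    have h2 : (W.card : ℝ) ≤ 2 * ((2 * n / K ^ 2 : ℕ) : ℝ) + 1 := by
      rw [← s2a_icc]
      exact_mod_cast card_le_card h1
    have h3 : ((2 * n / K ^ 2 : ℕ) : ℝ) ≤ (2 * n) / (K : ℝ) ^ 2 := by
      have := @Nat.cast_div_le ℝ _ _ _ (2 * n) (K ^ 2)
      push_cast at this
      exact this
    have h4 : 1 ≤ (n : ℝ) / (K : ℝ) ^ 2 := by
      rw [le_div_iff₀ (by positivity), one_mul]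
      exact hnK
    calc (W.card : ℝ) ≤ 2 * ((2 * n) / (K : ℝ) ^ 2) + (n : ℝ) / (K : ℝ) ^ 2 := by linarith
      _ = 5 * n / (K : ℝ) ^ 2 := by ring
  have cJ' : (J'.card : ℝ) ≤ 3 * K / D ^ c := by
    have h1 : J' ⊆ Icc (-((⌊(K : ℝ) / D ^ c⌋₊ : ℕ) : ℤ)) ((⌊(K : ℝ) / D ^ c⌋₊ : ℕ) : ℤ) := by
      intro j hj
      have h2 := (mem_filter.1 hj).2
      have h3 : j.natAbs ≤ ⌊(K : ℝ) / D ^ c⌋₊ := by
        refine Nat.le_floor ?_
        rw [Nat.cast_natAbs, Int.cast_abs]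
        exact h2.le
      rw [mem_Icc, ← abs_le, Int.abs_eq_natAbs]
      exact_mod_cast h3
    have h2 : (J'.card : ℝ) ≤ 2 * ((⌊(K : ℝ) / D ^ c⌋₊ : ℕ) : ℝ) + 1 := by
      rw [← s2a_icc]
      exact_mod_cast card_le_card h1
    have h3 : ((⌊(K : ℝ) / D ^ c⌋₊ : ℕ) : ℝ) ≤ (K : ℝ) / D ^ c := Nat.floor_le (by positivity)
    have h4 : 1 ≤ (K : ℝ) / D ^ c := by
      rw [le_div_iff₀ hDc, one_mul]
      exact hK
    calc (J'.card : ℝ) ≤ 2 * ((K : ℝ) / D ^ c) + (K : ℝ) / D ^ c := by linarith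
      _ = 3 * K / D ^ c := by ring
  -- the sum is over the union
  have hcov : ∑ j ∈ J, ∑ k ∈ I, ‖v j k‖ ≤
      ∑ p ∈ P ∪ ((J' ×ˢ W) ∪ ((J ×ˢ {0}) ∪ Rs)), ‖v p.1 p.2‖ := by
    rw [← Finset.sum_product']
    rw [← Finset.sum_filter_ne_zero (s := J ×ˢ I) (f := fun p : ℤ × ℤ => ‖v p.1 p.2‖)]
    refine Finset.sum_le_sum_of_subset_of_nonneg (fun p hp' => ?_) (fun p _ _ => norm_nonneg _)
    obtain ⟨hp, hne⟩ := mem_filter.1 hp'
    obtain ⟨hp1, hp2⟩ := mem_product.1 hp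
    have hpW : p.2 ∈ W := by
      refine mem_filter.2 ⟨hp2, ?_⟩
      by_contra h
      push Not at h
      exact hne (by rw [hv0 _ _ h, norm_zero])
    by_cases h1 : |((p.1 : ℤ) : ℝ)| < K / D ^ c
    · exact mem_union_right _ (mem_union_left _ (mem_product.2 ⟨mem_filter.2 ⟨hp1, h1⟩, hpW⟩))
    by_cases h2 : p.2 = 0
    · exact mem_union_right _ (mem_union_right _ (mem_union_left _
        (mem_product.2 ⟨hp1, mem_singleton.2 h2⟩)))
    by_cases h3 : ‖v p.1 p.2‖ < (K : ℝ) * M * n / D ^ c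
    · exact mem_union_right _ (mem_union_right _ (mem_union_right _
        (mem_filter.2 ⟨mem_product.2 ⟨hp1, hpW⟩, h3⟩)))
    · exact mem_union_left _ (mem_filter.2 ⟨mem_product.2 ⟨hp1, hpW⟩, not_lt.1 h1, h2, not_lt.1 h3⟩)
  have hnn : ∀ p : ℤ × ℤ, 0 ≤ ‖v p.1 p.2‖ := fun p => norm_nonneg _
  have hsplit : ∑ p ∈ P ∪ ((J' ×ˢ W) ∪ ((J ×ˢ {0}) ∪ Rs)), ‖v p.1 p.2‖ ≤
      ∑ p ∈ P, ‖v p.1 p.2‖ + (∑ p ∈ J' ×ˢ W, ‖v p.1 p.2‖ + (∑ p ∈ J ×ˢ ({0} : Finset ℤ), ‖v p.1 p.2‖ +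
        ∑ p ∈ Rs, ‖v p.1 p.2‖)) := by
    refine (s2a_union _ _ _ hnn).trans (add_le_add le_rfl ?_)
    refine (s2a_union _ _ _ hnn).trans (add_le_add le_rfl ?_)
    exact s2a_union _ _ _ hnn
  have hbd : ∀ (S : Finset (ℤ × ℤ)) (e : ℝ), (∀ p ∈ S, ‖v p.1 p.2‖ ≤ e) →
      ∑ p ∈ S, ‖v p.1 p.2‖ ≤ S.card * e := by
    intro S e h
    refine (Finset.sum_le_sum h).trans (le_of_eq ?_)
    rw [Finset.sum_const, nsmul_eq_mul]
  have b1 := hbd P E fun p _ => hv _ _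
  have b2 : ∑ p ∈ J' ×ˢ W, ‖v p.1 p.2‖ ≤ 90 * (M * n ^ 2 / D ^ c) := by
    refine (hbd (J' ×ˢ W) E fun p _ => hv _ _).trans ?_
    rw [card_product, Nat.cast_mul]
    calc (J'.card : ℝ) * W.card * E ≤ (3 * K / D ^ c) * (5 * n / (K : ℝ) ^ 2) * E := by
          refine mul_le_mul_of_nonneg_right ?_ hE0
          exact mul_le_mul cJ' cW (Nat.cast_nonneg _) (by positivity)
      _ = 90 * (M * n ^ 2 / D ^ c) := by
          rw [hE]
          field_simp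
          ring
  have b3 : ∑ p ∈ J ×ˢ ({0} : Finset ℤ), ‖v p.1 p.2‖ ≤ 12 * (M * n ^ 2 / D ^ c) := by
    refine (hbd (J ×ˢ ({0} : Finset ℤ)) E fun p _ => hv _ _).trans ?_
    rw [card_product, card_singleton, mul_one]
    have h1 : (K : ℝ) ^ 2 ≤ n / D ^ c := by
      rw [le_div_iff₀ hDc]
      exact hn
    calc (J.card : ℝ) * E ≤ (2 * K) * E := mul_le_mul_of_nonneg_right cJ hE0
      _ = 12 * (M * n * (K : ℝ) ^ 2) := by
          rw [hE]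
          ring
      _ ≤ 12 * (M * n * (n / D ^ c)) := by
          refine mul_le_mul_of_nonneg_left ?_ (by norm_num)
          exact mul_le_mul_of_nonneg_left h1 (by positivity)
      _ = 12 * (M * n ^ 2 / D ^ c) := by ring
  have b4 : ∑ p ∈ Rs, ‖v p.1 p.2‖ ≤ 10 * (M * n ^ 2 / D ^ c) := by
    refine (hbd Rs ((K : ℝ) * M * n / D ^ c) fun p hp => (mem_filter.1 hp).2.le).trans ?_
    have h1 : (Rs.card : ℝ) ≤ (2 * K) * (5 * n / (K : ℝ) ^ 2) := by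
      have h2 : (Rs.card : ℝ) ≤ (J ×ˢ W).card := by exact_mod_cast card_filter_le _ _
      rw [card_product, Nat.cast_mul] at h2
      exact h2.trans (mul_le_mul cJ cW (Nat.cast_nonneg _) (by positivity))
    calc (Rs.card : ℝ) * ((K : ℝ) * M * n / D ^ c)
        ≤ (2 * K) * (5 * n / (K : ℝ) ^ 2) * ((K : ℝ) * M * n / D ^ c) :=
          mul_le_mul_of_nonneg_right h1 (by positivity)
      _ = 10 * (M * n ^ 2 / D ^ c) := by
          field_simp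
          ring
  have hX : 112 * ((M : ℝ) * n ^ 2 / D ^ c) ≤ 1 / 2 * (M * n ^ 2 / D ^ A) := by
    rw [hDcA, ← div_div]
    obtain ⟨Y, hY⟩ : ∃ Y : ℝ, Y = (M : ℝ) * n ^ 2 / D ^ A := ⟨_, rfl⟩
    have hY0 : 0 ≤ Y := by rw [hY]; positivity
    rw [← hY, mul_div_assoc', div_le_iff₀ (by positivity)]
    nlinarith
  have hfin : 1 / 2 * ((M : ℝ) * n ^ 2 / D ^ A) ≤ P.card * E := by linarith
  refine ⟨P, ?_, fun p hp => ?_⟩
  · have h1 : (n : ℝ) / (12 * K * D ^ A) ≤ P.card := by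
      have h2 : (n : ℝ) / (12 * K * D ^ A) * E = 1 / 2 * ((M : ℝ) * n ^ 2 / D ^ A) := by
        rw [hE]
        field_simp
        ring
      rw [← h2] at hfin
      exact le_of_mul_le_mul_right hfin (by rw [hE]; positivity)
    refine le_trans ?_ h1
    refine div_le_div_of_nonneg_left hn0.le (by positivity) ?_
    rw [hDcA]
    have h3 : 0 < K * D ^ A := by positivity
    nlinarith
  · obtain ⟨h1, h2, h3, h4⟩ := mem_filter.1 hp
    have h5 := mem_Ioo.1 (mem_product.1 h1).1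
    exact ⟨h2, abs_lt.2 h5, h3, h4⟩

end Pool.Agent.H3B
end

-- from Lib.H3B.D0
section

/-! # H3B: definitions for step 0 -/

namespace Pool.Agent.H3B

open Finset
open Pool.Agent.H44W (ee TF cut tII)

noncomputable section

/-- The β with M ≤ 2β + ε < 2M. -/
def SS (M : ℕ) (ε : ℤ) : Finset ℤ := (Ico (0 : ℤ) (2 * M)).filter (fun b => (M : ℤ) ≤ 2 * b + ε ∧ 2 * b + ε < 2 * M)

/-- The part of the form with given `a` and `b = 2β + ε`. -/
def Tt (M : ℕ) (a ε : ℤ) (be W f g : ℤ → ℂ) : ℂ :=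
  ∑ b ∈ SS M ε, be (2 * b + ε) * ∑' x : ℤ, f x * g (a * (2 * b + ε) - x) * W (2 * x - a * (2 * b + ε))

/-- `β_b conj β_{b + 2h}`, `b = 2β + ε`. -/
def BB (M : ℕ) (ε : ℤ) (be : ℤ → ℂ) (h b : ℤ) : ℂ :=
  if b + h ∈ SS M ε then be (2 * b + ε) * (starRingEnd ℂ) (be (2 * (b + h) + ε)) else 0

/-- The inner sum after the first Cauchy-Schwarz inequality. -/
def Zh (M : ℕ) (a ε : ℤ) (be g : ℤ → ℂ) (h w : ℤ) : ℂ :=
  ∑ b ∈ SS M ε, if (2 : ℤ) ∣ a * (2 * b + ε) - w then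
    BB M ε be h b * Gd g (a * (2 * h)) ((a * (2 * b + ε) - w) / 2) else 0

/-- The quantity `val(j, k)` of step 1. -/
def val (g : ℤ → ℂ) (K M : ℕ) (ψ : ℤ → ℝ) (j k : ℤ) : ℂ :=
  ∑ h ∈ Ioo (-(M : ℤ)) M, ee (-(ψ h * j * k)) * ∑ a ∈ Ij K j, R (Gd g (a * (a + j) * k)) (j * (2 * h))

end

end Pool.Agent.H3B
end

-- from Lib.H3B.S0B
section

/-! # H3B (MP_443e5f, candidate T, module B), chunk S0B -/

namespace Pool.Agent.H3B

open Finset
open Pool.Agent.H44W (ee TF cut tII)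

theorem s0b_SS {M : ℕ} {ε b : ℤ} (hb : b ∈ SS M ε) : (M : ℤ) ≤ 2 * b + ε ∧ 2 * b + ε < 2 * M :=
  (mem_filter.1 hb).2

theorem s0b_A {n M : ℕ} {a ε b : ℤ} (ha : 1 ≤ a) (haM : a * (2 * M) ≤ 8 * n) (hb : b ∈ SS M ε) :
    0 ≤ a * (2 * b + ε) ∧ a * (2 * b + ε) ≤ 8 * n := by
  obtain ⟨h1, h2⟩ := s0b_SS hb
  constructor
  · exact mul_nonneg (by omega) (by omega)
  · exact (mul_le_mul_of_nonneg_left h2.le (by omega)).trans haM

theorem s0b_re {M : ℕ} {ε : ℤ} (F : ℤ → ℂ) {b : ℤ} (hb : b ∈ SS M ε) :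
    ∑ b' ∈ SS M ε, F b' = ∑ h ∈ Ioo (-(M : ℤ)) M, if b + h ∈ SS M ε then F (b + h) else 0 := by
  rw [← sum_filter]
  symm
  refine Finset.sum_nbij' (fun h => b + h) (fun b' => b' - b) ?_ ?_ ?_ ?_ ?_
  · intro h hh
    exact (mem_filter.1 hh).2
  · intro b' hb'
    have h1 := s0b_SS hb
    have h2 := s0b_SS hb'
    rw [mem_filter, mem_Ioo]
    refine ⟨by constructor <;> omega, ?_⟩
    have h3 : b + (b' - b) = b' := by ring
    rw [h3]
    exact hb'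
  · intro h _
    ring
  · intro b' _
    ring
  · intro h _
    rfl

theorem s0b_tsum (A : ℤ) (H : ℤ → ℂ) :
    ∑' x : ℤ, H (2 * x - A) = ∑' w : ℤ, if (2 : ℤ) ∣ A - w then H w else 0 := by
  have hinj : Function.Injective (fun x : ℤ => 2 * x - A) := by
    intro x y hxy
    simp only at hxy
    omega
  have h1 := hinj.tsum_eq (f := fun w : ℤ => if (2 : ℤ) ∣ A - w then H w else 0) (by
    intro w hw
    rw [Function.mem_support] at hw
    have h2 : (2 : ℤ) ∣ A - w := by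
      by_contra h3
      rw [if_neg h3] at hw
      exact hw rfl
    obtain ⟨y, hy⟩ := h2
    refine ⟨A - y, ?_⟩
    simp only
    omega)
  rw [← h1]
  refine tsum_congr fun x => ?_
  have h2 : (2 : ℤ) ∣ A - (2 * x - A) := ⟨A - x, by ring⟩
  rw [if_pos h2]

/-- One pair `b, b + h`. -/
theorem s0b_pair {n M : ℕ} {a ε : ℤ} (ha : 1 ≤ a) (haM : a * (2 * M) ≤ 8 * n) {W g : ℤ → ℂ}
    (hgs : Sp n g) {b : ℤ} (hb : b ∈ SS M ε) (h : ℤ) :
    ∑ x ∈ Icc (-(9 * n : ℤ)) (9 * n), (g (a * (2 * b + ε) - x) * W (2 * x - a * (2 * b + ε))) *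
      (starRingEnd ℂ) (g (a * (2 * (b + h) + ε) - x) * W (2 * x - a * (2 * (b + h) + ε))) =
    ∑ w ∈ Icc (-(10 * n : ℤ)) (10 * n), (W w * (starRingEnd ℂ) (W (w - a * (2 * h)))) *
      (if (2 : ℤ) ∣ a * (2 * b + ε) - w then Gd g (a * (2 * h)) ((a * (2 * b + ε) - w) / 2) else 0) := by
  obtain ⟨A, hA⟩ : ∃ A : ℤ, A = a * (2 * b + ε) := ⟨_, rfl⟩
  have hA0 := s0b_A ha haM hb
  have hA' : a * (2 * (b + h) + ε) = A + a * (2 * h) := by rw [hA]; ring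
  rw [hA', ← hA]
  rw [← hA] at hA0
  have e1 : ∀ x : ℤ, (g (A - x) * W (2 * x - A)) *
      (starRingEnd ℂ) (g (A + a * (2 * h) - x) * W (2 * x - (A + a * (2 * h)))) =
      (fun w : ℤ => (W w * (starRingEnd ℂ) (W (w - a * (2 * h)))) * Gd g (a * (2 * h)) ((A - w) / 2)) (2 * x - A) := by
    intro x
    have h1 : (A - (2 * x - A)) / 2 = A - x := by omega
    have h2 : A + a * (2 * h) - x = A - x + a * (2 * h) := by ring
    have h3 : 2 * x - (A + a * (2 * h)) = 2 * x - A - a * (2 * h) := by ring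
    simp only [h1, h2, h3, Gd, map_mul]
    ring
  have e2 : ∑ x ∈ Icc (-(9 * n : ℤ)) (9 * n), (g (A - x) * W (2 * x - A)) *
      (starRingEnd ℂ) (g (A + a * (2 * h) - x) * W (2 * x - (A + a * (2 * h)))) =
      ∑' x : ℤ, (g (A - x) * W (2 * x - A)) *
      (starRingEnd ℂ) (g (A + a * (2 * h) - x) * W (2 * x - (A + a * (2 * h)))) := by
    symm
    refine tsum_eq_sum fun x hx => ?_
    have h1 : g (A - x) = 0 := by
      refine hgs.zero ?_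
      by_contra h2
      rw [not_lt, abs_le] at h2
      apply hx
      rw [mem_Icc]
      constructor <;> omega
    rw [h1, zero_mul, zero_mul]
  rw [e2, (tsum_congr e1).trans (s0b_tsum A (fun w : ℤ =>
    (W w * (starRingEnd ℂ) (W (w - a * (2 * h)))) * Gd g (a * (2 * h)) ((A - w) / 2)))]
  rw [tsum_eq_sum (s := Icc (-(10 * n : ℤ)) (10 * n))]
  · refine sum_congr rfl fun w _ => ?_
    split_ifs
    · rfl
    · rw [mul_zero]
  · intro w hw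
    split_ifs with h1
    · have h3 : g ((A - w) / 2) = 0 := by
        refine hgs.zero ?_
        by_contra h2
        rw [not_lt, abs_le] at h2
        apply hw
        rw [mem_Icc]
        constructor <;> omega
      unfold Gd
      rw [h3, zero_mul, mul_zero]
    · rfl

/-- Chunk S0B (M). The first two steps: Cauchy-Schwarz in x, expansion. PROOF. Tt = ∑' x, f x * U x with U x = ∑_{b in SS} be(2b+ε) g(a(2b+ε) - x) W(2x - a(2b+ε)) (finite sums; exchange).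
Cauchy-Schwarz: |Tt|² ≤ (∑ |f|²)(∑' x, |U x|²), ∑ |f|² ≤ 2 n + 1 ≤ 3 n. |U x|² = ∑_{b, b'} ..; put b' = b + h (h in Ioo (-M) M: the elements of SS lie in an interval of length less than M), A = a(2b+ε),
y = A - x, w = 2x - A = A - 2y: g(A - x) conj g(A + 2ah - x) = Gd g (2ah) y, W(2x - A) conj W(2x - A - 2ah) = W w conj W(w - 2ah). For given b the map x ↦ w = 2x - A is a bijection of ℤ onto
the w with 2 | A - w, and y = (A - w)/2. So ∑' x, |U x|² = ∑_h ∑' w, W w conj W(w - 2ah) Zh h w ≤ ∑_h ∑_w |Zh h w|, and Zh h w ≠ 0 only if |y| ≤ n for some b, that is |w| ≤ A + 2n ≤ 10 n. -/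
theorem s0_cs1 {n M : ℕ} (hn : 1 ≤ n) {a ε : ℤ} (ha : 1 ≤ a) (haM : a * (2 * M) ≤ 8 * n) (hε : ε = 0 ∨ ε = 1) {be W f g : ℤ → ℂ}
    (hW : ∀ x, ‖W x‖ ≤ 1) (hf : ∀ x, ‖f x‖ ≤ 1) (hfs : Sp n f) (hgs : Sp n g) :
    ‖Tt M a ε be W f g‖ ^ 2 ≤ 3 * n * ∑ h ∈ Ioo (-(M : ℤ)) M, ∑ w ∈ Icc (-(10 * n : ℤ)) (10 * n), ‖Zh M a ε be g h w‖ := by
  classical
  have hnR : (1 : ℝ) ≤ n := by exact_mod_cast hn
  obtain ⟨u, hu⟩ : ∃ u : ℤ → ℤ → ℂ, u = fun b x => g (a * (2 * b + ε) - x) * W (2 * x - a * (2 * b + ε)) := ⟨_, rfl⟩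
  obtain ⟨U, hU⟩ : ∃ U : ℤ → ℂ, U = fun x => ∑ b ∈ SS M ε, be (2 * b + ε) * u b x := ⟨_, rfl⟩
  -- the form as a finite sum
  have hTt : Tt M a ε be W f g = ∑ x ∈ Icc (-(n : ℤ)) n, f x * U x := by
    unfold Tt
    have e1 : ∀ b : ℤ, ∑' x : ℤ, f x * g (a * (2 * b + ε) - x) * W (2 * x - a * (2 * b + ε)) =
        ∑ x ∈ Icc (-(n : ℤ)) n, f x * u b x := by
      intro b
      have h1 : Sp n (fun x => f x * g (a * (2 * b + ε) - x) * W (2 * x - a * (2 * b + ε))) :=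
        (hfs.mul_right _).mul_right _
      rw [h1.tsum_eq]
      refine sum_congr rfl fun x _ => ?_
      rw [hu]
      ring
    simp only [e1, mul_sum]
    rw [sum_comm]
    refine sum_congr rfl fun x _ => ?_
    rw [hU]
    simp only [mul_sum]
    refine sum_congr rfl fun b _ => ?_
    ring
  -- Cauchy-Schwarz
  have hcs : ‖Tt M a ε be W f g‖ ^ 2 ≤ 3 * n * ∑ x ∈ Icc (-(9 * n : ℤ)) (9 * n), ‖U x‖ ^ 2 := by
    rw [hTt]
    have h1 : ‖∑ x ∈ Icc (-(n : ℤ)) n, f x * U x‖ ≤ ∑ x ∈ Icc (-(n : ℤ)) n, ‖f x‖ * ‖U x‖ := by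
      refine norm_sum_le_of_le _ fun x _ => ?_
      rw [norm_mul]
    have h2 := sum_mul_sq_le_sq_mul_sq (Icc (-(n : ℤ)) n) (fun x => ‖f x‖) (fun x => ‖U x‖)
    have h3 : ∑ x ∈ Icc (-(n : ℤ)) n, ‖f x‖ ^ 2 ≤ 3 * n := by
      refine (sum_le_sum (g := fun _ => (1 : ℝ)) fun x _ => ?_).trans ?_
      · exact pow_le_one₀ (norm_nonneg _) (hf x)
      · rw [sum_const, Int.card_Icc, nsmul_eq_mul, mul_one]
        have h4 : (n : ℤ) + 1 - -(n : ℤ) = ((2 * n + 1 : ℕ) : ℤ) := by push_cast; ring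
        rw [h4, Int.toNat_natCast]
        push_cast
        linarith
    have h5 : ∑ x ∈ Icc (-(n : ℤ)) n, ‖U x‖ ^ 2 ≤ ∑ x ∈ Icc (-(9 * n : ℤ)) (9 * n), ‖U x‖ ^ 2 := by
      refine sum_le_sum_of_subset_of_nonneg ?_ fun x _ _ => sq_nonneg _
      intro x hx
      rw [mem_Icc] at hx ⊢
      constructor <;> omega
    calc _ ≤ (∑ x ∈ Icc (-(n : ℤ)) n, ‖f x‖ * ‖U x‖) ^ 2 := pow_le_pow_left₀ (norm_nonneg _) h1 2
      _ ≤ _ := h2
      _ ≤ _ := mul_le_mul h3 h5 (sum_nonneg fun x _ => sq_nonneg _) (by positivity)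
  refine hcs.trans (mul_le_mul_of_nonneg_left ?_ (by positivity))
  -- expansion
  have hexp : ((∑ x ∈ Icc (-(9 * n : ℤ)) (9 * n), ‖U x‖ ^ 2 : ℝ) : ℂ) =
      ∑ h ∈ Ioo (-(M : ℤ)) M, ∑ w ∈ Icc (-(10 * n : ℤ)) (10 * n),
        (W w * (starRingEnd ℂ) (W (w - a * (2 * h)))) * Zh M a ε be g h w := by
    rw [Complex.ofReal_sum]
    have e1 : ∀ x : ℤ, ((‖U x‖ ^ 2 : ℝ) : ℂ) = ∑ b ∈ SS M ε, ∑ b' ∈ SS M ε,
        (be (2 * b + ε) * (starRingEnd ℂ) (be (2 * b' + ε))) * (u b x * (starRingEnd ℂ) (u b' x)) := by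
      intro x
      rw [← Complex.normSq_eq_norm_sq, ← Complex.mul_conj, hU]
      simp only [map_sum, sum_mul_sum, map_mul]
      refine sum_congr rfl fun b _ => sum_congr rfl fun b' _ => ?_
      ring
    simp only [e1]
    rw [sum_comm]
    have e2 : ∀ b ∈ SS M ε, ∑ x ∈ Icc (-(9 * n : ℤ)) (9 * n), ∑ b' ∈ SS M ε,
        (be (2 * b + ε) * (starRingEnd ℂ) (be (2 * b' + ε))) * (u b x * (starRingEnd ℂ) (u b' x)) =
        ∑ h ∈ Ioo (-(M : ℤ)) M, ∑ w ∈ Icc (-(10 * n : ℤ)) (10 * n),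
          (W w * (starRingEnd ℂ) (W (w - a * (2 * h)))) *
          (if (2 : ℤ) ∣ a * (2 * b + ε) - w then BB M ε be h b * Gd g (a * (2 * h)) ((a * (2 * b + ε) - w) / 2) else 0) := by
      intro b hb
      rw [sum_comm]
      rw [s0b_re (fun b' => ∑ x ∈ Icc (-(9 * n : ℤ)) (9 * n),
        (be (2 * b + ε) * (starRingEnd ℂ) (be (2 * b' + ε))) * (u b x * (starRingEnd ℂ) (u b' x))) hb]
      refine sum_congr rfl fun h _ => ?_
      unfold BB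
      by_cases hh : b + h ∈ SS M ε
      · simp only [if_pos hh]
        rw [← mul_sum, hu]
        dsimp only
        rw [s0b_pair ha haM hgs hb h, mul_sum]
        refine sum_congr rfl fun w _ => ?_
        split_ifs
        · ring
        · ring
      · simp only [if_neg hh, zero_mul, ite_self, mul_zero, sum_const_zero]
    rw [sum_congr rfl e2, sum_comm]
    refine sum_congr rfl fun h _ => ?_
    rw [sum_comm]
    refine sum_congr rfl fun w _ => ?_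
    unfold Zh
    rw [mul_sum]
  have hnorm : (∑ x ∈ Icc (-(9 * n : ℤ)) (9 * n), ‖U x‖ ^ 2 : ℝ) =
      ‖((∑ x ∈ Icc (-(9 * n : ℤ)) (9 * n), ‖U x‖ ^ 2 : ℝ) : ℂ)‖ := by
    rw [Complex.norm_real, Real.norm_of_nonneg (sum_nonneg fun x _ => sq_nonneg _)]
  rw [hnorm, hexp]
  refine norm_sum_le_of_le _ fun h _ => norm_sum_le_of_le _ fun w _ => ?_
  rw [norm_mul, norm_mul, RCLike.norm_conj]
  exact mul_le_of_le_one_left (norm_nonneg _) (mul_le_one₀ (hW _) (norm_nonneg _) (hW _))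

end Pool.Agent.H3B
end

-- from Lib.H3B.S0A
section

/-! # H3B (MP_443e5f, candidate T, module B), chunk S0A -/

namespace Pool.Agent.H3B

open Finset
open Pool.Agent.H44W (ee TF cut tII)

/-- The inner sum. -/
noncomputable def s0aIn (n : ℕ) (W f g : ℤ → ℂ) (c : ℤ) : ℂ :=
  ∑ x ∈ Icc (1:ℤ) n, cut n f x * cut n g (c - x) * W (2 * x - c)

theorem s0a_tsum (n : ℕ) (W f g : ℤ → ℂ) (c : ℤ) :
    ∑' x : ℤ, cut n f x * cut n g (c - x) * W (2 * x - c) = s0aIn n W f g c := by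
  unfold s0aIn
  refine tsum_eq_sum fun x hx => ?_
  have h : cut n f x = 0 := if_neg hx
  rw [h, zero_mul, zero_mul]

theorem s0a_inner (n : ℕ) (W f g : ℤ → ℂ) (c : ℤ) :
    ∑ x ∈ Icc (1:ℤ) n, ∑ y ∈ Icc (1:ℤ) n, (if c = x + y then f x * g y * W (x - y) else 0) = s0aIn n W f g c := by
  unfold s0aIn
  refine sum_congr rfl fun x hx => ?_
  have h1 : cut n f x = f x := if_pos hx
  have h2 : ∀ y ∈ Icc (1:ℤ) n, (if c = x + y then f x * g y * W (x - y) else 0) =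
      if y = c - x then f x * g y * W (x - y) else 0 := by
    intro y _
    by_cases h : c = x + y
    · rw [if_pos h, if_pos (by omega)]
    · rw [if_neg h, if_neg (by omega)]
  rw [sum_congr rfl h2, sum_ite_eq', h1]
  by_cases h3 : c - x ∈ Icc (1:ℤ) n
  · have h4 : cut n g (c - x) = g (c - x) := if_pos h3
    rw [if_pos h3, h4]
    congr 2
    ring
  · have h4 : cut n g (c - x) = 0 := if_neg h3
    rw [if_neg h3, h4, mul_zero, zero_mul]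

theorem s0a_exp (n K M : ℕ) (al be : ℕ → ℂ) (W f g : ℤ → ℂ) :
    TF n (tII K M al be) W f g = ∑ a ∈ Ico K (2 * K), al a * ∑ b ∈ Ico M (2 * M), be b * s0aIn n W f g ((a * b : ℕ) : ℤ) := by
  unfold TF tII
  have h1 : ∀ x ∈ Icc (1:ℤ) n, ∑ y ∈ Icc (1:ℤ) n, f x * g y *
      (∑ a ∈ Ico K (2 * K), ∑ b ∈ Ico M (2 * M), if ((a * b : ℕ) : ℤ) = x + y then al a * be b else 0) * W (x - y) =
      ∑ a ∈ Ico K (2 * K), ∑ b ∈ Ico M (2 * M), ∑ y ∈ Icc (1:ℤ) n,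
        al a * be b * (if ((a * b : ℕ) : ℤ) = x + y then f x * g y * W (x - y) else 0) := by
    intro x _
    have h2 : ∀ y ∈ Icc (1:ℤ) n, f x * g y *
        (∑ a ∈ Ico K (2 * K), ∑ b ∈ Ico M (2 * M), if ((a * b : ℕ) : ℤ) = x + y then al a * be b else 0) * W (x - y) =
        ∑ a ∈ Ico K (2 * K), ∑ b ∈ Ico M (2 * M),
          al a * be b * (if ((a * b : ℕ) : ℤ) = x + y then f x * g y * W (x - y) else 0) := by
      intro y _
      rw [Finset.mul_sum, Finset.sum_mul]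
      refine sum_congr rfl fun a _ => ?_
      rw [Finset.mul_sum, Finset.sum_mul]
      refine sum_congr rfl fun b _ => ?_
      split_ifs
      · ring
      · ring
    rw [sum_congr rfl h2, Finset.sum_comm]
    refine sum_congr rfl fun a _ => ?_
    rw [Finset.sum_comm]
  rw [sum_congr rfl h1, Finset.sum_comm]
  refine sum_congr rfl fun a _ => ?_
  rw [Finset.sum_comm, Finset.mul_sum]
  refine sum_congr rfl fun b _ => ?_
  rw [← s0a_inner, ← mul_assoc, Finset.mul_sum]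
  refine sum_congr rfl fun x _ => ?_
  rw [Finset.mul_sum]

theorem s0a_par0 (M : ℕ) (F : ℤ → ℂ) (ε : ℤ) (hε : 0 ≤ ε ∧ ε < 2) :
    ∑ b ∈ SS M ε, F (2 * b + ε) = ∑ b ∈ (Ico (M:ℤ) (2 * M)).filter (fun b => b % 2 = ε), F b := by
  refine Finset.sum_nbij' (fun b => 2 * b + ε) (fun b => b / 2) ?_ ?_ ?_ ?_ ?_
  · intro b hb
    unfold SS at hb
    rw [mem_filter, mem_Ico] at hb
    rw [mem_filter, mem_Ico]
    obtain ⟨⟨h1, h2⟩, h3, h4⟩ := hb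
    refine ⟨⟨h3, h4⟩, ?_⟩
    omega
  · intro b hb
    unfold SS
    rw [mem_filter, mem_Ico] at hb
    rw [mem_filter, mem_Ico]
    obtain ⟨⟨h1, h2⟩, h3⟩ := hb
    have hM : (0:ℤ) ≤ M := Int.natCast_nonneg M
    omega
  · intro b hb
    omega
  · intro b hb
    rw [mem_filter] at hb
    omega
  · intro b _
    rfl

theorem s0a_par (M : ℕ) (F : ℤ → ℂ) :
    ∑ b ∈ Ico M (2 * M), F (b:ℤ) = ∑ ε ∈ ({0, 1} : Finset ℤ), ∑ b ∈ SS M ε, F (2 * b + ε) := by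
  have h1 : ∑ b ∈ Ico M (2 * M), F (b:ℤ) = ∑ b ∈ Ico (M:ℤ) (2 * M), F b := by
    refine Finset.sum_nbij' (fun b : ℕ => (b:ℤ)) (fun b : ℤ => b.toNat) ?_ ?_ ?_ ?_ ?_
    · intro b hb
      rw [mem_Ico] at hb ⊢
      omega
    · intro b hb
      rw [mem_Ico] at hb ⊢
      omega
    · intro b _
      exact Int.toNat_natCast b
    · intro b hb
      rw [mem_Ico] at hb
      exact Int.toNat_of_nonneg (by omega)
    · intro b _
      rfl
  rw [h1, Finset.sum_pair (by norm_num), s0a_par0 M F 0 (by norm_num), s0a_par0 M F 1 (by norm_num),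
    ← Finset.sum_filter_add_sum_filter_not (Ico (M:ℤ) (2 * M)) (fun b => b % 2 = 0)]
  congr 1
  refine Finset.sum_congr ?_ fun _ _ => rfl
  refine Finset.filter_congr fun b _ => ?_
  omega

theorem s0a_norm_cut (n : ℕ) (f : ℤ → ℂ) (hf : ∀ x, ‖f x‖ ≤ 1) (x : ℤ) : ‖cut n f x‖ ≤ 1 := by
  unfold cut
  split_ifs
  · exact hf x
  · rw [norm_zero]
    exact zero_le_one

theorem s0a_In_le (n : ℕ) (W f g : ℤ → ℂ) (hW : ∀ x, ‖W x‖ ≤ 1) (hf : ∀ x, ‖f x‖ ≤ 1) (hg : ∀ x, ‖g x‖ ≤ 1) (c : ℤ) :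
    ‖s0aIn n W f g c‖ ≤ n := by
  unfold s0aIn
  refine (norm_sum_le_of_le (f := fun x => cut n f x * cut n g (c - x) * W (2 * x - c)) (n := fun _ => (1:ℝ)) _ fun x _ => ?_).trans ?_
  · rw [norm_mul, norm_mul]
    exact mul_le_one₀ (mul_le_one₀ (s0a_norm_cut n f hf x) (norm_nonneg _) (s0a_norm_cut n g hg _)) (norm_nonneg _) (hW _)
  · simp

/-- Chunk S0Aa (M). PROOF. TF n F W f g = ∑' x, ∑' y of cut n f x * cut n g y * F (x + y) * W (x - y) (or keep the finite sums). Insert the definition of tII, exchange the sums: for given a, b the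
sum over x, y in [1, n] with x + y = a b of f x g y W (x - y) is ∑' x, cut n f x * cut n g (a b - x) * W (2 x - a b). b = 2β + ε with ε = b mod 2 gives a bijection of Ico M (2M) with the pairs
(ε, β), ε in {0, 1}, β in SS M ε. Triangle inequality, |al a| ≤ 1. -/
theorem TF_le_Tt (n K M : ℕ) (al be : ℕ → ℂ) (hal : ∀ a, ‖al a‖ ≤ 1) (W f g : ℤ → ℂ) :
    ‖TF n (tII K M al be) W f g‖ ≤ ∑ ε ∈ ({0, 1} : Finset ℤ), ∑ a ∈ Ico K (2 * K),
      ‖Tt M a ε (fun b => be b.toNat) W (cut n f) (cut n g)‖ := by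
  have h1 : ∀ a : ℕ, ∑ b ∈ Ico M (2 * M), be b * s0aIn n W f g ((a * b : ℕ) : ℤ) =
      ∑ ε ∈ ({0, 1} : Finset ℤ), Tt M a ε (fun b => be b.toNat) W (cut n f) (cut n g) := by
    intro a
    have h2 := s0a_par M (fun b => be b.toNat * s0aIn n W f g ((a:ℤ) * b))
    have h3 : ∑ b ∈ Ico M (2 * M), be b * s0aIn n W f g ((a * b : ℕ) : ℤ) =
        ∑ b ∈ Ico M (2 * M), (fun b : ℤ => be b.toNat * s0aIn n W f g ((a:ℤ) * b)) (b:ℤ) := by
      refine sum_congr rfl fun b _ => ?_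
      change _ = be (Int.toNat (b:ℤ)) * s0aIn n W f g ((a:ℤ) * (b:ℤ))
      rw [Int.toNat_natCast, Nat.cast_mul]
    rw [h3, h2]
    refine sum_congr rfl fun ε _ => ?_
    unfold Tt
    refine sum_congr rfl fun b _ => ?_
    rw [s0a_tsum]
  rw [s0a_exp, Finset.sum_comm]
  refine norm_sum_le_of_le _ fun a _ => ?_
  rw [norm_mul, h1 a]
  exact (mul_le_of_le_one_left (norm_nonneg _) (hal a)).trans (norm_sum_le _ _)

/-- Chunk S0Ab (S/M). PROOF. Trivial bound: for given a, b and x there is at most one y. -/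
theorem TF_le (n K M : ℕ) (al be : ℕ → ℂ) (hal : ∀ a, ‖al a‖ ≤ 1) (hbe : ∀ b, ‖be b‖ ≤ 1) (W f g : ℤ → ℂ)
    (hW : ∀ x, ‖W x‖ ≤ 1) (hf : ∀ x, ‖f x‖ ≤ 1) (hg : ∀ x, ‖g x‖ ≤ 1) :
    ‖TF n (tII K M al be) W f g‖ ≤ K * M * n := by
  rw [s0a_exp]
  have h1 : ∀ a ∈ Ico K (2 * K), ‖al a * ∑ b ∈ Ico M (2 * M), be b * s0aIn n W f g ((a * b : ℕ) : ℤ)‖ ≤ M * n := by
    intro a _
    rw [norm_mul]
    refine (mul_le_of_le_one_left (norm_nonneg _) (hal a)).trans ?_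
    have h2 : ∀ b ∈ Ico M (2 * M), ‖be b * s0aIn n W f g ((a * b : ℕ) : ℤ)‖ ≤ n := by
      intro b _
      rw [norm_mul]
      exact (mul_le_of_le_one_left (norm_nonneg _) (hbe b)).trans (s0a_In_le n W f g hW hf hg _)
    refine (norm_sum_le_of_le _ h2).trans ?_
    rw [Finset.sum_const, Nat.card_Ico, nsmul_eq_mul]
    have e : 2 * M - M = M := by omega
    rw [e]
  refine (norm_sum_le_of_le _ h1).trans ?_
  rw [Finset.sum_const, Nat.card_Ico, nsmul_eq_mul]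
  have e : 2 * K - K = K := by omega
  rw [e, mul_assoc]

/-- Chunk S0Ac (S). PROOF. If K M > 2 n then tII (x + y) = 0 because a b ≥ K M > 2 n ≥ x + y. -/
theorem KM_le (n K M : ℕ) (al be : ℕ → ℂ) (W f g : ℤ → ℂ) (h : TF n (tII K M al be) W f g ≠ 0) : K * M ≤ 2 * n := by
  by_contra hc
  apply h
  rw [not_le] at hc
  unfold TF
  refine sum_eq_zero fun x hx => sum_eq_zero fun y hy => ?_
  have h0 : tII K M al be (x + y) = 0 := by
    unfold tII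
    refine sum_eq_zero fun a ha => sum_eq_zero fun b hb => ?_
    rw [mem_Ico] at ha hb
    rw [mem_Icc] at hx hy
    refine if_neg fun he => ?_
    have h1 : K * M ≤ a * b := Nat.mul_le_mul ha.1 hb.1
    have h2 : ((K * M : ℕ) : ℤ) ≤ ((a * b : ℕ) : ℤ) := by exact_mod_cast h1
    have h3 : ((2 * n : ℕ) : ℤ) < ((K * M : ℕ) : ℤ) := by exact_mod_cast hc
    push_cast at h2 h3 he
    omega
  rw [h0, mul_zero, zero_mul]

end Pool.Agent.H3B
end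

-- from Lib.H3B.S0C
section

/-! # H3B (MP_443e5f, candidate T, module B), chunk S0C -/

namespace Pool.Agent.H3B

open Finset
open Pool.Agent.H44W (ee TF cut tII)

/-- `G((A - w)/2)` if `2 ∣ A - w`, else `0`; `A = a (2 b + ε)`. -/
noncomputable def s0cz (a ε : ℤ) (G : ℤ → ℂ) (b w : ℤ) : ℂ :=
  if (2 : ℤ) ∣ a * (2 * b + ε) - w then G ((a * (2 * b + ε) - w) / 2) else 0

theorem s0c_fin {N : ℕ} {G : ℤ → ℂ} (hG : Sp N G) (a ε b : ℤ) : (Function.support (s0cz a ε G b)).Finite := by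
  refine (hG.finite.image (fun y => a * (2 * b + ε) - 2 * y)).subset ?_
  intro w hw
  rw [Function.mem_support] at hw
  unfold s0cz at hw
  split_ifs at hw with h
  · refine ⟨(a * (2 * b + ε) - w) / 2, hw, ?_⟩
    have h1 := Int.mul_ediv_cancel' h
    simp only
    linarith
  · exact absurd rfl hw

theorem s0c_R (G : ℤ → ℂ) (a ε b b' : ℤ) :
    ∑' w : ℤ, s0cz a ε G b w * (starRingEnd ℂ) (s0cz a ε G b' w) = R G (a * (b' - b)) := by
  have hinj : Function.Injective (fun y : ℤ => a * (2 * b + ε) - 2 * y) := by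
    intro x y h
    simp only at h
    linarith
  have hsup : Function.support (fun w : ℤ => s0cz a ε G b w * (starRingEnd ℂ) (s0cz a ε G b' w)) ⊆
      Set.range (fun y : ℤ => a * (2 * b + ε) - 2 * y) := by
    intro w hw
    rw [Function.mem_support] at hw
    have h1 := left_ne_zero_of_mul hw
    unfold s0cz at h1
    split_ifs at h1 with h
    · refine ⟨(a * (2 * b + ε) - w) / 2, ?_⟩
      have h2 := Int.mul_ediv_cancel' h
      simp only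
      linarith
    · exact absurd rfl h1
  rw [← hinj.tsum_eq hsup]
  unfold R
  refine tsum_congr fun y => ?_
  unfold s0cz
  have e1 : a * (2 * b + ε) - (a * (2 * b + ε) - 2 * y) = 2 * y := by ring
  have e2 : a * (2 * b' + ε) - (a * (2 * b + ε) - 2 * y) = 2 * (y + a * (b' - b)) := by ring
  rw [e1, e2, if_pos (Dvd.intro _ rfl), if_pos (Dvd.intro _ rfl), Int.mul_ediv_cancel_left _ two_ne_zero,
    Int.mul_ediv_cancel_left _ two_ne_zero]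

theorem s0c_Zh (M : ℕ) (a ε : ℤ) (be g : ℤ → ℂ) (h w : ℤ) :
    Zh M a ε be g h w = ∑ b ∈ SS M ε, BB M ε be h b * s0cz a ε (Gd g (a * (2 * h))) b w := by
  unfold Zh s0cz
  refine Finset.sum_congr rfl fun b _ => ?_
  split_ifs
  · rfl
  · rw [mul_zero]

/-- Chunk S0C (M). PROOF. ∑_w |Zh h w|² over all integers w (finitely many are not zero) is ∑_{b, b' in SS} BB b conj BB b' ∑_w [2 | A - w] G((A - w)/2) conj G((A' - w)/2), G = Gd g (a(2h)),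
A = a(2b+ε), A' = a(2b'+ε) = A + 2a(b' - b), so 2 | A - w iff 2 | A' - w and (A' - w)/2 = y + a(b' - b) for y = (A - w)/2; y runs over all integers: R G (a (b' - b)). The finite sum over w
is at most the full sum (terms ≥ 0). -/
theorem s0_exp {n M : ℕ} {a ε : ℤ} {be g : ℤ → ℂ} (hgs : Sp n g) (h : ℤ) :
    ∑ w ∈ Icc (-(10 * n : ℤ)) (10 * n), ‖Zh M a ε be g h w‖ ^ 2 ≤
      (∑ b ∈ SS M ε, ∑ b' ∈ SS M ε, BB M ε be h b * (starRingEnd ℂ) (BB M ε be h b') *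
        R (Gd g (a * (2 * h))) (a * (b' - b))).re := by
  obtain ⟨G, hG⟩ : ∃ G : ℤ → ℂ, G = Gd g (a * (2 * h)) := ⟨_, rfl⟩
  have hGs : Sp n G := by rw [hG]; exact hgs.Gd _
  have hterm : ∀ b b' : ℤ, Summable (fun w : ℤ => s0cz a ε G b w * (starRingEnd ℂ) (s0cz a ε G b' w)) := by
    intro b b'
    refine summable_of_hasFiniteSupport ?_
    exact (s0c_fin hGs a ε b).subset fun w hw => left_ne_zero_of_mul hw
  have hexp : ∀ w : ℤ, ((‖Zh M a ε be g h w‖ ^ 2 : ℝ) : ℂ) = ∑ b ∈ SS M ε, ∑ b' ∈ SS M ε,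
      BB M ε be h b * (starRingEnd ℂ) (BB M ε be h b') * (s0cz a ε G b w * (starRingEnd ℂ) (s0cz a ε G b' w)) := by
    intro w
    rw [← Complex.normSq_eq_norm_sq, ← Complex.mul_conj, s0c_Zh, ← hG, map_sum, Finset.sum_mul_sum]
    refine Finset.sum_congr rfl fun b _ => Finset.sum_congr rfl fun b' _ => ?_
    rw [map_mul]
    ring
  have hsum2 : ∀ b b' : ℤ, Summable (fun w : ℤ => BB M ε be h b * (starRingEnd ℂ) (BB M ε be h b') *
      (s0cz a ε G b w * (starRingEnd ℂ) (s0cz a ε G b' w))) := fun b b' => (hterm b b').mul_left _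
  have hsumC : Summable (fun w : ℤ => ((‖Zh M a ε be g h w‖ ^ 2 : ℝ) : ℂ)) := by
    have h1 : (fun w : ℤ => ((‖Zh M a ε be g h w‖ ^ 2 : ℝ) : ℂ)) = fun w : ℤ => ∑ b ∈ SS M ε, ∑ b' ∈ SS M ε,
      BB M ε be h b * (starRingEnd ℂ) (BB M ε be h b') * (s0cz a ε G b w * (starRingEnd ℂ) (s0cz a ε G b' w)) :=
      funext hexp
    rw [h1]
    exact summable_sum fun b _ => summable_sum fun b' _ => hsum2 b b'
  have hsumR : Summable (fun w : ℤ => ‖Zh M a ε be g h w‖ ^ 2) := Complex.summable_ofReal.1 hsumC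
  have htot : ((∑' w : ℤ, ‖Zh M a ε be g h w‖ ^ 2 : ℝ) : ℂ) = ∑ b ∈ SS M ε, ∑ b' ∈ SS M ε,
      BB M ε be h b * (starRingEnd ℂ) (BB M ε be h b') * R G (a * (b' - b)) := by
    rw [Complex.ofReal_tsum, tsum_congr hexp,
      Summable.tsum_finsetSum (fun b _ => summable_sum fun b' _ => hsum2 b b')]
    refine Finset.sum_congr rfl fun b _ => ?_
    rw [Summable.tsum_finsetSum (fun b' _ => hsum2 b b')]
    refine Finset.sum_congr rfl fun b' _ => ?_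
    rw [tsum_mul_left, s0c_R]
  rw [← hG, ← htot, Complex.ofReal_re]
  exact hsumR.sum_le_tsum _ fun _ _ => sq_nonneg _

end Pool.Agent.H3B
end

-- from Lib.H3B.S0D
section

/-! # H3B (MP_443e5f, candidate T, module B), chunk S0D -/

namespace Pool.Agent.H3B

open Finset
open Pool.Agent.H44W (ee TF cut tII)

/-- Chunk S0D (S/M). PROOF. s0_cs1, then Cauchy-Schwarz over the at most 2M · 21n pairs (h, w), then s0_exp: ‖Tt‖⁴ ≤ 9 n² · 42 n M · ∑ = 378 n³ M ∑. -/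
theorem s0_four {n M : ℕ} (hn : 1 ≤ n) {a ε : ℤ} (ha : 1 ≤ a) (haM : a * (2 * M) ≤ 8 * n) (hε : ε = 0 ∨ ε = 1) {be W f g : ℤ → ℂ}
    (hW : ∀ x, ‖W x‖ ≤ 1) (hf : ∀ x, ‖f x‖ ≤ 1) (hfs : Sp n f) (hgs : Sp n g) :
    ‖Tt M a ε be W f g‖ ^ 4 ≤ 400 * n ^ 3 * M * ∑ h ∈ Ioo (-(M : ℤ)) M,
      (∑ b ∈ SS M ε, ∑ b' ∈ SS M ε, BB M ε be h b * (starRingEnd ℂ) (BB M ε be h b') *
        R (Gd g (a * (2 * h))) (a * (b' - b))).re := by
  set F : ℤ → ℤ → ℝ := fun h w => ‖Zh M a ε be g h w‖ with hF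
  have h1 := s0_cs1 hn ha haM hε (be := be) hW hf hfs hgs
  have h2 : (∑ h ∈ Ioo (-(M : ℤ)) M, ∑ w ∈ Icc (-(10 * n : ℤ)) (10 * n), F h w) ^ 2 ≤
      ((2 * M : ℝ) * (21 * n)) * ∑ h ∈ Ioo (-(M : ℤ)) M, ∑ w ∈ Icc (-(10 * n : ℤ)) (10 * n), F h w ^ 2 := by
    rw [← sum_product', ← sum_product' (f := fun h w => F h w ^ 2)]
    refine (sq_sum_le_card_mul_sum_sq).trans ?_
    refine mul_le_mul_of_nonneg_right ?_ (sum_nonneg fun _ _ => sq_nonneg _)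
    rw [card_product, Int.card_Ioo, Int.card_Icc, Nat.cast_mul]
    have h3 : (((M : ℤ) - -(M : ℤ) - 1).toNat : ℝ) ≤ 2 * M := by
      have : ((M : ℤ) - -(M : ℤ) - 1).toNat ≤ 2 * M := by omega
      exact_mod_cast this
    have h4 : (((10 * n : ℤ) + 1 - -(10 * n : ℤ)).toNat : ℝ) ≤ 21 * n := by
      have : ((10 * n : ℤ) + 1 - -(10 * n : ℤ)).toNat ≤ 21 * n := by omega
      exact_mod_cast this
    exact mul_le_mul h3 h4 (Nat.cast_nonneg _) (by positivity)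
  have h5 : ∑ h ∈ Ioo (-(M : ℤ)) M, ∑ w ∈ Icc (-(10 * n : ℤ)) (10 * n), F h w ^ 2 ≤
      ∑ h ∈ Ioo (-(M : ℤ)) M,
      (∑ b ∈ SS M ε, ∑ b' ∈ SS M ε, BB M ε be h b * (starRingEnd ℂ) (BB M ε be h b') *
        R (Gd g (a * (2 * h))) (a * (b' - b))).re := sum_le_sum fun h _ => s0_exp hgs h
  set Y : ℝ := ∑ h ∈ Ioo (-(M : ℤ)) M,
      (∑ b ∈ SS M ε, ∑ b' ∈ SS M ε, BB M ε be h b * (starRingEnd ℂ) (BB M ε be h b') *
        R (Gd g (a * (2 * h))) (a * (b' - b))).re with hY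
  set X : ℝ := ∑ h ∈ Ioo (-(M : ℤ)) M, ∑ w ∈ Icc (-(10 * n : ℤ)) (10 * n), F h w with hX
  set X2 : ℝ := ∑ h ∈ Ioo (-(M : ℤ)) M, ∑ w ∈ Icc (-(10 * n : ℤ)) (10 * n), F h w ^ 2 with hX2
  have hX20 : 0 ≤ X2 := sum_nonneg fun _ _ => sum_nonneg fun _ _ => sq_nonneg _
  have h6 : ‖Tt M a ε be W f g‖ ^ 4 = (‖Tt M a ε be W f g‖ ^ 2) ^ 2 := by ring
  have hn0 : (0 : ℝ) ≤ n := Nat.cast_nonneg _
  have hM0 : (0 : ℝ) ≤ M := Nat.cast_nonneg _
  calc ‖Tt M a ε be W f g‖ ^ 4 = (‖Tt M a ε be W f g‖ ^ 2) ^ 2 := h6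
    _ ≤ (3 * n * X) ^ 2 := pow_le_pow_left₀ (sq_nonneg _) h1 2
    _ = 9 * n ^ 2 * X ^ 2 := by ring
    _ ≤ 9 * n ^ 2 * (((2 * M : ℝ) * (21 * n)) * X2) := mul_le_mul_of_nonneg_left h2 (by positivity)
    _ = 378 * n ^ 3 * M * X2 := by ring
    _ ≤ 400 * n ^ 3 * M * Y := by
      refine mul_le_mul ?_ h5 hX20 (by positivity)
      have : (0 : ℝ) ≤ n ^ 3 * M := by positivity
      linarith

end Pool.Agent.H3B
end

-- from Lib.H81A.NU
section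

/-!
# H81A, chunk NU (M/L): choice of the parameters
-/

namespace Pool.Agent.Lib.H81A

open Finset ArithmeticFunction

theorem nu_pow {N : ℕ} (hN : 1 ≤ N) (x : ℝ) : (N : ℝ) ^ x = 2 ^ (x * Real.logb 2 N) := by
  have h1 : (0 : ℝ) < N := by exact_mod_cast hN
  have h2 : (2 : ℝ) ^ (Real.logb 2 N) = N := Real.rpow_logb (by norm_num) (by norm_num) h1
  rw [mul_comm, Real.rpow_mul (by norm_num), h2]

theorem nu_le (a : ℕ) {y : ℝ} (h : (a : ℝ) ≤ y) : (2 : ℝ) ^ a ≤ 2 ^ y := by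
  rw [← Real.rpow_natCast]
  exact Real.rpow_le_rpow_of_exponent_le (by norm_num) h

theorem nu_ge (a : ℕ) {y : ℝ} (h : y ≤ (a : ℝ)) : (2 : ℝ) ^ y ≤ 2 ^ a := by
  rw [← Real.rpow_natCast]
  exact Real.rpow_le_rpow_of_exponent_le (by norm_num) h

/-- PROOF. `J` with `1 / J < c`, `J ≥ 1`; `r = 2 J`; `e = ε / (2 (6 J + 2))`, `V = N ^ e`; `L = Nat.log 2 N + 1` (`N < 2 ^ L ≤ 2 N`), `u = ⌈c log_2 N⌉`, `v = ⌊(1 / 2 - η) log_2 N⌋ - r`, `z = ⌊N ^ (1 / J)⌋`. For `N` large: `N ^ c ≤ 2 ^ u ≤ 2 N ^ c`,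
`2 ^ (u + r) ≤ 2 ^ (r + 1) N ^ c ≤ N ^ (2 c)`; `N ^ (1 / 2 - η) 2 ^ (-r - 1) ≤ 2 ^ v ≤ N ^ (1 / 2 - η) 2 ^ (-r)`, so `2 ^ (v + 1) ≥ N ^ (1 / 2 - 2 η)` and `2 ^ (L - v) ≤ 2 ^ (r + 2) N ^ (1 / 2 + η) ≤ N ^ (1 / 2 + 2 η)`; `2 u ≤ v + 1` because `2 c < 1 / 2 - η`; `L ≤ 3 (v + 1)` because
`3 (1 / 2 - η) > 1`; divisor bound `Pool.Agent.Lib.H21AP.divisor_bound` (Lib/H21AP/DivisorBound.lean, import it) with the exponent `e / 2`; `log`, `L` and constants are below `N ^ e` (`isLittleO_log_rpow_atTop`); `(z + 1) ^ J > N`, `z ≤ N ^ (1 / J) < N ^ c ≤ 2 ^ u`;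
`2 ^ J V ^ (6 J + 2) = 2 ^ J N ^ (ε / 2) ≤ N ^ ε`. -/
theorem params (c η ε : ℝ) (hc : 0 < c) (hη : 0 < η) (hcη : 4 * c + 4 * η ≤ 1 / 3) (hε : 0 < ε) : ∃ J N₀ : ℕ, ∀ N : ℕ, N₀ ≤ N → ∃ (L u v z : ℕ) (V : ℝ),
    Par c η N L u v (2 * J) V ∧ N < (z + 1) ^ J ∧ z < 2 ^ u ∧ 2 ^ J * V ^ (6 * J + 2) ≤ (N : ℝ) ^ ε := by
  obtain ⟨J0, hJ0⟩ := exists_nat_one_div_lt hc
  set J := J0 + 1 with hJdef
  have hJ : 1 / (J : ℝ) < c := by
    rw [hJdef]
    push_cast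
    exact hJ0
  have hJpos : (0 : ℝ) < J := by rw [hJdef]; positivity
  set e := ε / (2 * (6 * (J : ℝ) + 2)) with he
  have hepos : 0 < e := by positivity
  obtain ⟨C, hC, hdiv⟩ := Pool.Agent.Lib.H21AP.divisor_bound (ε := e / 2) (by positivity)
  set r := 2 * J with hr
  have hl : Filter.Tendsto (fun N : ℕ => Real.logb 2 N) Filter.atTop Filter.atTop :=
    (Real.tendsto_logb_atTop (by norm_num)).comp tendsto_natCast_atTop_atTop
  have hpow : ∀ x : ℝ, 0 < x → Filter.Tendsto (fun N : ℕ => (N : ℝ) ^ x) Filter.atTop Filter.atTop :=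
    fun x hx => (tendsto_rpow_atTop hx).comp tendsto_natCast_atTop_atTop
  have e1 := (hl.const_mul_atTop hc).eventually_ge_atTop ((r : ℝ) + 2)
  have e2 := (hl.const_mul_atTop hη).eventually_ge_atTop ((r : ℝ) + 3)
  have e3 := (hl.const_mul_atTop (show (0 : ℝ) < 1 / 4 by norm_num)).eventually_ge_atTop (3 * (r : ℝ) + 3)
  have e4 : ∀ᶠ N : ℕ in Filter.atTop, Real.log N ≤ 1 / 4 * (N : ℝ) ^ e := by
    have h1 := (isLittleO_log_rpow_atTop hepos).def (show (0 : ℝ) < 1 / 4 by norm_num)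
    have h2 := tendsto_natCast_atTop_atTop (R := ℝ) |>.eventually h1
    filter_upwards [h2, Filter.eventually_ge_atTop 1] with N hN hN1
    have h3 : (1 : ℝ) ≤ N := by exact_mod_cast hN1
    rwa [Real.norm_of_nonneg (Real.log_nonneg h3), Real.norm_of_nonneg (by positivity)] at hN
  have e5 := (hpow e hepos).eventually_ge_atTop ((r : ℝ) + 4)
  have e6 := (hpow (e / 2) (by positivity)).eventually_ge_atTop C
  have e7 := (hpow (ε / 2) (by positivity)).eventually_ge_atTop ((2 : ℝ) ^ J)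
  obtain ⟨N₀, hN₀⟩ := Filter.eventually_atTop.1
    (((((((e1.and e2).and e3).and e4).and e5).and e6).and e7).and (Filter.eventually_ge_atTop 2))
  refine ⟨J, N₀, fun N hN => ?_⟩
  obtain ⟨⟨⟨⟨⟨⟨⟨f1, f2⟩, f3⟩, f4⟩, f5⟩, f6⟩, f7⟩, f8⟩ := hN₀ N hN
  have hN1 : 1 ≤ N := by omega
  have hNR : (1 : ℝ) ≤ N := by exact_mod_cast hN1
  have hNR2 : (1 : ℝ) < N := by exact_mod_cast (show 1 < N by omega)
  set l := Real.logb 2 N with hldef
  have hl0 : 0 < l := Real.logb_pos (by norm_num) hNR2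
  have hη' : η ≤ 1 / 12 := by linarith
  have hc' : c ≤ 1 / 12 := by linarith
  have hrJ : (r : ℝ) = 2 * J := by
    rw [hr]
    push_cast
    ring
  have hpw : ∀ x : ℝ, (N : ℝ) ^ x = 2 ^ (x * l) := fun x => nu_pow hN1 x
  -- parameters
  set u := ⌈c * l⌉₊ with hu
  set w := ⌊(1 / 2 - η) * l⌋₊ with hw
  set v := w - r with hv
  have hcl : c * l ≤ 1 / 12 * l := mul_le_mul_of_nonneg_right hc' hl0.le
  have hηl : η * l ≤ 1 / 12 * l := mul_le_mul_of_nonneg_right hη' hl0.le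
  have hw1 : (w : ℝ) ≤ (1 / 2 - η) * l := Nat.floor_le (mul_nonneg (by linarith) hl0.le)
  have hw2 : (1 / 2 - η) * l < w + 1 := Nat.lt_floor_add_one _
  have hw3 : (1 / 2 - η) * l = 1 / 2 * l - η * l := sub_mul _ _ _
  have hr0 : (0 : ℝ) ≤ r := Nat.cast_nonneg r
  have hrl : (r : ℝ) ≤ (w : ℝ) := by linarith
  have hrw : r ≤ w := by exact_mod_cast hrl
  have hvR : (v : ℝ) = w - r := by rw [hv, Nat.cast_sub hrw]
  have hu1 : c * l ≤ u := Nat.le_ceil _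
  have hu2 : (u : ℝ) < c * l + 1 := Nat.ceil_lt_add_one (by positivity)
  have hL1 : ((Nat.log 2 N : ℕ) : ℝ) ≤ l := by
    have h1 : (2 : ℝ) ^ (Nat.log 2 N) ≤ N := by exact_mod_cast Nat.pow_log_le_self 2 (by omega)
    rw [hldef, Real.le_logb_iff_rpow_le (by norm_num) (by linarith), Real.rpow_natCast]
    exact h1
  refine ⟨Nat.log 2 N + 1, u, v, ⌊(N : ℝ) ^ (1 / (J : ℝ))⌋₊, (N : ℝ) ^ e, ?_, ?_, ?_, ?_⟩
  · refine ⟨hN1, ?_, ?_, ?_, ?_, ?_, ?_, ?_, ?_, ?_, ?_, ?_, ?_, ?_, ?_, ?_⟩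
    · exact Nat.lt_pow_succ_log_self (by norm_num) N
    · exact Nat.ceil_pos.2 (by positivity)
    · rw [hpw]
      exact nu_ge _ hu1
    · rw [hpw]
      refine nu_le _ ?_
      push_cast
      rw [hvR]
      linarith
    · rw [hpw]
      refine nu_le _ ?_
      push_cast
      linarith
    · calc (N : ℝ) ^ (2 * c) ≤ (N : ℝ) ^ (1 : ℝ) := Real.rpow_le_rpow_of_exponent_le hNR (by linarith)
        _ = N := Real.rpow_one _
    · rw [hpw]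
      refine nu_ge _ ?_
      push_cast
      rw [hvR]
      linarith
    · rw [hpw]
      refine nu_le _ ?_
      rcases le_or_gt v (Nat.log 2 N + 1) with h | h
      · rw [Nat.cast_sub h]
        push_cast
        rw [hvR]
        linarith
      · have : Nat.log 2 N + 1 - v = 0 := by omega
        rw [this]
        push_cast
        positivity
    · have : (2 * u : ℝ) ≤ (v : ℝ) + 1 := by
        rw [hvR]
        linarith
      exact_mod_cast this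
    · have : ((Nat.log 2 N : ℕ) : ℝ) + 1 ≤ 3 * ((v : ℝ) + 1) := by
        rw [hvR]
        linarith
      exact_mod_cast this
    · exact Real.one_le_rpow hNR hepos.le
    · push_cast
      have h1 : l ≤ 2 * Real.log N := by
        rw [hldef, Real.logb, div_le_iff₀ (Real.log_pos (by norm_num))]
        have h2 : (1 : ℝ) / 2 ≤ Real.log 2 := by
          have := Real.log_two_gt_d9
          linarith
        have h3 : 0 ≤ Real.log N := Real.log_nonneg hNR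
        calc Real.log N = Real.log N * 1 := (mul_one _).symm
          _ ≤ Real.log N * (2 * Real.log 2) := mul_le_mul_of_nonneg_left (by linarith) h3
          _ = 2 * Real.log N * Real.log 2 := by ring
      linarith
    · linarith
    · intro n hn hnN
      refine (hdiv n hn).trans ?_
      have h1 : (n : ℝ) ^ (e / 2) ≤ (N : ℝ) ^ (e / 2) :=
        Real.rpow_le_rpow (Nat.cast_nonneg n) (by exact_mod_cast hnN) (by positivity)
      have h2 : (N : ℝ) ^ e = (N : ℝ) ^ (e / 2) * (N : ℝ) ^ (e / 2) := by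
        rw [← Real.rpow_add (by linarith)]
        congr 1
        ring
      rw [h2]
      exact mul_le_mul f6 h1 (by positivity) (by positivity)
    · have : 0 ≤ (N : ℝ) ^ e := by positivity
      linarith
  · have h1 : (N : ℝ) ^ (1 / (J : ℝ)) < ⌊(N : ℝ) ^ (1 / (J : ℝ))⌋₊ + 1 := Nat.lt_floor_add_one _
    have h2 : ((N : ℝ) ^ (1 / (J : ℝ))) ^ J = N := by
      rw [← Real.rpow_natCast, ← Real.rpow_mul (by linarith), one_div, inv_mul_cancel₀ hJpos.ne', Real.rpow_one]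
    have h3 : ((N : ℝ) ^ (1 / (J : ℝ))) ^ J < ((⌊(N : ℝ) ^ (1 / (J : ℝ))⌋₊ : ℝ) + 1) ^ J :=
      pow_lt_pow_left₀ h1 (by positivity) (by omega)
    rw [h2] at h3
    exact_mod_cast h3
  · have h1 : ((⌊(N : ℝ) ^ (1 / (J : ℝ))⌋₊ : ℕ) : ℝ) ≤ (N : ℝ) ^ (1 / (J : ℝ)) := Nat.floor_le (by positivity)
    have h2 : (N : ℝ) ^ (1 / (J : ℝ)) < (N : ℝ) ^ c := Real.rpow_lt_rpow_of_exponent_lt hNR2 hJ
    have h3 : (N : ℝ) ^ c ≤ 2 ^ u := by
      rw [hpw]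
      exact nu_ge _ hu1
    have h4 : ((⌊(N : ℝ) ^ (1 / (J : ℝ))⌋₊ : ℕ) : ℝ) < 2 ^ u := by linarith
    exact_mod_cast h4
  · have h1 : ((N : ℝ) ^ e) ^ (6 * J + 2) = (N : ℝ) ^ (ε / 2) := by
      rw [← Real.rpow_natCast, ← Real.rpow_mul (by linarith)]
      congr 1
      rw [he]
      push_cast
      field_simp
    rw [h1]
    have h2 : (N : ℝ) ^ ε = (N : ℝ) ^ (ε / 2) * (N : ℝ) ^ (ε / 2) := by
      rw [← Real.rpow_add (by linarith)]
      congr 1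
      ring
    rw [h2]
    exact mul_le_mul_of_nonneg_right f7 (by positivity)

end Pool.Agent.Lib.H81A
end
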