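import Mathlib.NumberTheory.Chebyshev
import Pool.Agent.Lib.H59M.M1.M026

/-! Merged copies (to shorten the build) of Lib.HUK.B01, Lib.HUK.B05, Lib.HUK.B06, Lib.HUK.B07, Lib.HUK.B14. -/

-- from Lib.HUK.B01
section

/-!
# HUK B01 (M, only Mathlib): the reciprocals of the primes in `(A, 4A]`

PROOF. `θ(x) = ∑_{p ≤ x} log p` (`Chebyshev.theta`). Mathlib: `Chebyshev.theta_ge (n) : n log 2 - log (n+1) - 2 √n log n ≤ θ n`
and `Chebyshev.theta_le_log4_mul_x : θ x ≤ log 4 * x`. So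
`∑_{p ∈ PA A} log p = θ(4A) - θ(A) ≥ 4A log 2 - log(4A+1) - 2 √(4A) log(4A) - 2A log 2 = 2A log 2 - small ≥ A` for large `A`
(`2 log 2 > 1.38`). Every `p ∈ PA A` has `log p ≤ log(4A)` and `1/p ≥ 1/(4A)`, so
`SA A ≥ ∑ log p /(4A log(4A)) ≥ 1/(4 log (4A)) ≥ 1/(8 log(4A))`.
-/

open Finset

namespace Pool.Agent.HUK

theorem b01_split (A : ℕ) : Chebyshev.theta ((4 * A : ℕ) : ℝ) =
    Chebyshev.theta (A : ℝ) + ∑ p ∈ PA A, Real.log p := by
  unfold Chebyshev.theta PA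
  rw [Nat.floor_natCast, Nat.floor_natCast, Finset.sum_filter, Finset.sum_filter,
    Finset.sum_filter, Finset.sum_Ioc_consecutive _ (Nat.zero_le _) (by omega)]

theorem b01_small : ∃ X0 : ℝ, 1 ≤ X0 ∧ ∀ x : ℝ, X0 ≤ x →
    Real.log (x + 1) + 2 * √x * Real.log x ≤ 1 + 3 / 100 * x := by
  have h1 := (isLittleO_log_rpow_atTop (r := (1 / 4 : ℝ)) (by norm_num)).def
    (c := 1 / 100) (by norm_num)
  rw [Filter.eventually_atTop] at h1
  obtain ⟨X1, hX1⟩ := h1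
  refine ⟨max X1 1, le_max_right _ _, fun x hx => ?_⟩
  have hx1 : 1 ≤ x := le_trans (le_max_right _ _) hx
  have hx0 : 0 < x := by linarith
  have h2 := hX1 x (le_trans (le_max_left _ _) hx)
  rw [Real.norm_eq_abs, Real.norm_eq_abs, abs_of_nonneg (Real.log_nonneg hx1),
    abs_of_nonneg (Real.rpow_nonneg hx0.le _)] at h2
  have h3 : x ^ (1 / 4 : ℝ) ≤ x := by
    calc x ^ (1 / 4 : ℝ) ≤ x ^ (1 : ℝ) := Real.rpow_le_rpow_of_exponent_le hx1 (by norm_num)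
      _ = x := Real.rpow_one x
  have h4 : √x * x ^ (1 / 4 : ℝ) ≤ x := by
    rw [Real.sqrt_eq_rpow, ← Real.rpow_add hx0]
    calc x ^ (1 / 2 + 1 / 4 : ℝ) ≤ x ^ (1 : ℝ) :=
          Real.rpow_le_rpow_of_exponent_le hx1 (by norm_num)
      _ = x := Real.rpow_one x
  have h5 : √x * Real.log x ≤ 1 / 100 * x := by
    calc √x * Real.log x ≤ √x * (1 / 100 * x ^ (1 / 4 : ℝ)) :=
          mul_le_mul_of_nonneg_left h2 (Real.sqrt_nonneg _)
      _ = 1 / 100 * (√x * x ^ (1 / 4 : ℝ)) := by ring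
      _ ≤ 1 / 100 * x := by linarith
  have h6 : Real.log (x + 1) ≤ 1 + Real.log x := by
    have h7 : Real.log (x + 1) ≤ Real.log (2 * x) := Real.log_le_log (by linarith) (by linarith)
    rw [Real.log_mul (by norm_num) hx0.ne'] at h7
    have h8 := Real.log_two_lt_d9
    linarith
  linarith

/-- For large `A` the sum of the reciprocals of the primes in `(A, 4A]` is at least `1/(8 log 4A)`. -/
theorem b01_sa : ∃ A0 : ℕ, 2 ≤ A0 ∧ ∀ A : ℕ, A0 ≤ A → 1 / (8 * Real.log (4 * A)) ≤ SA A := by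
  obtain ⟨X0, hX0, hX⟩ := b01_small
  refine ⟨max ⌈X0⌉₊ 10, le_trans (by norm_num) (le_max_right _ _), fun A hA => ?_⟩
  have hA10 : 10 ≤ A := le_trans (le_max_right _ _) hA
  have hA10' : (10 : ℝ) ≤ A := by exact_mod_cast hA10
  have hA1 : X0 ≤ (A : ℝ) := by
    have := le_trans (le_max_left _ _) hA
    exact le_trans (Nat.le_ceil _) (by exact_mod_cast this)
  have h1 := hX (4 * A) (by linarith)
  have h2 := Chebyshev.theta_ge (4 * A)
  have h3 := Chebyshev.theta_le_log4_mul_x (x := (A : ℝ)) (by positivity)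
  rw [b01_split] at h2
  push_cast at h2
  have h4 : Real.log 4 = 2 * Real.log 2 := by
    rw [show (4 : ℝ) = 2 ^ 2 by norm_num, Real.log_pow]
    norm_num
  rw [h4] at h3
  have h5 := Real.log_two_gt_d9
  have h6 : (A : ℝ) ≤ ∑ p ∈ PA A, Real.log p := by nlinarith
  have h7 : 1 ≤ Real.log (4 * A) := by
    have h8 : Real.log (Real.exp 1) ≤ Real.log (4 * A) := by
      apply Real.log_le_log (Real.exp_pos 1)
      have := Real.exp_one_lt_d9
      linarith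
    rwa [Real.log_exp] at h8
  have h9 : ∑ p ∈ PA A, Real.log p ≤ 4 * A * Real.log (4 * A) * SA A := by
    unfold SA
    rw [Finset.mul_sum]
    refine Finset.sum_le_sum fun p hp => ?_
    unfold PA at hp
    rw [Finset.mem_filter, Finset.mem_Ioc] at hp
    have hp0 : (0 : ℝ) < p := by exact_mod_cast hp.2.pos
    have hp1 : (p : ℝ) ≤ 4 * A := by exact_mod_cast hp.1.2
    have h10 : Real.log p ≤ Real.log (4 * A) := Real.log_le_log hp0 hp1
    rw [mul_one_div, le_div_iff₀ hp0]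
    have hlog : 0 ≤ Real.log p := Real.log_natCast_nonneg p
    calc Real.log p * p ≤ Real.log (4 * A) * (4 * A) := by
          apply mul_le_mul h10 hp1 hp0.le (by linarith)
      _ = 4 * A * Real.log (4 * A) := by ring
  have h11 : 0 < 8 * Real.log (4 * A) := by linarith
  rw [div_le_iff₀ h11]
  have h12 : (A : ℝ) ≤ A * (4 * Real.log (4 * A) * SA A) := by
    calc (A : ℝ) ≤ _ := h6
      _ ≤ _ := h9
      _ = A * (4 * Real.log (4 * A) * SA A) := by ring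
  have h13 : 1 ≤ 4 * Real.log (4 * A) * SA A := by
    by_contra h
    push Not at h
    have : (A : ℝ) * (4 * Real.log (4 * A) * SA A) < A * 1 :=
      mul_lt_mul_of_pos_left h (by linarith)
    linarith
  nlinarith

end Pool.Agent.HUK
end

-- from Lib.HUK.B05
section

/-!
# HUK B05 (M, only Mathlib): incomplete sums of a product of two periodic functions with coprime periods

PROOF. Let `F = a b`, periodic modulo `P = p R`. Over a complete period `∑_{x < P} a(x) b(x) = (∑_{x < p} a)(∑_{y < R} b) = 0` (Chinese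
remainder theorem: `x ↦ (x mod p, x mod R)` is a bijection `range P → range p × range R`; `Nat.chineseRemainder`, or `ZMod.chineseRemainder`,
or: write `x = i + p j`, `i < p`, `j < R`; for fixed `i` the map `j ↦ i + p j mod R` is a bijection, so
`∑_x a(x) b(x) = ∑_{i<p} a(i) ∑_{j<R} b(i + p j) = ∑_i a(i) (∑_{y<R} b(y)) = 0`). By periodicity the sum over any `P` consecutive
integers is `0` (`Function.Periodic`, or induction moving the window by one). Cut `[u, v)` in blocks of `P` consecutive integers and a rest of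
fewer than `P` integers, where each term is at most `1` in absolute value (strong induction on `v - u`: if `v - u < P` trivial bound, else
remove the first `P` terms).
-/

open Finset

namespace Pool.Agent.HUK

theorem b05_zmod (R : ℕ) [NeZero R] (h : ZMod R → ℝ) :
    ∑ w ∈ range R, h (w : ZMod R) = ∑ z, h z := by
  refine Finset.sum_nbij' (fun w => (w : ZMod R)) (fun z => z.val) ?_ ?_ ?_ ?_ ?_
  · intro _ _
    exact Finset.mem_univ _
  · intro z _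
    exact Finset.mem_range.2 (ZMod.val_lt z)
  · intro w hw
    exact ZMod.val_natCast_of_lt (Finset.mem_range.1 hw)
  · intro z _
    exact ZMod.natCast_zmod_val z
  · intro _ _
    rfl

theorem b05_lift (R : ℕ) [NeZero R] (b : ℤ → ℝ) (hb : ∀ x, b (x + R) = b x) (x : ℤ) :
    b ((((x : ZMod R).val : ℕ) : ℤ)) = b x := by
  have hper : Function.Periodic b (R : ℤ) := hb
  rw [ZMod.val_intCast]
  have h1 := hper.int_mul (x / R) (x % R)
  rw [Int.cast_id] at h1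
  rw [show x % (R : ℤ) + x / R * R = x by rw [mul_comm]; exact Int.emod_add_mul_ediv x R] at h1
  exact h1.symm

theorem b05_bsum (p R : ℕ) (hR : 0 < R) (hc : Nat.Coprime p R) (b : ℤ → ℝ)
    (hb : ∀ x, b (x + R) = b x) (t : ℤ) :
    ∑ w ∈ range R, b (t + w * p) = ∑ y ∈ range R, b y := by
  have : NeZero R := ⟨hR.ne'⟩
  have h1 : ∀ w : ℕ, b (t + w * p) =
      (fun z : ZMod R => b (((z.val : ℕ) : ℤ))) ((t : ZMod R) + (w : ZMod R) * p) := by
    intro w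
    have h2 := b05_lift R b hb (t + w * p)
    push_cast at h2
    exact h2.symm
  have h1' : ∀ w : ℕ, b (w : ℤ) = (fun z : ZMod R => b (((z.val : ℕ) : ℤ))) (w : ZMod R) := by
    intro w
    have h2 := b05_lift R b hb (w : ℤ)
    push_cast at h2
    exact h2.symm
  rw [Finset.sum_congr rfl fun w _ => h1 w, Finset.sum_congr rfl fun w _ => h1' w,
    b05_zmod R (fun z => (fun z : ZMod R => b (((z.val : ℕ) : ℤ))) ((t : ZMod R) + z * p)),
    b05_zmod R (fun z : ZMod R => b (((z.val : ℕ) : ℤ)))]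
  have hu : IsUnit (p : ZMod R) := (ZMod.isUnit_iff_coprime p R).2 hc
  obtain ⟨u, hu⟩ := hu
  rw [← hu]
  exact Equiv.sum_comp (Equiv.trans (Units.mulRight u) (Equiv.addLeft (t : ZMod R)))
    (fun z : ZMod R => b (((z.val : ℕ) : ℤ)))

theorem b05_blocks (p : ℕ) (a : ℤ → ℝ) (ha : ∀ x, a (x + p) = a x)
    (ha0 : ∑ x ∈ range p, a x = 0) (n : ℕ) : ∑ x ∈ range (p * n), a x = 0 := by
  induction n with
  | zero => simp
  | succ n ih =>
    rw [Nat.mul_succ, Finset.sum_range_add, ih, zero_add, ← ha0]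
    refine Finset.sum_congr rfl fun t _ => ?_
    have hper : Function.Periodic a (p : ℤ) := ha
    have h1 := hper.nat_mul n (t : ℤ)
    rw [← h1]
    push_cast
    congr 1
    ring

theorem b05_shift (P : ℕ) (F : ℤ → ℝ) (hF : ∀ x, F (x + P) = F x) (u : ℤ) :
    ∑ t ∈ range P, F (u + t) = ∑ t ∈ range P, F t := by
  have h1 : ∀ v : ℤ, ∑ t ∈ range P, F (v + 1 + t) = ∑ t ∈ range P, F (v + t) := by
    intro v
    have h2 := Finset.sum_range_succ (fun t : ℕ => F (v + t)) P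
    have h3 := Finset.sum_range_succ' (fun t : ℕ => F (v + t)) P
    rw [h2] at h3
    push_cast at h3
    rw [hF, add_zero] at h3
    have h4 : ∑ t ∈ range P, F (v + 1 + t) = ∑ t ∈ range P, F (v + ((t : ℤ) + 1)) := by
      refine Finset.sum_congr rfl fun t _ => ?_
      congr 1
      ring
    rw [h4]
    linarith
  induction u using Int.induction_on with
  | zero => simp
  | succ i ih => rw [h1, ih]
  | pred i ih =>
    rw [← ih, ← h1 (-(i : ℤ) - 1)]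
    refine Finset.sum_congr rfl fun t _ => ?_
    congr 1
    ring

theorem b05_full (p R : ℕ) (hR : 0 < R) (hc : Nat.Coprime p R) (a b : ℤ → ℝ)
    (ha : ∀ x, a (x + p) = a x) (hb : ∀ x, b (x + R) = b x) (ha0 : ∑ x ∈ range p, a x = 0) (u : ℤ) :
    ∑ t ∈ range (p * R), a (u + t) * b (u + t) = 0 := by
  have hpa : Function.Periodic a (p : ℤ) := ha
  have hpb : Function.Periodic b (R : ℤ) := hb
  have hF : ∀ x, (fun x => a x * b x) (x + (p * R : ℕ)) = (fun x => a x * b x) x := by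
    intro x
    change a (x + (p * R : ℕ)) * b (x + (p * R : ℕ)) = a x * b x
    have h1 := hpa.nat_mul R x
    have h2 := hpb.nat_mul p x
    rw [show x + ((p * R : ℕ) : ℤ) = x + (R : ℤ) * p by push_cast; ring, h1,
      show x + (R : ℤ) * p = x + (p : ℤ) * R by ring, h2]
  have hsh := b05_shift (p * R) (fun x => a x * b x) hF
  have hS : ∀ w : ℤ, ∑ t ∈ range (p * R), a t * b (t + w * p) =
      ∑ t ∈ range (p * R), a (t : ℤ) * b (t : ℤ) := by
    intro w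
    rw [← hsh (w * p)]
    refine Finset.sum_congr rfl fun t _ => ?_
    change a t * b (t + w * p) = a (w * p + t) * b (w * p + t)
    have h1 := hpa.int_mul w (t : ℤ)
    rw [Int.cast_id] at h1
    rw [show w * (p : ℤ) + t = t + w * p by ring, h1]
  have h3 : (R : ℝ) * ∑ t ∈ range (p * R), a (t : ℤ) * b (t : ℤ) = 0 := by
    calc (R : ℝ) * ∑ t ∈ range (p * R), a (t : ℤ) * b (t : ℤ)
        = ∑ w ∈ range R, ∑ t ∈ range (p * R), a t * b (t + (w : ℤ) * p) := by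
          rw [Finset.sum_congr rfl fun (w : ℕ) _ => hS (w : ℤ), Finset.sum_const, Finset.card_range,
            nsmul_eq_mul]
      _ = ∑ t ∈ range (p * R), a t * ∑ w ∈ range R, b (t + (w : ℤ) * p) := by
          rw [Finset.sum_comm]
          refine Finset.sum_congr rfl fun t _ => ?_
          rw [Finset.mul_sum]
      _ = ∑ t ∈ range (p * R), a t * ∑ y ∈ range R, b y := by
          refine Finset.sum_congr rfl fun t _ => ?_
          rw [b05_bsum p R hR hc b hb]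
      _ = 0 := by
          rw [← Finset.sum_mul, b05_blocks p a ha ha0, zero_mul]
  have hR0 : (R : ℝ) ≠ 0 := by exact_mod_cast hR.ne'
  have h4 := (mul_eq_zero.1 h3).resolve_left hR0
  rw [← h4]
  exact hsh u

theorem b05_range (P : ℕ) (hP : 0 < P) (F : ℤ → ℝ) (hF : ∀ u : ℤ, ∑ t ∈ range P, F (u + t) = 0)
    (h1 : ∀ x, |F x| ≤ 1) (n : ℕ) : ∀ u : ℤ, |∑ t ∈ range n, F (u + t)| ≤ P := by
  induction n using Nat.strong_induction_on with
  | _ n ih =>
    intro u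
    rcases lt_or_ge n P with h | h
    · calc |∑ t ∈ range n, F (u + t)| ≤ ∑ t ∈ range n, |F (u + t)| :=
            Finset.abs_sum_le_sum_abs _ _
        _ ≤ ∑ _t ∈ range n, (1 : ℝ) := Finset.sum_le_sum fun t _ => h1 _
        _ = n := by rw [Finset.sum_const, Finset.card_range, nsmul_eq_mul, mul_one]
        _ ≤ P := by exact_mod_cast h.le
    · obtain ⟨m, rfl⟩ := Nat.exists_eq_add_of_le h
      rw [Finset.sum_range_add, hF, zero_add]
      have h2 := ih m (by omega) (u + P)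
      have h3 : ∑ x ∈ range m, F (u + ((P + x : ℕ) : ℤ)) = ∑ x ∈ range m, F (u + P + x) := by
        refine Finset.sum_congr rfl fun x _ => ?_
        congr 1
        push_cast
        ring
      rw [h3]
      exact h2

theorem b05_conv (F : ℤ → ℝ) (u v : ℤ) :
    ∑ x ∈ Ico u v, F x = ∑ t ∈ range (v - u).toNat, F (u + t) := by
  refine Finset.sum_nbij' (fun x => (x - u).toNat) (fun t => u + t) ?_ ?_ ?_ ?_ ?_
  · intro x hx
    rw [Finset.mem_Ico] at hx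
    rw [Finset.mem_range]
    omega
  · intro t ht
    rw [Finset.mem_range] at ht
    rw [Finset.mem_Ico]
    omega
  · intro x hx
    rw [Finset.mem_Ico] at hx
    omega
  · intro t ht
    omega
  · intro x hx
    rw [Finset.mem_Ico] at hx
    have h1 : u + ((x - u).toNat : ℤ) = x := by omega
    rw [h1]

theorem b05_per (p R : ℕ) (hp : 0 < p) (hR : 0 < R) (hc : Nat.Coprime p R) (a b : ℤ → ℝ) (ha : ∀ x, a (x + p) = a x)
    (hb : ∀ x, b (x + R) = b x) (ha0 : ∑ x ∈ range p, a x = 0) (ha1 : ∀ x, |a x| ≤ 1) (hb1 : ∀ x, |b x| ≤ 1) (u v : ℤ) :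
    |∑ x ∈ Ico u v, a x * b x| ≤ (p : ℝ) * R := by
  rw [b05_conv]
  have h1 := b05_range (p * R) (Nat.mul_pos hp hR) (fun x => a x * b x)
    (fun u => b05_full p R hR hc a b ha hb ha0 u)
    (fun x => by
      rw [abs_mul]
      exact mul_le_one₀ (ha1 x) (abs_nonneg _) (hb1 x)) (v - u).toNat u
  push_cast at h1
  exact h1

end Pool.Agent.HUK
end

-- from Lib.HUK.B06
section

/-!
# HUK B06 (M): one tuple of primes

PROOF. By the definition of `gp` the product is `1_J(d) (1_{p∣d} - 1/p) ∏_w (1_{q_w ∣ d + σ_w} - 1/q_w)` with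
`J = {d ∈ (lo, hi] : pD < dA, and for all w ∈ W: lo < d + σ_w ≤ hi, q_w D < (d + σ_w) A}`, a finite set of integers which is order connected
(each condition is monotone in `d` because `A > 0`), hence `J = Ico u v` for some `u v` (if empty trivial; else `u = min`, `v = max + 1`;
or show: a finite set `J` of integers such that `x, z ∈ J`, `x ≤ y ≤ z` imply `y ∈ J` is an `Icc`). Apply `b05_per` with
`a(d) = 1_{p∣d} - 1/p` (period `p`, sum over a period `1 - p/p = 0`, `|a| ≤ 1`) and `b(d) = ∏_w (1_{q_w ∣ d+σ_w} - 1/q_w)`, period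
`R = ∏_{w ∈ W} q_w`, coprime to `p` (distinct primes; `Nat.Coprime.prod_right`), `|b| ≤ 1` (each factor has absolute value `≤ 1`).
-/

open Finset

namespace Pool.Agent.HUK

theorem b06_cond (A m : ℕ) (hA : 0 < A) (lo hi σ d : ℤ) :
    (lo < d + σ ∧ d + σ ≤ hi ∧ (m : ℤ) < (d + σ) * A) ↔
      (max lo ((m : ℤ) / A) - σ < d ∧ d ≤ hi - σ) := by
  have hA' : (0 : ℤ) < A := by exact_mod_cast hA
  rw [← Int.ediv_lt_iff_lt_mul hA']
  constructor
  · rintro ⟨h1, h2, h3⟩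
    refine ⟨?_, by omega⟩
    have h4 : max lo ((m : ℤ) / A) < d + σ := max_lt h1 h3
    omega
  · rintro ⟨h1, h2⟩
    have h4 : max lo ((m : ℤ) / A) < d + σ := by omega
    exact ⟨(le_max_left _ _).trans_lt h4, by omega, (le_max_right _ _).trans_lt h4⟩

theorem b06_int {ι : Type*} (A D p : ℕ) (hA : 0 < A) (W : Finset ι) (q : ι → ℕ) (σ : ι → ℤ)
    (lo hi : ℤ) : ∃ u v : ℤ, ∀ d : ℤ, ((lo < d ∧ d ≤ hi ∧ (p : ℤ) * D < d * A) ∧
      ∀ w ∈ W, (lo < d + σ w ∧ d + σ w ≤ hi ∧ (q w : ℤ) * D < (d + σ w) * A)) ↔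
      (u < d ∧ d ≤ v) := by
  classical
  induction W using Finset.induction_on with
  | empty =>
    refine ⟨max lo (((p * D : ℕ) : ℤ) / A) - 0, hi - 0, fun d => ?_⟩
    have h1 := b06_cond A (p * D) hA lo hi 0 d
    rw [add_zero, Nat.cast_mul] at h1
    rw [Nat.cast_mul, ← h1]
    constructor
    · exact fun h => h.1
    · exact fun h => ⟨h, fun w hw => absurd hw (Finset.notMem_empty w)⟩
  | insert w W hw ih =>
    obtain ⟨u, v, h⟩ := ih
    refine ⟨max u (max lo (((q w * D : ℕ) : ℤ) / A) - σ w), min v (hi - σ w), fun d => ?_⟩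
    have h1 := b06_cond A (q w * D) hA lo hi (σ w) d
    rw [Nat.cast_mul] at h1
    rw [Nat.cast_mul, max_lt_iff, le_min_iff]
    have h2 := h d
    constructor
    · rintro ⟨h3, h4⟩
      have h5 := h2.1 ⟨h3, fun w' hw' => h4 w' (Finset.mem_insert_of_mem hw')⟩
      have h6 := h1.1 (h4 w (Finset.mem_insert_self _ _))
      exact ⟨⟨h5.1, h6.1⟩, h5.2, h6.2⟩
    · rintro ⟨⟨h3, h4⟩, h5, h6⟩
      have h7 := h2.2 ⟨h3, h5⟩
      have h8 := h1.2 ⟨h4, h6⟩
      refine ⟨h7.1, fun w' hw' => ?_⟩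
      rcases Finset.mem_insert.1 hw' with rfl | hw'
      · exact h8
      · exact h7.2 w' hw'

theorem b06_abs (q : ℕ) (hq : 0 < q) (x : ℤ) :
    |(if (q : ℤ) ∣ x then (1 : ℝ) else 0) - 1 / (q : ℝ)| ≤ 1 := by
  have h1 : (1 : ℝ) ≤ q := by exact_mod_cast hq
  have h2 : (0 : ℝ) < 1 / (q : ℝ) := by positivity
  have h3 : 1 / (q : ℝ) ≤ 1 := by
    rw [div_le_one (by linarith)]
    exact h1
  rw [abs_le]
  split_ifs <;> constructor <;> linarith

theorem b06_tuple {ι : Type*} (A D p : ℕ) (hA : 0 < A) (hp : p.Prime) (W : Finset ι) (q : ι → ℕ)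
    (hq : ∀ w ∈ W, (q w).Prime ∧ q w ≠ p) (σ : ι → ℤ) (lo hi : ℤ) :
    |∑ d ∈ Ioc lo hi, gp A D p lo hi d * ∏ w ∈ W, gp A D (q w) lo hi (d + σ w)| ≤ (p : ℝ) * ∏ w ∈ W, (q w : ℝ) := by
  classical
  obtain ⟨u, v, huv⟩ := b06_int A D p hA W q σ lo hi
  let a : ℤ → ℝ := fun d => (if (p : ℤ) ∣ d then 1 else 0) - 1 / (p : ℝ)
  let b : ℤ → ℝ := fun d => ∏ w ∈ W, ((if (q w : ℤ) ∣ d + σ w then 1 else 0) - 1 / (q w : ℝ))
  have hterm : ∀ d : ℤ, gp A D p lo hi d * ∏ w ∈ W, gp A D (q w) lo hi (d + σ w) =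
      if u < d ∧ d ≤ v then a d * b d else 0 := by
    intro d
    by_cases hd : u < d ∧ d ≤ v
    · rw [if_pos hd]
      obtain ⟨h1, h2⟩ := (huv d).2 hd
      have h3 : gp A D p lo hi d = a d := by
        unfold gp
        rw [if_pos h1]
      have h4 : ∏ w ∈ W, gp A D (q w) lo hi (d + σ w) = b d := by
        refine Finset.prod_congr rfl fun w hw => ?_
        unfold gp
        rw [if_pos (h2 w hw)]
      rw [h3, h4]
    · rw [if_neg hd]
      by_cases h1 : lo < d ∧ d ≤ hi ∧ (p : ℤ) * D < d * A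
      · have h2 : ¬ ∀ w ∈ W, (lo < d + σ w ∧ d + σ w ≤ hi ∧ (q w : ℤ) * D < (d + σ w) * A) :=
          fun h => hd ((huv d).1 ⟨h1, h⟩)
        push Not at h2
        obtain ⟨w, hw, h3⟩ := h2
        have h4 : gp A D (q w) lo hi (d + σ w) = 0 := by
          unfold gp
          rw [if_neg]
          rintro ⟨h5, h6, h7⟩
          exact absurd h7 (not_lt.2 (h3 h5 h6))
        rw [Finset.prod_eq_zero hw h4, mul_zero]
      · have h2 : gp A D p lo hi d = 0 := by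
          unfold gp
          rw [if_neg h1]
        rw [h2, zero_mul]
  rw [Finset.sum_congr rfl fun d _ => hterm d]
  have hsum : ∑ d ∈ Ioc lo hi, (if u < d ∧ d ≤ v then a d * b d else 0) =
      ∑ d ∈ Ico (u + 1) (v + 1), a d * b d := by
    rw [← Finset.sum_filter]
    refine Finset.sum_congr ?_ fun _ _ => rfl
    ext d
    rw [Finset.mem_filter, Finset.mem_Ioc, Finset.mem_Ico]
    constructor
    · rintro ⟨-, h1, h2⟩
      omega
    · rintro ⟨h1, h2⟩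
      have h3 : u < d ∧ d ≤ v := by omega
      have h4 := ((huv d).2 h3).1
      exact ⟨⟨h4.1, h4.2.1⟩, h3⟩
  rw [hsum]
  have hpp : 0 < p := hp.pos
  have hR : 0 < ∏ w ∈ W, q w := Finset.prod_pos fun w hw => (hq w hw).1.pos
  have h := b05_per p (∏ w ∈ W, q w) hpp hR
    (Nat.Coprime.prod_right fun w hw => (Nat.coprime_primes hp (hq w hw).1).2 (hq w hw).2.symm)
    a b
    (by
      intro x
      have h1 : (p : ℤ) ∣ x + p ↔ (p : ℤ) ∣ x := dvd_add_self_right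
      simp only [a, h1])
    (by
      intro x
      refine Finset.prod_congr rfl fun w hw => ?_
      have h1 : (q w : ℤ) ∣ ((∏ w ∈ W, q w : ℕ) : ℤ) := by
        exact_mod_cast Finset.dvd_prod_of_mem q hw
      have h2 : (q w : ℤ) ∣ x + ((∏ w ∈ W, q w : ℕ) : ℤ) + σ w ↔ (q w : ℤ) ∣ x + σ w := by
        have h3 : x + ((∏ w ∈ W, q w : ℕ) : ℤ) + σ w = (x + σ w) + ((∏ w ∈ W, q w : ℕ) : ℤ) := by
          ring
        rw [h3]
        exact (Int.dvd_add_left h1)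
      simp only [h2])
    (by
      have h1 : ∑ x ∈ range p, (if (p : ℤ) ∣ ((x : ℕ) : ℤ) then (1 : ℝ) else 0) = 1 := by
        rw [Finset.sum_eq_single 0]
        · simp
        · intro x hx hx0
          rw [Finset.mem_range] at hx
          rw [if_neg]
          intro h2
          rw [Int.natCast_dvd_natCast] at h2
          exact hx0 (Nat.eq_zero_of_dvd_of_lt h2 hx)
        · intro h2
          exact absurd (Finset.mem_range.2 hpp) h2
      simp only [a]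
      rw [Finset.sum_sub_distrib, h1, Finset.sum_const, Finset.card_range, nsmul_eq_mul]
      have h2 : (p : ℝ) ≠ 0 := by exact_mod_cast hpp.ne'
      field_simp
      ring)
    (fun x => b06_abs p hpp x)
    (by
      intro x
      simp only [b]
      rw [Finset.abs_prod]
      exact Finset.prod_le_one (fun w _ => abs_nonneg _) fun w hw => b06_abs (q w) (hq w hw).1.pos _)
    (u + 1) (v + 1)
  refine h.trans (le_of_eq ?_)
  push_cast
  rfl

end Pool.Agent.HUK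
end

-- from Lib.HUK.B07
section

/-!
# HUK B07 (M): expansion over all tuples of primes different from `p`

PROOF. `∏_{w ∈ W} ∑_{q ∈ (PA A).erase p} gp q (d + σ_w) = ∑_{q : functions} ∏_w gp (q_w) (d + σ_w)` (`Finset.prod_sum` with `pi`, or
`Finset.prod_univ_sum` on the subtype; `Finset.prod_sum` gives `W.pi fun _ => (PA A).erase p` and `W.attach`; alternatively induction on `W`
with a GENERAL statement: for every finite multiset of already chosen `(q, σ)`. The expansion is easiest.) Exchange the sums, apply `b06_tuple` to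
each function `q` (all values are primes `≠ p`, `≤ 4A`): `≤ p ∏ q_w ≤ (4A)^(#W+1)`. The number of functions is `(#(PA A) - 1)^(#W) ≤ (#PA)^(#W)`,
and `#(PA A) ≤ 3 A ≤ 4 A`.
-/

open Finset

namespace Pool.Agent.HUK

theorem b07_main {ι : Type*} (A D p : ℕ) (hA : 0 < A) (hp : p ∈ PA A) (W : Finset ι) (σ : ι → ℤ) (lo hi : ℤ) :
    |∑ d ∈ Ioc lo hi, gp A D p lo hi d * ∏ w ∈ W, ∑ q ∈ (PA A).erase p, gp A D q lo hi (d + σ w)| ≤
      (4 * A : ℝ) ^ (2 * #W + 1) := by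
  classical
  have hPA : ∀ q ∈ PA A, q.Prime ∧ q ≤ 4 * A := by
    intro q hq
    rw [PA, Finset.mem_filter, Finset.mem_Ioc] at hq
    exact ⟨hq.2, hq.1.2⟩
  have hcardPA : #(PA A) ≤ 4 * A := by
    have h1 : #(PA A) ≤ #(Ioc A (4 * A)) := Finset.card_filter_le _ _
    rw [Nat.card_Ioc] at h1
    omega
  have hA1 : (0 : ℝ) ≤ 4 * A := by positivity
  have hpA : (p : ℝ) ≤ 4 * A := by exact_mod_cast (hPA p hp).2
  have hexp : ∑ d ∈ Ioc lo hi, gp A D p lo hi d *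
      ∏ w ∈ W, ∑ q ∈ (PA A).erase p, gp A D q lo hi (d + σ w) =
      ∑ f ∈ W.pi fun _ => (PA A).erase p, ∑ d ∈ Ioc lo hi, gp A D p lo hi d *
        ∏ x ∈ W.attach, gp A D (f x.1 x.2) lo hi (d + σ x.1) := by
    rw [Finset.sum_comm]
    refine Finset.sum_congr rfl fun d _ => ?_
    rw [Finset.prod_sum, Finset.mul_sum]
  rw [hexp]
  refine (Finset.abs_sum_le_sum_abs _ _).trans ?_
  have hone : ∀ f ∈ W.pi fun _ => (PA A).erase p, |∑ d ∈ Ioc lo hi, gp A D p lo hi d *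
        ∏ x ∈ W.attach, gp A D (f x.1 x.2) lo hi (d + σ x.1)| ≤ (4 * A : ℝ) ^ (#W + 1) := by
    intro f hf
    rw [Finset.mem_pi] at hf
    have h1 := b06_tuple A D p hA (hPA p hp).1 W.attach (fun x => f x.1 x.2)
      (fun x _ => by
        have h2 := Finset.mem_erase.1 (hf x.1 x.2)
        exact ⟨(hPA _ h2.2).1, h2.1⟩) (fun x => σ x.1) lo hi
    refine h1.trans ?_
    have h3 : ∏ x ∈ W.attach, (f x.1 x.2 : ℝ) ≤ (4 * A : ℝ) ^ #W := by
      rw [← Finset.card_attach, ← Finset.prod_const]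
      refine Finset.prod_le_prod (fun x _ => Nat.cast_nonneg _) fun x _ => ?_
      exact_mod_cast (hPA _ (Finset.mem_erase.1 (hf x.1 x.2)).2).2
    rw [pow_succ']
    exact mul_le_mul hpA h3 (Finset.prod_nonneg fun x _ => Nat.cast_nonneg _) hA1
  refine (Finset.sum_le_sum hone).trans ?_
  rw [Finset.sum_const, nsmul_eq_mul, Finset.card_pi, Finset.prod_const]
  have h4 : ((#((PA A).erase p) ^ #W : ℕ) : ℝ) ≤ (4 * A : ℝ) ^ #W := by
    have h5 : #((PA A).erase p) ≤ 4 * A := (Finset.card_le_card (Finset.erase_subset _ _)).trans hcardPA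
    have h6 : #((PA A).erase p) ^ #W ≤ (4 * A) ^ #W := Nat.pow_le_pow_left h5 _
    exact_mod_cast h6
  calc ((#((PA A).erase p) ^ #W : ℕ) : ℝ) * (4 * A : ℝ) ^ (#W + 1)
      ≤ (4 * A : ℝ) ^ #W * (4 * A : ℝ) ^ (#W + 1) :=
        mul_le_mul_of_nonneg_right h4 (pow_nonneg hA1 _)
    _ = (4 * A : ℝ) ^ (2 * #W + 1) := by rw [← pow_add]; congr 1; ring

end Pool.Agent.HUK
end

-- from Lib.HUK.B14
section

/-!
# HUK B14 (M, only Mathlib): the numbers

PROOF. Put `ε = τ / 2^(k+4)`. For large `X`: `1/S ≤ 8 log(4 X^τ) ≤ X^ε` and `(1/S)(2 log(2kX)) + 1 ≤ X^(2ε)` (logarithms are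
`o(X^ε)`: `isLittleO_log_rpow_atTop`, or `Real.add_one_le_exp` / `Real.log_le_rpow_div`), `X^τ / 2 ≤ ⌊X^τ⌋ ≤ X^τ`, `X^θ / 2 ≤ ⌊X^θ⌋ ≤ L`.
First term: `≤ C X^(2^k ε) 4^(2^(k+1)) X^(2^(k+1) τ)`, and `X^(2^(k+1) τ) = X^(2^(k+3) τ) X^(-3 * 2^(k+1) τ) ≤ 2 L X^(-6 τ)` (as `2^(k+3) τ ≤ θ`,
`3 * 2^(k+1) ≥ 6`), so the first term is `≤ 2 C 4^(2^(k+1)) X^(τ/16) L X^(-6τ) ≤ (L/2) X^(-τ/2)`.
Second term: `≤ 27 C 2^k X^(2^(k+1) ε) X^(2ε) 2 L X^(-τ) ≤ (L/2) X^(-τ/2)` as `2^(k+1) ε + 2 ε ≤ τ/8 + τ/8 < τ/2`.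
-/

open Finset

namespace Pool.Agent.HUK

theorem b14_log (a b e : ℝ) (he : 0 < e) : ∀ᶠ x : ℝ in Filter.atTop, a + b * Real.log x ≤ x ^ e := by
  have h1 := (isLittleO_log_rpow_atTop he).bound (c := 1 / (2 * (|b| + 1))) (by positivity)
  have h2 : ∀ᶠ x : ℝ in Filter.atTop, 2 * a ≤ x ^ e := (tendsto_rpow_atTop he).eventually_ge_atTop _
  filter_upwards [h1, h2, Filter.eventually_ge_atTop (1 : ℝ)] with x h1 h2 hx
  have hxe : 0 < x ^ e := Real.rpow_pos_of_pos (by linarith) e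
  rw [Real.norm_eq_abs, Real.norm_eq_abs, abs_of_pos hxe] at h1
  have h3 : b * Real.log x ≤ |b| * |Real.log x| := by
    rw [← abs_mul]
    exact le_abs_self _
  have h4 : |b| * |Real.log x| ≤ |b| * (1 / (2 * (|b| + 1)) * x ^ e) :=
    mul_le_mul_of_nonneg_left h1 (abs_nonneg b)
  have h5 : |b| * (1 / (2 * (|b| + 1)) * x ^ e) ≤ x ^ e / 2 := by
    have hb := abs_nonneg b
    have h6 : |b| * (1 / (2 * (|b| + 1)) * x ^ e) = (|b| / (|b| + 1)) * (x ^ e / 2) := by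
      field_simp
    rw [h6]
    exact mul_le_of_le_one_left (by positivity) (div_le_one_of_le₀ (by linarith) (by linarith))
  linarith

theorem b14_floor {y : ℝ} (hy : 2 ≤ y) : y / 2 ≤ (⌊y⌋₊ : ℝ) := by
  have h1 := Nat.lt_floor_add_one y
  linarith

/-- The estimate for one x. -/
theorem b14_core (k : ℕ) (θ τ C x : ℝ) (hτ : 0 < τ) (hθτ : 2 ^ (k + 3) * τ ≤ θ) (hC : 1 ≤ C) (hx : 1 ≤ x)
    (h2 : 2 ≤ x ^ τ) (h3 : C * 4 ^ (2 ^ (k + 1) + 1) ≤ x ^ τ) (h4 : 108 * C * 2 ^ k ≤ x ^ (τ / 4))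
    {a B L : ℝ} (ha : 0 < a) (haE : a ≤ x ^ (τ / 2 ^ (k + 4))) (hB : 0 ≤ B) (hBE : B ≤ x ^ (2 * (τ / 2 ^ (k + 4))))
    (hL : (⌊x ^ θ⌋₊ : ℝ) ≤ L) :
    C * (a ^ (2 ^ k) * (4 * ⌊x ^ τ⌋₊ : ℝ) ^ (2 ^ (k + 1)) + 27 * 2 ^ k * B ^ (2 ^ k) * a ^ 2 * L / ⌊x ^ τ⌋₊) ≤
      L * x ^ (-(τ / 2)) := by
  have hx0 : 0 < x := by linarith
  have hp1 : (1 : ℝ) ≤ 2 ^ k := one_le_pow₀ (by norm_num)
  have hp : (0 : ℝ) < 2 ^ k := by positivity
  have e4 : (2 : ℝ) ^ (k + 4) = 16 * 2 ^ k := by ring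
  have e3 : (2 : ℝ) ^ (k + 3) = 8 * 2 ^ k := by ring
  have e1 : (2 : ℝ) ^ (k + 1) = 2 * 2 ^ k := by ring
  have hT1 : (⌊x ^ τ⌋₊ : ℝ) ≤ x ^ τ := Nat.floor_le (by positivity)
  have hT2 : x ^ τ / 2 ≤ (⌊x ^ τ⌋₊ : ℝ) := b14_floor h2
  have hτθ : τ ≤ θ := by nlinarith
  have hxθ : 2 ≤ x ^ θ := h2.trans (Real.rpow_le_rpow_of_exponent_le hx hτθ)
  have hL1 : x ^ (8 * 2 ^ k * τ) / 2 ≤ L := by
    have h5 : x ^ (8 * 2 ^ k * τ) ≤ x ^ θ := Real.rpow_le_rpow_of_exponent_le hx (by rw [← e3]; exact hθτ)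
    have h6 := b14_floor hxθ
    linarith
  have hL0 : 0 < L := lt_of_lt_of_le (by positivity) hL1
  -- powers
  have hnat : ∀ (y : ℝ) (n : ℕ), (x ^ y) ^ n = x ^ (y * n) := fun y n => by
    rw [← Real.rpow_natCast, ← Real.rpow_mul hx0.le]
  have hA : a ^ (2 ^ k) ≤ x ^ (τ / 16) := by
    have h5 : a ^ (2 ^ k) ≤ (x ^ (τ / 2 ^ (k + 4))) ^ (2 ^ k) := pow_le_pow_left₀ ha.le haE _
    rw [hnat] at h5
    have e5 : τ / 2 ^ (k + 4) * ((2 ^ k : ℕ) : ℝ) = τ / 16 := by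
      push_cast
      rw [e4]
      field_simp
    rwa [e5] at h5
  have hA2 : a ^ 2 ≤ x ^ (τ / 8) := by
    have h5 : a ^ 2 ≤ (x ^ (τ / 2 ^ (k + 4))) ^ 2 := pow_le_pow_left₀ ha.le haE _
    rw [hnat] at h5
    refine h5.trans (Real.rpow_le_rpow_of_exponent_le hx ?_)
    rw [e4]
    push_cast
    rw [div_mul_eq_mul_div, div_le_div_iff₀ (by positivity) (by norm_num)]
    nlinarith
  have hB1 : B ^ (2 ^ k) ≤ x ^ (τ / 8) := by
    have h5 : B ^ (2 ^ k) ≤ (x ^ (2 * (τ / 2 ^ (k + 4)))) ^ (2 ^ k) := pow_le_pow_left₀ hB hBE _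
    rw [hnat] at h5
    have e5 : 2 * (τ / 2 ^ (k + 4)) * ((2 ^ k : ℕ) : ℝ) = τ / 8 := by
      push_cast
      rw [e4]
      field_simp
      ring
    rwa [e5] at h5
  have hT3 : (4 * (⌊x ^ τ⌋₊ : ℝ)) ^ (2 ^ (k + 1)) ≤ 4 ^ (2 ^ (k + 1)) * x ^ (τ * (2 * 2 ^ k)) := by
    have h5 : (4 * (⌊x ^ τ⌋₊ : ℝ)) ^ (2 ^ (k + 1)) ≤ (4 * x ^ τ) ^ (2 ^ (k + 1)) :=
      pow_le_pow_left₀ (by positivity) (by linarith) _
    rw [mul_pow 4 (x ^ τ), hnat] at h5
    have e5 : τ * ((2 ^ (k + 1) : ℕ) : ℝ) = τ * (2 * 2 ^ k) := by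
      push_cast
      rw [e1]
    rwa [e5] at h5
  -- first term
  have hfirst : C * (a ^ (2 ^ k) * (4 * ⌊x ^ τ⌋₊ : ℝ) ^ (2 ^ (k + 1))) ≤ L / 2 * x ^ (-(τ / 2)) := by
    have h5 : a ^ (2 ^ k) * (4 * ⌊x ^ τ⌋₊ : ℝ) ^ (2 ^ (k + 1)) ≤
        x ^ (τ / 16) * (4 ^ (2 ^ (k + 1)) * x ^ (τ * (2 * 2 ^ k))) :=
      mul_le_mul hA hT3 (by positivity) (by positivity)
    have h6 : C * (a ^ (2 ^ k) * (4 * ⌊x ^ τ⌋₊ : ℝ) ^ (2 ^ (k + 1))) ≤
        C * (x ^ (τ / 16) * (4 ^ (2 ^ (k + 1)) * x ^ (τ * (2 * 2 ^ k)))) :=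
      mul_le_mul_of_nonneg_left h5 (by linarith)
    have h7 : C * (x ^ (τ / 16) * (4 ^ (2 ^ (k + 1)) * x ^ (τ * (2 * 2 ^ k)))) =
        (C * 4 ^ (2 ^ (k + 1) + 1)) * (x ^ (τ / 16) * x ^ (τ * (2 * 2 ^ k))) / 4 := by
      rw [pow_succ (4 : ℝ) (2 ^ (k + 1))]
      ring
    have h8 : (C * 4 ^ (2 ^ (k + 1) + 1)) * (x ^ (τ / 16) * x ^ (τ * (2 * 2 ^ k))) ≤
        x ^ τ * (x ^ (τ / 16) * x ^ (τ * (2 * 2 ^ k))) :=
      mul_le_mul_of_nonneg_right h3 (by positivity)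
    have h9 : x ^ τ * (x ^ (τ / 16) * x ^ (τ * (2 * 2 ^ k))) ≤ x ^ (8 * 2 ^ k * τ) * x ^ (-(τ / 2)) := by
      rw [← Real.rpow_add hx0, ← Real.rpow_add hx0, ← Real.rpow_add hx0]
      apply Real.rpow_le_rpow_of_exponent_le hx
      nlinarith
    have h10 : x ^ (8 * 2 ^ k * τ) / 2 * x ^ (-(τ / 2)) ≤ L * x ^ (-(τ / 2)) :=
      mul_le_mul_of_nonneg_right hL1 (by positivity)
    rw [h7] at h6
    linarith
  -- second term
  have hsecond : C * (27 * 2 ^ k * B ^ (2 ^ k) * a ^ 2 * L / ⌊x ^ τ⌋₊) ≤ L / 2 * x ^ (-(τ / 2)) := by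
    have hT0 : (0 : ℝ) < x ^ τ / 2 := by positivity
    have h5 : 27 * 2 ^ k * B ^ (2 ^ k) * a ^ 2 * L / ⌊x ^ τ⌋₊ ≤
        27 * 2 ^ k * x ^ (τ / 8) * x ^ (τ / 8) * L / (x ^ τ / 2) := by
      apply div_le_div₀ (by positivity) _ hT0 hT2
      apply mul_le_mul_of_nonneg_right _ hL0.le
      apply mul_le_mul _ hA2 (by positivity) (by positivity)
      exact mul_le_mul_of_nonneg_left hB1 (by positivity)
    have h6 : C * (27 * 2 ^ k * B ^ (2 ^ k) * a ^ 2 * L / ⌊x ^ τ⌋₊) ≤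
        C * (27 * 2 ^ k * x ^ (τ / 8) * x ^ (τ / 8) * L / (x ^ τ / 2)) :=
      mul_le_mul_of_nonneg_left h5 (by linarith)
    have h7 : C * (27 * 2 ^ k * x ^ (τ / 8) * x ^ (τ / 8) * L / (x ^ τ / 2)) =
        (108 * C * 2 ^ k) * (x ^ (τ / 8) * x ^ (τ / 8) * x ^ (-τ)) * (L / 2) := by
      rw [Real.rpow_neg hx0.le]
      field_simp
      ring
    have h8 : (108 * C * 2 ^ k) * (x ^ (τ / 8) * x ^ (τ / 8) * x ^ (-τ)) ≤
        x ^ (τ / 4) * (x ^ (τ / 8) * x ^ (τ / 8) * x ^ (-τ)) :=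
      mul_le_mul_of_nonneg_right h4 (by positivity)
    have h9 : x ^ (τ / 4) * (x ^ (τ / 8) * x ^ (τ / 8) * x ^ (-τ)) = x ^ (-(τ / 2)) := by
      rw [← Real.rpow_add hx0, ← Real.rpow_add hx0, ← Real.rpow_add hx0]
      congr 1
      ring
    rw [h9] at h8
    rw [h7] at h6
    have h10 := mul_le_mul_of_nonneg_right h8 (by positivity : (0 : ℝ) ≤ L / 2)
    linarith
  have e6 : C * (a ^ (2 ^ k) * (4 * ⌊x ^ τ⌋₊ : ℝ) ^ (2 ^ (k + 1)) + 27 * 2 ^ k * B ^ (2 ^ k) * a ^ 2 * L / ⌊x ^ τ⌋₊) =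
      C * (a ^ (2 ^ k) * (4 * ⌊x ^ τ⌋₊ : ℝ) ^ (2 ^ (k + 1))) + C * (27 * 2 ^ k * B ^ (2 ^ k) * a ^ 2 * L / ⌊x ^ τ⌋₊) := by
    ring
  rw [e6]
  linarith

theorem b14_num (k : ℕ) (θ τ C : ℝ) (hτ : 0 < τ) (hθτ : 2 ^ (k + 3) * τ ≤ θ) (hθ : θ ≤ 1) (hC : 1 ≤ C) :
    ∃ X0 : ℕ, ∀ X : ℕ, X0 ≤ X → ∀ S : ℝ, 0 < S → 1 / S ≤ 8 * Real.log (4 * ⌊(X : ℝ) ^ τ⌋₊) →
    ∀ L : ℝ, (⌊(X : ℝ) ^ θ⌋₊ : ℝ) ≤ L →
    C * ((1 / S) ^ (2 ^ k) * (4 * ⌊(X : ℝ) ^ τ⌋₊ : ℝ) ^ (2 ^ (k + 1))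
        + 27 * 2 ^ k * ((1 / S) * (2 * Real.log (2 * k * X)) + 1) ^ (2 ^ k) * (1 / S) ^ 2 * L / ⌊(X : ℝ) ^ τ⌋₊) ≤
      L * (X : ℝ) ^ (-(τ / 2)) := by
  have he : 0 < τ / 2 ^ (k + 4) := by positivity
  have k1 := b14_log (8 * Real.log 4) (8 * τ) _ he
  have k2 := b14_log (2 * Real.log (2 * k + 1) + 1) 2 _ he
  have k3 : ∀ᶠ x : ℝ in Filter.atTop, max 2 (C * 4 ^ (2 ^ (k + 1) + 1)) ≤ x ^ τ :=
    (tendsto_rpow_atTop hτ).eventually_ge_atTop _
  have k4 : ∀ᶠ x : ℝ in Filter.atTop, 108 * C * 2 ^ k ≤ x ^ (τ / 4) :=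
    (tendsto_rpow_atTop (by positivity)).eventually_ge_atTop _
  have k5 := (((k1.and k2).and (k3.and k4)).and (Filter.eventually_ge_atTop (1 : ℝ)))
  have k6 := tendsto_natCast_atTop_atTop (R := ℝ) |>.eventually k5
  obtain ⟨X0, hX0⟩ := Filter.eventually_atTop.1 k6
  refine ⟨X0, fun X hX S hS hS1 L hL => ?_⟩
  obtain ⟨⟨⟨g1, g2⟩, g3, g4⟩, hx⟩ := hX0 X hX
  have hx0 : (0 : ℝ) < X := by linarith
  have h2 := (le_max_left _ _).trans g3
  have h3 := (le_max_right _ _).trans g3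
  have ha : 0 < 1 / S := by positivity
  have haE : 1 / S ≤ (X : ℝ) ^ (τ / 2 ^ (k + 4)) := by
    refine hS1.trans ?_
    have hT1 : (⌊(X : ℝ) ^ τ⌋₊ : ℝ) ≤ (X : ℝ) ^ τ := Nat.floor_le (by positivity)
    have hT2 : (X : ℝ) ^ τ / 2 ≤ (⌊(X : ℝ) ^ τ⌋₊ : ℝ) := b14_floor h2
    have h5 : Real.log (4 * ⌊(X : ℝ) ^ τ⌋₊) ≤ Real.log (4 * (X : ℝ) ^ τ) := by
      apply Real.log_le_log
      · linarith
      · linarith
    have h6 : Real.log (4 * (X : ℝ) ^ τ) = Real.log 4 + τ * Real.log X := by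
      rw [Real.log_mul (by norm_num) (by positivity), Real.log_rpow hx0]
    rw [h6] at h5
    linarith
  have hlog0 : 0 ≤ Real.log (2 * k * X) := by
    rcases Nat.eq_zero_or_pos k with hk | hk
    · rw [hk]
      simp
    · apply Real.log_nonneg
      have : (1 : ℝ) ≤ k := by exact_mod_cast hk
      nlinarith
  have hlog1 : Real.log (2 * k * X) ≤ Real.log (2 * k + 1) + Real.log X := by
    rw [← Real.log_mul (by positivity) (by positivity)]
    rcases Nat.eq_zero_or_pos k with hk | hk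
    · rw [hk]
      simp only [Nat.cast_zero, mul_zero, zero_mul, Real.log_zero, zero_add, one_mul]
      exact Real.log_nonneg hx
    · apply Real.log_le_log
      · have : (1 : ℝ) ≤ k := by exact_mod_cast hk
        positivity
      · nlinarith
  have hE1 : 1 ≤ (X : ℝ) ^ (τ / 2 ^ (k + 4)) := Real.one_le_rpow hx he.le
  have hB : 0 ≤ (1 / S) * (2 * Real.log (2 * k * X)) + 1 := by positivity
  have hBE : (1 / S) * (2 * Real.log (2 * k * X)) + 1 ≤ (X : ℝ) ^ (2 * (τ / 2 ^ (k + 4))) := by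
    have h5 : (1 / S) * (2 * Real.log (2 * k * X)) ≤ (X : ℝ) ^ (τ / 2 ^ (k + 4)) * (2 * Real.log (2 * k * X)) :=
      mul_le_mul_of_nonneg_right haE (by positivity)
    have h6 : 2 * Real.log (2 * k * X) + 1 ≤ (X : ℝ) ^ (τ / 2 ^ (k + 4)) := by linarith
    have h7 : (X : ℝ) ^ (2 * (τ / 2 ^ (k + 4))) = (X : ℝ) ^ (τ / 2 ^ (k + 4)) * (X : ℝ) ^ (τ / 2 ^ (k + 4)) := by
      rw [← Real.rpow_add hx0]
      congr 1
      ring
    rw [h7]
    nlinarith
  exact b14_core k θ τ C X hτ hθτ hC hx h2 h3 g4 ha haE hB hBE hL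

end Pool.Agent.HUK
end
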