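import Pool.Agent.Lib.H59M.M1.M026

/-! Merged copies (to shorten the build) of Lib.HUK.B04, Lib.HUK.B12, Lib.HUK.B09, Lib.HUK.B11. -/

-- from Lib.HUK.B04
section

/-!
# HUK B04 (M, only Mathlib): bounds for `η` and partial sums

PROOF. For `1 ≤ d` (integer) and `T ⊆ PA A`: `|gp p d| ≤ 1_{p ∣ d} + 1/p`, and `∑_{p ∈ T} 1/p ≤ S`. The primes of `T` dividing `d`:
their product divides `d` (distinct primes: `Finset.prod_primes_dvd` or `Nat.prod_primeFactors_dvd`), each is `≥ 2`, so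
`2 ^ #{p ∈ T : p ∣ d} ≤ d`, `#{..} ≤ log d / log 2 ≤ 2 log d` (`log 2 > 1/2`: `Real.log_two_gt_d9`). For `d ≤ 0` (resp. `d ∉ (lo,hi]`)
with `0 ≤ lo` all terms are `0`.
`b04_eta_abs` is the same for `eta`.
-/

open Finset

namespace Pool.Agent.HUK

theorem b04_mem (A p : ℕ) (hp : p ∈ PA A) : A < p ∧ p ≤ 4 * A ∧ p.Prime := by
  unfold PA at hp
  rw [mem_filter, mem_Ioc] at hp
  exact ⟨hp.1.1, hp.1.2, hp.2⟩

theorem b04_card (A : ℕ) (T : Finset ℕ) (hT : T ⊆ PA A) (d : ℕ) (hd : 1 ≤ d) :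
    ((T.filter (fun p => p ∣ d)).card : ℝ) ≤ 2 * Real.log d := by
  have hsub : T.filter (fun p => p ∣ d) ⊆ d.primeFactors := by
    intro p hp
    rw [mem_filter] at hp
    rw [Nat.mem_primeFactors]
    exact ⟨(b04_mem A p (hT hp.1)).2.2, hp.2, by omega⟩
  have h1 : 2 ^ (T.filter (fun p => p ∣ d)).card ≤ d := by
    calc 2 ^ (T.filter (fun p => p ∣ d)).card ≤ 2 ^ d.primeFactors.card :=
          Nat.pow_le_pow_right (by norm_num) (card_le_card hsub)
      _ = ∏ p ∈ d.primeFactors, 2 := by rw [prod_const]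
      _ ≤ ∏ p ∈ d.primeFactors, p := by
          refine prod_le_prod' fun p hp => ?_
          exact (Nat.prime_of_mem_primeFactors hp).two_le
      _ ≤ d := Nat.le_of_dvd (by omega) (Nat.prod_primeFactors_dvd d)
  have h2 : Real.log ((2 : ℝ) ^ (T.filter (fun p => p ∣ d)).card) ≤ Real.log d := by
    refine Real.log_le_log (by positivity) ?_
    exact_mod_cast h1
  rw [Real.log_pow] at h2
  have h3 := Real.log_two_gt_d9
  have h4 : (0 : ℝ) ≤ ((T.filter (fun p => p ∣ d)).card : ℝ) := Nat.cast_nonneg _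
  nlinarith

theorem b04_sum (A : ℕ) (hS : 0 < SA A) (T : Finset ℕ) (hT : T ⊆ PA A) (d : ℕ) (hd : 1 ≤ d) (g : ℕ → ℝ)
    (hg : ∀ p ∈ T, |g p| ≤ (if p ∣ d then 1 else 0) + 1 / (p : ℝ)) :
    (1 / SA A) * ∑ p ∈ T, |g p| ≤ (1 / SA A) * (2 * Real.log d) + 1 := by
  have hinv : 0 ≤ 1 / SA A := by positivity
  have h1 : ∑ p ∈ T, |g p| ≤ 2 * Real.log d + SA A := by
    calc ∑ p ∈ T, |g p| ≤ ∑ p ∈ T, ((if p ∣ d then (1 : ℝ) else 0) + 1 / (p : ℝ)) := sum_le_sum hg
      _ = ((T.filter (fun p => p ∣ d)).card : ℝ) + ∑ p ∈ T, 1 / (p : ℝ) := by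
          rw [sum_add_distrib, sum_boole]
      _ ≤ 2 * Real.log d + SA A := by
          refine add_le_add (b04_card A T hT d hd) ?_
          unfold SA
          exact sum_le_sum_of_subset_of_nonneg hT fun p _ _ => by positivity
  calc (1 / SA A) * ∑ p ∈ T, |g p| ≤ (1 / SA A) * (2 * Real.log d + SA A) := mul_le_mul_of_nonneg_left h1 hinv
    _ = (1 / SA A) * (2 * Real.log d) + 1 := by
        rw [mul_add]
        congr 1
        field_simp

theorem b04_term (b : Prop) [Decidable b] (p : ℕ) (hp : 1 ≤ p) :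
    |(if b then (1 : ℝ) else 0) - 1 / (p : ℝ)| ≤ (if b then 1 else 0) + 1 / (p : ℝ) := by
  have h1 : (0 : ℝ) ≤ 1 / (p : ℝ) := by positivity
  rw [abs_le]
  split_ifs <;> constructor <;> linarith


/-- Partial sums over `T ⊆ PA A`, on `(lo, hi]` with `hi ≤ Y`. -/
theorem b04_part (A D : ℕ) (hA : 2 ≤ A) (hS : 0 < SA A) (T : Finset ℕ) (hT : T ⊆ PA A) (lo hi d : ℤ) (hlo : 0 ≤ lo)
    (Y : ℝ) (hY : 1 ≤ Y) (hhi : (hi : ℝ) ≤ Y) :
    (1 / SA A) * ∑ p ∈ T, |gp A D p lo hi d| ≤ (1 / SA A) * (2 * Real.log Y) + 1 := by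
  have hinv : 0 ≤ 1 / SA A := by positivity
  by_cases hd : lo < d ∧ d ≤ hi
  · obtain ⟨e, he⟩ : ∃ e : ℕ, d = (e : ℤ) := ⟨d.toNat, by omega⟩
    have he1 : 1 ≤ e := by omega
    have h1 := b04_sum A hS T hT e he1 (fun p => gp A D p lo hi d) (fun p hp => by
      have hp1 : 1 ≤ p := by
        have := (b04_mem A p (hT hp)).1
        omega
      show |gp A D p lo hi d| ≤ _
      unfold gp
      by_cases h1 : lo < d ∧ d ≤ hi ∧ (p : ℤ) * D < d * A
      · rw [if_pos h1]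
        have h2 := b04_term ((p : ℤ) ∣ d) p hp1
        by_cases h3 : p ∣ e
        · have h4 : (p : ℤ) ∣ d := by
            rw [he]
            exact_mod_cast h3
          rw [if_pos h4] at h2 ⊢
          rw [if_pos h3]
          exact h2
        · have h4 : ¬ (p : ℤ) ∣ d := by
            intro h5
            rw [he] at h5
            exact h3 (by exact_mod_cast h5)
          rw [if_neg h4] at h2 ⊢
          rw [if_neg h3]
          exact h2
      · rw [if_neg h1, abs_zero]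
        split_ifs <;> positivity)
    refine le_trans h1 ?_
    have he2 : (e : ℝ) ≤ Y := by
      have h5 : (d : ℝ) ≤ (hi : ℝ) := by exact_mod_cast hd.2
      rw [he] at h5
      push_cast at h5
      linarith
    have h6 : Real.log e ≤ Real.log Y := Real.log_le_log (by exact_mod_cast he1) he2
    have h7 : (1 / SA A) * (2 * Real.log e) ≤ (1 / SA A) * (2 * Real.log Y) :=
      mul_le_mul_of_nonneg_left (by linarith) hinv
    linarith
  · have h0 : ∑ p ∈ T, |gp A D p lo hi d| = 0 := by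
      refine sum_eq_zero fun p _ => ?_
      unfold gp
      rw [if_neg, abs_zero]
      intro h5
      exact hd ⟨h5.1, h5.2.1⟩
    rw [h0, mul_zero]
    have h1 : 0 ≤ Real.log Y := Real.log_nonneg hY
    positivity

end Pool.Agent.HUK
end

-- from Lib.HUK.B12
section

/-!
# HUK B12 (S/M, only Mathlib): support and bounds of the dual function `Psi`

PROOFS. In `Psi X k f n` a non-zero term has `n - k h ∈ [-X, X)` (`j = 0`) and `n - (k-1) h ∈ [-X, X)` would need the index `j = 1 < k`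
(as `k ≥ 2`). Then `n = k (n - (k-1) h) - (k-1) (n - k h)`, so `|n| ≤ k X + (k-1) X < 2 k X`.
`b12_log`: for `1 ≤ d ≤ Y`, `log d = ∑_{1 ≤ i < d} log(1 + 1/i)`, so
`∑_{d ∈ [1,Y]} a(d) log d = ∑_{i ∈ [1,Y]} log(1+1/i) ∑_{d ∈ (i, Y]} a(d)`, and `∑_{i ≤ Y} log (1+1/i) = log (Y+1)`.
-/

open Finset

namespace Pool.Agent.HUK

theorem b12_psi_zero (X k : ℕ) (hk : 2 ≤ k) (f : ℕ → ℤ → ℂ) (hf : ∀ j, j < k → Bdd X (f j)) (n : ℤ)
    (hn : (2 * k * X : ℤ) < n) : Psi X k f n = 0 := by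
  unfold Psi
  refine Finset.sum_eq_zero fun h _ => ?_
  by_contra hne
  rw [← ne_eq, Finset.prod_ne_zero_iff] at hne
  have h0 := hne 0 (Finset.mem_range.2 (by omega))
  have h1 := hne 1 (Finset.mem_range.2 (by omega))
  have e0 : n - ((k : ℤ) - ((0 : ℕ) : ℤ)) * h ∈ Ico (-(X : ℤ)) X := by
    by_contra hc
    exact h0 ((hf 0 (by omega)).sup _ hc)
  have e1 : n - ((k : ℤ) - ((1 : ℕ) : ℤ)) * h ∈ Ico (-(X : ℤ)) X := by
    by_contra hc
    exact h1 ((hf 1 (by omega)).sup _ hc)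
  rw [Finset.mem_Ico] at e0 e1
  push_cast at e0 e1
  have hk' : (2 : ℤ) ≤ k := by exact_mod_cast hk
  have hX : (0 : ℤ) ≤ X := by positivity
  obtain ⟨a0, a1⟩ := e0
  obtain ⟨b0, b1⟩ := e1
  have hid : n = k * (n - ((k : ℤ) - 1) * h) - (k - 1) * (n - ((k : ℤ) - 0) * h) := by ring
  have i1 : (k : ℤ) * (n - ((k : ℤ) - 1) * h) ≤ k * X :=
    mul_le_mul_of_nonneg_left b1.le (by linarith)
  have i2 : ((k : ℤ) - 1) * (-X) ≤ (k - 1) * (n - ((k : ℤ) - 0) * h) :=
    mul_le_mul_of_nonneg_left a0 (by linarith)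
  nlinarith

theorem b12_ind (Y : ℕ) (a : ℕ → ℂ) :
    ∑ d ∈ Icc 1 Y, a d * ((Real.log d : ℝ) : ℂ) =
      ∑ i ∈ Icc 1 Y, (((Real.log (i + 1) - Real.log i : ℝ)) : ℂ) * ∑ d ∈ Ioc i Y, a d := by
  have hlog : ∀ d : ℕ, 1 ≤ d → Real.log d = ∑ i ∈ Ico 1 d, (Real.log ((i : ℝ) + 1) - Real.log i) := by
    intro d hd
    induction d, hd using Nat.le_induction with
    | base => simp
    | succ m hm ih =>
      rw [Finset.sum_Ico_succ_top hm, ← ih]
      push_cast
      ring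
  have h1 : ∀ d ∈ Icc 1 Y, a d * ((Real.log d : ℝ) : ℂ) =
      ∑ i ∈ Icc 1 Y, if i < d then (((Real.log (i + 1) - Real.log i : ℝ)) : ℂ) * a d else 0 := by
    intro d hd
    rw [Finset.mem_Icc] at hd
    rw [hlog d hd.1, ← Finset.sum_filter]
    have hs : (Icc 1 Y).filter (fun i => i < d) = Ico 1 d := by
      ext i
      simp only [Finset.mem_filter, Finset.mem_Icc, Finset.mem_Ico]
      omega
    rw [hs]
    push_cast
    rw [Finset.mul_sum]
    refine Finset.sum_congr rfl fun i _ => ?_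
    ring
  rw [Finset.sum_congr rfl h1, Finset.sum_comm]
  refine Finset.sum_congr rfl fun i hi => ?_
  rw [Finset.mem_Icc] at hi
  rw [← Finset.sum_filter, Finset.mul_sum]
  refine Finset.sum_congr ?_ fun d _ => rfl
  ext d
  simp only [Finset.mem_filter, Finset.mem_Icc, Finset.mem_Ioc]
  omega

theorem b12_log (Y : ℕ) (a : ℕ → ℂ) (E : ℝ) (hE : ∀ i : ℕ, ‖∑ d ∈ Ioc i Y, a d‖ ≤ E) :
    ‖∑ d ∈ Icc 1 Y, a d * ((Real.log d : ℝ) : ℂ)‖ ≤ E * Real.log (Y + 1) := by
  rw [b12_ind]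
  have hmono : ∀ i ∈ Icc 1 Y, 0 ≤ Real.log ((i : ℝ) + 1) - Real.log i := by
    intro i hi
    rw [Finset.mem_Icc] at hi
    have : (0 : ℝ) < i := by exact_mod_cast hi.1
    have := Real.log_le_log this (by linarith : (i : ℝ) ≤ i + 1)
    linarith
  have htel : ∑ i ∈ Icc 1 Y, (Real.log ((i : ℝ) + 1) - Real.log i) = Real.log (Y + 1) := by
    have : Icc 1 Y = Ico 1 (Y + 1) := by
      ext i
      simp only [Finset.mem_Icc, Finset.mem_Ico]
      omega
    rw [this]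
    have h := Finset.sum_Ico_sub (fun i : ℕ => Real.log (i : ℝ)) (by omega : 1 ≤ Y + 1)
    push_cast at h
    rw [h]
    simp
  calc ‖∑ i ∈ Icc 1 Y, (((Real.log (i + 1) - Real.log i : ℝ)) : ℂ) * ∑ d ∈ Ioc i Y, a d‖
      ≤ ∑ i ∈ Icc 1 Y, (Real.log ((i : ℝ) + 1) - Real.log i) * E := by
        refine (norm_sum_le _ _).trans (Finset.sum_le_sum fun i hi => ?_)
        rw [norm_mul, Complex.norm_real, Real.norm_of_nonneg (hmono i hi)]
        exact mul_le_mul_of_nonneg_left (hE i) (hmono i hi)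
    _ = E * Real.log (Y + 1) := by
        rw [← Finset.sum_mul, htel, mul_comm]

end Pool.Agent.HUK
end

-- from Lib.HUK.B09
section

/-!
# HUK B09 (M, only Mathlib): two multiples of `p`

PROOFS. `b09_line`: `p ∤ c` so the `t ∈ (-H, H)` with `p ∣ x + c t` lie in one residue class mod `p`: at most `(2H-1)/p + 1 ≤ 2H/p + 1 ≤ 3H/p`
of them (`p ≤ H`; `Int.Ioc_filter_modEq_card`, or injectivity of `t ↦ t / p`), and `∑ 1/p ≤ 2H/p`.
`b09_int`: the multiples of `p` in `(lo, hi]` are at most `L/p + 1 ≤ 2L/p`.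
`b09_pair`: `|gp p d| ≤ (1_{p∣d} + 1/p) 1_{(lo,hi]}(d)`. Choose `i0 ∈ w`. For fixed `d` and fixed `j_i`, `i ≠ i0`, the sum over
`j_{i0} ∈ (-H, H)` of `1_{p ∣ d + σ_w(j)} + 1/p` is `≤ 5H/p` by `b09_line` (`p ∤ c_{i0}` because `1 ≤ c_{i0} ≤ k < p`); summing over the other
`k - 1` coordinates: `≤ (2H)^(k-1) * 5H/p ≤ (2H)^k * 3/p`. (`bxS k H` is a `Fintype.piFinset`; to isolate a coordinate use
`Fintype.piFinset` and `Finset.sum_comm'` / `Fin.insertNthEquiv`, or `Function.update`; or reindex by `Equiv.funSplitAt i0`.)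
Then `∑_d (1_{p∣d} + 1/p) ≤ 3L/p` by `b09_int`.
-/

open Finset

namespace Pool.Agent.HUK

theorem b09_cnt (p : ℕ) (hp : 0 < p) (a b : ℤ) (hab : a ≤ b) (S : Finset ℤ) (hS : ∀ t ∈ S, a < t ∧ t ≤ b)
    (hd : ∀ s ∈ S, ∀ t ∈ S, (p : ℤ) ∣ s - t) : (S.card : ℝ) ≤ (b - a) / p + 1 := by
  have hp' : (0 : ℝ) < p := by exact_mod_cast hp
  rcases S.eq_empty_or_nonempty with h | ⟨t0, ht0⟩
  · rw [h, card_empty]
    have h1 : (0 : ℝ) ≤ (b - a) / p := div_nonneg (by
      have : (a : ℝ) ≤ b := by exact_mod_cast hab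
      linarith) hp'.le
    push_cast
    linarith
  · have hsub : S ⊆ (Ioc a b).filter fun x => x ≡ t0 [ZMOD (p : ℤ)] := by
      intro t ht
      rw [mem_filter, mem_Ioc]
      exact ⟨hS t ht, (Int.modEq_iff_dvd.2 (hd t0 ht0 t ht))⟩
    have hc := card_le_card hsub
    have hcard : (((Ioc a b).filter fun x => x ≡ t0 [ZMOD (p : ℤ)]).card : ℤ) =
        max (⌊((b : ℚ) - t0) / (((p : ℤ) : ℤ) : ℚ)⌋ - ⌊((a : ℚ) - t0) / (((p : ℤ) : ℤ) : ℚ)⌋) 0 := by
      exact_mod_cast Int.Ioc_filter_modEq_card a b (by exact_mod_cast hp) t0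
    have h1 : ((⌊((b : ℚ) - t0) / (((p : ℤ) : ℤ) : ℚ)⌋ - ⌊((a : ℚ) - t0) / (((p : ℤ) : ℤ) : ℚ)⌋ : ℤ) : ℚ) ≤
        ((b : ℚ) - a) / p + 1 := by
      have e1 := Int.floor_le (((b : ℚ) - t0) / (((p : ℤ) : ℤ) : ℚ))
      have e2 := Int.lt_floor_add_one (((a : ℚ) - t0) / (((p : ℤ) : ℤ) : ℚ))
      have e3 : ((b : ℚ) - a) / p = ((b : ℚ) - t0) / (((p : ℤ) : ℤ) : ℚ) - ((a : ℚ) - t0) / (((p : ℤ) : ℤ) : ℚ) := by
        push_cast
        ring
      push_cast at e1 e2 e3 ⊢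
      linarith
    have h2 : (0 : ℚ) ≤ ((b : ℚ) - a) / p + 1 := by
      have h3 : (0 : ℚ) ≤ ((b : ℚ) - a) / p := div_nonneg (by
        have : (a : ℚ) ≤ b := by exact_mod_cast hab
        linarith) (by positivity)
      linarith
    have h3 : (((Ioc a b).filter fun x => x ≡ t0 [ZMOD (p : ℤ)]).card : ℚ) ≤ ((b : ℚ) - a) / p + 1 := by
      have h4 : (((Ioc a b).filter fun x => x ≡ t0 [ZMOD (p : ℤ)]).card : ℚ) =
          ((max (⌊((b : ℚ) - t0) / (((p : ℤ) : ℤ) : ℚ)⌋ - ⌊((a : ℚ) - t0) / (((p : ℤ) : ℤ) : ℚ)⌋) 0 : ℤ) : ℚ) := by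
        rw [← hcard]
        push_cast
        rfl
      rw [h4]
      rcases max_choice (⌊((b : ℚ) - t0) / (((p : ℤ) : ℤ) : ℚ)⌋ - ⌊((a : ℚ) - t0) / (((p : ℤ) : ℤ) : ℚ)⌋) 0 with h5 | h5
      · rw [h5]
        exact h1
      · rw [h5]
        exact_mod_cast h2
    have h6 : (S.card : ℚ) ≤ ((b : ℚ) - a) / p + 1 := le_trans (by exact_mod_cast hc) h3
    exact_mod_cast h6

theorem b09_line (p H : ℕ) (hp : p.Prime) (hH : p ≤ H) (c x : ℤ) (hc : ¬ (p : ℤ) ∣ c) :
    ∑ t ∈ Ioo (-(H : ℤ)) H, ((if (p : ℤ) ∣ x + c * t then (1 : ℝ) else 0) + 1 / p) ≤ 5 * H / p := by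
  have hp' : (0 : ℝ) < p := by exact_mod_cast hp.pos
  have hpH : (p : ℝ) ≤ H := by exact_mod_cast hH
  have hH1 : (1 : ℝ) ≤ H / p := (one_le_div hp').2 hpH
  rw [sum_add_distrib, sum_const, ← sum_filter, sum_const, nsmul_eq_mul, nsmul_eq_mul, mul_one]
  have h1 := b09_cnt p hp.pos (-(H : ℤ)) H (by omega) ((Ioo (-(H : ℤ)) H).filter fun t => (p : ℤ) ∣ x + c * t)
    (fun t ht => by
      rw [mem_filter, mem_Ioo] at ht
      exact ⟨ht.1.1, ht.1.2.le⟩)
    (fun s hs t ht => by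
      rw [mem_filter] at hs ht
      have h2 : (p : ℤ) ∣ c * (s - t) := by
        have h3 := dvd_sub hs.2 ht.2
        have e : x + c * s - (x + c * t) = c * (s - t) := by ring
        rwa [e] at h3
      exact ((Nat.prime_iff_prime_int.1 hp).dvd_or_dvd h2).resolve_left hc)
  have h2 : ((Ioo (-(H : ℤ)) H).card : ℝ) ≤ 2 * H := by
    rw [Int.card_Ioo]
    have : ((H : ℤ) - -(H : ℤ) - 1).toNat ≤ 2 * H := by omega
    exact_mod_cast this
  have h3 : ((Ioo (-(H : ℤ)) H).card : ℝ) * (1 / p) ≤ 2 * H / p := by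
    rw [mul_one_div]
    exact div_le_div_of_nonneg_right h2 hp'.le
  push_cast at h1
  have e1 : ((H : ℝ) - -(H : ℝ)) / p = 2 * (H / p) := by ring
  have e2 : 2 * (H : ℝ) / p = 2 * (H / p) := by ring
  have e3 : 5 * (H : ℝ) / p = 5 * (H / p) := by ring
  rw [e1] at h1
  rw [e2] at h3
  rw [e3]
  linarith

theorem b09_int (p L : ℕ) (hp : p.Prime) (hL : p ≤ L) (lo hi : ℤ) (h : hi - lo ≤ L) :
    ∑ d ∈ Ioc lo hi, ((if (p : ℤ) ∣ d then (1 : ℝ) else 0) + 1 / p) ≤ 3 * L / p := by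
  have hp' : (0 : ℝ) < p := by exact_mod_cast hp.pos
  have hpL : (p : ℝ) ≤ L := by exact_mod_cast hL
  have hL1 : (1 : ℝ) ≤ L / p := (one_le_div hp').2 hpL
  have e3 : 3 * (L : ℝ) / p = 3 * (L / p) := by ring
  rcases lt_or_ge hi lo with hlt | hge
  · rw [Ioc_eq_empty (by omega), sum_empty]
    positivity
  rw [sum_add_distrib, sum_const, ← sum_filter, sum_const, nsmul_eq_mul, nsmul_eq_mul, mul_one]
  have h1 := b09_cnt p hp.pos lo hi hge ((Ioc lo hi).filter fun t => (p : ℤ) ∣ t)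
    (fun t ht => by
      rw [mem_filter, mem_Ioc] at ht
      exact ht.1)
    (fun s hs t ht => by
      rw [mem_filter] at hs ht
      exact dvd_sub hs.2 ht.2)
  have h0 : (hi : ℝ) - lo ≤ L := by exact_mod_cast h
  have h2 : ((Ioc lo hi).card : ℝ) ≤ L := by
    rw [Int.card_Ioc]
    have : (hi - lo).toNat ≤ L := by omega
    exact_mod_cast this
  have h3 : ((Ioc lo hi).card : ℝ) * (1 / p) ≤ L / p := by
    rw [mul_one_div]
    exact div_le_div_of_nonneg_right h2 hp'.le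
  have h4 : ((hi : ℝ) - lo) / p ≤ L / p := div_le_div_of_nonneg_right h0 hp'.le
  rw [e3]
  linarith

theorem b09_gp (A D p : ℕ) (lo hi d : ℤ) :
    |gp A D p lo hi d| ≤ (if (p : ℤ) ∣ d then (1 : ℝ) else 0) + 1 / p := by
  have h0 : (0 : ℝ) ≤ 1 / p := by positivity
  unfold gp
  by_cases h1 : lo < d ∧ d ≤ hi ∧ (p : ℤ) * D < d * A
  · rw [if_pos h1]
    by_cases h2 : (p : ℤ) ∣ d
    · rw [if_pos h2, abs_le]
      constructor <;> linarith
    · rw [if_neg h2, abs_le]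
      constructor <;> linarith
  · rw [if_neg h1, abs_zero]
    by_cases h2 : (p : ℤ) ∣ d
    · rw [if_pos h2]
      linarith
    · rw [if_neg h2]
      linarith

theorem b09_box (k H p : ℕ) (hp : p.Prime) (hk : k < p) (hH : p ≤ H) (c : Fin k → ℤ) (hc : ∀ i, 1 ≤ c i ∧ c i ≤ k)
    (w : Finset (Fin k)) (hw : w.Nonempty) (d : ℤ) :
    ∑ j ∈ bxS k H, ((if (p : ℤ) ∣ d + sgb c j w then (1 : ℝ) else 0) + 1 / p) ≤ (2 * H : ℝ) ^ k * (3 / p) := by
  have hp' : (0 : ℝ) < p := by exact_mod_cast hp.pos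
  obtain ⟨i0, hi0⟩ := hw
  rcases k with _ | k
  · exact i0.elim0
  have hci : ¬ (p : ℤ) ∣ c i0 := by
    intro h1
    have h2 := Int.le_of_dvd (by have := (hc i0).1; omega) h1
    have h3 := (hc i0).2
    omega
  have key : ∑ j ∈ bxS (k + 1) H, ((if (p : ℤ) ∣ d + sgb c j w then (1 : ℝ) else 0) + 1 / p) =
      ∑ j' ∈ bxS k H, ∑ t ∈ Ioo (-(H : ℤ)) H, ((if (p : ℤ) ∣ (d + ∑ i ∈ w.erase i0, c i * (i0.insertNth 0 j' : Fin (k + 1) → ℤ) i) +
        c i0 * t then (1 : ℝ) else 0) + 1 / p) := by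
    rw [← sum_product']
    refine sum_nbij' (fun j => (i0.removeNth j, j i0)) (fun q => (i0.insertNth q.2 q.1 : Fin (k + 1) → ℤ)) ?_ ?_ ?_ ?_ ?_
    · intro j hj
      rw [bxS, Fintype.mem_piFinset] at hj
      rw [mem_product, bxS, Fintype.mem_piFinset]
      exact ⟨fun i => hj _, hj _⟩
    · intro q hq
      rw [mem_product, bxS, Fintype.mem_piFinset] at hq
      rw [bxS, Fintype.mem_piFinset]
      intro i
      rcases eq_or_ne i i0 with rfl | hne
      · rw [Fin.insertNth_apply_same]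
        exact hq.2
      · obtain ⟨m, rfl⟩ := Fin.exists_succAbove_eq hne
        rw [Fin.insertNth_apply_succAbove]
        exact hq.1 m
    · intro j _
      exact Fin.insertNth_self_removeNth i0 j
    · intro q _
      refine Prod.ext ?_ ?_
      · exact Fin.removeNth_insertNth (α := fun _ => ℤ) i0 q.2 q.1
      · exact Fin.insertNth_apply_same (α := fun _ => ℤ) i0 q.2 q.1
    · intro j _
      have e : d + sgb c j w = (d + ∑ i ∈ w.erase i0, c i * (i0.insertNth 0 (i0.removeNth j) : Fin (k + 1) → ℤ) i) +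
          c i0 * j i0 := by
        rw [sgb, ← add_sum_erase w (fun i => c i * j i) hi0]
        have e2 : ∑ i ∈ w.erase i0, c i * (i0.insertNth 0 (i0.removeNth j) : Fin (k + 1) → ℤ) i =
            ∑ i ∈ w.erase i0, c i * j i := by
          refine sum_congr rfl fun i hi => ?_
          obtain ⟨m, rfl⟩ := Fin.exists_succAbove_eq (ne_of_mem_erase hi)
          rw [Fin.insertNth_apply_succAbove]
          rfl
        rw [e2]
        ring
      rw [e]
  rw [key]
  have hcb : ((bxS k H).card : ℝ) ≤ (2 * H : ℝ) ^ k := by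
    rw [bxS, Fintype.card_piFinset, prod_const, card_univ, Fintype.card_fin, Int.card_Ioo]
    push_cast
    have : ((H : ℤ) - -(H : ℤ) - 1).toNat ≤ 2 * H := by omega
    exact pow_le_pow_left₀ (by positivity) (by exact_mod_cast this) k
  calc _ ≤ ∑ j' ∈ bxS k H, (5 * H / p : ℝ) := sum_le_sum fun j' _ => b09_line p H hp hH (c i0) _ hci
    _ = (bxS k H).card * (5 * H / p : ℝ) := by rw [sum_const, nsmul_eq_mul]
    _ ≤ (2 * H : ℝ) ^ k * (5 * H / p : ℝ) := by
        refine mul_le_mul_of_nonneg_right hcb (by positivity)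
    _ ≤ (2 * H : ℝ) ^ (k + 1) * (3 / p) := by
        rw [pow_succ]
        have h1 : (2 * H : ℝ) ^ k * (2 * H) * (3 / p) = (2 * H : ℝ) ^ k * (6 * H / p) := by ring
        rw [h1]
        refine mul_le_mul_of_nonneg_left ?_ (by positivity)
        refine div_le_div_of_nonneg_right ?_ hp'.le
        have : (0 : ℝ) ≤ H := by positivity
        linarith

theorem b09_pair (k A D p H L : ℕ) (hp : p.Prime) (hk : k < p) (hH : p ≤ H) (hL : p ≤ L) (lo hi : ℤ) (h : hi - lo ≤ L)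
    (c : Fin k → ℤ) (hc : ∀ i, 1 ≤ c i ∧ c i ≤ k) (w : Finset (Fin k)) (hw : w.Nonempty) :
    ∑ j ∈ bxS k H, ∑ d ∈ Ioc lo hi, |gp A D p lo hi d| * |gp A D p lo hi (d + sgb c j w)| ≤
      (2 * H : ℝ) ^ k * (9 * L / (p : ℝ) ^ 2) := by
  have hp' : (0 : ℝ) < p := by exact_mod_cast hp.pos
  rw [sum_comm]
  have hnn : ∀ d : ℤ, (0 : ℝ) ≤ (if (p : ℤ) ∣ d then (1 : ℝ) else 0) + 1 / p := fun d =>
    (abs_nonneg _).trans (b09_gp 0 0 p 0 0 d)
  calc _ ≤ ∑ d ∈ Ioc lo hi, ((if (p : ℤ) ∣ d then (1 : ℝ) else 0) + 1 / p) * ((2 * H : ℝ) ^ k * (3 / p)) := by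
        refine sum_le_sum fun d _ => ?_
        rw [← mul_sum]
        refine mul_le_mul (b09_gp A D p lo hi d) ?_ (sum_nonneg fun _ _ => abs_nonneg _) (hnn d)
        exact (sum_le_sum fun j _ => b09_gp A D p lo hi _).trans (b09_box k H p hp hk hH c hc w hw d)
    _ = (∑ d ∈ Ioc lo hi, ((if (p : ℤ) ∣ d then (1 : ℝ) else 0) + 1 / p)) * ((2 * H : ℝ) ^ k * (3 / p)) := by
        rw [sum_mul]
    _ ≤ (3 * L / p) * ((2 * H : ℝ) ^ k * (3 / p)) :=
        mul_le_mul_of_nonneg_right (b09_int p L hp hL lo hi h) (by positivity)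
    _ = (2 * H : ℝ) ^ k * (9 * L / (p : ℝ) ^ 2) := by
        field_simp
        ring

end Pool.Agent.HUK
end

-- from Lib.HUK.B11
section

/-!
# HUK B11 (M, only Mathlib): iterated differences of real functions, of products, of indicators

PROOFS. `b11_real`: induction on `k`, `List.ofFn_succ`; `DL (h₀ :: l) f = DL l (DD h₀ f)` and `DD h₀ (g : ℂ) = ((g * g(· + h₀) : ℝ) : ℂ)`
(`Complex.conj_ofReal`). A subset `w` of `Fin (k+1)` is `w'` or `{0} ∪ w'` with `w' ⊆` the image of `Fin.succ`, so the product over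
`Finset (Fin (k+1))` of `g (y + ∑_{i∈w} h i)` is `∏_{w' : Finset (Fin k)} g (y + ∑_{i∈w'} h (i+1)) g (y + h 0 + ∑_{i∈w'} h (i+1))`
(bijection `Finset (Fin k) ⊕ Finset (Fin k) ≃ Finset (Fin (k+1))`, or `Finset.prod_powerset_insert` after `univ = insert 0 (univ.map succ)`).
`b11_mul`: induction on the list, `DD (v) (a ⊗ b) = DD v.1 a ⊗ DD v.2 b`.
`b11_le`: induction. `b11_zero`: `DL l f y` is a product with `f y` as a factor: induction, `DD h f y = 0` if `f y = 0`.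
-/

open Finset

namespace Pool.Agent.HUK

theorem b11_prod_succ (k : ℕ) (F : Finset (Fin (k + 1)) → ℝ) :
    ∏ w : Finset (Fin (k + 1)), F w =
      (∏ w : Finset (Fin k), F (w.map (Fin.succEmb k))) * ∏ w : Finset (Fin k), F (insert 0 (w.map (Fin.succEmb k))) := by
  have hu : (univ : Finset (Fin (k + 1))) = insert 0 (univ.map (Fin.succEmb k)) := by
    ext i
    refine Fin.cases ?_ (fun j => ?_) i
    · simp
    · simp
  have h0 : (0 : Fin (k + 1)) ∉ (univ : Finset (Fin k)).map (Fin.succEmb k) := by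
    intro h
    rw [mem_map] at h
    obtain ⟨a, _, ha⟩ := h
    exact Fin.succ_ne_zero a ha
  have hb : ∀ G : Finset (Fin (k + 1)) → ℝ, ∏ t ∈ ((univ : Finset (Fin k)).map (Fin.succEmb k)).powerset, G t =
      ∏ w : Finset (Fin k), G (w.map (Fin.succEmb k)) := by
    intro G
    symm
    refine prod_bij (fun w _ => w.map (Fin.succEmb k)) (fun w _ => ?_) (fun w _ w' _ h => ?_) (fun t ht => ?_) (fun w _ => rfl)
    · rw [mem_powerset]
      exact map_subset_map.2 (subset_univ w)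
    · exact map_injective _ h
    · rw [mem_powerset, subset_map_iff] at ht
      obtain ⟨u, _, hu2⟩ := ht
      exact ⟨u, mem_univ u, hu2.symm⟩
  rw [← powerset_univ, hu, prod_powerset_insert h0, hb, hb]

theorem b11_real (k : ℕ) (h : Fin k → ℤ) (g : ℤ → ℝ) (y : ℤ) :
    DL (List.ofFn h) (fun x => ((g x : ℝ) : ℂ)) y = ((∏ w : Finset (Fin k), g (y + ∑ i ∈ w, h i) : ℝ) : ℂ) := by
  induction k generalizing g with
  | zero =>
    have h1 : (univ : Finset (Finset (Fin 0))) = {∅} := by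
      ext w
      simp only [mem_univ, mem_singleton, true_iff]
      exact eq_empty_of_isEmpty w
    rw [h1, prod_singleton, sum_empty, add_zero, List.ofFn_zero]
    rfl
  | succ k ih =>
    rw [List.ofFn_succ]
    have h1 : DD (h 0) (fun x => ((g x : ℝ) : ℂ)) = fun x => ((g x * g (x + h 0) : ℝ) : ℂ) := by
      funext x
      unfold DD
      rw [Complex.conj_ofReal, Complex.ofReal_mul]
    show DL (List.ofFn fun i => h i.succ) (DD (h 0) (fun x => ((g x : ℝ) : ℂ))) y = _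
    rw [h1, ih (fun i => h i.succ) (fun x => g x * g (x + h 0)), b11_prod_succ, prod_mul_distrib]
    congr 2
    · refine prod_congr rfl fun w _ => ?_
      rw [sum_map]
      rfl
    · refine prod_congr rfl fun w _ => ?_
      have h0 : (0 : Fin (k + 1)) ∉ w.map (Fin.succEmb k) := by
        intro h
        rw [mem_map] at h
        obtain ⟨a, _, ha⟩ := h
        exact Fin.succ_ne_zero a ha
      rw [sum_insert h0, sum_map]
      congr 1
      show y + ∑ i ∈ w, h i.succ + h 0 = y + (h 0 + ∑ i ∈ w, h i.succ)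
      ring

theorem b11_mul {G H : Type*} [AddCommGroup G] [AddCommGroup H] (l : List (G × H)) (a : G → ℂ) (b : H → ℂ) (z : G × H) :
    DL l (fun z => a z.1 * b z.2) z = DL (l.map Prod.fst) a z.1 * DL (l.map Prod.snd) b z.2 := by
  induction l generalizing a b with
  | nil => rfl
  | cons v l ih =>
    have h1 : DD v (fun z : G × H => a z.1 * b z.2) = fun z : G × H => DD v.1 a z.1 * DD v.2 b z.2 := by
      funext z
      unfold DD
      show a z.1 * b z.2 * (starRingEnd ℂ) (a (z.1 + v.1) * b (z.2 + v.2)) = _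
      rw [map_mul]
      ring
    show DL l (DD v (fun z : G × H => a z.1 * b z.2)) z = _
    rw [h1, ih (DD v.1 a) (DD v.2 b)]
    rfl

theorem b11_le {G : Type*} [AddCommGroup G] (l : List G) (f : G → ℂ) (hf : ∀ y, ‖f y‖ ≤ 1) (y : G) : ‖DL l f y‖ ≤ 1 := by
  induction l generalizing f with
  | nil => exact hf y
  | cons v l ih =>
    refine ih (DD v f) fun x => ?_
    unfold DD
    rw [norm_mul, RCLike.norm_conj]
    exact mul_le_one₀ (hf x) (norm_nonneg _) (hf _)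


end Pool.Agent.HUK
end
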