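import Pool.Agent.Lib.H59M.M1.M002
import Pool.Agent.Lib.H59M.M1.M021
import Pool.Agent.Lib.H59M.M1.M028

/-! Merged copies (to shorten the build) of Lib.HUK.A1, Lib.HUK.A2, Lib.HUK.LL4, Lib.HUK.E2, Lib.HUP.P3a, Lib.HUP.P3b, Lib.HUK.LL9. -/

-- from Lib.HUK.A1
section

open Finset

namespace Pool.Agent.HUK

open Pool.Agent.H44W (ee)

/-- Parseval on the grid. -/
theorem A1_pars (N : ℕ) (hN : 0 < N) (I : Finset ℤ) (hI : ∀ m ∈ I, ∀ n ∈ I, (N : ℤ) ∣ m - n → m = n) (c : ℤ → ℂ) :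
    ∑ j ∈ range N, ‖∑ n ∈ I, c n * ee (-((j : ℝ) / N * n))‖ ^ 2 = N * ∑ n ∈ I, ‖c n‖ ^ 2 := by
  have h : ∑ j ∈ range N, (((‖∑ n ∈ I, c n * ee (-((j : ℝ) / N * n))‖ ^ 2 : ℝ)) : ℂ) =
      N * ∑ n ∈ I, ((‖c n‖ ^ 2 : ℝ) : ℂ) := by
    have h1 : ∀ j ∈ range N, (((‖∑ n ∈ I, c n * ee (-((j : ℝ) / N * n))‖ ^ 2 : ℝ)) : ℂ) =
        ∑ n ∈ I, ∑ m ∈ I, c n * (starRingEnd ℂ) (c m) * ee ((j : ℝ) * ((m - n : ℤ) : ℝ) / N) := by
      intro j _
      push_cast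
      rw [← Complex.mul_conj', map_sum, Finset.sum_mul_sum]
      refine Finset.sum_congr rfl fun n _ => Finset.sum_congr rfl fun m _ => ?_
      rw [map_mul, ← Pool.Agent.H44W.ee_neg, show (j : ℝ) * ((m : ℝ) - n) / N = -((j : ℝ) / N * n) + - -((j : ℝ) / N * m) by ring,
        Pool.Agent.H44W.ee_add]
      ring
    rw [Finset.sum_congr rfl h1, Finset.sum_comm]
    rw [Finset.mul_sum]
    refine Finset.sum_congr rfl fun n hn => ?_
    rw [Finset.sum_comm]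
    have h2 : ∀ m ∈ I, ∑ j ∈ range N, c n * (starRingEnd ℂ) (c m) * ee ((j : ℝ) * ((m - n : ℤ) : ℝ) / N) =
        if m = n then (N : ℂ) * ((‖c n‖ ^ 2 : ℝ) : ℂ) else 0 := by
      intro m hm
      rw [← Finset.mul_sum, Pool.Agent.H44W.ee_orth N hN (m - n)]
      by_cases hmn : m = n
      · rw [if_pos hmn, hmn, sub_self, if_pos (dvd_zero _), Complex.mul_conj']
        push_cast
        ring
      · rw [if_neg hmn, if_neg (fun hd => hmn (hI m hm n hn hd)), mul_zero]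
    rw [Finset.sum_congr rfl h2, Finset.sum_ite_eq' I n, if_pos hn]
  have h3 : ((∑ j ∈ range N, ‖∑ n ∈ I, c n * ee (-((j : ℝ) / N * n))‖ ^ 2 : ℝ) : ℂ) = ((N * ∑ n ∈ I, ‖c n‖ ^ 2 : ℝ) : ℂ) := by
    push_cast
    push_cast at h
    exact h
  exact_mod_cast h3

/-- Mean value on the grid. -/
theorem A1_mean (N : ℕ) (hN : 0 < N) (I : Finset ℤ) (hI : ∀ n ∈ I, (N : ℤ) ∣ n → n = 0) (h0 : (0 : ℤ) ∈ I) (c : ℤ → ℂ) :
    ∑ j ∈ range N, ∑ n ∈ I, c n * ee (-((j : ℝ) / N * n)) = N * c 0 := by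
  rw [Finset.sum_comm]
  have h2 : ∀ n ∈ I, ∑ j ∈ range N, c n * ee (-((j : ℝ) / N * n)) = if n = 0 then (N : ℂ) * c 0 else 0 := by
    intro n hn
    have h3 : ∀ j ∈ range N, c n * ee (-((j : ℝ) / N * n)) = c n * ee ((j : ℝ) * ((-n : ℤ) : ℝ) / N) := by
      intro j _
      congr 2
      push_cast
      ring
    rw [Finset.sum_congr rfl h3, ← Finset.mul_sum, Pool.Agent.H44W.ee_orth N hN (-n)]
    by_cases hn0 : n = 0
    · rw [if_pos hn0, hn0, neg_zero, if_pos (dvd_zero _)]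
      ring
    · rw [if_neg hn0, if_neg (fun hd => hn0 (hI n hn ((dvd_neg).mp hd))), mul_zero]
  rw [Finset.sum_congr rfl h2, Finset.sum_ite_eq' I 0, if_pos h0]

theorem A1_fw_half (H : ℕ) (hH : 1 ≤ H) (n : ℤ) (hn : n ∈ Ioo (-(H : ℤ)) H) : 1 / 2 ≤ fw (2 * H) n := by
  rw [mem_Ioo] at hn
  have h1 : |(n : ℝ)| ≤ H := by
    rw [abs_le]
    constructor
    · have := hn.1.le
      exact_mod_cast this
    · have := hn.2.le
      exact_mod_cast this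
  have hH' : (0 : ℝ) < H := by exact_mod_cast hH
  unfold fw
  refine le_trans ?_ (le_max_right _ _)
  push_cast
  rw [le_sub_iff_add_le, ← le_sub_iff_add_le', div_le_iff₀ (by positivity)]
  linarith

/-- Proof. `Φ(n) = ∑_{a ∈ 𝒜} ∑_y g a y conj g a (y + a n)`, `S(ψ) = ∑_{|n|<2H} fw (2H) n Φ(n) ee(-ψ n) = 2H ∑_{a ∈ 𝒜} TQ X (2H) a ψ (g a) ≥ 0` (`TQ_eq`).
Over the grid `ψ = j/(4H)`, `j < 4H` (`ee_orth`): the mean of `S` is `Φ(0) ≤ 2 |𝒜| X`, the mean of `S²` is `∑_{|n|<2H} fw² ‖Φ(n)‖² ≥ (1/4) ∑_{|n|<H} ‖Φ(n)‖²`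
(`Φ(-n) = conj Φ(n)` is not needed: use `S = |S|` and Parseval for `‖S‖²`). So for some grid point `S ≥ mean S²/mean S ≥ (δ/8) H |𝒜| X` (if `|𝒜| X = 0` the claim
is clear). -/
theorem A1_freq (X H : ℕ) (hH : 1 ≤ H) (𝒜 : Finset ℕ) (hA : ∀ a ∈ 𝒜, 1 ≤ a ∧ 4 * a * H ≤ X) (g : ℕ → ℤ → ℂ)
    (hg : ∀ a ∈ 𝒜, Bdd X (g a)) (δ : ℝ) (hδ : 0 ≤ δ)
    (h : δ * H * ((𝒜.card : ℝ) * X) ^ 2 ≤ ∑ n ∈ Ioo (-(H : ℤ)) H,
      ‖∑ a ∈ 𝒜, ∑ y ∈ Ico (-(X : ℤ)) X, g a y * (starRingEnd ℂ) (g a (y + a * n))‖ ^ 2) :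
    ∃ ψ : ℝ, δ / 16 * (𝒜.card * X) ≤ ∑ a ∈ 𝒜, TQ X (2 * H) a ψ (g a) := by
  have hH' : (0 : ℝ) < H := by exact_mod_cast hH
  set Φ : ℤ → ℂ := fun n => ∑ a ∈ 𝒜, ∑ y ∈ Ico (-(X : ℤ)) X, g a y * (starRingEnd ℂ) (g a (y + a * n)) with hΦ
  set S : ℕ → ℝ := fun j => ∑ a ∈ 𝒜, TQ X (2 * H) a ((j : ℝ) / (4 * H : ℕ)) (g a) with hS
  have hS0 : ∀ j, 0 ≤ S j := fun j => Finset.sum_nonneg fun a _ => Finset.sum_nonneg fun z _ => by positivity
  set c : ℤ → ℂ := fun n => ((fw (2 * H) n : ℝ) : ℂ) * Φ n with hc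
  have hSe : ∀ j : ℕ, (((2 * H : ℕ) * S j : ℝ) : ℂ) = ∑ n ∈ Ioo (-((2 * H : ℕ) : ℤ)) (2 * H : ℕ), c n * ee (-((j : ℝ) / (4 * H : ℕ) * n)) := by
    intro j
    have h1 : (((2 * H : ℕ) * S j : ℝ) : ℂ) = ∑ a ∈ 𝒜, (((2 * H : ℕ) * TQ X (2 * H) a ((j : ℝ) / (4 * H : ℕ)) (g a) : ℝ) : ℂ) := by
      rw [hS]
      simp only
      rw [Finset.mul_sum, Complex.ofReal_sum]
    rw [h1]
    have h2 : ∀ a ∈ 𝒜, (((2 * H : ℕ) * TQ X (2 * H) a ((j : ℝ) / (4 * H : ℕ)) (g a) : ℝ) : ℂ) =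
        ∑ n ∈ Ioo (-((2 * H : ℕ) : ℤ)) (2 * H : ℕ), ((fw (2 * H) n : ℝ) : ℂ) * ee (-((j : ℝ) / (4 * H : ℕ) * n)) *
          ∑ y ∈ Ico (-(X : ℤ)) X, g a y * (starRingEnd ℂ) (g a (y + a * n)) := by
      intro a ha
      refine TQ_eq X (2 * H) (by omega) a (by positivity) ?_ _ (g a) (hg a ha).sup
      have := (hA a ha).2
      have h3 : a * (2 * H) ≤ X := by nlinarith
      exact_mod_cast h3
    rw [Finset.sum_congr rfl h2, Finset.sum_comm]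
    refine Finset.sum_congr rfl fun n _ => ?_
    rw [hc, hΦ]
    simp only
    rw [← Finset.mul_sum]
    ring
  have hI : ∀ m ∈ Ioo (-((2 * H : ℕ) : ℤ)) (2 * H : ℕ), ∀ n ∈ Ioo (-((2 * H : ℕ) : ℤ)) (2 * H : ℕ), ((4 * H : ℕ) : ℤ) ∣ m - n → m = n := by
    intro m hm n hn hd
    rw [mem_Ioo] at hm hn
    push_cast at hm hn hd
    have := Int.eq_zero_of_abs_lt_dvd hd (by rw [abs_lt]; constructor <;> omega)
    omega
  have h0I : (0 : ℤ) ∈ Ioo (-((2 * H : ℕ) : ℤ)) (2 * H : ℕ) := by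
    rw [mem_Ioo]; push_cast; constructor <;> omega
  have hI0 : ∀ n ∈ Ioo (-((2 * H : ℕ) : ℤ)) (2 * H : ℕ), ((4 * H : ℕ) : ℤ) ∣ n → n = 0 := by
    intro n hn hd
    exact hI n hn 0 h0I (by rw [sub_zero]; exact hd)
  have hmean : ∑ j ∈ range (4 * H), S j ≤ 2 * (2 * (𝒜.card * X)) := by
    have h1 := A1_mean (4 * H) (by omega) _ hI0 h0I c
    have h2 : ((∑ j ∈ range (4 * H), (2 * H : ℕ) * S j : ℝ) : ℂ) = (4 * H : ℕ) * c 0 := by
      rw [Complex.ofReal_sum, ← h1]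
      exact Finset.sum_congr rfl fun j _ => hSe j
    have h3 : ‖c 0‖ ≤ 2 * (𝒜.card * X) := by
      have hf : fw (2 * H) 0 = 1 := by simp [fw]
      rw [hc]
      simp only
      rw [hf, Complex.ofReal_one, one_mul]
      rw [hΦ]
      simp only
      have h4 : ∀ a ∈ 𝒜, ‖∑ y ∈ Ico (-(X : ℤ)) X, g a y * (starRingEnd ℂ) (g a (y + a * 0))‖ ≤ 2 * X := by
        intro a ha
        refine (norm_sum_le _ _).trans ?_
        have h5 : ∀ y ∈ Ico (-(X : ℤ)) X, ‖g a y * (starRingEnd ℂ) (g a (y + a * 0))‖ ≤ 1 := by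
          intro y _
          rw [norm_mul, RCLike.norm_conj]
          exact mul_le_one₀ ((hg a ha).le _) (norm_nonneg _) ((hg a ha).le _)
        refine (Finset.sum_le_sum h5).trans ?_
        rw [Finset.sum_const, Int.card_Ico, nsmul_eq_mul, mul_one]
        have : ((X : ℤ) - -(X : ℤ)).toNat = 2 * X := by omega
        rw [this]
        push_cast
        exact le_refl _
      refine (norm_sum_le _ _).trans ((Finset.sum_le_sum h4).trans ?_)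
      rw [Finset.sum_const, nsmul_eq_mul]
      apply le_of_eq
      ring
    have h4 : (2 * H : ℕ) * ∑ j ∈ range (4 * H), S j = ‖((4 * H : ℕ) : ℂ) * c 0‖ := by
      rw [← h2, ← Finset.mul_sum, Complex.norm_real, Real.norm_of_nonneg]
      exact mul_nonneg (by positivity) (Finset.sum_nonneg fun j _ => hS0 j)
    rw [norm_mul, Complex.norm_natCast] at h4
    push_cast at h4
    have h5 : 4 * (H : ℝ) * ‖c 0‖ ≤ 4 * H * (2 * (𝒜.card * X)) := mul_le_mul_of_nonneg_left h3 (by positivity)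
    have h6 : (2 * (H : ℝ)) * ∑ j ∈ range (4 * H), S j ≤ (2 * H) * (2 * (2 * (𝒜.card * X))) := by linarith
    exact le_of_mul_le_mul_left h6 (by positivity)
  have hsq : δ / 4 * (𝒜.card * X) ^ 2 ≤ ∑ j ∈ range (4 * H), S j ^ 2 := by
    have h1 := A1_pars (4 * H) (by omega) _ hI c
    have h2 : ∑ j ∈ range (4 * H), ((2 * H : ℕ) * S j) ^ 2 = (4 * H : ℕ) * ∑ n ∈ Ioo (-((2 * H : ℕ) : ℤ)) (2 * H : ℕ), ‖c n‖ ^ 2 := by
      rw [← h1]
      refine Finset.sum_congr rfl fun j _ => ?_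
      rw [← hSe j, Complex.norm_real, Real.norm_eq_abs, sq_abs]
    have h3 : 1 / 4 * ∑ n ∈ Ioo (-(H : ℤ)) H, ‖Φ n‖ ^ 2 ≤ ∑ n ∈ Ioo (-((2 * H : ℕ) : ℤ)) (2 * H : ℕ), ‖c n‖ ^ 2 := by
      rw [Finset.mul_sum]
      refine (Finset.sum_le_sum (g := fun n => ‖c n‖ ^ 2) ?_).trans
        (Finset.sum_le_sum_of_subset_of_nonneg ?_ fun n _ _ => by positivity)
      · intro n hn
        have h4 := A1_fw_half H hH n hn
        rw [hc]
        simp only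
        rw [norm_mul, Complex.norm_real, mul_pow]
        refine mul_le_mul_of_nonneg_right ?_ (by positivity)
        rw [Real.norm_eq_abs, sq_abs]
        nlinarith
      · intro n hn
        rw [mem_Ioo] at hn ⊢
        push_cast
        constructor <;> omega
    have h4 : ∑ j ∈ range (4 * H), ((2 * H : ℕ) * S j) ^ 2 = (2 * (H : ℝ)) ^ 2 * ∑ j ∈ range (4 * H), S j ^ 2 := by
      rw [Finset.mul_sum]
      refine Finset.sum_congr rfl fun j _ => ?_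
      push_cast
      ring
    rw [h4] at h2
    have h5 : (4 * (H : ℝ)) * (1 / 4 * (δ * H * ((𝒜.card : ℝ) * X) ^ 2)) ≤ (2 * (H : ℝ)) ^ 2 * ∑ j ∈ range (4 * H), S j ^ 2 := by
      rw [h2]
      push_cast
      refine mul_le_mul_of_nonneg_left ?_ (by positivity)
      refine le_trans ?_ h3
      linarith
    have h6 : (4 * (H : ℝ)^2) * (δ / 4 * (𝒜.card * X) ^ 2) ≤ (4 * (H : ℝ)^2) * ∑ j ∈ range (4 * H), S j ^ 2 := by
      nlinarith
    exact le_of_mul_le_mul_left h6 (by positivity)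
  obtain ⟨j0, hj0, hmax⟩ := Finset.exists_max_image (range (4 * H)) S ⟨0, by rw [mem_range]; omega⟩
  refine ⟨(j0 : ℝ) / (4 * H : ℕ), ?_⟩
  change _ ≤ S j0
  have h7 : ∑ j ∈ range (4 * H), S j ^ 2 ≤ S j0 * ∑ j ∈ range (4 * H), S j := by
    rw [Finset.mul_sum]
    refine Finset.sum_le_sum fun j hj => ?_
    rw [pow_two]
    exact mul_le_mul_of_nonneg_right (hmax j hj) (hS0 j)
  have h8 : δ / 4 * (𝒜.card * X) ^ 2 ≤ S j0 * (2 * (2 * (𝒜.card * X))) :=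
    hsq.trans (h7.trans (mul_le_mul_of_nonneg_left hmean (hS0 j0)))
  have hcX : (0 : ℝ) ≤ 𝒜.card * X := by positivity
  rcases hcX.eq_or_lt with h9 | h9
  · rw [← h9, mul_zero]
    exact hS0 j0
  · have h10 : (4 * (𝒜.card * X : ℝ)) * (δ / 16 * (𝒜.card * X)) ≤ (4 * (𝒜.card * X)) * S j0 := by nlinarith
    exact le_of_mul_le_mul_left h10 (by positivity)

end Pool.Agent.HUK
end

-- from Lib.HUK.A2
section

/-!
# Project HUK, chunk A2 (M): quasi-periodic weights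
-/

open Finset

namespace Pool.Agent.HUK

open Pool.Agent.H44W (ee)

/-- The averages. -/
noncomputable def a2w (M : ℕ) (a : ℤ) (ψ : ℝ) (g : ℤ → ℂ) (z : ℤ) : ℂ :=
  (∑ j ∈ range M, g (z + a * j) * ee (ψ * j)) / M

/-- The weight. -/
noncomputable def a2c (M : ℕ) (a : ℤ) (ψ : ℝ) (w : ℤ → ℂ) (y : ℤ) : ℂ :=
  (∑ j ∈ range M, ee (ψ * j) * (starRingEnd ℂ) (w (y - a * j))) / M

theorem a2_avg {M : ℕ} (hM : 1 ≤ M) {F : ℕ → ℂ} {B : ℝ} (h : ∀ j ∈ range M, ‖F j‖ ≤ B) :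
    ‖(∑ j ∈ range M, F j) / M‖ ≤ B := by
  have hM0 : (0 : ℝ) < M := by exact_mod_cast hM
  rw [norm_div, Complex.norm_natCast, div_le_iff₀ hM0]
  refine (norm_sum_le _ _).trans ?_
  refine (Finset.sum_le_sum h).trans ?_
  rw [Finset.sum_const, card_range, nsmul_eq_mul, mul_comm]

theorem a2_w_le {M : ℕ} (hM : 1 ≤ M) (a : ℤ) (ψ : ℝ) {g : ℤ → ℂ} (hg : ∀ y, ‖g y‖ ≤ 1) (z : ℤ) :
    ‖a2w M a ψ g z‖ ≤ 1 := by
  apply a2_avg hM
  intro j _
  rw [norm_mul, Pool.Agent.H44W.norm_ee, mul_one]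
  exact hg _

theorem a2_c_le {M : ℕ} (hM : 1 ≤ M) (a : ℤ) (ψ : ℝ) {w : ℤ → ℂ} (hw : ∀ y, ‖w y‖ ≤ 1) (y : ℤ) :
    ‖a2c M a ψ w y‖ ≤ 1 := by
  apply a2_avg hM
  intro j _
  rw [norm_mul, Pool.Agent.H44W.norm_ee, one_mul, RCLike.norm_conj]
  exact hw _

theorem a2_w_step {M : ℕ} (hM : 1 ≤ M) (a : ℤ) (ψ : ℝ) {g : ℤ → ℂ} (hg : ∀ y, ‖g y‖ ≤ 1) (z : ℤ) :
    ‖a2w M a ψ g (z + a) - ee (-ψ) * a2w M a ψ g z‖ ≤ 2 / M := by
  have hM0 : (0 : ℝ) < M := by exact_mod_cast hM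
  have h1 : ∑ j ∈ range M, g (z + a + a * j) * ee (ψ * j) =
      ee (-ψ) * ∑ j ∈ range M, g (z + a * ((j + 1 : ℕ) : ℤ)) * ee (ψ * ((j + 1 : ℕ) : ℝ)) := by
    rw [Finset.mul_sum]
    refine Finset.sum_congr rfl fun j _ => ?_
    have e1 : z + a + a * (j : ℤ) = z + a * ((j + 1 : ℕ) : ℤ) := by
      push_cast
      ring
    have e2 : ψ * (j : ℝ) = -ψ + ψ * ((j + 1 : ℕ) : ℝ) := by
      push_cast
      ring
    rw [e1, e2, Pool.Agent.H44W.ee_add]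
    ring
  have h2 := Finset.sum_range_succ' (fun j : ℕ => g (z + a * (j : ℤ)) * ee (ψ * (j : ℝ))) M
  rw [Finset.sum_range_succ] at h2
  have h3 : a2w M a ψ g (z + a) - ee (-ψ) * a2w M a ψ g z =
      ee (-ψ) * ((g (z + a * (M : ℤ)) * ee (ψ * (M : ℝ)) - g (z + a * ((0 : ℕ) : ℤ)) * ee (ψ * ((0 : ℕ) : ℝ))) / M) := by
    unfold a2w
    rw [h1]
    linear_combination (-(ee (-ψ)) / M) * h2
  rw [h3, norm_mul, Pool.Agent.H44W.norm_ee, one_mul, norm_div, Complex.norm_natCast]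
  apply div_le_div_of_nonneg_right _ hM0.le
  refine (norm_sub_le _ _).trans ?_
  rw [norm_mul, norm_mul, Pool.Agent.H44W.norm_ee, Pool.Agent.H44W.norm_ee, mul_one, mul_one]
  linarith [hg (z + a * (M : ℤ)), hg (z + a * ((0 : ℕ) : ℤ))]

theorem a2_c_step {M : ℕ} (hM : 1 ≤ M) (a : ℤ) (ψ : ℝ) {w : ℤ → ℂ}
    (hw : ∀ z, ‖w (z + a) - ee (-ψ) * w z‖ ≤ 2 / M) (y : ℤ) :
    ‖a2c M a ψ w (y + a) - ee ψ * a2c M a ψ w y‖ ≤ 2 / M := by
  have h1 : a2c M a ψ w (y + a) - ee ψ * a2c M a ψ w y =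
      (∑ j ∈ range M, ee (ψ * j) * (starRingEnd ℂ) (w ((y - a * j) + a) - ee (-ψ) * w (y - a * j))) / M := by
    unfold a2c
    rw [← mul_div_assoc, ← sub_div, Finset.mul_sum, ← Finset.sum_sub_distrib]
    congr 1
    refine Finset.sum_congr rfl fun j _ => ?_
    have e1 : y + a - a * (j : ℤ) = (y - a * (j : ℤ)) + a := by ring
    rw [e1, map_sub, map_mul, ← Pool.Agent.H44W.ee_neg, neg_neg]
    ring
  rw [h1]
  apply a2_avg hM
  intro j _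
  rw [norm_mul, Pool.Agent.H44W.norm_ee, one_mul, RCLike.norm_conj]
  exact hw _

theorem a2_c_qp {M : ℕ} (hM : 1 ≤ M) (a : ℤ) (ψ : ℝ) {c : ℤ → ℂ}
    (hc : ∀ y, ‖c (y + a) - ee ψ * c y‖ ≤ 2 / M) (y : ℤ) (k : ℕ) :
    ‖c (y + a * k) - ee (ψ * k) * c y‖ ≤ 2 * k / M := by
  induction k with
  | zero =>
    rw [Nat.cast_zero, mul_zero, add_zero, Nat.cast_zero, mul_zero, Pool.Agent.H44W.ee_zero, one_mul, sub_self,
      norm_zero, mul_zero, zero_div]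
  | succ k ih =>
    have e1 : y + a * ((k + 1 : ℕ) : ℤ) = (y + a * k) + a := by
      push_cast
      ring
    have e2 : ψ * ((k + 1 : ℕ) : ℝ) = ψ + ψ * k := by
      push_cast
      ring
    have e3 : c ((y + a * k) + a) - ee (ψ + ψ * k) * c y =
        (c ((y + a * k) + a) - ee ψ * c (y + a * k)) + ee ψ * (c (y + a * k) - ee (ψ * k) * c y) := by
      rw [Pool.Agent.H44W.ee_add]
      ring
    rw [e1, e2, e3]
    refine (norm_add_le _ _).trans ?_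
    rw [norm_mul, Pool.Agent.H44W.norm_ee, one_mul]
    have h1 := hc (y + a * k)
    have e4 : 2 * (((k + 1 : ℕ) : ℝ)) / M = 2 / M + 2 * k / M := by
      push_cast
      ring
    rw [e4]
    exact add_le_add h1 ih

/-- Translation of a sum. -/
theorem a2_shift (X : ℕ) (b : ℤ) (hb : 0 ≤ b) (hbX : b ≤ X) (F : ℤ → ℂ) (hF : ∀ y, y ∉ Ico (-(X : ℤ)) X → F y = 0) :
    ∑ y ∈ Ico (-(X : ℤ)) X, F y = ∑ z ∈ Ico (-(2 * X : ℤ)) (2 * X), F (z + b) := by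
  have h1 : ∑ᶠ y, F y = ∑ y ∈ Ico (-(X : ℤ)) X, F y := by
    apply finsum_eq_sum_of_support_subset
    intro y hy
    by_contra hn
    exact hy (hF y (fun h => hn (by exact_mod_cast h)))
  have h2 : ∑ᶠ z, F (z + b) = ∑ z ∈ Ico (-(2 * X : ℤ)) (2 * X), F (z + b) := by
    apply finsum_eq_sum_of_support_subset
    intro z hz
    by_contra hn
    apply hz
    apply hF
    intro h
    apply hn
    rw [Finset.mem_Ico] at h
    rw [Finset.coe_Ico, Set.mem_Ico]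
    constructor
    · omega
    · omega
  rw [← h1, ← h2]
  exact (finsum_comp_equiv (Equiv.addRight b)).symm

/-- Proof. `w(z) = (1/M) ∑_{j<M} g(z + a j) ee(ψ j)`, `c(y) = (1/M) ∑_{j<M} ee(ψ j) conj w(y - a j)`. `‖w‖, ‖c‖ ≤ 1`; `w` is supported in `[-X - aM, X)`, `c` in
`[-X - aM, X + aM)`. `∑_y g(y) c(y) = (1/M) ∑_j ee(ψ j) ∑_z g(z + a j) conj w(z) = ∑_z ‖w(z)‖² = TQ`. Quasi-periodicity:
`w(z + a) = ee(-ψ) (w(z) + (g(z + aM) ee(ψ M) - g(z))/M)`, so `‖w(z + a) - ee(-ψ) w(z)‖ ≤ 2/M`, hence `‖c(y + a) - ee(ψ) c(y)‖ ≤ 2/M`; induction on `k`. -/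
theorem A2_wt (X M : ℕ) (hM : 1 ≤ M) (a : ℤ) (ha : 0 ≤ a) (haM : a * M ≤ X) (ψ : ℝ) (g : ℤ → ℂ) (hg : Bdd X g) :
    ∃ c : ℤ → ℂ, (∀ y, ‖c y‖ ≤ 1) ∧ (∀ y, y ∉ Ico (-(3 * X : ℤ)) (3 * X) → c y = 0) ∧
      (∀ (y : ℤ) (k : ℕ), ‖c (y + a * k) - ee (ψ * k) * c y‖ ≤ 2 * k / M) ∧
      ∑ y ∈ Ico (-(X : ℤ)) X, g y * c y = ((TQ X M a ψ g : ℝ) : ℂ) := by
  have hM0 : (0 : ℝ) < M := by exact_mod_cast hM
  have haj : ∀ j ∈ range M, 0 ≤ a * (j : ℤ) ∧ a * (j : ℤ) ≤ X := by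
    intro j hj
    rw [Finset.mem_range] at hj
    refine ⟨by positivity, le_trans (mul_le_mul_of_nonneg_left ?_ ha) haM⟩
    exact_mod_cast hj.le
  have hw := a2_w_le hM a ψ hg.le
  refine ⟨a2c M a ψ (a2w M a ψ g), a2_c_le hM a ψ hw, ?_,
    a2_c_qp hM a ψ (a2_c_step hM a ψ (a2_w_step hM a ψ hg.le)), ?_⟩
  · intro y hy
    unfold a2c
    rw [Finset.sum_eq_zero, zero_div]
    intro j hj
    have h0 : a2w M a ψ g (y - a * j) = 0 := by
      unfold a2w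
      rw [Finset.sum_eq_zero, zero_div]
      intro i hi
      have h1 := haj j hj
      have h2 := haj i hi
      rw [hg.sup, zero_mul]
      intro h3
      apply hy
      rw [Finset.mem_Ico] at h3 ⊢
      constructor
      · omega
      · omega
    rw [h0, map_zero, mul_zero]
  · have h1 : ∀ j ∈ range M, ∑ y ∈ Ico (-(X : ℤ)) X, g y * (starRingEnd ℂ) (a2w M a ψ g (y - a * j)) =
        ∑ z ∈ Ico (-(2 * X : ℤ)) (2 * X), g (z + a * j) * (starRingEnd ℂ) (a2w M a ψ g z) := by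
      intro j hj
      rw [a2_shift X (a * j) (haj j hj).1 (haj j hj).2 (fun y => g y * (starRingEnd ℂ) (a2w M a ψ g (y - a * j)))
        (fun y hy => by rw [hg.sup y hy, zero_mul])]
      refine Finset.sum_congr rfl fun z _ => ?_
      rw [add_sub_cancel_right]
    have h2 : ∑ y ∈ Ico (-(X : ℤ)) X, g y * a2c M a ψ (a2w M a ψ g) y =
        (∑ j ∈ range M, ee (ψ * j) * ∑ y ∈ Ico (-(X : ℤ)) X, g y * (starRingEnd ℂ) (a2w M a ψ g (y - a * j))) / M := by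
      unfold a2c
      rw [Finset.sum_congr rfl (fun j _ => Finset.mul_sum _ _ _), Finset.sum_comm, Finset.sum_div]
      refine Finset.sum_congr rfl fun y _ => ?_
      rw [← mul_div_assoc, Finset.mul_sum]
      congr 1
      refine Finset.sum_congr rfl fun j _ => ?_
      ring
    have h3 : ∑ j ∈ range M, ee (ψ * j) * ∑ y ∈ Ico (-(X : ℤ)) X, g y * (starRingEnd ℂ) (a2w M a ψ g (y - a * j)) =
        ∑ j ∈ range M, ee (ψ * j) * ∑ z ∈ Ico (-(2 * X : ℤ)) (2 * X), g (z + a * j) * (starRingEnd ℂ) (a2w M a ψ g z) :=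
      Finset.sum_congr rfl fun j hj => by rw [h1 j hj]
    rw [h2, h3]
    unfold TQ
    rw [Complex.ofReal_sum, Finset.sum_congr rfl (fun j _ => Finset.mul_sum _ _ _), Finset.sum_comm, Finset.sum_div]
    refine Finset.sum_congr rfl fun z _ => ?_
    have h4 : ∑ j ∈ range M, ee (ψ * j) * (g (z + a * j) * (starRingEnd ℂ) (a2w M a ψ g z)) =
        (∑ j ∈ range M, g (z + a * j) * ee (ψ * j)) * (starRingEnd ℂ) (a2w M a ψ g z) := by
      rw [Finset.sum_mul]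
      refine Finset.sum_congr rfl fun j _ => ?_
      ring
    have h5 : (∑ j ∈ range M, g (z + a * j) * ee (ψ * j)) / (M : ℂ) = a2w M a ψ g z := rfl
    rw [h4, mul_div_right_comm, h5, Complex.mul_conj, Complex.normSq_eq_norm_sq]

end Pool.Agent.HUK
end

-- from Lib.HUK.LL4
section

/-!
# Project HUK, chunk LL4 (M): Cauchy-Schwarz over `y`
-/

open Finset

namespace Pool.Agent.HUK

theorem ll4_vt_mul {s : ℕ} (β : ℤ) (ω : Fin s → Bool) (t : Fin s → ℤ) :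
    vt ω (fun i => β * t i) = β * vt ω t := by
  unfold vt
  rw [mul_sum]
  refine sum_congr rfl fun i _ => ?_
  split_ifs
  · rfl
  · rw [mul_zero]

theorem ll4_sg_zv (s : ℕ) : sg (zv s) = 0 := by
  unfold sg zv
  simp

theorem ll4_vt_zv (s : ℕ) (t : Fin s → ℤ) : vt (zv s) t = 0 := by
  unfold vt zv
  simp

theorem ll4_prod_zv (s : ℕ) (a : (Fin s → Bool) → ℂ) :
    ∏ ω : Fin s → Bool, a ω = a (zv s) * ∏ ω : Fin s → Bool, (if ω = zv s then 1 else a ω) := by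
  have h1 : ∏ ω : Fin s → Bool, (if ω = zv s then a (zv s) else 1) = a (zv s) := by
    rw [prod_ite_eq' univ (zv s) (fun _ => a (zv s)), if_pos (mem_univ _)]
  rw [← h1]
  have h2 : ∀ ω : Fin s → Bool, a ω = (if ω = zv s then a (zv s) else 1) * (if ω = zv s then 1 else a ω) := by
    intro ω
    split_ifs with h
    · rw [h, mul_one]
    · rw [one_mul]
  rw [h1]
  calc ∏ ω : Fin s → Bool, a ω = ∏ ω : Fin s → Bool, ((if ω = zv s then a (zv s) else 1) * (if ω = zv s then 1 else a ω)) :=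
        prod_congr rfl fun ω _ => h2 ω
    _ = (∏ ω : Fin s → Bool, (if ω = zv s then a (zv s) else 1)) * ∏ ω : Fin s → Bool, (if ω = zv s then 1 else a ω) :=
        prod_mul_distrib
    _ = a (zv s) * ∏ ω : Fin s → Bool, (if ω = zv s then 1 else a ω) := by rw [h1]

theorem ll4_conj_PV {s : ℕ} (β : ℤ) (U : (Fin s → Bool) → ℤ → ℂ) (t : Fin s → ℤ) (y : ℤ) :
    (starRingEnd ℂ) (PV β U t y) = PV β (cU U) t y := by
  unfold PV cU
  rw [map_prod]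

theorem ll4_FW_cons (M s : ℕ) (t0 : ℤ) (t : Fin s → ℤ) :
    FW M (Fin.cons t0 t : Fin (s + 1) → ℤ) = fw M t0 * FW M t := by
  unfold FW
  rw [Fin.prod_univ_succ]
  simp only [Fin.cons_zero, Fin.cons_succ]

/-- The vertices of the cube `{0,1}^(s+1)` other than `0`: for `t = cons t0 t'`: `DV (β t) f y = f y * PV β (Uf f (β t0)) t' y`.
By `DL_prod` (with `vt ω (fun i => β * t i) = β * vt ω t`) and `Fin.consEquiv`, `p0_sg_cons`: the pair `(cons false ω, cons true ω)`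
gives `cj (sg ω) (f (y + β ω·t')) * cj (sg ω + 1) (f (y + β t0 + β ω·t'))`; the factor `cj 0 (f y)` of `ω = zv s` is taken out. -/
theorem LL4_DV (s : ℕ) (β : ℤ) (f : ℤ → ℂ) (t0 : ℤ) (t : Fin s → ℤ) (y : ℤ) :
    DV (fun i => β * (Fin.cons t0 t : Fin (s + 1) → ℤ) i) f y = f y * PV β (Uf (s := s) f (β * t0)) t y := by
  unfold DV
  rw [DL_prod]
  rw [← (Fin.consEquiv fun _ : Fin (s + 1) => Bool).prod_comp, Fintype.prod_prod_type, Fintype.prod_bool]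
  have h1 : ∀ ω : Fin s → Bool, cj (sg ((Fin.consEquiv fun _ : Fin (s + 1) => Bool) (false, ω)))
      (f (y + vt ((Fin.consEquiv fun _ : Fin (s + 1) => Bool) (false, ω)) (fun i => β * (Fin.cons t0 t : Fin (s + 1) → ℤ) i))) =
      cj (sg ω) (f (y + β * vt ω t)) := by
    intro ω
    change cj (sg (Fin.cons false ω : Fin (s + 1) → Bool)) (f (y + vt (Fin.cons false ω : Fin (s + 1) → Bool) _)) = _
    rw [p0_sg_cons, p0_vt_cons]
    simp only [Bool.false_eq_true, if_false, add_zero, zero_add, Fin.cons_succ]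
    rw [ll4_vt_mul]
  have h2 : ∀ ω : Fin s → Bool, cj (sg ((Fin.consEquiv fun _ : Fin (s + 1) => Bool) (true, ω)))
      (f (y + vt ((Fin.consEquiv fun _ : Fin (s + 1) => Bool) (true, ω)) (fun i => β * (Fin.cons t0 t : Fin (s + 1) → ℤ) i))) =
      cj (sg ω + 1) (f (y + β * vt ω t + β * t0)) := by
    intro ω
    change cj (sg (Fin.cons true ω : Fin (s + 1) → Bool)) (f (y + vt (Fin.cons true ω : Fin (s + 1) → Bool) _)) = _
    rw [p0_sg_cons, p0_vt_cons]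
    simp only [if_true, Fin.cons_succ, Fin.cons_zero]
    rw [ll4_vt_mul, add_assoc y, add_comm (β * t0)]
  rw [prod_congr rfl fun ω _ => h1 ω, prod_congr rfl fun ω _ => h2 ω]
  rw [ll4_prod_zv s (fun ω => cj (sg ω) (f (y + β * vt ω t)))]
  have h3 : cj (sg (zv s)) (f (y + β * vt (zv s) t)) = f y := by
    rw [ll4_sg_zv, ll4_vt_zv, mul_zero, add_zero]
    simp [cj]
  rw [h3]
  unfold PV Uf
  rw [prod_mul_distrib]
  ring

/-- `NU` as an inner product with the dual function (`LL4_DV`, exchange of sums). -/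
theorem LL4_NU (X s M : ℕ) (β : ℤ) (f : ℤ → ℂ) :
    NU X (s + 1) M β f = (∑ y ∈ Ico (-(X : ℤ)) X, f y * Db s M β f y).re := by
  unfold NU FF
  rw [e1_box_succ]
  have h1 : (∑ y ∈ Ico (-(X : ℤ)) X, f y * Db s M β f y) =
      (∑ j0 ∈ Ioo (-(M : ℤ)) M, ∑ j' ∈ bxS s M, ((FW M (Fin.cons j0 j' : Fin (s + 1) → ℤ) : ℝ) : ℂ) *
        ∑ y ∈ Ico (-(X : ℤ)) X, DV (fun i => β * (Fin.cons j0 j' : Fin (s + 1) → ℤ) i) f y) / (((M ^ (s + 1) : ℕ)) : ℂ) := by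
    have h2 : ∀ y ∈ Ico (-(X : ℤ)) X, f y * Db s M β f y =
        (∑ j0 ∈ Ioo (-(M : ℤ)) M, ∑ j' ∈ bxS s M, ((FW M (Fin.cons j0 j' : Fin (s + 1) → ℤ) : ℝ) : ℂ) *
          DV (fun i => β * (Fin.cons j0 j' : Fin (s + 1) → ℤ) i) f y) / (((M ^ (s + 1) : ℕ)) : ℂ) := by
      intro y _
      unfold Db
      rw [← mul_div_assoc, mul_sum]
      push_cast
      congr 1
      refine sum_congr rfl fun j0 _ => ?_
      rw [mul_sum, mul_sum]
      refine sum_congr rfl fun j' _ => ?_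
      rw [LL4_DV, ll4_FW_cons]
      push_cast
      ring
    rw [sum_congr rfl h2, ← sum_div]
    congr 1
    rw [sum_comm]
    refine sum_congr rfl fun j0 _ => ?_
    rw [sum_comm]
    refine sum_congr rfl fun j' _ => ?_
    rw [mul_sum]
  rw [h1, Complex.div_natCast_re]
  push_cast
  rfl

/-- The correlation of two dual functions (`conj (PV β U t y) = PV β (cU U) t y`; exchange of sums). -/
theorem LL4_pair (X s M : ℕ) (β β' : ℤ) (f : ℤ → ℂ) :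
    (∑ y ∈ Ico (-(2 * X : ℕ) : ℤ) (2 * X : ℕ), Db s M β f y * (starRingEnd ℂ) (Db s M β' f y)).re = SPd X s M β β' f := by
  unfold SPd
  congr 1
  have h1 : ∀ y : ℤ, Db s M β f y * (starRingEnd ℂ) (Db s M β' f y) =
      (∑ t ∈ Ioo (-(M : ℤ)) M, ∑ t' ∈ Ioo (-(M : ℤ)) M, ((fw M t * fw M t' : ℝ) : ℂ) *
        ∑ u ∈ bxS s M, ∑ u' ∈ bxS s M, ((FW M u * FW M u' : ℝ) : ℂ) *
          (PV β (Uf (s := s) f (β * t)) u y * PV β' (cU (Uf (s := s) f (β' * t'))) u' y)) / ((M : ℂ) ^ (2 * s) * (M : ℂ) ^ 2) := by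
    intro y
    unfold Db
    rw [map_div₀, map_pow, Complex.conj_natCast, div_mul_div_comm]
    have h2 : (M : ℂ) ^ (s + 1) * (M : ℂ) ^ (s + 1) = (M : ℂ) ^ (2 * s) * (M : ℂ) ^ 2 := by
      ring
    rw [h2]
    congr 1
    rw [map_sum, sum_mul_sum]
    refine sum_congr rfl fun t _ => ?_
    refine sum_congr rfl fun t' _ => ?_
    rw [map_mul, Complex.conj_ofReal, map_sum]
    have h3 : ∀ u' ∈ bxS s M, (starRingEnd ℂ) (((FW M u' : ℝ) : ℂ) * PV β' (Uf (s := s) f (β' * t')) u' y) =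
        ((FW M u' : ℝ) : ℂ) * PV β' (cU (Uf (s := s) f (β' * t'))) u' y := by
      intro u' _
      rw [map_mul, Complex.conj_ofReal, ll4_conj_PV]
    rw [sum_congr rfl h3, mul_mul_mul_comm, sum_mul_sum]
    push_cast
    congr 1
    refine sum_congr rfl fun u _ => ?_
    refine sum_congr rfl fun u' _ => ?_
    ring
  rw [sum_congr rfl fun y _ => h1 y, ← sum_div, ← div_div]
  congr 1
  rw [sum_comm, sum_div]
  have h4 : ∀ t ∈ Ioo (-(M : ℤ)) M, (∑ y ∈ Ico (-((2 * X : ℕ) : ℤ)) ((2 * X : ℕ) : ℤ), ∑ t' ∈ Ioo (-(M : ℤ)) M, ((fw M t * fw M t' : ℝ) : ℂ) *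
        ∑ u ∈ bxS s M, ∑ u' ∈ bxS s M, ((FW M u * FW M u' : ℝ) : ℂ) *
          (PV β (Uf (s := s) f (β * t)) u y * PV β' (cU (Uf (s := s) f (β' * t'))) u' y)) / (M : ℂ) ^ (2 * s) =
      ∑ t' ∈ Ioo (-(M : ℤ)) M, ((fw M t * fw M t' : ℝ) : ℂ) * TT (2 * X) M β β' (Uf (s := s) f (β * t)) (cU (Uf (s := s) f (β' * t'))) := by
    intro t _
    rw [sum_comm, sum_div]
    refine sum_congr rfl fun t' _ => ?_
    rw [← mul_sum, mul_div_assoc]
    congr 1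
    unfold TT
    congr 1
    rw [sum_comm]
    refine sum_congr rfl fun u _ => ?_
    rw [sum_comm]
    refine sum_congr rfl fun u' _ => ?_
    rw [mul_sum]
  exact sum_congr rfl h4

/-- **Cauchy-Schwarz over `y`.** `(∑_b NU)² ≤ ‖∑_y f y ∑_b Db‖² ≤ 2X ∑_{y ∈ [-X,X)} ‖∑_b Db‖² ≤ 2X ∑_{y ∈ [-2X,2X)} ‖∑_b Db‖²`, open the
square, `LL4_pair`. -/
theorem LL4_cs (X s M K q : ℕ) (f : ℤ → ℂ) (hf : Bdd X f) :
    (∑ b ∈ Ioc K (2 * K), NU X (s + 1) M (b * q) f) ^ 2 ≤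
      2 * X * ∑ p ∈ Ioc K (2 * K) ×ˢ Ioc K (2 * K), SPd X s M (p.1 * q) (p.2 * q) f := by
  obtain ⟨G, hG⟩ : ∃ G : ℤ → ℂ, ∀ y, G y = ∑ b ∈ Ioc K (2 * K), Db s M ((b : ℤ) * q) f y := ⟨_, fun _ => rfl⟩
  have h1 : ∑ b ∈ Ioc K (2 * K), NU X (s + 1) M ((b : ℤ) * q) f = (∑ y ∈ Ico (-(X : ℤ)) X, f y * G y).re := by
    rw [sum_congr rfl fun (b : ℕ) _ => LL4_NU X s M ((b : ℤ) * q) f, ← Complex.re_sum]
    congr 1
    rw [sum_comm]
    refine sum_congr rfl fun y _ => ?_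
    rw [hG, mul_sum]
  rw [h1]
  have h2 : (∑ y ∈ Ico (-(X : ℤ)) X, f y * G y).re ^ 2 ≤ 2 * X * ∑ y ∈ Ico (-(X : ℤ)) X, ‖G y‖ ^ 2 := by
    have h3 : |(∑ y ∈ Ico (-(X : ℤ)) X, f y * G y).re| ≤ ∑ y ∈ Ico (-(X : ℤ)) X, 1 * ‖G y‖ := by
      refine (Complex.abs_re_le_norm _).trans ((norm_sum_le _ _).trans ?_)
      refine sum_le_sum fun y _ => ?_
      rw [norm_mul]
      exact mul_le_mul_of_nonneg_right (hf.le y) (norm_nonneg _)
    have h4 := sum_mul_sq_le_sq_mul_sq (Ico (-(X : ℤ)) X) (fun _ => (1 : ℝ)) (fun y => ‖G y‖)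
    have h5 : ∑ y ∈ Ico (-(X : ℤ)) X, ((1 : ℝ)) ^ 2 = 2 * X := by
      rw [sum_const, Int.card_Ico, one_pow, nsmul_eq_mul, mul_one]
      have h6 : ((X : ℤ) - (-(X : ℤ))).toNat = 2 * X := by omega
      rw [h6]
      push_cast
      ring
    rw [h5] at h4
    refine le_trans ?_ h4
    rw [← sq_abs]
    exact pow_le_pow_left₀ (abs_nonneg _) h3 2
  refine h2.trans ?_
  refine mul_le_mul_of_nonneg_left ?_ (by positivity)
  have h7 : ∑ y ∈ Ico (-(X : ℤ)) X, ‖G y‖ ^ 2 ≤ ∑ y ∈ Ico (-((2 * X : ℕ) : ℤ)) ((2 * X : ℕ) : ℤ), ‖G y‖ ^ 2 := by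
    refine sum_le_sum_of_subset_of_nonneg ?_ (fun y _ _ => by positivity)
    intro y hy
    rw [mem_Ico] at hy ⊢
    push_cast
    omega
  refine h7.trans (le_of_eq ?_)
  rw [sum_product]
  have h8 : ∀ b ∈ Ioc K (2 * K), ∀ b' ∈ Ioc K (2 * K), SPd X s M ((b : ℤ) * q) ((b' : ℤ) * q) f =
      ∑ y ∈ Ico (-((2 * X : ℕ) : ℤ)) ((2 * X : ℕ) : ℤ), (Db s M ((b : ℤ) * q) f y * (starRingEnd ℂ) (Db s M ((b' : ℤ) * q) f y)).re := by
    intro b _ b' _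
    rw [← LL4_pair, Complex.re_sum]
  rw [sum_congr rfl fun b hb => sum_congr rfl fun b' hb' => h8 b hb b' hb']
  have h9 : ∀ y : ℤ, ‖G y‖ ^ 2 = ∑ b ∈ Ioc K (2 * K), ∑ b' ∈ Ioc K (2 * K),
      (Db s M ((b : ℤ) * q) f y * (starRingEnd ℂ) (Db s M ((b' : ℤ) * q) f y)).re := by
    intro y
    have h10 : ‖G y‖ ^ 2 = (G y * (starRingEnd ℂ) (G y)).re := by
      rw [Complex.mul_conj, Complex.ofReal_re, Complex.normSq_eq_norm_sq]
    rw [h10, hG, map_sum, sum_mul_sum, Complex.re_sum]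
    refine sum_congr rfl fun b _ => ?_
    rw [Complex.re_sum]
  rw [sum_congr rfl fun y _ => h9 y, sum_comm]
  refine sum_congr rfl fun b _ => ?_
  rw [sum_comm]

end Pool.Agent.HUK
end

-- from Lib.HUK.E2
section

/-!
# Project HUK, chunk E2 (M): the elimination lemma without absolute values
-/

open Finset

namespace Pool.Agent.HUK

theorem e2_WT_cons (H r : ℕ) (j : ℤ) (j' : Fin r → ℤ) :
    WT H (Fin.cons j j' : Fin (r + 1) → ℤ) = fw H j ^ (2 ^ r) * WT H j' := by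
  unfold WT
  rw [Fin.prod_univ_succ]
  simp only [Fin.cons_zero, Fin.cons_succ, Fin.val_zero, Fin.val_succ, Nat.add_sub_cancel, Nat.sub_zero]
  congr 1
  refine Finset.prod_congr rfl fun i _ => ?_
  congr 2
  omega

/-- One step for a family. -/
theorem e2_step {G ι : Type*} [AddCommGroup G] [DecidableEq G] (B B' : Finset G) (N : ℝ)
    (hN : (B'.card : ℝ) ≤ N) (hN0 : 0 < N) (H : ℕ) (hH : 0 < H) (r : ℕ) (J : Finset ι) (hJ : 0 < J.card)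
    (v : ι → Fin (r + 1) → G) (g : ι → Fin (r + 1) → G → ℂ) (c : ι → G → ℂ)
    (hg : ∀ x i z, ‖g x i z‖ ≤ 1) (hinv : ∀ x i z, g x i (z + v x i) = g x i z) (hc : ∀ x z, z ∉ B → c x z = 0)
    (hB : ∀ x i z, ∀ h : ℕ, h < H → z + h • v x i ∈ B → z ∈ B') :
    (‖∑ x ∈ J, ∑ z ∈ B, (∏ i, g x i z) * c x z‖ / (N * J.card)) ^ 2 ≤
      (∑ p ∈ J ×ˢ Ioo (-(H : ℤ)) H, ∑ z ∈ B, (∏ i : Fin r, DD (p.2 • v p.1 0) (g p.1 i.succ) z) *
        (((fw H p.2 : ℝ) : ℂ) * DD (p.2 • v p.1 0) (c p.1) z)).re / (H * (N * J.card)) := by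
  have hHr : (0 : ℝ) < H := by exact_mod_cast hH
  have hJr : (0 : ℝ) < J.card := by exact_mod_cast hJ
  have h1 : ∀ x ∈ J, ‖∑ z ∈ B, (∏ i, g x i z) * c x z‖ ^ 2 ≤ N / H * (∑ j ∈ Ioo (-(H : ℤ)) H,
      ∑ z ∈ B, (∏ i : Fin r, DD (j • v x 0) (g x i.succ) z) *
        (((fw H j : ℝ) : ℂ) * DD (j • v x 0) (c x) z)).re := by
    intro x _
    have h2 := E0_real B B' N hN H hH (v x 0) (g x 0) (fun z => (∏ i : Fin r, g x i.succ z) * c x z) (hg x 0) (hinv x 0)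
      (fun z hz => by simp only [hc x z hz, mul_zero]) (hB x 0)
    have h3 : ∑ z ∈ B, (∏ i, g x i z) * c x z = ∑ z ∈ B, g x 0 z * ((∏ i : Fin r, g x i.succ z) * c x z) := by
      refine Finset.sum_congr rfl fun z _ => ?_
      rw [Fin.prod_univ_succ, mul_assoc]
    rw [h3]
    refine h2.trans (le_of_eq ?_)
    congr 2
    refine Finset.sum_congr rfl fun j _ => ?_
    rw [Finset.mul_sum]
    refine Finset.sum_congr rfl fun z _ => ?_
    rw [e1_DD_prod]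
    ring
  have h4 : ‖∑ x ∈ J, ∑ z ∈ B, (∏ i, g x i z) * c x z‖ ^ 2 ≤
      J.card * ∑ x ∈ J, ‖∑ z ∈ B, (∏ i, g x i z) * c x z‖ ^ 2 := by
    refine (pow_le_pow_left₀ (norm_nonneg _) (norm_sum_le _ _) 2).trans ?_
    exact sq_sum_le_card_mul_sum_sq
  have h5 := h4.trans (mul_le_mul_of_nonneg_left (Finset.sum_le_sum h1) hJr.le)
  have h6 : ∑ x ∈ J, N / H * (∑ j ∈ Ioo (-(H : ℤ)) H,
      ∑ z ∈ B, (∏ i : Fin r, DD (j • v x 0) (g x i.succ) z) *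
        (((fw H j : ℝ) : ℂ) * DD (j • v x 0) (c x) z)).re = N / H *
      (∑ p ∈ J ×ˢ Ioo (-(H : ℤ)) H, ∑ z ∈ B, (∏ i : Fin r, DD (p.2 • v p.1 0) (g p.1 i.succ) z) *
        (((fw H p.2 : ℝ) : ℂ) * DD (p.2 • v p.1 0) (c p.1) z)).re := by
    rw [← Finset.mul_sum, ← Complex.re_sum, ← Finset.sum_product' J (Ioo (-(H : ℤ)) H) (fun x j =>
      ∑ z ∈ B, (∏ i : Fin r, DD (j • v x 0) (g x i.succ) z) * (((fw H j : ℝ) : ℂ) * DD (j • v x 0) (c x) z))]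
  rw [h6] at h5
  rw [div_pow, div_le_div_iff₀ (by positivity) (by positivity)]
  calc ‖∑ x ∈ J, ∑ z ∈ B, (∏ i, g x i z) * c x z‖ ^ 2 * (H * (N * J.card))
      ≤ (J.card * (N / H * (∑ p ∈ J ×ˢ Ioo (-(H : ℤ)) H, ∑ z ∈ B,
        (∏ i : Fin r, DD (p.2 • v p.1 0) (g p.1 i.succ) z) *
        (((fw H p.2 : ℝ) : ℂ) * DD (p.2 • v p.1 0) (c p.1) z)).re)) * (H * (N * J.card)) :=
        mul_le_mul_of_nonneg_right h5 (by positivity)
    _ = _ := by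
        field_simp

/-- The sum on the right after one step and the induction hypothesis. -/
theorem e2_sum {G ι : Type*} [AddCommGroup G] (B : Finset G) (H : ℕ) (r : ℕ) (J : Finset ι)
    (v : ι → Fin (r + 1) → G) (c : ι → G → ℂ) :
    ∑ j' ∈ bxS r H, ((WT H j' : ℝ) : ℂ) * ∑ p ∈ J ×ˢ Ioo (-(H : ℤ)) H, ∑ z ∈ B,
      DL (List.ofFn fun i => j' i • v p.1 i.succ) (fun z => ((fw H p.2 : ℝ) : ℂ) * DD (p.2 • v p.1 0) (c p.1) z) z =
    ∑ j ∈ bxS (r + 1) H, ((WT H j : ℝ) : ℂ) * ∑ x ∈ J, ∑ z ∈ B, DL (List.ofFn fun i => j i • v x i) (c x) z := by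
  rw [e1_box_succ, Finset.sum_comm]
  refine Finset.sum_congr rfl fun j' _ => ?_
  rw [Finset.sum_product, Finset.sum_comm, Finset.mul_sum]
  refine Finset.sum_congr rfl fun j _ => ?_
  rw [Finset.mul_sum, Finset.mul_sum]
  refine Finset.sum_congr rfl fun x _ => ?_
  rw [Finset.mul_sum, Finset.mul_sum]
  refine Finset.sum_congr rfl fun z _ => ?_
  rw [e2_WT_cons, DL_smul, List.length_ofFn, List.ofFn_succ]
  simp only [Fin.cons_zero, Fin.cons_succ, DL]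
  push_cast
  ring

/-- The constants. -/
theorem e2_const (H r : ℕ) (hH : 0 < H) (N J m : ℝ) (hN : 0 < N) (hJ : 0 < J) (hm : 0 < m) (hm2 : m ≤ 2 * H)
    (x S T : ℝ) (hx : 0 ≤ x) (hT : 0 ≤ T)
    (h1 : x ^ 2 ≤ S / (H * (N * J)))
    (h2 : (S / (N * (J * m))) ^ (2 ^ r) ≤ 2 ^ (2 ^ r) / (H : ℝ) ^ r * (T / (N * (J * m)))) :
    x ^ (2 ^ (r + 1)) ≤ 2 ^ (2 ^ (r + 1)) / (H : ℝ) ^ (r + 1) * (T / (N * J)) := by
  have hH0 : (0 : ℝ) < H := by exact_mod_cast hH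
  obtain ⟨n, hn⟩ : ∃ n : ℕ, 2 ^ r = n + 1 := ⟨2 ^ r - 1, by
    have := Nat.one_le_two_pow (n := r)
    omega⟩
  have h3 : S / (H * (N * J)) = m / H * (S / (N * (J * m))) := by
    field_simp
  have h4 : x ^ (2 ^ (r + 1)) ≤ (m / H) ^ (2 ^ r) * (2 ^ (2 ^ r) / (H : ℝ) ^ r * (T / (N * (J * m)))) := by
    calc x ^ (2 ^ (r + 1)) = (x ^ 2) ^ (2 ^ r) := by rw [← pow_mul, pow_succ, mul_comm]
      _ ≤ (S / (H * (N * J))) ^ (2 ^ r) := pow_le_pow_left₀ (by positivity) h1 _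
      _ = (m / H) ^ (2 ^ r) * (S / (N * (J * m))) ^ (2 ^ r) := by rw [h3, mul_pow]
      _ ≤ _ := mul_le_mul_of_nonneg_left h2 (by positivity)
  refine h4.trans ?_
  have h5 : (m / H) ^ (2 ^ r) * (2 ^ (2 ^ r) / (H : ℝ) ^ r * (T / (N * (J * m)))) =
      m ^ n * (2 ^ (2 ^ r) / ((H : ℝ) ^ (2 ^ r) * (H : ℝ) ^ r) * (T / (N * J))) := by
    rw [div_pow, hn, pow_succ m]
    field_simp
  rw [h5]
  have h6 : m ^ n ≤ (2 * H) ^ n := pow_le_pow_left₀ hm.le hm2 n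
  refine (mul_le_mul_of_nonneg_right h6 (by positivity)).trans ?_
  have h7 : (2 * (H : ℝ)) ^ n * (2 ^ (2 ^ r) / ((H : ℝ) ^ (2 ^ r) * (H : ℝ) ^ r) * (T / (N * J))) =
      2 ^ (n + 2 ^ r) / (H : ℝ) ^ (r + 1) * (T / (N * J)) := by
    rw [mul_pow, pow_add, hn, pow_succ (H : ℝ) n, pow_succ (H : ℝ) r]
    field_simp
  rw [h7]
  refine mul_le_mul_of_nonneg_right ?_ (by positivity)
  refine div_le_div_of_nonneg_right ?_ (by positivity)
  refine pow_le_pow_right₀ one_le_two ?_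
  rw [pow_succ]
  omega

theorem e2_card (J H : ℕ) (hH : 0 < H) : ((J * (Ioo (-(H : ℤ)) H).card : ℕ) : ℝ) = J * (2 * H - 1) := by
  have h1 : (Ioo (-(H : ℤ)) H).card = 2 * H - 1 := by
    rw [Int.card_Ioo]
    omega
  rw [h1, Nat.cast_mul, Nat.cast_sub (by omega)]
  push_cast
  rfl

/-- The version with the real part, at least one function. -/
theorem e2_re {G : Type*} [AddCommGroup G] [DecidableEq G] (B B' : Finset G) (N : ℝ)
    (hN : (B'.card : ℝ) ≤ N) (hN0 : 0 < N) (H : ℕ) (hH : 0 < H) (r : ℕ) : ∀ (ι : Type*) (J : Finset ι), 0 < J.card →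
    ∀ (v : ι → Fin (r + 1) → G) (g : ι → Fin (r + 1) → G → ℂ) (c : ι → G → ℂ),
    (∀ x i z, ‖g x i z‖ ≤ 1) → (∀ x i z, g x i (z + v x i) = g x i z) → (∀ x z, z ∉ B → c x z = 0) →
    (∀ x i z, ∀ h : ℕ, h < H → z + h • v x i ∈ B → z ∈ B') →
    0 ≤ (∑ j ∈ bxS (r + 1) H, ((WT H j : ℝ) : ℂ) *
        ∑ x ∈ J, ∑ z ∈ B, DL (List.ofFn fun i => j i • v x i) (c x) z).re ∧
    (‖∑ x ∈ J, ∑ z ∈ B, (∏ i, g x i z) * c x z‖ / (N * J.card)) ^ (2 ^ (r + 1)) ≤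
      2 ^ (2 ^ (r + 1)) / (H : ℝ) ^ (r + 1) * ((∑ j ∈ bxS (r + 1) H, ((WT H j : ℝ) : ℂ) *
        ∑ x ∈ J, ∑ z ∈ B, DL (List.ofFn fun i => j i • v x i) (c x) z).re / (N * J.card)) := by
  have hHr : (0 : ℝ) < H := by exact_mod_cast hH
  induction r with
  | zero =>
    intro ι J hJ v g c hg hinv hc hB
    have hJr : (0 : ℝ) < J.card := by exact_mod_cast hJ
    have h1 := e2_step B B' N hN hN0 H hH 0 J hJ v g c hg hinv hc hB
    have h2 : ∑ p ∈ J ×ˢ Ioo (-(H : ℤ)) H, ∑ z ∈ B, (∏ i : Fin 0, DD (p.2 • v p.1 0) (g p.1 i.succ) z) *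
        (((fw H p.2 : ℝ) : ℂ) * DD (p.2 • v p.1 0) (c p.1) z) =
        ∑ j ∈ bxS (0 + 1) H, ((WT H j : ℝ) : ℂ) * ∑ x ∈ J, ∑ z ∈ B, DL (List.ofFn fun i => j i • v x i) (c x) z := by
      rw [← e2_sum B H 0 J v c]
      have h3 : bxS 0 H = {fun i => i.elim0} := by
        unfold bxS
        rw [Fintype.piFinset_of_isEmpty]
        ext j
        simp only [mem_univ, mem_singleton, true_iff]
        exact Subsingleton.elim _ _
      rw [h3, Finset.sum_singleton]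
      have h4 : WT H (fun i : Fin 0 => (i.elim0 : ℤ)) = 1 := by
        unfold WT
        rw [Finset.univ_eq_empty, Finset.prod_empty]
      rw [h4, Complex.ofReal_one, one_mul]
      refine Finset.sum_congr rfl fun p _ => Finset.sum_congr rfl fun z _ => ?_
      rw [Finset.univ_eq_empty, Finset.prod_empty, one_mul, List.ofFn_zero]
      simp only [DL]
    rw [h2] at h1
    obtain ⟨T, hT⟩ : ∃ T : ℝ, T = (∑ j ∈ bxS (0 + 1) H, ((WT H j : ℝ) : ℂ) *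
      ∑ x ∈ J, ∑ z ∈ B, DL (List.ofFn fun i => j i • v x i) (c x) z).re := ⟨_, rfl⟩
    rw [← hT] at h1 ⊢
    have h5 : 0 ≤ T := by
      have h6 := (sq_nonneg _).trans h1
      rwa [le_div_iff₀ (by positivity), zero_mul] at h6
    refine ⟨h5, ?_⟩
    have h7 : (2 : ℕ) ^ (0 + 1) = 2 := by norm_num
    rw [h7]
    refine h1.trans ?_
    rw [zero_add, pow_one]
    have h8 : T / (H * (N * J.card)) = 1 / H * (T / (N * J.card)) := by
      field_simp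
    rw [h8]
    refine mul_le_mul_of_nonneg_right ?_ (by positivity)
    refine div_le_div_of_nonneg_right ?_ hHr.le
    norm_num
  | succ r ih =>
    intro ι J hJ v g c hg hinv hc hB
    have hJr : (0 : ℝ) < J.card := by exact_mod_cast hJ
    have h1 := e2_step B B' N hN hN0 H hH (r + 1) J hJ v g c hg hinv hc hB
    have hcard : 0 < (J ×ˢ Ioo (-(H : ℤ)) H).card := by
      rw [card_product]
      refine Nat.mul_pos hJ ?_
      rw [Int.card_Ioo]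
      omega
    obtain ⟨h2, h3⟩ := ih (ι × ℤ) (J ×ˢ Ioo (-(H : ℤ)) H) hcard (fun p i => v p.1 i.succ)
      (fun p i => DD (p.2 • v p.1 0) (g p.1 i.succ)) (fun p z => ((fw H p.2 : ℝ) : ℂ) * DD (p.2 • v p.1 0) (c p.1) z)
      (fun p i z => e1_DD_le _ _ (hg p.1 i.succ) z) (fun p i z => e1_DD_inv _ _ _ (hinv p.1 i.succ) z)
      (fun p z hz => by simp only [DD, hc p.1 z hz, zero_mul, mul_zero]) (fun p i => hB p.1 i.succ)
    rw [e2_sum] at h2 h3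
    refine ⟨h2, ?_⟩
    rw [card_product, e2_card _ _ hH] at h3
    have hH1 : (1 : ℝ) ≤ H := by exact_mod_cast hH
    exact e2_const H (r + 1) hH N J.card (2 * H - 1) hN0 hJr (by linarith) (by linarith) _ _ _ (by positivity) h2
      (h1.trans (div_le_div_of_nonneg_right (Complex.re_le_norm _) (by positivity))) h3


/-- `J` a single point; for `r ≥ 1` the sum on the right is real and `≥ 0` (in the last step of the proof it comes from `E0_real`, whose right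
side is `≥ 0`; or: reprove the statement with `.re`). -/
theorem E2_elim {G : Type*} [AddCommGroup G] [DecidableEq G] (B B' : Finset G) (N : ℝ) (hN : (B'.card : ℝ) ≤ N)
    (hN0 : 0 < N) (H : ℕ) (hH : 0 < H) (r : ℕ) (hr : 1 ≤ r) (v : Fin r → G) (g : Fin r → G → ℂ) (c : G → ℂ)
    (hg : ∀ i z, ‖g i z‖ ≤ 1) (hinv : ∀ i z, g i (z + v i) = g i z) (hc : ∀ z, z ∉ B → c z = 0)
    (hB : ∀ i z, ∀ h : ℕ, h < H → z + h • v i ∈ B → z ∈ B') :
    (‖∑ z ∈ B, (∏ i, g i z) * c z‖ / N) ^ (2 ^ r) ≤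
      2 ^ (2 ^ r) / (H : ℝ) ^ r * ((∑ j ∈ bxS r H, ((WT H j : ℝ) : ℂ) *
        ∑ z ∈ B, DL (List.ofFn fun i => j i • v i) c z).re / N) := by
  obtain ⟨r, rfl⟩ : ∃ r' : ℕ, r = r' + 1 := ⟨r - 1, by omega⟩
  have h1 := (e2_re B B' N hN hN0 H hH r Unit {()} (by simp) (fun _ => v) (fun _ => g) (fun _ => c)
    (fun _ => hg) (fun _ => hinv) (fun _ => hc) (fun _ => hB)).2
  simp only [Finset.sum_singleton, Finset.card_singleton, Nat.cast_one, mul_one] at h1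
  exact h1

end Pool.Agent.HUK
end

-- from Lib.HUP.P3a
section

/-!
# Project HUP, chunk P3a (M): rules for differences along linear forms
-/

open Finset

namespace Pool.Agent.HUP

open Pool.Agent.HUK (DD DL DV bxS FF GG fw WT cj sg vt)

noncomputable section

/-- The linear form with coefficients `c`. -/
def lft {d : ℕ} (c : Fin d → ℤ) (t : Fin d → ℤ) : ℤ := ∑ j, c j * t j

/-- The box with corner `b` and sides `s` in `ℤ^d`. -/
def bZ {d : ℕ} (b : Fin d → ℤ) (s : Fin d → ℕ) : Finset (Fin d → ℤ) := Fintype.piFinset fun j => Ico (b j) (b j + s j)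

end

theorem p3_lf_add {d : ℕ} (c t u : Fin d → ℤ) : lft c (t + u) = lft c t + lft c u := by
  unfold lft
  rw [← Finset.sum_add_distrib]
  exact Finset.sum_congr rfl fun j _ => by rw [Pi.add_apply, mul_add]

theorem p3_lf_smul {d : ℕ} (c : Fin d → ℤ) (a : ℤ) (t : Fin d → ℤ) : lft c (a • t) = a * lft c t := by
  unfold lft
  rw [Finset.mul_sum]
  exact Finset.sum_congr rfl fun j _ => by rw [Pi.smul_apply, smul_eq_mul]; ring

/-- Differences of a function of a linear form (induction on `r`, `List.ofFn_succ`). -/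
theorem p3_comp {d r : ℕ} (c : Fin d → ℤ) (v : Fin r → Fin d → ℤ) (j : Fin r → ℤ) (f : ℤ → ℂ) (z : Fin d → ℤ) :
    DL (List.ofFn fun i => j i • v i) (fun z => f (lft c z)) z = DV (fun i => lft c (v i) * j i) f (lft c z) := by
  unfold DV
  induction r generalizing f with
  | zero => rfl
  | succ r ih =>
    rw [List.ofFn_succ, List.ofFn_succ]
    have h1 : DD (j 0 • v 0) (fun z => f (lft c z)) = fun z => (DD (lft c (v 0) * j 0) f) (lft c z) := by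
      funext z
      show f (lft c z) * (starRingEnd ℂ) (f (lft c (z + j 0 • v 0))) =
        f (lft c z) * (starRingEnd ℂ) (f (lft c z + lft c (v 0) * j 0))
      rw [p3_lf_add, p3_lf_smul, mul_comm (j 0)]
    show DL (List.ofFn fun i : Fin r => j i.succ • v i.succ) (DD (j 0 • v 0) (fun z => f (lft c z))) z =
      DL (List.ofFn fun i : Fin r => lft c (v i.succ) * j i.succ) (DD (lft c (v 0) * j 0) f) (lft c z)
    rw [h1]
    exact ih (fun i => v i.succ) (fun i => j i.succ) (DD (lft c (v 0) * j 0) f)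

/-- Translation and conjugation. -/
theorem p3_shift {r : ℕ} (h : Fin r → ℤ) (f : ℤ → ℂ) (a y : ℤ) : DV h (fun y => f (y + a)) y = DV h f (y + a) := by
  unfold DV
  generalize List.ofFn h = l
  induction l generalizing f with
  | nil => rfl
  | cons k l ih =>
    have h1 : DD k (fun y => f (y + a)) = fun y => (DD k f) (y + a) := by
      funext z
      show f (z + a) * (starRingEnd ℂ) (f (z + k + a)) = f (z + a) * (starRingEnd ℂ) (f (z + a + k))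
      rw [show z + k + a = z + a + k by ring]
    show DL l (DD k (fun y => f (y + a))) y = DL l (DD k f) (y + a)
    rw [h1]
    exact ih (DD k f)

theorem p3_conj {r : ℕ} (h : Fin r → ℤ) (f : ℤ → ℂ) (y : ℤ) :
    DV h (fun y => (starRingEnd ℂ) (f y)) y = (starRingEnd ℂ) (DV h f y) := by
  unfold DV
  generalize List.ofFn h = l
  induction l generalizing f with
  | nil => rfl
  | cons k l ih =>
    have h1 : DD k (fun y => (starRingEnd ℂ) (f y)) = fun y => (starRingEnd ℂ) (DD k f y) := by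
      funext z
      show (starRingEnd ℂ) (f z) * (starRingEnd ℂ) ((starRingEnd ℂ) (f (z + k))) =
        (starRingEnd ℂ) (f z * (starRingEnd ℂ) (f (z + k)))
      rw [map_mul]
    show DL l (DD k (fun y => (starRingEnd ℂ) (f y))) y = (starRingEnd ℂ) (DL l (DD k f) y)
    rw [h1]
    exact ih (DD k f)

theorem p3a_zo {G : Type*} [AddCommGroup G] (l : List G) (F : G → ℂ) (hF : ∀ z, F z = 0 ∨ F z = 1) :
    ∀ z, DL l F z = 0 ∨ DL l F z = 1 := by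
  induction l generalizing F with
  | nil => exact hF
  | cons k l ih =>
    show ∀ z, DL l (DD k F) z = 0 ∨ DL l (DD k F) z = 1
    refine ih (DD k F) fun z => ?_
    unfold DD
    rcases hF z with h | h
    · left
      rw [h, zero_mul]
    · rcases hF (z + k) with h' | h'
      · left
        rw [h', map_zero, mul_zero]
      · right
        rw [h, h', map_one, mul_one]

/-- Differences of the indicator of `B` are indicators: `∃ u : G → ℝ` with values `0`, `1`, zero outside `B`. -/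
theorem p3_ind {G : Type*} [AddCommGroup G] [DecidableEq G] (B : Finset G) (l : List G) :
    ∃ u : G → ℝ, (∀ z, u z = 0 ∨ u z = 1) ∧ ∀ z, DL l (fun z => if z ∈ B then (1 : ℂ) else 0) z = ((u z : ℝ) : ℂ) := by
  have h := p3a_zo l (fun z => if z ∈ B then (1 : ℂ) else 0) (fun z => by
    by_cases hz : z ∈ B
    · right
      exact if_pos hz
    · left
      exact if_neg hz)
  have h2 : ∀ z, ∃ w : ℝ, (w = 0 ∨ w = 1) ∧ DL l (fun z => if z ∈ B then (1 : ℂ) else 0) z = ((w : ℝ) : ℂ) := by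
    intro z
    rcases h z with h1 | h1
    · exact ⟨0, Or.inl rfl, by rw [h1, Complex.ofReal_zero]⟩
    · exact ⟨1, Or.inr rfl, by rw [h1, Complex.ofReal_one]⟩
  choose u hu hu2 using h2
  exact ⟨u, hu, hu2⟩


end Pool.Agent.HUP
end

-- from Lib.HUP.P3b
section

/-!
# Project HUP, chunk P3b (M): counting
-/

open Finset

namespace Pool.Agent.HUP

open Pool.Agent.HUK (DD DL DV bxS FF GG fw WT)

/-- A linear form `c ≠ 0` takes every value at most `∏_(j ≠ l) s j` times on the box, where `c l ≠ 0`: a point is determined by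
the value and the coordinates `≠ l`. -/
theorem p3_fib {d : ℕ} (b : Fin d → ℤ) (s : Fin d → ℕ) (c : Fin d → ℤ) (l : Fin d) (hl : c l ≠ 0) (a : ℤ) :
    ((bZ b s).filter (fun z => lft c z = a)).card ≤ ∏ j ∈ univ.erase l, s j := by
  classical
  have hcard : ((Fintype.piFinset fun j : Fin d => if j = l then ({0} : Finset ℤ) else Ico (b j) (b j + s j)).card) = ∏ j ∈ univ.erase l, s j := by
    rw [Fintype.card_piFinset, ← Finset.mul_prod_erase Finset.univ _ (Finset.mem_univ l)]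
    have h1 : ∀ x ∈ Finset.univ.erase l, (if x = l then ({0} : Finset ℤ) else Ico (b x) (b x + s x)).card = s x := by
      intro x hx
      rw [if_neg (Finset.ne_of_mem_erase hx)]
      simp
    rw [Finset.prod_congr rfl h1]
    simp
  rw [← hcard]
  refine Finset.card_le_card_of_injOn (fun z => Function.update z l 0) ?_ ?_
  · intro z hz
    simp only [Finset.coe_filter, Set.mem_ofPred_eq] at hz
    have hz1 := hz.1
    unfold bZ at hz1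
    rw [Fintype.mem_piFinset] at hz1
    simp only [Finset.mem_coe]
    rw [Fintype.mem_piFinset]
    intro j
    by_cases hj : j = l
    · subst hj
      simp
    · rw [if_neg hj, Function.update_of_ne hj]
      exact hz1 j
  · intro z hz z' hz' h
    simp only [Finset.coe_filter, Set.mem_ofPred_eq] at hz hz'
    have h1 : ∀ j, j ≠ l → z j = z' j := by
      intro j hj
      have h2 := congrFun h j
      simp only [Function.update_of_ne hj] at h2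
      exact h2
    have h2 : lft c z = lft c z' := by rw [hz.2, hz'.2]
    unfold lft at h2
    rw [← Finset.add_sum_erase Finset.univ _ (Finset.mem_univ l), ← Finset.add_sum_erase Finset.univ (fun j => c j * z' j) (Finset.mem_univ l)] at h2
    have h3 : ∑ x ∈ Finset.univ.erase l, c x * z x = ∑ x ∈ Finset.univ.erase l, c x * z' x := by
      refine Finset.sum_congr rfl fun x hx => ?_
      rw [h1 x (Finset.ne_of_mem_erase hx)]
    rw [h3] at h2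
    have h4 : c l * z l = c l * z' l := by linarith
    have h5 := mul_left_cancel₀ hl h4
    funext j
    by_cases hj : j = l
    · subst hj
      exact h5
    · exact h1 j hj





end Pool.Agent.HUP
end

-- from Lib.HUK.LL9
section

/-!
# Project HUK, chunk LL9 (M/L): the induction hypothesis for many differences `D_z f`, pigeonhole
-/

open Finset

namespace Pool.Agent.HUK

/-- The statement `L(s)`. -/
def LLP (s : ℕ) : Prop := ∃ C1 C2 : ℕ, ∀ δ : ℝ, 0 < δ → δ ≤ 1 / 2 → ∀ X K M q : ℕ, 1 ≤ K → 1 ≤ M → 1 ≤ q →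
    (∀ n : ℕ, 1 ≤ n → n ≤ X → (n.divisors.card : ℝ) ≤ 1 / δ) → (1 / δ) ^ C2 * (K : ℝ) ^ (2 ^ s) ≤ X →
    δ * X ≤ q * K * M → 4 * q * K * M ≤ X → (q : ℝ) ≤ 1 / δ → ∀ f : ℤ → ℂ, Bdd X f →
    δ * (K * X) ≤ ∑ b ∈ Ioc K (2 * K), NU X s M (b * q) f →
    ∃ q' : ℕ, 1 ≤ q' ∧ (q' : ℝ) ≤ (1 / δ) ^ C1 ∧ 4 * q' * ⌊δ ^ C2 * X⌋₊ ≤ X ∧ 1 ≤ ⌊δ ^ C2 * X⌋₊ ∧
      δ ^ C2 * X ≤ NU X s ⌊δ ^ C2 * X⌋₊ q' f

/-- Weighted pigeonhole: `R = (last entry)`. If the average of `θ(t) ≤ A` with weights `fw R t` (total `R`) is `≥ η A`, then the set of the `t`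
with `θ(t) ≥ η A / 2` has weight `≥ η R / 2`. -/
theorem LL9_pop (R : ℕ) (hR : 1 ≤ R) (A η : ℝ) (hA : 0 < A) (θ : ℤ → ℝ) (hθ : ∀ t, θ t ≤ A)
    (h : η * A * R ≤ ∑ t ∈ Ioo (-(R : ℤ)) R, fw R t * θ t) :
    η * R / 2 ≤ ∑ t ∈ (Ioo (-(R : ℤ)) R).filter (fun t => η * A / 2 ≤ θ t), fw R t := by
  have hR0 : (0 : ℝ) < R := by exact_mod_cast hR
  rcases lt_or_ge η 0 with hη | hη
  · have h1 : η * R / 2 ≤ 0 := by
      have : η * R ≤ 0 := mul_nonpos_of_nonpos_of_nonneg hη.le hR0.le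
      linarith
    exact h1.trans (sum_nonneg fun t _ => mq1_fw_nonneg R t)
  · rw [← sum_filter_add_sum_filter_not (Ioo (-(R : ℤ)) R) (fun t => η * A / 2 ≤ θ t)] at h
    have h1 : ∑ t ∈ (Ioo (-(R : ℤ)) R).filter (fun t => η * A / 2 ≤ θ t), fw R t * θ t ≤
        (∑ t ∈ (Ioo (-(R : ℤ)) R).filter (fun t => η * A / 2 ≤ θ t), fw R t) * A := by
      rw [sum_mul]
      exact sum_le_sum fun t _ => mul_le_mul_of_nonneg_left (hθ t) (mq1_fw_nonneg R t)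
    have h2 : ∑ t ∈ (Ioo (-(R : ℤ)) R).filter (fun t => ¬ η * A / 2 ≤ θ t), fw R t * θ t ≤
        (∑ t ∈ (Ioo (-(R : ℤ)) R).filter (fun t => ¬ η * A / 2 ≤ θ t), fw R t) * (η * A / 2) := by
      rw [sum_mul]
      refine sum_le_sum fun t ht => mul_le_mul_of_nonneg_left ?_ (mq1_fw_nonneg R t)
      rw [mem_filter] at ht
      exact (lt_of_not_ge ht.2).le
    have h3 : ∑ t ∈ (Ioo (-(R : ℤ)) R).filter (fun t => ¬ η * A / 2 ≤ θ t), fw R t ≤ R := by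
      rw [← mq1_fw_sum R hR]
      exact sum_le_sum_of_subset_of_nonneg (filter_subset _ _) fun t _ _ => mq1_fw_nonneg R t
    have h4 : (∑ t ∈ (Ioo (-(R : ℤ)) R).filter (fun t => ¬ η * A / 2 ≤ θ t), fw R t) * (η * A / 2) ≤ R * (η * A / 2) :=
      mul_le_mul_of_nonneg_right h3 (by positivity)
    have h5 : (η * R / 2) * A ≤ (∑ t ∈ (Ioo (-(R : ℤ)) R).filter (fun t => η * A / 2 ≤ θ t), fw R t) * A := by
      have : η * A * R = (η * R / 2) * A + R * (η * A / 2) := by ring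
      linarith
    exact le_of_mul_le_mul_right h5 hA

/-- trivial bound -/
theorem ll9_NU_le (X s M : ℕ) (hM : 1 ≤ M) (d : ℤ) (f : ℤ → ℂ) (hf : Bdd X f) : NU X s M d f ≤ 2 * X := by
  rw [← MQ_NU X s M hM d f]
  refine (Complex.re_le_norm _).trans (MQ_le X _ ?_ f hf)
  intro p hp
  rw [List.eq_of_mem_replicate hp]
  exact hM

/-- the first entry as an average of `NU` -/
theorem ll9_cons (X s H R : ℕ) (hH : 1 ≤ H) (d e : ℤ) (f : ℤ → ℂ) :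
    (MQ X ((R, e) :: List.replicate s (H, d)) f).re =
      (∑ t ∈ Ioo (-(R : ℤ)) R, fw R t * NU X s H d (DD (e * t) f)) / R := by
  rw [mq2_cons_re]
  congr 1
  refine sum_congr rfl fun t _ => ?_
  rw [MQ_NU X s H hH d]

/-- divisor bound: products of pairs -/
theorem ll9_div (X s K H q : ℕ) (D : ℝ) (hs : 1 ≤ s) (hH : 1 ≤ H) (hK : 4 * K ^ 2 ≤ X)
    (hD : ∀ n : ℕ, 1 ≤ n → n ≤ X → (n.divisors.card : ℝ) ≤ D) (hqH : 4 * K ^ 2 * q * H ≤ X) (g : ℤ → ℂ) (hg : Bdd X g) :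
    ∑ p ∈ Ioc K (2 * K) ×ˢ Ioc K (2 * K), NU X s H ((p.1 * p.2 * q : ℕ) : ℤ) g ≤
      D * (∑ n ∈ Ioc (K ^ 2) (2 * K ^ 2), NU X s H (n * q) g + ∑ n ∈ (Ioc (2 * K ^ 2) (2 * (2 * K ^ 2)) : Finset ℕ), NU X s H (n * q) g) := by
  have h0 : ∀ n : ℕ, n ≤ 4 * K ^ 2 → 0 ≤ NU X s H ((n : ℤ) * q) g := by
    intro n hn
    refine NU_nonneg X s H hs hH _ (by positivity) ?_ g hg.sup
    have h1 : n * q * H ≤ X := (Nat.mul_le_mul_right H (Nat.mul_le_mul_right q hn)).trans hqH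
    exact_mod_cast h1
  have h1 := LL6_div K D (fun n h1 h2 => hD n h1 (h2.trans hK)) (fun n => max 0 (NU X s H ((n : ℤ) * q) g)) (fun n => le_max_left _ _)
  have h2 : ∀ n ∈ Ioc (K ^ 2) (2 * K ^ 2), max 0 (NU X s H ((n : ℤ) * q) g) = NU X s H (n * q) g := by
    intro n hn
    rw [mem_Ioc] at hn
    exact max_eq_right (h0 n (by omega))
  have h3 : ∀ n ∈ (Ioc (2 * K ^ 2) (2 * (2 * K ^ 2)) : Finset ℕ), max 0 (NU X s H ((n : ℤ) * q) g) = NU X s H (n * q) g := by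
    intro n hn
    rw [mem_Ioc] at hn
    exact max_eq_right (h0 n (by omega))
  rw [sum_congr rfl h2, sum_congr rfl h3] at h1
  refine le_trans (sum_le_sum fun p _ => ?_) h1
  have : ((p.1 * p.2 * q : ℕ) : ℤ) = ((p.1 * p.2 : ℕ) : ℤ) * q := by push_cast; ring
  rw [this]
  exact le_max_right _ _

/-- one range of `n` -/
theorem ll9_one (s : ℕ) (hs : 1 ≤ s) (C1 C2 : ℕ)
    (hL : ∀ δ : ℝ, 0 < δ → δ ≤ 1 / 2 → ∀ X K M q : ℕ, 1 ≤ K → 1 ≤ M → 1 ≤ q →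
      (∀ n : ℕ, 1 ≤ n → n ≤ X → (n.divisors.card : ℝ) ≤ 1 / δ) → (1 / δ) ^ C2 * (K : ℝ) ^ (2 ^ s) ≤ X →
      δ * X ≤ q * K * M → 4 * q * K * M ≤ X → (q : ℝ) ≤ 1 / δ → ∀ f : ℤ → ℂ, Bdd X f →
      δ * (K * X) ≤ ∑ b ∈ Ioc K (2 * K), NU X s M (b * q) f →
      ∃ q' : ℕ, 1 ≤ q' ∧ (q' : ℝ) ≤ (1 / δ) ^ C1 ∧ 4 * q' * ⌊δ ^ C2 * X⌋₊ ≤ X ∧ 1 ≤ ⌊δ ^ C2 * X⌋₊ ∧
        δ ^ C2 * X ≤ NU X s ⌊δ ^ C2 * X⌋₊ q' f)
    (δ : ℝ) (hδ : 0 < δ) (hδ' : δ ≤ 1 / 2) (X K H q R : ℕ) (hX : 1 ≤ X) (hK : 1 ≤ K) (hH : 1 ≤ H) (hq : 1 ≤ q) (hR : 1 ≤ R)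
    (hdiv : ∀ n : ℕ, 1 ≤ n → n ≤ X → (n.divisors.card : ℝ) ≤ 1 / δ) (hKX : (1 / δ) ^ C2 * (K : ℝ) ^ (2 ^ s) ≤ X)
    (h1 : δ * X ≤ q * K * H) (h2 : 4 * q * K * H ≤ X) (hqδ : (q : ℝ) ≤ 1 / δ) (e : ℤ) (f : ℤ → ℂ) (hf : Bdd X f)
    (hm : (2 * δ) * (2 * K * X) * R ≤ ∑ t ∈ Ioo (-(R : ℤ)) R, fw R t * ∑ b ∈ Ioc K (2 * K), NU X s H (b * q) (DD (e * t) f)) :
    ∃ q' : ℕ, 1 ≤ q' ∧ (q' : ℝ) ≤ (1 / δ) ^ C1 ∧ 4 * q' * ⌊δ ^ C2 * X⌋₊ ≤ X ∧ 1 ≤ ⌊δ ^ C2 * X⌋₊ ∧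
      δ ^ (C1 + C2 + 1) * X ≤ (MQ X ((R, e) :: List.replicate s (⌊δ ^ C2 * X⌋₊, (q' : ℤ))) f).re := by
  have hR0 : (0 : ℝ) < R := by exact_mod_cast hR
  have hX0 : (0 : ℝ) < X := by exact_mod_cast hX
  have hK0 : (0 : ℝ) < K := by exact_mod_cast hK
  -- popular differences
  have hpop := LL9_pop R hR (2 * K * X) (2 * δ) (by positivity) (fun t => ∑ b ∈ Ioc K (2 * K), NU X s H (b * q) (DD (e * t) f))
    (by
      intro t
      refine (sum_le_card_nsmul _ _ (2 * (X : ℝ)) fun b _ => ll9_NU_le X s H hH _ _ (Bdd_DD hf _)).trans ?_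
      rw [Nat.card_Ioc, nsmul_eq_mul]
      have : 2 * K - K = K := by omega
      rw [this]
      exact le_of_eq (by ring)) hm
  set G := (Ioo (-(R : ℤ)) R).filter
    (fun t => 2 * δ * (2 * K * X) / 2 ≤ ∑ b ∈ Ioc K (2 * K), NU X s H (b * q) (DD (e * t) f)) with hG
  have hpop' : δ * R ≤ ∑ t ∈ G, fw R t := by
    refine le_trans (le_of_eq ?_) hpop
    ring
  -- the value `q'` for every popular difference
  have hex : ∀ t ∈ G, ∃ q' : ℕ, 1 ≤ q' ∧ (q' : ℝ) ≤ (1 / δ) ^ C1 ∧ 4 * q' * ⌊δ ^ C2 * X⌋₊ ≤ X ∧ 1 ≤ ⌊δ ^ C2 * X⌋₊ ∧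
      δ ^ C2 * X ≤ NU X s ⌊δ ^ C2 * X⌋₊ q' (DD (e * t) f) := by
    intro t ht
    rw [hG, mem_filter] at ht
    refine hL δ hδ hδ' X K H q hK hH hq hdiv hKX h1 h2 hqδ (DD (e * t) f) (Bdd_DD hf _) (le_trans ?_ ht.2)
    have : (0 : ℝ) ≤ δ * (K * X) := by positivity
    have h3 : 2 * δ * (2 * K * X) / 2 = 2 * (δ * (K * X)) := by ring
    rw [h3]
    linarith
  choose! Q hQ using hex
  have hδ1 : (1 : ℝ) ≤ 1 / δ := by
    rw [le_div_iff₀ hδ]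
    linarith
  have hN1 : 1 ≤ ⌊(1 / δ) ^ C1⌋₊ := Nat.le_floor (by exact_mod_cast one_le_pow₀ hδ1)
  have hmaps : ∀ t ∈ G, Q t ∈ Icc 1 ⌊(1 / δ) ^ C1⌋₊ := by
    intro t ht
    rw [mem_Icc]
    exact ⟨(hQ t ht).1, Nat.le_floor (hQ t ht).2.1⟩
  obtain ⟨q', hq', hfib⟩ := exists_le_sum_fiber_of_maps_to_of_nsmul_le_sum (w := fun t => fw R t) (b := δ ^ (C1 + 1) * (R : ℝ)) hmaps
    ⟨1, by rw [mem_Icc]; exact ⟨le_rfl, hN1⟩⟩ (by
      refine le_trans ?_ hpop'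
      rw [Nat.card_Icc, Nat.add_sub_cancel, nsmul_eq_mul]
      have h3 : ((⌊(1 / δ) ^ C1⌋₊ : ℕ) : ℝ) ≤ (1 / δ) ^ C1 := Nat.floor_le (by positivity)
      calc ((⌊(1 / δ) ^ C1⌋₊ : ℕ) : ℝ) * (δ ^ (C1 + 1) * (R : ℝ)) ≤ (1 / δ) ^ C1 * (δ ^ (C1 + 1) * (R : ℝ)) :=
            mul_le_mul_of_nonneg_right h3 (by positivity)
        _ = δ * R := by
            rw [one_div, inv_pow, pow_succ]
            field_simp)
  -- a representative
  have hpos : 0 < δ ^ (C1 + 1) * (R : ℝ) := by positivity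
  have hne : ∃ t0, t0 ∈ G ∧ Q t0 = q' := by
    by_contra hcon
    push Not at hcon
    have : G.filter (fun x => Q x = q') = ∅ := by
      rw [filter_eq_empty_iff]
      intro x hx
      exact hcon x hx
    rw [this, sum_empty] at hfib
    linarith
  obtain ⟨t0, ht0, hQ0⟩ := hne
  obtain ⟨ha, hb, hc, hd, _⟩ := hQ t0 ht0
  rw [hQ0] at ha hb hc
  refine ⟨q', ha, hb, hc, hd, ?_⟩
  rw [ll9_cons X s _ R hd, le_div_iff₀ hR0]
  have hnn : ∀ t : ℤ, 0 ≤ NU X s ⌊δ ^ C2 * X⌋₊ (q' : ℤ) (DD (e * t) f) := by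
    intro t
    refine NU_nonneg X s _ hs hd _ (by positivity) ?_ _ (Bdd_DD hf _).sup
    have : q' * ⌊δ ^ C2 * X⌋₊ ≤ X := by
      refine le_trans ?_ hc
      rw [mul_assoc]
      exact Nat.le_mul_of_pos_left _ (by norm_num)
    exact_mod_cast this
  have hsub : ∑ t ∈ G.filter (fun x => Q x = q'), fw R t * NU X s ⌊δ ^ C2 * X⌋₊ (q' : ℤ) (DD (e * t) f) ≤
      ∑ t ∈ Ioo (-(R : ℤ)) R, fw R t * NU X s ⌊δ ^ C2 * X⌋₊ (q' : ℤ) (DD (e * t) f) :=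
    sum_le_sum_of_subset_of_nonneg ((filter_subset _ _).trans (filter_subset _ _))
      fun t _ _ => mul_nonneg (mq1_fw_nonneg R t) (hnn t)
  refine le_trans ?_ hsub
  have hlow : (∑ t ∈ G.filter (fun x => Q x = q'), fw R t) * (δ ^ C2 * X) ≤
      ∑ t ∈ G.filter (fun x => Q x = q'), fw R t * NU X s ⌊δ ^ C2 * X⌋₊ (q' : ℤ) (DD (e * t) f) := by
    rw [sum_mul]
    refine sum_le_sum fun t ht => mul_le_mul_of_nonneg_left ?_ (mq1_fw_nonneg R t)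
    rw [mem_filter] at ht
    have := (hQ t ht.1).2.2.2.2
    rw [ht.2] at this
    exact this
  refine le_trans ?_ hlow
  calc δ ^ (C1 + C2 + 1) * X * R = (δ ^ (C1 + 1) * R) * (δ ^ C2 * X) := by ring
    _ ≤ _ := mul_le_mul_of_nonneg_right hfib (by positivity)

/-- **Many differences.** `d = q γ`, `g_t = DD (d t) f` (bounded, `Bdd_DD`). The hypothesis says
`δ^C K² X R ≤ ∑_t fw R t ∑_p NU X s H (p.1 p.2 q) g_t` (`MQ`, `mq2_cons_re`, `MQ_NU`); `LL6_div` with `D = 1/δ` (`4K² ≤ X`, `NU ≥ 0` by `NU_nonneg`: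
`n q H ≤ 4 K² q H ≤ X`; for larger `n` use `Φ n = max 0 (NU ..)`): at most `(1/δ) (Θ_1(t) + Θ_2(t))`, `Θ_j(t) = ∑_{n ∈ (K_j, 2K_j]} NU X s H (n q) g_t`,
`K_1 = K²`, `K_2 = 2K²`, `0 ≤ Θ_j ≤ 2 K_j X`. One `j` has `∑_t fw Θ_j ≥ δ^(C+2) K² X R ≥ δ^(C+3) (2 K_j X) R / 2 ..`; `LL9_pop`: for `t` of weight
`≥ δ^(C+5) R` one has `Θ_j(t) ≥ δ' K_j X`, `δ' = δ^(C+5)`. `L(s)` for `δ'`, `K_j`, `H`, `q`, `g_t` (`δ' X ≤ q K_j H` because
`H ≥ δ^C M / (2K)`, `4 q K_j H ≤ 8 q K² δ^C M / K ≤ X` if `C ≥ 1`): `q'(t) ≤ (1/δ')^C1`. The most frequent value `q'` has weight `≥ δ^(C+5) δ'^C1 R`, and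
`NU X s R2 q' g_t ≥ 0` for all `t`, so `MQ X ((R, d) :: replicate s (R2, q')) f ≥ δ^(C+5) δ'^C1 δ'^C2 X`, `R2 = ⌊δ'^C2 X⌋ = ⌊δ^D2 X⌋`. -/
theorem LL9_many (s : ℕ) (hs : 1 ≤ s) (hL : LLP s) (C : ℕ) (hC : 1 ≤ C) : ∃ D1 D2 : ℕ, ∀ δ : ℝ, 0 < δ → δ ≤ 1 / 2 →
    ∀ X K M q γ R : ℕ, 1 ≤ K → 1 ≤ M → 1 ≤ q → 1 ≤ γ → 1 ≤ R →
    (∀ n : ℕ, 1 ≤ n → n ≤ X → (n.divisors.card : ℝ) ≤ 1 / δ) → (1 / δ) ^ D1 * (K : ℝ) ^ (2 ^ (s + 1)) ≤ X →
    δ * X ≤ q * K * M → 4 * q * K * M ≤ X → (q : ℝ) ≤ 1 / δ → q * γ * R ≤ X → 1 ≤ ⌊δ ^ C * M / K⌋₊ →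
    ∀ f : ℤ → ℂ, Bdd X f →
    δ ^ C * ((K : ℝ) ^ 2 * X) ≤ ∑ p ∈ Ioc K (2 * K) ×ˢ Ioc K (2 * K),
        (MQ X ((R, ((q * γ : ℕ) : ℤ)) :: List.replicate s (⌊δ ^ C * M / K⌋₊, ((p.1 * p.2 * q : ℕ) : ℤ))) f).re →
    ∃ q' : ℕ, 1 ≤ q' ∧ (q' : ℝ) ≤ (1 / δ) ^ D1 ∧ 4 * q' * ⌊δ ^ D2 * X⌋₊ ≤ X ∧ 1 ≤ ⌊δ ^ D2 * X⌋₊ ∧
      δ ^ D1 * X ≤ (MQ X ((R, ((q * γ : ℕ) : ℤ)) :: List.replicate s (⌊δ ^ D2 * X⌋₊, (q' : ℤ))) f).re := by
  obtain ⟨C1, C2, hL⟩ := hL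
  refine ⟨(C + 5) * (C1 + C2 + 1) + 2 ^ s + 2, (C + 5) * C2, ?_⟩
  intro δ hδ hδ2 X K M q γ R hK hM hq hγ hR hdiv hKX h1 h2 hqδ hqR hH f hf hmain
  set D1 := (C + 5) * (C1 + C2 + 1) + 2 ^ s + 2 with hD1
  set H := ⌊δ ^ C * M / K⌋₊ with hHdef
  have hps : 1 ≤ 2 ^ s := Nat.one_le_two_pow
  have hK0 : (0 : ℝ) < K := by exact_mod_cast hK
  have hK1 : (1 : ℝ) ≤ K := by exact_mod_cast hK
  have hM0 : (0 : ℝ) < M := by exact_mod_cast hM
  have hq0 : (0 : ℝ) < q := by exact_mod_cast hq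
  have hR0 : (0 : ℝ) < R := by exact_mod_cast hR
  have hi2 : (2 : ℝ) ≤ 1 / δ := by
    rw [le_div_iff₀ hδ]
    linarith
  have hi1 : (1 : ℝ) ≤ 1 / δ := by linarith
  have hi0 : (0 : ℝ) < 1 / δ := by linarith
  have hδ1 : δ ≤ 1 := by linarith
  have hX1 : (1 : ℝ) ≤ X := by
    refine le_trans ?_ hKX
    exact one_le_mul_of_one_le_of_one_le (one_le_pow₀ hi1) (one_le_pow₀ hK1)
  have hX0 : (0 : ℝ) < X := by linarith
  have hXn : 1 ≤ X := by exact_mod_cast hX1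
  -- `4 K² ≤ X`
  have h4K : 4 * K ^ 2 ≤ X := by
    have h3 : (4 : ℝ) * (K : ℝ) ^ 2 ≤ X := by
      refine le_trans ?_ hKX
      refine mul_le_mul ?_ ?_ (by positivity) (by positivity)
      · calc (4 : ℝ) = 2 ^ 2 := by norm_num
          _ ≤ (1 / δ) ^ 2 := pow_le_pow_left₀ (by norm_num) hi2 2
          _ ≤ (1 / δ) ^ D1 := pow_le_pow_right₀ hi1 (by omega)
      · refine pow_le_pow_right₀ hK1 ?_
        rw [pow_succ]
        have := Nat.one_le_two_pow (n := s)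
        omega
    exact_mod_cast h3
  have hδC : δ ^ C ≤ δ := by
    calc δ ^ C ≤ δ ^ 1 := pow_le_pow_of_le_one hδ.le hδ1 hC
      _ = δ := pow_one δ
  have hδC0 : 0 < δ ^ C := by positivity
  have hHle : (H : ℝ) ≤ δ ^ C * M / K := Nat.floor_le (by positivity)
  have hHge : δ ^ C * M / K / 2 ≤ H := by
    have h3 : δ ^ C * M / K < H + 1 := Nat.lt_floor_add_one _
    have h4 : (1 : ℝ) ≤ H := by exact_mod_cast hH
    linarith
  have h2' : (4 : ℝ) * q * K * M ≤ X := by exact_mod_cast h2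
  -- `8 K² q H ≤ X`
  have h8 : (8 : ℝ) * K ^ 2 * q * H ≤ X := by
    calc (8 : ℝ) * K ^ 2 * q * H ≤ 8 * K ^ 2 * q * (δ ^ C * M / K) := mul_le_mul_of_nonneg_left hHle (by positivity)
      _ = 2 * δ ^ C * (4 * q * K * M) := by
          field_simp
          ring
      _ ≤ 2 * δ ^ C * X := mul_le_mul_of_nonneg_left h2' (by positivity)
      _ ≤ 1 * X := mul_le_mul_of_nonneg_right (by linarith) hX0.le
      _ = X := one_mul _
  have h8n : 8 * K ^ 2 * q * H ≤ X := by exact_mod_cast h8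
  -- the sum over the pairs
  have hsum : δ ^ (C + 1) * ((K : ℝ) ^ 2 * X) * R ≤ (∑ t ∈ Ioo (-(R : ℤ)) R, fw R t *
        ∑ n ∈ Ioc (K ^ 2) (2 * K ^ 2), NU X s H (n * q) (DD (((q * γ : ℕ) : ℤ) * t) f)) +
      ∑ t ∈ Ioo (-(R : ℤ)) R, fw R t *
        ∑ n ∈ (Ioc (2 * K ^ 2) (2 * (2 * K ^ 2)) : Finset ℕ), NU X s H (n * q) (DD (((q * γ : ℕ) : ℤ) * t) f) := by
    have h3 : δ ^ C * ((K : ℝ) ^ 2 * X) * R ≤ ∑ t ∈ Ioo (-(R : ℤ)) R, fw R t *
        ∑ p ∈ Ioc K (2 * K) ×ˢ Ioc K (2 * K), NU X s H ((p.1 * p.2 * q : ℕ) : ℤ) (DD (((q * γ : ℕ) : ℤ) * t) f) := by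
      rw [← le_div_iff₀ hR0]
      refine hmain.trans (le_of_eq ?_)
      rw [sum_congr rfl fun p _ => ll9_cons X s H R hH ((p.1 * p.2 * q : ℕ) : ℤ) ((q * γ : ℕ) : ℤ) f, ← sum_div, sum_comm]
      congr 1
      refine sum_congr rfl fun t _ => ?_
      rw [mul_sum]
    have h5 : ∀ t ∈ Ioo (-(R : ℤ)) R, fw R t *
        ∑ p ∈ Ioc K (2 * K) ×ˢ Ioc K (2 * K), NU X s H ((p.1 * p.2 * q : ℕ) : ℤ) (DD (((q * γ : ℕ) : ℤ) * t) f) ≤
        (1 / δ) * (fw R t * ∑ n ∈ Ioc (K ^ 2) (2 * K ^ 2), NU X s H (n * q) (DD (((q * γ : ℕ) : ℤ) * t) f) +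
          fw R t * ∑ n ∈ (Ioc (2 * K ^ 2) (2 * (2 * K ^ 2)) : Finset ℕ), NU X s H (n * q) (DD (((q * γ : ℕ) : ℤ) * t) f)) := by
      intro t _
      have h6 := ll9_div X s K H q (1 / δ) hs hH h4K hdiv
        (le_trans (Nat.mul_le_mul_right H (Nat.mul_le_mul_right q (Nat.mul_le_mul_right (K ^ 2) (by norm_num)))) h8n)
        (DD (((q * γ : ℕ) : ℤ) * t) f) (Bdd_DD hf _)
      refine (mul_le_mul_of_nonneg_left h6 (mq1_fw_nonneg R t)).trans (le_of_eq ?_)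
      ring
    have h7 := h3.trans (sum_le_sum h5)
    rw [← mul_sum, sum_add_distrib] at h7
    have h9 := mul_le_mul_of_nonneg_left h7 hδ.le
    rw [← mul_assoc δ (1 / δ), mul_one_div_cancel hδ.ne', one_mul] at h9
    refine le_trans (le_of_eq ?_) h9
    ring
  -- `δ' = δ^(C+5)`
  set δ' := δ ^ (C + 5) with hδ'
  have hδ'0 : 0 < δ' := by positivity
  have hδ'1 : δ' ≤ δ := by
    calc δ' ≤ δ ^ 1 := pow_le_pow_of_le_one hδ.le hδ1 (by omega)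
      _ = δ := pow_one δ
  have hinv : (1 / δ') = (1 / δ) ^ (C + 5) := by
    rw [hδ', one_div, one_div, inv_pow]
  have hii : 1 / δ ≤ 1 / δ' := one_div_le_one_div_of_le hδ'0 hδ'1
  have hp2 : δ' ^ C2 = δ ^ ((C + 5) * C2) := by rw [hδ', ← pow_mul]
  have hkey : ∀ Kj : ℕ, K ^ 2 ≤ Kj → Kj ≤ 2 * K ^ 2 →
      (2 * δ') * (2 * Kj * X) * R ≤ ∑ t ∈ Ioo (-(R : ℤ)) R, fw R t *
        ∑ n ∈ Ioc Kj (2 * Kj), NU X s H (n * q) (DD (((q * γ : ℕ) : ℤ) * t) f) →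
      ∃ q' : ℕ, 1 ≤ q' ∧ (q' : ℝ) ≤ (1 / δ) ^ D1 ∧ 4 * q' * ⌊δ ^ ((C + 5) * C2) * X⌋₊ ≤ X ∧ 1 ≤ ⌊δ ^ ((C + 5) * C2) * X⌋₊ ∧
      δ ^ D1 * X ≤ (MQ X ((R, ((q * γ : ℕ) : ℤ)) :: List.replicate s (⌊δ ^ ((C + 5) * C2) * X⌋₊, (q' : ℤ))) f).re := by
    intro Kj hKj1 hKj2 hm
    have hKjr1 : (K : ℝ) ^ 2 ≤ Kj := by exact_mod_cast hKj1
    have hKjr2 : (Kj : ℝ) ≤ 2 * (K : ℝ) ^ 2 := by exact_mod_cast hKj2
    have hKjp : 1 ≤ Kj := le_trans (Nat.one_le_pow _ _ hK) hKj1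
    obtain ⟨q', e1, e2, e3, e4, e5⟩ := ll9_one s hs C1 C2 hL δ' hδ'0 (hδ'1.trans hδ2) X Kj H q R hXn hKjp hH hq hR
      (fun n n1 n2 => (hdiv n n1 n2).trans hii)
      (by
        refine le_trans ?_ hKX
        have a1 : (Kj : ℝ) ^ (2 ^ s) ≤ 2 ^ (2 ^ s) * (K : ℝ) ^ (2 ^ (s + 1)) := by
          calc (Kj : ℝ) ^ (2 ^ s) ≤ (2 * (K : ℝ) ^ 2) ^ (2 ^ s) := pow_le_pow_left₀ (by positivity) hKjr2 _
            _ = 2 ^ (2 ^ s) * (K : ℝ) ^ (2 ^ (s + 1)) := by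
                rw [mul_pow, ← pow_mul, pow_succ, mul_comm 2 (2 ^ s)]
        have a2 : (2 : ℝ) ^ (2 ^ s) ≤ (1 / δ) ^ (2 ^ s) := pow_le_pow_left₀ (by norm_num) hi2 _
        calc (1 / δ') ^ C2 * (Kj : ℝ) ^ (2 ^ s) ≤ (1 / δ') ^ C2 * ((1 / δ) ^ (2 ^ s) * (K : ℝ) ^ (2 ^ (s + 1))) := by
              refine mul_le_mul_of_nonneg_left (a1.trans ?_) (by positivity)
              exact mul_le_mul_of_nonneg_right a2 (by positivity)
          _ = (1 / δ) ^ ((C + 5) * C2 + 2 ^ s) * (K : ℝ) ^ (2 ^ (s + 1)) := by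
              rw [hinv, ← pow_mul, pow_add (1 / δ) ((C + 5) * C2) (2 ^ s), mul_assoc]
          _ ≤ (1 / δ) ^ D1 * (K : ℝ) ^ (2 ^ (s + 1)) := by
              refine mul_le_mul_of_nonneg_right (pow_le_pow_right₀ hi1 ?_) (by positivity)
              rw [hD1]
              have : (C + 5) * C2 ≤ (C + 5) * (C1 + C2 + 1) := Nat.mul_le_mul_left _ (by omega)
              omega)
      (by
        calc δ' * X ≤ δ ^ (C + 2) * X := by
              refine mul_le_mul_of_nonneg_right ?_ hX0.le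
              exact pow_le_pow_of_le_one hδ.le hδ1 (by omega)
          _ = (δ * δ ^ C) * (δ * X) := by ring
          _ ≤ (1 / 2 * δ ^ C) * (q * K * M) := by
              refine mul_le_mul ?_ h1 (by positivity) (by positivity)
              exact mul_le_mul_of_nonneg_right hδ2 hδC0.le
          _ = q * (K : ℝ) ^ 2 * (δ ^ C * M / K / 2) := by
              field_simp
          _ ≤ q * Kj * H := by
              refine mul_le_mul (mul_le_mul_of_nonneg_left hKjr1 hq0.le) hHge (by positivity) (by positivity))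
      (by
        calc 4 * q * Kj * H ≤ 4 * q * (2 * K ^ 2) * H :=
              Nat.mul_le_mul_right H (Nat.mul_le_mul_left (4 * q) hKj2)
          _ = 8 * K ^ 2 * q * H := by ring
          _ ≤ X := h8n)
      (hqδ.trans hii) ((q * γ : ℕ) : ℤ) f hf hm
    rw [hp2] at e3 e4 e5
    refine ⟨q', e1, ?_, e3, e4, le_trans ?_ e5⟩
    · refine e2.trans ?_
      rw [hinv, ← pow_mul]
      refine pow_le_pow_right₀ hi1 ?_
      rw [hD1]
      have : (C + 5) * C1 ≤ (C + 5) * (C1 + C2 + 1) := Nat.mul_le_mul_left _ (by omega)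
      omega
    · refine mul_le_mul_of_nonneg_right ?_ hX0.le
      rw [hδ', ← pow_mul]
      refine pow_le_pow_of_le_one hδ.le hδ1 ?_
      rw [hD1]
      omega
  -- one of the two ranges
  have hA : (4 * δ') ≤ δ ^ (C + 1) / 4 := by
    have a1 : δ ^ 4 ≤ (1 / 2 : ℝ) ^ 4 := pow_le_pow_left₀ hδ.le hδ2 4
    calc 4 * δ' = 4 * (δ ^ (C + 1) * δ ^ 4) := by rw [hδ']; ring
      _ ≤ 4 * (δ ^ (C + 1) * (1 / 2) ^ 4) := by
          refine mul_le_mul_of_nonneg_left ?_ (by norm_num)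
          exact mul_le_mul_of_nonneg_left a1 (by positivity)
      _ = δ ^ (C + 1) / 4 := by ring
  have hKXR : (0 : ℝ) < (K : ℝ) ^ 2 * X * R := by positivity
  have hlow : (4 * δ') * ((K : ℝ) ^ 2 * X * R) ≤ δ ^ (C + 1) * ((K : ℝ) ^ 2 * X) * R / 4 := by
    refine (mul_le_mul_of_nonneg_right hA hKXR.le).trans (le_of_eq ?_)
    ring
  have hpos' : 0 < δ ^ (C + 1) * ((K : ℝ) ^ 2 * X) * R := by positivity
  rcases le_total (δ ^ (C + 1) * ((K : ℝ) ^ 2 * X) * R / 2) (∑ t ∈ Ioo (-(R : ℤ)) R, fw R t *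
        ∑ n ∈ Ioc (K ^ 2) (2 * K ^ 2), NU X s H (n * q) (DD (((q * γ : ℕ) : ℤ) * t) f)) with hc | hc
  · refine hkey (K ^ 2) le_rfl (by omega) (le_trans ?_ hc)
    have : (2 * δ') * (2 * ((K ^ 2 : ℕ) : ℝ) * X) * R = (4 * δ') * ((K : ℝ) ^ 2 * X * R) := by
      push_cast
      ring
    rw [this]
    linarith
  · have hc2 : δ ^ (C + 1) * ((K : ℝ) ^ 2 * X) * R / 2 ≤ ∑ t ∈ Ioo (-(R : ℤ)) R, fw R t *
        ∑ n ∈ (Ioc (2 * K ^ 2) (2 * (2 * K ^ 2)) : Finset ℕ), NU X s H (n * q) (DD (((q * γ : ℕ) : ℤ) * t) f) := by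
      linarith
    refine hkey (2 * K ^ 2) (by omega) le_rfl (le_trans ?_ hc2)
    have : (2 * δ') * (2 * ((2 * K ^ 2 : ℕ) : ℝ) * X) * R = 2 * ((4 * δ') * ((K : ℝ) ^ 2 * X * R)) := by
      push_cast
      ring
    rw [this]
    linarith

end Pool.Agent.HUK
end
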