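import Pool.Agent.Lib.H59M.M1.M026
import Pool.Agent.Lib.H59M.M1.M028

/-! Merged copies (to shorten the build) of Lib.HUK.A8b, Lib.HUK.A8, Lib.HUK.LL3, Lib.HUK.LL5, Lib.HUK.LL7a, Lib.HUK.LL7. -/

-- from Lib.HUK.A8b
section

/-!
# Project HUK, A8b (helper37): Vinogradov's lemma for integer functions of degree at most `d`
-/

open Finset

namespace Pool.Agent.HUK

open Pool.Agent.Lib.H84V (nd nd_sub_le vino nd_nonneg)

open Classical in
/-- pairs of elements of `S ⊆ [0, L)` by their difference. -/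
theorem av_pairs (L : ℕ) (S : Finset ℕ) (hS : S ⊆ range L) :
    ∑ h ∈ Ioo (-(L : ℤ)) L, ((range L).filter fun k : ℕ => k ∈ S ∧ ∃ k' ∈ S, (k' : ℤ) = k + h).card = S.card ^ 2 := by
  rw [sq, ← Finset.card_product]
  rw [Finset.card_eq_sum_card_fiberwise (s := S ×ˢ S) (t := Ioo (-(L : ℤ)) L) (f := fun p : ℕ × ℕ => (p.2 : ℤ) - p.1)]
  · refine Finset.sum_congr rfl fun h _ => ?_
    refine Finset.card_bij' (fun k _ => (k, ((k : ℤ) + h).toNat)) (fun p _ => p.1) ?_ ?_ ?_ ?_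
    · intro k hk
      rw [mem_filter] at hk
      obtain ⟨_, hk1, k', hk', he⟩ := hk
      rw [mem_filter, mem_product]
      have h1 : ((k : ℤ) + h).toNat = k' := by omega
      refine ⟨⟨hk1, ?_⟩, ?_⟩
      · simp only [h1]
        exact hk'
      · simp only [h1]
        omega
    · intro p hp
      rw [mem_filter, mem_product] at hp
      rw [mem_filter]
      exact ⟨hS hp.1.1, hp.1.1, p.2, hp.1.2, by omega⟩
    · intro k _
      rfl
    · intro p hp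
      rw [mem_filter, mem_product] at hp
      refine Prod.ext rfl ?_
      simp only
      omega
  · intro p hp
    rw [mem_coe, mem_product] at hp
    have h1 := mem_range.1 (hS hp.1)
    have h2 := mem_range.1 (hS hp.2)
    have h3 : ((p.2 : ℤ) - p.1) ∈ Ioo (-(L : ℤ)) L := by
      rw [mem_Ioo]
      omega
    exact mem_coe.2 h3

open Classical in
/-- Many differences occur often. -/
theorem av_many (L : ℕ) (hL : 1 ≤ L) (δ : ℝ) (hδ : 0 < δ) (S : Finset ℕ) (hS : S ⊆ range L) (hc : δ * L ≤ S.card) :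
    δ ^ 2 / 2 * L ≤ (((Ioo (-(L : ℤ)) L).filter fun h : ℤ => δ ^ 2 / 4 * L ≤
      (((range L).filter fun k : ℕ => k ∈ S ∧ ∃ k' ∈ S, (k' : ℤ) = k + h).card : ℝ)).card : ℝ) := by
  have hLr : (1 : ℝ) ≤ L := by exact_mod_cast hL
  have h1 : ∑ h ∈ Ioo (-(L : ℤ)) L,
      (((range L).filter fun k : ℕ => k ∈ S ∧ ∃ k' ∈ S, (k' : ℤ) = k + h).card : ℝ) = (S.card : ℝ) ^ 2 := by
    exact_mod_cast av_pairs L S hS
  obtain ⟨r, hr⟩ : ∃ r : ℤ → ℝ, ∀ h, r h =
    (((range L).filter fun k : ℕ => k ∈ S ∧ ∃ k' ∈ S, (k' : ℤ) = k + h).card : ℝ) := ⟨_, fun _ => rfl⟩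
  simp only [← hr] at h1 ⊢
  have hrL : ∀ h, r h ≤ L := by
    intro h
    rw [hr]
    have h2 : ((range L).filter fun k : ℕ => k ∈ S ∧ ∃ k' ∈ S, (k' : ℤ) = k + h).card ≤ L :=
      (Finset.card_filter_le _ _).trans (card_range L).le
    exact_mod_cast h2
  have h3 : ∑ h ∈ Ioo (-(L : ℤ)) L, r h ≤
      (((Ioo (-(L : ℤ)) L).filter fun h : ℤ => δ ^ 2 / 4 * L ≤ r h).card : ℝ) * L + (2 * L) * (δ ^ 2 / 4 * L) := by
    rw [← Finset.sum_filter_add_sum_filter_not _ (fun h : ℤ => δ ^ 2 / 4 * L ≤ r h)]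
    refine add_le_add ?_ ?_
    · rw [← nsmul_eq_mul]
      exact Finset.sum_le_card_nsmul _ _ _ fun h _ => hrL h
    · have h4 : ∑ h ∈ (Ioo (-(L : ℤ)) L).filter (fun h : ℤ => ¬ δ ^ 2 / 4 * L ≤ r h), r h ≤
          ((Ioo (-(L : ℤ)) L).filter (fun h : ℤ => ¬ δ ^ 2 / 4 * L ≤ r h)).card • (δ ^ 2 / 4 * L) :=
        Finset.sum_le_card_nsmul _ _ _ fun h hh => (not_le.1 (mem_filter.1 hh).2).le
      refine h4.trans ?_
      rw [nsmul_eq_mul]
      refine mul_le_mul_of_nonneg_right ?_ (by positivity)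
      have h5 : ((Ioo (-(L : ℤ)) L).filter (fun h : ℤ => ¬ δ ^ 2 / 4 * L ≤ r h)).card ≤ 2 * L := by
        refine (Finset.card_filter_le _ _).trans ?_
        rw [Int.card_Ioo]
        omega
      exact_mod_cast h5
  rw [h1] at h3
  have h6 : (δ * L) ^ 2 ≤ (S.card : ℝ) ^ 2 := pow_le_pow_left₀ (by positivity) hc 2
  have h7 : δ ^ 2 / 2 * L * L ≤ (((Ioo (-(L : ℤ)) L).filter fun h : ℤ => δ ^ 2 / 4 * L ≤ r h).card : ℝ) * L := by
    nlinarith
  exact le_of_mul_le_mul_right h7 (by linarith)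

/-- Pigeonhole for a function with values in `[1, B]`. -/
theorem av_pigeon (T : Finset ℤ) (f : ℤ → ℕ) (B : ℝ) (hB : 1 ≤ B) (hT : 0 < T.card)
    (hf : ∀ h ∈ T, 1 ≤ f h ∧ (f h : ℝ) ≤ B) : ∃ q : ℕ, 1 ≤ q ∧ (q : ℝ) ≤ B ∧ (T.card : ℝ) / B ≤ ((T.filter fun h => f h = q).card : ℝ) := by
  have hB0 : 0 < B := by linarith
  obtain ⟨n, hn⟩ : ∃ n : ℕ, n = ⌊B⌋₊ := ⟨_, rfl⟩
  have hn1 : 1 ≤ n := by
    rw [hn]
    exact Nat.le_floor (by exact_mod_cast hB)
  have hnB : (n : ℝ) ≤ B := by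
    rw [hn]
    exact Nat.floor_le hB0.le
  have hmaps : ∀ h ∈ T, f h ∈ Icc 1 n := by
    intro h hh
    rw [mem_Icc, hn]
    exact ⟨(hf h hh).1, Nat.le_floor (hf h hh).2⟩
  by_contra hcon
  push Not at hcon
  have h1 : ∀ q ∈ Icc 1 n, (((T.filter fun h => f h = q).card : ℕ) : ℝ) < (T.card : ℝ) / B := by
    intro q hq
    rw [mem_Icc] at hq
    refine hcon q hq.1 (le_trans ?_ hnB)
    exact_mod_cast hq.2
  have h2 := Finset.card_eq_sum_card_fiberwise (s := T) (t := Icc 1 n) (f := f) (fun h hh => hmaps h hh)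
  have h3 : (T.card : ℝ) = ∑ q ∈ Icc 1 n, (((T.filter fun h => f h = q).card : ℕ) : ℝ) := by
    exact_mod_cast h2
  have h4 : ∑ q ∈ Icc 1 n, (((T.filter fun h => f h = q).card : ℕ) : ℝ) < ∑ _q ∈ Icc 1 n, (T.card : ℝ) / B := by
    refine Finset.sum_lt_sum_of_nonempty ?_ h1
    exact ⟨1, mem_Icc.2 ⟨le_rfl, hn1⟩⟩
  rw [← h3, Finset.sum_const, Nat.card_Icc, nsmul_eq_mul, Nat.add_sub_cancel] at h4
  have h5 : (n : ℝ) * ((T.card : ℝ) / B) ≤ B * ((T.card : ℝ) / B) := mul_le_mul_of_nonneg_right hnB (by positivity)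
  rw [mul_div_cancel₀ _ hB0.ne'] at h5
  linarith

open Classical in
/-- Vinogradov's lemma for functions of degree at most `d`. -/
theorem av_main (d : ℕ) : ∃ C : ℕ, ∀ δ : ℝ, 0 < δ → δ ≤ 1 / 2 → ∀ L : ℕ, (1 / δ) ^ C ≤ L → ∀ (c : ℤ) (P : ℤ → ℤ) (ψ ε : ℝ),
    PF d c P → 0 ≤ ε → ε ≤ δ ^ C → δ * L ≤ (((range L).filter fun k : ℕ => nd (ψ * P k) ≤ ε).card : ℝ) →
    ∃ q : ℕ, 1 ≤ q ∧ (q : ℝ) ≤ (1 / δ) ^ C ∧ nd (q * (c * ψ)) ≤ (1 / δ) ^ C * ε / (L : ℝ) ^ d := by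
  induction d with
  | zero =>
    refine ⟨1, fun δ hδ hδ2 L hL c P ψ ε hP hε _ hcard => ?_⟩
    have hδi : 2 ≤ 1 / δ := by
      rw [le_div_iff₀ hδ]
      linarith
    have hL0 : (0 : ℝ) < L := by
      rw [pow_one] at hL
      linarith
    have h1 : (0 : ℝ) < (((range L).filter fun k : ℕ => nd (ψ * P k) ≤ ε).card : ℝ) :=
      lt_of_lt_of_le (by positivity) hcard
    have h2 : 0 < ((range L).filter fun k : ℕ => nd (ψ * P k) ≤ ε).card := by exact_mod_cast h1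
    obtain ⟨k, hk⟩ := Finset.card_pos.1 h2
    rw [mem_filter, hP] at hk
    refine ⟨1, le_rfl, by rw [pow_one]; push_cast; linarith, ?_⟩
    rw [Nat.cast_one, one_mul, mul_comm, pow_zero, div_one, pow_one]
    refine hk.2.trans ?_
    nlinarith
  | succ d ih =>
    obtain ⟨C, hC⟩ := ih
    refine ⟨12 * C + d + 20, fun δ hδ hδ2 L hL c P ψ ε hP hε hεδ hcard => ?_⟩
    have hδi : 2 ≤ 1 / δ := by
      rw [le_div_iff₀ hδ]
      linarith
    have hδi1 : 1 ≤ 1 / δ := by linarith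
    have hδ1 : δ ≤ 1 := by linarith
    have hmono : ∀ a b : ℕ, a ≤ b → (1 / δ) ^ a ≤ (1 / δ) ^ b := fun a b hab => pow_le_pow_right₀ hδi1 hab
    have hmono' : ∀ a b : ℕ, a ≤ b → δ ^ b ≤ δ ^ a := fun a b hab => pow_le_pow_of_le_one hδ.le hδ1 hab
    have hLr1 : (1 : ℝ) ≤ L := (one_le_pow₀ hδi1).trans hL
    have hL1 : 1 ≤ L := by exact_mod_cast hLr1
    have hL0 : (0 : ℝ) < L := by linarith
    obtain ⟨δ1, hδ1d⟩ : ∃ δ1 : ℝ, δ1 = δ ^ 2 / 4 := ⟨_, rfl⟩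
    have hδ1p : 0 < δ1 := by rw [hδ1d]; positivity
    have hδ1h : δ1 ≤ 1 / 2 := by
      rw [hδ1d]
      nlinarith
    have hδ1le1 : δ1 ≤ 1 := by linarith
    have hδ14 : δ ^ 4 ≤ δ1 := by
      rw [hδ1d]
      have h1 : δ ^ 2 ≤ 1 / 4 := by nlinarith
      have h2 : δ ^ 4 = δ ^ 2 * δ ^ 2 := by ring
      rw [h2]
      nlinarith [sq_nonneg δ]
    have hδ1i : 1 / δ1 ≤ (1 / δ) ^ 4 := by
      rw [one_div, one_div, inv_pow]
      exact inv_anti₀ (by positivity) hδ14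
    have hδ1i1 : 1 ≤ 1 / δ1 := by
      rw [le_div_iff₀ hδ1p]
      linarith
    have hinvpow : ∀ n : ℕ, (1 / δ1) ^ n ≤ (1 / δ) ^ (4 * n) := by
      intro n
      rw [pow_mul]
      exact pow_le_pow_left₀ (by positivity) hδ1i n
    have hpowδ1 : ∀ n : ℕ, δ ^ (4 * n) ≤ δ1 ^ n := by
      intro n
      rw [pow_mul]
      exact pow_le_pow_left₀ (by positivity) hδ14 n
    -- the set of differences
    obtain ⟨S, hSd⟩ : ∃ S : Finset ℕ, S = (range L).filter fun k : ℕ => nd (ψ * P k) ≤ ε := ⟨_, rfl⟩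
    rw [← hSd] at hcard
    have hS : S ⊆ range L := by
      rw [hSd]
      exact Finset.filter_subset _ _
    obtain ⟨T, hTd⟩ : ∃ T : Finset ℤ, T = (Ioo (-(L : ℤ)) L).filter fun h : ℤ => δ ^ 2 / 4 * L ≤
      (((range L).filter fun k : ℕ => k ∈ S ∧ ∃ k' ∈ S, (k' : ℤ) = k + h).card : ℝ) := ⟨_, rfl⟩
    have hT := av_many L hL1 δ hδ S hS hcard
    rw [← hTd] at hT
    -- the induction hypothesis for each difference
    have hε2 : 2 * ε ≤ δ1 ^ C := by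
      have h1 : 2 * ε ≤ (1 / δ) * δ ^ (12 * C + d + 20) := mul_le_mul hδi hεδ hε (by positivity)
      have h2 : (1 / δ) * δ ^ (12 * C + d + 20) = δ ^ (12 * C + d + 19) := by
        rw [show 12 * C + d + 20 = 12 * C + d + 19 + 1 by ring, pow_succ]
        field_simp
      rw [h2] at h1
      exact h1.trans ((hmono' (4 * C) _ (by omega)).trans (hpowδ1 C))
    have hq : ∀ h : ℤ, h ∈ T → ∃ q : ℕ, 1 ≤ q ∧ (q : ℝ) ≤ (1 / δ1) ^ C ∧
        nd (q * ((((((d : ℤ) + 1) * h * c : ℤ) : ℝ)) * ψ)) ≤ (1 / δ1) ^ C * (2 * ε) / (L : ℝ) ^ d := by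
      intro h hh
      rw [hTd, mem_filter] at hh
      refine hC δ1 hδ1p hδ1h L (((hinvpow C).trans (hmono _ _ (by omega))).trans hL) _ _ ψ (2 * ε) (hP h) (by linarith) hε2 ?_
      rw [hδ1d]
      refine hh.2.trans ?_
      have h3 : ((range L).filter fun k : ℕ => k ∈ S ∧ ∃ k' ∈ S, (k' : ℤ) = k + h) ⊆
          (range L).filter fun k : ℕ => nd (ψ * ((P (k + h) - P k : ℤ) : ℝ)) ≤ 2 * ε := by
        intro k hk
        rw [mem_filter] at hk ⊢
        obtain ⟨hk0, hk1, k', hk', he⟩ := hk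
        refine ⟨hk0, ?_⟩
        rw [hSd, mem_filter] at hk1 hk'
        rw [← he]
        push_cast
        rw [mul_sub]
        refine (nd_sub_le _ _).trans ?_
        linarith [hk1.2, hk'.2]
      exact_mod_cast Finset.card_le_card h3
    obtain ⟨f, hf⟩ : ∃ f : ℤ → ℕ, ∀ h ∈ T, 1 ≤ f h ∧ (f h : ℝ) ≤ (1 / δ1) ^ C ∧
        nd (f h * ((((((d : ℤ) + 1) * h * c : ℤ) : ℝ)) * ψ)) ≤ (1 / δ1) ^ C * (2 * ε) / (L : ℝ) ^ d := by
      refine ⟨fun h => if hh : h ∈ T then (hq h hh).choose else 1, fun h hh => ?_⟩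
      simp only [dif_pos hh]
      exact (hq h hh).choose_spec
    have hTpos : 0 < T.card := by
      have h1 : (0 : ℝ) < T.card := lt_of_lt_of_le (by positivity) hT
      exact_mod_cast h1
    obtain ⟨q, hq1, hqB, hqc⟩ := av_pigeon T f ((1 / δ1) ^ C) (one_le_pow₀ hδ1i1) hTpos
      (fun h hh => ⟨(hf h hh).1, (hf h hh).2.1⟩)
    -- linear Vinogradov
    obtain ⟨η, hηd⟩ : ∃ η : ℝ, η = δ1 ^ (C + 1) := ⟨_, rfl⟩
    have hη : 0 < η := by rw [hηd]; positivity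
    have hη1 : η ≤ 1 := by
      rw [hηd]
      exact pow_le_one₀ hδ1p.le hδ1le1
    have hLd : (1 : ℝ) ≤ (L : ℝ) ^ d := one_le_pow₀ hLr1
    have hε2n : 0 ≤ (1 / δ1) ^ C * (2 * ε) / (L : ℝ) ^ d := by positivity
    have hε2le : (1 / δ1) ^ C * (2 * ε) / (L : ℝ) ^ d ≤ η / 16 := by
      have h1 : (1 / δ1) ^ C * (2 * ε) / (L : ℝ) ^ d ≤ (1 / δ1) ^ C * (2 * ε) :=
        div_le_self (by positivity) hLd
      refine h1.trans ?_
      have h2 : (1 / δ1) ^ C * (2 * ε) ≤ (1 / δ1) ^ C * (2 * (δ1 ^ (2 * C + 1) * δ ^ 5)) := by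
        refine mul_le_mul_of_nonneg_left ?_ (by positivity)
        refine mul_le_mul_of_nonneg_left ?_ (by norm_num)
        refine hεδ.trans ?_
        calc δ ^ (12 * C + d + 20) ≤ δ ^ (4 * (2 * C + 1) + 5) := hmono' _ _ (by omega)
          _ = δ ^ (4 * (2 * C + 1)) * δ ^ 5 := pow_add _ _ _
          _ ≤ δ1 ^ (2 * C + 1) * δ ^ 5 := mul_le_mul_of_nonneg_right (hpowδ1 _) (by positivity)
      refine h2.trans ?_
      have h3 : (1 / δ1) ^ C * (2 * (δ1 ^ (2 * C + 1) * δ ^ 5)) = η * (2 * δ ^ 5) := by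
        rw [hηd, show 2 * C + 1 = C + (C + 1) by ring, pow_add δ1 C (C + 1), one_div, inv_pow]
        field_simp
      rw [h3]
      have h4 : δ ^ 5 ≤ 1 / 32 := by
        calc δ ^ 5 ≤ (1 / 2) ^ 5 := pow_le_pow_left₀ hδ.le hδ2 5
          _ = 1 / 32 := by norm_num
      nlinarith
    have h24 : 24 / η ^ 2 ≤ ((2 * L : ℕ) : ℝ) := by
      push_cast
      rw [div_le_iff₀ (by positivity), hηd]
      have h1 : (1 / δ) ^ (4 * (2 * (C + 1)) + 4) ≤ L := (hmono _ _ (by omega)).trans hL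
      have h2 : (16 : ℝ) ≤ (1 / δ) ^ 4 := by
        calc (16 : ℝ) = 2 ^ 4 := by norm_num
          _ ≤ (1 / δ) ^ 4 := pow_le_pow_left₀ (by norm_num) hδi 4
      have h3 : (1 / δ1) ^ (2 * (C + 1)) * 16 ≤ L := by
        refine le_trans ?_ h1
        rw [pow_add]
        exact mul_le_mul (hinvpow _) h2 (by norm_num) (by positivity)
      have h4 : (δ1 ^ (C + 1)) ^ 2 * (1 / δ1) ^ (2 * (C + 1)) = 1 := by
        rw [← pow_mul, mul_comm (C + 1) 2, ← mul_pow, mul_one_div_cancel hδ1p.ne', one_pow]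
      have h5 : 16 ≤ (L : ℝ) * (δ1 ^ (C + 1)) ^ 2 := by
        calc (16 : ℝ) = (1 / δ1) ^ (2 * (C + 1)) * 16 * (δ1 ^ (C + 1)) ^ 2 := by
              rw [show (1 / δ1) ^ (2 * (C + 1)) * 16 * (δ1 ^ (C + 1)) ^ 2 =
                16 * ((δ1 ^ (C + 1)) ^ 2 * (1 / δ1) ^ (2 * (C + 1))) by ring, h4, mul_one]
          _ ≤ L * (δ1 ^ (C + 1)) ^ 2 := mul_le_mul_of_nonneg_right h3 (by positivity)
      linarith
    have hcardη : η * ((2 * L : ℕ) : ℝ) ≤ ((T.filter fun h => f h = q).card : ℝ) := by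
      refine le_trans ?_ hqc
      rw [le_div_iff₀ (by positivity), hηd]
      push_cast
      have h1 : δ1 ^ (C + 1) * (2 * (L : ℝ)) * (1 / δ1) ^ C = δ1 * (2 * L) := by
        rw [pow_succ]
        have h2 : δ1 ^ C * (1 / δ1) ^ C = 1 := by
          rw [← mul_pow, mul_one_div_cancel hδ1p.ne', one_pow]
        calc δ1 ^ C * δ1 * (2 * (L : ℝ)) * (1 / δ1) ^ C = δ1 * (2 * L) * (δ1 ^ C * (1 / δ1) ^ C) := by ring
          _ = _ := by rw [h2, mul_one]
      rw [h1, hδ1d]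
      refine le_trans (le_of_eq ?_) hT
      ring
    have hsub : (T.filter fun h => f h = q) ⊆ Finset.Ico (-(L : ℤ)) (-(L : ℤ) + ((2 * L : ℕ) : ℤ)) := by
      intro h hh
      have h1 := (mem_filter.1 hh).1
      rw [hTd, mem_filter, mem_Ioo] at h1
      rw [mem_Ico]
      push_cast
      omega
    obtain ⟨q', hq'1, hq'2, hq'3⟩ := vino (N := 2 * L) (a := -(L : ℤ)) (α := q * (((d : ℝ) + 1) * (c * ψ))) (β := 0)
      hη hη1 hε2n hε2le h24 (T.filter fun h => f h = q) hsub hcardη (by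
        intro w hw
        rw [mem_filter] at hw
        have h1 := (hf w hw.1).2.2
        rw [hw.2] at h1
        push_cast at h1
        rw [add_zero]
        rw [show (w : ℝ) * (q * (((d : ℝ) + 1) * (c * ψ))) = q * (((d : ℝ) + 1) * w * c * ψ) by ring]
        exact h1)
    refine ⟨q' * q * (d + 1), ?_, ?_, ?_⟩
    · exact Nat.succ_le_of_lt (Nat.mul_pos (Nat.mul_pos hq'1 hq1) (Nat.succ_pos d))
    · push_cast
      have h1 : 2 / η ≤ (1 / δ) ^ (1 + 4 * (C + 1)) := by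
        rw [pow_add, pow_one, hηd, div_eq_mul_inv, ← inv_pow, ← one_div]
        exact mul_le_mul hδi (hinvpow _) (by positivity) (by positivity)
      have h2 : (d : ℝ) + 1 ≤ (1 / δ) ^ (d + 1) := by
        have h3 : (d : ℝ) + 1 ≤ 2 ^ (d + 1) := by
          have h4 : d + 1 < 2 ^ (d + 1) := Nat.lt_two_pow_self
          exact_mod_cast h4.le
        exact h3.trans (pow_le_pow_left₀ (by norm_num) hδi _)
      calc (q' : ℝ) * q * ((d : ℝ) + 1) ≤ (1 / δ) ^ (1 + 4 * (C + 1)) * (1 / δ) ^ (4 * C) * (1 / δ) ^ (d + 1) := by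
            refine mul_le_mul (mul_le_mul (hq'2.trans h1) (hqB.trans (hinvpow C)) (by positivity) (by positivity)) h2
              (by positivity) (by positivity)
        _ = (1 / δ) ^ (1 + 4 * (C + 1) + 4 * C + (d + 1)) := by rw [← pow_add, ← pow_add]
        _ ≤ _ := hmono _ _ (by omega)
    · push_cast
      rw [show (q' : ℝ) * q * ((d : ℝ) + 1) * (c * ψ) = q' * (q * (((d : ℝ) + 1) * (c * ψ))) by ring]
      refine hq'3.trans ?_
      push_cast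
      have h1 : 16 * ((1 / δ1) ^ C * (2 * ε) / (L : ℝ) ^ d) / (η ^ 2 * (2 * L)) =
          16 * ((1 / δ1) ^ C * (1 / η) ^ 2) * ε / (L : ℝ) ^ (d + 1) := by
        rw [pow_succ (L : ℝ) d]
        field_simp
      rw [h1]
      refine div_le_div_of_nonneg_right ?_ (by positivity)
      refine mul_le_mul_of_nonneg_right ?_ hε
      have h2 : (1 / η) ^ 2 ≤ (1 / δ) ^ (4 * (2 * (C + 1))) := by
        rw [hηd, one_div, ← inv_pow, ← one_div, ← pow_mul, mul_comm (C + 1) 2]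
        exact hinvpow _
      have h3 : (16 : ℝ) ≤ (1 / δ) ^ 4 := by
        calc (16 : ℝ) = 2 ^ 4 := by norm_num
          _ ≤ (1 / δ) ^ 4 := pow_le_pow_left₀ (by norm_num) hδi 4
      calc 16 * ((1 / δ1) ^ C * (1 / η) ^ 2) ≤ (1 / δ) ^ 4 * ((1 / δ) ^ (4 * C) * (1 / δ) ^ (4 * (2 * (C + 1)))) := by
            refine mul_le_mul h3 (mul_le_mul (hinvpow C) h2 (by positivity) (by positivity)) (by positivity) (by positivity)
        _ = (1 / δ) ^ (4 + (4 * C + 4 * (2 * (C + 1)))) := by rw [← pow_add, ← pow_add]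
        _ ≤ _ := hmono _ _ (by omega)

end Pool.Agent.HUK
end

-- from Lib.HUK.A8
section

/-!
# Project HUK, chunk A8 (helper37): from many diophantine conditions to one
-/

open Finset

namespace Pool.Agent.HUK

open Pool.Agent.Lib.H84V (nd nd_neg)

open Classical in
/-- A line in the direction `(1, …, 1; 1)` with many points of `G`. -/
theorem a8_line (r K H2 : ℕ) (hH : 1 ≤ H2) (hHK : H2 ≤ K) (G : Finset ((Fin r → ℤ) × ℤ))
    (hG : G ⊆ bxS r H2 ×ˢ Ioc (K : ℤ) (2 * K)) (δ : ℝ) (hδ : 0 < δ) (hc : δ * (K * (H2 : ℝ) ^ r) ≤ G.card) :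
    ∃ b : (Fin r → ℤ) × ℤ, δ / (2 * 3 ^ r) * H2 ≤
      (((range H2).filter fun k : ℕ => ((fun i => b.1 i + (k : ℤ)), b.2 + (k : ℤ)) ∈ G).card : ℝ) := by
  have hHr : (1 : ℝ) ≤ H2 := by exact_mod_cast hH
  have hHr0 : (0 : ℝ) < H2 := by linarith
  have hKr : (1 : ℝ) ≤ K := by
    have : 1 ≤ K := by omega
    exact_mod_cast this
  have hKr0 : (0 : ℝ) < K := by linarith
  obtain ⟨Bx, hBx⟩ : ∃ Bx : Finset ((Fin r → ℤ) × ℤ),
    Bx = (Fintype.piFinset fun _ : Fin r => Ico (-(2 * H2 : ℤ)) H2) ×ˢ Ioc (0 : ℤ) (2 * K) := ⟨_, rfl⟩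
  have hcard : Bx.card = (3 * H2) ^ r * (2 * K) := by
    rw [hBx, card_product, Fintype.card_piFinset, Finset.prod_const, Finset.card_univ, Fintype.card_fin, Int.card_Ico,
      Int.card_Ioc]
    have e1 : ((H2 : ℤ) - -(2 * (H2 : ℤ))).toNat = 3 * H2 := by omega
    have e2 : (2 * (K : ℤ) - 0).toNat = 2 * K := by omega
    rw [e1, e2]
  have hcardr : (Bx.card : ℝ) = (3 * H2) ^ r * (2 * K) := by
    rw [hcard]
    push_cast
    rfl
  have hne : Bx.Nonempty := by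
    rw [← Finset.card_pos, hcard]
    refine Nat.mul_pos (pow_pos (by omega) r) (by omega)
  have hsum : H2 * G.card ≤ ∑ b ∈ Bx,
      ((range H2).filter fun k : ℕ => ((fun i => b.1 i + (k : ℤ)), b.2 + (k : ℤ)) ∈ G).card := by
    simp only [Finset.card_filter]
    rw [Finset.sum_comm]
    have h1 : ∀ k ∈ range H2, G.card ≤ ∑ b ∈ Bx, (if ((fun i => b.1 i + (k : ℤ)), b.2 + (k : ℤ)) ∈ G then 1 else 0) := by
      intro k hk
      rw [mem_range] at hk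
      rw [← Finset.card_filter]
      refine Finset.card_le_card_of_injOn (fun g => ((fun i => g.1 i - (k : ℤ)), g.2 - (k : ℤ))) ?_ ?_
      · intro g hg
        have h2 := hG hg
        rw [mem_product] at h2
        unfold bxS at h2
        rw [Fintype.mem_piFinset, mem_Ioc] at h2
        rw [mem_coe, mem_filter]
        constructor
        · rw [hBx, mem_product, Fintype.mem_piFinset, mem_Ioc]
          constructor
          · intro i
            have h3 := h2.1 i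
            rw [mem_Ioo] at h3
            rw [mem_Ico]
            simp only
            omega
          · simp only
            omega
        · have h4 : ((fun i => g.1 i - (k : ℤ) + (k : ℤ)), g.2 - (k : ℤ) + (k : ℤ)) = g := by
            refine Prod.ext ?_ ?_
            · funext i
              simp only
              ring
            · simp only
              ring
          simp only
          rw [h4]
          exact hg
      · intro g _ g' _ h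
        have h3 := congrArg Prod.fst h
        have h4 := congrArg Prod.snd h
        simp only at h3 h4
        refine Prod.ext ?_ ?_
        · funext i
          have h5 := congrFun h3 i
          omega
        · omega
    calc H2 * G.card = ∑ _k ∈ range H2, G.card := by rw [Finset.sum_const, card_range, smul_eq_mul]
      _ ≤ _ := Finset.sum_le_sum h1
  have hsumr : (H2 : ℝ) * G.card ≤ ∑ b ∈ Bx,
      (((range H2).filter fun k : ℕ => ((fun i => b.1 i + (k : ℤ)), b.2 + (k : ℤ)) ∈ G).card : ℝ) := by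
    exact_mod_cast hsum
  have h5 : ∑ _b ∈ Bx, δ / (2 * 3 ^ r) * (H2 : ℝ) ≤ ∑ b ∈ Bx,
      (((range H2).filter fun k : ℕ => ((fun i => b.1 i + (k : ℤ)), b.2 + (k : ℤ)) ∈ G).card : ℝ) := by
    refine le_trans ?_ hsumr
    rw [Finset.sum_const, nsmul_eq_mul, hcardr]
    have h6 : (3 * (H2 : ℝ)) ^ r * (2 * K) * (δ / (2 * 3 ^ r) * H2) = H2 * (δ * (K * (H2 : ℝ) ^ r)) := by
      rw [mul_pow]
      field_simp
    rw [h6]
    exact mul_le_mul_of_nonneg_left hc hHr0.le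
  obtain ⟨b, _, hb⟩ := Finset.exists_le_of_sum_le hne h5
  exact ⟨b, hb⟩

open Classical in
/-- PROOF.md, 2.5. -/
theorem A8_major (r : ℕ) (hr : 1 ≤ r) : ∃ C : ℕ, ∀ δ : ℝ, 0 < δ → δ ≤ 1 / 2 → ∀ K H2 : ℕ, (1 / δ) ^ C ≤ H2 → δ * K ≤ H2 →
    H2 ≤ K → ∀ ψ ε : ℝ, 0 ≤ ε → ε ≤ δ ^ C →
    δ * (K * (H2 : ℝ) ^ r) ≤ (((bxS r H2 ×ˢ Ioc (K : ℤ) (2 * K)).filter fun p : (Fin r → ℤ) × ℤ =>
      Vt K (List.ofFn p.1) p.2 ∧ nd (ψ * Df (List.ofFn p.1) p.2) ≤ ε).card : ℝ) →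
    ∃ q : ℕ, 1 ≤ q ∧ (q : ℝ) ≤ (1 / δ) ^ C ∧ nd (q * ψ) ≤ (1 / δ) ^ C * ε / (K : ℝ) ^ (2 ^ r - 1) := by
  obtain ⟨C0, hC0⟩ := av_main (2 ^ r - 1)
  obtain ⟨c, hcd⟩ : ∃ c : ℤ, c = Df (List.replicate r 1) 1 := ⟨_, rfl⟩
  have hc0 : c ≠ 0 := by
    rw [hcd]
    exact pf_D_ne r
  obtain ⟨nc, hnc⟩ : ∃ nc : ℕ, nc = c.natAbs := ⟨_, rfl⟩
  have hcn : 1 ≤ nc := by omega
  have hcc : (c : ℝ) = nc ∨ (c : ℝ) = -nc := by
    have h1 : c = (nc : ℤ) ∨ c = -(nc : ℤ) := by omega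
    rcases h1 with h1 | h1
    · left
      rw [h1]
      norm_num
    · right
      rw [h1]
      norm_num
  refine ⟨(2 * r + 2) * C0 + nc + 2 ^ r, fun δ hδ hδ2 K H2 hH hδK hHK ψ ε hε hεδ hcard => ?_⟩
  have h2r := Nat.one_le_two_pow (n := r)
  have hδi : 2 ≤ 1 / δ := by
    rw [le_div_iff₀ hδ]
    linarith
  have hδi1 : 1 ≤ 1 / δ := by linarith
  have hδ1 : δ ≤ 1 := by linarith
  have hmono : ∀ a b : ℕ, a ≤ b → (1 / δ) ^ a ≤ (1 / δ) ^ b := fun a b hab => pow_le_pow_right₀ hδi1 hab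
  have hmono' : ∀ a b : ℕ, a ≤ b → δ ^ b ≤ δ ^ a := fun a b hab => pow_le_pow_of_le_one hδ.le hδ1 hab
  have hHr1 : (1 : ℝ) ≤ H2 := (one_le_pow₀ hδi1).trans hH
  have hH1 : 1 ≤ H2 := by exact_mod_cast hHr1
  have hHr0 : (0 : ℝ) < H2 := by linarith
  have hKr0 : (0 : ℝ) < K := by
    have : 0 < K := by omega
    exact_mod_cast this
  obtain ⟨G, hGd⟩ : ∃ G : Finset ((Fin r → ℤ) × ℤ), G = (bxS r H2 ×ˢ Ioc (K : ℤ) (2 * K)).filter
    fun p : (Fin r → ℤ) × ℤ => Vt K (List.ofFn p.1) p.2 ∧ nd (ψ * Df (List.ofFn p.1) p.2) ≤ ε := ⟨_, rfl⟩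
  rw [← hGd] at hcard
  have hG : G ⊆ bxS r H2 ×ˢ Ioc (K : ℤ) (2 * K) := by
    rw [hGd]
    exact Finset.filter_subset _ _
  obtain ⟨b, hb⟩ := a8_line r K H2 hH1 hHK G hG δ hδ hcard
  obtain ⟨δ', hδ'd⟩ : ∃ δ' : ℝ, δ' = δ / (2 * 3 ^ r) := ⟨_, rfl⟩
  rw [← hδ'd] at hb
  have h3r : (1 : ℝ) ≤ 3 ^ r := one_le_pow₀ (by norm_num)
  have hδ'0 : 0 < δ' := by rw [hδ'd]; positivity
  have hδ'h : δ' ≤ 1 / 2 := by
    rw [hδ'd, div_le_iff₀ (by positivity)]
    nlinarith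
  have hδ'i : 1 / δ' ≤ (1 / δ) ^ (2 * r + 2) := by
    have h1 : 1 / δ' = 2 * 3 ^ r * (1 / δ) := by
      rw [hδ'd]
      field_simp
    have h2 : (3 : ℝ) ^ r ≤ (1 / δ) ^ (2 * r) := by
      rw [pow_mul]
      refine pow_le_pow_left₀ (by norm_num) ?_ r
      nlinarith
    rw [h1, show 2 * r + 2 = 1 + 2 * r + 1 by ring, pow_succ, pow_add, pow_one]
    refine mul_le_mul_of_nonneg_right ?_ (by positivity)
    exact mul_le_mul hδi h2 (by positivity) (by positivity)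
  have hδ'pow : (1 / δ') ^ C0 ≤ (1 / δ) ^ ((2 * r + 2) * C0) := by
    rw [pow_mul]
    exact pow_le_pow_left₀ (by positivity) hδ'i C0
  have hδ'pow2 : δ ^ ((2 * r + 2) * C0) ≤ δ' ^ C0 := by
    rw [pow_mul]
    refine pow_le_pow_left₀ (by positivity) ?_ C0
    have h1 : 1 / δ' ≤ 1 / δ ^ (2 * r + 2) := by
      rw [← one_div_pow]
      exact hδ'i
    exact le_of_one_div_le_one_div hδ'0 h1
  have hPF := pf_D (List.ofFn b.1) b.2 1
  rw [List.length_ofFn, ← hcd] at hPF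
  obtain ⟨q, hq1, hqB, hqn⟩ := hC0 δ' hδ'0 hδ'h H2 ((hδ'pow.trans (hmono _ _ (by omega))).trans hH) c _ ψ ε hPF hε
    (hεδ.trans ((hmono' _ _ (by omega)).trans hδ'pow2)) (by
      refine hb.trans ?_
      have h1 : ((range H2).filter fun k : ℕ => ((fun i => b.1 i + (k : ℤ)), b.2 + (k : ℤ)) ∈ G) ⊆
          (range H2).filter fun k : ℕ => nd (ψ * Df ((List.ofFn b.1).map (· + (k : ℤ))) (b.2 + 1 * (k : ℤ))) ≤ ε := by
        intro k hk
        rw [mem_filter] at hk ⊢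
        refine ⟨hk.1, ?_⟩
        have h2 := hk.2
        rw [hGd, mem_filter] at h2
        have h3 := h2.2.2
        simp only at h3
        rw [List.map_ofFn, one_mul]
        exact h3
      exact_mod_cast Finset.card_le_card h1)
  refine ⟨q * nc, Nat.succ_le_of_lt (Nat.mul_pos hq1 hcn), ?_, ?_⟩
  · push_cast
    have h1 : (nc : ℝ) ≤ (1 / δ) ^ nc := by
      have h2 : (nc : ℝ) ≤ 2 ^ nc := by
        exact_mod_cast (Nat.lt_two_pow_self (n := nc)).le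
      exact h2.trans (pow_le_pow_left₀ (by norm_num) hδi _)
    calc (q : ℝ) * nc ≤ (1 / δ) ^ ((2 * r + 2) * C0) * (1 / δ) ^ nc :=
          mul_le_mul (hqB.trans hδ'pow) h1 (by positivity) (by positivity)
      _ = (1 / δ) ^ ((2 * r + 2) * C0 + nc) := by rw [← pow_add]
      _ ≤ _ := hmono _ _ (by omega)
  · have h1 : nd (((q * nc : ℕ) : ℝ) * ψ) = nd (q * (c * ψ)) := by
      push_cast
      rcases hcc with h2 | h2
      · rw [h2]
        congr 1
        ring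
      · rw [h2, ← nd_neg]
        congr 1
        ring
    rw [h1]
    refine hqn.trans ?_
    have h6 : (δ * K) ^ (2 ^ r - 1) ≤ (H2 : ℝ) ^ (2 ^ r - 1) := pow_le_pow_left₀ (by positivity) hδK _
    calc (1 / δ') ^ C0 * ε / (H2 : ℝ) ^ (2 ^ r - 1) ≤ (1 / δ) ^ ((2 * r + 2) * C0) * ε / (δ * K) ^ (2 ^ r - 1) := by
          refine div_le_div₀ (by positivity) (mul_le_mul_of_nonneg_right hδ'pow hε) (by positivity) h6
      _ = (1 / δ) ^ ((2 * r + 2) * C0 + (2 ^ r - 1)) * ε / (K : ℝ) ^ (2 ^ r - 1) := by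
          rw [mul_pow, pow_add, one_div_pow (n := 2 ^ r - 1)]
          field_simp
      _ ≤ _ := by
          have h7 := Nat.one_le_two_pow (n := r)
          refine div_le_div_of_nonneg_right (mul_le_mul_of_nonneg_right (hmono _ _ ?_) hε) (by positivity)
          omega

end Pool.Agent.HUK
end

-- from Lib.HUK.LL3
section

/-!
# Project HUK, chunk LL3 (M): recursion over the coordinates
-/

open Finset

namespace Pool.Agent.HUK

private theorem ll3_zv (s : ℕ) : (Fin.cons false (zv s) : Fin (s + 1) → Bool) = zv (s + 1) := by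
  funext i
  refine Fin.cases ?_ (fun j => ?_) i
  · rfl
  · rfl

private theorem ll3_bx0 (M : ℕ) : bxS 0 M = {fun i => i.elim0} := by
  ext x
  simp only [bxS, Fintype.mem_piFinset, mem_singleton]
  constructor
  · intro _
    funext i
    exact i.elim0
  · intro _ i
    exact i.elim0

private theorem ll3_TT0 (X M : ℕ) (β β' : ℤ) (U U' : (Fin 0 → Bool) → ℤ → ℂ) :
    TT X M β β' U U' = ∑ y ∈ Ico (-(X : ℤ)) X, U (zv 0) y * U' (zv 0) y := by
  have hPV : ∀ (γ : ℤ) (V : (Fin 0 → Bool) → ℤ → ℂ) (t : Fin 0 → ℤ) (y : ℤ), PV γ V t y = V (zv 0) y := by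
    intro γ V t y
    unfold PV
    rw [Fintype.prod_eq_single (zv 0) (fun ω hω => absurd (Subsingleton.elim ω (zv 0)) hω)]
    simp [vt]
  unfold TT
  rw [ll3_bx0]
  simp only [sum_singleton, hPV, FW, univ_eq_empty, prod_empty, mul_one, Complex.ofReal_one, one_mul, mul_zero, pow_zero,
    div_one]

/-- The sum over `k` of the `NU` of the differences. -/
private theorem ll3_NU (X s H : ℕ) (hH : 1 ≤ H) (d : ℤ) (f : ℤ → ℂ) :
    NU X (s + 1) H d f = (∑ k ∈ Ioo (-(H : ℤ)) H, fw H k * NU X s H d (DD (d * k) f)) / H := by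
  rw [← MQ_NU X (s + 1) H hH d f, List.replicate_succ, mq2_cons_re]
  simp only [MQ_NU X s H hH d]

private theorem ll3_NU0 (X H : ℕ) (hH : 1 ≤ H) (d : ℤ) (f : ℤ → ℂ) :
    NU X 0 H d f = (∑ y ∈ Ico (-(X : ℤ)) X, f y).re := by
  rw [← MQ_NU X 0 H hH d f]
  rfl

private theorem ll3_fam {s : ℕ} (h : ℤ) (U U' : (Fin (s + 1) → Bool) → ℤ → ℂ) (y : ℤ) :
    DD h (U (Fin.cons false (zv s) : Fin (s + 1) → Bool)) y * DD h (U' (Fin.cons false (zv s) : Fin (s + 1) → Bool)) y =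
      DD h (fun y => U (zv (s + 1)) y * U' (zv (s + 1)) y) y := by
  rw [ll3_zv, p0_DD_mul]

/-- `s = 0`: `TT = ∑_y U(y) U'(y)`, hence the sum over `k` in `LL2_rec` is `NU X 1 H d (U U')` (`MQ_NU`, `MQ`). -/
theorem LL3_base (X M H b b' q : ℕ) (hM : 1 ≤ M) (hH : 1 ≤ H) (hd : b * b' * q * H ≤ X)
    (U U' : (Fin 1 → Bool) → ℤ → ℂ) (hU : ∀ ω y, ‖U ω y‖ ≤ 1) (hU' : ∀ ω y, ‖U' ω y‖ ≤ 1)
    (h0 : ∀ y, y ∉ Ico (-(X : ℤ)) X → U (zv 1) y * U' (zv 1) y = 0) :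
    ‖TT X M (b * q) (b' * q) U U'‖ ^ 2 ≤ 8 * X * NU X 1 H (b * b' * q) (fun y => U (zv 1) y * U' (zv 1) y) +
      8 * (X : ℝ) ^ 2 * (2 * (b + b') * H / M) ^ 2 := by
  refine (LL2_rec X M H b b' q 0 hM hH hd U U' hU hU' h0).trans (le_of_eq ?_)
  congr 2
  rw [ll3_NU X 0 H hH]
  congr 1
  refine sum_congr rfl fun k _ => ?_
  rw [ll3_NU0 X H hH, ll3_TT0]
  congr 2
  refine sum_congr rfl fun y _ => ?_
  exact ll3_fam _ U U' y

private theorem ll3_DDle (h : ℤ) (f : ℤ → ℂ) (hf : ∀ y, ‖f y‖ ≤ 1) (y : ℤ) : ‖DD h f y‖ ≤ 1 := by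
  simp only [DD]
  rw [norm_mul, RCLike.norm_conj]
  exact mul_le_one₀ (hf _) (norm_nonneg _) (hf _)

private theorem ll3_pow (a b : ℝ) (ha : 0 ≤ a) (hb : 0 ≤ b) (n : ℕ) : (a + b) ^ n ≤ 2 ^ n * (a ^ n + b ^ n) := by
  have h1 : a + b ≤ 2 * max a b := by
    have := le_max_left a b
    have := le_max_right a b
    linarith
  calc (a + b) ^ n ≤ (2 * max a b) ^ n := pow_le_pow_left₀ (by positivity) h1 n
    _ = 2 ^ n * (max a b) ^ n := mul_pow _ _ _
    _ ≤ 2 ^ n * (a ^ n + b ^ n) := by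
      refine mul_le_mul_of_nonneg_left ?_ (by positivity)
      rcases le_total a b with h | h
      · rw [max_eq_right h]
        have : 0 ≤ a ^ n := by positivity
        linarith
      · rw [max_eq_left h]
        have : 0 ≤ b ^ n := by positivity
        linarith

/-- **Recursion.** Induction on `s` from `LL3_base` (with `e = (b + b') H / M ≤ 1`, `e² ≤ e`). Step: with `n = 2^s`,
`A = 8X (∑_k fw H k ‖TT (DD (d k) ..)‖) / H`, `E = 32 X² e²`: `‖TT‖^(2n) ≤ (A + E)^n ≤ 2^n (A^n + E^n)`, `A^n ≤ (8X)^n (∑_k fw H k ‖TT ..‖^n) / H`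
(Jensen, the weights `fw H k / H` have total `1`: `inner_le_nnorm_mul_nnorm`-free, use `Finset.inner_mul_le_norm_mul_norm` or
`inner_pow_le`: `Real.inner_le_...`; simplest: `Real.pow_arith_mean_le_arith_mean_pow`), induction hypothesis for the families
`DD (d k) (U (cons false ·))` (bounded, product at `zv s` is `DD (d k)` of the product), and
`(∑_k fw H k NU X s H d (DD (d k) Φ)) / H = NU X (s + 1) H d Φ` (`MQ_NU`, `mq2_cons_re`). `E^n ≤ 32^n X^(2n) e`. -/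
theorem LL3_main (s : ℕ) (hs : 1 ≤ s) : ∃ C : ℝ, 1 ≤ C ∧ ∀ X M H b b' q : ℕ, 1 ≤ X → 1 ≤ M → 1 ≤ H → b * b' * q * H ≤ X →
    (b + b') * H ≤ M → ∀ U U' : (Fin s → Bool) → ℤ → ℂ, (∀ ω y, ‖U ω y‖ ≤ 1) → (∀ ω y, ‖U' ω y‖ ≤ 1) →
    (∀ y, y ∉ Ico (-(X : ℤ)) X → U (zv s) y * U' (zv s) y = 0) →
    ‖TT X M (b * q) (b' * q) U U'‖ ^ (2 ^ s) ≤ C * (X : ℝ) ^ (2 ^ s - 1) *
      (NU X s H (b * b' * q) (fun y => U (zv s) y * U' (zv s) y) + X * ((b + b') * H / M)) := by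
  induction s, hs using Nat.le_induction with
  | base =>
    refine ⟨32, by norm_num, ?_⟩
    intro X M H b b' q hX hM hH hd hbM U U' hU hU' h0
    have h1 := LL3_base X M H b b' q hM hH hd U U' hU hU' h0
    have hd' : (b * b' * q : ℤ) * H ≤ X := by exact_mod_cast hd
    have h2 := NU_nonneg X 1 H le_rfl hH (b * b' * q) (by positivity) hd' (fun y => U (zv 1) y * U' (zv 1) y) h0
    set N := NU X 1 H (b * b' * q) (fun y => U (zv 1) y * U' (zv 1) y) with hN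
    have hM' : (0 : ℝ) < M := by exact_mod_cast hM
    have hX' : (0 : ℝ) < X := by exact_mod_cast hX
    have he1 : ((b : ℝ) + b') * H / M ≤ 1 := by
      rw [div_le_one hM']
      exact_mod_cast hbM
    have he0 : 0 ≤ ((b : ℝ) + b') * H / M := by positivity
    set e : ℝ := ((b : ℝ) + b') * H / M with he
    have h3 : (2 * ((b : ℝ) + b') * H / M) ^ 2 ≤ 4 * e := by
      have h4 : 2 * ((b : ℝ) + b') * H / M = 2 * e := by
        rw [he]
        ring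
      rw [h4]
      nlinarith
    have h5 : ‖TT X M (b * q) (b' * q) U U'‖ ^ 2 ≤ 8 * X * N + 8 * (X : ℝ) ^ 2 * (4 * e) :=
      h1.trans (by
        have := mul_le_mul_of_nonneg_left h3 (by positivity : (0 : ℝ) ≤ 8 * (X : ℝ) ^ 2)
        linarith)
    have h6 : 8 * X * N + 8 * (X : ℝ) ^ 2 * (4 * e) ≤ 32 * (X : ℝ) ^ (2 ^ 1 - 1) * (N + X * e) := by
      norm_num
      nlinarith [mul_nonneg hX'.le h2]
    have h7 : (2 : ℕ) ^ 1 = 2 := by norm_num
    rw [h7] at h6 ⊢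
    exact h5.trans h6
  | succ s hs ih =>
    obtain ⟨C, hC1, hC⟩ := ih
    refine ⟨2 ^ (2 ^ s) * (8 ^ (2 ^ s) * C + 32 ^ (2 ^ s)), ?_, ?_⟩
    · have h1 : (1 : ℝ) ≤ 2 ^ (2 ^ s) := one_le_pow₀ (by norm_num)
      have h2 : (1 : ℝ) ≤ 32 ^ (2 ^ s) := one_le_pow₀ (by norm_num)
      have h3 : (0 : ℝ) ≤ 8 ^ (2 ^ s) * C := by positivity
      nlinarith
    intro X M H b b' q hX hM hH hd hbM U U' hU hU' h0
    have hM' : (0 : ℝ) < M := by exact_mod_cast hM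
    have hX' : (0 : ℝ) < X := by exact_mod_cast hX
    have hH' : (0 : ℝ) < H := by exact_mod_cast hH
    have hd' : (b * b' * q : ℤ) * H ≤ X := by exact_mod_cast hd
    have he1 : ((b : ℝ) + b') * H / M ≤ 1 := by
      rw [div_le_one hM']
      exact_mod_cast hbM
    have he0 : 0 ≤ ((b : ℝ) + b') * H / M := by positivity
    set e : ℝ := ((b : ℝ) + b') * H / M with he
    set n : ℕ := 2 ^ s with hn
    have hn1 : 1 ≤ n := Nat.one_le_two_pow
    set Φ : ℤ → ℂ := fun y => U (zv (s + 1)) y * U' (zv (s + 1)) y with hΦ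
    have hNU := NU_nonneg X (s + 1) H (by omega) hH (b * b' * q) (by positivity) hd' Φ h0
    set T : ℤ → ℂ := fun k => TT X M (b * q) (b' * q)
        (fun ω => DD (b * b' * q * k) (U (Fin.cons false ω : Fin (s + 1) → Bool)))
        (fun ω => DD (b * b' * q * k) (U' (Fin.cons false ω : Fin (s + 1) → Bool))) with hT
    have h1 := LL2_rec X M H b b' q s hM hH hd U U' hU hU' h0
    have hfw : ∀ k, 0 ≤ fw H k := fun k => mq1_fw_nonneg H k
    set A : ℝ := 8 * X * ((∑ k ∈ Ioo (-(H : ℤ)) H, fw H k * ‖T k‖) / H) with hA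
    have hA0 : 0 ≤ A := by
      have : 0 ≤ ∑ k ∈ Ioo (-(H : ℤ)) H, fw H k * ‖T k‖ := sum_nonneg fun k _ => mul_nonneg (hfw k) (norm_nonneg _)
      positivity
    have h2 : ‖TT X M (b * q) (b' * q) U U'‖ ^ 2 ≤ A + 32 * (X : ℝ) ^ 2 * e ^ 2 := by
      refine h1.trans ?_
      have h3 : (∑ k ∈ Ioo (-(H : ℤ)) H, fw H k * (T k).re) / H ≤ (∑ k ∈ Ioo (-(H : ℤ)) H, fw H k * ‖T k‖) / H := by
        refine div_le_div_of_nonneg_right (sum_le_sum fun k _ => ?_) hH'.le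
        exact mul_le_mul_of_nonneg_left (Complex.re_le_norm _) (hfw k)
      have h4 : 8 * (X : ℝ) ^ 2 * (2 * ((b : ℝ) + b') * H / M) ^ 2 = 32 * (X : ℝ) ^ 2 * e ^ 2 := by
        have h5 : 2 * ((b : ℝ) + b') * H / M = 2 * e := by
          rw [he]
          ring
        rw [h5]
        ring
      have h6 := mul_le_mul_of_nonneg_left h3 (by positivity : (0 : ℝ) ≤ 8 * X)
      rw [h4]
      linarith
    have h7 : ‖TT X M (b * q) (b' * q) U U'‖ ^ (2 ^ (s + 1)) ≤ 2 ^ n * (A ^ n + (32 * (X : ℝ) ^ 2 * e ^ 2) ^ n) := by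
      have h8 : (2 : ℕ) ^ (s + 1) = 2 * n := by
        rw [hn, pow_succ]
        ring
      rw [h8, pow_mul]
      exact (pow_le_pow_left₀ (by positivity) h2 n).trans (ll3_pow _ _ hA0 (by positivity) n)
    have hw1 : ∑ k ∈ Ioo (-(H : ℤ)) H, fw H k / H = 1 := by
      rw [← sum_div, mq1_fw_sum H hH, div_self hH'.ne']
    have hAn : A ^ n ≤ (8 * X) ^ n * (C * (X : ℝ) ^ (n - 1) * (NU X (s + 1) H (b * b' * q) Φ + X * e)) := by
      rw [hA, mul_pow]
      refine mul_le_mul_of_nonneg_left ?_ (by positivity)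
      have h9 : (∑ k ∈ Ioo (-(H : ℤ)) H, fw H k * ‖T k‖) / H = ∑ k ∈ Ioo (-(H : ℤ)) H, fw H k / H * ‖T k‖ := by
        rw [sum_div]
        exact sum_congr rfl fun k _ => by ring
      rw [h9]
      refine (Real.pow_arith_mean_le_arith_mean_pow _ _ _ (fun k _ => div_nonneg (hfw k) hH'.le) hw1
        (fun k _ => norm_nonneg _) n).trans ?_
      have h10 : ∀ k ∈ Ioo (-(H : ℤ)) H, fw H k / H * ‖T k‖ ^ n ≤
          fw H k / H * (C * (X : ℝ) ^ (n - 1) * (NU X s H (b * b' * q) (DD (b * b' * q * k) Φ) + X * e)) := by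
        intro k _
        refine mul_le_mul_of_nonneg_left ?_ (div_nonneg (hfw k) hH'.le)
        have h11 := hC X M H b b' q hX hM hH hd hbM
          (fun ω => DD (b * b' * q * k) (U (Fin.cons false ω : Fin (s + 1) → Bool)))
          (fun ω => DD (b * b' * q * k) (U' (Fin.cons false ω : Fin (s + 1) → Bool)))
          (fun ω y => ll3_DDle _ _ (hU _) y) (fun ω y => ll3_DDle _ _ (hU' _) y)
          (fun y hy => by
            rw [ll3_fam]
            exact mq1_DD_supp h0 _ y hy)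
        have h12 : (fun y => DD (b * b' * q * k : ℤ) (U (Fin.cons false (zv s) : Fin (s + 1) → Bool)) y *
            DD (b * b' * q * k : ℤ) (U' (Fin.cons false (zv s) : Fin (s + 1) → Bool)) y) = DD (b * b' * q * k : ℤ) Φ := by
          funext y
          exact ll3_fam _ U U' y
        rw [h12] at h11
        exact h11
      refine (sum_le_sum h10).trans (le_of_eq ?_)
      rw [ll3_NU X s H hH]
      have h13 : ∀ k ∈ Ioo (-(H : ℤ)) H, fw H k / H * (C * (X : ℝ) ^ (n - 1) * (NU X s H (b * b' * q) (DD (b * b' * q * k) Φ) + X * e)) =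
          C * (X : ℝ) ^ (n - 1) * (fw H k * NU X s H (b * b' * q) (DD (b * b' * q * k) Φ) / H) +
            C * (X : ℝ) ^ (n - 1) * (X * e) * (fw H k / H) := by
        intro k _
        ring
      rw [sum_congr rfl h13, sum_add_distrib, ← mul_sum, ← mul_sum, hw1, ← sum_div]
      ring
    have hEn : (32 * (X : ℝ) ^ 2 * e ^ 2) ^ n ≤ 32 ^ n * ((X : ℝ) ^ (2 * n) * e) := by
      rw [mul_pow, mul_pow, ← pow_mul, ← pow_mul, mul_assoc]
      refine mul_le_mul_of_nonneg_left ?_ (by positivity)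
      refine mul_le_mul_of_nonneg_left ?_ (by positivity)
      calc e ^ (2 * n) ≤ e ^ 1 := pow_le_pow_of_le_one he0 he1 (by omega)
        _ = e := pow_one e
    have hXe : 0 ≤ X * e := by positivity
    have h14 : (2 : ℕ) ^ (s + 1) - 1 = n + (n - 1) := by
      rw [pow_succ]
      omega
    have h15 : (X : ℝ) ^ (2 * n) = (X : ℝ) ^ (n + (n - 1)) * X := by
      rw [← pow_succ]
      congr 1
      omega
    rw [h14]
    calc ‖TT X M (b * q) (b' * q) U U'‖ ^ (2 ^ (s + 1)) ≤ 2 ^ n * (A ^ n + (32 * (X : ℝ) ^ 2 * e ^ 2) ^ n) := h7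
      _ ≤ 2 ^ n * ((8 * X) ^ n * (C * (X : ℝ) ^ (n - 1) * (NU X (s + 1) H (b * b' * q) Φ + X * e)) +
          32 ^ n * ((X : ℝ) ^ (2 * n) * e)) := by
        refine mul_le_mul_of_nonneg_left (add_le_add hAn hEn) (by positivity)
      _ = 2 ^ n * (8 ^ n * C * (X : ℝ) ^ (n + (n - 1)) * (NU X (s + 1) H (b * b' * q) Φ + X * e) +
          32 ^ n * (X : ℝ) ^ (n + (n - 1)) * (X * e)) := by
        rw [h15, mul_pow, pow_add]
        ring
      _ ≤ 2 ^ n * (8 ^ n * C * (X : ℝ) ^ (n + (n - 1)) * (NU X (s + 1) H (b * b' * q) Φ + X * e) +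
          32 ^ n * (X : ℝ) ^ (n + (n - 1)) * (NU X (s + 1) H (b * b' * q) Φ + X * e)) := by
        refine mul_le_mul_of_nonneg_left ?_ (by positivity)
        have h16 := mul_le_mul_of_nonneg_left (by linarith : X * e ≤ NU X (s + 1) H (b * b' * q) Φ + X * e)
          (by positivity : (0 : ℝ) ≤ 32 ^ n * (X : ℝ) ^ (n + (n - 1)))
        linarith
      _ = 2 ^ n * (8 ^ n * C + 32 ^ n) * (X : ℝ) ^ (n + (n - 1)) * (NU X (s + 1) H (b * b' * q) Φ + X * e) := by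
        ring

end Pool.Agent.HUK
end

-- from Lib.HUK.LL5
section

/-!
# Project HUK, chunk LL5 (M): the last coordinate, by Bezout
-/

open Finset

namespace Pool.Agent.HUK

/-- Bezout with small coefficients: choose `0 ≤ u < b' / γ`, then `u' = (b u - γ j) / b'`, `|u'| ≤ b / γ + γ |j| / b'`. -/
theorem LL5_bez (K b b' : ℕ) (hK : 1 ≤ K) (hb : b ∈ Ioc K (2 * K)) (hb' : b' ∈ Ioc K (2 * K)) (j : ℤ) :
    ∃ u u' : ℤ, (b : ℤ) * u - b' * u' = Nat.gcd b b' * j ∧ |(u : ℝ)| ≤ 2 * K ∧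
      |(u' : ℝ)| ≤ 2 * K + Nat.gcd b b' * |(j : ℝ)| / K := by
  rw [mem_Ioc] at hb hb'
  obtain ⟨γ, hγ⟩ : ∃ γ : ℕ, γ = Nat.gcd b b' := ⟨_, rfl⟩
  have hγ0 : 0 < γ := by
    rw [hγ]
    exact Nat.gcd_pos_of_pos_left _ (by omega)
  obtain ⟨β, hβ⟩ : γ ∣ b := by
    rw [hγ]
    exact Nat.gcd_dvd_left b b'
  obtain ⟨β', hβ'⟩ : γ ∣ b' := by
    rw [hγ]
    exact Nat.gcd_dvd_right b b'
  have hβ'0 : 0 < β' := Nat.pos_of_ne_zero fun h => by
    rw [h, mul_zero] at hβ'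
    omega
  have hββ : β ≤ 2 * K := by
    have : β ≤ γ * β := Nat.le_mul_of_pos_left β hγ0
    omega
  have hββ' : β' ≤ 2 * K := by
    have : β' ≤ γ * β' := Nat.le_mul_of_pos_left β' hγ0
    omega
  have hbez := Nat.gcd_eq_gcd_ab b b'
  rw [← hγ] at hbez
  obtain ⟨x, hx⟩ : ∃ x : ℤ, x = Nat.gcdA b b' := ⟨_, rfl⟩
  obtain ⟨y, hy⟩ : ∃ y : ℤ, y = Nat.gcdB b b' := ⟨_, rfl⟩
  rw [← hx, ← hy] at hbez
  obtain ⟨u, hu⟩ : ∃ u : ℤ, u = (x * j) % β' := ⟨_, rfl⟩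
  obtain ⟨w, hw⟩ : ∃ w : ℤ, w = (x * j) / β' := ⟨_, rfl⟩
  have huw : (β' : ℤ) * w + u = x * j := by
    rw [hu, hw]
    exact Int.mul_ediv_add_emod _ _
  have hβ'z : (0 : ℤ) < β' := by exact_mod_cast hβ'0
  have hu0 : 0 ≤ u := by
    rw [hu]
    exact Int.emod_nonneg _ hβ'z.ne'
  have hu1 : u < β' := by
    rw [hu]
    exact Int.emod_lt_of_pos _ hβ'z
  obtain ⟨u', hu'⟩ : ∃ u' : ℤ, u' = -(β * w + y * j) := ⟨_, rfl⟩
  have hbz : (b : ℤ) = γ * β := by exact_mod_cast hβ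
  have hbz' : (b' : ℤ) = γ * β' := by exact_mod_cast hβ'
  have heq : (b : ℤ) * u - b' * u' = γ * j := by
    have e1 : (γ : ℤ) * j = b * (x * j) + b' * (y * j) := by
      rw [hbez]
      ring
    rw [e1, ← huw, hu', hbz, hbz']
    ring
  refine ⟨u, u', ?_, ?_, ?_⟩
  · rw [← hγ]
    exact heq
  · have h1 : |(u : ℝ)| = u := abs_of_nonneg (by exact_mod_cast hu0)
    rw [h1]
    have h2 : (u : ℤ) ≤ ((2 * K : ℕ) : ℤ) := by
      have : (β' : ℤ) ≤ ((2 * K : ℕ) : ℤ) := by exact_mod_cast hββ'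
      omega
    have h3 : (u : ℝ) ≤ ((2 * K : ℕ) : ℝ) := by exact_mod_cast h2
    push_cast at h3
    exact h3
  · rw [← hγ]
    have hK0 : (0 : ℝ) < K := by exact_mod_cast hK
    have hb'K : (K : ℝ) < b' := by exact_mod_cast hb'.1
    have hb'0 : (0 : ℝ) < b' := hK0.trans hb'K
    have h1 : (b' : ℝ) * u' = b * u - γ * j := by
      have : (b' : ℤ) * u' = b * u - γ * j := by linarith
      exact_mod_cast this
    have h2 : (b' : ℝ) * |(u' : ℝ)| ≤ b * u + γ * |(j : ℝ)| := by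
      have e1 : (b' : ℝ) * |(u' : ℝ)| = |(b' : ℝ) * u'| := by
        rw [abs_mul, abs_of_pos hb'0]
      rw [e1, h1]
      have hu0' : (0 : ℝ) ≤ u := by exact_mod_cast hu0
      calc |(b : ℝ) * u - γ * j| ≤ |(b : ℝ) * u| + |(γ : ℝ) * j| := abs_sub _ _
        _ = b * u + γ * |(j : ℝ)| := by
            rw [abs_of_nonneg (by positivity), abs_mul, abs_of_nonneg (by positivity : (0 : ℝ) ≤ (γ : ℝ))]
    have h3 : (b : ℝ) * u ≤ b' * β := by
      have h4 : (u : ℝ) ≤ β' := by exact_mod_cast hu1.le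
      calc (b : ℝ) * u ≤ b * β' := mul_le_mul_of_nonneg_left h4 (by positivity)
        _ = b' * β := by
          have : (b : ℤ) * β' = b' * β := by
            rw [hbz, hbz']
            ring
          exact_mod_cast this
    have h5 : (b' : ℝ) * |(u' : ℝ)| ≤ b' * (2 * K + γ * |(j : ℝ)| / K) := by
      have h6 : (β : ℝ) ≤ 2 * K := by exact_mod_cast hββ
      have h7 : (γ : ℝ) * |(j : ℝ)| ≤ b' * (γ * |(j : ℝ)| / K) := by
        rw [mul_div_assoc', le_div_iff₀ hK0]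
        have : (0 : ℝ) ≤ γ * |(j : ℝ)| := by positivity
        nlinarith
      calc (b' : ℝ) * |(u' : ℝ)| ≤ b * u + γ * |(j : ℝ)| := h2
        _ ≤ b' * β + b' * (γ * |(j : ℝ)| / K) := add_le_add h3 h7
        _ ≤ b' * (2 * K) + b' * (γ * |(j : ℝ)| / K) := by
            have := mul_le_mul_of_nonneg_left h6 hb'0.le
            linarith
        _ = b' * (2 * K + γ * |(j : ℝ)| / K) := by ring
    exact le_of_mul_le_mul_left h5 hb'0

/-- The sum of a function supported in a window over a window shifted by a small amount. -/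
theorem ll5_win (A B A' B' b : ℤ) (F : ℤ → ℂ) (hF : ∀ y, y ∉ Ico A B → F y = 0) (hA : A' + b ≤ A) (hB : B ≤ B' + b) :
    ∑ y ∈ Ico A B, F y = ∑ z ∈ Ico A' B', F (z + b) := by
  rw [Finset.sum_Ico_add' F A' B' b]
  refine Finset.sum_subset (Finset.Ico_subset_Ico hA hB) fun y _ hy => hF y hy

/-- The square of the average `G(y) = (∑_{i<R} g(y + d i)) / R`: `avg_{i,i'} ∑_y g(y) conj g(y + n + d (i - i')) =
∑_{y ∈ [-2X,2X)} G(y) conj G(y + n)`, real part at most `∑_{y ∈ ℤ} ‖G(y)‖² = TQ X R d 0 g` (Cauchy-Schwarz or `2 ‖a‖ ‖b‖ ≤ ‖a‖² + ‖b‖²`;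
`G` is supported in `[-2X, X)`, `mq2_shiftsum` for the translate). -/
theorem LL5_sq (X R : ℕ) (hR : 1 ≤ R) (d : ℕ) (hd : d * R ≤ X) (g : ℤ → ℂ) (hg : Bdd X g) (n : ℤ) :
    ((∑ i ∈ range R, ∑ i' ∈ range R, ∑ y ∈ Ico (-(X : ℤ)) X, DD (n + d * ((i : ℤ) - i')) g y) / (R : ℂ) ^ 2).re ≤
      TQ X R d 0 g := by
  obtain ⟨G, hG⟩ : ∃ G : ℤ → ℂ, G = fun y => (∑ i ∈ range R, g (y + d * i)) / R := ⟨_, rfl⟩
  have hR0 : (R : ℂ) ≠ 0 := by
    have : R ≠ 0 := by omega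
    exact_mod_cast this
  have hdi : ∀ i ∈ range R, (0 : ℤ) ≤ d * (i : ℤ) ∧ (d : ℤ) * (i : ℤ) ≤ X := by
    intro i hi
    rw [mem_range] at hi
    refine ⟨by positivity, ?_⟩
    have h1 : d * i ≤ d * R := Nat.mul_le_mul_left d hi.le
    have h2 : d * i ≤ X := h1.trans hd
    exact_mod_cast h2
  have h1 : ∀ i ∈ range R, ∀ i' ∈ range R, ∑ y ∈ Ico (-(X : ℤ)) X, DD (n + d * ((i : ℤ) - i')) g y =
      ∑ z ∈ Ico (-(2 * X : ℤ)) (2 * X), g (z + d * i') * (starRingEnd ℂ) (g (z + n + d * i)) := by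
    intro i hi i' hi'
    obtain ⟨h2, h3⟩ := hdi i' hi'
    rw [ll5_win (-(X : ℤ)) X (-(2 * X : ℤ)) (2 * X) (d * i') (DD (n + d * ((i : ℤ) - i')) g) (by
      intro y hy
      rw [DD, hg.sup y hy, zero_mul]) (by omega) (by omega)]
    refine Finset.sum_congr rfl fun z _ => ?_
    rw [DD]
    congr 3
    ring
  have h4 : (∑ i ∈ range R, ∑ i' ∈ range R, ∑ y ∈ Ico (-(X : ℤ)) X, DD (n + d * ((i : ℤ) - i')) g y) / (R : ℂ) ^ 2 =
      ∑ z ∈ Ico (-(2 * X : ℤ)) (2 * X), G z * (starRingEnd ℂ) (G (z + n)) := by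
    rw [Finset.sum_congr rfl fun i hi => Finset.sum_congr rfl fun i' hi' => h1 i hi i' hi']
    rw [Finset.sum_congr rfl fun i _ => Finset.sum_comm, Finset.sum_comm, Finset.sum_div]
    refine Finset.sum_congr rfl fun z _ => ?_
    rw [hG]
    simp only [map_div₀, map_sum, Complex.conj_natCast]
    rw [div_mul_div_comm, ← pow_two, Finset.sum_mul_sum, Finset.sum_comm]
  rw [h4, Complex.re_sum]
  have h5 : TQ X R d 0 g = ∑ z ∈ Ico (-(2 * X : ℤ)) (2 * X), ‖G z‖ ^ 2 := by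
    rw [TQ]
    refine Finset.sum_congr rfl fun z _ => ?_
    rw [hG]
    simp only [zero_mul, Pool.Agent.H44W.ee_zero, mul_one]
  rw [h5]
  have h6 : ∀ z ∈ Ico (-(2 * X : ℤ)) (2 * X), (G z * (starRingEnd ℂ) (G (z + n))).re ≤
      (‖G z‖ ^ 2 + ‖G (z + n)‖ ^ 2) / 2 := by
    intro z _
    have h7 : (G z * (starRingEnd ℂ) (G (z + n))).re ≤ ‖G z‖ * ‖G (z + n)‖ := by
      refine (Complex.re_le_norm _).trans ?_
      rw [norm_mul, RCLike.norm_conj]
    nlinarith [sq_nonneg (‖G z‖ - ‖G (z + n)‖)]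
  refine (Finset.sum_le_sum h6).trans ?_
  rw [← Finset.sum_div, Finset.sum_add_distrib]
  have h8 : ∑ z ∈ Ico (-(2 * X : ℤ)) (2 * X), ‖G (z + n)‖ ^ 2 ≤ ∑ z ∈ Ico (-(2 * X : ℤ)) (2 * X), ‖G z‖ ^ 2 := by
    refine mq2_shiftsum (fun z => ‖G z‖ ^ 2) (fun _ => by positivity) _ _ n fun y hy => ?_
    have h9 : G y = 0 := by
      rw [hG]
      show (∑ i ∈ range R, g (y + d * i)) / R = 0
      rw [Finset.sum_eq_zero, zero_div]
      intro i hi
      obtain ⟨h2, h3⟩ := hdi i hi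
      refine hg.sup _ fun h => hy ?_
      rw [mem_Ico] at h ⊢
      omega
    show ‖G y‖ ^ 2 = 0
    rw [h9, norm_zero]
    norm_num
  linarith

/-- **Last coordinate.** `F(t, t') = ∑_y DD (q (b t - b' t')) g y`, `‖F‖ ≤ 2X`. For `j = i - i'`, `i, i' < R`, take `u, u'` from
`LL5_bez`: `F(t + u, t' + u')` has the difference `q (b t - b' t') + q γ j`; by `LL1_fej2` the average of `F` over `(t, t')` changes by at
most `2X * 2 (|u| + |u'|) / M ≤ 4 X (4 K + γ R / K) / M`. Average over `i, i'`, then `LL5_sq` for each `(t, t')` (weights `fw ≥ 0`,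
total weight `1`). -/
theorem LL5_last (X M K R b b' q : ℕ) (hM : 1 ≤ M) (hK : 1 ≤ K) (hR : 1 ≤ R) (hb : b ∈ Ioc K (2 * K))
    (hb' : b' ∈ Ioc K (2 * K)) (hq : q * Nat.gcd b b' * R ≤ X) (g : ℤ → ℂ) (hg : Bdd X g) :
    ((∑ t ∈ Ioo (-(M : ℤ)) M, ∑ t' ∈ Ioo (-(M : ℤ)) M, ((fw M t * fw M t' : ℝ) : ℂ) *
      ∑ y ∈ Ico (-(X : ℤ)) X, DD ((q : ℤ) * (b * t - b' * t')) g y) / (M : ℂ) ^ 2).re ≤
      TQ X R (q * Nat.gcd b b' : ℕ) 0 g + 4 * X * ((4 * K + Nat.gcd b b' * R / K) / M) := by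
  have hM0 : (0 : ℝ) < M := by exact_mod_cast hM
  have hK0 : (0 : ℝ) < K := by exact_mod_cast hK
  have hR0 : (0 : ℝ) < R := by exact_mod_cast hR
  obtain ⟨γ, hγ⟩ : ∃ γ : ℕ, γ = Nat.gcd b b' := ⟨_, rfl⟩
  obtain ⟨F, hF⟩ : ∃ F : ℤ → ℤ → ℂ, F = fun t t' => ∑ y ∈ Ico (-(X : ℤ)) X, DD ((q : ℤ) * (b * t - b' * t')) g y := ⟨_, rfl⟩
  have hFle : ∀ t t', ‖F t t'‖ ≤ 2 * X := by
    intro t t'
    rw [hF]
    refine (norm_sum_le _ _).trans ?_
    refine (Finset.sum_le_sum (g := fun _ => (1 : ℝ)) fun y _ => ?_).trans ?_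
    · rw [DD, norm_mul, RCLike.norm_conj]
      exact mul_le_one₀ (hg.le _) (norm_nonneg _) (hg.le _)
    · rw [Finset.sum_const, nsmul_eq_mul, mul_one, Int.card_Ico]
      have e : ((X : ℤ) - -(X : ℤ)).toNat = 2 * X := by omega
      rw [e]
      push_cast
      exact le_rfl
  obtain ⟨A, hA⟩ : ∃ A : (ℤ → ℤ → ℂ) → ℂ, A = fun H => (∑ t ∈ Ioo (-(M : ℤ)) M, ∑ t' ∈ Ioo (-(M : ℤ)) M,
    ((fw M t * fw M t' : ℝ) : ℂ) * H t t') / (M : ℂ) ^ 2 := ⟨_, rfl⟩
  have hgoal : (∑ t ∈ Ioo (-(M : ℤ)) M, ∑ t' ∈ Ioo (-(M : ℤ)) M, ((fw M t * fw M t' : ℝ) : ℂ) *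
      ∑ y ∈ Ico (-(X : ℤ)) X, DD ((q : ℤ) * (b * t - b' * t')) g y) / (M : ℂ) ^ 2 = A F := by
    rw [hA, hF]
  rw [hgoal, ← hγ]
  -- one pair `i, i'`
  have h1 : ∀ i ∈ range R, ∀ i' ∈ range R, (A F).re ≤ (A fun t t' => ∑ y ∈ Ico (-(X : ℤ)) X,
      DD ((q : ℤ) * (b * t - b' * t') + (q * γ : ℕ) * ((i : ℤ) - i')) g y).re + 4 * X * ((4 * K + γ * R / K) / M) := by
    intro i hi i' hi'
    rw [mem_range] at hi hi'
    obtain ⟨u, u', hu1, hu2, hu3⟩ := LL5_bez K b b' hK hb hb' ((i : ℤ) - i')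
    rw [← hγ] at hu1 hu3
    have h2 := LL1_fej2 M hM (2 * X) F hFle u u'
    have e1 : (fun t t' : ℤ => F (t + u) (t' + u')) = fun t t' => ∑ y ∈ Ico (-(X : ℤ)) X,
        DD ((q : ℤ) * (b * t - b' * t') + (q * γ : ℕ) * ((i : ℤ) - i')) g y := by
      funext t t'
      rw [hF]
      refine Finset.sum_congr rfl fun y _ => ?_
      congr 1
      push_cast
      linear_combination (q : ℤ) * hu1
    have h3 : ‖A (fun t t' : ℤ => F (t + u) (t' + u')) - A F‖ ≤ 2 * X * (2 * (|(u : ℝ)| + |(u' : ℝ)|) / M) := by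
      rw [hA]
      exact h2
    have h4 : (A F).re ≤ (A (fun t t' : ℤ => F (t + u) (t' + u'))).re + 2 * X * (2 * (|(u : ℝ)| + |(u' : ℝ)|) / M) := by
      have h5 : (A F - A (fun t t' : ℤ => F (t + u) (t' + u'))).re ≤
          ‖A (fun t t' : ℤ => F (t + u) (t' + u')) - A F‖ := by
        rw [norm_sub_rev]
        exact Complex.re_le_norm _
      rw [Complex.sub_re] at h5
      linarith
    rw [e1] at h4
    refine h4.trans (add_le_add le_rfl ?_)
    have h6 : |(((i : ℤ) - i' : ℤ) : ℝ)| ≤ R := by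
      push_cast
      rw [abs_le]
      have h7 : (i : ℝ) < R := by exact_mod_cast hi
      have h8 : (i' : ℝ) < R := by exact_mod_cast hi'
      have h9 : (0 : ℝ) ≤ i := Nat.cast_nonneg _
      have h10 : (0 : ℝ) ≤ i' := Nat.cast_nonneg _
      constructor <;> linarith
    have h7 : |(u : ℝ)| + |(u' : ℝ)| ≤ 4 * K + γ * R / K := by
      have h8 : (γ : ℝ) * |(((i : ℤ) - i' : ℤ) : ℝ)| / K ≤ γ * R / K := by
        refine div_le_div_of_nonneg_right ?_ hK0.le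
        exact mul_le_mul_of_nonneg_left h6 (Nat.cast_nonneg _)
      linarith
    calc 2 * X * (2 * (|(u : ℝ)| + |(u' : ℝ)|) / M) = 4 * X * ((|(u : ℝ)| + |(u' : ℝ)|) / M) := by ring
      _ ≤ 4 * X * ((4 * K + γ * R / K) / M) := by
          refine mul_le_mul_of_nonneg_left ?_ (by positivity)
          exact div_le_div_of_nonneg_right h7 hM0.le
  -- average
  have h2 : (R : ℝ) ^ 2 * (A F).re ≤ ∑ i ∈ range R, ∑ i' ∈ range R, ((A fun t t' => ∑ y ∈ Ico (-(X : ℤ)) X,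
      DD ((q : ℤ) * (b * t - b' * t') + (q * γ : ℕ) * ((i : ℤ) - i')) g y).re + 4 * X * ((4 * K + γ * R / K) / M)) := by
    calc (R : ℝ) ^ 2 * (A F).re = ∑ i ∈ range R, ∑ i' ∈ range R, (A F).re := by
          rw [Finset.sum_const, Finset.sum_const, card_range, nsmul_eq_mul, nsmul_eq_mul]
          ring
      _ ≤ _ := Finset.sum_le_sum fun i hi => Finset.sum_le_sum fun i' hi' => h1 i hi i' hi'
  have h3 : ∑ i ∈ range R, ∑ i' ∈ range R, ((A fun t t' => ∑ y ∈ Ico (-(X : ℤ)) X,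
      DD ((q : ℤ) * (b * t - b' * t') + (q * γ : ℕ) * ((i : ℤ) - i')) g y).re + 4 * X * ((4 * K + γ * R / K) / M)) =
      (R : ℝ) ^ 2 * ((∑ t ∈ Ioo (-(M : ℤ)) M, ∑ t' ∈ Ioo (-(M : ℤ)) M, fw M t * fw M t' *
        ((∑ i ∈ range R, ∑ i' ∈ range R, ∑ y ∈ Ico (-(X : ℤ)) X,
          DD ((q : ℤ) * (b * t - b' * t') + (q * γ : ℕ) * ((i : ℤ) - i')) g y) / (R : ℂ) ^ 2).re) / (M : ℝ) ^ 2) +
      (R : ℝ) ^ 2 * (4 * X * ((4 * K + γ * R / K) / M)) := by
    rw [Finset.sum_congr rfl fun i _ => Finset.sum_add_distrib, Finset.sum_add_distrib]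
    congr 1
    · have h4 : ∀ i i' : ℕ, (A fun t t' => ∑ y ∈ Ico (-(X : ℤ)) X,
          DD ((q : ℤ) * (b * t - b' * t') + (q * γ : ℕ) * ((i : ℤ) - i')) g y).re =
          (∑ t ∈ Ioo (-(M : ℤ)) M, ∑ t' ∈ Ioo (-(M : ℤ)) M, fw M t * fw M t' *
            (∑ y ∈ Ico (-(X : ℤ)) X, DD ((q : ℤ) * (b * t - b' * t') + (q * γ : ℕ) * ((i : ℤ) - i')) g y).re) /
              (M : ℝ) ^ 2 := by
        intro i i'
        rw [hA]
        have e2 : ((M : ℂ) ^ 2) = (((M : ℝ) ^ 2 : ℝ) : ℂ) := by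
          push_cast
          rfl
        show (_ / (M : ℂ) ^ 2).re = _
        rw [e2, Complex.div_ofReal_re, Complex.re_sum]
        congr 1
        refine Finset.sum_congr rfl fun t _ => ?_
        rw [Complex.re_sum]
        refine Finset.sum_congr rfl fun t' _ => ?_
        rw [Complex.re_ofReal_mul]
      rw [Finset.sum_congr rfl fun i _ => Finset.sum_congr rfl fun i' _ => h4 i i']
      rw [Finset.sum_congr rfl fun i _ => (Finset.sum_div _ _ _).symm, ← Finset.sum_div, mul_div_assoc']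
      congr 1
      rw [Finset.sum_congr rfl fun i _ => Finset.sum_comm, Finset.sum_comm, Finset.mul_sum]
      refine Finset.sum_congr rfl fun t _ => ?_
      rw [Finset.sum_congr rfl fun i _ => Finset.sum_comm, Finset.sum_comm, Finset.mul_sum]
      refine Finset.sum_congr rfl fun t' _ => ?_
      have e3 : ((R : ℂ) ^ 2) = (((R : ℝ) ^ 2 : ℝ) : ℂ) := by
        push_cast
        rfl
      rw [e3, Complex.div_ofReal_re, Complex.re_sum, mul_div_assoc', mul_div_cancel₀ _ (by positivity : (R : ℝ) ^ 2 ≠ 0),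
        Finset.mul_sum]
      refine Finset.sum_congr rfl fun i _ => ?_
      rw [Complex.re_sum, Finset.mul_sum]
    · rw [Finset.sum_const, Finset.sum_const, card_range, nsmul_eq_mul, nsmul_eq_mul]
      ring
  have h4 : (∑ t ∈ Ioo (-(M : ℤ)) M, ∑ t' ∈ Ioo (-(M : ℤ)) M, fw M t * fw M t' *
        ((∑ i ∈ range R, ∑ i' ∈ range R, ∑ y ∈ Ico (-(X : ℤ)) X,
          DD ((q : ℤ) * (b * t - b' * t') + (q * γ : ℕ) * ((i : ℤ) - i')) g y) / (R : ℂ) ^ 2).re) / (M : ℝ) ^ 2 ≤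
      TQ X R (q * γ : ℕ) 0 g := by
    rw [div_le_iff₀ (by positivity)]
    have h5 : ∑ t ∈ Ioo (-(M : ℤ)) M, ∑ t' ∈ Ioo (-(M : ℤ)) M, fw M t * fw M t' *
        ((∑ i ∈ range R, ∑ i' ∈ range R, ∑ y ∈ Ico (-(X : ℤ)) X,
          DD ((q : ℤ) * (b * t - b' * t') + (q * γ : ℕ) * ((i : ℤ) - i')) g y) / (R : ℂ) ^ 2).re ≤
        ∑ t ∈ Ioo (-(M : ℤ)) M, ∑ t' ∈ Ioo (-(M : ℤ)) M, fw M t * fw M t' * TQ X R (q * γ : ℕ) 0 g := by
      refine Finset.sum_le_sum fun t _ => Finset.sum_le_sum fun t' _ => ?_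
      refine mul_le_mul_of_nonneg_left ?_ (mul_nonneg (mq1_fw_nonneg _ _) (mq1_fw_nonneg _ _))
      exact LL5_sq X R hR (q * γ) (by rw [hγ]; exact hq) g hg _
    refine h5.trans (le_of_eq ?_)
    have h6 := mq1_fw_sum M hM
    calc ∑ t ∈ Ioo (-(M : ℤ)) M, ∑ t' ∈ Ioo (-(M : ℤ)) M, fw M t * fw M t' * TQ X R (q * γ : ℕ) 0 g
        = (∑ t ∈ Ioo (-(M : ℤ)) M, fw M t) * (∑ t' ∈ Ioo (-(M : ℤ)) M, fw M t') * TQ X R (q * γ : ℕ) 0 g := by
          rw [Finset.sum_mul_sum, Finset.sum_mul]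
          refine Finset.sum_congr rfl fun t _ => ?_
          rw [Finset.sum_mul]
      _ = TQ X R (q * γ : ℕ) 0 g * (M : ℝ) ^ 2 := by
          rw [h6]
          ring
  have h5 : (R : ℝ) ^ 2 * (A F).re ≤ (R : ℝ) ^ 2 * (TQ X R (q * γ : ℕ) 0 g + 4 * X * ((4 * K + γ * R / K) / M)) := by
    rw [h3] at h2
    have h6 := mul_le_mul_of_nonneg_left h4 (by positivity : (0 : ℝ) ≤ (R : ℝ) ^ 2)
    linarith
  exact le_of_mul_le_mul_left h5 (by positivity)

end Pool.Agent.HUK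
end

-- from Lib.HUK.LL7a
section

/-!
# Project HUK, chunk LL7a (M): one pair of directions, preparations
-/

open Finset

namespace Pool.Agent.HUK

private theorem ll7_DL {l : List ℤ} (a : ℤ) (g : ℤ → ℂ) : DL l (fun y => g (y + a)) = fun y => DL l g (y + a) := by
  induction l generalizing g with
  | nil => rfl
  | cons h l ih =>
    show DL l (DD h (fun y => g (y + a))) = fun y => DL l (DD h g) (y + a)
    rw [← ih (DD h g)]
    congr 1
    funext y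
    show g (y + a) * (starRingEnd ℂ) (g (y + h + a)) = g (y + a) * (starRingEnd ℂ) (g (y + a + h))
    rw [show y + h + a = y + a + h by ring]

private theorem ll7_FF (X X' s : ℕ) (a : ℤ) (h : Fin s → ℤ) (g : ℤ → ℂ) (hg : ∀ y, y ∉ Ico (-(X : ℤ)) X → g y = 0)
    (hg' : ∀ y, y ∉ Ico (-(X' : ℤ)) X' → g (y + a) = 0) : FF X' h (fun y => g (y + a)) = FF X h g := by
  unfold FF DV
  rw [ll7_DL]
  refine Finset.sum_bij_ne_zero (fun z _ _ => z + a) ?_ ?_ ?_ ?_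
  · intro z _ hne
    by_contra hc
    exact hne (DL_supp _ g _ (hg _ hc))
  · intro z _ _ w _ _ hzw
    have : z + a = w + a := hzw
    omega
  · intro z _ hne
    refine ⟨z - a, ?_, ?_, ?_⟩
    · by_contra hc
      apply hne
      have := hg' _ hc
      rw [sub_add_cancel] at this
      exact DL_supp _ g _ this
    · show DL _ g (z - a + a) ≠ 0
      rwa [sub_add_cancel]
    · show z - a + a = z
      ring
  · intro z _ _
    rfl

private theorem ll7_sg (s : ℕ) : sg (zv s) = 0 := by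
  unfold sg zv
  simp

private theorem ll7_bx0 (M : ℕ) : bxS 0 M = {fun i => i.elim0} := by
  ext x
  simp only [bxS, Fintype.mem_piFinset, mem_singleton]
  constructor
  · intro _
    funext i
    exact i.elim0
  · intro _ i
    exact i.elim0

private theorem ll7_TT0 (X M : ℕ) (β β' : ℤ) (U U' : (Fin 0 → Bool) → ℤ → ℂ) :
    TT X M β β' U U' = ∑ y ∈ Ico (-(X : ℤ)) X, U (zv 0) y * U' (zv 0) y := by
  have hPV : ∀ (γ : ℤ) (V : (Fin 0 → Bool) → ℤ → ℂ) (t : Fin 0 → ℤ) (y : ℤ), PV γ V t y = V (zv 0) y := by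
    intro γ V t y
    unfold PV
    rw [Fintype.prod_eq_single (zv 0) (fun ω hω => absurd (Subsingleton.elim ω (zv 0)) hω)]
    simp [vt]
  unfold TT
  rw [ll7_bx0]
  simp only [sum_singleton, hPV, FW, univ_eq_empty, prod_empty, mul_one, Complex.ofReal_one, one_mul, mul_zero, pow_zero,
    div_one]

/-- Translation (as `GG_shift`; `FF X (h) g = ∑_{y ∈ ℤ} DV h g y` whenever `g` is supported in `[-X, X)`, `DL_supp`). -/
theorem LL7_shift (X X' s H : ℕ) (d a : ℤ) (g : ℤ → ℂ) (hg : ∀ y, y ∉ Ico (-(X : ℤ)) X → g y = 0)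
    (hg' : ∀ y, y ∉ Ico (-(X' : ℤ)) X' → g (y + a) = 0) : NU X' s H d (fun y => g (y + a)) = NU X s H d g := by
  unfold NU
  congr 2
  exact Finset.sum_congr rfl fun t _ => by rw [ll7_FF X X' s a _ g hg hg']

/-- The product at the vertex `0`: `conj f(y + β t) f(y + β' t') = DD (β t - β' t') f (y + β' t')` (`sg (zv s) = 0`). -/
theorem LL7_Uf (s : ℕ) (f : ℤ → ℂ) (z z' y : ℤ) :
    Uf (s := s) f z (zv s) y * cU (Uf (s := s) f z') (zv s) y = DD (z - z') f (y + z') := by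
  unfold cU Uf
  rw [if_pos rfl, ll7_sg, one_mul, one_mul, zero_add]
  have h1 : ∀ w : ℂ, cj 1 w = (starRingEnd ℂ) w := by
    intro w
    unfold cj
    rw [if_neg (by decide)]
  rw [h1, h1, Complex.conj_conj]
  show (starRingEnd ℂ) (f (y + z)) * f (y + z') = f (y + z') * (starRingEnd ℂ) (f (y + z' + (z - z')))
  rw [show y + z' + (z - z') = y + z by ring, mul_comm]

/-- `s = 0`: `TT` is `∑_y Uf .. * cU .. = ∑_{y ∈ [-X,X)} DD (q (b t - b' t')) f y` (`LL7_Uf`, translation by `b' q t'`, `|b q t| ≤ X`), then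
`LL5_last` with `g = f`, and `MQ_one`. -/
theorem LL7_zero (X M K R b b' q : ℕ) (hM : 1 ≤ M) (hK : 1 ≤ K) (hR : 1 ≤ R) (hb : b ∈ Ioc K (2 * K))
    (hb' : b' ∈ Ioc K (2 * K)) (hq : q * Nat.gcd b b' * R ≤ X) (hKM : 2 * q * K * M ≤ X) (f : ℤ → ℂ) (hf : Bdd X f) :
    SPd X 0 M (b * q) (b' * q) f ≤ (MQ X [(R, ((q * Nat.gcd b b' : ℕ) : ℤ))] f).re +
      4 * X * ((4 * K + Nat.gcd b b' * R / K) / M) := by
  have hγ : ((q * Nat.gcd b b' : ℕ) : ℤ) * R ≤ X := by exact_mod_cast hq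
  rw [MQ_one X R hR _ (by positivity) hγ f hf.sup, Complex.ofReal_re]
  refine le_trans (le_of_eq ?_) (LL5_last X M K R b b' q hM hK hR hb hb' hq f hf)
  unfold SPd
  congr 2
  refine Finset.sum_congr rfl fun t _ => Finset.sum_congr rfl fun t' ht' => ?_
  congr 1
  rw [ll7_TT0]
  have hb2 : ((b' * q : ℤ) * t') ≤ X ∧ -(X : ℤ) ≤ ((b' * q : ℤ) * t') := by
    rw [mem_Ioo] at ht'
    rw [mem_Ioc] at hb'
    have h1 : (b' : ℤ) * q * M ≤ X := by
      have h2 : b' * q * M ≤ 2 * q * K * M := by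
        have h3 : b' * q ≤ 2 * K * q := Nat.mul_le_mul_right q hb'.2
        calc b' * q * M ≤ 2 * K * q * M := Nat.mul_le_mul_right M h3
          _ = 2 * q * K * M := by ring
      exact_mod_cast h2.trans hKM
    have h0 : (0 : ℤ) ≤ (b' : ℤ) * q := by positivity
    constructor
    · exact (mul_le_mul_of_nonneg_left ht'.2.le h0).trans h1
    · have h4 := mul_le_mul_of_nonneg_left ht'.1.le h0
      linarith
  have h5 : ∑ y ∈ Ico (-(X : ℤ)) X, DD ((q : ℤ) * (b * t - b' * t')) f y =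
      ∑ z ∈ Ico (-(2 * X : ℤ)) (2 * X), DD ((q : ℤ) * (b * t - b' * t')) f (z + (b' * q : ℤ) * t') :=
    ll5_win (-(X : ℤ)) X (-(2 * X : ℤ)) (2 * X) ((b' * q : ℤ) * t') (DD ((q : ℤ) * (b * t - b' * t')) f)
      (mq1_DD_supp hf.sup _) (by linarith [hb2.1]) (by linarith [hb2.2])
  rw [h5]
  push_cast
  refine Finset.sum_congr rfl fun y _ => ?_
  rw [LL7_Uf 0 f ((b : ℤ) * q * t) ((b' : ℤ) * q * t') y]
  rw [show (b : ℤ) * q * t - (b' : ℤ) * q * t' = (q : ℤ) * (b * t - b' * t') by ring]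

end Pool.Agent.HUK
end

-- from Lib.HUK.LL7
section

/-!
# Project HUK, chunk LL7 (M/L): one pair of directions
-/

open Finset

namespace Pool.Agent.HUK

theorem ll7_swap {ι κ : Type*} (S : Finset ι) (T : Finset κ) (w : ι → ℂ) (v : κ → ℂ) (A : κ → ι → ℂ) (P Q : ℂ) :
    (∑ x ∈ S, w x * ((∑ k ∈ T, v k * A k x) / P)) / Q = (∑ k ∈ T, v k * ((∑ x ∈ S, w x * A k x) / Q)) / P := by
  simp only [Finset.sum_div, Finset.mul_sum]
  rw [Finset.sum_comm]
  refine sum_congr rfl fun k _ => sum_congr rfl fun x _ => ?_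
  ring

theorem ll7_re {ι : Type*} (S : Finset ι) (w : ι → ℝ) (z : ι → ℂ) (M : ℕ) :
    ((∑ x ∈ S, ((w x : ℝ) : ℂ) * z x) / (M : ℂ) ^ 2).re = (∑ x ∈ S, w x * (z x).re) / (M : ℝ) ^ 2 := by
  have h1 : (M : ℂ) ^ 2 = ((M ^ 2 : ℕ) : ℂ) := by
    push_cast
    rfl
  rw [h1, Complex.div_natCast_re, Complex.re_sum]
  push_cast
  congr 1
  refine sum_congr rfl fun x _ => ?_
  rw [Complex.re_ofReal_mul]

theorem ll7_last (X M K R b b' q : ℕ) (hM : 1 ≤ M) (hK : 1 ≤ K) (hR : 1 ≤ R) (hb : b ∈ Ioc K (2 * K))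
    (hb' : b' ∈ Ioc K (2 * K)) (hq : q * Nat.gcd b b' * R ≤ X) (l : List (ℕ × ℤ)) (hp : ∀ p ∈ l, 1 ≤ p.1) :
    ∀ g : ℤ → ℂ, Bdd X g →
    ((∑ x ∈ Ioo (-(M : ℤ)) M ×ˢ Ioo (-(M : ℤ)) M, ((fw M x.1 * fw M x.2 : ℝ) : ℂ) *
      MQ X l (DD ((q : ℤ) * (b * x.1 - b' * x.2)) g)) / (M : ℂ) ^ 2).re ≤
      (MQ X (l ++ [(R, ((q * Nat.gcd b b' : ℕ) : ℤ))]) g).re + 4 * X * ((4 * K + Nat.gcd b b' * R / K) / M) := by
  induction l with
  | nil =>
    intro g hg
    have h1 := LL5_last X M K R b b' q hM hK hR hb hb' hq g hg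
    rw [List.nil_append, MQ_one X R hR _ (by positivity) (by exact_mod_cast hq) g hg.sup, Complex.ofReal_re]
    rw [Finset.sum_product]
    exact h1
  | cons p l ih =>
    intro g hg
    have hp1 : 1 ≤ p.1 := hp p List.mem_cons_self
    have hp' : (0 : ℝ) < p.1 := by exact_mod_cast hp1
    have ih' := ih fun p' h' => hp p' (List.mem_cons_of_mem _ h')
    rw [List.cons_append, mq2_cons_re]
    obtain ⟨E, hE⟩ : ∃ E : ℝ, E = 4 * X * ((4 * K + Nat.gcd b b' * R / K) / M) := ⟨_, rfl⟩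
    rw [← hE] at ih' ⊢
    have h1 : ∀ x ∈ Ioo (-(M : ℤ)) M ×ˢ Ioo (-(M : ℤ)) M, ((fw M x.1 * fw M x.2 : ℝ) : ℂ) *
        MQ X (p :: l) (DD ((q : ℤ) * (b * x.1 - b' * x.2)) g) = ((fw M x.1 * fw M x.2 : ℝ) : ℂ) *
        ((∑ k ∈ Ioo (-(p.1 : ℤ)) p.1, ((fw p.1 k : ℝ) : ℂ) *
          MQ X l (DD ((q : ℤ) * (b * x.1 - b' * x.2)) (DD (p.2 * k) g))) / (p.1 : ℂ)) := by
      intro x _
      congr 1
      show (∑ t ∈ Ioo (-(p.1 : ℤ)) p.1, ((fw p.1 t : ℝ) : ℂ) *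
        MQ X l (DD (p.2 * t) (DD ((q : ℤ) * (b * x.1 - b' * x.2)) g))) / (p.1 : ℂ) = _
      congr 1
      refine sum_congr rfl fun k _ => ?_
      rw [mq1_DD_comm]
    rw [sum_congr rfl h1, ll7_swap, Complex.div_natCast_re, Complex.re_sum]
    calc (∑ k ∈ Ioo (-(p.1 : ℤ)) p.1, (((fw p.1 k : ℝ) : ℂ) *
          ((∑ x ∈ Ioo (-(M : ℤ)) M ×ˢ Ioo (-(M : ℤ)) M, ((fw M x.1 * fw M x.2 : ℝ) : ℂ) *
            MQ X l (DD ((q : ℤ) * (b * x.1 - b' * x.2)) (DD (p.2 * k) g))) / (M : ℂ) ^ 2)).re) / (p.1 : ℝ) ≤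
          (∑ k ∈ Ioo (-(p.1 : ℤ)) p.1, (fw p.1 k * (MQ X (l ++ [(R, ((q * Nat.gcd b b' : ℕ) : ℤ))])
            (DD (p.2 * k) g)).re + fw p.1 k * E)) / (p.1 : ℝ) := by
          refine div_le_div_of_nonneg_right (Finset.sum_le_sum fun k _ => ?_) hp'.le
          rw [Complex.re_ofReal_mul]
          have h2 := mul_le_mul_of_nonneg_left (ih' _ (Bdd_DD hg (p.2 * k))) (mq2_fw_nonneg p.1 k)
          refine h2.trans (le_of_eq ?_)
          ring
      _ = (∑ k ∈ Ioo (-(p.1 : ℤ)) p.1, fw p.1 k * (MQ X (l ++ [(R, ((q * Nat.gcd b b' : ℕ) : ℤ))])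
            (DD (p.2 * k) g)).re) / (p.1 : ℝ) + E := by
          rw [Finset.sum_add_distrib, ← Finset.sum_mul, mq2_fw_sum p.1 hp1]
          field_simp

theorem ll7_DD0 (h : ℤ) (f : ℤ → ℂ) (y : ℤ) (hy : f y = 0) : DD h f y = 0 := by
  simp only [DD, hy, zero_mul]

theorem ll7_cj (n : ℕ) (z : ℂ) : ‖cj n z‖ = ‖z‖ := by
  unfold cj
  split_ifs
  · rfl
  · exact RCLike.norm_conj z

theorem ll7_Uf_le {s : ℕ} (f : ℤ → ℂ) (hf : ∀ y, ‖f y‖ ≤ 1) (z : ℤ) (ω : Fin s → Bool) (y : ℤ) :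
    ‖Uf (s := s) f z ω y‖ ≤ 1 := by
  unfold Uf
  rw [norm_mul, ll7_cj]
  refine mul_le_one₀ ?_ (norm_nonneg _) (hf _)
  split_ifs
  · rw [norm_one]
  · rw [ll7_cj]
    exact hf _

theorem ll7_num (n : ℕ) (hn : 1 ≤ n) (X C m e1 e2 e3 : ℝ) (hX : 0 ≤ X) (hC : 0 ≤ C) (hm : 0 ≤ m) (he3 : 0 ≤ e3)
    (he : 4 * X * e1 + 2 * X * e2 ≤ 16 * (X * e3)) :
    C * (2 * X) ^ (n - 1) * ((m + 4 * X * e1) + 2 * X * e2) ≤ 16 * 2 ^ n * C * X ^ (n - 1) * (m + X * e3) := by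
  have h1 : (2 * X) ^ (n - 1) ≤ 2 ^ n * X ^ (n - 1) := by
    rw [mul_pow]
    refine mul_le_mul_of_nonneg_right ?_ (by positivity)
    exact pow_le_pow_right₀ (by norm_num) (by omega)
  have h2 : (m + 4 * X * e1) + 2 * X * e2 ≤ 16 * (m + X * e3) := by linarith
  have h3 : 0 ≤ C * (2 * X) ^ (n - 1) := by positivity
  have h4 : 0 ≤ 16 * (m + X * e3) := by positivity
  calc C * (2 * X) ^ (n - 1) * ((m + 4 * X * e1) + 2 * X * e2) ≤ C * (2 * X) ^ (n - 1) * (16 * (m + X * e3)) :=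
        mul_le_mul_of_nonneg_left h2 h3
      _ ≤ C * (2 ^ n * X ^ (n - 1)) * (16 * (m + X * e3)) :=
        mul_le_mul_of_nonneg_right (mul_le_mul_of_nonneg_left h1 hC) h4
      _ = 16 * 2 ^ n * C * X ^ (n - 1) * (m + X * e3) := by ring

/-- `s ≥ 1`. `d = b b' q`, `γ = gcd`. `(max 0 SPd)^n ≤ (∑ fw fw ‖TT‖ / M²)^n ≤ (∑ fw fw ‖TT‖^n) / M²` (`n = 2^s`, Jensen, total weight 1), `LL3_main` for
`2X` in place of `X`: product of the vertices `0` supported in `[-2X, 2X)` (`|b q t| ≤ 2 K q M ≤ X`); `LL7_Uf`, `LL7_shift`: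
`NU (2X) s H d (..) = NU X s H d (DD (q (b t - b' t')) f)`; then
`(∑_{t,t'} fw fw NU X s H d (DD (q (b t - b' t')) f)) / M² = (∑_k FW H k (∑_{t,t'} fw fw ∑_y DD (q (..)) (DV (d k) f) y).re / M²) / H^s` and `LL5_last` for
`g = DV (d k) f` (`Bdd_DV`; `DD h (DV k f) = DV k (DD h f)`, `D0`/`P0`); finally `mq2_rep`, `MQ_one`, `MQ_perm`: the main term is
`MQ X ((R, q γ) :: replicate s (H, d)) f`. Errors: `2X (b + b') H / M ≤ 8 X K H / M` and `4X (4K + γ R / K) / M`. -/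
theorem LL7_pair (s : ℕ) : ∃ C : ℝ, 1 ≤ C ∧ ∀ X M K H R b b' q : ℕ, 1 ≤ X → 1 ≤ M → 1 ≤ K → 1 ≤ H → 1 ≤ R →
    b ∈ Ioc K (2 * K) → b' ∈ Ioc K (2 * K) → q * Nat.gcd b b' * R ≤ X → 2 * q * K * M ≤ X → b * b' * q * H ≤ X →
    4 * K * H ≤ M → ∀ f : ℤ → ℂ, Bdd X f →
    (max 0 (SPd X s M (b * q) (b' * q) f)) ^ (2 ^ s) ≤ C * (X : ℝ) ^ (2 ^ s - 1) *
      ((MQ X ((R, ((q * Nat.gcd b b' : ℕ) : ℤ)) :: List.replicate s (H, ((b * b' * q : ℕ) : ℤ))) f).re +
        X * ((K * H + K + Nat.gcd b b' * R / K) / M)) := by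
  rcases Nat.eq_zero_or_pos s with rfl | hs
  · refine ⟨16, by norm_num, ?_⟩
    intro X M K H R b b' q hX hM hK hH hR hb hb' hq hKM hbH hKH f hf
    have h1 := LL7_zero X M K R b b' q hM hK hR hb hb' hq hKM f hf
    obtain ⟨m, hm0, hm⟩ := MQ_nonneg X [(R, ((q * Nat.gcd b b' : ℕ) : ℤ))] (List.cons_ne_nil _ _) (by
      intro p hp
      rw [List.mem_singleton] at hp
      subst hp
      refine ⟨hR, by positivity, ?_⟩
      show ((q * Nat.gcd b b' : ℕ) : ℤ) * (R : ℤ) ≤ X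
      exact_mod_cast hq) f hf.sup
    rw [hm, Complex.ofReal_re] at h1
    rw [pow_zero, pow_one, List.replicate_zero, hm, Complex.ofReal_re, Nat.sub_self, pow_zero, mul_one]
    have hX0 : (0 : ℝ) < X := by exact_mod_cast hX
    have hM0 : (0 : ℝ) < M := by exact_mod_cast hM
    have hK0 : (0 : ℝ) < K := by exact_mod_cast hK
    have hH0 : (0 : ℝ) < H := by exact_mod_cast hH
    have hg0 : (0 : ℝ) ≤ (Nat.gcd b b' : ℝ) * R / K := by positivity
    have h2 : (4 * (K : ℝ) + Nat.gcd b b' * R / K) / M ≤ 4 * ((K * H + K + Nat.gcd b b' * R / K) / M) := by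
      rw [← mul_div_assoc]
      refine div_le_div_of_nonneg_right ?_ hM0.le
      have : 0 ≤ (K : ℝ) * H := by positivity
      linarith
    have h3 : 0 ≤ ((K : ℝ) * H + K + Nat.gcd b b' * R / K) / M := by positivity
    refine max_le (by positivity) (h1.trans ?_)
    have h4 := mul_le_mul_of_nonneg_left h2 (by positivity : (0 : ℝ) ≤ 4 * X)
    nlinarith
  obtain ⟨C, hC1, hC⟩ := LL3_main s hs
  have hn1 : 1 ≤ 2 ^ s := Nat.one_le_two_pow
  refine ⟨16 * 2 ^ (2 ^ s) * C, ?_, ?_⟩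
  · have h1 : (1 : ℝ) ≤ 2 ^ (2 ^ s) := one_le_pow₀ (by norm_num)
    nlinarith
  intro X M K H R b b' q hX hM hK hH hR hb hb' hq hKM hbH hKH f hf
  have hX0 : (0 : ℝ) < X := by exact_mod_cast hX
  have hM0 : (0 : ℝ) < M := by exact_mod_cast hM
  have hK0 : (0 : ℝ) < K := by exact_mod_cast hK
  have hH0 : (0 : ℝ) < H := by exact_mod_cast hH
  have hb1 := mem_Ioc.1 hb
  have hb2 := mem_Ioc.1 hb'
  set L : List (ℕ × ℤ) := List.replicate s (H, ((b * b' * q : ℕ) : ℤ)) with hL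
  have hLp : ∀ p ∈ L, p = (H, ((b * b' * q : ℕ) : ℤ)) := fun p hp => (List.mem_replicate.1 hp).2
  obtain ⟨m, hm0, hm⟩ := MQ_nonneg X ((R, ((q * Nat.gcd b b' : ℕ) : ℤ)) :: L) (List.cons_ne_nil _ _) (by
    intro p hp
    rcases List.mem_cons.1 hp with h | h
    · subst h
      refine ⟨hR, by positivity, ?_⟩
      show ((q * Nat.gcd b b' : ℕ) : ℤ) * (R : ℤ) ≤ X
      exact_mod_cast hq
    · rw [hLp p h]
      refine ⟨hH, by positivity, ?_⟩
      show ((b * b' * q : ℕ) : ℤ) * (H : ℤ) ≤ X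
      exact_mod_cast hbH) f hf.sup
  rw [hm, Complex.ofReal_re]
  -- the last coordinate
  have hlast := ll7_last X M K R b b' q hM hK hR hb hb' hq L (fun p hp => by rw [hLp p hp]; exact hH) f hf
  rw [← MQ_perm X (List.perm_append_singleton (R, ((q * Nat.gcd b b' : ℕ) : ℤ)) L).symm f, hm, Complex.ofReal_re,
    ll7_re _ (fun x : ℤ × ℤ => fw M x.1 * fw M x.2)] at hlast
  set S : Finset (ℤ × ℤ) := Ioo (-(M : ℤ)) M ×ˢ Ioo (-(M : ℤ)) M with hS
  set T : ℤ × ℤ → ℂ := fun x => TT (2 * X) M (b * q) (b' * q) (Uf (s := s) f (b * q * x.1))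
    (cU (Uf (s := s) f (b' * q * x.2))) with hT
  have hw0 : ∀ x : ℤ × ℤ, 0 ≤ fw M x.1 * fw M x.2 := fun x => mul_nonneg (mq2_fw_nonneg M _) (mq2_fw_nonneg M _)
  have hws : ∑ x ∈ S, fw M x.1 * fw M x.2 = (M : ℝ) ^ 2 := by
    rw [hS, Finset.sum_product, ← Finset.sum_mul_sum, mq2_fw_sum M hM]
    ring
  have hSP : SPd X s M (b * q) (b' * q) f ≤ ∑ x ∈ S, fw M x.1 * fw M x.2 / (M : ℝ) ^ 2 * ‖T x‖ := by
    unfold SPd
    rw [← Finset.sum_product' (Ioo (-(M : ℤ)) M) (Ioo (-(M : ℤ)) M) (fun t t' => ((fw M t * fw M t' : ℝ) : ℂ) *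
      TT (2 * X) M (b * q) (b' * q) (Uf (s := s) f (b * q * t)) (cU (Uf (s := s) f (b' * q * t')))),
      ll7_re _ (fun x : ℤ × ℤ => fw M x.1 * fw M x.2), Finset.sum_div]
    refine Finset.sum_le_sum fun x _ => ?_
    rw [div_mul_eq_mul_div]
    refine div_le_div_of_nonneg_right ?_ (by positivity)
    exact mul_le_mul_of_nonneg_left (Complex.re_le_norm _) (hw0 x)
  have hSP0 : 0 ≤ ∑ x ∈ S, fw M x.1 * fw M x.2 / (M : ℝ) ^ 2 * ‖T x‖ := by
    refine Finset.sum_nonneg fun x _ => ?_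
    have := hw0 x
    positivity
  have hJ := Real.pow_arith_mean_le_arith_mean_pow S (fun x => fw M x.1 * fw M x.2 / (M : ℝ) ^ 2) (fun x => ‖T x‖)
    (fun x _ => by
      have := hw0 x
      positivity) (by
      rw [← Finset.sum_div, hws]
      exact div_self (by positivity)) (fun x _ => norm_nonneg _) (2 ^ s)
  -- the bound for one pair
  have hbb : (b + b') * H ≤ M := by
    refine le_trans (Nat.mul_le_mul_right H ?_) hKH
    omega
  have hpt : ∀ x ∈ S, ‖T x‖ ^ (2 ^ s) ≤ C * (2 * (X : ℝ)) ^ (2 ^ s - 1) *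
      ((MQ X L (DD ((q : ℤ) * (b * x.1 - b' * x.2)) f)).re + 2 * X * (((b : ℝ) + b') * H / M)) := by
    intro x hx
    rw [hS, mem_product, mem_Ioo, mem_Ioo] at hx
    have hz' : |(b' : ℤ) * q * x.2| ≤ X := by
      rw [abs_mul, abs_of_nonneg (by positivity : (0 : ℤ) ≤ (b' : ℤ) * q)]
      have h1 : |x.2| ≤ M := abs_le.2 ⟨hx.2.1.le, hx.2.2.le⟩
      calc (b' : ℤ) * q * |x.2| ≤ b' * q * M := mul_le_mul_of_nonneg_left h1 (by positivity)
        _ ≤ ((2 * q * K * M : ℕ) : ℤ) := by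
          have h2 : b' * q * M ≤ 2 * q * K * M := by
            refine Nat.mul_le_mul_right M ?_
            calc b' * q ≤ (2 * K) * q := Nat.mul_le_mul_right q hb2.2
              _ = 2 * q * K := by ring
          exact_mod_cast h2
        _ ≤ X := by exact_mod_cast hKM
    have hz'' := abs_le.1 hz'
    have hfun : (fun y => Uf (s := s) f (b * q * x.1) (zv s) y * cU (Uf (s := s) f (b' * q * x.2)) (zv s) y) =
        fun y => DD ((q : ℤ) * (b * x.1 - b' * x.2)) f (y + b' * q * x.2) := by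
      funext y
      rw [LL7_Uf]
      congr 1
      ring
    have hsup : ∀ y, y ∉ Ico (-((2 * X : ℕ) : ℤ)) ((2 * X : ℕ) : ℤ) →
        DD ((q : ℤ) * (b * x.1 - b' * x.2)) f (y + b' * q * x.2) = 0 := by
      intro y hy
      refine ll7_DD0 _ _ _ (hf.sup _ fun h => hy ?_)
      rw [mem_Ico] at h ⊢
      push_cast
      constructor <;> linarith [h.1, h.2]
    have h1 := hC (2 * X) M H b b' q (by omega) hM hH (by omega) hbb (Uf (s := s) f (b * q * x.1))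
      (cU (Uf (s := s) f (b' * q * x.2))) (fun ω y => ll7_Uf_le f hf.le _ ω y) (fun ω y => by
        unfold cU
        rw [RCLike.norm_conj]
        exact ll7_Uf_le f hf.le _ ω y) (fun y hy => (congrFun hfun y).trans (hsup y hy))
    rw [hfun, LL7_shift X (2 * X) s H _ (b' * q * x.2) (DD ((q : ℤ) * (b * x.1 - b' * x.2)) f)
      (fun y hy => ll7_DD0 _ _ _ (hf.sup y hy)) hsup, ← MQ_NU X s H hH] at h1
    push_cast at h1
    have h3 : ((b : ℤ) * b' * q) = ((b * b' * q : ℕ) : ℤ) := by push_cast; rfl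
    rw [h3] at h1
    exact h1
  refine (pow_le_pow_left₀ (le_max_left _ _) (max_le hSP0 hSP) _).trans (hJ.trans ?_)
  have hfin : ∑ x ∈ S, fw M x.1 * fw M x.2 / (M : ℝ) ^ 2 * ‖T x‖ ^ (2 ^ s) ≤ C * (2 * (X : ℝ)) ^ (2 ^ s - 1) *
      ((m + 4 * X * ((4 * K + Nat.gcd b b' * R / K) / M)) + 2 * X * (((b : ℝ) + b') * H / M)) := by
    calc ∑ x ∈ S, fw M x.1 * fw M x.2 / (M : ℝ) ^ 2 * ‖T x‖ ^ (2 ^ s) ≤
        ∑ x ∈ S, fw M x.1 * fw M x.2 / (M : ℝ) ^ 2 * (C * (2 * (X : ℝ)) ^ (2 ^ s - 1) *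
          ((MQ X L (DD ((q : ℤ) * (b * x.1 - b' * x.2)) f)).re + 2 * X * (((b : ℝ) + b') * H / M))) := by
          refine Finset.sum_le_sum fun x hx => mul_le_mul_of_nonneg_left (hpt x hx) ?_
          have := hw0 x
          positivity
      _ = C * (2 * (X : ℝ)) ^ (2 ^ s - 1) * ((∑ x ∈ S, fw M x.1 * fw M x.2 *
          (MQ X L (DD ((q : ℤ) * (b * x.1 - b' * x.2)) f)).re) / (M : ℝ) ^ 2 +
          (∑ x ∈ S, fw M x.1 * fw M x.2) / (M : ℝ) ^ 2 * (2 * X * (((b : ℝ) + b') * H / M))) := by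
          rw [Finset.sum_div, Finset.sum_div, Finset.sum_mul, ← Finset.sum_add_distrib, Finset.mul_sum]
          refine sum_congr rfl fun x _ => ?_
          ring
      _ ≤ C * (2 * (X : ℝ)) ^ (2 ^ s - 1) *
          ((m + 4 * X * ((4 * K + Nat.gcd b b' * R / K) / M)) + 2 * X * (((b : ℝ) + b') * H / M)) := by
          refine mul_le_mul_of_nonneg_left ?_ (by positivity)
          rw [hws, div_self (by positivity), one_mul]
          linarith
  refine hfin.trans ?_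
  refine ll7_num (2 ^ s) hn1 X C m _ _ _ hX0.le (by linarith) hm0 (by positivity) ?_
  have hbr : (b : ℝ) + b' ≤ 4 * K := by
    have : b + b' ≤ 4 * K := by omega
    exact_mod_cast this
  have h5 : ((b : ℝ) + b') * H / M ≤ 4 * (K * H / M) := by
    rw [← mul_div_assoc]
    refine div_le_div_of_nonneg_right ?_ hM0.le
    nlinarith
  have hg0 : (0 : ℝ) ≤ (Nat.gcd b b' : ℝ) * R / K / M := by positivity
  have hk0 : (0 : ℝ) ≤ (K : ℝ) * H / M := by positivity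
  have hk1 : (0 : ℝ) ≤ (K : ℝ) / M := by positivity
  have e1 : (4 * (K : ℝ) + Nat.gcd b b' * R / K) / M = 4 * (K / M) + Nat.gcd b b' * R / K / M := by ring
  have e2 : ((K : ℝ) * H + K + Nat.gcd b b' * R / K) / M = K * H / M + K / M + Nat.gcd b b' * R / K / M := by ring
  rw [e1, e2]
  have h6 := mul_le_mul_of_nonneg_left h5 hX0.le
  have h7 := mul_nonneg hX0.le hg0
  have h8 := mul_nonneg hX0.le hk0
  have h9 := mul_nonneg hX0.le hk1
  linarith

end Pool.Agent.HUK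
end
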