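import Pool.Agent.Lib.H59M.M1.M005
import Pool.Agent.Lib.H59M.M1.M021
import Pool.Agent.Lib.H59M.M1.M026
import Pool.Agent.Lib.H59M.M1.M028
import Pool.Agent.Lib.H59M.M1.M029

/-! Merged copies (to shorten the build) of Lib.HPC.Defs, Lib.HUK.KB10, Lib.HPP.C2, Lib.HPP.C3, Lib.HPP.C7a, Lib.HPP.B5, Lib.HPP.B6, Lib.HPP.B7a, Lib.HUK.K0, Lib.HUK.KA1, Lib.HUK.KA6, Lib.HUK.KA7, Lib.HUK.KA9, Lib.HUK.KA10, Lib.HUK.KA11, Lib.HUK.KA0, Lib.HUK.KA8, Lib.HUK.KA13. -/

-- from Lib.HPC.Defs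
section

/-!
# Project HPC: systems of polynomials in one parameter, power saving. Definitions

Paper proof: `PROOF.md`. All functions live on `ZMod M`; a direction is a law `p` on `ZMod M`. `DD` is the difference
operator `f(y) conj f(y + h)` of `HUK/Defs` (rules in `HUK/P0`).
-/

open Finset Polynomial

namespace Pool.Agent.HPC

open Pool.Agent.HUK (DD Bdd GG)

noncomputable section















/-- The polynomials `R j` of degree at most `D` with coefficients `r j` of `x^D`. -/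
def RD {q : ℕ} (D : ℕ) (r : Fin q → ℤ) (R : Fin q → ℤ[X]) : Prop := ∀ j, (R j).natDegree ≤ D ∧ (R j).coeff D = r j




/-- **Theorem P over the integers** (the form used in modules F and G). -/
def ThmPZ (D q : ℕ) (r : Fin q → ℤ) : Prop := ∃ s : ℕ, 2 ≤ s ∧ ∀ (C0 : ℕ) (κ : ℝ), 0 < κ → ∃ δ : ℝ, 0 < δ ∧
  ∃ X0 : ℕ, ∀ X : ℕ, X0 ≤ X → ∀ R : Fin q → ℤ[X], RD D r R → ∀ n0 L : ℕ, n0 + L ≤ C0 * X →
  ∀ (f0 : ℤ → ℂ) (f : Fin q → ℤ → ℂ) (S : Fin q → Finset ℤ), Bdd (C0 * X ^ D) f0 → (∀ j y, ‖f j y‖ ≤ 1) →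
  (∀ j, (S j).card ≤ C0 * X ^ D) → (∀ j y, y ∉ S j → f j y = 0) →
  GG (C0 * X ^ D) s f0 ≤ (X : ℝ) ^ ((D : ℝ) * (s + 1) - κ) →
  ‖∑ t ∈ Ico (-((C0 * X ^ D : ℕ) : ℤ)) ((C0 * X ^ D : ℕ) : ℤ), ∑ n ∈ Ico n0 (n0 + L),
    f0 t * ∏ j, f j (t + (R j).eval (n : ℤ))‖ ≤ (X : ℝ) ^ ((D : ℝ) + 1 - δ)

end

end Pool.Agent.HPC
end

-- from Lib.HUK.KB10
section

/-!
# Project HUK, chunk KB10 (M/L): frozen coefficient, short averages
-/

open Finset

namespace Pool.Agent.HUK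

theorem kb10_cjn (n : ℕ) (z : ℂ) : ‖cj n z‖ = ‖z‖ := by
  unfold cj
  split_ifs
  · rfl
  · exact RCLike.norm_conj z

theorem kb10_cjs (n : ℕ) (a b : ℂ) : cj n (a - b) = cj n a - cj n b := by
  unfold cj
  split_ifs
  · rfl
  · exact map_sub _ _ _

theorem kb10_prod {ι : Type*} [DecidableEq ι] (s : Finset ι) (u u' : ι → ℂ) (S ε : ℝ) (hS : 0 ≤ S) (hε : 0 ≤ ε)
    (hu : ∀ i, ‖u i‖ ≤ S) (hu' : ∀ i, ‖u' i‖ ≤ S) (h : ∀ i, ‖u i - u' i‖ ≤ ε * S) :
    ‖∏ i ∈ s, u i - ∏ i ∈ s, u' i‖ ≤ s.card * ε * S ^ s.card := by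
  induction s using Finset.induction_on with
  | empty => simp
  | insert a t ha ih =>
    rw [prod_insert ha, prod_insert ha, card_insert_of_notMem ha]
    have h1 : u a * ∏ i ∈ t, u i - u' a * ∏ i ∈ t, u' i =
        (u a - u' a) * ∏ i ∈ t, u i + u' a * (∏ i ∈ t, u i - ∏ i ∈ t, u' i) := by ring
    rw [h1]
    have h2 : ‖∏ i ∈ t, u i‖ ≤ S ^ t.card := by
      rw [norm_prod]
      calc _ ≤ ∏ i ∈ t, S := prod_le_prod (fun _ _ => norm_nonneg _) fun i _ => hu i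
        _ = _ := prod_const _
    calc ‖(u a - u' a) * ∏ i ∈ t, u i + u' a * (∏ i ∈ t, u i - ∏ i ∈ t, u' i)‖ ≤
        ‖u a - u' a‖ * ‖∏ i ∈ t, u i‖ + ‖u' a‖ * ‖∏ i ∈ t, u i - ∏ i ∈ t, u' i‖ := by
          refine (norm_add_le _ _).trans ?_
          rw [norm_mul, norm_mul]
      _ ≤ ε * S * S ^ t.card + S * (t.card * ε * S ^ t.card) :=
          add_le_add (mul_le_mul (h a) h2 (norm_nonneg _) (by positivity)) (mul_le_mul (hu' a) ih (norm_nonneg _) hS)
      _ = _ := by push_cast; ring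

/-- Perturbation of the product over the vertices. Proof. `cj n` is multiplicative and an isometry, additive. Replace the factors one by one
(`Finset.prod_add_one..`, or induction over a finset of vertices): for `n` factors `‖∏ u_i - ∏ u'_i‖ ≤ n ε S^n` if all `‖u_i‖, ‖u'_i‖ ≤ S`, `1 ≤ S`,
`‖u_i - u'_i‖ ≤ ε S`; here `u = cj (a ω * b ω)`, `u' = cj (a0 * b ω)`, `n = 2^k`. -/
theorem KB10_pert {k : ℕ} (a b : (Fin k → Bool) → ℂ) (a0 : ℂ) (S ε : ℝ) (hS : 1 ≤ S) (ha : ∀ ω, ‖a ω‖ ≤ 1) (ha0 : ‖a0‖ ≤ 1)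
    (hb : ∀ ω, ‖b ω‖ ≤ S) (hε : ∀ ω, ‖a ω - a0‖ ≤ ε) :
    ‖∏ ω, cj (sg ω) (a ω * b ω) - (∏ ω : Fin k → Bool, cj (sg ω) a0) * ∏ ω, cj (sg ω) (b ω)‖ ≤ 2 ^ k * ε * S ^ (2 ^ k) := by
  have hε0 : 0 ≤ ε := (norm_nonneg _).trans (hε fun _ => false)
  have hS0 : 0 ≤ S := by linarith
  rw [← prod_mul_distrib]
  have hc : (univ : Finset (Fin k → Bool)).card = 2 ^ k := by
    rw [card_univ, Fintype.card_fun, Fintype.card_bool, Fintype.card_fin]
  have h1 := kb10_prod (univ : Finset (Fin k → Bool)) (fun ω => cj (sg ω) (a ω * b ω))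
    (fun ω => cj (sg ω) a0 * cj (sg ω) (b ω)) S ε hS0 hε0 (fun ω => ?_) (fun ω => ?_) (fun ω => ?_)
  · rw [hc] at h1
    push_cast at h1
    exact h1
  · rw [kb10_cjn, norm_mul]
    exact (mul_le_of_le_one_left (norm_nonneg _) (ha ω)).trans (hb ω)
  · rw [norm_mul, kb10_cjn, kb10_cjn]
    exact (mul_le_of_le_one_left (norm_nonneg _) ha0).trans (hb ω)
  · rw [← p0_cj_mul, ← kb10_cjs, kb10_cjn, ← sub_mul, norm_mul]
    exact mul_le_mul (hε ω) (hb ω) (norm_nonneg _) hε0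

/-- `|vl ω j| ≤ k² H` for `j ∈ bxS k H`. -/
theorem KB10_vl {k : ℕ} (H : ℕ) (ω : Fin k → Bool) (j : Fin k → ℤ) (hj : j ∈ bxS k H) : |vl ω j| ≤ (k : ℤ) ^ 2 * H := by
  unfold vl vt
  refine (abs_sum_le_sum_abs _ _).trans ?_
  calc ∑ i, |if ω i = true then lam k i * j i else 0| ≤ ∑ i : Fin k, (k : ℤ) * H := by
        refine sum_le_sum fun i _ => ?_
        have h1 : |j i| ≤ H := by
          have := mem_Ioo.1 (Fintype.mem_piFinset.1 hj i)
          exact abs_le.2 ⟨by omega, by omega⟩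
        have h2 : |lam k i| ≤ k := by
          unfold lam
          have := i.2
          rw [abs_le]
          constructor <;> omega
        split_ifs
        · rw [abs_mul]
          exact mul_le_mul h2 h1 (abs_nonneg _) (by positivity)
        · rw [abs_zero]
          positivity
    _ = (k : ℤ) ^ 2 * H := by
        rw [sum_const, card_univ, Fintype.card_fin, nsmul_eq_mul]
        ring

theorem kb10_lip (β : ℤ → ℂ) (δ : ℝ) (u v : ℤ) (hL : ∀ m, u ≤ m → m + 1 < v → ‖β (m + 1) - β m‖ ≤ δ) (d : ℕ) :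
    ∀ m, u ≤ m → m + d < v → ‖β (m + d) - β m‖ ≤ d * δ := by
  induction d with
  | zero =>
    intro m _ _
    simp
  | succ d ih =>
    intro m h1 h2
    push_cast at h2 ⊢
    have h3 := ih m h1 (by omega)
    have h4 := hL (m + d) (by omega) (by omega)
    have h5 : β (m + (d + 1)) - β m = (β (m + d + 1) - β (m + d)) + (β (m + d) - β m) := by
      rw [← add_assoc]
      ring
    rw [h5]
    calc _ ≤ _ := norm_add_le _ _
      _ ≤ δ + d * δ := add_le_add h4 h3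
      _ = _ := by ring

theorem kb10_lip' (β : ℤ → ℂ) (δ : ℝ) (hδ : 0 ≤ δ) (u v : ℤ) (hL : ∀ m, u ≤ m → m + 1 < v → ‖β (m + 1) - β m‖ ≤ δ)
    (x y D : ℤ) (hx : u ≤ x) (hx' : x < v) (hy : u ≤ y) (hy' : y < v) (hD : |x - y| ≤ D) : ‖β x - β y‖ ≤ (D : ℝ) * δ := by
  have key : ∀ x y : ℤ, u ≤ x → y < v → x ≤ y → y - x ≤ D → ‖β y - β x‖ ≤ (D : ℝ) * δ := by
    intro x y h1 h2 h3 h4
    obtain ⟨d, hd⟩ := Int.eq_ofNat_of_zero_le (sub_nonneg.2 h3)
    have h5 : y = x + d := by omega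
    rw [h5]
    refine (kb10_lip β δ u v hL d x h1 (by omega)).trans (mul_le_mul_of_nonneg_right ?_ hδ)
    have : (d : ℤ) ≤ D := by omega
    exact_mod_cast this
  rw [abs_le] at hD
  rcases le_total x y with h | h
  · rw [norm_sub_rev]
    exact key x y hx hy' h (by omega)
  · exact key y x hy hx' h (by omega)

theorem kb10_shift (G : ℤ → ℂ) (u v : ℤ) (H : ℕ) (hG : ∀ m, m ∉ Ico u v → G m = 0) :
    (H : ℂ) * ∑ m ∈ Ico u v, G m = ∑ n ∈ Ico (u - H) v, ∑ l ∈ range H, G (n + l) := by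
  rw [Finset.sum_comm]
  have h1 : ∀ l ∈ range H, ∑ n ∈ Ico (u - H) v, G (n + l) = ∑ m ∈ Ico u v, G m := by
    intro l hl
    rw [mem_range] at hl
    have h2 : ∑ n ∈ Ico (u - H) v, G (n + l) = ∑ m ∈ Ico (u - H + l) (v + l), G m := by
      refine Finset.sum_bij' (fun n _ => n + l) (fun m _ => m - l) ?_ ?_ ?_ ?_ ?_
      · intro n hn
        rw [mem_Ico] at hn ⊢
        omega
      · intro n hn
        rw [mem_Ico] at hn ⊢
        omega
      · intro n _
        ring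
      · intro n _
        ring
      · intro n _
        rfl
    rw [h2]
    symm
    refine Finset.sum_subset (fun m hm => ?_) fun m _ hm => hG m hm
    rw [mem_Ico] at hm ⊢
    omega
  rw [sum_congr rfl h1, sum_const, card_range, nsmul_eq_mul]

theorem kb10_ite (s t : Finset ℤ) (a : ℤ → ℝ) (ha : ∀ n, 0 ≤ a n) : ∑ n ∈ s, (if n ∈ t then a n else 0) ≤ ∑ n ∈ t, a n := by
  rw [Finset.sum_ite_mem]
  exact sum_le_sum_of_subset_of_nonneg inter_subset_right fun n _ _ => ha n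

theorem kb10_card (a b : ℤ) (h : a ≤ b) : ((Ico a b).card : ℝ) = b - a := by
  rw [Int.card_Ico]
  have h1 : (((b - a).toNat : ℤ) : ℝ) = ((b - a : ℤ) : ℝ) := by rw [Int.toNat_of_nonneg (by omega)]
  push_cast at h1
  exact h1

theorem kb10_DLn {k : ℕ} (F : ℤ → ℂ) (S : ℝ) (hF : ∀ m, ‖F m‖ ≤ S) (h : Fin k → ℤ) (m : ℤ) :
    ‖DL (List.ofFn h) F m‖ ≤ S ^ (2 ^ k) := by
  rw [DL_prod, norm_prod]
  calc _ ≤ ∏ ω : Fin k → Bool, S := prod_le_prod (fun _ _ => norm_nonneg _) fun ω _ => by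
          rw [kb10_cjn]
          exact hF _
    _ = S ^ (2 ^ k) := by rw [prod_const, card_univ, Fintype.card_fun, Fintype.card_bool, Fintype.card_fin]

/-- The good values of `n`. -/
theorem kb10_good {k : ℕ} (β V : ℤ → ℂ) (S δ : ℝ) (u v : ℤ) (H : ℕ) (hS : 1 ≤ S) (hδ : 0 ≤ δ)
    (hβ : ∀ m, u ≤ m → m < v → ‖β m‖ ≤ 1) (hL : ∀ m, u ≤ m → m + 1 < v → ‖β (m + 1) - β m‖ ≤ δ) (hV : ∀ m, ‖V m‖ ≤ S)
    (j : Fin k → ℤ) (hj : j ∈ bxS k H) (n : ℤ) (hn : u + (k : ℤ) ^ 2 * H ≤ n) (hn' : n < v - (k : ℤ) ^ 2 * H - H) :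
    ‖∑ l ∈ range H, DL (List.ofFn fun i => lam k i * j i) (fun m => if m ∈ Ico u v then β m * V m else 0) (n + l)‖ ≤
      ‖∑ l ∈ range H, DL (List.ofFn fun i => lam k i * j i) V (n + l)‖ +
      H * (2 ^ k * ((H + (k : ℝ) ^ 2 * H) * δ) * S ^ (2 ^ k)) := by
  have hH1 : (0 : ℤ) ≤ (k : ℤ) ^ 2 * H := by positivity
  have hβn : ‖β n‖ ≤ 1 := hβ n (by omega) (by omega)
  obtain ⟨P, hP⟩ : ∃ P : ℂ, P = ∏ ω : Fin k → Bool, cj (sg ω) (β n) := ⟨_, rfl⟩
  have hPn : ‖P‖ ≤ 1 := by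
    rw [hP, norm_prod]
    exact prod_le_one (fun _ _ => norm_nonneg _) fun ω _ => by
      rw [kb10_cjn]
      exact hβn
  have key : ∀ l ∈ range H, ‖DL (List.ofFn fun i => lam k i * j i) (fun m => if m ∈ Ico u v then β m * V m else 0) (n + l) -
      P * DL (List.ofFn fun i => lam k i * j i) V (n + l)‖ ≤ 2 ^ k * ((H + (k : ℝ) ^ 2 * H) * δ) * S ^ (2 ^ k) := by
    intro l hl
    rw [mem_range] at hl
    have hin : ∀ ω : Fin k → Bool, u ≤ n + l + vl ω j ∧ n + l + vl ω j < v := by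
      intro ω
      have h1 := abs_le.1 (KB10_vl H ω j hj)
      constructor <;> omega
    have h1 := KB10_pert (fun ω => β (n + l + vl ω j)) (fun ω => V (n + l + vl ω j)) (β n) S ((H + (k : ℝ) ^ 2 * H) * δ) hS
      (fun ω => hβ _ (hin ω).1 (hin ω).2) hβn (fun ω => hV _) (fun ω => ?_)
    · rw [DL_prod, DL_prod, hP]
      refine le_trans (le_of_eq ?_) h1
      congr 2
      refine prod_congr rfl fun ω _ => ?_
      have h2 : n + l + vt ω (fun i => lam k i * j i) ∈ Ico u v := mem_Ico.2 (hin ω)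
      rw [if_pos h2]
      rfl
    · have h2 := kb10_lip' β δ hδ u v hL (n + l + vl ω j) n (H + (k : ℤ) ^ 2 * H) (hin ω).1 (hin ω).2 (by omega) (by omega) (by
        have h1 := abs_le.1 (KB10_vl H ω j hj)
        rw [abs_le]
        constructor <;> omega)
      push_cast at h2
      exact h2
  have h1 : ∑ l ∈ range H, DL (List.ofFn fun i => lam k i * j i) (fun m => if m ∈ Ico u v then β m * V m else 0) (n + l) =
      P * ∑ l ∈ range H, DL (List.ofFn fun i => lam k i * j i) V (n + l) +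
      ∑ l ∈ range H, (DL (List.ofFn fun i => lam k i * j i) (fun m => if m ∈ Ico u v then β m * V m else 0) (n + l) -
        P * DL (List.ofFn fun i => lam k i * j i) V (n + l)) := by
    rw [sum_sub_distrib, ← Finset.mul_sum]
    ring
  rw [h1]
  refine (norm_add_le _ _).trans (add_le_add ?_ ?_)
  · rw [norm_mul]
    exact mul_le_of_le_one_left (norm_nonneg _) hPn
  · refine (norm_sum_le _ _).trans ((sum_le_sum key).trans (le_of_eq ?_))
    rw [sum_const, card_range, nsmul_eq_mul]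

theorem kb10_one {k : ℕ} (β V : ℤ → ℂ) (S δ : ℝ) (u v : ℤ) (H : ℕ) (hH : 1 ≤ H) (huv : u ≤ v) (hS : 1 ≤ S) (hδ : 0 ≤ δ)
    (hβ : ∀ m, u ≤ m → m < v → ‖β m‖ ≤ 1) (hL : ∀ m, u ≤ m → m + 1 < v → ‖β (m + 1) - β m‖ ≤ δ) (hV : ∀ m, ‖V m‖ ≤ S)
    (j : Fin k → ℤ) (hj : j ∈ bxS k H) :
    ‖∑ m ∈ Ico u v, DL (List.ofFn fun i => lam k i * j i) (fun m => if m ∈ Ico u v then β m * V m else 0) m‖ ≤
      (∑ n ∈ Ico u v, ‖∑ l ∈ range H, DL (List.ofFn fun i => lam k i * j i) V (n + l)‖) / H +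
      (2 : ℝ) ^ (k + 1) * (1 + (k : ℝ) ^ 2) * S ^ (2 ^ k) * ((v - u : ℝ) * (H * δ) + H) := by
  have hHr : (1 : ℝ) ≤ H := by exact_mod_cast hH
  have hH0 : (0 : ℝ) < H := by linarith
  have hS0 : 0 < S := by linarith
  obtain ⟨G, hG⟩ : ∃ G : ℤ → ℂ, G = DL (List.ofFn fun i => lam k i * j i) (fun m => if m ∈ Ico u v then β m * V m else 0) :=
    ⟨_, rfl⟩
  have hgood := fun n hn hn' => kb10_good β V S δ u v H hS hδ hβ hL hV j hj n hn hn'
  rw [← hG] at hgood ⊢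
  have hGs : ∀ m, m ∉ Ico u v → G m = 0 := by
    intro m hm
    rw [hG]
    exact DL_supp _ _ _ (if_neg hm)
  have hGn : ∀ m, ‖G m‖ ≤ S ^ (2 ^ k) := by
    intro m
    rw [hG]
    refine kb10_DLn _ S (fun m => ?_) _ m
    split_ifs with h
    · rw [mem_Ico] at h
      rw [norm_mul]
      exact (mul_le_of_le_one_left (norm_nonneg _) (hβ m h.1 h.2)).trans (hV m)
    · rw [norm_zero]
      exact hS0.le
  have hsum := kb10_shift G u v H hGs
  obtain ⟨H1, hH1⟩ : ∃ H1 : ℤ, H1 = (k : ℤ) ^ 2 * H := ⟨_, rfl⟩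
  have hH10 : 0 ≤ H1 := by rw [hH1]; positivity
  have hH1r : (H1 : ℝ) = (k : ℝ) ^ 2 * H := by rw [hH1]; push_cast; ring
  obtain ⟨g, hg⟩ : ∃ g : ℤ → ℝ, g = fun n => ‖∑ l ∈ range H, DL (List.ofFn fun i => lam k i * j i) V (n + l)‖ := ⟨_, rfl⟩
  have hg0 : ∀ n, 0 ≤ g n := by
    intro n
    rw [hg]
    exact norm_nonneg _
  obtain ⟨E1, hE1⟩ : ∃ E1 : ℝ, E1 = H * (2 ^ k * ((H + (k : ℝ) ^ 2 * H) * δ) * S ^ (2 ^ k)) := ⟨_, rfl⟩
  have hE10 : 0 ≤ E1 := by rw [hE1]; positivity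
  obtain ⟨E2, hE2⟩ : ∃ E2 : ℝ, E2 = H * S ^ (2 ^ k) := ⟨_, rfl⟩
  have hE20 : 0 ≤ E2 := by rw [hE2]; positivity
  have hpt : ∀ n ∈ Ico (u - H) v, ‖∑ l ∈ range H, G (n + l)‖ ≤ (if n ∈ Ico u v then g n + E1 else 0) +
      (if n ∈ Ico (u - H) (u + H1) then E2 else 0) + (if n ∈ Ico (v - H1 - H) v then E2 else 0) := by
    intro n hn
    have hn0 := mem_Ico.1 hn
    have hbad : ‖∑ l ∈ range H, G (n + l)‖ ≤ E2 := by
      refine (norm_sum_le _ _).trans ((sum_le_sum fun l _ => hGn _).trans (le_of_eq ?_))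
      rw [sum_const, card_range, nsmul_eq_mul, hE2]
    have h0 : 0 ≤ (if n ∈ Ico u v then g n + E1 else 0) := by
      split_ifs
      · exact add_nonneg (hg0 n) hE10
      · exact le_refl _
    by_cases h1 : n ∈ Ico (u - H) (u + H1)
    · rw [if_pos h1]
      have h2 : 0 ≤ (if n ∈ Ico (v - H1 - H) v then E2 else 0) := by
        split_ifs
        · exact hE20
        · exact le_refl _
      linarith
    · by_cases h2 : n ∈ Ico (v - H1 - H) v
      · rw [if_neg h1, if_pos h2]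
        linarith
      · rw [mem_Ico] at h1 h2
        have h3 : u + H1 ≤ n := by omega
        have h4 : n < v - H1 - H := by omega
        rw [if_pos (mem_Ico.2 ⟨by omega, hn0.2⟩), if_neg (by rw [mem_Ico]; exact h1), if_neg (by rw [mem_Ico]; exact h2),
          add_zero, add_zero, hg, hE1]
        exact hgood n (by rw [← hH1]; exact h3) (by rw [← hH1]; exact h4)
  have hb1 : (H : ℝ) * ‖∑ m ∈ Ico u v, G m‖ ≤ (∑ n ∈ Ico u v, g n) + (v - u : ℝ) * E1 + 2 * ((H + H1) * E2) := by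
    calc (H : ℝ) * ‖∑ m ∈ Ico u v, G m‖ = ‖(H : ℂ) * ∑ m ∈ Ico u v, G m‖ := by rw [norm_mul, Complex.norm_natCast]
      _ = ‖∑ n ∈ Ico (u - H) v, ∑ l ∈ range H, G (n + l)‖ := by rw [hsum]
      _ ≤ ∑ n ∈ Ico (u - H) v, ‖∑ l ∈ range H, G (n + l)‖ := norm_sum_le _ _
      _ ≤ ∑ n ∈ Ico (u - H) v, ((if n ∈ Ico u v then g n + E1 else 0) +
          (if n ∈ Ico (u - H) (u + H1) then E2 else 0) + (if n ∈ Ico (v - H1 - H) v then E2 else 0)) := sum_le_sum hpt
      _ = ∑ n ∈ Ico (u - H) v, (if n ∈ Ico u v then g n + E1 else 0) +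
          ∑ n ∈ Ico (u - H) v, (if n ∈ Ico (u - H) (u + H1) then E2 else 0) +
          ∑ n ∈ Ico (u - H) v, (if n ∈ Ico (v - H1 - H) v then E2 else 0) := by
          rw [sum_add_distrib, sum_add_distrib]
      _ ≤ ∑ n ∈ Ico u v, (g n + E1) + ∑ n ∈ Ico (u - H) (u + H1), E2 + ∑ n ∈ Ico (v - H1 - H) v, E2 :=
          add_le_add (add_le_add (kb10_ite _ _ _ fun n => add_nonneg (hg0 n) hE10) (kb10_ite _ _ _ fun _ => hE20))
            (kb10_ite _ _ _ fun _ => hE20)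
      _ = _ := by
          rw [sum_add_distrib, sum_const, sum_const, sum_const, nsmul_eq_mul, nsmul_eq_mul, nsmul_eq_mul, kb10_card u v huv,
            kb10_card _ _ (by omega), kb10_card _ _ (by omega)]
          push_cast
          ring
  have hvu : (0 : ℝ) ≤ v - u := by
    have : (u : ℝ) ≤ v := by exact_mod_cast huv
    linarith
  have hg' : ∑ n ∈ Ico u v, ‖∑ l ∈ range H, DL (List.ofFn fun i => lam k i * j i) V (n + l)‖ = ∑ n ∈ Ico u v, g n := by
    rw [hg]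
  rw [hg']
  have hb2 : ‖∑ m ∈ Ico u v, G m‖ ≤ (∑ n ∈ Ico u v, g n) / H + ((v - u : ℝ) * E1 + 2 * ((H + H1) * E2)) / H := by
    rw [← add_div, le_div_iff₀ hH0, mul_comm]
    linarith
  refine hb2.trans (add_le_add le_rfl ?_)
  rw [div_le_iff₀ hH0, hE1, hE2, hH1r]
  have hA : (0 : ℝ) ≤ H * S ^ (2 ^ k) * (1 + (k : ℝ) ^ 2) * H := by positivity
  have h2k : (1 : ℝ) ≤ 2 ^ k := one_le_pow₀ (by norm_num)
  have h3 : (v - u : ℝ) * (H * (2 ^ k * ((H + (k : ℝ) ^ 2 * H) * δ) * S ^ (2 ^ k))) +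
      2 * ((H + (k : ℝ) ^ 2 * H) * (H * S ^ (2 ^ k))) =
      (H * S ^ (2 ^ k) * (1 + (k : ℝ) ^ 2) * H) * (2 ^ k * ((v - u : ℝ) * δ) + 2) := by ring
  have h4 : (2 : ℝ) ^ (k + 1) * (1 + (k : ℝ) ^ 2) * S ^ (2 ^ k) * ((v - u : ℝ) * (H * δ) + H) * H =
      (H * S ^ (2 ^ k) * (1 + (k : ℝ) ^ 2) * H) * (2 * 2 ^ k * ((v - u : ℝ) * δ) + 2 * 2 ^ k) := by
    rw [pow_succ]
    ring
  rw [h3, h4]
  refine mul_le_mul_of_nonneg_left ?_ hA
  have h5 : 0 ≤ 2 ^ k * ((v - u : ℝ) * δ) := by positivity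
  linarith

/-- Proof. Fix `j ∈ bxS k H`, `G = DL (..) F`, which vanishes outside `[u, v)` (`DL_supp`), `‖G‖ ≤ S^(2^k)` (`DL_prod`), `H1 = k² H`. Then
`H * ∑_{m ∈ Ico u v} G m = ∑_{n ∈ Ico (u - H) v} ∑_{l < H} G (n + l)`. For `u + H1 ≤ n < v - H1 - H` all the points `n + l + vl ω j` are in `[u, v)`
(`KB10_vl`), and `KB10_pert` with `a ω = β (n + l + vl ω j)`, `a0 = β n`, `b ω = V (n + l + vl ω j)`, `ε = (H + H1) δ` (Lipschitz, step by step):
`‖∑_{l<H} G (n + l)‖ ≤ ‖∑_{l<H} DL (..) V (n + l)‖ + H 2^k (H + H1) δ S^(2^k)` (`‖∏ cj (β n)‖ ≤ 1`). At most `2 (H + H1)` other values of `n`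
(`u - H ≤ n < u + H1` or `v - H1 - H ≤ n < v`), each with `‖∑_{l<H} G‖ ≤ H S^(2^k)`. Divide by `H`, sum over the at most `(2 H)^k` values of `j`;
`H + H1 = (1 + k²) H`, `C = 2^(2k+2) (1 + k²)`. -/
theorem KB10_frozen (k : ℕ) : ∃ C : ℝ, 0 < C ∧ ∀ (β V : ℤ → ℂ) (S δ : ℝ) (u v : ℤ) (H : ℕ), 1 ≤ H → u ≤ v → 1 ≤ S → 0 ≤ δ →
    (∀ m, u ≤ m → m < v → ‖β m‖ ≤ 1) → (∀ m, u ≤ m → m + 1 < v → ‖β (m + 1) - β m‖ ≤ δ) → (∀ m, ‖V m‖ ≤ S) →
    ∑ j ∈ bxS k H, ‖∑ m ∈ Ico u v, DL (List.ofFn fun i => lam k i * j i) (fun m => if m ∈ Ico u v then β m * V m else 0) m‖ ≤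
      (∑ n ∈ Ico u v, ∑ j ∈ bxS k H, ‖∑ l ∈ range H, DL (List.ofFn fun i => lam k i * j i) V (n + l)‖) / H +
      C * (H : ℝ) ^ k * S ^ (2 ^ k) * ((v - u : ℝ) * (H * δ) + H) := by
  refine ⟨(2 : ℝ) ^ k * ((2 : ℝ) ^ (k + 1) * (1 + (k : ℝ) ^ 2)), by positivity, ?_⟩
  intro β V S δ u v H hH huv hS hδ hβ hL hV
  have hH0 : (0 : ℝ) < H := by exact_mod_cast hH
  have hvu : (0 : ℝ) ≤ v - u := by
    have : (u : ℝ) ≤ v := by exact_mod_cast huv
    linarith
  have hS0 : 0 < S := by linarith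
  have hcard : ((bxS k H).card : ℝ) ≤ 2 ^ k * (H : ℝ) ^ k := by
    have h1 : (bxS k H).card ≤ (2 * H) ^ k := by
      unfold bxS
      rw [Fintype.card_piFinset_const, Int.card_Ioo]
      refine Nat.pow_le_pow_left ?_ k
      omega
    calc ((bxS k H).card : ℝ) ≤ (((2 * H) ^ k : ℕ) : ℝ) := by exact_mod_cast h1
      _ = _ := by push_cast; rw [mul_pow]
  calc _ ≤ ∑ j ∈ bxS k H, ((∑ n ∈ Ico u v, ‖∑ l ∈ range H, DL (List.ofFn fun i => lam k i * j i) V (n + l)‖) / H +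
      (2 : ℝ) ^ (k + 1) * (1 + (k : ℝ) ^ 2) * S ^ (2 ^ k) * ((v - u : ℝ) * (H * δ) + H)) :=
        sum_le_sum fun j hj => kb10_one β V S δ u v H hH huv hS hδ hβ hL hV j hj
    _ = (∑ n ∈ Ico u v, ∑ j ∈ bxS k H, ‖∑ l ∈ range H, DL (List.ofFn fun i => lam k i * j i) V (n + l)‖) / H +
      (bxS k H).card * ((2 : ℝ) ^ (k + 1) * (1 + (k : ℝ) ^ 2) * S ^ (2 ^ k) * ((v - u : ℝ) * (H * δ) + H)) := by
        rw [sum_add_distrib, ← Finset.sum_div, Finset.sum_comm, sum_const, nsmul_eq_mul]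
    _ ≤ (∑ n ∈ Ico u v, ∑ j ∈ bxS k H, ‖∑ l ∈ range H, DL (List.ofFn fun i => lam k i * j i) V (n + l)‖) / H +
      (2 ^ k * (H : ℝ) ^ k) * ((2 : ℝ) ^ (k + 1) * (1 + (k : ℝ) ^ 2) * S ^ (2 ^ k) * ((v - u : ℝ) * (H * δ) + H)) :=
        add_le_add le_rfl (mul_le_mul_of_nonneg_right hcard (by positivity))
    _ = _ := by ring

end Pool.Agent.HUK
end

-- from Lib.HPP.C2
section

/-!
# Project HPP, C2 (M): box averages against the Gowers norm and the energies
-/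

open Finset

namespace Pool.Agent.HPP

variable {G : Type} [AddCommGroup G] [Fintype G]

theorem c2_nonneg : ∀ (s : ℕ) (f : G → ℂ), 0 ≤ Gs s f
  | 0, _ => norm_nonneg _
  | 1, _ => sq_nonneg _
  | s + 2, _ => sum_nonneg fun _ _ => c2_nonneg (s + 1) _


theorem Gs_nonneg (s : ℕ) (f : G → ℂ) : 0 ≤ Gs s f := by
  exact c2_nonneg s f


/-- **C2a.** The energy as a mean over characters. Proof. `‖ft d χ‖² = av_{x, x'} χ(a x - a x')` (`avc_mul_conj`), sum over all characters: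
`AddChar.sum_apply_eq_ite`; `card (AddChar G ℂ) = card G` (`AddChar.card_eq`). -/
theorem en_ft [DecidableEq G] (d : Dir G) : en d = (∑ χ : AddChar G ℂ, ‖ft d χ‖ ^ 2) / Fintype.card G := by
  have hc : (0 : ℝ) < Fintype.card G := Nat.cast_pos.2 Fintype.card_pos
  have h1 : ∀ χ : AddChar G ℂ, ((‖ft d χ‖ ^ 2 : ℝ) : ℂ) = avc fun p : d.ι × d.ι => χ (d.a p.1 - d.a p.2) := by
    intro χ
    rw [← Complex.normSq_eq_norm_sq, ← Complex.mul_conj]
    unfold ft
    rw [avc_mul_conj]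
    refine congrArg avc (funext fun p => ?_)
    rw [sub_eq_add_neg, AddChar.map_add_eq_mul, AddChar.map_neg_eq_conj]
  have h2 : ((∑ χ : AddChar G ℂ, ‖ft d χ‖ ^ 2 : ℝ) : ℂ) = (Fintype.card G : ℂ) * ((en d : ℝ) : ℂ) := by
    rw [Complex.ofReal_sum, sum_congr rfl fun χ _ => h1 χ, ← avc_sum]
    unfold en
    rw [av_ofReal, ← avc_mul_left]
    refine congrArg avc (funext fun p => ?_)
    rw [AddChar.sum_apply_eq_ite]
    by_cases h : d.a p.1 = d.a p.2
    · rw [if_pos h, if_pos (sub_eq_zero.2 h)]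
      simp
    · rw [if_neg h, if_neg (sub_ne_zero.2 h)]
      simp
  have h3 : (∑ χ : AddChar G ℂ, ‖ft d χ‖ ^ 2) = Fintype.card G * en d := by exact_mod_cast h2
  rw [h3, mul_div_cancel_left₀ _ hc.ne']

/-- The number of pairs with a given difference is at most the number of pairs which agree. -/
theorem c2_pairs [DecidableEq G] {ι : Type} [Fintype ι] (a : ι → G) (u : G) :
    (∑ p : ι × ι, if a p.2 - a p.1 = u then (1 : ℝ) else 0) ≤ ∑ p : ι × ι, if a p.1 = a p.2 then (1 : ℝ) else 0 := by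
  let μ : G → ℝ := fun v => ∑ x, if a x = v then (1 : ℝ) else 0
  have key : ∀ w : G, (∑ p : ι × ι, if a p.2 - a p.1 = w then (1 : ℝ) else 0) = ∑ v, μ v * μ (v + w) := by
    intro w
    have e1 : ∀ v, μ v * μ (v + w) = ∑ x, ∑ x', (if a x = v then (1 : ℝ) else 0) * (if a x' = v + w then (1 : ℝ) else 0) :=
      fun v => sum_mul_sum _ _ _ _
    rw [sum_congr rfl fun v _ => e1 v, sum_comm, Fintype.sum_prod_type]
    refine sum_congr rfl fun x _ => ?_
    rw [sum_comm]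
    refine sum_congr rfl fun x' _ => ?_
    simp only [ite_mul, one_mul, zero_mul]
    rw [sum_ite_eq]
    simp only [mem_univ, if_true]
    refine if_congr ?_ rfl rfl
    constructor
    · intro h
      rw [← h]
      abel
    · intro h
      rw [h]
      abel
  have e2 : (∑ p : ι × ι, if a p.1 = a p.2 then (1 : ℝ) else 0) = ∑ v, μ v * μ v := by
    have h0 := key 0
    simp only [add_zero] at h0
    rw [← h0]
    refine sum_congr rfl fun p _ => if_congr ?_ rfl rfl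
    rw [sub_eq_zero]
    exact eq_comm
  rw [key u, e2]
  have e3 : ∑ v, μ (v + u) * μ (v + u) = ∑ v, μ v * μ v := Equiv.sum_comp (Equiv.addRight u) fun v => μ v * μ v
  have e4 : ∑ v, μ v * μ (v + u) ≤ ∑ v, (μ v * μ v + μ (v + u) * μ (v + u)) / 2 :=
    sum_le_sum fun v _ => by nlinarith [sq_nonneg (μ v - μ (v + u))]
  rw [← sum_div, sum_add_distrib, e3] at e4
  linarith

/-- **C2b.** One direction: for `Φ ≥ 0` on `G`: `av_{x, x'} Φ(a x' - a x) ≤ (en d) ^ (1/2) (∑_u Φ(u)²) ^ (1/2)`. Proof. With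
`ρ(u) = av_{x, x'} [a x' - a x = u]`: `∑_u ρ(u) Φ(u) ≤ (∑ ρ²)^(1/2) (∑ Φ²)^(1/2)` and `∑_u ρ(u)² ≤ en d`, because
`ρ(u) ≤ en d`: `ρ(u) = ∑_v μ(v) μ(v + u) ≤ ∑ μ²  = en d` (Cauchy-Schwarz, `μ(v) = av_x [a x = v]`) and `∑ ρ = 1`. -/
theorem C2_one [DecidableEq G] (d : Dir G) (Φ : G → ℝ) (hΦ : ∀ u, 0 ≤ Φ u) :
    (av fun p : d.ι × d.ι => Φ (d.a p.2 - d.a p.1)) ≤ √(en d) * √(∑ u, Φ u ^ 2) := by
  have hn : (0 : ℝ) < Fintype.card (d.ι × d.ι) := Nat.cast_pos.2 Fintype.card_pos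
  let ρ : G → ℝ := fun u => (∑ p : d.ι × d.ι, if d.a p.2 - d.a p.1 = u then (1 : ℝ) else 0) / Fintype.card (d.ι × d.ι)
  have hρ0 : ∀ u, 0 ≤ ρ u := fun u => div_nonneg (sum_nonneg fun p _ => by split_ifs <;> norm_num) hn.le
  have hρ1 : ∀ u, ρ u ≤ en d := fun u => by
    show _ / _ ≤ av _
    unfold av
    exact div_le_div_of_nonneg_right (c2_pairs d.a u) hn.le
  have hρ2 : ∑ u, ρ u = 1 := by
    show ∑ u, (∑ p : d.ι × d.ι, if d.a p.2 - d.a p.1 = u then (1 : ℝ) else 0) / Fintype.card (d.ι × d.ι) = 1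
    rw [← sum_div, sum_comm, div_eq_one_iff_eq hn.ne']
    simp only [sum_ite_eq, mem_univ, if_true, sum_const, card_univ, nsmul_eq_mul, mul_one]
  have hρ3 : (av fun p : d.ι × d.ι => Φ (d.a p.2 - d.a p.1)) = ∑ u, ρ u * Φ u := by
    show _ = ∑ u, (∑ p : d.ι × d.ι, if d.a p.2 - d.a p.1 = u then (1 : ℝ) else 0) / Fintype.card (d.ι × d.ι) * Φ u
    unfold av
    simp only [div_mul_eq_mul_div]
    rw [← sum_div]
    congr 1
    simp only [sum_mul]
    rw [sum_comm]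
    refine sum_congr rfl fun p _ => ?_
    simp only [ite_mul, one_mul, zero_mul, sum_ite_eq, mem_univ, if_true]
  have hen : 0 ≤ en d := (hρ0 0).trans (hρ1 0)
  rw [hρ3]
  refine (Real.sum_mul_le_sqrt_mul_sqrt univ ρ Φ).trans (mul_le_mul_of_nonneg_right ?_ (Real.sqrt_nonneg _))
  refine Real.sqrt_le_sqrt ?_
  calc ∑ u, ρ u ^ 2 ≤ ∑ u, en d * ρ u := sum_le_sum fun u _ => by
        rw [sq]
        exact mul_le_mul_of_nonneg_right (hρ1 u) (hρ0 u)
    _ = en d := by rw [← mul_sum, hρ2, mul_one]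

/-- **C2.** Proof. Induction on `L` (generalise `f`). `[]`: `Gs 1 f = ‖∑ f‖²`. `d :: L`: `NN_cons`, `D2 (a x) (a x') f` is a translate of
`D2 0 (a x' - a x) f` (`D2_zero`, `NN_trans`); induction hypothesis; `C2_one` with `Φ u = √(Gs (L.length + 1) (D2 0 u f))`,
`∑_u Φ(u)² = Gs (L.length + 2) f`. -/
theorem C2_main [DecidableEq G] (L : List (Dir G)) : ∀ f : G → ℂ,
    NN L f ≤ (L.map fun d => √(en d)).prod * √(Gs (L.length + 1) f) := by
  induction L with
  | nil =>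
    intro f
    rw [NN_nil]
    show ‖∑ y, f y‖ ≤ 1 * √(‖∑ y, f y‖ ^ 2)
    rw [one_mul, Real.sqrt_sq (norm_nonneg _)]
  | cons d L ih =>
    intro f
    have hP : 0 ≤ (L.map fun d => √(en d)).prod := by
      refine List.prod_nonneg fun x hx => ?_
      obtain ⟨e, -, rfl⟩ := List.mem_map.1 hx
      exact Real.sqrt_nonneg _
    have h1 : ∀ p : d.ι × d.ι, NN L (D2 (d.a p.1) (d.a p.2) f) = NN L (D2 0 (d.a p.2 - d.a p.1) f) := by
      intro p
      have e : D2 (d.a p.1) (d.a p.2) f = fun y => D2 0 (d.a p.2 - d.a p.1) f (y + d.a p.1) :=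
        funext fun y => D2_zero _ _ f y
      rw [e, NN_trans]
    rw [NN_cons]
    calc (av fun p : d.ι × d.ι => NN L (D2 (d.a p.1) (d.a p.2) f))
        ≤ av fun p : d.ι × d.ι => (L.map fun d => √(en d)).prod *
            (fun u => √(Gs (L.length + 1) (D2 0 u f))) (d.a p.2 - d.a p.1) :=
          av_mono fun p => by
            rw [h1 p]
            exact ih _
      _ = (L.map fun d => √(en d)).prod * av fun p : d.ι × d.ι =>
            (fun u => √(Gs (L.length + 1) (D2 0 u f))) (d.a p.2 - d.a p.1) := av_mul_left _ _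
      _ ≤ (L.map fun d => √(en d)).prod * (√(en d) * √(∑ u, (fun u => √(Gs (L.length + 1) (D2 0 u f))) u ^ 2)) :=
          mul_le_mul_of_nonneg_left (C2_one d (fun u => √(Gs (L.length + 1) (D2 0 u f))) fun u => Real.sqrt_nonneg _) hP
      _ = ((d :: L).map fun d => √(en d)).prod * √(Gs ((d :: L).length + 1) f) := by
          have e : ∑ u, (fun u => √(Gs (L.length + 1) (D2 0 u f))) u ^ 2 = Gs ((d :: L).length + 1) f := by
            show ∑ u, √(Gs (L.length + 1) (D2 0 u f)) ^ 2 = ∑ u, Gs (L.length + 1) (D2 0 u f)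
            exact sum_congr rfl fun u _ => Real.sq_sqrt (Gs_nonneg _ _)
          rw [e, List.map_cons, List.prod_cons]
          ring

end Pool.Agent.HPP
end

-- from Lib.HPP.C3
section

/-!
# Project HPP, C3 (S/M): Markov
-/

open Finset

namespace Pool.Agent.HPP

variable {G : Type} [AddCommGroup G] [Fintype G]

theorem c3_en_nonneg {G : Type} [DecidableEq G] (d : Dir G) : 0 ≤ en d := by
  unfold en
  refine av_nonneg fun p => ?_
  split_ifs <;> norm_num

/-- **C3.** Proof. For every `j`: if all `en (δ k j) ≤ lam` then `NN ≤ lam ^ (n/2) √(Gs (n+1) f)` (`C2_main`, `List.map_ofFn`,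
`List.prod_ofFn`, product of `n` numbers `≤ √lam`); otherwise `NN ≤ N ≤ N ∑_k en (δ k j) / lam` (`NN_le`; one term is `≥ 1`). So always
`NN / N ≤ (∑_k en (δ k j)) / lam + √lam ^ n √(Gs (n+1) f) / N`; take averages (`av_add`, `av_sum`). -/
theorem C3_markov [DecidableEq G] {N : ℝ} (hN : 0 < N) {J : Type} [Fintype J] [Nonempty J] (n : ℕ) (δ : Fin n → J → Dir G)
    (lam : ℝ) (hlam : 0 < lam) (f : G → ℂ) (hf : FN N f) :
    (av fun j => NN (List.ofFn fun k => δ k j) f) / N ≤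
      (∑ k, av fun j => en (δ k j)) / lam + √lam ^ n * √(Gs (n + 1) f) / N := by
  have hpt : ∀ j, NN (List.ofFn fun k => δ k j) f / N ≤
      (∑ k, en (δ k j)) / lam + √lam ^ n * √(Gs (n + 1) f) / N := by
    intro j
    have hsum : 0 ≤ ∑ k, en (δ k j) := Finset.sum_nonneg fun k _ => c3_en_nonneg _
    have hlast : 0 ≤ √lam ^ n * √(Gs (n + 1) f) / N := by positivity
    by_cases hall : ∀ k, en (δ k j) ≤ lam
    · have h1 := C2_main (List.ofFn fun k => δ k j) f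
      rw [List.map_ofFn, List.prod_ofFn, List.length_ofFn] at h1
      have h2 : ∏ k, ((fun d : Dir G => √(en d)) ∘ fun k => δ k j) k ≤ √lam ^ n := by
        refine (Finset.prod_le_prod (fun k _ => Real.sqrt_nonneg _) fun k _ => Real.sqrt_le_sqrt (hall k)).trans ?_
        simp
      have h3 : NN (List.ofFn fun k => δ k j) f ≤ √lam ^ n * √(Gs (n + 1) f) :=
        h1.trans (mul_le_mul_of_nonneg_right h2 (Real.sqrt_nonneg _))
      have h4 := div_le_div_of_nonneg_right h3 hN.le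
      have h5 : 0 ≤ (∑ k, en (δ k j)) / lam := by positivity
      linarith
    · push Not at hall
      obtain ⟨k, hk⟩ := hall
      have h1 : lam ≤ ∑ k, en (δ k j) :=
        hk.le.trans (Finset.single_le_sum (f := fun k => en (δ k j)) (fun i _ => c3_en_nonneg _) (Finset.mem_univ k))
      have h2 : 1 ≤ (∑ k, en (δ k j)) / lam := by
        rw [le_div_iff₀ hlam]
        linarith
      have h3 : NN (List.ofFn fun k => δ k j) f / N ≤ 1 := by
        rw [div_le_one hN]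
        exact NN_le _ hf
      linarith
  rw [← av_div]
  refine (av_mono hpt).trans (le_of_eq ?_)
  rw [av_add, av_div, av_const, av_sum]

end Pool.Agent.HPP
end

-- from Lib.HPP.C7a
section

/-!
# Project HPP, C7a (M): from `ℤ` to `ℤ/M`
-/

open Finset Polynomial

namespace Pool.Agent.HPP

open Pool.Agent.HUK (DD DL DV bxS FF GG Bdd)

/-- The function on `ℤ/M` with the values of `f` in `(-M/2, M/2]`. -/
noncomputable def lft (M : ℕ) (f : ℤ → ℂ) : ZMod M → ℂ := fun y => f y.valMinAbs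

/-- `ZMod.valMinAbs_spec` / `ZMod.valMinAbs_def_pos`: for `2 |z| < M`. -/
theorem lft_val (M : ℕ) [NeZero M] (f : ℤ → ℂ) (z : ℤ) (h : 2 * |z| < M) : lft M f (z : ZMod M) = f z := by
  unfold lft
  congr 1
  rw [ZMod.valMinAbs_spec]
  refine ⟨rfl, ?_, ?_⟩
  · have := neg_abs_le z
    linarith
  · have := le_abs_self z
    linarith

/-- Support: the image of the finite set under the cast (if `f y = 0` off `S` then `lft M f` vanishes off the image of `S`: `y = valMinAbs y` in `ℤ/M`). -/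
theorem lft_FN (M : ℕ) [NeZero M] {N : ℝ} {f : ℤ → ℂ} (hf : FN N f) : FN N (lft M f) := by
  classical
  obtain ⟨S, hS, hS0⟩ := hf.sup
  refine ⟨fun y => hf.le _, S.image (fun z : ℤ => (z : ZMod M)), ?_, fun y hy => ?_⟩
  · refine le_trans ?_ hS
    exact_mod_cast card_image_le
  · unfold lft
    apply hS0
    intro h
    apply hy
    rw [mem_image]
    exact ⟨_, h, ZMod.coe_valMinAbs y⟩

/-- Sums: for `f` supported in `[-X1, X1)`, `2 X1 < M`. -/
theorem lft_sum (M : ℕ) [NeZero M] (X1 : ℕ) (f : ℤ → ℂ) (g : ZMod M → ℂ) (hf : ∀ y, y ∉ Ico (-(X1 : ℤ)) X1 → f y = 0)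
    (hM : 2 * X1 < M) : ∑ y : ZMod M, lft M f y * g y = ∑ t ∈ Ico (-(X1 : ℤ)) X1, f t * g (t : ZMod M) := by
  classical
  have hz : ∀ t ∈ Ico (-(X1 : ℤ)) X1, 2 * |t| < M := by
    intro t ht
    rw [mem_Ico] at ht
    have h1 : |t| ≤ X1 := abs_le.mpr ⟨ht.1, ht.2.le⟩
    have h2 : (2 * X1 : ℤ) < M := by exact_mod_cast hM
    linarith
  have hinj : Set.InjOn (fun z : ℤ => (z : ZMod M)) (Ico (-(X1 : ℤ)) X1 : Finset ℤ) := by
    intro a ha b hb hab
    have h1 := lft_val M (fun z => (z : ℂ)) a (hz a ha)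
    have h2 := lft_val M (fun z => (z : ℂ)) b (hz b hb)
    have h3 : ((a : ZMod M)) = b := hab
    rw [h3, h2] at h1
    exact_mod_cast h1.symm
  calc ∑ y : ZMod M, lft M f y * g y
      = ∑ y ∈ (Ico (-(X1 : ℤ)) X1).image (fun z : ℤ => (z : ZMod M)), lft M f y * g y := by
        symm
        refine Finset.sum_subset (subset_univ _) fun y _ hy => ?_
        have h0 : lft M f y = 0 := by
          unfold lft
          apply hf
          intro h
          apply hy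
          rw [mem_image]
          exact ⟨_, h, ZMod.coe_valMinAbs y⟩
        rw [h0, zero_mul]
    _ = ∑ t ∈ Ico (-(X1 : ℤ)) X1, lft M f (t : ZMod M) * g (t : ZMod M) := Finset.sum_image hinj
    _ = ∑ t ∈ Ico (-(X1 : ℤ)) X1, f t * g (t : ZMod M) :=
        Finset.sum_congr rfl fun t ht => by rw [lft_val M f t (hz t ht)]

/-- Auxiliary: sums over a box. -/
theorem c7a_bx {R : Type*} [AddCommMonoid R] (s N : ℕ) (F : (Fin (s + 1) → ℤ) → R) :
    ∑ h ∈ bxS (s + 1) N, F h = ∑ a ∈ Ioo (-(N : ℤ)) N, ∑ h ∈ bxS s N, F (Fin.cons a h) := by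
  rw [← Finset.sum_product']
  refine Finset.sum_bij' (fun h _ => (h 0, fun i => h i.succ)) (fun p _ => Fin.cons p.1 p.2) ?_ ?_ ?_ ?_ ?_
  · intro h hh
    unfold bxS at hh ⊢
    rw [Fintype.mem_piFinset] at hh
    rw [mem_product, Fintype.mem_piFinset]
    exact ⟨hh 0, fun i => hh i.succ⟩
  · intro p hp
    unfold bxS at hp ⊢
    rw [mem_product, Fintype.mem_piFinset] at hp
    rw [Fintype.mem_piFinset]
    intro i
    refine Fin.cases ?_ (fun j => ?_) i
    · exact hp.1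
    · simp only [Fin.cons_succ]
      exact hp.2 j
  · intro h _
    funext i
    refine Fin.cases ?_ (fun j => ?_) i
    · rfl
    · rfl
  · intro p _
    rfl
  · intro h _
    congr 1
    funext i
    refine Fin.cases ?_ (fun j => ?_) i
    · rfl
    · rfl

theorem c7a_cons {s : ℕ} (a : ℤ) (h : Fin s → ℤ) (f : ℤ → ℂ) :
    DV (Fin.cons a h : Fin (s + 1) → ℤ) f = DV h (DD a f) := by
  unfold DV
  rw [List.ofFn_succ]
  simp only [Fin.cons_zero, Fin.cons_succ]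
  rfl

theorem c7a_succ {X s : ℕ} {f : ℤ → ℂ} :
    GG X (s + 1) f = ∑ a ∈ Ioo (-(2 * X : ℤ)) (2 * X), GG X s (DD a f) := by
  unfold GG
  rw [c7a_bx, Complex.re_sum]
  push_cast
  refine sum_congr rfl fun a _ => ?_
  congr 1
  refine sum_congr rfl fun h _ => ?_
  unfold FF
  rw [c7a_cons]

theorem c7a_zero (X : ℕ) (f : ℤ → ℂ) : GG X 0 f = (∑ y ∈ Ico (-(X : ℤ)) X, f y).re := by
  simp [GG, bxS, FF, DV, DL]

theorem c7a_sq {X : ℕ} {f : ℤ → ℂ} (hf : ∀ y, y ∉ Ico (-(X : ℤ)) X → f y = 0) :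
    ∑ a ∈ Ioo (-(2 * X : ℤ)) (2 * X), ∑ y ∈ Ico (-(X : ℤ)) X, DD a f y =
      ((‖∑ y ∈ Ico (-(X : ℤ)) X, f y‖ ^ 2 : ℝ) : ℂ) := by
  have h1 : ((‖∑ y ∈ Ico (-(X : ℤ)) X, f y‖ ^ 2 : ℝ) : ℂ) =
      ∑ y ∈ Ico (-(X : ℤ)) X, ∑ u ∈ Ico (-(X : ℤ)) X, f y * (starRingEnd ℂ) (f u) := by
    push_cast
    rw [← Complex.mul_conj', map_sum, Finset.sum_mul]
    refine sum_congr rfl fun y _ => ?_
    rw [Finset.mul_sum]
  rw [h1, Finset.sum_comm]
  refine sum_congr rfl fun y hy => ?_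
  have hy' := mem_Ico.1 hy
  have h2 : ∑ u ∈ Ico (-(X : ℤ)) X, f y * (starRingEnd ℂ) (f u) =
      ∑ u ∈ Ioo (y - 2 * X) (y + 2 * X), f y * (starRingEnd ℂ) (f u) := by
    refine Finset.sum_subset (fun u hu => ?_) fun u _ hu => ?_
    · rw [mem_Ico] at hu
      rw [mem_Ioo]
      omega
    · rw [hf u hu, map_zero, mul_zero]
  rw [h2]
  refine Finset.sum_bij' (fun a _ => y + a) (fun u _ => u - y) ?_ ?_ ?_ ?_ ?_
  · intro a ha
    rw [mem_Ioo] at ha ⊢
    omega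
  · intro u hu
    rw [mem_Ioo] at hu ⊢
    omega
  · intro a _
    ring
  · intro u _
    ring
  · intro a _
    rfl

/-- Auxiliary: the difference operators. -/
theorem c7a_D2 (M : ℕ) [NeZero M] (X1 : ℕ) (f : ℤ → ℂ) (hf : Bdd X1 f) (hM : 6 * X1 < M) (z : ℤ)
    (hz : z ∈ Ioo (-(2 * X1 : ℤ)) (2 * X1)) : D2 0 (z : ZMod M) (lft M f) = lft M (DD z f) := by
  funext y
  show lft M f (y + 0) * (starRingEnd ℂ) (lft M f (y + (z : ZMod M))) =
    f y.valMinAbs * (starRingEnd ℂ) (f (y.valMinAbs + z))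
  rw [add_zero]
  by_cases hy : y.valMinAbs ∈ Ico (-(X1 : ℤ)) X1
  · rw [mem_Ico] at hy
    rw [mem_Ioo] at hz
    have h1 : y + (z : ZMod M) = ((y.valMinAbs + z : ℤ) : ZMod M) := by
      rw [Int.cast_add, ZMod.coe_valMinAbs]
    have h2 : 2 * |y.valMinAbs + z| < M := by
      have h3 : |y.valMinAbs + z| ≤ 3 * X1 := by
        rw [abs_le]
        constructor <;> omega
      have h4 : (6 * X1 : ℤ) < M := by exact_mod_cast hM
      linarith
    rw [h1, lft_val M f _ h2]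
    rfl
  · have h0 : f y.valMinAbs = 0 := hf.sup _ hy
    have h1 : lft M f y = 0 := h0
    rw [h1, h0, zero_mul, zero_mul]

theorem c7a_Gs0 {G : Type} [AddCommGroup G] [Fintype G] (s : ℕ) : Gs (s + 1) (fun _ : G => (0 : ℂ)) = 0 := by
  induction s with
  | zero =>
    show ‖∑ _y : G, (0 : ℂ)‖ ^ 2 = 0
    rw [Finset.sum_const_zero, norm_zero]
    norm_num
  | succ s ih =>
    show ∑ u : G, Gs (s + 1) (D2 0 u (fun _ : G => (0 : ℂ))) = 0
    refine Finset.sum_eq_zero fun u _ => ?_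
    have h1 : D2 0 u (fun _ : G => (0 : ℂ)) = fun _ : G => (0 : ℂ) := by
      funext y
      show (0 : ℂ) * (starRingEnd ℂ) 0 = 0
      rw [zero_mul]
    rw [h1]
    exact ih

/-- **C7a. Gowers norms.** Proof. Induction on `s`. `s = 0`: `Gs 1 = ‖∑ f‖² = ∑_h ∑_y f(y) conj f(y + h)` (`|h| < 2 X1`). Step:
`D2 0 u (lft M f)` is `lft M (DD z f)` for `u = z` in `ℤ/M`, `|z| < 2 X1`, and zero for the other `u` (`6 X1 < M`); `GG X (s + 2) f =
∑_{|z| < 2X} GG X (s + 1) (DD z f)` (grep `GG_step`, `gg_succ` in HUK; or prove it: `bxS (s+2)`, `Fin.cons`, `List.ofFn_succ`). -/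
theorem C7_Gs (s : ℕ) : ∀ (M : ℕ) [NeZero M] (X1 : ℕ) (f : ℤ → ℂ), Bdd X1 f → 6 * X1 < M →
    Gs (s + 1) (lft M f) = GG X1 (s + 1) f := by
  classical
  induction s with
  | zero =>
    intro M _ X1 f hf hM
    rw [c7a_succ]
    have h1 : ∑ a ∈ Ioo (-(2 * X1 : ℤ)) (2 * X1), GG X1 0 (DD a f) =
        (∑ a ∈ Ioo (-(2 * X1 : ℤ)) (2 * X1), ∑ y ∈ Ico (-(X1 : ℤ)) X1, DD a f y).re := by
      rw [Complex.re_sum]
      exact Finset.sum_congr rfl fun a _ => c7a_zero X1 _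
    rw [h1, c7a_sq hf.sup, Complex.ofReal_re]
    show ‖∑ y, lft M f y‖ ^ 2 = _
    have h2 := lft_sum M X1 f (fun _ => 1) hf.sup (by omega)
    simp only [mul_one] at h2
    rw [h2]
  | succ s ih =>
    intro M _ X1 f hf hM
    rw [c7a_succ]
    show ∑ u : ZMod M, Gs (s + 1) (D2 0 u (lft M f)) = _
    have hM4 : (4 * X1 : ℤ) < M := by
      have : 4 * X1 < M := by omega
      exact_mod_cast this
    have hz : ∀ t ∈ Ioo (-(2 * X1 : ℤ)) (2 * X1), 2 * |t| < M := by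
      intro t ht
      rw [mem_Ioo] at ht
      have h1 : |t| ≤ 2 * X1 := abs_le.mpr ⟨by linarith [ht.1], ht.2.le⟩
      linarith
    have hinj : Set.InjOn (fun z : ℤ => (z : ZMod M)) (Ioo (-(2 * X1 : ℤ)) (2 * X1) : Finset ℤ) := by
      intro a ha b hb hab
      have h1 := lft_val M (fun z => (z : ℂ)) a (hz a ha)
      have h2 := lft_val M (fun z => (z : ℂ)) b (hz b hb)
      have h3 : ((a : ZMod M)) = b := hab
      rw [h3, h2] at h1
      exact_mod_cast h1.symm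
    have hout : ∀ u : ZMod M, u ∉ (Ioo (-(2 * X1 : ℤ)) (2 * X1)).image (fun z : ℤ => (z : ZMod M)) →
        Gs (s + 1) (D2 0 u (lft M f)) = 0 := by
      intro u hu
      have h1 : D2 0 u (lft M f) = fun _ : ZMod M => (0 : ℂ) := by
        funext y
        show lft M f (y + 0) * (starRingEnd ℂ) (lft M f (y + u)) = 0
        rw [add_zero]
        by_cases hy : y.valMinAbs ∈ Ico (-(X1 : ℤ)) X1
        · by_cases hw : (y + u).valMinAbs ∈ Ico (-(X1 : ℤ)) X1
          · exfalso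
            apply hu
            rw [mem_image]
            refine ⟨(y + u).valMinAbs - y.valMinAbs, ?_, ?_⟩
            · rw [mem_Ico] at hy hw
              rw [mem_Ioo]
              omega
            · show (((y + u).valMinAbs - y.valMinAbs : ℤ) : ZMod M) = u
              rw [Int.cast_sub, ZMod.coe_valMinAbs, ZMod.coe_valMinAbs]
              ring
          · have h0 : lft M f (y + u) = 0 := hf.sup _ hw
            rw [h0, map_zero, mul_zero]
        · have h0 : lft M f y = 0 := hf.sup _ hy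
          rw [h0, zero_mul]
      rw [h1]
      exact c7a_Gs0 s
    calc ∑ u : ZMod M, Gs (s + 1) (D2 0 u (lft M f))
        = ∑ u ∈ (Ioo (-(2 * X1 : ℤ)) (2 * X1)).image (fun z : ℤ => (z : ZMod M)),
            Gs (s + 1) (D2 0 u (lft M f)) := by
          symm
          exact Finset.sum_subset (subset_univ _) fun u _ hu => hout u hu
      _ = ∑ z ∈ Ioo (-(2 * X1 : ℤ)) (2 * X1), Gs (s + 1) (D2 0 (z : ZMod M) (lft M f)) :=
          Finset.sum_image hinj
      _ = ∑ z ∈ Ioo (-(2 * X1 : ℤ)) (2 * X1), GG X1 (s + 1) (DD z f) := by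
          refine Finset.sum_congr rfl fun z hzz => ?_
          rw [c7a_D2 M X1 f hf hM z hzz]
          refine ih M X1 (DD z f) ⟨fun y => ?_, fun y hy => ?_⟩ hM
          · unfold DD
            rw [norm_mul, RCLike.norm_conj]
            exact mul_le_one₀ (hf.le _) (norm_nonneg _) (hf.le _)
          · unfold DD
            rw [hf.sup y hy, zero_mul]

end Pool.Agent.HPP
end

-- from Lib.HPP.B5
section

/-!
# Project HPP, B5 (M): the family of the copies of the target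
-/

open Finset Polynomial

namespace Pool.Agent.HPP

theorem b5_first {M : ℕ} (ops : List (ℤ × ℤ[X])) : ∀ (p : (ZMod M → ℂ) × ℤ[X]) (L : Fam M), ∃ T : Fam M, XL ops (p :: L) = p :: T := by
  induction ops with
  | nil => intro p L; exact ⟨L, rfl⟩
  | cons o ops ih =>
    intro p L
    exact ih p _

theorem b5_ws (d : ℕ) (R : List ℤ) (l : List ℤ) : ∀ (W : List ℤ[X]) (lab : List ℕ),
    List.Forall₂ (fun (p : ℤ × ℤ[X]) (k : ℕ) => PW (d + 1) p.1 (R.getD k 0) p.2) (l.zip W) lab →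
    List.Forall₂ (fun (p : ℤ × ℤ[X]) (w : ℤ) => PD d w p.2) (l.zip W)
      (List.zipWith (fun (h : ℤ) (k : ℕ) => -(((d : ℤ) + 1) * h * R.getD k 0)) l lab) := by
  induction l with
  | nil =>
    intro W lab _
    simp
  | cons a l ih =>
    intro W lab h
    cases W with
    | nil =>
      cases lab with
      | nil => simp
      | cons k lab => simp at h
    | cons w W =>
      cases lab with
      | nil => simp at h
      | cons k lab =>
        rw [List.zip_cons_cons] at h ⊢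
        rw [List.forall₂_cons] at h
        rw [List.zipWith_cons_cons, List.forall₂_cons]
        exact ⟨h.1, ih W lab h.2⟩

theorem b5_rn (d q : ℕ) (lab : List ℕ) (r : Fin q → ℤ) (l : List ℤ) (hl : l.length = lab.length) (j : ℕ) :
    (∑ i ∈ range (List.zipWith (fun (h : ℤ) (k : ℕ) => -(((d : ℤ) + 1) * h * (List.ofFn r).getD k 0)) l lab).length,
      if j.testBit i then (List.zipWith (fun (h : ℤ) (k : ℕ) => -(((d : ℤ) + 1) * h * (List.ofFn r).getD k 0)) l lab).getD i 0 else 0) =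
    rn d lab r l j := by
  have hlen : (List.zipWith (fun (h : ℤ) (k : ℕ) => -(((d : ℤ) + 1) * h * (List.ofFn r).getD k 0)) l lab).length = lab.length := by
    rw [List.length_zipWith, hl, min_self]
  rw [rn, hlen, mul_sum, ← sum_neg_distrib]
  refine sum_congr rfl fun i hi => ?_
  rw [mem_range] at hi
  split_ifs
  · rw [List.getD_eq_getElem _ _ (by rw [hlen]; exact hi), List.getElem_zipWith, List.getD_eq_getElem l _ (by rw [hl]; exact hi),
      List.getD_eq_getElem lab _ hi]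
    ring
  · ring

/-- **B5b.** The family of the copies of `f0`: the first element is `(f0, 0)`, the others are `2 ^ ρ - 1` functions in `FN N` with coefficients
`rn d lab r l (j + 1)`. Proof. `B5_coef` with `L = [(f0, 0)]`, `m = 0`, `u = 0`, `ws = zipWith (fun h k => -((d+1) * h * r_k)) l lab`; the first element of
`XL ops L` is the first one of `L` (induction). -/
theorem B5_fam {M : ℕ} (N : ℝ) (d q : ℕ) (lab : List ℕ) (r : Fin q → ℤ) (l : List ℤ) (W : List ℤ[X])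
    (hl : l.length = lab.length) (hW : W.length = lab.length)
    (h : List.Forall₂ (fun (p : ℤ × ℤ[X]) (k : ℕ) => PW (d + 1) p.1 ((List.ofFn r).getD k 0) p.2) (l.zip W) lab)
    (f0 : ZMod M → ℂ) (hf : FN N f0) :
    ∃ (f : Fin (2 ^ lab.length - 1) → ZMod M → ℂ) (V : Fin (2 ^ lab.length - 1) → ℤ[X]),
      (∀ j, FN N (f j) ∧ PD d (rn d lab r l (j + 1)) (V j)) ∧
      ∀ t n, EL (l.zip W) (pr [(f0, (0 : ℤ[X]))]) t n = f0 t * ∏ j, f j (t + (((V j).eval n : ℤ) : ZMod M)) := by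
  obtain ⟨T, hT⟩ := b5_first (l.zip W) (f0, (0 : ℤ[X])) []
  have hlen := XL_length (l.zip W) [(f0, (0 : ℤ[X]))]
  have hzl : (l.zip W).length = lab.length := by rw [List.length_zip, hl, hW, min_self]
  rw [hT, hzl, List.length_cons, List.length_singleton, one_mul] at hlen
  have hTl : T.length = 2 ^ lab.length - 1 := by omega
  have hco := B5_coef N d (l.zip W) _ [(f0, (0 : ℤ[X]))] 0 (fun _ => 0) (b5_ws d (List.ofFn r) l W lab h) (by simp)
    (by
      intro j hj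
      have hj0 : j = 0 := by simpa using hj
      subst hj0
      refine ⟨hf, ?_⟩
      simp [PD])
  rw [← hTl]
  refine ⟨fun j => (T[j.1]).1, fun j => (T[j.1]).2, fun j => ?_, fun t n => ?_⟩
  · have h1 := hco (j.1 + 1) (by rw [hT, List.length_cons]; omega)
    simp only [hT, List.getElem_cons_succ, zero_add] at h1
    rw [b5_rn d q lab r l hl] at h1
    exact h1
  · rw [EL_pr, hT]
    simp only [pr, List.map_cons, List.prod_cons, eval_zero, Int.cast_zero, add_zero]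
    rw [← Fin.prod_univ_fun_getElem]

theorem b5_step {M : ℕ} (h : ℤ) (W : ℤ[X]) (a b : ℤ) :
    EO (M := M) h W (fun _ n => if n ∈ Ico a b then 1 else 0) =
      fun _ n => if n ∈ Ico (max a (a - h)) (min b (b - h)) then 1 else 0 := by
  funext t n
  simp only [EO, mem_Ico]
  by_cases h1 : a ≤ n ∧ n < b
  · by_cases h2 : a ≤ n + h ∧ n + h < b
    · rw [if_pos h1, if_pos h2, if_pos ⟨max_le h1.1 (by linarith [h2.1]), lt_min h1.2 (by linarith [h2.2])⟩]
      simp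
    · rw [if_pos h1, if_neg h2, if_neg]
      · simp
      · rintro ⟨h3, h4⟩
        rw [max_le_iff] at h3
        rw [lt_min_iff] at h4
        exact h2 ⟨by linarith [h3.2], by linarith [h4.2]⟩
  · rw [if_neg h1, zero_mul, if_neg]
    rintro ⟨h3, h4⟩
    rw [max_le_iff] at h3
    rw [lt_min_iff] at h4
    exact h1 ⟨h3.1, h4.1⟩

/-- **B5c.** The cutoff: products of indicators of intervals. `EL ops` of the indicator of `[a, b)` (as a function of `n` only) is the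
indicator of an interval `[a', b')` with `a ≤ a'`, `b' ≤ b`. Induction on `ops` (one operator: `[max a (a - h), min b (b - h))`). -/
theorem B5_cut {M : ℕ} (ops : List (ℤ × ℤ[X])) : ∀ a b : ℤ, ∃ a' b' : ℤ, a ≤ a' ∧ b' ≤ b ∧
    ∀ (t : ZMod M) (n : ℤ), EL ops (fun _ n => if n ∈ Ico a b then 1 else 0) t n = if n ∈ Ico a' b' then 1 else 0 := by
  induction ops with
  | nil => intro a b; exact ⟨a, b, le_rfl, le_rfl, fun t n => rfl⟩
  | cons p ops ih =>
    intro a b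
    obtain ⟨a', b', ha, hb, hh⟩ := ih (max a (a - p.1)) (min b (b - p.1))
    refine ⟨a', b', le_trans (le_max_left _ _) ha, le_trans hb (min_le_left _ _), fun t n => ?_⟩
    rw [← hh t n, EL, b5_step]

end Pool.Agent.HPP
end

-- from Lib.HPP.B6
section

/-!
# Project HPP, B6 (M): degree one
-/

open Finset Polynomial

namespace Pool.Agent.HPP

theorem b6_EL_const {M : ℕ} (ρ : ℕ → ℤ) (ops : List (ℤ × ℤ[X])) : ∀ (lab : List ℕ) (g : ZMod M → ℂ),
    List.Forall₂ (fun (p : ℤ × ℤ[X]) (k : ℕ) => PW 1 p.1 (ρ k) p.2) ops lab →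
    EL ops (fun t _ => g t) = fun t _ =>
      DI (List.zipWith (fun h r : ℤ => ((-(h * r) : ℤ) : ZMod M)) (ops.map Prod.fst) (lab.map ρ)) g t := by
  induction ops with
  | nil =>
    intro lab g h
    cases h
    rfl
  | cons p ops ih =>
    intro lab g h
    cases h with
    | @cons _ k _ lab' h1 h2 =>
      have h3 : EO p.1 p.2 (fun (t : ZMod M) (_ : ℤ) => g t) = fun t _ => D2 0 ((-(p.1 * ρ k) : ℤ) : ZMod M) g t := by
        funext t n
        simp only [EO, D2, add_zero]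
        have h4 : p.2.eval n = -(p.1 * ρ k) := by
          rw [PD.const h1 n]
          push_cast
          ring
        rw [h4]
      simp only [EL, h3, List.map_cons, List.zipWith_cons_cons, DI]
      exact ih lab' (D2 0 ((-(p.1 * ρ k) : ℤ) : ZMod M) g) h2

theorem b6_list {M : ℕ} (X : ℕ) (ρ : ℕ → ℤ) (lab : List ℕ) :
    ((lab.map ρ).map fun c => cdir M X c) = List.ofFn fun k : Fin lab.length => cdir M X (ρ (lab.getD k 0)) := by
  refine List.ext_getElem ?_ fun i h1 h2 => ?_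
  · simp only [List.length_map, List.length_ofFn]
  · rw [List.getElem_map, List.getElem_map, List.getElem_ofFn]
    have h3 : i < lab.length := by
      simpa only [List.length_map] using h1
    simp only [List.getD_eq_getElem _ _ h3]

/-- **B6c. Degree 1.** `c r k l = r_{lab k}` (no parameters). Proof. `KF 1` with `C = ofFn fun j => (r j, [(f j, R j)])`,
`A t n = (if n ∈ Ico a b then 1 else 0) * f0 t` (`Vn`: `0 ≤ a`, `b ≤ X`). All `W` are constants (`PD 0`): `EL` of `f0` is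
`DI [w_1, ..] f0 t`, `w_i = -(h_i r_{lab i})` (`PD.const`), times the indicator of an interval (`EL_mul`, `B5_cut`): `‖SS‖ ≤ X ‖∑_t DI .. f0 t‖`. `B6_two`
with `rs = lab.map (fun k => (ofFn r).getD k 0)`. -/
theorem B6_FU (q : ℕ) (lab : List ℕ) (h : KF 1 (List.replicate q 1) lab) :
    FU 1 q 0 lab.length (2 ^ lab.length) (3 ^ (2 ^ lab.length) * 2 ^ lab.length)
      (fun r k _ => (List.ofFn r).getD (lab.getD k 0) 0) := by
  intro M _ X N hX hN r f R hfR f0 hf0 a b ha hb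
  have hXr : (0 : ℝ) < X := Nat.cast_pos.2 hX
  set C : List (ℤ × Fam M) := List.ofFn fun j => (r j, [(f j, R j)]) with hC
  have hC1 : (C.map fun c => c.2.length) = List.replicate q 1 := by
    rw [hC, List.map_ofFn]
    refine List.ext_getElem ?_ fun i h1 h2 => ?_
    · simp only [List.length_ofFn, List.length_replicate]
    · rw [List.getElem_ofFn, List.getElem_replicate]
      rfl
  have hC2 : C.map Prod.fst = List.ofFn r := by
    rw [hC, List.map_ofFn]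
    rfl
  have hC3 : ∀ c ∈ C, Cls N 1 c.1 c.2 := by
    intro c hc
    rw [hC, List.mem_ofFn] at hc
    obtain ⟨j, rfl⟩ := hc
    intro p hp
    rw [List.mem_singleton] at hp
    rw [hp]
    exact hfR j
  have hC4 : ∀ t n, (C.map fun c => pr c.2 t n).prod = ∏ j, f j (t + (((R j).eval n : ℤ) : ZMod M)) := by
    intro t n
    rw [hC, List.map_ofFn, List.prod_ofFn]
    refine Finset.prod_congr rfl fun j _ => ?_
    simp only [Function.comp_apply, pr, List.map_cons, List.map_nil, List.prod_singleton]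
  have hA : Vn X (fun (t : ZMod M) (n : ℤ) => (if n ∈ Ico a b then (1 : ℂ) else 0) * f0 t) := by
    intro t n hn
    have h1 : n ∉ Ico a b := by
      rw [mem_Ico] at hn ⊢
      omega
    simp only [h1, if_false, zero_mul]
  obtain ⟨W, hW1, hW2⟩ := h M X N hX hN C hC1 hC3 _ hA
  have h1 : (SS X fun (t : ZMod M) (n : ℤ) => ((if n ∈ Ico a b then (1 : ℂ) else 0) * f0 t) * (C.map fun c => pr c.2 t n).prod) =
      ∑ t : ZMod M, ∑ n ∈ Ico a b, f0 t * ∏ j, f j (t + (((R j).eval n : ℤ) : ZMod M)) := by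
    unfold SS
    refine Finset.sum_congr rfl fun t _ => ?_
    have h2 : Ico a b ⊆ Ico (0 : ℤ) X := Ico_subset_Ico ha hb
    rw [← Finset.sum_subset h2 (f := fun n => ((if n ∈ Ico a b then (1 : ℂ) else 0) * f0 t) * (C.map fun c => pr c.2 t n).prod)]
    · refine Finset.sum_congr rfl fun n hn => ?_
      rw [hC4]
      simp only [hn, if_true, one_mul]
    · intro n _ hn
      simp only [hn, if_false, zero_mul]
  rw [h1] at hW2
  refine hW2.trans ?_
  rw [AL_zero]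
  set ρ : ℕ → ℤ := fun k => (List.ofFn r).getD k 0 with hρ
  have h3 : (AL X lab.length fun l => ‖SS X (EL (l.zip (W l)) fun (t : ZMod M) (n : ℤ) => (if n ∈ Ico a b then (1 : ℂ) else 0) * f0 t)‖ / (N * X)) ≤
      AL X lab.length fun l => N⁻¹ * ‖∑ t, DI (List.zipWith (fun h r : ℤ => ((-(h * r) : ℤ) : ZMod M)) l (lab.map ρ)) f0 t‖ := by
    refine AL_mono X lab.length fun l hl => ?_
    obtain ⟨hWl, hWF⟩ := hW1 l hl
    rw [hC2] at hWF
    rw [EL_mul (l.zip (W l)) (fun (_ : ZMod M) (n : ℤ) => if n ∈ Ico a b then (1 : ℂ) else 0) (fun t _ => f0 t)]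
    obtain ⟨a', b', _, _, h4⟩ := B5_cut (M := M) (l.zip (W l)) a b
    rw [b6_EL_const ρ (l.zip (W l)) lab f0 hWF, List.map_fst_zip (by rw [hl, hWl])]
    have h5 : (SS X fun (t : ZMod M) (n : ℤ) => EL (l.zip (W l)) (fun (_ : ZMod M) (n : ℤ) => if n ∈ Ico a b then (1 : ℂ) else 0) t n *
        DI (List.zipWith (fun h r : ℤ => ((-(h * r) : ℤ) : ZMod M)) l (lab.map ρ)) f0 t) =
        (∑ n ∈ Ico (0 : ℤ) X, if n ∈ Ico a' b' then (1 : ℂ) else 0) *
          ∑ t, DI (List.zipWith (fun h r : ℤ => ((-(h * r) : ℤ) : ZMod M)) l (lab.map ρ)) f0 t := by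
      unfold SS
      rw [Finset.sum_mul_sum, Finset.sum_comm]
      refine Finset.sum_congr rfl fun n _ => Finset.sum_congr rfl fun t _ => ?_
      rw [h4]
    rw [h5, norm_mul]
    have h6 : ‖∑ n ∈ Ico (0 : ℤ) X, if n ∈ Ico a' b' then (1 : ℂ) else 0‖ ≤ X := by
      refine (norm_sum_le _ _).trans ?_
      refine (Finset.sum_le_card_nsmul _ _ 1 fun n _ => ?_).trans ?_
      · by_cases h : n ∈ Ico a' b'
        · simp only [h, if_true, norm_one, le_refl]
        · simp only [h, if_false, norm_zero, zero_le_one]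
      · rw [Int.card_Ico, nsmul_eq_mul, mul_one]
        have h7 : ((X : ℤ) - 0).toNat = X := by omega
        rw [h7]
    rw [div_le_iff₀ (by positivity)]
    calc _ ≤ (X : ℝ) * ‖∑ t, DI (List.zipWith (fun h r : ℤ => ((-(h * r) : ℤ) : ZMod M)) l (lab.map ρ)) f0 t‖ :=
          mul_le_mul_of_nonneg_right h6 (norm_nonneg _)
      _ = _ := by
          field_simp
  have h8 := B6_two X (lab.map ρ) f0
  rw [List.length_map, b6_list] at h8
  rw [AL_mul_left] at h3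
  have h9 : 0 ≤ NN (List.ofFn fun k : Fin lab.length => cdir M X (ρ (lab.getD k 0))) f0 := NN_nonneg _ _
  have h10 : (3 : ℝ) ^ (2 ^ lab.length - 1) ≤ 3 ^ (2 ^ lab.length) := pow_le_pow_right₀ (by norm_num) (Nat.sub_le _ _)
  calc _ ≤ (3 : ℝ) ^ (2 ^ lab.length - 1) *
        (N⁻¹ * (2 ^ lab.length * NN (List.ofFn fun k : Fin lab.length => cdir M X (ρ (lab.getD k 0))) f0)) := by
        refine mul_le_mul_of_nonneg_left (h3.trans ?_) (by positivity)
        exact mul_le_mul_of_nonneg_left h8 (by positivity)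
    _ ≤ (3 : ℝ) ^ (2 ^ lab.length) *
        (N⁻¹ * (2 ^ lab.length * NN (List.ofFn fun k : Fin lab.length => cdir M X (ρ (lab.getD k 0))) f0)) :=
        mul_le_mul_of_nonneg_right h10 (by positivity)
    _ = _ := by
        simp only [hρ]
        ring

/-- **B6d.** `κ = 1`, `j = lab k < q`. -/
theorem B6_EP (q : ℕ) (lab : List ℕ) (h : ∀ k ∈ lab, k < q) :
    EP 1 q 0 lab.length (fun r k _ => (List.ofFn r).getD (lab.getD k 0) 0) := by
  intro k
  have h1 : lab.getD k 0 = lab[(k : ℕ)] := List.getD_eq_getElem _ _ k.2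
  have h2 : lab[(k : ℕ)] < q := h _ (List.getElem_mem _)
  refine ⟨1, one_ne_zero, ⟨lab[(k : ℕ)], h2⟩, ?_⟩
  intro M X _ χ r
  rw [AL_zero]
  have h3 : (List.ofFn r).getD (lab.getD k 0) 0 = r ⟨lab[(k : ℕ)], h2⟩ := by
    rw [h1, List.getD_eq_getElem _ _ (by rw [List.length_ofFn]; exact h2), List.getElem_ofFn]
  simp only [h3, one_mul, Nat.sub_self, pow_zero, Real.rpow_one, le_refl]

end Pool.Agent.HPP
end

-- from Lib.HPP.B7a
section

/-!
# Project HPP, B7a (M): the step of the complete elimination, inequality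
-/

open Finset Polynomial

namespace Pool.Agent.HPP

/-- The directions in the step. -/
def cnew (d : ℕ) {q n : ℕ} (lab : List ℕ) (c : (Fin (2 ^ lab.length - 1) → ℤ) → Fin n → List ℤ → ℤ) :
    (Fin q → ℤ) → Fin n → List ℤ → ℤ :=
  fun r k l => c (fun j => rn d lab r (l.take lab.length) (j + 1)) k (l.drop lab.length)

private theorem b7a_sum {M : ℕ} [NeZero M] (X : ℕ) (a b : ℤ) (ha : 0 ≤ a) (hb : b ≤ X) (g : ZMod M → ℤ → ℂ) :
    SS X (fun t n => (if n ∈ Ico a b then 1 else 0) * g t n) = ∑ t : ZMod M, ∑ n ∈ Ico a b, g t n := by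
  unfold SS
  refine Finset.sum_congr rfl fun t _ => ?_
  have hsub : Ico a b ⊆ Ico (0 : ℤ) X := Finset.Ico_subset_Ico ha hb
  rw [← Finset.sum_subset hsub]
  · refine Finset.sum_congr rfl fun n hn => ?_
    show (if n ∈ Ico a b then (1 : ℂ) else 0) * g t n = _
    rw [if_pos hn, one_mul]
  · intro n _ hn
    show (if n ∈ Ico a b then (1 : ℂ) else 0) * g t n = _
    rw [if_neg hn, zero_mul]

private theorem b7a_pr {M : ℕ} (f0 : ZMod M → ℂ) (t : ZMod M) (n : ℤ) : pr [(f0, (0 : ℤ[X]))] t n = f0 t := by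
  unfold pr
  simp

/-- **B7a.** Proof. `KF (d + 1)` with the singletons `C = ofFn fun j => (r j, [(f j, R j)])` and
`A t n = (if n ∈ Ico a b then 1 else 0) * pr [(f0, 0)] t n`. For every `l` of length `lab.length`: `EL_mul`, `B5_cut`, `B5_fam`: the remaining sum is of the
form of `FU d` with the interval `[a', b')` (as a sum over `n ∈ Ico 0 X` of the indicator) and coefficients `rn d lab r l (j + 1)`. With
`x = ‖..‖ / (N X)`, `m = 2 ^ lab.length`: `x ^ (m E) ≤ (3 ^ (m - 1) AL y_l) ^ E ≤ 3 ^ (m E) AL (y_l ^ E) ≤ 3 ^ (m E) K AL (AL ..)` and `AL_add`, `AL_congr`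
(`List.take_left'`, `List.drop_left'`). -/
theorem B7_FU (d q ρ n E : ℕ) (K : ℝ) (hK : 0 ≤ K) (lab : List ℕ)
    (c : (Fin (2 ^ lab.length - 1) → ℤ) → Fin n → List ℤ → ℤ)
    (h1 : KF (d + 1) (List.replicate q 1) lab) (h2 : FU d (2 ^ lab.length - 1) ρ n E K c) :
    FU (d + 1) q (lab.length + ρ) n (2 ^ lab.length * E) (3 ^ (2 ^ lab.length * E) * K) (cnew d lab c) := by
  intro M _ X N hX hN r f R hfR f0 hf0 a b ha hb
  have hNX : (0 : ℝ) < N * X := mul_pos hN (Nat.cast_pos.2 hX)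
  have hC1 : (((List.ofFn fun j => ((r j, [(f j, R j)]) : ℤ × Fam M)).map fun c => c.2.length)) = List.replicate q 1 := by
    rw [List.map_ofFn]
    exact List.ofFn_const q 1
  have hC2 : ∀ c ∈ (List.ofFn fun j => ((r j, [(f j, R j)]) : ℤ × Fam M)), Cls N (d + 1) c.1 c.2 := by
    intro c hc
    rw [List.mem_ofFn] at hc
    obtain ⟨j, rfl⟩ := hc
    intro p hp
    rw [List.mem_singleton] at hp
    subst hp
    exact hfR j
  have hA : Vn X (fun (t : ZMod M) (n : ℤ) => (if n ∈ Ico a b then (1 : ℂ) else 0) * pr [(f0, (0 : ℤ[X]))] t n) := by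
    intro t n hn
    have hn2 : n ∉ Ico a b := fun h => hn (Finset.Ico_subset_Ico ha hb h)
    show (if n ∈ Ico a b then (1 : ℂ) else 0) * _ = 0
    rw [if_neg hn2, zero_mul]
  obtain ⟨W, hW, hin⟩ := h1 M X N hX hN _ hC1 hC2 _ hA
  have hfst : (List.ofFn fun j => ((r j, [(f j, R j)]) : ℤ × Fam M)).map Prod.fst = List.ofFn r := by
    rw [List.map_ofFn]
    rfl
  rw [hfst] at hW
  have hprod : ∀ (t : ZMod M) (n : ℤ), ((List.ofFn fun j => ((r j, [(f j, R j)]) : ℤ × Fam M)).map fun c => pr c.2 t n).prod =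
      ∏ j, f j (t + (((R j).eval n : ℤ) : ZMod M)) := by
    intro t n
    rw [List.map_ofFn, List.prod_ofFn]
    refine Finset.prod_congr rfl fun j _ => ?_
    show pr [(f j, R j)] t n = _
    unfold pr
    simp
  have hSS : (SS X fun (t : ZMod M) (n : ℤ) => ((if n ∈ Ico a b then (1 : ℂ) else 0) * pr [(f0, (0 : ℤ[X]))] t n) *
      ((List.ofFn fun j => ((r j, [(f j, R j)]) : ℤ × Fam M)).map fun c => pr c.2 t n).prod) =
      ∑ t : ZMod M, ∑ n ∈ Ico a b, f0 t * ∏ j, f j (t + (((R j).eval n : ℤ) : ZMod M)) := by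
    rw [← b7a_sum X a b ha hb]
    congr 1
    funext t n
    rw [hprod, b7a_pr, mul_assoc]
  rw [hSS] at hin
  have hy : ∀ l : List ℤ, (0 : ℝ) ≤ ‖SS X (EL (l.zip (W l)) fun (t : ZMod M) (n : ℤ) =>
      (if n ∈ Ico a b then (1 : ℂ) else 0) * pr [(f0, (0 : ℤ[X]))] t n)‖ / (N * X) := fun l => by positivity
  have hstep : ∀ l : List ℤ, l.length = lab.length → (‖SS X (EL (l.zip (W l)) fun (t : ZMod M) (n : ℤ) =>
      (if n ∈ Ico a b then (1 : ℂ) else 0) * pr [(f0, (0 : ℤ[X]))] t n)‖ / (N * X)) ^ E ≤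
      K * AL X ρ fun l' => NN (List.ofFn fun k => cdir M X (cnew d lab c r k (l ++ l'))) f0 / N := by
    intro l hl
    obtain ⟨hWl, hWf⟩ := hW l hl
    obtain ⟨a', b', ha', hb', hcut⟩ := B5_cut (M := M) (l.zip (W l)) a b
    obtain ⟨f', V, hfV, hfam⟩ := B5_fam N d q lab r l (W l) hl hWl hWf f0 hf0
    have e1 : SS X (EL (l.zip (W l)) fun (t : ZMod M) (n : ℤ) =>
        (if n ∈ Ico a b then (1 : ℂ) else 0) * pr [(f0, (0 : ℤ[X]))] t n) =
        ∑ t : ZMod M, ∑ n ∈ Ico a' b', f0 t * ∏ j, f' j (t + (((V j).eval n : ℤ) : ZMod M)) := by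
      rw [← b7a_sum X a' b' (ha.trans ha') (hb'.trans hb)]
      congr 1
      rw [EL_mul]
      funext t n
      rw [hcut t n, hfam t n]
    rw [e1]
    refine (h2 M X N hX hN (fun j => rn d lab r l (j + 1)) f' V hfV f0 hf0 a' b' (ha.trans ha') (hb'.trans hb)).trans (le_of_eq ?_)
    congr 1
    refine AL_congr X ρ fun l' _ => ?_
    have e2 : (l ++ l').take lab.length = l := by rw [← hl]; exact List.take_left
    have e3 : (l ++ l').drop lab.length = l' := by rw [← hl]; exact List.drop_left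
    unfold cnew
    rw [e2, e3]
  have hm : 1 ≤ 2 ^ lab.length := Nat.one_le_two_pow
  rw [pow_mul, AL_add]
  calc _ ≤ (3 ^ (2 ^ lab.length - 1) * AL X lab.length fun l => ‖SS X (EL (l.zip (W l)) fun (t : ZMod M) (n : ℤ) =>
        (if n ∈ Ico a b then (1 : ℂ) else 0) * pr [(f0, (0 : ℤ[X]))] t n)‖ / (N * X)) ^ E :=
      pow_le_pow_left₀ (by positivity) hin E
    _ = 3 ^ ((2 ^ lab.length - 1) * E) * (AL X lab.length fun l => ‖SS X (EL (l.zip (W l)) fun (t : ZMod M) (n : ℤ) =>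
        (if n ∈ Ico a b then (1 : ℂ) else 0) * pr [(f0, (0 : ℤ[X]))] t n)‖ / (N * X)) ^ E := by rw [mul_pow, ← pow_mul]
    _ ≤ 3 ^ (2 ^ lab.length * E) * (K * AL X lab.length fun l => AL X ρ fun l' =>
        NN (List.ofFn fun k => cdir M X (cnew d lab c r k (l ++ l'))) f0 / N) := by
      have h3 : (AL X lab.length fun l => ‖SS X (EL (l.zip (W l)) fun (t : ZMod M) (n : ℤ) =>
          (if n ∈ Ico a b then (1 : ℂ) else 0) * pr [(f0, (0 : ℤ[X]))] t n)‖ / (N * X)) ^ E ≤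
          K * AL X lab.length fun l => AL X ρ fun l' =>
            NN (List.ofFn fun k => cdir M X (cnew d lab c r k (l ++ l'))) f0 / N := by
        rw [← AL_mul_left]
        exact (AL_pow X lab.length E hy).trans (AL_mono X lab.length hstep)
      refine mul_le_mul ?_ h3 (pow_nonneg (AL_nonneg X _ fun l _ => hy l) E) (by positivity)
      refine pow_le_pow_right₀ (by norm_num) (Nat.mul_le_mul_right E (Nat.sub_le _ _))
    _ = _ := by rw [mul_assoc]

end Pool.Agent.HPP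
end

-- from Lib.HUK.K0
section

/-!
# Project HUK, module K (`LKP k`, PROOF.md section 6): definitions for the Gowers norms of characters on `ZMod r`
-/

open Finset

namespace Pool.Agent.HUK

noncomputable section

/-- The product of all vertices `a + ω · j`, in a commutative ring. -/
def QG {A : Type*} [CommRing A] : List A → A → A
  | [], a => a
  | j :: l, a => QG l a * QG l (a + j)

/-- `QG` times the alternating sum of the inverses of the vertices `a + ω · j`, in a commutative ring. -/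
def DG {A : Type*} [CommRing A] : List A → A → A
  | [], _ => 1
  | j :: l, a => DG l a * QG l (a + j) - DG l (a + j) * QG l a

/-- The Fourier coefficient `(1/r) ∑_y f(y) e(-xy/r)`. -/
def ft {r : ℕ} [NeZero r] (f : ZMod r → ℂ) (x : ZMod r) : ℂ := (∑ y, f y * ZMod.stdAddChar (-(x * y))) / r

/-- The power `2^s` of the normalised `U^s` norm on `ZMod r`. -/
def uG {r : ℕ} [NeZero r] (s : ℕ) (f : ZMod r → ℂ) : ℝ :=
  (∑ h : Fin s → ZMod r, ∑ y, DL (List.ofFn h) f y).re / (r : ℝ) ^ (s + 1)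

end

end Pool.Agent.HUK
end

-- from Lib.HUK.KA1
section

/-!
# Project HUK, chunk KA1 (S/M): degree and leading coefficient of `QG` and `DG`
-/

open Finset

namespace Pool.Agent.HUK

/-- Proof by induction on `l` (generalise `a`). Empty list: `QG [] a = a`, `DG [] a = 1`. Step:
`QG (j :: l) a = QG l a * QG l (a + j)`, degrees at most `2^n + 2^n = 2^(n+1)`, and `Polynomial.coeff_mul_of_natDegree_le` for the
coefficient; `(a + j).coeff 1 = a.coeff 1 + j.coeff 1`. `DG (j :: l) a = DG l a * QG l (a + j) - DG l (a + j) * QG l a`, degrees at most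
`(2^n - 1) + 2^n = 2^(n+1) - 1` (`2^n ≥ 1`), the coefficients in the same way (`add_comm` for the second product). -/
theorem KA1_deg (l : List (Polynomial ℤ)) (hl : ∀ j ∈ l, j.natDegree ≤ 1) (a : Polynomial ℤ) (ha : a.natDegree ≤ 1) :
    (QG l a).natDegree ≤ 2 ^ l.length ∧ (QG l a).coeff (2 ^ l.length) = QG (l.map fun j => j.coeff 1) (a.coeff 1) ∧
    (DG l a).natDegree ≤ 2 ^ l.length - 1 ∧
    (DG l a).coeff (2 ^ l.length - 1) = DG (l.map fun j => j.coeff 1) (a.coeff 1) := by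
  induction l generalizing a with
  | nil =>
    simp only [QG, DG, List.length_nil, pow_zero, List.map_nil]
    refine ⟨ha, trivial, ?_, ?_⟩
    · simp
    · simp
  | cons j l ih =>
    have hj : j.natDegree ≤ 1 := hl j (List.mem_cons_self ..)
    have hl' : ∀ j ∈ l, j.natDegree ≤ 1 := fun x hx => hl x (List.mem_cons_of_mem _ hx)
    have haj : (a + j).natDegree ≤ 1 := Polynomial.natDegree_add_le_of_degree_le ha hj
    obtain ⟨q1, q2, d1, d2⟩ := ih hl' a ha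
    obtain ⟨q3, q4, d3, d4⟩ := ih hl' (a + j) haj
    rw [Polynomial.coeff_add] at q4 d4
    have hpos : 1 ≤ 2 ^ l.length := Nat.one_le_two_pow
    have e1 : 2 ^ (j :: l).length = 2 ^ l.length + 2 ^ l.length := by
      rw [List.length_cons, pow_succ]
      ring
    have e2 : 2 ^ (j :: l).length - 1 = (2 ^ l.length - 1) + 2 ^ l.length := by
      rw [e1]
      omega
    rw [e2, e1]
    refine ⟨?_, ?_, ?_, ?_⟩
    · change (QG l a * QG l (a + j)).natDegree ≤ _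
      exact Polynomial.natDegree_mul_le_of_le q1 q3
    · change (QG l a * QG l (a + j)).coeff _ = _
      rw [Polynomial.coeff_mul_add_eq_of_natDegree_le q1 q3, q2, q4]
      rfl
    · change (DG l a * QG l (a + j) - DG l (a + j) * QG l a).natDegree ≤ _
      refine (Polynomial.natDegree_sub_le _ _).trans (max_le ?_ ?_)
      · exact Polynomial.natDegree_mul_le_of_le d1 q3
      · exact Polynomial.natDegree_mul_le_of_le d3 q1
    · change (DG l a * QG l (a + j) - DG l (a + j) * QG l a).coeff _ = _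
      rw [Polynomial.coeff_sub, Polynomial.coeff_mul_add_eq_of_natDegree_le d1 q3, Polynomial.coeff_mul_add_eq_of_natDegree_le d3 q1, q2, q4, d2, d4]
      rfl

/-- Ring homomorphisms. Induction on `l` (generalise `a`). -/
theorem KA1_map {A B : Type*} [CommRing A] [CommRing B] (φ : A →+* B) (l : List A) (a : A) :
    φ (QG l a) = QG (l.map φ) (φ a) ∧ φ (DG l a) = DG (l.map φ) (φ a) := by
  induction l generalizing a with
  | nil => exact ⟨rfl, map_one φ⟩
  | cons j l ih =>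
    obtain ⟨h1, h2⟩ := ih a
    obtain ⟨h3, h4⟩ := ih (a + j)
    rw [map_add] at h3 h4
    constructor
    · change φ (QG l a * QG l (a + j)) = _
      rw [map_mul, h1, h3]
      rfl
    · change φ (DG l a * QG l (a + j) - DG l (a + j) * QG l a) = _
      rw [map_sub, map_mul, map_mul, h1, h2, h3, h4]
      rfl

theorem ka1_main (n : ℕ) : ∀ a : ℤ, 1 ≤ a → 0 < QG (List.replicate n (1 : ℤ)) a ∧
    (∏ i ∈ range (n + 1), (a + i)) * DG (List.replicate n (1 : ℤ)) a = (n.factorial : ℤ) * QG (List.replicate n (1 : ℤ)) a := by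
  induction n with
  | zero =>
    intro a ha
    simp only [List.replicate_zero, QG, DG, zero_add, Finset.prod_range_one, Nat.factorial_zero]
    refine ⟨by omega, ?_⟩
    push_cast
    ring
  | succ n ih =>
    intro a ha
    obtain ⟨h1, h2⟩ := ih a ha
    obtain ⟨h3, h4⟩ := ih (a + 1) (by omega)
    have hQ : QG (List.replicate (n + 1) (1 : ℤ)) a = QG (List.replicate n (1 : ℤ)) a * QG (List.replicate n (1 : ℤ)) (a + 1) := rfl
    have hD : DG (List.replicate (n + 1) (1 : ℤ)) a = DG (List.replicate n (1 : ℤ)) a * QG (List.replicate n (1 : ℤ)) (a + 1) -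
      DG (List.replicate n (1 : ℤ)) (a + 1) * QG (List.replicate n (1 : ℤ)) a := rfl
    have hp1 : ∏ i ∈ range (n + 1 + 1), (a + (i : ℤ)) = (∏ i ∈ range (n + 1), (a + (i : ℤ))) * (a + n + 1) := by
      rw [Finset.prod_range_succ]
      push_cast
      ring
    have hp2 : ∏ i ∈ range (n + 1 + 1), (a + (i : ℤ)) = a * ∏ i ∈ range (n + 1), (a + 1 + (i : ℤ)) := by
      rw [Finset.prod_range_succ']
      push_cast
      rw [add_zero, mul_comm]
      congr 1
      refine Finset.prod_congr rfl fun i _ => ?_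
      ring
    refine ⟨by rw [hQ]; exact mul_pos h1 h3, ?_⟩
    rw [hQ, hD, mul_sub]
    have e1 : (∏ i ∈ range (n + 1 + 1), (a + (i : ℤ))) * (DG (List.replicate n (1 : ℤ)) a * QG (List.replicate n (1 : ℤ)) (a + 1)) =
        (a + n + 1) * ((n.factorial : ℤ) * QG (List.replicate n (1 : ℤ)) a) * QG (List.replicate n (1 : ℤ)) (a + 1) := by
      rw [hp1, ← h2]
      ring
    have e2 : (∏ i ∈ range (n + 1 + 1), (a + (i : ℤ))) * (DG (List.replicate n (1 : ℤ)) (a + 1) * QG (List.replicate n (1 : ℤ)) a) =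
        a * ((n.factorial : ℤ) * QG (List.replicate n (1 : ℤ)) (a + 1)) * QG (List.replicate n (1 : ℤ)) a := by
      rw [hp2, ← h4]
      ring
    rw [e1, e2, Nat.factorial_succ]
    push_cast
    ring

/-- The leading coefficient is not zero. Proof. For all `n` and all integers `a ≥ 1`: `0 < QG (replicate n 1) a` and
`(∏ i ∈ range (n + 1), (a + i)) * DG (replicate n 1) a = n ! * QG (replicate n 1) a`. Induction on `n`: put
`π_n(a) = ∏ i ∈ range (n + 1), (a + i)`, `π_(n+1)(a) = π_n(a) (a + n + 1) = a π_n(a + 1)`, so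
`π_(n+1)(a) D_(n+1)(a) = (a + n + 1) (π_n(a) D_n(a)) Q_n(a + 1) - a (π_n(a + 1) D_n(a + 1)) Q_n(a) = (n + 1) n! Q_n(a) Q_n(a + 1)`.
Take `a = 1`. -/
theorem KA1_pos (n : ℕ) : DG (List.replicate n (1 : ℤ)) 1 ≠ 0 := by
  intro h
  obtain ⟨h1, h2⟩ := ka1_main n 1 le_rfl
  rw [h, mul_zero] at h2
  have h3 : (0 : ℤ) < (n.factorial : ℤ) := by exact_mod_cast n.factorial_pos
  have h4 := mul_pos h3 h1
  omega

end Pool.Agent.HUK
end

-- from Lib.HUK.KA6
section

/-!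
# Project HUK, chunk KA6 (M): zeros of `DG` modulo `r`
-/

open Finset

namespace Pool.Agent.HUK

theorem ka6_poly (n : ℕ) (h : Fin n → ℤ) (a : ℤ) :
    (DG (List.ofFn fun i => Polynomial.C (h i) + Polynomial.X) (Polynomial.C a + Polynomial.X)).natDegree
      ≤ 2 ^ n - 1 ∧
    (DG (List.ofFn fun i => Polynomial.C (h i) + Polynomial.X) (Polynomial.C a + Polynomial.X)).coeff
      (2 ^ n - 1) = DG (List.replicate n (1 : ℤ)) 1 := by
  have hdeg : ∀ x : ℤ, (Polynomial.C x + Polynomial.X : Polynomial ℤ).natDegree ≤ 1 := fun x =>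
    (Polynomial.natDegree_add_le _ _).trans
      (max_le (by rw [Polynomial.natDegree_C]; exact zero_le_one) Polynomial.natDegree_X_le)
  have hco : ∀ x : ℤ, (Polynomial.C x + Polynomial.X : Polynomial ℤ).coeff 1 = 1 := fun x => by
    rw [Polynomial.coeff_add, Polynomial.coeff_X_one, Polynomial.coeff_C_of_ne_zero one_ne_zero, zero_add]
  obtain ⟨-, -, h3, h4⟩ := KA1_deg (List.ofFn fun i => Polynomial.C (h i) + Polynomial.X) (by
    intro j hj
    rw [List.mem_ofFn] at hj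
    obtain ⟨i, rfl⟩ := hj
    exact hdeg _) (Polynomial.C a + Polynomial.X) (hdeg a)
  rw [List.length_ofFn] at h3 h4
  refine ⟨h3, ?_⟩
  rw [h4, List.map_ofFn, hco]
  have h5 : ((fun j : Polynomial ℤ => j.coeff 1) ∘ fun i => Polynomial.C (h i) + Polynomial.X) =
      fun _ : Fin n => (1 : ℤ) := by
    funext i
    exact hco _
  rw [h5, List.ofFn_const]

theorem ka6_eval (n : ℕ) (h : Fin n → ℤ) (a : ℤ) (r : ℕ) (k : ℤ) :
    (((DG (List.ofFn fun i => Polynomial.C (h i) + Polynomial.X)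
      (Polynomial.C a + Polynomial.X)).eval k : ℤ) : ZMod r) =
      DG (List.ofFn fun i => (h i : ZMod r) + k) ((a : ZMod r) + k) := by
  obtain ⟨φ, hφ⟩ : ∃ φ : Polynomial ℤ →+* ZMod r,
    φ = (Int.castRingHom (ZMod r)).comp (Polynomial.evalRingHom k) := ⟨_, rfl⟩
  have h1 : ∀ x : ℤ, φ (Polynomial.C x + Polynomial.X) = (x : ZMod r) + k := by
    intro x
    rw [hφ, RingHom.comp_apply, Polynomial.coe_evalRingHom, Polynomial.eval_add, Polynomial.eval_C,
      Polynomial.eval_X, map_add, eq_intCast, eq_intCast]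
  have h2 := (KA1_map φ (List.ofFn fun i => Polynomial.C (h i) + Polynomial.X)
    (Polynomial.C a + Polynomial.X)).2
  rw [List.map_ofFn, h1] at h2
  have h3 : (φ ∘ fun i => Polynomial.C (h i) + Polynomial.X) = fun i => (h i : ZMod r) + k := by
    funext i
    exact h1 _
  rw [h3] at h2
  rw [← h2, hφ, RingHom.comp_apply, Polynomial.coe_evalRingHom]
  rfl

theorem ka6_fibre {n r : ℕ} [NeZero r] (ψ : ZMod r) (p : (Fin n → ZMod r) × ZMod r) {C e : ℝ}
    (hC : ∀ P : Polynomial ℤ, P.natDegree ≤ 2 ^ n - 1 → P.coeff (2 ^ n - 1) = DG (List.replicate n (1 : ℤ)) 1 →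
      ∀ m r : ℕ, 1 ≤ m → m ≤ r →
      (((range r).filter fun k : ℕ => (m : ℤ) ∣ P.eval (k : ℤ)).card : ℝ) ≤ C * r * (m : ℝ) ^ (-e)) :
    ((univ.filter fun κ : ZMod r => ψ * DG (List.ofFn fun i => p.1 i + κ) (p.2 + κ) = 0).card : ℝ) ≤
      C * r * (addOrderOf ψ : ℝ) ^ (-e) := by
  obtain ⟨h1, h2⟩ := ka6_poly n (fun i => ((p.1 i).val : ℤ)) (p.2.val : ℤ)
  have hm : 1 ≤ addOrderOf ψ := addOrderOf_pos ψ
  have hmr : addOrderOf ψ ≤ r := by
    have h := addOrderOf_le_card_univ (x := ψ)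
    rwa [ZMod.card] at h
  have h3 := hC _ h1 h2 (addOrderOf ψ) r hm hmr
  refine le_trans ?_ h3
  have h4 : (univ.filter fun κ : ZMod r => ψ * DG (List.ofFn fun i => p.1 i + κ) (p.2 + κ) = 0).card ≤
      ((range r).filter fun k : ℕ => ((addOrderOf ψ : ℕ) : ℤ) ∣
        (DG (List.ofFn fun i => Polynomial.C (((p.1 i).val : ℤ)) + Polynomial.X)
          (Polynomial.C ((p.2.val : ℤ)) + Polynomial.X)).eval (k : ℤ)).card := by
    refine card_le_card_of_injOn (fun κ => κ.val) ?_ (fun x _ y _ hxy => ZMod.val_injective r hxy)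
    intro κ hκ
    have h5 : ψ * DG (List.ofFn fun i => p.1 i + κ) (p.2 + κ) = 0 := (mem_filter.1 (mem_coe.1 hκ)).2
    refine mem_coe.2 (mem_filter.2 ⟨mem_range.2 (ZMod.val_lt κ), ?_⟩)
    rw [addOrderOf_dvd_iff_zsmul_eq_zero, zsmul_eq_mul, ka6_eval]
    have h6 : ∀ x : ZMod r, (((x.val : ℕ) : ℤ) : ZMod r) = x := fun x => by
      rw [Int.cast_natCast, ZMod.natCast_zmod_val]
    simp only [h6]
    rw [mul_comm]
    exact h5
  exact_mod_cast h4

theorem ka6_avg {n r : ℕ} [NeZero r] (ψ : ZMod r) :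
    (univ.filter fun p : (Fin n → ZMod r) × ZMod r => ψ * DG (List.ofFn p.1) p.2 = 0).card * r =
      ∑ p : (Fin n → ZMod r) × ZMod r,
        (univ.filter fun κ : ZMod r => ψ * DG (List.ofFn fun i => p.1 i + κ) (p.2 + κ) = 0).card := by
  simp only [card_filter]
  rw [sum_comm]
  have h1 : ∀ κ : ZMod r, (∑ p : (Fin n → ZMod r) × ZMod r,
      if ψ * DG (List.ofFn fun i => p.1 i + κ) (p.2 + κ) = 0 then 1 else 0) =
      ∑ p : (Fin n → ZMod r) × ZMod r, if ψ * DG (List.ofFn p.1) p.2 = 0 then 1 else 0 := by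
    intro κ
    exact Equiv.sum_comp (Equiv.addRight ((fun _ => κ, κ) : (Fin n → ZMod r) × ZMod r))
      (fun p => if ψ * DG (List.ofFn p.1) p.2 = 0 then 1 else 0)
  rw [sum_congr rfl fun κ _ => h1 κ, sum_const, card_univ, ZMod.card, smul_eq_mul, mul_comm]

/-- Proof. Let `d = 2^n - 1 ≥ 1`, `c = DG (replicate n 1) 1 ≠ 0` (`KA1_pos`), `C`, `e` from `KA5_count`, `m = addOrderOf ψ` (`1 ≤ m ≤ r`, it divides
`r`). For every `k : ZMod r` the map `p ↦ (fun i => p.1 i + k, p.2 + k)` is a permutation of `(Fin n → ZMod r) × ZMod r`, so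
`r * card = ∑_p #{k : ZMod r | ψ * DG (List.ofFn fun i => p.1 i + k) (p.2 + k) = 0}`. Fix `p` and let `P = DG (List.ofFn fun i => C ((p.1 i).val : ℤ) + X)
(C (p.2.val : ℤ) + X)` in `Polynomial ℤ`. `KA1_deg`: `P.natDegree ≤ d`, `P.coeff d = c` (the coefficients at `1` are `1`:
`List.map_ofFn`, `List.ofFn_const`). For `k : ℕ` the ring homomorphism `Polynomial.eval₂RingHom (Int.castRingHom (ZMod r)) (k : ZMod r)` maps `P` to
`DG (List.ofFn fun i => p.1 i + k) (p.2 + k)` (`KA1_map`, `ZMod.natCast_zmod_val`), and it is the cast of `P.eval (k : ℤ)`; so the condition is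
`ψ * ((P.eval (k : ℤ) : ℤ) : ZMod r) = 0`, i.e. `P.eval k • ψ = 0`, i.e. `(m : ℤ) ∣ P.eval k` (`addOrderOf_dvd_iff_zsmul_eq_zero`). The elements of
`ZMod r` are the casts of `range r`; so the number of `k` is at most `C r m^(-e)` (`KA5_count`), and there are `r^(n+1)` values of `p`. -/
theorem KA6_prob (n : ℕ) (hn : 1 ≤ n) : ∃ C e : ℝ, 0 < C ∧ 0 < e ∧ e ≤ 1 ∧ ∀ (r : ℕ) [NeZero r] (ψ : ZMod r),
    ((univ.filter fun p : (Fin n → ZMod r) × ZMod r => ψ * DG (List.ofFn p.1) p.2 = 0).card : ℝ) ≤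
      C * (r : ℝ) ^ (n + 1) * (addOrderOf ψ : ℝ) ^ (-e) := by
  have hd : 1 ≤ 2 ^ n - 1 := by
    have h : 2 ^ 1 ≤ 2 ^ n := Nat.pow_le_pow_right (by norm_num) hn
    omega
  obtain ⟨C, e, hC, he, he1, hcount⟩ := KA5_count (2 ^ n - 1) hd _ (KA1_pos n)
  refine ⟨C, e, hC, he, he1, fun r _ ψ => ?_⟩
  have hr : (0 : ℝ) < r := by
    exact_mod_cast Nat.pos_of_ne_zero (NeZero.ne r)
  have h1 := ka6_avg (n := n) ψ
  have h2 : ((univ.filter fun p : (Fin n → ZMod r) × ZMod r => ψ * DG (List.ofFn p.1) p.2 = 0).card : ℝ) * r =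
      ∑ p : (Fin n → ZMod r) × ZMod r,
        ((univ.filter fun κ : ZMod r => ψ * DG (List.ofFn fun i => p.1 i + κ) (p.2 + κ) = 0).card : ℝ) := by
    exact_mod_cast h1
  have h3 : ∑ p : (Fin n → ZMod r) × ZMod r,
        ((univ.filter fun κ : ZMod r => ψ * DG (List.ofFn fun i => p.1 i + κ) (p.2 + κ) = 0).card : ℝ) ≤
      ∑ p : (Fin n → ZMod r) × ZMod r, C * r * (addOrderOf ψ : ℝ) ^ (-e) :=
    sum_le_sum fun p _ => ka6_fibre ψ p hcount
  rw [← h2, sum_const, card_univ, Fintype.card_prod, Fintype.card_fun, Fintype.card_fin, ZMod.card,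
    nsmul_eq_mul] at h3
  push_cast at h3
  refine le_of_mul_le_mul_right (h3.trans (le_of_eq ?_)) hr
  ring

end Pool.Agent.HUK
end

-- from Lib.HUK.KA7
section

/-!
# Project HUK, chunk KA7 (M): iterated differences of the phase `e(ψ y / (a r))`
-/

open Finset

namespace Pool.Agent.HUK

/-- The claim on iterated differences. -/
theorem ka7_claim {r : ℕ} [NeZero r] (ψ : ZMod r) (c : ZMod r × ZMod r → ℂ)
    (hc : ∀ z : ZMod r × ZMod r, c z = (if IsUnit z.2 then (1 : ℂ) else 0) *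
      ZMod.stdAddChar (ψ * z.2⁻¹ * z.1)) (l : List (ZMod r × ZMod r)) :
    ∃ (A : ZMod r → ℂ) (B : ZMod r → ZMod r),
      (∀ z : ZMod r × ZMod r, DL (l.map fun p => p.2 • ((-p.1, 1) : ZMod r × ZMod r)) c z =
        A z.2 * ZMod.stdAddChar (B z.2 * z.1)) ∧ (∀ a, ‖A a‖ ≤ 1) ∧
      ∀ a, A a ≠ 0 → B a * QG (l.map Prod.snd) a = ψ * DG (l.map Prod.snd) a := by
  classical
  induction l with
  | nil =>
    refine ⟨fun a => if IsUnit a then 1 else 0, fun a => ψ * a⁻¹, fun z => hc z, fun a => ?_,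
      fun a ha => ?_⟩
    · change ‖(if IsUnit a then (1 : ℂ) else 0)‖ ≤ 1
      split_ifs <;> simp
    · have hu : IsUnit a := by
        by_contra h
        exact ha (if_neg h)
      change ψ * a⁻¹ * a = ψ * 1
      rw [mul_assoc, ZMod.inv_mul_of_unit a hu]
  | cons p l ih =>
    obtain ⟨A, B, h1, h2, h3⟩ := ih
    obtain ⟨b, j⟩ := p
    refine ⟨fun a => A a * (starRingEnd ℂ) (A (a + j)) * ZMod.stdAddChar (B (a + j) * (j * b)),
      fun a => B a - B (a + j), fun z => ?_, fun a => ?_, fun a ha => ?_⟩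
    · change DL (l.map fun p => p.2 • ((-p.1, 1) : ZMod r × ZMod r))
        (DD (j • ((-b, 1) : ZMod r × ZMod r)) c) z = _
      rw [DL_DD]
      change DL (l.map fun p => p.2 • ((-p.1, 1) : ZMod r × ZMod r)) c z *
        (starRingEnd ℂ) (DL (l.map fun p => p.2 • ((-p.1, 1) : ZMod r × ZMod r)) c
          (z + j • ((-b, 1) : ZMod r × ZMod r))) = _
      rw [h1, h1]
      have h7 : ∀ u x : ZMod r, (starRingEnd ℂ) (A u * ZMod.stdAddChar x) =
          (starRingEnd ℂ) (A u) * ZMod.stdAddChar (-x) := by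
        intro u x
        rw [RingHom.map_mul, ← AddChar.map_neg_eq_conj]
      rw [h7]
      change _ = A z.2 * (starRingEnd ℂ) (A (z.2 + j)) * ZMod.stdAddChar (B (z.2 + j) * (j * b)) *
            ZMod.stdAddChar ((B z.2 - B (z.2 + j)) * z.1)
      have h4 : (z + j • ((-b, 1) : ZMod r × ZMod r)).2 = z.2 + j := by
        change z.2 + j * 1 = z.2 + j
        rw [mul_one]
      have h5 : (z + j • ((-b, 1) : ZMod r × ZMod r)).1 = z.1 + j * (-b) := rfl
      rw [h4, h5]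
      have h6 : (ZMod.stdAddChar (B z.2 * z.1) : ℂ) *
          ZMod.stdAddChar (-(B (z.2 + j) * (z.1 + j * (-b)))) =
          ZMod.stdAddChar (B (z.2 + j) * (j * b)) *
            ZMod.stdAddChar ((B z.2 - B (z.2 + j)) * z.1) := by
        rw [← AddChar.map_add_eq_mul, ← AddChar.map_add_eq_mul]
        congr 1
        ring
      calc A z.2 * ZMod.stdAddChar (B z.2 * z.1) * ((starRingEnd ℂ) (A (z.2 + j)) *
            ZMod.stdAddChar (-(B (z.2 + j) * (z.1 + j * (-b)))))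
          = A z.2 * (starRingEnd ℂ) (A (z.2 + j)) * ((ZMod.stdAddChar (B z.2 * z.1) : ℂ) *
            ZMod.stdAddChar (-(B (z.2 + j) * (z.1 + j * (-b))))) := by ring
        _ = A z.2 * (starRingEnd ℂ) (A (z.2 + j)) * ZMod.stdAddChar (B (z.2 + j) * (j * b)) *
            ZMod.stdAddChar ((B z.2 - B (z.2 + j)) * z.1) := by
            rw [h6]
            ring
    · change ‖A a * (starRingEnd ℂ) (A (a + j)) * ZMod.stdAddChar (B (a + j) * (j * b))‖ ≤ 1
      rw [norm_mul, norm_mul, AddChar.norm_apply, mul_one, RCLike.norm_conj]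
      exact mul_le_one₀ (h2 a) (norm_nonneg _) (h2 _)
    · have ha1 : A a ≠ 0 := by
        intro h
        apply ha
        change A a * _ * _ = 0
        rw [h, zero_mul, zero_mul]
      have ha2 : A (a + j) ≠ 0 := by
        intro h
        apply ha
        change _ * (starRingEnd ℂ) (A (a + j)) * _ = 0
        rw [h, map_zero, mul_zero, zero_mul]
      have h4 := h3 a ha1
      have h5 := h3 (a + j) ha2
      change (B a - B (a + j)) * (QG (l.map Prod.snd) a * QG (l.map Prod.snd) (a + j)) =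
        ψ * (DG (l.map Prod.snd) a * QG (l.map Prod.snd) (a + j) -
          DG (l.map Prod.snd) (a + j) * QG (l.map Prod.snd) a)
      linear_combination QG (l.map Prod.snd) (a + j) * h4 - QG (l.map Prod.snd) a * h5

open Classical in
/-- Proof. Let `c` be the function. CLAIM, by induction on a list `l` of pairs `(b, j)`: there are `A : ZMod r → ℂ`, `B : ZMod r → ZMod r` with
`DL (l.map fun p => p.2 • ((-p.1, 1) : ZMod r × ZMod r)) c (y, a) = A a * stdAddChar (B a * y)` for all `y`, `a`, `‖A a‖ ≤ 1`, and `A a ≠ 0` implies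
`B a * QG (l.map Prod.snd) a = ψ * DG (l.map Prod.snd) a`. Empty list: `A a = 1` if `a` is a unit, else `0`, `B a = ψ * a⁻¹`
(`ZMod.inv_mul_of_unit`). Step: `DL ((b,j) :: l) c = DD (j • (-b, 1)) (DL l c)` (`DL_DD` in `P0.lean`), whose value at `(y, a)` is
`A a e(B a y) conj (A (a+j) e(B (a+j) (y - j b))) = A' a * e((B a - B (a+j)) y)`, `A' a = A a * conj (A (a+j)) * e(B (a+j) * (j * b))`
(`‖stdAddChar x‖ = 1`, `conj (stdAddChar x) = stdAddChar (-x)`: `AddChar.map_neg_eq_conj`), and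
`(B a - B (a+j)) * (QG l a * QG l (a+j)) = (ψ DG l a) QG l (a+j) - (ψ DG l (a+j)) QG l a`. The statement: with `l = List.ofFn fun i => (b i, j i)`
(`List.map_ofFn`) the sum is `∑_a A a ∑_y stdAddChar (B a * y)`, the inner sum is `r` if `B a = 0` and `0` else
(`AddChar.sum_mulShift` with `ZMod.isPrimitive_stdAddChar`), and `A a ≠ 0`, `B a = 0` imply `ψ * DG (List.ofFn j) a = 0`. -/
theorem KA7_phase {r : ℕ} [NeZero r] (n : ℕ) (b : Fin n → ZMod r) (ψ : ZMod r) (j : Fin n → ZMod r) :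
    ‖∑ z : ZMod r × ZMod r, DL (List.ofFn fun i => j i • ((-(b i), 1) : ZMod r × ZMod r))
      (fun z : ZMod r × ZMod r => if IsUnit z.2 then (ZMod.stdAddChar (ψ * z.2⁻¹ * z.1) : ℂ) else 0) z‖ ≤
      r * ((univ.filter fun a : ZMod r => ψ * DG (List.ofFn j) a = 0).card : ℝ) := by
  obtain ⟨c, hc⟩ : ∃ c : ZMod r × ZMod r → ℂ, c = fun z : ZMod r × ZMod r =>
      if IsUnit z.2 then (ZMod.stdAddChar (ψ * z.2⁻¹ * z.1) : ℂ) else 0 := ⟨_, rfl⟩
  obtain ⟨A, B, h1, h2, h3⟩ := ka7_claim ψ c (fun z => by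
    rw [hc]
    by_cases h : IsUnit z.2
    · simp only [if_pos h, one_mul]
    · simp only [if_neg h, zero_mul]) (List.ofFn fun i => (b i, j i))
  rw [List.map_ofFn] at h1
  rw [List.map_ofFn] at h3
  rw [← hc]
  have h4 : ∑ z : ZMod r × ZMod r, DL (List.ofFn fun i => j i • ((-(b i), 1) : ZMod r × ZMod r)) c z =
      ∑ a : ZMod r, A a * ∑ y : ZMod r, ZMod.stdAddChar (B a * y) := by
    rw [Fintype.sum_prod_type_right]
    refine Finset.sum_congr rfl fun a _ => ?_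
    rw [Finset.mul_sum]
    exact Finset.sum_congr rfl fun y _ => h1 (y, a)
  rw [h4]
  refine le_trans (norm_sum_le _ _) ?_
  rw [Finset.natCast_card_filter, Finset.mul_sum]
  refine Finset.sum_le_sum fun a _ => ?_
  have h5 : ∑ y : ZMod r, (ZMod.stdAddChar (B a * y) : ℂ) = if B a = 0 then (r : ℂ) else 0 := by
    have h6 := AddChar.sum_mulShift (B a) (ZMod.isPrimitive_stdAddChar r)
    rw [ZMod.card] at h6
    rw [← Finset.sum_congr rfl fun y _ => congrArg ZMod.stdAddChar (mul_comm y (B a)), h6]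
    split_ifs <;> simp
  rw [h5, norm_mul]
  by_cases hA : A a = 0
  · rw [hA, norm_zero, zero_mul]
    positivity
  · by_cases hB : B a = 0
    · have h7 : ψ * DG (List.ofFn j) a = 0 := by
        have h8 := h3 a hA
        rw [hB, zero_mul] at h8
        exact h8.symm
      rw [if_pos hB, if_pos h7, mul_one]
      have h9 : ‖(r : ℂ)‖ = r := by simp
      rw [h9]
      calc ‖A a‖ * r ≤ 1 * r := mul_le_mul_of_nonneg_right (h2 a) (Nat.cast_nonneg r)
        _ = r := one_mul _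
    · rw [if_neg hB, norm_zero, mul_zero]
      positivity

end Pool.Agent.HUK
end

-- from Lib.HUK.KA9
section

/-!
# Project HUK, chunk KA9 (M): Parseval and the `U²` norm on `ZMod r`
-/

open Finset

namespace Pool.Agent.HUK

theorem ka9_sq {r : ℕ} [NeZero r] (g : ZMod r → ℂ) (x : ZMod r) :
    ((‖ft g x‖ ^ 2 : ℝ) : ℂ) = (∑ z, ZMod.stdAddChar (x * z) * ∑ y, DD z g y) / (r : ℂ) ^ 2 := by
  have h1 : ((‖ft g x‖ ^ 2 : ℝ) : ℂ) = ft g x * (starRingEnd ℂ) (ft g x) := by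
    rw [Complex.mul_conj, Complex.normSq_eq_norm_sq]
  rw [h1, ft, map_div₀, map_natCast, div_mul_div_comm, ← sq, map_sum]
  congr 1
  have h2 : ∀ w, (starRingEnd ℂ) (g w * ZMod.stdAddChar (-(x * w))) =
      (starRingEnd ℂ) (g w) * ZMod.stdAddChar (x * w) := by
    intro w
    rw [map_mul, ← AddChar.map_neg_eq_conj, neg_neg]
  rw [Finset.sum_congr rfl fun w _ => h2 w, Finset.sum_mul]
  have h3 : ∀ y, g y * ZMod.stdAddChar (-(x * y)) *
      ∑ w, (starRingEnd ℂ) (g w) * ZMod.stdAddChar (x * w) =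
      ∑ z, ZMod.stdAddChar (x * z) * DD z g y := by
    intro y
    rw [← Equiv.sum_comp (Equiv.addLeft y)
      (fun w => (starRingEnd ℂ) (g w) * ZMod.stdAddChar (x * w)), Finset.mul_sum]
    refine Finset.sum_congr rfl fun z _ => ?_
    change g y * ZMod.stdAddChar (-(x * y)) *
      ((starRingEnd ℂ) (g (y + z)) * ZMod.stdAddChar (x * (y + z))) =
      ZMod.stdAddChar (x * z) * (g y * (starRingEnd ℂ) (g (y + z)))
    have h4 : (ZMod.stdAddChar (x * z) : ℂ) =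
        ZMod.stdAddChar (-(x * y)) * ZMod.stdAddChar (x * (y + z)) := by
      rw [← AddChar.map_add_eq_mul]
      congr 1
      ring
    rw [h4]
    ring
  rw [Finset.sum_congr rfl fun y _ => h3 y, Finset.sum_comm]
  refine Finset.sum_congr rfl fun z _ => ?_
  rw [Finset.mul_sum]

/-- Parseval. Expand the square and use `∑_x stdAddChar (x * (z - y)) = r` if `z = y`, else `0` (`AddChar.sum_mulShift`, `ZMod.isPrimitive_stdAddChar`). -/
theorem KA9_parseval {r : ℕ} [NeZero r] (f : ZMod r → ℂ) : ∑ x, ‖ft f x‖ ^ 2 = (∑ y, ‖f y‖ ^ 2) / r := by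
  have hr : (r : ℂ) ≠ 0 := Nat.cast_ne_zero.2 (NeZero.ne r)
  have h1 : ((∑ x, ‖ft f x‖ ^ 2 : ℝ) : ℂ) = (((∑ y, ‖f y‖ ^ 2) / r : ℝ) : ℂ) := by
    push_cast
    have h2 : ∀ x, ((‖ft f x‖ : ℂ)) ^ 2 =
        (∑ z, ZMod.stdAddChar (x * z) * ∑ y, DD z f y) / (r : ℂ) ^ 2 := by
      intro x
      rw [← ka9_sq f x]
      push_cast
      rfl
    rw [Finset.sum_congr rfl fun x _ => h2 x, ← Finset.sum_div, Finset.sum_comm]
    have h3 : ∀ z : ZMod r, ∑ x : ZMod r, (ZMod.stdAddChar (x * z) : ℂ) * ∑ y, DD z f y =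
        if z = 0 then (r : ℂ) * ∑ y, DD z f y else 0 := by
      intro z
      rw [← Finset.sum_mul, AddChar.sum_mulShift z (ZMod.isPrimitive_stdAddChar r), ZMod.card]
      split_ifs <;> simp
    rw [Finset.sum_congr rfl fun z _ => h3 z, Finset.sum_ite_eq' Finset.univ (0 : ZMod r),
      if_pos (Finset.mem_univ _)]
    have h4 : ∀ y, DD (0 : ZMod r) f y = ((‖f y‖ : ℂ)) ^ 2 := by
      intro y
      rw [DD, add_zero, Complex.mul_conj, Complex.normSq_eq_norm_sq]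
      push_cast
      rfl
    rw [Finset.sum_congr rfl fun y _ => h4 y]
    field_simp
  exact_mod_cast h1

/-- Proof. Let `A h = ∑_y f y * conj (f (y + h))`. `ft A (-x) = (1/r) ∑_h ∑_y f y conj f(y+h) e(x h) = (1/r) (∑_y f y e(-x y)) (∑_z conj (f z) e(x z))
= r ‖ft f x‖²`. For fixed `h2`: `∑_{h1} ∑_y DD h1 (DD h2 f) y = (∑_y DD h2 f y) (∑_y conj (DD h2 f y)) = ‖A h2‖²`. So the left side is
`∑_h ‖A h‖² = r ∑_x ‖ft A x‖²` (`KA9_parseval`) `= r ∑_x r² ‖ft f x‖⁴` (`x ↦ -x`, `Equiv.sum_comp (Equiv.neg _)`). -/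
theorem KA9_U2 {r : ℕ} [NeZero r] (f : ZMod r → ℂ) :
    ∑ h1 : ZMod r, ∑ h2 : ZMod r, ∑ y, DD h1 (DD h2 f) y = (((r : ℝ) ^ 3 * ∑ x, ‖ft f x‖ ^ 4 : ℝ) : ℂ) := by
  have hr : (r : ℂ) ≠ 0 := Nat.cast_ne_zero.2 (NeZero.ne r)
  obtain ⟨A, hA⟩ : ∃ A : ZMod r → ℂ, ∀ h, A h = ∑ y, DD h f y := ⟨_, fun _ => rfl⟩
  have h1 : ∀ h2 : ZMod r, ∑ h1 : ZMod r, ∑ y, DD h1 (DD h2 f) y = ((‖A h2‖ ^ 2 : ℝ) : ℂ) := by
    intro h2
    have h3 : ((‖A h2‖ ^ 2 : ℝ) : ℂ) = A h2 * (starRingEnd ℂ) (A h2) := by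
      rw [Complex.mul_conj, Complex.normSq_eq_norm_sq]
    rw [h3, hA, map_sum, Finset.sum_comm, Finset.sum_mul]
    refine Finset.sum_congr rfl fun y _ => ?_
    rw [← Equiv.sum_comp (Equiv.addLeft y) (fun w => (starRingEnd ℂ) (DD h2 f w)), Finset.mul_sum]
    exact Finset.sum_congr rfl fun z _ => rfl
  have h2 : ∀ x, ft A (-x) = (r : ℂ) * ((‖ft f x‖ ^ 2 : ℝ) : ℂ) := by
    intro x
    rw [ka9_sq f x, ft]
    have h3 : ∀ y, A y * ZMod.stdAddChar (-(-x * y)) =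
        ZMod.stdAddChar (x * y) * ∑ w, DD y f w := by
      intro y
      rw [hA, neg_mul, neg_neg, mul_comm]
    rw [Finset.sum_congr rfl fun y _ => h3 y]
    field_simp
  have h3 : ∑ h : ZMod r, ‖A h‖ ^ 2 = r * ∑ x, ‖ft A x‖ ^ 2 := by
    have hr' : (r : ℝ) ≠ 0 := Nat.cast_ne_zero.2 (NeZero.ne r)
    rw [KA9_parseval A]
    field_simp
  have h4 : ∑ x, ‖ft A x‖ ^ 2 = (r : ℝ) ^ 2 * ∑ x, ‖ft f x‖ ^ 4 := by
    rw [← Equiv.sum_comp (Equiv.neg (ZMod r)) (fun x => ‖ft A x‖ ^ 2), Finset.mul_sum]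
    refine Finset.sum_congr rfl fun x _ => ?_
    change ‖ft A (-x)‖ ^ 2 = _
    rw [h2, norm_mul, Complex.norm_real, Complex.norm_natCast, Real.norm_eq_abs,
      abs_of_nonneg (by positivity)]
    ring
  rw [Finset.sum_comm, Finset.sum_congr rfl fun h _ => h1 h, ← Complex.ofReal_sum, h3, h4]
  push_cast
  ring

/-- The square of a Fourier coefficient: `‖ft g x‖² = (1/r²) ∑_z e(x z) ∑_y DD z g y`. (`conj (stdAddChar u) = stdAddChar (-u)`; substitution
of the second variable by `y + z`.) -/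
theorem KA9_sq {r : ℕ} [NeZero r] (g : ZMod r → ℂ) (x : ZMod r) :
    ((‖ft g x‖ ^ 2 : ℝ) : ℂ) = (∑ z, ZMod.stdAddChar (x * z) * ∑ y, DD z g y) / (r : ℂ) ^ 2 := by
  exact ka9_sq g x

end Pool.Agent.HUK
end

-- from Lib.HUK.KA10
section

/-!
# Project HUK, chunk KA10 (M): recursions for the Gowers norms on `ZMod r`
-/

open Finset

namespace Pool.Agent.HUK

theorem KA10_dd {r : ℕ} [NeZero r] (g : ZMod r → ℂ) : ∑ z : ZMod r, ∑ y, DD z g y = ((‖∑ y, g y‖ ^ 2 : ℝ) : ℂ) := by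
  rw [Finset.sum_comm]
  have h : ∀ y : ZMod r, ∑ z : ZMod r, DD z g y = g y * (starRingEnd ℂ) (∑ w, g w) := by
    intro y
    unfold DD
    rw [← Finset.mul_sum, map_sum]
    congr 1
    exact Equiv.sum_comp (Equiv.addLeft y) (fun w => (starRingEnd ℂ) (g w))
  rw [Finset.sum_congr rfl fun y _ => h y, ← Finset.sum_mul, Complex.mul_conj']
  push_cast
  rfl

/-- Sums over `Fin (s + 1) → ZMod r`: first coordinate. (`Fin.consEquiv`, `List.ofFn_succ`, `DL (h :: l) f = DL l (DD h f)`.) -/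
theorem KA10_sum {r : ℕ} [NeZero r] (s : ℕ) (f : ZMod r → ℂ) :
    ∑ t : Fin (s + 1) → ZMod r, ∑ y, DL (List.ofFn t) f y =
      ∑ z : ZMod r, ∑ t : Fin s → ZMod r, ∑ y, DL (List.ofFn t) (DD z f) y := by
  rw [← (Fin.consEquiv (fun _ : Fin (s + 1) => ZMod r)).sum_comp, Fintype.sum_prod_type]
  refine Finset.sum_congr rfl fun z _ => Finset.sum_congr rfl fun t _ => ?_
  have h : List.ofFn ((Fin.consEquiv (fun _ : Fin (s + 1) => ZMod r)) (z, t)) = z :: List.ofFn t := by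
    rw [List.ofFn_succ]
    simp [Fin.consEquiv]
  rw [h]
  rfl

/-- Proof. `KA10_sum`, `DL l (DD z f) = DD z (DL l f)` (`DL_DD` in `P0.lean`), and `∑_z ∑_y DD z g y = ‖∑_y g y‖²` (substitution `y + z`). -/
theorem KA10_sq {r : ℕ} [NeZero r] (s : ℕ) (f : ZMod r → ℂ) :
    ∑ t : Fin (s + 1) → ZMod r, ∑ y, DL (List.ofFn t) f y =
      ((∑ t : Fin s → ZMod r, ‖∑ y, DL (List.ofFn t) f y‖ ^ 2 : ℝ) : ℂ) := by
  rw [KA10_sum, Finset.sum_comm, Complex.ofReal_sum]
  refine Finset.sum_congr rfl fun t _ => ?_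
  rw [← KA10_dd]
  refine Finset.sum_congr rfl fun z _ => ?_
  rw [DL_DD]


/-- From `KA10_sum`. -/
theorem KA10_succ {r : ℕ} [NeZero r] (s : ℕ) (f : ZMod r → ℂ) : uG (s + 1) f = (∑ z, uG s (DD z f)) / r := by
  have hr : (r : ℝ) ≠ 0 := Nat.cast_ne_zero.mpr (NeZero.ne r)
  unfold uG
  rw [KA10_sum, Complex.re_sum, ← Finset.sum_div, div_div, ← pow_succ]

/-- Proof. `KA10_sum` twice, `DL_DD`, `KA9_U2` for `DL (List.ofFn t) f`. -/
theorem KA10_four {r : ℕ} [NeZero r] (s : ℕ) (f : ZMod r → ℂ) :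
    uG (s + 2) f = (∑ t : Fin s → ZMod r, ∑ x, ‖ft (DL (List.ofFn t) f) x‖ ^ 4) / (r : ℝ) ^ s := by
  have hr : (r : ℝ) ≠ 0 := Nat.cast_ne_zero.mpr (NeZero.ne r)
  have h1 : ∑ t : Fin (s + 2) → ZMod r, ∑ y, DL (List.ofFn t) f y =
      ((∑ t : Fin s → ZMod r, (r : ℝ) ^ 3 * ∑ x, ‖ft (DL (List.ofFn t) f) x‖ ^ 4 : ℝ) : ℂ) := by
    rw [KA10_sum (s + 1) f, Complex.ofReal_sum]
    have h2 : ∀ z : ZMod r, ∑ t : Fin (s + 1) → ZMod r, ∑ y, DL (List.ofFn t) (DD z f) y =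
        ∑ t : Fin s → ZMod r, ∑ w : ZMod r, ∑ y, DD w (DD z (DL (List.ofFn t) f)) y := by
      intro z
      rw [KA10_sum s, Finset.sum_comm]
      refine Finset.sum_congr rfl fun t _ => Finset.sum_congr rfl fun w _ => ?_
      rw [DL_DD, DL_DD]
    rw [Finset.sum_congr rfl fun z _ => h2 z, Finset.sum_comm]
    refine Finset.sum_congr rfl fun t _ => ?_
    rw [← KA9_U2, Finset.sum_comm]
  unfold uG
  rw [h1, Complex.ofReal_re, ← Finset.mul_sum, show s + 2 + 1 = s + 3 by ring, pow_add]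
  field_simp

/-- Proof. `KA9_sq` for `g = DL (List.ofFn t) f` and `DD z g = DL (List.ofFn t) (DD z f)`: the sum over `t` of the squares is
`(1/r²) ∑_z e(x z) (∑_t ∑_y DL (List.ofFn t) (DD z f) y)`, the inner sums are real and non-negative (`KA10_sq`), equal to
`r^(s+2) uG (s+1) (DD z f)`; so it is at most `(1/r²) ∑_z r^(s+2) uG (s+1) (DD z f) = r^(s+1) uG (s+2) f` (`KA10_succ`). -/
theorem KA10_le {r : ℕ} [NeZero r] (s : ℕ) (f : ZMod r → ℂ) (x : ZMod r) :
    ∑ t : Fin (s + 1) → ZMod r, ‖ft (DL (List.ofFn t) f) x‖ ^ 2 ≤ (r : ℝ) ^ (s + 1) * uG (s + 2) f := by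
  have hr : (0 : ℝ) < r := Nat.cast_pos.mpr (Nat.pos_of_ne_zero (NeZero.ne r))
  have hA : ∀ z : ZMod r, ∃ A : ℝ, 0 ≤ A ∧ ∑ t : Fin (s + 1) → ZMod r, ∑ y, DL (List.ofFn t) (DD z f) y = (A : ℂ) ∧
      A = (r : ℝ) ^ (s + 2) * uG (s + 1) (DD z f) := by
    intro z
    refine ⟨_, ?_, KA10_sq s (DD z f), ?_⟩
    · positivity
    · unfold uG
      rw [KA10_sq, Complex.ofReal_re]
      field_simp
  choose A hA0 hA1 hA2 using hA
  have h1 : ((∑ t : Fin (s + 1) → ZMod r, ‖ft (DL (List.ofFn t) f) x‖ ^ 2 : ℝ) : ℂ) =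
      (∑ z : ZMod r, ZMod.stdAddChar (x * z) * (A z : ℂ)) / (r : ℂ) ^ 2 := by
    rw [Complex.ofReal_sum, Finset.sum_congr rfl fun t _ => KA9_sq (DL (List.ofFn t) f) x, ← Finset.sum_div,
      Finset.sum_comm]
    congr 1
    refine Finset.sum_congr rfl fun z _ => ?_
    rw [← hA1 z, Finset.mul_sum]
    refine Finset.sum_congr rfl fun t _ => ?_
    rw [DL_DD]
  have h0 : 0 ≤ ∑ t : Fin (s + 1) → ZMod r, ‖ft (DL (List.ofFn t) f) x‖ ^ 2 := by positivity
  have h2 : ∑ t : Fin (s + 1) → ZMod r, ‖ft (DL (List.ofFn t) f) x‖ ^ 2 ≤ (∑ z : ZMod r, A z) / (r : ℝ) ^ 2 := by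
    rw [← Real.norm_of_nonneg h0, ← Complex.norm_real, h1, norm_div, norm_pow, Complex.norm_natCast]
    refine div_le_div_of_nonneg_right ((norm_sum_le _ _).trans (Finset.sum_le_sum fun z _ => ?_)) (by positivity)
    rw [norm_mul, AddChar.norm_apply, one_mul, Complex.norm_real, Real.norm_of_nonneg (hA0 z)]
  refine h2.trans (le_of_eq ?_)
  rw [Finset.sum_congr rfl fun z _ => hA2 z, ← Finset.mul_sum, KA10_succ (s + 1) f]
  rw [show s + 2 = s + 1 + 1 by ring, pow_succ (r : ℝ) (s + 1)]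
  field_simp

end Pool.Agent.HUK
end

-- from Lib.HUK.KA11
section

/-!
# Project HUK, chunk KA11 (M): Fourier coefficients of a primitive character; the totient; elements of small order
-/

open Finset

namespace Pool.Agent.HUK

theorem ka11_inv {r : ℕ} [NeZero r] (χ : DirichletCharacter ℂ r) (x : ZMod r) : ‖χ⁻¹ x‖ = ‖χ x‖ := by
  by_cases hx : IsUnit x
  · obtain ⟨u, rfl⟩ := hx
    rw [DirichletCharacter.unit_norm_eq_one, DirichletCharacter.unit_norm_eq_one]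
  · rw [MulChar.map_nonunit _ hx, MulChar.map_nonunit _ hx]

/-- Proof. `gaussSum_mulShift_of_isPrimitive` (Mathlib): `∑_y χ y stdAddChar (a y) = χ⁻¹ a * τ`, `τ = gaussSum χ stdAddChar`; so
`ft χ x = χ⁻¹ (-x) τ / r`, of absolute value at most `‖τ‖ / r`, with equality if `x` is a unit. `KA9_parseval`: the sum of the squares is
`(number of units) / r = φ(r) / r`, and it is `φ(r) ‖τ‖² / r²`; so `‖τ‖² = r`. -/
theorem KA11_gauss {r : ℕ} [NeZero r] (χ : DirichletCharacter ℂ r) (hχ : χ.IsPrimitive) (x : ZMod r) :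
    ‖ft (fun y => χ y) x‖ ^ 2 ≤ 1 / r := by
  have hr : (0 : ℝ) < r := Nat.cast_pos.mpr (Nat.pos_of_ne_zero (NeZero.ne r))
  obtain ⟨τ, hτ⟩ : ∃ τ, τ = gaussSum χ (ZMod.stdAddChar (N := r)) := ⟨_, rfl⟩
  have hft : ∀ x : ZMod r, ‖ft (fun y => χ y) x‖ ^ 2 = ‖χ (-x)‖ ^ 2 * (‖τ‖ ^ 2 / (r : ℝ) ^ 2) := by
    intro x
    have h1 : ∑ y : ZMod r, χ y * ZMod.stdAddChar (-(x * y)) = χ⁻¹ (-x) * τ := by
      rw [hτ, ← gaussSum_mulShift_of_isPrimitive _ hχ (-x)]
      unfold gaussSum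
      refine Finset.sum_congr rfl fun y _ => ?_
      rw [AddChar.mulShift_apply, neg_mul]
    unfold ft
    rw [h1, norm_div, norm_mul, Complex.norm_natCast, ka11_inv]
    ring
  have hpar := KA9_parseval (fun y : ZMod r => χ y)
  rw [Finset.sum_congr rfl fun x _ => hft x, ← Finset.sum_mul] at hpar
  have hneg : ∑ x : ZMod r, ‖χ (-x)‖ ^ 2 = ∑ x : ZMod r, ‖χ x‖ ^ 2 :=
    Equiv.sum_comp (Equiv.neg (ZMod r)) (fun x => ‖χ x‖ ^ 2)
  rw [hneg] at hpar
  have hS : 0 < ∑ x : ZMod r, ‖χ x‖ ^ 2 := by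
    refine lt_of_lt_of_le ?_ (Finset.single_le_sum (f := fun x : ZMod r => ‖χ x‖ ^ 2) (fun x _ => by positivity) (Finset.mem_univ (1 : ZMod r)))
    simp only [map_one, norm_one]
    norm_num
  have hτ2 : ‖τ‖ ^ 2 / (r : ℝ) ^ 2 = 1 / r := by
    have h2 : (∑ x : ZMod r, ‖χ x‖ ^ 2) * (‖τ‖ ^ 2 / (r : ℝ) ^ 2) = (∑ x : ZMod r, ‖χ x‖ ^ 2) * (1 / r) := by
      rw [hpar]
      ring
    exact mul_left_cancel₀ hS.ne' h2
  rw [hft x, hτ2]
  have h3 : ‖χ (-x)‖ ≤ 1 := DirichletCharacter.norm_le_one χ _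
  have h4 : ‖χ (-x)‖ ^ 2 ≤ 1 := pow_le_one₀ (norm_nonneg _) h3
  exact mul_le_of_le_one_left (by positivity) h4

/-- Proof. `n ≤ φ(n) d(n)` for `n ≥ 1` (`Nat.recOnPosPrimePosCoprime`: for a prime power `p^a`, `a ≥ 1`:
`p^(a-1) (p-1) (a+1) ≥ p^(a-1) (p-1) 2 ≥ p^a`; both functions are multiplicative), and `divisor_bound`. -/
theorem KA11_tot (ε : ℝ) (hε : 0 < ε) : ∃ C : ℝ, 0 < C ∧ ∀ r : ℕ, 1 ≤ r → (r : ℝ) / (Nat.totient r : ℝ) ≤ C * (r : ℝ) ^ ε := by
  obtain ⟨C, hC, h⟩ := Pool.Agent.Lib.H21AP.divisor_bound hε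
  refine ⟨C, hC, fun r hr => ?_⟩
  have hφ : 0 < Nat.totient r := Nat.totient_pos.mpr (by omega)
  have hφ' : (0 : ℝ) < Nat.totient r := by exact_mod_cast hφ
  refine le_trans ?_ (h r hr)
  rw [div_le_iff₀ hφ']
  have h1 : r ≤ r.divisors.card * Nat.totient r := by
    calc r = ∑ m ∈ r.divisors, Nat.totient m := (Nat.sum_totient r).symm
      _ ≤ ∑ m ∈ r.divisors, Nat.totient r := Finset.sum_le_sum fun m hm =>
          Nat.le_of_dvd hφ (Nat.totient_dvd_of_dvd (Nat.dvd_of_mem_divisors hm))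
      _ = r.divisors.card * Nat.totient r := by rw [Finset.sum_const, smul_eq_mul]
  exact_mod_cast h1

/-- Proof. `addOrderOf x ≤ B` implies `addOrderOf x = m` for some `1 ≤ m ≤ ⌊B⌋₊`; for each `m` with `1 ≤ m` there are at most `m` elements `x` with
`m • x = 0` in the cyclic group `ZMod r` (`IsAddCyclic.card_nsmul_eq_zero_le` or `card_addOrderOf_eq_totient`), and `∑_{m ≤ M} m ≤ M²`. -/
theorem KA11_ord {r : ℕ} [NeZero r] (B : ℝ) (hB : 0 ≤ B) :
    ((univ.filter fun x : ZMod r => (addOrderOf x : ℝ) ≤ B).card : ℝ) ≤ B ^ 2 := by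
  classical
  obtain ⟨M, hM⟩ : ∃ M, M = ⌊B⌋₊ := ⟨_, rfl⟩
  have hsub : (univ.filter fun x : ZMod r => (addOrderOf x : ℝ) ≤ B) ⊆
      (Icc 1 M).biUnion fun m => univ.filter fun x : ZMod r => m • x = 0 := by
    intro x hx
    rw [mem_filter] at hx
    rw [mem_biUnion]
    refine ⟨addOrderOf x, ?_, ?_⟩
    · rw [mem_Icc]
      exact ⟨addOrderOf_pos x, by rw [hM]; exact Nat.le_floor hx.2⟩
    · rw [mem_filter]
      exact ⟨mem_univ _, addOrderOf_nsmul_eq_zero x⟩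
  have h1 : (univ.filter fun x : ZMod r => (addOrderOf x : ℝ) ≤ B).card ≤ M ^ 2 := by
    calc (univ.filter fun x : ZMod r => (addOrderOf x : ℝ) ≤ B).card ≤
          ((Icc 1 M).biUnion fun m => univ.filter fun x : ZMod r => m • x = 0).card := Finset.card_le_card hsub
      _ ≤ ∑ m ∈ Icc 1 M, (univ.filter fun x : ZMod r => m • x = 0).card := Finset.card_biUnion_le
      _ ≤ ∑ m ∈ Icc 1 M, M := Finset.sum_le_sum fun m hm => by
          rw [mem_Icc] at hm
          exact (IsAddCyclic.card_nsmul_eq_zero_le (by omega)).trans hm.2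
      _ = M ^ 2 := by rw [Finset.sum_const, Nat.card_Icc, smul_eq_mul, Nat.add_sub_cancel, pow_two]
  have h2 : (M : ℝ) ≤ B := by rw [hM]; exact Nat.floor_le hB
  calc ((univ.filter fun x : ZMod r => (addOrderOf x : ℝ) ≤ B).card : ℝ) ≤ ((M ^ 2 : ℕ) : ℝ) := Nat.cast_le.mpr h1
    _ = (M : ℝ) ^ 2 := by push_cast; rfl
    _ ≤ B ^ 2 := pow_le_pow_left₀ (by positivity) h2 2

end Pool.Agent.HUK
end

-- from Lib.HUK.KA0
section

/-!
# Project HUK, chunk KA0 (S/M): elimination in a finite module over `ZMod q`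
-/

open Finset

namespace Pool.Agent.HUK

private theorem ka0_two {q : ℕ} [NeZero q] (t : ZMod q) (x : ℤ) (h1 : -(q : ℤ) < x) (h2 : x < q) (hx : (x : ZMod q) = t) :
    x = (t.val : ℤ) ∨ x = (t.val : ℤ) - q := by
  have hq : (0 : ℤ) < q := by exact_mod_cast Nat.pos_of_ne_zero (NeZero.ne q)
  have h3 : ((t.val : ℤ) : ZMod q) = t := by
    rw [Int.cast_natCast, ZMod.natCast_zmod_val]
  have h4 : (x : ZMod q) = ((t.val : ℤ) : ZMod q) := by rw [hx, h3]
  rw [ZMod.intCast_eq_intCast_iff_dvd_sub] at h4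
  obtain ⟨c, hc⟩ := h4
  have h5 : (t.val : ℤ) < q := by exact_mod_cast ZMod.val_lt t
  have h6 : (0 : ℤ) ≤ (t.val : ℤ) := by positivity
  have h7 : c < 2 := by
    by_contra h
    push Not at h
    nlinarith
  have h8 : -1 < c := by
    by_contra h
    push Not at h
    nlinarith
  have h9 : c = 0 ∨ c = 1 := by omega
  rcases h9 with rfl | rfl
  · left
    linarith
  · right
    linarith

private theorem ka0_fibre {q : ℕ} [NeZero q] (r : ℕ) (t : Fin r → ZMod q) :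
    ((bxS r q).filter fun j => (fun i => ((j i : ℤ) : ZMod q)) = t).card ≤ 2 ^ r := by
  have h1 : ((bxS r q).filter fun j => (fun i => ((j i : ℤ) : ZMod q)) = t) ⊆
      Fintype.piFinset fun i => ({((t i).val : ℤ), ((t i).val : ℤ) - q} : Finset ℤ) := by
    intro j hj
    rw [Finset.mem_filter, bxS, Fintype.mem_piFinset] at hj
    rw [Fintype.mem_piFinset]
    intro i
    rw [Finset.mem_insert, Finset.mem_singleton]
    have h2 := Finset.mem_Ioo.1 (hj.1 i)
    exact ka0_two (t i) (j i) h2.1 h2.2 (congrFun hj.2 i)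
  refine (Finset.card_le_card h1).trans ?_
  rw [Fintype.card_piFinset]
  refine (Finset.prod_le_prod (fun _ _ => Nat.zero_le _) fun i _ => Finset.card_le_two).trans ?_
  simp

private theorem ka0_sum {q : ℕ} [NeZero q] (r : ℕ) (F : (Fin r → ZMod q) → ℝ) (hF : ∀ t, 0 ≤ F t) :
    ∑ j ∈ bxS r q, F (fun i => ((j i : ℤ) : ZMod q)) ≤ 2 ^ r * ∑ t, F t := by
  classical
  rw [← Finset.sum_fiberwise_of_maps_to (s := bxS r q) (t := univ)
    (g := fun j : Fin r → ℤ => (fun i => ((j i : ℤ) : ZMod q))) (fun _ _ => Finset.mem_univ _), Finset.mul_sum]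
  refine Finset.sum_le_sum fun t _ => ?_
  have h1 : ∑ j ∈ (bxS r q).filter (fun j => (fun i => ((j i : ℤ) : ZMod q)) = t), F (fun i => ((j i : ℤ) : ZMod q)) =
      ∑ j ∈ (bxS r q).filter (fun j => (fun i => ((j i : ℤ) : ZMod q)) = t), F t := by
    refine Finset.sum_congr rfl fun j hj => ?_
    rw [(Finset.mem_filter.1 hj).2]
  rw [h1, Finset.sum_const, nsmul_eq_mul]
  refine mul_le_mul_of_nonneg_right ?_ (hF t)
  exact_mod_cast ka0_fibre r t

/-- Proof. `E1_elim` with `B = B' = univ`, `N = card Z`, `H = q`: the left side is the same, the right side is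
`2^(2^r) / q^r * ∑_{j ∈ bxS r q} ‖∑_z DL (List.ofFn fun i => j i • v i) c z‖ / card Z` with integers `-q < j i < q`, and
`(j i : ℤ) • v i = ((j i : ℤ) : ZMod q) • v i` (`Int.cast_smul_eq_zsmul`). The map `bxS r q → (Fin r → ZMod q)` (cast of every coordinate)
has at most `2^r` elements in every fibre: in `(-q, q)` there are at most two representatives of a class modulo `q`
(`Finset.sum_fiberwise_of_maps_to` or `Finset.card_le_mul_card_image`; or by induction on `r`; or compare with the product structure: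
the fibre over `t` is contained in the `piFinset` of the sets of the two integers `(t i).val`, `(t i).val - q`). -/
theorem KA0_elim {q : ℕ} [NeZero q] {Z : Type*} [AddCommGroup Z] [Module (ZMod q) Z] [Fintype Z] [DecidableEq Z]
    (r : ℕ) (v : Fin r → Z) (g : Fin r → Z → ℂ) (c : Z → ℂ) (hg : ∀ i z, ‖g i z‖ ≤ 1)
    (hinv : ∀ i z, g i (z + v i) = g i z) :
    (‖∑ z, (∏ i, g i z) * c z‖ / Fintype.card Z) ^ (2 ^ r) ≤
      2 ^ (2 ^ r + r) / (q : ℝ) ^ r *
        ∑ j : Fin r → ZMod q, ‖∑ z, DL (List.ofFn fun i => j i • v i) c z‖ / Fintype.card Z := by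
  have hE := E1_elim (univ : Finset Z) univ (Fintype.card Z : ℝ) (by rw [Finset.card_univ])
    (by exact_mod_cast Fintype.card_pos) q (Nat.pos_of_ne_zero (NeZero.ne q)) r v g c hg hinv
    (fun z hz => absurd (Finset.mem_univ z) hz) (fun _ _ _ _ _ => Finset.mem_univ _)
  refine hE.trans ?_
  have hs := ka0_sum (q := q) r (fun t => ‖∑ z, DL (List.ofFn fun i => t i • v i) c z‖ / Fintype.card Z)
    (fun t => by positivity)
  have he : ∑ j ∈ bxS r q, ‖∑ z, DL (List.ofFn fun i => j i • v i) c z‖ / (Fintype.card Z : ℝ) =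
      ∑ j ∈ bxS r q, (fun t : Fin r → ZMod q => ‖∑ z, DL (List.ofFn fun i => t i • v i) c z‖ / (Fintype.card Z : ℝ))
        (fun i => ((j i : ℤ) : ZMod q)) := by
    refine Finset.sum_congr rfl fun j _ => ?_
    simp only [Int.cast_smul_eq_zsmul]
  rw [he]
  refine (mul_le_mul_of_nonneg_left hs (by positivity)).trans (le_of_eq ?_)
  rw [pow_add]
  ring

end Pool.Agent.HUK
end

-- from Lib.HUK.KA8
section

/-!
# Project HUK, chunk KA8 (M/L): Fourier coefficients of the differences of a character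
-/

open Finset

namespace Pool.Agent.HUK

/-- The vertices of the cube of dimension `s + 1`: for `u` of absolute value `1` the factors cancel. Proof. `cj (sg ω) u` is `u` or `conj u = u⁻¹`
according to the parity of `sg ω`; pair `Fin.cons false ω` with `Fin.cons true ω` (`Fin.consEquiv`, `p0_sg_cons` in `P0.lean`), the product of a pair is
`u conj u = 1`. -/
theorem KA8_one (s : ℕ) (u : ℂ) (hu : ‖u‖ = 1) : ∏ ω : Fin (s + 1) → Bool, cj (sg ω) u = 1 := by
  rw [← (Fin.consEquiv fun _ : Fin (s + 1) => Bool).prod_comp, Fintype.prod_prod_type,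
    Fintype.prod_bool, ← Finset.prod_mul_distrib]
  refine Finset.prod_eq_one fun ω _ => ?_
  change cj (sg (Fin.cons true ω : Fin (s + 1) → Bool)) u *
    cj (sg (Fin.cons false ω : Fin (s + 1) → Bool)) u = 1
  rw [p0_sg_cons, p0_sg_cons]
  simp only [if_true, Bool.false_eq_true, if_false, add_zero]
  rw [← p0_cj_conj, ← p0_cj_mul, mul_comm, Complex.mul_conj, Complex.normSq_eq_norm_sq, hu]
  unfold cj
  split_ifs <;> simp

theorem ka8_vt {r : ℕ} {s : ℕ} (ω : Fin s → Bool) (t : Fin s → ZMod r) (a : ZMod r) :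
    vt ω (fun i => a * t i) = a * vt ω t := by
  unfold vt
  rw [Finset.mul_sum]
  refine Finset.sum_congr rfl fun i _ => ?_
  split_ifs
  · rfl
  · rw [mul_zero]

/-- Proof. Let `a` be the class of the unit. `DL_prod` (`P0.lean`): both sides are products over the vertices;
`χ (a y + vt ω (a t)) = χ a * χ (y + vt ω t)`, `cj n (u v) = cj n u * cj n v`, `‖χ a‖ = 1` for a unit (`DirichletCharacter.unit_norm_eq_one`), `KA8_one`. -/
theorem KA8_dil {r : ℕ} [NeZero r] (s : ℕ) (χ : DirichletCharacter ℂ r) (t : Fin (s + 1) → ZMod r) (a y : ZMod r)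
    (ha : IsUnit a) : DL (List.ofFn fun i => a * t i) (fun y => χ y) (a * y) = DL (List.ofFn t) (fun y => χ y) y := by
  rw [DL_prod, DL_prod]
  have h1 : ∀ ω : Fin (s + 1) → Bool, cj (sg ω) (χ (a * y + vt ω fun i => a * t i)) =
      cj (sg ω) (χ a) * cj (sg ω) (χ (y + vt ω t)) := by
    intro ω
    rw [← p0_cj_mul, ← map_mul]
    congr 2
    rw [mul_add, ka8_vt]
  rw [Finset.prod_congr rfl fun ω _ => h1 ω, Finset.prod_mul_distrib]
  have h2 : ‖χ a‖ = 1 := by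
    obtain ⟨u, rfl⟩ := ha
    exact χ.unit_norm_eq_one u
  rw [KA8_one s (χ a) h2, one_mul]

theorem ka8_inner {r : ℕ} [NeZero r] (s : ℕ) (χ : DirichletCharacter ℂ r)
    (t : Fin (s + 1) → ZMod r) (ψ a : ZMod r) (ha : IsUnit a) :
    ∑ y, DL (List.ofFn fun i => a * t i) (fun y => χ y) y * ZMod.stdAddChar ((-ψ) * a⁻¹ * y) =
      (r : ℂ) * ft (DL (List.ofFn t) fun y => χ y) ψ := by
  have hr : (r : ℂ) ≠ 0 := Nat.cast_ne_zero.2 (NeZero.ne r)
  have hinv := ZMod.inv_mul_of_unit a ha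
  obtain ⟨u, hu⟩ := ha
  rw [ft, mul_comm (r : ℂ), div_mul_cancel₀ _ hr, ← Equiv.sum_comp (Units.mulLeft u)]
  refine Finset.sum_congr rfl fun x _ => ?_
  rw [Units.mulLeft_apply, hu, KA8_dil s χ t a x ⟨u, hu⟩]
  congr 2
  calc (-ψ) * a⁻¹ * (a * x) = (-ψ) * (a⁻¹ * a) * x := by ring
    _ = -(ψ * x) := by rw [hinv]; ring

theorem ka8_units {r : ℕ} [NeZero r] (K : ℂ) (F : ZMod r → ℂ) (h1 : ∀ a, IsUnit a → F a = K)
    (h2 : ∀ a, ¬ IsUnit a → F a = 0) : ∑ a, F a = (Nat.totient r : ℂ) * K := by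
  have h3 := MulChar.sum_one_eq_card_units (R := ZMod r) (R' := ℂ)
  rw [ZMod.card_units_eq_totient] at h3
  rw [← h3, Finset.sum_mul]
  refine Finset.sum_congr rfl fun a _ => ?_
  by_cases h : IsUnit a
  · rw [h1 a h, MulChar.one_apply h, one_mul]
  · rw [h2 a h, MulChar.map_nonunit _ h, zero_mul]

theorem ka8_cj_norm (n : ℕ) (z : ℂ) : ‖cj n z‖ = ‖z‖ := by
  unfold cj
  split_ifs
  · rfl
  · exact RCLike.norm_conj z

open Classical in
theorem ka8_key (s : ℕ) {r : ℕ} [NeZero r] (χ : DirichletCharacter ℂ r)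
    (t : Fin (s + 1) → ZMod r) (ψ : ZMod r) (n : ℕ) (hn : n = 2 ^ (s + 1)) :
    (‖ft (DL (List.ofFn t) fun y => χ y) ψ‖ * ((Nat.totient r : ℝ) / r)) ^ (2 ^ n) ≤
      (2 : ℝ) ^ (2 ^ n + n) / (r : ℝ) ^ (n + 1) *
        ((univ.filter fun p : (Fin n → ZMod r) × ZMod r =>
          (-ψ) * DG (List.ofFn p.1) p.2 = 0).card : ℝ) := by
  have hr : (0 : ℝ) < r := Nat.cast_pos.2 (Nat.pos_of_ne_zero (NeZero.ne r))
  obtain ⟨σ⟩ : Nonempty (Fin n ≃ (Fin (s + 1) → Bool)) := by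
    refine ⟨(Fintype.equivFinOfCardEq ?_).symm⟩
    rw [Fintype.card_fun, Fintype.card_bool, Fintype.card_fin, hn]
  obtain ⟨g, hg⟩ : ∃ g : Fin n → ZMod r × ZMod r → ℂ, ∀ i z, g i z =
      cj (sg (σ i)) (χ (z.1 + z.2 * vt (σ i) t)) := ⟨_, fun _ _ => rfl⟩
  obtain ⟨c, hc⟩ : ∃ c : ZMod r × ZMod r → ℂ, c = fun z : ZMod r × ZMod r =>
      if IsUnit z.2 then (ZMod.stdAddChar ((-ψ) * z.2⁻¹ * z.1) : ℂ) else 0 := ⟨_, rfl⟩
  have hE := KA0_elim (q := r) (Z := ZMod r × ZMod r) n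
    (fun i => ((-(vt (σ i) t), 1) : ZMod r × ZMod r)) g c
    (fun i z => by
      rw [hg, ka8_cj_norm]
      exact χ.norm_le_one _)
    (fun i z => by
      rw [hg, hg]
      congr 2
      change z.1 + -(vt (σ i) t) + (z.2 + 1) * vt (σ i) t = z.1 + z.2 * vt (σ i) t
      ring)
  have hprod : ∀ z : ZMod r × ZMod r, ∏ i, g i z =
      DL (List.ofFn fun i => z.2 * t i) (fun y => χ y) z.1 := by
    intro z
    rw [DL_prod, Finset.prod_congr rfl fun i _ => hg i z]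
    rw [Equiv.prod_comp σ (fun ω => cj (sg ω) (χ (z.1 + z.2 * vt ω t)))]
    refine Finset.prod_congr rfl fun ω _ => ?_
    rw [ka8_vt]
  have htot : ∑ z, (∏ i, g i z) * c z =
      (Nat.totient r : ℂ) * ((r : ℂ) * ft (DL (List.ofFn t) fun y => χ y) ψ) := by
    rw [Fintype.sum_prod_type_right]
    refine ka8_units _ _ (fun a ha => ?_) (fun a ha => ?_)
    · rw [← ka8_inner s χ t ψ a ha]
      refine Finset.sum_congr rfl fun y _ => ?_
      rw [hprod, hc]
      change DL (List.ofFn fun i => a * t i) (fun y => χ y) y *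
        (if IsUnit a then (ZMod.stdAddChar ((-ψ) * a⁻¹ * y) : ℂ) else 0) = _
      rw [if_pos ha]
    · refine Finset.sum_eq_zero fun y _ => ?_
      rw [hc]
      change (∏ i, g i (y, a)) *
        (if IsUnit a then (ZMod.stdAddChar ((-ψ) * a⁻¹ * y) : ℂ) else 0) = 0
      rw [if_neg ha, mul_zero]
  have hcard : (Fintype.card (ZMod r × ZMod r) : ℝ) = (r : ℝ) ^ 2 := by
    rw [Fintype.card_prod, ZMod.card]
    push_cast
    ring
  rw [htot, hcard] at hE
  have hT : ‖(Nat.totient r : ℂ) * ((r : ℂ) * ft (DL (List.ofFn t) fun y => χ y) ψ)‖ / (r : ℝ) ^ 2 =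
      ‖ft (DL (List.ofFn t) fun y => χ y) ψ‖ * ((Nat.totient r : ℝ) / r) := by
    rw [norm_mul, norm_mul, Complex.norm_natCast, Complex.norm_natCast]
    field_simp
  rw [hT] at hE
  refine le_trans hE ?_
  have hsum : ∑ j : Fin n → ZMod r, ‖∑ z, DL (List.ofFn fun i => j i •
      ((-(vt (σ i) t), 1) : ZMod r × ZMod r)) c z‖ / (r : ℝ) ^ 2 ≤
      ((univ.filter fun p : (Fin n → ZMod r) × ZMod r =>
          (-ψ) * DG (List.ofFn p.1) p.2 = 0).card : ℝ) / r := by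
    rw [Finset.natCast_card_filter, Fintype.sum_prod_type, Finset.sum_div]
    refine Finset.sum_le_sum fun j _ => ?_
    have h7 := KA7_phase n (fun i => vt (σ i) t) (-ψ) j
    rw [← hc, Finset.natCast_card_filter] at h7
    calc ‖∑ z, DL (List.ofFn fun i => j i • ((-(vt (σ i) t), 1) : ZMod r × ZMod r)) c z‖ /
          (r : ℝ) ^ 2
        ≤ (r * ∑ a : ZMod r, if (-ψ) * DG (List.ofFn j) a = 0 then (1 : ℝ) else 0) / (r : ℝ) ^ 2 :=
          div_le_div_of_nonneg_right h7 (by positivity)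
      _ = (∑ a : ZMod r, if (-ψ) * DG (List.ofFn j) a = 0 then (1 : ℝ) else 0) / r := by
          field_simp
  calc (2 : ℝ) ^ (2 ^ n + n) / (r : ℝ) ^ n * ∑ j : Fin n → ZMod r,
        ‖∑ z, DL (List.ofFn fun i => j i • ((-(vt (σ i) t), 1) : ZMod r × ZMod r)) c z‖ /
          (r : ℝ) ^ 2
      ≤ (2 : ℝ) ^ (2 ^ n + n) / (r : ℝ) ^ n *
        (((univ.filter fun p : (Fin n → ZMod r) × ZMod r =>
          (-ψ) * DG (List.ofFn p.1) p.2 = 0).card : ℝ) / r) :=
        mul_le_mul_of_nonneg_left hsum (by positivity)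
    _ = (2 : ℝ) ^ (2 ^ n + n) / (r : ℝ) ^ (n + 1) *
        ((univ.filter fun p : (Fin n → ZMod r) × ZMod r =>
          (-ψ) * DG (List.ofFn p.1) p.2 = 0).card : ℝ) := by
        rw [pow_succ (r : ℝ) n]
        field_simp

/-- Proof. Let `n = 2^(s+1)`, `σ : Fin n ≃ (Fin (s+1) → Bool)` (`Fintype.equivFinOfCardEq`), `Z = ZMod r × ZMod r`, `F = DL (List.ofFn t) χ`,
`c (y, a) = stdAddChar ((-ψ) * a⁻¹ * y)` for a unit `a`, `0` else, `g i (y, a) = cj (sg ω) (χ (y + a * vt ω t))` with `ω = σ i`, and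
`v i = (-(vt ω t), 1)`; `g i (z + v i) = g i z`, `‖g i z‖ ≤ 1`. For a unit `a` (substitution `y = a x`, `KA8_dil`, `a⁻¹ * (a * x) = x`):
`r * ft F ψ = ∑_x F x stdAddChar (-(ψ x)) = ∑_y DL (List.ofFn fun i => a * t i) χ y * c (y, a)`, and `DL (..) χ y = ∏ i, g i (y, a)` (`DL_prod`,
`vt ω (a t) = a * vt ω t`, `Equiv.prod_comp`). The number of units is `φ(r)` (`ZMod.card_units_eq_totient`), so
`φ(r) * r * ft F ψ = ∑_z (∏ i, g i z) * c z`, i.e. `‖ft F ψ‖ φ(r) / r = ‖∑_z ..‖ / r^2`. `KA0_elim` (`q = r`, `n` functions) and `KA7_phase`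
(for `-ψ`): `(..)^(2^n) ≤ 2^(2^n + n) / r^n * ∑_j r * #{a | (-ψ) * DG (List.ofFn j) a = 0} / r^2 = 2^(2^n + n) / r^(n+1) * #{(j, a)}`, at most
`2^(2^n + n) * C * (addOrderOf (-ψ))^(-e)` by `KA6_prob` (`n ≥ 1`), `addOrderOf_neg`. Take the root of order `2^n`. -/
theorem KA8_ft (s : ℕ) : ∃ C e : ℝ, 0 < C ∧ 0 < e ∧ e ≤ 1 ∧ ∀ (r : ℕ) [NeZero r] (χ : DirichletCharacter ℂ r)
    (t : Fin (s + 1) → ZMod r) (ψ : ZMod r),
    ‖ft (DL (List.ofFn t) fun y => χ y) ψ‖ * ((Nat.totient r : ℝ) / r) ≤ C * (addOrderOf ψ : ℝ) ^ (-e) := by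
  have hn : 1 ≤ 2 ^ (s + 1) := Nat.one_le_two_pow
  obtain ⟨C0, e0, hC0, he0, he1, hprob⟩ := KA6_prob (2 ^ (s + 1)) hn
  obtain ⟨n, hnd⟩ : ∃ n : ℕ, n = 2 ^ (s + 1) := ⟨_, rfl⟩
  rw [← hnd] at hprob
  have hN0 : (0 : ℝ) < (2 : ℝ) ^ n := by positivity
  have hN1 : (1 : ℝ) ≤ (2 : ℝ) ^ n := one_le_pow₀ (by norm_num)
  refine ⟨((2 : ℝ) ^ (2 ^ n + n) * C0) ^ (1 / (2 : ℝ) ^ n), e0 / (2 : ℝ) ^ n, by positivity,
    by positivity, ?_, ?_⟩
  · rw [div_le_one hN0]
    linarith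
  · intro r _ χ t ψ
    have hr : (0 : ℝ) < r := Nat.cast_pos.2 (Nat.pos_of_ne_zero (NeZero.ne r))
    have hkey := ka8_key s χ t ψ n hnd
    have h1 : ((univ.filter fun p : (Fin n → ZMod r) × ZMod r =>
        (-ψ) * DG (List.ofFn p.1) p.2 = 0).card : ℝ) ≤
        C0 * (r : ℝ) ^ (n + 1) * (addOrderOf ψ : ℝ) ^ (-e0) := by
      have h2 := hprob r (-ψ)
      rw [addOrderOf_neg] at h2
      exact h2
    obtain ⟨T, hT⟩ : ∃ T : ℝ, T = ‖ft (DL (List.ofFn t) fun y => χ y) ψ‖ *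
      ((Nat.totient r : ℝ) / r) := ⟨_, rfl⟩
    have hT0 : 0 ≤ T := by rw [hT]; positivity
    rw [← hT] at hkey ⊢
    have hord : (0 : ℝ) < addOrderOf ψ := Nat.cast_pos.2 (addOrderOf_pos ψ)
    have h3 : T ^ (2 ^ n) ≤ (2 : ℝ) ^ (2 ^ n + n) * C0 * (addOrderOf ψ : ℝ) ^ (-e0) := by
      refine le_trans hkey ?_
      calc (2 : ℝ) ^ (2 ^ n + n) / (r : ℝ) ^ (n + 1) *
            ((univ.filter fun p : (Fin n → ZMod r) × ZMod r =>
              (-ψ) * DG (List.ofFn p.1) p.2 = 0).card : ℝ)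
          ≤ (2 : ℝ) ^ (2 ^ n + n) / (r : ℝ) ^ (n + 1) *
            (C0 * (r : ℝ) ^ (n + 1) * (addOrderOf ψ : ℝ) ^ (-e0)) :=
            mul_le_mul_of_nonneg_left h1 (by positivity)
        _ = (2 : ℝ) ^ (2 ^ n + n) * C0 * (addOrderOf ψ : ℝ) ^ (-e0) := by
            field_simp
    have h4 : T = (T ^ (2 ^ n)) ^ (1 / (2 : ℝ) ^ n) := by
      rw [← Real.rpow_natCast T (2 ^ n), ← Real.rpow_mul hT0]
      push_cast
      rw [mul_one_div_cancel hN0.ne', Real.rpow_one]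
    rw [h4]
    calc (T ^ (2 ^ n)) ^ (1 / (2 : ℝ) ^ n)
        ≤ ((2 : ℝ) ^ (2 ^ n + n) * C0 * (addOrderOf ψ : ℝ) ^ (-e0)) ^ (1 / (2 : ℝ) ^ n) :=
          Real.rpow_le_rpow (by positivity) h3 (by positivity)
      _ = ((2 : ℝ) ^ (2 ^ n + n) * C0) ^ (1 / (2 : ℝ) ^ n) *
          (addOrderOf ψ : ℝ) ^ (-(e0 / (2 : ℝ) ^ n)) := by
          rw [Real.mul_rpow (by positivity) (by positivity), ← Real.rpow_mul hord.le]
          congr 2
          ring

end Pool.Agent.HUK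
end

-- from Lib.HUK.KA13
section

/-!
# Project HUK, chunk KA13 (M): the Gowers norms of primitive characters are small
-/

open Finset

namespace Pool.Agent.HUK

theorem ka13_sq {r : ℕ} [NeZero r] (f : ZMod r → ℂ) (hf : ∀ y, ‖f y‖ ≤ 1) : ∑ x, ‖ft f x‖ ^ 2 ≤ 1 := by
  have hr : (0 : ℝ) < r := by exact_mod_cast Nat.pos_of_ne_zero (NeZero.ne r)
  rw [KA9_parseval, div_le_one hr]
  calc ∑ y, ‖f y‖ ^ 2 ≤ ∑ y : ZMod r, (1 : ℝ) := sum_le_sum fun y _ => pow_le_one₀ (norm_nonneg _) (hf y)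
    _ = r := by simp [ZMod.card]

theorem ka13_one {r : ℕ} [NeZero r] (f : ZMod r → ℂ) (hf : ∀ y, ‖f y‖ ≤ 1) (x : ZMod r) : ‖ft f x‖ ^ 2 ≤ 1 :=
  (single_le_sum (f := fun x => ‖ft f x‖ ^ 2) (fun _ _ => by positivity) (mem_univ x)).trans (ka13_sq f hf)

theorem ka13_t {r : ℕ} [NeZero r] (f : ZMod r → ℂ) (hf : ∀ y, ‖f y‖ ≤ 1) (B M : ℝ)
    (hM : ∀ x : ZMod r, B < (addOrderOf x : ℝ) → ‖ft f x‖ ^ 2 ≤ M) (hM0 : 0 ≤ M) :
    ∑ x, ‖ft f x‖ ^ 4 ≤ M + ∑ x ∈ univ.filter (fun x : ZMod r => (addOrderOf x : ℝ) ≤ B), ‖ft f x‖ ^ 2 := by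
  rw [← Finset.sum_filter_add_sum_filter_not univ (fun x : ZMod r => (addOrderOf x : ℝ) ≤ B), add_comm]
  refine add_le_add ?_ ?_
  · calc ∑ x ∈ univ.filter (fun x : ZMod r => ¬ (addOrderOf x : ℝ) ≤ B), ‖ft f x‖ ^ 4 ≤
          ∑ x ∈ univ.filter (fun x : ZMod r => ¬ (addOrderOf x : ℝ) ≤ B), M * ‖ft f x‖ ^ 2 := by
          refine sum_le_sum fun x hx => ?_
          have h1 := hM x (not_le.1 (mem_filter.1 hx).2)
          have h2 : ‖ft f x‖ ^ 4 = ‖ft f x‖ ^ 2 * ‖ft f x‖ ^ 2 := by ring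
          rw [h2]
          exact mul_le_mul_of_nonneg_right h1 (by positivity)
      _ ≤ ∑ x, M * ‖ft f x‖ ^ 2 := sum_le_sum_of_subset_of_nonneg (filter_subset _ _) fun x _ _ => by positivity
      _ = M * ∑ x, ‖ft f x‖ ^ 2 := by rw [Finset.mul_sum]
      _ ≤ M * 1 := mul_le_mul_of_nonneg_left (ka13_sq f hf) hM0
      _ = M := mul_one _
  · refine sum_le_sum fun x _ => ?_
    have h1 := ka13_one f hf x
    have h2 : ‖ft f x‖ ^ 4 = ‖ft f x‖ ^ 2 * ‖ft f x‖ ^ 2 := by ring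
    rw [h2]
    exact mul_le_of_le_one_left (by positivity) h1

/-- Proof by induction on `s`. `s = 0`: `KA10_four` (`s = 0`, one `t`, `DL [] f = f`): `uG 2 χ = ∑_x ‖ft χ x‖⁴ ≤ (1/r) ∑_x ‖ft χ x‖² ≤ 1/r`
(`KA11_gauss`, `KA9_parseval`, `‖χ y‖ ≤ 1`); `C = e = 1`. Step: `C'`, `e'` for `s`; `C1`, `e1` from `KA8_ft s`; `ε = e1 e' / 8`,
`C2` from `KA11_tot ε`; `B = r^(e'/4) ≥ 1`. `KA10_four`: `uG (s+3) χ = r^(-(s+1)) ∑_{t : Fin (s+1) → ZMod r} ∑_x ‖ft (D_t χ) x‖⁴`. Terms with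
`addOrderOf x > B`: `‖ft‖² ≤ (r/φ(r))² C1² B^(-2 e1)` (`KA8_ft`), the sum over `x` of `‖ft‖²` is at most `1` (`KA9_parseval`, `‖D_t χ‖ ≤ 1`,
`DL_norm` in `P0.lean`), total at most `C2² r^(2ε) C1² r^(-e1 e'/2) = (C1 C2)² r^(-e1 e'/4)`. Terms with `addOrderOf x ≤ B`: at most `B²` values of `x`
(`KA11_ord`), `‖ft‖⁴ ≤ ‖ft‖²` (`‖ft‖ ≤ 1`), the average over `t` is at most `uG (s+2) χ ≤ C' r^(-e')` (`KA10_le`), total at most
`B² C' r^(-e') = C' r^(-e'/2)`. So `e = e1 e' / 4`, `C = (C1 C2)² + C'`. -/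
theorem KA13_u (s : ℕ) : ∃ C e : ℝ, 0 < C ∧ 0 < e ∧ e ≤ 1 ∧ ∀ (r : ℕ) [NeZero r] (χ : DirichletCharacter ℂ r),
    χ.IsPrimitive → uG (s + 2) (fun y => χ y) ≤ C * (r : ℝ) ^ (-e) := by
  induction s with
  | zero =>
    refine ⟨1, 1, one_pos, one_pos, le_refl _, fun r _ χ hχ => ?_⟩
    have hr : (0 : ℝ) < r := by exact_mod_cast Nat.pos_of_ne_zero (NeZero.ne r)
    have hχn : ∀ y, ‖χ y‖ ≤ 1 := fun y => χ.norm_le_one y
    rw [KA10_four, pow_zero, div_one, Fintype.sum_unique, one_mul, Real.rpow_neg_one]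
    have h0 : ∀ t : Fin 0 → ZMod r, DL (List.ofFn t) (fun y => χ y) = fun y => χ y := by
      intro t
      rw [List.ofFn_zero]
      rfl
    rw [h0]
    calc ∑ x, ‖ft (fun y => χ y) x‖ ^ 4 ≤ ∑ x, (1 / (r : ℝ)) * ‖ft (fun y => χ y) x‖ ^ 2 := by
          refine sum_le_sum fun x _ => ?_
          have h1 := KA11_gauss χ hχ x
          have h2 : ‖ft (fun y => χ y) x‖ ^ 4 = ‖ft (fun y => χ y) x‖ ^ 2 * ‖ft (fun y => χ y) x‖ ^ 2 := by ring
          rw [h2]
          exact mul_le_mul_of_nonneg_right h1 (by positivity)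
      _ = 1 / (r : ℝ) * ∑ x, ‖ft (fun y => χ y) x‖ ^ 2 := by rw [Finset.mul_sum]
      _ ≤ 1 / (r : ℝ) * 1 := mul_le_mul_of_nonneg_left (ka13_sq _ hχn) (by positivity)
      _ = (r : ℝ)⁻¹ := by rw [mul_one, one_div]
  | succ s ih =>
    obtain ⟨C', e', hC', he', he'1, h'⟩ := ih
    obtain ⟨C1, e1, hC1, he1, he11, h1⟩ := KA8_ft s
    obtain ⟨C2, hC2, h2⟩ := KA11_tot (e1 * e' / 8) (by positivity)
    have hee : e1 * e' ≤ e' := mul_le_of_le_one_left he'.le he11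
    refine ⟨(C1 * C2) ^ 2 + C', e1 * e' / 4, by positivity, by positivity, by linarith, fun r _ χ hχ => ?_⟩
    have hr1 : 1 ≤ r := Nat.pos_of_ne_zero (NeZero.ne r)
    have hrr : (1 : ℝ) ≤ r := by exact_mod_cast hr1
    have hr0 : (0 : ℝ) < r := by linarith
    have hχn : ∀ y, ‖χ y‖ ≤ 1 := fun y => χ.norm_le_one y
    have hφ : (0 : ℝ) < (Nat.totient r : ℝ) := by exact_mod_cast Nat.totient_pos.2 hr1
    obtain ⟨B, hB⟩ : ∃ B : ℝ, B = (r : ℝ) ^ (e' / 4) := ⟨_, rfl⟩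
    have hB0 : 0 < B := by rw [hB]; positivity
    obtain ⟨M, hM⟩ : ∃ M : ℝ, M = (C1 * C2) ^ 2 * (r : ℝ) ^ (-(e1 * e' / 4)) := ⟨_, rfl⟩
    have hM0 : 0 ≤ M := by rw [hM]; positivity
    have key : ∀ t : Fin (s + 1) → ZMod r, ∀ x : ZMod r, B < (addOrderOf x : ℝ) →
        ‖ft (DL (List.ofFn t) fun y => χ y) x‖ ^ 2 ≤ M := by
      intro t x hx
      have h3 := h1 r χ t x
      have h4 : (addOrderOf x : ℝ) ^ (-e1) ≤ (r : ℝ) ^ (-(e1 * e' / 4)) := by
        have : (addOrderOf x : ℝ) ^ (-e1) ≤ B ^ (-e1) := Real.rpow_le_rpow_of_nonpos hB0 hx.le (by linarith)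
        refine this.trans (le_of_eq ?_)
        rw [hB, ← Real.rpow_mul hr0.le]
        congr 1
        ring
      have h5 := h2 r hr1
      have h6 : ‖ft (DL (List.ofFn t) fun y => χ y) x‖ ≤ C1 * C2 * (r : ℝ) ^ (-(e1 * e' / 8)) := by
        have h7 : ‖ft (DL (List.ofFn t) fun y => χ y) x‖ =
            ‖ft (DL (List.ofFn t) fun y => χ y) x‖ * ((Nat.totient r : ℝ) / r) * ((r : ℝ) / Nat.totient r) := by
          field_simp
        rw [h7]
        calc _ ≤ C1 * (addOrderOf x : ℝ) ^ (-e1) * (C2 * (r : ℝ) ^ (e1 * e' / 8)) :=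
              mul_le_mul h3 h5 (by positivity) (by positivity)
          _ ≤ C1 * (r : ℝ) ^ (-(e1 * e' / 4)) * (C2 * (r : ℝ) ^ (e1 * e' / 8)) :=
              mul_le_mul_of_nonneg_right (mul_le_mul_of_nonneg_left h4 hC1.le) (by positivity)
          _ = C1 * C2 * ((r : ℝ) ^ (-(e1 * e' / 4)) * (r : ℝ) ^ (e1 * e' / 8)) := by ring
          _ = _ := by
            rw [← Real.rpow_add hr0]
            congr 2
            ring
      calc ‖ft (DL (List.ofFn t) fun y => χ y) x‖ ^ 2 ≤ (C1 * C2 * (r : ℝ) ^ (-(e1 * e' / 8))) ^ 2 :=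
            pow_le_pow_left₀ (norm_nonneg _) h6 2
        _ = M := by
          rw [mul_pow, hM, ← Real.rpow_natCast ((r : ℝ) ^ (-(e1 * e' / 8))) 2, ← Real.rpow_mul hr0.le]
          congr 2
          push_cast
          ring
    rw [KA10_four]
    have hsum : ∑ t : Fin (s + 1) → ZMod r, ∑ x, ‖ft (DL (List.ofFn t) fun y => χ y) x‖ ^ 4 ≤
        (r : ℝ) ^ (s + 1) * M + B ^ 2 * ((r : ℝ) ^ (s + 1) * (C' * (r : ℝ) ^ (-e'))) := by
      calc _ ≤ ∑ t : Fin (s + 1) → ZMod r, (M + ∑ x ∈ univ.filter (fun x : ZMod r => (addOrderOf x : ℝ) ≤ B),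
            ‖ft (DL (List.ofFn t) fun y => χ y) x‖ ^ 2) :=
            sum_le_sum fun t _ => ka13_t _ (DL_norm _ _ hχn) B M (key t) hM0
        _ = (r : ℝ) ^ (s + 1) * M + ∑ x ∈ univ.filter (fun x : ZMod r => (addOrderOf x : ℝ) ≤ B),
            ∑ t : Fin (s + 1) → ZMod r, ‖ft (DL (List.ofFn t) fun y => χ y) x‖ ^ 2 := by
          rw [Finset.sum_add_distrib, Finset.sum_comm, sum_const, card_univ, Fintype.card_fun, ZMod.card, Fintype.card_fin,
            nsmul_eq_mul]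
          push_cast
          rfl
        _ ≤ (r : ℝ) ^ (s + 1) * M + ∑ x ∈ univ.filter (fun x : ZMod r => (addOrderOf x : ℝ) ≤ B),
            (r : ℝ) ^ (s + 1) * (C' * (r : ℝ) ^ (-e')) := by
          refine add_le_add le_rfl (sum_le_sum fun x _ => (KA10_le s _ x).trans ?_)
          exact mul_le_mul_of_nonneg_left (h' r χ hχ) (by positivity)
        _ ≤ _ := by
          rw [sum_const, nsmul_eq_mul]
          exact add_le_add le_rfl (mul_le_mul_of_nonneg_right (KA11_ord B hB0.le) (by positivity))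
    rw [div_le_iff₀ (by positivity)]
    refine hsum.trans ?_
    have hB2 : B ^ 2 * (r : ℝ) ^ (-e') ≤ (r : ℝ) ^ (-(e1 * e' / 4)) := by
      rw [hB, ← Real.rpow_natCast, ← Real.rpow_mul hr0.le, ← Real.rpow_add hr0]
      refine Real.rpow_le_rpow_of_exponent_le hrr ?_
      push_cast
      linarith
    rw [hM]
    calc _ = (r : ℝ) ^ (s + 1) * ((C1 * C2) ^ 2 * (r : ℝ) ^ (-(e1 * e' / 4))) +
          (r : ℝ) ^ (s + 1) * (C' * (B ^ 2 * (r : ℝ) ^ (-e'))) := by ring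
      _ ≤ (r : ℝ) ^ (s + 1) * ((C1 * C2) ^ 2 * (r : ℝ) ^ (-(e1 * e' / 4))) +
          (r : ℝ) ^ (s + 1) * (C' * (r : ℝ) ^ (-(e1 * e' / 4))) :=
          add_le_add le_rfl (mul_le_mul_of_nonneg_left (mul_le_mul_of_nonneg_left hB2 hC'.le) (by positivity))
      _ = _ := by ring

end Pool.Agent.HUK
end
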