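import Pool.Agent.Lib.H59M.M1.M011
import Pool.Agent.Lib.H59M.M1.M012
import Pool.Agent.Lib.H59M.M1.M017
import Pool.Agent.Lib.H59M.M1.M019
import Pool.Agent.Lib.H59M.M1.M020
import Pool.Agent.Lib.H59M.M1.M025
import Pool.Agent.Lib.H59M.M1.M030
import Pool.Agent.Lib.H59M.M1.M031
import Pool.Agent.Lib.H59M.M1.M032

/-! Merged copies (to shorten the build) of Lib.H18Q.E5, Lib.H18Q.PD, Lib.H18Q.E7, Lib.H18Q.PH. -/

-- from Lib.H18Q.E5
section

/-!
# Project H18Q, chunk E5: detection of zeros by `χ(n) (1 + ψ(n) n^(-η))`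
-/

open Finset

namespace Pool.Agent.Lib.H18Q

open ArithmeticFunction Pool.Agent.Lib.H68T

theorem E5_analytic (c : ℕ → ℂ) (hc : ∀ n, ‖c n‖ ≤ 2) (s₀ : ℂ) (h : 1 < s₀.re) :
    AnalyticAt ℂ (LSeries (fun n => (Λ n : ℂ) * c n)) s₀ := by
  apply LSeries_analyticOnNhd (fun n => (Λ n : ℂ) * c n) s₀
  have h2 : ((1 : ℝ) : EReal) < (s₀.re : EReal) := by exact_mod_cast h
  exact lt_of_le_of_lt (d0_abs c hc) h2

theorem E5_series (c : ℕ → ℂ) (hc : ∀ n, ‖c n‖ ≤ 2) (F : ℂ → ℂ) (b : Prop) [Decidable b]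
    (hF : ∀ s : ℂ, 1 < s.re → logDeriv F s = -LSeries (fun n => (Λ n : ℂ) * c n) s +
        (if b then 1 / (s - 1) else 0)) (lam : ℝ)
    (hlam : 0 < lam) (k : ℕ) (v : ℝ) :
    ‖(lam : ℂ) ^ (k + 1) * (iteratedDeriv k (logDeriv F) (1 + lam + v * Complex.I) /
      (k.factorial : ℂ))‖ ≤
    ‖∑' n : ℕ, ((Λ n * Jk lam k n : ℝ) : ℂ) * c n *
      (n : ℂ) ^ (-(v * Complex.I))‖ +
      (if b then ‖(lam : ℂ) / (lam + v * Complex.I)‖ ^ (k + 1) else 0) := by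
  have hre := D1_re lam v hlam
  have hser := D0_series c hc lam hlam k v
  have hnser : ‖(lam : ℂ) ^ (k + 1) * (iteratedDeriv k (LSeries (fun n => (Λ n : ℂ) * c n))
      (1 + lam + v * Complex.I) / (k.factorial : ℂ))‖ =
      ‖∑' n : ℕ, ((Λ n * Jk lam k n : ℝ) : ℂ) * c n *
        (n : ℂ) ^ (-(v * Complex.I))‖ := by
    rw [hser, norm_mul, norm_pow, norm_neg, norm_one, one_pow, one_mul]
  by_cases hb : b
  · rw [if_pos hb]
    have hev : logDeriv F =ᶠ[nhds ((1 : ℂ) + lam + v * Complex.I)]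
        fun s => 1 / (s - 1) - LSeries (fun n => (Λ n : ℂ) * c n) s := by
      filter_upwards [D1_near _ hre] with s hs
      rw [hF s hs, if_pos hb]
      ring
    have hd := (hev.iteratedDeriv k).eq_of_nhds
    have hne : ((1 : ℂ) + lam + v * Complex.I) - 1 ≠ 0 := by
      intro h0
      have := congrArg Complex.re h0
      simp at this
      exact hlam.ne' this
    have hA1 : ContDiffAt ℂ k (fun s : ℂ => 1 / (s - 1)) ((1 : ℂ) + lam + v * Complex.I) := by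
      apply ContDiffAt.div contDiffAt_const
      · exact contDiffAt_id.sub contDiffAt_const
      · exact hne
    have hA2 : ContDiffAt ℂ k (LSeries (fun n => (Λ n : ℂ) * c n))
        ((1 : ℂ) + lam + v * Complex.I) := (E5_analytic c hc _ hre).contDiffAt
    rw [hd, iteratedDeriv_fun_sub hA1 hA2, D1_inv, sub_div, mul_sub]
    have hk : (k.factorial : ℂ) ≠ 0 := by exact_mod_cast k.factorial_ne_zero
    have h3 : (lam : ℂ) ^ (k + 1) * ((-1) ^ k * (k.factorial : ℂ) *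
        (1 / ((1 : ℂ) + lam + v * Complex.I - 1) ^ (k + 1)) / (k.factorial : ℂ)) =
        (-1) ^ k * ((lam : ℂ) / (lam + v * Complex.I)) ^ (k + 1) := by
      have h4 : (1 : ℂ) + lam + v * Complex.I - 1 = lam + v * Complex.I := by ring
      rw [h4] at hne ⊢
      rw [div_pow]
      field_simp
    rw [h3]
    refine (norm_sub_le _ _).trans ?_
    rw [hnser, norm_mul, norm_pow, norm_neg, norm_one, one_pow, one_mul, norm_pow]
    linarith
  · rw [if_neg hb, add_zero]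
    have hev : logDeriv F =ᶠ[nhds ((1 : ℂ) + lam + v * Complex.I)]
        fun s => -LSeries (fun n => (Λ n : ℂ) * c n) s := by
      filter_upwards [D1_near _ hre] with s hs
      rw [hF s hs, if_neg hb, add_zero]
    have hd := (hev.iteratedDeriv k).eq_of_nhds
    rw [hd, iteratedDeriv_fun_neg, neg_div, mul_neg, norm_neg, hnser]

/-- Detection. Proof: as `detect_primes` in chunk `D1`, with `F` of `E4_data` and `c = cE r ψ β p`:
`detect` for `F` (`T = Q^10`, `|v| ≤ Q^9`), `logDeriv F` near `s₀` from `E4_data` (open set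
`Re s > 1`), `D0_series`, `D0_trunc`; the pole of `p0` contributes at most `(2 lam)^K1` as
`|v| ≥ 1/2`. -/
theorem E5_detect : ∃ C3 K : ℝ, 1 ≤ C3 ∧ ∀ Q : ℕ, K ≤ Q → ∀ (r : ℕ) [NeZero r]
    (ψ : DirichletCharacter ℂ r), r ≤ Q → ψ.IsPrimitive → ψ ≠ 1 → ψ ^ 2 = 1 → ∀ β : ℝ,
    7 / 8 ≤ β → β < 1 → ψ.LFunction (β : ℂ) = 0 → ∀ p ∈ PC Q, ∀ κ v : ℝ, 1 ≤ κ →
    κ ≤ th0 * Real.log Q → |v| ≤ (Q : ℝ) ^ 9 → (p = p0 → 1 / 2 ≤ |v|) → ∀ K1 : ℕ,
    C3 * κ ≤ K1 →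
    (∃ ρ : ℂ, Lx r ψ β p ρ = 0 ∧ 1 - κ / Real.log Q ≤ ρ.re ∧ |ρ.im - v| ≤ κ / Real.log Q) →
    ∃ k : ℕ, K1 ≤ k + 1 ∧ k + 1 < 2 * K1 ∧ 1 / 4 * (1 / 4096 : ℝ) ^ K1 ≤
      ‖PP (cE r ψ β p) (κ / Real.log Q) k K1 v‖ := by
  classical
  obtain ⟨C0, K, hC0, hL⟩ := E4_data
  obtain ⟨C3, hC3, hdet⟩ := detect C0 hC0
  obtain ⟨C3', hC3', htr⟩ := D0_trunc
  refine ⟨max C3 C3', K, hC3.trans (le_max_left _ _), ?_⟩
  intro Q hQ r hr0 ψ hrQ hψp hψ1 hψ2 β hβ hβ1 hβ0 p hp κ v hκ hκ2 hv hp0v K1 hK1 hρ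
  obtain ⟨F, hFL, hFz, hFs⟩ := hL Q hQ r ψ hrQ hψp hψ1 hψ2 β hβ hβ1 hβ0 p hp
  have hth : (0 : ℝ) < th0 := by unfold th0; positivity
  have hlog : 0 < Real.log Q := by
    by_contra hcon
    push Not at hcon
    have : th0 * Real.log Q ≤ 0 := mul_nonpos_of_nonneg_of_nonpos hth.le hcon
    linarith
  have hQ1 : (1 : ℝ) ≤ Q := by
    by_contra hcon
    push Not at hcon
    have h0 : Real.log (Q : ℝ) ≤ 0 := Real.log_nonpos (Nat.cast_nonneg Q) hcon.le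
    linarith
  have hlam : 0 < κ / Real.log Q := by positivity
  have hlamth : κ / Real.log Q ≤ th0 := by
    rw [div_le_iff₀ hlog]
    exact hκ2
  have hv10 : |v| ≤ (Q : ℝ) ^ 10 :=
    hv.trans (pow_le_pow_right₀ hQ1 (by norm_num))
  have hκ0 : 0 < κ := by linarith
  have hK1a : C3 * κ ≤ K1 := (mul_le_mul_of_nonneg_right (le_max_left _ _) hκ0.le).trans hK1
  have hK1b : C3' * κ ≤ K1 := (mul_le_mul_of_nonneg_right (le_max_right _ _) hκ0.le).trans hK1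
  have hK1c : C3' ≤ K1 := by
    refine le_trans ?_ hK1b
    nlinarith
  have hK1d : 1 ≤ K1 := by
    have : (1 : ℝ) ≤ K1 := hC3'.trans hK1c
    exact_mod_cast this
  have hρ' : ∃ ρ : ℂ, F ρ = 0 ∧ 1 - κ / Real.log Q ≤ ρ.re ∧ |ρ.im - v| ≤ κ / Real.log Q := by
    obtain ⟨ρ, h1, h2, h3⟩ := hρ
    exact ⟨ρ, hFz ρ h1, h2, h3⟩
  obtain ⟨e, he1, he2, he3⟩ := hdet (Real.log Q) ((Q : ℝ) ^ 10) F hFL κ v hκ hκ2
    hv10 K1 hK1a hρ'
  obtain ⟨k, rfl⟩ : ∃ k, e = k + 1 := ⟨e - 1, by omega⟩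
  refine ⟨k, he1, he2, ?_⟩
  rw [Nat.add_sub_cancel] at he3
  have hser := E5_series (cE r ψ β p) (cE_norm r ψ β hβ1 p) F (p = p0) (fun s hs => by
    rw [hFs s hs]) (κ / Real.log Q) hlam k v
  have htr2 := htr (cE r ψ β p) (cE_norm r ψ β hβ1 p) (κ / Real.log Q) v k K1 hlam
    hlamth hK1c he1 he2
  have h4096 : (0 : ℝ) < (1 / 4096 : ℝ) ^ K1 := by positivity
  have hterm : (if p = p0 then ‖((κ / Real.log Q : ℝ) : ℂ) /
      (((κ / Real.log Q : ℝ) : ℂ) + v * Complex.I)‖ ^ (k + 1) else 0) ≤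
      1 / 8 * (1 / 4096 : ℝ) ^ K1 := by
    split_ifs with hp0
    · have hv2 := hp0v hp0
      set lam := κ / Real.log Q with hlamdef
      have h1 : ‖(lam : ℂ) / ((lam : ℂ) + v * Complex.I)‖ ≤ 2 * th0 := by
        rw [norm_div, Complex.norm_real, Real.norm_of_nonneg hlam.le]
        have h2 : |v| ≤ ‖(lam : ℂ) + v * Complex.I‖ := by
          have := Complex.abs_im_le_norm ((lam : ℂ) + v * Complex.I)
          simpa using this
        have h3 : 1 / 2 ≤ ‖(lam : ℂ) + v * Complex.I‖ := hv2.trans h2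
        rw [div_le_iff₀ (by linarith)]
        nlinarith
      have h2 : ‖(lam : ℂ) / ((lam : ℂ) + v * Complex.I)‖ ^ (k + 1) ≤ (2 * th0) ^ (k + 1) :=
        pow_le_pow_left₀ (norm_nonneg _) h1 _
      have h3 : (2 * th0) ^ (k + 1) ≤ (2 * th0) ^ K1 :=
        pow_le_pow_of_le_one (by positivity) (by unfold th0; norm_num) he1
      have h4 : (2 * th0) ^ K1 = (2 * th0 * 4096) ^ K1 * (1 / 4096) ^ K1 := by
        rw [← mul_pow]
        congr 1
        ring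
      have h5 : (2 * th0 * 4096) ^ K1 ≤ (2 * th0 * 4096) ^ 1 :=
        pow_le_pow_of_le_one (by positivity) (by unfold th0; norm_num) hK1d
      have h6 : (2 * th0 * 4096) ^ 1 ≤ 1 / 8 := by
        unfold th0
        norm_num
      calc _ ≤ (2 * th0) ^ K1 := h2.trans h3
        _ = (2 * th0 * 4096) ^ K1 * (1 / 4096) ^ K1 := h4
        _ ≤ _ := mul_le_mul_of_nonneg_right (h5.trans h6) h4096.le
    · positivity
  have hA : 1 / 2 * (1 / 4096 : ℝ) ^ K1 ≤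
      ‖∑' n : ℕ, ((Λ n * Jk (κ / Real.log Q) k n : ℝ) : ℂ) * cE r ψ β p n *
        (n : ℂ) ^ (-(v * Complex.I))‖ + 1 / 8 * (1 / 4096 : ℝ) ^ K1 := by
    refine (he3.trans hser).trans ?_
    exact add_le_add le_rfl hterm
  have hB := norm_sub_norm_le (∑' n : ℕ, ((Λ n * Jk (κ / Real.log Q) k n : ℝ) : ℂ) *
    cE r ψ β p n * (n : ℂ) ^ (-(v * Complex.I)))
    (PP (cE r ψ β p) (κ / Real.log Q) k K1 v)
  have hC := hB.trans htr2
  linarith

end Pool.Agent.Lib.H18Q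
end

-- from Lib.H18Q.PD
section

/-!
# Project H18Q, chunk PD: sums over the zeros
-/

open Finset

namespace Pool.Agent.Lib.H18Q

open Pool.Agent.Lib.H68T

theorem pd_mono {C0 C1 ℓ T : ℝ} {f : ℂ → ℂ} (h : LDat C0 ℓ T f) (hC : C0 ≤ C1) (hℓ : 0 < ℓ) :
    LDat C1 ℓ T f := by
  refine ⟨h.diff, h.zre, ?_, ?_⟩
  · intro lam v h1 h2 h3 s hs
    refine (h.growth lam v h1 h2 h3 s hs).trans ?_
    exact mul_le_mul_of_nonneg_right (Real.exp_le_exp.2 (mul_le_mul_of_nonneg_right hC hℓ.le))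
      (norm_nonneg _)
  · intro lam v h1 h2 h3
    refine (h.ld lam v h1 h2 h3).trans ?_
    have : 0 < lam := lt_of_lt_of_le (by positivity) h1
    exact div_le_div_of_nonneg_right hC this.le

theorem pd_ne {C0 ℓ T : ℝ} {f : ℂ → ℂ} (h : LDat C0 ℓ T f) : ∃ c, f c ≠ 0 := by
  refine ⟨2, fun h0 => ?_⟩
  have := h.zre 2 h0
  norm_num at this

theorem pd_log {Q : ℕ} (h : (2 : ℝ) ≤ Q) : 0 < Real.log Q := Real.log_pos (by linarith)

theorem Fam_Lp : ∃ C0 K : ℝ, 1 ≤ C0 ∧ ∀ Q : ℕ, K ≤ Q → Fam C0 Q Lp := by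
  obtain ⟨C0, K, h0, h⟩ := LDat_Lp
  exact ⟨C0, K, h0, fun Q hQ => ⟨fun p hp => h Q hQ p hp, fun p _ ρ hρ => hρ, fun p _ ρ => le_refl _⟩⟩

/-- The family with the exceptional zero removed: `LDat_Lp` and `LDat_dslope`; `dslope_zero`,
`od_dslope_le` of `Z0`. (`(r, ψ) ≠ p0` as `ψ ≠ 1`; `Lp ⟨r, ψ⟩ = ψ.LFunction` by `Lp_mk`.) -/
theorem Fam_Lx : ∃ C0 K : ℝ, 1 ≤ C0 ∧ ∀ Q : ℕ, K ≤ Q → ∀ (r : ℕ) [NeZero r]
    (ψ : DirichletCharacter ℂ r), r ≤ Q → ψ ≠ 1 → ∀ β : ℝ, 3 / 4 ≤ β → β < 1 →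
    ψ.LFunction (β : ℂ) = 0 → Fam C0 Q (Lx r ψ β) := by
  obtain ⟨C1, K1, h1, H1⟩ := LDat_Lp
  obtain ⟨C2, K2, h2, H2⟩ := LDat_dslope
  refine ⟨max C1 C2, max (max K1 K2) 2, h1.trans (le_max_left _ _), ?_⟩
  intro Q hQ r _ ψ hr hψ β hβ hβ1 hβ0
  have hQ1 : K1 ≤ Q := ((le_max_left _ _).trans (le_max_left _ _)).trans hQ
  have hQ2 : K2 ≤ Q := ((le_max_right _ _).trans (le_max_left _ _)).trans hQ
  have hQ3 : (2 : ℝ) ≤ Q := (le_max_right _ _).trans hQ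
  have hL := pd_log hQ3
  have hne : (⟨r, ψ⟩ : Σ r : ℕ, DirichletCharacter ℂ r) ≠ p0 := by
    intro h
    unfold p0 at h
    rw [Sigma.mk.injEq] at h
    obtain ⟨h3, h4⟩ := h
    subst h3
    exact hψ (eq_of_heq h4)
  have hLp := Lp_mk r ψ hne
  refine ⟨?_, ?_, ?_⟩
  · intro p hp
    by_cases h : p = ⟨r, ψ⟩
    · subst h
      rw [Lx_mk, hLp]
      exact pd_mono (H2 Q hQ2 r ψ hr hψ β hβ hβ1 hβ0) (le_max_right _ _) hL
    · rw [Lx_of_ne r ψ β p h]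
      exact pd_mono (H1 Q hQ1 p hp) (le_max_left _ _) hL
  · intro p hp ρ hρ
    by_cases h : p = ⟨r, ψ⟩
    · subst h
      rw [Lx_mk] at hρ
      exact dslope_zero (by rw [hLp]; exact hβ0) hρ
    · rwa [Lx_of_ne r ψ β p h] at hρ
  · intro p hp ρ
    by_cases h : p = ⟨r, ψ⟩
    · subst h
      rw [Lx_mk]
      have h5 := H1 Q hQ1 _ hp
      exact od_dslope_le h5.diff (pd_ne h5) (by rw [hLp]; exact hβ0) ρ
    · rw [Lx_of_ne r ψ β p h]

/-- Zero-free region at a good level: `zero_free_complex`, `zero_free_real`, `zero_free_zeta`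
(`lab3_Z_zero`) and `Good` for the real zeros of real characters (a zero `ρ` with `Im ρ = 0` is
`(Re ρ : ℂ)`, `Re ρ ≤ 1`). -/
theorem zero_free_good (c : ℝ) (hc : 0 < c) : ∃ c' K : ℝ, 0 < c' ∧ ∀ Q : ℕ, K ≤ Q → Good c Q →
    ∀ p ∈ PC Q, ∀ ρ : ℂ, Lp p ρ = 0 → |ρ.im| ≤ (Q : ℝ) ^ 8 →
    c' / Real.log Q ≤ 1 - ρ.re := by
  obtain ⟨c1, K1, hc1, H1⟩ := zero_free_complex
  obtain ⟨c2, K2, hc2, H2⟩ := zero_free_real
  obtain ⟨c3, K3, hc3, H3⟩ := zero_free_zeta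
  obtain ⟨C0, K4, h0, H4⟩ := LDat_Lp
  refine ⟨min (min c1 c2) (min c3 c), max (max K1 K2) (max (max K3 K4) 2),
    lt_min (lt_min hc1 hc2) (lt_min hc3 hc), ?_⟩
  intro Q hQ hG p hp ρ hρ him
  have hQ1 : K1 ≤ Q := ((le_max_left _ _).trans (le_max_left _ _)).trans hQ
  have hQ2 : K2 ≤ Q := ((le_max_right _ _).trans (le_max_left _ _)).trans hQ
  have hQ' : max (max K3 K4) 2 ≤ (Q : ℝ) := (le_max_right _ _).trans hQ
  have hQ3 : K3 ≤ Q := ((le_max_left _ _).trans (le_max_left _ _)).trans hQ'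
  have hQ4 : K4 ≤ Q := ((le_max_right _ _).trans (le_max_left _ _)).trans hQ'
  have hQ5 : (2 : ℝ) ≤ Q := (le_max_right _ _).trans hQ'
  have hL := pd_log hQ5
  have him' : |ρ.im| ≤ (Q : ℝ) ^ 12 + 1 := by
    have h1 : (Q : ℝ) ^ 8 ≤ (Q : ℝ) ^ 12 := pow_le_pow_right₀ (by linarith) (by norm_num)
    linarith
  have fin : ∀ c' : ℝ, min (min c1 c2) (min c3 c) ≤ c' → ρ.re < 1 - c' / Real.log Q →
      min (min c1 c2) (min c3 c) / Real.log Q ≤ 1 - ρ.re := by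
    intro c' h1 h2
    have h3 : min (min c1 c2) (min c3 c) / Real.log Q ≤ c' / Real.log Q :=
      div_le_div_of_nonneg_right h1 hL.le
    linarith
  have m1 : min (min c1 c2) (min c3 c) ≤ c1 := (min_le_left _ _).trans (min_le_left _ _)
  have m2 : min (min c1 c2) (min c3 c) ≤ c2 := (min_le_left _ _).trans (min_le_right _ _)
  have m3 : min (min c1 c2) (min c3 c) ≤ c3 := (min_le_right _ _).trans (min_le_left _ _)
  have m4 : min (min c1 c2) (min c3 c) ≤ c := (min_le_right _ _).trans (min_le_right _ _)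
  by_cases hp0 : p = p0
  · rw [hp0, Lp_p0] at hρ
    exact fin c3 m3 (H3 Q hQ3 ρ (lab3_Z_zero ρ hρ) him')
  · have hψ := ne_one_of_ne_p0 hp hp0
    have hre := (H4 Q hQ4 p hp).zre ρ hρ
    obtain ⟨hne, hLp⟩ := Lp_mem hp hp0
    obtain ⟨hr1, hr2, hprim⟩ := mem_PC.1 hp
    rw [hLp] at hρ
    by_cases hsq : p.2 ^ 2 = 1
    · by_cases hi : ρ.im = 0
      · have hρ' : ρ = (ρ.re : ℂ) := by
          apply Complex.ext
          · simp
          · simp [hi]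
        have h5 : ρ.re < 1 - c / Real.log Q := by
          by_contra hcon
          push Not at hcon
          rw [hρ'] at hρ
          exact hG p.1 p.2 hr2 hprim hψ hsq ρ.re hcon hre.le hρ
        exact fin c m4 h5
      · exact fin c2 m2 (H2 Q hQ2 p.1 p.2 hr2 hψ hsq ρ hρ hi him')
    · exact fin c1 m1 (H1 Q hQ1 p.1 p.2 hr2 hsq ρ hρ him')

theorem pd_exp {x : ℝ} (h0 : 0 ≤ x) (h1 : x ≤ 1) : 1 / (1 + x) ≤ Real.exp (-(x / 2)) := by
  have h2 : 1 / (1 + x) ≤ 1 - x / 2 := by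
    rw [div_le_iff₀ (by linarith)]
    nlinarith
  exact h2.trans (Real.one_sub_le_exp_neg (x / 2))

theorem pd_pow {x : ℝ} (h0 : 0 ≤ x) (h1 : x ≤ 1) (k : ℕ) :
    (1 / (1 + x)) ^ k ≤ Real.exp (-(x / 2 * k)) := by
  have h2 := pow_le_pow_left₀ (by positivity) (pd_exp h0 h1) k
  refine h2.trans (le_of_eq ?_)
  rw [← Real.exp_nat_mul]
  congr 1
  ring

theorem pd_geo (C κ : ℝ) (hC : 1 ≤ C) (hκ : C + 1 ≤ κ) (J : ℕ) :
    ∑ j ∈ Finset.range J, Real.exp (-(κ * j)) * (C * Real.exp (C * (j + 1))) ≤ 2 * C * Real.exp C := by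
  have h1 : Real.exp (-1) ≤ 1 / 2 := by
    have h2 : (2 : ℝ) ≤ Real.exp 1 := by
      have := Real.add_one_le_exp (1 : ℝ)
      linarith
    rw [Real.exp_neg, one_div]
    exact inv_anti₀ (by norm_num) h2
  have h3 : ∀ j ∈ Finset.range J, Real.exp (-(κ * j)) * (C * Real.exp (C * (j + 1))) ≤
      C * Real.exp C * (1 / 2) ^ j := by
    intro j _
    have h4 : Real.exp (-(κ * j)) * (C * Real.exp (C * (j + 1))) =
        C * Real.exp C * (Real.exp (C - κ)) ^ j := by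
      rw [← Real.exp_nat_mul]
      have : Real.exp (-(κ * j)) * (C * Real.exp (C * (j + 1))) =
          C * (Real.exp (-(κ * j)) * Real.exp (C * (j + 1))) := by ring
      rw [this, ← Real.exp_add, mul_assoc, ← Real.exp_add]
      congr 2
      ring
    rw [h4]
    apply mul_le_mul_of_nonneg_left _ (by positivity)
    exact pow_le_pow_left₀ (Real.exp_pos _).le ((Real.exp_le_exp.2 (by linarith)).trans h1) j
  calc _ ≤ ∑ j ∈ Finset.range J, C * Real.exp C * (1 / 2) ^ j := Finset.sum_le_sum h3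
    _ = C * Real.exp C * ∑ j ∈ Finset.range J, (1 / 2 : ℝ) ^ j := by rw [Finset.mul_sum]
    _ ≤ C * Real.exp C * 2 := by
        apply mul_le_mul_of_nonneg_left _ (by positivity)
        exact sum_geometric_two_le J
    _ = 2 * C * Real.exp C := by ring


end Pool.Agent.Lib.H18Q
end

-- from Lib.H18Q.E7
section

/-!
# Project H18Q, chunk E7: strong form of the Deuring-Heilbronn phenomenon
-/

open Finset

namespace Pool.Agent.Lib.H18Q

open ArithmeticFunction Pool.Agent.Lib.H68T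

/-- **Repulsion of zeros.** If `L(s, ψ)` has a real zero `β` with `η log Q ≤ c1`, `η = 1 - β`, then
all other zeros `ρ` (`Lx r ψ β p ρ = 0`, `p ∈ PC Q`) with `|Im ρ| ≤ Q^8` have
`1 - Re ρ ≥ log (1/(η log Q))/(C log Q)`.

Proof. Let `Y = log (1/(η log Q)) ≥ log (1/c1)`. `η ≥ c/Q²` (`zero_elementary`), so `Y ≤ 3 log Q` for
`Q` large. Suppose `1 - Re ρ < Y/(C log Q)` and put `κ = Y/C`: `κ ≥ 1` if `c1 ≤ exp (-C)`, and
`κ ≤ 3 log Q/C ≤ th0 log Q` if `C ≥ 3 · 10^9`; `β ≥ 7/8` for `Q` large. For `p = p0`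
(`Lx r ψ β p0 = Lp p0 = gl2_Z`, since `(r, ψ) ≠ p0`): `Re ρ > 1 - 3/C ≥ 1 - δ` with the `δ` of
`zf3_low` (`C ≥ 3/δ`), so `|Im ρ| > 1` (`lab3_Z_zero`). Let `C3 = max (2^28) (C3 of E5_detect)`,
`K1 = ⌈C3 κ⌉ ≤ 2 C3 κ`, `v = Im ρ`. `E5_detect` and `E6_small`: `(1/4) 4096^(-K1) ≤ C' K1 e^(-Y)`, so
`Y ≤ log (4 C' K1) + K1 log 4096 ≤ C4 K1 ≤ 2 C4 C3 κ = 2 C4 C3 Y/C` with `C4 = 4 C' + 10`
(`log t ≤ t`, `K1 ≥ 1`); a contradiction if `C > 2 C4 C3` (`Y > 0`). -/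
theorem repulsion : ∃ C c1 K : ℝ, 1 ≤ C ∧ 0 < c1 ∧ c1 < 1 ∧ ∀ Q : ℕ, K ≤ Q →
    ∀ (r : ℕ) [NeZero r] (ψ : DirichletCharacter ℂ r), r ≤ Q → ψ.IsPrimitive → ψ ≠ 1 →
    ψ ^ 2 = 1 → ∀ β : ℝ, β < 1 → ψ.LFunction (β : ℂ) = 0 → (1 - β) * Real.log Q ≤ c1 →
    ∀ p ∈ PC Q, ∀ ρ : ℂ, Lx r ψ β p ρ = 0 → |ρ.im| ≤ (Q : ℝ) ^ 8 →
    Real.log (1 / ((1 - β) * Real.log Q)) / (C * Real.log Q) ≤ 1 - ρ.re := by
  obtain ⟨C3', K5, hC3', hdet⟩ := E5_detect
  obtain ⟨C3, hC3⟩ : ∃ C3, C3 = max (2 ^ 28 : ℝ) C3' := ⟨_, rfl⟩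
  have hC3a : (2 : ℝ) ^ 28 ≤ C3 := hC3 ▸ le_max_left _ _
  have hC3b : C3' ≤ C3 := hC3 ▸ le_max_right _ _
  obtain ⟨C', K6, hC', hsmall⟩ := E6_small C3 hC3a
  obtain ⟨δ, hδ, hzf⟩ := zf3_low
  obtain ⟨c, hc, hze⟩ := zero_elementary
  have hC30 : 0 < C3 := lt_of_lt_of_le (by positivity) hC3a
  have hC31 : 1 ≤ C3 := le_trans (by norm_num) hC3a
  obtain ⟨C4, hC4⟩ : ∃ C4, C4 = 4 * C' + 10 := ⟨_, rfl⟩
  have hC40 : 0 < C4 := by rw [hC4]; positivity
  obtain ⟨C, hC⟩ : ∃ C, C = 2 * C4 * C3 + 1 + 3 * 10 ^ 9 + 3 / δ := ⟨_, rfl⟩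
  have hd3 : 0 < 3 / δ := by positivity
  have h243 : 0 < 2 * C4 * C3 := by positivity
  have hCa : 2 * C4 * C3 < C := by rw [hC]; linarith
  have hCb : 3 * 10 ^ 9 ≤ C := by rw [hC]; linarith
  have hCc : 3 / δ ≤ C := by rw [hC]; linarith
  have hC1 : 1 ≤ C := by linarith
  have hC0 : 0 < C := by linarith
  refine ⟨C, Real.exp (-C), K5 ⊔ K6 ⊔ (1 / c) ⊔ Real.exp 8, hC1, Real.exp_pos _, by
    rw [Real.exp_lt_one_iff]; linarith, ?_⟩
  intro Q hQ r hr0 ψ hrQ hψp hψ1 hψ2 β hβ1 hβ0 hηc p hp ρ hρ0 hρi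
  have hQ5 : K5 ≤ Q := le_trans (le_trans (le_trans le_sup_left le_sup_left) le_sup_left) hQ
  have hQ6 : K6 ≤ Q := le_trans (le_trans (le_trans le_sup_right le_sup_left) le_sup_left) hQ
  have hQc : 1 / c ≤ Q := le_trans (le_trans le_sup_right le_sup_left) hQ
  have hQ8 : Real.exp 8 ≤ Q := le_trans le_sup_right hQ
  have hQ0 : (0 : ℝ) < Q := lt_of_lt_of_le (Real.exp_pos _) hQ8
  obtain ⟨l, hl⟩ : ∃ l, l = Real.log Q := ⟨_, rfl⟩
  have hl8 : 8 ≤ l := by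
    rw [hl, ← Real.log_exp 8]
    exact Real.log_le_log (Real.exp_pos _) hQ8
  have hl0 : 0 < l := by linarith
  have hQ1 : (1 : ℝ) ≤ Q := le_trans (Real.one_le_exp (by norm_num)) hQ8
  rw [← hl] at hηc ⊢
  obtain ⟨η, hη⟩ : ∃ η, η = 1 - β := ⟨_, rfl⟩
  rw [← hη] at hηc ⊢
  have hη0 : 0 < η := by rw [hη]; linarith
  have hηl : 0 < η * l := by positivity
  have hr1 : (1 : ℝ) ≤ r := by exact_mod_cast Nat.one_le_iff_ne_zero.2 (NeZero.ne r)
  have hrQ' : (r : ℝ) ≤ Q := by exact_mod_cast hrQ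
  have hηlow : c / (Q : ℝ) ^ 2 ≤ η := by
    have h1 := hze r ψ hψ1 hψ2 β hβ1 hβ0
    rw [← hη] at h1
    refine le_trans ?_ h1
    exact div_le_div_of_nonneg_left hc.le (by positivity) (pow_le_pow_left₀ (by linarith) hrQ' 2)
  obtain ⟨Y, hY⟩ : ∃ Y, Y = Real.log (1 / (η * l)) := ⟨_, rfl⟩
  have hYe : Real.exp (-Y) = η * l := by
    rw [hY, one_div, Real.log_inv, neg_neg, Real.exp_log hηl]
  have hYC : C ≤ Y := by
    have h1 : Real.exp (-Y) ≤ Real.exp (-C) := by rw [hYe]; exact hηc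
    have h2 := Real.exp_le_exp.1 h1
    linarith
  have hY3 : Y ≤ 3 * l := by
    have h1 : Real.exp (-(3 * l)) ≤ Real.exp (-Y) := by
      rw [hYe]
      have h2 : Real.exp (-(3 * l)) = 1 / (Q : ℝ) ^ 3 := by
        rw [Real.exp_neg, one_div, hl]
        congr 1
        have : 3 * Real.log Q = Real.log Q * (3 : ℕ) := by push_cast; ring
        rw [this, Real.exp_mul, Real.exp_log hQ0, Real.rpow_natCast]
      rw [h2]
      have h3 : 1 ≤ c * Q := by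
        rw [div_le_iff₀ hc] at hQc
        linarith
      have h4 : 1 / (Q : ℝ) ^ 3 ≤ c / (Q : ℝ) ^ 2 := by
        rw [div_le_div_iff₀ (by positivity) (by positivity)]
        have : c * (Q : ℝ) ^ 3 = (c * Q) * (Q : ℝ) ^ 2 := by ring
        rw [this]
        nlinarith [sq_nonneg (Q : ℝ)]
      have h5 : η ≤ η * l := le_mul_of_one_le_right hη0.le (by linarith)
      linarith
    have h2 := Real.exp_le_exp.1 h1
    linarith
  rw [← hY]
  by_contra hcon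
  push Not at hcon
  obtain ⟨κ, hκ⟩ : ∃ κ, κ = Y / C := ⟨_, rfl⟩
  have hκl : Y / (C * l) = κ / l := by
    rw [hκ]
    field_simp
  rw [hκl] at hcon
  have hκ1 : 1 ≤ κ := by
    rw [hκ, le_div_iff₀ hC0]
    linarith
  have hκ3 : κ ≤ 3 * l / C := by
    rw [hκ]
    exact div_le_div_of_nonneg_right hY3 hC0.le
  have hκth : κ ≤ th0 * Real.log Q := by
    rw [← hl]
    refine hκ3.trans ?_
    unfold th0
    rw [div_le_iff₀ hC0]
    have : 3 * l = 1 / 10 ^ 9 * l * (3 * 10 ^ 9) := by ring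
    rw [this]
    exact mul_le_mul_of_nonneg_left hCb (by positivity)
  have hβ7 : 7 / 8 ≤ β := by
    have h1 : η * l ≤ 1 := hηc.trans (Real.exp_le_one_iff.2 (by linarith))
    have h2 : η * 8 ≤ 1 := le_trans (mul_le_mul_of_nonneg_left hl8 hη0.le) h1
    rw [hη] at h2
    linarith
  have hv9 : |ρ.im| ≤ (Q : ℝ) ^ 9 := hρi.trans (pow_le_pow_right₀ hQ1 (by norm_num))
  have hκl3 : κ / l ≤ 3 / C := by
    rw [div_le_div_iff₀ hl0 hC0]
    rw [le_div_iff₀ hC0] at hκ3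
    linarith
  have hp0v : p = p0 → 1 / 2 ≤ |ρ.im| := by
    intro hp0
    have hne : p ≠ ⟨r, ψ⟩ := by
      intro h
      rw [hp0] at h
      have h1 : r = 1 := (congrArg Sigma.fst h).symm
      subst h1
      apply hψ1
      have h2 : (p0 : Σ r : ℕ, DirichletCharacter ℂ r) = ⟨1, 1⟩ := rfl
      rw [h2] at h
      exact (eq_of_heq (Sigma.mk.inj h).2).symm
    rw [Lx_of_ne r ψ β p hne, hp0, Lp_p0] at hρ0
    have hz := lab3_Z_zero ρ hρ0
    by_contra hlt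
    push Not at hlt
    have h1 := hzf ρ hz (by linarith)
    have h2 : 3 / C ≤ δ := by
      rw [div_le_iff₀ hC0]
      rw [div_le_iff₀ hδ] at hCc
      linarith
    linarith
  obtain ⟨K1, hK1⟩ : ∃ K1 : ℕ, K1 = ⌈C3 * κ⌉₊ := ⟨_, rfl⟩
  have hκ0 : 0 < κ := by linarith
  have hK1a : C3 * κ ≤ K1 := by rw [hK1]; exact Nat.le_ceil _
  have hC3κ : 1 ≤ C3 * κ := by nlinarith
  have hK1b : (K1 : ℝ) ≤ 2 * C3 * κ := by
    have := Nat.ceil_lt_add_one (show 0 ≤ C3 * κ by positivity)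
    rw [← hK1] at this
    linarith
  have hK1c : C3' * κ ≤ K1 := (mul_le_mul_of_nonneg_right hC3b hκ0.le).trans hK1a
  have hK11 : (1 : ℝ) ≤ K1 := hC3κ.trans hK1a
  obtain ⟨k, hk1, hk2, hk3⟩ := hdet Q hQ5 r ψ hrQ hψp hψ1 hψ2 β hβ7 hβ1 hβ0 p hp κ ρ.im hκ1 hκth hv9 hp0v K1 hK1c
    ⟨ρ, hρ0, by rw [← hl]; linarith, by
      rw [sub_self, abs_zero, ← hl]
      positivity⟩
  have h4 := hsmall Q hQ6 r ψ hrQ hψ1 hψ2 β hβ7 hβ1 hβ0 p κ ρ.im hκ1 hκth K1 k hK1a hK1b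
  rw [← hl, ← hη, ← hYe] at h4
  rw [← hl] at hk3
  have h5 : 1 / 4 * (1 / 4096 : ℝ) ^ K1 ≤ C' * K1 * Real.exp (-Y) := hk3.trans h4
  have h6 : Real.exp Y ≤ 4 * C' * K1 * 4096 ^ K1 := by
    have h7 : (1 / 4096 : ℝ) ^ K1 = 1 / 4096 ^ K1 := by rw [div_pow, one_pow]
    rw [h7, Real.exp_neg] at h5
    have h8 : (0 : ℝ) < 4096 ^ K1 := by positivity
    have h9 : 0 < Real.exp Y := Real.exp_pos _
    have h10 : 1 / 4 * (1 / 4096 ^ K1) * (4 * 4096 ^ K1 * Real.exp Y) ≤ C' * K1 * (Real.exp Y)⁻¹ * (4 * 4096 ^ K1 * Real.exp Y) :=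
      mul_le_mul_of_nonneg_right h5 (by positivity)
    have e1 : 1 / 4 * (1 / 4096 ^ K1) * (4 * 4096 ^ K1 * Real.exp Y) = Real.exp Y := by field_simp
    have e2 : C' * K1 * (Real.exp Y)⁻¹ * (4 * 4096 ^ K1 * Real.exp Y) = 4 * C' * K1 * 4096 ^ K1 := by field_simp
    rwa [e1, e2] at h10
  have h7 : Y ≤ C4 * K1 := by
    have h8 : 4 * C' * K1 * 4096 ^ K1 ≤ Real.exp (C4 * K1) := by
      have h9 : 4 * C' * K1 ≤ Real.exp (4 * C' * K1) := by
        have := Real.add_one_le_exp (4 * C' * K1)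
        linarith
      have h10 : (4096 : ℝ) ≤ Real.exp 10 := by
        have h11 : (2.7 : ℝ) ≤ Real.exp 1 := le_trans (by norm_num) (Real.exp_one_gt_d9).le
        have h12 : Real.exp 10 = Real.exp 1 ^ 10 := by
          rw [← Real.exp_nat_mul]
          norm_num
        rw [h12]
        calc (4096 : ℝ) ≤ 2.7 ^ 10 := by norm_num
          _ ≤ _ := pow_le_pow_left₀ (by norm_num) h11 10
      have h11 : (4096 : ℝ) ^ K1 ≤ Real.exp (10 * K1) := by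
        have h12 : Real.exp (10 * K1) = Real.exp 10 ^ K1 := by
          rw [← Real.exp_nat_mul]
          congr 1
          ring
        rw [h12]
        exact pow_le_pow_left₀ (by norm_num) h10 K1
      have h12 : Real.exp (C4 * K1) = Real.exp (4 * C' * K1) * Real.exp (10 * K1) := by
        rw [← Real.exp_add, hC4]
        congr 1
        ring
      rw [h12]
      exact mul_le_mul h9 h11 (by positivity) (Real.exp_pos _).le
    exact Real.exp_le_exp.1 (h6.trans h8)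
  have h8 : C4 * K1 ≤ C4 * (2 * C3 * κ) := mul_le_mul_of_nonneg_left hK1b hC40.le
  have h9 : C4 * (2 * C3 * κ) = 2 * C4 * C3 * κ := by ring
  have h10 : 2 * C4 * C3 * κ < C * κ := mul_lt_mul_of_pos_right hCa hκ0
  have h11 : C * κ = Y := by
    rw [hκ]
    field_simp
  linarith

end Pool.Agent.Lib.H18Q
end

-- from Lib.H18Q.PH
section

/-!
# Project H18Q, chunk PH: the L1 norms at good and at exceptional levels
-/

open Finset

namespace Pool.Agent.Lib.H18Q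

open Pool.Agent.Lib.H68T

theorem ph_w_cont : Continuous w := by
  unfold w
  exact (Real.smoothTransition.continuous.comp (by fun_prop)).mul
    (Real.smoothTransition.continuous.comp (by fun_prop))

theorem ph_w_zero {y : ℝ} (hy : y ∉ Set.Icc (-2 : ℝ) 4) : w y = 0 := by
  unfold w
  rw [Set.mem_Icc, not_and_or, not_le, not_le] at hy
  rcases hy with h | h
  · rw [Real.smoothTransition.zero_of_nonpos (by linarith), zero_mul]
  · rw [Real.smoothTransition.zero_of_nonpos (x := 4 - y) (by linarith), mul_zero]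

theorem ph_FF_cont (X : ℕ) (h : ℕ → ℂ) : Continuous (FF X h) := by
  unfold FF
  refine continuous_finsetSum _ fun m hm => ?_
  have hm0 : (m : ℂ) ≠ 0 := by
    have := (mem_Icc.1 hm).1
    exact_mod_cast (by omega : m ≠ 0)
  exact continuous_const.mul (Continuous.const_cpow (by fun_prop) (Or.inl hm0))

theorem ph_Mb_cont (X : ℕ) (b : ℝ) : Continuous (Mb X b) := by
  have h1 : Mb X b = fun t : ℝ => ∫ u in Set.Icc (Real.log X - 2) (Real.log X + 4),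
      (w (u - Real.log X) : ℂ) * Complex.exp (-((1 - b : ℝ) + t * Complex.I) * u) := by
    funext t
    unfold Mb
    symm
    apply MeasureTheory.setIntegral_eq_integral_of_forall_compl_eq_zero
    intro u hu
    rw [ph_w_zero, Complex.ofReal_zero, zero_mul]
    intro h
    apply hu
    constructor <;> linarith [h.1, h.2]
  rw [h1]
  refine continuous_parametric_integral_of_continuous ?_ isCompact_Icc
  have hw := ph_w_cont
  refine Continuous.mul ?_ ?_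
  · exact Complex.continuous_ofReal.comp (hw.comp (by fun_prop))
  · fun_prop

/-- comparison of the L1 norms -/
theorem ph_tri (A M F : ℝ → ℂ) (hA : Continuous A) (hM : Continuous M) (hF : Continuous F)
    (S E : ℝ) (hS : 0 ≤ S) (hE : ∀ t ∈ Set.Icc (-S) S, ‖F t - M t‖ ≤ E) :
    ∫ t in (-S)..S, ‖A t - F t‖ ≤ (∫ t in (-S)..S, ‖A t - M t‖) + 2 * S * E := by
  have h1 : ∫ t in (-S)..S, ‖A t - F t‖ ≤ ∫ t in (-S)..S, (‖A t - M t‖ + E) := by
    apply intervalIntegral.integral_mono_on (by linarith)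
    · exact ((hA.sub hF).norm).intervalIntegrable _ _
    · exact (((hA.sub hM).norm).add continuous_const).intervalIntegrable _ _
    · intro t ht
      have h2 := hE t ht
      calc ‖A t - F t‖ = ‖(A t - M t) - (F t - M t)‖ := by ring_nf
        _ ≤ ‖A t - M t‖ + ‖F t - M t‖ := norm_sub_le _ _
        _ ≤ _ := by linarith
  refine h1.trans (le_of_eq ?_)
  have h2 : Continuous fun t => ‖A t - M t‖ := (hA.sub hM).norm
  rw [intervalIntegral.integral_add (h2.intervalIntegrable _ _)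
    (continuous_const.intervalIntegrable _ _), intervalIntegral.integral_const, smul_eq_mul]
  ring

theorem ph_q6 {Q : ℕ} (hQ : (1 : ℝ) ≤ Q) : (Q : ℝ) ^ (-6 : ℝ) = 1 / (Q : ℝ) ^ 6 := by
  have e2 : (Q : ℝ) ^ (6 : ℝ) = (Q : ℝ) ^ 6 := by exact_mod_cast Real.rpow_natCast (Q : ℝ) 6
  rw [Real.rpow_neg (by linarith), e2, one_div]

/-- the error of the main term -/
theorem ph_err {CF K : ℝ} {Q X : ℕ} (hCF : 0 < CF) (hK : 21 ≤ K) (hKC : 4 * CF ≤ K)
    (h : RegP K Q X) :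
    2 * (Q : ℝ) ^ 7 * (CF * (1 + (Q : ℝ) ^ 7) / X) ≤ 1 / (Q : ℝ) ^ 6 := by
  have hK1 : 1 ≤ K := by linarith
  have hQK := h.Q_ge hK1
  have hQ0 : (0 : ℝ) < Q := by linarith
  have hX0 : (0 : ℝ) < X := by exact_mod_cast h.X_pos (by linarith)
  have hlQ : 0 ≤ Real.log Q := by linarith [h.logQ_ge hK1]
  have hX : (Q : ℝ) ^ 21 ≤ X := by
    rw [← Real.log_le_log_iff (by positivity) hX0, Real.log_pow]
    have h1 := h.logQ_le hK1
    have h2 : 21 * Real.log Q ≤ K * Real.log Q := mul_le_mul_of_nonneg_right hK hlQ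
    push_cast
    linarith
  have h7 : (1 : ℝ) ≤ (Q : ℝ) ^ 7 := one_le_pow₀ (by linarith)
  rw [← mul_div_assoc, div_le_div_iff₀ hX0 (by positivity)]
  calc 2 * (Q : ℝ) ^ 7 * (CF * (1 + (Q : ℝ) ^ 7)) * (Q : ℝ) ^ 6
      ≤ 2 * (Q : ℝ) ^ 7 * (CF * (2 * (Q : ℝ) ^ 7)) * (Q : ℝ) ^ 6 := by
        apply mul_le_mul_of_nonneg_right _ (by positivity)
        apply mul_le_mul_of_nonneg_left _ (by positivity)
        apply mul_le_mul_of_nonneg_left _ hCF.le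
        linarith
    _ = (4 * CF) * (Q : ℝ) ^ 20 := by ring
    _ ≤ Q * (Q : ℝ) ^ 20 := mul_le_mul_of_nonneg_right (hKC.trans hQK) (by positivity)
    _ = (Q : ℝ) ^ 21 := by ring
    _ ≤ X := hX
    _ = 1 * X := (one_mul _).symm

/-- the logarithmic derivatives -/
theorem ph_ld_p0 (s : ℂ) (hs : 1 < s.re) : logDeriv (Lp p0) s =
    -LSeries (fun n => (ArithmeticFunction.vonMangoldt n : ℂ) * p0.2 (n : ZMod p0.1)) s +
      ((1 : ℝ) : ℂ) / (s - ((1 : ℝ) : ℂ)) := by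
  have hfun : (fun n : ℕ => (ArithmeticFunction.vonMangoldt n : ℂ) * (p0.2 (n : ZMod p0.1) : ℂ)) =
      fun n : ℕ => (ArithmeticFunction.vonMangoldt n : ℂ) := by
    funext n
    have h1 : (p0.2 : DirichletCharacter ℂ p0.1) (n : ZMod p0.1) = 1 := by
      have h2 : (n : ZMod p0.1) = 1 := by
        have : Subsingleton (ZMod p0.1) := by
          change Subsingleton (ZMod 1)
          infer_instance
        exact Subsingleton.elim _ _
      rw [h2, map_one]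
    rw [h1, mul_one]
  rw [hfun, Lp_p0, lab1_Z s hs, Complex.ofReal_one]
  ring

theorem ph_ld_ne {Q : ℕ} {p : Σ r : ℕ, DirichletCharacter ℂ r} (hp : p ∈ PC Q) (h : p ≠ p0) (s : ℂ)
    (hs : 1 < s.re) (b : ℝ) : logDeriv (Lp p) s =
    -LSeries (fun n => (ArithmeticFunction.vonMangoldt n : ℂ) * p.2 (n : ZMod p.1)) s +
      ((0 : ℝ) : ℂ) / (s - (b : ℂ)) := by
  obtain ⟨hne, hLp⟩ := Lp_mem hp h
  rw [hLp, lab1_char p.1 p.2 s hs, Complex.ofReal_zero, zero_div]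
  ring

/-- splitting of the sum -/
theorem ph_split {α : Type*} (S : Finset α) (a : α) (ha : a ∈ S) (P : α → Prop) [DecidablePred P]
    (hP : ∀ x, P x ↔ x ≠ a) (f : α → ℝ) : ∑ x ∈ S, f x = f a + ∑ x ∈ S.filter P, f x := by
  classical
  rw [← Finset.add_sum_erase S f ha]
  congr 1
  refine Finset.sum_congr ?_ fun _ _ => rfl
  ext x
  rw [Finset.mem_erase, Finset.mem_filter, hP]
  tauto



end Pool.Agent.Lib.H18Q
end
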