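import Pool.Agent.Lib.H59M.M1.M011
import Pool.Agent.Lib.H59M.M1.M017
import Pool.Agent.Lib.H59M.M1.M034

/-! Merged copies (to shorten the build) of Lib.H57S.Defs, Lib.H57S.S2A, Lib.H57S.S3, Lib.H57S.S1, Lib.H57S.S2B. -/

-- from Lib.H57S.Defs
section

/-!
# Project H57S: Siegel's theorem on the real zeros of real characters, and good levels

`ζ(s) L(s,ψ₁) L(s,ψ₂) L(s,ψ₁ψ₂)` (Estermann's proof).
-/

open Finset

namespace Pool.Agent.Lib.H57S

open Pool.Agent.Lib.H68T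

/-- The product of two characters, at the level `r₁ r₂`. -/
noncomputable def prodc {r₁ r₂ : ℕ} (ψ₁ : DirichletCharacter ℂ r₁) (ψ₂ : DirichletCharacter ℂ r₂) :
    DirichletCharacter ℂ (r₁ * r₂) :=
  DirichletCharacter.changeLevel (Dvd.intro r₂ rfl) ψ₁ *
    DirichletCharacter.changeLevel (Dvd.intro_left r₁ rfl) ψ₂

/-- The product of two different primitive real characters is not principal. -/
theorem prodc_ne_one (r₁ r₂ : ℕ) [NeZero r₁] [NeZero r₂] (ψ₁ : DirichletCharacter ℂ r₁)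
    (ψ₂ : DirichletCharacter ℂ r₂) (hp₁ : ψ₁.IsPrimitive) (hp₂ : ψ₂.IsPrimitive)
    (h₂ : ψ₂ ^ 2 = 1)
    (hne : (⟨r₁, ψ₁⟩ : Σ r : ℕ, DirichletCharacter ℂ r) ≠ ⟨r₂, ψ₂⟩) : prodc ψ₁ ψ₂ ≠ 1 :=
  PAGE1_ne_one r₁ r₂ ψ₁ ψ₂ hp₁ hp₂ h₂ hne

/-- The value of the product character. -/
theorem prodc_apply {r₁ r₂ : ℕ} [NeZero r₁] [NeZero r₂] (ψ₁ : DirichletCharacter ℂ r₁)
    (ψ₂ : DirichletCharacter ℂ r₂) (n : ℕ) :
    prodc ψ₁ ψ₂ (n : ZMod (r₁ * r₂)) = ψ₁ (n : ZMod r₁) * ψ₂ (n : ZMod r₂) := by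
  by_cases hn : IsUnit (n : ZMod (r₁ * r₂))
  · obtain ⟨u, hu⟩ := hn
    unfold prodc
    rw [MulChar.mul_apply, ← hu, DirichletCharacter.changeLevel_eq_cast_of_dvd,
      DirichletCharacter.changeLevel_eq_cast_of_dvd, hu]
    rw [ZMod.cast_natCast (Dvd.intro r₂ rfl), ZMod.cast_natCast (Dvd.intro_left r₁ rfl)]
  · have h1 : prodc ψ₁ ψ₂ (n : ZMod (r₁ * r₂)) = 0 := MulChar.map_nonunit _ hn
    rw [h1]
    rw [ZMod.isUnit_iff_coprime, Nat.coprime_mul_iff_right, not_and_or] at hn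
    rcases hn with hn | hn
    · rw [MulChar.map_nonunit ψ₁ (by rwa [ZMod.isUnit_iff_coprime]), zero_mul]
    · rw [MulChar.map_nonunit ψ₂ (by rwa [ZMod.isUnit_iff_coprime]), mul_zero]

end Pool.Agent.Lib.H57S
end

-- from Lib.H57S.S2A
section

/-!
# Chunk S2A: the lower bound for the residue (pure complex analysis)
-/

open Finset
open scoped ComplexOrder

namespace Pool.Agent.Lib.H57S

open Pool.Agent.Lib.H68T

open Nat in
theorem S2A_inv (k : ℕ) : iteratedDeriv k (fun s : ℂ => (s - 1)⁻¹) (3 / 2 : ℂ) =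
    (-1) ^ k * (k ! : ℂ) * 2 ^ (k + 1) := by
  rw [iteratedDeriv_eq_iterate]
  have h := iter_deriv_inv_linear_sub k (1 : ℂ) 1
  simp only [one_mul, one_pow, mul_one] at h
  rw [h]
  have : ((3 / 2 : ℂ) - 1) = (2 : ℂ)⁻¹ := by norm_num
  simp only [this]
  rw [inv_zpow, ← zpow_neg]
  congr 1
  have : (-(-1 - (k : ℤ))) = ((k + 1 : ℕ) : ℤ) := by push_cast; ring
  rw [this, zpow_natCast]

theorem S2A_re_sum (a : ℕ → ℝ) (ha : ∀ n, 0 ≤ a n) (ha1 : a 1 = 1)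
    (hs : LSeriesSummable (fun n => (a n : ℂ)) (((3 / 2 : ℝ)) : ℂ)) :
    1 ≤ (LSeries (fun n => (a n : ℂ)) ((3 / 2 : ℝ) : ℂ)).re := by
  have h1 := hs.hasSum
  have h2 := Complex.hasSum_re h1
  have h3 : ∀ n, 0 ≤ (LSeries.term (fun n => (a n : ℂ)) (((3 / 2 : ℝ)) : ℂ) n).re := by
    intro n
    have : 0 ≤ LSeries.term (fun n => (a n : ℂ)) (((3 / 2 : ℝ)) : ℂ) n :=
      LSeries.term_nonneg (by simpa using ha n) _
    exact (Complex.nonneg_iff.1 this).1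
  have h4 : (LSeries.term (fun n => (a n : ℂ)) (((3 / 2 : ℝ)) : ℂ) 1).re = 1 := by
    rw [LSeries.term_of_ne_zero one_ne_zero]
    simp [ha1]
  have h5 := le_hasSum h2 1 (fun j _ => h3 j)
  rw [h4] at h5
  exact h5

/-- Let `F = dslope h 1` (entire: `Differentiable.dslope`-type lemma, `F s = (h s - lam)/(s - 1)` for
`s ≠ 1`), `c = 3/2`, `c_k = iteratedDeriv k F c / k!`.
(1) On the circle `|s - 3/2| = 1` one has `|s - 1| ≥ 1/2`, so `‖F‖ ≤ 2 (M + M) = 4 M` and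
`‖c_k‖ ≤ 4 M` (`norm_iteratedDeriv_le_of_forall_mem_sphere_norm_le`).
(2) Near `3/2`, `F s = LSeries a s - lam/(s - 1)`, so `(-1)^k c_k = b_k - lam 2^(k+1)` with
`b_k = (-1)^k iteratedDeriv k (LSeries a) (3/2) / k!`, which is real and `≥ 0`
(`LSeries.iteratedDeriv_alternating`), and `b_0 = ∑ a(n) n^(-3/2) ≥ a 1 = 1`
(`1/(s-1) = ∑ (-1)^k 2^(k+1) (s - 3/2)^k`; `iteratedDeriv` of the inverse).
(3) Put `u = 3/2 - β`, `1/2 < u ≤ 5/8`. Taylor (`Complex.hasSum_taylorSeries_of_entire`):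
`F β = ∑ c_k (-u)^k = ∑ (-1)^k c_k u^k`, and `F β = (0 - lam)/(β - 1) = lam/(1 - β)`. The tail `k ≥ K`
has norm `≤ 4 M u^K/(1 - u) ≤ (32/3) M (5/8)^K ≤ 1/2` by `hK`. The head is
`∑_{k<K} b_k u^k - 2 lam ∑_{k<K} (2u)^k`, and `2u - 1 = 2 (1 - β)`, so
`2 ∑_{k<K} (2u)^k = ((2u)^K - 1)/(1 - β)`. Hence
`lam (2u)^K/(1 - β) = ∑_{k<K} b_k u^k + tail`; the first sum is real and `≥ b_0 ≥ 1` (`K ≥ 1`), so
`‖lam‖ (3 - 2β)^K/(1 - β) ≥ 1 - 1/2`. -/
theorem residue_lower (h : ℂ → ℂ) (hh : Differentiable ℂ h) (lam : ℂ) (hlam : h 1 = lam)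
    (a : ℕ → ℝ) (ha : ∀ n, 0 ≤ a n) (ha1 : a 1 = 1)
    (hsum : ∀ s : ℂ, 1 < s.re → LSeriesSummable (fun n => (a n : ℂ)) s)
    (hL : ∀ s : ℂ, 1 < s.re → LSeries (fun n => (a n : ℂ)) s = h s / (s - 1))
    (M : ℝ) (hM : ∀ s : ℂ, ‖s - 3 / 2‖ = 1 → ‖h s‖ ≤ M) (hlM : ‖lam‖ ≤ M)
    (β : ℝ) (hβ : 7 / 8 ≤ β) (hβ1 : β < 1) (hz : h β = 0) (K : ℕ) (hK1 : 1 ≤ K)
    (hK : 22 * M * (5 / 8 : ℝ) ^ K ≤ 1) :
    (1 - β) / 2 ≤ ‖lam‖ * (3 - 2 * β) ^ K := by
  have hM0 : 0 ≤ M := (norm_nonneg _).trans hlM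
  set F : ℂ → ℂ := dslope h 1 with hF
  have hFd : Differentiable ℂ F := by
    rw [← differentiableOn_univ]
    exact (Complex.differentiableOn_dslope Filter.univ_mem).2 hh.differentiableOn
  have hFs : ∀ s : ℂ, s ≠ 1 → F s = h s / (s - 1) - lam * (s - 1)⁻¹ := by
    intro s hs
    rw [hF, dslope_of_ne _ hs, slope_def_field, hlam]
    ring
  set c : ℂ := 3 / 2 with hc
  -- (1)
  have hbd : ∀ k : ℕ, ‖iteratedDeriv k F c‖ ≤ (k.factorial : ℝ) * (4 * M) := by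
    intro k
    have := Complex.norm_iteratedDeriv_le_of_forall_mem_sphere_norm_le (c := c) (R := 1)
      (C := 4 * M) (f := F) k one_pos hFd.diffContOnCl ?_
    · simpa using this
    · intro z hz
      rw [mem_sphere_iff_norm] at hz
      have h1 : 1 / 2 ≤ ‖z - 1‖ := by
        have e : z - c = (z - 1) - (1 / 2 : ℂ) := by rw [hc]; ring
        have h2 : ‖z - c‖ ≤ ‖z - 1‖ + ‖(1 / 2 : ℂ)‖ := by rw [e]; exact norm_sub_le _ _
        have h3 : ‖(1 / 2 : ℂ)‖ = 1 / 2 := by norm_num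
        rw [hz, h3] at h2
        linarith
      have hz1 : z ≠ 1 := by
        intro h0
        rw [h0, sub_self, norm_zero] at h1
        norm_num at h1
      have hpos : 0 < ‖z - 1‖ := by linarith
      rw [hFs z hz1, ← div_eq_mul_inv, ← sub_div, norm_div, div_le_iff₀ hpos]
      calc ‖h z - lam‖ ≤ ‖h z‖ + ‖lam‖ := norm_sub_le _ _
        _ ≤ M + M := add_le_add (hM z hz) hlM
        _ = 4 * M * (1 / 2) := by ring
        _ ≤ 4 * M * ‖z - 1‖ := mul_le_mul_of_nonneg_left h1 (by positivity)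
  -- (2)
  have habs : LSeries.abscissaOfAbsConv (fun n => (a n : ℂ)) < ((3 / 2 : ℝ) : EReal) := by
    have h1 : LSeries.abscissaOfAbsConv (fun n => (a n : ℂ)) ≤ ((1 : ℝ) : EReal) :=
      LSeries.abscissaOfAbsConv_le_of_forall_lt_LSeriesSummable fun y hy =>
        hsum y (by simpa using hy)
    exact h1.trans_lt (by exact_mod_cast (by norm_num : (1 : ℝ) < 3 / 2))
  have hcr : (((3 / 2 : ℝ)) : ℂ) = c := by rw [hc]; push_cast; ring
  have hEv : F =ᶠ[nhds c] fun s => LSeries (fun n => (a n : ℂ)) s - lam * (s - 1)⁻¹ := by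
    have : {s : ℂ | 1 < s.re} ∈ nhds c := by
      refine (isOpen_lt continuous_const Complex.continuous_re).mem_nhds ?_
      rw [← hcr]; simp; norm_num
    filter_upwards [this] with s hs
    have hs1 : s ≠ 1 := by
      rintro rfl
      simp at hs
    rw [hFs s hs1, hL s hs]
  have hder : ∀ k : ℕ, iteratedDeriv k F c =
      iteratedDeriv k (LSeries (fun n => (a n : ℂ))) c -
        lam * ((-1) ^ k * (k.factorial : ℂ) * 2 ^ (k + 1)) := by
    intro k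
    rw [hEv.iteratedDeriv_eq k]
    have hg : ContDiffAt ℂ k (fun s : ℂ => lam * (s - 1)⁻¹) c := by
      refine contDiffAt_const.mul (ContDiffAt.inv (contDiffAt_id.sub contDiffAt_const) ?_)
      rw [hc]; norm_num
    have hf : ContDiffAt ℂ k (LSeries (fun n => (a n : ℂ))) c := by
      have h1 := LSeries_analyticOnNhd (fun n => (a n : ℂ)) c (by
        rw [← hcr]; simpa using habs)
      exact h1.contDiffAt
    rw [iteratedDeriv_fun_sub hf hg, iteratedDeriv_const_mul_field, hc, S2A_inv]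
  set b : ℕ → ℂ := fun k => (-1) ^ k * iteratedDeriv k (LSeries (fun n => (a n : ℂ))) c /
    (k.factorial : ℂ) with hb
  have hb0 : ∀ k, 0 ≤ b k := by
    intro k
    have h1 := LSeries.iteratedDeriv_alternating (a := fun n => (a n : ℂ))
      (by intro n; simpa using ha n) habs k
    rw [hcr] at h1
    have h2 : (0 : ℂ) ≤ ((k.factorial : ℝ)⁻¹ : ℝ) := by
      rw [Complex.zero_le_real]; positivity
    have h3 : b k = ((-1) ^ k * iteratedDeriv k (LSeries (fun n => (a n : ℂ))) c) *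
        (((k.factorial : ℝ)⁻¹ : ℝ) : ℂ) := by
      rw [hb]; push_cast; ring
    rw [h3]
    exact mul_nonneg h1 h2
  have hb00 : 1 ≤ (b 0).re := by
    rw [hb]
    simp only [pow_zero, one_mul, iteratedDeriv_zero, Nat.factorial_zero, Nat.cast_one, div_one]
    rw [← hcr]
    exact S2A_re_sum a ha ha1 (hsum _ (by simp; norm_num))
  -- (3)
  set u : ℝ := 3 / 2 - β with hu
  have hu1 : 1 / 2 < u := by rw [hu]; linarith
  have hu2 : u ≤ 5 / 8 := by rw [hu]; linarith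
  have hTay := Complex.hasSum_taylorSeries_of_entire hFd c (β : ℂ)
  set T : ℕ → ℂ := fun k => ((k.factorial : ℂ))⁻¹ • ((β : ℂ) - c) ^ k • iteratedDeriv k F c with hT
  have hTb : ∀ k, T k = b k * (u : ℂ) ^ k - 2 * lam * (2 * (u : ℂ)) ^ k := by
    intro k
    rw [hT]
    simp only [smul_eq_mul]
    rw [hder k, hb]
    have e1 : ((β : ℂ) - c) = (-1) * (u : ℂ) := by rw [hc, hu]; push_cast; ring
    have hk : (k.factorial : ℂ) ≠ 0 := by exact_mod_cast k.factorial_ne_zero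
    have e2 : ((-1 : ℂ)) ^ k * (-1) ^ k = 1 := by rw [← pow_add, Even.neg_one_pow ⟨k, rfl⟩]
    rw [e1, mul_pow, mul_pow]
    field_simp
    linear_combination (-(lam * 2 ^ k * 2 * (k.factorial : ℂ))) * e2
  have hTn : ∀ k, ‖T k‖ ≤ 4 * M * u ^ k := by
    intro k
    rw [hT]
    simp only [smul_eq_mul, norm_mul, norm_inv, norm_pow]
    have e1 : ‖(β : ℂ) - c‖ = u := by
      have : (β : ℂ) - c = ((-u : ℝ) : ℂ) := by rw [hc, hu]; push_cast; ring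
      rw [this, Complex.norm_real, Real.norm_eq_abs, abs_neg, abs_of_pos (by linarith)]
    have hk : (0 : ℝ) < k.factorial := by exact_mod_cast k.factorial_pos
    rw [e1, Complex.norm_natCast]
    calc (k.factorial : ℝ)⁻¹ * (u ^ k * ‖iteratedDeriv k F c‖)
        ≤ (k.factorial : ℝ)⁻¹ * (u ^ k * ((k.factorial : ℝ) * (4 * M))) := by
          have := hbd k
          have : 0 ≤ u ^ k := pow_nonneg (by linarith) k
          gcongr
      _ = 4 * M * u ^ k := by field_simp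
  have hFβ : F β = lam / (1 - β) := by
    have h1 : (β : ℂ) ≠ 1 := by
      intro h0
      have : β = 1 := by exact_mod_cast h0
      linarith
    have h2 : (β : ℂ) - 1 ≠ 0 := sub_ne_zero.2 h1
    have h3 : (1 : ℂ) - β ≠ 0 := sub_ne_zero.2 h1.symm
    rw [hFs _ h1, hz, zero_div, zero_sub, eq_div_iff h3, neg_mul, mul_assoc]
    have h4 : ((β : ℂ) - 1)⁻¹ * (1 - β) = -1 := by
      rw [← neg_sub (β : ℂ) 1, mul_neg, inv_mul_cancel₀ h2]
    rw [h4]; ring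
  -- split
  have hTs : Summable T := hTay.summable
  have hsplit : (∑ k ∈ range K, T k) + ∑' k, T (k + K) = lam / (1 - β) := by
    rw [hTs.sum_add_tsum_nat_add K, hTay.tsum_eq, hFβ]
  have hu0 : 0 ≤ u := by linarith
  have hu11 : u < 1 := by linarith
  have htail : ‖∑' k, T (k + K)‖ ≤ 1 / 2 := by
    have hg : HasSum (fun k => 4 * M * u ^ K * u ^ k) (4 * M * u ^ K * (1 - u)⁻¹) :=
      (hasSum_geometric_of_lt_one hu0 hu11).mul_left _
    have h1 : ‖∑' k, T (k + K)‖ ≤ 4 * M * u ^ K * (1 - u)⁻¹ := by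
      refine tsum_of_norm_bounded hg fun k => ?_
      calc ‖T (k + K)‖ ≤ 4 * M * u ^ (k + K) := hTn _
        _ = _ := by rw [pow_add]; ring
    have h2 : (1 - u)⁻¹ ≤ 8 / 3 := by
      rw [inv_le_comm₀ (by linarith) (by norm_num)]
      linarith
    have h3 : u ^ K ≤ (5 / 8) ^ K := pow_le_pow_left₀ hu0 hu2 K
    have h4 : 4 * M * u ^ K * (1 - u)⁻¹ ≤ 4 * M * (5 / 8) ^ K * (8 / 3) := by
      have : 0 ≤ (1 - u)⁻¹ := inv_nonneg.2 (by linarith)
      gcongr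
    nlinarith
  have h2u : ((2 * (u : ℂ)) - 1) * ∑ k ∈ range K, (2 * (u : ℂ)) ^ k = (2 * (u : ℂ)) ^ K - 1 := by
    rw [mul_comm]; exact geom_sum_mul _ _
  have hmain : lam * (2 * (u : ℂ)) ^ K = (1 - β) *
      ((∑ k ∈ range K, b k * (u : ℂ) ^ k) + ∑' k, T (k + K)) := by
    have h3 : (1 : ℂ) - β ≠ 0 := by
      intro h0
      have : (1 : ℝ) - β = 0 := by exact_mod_cast h0
      linarith
    have h4 : (∑ k ∈ range K, T k) = (∑ k ∈ range K, b k * (u : ℂ) ^ k) -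
        2 * lam * ∑ k ∈ range K, (2 * (u : ℂ)) ^ k := by
      rw [mul_sum, ← sum_sub_distrib]
      exact sum_congr rfl fun k _ => hTb k
    have h5 : (1 - (β : ℂ)) * ((∑ k ∈ range K, T k) + ∑' k, T (k + K)) = lam := by
      rw [hsplit]; field_simp
    rw [h4] at h5
    have h6 : (2 * (u : ℂ)) - 1 = 2 * (1 - β) := by rw [hu]; push_cast; ring
    rw [h6] at h2u
    linear_combination (-lam) * h2u - h5
  have hB : 1 ≤ ‖∑ k ∈ range K, b k * (u : ℂ) ^ k‖ := by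
    refine le_trans ?_ (Complex.re_le_norm _)
    rw [Complex.re_sum]
    have h1 : ∀ k, 0 ≤ (b k * (u : ℂ) ^ k).re := by
      intro k
      have h2 : (0 : ℂ) ≤ ((u ^ k : ℝ) : ℂ) := by
        rw [Complex.zero_le_real]; positivity
      have h3 := mul_nonneg (hb0 k) h2
      push_cast at h3
      exact (Complex.nonneg_iff.1 h3).1
    have h2 : (b 0 * (u : ℂ) ^ 0).re ≤ ∑ k ∈ range K, (b k * (u : ℂ) ^ k).re :=
      single_le_sum (fun k _ => h1 k) (mem_range.2 hK1)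
    rw [pow_zero, mul_one] at h2
    linarith
  have hn := congrArg norm hmain
  rw [norm_mul, norm_mul] at hn
  have e1 : ‖(2 * (u : ℂ)) ^ K‖ = (3 - 2 * β) ^ K := by
    have : 2 * (u : ℂ) = ((3 - 2 * β : ℝ) : ℂ) := by rw [hu]; push_cast; ring
    rw [this, norm_pow, Complex.norm_real, Real.norm_eq_abs, abs_of_nonneg (by linarith)]
  have e2 : ‖(1 : ℂ) - β‖ = 1 - β := by
    have : (1 : ℂ) - β = ((1 - β : ℝ) : ℂ) := by push_cast; ring
    rw [this, Complex.norm_real, Real.norm_eq_abs, abs_of_nonneg (by linarith)]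
  rw [e1, e2] at hn
  rw [hn]
  have h7 : 1 / 2 ≤ ‖(∑ k ∈ range K, b k * (u : ℂ) ^ k) + ∑' k, T (k + K)‖ := by
    have := norm_sub_le ((∑ k ∈ range K, b k * (u : ℂ) ^ k) + ∑' k, T (k + K))
      (∑' k, T (k + K))
    rw [add_sub_cancel_right] at this
    linarith
  have h8 : 0 ≤ 1 - β := by linarith
  nlinarith

end Pool.Agent.Lib.H57S
end

-- from Lib.H57S.S3
section

/-!
# Chunk S3: `L(1,ψ) = O(log r)`
-/

open Finset

namespace Pool.Agent.Lib.H57S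

open Pool.Agent.Lib.H68T

/-- For `r ≥ 100` this is `LFunction_near_one` at `s = 1`; for `r < 100`,
`‖L(1,ψ)‖ ≤ 2 r ≤ 200` by `LFunction_bound`. -/
theorem L1_log : ∃ C : ℝ, 0 < C ∧ ∀ (r : ℕ) [NeZero r] (ψ : DirichletCharacter ℂ r), ψ ≠ 1 →
    ‖ψ.LFunction 1‖ ≤ C * (1 + Real.log r) := by
  obtain ⟨C, hC, H⟩ := LFunction_near_one
  refine ⟨C + 200, by linarith, fun r _ ψ hψ => ?_⟩
  have hr0 : 0 < r := Nat.pos_of_ne_zero (NeZero.ne r)
  have hr1 : (1 : ℝ) ≤ r := by exact_mod_cast hr0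
  have hlog : 0 ≤ Real.log r := Real.log_nonneg hr1
  by_cases hr : 100 ≤ r
  · have h1 := H r ψ hr hψ 1 (by
      rw [sub_self, norm_zero]
      positivity)
    nlinarith
  · have h1 := LFunction_bound r ψ hψ 1 (by norm_num)
    rw [norm_one] at h1
    have h2 : (r : ℝ) ≤ 100 := by
      have : r ≤ 100 := by omega
      exact_mod_cast this
    nlinarith

end Pool.Agent.Lib.H57S
end

-- from Lib.H57S.S1
section

/-!
# Chunk S1: the coefficients of `ζ(s) L(s,ψ₁) L(s,ψ₂) L(s,ψ₁ψ₂)` are non-negative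
-/

open Finset

namespace Pool.Agent.Lib.H57S

open Pool.Agent.Lib.H68T

open scoped ComplexOrder

/-- the character as an arithmetic function -/
noncomputable def S1_X {r : ℕ} (ψ : DirichletCharacter ℂ r) : ArithmeticFunction ℂ :=
  toArithmeticFunction (fun n : ℕ => ψ (n : ZMod r))

theorem S1_X_apply {r : ℕ} (ψ : DirichletCharacter ℂ r) {n : ℕ} (hn : n ≠ 0) :
    S1_X ψ n = ψ (n : ZMod r) :=
  (ψ.apply_eq_toArithmeticFunction_apply hn).symm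

theorem S1_X_mult {r : ℕ} (ψ : DirichletCharacter ℂ r) : (S1_X ψ).IsMultiplicative :=
  DirichletCharacter.isMultiplicative_toArithmeticFunction ψ

theorem S1_zetaMul {r : ℕ} (ψ : DirichletCharacter ℂ r) :
    ψ.zetaMul = (ArithmeticFunction.zeta : ArithmeticFunction ℂ) * S1_X ψ := rfl

theorem S1_pair {r s t : ℕ} (ψ : DirichletCharacter ℂ r) (φ : DirichletCharacter ℂ s)
    (χ : DirichletCharacter ℂ t)
    (h : ∀ n : ℕ, χ (n : ZMod t) = ψ (n : ZMod r) * φ (n : ZMod s)) {n : ℕ} (hn : n ≠ 0) :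
    (S1_X φ * S1_X χ) n = φ (n : ZMod s) * ψ.zetaMul n := by
  rw [S1_zetaMul, ArithmeticFunction.mul_apply, ArithmeticFunction.mul_apply, mul_sum]
  refine sum_congr rfl fun x hx => ?_
  obtain ⟨h1, _⟩ := Nat.mem_divisorsAntidiagonal.1 hx
  have hx1 : x.1 ≠ 0 := by rintro h0; rw [h0, zero_mul] at h1; exact hn h1.symm
  have hx2 : x.2 ≠ 0 := by rintro h0; rw [h0, mul_zero] at h1; exact hn h1.symm
  rw [S1_X_apply φ hx1, S1_X_apply χ hx2, S1_X_apply ψ hx2, h, ← h1]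
  rw [ArithmeticFunction.natCoe_apply, ArithmeticFunction.zeta_apply_ne hx1]
  push_cast
  rw [map_mul]
  ring

theorem S1_mul_pow_nonneg {f g : ArithmeticFunction ℂ} {p : ℕ} (hp : p.Prime)
    (hf : ∀ i, 0 ≤ f (p ^ i)) (hg : ∀ i, 0 ≤ g (p ^ i)) (k : ℕ) : 0 ≤ (f * g) (p ^ k) := by
  rw [ArithmeticFunction.mul_apply]
  refine sum_nonneg fun x hx => ?_
  obtain ⟨h1, _⟩ := Nat.mem_divisorsAntidiagonal.1 hx
  obtain ⟨i, _, hi⟩ := (Nat.dvd_prime_pow hp).1 (Dvd.intro _ h1)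
  obtain ⟨j, _, hj⟩ := (Nat.dvd_prime_pow hp).1 (Dvd.intro_left _ h1)
  rw [hi, hj]
  exact mul_nonneg (hf i) (hg j)

theorem S1_zetaMul_pow {r : ℕ} (ψ : DirichletCharacter ℂ r) {p : ℕ} (hp : p.Prime) (k : ℕ) :
    ψ.zetaMul (p ^ k) = ∑ i ∈ range (k + 1), (ψ (p : ZMod r)) ^ i := by
  rw [S1_zetaMul, ArithmeticFunction.coe_zeta_mul_apply, Nat.sum_divisors_prime_pow hp]
  refine sum_congr rfl fun i _ => ?_
  rw [S1_X_apply ψ (pow_ne_zero _ hp.ne_zero)]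
  push_cast
  rw [map_pow]

/-- the four-fold convolution at prime powers -/
theorem S1_nonneg_pow (r₁ r₂ : ℕ) [NeZero r₁] [NeZero r₂] (ψ₁ : DirichletCharacter ℂ r₁)
    (ψ₂ : DirichletCharacter ℂ r₂) (hs₁ : ψ₁ ^ 2 = 1) (hs₂ : ψ₂ ^ 2 = 1) {p : ℕ} (hp : p.Prime)
    (k : ℕ) : 0 ≤ (ψ₁.zetaMul * (S1_X ψ₂ * S1_X (prodc ψ₁ ψ₂))) (p ^ k) := by
  have hne : ∀ i, p ^ i ≠ 0 := fun i => pow_ne_zero _ hp.ne_zero
  have p12 : ∀ n : ℕ, prodc ψ₁ ψ₂ (n : ZMod (r₁ * r₂)) =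
      ψ₁ (n : ZMod r₁) * ψ₂ (n : ZMod r₂) := fun n => prodc_apply ψ₁ ψ₂ n
  have p21 : ∀ n : ℕ, prodc ψ₁ ψ₂ (n : ZMod (r₁ * r₂)) =
      ψ₂ (n : ZMod r₂) * ψ₁ (n : ZMod r₁) := fun n => by rw [p12, mul_comm]
  have hz₁ : ∀ i, 0 ≤ ψ₁.zetaMul (p ^ i) := fun i => DirichletCharacter.zetaMul_nonneg hs₁ _
  have hz₂ : ∀ i, 0 ≤ ψ₂.zetaMul (p ^ i) := fun i => DirichletCharacter.zetaMul_nonneg hs₂ _
  have hq₁ := MulChar.isQuadratic_iff_sq_eq_one.mpr hs₁ (p : ZMod r₁)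
  have hq₂ := MulChar.isQuadratic_iff_sq_eq_one.mpr hs₂ (p : ZMod r₂)
  by_cases hy : 0 ≤ ψ₂ (p : ZMod r₂)
  · refine S1_mul_pow_nonneg hp hz₁ (fun i => ?_) k
    rw [S1_pair ψ₁ ψ₂ (prodc ψ₁ ψ₂) p12 (hne i)]
    push_cast
    rw [map_pow]
    exact mul_nonneg (pow_nonneg hy i) (hz₁ i)
  by_cases hx : 0 ≤ ψ₁ (p : ZMod r₁)
  · have e : ψ₁.zetaMul * (S1_X ψ₂ * S1_X (prodc ψ₁ ψ₂)) =
        ψ₂.zetaMul * (S1_X ψ₁ * S1_X (prodc ψ₁ ψ₂)) := by
      rw [S1_zetaMul, S1_zetaMul]; ring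
    rw [e]
    refine S1_mul_pow_nonneg hp hz₂ (fun i => ?_) k
    rw [S1_pair ψ₂ ψ₁ (prodc ψ₁ ψ₂) p21 (hne i)]
    push_cast
    rw [map_pow]
    exact mul_nonneg (pow_nonneg hx i) (hz₂ i)
  · have hx1 : ψ₁ (p : ZMod r₁) = -1 := by
      rcases hq₁ with h | h | h
      · exact absurd (by rw [h]) hx
      · exact absurd (by rw [h]; exact zero_le_one) hx
      · exact h
    have hy1 : ψ₂ (p : ZMod r₂) = -1 := by
      rcases hq₂ with h | h | h
      · exact absurd (by rw [h]) hy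
      · exact absurd (by rw [h]; exact zero_le_one) hy
      · exact h
    refine S1_mul_pow_nonneg hp hz₁ (fun i => ?_) k
    rw [S1_pair ψ₁ ψ₂ (prodc ψ₁ ψ₂) p12 (hne i), S1_zetaMul_pow ψ₁ hp]
    push_cast
    rw [map_pow, hx1, hy1, neg_one_geom_sum]
    split_ifs with h
    · rw [mul_zero]
    · have : Even i := by
        rw [Nat.even_add_one, not_not] at h
        exact h
      rw [this.neg_one_pow, one_mul]
      exact zero_le_one

theorem S1_summable {r : ℕ} [NeZero r] (ψ : DirichletCharacter ℂ r) {s : ℂ} (hs : 1 < s.re) :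
    LSeriesSummable (fun n => S1_X ψ n) s :=
  (LSeriesSummable_congr _ fun h => (S1_X_apply ψ h)).mpr <|
    ZMod.LSeriesSummable_of_one_lt_re ψ hs

theorem S1_LSeries {r : ℕ} [NeZero r] (ψ : DirichletCharacter ℂ r) {s : ℂ} (hs : 1 < s.re) :
    LSeries (fun n => S1_X ψ n) s = ψ.LFunction s := by
  rw [ψ.LFunction_eq_LSeries hs]
  exact LSeries_congr (fun h => S1_X_apply ψ h) s

/-- Take the arithmetic function `b = (1 * ψ₁) * (ψ₂ · (1 * ψ₁))`, `b(n) = ∑_{d e = n} ρ(d) ψ₂(e) ρ(e)`,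
`ρ(n) = ∑_{d ∣ n} ψ₁(d)` (`= DirichletCharacter.zetaMul ψ₁`, and `zetaMul_nonneg` in
`Mathlib/NumberTheory/LSeries/Nonvanishing.lean` or nearby); `b(0) = 0`, `b(1) = 1`.
L-SERIES: for `Re s > 1`, `LSeries_mul'`/`LSeries_convolution`: `LSeries (1 * ψ₁) = ζ L(ψ₁)`;
`ψ₂ · (1 * ψ₁) = ψ₂ * (ψ₁ψ₂)` (complete multiplicativity of `ψ₂`; `prodc_apply`), so its L-series is
`L(ψ₂) L(prodc ψ₁ ψ₂)`; `DirichletCharacter.LFunction_eq_LSeries`, everything is summable.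
NON-NEGATIVITY: `b` is multiplicative (`ArithmeticFunction.IsMultiplicative.mul`, `.pmul`), so by
`IsMultiplicative.multiplicative_factorization` it is enough to show `b(p^k) ≥ 0`. With
`x = ψ₁(p)`, `y = ψ₂(p)`, both in `{0, 1, -1}` (`ψᵢ ^ 2 = 1`):
`b(p^k) = ∑_{i+j=k} ρ(p^i) y^j ρ(p^j)`, `ρ(p^i) = ∑_{l ≤ i} x^l`.
`x = 0`: `ρ = 1`, `b(p^k) = ∑_{j ≤ k} y^j ≥ 0`. `x = -1`: `ρ(p^i) = 1` for `i` even, `0` for `i` odd, so
`b(p^k) = 0` for `k` odd and `∑_{j even} y^j ≥ 0` for `k` even. `x = 1`: `ρ(p^i) = i + 1`; for `y = 0, 1`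
clear; for `y = -1`: `b(p^k) = ∑_{i+j=k} (i+1)(j+1)(-1)^j`, which is `k/2 + 1` for `k` even and `0` for
`k` odd (coefficients of `1/(1-x^2)^2`; by induction on `k`, e.g. first prove
`∑_{j ≤ k} (j+1)(-1)^j` in closed form and then sum). Finally let `a n = (b n).re` (all values are
real: `conj b = b`; or build `b` over `ℝ` from the real values `(ψᵢ n).re`). -/
theorem coeff_exists (r₁ r₂ : ℕ) [NeZero r₁] [NeZero r₂] (ψ₁ : DirichletCharacter ℂ r₁)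
    (ψ₂ : DirichletCharacter ℂ r₂) (hs₁ : ψ₁ ^ 2 = 1) (hs₂ : ψ₂ ^ 2 = 1) :
    ∃ a : ℕ → ℝ, (∀ n, 0 ≤ a n) ∧ a 1 = 1 ∧ ∀ s : ℂ, 1 < s.re →
      LSeriesSummable (fun n => (a n : ℂ)) s ∧
      LSeries (fun n => (a n : ℂ)) s =
        riemannZeta s * (ψ₁.LFunction s * ψ₂.LFunction s * (prodc ψ₁ ψ₂).LFunction s) := by
  set b : ArithmeticFunction ℂ := ψ₁.zetaMul * (S1_X ψ₂ * S1_X (prodc ψ₁ ψ₂)) with hb
  have hmult : b.IsMultiplicative :=
    (DirichletCharacter.isMultiplicative_zetaMul ψ₁).mul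
      ((S1_X_mult ψ₂).mul (S1_X_mult (prodc ψ₁ ψ₂)))
  have hnn : ∀ n, 0 ≤ b n := by
    intro n
    rcases eq_or_ne n 0 with rfl | hn
    · simp only [ArithmeticFunction.map_zero, le_refl]
    · rw [hmult.multiplicative_factorization _ hn]
      exact Finset.prod_nonneg fun p hp =>
        S1_nonneg_pow r₁ r₂ ψ₁ ψ₂ hs₁ hs₂ (Nat.prime_of_mem_primeFactors hp) _
  have hre : ∀ n, (((b n).re : ℝ) : ℂ) = b n := fun n => (Complex.eq_re_of_ofReal_le (hnn n)).symm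
  refine ⟨fun n => (b n).re, fun n => (Complex.nonneg_iff.1 (hnn n)).1, ?_, fun s hs => ?_⟩
  · show (b 1).re = 1
    rw [hmult.map_one, Complex.one_re]
  · have e : (fun n => (((b n).re : ℝ) : ℂ)) = fun n => b n := funext hre
    rw [e]
    have z1 : LSeriesSummable (fun n => (ArithmeticFunction.zeta : ArithmeticFunction ℂ) n) s :=
      ArithmeticFunction.LSeriesSummable_zeta_iff.mpr hs
    have s1 := S1_summable ψ₁ hs
    have s2 := S1_summable ψ₂ hs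
    have s12 := S1_summable (prodc ψ₁ ψ₂) hs
    have za : LSeriesSummable (fun n => ψ₁.zetaMul n) s := ψ₁.LSeriesSummable_zetaMul hs
    have sb := ArithmeticFunction.LSeriesSummable_mul s2 s12
    refine ⟨ArithmeticFunction.LSeriesSummable_mul za sb, ?_⟩
    rw [hb, ArithmeticFunction.LSeries_mul' za sb, ArithmeticFunction.LSeries_mul' s2 s12,
      S1_zetaMul, ArithmeticFunction.LSeries_mul' z1 s1, S1_LSeries ψ₁ hs, S1_LSeries ψ₂ hs,
      S1_LSeries (prodc ψ₁ ψ₂) hs]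
    have hz : LSeries (fun n => (ArithmeticFunction.zeta : ArithmeticFunction ℂ) n) s =
        riemannZeta s := by
      rw [← ArithmeticFunction.LSeries_zeta_eq_riemannZeta hs]
      rfl
    rw [hz]
    ring

end Pool.Agent.Lib.H57S
end

-- from Lib.H57S.S2B
section

/-!
# Chunk S2B: Estermann's inequality
-/

open Finset

namespace Pool.Agent.Lib.H57S

open Pool.Agent.Lib.H68T

/-- `residue_lower` for `h = gl2_Z · P`, `P s = L(s,ψ₁) L(s,ψ₂) L(s,ψ₁ψ₂)` (entire, by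
`gl2_Z_differentiable` and `DirichletCharacter.differentiable_LFunction`), `lam = P 1`
(`gl2_Z_one`), the coefficients of `coeff_exists` (`gl2_Z_eq`: `ζ = gl2_Z/(s-1)`).
`R := r₁ r₂ ≥ 1`. On `|s - 3/2| = 1`: `1/2 ≤ Re s ≤ 5/2`, `|Im s| ≤ 1`, `‖s‖ ≤ 5/2`, so
`‖gl2_Z s‖ ≤ 4·16 = 64` (`gl2_Z_bound`) and `‖P s‖ ≤ (5 r₁)(5 r₂)(5 r₁ r₂) = 125 R²`
(`LFunction_bound`): `M := 8000 R²`; `‖lam‖ ≤ 8 R² ≤ M`. Take
`K = ⌈log (22 M)/log (8/5)⌉₊` (`≥ 1`), `K ≤ log (22 M)/log (8/5) + 1`, `log (8/5) ≥ 2/5`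
(`(8/5)^5 > e^2`, or `Real.one_sub_inv_le_log_of_pos`: `log (8/5) ≥ 3/8`, which gives `2/log(8/5) ≤ 16/3 ≤ 6`).
`(3 - 2β)^K = (1 + 2(1-β))^K ≤ exp (2 K (1-β)) ≤ exp (2(1-β)) (22 M)^(6 (1-β))`, and
`exp (2 (1-β)) ≤ exp (1/4) ≤ 2`, `22 M = 176000 R² ≤ 10^6 R²`. -/
theorem estermann (r₁ r₂ : ℕ) [NeZero r₁] [NeZero r₂] (ψ₁ : DirichletCharacter ℂ r₁)
    (ψ₂ : DirichletCharacter ℂ r₂) (hs₁ : ψ₁ ^ 2 = 1) (hs₂ : ψ₂ ^ 2 = 1) (hψ₁ : ψ₁ ≠ 1)
    (hψ₂ : ψ₂ ≠ 1) (h12 : prodc ψ₁ ψ₂ ≠ 1) (β : ℝ) (hβ : 7 / 8 ≤ β) (hβ1 : β < 1)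
    (hz : ψ₁.LFunction (β : ℂ) = 0) :
    1 - β ≤ 4 * (‖ψ₁.LFunction 1‖ * ‖ψ₂.LFunction 1‖ * ‖(prodc ψ₁ ψ₂).LFunction 1‖) *
      (10 ^ 6 * ((r₁ : ℝ) * r₂) ^ 2) ^ (6 * (1 - β)) := by
  obtain ⟨a, ha, ha1, hL⟩ := coeff_exists r₁ r₂ ψ₁ ψ₂ hs₁ hs₂
  set P : ℂ → ℂ := fun s => ψ₁.LFunction s * ψ₂.LFunction s * (prodc ψ₁ ψ₂).LFunction s with hP
  set h : ℂ → ℂ := fun s => gl2_Z s * P s with hh
  have hr₁ : (1 : ℝ) ≤ r₁ := by
    have : 0 < r₁ := Nat.pos_of_ne_zero (NeZero.ne r₁)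
    exact_mod_cast this
  have hr₂ : (1 : ℝ) ≤ r₂ := by
    have : 0 < r₂ := Nat.pos_of_ne_zero (NeZero.ne r₂)
    exact_mod_cast this
  set R : ℝ := (r₁ : ℝ) * r₂ with hR
  have hR1 : 1 ≤ R := one_le_mul_of_one_le_of_one_le hr₁ hr₂
  have hR2 : 1 ≤ R ^ 2 := one_le_pow₀ hR1
  have hPd : Differentiable ℂ P :=
    ((DirichletCharacter.differentiable_LFunction hψ₁).mul
      (DirichletCharacter.differentiable_LFunction hψ₂)).mul
      (DirichletCharacter.differentiable_LFunction h12)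
  have hhd : Differentiable ℂ h := gl2_Z_differentiable.mul hPd
  have hh1 : h 1 = P 1 := by simp only [hh]; rw [gl2_Z_one, one_mul]
  have hPn : ∀ s : ℂ, 1 / 2 ≤ s.re → ‖P s‖ ≤ (2 * r₁ * ‖s‖) * (2 * r₂ * ‖s‖) * (2 * R * ‖s‖) := by
    intro s hs
    have b1 := LFunction_bound r₁ ψ₁ hψ₁ s hs
    have b2 := LFunction_bound r₂ ψ₂ hψ₂ s hs
    have b3 := LFunction_bound (r₁ * r₂) (prodc ψ₁ ψ₂) h12 s hs
    push_cast at b3
    simp only [hP]
    rw [norm_mul, norm_mul]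
    gcongr
  have hM : ∀ s : ℂ, ‖s - 3 / 2‖ = 1 → ‖h s‖ ≤ 8000 * R ^ 2 := by
    intro s hs
    have e1 := Complex.abs_re_le_norm (s - 3 / 2)
    have e2 := Complex.abs_im_le_norm (s - 3 / 2)
    rw [hs] at e1 e2
    have e3 : (s - 3 / 2).re = s.re - 3 / 2 := by simp
    have e4 : (s - 3 / 2).im = s.im := by simp
    rw [e3, abs_le] at e1
    rw [e4] at e2
    have e5 : ‖s‖ ≤ 5 / 2 := by
      have : s = (s - 3 / 2) + 3 / 2 := by ring
      calc ‖s‖ = ‖(s - 3 / 2) + 3 / 2‖ := by rw [← this]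
        _ ≤ ‖s - 3 / 2‖ + ‖(3 / 2 : ℂ)‖ := norm_add_le _ _
        _ = 1 + 3 / 2 := by rw [hs]; norm_num
        _ = 5 / 2 := by norm_num
    have b1 := gl2_Z_bound s (by linarith) (by linarith)
    have b2 := hPn s (by linarith)
    have b1' : ‖gl2_Z s‖ ≤ 64 := by
      refine b1.trans ?_
      have : 0 ≤ |s.im| := abs_nonneg _
      nlinarith
    have b2' : ‖P s‖ ≤ 125 * R ^ 2 := by
      refine b2.trans ?_
      have n0 := norm_nonneg s
      calc (2 * r₁ * ‖s‖) * (2 * r₂ * ‖s‖) * (2 * R * ‖s‖)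
          ≤ (2 * r₁ * (5 / 2)) * (2 * r₂ * (5 / 2)) * (2 * R * (5 / 2)) := by gcongr
        _ = 125 * R ^ 2 := by rw [hR]; ring
    simp only [hh]
    rw [norm_mul]
    calc ‖gl2_Z s‖ * ‖P s‖ ≤ 64 * (125 * R ^ 2) := by gcongr
      _ = _ := by ring
  have hlam : ‖P 1‖ ≤ 8000 * R ^ 2 := by
    have := hPn 1 (by norm_num)
    rw [norm_one] at this
    refine this.trans ?_
    have : (2 * r₁ * 1) * (2 * r₂ * 1) * (2 * R * 1) = 8 * R ^ 2 := by rw [hR]; ring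
    rw [this]
    linarith
  have hzero : h β = 0 := by simp only [hh, hP]; rw [hz]; ring
  set X : ℝ := 22 * (8000 * R ^ 2) with hX
  have hX1 : 1 < X := by rw [hX]; linarith
  have hlogX : 0 < Real.log X := Real.log_pos hX1
  have hl85 : 3 / 8 ≤ Real.log (8 / 5) := by
    have := Real.one_sub_inv_le_log_of_pos (x := (8 / 5 : ℝ)) (by norm_num)
    norm_num at this
    linarith
  have hl85p : 0 < Real.log (8 / 5) := by linarith
  set K : ℕ := ⌈Real.log X / Real.log (8 / 5)⌉₊ with hK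
  have hK1 : 1 ≤ K := Nat.one_le_ceil_iff.2 (div_pos hlogX hl85p)
  have hK2 : Real.log X / Real.log (8 / 5) ≤ K := Nat.le_ceil _
  have hK3 : (K : ℝ) < Real.log X / Real.log (8 / 5) + 1 :=
    Nat.ceil_lt_add_one (div_pos hlogX hl85p).le
  have hK4 : 22 * (8000 * R ^ 2) * (5 / 8 : ℝ) ^ K ≤ 1 := by
    rw [← hX]
    have h1 : Real.log X ≤ K * Real.log (8 / 5) := by rwa [div_le_iff₀ hl85p] at hK2
    have h2 : X ≤ (8 / 5 : ℝ) ^ K := by
      rw [← Real.log_le_log_iff (by linarith) (by positivity), Real.log_pow]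
      exact h1
    have h3 : (5 / 8 : ℝ) ^ K = ((8 / 5 : ℝ) ^ K)⁻¹ := by
      rw [← inv_pow]; norm_num
    rw [h3, ← div_eq_mul_inv, div_le_one (by positivity)]
    exact h2
  have hres := residue_lower h hhd (P 1) hh1 a ha ha1 (fun s hs => (hL s hs).1)
    (fun s hs => by
      have hs1 : s ≠ 1 := by rintro rfl; simp at hs
      have hs2 : s - 1 ≠ 0 := sub_ne_zero.2 hs1
      rw [(hL s hs).2]
      simp only [hh, hP]
      rw [gl2_Z_eq s hs1]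
      field_simp)
    (8000 * R ^ 2) hM hlam β hβ hβ1 hzero K hK1 hK4
  have hδ : 0 < 1 - β := by linarith
  have hpow : (3 - 2 * β) ^ K ≤ 2 * (10 ^ 6 * R ^ 2) ^ (6 * (1 - β)) := by
    have h1 : (3 - 2 * β) ≤ Real.exp (2 * (1 - β)) := by
      have := Real.add_one_le_exp (2 * (1 - β))
      linarith
    have h2 : (3 - 2 * β) ^ K ≤ Real.exp (K * (2 * (1 - β))) := by
      rw [Real.exp_nat_mul]
      exact pow_le_pow_left₀ (by linarith) h1 K
    have h3 : K * (2 * (1 - β)) ≤ 2 * (1 - β) + Real.log X * (6 * (1 - β)) := by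
      have h4 : Real.log X / Real.log (8 / 5) ≤ 3 * Real.log X := by
        rw [div_le_iff₀ hl85p]
        nlinarith
      nlinarith
    have h5 : Real.exp (2 * (1 - β)) ≤ 2 := by
      have h6 : Real.exp (2 * (1 - β)) ≤ Real.exp (1 / 4) := Real.exp_le_exp.2 (by linarith)
      have h7 : Real.exp (1 / 4) ^ 4 = Real.exp 1 := by
        rw [← Real.exp_nat_mul]; norm_num
      have h8 := Real.exp_one_lt_d9
      have h9 : Real.exp (1 / 4) ≤ 2 := by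
        by_contra hcon
        push Not at hcon
        have : (2 : ℝ) ^ 4 < Real.exp (1 / 4) ^ 4 := pow_lt_pow_left₀ hcon (by norm_num) (by norm_num)
        rw [h7] at this
        norm_num at this
        linarith
      linarith
    calc (3 - 2 * β) ^ K ≤ Real.exp (K * (2 * (1 - β))) := h2
      _ ≤ Real.exp (2 * (1 - β) + Real.log X * (6 * (1 - β))) := Real.exp_le_exp.2 h3
      _ = Real.exp (2 * (1 - β)) * X ^ (6 * (1 - β)) := by
          rw [Real.exp_add, Real.rpow_def_of_pos (by linarith)]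
      _ ≤ 2 * (10 ^ 6 * R ^ 2) ^ (6 * (1 - β)) := by
          have h10 : X ≤ 10 ^ 6 * R ^ 2 := by rw [hX]; nlinarith
          have h11 : X ^ (6 * (1 - β)) ≤ (10 ^ 6 * R ^ 2) ^ (6 * (1 - β)) :=
            Real.rpow_le_rpow (by linarith) h10 (by linarith)
          have h12 : 0 ≤ X ^ (6 * (1 - β)) := Real.rpow_nonneg (by linarith) _
          gcongr
  have hnP : ‖P 1‖ = ‖ψ₁.LFunction 1‖ * ‖ψ₂.LFunction 1‖ * ‖(prodc ψ₁ ψ₂).LFunction 1‖ := by
    simp only [hP]; rw [norm_mul, norm_mul]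
  rw [← hnP]
  have h13 := mul_le_mul_of_nonneg_left hpow (norm_nonneg (P 1))
  nlinarith

end Pool.Agent.Lib.H57S
end
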