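import Pool.Agent.Lib.H59M.M1.M010
import Pool.Agent.Lib.H59M.M1.M013
import Pool.Agent.Lib.H59M.M1.M014
import Pool.Agent.Lib.H59M.M1.M015
import Pool.Agent.Lib.H59M.M1.M016
import Pool.Agent.Lib.H59M.M1.M017
import Pool.Agent.Lib.H59M.M1.M033
import Pool.Agent.Lib.H59M.M1.M034

/-! Merged copies (to shorten the build) of Lib.H68T.MAIN, Lib.H68T.D2A, Lib.H68T.D2B, Lib.H68T.DA, Lib.H68T.BA1. -/

-- from Lib.H68T.MAIN
section

/-!
# Chunk MAIN: the `L¹` norm of the main parts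
-/

open Finset MeasureTheory

namespace Pool.Agent.Lib.H68T

theorem main_cont_FF (X : ℕ) (h : ℕ → ℂ) : Continuous (FF X h) := by
  unfold FF
  refine continuous_finsetSum _ fun m hm => ?_
  have hm0 : (m : ℂ) ≠ 0 := by
    have := (mem_Icc.mp hm).1
    exact_mod_cast (show m ≠ 0 by omega)
  refine Continuous.mul continuous_const ?_
  exact Continuous.const_cpow (by fun_prop) (Or.inl hm0)

theorem main_tail (T : ℝ) (hT : 0 < T) : Real.pi / 2 - Real.arctan T ≤ 1 / T := by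
  have h1 : 0 < Real.pi / 2 - Real.arctan T := by linarith [Real.arctan_lt_pi_div_two T]
  have h2 : Real.pi / 2 - Real.arctan T < Real.pi / 2 := by linarith [Real.arctan_pos.2 hT]
  have := Real.lt_tan h1 h2
  rw [Real.tan_pi_div_two_sub, Real.tan_arctan] at this
  simpa using this.le

theorem main_int (M : ℝ → ℝ) (hM : Continuous M) (h0 : ∀ t, 0 ≤ M t) (B S T₁ T₂ T₃ : ℝ)
    (hB : ∀ t, M t ≤ B) (hS : ∀ t, |t| ≤ T₃ → M t ≤ S) (hT₁ : 0 ≤ T₁) (hT₂ : 0 < T₂)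
    (h3 : T₁ + T₂ ≤ T₃) :
    ∫ t in (-T₁)..T₁, ∫ τ : ℝ, (1 + τ ^ 2)⁻¹ * M (t + τ) ^ 3 ≤
      Real.pi * (S * ∫ t in (-T₃)..T₃, M t ^ 2) + 2 / T₂ * (2 * T₁ * B ^ 3) := by
  have hB0 : 0 ≤ B := (h0 0).trans (hB 0)
  have hT₃ : 0 ≤ T₃ := by linarith
  have hS0 : 0 ≤ S := (h0 0).trans (hS 0 (by simpa using hT₃))
  have hint : Integrable (Function.uncurry fun t τ : ℝ => (1 + τ ^ 2)⁻¹ * M (t + τ) ^ 3)
      ((volume.restrict (Set.Ioc (-T₁) T₁)).prod volume) := by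
    have e1 : Integrable (fun z : ℝ × ℝ => (1 : ℝ) * (1 + z.2 ^ 2)⁻¹)
        ((volume.restrict (Set.Ioc (-T₁) T₁)).prod volume) :=
      (integrable_const (1 : ℝ)).mul_prod integrable_inv_one_add_sq
    have e2 := e1.mul_bdd (g := fun z : ℝ × ℝ => M (z.1 + z.2) ^ 3) (c := B ^ 3)
      (by fun_prop) (Filter.Eventually.of_forall fun z => by
        rw [Real.norm_of_nonneg (pow_nonneg (h0 _) 3)]
        exact pow_le_pow_left₀ (h0 _) (hB _) 3)
    refine e2.congr (Filter.Eventually.of_forall fun z => ?_)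
    simp [Function.uncurry]
  rw [intervalIntegral.integral_of_le (by linarith), integral_integral_swap hint]
  set I : ℝ := ∫ t in (-T₃)..T₃, M t ^ 2 with hI
  have hI0 : 0 ≤ I := intervalIntegral.integral_nonneg (by linarith) fun t _ => by positivity
  set U : Set ℝ := Set.Ioi T₂ ∪ Set.Iic (-T₂) with hU
  have hUm : MeasurableSet U := measurableSet_Ioi.union measurableSet_Iic
  have hb : ∀ τ : ℝ, ∫ t in Set.Ioc (-T₁) T₁, (1 + τ ^ 2)⁻¹ * M (t + τ) ^ 3 ≤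
      (1 + τ ^ 2)⁻¹ * (S * I) + U.indicator (fun τ : ℝ => (1 + τ ^ 2)⁻¹) τ * (2 * T₁ * B ^ 3) := by
    intro τ
    have hτ : 0 ≤ (1 + τ ^ 2)⁻¹ := by positivity
    rw [integral_const_mul, ← intervalIntegral.integral_of_le (by linarith)]
    by_cases hτU : τ ∈ U
    · rw [Set.indicator_of_mem hτU]
      have h4 : ∫ t in (-T₁)..T₁, M (t + τ) ^ 3 ≤ ∫ t in (-T₁)..T₁, B ^ 3 := by
        refine intervalIntegral.integral_mono_on (by linarith)
          (Continuous.intervalIntegrable (by fun_prop) _ _)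
          (Continuous.intervalIntegrable (by fun_prop) _ _) fun t _ => ?_
        exact pow_le_pow_left₀ (h0 _) (hB _) 3
      rw [intervalIntegral.integral_const, smul_eq_mul] at h4
      have h5 : 0 ≤ (1 + τ ^ 2)⁻¹ * (S * I) := by positivity
      calc (1 + τ ^ 2)⁻¹ * ∫ t in (-T₁)..T₁, M (t + τ) ^ 3
          ≤ (1 + τ ^ 2)⁻¹ * ((T₁ - -T₁) * B ^ 3) := mul_le_mul_of_nonneg_left h4 hτ
        _ = (1 + τ ^ 2)⁻¹ * (2 * T₁ * B ^ 3) := by ring
        _ ≤ _ := by linarith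
    · rw [Set.indicator_of_notMem hτU, zero_mul, add_zero]
      have hτ2 : |τ| ≤ T₂ := by
        rw [hU, Set.mem_union, not_or] at hτU
        obtain ⟨ha, hb⟩ := hτU
        simp only [Set.mem_Ioi, Set.mem_Iic, not_lt, not_le] at ha hb
        exact abs_le.2 ⟨hb.le, ha⟩
      obtain ⟨hτ3, hτ4⟩ := abs_le.1 hτ2
      refine mul_le_mul_of_nonneg_left ?_ hτ
      have h4 : ∫ t in (-T₁)..T₁, M (t + τ) ^ 3 ≤ ∫ t in (-T₁)..T₁, S * M (t + τ) ^ 2 := by
        refine intervalIntegral.integral_mono_on (by linarith)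
          (Continuous.intervalIntegrable (by fun_prop) _ _)
          (Continuous.intervalIntegrable (by fun_prop) _ _) fun t ht => ?_
        have h6 : M (t + τ) ≤ S := hS _ (abs_le.2 ⟨by linarith [ht.1], by linarith [ht.2]⟩)
        calc M (t + τ) ^ 3 = M (t + τ) * M (t + τ) ^ 2 := by ring
          _ ≤ S * M (t + τ) ^ 2 := mul_le_mul_of_nonneg_right h6 (by positivity)
      refine h4.trans ?_
      rw [intervalIntegral.integral_const_mul]
      refine mul_le_mul_of_nonneg_left ?_ hS0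
      rw [intervalIntegral.integral_comp_add_right (fun t => M t ^ 2) τ]
      rw [hI]
      refine intervalIntegral.integral_mono_interval (by linarith) (by linarith) (by linarith)
        (Filter.Eventually.of_forall fun t => ?_)
        (Continuous.intervalIntegrable (by fun_prop) _ _)
      show 0 ≤ M t ^ 2
      positivity
  have hi1 : Integrable (fun τ : ℝ => (1 + τ ^ 2)⁻¹) := integrable_inv_one_add_sq
  have hi2 : Integrable (U.indicator (fun τ : ℝ => (1 + τ ^ 2)⁻¹)) := hi1.indicator hUm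
  refine (integral_mono hint.integral_prod_right ((hi1.mul_const _).add (hi2.mul_const _))
    hb).trans ?_
  rw [integral_add' (hi1.mul_const _) (hi2.mul_const _), integral_mul_const, integral_mul_const,
    integral_univ_inv_one_add_sq]
  refine add_le_add le_rfl (mul_le_mul_of_nonneg_right ?_ (by positivity))
  rw [integral_indicator hUm, hU, setIntegral_union ?_ measurableSet_Iic hi1.integrableOn
    hi1.integrableOn, integral_Ioi_inv_one_add_sq, integral_Iic_inv_one_add_sq, Real.arctan_neg]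
  · have := main_tail T₂ hT₂
    have e : 2 / T₂ = 1 / T₂ + 1 / T₂ := by ring
    rw [e]
    linarith
  · rw [Set.disjoint_left]
    intro x hx hx'
    simp only [Set.mem_Ioi, Set.mem_Iic] at hx hx'
    linarith

/-- `∑_p ∫_{|t| ≤ Q^7} ‖FF(ψ hmain)‖ ≤ (log X)^(-A)`. From `main_integral`: for `|τ| ≤ Q^10`
(so `|t + τ| ≤ 2 Q^10 ≤ Q^11`) use `‖M‖³ ≤ sup ‖M‖ ‖M‖²`, `Mu_small` and `mean_value`
(Fubini: total at most `C (log X)^4 · π · (log X)^(-A') · 100 (log X)^3`); for `|τ| > Q^10` use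
`‖M‖ ≤ 2 log X`, `∫_{|τ| > Q^10} (1+τ²)^(-1) ≤ 2 Q^(-10)`, `card_PC_le`: at most
`C (log X)^4 Q² · 2Q^7 · 2Q^(-10) (2 log X)^3`. -/
theorem main_L1 (c : ℝ) (hc : 0 < c) (A : ℝ) : ∃ K : ℝ, ∀ Q X : ℕ, Reg K Q X → Good c Q →
    ∑ p ∈ PC Q, ∫ t in (-(Q : ℝ) ^ 7)..((Q : ℝ) ^ 7),
      ‖FF X (fun m => (hmain Q X m : ℂ) * p.2 (m : ZMod p.1)) t‖ ≤ (Real.log X) ^ (-A) := by
  obtain ⟨C, K₁, hC, hK₁⟩ := main_integral
  obtain ⟨K₂, hK₂⟩ := Mu_small c hc (A + 8)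
  obtain ⟨K₃, hK₃⟩ := mean_value
  obtain ⟨K₄, hK₄1, hK₄⟩ := reg_log_le (64 * C) (7 + A) 1 one_pos
  refine ⟨|K₁| + |K₂| + |K₃| + K₄ + 200 * Real.pi * C + 10, ?_⟩
  intro Q X hreg hgood
  have hpi := Real.pi_pos
  have a1 : 0 ≤ |K₁| := abs_nonneg _
  have a2 : 0 ≤ |K₂| := abs_nonneg _
  have a3 : 0 ≤ |K₃| := abs_nonneg _
  have b1 : K₁ ≤ |K₁| := le_abs_self _
  have b2 : K₂ ≤ |K₂| := le_abs_self _
  have b3 : K₃ ≤ |K₃| := le_abs_self _
  have a4 : 0 ≤ 200 * Real.pi * C := by positivity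
  have hKpos : 0 ≤ |K₁| + |K₂| + |K₃| + K₄ + 200 * Real.pi * C + 10 := by linarith
  have r1 : Reg K₁ Q X := hreg.mono hKpos (by linarith)
  have r2 : Reg K₂ Q X := hreg.mono hKpos (by linarith)
  have r3 : Reg K₃ Q X := hreg.mono hKpos (by linarith)
  have r4 : Reg K₄ Q X := hreg.mono hKpos (by linarith)
  have r5 : Reg (200 * Real.pi * C + 10) Q X := hreg.mono hKpos (by linarith)
  set L : ℝ := Real.log X with hL
  have hLe : Real.exp (200 * Real.pi * C + 10) ≤ L := r5.logX_ge (by linarith)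
  have hL10 : 200 * Real.pi * C + 10 ≤ L := by
    have := Real.add_one_le_exp (200 * Real.pi * C + 10)
    linarith
  have hL0 : 0 < L := by linarith
  have hX : 1 ≤ X := r5.X_pos (by linarith)
  have hQ10 : (10 : ℝ) ≤ Q := by
    have := r5.Q_ge (by linarith)
    linarith
  have hQ0 : (0 : ℝ) < Q := by linarith
  have hQ4 : 64 * C * L ^ (7 + A) ≤ Q := by
    have := hK₄ Q X r4
    simpa using this
  set T₁ : ℝ := (Q : ℝ) ^ 7 with hT₁
  set T₂ : ℝ := (Q : ℝ) ^ 10 with hT₂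
  set T₃ : ℝ := (Q : ℝ) ^ 11 with hT₃
  have hT₁0 : 0 < T₁ := by positivity
  have hT₂0 : 0 < T₂ := by positivity
  have h12 : T₁ ≤ T₂ := pow_le_pow_right₀ (by linarith) (by norm_num)
  have h3 : T₁ + T₂ ≤ T₃ := by
    have : T₃ = T₂ * Q := by rw [hT₃, hT₂]; ring
    rw [this]
    nlinarith
  have hlog : 1 + Real.log (60 * X) ≤ 2 * L := by
    have hX0 : (X : ℝ) ≠ 0 := by positivity
    rw [Real.log_mul (by norm_num) hX0, ← hL]
    have : Real.log 60 ≤ 5 := by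
      rw [Real.log_le_iff_le_exp (by norm_num)]
      have h1 : (2.7 : ℝ) ≤ Real.exp 1 := by
        have := Real.exp_one_gt_d9
        linarith
      have h2 : Real.exp 5 = Real.exp 1 ^ 5 := by rw [← Real.exp_nat_mul]; norm_num
      rw [h2]
      have h3 : (2.7 : ℝ) ^ 5 ≤ Real.exp 1 ^ 5 := pow_le_pow_left₀ (by norm_num) h1 5
      have h4 : (60 : ℝ) ≤ 2.7 ^ 5 := by norm_num
      linarith
    linarith
  have key : ∀ p ∈ PC Q, ∫ t in (-T₁)..T₁,
      ‖FF X (fun m => (hmain Q X m : ℂ) * p.2 (m : ZMod p.1)) t‖ ≤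
      C * L ^ (4 : ℝ) * (Real.pi * (L ^ (-(A + 8)) * ∫ t in (-T₃)..T₃, ‖Mu X p t‖ ^ 2) +
        2 / T₂ * (2 * T₁ * (2 * L) ^ 3)) := by
    intro p hp
    have hp1 : 1 ≤ p.1 := (mem_PC.mp hp).1
    have hcont := (continuous_Mu X p).norm
    have hMi := main_int (fun t => ‖Mu X p t‖) hcont (fun t => norm_nonneg _) (2 * L)
      (L ^ (-(A + 8))) T₁ T₂ T₃ (fun t => (Mu_le X p t hX).trans hlog)
      (fun t ht => hK₂ Q X r2 hgood p hp t ht) hT₁0.le hT₂0 h3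
    have hi : IntervalIntegrable (fun t => C * L ^ (4 : ℝ) *
        ∫ τ : ℝ, (1 + τ ^ 2)⁻¹ * ‖Mu X p (t + τ)‖ ^ 3) volume (-T₁) T₁ := by
      refine IntervalIntegrable.const_mul ?_ _
      rw [intervalIntegrable_iff_integrableOn_Ioc_of_le (by linarith)]
      have hint : Integrable (Function.uncurry fun t τ : ℝ => (1 + τ ^ 2)⁻¹ *
          ‖Mu X p (t + τ)‖ ^ 3) ((volume.restrict (Set.Ioc (-T₁) T₁)).prod volume) := by
        have e1 : Integrable (fun z : ℝ × ℝ => (1 : ℝ) * (1 + z.2 ^ 2)⁻¹)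
            ((volume.restrict (Set.Ioc (-T₁) T₁)).prod volume) :=
          (integrable_const (1 : ℝ)).mul_prod integrable_inv_one_add_sq
        have hcM : Continuous (fun z : ℝ × ℝ => ‖Mu X p (z.1 + z.2)‖ ^ 3) :=
          ((continuous_Mu X p).comp (continuous_fst.add continuous_snd)).norm.pow 3
        have e2 := e1.mul_bdd (g := fun z : ℝ × ℝ => ‖Mu X p (z.1 + z.2)‖ ^ 3) (c := (2 * L) ^ 3)
          hcM.aestronglyMeasurable (Filter.Eventually.of_forall fun z => by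
            rw [Real.norm_of_nonneg (by positivity)]
            exact pow_le_pow_left₀ (norm_nonneg _) ((Mu_le X p _ hX).trans hlog) 3)
        refine e2.congr (Filter.Eventually.of_forall fun z => ?_)
        simp [Function.uncurry]
      exact hint.integral_prod_left
    have hstep : ∫ t in (-T₁)..T₁,
        ‖FF X (fun m => (hmain Q X m : ℂ) * p.2 (m : ZMod p.1)) t‖ ≤
        ∫ t in (-T₁)..T₁, C * L ^ (4 : ℝ) *
          ∫ τ : ℝ, (1 + τ ^ 2)⁻¹ * ‖Mu X p (t + τ)‖ ^ 3 := by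
      refine intervalIntegral.integral_mono_on (by linarith)
        ((main_cont_FF X _).norm.intervalIntegrable _ _) hi fun t _ => ?_
      exact hK₁ Q X r1 p hp1 t
    refine hstep.trans ?_
    rw [intervalIntegral.integral_const_mul]
    exact mul_le_mul_of_nonneg_left hMi (by positivity)
  refine (Finset.sum_le_sum key).trans ?_
  rw [← Finset.mul_sum, Finset.sum_add_distrib, ← Finset.mul_sum, ← Finset.mul_sum,
    Finset.sum_const, nsmul_eq_mul]
  have hmv := hK₃ Q X r3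
  have hcard : ((PC Q).card : ℝ) ≤ (Q : ℝ) ^ 2 := by exact_mod_cast card_PC_le Q
  have hpart1 : C * L ^ (4 : ℝ) * (Real.pi * (L ^ (-(A + 8)) *
      ∑ p ∈ PC Q, ∫ t in (-T₃)..T₃, ‖Mu X p t‖ ^ 2)) ≤ L ^ (-A) / 2 := by
    calc C * L ^ (4 : ℝ) * (Real.pi * (L ^ (-(A + 8)) *
          ∑ p ∈ PC Q, ∫ t in (-T₃)..T₃, ‖Mu X p t‖ ^ 2))
        ≤ C * L ^ (4 : ℝ) * (Real.pi * (L ^ (-(A + 8)) * (100 * L ^ (3 : ℝ)))) := by
          gcongr
      _ = 100 * Real.pi * C * L ^ (-A - 1) := by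
          have : L ^ (-A - 1) = L ^ (4 : ℝ) * L ^ (-(A + 8)) * L ^ (3 : ℝ) := by
            rw [← Real.rpow_add hL0, ← Real.rpow_add hL0]
            congr 1
            ring
          rw [this]
          ring
      _ = (100 * Real.pi * C / L) * L ^ (-A) := by
          rw [Real.rpow_sub_one hL0.ne']
          ring
      _ ≤ (1 / 2) * L ^ (-A) := by
          refine mul_le_mul_of_nonneg_right ?_ (by positivity)
          rw [div_le_iff₀ hL0]
          linarith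
      _ = L ^ (-A) / 2 := by ring
  have hpart2 : C * L ^ (4 : ℝ) * (((PC Q).card : ℝ) * (2 / T₂ * (2 * T₁ * (2 * L) ^ 3))) ≤
      L ^ (-A) / 2 := by
    calc C * L ^ (4 : ℝ) * (((PC Q).card : ℝ) * (2 / T₂ * (2 * T₁ * (2 * L) ^ 3)))
        ≤ C * L ^ (4 : ℝ) * ((Q : ℝ) ^ 2 * (2 / T₂ * (2 * T₁ * (2 * L) ^ 3))) := by
          gcongr
      _ = 32 * C * L ^ (7 : ℝ) / Q := by
          have e1 : L ^ (7 : ℝ) = L ^ (4 : ℝ) * L ^ 3 := by
            rw [← Real.rpow_natCast L 3, ← Real.rpow_add hL0]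
            norm_num
          rw [e1, hT₁, hT₂]
          field_simp
          ring
      _ = (64 * C * L ^ (7 + A)) / Q * (L ^ (-A) / 2) := by
          rw [Real.rpow_add hL0, Real.rpow_neg hL0.le]
          have : L ^ A ≠ 0 := (Real.rpow_pos_of_pos hL0 A).ne'
          field_simp
          ring
      _ ≤ 1 * (L ^ (-A) / 2) := by
          refine mul_le_mul_of_nonneg_right ?_ (by positivity)
          rw [div_le_one hQ0]
          exact hQ4
      _ = L ^ (-A) / 2 := one_mul _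
  rw [mul_add]
  linarith

end Pool.Agent.Lib.H68T
end

-- from Lib.H68T.D2A
section

/-!
# Chunk D2A; part of D2: the `L¹` bounds for `F_ψ`
-/

open Finset MeasureTheory

namespace Pool.Agent.Lib.H68T

/-- the contribution of the long variables at one frequency -/
theorem d2a_long (Q X : ℕ) (α : ℕ → ℕ → ℝ) (B E : ℝ) (hE : 0 ≤ E)
    (hα : ∀ j ∈ range 2, ∑ a ∈ Icc 1 (60 * X), |α j a| / a ≤ B)
    (p : Σ r : ℕ, DirichletCharacter ℂ r) (t : ℝ)
    (hL : ∀ j ∈ range 2, ∀ a : ℕ, 1 ≤ a → ‖Long Q X p j a t‖ ≤ E) :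
    ‖∑ j ∈ range 2, ∑ a ∈ Icc 1 (60 * X), (α j a : ℂ) * p.2 (a : ZMod p.1) *
          (a : ℂ) ^ (-(1 + t * Complex.I)) * Long Q X p j a t‖ ≤ 2 * (B * E) := by
  have h1 : ∀ j ∈ range 2, ‖∑ a ∈ Icc 1 (60 * X), (α j a : ℂ) * p.2 (a : ZMod p.1) *
      (a : ℂ) ^ (-(1 + t * Complex.I)) * Long Q X p j a t‖ ≤ B * E := by
    intro j hj
    refine (norm_sum_le _ _).trans ?_
    have h2 : ∀ a ∈ Icc 1 (60 * X), ‖(α j a : ℂ) * p.2 (a : ZMod p.1) *
        (a : ℂ) ^ (-(1 + t * Complex.I)) * Long Q X p j a t‖ ≤ |α j a| / a * E := by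
      intro a ha
      have ha1 : 1 ≤ a := (mem_Icc.mp ha).1
      have ha0 : (0 : ℝ) < a := by exact_mod_cast ha1
      rw [norm_mul, norm_mul, norm_mul, Complex.norm_real, Real.norm_eq_abs]
      have e1 : ‖(a : ℂ) ^ (-(1 + t * Complex.I))‖ = (a : ℝ)⁻¹ := by
        rw [Complex.norm_natCast_cpow_of_pos (by omega)]
        simp [Real.rpow_neg_one]
      rw [e1]
      have e2 : ‖p.2 (a : ZMod p.1)‖ ≤ 1 := DirichletCharacter.norm_le_one _ _
      have e3 := hL j hj a ha1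
      have e4 : 0 ≤ |α j a| := abs_nonneg _
      calc |α j a| * ‖p.2 (a : ZMod p.1)‖ * (a : ℝ)⁻¹ * ‖Long Q X p j a t‖
          ≤ |α j a| * 1 * (a : ℝ)⁻¹ * E := by gcongr
        _ = |α j a| / a * E := by ring
    refine (Finset.sum_le_sum h2).trans ?_
    rw [← Finset.sum_mul]
    exact mul_le_mul_of_nonneg_right (hα j hj) hE
  refine (norm_sum_le _ _).trans ?_
  refine (Finset.sum_le_sum h1).trans ?_
  rw [Finset.sum_const, card_range, nsmul_eq_mul]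
  norm_num

open scoped Classical in
/-- Non-trivial characters: `decomposition`, `main_L1`, `long_small`, `card_PC_le`
(`Q² · 2Q^7 · 2 (log X)^7 Q^(-11)` for the long parts). -/
theorem L1_nontrivial (c : ℝ) (hc : 0 < c) (A : ℝ) : ∃ K : ℝ, ∀ Q X : ℕ, Reg K Q X → Good c Q →
    ∑ p ∈ (PC Q).filter (fun p => p ≠ p0), ∫ t in (-(Q : ℝ) ^ 7)..((Q : ℝ) ^ 7), ‖FL X p t‖ ≤
      (Real.log X) ^ (-A) := by
  obtain ⟨K₁, hK₁⟩ := decomposition
  obtain ⟨K₂, hK₂⟩ := long_small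
  obtain ⟨K₃, hK₃⟩ := main_L1 c hc (A + 1)
  obtain ⟨K₄, hK₄1, hK₄⟩ := reg_log_le 8 (7 + A) 2 two_pos
  refine ⟨|K₁| + |K₂| + |K₃| + K₄ + 10, ?_⟩
  intro Q X hreg hgood
  have a1 : 0 ≤ |K₁| := abs_nonneg _
  have a2 : 0 ≤ |K₂| := abs_nonneg _
  have a3 : 0 ≤ |K₃| := abs_nonneg _
  have b1 : K₁ ≤ |K₁| := le_abs_self _
  have b2 : K₂ ≤ |K₂| := le_abs_self _
  have b3 : K₃ ≤ |K₃| := le_abs_self _
  have hKpos : 0 ≤ |K₁| + |K₂| + |K₃| + K₄ + 10 := by linarith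
  have r1 : Reg K₁ Q X := hreg.mono hKpos (by linarith)
  have r2 : Reg K₂ Q X := hreg.mono hKpos (by linarith)
  have r3 : Reg K₃ Q X := hreg.mono hKpos (by linarith)
  have r4 : Reg K₄ Q X := hreg.mono hKpos (by linarith)
  have r5 : Reg 10 Q X := hreg.mono hKpos (by linarith)
  set L : ℝ := Real.log X with hL
  have hL10 : 10 ≤ L := by
    have h1 := r5.logX_ge (by norm_num)
    have := Real.add_one_le_exp (10 : ℝ)
    linarith
  have hL0 : 0 < L := by linarith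
  have hQ10 : (10 : ℝ) ≤ Q := r5.Q_ge (by norm_num)
  have hQ0 : (0 : ℝ) < Q := by linarith
  have hQ4 : 8 * L ^ (7 + A) ≤ (Q : ℝ) ^ 2 := by
    have := hK₄ Q X r4
    rwa [Real.rpow_two] at this
  obtain ⟨α, hα, hdec⟩ := hK₁ Q X r1
  set T₁ : ℝ := (Q : ℝ) ^ 7 with hT₁
  have hT₁0 : 0 < T₁ := by positivity
  set D : ℝ := 2 * (L ^ (7 : ℝ) * (Q : ℝ) ^ (-11 : ℝ)) with hD
  have hD0 : 0 ≤ D := by positivity
  have key : ∀ p ∈ (PC Q).filter (fun p => p ≠ p0), ∫ t in (-T₁)..T₁, ‖FL X p t‖ ≤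
      (∫ t in (-T₁)..T₁, ‖FF X (fun m => (hmain Q X m : ℂ) * p.2 (m : ZMod p.1)) t‖) +
        2 * T₁ * D := by
    intro p hp
    obtain ⟨hp, hp0⟩ := mem_filter.mp hp
    have hp1 : 1 ≤ p.1 := (mem_PC.mp hp).1
    have hcF : Continuous (fun t => ‖FF X (fun m => (hmain Q X m : ℂ) * p.2 (m : ZMod p.1)) t‖) :=
      (main_cont_FF X _).norm
    have hcL : Continuous (fun t => ‖FL X p t‖) := (main_cont_FF X _).norm
    have h1 : ∫ t in (-T₁)..T₁, ‖FL X p t‖ ≤ ∫ t in (-T₁)..T₁,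
        (‖FF X (fun m => (hmain Q X m : ℂ) * p.2 (m : ZMod p.1)) t‖ + D) := by
      refine intervalIntegral.integral_mono_on (by linarith) (hcL.intervalIntegrable _ _)
        ((hcF.add continuous_const).intervalIntegrable _ _) fun t ht => ?_
      have ht' : |t| ≤ T₁ := abs_le.2 ⟨ht.1, ht.2⟩
      rw [hdec p hp1 t]
      refine (norm_add_le _ _).trans (add_le_add le_rfl ?_)
      exact d2a_long Q X α _ _ (by positivity) hα p t
        (fun j hj a ha => hK₂ Q X r2 p hp hp0 j hj a ha t ht')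
    refine h1.trans ?_
    rw [intervalIntegral.integral_add (hcF.intervalIntegrable _ _)
      (continuous_const.intervalIntegrable _ _), intervalIntegral.integral_const, smul_eq_mul]
    refine le_of_eq ?_
    ring
  refine (Finset.sum_le_sum key).trans ?_
  rw [Finset.sum_add_distrib, Finset.sum_const, nsmul_eq_mul]
  have hcard : (((PC Q).filter (fun p => p ≠ p0)).card : ℝ) ≤ (Q : ℝ) ^ 2 := by
    have h1 := card_PC_le Q
    have h2 := Finset.card_filter_le (PC Q) (fun p => p ≠ p0)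
    exact_mod_cast h2.trans h1
  have hpart1 : ∑ p ∈ (PC Q).filter (fun p => p ≠ p0), ∫ t in (-T₁)..T₁,
      ‖FF X (fun m => (hmain Q X m : ℂ) * p.2 (m : ZMod p.1)) t‖ ≤ L ^ (-A) / 2 := by
    refine (Finset.sum_le_sum_of_subset_of_nonneg (Finset.filter_subset _ _)
      fun p _ _ => intervalIntegral.integral_nonneg (by linarith) fun t _ => norm_nonneg _).trans ?_
    refine (hK₃ Q X r3 hgood).trans ?_
    rw [neg_add, Real.rpow_add hL0, Real.rpow_neg_one]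
    have : 0 ≤ L ^ (-A) := by positivity
    rw [div_eq_mul_inv]
    refine mul_le_mul_of_nonneg_left ?_ this
    exact inv_anti₀ (by norm_num) (by linarith)
  have hpart2 : (((PC Q).filter (fun p => p ≠ p0)).card : ℝ) * (2 * T₁ * D) ≤ L ^ (-A) / 2 := by
    calc (((PC Q).filter (fun p => p ≠ p0)).card : ℝ) * (2 * T₁ * D)
        ≤ (Q : ℝ) ^ 2 * (2 * T₁ * D) := by gcongr
      _ = 4 * L ^ (7 : ℝ) / (Q : ℝ) ^ 2 := by
          rw [hD, hT₁, Real.rpow_neg hQ0.le]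
          have : (Q : ℝ) ^ (11 : ℝ) = (Q : ℝ) ^ 11 := by
            rw [← Real.rpow_natCast]
            norm_num
          rw [this]
          field_simp
          ring
      _ = (8 * L ^ (7 + A)) / (Q : ℝ) ^ 2 * (L ^ (-A) / 2) := by
          rw [Real.rpow_add hL0, Real.rpow_neg hL0.le]
          have : L ^ A ≠ 0 := (Real.rpow_pos_of_pos hL0 A).ne'
          field_simp
          ring
      _ ≤ 1 * (L ^ (-A) / 2) := by
          refine mul_le_mul_of_nonneg_right ?_ (by positivity)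
          rw [div_le_one (by positivity)]
          exact hQ4
      _ = L ^ (-A) / 2 := one_mul _
  linarith

end Pool.Agent.Lib.H68T
end

-- from Lib.H68T.D2B
section

/-!
# Chunk D2B; part of D2: the `L¹` bounds for `F_ψ`
-/

open Finset MeasureTheory

namespace Pool.Agent.Lib.H68T

/-- the contribution of the long variables at one frequency -/
theorem d2b_long (Q X : ℕ) (α : ℕ → ℕ → ℝ) (B E : ℝ) (hE : 0 ≤ E)
    (hα : ∀ j ∈ range 2, ∑ a ∈ Icc 1 (60 * X), |α j a| / a ≤ B)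
    (p : Σ r : ℕ, DirichletCharacter ℂ r) (t : ℝ)
    (hL : ∀ j ∈ range 2, ∀ a : ℕ, 1 ≤ a → ‖Long Q X p j a t‖ ≤ E) :
    ‖∑ j ∈ range 2, ∑ a ∈ Icc 1 (60 * X), (α j a : ℂ) * p.2 (a : ZMod p.1) *
          (a : ℂ) ^ (-(1 + t * Complex.I)) * Long Q X p j a t‖ ≤ 2 * (B * E) := by
  have h1 : ∀ j ∈ range 2, ‖∑ a ∈ Icc 1 (60 * X), (α j a : ℂ) * p.2 (a : ZMod p.1) *
      (a : ℂ) ^ (-(1 + t * Complex.I)) * Long Q X p j a t‖ ≤ B * E := by
    intro j hj
    refine (norm_sum_le _ _).trans ?_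
    have h2 : ∀ a ∈ Icc 1 (60 * X), ‖(α j a : ℂ) * p.2 (a : ZMod p.1) *
        (a : ℂ) ^ (-(1 + t * Complex.I)) * Long Q X p j a t‖ ≤ |α j a| / a * E := by
      intro a ha
      have ha1 : 1 ≤ a := (mem_Icc.mp ha).1
      have ha0 : (0 : ℝ) < a := by exact_mod_cast ha1
      rw [norm_mul, norm_mul, norm_mul, Complex.norm_real, Real.norm_eq_abs]
      have e1 : ‖(a : ℂ) ^ (-(1 + t * Complex.I))‖ = (a : ℝ)⁻¹ := by
        rw [Complex.norm_natCast_cpow_of_pos (by omega)]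
        simp [Real.rpow_neg_one]
      rw [e1]
      have e2 : ‖p.2 (a : ZMod p.1)‖ ≤ 1 := DirichletCharacter.norm_le_one _ _
      have e3 := hL j hj a ha1
      have e4 : 0 ≤ |α j a| := abs_nonneg _
      calc |α j a| * ‖p.2 (a : ZMod p.1)‖ * (a : ℝ)⁻¹ * ‖Long Q X p j a t‖
          ≤ |α j a| * 1 * (a : ℝ)⁻¹ * E := by gcongr
        _ = |α j a| / a * E := by ring
    refine (Finset.sum_le_sum h2).trans ?_
    rw [← Finset.sum_mul]
    exact mul_le_mul_of_nonneg_right (hα j hj) hE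
  refine (norm_sum_le _ _).trans ?_
  refine (Finset.sum_le_sum h1).trans ?_
  rw [Finset.sum_const, card_range, nsmul_eq_mul]
  norm_num

/-- `v` lives on the long variables -/
theorem d2b_v (Q X n : ℕ) (hX : 1 ≤ X) (hQ : 1 ≤ Q) (hn : 1 ≤ n)
    (h : 20 * Real.log Q + 3 ≤ Real.log X) : (1 - rho Q n) * v X n = v X n := by
  by_cases hv : v X n = 0
  · rw [hv, mul_zero]
  have hX0 : (0 : ℝ) < X := by exact_mod_cast hX
  have hQ0 : (0 : ℝ) < Q := by exact_mod_cast hQ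
  have hn0 : (0 : ℝ) < n := by exact_mod_cast hn
  have h1 : -2 < Real.log ((n : ℝ) / X) := by
    by_contra hc
    push Not at hc
    apply hv
    unfold v w
    rw [Real.smoothTransition.zero_of_nonpos (by linarith), zero_mul]
  rw [Real.log_div hn0.ne' hX0.ne'] at h1
  have h2 : 1 ≤ Real.log ((n : ℝ) / (Q : ℝ) ^ 20) := by
    rw [Real.log_div hn0.ne' (by positivity), Real.log_pow]
    push_cast
    linarith
  have h3 : rho Q n = 0 := by
    unfold rho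
    rw [Real.smoothTransition.one_of_one_le h2, sub_self]
  rw [h3, sub_zero, one_mul]

theorem d2b_F0 (Q X : ℕ) (hX : 1 ≤ X) (hQ : 1 ≤ Q) (h : 20 * Real.log Q + 3 ≤ Real.log X)
    (t : ℝ) : F0 X t = Long Q X p0 0 1 t := by
  unfold F0 FF Long
  refine Finset.sum_congr rfl fun m hm => ?_
  have hm1 : 1 ≤ m := (mem_Icc.mp hm).1
  have e1 : p0.2 (m : ZMod p0.1) = 1 := by
    show (1 : DirichletCharacter ℂ 1) (m : ZMod 1) = 1
    have : (m : ZMod 1) = 1 := Subsingleton.elim _ _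
    rw [this, map_one]
  rw [e1]
  simp only [pow_zero, mul_one, one_mul]
  rw [d2b_v Q X m hX hQ hm1 h]

theorem d2b_kernel (T₀ T : ℝ) (hT₀ : 0 < T₀) (hT : 0 ≤ T) :
    ∫ t in (-T)..T, (1 + (t / T₀) ^ 2)⁻¹ ≤ Real.pi * T₀ := by
  have h := intervalIntegral.integral_comp_div (a := -T) (b := T)
    (fun x : ℝ => (1 + x ^ 2)⁻¹) hT₀.ne'
  rw [h, smul_eq_mul, mul_comm]
  refine mul_le_mul_of_nonneg_right ?_ hT₀.le
  have h2 := integral_inv_one_add_sq (a := -T / T₀) (b := T / T₀)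
  rw [h2]
  have h3 := Real.arctan_lt_pi_div_two (T / T₀)
  have h4 := Real.neg_pi_div_two_lt_arctan (-T / T₀)
  linarith

/-- Trivial character minus main term. Put `T₁ = (log X)^(A + 20)`. For `|t| ≤ T₁`:
`FL_sub_F0_le` with exponent `2(A+20) + A + 10`. For `T₁ ≤ |t| ≤ Q^7`: `‖F0 X t‖` is `Long Q X p0 0 1 t`
(as `1 - ρ = 1` on the support of `v`), so `long_triv` applies to it and to the long parts in
`decomposition`; the integral of `(log X)^8 · C/t²` over `|t| ≥ T₁` is `≤ 2 C (log X)^8/T₁`; the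
main part by `main_L1`. -/
theorem L1_trivial (c : ℝ) (hc : 0 < c) (A : ℝ) : ∃ K : ℝ, ∀ Q X : ℕ, Reg K Q X → Good c Q →
    ∫ t in (-(Q : ℝ) ^ 7)..((Q : ℝ) ^ 7), ‖FL X p0 t - F0 X t‖ ≤ (Real.log X) ^ (-A) := by
  set A₀ : ℝ := |A| with hA₀
  have hA₀0 : 0 ≤ A₀ := abs_nonneg _
  have hAA₀ : A ≤ A₀ := le_abs_self _
  obtain ⟨K₁, hK₁⟩ := decomposition
  obtain ⟨C, K₂, hC, hK₂⟩ := long_triv
  obtain ⟨K₃, hK₃⟩ := main_L1 c hc (A₀ + 1)
  obtain ⟨K₄, hK₄1, hK₄⟩ := reg_log_le 12 (7 + A₀) 4 (by norm_num)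
  obtain ⟨K₅, hK₅⟩ := FL_sub_F0_le (3 * A₀ + 50)
  have hpi := Real.pi_pos
  refine ⟨|K₁| + |K₂| + |K₃| + K₄ + |K₅| + (2 * (4 * Real.pi + 6 * Real.pi * C + 1)) + 30, ?_⟩
  intro Q X hreg hgood
  have a1 : 0 ≤ |K₁| := abs_nonneg _
  have a2 : 0 ≤ |K₂| := abs_nonneg _
  have a3 : 0 ≤ |K₃| := abs_nonneg _
  have a5 : 0 ≤ |K₅| := abs_nonneg _
  have b1 : K₁ ≤ |K₁| := le_abs_self _
  have b2 : K₂ ≤ |K₂| := le_abs_self _
  have b3 : K₃ ≤ |K₃| := le_abs_self _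
  have b5 : K₅ ≤ |K₅| := le_abs_self _
  have a6 : 0 ≤ 2 * (4 * Real.pi + 6 * Real.pi * C + 1) := by positivity
  have hKpos : 0 ≤ |K₁| + |K₂| + |K₃| + K₄ + |K₅| +
    (2 * (4 * Real.pi + 6 * Real.pi * C + 1)) + 30 := by linarith
  have r1 : Reg K₁ Q X := hreg.mono hKpos (by linarith)
  have r2 : Reg K₂ Q X := hreg.mono hKpos (by linarith)
  have r3 : Reg K₃ Q X := hreg.mono hKpos (by linarith)
  have r4 : Reg K₄ Q X := hreg.mono hKpos (by linarith)
  have r5 : Reg K₅ Q X := hreg.mono hKpos (by linarith)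
  have r6 : Reg (2 * (4 * Real.pi + 6 * Real.pi * C + 1) + 30) Q X :=
    hreg.mono hKpos (by linarith)
  have r7 : Reg 30 Q X := hreg.mono hKpos (by linarith)
  set L : ℝ := Real.log X with hL
  have hLbig : 2 * (4 * Real.pi + 6 * Real.pi * C + 1) + 30 ≤ L := by
    have h1 := r6.logX_ge (by linarith)
    have := Real.add_one_le_exp (2 * (4 * Real.pi + 6 * Real.pi * C + 1) + 30)
    linarith
  have hL0 : 0 < L := by linarith
  have hL1 : 1 ≤ L := by linarith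
  have hQ10 : (30 : ℝ) ≤ Q := r7.Q_ge (by norm_num)
  have hQ0 : (0 : ℝ) < Q := by linarith
  have hQ1 : 1 ≤ Q := r7.Q_pos (by norm_num)
  have hX1 : 1 ≤ X := r7.X_pos (by norm_num)
  have hQX : 20 * Real.log Q + 3 ≤ L := by
    have h1 := r7.logQ_le (by norm_num)
    have h2 := r7.logQ_ge (by norm_num)
    linarith
  have hQ4 : 12 * L ^ (7 + A₀) ≤ (Q : ℝ) ^ 4 := by
    have := hK₄ Q X r4
    rwa [show (4 : ℝ) = ((4 : ℕ) : ℝ) by norm_num, Real.rpow_natCast] at this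
  obtain ⟨α, hα, hdec⟩ := hK₁ Q X r1
  set T₁ : ℝ := (Q : ℝ) ^ 7 with hT₁
  have hT₁0 : 0 < T₁ := by positivity
  set T₀ : ℝ := L ^ (A₀ + 20) with hT₀
  have hT₀1 : 1 ≤ T₀ := Real.one_le_rpow hL1 (by linarith)
  have hT₀0 : 0 < T₀ := by linarith
  set D : ℝ := 2 * (1 + T₀) * L ^ (-(3 * A₀ + 50)) + 6 * C * L ^ (8 : ℝ) / T₀ ^ 2 with hD
  have hp0 : p0 ∈ PC Q := p0_mem hQ1
  have hL7 : 1 ≤ L ^ (7 : ℝ) := Real.one_le_rpow hL1 (by norm_num)
  have hL8 : L ^ (8 : ℝ) = L ^ (7 : ℝ) * L := by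
    rw [show (8 : ℝ) = 7 + 1 by norm_num, Real.rpow_add hL0, Real.rpow_one]
  have hcF : Continuous (fun t => ‖FF X (fun m => (hmain Q X m : ℂ) * p0.2 (m : ZMod p0.1)) t‖) :=
    (main_cont_FF X _).norm
  have hcL : Continuous (fun t => ‖FL X p0 t - F0 X t‖) :=
    ((main_cont_FF X _).sub (main_cont_FF X _)).norm
  have hck : Continuous (fun t : ℝ => (1 + (t / T₀) ^ 2)⁻¹) := by
    refine Continuous.inv₀ (by fun_prop) fun t => ?_
    positivity
  have key : ∀ t ∈ Set.Icc (-T₁) T₁, ‖FL X p0 t - F0 X t‖ ≤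
      ‖FF X (fun m => (hmain Q X m : ℂ) * p0.2 (m : ZMod p0.1)) t‖ +
        3 * L ^ (7 : ℝ) * (Q : ℝ) ^ (-11 : ℝ) + D * (1 + (t / T₀) ^ 2)⁻¹ := by
    intro t ht
    have ht' : |t| ≤ T₁ := abs_le.2 ⟨ht.1, ht.2⟩
    have hkt : 0 < 1 + (t / T₀) ^ 2 := by positivity
    have hDpos1 : 0 ≤ 2 * (1 + T₀) * L ^ (-(3 * A₀ + 50)) := by positivity
    have hDpos2 : 0 ≤ 6 * C * L ^ (8 : ℝ) / T₀ ^ 2 := by positivity
    have hFF0 : 0 ≤ ‖FF X (fun m => (hmain Q X m : ℂ) * p0.2 (m : ZMod p0.1)) t‖ := norm_nonneg _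
    have hmid0 : 0 ≤ 3 * L ^ (7 : ℝ) * (Q : ℝ) ^ (-11 : ℝ) := by positivity
    rcases le_or_gt |t| T₀ with hcase | hcase
    · have h1 := hK₅ Q X r5 t
      have hk2 : (1 : ℝ) / 2 ≤ (1 + (t / T₀) ^ 2)⁻¹ := by
        rw [one_div]
        refine inv_anti₀ hkt ?_
        have : (t / T₀) ^ 2 ≤ 1 := by
          rw [← sq_abs, abs_div, abs_of_pos hT₀0]
          have : |t| / T₀ ≤ 1 := by rw [div_le_one hT₀0]; exact hcase
          exact pow_le_one₀ (by positivity) this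
        linarith
      have h2 : (1 + |t|) * L ^ (-(3 * A₀ + 50)) ≤ (1 + T₀) * L ^ (-(3 * A₀ + 50)) := by gcongr
      have h3 : (1 + T₀) * L ^ (-(3 * A₀ + 50)) ≤ D * (1 + (t / T₀) ^ 2)⁻¹ := by
        calc (1 + T₀) * L ^ (-(3 * A₀ + 50))
            = (2 * (1 + T₀) * L ^ (-(3 * A₀ + 50))) * (1 / 2) := by ring
          _ ≤ D * (1 + (t / T₀) ^ 2)⁻¹ := by
              refine mul_le_mul ?_ hk2 (by norm_num) (by rw [hD]; positivity)
              rw [hD]; linarith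
      linarith
    · have ht1 : 1 ≤ |t| := by linarith
      have ht0 : 0 < t ^ 2 := by
        have : t ≠ 0 := by
          intro h0
          rw [h0] at ht1
          norm_num at ht1
        positivity
      set E : ℝ := C * L / t ^ 2 + (Q : ℝ) ^ (-11 : ℝ) with hE
      have hE0 : 0 ≤ E := by positivity
      have h1 : ‖F0 X t‖ ≤ E := by
        rw [d2b_F0 Q X hX1 hQ1 hQX t]
        exact hK₂ Q X r2 0 (by simp) 1 le_rfl t ht1 ht'
      have h2 := d2b_long Q X α _ E hE0 hα p0 t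
        (fun j hj a ha => hK₂ Q X r2 j hj a ha t ht1 ht')
      have h3 : ‖FL X p0 t - F0 X t‖ ≤
          ‖FF X (fun m => (hmain Q X m : ℂ) * p0.2 (m : ZMod p0.1)) t‖ +
            2 * (L ^ (7 : ℝ) * E) + E := by
        refine (norm_sub_le _ _).trans (add_le_add ?_ h1)
        rw [hdec p0 le_rfl t]
        exact (norm_add_le _ _).trans (add_le_add le_rfl h2)
      have h4 : 2 * (L ^ (7 : ℝ) * E) + E ≤ 3 * L ^ (7 : ℝ) * E := by nlinarith
      have h5 : 3 * L ^ (7 : ℝ) * E = 3 * L ^ (7 : ℝ) * (Q : ℝ) ^ (-11 : ℝ) +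
          3 * C * L ^ (8 : ℝ) / t ^ 2 := by
        rw [hE, hL8]
        ring
      have h6 : 3 * C * L ^ (8 : ℝ) / t ^ 2 ≤ D * (1 + (t / T₀) ^ 2)⁻¹ := by
        have h7 : 1 / t ^ 2 ≤ 2 / T₀ ^ 2 * (1 + (t / T₀) ^ 2)⁻¹ := by
          have e : 2 / T₀ ^ 2 * (1 + (t / T₀) ^ 2)⁻¹ = 2 / (T₀ ^ 2 + t ^ 2) := by
            field_simp
          rw [e, div_le_div_iff₀ ht0 (by positivity)]
          have : T₀ ^ 2 ≤ t ^ 2 := by
            rw [← sq_abs t]
            exact pow_le_pow_left₀ hT₀0.le hcase.le 2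
          linarith
        calc 3 * C * L ^ (8 : ℝ) / t ^ 2 = 3 * C * L ^ (8 : ℝ) * (1 / t ^ 2) := by ring
          _ ≤ 3 * C * L ^ (8 : ℝ) * (2 / T₀ ^ 2 * (1 + (t / T₀) ^ 2)⁻¹) :=
              mul_le_mul_of_nonneg_left h7 (by positivity)
          _ = (6 * C * L ^ (8 : ℝ) / T₀ ^ 2) * (1 + (t / T₀) ^ 2)⁻¹ := by ring
          _ ≤ D * (1 + (t / T₀) ^ 2)⁻¹ := by
              refine mul_le_mul_of_nonneg_right ?_ (by positivity)
              rw [hD]; linarith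
      linarith
  have hD0 : 0 ≤ D := by rw [hD]; positivity
  have hstep : ∫ t in (-T₁)..T₁, ‖FL X p0 t - F0 X t‖ ≤
      (∫ t in (-T₁)..T₁, ‖FF X (fun m => (hmain Q X m : ℂ) * p0.2 (m : ZMod p0.1)) t‖) +
        2 * T₁ * (3 * L ^ (7 : ℝ) * (Q : ℝ) ^ (-11 : ℝ)) + D * (Real.pi * T₀) := by
    have h1 : ∫ t in (-T₁)..T₁, ‖FL X p0 t - F0 X t‖ ≤ ∫ t in (-T₁)..T₁,
        (‖FF X (fun m => (hmain Q X m : ℂ) * p0.2 (m : ZMod p0.1)) t‖ +
        3 * L ^ (7 : ℝ) * (Q : ℝ) ^ (-11 : ℝ) + D * (1 + (t / T₀) ^ 2)⁻¹) :=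
      intervalIntegral.integral_mono_on (by linarith) (hcL.intervalIntegrable _ _)
        (((hcF.add continuous_const).add (continuous_const.mul hck)).intervalIntegrable _ _) key
    refine h1.trans ?_
    have hci1 : Continuous (fun t =>
        ‖FF X (fun m => (hmain Q X m : ℂ) * p0.2 (m : ZMod p0.1)) t‖ +
        3 * L ^ (7 : ℝ) * (Q : ℝ) ^ (-11 : ℝ)) := hcF.add continuous_const
    have hci2 : Continuous (fun t : ℝ => D * (1 + (t / T₀) ^ 2)⁻¹) := continuous_const.mul hck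
    have hci3 : Continuous (fun _ : ℝ => 3 * L ^ (7 : ℝ) * (Q : ℝ) ^ (-11 : ℝ)) :=
      continuous_const
    rw [intervalIntegral.integral_add (hci1.intervalIntegrable _ _)
      (hci2.intervalIntegrable _ _),
      intervalIntegral.integral_add (hcF.intervalIntegrable _ _)
      (hci3.intervalIntegrable _ _), intervalIntegral.integral_const, smul_eq_mul,
      intervalIntegral.integral_const_mul]
    have h2 := mul_le_mul_of_nonneg_left (d2b_kernel T₀ T₁ hT₀0 hT₁0.le) hD0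
    have e : (T₁ - -T₁) * (3 * L ^ (7 : ℝ) * (Q : ℝ) ^ (-11 : ℝ)) =
        2 * T₁ * (3 * L ^ (7 : ℝ) * (Q : ℝ) ^ (-11 : ℝ)) := by ring
    rw [e]
    linarith
  have hpart1 : ∫ t in (-T₁)..T₁,
      ‖FF X (fun m => (hmain Q X m : ℂ) * p0.2 (m : ZMod p0.1)) t‖ ≤ L ^ (-A₀ - 1) := by
    have h1 := Finset.single_le_sum (f := fun p : (Σ r : ℕ, DirichletCharacter ℂ r) =>
      ∫ t in (-T₁)..T₁, ‖FF X (fun m => (hmain Q X m : ℂ) * p.2 (m : ZMod p.1)) t‖)
      (fun p _ => intervalIntegral.integral_nonneg (by linarith) fun t _ => norm_nonneg _) hp0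
    refine h1.trans ((hK₃ Q X r3 hgood).trans (le_of_eq ?_))
    congr 1
    ring
  have hpart2 : 2 * T₁ * (3 * L ^ (7 : ℝ) * (Q : ℝ) ^ (-11 : ℝ)) ≤ L ^ (-A₀) / 2 := by
    calc 2 * T₁ * (3 * L ^ (7 : ℝ) * (Q : ℝ) ^ (-11 : ℝ))
        = 6 * L ^ (7 : ℝ) / (Q : ℝ) ^ 4 := by
          rw [hT₁, Real.rpow_neg hQ0.le]
          have : (Q : ℝ) ^ (11 : ℝ) = (Q : ℝ) ^ 11 := by
            rw [← Real.rpow_natCast]
            norm_num
          rw [this]
          field_simp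
          ring
      _ = (12 * L ^ (7 + A₀)) / (Q : ℝ) ^ 4 * (L ^ (-A₀) / 2) := by
          rw [Real.rpow_add hL0, Real.rpow_neg hL0.le]
          have : L ^ A₀ ≠ 0 := (Real.rpow_pos_of_pos hL0 A₀).ne'
          field_simp
          ring
      _ ≤ 1 * (L ^ (-A₀) / 2) := by
          refine mul_le_mul_of_nonneg_right ?_ (by positivity)
          rw [div_le_one (by positivity)]
          exact hQ4
      _ = L ^ (-A₀) / 2 := one_mul _
  have hpart3 : D * (Real.pi * T₀) ≤ (4 * Real.pi + 6 * Real.pi * C) * L ^ (-A₀ - 1) := by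
    have e1 : 2 * (1 + T₀) * L ^ (-(3 * A₀ + 50)) * (Real.pi * T₀) ≤
        4 * Real.pi * L ^ (-A₀ - 1) := by
      calc 2 * (1 + T₀) * L ^ (-(3 * A₀ + 50)) * (Real.pi * T₀)
          ≤ 2 * (T₀ + T₀) * L ^ (-(3 * A₀ + 50)) * (Real.pi * T₀) := by gcongr
        _ = 4 * Real.pi * (T₀ * T₀ * L ^ (-(3 * A₀ + 50))) := by ring
        _ = 4 * Real.pi * L ^ (-A₀ - 10) := by
            rw [hT₀, ← Real.rpow_add hL0, ← Real.rpow_add hL0]
            congr 2
            ring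
        _ ≤ 4 * Real.pi * L ^ (-A₀ - 1) := by
            refine mul_le_mul_of_nonneg_left ?_ (by positivity)
            exact Real.rpow_le_rpow_of_exponent_le hL1 (by linarith)
    have e2 : 6 * C * L ^ (8 : ℝ) / T₀ ^ 2 * (Real.pi * T₀) ≤
        6 * Real.pi * C * L ^ (-A₀ - 1) := by
      calc 6 * C * L ^ (8 : ℝ) / T₀ ^ 2 * (Real.pi * T₀)
          = 6 * Real.pi * C * (L ^ (8 : ℝ) / T₀) := by
            field_simp
        _ = 6 * Real.pi * C * L ^ (-A₀ - 12) := by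
            rw [hT₀, ← Real.rpow_sub hL0]
            congr 2
            ring
        _ ≤ 6 * Real.pi * C * L ^ (-A₀ - 1) := by
            refine mul_le_mul_of_nonneg_left ?_ (by positivity)
            exact Real.rpow_le_rpow_of_exponent_le hL1 (by linarith)
    rw [hD, add_mul]
    linarith
  have hfin : L ^ (-A₀ - 1) + (4 * Real.pi + 6 * Real.pi * C) * L ^ (-A₀ - 1) ≤
      L ^ (-A₀) / 2 := by
    rw [Real.rpow_sub_one hL0.ne']
    have h1 : 0 < L ^ (-A₀) := Real.rpow_pos_of_pos hL0 _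
    have e : L ^ (-A₀) / L + (4 * Real.pi + 6 * Real.pi * C) * (L ^ (-A₀) / L) =
        (2 * (4 * Real.pi + 6 * Real.pi * C + 1)) / L * (L ^ (-A₀) / 2) := by
      field_simp
      ring
    rw [e]
    calc (2 * (4 * Real.pi + 6 * Real.pi * C + 1)) / L * (L ^ (-A₀) / 2)
        ≤ 1 * (L ^ (-A₀) / 2) := by
          refine mul_le_mul_of_nonneg_right ?_ (by positivity)
          rw [div_le_one hL0]
          linarith
      _ = L ^ (-A₀) / 2 := one_mul _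
  have hlast : L ^ (-A₀) ≤ L ^ (-A) :=
    Real.rpow_le_rpow_of_exponent_le hL1 (by linarith)
  linarith

end Pool.Agent.Lib.H68T
end

-- from Lib.H68T.DA
section

/-!
# Chunk DA: the projection `lp * kern` is close to the model `G`
-/

open Finset

namespace Pool.Agent.Lib.H68T

/-- change of variables `n = m - z` -/
theorem DA_Lk_eq (Q X Y : ℕ) (m : ℤ) (hm : (X : ℤ) ≤ m) (hm4 : m ≤ 4 * X) (hY : Y < X) :
    Lk Q Y m = ∑ n ∈ Icc 1 (60 * X), (lp n * tent Y (m - n)) *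
      ∑ q ∈ Icc 1 Q, cq q ((n : ℤ) - m) := by
  unfold Lk
  have h1 : ∑ n ∈ Icc 1 (60 * X), (lp n * tent Y (m - n)) *
      ∑ q ∈ Icc 1 Q, cq q ((n : ℤ) - m) =
      ∑ n ∈ (Icc 1 (60 * X)).filter (fun n : ℕ => |m - (n : ℤ)| < Y), (lp n * tent Y (m - n)) *
      ∑ q ∈ Icc 1 Q, cq q ((n : ℤ) - m) := by
    rw [sum_filter]
    refine sum_congr rfl fun n _ => ?_
    split_ifs with h
    · rfl
    · have : tent Y (m - n) = 0 := by
        unfold tent
        have h2 : (Y : ℝ) ≤ |((m - n : ℤ) : ℝ)| := by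
          have : (Y : ℤ) ≤ |m - (n : ℤ)| := not_lt.mp h
          exact_mod_cast this
        rw [max_eq_left (by linarith), zero_div]
      rw [this, mul_zero, zero_mul]
  rw [h1]
  symm
  refine sum_nbij' (fun n : ℕ => m - (n : ℤ)) (fun z : ℤ => (m - z).toNat) ?_ ?_ ?_ ?_ ?_
  · intro n hn
    rw [mem_filter] at hn
    rw [mem_Ioo]
    have := abs_lt.mp hn.2
    constructor <;> linarith [this.1, this.2]
  · intro z hz
    rw [mem_Ioo] at hz
    rw [mem_filter, mem_Icc]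
    have h3 : ((m - z).toNat : ℤ) = m - z := Int.toNat_of_nonneg (by omega)
    refine ⟨⟨by omega, by omega⟩, ?_⟩
    rw [h3, abs_lt]
    constructor <;> omega
  · intro n hn
    simp
  · intro z hz
    rw [mem_Ioo] at hz
    have h3 : ((m - z).toNat : ℤ) = m - z := Int.toNat_of_nonneg (by omega)
    simp only [h3]
    ring
  · intro n hn
    have e1 : m - (m - (n : ℤ)) = n := by ring
    rw [e1]
    unfold kern
    have e2 : ∑ q ∈ Icc 1 Q, cq q (m - (n : ℤ)) = ∑ q ∈ Icc 1 Q, cq q ((n : ℤ) - m) := by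
      refine sum_congr rfl fun q _ => ?_
      rw [← cq_neg q ((n : ℤ) - m)]
      congr 1
      ring
    rw [e2]
    ring

/-- expansion of the projection in characters -/
theorem DA_expand (Q X Y : ℕ) (m : ℤ) (hm : (X : ℤ) ≤ m) (hm4 : m ≤ 4 * X) (hY : Y < X)
    (hQ : Q + Y ≤ X) :
    (Lk Q Y m : ℂ) = ∑ p ∈ PC Q, (Gam Q p.1 m : ℂ) * (starRingEnd ℂ) (p.2 (m : ZMod p.1)) *
      ∑ n ∈ Icc 1 (60 * X), ((lp n * tent Y (m - n) : ℝ) : ℂ) * p.2 (n : ZMod p.1) := by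
  rw [DA_Lk_eq Q X Y m hm hm4 hY]
  rw [Complex.ofReal_sum]
  have h1 : ∀ n ∈ Icc 1 (60 * X), (((lp n * tent Y (m - n)) *
      ∑ q ∈ Icc 1 Q, cq q ((n : ℤ) - m) : ℝ) : ℂ) =
      ∑ p ∈ PC Q, ((lp n * tent Y (m - n) : ℝ) : ℂ) * ((Gam Q p.1 m : ℂ) *
        (p.2 (n : ZMod p.1) * (starRingEnd ℂ) (p.2 (m : ZMod p.1)))) := by
    intro n hn
    rw [← mul_sum]
    by_cases h0 : lp n * tent Y (m - n) = 0
    · rw [h0]; simp
    · have hl : lp n ≠ 0 := fun h => h0 (by rw [h, zero_mul])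
      have ht : tent Y (m - n) ≠ 0 := fun h => h0 (by rw [h, mul_zero])
      have hp : n.Prime := by
        unfold lp at hl
        by_contra hc
        apply hl
        simp [hc]
      have hlt : |m - (n : ℤ)| < Y := by
        by_contra hc
        apply ht
        unfold tent
        have h2 : (Y : ℝ) ≤ |((m - n : ℤ) : ℝ)| := by
          have : (Y : ℤ) ≤ |m - (n : ℤ)| := not_lt.mp hc
          exact_mod_cast this
        rw [max_eq_left (by linarith), zero_div]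
      have hQn : Q < n := by
        have := abs_lt.mp hlt
        omega
      rw [Complex.ofReal_mul, kernel_char Q n hp hQn m]
  rw [sum_congr rfl h1, sum_comm]
  refine sum_congr rfl fun p _ => ?_
  rw [mul_sum]
  refine sum_congr rfl fun n _ => ?_
  ring

open scoped Classical in
/-- the difference of projection and model -/
theorem DA_diff (Q X Y : ℕ) (m : ℤ) (hm : (X : ℤ) ≤ m) (hm4 : m ≤ 4 * X) (hY : Y < X)
    (hQ : Q + Y ≤ X) (hQ1 : 1 ≤ Q) :
    |Lk Q Y m - G Q m| ≤ |G Q m| * |∑ n ∈ Icc 1 (60 * X), lp n * tent Y (m - n) - 1| +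
      ∑ p ∈ (PC Q).filter (fun p => p ≠ p0), |Gam Q p.1 m| *
        ‖∑ n ∈ Icc 1 (60 * X), ((lp n * tent Y (m - n) : ℝ) : ℂ) * p.2 (n : ZMod p.1)‖ := by
  have h0 := DA_expand Q X Y m hm hm4 hY hQ
  have hsplit : (PC Q) = insert p0 ((PC Q).filter (fun p => p ≠ p0)) := by
    ext p
    simp only [mem_insert, mem_filter]
    constructor
    · intro hp
      by_cases h : p = p0
      · exact Or.inl h
      · exact Or.inr ⟨hp, h⟩
    · rintro (h | h)
      · rw [h]; exact p0_mem hQ1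
      · exact h.1
  rw [hsplit, sum_insert (by simp)] at h0
  have e1 : ∀ x : ZMod p0.1, p0.2 x = 1 := by
    intro x
    have : IsUnit x := by
      have : x = 1 := Subsingleton.elim (α := ZMod 1) x 1
      rw [this]; exact isUnit_one
    exact MulChar.one_apply this
  have e2 : (Gam Q p0.1 m : ℂ) = (G Q m : ℂ) := by
    have : Gam Q p0.1 m = G Q m := Gam_one Q m
    rw [this]
  rw [e2] at h0
  have e3 : ∑ n ∈ Icc 1 (60 * X), ((lp n * tent Y (m - n) : ℝ) : ℂ) * p0.2 (n : ZMod p0.1) =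
      ((∑ n ∈ Icc 1 (60 * X), lp n * tent Y (m - n) : ℝ) : ℂ) := by
    rw [Complex.ofReal_sum]
    refine sum_congr rfl fun n _ => ?_
    rw [e1, mul_one]
  rw [e3, e1, map_one, mul_one] at h0
  have h1 : ((Lk Q Y m - G Q m : ℝ) : ℂ) =
      (G Q m : ℂ) * ((∑ n ∈ Icc 1 (60 * X), lp n * tent Y (m - n) - 1 : ℝ) : ℂ) +
      ∑ p ∈ (PC Q).filter (fun p => p ≠ p0), (Gam Q p.1 m : ℂ) *
        (starRingEnd ℂ) (p.2 (m : ZMod p.1)) *
        ∑ n ∈ Icc 1 (60 * X), ((lp n * tent Y (m - n) : ℝ) : ℂ) * p.2 (n : ZMod p.1) := by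
    rw [Complex.ofReal_sub, h0]
    push_cast
    ring
  have h2 : |Lk Q Y m - G Q m| = ‖((Lk Q Y m - G Q m : ℝ) : ℂ)‖ := by
    rw [Complex.norm_real, Real.norm_eq_abs]
  rw [h2, h1]
  refine (norm_add_le _ _).trans (add_le_add ?_ ?_)
  · rw [norm_mul, Complex.norm_real, Complex.norm_real, Real.norm_eq_abs, Real.norm_eq_abs]
  · refine (norm_sum_le _ _).trans (sum_le_sum fun p hp => ?_)
    rw [norm_mul, norm_mul, Complex.norm_real, Real.norm_eq_abs]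
    have hp1 := (mem_PC.mp (mem_filter.mp hp).1).1
    have hne : NeZero p.1 := ⟨by omega⟩
    have h3 : ‖(starRingEnd ℂ) (p.2 (m : ZMod p.1))‖ ≤ 1 := by
      rw [RCLike.norm_conj]
      exact DirichletCharacter.norm_le_one _ _
    have h4 : |Gam Q p.1 m| * ‖(starRingEnd ℂ) (p.2 (m : ZMod p.1))‖ ≤ |Gam Q p.1 m| * 1 :=
      mul_le_mul_of_nonneg_left h3 (abs_nonneg _)
    rw [mul_one] at h4
    exact mul_le_mul_of_nonneg_right h4 (norm_nonneg _)

open scoped Classical in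
/-- **Structure.** `|Lk(m) - G(m)| ≤ (log X)^(-A) dQ(m)` for `X ≤ m ≤ 4X`, `Y = ⌊X/Q²⌋`.

Proof. `Lk(m) = ∑_n lp(n) tent(m-n) ∑_{q ≤ Q} c_q(m-n)`; only primes `n ≥ X/2 > Q` with
`|m - n| < Y` occur. By `cq_neg` and `kernel_char` this is
`∑_{p ∈ PC Q} Γ_p(m) conj(ψ_p(m)) B_p(m)`, `B_p(m) = ∑_n lp(n) ψ_p(n) tent(m-n)`. The term `p0` is
`G(m) B_{p0}(m)` (`Gam_one`), so
`|Lk(m) - G(m)| ≤ |G(m)| |B_{p0}(m) - 1| + ∑_{p ≠ p0} |Γ_p(m)| |B_p(m)|`; use `abs_G_le`,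
`abs_Gam_le`, `B_le`, `B0_le`, `L1_nontrivial`, `L1_trivial`, `card_PC_le`. -/
theorem structured (c : ℝ) (hc : 0 < c) (A : ℝ) : ∃ K : ℝ, ∀ Q X : ℕ, Reg K Q X → Good c Q →
    ∀ m : ℤ, (X : ℤ) ≤ m → m ≤ 4 * X →
    |Lk Q (X / Q ^ 2) m - G Q m| ≤ (Real.log X) ^ (-A) * dQ Q m := by
  obtain ⟨K1, hK1⟩ := B_le
  obtain ⟨K2, hK2⟩ := B0_le
  obtain ⟨K3, hK3⟩ := L1_nontrivial c hc (A + 4)
  obtain ⟨K4, hK4⟩ := L1_trivial c hc (A + 4)
  obtain ⟨K5, hK5, hK5'⟩ := reg_log_le 400 (A + 3) (1 / 2) (by norm_num)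
  refine ⟨|K1| + |K2| + |K3| + |K4| + K5 + 1000, fun Q X hR hG m hm hm4 => ?_⟩
  set K := |K1| + |K2| + |K3| + |K4| + K5 + 1000 with hK
  have a1 := abs_nonneg K1
  have a2 := abs_nonneg K2
  have a3 := abs_nonneg K3
  have a4 := abs_nonneg K4
  have b1 := le_abs_self K1
  have b2 := le_abs_self K2
  have b3 := le_abs_self K3
  have b4 := le_abs_self K4
  have hK0 : (0 : ℝ) ≤ K := by linarith
  have hK1' : (1 : ℝ) ≤ K := by linarith
  have hKp : (0 : ℝ) < K := by linarith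
  have R1 := hR.mono (K' := K1) hK0 (by linarith)
  have R2 := hR.mono (K' := K2) hK0 (by linarith)
  have R3 := hR.mono (K' := K3) hK0 (by linarith)
  have R4 := hR.mono (K' := K4) hK0 (by linarith)
  have R5 := hR.mono (K' := K5) hK0 (by linarith)
  have hlX : 1000 ≤ Real.log X := by
    have h1 := hR.logX_ge hKp
    have h2 := Real.add_one_le_exp K
    linarith
  have hlX0 : 0 < Real.log X := by linarith
  have hQge : (1000 : ℝ) ≤ Q := by
    have := hR.Q_ge hK1'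
    linarith
  have hQ0 : (0 : ℝ) < Q := by linarith
  have hQ1 : 1 ≤ Q := hR.Q_pos hK1'
  have hlogQ : 1000 ≤ Real.log Q := by
    have := hR.logQ_ge hK1'
    linarith
  have hlQX : 1 + Real.log Q ≤ Real.log X := by
    have h1 := hR.logQ_le hK1'
    nlinarith
  -- `Q ^ 2 ≤ X` etc.
  have hXpos : (0 : ℝ) < X := by exact_mod_cast hR.X_pos hKp
  have hQX : (Q : ℝ) ^ 3 ≤ X := by
    have h1 := hR.logQ_le hK1'
    have h2 : 3 * Real.log Q ≤ Real.log X := by nlinarith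
    have h3 : Real.log ((Q : ℝ) ^ 3) ≤ Real.log X := by
      rw [Real.log_pow]; push_cast; linarith
    exact (Real.log_le_log_iff (by positivity) hXpos).mp h3
  have hQX' : Q ^ 3 ≤ X := by exact_mod_cast hQX
  have hQ1000 : 1000 ≤ Q := by exact_mod_cast hQge
  have hYle : X / Q ^ 2 * 2 ≤ X := by
    have h1 : X / Q ^ 2 * Q ^ 2 ≤ X := Nat.div_mul_le_self _ _
    have h2 : 2 ≤ Q ^ 2 := by nlinarith
    calc X / Q ^ 2 * 2 ≤ X / Q ^ 2 * Q ^ 2 := Nat.mul_le_mul_left _ h2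
      _ ≤ X := h1
  have hX0 : 0 < X := hR.X_pos hKp
  have hQ2 : 2 * Q ≤ X := by
    have : 2 * Q ≤ Q ^ 3 := by nlinarith [Nat.mul_le_mul hQ1000 hQ1000]
    omega
  have hYX : X / Q ^ 2 < X := by omega
  have hQY : Q + X / Q ^ 2 ≤ X := by omega
  have hd := one_le_dQ Q hQ1 m
  have hmain := DA_diff Q X (X / Q ^ 2) m hm hm4 hYX hQY hQ1
  set ℓ := Real.log X with hℓ
  have hG1 : |G Q m| ≤ 100 * ℓ ^ 3 * dQ Q m := by
    refine (abs_G_le Q m).trans ?_
    have h1 : (1 + Real.log Q) ^ 2 ≤ ℓ ^ 2 := by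
      apply pow_le_pow_left₀ (by linarith) hlQX
    have h2 : ℓ ^ 2 ≤ ℓ ^ 3 := pow_le_pow_right₀ (by linarith) (by norm_num)
    have h3 : 10 * (1 + Real.log Q) ^ 2 ≤ 100 * ℓ ^ 3 := by nlinarith [sq_nonneg ℓ]
    exact mul_le_mul_of_nonneg_right h3 (by linarith)
  have hGam : ∀ p ∈ (PC Q).filter (fun p => p ≠ p0), |Gam Q p.1 m| ≤ 100 * ℓ ^ 3 * dQ Q m := by
    intro p hp
    have hp' := mem_PC.mp (mem_filter.mp hp).1
    refine (abs_Gam_le Q p.1 hp'.1 hp'.2.1 m).trans ?_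
    have h1 : (1 + Real.log Q) ^ 3 ≤ ℓ ^ 3 := by
      apply pow_le_pow_left₀ (by linarith) hlQX
    exact mul_le_mul_of_nonneg_right (by linarith) (by linarith)
  have hB0 : |∑ n ∈ Icc 1 (60 * X), lp n * tent (X / Q ^ 2) (m - n) - 1| ≤
      ℓ ^ (-(A + 4)) + (Q : ℝ) ^ (-(5 / 2) : ℝ) :=
    (hK2 Q X R2 m hm hm4).trans (add_le_add (hK4 Q X R4 hG) le_rfl)
  have hBs : ∑ p ∈ (PC Q).filter (fun p => p ≠ p0),
      ‖∑ n ∈ Icc 1 (60 * X), ((lp n * tent (X / Q ^ 2) (m - n) : ℝ) : ℂ) *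
        p.2 (n : ZMod p.1)‖ ≤ ℓ ^ (-(A + 4)) + (Q : ℝ) ^ (-(1 / 2) : ℝ) := by
    calc _ ≤ ∑ p ∈ (PC Q).filter (fun p => p ≠ p0),
          ((∫ t in (-(Q : ℝ) ^ 7)..((Q : ℝ) ^ 7), ‖FL X p t‖) + (Q : ℝ) ^ (-(5 / 2) : ℝ)) :=
          sum_le_sum fun p hp => hK1 Q X R1 p (mem_PC.mp (mem_filter.mp hp).1).1 m hm hm4
      _ = (∑ p ∈ (PC Q).filter (fun p => p ≠ p0),
          ∫ t in (-(Q : ℝ) ^ 7)..((Q : ℝ) ^ 7), ‖FL X p t‖) +
            ((PC Q).filter (fun p => p ≠ p0)).card * (Q : ℝ) ^ (-(5 / 2) : ℝ) := by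
          rw [sum_add_distrib, sum_const, nsmul_eq_mul]
      _ ≤ _ := by
          refine add_le_add (hK3 Q X R3 hG) ?_
          have h1 : (((PC Q).filter (fun p => p ≠ p0)).card : ℝ) ≤ (Q : ℝ) ^ 2 := by
            have := (card_filter_le (PC Q) (fun p => p ≠ p0)).trans (card_PC_le Q)
            exact_mod_cast this
          have h2 : (Q : ℝ) ^ (-(1 / 2) : ℝ) = (Q : ℝ) ^ 2 * (Q : ℝ) ^ (-(5 / 2) : ℝ) := by
            rw [← Real.rpow_natCast, ← Real.rpow_add hQ0]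
            norm_num
          rw [h2]
          exact mul_le_mul_of_nonneg_right h1 (Real.rpow_nonneg hQ0.le _)
  have hB0' : |∑ n ∈ Icc 1 (60 * X), lp n * tent (X / Q ^ 2) (m - n) - 1| ≤
      ℓ ^ (-(A + 4)) + (Q : ℝ) ^ (-(1 / 2) : ℝ) := by
    refine hB0.trans (add_le_add le_rfl ?_)
    exact Real.rpow_le_rpow_of_exponent_le (by linarith) (by norm_num)
  set η := ℓ ^ (-(A + 4)) + (Q : ℝ) ^ (-(1 / 2) : ℝ) with hη
  have hη0 : 0 ≤ η := by positivity
  have hD0 : 0 ≤ 100 * ℓ ^ 3 * dQ Q m := by positivity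
  have h5 : ∑ p ∈ (PC Q).filter (fun p => p ≠ p0), |Gam Q p.1 m| *
        ‖∑ n ∈ Icc 1 (60 * X), ((lp n * tent (X / Q ^ 2) (m - n) : ℝ) : ℂ) *
          p.2 (n : ZMod p.1)‖ ≤ 100 * ℓ ^ 3 * dQ Q m * η := by
    refine (sum_le_sum fun p hp => mul_le_mul_of_nonneg_right (hGam p hp) (norm_nonneg _)).trans ?_
    rw [← mul_sum]
    exact mul_le_mul_of_nonneg_left hBs hD0
  have h6 : |G Q m| * |∑ n ∈ Icc 1 (60 * X), lp n * tent (X / Q ^ 2) (m - n) - 1| ≤
      100 * ℓ ^ 3 * dQ Q m * η :=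
    mul_le_mul hG1 hB0' (abs_nonneg _) hD0
  have h7 : 200 * ℓ ^ 3 * η ≤ ℓ ^ (-A) := by
    have e1 : 200 * ℓ ^ 3 * ℓ ^ (-(A + 4)) ≤ ℓ ^ (-A) / 2 := by
      have : ℓ ^ (3 : ℕ) * ℓ ^ (-(A + 4)) = ℓ ^ (-A) * ℓ ^ (-1 : ℝ) := by
        rw [← Real.rpow_natCast, ← Real.rpow_add hlX0, ← Real.rpow_add hlX0]
        congr 1
        push_cast
        ring
      rw [mul_assoc, this, Real.rpow_neg_one]
      have h8 : 0 ≤ ℓ ^ (-A) := Real.rpow_nonneg hlX0.le _
      have h9 : ℓ⁻¹ ≤ 1 / 400 := by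
        rw [inv_eq_one_div]
        apply one_div_le_one_div_of_le (by norm_num) (by linarith)
      nlinarith
    have e2 : 200 * ℓ ^ 3 * (Q : ℝ) ^ (-(1 / 2) : ℝ) ≤ ℓ ^ (-A) / 2 := by
      have h8 := hK5' Q X R5
      have h9 : (Q : ℝ) ^ (-(1 / 2) : ℝ) * (Q : ℝ) ^ (1 / 2 : ℝ) = 1 := by
        rw [← Real.rpow_add hQ0]; norm_num
      have h10 : ℓ ^ (A + 3) = ℓ ^ A * ℓ ^ 3 := by
        rw [← Real.rpow_natCast, ← Real.rpow_add hlX0]; norm_num
      have h11 : ℓ ^ (-A) * ℓ ^ A = 1 := by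
        rw [← Real.rpow_add hlX0]; norm_num
      have p1 : 0 < ℓ ^ A := Real.rpow_pos_of_pos hlX0 _
      have p2 : 0 < (Q : ℝ) ^ (-(1 / 2) : ℝ) := Real.rpow_pos_of_pos hQ0 _
      have p3 : 0 < ℓ ^ (-A) := Real.rpow_pos_of_pos hlX0 _
      rw [h10] at h8
      have h12 : 400 * (ℓ ^ A * ℓ ^ 3) * (Q : ℝ) ^ (-(1 / 2) : ℝ) ≤ 1 := by
        calc _ ≤ (Q : ℝ) ^ (1 / 2 : ℝ) * (Q : ℝ) ^ (-(1 / 2) : ℝ) :=
              mul_le_mul_of_nonneg_right h8 p2.le
          _ = 1 := by rw [mul_comm]; exact h9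
      calc 200 * ℓ ^ 3 * (Q : ℝ) ^ (-(1 / 2) : ℝ)
          = ℓ ^ (-A) / 2 * (400 * (ℓ ^ A * ℓ ^ 3) * (Q : ℝ) ^ (-(1 / 2) : ℝ)) := by
            have : ℓ ^ (-A) / 2 * (400 * (ℓ ^ A * ℓ ^ 3) * (Q : ℝ) ^ (-(1 / 2) : ℝ)) =
              (ℓ ^ (-A) * ℓ ^ A) * (200 * ℓ ^ 3 * (Q : ℝ) ^ (-(1 / 2) : ℝ)) := by ring
            rw [this, h11, one_mul]
        _ ≤ ℓ ^ (-A) / 2 * 1 := mul_le_mul_of_nonneg_left h12 (by positivity)
        _ = ℓ ^ (-A) / 2 := mul_one _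
    rw [hη, mul_add]
    linarith
  calc |Lk Q (X / Q ^ 2) m - G Q m| ≤ 100 * ℓ ^ 3 * dQ Q m * η + 100 * ℓ ^ 3 * dQ Q m * η :=
        hmain.trans (add_le_add h6 h5)
    _ = (200 * ℓ ^ 3 * η) * dQ Q m := by ring
    _ ≤ ℓ ^ (-A) * dQ Q m := mul_le_mul_of_nonneg_right h7 (by linarith)

end Pool.Agent.Lib.H68T
end

-- from Lib.H68T.BA1
section

/-!
# Chunk BA1; part of BA: primes in a class modulo `W`: mean and pair correlations
-/

open Finset

namespace Pool.Agent.Lib.H68T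

theorem BA1_e_add (x y : ℝ) : e (x + y) = e x * e y := by
  unfold e
  rw [← Complex.exp_add]
  congr 1
  push_cast
  ring

theorem BA1_norm_e (x : ℝ) : ‖e x‖ = 1 := by
  unfold e
  have h : (2 * (Real.pi : ℂ) * (x : ℂ) * Complex.I) = ((2 * Real.pi * x : ℝ) : ℂ) * Complex.I := by
    push_cast; ring
  rw [h, Complex.norm_exp_ofReal_mul_I]

theorem BA1_e_pow (x : ℝ) (n : ℕ) : e x ^ n = e (n * x) := by
  unfold e
  rw [← Complex.exp_nat_mul]
  congr 1
  push_cast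
  ring

theorem BA1_e_int (k : ℤ) : e (k : ℝ) = 1 := by
  unfold e
  rw [Complex.exp_eq_one_iff]
  exact ⟨k, by push_cast; ring⟩

theorem BA1_e_eq_one {x : ℝ} (h : e x = 1) : ∃ k : ℤ, x = k := by
  unfold e at h
  rw [Complex.exp_eq_one_iff] at h
  obtain ⟨n, hn⟩ := h
  refine ⟨n, ?_⟩
  have h2 : (2 * (Real.pi : ℂ) * Complex.I) ≠ 0 := Complex.two_pi_I_ne_zero
  have h3 : (x : ℂ) * (2 * (Real.pi : ℂ) * Complex.I) = (n : ℂ) * (2 * (Real.pi : ℂ) * Complex.I) := by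
    rw [← hn]; ring
  have h4 := mul_right_cancel₀ h2 h3
  exact_mod_cast h4

/-- Detection of divisibility by additive characters. -/
theorem BA1_detect (W : ℕ) (hW : 0 < W) (k : ℤ) :
    ∑ j ∈ range W, e ((j : ℝ) * ((k : ℝ) / W)) = if (W : ℤ) ∣ k then (W : ℂ) else 0 := by
  have hW' : (W : ℝ) ≠ 0 := by exact_mod_cast hW.ne'
  split_ifs with h
  · obtain ⟨t, rfl⟩ := h
    have : ∀ j ∈ range W, e ((j : ℝ) * ((((W : ℤ) * t : ℤ) : ℝ) / W)) = 1 := by
      intro j _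
      have h1 : (j : ℝ) * ((((W : ℤ) * t : ℤ) : ℝ) / W) = (((j : ℤ) * t : ℤ) : ℝ) := by
        push_cast
        field_simp
      rw [h1, BA1_e_int]
    rw [sum_congr rfl this]
    simp
  · have hne : e ((k : ℝ) / W) ≠ 1 := by
      intro h1
      obtain ⟨t, ht⟩ := BA1_e_eq_one h1
      apply h
      refine ⟨t, ?_⟩
      rw [div_eq_iff hW'] at ht
      have : (k : ℝ) = ((W : ℤ) * t : ℤ) := by rw [ht]; push_cast; ring
      exact_mod_cast this
    have h2 : ∀ j ∈ range W, e ((j : ℝ) * ((k : ℝ) / W)) = e ((k : ℝ) / W) ^ j := by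
      intro j _
      rw [BA1_e_pow]
    rw [sum_congr rfl h2, geom_sum_eq hne, BA1_e_pow]
    have h3 : (W : ℝ) * ((k : ℝ) / W) = ((k : ℤ) : ℝ) := by field_simp
    rw [h3, BA1_e_int]
    simp

/-- A sum along a progression as a combination of twisted sums over an interval. -/
theorem BA1_prog (u : ℤ → ℂ) (W M : ℕ) (hW : 0 < W) (a : ℤ) (θ : ℝ) :
    (W : ℂ) * ∑ c ∈ range M, u (a + W * c) * e (c * θ) =
      ∑ j ∈ range W, e (-(a : ℝ) * ((j + θ) / W)) *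
        ∑ m ∈ Ico a (a + W * M), u m * e (m * ((j + θ) / W)) := by
  have hW' : (W : ℝ) ≠ 0 := by exact_mod_cast hW.ne'
  have hWi : (0 : ℤ) < W := by exact_mod_cast hW
  have h1 : ∀ j ∈ range W, e (-(a : ℝ) * ((j + θ) / W)) *
        ∑ m ∈ Ico a (a + W * M), u m * e (m * ((j + θ) / W)) =
      ∑ m ∈ Ico a (a + W * M), u m * e (((m - a : ℤ) : ℝ) / W * θ) *
        e ((j : ℝ) * (((m - a : ℤ) : ℝ) / W)) := by
    intro j _
    rw [mul_sum]
    refine sum_congr rfl fun m _ => ?_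
    have : e (-(a : ℝ) * ((j + θ) / W)) * e (m * ((j + θ) / W)) =
        e (((m - a : ℤ) : ℝ) / W * θ) * e ((j : ℝ) * (((m - a : ℤ) : ℝ) / W)) := by
      rw [← BA1_e_add, ← BA1_e_add]
      congr 1
      push_cast
      field_simp
      ring
    calc e (-(a : ℝ) * ((j + θ) / W)) * (u m * e (m * ((j + θ) / W)))
        = u m * (e (-(a : ℝ) * ((j + θ) / W)) * e (m * ((j + θ) / W))) := by ring
      _ = _ := by rw [this]; ring
  rw [sum_congr rfl h1, sum_comm]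
  have h2 : ∀ m ∈ Ico a (a + W * M), ∑ j ∈ range W, u m * e (((m - a : ℤ) : ℝ) / W * θ) *
        e ((j : ℝ) * (((m - a : ℤ) : ℝ) / W)) =
      if (W : ℤ) ∣ m - a then (W : ℂ) * (u m * e (((m - a : ℤ) : ℝ) / W * θ)) else 0 := by
    intro m _
    rw [← mul_sum, BA1_detect W hW (m - a)]
    split_ifs <;> ring
  rw [sum_congr rfl h2, ← sum_filter, mul_sum]
  refine sum_bij (fun c _ => a + W * c) ?_ ?_ ?_ ?_
  · intro c hc
    rw [mem_range] at hc
    rw [mem_filter, mem_Ico]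
    refine ⟨⟨?_, ?_⟩, ?_⟩
    · have : (0 : ℤ) ≤ W * c := by positivity
      linarith
    · have : (c : ℤ) < M := by exact_mod_cast hc
      have := mul_lt_mul_of_pos_left this hWi
      linarith
    · simp
  · intro c _ c' _ h
    have h1 : (W : ℤ) * c = W * c' := by linarith
    have h2 := mul_left_cancel₀ hWi.ne' h1
    exact_mod_cast h2
  · intro m hm
    rw [mem_filter, mem_Ico] at hm
    obtain ⟨⟨hm1, hm2⟩, t, ht⟩ := hm
    have ht0 : 0 ≤ t := by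
      by_contra hneg
      push Not at hneg
      have : (W : ℤ) * t < 0 := mul_neg_of_pos_of_neg hWi hneg
      linarith
    have htM : t < M := by
      have h3 : (W : ℤ) * t < W * M := by linarith
      exact lt_of_mul_lt_mul_left h3 hWi.le
    refine ⟨t.toNat, ?_, ?_⟩
    · rw [mem_range]
      omega
    · have : ((t.toNat : ℕ) : ℤ) = t := Int.toNat_of_nonneg ht0
      rw [this]
      linarith
  · intro c _
    have : (((a + W * c - a : ℤ) : ℝ) / W * θ) = c * θ := by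
      push_cast
      field_simp
      ring
    rw [this]


end Pool.Agent.Lib.H68T
end
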