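import Pool.Agent.Lib.H59M.M1.M006
import Pool.Agent.Lib.H59M.M1.M026
import Pool.Agent.Lib.H59M.M1.M035
import Pool.Agent.Lib.H59M.M1.M036

/-! Merged copies (to shorten the build) of Lib.H21T.Z4A, Lib.H21T.Z4, Lib.H21T.Z5, Lib.H21T.Z6A, Lib.H21T.Z6, Lib.H21T.Main. -/

-- from Lib.H21T.Z4A
section

/-!
# Chunk Z4A (M): the model on the minor arcs
-/

namespace Pool.Agent.Lib.H21T

open Finset Pool.Agent.SZW

/-- `m6` with `β = α`, `θ = 0`, `L = max 0 (..)` of `z2` (at most `log A2 - log A1 ≤ log 2 ≤ 1`), `ε = 24 / A1`, `B = u ^ 2` (`m1_g`, `z3_div`: `x + H ≤ u ^ 20003`; `1 + log Q ≤ 1 + log u ≤ u`),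
and `m7` with `c = 1 / u ^ 9754` (`Q ≤ u ≤ u ^ 131`, `¬ Maj`): norm at most `H * u ^ 2 * 24 / u ^ 9999 + u * u * u ^ 9754 / 2 ≤ H / (4 u)`. -/
theorem z4_model : ∃ U0 : ℝ, 1 ≤ U0 ∧ ∀ u : ℝ, U0 ≤ u → ∀ (Q A1 A2 B1 B2 x H : ℕ) (α : ℝ), 1 ≤ Q → (Q : ℝ) ≤ u → u ^ 9999 ≤ A1 →
    A1 ≤ B1 → A1 ≤ A2 → A2 ≤ 2 * A1 → B1 ≤ B2 → B2 ≤ 2 * B1 → ((A1 * B1 : ℕ) : ℝ) ≤ u ^ 20000 → A1 * B1 ≤ 2 * x → x ≤ 4 * (A1 * B1) →
    u ^ 9999 ≤ H → (H : ℝ) ≤ 3 * u ^ 9999 → ¬ Maj u α →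
    ‖∑ m ∈ Ico x (x + H), (Mbox Q A1 A2 B1 B2 m : ℂ) * ee (α * m)‖ ≤ H / (4 * u) := by
  obtain ⟨U1, hU1, hdiv⟩ := z3_div
  refine ⟨max U1 200, le_max_of_le_left hU1, ?_⟩
  intro u hu Q A1 A2 B1 B2 x H α hQ hQu hA1 hAB hA2 hA2' hB2 hB2' hN hx hx' hH hH' hMaj
  have huU : U1 ≤ u := (le_max_left _ _).trans hu
  have hu2 : (200 : ℝ) ≤ u := (le_max_right _ _).trans hu
  have hu1 : (1 : ℝ) ≤ u := by linarith
  have hu0 : (0 : ℝ) < u := by linarith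
  have hpm : ∀ {a b : ℕ}, a ≤ b → u ^ a ≤ u ^ b := fun h => pow_le_pow_right₀ hu1 h
  have hA1r : (8 : ℝ) ≤ A1 := by
    have h1 : u ^ 1 ≤ u ^ 9999 := hpm (by norm_num)
    rw [pow_one] at h1
    linarith
  have hA18 : 8 ≤ A1 := by exact_mod_cast hA1r
  have hH3 : H ≤ 3 * A1 := by
    have h1 : (H : ℝ) ≤ 3 * A1 := by linarith
    exact_mod_cast h1
  obtain ⟨L, hL⟩ : ∃ L : ℝ, L = max 0 (Real.log (min A2 (x / B1 + 1) : ℕ) -
    Real.log (max A1 (x / B2 + 1) : ℕ)) := ⟨_, rfl⟩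
  have hL0 : 0 ≤ L := by
    rw [hL]
    exact le_max_left _ _
  have hL1 : L ≤ 1 := by
    rw [hL]
    refine max_le zero_le_one ?_
    have h1 : Real.log (min A2 (x / B1 + 1) : ℕ) ≤ Real.log A2 := by
      refine Real.log_le_log ?_ ?_
      · have : 0 < min A2 (x / B1 + 1) := lt_min (by omega) (Nat.succ_pos _)
        exact_mod_cast this
      · exact_mod_cast min_le_left _ _
    have h2 : Real.log A1 ≤ Real.log (max A1 (x / B2 + 1) : ℕ) := by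
      refine Real.log_le_log (by linarith) ?_
      exact_mod_cast le_max_left _ _
    have h3 : Real.log A2 ≤ Real.log 2 + Real.log A1 := by
      rw [← Real.log_mul two_ne_zero (by linarith : (A1 : ℝ) ≠ 0)]
      refine Real.log_le_log ?_ ?_
      · have : 0 < A2 := by omega
        exact_mod_cast this
      · exact_mod_cast hA2'
    have h4 := Real.log_two_lt_d9
    linarith
  have hlogQ : 1 + Real.log Q ≤ u := by
    have h1 : Real.log Q ≤ Real.log u := Real.log_le_log (by exact_mod_cast hQ) hQu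
    have h2 : Real.log u ≤ u - 1 := Real.log_le_sub_one_of_pos hu0
    linarith
  have hlogQ0 : 0 ≤ 1 + Real.log Q := by
    have : 0 ≤ Real.log Q := Real.log_nonneg (by exact_mod_cast hQ)
    linarith
  have hxH : ((x + H : ℕ) : ℝ) ≤ u ^ 20003 := by
    have h1 : (x : ℝ) ≤ 4 * ((A1 * B1 : ℕ) : ℝ) := by exact_mod_cast hx'
    have h2 : u ^ 9999 ≤ u ^ 20000 := hpm (by norm_num)
    have h3 : (x : ℝ) + H ≤ 7 * u ^ 20000 := by linarith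
    have h4 : (7 : ℝ) * u ^ 20000 ≤ u ^ 1 * u ^ 20000 := by
      refine mul_le_mul_of_nonneg_right ?_ (by positivity)
      rw [pow_one]
      linarith
    rw [← pow_add] at h4
    have h5 : u ^ (1 + 20000) ≤ u ^ 20003 := hpm (by norm_num)
    push_cast
    linarith
  have hx1 : 1 ≤ x := by
    have h1 : 1 ≤ A1 * B1 := Nat.mul_pos (by omega) (by omega)
    omega
  have hgb : ∀ m, x ≤ m → m < x + H → |gQ Q m| ≤ u ^ 2 := by
    intro m h1 h2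
    have hm0 : 1 ≤ m := by omega
    have h3 := hdiv u huU m hm0 (by
      have : (m : ℝ) ≤ ((x + H : ℕ) : ℝ) := by exact_mod_cast h2.le
      exact this.trans hxH)
    have h4 : (m.divisors.card : ℝ) ≤ u := by
      have h5 : (m.divisors.card : ℝ) ≤ (⌊u⌋₊ : ℝ) := by exact_mod_cast h3
      exact h5.trans (Nat.floor_le hu0.le)
    refine (m1_g Q m hQ hm0).trans ?_
    rw [pow_two]
    exact mul_le_mul h4 hlogQ hlogQ0 hu0.le
  have hm6 := m6 x H α 0 L (24 / A1) (u ^ 2) (fun m => lbox A1 A2 B1 B2 m) (fun m => gQ Q m)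
    (by rw [abs_of_nonneg hL0]; exact hL1) (by positivity) (by positivity)
    (fun m h1 h2 => by
      rw [hL]
      exact z2 A1 A2 B1 B2 x H m hA18 hAB hA2 hB2 hB2' hx hH3 h1 h2) hgb
  have hm7 := m7 x H Q α (1 / u ^ 9754) hQ (by positivity) (fun d hd1 hd2 => by
    by_contra hcon
    rw [not_le] at hcon
    apply hMaj
    refine ⟨d, hd1, ?_, ?_⟩
    · have h1 : (d : ℝ) ≤ Q := by exact_mod_cast hd2
      have h2 : u ^ 1 ≤ u ^ 131 := hpm (by norm_num)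
      rw [pow_one] at h2
      linarith
    · rw [lt_div_iff₀ (by positivity)] at hcon
      exact hcon.le)
  obtain ⟨Sg, hSg⟩ : ∃ Sg : ℂ, Sg = ∑ m ∈ Ico x (x + H), (gQ Q m : ℂ) * ee (α * m) := ⟨_, rfl⟩
  rw [← hSg] at hm6 hm7
  simp only [add_zero, abs_zero, mul_zero, zero_mul] at hm6
  obtain ⟨Sm, hSm⟩ : ∃ Sm : ℂ, Sm = ∑ m ∈ Ico x (x + H),
    ((lbox A1 A2 B1 B2 m * gQ Q m : ℝ) : ℂ) * ee (α * m) := ⟨_, rfl⟩
  rw [← hSm] at hm6
  have hgoal : ∑ m ∈ Ico x (x + H), (Mbox Q A1 A2 B1 B2 m : ℂ) * ee (α * m) = Sm := by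
    rw [hSm]
    rfl
  rw [hgoal]
  have hLS : ‖(L : ℂ) * ee 0 * Sg‖ ≤ u * u * u ^ 9754 / 2 := by
    rw [norm_mul, norm_mul, norm_ee, Complex.norm_real, Real.norm_eq_abs, abs_of_nonneg hL0, mul_one]
    have h1 : L * ‖Sg‖ ≤ 1 * ‖Sg‖ := mul_le_mul_of_nonneg_right hL1 (norm_nonneg _)
    rw [one_mul] at h1
    refine h1.trans (hm7.trans ?_)
    have e : (Q : ℝ) * (1 + Real.log Q) / (2 * (1 / u ^ 9754)) =
        Q * (1 + Real.log Q) * (u ^ 9754 / 2) := by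
      field_simp
    rw [e, mul_div_assoc]
    refine mul_le_mul_of_nonneg_right ?_ (by positivity)
    exact mul_le_mul hQu hlogQ hlogQ0 hu0.le
  have h1 : ‖Sm‖ ≤ ‖Sm - (L : ℂ) * ee 0 * Sg‖ + ‖(L : ℂ) * ee 0 * Sg‖ := by
    have := norm_add_le (Sm - (L : ℂ) * ee 0 * Sg) ((L : ℂ) * ee 0 * Sg)
    rwa [sub_add_cancel] at this
  have hH0 : (0 : ℝ) ≤ H := Nat.cast_nonneg _
  have h2 : (H : ℝ) * u ^ 2 * (24 / A1) ≤ H / (8 * u) := by
    have h3 : u ^ 2 * (24 / A1) ≤ 1 / (8 * u) := by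
      rw [mul_div_assoc', div_le_div_iff₀ (by linarith) (by positivity)]
      have h4 : u ^ 4 ≤ u ^ 9999 := hpm (by norm_num)
      have h5 : u ^ 2 * 24 * (8 * u) = 192 * u ^ 3 := by ring
      have h6 : 192 * u ^ 3 ≤ u * u ^ 3 := mul_le_mul_of_nonneg_right (by linarith) (by positivity)
      have h7 : u * u ^ 3 = u ^ 4 := by ring
      rw [h5, one_mul]
      linarith
    calc (H : ℝ) * u ^ 2 * (24 / A1) = H * (u ^ 2 * (24 / A1)) := by ring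
      _ ≤ H * (1 / (8 * u)) := mul_le_mul_of_nonneg_left h3 hH0
      _ = H / (8 * u) := by ring
  have h3 : u * u * u ^ 9754 / 2 ≤ H / (8 * u) := by
    rw [div_le_div_iff₀ (by norm_num) (by positivity)]
    have e : u * u * u ^ 9754 * (8 * u) = 8 * u ^ 9757 := by
      have e1 : u ^ 9757 = u ^ 9754 * u ^ 3 := (pow_add u 9754 3)
      obtain ⟨E, hE⟩ : ∃ E, E = u ^ 9754 := ⟨_, rfl⟩
      rw [e1, ← hE]
      ring
    have h4 : 4 * u ^ 9757 ≤ u * u ^ 9757 := mul_le_mul_of_nonneg_right (by linarith) (by positivity)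
    have h5 : u * u ^ 9757 = u ^ 9758 := by
      rw [mul_comm]
      exact (pow_succ u 9757).symm
    have h6 : u ^ 9758 ≤ u ^ 9999 := hpm (by norm_num)
    rw [e]
    linarith
  have h4 : (H : ℝ) / (4 * u) = H / (8 * u) + H / (8 * u) := by
    field_simp
    ring
  rw [h4]
  linarith

end Pool.Agent.Lib.H21T
end

-- from Lib.H21T.Z4
section

/-!
# Chunk Z4 (M): minor arcs
-/

namespace Pool.Agent.Lib.H21T

open Finset Pool.Agent.SZW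

/-- The final inequality. -/
theorem z4_fin {u h : ℝ} (hu : 64 ≤ u) (hh : 64 * u ≤ h) : h / (4 * u) + 32 + h / (8 * u) ≤ h / u := by
  have hu0 : 0 < u := by linarith
  have e : h / u - (h / (4 * u) + h / (8 * u)) = 5 / 8 * (h / u) := by
    field_simp
    ring
  have h1 : 64 ≤ h / u := by
    rw [le_div_iff₀ hu0]
    exact hh
  linarith

/-- `2 (H / B + 1) (H / A + 1) ≤ 32` if `H ≤ 3 A ≤ 3 B`. -/
theorem z4_err {A B H : ℝ} (hA : 0 < A) (hAB : A ≤ B) (hH : H ≤ 3 * A) (h0 : 0 ≤ H) : 2 * ((H / B + 1) * (H / A + 1)) ≤ 32 := by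
  have hB : 0 < B := lt_of_lt_of_le hA hAB
  have h1 : H / A ≤ 3 := by
    rw [div_le_iff₀ hA]
    exact hH
  have h2 : H / B ≤ 3 := by
    rw [div_le_iff₀ hB]
    linarith
  have h3 : 0 ≤ H / A := by positivity
  have h4 : 0 ≤ H / B := by positivity
  nlinarith

/-- The position: if `x < A1 B1 / 2` then the interval is below `A1 B1`. -/
theorem z4_low {P A1 B1 x H : ℝ} (hP : 6 ≤ P) (hA : P ≤ A1) (hB : P ≤ B1) (hx : 2 * x < A1 * B1) (hH : H ≤ 3 * P) : x + H ≤ A1 * B1 := by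
  have h1 : P * P ≤ A1 * B1 := mul_le_mul hA hB (by linarith) (by linarith)
  nlinarith

theorem z4_size {u P R A B : ℝ} (hu : 1 ≤ u) (hR : R = u ^ 2 * (P * P)) (hP : 0 < P) (hA : P ≤ A) (hAB : A * B ≤ R) : A * B ≤ u ^ 2 * A ^ 2 := by
  have h1 : P * P ≤ A * A := mul_le_mul hA hA hP.le (by linarith)
  have h2 : u ^ 2 * (P * P) ≤ u ^ 2 * (A * A) := mul_le_mul_of_nonneg_left h1 (by positivity)
  calc A * B ≤ u ^ 2 * (P * P) := by rw [← hR]; exact hAB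
    _ ≤ u ^ 2 * (A * A) := h2
    _ = u ^ 2 * A ^ 2 := by rw [pow_two A]

theorem z4_sqrt {Q A B : ℝ} (hA : 0 ≤ A) (hQ : 0 ≤ Q) (hAB : A ≤ B) (h : A * B ≤ Q * Q) : A ≤ Q := by
  by_contra hcon
  have h1 : Q < A := not_le.1 hcon
  have h2 : Q * Q < A * A := mul_self_lt_mul_self hQ h1
  have h3 : A * A ≤ A * B := mul_le_mul_of_nonneg_left hAB hA
  linarith

/-- If `2 x < A1 B1` then `x + H ≤ A1 B1` (`A1 B1 ≥ u ^ 19998`) and everything vanishes (`z0_low`); if `x ≥ A2 B2` too (`z0_high`). Otherwise `x ≤ A2 B2 ≤ 4 A1 B1`,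
`A1 ^ 2 ≤ A1 B1 ≤ 2 x`, `A1 ≤ u ^ 10000`, `x ≤ 4 u ^ 20000 ≤ 4 u ^ 2 A1 ^ 2`. `z1` (error at most `2 * 4 * 4`), `z3` with `A = A1` for the modified ends, `z4_model`. -/
theorem z4 : ∃ U0 : ℝ, 1 ≤ U0 ∧ ∀ u : ℝ, U0 ≤ u → ∀ (Q A1 A2 B1 B2 x H : ℕ) (α : ℝ), 1 ≤ Q → (Q : ℝ) ≤ u → u ^ 9999 ≤ A1 →
    A1 ≤ B1 → A1 ≤ A2 → A2 ≤ 2 * A1 → B1 ≤ B2 → B2 ≤ 2 * B1 → ((A1 * B1 : ℕ) : ℝ) ≤ u ^ 20000 →
    u ^ 9999 ≤ H → (H : ℝ) ≤ 3 * u ^ 9999 → ¬ Maj u α →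
    ‖∑ m ∈ Ico x (x + H), ((dbox A1 A2 B1 B2 m : ℂ) - (Mbox Q A1 A2 B1 B2 m : ℂ)) * ee (α * m)‖ ≤ H / u := by
  obtain ⟨Ua, _, ha⟩ := z4_model
  obtain ⟨Ub, _, hb⟩ := z3
  refine ⟨max (max Ua Ub) 64, le_max_of_le_right (by norm_num), ?_⟩
  intro u hu Q A1 A2 B1 B2 x H α hQ hQu hA hAB hA12 hA2 hB12 hB2 hABu hH1 hH2 hmaj
  have hua : Ua ≤ u := ((le_max_left _ _).trans (le_max_left _ _)).trans hu
  have hub : Ub ≤ u := ((le_max_right _ _).trans (le_max_left _ _)).trans hu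
  have hu64 : (64 : ℝ) ≤ u := (le_max_right _ _).trans hu
  have hu1 : (1 : ℝ) ≤ u := by linarith
  have hu0 : (0 : ℝ) < u := by linarith
  have hp1 : 64 * u ≤ u ^ 9999 := by
    have h1 : u ^ 2 ≤ u ^ 9999 := pow_le_pow_right₀ hu1 (by norm_num)
    have h2 : 64 * u ≤ u ^ 2 := by nlinarith
    exact h2.trans h1
  have hp3 : u ^ 20000 = u ^ 2 * (u ^ 9999 * u ^ 9999) := by rw [← pow_add, ← pow_add]
  have hp4 : u ^ 20000 = u ^ 10000 * u ^ 10000 := by rw [← pow_add]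
  have hP0 : 0 < u ^ 9999 := by positivity
  have hQ0 : 0 ≤ u ^ 10000 := by positivity
  have hP6 : 6 ≤ u ^ 9999 := by linarith
  have hABr : (A1 : ℝ) ≤ B1 := by exact_mod_cast hAB
  have hA0 : (0 : ℝ) < A1 := lt_of_lt_of_le hP0 hA
  have hA1n : 1 ≤ A1 := by
    have : 0 < A1 := by exact_mod_cast hA0
    exact this
  have hB1n : 1 ≤ B1 := hA1n.trans hAB
  have hzero : (∀ m ∈ Ico x (x + H), dbox A1 A2 B1 B2 m = 0 ∧ lbox A1 A2 B1 B2 m = 0) →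
      ‖∑ m ∈ Ico x (x + H), ((dbox A1 A2 B1 B2 m : ℂ) - (Mbox Q A1 A2 B1 B2 m : ℂ)) * ee (α * m)‖ ≤ H / u := by
    intro h
    have h1 : ∑ m ∈ Ico x (x + H), ((dbox A1 A2 B1 B2 m : ℂ) - (Mbox Q A1 A2 B1 B2 m : ℂ)) * ee (α * m) = 0 := by
      refine Finset.sum_eq_zero fun m hm => ?_
      obtain ⟨h2, h3⟩ := h m hm
      unfold Mbox
      rw [h2, h3, zero_mul]
      push_cast
      ring
    rw [h1, norm_zero]
    positivity
  by_cases hlow : 2 * x < A1 * B1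
  · refine hzero fun m hm => ?_
    rw [mem_Ico] at hm
    refine z0_low hA1n hB1n ?_
    have h1 : (x : ℝ) + H ≤ A1 * B1 := z4_low hP6 hA (hA.trans hABr) (by exact_mod_cast hlow) hH2
    have h2 : x + H ≤ A1 * B1 := by exact_mod_cast h1
    omega
  by_cases hhigh : A2 * B2 ≤ x
  · refine hzero fun m hm => ?_
    rw [mem_Ico] at hm
    exact z0_high (hA1n.trans hA12) (hB1n.trans hB12) (hhigh.trans hm.1)
  have hx1 : A1 * B1 ≤ 2 * x := not_lt.1 hlow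
  have hx2 : x ≤ 4 * (A1 * B1) := by
    have h1 : A2 * B2 ≤ (2 * A1) * (2 * B1) := Nat.mul_le_mul hA2 hB2
    have h2 : (2 * A1) * (2 * B1) = 4 * (A1 * B1) := by ring
    have h3 : x < A2 * B2 := not_le.1 hhigh
    omega
  have hxpos : 1 ≤ x := by
    have : 1 ≤ A1 * B1 := Nat.mul_pos hA1n hB1n
    omega
  have hABu' : (A1 : ℝ) * B1 ≤ u ^ 20000 := by exact_mod_cast hABu
  have hAu : (A1 : ℝ) ≤ u ^ 10000 := z4_sqrt hA0.le hQ0 hABr (by rw [← hp4]; exact hABu')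
  have hA2x : A1 ^ 2 ≤ 2 * x := by
    have h1 : A1 ^ 2 ≤ A1 * B1 := by
      rw [pow_two]
      exact Nat.mul_le_mul_left _ hAB
    exact h1.trans hx1
  have hx3 : (x : ℝ) ≤ 4 * u ^ 2 * (A1 : ℝ) ^ 2 := by
    have h1 : (x : ℝ) ≤ 4 * ((A1 : ℝ) * B1) := by exact_mod_cast hx2
    have h2 := z4_size hu1 hp3 hP0 hA hABu'
    calc (x : ℝ) ≤ 4 * ((A1 : ℝ) * B1) := h1
      _ ≤ 4 * (u ^ 2 * (A1 : ℝ) ^ 2) := mul_le_mul_of_nonneg_left h2 (by norm_num)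
      _ = 4 * u ^ 2 * (A1 : ℝ) ^ 2 := by rw [mul_assoc]
  have e1 := ha u hua Q A1 A2 B1 B2 x H α hQ hQu hA hAB hA12 hA2 hB12 hB2 hABu hx1 hx2 hH1 hH2 hmaj
  have e2 := hb u hub A1 (max A1 (x / B2 + 1)) (min A2 (x / B1 + 1)) x H α hA hAu (le_max_left _ _)
    ((min_le_left _ _).trans hA2) hA2x hx3 hH1 hH2 hmaj
  have e3 := z1 A1 A2 B1 B2 x H α hA1n hB1n hB12 hxpos
  have e4 : 2 * (((H : ℝ) / B1 + 1) * ((H : ℝ) / A1 + 1)) ≤ 32 :=
    z4_err hA0 hABr (hH2.trans (by linarith)) (Nat.cast_nonneg H)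
  have e5 := z4_fin hu64 (hp1.trans hH1)
  have e6 : ∑ m ∈ Ico x (x + H), ((dbox A1 A2 B1 B2 m : ℂ) - (Mbox Q A1 A2 B1 B2 m : ℂ)) * ee (α * m) =
      (∑ m ∈ Ico x (x + H), (dbox A1 A2 B1 B2 m : ℂ) * ee (α * m) -
        SR α (max A1 (x / B2 + 1)) (min A2 (x / B1 + 1)) x H) +
      SR α (max A1 (x / B2 + 1)) (min A2 (x / B1 + 1)) x H -
      ∑ m ∈ Ico x (x + H), (Mbox Q A1 A2 B1 B2 m : ℂ) * ee (α * m) := by
    rw [sub_add_cancel, ← Finset.sum_sub_distrib]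
    refine Finset.sum_congr rfl fun m _ => ?_
    ring
  rw [e6]
  refine (norm_sub_le _ _).trans ((add_le_add_left (norm_add_le _ _) _).trans ?_)
  linarith

end Pool.Agent.Lib.H21T
end

-- from Lib.H21T.Z5
section

/-!
# Chunk Z5 (M): major arcs for the pairs
-/

namespace Pool.Agent.Lib.H21T

open Finset Pool.Agent.SZW

/-- If `A1 ≥ A2` both terms vanish. Otherwise `b11` with `z5_num` (`q ^ 2 u ^ 8753 ≤ u ^ 9015`) and `m6_SR` (`|Rg| ≤ τ H ≤ u H` by `s4_div` with `U = Ico x (x + H)` and `z3_div`; `2 π |θ| H ≤ 6 π u ^ (-14)`). -/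
theorem z5 : ∃ U0 : ℝ, 1 ≤ U0 ∧ ∀ u : ℝ, U0 ≤ u → ∀ (A A1 A2 x H q : ℕ) (p : ℤ) (θ : ℝ), u ^ 9999 ≤ A → (A : ℝ) ≤ u ^ 10000 →
    A ≤ A1 → A2 ≤ 2 * A → A ^ 2 ≤ 2 * x → (x : ℝ) ≤ 4 * u ^ 2 * (A : ℝ) ^ 2 → u ^ 9740 ≤ H → (H : ℝ) ≤ 3 * u ^ 9740 →
    1 ≤ q → (q : ℝ) ≤ u ^ 131 → IsCoprime p (q : ℤ) → |θ| * u ^ 9754 ≤ 1 → A2 ≠ 0 →
    ‖SR ((p : ℝ) / q + θ) A1 A2 x H -
      (((H : ℝ) / q * max 0 (Real.log A2 - Real.log A1) : ℝ) : ℂ) * ee (θ * x)‖ ≤ H / (8 * u) := by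
  obtain ⟨U1, hU1, hn⟩ := z5_num
  obtain ⟨U2, hU2, hd⟩ := z3_div
  refine ⟨max (max U1 U2) 100, le_trans (by norm_num) (le_max_right _ _), ?_⟩
  intro u hu A A1 A2 x H q p θ hA1 hA2 h1 h2 h3 h4 h5 h6 hq hq2 hp hθ hne
  have hu1 : U1 ≤ u := le_trans (le_trans (le_max_left _ _) (le_max_left _ _)) hu
  have hu2 : U2 ≤ u := le_trans (le_trans (le_max_right _ _) (le_max_left _ _)) hu
  have hu3 : (100 : ℝ) ≤ u := le_trans (le_max_right _ _) hu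
  have hu0 : 0 < u := by linarith
  have hu4 : 1 ≤ u := by linarith
  rcases le_or_gt A2 A1 with hc | hc
  · have e1 : SR ((p : ℝ) / q + θ) A1 A2 x H = 0 := by
      unfold SR Rg
      rw [Ico_eq_empty (by omega)]
      simp
    have e2 : max 0 (Real.log A2 - Real.log A1) = 0 := by
      refine max_eq_left (sub_nonpos.2 (Real.log_le_log ?_ (by exact_mod_cast hc)))
      exact_mod_cast Nat.pos_of_ne_zero hne
    rw [e1, e2, mul_zero, Complex.ofReal_zero, zero_mul, sub_zero, norm_zero]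
    exact div_nonneg (Nat.cast_nonneg _) (by linarith)
  · have e2 : max 0 (Real.log A2 - Real.log A1) = Real.log A2 - Real.log A1 := by
      refine max_eq_right (sub_nonneg.2 (Real.log_le_log ?_ (by exact_mod_cast hc.le)))
      have : (0 : ℝ) < A := lt_of_lt_of_le (pow_pos hu0 9999) hA1
      have h7 : (A : ℝ) ≤ A1 := by exact_mod_cast h1
      linarith
    have hApos : 0 < A := by
      have : (0 : ℝ) < A := lt_of_lt_of_le (pow_pos hu0 9999) hA1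
      exact_mod_cast this
    have hA1pos : 1 ≤ A1 := by omega
    have hxpos : 1 ≤ x := by
      by_contra hx
      have hx0 : x = 0 := by omega
      rw [hx0, mul_zero] at h3
      have := pow_pos hApos 2
      omega
    obtain ⟨X, S, Λ, s0, hG, hHS, hs0, hB⟩ := hn u hu1 A x H hA1 hA2 h3 h4 h6
    have hqA : 2 * q ≤ A := by
      have h8 : (2 : ℝ) * q ≤ A := by
        have h9 : u ^ 132 ≤ u ^ 9999 := pow_le_pow_right₀ hu4 (by norm_num)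
        have h10 : u ^ 132 = u * u ^ 131 := by rw [← pow_succ']
        have h11 : 2 * u ^ 131 ≤ u * u ^ 131 := mul_le_mul_of_nonneg_right (by linarith) (pow_pos hu0 131).le
        linarith
      exact_mod_cast h8
    have hb := b11 hG h1 hc.le h2 hHS hq hqA hp hs0
    have hb2 : ‖SR ((p : ℝ) / q) A1 A2 x H - (((H : ℝ) / q * (Real.log A2 - Real.log A1) : ℝ) : ℂ)‖ ≤ u ^ 9015 := by
      refine hb.trans ?_
      calc (q : ℝ) ^ 2 * (2 * A * (1 / (s0 : ℝ) + 12 / S) + 2 * A * S / Λ + 291 * X * s0 * S * Λ + 2 * H / A)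
          ≤ (q : ℝ) ^ 2 * u ^ 8753 := mul_le_mul_of_nonneg_left hB (sq_nonneg _)
        _ ≤ (u ^ 131) ^ 2 * u ^ 8753 :=
            mul_le_mul_of_nonneg_right (pow_le_pow_left₀ (Nat.cast_nonneg _) hq2 2) (pow_pos hu0 8753).le
        _ = u ^ 9015 := by rw [← pow_mul, ← pow_add]
    have hcard : ((Rg A1 A2 x H).card : ℝ) ≤ u * H := by
      have hτ : ∀ m : ℕ, 1 ≤ m → m < x + H → m.divisors.card ≤ ⌊u⌋₊ := by
        intro m hm1 hm2
        refine hd u hu2 m hm1 ?_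
        have g1 : (m : ℝ) ≤ x + H := by exact_mod_cast hm2.le
        have g2 : (A : ℝ) ^ 2 ≤ u ^ 20000 := by
          calc (A : ℝ) ^ 2 ≤ (u ^ 10000) ^ 2 := pow_le_pow_left₀ (Nat.cast_nonneg _) hA2 2
            _ = u ^ 20000 := by rw [← pow_mul]
        have g3 : 4 * u ^ 2 * (A : ℝ) ^ 2 ≤ 4 * u ^ 2 * u ^ 20000 := mul_le_mul_of_nonneg_left g2 (by positivity)
        have g4 : u ^ 2 * u ^ 20000 = u ^ 20002 := by rw [← pow_add]
        have g5 : u ^ 9740 ≤ u ^ 20002 := pow_le_pow_right₀ hu4 (by norm_num)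
        have g6 : u ^ 20003 = u * u ^ 20002 := by rw [← pow_succ']
        have g7 : 7 * u ^ 20002 ≤ u * u ^ 20002 := mul_le_mul_of_nonneg_right (by linarith) (pow_pos hu0 20002).le
        have g8 : 4 * u ^ 2 * u ^ 20000 = 4 * u ^ 20002 := by rw [mul_assoc, g4]
        linarith
      have h12 := s4_div (A2 := A2) hA1pos hxpos hτ (Ico x (x + H))
      have h13 : (Rg A1 A2 x H).filter (fun p => p.1 * p.2 ∈ Ico x (x + H)) = Rg A1 A2 x H := by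
        refine filter_true_of_mem fun r hr => ?_
        obtain ⟨-, -, h14, h15⟩ := (mem_Rg hA1pos).1 hr
        exact mem_Ico.2 ⟨h14, h15⟩
      rw [h13, Nat.card_Ico, Nat.add_sub_cancel_left] at h12
      calc ((Rg A1 A2 x H).card : ℝ) ≤ ((⌊u⌋₊ * H : ℕ) : ℝ) := by exact_mod_cast h12
        _ = (⌊u⌋₊ : ℝ) * H := by push_cast; rfl
        _ ≤ u * H := mul_le_mul_of_nonneg_right (Nat.floor_le hu0.le) (Nat.cast_nonneg _)
    have hm := m6_SR A1 A2 x H hA1pos ((p : ℝ) / q) θ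
    have hH0 : (0 : ℝ) ≤ H := Nat.cast_nonneg _
    have hth : 2 * Real.pi * |θ| * H ≤ 1 / (16 * u ^ 2) := by
      have t1 : u ^ 9754 = u ^ 9740 * u ^ 14 := by rw [← pow_add]
      obtain ⟨y, hy⟩ : ∃ y : ℝ, y = |θ| * u ^ 9740 := ⟨_, rfl⟩
      have hy0 : 0 ≤ y := by
        rw [hy]
        exact mul_nonneg (abs_nonneg _) (pow_pos hu0 9740).le
      have t2 : y * u ^ 14 ≤ 1 := by
        rw [hy, mul_assoc, ← t1]
        exact hθ
      have t3 : |θ| * H ≤ 3 * y := by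
        rw [hy]
        calc |θ| * H ≤ |θ| * (3 * u ^ 9740) := mul_le_mul_of_nonneg_left h6 (abs_nonneg _)
          _ = _ := by ring
      have t4 : (320 : ℝ) * u ^ 2 ≤ u ^ 14 := by
        have t5 : u ^ 14 = u ^ 12 * u ^ 2 := by rw [← pow_add]
        have t6 : (320 : ℝ) ≤ u ^ 12 := by
          calc (320 : ℝ) ≤ 100 ^ 12 := by norm_num
            _ ≤ u ^ 12 := pow_le_pow_left₀ (by norm_num) hu3 12
        rw [t5]
        exact mul_le_mul_of_nonneg_right t6 (by positivity)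
      have t7 : Real.pi ≤ 3.15 := Real.pi_lt_d2.le
      have t8 : 0 < Real.pi := Real.pi_pos
      rw [le_div_iff₀ (by positivity)]
      have t9 : 2 * Real.pi * |θ| * H * (16 * u ^ 2) ≤ 2 * 3.15 * (3 * y) * (16 * u ^ 2) := by
        refine mul_le_mul_of_nonneg_right ?_ (by positivity)
        calc 2 * Real.pi * |θ| * H = 2 * Real.pi * (|θ| * H) := by ring
          _ ≤ 2 * 3.15 * (3 * y) := mul_le_mul (by linarith) t3 (mul_nonneg (abs_nonneg _) hH0) (by norm_num)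
      refine t9.trans ?_
      calc 2 * 3.15 * (3 * y) * (16 * u ^ 2) = y * (302.4 * u ^ 2) := by ring
        _ ≤ y * u ^ 14 := mul_le_mul_of_nonneg_left (by nlinarith [sq_nonneg u]) hy0
        _ ≤ 1 := t2
    have hm2 : ‖SR ((p : ℝ) / q + θ) A1 A2 x H - ee (θ * x) * SR ((p : ℝ) / q) A1 A2 x H‖ ≤ H / (16 * u) := by
      refine hm.trans ?_
      calc ((Rg A1 A2 x H).card : ℝ) * (2 * Real.pi * |θ| * H) ≤ (u * H) * (1 / (16 * u ^ 2)) :=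
            mul_le_mul hcard hth (by positivity) (mul_nonneg hu0.le hH0)
        _ = H / (16 * u) := by
            field_simp
    have hlast : u ^ 9015 ≤ H / (16 * u) := by
      rw [le_div_iff₀ (by positivity)]
      calc u ^ 9015 * (16 * u) = 16 * u ^ 9016 := by
            rw [show u ^ 9016 = u ^ 9015 * u from pow_succ u 9015]
            ring
        _ ≤ u * u ^ 9016 := mul_le_mul_of_nonneg_right (by linarith) (pow_pos hu0 9016).le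
        _ = u ^ 9017 := by rw [← pow_succ']
        _ ≤ u ^ 9740 := pow_le_pow_right₀ hu4 (by norm_num)
        _ ≤ H := h5
    rw [e2]
    have e3 : SR ((p : ℝ) / q + θ) A1 A2 x H - (((H : ℝ) / q * (Real.log A2 - Real.log A1) : ℝ) : ℂ) * ee (θ * x) =
        (SR ((p : ℝ) / q + θ) A1 A2 x H - ee (θ * x) * SR ((p : ℝ) / q) A1 A2 x H) +
        ee (θ * x) * (SR ((p : ℝ) / q) A1 A2 x H - (((H : ℝ) / q * (Real.log A2 - Real.log A1) : ℝ) : ℂ)) := by ring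
    rw [e3]
    refine (norm_add_le _ _).trans ?_
    rw [norm_mul, norm_ee, one_mul]
    have e4 : (H : ℝ) / (8 * u) = H / (16 * u) + H / (16 * u) := by
      rw [← add_div, div_eq_div_iff (by positivity) (by positivity)]
      ring
    rw [e4]
    exact add_le_add hm2 (hb2.trans hlast)

end Pool.Agent.Lib.H21T
end

-- from Lib.H21T.Z6A
section

/-!
# Chunk Z6A (M): the model on the major arcs
-/

namespace Pool.Agent.Lib.H21T

open Finset Pool.Agent.SZW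

/-- `p0 = round (q0 α)` for the `q0` of `Maj`; divide `p0`, `q0` by their gcd; `θ = α - p / q = (q0 α - p0) / q0`. -/
theorem z6_maj {u α : ℝ} (hu : 1 ≤ u) (h : Maj u α) : ∃ (q : ℕ) (p : ℤ) (θ : ℝ), 1 ≤ q ∧ (q : ℝ) ≤ u ^ 131 ∧ IsCoprime p (q : ℤ) ∧
    α = (p : ℝ) / q + θ ∧ |θ| * u ^ 9754 ≤ 1 := by
  obtain ⟨q0, hq1, hq2, hq3⟩ := h
  have hu0 : (0 : ℝ) < u := by linarith
  have hq0 : (0 : ℝ) < q0 := by exact_mod_cast hq1
  have hq0' : (1 : ℝ) ≤ q0 := by exact_mod_cast hq1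
  set p0 : ℤ := round ((q0 : ℝ) * α) with hp0
  obtain ⟨g, p, q, hg, hcop, hpe, hqe⟩ : ∃ (g : ℕ) (p : ℤ) (q : ℕ), 1 ≤ g ∧ IsCoprime p (q : ℤ) ∧
      p0 = p * g ∧ q0 = q * g := by
    have hgpos : 0 < Int.gcd p0 (q0 : ℤ) := Int.gcd_pos_of_ne_zero_right _ (by omega)
    obtain ⟨a, b, hab, ha, hb⟩ := Int.exists_gcd_one hgpos
    have hgZ : (0 : ℤ) < ((Int.gcd p0 (q0 : ℤ) : ℕ) : ℤ) := by exact_mod_cast hgpos
    have hb0 : 0 < b := by
      by_contra hcon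
      have h1 : b * ((Int.gcd p0 (q0 : ℤ) : ℕ) : ℤ) ≤ 0 :=
        mul_nonpos_of_nonpos_of_nonneg (not_lt.1 hcon) hgZ.le
      have h2 : (0 : ℤ) < q0 := by omega
      rw [← hb] at h1
      omega
    obtain ⟨b', hb'⟩ := Int.eq_ofNat_of_zero_le hb0.le
    refine ⟨Int.gcd p0 (q0 : ℤ), a, b', hgpos, ?_, ha, ?_⟩
    · rw [Int.isCoprime_iff_gcd_eq_one, ← hb']
      exact hab
    · rw [hb'] at hb
      exact_mod_cast hb
  have hqpos : 1 ≤ q := by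
    rcases Nat.eq_zero_or_pos q with h0 | h0
    · rw [h0, zero_mul] at hqe
      omega
    · exact h0
  have hqR : (0 : ℝ) < q := by exact_mod_cast hqpos
  have hgR : (0 : ℝ) < g := by exact_mod_cast hg
  have hqeR : (q0 : ℝ) = q * g := by exact_mod_cast hqe
  have hpeR : (p0 : ℝ) = p * g := by exact_mod_cast hpe
  refine ⟨q, p, α - (p : ℝ) / q, hqpos, ?_, hcop, by ring, ?_⟩
  · have h1 : (q : ℝ) ≤ q0 := by
      have h2 : q ≤ q0 := by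
        rw [hqe]
        exact Nat.le_mul_of_pos_right _ hg
      exact_mod_cast h2
    linarith
  · have h1 : α - (p : ℝ) / q = ((q0 : ℝ) * α - p0) / q0 := by
      rw [hqeR, hpeR]
      field_simp
    have h2 : |α - (p : ℝ) / q| ≤ nn ((q0 : ℝ) * α) := by
      rw [h1, abs_div, abs_of_pos hq0]
      unfold nn
      rw [← hp0]
      exact div_le_self (abs_nonneg _) hq0'
    exact (mul_le_mul_of_nonneg_right h2 (by positivity)).trans hq3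

/-- `m6` with `β = p / q`, `L = max 0 (..)` of `z2`, `ε = 24 / A1`, `B = u ^ 2` (`m1_g`, `z3_div`: `x + H ≤ u ^ 20003`; `1 + log Q ≤ u`), then `m4`: error at most
`H * u ^ 2 (24 u ^ (-9999) + 6 π u ^ (-14)) + u * u * u ^ 131 ≤ H / (8 u)`. -/
theorem z6_model : ∃ U0 : ℝ, 1 ≤ U0 ∧ ∀ u : ℝ, U0 ≤ u → ∀ (Q A1 A2 B1 B2 x H q : ℕ) (p : ℤ) (θ : ℝ), 1 ≤ Q → (Q : ℝ) ≤ u → u ^ 9999 ≤ A1 →
    A1 ≤ B1 → A1 ≤ A2 → A2 ≤ 2 * A1 → B1 ≤ B2 → B2 ≤ 2 * B1 → ((A1 * B1 : ℕ) : ℝ) ≤ u ^ 20000 → A1 * B1 ≤ 2 * x → x ≤ 4 * (A1 * B1) →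
    u ^ 9740 ≤ H → (H : ℝ) ≤ 3 * u ^ 9740 → 1 ≤ q → (q : ℝ) ≤ u ^ 131 → IsCoprime p (q : ℤ) → |θ| * u ^ 9754 ≤ 1 →
    ‖∑ m ∈ Ico x (x + H), (Mbox Q A1 A2 B1 B2 m : ℂ) * ee (((p : ℝ) / q + θ) * m) -
      (((if q ≤ Q then (H : ℝ) / q else 0) *
        max 0 (Real.log (min A2 (x / B1 + 1) : ℕ) - Real.log (max A1 (x / B2 + 1) : ℕ)) : ℝ) : ℂ) * ee (θ * x)‖ ≤ H / (8 * u) := by
  obtain ⟨U1, hU1, hdiv⟩ := z3_div
  refine ⟨max U1 16, le_trans hU1 (le_max_left _ _), ?_⟩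
  intro u hu Q A1 A2 B1 B2 x H q p θ hQ hQu hA1 hAB hA2 hA2' hB2 hB2' hABu hx1 hx2 hH1 hH2 hq1 hq2
    hpq hθ
  have hu1 : U1 ≤ u := (le_max_left _ _).trans hu
  have hu16 : (16 : ℝ) ≤ u := (le_max_right _ _).trans hu
  have hu0 : (0 : ℝ) < u := by linarith
  have hone : (1 : ℝ) ≤ u := by linarith
  have hpw : ∀ {i j : ℕ}, i ≤ j → u ^ i ≤ u ^ j := fun hij => pow_le_pow_right₀ hone hij
  have hpp : ∀ i : ℕ, (0 : ℝ) < u ^ i := fun i => pow_pos hu0 i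
  have hA16 : (16 : ℝ) ≤ A1 := by
    have h1 : u ^ 1 ≤ u ^ 9999 := hpw (by norm_num)
    rw [pow_one] at h1
    linarith
  have hA8 : 8 ≤ A1 := by
    have h1 : (8 : ℝ) ≤ A1 := by linarith
    exact_mod_cast h1
  have hA0 : (0 : ℝ) < A1 := by linarith
  have hH3 : H ≤ 3 * A1 := by
    have h1 : u ^ 9740 ≤ u ^ 9999 := hpw (by norm_num)
    have h2 : (H : ℝ) ≤ 3 * A1 := by linarith
    exact_mod_cast h2
  have hxpos : 1 ≤ x := by
    have h1 : 1 ≤ A1 * B1 := Nat.one_le_iff_ne_zero.mpr (by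
      have : 0 < A1 * B1 := Nat.mul_pos (by omega) (by omega)
      omega)
    omega
  set L : ℝ := max 0 (Real.log (min A2 (x / B1 + 1) : ℕ) - Real.log (max A1 (x / B2 + 1) : ℕ))
    with hLdef
  have hL0 : 0 ≤ L := le_max_left _ _
  have hL1 : L ≤ 1 := by
    rw [hLdef]
    refine max_le (by norm_num) ?_
    have h1 : Real.log ((min A2 (x / B1 + 1) : ℕ) : ℝ) ≤ Real.log (2 * A1) := by
      refine Real.log_le_log ?_ ?_
      · have h2 : 0 < min A2 (x / B1 + 1) := lt_min (by omega) (Nat.succ_pos _)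
        exact_mod_cast h2
      · have h2 : min A2 (x / B1 + 1) ≤ 2 * A1 := (min_le_left _ _).trans hA2'
        exact_mod_cast h2
    have h3 : Real.log A1 ≤ Real.log ((max A1 (x / B2 + 1) : ℕ) : ℝ) := by
      refine Real.log_le_log hA0 ?_
      have h4 : A1 ≤ max A1 (x / B2 + 1) := le_max_left _ _
      exact_mod_cast h4
    have h5 : Real.log (2 * (A1 : ℝ)) = Real.log 2 + Real.log A1 :=
      Real.log_mul (by norm_num) (by linarith)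
    have h6 : Real.log 2 ≤ 1 := by
      have := Real.log_two_lt_d9
      linarith
    linarith
  have hLabs : |L| ≤ 1 := by rw [abs_of_nonneg hL0]; exact hL1
  have hlog : 1 + Real.log Q ≤ u := by
    have hQ0 : (0 : ℝ) < Q := by exact_mod_cast hQ
    have h1 := Real.log_le_sub_one_of_pos hQ0
    linarith
  have hlog0 : 0 ≤ 1 + Real.log Q := by
    have hQ1 : (1 : ℝ) ≤ Q := by exact_mod_cast hQ
    have := Real.log_nonneg hQ1
    linarith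
  have hl : ∀ m, x ≤ m → m < x + H → |lbox A1 A2 B1 B2 m - L| ≤ 24 / (A1 : ℝ) := fun m h1 h2 =>
    z2 A1 A2 B1 B2 x H m hA8 hAB hA2 hB2 hB2' hx1 hH3 h1 h2
  have hg : ∀ m, x ≤ m → m < x + H → |gQ Q m| ≤ u ^ 2 := by
    intro m h1 h2
    have hm1 : 1 ≤ m := by omega
    have h3 := m1_g Q m hQ hm1
    have h4 : (m : ℝ) ≤ u ^ 20003 := by
      have h5 : (m : ℝ) ≤ x + H := by exact_mod_cast h2.le
      have h6 : (x : ℝ) ≤ 4 * u ^ 20000 := by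
        have h7 : (x : ℝ) ≤ 4 * ((A1 * B1 : ℕ) : ℝ) := by exact_mod_cast hx2
        linarith
      have h8 : u ^ 9740 ≤ u ^ 20000 := hpw (by norm_num)
      have h9 : u ^ 20003 = u ^ 20000 * u ^ 3 := by rw [← pow_add]
      have h10 : (7 : ℝ) ≤ u ^ 3 := by
        have h11 : u ^ 1 ≤ u ^ 3 := hpw (by norm_num)
        rw [pow_one] at h11
        linarith
      have h12 : u ^ 20000 * 7 ≤ u ^ 20000 * u ^ 3 := mul_le_mul_of_nonneg_left h10 (hpp _).le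
      rw [h9]
      linarith
    have h5 := hdiv u hu1 m hm1 h4
    have h6 : (m.divisors.card : ℝ) ≤ u := by
      have h7 : (m.divisors.card : ℝ) ≤ ((⌊u⌋₊ : ℕ) : ℝ) := by exact_mod_cast h5
      exact h7.trans (Nat.floor_le hu0.le)
    calc |gQ Q m| ≤ m.divisors.card * (1 + Real.log Q) := h3
      _ ≤ u * u := mul_le_mul h6 hlog hlog0 hu0.le
      _ = u ^ 2 := by ring
  have hm6 := m6 x H ((p : ℝ) / q) θ L (24 / (A1 : ℝ)) (u ^ 2) (lbox A1 A2 B1 B2) (gQ Q) hLabs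
    (by positivity) (by positivity) hl hg
  have hm4 := m4 x H Q q p hQ hq1 hpq
  set S1 : ℂ := ∑ m ∈ Ico x (x + H), (Mbox Q A1 A2 B1 B2 m : ℂ) * ee (((p : ℝ) / q + θ) * m)
    with hS1
  set S2 : ℂ := ∑ m ∈ Ico x (x + H), (gQ Q m : ℂ) * ee ((p : ℝ) / q * m) with hS2
  set m0 : ℝ := if q ≤ Q then (H : ℝ) / q else 0 with hm0
  have hm6' : ‖S1 - (L : ℂ) * ee (θ * x) * S2‖ ≤
      H * u ^ 2 * (24 / (A1 : ℝ) + 2 * Real.pi * |θ| * H) := hm6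
  have hsplit : S1 - ((m0 * L : ℝ) : ℂ) * ee (θ * x) =
      (S1 - (L : ℂ) * ee (θ * x) * S2) + (L : ℂ) * ee (θ * x) * (S2 - (m0 : ℂ)) := by
    push_cast
    ring
  have hQ1 : (1 : ℝ) ≤ Q := by exact_mod_cast hQ
  have h133 : (Q : ℝ) * (1 + Real.log Q) * q ≤ u ^ 133 := by
    have h1 : (Q : ℝ) * (1 + Real.log Q) ≤ u * u := mul_le_mul hQu hlog hlog0 hu0.le
    calc (Q : ℝ) * (1 + Real.log Q) * q ≤ (u * u) * u ^ 131 :=
          mul_le_mul h1 hq2 (Nat.cast_nonneg _) (by positivity)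
      _ = u ^ 133 := by ring
  have hsec : ‖(L : ℂ) * ee (θ * x) * (S2 - (m0 : ℂ))‖ ≤ u ^ 133 := by
    rw [norm_mul, norm_mul, norm_ee, mul_one, Complex.norm_real, Real.norm_eq_abs]
    calc |L| * ‖S2 - (m0 : ℂ)‖ ≤ 1 * u ^ 133 :=
          mul_le_mul hLabs (hm4.trans h133) (norm_nonneg _) (by norm_num)
      _ = u ^ 133 := one_mul _
  have hA14 : 24 / (A1 : ℝ) ≤ 24 / u ^ 14 := by
    have h1 : u ^ 14 ≤ u ^ 9999 := hpw (by norm_num)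
    exact div_le_div_of_nonneg_left (by norm_num) (hpp 14) (h1.trans hA1)
  have hθH : |θ| * u ^ 9740 ≤ 1 / u ^ 14 := by
    rw [le_div_iff₀ (hpp 14), mul_assoc, ← pow_add]
    exact hθ
  have hπ : 2 * Real.pi * |θ| * H ≤ 20 / u ^ 14 := by
    have hpi : Real.pi ≤ 3.15 := Real.pi_lt_d2.le
    have h1 : |θ| * H ≤ 3 * (1 / u ^ 14) := by
      have h2 : |θ| * H ≤ |θ| * (3 * u ^ 9740) := mul_le_mul_of_nonneg_left hH2 (abs_nonneg _)
      have h3 : |θ| * (3 * u ^ 9740) = 3 * (|θ| * u ^ 9740) := by ring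
      rw [h3] at h2
      linarith
    have h0 : 0 ≤ |θ| * (H : ℝ) := by positivity
    have h4 : 0 ≤ 1 / u ^ 14 := by positivity
    calc 2 * Real.pi * |θ| * H = (2 * Real.pi) * (|θ| * H) := by ring
      _ ≤ 6.3 * (3 * (1 / u ^ 14)) := mul_le_mul (by linarith) h1 h0 (by norm_num)
      _ = 18.9 * (1 / u ^ 14) := by ring
      _ ≤ 20 * (1 / u ^ 14) := by
          exact mul_le_mul_of_nonneg_right (by norm_num) h4
      _ = 20 / u ^ 14 := by ring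
  have hHpos : (0 : ℝ) < H := lt_of_lt_of_le (hpp 9740) hH1
  have hfirst : (H : ℝ) * u ^ 2 * (24 / (A1 : ℝ) + 2 * Real.pi * |θ| * H) ≤ H / (16 * u) := by
    have h1 : 24 / (A1 : ℝ) + 2 * Real.pi * |θ| * H ≤ 44 / u ^ 14 := by
      have h2 : 24 / u ^ 14 + 20 / u ^ 14 = 44 / u ^ 14 := by ring
      linarith
    have h3 : (H : ℝ) * u ^ 2 * (24 / (A1 : ℝ) + 2 * Real.pi * |θ| * H) ≤
        H * u ^ 2 * (44 / u ^ 14) := mul_le_mul_of_nonneg_left h1 (by positivity)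
    refine h3.trans ?_
    rw [div_eq_mul_one_div (H : ℝ) (16 * u), mul_assoc]
    refine mul_le_mul_of_nonneg_left ?_ hHpos.le
    have h4 : u ^ 2 * (44 / u ^ 14) = 44 / u ^ 12 := by
      field_simp
    rw [h4, div_le_div_iff₀ (hpp 12) (by positivity)]
    have h5 : u ^ 12 = u * u ^ 11 := by ring
    have h6 : (704 : ℝ) ≤ u ^ 11 := by
      have h7 : (16 : ℝ) ^ 11 ≤ u ^ 11 := pow_le_pow_left₀ (by norm_num) hu16 11
      have h8 : (704 : ℝ) ≤ 16 ^ 11 := by norm_num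
      linarith
    have h9 : u * 704 ≤ u * u ^ 11 := mul_le_mul_of_nonneg_left h6 hu0.le
    rw [h5]
    linarith
  have hsecond : u ^ 133 ≤ H / (16 * u) := by
    rw [le_div_iff₀ (by positivity)]
    have h1 : u ^ 133 * (16 * u) = 16 * u ^ 134 := by ring
    have h2 : 16 * u ^ 134 ≤ u * u ^ 134 := mul_le_mul_of_nonneg_right hu16 (hpp 134).le
    have h3 : u * u ^ 134 = u ^ 135 := by ring
    have h4 : u ^ 135 ≤ u ^ 9740 := hpw (by norm_num)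
    linarith
  rw [hsplit]
  refine (norm_add_le _ _).trans ?_
  have hfin : (H : ℝ) / (16 * u) + H / (16 * u) = H / (8 * u) := by
    field_simp
    norm_num
  have h1 := hm6'.trans hfirst
  have h2 := hsec.trans hsecond
  linarith

end Pool.Agent.Lib.H21T
end

-- from Lib.H21T.Z6
section

/-!
# Chunk Z6 (M): major arcs
-/

namespace Pool.Agent.Lib.H21T

open Finset Pool.Agent.SZW

/-- The final inequality. -/
theorem z6_fin {u h : ℝ} (hu : 64 ≤ u) (hh : 64 * u ≤ h) : h / (8 * u) + 8 + h / (8 * u) ≤ h / u := by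
  have hu0 : 0 < u := by linarith
  have e : h / u - (h / (8 * u) + h / (8 * u)) = 3 / 4 * (h / u) := by
    field_simp
    ring
  have h1 : 64 ≤ h / u := by
    rw [le_div_iff₀ hu0]
    exact hh
  linarith

/-- `2 (H / B + 1) (H / A + 1) ≤ 8` if `H ≤ A ≤ B`. -/
theorem z6_err {A B H : ℝ} (hA : 0 < A) (hAB : A ≤ B) (hH : H ≤ A) (h0 : 0 ≤ H) : 2 * ((H / B + 1) * (H / A + 1)) ≤ 8 := by
  have hB : 0 < B := lt_of_lt_of_le hA hAB
  have h1 : H / A ≤ 1 := by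
    rw [div_le_iff₀ hA]
    linarith
  have h2 : H / B ≤ 1 := by
    rw [div_le_iff₀ hB]
    linarith
  have h3 : 0 ≤ H / A := by positivity
  have h4 : 0 ≤ H / B := by positivity
  nlinarith

/-- The position: if `x < A1 B1 / 2` then the interval is below `A1 B1`. -/
theorem z6_low {P A1 B1 x H : ℝ} (hP : 6 ≤ P) (hA : P ≤ A1) (hB : P ≤ B1) (hx : 2 * x < A1 * B1) (hH : H ≤ 3 * P) : x + H ≤ A1 * B1 := by
  have h1 : P * P ≤ A1 * B1 := mul_le_mul hA hB (by linarith) (by linarith)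
  nlinarith

theorem z6_size {u P R A B : ℝ} (hu : 1 ≤ u) (hR : R = u ^ 2 * (P * P)) (hP : 0 < P) (hA : P ≤ A) (hAB : A * B ≤ R) : A * B ≤ u ^ 2 * A ^ 2 := by
  have h1 : P * P ≤ A * A := mul_le_mul hA hA hP.le (by linarith)
  have h2 : u ^ 2 * (P * P) ≤ u ^ 2 * (A * A) := mul_le_mul_of_nonneg_left h1 (by positivity)
  calc A * B ≤ u ^ 2 * (P * P) := by rw [← hR]; exact hAB
    _ ≤ u ^ 2 * (A * A) := h2
    _ = u ^ 2 * A ^ 2 := by rw [pow_two A]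

theorem z6_sqrt {Q A B : ℝ} (hA : 0 ≤ A) (hQ : 0 ≤ Q) (hAB : A ≤ B) (h : A * B ≤ Q * Q) : A ≤ Q := by
  by_contra hcon
  have h1 : Q < A := not_le.1 hcon
  have h2 : Q * Q < A * A := mul_self_lt_mul_self hQ h1
  have h3 : A * A ≤ A * B := mul_le_mul_of_nonneg_left hAB hA
  linarith

/-- The logarithmic length is at most 1. -/
theorem z6_len {A1 A2 a b : ℕ} (hA : 1 ≤ A1) (h2 : A2 ≤ 2 * A1) (ha : A1 ≤ a) (hb : b ≤ A2) (hb0 : 1 ≤ b) :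
    max 0 (Real.log (b : ℕ) - Real.log (a : ℕ)) ≤ 1 := by
  have hA' : (0 : ℝ) < A1 := by exact_mod_cast hA
  have hb' : (0 : ℝ) < b := by exact_mod_cast hb0
  have h1 : Real.log (b : ℕ) ≤ Real.log (2 * A1) := by
    refine Real.log_le_log hb' ?_
    exact_mod_cast hb.trans h2
  have h3 : Real.log (A1 : ℕ) ≤ Real.log (a : ℕ) := by
    refine Real.log_le_log hA' ?_
    exact_mod_cast ha
  have h4 : Real.log (2 * A1) = Real.log 2 + Real.log A1 := Real.log_mul (by norm_num) hA'.ne'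
  have h5 : Real.log 2 ≤ 1 := by
    have := Real.log_two_lt_d9
    linarith
  exact max_le zero_le_one (by linarith)

/-- If `2 x < A1 B1` then `x + H ≤ A1 B1` and everything vanishes (`z0_low`); if `x ≥ A2 B2` too (`z0_high`). Otherwise `z6_maj`, `z1` (error at most `2 * 2 * 2`), `z5` with `A = A1` and the modified ends (`A1 ^ 2 ≤ 2 x`,
`A1 ≤ u ^ 10000`, `x ≤ 4 A1 B1 ≤ 4 u ^ 2 A1 ^ 2`), `z6_model`; the two main terms agree for `q ≤ Q`, and for `q > Q` the main term of `z5` is at most `H / q ≤ H / Q` (`max 0 (..) ≤ log 2 ≤ 1`). -/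
theorem z6 : ∃ U0 : ℝ, 1 ≤ U0 ∧ ∀ u : ℝ, U0 ≤ u → ∀ (Q A1 A2 B1 B2 x H : ℕ) (α : ℝ), 1 ≤ Q → (Q : ℝ) ≤ u → u ^ 9999 ≤ A1 →
    A1 ≤ B1 → A1 ≤ A2 → A2 ≤ 2 * A1 → B1 ≤ B2 → B2 ≤ 2 * B1 → ((A1 * B1 : ℕ) : ℝ) ≤ u ^ 20000 →
    u ^ 9740 ≤ H → (H : ℝ) ≤ 3 * u ^ 9740 → Maj u α →
    ‖∑ m ∈ Ico x (x + H), ((dbox A1 A2 B1 B2 m : ℂ) - (Mbox Q A1 A2 B1 B2 m : ℂ)) * ee (α * m)‖ ≤ H * (1 / Q + 1 / u) := by
  obtain ⟨Ua, _, ha⟩ := z6_model
  obtain ⟨Ub, _, hb⟩ := z5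
  refine ⟨max (max Ua Ub) 64, le_max_of_le_right (by norm_num), ?_⟩
  intro u hu Q A1 A2 B1 B2 x H α hQ hQu hA hAB hA12 hA2 hB12 hB2 hABu hH1 hH2 hmaj
  have hua : Ua ≤ u := ((le_max_left _ _).trans (le_max_left _ _)).trans hu
  have hub : Ub ≤ u := ((le_max_right _ _).trans (le_max_left _ _)).trans hu
  have hu64 : (64 : ℝ) ≤ u := (le_max_right _ _).trans hu
  have hu1 : (1 : ℝ) ≤ u := by linarith
  have hu0 : (0 : ℝ) < u := by linarith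
  obtain ⟨q, p, θ, hq1, hq2, hcop, hα, hθ⟩ := z6_maj hu1 hmaj
  have hp1 : 64 * u ≤ u ^ 9740 := by
    have h1 : u ^ 2 ≤ u ^ 9740 := pow_le_pow_right₀ hu1 (by norm_num)
    have h2 : 64 * u ≤ u ^ 2 := by nlinarith
    exact h2.trans h1
  have hp2 : 3 * u ^ 9740 ≤ u ^ 9999 := by
    have h1 : u ^ 9741 ≤ u ^ 9999 := pow_le_pow_right₀ hu1 (by norm_num)
    have h2 : u ^ 9741 = u * u ^ 9740 := pow_succ' u 9740
    have h3 : 3 * u ^ 9740 ≤ u * u ^ 9740 := mul_le_mul_of_nonneg_right (by linarith) (by positivity)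
    rw [← h2] at h3
    exact h3.trans h1
  have hp3 : u ^ 20000 = u ^ 2 * (u ^ 9999 * u ^ 9999) := by rw [← pow_add, ← pow_add]
  have hp4 : u ^ 20000 = u ^ 10000 * u ^ 10000 := by rw [← pow_add]
  have hP0 : 0 < u ^ 9999 := by positivity
  have hQ0 : 0 ≤ u ^ 10000 := by positivity
  have hP6 : 6 ≤ u ^ 9999 := by linarith
  have hABr : (A1 : ℝ) ≤ B1 := by exact_mod_cast hAB
  have hA0 : (0 : ℝ) < A1 := lt_of_lt_of_le hP0 hA
  have hA1n : 1 ≤ A1 := by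
    have : 0 < A1 := by exact_mod_cast hA0
    exact this
  have hB1n : 1 ≤ B1 := hA1n.trans hAB
  have hHA : (H : ℝ) ≤ A1 := (hH2.trans hp2).trans hA
  have hzero : (∀ m ∈ Ico x (x + H), dbox A1 A2 B1 B2 m = 0 ∧ lbox A1 A2 B1 B2 m = 0) →
      ‖∑ m ∈ Ico x (x + H), ((dbox A1 A2 B1 B2 m : ℂ) - (Mbox Q A1 A2 B1 B2 m : ℂ)) * ee (α * m)‖ ≤ H * (1 / Q + 1 / u) := by
    intro h
    have h1 : ∑ m ∈ Ico x (x + H), ((dbox A1 A2 B1 B2 m : ℂ) - (Mbox Q A1 A2 B1 B2 m : ℂ)) * ee (α * m) = 0 := by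
      refine Finset.sum_eq_zero fun m hm => ?_
      obtain ⟨h2, h3⟩ := h m hm
      unfold Mbox
      rw [h2, h3, zero_mul]
      push_cast
      ring
    rw [h1, norm_zero]
    positivity
  by_cases hlow : 2 * x < A1 * B1
  · refine hzero fun m hm => ?_
    rw [mem_Ico] at hm
    refine z0_low hA1n hB1n ?_
    have h1 : (x : ℝ) + H ≤ A1 * B1 :=
      z6_low hP6 hA (hA.trans hABr) (by exact_mod_cast hlow) (by linarith)
    have h2 : x + H ≤ A1 * B1 := by exact_mod_cast h1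
    omega
  by_cases hhigh : A2 * B2 ≤ x
  · refine hzero fun m hm => ?_
    rw [mem_Ico] at hm
    exact z0_high (hA1n.trans hA12) (hB1n.trans hB12) (hhigh.trans hm.1)
  have hx1 : A1 * B1 ≤ 2 * x := not_lt.1 hlow
  have hx2 : x ≤ 4 * (A1 * B1) := by
    have h1 : A2 * B2 ≤ (2 * A1) * (2 * B1) := Nat.mul_le_mul hA2 hB2
    have h2 : (2 * A1) * (2 * B1) = 4 * (A1 * B1) := by ring
    have h3 : x < A2 * B2 := not_le.1 hhigh
    omega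
  have hxpos : 1 ≤ x := by
    have : 1 ≤ A1 * B1 := Nat.mul_pos hA1n hB1n
    omega
  have hABu' : (A1 : ℝ) * B1 ≤ u ^ 20000 := by exact_mod_cast hABu
  have hAu : (A1 : ℝ) ≤ u ^ 10000 := z6_sqrt hA0.le hQ0 hABr (by rw [← hp4]; exact hABu')
  have hA2x : A1 ^ 2 ≤ 2 * x := by
    have h1 : A1 ^ 2 ≤ A1 * B1 := by
      rw [pow_two]
      exact Nat.mul_le_mul_left _ hAB
    exact h1.trans hx1
  have hx3 : (x : ℝ) ≤ 4 * u ^ 2 * (A1 : ℝ) ^ 2 := by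
    have h1 : (x : ℝ) ≤ 4 * ((A1 : ℝ) * B1) := by exact_mod_cast hx2
    have h2 := z6_size hu1 hp3 hP0 hA hABu'
    calc (x : ℝ) ≤ 4 * ((A1 : ℝ) * B1) := h1
      _ ≤ 4 * (u ^ 2 * (A1 : ℝ) ^ 2) := mul_le_mul_of_nonneg_left h2 (by norm_num)
      _ = 4 * u ^ 2 * (A1 : ℝ) ^ 2 := by rw [mul_assoc]
  subst hα
  have e1 := ha u hua Q A1 A2 B1 B2 x H q p θ hQ hQu hA hAB hA12 hA2 hB12 hB2 hABu hx1 hx2 hH1 hH2 hq1 hq2 hcop hθ
  have hmin : min A2 (x / B1 + 1) ≠ 0 :=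
    Nat.one_le_iff_ne_zero.1 (le_min (hA1n.trans hA12) (Nat.le_add_left 1 (x / B1)))
  have e2 := hb u hub A1 (max A1 (x / B2 + 1)) (min A2 (x / B1 + 1)) x H q p θ hA hAu (le_max_left _ _)
    ((min_le_left _ _).trans hA2) hA2x hx3 hH1 hH2 hq1 hq2 hcop hθ hmin
  have e3 := z1 A1 A2 B1 B2 x H ((p : ℝ) / q + θ) hA1n hB1n hB12 hxpos
  have e4 : 2 * (((H : ℝ) / B1 + 1) * ((H : ℝ) / A1 + 1)) ≤ 8 := z6_err hA0 hABr hHA (Nat.cast_nonneg H)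
  have e5 := z6_fin hu64 (hp1.trans hH1)
  have elen := z6_len hA1n hA2 (le_max_left A1 (x / B2 + 1)) (min_le_left A2 (x / B1 + 1)) (Nat.one_le_iff_ne_zero.2 hmin)
  set lgt : ℝ := max 0 (Real.log (min A2 (x / B1 + 1) : ℕ) - Real.log (max A1 (x / B2 + 1) : ℕ)) with hlgt
  have hl0 : 0 ≤ lgt := le_max_left _ _
  have hqr : (0 : ℝ) < q := by exact_mod_cast hq1
  have hQr : (0 : ℝ) < Q := by exact_mod_cast hQ
  have e7 : ‖(((H : ℝ) / q * lgt : ℝ) : ℂ) * ee (θ * x) -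
      (((if q ≤ Q then (H : ℝ) / q else 0) * lgt : ℝ) : ℂ) * ee (θ * x)‖ ≤ H / Q := by
    rw [← sub_mul, norm_mul, norm_ee, mul_one, ← Complex.ofReal_sub, Complex.norm_real, Real.norm_eq_abs]
    by_cases hqQ : q ≤ Q
    · rw [if_pos hqQ, sub_self, abs_zero]
      positivity
    · rw [if_neg hqQ, zero_mul, sub_zero, abs_of_nonneg (by positivity)]
      have hQq : (Q : ℝ) ≤ q := by exact_mod_cast (not_le.1 hqQ).le
      have h1 : (H : ℝ) / q ≤ H / Q := div_le_div_of_nonneg_left (Nat.cast_nonneg H) hQr hQq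
      have h2 : (H : ℝ) / q * lgt ≤ H / q * 1 := mul_le_mul_of_nonneg_left elen (by positivity)
      linarith
  have e6 : ∑ m ∈ Ico x (x + H), ((dbox A1 A2 B1 B2 m : ℂ) - (Mbox Q A1 A2 B1 B2 m : ℂ)) * ee (((p : ℝ) / q + θ) * m) =
      (∑ m ∈ Ico x (x + H), (dbox A1 A2 B1 B2 m : ℂ) * ee (((p : ℝ) / q + θ) * m) -
        SR ((p : ℝ) / q + θ) (max A1 (x / B2 + 1)) (min A2 (x / B1 + 1)) x H) +
      (SR ((p : ℝ) / q + θ) (max A1 (x / B2 + 1)) (min A2 (x / B1 + 1)) x H -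
        (((H : ℝ) / q * lgt : ℝ) : ℂ) * ee (θ * x)) +
      ((((H : ℝ) / q * lgt : ℝ) : ℂ) * ee (θ * x) -
        (((if q ≤ Q then (H : ℝ) / q else 0) * lgt : ℝ) : ℂ) * ee (θ * x)) -
      (∑ m ∈ Ico x (x + H), (Mbox Q A1 A2 B1 B2 m : ℂ) * ee (((p : ℝ) / q + θ) * m) -
        (((if q ≤ Q then (H : ℝ) / q else 0) * lgt : ℝ) : ℂ) * ee (θ * x)) := by
    have h1 : ∑ m ∈ Ico x (x + H), ((dbox A1 A2 B1 B2 m : ℂ) - (Mbox Q A1 A2 B1 B2 m : ℂ)) * ee (((p : ℝ) / q + θ) * m) =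
        ∑ m ∈ Ico x (x + H), (dbox A1 A2 B1 B2 m : ℂ) * ee (((p : ℝ) / q + θ) * m) -
        ∑ m ∈ Ico x (x + H), (Mbox Q A1 A2 B1 B2 m : ℂ) * ee (((p : ℝ) / q + θ) * m) := by
      rw [← Finset.sum_sub_distrib]
      refine Finset.sum_congr rfl fun m _ => ?_
      ring
    rw [h1]
    abel
  rw [e6]
  have e8 : (H : ℝ) * (1 / Q + 1 / u) = H / Q + H / u := by ring
  rw [e8]
  have t1 := norm_sub_le
    ((∑ m ∈ Ico x (x + H), (dbox A1 A2 B1 B2 m : ℂ) * ee (((p : ℝ) / q + θ) * m) -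
        SR ((p : ℝ) / q + θ) (max A1 (x / B2 + 1)) (min A2 (x / B1 + 1)) x H) +
      (SR ((p : ℝ) / q + θ) (max A1 (x / B2 + 1)) (min A2 (x / B1 + 1)) x H -
        (((H : ℝ) / q * lgt : ℝ) : ℂ) * ee (θ * x)) +
      ((((H : ℝ) / q * lgt : ℝ) : ℂ) * ee (θ * x) -
        (((if q ≤ Q then (H : ℝ) / q else 0) * lgt : ℝ) : ℂ) * ee (θ * x)))
    (∑ m ∈ Ico x (x + H), (Mbox Q A1 A2 B1 B2 m : ℂ) * ee (((p : ℝ) / q + θ) * m) -
        (((if q ≤ Q then (H : ℝ) / q else 0) * lgt : ℝ) : ℂ) * ee (θ * x))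
  have t2 := norm_add₃_le
    (a := ∑ m ∈ Ico x (x + H), (dbox A1 A2 B1 B2 m : ℂ) * ee (((p : ℝ) / q + θ) * m) -
        SR ((p : ℝ) / q + θ) (max A1 (x / B2 + 1)) (min A2 (x / B1 + 1)) x H)
    (b := SR ((p : ℝ) / q + θ) (max A1 (x / B2 + 1)) (min A2 (x / B1 + 1)) x H -
        (((H : ℝ) / q * lgt : ℝ) : ℂ) * ee (θ * x))
    (c := (((H : ℝ) / q * lgt : ℝ) : ℂ) * ee (θ * x) -
        (((if q ≤ Q then (H : ℝ) / q else 0) * lgt : ℝ) : ℂ) * ee (θ * x))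
  linarith

end Pool.Agent.Lib.H21T
end

-- from Lib.H21T.Main
section

/-!
# The main theorem (parts D3 + D4)
-/

namespace Pool.Agent.Lib.H21T

open Finset Pool.Agent.SZW

theorem main_u : ∃ U0 : ℝ, 1 ≤ U0 ∧ ∀ u : ℝ, U0 ≤ u → ∀ (Q A1 A2 B1 B2 x H : ℕ) (α : ℝ), 1 ≤ Q → (Q : ℝ) ≤ u → u ^ 9999 ≤ A1 → u ^ 9999 ≤ B1 →
    A1 ≤ A2 → A2 ≤ 2 * A1 → B1 ≤ B2 → B2 ≤ 2 * B1 → ((A1 * B1 : ℕ) : ℝ) ≤ u ^ 20000 → u ^ 9999 ≤ H →
    ‖∑ m ∈ Ico x (x + H), ((dbox A1 A2 B1 B2 m : ℂ) - (Mbox Q A1 A2 B1 B2 m : ℂ)) * ee (α * m)‖ ≤ H * (1 / Q + 1 / u) := by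
  obtain ⟨U1, hU1, h1⟩ := z4
  obtain ⟨U2, hU2, h2⟩ := z6
  refine ⟨max U1 U2, le_max_of_le_left hU1, fun u hu => ?_⟩
  have hu1 : U1 ≤ u := (le_max_left _ _).trans hu
  have hu2 : U2 ≤ u := (le_max_right _ _).trans hu
  have hu0 : 1 ≤ u := hU1.trans hu1
  have hu' : 0 < u := by linarith
  have key : ∀ (Q A1 A2 B1 B2 x H : ℕ) (α : ℝ), 1 ≤ Q → (Q : ℝ) ≤ u → u ^ 9999 ≤ A1 →
      A1 ≤ B1 → A1 ≤ A2 → A2 ≤ 2 * A1 → B1 ≤ B2 → B2 ≤ 2 * B1 → ((A1 * B1 : ℕ) : ℝ) ≤ u ^ 20000 → u ^ 9999 ≤ H →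
      ‖∑ m ∈ Ico x (x + H), ((dbox A1 A2 B1 B2 m : ℂ) - (Mbox Q A1 A2 B1 B2 m : ℂ)) * ee (α * m)‖ ≤ H * (1 / Q + 1 / u) := by
    intro Q A1 A2 B1 B2 x H α hQ1 hQu hA hAB hA1 hA2 hB1 hB2 hN hH
    have hQ0 : (0 : ℝ) < Q := by exact_mod_cast hQ1
    have hc : 0 ≤ 1 / (Q : ℝ) + 1 / u := by positivity
    have hpow : ∀ n : ℕ, 1 ≤ u ^ n := fun n => one_le_pow₀ hu0
    by_cases hM : Maj u α
    · have h3 := z7 (fun m => ((dbox A1 A2 B1 B2 m : ℂ) - (Mbox Q A1 A2 B1 B2 m : ℂ)) * ee (α * m)) (u ^ 9740) (1 / (Q : ℝ) + 1 / u)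
        (hpow _) hc (fun y k hk1 hk2 => by
          have h4 := h2 u hu2 Q A1 A2 B1 B2 y k α hQ1 hQu hA hAB hA1 hA2 hB1 hB2 hN hk1 hk2 hM
          rwa [mul_comm] at h4) x H ((pow_le_pow_right₀ hu0 (by norm_num)).trans hH)
      rwa [mul_comm] at h3
    · have h3 := z7 (fun m => ((dbox A1 A2 B1 B2 m : ℂ) - (Mbox Q A1 A2 B1 B2 m : ℂ)) * ee (α * m)) (u ^ 9999) (1 / u)
        (hpow _) (by positivity) (fun y k hk1 hk2 => by
          have h4 := h1 u hu1 Q A1 A2 B1 B2 y k α hQ1 hQu hA hAB hA1 hA2 hB1 hB2 hN hk1 hk2 hM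
          have h5 : (k : ℝ) / u = 1 / u * k := by ring
          rwa [h5] at h4) x H hH
      refine h3.trans ?_
      rw [mul_comm]
      exact mul_le_mul_of_nonneg_left (by linarith [show (0 : ℝ) ≤ 1 / Q by positivity]) (Nat.cast_nonneg _)
  intro Q A1 A2 B1 B2 x H α hQ1 hQu hA hB hA1 hA2 hB1 hB2 hN hH
  rcases le_total A1 B1 with hAB | hAB
  · exact key Q A1 A2 B1 B2 x H α hQ1 hQu hA hAB hA1 hA2 hB1 hB2 hN hH
  · have h3 := key Q B1 B2 A1 A2 x H α hQ1 hQu hB hAB hB1 hB2 hA1 hA2 (by rwa [mul_comm]) hH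
    refine le_trans (le_of_eq ?_) h3
    congr 1
    refine Finset.sum_congr rfl fun m _ => ?_
    rw [dbox_symm, Mbox_symm]

/-- **D3 + D4.** The divisor function of a box minus its model has no large exponential sums on intervals of length at least `N ^ (1 / 2 - κ)`. -/
theorem D34 : ∃ κ : ℝ, 0 < κ ∧ κ ≤ 1 / 2 ∧ ∀ ε : ℝ, 0 < ε → ε ≤ κ → ∃ N0 : ℕ, ∀ N : ℕ, N0 ≤ N → ∀ A1 A2 B1 B2 : ℕ,
    (N : ℝ) ^ (1 / 2 - κ) ≤ A1 → (N : ℝ) ^ (1 / 2 - κ) ≤ B1 → A1 ≤ A2 → A2 ≤ 2 * A1 → B1 ≤ B2 → B2 ≤ 2 * B1 → A1 * B1 ≤ N →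
    ∀ (x H : ℕ) (α : ℝ), (N : ℝ) ^ (1 / 2 - κ) ≤ H →
    ‖∑ m ∈ Ico x (x + H), ((dbox A1 A2 B1 B2 m : ℂ) - (Mbox ⌊(N : ℝ) ^ ε⌋₊ A1 A2 B1 B2 m : ℂ)) * ee (α * m)‖ ≤
      H * (N : ℝ) ^ (-(ε / 2)) := by
  obtain ⟨U0, hU0, h⟩ := main_u
  refine ⟨1 / 20000, by norm_num, by norm_num, fun ε hε hεκ => ?_⟩
  obtain ⟨N1, hN1⟩ := exists_nat_ge (U0 ^ 20000)
  obtain ⟨N2, hN2⟩ := exists_nat_ge ((3 : ℝ) ^ (2 / ε))
  refine ⟨max (max N1 N2) 1, fun N hN A1 A2 B1 B2 hA hB hA1 hA2 hB1 hB2 hAB x H α hH => ?_⟩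
  have hNN1 : N1 ≤ N := (le_max_left _ _).trans ((le_max_left _ _).trans hN)
  have hNN2 : N2 ≤ N := (le_max_right _ _).trans ((le_max_left _ _).trans hN)
  have hNge : 1 ≤ N := (le_max_right _ _).trans hN
  have hNr : (1 : ℝ) ≤ N := by exact_mod_cast hNge
  have hN0 : (0 : ℝ) < N := by linarith
  set u : ℝ := (N : ℝ) ^ (1 / 20000 : ℝ) with hu
  have hu1 : 1 ≤ u := Real.one_le_rpow hNr (by norm_num)
  have hu0 : 0 < u := by linarith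
  have hpow : ∀ k : ℕ, u ^ k = (N : ℝ) ^ ((k : ℝ) / 20000) := by
    intro k
    rw [hu, ← Real.rpow_natCast, ← Real.rpow_mul hN0.le]
    congr 1
    ring
  have h9999 : u ^ 9999 = (N : ℝ) ^ ((1 : ℝ) / 2 - 1 / 20000) := by
    rw [hpow]
    congr 1
    norm_num
  have h20000 : u ^ 20000 = (N : ℝ) := by
    rw [hpow]
    norm_num
  have hUu : U0 ≤ u := by
    have h5 : U0 ^ 20000 ≤ u ^ 20000 := by
      rw [h20000]
      exact hN1.trans (by exact_mod_cast hNN1)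
    exact le_of_pow_le_pow_left₀ (by norm_num) hu0.le h5
  have hε1 : (N : ℝ) ^ ε ≤ u := Real.rpow_le_rpow_of_exponent_le hNr hεκ
  have hε2 : 1 ≤ (N : ℝ) ^ ε := Real.one_le_rpow hNr hε.le
  set Q : ℕ := ⌊(N : ℝ) ^ ε⌋₊ with hQ
  have hQ1 : 1 ≤ Q := Nat.le_floor (by simpa using hε2)
  have hQu : (Q : ℝ) ≤ u := (Nat.floor_le (by positivity)).trans hε1
  have hQ0 : (0 : ℝ) < Q := by exact_mod_cast hQ1
  have h6 := h u hUu Q A1 A2 B1 B2 x H α hQ1 hQu (by rw [h9999]; exact hA) (by rw [h9999]; exact hB) hA1 hA2 hB1 hB2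
    (by rw [h20000]; exact_mod_cast hAB) (by rw [h9999]; exact hH)
  refine h6.trans (mul_le_mul_of_nonneg_left ?_ (Nat.cast_nonneg _))
  have h7 : (N : ℝ) ^ ε ≤ 2 * Q := by
    have h8 : (N : ℝ) ^ ε < Q + 1 := Nat.lt_floor_add_one _
    have h9 : (1 : ℝ) ≤ Q := by exact_mod_cast hQ1
    linarith
  have hε0 : 0 < (N : ℝ) ^ ε := by positivity
  have h8 : 1 / (Q : ℝ) ≤ 2 / (N : ℝ) ^ ε := by
    rw [div_le_div_iff₀ hQ0 hε0]
    linarith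
  have h9 : 1 / u ≤ 1 / (N : ℝ) ^ ε := one_div_le_one_div_of_le hε0 hε1
  have h10 : 3 ≤ (N : ℝ) ^ (ε / 2) := by
    have h11 : (3 : ℝ) ^ (2 / ε) ≤ N := hN2.trans (by exact_mod_cast hNN2)
    have h12 := Real.rpow_le_rpow (by positivity) h11 (by positivity : 0 ≤ ε / 2)
    rw [← Real.rpow_mul (by norm_num)] at h12
    have h13 : 2 / ε * (ε / 2) = 1 := by field_simp
    rwa [h13, Real.rpow_one] at h12
  have h14 : (N : ℝ) ^ ε = (N : ℝ) ^ (ε / 2) * (N : ℝ) ^ (ε / 2) := by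
    rw [← Real.rpow_add hN0]
    congr 1
    ring
  have h15 : (N : ℝ) ^ (-(ε / 2)) = 1 / (N : ℝ) ^ (ε / 2) := by
    rw [Real.rpow_neg hN0.le, one_div]
  have h16 : 0 < (N : ℝ) ^ (ε / 2) := by positivity
  calc 1 / (Q : ℝ) + 1 / u ≤ 2 / (N : ℝ) ^ ε + 1 / (N : ℝ) ^ ε := add_le_add h8 h9
    _ = 3 / (N : ℝ) ^ ε := by ring
    _ ≤ (N : ℝ) ^ (-(ε / 2)) := by
      rw [h15, h14, div_le_div_iff₀ (by positivity) h16]
      nlinarith

end Pool.Agent.Lib.H21T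
end
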