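import Pool.Agent.Lib.H59M.M1.M002
import Pool.Agent.Lib.H59M.M1.M003
import Pool.Agent.Lib.H59M.M1.M006
import Pool.Agent.Lib.H59M.M1.M007
import Pool.Agent.Lib.H59M.M1.M009
import Pool.Agent.Lib.H59M.M1.M026
import Pool.Agent.Lib.H59M.M1.M028
import Pool.Agent.Lib.H59M.M1.M035
import Pool.Agent.Lib.H59M.M1.M041
import Pool.Agent.Lib.H59M.M1.M042

/-! Merged copies (to shorten the build) of Lib.H44W.M1, Lib.H44W.M3, Lib.H44W.W2, Lib.H44W.M4, Lib.H44W.M2, Lib.H44W.M7, Lib.H44W.M5, Lib.HUK.B10, Lib.HUK.B13, Lib.HUK.B15, Lib.HUK.B16, Lib.HUK.BFin. -/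

-- from Lib.H44W.M1
section
/-!
CHUNK M1 (M). Type I sums have the inverse property with polynomial loss, uniformly in their level (from class_two and type_one).
Hypothesis hone (proved in H81E): |TF n (psi A' al') W f g| <= 20 A' (1 + log n) n |ghat(th)| for some th.
Proof. Let I = Nat.log 2 (2n) + 1, so 2n < 2^I and I <= 2 (1 + log n) (1/log 2 < 1.45). For m in [2, 2n] the sum psi A al m splits
according to a in [2^i, 2^(i+1)), i < I (A <= n < 2^I by hA4, n^(1/4) <= n): psi A al m = sum_{i<I} psi_i m, psi_i m =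
sum over a in Ico (2^i) (2^(i+1)), a <= A, of [a | m] al a. TF is linear, so some i < I has n^2/(D I) <= |TF n psi_i W f g|; in
particular psi_i is not 0, so 2^i <= A. Put D1 = D I^2.
Case 1: D1^C <= 2^i. For m in [2,2n]: psi_i m = sum_{j<I} tII (2^i) (2^j) al' 1 m with al' a = al a if a <= A, else 0 (a | m, b = m/a lies
in [1,2n], hence in exactly one [2^j, 2^(j+1))). Some j < I has n^2/D1 <= |TF n (tII (2^i) (2^j) al' 1) W f g|. ClassTwo C with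
K = 2^i <= A <= n^(1/4), D1^C <= K, K^2 D1^C <= K^3 <= n^(3/4) <= n, D1 >= D >= 2 (divisor hypothesis: hdiv) gives n/D1^C <= |ghat|.
Case 2: 2^i < D1^C. psi_i = psi (2^(i+1)) al'' with al'' a = al a if 2^i <= a < 2^(i+1) and a <= A, else 0. hone: n^2/(D I) <=
20 * 2^(i+1) (1 + log n) n |ghat| <= 40 D1^C (1+log n) n |ghat|, so |ghat| >= n/(40 D I (1+log n) D1^C).
In both cases, with D2 = 80 D (1+log n)^2: D1 <= 4 D (1+log n)^2 <= D2 and 40 D I (1+log n) <= D2, so |ghat| >= n/D2^(C+1).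
(TF n F only depends on F at the points x + y in [2, 2n]: Finset.sum_congr.)
-/
namespace Pool.Agent.H44W
open Finset

theorem m1_pigeon (I : ℕ) (hI : 1 ≤ I) (z : ℕ → ℂ) (x : ℝ) (h : x ≤ ‖∑ i ∈ range I, z i‖) :
    ∃ i < I, x / I ≤ ‖z i‖ := by
  by_contra hcon
  push Not at hcon
  have hI' : (0:ℝ) < I := by exact_mod_cast hI
  have h1 : ‖∑ i ∈ range I, z i‖ < x := by
    calc ‖∑ i ∈ range I, z i‖ ≤ ∑ i ∈ range I, ‖z i‖ := norm_sum_le _ _
      _ < ∑ _i ∈ range I, x / I := by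
          apply Finset.sum_lt_sum_of_nonempty
          · exact ⟨0, mem_range.2 (by omega)⟩
          · intro i hi
            exact hcon i (mem_range.1 hi)
      _ = x := by
          rw [Finset.sum_const, card_range, nsmul_eq_mul]
          field_simp
  linarith

theorem m1_dyadic (I : ℕ) (F : ℕ → ℂ) :
    ∑ j ∈ range I, ∑ b ∈ Ico (2 ^ j) (2 * 2 ^ j), F b = ∑ b ∈ Ico 1 (2 ^ I), F b := by
  induction I with
  | zero => simp
  | succ I ih =>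
    rw [Finset.sum_range_succ, ih, show 2 * 2 ^ I = 2 ^ (I + 1) by ring]
    exact Finset.sum_Ico_consecutive F Nat.one_le_two_pow (Nat.pow_le_pow_right (by norm_num) (by omega))

/-- the part of the coefficients with `Nat.log 2 a = i` -/
noncomputable def m1_al (A : ℕ) (al : ℕ → ℂ) (i a : ℕ) : ℂ :=
  if 1 ≤ a ∧ a ≤ A ∧ Nat.log 2 a = i then al a else 0

theorem m1_al_supp {A : ℕ} {al : ℕ → ℂ} {i a : ℕ} (h : m1_al A al i a ≠ 0) :
    1 ≤ a ∧ a ≤ A ∧ 2 ^ i ≤ a ∧ a < 2 ^ (i + 1) := by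
  unfold m1_al at h
  by_cases h1 : 1 ≤ a ∧ a ≤ A ∧ Nat.log 2 a = i
  · refine ⟨h1.1, h1.2.1, ?_, ?_⟩
    · rw [← h1.2.2]
      exact Nat.pow_log_le_self 2 (by omega)
    · rw [← h1.2.2]
      exact Nat.lt_pow_succ_log_self (by norm_num) a
  · rw [if_neg h1] at h
    exact absurd rfl h

theorem m1_split (A I : ℕ) (hAI : A < 2 ^ I) (al : ℕ → ℂ) (m : ℤ) :
    psi A al m = ∑ i ∈ range I, psi (2 ^ (i + 1)) (m1_al A al i) m := by
  have h1 : ∀ i ∈ range I, psi (2 ^ (i + 1)) (m1_al A al i) m =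
      ∑ a ∈ Icc 1 A, if (a:ℤ) ∣ m then m1_al A al i a else 0 := by
    intro i _
    unfold psi
    refine Finset.sum_congr_of_eq_on_inter ?_ ?_ ?_
    · intro a ha ha2
      by_contra h
      have h3 : m1_al A al i a ≠ 0 := by
        intro h0
        apply h
        rw [h0, ite_self]
      have := m1_al_supp h3
      exact ha2 (mem_Icc.2 ⟨this.1, this.2.1⟩)
    · intro a ha ha2
      by_contra h
      have h3 : m1_al A al i a ≠ 0 := by
        intro h0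
        apply h
        rw [h0, ite_self]
      have := m1_al_supp h3
      exact ha2 (mem_Icc.2 ⟨this.1, this.2.2.2.le⟩)
    · intro a _ _
      rfl
  rw [Finset.sum_congr rfl h1, Finset.sum_comm]
  unfold psi
  refine Finset.sum_congr rfl fun a ha => ?_
  rw [mem_Icc] at ha
  by_cases h : (a:ℤ) ∣ m
  · simp only [if_pos h]
    have h2 : ∀ i ∈ range I, m1_al A al i a = if Nat.log 2 a = i then al a else 0 := by
      intro i _
      unfold m1_al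
      by_cases h3 : Nat.log 2 a = i
      · rw [if_pos h3, if_pos ⟨ha.1, ha.2, h3⟩]
      · rw [if_neg h3, if_neg fun h4 => h3 h4.2.2]
    rw [Finset.sum_congr rfl h2, Finset.sum_ite_eq, if_pos]
    rw [mem_range]
    exact Nat.log_lt_of_lt_pow (by omega) (by omega)
  · simp only [if_neg h]
    simp

theorem m1_tII (n A I i : ℕ) (hI : 2 * n < 2 ^ I) (al : ℕ → ℂ) (m : ℤ) (hm1 : 2 ≤ m)
    (hm2 : m ≤ 2 * n) :
    psi (2 ^ (i + 1)) (m1_al A al i) m =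
      ∑ j ∈ range I, tII (2 ^ i) (2 ^ j) (m1_al A al i) (fun _ => 1) m := by
  obtain ⟨k, rfl⟩ := Int.eq_ofNat_of_zero_le (show 0 ≤ m by omega)
  have hk1 : 1 ≤ k := by omega
  have hk2 : k < 2 ^ I := by omega
  unfold tII
  rw [Finset.sum_comm]
  have h1 : ∀ a ∈ Ico (2 ^ i) (2 * 2 ^ i), ∑ j ∈ range I, ∑ b ∈ Ico (2 ^ j) (2 * 2 ^ j),
      (if ((a * b : ℕ) : ℤ) = (k:ℤ) then m1_al A al i a * 1 else 0) =
      if (a:ℤ) ∣ (k:ℤ) then m1_al A al i a else 0 := by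
    intro a ha
    rw [mem_Ico] at ha
    have ha0 : 0 < a := lt_of_lt_of_le (by positivity) ha.1
    rw [m1_dyadic I (fun b => if ((a * b : ℕ) : ℤ) = (k:ℤ) then m1_al A al i a * 1 else 0)]
    by_cases h : (a:ℤ) ∣ (k:ℤ)
    · rw [if_pos h]
      have h' : a ∣ k := by exact_mod_cast h
      obtain ⟨b, hb⟩ := h'
      have hb1 : 1 ≤ b := by
        rcases Nat.eq_zero_or_pos b with h0 | h0
        · rw [h0, mul_zero] at hb
          omega
        · exact h0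
      have hb2 : b ≤ k := by rw [hb]; exact Nat.le_mul_of_pos_left b ha0
      rw [Finset.sum_eq_single b]
      · rw [if_pos (by rw [hb]), mul_one]
      · intro b' _ hb'
        rw [if_neg]
        intro h2
        apply hb'
        have h3 : a * b' = a * b := by rw [← hb]; exact_mod_cast h2
        exact Nat.eq_of_mul_eq_mul_left ha0 h3
      · intro h2
        exact absurd (mem_Ico.2 ⟨hb1, by omega⟩) h2
    · rw [if_neg h]
      refine Finset.sum_eq_zero fun b _ => ?_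
      rw [if_neg]
      intro h2
      apply h
      exact ⟨b, by rw [← h2]; push_cast; ring⟩
  rw [Finset.sum_congr rfl h1]
  unfold psi
  refine Finset.sum_congr_of_eq_on_inter ?_ ?_ ?_
  · intro a ha ha2
    by_contra h
    have h3 : m1_al A al i a ≠ 0 := by
      intro h0
      apply h
      rw [h0, ite_self]
    have := m1_al_supp h3
    refine ha2 (mem_Ico.2 ⟨this.2.2.1, ?_⟩)
    have h4 : 2 * 2 ^ i = 2 ^ (i + 1) := by ring
    omega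
  · intro a ha ha2
    by_contra h
    have h3 : m1_al A al i a ≠ 0 := by
      intro h0
      apply h
      rw [h0, ite_self]
    have := m1_al_supp h3
    exact ha2 (mem_Icc.2 ⟨this.1, this.2.2.2.le⟩)
  · intro a _ _
    rfl

theorem psi_cf (C : ℕ) (h2 : ClassTwo C)
    (hone : ∀ (n A : ℕ) (al : ℕ → ℂ), 1 ≤ n → (∀ a, ‖al a‖ ≤ 1) → ∀ W f g : ℤ → ℂ,
      (∀ x, ‖W x‖ ≤ 1) → (∀ x, ‖f x‖ ≤ 1) → (∀ x, ‖g x‖ ≤ 1) →
      ∃ th : ℝ, ‖TF n (psi A al) W f g‖ ≤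
        20 * A * (1 + Real.log n) * n * ‖∑ z ∈ Icc (1:ℤ) n, g z * ee (th * z)‖)
    (n A : ℕ) (hn : 2 ≤ n) (hA4 : (A:ℝ) ≤ (n:ℝ) ^ (1 / 4 : ℝ)) (D : ℝ) (hD : 2 ≤ D)
    (hdiv : ∀ m : ℕ, 1 ≤ m → m ≤ 2 * n → (m.divisors.card : ℝ) ≤ D)
    (al : ℕ → ℂ) (hal : ∀ a, ‖al a‖ ≤ 1) (W f g : ℤ → ℂ) (hW : ∀ x, ‖W x‖ ≤ 1)
    (hf : ∀ x, ‖f x‖ ≤ 1) (hg : ∀ x, ‖g x‖ ≤ 1)
    (hT : (n:ℝ) ^ 2 / D ≤ ‖TF n (psi A al) W f g‖) :
    ∃ th : ℝ, (n:ℝ) / (80 * D * (1 + Real.log n) ^ 2) ^ (C + 1) ≤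
      ‖∑ z ∈ Icc (1:ℤ) n, g z * ee (th * z)‖ := by
  obtain ⟨I, hId⟩ : ∃ I : ℕ, I = Nat.log 2 (2 * n) + 1 := ⟨_, rfl⟩
  have hI1 : 1 ≤ I := by omega
  have hI2 : 2 * n < 2 ^ I := by rw [hId]; exact Nat.lt_pow_succ_log_self (by norm_num) _
  have hnR : (2:ℝ) ≤ n := by exact_mod_cast hn
  have hn0 : (0:ℝ) < n := by linarith
  have hlog : 0 ≤ Real.log n := Real.log_natCast_nonneg n
  have hI3 : (I:ℝ) ≤ 2 * (1 + Real.log n) := by
    have h1 : ((2:ℝ)) ^ (Nat.log 2 (2 * n)) ≤ 2 * n := by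
      have := Nat.pow_log_le_self 2 (show 2 * n ≠ 0 by omega)
      exact_mod_cast this
    have h2 := Real.log_le_log (by positivity) h1
    rw [Real.log_pow, Real.log_mul (by norm_num) hn0.ne'] at h2
    have h3 := Real.log_two_gt_d9
    have h4 : ((Nat.log 2 (2 * n) : ℕ):ℝ) ≤ 1 + 2 * Real.log n := by
      by_contra h5
      push Not at h5
      have h6 : (1 + 2 * Real.log n) * Real.log 2 < (Nat.log 2 (2 * n) : ℕ) * Real.log 2 :=
        mul_lt_mul_of_pos_right h5 (by linarith)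
      have h7 : Real.log n * 1 ≤ Real.log n * (2 * Real.log 2) :=
        mul_le_mul_of_nonneg_left (by linarith) hlog
      nlinarith
    rw [hId]
    push_cast
    linarith
  have hA0 : (A:ℝ) ≤ n := by
    refine hA4.trans ?_
    calc (n:ℝ) ^ (1 / 4 : ℝ) ≤ (n:ℝ) ^ (1:ℝ) :=
          Real.rpow_le_rpow_of_exponent_le (by linarith) (by norm_num)
      _ = n := Real.rpow_one _
  have hAn : A ≤ n := by exact_mod_cast hA0
  have hIR : (1:ℝ) ≤ I := by exact_mod_cast hI1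
  have hD0 : 0 < D := by linarith
  -- first pigeonhole
  have e1 : TF n (psi A al) W f g = ∑ i ∈ range I, TF n (psi (2 ^ (i + 1)) (m1_al A al i)) W f g := by
    rw [← Pool.Agent.H81E.TF_sum]
    exact Pool.Agent.H81E.TF_congr n W f g fun m _ _ => m1_split A I (by omega) al m
  rw [e1] at hT
  obtain ⟨i, hi, hTi⟩ := m1_pigeon I hI1 _ _ hT
  have hpos : 0 < (n:ℝ) ^ 2 / D / I := by positivity
  have hali : ∀ a, ‖m1_al A al i a‖ ≤ 1 := by
    intro a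
    unfold m1_al
    by_cases h : 1 ≤ a ∧ a ≤ A ∧ Nat.log 2 a = i
    · rw [if_pos h]; exact hal a
    · rw [if_neg h, norm_zero]; exact zero_le_one
  have hiA : 2 ^ i ≤ A := by
    by_contra hcon
    have h0 : ∀ a, m1_al A al i a = 0 := by
      intro a
      by_contra h
      have := m1_al_supp h
      omega
    have h1 : TF n (psi (2 ^ (i + 1)) (m1_al A al i)) W f g = 0 := by
      unfold TF psi
      simp only [h0]
      simp
    rw [h1, norm_zero] at hTi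
    linarith
  obtain ⟨D1, hD1⟩ : ∃ D1, D1 = D * (I:ℝ) ^ 2 := ⟨_, rfl⟩
  obtain ⟨D2, hD2⟩ : ∃ D2, D2 = 80 * D * (1 + Real.log n) ^ 2 := ⟨_, rfl⟩
  have hDD1 : D ≤ D1 := by
    rw [hD1]
    have : (1:ℝ) ≤ (I:ℝ) ^ 2 := one_le_pow₀ hIR
    nlinarith
  have hI4 : (I:ℝ) ^ 2 ≤ 4 * (1 + Real.log n) ^ 2 := by
    have := pow_le_pow_left₀ (by positivity) hI3 2
    calc (I:ℝ) ^ 2 ≤ (2 * (1 + Real.log n)) ^ 2 := this
      _ = 4 * (1 + Real.log n) ^ 2 := by ring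
  have hD12 : D1 ≤ D2 := by
    rw [hD1, hD2]
    have h1 : D * (I:ℝ) ^ 2 ≤ D * (4 * (1 + Real.log n) ^ 2) := mul_le_mul_of_nonneg_left hI4 hD0.le
    have h2 : 0 ≤ D * (1 + Real.log n) ^ 2 := by positivity
    linarith
  have hD21 : 1 ≤ D2 := by linarith
  have hD1p : 0 < D1 := by linarith
  have hD2p : 0 < D2 := by linarith
  rw [← hD2]
  by_cases hc : D1 ^ C ≤ ((2 ^ i : ℕ):ℝ)
  · -- case 1
    have e2 : TF n (psi (2 ^ (i + 1)) (m1_al A al i)) W f g =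
        ∑ j ∈ range I, TF n (tII (2 ^ i) (2 ^ j) (m1_al A al i) (fun _ => 1)) W f g := by
      rw [← Pool.Agent.H81E.TF_sum]
      exact Pool.Agent.H81E.TF_congr n W f g fun m h1 h2 => m1_tII n A I i hI2 al m h1 h2
    rw [e2] at hTi
    obtain ⟨j, hj, hTj⟩ := m1_pigeon I hI1 _ _ hTi
    have e3 : (n:ℝ) ^ 2 / D / I / I = (n:ℝ) ^ 2 / D1 := by
      rw [hD1]
      field_simp
    rw [e3] at hTj
    have hK1 : (1:ℝ) ≤ ((2 ^ i : ℕ):ℝ) := by exact_mod_cast Nat.one_le_two_pow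
    have hK4 : ((2 ^ i : ℕ):ℝ) ≤ (n:ℝ) ^ (1 / 4 : ℝ) := le_trans (by exact_mod_cast hiA) hA4
    have hK : ((2 ^ i : ℕ):ℝ) ^ 4 ≤ n := by
      have h1 := pow_le_pow_left₀ (by positivity) hK4 4
      have h2 : ((n:ℝ) ^ (1 / 4 : ℝ)) ^ 4 = n := by
        rw [← Real.rpow_natCast, ← Real.rpow_mul hn0.le]
        norm_num
      linarith
    have hK3 : ((2 ^ i : ℕ):ℝ) ^ 2 * D1 ^ C ≤ n := by
      calc ((2 ^ i : ℕ):ℝ) ^ 2 * D1 ^ C ≤ ((2 ^ i : ℕ):ℝ) ^ 2 * ((2 ^ i : ℕ):ℝ) :=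
            mul_le_mul_of_nonneg_left hc (by positivity)
        _ = ((2 ^ i : ℕ):ℝ) ^ 3 := by ring
        _ ≤ ((2 ^ i : ℕ):ℝ) ^ 4 := pow_le_pow_right₀ hK1 (by norm_num)
        _ ≤ n := hK
    obtain ⟨th, hth⟩ := h2 n (2 ^ i) (2 ^ j) D1 (by linarith) (fun m h1 h2 => (hdiv m h1 h2).trans hDD1)
      hc hK3 (m1_al A al i) (fun _ => 1) hali (by simp) W f g hW hf hg hTj
    refine ⟨th, le_trans ?_ hth⟩
    apply div_le_div_of_nonneg_left hn0.le (by positivity)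
    calc D1 ^ C ≤ D2 ^ C := pow_le_pow_left₀ hD1p.le hD12 C
      _ ≤ D2 ^ (C + 1) := pow_le_pow_right₀ hD21 (by omega)
  · -- case 2
    push Not at hc
    obtain ⟨th, hth⟩ := hone n (2 ^ (i + 1)) (m1_al A al i) (by omega) hali W f g hW hf hg
    refine ⟨th, ?_⟩
    obtain ⟨G, hG⟩ : ∃ G, G = ‖∑ z ∈ Icc (1:ℤ) n, g z * ee (th * z)‖ := ⟨_, rfl⟩
    rw [← hG] at hth ⊢
    have hG0 : 0 ≤ G := by rw [hG]; exact norm_nonneg _
    have h1 : (n:ℝ) ^ 2 / D / I ≤ 40 * D1 ^ C * (1 + Real.log n) * n * G := by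
      refine hTi.trans (hth.trans ?_)
      have h2 : ((2 ^ (i + 1) : ℕ):ℝ) ≤ 2 * D1 ^ C := by
        have : ((2 ^ (i + 1) : ℕ):ℝ) = 2 * ((2 ^ i : ℕ):ℝ) := by push_cast; ring
        rw [this]
        linarith
      calc 20 * ((2 ^ (i + 1) : ℕ):ℝ) * (1 + Real.log n) * n * G ≤
          20 * (2 * D1 ^ C) * (1 + Real.log n) * n * G := by gcongr
        _ = 40 * D1 ^ C * (1 + Real.log n) * n * G := by ring
    have h3 : (n:ℝ) ^ 2 ≤ (40 * D * I * (1 + Real.log n) * D1 ^ C) * n * G := by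
      rw [div_div, div_le_iff₀ (by positivity)] at h1
      linarith
    have h4 : (n:ℝ) ≤ (40 * D * I * (1 + Real.log n) * D1 ^ C) * G := by
      have h5 : (n:ℝ) * n ≤ n * ((40 * D * I * (1 + Real.log n) * D1 ^ C) * G) := by nlinarith
      exact le_of_mul_le_mul_left h5 hn0
    have h6 : 40 * D * I * (1 + Real.log n) ≤ D2 := by
      rw [hD2]
      have h7 : 40 * D * I * (1 + Real.log n) ≤ 40 * D * (2 * (1 + Real.log n)) * (1 + Real.log n) := by gcongr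
      refine h7.trans (le_of_eq (by ring))
    have h8 : (40 * D * I * (1 + Real.log n)) * D1 ^ C ≤ D2 ^ (C + 1) := by
      rw [pow_succ, mul_comm (D2 ^ C)]
      apply mul_le_mul h6 (pow_le_pow_left₀ hD1p.le hD12 C) (by positivity) hD2p.le
    rw [div_le_iff₀ (by positivity)]
    calc (n:ℝ) ≤ (40 * D * I * (1 + Real.log n) * D1 ^ C) * G := h4
      _ ≤ D2 ^ (C + 1) * G := mul_le_mul_of_nonneg_right h8 hG0
      _ = G * D2 ^ (C + 1) := mul_comm _ _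

end Pool.Agent.H44W
end

-- from Lib.H44W.M3
section
/-!
CHUNK M3 (M). The factor lbox of the model: expansion in additive characters.
lboxr q .. m is lbox .. (m/q) written with log m - log q (so it makes sense for all m).
(a) lboxr_eq: for k >= 1, q >= 1: lboxr q A1 A2 B1 B2 (q k) = lbox A1 A2 B1 B2 k (Real.log_mul).
(b) lbox_bd: 0 <= lbox <= 1 if A2 <= 2 A1, 1 <= A1 (min (log A2) .. - max (log A1) .. <= log A2 - log A1 <= log 2 <= 1; for A2 = 0 use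
log 0 = 0). The same for lboxr.
(c) lbox_empty: if A2 < A1 (or B2 < B1) then lbox = 0, and lboxr = 0: (min (log A2) s2 - max (log A1) s1 <= log A2 - log A1 <= 0; for
B2 < B1, B2 >= 1: s2 - s1 = log B2 - log B1 <= 0; if B2 = 0, log B2 = 0 <= log B1.)
(d) lboxr_rep: put a1 = log A1 <= a2 = log A2, s1(m) = log m - log q - log B2 <= s2(m) = log m - log q - log B1 and cl s = min a2 (max a1 s).
Then max 0 (min a2 s2 - max a1 s1) = cl s2 - cl s1 (case distinction; a1 <= a2, s1 <= s2). cl s2(m) and cl s1(m) are increasing in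
m >= 1 with values in [a1, a2], so sum over j < 2n of |F (j+3) - F (j+2)| <= 2 (a2 - a1) <= 2 log 2 <= 2 (telescoping, Finset.sum_range_sub).
Rep.bv (H81E): Rep n (|F 2| + (3 + log n) * 2) F, and |F 2| <= 1: 1 + 2 (3 + log n) <= 7 (1 + log n).
-/
namespace Pool.Agent.H44W
open Finset

/-- lbox at m/q. -/
noncomputable def lboxr (q A1 A2 B1 B2 : ℕ) (m : ℤ) : ℝ :=
  max 0 (min (Real.log A2) (Real.log m - Real.log q - Real.log B1) -
    max (Real.log A1) (Real.log m - Real.log q - Real.log B2))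

theorem lboxr_eq (q A1 A2 B1 B2 k : ℕ) (hq : 1 ≤ q) (hk : 1 ≤ k) :
    lboxr q A1 A2 B1 B2 ((q:ℤ) * k) = Pool.Agent.Lib.H21T.lbox A1 A2 B1 B2 k := by
  unfold lboxr Pool.Agent.Lib.H21T.lbox
  have hq0 : (q : ℝ) ≠ 0 := by
    have : (1 : ℝ) ≤ q := by exact_mod_cast hq
    positivity
  have hk0 : (k : ℝ) ≠ 0 := by
    have : (1 : ℝ) ≤ k := by exact_mod_cast hk
    positivity
  have h1 : Real.log (((q : ℤ) * k : ℤ) : ℝ) - Real.log q = Real.log k := by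
    push_cast
    rw [Real.log_mul hq0 hk0]
    ring
  rw [h1]

theorem m3_logle (A B : ℕ) (hB : 1 ≤ B) (h : A ≤ B) : Real.log A ≤ Real.log B := by
  rcases Nat.eq_zero_or_pos A with hA | hA
  · rw [hA, Nat.cast_zero, Real.log_zero]
    exact Real.log_nonneg (by exact_mod_cast hB)
  · exact Real.log_le_log (by exact_mod_cast hA) (by exact_mod_cast h)

theorem m3_two (A1 A2 : ℕ) (hA : 1 ≤ A1) (hA2 : A2 ≤ 2 * A1) : Real.log A2 - Real.log A1 ≤ 1 := by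
  have h1 := m3_logle A2 (2 * A1) (by omega) hA2
  have hA0 : (A1 : ℝ) ≠ 0 := by
    have : (1 : ℝ) ≤ A1 := by exact_mod_cast hA
    positivity
  have h2 : Real.log ((2 * A1 : ℕ) : ℝ) = Real.log 2 + Real.log A1 := by
    push_cast
    rw [Real.log_mul two_ne_zero hA0]
  have h3 : Real.log 2 < 0.6931471808 := Real.log_two_lt_d9
  rw [h2] at h1
  linarith

theorem m3_cl (a1 a2 s1 s2 : ℝ) (ha : a1 ≤ a2) (hs : s1 ≤ s2) :
    max 0 (min a2 s2 - max a1 s1) = min a2 (max a1 s2) - min a2 (max a1 s1) := by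
  rcases le_total s2 a1 with h1 | h1
  · rw [max_eq_left h1, max_eq_left (hs.trans h1), sub_self]
    refine max_eq_left ?_
    have := min_le_right a2 s2
    linarith
  · rw [max_eq_right h1]
    rcases le_total a2 s1 with h2 | h2
    · rw [max_eq_right (ha.trans h2), min_eq_left h2, min_eq_left (h2.trans hs), sub_self]
      exact max_eq_left (by linarith)
    · rw [min_eq_right (max_le ha h2)]
      refine max_eq_right (sub_nonneg.2 ?_)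
      exact le_min (max_le ha h2) (max_le h1 hs)

theorem m3_sum (G : ℕ → ℝ) (a1 a2 : ℝ) (hmono : ∀ j, G j ≤ G (j + 1)) (h1 : a1 ≤ G 0) (h2 : ∀ j, G j ≤ a2) (N : ℕ) :
    ∑ j ∈ range N, |G (j + 1) - G j| ≤ a2 - a1 := by
  have h3 : ∀ j ∈ range N, |G (j + 1) - G j| = G (j + 1) - G j := fun j _ => abs_of_nonneg (by linarith [hmono j])
  rw [sum_congr rfl h3, sum_range_sub]
  linarith [h2 N]

theorem lbox_bd (A1 A2 B1 B2 k : ℕ) (hA : 1 ≤ A1) (hA2 : A2 ≤ 2 * A1) :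
    0 ≤ Pool.Agent.Lib.H21T.lbox A1 A2 B1 B2 k ∧ Pool.Agent.Lib.H21T.lbox A1 A2 B1 B2 k ≤ 1 := by
  unfold Pool.Agent.Lib.H21T.lbox
  refine ⟨le_max_left _ _, max_le zero_le_one ?_⟩
  have h1 := m3_two A1 A2 hA hA2
  have h2 := min_le_left (Real.log A2) (Real.log k - Real.log B1)
  have h3 := le_max_left (Real.log A1) (Real.log k - Real.log B2)
  linarith

theorem lbox_empty (A1 A2 B1 B2 k : ℕ) (hA : 1 ≤ A1) (hB : 1 ≤ B1) (h : A2 < A1 ∨ B2 < B1) :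
    Pool.Agent.Lib.H21T.lbox A1 A2 B1 B2 k = 0 := by
  unfold Pool.Agent.Lib.H21T.lbox
  refine max_eq_left ?_
  rcases h with h | h
  · have h1 := m3_logle A2 A1 hA h.le
    have h2 := min_le_left (Real.log A2) (Real.log k - Real.log B1)
    have h3 := le_max_left (Real.log A1) (Real.log k - Real.log B2)
    linarith
  · have h1 := m3_logle B2 B1 hB h.le
    have h2 := min_le_right (Real.log A2) (Real.log k - Real.log B1)
    have h3 := le_max_right (Real.log A1) (Real.log k - Real.log B2)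
    linarith

theorem lboxr_rep (n q A1 A2 B1 B2 : ℕ) (hn : 1 ≤ n) (hq : 1 ≤ q) (hA : 1 ≤ A1) (hA1 : A1 ≤ A2)
    (hA2 : A2 ≤ 2 * A1) (hB : 1 ≤ B1) (hB1 : B1 ≤ B2) :
    Pool.Agent.H81E.Rep n (7 * (1 + Real.log n)) (fun m => ((lboxr q A1 A2 B1 B2 m : ℝ) : ℂ)) := by
  have ha : Real.log A1 ≤ Real.log A2 := m3_logle A1 A2 (hA.trans hA1) hA1
  have hb : Real.log B1 ≤ Real.log B2 := m3_logle B1 B2 (hB.trans hB1) hB1
  have h2 := m3_two A1 A2 hA hA2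
  have hcl : ∀ m : ℤ, lboxr q A1 A2 B1 B2 m =
      min (Real.log A2) (max (Real.log A1) (Real.log m - Real.log q - Real.log B1)) -
      min (Real.log A2) (max (Real.log A1) (Real.log m - Real.log q - Real.log B2)) := by
    intro m
    unfold lboxr
    exact m3_cl _ _ _ _ ha (by linarith)
  have hbd : ∀ m : ℤ, |lboxr q A1 A2 B1 B2 m| ≤ 1 := by
    intro m
    have h3 : 0 ≤ lboxr q A1 A2 B1 B2 m := le_max_left _ _
    rw [abs_of_nonneg h3, hcl]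
    have h4 := min_le_left (Real.log A2) (max (Real.log A1) (Real.log m - Real.log q - Real.log B1))
    have h5 : Real.log A1 ≤ min (Real.log A2) (max (Real.log A1) (Real.log m - Real.log q - Real.log B2)) :=
      le_min ha (le_max_left _ _)
    linarith
  have hv : ∀ B : ℕ, ∑ j ∈ range (2 * n),
      |min (Real.log A2) (max (Real.log A1) (Real.log (((j : ℤ) + 3 : ℤ) : ℝ) - Real.log q - Real.log B)) -
        min (Real.log A2) (max (Real.log A1) (Real.log (((j : ℤ) + 2 : ℤ) : ℝ) - Real.log q - Real.log B))| ≤ 1 := by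
    intro B
    have h3 := m3_sum (fun j : ℕ => min (Real.log A2) (max (Real.log A1) (Real.log (((j : ℤ) + 2 : ℤ) : ℝ) -
      Real.log q - Real.log B))) (Real.log A1) (Real.log A2) (by
        intro j
        have h4 : Real.log (((j : ℤ) + 2 : ℤ) : ℝ) ≤ Real.log ((((j + 1 : ℕ) : ℤ) + 2 : ℤ) : ℝ) := by
          refine Real.log_le_log ?_ ?_
          · push_cast
            positivity
          · push_cast
            linarith
        exact min_le_min le_rfl (max_le_max le_rfl (by linarith)))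
      (le_min ha (le_max_left _ _)) (fun j => min_le_left _ _) (2 * n)
    refine le_trans (le_of_eq (sum_congr rfl fun j _ => ?_)) (h3.trans h2)
    have e1 : ((j : ℤ) + 3 : ℤ) = (((j + 1 : ℕ) : ℤ) + 2 : ℤ) := by
      push_cast
      ring
    rw [e1]
  have hbv := Pool.Agent.H81E.Rep.bv n hn (fun m => ((lboxr q A1 A2 B1 B2 m : ℝ) : ℂ))
  refine hbv.mono ?_
  have hlog : 0 ≤ Real.log n := Real.log_nonneg (by exact_mod_cast hn)
  have h5 : ‖((lboxr q A1 A2 B1 B2 2 : ℝ) : ℂ)‖ ≤ 1 := by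
    rw [Complex.norm_real, Real.norm_eq_abs]
    exact hbd 2
  have h6 : ∑ j ∈ range (2 * n), ‖((lboxr q A1 A2 B1 B2 ((j : ℤ) + 3) : ℝ) : ℂ) -
      ((lboxr q A1 A2 B1 B2 ((j : ℤ) + 2) : ℝ) : ℂ)‖ ≤ 2 := by
    have h7 : ∀ j ∈ range (2 * n), ‖((lboxr q A1 A2 B1 B2 ((j : ℤ) + 3) : ℝ) : ℂ) -
        ((lboxr q A1 A2 B1 B2 ((j : ℤ) + 2) : ℝ) : ℂ)‖ ≤
        |min (Real.log A2) (max (Real.log A1) (Real.log (((j : ℤ) + 3 : ℤ) : ℝ) - Real.log q - Real.log B1)) -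
          min (Real.log A2) (max (Real.log A1) (Real.log (((j : ℤ) + 2 : ℤ) : ℝ) - Real.log q - Real.log B1))| +
        |min (Real.log A2) (max (Real.log A1) (Real.log (((j : ℤ) + 3 : ℤ) : ℝ) - Real.log q - Real.log B2)) -
          min (Real.log A2) (max (Real.log A1) (Real.log (((j : ℤ) + 2 : ℤ) : ℝ) - Real.log q - Real.log B2))| := by
      intro j _
      rw [← Complex.ofReal_sub, Complex.norm_real, Real.norm_eq_abs, hcl, hcl]
      generalize min (Real.log A2) (max (Real.log A1) (Real.log (((j : ℤ) + 3 : ℤ) : ℝ) - Real.log q - Real.log B1)) = w1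
      generalize min (Real.log A2) (max (Real.log A1) (Real.log (((j : ℤ) + 3 : ℤ) : ℝ) - Real.log q - Real.log B2)) = w2
      generalize min (Real.log A2) (max (Real.log A1) (Real.log (((j : ℤ) + 2 : ℤ) : ℝ) - Real.log q - Real.log B1)) = w3
      generalize min (Real.log A2) (max (Real.log A1) (Real.log (((j : ℤ) + 2 : ℤ) : ℝ) - Real.log q - Real.log B2)) = w4
      have e1 : w1 - w2 - (w3 - w4) = (w1 - w3) - (w2 - w4) := by ring
      rw [e1]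
      exact abs_sub _ _
    refine (sum_le_sum h7).trans ?_
    rw [sum_add_distrib]
    linarith [hv B1, hv B2]
  have h8 := mul_le_mul_of_nonneg_left h6 (by linarith : 0 ≤ 3 + Real.log n)
  linarith

end Pool.Agent.H44W
end

-- from Lib.H44W.W2
section
/-!
H44W: the model of the near-diagonal piece with cofactor q.
-/
namespace Pool.Agent.H44W
open Finset

/-- Model of pd q (Ico A1 A2) (Ico B1 B2). -/
noncomputable def Mq (Q A1 A2 B1 B2 q : ℕ) (m : ℤ) : ℂ :=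
  if (q:ℤ) ∣ m then ((Pool.Agent.Lib.H21T.Mbox Q A1 A2 B1 B2 (m / q).toNat : ℝ) : ℂ) else 0

end Pool.Agent.H44W
end

-- from Lib.H44W.M4
section
/-!
CHUNK M4 (M). The local bound (hX) for pd q - Mq from D34.
(a) pd_eq: for m >= 1, q >= 1: pd q (Ico A1 A2) (Ico B1 B2) m = dbox A1 A2 B1 B2 (m/q) if q | m, else 0 (the pairs (a,b) of integers >= 0;
m = q k: q a b = q k iff a b = k; card of the image under the cast N x N -> Z x Z).
(b) hX_of: the hypothesis h34 is the conclusion of H21T.D34 for N = 2n (with Q = floor((2n)^ep)). Let q >= 1.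
Case q A1 B1 > 2n: for m in [u, v), m <= 2n: if q | m then k = m/q < A1 B1 and dbox = 0 = lbox (H21T.z0_low, or directly): the sum is 0.
Case A2 < A1 or B2 < B1: dbox = 0 (empty Ico) and lbox = 0 (lbox_empty): the sum is 0.
Case q A1 B1 <= 2n, A1 <= A2, B1 <= B2: A1 B1 <= 2n = N. With m = q k the sum is the sum over k in Ico u' v', u' = ceil(u/q), v' = ceil(v/q), of
(dbox - Mbox)(k) ee((th q) k), v' - u' <= (v - u)/q + 1 <= 2l + 1. Let H0 = l (>= N^(1/2 - ka) by hl). Sum over Ico u' v' =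
sum over Ico u' (v' + l) - sum over Ico v' (v' + l): both intervals have length >= l >= N^(1/2-ka), so the norm is
<= ((v' - u' + l) + l) N^(-ep/2) <= (2l + 1 + 2l) N^(-ep/2) <= 5 l (2n)^(-ep/2) <= l (5 n^(-ep/2)).
-/
namespace Pool.Agent.H44W
open Finset

open Pool.Agent.Lib.H21T (dbox Mbox lbox)

theorem pd_eq (q A1 A2 B1 B2 : ℕ) (hq : 1 ≤ q) (m : ℤ) (hm : 1 ≤ m) :
    pd q (Ico (A1:ℤ) A2) (Ico (B1:ℤ) B2) m =
      if (q:ℤ) ∣ m then (Pool.Agent.Lib.H21T.dbox A1 A2 B1 B2 (m / q).toNat : ℂ) else 0 := by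
  unfold pd
  have hq0 : (0:ℤ) < q := by exact_mod_cast hq
  by_cases h : (q:ℤ) ∣ m
  · rw [if_pos h]
    obtain ⟨k, rfl⟩ := h
    have hk : 0 < k := by
      by_contra h0
      have : (q:ℤ) * k ≤ 0 := mul_nonpos_of_nonneg_of_nonpos hq0.le (not_lt.1 h0)
      omega
    rw [Int.mul_ediv_cancel_left k hq0.ne']
    congr 1
    unfold Pool.Agent.Lib.H21T.dbox
    symm
    refine Finset.card_bij (fun (p : ℕ × ℕ) _ => ((p.1:ℤ), (p.2:ℤ))) ?_ ?_ ?_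
    · intro p hp
      rw [mem_filter, mem_product, mem_Ico, mem_Ico] at hp
      rw [mem_filter, mem_product, mem_Ico, mem_Ico]
      refine ⟨⟨⟨Int.ofNat_le.2 hp.1.1.1, Int.ofNat_lt.2 hp.1.1.2⟩, Int.ofNat_le.2 hp.1.2.1, Int.ofNat_lt.2 hp.1.2.2⟩, ?_⟩
      have h2 : ((p.1 * p.2 : ℕ):ℤ) = k := by rw [hp.2]; omega
      push_cast at h2
      show (q:ℤ) * (p.1:ℤ) * (p.2:ℤ) = q * k
      rw [mul_assoc, h2]
    · intro p _ p' _ hpp
      have h1 : (p.1:ℤ) = p'.1 := congrArg Prod.fst hpp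
      have h2 : (p.2:ℤ) = p'.2 := congrArg Prod.snd hpp
      exact Prod.ext (by exact_mod_cast h1) (by exact_mod_cast h2)
    · intro p hp
      rw [mem_filter, mem_product, mem_Ico, mem_Ico] at hp
      obtain ⟨⟨⟨h1, h2⟩, h3, h4⟩, h5⟩ := hp
      have hp1 : 0 ≤ p.1 := le_trans (by positivity) h1
      have hp2 : 0 ≤ p.2 := le_trans (by positivity) h3
      obtain ⟨a, ha⟩ := Int.eq_ofNat_of_zero_le hp1
      obtain ⟨b, hb⟩ := Int.eq_ofNat_of_zero_le hp2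
      refine ⟨(a, b), ?_, Prod.ext ha.symm hb.symm⟩
      rw [mem_filter, mem_product, mem_Ico, mem_Ico]
      rw [ha] at h1 h2
      rw [hb] at h3 h4
      refine ⟨⟨⟨by exact_mod_cast h1, by exact_mod_cast h2⟩, by exact_mod_cast h3, by exact_mod_cast h4⟩, ?_⟩
      rw [ha, hb, mul_assoc] at h5
      have h6 : ((a:ℤ)) * b = k := mul_left_cancel₀ hq0.ne' h5
      have h7 : ((a * b : ℕ):ℤ) = k := by push_cast; exact h6
      show a * b = k.toNat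
      omega
  · rw [if_neg h]
    have : ((Ico (A1:ℤ) A2 ×ˢ Ico (B1:ℤ) B2).filter (fun p => (q:ℤ) * p.1 * p.2 = m)) = ∅ := by
      rw [Finset.filter_eq_empty_iff]
      intro p _ h1
      exact h ⟨p.1 * p.2, by rw [← h1, mul_assoc]⟩
    rw [this]
    simp

theorem m4_dbox_empty (A1 A2 B1 B2 k : ℕ) (h : A2 < A1 ∨ B2 < B1) : dbox A1 A2 B1 B2 k = 0 := by
  unfold Pool.Agent.Lib.H21T.dbox
  rw [Finset.card_eq_zero, Finset.filter_eq_empty_iff]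
  intro p hp
  rw [mem_product, mem_Ico, mem_Ico] at hp
  rcases h with h | h <;> omega

theorem m4_dbox_low (A1 A2 B1 B2 k : ℕ) (h : k < A1 * B1) : dbox A1 A2 B1 B2 k = 0 := by
  unfold Pool.Agent.Lib.H21T.dbox
  rw [Finset.card_eq_zero, Finset.filter_eq_empty_iff]
  intro p hp h1
  rw [mem_product, mem_Ico, mem_Ico] at hp
  have : A1 * B1 ≤ p.1 * p.2 := Nat.mul_le_mul hp.1.1 hp.2.1
  omega

theorem m4_lbox_low (A1 A2 B1 B2 k : ℕ) (hA : 1 ≤ A1) (hB : 1 ≤ B1) (h : k < A1 * B1) :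
    lbox A1 A2 B1 B2 k = 0 := by
  unfold Pool.Agent.Lib.H21T.lbox
  apply max_eq_left
  have hA' : (0:ℝ) < A1 := by exact_mod_cast hA
  have hB' : (0:ℝ) < B1 := by exact_mod_cast hB
  have h1 : Real.log k ≤ Real.log A1 + Real.log B1 := by
    rw [← Real.log_mul hA'.ne' hB'.ne']
    rcases Nat.eq_zero_or_pos k with h0 | h0
    · rw [h0, Nat.cast_zero, Real.log_zero]
      apply Real.log_nonneg
      have : 1 ≤ A1 * B1 := by omega
      exact_mod_cast this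
    · apply Real.log_le_log (by exact_mod_cast h0)
      exact_mod_cast h.le
  have h2 : min (Real.log A2) (Real.log k - Real.log B1) ≤ Real.log k - Real.log B1 := min_le_right _ _
  have h3 : Real.log A1 ≤ max (Real.log A1) (Real.log k - Real.log B2) := le_max_left _ _
  linarith

theorem hX_of (ka ep : ℝ) (n Q A1 A2 B1 B2 l q : ℕ) (hn : 1 ≤ n) (hep : 0 < ep) (hl1 : 1 ≤ l)
    (hA : 1 ≤ A1) (hB : 1 ≤ B1) (hq : 1 ≤ q) (hA2 : A2 ≤ 2 * A1) (hB2 : B2 ≤ 2 * B1)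
    (h34 : A1 ≤ A2 → B1 ≤ B2 → A1 * B1 ≤ 2 * n → ∀ (x H : ℕ) (α : ℝ),
      ((2 * n : ℕ):ℝ) ^ (1 / 2 - ka) ≤ H →
      ‖∑ m ∈ Ico x (x + H), ((Pool.Agent.Lib.H21T.dbox A1 A2 B1 B2 m : ℂ) -
        (Pool.Agent.Lib.H21T.Mbox Q A1 A2 B1 B2 m : ℂ)) * ee (α * m)‖ ≤
        H * ((2 * n : ℕ):ℝ) ^ (-(ep / 2)))
    (hl : ((2 * n : ℕ):ℝ) ^ (1 / 2 - ka) ≤ l)
    (u v : ℤ) (hu : 1 ≤ u) (huv : u ≤ v) (hv : v ≤ 2 * n + 1) (hvu : v - u ≤ 2 * l) (th : ℝ) :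
    ‖∑ m ∈ Ico u v, (pd q (Ico (A1:ℤ) A2) (Ico (B1:ℤ) B2) m - Mq Q A1 A2 B1 B2 q m) *
      ee (th * m)‖ ≤ l * (5 * (n:ℝ) ^ (-(ep / 2))) := by
  have hq0 : (0:ℤ) < q := by exact_mod_cast hq
  -- the difference as a function of k = m / q
  have hdiff : ∀ m : ℤ, 1 ≤ m → pd q (Ico (A1:ℤ) A2) (Ico (B1:ℤ) B2) m - Mq Q A1 A2 B1 B2 q m =
      if (q:ℤ) ∣ m then ((dbox A1 A2 B1 B2 (m / q).toNat : ℂ) - (Mbox Q A1 A2 B1 B2 (m / q).toNat : ℂ)) else 0 := by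
    intro m hm
    rw [pd_eq q A1 A2 B1 B2 hq m hm, Mq]
    by_cases h : (q:ℤ) ∣ m
    · rw [if_pos h, if_pos h, if_pos h]
    · rw [if_neg h, if_neg h, if_neg h, sub_zero]
  have hR0 : 0 ≤ (l:ℝ) * (5 * (n:ℝ) ^ (-(ep / 2))) := by positivity
  have hzero : (∀ k : ℕ, q * k ≤ 2 * n → dbox A1 A2 B1 B2 k = 0 ∧ lbox A1 A2 B1 B2 k = 0) →
      ‖∑ m ∈ Ico u v, (pd q (Ico (A1:ℤ) A2) (Ico (B1:ℤ) B2) m - Mq Q A1 A2 B1 B2 q m) *
      ee (th * m)‖ ≤ l * (5 * (n:ℝ) ^ (-(ep / 2))) := by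
    intro hz
    have : ∑ m ∈ Ico u v, (pd q (Ico (A1:ℤ) A2) (Ico (B1:ℤ) B2) m - Mq Q A1 A2 B1 B2 q m) * ee (th * m) = 0 := by
      refine Finset.sum_eq_zero fun m hm => ?_
      rw [mem_Ico] at hm
      rw [hdiff m (by omega)]
      by_cases h : (q:ℤ) ∣ m
      · rw [if_pos h]
        obtain ⟨k, rfl⟩ := h
        rw [Int.mul_ediv_cancel_left k hq0.ne']
        have hk : 0 < k := by
          by_contra h0
          have : (q:ℤ) * k ≤ 0 := mul_nonpos_of_nonneg_of_nonpos hq0.le (not_lt.1 h0)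
          omega
        have h1 : q * k.toNat ≤ 2 * n := by
          have h2 : ((q * k.toNat : ℕ):ℤ) = q * k := by
            push_cast
            rw [Int.toNat_of_nonneg hk.le]
          omega
        obtain ⟨h3, h4⟩ := hz k.toNat h1
        rw [h3, Pool.Agent.Lib.H21T.Mbox, h4]
        simp
      · rw [if_neg h, zero_mul]
    rw [this, norm_zero]
    exact hR0
  by_cases c1 : A1 ≤ A2 ∧ B1 ≤ B2
  swap
  · apply hzero
    intro k _
    have c2 : A2 < A1 ∨ B2 < B1 := by omega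
    exact ⟨m4_dbox_empty A1 A2 B1 B2 k c2, lbox_empty A1 A2 B1 B2 k hA hB c2⟩
  by_cases c2 : q * (A1 * B1) ≤ 2 * n
  swap
  · apply hzero
    intro k hk
    have c3 : k < A1 * B1 := by
      by_contra h0
      have : q * (A1 * B1) ≤ q * k := Nat.mul_le_mul_left q (not_lt.1 h0)
      omega
    exact ⟨m4_dbox_low A1 A2 B1 B2 k c3, m4_lbox_low A1 A2 B1 B2 k hA hB c3⟩
  have c3 : A1 * B1 ≤ 2 * n := le_trans (Nat.le_mul_of_pos_left _ hq) c2
  have h35 := h34 c1.1 c1.2 c3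
  -- change of variables m = q k
  obtain ⟨U, hU⟩ : ∃ U : ℕ, U = (u.toNat + q - 1) / q := ⟨_, rfl⟩
  obtain ⟨V, hV⟩ : ∃ V : ℕ, V = (v.toNat + q - 1) / q := ⟨_, rfl⟩
  have hmem : ∀ k : ℕ, (U ≤ k ∧ k < V) ↔ (u ≤ (q:ℤ) * k ∧ (q:ℤ) * k < v) := by
    intro k
    have e1 : U ≤ k ↔ u.toNat ≤ q * k := by
      rw [hU, Nat.div_le_iff_le_mul_add_pred hq]
      omega
    have e2 : V ≤ k ↔ v.toNat ≤ q * k := by
      rw [hV, Nat.div_le_iff_le_mul_add_pred hq]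
      omega
    have e3 : ((q * k : ℕ):ℤ) = (q:ℤ) * k := by push_cast; ring
    constructor
    · rintro ⟨h1, h2⟩
      have h3 := e1.1 h1
      have h4 : ¬ (v.toNat ≤ q * k) := fun h => absurd (e2.2 h) (by omega)
      constructor
      · rw [← e3]; omega
      · rw [← e3]; omega
    · rintro ⟨h1, h2⟩
      rw [← e3] at h1 h2
      constructor
      · exact e1.2 (by omega)
      · by_contra h0
        have := e2.1 (by omega)
        omega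
  have hUV : U ≤ V := by
    rw [hU, hV]
    apply Nat.div_le_div_right
    omega
  have hVU : V ≤ U + 2 * l + 1 := by
    have e1 : V ≤ U + 2 * l + 1 ↔ v.toNat + q - 1 ≤ q * (U + 2 * l + 1) + (q - 1) := by
      rw [hV, Nat.div_le_iff_le_mul_add_pred hq]
    rw [e1]
    have e2 : u.toNat ≤ q * U := by
      have : U ≤ U := le_refl _
      rw [hU, Nat.div_le_iff_le_mul_add_pred hq, ← hU] at this
      omega
    have e3 : q * (U + 2 * l + 1) = q * U + q * (2 * l + 1) := by ring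
    have e4 : 2 * l + 1 ≤ q * (2 * l + 1) := Nat.le_mul_of_pos_left _ hq
    have e5 : v.toNat ≤ u.toNat + 2 * l := by omega
    rw [e3]
    omega
  obtain ⟨Fk, hFk⟩ : ∃ Fk : ℕ → ℂ, Fk = fun k => ((dbox A1 A2 B1 B2 k : ℂ) - (Mbox Q A1 A2 B1 B2 k : ℂ)) * ee (th * q * k) := ⟨_, rfl⟩
  have hsum : ∑ m ∈ Ico u v, (pd q (Ico (A1:ℤ) A2) (Ico (B1:ℤ) B2) m - Mq Q A1 A2 B1 B2 q m) * ee (th * m) =
      ∑ k ∈ Ico U V, Fk k := by
    have e1 : ∑ m ∈ Ico u v, (pd q (Ico (A1:ℤ) A2) (Ico (B1:ℤ) B2) m - Mq Q A1 A2 B1 B2 q m) * ee (th * m) =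
        ∑ m ∈ (Ico u v).filter (fun m => (q:ℤ) ∣ m), Fk (m / q).toNat := by
      rw [Finset.sum_filter]
      refine Finset.sum_congr rfl fun m hm => ?_
      rw [mem_Ico] at hm
      rw [hdiff m (by omega)]
      by_cases h : (q:ℤ) ∣ m
      · rw [if_pos h, if_pos h, hFk]
        obtain ⟨k, rfl⟩ := h
        rw [Int.mul_ediv_cancel_left k hq0.ne']
        have hk : 0 < k := by
          by_contra h0
          have : (q:ℤ) * k ≤ 0 := mul_nonpos_of_nonneg_of_nonpos hq0.le (not_lt.1 h0)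
          omega
        have hk2 : ((k.toNat : ℕ) : ℝ) = (k:ℝ) := by
          have : ((k.toNat : ℕ) : ℤ) = k := Int.toNat_of_nonneg hk.le
          exact_mod_cast congrArg (fun z : ℤ => (z:ℝ)) this
        simp only
        rw [hk2]
        congr 2
        push_cast
        ring
      · rw [if_neg h, if_neg h, zero_mul]
    rw [e1]
    symm
    refine Finset.sum_bij (fun (k : ℕ) _ => (q:ℤ) * k) ?_ ?_ ?_ ?_
    · intro k hk
      rw [mem_Ico] at hk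
      rw [mem_filter, mem_Ico]
      exact ⟨(hmem k).1 hk, dvd_mul_right _ _⟩
    · intro a _ b _ hab
      have := mul_left_cancel₀ hq0.ne' hab
      exact_mod_cast this
    · intro m hm
      rw [mem_filter, mem_Ico] at hm
      obtain ⟨hm1, k, rfl⟩ := hm
      have hk : 0 < k := by
        by_contra h0
        have : (q:ℤ) * k ≤ 0 := mul_nonpos_of_nonneg_of_nonpos hq0.le (not_lt.1 h0)
        omega
      obtain ⟨k', hk'⟩ := Int.eq_ofNat_of_zero_le hk.le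
      refine ⟨k', ?_, by rw [hk']⟩
      rw [mem_Ico, hmem k']
      rw [hk'] at hm1
      exact hm1
    · intro k _
      rw [Int.mul_ediv_cancel_left _ hq0.ne', Int.toNat_natCast]
  rw [hsum]
  have hsplit : ∑ k ∈ Ico U V, Fk k = ∑ k ∈ Ico U (U + (V - U + l)), Fk k - ∑ k ∈ Ico V (V + l), Fk k := by
    have e1 : U + (V - U + l) = V + l := by omega
    rw [e1, ← Finset.sum_Ico_consecutive Fk hUV (by omega : V ≤ V + l), add_sub_cancel_right]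
  have hFsum : ∀ x H : ℕ, ((2 * n : ℕ):ℝ) ^ (1 / 2 - ka) ≤ H →
      ‖∑ k ∈ Ico x (x + H), Fk k‖ ≤ H * ((2 * n : ℕ):ℝ) ^ (-(ep / 2)) := by
    intro x H hH
    rw [hFk]
    exact h35 x H (th * q) hH
  have b1 := hFsum U (V - U + l) (hl.trans (by exact_mod_cast (by omega : l ≤ V - U + l)))
  have b2 := hFsum V l hl
  have hpow : ((2 * n : ℕ):ℝ) ^ (-(ep / 2)) ≤ (n:ℝ) ^ (-(ep / 2)) := by
    apply Real.rpow_le_rpow_of_nonpos
    · exact_mod_cast hn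
    · exact_mod_cast (by omega : n ≤ 2 * n)
    · linarith
  have hp0 : 0 ≤ ((2 * n : ℕ):ℝ) ^ (-(ep / 2)) := Real.rpow_nonneg (Nat.cast_nonneg _) _
  rw [hsplit]
  refine (norm_sub_le _ _).trans ((add_le_add b1 b2).trans ?_)
  have h7 : ((V - U + l : ℕ):ℝ) + l ≤ 5 * l := by
    have : (V - U + l) + l ≤ 5 * l := by omega
    exact_mod_cast this
  calc ((V - U + l : ℕ):ℝ) * ((2 * n : ℕ):ℝ) ^ (-(ep / 2)) + l * ((2 * n : ℕ):ℝ) ^ (-(ep / 2))
      = (((V - U + l : ℕ):ℝ) + l) * ((2 * n : ℕ):ℝ) ^ (-(ep / 2)) := by ring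
    _ ≤ (5 * l) * (n:ℝ) ^ (-(ep / 2)) := mul_le_mul h7 hpow hp0 (by positivity)
    _ = l * (5 * (n:ℝ) ^ (-(ep / 2))) := by ring

end Pool.Agent.H44W
end

-- from Lib.H44W.M2
section
/-!
CHUNK M2 (S/M). The inverse property for a Type I sum times a slowly varying factor, given by an expansion of the factor in additive
characters with total mass A0.
Proof. On the points m = x + y in [2, 2n] which occur in TF the function Mm is sum_j c j * ee(ph j * m) * psi A al m. TF is linear in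
its kernel, so TF n Mm W f g = sum_j c j * TF n (fun m => ee (ph j * m) * psi A al m) W f g
= sum_j c j * S * TF n (psi A (al/S)) W (fun x => f x * ee (ph j * x)) (fun y => g y * ee (ph j * y))   (ee_add, the factor splits on
x + y). The norm is <= sum_j |c j| * S * (...): if every term |TF n (psi A (al/S)) W f_j g_j| were < n^2/(D A0 S) the total would be
< n^2/D (strict unless all c j = 0, in which case TF = 0 < n^2/D, impossible as n >= 2). So some j has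
n^2/(D A0 S) <= |TF n (psi A (al/S)) W f_j g_j| and psi_cf (M1) with D := D * A0 * S >= 2 gives th with
n/(80 (D A0 S)(1+log n)^2)^(C+1) <= |sum g z ee(ph j z) ee(th z)| = |sum g z ee((ph j + th) z)|.
-/
namespace Pool.Agent.H44W
open Finset

theorem m2_psi (A : ℕ) (al : ℕ → ℂ) (S : ℝ) (hS : 1 ≤ S) (m : ℤ) :
    psi A al m = (S : ℂ) * psi A (fun a => al a / S) m := by
  have hS0 : (S : ℂ) ≠ 0 := by
    have : (0 : ℝ) < S := by linarith
    exact_mod_cast this.ne'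
  unfold psi
  rw [Finset.mul_sum]
  refine Finset.sum_congr rfl fun a _ => ?_
  split_ifs
  · field_simp
  · rw [mul_zero]

theorem m2_expand (n A : ℕ) (S : ℝ) (hS : 1 ≤ S) (J : ℕ) (c : ℕ → ℂ) (ph : ℕ → ℝ) (al : ℕ → ℂ) (Mm : ℤ → ℂ)
    (hM : ∀ m : ℤ, 2 ≤ m → m ≤ 2 * n →
      Mm m = (∑ j ∈ range J, c j * ee (ph j * m)) * psi A al m) (W f g : ℤ → ℂ) :
    TF n Mm W f g = ∑ j ∈ range J, c j * ((S : ℂ) * TF n (psi A (fun a => al a / S)) W
      (fun x => f x * ee (ph j * x)) (fun y => g y * ee (ph j * y))) := by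
  unfold TF
  have e1 : ∀ x ∈ Icc (1:ℤ) n, ∑ y ∈ Icc (1:ℤ) n, f x * g y * Mm (x + y) * W (x - y) =
      ∑ j ∈ range J, ∑ y ∈ Icc (1:ℤ) n, c j * ((S : ℂ) * (f x * ee (ph j * x) * (g y * ee (ph j * y)) *
        psi A (fun a => al a / S) (x + y) * W (x - y))) := by
    intro x hx
    rw [Finset.sum_comm]
    refine Finset.sum_congr rfl fun y hy => ?_
    rw [Finset.mem_Icc] at hx hy
    rw [hM (x + y) (by omega) (by omega), m2_psi A al S hS, Finset.sum_mul, Finset.mul_sum, Finset.sum_mul]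
    refine Finset.sum_congr rfl fun j _ => ?_
    have e2 : ee (ph j * ((x + y : ℤ) : ℝ)) = ee (ph j * x) * ee (ph j * y) := by
      rw [← ee_add]
      congr 1
      push_cast
      ring
    rw [e2]
    ring
  rw [Finset.sum_congr rfl e1, Finset.sum_comm]
  refine Finset.sum_congr rfl fun j _ => ?_
  rw [Finset.mul_sum, Finset.mul_sum]
  refine Finset.sum_congr rfl fun x _ => ?_
  rw [Finset.mul_sum, Finset.mul_sum]

theorem model_cf (C : ℕ) (h2 : ClassTwo C)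
    (hone : ∀ (n A : ℕ) (al : ℕ → ℂ), 1 ≤ n → (∀ a, ‖al a‖ ≤ 1) → ∀ W f g : ℤ → ℂ,
      (∀ x, ‖W x‖ ≤ 1) → (∀ x, ‖f x‖ ≤ 1) → (∀ x, ‖g x‖ ≤ 1) →
      ∃ th : ℝ, ‖TF n (psi A al) W f g‖ ≤
        20 * A * (1 + Real.log n) * n * ‖∑ z ∈ Icc (1:ℤ) n, g z * ee (th * z)‖)
    (n A : ℕ) (hn : 2 ≤ n) (hA4 : (A:ℝ) ≤ (n:ℝ) ^ (1 / 4 : ℝ)) (D A0 S : ℝ) (hD : 2 ≤ D)
    (hdiv : ∀ m : ℕ, 1 ≤ m → m ≤ 2 * n → (m.divisors.card : ℝ) ≤ D)
    (hA0 : 1 ≤ A0) (hS : 1 ≤ S) (J : ℕ) (c : ℕ → ℂ) (ph : ℕ → ℝ)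
    (hc : ∑ j ∈ range J, ‖c j‖ ≤ A0) (al : ℕ → ℂ) (hal : ∀ a, ‖al a‖ ≤ S) (Mm : ℤ → ℂ)
    (hM : ∀ m : ℤ, 2 ≤ m → m ≤ 2 * n →
      Mm m = (∑ j ∈ range J, c j * ee (ph j * m)) * psi A al m)
    (W f g : ℤ → ℂ) (hW : ∀ x, ‖W x‖ ≤ 1) (hf : ∀ x, ‖f x‖ ≤ 1) (hg : ∀ x, ‖g x‖ ≤ 1)
    (hT : (n:ℝ) ^ 2 / D ≤ ‖TF n Mm W f g‖) :
    ∃ th : ℝ, (n:ℝ) / (80 * (D * A0 * S) * (1 + Real.log n) ^ 2) ^ (C + 1) ≤
      ‖∑ z ∈ Icc (1:ℤ) n, g z * ee (th * z)‖ := by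
  have hn0 : (0 : ℝ) < n := by
    have : (2 : ℝ) ≤ n := by exact_mod_cast hn
    linarith
  have hD0 : 0 < D := by linarith
  have hS0 : 0 < S := by linarith
  have hA00 : 0 < A0 := by linarith
  have hpos : 0 < (n:ℝ) ^ 2 / D := by positivity
  have hexp := m2_expand n A S hS J c ph al Mm hM W f g
  have hJ : (range J).Nonempty := by
    rw [Finset.nonempty_range_iff]
    rintro rfl
    rw [Finset.range_zero, Finset.sum_empty] at hexp
    rw [hexp, norm_zero] at hT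
    linarith
  obtain ⟨j, hj, hmax⟩ := Finset.exists_max_image (range J) (fun j => ‖TF n (psi A (fun a => al a / S)) W
      (fun x => f x * ee (ph j * x)) (fun y => g y * ee (ph j * y))‖) hJ
  have h1 : ‖TF n Mm W f g‖ ≤ A0 * (S * ‖TF n (psi A (fun a => al a / S)) W
      (fun x => f x * ee (ph j * x)) (fun y => g y * ee (ph j * y))‖) := by
    rw [hexp]
    refine (norm_sum_le _ _).trans ?_
    have h3 : ∀ i ∈ range J, ‖c i * ((S : ℂ) * TF n (psi A (fun a => al a / S)) W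
        (fun x => f x * ee (ph i * x)) (fun y => g y * ee (ph i * y)))‖ ≤
        ‖c i‖ * (S * ‖TF n (psi A (fun a => al a / S)) W
          (fun x => f x * ee (ph j * x)) (fun y => g y * ee (ph j * y))‖) := by
      intro i hi
      rw [norm_mul, norm_mul, Complex.norm_real, Real.norm_of_nonneg hS0.le]
      exact mul_le_mul_of_nonneg_left (mul_le_mul_of_nonneg_left (hmax i hi) hS0.le) (norm_nonneg _)
    refine (Finset.sum_le_sum h3).trans ?_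
    rw [← Finset.sum_mul]
    exact mul_le_mul_of_nonneg_right hc (by positivity)
  have h4 : (n:ℝ) ^ 2 / (D * A0 * S) ≤ ‖TF n (psi A (fun a => al a / S)) W
      (fun x => f x * ee (ph j * x)) (fun y => g y * ee (ph j * y))‖ := by
    have h3 := hT.trans h1
    rw [div_le_iff₀ (by positivity)] at h3 ⊢
    linarith
  have hDS : 2 ≤ D * A0 * S := by
    have h3 : 2 ≤ D * A0 := by nlinarith
    nlinarith
  have hDD : D ≤ D * A0 * S := by
    have h5 : D ≤ D * A0 := le_mul_of_one_le_right hD0.le hA0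
    exact h5.trans (le_mul_of_one_le_right (by positivity) hS)
  obtain ⟨th, hth⟩ := psi_cf C h2 hone n A hn hA4 (D * A0 * S) hDS
    (fun m h5 h6 => (hdiv m h5 h6).trans hDD) (fun a => al a / S) (fun a => by
      rw [norm_div, Complex.norm_real, Real.norm_of_nonneg hS0.le, div_le_one hS0]
      exact hal a) W (fun x => f x * ee (ph j * x)) (fun y => g y * ee (ph j * y)) hW
    (fun x => by rw [norm_mul, norm_ee, mul_one]; exact hf x) (fun x => by rw [norm_mul, norm_ee, mul_one]; exact hg x) h4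
  refine ⟨ph j + th, hth.trans (le_of_eq ?_)⟩
  congr 1
  refine Finset.sum_congr rfl fun z _ => ?_
  have e2 : ee ((ph j + th) * (z : ℝ)) = ee (ph j * z) * ee (th * z) := by
    rw [← ee_add]
    congr 1
    ring
  rw [e2]
  ring

end Pool.Agent.H44W
end

-- from Lib.H44W.M7
section
/-!
CHUNK M7 (M). The model Mq has the inverse property with polynomial loss, uniformly in its level Q.
Proof. If A2 < A1 or B2 < B1 then lbox = 0 (lbox_empty), so Mq = 0 and TF = 0, impossible (n^2/D > 0). Otherwise lboxr_rep gives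
J, c, al' with sum |c j| <= A0 := 7 (1 + log n) (unfold H81E.Rep) and lboxr q .. m = sum_j c j * ee (al' j * m) for 2 <= m <= 2n.
For 2 <= m <= 2n: Mq Q A1 A2 B1 B2 q m = lboxr q .. m * psi (q Q) al m, with al a = lam Q (a/q) if q | a, else 0: if q does not divide m, then
a | m and q | a are impossible, both sides 0; if m = q k: Mbox k = lbox k * sum_{d <= Q, d | k} lam Q d and a = q d, a | m iff d | k,
a <= q Q iff d <= Q; lbox k = lboxr (q k) (lboxr_eq). |al a| <= S := 1 + log Q (H21T.m1).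
model_cf (M2) with hone := type_one_psi (M0), A = q Q: n/(80 (D A0 S)(1+log n)^2)^(C+1) <= |ghat|; and
80 * 7 * (1+log n) (1 + log Q)(1+log n)^2 * D <= 560 (1+log n)^4 D <= D^2 as Q <= n^(1/4) <= n and 560 (1+log n)^4 <= D (hD2).
So n/D^(2(C+1)) <= |ghat|. (n >= 2 because (1+log n)^4 * 560 <= D and D^(..) .. use hn.)
-/
namespace Pool.Agent.H44W
open Finset

/-- The coefficients of the model with cofactor q. -/
noncomputable def m7_al (Q q : ℕ) (a : ℕ) : ℂ :=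
  if q ∣ a then ((Pool.Agent.Lib.H21T.lam Q (a / q) : ℝ) : ℂ) else 0

theorem m7_psi (Q q k : ℕ) (hq : 1 ≤ q) :
    psi (q * Q) (m7_al Q q) ((q:ℤ) * k) = ((Pool.Agent.Lib.H21T.gQ Q k : ℝ) : ℂ) := by
  unfold psi Pool.Agent.Lib.H21T.gQ
  rw [Complex.ofReal_sum]
  have h1 : ∀ a ∈ Icc 1 (q * Q), (if ((a:ℕ):ℤ) ∣ (q:ℤ) * k then m7_al Q q a else 0) =
      if a ∣ q * k ∧ q ∣ a then ((Pool.Agent.Lib.H21T.lam Q (a / q) : ℝ) : ℂ) else 0 := by
    intro a _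
    have h2 : (((a:ℕ):ℤ) ∣ (q:ℤ) * k) ↔ a ∣ q * k := by
      rw [← Int.natCast_dvd_natCast]
      push_cast
      rfl
    unfold m7_al
    by_cases h3 : a ∣ q * k
    · rw [if_pos (h2.2 h3)]
      by_cases h4 : q ∣ a
      · rw [if_pos h4, if_pos ⟨h3, h4⟩]
      · rw [if_neg h4, if_neg (fun h => h4 h.2)]
    · rw [if_neg (fun h => h3 (h2.1 h)), if_neg (fun h => h3 h.1)]
  rw [sum_congr rfl h1, ← sum_filter]
  symm
  refine sum_nbij' (fun d => q * d) (fun a => a / q) ?_ ?_ ?_ ?_ ?_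
  · intro d hd
    rw [mem_filter, mem_Icc] at hd
    rw [mem_filter, mem_Icc]
    exact ⟨⟨Nat.mul_pos hq hd.1.1, Nat.mul_le_mul_left q hd.1.2⟩, Nat.mul_dvd_mul_left q hd.2,
      Dvd.intro _ rfl⟩
  · intro a ha
    rw [mem_filter, mem_Icc] at ha
    obtain ⟨⟨h2, h3⟩, h4, d, rfl⟩ := ha
    rw [mem_filter, mem_Icc, Nat.mul_div_cancel_left _ hq]
    refine ⟨⟨?_, Nat.le_of_mul_le_mul_left h3 hq⟩, Nat.dvd_of_mul_dvd_mul_left hq h4⟩
    rcases Nat.eq_zero_or_pos d with h5 | h5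
    · subst h5
      rw [mul_zero] at h2
      omega
    · exact h5
  · intro d _
    exact Nat.mul_div_cancel_left _ hq
  · intro a ha
    rw [mem_filter] at ha
    exact Nat.mul_div_cancel' ha.2.2
  · intro d _
    rw [Nat.mul_div_cancel_left _ hq]

theorem m7_psi_zero (Q q : ℕ) (m : ℤ) (h : ¬ (q:ℤ) ∣ m) : psi (q * Q) (m7_al Q q) m = 0 := by
  unfold psi
  refine sum_eq_zero fun a _ => ?_
  by_cases h1 : (a:ℤ) ∣ m
  · rw [if_pos h1]
    unfold m7_al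
    rw [if_neg]
    intro h2
    exact h ((Int.natCast_dvd_natCast.2 h2).trans h1)
  · rw [if_neg h1]

theorem m7_Mq (Q A1 A2 B1 B2 q : ℕ) (hq : 1 ≤ q) (m : ℤ) (hm : 1 ≤ m) :
    Mq Q A1 A2 B1 B2 q m = ((lboxr q A1 A2 B1 B2 m : ℝ) : ℂ) * psi (q * Q) (m7_al Q q) m := by
  unfold Mq
  by_cases h : (q:ℤ) ∣ m
  · rw [if_pos h]
    obtain ⟨z, rfl⟩ := h
    have hq0 : (0:ℤ) < q := by exact_mod_cast hq
    have hz : 1 ≤ z := by
      by_contra hcon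
      have h1 : z ≤ 0 := by omega
      have h2 : (q:ℤ) * z ≤ 0 := mul_nonpos_of_nonneg_of_nonpos hq0.le h1
      omega
    obtain ⟨k, rfl⟩ := Int.eq_ofNat_of_zero_le (by omega : 0 ≤ z)
    have hk : 1 ≤ k := by exact_mod_cast hz
    have h3 : ((q:ℤ) * (k:ℤ) / q).toNat = k := by
      rw [Int.mul_ediv_cancel_left _ hq0.ne']
      exact Int.toNat_natCast k
    rw [h3, m7_psi Q q k hq, lboxr_eq q A1 A2 B1 B2 k hq hk]
    unfold Pool.Agent.Lib.H21T.Mbox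
    rw [Complex.ofReal_mul]
  · rw [if_neg h, m7_psi_zero Q q m h, mul_zero]

theorem mq_cf (C : ℕ) (h2 : ClassTwo C) (n Q A1 A2 B1 B2 q : ℕ) (hn : 2 ≤ n) (hQ : 1 ≤ Q)
    (hq : 1 ≤ q) (hqQ : ((q * Q : ℕ):ℝ) ≤ (n:ℝ) ^ (1 / 4 : ℝ)) (hA : 1 ≤ A1) (hB : 1 ≤ B1)
    (hA2 : A2 ≤ 2 * A1) (D : ℝ) (hD2 : 560 * (1 + Real.log n) ^ 4 ≤ D)
    (hdiv : ∀ m : ℕ, 1 ≤ m → m ≤ 2 * n → (m.divisors.card : ℝ) ≤ D)
    (W f g : ℤ → ℂ) (hW : ∀ x, ‖W x‖ ≤ 1) (hf : ∀ x, ‖f x‖ ≤ 1) (hg : ∀ x, ‖g x‖ ≤ 1)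
    (hT : (n:ℝ) ^ 2 / D ≤ ‖TF n (Mq Q A1 A2 B1 B2 q) W f g‖) :
    ∃ th : ℝ, (n:ℝ) / D ^ (2 * (C + 1)) ≤ ‖∑ z ∈ Icc (1:ℤ) n, g z * ee (th * z)‖ := by
  have hL0 : 0 ≤ Real.log n := Real.log_natCast_nonneg n
  have hL1 : 1 ≤ 1 + Real.log n := by linarith
  have hL4 : 1 ≤ (1 + Real.log n) ^ 4 := one_le_pow₀ hL1
  have hD560 : 560 ≤ D := by linarith
  have hD0 : 0 < D := by linarith
  have hn0 : (0:ℝ) < n := by
    have : 0 < n := by omega
    exact_mod_cast this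
  have hn1 : (1:ℝ) ≤ n := by
    have : 1 ≤ n := by omega
    exact_mod_cast this
  by_cases hE : A2 < A1 ∨ B2 < B1
  · exfalso
    have h0 : TF n (Mq Q A1 A2 B1 B2 q) W f g = 0 := by
      unfold TF
      refine sum_eq_zero fun x _ => sum_eq_zero fun y _ => ?_
      have h1 : Mq Q A1 A2 B1 B2 q (x + y) = 0 := by
        unfold Mq Pool.Agent.Lib.H21T.Mbox
        rw [lbox_empty A1 A2 B1 B2 _ hA hB hE, zero_mul, Complex.ofReal_zero, ite_self]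
      rw [h1, mul_zero, zero_mul]
    rw [h0, norm_zero] at hT
    have : 0 < (n:ℝ) ^ 2 / D := by positivity
    linarith
  · rw [not_or, not_lt, not_lt] at hE
    obtain ⟨J, c, ph, hc, hrep⟩ :=
      lboxr_rep n q A1 A2 B1 B2 (by omega) hq hA hE.1 hA2 hB hE.2
    have hlQ0 : 0 ≤ Real.log Q := Real.log_natCast_nonneg Q
    have hal : ∀ a, ‖m7_al Q q a‖ ≤ 1 + Real.log Q := by
      intro a
      unfold m7_al
      by_cases h : q ∣ a
      · rw [if_pos h, Complex.norm_real, Real.norm_eq_abs]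
        exact Pool.Agent.Lib.H21T.m1 Q (a / q) hQ
      · rw [if_neg h, norm_zero]
        linarith
    obtain ⟨th, hth⟩ := model_cf C h2 type_one_psi n (q * Q) hn hqQ D (7 * (1 + Real.log n))
      (1 + Real.log Q) (by linarith) hdiv (by linarith) (by linarith) J c ph hc (m7_al Q q) hal
      (Mq Q A1 A2 B1 B2 q) (fun m hm hm2 => by
        rw [m7_Mq Q A1 A2 B1 B2 q hq m (by omega)]
        have h5 := hrep m hm hm2
        simp only at h5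
        rw [h5]) W f g hW hf hg hT
    refine ⟨th, le_trans ?_ hth⟩
    have hQn : (Q:ℝ) ≤ n := by
      have h1 : (Q:ℝ) ≤ ((q * Q : ℕ):ℝ) := by
        exact_mod_cast Nat.le_mul_of_pos_left Q hq
      have h3 : (n:ℝ) ^ (1 / 4 : ℝ) ≤ n := by
        calc (n:ℝ) ^ (1 / 4 : ℝ) ≤ (n:ℝ) ^ (1 : ℝ) :=
              Real.rpow_le_rpow_of_exponent_le hn1 (by norm_num)
          _ = n := Real.rpow_one _
      linarith
    have hlogQ : Real.log Q ≤ Real.log n := by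
      apply Real.log_le_log _ hQn
      exact_mod_cast hQ
    have hkey : 80 * (D * (7 * (1 + Real.log n)) * (1 + Real.log Q)) * (1 + Real.log n) ^ 2 ≤
        D ^ 2 := by
      have h1 : (1 + Real.log Q) ≤ 1 + Real.log n := by linarith
      calc 80 * (D * (7 * (1 + Real.log n)) * (1 + Real.log Q)) * (1 + Real.log n) ^ 2
          = D * (560 * ((1 + Real.log n) ^ 3 * (1 + Real.log Q))) := by ring
        _ ≤ D * (560 * ((1 + Real.log n) ^ 3 * (1 + Real.log n))) := by gcongr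
        _ = D * (560 * (1 + Real.log n) ^ 4) := by ring
        _ ≤ D * D := by gcongr
        _ = D ^ 2 := by ring
    have hpos : 0 < 80 * (D * (7 * (1 + Real.log n)) * (1 + Real.log Q)) *
        (1 + Real.log n) ^ 2 := by positivity
    rw [pow_mul]
    exact div_le_div_of_nonneg_left hn0.le (pow_pos hpos _) (pow_le_pow_left₀ hpos.le hkey _)

end Pool.Agent.H44W
end

-- from Lib.H44W.M5
section
/-!
CHUNK M5 (M). Mass of the difference: sum over m in [1,2n] of |sum_q ga q (pd q m - Mq m)| <= 10 (1 + log n)^4 n.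
Proof. By |ga| <= 1 it is at most sum_{q <= R} (sum_m pd q m + sum_m |Mq m|).
(a) sum_{m in [1,2n]} |pd q m| <= 2n/q: it is the number of (a,b) in the box with 1 <= q a b <= 2n; if q A1 B1 > 2n it is 0; otherwise at
most card Ico A1 A2 * card Ico B1 B2 <= A1 B1 <= 2n/q.
(b) sum_m |Mq m| = sum_{k <= 2n/q} |lbox k| |gQ Q k| <= sum_{k <= 2n/q} sum_{d <= Q, d | k} (1 + log Q) (lbox_bd, H21T.m1)
<= (1 + log Q) sum_{d <= Q} 2n/(q d) <= (2n/q) (1 + log Q)^2 (harmonic sum: sum_{d <= Q} 1/d <= 1 + log Q, harmonic_le_one_add_log).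
Sum over q <= R <= n: sum 1/q <= 1 + log n; Q <= n: total <= 2n (1+log n) + 2n (1+log n)^3 <= 10 (1+log n)^4 n.
-/
namespace Pool.Agent.H44W
open Finset

theorem m5_har (N n : ℕ) (h : N ≤ n) : ∑ d ∈ Icc 1 N, 1 / (d : ℝ) ≤ 1 + Real.log n := by
  have h2 : ∑ r ∈ Icc 1 N, 1 / (r : ℝ) ≤ ∑ r ∈ Icc 1 n, 1 / (r : ℝ) := by
    apply Finset.sum_le_sum_of_subset_of_nonneg
    · exact Finset.Icc_subset_Icc_right h
    · intro i _ _
      positivity
  have h3 : ∑ r ∈ Icc 1 n, 1 / (r : ℝ) ≤ 1 + Real.log n := by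
    have h4 := harmonic_le_one_add_log n
    rw [harmonic_eq_sum_Icc] at h4
    push_cast at h4
    simpa only [one_div] using h4
  linarith

theorem m5_mult (r N : ℕ) (hr : 1 ≤ r) :
    (((Icc (1:ℤ) (N:ℤ)).filter (fun m => (r:ℤ) ∣ m)).card : ℝ) ≤ (N:ℝ) / r := by
  have h1 : (Icc (1:ℤ) (N:ℤ)).filter (fun m => (r:ℤ) ∣ m) ⊆ (Icc 1 (N / r)).image (fun k : ℕ => (r:ℤ) * k) := by
    intro m hm
    rw [mem_filter, mem_Icc] at hm
    obtain ⟨⟨h1, h2⟩, k, rfl⟩ := hm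
    have hk : 0 < k := by
      by_contra hc
      have : (r:ℤ) * k ≤ 0 := mul_nonpos_of_nonneg_of_nonpos (by positivity) (not_lt.1 hc)
      omega
    lift k to ℕ using hk.le
    rw [mem_image]
    refine ⟨k, mem_Icc.2 ⟨by exact_mod_cast hk, ?_⟩, rfl⟩
    rw [Nat.le_div_iff_mul_le (by omega), mul_comm]
    exact_mod_cast h2
  have h2 := (card_le_card h1).trans card_image_le
  rw [Nat.card_Icc, Nat.add_sub_cancel] at h2
  calc _ ≤ ((N / r : ℕ) : ℝ) := by exact_mod_cast h2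
    _ ≤ (N:ℝ) / r := Nat.cast_div_le

theorem m5_pd (n q A1 A2 B1 B2 : ℕ) (hq : 1 ≤ q) (hA2 : A2 ≤ 2 * A1) (hB2 : B2 ≤ 2 * B1) :
    ∑ m ∈ Icc (1:ℤ) (2 * n), ‖pd q (Ico (A1:ℤ) A2) (Ico (B1:ℤ) B2) m‖ ≤ 2 * n / q := by
  classical
  have h0 : ∀ m : ℤ, ‖pd q (Ico (A1:ℤ) A2) (Ico (B1:ℤ) B2) m‖ =
      ((((Ico (A1:ℤ) A2) ×ˢ (Ico (B1:ℤ) B2)).filter (fun p => (q:ℤ) * p.1 * p.2 = m)).card : ℝ) := by
    intro m
    unfold pd
    rw [Complex.norm_natCast]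
  rw [sum_congr rfl fun m _ => h0 m]
  have h1 : ∑ m ∈ Icc (1:ℤ) (2 * n), (((Ico (A1:ℤ) A2) ×ˢ (Ico (B1:ℤ) B2)).filter (fun p => (q:ℤ) * p.1 * p.2 = m)).card =
      (((Ico (A1:ℤ) A2) ×ˢ (Ico (B1:ℤ) B2)).filter (fun p => (q:ℤ) * p.1 * p.2 ∈ Icc (1:ℤ) (2 * n))).card := by
    rw [card_eq_sum_card_fiberwise (f := fun p : ℤ × ℤ => (q:ℤ) * p.1 * p.2) (t := Icc (1:ℤ) (2 * n))
      (by intro p hp; exact (mem_filter.1 hp).2)]
    refine sum_congr rfl fun m hm => ?_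
    congr 1
    ext p
    simp only [mem_filter]
    constructor
    · rintro ⟨a, b⟩
      exact ⟨⟨a, b ▸ hm⟩, b⟩
    · rintro ⟨⟨a, _⟩, b⟩
      exact ⟨a, b⟩
  rw [← Nat.cast_sum, h1]
  by_cases hc : 2 * n < q * A1 * B1
  · have h2 : ((Ico (A1:ℤ) A2) ×ˢ (Ico (B1:ℤ) B2)).filter (fun p => (q:ℤ) * p.1 * p.2 ∈ Icc (1:ℤ) (2 * n)) = ∅ := by
      rw [Finset.filter_eq_empty_iff]
      rintro ⟨a, b⟩ hp hm
      rw [mem_product, mem_Ico, mem_Ico] at hp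
      rw [mem_Icc] at hm
      simp only at hp hm
      have h3 : (q:ℤ) * A1 * B1 ≤ (q:ℤ) * a * b := by
        have h4 : (0:ℤ) ≤ A1 := by positivity
        have h5 : (0:ℤ) ≤ B1 := by positivity
        have h6 : (q:ℤ) * A1 ≤ q * a := mul_le_mul_of_nonneg_left hp.1.1 (by positivity)
        exact mul_le_mul h6 hp.2.1 h5 (mul_nonneg (by positivity) (h4.trans hp.1.1))
      have h7 : (2 * n : ℤ) < (q:ℤ) * A1 * B1 := by exact_mod_cast hc
      omega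
    rw [h2, card_empty, Nat.cast_zero]
    positivity
  · have h2 : (((Ico (A1:ℤ) A2) ×ˢ (Ico (B1:ℤ) B2)).filter (fun p => (q:ℤ) * p.1 * p.2 ∈ Icc (1:ℤ) (2 * n))).card ≤ A1 * B1 := by
      refine (card_filter_le _ _).trans ?_
      rw [card_product, Int.card_Ico, Int.card_Ico]
      exact Nat.mul_le_mul (by omega) (by omega)
    have hq0 : (0:ℝ) < q := by exact_mod_cast hq
    rw [le_div_iff₀ hq0]
    have h3 : A1 * B1 * q ≤ 2 * n := by
      have := not_lt.1 hc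
      calc A1 * B1 * q = q * A1 * B1 := by ring
        _ ≤ 2 * n := this
    calc _ ≤ ((A1 * B1 : ℕ) : ℝ) * q := mul_le_mul_of_nonneg_right (by exact_mod_cast h2) hq0.le
      _ ≤ 2 * n := by exact_mod_cast h3

theorem m5_Mq1 (Q A1 A2 B1 B2 q : ℕ) (hQ1 : 1 ≤ Q) (hq : 1 ≤ q) (hA : 1 ≤ A1) (hA2 : A2 ≤ 2 * A1) (m : ℤ) (hm : 1 ≤ m) :
    ‖Mq Q A1 A2 B1 B2 q m‖ ≤ ∑ d ∈ Icc 1 Q, if (((q * d : ℕ) : ℤ) ∣ m) then (1 + Real.log Q) else 0 := by
  have hL : 0 ≤ 1 + Real.log Q := by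
    have := Real.log_natCast_nonneg Q
    linarith
  unfold Mq
  by_cases h : (q:ℤ) ∣ m
  · rw [if_pos h, Complex.norm_real, Real.norm_eq_abs]
    unfold Pool.Agent.Lib.H21T.Mbox
    rw [abs_mul]
    obtain ⟨k, rfl⟩ := h
    have hq0 : (0:ℤ) < q := by exact_mod_cast hq
    have hk : 0 < k := by
      by_contra hc
      have : (q:ℤ) * k ≤ 0 := mul_nonpos_of_nonneg_of_nonpos hq0.le (not_lt.1 hc)
      omega
    lift k to ℕ using hk.le
    rw [Int.mul_ediv_cancel_left _ hq0.ne', Int.toNat_natCast]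
    have h1 := lbox_bd A1 A2 B1 B2 k hA hA2
    rw [abs_of_nonneg h1.1]
    refine (mul_le_of_le_one_left (abs_nonneg _) h1.2).trans ?_
    unfold Pool.Agent.Lib.H21T.gQ
    refine (Finset.abs_sum_le_sum_abs _ _).trans ?_
    rw [Finset.sum_filter]
    refine Finset.sum_le_sum fun d _ => ?_
    by_cases hd : d ∣ k
    · have h2 : ((q * d : ℕ) : ℤ) ∣ (q:ℤ) * k := by
        exact_mod_cast Nat.mul_dvd_mul_left q hd
      rw [if_pos hd, if_pos h2]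
      exact Pool.Agent.Lib.H21T.m1 Q d hQ1
    · rw [if_neg hd]
      split_ifs
      · exact hL
      · exact le_rfl
  · rw [if_neg h, norm_zero]
    refine Finset.sum_nonneg fun d _ => ?_
    split_ifs
    · exact hL
    · exact le_rfl

theorem m5_Mq (n Q A1 A2 B1 B2 q : ℕ) (hQ1 : 1 ≤ Q) (hQ : Q ≤ n) (hq : 1 ≤ q) (hA : 1 ≤ A1) (hA2 : A2 ≤ 2 * A1) :
    ∑ m ∈ Icc (1:ℤ) (2 * n), ‖Mq Q A1 A2 B1 B2 q m‖ ≤ 2 * n / q * (1 + Real.log n) ^ 2 := by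
  have hQr : (0:ℝ) < Q := by exact_mod_cast hQ1
  have hLQ : Real.log Q ≤ Real.log n := Real.log_le_log hQr (by exact_mod_cast hQ)
  have hL : 0 ≤ Real.log Q := Real.log_natCast_nonneg Q
  have hq0 : (0:ℝ) < q := by exact_mod_cast hq
  calc ∑ m ∈ Icc (1:ℤ) (2 * n), ‖Mq Q A1 A2 B1 B2 q m‖
      ≤ ∑ m ∈ Icc (1:ℤ) (2 * n), ∑ d ∈ Icc 1 Q, (if (((q * d : ℕ) : ℤ) ∣ m) then (1 + Real.log Q) else 0) :=
        Finset.sum_le_sum fun m hm => m5_Mq1 Q A1 A2 B1 B2 q hQ1 hq hA hA2 m (mem_Icc.1 hm).1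
    _ = ∑ d ∈ Icc 1 Q, (((Icc (1:ℤ) (((2 * n : ℕ)) : ℤ)).filter (fun m => ((q * d : ℕ) : ℤ) ∣ m)).card : ℝ) * (1 + Real.log Q) := by
        rw [Finset.sum_comm]
        refine Finset.sum_congr rfl fun d _ => ?_
        rw [← Finset.sum_filter, Finset.sum_const, nsmul_eq_mul]
        push_cast
        rfl
    _ ≤ ∑ d ∈ Icc 1 Q, (2 * n / q * (1 + Real.log n)) * (1 / (d:ℝ)) := by
        refine Finset.sum_le_sum fun d hd => ?_
        have hd1 := (mem_Icc.1 hd).1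
        have h1 := m5_mult (q * d) (2 * n) (Nat.mul_pos hq hd1)
        have hd0 : (0:ℝ) < d := by exact_mod_cast hd1
        have e : ((2 * n : ℕ) : ℝ) / ((q * d : ℕ) : ℝ) = 2 * n / q * (1 / d) := by
          push_cast
          field_simp
        rw [e] at h1
        calc _ ≤ (2 * n / q * (1 / (d:ℝ))) * (1 + Real.log n) :=
              mul_le_mul h1 (by linarith) (by linarith) (by positivity)
          _ = _ := by ring
    _ = (2 * n / q * (1 + Real.log n)) * ∑ d ∈ Icc 1 Q, 1 / (d:ℝ) := by rw [Finset.mul_sum]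
    _ ≤ (2 * n / q * (1 + Real.log n)) * (1 + Real.log n) :=
        mul_le_mul_of_nonneg_left (m5_har Q n hQ) (mul_nonneg (by positivity) (by linarith))
    _ = _ := by ring

theorem mass_le (n Q R A1 A2 B1 B2 : ℕ) (hn : 1 ≤ n) (hQ1 : 1 ≤ Q) (hQ : Q ≤ n) (hR : R ≤ n)
    (hA : 1 ≤ A1) (hB : 1 ≤ B1) (hA2 : A2 ≤ 2 * A1) (hB2 : B2 ≤ 2 * B1) (ga : ℕ → ℂ)
    (hga : ∀ q, ‖ga q‖ ≤ 1) :
    ∑ m ∈ Icc (1:ℤ) (2 * n), ‖∑ q ∈ Icc 1 R, ga q *
      (pd q (Ico (A1:ℤ) A2) (Ico (B1:ℤ) B2) m - Mq Q A1 A2 B1 B2 q m)‖ ≤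
      10 * (1 + Real.log n) ^ 4 * n := by
  have hn1 : (1:ℝ) ≤ n := by exact_mod_cast hn
  have hLn : 0 ≤ Real.log n := Real.log_natCast_nonneg n
  have hstep : ∀ m ∈ Icc (1:ℤ) (2 * n), ‖∑ q ∈ Icc 1 R, ga q *
      (pd q (Ico (A1:ℤ) A2) (Ico (B1:ℤ) B2) m - Mq Q A1 A2 B1 B2 q m)‖ ≤
      ∑ q ∈ Icc 1 R, (‖pd q (Ico (A1:ℤ) A2) (Ico (B1:ℤ) B2) m‖ + ‖Mq Q A1 A2 B1 B2 q m‖) := by
    intro m _
    refine norm_sum_le_of_le _ fun q _ => ?_
    rw [norm_mul]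
    exact (mul_le_of_le_one_left (norm_nonneg _) (hga q)).trans (norm_sub_le _ _)
  refine (Finset.sum_le_sum hstep).trans ?_
  rw [Finset.sum_comm]
  have hq : ∀ q ∈ Icc 1 R, ∑ m ∈ Icc (1:ℤ) (2 * n),
      (‖pd q (Ico (A1:ℤ) A2) (Ico (B1:ℤ) B2) m‖ + ‖Mq Q A1 A2 B1 B2 q m‖) ≤
      (2 * n * (1 + (1 + Real.log n) ^ 2)) * (1 / (q:ℝ)) := by
    intro q hq
    have hq1 := (mem_Icc.1 hq).1
    rw [Finset.sum_add_distrib]
    have h1 := m5_pd n q A1 A2 B1 B2 hq1 hA2 hB2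
    have h2 := m5_Mq n Q A1 A2 B1 B2 q hQ1 hQ hq1 hA hA2
    refine (add_le_add h1 h2).trans (le_of_eq ?_)
    ring
  refine (Finset.sum_le_sum hq).trans ?_
  rw [← Finset.mul_sum]
  have h3 := m5_har R n hR
  have h4 : 0 ≤ 2 * (n:ℝ) * (1 + (1 + Real.log n) ^ 2) := by positivity
  refine (mul_le_mul_of_nonneg_left h3 h4).trans ?_
  set L : ℝ := 1 + Real.log n with hLdef
  have hL1 : 1 ≤ L := by linarith
  have h5 : L ^ 1 ≤ L ^ 4 := pow_le_pow_right₀ hL1 (by norm_num)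
  have h6 : L ^ 3 ≤ L ^ 4 := pow_le_pow_right₀ hL1 (by norm_num)
  have h7 : 0 ≤ L ^ 4 := by positivity
  calc 2 * (n:ℝ) * (1 + L ^ 2) * L = n * (2 * L ^ 1 + 2 * L ^ 3) := by ring
    _ ≤ n * (10 * L ^ 4) := mul_le_mul_of_nonneg_left (by linarith) (by linarith)
    _ = _ := by ring

end Pool.Agent.H44W
end

-- from Lib.HUK.B10
section

/-!
# HUK B10 (M/L): the correlation of `η` along the cubes

Write `g = ge A D lo hi`, `σ_w = sgb c j w`, `S = SA A`, `N = NE k` (the `2^k - 1` non-empty subsets), and for `p ∈ PA A`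
`g_p = -(1/S) gp p`, `g^(p) = -(1/S) ∑_{q ∈ (PA A).erase p} gp q`, so `g = g^(p) + g_p`. `G = (1/S) 2 log Y + 1 ≥ 1` bounds `|g|`, `|g^(p)|` and `|g_p|`
everywhere (`b04_part` with `T = PA A`, `(PA A).erase p`, `{p}`).

PROOF. Fix `j`. `∏_{w ⊆ univ} g(d + σ_w) = g(d) ∏_{w ∈ N} g(d + σ_w)` (`σ_∅ = 0`) `= ∑_{p ∈ PA A} g_p(d) ∏_{w ∈ N} g(d + σ_w)`. For each `p`
`∏_{w∈N} g = ∏_{w∈N} g^(p) + Δ`, `|Δ| ≤ G^(2^k - 1) ∑_{w∈N} |g_p(d + σ_w)|` (`b08_prod`). The main part is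
`(-1/S)^(2^k) ∑_d gp p d ∏_{w∈N} ∑_{q≠p} gp q (d+σ_w)`, at most `S^(-2^k) (4A)^(2(2^k-1)+1)` by `b07_main`; sum over the at most `3A ≤ 4A`
primes: `≤ S^(-2^k) (4A)^(2^(k+1))`. The rest, summed over `p`, `d`, `j`: `G^(2^k) S^(-2) ∑_p ∑_{w∈N} ∑_j ∑_d |gp p d| |gp p (d+σ_w)|
≤ G^(2^k) S^(-2) 3A 2^k (2H)^k 9L/A^2` by `b09_pair` (`p > A`, `p ≤ 4A ≤ H, L`). The sum over `d ∈ ℤ` of the product is a sum over
`Ioc lo hi` as `g(d) = 0` outside. `#(bxS k H) ≤ (2H)^k`.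
-/

open Finset

namespace Pool.Agent.HUK

theorem b10_card_PA (A : ℕ) : (#(PA A) : ℝ) ≤ 3 * A := by
  have h1 : #(PA A) ≤ #(Ioc A (4 * A)) := Finset.card_filter_le _ _
  rw [Nat.card_Ioc] at h1
  have h2 : #(PA A) ≤ 3 * A := by omega
  exact_mod_cast h2

theorem b10_card_NE (k : ℕ) : #(NE k) + 1 = 2 ^ k := by
  unfold NE
  rw [Finset.card_erase_of_mem (Finset.mem_univ _), Finset.card_univ, Fintype.card_finset,
    Fintype.card_fin]
  have : 0 < 2 ^ k := pow_pos (by norm_num) _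
  omega

theorem b10_card_bx (k H : ℕ) : (#(bxS k H) : ℝ) ≤ (2 * H : ℝ) ^ k := by
  have h1 : #(bxS k H) ≤ (2 * H) ^ k := by
    unfold bxS
    rw [Fintype.card_piFinset]
    calc ∏ _i : Fin k, #(Ioo (-(H : ℤ)) H) ≤ ∏ _i : Fin k, 2 * H := by
          refine Finset.prod_le_prod' fun i _ => ?_
          rw [Int.card_Ioo]
          omega
      _ = (2 * H) ^ k := by
          rw [Finset.prod_const, Finset.card_univ, Fintype.card_fin]
  calc (#(bxS k H) : ℝ) ≤ (((2 * H) ^ k : ℕ) : ℝ) := by exact_mod_cast h1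
    _ = (2 * H : ℝ) ^ k := by push_cast; ring

/-- One prime, one shift vector. -/
theorem b10_one (k A D p : ℕ) (hA : 2 ≤ A) (hS : 0 < SA A) (hp : p ∈ PA A) (lo hi : ℤ) (hlo : 0 ≤ lo)
    (Y : ℝ) (hY : 1 ≤ Y) (hhi : (hi : ℝ) ≤ Y) (σ : Finset (Fin k) → ℤ) :
    |∑ d ∈ Ioc lo hi, gp A D p lo hi d * ∏ w ∈ NE k, ge A D lo hi (d + σ w)| ≤
      (1 / SA A) ^ #(NE k) * (4 * A : ℝ) ^ (2 * #(NE k) + 1) +
      ((1 / SA A) * (2 * Real.log Y) + 1) ^ #(NE k) * ((1 / SA A) *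
        ∑ w ∈ NE k, ∑ d ∈ Ioc lo hi, |gp A D p lo hi d| * |gp A D p lo hi (d + σ w)|) := by
  obtain ⟨G, hG⟩ : ∃ G : ℝ, G = (1 / SA A) * (2 * Real.log Y) + 1 := ⟨_, rfl⟩
  obtain ⟨a, ha⟩ : ∃ a : ℤ → ℝ, ∀ x, a x = -(1 / SA A) * ∑ q ∈ (PA A).erase p, gp A D q lo hi x :=
    ⟨_, fun _ => rfl⟩
  obtain ⟨b, hb⟩ : ∃ b : ℤ → ℝ, ∀ x, b x = -(1 / SA A) * gp A D p lo hi x := ⟨_, fun _ => rfl⟩
  have hS1 : 0 ≤ 1 / SA A := by positivity
  have hG1 : 1 ≤ G := by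
    rw [hG]
    have h1 : 0 ≤ Real.log Y := Real.log_nonneg hY
    have h2 : 0 ≤ (1 / SA A) * (2 * Real.log Y) := mul_nonneg hS1 (by linarith)
    linarith
  have hab : ∀ x, ge A D lo hi x = a x + b x := by
    intro x
    rw [ha, hb, ge, ← Finset.add_sum_erase _ _ hp]
    ring
  have haG : ∀ x, |a x| ≤ G := by
    intro x
    rw [ha, abs_mul, abs_neg, abs_of_nonneg hS1, hG]
    refine le_trans (mul_le_mul_of_nonneg_left (Finset.abs_sum_le_sum_abs _ _) hS1) ?_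
    exact b04_part A D hA hS ((PA A).erase p) (Finset.erase_subset _ _) lo hi x hlo Y hY hhi
  have hgG : ∀ x, |a x + b x| ≤ G := by
    intro x
    rw [← hab, ge, abs_mul, abs_neg, abs_of_nonneg hS1, hG]
    refine le_trans (mul_le_mul_of_nonneg_left (Finset.abs_sum_le_sum_abs _ _) hS1) ?_
    exact b04_part A D hA hS (PA A) (Finset.Subset.refl _) lo hi x hlo Y hY hhi
  have hdec : ∀ d, gp A D p lo hi d * ∏ w ∈ NE k, ge A D lo hi (d + σ w) =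
      gp A D p lo hi d * ∏ w ∈ NE k, a (d + σ w) +
      gp A D p lo hi d * (∏ w ∈ NE k, (a (d + σ w) + b (d + σ w)) - ∏ w ∈ NE k, a (d + σ w)) := by
    intro d
    rw [Finset.prod_congr rfl fun w _ => hab (d + σ w)]
    ring
  have hmain : |∑ d ∈ Ioc lo hi, gp A D p lo hi d * ∏ w ∈ NE k, a (d + σ w)| ≤
      (1 / SA A) ^ #(NE k) * (4 * A : ℝ) ^ (2 * #(NE k) + 1) := by
    have h1 : ∑ d ∈ Ioc lo hi, gp A D p lo hi d * ∏ w ∈ NE k, a (d + σ w) =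
        (-(1 / SA A)) ^ #(NE k) * ∑ d ∈ Ioc lo hi, gp A D p lo hi d *
          ∏ w ∈ NE k, ∑ q ∈ (PA A).erase p, gp A D q lo hi (d + σ w) := by
      rw [Finset.mul_sum]
      refine Finset.sum_congr rfl fun d _ => ?_
      rw [Finset.prod_congr rfl fun w _ => ha (d + σ w), Finset.prod_mul_distrib,
        Finset.prod_const]
      ring
    rw [h1, abs_mul, abs_pow, abs_neg, abs_of_nonneg hS1]
    exact mul_le_mul_of_nonneg_left (b07_main A D p (by omega) hp (NE k) σ lo hi)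
      (pow_nonneg hS1 _)
  have hrest : |∑ d ∈ Ioc lo hi, gp A D p lo hi d *
      (∏ w ∈ NE k, (a (d + σ w) + b (d + σ w)) - ∏ w ∈ NE k, a (d + σ w))| ≤
      G ^ #(NE k) * ((1 / SA A) *
        ∑ w ∈ NE k, ∑ d ∈ Ioc lo hi, |gp A D p lo hi d| * |gp A D p lo hi (d + σ w)|) := by
    calc |∑ d ∈ Ioc lo hi, gp A D p lo hi d *
          (∏ w ∈ NE k, (a (d + σ w) + b (d + σ w)) - ∏ w ∈ NE k, a (d + σ w))|
        ≤ ∑ d ∈ Ioc lo hi, |gp A D p lo hi d *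
          (∏ w ∈ NE k, (a (d + σ w) + b (d + σ w)) - ∏ w ∈ NE k, a (d + σ w))| :=
          Finset.abs_sum_le_sum_abs _ _
      _ ≤ ∑ d ∈ Ioc lo hi, G ^ #(NE k) * ((1 / SA A) *
          ∑ w ∈ NE k, |gp A D p lo hi d| * |gp A D p lo hi (d + σ w)|) := by
          refine Finset.sum_le_sum fun d _ => ?_
          rw [abs_mul]
          have h2 := b08_prod (NE k) (fun w => a (d + σ w)) (fun w => b (d + σ w)) G hG1
            (fun w _ => haG _) (fun w _ => hgG _)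
          calc |gp A D p lo hi d| *
                |∏ w ∈ NE k, (a (d + σ w) + b (d + σ w)) - ∏ w ∈ NE k, a (d + σ w)|
              ≤ |gp A D p lo hi d| * (G ^ #(NE k) * ∑ w ∈ NE k, |b (d + σ w)|) :=
                mul_le_mul_of_nonneg_left h2 (abs_nonneg _)
            _ = G ^ #(NE k) * ((1 / SA A) *
                ∑ w ∈ NE k, |gp A D p lo hi d| * |gp A D p lo hi (d + σ w)|) := by
                have h3 : ∀ w, |b (d + σ w)| = (1 / SA A) * |gp A D p lo hi (d + σ w)| := by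
                  intro w
                  rw [hb, abs_mul, abs_neg, abs_of_nonneg hS1]
                rw [Finset.sum_congr rfl fun w _ => h3 w, ← Finset.mul_sum, ← Finset.mul_sum]
                ring
      _ = G ^ #(NE k) * ((1 / SA A) *
          ∑ w ∈ NE k, ∑ d ∈ Ioc lo hi, |gp A D p lo hi d| * |gp A D p lo hi (d + σ w)|) := by
          rw [← Finset.mul_sum, ← Finset.mul_sum, Finset.sum_comm]
  rw [Finset.sum_congr rfl fun d _ => hdec d, Finset.sum_add_distrib, ← hG]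
  exact le_trans (abs_add_le _ _) (add_le_add hmain hrest)

/-- One shift vector, all primes. -/
theorem b10_all (k A D : ℕ) (hA : 2 ≤ A) (hS : 0 < SA A) (lo hi : ℤ) (hlo : 0 ≤ lo)
    (Y : ℝ) (hY : 1 ≤ Y) (hhi : (hi : ℝ) ≤ Y) (c j : Fin k → ℤ) :
    |∑ d ∈ Ioc lo hi, ∏ w : Finset (Fin k), ge A D lo hi (d + sgb c j w)| ≤
      (1 / SA A) * ∑ p ∈ PA A, ((1 / SA A) ^ #(NE k) * (4 * A : ℝ) ^ (2 * #(NE k) + 1) +
      ((1 / SA A) * (2 * Real.log Y) + 1) ^ #(NE k) * ((1 / SA A) *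
        ∑ w ∈ NE k, ∑ d ∈ Ioc lo hi, |gp A D p lo hi d| * |gp A D p lo hi (d + sgb c j w)|)) := by
  have hS1 : 0 ≤ 1 / SA A := by positivity
  have h1 : ∑ d ∈ Ioc lo hi, ∏ w : Finset (Fin k), ge A D lo hi (d + sgb c j w) =
      -(1 / SA A) * ∑ p ∈ PA A, ∑ d ∈ Ioc lo hi, gp A D p lo hi d *
        ∏ w ∈ NE k, ge A D lo hi (d + sgb c j w) := by
    rw [Finset.sum_comm, Finset.mul_sum]
    refine Finset.sum_congr rfl fun d _ => ?_
    rw [← Finset.mul_prod_erase Finset.univ (fun w => ge A D lo hi (d + sgb c j w))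
      (Finset.mem_univ (∅ : Finset (Fin k)))]
    have h2 : sgb c j (∅ : Finset (Fin k)) = 0 := by
      unfold sgb
      exact Finset.sum_empty
    change ge A D lo hi (d + sgb c j ∅) * ∏ w ∈ NE k, ge A D lo hi (d + sgb c j w) = _
    rw [h2, add_zero, ← Finset.sum_mul]
    conv_lhs => rw [ge]
    ring
  rw [h1, abs_mul, abs_neg, abs_of_nonneg hS1]
  refine mul_le_mul_of_nonneg_left ?_ hS1
  refine le_trans (Finset.abs_sum_le_sum_abs _ _) ?_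
  exact Finset.sum_le_sum fun p hp => b10_one k A D p hA hS hp lo hi hlo Y hY hhi (sgb c j)

theorem b10_corr (k A D H L : ℕ) (hA : 2 ≤ A) (hkA : k ≤ A) (hH : 4 * A ≤ H) (hL : 4 * A ≤ L) (hS : 0 < SA A) (lo hi : ℤ)
    (hlo : 0 ≤ lo) (h : hi - lo ≤ L) (Y : ℝ) (hY : 1 ≤ Y) (hhi : (hi : ℝ) ≤ Y)
    (c : Fin k → ℤ) (hc : ∀ i, 1 ≤ c i ∧ c i ≤ k) :
    ∑ j ∈ bxS k H, |∑ d ∈ Ioc lo hi, ∏ w : Finset (Fin k), ge A D lo hi (d + sgb c j w)| ≤
      (2 * H : ℝ) ^ k * ((1 / SA A) ^ (2 ^ k) * (4 * A : ℝ) ^ (2 ^ (k + 1))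
        + 27 * 2 ^ k * ((1 / SA A) * (2 * Real.log Y) + 1) ^ (2 ^ k) * (1 / SA A) ^ 2 * L / A) := by
  obtain ⟨N, hN⟩ : ∃ N : ℕ, N = #(NE k) := ⟨_, rfl⟩
  have hN1 : N + 1 = 2 ^ k := by rw [hN]; exact b10_card_NE k
  obtain ⟨s, hs⟩ : ∃ s : ℝ, s = 1 / SA A := ⟨_, rfl⟩
  obtain ⟨G, hG⟩ : ∃ G : ℝ, G = s * (2 * Real.log Y) + 1 := ⟨_, rfl⟩
  have hs0 : 0 < s := by rw [hs]; positivity
  have hG1 : 1 ≤ G := by
    rw [hG]
    have h1 : 0 ≤ Real.log Y := Real.log_nonneg hY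
    have h2 : 0 ≤ s * (2 * Real.log Y) := mul_nonneg hs0.le (by linarith)
    linarith
  have hA0 : (0 : ℝ) < A := by
    have : 0 < A := by omega
    exact_mod_cast this
  obtain ⟨B, hB⟩ : ∃ B : ℝ, B = (2 * H : ℝ) ^ k := ⟨_, rfl⟩
  have hB0 : 0 ≤ B := by rw [hB]; positivity
  have hcard := b10_card_bx k H
  rw [← hB] at hcard
  -- the sum over the shift vectors
  have h1 : ∑ j ∈ bxS k H, |∑ d ∈ Ioc lo hi, ∏ w : Finset (Fin k), ge A D lo hi (d + sgb c j w)| ≤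
      s * ∑ p ∈ PA A, (B * (s ^ N * (4 * A : ℝ) ^ (2 * N + 1)) +
        G ^ N * (s * ∑ w ∈ NE k, (B * (9 * L / (p : ℝ) ^ 2)))) := by
    calc ∑ j ∈ bxS k H, |∑ d ∈ Ioc lo hi, ∏ w : Finset (Fin k), ge A D lo hi (d + sgb c j w)|
        ≤ ∑ j ∈ bxS k H, s * ∑ p ∈ PA A, (s ^ N * (4 * A : ℝ) ^ (2 * N + 1) +
          G ^ N * (s * ∑ w ∈ NE k, ∑ d ∈ Ioc lo hi,
            |gp A D p lo hi d| * |gp A D p lo hi (d + sgb c j w)|)) := by
          refine Finset.sum_le_sum fun j _ => ?_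
          have h2 := b10_all k A D hA hS lo hi hlo Y hY hhi c j
          rw [← hs, ← hG, ← hN] at h2
          exact h2
      _ = s * ∑ p ∈ PA A, ((#(bxS k H) : ℝ) * (s ^ N * (4 * A : ℝ) ^ (2 * N + 1)) +
          G ^ N * (s * ∑ w ∈ NE k, ∑ j ∈ bxS k H, ∑ d ∈ Ioc lo hi,
            |gp A D p lo hi d| * |gp A D p lo hi (d + sgb c j w)|)) := by
          rw [← Finset.mul_sum, Finset.sum_comm]
          congr 1
          refine Finset.sum_congr rfl fun p _ => ?_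
          rw [Finset.sum_add_distrib, Finset.sum_const, nsmul_eq_mul, ← Finset.mul_sum,
            ← Finset.mul_sum, Finset.sum_comm]
      _ ≤ s * ∑ p ∈ PA A, (B * (s ^ N * (4 * A : ℝ) ^ (2 * N + 1)) +
          G ^ N * (s * ∑ w ∈ NE k, (B * (9 * L / (p : ℝ) ^ 2)))) := by
          refine mul_le_mul_of_nonneg_left (Finset.sum_le_sum fun p hp => ?_) hs0.le
          refine add_le_add (mul_le_mul_of_nonneg_right hcard (by positivity)) ?_
          refine mul_le_mul_of_nonneg_left (mul_le_mul_of_nonneg_left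
            (Finset.sum_le_sum fun w hw => ?_) hs0.le) (by positivity)
          unfold PA at hp
          rw [Finset.mem_filter, Finset.mem_Ioc] at hp
          unfold NE at hw
          rw [Finset.mem_erase] at hw
          rw [hB]
          exact b09_pair k A D p H L hp.2 (by omega) (by omega) (by omega) lo hi h c hc w
            (Finset.nonempty_iff_ne_empty.2 hw.1)
  refine le_trans h1 ?_
  -- the sum over the primes
  have h3 : ∑ p ∈ PA A, (B * (s ^ N * (4 * A : ℝ) ^ (2 * N + 1)) +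
      G ^ N * (s * ∑ w ∈ NE k, (B * (9 * L / (p : ℝ) ^ 2)))) ≤
      (3 * A) * (B * (s ^ N * (4 * A : ℝ) ^ (2 * N + 1)) +
      G ^ N * (s * (N * (B * (9 * L / (A : ℝ) ^ 2))))) := by
    have h4 : ∀ p ∈ PA A, (B * (s ^ N * (4 * A : ℝ) ^ (2 * N + 1)) +
        G ^ N * (s * ∑ w ∈ NE k, (B * (9 * L / (p : ℝ) ^ 2)))) ≤
        B * (s ^ N * (4 * A : ℝ) ^ (2 * N + 1)) +
        G ^ N * (s * (N * (B * (9 * L / (A : ℝ) ^ 2)))) := by
      intro p hp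
      unfold PA at hp
      rw [Finset.mem_filter, Finset.mem_Ioc] at hp
      have hpA : (A : ℝ) ≤ p := by exact_mod_cast hp.1.1.le
      rw [Finset.sum_const, nsmul_eq_mul, ← hN]
      refine add_le_add le_rfl (mul_le_mul_of_nonneg_left (mul_le_mul_of_nonneg_left
        (mul_le_mul_of_nonneg_left (mul_le_mul_of_nonneg_left ?_ hB0) (by positivity)) hs0.le)
        (by positivity))
      exact div_le_div_of_nonneg_left (by positivity) (by positivity)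
        (pow_le_pow_left₀ hA0.le hpA 2)
    refine le_trans (Finset.sum_le_sum h4) ?_
    rw [Finset.sum_const, nsmul_eq_mul]
    exact mul_le_mul_of_nonneg_right (b10_card_PA A) (by positivity)
  refine le_trans (mul_le_mul_of_nonneg_left h3 hs0.le) ?_
  have hNk : (N : ℝ) ≤ 2 ^ k := by
    have : N ≤ 2 ^ k := by omega
    exact_mod_cast this
  have h5 : s * ((3 * A) * (B * (s ^ N * (4 * A : ℝ) ^ (2 * N + 1)))) ≤
      B * (s ^ (2 ^ k) * (4 * A : ℝ) ^ (2 ^ (k + 1))) := by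
    rw [show 2 ^ (k + 1) = 2 * N + 1 + 1 by rw [pow_succ, ← hN1]; ring, ← hN1, pow_succ s N,
      pow_succ (4 * A : ℝ) (2 * N + 1)]
    have h6 : 0 ≤ B * (s ^ N * s * (4 * A : ℝ) ^ (2 * N + 1)) * A := by positivity
    nlinarith [h6]
  have h7 : s * ((3 * A) * (G ^ N * (s * (N * (B * (9 * L / (A : ℝ) ^ 2)))))) ≤
      B * (27 * 2 ^ k * G ^ (2 ^ k) * s ^ 2 * L / A) := by
    have h8 : s * ((3 * A) * (G ^ N * (s * (N * (B * (9 * L / (A : ℝ) ^ 2)))))) =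
        (G ^ N * N) * (B * (27 * s ^ 2 * L / A)) := by
      field_simp
      ring
    have h9 : B * (27 * 2 ^ k * G ^ (2 ^ k) * s ^ 2 * L / A) =
        (G ^ (2 ^ k) * 2 ^ k) * (B * (27 * s ^ 2 * L / A)) := by
      field_simp
    rw [h8, h9]
    refine mul_le_mul_of_nonneg_right ?_ (by positivity)
    exact mul_le_mul (pow_le_pow_right₀ hG1 (by omega)) hNk (by positivity) (by positivity)
  rw [← hs, ← hG, ← hB]
  calc s * ((3 * A) * (B * (s ^ N * (4 * A : ℝ) ^ (2 * N + 1)) +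
        G ^ N * (s * (N * (B * (9 * L / (A : ℝ) ^ 2))))))
      = s * ((3 * A) * (B * (s ^ N * (4 * A : ℝ) ^ (2 * N + 1)))) +
        s * ((3 * A) * (G ^ N * (s * (N * (B * (9 * L / (A : ℝ) ^ 2)))))) := by ring
    _ ≤ B * (s ^ (2 ^ k) * (4 * A : ℝ) ^ (2 ^ (k + 1))) +
        B * (27 * 2 ^ k * G ^ (2 ^ k) * s ^ 2 * L / A) := add_le_add h5 h7
    _ = B * (s ^ (2 ^ k) * (4 * A : ℝ) ^ (2 ^ (k + 1)) +
        27 * 2 ^ k * G ^ (2 ^ k) * s ^ 2 * L / A) := by ring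

end Pool.Agent.HUK
end

-- from Lib.HUK.B13
section

/-!
# HUK B13 (M/L): killing all functions of the dual function by Cauchy-Schwarz

PROOF. `E1_elim` with `G = ℤ × ℤ`, `r = k`, `B = Ioc lo hi ×ˢ Ioo (-2X) (2X)`, `B' = Ioc (lo - k H) hi ×ˢ Ioo (-2X - m H) (2X)`,
`v i = (k - i, m)`, `g i z = f i (z.1 * m - (k - i) * z.2)` (bounded by `Bdd.le`, invariant under `v i`: `(z.1 + (k-i)) m - (k-i) (z.2 + m)`),
`c z = a z.1 * b z.2` with `a d = (g d : ℂ)`, `b h = if h ∈ Ioo (-2X) (2X) then 1 else 0`. If `z + h • v i ∈ B`, `0 ≤ h < H`, then `z ∈ B'` (`1 ≤ k - i ≤ k`).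
`N = 8 (k+1) L X`: `#B' ≤ (L + k H) (4X + m H) ≤ (k+1) L * 8 X` (if `lo - kH > hi` the set is empty; `Int.card_Ioc`, `Int.card_Ioo`, `toNat`).
The left side: `∑_{z ∈ B} (∏_i g i z) c z = ∑_{d ∈ Ioc lo hi} g d * Psi X k f (d m)` (`Finset.sum_product`, `Finset.prod_range`).
The right side: `b11_mul` (`List.map` of `List.ofFn` is `List.ofFn`: `List.map_ofFn`): `DL (ofFn (j i • v i)) c z = DL (ofFn fun i => j i * (k - i)) a z.1 *
DL (ofFn fun i => j i * m) b z.2`; the sum over `B` is the product of the sums; the second has absolute value at most `4X` (`b11_le`), the first is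
`∑_{d ∈ Ioc lo hi} ∏_w g (d + ∑_{i ∈ w} j i (k - i))` (`b11_real`), i.e. the real number of the claim (`sgb`, commutativity).
So `(‖Σ‖/N)^(2^k) ≤ 2^(2^k) / H^k * ∑_j 4X |T j| / N`; multiply by `N^(2^k)`:
`‖Σ‖^(2^k) ≤ 2^(2^k) 4 N^(2^k - 1) X / H^k ∑_j |T j|`, and `N^(2^k-1) = (8(k+1))^(2^k-1) (L X)^(2^k-1)`. `C = 4 * 2^(2^k) * (8 (k+1))^(2^k)`.
-/

open Finset

namespace Pool.Agent.HUK

private theorem b13_left (X k m : ℕ) (f : ℕ → ℤ → ℂ) (lo hi : ℤ) (g : ℤ → ℝ) :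
    ∑ z ∈ Ioc lo hi ×ˢ Ioo (-(2 * X : ℤ)) (2 * X),
      (∏ i : Fin k, f i (z.1 * m - ((k : ℤ) - i) * z.2)) *
        (((g z.1 : ℝ) : ℂ) * (if z.2 ∈ Ioo (-(2 * X : ℤ)) (2 * X) then 1 else 0)) =
    ∑ d ∈ Ioc lo hi, ((g d : ℝ) : ℂ) * Psi X k f (d * m) := by
  rw [Finset.sum_product]
  refine Finset.sum_congr rfl fun d _ => ?_
  unfold Psi
  rw [Finset.mul_sum]
  refine Finset.sum_congr rfl fun h hh => ?_
  simp only [hh, if_true, mul_one]
  rw [mul_comm, Finset.prod_range]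

private theorem b13_card (X k m H L : ℕ) (lo hi : ℤ) (hL : hi - lo ≤ L) (hHL : H ≤ L) (hmH : m * H ≤ 4 * X) (hX : 1 ≤ X) :
    ((Ioc (lo - k * H) hi ×ˢ Ioo (-(2 * X : ℤ) - m * H) (2 * X)).card : ℝ) ≤ 8 * (k + 1) * L * X := by
  rw [Finset.card_product, Int.card_Ioc, Int.card_Ioo]
  have h1 : (hi - (lo - k * H)).toNat ≤ (k + 1) * L := by
    have h2 : (k : ℤ) * H ≤ k * L := by exact_mod_cast Nat.mul_le_mul_left k hHL
    have h3 : hi - (lo - k * H) ≤ (((k + 1) * L : ℕ) : ℤ) := by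
      push_cast
      linarith
    exact Int.toNat_le.mpr h3
  have h4 : ((2 * X : ℤ) - (-(2 * X : ℤ) - m * H) - 1).toNat ≤ 8 * X := by
    have h5 : ((m : ℤ) * H) ≤ 4 * X := by exact_mod_cast hmH
    exact Int.toNat_le.mpr (by push_cast; linarith)
  have h6 := Nat.mul_le_mul h1 h4
  have h7 : (((hi - (lo - k * H)).toNat * ((2 * X : ℤ) - (-(2 * X : ℤ) - m * H) - 1).toNat : ℕ) : ℝ) ≤
      (((k + 1) * L * (8 * X) : ℕ) : ℝ) := by exact_mod_cast h6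
  refine h7.trans (le_of_eq ?_)
  push_cast
  ring

private theorem b13_right (X k m : ℕ) (lo hi : ℤ) (g : ℤ → ℝ) (hX : 1 ≤ X) (j : Fin k → ℤ) :
    ‖∑ z ∈ Ioc lo hi ×ˢ Ioo (-(2 * X : ℤ)) (2 * X),
      DL (List.ofFn fun i : Fin k => j i • (((k : ℤ) - i, (m : ℤ)) : ℤ × ℤ))
        (fun z : ℤ × ℤ => ((g z.1 : ℝ) : ℂ) * (if z.2 ∈ Ioo (-(2 * X : ℤ)) (2 * X) then 1 else 0)) z‖ ≤
    |∑ d ∈ Ioc lo hi, ∏ w : Finset (Fin k), g (d + sgb (fun i => (k : ℤ) - i) j w)| * (4 * X) := by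
  have hb := fun z : ℤ × ℤ => b11_mul (List.ofFn fun i : Fin k => j i • (((k : ℤ) - i, (m : ℤ)) : ℤ × ℤ))
    (fun d => ((g d : ℝ) : ℂ)) (fun h => if h ∈ Ioo (-(2 * X : ℤ)) (2 * X) then (1 : ℂ) else 0) z
  rw [Finset.sum_congr rfl fun z _ => hb z, Finset.sum_product]
  simp only [List.map_ofFn]
  rw [← Finset.sum_mul_sum, norm_mul]
  refine mul_le_mul ?_ ?_ (norm_nonneg _) (abs_nonneg _)
  · have h1 : ∀ d, DL (List.ofFn (Prod.fst ∘ fun i : Fin k => j i • (((k : ℤ) - i, (m : ℤ)) : ℤ × ℤ))) (fun d => ((g d : ℝ) : ℂ)) d =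
        ((∏ w : Finset (Fin k), g (d + sgb (fun i => (k : ℤ) - i) j w) : ℝ) : ℂ) := by
      intro d
      rw [b11_real]
      congr 1
      refine Finset.prod_congr rfl fun w _ => ?_
      congr 2
      unfold sgb
      refine Finset.sum_congr rfl fun i _ => ?_
      simp [mul_comm]
    rw [Finset.sum_congr rfl fun d _ => h1 d, ← Complex.ofReal_sum, Complex.norm_real, Real.norm_eq_abs]
  · refine (norm_sum_le _ _).trans ?_
    refine (Finset.sum_le_sum fun h _ => b11_le _ _ (fun y => ?_) h).trans ?_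
    · by_cases hy : y ∈ Ioo (-(2 * X : ℤ)) (2 * X)
      · simp [hy]
      · simp [hy]
    · rw [Finset.sum_const, nsmul_eq_mul, mul_one, Int.card_Ioo]
      have h2 : ((2 * X : ℤ) - -(2 * X : ℤ) - 1).toNat ≤ 4 * X := Int.toNat_le.mpr (by push_cast; linarith)
      have h3 : ((((2 * X : ℤ) - -(2 * X : ℤ) - 1).toNat : ℕ) : ℝ) ≤ ((4 * X : ℕ) : ℝ) := by exact_mod_cast h2
      refine h3.trans (le_of_eq ?_)
      push_cast
      ring

theorem b13_elim (k : ℕ) (hk : 2 ≤ k) : ∃ C : ℝ, 1 ≤ C ∧ ∀ X m H L : ℕ, 1 ≤ X → 1 ≤ m → 1 ≤ H → H ≤ L → m * H ≤ 4 * X →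
    ∀ f : ℕ → ℤ → ℂ, (∀ j, j < k → Bdd X (f j)) → ∀ lo hi : ℤ, hi - lo ≤ L → ∀ g : ℤ → ℝ, (∀ d, d ∉ Ioc lo hi → g d = 0) →
    ‖∑ d ∈ Ioc lo hi, ((g d : ℝ) : ℂ) * Psi X k f (d * m)‖ ^ (2 ^ k) ≤
      C * ((L : ℝ) * X) ^ (2 ^ k - 1) * X * (1 / (H : ℝ) ^ k) *
        ∑ j ∈ bxS k H, |∑ d ∈ Ioc lo hi, ∏ w : Finset (Fin k), g (d + sgb (fun i => (k : ℤ) - i) j w)| := by
  refine ⟨4 * 2 ^ (2 ^ k) * (8 * (k + 1)) ^ (2 ^ k - 1), ?_, ?_⟩
  · have h1 : (1 : ℝ) ≤ 2 ^ (2 ^ k) := one_le_pow₀ (by norm_num)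
    have h2 : (1 : ℝ) ≤ (8 * ((k : ℝ) + 1)) ^ (2 ^ k - 1) := one_le_pow₀ (by
      have : (0 : ℝ) ≤ k := Nat.cast_nonneg k
      linarith)
    nlinarith
  intro X m H L hX hm hH hHL hmH f hf lo hi hL g hg
  have hX' : (0 : ℝ) < X := by exact_mod_cast hX
  have hL' : (0 : ℝ) < L := by exact_mod_cast (lt_of_lt_of_le (Nat.lt_of_lt_of_le Nat.zero_lt_one hH) hHL)
  have hH' : (0 : ℝ) < H := by exact_mod_cast hH
  have hk' : (0 : ℝ) ≤ k := Nat.cast_nonneg k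
  set N : ℝ := 8 * (k + 1) * L * X with hN
  have hN0 : 0 < N := by positivity
  have hE := E1_elim (G := ℤ × ℤ) (Ioc lo hi ×ˢ Ioo (-(2 * X : ℤ)) (2 * X))
    (Ioc (lo - k * H) hi ×ˢ Ioo (-(2 * X : ℤ) - m * H) (2 * X)) N (b13_card X k m H L lo hi hL hHL hmH hX) hN0 H hH k
    (fun i => ((k : ℤ) - i, (m : ℤ))) (fun i z => f i (z.1 * m - ((k : ℤ) - i) * z.2))
    (fun z => ((g z.1 : ℝ) : ℂ) * (if z.2 ∈ Ioo (-(2 * X : ℤ)) (2 * X) then 1 else 0))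
    (fun i z => (hf i i.2).le _)
    (fun i z => by
      simp only [Prod.fst_add, Prod.snd_add]
      congr 1
      ring)
    (fun z hz => by
      rw [Finset.mem_product, not_and_or] at hz
      rcases hz with hz | hz
      · simp [hg z.1 hz]
      · simp [hz])
    (fun i z h hh hz => by
      have s1 : (h • (((k : ℤ) - i, (m : ℤ)) : ℤ × ℤ)).1 = h * ((k : ℤ) - i) := by
        rw [Prod.smul_fst, nsmul_eq_mul]
      have s2 : (h • (((k : ℤ) - i, (m : ℤ)) : ℤ × ℤ)).2 = h * m := by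
        rw [Prod.smul_snd, nsmul_eq_mul]
      rw [Finset.mem_product, Finset.mem_Ioc, Finset.mem_Ioo] at hz ⊢
      rw [Prod.fst_add, Prod.snd_add, s1, s2] at hz
      have hi1 : (i : ℤ) < k := by exact_mod_cast i.2
      have hi0 : (0 : ℤ) ≤ i := by positivity
      have hh0 : (0 : ℤ) ≤ h := by positivity
      have hhH : (h : ℤ) ≤ H := by exact_mod_cast hh.le
      have e1 : (0 : ℤ) ≤ h * ((k : ℤ) - i) := mul_nonneg hh0 (by linarith)
      have e2 : (h : ℤ) * ((k : ℤ) - i) ≤ k * H := by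
        calc (h : ℤ) * ((k : ℤ) - i) ≤ H * k := mul_le_mul hhH (by linarith) (by linarith) (by positivity)
          _ = k * H := mul_comm _ _
      have e3 : (0 : ℤ) ≤ h * m := by positivity
      have e4 : (h : ℤ) * m ≤ m * H := by
        calc (h : ℤ) * m ≤ H * m := mul_le_mul_of_nonneg_right hhH (by positivity)
          _ = m * H := mul_comm _ _
      refine ⟨⟨by linarith [hz.1.1], by linarith [hz.1.2]⟩, ⟨by linarith [hz.2.1], by linarith [hz.2.2]⟩⟩)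
  rw [b13_left] at hE
  set S : ℝ := ‖∑ d ∈ Ioc lo hi, ((g d : ℝ) : ℂ) * Psi X k f (d * m)‖ with hS
  set T : (Fin k → ℤ) → ℝ := fun j => |∑ d ∈ Ioc lo hi, ∏ w : Finset (Fin k), g (d + sgb (fun i => (k : ℤ) - i) j w)| with hT
  have hR : (S / N) ^ (2 ^ k) ≤ 2 ^ (2 ^ k) / (H : ℝ) ^ k * ((∑ j ∈ bxS k H, T j) * (4 * X) / N) := by
    refine hE.trans (mul_le_mul_of_nonneg_left ?_ (by positivity))
    rw [Finset.sum_mul, Finset.sum_div]
    refine Finset.sum_le_sum fun j _ => ?_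
    exact div_le_div_of_nonneg_right (b13_right X k m lo hi g hX j) hN0.le
  have hpow : 2 ^ k - 1 + 1 = 2 ^ k := Nat.sub_add_cancel (Nat.one_le_two_pow)
  have hSN : S ^ (2 ^ k) = (S / N) ^ (2 ^ k) * N ^ (2 ^ k) := by
    rw [div_pow, div_mul_cancel₀]
    positivity
  rw [hSN]
  calc (S / N) ^ (2 ^ k) * N ^ (2 ^ k) ≤
      2 ^ (2 ^ k) / (H : ℝ) ^ k * ((∑ j ∈ bxS k H, T j) * (4 * X) / N) * N ^ (2 ^ k) :=
        mul_le_mul_of_nonneg_right hR (by positivity)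
    _ = 2 ^ (2 ^ k) / (H : ℝ) ^ k * ((∑ j ∈ bxS k H, T j) * (4 * X)) * N ^ (2 ^ k - 1) := by
        rw [← hpow, pow_succ (n := 2 ^ k - 1) (a := N)]
        rw [hpow]
        field_simp
    _ = 4 * 2 ^ (2 ^ k) * (8 * (k + 1)) ^ (2 ^ k - 1) * ((L : ℝ) * X) ^ (2 ^ k - 1) * X * (1 / (H : ℝ) ^ k) *
        ∑ j ∈ bxS k H, T j := by
        have : N ^ (2 ^ k - 1) = (8 * ((k : ℝ) + 1)) ^ (2 ^ k - 1) * ((L : ℝ) * X) ^ (2 ^ k - 1) := by
          rw [← mul_pow]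
          congr 1
          rw [hN]
          ring
        rw [this]
        ring

end Pool.Agent.HUK
end

-- from Lib.HUK.B15
section

/-!
# HUK B15 (M/L): the local estimate

PROOF. `A = ⌊X^τ⌋`, `D = ⌊X^θ⌋`, `S = SA A` (`> 0` and `1/S ≤ 8 log 4A` by `b01_sa`, `X` large so that `A ≥ A0`, `A ≥ k`).
`L = 2 k X / m` (division in `ℕ`). For `d > L` one has `d m > 2kX` and `Psi = 0` (`b12_psi_zero`); for `d ≤ D` `eta = 0` (`b03_eta_supp`). So if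
`L ≤ D` or `L ≤ i` the sum is `0`. Otherwise the sum is `∑_{d ∈ Ioc (i:ℤ) L} ge A D i L d * Psi(d m)` (`b03_ge`, sums over `ℕ` and over `ℤ`).
Take `H = L / k` (division in `ℕ`): `m H ≤ 2X`, `1 ≤ H ≤ L`, and `4A ≤ H` because `L > D ≥ 4 k (A + 1)` for `X` large (`θ ≥ 2^(k+3) τ ≥ 2 τ`).
`b13_elim` with `g = ge A D i L` (zero outside `(i, L]`) and `b10_corr` with `c i = k - i`, `Y = 2kX`, `hi = L ≤ Y`:
`‖Σ‖^(2^k) ≤ C (L X)^(2^k - 1) X H^(-k) (2H)^k [...] = 2^k C (LX)^(2^k - 1) X [...] ≤ (L X)^(2^k) X^(-τ/2)` by `b14_num` with the constant `2^k C`.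
Roots: `‖Σ‖ ≤ L X * X^(-τ/2^(k+1)) ≤ (2kX/m) X X^(-τ/2^(k+1)) ≤ X^(2-c)/m` with `c = τ/2^(k+2)` once `X^c ≥ 2k`.
-/

open Finset

namespace Pool.Agent.HUK

theorem b15_cast (i L : ℕ) (f : ℤ → ℂ) : ∑ d ∈ Ioc (i : ℤ) L, f d = ∑ d ∈ Ioc i L, f (d : ℤ) := by
  refine (Finset.sum_nbij' (fun d : ℕ => (d : ℤ)) (fun d : ℤ => d.toNat) ?_ ?_ ?_ ?_ ?_).symm
  · intro d hd
    rw [mem_Ioc] at hd ⊢
    exact ⟨by exact_mod_cast hd.1, by exact_mod_cast hd.2⟩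
  · intro d hd
    rw [mem_Ioc] at hd ⊢
    omega
  · intro d hd
    simp
  · intro d hd
    rw [mem_Ioc] at hd
    exact Int.toNat_of_nonneg (by omega)
  · intro d hd
    rfl

theorem b15_ge_zero (A D i L : ℕ) (d : ℤ) (hd : d ∉ Ioc (i : ℤ) L) : ge A D i L d = 0 := by
  unfold ge
  have h : ∀ p ∈ PA A, gp A D p i L d = 0 := by
    intro p _
    unfold gp
    rw [if_neg]
    rintro ⟨h1, h2, _⟩
    exact hd (mem_Ioc.mpr ⟨h1, h2⟩)
  rw [Finset.sum_eq_zero h, mul_zero]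

/-- The sum over `d` is a sum over `Ioc i L`. -/
theorem b15_sum (k X A D m i : ℕ) (hk : 2 ≤ k) (hm : 1 ≤ m) (f : ℕ → ℤ → ℂ) (hf : ∀ j, j < k → Bdd X (f j)) :
    ∑ d ∈ Ioc i (2 * k * X), ((eta A D d : ℝ) : ℂ) * Psi X k f ((d : ℤ) * m) =
      ∑ d ∈ Ioc (i : ℤ) ((2 * k * X / m : ℕ) : ℤ), ((ge A D i ((2 * k * X / m : ℕ) : ℤ) d : ℝ) : ℂ) * Psi X k f (d * m) := by
  rw [b15_cast i (2 * k * X / m)]
  have hsub : Ioc i (2 * k * X / m) ⊆ Ioc i (2 * k * X) :=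
    Finset.Ioc_subset_Ioc_right (Nat.div_le_self _ _)
  rw [← Finset.sum_subset hsub]
  · refine Finset.sum_congr rfl fun d hd => ?_
    rw [mem_Ioc] at hd
    rw [b03_ge, if_pos ⟨hd.1, by exact_mod_cast hd.2⟩]
  · intro d hd hd2
    rw [mem_Ioc] at hd
    rw [mem_Ioc] at hd2
    have h1 : 2 * k * X / m < d := by
      by_contra hcon
      exact hd2 ⟨hd.1, by omega⟩
    have h2 : 2 * k * X < d * m := (Nat.div_lt_iff_lt_mul (by omega)).mp h1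
    rw [b12_psi_zero X k hk f hf ((d : ℤ) * m) (by exact_mod_cast h2), mul_zero]

theorem b15_core (k X A D m i : ℕ) (hk : 2 ≤ k) (hX : 1 ≤ X) (hm : 1 ≤ m) (hA : 2 ≤ A) (hkA : k ≤ A) (hS : 0 < SA A)
    (f : ℕ → ℤ → ℂ) (hf : ∀ j, j < k → Bdd X (f j)) (hD : 4 * k * (A + 1) ≤ D) (hDL : D < 2 * k * X / m)
    (C : ℝ) (hC : 1 ≤ C)
    (hel : ∀ X m H L : ℕ, 1 ≤ X → 1 ≤ m → 1 ≤ H → H ≤ L → m * H ≤ 4 * X →
      ∀ f : ℕ → ℤ → ℂ, (∀ j, j < k → Bdd X (f j)) → ∀ lo hi : ℤ, hi - lo ≤ L → ∀ g : ℤ → ℝ, (∀ d, d ∉ Ioc lo hi → g d = 0) →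
      ‖∑ d ∈ Ioc lo hi, ((g d : ℝ) : ℂ) * Psi X k f (d * m)‖ ^ (2 ^ k) ≤
        C * ((L : ℝ) * X) ^ (2 ^ k - 1) * X * (1 / (H : ℝ) ^ k) *
          ∑ j ∈ bxS k H, |∑ d ∈ Ioc lo hi, ∏ w : Finset (Fin k), g (d + sgb (fun i => (k : ℤ) - i) j w)|) :
    ‖∑ d ∈ Ioc i (2 * k * X), ((eta A D d : ℝ) : ℂ) * Psi X k f ((d : ℤ) * m)‖ ^ (2 ^ k) ≤
      (((2 * k * X / m : ℕ) : ℝ) * X) ^ (2 ^ k - 1) * X * ((2 ^ k * C) * ((1 / SA A) ^ (2 ^ k) * (4 * A : ℝ) ^ (2 ^ (k + 1))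
        + 27 * 2 ^ k * ((1 / SA A) * (2 * Real.log (2 * k * X)) + 1) ^ (2 ^ k) * (1 / SA A) ^ 2 * ((2 * k * X / m : ℕ) : ℝ) / A)) := by
  rw [b15_sum k X A D m i hk hm f hf]
  have hA1 : 4 * k * (A + 1) < 2 * k * X / m := lt_of_le_of_lt hD hDL
  generalize hLdef : 2 * k * X / m = L at *
  have hmL : m * L ≤ 2 * k * X := by
    rw [← hLdef]
    exact Nat.mul_div_le _ _
  obtain ⟨H, hHdef⟩ : ∃ H, H = L / k := ⟨_, rfl⟩
  have hkH : k * H ≤ L := by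
    rw [hHdef]
    exact Nat.mul_div_le _ _
  have hH4 : 4 * A ≤ H := by
    rw [hHdef, Nat.le_div_iff_mul_le (by omega)]
    nlinarith
  have hHL : H ≤ L := by
    rw [hHdef]
    exact Nat.div_le_self _ _
  have hmH : m * H ≤ 4 * X := by
    have h1 : k * (m * H) ≤ k * (2 * X) := by
      calc k * (m * H) = m * (k * H) := by ring
        _ ≤ m * L := Nat.mul_le_mul_left _ hkH
        _ ≤ 2 * k * X := hmL
        _ = k * (2 * X) := by ring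
    have h2 : m * H ≤ 2 * X := Nat.le_of_mul_le_mul_left h1 (by omega)
    omega
  have hH1 : 1 ≤ H := by omega
  have h1 := hel X m H L hX hm hH1 hHL hmH f hf (i : ℤ) (L : ℤ) (by omega) (fun d => ge A D i L d)
    (fun d hd => b15_ge_zero A D i L d hd)
  have hY1 : (1 : ℝ) ≤ 2 * k * X := by
    have h : 1 ≤ 2 * k * X := Nat.succ_le_of_lt (by positivity)
    exact_mod_cast h
  have hLY : ((L : ℤ) : ℝ) ≤ 2 * k * X := by
    have h : L ≤ 2 * k * X := by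
      rw [← hLdef]
      exact Nat.div_le_self _ _
    exact_mod_cast h
  have h2 := b10_corr k A D H L hA hkA hH4 (by omega) hS (i : ℤ) (L : ℤ) (by omega) (by omega) (2 * k * X) hY1 hLY
    (fun i => (k : ℤ) - i) (fun i => ⟨by have := i.2; omega, by have := i.2; omega⟩)
  have hHpos : (0 : ℝ) < H := by exact_mod_cast hH1
  refine h1.trans ?_
  have h3 : 0 ≤ C * ((L : ℝ) * X) ^ (2 ^ k - 1) * X * (1 / (H : ℝ) ^ k) := by positivity
  refine (mul_le_mul_of_nonneg_left h2 h3).trans (le_of_eq ?_)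
  rw [mul_pow (2 : ℝ) (H : ℝ) k]
  field_simp

theorem b15_local (k : ℕ) (hk : 2 ≤ k) (θ τ : ℝ) (hτ : 0 < τ) (hθτ : 2 ^ (k + 3) * τ ≤ θ) (hθ : θ ≤ 1) :
    ∃ c : ℝ, 0 < c ∧ ∃ X0 : ℕ, ∀ X : ℕ, X0 ≤ X → ∀ f : ℕ → ℤ → ℂ, (∀ j, j < k → Bdd X (f j)) → ∀ m i : ℕ, 1 ≤ m →
    ‖∑ d ∈ Ioc i (2 * k * X), ((eta ⌊(X : ℝ) ^ τ⌋₊ ⌊(X : ℝ) ^ θ⌋₊ d : ℝ) : ℂ) * Psi X k f ((d : ℤ) * m)‖ ≤
      (X : ℝ) ^ (2 - c) / m := by
  obtain ⟨A0, hA02, hA0⟩ := b01_sa
  obtain ⟨C, hC1, hel⟩ := b13_elim k hk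
  have hC2 : (1 : ℝ) ≤ 2 ^ k * C := by
    have h : (1 : ℝ) ≤ 2 ^ k := one_le_pow₀ (by norm_num)
    nlinarith
  obtain ⟨X1, hX1⟩ := b14_num k θ τ (2 ^ k * C) hτ hθτ hθ hC2
  have hc : 0 < τ / (4 * 2 ^ k) := by positivity
  refine ⟨τ / (4 * 2 ^ k), hc, ?_⟩
  have ht1 : Filter.Tendsto (fun X : ℕ => (X : ℝ) ^ τ) Filter.atTop Filter.atTop :=
    (tendsto_rpow_atTop hτ).comp tendsto_natCast_atTop_atTop
  have ht2 : Filter.Tendsto (fun X : ℕ => (X : ℝ) ^ (τ / (4 * 2 ^ k))) Filter.atTop Filter.atTop :=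
    (tendsto_rpow_atTop hc).comp tendsto_natCast_atTop_atTop
  have hev := ((ht1.eventually_ge_atTop ((A0 : ℝ) + k)).and ((ht1.eventually_ge_atTop (8 * k : ℝ)).and
    (ht2.eventually_ge_atTop (2 * k : ℝ)))).and ((Filter.eventually_ge_atTop 1).and (Filter.eventually_ge_atTop X1))
  obtain ⟨X0, hX0⟩ := Filter.eventually_atTop.mp hev
  refine ⟨X0, fun X hX f hf m i hm => ?_⟩
  obtain ⟨⟨e1, e2, e3⟩, e4, e5⟩ := hX0 X hX
  obtain ⟨A, hAdef⟩ : ∃ A, A = ⌊(X : ℝ) ^ τ⌋₊ := ⟨_, rfl⟩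
  obtain ⟨D, hDdef⟩ : ∃ D, D = ⌊(X : ℝ) ^ θ⌋₊ := ⟨_, rfl⟩
  rw [← hAdef, ← hDdef]
  have hXr : (1 : ℝ) ≤ X := by exact_mod_cast e4
  have hXpos : (0 : ℝ) < X := by linarith
  have hAk : A0 + k ≤ A := by
    rw [hAdef]
    refine Nat.le_floor ?_
    push_cast
    exact e1
  have hAle : (A : ℝ) ≤ (X : ℝ) ^ τ := by
    rw [hAdef]
    exact Nat.floor_le (by positivity)
  have hS8 := hA0 A (by omega)
  have hlogpos : 0 < Real.log (4 * A) := by
    refine Real.log_pos ?_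
    have h : (2 : ℝ) ≤ A := by exact_mod_cast (show 2 ≤ A by omega)
    linarith
  have hS : 0 < SA A := lt_of_lt_of_le (by positivity) hS8
  have hS1 : 1 / SA A ≤ 8 * Real.log (4 * A) := by
    rw [div_le_iff₀ hS]
    rw [div_le_iff₀ (by positivity)] at hS8
    linarith
  have hkr : (2 : ℝ) ≤ k := by exact_mod_cast hk
  have hD4 : 4 * k * (A + 1) ≤ D := by
    rw [hDdef]
    refine Nat.le_floor ?_
    push_cast
    have h32 : 2 * τ ≤ θ := by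
      have h : (2 : ℝ) ≤ 2 ^ (k + 3) := by
        calc (2 : ℝ) = 2 ^ 1 := by norm_num
          _ ≤ 2 ^ (k + 3) := pow_le_pow_right₀ (by norm_num) (by omega)
      nlinarith
    have h1 : (X : ℝ) ^ (2 * τ) ≤ (X : ℝ) ^ θ := Real.rpow_le_rpow_of_exponent_le hXr h32
    have h2 : (X : ℝ) ^ (2 * τ) = (X : ℝ) ^ τ * (X : ℝ) ^ τ := by
      rw [two_mul, Real.rpow_add hXpos]
    have h3 : (1 : ℝ) ≤ (X : ℝ) ^ τ := Real.one_le_rpow hXr hτ.le
    calc (4 * k * (A + 1) : ℝ) ≤ 4 * k * ((X : ℝ) ^ τ + (X : ℝ) ^ τ) := by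
          refine mul_le_mul_of_nonneg_left (by linarith) (by positivity)
      _ = 8 * k * (X : ℝ) ^ τ := by ring
      _ ≤ (X : ℝ) ^ τ * (X : ℝ) ^ τ := mul_le_mul_of_nonneg_right e2 (by positivity)
      _ ≤ (X : ℝ) ^ θ := by rw [← h2]; exact h1
  have hmr : (1 : ℝ) ≤ m := by exact_mod_cast hm
  by_cases hDL : D < 2 * k * X / m
  swap
  · have hz : ∀ d ∈ Ioc i (2 * k * X), ((eta A D d : ℝ) : ℂ) * Psi X k f ((d : ℤ) * m) = 0 := by
      intro d _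
      by_cases hd : 2 * k * X / m < d
      · have h2 : 2 * k * X < d * m := (Nat.div_lt_iff_lt_mul (by omega)).mp hd
        rw [b12_psi_zero X k hk f hf ((d : ℤ) * m) (by exact_mod_cast h2), mul_zero]
      · have h3 : eta A D d = 0 := by
          by_contra hne
          have := b03_eta_supp A D d hne
          omega
        rw [h3, Complex.ofReal_zero, zero_mul]
    rw [Finset.sum_eq_zero hz, norm_zero]
    positivity
  have hcore := b15_core k X A D m i hk e4 hm (by omega) (by omega) hS f hf hD4 hDL C hC1 hel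
  have hDLr : (⌊(X : ℝ) ^ θ⌋₊ : ℝ) ≤ ((2 * k * X / m : ℕ) : ℝ) := by
    rw [← hDdef]
    exact_mod_cast hDL.le
  have hnum := hX1 X e5 (SA A) hS (by rw [← hAdef]; exact hS1) _ hDLr
  rw [← hAdef] at hnum
  generalize ‖∑ d ∈ Ioc i (2 * k * X), ((eta A D d : ℝ) : ℂ) * Psi X k f ((d : ℤ) * m)‖ = N at *
  have hLle : ((2 * k * X / m : ℕ) : ℝ) ≤ 2 * k * X / m := by
    have h := @Nat.cast_div_le ℝ _ _ _ (2 * k * X) m
    push_cast at h
    exact h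
  have hLpos : (0 : ℝ) < ((2 * k * X / m : ℕ) : ℝ) := by exact_mod_cast (by omega : 0 < 2 * k * X / m)
  generalize ((2 * k * X / m : ℕ) : ℝ) = L at *
  have hpow : N ^ (2 ^ k) ≤ (L * X * (X : ℝ) ^ (-(τ / (2 * 2 ^ k)))) ^ (2 ^ k) := by
    refine hcore.trans ?_
    have h1 : (L * X) ^ (2 ^ k - 1) * X * ((2 ^ k * C) * ((1 / SA A) ^ (2 ^ k) * (4 * A : ℝ) ^ (2 ^ (k + 1))
        + 27 * 2 ^ k * ((1 / SA A) * (2 * Real.log (2 * k * X)) + 1) ^ (2 ^ k) * (1 / SA A) ^ 2 * L / A)) ≤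
        (L * X) ^ (2 ^ k - 1) * X * (L * (X : ℝ) ^ (-(τ / 2))) :=
      mul_le_mul_of_nonneg_left hnum (by positivity)
    refine h1.trans (le_of_eq ?_)
    have h2 : ((X : ℝ) ^ (-(τ / (2 * 2 ^ k)))) ^ (2 ^ k) = (X : ℝ) ^ (-(τ / 2)) := by
      rw [← Real.rpow_natCast, ← Real.rpow_mul hXpos.le]
      congr 1
      push_cast
      field_simp
    rw [mul_pow (L * X) ((X : ℝ) ^ (-(τ / (2 * 2 ^ k)))) (2 ^ k), h2]
    have h3 : (L * X) ^ (2 ^ k) = (L * X) ^ (2 ^ k - 1) * (L * X) := by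
      rw [← pow_succ]
      congr 1
      have : 0 < 2 ^ k := by positivity
      omega
    rw [h3]
    ring
  have hb : 0 ≤ L * X * (X : ℝ) ^ (-(τ / (2 * 2 ^ k))) := by positivity
  have hN : N ≤ L * X * (X : ℝ) ^ (-(τ / (2 * 2 ^ k))) := le_of_pow_le_pow_left₀ (by positivity) hb hpow
  refine hN.trans ?_
  have hm0 : (0 : ℝ) < m := by linarith
  rw [le_div_iff₀ hm0]
  have h4 : L * m ≤ 2 * k * X := by
    rw [le_div_iff₀ hm0] at hLle
    exact hLle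
  have h5 : (X : ℝ) ^ (2 - τ / (4 * 2 ^ k)) = (X : ℝ) ^ (τ / (4 * 2 ^ k)) * (X * X * (X : ℝ) ^ (-(τ / (2 * 2 ^ k)))) := by
    have h6 : (X : ℝ) * X = (X : ℝ) ^ (2 : ℝ) := by
      rw [Real.rpow_two]
      ring
    rw [h6, ← Real.rpow_add hXpos, ← Real.rpow_add hXpos]
    congr 1
    field_simp
    ring
  rw [h5]
  calc L * X * (X : ℝ) ^ (-(τ / (2 * 2 ^ k))) * m = (L * m) * (X * (X : ℝ) ^ (-(τ / (2 * 2 ^ k)))) := by ring
    _ ≤ (2 * k * X) * (X * (X : ℝ) ^ (-(τ / (2 * 2 ^ k)))) := mul_le_mul_of_nonneg_right h4 (by positivity)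
    _ = (2 * k) * (X * X * (X : ℝ) ^ (-(τ / (2 * 2 ^ k)))) := by ring
    _ ≤ (X : ℝ) ^ (τ / (4 * 2 ^ k)) * (X * X * (X : ℝ) ^ (-(τ / (2 * 2 ^ k)))) :=
        mul_le_mul_of_nonneg_right e3 (by positivity)

end Pool.Agent.HUK
end

-- from Lib.HUK.B16
section

/-!
# HUK B16 (M): the weighted double sum

PROOF. `b15_local` gives `c`, `X0`; take the new exponent `c' = c / 2`, `ε = c / 8`. `Icc 1 Y = Ioc 0 Y`, `Y = 2kX`. Weight `1`: for fixed `m` the inner sum is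
`γ m` times the sum of `b15_local` with `i = 0`. Weight `log`: `b12_log` with `a d = eta d * Psi (d m)`, `E = X^(2-c)/m` gives the factor
`log (2kX+1)`. So the double sum is at most `∑_{m ≤ 2kX} X^ε X^(2-c) (1 + log(2kX+1)) / m ≤ X^(2-c+ε) (1 + log(2kX+1))^2` (harmonic sum
`∑_{m ≤ Y} 1/m ≤ 1 + log Y`: `harmonic_le_one_add_log`), at most `X^(2 - c/2)` for large `X` (`(1 + log(2kX+1))^2 ≤ X^(c/8)`).
-/

open Finset

namespace Pool.Agent.HUK

theorem b16_large (k : ℕ) (hk : 2 ≤ k) (c : ℝ) (hc : 0 < c) : ∃ X0 : ℕ, 1 ≤ X0 ∧ ∀ X : ℕ, X0 ≤ X →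
    (1 + Real.log ((2 * k * X : ℕ) + 1)) ^ 2 ≤ (X : ℝ) ^ (c / 8) := by
  have h1 : ∀ᶠ x : ℝ in Filter.atTop, ‖Real.log x‖ ≤ 1 / 3 * ‖x ^ (c / 16)‖ :=
    (isLittleO_log_rpow_atTop (show (0 : ℝ) < c / 16 by positivity)).def (by norm_num)
  have h2 : ∀ᶠ X : ℕ in Filter.atTop, ‖Real.log (X : ℝ)‖ ≤ 1 / 3 * ‖(X : ℝ) ^ (c / 16)‖ :=
    tendsto_natCast_atTop_atTop.eventually h1
  obtain ⟨X1, hX1⟩ := Filter.eventually_atTop.1 h2
  refine ⟨max X1 (2 * k + 3), le_max_of_le_right (by omega), fun X hX => ?_⟩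
  have hX1' : X1 ≤ X := (le_max_left _ _).trans hX
  have hX2 : 2 * k + 3 ≤ X := (le_max_right _ _).trans hX
  have hXr : (2 * k + 3 : ℝ) ≤ X := by exact_mod_cast hX2
  have hk0 : (0 : ℝ) ≤ k := Nat.cast_nonneg k
  have hX0 : (0 : ℝ) < X := by linarith
  have h3 := hX1 X hX1'
  rw [Real.norm_of_nonneg (Real.log_nonneg (by linarith)), Real.norm_of_nonneg (Real.rpow_nonneg hX0.le _)] at h3
  have h4 : Real.log ((2 * k * X : ℕ) + 1) ≤ 2 * Real.log X := by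
    have h5 : Real.log ((X : ℝ) ^ 2) = 2 * Real.log X := by rw [Real.log_pow]; norm_num
    rw [← h5]
    refine Real.log_le_log (by positivity) ?_
    push_cast
    nlinarith
  have h6 : 1 ≤ Real.log X := by
    rw [Real.le_log_iff_exp_le hX0]
    have := Real.exp_one_lt_d9
    linarith
  have h7 : 0 ≤ Real.log ((2 * k * X : ℕ) + 1) := Real.log_nonneg (by
    have : (0 : ℝ) ≤ ((2 * k * X : ℕ) : ℝ) := Nat.cast_nonneg _
    linarith)
  have h8 : (1 + Real.log ((2 * k * X : ℕ) + 1)) ≤ (X : ℝ) ^ (c / 16) := by linarith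
  calc (1 + Real.log ((2 * k * X : ℕ) + 1)) ^ 2 ≤ ((X : ℝ) ^ (c / 16)) ^ 2 := pow_le_pow_left₀ (by linarith) h8 2
    _ = (X : ℝ) ^ (c / 8) := by
      rw [← Real.rpow_natCast, ← Real.rpow_mul hX0.le]
      congr 1
      push_cast
      ring

theorem b16_harm (Y : ℕ) : ∑ m ∈ Icc 1 Y, 1 / (m : ℝ) ≤ 1 + Real.log (Y + 1) := by
  have h1 := harmonic_le_one_add_log Y
  have h2 : ((harmonic Y : ℚ) : ℝ) = ∑ m ∈ Icc 1 Y, 1 / (m : ℝ) := by
    rw [harmonic_eq_sum_Icc]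
    push_cast
    exact sum_congr rfl fun m _ => (one_div _).symm
  rw [← h2]
  refine h1.trans ?_
  rcases Nat.eq_zero_or_pos Y with h | h
  · subst h
    simp
  · have h3 : Real.log Y ≤ Real.log (Y + 1) := Real.log_le_log (by exact_mod_cast h) (by linarith)
    linarith

/-- **Main statement of the eta part.** Weight `1` or `log`. `A = ⌊X^τ⌋`, `D = ⌊X^θ⌋`. -/
theorem b16_eta_sum (k : ℕ) (hk : 2 ≤ k) (θ τ : ℝ) (hτ : 0 < τ) (hθτ : 2 ^ (k + 3) * τ ≤ θ) (hθ : θ ≤ 1) :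
    ∃ c ε : ℝ, 0 < c ∧ 0 < ε ∧ ∃ X0 : ℕ, ∀ X : ℕ, X0 ≤ X → ∀ f : ℕ → ℤ → ℂ, (∀ j, j < k → Bdd X (f j)) →
    ∀ γ : ℕ → ℂ, (∀ m, ‖γ m‖ ≤ (X : ℝ) ^ ε) →
    ∀ ω : ℕ → ℝ, ((∀ d, ω d = 1) ∨ (∀ d : ℕ, ω d = Real.log d)) →
    ‖∑ m ∈ Icc 1 (2 * k * X), ∑ d ∈ Icc 1 (2 * k * X),
      γ m * ((eta ⌊(X : ℝ) ^ τ⌋₊ ⌊(X : ℝ) ^ θ⌋₊ d * ω d : ℝ) : ℂ) * Psi X k f ((d : ℤ) * m)‖ ≤ (X : ℝ) ^ (2 - c) := by
  obtain ⟨c, hc, X1, hX1⟩ := b15_local k hk θ τ hτ hθτ hθ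
  obtain ⟨X2, hX2, hX2'⟩ := b16_large k hk c hc
  refine ⟨c / 2, c / 8, by positivity, by positivity, max X1 X2, ?_⟩
  intro X hX f hf γ hγ ω hω
  have hXa : X1 ≤ X := (le_max_left _ _).trans hX
  have hXb : X2 ≤ X := (le_max_right _ _).trans hX
  have hXc : (1 : ℝ) ≤ X := by exact_mod_cast hX2.trans hXb
  have hX0 : (0 : ℝ) < X := by linarith
  have hlarge := hX2' X hXb
  set Y : ℕ := 2 * k * X with hY
  set Lg : ℝ := 1 + Real.log ((Y : ℕ) + 1) with hLg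
  have hlog : 0 ≤ Real.log ((Y : ℝ) + 1) := Real.log_nonneg (by
    have : (0 : ℝ) ≤ (Y : ℝ) := Nat.cast_nonneg _
    linarith)
  have hLg0 : 0 ≤ Lg := by rw [hLg]; linarith
  have hinner : ∀ m ∈ Icc 1 Y, ‖∑ d ∈ Icc 1 Y,
      γ m * ((eta ⌊(X : ℝ) ^ τ⌋₊ ⌊(X : ℝ) ^ θ⌋₊ d * ω d : ℝ) : ℂ) * Psi X k f ((d : ℤ) * m)‖ ≤
      (X : ℝ) ^ (c / 8) * ((X : ℝ) ^ (2 - c) * Lg) * (1 / (m : ℝ)) := by
    intro m hm
    have hm1 : 1 ≤ m := (mem_Icc.1 hm).1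
    have hm0 : (0 : ℝ) < m := by exact_mod_cast hm1
    have hE := fun i => hX1 X hXa f hf m i hm1
    have hE0 : 0 ≤ (X : ℝ) ^ (2 - c) / m := div_nonneg (Real.rpow_nonneg hX0.le _) hm0.le
    have key : ‖∑ d ∈ Icc 1 Y, ((eta ⌊(X : ℝ) ^ τ⌋₊ ⌊(X : ℝ) ^ θ⌋₊ d : ℝ) : ℂ) * Psi X k f ((d : ℤ) * m) * ((ω d : ℝ) : ℂ)‖ ≤
        (X : ℝ) ^ (2 - c) / m * Lg := by
      rcases hω with h | h
      · have h1 : ∑ d ∈ Icc 1 Y, ((eta ⌊(X : ℝ) ^ τ⌋₊ ⌊(X : ℝ) ^ θ⌋₊ d : ℝ) : ℂ) * Psi X k f ((d : ℤ) * m) * ((ω d : ℝ) : ℂ) =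
            ∑ d ∈ Ioc 0 Y, ((eta ⌊(X : ℝ) ^ τ⌋₊ ⌊(X : ℝ) ^ θ⌋₊ d : ℝ) : ℂ) * Psi X k f ((d : ℤ) * m) := by
          refine sum_congr ?_ fun d _ => ?_
          · ext d
            rw [mem_Icc, mem_Ioc]
            omega
          · rw [h d, Complex.ofReal_one, mul_one]
        rw [h1]
        refine (hE 0).trans ?_
        rw [hLg]
        nlinarith
      · have h1 := b12_log Y (fun d => ((eta ⌊(X : ℝ) ^ τ⌋₊ ⌊(X : ℝ) ^ θ⌋₊ d : ℝ) : ℂ) * Psi X k f ((d : ℤ) * m))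
          ((X : ℝ) ^ (2 - c) / m) hE
        have h2 : ∑ d ∈ Icc 1 Y, ((eta ⌊(X : ℝ) ^ τ⌋₊ ⌊(X : ℝ) ^ θ⌋₊ d : ℝ) : ℂ) * Psi X k f ((d : ℤ) * m) * ((ω d : ℝ) : ℂ) =
            ∑ d ∈ Icc 1 Y, ((eta ⌊(X : ℝ) ^ τ⌋₊ ⌊(X : ℝ) ^ θ⌋₊ d : ℝ) : ℂ) * Psi X k f ((d : ℤ) * m) * ((Real.log d : ℝ) : ℂ) :=
          sum_congr rfl fun d _ => by rw [h d]
        rw [h2]
        refine h1.trans ?_
        rw [hLg]
        nlinarith
    have h3 : ∑ d ∈ Icc 1 Y, γ m * ((eta ⌊(X : ℝ) ^ τ⌋₊ ⌊(X : ℝ) ^ θ⌋₊ d * ω d : ℝ) : ℂ) * Psi X k f ((d : ℤ) * m) =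
        γ m * ∑ d ∈ Icc 1 Y, ((eta ⌊(X : ℝ) ^ τ⌋₊ ⌊(X : ℝ) ^ θ⌋₊ d : ℝ) : ℂ) * Psi X k f ((d : ℤ) * m) * ((ω d : ℝ) : ℂ) := by
      rw [mul_sum]
      refine sum_congr rfl fun d _ => ?_
      rw [Complex.ofReal_mul]
      ring
    rw [h3, norm_mul]
    calc ‖γ m‖ * ‖∑ d ∈ Icc 1 Y, ((eta ⌊(X : ℝ) ^ τ⌋₊ ⌊(X : ℝ) ^ θ⌋₊ d : ℝ) : ℂ) * Psi X k f ((d : ℤ) * m) * ((ω d : ℝ) : ℂ)‖
        ≤ (X : ℝ) ^ (c / 8) * ((X : ℝ) ^ (2 - c) / m * Lg) :=
          mul_le_mul (hγ m) key (norm_nonneg _) (Real.rpow_nonneg hX0.le _)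
      _ = (X : ℝ) ^ (c / 8) * ((X : ℝ) ^ (2 - c) * Lg) * (1 / (m : ℝ)) := by ring
  calc ‖∑ m ∈ Icc 1 Y, ∑ d ∈ Icc 1 Y,
      γ m * ((eta ⌊(X : ℝ) ^ τ⌋₊ ⌊(X : ℝ) ^ θ⌋₊ d * ω d : ℝ) : ℂ) * Psi X k f ((d : ℤ) * m)‖
      ≤ ∑ m ∈ Icc 1 Y, (X : ℝ) ^ (c / 8) * ((X : ℝ) ^ (2 - c) * Lg) * (1 / (m : ℝ)) :=
        (norm_sum_le _ _).trans (sum_le_sum hinner)
    _ = (X : ℝ) ^ (c / 8) * ((X : ℝ) ^ (2 - c) * Lg) * ∑ m ∈ Icc 1 Y, 1 / (m : ℝ) := by rw [mul_sum]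
    _ ≤ (X : ℝ) ^ (c / 8) * ((X : ℝ) ^ (2 - c) * Lg) * Lg :=
        mul_le_mul_of_nonneg_left (b16_harm Y) (mul_nonneg (Real.rpow_nonneg hX0.le _)
          (mul_nonneg (Real.rpow_nonneg hX0.le _) hLg0))
    _ = (X : ℝ) ^ (c / 8) * (X : ℝ) ^ (2 - c) * Lg ^ 2 := by ring
    _ ≤ (X : ℝ) ^ (c / 8) * (X : ℝ) ^ (2 - c) * (X : ℝ) ^ (c / 8) :=
        mul_le_mul_of_nonneg_left hlarge (mul_nonneg (Real.rpow_nonneg hX0.le _) (Real.rpow_nonneg hX0.le _))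
    _ = (X : ℝ) ^ (c / 8 + (2 - c) + c / 8) := by rw [Real.rpow_add hX0, Real.rpow_add hX0]
    _ ≤ (X : ℝ) ^ (2 - c / 2) := Real.rpow_le_rpow_of_exponent_le hXc (by linarith)

end Pool.Agent.HUK
end

-- from Lib.HUK.BFin
section

/-!
# Project HUK, module B: the interface of the eta part (helper5) used by the Heath-Brown part (helper68)
-/

open Finset

namespace Pool.Agent.HUK

noncomputable section

/-- For large `A` the sum of the reciprocals of the primes in `(A, 4A]` is at least `1/(8 log 4A)`. -/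
theorem sa_ge : ∃ A0 : ℕ, 2 ≤ A0 ∧ ∀ A : ℕ, A0 ≤ A → 1 / (8 * Real.log (4 * A)) ≤ SA A := b01_sa

/-- `1 = s + u * v + η`. -/
theorem b_one (A D d : ℕ) (hS : 0 < SA A) (hd : 1 ≤ d) :
    (1 : ℝ) = sml A D d + ∑ x ∈ d.divisorsAntidiagonal, uu A x.1 * vv A D x.2 + eta A D d := b02_one A D d hS hd

/-- `log = s log + (u log) * v + u * (v log) + η log`. -/
theorem b_log (A D d : ℕ) (hS : 0 < SA A) (hd : 1 ≤ d) :
    Real.log d = sml A D d * Real.log d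
      + ∑ x ∈ d.divisorsAntidiagonal, uu A x.1 * Real.log x.1 * vv A D x.2
      + ∑ x ∈ d.divisorsAntidiagonal, uu A x.1 * (vv A D x.2 * Real.log x.2) + eta A D d * Real.log d :=
  b02_log A D d hS hd

theorem sml_zero (A D d : ℕ) (hS : 0 < SA A) (hd : 4 * D < d) : sml A D d = 0 := b03_sml_zero A D d hS hd

theorem sml_mem (A D d : ℕ) (hS : 0 < SA A) : 0 ≤ sml A D d ∧ sml A D d ≤ 1 := b03_sml_mem A D d hS

theorem uu_supp (A p : ℕ) (h : uu A p ≠ 0) : A < p ∧ p ≤ 4 * A := b03_uu_supp A p h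

theorem uu_mem (A p : ℕ) : 0 ≤ uu A p ∧ uu A p ≤ 1 / SA A := b03_uu_mem A p

theorem vv_mem (A D e : ℕ) : 0 ≤ vv A D e ∧ vv A D e ≤ 1 := b03_vv_mem A D e



/-- **Main statement of the eta part.** Weight `1` or `log`. `A = ⌊X^τ⌋`, `D = ⌊X^θ⌋`. -/
theorem eta_sum (k : ℕ) (hk : 2 ≤ k) (θ τ : ℝ) (hτ : 0 < τ) (hθτ : 2 ^ (k + 3) * τ ≤ θ) (hθ : θ ≤ 1) :
    ∃ c ε : ℝ, 0 < c ∧ 0 < ε ∧ ∃ X0 : ℕ, ∀ X : ℕ, X0 ≤ X → ∀ f : ℕ → ℤ → ℂ, (∀ j, j < k → Bdd X (f j)) →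
    ∀ γ : ℕ → ℂ, (∀ m, ‖γ m‖ ≤ (X : ℝ) ^ ε) →
    ∀ ω : ℕ → ℝ, ((∀ d, ω d = 1) ∨ (∀ d : ℕ, ω d = Real.log d)) →
    ‖∑ m ∈ Icc 1 (2 * k * X), ∑ d ∈ Icc 1 (2 * k * X),
      γ m * ((eta ⌊(X : ℝ) ^ τ⌋₊ ⌊(X : ℝ) ^ θ⌋₊ d * ω d : ℝ) : ℂ) * Psi X k f ((d : ℤ) * m)‖ ≤ (X : ℝ) ^ (2 - c) :=
  b16_eta_sum k hk θ τ hτ hθτ hθ

end

end Pool.Agent.HUK
end
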