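import Pool.Agent.Lib.H59M.M1.M026
import Pool.Agent.Lib.H59M.M1.M028
import Pool.Agent.Lib.H59M.M1.M044
import Pool.Agent.Lib.H59M.M1.M045

/-! Merged copies (to shorten the build) of Lib.HUK.A11, Lib.HUK.A12. -/

-- from Lib.HUK.A11
section

open Finset

namespace Pool.Agent.HUK

open Pool.Agent.H44W (ee)
open Pool.Agent.Lib.H84V (nd)

/-- At least `δ/4 K` elements. -/
theorem A11_card (X K H : ℕ) (hX : 1 ≤ X) (hH : 1 ≤ H) (δ : ℝ) (hδ : 0 < δ) (hδ1 : δ ≤ 1 / 2) (𝒜 : Finset ℕ)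
    (g : ℕ → ℤ → ℂ) (hg : ∀ a ∈ 𝒜, Bdd X (g a))
    (h : δ * (H * ((K : ℝ) * X) ^ 2) ≤ ∑ m ∈ Ioo (-(H : ℤ)) H, ‖∑ a ∈ 𝒜, ∑ y ∈ Ico (-(X : ℤ)) X,
      g a y * (starRingEnd ℂ) (g a (y + a * m))‖ ^ 2) : δ / 4 * K ≤ 𝒜.card := by
  have hX' : (0 : ℝ) < X := by exact_mod_cast hX
  have hH' : (0 : ℝ) < H := by exact_mod_cast hH
  have h1 : ∀ m ∈ Ioo (-(H : ℤ)) H, ‖∑ a ∈ 𝒜, ∑ y ∈ Ico (-(X : ℤ)) X,
      g a y * (starRingEnd ℂ) (g a (y + a * m))‖ ^ 2 ≤ (𝒜.card * (2 * X)) ^ 2 := by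
    intro m _
    refine pow_le_pow_left₀ (norm_nonneg _) ?_ 2
    have h4 : ∀ a ∈ 𝒜, ‖∑ y ∈ Ico (-(X : ℤ)) X, g a y * (starRingEnd ℂ) (g a (y + a * m))‖ ≤ 2 * X := by
      intro a ha
      refine (norm_sum_le _ _).trans ?_
      have h5 : ∀ y ∈ Ico (-(X : ℤ)) X, ‖g a y * (starRingEnd ℂ) (g a (y + a * m))‖ ≤ 1 := by
        intro y _
        rw [norm_mul, RCLike.norm_conj]
        exact mul_le_one₀ ((hg a ha).le _) (norm_nonneg _) ((hg a ha).le _)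
      refine (Finset.sum_le_sum h5).trans ?_
      rw [Finset.sum_const, Int.card_Ico, nsmul_eq_mul, mul_one]
      have : ((X : ℤ) - -(X : ℤ)).toNat = 2 * X := by omega
      rw [this]
      push_cast
      exact le_refl _
    refine (norm_sum_le _ _).trans ((Finset.sum_le_sum h4).trans ?_)
    rw [Finset.sum_const, nsmul_eq_mul]
  have h2 := h.trans (Finset.sum_le_sum h1)
  rw [Finset.sum_const, nsmul_eq_mul, Int.card_Ioo] at h2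
  have h3 : (((H : ℤ) - -(H : ℤ) - 1).toNat : ℝ) ≤ 2 * H := by
    have : ((H : ℤ) - -(H : ℤ) - 1).toNat ≤ 2 * H := by omega
    exact_mod_cast this
  have h4 : δ * (H * ((K : ℝ) * X) ^ 2) ≤ 2 * H * (𝒜.card * (2 * X)) ^ 2 :=
    h2.trans (mul_le_mul_of_nonneg_right h3 (by positivity))
  have h5 : (H * (X : ℝ) ^ 2) * (δ * (K : ℝ) ^ 2) ≤ (H * (X : ℝ) ^ 2) * (8 * (𝒜.card : ℝ) ^ 2) := by nlinarith
  have h6 : δ * (K : ℝ) ^ 2 ≤ 8 * (𝒜.card : ℝ) ^ 2 := le_of_mul_le_mul_left h5 (by positivity)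
  have h7 : (δ / 4 * K) ^ 2 ≤ (𝒜.card : ℝ) ^ 2 := by
    have h8 : δ ^ 2 ≤ δ := by nlinarith
    have h9 : δ ^ 2 * (K : ℝ) ^ 2 ≤ δ * (K : ℝ) ^ 2 := mul_le_mul_of_nonneg_right h8 (by positivity)
    nlinarith
  exact (pow_le_pow_iff_left₀ (by positivity) (by positivity) (by norm_num)).mp h7

/-- The weights as a function of `(z, a)`. -/
theorem A11_wt (X K H : ℕ) (hH : 1 ≤ H) (hKH : 4 * K * H ≤ X) (𝒜 : Finset ℕ) (h𝒜 : 𝒜 ⊆ Ioc K (2 * K)) (ψ : ℝ)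
    (g : ℤ → ℤ → ℂ) (hg : ∀ a ∈ 𝒜, Bdd X (g a)) :
    ∃ c : ℤ × ℤ → ℂ, QP X K H ψ c ∧
      ∑ a ∈ Ioc (K : ℤ) (2 * K), ∑ z ∈ Ico (-(X : ℤ)) X, g a z * c (z, a) =
        ((∑ a ∈ 𝒜, TQ X (2 * H) a ψ (g a) : ℝ) : ℂ) := by
  have hex : ∀ a ∈ 𝒜, ∃ c : ℤ → ℂ, (∀ y, ‖c y‖ ≤ 1) ∧ (∀ y, y ∉ Ico (-(3 * X : ℤ)) (3 * X) → c y = 0) ∧
      (∀ (y : ℤ) (k : ℕ), ‖c (y + a * k) - ee (ψ * k) * c y‖ ≤ 2 * k / (2 * H : ℕ)) ∧
      ∑ y ∈ Ico (-(X : ℤ)) X, g a y * c y = ((TQ X (2 * H) a ψ (g a) : ℝ) : ℂ) := by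
    intro a ha
    refine A2_wt X (2 * H) (by omega) a (by positivity) ?_ ψ (g a) (hg a ha)
    have h1 := mem_Ioc.mp (h𝒜 ha)
    have h2 : a * (2 * H) ≤ X := by nlinarith
    exact_mod_cast h2
  choose! cf h1 h2 h3 h4 using hex
  classical
  have hH' : (0 : ℝ) < H := by exact_mod_cast hH
  refine ⟨fun p => if p.2.toNat ∈ 𝒜 ∧ 0 ≤ p.2 then cf p.2.toNat p.1 else 0, ⟨?_, ?_, ?_, ?_⟩, ?_⟩
  · intro p
    try simp only
    split_ifs with hp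
    · exact h1 _ hp.1 _
    · simp
  · intro z a hz
    try simp only
    split_ifs with hp
    · exact h2 _ hp.1 _ hz
    · rfl
  · intro z a ha
    try simp only
    split_ifs with hp
    · exfalso
      apply ha
      have := mem_Ioc.mp (h𝒜 hp.1)
      omega
    · rfl
  · intro z a k _ _
    try simp only
    split_ifs with hp
    · have h5 := h3 _ hp.1 z k
      have h6 : ((a.toNat : ℕ) : ℤ) = a := Int.toNat_of_nonneg hp.2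
      rw [h6] at h5
      refine h5.trans (le_of_eq ?_)
      push_cast
      field_simp
    · rw [mul_zero, sub_zero, norm_zero]
      positivity
  · have hsub : 𝒜.map (Nat.castEmbedding (R := ℤ)) ⊆ Ioc (K : ℤ) (2 * K) := by
      intro x hx
      rw [mem_map] at hx
      obtain ⟨a, ha, rfl⟩ := hx
      have := mem_Ioc.mp (h𝒜 ha)
      rw [mem_Ioc]
      simp only [Nat.castEmbedding_apply]
      constructor <;> omega
    rw [← Finset.sum_subset hsub, Finset.sum_map, Complex.ofReal_sum]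
    · refine Finset.sum_congr rfl fun a ha => ?_
      rw [← h4 a ha]
      refine Finset.sum_congr rfl fun z _ => ?_
      simp only [Nat.castEmbedding_apply, Int.toNat_natCast]
      rw [if_pos ⟨ha, by positivity⟩]
    · intro x hx hx'
      refine Finset.sum_eq_zero fun z _ => ?_
      simp only
      rw [if_neg, mul_zero]
      rintro ⟨h5, h6⟩
      apply hx'
      rw [mem_map]
      exact ⟨x.toNat, h5, by simp only [Nat.castEmbedding_apply]; exact Int.toNat_of_nonneg h6⟩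

/-- Many pairs with a large sum. -/
theorem A11_many (r K X : ℕ) (hX : 1 ≤ X) (u : ℝ) (hu : 0 < u) (T : (Fin r → ℤ) × ℤ → ℝ) (hT : ∀ p, T p ≤ 6 * X)
    (h : u * (K * X * (K : ℝ) ^ r) ≤ ∑ p ∈ bxS r K ×ˢ Ioc (K : ℤ) (2 * K), T p) :
    u / 12 * (K * (K : ℝ) ^ r) ≤
      (((bxS r K ×ˢ Ioc (K : ℤ) (2 * K)).filter fun p => u / 2 ^ (r + 1) * X ≤ T p).card : ℝ) := by
  classical
  have hX' : (0 : ℝ) < X := by exact_mod_cast hX
  have hcard : ((bxS r K ×ˢ Ioc (K : ℤ) (2 * K)).card : ℝ) ≤ (2 * K) ^ r * K := by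
    rw [card_product, Nat.cast_mul]
    refine mul_le_mul (bxS_card r K) ?_ (by positivity) (by positivity)
    rw [Int.card_Ioc]
    have : (2 * (K : ℤ) - K).toNat = K := by omega
    rw [this]
  rw [← Finset.sum_filter_add_sum_filter_not _ (fun p => u / 2 ^ (r + 1) * X ≤ T p)] at h
  have h1 : ∑ p ∈ (bxS r K ×ˢ Ioc (K : ℤ) (2 * K)).filter (fun p => u / 2 ^ (r + 1) * X ≤ T p), T p ≤
      (((bxS r K ×ˢ Ioc (K : ℤ) (2 * K)).filter fun p => u / 2 ^ (r + 1) * X ≤ T p).card : ℝ) * (6 * X) := by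
    refine (Finset.sum_le_sum fun p _ => hT p).trans ?_
    rw [Finset.sum_const, nsmul_eq_mul]
  have h2 : ∑ p ∈ (bxS r K ×ˢ Ioc (K : ℤ) (2 * K)).filter (fun p => ¬ u / 2 ^ (r + 1) * X ≤ T p), T p ≤
      ((2 * K) ^ r * K) * (u / 2 ^ (r + 1) * X) := by
    refine (Finset.sum_le_sum (g := fun _ => u / 2 ^ (r + 1) * X) fun p hp => ?_).trans ?_
    · exact (not_le.mp (mem_filter.mp hp).2).le
    · rw [Finset.sum_const, nsmul_eq_mul]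
      refine mul_le_mul_of_nonneg_right (le_trans ?_ hcard) (by positivity)
      exact_mod_cast Finset.card_filter_le _ _
  have h3 : ((2 * (K : ℝ)) ^ r * K) * (u / 2 ^ (r + 1) * X) = u / 2 * (K * X * (K : ℝ) ^ r) := by
    rw [mul_pow, pow_succ]
    field_simp
  have h4 : X * (u / 12 * (K * (K : ℝ) ^ r)) ≤
      X * (((bxS r K ×ˢ Ioc (K : ℤ) (2 * K)).filter fun p => u / 2 ^ (r + 1) * X ≤ T p).card : ℝ) := by
    rw [h3] at h2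
    nlinarith
  exact le_of_mul_le_mul_left h4 hX'

/-- Last step. -/
theorem A11_end (X K H M1 q : ℕ) (hX : 1 ≤ X) (hH : 1 ≤ H) (hM1 : 1 ≤ M1) (hq : 1 ≤ q) (hKH : 4 * K * H ≤ X) (hqM : q * M1 ≤ H)
    (δ : ℝ) (hδ : 0 < δ) (hδ1 : δ ≤ 1 / 2) (ψ : ℝ)
    (𝒜 : Finset ℕ) (h𝒜 : 𝒜 ⊆ Ioc K (2 * K)) (g : ℕ → ℤ → ℂ) (hg : ∀ a ∈ 𝒜, Bdd X (g a))
    (he1 : (q : ℝ) * M1 / H ≤ δ ^ 20) (he2 : M1 * nd (q * ψ) ≤ δ ^ 20)
    (h : δ ^ 2 / 64 * (K * X) ≤ ∑ a ∈ 𝒜, TQ X (2 * H) a ψ (g a)) :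
    δ ^ 10 * (K * X) ≤ ∑ a ∈ 𝒜, TQ X M1 (a * q) 0 (g a) := by
  have hX' : (0 : ℝ) < X := by exact_mod_cast hX
  have hH' : (0 : ℝ) < H := by exact_mod_cast hH
  have hnd : 0 ≤ nd (q * ψ) := Pool.Agent.Lib.H84V.nd_nonneg _
  have h1 : ∀ a ∈ 𝒜, TQ X (2 * H) a ψ (g a) ≤ 2 * TQ X M1 (a * q) 0 (g a) + δ ^ 30 * X := by
    intro a ha
    have h2 := mem_Ioc.mp (h𝒜 ha)
    have h3 : a * (q * M1) ≤ X := by
      calc a * (q * M1) ≤ (2 * K) * H := Nat.mul_le_mul h2.2 hqM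
        _ ≤ X := by nlinarith
    have h4 := TQ_block X (2 * H) M1 q (by omega) hM1 hq a (by positivity) (by exact_mod_cast h3) ψ (g a) (hg a ha)
    refine h4.trans (add_le_add (le_refl _) ?_)
    have h5 : 2 * (q : ℝ) * M1 / ((2 * H : ℕ) : ℝ) + 7 * M1 * nd (q * ψ) ≤ 8 * δ ^ 20 := by
      have h6 : 2 * (q : ℝ) * M1 / ((2 * H : ℕ) : ℝ) = (q : ℝ) * M1 / H := by
        push_cast
        field_simp
      rw [h6]
      linarith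
    have h7 : (2 * (q : ℝ) * M1 / ((2 * H : ℕ) : ℝ) + 7 * M1 * nd (q * ψ)) ^ 2 ≤ (8 * δ ^ 20) ^ 2 :=
      pow_le_pow_left₀ (by positivity) h5 2
    have h8 : δ ^ 10 ≤ (1 / 2) ^ 10 := pow_le_pow_left₀ hδ.le hδ1 10
    have h9 : 8 * (8 * δ ^ 20) ^ 2 ≤ δ ^ 30 := by
      have : 8 * (8 * δ ^ 20) ^ 2 = δ ^ 30 * (512 * δ ^ 10) := by ring
      rw [this]
      have h10 : 512 * δ ^ 10 ≤ 1 := by nlinarith
      nlinarith [pow_pos hδ 30]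
    calc 8 * (X : ℝ) * (2 * (q : ℝ) * M1 / ((2 * H : ℕ) : ℝ) + 7 * M1 * nd (q * ψ)) ^ 2 ≤ 8 * X * (8 * δ ^ 20) ^ 2 :=
          mul_le_mul_of_nonneg_left h7 (by positivity)
      _ = (8 * (8 * δ ^ 20) ^ 2) * X := by ring
      _ ≤ δ ^ 30 * X := mul_le_mul_of_nonneg_right h9 hX'.le
  have h2 := h.trans (Finset.sum_le_sum h1)
  rw [Finset.sum_add_distrib, ← Finset.mul_sum, Finset.sum_const, nsmul_eq_mul] at h2
  have h3 : (𝒜.card : ℝ) ≤ K := by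
    have h4 := Finset.card_le_card h𝒜
    rw [Nat.card_Ioc] at h4
    have : 𝒜.card ≤ K := by omega
    exact_mod_cast this
  have h4 : (𝒜.card : ℝ) * (δ ^ 30 * X) ≤ K * (δ ^ 30 * X) := mul_le_mul_of_nonneg_right h3 (by positivity)
  have h5 : δ ^ 8 ≤ (1 / 2) ^ 8 := pow_le_pow_left₀ hδ.le hδ1 8
  have h6 : δ ^ 28 ≤ (1 / 2) ^ 28 := pow_le_pow_left₀ hδ.le hδ1 28
  have h7 : 2 * δ ^ 10 + δ ^ 30 ≤ δ ^ 2 / 64 := by
    have h8 : 2 * δ ^ 10 + δ ^ 30 = δ ^ 2 * (2 * δ ^ 8 + δ ^ 28) := by ring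
    rw [h8]
    have h9 : 2 * δ ^ 8 + δ ^ 28 ≤ 1 / 64 := by
      norm_num at h5 h6 ⊢
      linarith
    nlinarith [pow_pos hδ 2]
  have h8 : (2 * δ ^ 10 + δ ^ 30) * (K * X) ≤ δ ^ 2 / 64 * (K * X) := mul_le_mul_of_nonneg_right h7 (by positivity)
  nlinarith

/-- One good pair. -/
theorem A11_pair (r X K H : ℕ) (hX : 1 ≤ X) (hK : 1 ≤ K) (hH : 1 ≤ H) (hKHX : K * H ≤ X) (δ : ℝ) (hδ : 0 < δ) (hδ1 : δ ≤ 1 / 2)
    (p : ℕ) (hbig : (K : ℝ) ^ (2 ^ r) * (1 / δ) ^ (8 + r + 2 ^ r + p) ≤ K * H) (ψ : ℝ) (c : ℤ × ℤ → ℂ) (hc : QP X K H ψ c)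
    (j s : Fin r → ℤ) (a : ℤ)
    (hT : δ ^ p * X ≤ ‖∑ z ∈ Ico (-(3 * X : ℤ)) (3 * X), DL (List.ofFn fun i => (s i, j i)) c (z, a)‖) :
    Vt K (List.ofFn j) a ∧ nd (ψ * Df (List.ofFn j) a) ≤ (1 / δ) ^ (8 + r + 2 ^ r + 2 * p) * (K : ℝ) ^ (2 ^ r) / (K * H) := by
  have hX' : (0 : ℝ) < X := by exact_mod_cast hX
  have hH' : (0 : ℝ) < H := by exact_mod_cast hH
  have hK' : (0 : ℝ) < K := by exact_mod_cast hK
  have hmap : (List.ofFn fun i => (s i, j i)).map Prod.snd = List.ofFn j := by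
    rw [List.map_ofFn]
    rfl
  have hlen : (List.ofFn fun i => (s i, j i)).length = r := List.length_ofFn
  have hV : Vt K (List.ofFn j) a := by
    by_contra hV
    rw [← hmap] at hV
    have h0 : ∑ z ∈ Ico (-(3 * X : ℤ)) (3 * X), DL (List.ofFn fun i => (s i, j i)) c (z, a) = 0 :=
      Finset.sum_eq_zero fun z _ => A4_zero X K H ψ c hc _ z a hV
    rw [h0, norm_zero] at hT
    have : 0 < δ ^ p * X := by positivity
    linarith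
  refine ⟨hV, ?_⟩
  have hD2 : 2 ≤ 1 / δ := by
    rw [le_div_iff₀ hδ]
    linarith
  have hDδ : 1 / δ * δ = 1 := by field_simp
  obtain ⟨hQ0, hQ1⟩ := A4_pos K (List.ofFn j) a hV
  rw [List.length_ofFn] at hQ1
  have hQ0' : (0 : ℝ) < (Qf (List.ofFn j) a : ℝ) := by exact_mod_cast hQ0
  have hb : 196 * 2 ^ r * (Qf (List.ofFn j) a : ℝ) ≤ (1 / δ) ^ (8 + r + 2 ^ r) * (K : ℝ) ^ (2 ^ r) := by
    have h1 : 196 * 2 ^ r * (2 * (K : ℝ)) ^ (2 ^ r) ≤ (2 : ℝ) ^ (8 + r + 2 ^ r) * (K : ℝ) ^ (2 ^ r) := by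
      rw [mul_pow, pow_add, pow_add]
      have h2 : (0 : ℝ) < 2 ^ r * (2 ^ 2 ^ r * (K : ℝ) ^ 2 ^ r) := by positivity
      nlinarith
    calc 196 * 2 ^ r * (Qf (List.ofFn j) a : ℝ) ≤ 196 * 2 ^ r * (2 * (K : ℝ)) ^ (2 ^ r) :=
          mul_le_mul_of_nonneg_left hQ1 (by positivity)
      _ ≤ (2 : ℝ) ^ (8 + r + 2 ^ r) * (K : ℝ) ^ (2 ^ r) := h1
      _ ≤ (1 / δ) ^ (8 + r + 2 ^ r) * (K : ℝ) ^ (2 ^ r) :=
          mul_le_mul_of_nonneg_right (pow_le_pow_left₀ (by norm_num) hD2 _) (by positivity)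
  have h5 := A5_sum X K H hX hK hH hKHX ψ c hc (List.ofFn fun i => (s i, j i)) a (by rw [hmap]; exact hV) (δ ^ p)
    (by positivity) (pow_le_one₀ hδ.le (by linarith)) ?_ hT
  · rw [hmap, hlen] at h5
    refine h5.trans ?_
    rw [div_le_div_iff₀ (by positivity) (by positivity)]
    have h6 : (1 / δ) ^ (8 + r + 2 ^ r + 2 * p) * (K : ℝ) ^ 2 ^ r * ((δ ^ p) ^ 2 * (K * H)) =
        ((1 / δ) ^ (8 + r + 2 ^ r) * (K : ℝ) ^ (2 ^ r)) * (K * H) := by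
      have h7 : (1 / δ) ^ (2 * p) * (δ ^ p) ^ 2 = 1 := by
        rw [← pow_mul, mul_comm p 2, ← mul_pow, hDδ, one_pow]
      rw [pow_add (1 / δ) (8 + r + 2 ^ r) (2 * p)]
      linear_combination ((1 / δ) ^ (8 + r + 2 ^ r) * (K : ℝ) ^ (2 ^ r)) * (K * H) * h7
    rw [h6]
    exact mul_le_mul_of_nonneg_right hb (by positivity)
  · rw [hmap, hlen]
    have h8 : 14 * 2 ^ r * (Qf (List.ofFn j) a : ℝ) ≤ 196 * 2 ^ r * (Qf (List.ofFn j) a : ℝ) := by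
      have : (0 : ℝ) < 2 ^ r * (Qf (List.ofFn j) a : ℝ) := by positivity
      nlinarith
    refine h8.trans (hb.trans ?_)
    have h9 : δ ^ p * ((K : ℝ) ^ (2 ^ r) * (1 / δ) ^ (8 + r + 2 ^ r + p)) ≤ δ ^ p * (K * H) :=
      mul_le_mul_of_nonneg_left hbig (by positivity)
    refine le_trans (le_of_eq ?_) h9
    have h10 : (1 / δ) ^ p * δ ^ p = 1 := by rw [← mul_pow, hDδ, one_pow]
    rw [pow_add (1 / δ) (8 + r + 2 ^ r) p]
    linear_combination -((1 / δ) ^ (8 + r + 2 ^ r) * (K : ℝ) ^ (2 ^ r)) * h10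

/-- Proof. `r = 2^n`; `C` large in terms of `n` (all powers of `δ ≤ 1/2` absorb constants). `g a = DV (a • t) f`.
1. `∑_m ‖…‖² ≤ 2H (2 |𝒜| X)²`, so `|𝒜| ≥ (δ/4) K`. `A1_freq`: `ψ` with `∑_a TQ X (2H) a ψ (g a) ≥ (δ/16) |𝒜| X ≥ (δ²/64) K X`.
2. `A2_wt` with `M = 2H` for every `a ∈ 𝒜`: `c_a`; `c (z, a) = c_a z` for `a ∈ 𝒜`, else `0`, is `QP X K H ψ` (`2k/(2H) = k/H`), and the sum of `A3_elim` is
`∑_a TQ`: `ρ = δ²/64`, `H2 = K` (`n H K ≤ X`), `e` any equivalence.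
3. Terms `‖∑_z‖ ≤ 6X`, at most `(2K)^r K` pairs `(j, a)`: at least `ρ₂ K^(r+1)` pairs have `‖∑_z U‖ ≥ ρ₁ X`, `ρ₁ = (ρ/32)^(2^r)/2^(r+1)`,
`ρ₂ = (ρ/32)^(2^r)/12`. For these `Vt` holds (`A4_zero`) and `A5_sum` gives (`(L.map Prod.snd) = List.ofFn j`, `A4_pos`, `K^(2^r) (1/δ)^C ≤ X ≤ K H/δ`)
`nd (ψ Df) ≤ ε`, `ε = 196 2^r (2K)^(2^r)/(ρ₁² K H) ≤ (1/δ)^C₁ K^(2^r)/(K H)`.
4. `A8_major` with a power of `δ` in place of `δ`, `H2 = K`: `q ≤ (1/δ)^C₂`, `nd (q ψ) ≤ (1/δ)^C₂ ε/K^(2^r-1) ≤ (1/δ)^C₃/H`.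
5. `TQ_block` with `M = 2H`, `M1 = ⌊δ^C H⌋` (`C ≥ C₃ + C₂ + 20`; `≥ 1` as `H ≥ δ X/K`): the error is at most `δ^4 X`, so
`∑_a TQ X M1 (a q) 0 (g a) ≥ (1/2) (δ²/64 - δ^4) K X ≥ δ^C K X`. -/
theorem A11_one (n : ℕ) (hn : 1 ≤ n) : ∃ C : ℕ, ∀ δ : ℝ, 0 < δ → δ ≤ 1 / 2 → ∀ X K H : ℕ, (1 / δ) ^ C ≤ K →
    (1 / δ) ^ C * (K : ℝ) ^ (2 ^ 2 ^ n) ≤ X → δ * X ≤ K * H → 16 * n * K * H ≤ X → 1 ≤ H → ∀ 𝒜 : Finset ℕ, 𝒜 ⊆ Ioc K (2 * K) →
    ∀ f : ℤ → ℂ, Bdd X f → ∀ t : Fin n → ℤ, (∀ i, |t i| ≤ H) →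
    δ * (H * ((K : ℝ) * X) ^ 2) ≤ ∑ m ∈ Ioo (-(H : ℤ)) H, ‖∑ a ∈ 𝒜, ∑ y ∈ Ico (-(X : ℤ)) X,
      DV (fun i => (a : ℤ) * t i) f y * (starRingEnd ℂ) (DV (fun i => (a : ℤ) * t i) f (y + a * m))‖ ^ 2 →
    ∃ q : ℕ, 1 ≤ q ∧ (q : ℝ) ≤ (1 / δ) ^ C ∧ 1 ≤ ⌊δ ^ C * H⌋₊ ∧
      δ ^ C * (K * X) ≤ ∑ a ∈ 𝒜, TQ X ⌊δ ^ C * H⌋₊ (a * q) 0 (DV (fun i => (a : ℤ) * t i) f) := by
  classical
  obtain ⟨C8, hC8⟩ := A8_major (2 ^ n) Nat.one_le_two_pow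
  obtain ⟨r, hr⟩ : ∃ r, r = 2 ^ n := ⟨_, rfl⟩
  rw [← hr] at hC8 ⊢
  obtain ⟨R, hR⟩ : ∃ R, R = 2 ^ r := ⟨_, rfl⟩
  rw [← hR] at hC8 ⊢
  have hr2 : 2 ≤ r := by
    rw [hr]
    calc 2 = 2 ^ 1 := by norm_num
      _ ≤ 2 ^ n := Nat.pow_le_pow_right (by norm_num) hn
  have hR4 : 4 ≤ R := by
    rw [hR]
    calc 4 = 2 ^ 2 := by norm_num
      _ ≤ 2 ^ r := Nat.pow_le_pow_right (by norm_num) hr2
  obtain ⟨p, hp⟩ : ∃ p, p = 13 * R + r + 1 := ⟨_, rfl⟩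
  obtain ⟨m, hm⟩ : ∃ m, m = 13 * R + r + 4 := ⟨_, rfl⟩
  obtain ⟨b, hb⟩ : ∃ b, b = 8 + r + R := ⟨_, rfl⟩
  obtain ⟨C3, hC3⟩ : ∃ C3, C3 = m * C8 + (b + 2 * p) := ⟨_, rfl⟩
  refine ⟨C3 + 20, ?_⟩
  intro δ hδ hδ1 X K H hKC hXC hδX hKH hH 𝒜 h𝒜 f hf t ht h
  obtain ⟨D, hD⟩ : ∃ D, D = 1 / δ := ⟨_, rfl⟩
  rw [← hD] at hKC hXC ⊢
  have hδ1' : δ ≤ 1 := by linarith
  have hD2 : 2 ≤ D := by
    rw [hD, le_div_iff₀ hδ]
    linarith
  have hD1 : 1 ≤ D := by linarith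
  have hD0 : 0 < D := by linarith
  have hDδ : D * δ = 1 := by rw [hD]; field_simp
  have hDδp : ∀ e : ℕ, D ^ e * δ ^ e = 1 := fun e => by rw [← mul_pow, hDδ, one_pow]
  have hDle : ∀ {e e' : ℕ}, e ≤ e' → D ^ e ≤ D ^ e' := fun he => pow_le_pow_right₀ hD1 he
  have hδle : ∀ {e e' : ℕ}, e ≤ e' → δ ^ e' ≤ δ ^ e := fun he => pow_le_pow_of_le_one hδ.le hδ1' he
  have hδ2 : ∀ e : ℕ, δ ^ e ≤ 1 / 2 ^ e := fun e => by
    rw [← one_div_pow]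
    exact pow_le_pow_left₀ hδ.le hδ1 e
  have hH' : (0 : ℝ) < H := by exact_mod_cast hH
  have hK' : (1 : ℝ) ≤ K := (one_le_pow₀ hD1).trans hKC
  have hK0 : (0 : ℝ) < K := by linarith
  have hK : 1 ≤ K := by exact_mod_cast hK'
  have hX' : (1 : ℝ) ≤ X := by
    refine le_trans ?_ hXC
    calc (1 : ℝ) = 1 * 1 := by ring
      _ ≤ D ^ (C3 + 20) * (K : ℝ) ^ R := mul_le_mul (one_le_pow₀ hD1) (one_le_pow₀ hK') (by norm_num) (by positivity)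
  have hX0 : (0 : ℝ) < X := by linarith
  have hX : 1 ≤ X := by exact_mod_cast hX'
  have hnKH : 16 * (K * H) ≤ X := by
    calc 16 * (K * H) = 16 * 1 * K * H := by ring
      _ ≤ 16 * n * K * H := by gcongr
      _ ≤ X := hKH
  have hbig : (K : ℝ) ^ R * D ^ (C3 + 19) ≤ K * H := by
    refine le_trans ?_ hδX
    have h1 : δ * (D ^ (C3 + 20) * (K : ℝ) ^ R) ≤ δ * X := mul_le_mul_of_nonneg_left hXC hδ.le
    refine le_trans (le_of_eq ?_) h1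
    rw [pow_succ D (C3 + 19)]
    linear_combination -((K : ℝ) ^ R * D ^ (C3 + 19)) * hDδ
  have hbige : ∀ {e : ℕ}, e ≤ C3 + 19 → (K : ℝ) ^ R * D ^ e ≤ K * H := fun he =>
    (mul_le_mul_of_nonneg_left (hDle he) (by positivity)).trans hbig
  -- frequency
  have hg : ∀ a ∈ 𝒜, Bdd X (DV (fun i => (a : ℤ) * t i) f) := fun a _ => Bdd_DV hf _
  have hcardK : (𝒜.card : ℝ) ≤ K := by
    have h4 := Finset.card_le_card h𝒜
    rw [Nat.card_Ioc] at h4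
    have : 𝒜.card ≤ K := by omega
    exact_mod_cast this
  have hcard := A11_card X K H hX hH δ hδ hδ1 𝒜 (fun a => DV (fun i => (a : ℤ) * t i) f) hg h
  obtain ⟨ψ, hψ⟩ := A1_freq X H hH 𝒜 (fun a ha => by
      have h1 := mem_Ioc.mp (h𝒜 ha)
      refine ⟨by omega, ?_⟩
      calc 4 * a * H ≤ 4 * (2 * K) * H := by gcongr; exact h1.2
        _ ≤ X := by nlinarith) (fun a => DV (fun i => (a : ℤ) * t i) f) hg δ hδ.le (by
      refine le_trans ?_ h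
      rw [mul_assoc]
      refine mul_le_mul_of_nonneg_left (mul_le_mul_of_nonneg_left ?_ hH'.le) hδ.le
      refine pow_le_pow_left₀ (by positivity) (mul_le_mul_of_nonneg_right hcardK hX0.le) 2)
  have hψ2 : δ ^ 2 / 64 * (K * X) ≤ ∑ a ∈ 𝒜, TQ X (2 * H) a ψ (DV (fun i => (a : ℤ) * t i) f) := by
    refine le_trans ?_ hψ
    have h1 : δ / 16 * X * (δ / 4 * K) ≤ δ / 16 * X * 𝒜.card := mul_le_mul_of_nonneg_left hcard (by positivity)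
    nlinarith
  -- weights
  obtain ⟨c, hc, hsum⟩ := A11_wt X K H hH (by nlinarith) 𝒜 h𝒜 ψ (fun a => DV (fun i => a * t i) f) hg
  have e : Fin (2 ^ n) ≃ (Fin n → Bool) := Fintype.equivOfCardEq (by simp)
  have hTQ0 : 0 ≤ ∑ a ∈ 𝒜, TQ X (2 * H) a ψ (DV (fun i => (a : ℤ) * t i) f) := le_trans (by positivity) hψ2
  have h3 := A3_elim n X K H K hX hK hK le_rfl (by nlinarith [Nat.zero_le (n * K * H)]) ψ c hc t ht e f hf (δ ^ 8) (by positivity) (by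
    rw [hsum, Complex.norm_real, Real.norm_of_nonneg hTQ0]
    refine le_trans ?_ hψ2
    refine mul_le_mul_of_nonneg_right ?_ (by positivity)
    have h1 := hδ2 6
    have h2 : δ ^ 8 = δ ^ 2 * δ ^ 6 := by ring
    rw [h2]
    norm_num at h1 ⊢
    nlinarith [pow_pos hδ 2])
  obtain ⟨u, hu⟩ : ∃ u, u = δ ^ (13 * R) := ⟨_, rfl⟩
  have hu0 : 0 < u := by rw [hu]; positivity
  have huR : u ≤ (δ ^ 8 / 32) ^ R := by
    rw [hu, pow_mul]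
    refine pow_le_pow_left₀ (by positivity) ?_ R
    have h1 := hδ2 5
    have h2 : δ ^ 13 = δ ^ 8 * δ ^ 5 := by ring
    rw [h2]
    norm_num at h1 ⊢
    nlinarith [pow_pos hδ 8]
  subst hr
  rw [← hR] at h3
  have hcount := A11_many (2 ^ n) K X hX u hu0
    (fun p : (Fin (2 ^ n) → ℤ) × ℤ => ‖∑ z ∈ Ico (-(3 * X : ℤ)) (3 * X), DL (List.ofFn fun i => (-(p.1 i * ws t (e i)), p.1 i)) c (z, p.2)‖)
    (fun p => by
      refine (norm_sum_le _ _).trans ?_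
      refine (Finset.sum_le_sum fun z _ => DL_norm _ c hc.le (z, p.2)).trans ?_
      rw [Finset.sum_const, Int.card_Ico, nsmul_eq_mul, mul_one]
      have : (3 * (X : ℤ) - -(3 * (X : ℤ))).toNat = 6 * X := by omega
      rw [this]
      push_cast
      exact le_refl _) (by
      rw [Finset.sum_product]
      refine le_trans (mul_le_mul_of_nonneg_right huR (by positivity)) h3)
  have hsub : ((bxS (2 ^ n) K ×ˢ Ioc (K : ℤ) (2 * K)).filter fun x : (Fin (2 ^ n) → ℤ) × ℤ => u / 2 ^ (2 ^ n + 1) * X ≤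
      ‖∑ z ∈ Ico (-(3 * X : ℤ)) (3 * X), DL (List.ofFn fun i => (-(x.1 i * ws t (e i)), x.1 i)) c (z, x.2)‖) ⊆
      (bxS (2 ^ n) K ×ˢ Ioc (K : ℤ) (2 * K)).filter fun x : (Fin (2 ^ n) → ℤ) × ℤ =>
        Vt K (List.ofFn x.1) x.2 ∧ nd (ψ * Df (List.ofFn x.1) x.2) ≤ D ^ (b + 2 * p) * (K : ℝ) ^ R / (K * H) := by
    intro x hx
    rw [mem_filter] at hx ⊢
    refine ⟨hx.1, ?_⟩
    have h4 := A11_pair (2 ^ n) X K H hX hK hH (by omega) δ hδ hδ1 p (by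
        rw [← hD, ← hR, ← hb]
        exact hbige (by omega)) ψ c hc x.1 (fun i => -(x.1 i * ws t (e i))) x.2 (by
        refine le_trans (mul_le_mul_of_nonneg_right ?_ hX0.le) hx.2
        rw [hp, show 13 * R + 2 ^ n + 1 = 13 * R + (2 ^ n + 1) by ring, pow_add, hu, div_eq_mul_one_div]
        exact mul_le_mul_of_nonneg_left (hδ2 _) (by positivity))
    rw [← hD, ← hR, ← hb] at h4
    exact h4
  have hcount2 := hcount.trans (Nat.cast_le.mpr (Finset.card_le_card hsub))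
  have hKR : (K : ℝ) ^ R = K * (K : ℝ) ^ (R - 1) := by
    rw [← pow_succ']
    congr 1
    omega
  have hDm : 1 / δ ^ m = D ^ m := by rw [hD, one_div_pow]
  obtain ⟨q, hq1, hqC, hq⟩ := hC8 (δ ^ m) (by positivity) ((hδle (by omega : 1 ≤ m)).trans (by rw [pow_one]; exact hδ1)) K K
    (by
      rw [hDm, ← pow_mul]
      exact (hDle (by omega)).trans hKC)
    (mul_le_of_le_one_left hK0.le (pow_le_one₀ hδ.le hδ1')) le_rfl ψ (D ^ (b + 2 * p) * (K : ℝ) ^ R / (K * H)) (by positivity)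
    (by
      rw [div_le_iff₀ (by positivity), ← pow_mul]
      have h5 := mul_le_mul_of_nonneg_left (hbige (show b + 2 * p + m * C8 ≤ C3 + 19 by omega)) (pow_nonneg hδ.le (m * C8))
      refine le_trans (le_of_eq ?_) h5
      rw [pow_add D]
      linear_combination -(D ^ (b + 2 * p) * (K : ℝ) ^ R) * hDδp (m * C8))
    (by
      refine le_trans (mul_le_mul_of_nonneg_right ?_ (by positivity)) hcount2
      rw [hm, show 13 * R + 2 ^ n + 4 = 13 * R + (2 ^ n + 4) by ring, pow_add, hu, div_eq_mul_one_div]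
      refine mul_le_mul_of_nonneg_left ?_ (by positivity)
      refine (hδle (by omega : 4 ≤ 2 ^ n + 4)).trans ((hδ2 4).trans (by norm_num)))
  rw [hDm, ← pow_mul] at hqC hq
  have hqψ : nd (q * ψ) ≤ D ^ C3 / H := by
    refine hq.trans (le_of_eq ?_)
    rw [hC3, pow_add D (m * C8), hKR]
    have hKR1 : (K : ℝ) ^ (R - 1) ≠ 0 := by positivity
    field_simp
  have hfl : (⌊δ ^ (C3 + 20) * H⌋₊ : ℝ) ≤ δ ^ (C3 + 20) * H := Nat.floor_le (by positivity)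
  have hfl1 : 1 ≤ ⌊δ ^ (C3 + 20) * (H : ℝ)⌋₊ := by
    rw [Nat.one_le_floor_iff]
    have h6 : (K : ℝ) * D ^ (C3 + 20) ≤ K * H := by
      refine le_trans ?_ (hbige (Nat.zero_le _))
      rw [pow_zero, mul_one, hKR]
      refine mul_le_mul_of_nonneg_left (hKC.trans ?_) hK0.le
      calc (K : ℝ) = (K : ℝ) ^ 1 := (pow_one _).symm
        _ ≤ (K : ℝ) ^ (R - 1) := pow_le_pow_right₀ hK' (by omega)
    have h7 : D ^ (C3 + 20) ≤ H := le_of_mul_le_mul_left h6 hK0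
    have h8 := mul_le_mul_of_nonneg_left h7 (pow_nonneg hδ.le (C3 + 20))
    rw [mul_comm (δ ^ (C3 + 20)) (D ^ (C3 + 20)), hDδp] at h8
    exact h8
  refine ⟨q, hq1, hqC.trans (hDle (by omega)), hfl1, ?_⟩
  have he1 : (q : ℝ) * ⌊δ ^ (C3 + 20) * H⌋₊ / H ≤ δ ^ 20 := by
    rw [div_le_iff₀ hH']
    calc (q : ℝ) * ⌊δ ^ (C3 + 20) * H⌋₊ ≤ D ^ (m * C8) * (δ ^ (C3 + 20) * H) :=
          mul_le_mul hqC hfl (by positivity) (by positivity)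
      _ ≤ D ^ C3 * (δ ^ (C3 + 20) * H) := mul_le_mul_of_nonneg_right (hDle (by omega)) (by positivity)
      _ = δ ^ 20 * H := by
          rw [pow_add δ]
          linear_combination (δ ^ 20 * H) * hDδp C3
  have he2 : (⌊δ ^ (C3 + 20) * H⌋₊ : ℝ) * nd (q * ψ) ≤ δ ^ 20 := by
    calc (⌊δ ^ (C3 + 20) * H⌋₊ : ℝ) * nd (q * ψ) ≤ (δ ^ (C3 + 20) * H) * (D ^ C3 / H) :=
          mul_le_mul hfl hqψ (Pool.Agent.Lib.H84V.nd_nonneg _) (by positivity)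
      _ = D ^ C3 * δ ^ C3 * δ ^ 20 := by
          rw [pow_add δ]
          field_simp
      _ = δ ^ 20 := by rw [hDδp, one_mul]
  have hqM : q * ⌊δ ^ (C3 + 20) * (H : ℝ)⌋₊ ≤ H := by
    have h9 : (q : ℝ) * ⌊δ ^ (C3 + 20) * H⌋₊ ≤ H := by
      rw [div_le_iff₀ hH'] at he1
      refine he1.trans ?_
      exact mul_le_of_le_one_left hH'.le (pow_le_one₀ hδ.le hδ1')
    exact_mod_cast h9
  have hend := A11_end X K H ⌊δ ^ (C3 + 20) * (H : ℝ)⌋₊ q hX hH hfl1 hq1 (by nlinarith) hqM δ hδ hδ1 ψ 𝒜 h𝒜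
    (fun a => DV (fun i => (a : ℤ) * t i) f) hg he1 he2 hψ2
  refine le_trans (mul_le_mul_of_nonneg_right (hδle (by omega)) (by positivity)) hend

end Pool.Agent.HUK
end

-- from Lib.HUK.A12
section

/-!
# Project HUK, chunk A12 (M/L): all `t'`: `U^(n+1)` norms in the directions `a q`
-/

open Finset

namespace Pool.Agent.HUK

theorem a12_FF (X n : ℕ) (a m : ℤ) (t : Fin n → ℤ) (f : ℤ → ℂ) :
    FF X (fun i => a * (Fin.cons m t : Fin (n + 1) → ℤ) i) f = ∑ y ∈ Ico (-(X : ℤ)) X,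
      DV (fun i => a * t i) f y * (starRingEnd ℂ) (DV (fun i => a * t i) f (y + a * m)) := by
  have h : (fun i => a * (Fin.cons m t : Fin (n + 1) → ℤ) i) = (Fin.cons (a * m) (fun i => a * t i) : Fin (n + 1) → ℤ) := by
    funext i
    refine Fin.cases ?_ (fun j => ?_) i
    · rw [Fin.cons_zero, Fin.cons_zero]
    · rw [Fin.cons_succ, Fin.cons_succ]
  rw [h, FF_cons]
  unfold FF
  refine sum_congr rfl fun y _ => ?_
  unfold DV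
  rw [DL_DD]
  rfl

theorem a12_split (n H : ℕ) (G : (Fin (n + 1) → ℤ) → ℝ) :
    ∑ t ∈ bxS (n + 1) H, G t = ∑ t ∈ bxS n H, ∑ m ∈ Ioo (-(H : ℤ)) H, G (Fin.cons m t : Fin (n + 1) → ℤ) := by
  have h := bxS_sum n H (fun t => ((G t : ℝ) : ℂ))
  rw [sum_comm] at h
  exact_mod_cast h

theorem a12_card (K : ℕ) (𝒜 : Finset ℕ) (hA : 𝒜 ⊆ Ioc K (2 * K)) : (𝒜.card : ℝ) ≤ K := by
  have h1 := card_le_card hA
  rw [Nat.card_Ioc] at h1
  have h2 : 𝒜.card ≤ K := by omega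
  exact_mod_cast h2

theorem a12_inner (X n : ℕ) (𝒜 : Finset ℕ) (t : Fin n → ℤ) (f : ℤ → ℂ) (hf : Bdd X f) (m : ℤ) :
    ‖∑ a ∈ 𝒜, ∑ y ∈ Ico (-(X : ℤ)) X,
      DV (fun i => (a : ℤ) * t i) f y * (starRingEnd ℂ) (DV (fun i => (a : ℤ) * t i) f (y + a * m))‖ ≤
      𝒜.card * (2 * X) := by
  have h1 : ∀ a ∈ 𝒜, ‖∑ y ∈ Ico (-(X : ℤ)) X,
      DV (fun i => (a : ℤ) * t i) f y * (starRingEnd ℂ) (DV (fun i => (a : ℤ) * t i) f (y + a * m))‖ ≤ 2 * X := by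
    intro a _
    have hb := Bdd_DV hf (fun i => (a : ℤ) * t i)
    have h2 : ‖∑ y ∈ Ico (-(X : ℤ)) X,
        DV (fun i => (a : ℤ) * t i) f y * (starRingEnd ℂ) (DV (fun i => (a : ℤ) * t i) f (y + a * m))‖ ≤
        ∑ y ∈ Ico (-(X : ℤ)) X, (1 : ℝ) := by
      refine norm_sum_le_of_le _ fun y _ => ?_
      rw [norm_mul, RCLike.norm_conj]
      exact mul_le_one₀ (hb.le y) (norm_nonneg _) (hb.le _)
    refine le_trans h2 (le_of_eq ?_)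
    rw [sum_const, Int.card_Ico, nsmul_eq_mul, mul_one]
    have h3 : ((X : ℤ) - -(X : ℤ)).toNat = 2 * X := by omega
    rw [h3]
    push_cast
    ring
  refine le_trans (norm_sum_le_of_le _ h1) (le_of_eq ?_)
  rw [sum_const, nsmul_eq_mul]

/-- The inner sum. -/
noncomputable def a12S (X n H : ℕ) (𝒜 : Finset ℕ) (f : ℤ → ℂ) (t : Fin n → ℤ) : ℝ :=
  ∑ m ∈ Ioo (-(H : ℤ)) H, ‖∑ a ∈ 𝒜, ∑ y ∈ Ico (-(X : ℤ)) X,
      DV (fun i => (a : ℤ) * t i) f y * (starRingEnd ℂ) (DV (fun i => (a : ℤ) * t i) f (y + a * m))‖ ^ 2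

theorem a12_S_le (X n H K : ℕ) (𝒜 : Finset ℕ) (hA : 𝒜 ⊆ Ioc K (2 * K)) (t : Fin n → ℤ) (f : ℤ → ℂ) (hf : Bdd X f) :
    a12S X n H 𝒜 f t ≤ 8 * H * ((K : ℝ) * X) ^ 2 := by
  unfold a12S
  have h1 : ∀ m ∈ Ioo (-(H : ℤ)) H, ‖∑ a ∈ 𝒜, ∑ y ∈ Ico (-(X : ℤ)) X,
      DV (fun i => (a : ℤ) * t i) f y * (starRingEnd ℂ) (DV (fun i => (a : ℤ) * t i) f (y + a * m))‖ ^ 2 ≤
      ((K : ℝ) * (2 * X)) ^ 2 := by
    intro m _
    refine pow_le_pow_left₀ (norm_nonneg _) (le_trans (a12_inner X n 𝒜 t f hf m) ?_) 2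
    exact mul_le_mul_of_nonneg_right (a12_card K 𝒜 hA) (by positivity)
  refine le_trans (sum_le_sum h1) ?_
  rw [sum_const, Int.card_Ioo, nsmul_eq_mul]
  have h3 : (((H : ℤ) - -(H : ℤ) - 1).toNat : ℝ) ≤ 2 * H := by
    have h4 : ((H : ℤ) - -(H : ℤ) - 1).toNat ≤ 2 * H := by omega
    exact_mod_cast h4
  calc (((H : ℤ) - -(H : ℤ) - 1).toNat : ℝ) * ((K : ℝ) * (2 * X)) ^ 2 ≤ (2 * H) * ((K : ℝ) * (2 * X)) ^ 2 :=
        mul_le_mul_of_nonneg_right h3 (by positivity)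
    _ = 8 * H * ((K : ℝ) * X) ^ 2 := by ring

theorem a12_TQ_nonneg (X M : ℕ) (a : ℤ) (ψ : ℝ) (g : ℤ → ℂ) : 0 ≤ TQ X M a ψ g := by
  unfold TQ
  exact sum_nonneg fun z _ => by positivity

theorem a12_FW (H n : ℕ) (hH : 1 ≤ H) (t : Fin n → ℤ) (ht : t ∈ bxS n H) : (1 / 2 : ℝ) ^ n ≤ FW (2 * H) t := by
  unfold FW
  have h1 : (1 / 2 : ℝ) ^ n = ∏ _i : Fin n, (1 / 2 : ℝ) := by
    rw [prod_const, card_univ, Fintype.card_fin]
  rw [h1]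
  refine prod_le_prod (fun i _ => by norm_num) fun i _ => ?_
  rw [bxS, Fintype.mem_piFinset] at ht
  exact A1_fw_half H hH (t i) (ht i)

theorem a12_FW_nonneg (M n : ℕ) (t : Fin n → ℤ) : 0 ≤ FW M t := by
  unfold FW
  exact prod_nonneg fun i _ => le_max_left _ _

theorem a12_mono (n H : ℕ) : bxS n H ⊆ bxS n (2 * H) := by
  intro t ht
  rw [bxS, Fintype.mem_piFinset] at ht ⊢
  intro i
  have := ht i
  rw [mem_Ioo] at this ⊢
  push_cast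
  constructor <;> omega

/-- The set of good `t`. -/
theorem a12_good (n H X K : ℕ) (hK : 1 ≤ K) (hX : 1 ≤ X) (hH : 1 ≤ H) (δ : ℝ) (S : (Fin n → ℤ) → ℝ)
    (hS : ∀ t, S t ≤ 8 * H * ((K : ℝ) * X) ^ 2)
    (h : δ * ((H : ℝ) ^ (n + 1) * ((K : ℝ) * X) ^ 2) ≤ ∑ t ∈ bxS n H, S t) (hδ : 0 < δ) :
    δ / 16 * (H : ℝ) ^ n ≤ (((bxS n H).filter fun t => δ / 2 ^ (n + 1) * (H * ((K : ℝ) * X) ^ 2) ≤ S t).card : ℝ) := by
  set T := (bxS n H).filter fun t => δ / 2 ^ (n + 1) * (H * ((K : ℝ) * X) ^ 2) ≤ S t with hT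
  have hK' : (0 : ℝ) < K := by exact_mod_cast hK
  have hX' : (0 : ℝ) < X := by exact_mod_cast hX
  have hH' : (0 : ℝ) < H := by exact_mod_cast hH
  have hKX : 0 < ((K : ℝ) * X) ^ 2 := by positivity
  have h1 : ∑ t ∈ bxS n H, S t ≤ T.card * (8 * H * ((K : ℝ) * X) ^ 2) +
      (2 * H) ^ n * (δ / 2 ^ (n + 1) * (H * ((K : ℝ) * X) ^ 2)) := by
    rw [← sum_filter_add_sum_filter_not (bxS n H) (fun t => δ / 2 ^ (n + 1) * (H * ((K : ℝ) * X) ^ 2) ≤ S t)]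
    refine add_le_add ?_ ?_
    · refine le_trans (sum_le_sum fun t _ => hS t) (le_of_eq ?_)
      rw [sum_const, nsmul_eq_mul]
    · have h2 : ∀ t ∈ (bxS n H).filter (fun t => ¬ δ / 2 ^ (n + 1) * (H * ((K : ℝ) * X) ^ 2) ≤ S t),
          S t ≤ δ / 2 ^ (n + 1) * (H * ((K : ℝ) * X) ^ 2) := by
        intro t ht
        rw [mem_filter] at ht
        exact (not_le.1 ht.2).le
      refine le_trans (sum_le_sum h2) ?_
      rw [sum_const, nsmul_eq_mul]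
      refine mul_le_mul_of_nonneg_right ?_ (by positivity)
      refine le_trans ?_ (bxS_card n H)
      exact_mod_cast card_le_card (filter_subset _ _)
  have h3 : (2 * (H : ℝ)) ^ n * (δ / 2 ^ (n + 1) * (H * ((K : ℝ) * X) ^ 2)) =
      δ / 2 * ((H : ℝ) ^ (n + 1) * ((K : ℝ) * X) ^ 2) := by
    rw [mul_pow]
    field_simp
    ring
  rw [h3] at h1
  have h4 : δ / 2 * ((H : ℝ) ^ (n + 1) * ((K : ℝ) * X) ^ 2) ≤ T.card * (8 * H * ((K : ℝ) * X) ^ 2) := by linarith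
  have h5 : (8 * H * ((K : ℝ) * X) ^ 2) * (δ / 16 * (H : ℝ) ^ n) ≤ (8 * H * ((K : ℝ) * X) ^ 2) * T.card := by
    calc (8 * H * ((K : ℝ) * X) ^ 2) * (δ / 16 * (H : ℝ) ^ n) = δ / 2 * ((H : ℝ) ^ (n + 1) * ((K : ℝ) * X) ^ 2) := by ring
      _ ≤ T.card * (8 * H * ((K : ℝ) * X) ^ 2) := h4
      _ = (8 * H * ((K : ℝ) * X) ^ 2) * T.card := by ring
  exact le_of_mul_le_mul_left h5 (by positivity)

/-- Pigeonhole over `q`. -/
theorem a12_pigeon {ι : Type*} (T : Finset ι) (h : ι → ℕ → ℝ) (hh : ∀ t q, 0 ≤ h t q) (P c : ℝ) (hP : 1 ≤ P) (hc : 0 ≤ c)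
    (hq : ∀ t ∈ T, ∃ q : ℕ, 1 ≤ q ∧ (q : ℝ) ≤ P ∧ c ≤ h t q) :
    ∃ q : ℕ, 1 ≤ q ∧ (q : ℝ) ≤ P ∧ T.card * c ≤ P * ∑ t ∈ T, h t q := by
  have hQ1 : 1 ≤ ⌊P⌋₊ := Nat.le_floor (by exact_mod_cast hP)
  have hQ : ((⌊P⌋₊ : ℕ) : ℝ) ≤ P := Nat.floor_le (by linarith)
  have h1 : (T.card : ℝ) * c ≤ ∑ q ∈ Icc 1 ⌊P⌋₊, ∑ t ∈ T, h t q := by
    rw [sum_comm]
    rw [← nsmul_eq_mul, ← sum_const]
    refine sum_le_sum fun t ht => ?_
    obtain ⟨q, hq1, hq2, hq3⟩ := hq t ht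
    refine le_trans hq3 ?_
    exact single_le_sum (f := fun q => h t q) (fun q _ => hh t q) (mem_Icc.2 ⟨hq1, Nat.le_floor hq2⟩)
  have h2 : ∑ q ∈ Icc 1 ⌊P⌋₊, (T.card * c / P) ≤ ∑ q ∈ Icc 1 ⌊P⌋₊, ∑ t ∈ T, h t q := by
    refine le_trans ?_ h1
    rw [sum_const, Nat.card_Icc, nsmul_eq_mul]
    have h3 : ((⌊P⌋₊ + 1 - 1 : ℕ) : ℝ) ≤ P := by
      rw [Nat.add_sub_cancel]
      exact hQ
    calc ((⌊P⌋₊ + 1 - 1 : ℕ) : ℝ) * (T.card * c / P) ≤ P * (T.card * c / P) :=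
          mul_le_mul_of_nonneg_right h3 (by positivity)
      _ = T.card * c := by field_simp
  obtain ⟨q, hq1, hq2⟩ := exists_le_of_sum_le ⟨1, mem_Icc.2 ⟨le_rfl, hQ1⟩⟩ h2
  rw [mem_Icc] at hq1
  refine ⟨q, hq1.1, le_trans (by exact_mod_cast hq1.2) hQ, ?_⟩
  rw [div_le_iff₀ (by linarith)] at hq2
  linarith

/-- Shortening with `ψ = 0`. -/
theorem a12_short (X M1 M2 : ℕ) (hM1 : 1 ≤ M1) (hM2 : 1 ≤ M2) (a : ℤ) (ha : 0 ≤ a) (haM : a * M2 ≤ X) (g : ℤ → ℂ)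
    (hg : Bdd X g) : TQ X M1 a 0 g ≤ 2 * TQ X M2 a 0 g + 8 * X * (2 * M2 / M1) ^ 2 := by
  have h := TQ_block X M1 M2 1 hM1 hM2 le_rfl a ha (by simpa using haM) 0 g hg
  have h0 : Pool.Agent.Lib.H84V.nd (((1 : ℕ) : ℝ) * 0) = 0 := by
    refine le_antisymm ?_ (Pool.Agent.Lib.H84V.nd_nonneg _)
    have := Pool.Agent.Lib.H84V.nd_le_abs (((1 : ℕ) : ℝ) * 0)
    simpa using this
  rw [h0] at h
  have h1 : a * ((1 : ℕ) : ℤ) = a := by rw [Nat.cast_one, mul_one]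
  rw [h1] at h
  have h2 : (2 * ((1 : ℕ) : ℝ) * M2 / M1 + 7 * M2 * 0) = 2 * M2 / M1 := by
    rw [Nat.cast_one]
    ring
  rw [h2] at h
  exact h

/-- The numbers. -/
theorem a12_num (n e : ℕ) (δ : ℝ) (hδ : 0 < δ) (hδ2 : δ ≤ 1 / 2) :
    δ ^ (2 * e + 3 * n + 14) ≤ (δ ^ e) ^ 2 * δ / (8 ^ n * 8192) := by
  have h1 : δ ^ (2 * e + 3 * n + 14) = (δ ^ e) ^ 2 * δ * δ ^ (3 * n + 13) := by
    rw [← pow_mul, mul_comm e 2]
    ring
  have h2 : δ ^ (3 * n + 13) ≤ 1 / (8 ^ n * 8192) := by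
    calc δ ^ (3 * n + 13) ≤ (1 / 2 : ℝ) ^ (3 * n + 13) := pow_le_pow_left₀ hδ.le hδ2 _
      _ = (1 / 8 : ℝ) ^ n * (1 / 8192) := by
          rw [pow_add, pow_mul]
          norm_num
      _ = 1 / (8 ^ n * 8192) := by
          rw [one_div_pow]
          field_simp
  rw [h1, div_eq_mul_one_div]
  exact mul_le_mul_of_nonneg_left h2 (by positivity)

theorem a12_H (C N : ℕ) (hC : 1 ≤ C) (hN : 2 ≤ N) (δ : ℝ) (hδ : 0 < δ) (hδ2 : δ ≤ 1 / 2) (X K H : ℕ)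
    (hK : (1 / δ) ^ C ≤ K) (hX : (1 / δ) ^ C * (K : ℝ) ^ N ≤ X) (hXK : δ * X ≤ K * H) : 1 ≤ δ ^ C * H := by
  have h1 : 1 ≤ 1 / δ := by
    rw [le_div_iff₀ hδ]
    linarith
  have hK1 : (1 : ℝ) ≤ K := le_trans (one_le_pow₀ h1) hK
  have h2 : (K : ℝ) ^ 2 ≤ (K : ℝ) ^ N := pow_le_pow_right₀ hK1 hN
  have h3 : 1 / δ ≤ K := le_trans (le_self_pow₀ h1 (by omega)) hK
  have h4 : δ * ((1 / δ) ^ C * (K : ℝ) ^ 2) ≤ K * H := by
    refine le_trans ?_ hXK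
    refine mul_le_mul_of_nonneg_left (le_trans ?_ hX) hδ.le
    exact mul_le_mul_of_nonneg_left h2 (by positivity)
  have h5 : δ * (1 / δ) ^ C * K ≤ H := by
    have h6 : (K : ℝ) * (δ * (1 / δ) ^ C * K) ≤ K * H := by
      calc (K : ℝ) * (δ * (1 / δ) ^ C * K) = δ * ((1 / δ) ^ C * (K : ℝ) ^ 2) := by ring
        _ ≤ K * H := h4
    exact le_of_mul_le_mul_left h6 (by linarith)
  have h7 : (1 / δ) ^ C ≤ H := by
    calc (1 / δ) ^ C = δ * (1 / δ) ^ C * (1 / δ) := by field_simp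
      _ ≤ δ * (1 / δ) ^ C * K := mul_le_mul_of_nonneg_left h3 (by positivity)
      _ ≤ H := h5
  calc (1 : ℝ) = δ ^ C * (1 / δ) ^ C := by
        rw [← mul_pow, mul_one_div_cancel hδ.ne', one_pow]
    _ ≤ δ ^ C * H := mul_le_mul_of_nonneg_left h7 (by positivity)

/-- Proof. `∑_{t ∈ bxS (n+1) H}` as a sum over the last coordinate `m` and `t' ∈ bxS n H` (use the order of the differences freely: `DL_perm`,
`FF X (a • (t', m)) f = ∑_y g_a(y) conj g_a(y + a m)`, `g_a = DV (a • t') f`). The inner sum over `m` is at most `8 H (K X)²`, and there are at most `(2H)^n`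
vectors `t'`: the set `𝒯` of `t'` with inner sum `≥ (δ/2^(n+1)) H (K X)²` has at least `(δ/16) H^n` elements. `A11_one` with `δ/2^(n+1) ≥ δ^(n+2)` for
`t' ∈ 𝒯`; pigeonhole over `q ≤ (1/δ)^C₁`: for one `q` the sum over `t' ∈ 𝒯` of `∑_a TQ X M1 (a q) 0 (DV (a • t') f)` is at least `δ^C₂ H^n K X` (`M1 = ⌊δ^C₁' H⌋` is the
same for all `t'`). `TQ ≥ 0`, `FW (2H) t' ≥ 2^(-n)` on `bxS n H ⊆ bxS n (2H)`: `A10_coord` with `M = 2H` for each `a ∈ 𝒜`: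
`∑_a NU X (n+1) M1 (a q) f ≥ 2^(-n) (…)/(2H)^n - 32 |𝒜| X (q M1/(2H))²`. To make the error small first choose the exponent in `M1` larger: `TQ_block`
(`ψ = 0`, `q = 1`, `M ↦ M1`, `M1 ↦ ⌊δ^C H⌋`) shortens `M1` with a loss of `2` and an error `8X (2 ⌊δ^C H⌋/M1)²`. -/
theorem A12_all (n : ℕ) (hn : 1 ≤ n) : ∃ C : ℕ, ∀ δ : ℝ, 0 < δ → δ ≤ 1 / 2 → ∀ X K H : ℕ, (1 / δ) ^ C ≤ K →
    (1 / δ) ^ C * (K : ℝ) ^ (2 ^ 2 ^ n) ≤ X → δ * X ≤ K * H → 16 * n * K * H ≤ X → 1 ≤ H → ∀ 𝒜 : Finset ℕ, 𝒜 ⊆ Ioc K (2 * K) →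
    ∀ f : ℤ → ℂ, Bdd X f →
    δ * ((H : ℝ) ^ (n + 1) * ((K : ℝ) * X) ^ 2) ≤ ∑ t ∈ bxS (n + 1) H, ‖∑ a ∈ 𝒜, FF X (fun i => (a : ℤ) * t i) f‖ ^ 2 →
    ∃ q : ℕ, 1 ≤ q ∧ (q : ℝ) ≤ (1 / δ) ^ C ∧ 1 ≤ ⌊δ ^ C * H⌋₊ ∧
      δ ^ C * (K * X) ≤ ∑ a ∈ 𝒜, NU X (n + 1) ⌊δ ^ C * H⌋₊ (a * q) f := by
  obtain ⟨C₁, hC₁⟩ := A11_one n hn
  refine ⟨(n + 2) * C₁ + (2 * ((n + 2) * C₁) + 3 * n + 14), ?_⟩
  set e := (n + 2) * C₁ with he
  intro δ hδ hδ2 X K H hK hX hXK hKH hH 𝒜 hA f hf hsum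
  set C := e + (2 * e + 3 * n + 14) with hC
  have hinv : 1 ≤ 1 / δ := by
    rw [le_div_iff₀ hδ]
    linarith
  have hK1 : (1 : ℝ) ≤ K := le_trans (one_le_pow₀ hinv) hK
  have hK1' : 1 ≤ K := by exact_mod_cast hK1
  have hN2 : 2 ≤ 2 ^ 2 ^ n := by
    calc 2 = 2 ^ 1 := by norm_num
      _ ≤ 2 ^ 2 ^ n := Nat.pow_le_pow_right (by norm_num) (Nat.one_le_two_pow)
  have hDH : 1 ≤ δ ^ C * H := a12_H C (2 ^ 2 ^ n) (by omega) hN2 δ hδ hδ2 X K H hK hX hXK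
  have hH' : (1 : ℝ) ≤ H := by exact_mod_cast hH
  have hX1 : 1 ≤ X := by
    have h1 : 1 ≤ 16 * n * K * H := by
      have h2 : 1 ≤ n * K * H := Nat.mul_pos (Nat.mul_pos hn hK1') hH
      calc 1 ≤ n * K * H := h2
        _ ≤ 16 * (n * K * H) := by omega
        _ = 16 * n * K * H := by ring
    omega
  have hX' : (1 : ℝ) ≤ X := by exact_mod_cast hX1
  -- the small parameter
  set δ' := δ ^ (n + 2) with hδ'
  have hδ'0 : 0 < δ' := by positivity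
  have hδ'1 : δ' ≤ δ / 2 ^ (n + 1) := by
    rw [hδ', show n + 2 = (n + 1) + 1 by ring, pow_succ, mul_comm, div_eq_mul_one_div]
    refine mul_le_mul_of_nonneg_left ?_ hδ.le
    calc δ ^ (n + 1) ≤ (1 / 2 : ℝ) ^ (n + 1) := pow_le_pow_left₀ hδ.le hδ2 _
      _ = 1 / 2 ^ (n + 1) := by rw [one_div_pow]
  have hδ'δ : δ' ≤ δ := by
    refine le_trans hδ'1 ?_
    exact div_le_self hδ.le (one_le_pow₀ (by norm_num))
  have hPe : (1 / δ') ^ C₁ = (1 / δ) ^ e := by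
    rw [hδ', he, pow_mul, one_div_pow δ (n + 2)]
  have hDe : δ' ^ C₁ = δ ^ e := by
    rw [hδ', he, pow_mul]
  set D := δ ^ e with hD
  have hD0 : 0 < D := by positivity
  have hD1 : D ≤ 1 := pow_le_one₀ hδ.le (by linarith)
  have hPD : (1 / δ) ^ e = 1 / D := by rw [hD, one_div_pow]
  set E := δ ^ (2 * e + 3 * n + 14) with hE
  have hE0 : 0 < E := by positivity
  have hEb : E ≤ D ^ 2 * δ / (8 ^ n * 8192) := a12_num n e δ hδ hδ2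
  have hCE : δ ^ C = D * E := by rw [hC, pow_add]
  have hE1 : E ≤ 1 := pow_le_one₀ hδ.le (by linarith)
  -- the sum over the last coordinate
  have hsum2 : δ * ((H : ℝ) ^ (n + 1) * ((K : ℝ) * X) ^ 2) ≤ ∑ t ∈ bxS n H, a12S X n H 𝒜 f t := by
    refine le_trans hsum (le_of_eq ?_)
    rw [a12_split]
    refine sum_congr rfl fun t _ => ?_
    unfold a12S
    refine sum_congr rfl fun m _ => ?_
    congr 2
    exact sum_congr rfl fun a _ => a12_FF X n a m t f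
  have hgood := a12_good n H X K hK1' hX1 hH δ (a12S X n H 𝒜 f) (fun t => a12_S_le X n H K 𝒜 hA t f hf) hsum2 hδ
  set T := (bxS n H).filter fun t => δ / 2 ^ (n + 1) * (H * ((K : ℝ) * X) ^ 2) ≤ a12S X n H 𝒜 f t with hT
  set M1 := ⌊δ' ^ C₁ * H⌋₊ with hM1
  set M2 := ⌊δ ^ C * H⌋₊ with hM2
  have hM2' : 1 ≤ M2 := Nat.le_floor (by exact_mod_cast hDH)
  have hM1' : 1 ≤ M1 := by
    refine Nat.le_floor ?_
    rw [hDe, Nat.cast_one]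
    refine le_trans hDH ?_
    rw [hCE]
    refine mul_le_mul_of_nonneg_right ?_ (by linarith)
    calc D * E ≤ D * 1 := mul_le_mul_of_nonneg_left hE1 hD0.le
      _ = D := mul_one D
  -- application of A11
  have hone : ∀ t ∈ T, ∃ q : ℕ, 1 ≤ q ∧ (q : ℝ) ≤ 1 / D ∧
      D * (K * X) ≤ ∑ a ∈ 𝒜, TQ X M1 ((a : ℤ) * q) 0 (DV (fun i => (a : ℤ) * t i) f) := by
    intro t ht
    rw [hT, mem_filter] at ht
    obtain ⟨q, hq1, hq2, _, hq4⟩ := hC₁ δ' hδ'0 (by linarith) X K H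
      (by
        rw [hPe]
        exact le_trans (pow_le_pow_right₀ hinv (by omega)) hK)
      (by
        rw [hPe]
        refine le_trans ?_ hX
        exact mul_le_mul_of_nonneg_right (pow_le_pow_right₀ hinv (by omega)) (by positivity))
      (le_trans (mul_le_mul_of_nonneg_right hδ'δ (by linarith)) hXK) hKH hH 𝒜 hA f hf t
      (fun i => by
        have h1 := ht.1
        rw [bxS, Fintype.mem_piFinset] at h1
        have h2 := h1 i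
        rw [mem_Ioo] at h2
        rw [abs_le]
        constructor <;> omega)
      (by
        refine le_trans ?_ ht.2
        exact mul_le_mul_of_nonneg_right hδ'1 (by positivity))
    rw [hPe, hPD] at hq2
    rw [← hM1, hDe] at hq4
    exact ⟨q, hq1, hq2, hq4⟩
  obtain ⟨q, hq1, hq2, hq3⟩ := a12_pigeon T
    (fun t q => ∑ a ∈ 𝒜, TQ X M1 ((a : ℤ) * (q : ℕ)) 0 (DV (fun i => (a : ℤ) * t i) f))
    (fun t q => sum_nonneg fun a _ => a12_TQ_nonneg _ _ _ _ _) (1 / D) (D * (K * X))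
    (by
      rw [le_div_iff₀ hD0]
      linarith) (by positivity) hone
  have hKX : (0 : ℝ) < K * X := by positivity
  have hL : (0 : ℝ) < (H : ℝ) ^ n := by positivity
  -- lower bound for the sum over `T`
  have hlow : δ / 16 * (H : ℝ) ^ n * (D ^ 2 * (K * X)) ≤
      ∑ t ∈ T, ∑ a ∈ 𝒜, TQ X M1 ((a : ℤ) * q) 0 (DV (fun i => (a : ℤ) * t i) f) := by
    have h1 : δ / 16 * (H : ℝ) ^ n * (D * (K * X)) ≤ T.card * (D * (K * X)) :=
      mul_le_mul_of_nonneg_right hgood (by positivity)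
    have h2 := le_trans h1 hq3
    calc δ / 16 * (H : ℝ) ^ n * (D ^ 2 * (K * X)) = D * (δ / 16 * (H : ℝ) ^ n * (D * (K * X))) := by ring
      _ ≤ D * (1 / D * ∑ t ∈ T, ∑ a ∈ 𝒜, TQ X M1 ((a : ℤ) * q) 0 (DV (fun i => (a : ℤ) * t i) f)) :=
          mul_le_mul_of_nonneg_left h2 hD0.le
      _ = ∑ t ∈ T, ∑ a ∈ 𝒜, TQ X M1 ((a : ℤ) * q) 0 (DV (fun i => (a : ℤ) * t i) f) := by
          field_simp
  -- sizes
  have hM2le : (M2 : ℝ) ≤ δ ^ C * H := Nat.floor_le (by positivity)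
  have hM1ge : D * H ≤ 2 * M1 := by
    have h1 : D * H < M1 + 1 := by
      have := Nat.lt_floor_add_one (δ' ^ C₁ * (H : ℝ))
      rw [hDe] at this
      rw [hM1, hDe]
      exact this
    have h2 : (1 : ℝ) ≤ M1 := by exact_mod_cast hM1'
    linarith
  have hM1pos : (0 : ℝ) < M1 := by
    have h2 : (1 : ℝ) ≤ M1 := by exact_mod_cast hM1'
    linarith
  have hqM2 : (q : ℝ) * M2 ≤ E * H := by
    calc (q : ℝ) * M2 ≤ (1 / D) * (δ ^ C * H) := mul_le_mul hq2 hM2le (Nat.cast_nonneg _) (by positivity)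
      _ = E * H := by
          rw [hCE]
          field_simp
  have hqM2' : q * M2 ≤ H := by
    have h1 : (q : ℝ) * M2 ≤ H := by
      refine le_trans hqM2 ?_
      calc E * H ≤ 1 * H := mul_le_mul_of_nonneg_right hE1 (by linarith)
        _ = H := one_mul _
    exact_mod_cast h1
  have haK : ∀ a ∈ 𝒜, K < a ∧ a ≤ 2 * K := fun a ha => mem_Ioc.1 (hA ha)
  have h2KH : 4 * K * H ≤ X := by
    refine le_trans ?_ hKH
    calc 4 * K * H = 4 * 1 * K * H := by ring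
      _ ≤ 16 * n * K * H := by
          refine Nat.mul_le_mul_right _ (Nat.mul_le_mul_right _ ?_)
          omega
  have haM : ∀ a ∈ 𝒜, a * (q * M2) ≤ X := by
    intro a ha
    calc a * (q * M2) ≤ (2 * K) * H := Nat.mul_le_mul (haK a ha).2 hqM2'
      _ ≤ 4 * K * H := by
          refine Nat.mul_le_mul_right _ ?_
          omega
      _ ≤ X := h2KH
  have hfrac : (2 * (M2 : ℝ) / M1) ≤ 4 * E := by
    rw [div_le_iff₀ hM1pos]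
    calc 2 * (M2 : ℝ) ≤ 2 * (δ ^ C * H) := by linarith
      _ = 2 * E * (D * H) := by
          rw [hCE]
          ring
      _ ≤ 2 * E * (2 * M1) := mul_le_mul_of_nonneg_left hM1ge (by positivity)
      _ = 4 * E * M1 := by ring
  have hshort : ∀ t : Fin n → ℤ, ∀ a ∈ 𝒜, TQ X M1 ((a : ℤ) * q) 0 (DV (fun i => (a : ℤ) * t i) f) ≤
      2 * TQ X M2 ((a : ℤ) * q) 0 (DV (fun i => (a : ℤ) * t i) f) + 128 * X * E ^ 2 := by
    intro t a ha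
    have h1 := a12_short X M1 M2 hM1' hM2' ((a : ℤ) * q) (by positivity)
      (by
        have h2 := haM a ha
        rw [← mul_assoc] at h2
        exact_mod_cast h2) (DV (fun i => (a : ℤ) * t i) f) (Bdd_DV hf _)
    have h3 : (2 * (M2 : ℝ) / M1) ^ 2 ≤ (4 * E) ^ 2 := pow_le_pow_left₀ (by positivity) hfrac 2
    have h4 : 8 * (X : ℝ) * (2 * (M2 : ℝ) / M1) ^ 2 ≤ 8 * X * (4 * E) ^ 2 :=
      mul_le_mul_of_nonneg_left h3 (by positivity)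
    calc TQ X M1 ((a : ℤ) * q) 0 (DV (fun i => (a : ℤ) * t i) f) ≤ _ := h1
      _ ≤ 2 * TQ X M2 ((a : ℤ) * q) 0 (DV (fun i => (a : ℤ) * t i) f) + 8 * X * (4 * E) ^ 2 := by linarith
      _ = 2 * TQ X M2 ((a : ℤ) * q) 0 (DV (fun i => (a : ℤ) * t i) f) + 128 * X * E ^ 2 := by ring
  have hAc := a12_card K 𝒜 hA
  have hTc : (T.card : ℝ) ≤ (2 * H) ^ n := by
    refine le_trans ?_ (bxS_card n H)
    exact_mod_cast card_le_card (filter_subset _ _)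
  set Z := ∑ t ∈ T, ∑ a ∈ 𝒜, TQ X M2 ((a : ℤ) * q) 0 (DV (fun i => (a : ℤ) * t i) f) with hZ
  have hup : ∑ t ∈ T, ∑ a ∈ 𝒜, TQ X M1 ((a : ℤ) * q) 0 (DV (fun i => (a : ℤ) * t i) f) ≤
      2 * Z + (2 * H) ^ n * (K * (128 * X * E ^ 2)) := by
    calc ∑ t ∈ T, ∑ a ∈ 𝒜, TQ X M1 ((a : ℤ) * q) 0 (DV (fun i => (a : ℤ) * t i) f) ≤
        ∑ t ∈ T, ∑ a ∈ 𝒜, (2 * TQ X M2 ((a : ℤ) * q) 0 (DV (fun i => (a : ℤ) * t i) f) + 128 * X * E ^ 2) :=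
          sum_le_sum fun t _ => sum_le_sum fun a ha => hshort t a ha
      _ = 2 * Z + T.card * (𝒜.card * (128 * X * E ^ 2)) := by
          rw [hZ, mul_sum]
          rw [← nsmul_eq_mul T.card, ← sum_const, ← sum_add_distrib]
          refine sum_congr rfl fun t _ => ?_
          rw [sum_add_distrib, mul_sum, sum_const, nsmul_eq_mul]
      _ ≤ 2 * Z + (2 * H) ^ n * (K * (128 * X * E ^ 2)) := by
          have h1 : (𝒜.card : ℝ) * (128 * X * E ^ 2) ≤ K * (128 * X * E ^ 2) :=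
            mul_le_mul_of_nonneg_right hAc (by positivity)
          have h2 : (T.card : ℝ) * (𝒜.card * (128 * X * E ^ 2)) ≤ (2 * H) ^ n * (K * (128 * X * E ^ 2)) :=
            mul_le_mul hTc h1 (by positivity) (by positivity)
          linarith
  have h8 : (0 : ℝ) < 8 ^ n := by positivity
  have h8' : (1 : ℝ) ≤ 8 ^ n := one_le_pow₀ (by norm_num)
  have h28 : (2 : ℝ) ^ n ≤ 8 ^ n := pow_le_pow_left₀ (by norm_num) (by norm_num) n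
  have hEE : E ^ 2 ≤ E := by
    calc E ^ 2 = E * E := by ring
      _ ≤ E * 1 := mul_le_mul_of_nonneg_left hE1 hE0.le
      _ = E := mul_one E
  have hE8 : 8 ^ n * E ≤ D ^ 2 * δ / 8192 := by
    calc 8 ^ n * E ≤ 8 ^ n * (D ^ 2 * δ / (8 ^ n * 8192)) := mul_le_mul_of_nonneg_left hEb h8.le
      _ = D ^ 2 * δ / 8192 := by field_simp
  have h2E : (2 : ℝ) ^ n * E ^ 2 ≤ D ^ 2 * δ / 8192 := by
    calc (2 : ℝ) ^ n * E ^ 2 ≤ 8 ^ n * E := mul_le_mul h28 hEE (by positivity) h8.le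
      _ ≤ D ^ 2 * δ / 8192 := hE8
  have hZlow : δ / 64 * D ^ 2 * ((H : ℝ) ^ n * (K * X)) ≤ Z := by
    have h1 := le_trans hlow hup
    have h2 : (2 * (H : ℝ)) ^ n * (K * (128 * X * E ^ 2)) = 128 * (2 ^ n * E ^ 2) * ((H : ℝ) ^ n * (K * X)) := by
      rw [mul_pow]
      ring
    rw [h2] at h1
    have h3 : 128 * ((2 : ℝ) ^ n * E ^ 2) * ((H : ℝ) ^ n * (K * X)) ≤ 128 * (D ^ 2 * δ / 8192) * ((H : ℝ) ^ n * (K * X)) :=
      mul_le_mul_of_nonneg_right (mul_le_mul_of_nonneg_left h2E (by norm_num)) (by positivity)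
    have h4 : δ / 16 * (H : ℝ) ^ n * (D ^ 2 * (K * X)) = δ / 16 * D ^ 2 * ((H : ℝ) ^ n * (K * X)) := by ring
    rw [h4] at h1
    have h5 : 0 ≤ δ * D ^ 2 * ((H : ℝ) ^ n * (K * X)) := by positivity
    linarith
  -- the other coordinates
  have hcoord : ∀ a ∈ 𝒜, (1 / 2 : ℝ) ^ n * (∑ t ∈ T, TQ X M2 ((a : ℤ) * q) 0 (DV (fun i => (a : ℤ) * t i) f)) /
      (2 * H) ^ n ≤ 2 ^ n * (NU X (n + 1) M2 (a * q) f + 8 * X * E ^ 2) := by
    intro a ha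
    have h1 := A10_coord n X (2 * H) M2 q a (by omega) hM2' hq1
      (by
        calc a * (2 * H) ≤ (2 * K) * (2 * H) := Nat.mul_le_mul_right _ (haK a ha).2
          _ = 4 * K * H := by ring
          _ ≤ X := h2KH) (haM a ha) f hf
    have h2 : (1 / 2 : ℝ) ^ n * (∑ t ∈ T, TQ X M2 ((a : ℤ) * q) 0 (DV (fun i => (a : ℤ) * t i) f)) ≤
        ∑ t ∈ bxS n (2 * H), FW (2 * H) t * TQ X M2 ((a : ℤ) * q) 0 (DV (fun i => (a : ℤ) * t i) f) := by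
      rw [mul_sum]
      refine le_trans (sum_le_sum fun t ht => ?_) (sum_le_sum_of_subset_of_nonneg
        (f := fun t => FW (2 * H) t * TQ X M2 ((a : ℤ) * q) 0 (DV (fun i => (a : ℤ) * t i) f))
        (le_trans (filter_subset _ _) (a12_mono n H)) fun t _ _ => ?_)
      · exact mul_le_mul_of_nonneg_right (a12_FW H n hH t (mem_filter.1 ht).1) (a12_TQ_nonneg _ _ _ _ _)
      · exact mul_nonneg (a12_FW_nonneg _ _ _) (a12_TQ_nonneg _ _ _ _ _)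
    have h3 : ((2 * H : ℕ) : ℝ) = 2 * H := by push_cast; ring
    rw [h3] at h1
    have h4 : (q * M2 / (2 * H) : ℝ) ^ 2 ≤ (E / 2) ^ 2 := by
      refine pow_le_pow_left₀ (by positivity) ?_ 2
      rw [div_le_iff₀ (by positivity)]
      calc (q : ℝ) * M2 ≤ E * H := hqM2
        _ = E / 2 * (2 * H) := by ring
    have h5 : (32 : ℝ) * X * (q * M2 / (2 * H) : ℝ) ^ 2 ≤ 8 * X * E ^ 2 := by
      calc (32 : ℝ) * X * (q * M2 / (2 * H) : ℝ) ^ 2 ≤ 32 * X * (E / 2) ^ 2 :=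
            mul_le_mul_of_nonneg_left h4 (by positivity)
        _ = 8 * X * E ^ 2 := by ring
    calc (1 / 2 : ℝ) ^ n * (∑ t ∈ T, TQ X M2 ((a : ℤ) * q) 0 (DV (fun i => (a : ℤ) * t i) f)) / (2 * H) ^ n ≤
        (∑ t ∈ bxS n (2 * H), FW (2 * H) t * TQ X M2 ((a : ℤ) * q) 0 (DV (fun i => (a : ℤ) * t i) f)) / (2 * H) ^ n :=
          div_le_div_of_nonneg_right h2 (by positivity)
      _ ≤ 2 ^ n * (NU X (n + 1) M2 (a * q) f + 32 * X * (q * M2 / (2 * H) : ℝ) ^ 2) := h1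
      _ ≤ 2 ^ n * (NU X (n + 1) M2 (a * q) f + 8 * X * E ^ 2) :=
          mul_le_mul_of_nonneg_left (by linarith) (by positivity)
  set W := ∑ a ∈ 𝒜, NU X (n + 1) M2 (a * q) f with hW
  have hfin : (1 / 2 : ℝ) ^ n * Z / (2 * H) ^ n ≤ 2 ^ n * (W + K * (8 * X * E ^ 2)) := by
    have h1 : (1 / 2 : ℝ) ^ n * Z / (2 * H) ^ n = ∑ a ∈ 𝒜, (1 / 2 : ℝ) ^ n *
        (∑ t ∈ T, TQ X M2 ((a : ℤ) * q) 0 (DV (fun i => (a : ℤ) * t i) f)) / (2 * H) ^ n := by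
      rw [hZ, sum_comm, ← sum_div, ← mul_sum]
    rw [h1]
    refine le_trans (sum_le_sum hcoord) ?_
    rw [← mul_sum, sum_add_distrib, sum_const, nsmul_eq_mul]
    refine mul_le_mul_of_nonneg_left ?_ (by positivity)
    have h2 : (𝒜.card : ℝ) * (8 * X * E ^ 2) ≤ K * (8 * X * E ^ 2) := mul_le_mul_of_nonneg_right hAc (by positivity)
    linarith
  refine ⟨q, hq1, ?_, hM2', ?_⟩
  · refine le_trans hq2 ?_
    rw [← hPD]
    exact pow_le_pow_right₀ hinv (by omega)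
  · have h1 : (1 / 2 : ℝ) ^ n * (δ / 64 * D ^ 2 * ((H : ℝ) ^ n * (K * X))) / (2 * H) ^ n ≤
        2 ^ n * (W + K * (8 * X * E ^ 2)) := by
      refine le_trans ?_ hfin
      refine div_le_div_of_nonneg_right ?_ (by positivity)
      exact mul_le_mul_of_nonneg_left hZlow (by positivity)
    have h2 : (1 / 2 : ℝ) ^ n * (δ / 64 * D ^ 2 * ((H : ℝ) ^ n * (K * X))) / (2 * H) ^ n =
        2 ^ n * (δ / 64 * D ^ 2 * (K * X) / 8 ^ n) := by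
      have h8n : (8 : ℝ) ^ n = 2 ^ n * 2 ^ n * 2 ^ n := by
        rw [← mul_pow, ← mul_pow]
        norm_num
      rw [h8n, mul_pow, one_div_pow]
      field_simp
    rw [h2] at h1
    have h3 : δ / 64 * D ^ 2 * (K * X) / 8 ^ n ≤ W + K * (8 * X * E ^ 2) :=
      le_of_mul_le_mul_left h1 (by positivity)
    rw [hCE]
    have h4 : D * E ≤ E := by
      calc D * E ≤ 1 * E := mul_le_mul_of_nonneg_right hD1 hE0.le
        _ = E := one_mul E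
    have h5 : 9 * E ≤ δ / 64 * D ^ 2 / 8 ^ n := by
      have h6 : D ^ 2 * δ / (8 ^ n * 8192) = (δ / 64 * D ^ 2 / 8 ^ n) / 128 := by
        field_simp
        norm_num
      rw [h6] at hEb
      have h7 : 0 ≤ δ / 64 * D ^ 2 / 8 ^ n := by positivity
      linarith
    have h6 : D * E * (K * X) + K * (8 * X * E ^ 2) ≤ 9 * E * (K * X) := by
      have h7 : D * E * (K * X) ≤ E * (K * X) := mul_le_mul_of_nonneg_right h4 hKX.le
      have h8 : E ^ 2 * (K * X) ≤ E * (K * X) := mul_le_mul_of_nonneg_right hEE hKX.le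
      linarith
    have h7 : 9 * E * (K * X) ≤ δ / 64 * D ^ 2 * (K * X) / 8 ^ n := by
      calc 9 * E * (K * X) ≤ δ / 64 * D ^ 2 / 8 ^ n * (K * X) := mul_le_mul_of_nonneg_right h5 hKX.le
        _ = δ / 64 * D ^ 2 * (K * X) / 8 ^ n := by ring
    linarith

end Pool.Agent.HUK
end
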