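import Pool.Agent.Lib.H59M.M1.M002
import Pool.Agent.Lib.H59M.M1.M044
import Pool.Agent.Lib.H59M.M1.M045

/-! Merged copies (to shorten the build) of Lib.HUK.LL8, Lib.HUK.LL10, Lib.HUK.LL. -/

-- from Lib.HUK.LL8
section

/-!
# Project HUK, chunk LL8 (M/L): all pairs; pigeonhole over the gcd
-/

open Finset

namespace Pool.Agent.HUK

theorem ll8_FW0 (M : ℕ) {s : ℕ} (t : Fin s → ℤ) : 0 ≤ FW M t := Finset.prod_nonneg fun i _ => mq2_fw_nonneg M (t i)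

theorem ll8_TT (Y s M : ℕ) (hM : 1 ≤ M) (β β' : ℤ) (U U' : (Fin s → Bool) → ℤ → ℂ) (hU : ∀ ω y, ‖U ω y‖ ≤ 1)
    (hU' : ∀ ω y, ‖U' ω y‖ ≤ 1) : ‖TT Y M β β' U U'‖ ≤ 2 * Y := by
  have hM0 : (0 : ℝ) < M := by exact_mod_cast hM
  unfold TT
  rw [norm_div, norm_pow, Complex.norm_natCast, div_le_iff₀ (by positivity)]
  have h1 : ∀ t ∈ bxS s M, ∀ t' ∈ bxS s M, ‖((FW M t * FW M t' : ℝ) : ℂ) * ∑ y ∈ Ico (-(Y : ℤ)) Y, PV β U t y * PV β' U' t' y‖ ≤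
      FW M t * FW M t' * (2 * Y) := by
    intro t _ t' _
    rw [norm_mul, Complex.norm_real, Real.norm_of_nonneg (mul_nonneg (ll8_FW0 M t) (ll8_FW0 M t'))]
    refine mul_le_mul_of_nonneg_left ?_ (mul_nonneg (ll8_FW0 M t) (ll8_FW0 M t'))
    refine (norm_sum_le _ _).trans ?_
    calc ∑ y ∈ Ico (-(Y : ℤ)) Y, ‖PV β U t y * PV β' U' t' y‖ ≤ ∑ _y ∈ Ico (-(Y : ℤ)) Y, (1 : ℝ) := by
          refine Finset.sum_le_sum fun y _ => ?_
          rw [norm_mul]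
          exact mul_le_one₀ (LL2_le s β U hU t y) (norm_nonneg _) (LL2_le s β' U' hU' t' y)
      _ = 2 * Y := by
          rw [sum_const, Int.card_Ico, nsmul_eq_mul, mul_one]
          have h6 : ((Y : ℤ) - (-(Y : ℤ))).toNat = 2 * Y := by omega
          rw [h6]
          push_cast
          ring
  calc ‖∑ t ∈ bxS s M, ∑ t' ∈ bxS s M, ((FW M t * FW M t' : ℝ) : ℂ) * ∑ y ∈ Ico (-(Y : ℤ)) Y, PV β U t y * PV β' U' t' y‖ ≤
      ∑ t ∈ bxS s M, ∑ t' ∈ bxS s M, FW M t * FW M t' * (2 * Y) := by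
        refine (norm_sum_le _ _).trans (Finset.sum_le_sum fun t ht => ?_)
        exact (norm_sum_le _ _).trans (Finset.sum_le_sum fun t' ht' => h1 t ht t' ht')
    _ = (∑ t ∈ bxS s M, FW M t) * (∑ t' ∈ bxS s M, FW M t') * (2 * Y) := by
        rw [Finset.sum_mul_sum, Finset.sum_mul]
        refine sum_congr rfl fun t _ => ?_
        rw [Finset.sum_mul]
    _ = 2 * Y * (M : ℝ) ^ (2 * s) := by
        rw [LL2_FW s M hM]
        ring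

/-- Trivial bound (`‖PV‖ ≤ 1`, `LL2_FW`, `mq1_fw_sum`; the range of `y` has `4X` elements). -/
theorem LL8_triv (X s M : ℕ) (hM : 1 ≤ M) (β β' : ℤ) (f : ℤ → ℂ) (hf : Bdd X f) : SPd X s M β β' f ≤ 4 * X := by
  have hM0 : (0 : ℝ) < M := by exact_mod_cast hM
  unfold SPd
  rw [← Finset.sum_product' (Ioo (-(M : ℤ)) M) (Ioo (-(M : ℤ)) M) (fun t t' => ((fw M t * fw M t' : ℝ) : ℂ) *
    TT (2 * X) M β β' (Uf (s := s) f (β * t)) (cU (Uf (s := s) f (β' * t')))),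
    ll7_re _ (fun x : ℤ × ℤ => fw M x.1 * fw M x.2), div_le_iff₀ (by positivity)]
  have hw0 : ∀ x : ℤ × ℤ, 0 ≤ fw M x.1 * fw M x.2 := fun x => mul_nonneg (mq2_fw_nonneg M _) (mq2_fw_nonneg M _)
  calc ∑ x ∈ Ioo (-(M : ℤ)) M ×ˢ Ioo (-(M : ℤ)) M, fw M x.1 * fw M x.2 *
        (TT (2 * X) M β β' (Uf (s := s) f (β * x.1)) (cU (Uf (s := s) f (β' * x.2)))).re ≤
      ∑ x ∈ Ioo (-(M : ℤ)) M ×ˢ Ioo (-(M : ℤ)) M, fw M x.1 * fw M x.2 * (4 * X) := by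
        refine Finset.sum_le_sum fun x _ => mul_le_mul_of_nonneg_left ?_ (hw0 x)
        refine (Complex.re_le_norm _).trans ((ll8_TT (2 * X) s M hM β β' _ _ (fun ω y => ll7_Uf_le f hf.le _ ω y)
          (fun ω y => by
            unfold cU
            rw [RCLike.norm_conj]
            exact ll7_Uf_le f hf.le _ ω y)).trans (le_of_eq ?_))
        push_cast
        ring
    _ = 4 * X * (M : ℝ) ^ 2 := by
        rw [← Finset.sum_mul, Finset.sum_product, ← Finset.sum_mul_sum, mq2_fw_sum M hM]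
        ring

theorem ll8_fin (δ : ℝ) (hδ : 0 < δ) (hδ2 : δ ≤ 1 / 2) (n c : ℕ) (hn : 1 ≤ n) (C7 : ℝ) (hC7 : 1 ≤ C7) (hc : C7 ≤ 2 ^ c)
    (K2 X S : ℝ) (hK2 : 0 < K2) (hX : 0 < X)
    (h : K2 * (δ ^ 2 * X / 4) ^ n ≤ C7 * X ^ (n - 1) * (S + K2 * X * (3 * δ ^ (4 * n + c + 3)))) :
    δ ^ (4 * n + c + 1) * (K2 * X) ≤ S := by
  obtain ⟨n, rfl⟩ : ∃ m, n = m + 1 := ⟨n - 1, by omega⟩
  rw [Nat.add_sub_cancel] at h
  have h1 : (δ ^ 4) ^ (n + 1) ≤ (δ ^ 2 / 4) ^ (n + 1) := by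
    refine pow_le_pow_left₀ (by positivity) ?_ _
    have h2 : δ ^ 2 ≤ 1 / 4 := by nlinarith
    have h3 : δ ^ 4 = δ ^ 2 * δ ^ 2 := by ring
    rw [h3]
    nlinarith [sq_nonneg δ]
  have h2 : K2 * (δ ^ 2 * X / 4) ^ (n + 1) = (δ ^ 2 / 4) ^ (n + 1) * (K2 * X) * X ^ n := by
    have : δ ^ 2 * X / 4 = δ ^ 2 / 4 * X := by ring
    rw [this, mul_pow]
    ring
  have h3 : (δ ^ 4) ^ (n + 1) * (K2 * X) ≤ C7 * (S + K2 * X * (3 * δ ^ (4 * (n + 1) + c + 3))) := by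
    have h4 : (δ ^ 4) ^ (n + 1) * (K2 * X) * X ^ n ≤
        C7 * (S + K2 * X * (3 * δ ^ (4 * (n + 1) + c + 3))) * X ^ n := by
      calc (δ ^ 4) ^ (n + 1) * (K2 * X) * X ^ n ≤ (δ ^ 2 / 4) ^ (n + 1) * (K2 * X) * X ^ n := by
            refine mul_le_mul_of_nonneg_right (mul_le_mul_of_nonneg_right h1 (by positivity)) (by positivity)
        _ ≤ C7 * X ^ n * (S + K2 * X * (3 * δ ^ (4 * (n + 1) + c + 3))) := by
            rw [← h2]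
            exact h
        _ = _ := by ring
    exact le_of_mul_le_mul_right h4 (by positivity)
  obtain ⟨t, ht⟩ : ∃ t : ℝ, t = C7 * δ ^ c := ⟨_, rfl⟩
  have ht0 : 0 ≤ t := by
    rw [ht]
    positivity
  have ht1 : t ≤ 1 := by
    rw [ht]
    calc C7 * δ ^ c ≤ 2 ^ c * (1 / 2) ^ c :=
          mul_le_mul hc (pow_le_pow_left₀ hδ.le hδ2 c) (by positivity) (by positivity)
      _ = 1 := by
          rw [← mul_pow]
          norm_num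
  obtain ⟨Y, hY⟩ : ∃ Y : ℝ, Y = (δ ^ 4) ^ (n + 1) * (K2 * X) := ⟨_, rfl⟩
  have hY0 : 0 < Y := by
    rw [hY]
    positivity
  have h5 : C7 * (S + K2 * X * (3 * δ ^ (4 * (n + 1) + c + 3))) = C7 * S + 3 * Y * δ ^ 3 * t := by
    rw [hY, ht, ← pow_mul, pow_add, pow_add]
    ring
  rw [h5, ← hY] at h3
  have h6 : δ ^ 3 * t ≤ 1 / 8 := by
    have h7 : δ ^ 3 ≤ (1 / 2) ^ 3 := pow_le_pow_left₀ hδ.le hδ2 3
    calc δ ^ 3 * t ≤ (1 / 2) ^ 3 * 1 := mul_le_mul h7 ht1 ht0 (by norm_num)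
      _ = 1 / 8 := by norm_num
  have h7 : Y ≤ 2 * (C7 * S) := by nlinarith
  have hS0 : 0 ≤ S := by
    by_contra hS
    push Not at hS
    have : C7 * S < 0 := mul_neg_of_pos_of_neg (by linarith) hS
    linarith
  have h8 : δ ^ (4 * (n + 1) + c + 1) * (K2 * X) = δ ^ c * δ * Y := by
    rw [hY, ← pow_mul, pow_add, pow_add]
    ring
  rw [h8]
  calc δ ^ c * δ * Y ≤ δ ^ c * δ * (2 * (C7 * S)) := mul_le_mul_of_nonneg_left h7 (by positivity)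
    _ = (t * (2 * δ)) * S := by
        rw [ht]
        ring
    _ ≤ 1 * S := by
        refine mul_le_mul_of_nonneg_right ?_ hS0
        nlinarith
    _ = S := one_mul S

theorem ll8_jen {ι : Type*} (P : Finset ι) (x : ι → ℝ) (hx : ∀ p ∈ P, 0 ≤ x p) (n : ℕ) (hn : 1 ≤ n) (k v : ℝ) (hk : 0 < k)
    (hv : 0 ≤ v) (hc : (P.card : ℝ) ≤ k) (h : k * v ≤ ∑ p ∈ P, x p) : k * v ^ n ≤ ∑ p ∈ P, x p ^ n := by
  obtain ⟨n, rfl⟩ : ∃ m, n = m + 1 := ⟨n - 1, by omega⟩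
  have h1 := pow_sum_le_card_mul_sum_pow hx n
  have h2 : (k * v) ^ (n + 1) ≤ (∑ p ∈ P, x p) ^ (n + 1) := pow_le_pow_left₀ (by positivity) h _
  have h3 : (P.card : ℝ) ^ n ≤ k ^ n := pow_le_pow_left₀ (by positivity) hc n
  have h4 : 0 ≤ ∑ p ∈ P, x p ^ (n + 1) := Finset.sum_nonneg fun p hp => pow_nonneg (hx p hp) _
  have h5 : k ^ n * (k * v ^ (n + 1)) ≤ k ^ n * ∑ p ∈ P, x p ^ (n + 1) := by
    calc k ^ n * (k * v ^ (n + 1)) = (k * v) ^ (n + 1) := by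
          rw [mul_pow]
          ring
      _ ≤ (P.card : ℝ) ^ n * ∑ p ∈ P, x p ^ (n + 1) := h2.trans h1
      _ ≤ k ^ n * ∑ p ∈ P, x p ^ (n + 1) := mul_le_mul_of_nonneg_right h3 h4
  exact le_of_mul_le_mul_left h5 (by positivity)

theorem ll8_F0 (X s R H q γ n : ℕ) (hR : 1 ≤ R) (hH : 1 ≤ H) (h1 : q * γ * R ≤ X) (h2 : n * H ≤ X) (f : ℤ → ℂ)
    (hf : Bdd X f) : 0 ≤ (MQ X ((R, ((q * γ : ℕ) : ℤ)) :: List.replicate s (H, (n : ℤ))) f).re := by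
  obtain ⟨m, hm0, hm⟩ := MQ_nonneg X ((R, ((q * γ : ℕ) : ℤ)) :: List.replicate s (H, (n : ℤ))) (List.cons_ne_nil _ _) (by
    intro p hp
    rcases List.mem_cons.1 hp with h | h
    · subst h
      refine ⟨hR, by positivity, ?_⟩
      show ((q * γ : ℕ) : ℤ) * (R : ℤ) ≤ X
      exact_mod_cast h1
    · rw [(List.mem_replicate.1 h).2]
      refine ⟨hH, by positivity, ?_⟩
      show (n : ℤ) * (H : ℤ) ≤ X
      exact_mod_cast h2) f hf.sup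
  rw [hm, Complex.ofReal_re]
  exact hm0

theorem ll8_four (a b c : ℕ) (h : 4 * a * b ≤ c) : a * b ≤ c := by
  refine le_trans ?_ h
  exact Nat.mul_le_mul_right b (by omega)

/-- Pigeonhole. -/
theorem ll8_pig (P : Finset (ℕ × ℕ)) (G : ℕ) (hG : 1 ≤ G) (F : ℕ × ℕ → ℕ → ℝ) (hF : ∀ p ∈ P, ∀ γ ∈ Icc 1 G, 0 ≤ F p γ)
    (hP : ∀ p ∈ P, 1 ≤ Nat.gcd p.1 p.2) (a : ℝ)
    (h : G * a ≤ ∑ p ∈ P.filter (fun p : ℕ × ℕ => ¬ G < Nat.gcd p.1 p.2), F p (Nat.gcd p.1 p.2)) :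
    ∃ γ ∈ Icc 1 G, a ≤ ∑ p ∈ P, F p γ := by
  by_contra hc
  push Not at hc
  have h1 : ∑ p ∈ P.filter (fun p : ℕ × ℕ => ¬ G < Nat.gcd p.1 p.2), F p (Nat.gcd p.1 p.2) ≤
      ∑ γ ∈ Icc 1 G, ∑ p ∈ P, F p γ := by
    rw [Finset.sum_comm]
    calc ∑ p ∈ P.filter (fun p : ℕ × ℕ => ¬ G < Nat.gcd p.1 p.2), F p (Nat.gcd p.1 p.2) ≤
        ∑ p ∈ P.filter (fun p : ℕ × ℕ => ¬ G < Nat.gcd p.1 p.2), ∑ γ ∈ Icc 1 G, F p γ := by
          refine Finset.sum_le_sum fun p hp => ?_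
          rw [mem_filter] at hp
          exact Finset.single_le_sum (f := fun γ => F p γ) (fun γ hγ => hF p hp.1 γ hγ)
            (mem_Icc.2 ⟨hP p hp.1, not_lt.1 hp.2⟩)
      _ ≤ ∑ p ∈ P, ∑ γ ∈ Icc 1 G, F p γ := by
          refine Finset.sum_le_sum_of_subset_of_nonneg (Finset.filter_subset _ _) fun p hp _ => ?_
          exact Finset.sum_nonneg fun γ hγ => hF p hp γ hγ
  have h2 : ∑ γ ∈ Icc 1 G, ∑ p ∈ P, F p γ < ∑ _γ ∈ Icc 1 G, a := by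
    refine Finset.sum_lt_sum_of_nonempty ?_ fun γ hγ => hc γ hγ
    exact ⟨1, mem_Icc.2 ⟨le_rfl, hG⟩⟩
  rw [sum_const, Nat.card_Icc, nsmul_eq_mul, Nat.add_sub_cancel] at h2
  linarith

/-- **All pairs.** `H = ⌊δ^C M / K⌋`, `R = ⌊δ^(C+2) X⌋`, `G = ⌊(1/δ)^9⌋`, `P = (K, 2K]²`.
`δ² K² X / 2 ≤ ∑_{p ∈ P} SPd` (`LL4_cs`); pairs with gcd `> G` contribute at most `4X * 4K²/G ≤ δ² K² X / 4` (`LL6_gcd`, `LL8_triv`,
`G ≥ 64/δ²`); Jensen over the good pairs (at most `K²`): `K² (δ² X / 4)^n ≤ ∑_good (max 0 SPd)^n`, `n = 2^s`; `LL7_pair` (constant `C7`):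
`∑_good (MQ + X err) ≥ K² X (δ²/4)^n / C7`, `err = (K H + K + γ R / K) / M ≤ δ^C + K/M + G δ^(C+2) X / (K M)`, where `X / (K M) ≤ q / δ ≤ 1/δ²`
and `K / M ≤ K² q / (δ X) ≤ K²/(δ² X) ≤ δ^C` (hypothesis): at most half of the main term if `C` is large. Pigeonhole over
`γ ≤ G`; then all pairs are allowed again, because `MQ ≥ 0` (`MQ_nonneg`; `q γ R ≤ X`, `b b' q H ≤ 4 K² q δ^C M / K ≤ X`).
`H ≥ 1`: `δ^C M / K ≥ δ^(C+2) X / K² ≥ 1`. -/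
theorem LL8_pairs (s : ℕ) : ∃ C : ℕ, 1 ≤ C ∧ ∀ δ : ℝ, 0 < δ → δ ≤ 1 / 2 → ∀ X K M q : ℕ, 1 ≤ K → 1 ≤ M → 1 ≤ q →
    (1 / δ) ^ (C + 2) * (K : ℝ) ^ 2 ≤ X → δ * X ≤ q * K * M → 4 * q * K * M ≤ X → (q : ℝ) ≤ 1 / δ → ∀ f : ℤ → ℂ, Bdd X f →
    δ * (K * X) ≤ ∑ b ∈ Ioc K (2 * K), NU X (s + 1) M (b * q) f →
    1 ≤ ⌊δ ^ C * M / K⌋₊ ∧ 1 ≤ ⌊δ ^ (C + 2) * X⌋₊ ∧ ∃ γ : ℕ, 1 ≤ γ ∧ (γ : ℝ) ≤ (1 / δ) ^ C ∧
      4 * (q * γ) * ⌊δ ^ (C + 2) * X⌋₊ ≤ X ∧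
      δ ^ C * ((K : ℝ) ^ 2 * X) ≤ ∑ p ∈ Ioc K (2 * K) ×ˢ Ioc K (2 * K),
        (MQ X ((⌊δ ^ (C + 2) * X⌋₊, ((q * γ : ℕ) : ℤ)) ::
          List.replicate s (⌊δ ^ C * M / K⌋₊, ((p.1 * p.2 * q : ℕ) : ℤ))) f).re := by
  obtain ⟨C7, hC71, hC7⟩ := LL7_pair s
  obtain ⟨c, hc⟩ := pow_unbounded_of_one_lt C7 (by norm_num : (1 : ℝ) < 2)
  have hn1 : 1 ≤ 2 ^ s := Nat.one_le_two_pow
  refine ⟨4 * 2 ^ s + c + 12, by omega, ?_⟩
  intro δ hδ hδ2 X K M q hK hM hq hX hlo hup hqδ f hf hsum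
  have hM0 : (0 : ℝ) < M := by exact_mod_cast hM
  have hK0 : (0 : ℝ) < K := by exact_mod_cast hK
  have hK1 : (1 : ℝ) ≤ K := by exact_mod_cast hK
  have hq0 : (0 : ℝ) < q := by exact_mod_cast hq
  have hδ1 : δ ≤ 1 := by linarith
  obtain ⟨D, hD⟩ : ∃ D : ℕ, D = 4 * 2 ^ s + c := ⟨_, rfl⟩
  rw [← hD] at hX ⊢
  have h2qKM : 2 * q * K * M ≤ X := by
    refine le_trans ?_ hup
    refine Nat.mul_le_mul_right M (Nat.mul_le_mul_right K (Nat.mul_le_mul_right q (by norm_num)))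
  -- basic inequalities
  have hk2 : (K : ℝ) ^ 2 ≤ δ ^ (D + 12 + 2) * X := by
    have h1 := mul_le_mul_of_nonneg_left hX (by positivity : 0 ≤ δ ^ (D + 12 + 2))
    have h2 : δ ^ (D + 12 + 2) * ((1 / δ) ^ (D + 12 + 2) * (K : ℝ) ^ 2) = (K : ℝ) ^ 2 := by
      rw [← mul_assoc, ← mul_pow, mul_one_div_cancel hδ.ne', one_pow, one_mul]
    rw [h2] at h1
    exact h1
  have hX0 : (0 : ℝ) < X := by
    by_contra h
    push Not at h
    have h1 : δ ^ (D + 12 + 2) * (X : ℝ) ≤ 0 := mul_nonpos_of_nonneg_of_nonpos (by positivity) h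
    nlinarith
  have hX1 : 1 ≤ X := by
    have : 0 < X := by exact_mod_cast hX0
    omega
  have hqδ' : (q : ℝ) * δ ≤ 1 := by
    rw [le_div_iff₀ hδ] at hqδ
    exact hqδ
  have hup' : 4 * (q : ℝ) * K * M ≤ X := by exact_mod_cast hup
  have hkm : δ ^ 2 * X ≤ K * M := by
    calc δ ^ 2 * X = δ * (δ * X) := by ring
      _ ≤ δ * (q * K * M) := mul_le_mul_of_nonneg_left hlo hδ.le
      _ = (q * δ) * (K * M) := by ring
      _ ≤ 1 * (K * M) := mul_le_mul_of_nonneg_right hqδ' (by positivity)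
      _ = K * M := one_mul _
  have hkM : (K : ℝ) ≤ δ ^ (D + 12) * M := by
    have h1 : (K : ℝ) * K ≤ K * (δ ^ (D + 12) * M) := by
      calc (K : ℝ) * K = K ^ 2 := by ring
        _ ≤ δ ^ (D + 12 + 2) * X := hk2
        _ = δ ^ (D + 12) * (δ ^ 2 * X) := by ring
        _ ≤ δ ^ (D + 12) * (K * M) := mul_le_mul_of_nonneg_left hkm (by positivity)
        _ = K * (δ ^ (D + 12) * M) := by ring
    exact le_of_mul_le_mul_left h1 hK0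
  have hpow : ∀ a b : ℕ, a ≤ b → δ ^ b ≤ δ ^ a := fun a b hab => pow_le_pow_of_le_one hδ.le hδ1 hab
  obtain ⟨H, hH⟩ : ∃ H : ℕ, H = ⌊δ ^ (D + 12) * M / K⌋₊ := ⟨_, rfl⟩
  obtain ⟨R, hR⟩ : ∃ R : ℕ, R = ⌊δ ^ (D + 12 + 2) * X⌋₊ := ⟨_, rfl⟩
  have hH1 : 1 ≤ H := by
    rw [hH]
    refine Nat.le_floor ?_
    rw [le_div_iff₀ hK0]
    push_cast
    linarith
  have hR1 : 1 ≤ R := by
    rw [hR]
    refine Nat.le_floor ?_
    push_cast
    refine le_trans ?_ hk2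
    nlinarith
  have hHle : (H : ℝ) * K ≤ δ ^ (D + 12) * M := by
    have h1 : (H : ℝ) ≤ δ ^ (D + 12) * M / K := by
      rw [hH]
      exact Nat.floor_le (by positivity)
    rw [le_div_iff₀ hK0] at h1
    exact h1
  have hRle : (R : ℝ) ≤ δ ^ (D + 12 + 2) * X := by
    rw [hR]
    exact Nat.floor_le (by positivity)
  rw [← hH, ← hR]
  refine ⟨hH1, hR1, ?_⟩
  -- the bound for the gcd
  obtain ⟨G, hG⟩ : ∃ G : ℕ, G = ⌊(1 / δ) ^ 9⌋₊ := ⟨_, rfl⟩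
  have hGle : (G : ℝ) ≤ (1 / δ) ^ 9 := by
    rw [hG]
    exact Nat.floor_le (by positivity)
  have hG9 : (G : ℝ) * δ ^ 9 ≤ 1 := by
    calc (G : ℝ) * δ ^ 9 ≤ (1 / δ) ^ 9 * δ ^ 9 := mul_le_mul_of_nonneg_right hGle (by positivity)
      _ = 1 := by rw [← mul_pow, one_div_mul_cancel hδ.ne', one_pow]
  have hG64 : 64 ≤ (G : ℝ) * δ ^ 2 := by
    have h1 : (1 / δ) ^ 9 < G + 1 := by
      rw [hG]
      exact Nat.lt_floor_add_one _
    have h2 : (2 : ℝ) ≤ 1 / δ := by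
      rw [le_div_iff₀ hδ]
      linarith
    have h3 : (2 : ℝ) ^ 7 ≤ (1 / δ) ^ 7 := pow_le_pow_left₀ (by norm_num) h2 7
    have h4 : (1 / δ) ^ 9 * δ ^ 2 = (1 / δ) ^ 7 := by
      have h5 : (1 / δ) ^ 9 * δ ^ 2 = (1 / δ) ^ 7 * ((1 / δ) * δ) ^ 2 := by ring
      rw [h5, one_div_mul_cancel hδ.ne', one_pow, mul_one]
    have h5 : (1 / δ) ^ 9 * δ ^ 2 ≤ (G + 1) * δ ^ 2 := mul_le_mul_of_nonneg_right h1.le (by positivity)
    rw [h4] at h5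
    have h6 : δ ^ 2 ≤ 1 := pow_le_one₀ hδ.le hδ1
    have h7 : (2 : ℝ) ^ 7 = 128 := by norm_num
    rw [h7] at h3
    nlinarith
  have hG0 : (0 : ℝ) < G := by
    by_contra h
    push Not at h
    have : (G : ℝ) * δ ^ 2 ≤ 0 := mul_nonpos_of_nonpos_of_nonneg h (by positivity)
    linarith
  have hG1 : 1 ≤ G := by
    have : 0 < G := by exact_mod_cast hG0
    omega
  have hγR : ∀ γ : ℕ, γ ≤ G → 4 * (q * γ) * R ≤ X := by
    intro γ hγ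
    have h1 : (γ : ℝ) * δ ^ 9 ≤ 1 := by
      refine le_trans (mul_le_mul_of_nonneg_right ?_ (by positivity)) hG9
      exact_mod_cast hγ
    have h2 : (4 : ℝ) * (q * γ) * R ≤ X := by
      calc (4 : ℝ) * (q * γ) * R ≤ 4 * (q * γ) * (δ ^ (D + 12 + 2) * X) := mul_le_mul_of_nonneg_left hRle (by positivity)
        _ = (q * δ) * (γ * δ ^ 9) * (4 * δ ^ (D + 4)) * X := by ring
        _ ≤ 1 * 1 * (4 * δ ^ 2) * X := by
            refine mul_le_mul_of_nonneg_right ?_ hX0.le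
            refine mul_le_mul ?_ ?_ (by positivity) (by norm_num)
            · exact mul_le_mul hqδ' h1 (by positivity) (by norm_num)
            · exact mul_le_mul_of_nonneg_left (hpow 2 (D + 4) (by omega)) (by norm_num)
        _ ≤ X := by
            have h3 : δ ^ 2 ≤ 1 / 4 := by nlinarith
            nlinarith
    exact_mod_cast h2
  have hbH : ∀ b b' : ℕ, b ≤ 2 * K → b' ≤ 2 * K → b * b' * q * H ≤ X := by
    intro b b' hb hb'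
    have h1 : b * b' * q * H ≤ (2 * K) * (2 * K) * q * H :=
      Nat.mul_le_mul_right H (Nat.mul_le_mul_right q (Nat.mul_le_mul hb hb'))
    refine h1.trans ?_
    have h2 : (2 * (K : ℝ)) * (2 * K) * q * H ≤ X := by
      calc (2 * (K : ℝ)) * (2 * K) * q * H = 4 * q * K * (H * K) := by ring
        _ ≤ 4 * q * K * (δ ^ (D + 12) * M) := mul_le_mul_of_nonneg_left hHle (by positivity)
        _ = δ ^ (D + 12) * (4 * q * K * M) := by ring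
        _ ≤ 1 * X := mul_le_mul (pow_le_one₀ hδ.le hδ1) hup' (by positivity) (by norm_num)
        _ = X := one_mul _
    exact_mod_cast h2
  have hKH : 4 * K * H ≤ M := by
    have h1 : 4 * (K : ℝ) * H ≤ M := by
      calc 4 * (K : ℝ) * H = 4 * (H * K) := by ring
        _ ≤ 4 * (δ ^ (D + 12) * M) := by linarith
        _ ≤ 4 * (δ ^ 2 * M) := by
            have := mul_le_mul_of_nonneg_right (hpow 2 (D + 12) (by omega)) hM0.le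
            linarith
        _ ≤ M := by
            have h3 : δ ^ 2 ≤ 1 / 4 := by nlinarith
            nlinarith
    exact_mod_cast h1
  -- the sums
  obtain ⟨P, hP⟩ : ∃ P : Finset (ℕ × ℕ), P = Ioc K (2 * K) ×ˢ Ioc K (2 * K) := ⟨_, rfl⟩
  have hPcard : P.card = K * K := by
    rw [hP, card_product, Nat.card_Ioc]
    congr 1 <;> omega
  have hPmem : ∀ p ∈ P, p.1 ∈ Ioc K (2 * K) ∧ p.2 ∈ Ioc K (2 * K) := by
    intro p hp
    rw [hP, mem_product] at hp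
    exact hp
  rw [← hP]
  obtain ⟨F, hF⟩ : ∃ F : ℕ × ℕ → ℕ → ℝ, F = fun p γ => (MQ X ((R, ((q * γ : ℕ) : ℤ)) ::
    List.replicate s (H, ((p.1 * p.2 * q : ℕ) : ℤ))) f).re := ⟨_, rfl⟩
  have hF0 : ∀ p ∈ P, ∀ γ ∈ Icc 1 G, 0 ≤ F p γ := by
    intro p hp γ hγ
    rw [mem_Icc] at hγ
    have hp' := hPmem p hp
    rw [mem_Ioc, mem_Ioc] at hp'
    rw [hF]
    exact ll8_F0 X s R H q γ _ hR1 hH1 (ll8_four _ _ _ (hγR γ hγ.2)) (hbH p.1 p.2 hp'.1.2 hp'.2.2) f hf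
  have hgcd : ∀ p ∈ P, 1 ≤ Nat.gcd p.1 p.2 := by
    intro p hp
    have hp' := hPmem p hp
    rw [mem_Ioc, mem_Ioc] at hp'
    exact Nat.gcd_pos_of_pos_left _ (by omega)
  -- Cauchy-Schwarz
  have hcs := LL4_cs X s M K q f hf
  rw [← hP] at hcs
  have hS1 : δ ^ 2 * ((K : ℝ) ^ 2 * X) / 2 ≤ ∑ p ∈ P, SPd X s M (p.1 * q) (p.2 * q) f := by
    have h1 : (δ * (K * X)) ^ 2 ≤ 2 * X * ∑ p ∈ P, SPd X s M (p.1 * q) (p.2 * q) f :=
      (pow_le_pow_left₀ (by positivity) hsum 2).trans hcs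
    have h2 : (δ * ((K : ℝ) * X)) ^ 2 = 2 * X * (δ ^ 2 * ((K : ℝ) ^ 2 * X) / 2) := by ring
    rw [h2] at h1
    exact le_of_mul_le_mul_left h1 (by positivity)
  obtain ⟨bad, hbad⟩ : ∃ bad : Finset (ℕ × ℕ), bad = P.filter (fun p : ℕ × ℕ => G < Nat.gcd p.1 p.2) := ⟨_, rfl⟩
  obtain ⟨good, hgood⟩ : ∃ good : Finset (ℕ × ℕ), good = P.filter (fun p : ℕ × ℕ => ¬ G < Nat.gcd p.1 p.2) := ⟨_, rfl⟩
  have hS2 : ∑ p ∈ bad, SPd X s M (p.1 * q) (p.2 * q) f + ∑ p ∈ good, SPd X s M (p.1 * q) (p.2 * q) f =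
      ∑ p ∈ P, SPd X s M (p.1 * q) (p.2 * q) f := by
    rw [hbad, hgood]
    exact Finset.sum_filter_add_sum_filter_not _ _ _
  have hS3 : ∑ p ∈ bad, SPd X s M (p.1 * q) (p.2 * q) f ≤ δ ^ 2 * ((K : ℝ) ^ 2 * X) / 4 := by
    calc ∑ p ∈ bad, SPd X s M (p.1 * q) (p.2 * q) f ≤ ∑ _p ∈ bad, 4 * (X : ℝ) :=
          Finset.sum_le_sum fun p _ => LL8_triv X s M hM _ _ f hf
      _ = bad.card * (4 * X) := by rw [sum_const, nsmul_eq_mul]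
      _ ≤ (4 * (K : ℝ) ^ 2 / G) * (4 * X) := by
          refine mul_le_mul_of_nonneg_right ?_ (by positivity)
          rw [hbad, hP]
          exact LL6_gcd K G hG1
      _ ≤ δ ^ 2 * ((K : ℝ) ^ 2 * X) / 4 := by
          rw [div_mul_eq_mul_div, div_le_div_iff₀ hG0 (by norm_num)]
          have h1 : 0 ≤ (K : ℝ) ^ 2 * X := by positivity
          nlinarith [mul_le_mul_of_nonneg_right hG64 h1]
  have hS4 : (K : ℝ) ^ 2 * (δ ^ 2 * X / 4) ≤ ∑ p ∈ good, max 0 (SPd X s M (p.1 * q) (p.2 * q) f) := by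
    calc (K : ℝ) ^ 2 * (δ ^ 2 * X / 4) = δ ^ 2 * ((K : ℝ) ^ 2 * X) / 2 - δ ^ 2 * ((K : ℝ) ^ 2 * X) / 4 := by ring
      _ ≤ ∑ p ∈ good, SPd X s M (p.1 * q) (p.2 * q) f := by linarith
      _ ≤ ∑ p ∈ good, max 0 (SPd X s M (p.1 * q) (p.2 * q) f) := Finset.sum_le_sum fun p _ => le_max_right _ _
  have hS5 := ll8_jen good (fun p => max 0 (SPd X s M (p.1 * q) (p.2 * q) f)) (fun p _ => le_max_left _ _) (2 ^ s) hn1
    ((K : ℝ) ^ 2) (δ ^ 2 * X / 4) (by positivity) (by positivity) (by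
      have h1 : good.card ≤ K * K := by
        rw [hgood, ← hPcard]
        exact card_filter_le _ _
      have h2 : (good.card : ℝ) ≤ K * K := by exact_mod_cast h1
      rw [sq]
      exact h2) hS4
  -- one pair
  have hpair : ∀ p ∈ good, (max 0 (SPd X s M (p.1 * q) (p.2 * q) f)) ^ (2 ^ s) ≤
      C7 * (X : ℝ) ^ (2 ^ s - 1) * (F p (Nat.gcd p.1 p.2) + X * (3 * δ ^ (D + 3))) := by
    intro p hp
    rw [hgood, mem_filter, not_lt] at hp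
    have hp' := hPmem p hp.1
    have hp'' := hp'
    rw [mem_Ioc, mem_Ioc] at hp''
    have h1 := hC7 X M K H R p.1 p.2 q hX1 hM hK hH1 hR1 hp'.1 hp'.2 (ll8_four _ _ _ (hγR _ hp.2)) h2qKM
      (hbH p.1 p.2 hp''.1.2 hp''.2.2) hKH f hf
    refine h1.trans (mul_le_mul_of_nonneg_left ?_ (by positivity))
    rw [hF]
    show (MQ X _ f).re + _ ≤ (MQ X _ f).re + _
    refine add_le_add le_rfl (mul_le_mul_of_nonneg_left ?_ hX0.le)
    rw [div_le_iff₀ hM0]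
    have h2 : (Nat.gcd p.1 p.2 : ℝ) * δ ^ 9 ≤ 1 := by
      refine le_trans (mul_le_mul_of_nonneg_right ?_ (by positivity)) hG9
      exact_mod_cast hp.2
    have h3 : (Nat.gcd p.1 p.2 : ℝ) * R / K ≤ δ ^ (D + 3) * M := by
      rw [div_le_iff₀ hK0]
      calc (Nat.gcd p.1 p.2 : ℝ) * R ≤ Nat.gcd p.1 p.2 * (δ ^ (D + 12 + 2) * X) :=
            mul_le_mul_of_nonneg_left hRle (by positivity)
        _ = (Nat.gcd p.1 p.2 * δ ^ 9) * (δ ^ (D + 3) * (δ ^ 2 * X)) := by ring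
        _ ≤ 1 * (δ ^ (D + 3) * (K * M)) :=
            mul_le_mul h2 (mul_le_mul_of_nonneg_left hkm (by positivity)) (by positivity) (by norm_num)
        _ = δ ^ (D + 3) * M * K := by ring
    have h4 : δ ^ (D + 12) * M ≤ δ ^ (D + 3) * M :=
      mul_le_mul_of_nonneg_right (hpow (D + 3) (D + 12) (by omega)) hM0.le
    have h5 : (K : ℝ) * H = H * K := mul_comm _ _
    rw [h5]
    linarith
  have hS6 : (K : ℝ) ^ 2 * (δ ^ 2 * X / 4) ^ (2 ^ s) ≤ C7 * (X : ℝ) ^ (2 ^ s - 1) *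
      (∑ p ∈ good, F p (Nat.gcd p.1 p.2) + (K : ℝ) ^ 2 * X * (3 * δ ^ (4 * 2 ^ s + c + 3))) := by
    refine hS5.trans ((Finset.sum_le_sum hpair).trans ?_)
    rw [← Finset.mul_sum, Finset.sum_add_distrib, sum_const, nsmul_eq_mul]
    refine mul_le_mul_of_nonneg_left (add_le_add le_rfl ?_) (by positivity)
    rw [← hD]
    have h1 : (good.card : ℝ) ≤ (K : ℝ) ^ 2 := by
      have h1 : good.card ≤ K * K := by
        rw [hgood, ← hPcard]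
        exact card_filter_le _ _
      have h2 : (good.card : ℝ) ≤ K * K := by exact_mod_cast h1
      rw [sq]
      exact h2
    calc (good.card : ℝ) * (X * (3 * δ ^ (D + 3))) ≤ (K : ℝ) ^ 2 * (X * (3 * δ ^ (D + 3))) :=
          mul_le_mul_of_nonneg_right h1 (by positivity)
      _ = (K : ℝ) ^ 2 * X * (3 * δ ^ (D + 3)) := by ring
  have hS7 := ll8_fin δ hδ hδ2 (2 ^ s) c hn1 C7 hC71 hc.le ((K : ℝ) ^ 2) X _ (by positivity) hX0 hS6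
  rw [← hD] at hS7
  -- pigeonhole
  obtain ⟨γ, hγ, hγ2⟩ := ll8_pig P G hG1 F hF0 hgcd (δ ^ (D + 12) * ((K : ℝ) ^ 2 * X)) (by
    rw [← hgood]
    refine le_trans ?_ hS7
    calc (G : ℝ) * (δ ^ (D + 12) * ((K : ℝ) ^ 2 * X)) = (G * δ ^ 9) * (δ ^ (D + 3) * ((K : ℝ) ^ 2 * X)) := by ring
      _ ≤ 1 * (δ ^ (D + 1) * ((K : ℝ) ^ 2 * X)) := by
          refine mul_le_mul hG9 ?_ (by positivity) (by norm_num)
          exact mul_le_mul_of_nonneg_right (hpow (D + 1) (D + 3) (by omega)) (by positivity)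
      _ = _ := one_mul _)
  rw [mem_Icc] at hγ
  refine ⟨γ, hγ.1, ?_, hγR γ hγ.2, ?_⟩
  · have h1 : (γ : ℝ) ≤ G := by exact_mod_cast hγ.2
    refine h1.trans (hGle.trans ?_)
    refine pow_le_pow_right₀ ?_ (by omega)
    rw [le_div_iff₀ hδ]
    linarith
  · rw [hF] at hγ2
    exact hγ2

end Pool.Agent.HUK
end

-- from Lib.HUK.LL10
section

/-!
# Project HUK, chunk LL10 (M): the induction
-/

open Finset

namespace Pool.Agent.HUK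

/-- From two differences to one: `MQ_change` for the first entry (factor `q'`), then `mq2_many` for the others (factor `d = q γ`, `n = s`,
`m = 1`, `MQ_perm`), `MQ_NU`. `R3 = ⌊δ^E X⌋` with `E` large in terms of `A`. -/
theorem LL10_one (s A : ℕ) : ∃ E : ℕ, A ≤ E ∧ ∀ δ : ℝ, 0 < δ → δ ≤ 1 / 2 → ∀ X d q' R R2 : ℕ, 1 ≤ d → 1 ≤ q' → 1 ≤ R → 1 ≤ R2 →
    (1 / δ) ^ E ≤ X → (d : ℝ) ≤ (1 / δ) ^ A → (q' : ℝ) ≤ (1 / δ) ^ A → δ ^ A * X ≤ R → δ ^ A * X ≤ R2 → d * R ≤ X → q' * R2 ≤ X →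
    ∀ f : ℤ → ℂ, Bdd X f → δ ^ A * X ≤ (MQ X ((R, (d : ℤ)) :: List.replicate s (R2, (q' : ℤ))) f).re →
    4 * (d * q') * ⌊δ ^ E * X⌋₊ ≤ X ∧ 1 ≤ ⌊δ ^ E * X⌋₊ ∧ δ ^ E * X ≤ NU X (s + 1) ⌊δ ^ E * X⌋₊ ((d * q' : ℕ) : ℤ) f := by
  refine ⟨3 * A + s + 7, by omega, ?_⟩
  intro δ hδ hδ2 X d q' R R2 hd hq hR hR2 hX hdA hqA hRA hR2A hdR hqR f hf hmain
  have hX0 : (0 : ℝ) < X := lt_of_lt_of_le (by positivity) hX
  have hR' : (0 : ℝ) < R := by exact_mod_cast hR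
  have hR2' : (0 : ℝ) < R2 := by exact_mod_cast hR2
  have hδ1 : δ ≤ 1 := by linarith
  set E := 3 * A + s + 7 with hE
  have hEX : 1 ≤ δ ^ E * X := by
    calc (1 : ℝ) = δ ^ E * (1 / δ) ^ E := by
          rw [← mul_pow, mul_one_div_cancel hδ.ne', one_pow]
      _ ≤ δ ^ E * X := mul_le_mul_of_nonneg_left hX (by positivity)
  set R3 := ⌊δ ^ E * X⌋₊ with hR3
  have hR3one : 1 ≤ R3 := Nat.le_floor (by exact_mod_cast hEX)
  have hR3le : (R3 : ℝ) ≤ δ ^ E * X := Nat.floor_le (by positivity)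
  set u : ℝ := δ ^ (A + s + 7) with hu
  have hu0 : 0 < u := by positivity
  have hEu : δ ^ E = δ ^ A * δ ^ A * u := by
    rw [hu, ← pow_add, ← pow_add, hE]
    congr 1
    ring
  have hinv : (1 / δ) ^ A * δ ^ A = 1 := by
    rw [← mul_pow, one_div_mul_cancel hδ.ne', one_pow]
  have k1 : ∀ c : ℕ, (c : ℝ) ≤ (1 / δ) ^ A → (c : ℝ) * R3 ≤ u * (δ ^ A * X) := by
    intro c hc
    calc (c : ℝ) * R3 ≤ (1 / δ) ^ A * (δ ^ E * X) :=
          mul_le_mul hc hR3le (by positivity) (by positivity)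
      _ = ((1 / δ) ^ A * δ ^ A) * (u * (δ ^ A * X)) := by
          rw [hEu]
          ring
      _ = u * (δ ^ A * X) := by
          rw [hinv, one_mul]
  have k2 : (q' : ℝ) * R3 / R ≤ u := by
    rw [div_le_iff₀ hR']
    exact (k1 q' hqA).trans (mul_le_mul_of_nonneg_left hRA hu0.le)
  have k3 : (d : ℝ) * R3 / R2 ≤ u := by
    rw [div_le_iff₀ hR2']
    exact (k1 d hdA).trans (mul_le_mul_of_nonneg_left hR2A hu0.le)
  have hu7 : u ≤ 1 / 4 := by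
    have h1 : u ≤ δ ^ 2 := pow_le_pow_of_le_one hδ.le hδ1 (by omega)
    have h2 : δ ^ 2 ≤ (1 / 2) ^ 2 := pow_le_pow_left₀ hδ.le hδ2 2
    calc u ≤ (1 / 2) ^ 2 := h1.trans h2
      _ = 1 / 4 := by norm_num
  have k4 : (d : ℝ) * (q' * R3) ≤ u * X := by
    calc (d : ℝ) * (q' * R3) ≤ (1 / δ) ^ A * (u * (δ ^ A * X)) :=
          mul_le_mul hdA (k1 q' hqA) (by positivity) (by positivity)
      _ = ((1 / δ) ^ A * δ ^ A) * (u * X) := by ring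
      _ = u * X := by rw [hinv, one_mul]
  have k5 : 4 * (d * q') * R3 ≤ X := by
    have h1 : ((4 * (d * q') * R3 : ℕ) : ℝ) ≤ X := by
      push_cast
      have h2 : u * X ≤ 1 / 4 * X := mul_le_mul_of_nonneg_right hu7 hX0.le
      linarith
    exact_mod_cast h1
  have k6 : d * (q' * R3) ≤ X := by nlinarith
  have k7 : q' * (d * R3) ≤ X := by
    calc q' * (d * R3) = d * (q' * R3) := by ring
      _ ≤ X := k6
  refine ⟨k5, hR3one, ?_⟩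
  have h1 := MQ_change X R R3 q' hR hR3one hq (d : ℤ) (by positivity) (by exact_mod_cast hdR)
    (by exact_mod_cast k6) (List.replicate s (R2, (q' : ℤ))) (by
      intro p hp
      rw [(List.mem_replicate.1 hp).2]
      exact hR2) f hf
  have h2 : ((R3, (d : ℤ) * q') :: List.replicate s (R2, (q' : ℤ))).Perm
      (List.replicate s (R2, (q' : ℤ)) ++ List.replicate 1 (R3, (q' : ℤ) * d)) := by
    rw [mul_comm (d : ℤ) q', List.replicate_one]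
    exact (List.perm_append_singleton _ _).symm
  rw [MQ_perm X h2 f] at h1
  have h3 := mq2_many X R2 R3 d hR2 hR3one hd (q' : ℤ) (by positivity) (by exact_mod_cast hqR)
    (by exact_mod_cast k7) f hf s 1
  rw [MQ_NU X (s + 1) R3 hR3one ((q' : ℤ) * d) f] at h3
  have h4 : ((d * q' : ℕ) : ℤ) = (q' : ℤ) * d := by
    push_cast
    ring
  rw [h4]
  set N := NU X (s + 1) R3 ((q' : ℤ) * d) f with hN
  have h5 : (q' * R3 / R : ℝ) ^ 2 ≤ u ^ 2 := pow_le_pow_left₀ (by positivity) k2 2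
  have h6 : (d * R3 / R2 : ℝ) ^ 2 ≤ u ^ 2 := pow_le_pow_left₀ (by positivity) k3 2
  have h7 : (1 : ℝ) ≤ 2 ^ s := one_le_pow₀ (by norm_num)
  have h8 : 32 * X * (q' * R3 / R : ℝ) ^ 2 ≤ 32 * X * u ^ 2 :=
    mul_le_mul_of_nonneg_left h5 (by positivity)
  have h9 : (2 ^ s - 1) * (32 * X * (d * R3 / R2 : ℝ) ^ 2) ≤ (2 ^ s - 1) * (32 * X * u ^ 2) :=
    mul_le_mul_of_nonneg_left (mul_le_mul_of_nonneg_left h6 (by positivity)) (by linarith)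
  have h10 : δ ^ A * X ≤ 2 ^ (s + 1) * N + 2 ^ (s + 1) * (32 * X * u ^ 2) := by
    rw [pow_succ]
    nlinarith [mul_nonneg (mul_nonneg (by norm_num : (0 : ℝ) ≤ 32) hX0.le) (sq_nonneg u)]
  have h11 : 2 ^ (s + 1) * (32 * X * u ^ 2) ≤ δ ^ A * X / 2 := by
    have e1 : u = δ ^ A * δ ^ (s + 7) := by
      rw [hu, ← pow_add]
      congr 1
    have e2 : (2 : ℝ) ^ (s + 7) * δ ^ (s + 7) ≤ 1 := by
      rw [← mul_pow]
      exact pow_le_one₀ (by positivity) (by linarith)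
    have e3 : u ≤ 1 := by linarith
    calc 2 ^ (s + 1) * (32 * X * u ^ 2) = (2 : ℝ) ^ (s + 7) / 2 * u * (u * X) := by
          rw [pow_succ, pow_add]
          ring
      _ = (2 : ℝ) ^ (s + 7) * δ ^ (s + 7) * (δ ^ A * (u * X) / 2) := by
          nth_rewrite 1 [e1]
          ring
      _ ≤ 1 * (δ ^ A * (u * X) / 2) := mul_le_mul_of_nonneg_right e2 (by positivity)
      _ ≤ δ ^ A * X / 2 := by
          rw [one_mul]
          have e4 : u * X ≤ X := by nlinarith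
          have e5 := mul_le_mul_of_nonneg_left e4 (by positivity : 0 ≤ δ ^ A)
          linarith
  have h12 : δ ^ A * X / 2 ≤ 2 ^ (s + 1) * N := by linarith
  have h13 : δ ^ E * X * 2 ^ (s + 2) ≤ δ ^ A * X := by
    have e1 : δ ^ E ≤ δ ^ A * δ ^ (s + 2) := by
      rw [← pow_add]
      exact pow_le_pow_of_le_one hδ.le hδ1 (by omega)
    have e2 : δ ^ (s + 2) * (2 : ℝ) ^ (s + 2) ≤ 1 := by
      rw [← mul_pow]
      exact pow_le_one₀ (by positivity) (by linarith)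
    calc δ ^ E * X * 2 ^ (s + 2) ≤ (δ ^ A * δ ^ (s + 2)) * X * 2 ^ (s + 2) := by gcongr
      _ = (δ ^ A * X) * (δ ^ (s + 2) * (2 : ℝ) ^ (s + 2)) := by ring
      _ ≤ (δ ^ A * X) * 1 := mul_le_mul_of_nonneg_left e2 (by positivity)
      _ = δ ^ A * X := mul_one _
  have h14 : (2 : ℝ) ^ (s + 2) = 2 ^ (s + 1) * 2 := by rw [pow_succ]
  rw [h14] at h13
  have h15 : (0 : ℝ) < 2 ^ (s + 1) := by positivity
  have h16 : 2 ^ (s + 1) * (δ ^ E * X) ≤ 2 ^ (s + 1) * N := by linarith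
  exact le_of_mul_le_mul_left h16 h15

theorem ll10_floor (x : ℝ) (h : 1 ≤ ⌊x⌋₊) : x / 2 ≤ (⌊x⌋₊ : ℝ) := by
  have h1 := Nat.lt_floor_add_one x
  have h2 : (1 : ℝ) ≤ (⌊x⌋₊ : ℝ) := by exact_mod_cast h
  linarith

/-- Base: `LL8_pairs 0` (`K²` equal terms `MQ X [(R, q γ)] f = NU X 1 R (q γ) f`). -/
theorem LL10_base : LLP 1 := by
  obtain ⟨C, hC, h8⟩ := LL8_pairs 0
  refine ⟨C + 1, C + 2, ?_⟩
  intro δ hδ hδ2 X K M q hK hM hq hdiv hX h1 h2 h3 f hf h4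
  have hK' : (0 : ℝ) < K := by exact_mod_cast hK
  have hX0 : (0 : ℝ) < X := lt_of_lt_of_le (by positivity) hX
  obtain ⟨-, hR, γ, hγ, hγC, hγX, hmain⟩ := h8 δ hδ hδ2 X K M q hK hM hq (by simpa using hX) h1 h2 h3 f hf h4
  refine ⟨q * γ, Nat.mul_pos hq hγ, ?_, hγX, hR, ?_⟩
  · push_cast
    calc (q : ℝ) * γ ≤ (1 / δ) * (1 / δ) ^ C := mul_le_mul h3 hγC (by positivity) (by positivity)
      _ = (1 / δ) ^ (C + 1) := by rw [pow_succ, mul_comm]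
  · have e1 : ∀ p ∈ Ioc K (2 * K) ×ˢ Ioc K (2 * K),
        (MQ X ((⌊δ ^ (C + 2) * X⌋₊, ((q * γ : ℕ) : ℤ)) ::
          List.replicate 0 (⌊δ ^ C * M / K⌋₊, ((p.1 * p.2 * q : ℕ) : ℤ))) f).re =
        NU X 1 ⌊δ ^ (C + 2) * X⌋₊ ((q * γ : ℕ) : ℤ) f := by
      intro p _
      exact MQ_NU X 1 _ hR _ f
    rw [Finset.sum_congr rfl e1, Finset.sum_const, card_product, Nat.card_Ioc, nsmul_eq_mul] at hmain
    have e2 : ((((2 * K - K) * (2 * K - K) : ℕ) : ℝ)) = (K : ℝ) ^ 2 := by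
      have : 2 * K - K = K := by omega
      rw [this]
      push_cast
      ring
    rw [e2] at hmain
    have e3 : (K : ℝ) ^ 2 * (δ ^ C * X) ≤ (K : ℝ) ^ 2 * NU X 1 ⌊δ ^ (C + 2) * X⌋₊ ((q * γ : ℕ) : ℤ) f := by
      refine le_trans (le_of_eq ?_) hmain
      ring
    have e4 := le_of_mul_le_mul_left e3 (by positivity)
    refine le_trans ?_ e4
    exact mul_le_mul_of_nonneg_right (pow_le_pow_of_le_one hδ.le (by linarith) (by omega)) hX0.le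

/-- Step: `LL8_pairs s`, `LL9_many`, `LL10_one` (`d = q γ`; `R = ⌊δ^(C+2) X⌋ ≥ δ^(C+3) X`, because `δ^(C+2) X ≥ 1`). -/
theorem LL10_step (s : ℕ) (hs : 1 ≤ s) (hL : LLP s) : LLP (s + 1) := by
  obtain ⟨C, hC, h8⟩ := LL8_pairs s
  obtain ⟨D1, D2, h9⟩ := LL9_many s hs hL C hC
  obtain ⟨E, hE, h10⟩ := LL10_one s (C + 3 + D1 + D2 + 1)
  refine ⟨C + 1 + D1, E, ?_⟩
  intro δ hδ hδ2 X K M q hK hM hq hdiv hX h1 h2 h3 f hf h4
  have hδ1 : δ ≤ 1 := by linarith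
  have hinv : (1 : ℝ) ≤ 1 / δ := by
    rw [le_div_iff₀ hδ]
    linarith
  have hK' : (1 : ℝ) ≤ K := by exact_mod_cast hK
  have hX0 : (0 : ℝ) < X := lt_of_lt_of_le (by positivity) hX
  have hK1 : (1 : ℝ) ≤ (K : ℝ) ^ (2 ^ (s + 1)) := one_le_pow₀ hK'
  have hXE : (1 / δ) ^ E ≤ X := by
    refine le_trans ?_ hX
    exact le_mul_of_one_le_right (by positivity) hK1
  have hX1 : (1 / δ) ^ (C + 2) * (K : ℝ) ^ 2 ≤ X := by
    refine le_trans ?_ hX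
    refine mul_le_mul (pow_le_pow_right₀ hinv (by omega)) ?_ (by positivity) (by positivity)
    refine pow_le_pow_right₀ hK' ?_
    calc 2 = 2 ^ 1 := (pow_one 2).symm
      _ ≤ 2 ^ (s + 1) := Nat.pow_le_pow_right (by norm_num) (by omega)
  have hX2 : (1 / δ) ^ D1 * (K : ℝ) ^ (2 ^ (s + 1)) ≤ X := by
    refine le_trans ?_ hX
    exact mul_le_mul_of_nonneg_right (pow_le_pow_right₀ hinv (by omega)) (by positivity)
  obtain ⟨hH, hR, γ, hγ, hγC, hγX, hmain⟩ := h8 δ hδ hδ2 X K M q hK hM hq hX1 h1 h2 h3 f hf h4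
  have hdR : q * γ * ⌊δ ^ (C + 2) * X⌋₊ ≤ X := by nlinarith
  obtain ⟨q', hq', hq'D, hq'X, hR2, hmain2⟩ := h9 δ hδ hδ2 X K M q γ ⌊δ ^ (C + 2) * X⌋₊ hK hM hq hγ hR
    hdiv hX2 h1 h2 h3 hdR hH f hf hmain
  have hqR2 : q' * ⌊δ ^ D2 * X⌋₊ ≤ X := by nlinarith
  have hfl : ∀ n : ℕ, 1 ≤ ⌊δ ^ n * X⌋₊ → δ ^ (n + 1) * X ≤ (⌊δ ^ n * X⌋₊ : ℝ) := by
    intro n hn
    refine le_trans ?_ (ll10_floor _ hn)
    calc δ ^ (n + 1) * X = δ * (δ ^ n * X) := by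
          rw [pow_succ]
          ring
      _ ≤ 1 / 2 * (δ ^ n * X) := mul_le_mul_of_nonneg_right hδ2 (by positivity)
      _ = δ ^ n * X / 2 := by ring
  have hle : ∀ m n : ℕ, m ≤ n → δ ^ n * X ≤ δ ^ m * X := fun m n hmn =>
    mul_le_mul_of_nonneg_right (pow_le_pow_of_le_one hδ.le hδ1 hmn) hX0.le
  have hdA : ((q * γ : ℕ) : ℝ) ≤ (1 / δ) ^ (C + 1) := by
    push_cast
    calc (q : ℝ) * γ ≤ (1 / δ) * (1 / δ) ^ C := mul_le_mul h3 hγC (by positivity) (by positivity)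
      _ = (1 / δ) ^ (C + 1) := by rw [pow_succ, mul_comm]
  obtain ⟨k1, k2, k3⟩ := h10 δ hδ hδ2 X (q * γ) q' ⌊δ ^ (C + 2) * X⌋₊ ⌊δ ^ D2 * X⌋₊
    (Nat.mul_pos hq hγ) hq' hR hR2 hXE
    (hdA.trans (pow_le_pow_right₀ hinv (by omega)))
    (hq'D.trans (pow_le_pow_right₀ hinv (by omega)))
    ((hle _ _ (by omega)).trans (hfl (C + 2) hR))
    ((hle _ _ (by omega)).trans (hfl D2 hR2)) hdR hqR2 f hf
    ((hle _ _ (by omega)).trans hmain2)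
  refine ⟨q * γ * q', Nat.mul_pos (Nat.mul_pos hq hγ) hq', ?_, k1, k2, k3⟩
  push_cast
  push_cast at hdA
  calc (q : ℝ) * γ * q' ≤ (1 / δ) ^ (C + 1) * (1 / δ) ^ D1 :=
        mul_le_mul hdA hq'D (by positivity) (by positivity)
    _ = (1 / δ) ^ (C + 1 + D1) := (pow_add _ _ _).symm

theorem LL10_all (s : ℕ) (hs : 1 ≤ s) : LLP s := by
  induction s, hs using Nat.le_induction with
  | base => exact LL10_base
  | succ n hn ih => exact LL10_step n hn ih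

end Pool.Agent.HUK
end

-- from Lib.HUK.LL
section

/-!
# Project HUK, chunk LL: from the directions `b q`, `b ∈ (K, 2K]`, to one small direction
-/

open Finset

namespace Pool.Agent.HUK

/-- PROOF.md, 2.7. -/
theorem LL_main (s : ℕ) (hs : 1 ≤ s) : ∃ C1 C2 : ℕ, ∀ δ : ℝ, 0 < δ → δ ≤ 1 / 2 → ∀ X K M q : ℕ, 1 ≤ K → 1 ≤ M → 1 ≤ q →
    (∀ n : ℕ, 1 ≤ n → n ≤ X → (n.divisors.card : ℝ) ≤ 1 / δ) → (1 / δ) ^ C2 * (K : ℝ) ^ (2 ^ s) ≤ X →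
    δ * X ≤ q * K * M → 4 * q * K * M ≤ X → (q : ℝ) ≤ 1 / δ → ∀ f : ℤ → ℂ, Bdd X f →
    δ * (K * X) ≤ ∑ b ∈ Ioc K (2 * K), NU X s M (b * q) f →
    ∃ q' : ℕ, 1 ≤ q' ∧ (q' : ℝ) ≤ (1 / δ) ^ C1 ∧ 4 * q' * ⌊δ ^ C2 * X⌋₊ ≤ X ∧ 1 ≤ ⌊δ ^ C2 * X⌋₊ ∧
      δ ^ C2 * X ≤ NU X s ⌊δ ^ C2 * X⌋₊ q' f :=
  LL10_all s hs

end Pool.Agent.HUK
end
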