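import Pool.Agent.Lib.H59M.M1.M002
import Pool.Agent.Lib.H59M.M1.M003
import Pool.Agent.Lib.H59M.M1.M007
import Pool.Agent.Lib.H59M.M1.M021
import Pool.Agent.Lib.H59M.M1.M026
import Pool.Agent.Lib.H59M.M1.M028
import Pool.Agent.Lib.H59M.M1.M029
import Pool.Agent.Lib.H59M.M1.M046

/-! Merged copies (to shorten the build) of Lib.H37T.A0, Lib.H37T.A1, Lib.H37T.A2, Lib.H37T.A3, Lib.H81W.S4, Lib.H81W.S3, Lib.H81W.S5, Lib.H81W.S6, Lib.H3B.S34, Lib.HPP.A7a, Lib.HPP.A7, Lib.HPP.A9a, Lib.HPP.A9, Lib.HPP.A10, Lib.HPP.C4a, Lib.HPP.C4, Lib.HPP.B7, Lib.HPP.C6a, Lib.HPP.C6, Lib.HPP.C7, Lib.HPP.C8. -/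

-- from Lib.H37T.A0
section
/-!
H37T (MP_443e5f, candidate T): assembly of the modules A (Heath-Brown's identity in seminorm form), B (bilinear pieces), C (one smooth variable), D (near-diagonal pieces) to the inverse theorem for the von Mangoldt function.

This file: the map P -> |TF n (P o toNat) W f g| is a seminorm which sees only the values at 1, ..., 2 n.
-/
namespace Pool.Agent.H37T
open Finset Pool.Agent.H44W

/-- The function on the integers given by a function on the natural numbers. -/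
noncomputable def lft (P : ℕ → ℝ) (m : ℤ) : ℂ := ((P m.toNat : ℝ) : ℂ)

/-- TF as a linear map in the kernel. -/
noncomputable def tfL (n : ℕ) (W f g : ℤ → ℂ) : (ℕ → ℝ) →ₗ[ℝ] ℂ where
  toFun P := TF n (lft P) W f g
  map_add' P Q := by
    unfold TF lft
    rw [← Finset.sum_add_distrib]
    refine Finset.sum_congr rfl fun x _ => ?_
    rw [← Finset.sum_add_distrib]
    refine Finset.sum_congr rfl fun y _ => ?_
    rw [Pi.add_apply]
    push_cast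
    ring
  map_smul' c P := by
    unfold TF lft
    rw [RingHom.id_apply, Finset.smul_sum]
    refine Finset.sum_congr rfl fun x _ => ?_
    rw [Finset.smul_sum]
    refine Finset.sum_congr rfl fun y _ => ?_
    rw [Pi.smul_apply, Complex.real_smul, smul_eq_mul]
    push_cast
    ring

/-- The seminorm. -/
noncomputable def tfS (n : ℕ) (W f g : ℤ → ℂ) : Seminorm ℝ (ℕ → ℝ) := (normSeminorm ℝ ℂ).comp (tfL n W f g)

theorem tfS_apply (n : ℕ) (W f g : ℤ → ℂ) (P : ℕ → ℝ) : tfS n W f g P = ‖TF n (lft P) W f g‖ := rfl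

theorem TF_congr (n : ℕ) {F G : ℤ → ℂ} (W f g : ℤ → ℂ) (h : ∀ m : ℤ, 2 ≤ m → m ≤ 2 * n → F m = G m) :
    TF n F W f g = TF n G W f g := by
  unfold TF
  refine Finset.sum_congr rfl fun x hx => Finset.sum_congr rfl fun y hy => ?_
  rw [Finset.mem_Icc] at hx hy
  rw [h (x + y) (by omega) (by omega)]

theorem tfS_loc (n : ℕ) (W f g : ℤ → ℂ) : Pool.Agent.Lib.H81A.Loc (2 * n) (tfS n W f g) := by
  intro P hP
  rw [tfS_apply, TF_congr n (G := fun _ => 0) W f g]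
  · unfold TF
    simp
  · intro m h1 h2
    unfold lft
    rw [hP m.toNat (by omega) (by omega), Complex.ofReal_zero]

end Pool.Agent.H37T
end

-- from Lib.H37T.A1
section
/-!
H37T: Dirichlet convolutions as sums over finite sets.
-/
namespace Pool.Agent.H37T
open Finset Pool.Agent.H44W

theorem conv_eq (m : ℕ) (hm : m ≠ 0) (S T : Finset ℕ) (α β : ℕ → ℝ) (hS : ∀ a, α a ≠ 0 → a ∈ S) (hT : ∀ b, β b ≠ 0 → b ∈ T) :
    ∑ x ∈ m.divisorsAntidiagonal, α x.1 * β x.2 = ∑ a ∈ S, ∑ b ∈ T, if a * b = m then α a * β b else 0 := by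
  classical
  rw [← Finset.sum_product (s := S) (t := T) (f := fun x : ℕ × ℕ => if x.1 * x.2 = m then α x.1 * β x.2 else 0),
    ← Finset.sum_filter]
  symm
  refine Finset.sum_subset_zero_on_sdiff ?_ ?_ (fun _ _ => rfl)
  · intro x hx
    rw [Finset.mem_filter] at hx
    exact Nat.mem_divisorsAntidiagonal.2 ⟨hx.2, hm⟩
  · intro x hx
    rw [Finset.mem_sdiff, Finset.mem_filter, Finset.mem_product] at hx
    by_contra h
    have h1 : α x.1 ≠ 0 := fun h0 => h (by rw [h0, zero_mul])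
    have h2 : β x.2 ≠ 0 := fun h0 => h (by rw [h0, mul_zero])
    exact hx.2 ⟨⟨hS _ h1, hT _ h2⟩, (Nat.mem_divisorsAntidiagonal.1 hx.1).1⟩

end Pool.Agent.H37T
end

-- from Lib.H37T.A2
section
/-!
H37T: the hypothesis H2 of Heath-Brown's identity (module A) from module B (ClassTwo).
-/
namespace Pool.Agent.H37T
open Finset Pool.Agent.H44W

theorem TF_add (n : ℕ) (F G W f g : ℤ → ℂ) : TF n (fun m => F m + G m) W f g = TF n F W f g + TF n G W f g := by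
  unfold TF
  rw [← Finset.sum_add_distrib]
  refine Finset.sum_congr rfl fun x _ => ?_
  rw [← Finset.sum_add_distrib]
  refine Finset.sum_congr rfl fun y _ => ?_
  ring

/-- A convolution with supports in `[K, 4K)`, `[M, 4M)` is a sum of four pieces. -/
theorem conv_tII (m : ℤ) (hm : 1 ≤ m) (K M : ℕ) (α β : ℕ → ℝ) (hS : ∀ a, α a ≠ 0 → K ≤ a ∧ a < 4 * K)
    (hT : ∀ b, β b ≠ 0 → M ≤ b ∧ b < 4 * M) :
    lft (fun m => ∑ x ∈ m.divisorsAntidiagonal, α x.1 * β x.2) m =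
      (tII K M (fun a => (α a : ℂ)) (fun b => (β b : ℂ)) m + tII K (2 * M) (fun a => (α a : ℂ)) (fun b => (β b : ℂ)) m) +
      (tII (2 * K) M (fun a => (α a : ℂ)) (fun b => (β b : ℂ)) m + tII (2 * K) (2 * M) (fun a => (α a : ℂ)) (fun b => (β b : ℂ)) m) := by
  have h0 : ((m.toNat : ℕ) : ℤ) = m := Int.toNat_of_nonneg (by omega)
  have h1 : m.toNat ≠ 0 := by omega
  have e1 : ∀ (K M : ℕ), tII K M (fun a => (α a : ℂ)) (fun b => (β b : ℂ)) m =
      ((∑ a ∈ Ico K (2 * K), ∑ b ∈ Ico M (2 * M), if a * b = m.toNat then α a * β b else 0 : ℝ) : ℂ) := by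
    intro K M
    unfold tII
    push_cast
    refine Finset.sum_congr rfl fun a _ => Finset.sum_congr rfl fun b _ => ?_
    by_cases h : a * b = m.toNat
    · rw [if_pos h, if_pos (by omega), Complex.ofReal_mul]
    · rw [if_neg h, if_neg (by intro h2; apply h; omega), Complex.ofReal_zero]
  show ((∑ x ∈ m.toNat.divisorsAntidiagonal, α x.1 * β x.2 : ℝ) : ℂ) = _
  rw [conv_eq m.toNat h1 (Ico K (4 * K)) (Ico M (4 * M)) α β (fun a ha => Finset.mem_Ico.2 (hS a ha)) (fun b hb => Finset.mem_Ico.2 (hT b hb)),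
    e1, e1, e1, e1]
  rw [← Finset.sum_Ico_consecutive (m := K) (n := 2 * K) (k := 4 * K) _ (by omega) (by omega)]
  have e2 : ∀ (a : ℕ), ∑ b ∈ Ico M (4 * M), (if a * b = m.toNat then α a * β b else 0) =
      ∑ b ∈ Ico M (2 * M), (if a * b = m.toNat then α a * β b else 0) + ∑ b ∈ Ico (2 * M) (2 * (2 * M)), (if a * b = m.toNat then α a * β b else 0) := by
    intro a
    rw [show 2 * (2 * M) = 4 * M by ring]
    exact (Finset.sum_Ico_consecutive _ (by omega) (by omega)).symm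
  rw [Finset.sum_congr rfl fun a _ => e2 a, Finset.sum_congr (rfl : Ico (2 * K) (4 * K) = _) fun a _ => e2 a, Finset.sum_add_distrib, Finset.sum_add_distrib,
    show 4 * K = 2 * (2 * K) by ring]
  push_cast
  ring

/-- **H2** from module B. -/
theorem h2_of (η : ℝ) (hη : 0 < η) (C : ℕ) (h : ClassTwo C) : ∃ n0 : ℕ, ∀ n : ℕ, n0 ≤ n → ∀ c D : ℝ,
    2 ≤ D → (∀ m : ℕ, 1 ≤ m → m ≤ 2 * n → (m.divisors.card : ℝ) ≤ D) → D ^ C ≤ ((2 * n : ℕ) : ℝ) ^ c → D ^ C ≤ (n:ℝ) ^ η →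
    ∀ W f g : ℤ → ℂ, (∀ x, ‖W x‖ ≤ 1) → (∀ x, ‖f x‖ ≤ 1) → (∀ x, ‖g x‖ ≤ 1) →
    (∀ th : ℝ, ‖∑ z ∈ Icc (1:ℤ) n, g z * ee (th * z)‖ < (n:ℝ) / D ^ C) →
      Pool.Agent.Lib.H81A.H2 c η (2 * n) (tfS n W f g) (4 * ((n:ℝ) ^ 2 / D)) := by
  have hlim : ∀ᶠ n : ℕ in Filter.atTop, (32 : ℝ) ≤ (n : ℝ) ^ η :=
    ((tendsto_rpow_atTop hη).comp tendsto_natCast_atTop_atTop).eventually_ge_atTop 32
  obtain ⟨n1, hn1⟩ := Filter.eventually_atTop.1 hlim
  refine ⟨max n1 1, fun n hn c D hD hdiv hDK hDη W f g hW hf hg hth => ?_⟩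
  have hn2 : (32 : ℝ) ≤ (n : ℝ) ^ η := hn1 n (le_trans (le_max_left _ _) hn)
  have hn3 : (1 : ℝ) ≤ n := by exact_mod_cast le_trans (le_max_right n1 1) hn
  have hn0 : (0 : ℝ) < n := by linarith
  intro K M hK1 hK2 hM1 α β hα hβ hαs hβs
  set K' : ℕ := ⌈K⌉₊ with hK'
  set M' : ℕ := ⌈M⌉₊ with hM'
  have hDC : (1 : ℝ) ≤ D ^ C := one_le_pow₀ (by linarith)
  have hK0 : (1 : ℝ) ≤ K := le_trans hDC (le_trans hDK hK1)
  have hK'1 : 1 ≤ K' := Nat.one_le_ceil_iff.2 (by linarith)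
  have hM'1 : 1 ≤ M' := Nat.one_le_ceil_iff.2 (by linarith)
  have hKc : K ≤ K' := Nat.le_ceil K
  have hMc : M ≤ M' := Nat.le_ceil M
  have hS : ∀ a, α a ≠ 0 → K' ≤ a ∧ a < 4 * K' := by
    intro a ha
    obtain ⟨h1, h2⟩ := hαs a ha
    refine ⟨Nat.ceil_le.2 h1, ?_⟩
    have : (a : ℝ) ≤ 2 * K' := le_trans h2 (by linarith)
    have h3 : a ≤ 2 * K' := by exact_mod_cast this
    omega
  have hT : ∀ b, β b ≠ 0 → M' ≤ b ∧ b < 4 * M' := by
    intro b hb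
    obtain ⟨h1, h2⟩ := hβs b hb
    refine ⟨Nat.ceil_le.2 h1, ?_⟩
    have : (b : ℝ) ≤ 2 * M' := le_trans h2 (by linarith)
    have h3 : b ≤ 2 * M' := by exact_mod_cast this
    omega
  have hup : (2 * (K' : ℝ)) ^ 2 * D ^ C ≤ n := by
    have h1 : (K' : ℝ) ≤ 2 * K := by
      have := Nat.ceil_lt_add_one (by linarith : (0:ℝ) ≤ K)
      linarith
    have h2n : (0:ℝ) < ((2 * n : ℕ) : ℝ) := by push_cast; linarith
    have h2 : K ^ 2 ≤ ((2 * n : ℕ) : ℝ) ^ (1 - 2 * η) := by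
      have h3 : ((2 * n : ℕ) : ℝ) ^ (1 - 2 * η) = (((2 * n : ℕ) : ℝ) ^ (1 / 2 - η)) ^ 2 := by
        rw [← Real.rpow_natCast, ← Real.rpow_mul h2n.le]
        congr 1
        push_cast
        ring
      rw [h3]
      exact pow_le_pow_left₀ (by linarith) hK2 2
    have h3 : ((2 * n : ℕ) : ℝ) ^ (1 - 2 * η) ≤ 2 * (n : ℝ) ^ (1 - 2 * η) := by
      push_cast
      rw [Real.mul_rpow (by norm_num) (by linarith)]
      refine mul_le_mul_of_nonneg_right ?_ (Real.rpow_nonneg (by linarith) _)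
      calc (2:ℝ) ^ (1 - 2 * η) ≤ 2 ^ (1 : ℝ) := Real.rpow_le_rpow_of_exponent_le (by norm_num) (by linarith)
        _ = 2 := Real.rpow_one 2
    have h4 : (2 * (K' : ℝ)) ^ 2 ≤ 32 * (n : ℝ) ^ (1 - 2 * η) := by
      have h5 : (2 * (K' : ℝ)) ^ 2 ≤ (4 * K) ^ 2 := pow_le_pow_left₀ (by positivity) (by linarith) 2
      have h6 : (4 * K) ^ 2 = 16 * K ^ 2 := by ring
      linarith
    have h7 : (0:ℝ) ≤ (n : ℝ) ^ (1 - 2 * η) := Real.rpow_nonneg hn0.le _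
    calc (2 * (K' : ℝ)) ^ 2 * D ^ C ≤ (32 * (n : ℝ) ^ (1 - 2 * η)) * (n:ℝ) ^ η := by
          refine mul_le_mul h4 hDη (by positivity) (by positivity)
      _ ≤ ((n:ℝ) ^ η * (n : ℝ) ^ (1 - 2 * η)) * (n:ℝ) ^ η := by gcongr
      _ = (n:ℝ) ^ (1:ℝ) := by
          rw [← Real.rpow_add hn0, ← Real.rpow_add hn0]
          congr 1
          ring
      _ = n := Real.rpow_one _
  have hlow : D ^ C ≤ (K' : ℝ) := le_trans hDK (le_trans hK1 hKc)
  have hpc : ∀ K1 M1 : ℕ, D ^ C ≤ (K1 : ℝ) → (K1 : ℝ) ≤ 2 * K' →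
      ‖TF n (tII K1 M1 (fun a => (α a : ℂ)) (fun b => (β b : ℂ))) W f g‖ ≤ (n:ℝ) ^ 2 / D := by
    intro K1 M1 h1 h2
    by_contra hcon
    obtain ⟨th, hth'⟩ := h n K1 M1 D hD hdiv h1 (by
        refine le_trans ?_ hup
        gcongr) (fun a => (α a : ℂ)) (fun b => (β b : ℂ))
      (fun a => by rw [Complex.norm_real]; exact hα a) (fun b => by rw [Complex.norm_real]; exact hβ b) W f g hW hf hg (le_of_lt (not_le.1 hcon))
    exact absurd (hth th) (not_lt.2 hth')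
  rw [tfS_apply, TF_congr n W f g (fun m hm1 hm2 => conv_tII m (by omega) K' M' α β hS hT), TF_add, TF_add, TF_add]
  have c1 := hpc K' M' hlow (by linarith [Nat.cast_nonneg (α := ℝ) K'])
  have c2 := hpc K' (2 * M') hlow (by linarith [Nat.cast_nonneg (α := ℝ) K'])
  have c3 := hpc (2 * K') M' (by push_cast; linarith [Nat.cast_nonneg (α := ℝ) K']) (by push_cast; exact le_refl _)
  have c4 := hpc (2 * K') (2 * M') (by push_cast; linarith [Nat.cast_nonneg (α := ℝ) K']) (by push_cast; exact le_refl _)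
  refine (norm_add_le _ _).trans ?_
  have d1 := norm_add_le (TF n (tII K' M' (fun a => (α a : ℂ)) (fun b => (β b : ℂ))) W f g) (TF n (tII K' (2 * M') (fun a => (α a : ℂ)) (fun b => (β b : ℂ))) W f g)
  have d2 := norm_add_le (TF n (tII (2 * K') M' (fun a => (α a : ℂ)) (fun b => (β b : ℂ))) W f g) (TF n (tII (2 * K') (2 * M') (fun a => (α a : ℂ)) (fun b => (β b : ℂ))) W f g)
  linarith

end Pool.Agent.H37T
end

-- from Lib.H37T.A3
section
/-!
H37T: the hypothesis H1 of Heath-Brown's identity from module C (H81E.type_one_real), and H3 from module D (DOut).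
-/
namespace Pool.Agent.H37T
open Finset Pool.Agent.H44W

/-- The statement of module D. -/
def DOut (et0 : ℝ) (C n0 : ℕ) : Prop :=
  ∀ n : ℕ, n0 ≤ n → ∀ D : ℝ, (1 + Real.log n) ^ 10 ≤ D → (∀ m : ℕ, 1 ≤ m → m ≤ 2 * n → (m.divisors.card : ℝ) ≤ D) → D ^ C ≤ n → ∀ R : ℕ, (R : ℝ) ≤ D → ∀ A1 A2 B1 B2 : ℕ,
    ((2 * n : ℕ) : ℝ) ^ (1 / 2 - 2 * et0) ≤ A1 → ((2 * n : ℕ) : ℝ) ^ (1 / 2 - 2 * et0) ≤ B1 → A2 ≤ 2 * A1 → B2 ≤ 2 * B1 →
    ∀ ga : ℕ → ℂ, (∀ q, ‖ga q‖ ≤ 1) → ∀ W f g : ℤ → ℂ, (∀ x, ‖W x‖ ≤ 1) → (∀ x, ‖f x‖ ≤ 1) → (∀ x, ‖g x‖ ≤ 1) →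
    (n:ℝ) ^ 2 / D ≤ ‖TF n (fun m => ∑ q ∈ Icc 1 R, ga q * pd q (Ico (A1:ℤ) A2) (Ico (B1:ℤ) B2) m) W f g‖ →
    ∃ th : ℝ, (n:ℝ) / D ^ C ≤ ‖∑ z ∈ Icc (1:ℤ) n, g z * ee (th * z)‖

/-- **H1** from module C. -/
theorem h1_of (n : ℕ) (hn : 1 ≤ n) (c : ℝ) (W f g : ℤ → ℂ) (hW : ∀ x, ‖W x‖ ≤ 1) (hf : ∀ x, ‖f x‖ ≤ 1)
    (s : ℝ) (hth : ∀ th : ℝ, ‖∑ z ∈ Icc (1:ℤ) n, g z * ee (th * z)‖ ≤ s) :
      Pool.Agent.Lib.H81A.H1 c (2 * n) (tfS n W f g) (20 * ((2 * n : ℕ) : ℝ) ^ (2 * c) * (1 + Real.log n) * n * s) := by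
  intro B1 B2 hB1 hB2 γ hγ hγs
  set R : ℕ := ⌊((2 * n : ℕ) : ℝ) ^ (2 * c)⌋₊ with hR
  have hR1 : (R : ℝ) ≤ ((2 * n : ℕ) : ℝ) ^ (2 * c) := Nat.floor_le (Real.rpow_nonneg (Nat.cast_nonneg _) _)
  obtain ⟨th, h1⟩ := Pool.Agent.H81E.type_one_real n hn R γ hγ (fun q hq => Nat.le_floor (hγs q hq).2) B1 B2 W f g hW hf
  have hlog : 0 ≤ Real.log n := Real.log_natCast_nonneg n
  have e : tfS n W f g (fun m => ∑ x ∈ m.divisorsAntidiagonal, γ x.1 * (if B1 ≤ x.2 ∧ x.2 < B2 then 1 else 0)) =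
      ‖TF n (fun m => ((∑ x ∈ m.toNat.divisorsAntidiagonal, γ x.1 * (if B1 ≤ x.2 ∧ x.2 < B2 then 1 else 0) : ℝ) : ℂ)) W f g‖ := rfl
  rw [e]
  refine h1.trans ?_
  have h2 : 0 ≤ ‖∑ z ∈ Icc (1:ℤ) n, g z * ee (th * z)‖ := norm_nonneg _
  have h3 : (0:ℝ) ≤ n := Nat.cast_nonneg n
  gcongr
  · norm_num
  · exact hth th

/-- The count of the near-diagonal piece over the natural numbers. -/
theorem pd_nat (m q A1 A2 B1 B2 : ℕ) :
    pd q (Ico (A1:ℤ) A2) (Ico (B1:ℤ) B2) (m:ℤ) =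
      ((∑ a ∈ Ico A1 A2, ∑ b ∈ Ico B1 B2, if q * (a * b) = m then (1:ℝ) else 0 : ℝ) : ℂ) := by
  unfold pd
  rw [Finset.card_filter, Finset.sum_product]
  push_cast
  have h1 : ∀ (u v : ℕ) (F : ℤ → ℂ), ∑ a ∈ Ico (u:ℤ) v, F a = ∑ a ∈ Ico u v, F (a : ℤ) := by
    intro u v F
    refine (Finset.sum_bij (fun (a : ℕ) _ => (a : ℤ)) ?_ ?_ ?_ ?_).symm
    · intro a ha
      rw [Finset.mem_Ico] at ha ⊢
      omega
    · intro a _ b _ hab
      exact_mod_cast hab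
    · intro b hb
      rw [Finset.mem_Ico] at hb
      exact ⟨b.toNat, by rw [Finset.mem_Ico]; omega, by omega⟩
    · intro a _
      rfl
  rw [h1]
  refine Finset.sum_congr rfl fun a _ => ?_
  rw [h1]
  refine Finset.sum_congr rfl fun b _ => ?_
  by_cases h : q * (a * b) = m
  · rw [if_pos h, if_pos (by rw [← h]; push_cast; ring), Complex.ofReal_one]
  · rw [if_neg h, if_neg, Complex.ofReal_zero]
    intro h2
    apply h
    have h3 : ((q * (a * b) : ℕ) : ℤ) = (m : ℤ) := by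
      rw [← h2]
      push_cast
      ring
    exact_mod_cast h3

theorem box_eq (k A1 A2 B1 B2 : ℕ) (hk : k ≠ 0) :
    (∑ y ∈ k.divisorsAntidiagonal, (if A1 ≤ y.1 ∧ y.1 < A2 then (1:ℝ) else 0) * (if B1 ≤ y.2 ∧ y.2 < B2 then (1:ℝ) else 0)) =
      ∑ a ∈ Ico A1 A2, ∑ b ∈ Ico B1 B2, if a * b = k then (1:ℝ) else 0 := by
  rw [conv_eq k hk (Ico A1 A2) (Ico B1 B2) (fun a => if A1 ≤ a ∧ a < A2 then (1:ℝ) else 0) (fun b => if B1 ≤ b ∧ b < B2 then (1:ℝ) else 0)]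
  · refine Finset.sum_congr rfl fun a ha => Finset.sum_congr rfl fun b hb => ?_
    rw [Finset.mem_Ico] at ha hb
    rw [if_pos ha, if_pos hb, mul_one]
  · intro a ha
    rw [Finset.mem_Ico]
    by_contra h
    exact ha (if_neg h)
  · intro b hb
    rw [Finset.mem_Ico]
    by_contra h
    exact hb (if_neg h)

/-- The pieces of H3 in terms of `pd`. -/
theorem conv_pd (m : ℕ) (hm : 1 ≤ m) (R A1 A2 B1 B2 : ℕ) (γ : ℕ → ℝ) (hγ : ∀ q, γ q ≠ 0 → 1 ≤ q ∧ q ≤ R) :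
    ((∑ x ∈ m.divisorsAntidiagonal, γ x.1 * ∑ y ∈ x.2.divisorsAntidiagonal,
        (if A1 ≤ y.1 ∧ y.1 < A2 then (1:ℝ) else 0) * (if B1 ≤ y.2 ∧ y.2 < B2 then (1:ℝ) else 0) : ℝ) : ℂ) =
      ∑ q ∈ Icc 1 R, (γ q : ℂ) * pd q (Ico (A1:ℤ) A2) (Ico (B1:ℤ) B2) (m:ℤ) := by
  have e1 : ∀ q ∈ Icc 1 R, (γ q : ℂ) * pd q (Ico (A1:ℤ) A2) (Ico (B1:ℤ) B2) (m:ℤ) =
      ((γ q * ∑ a ∈ Ico A1 A2, ∑ b ∈ Ico B1 B2, (if q * (a * b) = m then (1:ℝ) else 0) : ℝ) : ℂ) := by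
    intro q _
    rw [pd_nat m q A1 A2 B1 B2, Complex.ofReal_mul]
  rw [Finset.sum_congr rfl e1, ← Complex.ofReal_sum]
  congr 1
  rw [Nat.sum_divisorsAntidiagonal (fun q k => γ q * ∑ y ∈ k.divisorsAntidiagonal,
        (if A1 ≤ y.1 ∧ y.1 < A2 then (1:ℝ) else 0) * (if B1 ≤ y.2 ∧ y.2 < B2 then (1:ℝ) else 0))]
  have e2 : ∀ q ∈ m.divisors, γ q * ∑ y ∈ (m / q).divisorsAntidiagonal,
        (if A1 ≤ y.1 ∧ y.1 < A2 then (1:ℝ) else 0) * (if B1 ≤ y.2 ∧ y.2 < B2 then (1:ℝ) else 0) =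
      γ q * ∑ a ∈ Ico A1 A2, ∑ b ∈ Ico B1 B2, (if q * (a * b) = m then (1:ℝ) else 0) := by
    intro q hq
    obtain ⟨⟨k, hk⟩, hm0⟩ := Nat.mem_divisors.1 hq
    have hq0 : 0 < q := Nat.pos_of_mem_divisors hq
    have hk0 : k ≠ 0 := by
      rintro rfl
      exact hm0 (by rw [hk, mul_zero])
    rw [hk, Nat.mul_div_cancel_left k hq0, box_eq k A1 A2 B1 B2 hk0]
    congr 1
    refine Finset.sum_congr rfl fun a _ => Finset.sum_congr rfl fun b _ => ?_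
    by_cases h : a * b = k
    · rw [if_pos h, if_pos (by rw [h])]
    · rw [if_neg h, if_neg (fun h2 => h (Nat.eq_of_mul_eq_mul_left hq0 h2))]
  rw [Finset.sum_congr rfl e2]
  classical
  have e3 : ∀ q, q ∉ m.divisors ∩ Icc 1 R → γ q * ∑ a ∈ Ico A1 A2, ∑ b ∈ Ico B1 B2, (if q * (a * b) = m then (1:ℝ) else 0) = 0 := by
    intro q hq
    by_cases h : γ q = 0
    · rw [h, zero_mul]
    · have h1 : q ∈ Icc 1 R := Finset.mem_Icc.2 (hγ q h)
      have h2 : q ∉ m.divisors := fun h3 => hq (Finset.mem_inter.2 ⟨h3, h1⟩)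
      have h3 : ¬ q ∣ m := fun h4 => h2 (Nat.mem_divisors.2 ⟨h4, by omega⟩)
      have h4 : ∑ a ∈ Ico A1 A2, ∑ b ∈ Ico B1 B2, (if q * (a * b) = m then (1:ℝ) else 0) = 0 := by
        refine Finset.sum_eq_zero fun a _ => Finset.sum_eq_zero fun b _ => if_neg ?_
        intro h5
        exact h3 ⟨a * b, h5.symm⟩
      rw [h4, mul_zero]
  rw [← Finset.sum_subset (Finset.inter_subset_left : m.divisors ∩ Icc 1 R ⊆ m.divisors) (fun q _ hq => e3 q hq),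
    ← Finset.sum_subset (Finset.inter_subset_right : m.divisors ∩ Icc 1 R ⊆ Icc 1 R) (fun q _ hq => e3 q hq)]

/-- **H3** from module D. -/
theorem h3_of (et0 : ℝ) (C n0 : ℕ) (h : DOut et0 C n0) (η : ℝ) (hη : η ≤ et0) (n : ℕ) (hn : n0 ≤ n) (hn1 : 1 ≤ n) (c D : ℝ)
    (hD : (1 + Real.log n) ^ 10 ≤ D) (hdiv : ∀ m : ℕ, 1 ≤ m → m ≤ 2 * n → (m.divisors.card : ℝ) ≤ D) (hDC : D ^ C ≤ n) (hcD : ((2 * n : ℕ) : ℝ) ^ (2 * c) ≤ D)
    (W f g : ℤ → ℂ) (hW : ∀ x, ‖W x‖ ≤ 1) (hf : ∀ x, ‖f x‖ ≤ 1) (hg : ∀ x, ‖g x‖ ≤ 1)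
    (hth : ∀ th : ℝ, ‖∑ z ∈ Icc (1:ℤ) n, g z * ee (th * z)‖ < (n:ℝ) / D ^ C) :
      Pool.Agent.Lib.H81A.H3 c η (2 * n) (tfS n W f g) ((n:ℝ) ^ 2 / D) := by
  intro A1 A2 B1 B2 hA1 hA2 hB1 hB2 hA hB γ hγ hγs
  set R : ℕ := ⌊((2 * n : ℕ) : ℝ) ^ (2 * c)⌋₊ with hR
  have hR1 : (R : ℝ) ≤ ((2 * n : ℕ) : ℝ) ^ (2 * c) := Nat.floor_le (Real.rpow_nonneg (Nat.cast_nonneg _) _)
  have hmono : ((2 * n : ℕ) : ℝ) ^ (1 / 2 - 2 * et0) ≤ ((2 * n : ℕ) : ℝ) ^ (1 / 2 - 2 * η) := by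
    refine Real.rpow_le_rpow_of_exponent_le ?_ (by linarith)
    have : 1 ≤ 2 * n := by omega
    exact_mod_cast this
  have e : tfS n W f g (fun m => ∑ x ∈ m.divisorsAntidiagonal, γ x.1 *
        ∑ y ∈ x.2.divisorsAntidiagonal, (if A1 ≤ y.1 ∧ y.1 < A2 then 1 else 0) * (if B1 ≤ y.2 ∧ y.2 < B2 then 1 else 0)) =
      ‖TF n (fun m => ∑ q ∈ Icc 1 R, (γ q : ℂ) * pd q (Ico (A1:ℤ) A2) (Ico (B1:ℤ) B2) m) W f g‖ := by
    rw [tfS_apply]
    congr 1
    refine TF_congr n W f g fun m hm1 hm2 => ?_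
    have h0 : ((m.toNat : ℕ) : ℤ) = m := Int.toNat_of_nonneg (by omega)
    have h1 := conv_pd m.toNat (by omega) R A1 A2 B1 B2 γ (fun q hq => ⟨(hγs q hq).1, Nat.le_floor (hγs q hq).2⟩)
    rw [h0] at h1
    exact h1
  rw [e]
  by_contra hcon
  obtain ⟨th, hth'⟩ := h n hn D hD hdiv hDC R (hR1.trans hcD) A1 A2 B1 B2 (hmono.trans hA1) (hmono.trans hB1) hA hB (fun q => (γ q : ℂ))
    (fun q => by rw [Complex.norm_real]; exact hγ q) W f g hW hf hg (le_of_lt (not_le.1 hcon))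
  exact absurd (hth th) (not_lt.2 hth')

end Pool.Agent.H37T
end

-- from Lib.H81W.S4
section

/-!
# H81W, step 4: the sum of the energies over all differences, Parseval
-/

open Finset

namespace Pool.Agent.Lib.H81W

open Pool.Agent.H44W (ee TF cut)
open Pool.Agent.H81E (norm_ee ee_add ee_neg parseval)

/-- The autocorrelation. -/
noncomputable def Au (n : ℕ) (g : ℤ → ℂ) (d : ℤ) : ℂ := ∑ y ∈ Icc (1 : ℤ) n, g y * (starRingEnd ℂ) (g (y + d))

/-- Energy as a sum over pairs. -/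
theorem En_eq (n m : ℕ) (hm : 0 < m) (u : ℤ → ℂ) :
    ((En n m u : ℝ) : ℂ) = ∑ y ∈ Icc (1 : ℤ) n, ∑ z ∈ Icc (1 : ℤ) n, if (m : ℤ) ∣ z - y then u y * (starRingEnd ℂ) (u z) else 0 := by
  have hm0 : (0 : ℤ) < m := by exact_mod_cast hm
  unfold En
  rw [Complex.ofReal_sum]
  have h1 : ∀ r : ℤ, ((‖Sr n m u r‖ ^ 2 : ℝ) : ℂ) = ∑ y ∈ Icc (1 : ℤ) n, ∑ z ∈ Icc (1 : ℤ) n, if y % m = r then (if z % m = r then u y * (starRingEnd ℂ) (u z) else 0) else 0 := by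
    intro r
    rw [Complex.ofReal_pow, ← Complex.mul_conj']
    unfold Sr
    rw [map_sum, sum_mul_sum, sum_filter]
    refine sum_congr rfl fun y _ => ?_
    split_ifs with h
    · rw [sum_filter]
    · rw [sum_const_zero]
  simp_rw [h1]
  rw [sum_comm]
  refine sum_congr rfl fun y _ => ?_
  rw [sum_comm]
  refine sum_congr rfl fun z _ => ?_
  rw [Finset.sum_ite_eq]
  rw [if_pos (mem_Ico.2 ⟨Int.emod_nonneg _ hm0.ne', Int.emod_lt_of_pos _ hm0⟩)]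
  by_cases h : (m : ℤ) ∣ z - y
  · rw [if_pos h, if_pos (Int.emod_eq_emod_iff_emod_sub_eq_zero.2 (Int.emod_eq_zero_of_dvd h))]
  · rw [if_neg h, if_neg]
    intro h2
    exact h (Int.dvd_of_emod_eq_zero (Int.emod_eq_emod_iff_emod_sub_eq_zero.1 h2))

/-- Change of variable in a sum over `Icc 1 n`. -/
theorem shiftsum (n : ℕ) (y : ℤ) (hy : y ∈ Icc (1 : ℤ) n) (F : ℤ → ℂ) (hF : ∀ z, z ∉ Icc (1 : ℤ) n → F z = 0) :
    ∑ z ∈ Icc (1 : ℤ) n, F z = ∑ d ∈ Ioo (-(n : ℤ)) n, F (y + d) := by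
  rw [mem_Icc] at hy
  have h1 : ∑ d ∈ Ioo (-(n : ℤ)) n, F (y + d) = ∑ z ∈ Ioo (y - n) (y + n), F z := by
    refine sum_bij' (fun d _ => y + d) (fun z _ => z - y) ?_ ?_ ?_ ?_ ?_
    · intro d hd
      rw [mem_Ioo] at hd ⊢
      omega
    · intro d hd
      rw [mem_Ioo] at hd ⊢
      omega
    · intro d _
      ring
    · intro d _
      ring
    · intro d _
      rfl
  rw [h1]
  refine sum_subset ?_ fun z _ hz => hF z hz
  intro z hz
  rw [mem_Icc] at hz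
  rw [mem_Ioo]
  omega

/-- The sum of all energies. -/
theorem sum_En (n m : ℕ) (hm : 0 < m) (g : ℤ → ℂ) (hs : ∀ y, y ∉ Icc (1 : ℤ) n → g y = 0) :
    ∑ e ∈ Ioo (-(n : ℤ)) n, En n m (Gd g e) = ∑ d ∈ (Ioo (-(n : ℤ)) n).filter (fun d => (m : ℤ) ∣ d), ‖Au n g d‖ ^ 2 := by
  have key : ((∑ e ∈ Ioo (-(n : ℤ)) n, En n m (Gd g e) : ℝ) : ℂ) = ((∑ d ∈ (Ioo (-(n : ℤ)) n).filter (fun d => (m : ℤ) ∣ d), ‖Au n g d‖ ^ 2 : ℝ) : ℂ) := by
    rw [Complex.ofReal_sum]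
    simp_rw [En_eq n m hm]
    rw [sum_comm]
    have h1 : ∀ y ∈ Icc (1 : ℤ) n, ∑ e ∈ Ioo (-(n : ℤ)) n, ∑ z ∈ Icc (1 : ℤ) n, (if (m : ℤ) ∣ z - y then Gd g e y * (starRingEnd ℂ) (Gd g e z) else 0) =
        ∑ d ∈ Ioo (-(n : ℤ)) n, (if (m : ℤ) ∣ d then g y * (starRingEnd ℂ) (g (y + d)) * (starRingEnd ℂ) (Au n g d) else 0) := by
      intro y hy
      rw [sum_comm]
      have h2 : ∀ z ∈ Icc (1 : ℤ) n, ∑ e ∈ Ioo (-(n : ℤ)) n, (if (m : ℤ) ∣ z - y then Gd g e y * (starRingEnd ℂ) (Gd g e z) else 0) =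
          if (m : ℤ) ∣ z - y then g y * (starRingEnd ℂ) (g z) * (starRingEnd ℂ) (Au n g (z - y)) else 0 := by
        intro z _
        split_ifs with h
        · have h3 : (starRingEnd ℂ) (Au n g (z - y)) = ∑ e ∈ Ioo (-(n : ℤ)) n, (starRingEnd ℂ) (g (y + e)) * g (z + e) := by
            unfold Au
            rw [map_sum, shiftsum n y hy (fun w => (starRingEnd ℂ) (g w * (starRingEnd ℂ) (g (w + (z - y)))))]
            · refine sum_congr rfl fun e _ => ?_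
              rw [map_mul, Complex.conj_conj, show y + e + (z - y) = z + e by ring]
            · intro w hw
              rw [hs w hw, zero_mul, map_zero]
          rw [h3, mul_sum]
          refine sum_congr rfl fun e _ => ?_
          unfold Gd
          rw [map_mul, Complex.conj_conj]
          ring
        · rw [sum_const_zero]
      rw [sum_congr rfl h2, shiftsum n y hy]
      · refine sum_congr rfl fun d _ => ?_
        rw [add_sub_cancel_left]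
      · intro z hz
        split_ifs
        · rw [hs z hz, map_zero, mul_zero, zero_mul]
        · rfl
    rw [sum_congr rfl h1, sum_comm, Complex.ofReal_sum, sum_filter]
    refine sum_congr rfl fun d _ => ?_
    split_ifs
    · rw [← sum_mul, Complex.ofReal_pow, ← Complex.mul_conj']
      rfl
    · rw [sum_const_zero]
  exact_mod_cast key

/-- The fourth moment of the exponential sum. -/
theorem sum_Au (n : ℕ) (hn : 1 ≤ n) (g : ℤ → ℂ) (hg : ∀ x, ‖g x‖ ≤ 1) (hs : ∀ y, y ∉ Icc (1 : ℤ) n → g y = 0) :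
    ∃ th : ℝ, ∑ d ∈ Ioo (-(n : ℤ)) n, ‖Au n g d‖ ^ 2 ≤ n * ‖∑ y ∈ Icc (1 : ℤ) n, g y * ee (th * y)‖ ^ 2 := by
  set M : ℕ := 2 * n with hM
  have hM0 : 0 < M := by omega
  have hMr : (0 : ℝ) < M := by exact_mod_cast hM0
  have h1 := parseval M hM0 (Ioo (-(n : ℤ)) n) (by
    intro s hs' t ht h
    rw [mem_Ioo] at hs' ht
    have h4 : s - t = 0 := Int.eq_zero_of_abs_lt_dvd h (by rw [abs_lt]; constructor <;> omega)
    omega) (Au n g)
  have h2 := parseval M hM0 (Icc (1 : ℤ) n) (by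
    intro s hs' t ht h
    rw [mem_Icc] at hs' ht
    have h4 : s - t = 0 := Int.eq_zero_of_abs_lt_dvd h (by rw [abs_lt]; constructor <;> omega)
    omega) (fun y => (starRingEnd ℂ) (g y))
  set G : ℕ → ℂ := fun k => ∑ z ∈ Icc (1 : ℤ) n, (starRingEnd ℂ) (g z) * ee ((k : ℝ) * z / M) with hG
  have h3 : ∀ k : ℕ, ∑ d ∈ Ioo (-(n : ℤ)) n, Au n g d * ee ((k : ℝ) * d / M) = (starRingEnd ℂ) (G k) * G k := by
    intro k
    rw [hG]
    dsimp only
    rw [map_sum, sum_mul]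
    have h4 : ∀ d ∈ Ioo (-(n : ℤ)) n, Au n g d * ee ((k : ℝ) * d / M) = ∑ y ∈ Icc (1 : ℤ) n, g y * (starRingEnd ℂ) (g (y + d)) * ee ((k : ℝ) * d / M) := by
      intro d _
      unfold Au
      rw [sum_mul]
    rw [sum_congr rfl h4, sum_comm]
    refine sum_congr rfl fun y hy => ?_
    rw [shiftsum n y hy (fun z => (starRingEnd ℂ) (g z) * ee ((k : ℝ) * z / M))]
    · rw [mul_sum]
      refine sum_congr rfl fun d _ => ?_
      rw [map_mul, Complex.conj_conj, ← ee_neg, show (k : ℝ) * ((y + d : ℤ) : ℝ) / M = (k : ℝ) * y / M + (k : ℝ) * d / M by push_cast; ring, ee_add]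
      have h5 : ee (-((k : ℝ) * y / M)) * ee ((k : ℝ) * y / M) = 1 := by
        rw [← ee_add, neg_add_cancel, Pool.Agent.H81E.ee_zero]
      calc g y * (starRingEnd ℂ) (g (y + d)) * ee ((k : ℝ) * d / M) = g y * (starRingEnd ℂ) (g (y + d)) * ee ((k : ℝ) * d / M) * 1 := by rw [mul_one]
        _ = g y * (starRingEnd ℂ) (g (y + d)) * ee ((k : ℝ) * d / M) * (ee (-((k : ℝ) * y / M)) * ee ((k : ℝ) * y / M)) := by rw [h5]
        _ = _ := by ring
    · intro z hz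
      rw [hs z hz, map_zero, zero_mul]
  obtain ⟨k0, _, hk0⟩ := exists_max_image (range M) (fun k => ‖G k‖) ⟨0, mem_range.2 hM0⟩
  refine ⟨-((k0 : ℝ) / M), ?_⟩
  have h4 : ∑ y ∈ Icc (1 : ℤ) n, g y * ee (-((k0 : ℝ) / M) * y) = (starRingEnd ℂ) (G k0) := by
    rw [hG]
    dsimp only
    rw [map_sum]
    refine sum_congr rfl fun y _ => ?_
    rw [map_mul, Complex.conj_conj, ← ee_neg]
    congr 2
    ring
  rw [h4, RCLike.norm_conj]
  have h5 : ∑ k ∈ range M, ‖∑ d ∈ Ioo (-(n : ℤ)) n, Au n g d * ee ((k : ℝ) * d / M)‖ ^ 2 ≤ ‖G k0‖ ^ 2 * ∑ k ∈ range M, ‖G k‖ ^ 2 := by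
    rw [mul_sum]
    refine sum_le_sum fun k hk => ?_
    rw [h3, norm_mul, RCLike.norm_conj, mul_pow]
    exact mul_le_mul_of_nonneg_right (pow_le_pow_left₀ (norm_nonneg _) (hk0 k hk) 2) (by positivity)
  rw [h1, h2] at h5
  have h6 : ∑ s ∈ Icc (1 : ℤ) n, ‖(starRingEnd ℂ) (g s)‖ ^ 2 ≤ n := by
    refine (sum_le_card_nsmul _ _ 1 fun y _ => ?_).trans ?_
    · rw [RCLike.norm_conj]
      exact pow_le_one₀ (norm_nonneg _) (hg y)
    · simp
  have h7 : (M : ℝ) * ∑ d ∈ Ioo (-(n : ℤ)) n, ‖Au n g d‖ ^ 2 ≤ M * (n * ‖G k0‖ ^ 2) := by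
    calc (M : ℝ) * ∑ d ∈ Ioo (-(n : ℤ)) n, ‖Au n g d‖ ^ 2 ≤ ‖G k0‖ ^ 2 * (M * ∑ s ∈ Icc (1 : ℤ) n, ‖(starRingEnd ℂ) (g s)‖ ^ 2) := h5
      _ ≤ ‖G k0‖ ^ 2 * (M * n) := by gcongr
      _ = _ := by ring
  exact le_of_mul_le_mul_left h7 hMr

theorem norm_Au_le (n : ℕ) (g : ℤ → ℂ) (hg : ∀ x, ‖g x‖ ≤ 1) (d : ℤ) : ‖Au n g d‖ ≤ n := by
  unfold Au
  refine (norm_sum_le _ _).trans ((sum_le_card_nsmul _ _ 1 fun y _ => norm_Gd_le hg d y).trans ?_)
  simp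

/-- Summation over the moduli `m < K`: every `d ≠ 0` is counted at most `d(|d|)` times. -/
theorem sum_sum_Au (n K : ℕ) (D : ℝ) (hD : ∀ m : ℕ, 1 ≤ m → m ≤ 2 * n → (m.divisors.card : ℝ) ≤ D) (g : ℤ → ℂ) (hg : ∀ x, ‖g x‖ ≤ 1) :
    ∑ m ∈ Ico 1 K, ∑ d ∈ (Ioo (-(n : ℤ)) n).filter (fun d => (m : ℤ) ∣ d), ‖Au n g d‖ ^ 2 ≤ K * n ^ 2 + D * ∑ d ∈ Ioo (-(n : ℤ)) n, ‖Au n g d‖ ^ 2 := by
  simp_rw [sum_filter]
  rw [sum_comm]
  have h1 : ∀ d ∈ Ioo (-(n : ℤ)) n, ∑ m ∈ Ico 1 K, (if (m : ℤ) ∣ d then ‖Au n g d‖ ^ 2 else 0) ≤ (if d = 0 then (K : ℝ) * n ^ 2 else 0) + D * ‖Au n g d‖ ^ 2 := by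
    intro d hd
    rw [mem_Ioo] at hd
    have hD0 : 0 ≤ D := (Nat.cast_nonneg _).trans (hD 1 le_rfl (by omega))
    rw [← sum_filter, sum_const, nsmul_eq_mul]
    split_ifs with h0
    · have h2 : (((Ico 1 K).filter (fun m : ℕ => (m : ℤ) ∣ d)).card : ℝ) ≤ K := by
        have := card_filter_le (Ico 1 K) (fun m : ℕ => (m : ℤ) ∣ d)
        rw [Nat.card_Ico] at this
        exact_mod_cast this.trans (Nat.sub_le _ _)
      have h3 : ‖Au n g d‖ ^ 2 ≤ (n : ℝ) ^ 2 := pow_le_pow_left₀ (norm_nonneg _) (norm_Au_le n g hg d) 2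
      have h4 := mul_le_mul h2 h3 (by positivity) (Nat.cast_nonneg K)
      have h5 : 0 ≤ D * ‖Au n g d‖ ^ 2 := by positivity
      linarith
    · rw [zero_add]
      refine mul_le_mul_of_nonneg_right ?_ (by positivity)
      refine le_trans ?_ (hD d.natAbs (by omega) (by omega))
      have h2 : (Ico 1 K).filter (fun m : ℕ => (m : ℤ) ∣ d) ⊆ d.natAbs.divisors := by
        intro m hm
        rw [mem_filter] at hm
        rw [Nat.mem_divisors]
        exact ⟨Int.natCast_dvd.1 hm.2, by omega⟩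
      exact_mod_cast card_le_card h2
  refine (sum_le_sum h1).trans ?_
  rw [sum_add_distrib, ← mul_sum]
  refine add_le_add ?_ le_rfl
  rw [Finset.sum_ite_eq']
  split_ifs
  · exact le_rfl
  · positivity

end Pool.Agent.Lib.H81W
end

-- from Lib.H81W.S3
section

/-!
# H81W, step 3 for one pair `(j, k)`
-/

open Finset

namespace Pool.Agent.Lib.H81W

open Pool.Agent.H44W (ee TF cut)
open Pool.Agent.H81E (norm_ee ee_add ee_neg)

theorem Per.mul {m : ℕ} {p q : ℤ → ℂ} (hp : Per m p) (hq : Per m q) : Per m (fun y => p y * q y) := fun y z h => by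
  dsimp only
  rw [hp y z h, hq y z h]

theorem Per.conj {m : ℕ} {p : ℤ → ℂ} (hp : Per m p) : Per m (fun y => (starRingEnd ℂ) (p y)) := fun y z h => by
  dsimp only
  rw [hp y z h]

theorem Per.shift {m : ℕ} {p : ℤ → ℂ} (hp : Per m p) (t : ℤ) : Per m (fun y => p (y - t)) := fun y z h =>
  hp _ _ (by rw [show y - t - (z - t) = y - z by ring]; exact h)

/-- A sum over a big interval of a function vanishing outside a shifted interval. -/
theorem sum_shift (n : ℕ) (Q q : ℤ) (hq : |q| + n ≤ Q) (F : ℤ → ℂ) (hF : ∀ y, y + q ∉ Icc (1 : ℤ) n → F y = 0) :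
    ∑ y ∈ Icc (-Q) Q, F y = ∑ z ∈ Icc (1 : ℤ) n, F (z - q) := by
  have hq1 := abs_le.1 (show |q| ≤ |q| from le_rfl)
  rw [← sum_subset (s₁ := Icc (1 - q) (n - q))]
  · refine sum_bij' (fun y _ => y + q) (fun z _ => z - q) ?_ ?_ ?_ ?_ ?_
    · intro y hy
      rw [mem_Icc] at hy ⊢
      omega
    · intro y hy
      rw [mem_Icc] at hy ⊢
      omega
    · intro y _
      ring
    · intro y _
      ring
    · intro y _
      rw [add_sub_cancel_right]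
  · intro y hy
    rw [mem_Icc] at hy ⊢
    omega
  · intro y _ hy
    apply hF
    rw [mem_Icc] at hy ⊢
    omega

/-- Step 3 for one pair. -/
theorem step3 (n m : ℕ) (hm : 0 < m) (hmn : m ≤ n) (g : ℤ → ℂ) (hg : ∀ x, ‖g x‖ ≤ 1) (hs : ∀ y, y ∉ Icc (1 : ℤ) n → g y = 0) {ι : Type*} (A : Finset ι) (q : ι → ℤ)
    (th : ℝ) (X : ℝ) (hX0 : 0 ≤ X) (hX : X ≤ ∑ a ∈ A, En n m (fun y => Gd g (q a) y * ee (th * y))) :
    X ^ 4 * m ^ 3 ≤ 16 * n ^ 6 * (A.card : ℝ) ^ 2 * ∑ a ∈ A, ∑ b ∈ A, En n m (Gd g (q b - q a)) := by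
  classical
  have hmr : (0 : ℝ) < m := by exact_mod_cast hm
  have hnr : (0 : ℝ) < n := by exact_mod_cast (by omega : 0 < n)
  have h1 : ∀ a : ι, ∃ p : ℤ → ℂ, Per m p ∧ (∀ y, ‖p y‖ ≤ 1) ∧
      ∑ y ∈ Icc (1 : ℤ) n, (Gd g (q a) y * ee (th * y)) * p y = ((m / (2 * n) * En n m (fun y => Gd g (q a) y * ee (th * y)) : ℝ) : ℂ) :=
    fun a => PX n m hm hmn _ fun y => by
      rw [norm_mul, norm_ee, mul_one]
      exact norm_Gd_le hg _ _
  choose p hp1 hp2 hp3 using h1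
  set T : ℤ → ℂ := fun y => ∑ a ∈ A, (starRingEnd ℂ) (g (y + q a)) * p a y with hT
  set Q : ℤ := n + ∑ a ∈ A, |q a| with hQ
  have hQa : ∀ a ∈ A, |q a| + n ≤ Q := by
    intro a ha
    have := single_le_sum (f := fun a => |q a|) (fun i _ => abs_nonneg (q i)) ha
    rw [hQ]
    linarith
  have hQn : (n : ℤ) ≤ Q := by
    rw [hQ]
    have : 0 ≤ ∑ a ∈ A, |q a| := sum_nonneg fun i _ => abs_nonneg _
    linarith
  -- first Cauchy-Schwarz
  have h2 : (m / (2 * n) * X) ^ 2 ≤ n * ∑ y ∈ Icc (-Q) Q, ‖T y‖ ^ 2 := by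
    have h3 : m / (2 * n) * X ≤ ∑ y ∈ Icc (1 : ℤ) n, 1 * ‖T y‖ := by
      have h4 : ((m / (2 * n) * ∑ a ∈ A, En n m (fun y => Gd g (q a) y * ee (th * y)) : ℝ) : ℂ) = ∑ y ∈ Icc (1 : ℤ) n, g y * ee (th * y) * T y := by
        rw [mul_sum, Complex.ofReal_sum]
        simp_rw [← hp3]
        rw [sum_comm]
        refine sum_congr rfl fun y _ => ?_
        rw [hT]
        dsimp only
        rw [mul_sum]
        refine sum_congr rfl fun a _ => ?_
        unfold Gd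
        ring
      have h5 : ‖((m / (2 * n) * ∑ a ∈ A, En n m (fun y => Gd g (q a) y * ee (th * y)) : ℝ) : ℂ)‖ ≤ ∑ y ∈ Icc (1 : ℤ) n, 1 * ‖T y‖ := by
        rw [h4]
        refine (norm_sum_le _ _).trans (sum_le_sum fun y _ => ?_)
        rw [norm_mul, norm_mul, norm_ee, mul_one]
        exact mul_le_mul_of_nonneg_right (hg y) (norm_nonneg _)
      rw [Complex.norm_real, Real.norm_eq_abs] at h5
      calc m / (2 * n) * X ≤ m / (2 * n) * ∑ a ∈ A, En n m (fun y => Gd g (q a) y * ee (th * y)) := mul_le_mul_of_nonneg_left hX (by positivity)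
        _ ≤ _ := (le_abs_self _).trans h5
    have h4 := sum_mul_sq_le_sq_mul_sq (Icc (1 : ℤ) n) (fun _ => (1 : ℝ)) (fun y => ‖T y‖)
    calc (m / (2 * n) * X) ^ 2 ≤ (∑ y ∈ Icc (1 : ℤ) n, 1 * ‖T y‖) ^ 2 := pow_le_pow_left₀ (by positivity) h3 2
      _ ≤ _ := h4
      _ = n * ∑ y ∈ Icc (1 : ℤ) n, ‖T y‖ ^ 2 := by simp
      _ ≤ n * ∑ y ∈ Icc (-Q) Q, ‖T y‖ ^ 2 := by
          refine mul_le_mul_of_nonneg_left (sum_le_sum_of_subset_of_nonneg ?_ fun _ _ _ => by positivity) hnr.le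
          intro y hy
          rw [mem_Icc] at hy ⊢
          omega
  -- expansion
  have h3 : ∑ y ∈ Icc (-Q) Q, ‖T y‖ ^ 2 ≤ ∑ a ∈ A, ∑ b ∈ A, Real.sqrt (m * En n m (Gd g (q b - q a))) := by
    have h4 : ((∑ y ∈ Icc (-Q) Q, ‖T y‖ ^ 2 : ℝ) : ℂ) =
        ∑ a ∈ A, ∑ b ∈ A, ∑ y ∈ Icc (-Q) Q, (starRingEnd ℂ) (g (y + q a)) * g (y + q b) * (p a y * (starRingEnd ℂ) (p b y)) := by
      rw [Complex.ofReal_sum]
      have h5 : ∀ y, ((‖T y‖ ^ 2 : ℝ) : ℂ) = ∑ a ∈ A, ∑ b ∈ A, (starRingEnd ℂ) (g (y + q a)) * g (y + q b) * (p a y * (starRingEnd ℂ) (p b y)) := by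
        intro y
        rw [Complex.ofReal_pow, ← Complex.mul_conj', hT]
        dsimp only
        rw [map_sum, sum_mul_sum]
        refine sum_congr rfl fun a _ => sum_congr rfl fun b _ => ?_
        rw [map_mul, Complex.conj_conj]
        ring
      simp_rw [h5]
      rw [sum_comm]
      refine sum_congr rfl fun a _ => ?_
      rw [sum_comm]
    have h5 : ∀ a ∈ A, ∀ b ∈ A, ‖∑ y ∈ Icc (-Q) Q, (starRingEnd ℂ) (g (y + q a)) * g (y + q b) * (p a y * (starRingEnd ℂ) (p b y))‖ ≤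
        Real.sqrt (m * En n m (Gd g (q b - q a))) := by
      intro a ha b hb
      rw [sum_shift n Q (q a) (hQa a ha)]
      · have h6 : ∑ z ∈ Icc (1 : ℤ) n, (starRingEnd ℂ) (g (z - q a + q a)) * g (z - q a + q b) * (p a (z - q a) * (starRingEnd ℂ) (p b (z - q a))) =
            (starRingEnd ℂ) (∑ z ∈ Icc (1 : ℤ) n, Gd g (q b - q a) z * ((starRingEnd ℂ) (p a (z - q a)) * p b (z - q a))) := by
          rw [map_sum]
          refine sum_congr rfl fun z _ => ?_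
          unfold Gd
          rw [map_mul, map_mul, map_mul, Complex.conj_conj, Complex.conj_conj, sub_add_cancel, show z - q a + q b = z + (q b - q a) by ring]
        rw [h6, RCLike.norm_conj]
        apply Real.le_sqrt_of_sq_le
        refine PC n m hm _ _ (((hp1 a).shift (q a)).conj.mul ((hp1 b).shift (q a))) ?_
        intro y
        rw [norm_mul, RCLike.norm_conj]
        exact mul_le_one₀ (hp2 a _) (norm_nonneg _) (hp2 b _)
      · intro y hy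
        rw [hs _ hy, map_zero, zero_mul, zero_mul]
    have h6 : ∑ y ∈ Icc (-Q) Q, ‖T y‖ ^ 2 = ‖((∑ y ∈ Icc (-Q) Q, ‖T y‖ ^ 2 : ℝ) : ℂ)‖ := by
      rw [Complex.norm_real, Real.norm_eq_abs, abs_of_nonneg (sum_nonneg fun _ _ => by positivity)]
    rw [h6, h4]
    refine (norm_sum_le _ _).trans (sum_le_sum fun a ha => ?_)
    exact (norm_sum_le _ _).trans (sum_le_sum fun b hb => h5 a ha b hb)
  -- second Cauchy-Schwarz
  have h4 : (∑ a ∈ A, ∑ b ∈ A, Real.sqrt (m * En n m (Gd g (q b - q a)))) ^ 2 ≤ (A.card : ℝ) ^ 2 * (m * ∑ a ∈ A, ∑ b ∈ A, En n m (Gd g (q b - q a))) := by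
    have h5 := sum_mul_sq_le_sq_mul_sq (A ×ˢ A) (fun _ => (1 : ℝ)) (fun x => Real.sqrt (m * En n m (Gd g (q x.2 - q x.1))))
    have h6 : ∑ x ∈ A ×ˢ A, 1 * Real.sqrt (m * En n m (Gd g (q x.2 - q x.1))) = ∑ a ∈ A, ∑ b ∈ A, Real.sqrt (m * En n m (Gd g (q b - q a))) := by
      rw [sum_product]
      simp
    have h7 : ∑ x ∈ A ×ˢ A, Real.sqrt (m * En n m (Gd g (q x.2 - q x.1))) ^ 2 = m * ∑ a ∈ A, ∑ b ∈ A, En n m (Gd g (q b - q a)) := by
      rw [sum_product, mul_sum]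
      refine sum_congr rfl fun a _ => ?_
      rw [mul_sum]
      refine sum_congr rfl fun b _ => ?_
      rw [Real.sq_sqrt (mul_nonneg hmr.le (En_nonneg _ _ _))]
    have h8 : ∑ i ∈ A ×ˢ A, (1 : ℝ) ^ 2 = (A.card : ℝ) ^ 2 := by
      rw [one_pow, sum_const, card_product, nsmul_eq_mul, mul_one, Nat.cast_mul, sq]
    rw [h6, h7, h8] at h5
    exact h5
  set SS := ∑ a ∈ A, ∑ b ∈ A, En n m (Gd g (q b - q a)) with hSig
  have h5 : (m / (2 * n) * X) ^ 4 ≤ n ^ 2 * ((A.card : ℝ) ^ 2 * (m * SS)) := by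
    calc (m / (2 * n) * X) ^ 4 = ((m / (2 * n) * X) ^ 2) ^ 2 := by ring
      _ ≤ (n * ∑ a ∈ A, ∑ b ∈ A, Real.sqrt (m * En n m (Gd g (q b - q a)))) ^ 2 :=
          pow_le_pow_left₀ (by positivity) (h2.trans (mul_le_mul_of_nonneg_left h3 hnr.le)) 2
      _ = n ^ 2 * (∑ a ∈ A, ∑ b ∈ A, Real.sqrt (m * En n m (Gd g (q b - q a)))) ^ 2 := by ring
      _ ≤ _ := mul_le_mul_of_nonneg_left h4 (by positivity)
  have h6 : (m / (2 * n) * X) ^ 4 = m * (X ^ 4 * m ^ 3) / (16 * n ^ 4) := by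
    field_simp
    ring
  rw [h6, div_le_iff₀ (by positivity)] at h5
  have h7 : m * (X ^ 4 * m ^ 3) ≤ m * (16 * n ^ 6 * (A.card : ℝ) ^ 2 * SS) := by
    refine h5.trans (le_of_eq ?_)
    ring
  exact le_of_mul_le_mul_left h7 hmr

end Pool.Agent.Lib.H81W
end

-- from Lib.H81W.S5
section

/-!
# H81W, steps 3 and 4 together
-/

open Finset

namespace Pool.Agent.Lib.H81W

open Pool.Agent.H44W (ee TF cut)
open Pool.Agent.H81E (norm_ee ee_add ee_neg parseval)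

/-- The `a` with `a` and `a + j` in `[K, 2K)`. -/
noncomputable def Aj (K : ℕ) (j : ℤ) : Finset ℤ := (Ico (K : ℤ) (2 * K)).filter (fun a => a + j ∈ Ico (K : ℤ) (2 * K))

theorem mem_Aj {K : ℕ} {j a : ℤ} : a ∈ Aj K j ↔ (K : ℤ) ≤ a ∧ a < 2 * K ∧ (K : ℤ) ≤ a + j ∧ a + j < 2 * K := by
  unfold Aj
  rw [mem_filter, mem_Ico, mem_Ico]
  tauto

theorem card_Aj (K : ℕ) (j : ℤ) : (Aj K j).card ≤ K := by
  refine (card_filter_le _ _).trans ?_
  rw [Int.card_Ico]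
  omega

theorem En_zero (n m : ℕ) (g : ℤ → ℂ) (hs : ∀ y, y ∉ Icc (1 : ℤ) n → g y = 0) (e : ℤ) (he : e ∉ Ioo (-(n : ℤ)) n) : En n m (Gd g e) = 0 := by
  unfold En Sr
  refine sum_eq_zero fun r _ => ?_
  rw [sum_eq_zero, norm_zero, sq, mul_zero]
  intro y hy
  rw [mem_filter, mem_Icc] at hy
  rw [mem_Ioo] at he
  unfold Gd
  rw [hs (y + e) (by rw [mem_Icc]; omega), map_zero, mul_zero]

/-- The fibre bound: for fixed `j` and `e ≠ 0` there are at most `2 D ^ 2` triples `(k, a, b)` with `k (b - a) (b + a + j) = e`. -/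
theorem fibre (K : ℕ) (j e : ℤ) (he : e ≠ 0) (D : ℝ) (hD : (e.natAbs.divisors.card : ℝ) ≤ D) (S : Finset (ℤ × ℤ × ℤ))
    (hS : ∀ t ∈ S, t.2.1 ∈ Aj K j ∧ t.2.2 ∈ Aj K j ∧ t.1 * (t.2.2 - t.2.1) * (t.2.2 + t.2.1 + j) = e) : (S.card : ℝ) ≤ 2 * D ^ 2 := by
  have h1 : S.card ≤ ((e.natAbs.divisors ×ˢ e.natAbs.divisors) ×ˢ (univ : Finset Bool)).card := by
    refine card_le_card_of_injOn (fun t => (((t.2.2 - t.2.1).natAbs, (t.2.2 + t.2.1 + j).natAbs), decide (t.2.1 < t.2.2))) ?_ ?_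
    · intro t ht
      rw [mem_coe] at ht
      obtain ⟨h1, h2, h3⟩ := hS t ht
      rw [mem_coe, mem_product, mem_product, Nat.mem_divisors, Nat.mem_divisors]
      refine ⟨⟨⟨?_, by omega⟩, ⟨?_, by omega⟩⟩, mem_univ _⟩
      · exact Int.natAbs_dvd_natAbs.2 ⟨t.1 * (t.2.2 + t.2.1 + j), by rw [← h3]; ring⟩
      · exact Int.natAbs_dvd_natAbs.2 ⟨t.1 * (t.2.2 - t.2.1), by rw [← h3]; ring⟩
    · intro t ht t' ht' h
      rw [mem_coe] at ht ht'
      obtain ⟨h1, h2, h3⟩ := hS t ht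
      obtain ⟨h1', h2', h3'⟩ := hS t' ht'
      rw [mem_Aj] at h1 h2 h1' h2'
      simp only [Prod.mk.injEq, decide_eq_decide] at h
      obtain ⟨⟨h4, h5⟩, h6⟩ := h
      have h7 : t.2.2 + t.2.1 + j = t'.2.2 + t'.2.1 + j := by omega
      have h8 : t.2.2 - t.2.1 = t'.2.2 - t'.2.1 := by
        by_cases h9 : t.2.1 < t.2.2
        · have h10 := h6.1 h9
          omega
        · have h10 : ¬ t'.2.1 < t'.2.2 := fun h => h9 (h6.2 h)
          omega
      have h9 : t.1 = t'.1 := by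
        have h10 : (t.2.2 - t.2.1) * (t.2.2 + t.2.1 + j) ≠ 0 := by
          intro h0
          apply he
          rw [← h3, mul_assoc, h0, mul_zero]
        apply mul_right_cancel₀ h10
        rw [← mul_assoc, h3, h7, h8, ← mul_assoc, h3']
      refine Prod.ext h9 (Prod.ext ?_ ?_)
      · omega
      · omega
  have h2 : ((((e.natAbs.divisors ×ˢ e.natAbs.divisors) ×ˢ (univ : Finset Bool)).card : ℕ) : ℝ) = (e.natAbs.divisors.card : ℝ) ^ 2 * 2 := by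
    rw [card_product, card_product]
    simp [sq]
  calc (S.card : ℝ) ≤ ((((e.natAbs.divisors ×ˢ e.natAbs.divisors) ×ˢ (univ : Finset Bool)).card : ℕ) : ℝ) := by exact_mod_cast h1
    _ = (e.natAbs.divisors.card : ℝ) ^ 2 * 2 := h2
    _ ≤ D ^ 2 * 2 := by gcongr
    _ = 2 * D ^ 2 := by ring

/-- The off-diagonal sum over `P`. -/
theorem offdiag (n K : ℕ) (D : ℝ) (hD : ∀ m : ℕ, 1 ≤ m → m ≤ 2 * n → (m.divisors.card : ℝ) ≤ D) (g : ℤ → ℂ)
    (hs : ∀ y, y ∉ Icc (1 : ℤ) n → g y = 0) (P : Finset (ℤ × ℤ)) (hP : ∀ p ∈ P, 0 < |p.1| ∧ |p.1| < K ∧ p.2 ≠ 0) :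
    ∑ p ∈ P, ∑ x ∈ (Aj K p.1 ×ˢ Aj K p.1).filter (fun x => x.1 ≠ x.2), En n p.1.natAbs (Gd g (p.2 * (x.2 - x.1) * (x.2 + x.1 + p.1))) ≤
      4 * D ^ 2 * ∑ m ∈ Ico 1 K, ∑ e ∈ Ioo (-(n : ℤ)) n, En n m (Gd g e) := by
  classical
  rcases Nat.eq_zero_or_pos n with rfl | hn
  · have h0 : ∀ (m : ℕ) (u : ℤ → ℂ), En 0 m u = 0 := by
      intro m u
      unfold En Sr
      simp
    simp [h0]
  have hD0 : 0 ≤ D := (Nat.cast_nonneg _).trans (hD 1 le_rfl (by omega))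
  -- all tuples
  set T : Finset ((ℤ × ℤ) × (ℤ × ℤ)) := (P ×ˢ ((Ico (K : ℤ) (2 * K)) ×ˢ (Ico (K : ℤ) (2 * K)))).filter
    (fun t => t.2.1 ∈ Aj K t.1.1 ∧ t.2.2 ∈ Aj K t.1.1 ∧ t.2.1 ≠ t.2.2) with hT
  have h1 : ∑ p ∈ P, ∑ x ∈ (Aj K p.1 ×ˢ Aj K p.1).filter (fun x => x.1 ≠ x.2), En n p.1.natAbs (Gd g (p.2 * (x.2 - x.1) * (x.2 + x.1 + p.1))) =
      ∑ t ∈ T, En n t.1.1.natAbs (Gd g (t.1.2 * (t.2.2 - t.2.1) * (t.2.2 + t.2.1 + t.1.1))) := by
    rw [hT, sum_filter, sum_product]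
    refine sum_congr rfl fun p _ => ?_
    rw [← sum_filter]
    refine sum_congr ?_ fun x _ => rfl
    ext x
    simp only [mem_filter, mem_product]
    constructor
    · rintro ⟨⟨h2, h3⟩, h4⟩
      refine ⟨⟨?_, ?_⟩, h2, h3, h4⟩
      · rw [mem_Aj] at h2
        rw [mem_Ico]
        omega
      · rw [mem_Aj] at h3
        rw [mem_Ico]
        omega
    · rintro ⟨_, h2, h3, h4⟩
      exact ⟨⟨h2, h3⟩, h4⟩
  rw [h1]
  -- restrict to `|e| < n`
  set T' : Finset ((ℤ × ℤ) × (ℤ × ℤ)) := T.filter (fun t => t.1.2 * (t.2.2 - t.2.1) * (t.2.2 + t.2.1 + t.1.1) ∈ Ioo (-(n : ℤ)) n) with hT'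
  have h2 : ∑ t ∈ T, En n t.1.1.natAbs (Gd g (t.1.2 * (t.2.2 - t.2.1) * (t.2.2 + t.2.1 + t.1.1))) =
      ∑ t ∈ T', En n t.1.1.natAbs (Gd g (t.1.2 * (t.2.2 - t.2.1) * (t.2.2 + t.2.1 + t.1.1))) := by
    symm
    refine sum_subset (filter_subset _ _) fun t ht ht' => ?_
    rw [hT', mem_filter] at ht'
    exact En_zero n _ g hs _ fun h => ht' ⟨ht, h⟩
  rw [h2]
  set J : Finset ℤ := (Ioo (-(K : ℤ)) K).filter (fun j => j ≠ 0) with hJ
  set E : Finset ℤ := (Ioo (-(n : ℤ)) n).filter (fun e => e ≠ 0) with hE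
  have hne : ∀ t ∈ T, t.1.2 * (t.2.2 - t.2.1) * (t.2.2 + t.2.1 + t.1.1) ≠ 0 := by
    intro t ht
    rw [hT, mem_filter, mem_product] at ht
    obtain ⟨⟨h3, _⟩, h4, h5, h6⟩ := ht
    rw [mem_Aj] at h4 h5
    have h7 := hP _ h3
    refine mul_ne_zero (mul_ne_zero h7.2.2 (by omega)) (by omega)
  have hmaps : ∀ t ∈ T', (t.1.1, t.1.2 * (t.2.2 - t.2.1) * (t.2.2 + t.2.1 + t.1.1)) ∈ J ×ˢ E := by
    intro t ht
    rw [hT', mem_filter] at ht
    have h3 := hne t ht.1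
    have h4 := ht.1
    rw [hT, mem_filter, mem_product] at h4
    have h5 := hP _ h4.1.1
    rw [mem_product, hJ, hE, mem_filter, mem_filter]
    refine ⟨⟨?_, ?_⟩, ht.2, h3⟩
    · rw [mem_Ioo]
      have := abs_lt.1 h5.2.1
      exact this
    · exact abs_pos.1 h5.1
  rw [← sum_fiberwise_of_maps_to hmaps]
  have h3 : ∀ x ∈ J ×ˢ E, ∑ t ∈ T'.filter (fun t => (t.1.1, t.1.2 * (t.2.2 - t.2.1) * (t.2.2 + t.2.1 + t.1.1)) = x),
      En n t.1.1.natAbs (Gd g (t.1.2 * (t.2.2 - t.2.1) * (t.2.2 + t.2.1 + t.1.1))) ≤ 2 * D ^ 2 * En n x.1.natAbs (Gd g x.2) := by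
    intro x hx
    rw [mem_product, hJ, hE, mem_filter, mem_filter, mem_Ioo, mem_Ioo] at hx
    have h4 : ∀ t ∈ T'.filter (fun t => (t.1.1, t.1.2 * (t.2.2 - t.2.1) * (t.2.2 + t.2.1 + t.1.1)) = x),
        En n t.1.1.natAbs (Gd g (t.1.2 * (t.2.2 - t.2.1) * (t.2.2 + t.2.1 + t.1.1))) = En n x.1.natAbs (Gd g x.2) := by
      intro t ht
      rw [mem_filter] at ht
      rw [← ht.2]
    rw [sum_congr rfl h4, sum_const, nsmul_eq_mul]
    refine mul_le_mul_of_nonneg_right ?_ (En_nonneg _ _ _)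
    set S' : Finset (ℤ × ℤ × ℤ) := (T'.filter (fun t => (t.1.1, t.1.2 * (t.2.2 - t.2.1) * (t.2.2 + t.2.1 + t.1.1)) = x)).image (fun t => (t.1.2, t.2.1, t.2.2)) with hS'
    have h5 : (T'.filter (fun t => (t.1.1, t.1.2 * (t.2.2 - t.2.1) * (t.2.2 + t.2.1 + t.1.1)) = x)).card = S'.card := by
      rw [hS', card_image_of_injOn]
      intro t ht t' ht' h
      rw [mem_coe, mem_filter] at ht ht'
      have h6 := congrArg Prod.fst (ht.2.trans ht'.2.symm)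
      simp only [Prod.mk.injEq] at h h6
      exact Prod.ext (Prod.ext h6 h.1) (Prod.ext h.2.1 h.2.2)
    rw [h5]
    refine fibre K x.1 x.2 hx.2.2 D (hD _ (by omega) (by omega)) S' ?_
    intro s hs'
    rw [hS', mem_image] at hs'
    obtain ⟨t, ht, rfl⟩ := hs'
    rw [mem_filter] at ht
    have h6 := ht.1
    rw [hT', mem_filter, hT, mem_filter] at h6
    have h7 : t.1.1 = x.1 := (Prod.ext_iff.1 ht.2).1
    have h8 : t.1.2 * (t.2.2 - t.2.1) * (t.2.2 + t.2.1 + t.1.1) = x.2 := (Prod.ext_iff.1 ht.2).2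
    refine ⟨?_, ?_, ?_⟩
    · rw [← h7]; exact h6.1.2.1
    · rw [← h7]; exact h6.1.2.2.1
    · rw [← h8, ← h7]
  refine (sum_le_sum h3).trans ?_
  rw [← mul_sum, sum_product]
  have h4 : ∑ j ∈ J, ∑ e ∈ E, En n j.natAbs (Gd g e) ≤ 2 * ∑ m ∈ Ico 1 K, ∑ e ∈ Ioo (-(n : ℤ)) n, En n m (Gd g e) := by
    have h5 : ∀ j ∈ J, ∑ e ∈ E, En n j.natAbs (Gd g e) ≤ ∑ e ∈ Ioo (-(n : ℤ)) n, En n j.natAbs (Gd g e) := fun j _ =>
      sum_le_sum_of_subset_of_nonneg (filter_subset _ _) fun _ _ _ => En_nonneg _ _ _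
    refine (sum_le_sum h5).trans ?_
    have hmaps2 : ∀ j ∈ J, j.natAbs ∈ Ico 1 K := by
      intro j hj
      rw [hJ, mem_filter, mem_Ioo] at hj
      rw [mem_Ico]
      omega
    rw [← sum_fiberwise_of_maps_to hmaps2, mul_sum]
    refine sum_le_sum fun m hm => ?_
    have h6 : ∀ j ∈ J.filter (fun j => j.natAbs = m), ∑ e ∈ Ioo (-(n : ℤ)) n, En n j.natAbs (Gd g e) = ∑ e ∈ Ioo (-(n : ℤ)) n, En n m (Gd g e) := by
      intro j hj
      rw [mem_filter] at hj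
      rw [hj.2]
    rw [sum_congr rfl h6, sum_const, nsmul_eq_mul]
    refine mul_le_mul_of_nonneg_right ?_ (sum_nonneg fun _ _ => En_nonneg _ _ _)
    have h7 : J.filter (fun j => j.natAbs = m) ⊆ {(m : ℤ), -(m : ℤ)} := by
      intro j hj
      rw [mem_filter] at hj
      rw [mem_insert, mem_singleton]
      omega
    have h8 := (card_le_card h7).trans card_le_two
    exact_mod_cast h8
  calc 2 * D ^ 2 * ∑ j ∈ J, ∑ e ∈ E, En n j.natAbs (Gd g e) ≤ 2 * D ^ 2 * (2 * ∑ m ∈ Ico 1 K, ∑ e ∈ Ioo (-(n : ℤ)) n, En n m (Gd g e)) :=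
        mul_le_mul_of_nonneg_left h4 (by positivity)
    _ = _ := by ring

end Pool.Agent.Lib.H81W
end

-- from Lib.H81W.S6
section

/-!
# H81W, steps 3 and 4 together: the constants
-/

open Finset

namespace Pool.Agent.Lib.H81W

open Pool.Agent.H44W (ee TF cut)
open Pool.Agent.H81E (norm_ee ee_add ee_neg parseval)

/-- Real arithmetic 1. -/
theorem r1 (n K m A F D : ℝ) (c : ℕ) (hn : 0 < n) (hK : 0 < K) (hD : 0 < D) (hA0 : 0 ≤ A) (hA : A ≤ K) (hF : 0 ≤ F) (h1 : K / D ^ c ≤ m)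
    (h3 : (n ^ 2 / D ^ c) ^ 4 * m ^ 3 ≤ 16 * n ^ 6 * A ^ 2 * F) : n ^ 2 * K / (16 * D ^ (7 * c)) ≤ F := by
  have hd : 0 < D ^ c := by positivity
  rw [show D ^ (7 * c) = (D ^ c) ^ 7 by rw [← pow_mul, mul_comm]]
  generalize D ^ c = d at *
  have h0 : 0 < K / d := by positivity
  have h5 : (n ^ 2 / d) ^ 4 * (K / d) ^ 3 ≤ 16 * n ^ 6 * K ^ 2 * F := by
    have h6 : (K / d) ^ 3 ≤ m ^ 3 := pow_le_pow_left₀ h0.le h1 3
    have h7 : A ^ 2 ≤ K ^ 2 := pow_le_pow_left₀ hA0 hA 2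
    have h8 : (n ^ 2 / d) ^ 4 * (K / d) ^ 3 ≤ (n ^ 2 / d) ^ 4 * m ^ 3 := mul_le_mul_of_nonneg_left h6 (by positivity)
    have h9 : 16 * n ^ 6 * A ^ 2 * F ≤ 16 * n ^ 6 * K ^ 2 * F :=
      mul_le_mul_of_nonneg_right (mul_le_mul_of_nonneg_left h7 (by positivity)) hF
    exact h8.trans (h3.trans h9)
  have h6 : (n ^ 2 / d) ^ 4 * (K / d) ^ 3 = (16 * n ^ 6 * K ^ 2) * (n ^ 2 * K / (16 * d ^ 7)) := by
    field_simp
  rw [h6] at h5
  exact le_of_mul_le_mul_left h5 (by positivity)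

/-- Real arithmetic 2. -/
theorem r2 (n K D : ℝ) (c : ℕ) (hn : 0 < n) (h2 : 2 ≤ D) (hK : D ^ (8 * c + 11) ≤ K) : 4 * n ^ 2 * D ^ c ≤ n ^ 2 * K / (32 * D ^ (7 * c)) := by
  have hD0 : 0 < D := by linarith
  rw [le_div_iff₀ (by positivity)]
  have h8 : 128 * D ^ (8 * c) ≤ K := by
    calc 128 * D ^ (8 * c) ≤ D ^ 11 * D ^ (8 * c) := by
          refine mul_le_mul_of_nonneg_right ?_ (by positivity)
          calc (128 : ℝ) ≤ 2 ^ 11 := by norm_num
            _ ≤ D ^ 11 := pow_le_pow_left₀ (by norm_num) h2 11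
      _ = D ^ (8 * c + 11) := by rw [pow_add]; ring
      _ ≤ K := hK
  calc 4 * n ^ 2 * D ^ c * (32 * D ^ (7 * c)) = n ^ 2 * (128 * D ^ (8 * c)) := by
        rw [show 8 * c = c + 7 * c by ring, pow_add]
        ring
    _ ≤ n ^ 2 * K := mul_le_mul_of_nonneg_left h8 (by positivity)

/-- The off-diagonal part for one pair. -/
theorem one_pair (n K c : ℕ) (D : ℝ) (hn : 1 ≤ n) (hK1 : 1 ≤ K) (h2 : 2 ≤ D) (hK : D ^ (8 * c + 11) ≤ K) (hKn : K ≤ n)
    (g : ℤ → ℂ) (hg : ∀ x, ‖g x‖ ≤ 1) (hs : ∀ y, y ∉ Icc (1 : ℤ) n → g y = 0) (j k : ℤ) (m : ℕ) (hm : (m : ℤ) = |j|) (h1 : (K : ℝ) / D ^ c ≤ |(j : ℝ)|) (hp : |j| < K)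
    (th : ℝ) (hth : (n : ℝ) ^ 2 / D ^ c ≤ ∑ a ∈ Aj K j, En n m (fun y => Gd g (a * (a + j) * k) y * ee (th * y))) :
    (n : ℝ) ^ 2 * K / (32 * D ^ (7 * c)) ≤
      ∑ x ∈ (Aj K j ×ˢ Aj K j).filter (fun x => x.1 ≠ x.2), En n m (Gd g (k * (x.2 - x.1) * (x.2 + x.1 + j))) := by
  classical
  have hD0 : (0 : ℝ) < D := by linarith
  have hnr : (0 : ℝ) < n := by exact_mod_cast (by omega : 0 < n)
  have hKr : (0 : ℝ) < K := by exact_mod_cast (by omega : 0 < K)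
  have hmabs : (m : ℝ) = |(j : ℝ)| := by
    rw [← Int.cast_abs, ← hm, Int.cast_natCast]
  rw [← hmabs] at h1
  have hm0 : (0 : ℝ) < m := lt_of_lt_of_le (by positivity) h1
  have hm1 : 0 < m := by exact_mod_cast hm0
  have hmK : m < K := by
    rw [← hm] at hp
    exact_mod_cast hp
  have h3 := step3 n m hm1 (by omega) g hg hs (Aj K j) (fun a => a * (a + j) * k) th ((n : ℝ) ^ 2 / D ^ c) (by positivity) hth
  have hcard : ((Aj K j).card : ℝ) ≤ K := by exact_mod_cast card_Aj K j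
  have hF0 : 0 ≤ ∑ a ∈ Aj K j, ∑ b ∈ Aj K j, En n m (Gd g (b * (b + j) * k - a * (a + j) * k)) :=
    sum_nonneg fun _ _ => sum_nonneg fun _ _ => En_nonneg _ _ _
  have h4 := r1 n K m _ _ D c hnr hKr hD0 (Nat.cast_nonneg _) hcard hF0 h1 h3
  have h5 : ∑ a ∈ Aj K j, ∑ b ∈ Aj K j, En n m (Gd g (b * (b + j) * k - a * (a + j) * k)) =
      ∑ x ∈ (Aj K j ×ˢ Aj K j).filter (fun x => x.1 ≠ x.2), En n m (Gd g (k * (x.2 - x.1) * (x.2 + x.1 + j))) +
      ∑ x ∈ (Aj K j ×ˢ Aj K j).filter (fun x => ¬ x.1 ≠ x.2), En n m (Gd g (k * (x.2 - x.1) * (x.2 + x.1 + j))) := by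
    rw [sum_filter_add_sum_filter_not, sum_product]
    refine sum_congr rfl fun a _ => sum_congr rfl fun b _ => ?_
    rw [show b * (b + j) * k - a * (a + j) * k = k * (b - a) * (b + a + j) by ring]
  have h6 : ∑ x ∈ (Aj K j ×ˢ Aj K j).filter (fun x => ¬ x.1 ≠ x.2), En n m (Gd g (k * (x.2 - x.1) * (x.2 + x.1 + j))) ≤ 4 * n ^ 2 * D ^ c := by
    have h7 : ∀ x ∈ (Aj K j ×ˢ Aj K j).filter (fun x => ¬ x.1 ≠ x.2), En n m (Gd g (k * (x.2 - x.1) * (x.2 + x.1 + j))) ≤ 4 * n ^ 2 * D ^ c / K := by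
      intro x _
      refine (En_le n m hm1 (by omega) _ (norm_Gd_le hg _)).trans ?_
      rw [div_le_div_iff₀ hm0 hKr]
      have h8 : (K : ℝ) ≤ m * D ^ c := by
        rwa [div_le_iff₀ (by positivity)] at h1
      calc 4 * (n : ℝ) ^ 2 * K ≤ 4 * (n : ℝ) ^ 2 * (m * D ^ c) := mul_le_mul_of_nonneg_left h8 (by positivity)
        _ = _ := by ring
    refine (sum_le_card_nsmul _ _ _ h7).trans ?_
    have h8 : ((Aj K j ×ˢ Aj K j).filter (fun x => ¬ x.1 ≠ x.2)).card ≤ K := by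
      refine le_trans ?_ (card_Aj K j)
      refine card_le_card_of_injOn (fun x => x.1) ?_ ?_
      · intro x hx
        rw [mem_coe, mem_filter, mem_product] at hx
        exact hx.1.1
      · intro x hx y hy h
        rw [mem_coe, mem_filter] at hx hy
        have hx2 := not_not.1 hx.2
        have hy2 := not_not.1 hy.2
        refine Prod.ext h ?_
        rw [← hx2, ← hy2]
        exact h
    rw [nsmul_eq_mul]
    calc (((Aj K j ×ˢ Aj K j).filter (fun x => ¬ x.1 ≠ x.2)).card : ℝ) * (4 * n ^ 2 * D ^ c / K) ≤ K * (4 * n ^ 2 * D ^ c / K) := by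
          refine mul_le_mul_of_nonneg_right (by exact_mod_cast h8) (by positivity)
      _ = 4 * n ^ 2 * D ^ c := by field_simp
  have h7 := r2 n K D c hnr h2 hK
  have h8 : (n : ℝ) ^ 2 * K / (16 * D ^ (7 * c)) = (n : ℝ) ^ 2 * K / (32 * D ^ (7 * c)) + (n : ℝ) ^ 2 * K / (32 * D ^ (7 * c)) := by
    field_simp
    ring
  rw [h8, h5] at h4
  linarith

/-- Real arithmetic 3. -/
theorem r3 (n K G D : ℝ) (c : ℕ) (hn : 0 < n) (hK : 0 < K) (h2 : 2 ≤ D) (hG : 0 ≤ G) (hKn1 : K * D ^ (8 * c + 11) ≤ n)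
    (h7 : n ^ 3 / (32 * D ^ (8 * c)) ≤ 4 * D ^ 2 * (K * n ^ 2 + D * (n * G ^ 2))) : n / D ^ (4 * c + 6) ≤ G := by
  have hD0 : 0 < D := by linarith
  have h8 : 4 * D ^ 2 * (K * n ^ 2) ≤ n ^ 3 / (64 * D ^ (8 * c)) := by
    rw [le_div_iff₀ (by positivity)]
    have h9 : 256 * D ^ (8 * c + 2) * K ≤ n := by
      calc 256 * D ^ (8 * c + 2) * K ≤ D ^ 9 * D ^ (8 * c + 2) * K := by
            refine mul_le_mul_of_nonneg_right (mul_le_mul_of_nonneg_right ?_ (by positivity)) hK.le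
            calc (256 : ℝ) ≤ 2 ^ 9 := by norm_num
              _ ≤ D ^ 9 := pow_le_pow_left₀ (by norm_num) h2 9
        _ = K * D ^ (8 * c + 11) := by rw [← pow_add, show 9 + (8 * c + 2) = 8 * c + 11 by ring]; ring
        _ ≤ n := hKn1
    calc 4 * D ^ 2 * (K * n ^ 2) * (64 * D ^ (8 * c)) = n ^ 2 * (256 * D ^ (8 * c + 2) * K) := by
          rw [pow_add]
          ring
      _ ≤ n ^ 2 * n := mul_le_mul_of_nonneg_left h9 (by positivity)
      _ = n ^ 3 := by ring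
  have h9 : n ^ 3 / (32 * D ^ (8 * c)) = n ^ 3 / (64 * D ^ (8 * c)) + n ^ 3 / (64 * D ^ (8 * c)) := by
    field_simp
    ring
  have h10 : n ^ 3 / (64 * D ^ (8 * c)) ≤ 4 * D ^ 3 * (n * G ^ 2) := by
    have h11 : 4 * D ^ 2 * (K * n ^ 2 + D * (n * G ^ 2)) = 4 * D ^ 2 * (K * n ^ 2) + 4 * D ^ 3 * (n * G ^ 2) := by ring
    rw [h11] at h7
    linarith
  have h11 : (n / D ^ (4 * c + 6)) ^ 2 ≤ G ^ 2 := by
    rw [div_le_iff₀ (by positivity)] at h10
    have h12 : n ^ 2 ≤ G ^ 2 * (256 * D ^ (8 * c + 3)) := by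
      have h13 : n * n ^ 2 ≤ n * (G ^ 2 * (256 * D ^ (8 * c + 3))) := by
        calc n * n ^ 2 = n ^ 3 := by ring
          _ ≤ 4 * D ^ 3 * (n * G ^ 2) * (64 * D ^ (8 * c)) := h10
          _ = n * (G ^ 2 * (256 * D ^ (8 * c + 3))) := by rw [pow_add]; ring
      exact le_of_mul_le_mul_left h13 hn
    rw [div_pow, div_le_iff₀ (by positivity)]
    refine h12.trans (mul_le_mul_of_nonneg_left ?_ (by positivity))
    calc 256 * D ^ (8 * c + 3) ≤ D ^ 9 * D ^ (8 * c + 3) := by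
          refine mul_le_mul_of_nonneg_right ?_ (by positivity)
          calc (256 : ℝ) ≤ 2 ^ 9 := by norm_num
            _ ≤ D ^ 9 := pow_le_pow_left₀ (by norm_num) h2 9
      _ = (D ^ (4 * c + 6)) ^ 2 := by rw [← pow_add, ← pow_mul]; congr 1; ring
  exact le_of_sq_le_sq h11 hG

/-- Steps 3 and 4. -/
theorem step34 (c n K : ℕ) (D : ℝ) (h2 : 2 ≤ D) (hD : ∀ m : ℕ, 1 ≤ m → m ≤ 2 * n → (m.divisors.card : ℝ) ≤ D)
    (hK : D ^ (8 * c + 11) ≤ K) (hKn : (K : ℝ) ^ 2 * D ^ (8 * c + 11) ≤ n) (g : ℤ → ℂ) (hg : ∀ x, ‖g x‖ ≤ 1) (hs : ∀ y, y ∉ Icc (1 : ℤ) n → g y = 0)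
    (P : Finset (ℤ × ℤ)) (hPc : (n : ℝ) / (K * D ^ c) ≤ P.card) (hP : ∀ p ∈ P, (K : ℝ) / D ^ c ≤ |(p.1 : ℝ)| ∧ |p.1| < K ∧ p.2 ≠ 0 ∧
      ∃ th : ℝ, (n : ℝ) ^ 2 / D ^ c ≤ ∑ a ∈ Aj K p.1, En n p.1.natAbs (fun y => Gd g (a * (a + p.1) * p.2) y * ee (th * y))) :
    ∃ th : ℝ, (n : ℝ) / D ^ (4 * c + 6) ≤ ‖∑ y ∈ Icc (1 : ℤ) n, g y * ee (th * y)‖ := by
  have hD0 : (0 : ℝ) < D := by linarith
  have hD1 : (1 : ℝ) ≤ D := by linarith
  have hKr : (0 : ℝ) < K := lt_of_lt_of_le (by positivity) hK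
  have hK1 : 1 ≤ K := by
    have : 0 < K := by exact_mod_cast hKr
    omega
  have hK1r : (1 : ℝ) ≤ K := by exact_mod_cast hK1
  have hnr : (0 : ℝ) < n := lt_of_lt_of_le (by positivity) hKn
  have hn : 1 ≤ n := by
    have : 0 < n := by exact_mod_cast hnr
    omega
  have hKn1 : (K : ℝ) * D ^ (8 * c + 11) ≤ n := by
    refine le_trans ?_ hKn
    refine mul_le_mul_of_nonneg_right ?_ (by positivity)
    nlinarith
  have hKn2 : (K : ℝ) ≤ n := by
    refine le_trans ?_ hKn1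
    exact le_mul_of_one_le_right hKr.le (one_le_pow₀ hD1)
  have hKn3 : K ≤ n := by exact_mod_cast hKn2
  have h3 : (P.card : ℝ) * ((n : ℝ) ^ 2 * K / (32 * D ^ (7 * c))) ≤
      ∑ p ∈ P, ∑ x ∈ (Aj K p.1 ×ˢ Aj K p.1).filter (fun x => x.1 ≠ x.2), En n p.1.natAbs (Gd g (p.2 * (x.2 - x.1) * (x.2 + x.1 + p.1))) := by
    rw [← nsmul_eq_mul]
    refine card_nsmul_le_sum _ _ _ fun p hp => ?_
    obtain ⟨h4, h5, h6, th, h7⟩ := hP p hp
    exact one_pair n K c D hn hK1 h2 hK hKn3 g hg hs p.1 p.2 p.1.natAbs (Int.natCast_natAbs p.1) h4 h5 th h7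
  have h4 := offdiag n K D hD g hs P fun p hp => by
    obtain ⟨h4, h5, h6, _⟩ := hP p hp
    refine ⟨?_, h5, h6⟩
    have h7 : (0 : ℝ) < |(p.1 : ℝ)| := lt_of_lt_of_le (by positivity) h4
    exact abs_pos.2 (by exact_mod_cast abs_pos.1 h7)
  have h5 : ∑ m ∈ Ico 1 K, ∑ e ∈ Ioo (-(n : ℤ)) n, En n m (Gd g e) ≤ K * n ^ 2 + D * ∑ d ∈ Ioo (-(n : ℤ)) n, ‖Au n g d‖ ^ 2 := by
    refine le_trans (le_of_eq ?_) (sum_sum_Au n K D hD g hg)
    refine sum_congr rfl fun m hm => ?_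
    rw [mem_Ico] at hm
    exact sum_En n m (by omega) g hs
  obtain ⟨th, h6⟩ := sum_Au n hn g hg hs
  refine ⟨th, ?_⟩
  refine r3 n K _ D c hnr hKr h2 (norm_nonneg _) hKn1 ?_
  have e1 : (n : ℝ) ^ 3 / (32 * D ^ (8 * c)) = (n : ℝ) / (K * D ^ c) * ((n : ℝ) ^ 2 * K / (32 * D ^ (7 * c))) := by
    rw [show 8 * c = c + 7 * c by ring, pow_add]
    field_simp
  rw [e1]
  have e2 : (n : ℝ) / (K * D ^ c) * ((n : ℝ) ^ 2 * K / (32 * D ^ (7 * c))) ≤ (P.card : ℝ) * ((n : ℝ) ^ 2 * K / (32 * D ^ (7 * c))) :=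
    mul_le_mul_of_nonneg_right hPc (by positivity)
  have e3 : 4 * D ^ 2 * ∑ m ∈ Ico 1 K, ∑ e ∈ Ioo (-(n : ℤ)) n, En n m (Gd g e) ≤
      4 * D ^ 2 * (K * n ^ 2 + D * (n * ‖∑ y ∈ Icc (1 : ℤ) n, g y * ee (th * y)‖ ^ 2)) := by
    refine mul_le_mul_of_nonneg_left (h5.trans ?_) (by positivity)
    have := mul_le_mul_of_nonneg_left h6 hD0.le
    linarith
  exact e2.trans (h3.trans (h4.trans e3))

end Pool.Agent.Lib.H81W
end

-- from Lib.H3B.S34
section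

/-!
# H3B, steps 3 and 4 (from many pairs `(j, k)` with large energies to one large exponential sum). Proof: library H81W.
-/

namespace Pool.Agent.H3B

open Finset
open Pool.Agent.H44W (ee TF cut)

/-- The two definitions of the energy agree. -/
theorem s34_E (n m : ℕ) (hm : 0 < m) (u : ℤ → ℂ) (hu : ∀ y, y ∉ Icc (1 : ℤ) n → u y = 0) : E m u = Pool.Agent.Lib.H81W.En n m u := by
  classical
  have hm0 : (0 : ℤ) < m := by exact_mod_cast hm
  unfold E Pool.Agent.Lib.H81W.En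
  have h1 : ∑ r ∈ Ico (0 : ℤ) m, ‖Pool.Agent.Lib.H81W.Sr n m u r‖ ^ 2 = ∑ r ∈ range m, ‖Pool.Agent.Lib.H81W.Sr n m u (r : ℤ)‖ ^ 2 := by
    symm
    refine sum_bij' (fun r _ => (r : ℤ)) (fun r _ => r.toNat) ?_ ?_ ?_ ?_ ?_
    · intro r hr
      rw [mem_range] at hr
      rw [mem_Ico]
      omega
    · intro r hr
      rw [mem_Ico] at hr
      rw [mem_range]
      omega
    · intro r _
      omega
    · intro r hr
      rw [mem_Ico] at hr
      omega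
    · intro r _
      rfl
  rw [h1]
  refine sum_congr rfl fun r hr => ?_
  rw [mem_range] at hr
  have hr0 : ((r : ℤ)) % m = r := Int.emod_eq_of_lt (by omega) (by omega)
  congr 2
  unfold Pool.Agent.Lib.H81W.Sr
  rw [tsum_eq_sum (s := ((Icc (1 : ℤ) (n : ℤ)).filter (fun y : ℤ => y % (m : ℤ) = (r : ℤ))).image (fun y : ℤ => y / (m : ℤ)))]
  · rw [sum_image]
    · refine sum_congr rfl fun y hy => ?_
      rw [mem_filter] at hy
      rw [← hy.2, add_comm, Int.mul_ediv_add_emod]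
    · intro y hy z hz h
      rw [mem_coe, mem_filter] at hy hz
      have h2 := Int.mul_ediv_add_emod y m
      have h3 := Int.mul_ediv_add_emod z m
      simp only at h
      rw [← h2, ← h3, h, hy.2, hz.2]
  · intro v hv
    apply hu
    intro h
    apply hv
    rw [mem_image]
    refine ⟨(r : ℤ) + m * v, ?_, ?_⟩
    · rw [mem_filter]
      exact ⟨h, by rw [Int.add_mul_emod_self_left, hr0]⟩
    · rw [Int.add_mul_ediv_left _ _ hm0.ne', Int.ediv_eq_zero_of_lt (by omega) (by omega), zero_add]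

theorem s34_sum (K : ℕ) (j : ℤ) (F : ℤ → ℝ) : ∑ a ∈ Ij K j, F a = ∑ a ∈ Pool.Agent.Lib.H81W.Aj K j, F a := by
  refine sum_bij' (fun a _ => (a : ℤ)) (fun a _ => a.toNat) ?_ ?_ ?_ ?_ ?_
  · intro a ha
    unfold Ij at ha
    rw [mem_filter, mem_Ico] at ha
    rw [Pool.Agent.Lib.H81W.mem_Aj]
    omega
  · intro a ha
    rw [Pool.Agent.Lib.H81W.mem_Aj] at ha
    unfold Ij
    rw [mem_filter, mem_Ico]
    omega
  · intro a _
    omega
  · intro a ha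
    rw [Pool.Agent.Lib.H81W.mem_Aj] at ha
    omega
  · intro a _
    rfl

/-- Steps 3 and 4. -/
theorem step34 (A : ℕ) : ∃ C : ℕ, ∀ (n K : ℕ) (D : ℝ), 2 ≤ D → (∀ m : ℕ, 1 ≤ m → m ≤ 2 * n → (m.divisors.card : ℝ) ≤ D) →
    D ^ C ≤ K → (K : ℝ) ^ 2 * D ^ C ≤ n → ∀ g : ℤ → ℂ, (∀ z, ‖g z‖ ≤ 1) → (∀ y : ℤ, y ∉ Icc (1 : ℤ) n → g y = 0) →
    ∀ P : Finset (ℤ × ℤ), (n : ℝ) / (K * D ^ A) ≤ P.card →
    (∀ p ∈ P, (K : ℝ) / D ^ A ≤ |(p.1 : ℝ)| ∧ |p.1| < K ∧ p.2 ≠ 0 ∧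
      ∃ θ : ℝ, (n : ℝ) ^ 2 / D ^ A ≤ ∑ a ∈ Ij K p.1, E p.1.natAbs (tw θ (Gd g (a * (a + p.1) * p.2)))) →
    ∃ θ : ℝ, (n : ℝ) / D ^ C ≤ ‖∑' y : ℤ, g y * ee (-(θ * y))‖ := by
  refine ⟨8 * A + 11, fun n K D h2 hD hK hKn g hg hs P hPc hP => ?_⟩
  have hD1 : (1 : ℝ) ≤ D := by linarith
  have hD0 : (0 : ℝ) < D := by linarith
  have hKr : (0 : ℝ) < K := lt_of_lt_of_le (by positivity) hK
  obtain ⟨th, h⟩ := Pool.Agent.Lib.H81W.step34 A n K D h2 hD hK hKn g hg hs P hPc fun p hp => by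
    obtain ⟨h3, h4, h5, θ, h6⟩ := hP p hp
    refine ⟨h3, h4, h5, -θ, ?_⟩
    have h7 : (0 : ℝ) < |(p.1 : ℝ)| := lt_of_lt_of_le (by positivity) h3
    have h8 : p.1 ≠ 0 := by
      intro h0
      rw [h0, Int.cast_zero, abs_zero] at h7
      exact lt_irrefl _ h7
    refine h6.trans (le_of_eq ?_)
    rw [s34_sum K p.1 (fun a => E p.1.natAbs (tw θ (Gd g (a * (a + p.1) * p.2))))]
    refine sum_congr rfl fun a _ => ?_
    rw [s34_E n p.1.natAbs (by omega)]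
    · congr 1
      funext y
      unfold tw
      rw [neg_mul]
      rfl
    · intro y hy
      unfold tw Gd
      rw [hs y hy, zero_mul, zero_mul]
  refine ⟨-th, ?_⟩
  have h3 : ∑' y : ℤ, g y * ee (-(-th * y)) = ∑ y ∈ Icc (1 : ℤ) n, g y * ee (th * y) := by
    rw [tsum_eq_sum (s := Icc (1 : ℤ) n)]
    · refine sum_congr rfl fun y _ => ?_
      rw [neg_mul, neg_neg]
    · intro y hy
      rw [hs y hy, zero_mul]
  rw [h3]
  refine le_trans ?_ h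
  exact div_le_div_of_nonneg_left (Nat.cast_nonneg n) (by positivity) (pow_le_pow_right₀ hD1 (by omega))

end Pool.Agent.H3B
end

-- from Lib.HPP.A7a
section

/-!
# Project HPP, A7a (M): the concatenation step for two fixed indices
-/

open Finset

namespace Pool.Agent.HPP

variable {G : Type} [AddCommGroup G] [Fintype G]

/-- **A7a.** Two indices `(i, x, x')` and `(j, u, u')` fixed: `α = d` for `i`, `α = e` for `j`.
`g y = conj f(y + a) f(y + b)`, `a = d.a x' - d.a x`, `b = e.a u' - e.a u`, is a translate of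
`D2 (e.a u' - d.a x') (e.a u - d.a x) f`: `g (y + c)` with `c = e.a u - d.a x'` (abelian group computation, `f(y + b + c) = f(y + (e.a u' - d.a x'))`,
`f(y + a + c) = f(y + (e.a u - d.a x))`). The families `Ψ_o(y) = conj (Phi β f o (y + a)) * Phi β f o y` (`β` the list of `i`), and the conjugate of
the same for `j`, are adapted (`A4_ad`, `Ad.mul`, `Ad.trans`, `Ad.star`); product over the two indices: `A5_append`, scalars `Ad.smul`; `A6_kill` for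
`L = β ++ β'`, and `NN_trans`. -/
theorem A7a (N : ℝ) (hN : 0 < N) (f : G → ℂ) (hf : FN N f) (β β' : List (Dir G)) (a b u v : G) (huv : v - u = a - b)
    (ξ : Om β → Om β' → ℂ) (hξ : ∀ o o', ‖ξ o o'‖ ≤ 1) :
    (‖avc fun o : Om β => avc fun o' : Om β' => ∑ y, ((starRingEnd ℂ) (f (y + a)) * f (y + b)) * (ξ o o' *
        ((starRingEnd ℂ) (Phi β f o (y + a)) * Phi β f o y) *
        (Phi β' f o' (y + b) * (starRingEnd ℂ) (Phi β' f o' y)))‖ / N) ^ (2 ^ (β.length + β'.length)) ≤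
      NN (β ++ β') (D2 u v f) / N := by
  have hβ := A4_ad β f hf
  have hβ' := A4_ad β' f hf
  have h1 := ((hβ.trans a).star).mul hβ
  have h2 := (hβ'.trans b).mul hβ'.star
  have h3 := (A5_append β β' h1 h2).smul (fun o => ξ (omSplit β β' o).1 (omSplit β β' o).2) (fun o => hξ _ _)
  have hg : FN N (fun y => (starRingEnd ℂ) (f (y + a)) * f (y + b)) :=
    FN.mul (FN.star (FN.trans hf a)) (fun y => hf.le (y + b))
  have h4 := A6_kill hN (β ++ β') _ hg _ h3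
  have h5 := avc_split β β' (fun p : Om β × Om β' => ∑ y, ((starRingEnd ℂ) (f (y + a)) * f (y + b)) *
    (ξ p.1 p.2 * (((starRingEnd ℂ) (Phi β f p.1 (y + a)) * Phi β f p.1 y) *
      (Phi β' f p.2 (y + b) * (starRingEnd ℂ) (Phi β' f p.2 y)))))
  have h6 : D2 u v f = fun y => (fun y => (starRingEnd ℂ) (f (y + a)) * f (y + b)) (y + (u - b)) := by
    funext y
    have e1 : y + (u - b) + b = y + u := by abel
    have e2 : y + (u - b) + a = y + v := by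
      have : v = u + (a - b) := by
        rw [← huv]
        abel
      rw [this]
      abel
    show f (y + u) * (starRingEnd ℂ) (f (y + v)) = (starRingEnd ℂ) (f (y + (u - b) + a)) * f (y + (u - b) + b)
    rw [e1, e2, mul_comm]
  rw [h6, NN_trans (β ++ β') (fun y => (starRingEnd ℂ) (f (y + a)) * f (y + b)) (u - b)]
  rw [List.length_append] at h4
  refine le_trans (le_of_eq ?_) h4
  congr 3
  refine Eq.trans ?_ h5.symm
  have h7 : ∀ o : Om β, ∀ o' : Om β', ∑ y, ((starRingEnd ℂ) (f (y + a)) * f (y + b)) * (ξ o o' *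
        ((starRingEnd ℂ) (Phi β f o (y + a)) * Phi β f o y) *
        (Phi β' f o' (y + b) * (starRingEnd ℂ) (Phi β' f o' y))) =
      ∑ y, ((starRingEnd ℂ) (f (y + a)) * f (y + b)) * (ξ o o' *
        (((starRingEnd ℂ) (Phi β f o (y + a)) * Phi β f o y) *
        (Phi β' f o' (y + b) * (starRingEnd ℂ) (Phi β' f o' y)))) := by
    intro o o'
    refine Finset.sum_congr rfl fun y _ => ?_
    rw [mul_assoc (ξ o o')]
  simp only [h7]

end Pool.Agent.HPP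
end

-- from Lib.HPP.A7
section

/-!
# Project HPP, A7 (M): the concatenation step (C1)
-/

open Finset

namespace Pool.Agent.HPP

variable {G : Type} [AddCommGroup G] [Fintype G]

/-- The first formula: a sum with the phase. -/
theorem a7_one (d : Dir G) (β : List (Dir G)) (f : G → ℂ) :
    ∃ ξ : (d.ι × d.ι) → Om β → ℂ, (∀ p o, ‖ξ p o‖ ≤ 1) ∧
      ((NN (d :: β) f : ℝ) : ℂ) = ∑ y, f y * avc fun p : d.ι × d.ι => avc fun o : Om β => ξ p o *
        ((starRingEnd ℂ) (f (y + (d.a p.2 - d.a p.1))) * ((starRingEnd ℂ) (Phi β f o (y + (d.a p.2 - d.a p.1))) * Phi β f o y)) := by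
  have h1 : ∀ (p : d.ι × d.ι) (o : Om β), ∃ ξ : ℂ, ‖ξ‖ ≤ 1 ∧ ((‖∑ y, nab β o (D2 (d.a p.1) (d.a p.2) f) y‖ : ℝ) : ℂ) =
      ξ * ∑ y, nab β o (D2 (d.a p.1) (d.a p.2) f) y := fun p o => phase _
  choose ξ hξ hp using h1
  refine ⟨ξ, hξ, ?_⟩
  have h2 : ∀ (p : d.ι × d.ι) (o : Om β), (∑ y, nab β o (D2 (d.a p.1) (d.a p.2) f) y) =
      ∑ y, f y * ((starRingEnd ℂ) (f (y + (d.a p.2 - d.a p.1))) * ((starRingEnd ℂ) (Phi β f o (y + (d.a p.2 - d.a p.1))) * Phi β f o y)) := by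
    intro p o
    have h3 := A4_phi (d :: β) (p, o) f
    rw [← sum_trans (nab β o (D2 (d.a p.1) (d.a p.2) f)) (-(sh (d :: β) ((p, o) : Om (d :: β))))]
    refine Finset.sum_congr rfl fun y _ => ?_
    rw [← sub_eq_add_neg, ← D2_nab]
    refine (h3 y).trans ?_
    refine congrArg (fun x => f y * x) ?_
    change (starRingEnd ℂ) (f (y + (d.a p.2 - d.a p.1)) * Phi β f o (y + (d.a p.2 - d.a p.1))) * Phi β f o y = _
    rw [map_mul]
    ring
  rw [NN_cons, av_ofReal]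
  have h4 : ∀ p : d.ι × d.ι, ((NN β (D2 (d.a p.1) (d.a p.2) f) : ℝ) : ℂ) = avc fun o : Om β => ∑ y, f y * (ξ p o *
      ((starRingEnd ℂ) (f (y + (d.a p.2 - d.a p.1))) * ((starRingEnd ℂ) (Phi β f o (y + (d.a p.2 - d.a p.1))) * Phi β f o y))) := by
    intro p
    unfold NN
    rw [av_ofReal]
    refine congrArg avc (funext fun o => ?_)
    rw [hp, h2, Finset.mul_sum]
    refine Finset.sum_congr rfl fun y _ => ?_
    ring
  simp only [h4, avc_sum, avc_mul_left]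

/-- The square of the average, for two indices. -/
theorem a7_two (d e : Dir G) (β β' : List (Dir G)) (f : G → ℂ) (ξ : (d.ι × d.ι) → Om β → ℂ) (ξ' : (e.ι × e.ι) → Om β' → ℂ) :
    (∑ y, (avc fun p : d.ι × d.ι => avc fun o : Om β => ξ p o *
        ((starRingEnd ℂ) (f (y + (d.a p.2 - d.a p.1))) * ((starRingEnd ℂ) (Phi β f o (y + (d.a p.2 - d.a p.1))) * Phi β f o y))) *
      (starRingEnd ℂ) (avc fun p : e.ι × e.ι => avc fun o : Om β' => ξ' p o *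
        ((starRingEnd ℂ) (f (y + (e.a p.2 - e.a p.1))) * ((starRingEnd ℂ) (Phi β' f o (y + (e.a p.2 - e.a p.1))) * Phi β' f o y)))) =
    avc fun r : (d.ι × d.ι) × (e.ι × e.ι) => avc fun o : Om β => avc fun o' : Om β' => ∑ y,
      ((starRingEnd ℂ) (f (y + (d.a r.1.2 - d.a r.1.1))) * f (y + (e.a r.2.2 - e.a r.2.1))) * ((ξ r.1 o * (starRingEnd ℂ) (ξ' r.2 o')) *
        ((starRingEnd ℂ) (Phi β f o (y + (d.a r.1.2 - d.a r.1.1))) * Phi β f o y) *
        (Phi β' f o' (y + (e.a r.2.2 - e.a r.2.1)) * (starRingEnd ℂ) (Phi β' f o' y))) := by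
  rw [avc_prod (ι := d.ι × d.ι) (κ := e.ι × e.ι)]
  simp only [avc_sum]
  refine Finset.sum_congr rfl fun y _ => ?_
  rw [avc_star, ← avc_mul_right]
  refine congrArg avc (funext fun p => ?_)
  rw [← avc_mul_left]
  refine congrArg avc (funext fun q => ?_)
  rw [avc_star, ← avc_mul_right]
  refine congrArg avc (funext fun o => ?_)
  rw [← avc_mul_left]
  refine congrArg avc (funext fun o' => ?_)
  simp only [map_mul, Complex.conj_conj]
  ring

theorem a7_sub (d e : Dir G) (L : List (Dir G)) (f : G → ℂ) :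
    NN (e.sub d :: L) f = av fun r : (d.ι × d.ι) × (e.ι × e.ι) => NN L (D2 (e.a r.2.2 - d.a r.1.2) (e.a r.2.1 - d.a r.1.1) f) := by
  rw [NN_cons]
  change (av fun p : (e.ι × d.ι) × (e.ι × d.ι) => NN L (D2 (e.a p.1.1 - d.a p.1.2) (e.a p.2.1 - d.a p.2.2) f)) = _
  let E : ((d.ι × d.ι) × (e.ι × e.ι)) ≃ ((e.ι × d.ι) × (e.ι × d.ι)) :=
    ⟨fun r => ((r.2.2, r.1.2), (r.2.1, r.1.1)), fun p => ((p.2.2, p.1.2), (p.2.1, p.1.1)), fun _ => rfl, fun _ => rfl⟩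
  exact (av_equiv E (fun p : (e.ι × d.ι) × (e.ι × d.ι) => NN L (D2 (e.a p.1.1 - d.a p.1.2) (e.a p.2.1 - d.a p.2.2) f))).symm

/-- **A7b. The concatenation step.** Proof. By `A4_phi` for the list `α i :: β i` and `phase`, `sum_trans`:
`NN (α i :: β i) f = av_o ‖∑_y f(y) Phi (α i :: β i) f o y‖` and `Phi (d :: L) f ((x, x'), o) y = conj f(y + a) * (conj (Phi L f o (y + a)) * Phi L f o y)`,
`a = d.a x' - d.a x`. So `av_i NN (α i :: β i) f = ‖∑_y f(y) W(y)‖` with `W(y) = avc_{i, x, x', o} ξ conj f(y + a) (..)`. `FN.cs`: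
its square is `≤ N ∑_y ‖W y‖ ^ 2 = N avc_{(i,x,x',o), (j,u,u',o')} ..` (`avc_mul_conj`); take absolute values outside the averages over `o, o'`. For fixed
`i, x, x', j, u, u'`: `A7a` with `u := e.a u' - d.a x'`, `v := e.a u - d.a x` where `e = α j`, `d = α i` (so `v - u = a - b`), the length is `2 p`.
With `m = 2 ^ (2 p)`: `(.. / N) ^ (2 m) ≤ (av ‖..‖ / N) ^ m ≤ av (‖..‖ / N) ^ m ≤ av NN (β i ++ β j) (D2 ..) / N` and by `NN_cons` for
`(α j).sub (α i)` (index `((u', x'), (u, x))`; reorder the averages, `av_prod`, `av_comm`) this is the right side. -/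
theorem A7b (N : ℝ) (hN : 0 < N) {I : Type} [Fintype I] [Nonempty I] (p : ℕ) (α : I → Dir G) (β : I → List (Dir G))
    (hβ : ∀ i, (β i).length = p) (f : G → ℂ) (hf : FN N f) :
    ((av fun i => NN (α i :: β i) f) / N) ^ (2 ^ (2 * p + 1)) ≤
      (av fun x : I × I => NN ((α x.2).sub (α x.1) :: (β x.1 ++ β x.2)) f) / N := by
  choose ξ hξ hNN using fun i => a7_one (α i) (β i) f
  obtain ⟨V, hV⟩ : ∃ V : I → G → ℂ, V = fun i y => avc fun p : (α i).ι × (α i).ι => avc fun o : Om (β i) => ξ i p o *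
        ((starRingEnd ℂ) (f (y + ((α i).a p.2 - (α i).a p.1))) *
          ((starRingEnd ℂ) (Phi (β i) f o (y + ((α i).a p.2 - (α i).a p.1))) * Phi (β i) f o y)) := ⟨_, rfl⟩
  obtain ⟨X, hX⟩ : ∃ X : ℝ, X = av fun i => NN (α i :: β i) f := ⟨_, rfl⟩
  have hX0 : 0 ≤ X := by
    rw [hX]
    exact av_nonneg fun i => NN_nonneg _ _
  have h1 : (X : ℂ) = ∑ y, f y * avc fun i => V i y := by
    rw [hX, av_ofReal]
    simp only [hNN, avc_sum, avc_mul_left]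
    rw [hV]
  have h2 : X ^ 2 ≤ N * ∑ y, ‖avc fun i => V i y‖ ^ 2 := by
    have h3 := hf.cs fun y => avc fun i => V i y
    rw [← h1, Complex.norm_real, Real.norm_eq_abs, sq_abs] at h3
    exact h3
  obtain ⟨Z, hZ⟩ : ∃ Z : (x : I × I) → ((α x.1).ι × (α x.1).ι) × ((α x.2).ι × (α x.2).ι) → ℝ, Z = fun x r => ‖avc fun o : Om (β x.1) => avc fun o' : Om (β x.2) => ∑ y,
      ((starRingEnd ℂ) (f (y + ((α x.1).a r.1.2 - (α x.1).a r.1.1))) * f (y + ((α x.2).a r.2.2 - (α x.2).a r.2.1))) *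
        ((ξ x.1 r.1 o * (starRingEnd ℂ) (ξ x.2 r.2 o')) *
        ((starRingEnd ℂ) (Phi (β x.1) f o (y + ((α x.1).a r.1.2 - (α x.1).a r.1.1))) * Phi (β x.1) f o y) *
        (Phi (β x.2) f o' (y + ((α x.2).a r.2.2 - (α x.2).a r.2.1)) * (starRingEnd ℂ) (Phi (β x.2) f o' y)))‖ / N := ⟨_, rfl⟩
  have hZ0 : ∀ x r, 0 ≤ Z x r := by
    intro x r
    rw [hZ]
    exact div_nonneg (norm_nonneg _) hN.le
  have h3 : (∑ y, ‖avc fun i => V i y‖ ^ 2) ≤ N * av fun x => av (Z x) := by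
    have h4 : ((∑ y, ‖avc fun i => V i y‖ ^ 2 : ℝ) : ℂ) = avc fun x : I × I => ∑ y, V x.1 y * (starRingEnd ℂ) (V x.2 y) := by
      rw [avc_sum, Complex.ofReal_sum]
      refine Finset.sum_congr rfl fun y _ => ?_
      rw [Complex.ofReal_pow, ← Complex.mul_conj', avc_mul_conj]
    have h5 : (∑ y, ‖avc fun i => V i y‖ ^ 2) ≤ av fun x : I × I => ‖∑ y, V x.1 y * (starRingEnd ℂ) (V x.2 y)‖ := by
      refine (le_abs_self _).trans ?_
      rw [← Real.norm_eq_abs, ← Complex.norm_real, h4]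
      exact norm_avc_le _
    refine h5.trans ?_
    rw [← av_mul_left]
    refine av_mono fun x => ?_
    rw [hV]
    simp only
    rw [a7_two]
    refine (norm_avc_le _).trans ?_
    rw [← av_mul_left]
    refine av_mono fun r => ?_
    rw [hZ]
    exact (mul_div_cancel₀ _ hN.ne').symm.le
  have h6 : (X / N) ^ 2 ≤ av fun x => av (Z x) := by
    rw [div_pow, div_le_iff₀ (by positivity)]
    calc X ^ 2 ≤ N * ∑ y, ‖avc fun i => V i y‖ ^ 2 := h2
      _ ≤ N * (N * av fun x => av (Z x)) := mul_le_mul_of_nonneg_left h3 hN.le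
      _ = _ := by ring
  have h7 : ∀ x r, Z x r ^ (2 ^ (2 * p)) ≤ NN (β x.1 ++ β x.2) (D2 ((α x.2).a r.2.2 - (α x.1).a r.1.2) ((α x.2).a r.2.1 - (α x.1).a r.1.1) f) / N := by
    intro x r
    have h8 := A7a N hN f hf (β x.1) (β x.2) ((α x.1).a r.1.2 - (α x.1).a r.1.1) ((α x.2).a r.2.2 - (α x.2).a r.2.1)
      ((α x.2).a r.2.2 - (α x.1).a r.1.2) ((α x.2).a r.2.1 - (α x.1).a r.1.1) (by abel) (fun o o' => ξ x.1 r.1 o * (starRingEnd ℂ) (ξ x.2 r.2 o')) ?_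
    · rw [hβ, hβ, ← two_mul] at h8
      rw [hZ]
      exact h8
    · intro o o'
      rw [norm_mul, RCLike.norm_conj]
      exact mul_le_one₀ (hξ _ _ _) (norm_nonneg _) (hξ _ _ _)
  rw [← hX]
  calc (X / N) ^ 2 ^ (2 * p + 1) = ((X / N) ^ 2) ^ (2 ^ (2 * p)) := by
        rw [← pow_mul, pow_succ']
    _ ≤ (av fun x => av (Z x)) ^ (2 ^ (2 * p)) := pow_le_pow_left₀ (sq_nonneg _) h6 _
    _ ≤ av fun x => (av (Z x)) ^ (2 ^ (2 * p)) := av_pow _ fun x => av_nonneg (hZ0 x)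
    _ ≤ av fun x => av fun r => (Z x r) ^ (2 ^ (2 * p)) := av_mono fun x => av_pow _ (hZ0 x)
    _ ≤ av fun x : I × I => av fun r : ((α x.1).ι × (α x.1).ι) × ((α x.2).ι × (α x.2).ι) => NN (β x.1 ++ β x.2) (D2 ((α x.2).a r.2.2 - (α x.1).a r.1.2) ((α x.2).a r.2.1 - (α x.1).a r.1.1) f) / N :=
        av_mono fun x => av_mono (h7 x)
    _ = _ := by
        rw [← av_div]
        refine congrArg av (funext fun x => ?_)
        rw [av_div, a7_sub]

end Pool.Agent.HPP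
end

-- from Lib.HPP.A9a
section

/-!
# Project HPP, A9a (M): the inequality in the step of `T_p`
-/

open Finset

namespace Pool.Agent.HPP

theorem a9a_ofFn {p : ℕ} {D : Type*} (u : Fin (p + 1) → D) :
    List.ofFn u = List.ofFn (fun l : Fin p => u l.castSucc) ++ [u (Fin.last p)] := by
  rw [List.ofFn_succ', List.concat_eq_append]

theorem a9a_perm1 {D : Type*} (A Γ : List D) (a : D) : (A ++ [a] ++ Γ).Perm (a :: (A ++ Γ)) := by
  rw [List.append_assoc, List.singleton_append]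
  exact List.perm_middle

theorem a9a_perm2 {D : Type*} (e : D) (A Γ A' Γ' : List D) :
    (e :: ((A ++ Γ) ++ (A' ++ Γ'))).Perm ((A' ++ Γ') ++ (A ++ (e :: Γ))) := by
  refine List.Perm.trans ?_ List.perm_append_comm
  rw [← List.cons_append]
  exact List.Perm.append_right _ List.perm_middle.symm

theorem a9a_step {N : ℝ} (hN : 0 < N) {I J : Type} [Fintype I] [Nonempty I] [Fintype J] (E : ℕ) (X : I → ℝ)
    (Y : I → J → ℝ) (hX : ∀ i, 0 ≤ X i) (h : ∀ i, (X i / N) ^ E ≤ (av fun j => Y i j) / N) :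
    (av X / N) ^ E ≤ (av fun j => av fun i => Y i j) / N := by
  have h1 : av X / N = av fun i => X i / N := (av_div N X).symm
  have h2 : (av fun i => X i / N) ^ E ≤ av fun i => (X i / N) ^ E :=
    av_pow E fun i => div_nonneg (hX i) hN.le
  have h3 : (av fun i => (X i / N) ^ E) ≤ av fun i => (av fun j => Y i j) / N := av_mono h
  have h4 : (av fun i => (av fun j => Y i j) / N) = (av fun j => av fun i => Y i j) / N := by
    rw [av_div, av_comm]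
  rw [h1]
  exact h2.trans (h3.trans h4.le)

/-- **The inequality in the step.** `A8_common` twice and `A7b` once. Data: for every `i'` a family
`δ1 i' : Fin n2 → J1 → Dir G` (result of `T_p` in the index `i` with the `q + 1` extras `(α_p(i')).sub (α_p(i))`, `γ(i)`), for every `j ∈ J1` a
family `δ2 j : Fin n3 → J2 → Dir G` (result of `T_p` in the index `i'` with the `q + n2` extras `γ(i')`, `δ1 i' k j`).
Proof. Write `A i = ofFn (α_l i, l < p)`, `Γ i = ofFn (γ_l i)`, `a i = α_p(i)` (`α (Fin.last p)`), `e i' i = (a i').sub (a i)`.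
`ofFn (α i) ++ Γ i` is a permutation of `a i :: (A i ++ Γ i)` (`List.ofFn_succ'`, `NN_perm`). `A7b` with `β i = A i ++ Γ i` (length `p + q`), exponent
`2 ^ (2 (p + q) + 1)`: average over `(i, i')` of `NN (e i' i :: ((A i ++ Γ i) ++ (A i' ++ Γ i')))`; by `NN_perm` it is
`NN ((A i' ++ Γ i') ++ (A i ++ ofFn (Fin.cons (e i' i) (γ i))))`. For fixed `i'`: `A8_common` with `h1 i'`: exponent `E2`, average over `j ∈ J1` of
`NN ((A i' ++ Γ i') ++ ofFn (δ1 i' · j))`, which is by `NN_perm` / append `NN (A i' ++ ofFn (Fin.append (γ i') (δ1 i' · j)))`. For fixed `j` `h2 j`: exponent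
`E3`. Between the steps `av_prod`, `av_comm`, `av_pow` (`(av X) ^ E ≤ av (X ^ E)`), everything is `≥ 0`. -/
theorem A9_ineq (p q E2 n2 E3 n3 : ℕ) {I J1 J2 : Type} [Fintype I] [Nonempty I] [Fintype J1] [Nonempty J1] [Fintype J2]
    [Nonempty J2] {G : Type} [AddCommGroup G] [Fintype G] (N : ℝ) (hN : 0 < N) (α : Fin (p + 1) → I → Dir G)
    (γ : Fin q → I → Dir G) (δ1 : I → Fin n2 → J1 → Dir G) (δ2 : J1 → Fin n3 → J2 → Dir G)
    (h1 : ∀ (i' : I) (f : G → ℂ), FN N f → ((av fun i => NN (List.ofFn (fun l : Fin p => α l.castSucc i) ++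
      List.ofFn (Fin.cons ((α (Fin.last p) i').sub (α (Fin.last p) i)) (fun l => γ l i) : Fin (q + 1) → Dir G)) f) / N) ^ E2 ≤
        (av fun j => NN (List.ofFn fun k => δ1 i' k j) f) / N)
    (h2 : ∀ (j : J1) (f : G → ℂ), FN N f → ((av fun i' => NN (List.ofFn (fun l : Fin p => α l.castSucc i') ++
      List.ofFn (Fin.append (fun l => γ l i') (fun k => δ1 i' k j) : Fin (q + n2) → Dir G)) f) / N) ^ E3 ≤
        (av fun j' => NN (List.ofFn fun k => δ2 j k j') f) / N)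
    (f : G → ℂ) (hf : FN N f) :
    ((av fun i => NN (List.ofFn (fun l => α l i) ++ List.ofFn (fun l => γ l i)) f) / N) ^ (2 ^ (2 * (p + q) + 1) * E2 * E3) ≤
      (av fun x : J1 × J2 => NN (List.ofFn fun k => δ2 x.1 k x.2) f) / N := by
  -- notation
  set A : I → List (Dir G) := fun i => List.ofFn (fun l : Fin p => α l.castSucc i) with hA
  set Γ : I → List (Dir G) := fun i => List.ofFn (fun l => γ l i) with hΓ
  have hlen : ∀ i, (A i ++ Γ i).length = p + q := by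
    intro i
    rw [List.length_append, hA, hΓ]
    simp only [List.length_ofFn]
  -- step 0
  have e0 : (av fun i => NN (List.ofFn (fun l => α l i) ++ List.ofFn (fun l => γ l i)) f) =
      av fun i => NN (α (Fin.last p) i :: (A i ++ Γ i)) f := by
    congr 1
    funext i
    rw [a9a_ofFn (fun l => α l i)]
    exact NN_perm (a9a_perm1 _ _ _) f
  -- step 1
  have s1 := A7b N hN (p + q) (fun i => α (Fin.last p) i) (fun i => A i ++ Γ i) hlen f hf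
  -- step 2
  have e1 : (av fun x : I × I => NN ((α (Fin.last p) x.2).sub (α (Fin.last p) x.1) ::
      ((A x.1 ++ Γ x.1) ++ (A x.2 ++ Γ x.2))) f) = av fun i' => av fun i =>
        NN ((A i' ++ Γ i') ++ (A i ++ List.ofFn (Fin.cons ((α (Fin.last p) i').sub (α (Fin.last p) i))
          (fun l => γ l i) : Fin (q + 1) → Dir G))) f := by
    rw [av_prod, av_comm]
    congr 1
    funext i'
    congr 1
    funext i
    rw [List.ofFn_succ (f := (Fin.cons ((α (Fin.last p) i').sub (α (Fin.last p) i))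
          (fun l => γ l i) : Fin (q + 1) → Dir G))]
    simp only [Fin.cons_zero, Fin.cons_succ]
    exact NN_perm (a9a_perm2 _ _ _ _ _) f
  have s2 := a9a_step hN E2 (fun i' => av fun i =>
        NN ((A i' ++ Γ i') ++ (A i ++ List.ofFn (Fin.cons ((α (Fin.last p) i').sub (α (Fin.last p) i))
          (fun l => γ l i) : Fin (q + 1) → Dir G))) f)
    (fun i' j => NN ((A i' ++ Γ i') ++ List.ofFn fun k => δ1 i' k j) f)
    (fun i' => av_nonneg fun i => NN_nonneg _ _)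
    (fun i' => A8_common hN E2 (fun i => A i ++ List.ofFn (Fin.cons ((α (Fin.last p) i').sub (α (Fin.last p) i))
          (fun l => γ l i) : Fin (q + 1) → Dir G)) (fun j => List.ofFn fun k => δ1 i' k j) (h1 i')
      (A i' ++ Γ i') f hf)
  -- step 3
  have e2 : ∀ j, (av fun i' => NN ((A i' ++ Γ i') ++ List.ofFn fun k => δ1 i' k j) f) =
      av fun i' => NN (List.ofFn (fun l : Fin p => α l.castSucc i') ++
      List.ofFn (Fin.append (fun l => γ l i') (fun k => δ1 i' k j) : Fin (q + n2) → Dir G)) f := by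
    intro j
    congr 1
    funext i'
    rw [List.ofFn_fin_append, List.append_assoc]
  have s3 := a9a_step hN E3 (fun j => av fun i' => NN ((A i' ++ Γ i') ++ List.ofFn fun k => δ1 i' k j) f)
    (fun j j' => NN (List.ofFn fun k => δ2 j k j') f)
    (fun j => av_nonneg fun i' => NN_nonneg _ _)
    (fun j => by
      rw [e2 j]
      exact h2 j f hf)
  have e3 : (av fun x : J1 × J2 => NN (List.ofFn fun k => δ2 x.1 k x.2) f) =
      av fun j' => av fun j => NN (List.ofFn fun k => δ2 j k j') f := by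
    rw [av_prod, av_comm]
  -- together
  have p0 : 0 ≤ (av fun i => NN (α (Fin.last p) i :: (A i ++ Γ i)) f) / N :=
    div_nonneg (av_nonneg fun i => NN_nonneg _ _) hN.le
  rw [e0, e3, pow_mul, pow_mul]
  rw [e1] at s1
  refine le_trans (pow_le_pow_left₀ (pow_nonneg (pow_nonneg p0 _) _) ?_ E3) s3
  exact le_trans (pow_le_pow_left₀ (pow_nonneg p0 _) s1 E2) s2

end Pool.Agent.HPP
end

-- from Lib.HPP.A9
section

/-!
# Project HPP, A9 (M): the statement `T_p`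
-/

open Finset

namespace Pool.Agent.HPP

/-- The case without pure directions: `J = I`, `δ = γ`, `E = 1`, `n = q`, `C = 1`. -/
theorem A9_zero (q : ℕ) : TP 0 q 1 q 1 := by
  intro I hI1 hI2
  refine ⟨I, hI1, hI2, fun G _ _ α γ => ⟨γ, fun N f hN hf => ?_, fun χ B B' hB hB' _ hγ k => ?_⟩⟩
  · simp only [List.ofFn_zero, List.nil_append, pow_one]
    exact le_rfl
  · have h1 := hγ k
    have h2 : 0 ≤ B ^ 2 := sq_nonneg B
    linarith

/-- **The step.** `choose` the data for every `i'` and every `j` (the type `J1` does not depend on `i'`: in `TP` it is chosen before `α, γ`), `J = J1 × J2`,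
`δ k x = δ2 x.1 k x.2`, `A9_ineq`, `A9_four`. The extras of the second application as functions of `i'`: `Fin.append γ (fun k i' => δ1 i' k j)`
(rewrite `Fin.append` at a point by `Fin.addCases` / `funext`). -/
theorem A9_step (p q E2 n2 E3 n3 : ℕ) (C2 C3 : ℝ) (hC2 : 0 ≤ C2) (hC3 : 0 ≤ C3) (h2 : TP p (q + 1) E2 n2 C2)
    (h3 : TP p (q + n2) E3 n3 C3) : TP (p + 1) q (2 ^ (2 * (p + q) + 1) * E2 * E3) n3 (C3 * (1 + 2 * n2 * C2)) := by
  intro I hI1 hI2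
  obtain ⟨J1, hJ1, hJ1', H1⟩ := h2 I
  obtain ⟨J2, hJ2, hJ2', H2⟩ := h3 I
  refine ⟨J1 × J2, inferInstance, inferInstance, fun G _ _ α γ => ?_⟩
  have K1 := fun i' : I => H1 G (fun l : Fin p => α l.castSucc)
    (fun (l : Fin (q + 1)) (i : I) => (Fin.cons ((α (Fin.last p) i').sub (α (Fin.last p) i)) (fun l => γ l i) :
      Fin (q + 1) → Dir G) l)
  choose δ1 hδ1 hδ1' using K1
  have K2 := fun j : J1 => H2 G (fun l : Fin p => α l.castSucc)
    (fun (l : Fin (q + n2)) (i' : I) => (Fin.append (fun l => γ l i') (fun k => δ1 i' k j) : Fin (q + n2) → Dir G) l)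
  choose δ2 hδ2 hδ2' using K2
  refine ⟨fun k x => δ2 x.1 k x.2, fun N f hN hf => ?_, fun χ B B' hB hB' hα hγ k => ?_⟩
  · exact A9_ineq p q E2 n2 E3 n3 N hN α γ δ1 δ2 (fun i' f hf => hδ1 i' N f hN hf) (fun j f hf => hδ2 j N f hN hf) f hf
  · exact A9_four p q n2 n3 C2 C3 hC2 hC3 α γ δ1 δ2 χ (fun i' B B' hB hB' ha hc k => hδ1' i' χ B B' hB hB' ha hc k)
      (fun j B B' hB hB' ha hc k => hδ2' j χ B B' hB hB' ha hc k) B B' hB hB' hα hγ k

/-- **T_p for all `p`, `q`.** Induction on `p` (for all `q`). -/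
theorem A9_all (p : ℕ) : ∀ q : ℕ, ∃ (E n : ℕ) (C : ℝ), 0 < E ∧ 0 ≤ C ∧ TP p q E n C := by
  induction p with
  | zero => exact fun q => ⟨1, q, 1, one_pos, zero_le_one, A9_zero q⟩
  | succ p ih =>
    intro q
    obtain ⟨E2, n2, C2, hE2, hC2, h2⟩ := ih (q + 1)
    obtain ⟨E3, n3, C3, hE3, hC3, h3⟩ := ih (q + n2)
    exact ⟨2 ^ (2 * (p + q) + 1) * E2 * E3, n3, C3 * (1 + 2 * n2 * C2), by positivity, by positivity,
      A9_step p q E2 n2 E3 n3 C2 C3 hC2 hC3 h2 h3⟩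

end Pool.Agent.HPP
end

-- from Lib.HPP.A10
section

/-!
# Project HPP, A10 (S/M): the iterated concatenation
-/

open Finset

namespace Pool.Agent.HPP

/-- **CONC.** Proof. Induction on `ν` (for all `p`). `ν = 0`: `J = I`, `δ = α`, `E = 1`, `C = 1` (`B ^ 1 = B`). Step: `A9_all p 0`
gives `E1, n1, C1`, `J1`, `δ1` (no extras, `B' = 0`, `List.ofFn` of a function on `Fin 0` is `[]`): averages `≤ C1 B²`; the induction hypothesis for `p := n1`,
`I := J1`, `α := δ1`, `B := C1 B²` gives `≤ C2 (C1 B²) ^ (2 ^ ν) = C2 C1 ^ (2 ^ ν) B ^ (2 ^ (ν + 1))`; exponents multiply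
(`x ^ (E1 E2) = (x ^ E1) ^ E2 ≤ (av ..) ^ E2`). -/
theorem A10_conc (ν : ℕ) : ∀ p : ℕ, ∃ (E n : ℕ) (C : ℝ), 0 < E ∧ 0 ≤ C ∧ TN p ν E n C := by
  induction ν with
  | zero =>
    intro p
    refine ⟨1, p, 1, one_pos, zero_le_one, fun I hI1 hI2 => ⟨I, hI1, hI2, fun G _ _ α => ⟨α, fun N f hN hf => ?_,
      fun χ B hB hα k => ?_⟩⟩⟩
    · rw [pow_one]
    · rw [pow_zero, pow_one, one_mul]
      exact hα k
  | succ ν ih =>
    intro p
    obtain ⟨E1, n1, C1, hE1, hC1, h1⟩ := A9_all p 0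
    obtain ⟨E2, n2, C2, hE2, hC2, h2⟩ := ih n1
    refine ⟨E1 * E2, n2, C2 * C1 ^ (2 ^ ν), by positivity, by positivity, fun I hI1 hI2 => ?_⟩
    obtain ⟨J1, hJ1, hJ1', H1⟩ := h1 I
    obtain ⟨J2, hJ2, hJ2', H2⟩ := h2 J1
    refine ⟨J2, hJ2, hJ2', fun G _ _ α => ?_⟩
    obtain ⟨δ1, K1, K1'⟩ := H1 G α (fun l _ => l.elim0)
    obtain ⟨δ2, K2, K2'⟩ := H2 G δ1
    refine ⟨δ2, fun N f hN hf => ?_, fun χ B hB hα k => ?_⟩
    · have a1 := K1 N f hN hf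
      have a2 := K2 N f hN hf
      simp only [List.ofFn_zero, List.append_nil] at a1
      rw [pow_mul]
      refine le_trans ?_ a2
      refine pow_le_pow_left₀ (pow_nonneg (div_nonneg (av_nonneg fun i => NN_nonneg _ _) hN.le) _) a1 E2
    · have b1 := K1' χ B 0 hB le_rfl hα (fun l => l.elim0)
      have b2 := K2' χ (C1 * (B ^ 2 + 0)) (by positivity) b1 k
      refine b2.trans (le_of_eq ?_)
      rw [add_zero, mul_pow, ← pow_mul, mul_assoc]
      congr 3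
      ring

end Pool.Agent.HPP
end

-- from Lib.HPP.C4a
section

/-!
# Project HPP, C4a (M): products of differences, divisor bound
-/

open Finset

namespace Pool.Agent.HPP

/-- The law of a product of `d` differences: probability of the value `u`. -/
noncomputable def pv (X d : ℕ) (u : ℤ) : ℝ :=
  av fun P : Fin d → Iv X × Iv X => if ∏ i, (((P i).1 : ℤ) - ((P i).2 : ℤ)) = u then 1 else 0

/-- The average of a product of functions of independent variables. -/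
theorem av_pi_prod {d : ℕ} {α : Type*} [Fintype α] (g : Fin d → α → ℝ) :
    (av fun P : Fin d → α => ∏ i, g i (P i)) = ∏ i, av (g i) := by
  classical
  unfold av
  rw [Finset.prod_div_distrib, Finset.prod_univ_sum, Fintype.piFinset_univ]
  simp [Finset.card_univ]

/-- One difference: `P(k = v) ≤ 1 / X`. -/
theorem C4_one (X : ℕ) (hX : 0 < X) (v : ℤ) :
    (av fun p : Iv X × Iv X => if ((p.1 : ℤ) - (p.2 : ℤ)) = v then (1 : ℝ) else 0) ≤ 1 / X := by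
  have hcard : (Fintype.card (Iv X) : ℝ) = 2 * X + 1 := by
    rw [Fintype.card_coe, Int.card_Icc]
    have : ((X : ℤ) + 1 - -(X : ℤ)).toNat = 2 * X + 1 := by omega
    rw [this]
    push_cast
    ring
  rw [av_prod, av_comm]
  apply av_le
  intro y
  have hX' : (0 : ℝ) < X := by exact_mod_cast hX
  have h1 : (∑ x : Iv X, if ((x : ℤ) - (y : ℤ)) = v then (1 : ℝ) else 0) ≤ 1 := by
    rw [Finset.sum_boole]
    have : (Finset.univ.filter fun x : Iv X => ((x : ℤ) - (y : ℤ)) = v).card ≤ 1 := by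
      rw [Finset.card_le_one]
      intro a ha b hb
      rw [Finset.mem_filter] at ha hb
      apply Subtype.ext
      have h2 := ha.2
      have h3 := hb.2
      linarith
    exact_mod_cast this
  show (∑ x : Iv X, if ((x : ℤ) - (y : ℤ)) = v then (1 : ℝ) else 0) / (Fintype.card (Iv X) : ℝ) ≤ 1 / X
  rw [hcard]
  have h4 : (∑ x : Iv X, if ((x : ℤ) - (y : ℤ)) = v then (1 : ℝ) else 0) / (2 * X + 1 : ℝ) ≤ 1 / (2 * X + 1 : ℝ) := by
    gcongr
  refine h4.trans ?_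
  apply one_div_le_one_div_of_le hX'
  linarith

/-- The integers dividing `u`. -/
noncomputable def zdiv (u : ℤ) : Finset ℤ :=
  (u.natAbs.divisors.image fun n : ℕ => (n : ℤ)) ∪ (u.natAbs.divisors.image fun n : ℕ => -(n : ℤ))

theorem zdiv_card (u : ℤ) : (zdiv u).card ≤ 2 * u.natAbs.divisors.card := by
  unfold zdiv
  refine (Finset.card_union_le _ _).trans ?_
  have h1 := Finset.card_image_le (s := u.natAbs.divisors) (f := fun n : ℕ => (n : ℤ))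
  have h2 := Finset.card_image_le (s := u.natAbs.divisors) (f := fun n : ℕ => -(n : ℤ))
  omega

theorem mem_zdiv {u v : ℤ} (hu : u ≠ 0) (h : v ∣ u) : v ∈ zdiv u := by
  unfold zdiv
  rw [Finset.mem_union, Finset.mem_image, Finset.mem_image]
  have h1 : v.natAbs ∈ u.natAbs.divisors := by
    rw [Nat.mem_divisors]
    exact ⟨Int.natAbs_dvd_natAbs.2 h, Int.natAbs_ne_zero.2 hu⟩
  rcases Int.natAbs_eq v with h2 | h2
  · exact Or.inl ⟨v.natAbs, h1, h2.symm⟩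
  · exact Or.inr ⟨v.natAbs, h1, h2.symm⟩

/-- **C4a.** `u ≠ 0`: all factors divide `u`, `|u| ≤ (2X)^d`: at most `τ(|u|) ^ d 2 ^ d ≤ C X^ε` vectors `(k_i)`, each of probability `≤ X^(-d)`
(the pairs for different `i` are independent: `av` of a product). Divisor bound: e.g. `Pool.Agent.Lib...` (grep `card_divisors_le` / `tau_le`). -/
theorem C4_ne (d : ℕ) (ε : ℝ) (hε : 0 < ε) : ∃ C : ℝ, 0 ≤ C ∧ ∀ X : ℕ, 0 < X → ∀ u : ℤ, u ≠ 0 →
    pv X d u ≤ C * (X : ℝ) ^ (ε - d) := by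
  obtain ⟨η, hη⟩ : ∃ η : ℝ, η = ε / ((d : ℝ) ^ 2 + 1) := ⟨_, rfl⟩
  have hd0 : (0 : ℝ) ≤ (d : ℝ) ^ 2 := by positivity
  have hη0 : 0 < η := by rw [hη]; positivity
  obtain ⟨C0, hC0, hdb⟩ := Pool.Agent.Lib.H21AP.divisor_bound hη0
  refine ⟨(2 * C0) ^ d * 2 ^ ε, by positivity, ?_⟩
  intro X hX u hu
  have hX' : (1 : ℝ) ≤ X := by exact_mod_cast hX
  have hX0 : (0 : ℝ) < X := by linarith
  by_cases hbig : (2 * X) ^ d < u.natAbs
  · -- the value is too large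
    have h0 : pv X d u = 0 := by
      unfold pv av
      rw [Finset.sum_eq_zero, zero_div]
      intro P _
      rw [if_neg]
      intro h
      have h1 : u.natAbs ≤ (2 * X) ^ d := by
        have hna : ∀ (s : Finset (Fin d)) (g : Fin d → ℤ), (∏ i ∈ s, g i).natAbs = ∏ i ∈ s, (g i).natAbs :=
          fun s g => map_prod Int.natAbsHom g s
        rw [← h, hna]
        calc ∏ i, (((P i).1 : ℤ) - ((P i).2 : ℤ)).natAbs ≤ ∏ _i : Fin d, (2 * X) := by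
              apply Finset.prod_le_prod' 
              intro i _
              have h2 := Finset.mem_Icc.1 (P i).1.2
              have h3 := Finset.mem_Icc.1 (P i).2.2
              omega
          _ = (2 * X) ^ d := by simp
      omega
    rw [h0]
    positivity
  · push Not at hbig
    have hle : pv X d u ≤ ∑ v ∈ Fintype.piFinset fun _ : Fin d => zdiv u, (1 / (X : ℝ)) ^ d := by
      calc pv X d u ≤ av fun P : Fin d → Iv X × Iv X => ∑ v ∈ Fintype.piFinset fun _ : Fin d => zdiv u,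
            ∏ i, (if (((P i).1 : ℤ) - ((P i).2 : ℤ)) = v i then (1 : ℝ) else 0) := by
            unfold pv
            apply av_mono
            intro P
            split_ifs with h
            · have hmem : (fun i => (((P i).1 : ℤ) - ((P i).2 : ℤ))) ∈ Fintype.piFinset fun _ : Fin d => zdiv u := by
                rw [Fintype.mem_piFinset]
                intro i
                apply mem_zdiv hu
                rw [← h]
                exact Finset.dvd_prod_of_mem _ (Finset.mem_univ i)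
              have h1 := Finset.single_le_sum (f := fun v : Fin d → ℤ =>
                ∏ i, (if (((P i).1 : ℤ) - ((P i).2 : ℤ)) = v i then (1 : ℝ) else 0))
                (fun v _ => Finset.prod_nonneg fun i _ => by split_ifs <;> norm_num) hmem
              refine le_trans ?_ h1
              simp
            · apply Finset.sum_nonneg
              intro v _
              apply Finset.prod_nonneg
              intro i _
              split_ifs <;> norm_num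
        _ = ∑ v ∈ Fintype.piFinset fun _ : Fin d => zdiv u, ∏ i, av fun p : Iv X × Iv X =>
            (if ((p.1 : ℤ) - (p.2 : ℤ)) = v i then (1 : ℝ) else 0) := by
            rw [av_sum]
            apply Finset.sum_congr rfl
            intro v _
            exact av_pi_prod fun i (p : Iv X × Iv X) => (if ((p.1 : ℤ) - (p.2 : ℤ)) = v i then (1 : ℝ) else 0)
        _ ≤ _ := by
            apply Finset.sum_le_sum
            intro v _
            calc _ ≤ ∏ _i : Fin d, (1 / (X : ℝ)) := by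
                  apply Finset.prod_le_prod
                  · intro i _
                    apply av_nonneg
                    intro p
                    split_ifs <;> norm_num
                  · intro i _
                    exact C4_one X hX (v i)
              _ = (1 / (X : ℝ)) ^ d := by simp
    refine hle.trans ?_
    rw [Finset.sum_const, nsmul_eq_mul, Fintype.card_piFinset]
    have hu1 : 1 ≤ u.natAbs := Nat.one_le_iff_ne_zero.2 (Int.natAbs_ne_zero.2 hu)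
    have h2 : ((zdiv u).card : ℝ) ≤ (2 * C0) * (((2 * X : ℕ) : ℝ) ^ d) ^ η := by
      have h3 : ((zdiv u).card : ℝ) ≤ 2 * (u.natAbs.divisors.card : ℝ) := by exact_mod_cast zdiv_card u
      have h4 := hdb u.natAbs hu1
      have h5 : ((u.natAbs : ℕ) : ℝ) ^ η ≤ (((2 * X : ℕ) : ℝ) ^ d) ^ η := by
        apply Real.rpow_le_rpow (by positivity) _ hη0.le
        exact_mod_cast hbig
      nlinarith
    have h6 : ((((zdiv u).card : ℕ) : ℝ)) ^ d ≤ ((2 * C0) * (((2 * X : ℕ) : ℝ) ^ d) ^ η) ^ d :=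
      pow_le_pow_left₀ (Nat.cast_nonneg _) h2 d
    have h7 : ((((2 * X : ℕ) : ℝ) ^ d) ^ η) ^ d ≤ 2 ^ ε * (X : ℝ) ^ ε := by
      rw [← Real.mul_rpow (by norm_num) hX0.le]
      rw [← Real.rpow_natCast, ← Real.rpow_natCast, ← Real.rpow_mul (by positivity), ← Real.rpow_mul (by positivity)]
      push_cast
      apply Real.rpow_le_rpow_of_exponent_le (by linarith)
      rw [hη]
      have h12 : (d : ℝ) * (ε / ((d : ℝ) ^ 2 + 1) * d) = (d : ℝ) ^ 2 * ε / ((d : ℝ) ^ 2 + 1) := by ring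
      rw [h12, div_le_iff₀ (by positivity)]
      nlinarith
    have h8 : (1 / (X : ℝ)) ^ d = (X : ℝ) ^ (-(d : ℝ)) := by
      rw [one_div, Real.rpow_neg hX0.le, Real.rpow_natCast, inv_pow]
    have h9 : (X : ℝ) ^ (ε - d) = (X : ℝ) ^ ε * (X : ℝ) ^ (-(d : ℝ)) := by
      rw [← Real.rpow_add hX0]
      congr 1
    rw [Finset.prod_const, Finset.card_univ, Fintype.card_fin, Nat.cast_pow, h8, h9]
    have h10 : (0 : ℝ) ≤ (X : ℝ) ^ (-(d : ℝ)) := by positivity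
    have h11 : ((((zdiv u).card : ℕ) : ℝ)) ^ d ≤ (2 * C0) ^ d * (2 ^ ε * (X : ℝ) ^ ε) := by
      refine h6.trans ?_
      rw [mul_pow]
      gcongr
    calc ((((zdiv u).card : ℕ) : ℝ)) ^ d * (X : ℝ) ^ (-(d : ℝ)) ≤
        ((2 * C0) ^ d * (2 ^ ε * (X : ℝ) ^ ε)) * (X : ℝ) ^ (-(d : ℝ)) := by gcongr
      _ = _ := by ring

/-- **C4b.** `u = 0`: one factor vanishes. -/
theorem C4_zero (X d : ℕ) (hX : 0 < X) : pv X d 0 ≤ d / X := by
  classical
  calc pv X d 0 ≤ av fun P : Fin d → Iv X × Iv X => ∑ i : Fin d,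
        (if (((P i).1 : ℤ) - ((P i).2 : ℤ)) = 0 then (1 : ℝ) else 0) := by
        unfold pv
        apply av_mono
        intro P
        split_ifs with h
        · rw [Finset.prod_eq_zero_iff] at h
          obtain ⟨i, _, hi⟩ := h
          have h1 := Finset.single_le_sum (f := fun i : Fin d =>
            (if (((P i).1 : ℤ) - ((P i).2 : ℤ)) = 0 then (1 : ℝ) else 0))
            (fun v _ => by split_ifs <;> norm_num) (Finset.mem_univ i)
          refine le_trans ?_ h1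
          simp [hi]
        · apply Finset.sum_nonneg
          intro v _
          split_ifs <;> norm_num
    _ = ∑ i : Fin d, av fun P : Fin d → Iv X × Iv X =>
        (if (((P i).1 : ℤ) - ((P i).2 : ℤ)) = 0 then (1 : ℝ) else 0) := av_sum _ _
    _ ≤ ∑ _i : Fin d, (1 / (X : ℝ)) := by
        apply Finset.sum_le_sum
        intro i _
        have h1 : (av fun P : Fin d → Iv X × Iv X =>
            (if (((P i).1 : ℤ) - ((P i).2 : ℤ)) = 0 then (1 : ℝ) else 0)) =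
            ∏ j : Fin d, av fun p : Iv X × Iv X =>
              (if j = i then (if ((p.1 : ℤ) - (p.2 : ℤ)) = 0 then (1 : ℝ) else 0) else 1) := by
          rw [← av_pi_prod fun j (p : Iv X × Iv X) =>
              (if j = i then (if ((p.1 : ℤ) - (p.2 : ℤ)) = 0 then (1 : ℝ) else 0) else 1)]
          congr 1
          funext P
          rw [Finset.prod_ite_eq' Finset.univ i]
          simp
        rw [h1, ← Finset.mul_prod_erase Finset.univ _ (Finset.mem_univ i)]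
        rw [Finset.prod_eq_one]
        · simp only [if_true, mul_one]
          exact C4_one X hX 0
        · intro j hj
          simp only [if_neg (Finset.ne_of_mem_erase hj)]
          exact av_const (1 : ℝ)
    _ = d / X := by
        rw [Finset.sum_const, Finset.card_univ, Fintype.card_fin, nsmul_eq_mul]
        ring

end Pool.Agent.HPP
end

-- from Lib.HPP.C4
section

/-!
# Project HPP, C4 (M): the sum of products; the mean over the characters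
-/

open Finset

namespace Pool.Agent.HPP

/-- The average of a product of complex functions of independent variables. -/
theorem avc_pi_prod {d : ℕ} {α : Type*} [Fintype α] (g : Fin d → α → ℂ) :
    (avc fun P : Fin d → α => ∏ i, g i (P i)) = ∏ i, avc (g i) := by
  classical
  unfold avc
  rw [Finset.prod_div_distrib, Finset.prod_univ_sum, Fintype.piFinset_univ]
  simp [Finset.card_univ]

/-- One product is nonzero and determined by the others. -/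
theorem C4_sum_aux (D : ℕ) (C ε : ℝ) (X : ℕ) (hC : 0 ≤ C)
    (hne : ∀ u : ℤ, u ≠ 0 → pv X D u ≤ C * (X : ℝ) ^ (ε - D)) (a : Fin D) :
    (av fun P : Fin D → Fin D → Iv X × Iv X => if (∏ i, (((P a i).1 : ℤ) - ((P a i).2 : ℤ)) ≠ 0 ∧
      ∑ a, ∏ i, (((P a i).1 : ℤ) - ((P a i).2 : ℤ)) = 0) then (1 : ℝ) else 0) ≤
      C * (X : ℝ) ^ (ε - D) := by
  classical
  have hnn : 0 ≤ C * (X : ℝ) ^ (ε - D) := by positivity
  obtain ⟨f, hf⟩ : ∃ f : (Fin D → Iv X × Iv X) → ℤ, ∀ x, f x = ∏ i, (((x i).1 : ℤ) - ((x i).2 : ℤ)) := ⟨_, fun _ => rfl⟩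
  have h1 : (av fun P : Fin D → Fin D → Iv X × Iv X => if (∏ i, (((P a i).1 : ℤ) - ((P a i).2 : ℤ)) ≠ 0 ∧
      ∑ a, ∏ i, (((P a i).1 : ℤ) - ((P a i).2 : ℤ)) = 0) then (1 : ℝ) else 0) =
      av fun p : (Fin D → Iv X × Iv X) × ({j : Fin D // j ≠ a} → (Fin D → Iv X × Iv X)) =>
        if (f p.1 ≠ 0 ∧ f p.1 + ∑ b, f (p.2 b) = 0) then (1 : ℝ) else 0 := by
    rw [← av_equiv (Equiv.funSplitAt a (Fin D → Iv X × Iv X))]
    congr 1
    funext P
    have h2 : ∑ a, ∏ i, (((P a i).1 : ℤ) - ((P a i).2 : ℤ)) =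
        f (P a) + ∑ b : {j : Fin D // j ≠ a}, f (P b) := by
      rw [Fintype.sum_eq_add_sum_subtype_ne (fun b => ∏ i, (((P b i).1 : ℤ) - ((P b i).2 : ℤ))) a]
      simp only [hf]
    rw [h2, ← hf]
    rfl
  rw [h1, av_prod, av_comm]
  apply av_le
  intro Q
  by_cases hQ : ∑ b, f (Q b) = 0
  · have h3 : (av fun x : Fin D → Iv X × Iv X => if (f x ≠ 0 ∧ f x + ∑ b, f (Q b) = 0) then (1 : ℝ) else 0) = 0 := by
      unfold av
      rw [Finset.sum_eq_zero, zero_div]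
      intro x _
      rw [if_neg]
      rintro ⟨h4, h5⟩
      rw [hQ, add_zero] at h5
      exact h4 h5
    exact h3.le.trans hnn
  · refine le_trans ?_ (hne (-∑ b, f (Q b)) (neg_ne_zero.2 hQ))
    unfold pv
    apply av_mono
    intro x
    split_ifs with h4 h5 h5
    · exact le_refl _
    · exfalso
      apply h5
      rw [← hf]
      linarith [h4.2]
    · norm_num
    · exact le_refl _

/-- **C4c. The sum of `D` independent products vanishes with probability `≤ C X^(ε - D)`.** Proof. If all products vanish: probability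
`(pv X D 0) ^ D ≤ (D / X) ^ D` (independence). Otherwise for some `a` the product number `a` is `≠ 0` and equal to minus the sum of the
others: for fixed others probability `≤ C X^(ε - D)` (`C4_ne`): in total `≤ D C X^(ε - D)`. -/
theorem C4_sum (D : ℕ) (hD : 1 ≤ D) (ε : ℝ) (hε : 0 < ε) : ∃ C : ℝ, 0 ≤ C ∧ ∀ X : ℕ, 0 < X →
    (av fun P : Fin D → Fin D → Iv X × Iv X => if ∑ a, ∏ i, (((P a i).1 : ℤ) - ((P a i).2 : ℤ)) = 0 then (1 : ℝ) else 0) ≤
      C * (X : ℝ) ^ (ε - D) := by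
  classical
  obtain ⟨C, hC, hne⟩ := C4_ne D ε hε
  refine ⟨(D : ℝ) ^ D + D * C, by positivity, ?_⟩
  intro X hX
  have hX' : (1 : ℝ) ≤ X := by exact_mod_cast hX
  have hX0 : (0 : ℝ) < X := by linarith
  have h1 : (av fun P : Fin D → Fin D → Iv X × Iv X =>
      if ∑ a, ∏ i, (((P a i).1 : ℤ) - ((P a i).2 : ℤ)) = 0 then (1 : ℝ) else 0) ≤
      av fun P : Fin D → Fin D → Iv X × Iv X =>
        (∏ a, if ∏ i, (((P a i).1 : ℤ) - ((P a i).2 : ℤ)) = 0 then (1 : ℝ) else 0) +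
        ∑ a, if (∏ i, (((P a i).1 : ℤ) - ((P a i).2 : ℤ)) ≠ 0 ∧
          ∑ a, ∏ i, (((P a i).1 : ℤ) - ((P a i).2 : ℤ)) = 0) then (1 : ℝ) else 0 := by
    apply av_mono
    intro P
    have h2 : (0 : ℝ) ≤ ∏ a, if ∏ i, (((P a i).1 : ℤ) - ((P a i).2 : ℤ)) = 0 then (1 : ℝ) else 0 :=
      Finset.prod_nonneg fun a _ => by split_ifs <;> norm_num
    have h3 : (0 : ℝ) ≤ ∑ a, if (∏ i, (((P a i).1 : ℤ) - ((P a i).2 : ℤ)) ≠ 0 ∧
          ∑ a, ∏ i, (((P a i).1 : ℤ) - ((P a i).2 : ℤ)) = 0) then (1 : ℝ) else 0 :=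
      Finset.sum_nonneg fun a _ => by split_ifs <;> norm_num
    split_ifs with h
    · by_cases h4 : ∀ a, ∏ i, (((P a i).1 : ℤ) - ((P a i).2 : ℤ)) = 0
      · have h5 : (∏ a, if ∏ i, (((P a i).1 : ℤ) - ((P a i).2 : ℤ)) = 0 then (1 : ℝ) else 0) = 1 := by
          apply Finset.prod_eq_one
          intro a _
          rw [if_pos (h4 a)]
        rw [h5]
        linarith
      · push Not at h4
        obtain ⟨a, ha⟩ := h4
        have h6 := Finset.single_le_sum (f := fun a : Fin D => if (∏ i, (((P a i).1 : ℤ) - ((P a i).2 : ℤ)) ≠ 0 ∧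
          ∑ a, ∏ i, (((P a i).1 : ℤ) - ((P a i).2 : ℤ)) = 0) then (1 : ℝ) else 0)
          (fun v _ => by split_ifs <;> norm_num) (Finset.mem_univ a)
        have h7 : (1 : ℝ) ≤ if (∏ i, (((P a i).1 : ℤ) - ((P a i).2 : ℤ)) ≠ 0 ∧
          ∑ a, ∏ i, (((P a i).1 : ℤ) - ((P a i).2 : ℤ)) = 0) then (1 : ℝ) else 0 := by
          rw [if_pos ⟨ha, h⟩]
        have h8 := h7.trans h6
        simp only [h, and_true] at h8 ⊢
        linarith
    · linarith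
  refine h1.trans ?_
  rw [av_add, av_sum]
  have h2 : (av fun P : Fin D → Fin D → Iv X × Iv X =>
      ∏ a, if ∏ i, (((P a i).1 : ℤ) - ((P a i).2 : ℤ)) = 0 then (1 : ℝ) else 0) ≤ (D : ℝ) ^ D * (X : ℝ) ^ (ε - D) := by
    rw [av_pi_prod fun _ (x : Fin D → Iv X × Iv X) => if ∏ i, (((x i).1 : ℤ) - ((x i).2 : ℤ)) = 0 then (1 : ℝ) else 0]
    rw [Finset.prod_const, Finset.card_univ, Fintype.card_fin]
    have h3 : (av fun x : Fin D → Iv X × Iv X => if ∏ i, (((x i).1 : ℤ) - ((x i).2 : ℤ)) = 0 then (1 : ℝ) else 0) ≤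
        (D : ℝ) / X := C4_zero X D hX
    have h4 : 0 ≤ (av fun x : Fin D → Iv X × Iv X => if ∏ i, (((x i).1 : ℤ) - ((x i).2 : ℤ)) = 0 then (1 : ℝ) else 0) :=
      av_nonneg fun x => by split_ifs <;> norm_num
    refine (pow_le_pow_left₀ h4 h3 D).trans ?_
    rw [div_pow, div_eq_mul_inv]
    have h5 : ((X : ℝ) ^ D)⁻¹ ≤ (X : ℝ) ^ (ε - D) := by
      rw [← Real.rpow_natCast, ← Real.rpow_neg hX0.le]
      apply Real.rpow_le_rpow_of_exponent_le hX'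
      linarith
    gcongr
  have h3 : ∑ a, (av fun P : Fin D → Fin D → Iv X × Iv X => if (∏ i, (((P a i).1 : ℤ) - ((P a i).2 : ℤ)) ≠ 0 ∧
      ∑ a, ∏ i, (((P a i).1 : ℤ) - ((P a i).2 : ℤ)) = 0) then (1 : ℝ) else 0) ≤ D * (C * (X : ℝ) ^ (ε - D)) := by
    calc _ ≤ ∑ _a : Fin D, (C * (X : ℝ) ^ (ε - D)) := by
          apply Finset.sum_le_sum
          intro a _
          exact C4_sum_aux D C ε X hC (hne X hX) a
      _ = _ := by rw [Finset.sum_const, Finset.card_univ, Fintype.card_fin, nsmul_eq_mul]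
  calc _ ≤ (D : ℝ) ^ D * (X : ℝ) ^ (ε - D) + D * (C * (X : ℝ) ^ (ε - D)) := add_le_add h2 h3
    _ = _ := by ring

/-- **C4d.** Proof. `KD_char`: `(KD D κ) ^ D = avc_{P : Fin D → Fin D → ..} χ(κ ∑_a ∏ ..)` (product of averages, `Finset.prod_univ_sum`; independence),
sum over `χ`: `AddChar.sum_apply_eq_ite`: `M` times the probability that `κ ∑_a ∏ = 0` in `ℤ/M`. As
`|κ ∑| ≤ |κ| D (2X)^D < M` and `κ ≠ 0` this means `∑ = 0`: `C4_sum`. -/
theorem C4_main (D : ℕ) (hD : 1 ≤ D) (ε : ℝ) (hε : 0 < ε) : ∃ C : ℝ, 0 ≤ C ∧ ∀ (M X : ℕ) [NeZero M] (κ : ℤ), 0 < X → κ ≠ 0 →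
    |κ| * D * (2 * X) ^ D < M → (∑ χ : AddChar (ZMod M) ℂ, KD X χ D κ ^ D) / M ≤ C * (X : ℝ) ^ (ε - D) := by
  classical
  obtain ⟨C, hC, hsum⟩ := C4_sum D hD ε hε
  refine ⟨C, hC, ?_⟩
  intro M X _ κ hX hκ hM
  refine le_trans (le_of_eq ?_) (hsum X hX)
  have hM0 : (M : ℂ) ≠ 0 := Nat.cast_ne_zero.2 (NeZero.ne M)
  have hprod : ∀ x : Fin D → Iv X × Iv X, |∏ i, (((x i).1 : ℤ) - ((x i).2 : ℤ))| ≤ (2 * X) ^ D := by
    intro x
    rw [Finset.abs_prod]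
    calc ∏ i, |((x i).1 : ℤ) - ((x i).2 : ℤ)| ≤ ∏ _i : Fin D, (2 * (X : ℤ)) := by
          apply Finset.prod_le_prod
          · intro i _
            exact abs_nonneg _
          · intro i _
            have h2 := Finset.mem_Icc.1 (x i).1.2
            have h3 := Finset.mem_Icc.1 (x i).2.2
            rw [abs_le]
            constructor <;> linarith [h2.1, h2.2, h3.1, h3.2]
      _ = _ := by simp
  have hiff : ∀ P : Fin D → Fin D → Iv X × Iv X,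
      (((κ * ∑ a, ∏ i, (((P a i).1 : ℤ) - ((P a i).2 : ℤ)) : ℤ) : ZMod M) = 0) ↔
        ∑ a, ∏ i, (((P a i).1 : ℤ) - ((P a i).2 : ℤ)) = 0 := by
    intro P
    constructor
    · intro h
      rw [ZMod.intCast_zmod_eq_zero_iff_dvd] at h
      have h1 : |κ * ∑ a, ∏ i, (((P a i).1 : ℤ) - ((P a i).2 : ℤ))| < M := by
        rw [abs_mul]
        refine lt_of_le_of_lt ?_ hM
        have h2 : |∑ a, ∏ i, (((P a i).1 : ℤ) - ((P a i).2 : ℤ))| ≤ D * (2 * X) ^ D := by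
          refine (Finset.abs_sum_le_sum_abs _ _).trans ?_
          calc _ ≤ ∑ _a : Fin D, ((2 * X) ^ D : ℤ) := Finset.sum_le_sum fun a _ => hprod (P a)
            _ = _ := by rw [Finset.sum_const, Finset.card_univ, Fintype.card_fin, nsmul_eq_mul]
        rw [mul_assoc]
        exact mul_le_mul_of_nonneg_left h2 (abs_nonneg κ)
      have h3 := Int.eq_zero_of_abs_lt_dvd h h1
      rcases mul_eq_zero.1 h3 with h4 | h4
      · exact absurd h4 hκ
      · exact h4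
    · intro h
      rw [h]
      simp
  have hchar : ∀ χ : AddChar (ZMod M) ℂ, ((KD X χ D κ ^ D : ℝ) : ℂ) =
      avc fun P : Fin D → Fin D → Iv X × Iv X =>
        χ ((κ * ∑ a, ∏ i, (((P a i).1 : ℤ) - ((P a i).2 : ℤ)) : ℤ) : ZMod M) := by
    intro χ
    rw [Complex.ofReal_pow, KD_char X χ D hD κ]
    have h1 := avc_pi_prod fun (_ : Fin D) (x : Fin D → Iv X × Iv X) =>
      χ ((κ * ∏ i, (((x i).1 : ℤ) - ((x i).2 : ℤ)) : ℤ) : ZMod M)
    rw [Finset.prod_const, Finset.card_univ, Fintype.card_fin] at h1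
    rw [← h1]
    congr 1
    funext P
    rw [Finset.mul_sum, Int.cast_sum]
    exact (map_prod χ.toMonoidHom _ _).symm
  have key : (((∑ χ : AddChar (ZMod M) ℂ, KD X χ D κ ^ D) / M : ℝ) : ℂ) =
      (((av fun P : Fin D → Fin D → Iv X × Iv X =>
        if ∑ a, ∏ i, (((P a i).1 : ℤ) - ((P a i).2 : ℤ)) = 0 then (1 : ℝ) else 0) : ℝ) : ℂ) := by
    rw [av_ofReal]
    push_cast
    simp only [← Complex.ofReal_pow]
    rw [Finset.sum_congr rfl fun χ _ => hchar χ, ← avc_sum, div_eq_mul_inv, ← avc_mul_right]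
    congr 1
    funext P
    rw [AddChar.sum_apply_eq_ite, ZMod.card]
    by_cases h : ∑ a, ∏ i, (((P a i).1 : ℤ) - ((P a i).2 : ℤ)) = 0
    · rw [if_pos ((hiff P).2 h), if_pos h]
      rw [mul_inv_cancel₀ hM0]
      simp
    · rw [if_neg (fun h' => h ((hiff P).1 h')), if_neg h]
      simp
  exact_mod_cast key

end Pool.Agent.HPP
end

-- from Lib.HPP.B7
section

/-!
# Project HPP, B7 (S/M): the step of the complete elimination, energy
-/

open Finset Polynomial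

namespace Pool.Agent.HPP

/-- **B7b.** Proof. Let `κ', j'` be those of `k` for `d`, `s = j' + 1` (`1 ≤ s < 2 ^ lab.length`), `i` with `s.testBit i` (then
`i < lab.length`), `j = lab i`, `κ = κ' (d + 1)`. `AL_add`: the left side is `AL_{l1} AL_{l2} KD 1 (c r'(l1) k l2) ≤
AL_{l1} (KD d (κ' r'_{j'}(l1))) ^ (1/2)^(d-1) ≤ (AL_{l1} KD d (κ' rn d lab r l1 s)) ^ (1/2)^(d-1)` (`C1_root`) and `C1_lin` bounds the average by
`(KD (d + 1) (κ r_j)) ^ (1/2)`. -/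
theorem B7_EP (d q ρ n : ℕ) (hd : 1 ≤ d) (lab : List ℕ) (hlab : ∀ k ∈ lab, k < q)
    (c : (Fin (2 ^ lab.length - 1) → ℤ) → Fin n → List ℤ → ℤ)
    (h2 : EP d (2 ^ lab.length - 1) ρ n c) : EP (d + 1) q (lab.length + ρ) n (cnew (q := q) d lab c) := by
  intro k
  obtain ⟨κ', hκ', j', hE⟩ := h2 k
  have hj' := j'.isLt
  have hslt : (j' : ℕ) + 1 < 2 ^ lab.length := by omega
  obtain ⟨i, hi⟩ : ∃ i, ((j' : ℕ) + 1).testBit i = true := Nat.exists_testBit_of_ne_zero (by omega)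
  have hil : i < lab.length := by
    by_contra hc
    push Not at hc
    have h3 : (j' : ℕ) + 1 < 2 ^ i := lt_of_lt_of_le hslt (Nat.pow_le_pow_right (by norm_num) hc)
    have h4 := Nat.testBit_lt_two_pow h3
    rw [hi] at h4
    exact Bool.noConfusion h4
  have hjq : lab.getD i 0 < q := by
    rw [List.getD_eq_getElem _ _ hil]
    exact hlab _ (List.getElem_mem hil)
  refine ⟨κ' * ((d : ℤ) + 1), mul_ne_zero hκ' (by omega), ⟨lab.getD i 0, hjq⟩, ?_⟩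
  intro M X _ χ r
  have hr : (List.ofFn r).getD (lab.getD i 0) 0 = r ⟨lab.getD i 0, hjq⟩ := by
    rw [List.getD_eq_getElem _ _ (by rw [List.length_ofFn]; exact hjq), List.getElem_ofFn]
  have e1 : (AL X (lab.length + ρ) fun l => KD X χ 1 (cnew (q := q) d lab c r k l)) =
      AL X lab.length fun l1 => AL X ρ fun l2 => KD X χ 1 (c (fun j => rn d lab r l1 (j + 1)) k l2) := by
    rw [AL_add]
    refine AL_congr X _ fun l1 hl1 => AL_congr X _ fun l2 _ => ?_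
    unfold cnew
    rw [List.take_left' hl1, List.drop_left' hl1]
  rw [e1]
  have e2 : (AL X lab.length fun l1 => AL X ρ fun l2 => KD X χ 1 (c (fun j => rn d lab r l1 (j + 1)) k l2)) ≤
      AL X lab.length fun l1 => (KD X χ d (κ' * rn d lab r l1 ((j' : ℕ) + 1))) ^ ((1 / 2 : ℝ) ^ (d - 1)) :=
    AL_mono X _ fun l1 _ => hE M X χ (fun j => rn d lab r l1 (j + 1))
  refine e2.trans ?_
  refine (C1_root X lab.length (d - 1) (F := fun l1 => KD X χ d (κ' * rn d lab r l1 ((j' : ℕ) + 1)))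
    fun l => KD_nonneg X χ d _).trans ?_
  have e3 := C1_lin X χ d hd lab r κ' ((j' : ℕ) + 1) i hil hi
  rw [hr] at e3
  have e4 : 0 ≤ AL X lab.length fun l => KD X χ d (κ' * rn d lab r l ((j' : ℕ) + 1)) :=
    AL_nonneg X _ fun l _ => KD_nonneg X χ d _
  refine (Real.rpow_le_rpow e4 e3 (by positivity)).trans (le_of_eq ?_)
  rw [← Real.rpow_mul (KD_nonneg X χ (d + 1) _)]
  congr 1
  rw [Nat.add_sub_cancel]
  obtain ⟨m, rfl⟩ : ∃ m, d = m + 1 := ⟨d - 1, by omega⟩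
  rw [Nat.add_sub_cancel, pow_succ]
  ring

/-- **B7c. PET and energy.** Induction on `d ≥ 1` (for all `q`): `B4_all`, `B6_FU`, `B6_EP`, `B7_FU`, `B7_EP`. -/
theorem B7_all (d : ℕ) (hd : 1 ≤ d) : ∀ q : ℕ, ∃ (ρ n E : ℕ) (K : ℝ) (c : (Fin q → ℤ) → Fin n → List ℤ → ℤ),
    0 < E ∧ 0 ≤ K ∧ FU d q ρ n E K c ∧ EP d q ρ n c := by
  induction d, hd using Nat.le_induction with
  | base =>
    intro q
    obtain ⟨lab, hlab, hKF⟩ := (B4_all 1).2 (List.replicate q 1)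
    rw [List.length_replicate] at hlab
    exact ⟨0, lab.length, 2 ^ lab.length, 3 ^ (2 ^ lab.length) * 2 ^ lab.length, _, by positivity, by positivity,
      B6_FU q lab hKF, B6_EP q lab hlab⟩
  | succ d hd ih =>
    intro q
    obtain ⟨lab, hlab, hKF⟩ := (B4_all (d + 1)).2 (List.replicate q 1)
    rw [List.length_replicate] at hlab
    obtain ⟨ρ, n, E, K, c, hE, hK, hFU, hEP⟩ := ih (2 ^ lab.length - 1)
    exact ⟨lab.length + ρ, n, 2 ^ lab.length * E, 3 ^ (2 ^ lab.length * E) * K, _, by positivity, by positivity,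
      B7_FU d q ρ n E K hK lab c hKF hFU, B7_EP d q ρ n hd lab hlab c hEP⟩

end Pool.Agent.HPP
end

-- from Lib.HPP.C6a
section

/-!
# Project HPP, C6a (M/L): PET and concatenation together
-/

open Finset Polynomial

namespace Pool.Agent.HPP


theorem c6a_pow (n m : ℕ) (b : Fin n → ℝ) (hb : ∀ k, 0 ≤ b k) (hm : 0 < m) :
    (∑ k, b k) ^ m ≤ (n : ℝ) ^ m * ∑ k, b k ^ m := by
  rcases Nat.eq_zero_or_pos n with rfl | hn
  · simp [hm.ne']
  · haveI : Nonempty (Fin n) := ⟨⟨0, hn⟩⟩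
    obtain ⟨k0, -, hk0⟩ := Finset.exists_max_image (Finset.univ : Finset (Fin n)) b Finset.univ_nonempty
    have h1 : ∑ k, b k ≤ n * b k0 := by
      have h2 := Finset.sum_le_card_nsmul (Finset.univ : Finset (Fin n)) b (b k0) (fun k _ => hk0 k (Finset.mem_univ k))
      rw [Finset.card_univ, Fintype.card_fin, nsmul_eq_mul] at h2
      exact h2
    have h3 : 0 ≤ ∑ k, b k := Finset.sum_nonneg fun k _ => hb k
    calc (∑ k, b k) ^ m ≤ (n * b k0) ^ m := pow_le_pow_left₀ h3 h1 m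
      _ = (n : ℝ) ^ m * b k0 ^ m := mul_pow _ _ _
      _ ≤ (n : ℝ) ^ m * ∑ k, b k ^ m := by
          apply mul_le_mul_of_nonneg_left _ (by positivity)
          exact Finset.single_le_sum (f := fun k => b k ^ m) (fun k _ => pow_nonneg (hb k) m) (Finset.mem_univ k0)

theorem c6a_exp (D : ℕ) (hD : 1 ≤ D) (x : ℝ) (hx : 0 ≤ x) (hx1 : x ≤ 1) :
    (x ^ ((1 / 2 : ℝ) ^ (D - 1))) ^ (2 ^ (2 * D - 1)) ≤ x ^ D := by
  have h1 : ((1 / 2 : ℝ) ^ (D - 1)) * ((2 ^ (2 * D - 1) : ℕ) : ℝ) = ((2 ^ D : ℕ) : ℝ) := by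
    obtain ⟨d, rfl⟩ : ∃ d, D = d + 1 := ⟨D - 1, by omega⟩
    have e1 : 2 * (d + 1) - 1 = d + (d + 1) := by omega
    rw [e1, Nat.add_sub_cancel]
    push_cast
    rw [pow_add (2 : ℝ) d (d + 1), ← mul_assoc, ← mul_pow]
    norm_num
  rw [← Real.rpow_mul_natCast hx, h1, Real.rpow_natCast]
  exact pow_le_pow_of_le_one hx hx1 (Nat.lt_two_pow_self).le

/-- **C6a.** After PET and `2 D - 1` concatenations. `n`, `E`, `K` depend only on `D` and `q`; `ks` are the numbers `κ r_j`.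
Proof. `B7_all` gives `ρ0, n0, E0, K0, c`; index type `I = Fin ρ0 → Iv X`, `α k v = cdir M X (c r k (List.ofFn v))`; `AL` is the average over `I`
(definition). `A10_conc (2 D - 1) n0`: `E1, n, C1`, `J`, `δ`. Inequality: `(K0 AL ..) ^ E1`. Fourier: by `EP`
`av_i ‖ft (α k i) χ‖² ≤ KD D (κ_k r_{j_k}) ^ ((1/2)^(D-1)) ≤ B := ∑_k KD D (κ_k r_{j_k}) ^ ((1/2)^(D-1))`, and
`B ^ (2 ^ (2 D - 1)) ≤ (n0) ^ (2 ^ (2 D - 1)) ∑_k KD ^ (2 ^ D) ≤ n0^.. ∑_k KD ^ D` (exponents: `(1/2)^(D-1) 2^(2D-1) = 2^D ≥ D`, `KD ≤ 1`;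
`inner_le_nnorm..` / `pow_sum_le`: `(∑_{k<n} x_k)^m ≤ n^m max ≤ n^m ∑ x_k^m`). -/
theorem C6_pre (D : ℕ) (hD : 1 ≤ D) (q : ℕ) : ∃ (n0 n E : ℕ) (K : ℝ) (κ : Fin n0 → ℤ) (jj : Fin n0 → Fin q), 0 < E ∧ 0 ≤ K ∧
    (∀ k, κ k ≠ 0) ∧ ∀ (X : ℕ), 0 < X → ∃ (J : Type) (_ : Fintype J) (_ : Nonempty J), ∀ (M : ℕ) [NeZero M] (r : Fin q → ℤ),
      ∃ δ : Fin n → J → Dir (ZMod M), (∀ (χ : AddChar (ZMod M) ℂ) (k : Fin n),
        (av fun j => ‖ft (δ k j) χ‖ ^ 2) ≤ K * ∑ i, KD X χ D (κ i * r (jj i)) ^ D) ∧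
      ∀ (N : ℝ), 0 < N → ∀ (f : Fin q → ZMod M → ℂ) (R : Fin q → ℤ[X]), (∀ j, FN N (f j) ∧ PD D (r j) (R j)) →
        ∀ f0 : ZMod M → ℂ, FN N f0 → ∀ a b : ℤ, 0 ≤ a → b ≤ X →
        (‖∑ t : ZMod M, ∑ n ∈ Ico a b, f0 t * ∏ j, f j (t + (((R j).eval n : ℤ) : ZMod M))‖ / (N * X)) ^ E ≤
          K * ((av fun j => NN (List.ofFn fun k => δ k j) f0) / N) := by
  obtain ⟨ρ0, n0, E0, K0, c, hE0, hK0, hFU, hEP⟩ := B7_all D hD q
  obtain ⟨E1, n, C1, hE1, hC1, hTN⟩ := A10_conc (2 * D - 1) n0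
  choose κ hκ jj hE using hEP
  refine ⟨n0, n, E0 * E1, K0 ^ E1 + C1 * (n0 : ℝ) ^ (2 ^ (2 * D - 1)), κ, jj, Nat.mul_pos hE0 hE1, by positivity, hκ, ?_⟩
  intro X hX
  obtain ⟨J, hJ1, hJ2, hJ⟩ := hTN (Fin ρ0 → Iv X)
  refine ⟨J, hJ1, hJ2, ?_⟩
  intro M _ r
  obtain ⟨δ, hδ1, hδ2⟩ := hJ (ZMod M) (fun k v => cdir M X (c r k (List.ofFn fun i => ((v i : Iv X) : ℤ))))
  refine ⟨δ, ?_, ?_⟩
  · intro χ k
    have hb : ∀ l : Fin n0, 0 ≤ (KD X χ D (κ l * r (jj l))) ^ ((1 / 2 : ℝ) ^ (D - 1)) :=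
      fun l => Real.rpow_nonneg (KD_nonneg X χ D _) _
    have hB : ∀ l : Fin n0, (av fun v : Fin ρ0 → Iv X =>
        ‖ft (cdir M X (c r l (List.ofFn fun i => ((v i : Iv X) : ℤ)))) χ‖ ^ 2) ≤
        ∑ l : Fin n0, (KD X χ D (κ l * r (jj l))) ^ ((1 / 2 : ℝ) ^ (D - 1)) := by
      intro l
      have h1 := hE l M X χ r
      unfold AL at h1
      have h2 : (av fun v : Fin ρ0 → Iv X =>
          ‖ft (cdir M X (c r l (List.ofFn fun i => ((v i : Iv X) : ℤ)))) χ‖ ^ 2) =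
          av fun v : Fin ρ0 → Iv X => KD X χ 1 (c r l (List.ofFn fun i => ((v i : Iv X) : ℤ))) := by
        congr 1
      rw [h2]
      refine h1.trans ?_
      exact Finset.single_le_sum (f := fun l => (KD X χ D (κ l * r (jj l))) ^ ((1 / 2 : ℝ) ^ (D - 1)))
        (fun l _ => hb l) (Finset.mem_univ l)
    have h3 := hδ2 χ _ (Finset.sum_nonneg fun l _ => hb l) hB k
    refine h3.trans ?_
    have h4 := c6a_pow n0 (2 ^ (2 * D - 1)) (fun l => (KD X χ D (κ l * r (jj l))) ^ ((1 / 2 : ℝ) ^ (D - 1))) hb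
      (by positivity)
    have h5 : ∑ l : Fin n0, ((KD X χ D (κ l * r (jj l))) ^ ((1 / 2 : ℝ) ^ (D - 1))) ^ (2 ^ (2 * D - 1)) ≤
        ∑ l : Fin n0, KD X χ D (κ l * r (jj l)) ^ D :=
      Finset.sum_le_sum fun l _ => c6a_exp D hD _ (KD_nonneg X χ D _) (KD_le X χ D _)
    have h6 : 0 ≤ ∑ l : Fin n0, KD X χ D (κ l * r (jj l)) ^ D :=
      Finset.sum_nonneg fun l _ => pow_nonneg (KD_nonneg X χ D _) D
    have h7 : (0 : ℝ) ≤ (n0 : ℝ) ^ (2 ^ (2 * D - 1)) := by positivity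
    calc C1 * (∑ l : Fin n0, (KD X χ D (κ l * r (jj l))) ^ ((1 / 2 : ℝ) ^ (D - 1))) ^ (2 ^ (2 * D - 1))
        ≤ C1 * ((n0 : ℝ) ^ (2 ^ (2 * D - 1)) *
          ∑ l : Fin n0, ((KD X χ D (κ l * r (jj l))) ^ ((1 / 2 : ℝ) ^ (D - 1))) ^ (2 ^ (2 * D - 1))) :=
          mul_le_mul_of_nonneg_left h4 hC1
      _ ≤ C1 * ((n0 : ℝ) ^ (2 ^ (2 * D - 1)) * ∑ l : Fin n0, KD X χ D (κ l * r (jj l)) ^ D) :=
          mul_le_mul_of_nonneg_left (mul_le_mul_of_nonneg_left h5 h7) hC1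
      _ = C1 * (n0 : ℝ) ^ (2 ^ (2 * D - 1)) * ∑ l : Fin n0, KD X χ D (κ l * r (jj l)) ^ D := by ring
      _ ≤ (K0 ^ E1 + C1 * (n0 : ℝ) ^ (2 ^ (2 * D - 1))) * ∑ l : Fin n0, KD X χ D (κ l * r (jj l)) ^ D := by
          apply mul_le_mul_of_nonneg_right _ h6
          have h8 : (0 : ℝ) ≤ K0 ^ E1 := by positivity
          linarith
  · intro N hN f R hf f0 hf0 a b ha hb
    have h1 := hFU M X N hX hN r f R hf f0 hf0 a b ha hb
    have h2 : (AL X ρ0 fun l => NN (List.ofFn fun k => cdir M X (c r k l)) f0 / N) =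
        (av fun v : Fin ρ0 → Iv X =>
          NN (List.ofFn fun k => cdir M X (c r k (List.ofFn fun i => ((v i : Iv X) : ℤ)))) f0) / N := by
      unfold AL
      exact av_div N _
    rw [h2] at h1
    have h3 := hδ1 N f0 hN hf0
    have hNN : ∀ L : List (Dir (ZMod M)), 0 ≤ NN L f0 := fun L => av_nonneg fun o => norm_nonneg _
    have h4 : 0 ≤ (av fun j => NN (List.ofFn fun k => δ k j) f0) / N :=
      div_nonneg (av_nonneg fun j => hNN _) hN.le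
    have h5 : 0 ≤ ‖∑ t : ZMod M, ∑ n ∈ Ico a b, f0 t * ∏ j, f j (t + (((R j).eval n : ℤ) : ZMod M))‖ / (N * X) := by
      positivity
    rw [pow_mul]
    refine (pow_le_pow_left₀ (pow_nonneg h5 _) h1 E1).trans ?_
    rw [mul_pow]
    calc K0 ^ E1 * ((av fun v : Fin ρ0 → Iv X =>
          NN (List.ofFn fun k => cdir M X (c r k (List.ofFn fun i => ((v i : Iv X) : ℤ)))) f0) / N) ^ E1
        ≤ K0 ^ E1 * ((av fun j => NN (List.ofFn fun k => δ k j) f0) / N) :=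
          mul_le_mul_of_nonneg_left h3 (by positivity)
      _ ≤ (K0 ^ E1 + C1 * (n0 : ℝ) ^ (2 ^ (2 * D - 1))) * ((av fun j => NN (List.ofFn fun k => δ k j) f0) / N) := by
          apply mul_le_mul_of_nonneg_right _ h4
          have h8 : (0 : ℝ) ≤ C1 * (n0 : ℝ) ^ (2 ^ (2 * D - 1)) := by positivity
          linarith

end Pool.Agent.HPP
end

-- from Lib.HPP.C6
section

/-!
# Project HPP, C6 (M): PET, concatenation and energy together
-/

open Finset Polynomial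

namespace Pool.Agent.HPP

/-- **C6b. Theorem P on `ℤ/M`.** Proof. `C6_pre`, `en_ft`, `C4_main` (with `κ i * r (jj i) ≠ 0`, `M` large): `av_j en (δ k j) ≤
K n0 C X^(ε - D)` for every `k`; `C3_markov` with `lam = X^(-D + 2 ε)`: first term `n K n0 C X^(-ε)`. -/
theorem C6_main (D : ℕ) (hD : 1 ≤ D) (q : ℕ) (Rm : ℕ) : ∃ (n E : ℕ), 0 < E ∧ ∀ ε : ℝ, 0 < ε → ∃ C : ℝ, 0 ≤ C ∧
    ∀ (M X : ℕ) [NeZero M] (N : ℝ), 0 < X → 0 < N → C * (X : ℝ) ^ D ≤ M →
    ∀ (r : Fin q → ℤ), (∀ j, r j ≠ 0) → (∀ j, |r j| ≤ Rm) → ∀ (f : Fin q → ZMod M → ℂ) (R : Fin q → ℤ[X]),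
      (∀ j, FN N (f j) ∧ PD D (r j) (R j)) → ∀ f0 : ZMod M → ℂ, FN N f0 → ∀ a b : ℤ, 0 ≤ a → b ≤ X →
        (‖∑ t : ZMod M, ∑ n ∈ Ico a b, f0 t * ∏ j, f j (t + (((R j).eval n : ℤ) : ZMod M))‖ / (N * X)) ^ E ≤
          C * ((X : ℝ) ^ (-ε) + (X : ℝ) ^ (n * (ε - D / 2)) * √(Gs (n + 1) f0) / N) := by
  classical
  obtain ⟨n0, n, E, K, κ, jj, hE, hK, hκ, hpre⟩ := C6_pre D hD q
  refine ⟨n, E, hE, fun ε hε => ?_⟩
  obtain ⟨C4, hC4, h4⟩ := C4_main D hD ε hε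
  obtain ⟨Km, hKm⟩ : ∃ Km : ℕ, ∀ i, |κ i| ≤ Km := by
    refine ⟨∑ i, (κ i).natAbs, fun i => ?_⟩
    rw [Int.abs_eq_natAbs]
    exact_mod_cast Finset.single_le_sum (f := fun i => (κ i).natAbs) (fun _ _ => Nat.zero_le _) (mem_univ i)
  obtain ⟨A, hA⟩ : ∃ A : ℝ, A = n * (K * (n0 * C4)) := ⟨_, rfl⟩
  have hA0 : 0 ≤ A := by rw [hA]; positivity
  obtain ⟨c, hc⟩ : ∃ c : ℕ, c = Km * Rm * D * 2 ^ D := ⟨_, rfl⟩
  refine ⟨K * (A + 1) + ((c : ℝ) + 1), by positivity, ?_⟩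
  intro M X _ N hX hN hM r hr hrR f R hf f0 hf0 a b ha hb
  obtain ⟨J, hJ1, hJ2, hJ⟩ := hpre X hX
  obtain ⟨δ, hδ1, hδ2⟩ := hJ M r
  have hX0 : (0 : ℝ) < X := by exact_mod_cast hX
  have hMpos : (0 : ℝ) < M := by exact_mod_cast NeZero.pos M
  have hKA : 0 ≤ K * (A + 1) := mul_nonneg hK (by linarith)
  have hcM : (c + 1) * X ^ D ≤ M := by
    have h1 : ((c : ℝ) + 1) * (X : ℝ) ^ D ≤ (K * (A + 1) + ((c : ℝ) + 1)) * (X : ℝ) ^ D :=
      mul_le_mul_of_nonneg_right (by linarith) (by positivity)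
    exact_mod_cast h1.trans hM
  have hsmall : ∀ i, |κ i * r (jj i)| * D * (2 * X) ^ D < (M : ℤ) := by
    intro i
    have h1 : |κ i * r (jj i)| ≤ (Km : ℤ) * Rm := by
      rw [abs_mul]
      exact mul_le_mul (hKm i) (hrR _) (abs_nonneg _) (by positivity)
    have h2 : |κ i * r (jj i)| * D * (2 * X) ^ D ≤ (Km : ℤ) * Rm * D * (2 * X) ^ D :=
      mul_le_mul_of_nonneg_right (mul_le_mul_of_nonneg_right h1 (by positivity)) (by positivity)
    have h3 : (Km : ℤ) * Rm * D * (2 * X) ^ D = ((c * X ^ D : ℕ) : ℤ) := by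
      rw [hc]
      push_cast
      rw [mul_pow]
      ring
    have h4 : c * X ^ D < M := by
      have h5 : 0 < X ^ D := pow_pos hX D
      have h6 : (c + 1) * X ^ D = c * X ^ D + X ^ D := by ring
      omega
    have h5 : ((c * X ^ D : ℕ) : ℤ) < M := by exact_mod_cast h4
    linarith
  have hen : ∀ k, (av fun j => en (δ k j)) ≤ K * (n0 * (C4 * (X : ℝ) ^ (ε - D))) := by
    intro k
    have h1 : (av fun j => en (δ k j)) = (∑ χ : AddChar (ZMod M) ℂ, av fun j => ‖ft (δ k j) χ‖ ^ 2) / M := by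
      rw [← av_sum, ← av_div]
      congr 1
      funext j
      rw [en_ft, ZMod.card]
    rw [h1, div_le_iff₀ hMpos]
    calc ∑ χ : AddChar (ZMod M) ℂ, (av fun j => ‖ft (δ k j) χ‖ ^ 2)
        ≤ ∑ χ : AddChar (ZMod M) ℂ, K * ∑ i, KD X χ D (κ i * r (jj i)) ^ D := sum_le_sum fun χ _ => hδ1 χ k
      _ = K * ∑ i, ∑ χ : AddChar (ZMod M) ℂ, KD X χ D (κ i * r (jj i)) ^ D := by
          rw [← mul_sum, sum_comm]
      _ ≤ K * ∑ _i : Fin n0, C4 * (X : ℝ) ^ (ε - D) * M := by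
          refine mul_le_mul_of_nonneg_left (sum_le_sum fun i _ => ?_) hK
          have h5 := h4 M X (κ i * r (jj i)) hX (mul_ne_zero (hκ i) (hr _)) (hsmall i)
          rwa [div_le_iff₀ hMpos] at h5
      _ = K * (n0 * (C4 * (X : ℝ) ^ (ε - D))) * M := by
          rw [sum_const, card_univ, Fintype.card_fin, nsmul_eq_mul]
          ring
  have hmk := C3_markov hN n δ ((X : ℝ) ^ (2 * ε - D)) (Real.rpow_pos_of_pos hX0 _) f0 hf0
  have hsq : √((X : ℝ) ^ (2 * ε - D)) ^ n = (X : ℝ) ^ (n * (ε - D / 2)) := by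
    rw [Real.sqrt_eq_rpow, ← Real.rpow_natCast, ← Real.rpow_mul hX0.le, ← Real.rpow_mul hX0.le]
    congr 1
    ring
  have hfirst : (∑ k, av fun j => en (δ k j)) / (X : ℝ) ^ (2 * ε - D) ≤ A * (X : ℝ) ^ (-ε) := by
    rw [div_le_iff₀ (Real.rpow_pos_of_pos hX0 _)]
    have h1 : (X : ℝ) ^ (-ε) * (X : ℝ) ^ (2 * ε - D) = (X : ℝ) ^ (ε - D) := by
      rw [← Real.rpow_add hX0]
      congr 1
      ring
    calc (∑ k, av fun j => en (δ k j)) ≤ ∑ _k : Fin n, K * (n0 * (C4 * (X : ℝ) ^ (ε - D))) :=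
          sum_le_sum fun k _ => hen k
      _ = A * (X : ℝ) ^ (ε - D) := by
          rw [sum_const, card_univ, Fintype.card_fin, nsmul_eq_mul, hA]
          ring
      _ = A * (X : ℝ) ^ (-ε) * (X : ℝ) ^ (2 * ε - D) := by rw [mul_assoc, h1]
  rw [hsq] at hmk
  have hu : 0 ≤ (X : ℝ) ^ (-ε) := by positivity
  obtain ⟨v, hv⟩ : ∃ v : ℝ, v = (X : ℝ) ^ (n * (ε - D / 2)) * √(Gs (n + 1) f0) / N := ⟨_, rfl⟩
  have hv0 : 0 ≤ v := by rw [hv]; positivity
  rw [← hv] at hmk ⊢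
  refine (hδ2 N hN f R hf f0 hf0 a b ha hb).trans ?_
  have h5 : K * ((av fun j => NN (List.ofFn fun k => δ k j) f0) / N) ≤ K * (A * (X : ℝ) ^ (-ε) + v) :=
    mul_le_mul_of_nonneg_left (by linarith) hK
  refine h5.trans ?_
  have h6 : K * (A * (X : ℝ) ^ (-ε) + v) ≤ K * ((A + 1) * ((X : ℝ) ^ (-ε) + v)) := by
    refine mul_le_mul_of_nonneg_left ?_ hK
    have h7 : 0 ≤ A * v := mul_nonneg hA0 hv0
    have h8 : (A + 1) * ((X : ℝ) ^ (-ε) + v) = A * (X : ℝ) ^ (-ε) + v + (A * v + (X : ℝ) ^ (-ε)) := by ring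
    linarith
  refine h6.trans ?_
  rw [← mul_assoc]
  refine mul_le_mul_of_nonneg_right ?_ (by linarith)
  have : (0 : ℝ) ≤ c := Nat.cast_nonneg c
  linarith

end Pool.Agent.HPP
end

-- from Lib.HPP.C7
section

/-!
# Project HPP, C7 (M): Theorem P on the integers
-/

open Finset Polynomial

namespace Pool.Agent.HPP

open Pool.Agent.HUK (DD DL DV bxS FF GG Bdd)

/-- **C7b. Theorem P.** Proof. `C6_main`; choose `M` larger than `C X^D`, `6 X1`, `2 |y|` for all `y` in the supports of the `f j`,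
and `2 |t + R_j(n)|` for `t ∈ [-X1, X1)`, `0 ≤ n < X`. Then `lft M (f j) (t + R_j(n)) = f j (t + R_j(n))` (`lft_val`), the sum is that on `ℤ/M`
(`lft_sum`), `C7_Gs`. -/
theorem C7_P (D : ℕ) (hD : 1 ≤ D) (q : ℕ) (Rm : ℕ) : ∃ (n E : ℕ), 0 < E ∧ ∀ ε : ℝ, 0 < ε → ∃ C : ℝ, 0 ≤ C ∧
    ∀ (X X1 : ℕ) (N : ℝ), 0 < X → 0 < X1 → 0 < N →
    ∀ (r : Fin q → ℤ), (∀ j, r j ≠ 0) → (∀ j, |r j| ≤ Rm) → ∀ (f : Fin q → ℤ → ℂ) (R : Fin q → ℤ[X]),
      (∀ j, FN N (f j) ∧ PD D (r j) (R j)) → ∀ f0 : ℤ → ℂ, FN N f0 → Bdd X1 f0 → ∀ a b : ℤ, 0 ≤ a → b ≤ X →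
        (‖∑ t ∈ Ico (-(X1 : ℤ)) X1, ∑ n ∈ Ico a b, f0 t * ∏ j, f j (t + (R j).eval n)‖ / (N * X)) ^ E ≤
          C * ((X : ℝ) ^ (-ε) + (X : ℝ) ^ (n * (ε - D / 2)) * √(GG X1 (n + 1) f0) / N) := by
  obtain ⟨n, E, hE, h⟩ := C6_main D hD q Rm
  refine ⟨n, E, hE, fun ε hε => ?_⟩
  obtain ⟨C, hC, h⟩ := h ε hε
  refine ⟨C, hC, ?_⟩
  intro X X1 N hX hX1 hN r hr hr' f R hf f0 hf0 hB a b ha hb
  obtain ⟨B, hBd⟩ : ∃ B : ℕ, B = ∑ j : Fin q, ∑ t ∈ Ico (-(X1 : ℤ)) X1, ∑ n ∈ Ico a b, (t + (R j).eval n).natAbs := ⟨_, rfl⟩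
  have hBle : ∀ (j : Fin q) (t : ℤ), t ∈ Ico (-(X1 : ℤ)) X1 → ∀ n : ℤ, n ∈ Ico a b → (t + (R j).eval n).natAbs ≤ B := by
    intro j t ht n hn
    rw [hBd]
    calc (t + (R j).eval n).natAbs ≤ ∑ n ∈ Ico a b, (t + (R j).eval n).natAbs :=
          Finset.single_le_sum (f := fun n => (t + (R j).eval n).natAbs) (fun _ _ => Nat.zero_le _) hn
      _ ≤ ∑ t ∈ Ico (-(X1 : ℤ)) X1, ∑ n ∈ Ico a b, (t + (R j).eval n).natAbs :=
          Finset.single_le_sum (f := fun t => ∑ n ∈ Ico a b, (t + (R j).eval n).natAbs) (fun _ _ => Nat.zero_le _) ht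
      _ ≤ _ :=
          Finset.single_le_sum (f := fun j => ∑ t ∈ Ico (-(X1 : ℤ)) X1, ∑ n ∈ Ico a b, (t + (R j).eval n).natAbs)
            (fun _ _ => Nat.zero_le _) (Finset.mem_univ j)
  obtain ⟨M, hM⟩ : ∃ M : ℕ, M = ⌈C * (X : ℝ) ^ D⌉₊ + 6 * X1 + 2 * B + 1 := ⟨_, rfl⟩
  have : NeZero M := ⟨by omega⟩
  have hCM : C * (X : ℝ) ^ D ≤ M := by
    refine (Nat.le_ceil _).trans ?_
    exact_mod_cast (show ⌈C * (X : ℝ) ^ D⌉₊ ≤ M by omega)
  have h1 := h M X N hX hN hCM r hr hr' (fun j => lft M (f j)) R (fun j => ⟨lft_FN M (hf j).1, (hf j).2⟩)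
    (lft M f0) (lft_FN M hf0) a b ha hb
  rw [C7_Gs n M X1 f0 hB (by omega)] at h1
  have h2 : (∑ t : ZMod M, ∑ n ∈ Ico a b, lft M f0 t * ∏ j, lft M (f j) (t + (((R j).eval n : ℤ) : ZMod M))) =
      ∑ t ∈ Ico (-(X1 : ℤ)) X1, ∑ n ∈ Ico a b, f0 t * ∏ j, f j (t + (R j).eval n) := by
    have h3 : (∑ t : ZMod M, ∑ n ∈ Ico a b, lft M f0 t * ∏ j, lft M (f j) (t + (((R j).eval n : ℤ) : ZMod M))) =
        ∑ t : ZMod M, lft M f0 t * (∑ n ∈ Ico a b, ∏ j, lft M (f j) (t + (((R j).eval n : ℤ) : ZMod M))) := by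
      apply Finset.sum_congr rfl
      intro t _
      rw [Finset.mul_sum]
    rw [h3, lft_sum M X1 f0 (fun t => ∑ n ∈ Ico a b, ∏ j, lft M (f j) (t + (((R j).eval n : ℤ) : ZMod M))) hB.sup (by omega)]
    apply Finset.sum_congr rfl
    intro t ht
    rw [Finset.mul_sum]
    apply Finset.sum_congr rfl
    intro n hn
    congr 1
    apply Finset.prod_congr rfl
    intro j _
    rw [← Int.cast_add]
    apply lft_val
    have h4 := hBle j t ht n hn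
    rw [Int.abs_eq_natAbs]
    omega
  rw [h2] at h1
  exact h1

end Pool.Agent.HPP
end

-- from Lib.HPP.C8
section

/-!
# Project HPP, C8: Theorem P in the form `HPC.ThmPZ`
-/

open Finset Polynomial

namespace Pool.Agent.HPP

open Pool.Agent.HUK (DD DL DV bxS FF GG Bdd GG_succ GG_nonneg GG_one p1_DD_supp)

/-- Monotonicity of the Gowers norms on the integers. -/
theorem C8_mono (X : ℕ) : ∀ (s : ℕ), 1 ≤ s → ∀ (f : ℤ → ℂ), (∀ y, y ∉ Ico (-(X : ℤ)) X → f y = 0) →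
    GG X s f ^ 2 ≤ (4 * X : ℝ) ^ s * GG X (s + 1) f := by
  have hcard : (((Ioo (-(2 * X : ℤ)) (2 * X)).card : ℕ) : ℝ) ≤ 4 * X := by
    rw [Int.card_Ioo]
    have : ((2 * X : ℤ) - (-(2 * X : ℤ)) - 1).toNat ≤ 4 * X := by omega
    exact_mod_cast this
  have hX : (0 : ℝ) ≤ 4 * X := by positivity
  intro s hs
  induction s, hs using Nat.le_induction with
  | base =>
    intro f hf
    have h1 : GG X 1 f ≤ ∑ k ∈ Ioo (-(2 * X : ℤ)) (2 * X), ‖∑ y ∈ Ico (-(X : ℤ)) X, DD k f y‖ := by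
      have := GG_succ X 0 f
      simp only [Nat.zero_add] at this
      rw [this]
      refine Finset.sum_le_sum fun k _ => ?_
      have h2 : GG X 0 (DD k f) = (∑ y ∈ Ico (-(X : ℤ)) X, DD k f y).re := by
        unfold GG
        have : bxS 0 (2 * X) = {fun i => i.elim0} := by
          ext h
          simp only [bxS, Fintype.mem_piFinset, mem_singleton]
          constructor
          · intro _
            funext i
            exact i.elim0
          · intro _ i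
            exact i.elim0
        rw [this, Finset.sum_singleton]
        unfold FF
        rfl
      rw [h2]
      exact (Complex.re_le_norm _)
    have h0 : 0 ≤ GG X 1 f := GG_nonneg X 1 le_rfl f hf
    have h3 : GG X 2 f = ∑ k ∈ Ioo (-(2 * X : ℤ)) (2 * X), ‖∑ y ∈ Ico (-(X : ℤ)) X, DD k f y‖ ^ 2 := by
      rw [GG_succ X 1 f]
      refine Finset.sum_congr rfl fun k _ => ?_
      exact GG_one X _ (p1_DD_supp hf k)
    calc GG X 1 f ^ 2 ≤ (∑ k ∈ Ioo (-(2 * X : ℤ)) (2 * X), ‖∑ y ∈ Ico (-(X : ℤ)) X, DD k f y‖) ^ 2 :=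
          pow_le_pow_left₀ h0 h1 2
      _ ≤ ((Ioo (-(2 * X : ℤ)) (2 * X)).card : ℝ) *
          ∑ k ∈ Ioo (-(2 * X : ℤ)) (2 * X), ‖∑ y ∈ Ico (-(X : ℤ)) X, DD k f y‖ ^ 2 := sq_sum_le_card_mul_sum_sq
      _ ≤ (4 * X : ℝ) ^ 1 * GG X (1 + 1) f := by
          rw [pow_one]
          have h4 : GG X (1 + 1) f = GG X 2 f := rfl
          rw [h4, h3]
          exact mul_le_mul_of_nonneg_right hcard (Finset.sum_nonneg fun k _ => by positivity)
  | succ s hs ih =>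
    intro f hf
    have h0 : ∀ k, 0 ≤ GG X (s + 1) (DD k f) := fun k => GG_nonneg X (s + 1) (by omega) _ (p1_DD_supp hf k)
    rw [GG_succ X s f, GG_succ X (s + 1) f]
    calc (∑ k ∈ Ioo (-(2 * X : ℤ)) (2 * X), GG X s (DD k f)) ^ 2
        ≤ ((Ioo (-(2 * X : ℤ)) (2 * X)).card : ℝ) * ∑ k ∈ Ioo (-(2 * X : ℤ)) (2 * X), GG X s (DD k f) ^ 2 :=
          sq_sum_le_card_mul_sum_sq
      _ ≤ (4 * X : ℝ) * ∑ k ∈ Ioo (-(2 * X : ℤ)) (2 * X), (4 * X : ℝ) ^ s * GG X (s + 1) (DD k f) := by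
          refine mul_le_mul hcard (Finset.sum_le_sum fun k _ => ih _ (p1_DD_supp hf k))
            (Finset.sum_nonneg fun k _ => by positivity) hX
      _ = (4 * X : ℝ) ^ (s + 1) * ∑ k ∈ Ioo (-(2 * X : ℤ)) (2 * X), GG X (s + 1) (DD k f) := by
          rw [← Finset.mul_sum, pow_succ]
          ring

theorem c8_sumint (n0 L : ℕ) (F : ℤ → ℂ) : ∑ n ∈ Ico n0 (n0 + L), F (n : ℤ) =
    ∑ n ∈ Ico ((n0 : ℕ) : ℤ) ((n0 + L : ℕ) : ℤ), F n := by
  refine Finset.sum_bij' (fun n _ => (n : ℤ)) (fun n _ => n.toNat) ?_ ?_ ?_ ?_ ?_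
  · intro n hn
    rw [mem_Ico] at hn ⊢
    omega
  · intro n hn
    rw [mem_Ico] at hn ⊢
    omega
  · intro n _
    simp
  · intro n hn
    rw [mem_Ico] at hn
    simp only [Int.toNat_of_nonneg (by omega : 0 ≤ n)]
  · intro n _
    rfl

/-- The analytic part: from the inequality of `C7_P` to a power saving. `Y = C0 X`, `N = 2 C0 X^D`, `G = GG (n + 1)`. -/
theorem c8_an (D n E C0 : ℕ) (hE : 0 < E) (hC0 : 1 ≤ C0) (hD : 1 ≤ D) (κ : ℝ) (hκ : 0 < κ) (C ε : ℝ) (hC : 0 ≤ C)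
    (hε : ε = min κ 1 / (4 * (n + 1))) : ∃ X0 : ℕ, 1 ≤ X0 ∧ ∀ X : ℕ, X0 ≤ X → ∀ S G G2 : ℝ, 0 ≤ S → 0 ≤ G →
    G ^ 2 ≤ (4 * (C0 * X ^ D : ℕ) : ℝ) ^ (n + 1) * G2 → G2 ≤ (X : ℝ) ^ ((D : ℝ) * ((n + 2 : ℕ) + 1) - κ) →
    (S / ((2 * (C0 * X ^ D : ℕ) : ℝ) * (C0 * X : ℕ))) ^ E ≤
      C * (((C0 * X : ℕ) : ℝ) ^ (-ε) + ((C0 * X : ℕ) : ℝ) ^ (n * (ε - D / 2)) * √G / (2 * (C0 * X ^ D : ℕ) : ℝ)) →
    S ≤ (X : ℝ) ^ ((D : ℝ) + 1 - ε / (2 * E)) := by
  have hε0 : 0 < ε := by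
    rw [hε]
    have : 0 < min κ 1 := lt_min hκ one_pos
    positivity
  have hn0 : (0 : ℝ) < (n : ℝ) + 1 := by positivity
  have hε1 : ε * (4 * (n + 1)) = min κ 1 := by
    rw [hε]
    field_simp
  have hεκ : (n + 1) * ε ≤ κ / 4 := by
    have : min κ 1 ≤ κ := min_le_left _ _
    nlinarith
  have hεD : ε ≤ (D : ℝ) / 2 := by
    have h1 : min κ 1 ≤ 1 := min_le_right _ _
    have h2 : ε ≤ ε * (n + 1) := by nlinarith [(Nat.cast_nonneg n : (0 : ℝ) ≤ n)]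
    have h3 : (1 : ℝ) ≤ D := by exact_mod_cast hD
    nlinarith
  have hC0r : (1 : ℝ) ≤ C0 := by exact_mod_cast hC0
  obtain ⟨K, hK⟩ : ∃ K : ℝ, K = (4 * (C0 : ℝ)) ^ (n + 1) := ⟨_, rfl⟩
  have hK1 : 1 ≤ K := by
    rw [hK]
    exact one_le_pow₀ (by linarith)
  obtain ⟨B, hB⟩ : ∃ B : ℝ, B = C * (1 + K) + 1 := ⟨_, rfl⟩
  have hB1 : 1 ≤ B := by
    rw [hB]
    have : 0 ≤ C * (1 + K) := by positivity
    linarith
  have hEr : (0 : ℝ) < E := by exact_mod_cast hE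
  have hδ : 0 < ε / (2 * E) := by positivity
  -- X0
  obtain ⟨X0, hX0⟩ : ∃ X0 : ℕ, ∀ X : ℕ, X0 ≤ X → 2 * (C0 : ℝ) ^ 2 * B ^ ((1 : ℝ) / E) ≤ (X : ℝ) ^ (ε / (2 * E)) := by
    have := (tendsto_rpow_atTop hδ).comp tendsto_natCast_atTop_atTop
    exact Filter.eventually_atTop.mp (this.eventually (Filter.eventually_ge_atTop (2 * (C0 : ℝ) ^ 2 * B ^ ((1 : ℝ) / E))))
  refine ⟨max X0 1, le_max_right _ _, fun X hX S G G2 hS hG h1 h2 h3 => ?_⟩
  have hX1 : 1 ≤ X := (le_max_right _ _).trans hX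
  have hXr : (1 : ℝ) ≤ X := by exact_mod_cast hX1
  have hXp : (0 : ℝ) < X := by linarith
  have hXX := hX0 X ((le_max_left _ _).trans hX)
  -- the square root
  have hG2 : √G ≤ K * (X : ℝ) ^ ((D : ℝ) * (n + 2) / 2 - κ / 4) := by
    have e1 : G ^ 2 ≤ (K * (X : ℝ) ^ ((D : ℝ) * (n + 2) / 2 - κ / 4)) ^ 4 := by
      calc G ^ 2 ≤ (4 * (C0 * X ^ D : ℕ) : ℝ) ^ (n + 1) * G2 := h1
        _ ≤ (4 * (C0 * X ^ D : ℕ) : ℝ) ^ (n + 1) * (X : ℝ) ^ ((D : ℝ) * ((n + 2 : ℕ) + 1) - κ) :=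
            mul_le_mul_of_nonneg_left h2 (by positivity)
        _ = K * ((X : ℝ) ^ ((D : ℝ) * (n + 1)) * (X : ℝ) ^ ((D : ℝ) * ((n + 2 : ℕ) + 1) - κ)) := by
            rw [hK]
            have : (X : ℝ) ^ ((D : ℝ) * (n + 1)) = ((X : ℝ) ^ D) ^ (n + 1) := by
              rw [← pow_mul, ← Real.rpow_natCast]
              congr 1
              push_cast
              ring
            rw [this]
            push_cast
            rw [show 4 * ((C0 : ℝ) * (X : ℝ) ^ D) = (4 * C0) * (X : ℝ) ^ D by ring, mul_pow]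
            ring
        _ = K * (X : ℝ) ^ (4 * ((D : ℝ) * (n + 2) / 2 - κ / 4)) := by
            rw [← Real.rpow_add hXp]
            congr 2
            push_cast
            ring
        _ ≤ K ^ 4 * (X : ℝ) ^ (4 * ((D : ℝ) * (n + 2) / 2 - κ / 4)) := by
            refine mul_le_mul_of_nonneg_right ?_ (by positivity)
            exact le_self_pow₀ hK1 (by norm_num)
        _ = (K * (X : ℝ) ^ ((D : ℝ) * (n + 2) / 2 - κ / 4)) ^ 4 := by
            rw [mul_pow, ← Real.rpow_natCast ((X : ℝ) ^ ((D : ℝ) * (n + 2) / 2 - κ / 4)) 4, ← Real.rpow_mul hXp.le]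
            congr 2
            push_cast
            ring
    have e2 : (√G) ^ 4 = G ^ 2 := by
      rw [show (√G) ^ 4 = ((√G) ^ 2) ^ 2 by ring, Real.sq_sqrt hG]
    rw [← e2] at e1
    exact le_of_pow_le_pow_left₀ (by norm_num) (by positivity) e1
  -- the right hand side
  have hY : (X : ℝ) ≤ ((C0 * X : ℕ) : ℝ) := by
    push_cast
    nlinarith
  have t1 : ((C0 * X : ℕ) : ℝ) ^ (-ε) ≤ (X : ℝ) ^ (-ε) := Real.rpow_le_rpow_of_nonpos hXp hY (by linarith)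
  have t2 : ((C0 * X : ℕ) : ℝ) ^ (n * (ε - D / 2)) ≤ (X : ℝ) ^ (n * (ε - D / 2)) := by
    refine Real.rpow_le_rpow_of_nonpos hXp hY ?_
    have : (0 : ℝ) ≤ n := Nat.cast_nonneg n
    nlinarith
  have t3 : ((C0 * X : ℕ) : ℝ) ^ (n * (ε - D / 2)) * √G / (2 * (C0 * X ^ D : ℕ) : ℝ) ≤ K * (X : ℝ) ^ (-ε) := by
    have hN : (X : ℝ) ^ D ≤ (2 * (C0 * X ^ D : ℕ) : ℝ) := by
      push_cast
      have : (0 : ℝ) ≤ (X : ℝ) ^ D := by positivity
      nlinarith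
    rw [div_le_iff₀ (by have : (0 : ℝ) < (X : ℝ) ^ D := by positivity
                        linarith)]
    calc ((C0 * X : ℕ) : ℝ) ^ (n * (ε - D / 2)) * √G
        ≤ (X : ℝ) ^ (n * (ε - D / 2)) * (K * (X : ℝ) ^ ((D : ℝ) * (n + 2) / 2 - κ / 4)) :=
          mul_le_mul t2 hG2 (Real.sqrt_nonneg _) (by positivity)
      _ = K * (X : ℝ) ^ (n * ε - κ / 4 + D) := by
          rw [show (X : ℝ) ^ (n * (ε - D / 2)) * (K * (X : ℝ) ^ ((D : ℝ) * (n + 2) / 2 - κ / 4)) =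
            K * ((X : ℝ) ^ (n * (ε - D / 2)) * (X : ℝ) ^ ((D : ℝ) * (n + 2) / 2 - κ / 4)) by ring, ← Real.rpow_add hXp]
          congr 2
          ring
      _ ≤ K * (X : ℝ) ^ (-ε + D) := by
          refine mul_le_mul_of_nonneg_left ?_ (by linarith)
          refine Real.rpow_le_rpow_of_exponent_le hXr ?_
          linarith
      _ = K * (X : ℝ) ^ (-ε) * (X : ℝ) ^ D := by
          rw [Real.rpow_add hXp, Real.rpow_natCast]
          ring
      _ ≤ K * (X : ℝ) ^ (-ε) * (2 * (C0 * X ^ D : ℕ) : ℝ) := mul_le_mul_of_nonneg_left hN (by positivity)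
  have t4 : (S / ((2 * (C0 * X ^ D : ℕ) : ℝ) * (C0 * X : ℕ))) ^ E ≤ B * (X : ℝ) ^ (-ε) := by
    refine h3.trans ?_
    calc C * (((C0 * X : ℕ) : ℝ) ^ (-ε) + ((C0 * X : ℕ) : ℝ) ^ (n * (ε - D / 2)) * √G / (2 * (C0 * X ^ D : ℕ) : ℝ))
        ≤ C * ((X : ℝ) ^ (-ε) + K * (X : ℝ) ^ (-ε)) := mul_le_mul_of_nonneg_left (add_le_add t1 t3) hC
      _ = (C * (1 + K)) * (X : ℝ) ^ (-ε) := by ring
      _ ≤ B * (X : ℝ) ^ (-ε) := mul_le_mul_of_nonneg_right (by rw [hB]; linarith) (by positivity)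
  have hden : (0 : ℝ) < (2 * (C0 * X ^ D : ℕ) : ℝ) * (C0 * X : ℕ) := by
    have : 0 < C0 * X ^ D := Nat.mul_pos (by omega) (pow_pos (by omega) D)
    have h' : 0 < C0 * X := Nat.mul_pos (by omega) (by omega)
    have a1 : (0 : ℝ) < ((C0 * X ^ D : ℕ) : ℝ) := by exact_mod_cast this
    have a2 : (0 : ℝ) < ((C0 * X : ℕ) : ℝ) := by exact_mod_cast h'
    positivity
  have t5 : S / ((2 * (C0 * X ^ D : ℕ) : ℝ) * (C0 * X : ℕ)) ≤ B ^ ((1 : ℝ) / E) * (X : ℝ) ^ (-ε / E) := by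
    have a0 : 0 ≤ S / ((2 * (C0 * X ^ D : ℕ) : ℝ) * (C0 * X : ℕ)) := by positivity
    have a1 : S / ((2 * (C0 * X ^ D : ℕ) : ℝ) * (C0 * X : ℕ)) =
        ((S / ((2 * (C0 * X ^ D : ℕ) : ℝ) * (C0 * X : ℕ))) ^ E) ^ ((1 : ℝ) / E) := by
      rw [one_div, Real.pow_rpow_inv_natCast a0 (by omega)]
    rw [a1]
    refine (Real.rpow_le_rpow (by positivity) t4 (by positivity)).trans (le_of_eq ?_)
    rw [Real.mul_rpow (by linarith) (by positivity), ← Real.rpow_mul hXp.le]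
    congr 2
    ring
  rw [div_le_iff₀ hden] at t5
  refine t5.trans ?_
  have hden2 : (2 * (C0 * X ^ D : ℕ) : ℝ) * (C0 * X : ℕ) = 2 * (C0 : ℝ) ^ 2 * (X : ℝ) ^ ((D : ℝ) + 1) := by
    rw [Real.rpow_add hXp, Real.rpow_natCast, Real.rpow_one]
    push_cast
    ring
  rw [hden2]
  calc B ^ ((1 : ℝ) / E) * (X : ℝ) ^ (-ε / E) * (2 * (C0 : ℝ) ^ 2 * (X : ℝ) ^ ((D : ℝ) + 1))
      = (2 * (C0 : ℝ) ^ 2 * B ^ ((1 : ℝ) / E)) * ((X : ℝ) ^ (-ε / E) * (X : ℝ) ^ ((D : ℝ) + 1)) := by ring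
    _ ≤ (X : ℝ) ^ (ε / (2 * E)) * ((X : ℝ) ^ (-ε / E) * (X : ℝ) ^ ((D : ℝ) + 1)) :=
        mul_le_mul_of_nonneg_right hXX (by positivity)
    _ = (X : ℝ) ^ ((D : ℝ) + 1 - ε / (2 * E)) := by
        rw [← Real.rpow_add hXp, ← Real.rpow_add hXp]
        congr 1
        field_simp
        ring

/-- **Theorem P** in the form of `HPC/Defs`. -/
theorem C8_Z (D q : ℕ) (hD : 1 ≤ D) (r : Fin q → ℤ) (hr : ∀ j, r j ≠ 0) : Pool.Agent.HPC.ThmPZ D q r := by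
  obtain ⟨n, E, hE, H⟩ := C7_P D hD q (∑ j, (r j).natAbs)
  have hRm : ∀ j, |r j| ≤ ((∑ j, (r j).natAbs : ℕ) : ℤ) := by
    intro j
    have : (r j).natAbs ≤ ∑ j, (r j).natAbs := Finset.single_le_sum (f := fun j => (r j).natAbs) (fun _ _ => Nat.zero_le _)
      (mem_univ j)
    rw [Int.abs_eq_natAbs]
    exact_mod_cast this
  refine ⟨n + 2, by omega, fun C0 κ hκ => ?_⟩
  rcases Nat.eq_zero_or_pos C0 with hC0 | hC0
  · refine ⟨1, one_pos, 0, fun X _ R _ n0 L _ f0 f S _ _ _ _ _ => ?_⟩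
    subst hC0
    simp only [zero_mul, Nat.cast_zero, neg_zero, Ico_self, Finset.sum_empty, norm_zero]
    positivity
  obtain ⟨ε, hε⟩ : ∃ ε : ℝ, ε = min κ 1 / (4 * (n + 1)) := ⟨_, rfl⟩
  have hε0 : 0 < ε := by
    rw [hε]
    have : 0 < min κ 1 := lt_min hκ one_pos
    positivity
  obtain ⟨C, hC, HC⟩ := H ε hε0
  obtain ⟨X0, hX01, HX⟩ := c8_an D n E C0 hE hC0 hD κ hκ C ε hC hε
  have hEr : (0 : ℝ) < E := by exact_mod_cast hE
  refine ⟨ε / (2 * E), by positivity, X0, fun X hX R hR n0 L hL f0 f S hf0 hf hS hfS hG => ?_⟩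
  have hXpos : 0 < X := by omega
  have hN : (0 : ℝ) < 2 * ((C0 * X ^ D : ℕ) : ℝ) := by
    have : 0 < C0 * X ^ D := Nat.mul_pos hC0 (pow_pos hXpos D)
    have a1 : (0 : ℝ) < ((C0 * X ^ D : ℕ) : ℝ) := by exact_mod_cast this
    linarith
  have hsup : ∀ y, y ∉ Ico (-((C0 * X ^ D : ℕ) : ℤ)) ((C0 * X ^ D : ℕ) : ℤ) → f0 y = 0 := hf0.sup
  refine HX X hX _ (GG (C0 * X ^ D) (n + 1) f0) (GG (C0 * X ^ D) (n + 2) f0) (norm_nonneg _)
    (GG_nonneg _ _ (by omega) f0 hsup) ?_ hG ?_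
  · have := C8_mono (C0 * X ^ D) (n + 1) (by omega) f0 hsup
    exact this
  · have key := HC (C0 * X) (C0 * X ^ D) (2 * ((C0 * X ^ D : ℕ) : ℝ)) (Nat.mul_pos hC0 hXpos)
      (Nat.mul_pos hC0 (pow_pos hXpos D)) hN r hr hRm f R (fun j => ⟨⟨hf j, S j, ?_, hfS j⟩, hR j⟩) f0
      ⟨hf0.le, Ico (-((C0 * X ^ D : ℕ) : ℤ)) ((C0 * X ^ D : ℕ) : ℤ), ?_, hsup⟩ hf0 n0 ((n0 + L : ℕ) : ℤ) (by omega)
      (by exact_mod_cast hL)
    · have e1 : ∀ t : ℤ, ∑ n ∈ Ico n0 (n0 + L), f0 t * ∏ j, f j (t + (R j).eval (n : ℤ)) =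
          ∑ n ∈ Ico ((n0 : ℕ) : ℤ) ((n0 + L : ℕ) : ℤ), f0 t * ∏ j, f j (t + (R j).eval n) := fun t =>
        c8_sumint n0 L fun n => f0 t * ∏ j, f j (t + (R j).eval n)
      rw [Finset.sum_congr rfl fun t _ => e1 t]
      exact key
    · have := hS j
      have h2 : ((S j).card : ℝ) ≤ ((C0 * X ^ D : ℕ) : ℝ) := by exact_mod_cast this
      linarith
    · rw [Int.card_Ico]
      have : (((C0 * X ^ D : ℕ) : ℤ) - -((C0 * X ^ D : ℕ) : ℤ)).toNat = 2 * (C0 * X ^ D) := by omega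
      rw [this]
      push_cast
      exact le_rfl

end Pool.Agent.HPP
end
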