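import Pool.Agent.Lib.H59M.M1.M011
import Pool.Agent.Lib.H59M.M1.M013
import Pool.Agent.Lib.H59M.M1.M016
import Pool.Agent.Lib.H59M.M1.M017
import Pool.Agent.Lib.H59M.M1.M018
import Pool.Agent.Lib.H59M.M1.M023
import Pool.Agent.Lib.H59M.M1.M030
import Pool.Agent.Lib.H59M.M1.M033
import Pool.Agent.Lib.H59M.M1.M034
import Pool.Agent.Lib.H59M.M1.M047
import Pool.Agent.Lib.H59M.M1.M049

/-! Merged copies (to shorten the build) of Lib.H68X.XBPS, Lib.H18Q.R2B, Lib.H18Q.CL1, Lib.H59P.Defs, Lib.H59P.MDefs. -/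

-- from Lib.H68X.XBPS
section

/-!
# Chunk XBPS: local averages of the exceptional character
-/

open Finset MeasureTheory

namespace Pool.Agent.Lib.H68T

theorem XBPS_pow {a b s : ℝ} (ha : 1 ≤ a) (hab : a ≤ b) (hs0 : s ≤ 0) (hs : -1 ≤ s) :
    0 ≤ a ^ s - b ^ s ∧ a ^ s - b ^ s ≤ (b - a) / b := by
  have ha0 : 0 < a := by linarith
  have hb0 : 0 < b := by linarith
  constructor
  · have := Real.rpow_le_rpow_of_nonpos ha0 hab hs0
    linarith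
  · have h1 : 1 ≤ b / a := by rwa [one_le_div ha0]
    have h2 : (b / a) ^ (-1 : ℝ) ≤ (b / a) ^ s := Real.rpow_le_rpow_of_exponent_le h1 hs
    have h3 : b ^ s = a ^ s * (b / a) ^ s := by
      rw [← Real.mul_rpow ha0.le (by positivity)]
      congr 1
      field_simp
    have h4 : (b / a) ^ (-1 : ℝ) = a / b := by
      rw [Real.rpow_neg_one, inv_div]
    have h5 : a ^ s ≤ 1 := Real.rpow_le_one_of_one_le_of_nonpos ha hs0
    have h6 : 0 ≤ a ^ s := Real.rpow_nonneg ha0.le _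
    have h7 : a / b ≤ 1 := by rwa [div_le_one hb0]
    have h8 : (b - a) / b = 1 - a / b := by field_simp
    rw [h3, h8]
    rw [h4] at h2
    nlinarith

theorem XBPS_pow' {a b s : ℝ} (ha : 1 ≤ a) (hb : 1 ≤ b) (hs0 : s ≤ 0) (hs : -1 ≤ s) :
    |a ^ s - b ^ s| ≤ |a - b| / a := by
  have ha0 : 0 < a := by linarith
  have hb0 : 0 < b := by linarith
  rcases le_total a b with h | h
  · obtain ⟨h1, h2⟩ := XBPS_pow ha h hs0 hs
    rw [abs_of_nonneg h1, abs_of_nonpos (by linarith), neg_sub]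
    refine h2.trans ?_
    exact div_le_div_of_nonneg_left (by linarith) ha0 h
  · obtain ⟨h1, h2⟩ := XBPS_pow hb h hs0 hs
    rw [abs_of_nonpos (by linarith), neg_sub, abs_of_nonneg (by linarith)]
    exact h2


end Pool.Agent.Lib.H68T
end

-- from Lib.H18Q.R2B
section

/-!
# Project H18Q, chunk R2B: port of `B1_le` to the regime `RegP`
-/

open Finset

namespace Pool.Agent.Lib.H18Q

open Pool.Agent.Lib.H68T

/-- PORT of `B1_le` (`H68X/XBPS.lean`) to `RegP` (use `BPS_regimeP` and the lemmas of `R0.lean`, which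
have the names of those in `H68T/RegL.lean`). -/
theorem B1_leP : ∃ K : ℝ, 1 ≤ K ∧ ∀ Q X : ℕ, RegP K Q X →
    ∀ p : Σ r : ℕ, DirichletCharacter ℂ r,
    1 ≤ p.1 → ∀ β : ℝ, 1 / 2 ≤ β → β ≤ 1 → ∀ m : ℤ, (X : ℤ) ≤ m → m ≤ 4 * X →
    ‖∑ n ∈ Icc 1 (60 * X), ((lp n * tent (X / Q ^ 2) (m - n) : ℝ) : ℂ) * p.2 (n : ZMod p.1) +
      (((m : ℝ) ^ (β - 1) : ℝ) : ℂ)‖ ≤
      (∫ t in (-(Q : ℝ) ^ 7)..((Q : ℝ) ^ 7), ‖FL X p t + Fb X β t‖) +
        (Q : ℝ) ^ (-(3 / 2) : ℝ) := by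
  obtain ⟨K₀, hK₀1, hK₀⟩ := BPS_regimeP
  refine ⟨|K₀| + 20, by have := abs_nonneg K₀; linarith, fun Q X h p _ β hβ hβ1 m hm1 hm2 => ?_⟩
  have hab := abs_nonneg K₀
  have hle := le_abs_self K₀
  have hr0 : RegP K₀ Q X := h.mono (by linarith) (by linarith)
  have hr1 : RegP 20 Q X := h.mono (by linarith) (by linarith)
  have hQ20 : (20 : ℝ) ≤ Q := hr1.Q_ge (by norm_num)
  obtain ⟨hQ, hX, hY, hYX, hXY, hbd⟩ := hK₀ Q X hr0
  have hQ' : (0:ℝ) < Q := by exact_mod_cast hQ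
  have hX' : (0:ℝ) < X := by exact_mod_cast hX
  have hX1 : (1:ℝ) ≤ X := by exact_mod_cast hX
  have hm' : (X:ℝ) ≤ m := by exact_mod_cast hm1
  have hm1' : (1:ℝ) ≤ m := by linarith
  have hpw : ∀ n : ℕ, 1 ≤ n → ‖((((n : ℝ) ^ (β - 1) : ℝ)) : ℂ)‖ ≤ 1 := by
    intro n hn
    have hn1 : (1:ℝ) ≤ n := by exact_mod_cast hn
    rw [Complex.norm_real, Real.norm_of_nonneg (Real.rpow_nonneg (by linarith) _)]
    exact Real.rpow_le_one_of_one_le_of_nonpos hn1 (by linarith)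
  have hsum : ∑ n ∈ Icc 1 (60 * X), ‖(ArithmeticFunction.vonMangoldt n : ℂ) * p.2 (n : ZMod p.1) +
      (((n : ℝ) ^ (β - 1) : ℝ) : ℂ)‖ ≤ 700 * X := by
    calc ∑ n ∈ Icc 1 (60 * X), ‖(ArithmeticFunction.vonMangoldt n : ℂ) * p.2 (n : ZMod p.1) +
        (((n : ℝ) ^ (β - 1) : ℝ) : ℂ)‖
        ≤ ∑ n ∈ Icc 1 (60 * X), (‖(ArithmeticFunction.vonMangoldt n : ℂ) *
          p.2 (n : ZMod p.1)‖ + 1) := by
          apply Finset.sum_le_sum
          intro n hn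
          refine (norm_add_le _ _).trans ?_
          have := hpw n (mem_Icc.1 hn).1
          linarith
      _ = ∑ n ∈ Icc 1 (60 * X), ‖(ArithmeticFunction.vonMangoldt n : ℂ) *
          p.2 (n : ZMod p.1)‖ + 60 * X := by
          rw [Finset.sum_add_distrib, Finset.sum_const, Nat.card_Icc]
          simp
      _ ≤ 700 * X := by
          have := BPS_sum_norm (X := X) p
          linarith
  have h1 := BPS_general hQ hX hY hYX hXY
    (fun n => (ArithmeticFunction.vonMangoldt n : ℂ) * p.2 (n : ZMod p.1) +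
      (((n : ℝ) ^ (β - 1) : ℝ) : ℂ)) (D := 700)
    (by norm_num) hsum m hm1 hm2
  have h2 := BPS_replace (Y := X / Q ^ 2) hX (fun n => p.2 (n : ZMod p.1))
    (fun n => DirichletCharacter.norm_le_one _ _) m
  have hmass := BPS_mass (Y := X / Q ^ 2) hY hYX hm1 hm2
  have h3 : ‖(((m : ℝ) ^ (β - 1) : ℝ) : ℂ) - ∑ n ∈ Icc 1 (60 * X),
      (((n : ℝ) ^ (β - 1) : ℝ) : ℂ) * (tent (X / Q ^ 2) (m - n) : ℂ)‖ ≤ 1 / (Q : ℝ) ^ 2 := by
    have e1 : (((m : ℝ) ^ (β - 1) : ℝ) : ℂ) - ∑ n ∈ Icc 1 (60 * X),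
        (((n : ℝ) ^ (β - 1) : ℝ) : ℂ) * (tent (X / Q ^ 2) (m - n) : ℂ) =
        ((∑ n ∈ Icc 1 (60 * X), ((m : ℝ) ^ (β - 1) - (n : ℝ) ^ (β - 1)) *
          tent (X / Q ^ 2) (m - n) : ℝ) : ℂ) := by
      have : ((m : ℝ) ^ (β - 1) : ℝ) = ∑ n ∈ Icc 1 (60 * X), (m : ℝ) ^ (β - 1) *
          tent (X / Q ^ 2) (m - n) := by
        rw [← Finset.mul_sum, hmass, mul_one]
      simp only [sub_mul, Finset.sum_sub_distrib]
      rw [← this]
      push_cast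
      ring
    rw [e1, Complex.norm_real, Real.norm_eq_abs]
    refine (Finset.abs_sum_le_sum_abs _ _).trans ?_
    calc ∑ n ∈ Icc 1 (60 * X), |((m : ℝ) ^ (β - 1) - (n : ℝ) ^ (β - 1)) *
          tent (X / Q ^ 2) (m - n)|
        ≤ ∑ n ∈ Icc 1 (60 * X), 1 / (Q : ℝ) ^ 2 * tent (X / Q ^ 2) (m - n) := by
          apply Finset.sum_le_sum
          intro n hn
          have hn1 : (1:ℝ) ≤ n := by exact_mod_cast (mem_Icc.1 hn).1
          rw [abs_mul, abs_of_nonneg (BPS_tent_nonneg _ _)]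
          rcases le_or_gt ((X / Q ^ 2 : ℕ) : ℤ) |m - n| with h5 | h5
          · rw [BPS_tent_zero h5, mul_zero, mul_zero]
          · apply mul_le_mul_of_nonneg_right _ (BPS_tent_nonneg _ _)
            refine (XBPS_pow' hm1' hn1 (by linarith) (by linarith)).trans ?_
            have h6 : |(m : ℝ) - n| ≤ ((X / Q ^ 2 : ℕ) : ℝ) := by
              have h9 : |m - (n : ℤ)| ≤ ((X / Q ^ 2 : ℕ) : ℤ) := h5.le
              have h8 : ((|m - (n : ℤ)| : ℤ) : ℝ) ≤ (((X / Q ^ 2 : ℕ) : ℤ) : ℝ) :=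
                Int.cast_le.2 h9
              rw [Int.cast_abs, Int.cast_sub, Int.cast_natCast, Int.cast_natCast] at h8
              exact h8
            have h7 : ((X / Q ^ 2 : ℕ) : ℝ) ≤ (X : ℝ) / (Q : ℝ) ^ 2 := by
              have := Nat.cast_div_le (α := ℝ) (m := X) (n := Q ^ 2)
              push_cast at this
              exact this
            calc |(m : ℝ) - n| / m ≤ ((X : ℝ) / (Q : ℝ) ^ 2) / X := by
                  apply div_le_div₀ (by positivity) (h6.trans h7) hX' hm'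
              _ = 1 / (Q : ℝ) ^ 2 := by field_simp
      _ = 1 / (Q : ℝ) ^ 2 := by rw [← Finset.mul_sum, hmass, mul_one]
  have h4 : ∑ n ∈ Icc 1 (60 * X), ((lp n * tent (X / Q ^ 2) (m - n) : ℝ) : ℂ) *
      p.2 (n : ZMod p.1) + (((m : ℝ) ^ (β - 1) : ℝ) : ℂ) =
      (∑ n ∈ Icc 1 (60 * X), ((lp n * tent (X / Q ^ 2) (m - n) : ℝ) : ℂ) * p.2 (n : ZMod p.1) -
        ∑ n ∈ Icc 1 (60 * X), (ArithmeticFunction.vonMangoldt n : ℂ) * p.2 (n : ZMod p.1) *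
          (tent (X / Q ^ 2) (m - n) : ℂ)) +
      ∑ n ∈ Icc 1 (60 * X), ((ArithmeticFunction.vonMangoldt n : ℂ) * p.2 (n : ZMod p.1) +
        (((n : ℝ) ^ (β - 1) : ℝ) : ℂ)) * (tent (X / Q ^ 2) (m - n) : ℂ) +
      ((((m : ℝ) ^ (β - 1) : ℝ) : ℂ) - ∑ n ∈ Icc 1 (60 * X),
        (((n : ℝ) ^ (β - 1) : ℝ) : ℂ) * (tent (X / Q ^ 2) (m - n) : ℂ)) := by
    simp only [add_mul, Finset.sum_add_distrib]
    ring
  have h5 : (∫ t in (-(Q : ℝ) ^ 7)..((Q : ℝ) ^ 7), ‖FL X p t + Fb X β t‖) =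
      ∫ t in (-(Q : ℝ) ^ 7)..((Q : ℝ) ^ 7),
        ‖FF X (fun n => (ArithmeticFunction.vonMangoldt n : ℂ) * p.2 (n : ZMod p.1) +
          (((n : ℝ) ^ (β - 1) : ℝ) : ℂ)) t‖ := by
    congr 1
    ext t
    congr 1
    unfold FL Fb FF
    rw [← Finset.sum_add_distrib]
    apply Finset.sum_congr rfl
    intro n _
    ring
  rw [h4, h5]
  refine (norm_add₃_le).trans ?_
  have h6 : 1 / (Q : ℝ) ^ 2 + (Q : ℝ) ^ (-(5 / 2) : ℝ) ≤ (Q : ℝ) ^ (-(3 / 2) : ℝ) := by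
    have e1 : (Q : ℝ) ^ (-(5 / 2) : ℝ) = (Q : ℝ) ^ (-(3 / 2) : ℝ) * (1 / Q) := by
      rw [show (-(5 / 2) : ℝ) = -(3 / 2) + (-1) by norm_num, Real.rpow_add hQ', Real.rpow_neg_one,
        one_div]
    have e2 : 1 / (Q : ℝ) ^ 2 = (Q : ℝ) ^ (-(3 / 2) : ℝ) * (1 / Real.sqrt Q) := by
      rw [Real.sqrt_eq_rpow, one_div ((Q : ℝ) ^ (1 / 2 : ℝ)), ← Real.rpow_neg hQ'.le,
        ← Real.rpow_add hQ', show (-(3 / 2) + -(1 / 2) : ℝ) = -((2 : ℕ) : ℝ) by norm_num,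
        Real.rpow_neg hQ'.le, Real.rpow_natCast, one_div]
    have e3 : 1 / (Q : ℝ) ≤ 1 / 20 := one_div_le_one_div_of_le (by norm_num) hQ20
    have e4 : 1 / Real.sqrt Q ≤ 1 / 4 := by
      apply one_div_le_one_div_of_le (by norm_num)
      rw [show (4 : ℝ) = Real.sqrt 16 by
        rw [show (16 : ℝ) = 4 ^ 2 by norm_num, Real.sqrt_sq (by norm_num)]]
      exact Real.sqrt_le_sqrt (by linarith)
    have e5 : 0 < (Q : ℝ) ^ (-(3 / 2) : ℝ) := Real.rpow_pos_of_pos hQ' _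
    rw [e1, e2]
    nlinarith
  linarith

end Pool.Agent.Lib.H18Q
end

-- from Lib.H18Q.CL1
section

/-!
# Project H18Q, chunk CL1: the projection at good and at exceptional levels
-/

open Finset

namespace Pool.Agent.Lib.H18Q

open Pool.Agent.Lib.H68T

/-- `∑_n lp(n) tent(m - n) χ(n)`. -/
noncomputable def Bc (Q X : ℕ) (p : Σ r : ℕ, DirichletCharacter ℂ r) (m : ℤ) : ℂ :=
  ∑ n ∈ Icc 1 (60 * X), ((lp n * tent (X / Q ^ 2) (m - n) : ℝ) : ℂ) * p.2 (n : ZMod p.1)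

theorem cl1_tent_lip {Y : ℕ} (z : ℤ) : |tent Y (z + 1) - tent Y z| ≤ 1 / (Y : ℝ) ^ 2 := by
  unfold tent
  rw [← sub_div, abs_div, abs_of_nonneg (by positivity : (0 : ℝ) ≤ (Y : ℝ) ^ 2)]
  apply div_le_div_of_nonneg_right _ (by positivity)
  rw [max_comm 0 _, max_comm 0 ((Y : ℝ) - |(z : ℝ)|)]
  refine (abs_max_sub_max_le_abs _ _ _).trans ?_
  have h1 : ((Y : ℝ) - |((z + 1 : ℤ) : ℝ)|) - ((Y : ℝ) - |(z : ℝ)|) = |(z : ℝ)| - |((z + 1 : ℤ) : ℝ)| := by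
    ring
  rw [h1]
  refine (abs_abs_sub_abs_le_abs_sub _ _).trans ?_
  push_cast
  rw [show (z : ℝ) - (z + 1) = -1 by ring, abs_neg, abs_one]

theorem cl1_tent_zero {Y : ℕ} {z : ℤ} (h : ¬ (-(Y : ℤ) ≤ z ∧ z < Y)) :
    tent Y (z + 1) - tent Y z = 0 := by
  have h1 : ∀ z' : ℤ, (Y : ℤ) ≤ |z'| → tent Y z' = 0 := by
    intro z' hz'
    unfold tent
    have h2 : (Y : ℝ) ≤ |(z' : ℝ)| := by exact_mod_cast hz'
    rw [max_eq_left (by linarith), zero_div]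
  rw [not_and_or, not_le, not_lt] at h
  rcases h with h | h
  · rw [h1 (z + 1) (by rw [abs_of_nonpos (by omega)]; omega),
      h1 z (by rw [abs_of_nonpos (by omega)]; omega), sub_zero]
  · rw [h1 (z + 1) (by rw [abs_of_nonneg (by omega)]; omega),
      h1 z (by rw [abs_of_nonneg (by omega)]; omega), sub_zero]

/-- Slow variation. Proof: `Y = X / Q²`; `|tent Y (z + 1) - tent Y z| ≤ 1/Y²`, and it vanishes unless
`|z| ≤ Y + 1`; so the difference is at most `(2 Y + 5) log (60 X)/Y² ≤ 7 log (60 X)/Y ≤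
14 Q² log (60 X)/X ≤ Q^3/(2 X)` (`X/Q² ≤ 2 Y`; `log (60 X) ≤ Q/28` for `K` large). -/
theorem Bc_lip : ∃ K : ℝ, 1 ≤ K ∧ ∀ Q X : ℕ, RegP K Q X → ∀ (p : Σ r : ℕ, DirichletCharacter ℂ r)
    (m : ℤ), (X : ℤ) ≤ m → m ≤ 4 * X → ‖Bc Q X p (m + 1) - Bc Q X p m‖ ≤ (Q : ℝ) ^ 3 / (2 * X) := by
  obtain ⟨K1, hK1, h1⟩ := BPS_regimeP
  obtain ⟨K2, hK2, h2⟩ := regp_log_le 48 1 1 one_pos
  refine ⟨max K1 K2, hK1.trans (le_max_left _ _), fun Q X hreg p m hm hm4 => ?_⟩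
  have hK0 : 0 ≤ max K1 K2 := by linarith [le_max_left K1 K2]
  obtain ⟨hQ, hX, hY, hYX, hXY, -⟩ := h1 Q X (hreg.mono hK0 (le_max_left _ _))
  have hlog := h2 Q X (hreg.mono hK0 (le_max_right _ _))
  rw [Real.rpow_one, Real.rpow_one] at hlog
  have hlX := hreg.logX_ge_one (by linarith [le_max_left K1 K2] : 0 < max K1 K2)
  obtain ⟨Y, hYd⟩ : ∃ Y, Y = X / Q ^ 2 := ⟨_, rfl⟩
  have hX0 : (0 : ℝ) < X := by exact_mod_cast hX
  have hQ0 : (0 : ℝ) < Q := by exact_mod_cast hQ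
  have hBc : ∀ m, Bc Q X p m = ∑ n ∈ Icc 1 (60 * X), ((lp n * tent Y (m - n) : ℝ) : ℂ) *
      p.2 (n : ZMod p.1) := by
    intro m
    unfold Bc
    rw [← hYd]
  rw [← hYd] at hY hYX hXY
  have hY0 : (0 : ℝ) < Y := by exact_mod_cast hY
  rw [hBc, hBc, ← Finset.sum_sub_distrib]
  set L := Real.log (60 * X) with hL
  have hLb : L ≤ 6 * Real.log X := by
    rw [hL, Real.log_mul (by norm_num) hX0.ne']
    have h3 : Real.log 60 ≤ 5 := by
      rw [Real.log_le_iff_le_exp (by norm_num)]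
      have h4 : (2.7 : ℝ) ≤ Real.exp 1 := by linarith [Real.exp_one_gt_d9]
      have h5 : Real.exp 5 = Real.exp 1 ^ 5 := by
        rw [← Real.exp_nat_mul]
        norm_num
      rw [h5]
      calc (60 : ℝ) ≤ 2.7 ^ 5 := by norm_num
        _ ≤ Real.exp 1 ^ 5 := pow_le_pow_left₀ (by norm_num) h4 5
    linarith
  have hL0 : 0 ≤ L := by
    rw [hL]
    apply Real.log_nonneg
    have : (1 : ℝ) ≤ X := by exact_mod_cast hX
    linarith
  have hlp : ∀ n ∈ Icc 1 (60 * X), 0 ≤ lp n ∧ lp n ≤ L := by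
    intro n hn
    rw [mem_Icc] at hn
    unfold Pool.Agent.Lib.H68T.lp
    have h3 : (1 : ℝ) ≤ ((n : ℤ) : ℝ) := by exact_mod_cast hn.1
    have h4 : ((n : ℤ) : ℝ) ≤ 60 * X := by exact_mod_cast hn.2
    split_ifs
    · exact ⟨Real.log_nonneg h3, Real.log_le_log (by linarith) h4⟩
    · exact ⟨le_rfl, hL0⟩
  have hterm : ∀ n ∈ Icc 1 (60 * X), ‖((lp n * tent Y (m + 1 - n) : ℝ) : ℂ) * p.2 (n : ZMod p.1) -
      ((lp n * tent Y (m - n) : ℝ) : ℂ) * p.2 (n : ZMod p.1)‖ ≤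
      if -(Y : ℤ) ≤ m - n ∧ m - n < Y then L * (1 / (Y : ℝ) ^ 2) else 0 := by
    intro n hn
    rw [← sub_mul, ← Complex.ofReal_sub, ← mul_sub, norm_mul, Complex.norm_real, Real.norm_eq_abs, abs_mul]
    have e1 : m + 1 - (n : ℤ) = (m - n) + 1 := by ring
    rw [e1]
    have hchi : ‖p.2 (n : ZMod p.1)‖ ≤ 1 := DirichletCharacter.norm_le_one p.2 _
    split_ifs with h
    · calc |lp n| * |tent Y (m - n + 1) - tent Y (m - n)| * ‖p.2 (n : ZMod p.1)‖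
          ≤ (L * (1 / (Y : ℝ) ^ 2)) * 1 := by
            apply mul_le_mul _ hchi (norm_nonneg _) (by positivity)
            apply mul_le_mul _ (cl1_tent_lip _) (abs_nonneg _) hL0
            rw [abs_of_nonneg (hlp n hn).1]
            exact (hlp n hn).2
        _ = _ := mul_one _
    · rw [cl1_tent_zero h, abs_zero, mul_zero, zero_mul]
  refine (norm_sum_le _ _).trans ((Finset.sum_le_sum hterm).trans ?_)
  rw [← Finset.sum_filter, Finset.sum_const, nsmul_eq_mul]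
  have hcard : ((Icc 1 (60 * X)).filter (fun n : ℕ => -(Y : ℤ) ≤ m - n ∧ m - n < Y)).card ≤ 2 * Y := by
    have hsub : (Icc 1 (60 * X)).filter (fun n : ℕ => -(Y : ℤ) ≤ m - n ∧ m - n < Y) ⊆
        Ioc (m.toNat - Y) (m.toNat + Y) := by
      intro n hn
      rw [mem_filter] at hn
      rw [mem_Ioc]
      omega
    refine (Finset.card_le_card hsub).trans ?_
    rw [Nat.card_Ioc]
    omega
  have hcard' : (((Icc 1 (60 * X)).filter (fun n : ℕ => -(Y : ℤ) ≤ m - n ∧ m - n < Y)).card : ℝ) ≤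
      2 * Y := by exact_mod_cast hcard
  refine (mul_le_mul_of_nonneg_right hcard' (by positivity)).trans ?_
  have e2 : 2 * (Y : ℝ) * (L * (1 / (Y : ℝ) ^ 2)) = 2 * L / Y := by
    field_simp
  rw [e2, div_le_div_iff₀ hY0 (by positivity)]
  have h8 : 8 * L ≤ Q := by linarith
  calc 2 * L * (2 * (X : ℝ)) = 4 * L * X := by ring
    _ ≤ 4 * L * (2 * (Q : ℝ) ^ 2 * Y) := mul_le_mul_of_nonneg_left hXY (by linarith)
    _ = (8 * L) * ((Q : ℝ) ^ 2 * Y) := by ring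
    _ ≤ Q * ((Q : ℝ) ^ 2 * Y) := mul_le_mul_of_nonneg_right h8 (by positivity)
    _ = (Q : ℝ) ^ 3 * Y := by ring

/-- `Lk` as a sum over the components: `DA_expand` (`Q + X/Q² ≤ X`, `X/Q² < X` for `K` large). -/
theorem Lk_SG : ∃ K : ℝ, 1 ≤ K ∧ ∀ Q X : ℕ, RegP K Q X → ∀ m : ℤ, (X : ℤ) ≤ m → m ≤ 4 * X →
    (Lk Q (X / Q ^ 2) m : ℂ) = SG Q (fun p => Bc Q X p m) m := by
  obtain ⟨K1, hK1, h1⟩ := BPS_regimeP
  obtain ⟨K2, hK2, h2⟩ := regp_pow_le 2 1 1 one_pos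
  refine ⟨max K1 K2, hK1.trans (le_max_left _ _), fun Q X hreg m hm hm4 => ?_⟩
  have hK0 : 0 ≤ max K1 K2 := by linarith [le_max_left K1 K2]
  obtain ⟨hQ, hX, hY, hYX, hXY, -⟩ := h1 Q X (hreg.mono hK0 (le_max_left _ _))
  have hlog := h2 Q X (hreg.mono hK0 (le_max_right _ _))
  rw [Real.rpow_one, Real.rpow_one] at hlog
  have h3 : 2 * Q ≤ X := by exact_mod_cast hlog
  unfold SG Bc
  exact DA_expand Q X (X / Q ^ 2) m hm hm4 (by omega) (by omega)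


theorem cl1_int_nonneg (Q : ℕ) (F : ℝ → ℂ) : 0 ≤ ∫ t in (-(Q : ℝ) ^ 7)..((Q : ℝ) ^ 7), ‖F t‖ := by
  apply intervalIntegral.integral_nonneg
  · have : (0 : ℝ) ≤ (Q : ℝ) ^ 7 := by positivity
    linarith
  · intro t _
    exact norm_nonneg _

theorem cl1_p0_one (m : ℤ) : (starRingEnd ℂ) (p0.2 (m : ZMod p0.1)) = 1 := by
  have h1 : (m : ZMod p0.1) = 1 := by
    have : Subsingleton (ZMod p0.1) := by
      change Subsingleton (ZMod 1)
      infer_instance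
    exact Subsingleton.elim _ _
  rw [h1, map_one, map_one]

/-- the bound for `p0` -/
theorem cl1_B0 : ∃ K : ℝ, 1 ≤ K ∧ ∀ Q X : ℕ, RegP K Q X → ∀ m : ℤ, (X : ℤ) ≤ m → m ≤ 4 * X →
    ‖Bc Q X p0 m - 1‖ ≤
      (∫ t in (-(Q : ℝ) ^ 7)..((Q : ℝ) ^ 7), ‖FL X p0 t - F0 X t‖) +
        (Q : ℝ) ^ (-(5 / 2) : ℝ) := by
  obtain ⟨K, hK, h⟩ := B0_leP
  refine ⟨K, hK, fun Q X hreg m hm hm4 => ?_⟩
  refine le_trans (le_of_eq ?_) (h Q X hreg m hm hm4)
  have h1 : Bc Q X p0 m - 1 = ((∑ n ∈ Icc 1 (60 * X), lp n * tent (X / Q ^ 2) (m - n) - 1 : ℝ) : ℂ) := by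
    unfold Bc
    push_cast
    congr 1
    refine Finset.sum_congr rfl fun n _ => ?_
    have h1 : (n : ZMod p0.1) = 1 := by
      have : Subsingleton (ZMod p0.1) := by
        change Subsingleton (ZMod 1)
        infer_instance
      exact Subsingleton.elim _ _
    rw [h1, map_one, mul_one]
  rw [h1, Complex.norm_real, Real.norm_eq_abs]

theorem cl1_Qpow {Q : ℕ} (hQ : 1 ≤ Q) : (Q : ℝ) ^ 2 * (Q : ℝ) ^ (-(5 / 2) : ℝ) = 1 / Real.sqrt Q ∧
    (Q : ℝ) ^ (-(3 / 2) : ℝ) ≤ 1 / Real.sqrt Q := by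
  have hQ0 : (0 : ℝ) < Q := by exact_mod_cast hQ
  have hQ1 : (1 : ℝ) ≤ Q := by exact_mod_cast hQ
  have h1 : 1 / Real.sqrt Q = (Q : ℝ) ^ (-(1 / 2) : ℝ) := by
    rw [Real.sqrt_eq_rpow, Real.rpow_neg hQ0.le, one_div]
  rw [h1]
  constructor
  · have h2 : (Q : ℝ) ^ 2 = (Q : ℝ) ^ (2 : ℝ) := by exact_mod_cast (Real.rpow_natCast (Q : ℝ) 2).symm
    rw [h2, ← Real.rpow_add hQ0]
    norm_num
  · exact Real.rpow_le_rpow_of_exponent_le hQ1 (by norm_num)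


/-- `m^(β-1)` varies slowly -/
theorem cl1_rpow {x β : ℝ} (hx : 1 ≤ x) (hβ : 0 ≤ β) (hβ1 : β ≤ 1) :
    |(x + 1) ^ (β - 1) - x ^ (β - 1)| ≤ 1 / x ∧ x ^ (β - 1) ≤ 1 ∧ 0 ≤ x ^ (β - 1) := by
  have hx0 : 0 < x := by linarith
  have h1 : x ^ (β - 1) ≤ 1 := Real.rpow_le_one_of_one_le_of_nonpos hx (by linarith)
  have h0 : 0 ≤ x ^ (β - 1) := Real.rpow_nonneg hx0.le _
  refine ⟨?_, h1, h0⟩
  have h2 : (x + 1) ^ (β - 1) ≤ x ^ (β - 1) :=
    Real.rpow_le_rpow_of_nonpos hx0 (by linarith) (by linarith)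
  rw [abs_of_nonpos (by linarith)]
  have h3 : x / (x + 1) ≤ (x / (x + 1)) ^ (1 - β) := by
    have h4 : 0 < x / (x + 1) := by positivity
    have h5 : x / (x + 1) ≤ 1 := by
      rw [div_le_one (by linarith)]
      linarith
    calc x / (x + 1) = (x / (x + 1)) ^ (1 : ℝ) := (Real.rpow_one _).symm
      _ ≤ (x / (x + 1)) ^ (1 - β) := Real.rpow_le_rpow_of_exponent_ge h4 h5 (by linarith)
  have h4 : (x + 1) ^ (β - 1) = x ^ (β - 1) * (x / (x + 1)) ^ (1 - β) := by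
    rw [Real.div_rpow hx0.le (by linarith), mul_div_assoc', ← Real.rpow_add hx0,
      show β - 1 + (1 - β) = 0 by ring, Real.rpow_zero, show β - 1 = -(1 - β) by ring,
      Real.rpow_neg (by linarith), one_div]
  rw [h4]
  have h5 : -(x ^ (β - 1) * (x / (x + 1)) ^ (1 - β) - x ^ (β - 1)) =
      x ^ (β - 1) * (1 - (x / (x + 1)) ^ (1 - β)) := by ring
  rw [h5]
  have h6 : 1 - (x / (x + 1)) ^ (1 - β) ≤ 1 / x := by
    have h7 : 1 - x / (x + 1) = 1 / (x + 1) := by field_simp; ring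
    have h8 : 1 / (x + 1) ≤ 1 / x := one_div_le_one_div_of_le hx0 (by linarith)
    linarith
  have h9 : 0 ≤ 1 - (x / (x + 1)) ^ (1 - β) := by
    have : (x / (x + 1)) ^ (1 - β) ≤ 1 := by
      apply Real.rpow_le_one (by positivity) _ (by linarith)
      rw [div_le_one (by linarith)]
      linarith
    linarith
  calc x ^ (β - 1) * (1 - (x / (x + 1)) ^ (1 - β)) ≤ 1 * (1 - (x / (x + 1)) ^ (1 - β)) :=
        mul_le_mul_of_nonneg_right h1 h9
    _ ≤ 1 / x := by linarith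


end Pool.Agent.Lib.H18Q
end

-- from Lib.H59P.Defs
section

/-!
# Project H59P: power savings for prime k-tuples (MP_f686a1_nt), definitions

See `PROOF.md` in this folder. The arithmetic input is `LevE` (project H18Q made quantitative): on
`[X, 4X]` the projection `Lk` of `lp` at level `Q` is a sum of components with slowly varying
coefficients, `1` at the trivial character, `-th m` at one real character `px`, and small ones.
-/

open Finset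

namespace Pool.Agent.Lib.H59P

open Pool.Agent.Lib.H68T Pool.Agent.Lib.H18Q

noncomputable section

/-- Characters with their modulus. -/
abbrev Ch := Σ r : ℕ, DirichletCharacter ℂ r

open Classical in
/-- The coefficients of the model: `1` at the trivial character, `-th m` at `px`, `0` else.
(For `px = p0`: `1` at `p0`, `0` else.) -/
def MX (px : Ch) (th : ℤ → ℝ) (m : ℤ) (p : Ch) : ℂ :=
  if p = p0 then 1 else if p = px then -((th m : ℝ) : ℂ) else 0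

/-- The projection `Lk` at level `Q` on `[X, 4X]` is the model with coefficients `M m p` up to
coefficients `e m p` of total size `E`; the latter vary slowly. -/
def LevE (Q X : ℕ) (E : ℝ) (M : ℤ → Ch → ℂ) : Prop :=
  ∃ (e : ℤ → Ch → ℂ) (eb : Ch → ℝ), (∀ p ∈ PC Q, 0 ≤ eb p) ∧ ∑ p ∈ PC Q, eb p ≤ E ∧
    ∀ m : ℤ, (X : ℤ) ≤ m → m ≤ 4 * X →
      ((Lk Q (X / Q ^ 2) m : ℝ) : ℂ) = SG Q (fun p => M m p + e m p) m ∧
      ∀ p ∈ PC Q, ‖e m p‖ ≤ eb p ∧ ‖e (m + 1) p - e m p‖ ≤ (Q : ℝ) ^ 3 / X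

/-- Everything the additive part needs about the level `Q` and the length `X`: the level structure
with the model `MX px th`, `px` a real character of small conductor, `0 ≤ th ≤ 1 - η` slowly varying,
and the coefficients of the error at most `η E0` in total. -/
structure Mdl (Q X : ℕ) (η E0 : ℝ) (px : Ch) (th : ℤ → ℝ) : Prop where
  eta_pos : 0 < η
  eta_le : η ≤ 1
  mem : px ∈ PC Q
  real : px.2 ^ 2 = 1
  cond : px.1 ^ 100 ≤ Q
  triv : px = p0 → ∀ m, th m = 0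
  nonneg : ∀ m, (X : ℤ) ≤ m → m ≤ 4 * X → 0 ≤ th m
  le : ∀ m, (X : ℤ) ≤ m → m ≤ 4 * X → th m ≤ 1 - η
  slow : ∀ m, (X : ℤ) ≤ m → m + 1 ≤ 4 * X → |th (m + 1) - th m| ≤ (Q : ℝ) ^ 3 / X
  lev : LevE Q X (η * E0) (MX px th)

/-- The local factor of the expansion of the von Mangoldt function at the prime `l`: `-1` if `l` divides
`m`, else `1/(l-1)`; so `1 + gl l m = l/(l-1)` if `l` does not divide `m`, and `0` else. -/
def gl (l : ℕ) (m : ℤ) : ℝ := if (l : ℤ) ∣ m then -1 else 1 / ((l : ℝ) - 1)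

/-- `∏_{l ∈ P} (1 + gl l m)` -/
def uu (P : Finset ℕ) (m : ℤ) : ℝ := ∏ l ∈ P, (1 + gl l m)

/-- The primes up to `z`. -/
def pr (z : ℕ) : Finset ℕ := (Icc 1 z).filter Nat.Prime

/-- The local factor of the singular series at the prime `l`, minus `1`. -/
def tp {k : ℕ} (l : ℕ) (h : Fin k → ℕ) : ℝ :=
  (∑ n ∈ range l, ∏ i, (1 + gl l ((n : ℤ) + h i))) / l - 1

/-- The product of the local factors of the singular series over the primes in `P`. -/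
def SS {k : ℕ} (P : Finset ℕ) (h : Fin k → ℕ) : ℝ := ∏ l ∈ P, (1 + tp l h)

/-- `∏_i (1 + gl l (n + h_i)) - 1` -/
def Wl {k : ℕ} (l : ℕ) (h : Fin k → ℕ) (n : ℤ) : ℝ := ∏ i, (1 + gl l (n + h i)) - 1

/-- `∏_{l ∣ d} Wl l h n` (`d` squarefree) -/
def Wd {k : ℕ} (d : ℕ) (h : Fin k → ℕ) (n : ℤ) : ℝ := ∏ l ∈ d.primeFactors, Wl l h n

/-- `∏_{l ∣ d} tp l h` (`d` squarefree) -/
def td {k : ℕ} (d : ℕ) (h : Fin k → ℕ) : ℝ := ∏ l ∈ d.primeFactors, tp l h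

/-- The squarefree `d ≤ D` coprime to `R`. -/
def SF (D R : ℕ) : Finset ℕ :=
  open Classical in (Icc 1 D).filter (fun d => Squarefree d ∧ Nat.Coprime d R)

/-- `h` is admissible: for every prime `l` some `n` makes all `n + h_i` prime to `l`. -/
def Adm {k : ℕ} (h : Fin k → ℕ) : Prop :=
  ∀ l : ℕ, l.Prime → ∃ n : ℕ, ∀ i, ¬ l ∣ n + h i

/-- The cube `∏ [b_i, b_i + H)`. -/
def cube {k : ℕ} (b : Fin k → ℕ) (H : ℕ) : Finset (Fin k → ℕ) :=
  Fintype.piFinset fun i => Ico (b i) (b i + H)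



/-- The weighted count `∑_n ∏_i lp(n + h_i)`. -/
def Rh {k : ℕ} (X : ℕ) (h : Fin k → ℕ) : ℝ :=
  ∑ n ∈ Ico X (2 * X), ∏ i, lp ((n : ℤ) + h i)

end

end Pool.Agent.Lib.H59P
end

-- from Lib.H59P.MDefs
section

/-!
# Project H59P: definitions for the main terms
-/

open Finset

namespace Pool.Agent.Lib.H59P

open Pool.Agent.Lib.H68T Pool.Agent.Lib.H18Q

noncomputable section

/-- `conj χ_p(m)` -/
def cj (p : Ch) (m : ℤ) : ℂ := (starRingEnd ℂ) (p.2 (m : ZMod p.1))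

/-- The periodic function of the main term: `∏_i conj χ_i(n+h_i) ∏_{l ∈ P} (1 + gl l (n+h_i))`. -/
def Ph {k : ℕ} (p : Fin k → Ch) (P : Finset ℕ) (h : Fin k → ℕ) (n : ℤ) : ℂ :=
  ∏ i, (cj (p i) (n + h i) * ((uu P (n + h i) : ℝ) : ℂ))

/-- Its mean modulo `R` for the primes dividing `R`. -/
def MR {k : ℕ} (p : Fin k → Ch) (R : ℕ) (h : Fin k → ℕ) : ℂ :=
  (∑ n ∈ range R, Ph p R.primeFactors h n) / R

/-- The mean over a complete period `Q!` for all primes up to `Q`. -/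
def MQ {k : ℕ} (Q : ℕ) (p : Fin k → Ch) (h : Fin k → ℕ) : ℂ :=
  (∑ n ∈ range Q.factorial, Ph p (pr Q) h n) / (Q.factorial : ℂ)

/-- The function of the main term: `∏_i uu(n+h_i) (1 - th_i ψ(n+h_i))`, `ψ` the character of `px`
(real). -/
def fP {k : ℕ} (Q : ℕ) (px : Ch) (th : Fin k → ℝ) (h : Fin k → ℕ) (n : ℤ) : ℝ :=
  ∏ i, (uu (pr Q) (n + h i) * (1 - th i * (cj px (n + h i)).re))

/-- The main term: the mean of `fP` over a complete period. -/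
def PM {k : ℕ} (Q : ℕ) (px : Ch) (th : Fin k → ℝ) (h : Fin k → ℕ) : ℝ :=
  (∑ n ∈ range Q.factorial, fP Q px th h n) / (Q.factorial : ℝ)

open Classical in
/-- The tuples of characters with `lcm(px.1, p_1.1, …, p_k.1) ≤ D`. -/
def TS (k Q D : ℕ) (px : Ch) : Finset (Fin k → Ch) :=
  (Fintype.piFinset fun _ : Fin k => PC Q).filter
    (fun p => px.1.lcm (univ.lcm fun i => (p i).1) ≤ D)

/-- The modulus of a tuple of characters. -/
def Rp {k : ℕ} (px : Ch) (p : Fin k → Ch) : ℕ := px.1.lcm (univ.lcm fun i => (p i).1)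

end

end Pool.Agent.Lib.H59P
end
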