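import Mathlib
import Pool.Agent.Lib.H59M.M1.D_H59_SchinzelDefs
import Pool.Agent.Lib.H59M.M1.M004
import Pool.Agent.Lib.H59M.M1.M010
import Pool.Agent.Lib.H59M.M1.M049

/-! Merged copies (to shorten the build) of Lib.H59.PolyField, Lib.H59.ChebLite, Lib.H59.PolyKey, Lib.H59.SieveMain, Lib.H59.SieveRankin, Lib.H59.PolySieve, Lib.H33B.Defs, Lib.H33B.V1, Lib.H33B.V5, Lib.Helper57.Mertens, Lib.H33B.V3, Lib.H33B.V2, Lib.H33B.V4, Lib.H33B.V6. -/

-- from Lib.H59.PolyField
section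

/-!
# The number field attached to an irreducible integer polynomial

-/

open Set Module Filter Topology NumberField IsDedekindDomain Polynomial
open scoped NNReal nonZeroDivisors ENNReal
open Ideal (absNorm)

noncomputable section

namespace Pool.Agent.Lib.H59



section General

variable {K : Type*} [Field K] [NumberField K]

/-- The sum of the absolute values of the coefficients. -/
def coeffSum (f : ℤ[X]) : ℝ := ∑ i ∈ Finset.range (f.natDegree + 1), |(f.coeff i : ℝ)|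

theorem abs_leadingCoeff_le (f : ℤ[X]) : |(f.leadingCoeff : ℝ)| ≤ coeffSum f := by
  unfold coeffSum
  exact Finset.single_le_sum (f := fun i => |(f.coeff i : ℝ)|) (fun i _ => abs_nonneg _)
    (Finset.mem_range.mpr (Nat.lt_succ_self _))

theorem one_le_coeffSum {f : ℤ[X]} (hf : f ≠ 0) : 1 ≤ coeffSum f := by
  refine le_trans ?_ (abs_leadingCoeff_le f)
  have h : f.leadingCoeff ≠ 0 := leadingCoeff_ne_zero.mpr hf
  have := Int.one_le_abs h
  exact_mod_cast this



end General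

end Pool.Agent.Lib.H59
end
end

-- from Lib.H59.ChebLite
section

/-!
# Elementary estimates for sums over primes

-/

open Finset Real

noncomputable section

namespace Pool.Agent.Lib.H59

theorem half_rpow_le {σ : ℝ} (h0 : 0 ≤ σ) (h1 : σ ≤ 1) : (1 / 2 : ℝ) ^ σ ≤ 1 - σ / 2 := by
  have := _root_.rpow_one_add_le_one_add_mul_self (s := -(1 / 2 : ℝ)) (by norm_num) h0 h1
  calc (1 / 2 : ℝ) ^ σ = (1 + -(1 / 2 : ℝ)) ^ σ := by norm_num
    _ ≤ 1 + σ * -(1 / 2) := this
    _ = 1 - σ / 2 := by ring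

theorem sum_log_prime_lt (j : ℕ) (T : Finset ℕ) (hT : ∀ p ∈ T, p.Prime)
    (hj : ∀ p ∈ T, p < 2 ^ j) : ∑ p ∈ T, Real.log p ≤ Real.log 4 * 2 ^ j := by
  have h1 := Chebyshev.theta_le_log4_mul_x (x := (2 : ℝ) ^ j) (by positivity)
  refine le_trans ?_ h1
  rw [Chebyshev.theta]
  refine Finset.sum_le_sum_of_subset_of_nonneg ?_ ?_
  · intro p hp
    have hpp := hT p hp
    have hlt := hj p hp
    rw [Finset.mem_filter, Finset.mem_Ioc]
    refine ⟨⟨hpp.pos, Nat.le_floor ?_⟩, hpp⟩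
    have : (p : ℝ) < (2 : ℝ) ^ j := by exact_mod_cast hlt
    exact this.le
  · intro p hp _
    rw [Finset.mem_filter, Finset.mem_Ioc] at hp
    exact Real.log_nonneg (by exact_mod_cast hp.1.1)

/-- `∑ log p / p ^ (1 + σ) ≤ C / σ`. -/
theorem sum_log_div_rpow_le (T : Finset ℕ) (hT : ∀ p ∈ T, p.Prime) {σ : ℝ} (h0 : 0 < σ)
    (h1 : σ ≤ 1) : ∑ p ∈ T, Real.log p * (p : ℝ) ^ (-(1 + σ)) ≤ 4 * Real.log 4 / σ := by
  classical
  -- group by the dyadic size
  have hmap : ∀ p ∈ T, Nat.log 2 p ∈ Finset.range (T.sup (Nat.log 2) + 1) := fun p hp => by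
    rw [Finset.mem_range]
    exact Nat.lt_succ_of_le (Finset.le_sup (f := Nat.log 2) hp)
  rw [← Finset.sum_fiberwise_of_maps_to hmap]
  have hlog4 : 0 < Real.log 4 := Real.log_pos (by norm_num)
  have hfib : ∀ j ∈ Finset.range (T.sup (Nat.log 2) + 1),
      ∑ p ∈ T with Nat.log 2 p = j, Real.log p * (p : ℝ) ^ (-(1 + σ)) ≤
        2 * Real.log 4 * ((1 / 2 : ℝ) ^ σ) ^ j := by
    intro j _
    have hb : ∀ p ∈ T.filter (fun p => Nat.log 2 p = j), Real.log p * (p : ℝ) ^ (-(1 + σ)) ≤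
        Real.log p * ((2 : ℝ) ^ j) ^ (-(1 + σ)) := by
      intro p hp
      rw [Finset.mem_filter] at hp
      have hpp := hT p hp.1
      have h2 : 2 ^ j ≤ p := by
        rw [← hp.2]
        exact Nat.pow_log_le_self 2 hpp.ne_zero
      have h3 : ((2 : ℝ) ^ j) ≤ p := by exact_mod_cast h2
      have h4 : 0 ≤ Real.log p := Real.log_nonneg (by exact_mod_cast hpp.one_le)
      refine mul_le_mul_of_nonneg_left ?_ h4
      exact Real.rpow_le_rpow_of_nonpos (by positivity) h3 (by linarith)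
    refine (Finset.sum_le_sum hb).trans ?_
    rw [← Finset.sum_mul]
    have h5 := sum_log_prime_lt (j + 1) (T.filter (fun p => Nat.log 2 p = j))
      (fun p hp => hT p (Finset.mem_filter.mp hp).1) (fun p hp => by
        rw [Finset.mem_filter] at hp
        rw [← hp.2]
        exact Nat.lt_pow_succ_log_self (by norm_num) p)
    have hpos : 0 ≤ ((2 : ℝ) ^ j) ^ (-(1 + σ)) := by positivity
    refine (mul_le_mul_of_nonneg_right h5 hpos).trans (le_of_eq ?_)
    have e1 : ((2 : ℝ) ^ j) ^ (-(1 + σ)) = ((2 : ℝ) ^ j)⁻¹ * ((1 / 2 : ℝ) ^ σ) ^ j := by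
      rw [neg_add, Real.rpow_add (by positivity), Real.rpow_neg_one]
      congr 1
      rw [one_div, Real.inv_rpow (by norm_num), ← Real.rpow_natCast, ← Real.rpow_natCast,
        ← Real.rpow_mul (by norm_num), Real.rpow_natCast, inv_pow, ← Real.rpow_natCast,
        ← Real.rpow_mul (by norm_num), ← Real.rpow_neg (by norm_num)]
      congr 1
      ring
    rw [e1, pow_succ]
    have : (2 : ℝ) ^ j ≠ 0 := by positivity
    field_simp
  refine (Finset.sum_le_sum hfib).trans ?_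
  rw [← Finset.mul_sum]
  have hq0 : 0 ≤ (1 / 2 : ℝ) ^ σ := by positivity
  have hq1 : (1 / 2 : ℝ) ^ σ ≤ 1 - σ / 2 := half_rpow_le h0.le h1
  have hlt : (1 / 2 : ℝ) ^ σ < 1 := by linarith
  have hgeo : ∑ j ∈ Finset.range (T.sup (Nat.log 2) + 1), ((1 / 2 : ℝ) ^ σ) ^ j ≤
      (1 - (1 / 2 : ℝ) ^ σ)⁻¹ := by
    rw [← tsum_geometric_of_lt_one hq0 hlt]
    exact (summable_geometric_of_lt_one hq0 hlt).sum_le_tsum _ (fun i _ => by positivity)
  have h6 : (1 - (1 / 2 : ℝ) ^ σ)⁻¹ ≤ 2 / σ := by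
    rw [inv_le_comm₀ (by linarith) (by positivity), inv_div]
    linarith
  calc 2 * Real.log 4 * ∑ j ∈ Finset.range (T.sup (Nat.log 2) + 1), ((1 / 2 : ℝ) ^ σ) ^ j
      ≤ 2 * Real.log 4 * (2 / σ) := by gcongr; exact hgeo.trans h6
    _ = 4 * Real.log 4 / σ := by ring

/-- `∑_{p ≤ z} log p / p ≤ C log z`. -/
theorem sum_log_div_le (T : Finset ℕ) (hT : ∀ p ∈ T, p.Prime) {z : ℝ} (hz : 2 ≤ z)
    (hTz : ∀ p ∈ T, (p : ℝ) ≤ z) :
    ∑ p ∈ T, Real.log p / p ≤ 14 * Real.log 4 * Real.log z := by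
  have hlog4 : 0 < Real.log 4 := Real.log_pos (by norm_num)
  have hlogz : 0 < Real.log z := Real.log_pos (by linarith)
  have hlog2 : 0.6931471803 < Real.log 2 := Real.log_two_gt_d9
  have hlogz2 : Real.log 2 ≤ Real.log z := Real.log_le_log (by norm_num) hz
  set σ : ℝ := 1 / (2 * Real.log z) with hσ
  have hσ0 : 0 < σ := by positivity
  have hσ1 : σ ≤ 1 := by
    rw [hσ, div_le_one (by positivity)]
    linarith
  have h1 := sum_log_div_rpow_le T hT hσ0 hσ1
  have h2 : ∀ p ∈ T, Real.log p / p ≤ Real.exp (1 / 2) * (Real.log p * (p : ℝ) ^ (-(1 + σ))) := by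
    intro p hp
    have hpp := hT p hp
    have hp0 : (0 : ℝ) < p := by exact_mod_cast hpp.pos
    have hlp : 0 ≤ Real.log p := Real.log_nonneg (by exact_mod_cast hpp.one_le)
    have h3 : (p : ℝ) ^ (-(1 + σ)) = (p : ℝ)⁻¹ * (p : ℝ) ^ (-σ) := by
      rw [neg_add, Real.rpow_add hp0, Real.rpow_neg_one]
    have h4 : Real.exp (-(1 / 2)) ≤ (p : ℝ) ^ (-σ) := by
      rw [Real.rpow_def_of_pos hp0]
      apply Real.exp_le_exp.mpr
      have h5 : Real.log p ≤ Real.log z := Real.log_le_log hp0 (hTz p hp)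
      have h6 : Real.log p * σ ≤ 1 / 2 := by
        calc Real.log p * σ ≤ Real.log z * σ := by gcongr
          _ = 1 / 2 := by rw [hσ]; field_simp
      linarith
    rw [h3]
    calc Real.log p / p = Real.exp (1 / 2) * (Real.log p * ((p : ℝ)⁻¹ * Real.exp (-(1 / 2)))) := by
          rw [div_eq_mul_inv]
          have : Real.exp (1 / 2) * Real.exp (-(1 / 2)) = 1 := by rw [← Real.exp_add]; norm_num
          calc Real.log p * (p : ℝ)⁻¹ = Real.log p * (p : ℝ)⁻¹ * 1 := by ring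
            _ = Real.log p * (p : ℝ)⁻¹ * (Real.exp (1 / 2) * Real.exp (-(1 / 2))) := by rw [this]
            _ = _ := by ring
      _ ≤ _ := by gcongr
  calc ∑ p ∈ T, Real.log p / p ≤ ∑ p ∈ T, Real.exp (1 / 2) * (Real.log p * (p : ℝ) ^ (-(1 + σ))) :=
        Finset.sum_le_sum h2
    _ = Real.exp (1 / 2) * ∑ p ∈ T, (Real.log p * (p : ℝ) ^ (-(1 + σ))) := by rw [Finset.mul_sum]
    _ ≤ Real.exp (1 / 2) * (4 * Real.log 4 / σ) := by gcongr
    _ = Real.exp (1 / 2) * 8 * Real.log 4 * Real.log z := by rw [hσ]; field_simp; ring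
    _ ≤ 14 * Real.log 4 * Real.log z := by
        have h7 : Real.exp (1 / 2) * 8 ≤ 14 := by
          have h8 : Real.exp (1 / 2) ^ 2 ≤ 1.6875 ^ 2 := by
            rw [← Real.exp_nat_mul]
            have := Real.exp_one_lt_d9
            norm_num at this ⊢
            linarith
          have h9 : Real.exp (1 / 2) ≤ 1.6875 := by
            exact le_of_sq_le_sq h8 (by norm_num)
          linarith
        gcongr

end Pool.Agent.Lib.H59
end
end

-- from Lib.H59.PolyKey
section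

/-!
# A uniform Mertens upper bound for the roots modulo primes of an irreducible polynomial

-/

open Set Module Filter Topology NumberField IsDedekindDomain Polynomial
open scoped NNReal nonZeroDivisors ENNReal
open Ideal (absNorm)

noncomputable section

namespace Pool.Agent.Lib.H59

/-- The number of residues `a` modulo `p` with `f a ≡ 0`. -/
def rootCount (f : ℤ[X]) (p : ℕ) : ℕ :=
  ((Finset.range p).filter fun a : ℕ => (p : ℤ) ∣ f.eval (a : ℤ)).card



theorem map_zmod_ne_zero {f : ℤ[X]} (hf : f.IsPrimitive) {p : ℕ} (hp : p.Prime) :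
    f.map (Int.castRingHom (ZMod p)) ≠ 0 := by
  intro h
  have h1 : C (p : ℤ) ∣ f := by
    rw [C_dvd_iff_dvd_coeff]
    intro i
    have := congrArg (fun q => q.coeff i) h
    simp only [coeff_map, coeff_zero, eq_intCast] at this
    exact (ZMod.intCast_zmod_eq_zero_iff_dvd _ _).mp this
  have h2 := hf _ h1
  exact (Nat.prime_iff_prime_int.mp hp).not_isUnit h2

theorem rootCount_le_natDegree {f : ℤ[X]} (hf : f.IsPrimitive) {p : ℕ} (hp : p.Prime) :
    rootCount f p ≤ f.natDegree := by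
  classical
  have : Fact p.Prime := ⟨hp⟩
  set g := f.map (Int.castRingHom (ZMod p)) with hg
  have hg0 : g ≠ 0 := map_zmod_ne_zero hf hp
  have h1 : rootCount f p ≤ g.roots.toFinset.card := by
    unfold rootCount
    refine Finset.card_le_card_of_injOn (fun a : ℕ => (a : ZMod p)) ?_ ?_
    · intro a ha
      rw [Finset.mem_coe, Finset.mem_filter] at ha
      rw [Finset.mem_coe, Multiset.mem_toFinset, mem_roots hg0, IsRoot.def, hg]
      have h2 : ((f.eval (a : ℤ) : ℤ) : ZMod p) = 0 :=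
        (ZMod.intCast_zmod_eq_zero_iff_dvd _ _).mpr ha.2
      rw [eval_map, eval₂_eq_eval_map] at *
      have h3 := eval_intCast_map (Int.castRingHom (ZMod p)) f (a : ℤ)
      simp only [Int.cast_natCast, eq_intCast] at h3
      rw [h3]
      exact h2
    · intro a ha b hb hab
      rw [Finset.mem_coe, Finset.mem_filter, Finset.mem_range] at ha hb
      have := (ZMod.natCast_eq_natCast_iff' a b p).mp hab
      rwa [Nat.mod_eq_of_lt ha.1, Nat.mod_eq_of_lt hb.1] at this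
  refine h1.trans ((Multiset.toFinset_card_le _).trans ((card_roots' g).trans ?_))
  rw [hg]
  exact natDegree_map_le




end Pool.Agent.Lib.H59
end
end

-- from Lib.H59.SieveMain
section

/-!
# The Selberg upper bound sieve with a trivially bounded error term

-/

open Finset ArithmeticFunction
open scoped ArithmeticFunction.Moebius ArithmeticFunction.zeta

noncomputable section

namespace Pool.Agent.Lib.H59

theorem sum_moebius_divisors (k : ℕ) : ∑ e ∈ k.divisors, μ e = if k = 1 then 1 else 0 := by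
  have h := congrArg (fun f : ArithmeticFunction ℤ => f k) coe_zeta_mul_moebius
  simp only [coe_zeta_mul_apply, one_apply] at h
  exact h

/-- Moebius sum over the multiples of `l`. -/
theorem sum_moebius_multiples {m l : ℕ} (hm : Squarefree m) (hl : l ∣ m) :
    ∑ d ∈ m.divisors, (if l ∣ d then μ d else 0) = if l = m then μ l else 0 := by
  obtain ⟨k, rfl⟩ := hl
  have hcop := Nat.coprime_of_squarefree_mul hm
  have hl0 : l ≠ 0 := by rintro rfl; simp at hm
  have hk0 : k ≠ 0 := by rintro rfl; simp at hm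
  have h1 : ∑ d ∈ (l * k).divisors with l ∣ d, μ d = ∑ e ∈ k.divisors, μ (l * e) := by
    symm
    refine sum_bij (fun e _ => l * e) ?_ ?_ ?_ ?_
    · intro e he
      rw [Nat.mem_divisors] at he
      rw [mem_filter, Nat.mem_divisors]
      exact ⟨⟨Nat.mul_dvd_mul_left l he.1, mul_ne_zero hl0 hk0⟩, dvd_mul_right _ _⟩
    · intro a _ b _ hab
      exact Nat.eq_of_mul_eq_mul_left (Nat.pos_of_ne_zero hl0) hab
    · intro d hd
      rw [mem_filter, Nat.mem_divisors] at hd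
      obtain ⟨⟨hd1, _⟩, e, rfl⟩ := hd
      refine ⟨e, ?_, rfl⟩
      rw [Nat.mem_divisors]
      exact ⟨Nat.dvd_of_mul_dvd_mul_left (Nat.pos_of_ne_zero hl0) hd1, hk0⟩
    · intro e _
      rfl
  rw [← sum_filter, h1]
  have h2 : ∀ e ∈ k.divisors, μ (l * e) = μ l * μ e := by
    intro e he
    have : l.Coprime e := Nat.Coprime.coprime_dvd_right (Nat.dvd_of_mem_divisors he) hcop
    exact isMultiplicative_moebius.map_mul_of_coprime this
  rw [sum_congr rfl h2, ← mul_sum, sum_moebius_divisors]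
  by_cases hk : k = 1
  · simp [hk]
  · have : l ≠ l * k := by
      intro h
      apply hk
      have h' : l * 1 = l * k := by rw [mul_one]; exact h
      exact (Nat.eq_of_mul_eq_mul_left (Nat.pos_of_ne_zero hl0) h').symm
    simp [hk, this]

variable (s : BoundingSieve) (R : ℝ)

/-- The divisors up to the level. -/
def lvl : Finset ℕ := (Nat.divisors s.prodPrimes).filter fun l => (l : ℝ) ≤ R

/-- The Selberg sum. -/
def selS : ℝ := ∑ l ∈ lvl s R, s.selbergTerms l

/-- The Selberg weights. -/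
def selW (d : ℕ) : ℝ :=
  (s.nu d)⁻¹ * (μ d : ℝ) * ((∑ l ∈ lvl s R, if d ∣ l then s.selbergTerms l else 0) / selS s R)

variable {s R}

theorem mem_lvl {l : ℕ} : l ∈ lvl s R ↔ l ∣ s.prodPrimes ∧ (l : ℝ) ≤ R := by
  unfold lvl
  rw [mem_filter, Nat.mem_divisors]
  constructor
  · rintro ⟨⟨h1, _⟩, h2⟩; exact ⟨h1, h2⟩
  · rintro ⟨h1, h2⟩; exact ⟨⟨h1, BoundingSieve.prodPrimes_ne_zero⟩, h2⟩

theorem selbergTerms_nonneg_of_mem {l : ℕ} (hl : l ∈ lvl s R) : 0 ≤ s.selbergTerms l :=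
  (BoundingSieve.selbergTerms_pos (mem_lvl.mp hl).1).le

theorem one_mem_lvl (hR : 1 ≤ R) : 1 ∈ lvl s R := mem_lvl.mpr ⟨one_dvd _, by simpa using hR⟩

theorem one_le_selS (hR : 1 ≤ R) : 1 ≤ selS s R := by
  unfold selS
  have h := single_le_sum (f := fun l => s.selbergTerms l)
    (fun l hl => selbergTerms_nonneg_of_mem hl) (one_mem_lvl (s := s) hR)
  have h1 : s.selbergTerms 1 = 1 := BoundingSieve.selbergTerms_isMultiplicative.map_one
  simpa [h1] using h

theorem selW_one (hR : 1 ≤ R) : selW s R 1 = 1 := by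
  have h := one_le_selS (s := s) hR
  unfold selW
  have h1 : s.nu 1 = 1 := s.nu_mult.map_one
  rw [h1]
  simp only [one_dvd, if_true, moebius_apply_one, Int.cast_one, inv_one, one_mul]
  change selS s R / selS s R = 1
  exact div_self (by linarith)

/-- The inverted relation. -/
theorem sum_nu_selW {l : ℕ} (hl : l ∣ s.prodPrimes) :
    ∑ d ∈ Nat.divisors s.prodPrimes, (if l ∣ d then s.nu d * selW s R d else 0) =
      if l ∈ lvl s R then (μ l : ℝ) * s.selbergTerms l / selS s R else 0 := by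
  have h1 : ∀ d ∈ Nat.divisors s.prodPrimes, (if l ∣ d then s.nu d * selW s R d else 0) =
      ∑ m ∈ lvl s R, (if d ∣ m then (if l ∣ d then (μ d : ℝ) else 0) else 0) *
        (s.selbergTerms m / selS s R) := by
    intro d hd
    have hd' := Nat.dvd_of_mem_divisors hd
    have hnu := BoundingSieve.nu_ne_zero hd'
    split_ifs with h
    · unfold selW
      rw [← mul_assoc, ← mul_assoc, mul_inv_cancel₀ hnu, one_mul, sum_div, mul_sum]
      refine sum_congr rfl fun m _ => ?_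
      split_ifs <;> simp
    · simp
  rw [sum_congr rfl h1, sum_comm]
  have h2 : ∀ m ∈ lvl s R, ∑ d ∈ Nat.divisors s.prodPrimes,
      (if d ∣ m then (if l ∣ d then (μ d : ℝ) else 0) else 0) * (s.selbergTerms m / selS s R) =
      if l = m then (μ l : ℝ) * s.selbergTerms m / selS s R else 0 := by
    intro m hm
    have hmP := (mem_lvl.mp hm).1
    rw [← sum_mul, ← sum_filter, Nat.divisors_filter_dvd_of_dvd BoundingSieve.prodPrimes_ne_zero hmP]
    by_cases hlm : l ∣ m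
    · have h3 := sum_moebius_multiples (BoundingSieve.squarefree_of_dvd_prodPrimes hmP) hlm
      have h4 : ∑ d ∈ m.divisors, (if l ∣ d then (μ d : ℝ) else 0) =
          if l = m then (μ l : ℝ) else 0 := by
        exact_mod_cast congrArg (fun z : ℤ => (z : ℝ)) h3
      rw [h4]
      split_ifs <;> ring
    · have h5 : l ≠ m := by rintro rfl; exact hlm dvd_rfl
      rw [if_neg h5]
      have h6 : ∑ d ∈ m.divisors, (if l ∣ d then (μ d : ℝ) else 0) = 0 := by
        refine sum_eq_zero fun d hd => ?_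
        rw [if_neg]
        intro h
        exact hlm (h.trans (Nat.dvd_of_mem_divisors hd))
      rw [h6, zero_mul]
  rw [sum_congr rfl h2, sum_ite_eq]

theorem mainSum_selW (hR : 1 ≤ R) :
    s.mainSum (BoundingSieve.lambdaSquared (selW s R)) = 1 / selS s R := by
  have hS := one_le_selS (s := s) hR
  rw [BoundingSieve.mainSum_lambdaSquared_eq_sum_mul_sum_sq]
  have h1 : ∀ l ∈ Nat.divisors s.prodPrimes, (s.selbergTerms l)⁻¹ *
      (∑ d ∈ Nat.divisors s.prodPrimes, if l ∣ d then s.nu d * selW s R d else 0) ^ 2 =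
      if (l : ℝ) ≤ R then s.selbergTerms l / selS s R ^ 2 else 0 := by
    intro l hl
    have hlP := Nat.dvd_of_mem_divisors hl
    rw [sum_nu_selW hlP]
    have hg := BoundingSieve.selbergTerms_pos hlP
    by_cases h : (l : ℝ) ≤ R
    · rw [if_pos (mem_lvl.mpr ⟨hlP, h⟩), if_pos h]
      have h2 : ((μ l : ℝ)) ^ 2 = 1 := by
        exact_mod_cast moebius_sq_eq_one_of_squarefree
          (BoundingSieve.squarefree_of_dvd_prodPrimes hlP)
      rw [div_pow, mul_pow, h2]
      field_simp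
    · rw [if_neg (fun hh => h (mem_lvl.mp hh).2), if_neg h]
      simp
  rw [sum_congr rfl h1, ← sum_filter]
  change ∑ l ∈ lvl s R, s.selbergTerms l / selS s R ^ 2 = 1 / selS s R
  rw [← sum_div]
  change selS s R / selS s R ^ 2 = 1 / selS s R
  field_simp

theorem abs_selW_le (hR : 1 ≤ R) {d : ℕ} (hd : d ∣ s.prodPrimes) :
    |selW s R d| ≤ ∏ p ∈ d.primeFactors, (1 - s.nu p)⁻¹ := by
  have hS := one_le_selS (s := s) hR
  have hnu := BoundingSieve.nu_pos_of_dvd_prodPrimes hd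
  have hd0 : 0 < d := Nat.pos_of_ne_zero (ne_zero_of_dvd_ne_zero BoundingSieve.prodPrimes_ne_zero hd)
  have hg := BoundingSieve.selbergTerms_pos hd
  -- the inner sum
  have h1 : ∑ l ∈ lvl s R, (if d ∣ l then s.selbergTerms l else 0) ≤
      s.selbergTerms d * selS s R := by
    rw [← sum_filter]
    have h2 : ∀ l ∈ (lvl s R).filter (d ∣ ·), s.selbergTerms l =
        s.selbergTerms d * s.selbergTerms (l / d) := by
      intro l hl
      rw [mem_filter, mem_lvl] at hl
      obtain ⟨⟨hlP, _⟩, k, rfl⟩ := hl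
      rw [Nat.mul_div_cancel_left _ hd0]
      exact BoundingSieve.selbergTerms_isMultiplicative.map_mul_of_coprime
        (Nat.coprime_of_squarefree_mul (BoundingSieve.squarefree_of_dvd_prodPrimes hlP))
    rw [sum_congr rfl h2, ← mul_sum]
    refine mul_le_mul_of_nonneg_left ?_ hg.le
    have h3 : ∑ l ∈ (lvl s R).filter (d ∣ ·), s.selbergTerms (l / d) =
        ∑ k ∈ ((lvl s R).filter (d ∣ ·)).image (· / d), s.selbergTerms k := by
      rw [sum_image]
      intro a ha b hb hab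
      rw [mem_coe, mem_filter] at ha hb
      obtain ⟨_, k, rfl⟩ := ha
      obtain ⟨_, k', rfl⟩ := hb
      simp only [Nat.mul_div_cancel_left _ hd0] at hab
      rw [hab]
    rw [h3]
    refine sum_le_sum_of_subset_of_nonneg ?_ fun l hl _ => selbergTerms_nonneg_of_mem hl
    intro k hk
    rw [mem_image] at hk
    obtain ⟨l, hl, rfl⟩ := hk
    rw [mem_filter, mem_lvl] at hl
    obtain ⟨⟨hlP, hlR⟩, k, rfl⟩ := hl
    rw [Nat.mul_div_cancel_left _ hd0, mem_lvl]
    refine ⟨(dvd_mul_left k d).trans hlP, le_trans ?_ hlR⟩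
    have : k ≤ d * k := Nat.le_mul_of_pos_left k hd0
    exact_mod_cast this
  have h0 : 0 ≤ ∑ l ∈ lvl s R, (if d ∣ l then s.selbergTerms l else 0) := by
    refine sum_nonneg fun l hl => ?_
    split_ifs
    · exact selbergTerms_nonneg_of_mem hl
    · exact le_rfl
  have hμ : |(μ d : ℝ)| ≤ 1 := by exact_mod_cast abs_moebius_le_one (n := d)
  unfold selW
  rw [abs_mul, abs_mul, abs_of_pos (inv_pos.mpr hnu), abs_of_nonneg (div_nonneg h0 (by linarith))]
  have h4 : (∑ l ∈ lvl s R, (if d ∣ l then s.selbergTerms l else 0)) / selS s R ≤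
      s.selbergTerms d := by
    rw [div_le_iff₀ (by linarith)]
    exact h1
  calc (s.nu d)⁻¹ * |(μ d : ℝ)| *
        ((∑ l ∈ lvl s R, (if d ∣ l then s.selbergTerms l else 0)) / selS s R)
      ≤ (s.nu d)⁻¹ * 1 * s.selbergTerms d := by
        have : 0 ≤ (∑ l ∈ lvl s R, (if d ∣ l then s.selbergTerms l else 0)) / selS s R :=
          div_nonneg h0 (by linarith)
        gcongr
    _ = _ := by
        rw [BoundingSieve.selbergTerms_apply]
        field_simp

theorem selW_eq_zero {d : ℕ} (hd : ¬ (d : ℝ) ≤ R) : selW s R d = 0 := by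
  unfold selW
  have h : ∑ l ∈ lvl s R, (if d ∣ l then s.selbergTerms l else 0) = 0 := by
    refine sum_eq_zero fun l hl => ?_
    rw [if_neg]
    intro hdl
    obtain ⟨hlP, hlR⟩ := mem_lvl.mp hl
    have hl0 : 0 < l := Nat.pos_of_ne_zero
      (ne_zero_of_dvd_ne_zero BoundingSieve.prodPrimes_ne_zero hlP)
    have : (d : ℝ) ≤ l := by exact_mod_cast Nat.le_of_dvd hl0 hdl
    linarith
  rw [h]
  simp

theorem card_lvl_le (hR : 1 ≤ R) : ((lvl s R).card : ℝ) ≤ R := by
  have h1 : lvl s R ⊆ Finset.Icc 1 ⌊R⌋₊ := by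
    intro l hl
    obtain ⟨hlP, hlR⟩ := mem_lvl.mp hl
    have hl0 : 0 < l := Nat.pos_of_ne_zero
      (ne_zero_of_dvd_ne_zero BoundingSieve.prodPrimes_ne_zero hlP)
    rw [Finset.mem_Icc]
    exact ⟨hl0, Nat.le_floor hlR⟩
  have h2 := card_le_card h1
  rw [Nat.card_Icc, Nat.add_sub_cancel] at h2
  calc ((lvl s R).card : ℝ) ≤ (⌊R⌋₊ : ℝ) := by exact_mod_cast h2
    _ ≤ R := Nat.floor_le (by linarith)

/-- The Selberg sieve, with crude bounds for the remainder. -/
theorem selberg_sieve (hR : 1 ≤ R)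
    (hrem : ∀ d : ℕ, d ∣ s.prodPrimes → |s.rem d| ≤ d)
    (hnu : ∀ p : ℕ, p.Prime → p ∣ s.prodPrimes → (1 - s.nu p)⁻¹ ≤ p) :
    s.siftedSum ≤ s.totalMass / selS s R + R ^ 6 := by
  have hR0 : 0 ≤ R := by linarith
  have h1 := BoundingSieve.siftedSum_le_mainSum_errSum_of_upperMoebius (s := s)
    (BoundingSieve.lambdaSquared (selW s R))
    (BoundingSieve.upperMoebius_lambdaSquared _ (selW_one hR))
  rw [mainSum_selW hR, mul_one_div] at h1
  refine h1.trans (add_le_add_right ?_ _)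
  -- bound for the weights
  have hw : ∀ d : ℕ, d ∣ s.prodPrimes → |selW s R d| ≤ if (d : ℝ) ≤ R then R else 0 := by
    intro d hd
    split_ifs with h
    · refine (abs_selW_le hR hd).trans ?_
      have hsq := BoundingSieve.squarefree_of_dvd_prodPrimes hd
      calc ∏ p ∈ d.primeFactors, (1 - s.nu p)⁻¹ ≤ ∏ p ∈ d.primeFactors, (p : ℝ) := by
            refine prod_le_prod (fun p hp => ?_) (fun p hp => ?_)
            · have := s.nu_lt_one_of_prime p (Nat.prime_of_mem_primeFactors hp)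
                ((Nat.dvd_of_mem_primeFactors hp).trans hd)
              exact inv_nonneg.mpr (by linarith)
            · exact hnu p (Nat.prime_of_mem_primeFactors hp)
                ((Nat.dvd_of_mem_primeFactors hp).trans hd)
        _ = d := by
            rw [← Nat.cast_prod, Nat.prod_primeFactors_of_squarefree hsq]
        _ ≤ R := h
    · rw [selW_eq_zero h, abs_zero]
  set w : ℕ → ℝ := fun d => if (d : ℝ) ≤ R then R else 0 with hwdef
  have hw0 : ∀ d, 0 ≤ w d := by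
    intro d
    rw [hwdef]
    simp only
    split_ifs <;> linarith
  unfold BoundingSieve.errSum
  -- bound each term
  have h2 : ∀ d ∈ Nat.divisors s.prodPrimes,
      |BoundingSieve.lambdaSquared (selW s R) d| * |s.rem d| ≤
      ∑ d1 ∈ Nat.divisors s.prodPrimes, ∑ d2 ∈ Nat.divisors s.prodPrimes,
        if d = Nat.lcm d1 d2 then w d1 * w d2 * R ^ 2 else 0 := by
    intro d hd
    have hdP := Nat.dvd_of_mem_divisors hd
    have hsub : d.divisors ⊆ Nat.divisors s.prodPrimes :=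
      Nat.divisors_subset_of_dvd BoundingSieve.prodPrimes_ne_zero hdP
    have h3 : |BoundingSieve.lambdaSquared (selW s R) d| ≤
        ∑ d1 ∈ d.divisors, ∑ d2 ∈ d.divisors,
          if d = Nat.lcm d1 d2 then |selW s R d1| * |selW s R d2| else 0 := by
      unfold BoundingSieve.lambdaSquared
      refine (abs_sum_le_sum_abs _ _).trans (sum_le_sum fun d1 _ => ?_)
      refine (abs_sum_le_sum_abs _ _).trans (sum_le_sum fun d2 _ => ?_)
      split_ifs
      · rw [abs_mul]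
      · simp
    have h4 : |BoundingSieve.lambdaSquared (selW s R) d| * |s.rem d| ≤
        (∑ d1 ∈ d.divisors, ∑ d2 ∈ d.divisors,
          if d = Nat.lcm d1 d2 then |selW s R d1| * |selW s R d2| else 0) * |s.rem d| :=
      mul_le_mul_of_nonneg_right h3 (abs_nonneg _)
    refine h4.trans ?_
    rw [sum_mul]
    refine le_trans (sum_le_sum fun d1 hd1 => ?_)
      (sum_le_sum_of_subset_of_nonneg hsub fun d1 _ _ => sum_nonneg fun d2 _ => ?_)
    · rw [sum_mul]
      refine le_trans (sum_le_sum fun d2 hd2 => ?_)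
        (sum_le_sum_of_subset_of_nonneg hsub fun d2 _ _ => ?_)
      · have hd1P := (Nat.dvd_of_mem_divisors hd1).trans hdP
        have hd2P := (Nat.dvd_of_mem_divisors hd2).trans hdP
        split_ifs with hlcm
        · have hw1 := hw d1 hd1P
          have hw2 := hw d2 hd2P
          by_cases hd1R : (d1 : ℝ) ≤ R
          · by_cases hd2R : (d2 : ℝ) ≤ R
            · have hr : |s.rem d| ≤ R ^ 2 := by
                refine (hrem d hdP).trans ?_
                have h5 : d ≤ d1 * d2 := by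
                  rw [hlcm]
                  have hpos1 : 0 < d1 := Nat.pos_of_mem_divisors hd1
                  have hpos2 : 0 < d2 := Nat.pos_of_mem_divisors hd2
                  exact Nat.le_of_dvd (Nat.mul_pos hpos1 hpos2) (Nat.lcm_dvd_mul d1 d2)
                calc (d : ℝ) ≤ d1 * d2 := by exact_mod_cast h5
                  _ ≤ R * R := by gcongr
                  _ = R ^ 2 := by ring
              have := mul_le_mul hw1 hw2 (abs_nonneg _) (hw0 d1)
              exact mul_le_mul this hr (abs_nonneg _) (mul_nonneg (hw0 d1) (hw0 d2))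
            · rw [selW_eq_zero hd2R, abs_zero, mul_zero, zero_mul]
              exact mul_nonneg (mul_nonneg (hw0 _) (hw0 _)) (by positivity)
          · rw [selW_eq_zero hd1R, abs_zero, zero_mul, zero_mul]
            exact mul_nonneg (mul_nonneg (hw0 _) (hw0 _)) (by positivity)
        · rw [zero_mul]
      · split_ifs
        · exact mul_nonneg (mul_nonneg (hw0 _) (hw0 _)) (by positivity)
        · exact le_rfl
    · split_ifs
      · exact mul_nonneg (mul_nonneg (hw0 _) (hw0 _)) (by positivity)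
      · exact le_rfl
  refine (sum_le_sum h2).trans ?_
  rw [sum_comm]
  have h5 : ∀ d1 ∈ Nat.divisors s.prodPrimes, ∑ d ∈ Nat.divisors s.prodPrimes,
      ∑ d2 ∈ Nat.divisors s.prodPrimes,
        (if d = Nat.lcm d1 d2 then w d1 * w d2 * R ^ 2 else 0) ≤
      ∑ d2 ∈ Nat.divisors s.prodPrimes, w d1 * w d2 * R ^ 2 := by
    intro d1 hd1
    rw [sum_comm]
    refine sum_le_sum fun d2 hd2 => ?_
    rw [sum_ite_eq']
    split_ifs
    · exact le_rfl
    · exact mul_nonneg (mul_nonneg (hw0 _) (hw0 _)) (by positivity)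
  refine (sum_le_sum h5).trans ?_
  have h6 : ∑ d ∈ Nat.divisors s.prodPrimes, w d ≤ R ^ 2 := by
    rw [hwdef]
    rw [← sum_filter]
    change ∑ d ∈ lvl s R, R ≤ R ^ 2
    rw [sum_const, nsmul_eq_mul, sq]
    exact mul_le_mul_of_nonneg_right (card_lvl_le hR) hR0
  have h7 : 0 ≤ ∑ d ∈ Nat.divisors s.prodPrimes, w d := sum_nonneg fun d _ => hw0 d
  have h8 : ∑ d1 ∈ Nat.divisors s.prodPrimes, ∑ d2 ∈ Nat.divisors s.prodPrimes,
      w d1 * w d2 * R ^ 2 = (∑ d ∈ Nat.divisors s.prodPrimes, w d) ^ 2 * R ^ 2 := by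
    rw [sq (∑ d ∈ Nat.divisors s.prodPrimes, w d), sum_mul_sum, sum_mul]
    refine sum_congr rfl fun d1 _ => ?_
    rw [sum_mul]
  rw [h8]
  calc (∑ d ∈ Nat.divisors s.prodPrimes, w d) ^ 2 * R ^ 2 ≤ (R ^ 2) ^ 2 * R ^ 2 := by gcongr
    _ = R ^ 6 := by ring

end Pool.Agent.Lib.H59
end
end

-- from Lib.H59.SieveRankin
section

/-!
# Lower bound for the Selberg sum

-/

open Finset ArithmeticFunction
open scoped ArithmeticFunction.Moebius ArithmeticFunction.zeta

noncomputable section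

namespace Pool.Agent.Lib.H59

variable {s : BoundingSieve}

theorem selbergTerms_prime {p : ℕ} (hp : p.Prime) :
    s.selbergTerms p = s.nu p * (1 - s.nu p)⁻¹ := by
  rw [BoundingSieve.selbergTerms_apply, hp.primeFactors, prod_singleton]

theorem selS_lower {κ y R : ℝ} (hκ : 0 ≤ κ) (hy : 2 ≤ y) (hR : 1 ≤ R)
    (hP : ∀ p : ℕ, p.Prime → p ∣ s.prodPrimes → (p : ℝ) ≤ y)
    (hnu : ∀ p : ℕ, p.Prime → p ∣ s.prodPrimes → s.nu p ≤ κ / p)
    (hRy : (Real.log 2 + 28 * κ * Real.log 4) * Real.log y ≤ Real.log R) :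
    1 / 2 * ∏ p ∈ s.prodPrimes.primeFactors, (1 - s.nu p)⁻¹ ≤ selS s R := by
  have hlogy : 0 < Real.log y := Real.log_pos (by linarith)
  have hR0 : 0 < R := by linarith
  set P := s.prodPrimes with hPdef
  have hsq : Squarefree P := s.prodPrimes_squarefree
  have hP0 : P ≠ 0 := hsq.ne_zero
  set g := s.selbergTerms with hg
  have hprime : ∀ p ∈ P.primeFactors, p.Prime ∧ p ∣ P := fun p hp =>
    ⟨Nat.prime_of_mem_primeFactors hp, Nat.dvd_of_mem_primeFactors hp⟩
  have hone : ∀ p ∈ P.primeFactors, 1 + g p = (1 - s.nu p)⁻¹ := by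
    intro p hp
    obtain ⟨h1, h2⟩ := hprime p hp
    have h3 := s.nu_lt_one_of_prime p h1 h2
    have h4 : 1 - s.nu p ≠ 0 := by linarith
    rw [hg, selbergTerms_prime h1]
    field_simp
    ring
  have htot : ∑ l ∈ P.divisors, g l = ∏ p ∈ P.primeFactors, (1 - s.nu p)⁻¹ := by
    rw [← IsMultiplicative.prodPrimeFactors_one_add_of_squarefree
      BoundingSieve.selbergTerms_isMultiplicative hsq]
    exact prod_congr rfl hone
  set ε : ℝ := 1 / Real.log y with hε
  have hε0 : 0 < ε := by positivity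
  set F : ArithmeticFunction ℝ := ArithmeticFunction.prodPrimeFactors
    (fun p => g p * (p : ℝ) ^ ε) with hF
  have hFmult : F.IsMultiplicative := IsMultiplicative.prodPrimeFactors _
  have hFl : ∀ l ∈ P.divisors, F l = g l * (l : ℝ) ^ ε := by
    intro l hl
    have hlP := Nat.dvd_of_mem_divisors hl
    have hlsq : Squarefree l := hsq.squarefree_of_dvd hlP
    rw [hF, prodPrimeFactors_apply hlsq.ne_zero, prod_mul_distrib]
    congr 1
    · rw [← BoundingSieve.selbergTerms_isMultiplicative.map_prod_of_subset_primeFactors _ _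
        subset_rfl, Nat.prod_primeFactors_of_squarefree hlsq]
    · rw [Real.finsetProd_rpow _ _ (fun p _ => by positivity), ← Nat.cast_prod,
        Nat.prod_primeFactors_of_squarefree hlsq]
  have hFp : ∀ p ∈ P.primeFactors, F p = g p * (p : ℝ) ^ ε := by
    intro p hp
    exact hFl p (Nat.mem_divisors.mpr ⟨(hprime p hp).2, hP0⟩)
  have hFsum : ∑ l ∈ P.divisors, g l * (l : ℝ) ^ ε =
      ∏ p ∈ P.primeFactors, (1 + g p * (p : ℝ) ^ ε) := by
    rw [← sum_congr rfl hFl, ← IsMultiplicative.prodPrimeFactors_one_add_of_squarefree hFmult hsq]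
    exact prod_congr rfl fun p hp => by rw [hFp p hp]
  have hgpos : ∀ l ∈ P.divisors, 0 < g l := fun l hl =>
    BoundingSieve.selbergTerms_pos (Nat.dvd_of_mem_divisors hl)
  -- the tail
  have htail : ∑ l ∈ P.divisors.filter (fun l : ℕ => ¬ (l : ℝ) ≤ R), g l ≤
      R ^ (-ε) * ∏ p ∈ P.primeFactors, (1 + g p * (p : ℝ) ^ ε) := by
    rw [← hFsum, mul_sum]
    refine le_trans (sum_le_sum fun l hl => ?_)
      (sum_le_sum_of_subset_of_nonneg (filter_subset _ _) fun l hl _ => ?_)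
    · rw [mem_filter, not_le] at hl
      have h1 := hgpos l hl.1
      have h2 : 1 ≤ R ^ (-ε) * (l : ℝ) ^ ε := by
        rw [Real.rpow_neg hR0.le, ← div_eq_inv_mul, one_le_div (by positivity)]
        exact Real.rpow_le_rpow hR0.le hl.2.le hε0.le
      calc g l = g l * 1 := (mul_one _).symm
        _ ≤ g l * (R ^ (-ε) * (l : ℝ) ^ ε) := by gcongr
        _ = _ := by ring
    · have h1 := hgpos l hl
      positivity
  -- the ratio
  have hratio : ∏ p ∈ P.primeFactors, (1 + g p * (p : ℝ) ^ ε) ≤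
      (∏ p ∈ P.primeFactors, (1 - s.nu p)⁻¹) * Real.exp (28 * κ * Real.log 4) := by
    have h1 : ∀ p ∈ P.primeFactors, 1 + g p * (p : ℝ) ^ ε ≤
        (1 - s.nu p)⁻¹ * Real.exp (2 * κ / Real.log y * (Real.log p / p)) := by
      intro p hp
      obtain ⟨hpp, hpP⟩ := hprime p hp
      have hp0 : (0 : ℝ) < p := by exact_mod_cast hpp.pos
      have hp1 : (1 : ℝ) ≤ p := by exact_mod_cast hpp.one_le
      have h3 := s.nu_lt_one_of_prime p hpp hpP
      have h3' := s.nu_pos_of_prime p hpp hpP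
      have h4 : 1 - s.nu p ≠ 0 := by linarith
      have h4' : 0 < 1 - s.nu p := by linarith
      have e : 1 + g p * (p : ℝ) ^ ε =
          (1 - s.nu p)⁻¹ * (s.nu p * ((p : ℝ) ^ ε - 1) + 1) := by
        rw [hg, selbergTerms_prime hpp]
        field_simp
        ring
      rw [e]
      refine mul_le_mul_of_nonneg_left ?_ (inv_nonneg.mpr h4'.le)
      refine (Real.add_one_le_exp _).trans (Real.exp_le_exp.mpr ?_)
      have hlogp : 0 ≤ Real.log p := Real.log_nonneg hp1
      have hlogpy : Real.log p ≤ Real.log y := Real.log_le_log hp0 (hP p hpp hpP)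
      have h5 : (p : ℝ) ^ ε - 1 ≤ 2 * (Real.log p * ε) := by
        rw [Real.rpow_def_of_pos hp0]
        have h6 : 0 ≤ Real.log p * ε := by positivity
        have h7 : Real.log p * ε ≤ 1 := by
          rw [hε, mul_one_div, div_le_one hlogy]
          exact hlogpy
        have h8 := Real.abs_exp_sub_one_le (x := Real.log p * ε) (by rw [abs_of_nonneg h6]; exact h7)
        rw [abs_of_nonneg h6] at h8
        exact (le_abs_self _).trans h8
      have h9 : 0 ≤ (p : ℝ) ^ ε - 1 := by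
        have := Real.one_le_rpow hp1 hε0.le
        linarith
      calc s.nu p * ((p : ℝ) ^ ε - 1) ≤ (κ / p) * (2 * (Real.log p * ε)) :=
            mul_le_mul (hnu p hpp hpP) h5 h9 (by positivity)
        _ = _ := by rw [hε]; field_simp
    calc ∏ p ∈ P.primeFactors, (1 + g p * (p : ℝ) ^ ε)
        ≤ ∏ p ∈ P.primeFactors,
          ((1 - s.nu p)⁻¹ * Real.exp (2 * κ / Real.log y * (Real.log p / p))) := by
          refine prod_le_prod (fun p hp => ?_) h1
          have := hgpos p (Nat.mem_divisors.mpr ⟨(hprime p hp).2, hP0⟩)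
          positivity
      _ = (∏ p ∈ P.primeFactors, (1 - s.nu p)⁻¹) *
          Real.exp (2 * κ / Real.log y * ∑ p ∈ P.primeFactors, Real.log p / p) := by
          rw [prod_mul_distrib, mul_sum, Real.exp_sum]
      _ ≤ _ := by
          have h2 := sum_log_div_le P.primeFactors (fun p hp => (hprime p hp).1) hy
            (fun p hp => hP p (hprime p hp).1 (hprime p hp).2)
          have h3 : 2 * κ / Real.log y * ∑ p ∈ P.primeFactors, Real.log p / p ≤
              28 * κ * Real.log 4 := by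
            calc 2 * κ / Real.log y * ∑ p ∈ P.primeFactors, Real.log p / p
                ≤ 2 * κ / Real.log y * (14 * Real.log 4 * Real.log y) := by gcongr
              _ = _ := by field_simp; ring
          have h4 : 0 ≤ ∏ p ∈ P.primeFactors, (1 - s.nu p)⁻¹ := by
            refine prod_nonneg fun p hp => inv_nonneg.mpr ?_
            have := s.nu_lt_one_of_prime p (hprime p hp).1 (hprime p hp).2
            linarith
          gcongr
  set W : ℝ := ∏ p ∈ P.primeFactors, (1 - s.nu p)⁻¹ with hW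
  have hW0 : 0 ≤ W := by
    refine prod_nonneg fun p hp => inv_nonneg.mpr ?_
    have := s.nu_lt_one_of_prime p (hprime p hp).1 (hprime p hp).2
    linarith
  have hhalf : R ^ (-ε) * Real.exp (28 * κ * Real.log 4) ≤ 1 / 2 := by
    rw [Real.rpow_def_of_pos hR0, ← Real.exp_add]
    have h1 : Real.log 2 + 28 * κ * Real.log 4 ≤ Real.log R * ε := by
      rw [hε, mul_one_div, le_div_iff₀ hlogy]
      exact hRy
    calc Real.exp (Real.log R * -ε + 28 * κ * Real.log 4) ≤ Real.exp (-Real.log 2) := by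
          apply Real.exp_le_exp.mpr
          linarith
      _ = 1 / 2 := by
          rw [Real.exp_neg, Real.exp_log (by norm_num), one_div]
  have hsplit := sum_filter_add_sum_filter_not P.divisors (fun l : ℕ => (l : ℝ) ≤ R) (fun l => g l)
  rw [htot] at hsplit
  have hSdef : selS s R = ∑ l ∈ P.divisors.filter (fun l : ℕ => (l : ℝ) ≤ R), g l := rfl
  rw [← hSdef] at hsplit
  have hfin : ∑ l ∈ P.divisors.filter (fun l : ℕ => ¬ (l : ℝ) ≤ R), g l ≤ 1 / 2 * W := by
    calc ∑ l ∈ P.divisors.filter (fun l : ℕ => ¬ (l : ℝ) ≤ R), g l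
        ≤ R ^ (-ε) * (W * Real.exp (28 * κ * Real.log 4)) :=
          htail.trans (mul_le_mul_of_nonneg_left hratio (by positivity))
      _ = (R ^ (-ε) * Real.exp (28 * κ * Real.log 4)) * W := by ring
      _ ≤ 1 / 2 * W := mul_le_mul_of_nonneg_right hhalf hW0
  linarith

/-- Trivial upper bound for the Selberg sum. -/
theorem selS_le {R : ℝ} (hR : 1 ≤ R)
    (hnu : ∀ p : ℕ, p.Prime → p ∣ s.prodPrimes → (1 - s.nu p)⁻¹ ≤ p) :
    selS s R ≤ R ^ 2 := by
  unfold selS
  have h1 : ∀ l ∈ lvl s R, s.selbergTerms l ≤ R := by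
    intro l hl
    obtain ⟨hlP, hlR⟩ := mem_lvl.mp hl
    have hsq := BoundingSieve.squarefree_of_dvd_prodPrimes hlP
    have hnu1 : s.nu l ≤ 1 := by
      by_cases h : l = 1
      · rw [h, s.nu_mult.map_one]
      · exact (BoundingSieve.nu_lt_one_of_dvd_prodPrimes hlP h).le
    have h0 := BoundingSieve.nu_pos_of_dvd_prodPrimes hlP
    rw [BoundingSieve.selbergTerms_apply]
    have h2 : ∏ p ∈ l.primeFactors, (1 - s.nu p)⁻¹ ≤ l := by
      calc ∏ p ∈ l.primeFactors, (1 - s.nu p)⁻¹ ≤ ∏ p ∈ l.primeFactors, (p : ℝ) := by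
            refine prod_le_prod (fun p hp => ?_) (fun p hp => ?_)
            · have := s.nu_lt_one_of_prime p (Nat.prime_of_mem_primeFactors hp)
                ((Nat.dvd_of_mem_primeFactors hp).trans hlP)
              exact inv_nonneg.mpr (by linarith)
            · exact hnu p (Nat.prime_of_mem_primeFactors hp)
                ((Nat.dvd_of_mem_primeFactors hp).trans hlP)
        _ = l := by
            rw [← Nat.cast_prod, Nat.prod_primeFactors_of_squarefree hsq]
    have h3 : 0 ≤ ∏ p ∈ l.primeFactors, (1 - s.nu p)⁻¹ := by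
      refine prod_nonneg fun p hp => ?_
      have := s.nu_lt_one_of_prime p (Nat.prime_of_mem_primeFactors hp)
        ((Nat.dvd_of_mem_primeFactors hp).trans hlP)
      exact inv_nonneg.mpr (by linarith)
    calc s.nu l * ∏ p ∈ l.primeFactors, (1 - s.nu p)⁻¹ ≤ 1 * l := by gcongr
      _ ≤ R := by rw [one_mul]; exact hlR
  refine (sum_le_sum h1).trans ?_
  rw [sum_const, nsmul_eq_mul, sq]
  exact mul_le_mul_of_nonneg_right (card_lvl_le hR) (by linarith)

/-- The Selberg sieve in final form. -/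
theorem selberg_final {κ y R : ℝ} (hκ : 0 ≤ κ) (hy : 2 ≤ y) (hR : 1 ≤ R)
    (hP : ∀ p : ℕ, p.Prime → p ∣ s.prodPrimes → (p : ℝ) ≤ y)
    (hnu : ∀ p : ℕ, p.Prime → p ∣ s.prodPrimes → s.nu p ≤ κ / p)
    (hRy : (Real.log 2 + 28 * κ * Real.log 4) * Real.log y ≤ Real.log R)
    (hrem : ∀ d : ℕ, d ∣ s.prodPrimes → |s.rem d| ≤ d)
    (hnu2 : ∀ p : ℕ, p.Prime → p ∣ s.prodPrimes → (1 - s.nu p)⁻¹ ≤ p)
    (hX : R ^ 12 ≤ s.totalMass) :
    s.siftedSum ≤ 4 * s.totalMass * ∏ p ∈ s.prodPrimes.primeFactors, (1 - s.nu p) ∧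
    R ^ 10 ≤ 2 * s.totalMass * ∏ p ∈ s.prodPrimes.primeFactors, (1 - s.nu p) := by
  have h1 := selberg_sieve (s := s) hR hrem hnu2
  have h2 := selS_lower (s := s) hκ hy hR hP hnu hRy
  have h3 := selS_le (s := s) hR hnu2
  have hS := one_le_selS (s := s) hR
  have hR0 : 0 < R := by linarith
  have hM0 : 0 < s.totalMass := lt_of_lt_of_le (by positivity) hX
  rw [prod_inv_distrib] at h2
  set W : ℝ := ∏ p ∈ s.prodPrimes.primeFactors, (1 - s.nu p) with hW
  have hW0 : 0 < W := by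
    refine prod_pos fun p hp => ?_
    have := s.nu_lt_one_of_prime p (Nat.prime_of_mem_primeFactors hp)
      (Nat.dvd_of_mem_primeFactors hp)
    linarith
  have h4 : s.totalMass / selS s R ≤ 2 * s.totalMass * W := by
    rw [div_le_iff₀ (by linarith)]
    have h5 : 1 ≤ 2 * W * selS s R := by
      have h6 : 1 / 2 * W⁻¹ * (2 * W) ≤ selS s R * (2 * W) :=
        mul_le_mul_of_nonneg_right h2 (by positivity)
      have h7 : 1 / 2 * W⁻¹ * (2 * W) = 1 := by field_simp
      linarith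
    nlinarith
  have h5 : R ^ 10 ≤ s.totalMass / selS s R := by
    rw [le_div_iff₀ (by linarith)]
    calc R ^ 10 * selS s R ≤ R ^ 10 * R ^ 2 := by gcongr
      _ = R ^ 12 := by ring
      _ ≤ _ := hX
  have h6 : R ^ 6 ≤ R ^ 10 := pow_le_pow_right₀ hR (by norm_num)
  constructor
  · linarith
  · linarith

end Pool.Agent.Lib.H59
end
end

-- from Lib.H59.PolySieve
section

/-!
# Sieving the values of an integer polynomial

-/

open Finset ArithmeticFunction Polynomial

noncomputable section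

namespace Pool.Agent.Lib.H59

theorem dvd_eval_mod_iff (H : ℤ[X]) (d a : ℕ) :
    (d : ℤ) ∣ H.eval ((a % d : ℕ) : ℤ) ↔ (d : ℤ) ∣ H.eval (a : ℤ) := by
  have h1 : (d : ℤ) ∣ (a : ℤ) - ((a % d : ℕ) : ℤ) := by
    rw [Int.natCast_mod]
    exact Int.dvd_self_sub_emod
  have h2 : (d : ℤ) ∣ H.eval (a : ℤ) - H.eval ((a % d : ℕ) : ℤ) :=
    h1.trans (Polynomial.sub_dvd_eval_sub _ _ _)
  constructor
  · intro h
    have := dvd_add h2 h
    simpa using this
  · intro h
    have := dvd_sub h h2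
    simpa using this


theorem rootCount_one (H : ℤ[X]) : rootCount H 1 = 1 := by simp [rootCount]

theorem rootCount_mul (H : ℤ[X]) {m n : ℕ} (hmn : m.Coprime n) :
    rootCount H (m * n) = rootCount H m * rootCount H n := by
  classical
  rcases Nat.eq_zero_or_pos m with rfl | hm
  · simp [rootCount]
  rcases Nat.eq_zero_or_pos n with rfl | hn
  · simp [rootCount]
  unfold rootCount
  rw [← card_product]
  refine card_bij (fun a _ => (a % m, a % n)) ?_ ?_ ?_
  · intro a ha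
    rw [mem_filter] at ha
    rw [mem_product, mem_filter, mem_filter, mem_range, mem_range]
    refine ⟨⟨Nat.mod_lt _ hm, ?_⟩, Nat.mod_lt _ hn, ?_⟩
    · rw [dvd_eval_mod_iff]
      exact (Int.natCast_dvd_natCast.mpr (dvd_mul_right m n)).trans ha.2
    · rw [dvd_eval_mod_iff]
      exact (Int.natCast_dvd_natCast.mpr (dvd_mul_left n m)).trans ha.2
  · intro a ha b hb hab
    rw [mem_filter, mem_range] at ha hb
    rw [Prod.mk.injEq] at hab
    have h : a ≡ b [MOD m * n] := (Nat.modEq_and_modEq_iff_modEq_mul hmn).mp hab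
    have h' : a % (m * n) = b % (m * n) := h
    rwa [Nat.mod_eq_of_lt ha.1, Nat.mod_eq_of_lt hb.1] at h'
  · intro b hb
    rw [mem_product, mem_filter, mem_filter, mem_range, mem_range] at hb
    obtain ⟨⟨hb1, hb2⟩, hb3, hb4⟩ := hb
    obtain ⟨c, hc1, hc2⟩ := Nat.chineseRemainder hmn b.1 b.2
    have e1 : c % (m * n) % m = b.1 := by
      rw [Nat.mod_mul_right_mod]
      have : c % m = b.1 % m := hc1
      rw [this, Nat.mod_eq_of_lt hb1]
    have e2 : c % (m * n) % n = b.2 := by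
      rw [Nat.mod_mul_left_mod]
      have : c % n = b.2 % n := hc2
      rw [this, Nat.mod_eq_of_lt hb3]
    refine ⟨c % (m * n), ?_, by rw [e1, e2]⟩
    rw [mem_filter, mem_range]
    refine ⟨Nat.mod_lt _ (Nat.mul_pos hm hn), ?_⟩
    have h1 : (m : ℤ) ∣ H.eval ((c % (m * n) : ℕ) : ℤ) := by
      rw [← dvd_eval_mod_iff, e1]
      exact hb2
    have h2 : (n : ℤ) ∣ H.eval ((c % (m * n) : ℕ) : ℤ) := by
      rw [← dvd_eval_mod_iff, e2]
      exact hb4
    rw [Nat.cast_mul]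
    exact (Nat.isCoprime_iff_coprime.mpr hmn).mul_dvd h1 h2

theorem rootCount_le_self (H : ℤ[X]) (d : ℕ) : rootCount H d ≤ d := by
  unfold rootCount
  calc _ ≤ (range d).card := card_le_card (filter_subset _ _)
    _ = d := card_range d

/-- The density function. -/
def nuPoly (H : ℤ[X]) : ArithmeticFunction ℝ :=
  ⟨fun d => (rootCount H d : ℝ) / d, by simp⟩

theorem nuPoly_apply (H : ℤ[X]) (d : ℕ) : nuPoly H d = (rootCount H d : ℝ) / d := rfl

theorem nuPoly_mult (H : ℤ[X]) : (nuPoly H).IsMultiplicative := by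
  refine ⟨by simp [nuPoly_apply, rootCount_one], fun {m n} hmn => ?_⟩
  rw [nuPoly_apply, nuPoly_apply, nuPoly_apply, rootCount_mul H hmn]
  push_cast
  exact mul_div_mul_comm _ _ _ _

theorem card_blocks (p : ℕ → Prop) [DecidablePred p] {a : ℕ} (hp : Function.Periodic p a)
    (n₀ q : ℕ) : ((Ico n₀ (n₀ + q * a)).filter p).card = q * Nat.count p a := by
  induction q with
  | zero => simp
  | succ q ih =>
    have h1 : Ico n₀ (n₀ + (q + 1) * a) =
        Ico n₀ (n₀ + q * a) ∪ Ico (n₀ + q * a) (n₀ + q * a + a) := by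
      rw [Ico_union_Ico_eq_Ico (by omega) (by omega)]
      congr 1
      ring
    have h2 : Disjoint ((Ico n₀ (n₀ + q * a)).filter p)
        ((Ico (n₀ + q * a) (n₀ + q * a + a)).filter p) :=
      disjoint_filter_filter (Ico_disjoint_Ico_consecutive _ _ _)
    rw [h1, filter_union, card_union_of_disjoint h2, ih, Nat.filter_Ico_card_eq_of_periodic _ _ _ hp]
    ring

theorem abs_card_sub_le (H : ℤ[X]) {d : ℕ} (hd : 0 < d) (X : ℕ) :
    |(((Icc 1 X).filter fun n : ℕ => (d : ℤ) ∣ H.eval (n : ℤ)).card : ℝ) -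
      nuPoly H d * X| ≤ d := by
  classical
  set p : ℕ → Prop := fun n => (d : ℤ) ∣ H.eval (n : ℤ) with hp
  have hper : Function.Periodic p d := by
    intro n
    apply propext
    change (d : ℤ) ∣ H.eval ((n + d : ℕ) : ℤ) ↔ (d : ℤ) ∣ H.eval (n : ℤ)
    rw [← dvd_eval_mod_iff H d (n + d), Nat.add_mod_right, dvd_eval_mod_iff]
  have hcount : Nat.count p d = rootCount H d := by
    rw [Nat.count_eq_card_filter_range]
    rfl
  have hIcc : Icc 1 X = Ico 1 (1 + X) := by
    ext n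
    simp only [mem_Icc, mem_Ico]
    omega
  set q := X / d with hq
  have hlo : ((Ico 1 (1 + q * d)).filter p).card ≤ ((Icc 1 X).filter p).card := by
    rw [hIcc]
    refine card_le_card (filter_subset_filter _ (Ico_subset_Ico_right ?_))
    have : q * d ≤ X := Nat.div_mul_le_self X d
    omega
  have hhi : ((Icc 1 X).filter p).card ≤ ((Ico 1 (1 + (q + 1) * d)).filter p).card := by
    rw [hIcc]
    refine card_le_card (filter_subset_filter _ (Ico_subset_Ico_right ?_))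
    have h0 : X < d * (q + 1) := Nat.lt_mul_div_succ X hd
    rw [mul_comm] at h0
    omega
  rw [card_blocks p hper, hcount] at hlo hhi
  have hd' : (0 : ℝ) < d := by exact_mod_cast hd
  have hlo' : (q : ℝ) * rootCount H d ≤ ((Icc 1 X).filter p).card := by exact_mod_cast hlo
  have hhi' : (((Icc 1 X).filter p).card : ℝ) ≤ (q + 1) * rootCount H d := by exact_mod_cast hhi
  have hq1 : (q : ℝ) * d ≤ X := by exact_mod_cast Nat.div_mul_le_self X d
  have hq2 : (X : ℝ) ≤ (q + 1) * d := by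
    have := (Nat.lt_mul_div_succ X hd).le
    rw [mul_comm] at this
    exact_mod_cast this
  have hr : (rootCount H d : ℝ) ≤ d := by exact_mod_cast rootCount_le_self H d
  have hr0 : (0 : ℝ) ≤ rootCount H d := by positivity
  rw [nuPoly_apply]
  have h1 : (q : ℝ) * rootCount H d ≤ rootCount H d / d * X := by
    rw [div_mul_eq_mul_div, le_div_iff₀ hd']
    nlinarith
  have h2 : (rootCount H d : ℝ) / d * X ≤ (q + 1) * rootCount H d := by
    rw [div_mul_eq_mul_div, div_le_iff₀ hd']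
    nlinarith
  rw [abs_le]
  constructor <;> linarith

/-- The primes to be sieved out. -/
def sievePrimes (H : ℤ[X]) (Y : ℕ) : Finset ℕ :=
  (Nat.primesBelow Y).filter fun p => 0 < rootCount H p

theorem mem_sievePrimes {H : ℤ[X]} {Y p : ℕ} :
    p ∈ sievePrimes H Y ↔ (p < Y ∧ p.Prime) ∧ 0 < rootCount H p := by
  unfold sievePrimes
  rw [mem_filter, Nat.mem_primesBelow]

theorem prime_dvd_prod_iff {T : Finset ℕ} (hT : ∀ p ∈ T, p.Prime) {p : ℕ} (hp : p.Prime) :
    p ∣ ∏ q ∈ T, q ↔ p ∈ T := by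
  constructor
  · intro h
    obtain ⟨q, hq, hpq⟩ := (hp.prime.dvd_finsetProd_iff _).mp h
    rwa [(Nat.prime_dvd_prime_iff_eq hp (hT q hq)).mp hpq]
  · intro h
    exact dvd_prod_of_mem _ h

theorem squarefree_prod_primes {T : Finset ℕ} (hT : ∀ p ∈ T, p.Prime) :
    Squarefree (∏ q ∈ T, q) := by
  refine Finset.squarefree_prod_of_pairwise_isCoprime (fun a ha b hb hab => ?_)
    fun p hp => (hT p hp).squarefree
  simp only [← Nat.coprime_iff_isRelPrime]
  exact (Nat.coprime_primes (hT a ha) (hT b hb)).mpr hab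

theorem primeFactors_prod {T : Finset ℕ} (hT : ∀ p ∈ T, p.Prime) :
    (∏ q ∈ T, q).primeFactors = T := Nat.primeFactors_prod hT

/-- The sieve problem. -/
def polySieve (H : ℤ[X]) (Y X : ℕ) (hadm : ∀ p : ℕ, p.Prime → p < Y → rootCount H p < p) :
    BoundingSieve where
  support := (Icc 1 X).image fun n : ℕ => (H.eval (n : ℤ)).natAbs
  prodPrimes := ∏ p ∈ sievePrimes H Y, p
  prodPrimes_squarefree := squarefree_prod_primes fun p hp => (mem_sievePrimes.mp hp).1.2
  weights m := (((Icc 1 X).filter fun n : ℕ => (H.eval (n : ℤ)).natAbs = m).card : ℝ)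
  weights_nonneg _ := by positivity
  totalMass := X
  nu := nuPoly H
  nu_mult := nuPoly_mult H
  nu_pos_of_prime := by
    intro p hp hd
    rw [prime_dvd_prod_iff (fun p hp => (mem_sievePrimes.mp hp).1.2) hp, mem_sievePrimes] at hd
    rw [nuPoly_apply]
    have h1 : (0 : ℝ) < rootCount H p := by exact_mod_cast hd.2
    have h2 : (0 : ℝ) < p := by exact_mod_cast hp.pos
    positivity
  nu_lt_one_of_prime := by
    intro p hp hd
    rw [prime_dvd_prod_iff (fun p hp => (mem_sievePrimes.mp hp).1.2) hp, mem_sievePrimes] at hd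
    rw [nuPoly_apply]
    have h2 : (0 : ℝ) < p := by exact_mod_cast hp.pos
    rw [div_lt_one h2]
    exact_mod_cast hadm p hp hd.1.1

theorem multSum_polySieve (H : ℤ[X]) (Y X : ℕ)
    (hadm : ∀ p : ℕ, p.Prime → p < Y → rootCount H p < p) (d : ℕ) :
    (polySieve H Y X hadm).multSum d =
      (((Icc 1 X).filter fun n : ℕ => (d : ℤ) ∣ H.eval (n : ℤ)).card : ℝ) := by
  classical
  rw [BoundingSieve.multSum]
  change ∑ m ∈ (Icc 1 X).image (fun n : ℕ => (H.eval (n : ℤ)).natAbs),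
    (if d ∣ m then (((Icc 1 X).filter fun n : ℕ => (H.eval (n : ℤ)).natAbs = m).card : ℝ) else 0) = _
  have h := card_eq_sum_card_image (fun n : ℕ => (H.eval (n : ℤ)).natAbs)
    ((Icc 1 X).filter fun n : ℕ => (d : ℤ) ∣ H.eval (n : ℤ))
  rw [h]
  push_cast
  rw [← sum_filter]
  have himg : ((Icc 1 X).image (fun n : ℕ => (H.eval (n : ℤ)).natAbs)).filter (d ∣ ·) =
      ((Icc 1 X).filter fun n : ℕ => (d : ℤ) ∣ H.eval (n : ℤ)).image
        (fun n : ℕ => (H.eval (n : ℤ)).natAbs) := by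
    ext m
    simp only [mem_filter, mem_image]
    constructor
    · rintro ⟨⟨n, hn, rfl⟩, hd⟩
      exact ⟨n, ⟨hn, Int.natCast_dvd.mpr hd⟩, rfl⟩
    · rintro ⟨n, ⟨hn, hd⟩, rfl⟩
      exact ⟨⟨n, hn, rfl⟩, Int.natCast_dvd.mp hd⟩
  rw [himg]
  refine sum_congr rfl fun m hm => ?_
  congr 2
  ext n
  simp only [mem_filter]
  constructor
  · rintro ⟨hn, rfl⟩
    refine ⟨⟨hn, ?_⟩, rfl⟩
    rw [mem_image] at hm
    obtain ⟨n', hn', he⟩ := hm
    rw [mem_filter] at hn'
    have := Int.natCast_dvd.mp hn'.2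
    rw [he] at this
    exact Int.natCast_dvd.mpr this
  · rintro ⟨⟨hn, _⟩, rfl⟩
    exact ⟨hn, rfl⟩

theorem le_siftedSum_polySieve (H : ℤ[X]) (Y X : ℕ)
    (hadm : ∀ p : ℕ, p.Prime → p < Y → rootCount H p < p) :
    ((((Icc 1 X).filter fun n : ℕ => ∀ p ∈ Nat.primesBelow Y, ¬ (p : ℤ) ∣ H.eval (n : ℤ)).card) : ℝ)
      ≤ (polySieve H Y X hadm).siftedSum := by
  classical
  rw [BoundingSieve.siftedSum]
  change _ ≤ ∑ m ∈ (Icc 1 X).image (fun n : ℕ => (H.eval (n : ℤ)).natAbs),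
    (if Nat.Coprime (∏ p ∈ sievePrimes H Y, p) m then
      (((Icc 1 X).filter fun n : ℕ => (H.eval (n : ℤ)).natAbs = m).card : ℝ) else 0)
  set T := (Icc 1 X).filter fun n : ℕ => ∀ p ∈ Nat.primesBelow Y, ¬ (p : ℤ) ∣ H.eval (n : ℤ) with hT
  have h := card_eq_sum_card_image (fun n : ℕ => (H.eval (n : ℤ)).natAbs) T
  rw [h]
  push_cast
  have hsub : T.image (fun n : ℕ => (H.eval (n : ℤ)).natAbs) ⊆
      (Icc 1 X).image (fun n : ℕ => (H.eval (n : ℤ)).natAbs) :=
    image_subset_image (filter_subset _ _)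
  refine le_trans (sum_le_sum fun m hm => ?_)
    (sum_le_sum_of_subset_of_nonneg hsub fun m _ _ => ?_)
  · rw [mem_image] at hm
    obtain ⟨n, hn, rfl⟩ := hm
    rw [hT, mem_filter] at hn
    have hcop : Nat.Coprime (∏ p ∈ sievePrimes H Y, p) (H.eval (n : ℤ)).natAbs := by
      refine Nat.Coprime.prod_left fun p hp => ?_
      obtain ⟨⟨h1, h2⟩, _⟩ := mem_sievePrimes.mp hp
      rw [h2.coprime_iff_not_dvd]
      intro hd
      exact hn.2 p (Nat.mem_primesBelow.mpr ⟨h1, h2⟩) (Int.natCast_dvd.mpr hd)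
    rw [if_pos hcop]
    have : (T.filter fun n' : ℕ => (H.eval (n' : ℤ)).natAbs = (H.eval (n : ℤ)).natAbs).card ≤
      ((Icc 1 X).filter fun n' : ℕ => (H.eval (n' : ℤ)).natAbs = (H.eval (n : ℤ)).natAbs).card :=
      card_le_card (filter_subset_filter _ (filter_subset _ _))
    exact_mod_cast this
  · split_ifs <;> positivity

/-- The upper bound sieve for polynomial values. -/
theorem poly_sieve (H : ℤ[X]) {κ Y X : ℕ} {R : ℝ}
    (hκ : ∀ p : ℕ, p.Prime → p < Y → rootCount H p ≤ κ)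
    (hadm : ∀ p : ℕ, p.Prime → p < Y → rootCount H p < p)
    (hY : 2 ≤ Y) (hR : 1 ≤ R)
    (hRY : (Real.log 2 + 28 * κ * Real.log 4) * Real.log Y ≤ Real.log R) (hX : R ^ 12 ≤ X) :
    ((((Icc 1 X).filter fun n : ℕ => ∀ p ∈ Nat.primesBelow Y, ¬ (p : ℤ) ∣ H.eval (n : ℤ)).card) : ℝ)
      ≤ 4 * X * ∏ p ∈ Nat.primesBelow Y, (1 - (rootCount H p : ℝ) / p) ∧
    R ^ 10 ≤ 2 * X * ∏ p ∈ Nat.primesBelow Y, (1 - (rootCount H p : ℝ) / p) := by
  classical
  set s := polySieve H Y X hadm with hs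
  have hTprime : ∀ p ∈ sievePrimes H Y, p.Prime := fun p hp => (mem_sievePrimes.mp hp).1.2
  have hPd : ∀ p : ℕ, p.Prime → p ∣ s.prodPrimes → p ∈ sievePrimes H Y := by
    intro p hp hd
    exact (prime_dvd_prod_iff hTprime hp).mp hd
  have hfin := selberg_final (s := s) (κ := κ) (y := Y) (R := R) (by positivity)
    (by exact_mod_cast hY) hR
    (fun p hp hd => by
      have := (mem_sievePrimes.mp (hPd p hp hd)).1.1
      exact_mod_cast this.le)
    (fun p hp hd => by
      have h1 := (mem_sievePrimes.mp (hPd p hp hd)).1.1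
      change (rootCount H p : ℝ) / p ≤ κ / p
      have h2 : (rootCount H p : ℝ) ≤ κ := by exact_mod_cast hκ p hp h1
      gcongr)
    hRY
    (fun d hd => by
      have hd0 : 0 < d := Nat.pos_of_ne_zero
        (ne_zero_of_dvd_ne_zero s.prodPrimes_squarefree.ne_zero hd)
      rw [BoundingSieve.rem, hs, multSum_polySieve]
      exact abs_card_sub_le H hd0 X)
    (fun p hp hd => by
      have h1 := (mem_sievePrimes.mp (hPd p hp hd)).1.1
      have h2 := hadm p hp h1
      have hp0 : (0 : ℝ) < p := by exact_mod_cast hp.pos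
      change (1 - (rootCount H p : ℝ) / p)⁻¹ ≤ p
      have h3 : (rootCount H p : ℝ) + 1 ≤ p := by exact_mod_cast h2
      have h4 : (1 : ℝ) / p ≤ 1 - (rootCount H p : ℝ) / p := by
        rw [le_sub_iff_add_le, ← add_div, div_le_one hp0]
        linarith
      calc (1 - (rootCount H p : ℝ) / p)⁻¹ ≤ (1 / (p : ℝ))⁻¹ := by gcongr
        _ = p := by rw [one_div, inv_inv])
    hX
  have hprod : ∏ p ∈ s.prodPrimes.primeFactors, (1 - s.nu p) =
      ∏ p ∈ Nat.primesBelow Y, (1 - (rootCount H p : ℝ) / p) := by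
    have e1 : s.prodPrimes.primeFactors = sievePrimes H Y := primeFactors_prod hTprime
    rw [e1]
    change ∏ p ∈ (Nat.primesBelow Y).filter (fun p => 0 < rootCount H p),
      (1 - (rootCount H p : ℝ) / p) = _
    refine prod_subset (filter_subset _ _) fun p hp hnp => ?_
    have : rootCount H p = 0 := by
      by_contra h
      exact hnp (mem_filter.mpr ⟨hp, Nat.pos_of_ne_zero h⟩)
    rw [this]
    simp
  rw [hprod] at hfin
  exact ⟨(le_siftedSum_polySieve H Y X hadm).trans hfin.1, hfin.2⟩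

end Pool.Agent.Lib.H59
end
end

-- from Lib.H33B.Defs
section

/-!
# Project H33B (MP_0bf1d2_nt): definitions

See `PROOF.md` in this folder.
-/

open Finset Polynomial Filter Topology

namespace Pool.Agent.Lib.H33B

open Pool.Agent.Lib.H59 (argSet argCount Admissible primeCount omegaN seriesTrunc rootCount)
open Pool.Agent.Lib.H68T (lp e cq Lk dQ Reg Good)

noncomputable section

/-! ## The engine -/

/-- `∏_{p < w} p`. -/
def PW (w : ℕ) : ℕ := ∏ p ∈ Nat.primesBelow w, p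

/-- The periodic model: `(q/φ(q)) 1[(m,q) = 1]`. -/
def Lq (q : ℕ) (m : ℤ) : ℝ :=
  if IsCoprime m (q : ℤ) then (q : ℝ) / (Nat.totient q : ℝ) else 0

/-- The local model of the primes at level `w`. -/
def Lw (w : ℕ) (m : ℤ) : ℝ := Lq (PW w) m

/-- `X / log^g X` with `X = argCount G Y`. -/
def dens (G : ℤ[X]) (g Y : ℕ) : ℝ := (argCount G Y : ℝ) / (Real.log (argCount G Y)) ^ g

/-- Sieve-type weights on `[1, X]` of total mass at most `S`: bounded by a power of `log Y`, with the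
upper bound `D^(ω(q)) S/q` in all residue classes to squarefree moduli `q ≤ (log Y)^K`, and `S` not much
smaller than `X`. -/
structure SieveWt (D : ℕ) (C K : ℝ) (Y X : ℕ) (S : ℝ) (f : ℕ → ℝ) : Prop where
  nonneg : ∀ n ∈ Icc 1 X, 0 ≤ f n
  le : ∀ n ∈ Icc 1 X, f n ≤ (Real.log Y) ^ C
  cls : ∀ q b : ℕ, Squarefree q → (q : ℝ) ≤ (Real.log Y) ^ K →
    ∑ n ∈ (Icc 1 X).filter (fun n => n ≡ b [MOD q]), f n ≤
      (D : ℝ) ^ q.primeFactors.card * S / q
  large : (X : ℝ) ≤ S * (Real.log Y) ^ C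

/-- Correlation of a function supported in `[1, M]`. -/
def cor (u : ℤ → ℝ) (M : ℕ) (d : ℤ) : ℝ := ∑ m ∈ Icc (1 : ℤ) M, u m * u (m + d)

/-- `P(x + h) - P(x)` -/
def shiftDiff (P : ℤ[X]) (h : ℤ) : ℤ[X] := P.comp (X + C h) - P


/-- `F_1 ⋯ F_g` has no fixed prime divisor. -/
def NoFix {g : ℕ} (F : Fin g → ℤ[X]) : Prop :=
  ∀ p : ℕ, p.Prime → ∃ n : ℤ, ¬ (p : ℤ) ∣ (∏ i, F i).eval n

/-- `F_1(n), …, F_g(n)` are all (positive) primes. -/
def AllPrime {g : ℕ} (F : Fin g → ℤ[X]) (n : ℕ) : Prop :=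
  ∀ i, ∃ q : ℕ, q.Prime ∧ (F i).eval (n : ℤ) = q

open scoped Classical in
/-- The `n ≤ x` for which `F_1(n), …, F_g(n)` are all prime. -/
def AF {g : ℕ} (F : Fin g → ℤ[X]) (x : ℕ) : Finset ℕ := (Icc 1 x).filter (AllPrime F)

/-- The number of the `n ≤ x`, `n ≡ b (mod q)`, for which `F_1(n), …, F_g(n)` are all prime. -/
def cntF {g : ℕ} (F : Fin g → ℤ[X]) (q b x : ℕ) : ℕ :=
  ((AF F x).filter (fun n => n ≡ b [MOD q])).card





/-- `𝔖(N)`: the product over all primes in increasing order. -/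
def SS {g : ℕ} (F : Fin g → ℤ[X]) (G : ℤ[X]) (N : ℕ) : ℝ := limUnder atTop (seriesTrunc F G N)

/-- The main term of Schinzel's formula without the singular series. -/
def mainT {g : ℕ} (F : Fin g → ℤ[X]) (G : ℤ[X]) (N : ℕ) : ℝ :=
  (argCount G N : ℝ) / (Real.log (argCount G N)) ^ (g + 1) *
    ((G.natDegree : ℝ) * ∏ i, ((F i).natDegree : ℝ))⁻¹




end

end Pool.Agent.Lib.H33B
end

-- from Lib.H33B.V1
section

/-!
# Chunk V1: correlations, elementary facts
-/

open Finset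

namespace Pool.Agent.Lib.H33B

theorem V1_tsum (u : ℤ → ℝ) (M : ℕ) (hu : ∀ m, m ∉ Icc (1 : ℤ) M → u m = 0) (d : ℤ) :
    cor u M d = ∑' m : ℤ, u m * u (m + d) := by
  unfold cor
  rw [tsum_eq_sum (s := Icc (1 : ℤ) M)]
  intro m hm
  rw [hu m hm, zero_mul]

theorem V1_sq_le (u : ℤ → ℝ) (M : ℕ) (hu : ∀ m, m ∉ Icc (1 : ℤ) M → u m = 0) (T : Finset ℤ) :
    ∑ m ∈ T, u m ^ 2 ≤ ∑ m ∈ Icc (1 : ℤ) M, u m ^ 2 := by
  have h1 : ∑ m ∈ T, u m ^ 2 = ∑ m ∈ T.filter (fun m => m ∈ Icc (1 : ℤ) M), u m ^ 2 := by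
    rw [Finset.sum_filter]
    refine Finset.sum_congr rfl fun m _ => ?_
    split_ifs with h
    · rfl
    · rw [hu m h]
      norm_num
  rw [h1]
  refine Finset.sum_le_sum_of_subset_of_nonneg (fun m hm => (Finset.mem_filter.1 hm).2) ?_
  intro m _ _
  exact sq_nonneg _

/-- `|∑ u(m) u(m+d)| ≤ ∑ u(m)^2` (Cauchy-Schwarz, or `2|xy| ≤ x² + y²`; `m + d` runs over a
translate of `[1,M]`, outside `[1,M]` the terms vanish). -/
theorem cor_le (u : ℤ → ℝ) (M : ℕ) (hu : ∀ m, m ∉ Icc (1 : ℤ) M → u m = 0) (d : ℤ) :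
    |cor u M d| ≤ ∑ m ∈ Icc (1 : ℤ) M, u m ^ 2 := by
  unfold cor
  have h1 : ∑ m ∈ Icc (1 : ℤ) M, u (m + d) ^ 2 ≤ ∑ m ∈ Icc (1 : ℤ) M, u m ^ 2 := by
    have h2 := V1_sq_le u M hu ((Icc (1 : ℤ) M).image (fun m => m + d))
    rwa [Finset.sum_image (fun a _ b _ h => by simpa using h)] at h2
  calc |∑ m ∈ Icc (1 : ℤ) M, u m * u (m + d)| ≤ ∑ m ∈ Icc (1 : ℤ) M, |u m * u (m + d)| :=
        Finset.abs_sum_le_sum_abs _ _
    _ ≤ ∑ m ∈ Icc (1 : ℤ) M, (u m ^ 2 + u (m + d) ^ 2) / 2 := by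
        refine Finset.sum_le_sum fun m _ => ?_
        rw [abs_le]
        constructor
        · nlinarith [sq_nonneg (u m + u (m + d))]
        · nlinarith [sq_nonneg (u m - u (m + d))]
    _ = (∑ m ∈ Icc (1 : ℤ) M, u m ^ 2 + ∑ m ∈ Icc (1 : ℤ) M, u (m + d) ^ 2) / 2 := by
        rw [← Finset.sum_add_distrib, Finset.sum_div]
    _ ≤ ∑ m ∈ Icc (1 : ℤ) M, u m ^ 2 := by linarith

/-- Substitution `m ↦ m - d`. -/
theorem cor_neg (u : ℤ → ℝ) (M : ℕ) (hu : ∀ m, m ∉ Icc (1 : ℤ) M → u m = 0) (d : ℤ) :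
    cor u M (-d) = cor u M d := by
  rw [V1_tsum u M hu, V1_tsum u M hu, ← (Equiv.addRight d).tsum_eq]
  refine tsum_congr fun m => ?_
  simp only [Equiv.coe_addRight, add_neg_cancel_right]
  ring

/-- For `|d| ≥ M` all terms vanish. -/
theorem cor_eq_zero (u : ℤ → ℝ) (M : ℕ) (hu : ∀ m, m ∉ Icc (1 : ℤ) M → u m = 0) (d : ℤ)
    (hd : (M : ℤ) ≤ |d|) : cor u M d = 0 := by
  unfold cor
  refine Finset.sum_eq_zero fun m hm => ?_
  rw [hu (m + d), mul_zero]
  rw [Finset.mem_Icc] at hm ⊢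
  rintro ⟨h1, h2⟩
  rcases abs_cases d with ⟨h3, _⟩ | ⟨h3, _⟩ <;> omega

/-- Expand the square and extend the sum over `N` to all integers (all terms of the sum over `N`
of squares are non-negative): `∑_N u(N - v n) u(N - v n') = cor(v n - v n')`. -/
theorem cor_conv (u : ℤ → ℝ) (M : ℕ) (hu : ∀ m, m ∉ Icc (1 : ℤ) M → u m = 0) (A : Finset ℕ)
    (f : ℕ → ℝ) (hf : ∀ n, |f n| ≤ 1) (v : ℕ → ℤ) (T : Finset ℤ) :
    ∑ N ∈ T, (∑ n ∈ A, f n * u (N - v n)) ^ 2 ≤
      ∑ n ∈ A, ∑ n' ∈ A, |cor u M (v n - v n')| := by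
  classical
  set T' : Finset ℤ := T ∪ A.biUnion (fun n => (Icc (1 : ℤ) M).image (fun m => m + v n)) with hT'
  have h1 : ∑ N ∈ T, (∑ n ∈ A, f n * u (N - v n)) ^ 2 ≤
      ∑ N ∈ T', (∑ n ∈ A, f n * u (N - v n)) ^ 2 :=
    Finset.sum_le_sum_of_subset_of_nonneg Finset.subset_union_left fun _ _ _ => sq_nonneg _
  have h2 : ∀ n ∈ A, ∀ n' ∈ A, ∑ N ∈ T', u (N - v n) * u (N - v n') = cor u M (v n - v n') := by
    intro n hn n' _
    have h3 : ∑ N ∈ T', u (N - v n) * u (N - v n') = ∑' N : ℤ, u (N - v n) * u (N - v n') := by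
      symm
      refine tsum_eq_sum fun N hN => ?_
      rw [hu (N - v n), zero_mul]
      intro h4
      refine hN (Finset.mem_union_right _ (Finset.mem_biUnion.2 ⟨n, hn, ?_⟩))
      exact Finset.mem_image.2 ⟨N - v n, h4, by ring⟩
    rw [h3, V1_tsum u M hu, ← (Equiv.addRight (v n)).tsum_eq]
    refine tsum_congr fun m => ?_
    simp only [Equiv.coe_addRight, add_sub_cancel_right]
    congr 2
    ring
  refine h1.trans ?_
  have h5 : ∑ N ∈ T', (∑ n ∈ A, f n * u (N - v n)) ^ 2 =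
      ∑ n ∈ A, ∑ n' ∈ A, f n * f n' * cor u M (v n - v n') := by
    calc ∑ N ∈ T', (∑ n ∈ A, f n * u (N - v n)) ^ 2 =
        ∑ N ∈ T', ∑ n ∈ A, ∑ n' ∈ A, (f n * f n') * (u (N - v n) * u (N - v n')) := by
          refine Finset.sum_congr rfl fun N _ => ?_
          rw [sq, Finset.sum_mul_sum]
          refine Finset.sum_congr rfl fun n _ => Finset.sum_congr rfl fun n' _ => ?_
          ring
      _ = ∑ n ∈ A, ∑ n' ∈ A, ∑ N ∈ T', (f n * f n') * (u (N - v n) * u (N - v n')) := by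
          rw [Finset.sum_comm]
          refine Finset.sum_congr rfl fun n _ => ?_
          rw [Finset.sum_comm]
      _ = _ := by
          refine Finset.sum_congr rfl fun n hn => Finset.sum_congr rfl fun n' hn' => ?_
          rw [← Finset.mul_sum, h2 n hn n' hn']
  rw [h5]
  refine Finset.sum_le_sum fun n _ => Finset.sum_le_sum fun n' _ => ?_
  calc f n * f n' * cor u M (v n - v n') ≤ |f n * f n' * cor u M (v n - v n')| := le_abs_self _
    _ = (|f n| * |f n'|) * |cor u M (v n - v n')| := by rw [abs_mul, abs_mul]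
    _ ≤ 1 * |cor u M (v n - v n')| := by
        refine mul_le_mul_of_nonneg_right ?_ (abs_nonneg _)
        exact mul_le_one₀ (hf n) (abs_nonneg _) (hf n')
    _ = _ := one_mul _

/-- **Van der Corput's inequality.** With signs `ε_n = ± 1`,
`∑_{n ∈ J} |cor(D n)| = ∑_{m} u(m) ∑_{n ∈ J} ε_n u(m + D n)`, by Cauchy-Schwarz its square is at
most `∑ u(m)^2 · ∑_{m ∈ ℤ} (∑_n ε_n u(m + D n))^2`, and the last sum (over any large enough
interval of `m`) is `∑_{n,n'} ε_n ε_{n'} cor(D n' - D n)` (with `cor_neg`). -/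
theorem cor_cs (u : ℤ → ℝ) (M : ℕ) (hu : ∀ m, m ∉ Icc (1 : ℤ) M → u m = 0) (J : Finset ℕ)
    (D : ℕ → ℤ) : (∑ n ∈ J, |cor u M (D n)|) ^ 2 ≤
      (∑ m ∈ Icc (1 : ℤ) M, u m ^ 2) * ∑ n ∈ J, ∑ n' ∈ J, |cor u M (D n - D n')| := by
  classical
  set ε : ℕ → ℝ := fun n => if 0 ≤ cor u M (D n) then 1 else -1 with hε
  have hε1 : ∀ n, |ε n| ≤ 1 := by
    intro n
    simp only [hε]
    split_ifs <;> simp
  have hε2 : ∀ n, |cor u M (D n)| = ε n * cor u M (D n) := by
    intro n
    simp only [hε]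
    split_ifs with h
    · rw [abs_of_nonneg h, one_mul]
    · rw [abs_of_neg (not_le.1 h)]
      ring
  have h1 : ∑ n ∈ J, |cor u M (D n)| =
      ∑ m ∈ Icc (1 : ℤ) M, u m * ∑ n ∈ J, ε n * u (m - (-(D n))) := by
    calc ∑ n ∈ J, |cor u M (D n)| = ∑ n ∈ J, ∑ m ∈ Icc (1 : ℤ) M, ε n * (u m * u (m + D n)) := by
          refine Finset.sum_congr rfl fun n _ => ?_
          rw [hε2, cor, Finset.mul_sum]
      _ = ∑ m ∈ Icc (1 : ℤ) M, ∑ n ∈ J, ε n * (u m * u (m + D n)) := Finset.sum_comm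
      _ = _ := by
          refine Finset.sum_congr rfl fun m _ => ?_
          rw [Finset.mul_sum]
          refine Finset.sum_congr rfl fun n _ => ?_
          rw [sub_neg_eq_add]
          ring
  rw [h1]
  refine (Finset.sum_mul_sq_le_sq_mul_sq _ _ _).trans ?_
  refine mul_le_mul_of_nonneg_left ?_ (Finset.sum_nonneg fun _ _ => sq_nonneg _)
  have h2 := cor_conv u M hu J ε hε1 (fun n => -(D n)) (Icc (1 : ℤ) M)
  refine h2.trans (le_of_eq ?_)
  refine Finset.sum_congr rfl fun n _ => Finset.sum_congr rfl fun n' _ => ?_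
  rw [show -D n - -D n' = -(D n - D n') by ring, cor_neg u M hu]

end Pool.Agent.Lib.H33B
end

-- from Lib.H33B.V5
section

/-!
# Chunk V5: iterated van der Corput differencing
-/

open Finset Polynomial

namespace Pool.Agent.Lib.H33B

theorem V5_taylor_coeff (P : ℤ[X]) (h : ℤ) (N : ℕ) (hP : P.natDegree ≤ N + 1) :
    (P.comp (X + C h)).coeff N = P.coeff N + (N + 1) * h * P.coeff (N + 1) := by
  have h1 : P.comp (X + C h) = taylor h P := rfl
  rw [h1, taylor_coeff]
  have h2 : (hasseDeriv N P).natDegree < 2 := by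
    have := natDegree_hasseDeriv_le P N
    omega
  rw [eval_eq_sum_range' h2, Finset.sum_range_succ, Finset.sum_range_one, hasseDeriv_coeff,
    hasseDeriv_coeff]
  simp only [zero_add, Nat.choose_self, Nat.cast_one, one_mul, pow_zero, mul_one, pow_one]
  have h3 : (1 + N).choose N = N + 1 := by
    rw [add_comm]
    exact Nat.choose_succ_self_right N
  rw [h3, add_comm 1 N]
  push_cast
  ring

/-- The coefficient of `x^j` in `P(x+h) - P(x)` for `deg P ≤ j + 1` is `(j+1) h P_{j+1}`. -/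
theorem shiftDiff_coeff (P : ℤ[X]) (h : ℤ) (j : ℕ) (hP : P.natDegree ≤ j + 1) :
    (shiftDiff P h).coeff j = (j + 1) * h * P.coeff (j + 1) := by
  unfold shiftDiff
  rw [coeff_sub, V5_taylor_coeff P h j hP]
  ring

theorem shiftDiff_natDegree (P : ℤ[X]) (h : ℤ) (j : ℕ) (hP : P.natDegree ≤ j + 1) :
    (shiftDiff P h).natDegree ≤ j := by
  rw [natDegree_le_iff_coeff_eq_zero]
  intro N hN
  unfold shiftDiff
  rw [coeff_sub, V5_taylor_coeff P h N (by omega)]
  have h1 : P.coeff (N + 1) = 0 := coeff_eq_zero_of_natDegree_lt (by omega)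
  rw [h1]
  ring

theorem shiftDiff_eval (P : ℤ[X]) (h x : ℤ) :
    (shiftDiff P h).eval x = P.eval (x + h) - P.eval x := by
  unfold shiftDiff
  simp [eval_comp]

/-- power mean -/
theorem V5_mean {ι : Type*} (H : Finset ι) (N : ℝ) (hN : (H.card : ℝ) ≤ N) (hN0 : 0 < N)
    (r : ι → ℝ) (hr : ∀ h ∈ H, 0 ≤ r h) (p : ℝ) (hp : 1 ≤ p) :
    ∑ h ∈ H, r h ^ (1 / p) ≤ N * ((∑ h ∈ H, r h) / N) ^ (1 / p) := by
  have hp0 : 0 < p := by linarith
  have hS : 0 ≤ ∑ h ∈ H, r h := Finset.sum_nonneg hr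
  rcases Finset.eq_empty_or_nonempty H with h0 | h0
  · rw [h0]
    simp only [Finset.sum_empty, zero_div]
    positivity
  · have hc : (0 : ℝ) < H.card := by exact_mod_cast h0.card_pos
    have h1 := Real.arith_mean_le_rpow_mean H (fun _ => 1 / (H.card : ℝ)) (fun h => r h ^ (1 / p))
      (fun _ _ => by positivity) (by rw [Finset.sum_const, nsmul_eq_mul]; field_simp)
      (fun h hh => Real.rpow_nonneg (hr h hh) _) hp
    have h2 : ∀ h ∈ H, 1 / (H.card : ℝ) * (r h ^ (1 / p)) ^ p = 1 / (H.card : ℝ) * r h := by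
      intro h hh
      rw [← Real.rpow_mul (hr h hh), one_div_mul_cancel hp0.ne', Real.rpow_one]
    rw [Finset.sum_congr rfl h2, ← Finset.mul_sum, ← Finset.mul_sum] at h1
    have h3 : ∑ h ∈ H, r h ^ (1 / p) ≤ H.card * ((∑ h ∈ H, r h) / H.card) ^ (1 / p) := by
      have h4 : 1 / (H.card : ℝ) * ∑ h ∈ H, r h = (∑ h ∈ H, r h) / H.card := by ring
      rw [h4] at h1
      have h5 := mul_le_mul_of_nonneg_left h1 hc.le
      calc ∑ h ∈ H, r h ^ (1 / p) = (H.card : ℝ) * (1 / (H.card : ℝ) * ∑ h ∈ H, r h ^ (1 / p)) := by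
            field_simp
        _ ≤ _ := h5
    refine h3.trans ?_
    have h6 : ∀ x : ℝ, 0 < x → x * ((∑ h ∈ H, r h) / x) ^ (1 / p) =
        x ^ (1 - 1 / p) * (∑ h ∈ H, r h) ^ (1 / p) := by
      intro x hx
      rw [Real.div_rpow hS hx.le, Real.rpow_sub hx, Real.rpow_one]
      ring
    rw [h6 _ hc, h6 _ hN0]
    refine mul_le_mul_of_nonneg_right ?_ (Real.rpow_nonneg hS _)
    refine Real.rpow_le_rpow hc.le hN ?_
    have : 1 / p ≤ 1 := (div_le_one hp0).2 hp
    linarith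

theorem V5_cons {H : Finset ℤ} (j : ℕ) (f : (Fin (j + 1) → ℤ) → ℝ) :
    ∑ g ∈ Fintype.piFinset (fun _ : Fin (j + 1) => H), f g =
      ∑ h ∈ H, ∑ h' ∈ Fintype.piFinset (fun _ : Fin j => H), f (Fin.cons h h') := by
  rw [← Finset.sum_product']
  refine Finset.sum_nbij' (fun g => (g 0, Fin.tail g)) (fun p => Fin.cons p.1 p.2) ?_ ?_ ?_ ?_ ?_
  · intro g hg
    rw [Fintype.mem_piFinset] at hg
    rw [Finset.mem_product, Fintype.mem_piFinset]
    exact ⟨hg 0, fun i => hg _⟩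
  · intro p hp
    rw [Finset.mem_product, Fintype.mem_piFinset] at hp
    rw [Fintype.mem_piFinset]
    intro i
    refine Fin.cases ?_ (fun i => ?_) i
    · rw [Fin.cons_zero]
      exact hp.1
    · rw [Fin.cons_succ]
      exact hp.2 i
  · intro g _
    exact Fin.cons_self_tail g
  · intro p _
    simp
  · intro g _
    simp only
    rw [Fin.cons_self_tail]

/-- The sum over pairs in terms of the differences. -/
theorem V5_pairs (J : Finset ℕ) (X : ℕ) (hJ : J ⊆ Icc 1 X) (F : ℤ → ℤ → ℝ) :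
    ∑ n ∈ J, ∑ n' ∈ J, F (n : ℤ) (n' : ℤ) =
      ∑ h ∈ Ioo (-(X : ℤ)) X, ∑ n' ∈ J.filter (fun n' : ℕ => ∃ n ∈ J, (n : ℤ) = n' + h),
        F (n' + h) n' := by
  classical
  rw [Finset.sum_comm]
  have h1 : ∀ n' ∈ J, ∑ n ∈ J, F (n : ℤ) (n' : ℤ) =
      ∑ h ∈ Ioo (-(X : ℤ)) X, if (∃ n ∈ J, (n : ℤ) = n' + h) then F (n' + h) n' else 0 := by
    intro n' hn'
    rw [← Finset.sum_filter]
    refine Finset.sum_bij (fun n _ => (n : ℤ) - n') ?_ ?_ ?_ ?_
    · intro n hn
      have h2 := Finset.mem_Icc.1 (hJ hn)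
      have h3 := Finset.mem_Icc.1 (hJ hn')
      rw [Finset.mem_filter, Finset.mem_Ioo]
      refine ⟨⟨by omega, by omega⟩, n, hn, by ring⟩
    · intro a _ b _ h
      omega
    · intro h hh
      rw [Finset.mem_filter] at hh
      obtain ⟨_, n, hn, h2⟩ := hh
      exact ⟨n, hn, by omega⟩
    · intro n _
      congr 1
      ring
  rw [Finset.sum_congr rfl h1, Finset.sum_comm]
  refine Finset.sum_congr rfl fun h _ => ?_
  rw [Finset.sum_filter]

/-- From the bound for degree `j` to the sum over pairs for degree `j + 1`. -/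
theorem V5_step (u : ℤ → ℝ) (M : ℕ) (E : ℝ) (hE0 : 0 < E) (X : ℕ) (hX : 1 ≤ X) (j : ℕ)
    (ih : ∀ P : ℤ[X], P.natDegree ≤ j → ∀ J : Finset ℕ, J ⊆ Icc 1 X →
      ∑ n ∈ J, |cor u M (P.eval (n : ℤ))| ≤ 2 * X * E *
      ((∑ h ∈ Fintype.piFinset (fun _ : Fin j => Ioo (-(X : ℤ)) X),
        |cor u M ((j.factorial : ℤ) * P.coeff j * ∏ i, h i)|) / ((2 * X) ^ j * E)) ^
          ((1 : ℝ) / 2 ^ j))
    (P : ℤ[X]) (hP : P.natDegree ≤ j + 1) (J : Finset ℕ) (hJ : J ⊆ Icc 1 X) :
    ∑ n ∈ J, ∑ n' ∈ J, |cor u M (P.eval (n : ℤ) - P.eval (n' : ℤ))| ≤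
      4 * X ^ 2 * E * ((∑ h ∈ Fintype.piFinset (fun _ : Fin (j + 1) => Ioo (-(X : ℤ)) X),
        |cor u M (((j + 1).factorial : ℤ) * P.coeff (j + 1) * ∏ i, h i)|) /
          ((2 * X) ^ (j + 1) * E)) ^ ((1 : ℝ) / 2 ^ j) := by
  have hX0 : (0 : ℝ) < X := by exact_mod_cast hX
  rw [V5_pairs J X hJ (fun a b => |cor u M (P.eval a - P.eval b)|)]
  set W : ℤ → ℝ := fun h => ∑ h' ∈ Fintype.piFinset (fun _ : Fin j => Ioo (-(X : ℤ)) X),
    |cor u M ((j.factorial : ℤ) * (shiftDiff P h).coeff j * ∏ i, h' i)| with hW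
  have hW0 : ∀ h, 0 ≤ W h := fun h => Finset.sum_nonneg fun _ _ => abs_nonneg _
  have h1 : ∀ h ∈ Ioo (-(X : ℤ)) X,
      ∑ n' ∈ J.filter (fun n' : ℕ => ∃ n ∈ J, (n : ℤ) = n' + h),
        |cor u M (P.eval ((n' : ℤ) + h) - P.eval (n' : ℤ))| ≤
      2 * X * E * (W h / ((2 * X) ^ j * E)) ^ ((1 : ℝ) / 2 ^ j) := by
    intro h _
    have h2 := ih (shiftDiff P h) (shiftDiff_natDegree P h j hP)
      (J.filter (fun n' : ℕ => ∃ n ∈ J, (n : ℤ) = n' + h)) ((Finset.filter_subset _ _).trans hJ)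
    simp only [shiftDiff_eval] at h2
    exact h2
  refine (Finset.sum_le_sum h1).trans ?_
  rw [← Finset.mul_sum]
  have h3 := V5_mean (Ioo (-(X : ℤ)) X) (2 * X) (by
      rw [Int.card_Ioo]
      have : ((X : ℤ) - -(X : ℤ) - 1).toNat ≤ 2 * X := by omega
      exact_mod_cast this) (by positivity) (fun h => W h / ((2 * X) ^ j * E))
    (fun h _ => div_nonneg (hW0 h) (by positivity)) (2 ^ j) (one_le_pow₀ (by norm_num))
  have h4 : (∑ h ∈ Ioo (-(X : ℤ)) X, W h / ((2 * X) ^ j * E)) / (2 * X) =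
      (∑ h ∈ Fintype.piFinset (fun _ : Fin (j + 1) => Ioo (-(X : ℤ)) X),
        |cor u M (((j + 1).factorial : ℤ) * P.coeff (j + 1) * ∏ i, h i)|) /
          ((2 * X) ^ (j + 1) * E) := by
    rw [V5_cons, ← Finset.sum_div, div_div]
    congr 1
    · refine Finset.sum_congr rfl fun h _ => ?_
      simp only [hW]
      refine Finset.sum_congr rfl fun h' _ => ?_
      congr 2
      rw [shiftDiff_coeff P h j hP, Fin.prod_univ_succ, Fin.cons_zero, Nat.factorial_succ]
      simp only [Fin.cons_succ]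
      push_cast
      ring
    · ring
  rw [h4] at h3
  calc 2 * X * E * ∑ h ∈ Ioo (-(X : ℤ)) X, (W h / ((2 * X) ^ j * E)) ^ ((1 : ℝ) / 2 ^ j) ≤
        2 * X * E * (2 * X * ((∑ h ∈ Fintype.piFinset (fun _ : Fin (j + 1) => Ioo (-(X : ℤ)) X),
        |cor u M (((j + 1).factorial : ℤ) * P.coeff (j + 1) * ∏ i, h i)|) /
          ((2 * X) ^ (j + 1) * E)) ^ ((1 : ℝ) / 2 ^ j)) :=
        mul_le_mul_of_nonneg_left h3 (by positivity)
    _ = _ := by ring

/-- Induction on `j`. For `j = 0` the polynomial is constant and the left side is at most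
`X |cor(P_0)|`. Step: put `T = ∑_{n ∈ J} |cor(P(n))|`. By `cor_cs`,
`T^2 ≤ E ∑_{n,n' ∈ J} |cor(P(n) - P(n'))| = E ∑_{h ∈ (-X,X)} ∑_{n' ∈ J_h} |cor(Δ_h P(n'))|`,
`J_h = {n' ∈ J : n' + h ∈ J} ⊆ [1,X]`, `Δ_h P = shiftDiff P h` of degree `≤ j` with coefficient
`(j+1) h P_{j+1}` at `x^j`. By induction this is at most `E ∑_h 2 X E r_h^θ`, `θ = 1/2^j`,
`r_h = ∑_{h'} |cor(j! (j+1) h P_{j+1} ∏ h')|/((2X)^j E)`. Hölder (concavity):
`∑_h r_h^θ ≤ (2X)^(1-θ) (∑_h r_h)^θ = 2X (∑_h r_h/(2X))^θ` (there are `2X - 1` values of `h`), and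
`∑_h r_h/(2X)` is the quantity `ρ_{j+1}` in the claim (a tuple in `Fin (j+1)` is `h` together with `h'`,
`Fin.cons`). So `T^2 ≤ (2 X E)^2 ρ_{j+1}^θ`. -/
theorem vdc_iter (u : ℤ → ℝ) (M : ℕ) (hu : ∀ m, m ∉ Icc (1 : ℤ) M → u m = 0) (E : ℝ)
    (hE0 : 0 < E) (hE : ∑ m ∈ Icc (1 : ℤ) M, u m ^ 2 ≤ E) (X : ℕ) (hX : 1 ≤ X) :
    ∀ (j : ℕ) (P : ℤ[X]), P.natDegree ≤ j → ∀ J : Finset ℕ, J ⊆ Icc 1 X →
    ∑ n ∈ J, |cor u M (P.eval (n : ℤ))| ≤ 2 * X * E *
      ((∑ h ∈ Fintype.piFinset (fun _ : Fin j => Ioo (-(X : ℤ)) X),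
        |cor u M ((j.factorial : ℤ) * P.coeff j * ∏ i, h i)|) / ((2 * X) ^ j * E)) ^
          ((1 : ℝ) / 2 ^ j) := by
  have hX0 : (0 : ℝ) < X := by exact_mod_cast hX
  intro j
  induction j with
  | zero =>
    intro P hP J hJ
    have h1 : P = C (P.coeff 0) := eq_C_of_natDegree_le_zero hP
    have h2 : ∀ n ∈ J, |cor u M (P.eval (n : ℤ))| = |cor u M (P.coeff 0)| := by
      intro n _
      rw [h1, eval_C, coeff_C_zero]
    rw [Finset.sum_congr rfl h2, Finset.sum_const, nsmul_eq_mul]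
    have h3 : (J.card : ℝ) ≤ X := by
      have := Finset.card_le_card hJ
      rw [Nat.card_Icc] at this
      exact_mod_cast (by omega : J.card ≤ X)
    have h4 : 2 * X * E * ((∑ h ∈ Fintype.piFinset (fun _ : Fin 0 => Ioo (-(X : ℤ)) X),
        |cor u M (((Nat.factorial 0 : ℕ) : ℤ) * P.coeff 0 * ∏ i, h i)|) /
          ((2 * X) ^ 0 * E)) ^ ((1 : ℝ) / 2 ^ 0) = 2 * X * |cor u M (P.coeff 0)| := by
      simp only [Fintype.piFinset_of_isEmpty, Finset.univ_unique, Finset.sum_singleton,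
        Finset.univ_eq_empty, Finset.prod_empty, Nat.factorial_zero, Nat.cast_one, one_mul, mul_one,
        pow_zero, div_one, Real.rpow_one]
      field_simp
    rw [h4]
    have h5 := abs_nonneg (cor u M (P.coeff 0))
    nlinarith
  | succ j ih =>
    intro P hP J hJ
    have h1 := V5_step u M E hE0 X hX j ih P hP J hJ
    set ρ : ℝ := (∑ h ∈ Fintype.piFinset (fun _ : Fin (j + 1) => Ioo (-(X : ℤ)) X),
        |cor u M (((j + 1).factorial : ℤ) * P.coeff (j + 1) * ∏ i, h i)|) /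
          ((2 * X) ^ (j + 1) * E) with hρ
    have hρ0 : 0 ≤ ρ := div_nonneg (Finset.sum_nonneg fun _ _ => abs_nonneg _) (by positivity)
    have h2 := cor_cs u M hu J (fun n => P.eval (n : ℤ))
    have h3 : (∑ n ∈ J, |cor u M (P.eval (n : ℤ))|) ^ 2 ≤
        E * (4 * X ^ 2 * E * ρ ^ ((1 : ℝ) / 2 ^ j)) := by
      refine h2.trans (mul_le_mul hE h1 ?_ hE0.le)
      exact Finset.sum_nonneg fun _ _ => Finset.sum_nonneg fun _ _ => abs_nonneg _
    have h4 : (2 * X * E * ρ ^ ((1 : ℝ) / 2 ^ (j + 1))) ^ 2 =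
        E * (4 * X ^ 2 * E * ρ ^ ((1 : ℝ) / 2 ^ j)) := by
      have h5 : (ρ ^ ((1 : ℝ) / 2 ^ (j + 1))) ^ 2 = ρ ^ ((1 : ℝ) / 2 ^ j) := by
        rw [← Real.rpow_natCast, ← Real.rpow_mul hρ0]
        congr 1
        rw [pow_succ]
        push_cast
        field_simp
      rw [mul_pow, h5]
      ring
    rw [← h4] at h3
    exact abs_le_of_sq_le_sq' h3 (by positivity) |>.2

/-- `∑_{n,n'} = ∑_{h ∈ (-X,X)} ∑_{n' ∈ J_h} |cor(Δ_h P(n'))|`, then `vdc_iter` with `j = k - 1` and the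
same use of Hölder's inequality as in the step of the induction. -/
theorem vdc_pair (u : ℤ → ℝ) (M : ℕ) (hu : ∀ m, m ∉ Icc (1 : ℤ) M → u m = 0) (E : ℝ)
    (hE0 : 0 < E) (hE : ∑ m ∈ Icc (1 : ℤ) M, u m ^ 2 ≤ E) (X : ℕ) (hX : 1 ≤ X) (k : ℕ)
    (hk : 1 ≤ k) (P : ℤ[X]) (hP : P.natDegree ≤ k) :
    ∑ n ∈ Icc 1 X, ∑ n' ∈ Icc 1 X, |cor u M (P.eval (n : ℤ) - P.eval (n' : ℤ))| ≤
      4 * X ^ 2 * E * ((∑ h ∈ Fintype.piFinset (fun _ : Fin k => Ioo (-(X : ℤ)) X),
        |cor u M ((k.factorial : ℤ) * P.coeff k * ∏ i, h i)|) / ((2 * X) ^ k * E)) ^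
          ((1 : ℝ) / 2 ^ (k - 1)) := by
  obtain ⟨j, rfl⟩ : ∃ j, k = j + 1 := ⟨k - 1, by omega⟩
  have h1 := V5_step u M E hE0 X hX j (vdc_iter u M hu E hE0 hE X hX j) P hP (Icc 1 X)
    (Finset.Subset.refl _)
  simpa using h1

end Pool.Agent.Lib.H33B
end

-- from Lib.Helper57.Mertens
section

/-!
# Mertens-type upper bounds
-/

namespace Pool.Agent.Lib.Helper57

open Finset Pool.Agent.Lib.Sieve

/-- Partial sums of `log p / p`. -/
noncomputable def SL (n : ℕ) : ℝ := ∑ p ∈ primesUpTo n, Real.log p / p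

lemma primesUpTo_succ (n : ℕ) :
    primesUpTo (n + 1) = if (n + 1).Prime then insert (n + 1) (primesUpTo n) else primesUpTo n := by
  unfold primesUpTo
  rw [Finset.range_add_one, Finset.filter_insert]

lemma sum_primesUpTo_succ (n : ℕ) (f : ℕ → ℝ) :
    ∑ p ∈ primesUpTo (n + 1), f p =
      ∑ p ∈ primesUpTo n, f p + if (n + 1).Prime then f (n + 1) else 0 := by
  rw [primesUpTo_succ]
  split_ifs with h
  · rw [Finset.sum_insert, add_comm]
    rw [mem_primesUpTo]; omega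
  · simp

lemma primesUpTo_one : primesUpTo 1 = ∅ := by
  ext p; rw [mem_primesUpTo]; constructor
  · rintro ⟨h1, h2⟩; have := h1.two_le; omega
  · intro h; simp at h

/-- Abel summation. -/
lemma sum_inv_eq (n : ℕ) (hn : 2 ≤ n) :
    ∑ p ∈ primesUpTo n, (1 : ℝ) / p = SL n / Real.log n +
      ∑ m ∈ Finset.Ico 2 n, SL m * (1 / Real.log m - 1 / Real.log (m + 1 : ℕ)) := by
  induction n, hn using Nat.le_induction with
  | base =>
    have h1 := sum_primesUpTo_succ 1 (fun p => (1 : ℝ) / p)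
    have h2 := sum_primesUpTo_succ 1 (fun p => Real.log p / p)
    rw [primesUpTo_one] at h1 h2
    norm_num at h1 h2
    unfold SL
    rw [h2]
    have h3 : Real.log 2 ≠ 0 := (Real.log_pos (by norm_num)).ne'
    simp only [Finset.Ico_self, Finset.sum_empty, add_zero]
    simp only [one_div]
    rw [h1]
    push_cast
    field_simp
  | succ n hn ih =>
    rw [sum_primesUpTo_succ, Finset.sum_Ico_succ_top hn, ih]
    have h2 : SL (n + 1) = SL n + if (n + 1).Prime then Real.log (n + 1 : ℕ) / (n + 1 : ℕ) else 0 := by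
      unfold SL
      rw [sum_primesUpTo_succ n (fun p => Real.log p / p)]
    rw [h2]
    have h3 : Real.log (n + 1 : ℕ) ≠ 0 := by
      apply (Real.log_pos _).ne'
      have : (2 : ℝ) ≤ n := by exact_mod_cast hn
      push_cast; linarith
    have h4 : Real.log (n : ℕ) ≠ 0 := by
      apply (Real.log_pos _).ne'
      have : (2 : ℝ) ≤ n := by exact_mod_cast hn
      linarith
    split_ifs with hp
    · field_simp
      ring
    · field_simp
      ring

/-- `∑_{p ≤ n} 1/p ≤ log log n + 4`. -/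
lemma sum_inv_primes_le (n : ℕ) (hn : 2 ≤ n) :
    ∑ p ∈ primesUpTo n, (1 : ℝ) / p ≤ Real.log (Real.log n) + 4 := by
  rw [sum_inv_eq n hn]
  have hn' : (2 : ℝ) ≤ n := by exact_mod_cast hn
  have hlog2 : 0 < Real.log 2 := Real.log_pos (by norm_num)
  have hlogn : 0 < Real.log n := Real.log_pos (by linarith)
  have h0 : SL n / Real.log n ≤ 1 + Real.log 4 / Real.log n := by
    rw [div_le_iff₀ hlogn]
    have := sum_log_div_le n (by omega)
    unfold SL
    field_simp
    linarith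
  have h1 : ∀ m ∈ Finset.Ico 2 n, SL m * (1 / Real.log m - 1 / Real.log (m + 1 : ℕ)) ≤
      (Real.log (Real.log (m + 1 : ℕ)) - Real.log (Real.log m)) +
        Real.log 4 * (1 / Real.log m - 1 / Real.log (m + 1 : ℕ)) := by
    intro m hm
    rw [Finset.mem_Ico] at hm
    have hm' : (2 : ℝ) ≤ m := by exact_mod_cast hm.1
    have hlm : 0 < Real.log m := Real.log_pos (by linarith)
    have hlm1 : Real.log m < Real.log (m + 1 : ℕ) := by
      apply Real.log_lt_log (by linarith)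
      push_cast; linarith
    have hlm2 : 0 < Real.log (m + 1 : ℕ) := hlm.trans hlm1
    have h2 : 0 ≤ 1 / Real.log m - 1 / Real.log (m + 1 : ℕ) := by
      rw [sub_nonneg]
      exact one_div_le_one_div_of_le hlm hlm1.le
    have h3 : SL m ≤ Real.log m + Real.log 4 := sum_log_div_le m (by omega)
    calc SL m * (1 / Real.log m - 1 / Real.log (m + 1 : ℕ))
        ≤ (Real.log m + Real.log 4) * (1 / Real.log m - 1 / Real.log (m + 1 : ℕ)) :=
          mul_le_mul_of_nonneg_right h3 h2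
      _ = (1 - Real.log m / Real.log (m + 1 : ℕ)) +
          Real.log 4 * (1 / Real.log m - 1 / Real.log (m + 1 : ℕ)) := by
          field_simp
      _ ≤ _ := by
          have h5 := Real.one_sub_inv_le_log_of_pos (x := Real.log (m + 1 : ℕ) / Real.log m)
            (by positivity)
          rw [Real.log_div hlm2.ne' hlm.ne', inv_div] at h5
          linarith
  have h2 := Finset.sum_le_sum h1
  rw [Finset.sum_add_distrib, ← Finset.mul_sum] at h2
  have h3 : ∀ f : ℕ → ℝ, ∑ m ∈ Finset.Ico 2 n, (f (m + 1) - f m) = f n - f 2 := by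
    intro f
    exact Finset.sum_Ico_sub f hn
  have h4 := h3 (fun m => Real.log (Real.log m))
  have h5 := h3 (fun m => -(1 / Real.log m))
  have h6 : ∑ m ∈ Finset.Ico 2 n, (1 / Real.log m - 1 / Real.log (m + 1 : ℕ)) =
      1 / Real.log 2 - 1 / Real.log n := by
    rw [← sub_eq_zero]
    have : ∑ m ∈ Finset.Ico 2 n, (1 / Real.log m - 1 / Real.log (m + 1 : ℕ)) =
      ∑ m ∈ Finset.Ico 2 n, (-(1 / Real.log (m + 1 : ℕ)) - -(1 / Real.log m)) := by
      apply Finset.sum_congr rfl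
      intro m _
      ring
    rw [this, h5]
    push_cast
    ring
  rw [h4, h6] at h2
  have h7 : Real.log 4 = 2 * Real.log 2 := by
    rw [show (4 : ℝ) = 2 ^ 2 by norm_num, Real.log_pow]; push_cast; ring
  have h8 : Real.log 4 * (1 / Real.log 2 - 1 / Real.log n) = 2 - Real.log 4 / Real.log n := by
    rw [h7]; field_simp
  rw [h8] at h2
  -- `- log log 2 ≤ 1/2`
  have h9 : -(1 : ℝ) ≤ Real.log (Real.log 2) := by
    rw [Real.le_log_iff_exp_le hlog2]
    have h10 := Real.exp_neg_one_lt_d9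
    have h11 := Real.log_two_gt_d9
    linarith
  push_cast at h2 ⊢
  have h2' : ∑ m ∈ Finset.Ico 2 n, SL m * (1 / Real.log m - 1 / Real.log (m + 1)) ≤
      (Real.log (Real.log n) - Real.log (Real.log 2)) + (2 - Real.log 4 / Real.log n) := h2
  linarith

lemma neg_log_one_sub_le {t : ℝ} (h0 : 0 ≤ t) (h1 : t ≤ 1 / 2) :
    -Real.log (1 - t) ≤ t + 2 * t ^ 2 := by
  have _ := h0
  have h2 : 0 < 1 - t := by linarith
  rw [← Real.log_inv]
  have h3 := Real.log_le_sub_one_of_pos (inv_pos.mpr h2)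
  refine h3.trans ?_
  rw [show (1 - t)⁻¹ - 1 = t / (1 - t) by field_simp; ring]
  rw [div_le_iff₀ h2]
  nlinarith [mul_nonneg h0 h0, mul_nonneg (mul_nonneg h0 h0) h0]

lemma sum_inv_sq_primes_le (S : Finset ℕ) (m : ℕ) (hm : 1 ≤ m) (hS : ∀ p ∈ S, m < p) :
    ∑ p ∈ S, (1 : ℝ) / (p : ℝ) ^ 2 ≤ 1 / m := by
  obtain ⟨N, hN⟩ : ∃ N, ∀ p ∈ S, p ≤ N := ⟨S.sup id, fun p hp => Finset.le_sup (f := id) hp⟩
  have h1 : ∀ n : ℕ, m ≤ n → ∑ p ∈ Finset.Ioc m n, (1 : ℝ) / (p : ℝ) ^ 2 ≤ 1 / m - 1 / n := by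
    intro n hn
    induction n, hn using Nat.le_induction with
    | base => simp
    | succ n hn ih =>
      rw [← Finset.insert_Ioc_right_eq_Ioc_add_one (by omega), Finset.sum_insert (by simp)]
      have hn' : (0 : ℝ) < n := by
        have : 1 ≤ n := hm.trans hn
        exact_mod_cast this
      have h3 : (1 : ℝ) / ((n + 1 : ℕ) : ℝ) ^ 2 ≤ 1 / n - 1 / (n + 1 : ℕ) := by
        push_cast
        rw [div_sub_div _ _ hn'.ne' (by positivity), div_le_div_iff₀ (by positivity) (by positivity)]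
        nlinarith
      linarith
  rcases le_or_gt m N with h | h
  · calc ∑ p ∈ S, (1 : ℝ) / (p : ℝ) ^ 2 ≤ ∑ p ∈ Finset.Ioc m N, (1 : ℝ) / (p : ℝ) ^ 2 := by
          apply Finset.sum_le_sum_of_subset_of_nonneg
          · intro p hp
            rw [Finset.mem_Ioc]
            exact ⟨hS p hp, hN p hp⟩
          · intro p _ _
            positivity
      _ ≤ 1 / m - 1 / N := h1 N h
      _ ≤ 1 / m := by
          have : (0 : ℝ) ≤ 1 / N := by positivity
          linarith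
  · have : S = ∅ := by
      rw [Finset.eq_empty_iff_forall_notMem]
      intro p hp
      have := hS p hp
      have := hN p hp
      omega
    rw [this]
    simp

/-- `∏_{p ≤ n} (1 - 1/p)⁻¹ ≤ 500 log n`. -/
lemma prod_one_sub_inv_inv_le (n : ℕ) (hn : 2 ≤ n) :
    ∏ p ∈ primesUpTo n, (1 - 1 / (p : ℝ))⁻¹ ≤ 500 * Real.log n := by
  have hn' : (2 : ℝ) ≤ n := by exact_mod_cast hn
  have hlogn : 0 < Real.log n := Real.log_pos (by linarith)
  have h1 : ∀ p ∈ primesUpTo n, (1 - 1 / (p : ℝ))⁻¹ ≤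
      Real.exp (1 / p + 2 * (1 / (p : ℝ) ^ 2)) := by
    intro p hp
    have hp2 : (2 : ℝ) ≤ p := by exact_mod_cast (mem_primesUpTo.mp hp).1.two_le
    have h2 : (1 : ℝ) / p ≤ 1 / 2 := one_div_le_one_div_of_le (by norm_num) hp2
    have h3 := neg_log_one_sub_le (t := 1 / (p : ℝ)) (by positivity) h2
    have h4 : 0 < 1 - 1 / (p : ℝ) := by linarith
    rw [← Real.log_le_iff_le_exp (inv_pos.mpr h4), Real.log_inv]
    calc _ ≤ _ := h3
      _ = _ := by ring
  calc ∏ p ∈ primesUpTo n, (1 - 1 / (p : ℝ))⁻¹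
      ≤ ∏ p ∈ primesUpTo n, Real.exp (1 / p + 2 * (1 / (p : ℝ) ^ 2)) := by
        apply Finset.prod_le_prod
        · intro p hp
          have hp2 : (2 : ℝ) ≤ p := by exact_mod_cast (mem_primesUpTo.mp hp).1.two_le
          have h2 : (1 : ℝ) / p ≤ 1 / 2 := one_div_le_one_div_of_le (by norm_num) hp2
          have h4 : 0 < 1 - 1 / (p : ℝ) := by linarith
          exact (inv_pos.mpr h4).le
        · exact h1
    _ = Real.exp (∑ p ∈ primesUpTo n, (1 : ℝ) / p + 2 * ∑ p ∈ primesUpTo n, 1 / (p : ℝ) ^ 2) := by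
        rw [← Real.exp_sum, Finset.sum_add_distrib, ← Finset.mul_sum]
    _ ≤ Real.exp (Real.log (Real.log n) + 6) := by
        apply Real.exp_le_exp.mpr
        have h5 := sum_inv_primes_le n hn
        have h6 := sum_inv_sq_primes_le (primesUpTo n) 1 le_rfl
          (fun p hp => (mem_primesUpTo.mp hp).1.one_lt)
        norm_num at h6 ⊢
        norm_num at h5
        linarith
    _ = Real.exp 6 * Real.log n := by
        rw [Real.exp_add, Real.exp_log hlogn]; ring
    _ ≤ 500 * Real.log n := by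
        apply mul_le_mul_of_nonneg_right _ hlogn.le
        have h7 : Real.exp 1 ≤ 2.7183 := by linarith [Real.exp_one_lt_d9]
        have h8 : Real.exp 6 = Real.exp 1 ^ 6 := by rw [← Real.exp_nat_mul]; norm_num
        rw [h8]
        calc Real.exp 1 ^ 6 ≤ 2.7183 ^ 6 := pow_le_pow_left₀ (Real.exp_pos 1).le h7 6
          _ ≤ 500 := by norm_num

end Pool.Agent.Lib.Helper57
end

-- from Lib.H33B.V3
section

/-!
# Chunk V3: the multiplicative energy of a box
-/

open Finset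

namespace Pool.Agent.Lib.H33B

/-- The number of `k`-tuples with product `n`. -/
def V3_t : ℕ → ℕ → ℕ
  | 0, n => if n = 1 then 1 else 0
  | (k + 1), n => ∑ d ∈ n.divisors, V3_t k (n / d)

theorem V3_one (k : ℕ) : V3_t k 1 = 1 := by
  induction k with
  | zero => simp [V3_t]
  | succ k ih => simp [V3_t, ih]

theorem V3_count (X : ℕ) (k : ℕ) : ∀ n : ℕ, n ≠ 0 →
    ((Fintype.piFinset (fun _ : Fin k => Icc 1 X)).filter
      (fun h : Fin k → ℕ => ∏ i, h i = n)).card ≤ V3_t k n := by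
  induction k with
  | zero =>
    intro n _
    by_cases h : n = 1
    · subst h
      simp [V3_t]
    · have : ((Fintype.piFinset (fun _ : Fin 0 => Icc 1 X)).filter
          (fun h : Fin 0 → ℕ => ∏ i, h i = n)) = ∅ := by
        refine Finset.filter_eq_empty_iff.2 fun x _ => ?_
        simp only [Finset.univ_eq_empty, Finset.prod_empty]
        exact fun h' => h h'.symm
      rw [this]
      simp
  | succ k ih =>
    intro n hn
    have hmap : ∀ h ∈ (Fintype.piFinset (fun _ : Fin (k + 1) => Icc 1 X)).filter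
        (fun h : Fin (k + 1) → ℕ => ∏ i, h i = n), h 0 ∈ n.divisors := by
      intro h hh
      rw [Finset.mem_filter] at hh
      rw [Nat.mem_divisors]
      refine ⟨?_, hn⟩
      rw [← hh.2]
      exact Finset.dvd_prod_of_mem _ (Finset.mem_univ _)
    rw [Finset.card_eq_sum_card_fiberwise hmap]
    simp only [V3_t]
    refine Finset.sum_le_sum fun d hd => ?_
    rw [Nat.mem_divisors] at hd
    have hd0 : 0 < d := Nat.pos_of_dvd_of_pos hd.1 (Nat.pos_of_ne_zero hn)
    refine le_trans ?_ (ih (n / d) (by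
      rw [Nat.div_ne_zero_iff]
      exact ⟨hd0.ne', Nat.le_of_dvd (Nat.pos_of_ne_zero hn) hd.1⟩))
    refine Finset.card_le_card_of_injOn (fun h => Fin.tail h) ?_ ?_
    · intro h hh
      rw [Finset.mem_coe, Finset.mem_filter, Finset.mem_filter, Fintype.mem_piFinset] at hh
      obtain ⟨⟨h1, h2⟩, h3⟩ := hh
      rw [Finset.mem_coe, Finset.mem_filter, Fintype.mem_piFinset]
      refine ⟨fun i => h1 _, ?_⟩
      rw [Fin.prod_univ_succ, h3] at h2
      rw [← h2, Nat.mul_div_cancel_left _ hd0]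
      rfl
    · intro h hh h' hh' heq
      rw [Finset.mem_coe, Finset.mem_filter] at hh hh'
      have heq' : Fin.tail h = Fin.tail h' := heq
      rw [← Fin.cons_self_tail h, ← Fin.cons_self_tail h', heq', hh.2, hh'.2]

theorem V3_submul (k : ℕ) : ∀ m n : ℕ, m ≠ 0 → n ≠ 0 →
    V3_t k (m * n) ≤ V3_t k m * V3_t k n := by
  induction k with
  | zero =>
    intro m n _ _
    simp only [V3_t]
    by_cases h : m * n = 1
    · have h1 : m = 1 := Nat.eq_one_of_mul_eq_one_right h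
      have h2 : n = 1 := Nat.eq_one_of_mul_eq_one_left h
      simp [h1, h2]
    · rw [if_neg h]
      exact Nat.zero_le _
  | succ k ih =>
    intro m n hm hn
    simp only [V3_t]
    rw [Finset.sum_mul_sum, ← Finset.sum_product']
    have hinj : Set.InjOn (fun d : ℕ => (Nat.gcd d m, d / Nat.gcd d m))
        ((m * n).divisors : Set ℕ) := by
      intro d hd d' hd' h
      simp only [Prod.mk.injEq] at h
      have h1 : Nat.gcd d m * (d / Nat.gcd d m) = d := Nat.mul_div_cancel' (Nat.gcd_dvd_left _ _)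
      have h2 : Nat.gcd d' m * (d' / Nat.gcd d' m) = d' := Nat.mul_div_cancel' (Nat.gcd_dvd_left _ _)
      exact h1.symm.trans ((congrArg₂ (· * ·) h.1 h.2).trans h2)
    have hsub : (m * n).divisors.image (fun d : ℕ => (Nat.gcd d m, d / Nat.gcd d m)) ⊆
        m.divisors ×ˢ n.divisors := by
      intro p hp
      rw [Finset.mem_image] at hp
      obtain ⟨d, hd, rfl⟩ := hp
      rw [Nat.mem_divisors] at hd
      rw [Finset.mem_product, Nat.mem_divisors, Nat.mem_divisors]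
      refine ⟨⟨Nat.gcd_dvd_right _ _, hm⟩, ?_, hn⟩
      have hg : 0 < Nat.gcd d m := Nat.gcd_pos_of_pos_right _ (Nat.pos_of_ne_zero hm)
      have h1 : d / Nat.gcd d m ∣ m / Nat.gcd d m * n := by
        have h2 : Nat.gcd d m * (d / Nat.gcd d m) ∣ Nat.gcd d m * (m / Nat.gcd d m * n) := by
          rw [Nat.mul_div_cancel' (Nat.gcd_dvd_left _ _), ← mul_assoc,
            Nat.mul_div_cancel' (Nat.gcd_dvd_right _ _)]
          exact hd.1
        exact Nat.dvd_of_mul_dvd_mul_left hg h2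
      exact (Nat.coprime_div_gcd_div_gcd hg).dvd_of_dvd_mul_left h1
    have hstep : ∑ d ∈ (m * n).divisors, V3_t k (m * n / d) ≤
        ∑ p ∈ (m * n).divisors.image (fun d : ℕ => (Nat.gcd d m, d / Nat.gcd d m)),
          V3_t k (m / p.1) * V3_t k (n / p.2) := by
      rw [Finset.sum_image hinj]
      refine Finset.sum_le_sum fun d hd => ?_
      have hd' := hsub (Finset.mem_image_of_mem _ hd)
      rw [Finset.mem_product, Nat.mem_divisors, Nat.mem_divisors] at hd'
      obtain ⟨⟨h1, _⟩, h2, _⟩ := hd'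
      simp only at h1 h2 ⊢
      obtain ⟨a, ha⟩ := h1
      obtain ⟨b, hb⟩ := h2
      have hg : 0 < Nat.gcd d m := Nat.gcd_pos_of_pos_right _ (Nat.pos_of_ne_zero hm)
      have hd0 : d ≠ 0 := by
        intro h0
        rw [Nat.mem_divisors] at hd
        rw [h0, zero_dvd_iff] at hd
        exact (mul_ne_zero hm hn) hd.1
      have hq : 0 < d / Nat.gcd d m := Nat.div_pos (Nat.gcd_le_left _ (Nat.pos_of_ne_zero hd0)) hg
      have hdd : d = Nat.gcd d m * (d / Nat.gcd d m) := (Nat.mul_div_cancel' (Nat.gcd_dvd_left _ _)).symm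
      have e1 : m / Nat.gcd d m = a := Nat.div_eq_of_eq_mul_right hg ha
      have e2 : n / (d / Nat.gcd d m) = b := Nat.div_eq_of_eq_mul_right hq hb
      have e3 : m * n / d = a * b := by
        have h3 : m * n = d * (a * b) := by
          calc m * n = (Nat.gcd d m * a) * ((d / Nat.gcd d m) * b) := by rw [← ha, ← hb]
            _ = (Nat.gcd d m * (d / Nat.gcd d m)) * (a * b) := by ring
            _ = d * (a * b) := by rw [← hdd]
        rw [h3]
        exact Nat.mul_div_cancel_left _ (Nat.pos_of_ne_zero hd0)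
      rw [e1, e2, e3]
      refine ih a b ?_ ?_
      · rintro rfl
        rw [mul_zero] at ha
        exact hm ha
      · rintro rfl
        rw [mul_zero] at hb
        exact hn hb
    exact hstep.trans (Finset.sum_le_sum_of_subset hsub)

theorem V3_prod (k : ℕ) {ι : Type*} (s : Finset ι) (h : ι → ℕ) (hh : ∀ i ∈ s, h i ≠ 0) :
    V3_t k (∏ i ∈ s, h i) ≤ ∏ i ∈ s, V3_t k (h i) := by
  classical
  induction s using Finset.induction_on with
  | empty => simp [V3_one]
  | insert a s ha ih =>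
    rw [Finset.prod_insert ha, Finset.prod_insert ha]
    refine (V3_submul k _ _ (hh a (Finset.mem_insert_self _ _)) ?_).trans ?_
    · exact Finset.prod_ne_zero_iff.2 fun i hi => hh i (Finset.mem_insert_of_mem hi)
    · exact Nat.mul_le_mul_left _ (ih fun i hi => hh i (Finset.mem_insert_of_mem hi))

theorem V3_sum (k : ℕ) : ∀ X : ℕ, 1 ≤ X → (∑ n ∈ Icc 1 X, (V3_t k n : ℝ)) ≤
    X * (1 + Real.log X) ^ k := by
  induction k with
  | zero =>
    intro X hX
    simp only [V3_t, pow_zero, mul_one, Nat.cast_ite, Nat.cast_one, Nat.cast_zero]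
    rw [Finset.sum_ite_eq' (Icc 1 X) 1]
    rw [if_pos (Finset.mem_Icc.2 ⟨le_rfl, hX⟩)]
    exact_mod_cast hX
  | succ k ih =>
    intro X hX
    have hX0 : (0 : ℝ) < X := by exact_mod_cast hX
    have hlog : 0 ≤ Real.log X := Real.log_natCast_nonneg X
    have h1 : (∑ n ∈ Icc 1 X, (V3_t (k + 1) n : ℝ)) =
        ∑ d ∈ Icc 1 X, ∑ m ∈ Icc 1 (X / d), (V3_t k m : ℝ) := by
      simp only [V3_t, Nat.cast_sum]
      have h2 : (∑ n ∈ Icc 1 X, ∑ d ∈ n.divisors, (V3_t k (n / d) : ℝ)) =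
          ∑ p ∈ (Icc 1 X).sigma (fun n => n.divisors), (V3_t k (p.1 / p.2) : ℝ) := by
        rw [Finset.sum_sigma]
      have h3 : (∑ d ∈ Icc 1 X, ∑ m ∈ Icc 1 (X / d), (V3_t k m : ℝ)) =
          ∑ p ∈ (Icc 1 X).sigma (fun d => Icc 1 (X / d)), (V3_t k p.2 : ℝ) := by
        rw [Finset.sum_sigma]
      rw [h2, h3]
      refine Finset.sum_bij' (fun p _ => ⟨p.2, p.1 / p.2⟩) (fun p _ => ⟨p.1 * p.2, p.1⟩) ?_ ?_ ?_ ?_ ?_
      · rintro ⟨n, d⟩ hp
        simp only [Finset.mem_sigma, Finset.mem_Icc, Nat.mem_divisors] at hp ⊢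
        obtain ⟨⟨a1, a2⟩, a3, a4⟩ := hp
        have hd0 : 0 < d := Nat.pos_of_dvd_of_pos a3 (by omega)
        have hdn : d ≤ n := Nat.le_of_dvd (by omega) a3
        exact ⟨⟨hd0, by omega⟩, Nat.div_pos hdn hd0, Nat.div_le_div_right a2⟩
      · rintro ⟨d, m⟩ hp
        simp only [Finset.mem_sigma, Finset.mem_Icc, Nat.mem_divisors] at hp ⊢
        obtain ⟨⟨a1, a2⟩, a3, a4⟩ := hp
        have h5 : d * m ≤ X := by
          calc d * m ≤ d * (X / d) := Nat.mul_le_mul_left _ a4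
            _ ≤ X := Nat.mul_div_le _ _
        have h6 : 0 < d * m := Nat.mul_pos a1 a3
        exact ⟨⟨h6, h5⟩, dvd_mul_right _ _, h6.ne'⟩
      · rintro ⟨n, d⟩ hp
        simp only [Finset.mem_sigma, Finset.mem_Icc, Nat.mem_divisors] at hp
        obtain ⟨⟨a1, a2⟩, a3, a4⟩ := hp
        simp only
        rw [Nat.mul_div_cancel' a3]
      · rintro ⟨d, m⟩ hp
        simp only [Finset.mem_sigma, Finset.mem_Icc] at hp
        obtain ⟨⟨a1, a2⟩, a3, a4⟩ := hp
        simp only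
        rw [Nat.mul_div_cancel_left _ a1]
      · rintro ⟨n, d⟩ _
        rfl
    rw [h1]
    have h4 : ∀ d ∈ Icc 1 X, ∑ m ∈ Icc 1 (X / d), (V3_t k m : ℝ) ≤
        X * (1 + Real.log X) ^ k * (1 / d) := by
      intro d hd
      rw [Finset.mem_Icc] at hd
      have hd0 : (0 : ℝ) < d := by exact_mod_cast hd.1
      have h5 : 1 ≤ X / d := Nat.div_pos hd.2 hd.1
      have h6 : ((X / d : ℕ) : ℝ) ≤ X / d := Nat.cast_div_le
      have h7 : Real.log ((X / d : ℕ) : ℝ) ≤ Real.log X := by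
        refine Real.log_le_log (by exact_mod_cast h5) ?_
        exact_mod_cast Nat.div_le_self X d
      have h8 : 0 ≤ Real.log ((X / d : ℕ) : ℝ) := Real.log_natCast_nonneg _
      calc ∑ m ∈ Icc 1 (X / d), (V3_t k m : ℝ) ≤
            ((X / d : ℕ) : ℝ) * (1 + Real.log ((X / d : ℕ) : ℝ)) ^ k := ih _ h5
        _ ≤ (X / d) * (1 + Real.log X) ^ k := by
            refine mul_le_mul h6 (pow_le_pow_left₀ (by linarith) (by linarith) k) (by positivity)
              (by positivity)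
        _ = _ := by ring
    refine (Finset.sum_le_sum h4).trans ?_
    rw [← Finset.mul_sum]
    have h9 : ∑ d ∈ Icc 1 X, 1 / (d : ℝ) ≤ 1 + Real.log X := by
      have h10 := harmonic_le_one_add_log X
      rw [harmonic_eq_sum_Icc] at h10
      push_cast at h10
      simpa [one_div] using h10
    calc X * (1 + Real.log X) ^ k * ∑ d ∈ Icc 1 X, 1 / (d : ℝ) ≤
          X * (1 + Real.log X) ^ k * (1 + Real.log X) :=
          mul_le_mul_of_nonneg_left h9 (by positivity)
      _ = _ := by ring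

/-- The number of `(h, h') ∈ [1,X]^k × [1,X]^k` with `∏ h_i = ∏ h'_i` is at most
`X^k (1 + log X)^(k²)`.

Proof. For each such pair there is a `k × k` matrix `(g_{ij})` of positive integers with
`h_i = ∏_j g_{ij}` and `h'_j = ∏_i g_{ij}` (induction on `k`: put `g_{1j}` successively
`g_{11} = gcd(h_1, h'_1)`, `g_{12} = gcd(h_1/g_{11}, h'_2)`, …; since `h_1 ∣ ∏ h'_j` this exhausts
`h_1`; divide the `h'_j` by `g_{1j}` and go on with `h_2, …, h_k`). So the number is at most the number of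
matrices with all row products `≤ X`, which is at most `T^k`, `T` = number of `k`-tuples of
positive integers with product at most `X`; `T ≤ ∑_{a_1, …, a_{k-1} ≤ X} X/(a_1 ⋯ a_{k-1})
≤ X (1 + log X)^(k-1)` (for `k ≥ 1`; `k = 0` is trivial).

Alternatively: the number is at most `∑_{h ∈ [1,X]^k} τ_k(∏ h_i) ≤ ∑_h ∏ τ_k(h_i) = (∑_{n ≤ X} τ_k(n))^k`,
`τ_k(n)` = number of `k`-tuples of positive integers with product `n`, which satisfies
`τ_k(mn) ≤ τ_k(m) τ_k(n)` (send a factorisation of `mn` to factorisations of `m` and `n` by successive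
gcds). -/
theorem prod_energy (k X : ℕ) (hX : 1 ≤ X) :
    ((((Fintype.piFinset (fun _ : Fin k => Icc 1 X)) ×ˢ
      (Fintype.piFinset (fun _ : Fin k => Icc 1 X))).filter
        (fun p : (Fin k → ℕ) × (Fin k → ℕ) => ∏ i, p.1 i = ∏ i, p.2 i)).card : ℝ) ≤
      (X : ℝ) ^ k * (1 + Real.log X) ^ (k ^ 2) := by
  classical
  set B := Fintype.piFinset (fun _ : Fin k => Icc 1 X) with hB
  have h1 : ((B ×ˢ B).filter
      (fun p : (Fin k → ℕ) × (Fin k → ℕ) => ∏ i, p.1 i = ∏ i, p.2 i)).card ≤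
      ∑ h ∈ B, ∏ i, V3_t k (h i) := by
    rw [Finset.card_filter, Finset.sum_product]
    refine Finset.sum_le_sum fun h hh => ?_
    have h0 : ∀ i, h i ≠ 0 := by
      intro i
      rw [hB, Fintype.mem_piFinset] at hh
      have := (Finset.mem_Icc.1 (hh i)).1
      omega
    rw [← Finset.card_filter]
    have h2 : (B.filter (fun h' : Fin k → ℕ => ∏ i, h i = ∏ i, h' i)) =
        B.filter (fun h' : Fin k → ℕ => ∏ i, h' i = ∏ i, h i) := by
      refine Finset.filter_congr fun h' _ => eq_comm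
    rw [h2]
    refine (V3_count X k _ ?_).trans (V3_prod k _ _ fun i _ => h0 i)
    exact Finset.prod_ne_zero_iff.2 fun i _ => h0 i
  have h3 : ∑ h ∈ B, ∏ i, V3_t k (h i) = (∑ n ∈ Icc 1 X, V3_t k n) ^ k := by
    rw [hB, Finset.sum_prod_piFinset (Icc 1 X) (fun _ n => V3_t k n)]
    simp
  have h4 : (((B ×ˢ B).filter
      (fun p : (Fin k → ℕ) × (Fin k → ℕ) => ∏ i, p.1 i = ∏ i, p.2 i)).card : ℝ) ≤
      (∑ n ∈ Icc 1 X, (V3_t k n : ℝ)) ^ k := by
    rw [h3] at h1
    exact_mod_cast h1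
  refine h4.trans ?_
  calc (∑ n ∈ Icc 1 X, (V3_t k n : ℝ)) ^ k ≤ (X * (1 + Real.log X) ^ k) ^ k :=
        pow_le_pow_left₀ (Finset.sum_nonneg fun _ _ => Nat.cast_nonneg _) (V3_sum k X hX) k
    _ = _ := by rw [mul_pow, ← pow_mul, sq]

end Pool.Agent.Lib.H33B
end

-- from Lib.H33B.V2
section

/-!
# Chunk V2: the correlations in mean square
-/

open Finset

namespace Pool.Agent.Lib.H33B

open Pool.Agent.Lib.H68T (e BA1_e_add BA1_norm_e BA1_e_int BA1_detect)

theorem V2_conj (x : ℝ) : (starRingEnd ℂ) (e x) = e (-x) := by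
  unfold e
  rw [← Complex.exp_conj]
  congr 1
  simp only [map_mul, Complex.conj_ofReal, Complex.conj_I, map_ofNat, Complex.ofReal_neg]
  ring

theorem V2_sq (u : ℤ → ℝ) (s : Finset ℤ) (x : ℝ) :
    ((‖∑ m ∈ s, (u m : ℂ) * e (m * x)‖ ^ 2 : ℝ) : ℂ) =
      ∑ m ∈ s, ∑ m' ∈ s, ((u m * u m' : ℝ) : ℂ) * e ((m - m') * x) := by
  have h1 : ((‖∑ m ∈ s, (u m : ℂ) * e (m * x)‖ ^ 2 : ℝ) : ℂ) =
      (∑ m ∈ s, (u m : ℂ) * e (m * x)) * (starRingEnd ℂ) (∑ m ∈ s, (u m : ℂ) * e (m * x)) := by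
    rw [Complex.mul_conj', Complex.ofReal_pow]
  rw [h1, map_sum, Finset.sum_mul_sum]
  refine Finset.sum_congr rfl fun m _ => Finset.sum_congr rfl fun m' _ => ?_
  rw [map_mul, Complex.conj_ofReal, V2_conj]
  have h2 : ((m : ℝ) - m') * x = m * x + -(m' * x) := by ring
  rw [h2, BA1_e_add]
  push_cast
  ring

/-- The finite Bessel inequality. -/
theorem V2_bessel (P : ℕ) (hP : 0 < P) (a : ℕ → ℝ) (M : ℤ) :
    ∑ i ∈ range P, ‖∑ j ∈ range P, (a j : ℂ) * e (j * (((i : ℤ) - M : ℤ) / P))‖ ^ 2 =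
      P * ∑ j ∈ range P, a j ^ 2 := by
  have hP' : (P : ℝ) ≠ 0 := by exact_mod_cast hP.ne'
  have h1 : ((∑ i ∈ range P, ‖∑ j ∈ range P, (a j : ℂ) * e (j * (((i : ℤ) - M : ℤ) / P))‖ ^ 2 : ℝ) :
      ℂ) = ((P * ∑ j ∈ range P, a j ^ 2 : ℝ) : ℂ) := by
    rw [Complex.ofReal_sum]
    have h2 : ∀ i ∈ range P,
        ((‖∑ j ∈ range P, (a j : ℂ) * e (j * (((i : ℤ) - M : ℤ) / P))‖ ^ 2 : ℝ) : ℂ) =
        ∑ j ∈ range P, ∑ j' ∈ range P, ((a j * a j' : ℝ) : ℂ) *
          (e (((j : ℝ) - j') * (-M / P)) * e ((i : ℝ) * ((((j : ℤ) - j' : ℤ) : ℝ) / P))) := by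
      intro i _
      have h3 : ∑ j ∈ range P, (a j : ℂ) * e (j * (((i : ℤ) - M : ℤ) / P)) =
          ∑ m ∈ (range P).image (fun j : ℕ => (j : ℤ)), ((a m.toNat : ℝ) : ℂ) *
            e ((m : ℝ) * (((i : ℤ) - M : ℤ) / P)) := by
        rw [Finset.sum_image (fun x _ y _ h => by simpa using h)]
        simp
      rw [h3, V2_sq (fun m => a m.toNat), Finset.sum_image (fun x _ y _ h => by simpa using h)]
      refine Finset.sum_congr rfl fun j _ => ?_
      rw [Finset.sum_image (fun x _ y _ h => by simpa using h)]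
      refine Finset.sum_congr rfl fun j' _ => ?_
      rw [← BA1_e_add]
      simp only [Int.toNat_natCast]
      congr 2
      push_cast
      ring
    rw [Finset.sum_congr rfl h2, Finset.sum_comm]
    have h4 : ∀ j ∈ range P, ∑ i ∈ range P, ∑ j' ∈ range P, ((a j * a j' : ℝ) : ℂ) *
          (e (((j : ℝ) - j') * (-M / P)) * e ((i : ℝ) * ((((j : ℤ) - j' : ℤ) : ℝ) / P))) =
          ((a j ^ 2 : ℝ) : ℂ) * P := by
      intro j hj
      rw [Finset.sum_comm]
      rw [Finset.sum_eq_single_of_mem j hj]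
      · have h5 : ∀ i ∈ range P, ((a j * a j : ℝ) : ℂ) *
          (e (((j : ℝ) - j) * (-M / P)) * e ((i : ℝ) * ((((j : ℤ) - j : ℤ) : ℝ) / P))) =
            ((a j ^ 2 : ℝ) : ℂ) := by
          intro i _
          have h6 : e 0 = 1 := by
            have := BA1_e_int 0
            simpa using this
          simp only [sub_self, zero_mul, Int.cast_zero, zero_div, mul_zero, h6, mul_one]
          congr 1
          ring
        rw [Finset.sum_congr rfl h5, Finset.sum_const, Finset.card_range, nsmul_eq_mul, mul_comm]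
      · intro j' hj' hne
        rw [← Finset.mul_sum, ← Finset.mul_sum, BA1_detect P hP, if_neg, mul_zero, mul_zero]
        rintro ⟨t, ht⟩
        rw [Finset.mem_range] at hj hj'
        have h7 : |(j : ℤ) - j'| < P := by
          rw [abs_lt]
          constructor <;> omega
        rw [ht, abs_mul] at h7
        have h8 : |(P : ℤ)| = P := abs_of_nonneg (by positivity)
        rw [h8] at h7
        have h9 : |t| < 1 := by
          by_contra h
          have : (P : ℤ) * 1 ≤ P * |t| := mul_le_mul_of_nonneg_left (not_lt.1 h) (by positivity)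
          omega
        have h10 : t = 0 := Int.abs_lt_one_iff.1 h9
        rw [h10, mul_zero] at ht
        apply hne
        omega
    rw [Finset.sum_congr rfl h4, ← Finset.sum_mul, mul_comm, ← Complex.ofReal_sum]
    push_cast
    rfl
  exact_mod_cast h1

/-- **Parseval.** Let `P = 4M + 4`, `U(j) = ∑_m u(m) e(m j/P)`, `0 ≤ j < P`. Orthogonality
(`H68T.BA1_detect`) gives `P cor(d) = ∑_j |U(j)|^2 e(-d j/P)` for `|d| ≤ M` (up to the sign of `d`)
and for all `|d| ≤ 2M` (there `cor = 0` for `|d| ≥ M`), and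
`P ∑_{d ∈ [-M, M]} cor(d)^2 ≤ ∑_j |U(j)|^4 ≤ S^2 ∑_j |U(j)|^2 = S^2 P ∑ u(m)^2`. Everything is a finite
computation with `∑_{j < P} e(j k/P) = P` if `P ∣ k` and `0` otherwise. -/
theorem cor_l2 (u : ℤ → ℝ) (M : ℕ) (hu : ∀ m, m ∉ Icc (1 : ℤ) M → u m = 0) (S : ℝ)
    (hS : ∀ θ : ℝ, ‖∑ m ∈ Icc (1 : ℤ) M, (u m : ℂ) * e (m * θ)‖ ≤ S) :
    ∑ d ∈ Icc (-(M : ℤ)) M, (cor u M d) ^ 2 ≤ S ^ 2 * ∑ m ∈ Icc (1 : ℤ) M, u m ^ 2 := by
  obtain ⟨P, hP⟩ : ∃ P : ℕ, P = 4 * M + 4 := ⟨_, rfl⟩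
  have hP0 : 0 < P := by omega
  have hP0' : (0 : ℝ) < P := by exact_mod_cast hP0
  set a : ℕ → ℝ := fun j => ‖∑ m ∈ Icc (1 : ℤ) M, (u m : ℂ) * e (m * (j / P))‖ ^ 2 with ha
  have key : ∀ d : ℤ, |d| ≤ M → ∑ j ∈ range P, (a j : ℂ) * e (j * ((d : ℝ) / P)) =
      P * ((cor u M d : ℝ) : ℂ) := by
    intro d hd
    have h1 : ∀ j ∈ range P, (a j : ℂ) * e (j * ((d : ℝ) / P)) =
        ∑ m ∈ Icc (1 : ℤ) M, ∑ m' ∈ Icc (1 : ℤ) M, ((u m * u m' : ℝ) : ℂ) *
          e ((j : ℝ) * (((m - m' + d : ℤ) : ℝ) / P)) := by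
      intro j _
      simp only [ha]
      rw [V2_sq, Finset.sum_mul]
      refine Finset.sum_congr rfl fun m _ => ?_
      rw [Finset.sum_mul]
      refine Finset.sum_congr rfl fun m' _ => ?_
      rw [mul_assoc, ← BA1_e_add]
      congr 2
      push_cast
      ring
    rw [Finset.sum_congr rfl h1, Finset.sum_comm]
    have h2 : ∀ m ∈ Icc (1 : ℤ) M, ∑ j ∈ range P, ∑ m' ∈ Icc (1 : ℤ) M, ((u m * u m' : ℝ) : ℂ) *
          e ((j : ℝ) * (((m - m' + d : ℤ) : ℝ) / P)) = P * ((u m * u (m + d) : ℝ) : ℂ) := by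
      intro m hm
      rw [Finset.sum_comm]
      have h3 : ∀ m' ∈ Icc (1 : ℤ) M, ∑ j ∈ range P, ((u m * u m' : ℝ) : ℂ) *
          e ((j : ℝ) * (((m - m' + d : ℤ) : ℝ) / P)) =
          if m' = m + d then P * ((u m * u m' : ℝ) : ℂ) else 0 := by
        intro m' hm'
        rw [← Finset.mul_sum, BA1_detect P hP0]
        rw [Finset.mem_Icc] at hm hm'
        have h4 : ((P : ℤ) ∣ m - m' + d) ↔ m' = m + d := by
          constructor
          · rintro ⟨t, ht⟩
            have h7 : |m - m' + d| < P := by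
              rw [abs_le] at hd
              rw [abs_lt]
              constructor <;> omega
            rw [ht, abs_mul] at h7
            have h8 : |(P : ℤ)| = P := abs_of_nonneg (by positivity)
            rw [h8] at h7
            have h9 : |t| < 1 := by
              by_contra h
              have : (P : ℤ) * 1 ≤ P * |t| := mul_le_mul_of_nonneg_left (not_lt.1 h) (by positivity)
              omega
            have h10 : t = 0 := Int.abs_lt_one_iff.1 h9
            rw [h10, mul_zero] at ht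
            omega
          · intro h
            rw [h]
            simp
        by_cases h5 : m' = m + d
        · rw [if_pos (h4.2 h5), if_pos h5, mul_comm]
        · rw [if_neg (fun h => h5 (h4.1 h)), if_neg h5, mul_zero]
      rw [Finset.sum_congr rfl h3, Finset.sum_ite_eq']
      by_cases h6 : m + d ∈ Icc (1 : ℤ) M
      · rw [if_pos h6]
      · rw [if_neg h6, hu _ h6]
        simp
    rw [Finset.sum_congr rfl h2, ← Finset.mul_sum, ← Complex.ofReal_sum]
    rfl
  have h0 : ∑ j ∈ range P, a j = P * ∑ m ∈ Icc (1 : ℤ) M, u m ^ 2 := by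
    have h1 := key 0 (by simp)
    have h6 : e 0 = 1 := by
      have := BA1_e_int 0
      simpa using this
    simp only [Int.cast_zero, zero_div, mul_zero, h6, mul_one] at h1
    have h2 : cor u M 0 = ∑ m ∈ Icc (1 : ℤ) M, u m ^ 2 := by
      unfold cor
      refine Finset.sum_congr rfl fun m _ => ?_
      rw [add_zero]
      ring
    rw [h2] at h1
    exact_mod_cast h1
  have hb := V2_bessel P hP0 a (M : ℤ)
  have hsub : (P : ℝ) ^ 2 * ∑ d ∈ Icc (-(M : ℤ)) M, (cor u M d) ^ 2 ≤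
      ∑ i ∈ range P, ‖∑ j ∈ range P, (a j : ℂ) * e (j * (((i : ℤ) - (M : ℤ) : ℤ) / P))‖ ^ 2 := by
    have h1 : (P : ℝ) ^ 2 * ∑ d ∈ Icc (-(M : ℤ)) M, (cor u M d) ^ 2 =
        ∑ d ∈ Icc (-(M : ℤ)) M, ‖∑ j ∈ range P, (a j : ℂ) * e (j * ((d : ℝ) / P))‖ ^ 2 := by
      rw [Finset.mul_sum]
      refine Finset.sum_congr rfl fun d hd => ?_
      rw [Finset.mem_Icc] at hd
      rw [key d (abs_le.2 hd), norm_mul, Complex.norm_real, Complex.norm_natCast, mul_pow,
        Real.norm_eq_abs, sq_abs]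
    rw [h1]
    have h2 : ∑ i ∈ range P, ‖∑ j ∈ range P, (a j : ℂ) * e (j * (((i : ℤ) - (M : ℤ) : ℤ) / P))‖ ^ 2 =
        ∑ d ∈ (range P).image (fun i : ℕ => (i : ℤ) - (M : ℤ)),
          ‖∑ j ∈ range P, (a j : ℂ) * e (j * ((d : ℝ) / P))‖ ^ 2 := by
      rw [Finset.sum_image (fun x _ y _ h => by
        have h3 : (x : ℤ) - M = y - M := h
        omega)]
    rw [h2]
    refine Finset.sum_le_sum_of_subset_of_nonneg ?_ fun _ _ _ => sq_nonneg _
    intro d hd
    rw [Finset.mem_Icc] at hd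
    refine Finset.mem_image.2 ⟨(d + M).toNat, ?_, ?_⟩
    · rw [Finset.mem_range]
      omega
    · omega
  have h3 : ∑ j ∈ range P, a j ^ 2 ≤ S ^ 2 * (P * ∑ m ∈ Icc (1 : ℤ) M, u m ^ 2) := by
    rw [← h0, Finset.mul_sum]
    refine Finset.sum_le_sum fun j _ => ?_
    have h4 : 0 ≤ a j := sq_nonneg _
    have h5 : a j ≤ S ^ 2 := pow_le_pow_left₀ (norm_nonneg _) (hS _) 2
    rw [sq (a j)]
    exact mul_le_mul_of_nonneg_right h5 h4
  rw [hb] at hsub
  have h4 : (P : ℝ) ^ 2 * ∑ d ∈ Icc (-(M : ℤ)) M, (cor u M d) ^ 2 ≤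
      (P : ℝ) ^ 2 * (S ^ 2 * ∑ m ∈ Icc (1 : ℤ) M, u m ^ 2) := by
    refine hsub.trans ?_
    have := mul_le_mul_of_nonneg_left h3 hP0'.le
    calc _ ≤ _ := this
      _ = _ := by ring
  exact le_of_mul_le_mul_left h4 (by positivity)

end Pool.Agent.Lib.H33B
end

-- from Lib.H33B.V4
section

/-!
# Chunk V4: the correlations over products `c h_1 ⋯ h_k`
-/

open Finset

namespace Pool.Agent.Lib.H33B

open Pool.Agent.Lib.H68T (e)

theorem V4_abs (u : ℤ → ℝ) (M : ℕ) (hu : ∀ m, m ∉ Icc (1 : ℤ) M → u m = 0) (d : ℤ) :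
    cor u M d = cor u M |d| := by
  rcases abs_cases d with ⟨h, _⟩ | ⟨h, _⟩
  · rw [h]
  · rw [h, cor_neg u M hu]

/-- Cauchy-Schwarz over the products. -/
theorem V4_cs (φ : ℕ → ℝ) (B : ℝ) (k X : ℕ) (hX : 1 ≤ X)
    (hB : ∀ T : Finset ℕ, (∀ t ∈ T, 1 ≤ t) → ∑ t ∈ T, φ t ^ 2 ≤ B ^ 2) (hB0 : 0 ≤ B) :
    ∑ g ∈ Fintype.piFinset (fun _ : Fin k => Icc 1 X), φ (∏ i, g i) ≤
      Real.sqrt ((X : ℝ) ^ k * (1 + Real.log X) ^ (k ^ 2)) * B := by
  classical
  set A := Fintype.piFinset (fun _ : Fin k => Icc 1 X) with hA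
  set T := A.image (fun g : Fin k → ℕ => ∏ i, g i) with hT
  set r : ℕ → ℝ := fun t => ((A.filter (fun g : Fin k → ℕ => ∏ i, g i = t)).card : ℝ) with hr
  have hmaps : ∀ g ∈ A, (∏ i, g i) ∈ T := fun g hg => Finset.mem_image_of_mem _ hg
  have h1 : ∑ g ∈ A, φ (∏ i, g i) = ∑ t ∈ T, r t * φ t := by
    rw [← Finset.sum_fiberwise_of_maps_to hmaps]
    refine Finset.sum_congr rfl fun t _ => ?_
    have h2 : ∀ g ∈ A.filter (fun g : Fin k → ℕ => ∏ i, g i = t), φ (∏ i, g i) = φ t := by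
      intro g hg
      rw [(Finset.mem_filter.1 hg).2]
    rw [Finset.sum_congr rfl h2, Finset.sum_const, nsmul_eq_mul]
  have h3 : ∑ t ∈ T, r t ^ 2 ≤ (X : ℝ) ^ k * (1 + Real.log X) ^ (k ^ 2) := by
    have h4 := prod_energy k X hX
    have h5 : (((A ×ˢ A).filter
        (fun p : (Fin k → ℕ) × (Fin k → ℕ) => ∏ i, p.1 i = ∏ i, p.2 i)).card : ℝ) =
        ∑ t ∈ T, r t ^ 2 := by
      have hm : ∀ p ∈ (A ×ˢ A).filter
          (fun p : (Fin k → ℕ) × (Fin k → ℕ) => ∏ i, p.1 i = ∏ i, p.2 i), (∏ i, p.1 i) ∈ T := by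
        intro p hp
        exact hmaps _ (Finset.mem_product.1 (Finset.mem_filter.1 hp).1).1
      rw [Finset.card_eq_sum_card_fiberwise hm]
      push_cast
      refine Finset.sum_congr rfl fun t _ => ?_
      have h6 : ((A ×ˢ A).filter
          (fun p : (Fin k → ℕ) × (Fin k → ℕ) => ∏ i, p.1 i = ∏ i, p.2 i)).filter
            (fun p => ∏ i, p.1 i = t) = (A.filter (fun g : Fin k → ℕ => ∏ i, g i = t)) ×ˢ
              (A.filter (fun g : Fin k → ℕ => ∏ i, g i = t)) := by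
        ext p
        simp only [Finset.mem_filter, Finset.mem_product]
        constructor
        · rintro ⟨⟨⟨a1, a2⟩, a3⟩, a4⟩
          exact ⟨⟨a1, a4⟩, a2, a3 ▸ a4⟩
        · rintro ⟨⟨a1, a4⟩, a2, a3⟩
          exact ⟨⟨⟨a1, a2⟩, a4.trans a3.symm⟩, a4⟩
      rw [h6, Finset.card_product]
      push_cast
      simp only [hr]
      ring
    rw [← h5]
    exact h4
  have hT1 : ∀ t ∈ T, 1 ≤ t := by
    intro t ht
    obtain ⟨g, hg, rfl⟩ := Finset.mem_image.1 ht
    rw [hA, Fintype.mem_piFinset] at hg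
    exact Nat.one_le_iff_ne_zero.2 (Finset.prod_ne_zero_iff.2 fun i _ => by
      have := (Finset.mem_Icc.1 (hg i)).1
      omega)
  rw [h1]
  have h7 : (∑ t ∈ T, r t * φ t) ^ 2 ≤ ((X : ℝ) ^ k * (1 + Real.log X) ^ (k ^ 2)) * B ^ 2 :=
    (Finset.sum_mul_sq_le_sq_mul_sq _ _ _).trans
      (mul_le_mul h3 (hB T hT1) (Finset.sum_nonneg fun _ _ => sq_nonneg _)
        (le_trans (Finset.sum_nonneg fun _ _ => sq_nonneg _) h3))
  have h8 : Real.sqrt ((X : ℝ) ^ k * (1 + Real.log X) ^ (k ^ 2)) * B =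
      Real.sqrt (((X : ℝ) ^ k * (1 + Real.log X) ^ (k ^ 2)) * B ^ 2) := by
    rw [Real.sqrt_mul' _ (sq_nonneg B), Real.sqrt_sq hB0]
  rw [h8]
  exact Real.le_sqrt_of_sq_le h7

/-- The `h` with some `h_i = 0`: at most `k (2X)^(k-1)`, each term at most `E` (`cor_le`). The others:
`2^k` sign patterns, `cor` is even (`cor_neg`), so their sum is at most
`2^k ∑_{h ∈ [1,X]^k} |cor(c ∏ h_i)| = 2^k ∑_{t ≥ 1} r(t) |cor(c t)|`, `r(t) = #{h ∈ [1,X]^k : ∏ h_i = t}`.
Cauchy-Schwarz: `∑ r(t)^2` is the left side of `prod_energy`, and `∑_{t ≥ 1} cor(c t)^2 ≤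
∑_{d ∈ [-M,M]} cor(d)^2 ≤ S^2 E` (`c ≠ 0`, so the `c t` are different; `cor d = 0` for `|d| ≥ M`;
`cor_l2`). -/
theorem hsum (u : ℤ → ℝ) (M : ℕ) (hu : ∀ m, m ∉ Icc (1 : ℤ) M → u m = 0) (E S : ℝ)
    (hE0 : 0 < E) (hE : ∑ m ∈ Icc (1 : ℤ) M, u m ^ 2 ≤ E) (hS0 : 0 ≤ S)
    (hS : ∀ θ : ℝ, ‖∑ m ∈ Icc (1 : ℤ) M, (u m : ℂ) * e (m * θ)‖ ≤ S) (k X : ℕ) (hk : 1 ≤ k)
    (hX : 1 ≤ X) (c : ℤ) (hc : c ≠ 0) :
    ∑ h ∈ Fintype.piFinset (fun _ : Fin k => Ioo (-(X : ℤ)) X), |cor u M (c * ∏ i, h i)| ≤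
      k * (2 * X) ^ (k - 1) * E +
        2 ^ k * (Real.sqrt ((X : ℝ) ^ k * (1 + Real.log X) ^ (k ^ 2)) * (S * Real.sqrt E)) := by
  classical
  set Z := Fintype.piFinset (fun _ : Fin k => Ioo (-(X : ℤ)) X) with hZ
  set A := Fintype.piFinset (fun _ : Fin k => Icc 1 X) with hA
  set φ : ℕ → ℝ := fun t => |cor u M (|c| * (t : ℤ))| with hφ
  rw [← Finset.sum_filter_add_sum_filter_not Z (fun h => ∃ i, h i = 0)]
  refine add_le_add ?_ ?_
  · -- some `h_i = 0`
    have h1 : ∀ h ∈ Z.filter (fun h => ∃ i, h i = 0), |cor u M (c * ∏ i, h i)| ≤ E := fun h _ =>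
      (cor_le u M hu _).trans hE
    refine (Finset.sum_le_sum h1).trans ?_
    rw [Finset.sum_const, nsmul_eq_mul]
    refine mul_le_mul_of_nonneg_right ?_ hE0.le
    have h2 : Z.filter (fun h => ∃ i, h i = 0) ⊆
        (Finset.univ : Finset (Fin k)).biUnion (fun i => Z.filter (fun h => h i = 0)) := by
      intro h hh
      rw [Finset.mem_filter] at hh
      obtain ⟨hh, i, hi⟩ := hh
      exact Finset.mem_biUnion.2 ⟨i, Finset.mem_univ _, Finset.mem_filter.2 ⟨hh, hi⟩⟩
    have h3 : ∀ i ∈ (Finset.univ : Finset (Fin k)), (Z.filter (fun h => h i = 0)).card ≤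
        (2 * X) ^ (k - 1) := by
      intro i _
      have h4 : Z.filter (fun h => h i = 0) ⊆ Fintype.piFinset
          (fun j : Fin k => if j = i then {0} else Ioo (-(X : ℤ)) X) := by
        intro h hh
        rw [Finset.mem_filter, hZ, Fintype.mem_piFinset] at hh
        rw [Fintype.mem_piFinset]
        intro j
        by_cases hj : j = i
        · rw [if_pos hj, hj, hh.2]
          exact Finset.mem_singleton_self _
        · rw [if_neg hj]
          exact hh.1 j
      refine (Finset.card_le_card h4).trans ?_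
      rw [Fintype.card_piFinset]
      have h5 : ∏ j : Fin k, (if j = i then ({0} : Finset ℤ) else Ioo (-(X : ℤ)) X).card =
          ∏ j ∈ Finset.univ.erase i, (Ioo (-(X : ℤ)) X).card := by
        rw [← Finset.mul_prod_erase Finset.univ _ (Finset.mem_univ i)]
        rw [if_pos rfl, Finset.card_singleton, one_mul]
        refine Finset.prod_congr rfl fun j hj => ?_
        rw [if_neg (Finset.ne_of_mem_erase hj)]
      rw [h5, Finset.prod_const, Finset.card_erase_of_mem (Finset.mem_univ i), Finset.card_univ,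
        Fintype.card_fin]
      refine Nat.pow_le_pow_left ?_ _
      rw [Int.card_Ioo]
      omega
    have h6 := (Finset.card_le_card h2).trans (Finset.card_biUnion_le.trans (Finset.sum_le_sum h3))
    rw [Finset.sum_const, Finset.card_univ, Fintype.card_fin, smul_eq_mul] at h6
    exact_mod_cast h6
  · -- all `h_i ≠ 0`
    set Z' := Z.filter (fun h => ¬ ∃ i, h i = 0) with hZ'
    have hval : ∀ h ∈ Z', |cor u M (c * ∏ i, h i)| = φ (∏ i, (h i).natAbs) := by
      intro h _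
      simp only [hφ]
      rw [V4_abs u M hu, abs_mul]
      congr 3
      rw [Finset.abs_prod]
      push_cast
      rfl
    have hmaps : ∀ h ∈ Z', (fun i => (h i).natAbs) ∈ A := by
      intro h hh
      rw [hZ', Finset.mem_filter, hZ, Fintype.mem_piFinset] at hh
      obtain ⟨h1, h2⟩ := hh
      push Not at h2
      rw [hA, Fintype.mem_piFinset]
      intro i
      have h3 := Finset.mem_Ioo.1 (h1 i)
      have h4 := h2 i
      rw [Finset.mem_Icc]
      constructor <;> omega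
    rw [Finset.sum_congr rfl hval, ← Finset.sum_fiberwise_of_maps_to hmaps]
    have hfib : ∀ g ∈ A, ∑ h ∈ Z'.filter (fun h => (fun i => (h i).natAbs) = g),
        φ (∏ i, (h i).natAbs) ≤ 2 ^ k * φ (∏ i, g i) := by
      intro g _
      have h1 : ∀ h ∈ Z'.filter (fun h => (fun i => (h i).natAbs) = g),
          φ (∏ i, (h i).natAbs) = φ (∏ i, g i) := by
        intro h hh
        have h2 := (Finset.mem_filter.1 hh).2
        rw [← h2]
      rw [Finset.sum_congr rfl h1, Finset.sum_const, nsmul_eq_mul]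
      refine mul_le_mul_of_nonneg_right ?_ (abs_nonneg _)
      have h3 : Z'.filter (fun h => (fun i => (h i).natAbs) = g) ⊆
          Fintype.piFinset (fun i : Fin k => {((g i : ℕ) : ℤ), -((g i : ℕ) : ℤ)}) := by
        intro h hh
        have h2 := (Finset.mem_filter.1 hh).2
        rw [Fintype.mem_piFinset]
        intro i
        have h4 : (h i).natAbs = g i := congrFun h2 i
        rw [← h4, Finset.mem_insert, Finset.mem_singleton]
        rcases Int.natAbs_eq (h i) with h5 | h5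
        · exact Or.inl h5
        · exact Or.inr h5
      have h4 := Finset.card_le_card h3
      rw [Fintype.card_piFinset] at h4
      have h5 : ∏ i : Fin k, ({((g i : ℕ) : ℤ), -((g i : ℕ) : ℤ)} : Finset ℤ).card ≤ 2 ^ k := by
        refine (Finset.prod_le_prod' fun i _ => Finset.card_le_two).trans ?_
        rw [Finset.prod_const, Finset.card_univ, Fintype.card_fin]
      exact_mod_cast h4.trans h5
    refine (Finset.sum_le_sum hfib).trans ?_
    rw [← Finset.mul_sum]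
    refine mul_le_mul_of_nonneg_left ?_ (by positivity)
    refine V4_cs φ (S * Real.sqrt E) k X hX ?_ (by positivity)
    intro T hT
    have h1 : ∑ t ∈ T, φ t ^ 2 = ∑ d ∈ T.image (fun t : ℕ => |c| * (t : ℤ)), (cor u M d) ^ 2 := by
      rw [Finset.sum_image]
      · refine Finset.sum_congr rfl fun t _ => ?_
        simp only [hφ]
        rw [sq_abs]
      · intro t _ t' _ h
        have h2 : |c| * (t : ℤ) = |c| * (t' : ℤ) := h
        have h3 := mul_left_cancel₀ (abs_ne_zero.2 hc) h2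
        exact_mod_cast h3
    rw [h1]
    have h4 : ∑ d ∈ T.image (fun t : ℕ => |c| * (t : ℤ)), (cor u M d) ^ 2 =
        ∑ d ∈ (T.image (fun t : ℕ => |c| * (t : ℤ))).filter (fun d => d ∈ Icc (-(M : ℤ)) M),
          (cor u M d) ^ 2 := by
      rw [Finset.sum_filter]
      refine Finset.sum_congr rfl fun d _ => ?_
      split_ifs with h
      · rfl
      · rw [cor_eq_zero u M hu d]
        · norm_num
        · by_contra h5
          exact h (Finset.mem_Icc.2 (abs_le.1 (not_le.1 h5).le))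
    rw [h4]
    have h5 : ∑ d ∈ (T.image (fun t : ℕ => |c| * (t : ℤ))).filter
        (fun d => d ∈ Icc (-(M : ℤ)) M), (cor u M d) ^ 2 ≤
        ∑ d ∈ Icc (-(M : ℤ)) M, (cor u M d) ^ 2 :=
      Finset.sum_le_sum_of_subset_of_nonneg (fun d hd => (Finset.mem_filter.1 hd).2)
        fun _ _ _ => sq_nonneg _
    refine h5.trans ((cor_l2 u M hu S hS).trans ?_)
    rw [mul_pow, Real.sq_sqrt hE0.le]
    exact mul_le_mul_of_nonneg_left hE (sq_nonneg _)

end Pool.Agent.Lib.H33B
end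

-- from Lib.H33B.V6
section

/-!
# Chunk V6: correlations at the differences of a polynomial
-/

open Finset Polynomial

namespace Pool.Agent.Lib.H33B

open Pool.Agent.Lib.H68T (e)

theorem V6_base {k : ℕ} (hk : 1 ≤ k) {X E S L : ℝ} (hX : 0 < X) (hE : 0 < E) (hS : 0 ≤ S)
    (hL : 1 ≤ L) : (k * (2 * X) ^ (k - 1) * E +
        2 ^ k * (Real.sqrt (X ^ k * L ^ (k ^ 2)) * (S * Real.sqrt E))) / ((2 * X) ^ k * E) ≤
      k * (1 / X + S * L ^ (k ^ 2) / Real.sqrt (X ^ k * E)) := by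
  have hk' : (1 : ℝ) ≤ k := by exact_mod_cast hk
  have hsX : 0 < Real.sqrt (X ^ k) := Real.sqrt_pos.2 (by positivity)
  have hsE : 0 < Real.sqrt E := Real.sqrt_pos.2 hE
  have h1 : Real.sqrt (X ^ k * L ^ (k ^ 2)) ≤ Real.sqrt (X ^ k) * L ^ (k ^ 2) := by
    rw [Real.sqrt_mul (by positivity)]
    refine mul_le_mul_of_nonneg_left ?_ hsX.le
    have h2 : 1 ≤ L ^ (k ^ 2) := one_le_pow₀ hL
    rw [Real.sqrt_le_left (by positivity)]
    nlinarith
  have h3 : Real.sqrt (X ^ k * E) = Real.sqrt (X ^ k) * Real.sqrt E := Real.sqrt_mul (by positivity) _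
  obtain ⟨j, rfl⟩ : ∃ j, k = j + 1 := ⟨k - 1, by omega⟩
  rw [add_div]
  have e1 : ((j + 1 : ℕ) : ℝ) * (2 * X) ^ (j + 1 - 1) * E / ((2 * X) ^ (j + 1) * E) =
      ((j + 1 : ℕ) : ℝ) * (1 / X) / 2 := by
    rw [Nat.add_sub_cancel, pow_succ]
    field_simp
  have e2 : 2 ^ (j + 1) * (Real.sqrt (X ^ (j + 1) * L ^ ((j + 1) ^ 2)) * (S * Real.sqrt E)) /
      ((2 * X) ^ (j + 1) * E) ≤ S * L ^ ((j + 1) ^ 2) / Real.sqrt (X ^ (j + 1) * E) := by
    calc 2 ^ (j + 1) * (Real.sqrt (X ^ (j + 1) * L ^ ((j + 1) ^ 2)) * (S * Real.sqrt E)) /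
          ((2 * X) ^ (j + 1) * E) ≤
        2 ^ (j + 1) * ((Real.sqrt (X ^ (j + 1)) * L ^ ((j + 1) ^ 2)) * (S * Real.sqrt E)) /
          ((2 * X) ^ (j + 1) * E) := by
          refine div_le_div_of_nonneg_right ?_ (by positivity)
          refine mul_le_mul_of_nonneg_left ?_ (by positivity)
          exact mul_le_mul_of_nonneg_right h1 (by positivity)
      _ = S * L ^ ((j + 1) ^ 2) / Real.sqrt (X ^ (j + 1) * E) := by
          rw [h3, mul_pow, div_eq_div_iff (by positivity) (by positivity)]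
          have a1 : Real.sqrt (X ^ (j + 1)) * Real.sqrt (X ^ (j + 1)) = X ^ (j + 1) :=
            Real.mul_self_sqrt (by positivity)
          have a2 : Real.sqrt E * Real.sqrt E = E := Real.mul_self_sqrt hE.le
          calc 2 ^ (j + 1) * (Real.sqrt (X ^ (j + 1)) * L ^ ((j + 1) ^ 2) * (S * Real.sqrt E)) *
                (Real.sqrt (X ^ (j + 1)) * Real.sqrt E) =
              2 ^ (j + 1) * (Real.sqrt (X ^ (j + 1)) * Real.sqrt (X ^ (j + 1))) *
                (Real.sqrt E * Real.sqrt E) * (S * L ^ ((j + 1) ^ 2)) := by ring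
            _ = _ := by rw [a1, a2]; ring
  have e3 : 0 ≤ S * L ^ ((j + 1) ^ 2) / Real.sqrt (X ^ (j + 1) * E) := by positivity
  have e4 : 0 ≤ 1 / X := by positivity
  rw [e1]
  have e5 : S * L ^ ((j + 1) ^ 2) / Real.sqrt (X ^ (j + 1) * E) ≤
      ((j + 1 : ℕ) : ℝ) * (S * L ^ ((j + 1) ^ 2) / Real.sqrt (X ^ (j + 1) * E)) :=
    le_mul_of_one_le_left e3 hk'
  have e6 : 0 ≤ ((j + 1 : ℕ) : ℝ) * (1 / X) := by positivity
  rw [mul_add]
  linarith

/-- `vdc_pair` with `k = deg G`, `G.coeff k = G.leadingCoeff`, and `hsum` with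
`c = k! G.leadingCoeff ≠ 0`: the base of the power is at most
`k/(2X) + (1 + log X)^(k²/2) S/√(X^k E)`. Take `C = 4 (k² + 1)` or so. -/
theorem vdc (G : ℤ[X]) (hk : 1 ≤ G.natDegree) (hl : 0 < G.leadingCoeff) : ∃ C : ℝ, 1 ≤ C ∧
    ∀ (u : ℤ → ℝ) (M : ℕ), (∀ m, m ∉ Icc (1 : ℤ) M → u m = 0) → ∀ E S : ℝ, 0 < E →
    ∑ m ∈ Icc (1 : ℤ) M, u m ^ 2 ≤ E → 0 ≤ S →
    (∀ θ : ℝ, ‖∑ m ∈ Icc (1 : ℤ) M, (u m : ℂ) * e (m * θ)‖ ≤ S) → ∀ X : ℕ, 1 ≤ X →
    ∑ n ∈ Icc 1 X, ∑ n' ∈ Icc 1 X, |cor u M (G.eval (n : ℤ) - G.eval (n' : ℤ))| ≤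
      C * X ^ 2 * E * (1 / X + S * (1 + Real.log X) ^ C / Real.sqrt ((X : ℝ) ^ G.natDegree * E)) ^
        ((1 : ℝ) / 2 ^ (G.natDegree - 1)) := by
  set k := G.natDegree with hkdef
  have hk' : (1 : ℝ) ≤ k := by exact_mod_cast hk
  refine ⟨4 * ((k : ℝ) ^ 2 + 1), by nlinarith, ?_⟩
  intro u M hu E S hE0 hE hS0 hS X hX
  have hX0 : (0 : ℝ) < X := by exact_mod_cast hX
  set L : ℝ := 1 + Real.log X with hL
  have hL1 : 1 ≤ L := by
    have : 0 ≤ Real.log X := Real.log_natCast_nonneg X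
    linarith
  have h1 := vdc_pair u M hu E hE0 hE X hX k hk G le_rfl
  have hc : ((k.factorial : ℤ) * G.coeff k) ≠ 0 := by
    refine mul_ne_zero (by exact_mod_cast (Nat.factorial_pos k).ne') ?_
    exact hl.ne'
  have h2 := hsum u M hu E S hE0 hE hS0 hS k X hk hX ((k.factorial : ℤ) * G.coeff k) hc
  refine h1.trans ?_
  set θ : ℝ := (1 : ℝ) / 2 ^ (k - 1) with hθ
  have hθ0 : 0 < θ := by positivity
  have hθ1 : θ ≤ 1 := (div_le_one (by positivity)).2 (one_le_pow₀ (by norm_num))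
  set C : ℝ := 4 * ((k : ℝ) ^ 2 + 1) with hC
  have hLC : L ^ (k ^ 2) ≤ L ^ C := by
    rw [← Real.rpow_natCast]
    refine Real.rpow_le_rpow_of_exponent_le hL1 ?_
    push_cast
    nlinarith
  have hsq : 0 < Real.sqrt ((X : ℝ) ^ k * E) := Real.sqrt_pos.2 (by positivity)
  have hbase : (∑ h ∈ Fintype.piFinset (fun _ : Fin k => Ioo (-(X : ℤ)) X),
      |cor u M ((k.factorial : ℤ) * G.coeff k * ∏ i, h i)|) / ((2 * X) ^ k * E) ≤
      k * (1 / X + S * L ^ C / Real.sqrt ((X : ℝ) ^ k * E)) := by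
    refine (div_le_div_of_nonneg_right h2 (by positivity)).trans
      ((V6_base hk hX0 hE0 hS0 hL1).trans ?_)
    refine mul_le_mul_of_nonneg_left ?_ (by linarith)
    have := div_le_div_of_nonneg_right (mul_le_mul_of_nonneg_left hLC hS0) hsq.le
    linarith
  have hy0 : 0 ≤ 1 / (X : ℝ) + S * L ^ C / Real.sqrt ((X : ℝ) ^ k * E) := by positivity
  have h3 : ((∑ h ∈ Fintype.piFinset (fun _ : Fin k => Ioo (-(X : ℤ)) X),
      |cor u M ((k.factorial : ℤ) * G.coeff k * ∏ i, h i)|) / ((2 * X) ^ k * E)) ^ θ ≤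
      k * (1 / X + S * L ^ C / Real.sqrt ((X : ℝ) ^ k * E)) ^ θ := by
    refine (Real.rpow_le_rpow (div_nonneg (Finset.sum_nonneg fun _ _ => abs_nonneg _)
      (by positivity)) hbase hθ0.le).trans ?_
    rw [Real.mul_rpow (by linarith) hy0]
    refine mul_le_mul_of_nonneg_right ?_ (Real.rpow_nonneg hy0 _)
    calc (k : ℝ) ^ θ ≤ (k : ℝ) ^ (1 : ℝ) := Real.rpow_le_rpow_of_exponent_le hk' hθ1
      _ = k := Real.rpow_one _
  calc 4 * (X : ℝ) ^ 2 * E * ((∑ h ∈ Fintype.piFinset (fun _ : Fin k => Ioo (-(X : ℤ)) X),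
      |cor u M ((k.factorial : ℤ) * G.coeff k * ∏ i, h i)|) / ((2 * X) ^ k * E)) ^ θ ≤
        4 * (X : ℝ) ^ 2 * E * (k * (1 / X + S * L ^ C / Real.sqrt ((X : ℝ) ^ k * E)) ^ θ) :=
        mul_le_mul_of_nonneg_left h3 (by positivity)
    _ = (4 * k) * ((X : ℝ) ^ 2 * E * (1 / X + S * L ^ C / Real.sqrt ((X : ℝ) ^ k * E)) ^ θ) := by
        ring
    _ ≤ C * ((X : ℝ) ^ 2 * E * (1 / X + S * L ^ C / Real.sqrt ((X : ℝ) ^ k * E)) ^ θ) := by
        refine mul_le_mul_of_nonneg_right ?_ (mul_nonneg (by positivity) (Real.rpow_nonneg hy0 _))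
        nlinarith
    _ = _ := by ring

end Pool.Agent.Lib.H33B
end
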