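import Pool.Agent.Lib.H59M.M1.M004
import Pool.Agent.Lib.H59M.M1.M010
import Pool.Agent.Lib.H59M.M1.M011
import Pool.Agent.Lib.H59M.M1.M014
import Pool.Agent.Lib.H59M.M1.M015
import Pool.Agent.Lib.H59M.M1.M049
import Pool.Agent.Lib.H59M.M1.M056

/-! Merged copies (to shorten the build) of Lib.H51D.VDefs, Lib.H59C.Defs, Lib.H59C.LSB, Lib.H68T.FINP, Lib.H68T.SetsP, Lib.H59P.C1A, Lib.H59P.C1, Lib.H59P.C2, Lib.H59P.SDefs, Lib.H59P.CF0, Lib.H59P.S3, Lib.H59P.S0A, Lib.H59P.S0B, Lib.H59P.S0, Lib.H59P.ZDefs, Lib.H68T.BA2. -/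

-- from Lib.H51D.VDefs
section

/-!
# Project H51D (SharpTuples): definitions for the main part

The chain `Lib/H68X` measures all errors by `sw K Q X = exp (-log X/(K log Q)) + Q^(-1/K)`. If the
exceptional zero is `1 - exp (-v)`, then by the Deuring-Heilbronn phenomenon all other zeros are at
distance at least `c v/log Q` from the line `Re s = 1`, and the errors are at most
`sv K v Q X = exp (-v log X/(K log Q)) + Q^(-1/K)`, in the regime
`RegV K v Q X : Reg K Q X ∧ 1 ≤ v ∧ K v ≤ log Q`. In this regime factors `C (log X)^A exp (B v)`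
can be absorbed (`sv_absorb`).
-/

open Finset

namespace Pool.Agent.Lib.H68T

noncomputable section


/-- The regime of the parameters. -/
def RegV (K v : ℝ) (Q X : ℕ) : Prop := Reg K Q X ∧ 1 ≤ v ∧ K * v ≤ Real.log Q

/-- Control of `1/L(s, ψ)` in the wider rectangle `Rg (c' v) Q`. -/
def InvV (c' C v : ℝ) (Q : ℕ) (p : Σ r : ℕ, DirichletCharacter ℂ r) : Prop :=
  ∃ g : ℂ → ℂ, AnalyticOnNhd ℂ g (Rg (c' * v) Q) ∧
    (∀ s : ℂ, 1 < s.re → g s = LSeries (fun n => (ArithmeticFunction.moebius n : ℂ) *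
      p.2 (n : ZMod p.1)) s) ∧ ∀ s ∈ Rg (c' * v) Q, ‖g s‖ ≤ Real.exp (C * v)

/-- As `InvV`, only for `|Im s| ≥ 1`. -/
def InvHighV (c' C v : ℝ) (Q : ℕ) (p : Σ r : ℕ, DirichletCharacter ℂ r) : Prop :=
  ∃ g : ℂ → ℂ, AnalyticOnNhd ℂ g (Rg (c' * v) Q ∩ {s | 1 ≤ |s.im|}) ∧
    (∀ s : ℂ, 1 < s.re → g s = LSeries (fun n => (ArithmeticFunction.moebius n : ℂ) *
      p.2 (n : ZMod p.1)) s) ∧ ∀ s ∈ Rg (c' * v) Q, 1 ≤ |s.im| → ‖g s‖ ≤ Real.exp (C * v)

/-- Control of `-L'/L(s,ψ) + 1/(s-β)` in the wider rectangle. -/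
def LogV (c' C v : ℝ) (Q : ℕ) (p : Σ r : ℕ, DirichletCharacter ℂ r) (β : ℝ) : Prop :=
  ∃ g : ℂ → ℂ, AnalyticOnNhd ℂ g (Rg (c' * v) Q) ∧
    (∀ s : ℂ, 1 < s.re → g s = LSeries (fun n => (ArithmeticFunction.vonMangoldt n : ℂ) *
      p.2 (n : ZMod p.1)) s + 1 / (s - β)) ∧ ∀ s ∈ Rg (c' * v) Q, ‖g s‖ ≤ Real.exp (C * v)

/-- Control of `-ζ'/ζ(s) - 1/(s-1)` in the wider rectangle. -/
def ZetaV (c' C v : ℝ) (Q : ℕ) : Prop :=
  ∃ g : ℂ → ℂ, AnalyticOnNhd ℂ g (Rg (c' * v) Q) ∧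
    (∀ s : ℂ, 1 < s.re → g s = LSeries (fun n => (ArithmeticFunction.vonMangoldt n : ℂ)) s -
      1 / (s - 1)) ∧ ∀ s ∈ Rg (c' * v) Q, ‖g s‖ ≤ Real.exp (C * v)




/-- For every `ε > 0` and all large `r`, no real primitive character modulo `r` has a real zero in
`[1 - exp (-(log r)^(1/κ-1+ε)), 1]`. -/
def NoSiegelK (κ : ℝ) : Prop :=
  ∀ ε : ℝ, 0 < ε → ∃ r₀ : ℕ, ∀ r : ℕ, r₀ ≤ r → ∀ [NeZero r], ∀ ψ : DirichletCharacter ℂ r,
    ψ.IsPrimitive → ψ ≠ 1 → ψ ^ 2 = 1 → ∀ σ : ℝ,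
    1 - Real.exp (-(Real.log r) ^ (1 / κ - 1 + ε)) ≤ σ → σ ≤ 1 → ψ.LFunction (σ : ℂ) ≠ 0

end

theorem RegV.mono {K K' v : ℝ} {Q X : ℕ} (h : RegV K v Q X) (h0 : 0 ≤ K) (hK : K' ≤ K) :
    RegV K' v Q X := by
  obtain ⟨h1, h2, h3⟩ := h
  exact ⟨h1.mono h0 hK, h2, (mul_le_mul_of_nonneg_right hK (by linarith)).trans h3⟩

theorem RegV.reg {K v : ℝ} {Q X : ℕ} (h : RegV K v Q X) : Reg K Q X := h.1



theorem InvV.mono {c c' C C' v : ℝ} {Q : ℕ} {p : Σ r : ℕ, DirichletCharacter ℂ r} (hv : 0 ≤ v)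
    (h : InvV c' C v Q p) (hc : c ≤ c') (hC : C ≤ C') : InvV c C' v Q p := by
  obtain ⟨g, h1, h2, h3⟩ := h
  have hR := Rg_mono (Q := Q) (mul_le_mul_of_nonneg_right hc hv)
  refine ⟨g, h1.mono hR, h2, fun s hs => (h3 s (hR hs)).trans ?_⟩
  exact Real.exp_le_exp.mpr (mul_le_mul_of_nonneg_right hC hv)

theorem InvHighV.mono {c c' C C' v : ℝ} {Q : ℕ} {p : Σ r : ℕ, DirichletCharacter ℂ r}
    (hv : 0 ≤ v) (h : InvHighV c' C v Q p) (hc : c ≤ c') (hC : C ≤ C') :
    InvHighV c C' v Q p := by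
  obtain ⟨g, h1, h2, h3⟩ := h
  have hR := Rg_mono (Q := Q) (mul_le_mul_of_nonneg_right hc hv)
  refine ⟨g, h1.mono (Set.inter_subset_inter_left _ hR), h2, fun s hs hi =>
    (h3 s (hR hs) hi).trans ?_⟩
  exact Real.exp_le_exp.mpr (mul_le_mul_of_nonneg_right hC hv)

theorem LogV.mono {c c' C C' v : ℝ} {Q : ℕ} {p : Σ r : ℕ, DirichletCharacter ℂ r} {β : ℝ}
    (hv : 0 ≤ v) (h : LogV c' C v Q p β) (hc : c ≤ c') (hC : C ≤ C') : LogV c C' v Q p β := by
  obtain ⟨g, h1, h2, h3⟩ := h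
  have hR := Rg_mono (Q := Q) (mul_le_mul_of_nonneg_right hc hv)
  refine ⟨g, h1.mono hR, h2, fun s hs => (h3 s (hR hs)).trans ?_⟩
  exact Real.exp_le_exp.mpr (mul_le_mul_of_nonneg_right hC hv)

theorem ZetaV.mono {c c' C C' v : ℝ} {Q : ℕ} (hv : 0 ≤ v) (h : ZetaV c' C v Q) (hc : c ≤ c')
    (hC : C ≤ C') : ZetaV c C' v Q := by
  obtain ⟨g, h1, h2, h3⟩ := h
  have hR := Rg_mono (Q := Q) (mul_le_mul_of_nonneg_right hc hv)
  refine ⟨g, h1.mono hR, h2, fun s hs => (h3 s (hR hs)).trans ?_⟩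
  exact Real.exp_le_exp.mpr (mul_le_mul_of_nonneg_right hC hv)









end Pool.Agent.Lib.H68T
end

-- from Lib.H59C.Defs
section

/-!
# Project H59C (MP_443e5f_co, Goldbach graphs): definitions

See `PROOF.md` in this folder. `PC Q`: the primitive characters of conductor at most `Q`
(pairs `⟨r, χ⟩`), `p0` the trivial one, `e x = exp (2 π i x)` (`Lib/H68T/Defs.lean`).
-/

open Finset

namespace Pool.Agent.Lib.H59C

noncomputable section

open Pool.Agent.Lib.H68T (PC p0 e)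




/-- `∑ log q` over the primes `q ≤ y`. -/
def th (y : ℕ) : ℝ := ∑ q ∈ (Icc 1 y).filter Nat.Prime, Real.log q






/-- Rosser's condition on a decreasing list of primes (`true`: upper bound sieve, `false`: lower
bound sieve). -/
def adm : Bool → ℝ → List ℕ → Prop
  | _, _, [] => True
  | true, D, p :: l => (p : ℝ) ^ 3 < D ∧ adm false (D / p) l
  | false, D, p :: l => adm true (D / p) l

open Classical in
/-- Rosser's weights. -/
def lamR (b : Bool) (D : ℝ) (A : Finset ℕ) : ℝ :=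
  if adm b D (A.sort (· ≥ ·)) then (-1) ^ A.card else 0

/-- `∑_{A ⊆ P} λ(A) ∏_{q ∈ A} h(q)` -/
def SS (b : Bool) (D : ℝ) (P : Finset ℕ) (h : ℕ → ℝ) : ℝ :=
  ∑ A ∈ P.powerset, lamR b D A * ∏ q ∈ A, h q

/-- The comparison function. -/
def hh (s : ℝ) : ℝ := Real.exp (-(11 / 10) * max s 2)






end

end Pool.Agent.Lib.H59C
end

-- from Lib.H59C.LSB
section

/-!
# LSB: from primitive characters to additive characters
-/

open Finset

namespace Pool.Agent.Lib.H59C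

open Pool.Agent.Lib.H68T (PC p0 e)


/-- abstract Parseval -/
theorem lsb_parseval {X B : Type*} [Fintype X] [Fintype B] [DecidableEq B] (u : X → B → ℂ) (c : ℝ)
    (h : ∀ b b', ∑ x, (starRingEnd ℂ) (u x b) * u x b' = if b = b' then (c : ℂ) else 0)
    (f : B → ℂ) : ∑ x, ‖∑ b, u x b * f b‖ ^ 2 = c * ∑ b, ‖f b‖ ^ 2 := by
  have h1 : ∀ x, ((‖∑ b, u x b * f b‖ ^ 2 : ℝ) : ℂ) =
      ∑ b, ∑ b', (starRingEnd ℂ) (f b) * f b' * ((starRingEnd ℂ) (u x b) * u x b') := by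
    intro x
    rw [Complex.ofReal_pow, ← Complex.conj_mul', map_sum, sum_mul_sum]
    refine sum_congr rfl fun b _ => sum_congr rfl fun b' _ => ?_
    rw [map_mul]
    ring
  have h2 : ((∑ x, ‖∑ b, u x b * f b‖ ^ 2 : ℝ) : ℂ) = ((c * ∑ b, ‖f b‖ ^ 2 : ℝ) : ℂ) := by
    rw [Complex.ofReal_sum, sum_congr rfl fun x _ => h1 x, sum_comm, Complex.ofReal_mul,
      Complex.ofReal_sum, mul_sum]
    refine sum_congr rfl fun b _ => ?_
    rw [sum_comm, sum_congr rfl fun b' _ => (mul_sum _ _ _).symm]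
    simp_rw [h]
    simp only [mul_ite, mul_zero, sum_ite_eq, mem_univ, if_true]
    rw [Complex.conj_mul', Complex.ofReal_pow, mul_comm]
  exact_mod_cast h2

theorem lsb_sum_units (q : ℕ) [NeZero q] (G : ZMod q → ℂ) (hG : ∀ b, ¬ IsUnit b → G b = 0) :
    ∑ b, G b = ∑ b : (ZMod q)ˣ, G b := by
  classical
  have h1 : ∑ b : (ZMod q)ˣ, G b =
      ∑ b ∈ (univ : Finset (ZMod q)ˣ).map ⟨fun u : (ZMod q)ˣ => (u : ZMod q), fun _ _ h => Units.ext h⟩, G b := by
    rw [sum_map]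
    rfl
  rw [h1]
  symm
  apply sum_subset (subset_univ _)
  intro b _ hb
  apply hG
  rintro ⟨u, rfl⟩
  apply hb
  rw [mem_map]
  exact ⟨u, mem_univ _, rfl⟩



theorem lsb_card (q : ℕ) [NeZero q] (χ : DirichletCharacter ℂ q) :
    ∑ b : ZMod q, ‖χ b‖ ^ 2 = (Nat.totient q : ℝ) := by
  classical
  have h1 : ∑ b : ZMod q, ((‖χ b‖ ^ 2 : ℝ) : ℂ) = ∑ b : (ZMod q)ˣ, ((‖χ (b : ZMod q)‖ ^ 2 : ℝ) : ℂ) :=
    lsb_sum_units q (fun b => ((‖χ b‖ ^ 2 : ℝ) : ℂ)) (fun b hb => by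
      rw [MulChar.map_nonunit _ hb]
      norm_num)
  have h2 : ∑ b : ZMod q, ‖χ b‖ ^ 2 = ∑ b : (ZMod q)ˣ, ‖χ (b : ZMod q)‖ ^ 2 := by
    exact_mod_cast h1
  rw [h2]
  have h3 : ∀ b : (ZMod q)ˣ, ‖χ (b : ZMod q)‖ ^ 2 = 1 := by
    intro b
    rw [χ.unit_norm_eq_one b, one_pow]
  rw [sum_congr rfl fun b _ => h3 b, sum_const, card_univ, ZMod.card_units_eq_totient, nsmul_one]

theorem lsb_gauss (q : ℕ) [NeZero q] {χ : DirichletCharacter ℂ q} (h : χ.IsPrimitive) :
    ‖gaussSum χ (ZMod.stdAddChar (N := q))‖ ^ 2 = q := by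
  classical
  have hq : (0 : ℝ) < Nat.totient q := by exact_mod_cast Nat.totient_pos.2 (NeZero.pos q)
  have h1 := lsb_parseval (fun (m b : ZMod q) => (ZMod.stdAddChar (b * m) : ℂ)) (q : ℝ) (by
    intro b b'
    have h2 := AddChar.sum_mulShift (b' - b) (ZMod.isPrimitive_stdAddChar q)
    rw [ZMod.card] at h2
    have h3 : ∀ x : ZMod q, (starRingEnd ℂ) (ZMod.stdAddChar (b * x) : ℂ) *
        ZMod.stdAddChar (b' * x) = ZMod.stdAddChar (x * (b' - b)) := by
      intro x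
      rw [← AddChar.map_neg_eq_conj, ← AddChar.map_add_eq_mul]
      congr 1
      ring
    rw [sum_congr rfl fun x _ => h3 x, h2]
    by_cases hb : b = b'
    · rw [if_pos hb, if_pos (by rw [hb, sub_self])]
      norm_cast
    · rw [if_neg hb, if_neg (by rw [sub_eq_zero]; exact fun h => hb h.symm)]
      norm_cast) (fun b => χ b)
  rw [lsb_card] at h1
  have h4 : ∀ m : ZMod q, ‖∑ b, (ZMod.stdAddChar (b * m) : ℂ) * χ b‖ ^ 2 =
      ‖χ⁻¹ m‖ ^ 2 * ‖gaussSum χ (ZMod.stdAddChar (N := q))‖ ^ 2 := by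
    intro m
    rw [← mul_pow, ← norm_mul, ← gaussSum_mulShift_of_isPrimitive _ h, gaussSum]
    congr 2
    refine sum_congr rfl fun b _ => ?_
    rw [AddChar.mulShift_apply, mul_comm, mul_comm b]
  rw [sum_congr rfl fun m _ => h4 m, ← sum_mul, lsb_card] at h1
  exact mul_left_cancel₀ hq.ne' (h1.trans (mul_comm _ _))




end Pool.Agent.Lib.H59C
end

-- from Lib.H68T.FINP
section

/-!
# Chunk FIN, part 1: choice of the parameters
-/

open Finset Filter Real

namespace Pool.Agent.Lib.H68T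

theorem ev_rpow (C p q : ℝ) (h : p < q) : ∀ᶠ L : ℝ in atTop, C * L ^ p ≤ L ^ q := by
  have h1 : Tendsto (fun L : ℝ => L ^ (q - p)) atTop atTop := tendsto_rpow_atTop (by linarith)
  filter_upwards [h1.eventually (eventually_ge_atTop C), eventually_gt_atTop (0:ℝ)] with L hL hL0
  calc C * L ^ p ≤ L ^ (q - p) * L ^ p := mul_le_mul_of_nonneg_right hL (rpow_nonneg hL0.le _)
    _ = L ^ q := by rw [← rpow_add hL0]; ring_nf

theorem ev_log (C r : ℝ) (h : 0 < r) : ∀ᶠ L : ℝ in atTop, C * Real.log L ≤ L ^ r := by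
  have h1 := (isLittleO_log_rpow_atTop h).bound (c := (|C| + 1)⁻¹) (by positivity)
  filter_upwards [h1, eventually_ge_atTop (1:ℝ)] with L hL hL1
  have hL0 : 0 < L := by linarith
  rw [Real.norm_of_nonneg (Real.log_nonneg hL1), Real.norm_of_nonneg (rpow_nonneg hL0.le _)] at hL
  have hlog := Real.log_nonneg hL1
  have hC : C ≤ |C| + 1 := by linarith [le_abs_self C]
  calc C * Real.log L ≤ (|C| + 1) * Real.log L := mul_le_mul_of_nonneg_right hC hlog
    _ ≤ (|C| + 1) * ((|C| + 1)⁻¹ * L ^ r) := mul_le_mul_of_nonneg_left hL (by positivity)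
    _ = L ^ r := by
        rw [← mul_assoc, mul_inv_cancel₀ (by positivity), one_mul]



end Pool.Agent.Lib.H68T
end

-- from Lib.H68T.SetsP
section

/-!
# Chunk SETS: from residue patterns to admissible sets
-/

open Finset

namespace Pool.Agent.Lib.H68T

/-- the tuples with values in `[0, H]` -/
def SETS_Om (k H : ℕ) : Finset (Fin k → ℕ) := Fintype.piFinset (fun _ => range (H + 1))


open scoped Classical in
theorem SETS_fiber (k H : ℕ) (A : Finset ℕ) (hA : A ⊆ range (H + 1)) (hk : A.card = k) :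
    ((SETS_Om k H).filter (fun a => Function.Injective a ∧ univ.image a = A)).card = k.factorial := by
  have h1 : Fintype.card (Fin k ↪ A) = k.factorial := by
    rw [Fintype.card_embedding_eq, Fintype.card_coe, hk, Fintype.card_fin, Nat.descFactorial_self]
  rw [← h1, ← card_univ]
  symm
  refine card_bij (fun f _ i => (f i : ℕ)) ?_ ?_ ?_
  · intro f _
    rw [mem_filter]
    refine ⟨?_, ?_, ?_⟩
    · unfold SETS_Om
      rw [Fintype.mem_piFinset]
      intro i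
      exact hA (f i).2
    · intro i j h
      exact f.injective (Subtype.ext h)
    · apply eq_of_subset_of_card_le
      · intro y hy
        rw [mem_image] at hy
        obtain ⟨i, -, rfl⟩ := hy
        exact (f i).2
      · rw [card_image_of_injective _ (fun i j h => f.injective (Subtype.ext h)), hk]
        simp
  · intro f _ g _ h
    ext i
    exact congrFun h i
  · intro a ha
    rw [mem_filter] at ha
    obtain ⟨-, hinj, himg⟩ := ha
    refine ⟨⟨fun i => ⟨a i, by rw [← himg]; exact mem_image_of_mem _ (mem_univ _)⟩, ?_⟩, mem_univ _, rfl⟩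
    intro i j h
    exact hinj (congrArg Subtype.val h)

open scoped Classical in
/-- Every `k`-set is the image of `k!` injective tuples. -/
theorem SETS_tuples (k H : ℕ) (P : Finset ℕ → Prop) :
    ((SETS_Om k H).filter (fun a => Function.Injective a ∧ P (univ.image a))).card =
      k.factorial * (((range (H + 1)).powersetCard k).filter P).card := by
  have hmaps : ∀ a ∈ (SETS_Om k H).filter (fun a => Function.Injective a ∧ P (univ.image a)),
      univ.image a ∈ ((range (H + 1)).powersetCard k).filter P := by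
    intro a ha
    rw [mem_filter] at ha
    obtain ⟨h1, h2, h3⟩ := ha
    rw [mem_filter, mem_powersetCard]
    refine ⟨⟨?_, ?_⟩, h3⟩
    · intro y hy
      rw [mem_image] at hy
      obtain ⟨i, -, rfl⟩ := hy
      unfold SETS_Om at h1
      exact (Fintype.mem_piFinset.mp h1) i
    · rw [card_image_of_injective _ h2]; simp
  rw [card_eq_sum_card_fiberwise hmaps]
  rw [sum_congr rfl (g := fun _ => k.factorial)]
  · rw [sum_const, smul_eq_mul, mul_comm]
  · intro A hA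
    rw [mem_filter, mem_powersetCard] at hA
    rw [← SETS_fiber k H A hA.1.1 hA.1.2, filter_filter]
    congr 1
    ext a
    rw [mem_filter, mem_filter]
    constructor
    · rintro ⟨h1, ⟨h2, -⟩, h4⟩
      exact ⟨h1, h2, h4⟩
    · rintro ⟨h1, h2, h4⟩
      exact ⟨h1, ⟨h2, by rw [h4]; exact hA.2⟩, h4⟩

/-- Tuples with a coordinate in `[m, H]`. -/
theorem SETS_large (k H m : ℕ) (i : Fin k) :
    ((SETS_Om k H).filter (fun a => m ≤ a i)).card ≤ (H + 1 - m) * (H + 1) ^ (k - 1) := by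
  classical
  have hsub : (SETS_Om k H).filter (fun a => m ≤ a i) ⊆
      Fintype.piFinset (fun j => if j = i then Ico m (H + 1) else range (H + 1)) := by
    intro a ha
    rw [mem_filter] at ha
    obtain ⟨h1, h2⟩ := ha
    unfold SETS_Om at h1
    rw [Fintype.mem_piFinset] at h1 ⊢
    intro j
    by_cases h : j = i
    · rw [if_pos h, mem_Ico]
      subst h
      exact ⟨h2, mem_range.mp (h1 j)⟩
    · rw [if_neg h]; exact h1 j
  refine (card_le_card hsub).trans ?_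
  rw [Fintype.card_piFinset]
  rw [← mul_prod_erase univ _ (mem_univ i)]
  rw [if_pos rfl, Nat.card_Ico]
  apply Nat.mul_le_mul_left
  rw [prod_congr rfl (g := fun _ => H + 1)]
  · rw [prod_const, card_erase_of_mem (mem_univ i)]
    simp
  · intro j hj
    rw [mem_erase] at hj
    rw [if_neg hj.1, card_range]


/-- Lifts of good patterns are admissible. -/
theorem SETS_lift_adm (k W : ℕ) (hp : ∀ p : ℕ, p.Prime → p ≤ k → p ∣ W) (r c : Fin k → ℕ) (b : ℕ)
    (hb : ∀ i, Nat.Coprime (b + r i) W) :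
    Admissible (univ.image (fun i => r i + W * c i)) := by
  classical
  intro p hpp
  by_cases hpW : p ∣ W
  · refine ⟨-(b : ZMod p), fun y hy => ?_⟩
    rw [mem_image] at hy
    obtain ⟨i, -, rfl⟩ := hy
    intro h
    have hW0 : ((W : ℕ) : ZMod p) = 0 := (ZMod.natCast_eq_zero_iff _ _).mpr hpW
    push_cast at h
    rw [hW0, zero_mul, add_zero] at h
    have : ((b + r i : ℕ) : ZMod p) = 0 := by push_cast; rw [h]; ring
    have h2 := (ZMod.natCast_eq_zero_iff _ _).mp this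
    have h3 := Nat.dvd_gcd h2 hpW
    rw [(hb i)] at h3
    exact hpp.one_lt.ne' (Nat.dvd_one.mp h3)
  · have hkp : k < p := by
      by_contra h
      exact hpW (hp p hpp (not_lt.mp h))
    have : NeZero p := ⟨hpp.ne_zero⟩
    have hcard : ((univ.image (fun i => r i + W * c i)).image (fun y : ℕ => (y : ZMod p))).card <
        Fintype.card (ZMod p) := by
      rw [ZMod.card]
      refine lt_of_le_of_lt card_image_le (lt_of_le_of_lt card_image_le ?_)
      simpa using hkp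
    obtain ⟨z, hz⟩ := exists_mem_notMem_of_card_lt_card (s := (univ.image (fun i => r i + W * c i)).image
      (fun y : ℕ => (y : ZMod p))) (t := univ) (by rw [card_univ]; exact hcard)
    refine ⟨z, fun y hy h => hz.2 ?_⟩
    rw [← h]
    exact mem_image_of_mem _ hy

theorem SETS_desc (M k : ℕ) (hM4 : 4 * k ^ 2 ≤ M) (hk : 1 ≤ k) :
    (3 / 4 : ℝ) * (M : ℝ) ^ k ≤ (M.descFactorial k : ℝ) := by
  have h1 := Nat.pow_sub_le_descFactorial M k
  have hkM : k ≤ M := by nlinarith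
  have hM0 : 0 < M := by omega
  have hMr : (0:ℝ) < M := by exact_mod_cast hM0
  have h2 : (((M + 1 - k : ℕ) : ℝ)) ^ k ≤ (M.descFactorial k : ℝ) := by exact_mod_cast h1
  refine le_trans ?_ h2
  have h3 : ((M + 1 - k : ℕ) : ℝ) = M * (1 + (-((k - 1 : ℝ) / M))) := by
    rw [Nat.cast_sub (by omega)]
    push_cast
    field_simp
    ring
  rw [h3, mul_pow, mul_comm]
  apply mul_le_mul_of_nonneg_left _ (by positivity)
  have hk1 : (1:ℝ) ≤ k := by exact_mod_cast hk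
  have hM4' : 4 * (k:ℝ) ^ 2 ≤ M := by exact_mod_cast hM4
  have hle : (k - 1 : ℝ) / M ≤ 1 := by
    rw [div_le_one hMr]
    nlinarith
  have hb := one_add_mul_le_pow (a := -((k - 1 : ℝ) / M)) (by linarith) k
  refine le_trans ?_ hb
  have : (k:ℝ) * ((k - 1 : ℝ) / M) ≤ 1 / 4 := by
    rw [← mul_div_assoc, div_le_iff₀ hMr]
    nlinarith
  linarith

theorem SETS_MW (H W M k : ℕ) (hW : 0 < W) (hk : 1 ≤ k) (hM : M = (H + 1) / W)
    (hMk : 4 * k * W ≤ H + 1) : (3 / 4 : ℝ) * ((H:ℝ) + 1) ^ k ≤ ((M:ℝ) * W) ^ k := by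
  have hH : (0:ℝ) < (H:ℝ) + 1 := by positivity
  have hk0 : (0:ℝ) < k := by exact_mod_cast hk
  have h1 : H + 1 < W * M + W := by
    rw [hM]
    have := Nat.lt_mul_div_succ (H + 1) hW
    linarith [Nat.mul_succ W ((H + 1) / W)]
  have h1' : (H:ℝ) + 1 < W * M + W := by exact_mod_cast h1
  have h2' : 4 * (k:ℝ) * W ≤ H + 1 := by exact_mod_cast hMk
  have h3 : ((H:ℝ) + 1) * (1 + (-(1 / (4 * (k:ℝ))))) ≤ (M:ℝ) * W := by
    have : (W:ℝ) ≤ ((H:ℝ) + 1) * (1 / (4 * (k:ℝ))) := by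
      rw [mul_one_div, le_div_iff₀ (by positivity)]
      linarith
    nlinarith
  have hle : 1 / (4 * (k:ℝ)) ≤ 1 := by
    rw [div_le_one (by positivity)]
    have : (1:ℝ) ≤ k := by exact_mod_cast hk
    linarith
  have h4 : (((H:ℝ) + 1) * (1 + (-(1 / (4 * (k:ℝ)))))) ^ k ≤ ((M:ℝ) * W) ^ k := by
    apply pow_le_pow_left₀ _ h3
    apply mul_nonneg hH.le
    linarith
  refine le_trans ?_ h4
  rw [mul_pow, mul_comm]
  apply mul_le_mul_of_nonneg_left _ (by positivity)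
  have hb := one_add_mul_le_pow (a := -(1 / (4 * (k:ℝ)))) (by linarith) k
  refine le_trans ?_ hb
  have : (k:ℝ) * (1 / (4 * (k:ℝ))) = 1 / 4 := by field_simp
  linarith

open scoped Classical in
/-- good patterns -/
noncomputable def SETS_R (k W : ℕ) : Finset (Fin k → ℕ) :=
  (Fintype.piFinset (fun _ : Fin k => range W)).filter
    (fun r => ∃ b < W, ∀ i, Nat.Coprime (b + r i) W)

theorem SETS_R_card (k W : ℕ) (hW : 0 < W) : (Nat.totient W) ^ k ≤ (SETS_R k W).card := by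
  classical
  have hsub : Fintype.piFinset (fun _ : Fin k => (range W).filter (fun a => W.Coprime a)) ⊆
      SETS_R k W := by
    intro r hr
    rw [Fintype.mem_piFinset] at hr
    unfold SETS_R
    rw [mem_filter, Fintype.mem_piFinset]
    refine ⟨fun i => (mem_filter.mp (hr i)).1, 0, hW, fun i => ?_⟩
    rw [zero_add]
    exact (mem_filter.mp (hr i)).2.symm
  have := card_le_card hsub
  rw [Fintype.card_piFinset] at this
  simpa [Nat.totient] using this

open scoped Classical in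
theorem SETS_adm_lower (H W M k : ℕ) (hW : 0 < W) (hM : M = (H + 1) / W)
    (hp : ∀ p : ℕ, p.Prime → p ≤ k → p ∣ W) :
    (SETS_R k W).card * M.descFactorial k ≤
      ((SETS_Om k H).filter (fun a => Function.Injective a ∧ Admissible (univ.image a))).card := by
  have h1 : Fintype.card (Fin k ↪ Fin M) = M.descFactorial k := by
    rw [Fintype.card_embedding_eq, Fintype.card_fin, Fintype.card_fin]
  rw [← h1, ← card_univ, ← card_product]
  refine card_le_card_of_injOn (fun x => fun i => x.1 i + W * (x.2 i : ℕ)) ?_ ?_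
  · rintro ⟨r, c⟩ hx
    rw [mem_coe, mem_product] at hx
    have hr := hx.1
    unfold SETS_R at hr
    rw [mem_filter, Fintype.mem_piFinset] at hr
    obtain ⟨hr1, b, hb, hb2⟩ := hr
    rw [mem_coe, mem_filter]
    refine ⟨?_, ?_, ?_⟩
    · unfold SETS_Om
      rw [Fintype.mem_piFinset]
      intro i
      have h2 := mem_range.mp (hr1 i)
      have h3 : (c i : ℕ) + 1 ≤ M := (c i).2
      rw [mem_range]
      have h4 : W * ((c i : ℕ) + 1) ≤ W * M := Nat.mul_le_mul_left _ h3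
      have h5 : W * M ≤ H + 1 := by rw [hM]; exact Nat.mul_div_le _ _
      have h6 : W * ((c i : ℕ) + 1) = W * (c i : ℕ) + W := by ring
      dsimp only at h2 ⊢
      omega
    · intro i j hij
      dsimp only at hij
      have hri := mem_range.mp (hr1 i)
      have hrj := mem_range.mp (hr1 j)
      have e1 : (r i + W * (c i : ℕ)) / W = (c i : ℕ) := by
        rw [Nat.add_mul_div_left _ _ hW, Nat.div_eq_of_lt hri, zero_add]
      have e2 : (r j + W * (c j : ℕ)) / W = (c j : ℕ) := by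
        rw [Nat.add_mul_div_left _ _ hW, Nat.div_eq_of_lt hrj, zero_add]
      have : (c i : ℕ) = (c j : ℕ) := by rw [← e1, ← e2, hij]
      exact c.injective (Fin.ext this)
    · exact SETS_lift_adm k W hp r (fun i => (c i : ℕ)) b hb2
  · rintro ⟨r, c⟩ hx ⟨r', c'⟩ hx' h
    rw [mem_coe, mem_product] at hx hx'
    have hr := hx.1
    have hr' := hx'.1
    unfold SETS_R at hr hr'
    rw [mem_filter, Fintype.mem_piFinset] at hr hr'
    have key : ∀ i, r i = r' i ∧ (c i : ℕ) = (c' i : ℕ) := by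
      intro i
      have hi := congrFun h i
      dsimp only at hi
      have hri := mem_range.mp (hr.1 i)
      have hri' := mem_range.mp (hr'.1 i)
      dsimp only at hri hri'
      have e1 : (r i + W * (c i : ℕ)) / W = (c i : ℕ) := by
        rw [Nat.add_mul_div_left _ _ hW, Nat.div_eq_of_lt hri, zero_add]
      have e2 : (r' i + W * (c' i : ℕ)) / W = (c' i : ℕ) := by
        rw [Nat.add_mul_div_left _ _ hW, Nat.div_eq_of_lt hri', zero_add]
      have e3 : (c i : ℕ) = (c' i : ℕ) := by rw [← e1, ← e2, hi]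
      refine ⟨?_, e3⟩
      rw [e3] at hi
      omega
    have e1 : r = r' := funext fun i => (key i).1
    have e2 : c = c' := by
      ext i
      exact (key i).2
    rw [e1, e2]


end Pool.Agent.Lib.H68T
end

-- from Lib.H59P.C1A
section

/-!
# Project H59P, chunk C1a
-/

open Finset

namespace Pool.Agent.Lib.H59P

open Pool.Agent.Lib.H68T Pool.Agent.Lib.H18Q

/-- Sum over a product of coordinates in `J` and outside of `J`. -/
theorem c1a_split {k : ℕ} {ι : Type*} [DecidableEq ι] (S : Finset ι) (J : Finset (Fin k))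
    (A : Fin k → ι → ℂ) (c : (Fin k → ι) → ℂ) (v0 : ι)
    (hc : ∀ p : Fin k → ι, c p = c (fun i => if i ∈ J then p i else v0)) :
    ∑ p ∈ (Fintype.piFinset fun _ : Fin k => S), (∏ i ∈ univ \ J, A i (p i)) * c p =
      (∏ i ∈ univ \ J, ∑ p ∈ S, A i p) *
        ∑ a ∈ (Fintype.piFinset fun _ : {i : Fin k // i ∈ J} => S),
          c (fun i => if h : i ∈ J then a ⟨i, h⟩ else v0) := by
  classical
  have h1 : ∑ p ∈ (Fintype.piFinset fun _ : Fin k => S), (∏ i ∈ univ \ J, A i (p i)) * c p =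
      ∑ x ∈ (Fintype.piFinset fun _ : {i : Fin k // i ∈ J} => S) ×ˢ
        (Fintype.piFinset fun _ : {i : Fin k // i ∉ J} => S),
        (∏ i : {i : Fin k // i ∉ J}, A i (x.2 i)) * c (fun i => if h : i ∈ J then x.1 ⟨i, h⟩ else v0) := by
    refine Finset.sum_nbij' (fun p => (fun i : {i : Fin k // i ∈ J} => p i, fun i : {i : Fin k // i ∉ J} => p i))
      (fun x i => if h : i ∈ J then x.1 ⟨i, h⟩ else x.2 ⟨i, h⟩) ?_ ?_ ?_ ?_ ?_
    · intro p hp
      rw [Fintype.mem_piFinset] at hp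
      simp only [Finset.mem_product, Fintype.mem_piFinset]
      exact ⟨fun i => hp i, fun i => hp i⟩
    · intro x hx
      simp only [Finset.mem_product, Fintype.mem_piFinset] at hx
      rw [Fintype.mem_piFinset]
      intro i
      by_cases h : i ∈ J
      · simp only [h, dif_pos]; exact hx.1 _
      · simp only [h, dif_neg, not_false_eq_true]; exact hx.2 _
    · intro p hp
      funext i
      by_cases h : i ∈ J
      · simp only [h, dif_pos]
      · simp only [h, dif_neg, not_false_eq_true]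
    · intro x hx
      refine Prod.ext ?_ ?_
      · funext i
        simp only [i.2, dif_pos]
      · funext i
        simp only [i.2, dif_neg, not_false_eq_true]
    · intro p hp
      have e1 : (∏ i ∈ univ \ J, A i (p i)) = ∏ i : {i : Fin k // i ∉ J}, A i (p i) := by
        rw [← Finset.prod_subtype (univ \ J) (p := fun i => i ∉ J) (f := fun i => A i (p i))]
        intro i
        simp
      have e2 : (fun i => if i ∈ J then p i else v0) = fun i => if h : i ∈ J then p ((⟨i, h⟩ : {i : Fin k // i ∈ J}) : Fin k) else v0 := by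
        funext i
        by_cases h : i ∈ J
        · simp [h]
        · simp [h]
      rw [e1, hc p, e2]
  rw [h1, Finset.sum_product]
  have e3 : (∏ i ∈ univ \ J, ∑ p ∈ S, A i p) = ∏ i : {i : Fin k // i ∉ J}, ∑ p ∈ S, A i p := by
    rw [← Finset.prod_subtype (univ \ J) (p := fun i => i ∉ J) (f := fun i => ∑ p ∈ S, A i p)]
    intro i
    simp
  rw [e3, Finset.prod_univ_sum, Finset.mul_sum]
  refine Finset.sum_congr rfl fun a _ => ?_
  rw [Finset.sum_mul]

/-- **C1a.** `φ` is a condition on tuples which, for tuples with the coordinates outside of `J` in `V`,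
depends on the coordinates in `J` only; `A i` vanishes outside of `V`.

Proof. If `J` is everything the right side bounds the left side by the triangle inequality. If `V ∩ S = ∅` and
`J` is not everything, both `∏_{i ∉ J} A i (p i)` and one factor `∑_p A i p` vanish. Else fix `v0 ∈ V ∩ S` and
let `φ'(p) = φ(p with the coordinates outside J replaced by v0)`. Since `A i (p i) = 0` unless `p i ∈ V`,
the sum is `∑_{p} [φ'(p)] ∏_{i∉J} A i (p i) ∏_{i∈J} B i (p i)`, `φ'` depends on the coordinates in `J` only, so it is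
`(∏_{i ∉ J} ∑_p A i p) · ∑_{p on J} [φ'] ∏_{i∈J} B i (p i)` (`Equiv.piEquivPiSubtypeProd` /
`Fintype.piFinset` and `Finset.prod_univ_sum`; or induction over the elements outside of `J`:
summing over one coordinate `i0 ∉ J` at a time). The last sum is at most `∏_{i∈J} ∑_p ‖B i p‖`. -/
theorem C1a {k : ℕ} {ι : Type*} [DecidableEq ι] (S V : Finset ι) (φ : (Fin k → ι) → Prop)
    [DecidablePred φ] (A B : Fin k → ι → ℂ) (J : Finset (Fin k))
    (hA : ∀ i, ∀ p ∈ S, p ∉ V → A i p = 0)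
    (dep : ∀ p p' : Fin k → ι, (∀ i ∈ J, p i = p' i) → (∀ i, i ∉ J → p i ∈ V) →
      (∀ i, i ∉ J → p' i ∈ V) → (φ p ↔ φ p')) :
    ‖∑ p ∈ (Fintype.piFinset fun _ : Fin k => S).filter φ,
      (∏ i ∈ univ \ J, A i (p i)) * ∏ i ∈ J, B i (p i)‖ ≤
      (∏ i ∈ univ \ J, ‖∑ p ∈ S, A i p‖) * ∏ i ∈ J, ∑ p ∈ S, ‖B i p‖ := by
  classical
  by_cases hJ : ∃ i, i ∉ J
  swap
  · push Not at hJ
    have hJu : J = univ := Finset.eq_univ_iff_forall.mpr hJ
    subst hJu
    simp only [Finset.sdiff_self, Finset.prod_empty, one_mul]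
    refine (norm_sum_le _ _).trans ?_
    rw [Finset.prod_univ_sum]
    refine (Finset.sum_le_sum_of_subset_of_nonneg (Finset.filter_subset _ _)
      fun p _ _ => norm_nonneg _).trans ?_
    exact Finset.sum_le_sum fun p _ => le_of_eq (norm_prod _ _)
  · obtain ⟨i0, hi0⟩ := hJ
    have hR : 0 ≤ (∏ i ∈ univ \ J, ‖∑ p ∈ S, A i p‖) * ∏ i ∈ J, ∑ p ∈ S, ‖B i p‖ :=
      mul_nonneg (Finset.prod_nonneg fun _ _ => norm_nonneg _)
        (Finset.prod_nonneg fun _ _ => Finset.sum_nonneg fun _ _ => norm_nonneg _)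
    by_cases hVS : ∃ v0, v0 ∈ V ∧ v0 ∈ S
    swap
    · push Not at hVS
      rw [Finset.sum_eq_zero]
      · rw [norm_zero]; exact hR
      · intro p hp
        have hp1 := Fintype.mem_piFinset.mp (Finset.mem_filter.mp hp).1
        rw [Finset.prod_eq_zero (i := i0) (by simp [hi0]) (hA i0 (p i0) (hp1 i0) fun h => hVS _ h (hp1 i0)), zero_mul]
    · obtain ⟨v0, hv0, hv0S⟩ := hVS
      set c : (Fin k → ι) → ℂ := fun p =>
        if φ (fun i => if i ∈ J then p i else v0) then ∏ i ∈ J, B i (p i) else 0 with hc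
      have h1 : ∑ p ∈ (Fintype.piFinset fun _ : Fin k => S).filter φ,
          (∏ i ∈ univ \ J, A i (p i)) * ∏ i ∈ J, B i (p i) =
          ∑ p ∈ (Fintype.piFinset fun _ : Fin k => S), (∏ i ∈ univ \ J, A i (p i)) * c p := by
        rw [Finset.sum_filter]
        refine Finset.sum_congr rfl fun p hp => ?_
        have hp1 := Fintype.mem_piFinset.mp hp
        by_cases hpV : ∀ i, i ∉ J → p i ∈ V
        · have hd : φ p ↔ φ (fun i => if i ∈ J then p i else v0) := by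
            refine dep _ _ (fun i hi => by simp [hi]) hpV fun i hi => ?_
            simp [hi, hv0]
          simp only [hc]
          by_cases hφ : φ p
          · rw [if_pos hφ, if_pos (hd.mp hφ)]
          · rw [if_neg hφ, if_neg (fun h => hφ (hd.mpr h)), mul_zero]
        · push Not at hpV
          obtain ⟨i1, hi1, hi1V⟩ := hpV
          have h0 : ∏ i ∈ univ \ J, A i (p i) = 0 :=
            Finset.prod_eq_zero (i := i1) (by simp [hi1]) (hA i1 (p i1) (hp1 i1) hi1V)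
          rw [h0, zero_mul, zero_mul, ite_self]
      have hcc : ∀ p : Fin k → ι, c p = c (fun i => if i ∈ J then p i else v0) := by
        intro p
        simp only [hc]
        have e1 : (fun i => if i ∈ J then (if i ∈ J then p i else v0) else v0) = fun i => if i ∈ J then p i else v0 := by
          funext i
          by_cases h : i ∈ J <;> simp [h]
        rw [e1]
        have e2 : ∏ i ∈ J, B i (if i ∈ J then p i else v0) = ∏ i ∈ J, B i (p i) :=
          Finset.prod_congr rfl fun i hi => by rw [if_pos hi]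
        rw [e2]
      rw [h1, c1a_split S J A c v0 hcc, norm_mul, norm_prod]
      refine mul_le_mul_of_nonneg_left ?_ (Finset.prod_nonneg fun _ _ => norm_nonneg _)
      refine (norm_sum_le _ _).trans ?_
      have e3 : ∏ i ∈ J, ∑ p ∈ S, ‖B i p‖ = ∏ i : {i : Fin k // i ∈ J}, ∑ p ∈ S, ‖B i p‖ := by
        rw [← Finset.prod_subtype J (p := fun i => i ∈ J) (f := fun i => ∑ p ∈ S, ‖B i p‖)]
        intro i
        simp
      rw [e3, Finset.prod_univ_sum]
      refine Finset.sum_le_sum fun a _ => ?_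
      have e4 : ∏ i : {i : Fin k // i ∈ J}, ‖B i (a i)‖ =
          ‖∏ i ∈ J, B i ((fun i => if h : i ∈ J then a ⟨i, h⟩ else v0) i)‖ := by
        rw [norm_prod, ← Finset.prod_attach J]
        rw [Finset.univ_eq_attach]
        refine Finset.prod_congr rfl fun i _ => ?_
        simp only [i.2, dif_pos]
      rw [e4]
      simp only [hc]
      split_ifs
      · exact le_rfl
      · rw [norm_zero]; exact norm_nonneg _

end Pool.Agent.Lib.H59P
end

-- from Lib.H59P.C1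
section

/-!
# Project H59P, chunk C1
-/

open Finset

namespace Pool.Agent.Lib.H59P

open Pool.Agent.Lib.H68T Pool.Agent.Lib.H18Q

/-- **C1.** Proof. `∏ (A + B) = ∑_J ∏_{i∉J} A ∏_{i∈J} B` (`Finset.prod_add` with the roles of the two subsets).
For `J = ∅`: tuples not satisfying `φ` have a coordinate outside of `V` (`hV`), so the product of the `A`
vanishes, and the sum over all tuples is `∏_i ∑_p A i p`. For `J ≠ ∅` use `C1a`; the sum of the bounds over
all `J ≠ ∅` is `∏_i (‖∑ A‖ + ∑ ‖B‖) - ∏_i ‖∑ A‖`. -/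
theorem C1 {k : ℕ} {ι : Type*} [DecidableEq ι] (S V : Finset ι) (φ : (Fin k → ι) → Prop)
    [DecidablePred φ] (A B : Fin k → ι → ℂ)
    (hA : ∀ i, ∀ p ∈ S, p ∉ V → A i p = 0)
    (dep : ∀ (J : Finset (Fin k)) (p p' : Fin k → ι), (∀ i ∈ J, p i = p' i) →
      (∀ i, i ∉ J → p i ∈ V) → (∀ i, i ∉ J → p' i ∈ V) → (φ p ↔ φ p'))
    (hV : ∀ p : Fin k → ι, (∀ i, p i ∈ V) → φ p) :
    ‖∑ p ∈ (Fintype.piFinset fun _ : Fin k => S).filter φ, ∏ i, (A i (p i) + B i (p i)) -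
      ∏ i, ∑ p ∈ S, A i p‖ ≤
      ∏ i, (‖∑ p ∈ S, A i p‖ + ∑ p ∈ S, ‖B i p‖) - ∏ i, ‖∑ p ∈ S, A i p‖ := by
  classical
  set F : Finset (Fin k) → ℂ := fun J => ∑ p ∈ (Fintype.piFinset fun _ : Fin k => S).filter φ,
      (∏ i ∈ univ \ J, A i (p i)) * ∏ i ∈ J, B i (p i) with hF
  set G : Finset (Fin k) → ℝ := fun J =>
      (∏ i ∈ univ \ J, ‖∑ p ∈ S, A i p‖) * ∏ i ∈ J, ∑ p ∈ S, ‖B i p‖ with hG
  have h1 : ∑ p ∈ (Fintype.piFinset fun _ : Fin k => S).filter φ, ∏ i, (A i (p i) + B i (p i)) =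
      ∑ J ∈ (univ : Finset (Fin k)).powerset, F J := by
    simp only [hF]
    rw [Finset.sum_comm]
    refine Finset.sum_congr rfl fun p _ => ?_
    have : ∀ i, A i (p i) + B i (p i) = B i (p i) + A i (p i) := fun i => add_comm _ _
    simp only [this]
    rw [Finset.prod_add]
    refine Finset.sum_congr rfl fun J _ => mul_comm _ _
  have h2 : ∏ i, (‖∑ p ∈ S, A i p‖ + ∑ p ∈ S, ‖B i p‖) = ∑ J ∈ (univ : Finset (Fin k)).powerset, G J := by
    simp only [hG]
    have : ∀ i, ‖∑ p ∈ S, A i p‖ + ∑ p ∈ S, ‖B i p‖ = ∑ p ∈ S, ‖B i p‖ + ‖∑ p ∈ S, A i p‖ := fun i => add_comm _ _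
    simp only [this]
    rw [Finset.prod_add]
    refine Finset.sum_congr rfl fun J _ => mul_comm _ _
  have h3 : F ∅ = ∏ i, ∑ p ∈ S, A i p := by
    simp only [hF, Finset.sdiff_empty, Finset.prod_empty, mul_one]
    rw [Finset.prod_univ_sum, Finset.sum_filter]
    refine Finset.sum_congr rfl fun p hp => ?_
    by_cases hφ : φ p
    · rw [if_pos hφ]
    · rw [if_neg hφ]
      have : ∃ i, p i ∉ V := by
        by_contra h
        push Not at h
        exact hφ (hV p h)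
      obtain ⟨i, hi⟩ := this
      exact (Finset.prod_eq_zero (Finset.mem_univ i) (hA i (p i) (Fintype.mem_piFinset.mp hp i) hi)).symm
  have h4 : G ∅ = ∏ i, ‖∑ p ∈ S, A i p‖ := by
    simp only [hG, Finset.sdiff_empty, Finset.prod_empty, mul_one]
  have hmem : (∅ : Finset (Fin k)) ∈ (univ : Finset (Fin k)).powerset := Finset.empty_mem_powerset _
  rw [h1, h2, ← h3, ← h4, ← Finset.add_sum_erase _ F hmem, ← Finset.add_sum_erase _ G hmem, add_sub_cancel_left,
    add_sub_cancel_left]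
  refine (norm_sum_le _ _).trans (Finset.sum_le_sum fun J _ => ?_)
  exact C1a S V φ A B J hA (dep J)

end Pool.Agent.Lib.H59P
end

-- from Lib.H59P.C2
section

/-!
# Project H59P, chunk C2: the numerical inequality
-/

open Finset

namespace Pool.Agent.Lib.H59P

open Pool.Agent.Lib.H68T Pool.Agent.Lib.H18Q

/-- **C2.** Proof. `a_i + b_i ≤ a_i (1 + E0)` (`b_i ≤ η E0 ≤ a_i E0`), so the left side is at most
`((1+E0)^k - 1) ∏ a_i`, and `(1+E0)^k ≤ e^(k E0) ≤ e^(1/4) ≤ 3/2`. -/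
theorem C2 {k : ℕ} (a b : Fin k → ℝ) (η E0 : ℝ) (hη : 0 < η) (hE0 : 0 ≤ E0) (hE : 4 * k * E0 ≤ 1)
    (ha : ∀ i, η ≤ a i) (hb0 : ∀ i, 0 ≤ b i) (hb : ∀ i, b i ≤ η * E0) :
    ∏ i, (a i + b i) - ∏ i, a i ≤ 1 / 2 * ∏ i, a i := by
  have ha0 : ∀ i, 0 ≤ a i := fun i => hη.le.trans (ha i)
  have hP : 0 ≤ ∏ i, a i := Finset.prod_nonneg fun i _ => ha0 i
  have h1 : ∏ i, (a i + b i) ≤ ∏ i, (a i * (1 + E0)) := by
    refine Finset.prod_le_prod (fun i _ => add_nonneg (ha0 i) (hb0 i)) fun i _ => ?_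
    have := mul_le_mul_of_nonneg_right (ha i) hE0
    have := hb i
    linarith
  have h2 : ∏ i : Fin k, (a i * (1 + E0)) = (∏ i, a i) * (1 + E0) ^ k := by
    rw [Finset.prod_mul_distrib, Finset.prod_const, Finset.card_univ, Fintype.card_fin]
  have h3 : (1 + E0) ^ k ≤ 3 / 2 := by
    have e1 : (1 + E0) ^ k ≤ Real.exp E0 ^ k :=
      pow_le_pow_left₀ (by linarith) (by linarith [Real.add_one_le_exp E0]) k
    have e2 : Real.exp E0 ^ k = Real.exp (k * E0) := by rw [← Real.exp_nat_mul]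
    have e3 : Real.exp (k * E0) ≤ Real.exp (1 / 4) := Real.exp_le_exp.mpr (by linarith)
    have e4 : Real.exp (1 / 4) ≤ 3 / 2 := by
      have h := Real.exp_one_lt_d9
      have h5 : Real.exp (1 / 4) ^ 4 = Real.exp 1 := by
        rw [← Real.exp_nat_mul]; norm_num
      by_contra hcon
      push Not at hcon
      have h6 : (3 / 2 : ℝ) ^ 4 < Real.exp (1 / 4) ^ 4 := pow_lt_pow_left₀ hcon (by norm_num) (by norm_num)
      rw [h5] at h6
      norm_num at h6
      linarith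
    linarith [e1.trans (e2.le.trans (e3.trans e4))]
  rw [h2] at h1
  have h4 := mul_le_mul_of_nonneg_left h3 hP
  linarith

end Pool.Agent.Lib.H59P
end

-- from Lib.H59P.SDefs
section

/-!
# Project H59P, definitions for the second moments
-/

open Finset

namespace Pool.Agent.Lib.H59P

open Pool.Agent.Lib.H68T Pool.Agent.Lib.H18Q

noncomputable section

/-- The box `[0, X)^k`. -/
def bx (k X : ℕ) : Finset (Fin k → ℕ) := Fintype.piFinset fun _ : Fin k => range X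

/-- The correlation of the projections. -/
def Rs {k : ℕ} (Q X : ℕ) (h : Fin k → ℕ) : ℝ :=
  ∑ n ∈ Ico X (2 * X), ∏ i, Lk Q (X / Q ^ 2) ((n : ℤ) + h i)

/-- The base point of the cell of `m` for cells of length `H`. -/
def bs (H m : ℕ) : ℕ := m / H * H

/-- The correlation with coefficients frozen in cells of length `H` (`X = H q0`): for `n` in the cell
of `a = bs H n`, the coefficients are taken at `a + bs H (h_i)`. -/
def Rc {k : ℕ} (Q X H : ℕ) (B : ℤ → Ch → ℂ) (h : Fin k → ℕ) : ℂ :=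
  ∑ n ∈ Ico X (2 * X), ∏ i, SG Q (B (((bs H n + bs H (h i) : ℕ) : ℤ))) ((n : ℤ) + h i)

/-- Coefficients: total size at most `3`, slowly varying, and the projection is their sum. -/
structure Cf (Q X : ℕ) (B : ℤ → Ch → ℂ) (mb : Ch → ℝ) : Prop where
  nonneg : ∀ p ∈ PC Q, 0 ≤ mb p
  sum : ∑ p ∈ PC Q, mb p ≤ 3
  le : ∀ m : ℤ, (X : ℤ) ≤ m → m ≤ 4 * X → ∀ p ∈ PC Q, ‖B m p‖ ≤ mb p
  slow : ∀ m : ℤ, (X : ℤ) ≤ m → m + 1 ≤ 4 * X → ∀ p ∈ PC Q, ‖B (m + 1) p - B m p‖ ≤ 2 * (Q : ℝ) ^ 3 / X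
  eq : ∀ m : ℤ, (X : ℤ) ≤ m → m ≤ 4 * X → ((Lk Q (X / Q ^ 2) m : ℝ) : ℂ) = SG Q (B m) m

end

end Pool.Agent.Lib.H59P
end

-- from Lib.H59P.CF0
section

/-!
# Project H59P, chunk CF0: coefficients from the model
-/

open Finset

namespace Pool.Agent.Lib.H59P

open Pool.Agent.Lib.H68T Pool.Agent.Lib.H18Q

/-- **CF0.** From `Mdl` with `E0 ≤ 1`: the coefficients `B m p = MX px th m p + e m p` satisfy `Cf` with
`mb p = [p = p0] + [p = px, px ≠ p0] + eb p`.

Proof. `MX` is `1` at `p0`, `-th m` at `px` (`0 ≤ th m ≤ 1 - η ≤ 1`), `0` else, and varies by at most `Q^3/X`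
(`Mdl.slow`); `∑ eb ≤ η E0 ≤ 1` (`Finset.sum_ite_eq`). The remaining conclusions are `LevE`. -/
theorem CF0 (Q X : ℕ) (η E0 : ℝ) (px : Ch) (th : ℤ → ℝ) (hQ : 1 ≤ Q) (hM : Mdl Q X η E0 px th)
    (hE : E0 ≤ 1) :
    ∃ (e : ℤ → Ch → ℂ) (eb mb : Ch → ℝ), (∀ p ∈ PC Q, 0 ≤ eb p) ∧ ∑ p ∈ PC Q, eb p ≤ η * E0 ∧
      (∀ m : ℤ, (X : ℤ) ≤ m → m ≤ 4 * X → ∀ p ∈ PC Q, ‖e m p‖ ≤ eb p) ∧
      Cf Q X (fun m p => MX px th m p + e m p) mb := by
  classical
  have hQ0 : (0 : ℝ) ≤ (Q : ℝ) ^ 3 := by positivity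
  obtain ⟨e, eb, heb0, hebs, hlev⟩ := hM.lev
  have hE1 : ∑ p ∈ PC Q, eb p ≤ 1 := by
    refine hebs.trans ?_
    have h1 := hM.eta_pos
    have h2 := hM.eta_le
    nlinarith
  let ma : Ch → ℝ := fun p => (if p = p0 then 1 else if p = px then 1 else 0)
  have hma0 : ∀ p, 0 ≤ ma p := by
    intro p
    change 0 ≤ (if p = p0 then (1 : ℝ) else if p = px then 1 else 0)
    split_ifs <;> norm_num
  have hMXn : ∀ m : ℤ, (X : ℤ) ≤ m → m ≤ 4 * X → ∀ p, ‖MX px th m p‖ ≤ ma p := by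
    intro m h1 h2 p
    change ‖MX px th m p‖ ≤ (if p = p0 then (1 : ℝ) else if p = px then 1 else 0)
    unfold MX
    split_ifs with h3 h4
    · simp
    · rw [norm_neg, Complex.norm_real, Real.norm_eq_abs, abs_of_nonneg (hM.nonneg m h1 h2)]
      linarith [hM.le m h1 h2, hM.eta_pos]
    · simp
  have hXm : ∀ m : ℤ, (X : ℤ) ≤ m → m + 1 ≤ 4 * X → ∀ p,
      ‖MX px th (m + 1) p - MX px th m p‖ ≤ (Q : ℝ) ^ 3 / X := by
    intro m h1 h2 p
    have h0 : (0 : ℝ) ≤ (Q : ℝ) ^ 3 / X := div_nonneg hQ0 (Nat.cast_nonneg X)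
    unfold MX
    split_ifs with h3 h4
    · simpa using h0
    · have h5 := hM.slow m h1 h2
      rw [neg_sub_neg, ← Complex.ofReal_sub, Complex.norm_real, Real.norm_eq_abs, abs_sub_comm]
      exact h5
    · simpa using h0
  refine ⟨e, eb, fun p => ma p + eb p, heb0, hebs, fun m h1 h2 p hp => ((hlev m h1 h2).2 p hp).1, ?_⟩
  refine ⟨fun p hp => add_nonneg (hma0 p) (heb0 p hp), ?_, ?_, ?_, ?_⟩
  · rw [Finset.sum_add_distrib]
    have h1 : ∑ p ∈ PC Q, ma p ≤ 2 := by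
      have h2 : ∀ p, ma p ≤ (if p = p0 then (1 : ℝ) else 0) + (if p = px then (1 : ℝ) else 0) := by
        intro p
        change (if p = p0 then (1 : ℝ) else if p = px then 1 else 0) ≤ _
        split_ifs <;> norm_num
      refine (Finset.sum_le_sum fun p _ => h2 p).trans ?_
      rw [Finset.sum_add_distrib, Finset.sum_ite_eq', Finset.sum_ite_eq']
      split_ifs <;> norm_num
    linarith
  · intro m h1 h2 p hp
    exact (norm_add_le _ _).trans (add_le_add (hMXn m h1 h2 p) ((hlev m h1 h2).2 p hp).1)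
  · intro m h1 h2 p hp
    have h3 := hXm m h1 h2 p
    have h4 := ((hlev m h1 (by omega)).2 p hp).2
    have h5 : MX px th (m + 1) p + e (m + 1) p - (MX px th m p + e m p) =
        (MX px th (m + 1) p - MX px th m p) + (e (m + 1) p - e m p) := by ring
    rw [h5]
    refine (norm_add_le _ _).trans ?_
    have h6 : 2 * (Q : ℝ) ^ 3 / X = (Q : ℝ) ^ 3 / X + (Q : ℝ) ^ 3 / X := by ring
    rw [h6]
    exact add_le_add h3 h4
  · intro m h1 h2
    exact (hlev m h1 h2).1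

end Pool.Agent.Lib.H59P
end

-- from Lib.H59P.S3
section

/-!
# Project H59P, chunk S3: telescoping
-/

open Finset

namespace Pool.Agent.Lib.H59P

open Pool.Agent.Lib.H68T Pool.Agent.Lib.H18Q

/-- Telescoping of a difference of products over `Fin k`.

Proof. Induction on `k` (`Fin.prod_univ_castSucc` or `Fin.prod_univ_succ`), or
`Finset.prod_range`-telescoping: `T_j = ∏_{i<j} b_i ∏_{i≥j} a_i`, `T_0 = ∏ a`, `T_k = ∏ b`. -/
theorem S3 {k : ℕ} (a b : Fin k → ℝ) :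
    ∏ i, a i - ∏ i, b i =
      ∑ j, ∏ i, (if i < j then b i else if i = j then a i - b i else a i) := by
  induction k with
  | zero => simp
  | succ k ih =>
    rw [Fin.sum_univ_succ, Fin.prod_univ_succ a, Fin.prod_univ_succ b]
    have h0 : ∏ i : Fin (k + 1), (if i < 0 then b i else if i = 0 then a i - b i else a i) =
        (a 0 - b 0) * ∏ i : Fin k, a i.succ := by
      rw [Fin.prod_univ_succ]
      simp [Fin.succ_ne_zero]
    have h1 : ∀ j : Fin k, ∏ i : Fin (k + 1),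
        (if i < j.succ then b i else if i = j.succ then a i - b i else a i) =
        b 0 * ∏ i : Fin k, (if i < j then b i.succ else if i = j then a i.succ - b i.succ
          else a i.succ) := by
      intro j
      rw [Fin.prod_univ_succ]
      simp only [Fin.succ_pos, if_true, Fin.succ_lt_succ_iff, Fin.succ_inj]
    rw [h0, Finset.sum_congr rfl fun j _ => h1 j, ← Finset.mul_sum,
      ← ih (fun i => a i.succ) (fun i => b i.succ)]
    ring

end Pool.Agent.Lib.H59P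
end

-- from Lib.H59P.S0A
section

/-!
# Project H59P, chunk S0a
-/

open Finset

namespace Pool.Agent.Lib.H59P

open Pool.Agent.Lib.H68T Pool.Agent.Lib.H18Q

/-- **S0a.** Second moment over the box of a sum of products.

Proof. Square out, `Finset.sum_comm`; `∏_i f_i(n+h_i) f_i(n'+h_i)`, `Finset.prod_univ_sum` (the sum over
`piFinset` of a product is the product of the sums). -/
theorem S0a {k : ℕ} (X : ℕ) (I : Finset ℕ) (f : Fin k → ℤ → ℝ) :
    ∑ h ∈ bx k X, (∑ n ∈ I, ∏ i, f i ((n : ℤ) + h i)) ^ 2 =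
      ∑ n ∈ I, ∑ n' ∈ I, ∏ i, ∑ s ∈ range X, f i ((n : ℤ) + s) * f i ((n' : ℤ) + s) := by
  have h1 : ∀ h : Fin k → ℕ, (∑ n ∈ I, ∏ i, f i ((n : ℤ) + h i)) ^ 2 =
      ∑ n ∈ I, ∑ n' ∈ I, ∏ i, (f i ((n : ℤ) + h i) * f i ((n' : ℤ) + h i)) := by
    intro h
    rw [sq, Finset.sum_mul_sum]
    refine Finset.sum_congr rfl fun n _ => Finset.sum_congr rfl fun n' _ => ?_
    rw [Finset.prod_mul_distrib]
  rw [Finset.sum_congr rfl fun h _ => h1 h, Finset.sum_comm]
  refine Finset.sum_congr rfl fun n _ => ?_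
  rw [Finset.sum_comm]
  refine Finset.sum_congr rfl fun n' _ => ?_
  rw [Finset.prod_univ_sum]
  rfl

end Pool.Agent.Lib.H59P
end

-- from Lib.H59P.S0B
section

/-!
# Project H59P, chunk S0b
-/

open Finset

namespace Pool.Agent.Lib.H59P

open Pool.Agent.Lib.H68T Pool.Agent.Lib.H18Q

theorem s0b_aux (X : ℕ) (a b : ℕ → ℝ) (W : ℝ) (ha : ∑ s ∈ range X, a s ^ 2 ≤ W)
    (hb : ∑ s ∈ range X, b s ^ 2 ≤ W) : |∑ s ∈ range X, a s * b s| ≤ W := by
  have h0 : 0 ≤ W := le_trans (Finset.sum_nonneg fun s _ => sq_nonneg (a s)) ha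
  have h1 := Finset.sum_mul_sq_le_sq_mul_sq (range X) a b
  refine abs_le_of_sq_le_sq ?_ h0
  calc (∑ s ∈ range X, a s * b s) ^ 2 ≤ (∑ s ∈ range X, a s ^ 2) * ∑ s ∈ range X, b s ^ 2 := h1
    _ ≤ W * W := mul_le_mul ha hb (Finset.sum_nonneg fun s _ => sq_nonneg (b s)) h0
    _ = W ^ 2 := (sq W).symm

/-- **S0b.** Crude bound: if all mean squares `∑_{s<X} f_i(n+s)²`, `n ∈ I`, are at most `W i`.

Proof. `S0a`, Cauchy-Schwarz for each factor (`Finset.sum_mul_sq_le_sq_mul_sq` or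
`Finset.inner_mul_le_norm_mul_norm`): `|∑_s f_i(n+s) f_i(n'+s)| ≤ W i`. -/
theorem S0b {k : ℕ} (X : ℕ) (I : Finset ℕ) (f : Fin k → ℤ → ℝ) (W : Fin k → ℝ)
    (hW : ∀ i, ∀ n ∈ I, ∑ s ∈ range X, f i ((n : ℤ) + s) ^ 2 ≤ W i) :
    ∑ h ∈ bx k X, (∑ n ∈ I, ∏ i, f i ((n : ℤ) + h i)) ^ 2 ≤ (I.card : ℝ) ^ 2 * ∏ i, W i := by
  rw [S0a]
  calc ∑ n ∈ I, ∑ n' ∈ I, ∏ i, ∑ s ∈ range X, f i ((n : ℤ) + s) * f i ((n' : ℤ) + s)
      ≤ ∑ n ∈ I, ∑ n' ∈ I, ∏ i, W i := by
        refine Finset.sum_le_sum fun n hn => Finset.sum_le_sum fun n' hn' => ?_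
        refine (le_abs_self _).trans ?_
        rw [Finset.abs_prod]
        exact Finset.prod_le_prod (fun i _ => abs_nonneg _) fun i _ =>
          s0b_aux X (fun s => f i ((n : ℤ) + s)) (fun s => f i ((n' : ℤ) + s)) (W i)
            (hW i n hn) (hW i n' hn')
    _ = (I.card : ℝ) ^ 2 * ∏ i, W i := by
        rw [Finset.sum_const, Finset.sum_const, nsmul_eq_mul, nsmul_eq_mul]
        ring

end Pool.Agent.Lib.H59P
end

-- from Lib.H59P.S0
section

/-!
# Project H59P, chunk S0c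
-/

open Finset

namespace Pool.Agent.Lib.H59P

open Pool.Agent.Lib.H68T Pool.Agent.Lib.H18Q

/-- **S0c.** The same, one factor `j` being used through its correlations.

Proof. `S0a`; all factors but the `j`-th are at most `W i` in absolute value, so the sum is at most
`∏_{i≠j} W i ∑_{n,n'} |A_j(n,n')|`, and `∑_{n,n'} |A_j| ≤ |I| (∑ A_j²)^{1/2}` (Cauchy-Schwarz). -/
theorem S0c {k : ℕ} (X : ℕ) (I : Finset ℕ) (f : Fin k → ℤ → ℝ) (W : Fin k → ℝ) (j : Fin k)
    (hW : ∀ i, ∀ n ∈ I, ∑ s ∈ range X, f i ((n : ℤ) + s) ^ 2 ≤ W i) (V : ℝ) (hV : 0 ≤ V)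
    (hj : ∑ n ∈ I, ∑ n' ∈ I, (∑ s ∈ range X, f j ((n : ℤ) + s) * f j ((n' : ℤ) + s)) ^ 2 ≤ V ^ 2) :
    ∑ h ∈ bx k X, (∑ n ∈ I, ∏ i, f i ((n : ℤ) + h i)) ^ 2 ≤
      (I.card : ℝ) * V * ∏ i ∈ univ.erase j, W i := by
  rw [S0a]
  rcases I.eq_empty_or_nonempty with rfl | ⟨n0, hn0⟩
  · simp
  have hW0 : ∀ i, 0 ≤ W i := fun i => le_trans (sum_nonneg fun s _ => sq_nonneg _) (hW i n0 hn0)
  set A : Fin k → ℕ → ℕ → ℝ := fun i n n' => ∑ s ∈ range X, f i ((n : ℤ) + s) * f i ((n' : ℤ) + s) with hA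
  have hAW : ∀ i, ∀ n ∈ I, ∀ n' ∈ I, |A i n n'| ≤ W i := by
    intro i n hn n' hn'
    apply abs_le_of_sq_le_sq _ (hW0 i)
    calc A i n n' ^ 2 ≤ (∑ s ∈ range X, f i ((n : ℤ) + s) ^ 2) * ∑ s ∈ range X, f i ((n' : ℤ) + s) ^ 2 :=
          sum_mul_sq_le_sq_mul_sq _ _ _
      _ ≤ W i * W i := mul_le_mul (hW i n hn) (hW i n' hn') (sum_nonneg fun s _ => sq_nonneg _) (hW0 i)
      _ = W i ^ 2 := by ring
  have hP : 0 ≤ ∏ i ∈ univ.erase j, W i := prod_nonneg fun i _ => hW0 i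
  have h1 : ∀ n ∈ I, ∀ n' ∈ I, ∏ i, A i n n' ≤ |A j n n'| * ∏ i ∈ univ.erase j, W i := by
    intro n hn n' hn'
    calc ∏ i, A i n n' ≤ |∏ i, A i n n'| := le_abs_self _
      _ = ∏ i, |A i n n'| := abs_prod _ _
      _ = |A j n n'| * ∏ i ∈ univ.erase j, |A i n n'| := (mul_prod_erase univ _ (mem_univ j)).symm
      _ ≤ |A j n n'| * ∏ i ∈ univ.erase j, W i :=
          mul_le_mul_of_nonneg_left (prod_le_prod (fun i _ => abs_nonneg _) fun i _ => hAW i n hn n' hn')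
            (abs_nonneg _)
  have h2 : ∑ n ∈ I, ∑ n' ∈ I, |A j n n'| ≤ (I.card : ℝ) * V := by
    apply le_of_sq_le_sq _ (mul_nonneg (Nat.cast_nonneg _) hV)
    rw [← sum_product']
    calc (∑ p ∈ I ×ˢ I, |A j p.1 p.2|) ^ 2 ≤ ((I ×ˢ I).card : ℝ) * ∑ p ∈ I ×ˢ I, |A j p.1 p.2| ^ 2 :=
          sq_sum_le_card_mul_sum_sq
      _ = (I.card : ℝ) ^ 2 * ∑ n ∈ I, ∑ n' ∈ I, (A j n n') ^ 2 := by
          rw [card_product, sum_product]
          simp only [sq_abs]
          push_cast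
          ring
      _ ≤ (I.card : ℝ) ^ 2 * V ^ 2 := mul_le_mul_of_nonneg_left hj (sq_nonneg _)
      _ = ((I.card : ℝ) * V) ^ 2 := by ring
  calc ∑ n ∈ I, ∑ n' ∈ I, ∏ i, A i n n'
      ≤ ∑ n ∈ I, ∑ n' ∈ I, |A j n n'| * ∏ i ∈ univ.erase j, W i :=
        sum_le_sum fun n hn => sum_le_sum fun n' hn' => h1 n hn n' hn'
    _ = (∑ n ∈ I, ∑ n' ∈ I, |A j n n'|) * ∏ i ∈ univ.erase j, W i := by
        simp only [sum_mul]
    _ ≤ (I.card : ℝ) * V * ∏ i ∈ univ.erase j, W i := mul_le_mul_of_nonneg_right h2 hP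

end Pool.Agent.Lib.H59P
end

-- from Lib.H59P.ZDefs
section

/-!
# Project H59P, definitions for the assembly
-/

open Finset

namespace Pool.Agent.Lib.H59P

open Pool.Agent.Lib.H68T Pool.Agent.Lib.H18Q

noncomputable section

/-- The main term of the cell with coefficients `c`: `∑_{p ∈ TS} ∏ c_i(p_i) (MR p R h) ∑_{d ∈ SF (D/R) R} td d h`,
`D = √Q`, `D1 = √D`. -/
def MC {k : ℕ} (Q : ℕ) (px : Ch) (c : Fin k → Ch → ℂ) (h : Fin k → ℕ) : ℂ :=
  ∑ p ∈ TS k Q (Nat.sqrt (Nat.sqrt Q)) px, (∏ i, c i (p i)) *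
    (MR p (Rp px p) h * ((∑ d ∈ SF (Nat.sqrt Q / Rp px p) (Rp px p), td d h : ℝ) : ℂ))

/-- The total main term: the sum over the `Q^8` cells of `n`. -/
def MT {k : ℕ} (Q X H : ℕ) (px : Ch) (B : ℤ → Ch → ℂ) (h : Fin k → ℕ) : ℂ :=
  ∑ j ∈ range (Q ^ 8), (H : ℂ) *
    MC Q px (fun i => B (((X + j * H + bs H (h i) : ℕ) : ℤ))) h

/-- The conclusion of module F (chunk F_main). -/
def FMain : Prop := ∃ C K : ℝ, 1 ≤ C ∧ 1 ≤ K ∧ ∀ (k Q X H D : ℕ), RegP K Q X → Q ^ 4 ≤ H → H ≤ X →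
  1 ≤ D → D ≤ Q → ∀ (p : Fin k → Ch), (∀ i, p i ∈ PC Q) → ∀ (a : ℕ) (b : Fin k → ℕ)
    (T : Finset (Fin k → ℕ)), T ⊆ Fintype.piFinset (fun i => KS Q (p i).1) →
    (∀ κ ∈ T, D < univ.lcm (fun i => (p i).1 * κ i)) →
    ∑ h ∈ cube b H, ‖∑ n ∈ Ico a (a + H), ∑ κ ∈ T, ∏ i, gk (p i) (κ i) ((n : ℤ) + h i)‖ ^ 2 ≤
      (Real.log X) ^ (C * k) * (H : ℝ) ^ (k + 2) * (D : ℝ) ^ (-(1 / 2) : ℝ)

/-- The conclusion of module T (truncation of the singular series). -/
def TMain : Prop := ∀ δ : ℝ, 0 < δ → δ < 1 → ∃ ε : ℝ, 0 < ε ∧ ε ≤ 1 ∧ ∃ X0 : ℕ, ∀ (k Q X : ℕ), X0 ≤ X → 1 ≤ k →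
  (k : ℝ) ≤ (Real.log X) ^ (1 - δ) → (Real.log X) ^ (1 - δ / 8) ≤ Real.log Q → Q ≤ X →
  ∃ Bad : Finset (Fin k → ℕ), Bad ⊆ bx k X ∧ (Bad.card : ℝ) ≤ (X : ℝ) ^ k * (Q : ℝ) ^ (-ε) ∧
    ∀ h ∈ bx k X, h ∉ Bad → Function.Injective h ∧ ∀ (R E : ℕ), (Q : ℝ) ^ (1 / 5 : ℝ) ≤ E → E ≤ Q →
      |∑ d ∈ SF E R, td d h - SS ((pr Q).filter (fun l => ¬ l ∣ R)) h| ≤ (Q : ℝ) ^ (-ε)

end

end Pool.Agent.Lib.H59P
end

-- from Lib.H68T.BA2
section

/-!
# Chunk BA2; part of BA: primes in a class modulo `W`: mean and pair correlations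
-/

open Finset

namespace Pool.Agent.Lib.H68T




theorem BA2_lp_bounds (m : ℤ) (Z : ℝ) (hm : 1 ≤ m) (hZ : (m : ℝ) ≤ Z) :
    0 ≤ lp m ∧ lp m ≤ Real.log Z := by
  have h1 : (1 : ℝ) ≤ m := by exact_mod_cast hm
  have h2 : 0 ≤ Real.log m := Real.log_nonneg h1
  have h3 : Real.log m ≤ Real.log Z := Real.log_le_log (by linarith) hZ
  unfold lp
  split_ifs
  · exact ⟨h2, h3⟩
  · exact ⟨le_refl _, h2.trans h3⟩


end Pool.Agent.Lib.H68T
end
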