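import Pool.Agent.Lib.H59M.M1.M047
import Pool.Agent.Lib.H59M.M1.M056

/-! Merged copies (to shorten the build) of Lib.H59P.A1, Lib.H59P.A2, Lib.H59P.A3, Lib.H59P.A4. -/

-- from Lib.H59P.A1
section

/-!
# Project H59P, module A, file A1: the sum over the zeros, quantitative in `log X / log Q`
-/

open Finset

namespace Pool.Agent.Lib.H59P

open Pool.Agent.Lib.H68T Pool.Agent.Lib.H18Q

/-- Port of `zero_sum` (`H18Q/PD.lean`): the parameter `K` may grow with `X`; only `K log Q ≤ log X`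
is used. -/
theorem zero_sum_q (C0 : ℝ) (h0 : 1 ≤ C0) : ∃ C K0 : ℝ, 1 ≤ C ∧ 1 ≤ K0 ∧ ∀ K : ℝ, K0 ≤ K →
    ∀ Q X : ℕ, RegP K0 Q X → K * Real.log Q ≤ Real.log X →
    ∀ g : (Σ r : ℕ, DirichletCharacter ℂ r) → ℂ → ℂ, Fam C0 Q g →
    ∀ z : ℝ, (∀ p ∈ PC Q, ∀ ρ : ℂ, g p ρ = 0 → |ρ.im| ≤ (Q : ℝ) ^ 8 →
      z / Real.log Q ≤ 1 - ρ.re) →
    ∑ p ∈ PC Q, ∑ ρ ∈ ZR (g p) (1 - 1 / 8) ((Q : ℝ) ^ 8), (od (g p) ρ : ℝ) *
      (1 / (1 + 64 * (1 - ρ.re))) ^ kX X ≤ C * Real.exp (-(K / 16 * z)) + (Q : ℝ) ^ (-6 : ℝ) := by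
  obtain ⟨C, θ, K1, hC, hθ, HD⟩ := zero_density
  obtain ⟨K2, HC⟩ := zero_crude
  obtain ⟨C4, K4, h4, H4⟩ := LDat_Lp
  obtain ⟨θ', hθ'0, hθ'1, hθ'2⟩ : ∃ θ' : ℝ, 0 < θ' ∧ θ' ≤ θ / 2 ∧ θ' ≤ 1 / 64 :=
    ⟨min (θ / 2) (1 / 64), lt_min (by linarith) (by norm_num), min_le_left _ _, min_le_right _ _⟩
  obtain ⟨K0, hK0a, hK0b, hK0c, hK0d, hK0e, hK0f, hK0g⟩ : ∃ K0 : ℝ, 14 ≤ K0 ∧ 8 * (C + 1) ≤ K0 ∧
      1700 / (32 * θ') ≤ K0 ∧ K1 ≤ K0 ∧ K2 ≤ K0 ∧ K4 ≤ K0 ∧ 2 / θ ≤ K0 := by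
    refine ⟨14 + 8 * (C + 1) + 1700 / (32 * θ') + |K1| + |K2| + |K4| + 2 / θ, ?_, ?_, ?_, ?_, ?_, ?_, ?_⟩ <;>
    · have e1 : 0 < 1700 / (32 * θ') := by positivity
      have e2 : 0 < 2 / θ := by positivity
      have e3 := abs_nonneg K1
      have e4 := abs_nonneg K2
      have e5 := abs_nonneg K4
      have e6 := le_abs_self K1
      have e7 := le_abs_self K2
      have e8 := le_abs_self K4
      linarith
  refine ⟨2 * C * Real.exp C, K0, ?_, by linarith, ?_⟩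
  · have := Real.add_one_le_exp C
    nlinarith
  intro K hK Q X hR hkp g hg z hz
  have hK1 : 1 ≤ K0 := by linarith
  have hKp : 0 < K := by linarith
  have hLK : K0 ≤ Real.log Q := hR.logQ_ge hK1
  have hQK : K0 ≤ (Q : ℝ) := hR.Q_ge hK1
  obtain ⟨L, hL⟩ : ∃ L, L = Real.log Q := ⟨_, rfl⟩
  rw [← hL] at hLK
  have hL0 : 0 < L := by linarith
  have hQ0 : (0 : ℝ) < Q := by linarith
  have hQL : (Q : ℝ) = Real.exp L := by rw [hL, Real.exp_log hQ0]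
  -- k
  have hk : K * L / 100 ≤ (kX X : ℝ) := by
    unfold kX
    have h1 := Nat.lt_floor_add_one (Real.log X / 64)
    have h2 := hkp
    rw [← hL] at h2
    have h3 : 14 * 14 ≤ K * L := by nlinarith
    linarith
  have hθK : 17 ≤ 32 * θ' * K / 100 := by
    have h1 : 1700 / (32 * θ') ≤ K := by linarith
    rw [div_le_iff₀ (by positivity)] at h1
    linarith
  have hdatg : ∀ p ∈ PC Q, ∀ ρ, ρ ∈ ZR (g p) (1 - 1 / 8) ((Q : ℝ) ^ 8) ↔
      g p ρ = 0 ∧ 1 - 1 / 8 ≤ ρ.re ∧ ρ.re ≤ 1 ∧ |ρ.im| ≤ (Q : ℝ) ^ 8 := by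
    intro p hp ρ
    exact mem_ZR (hg.dat p hp).diff (pd_ne (hg.dat p hp))
  have hdatL : ∀ p ∈ PC Q, ∀ σ : ℝ, ∀ ρ, ρ ∈ ZR (Lp p) σ ((Q : ℝ) ^ 8) ↔
      Lp p ρ = 0 ∧ σ ≤ ρ.re ∧ ρ.re ≤ 1 ∧ |ρ.im| ≤ (Q : ℝ) ^ 8 := by
    intro p hp σ ρ
    have h5 := H4 Q (by linarith) p hp
    exact mem_ZR h5.diff (pd_ne h5)
  obtain ⟨J, hJ⟩ : ∃ J : ℕ, J = ⌊θ' * L⌋₊ + 1 := ⟨_, rfl⟩
  -- the pointwise bound
  have hpt : ∀ p ∈ PC Q, ∀ ρ ∈ ZR (g p) (1 - 1 / 8) ((Q : ℝ) ^ 8),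
      (1 / (1 + 64 * (1 - ρ.re))) ^ kX X ≤ Real.exp (-(17 * L)) +
        Real.exp (-(K / 16 * z)) * ∑ j ∈ Finset.range J,
          (if (1 - ρ.re) * L < j + 1 then Real.exp (-(K / 8 * j)) else 0) := by
    intro p hp ρ hρ
    obtain ⟨h1, h2, h3, h5⟩ := (hdatg p hp ρ).1 hρ
    have hzρ := hz p hp ρ h1 h5
    obtain ⟨δ, hδ⟩ : ∃ δ, δ = 1 - ρ.re := ⟨_, rfl⟩
    rw [← hδ] at hzρ ⊢
    have hδ0 : 0 ≤ δ := by linarith
    have hsum0 : 0 ≤ ∑ j ∈ Finset.range J,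
        (if δ * L < j + 1 then Real.exp (-(K / 8 * j)) else 0) := by
      apply Finset.sum_nonneg
      intro j _
      split_ifs
      · exact (Real.exp_pos _).le
      · exact le_refl _
    by_cases hc : θ' ≤ δ
    · have h6 : (1 / (1 + 64 * δ)) ^ kX X ≤ (1 / (1 + 64 * θ')) ^ kX X := by
        apply pow_le_pow_left₀ (by positivity)
        apply one_div_le_one_div_of_le (by positivity)
        linarith
      have h7 := pd_pow (x := 64 * θ') (by positivity) (by linarith) (kX X)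
      have h8 : Real.exp (-(64 * θ' / 2 * (kX X : ℝ))) ≤ Real.exp (-(17 * L)) := by
        apply Real.exp_le_exp.2
        have h9 : 32 * θ' * (K * L / 100) ≤ 32 * θ' * (kX X : ℝ) :=
          mul_le_mul_of_nonneg_left hk (by positivity)
        have h10 : 17 * L ≤ 32 * θ' * K / 100 * L := mul_le_mul_of_nonneg_right hθK hL0.le
        have h11 : 32 * θ' * K / 100 * L = 32 * θ' * (K * L / 100) := by ring
        have h12 : 64 * θ' / 2 * (kX X : ℝ) = 32 * θ' * (kX X : ℝ) := by ring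
        linarith
      have h9 := mul_nonneg (Real.exp_pos (-(K / 16 * z))).le hsum0
      linarith
    · push Not at hc
      have h6 := pd_pow (x := 64 * δ) (by positivity) (by linarith) (kX X)
      have hy0 : 0 ≤ δ * L := by positivity
      have hzy : z ≤ δ * L := by
        rw [← hL, div_le_iff₀ hL0] at hzρ
        exact hzρ
      have h7 : Real.exp (-(64 * δ / 2 * (kX X : ℝ))) ≤
          Real.exp (-(K / 16 * z)) * Real.exp (-(K / 8 * (δ * L))) := by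
        rw [← Real.exp_add]
        apply Real.exp_le_exp.2
        have h8 : 32 * δ * (K * L / 100) ≤ 32 * δ * (kX X : ℝ) :=
          mul_le_mul_of_nonneg_left hk (by positivity)
        have h9 : K / 16 * z ≤ K / 16 * (δ * L) := mul_le_mul_of_nonneg_left hzy (by positivity)
        have h10 : 0 ≤ K * (δ * L) := by positivity
        have h11 : 32 * δ * (K * L / 100) = 32 / 100 * (K * (δ * L)) := by ring
        have h12 : 64 * δ / 2 * (kX X : ℝ) = 32 * δ * (kX X : ℝ) := by ring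
        have h13 : K / 16 * (δ * L) = 1 / 16 * (K * (δ * L)) := by ring
        have h14 : K / 8 * (δ * L) = 1 / 8 * (K * (δ * L)) := by ring
        linarith
      have hjJ : ⌊δ * L⌋₊ ∈ Finset.range J := by
        rw [Finset.mem_range, hJ]
        have : ⌊δ * L⌋₊ ≤ ⌊θ' * L⌋₊ := Nat.floor_le_floor (mul_le_mul_of_nonneg_right hc.le hL0.le)
        omega
      have h8 : Real.exp (-(K / 8 * (δ * L))) ≤ ∑ j ∈ Finset.range J,
          (if δ * L < j + 1 then Real.exp (-(K / 8 * j)) else 0) := by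
        have h9 : (if δ * L < (⌊δ * L⌋₊ : ℝ) + 1 then Real.exp (-(K / 8 * (⌊δ * L⌋₊ : ℝ))) else 0) ≤
            ∑ j ∈ Finset.range J, (if δ * L < j + 1 then Real.exp (-(K / 8 * j)) else 0) := by
          refine Finset.single_le_sum
            (f := fun j : ℕ => if δ * L < (j : ℝ) + 1 then Real.exp (-(K / 8 * (j : ℝ))) else 0) ?_ hjJ
          intro j _
          split_ifs
          · exact (Real.exp_pos _).le
          · exact le_refl _
        rw [if_pos (Nat.lt_floor_add_one _)] at h9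
        refine le_trans (Real.exp_le_exp.2 ?_) h9
        have h10 := Nat.floor_le hy0
        have h11 : K / 8 * (⌊δ * L⌋₊ : ℝ) ≤ K / 8 * (δ * L) := mul_le_mul_of_nonneg_left h10 (by positivity)
        linarith
      have h9 := mul_le_mul_of_nonneg_left h8 (Real.exp_pos (-(K / 16 * z))).le
      have h10 := (Real.exp_pos (-(17 * L))).le
      linarith
  -- summation
  have hsum1 : ∑ p ∈ PC Q, ∑ ρ ∈ ZR (g p) (1 - 1 / 8) ((Q : ℝ) ^ 8), (od (g p) ρ : ℝ) *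
      (1 / (1 + 64 * (1 - ρ.re))) ^ kX X ≤
      ∑ p ∈ PC Q, ∑ ρ ∈ ZR (g p) (1 - 1 / 8) ((Q : ℝ) ^ 8), ((od (g p) ρ : ℝ) * Real.exp (-(17 * L)) +
        Real.exp (-(K / 16 * z)) * ∑ j ∈ Finset.range J, Real.exp (-(K / 8 * j)) *
          (if (1 - ρ.re) * L < j + 1 then (od (g p) ρ : ℝ) else 0)) := by
    refine Finset.sum_le_sum fun p hp => Finset.sum_le_sum fun ρ hρ => ?_
    refine (mul_le_mul_of_nonneg_left (hpt p hp ρ hρ) (Nat.cast_nonneg _)).trans (le_of_eq ?_)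
    rw [mul_add, mul_left_comm]
    congr 2
    rw [Finset.mul_sum]
    refine Finset.sum_congr rfl fun j _ => ?_
    split_ifs
    · ring
    · simp
  refine hsum1.trans ?_
  have hsub : ∀ p ∈ PC Q, ∀ σ : ℝ, ∀ R : Finset ℂ, (∀ ρ ∈ R, g p ρ = 0 ∧ σ ≤ ρ.re ∧ ρ.re ≤ 1 ∧
      |ρ.im| ≤ (Q : ℝ) ^ 8) → ∑ ρ ∈ R, (od (g p) ρ : ℝ) ≤
        ∑ ρ ∈ ZR (Lp p) σ ((Q : ℝ) ^ 8), (od (Lp p) ρ : ℝ) := by
    intro p hp σ R hR'
    calc ∑ ρ ∈ R, (od (g p) ρ : ℝ) ≤ ∑ ρ ∈ R, (od (Lp p) ρ : ℝ) :=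
          Finset.sum_le_sum fun ρ _ => by exact_mod_cast hg.ord p hp ρ
      _ ≤ _ := by
          apply Finset.sum_le_sum_of_subset_of_nonneg
          · intro ρ hρ
            obtain ⟨h1, h2⟩ := hR' ρ hρ
            exact (hdatL p hp σ ρ).2 ⟨hg.zer p hp ρ h1, h2⟩
          · intro ρ _ _
            exact Nat.cast_nonneg _
  have hA : ∑ p ∈ PC Q, ∑ ρ ∈ ZR (g p) (1 - 1 / 8) ((Q : ℝ) ^ 8), (od (g p) ρ : ℝ) ≤ Real.exp (11 * L) := by
    have h1 : ∀ p ∈ PC Q, ∑ ρ ∈ ZR (g p) (1 - 1 / 8) ((Q : ℝ) ^ 8), (od (g p) ρ : ℝ) ≤ (Q : ℝ) ^ 9 := by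
      intro p hp
      refine (hsub p hp (1 - 1 / 8) _ (fun ρ hρ => (hdatg p hp ρ).1 hρ)).trans ?_
      exact HC Q (by linarith) p hp
    refine (Finset.sum_le_card_nsmul _ _ _ h1).trans ?_
    rw [nsmul_eq_mul]
    have h2 : ((PC Q).card : ℝ) ≤ (Q : ℝ) ^ 2 := by exact_mod_cast card_PC_le Q
    calc ((PC Q).card : ℝ) * (Q : ℝ) ^ 9 ≤ (Q : ℝ) ^ 2 * (Q : ℝ) ^ 9 :=
          mul_le_mul_of_nonneg_right h2 (by positivity)
      _ = (Q : ℝ) ^ 11 := by ring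
      _ = Real.exp (11 * L) := by
          rw [hQL, ← Real.exp_nat_mul]
          norm_num
  have hB : ∀ j ∈ Finset.range J, ∑ p ∈ PC Q, ∑ ρ ∈ ZR (g p) (1 - 1 / 8) ((Q : ℝ) ^ 8),
      (if (1 - ρ.re) * L < j + 1 then (od (g p) ρ : ℝ) else 0) ≤ C * Real.exp (C * (j + 1)) := by
    intro j hj
    rw [Finset.mem_range, hJ] at hj
    have hjL : (j : ℝ) ≤ θ' * L := by
      have h1 : j ≤ ⌊θ' * L⌋₊ := by omega
      have h2 : (j : ℝ) ≤ (⌊θ' * L⌋₊ : ℝ) := by exact_mod_cast h1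
      exact h2.trans (Nat.floor_le (by positivity))
    have h1 : (j : ℝ) + 1 ≤ θ * Real.log Q := by
      rw [← hL]
      have h2 : 2 / θ ≤ L := by linarith
      rw [div_le_iff₀ hθ] at h2
      have h3 : θ' * L ≤ θ / 2 * L := mul_le_mul_of_nonneg_right hθ'1 hL0.le
      linarith
    refine le_trans ?_ (HD Q (by linarith) (j + 1) (by
      have : (0 : ℝ) ≤ j := Nat.cast_nonneg j
      linarith) h1)
    refine Finset.sum_le_sum fun p hp => ?_
    rw [← Finset.sum_filter]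
    refine hsub p hp (1 - (j + 1) / Real.log Q) _ ?_
    intro ρ hρ
    rw [Finset.mem_filter] at hρ
    obtain ⟨h2, h3, h5, h6⟩ := (hdatg p hp ρ).1 hρ.1
    refine ⟨h2, ?_, h5, h6⟩
    rw [← hL]
    have h7 : 1 - ρ.re ≤ (j + 1) / L := by
      rw [le_div_iff₀ hL0]
      exact hρ.2.le
    linarith
  -- assembly
  have hsplit : ∑ p ∈ PC Q, ∑ ρ ∈ ZR (g p) (1 - 1 / 8) ((Q : ℝ) ^ 8), ((od (g p) ρ : ℝ) * Real.exp (-(17 * L)) +
        Real.exp (-(K / 16 * z)) * ∑ j ∈ Finset.range J, Real.exp (-(K / 8 * j)) *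
          (if (1 - ρ.re) * L < j + 1 then (od (g p) ρ : ℝ) else 0)) =
      (∑ p ∈ PC Q, ∑ ρ ∈ ZR (g p) (1 - 1 / 8) ((Q : ℝ) ^ 8), (od (g p) ρ : ℝ)) * Real.exp (-(17 * L)) +
      Real.exp (-(K / 16 * z)) * ∑ j ∈ Finset.range J, Real.exp (-(K / 8 * j)) *
        ∑ p ∈ PC Q, ∑ ρ ∈ ZR (g p) (1 - 1 / 8) ((Q : ℝ) ^ 8),
          (if (1 - ρ.re) * L < j + 1 then (od (g p) ρ : ℝ) else 0) := by
    simp only [Finset.sum_add_distrib]
    congr 1
    · rw [Finset.sum_mul]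
      refine Finset.sum_congr rfl fun p _ => ?_
      rw [Finset.sum_mul]
    · simp only [← Finset.mul_sum]
      congr 1
      simp only [Finset.mul_sum]
      have e1 : ∀ p ∈ PC Q, ∑ ρ ∈ ZR (g p) (1 - 1 / 8) ((Q : ℝ) ^ 8), ∑ j ∈ Finset.range J,
          Real.exp (-(K / 8 * j)) * (if (1 - ρ.re) * L < j + 1 then (od (g p) ρ : ℝ) else 0) =
          ∑ j ∈ Finset.range J, ∑ ρ ∈ ZR (g p) (1 - 1 / 8) ((Q : ℝ) ^ 8),
          Real.exp (-(K / 8 * j)) * (if (1 - ρ.re) * L < j + 1 then (od (g p) ρ : ℝ) else 0) :=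
        fun p _ => Finset.sum_comm
      rw [Finset.sum_congr rfl e1]
      exact Finset.sum_comm
  rw [hsplit]
  have h1 : (∑ p ∈ PC Q, ∑ ρ ∈ ZR (g p) (1 - 1 / 8) ((Q : ℝ) ^ 8), (od (g p) ρ : ℝ)) *
      Real.exp (-(17 * L)) ≤ (Q : ℝ) ^ (-6 : ℝ) := by
    calc _ ≤ Real.exp (11 * L) * Real.exp (-(17 * L)) := mul_le_mul_of_nonneg_right hA (Real.exp_pos _).le
      _ = (Q : ℝ) ^ (-6 : ℝ) := by
          rw [← Real.exp_add, Real.rpow_def_of_pos hQ0, ← hL]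
          congr 1
          ring
  have h2 : ∑ j ∈ Finset.range J, Real.exp (-(K / 8 * j)) *
        ∑ p ∈ PC Q, ∑ ρ ∈ ZR (g p) (1 - 1 / 8) ((Q : ℝ) ^ 8),
          (if (1 - ρ.re) * L < j + 1 then (od (g p) ρ : ℝ) else 0) ≤ 2 * C * Real.exp C := by
    refine (Finset.sum_le_sum fun j hj => mul_le_mul_of_nonneg_left (hB j hj) (Real.exp_pos _).le).trans ?_
    exact pd_geo C (K / 8) hC (by linarith) J
  have h3 := mul_le_mul_of_nonneg_left h2 (Real.exp_pos (-(K / 16 * z))).le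
  calc _ ≤ (Q : ℝ) ^ (-6 : ℝ) + Real.exp (-(K / 16 * z)) * (2 * C * Real.exp C) := add_le_add h1 h3
    _ = _ := by ring

end Pool.Agent.Lib.H59P
end

-- from Lib.H59P.A2
section

/-!
# Project H59P, module A, file A2: the L1 norms at good and at exceptional levels, quantitative
-/

open Finset

namespace Pool.Agent.Lib.H59P

open Pool.Agent.Lib.H68T Pool.Agent.Lib.H18Q

open scoped Classical in
/-- Port of `L1_good` (`H18Q/PH.lean`) with the explicit bound. -/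
theorem L1_good_q (c : ℝ) (hc : 0 < c) : ∃ K C : ℝ, 1 ≤ K ∧ 1 ≤ C ∧ ∀ kp : ℝ, K ≤ kp →
    ∀ Q X : ℕ, RegP K Q X → kp * Real.log Q ≤ Real.log X → Good c Q →
    (∫ t in (-(Q : ℝ) ^ 7)..((Q : ℝ) ^ 7), ‖FL X p0 t - F0 X t‖) +
    ∑ p ∈ (PC Q).filter (fun p => p ≠ p0), ∫ t in (-(Q : ℝ) ^ 7)..((Q : ℝ) ^ 7),
      ‖FL X p t‖ ≤ C * Real.exp (-(kp / C)) + 1 / Q := by
  obtain ⟨C0, K1, h0, hfam⟩ := Fam_Lp
  obtain ⟨CL, KL, hCL, hKL, hL1⟩ := L1_family C0 h0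
  obtain ⟨CZ, KZ, hCZ, hKZ, hZ⟩ := zero_sum_q C0 h0
  obtain ⟨c', K2, hc', hfree⟩ := zero_free_good c hc
  obtain ⟨CF, KF, hCF, hF⟩ := PF_main
  refine ⟨max (max (max KL KZ) (max K1 K2)) (max (max KF 21) (max (4 * CF) (CL + 2))),
    max (CL * CZ) (max (16 / c') 1),
    le_trans hKL ((le_max_left _ _).trans ((le_max_left _ _).trans (le_max_left _ _))),
    (le_max_right _ _).trans (le_max_right _ _), ?_⟩
  intro kp hkp Q X hreg hkQ hgood
  obtain ⟨K, hKd⟩ : ∃ K, K = max (max (max KL KZ) (max K1 K2)) (max (max KF 21) (max (4 * CF)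
    (CL + 2))) := ⟨_, rfl⟩
  rw [← hKd] at hreg hkp
  have k1 : KL ≤ K := by rw [hKd]; exact (le_max_left _ _).trans ((le_max_left _ _).trans (le_max_left _ _))
  have k2 : KZ ≤ K := by rw [hKd]; exact (le_max_right _ _).trans ((le_max_left _ _).trans (le_max_left _ _))
  have k3 : K1 ≤ K := by rw [hKd]; exact (le_max_left _ _).trans ((le_max_right _ _).trans (le_max_left _ _))
  have k4 : K2 ≤ K := by rw [hKd]; exact (le_max_right _ _).trans ((le_max_right _ _).trans (le_max_left _ _))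
  have k5 : KF ≤ K := by rw [hKd]; exact (le_max_left _ _).trans ((le_max_left _ _).trans (le_max_right _ _))
  have k6 : 21 ≤ K := by rw [hKd]; exact (le_max_right _ _).trans ((le_max_left _ _).trans (le_max_right _ _))
  have k7 : 4 * CF ≤ K := by
    rw [hKd]; exact (le_max_left _ _).trans ((le_max_right _ _).trans (le_max_right _ _))
  have k8 : CL + 2 ≤ K := by
    rw [hKd]; exact (le_max_right _ _).trans ((le_max_right _ _).trans (le_max_right _ _))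
  clear hKd
  have hK1 : 1 ≤ K := by linarith
  have hQK := hreg.Q_ge hK1
  have hXK := hreg.X_ge (by linarith)
  have hQ1 : (1 : ℝ) ≤ Q := by linarith
  have hQ1' : 1 ≤ Q := by exact_mod_cast hQ1
  have hfamQ := hfam Q (k3.trans hQK)
  have hpow : (0 : ℝ) ≤ (Q : ℝ) ^ 7 := by positivity
  -- the family
  have hmain := hL1 Q X (hreg.mono (by linarith) k1) Lp (fun p => if p = p0 then 1 else 0)
    (fun _ => 1) hfamQ (by
      intro p hp
      refine ⟨?_, le_refl _, ?_⟩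
      · split_ifs <;> simp
      · intro s hs
        by_cases h : p = p0
        · rw [if_pos h, h]
          exact ph_ld_p0 s hs
        · rw [if_neg h]
          exact ph_ld_ne hp h s hs 1)
  have hzs := hZ kp (by linarith) Q X (hreg.mono (by linarith) k2) hkQ Lp hfamQ c'
    (hfree Q (k4.trans hQK) hgood)
  rw [ph_split (PC Q) p0 (p0_mem hQ1') (fun p => p ≠ p0) (fun _ => Iff.rfl)] at hmain
  have hsum : ∑ p ∈ (PC Q).filter (fun p => p ≠ p0), ∫ t in (-(Q : ℝ) ^ 7)..((Q : ℝ) ^ 7),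
      ‖FL X p t - (((if p = p0 then 1 else 0 : ℝ)) : ℂ) * Mb X 1 t‖ =
      ∑ p ∈ (PC Q).filter (fun p => p ≠ p0), ∫ t in (-(Q : ℝ) ^ 7)..((Q : ℝ) ^ 7), ‖FL X p t‖ := by
    refine Finset.sum_congr rfl fun p hp => ?_
    rw [if_neg (mem_filter.1 hp).2]
    simp
  rw [hsum] at hmain
  have htri := ph_tri (FL X p0) (Mb X 1) (F0 X) (ph_FF_cont X _) (ph_Mb_cont X 1) (ph_FF_cont X _)
    ((Q : ℝ) ^ 7) (CF * (1 + (Q : ℝ) ^ 7) / X) hpow (by
      intro t ht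
      rw [PF_F0]
      refine (hF X (k5.trans hXK) 1 t (by norm_num) le_rfl).trans ?_
      apply div_le_div_of_nonneg_right _ (Nat.cast_nonneg _)
      apply mul_le_mul_of_nonneg_left _ hCF.le
      have := abs_le.2 ⟨ht.1, ht.2⟩
      linarith)
  have herr := ph_err hCF k6 k7 hreg
  have hp0t : ∫ t in (-(Q : ℝ) ^ 7)..((Q : ℝ) ^ 7),
      ‖FL X p0 t - (((if p0 = p0 then 1 else 0 : ℝ)) : ℂ) * Mb X 1 t‖ =
      ∫ t in (-(Q : ℝ) ^ 7)..((Q : ℝ) ^ 7), ‖FL X p0 t - Mb X 1 t‖ := by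
    rw [if_pos rfl]
    simp
  rw [hp0t] at hmain
  rw [ph_q6 hQ1] at hmain hzs
  have hq : 1 / (Q : ℝ) ^ 6 ≤ 1 / Q := by
    apply one_div_le_one_div_of_le (by linarith)
    calc (Q : ℝ) = (Q : ℝ) ^ 1 := (pow_one _).symm
      _ ≤ (Q : ℝ) ^ 6 := pow_le_pow_right₀ hQ1 (by norm_num)
  obtain ⟨C, hCd⟩ : ∃ C, C = max (CL * CZ) (max (16 / c') 1) := ⟨_, rfl⟩
  rw [← hCd]
  have hC1 : CL * CZ ≤ C := by rw [hCd]; exact le_max_left _ _
  have hC2 : 16 / c' ≤ C := by rw [hCd]; exact (le_max_left _ _).trans (le_max_right _ _)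
  have hC3 : 1 ≤ C := by rw [hCd]; exact (le_max_right _ _).trans (le_max_right _ _)
  have hA1 : CL * (CZ * Real.exp (-(kp / 16 * c'))) ≤ C * Real.exp (-(kp / C)) := by
    rw [← mul_assoc]
    apply mul_le_mul hC1 _ (Real.exp_pos _).le (by linarith)
    apply Real.exp_le_exp.2
    have h1 : kp / C ≤ kp / (16 / c') :=
      div_le_div_of_nonneg_left (by linarith) (by positivity) hC2
    have h2 : kp / (16 / c') = kp / 16 * c' := by field_simp
    linarith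
  have hA2 : (CL + 2) * (1 / (Q : ℝ) ^ 6) ≤ 1 / Q := by
    have hq0 : (0 : ℝ) < Q := by linarith
    rw [mul_one_div, div_le_div_iff₀ (by positivity) hq0, one_mul]
    have h1 : (CL + 2) * (Q : ℝ) ≤ Q * Q := mul_le_mul_of_nonneg_right (by linarith) hq0.le
    have h2 : (Q : ℝ) * Q ≤ (Q : ℝ) ^ 6 := by
      rw [← pow_two]
      exact pow_le_pow_right₀ hQ1 (by norm_num)
    linarith
  have hA3 := mul_le_mul_of_nonneg_left hzs (by linarith : (0 : ℝ) ≤ CL)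
  have hA4 : CL * (CZ * Real.exp (-(kp / 16 * c')) + 1 / (Q : ℝ) ^ 6) =
      CL * (CZ * Real.exp (-(kp / 16 * c'))) + CL * (1 / (Q : ℝ) ^ 6) := by ring
  rw [hA4] at hA3
  have hA5 : (CL + 2) * (1 / (Q : ℝ) ^ 6) = CL * (1 / (Q : ℝ) ^ 6) + 2 * (1 / (Q : ℝ) ^ 6) := by ring
  rw [hA5] at hA2
  linarith

open scoped Classical in
/-- Port of `L1_exceptional` (`H18Q/PH.lean`) with the explicit bound. -/
theorem L1_exceptional_q : ∃ c1 K C : ℝ, 0 < c1 ∧ c1 < 1 ∧ 1 ≤ K ∧ 1 ≤ C ∧ ∀ kp : ℝ, K ≤ kp →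
    ∀ Q X : ℕ, RegP K Q X → kp * Real.log Q ≤ Real.log X →
    ∀ (r : ℕ) [NeZero r] (ψ : DirichletCharacter ℂ r), r ≤ Q →
    ψ.IsPrimitive → ψ ≠ 1 → ψ ^ 2 = 1 → ∀ β : ℝ, β < 1 → ψ.LFunction (β : ℂ) = 0 →
    (1 - β) * Real.log Q ≤ c1 →
    (∫ t in (-(Q : ℝ) ^ 7)..((Q : ℝ) ^ 7), ‖FL X p0 t - F0 X t‖) +
    (∫ t in (-(Q : ℝ) ^ 7)..((Q : ℝ) ^ 7), ‖FL X ⟨r, ψ⟩ t + Fb X β t‖) +
    ∑ p ∈ (PC Q).filter (fun p => p ≠ p0 ∧ p ≠ ⟨r, ψ⟩),
      ∫ t in (-(Q : ℝ) ^ 7)..((Q : ℝ) ^ 7), ‖FL X p t‖ ≤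
        (C * Real.exp (-(kp / C)) + 1 / Q) * ((1 - β) * Real.log Q) := by
  obtain ⟨CR, c1, KR, hCR, hc1, hc11, hrep⟩ := repulsion
  obtain ⟨C0, K1, h0, hfam⟩ := Fam_Lx
  obtain ⟨CL, KL, hCL, hKL, hL1⟩ := L1_family C0 h0
  obtain ⟨CZ, KZ, hCZ, hKZ, hZ⟩ := zero_sum_q C0 h0
  obtain ⟨CF, KF, hCF, hF⟩ := PF_main
  obtain ⟨ce, hce, hel⟩ := zero_elementary
  have hlam : 0 < Real.log (1 / c1) := Real.log_pos (by rw [lt_div_iff₀ hc1]; linarith)
  obtain ⟨lam, hlamd⟩ : ∃ lam, lam = Real.log (1 / c1) := ⟨_, rfl⟩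
  rw [← hlamd] at hlam
  refine ⟨c1, max (max (max KL KZ) (max K1 KR)) (max (max KF 21) (max (4 * CF)
    (max (16 * CR) ((CL + 3) / ce)))), max (CL * CZ * Real.exp lam) (max (16 * CR / lam) 1),
    hc1, hc11, le_trans hKL ((le_max_left _ _).trans ((le_max_left _ _).trans (le_max_left _ _))),
    (le_max_right _ _).trans (le_max_right _ _), ?_⟩
  intro kp hkp Q X hreg hkQ r _ ψ hr hprim hψ1 hψ2 β hβ hLβ hsmall
  obtain ⟨K, hKd⟩ : ∃ K, K = max (max (max KL KZ) (max K1 KR)) (max (max KF 21) (max (4 * CF)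
    (max (16 * CR) ((CL + 3) / ce)))) := ⟨_, rfl⟩
  rw [← hKd] at hreg hkp
  have k1 : KL ≤ K := by rw [hKd]; exact (le_max_left _ _).trans ((le_max_left _ _).trans (le_max_left _ _))
  have k2 : KZ ≤ K := by rw [hKd]; exact (le_max_right _ _).trans ((le_max_left _ _).trans (le_max_left _ _))
  have k3 : K1 ≤ K := by rw [hKd]; exact (le_max_left _ _).trans ((le_max_right _ _).trans (le_max_left _ _))
  have k4 : KR ≤ K := by rw [hKd]; exact (le_max_right _ _).trans ((le_max_right _ _).trans (le_max_left _ _))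
  have k5 : KF ≤ K := by rw [hKd]; exact (le_max_left _ _).trans ((le_max_left _ _).trans (le_max_right _ _))
  have k6 : 21 ≤ K := by rw [hKd]; exact (le_max_right _ _).trans ((le_max_left _ _).trans (le_max_right _ _))
  have k7 : 4 * CF ≤ K := by
    rw [hKd]; exact (le_max_left _ _).trans ((le_max_right _ _).trans (le_max_right _ _))
  have k8 : 16 * CR ≤ K := by
    rw [hKd]
    exact (le_max_left _ _).trans ((le_max_right _ _).trans ((le_max_right _ _).trans (le_max_right _ _)))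
  have k9 : (CL + 3) / ce ≤ K := by
    rw [hKd]
    exact (le_max_right _ _).trans ((le_max_right _ _).trans ((le_max_right _ _).trans (le_max_right _ _)))
  clear hKd
  have hK1 : 1 ≤ K := by linarith
  have hQK := hreg.Q_ge hK1
  have hXK := hreg.X_ge (by linarith)
  have hlQ := hreg.logQ_ge hK1
  have hQ1 : (1 : ℝ) ≤ Q := by linarith
  have hQ1' : 1 ≤ Q := by exact_mod_cast hQ1
  have hη : 0 < 1 - β := by linarith
  have hβ34 : 3 / 4 ≤ β := by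
    by_contra hcon
    have h1 : (1 / 4 : ℝ) ≤ 1 - β := by linarith [not_le.1 hcon]
    have h2 : (1 / 4 : ℝ) * 21 ≤ (1 - β) * Real.log Q :=
      mul_le_mul h1 (by linarith) (by norm_num) hη.le
    linarith
  have hfamQ := hfam Q (k3.trans hQK) r ψ hr hψ1 β hβ34 hβ hLβ
  have hpow : (0 : ℝ) ≤ (Q : ℝ) ^ 7 := by positivity
  have hmemψ : (⟨r, ψ⟩ : Σ r : ℕ, DirichletCharacter ℂ r) ∈ PC Q :=
    mem_PC.2 ⟨Nat.pos_of_ne_zero (NeZero.ne r), hr, hprim⟩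
  have hneψ : (⟨r, ψ⟩ : Σ r : ℕ, DirichletCharacter ℂ r) ≠ p0 := by
    intro h
    unfold p0 at h
    obtain ⟨h1, h2⟩ := Sigma.mk.inj_iff.1 h
    subst h1
    exact hψ1 (eq_of_heq h2)
  -- the family
  have hmain := hL1 Q X (hreg.mono (by linarith) k1) (Lx r ψ β)
    (fun p => if p = p0 then 1 else if p = ⟨r, ψ⟩ then -1 else 0)
    (fun p => if p = ⟨r, ψ⟩ then β else 1) hfamQ (by
      intro p hp
      refine ⟨?_, ?_, ?_⟩
      · split_ifs <;> simp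
      · split_ifs
        · exact hβ.le
        · exact le_rfl
      · intro s hs
        by_cases h : p = p0
        · have h2 : p ≠ ⟨r, ψ⟩ := by rw [h]; exact fun h3 => hneψ h3.symm
          rw [if_pos h, if_neg h2, Lx_of_ne r ψ β p h2, h]
          exact ph_ld_p0 s hs
        · by_cases h2 : p = ⟨r, ψ⟩
          · rw [if_neg h, if_pos h2, if_pos h2, h2, Lx_mk, logDeriv_apply]
            have hd := DirichletCharacter.differentiable_LFunction hψ1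
            rw [Lp_mk r ψ hneψ]
            rw [XZ4_dslope_logderiv hd (β : ℂ) s hLβ (by
              rintro rfl
              rw [Complex.ofReal_re] at hs
              linarith) (DirichletCharacter.LFunction_ne_zero_of_one_le_re ψ (Or.inl hψ1) hs.le)]
            rw [← logDeriv_apply, lab1_char r ψ s hs]
            push_cast
            ring
          · rw [if_neg h, if_neg h2, if_neg h2, Lx_of_ne r ψ β p h2]
            exact ph_ld_ne hp h s hs 1)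
  have hx0 : 0 < (1 - β) * Real.log Q := mul_pos hη (by linarith)
  obtain ⟨x, hxd⟩ : ∃ x, x = (1 - β) * Real.log Q := ⟨_, rfl⟩
  rw [← hxd] at hx0 hsmall ⊢
  have hzs := hZ kp (by linarith) Q X (hreg.mono (by linarith) k2) hkQ (Lx r ψ β) hfamQ
    (Real.log (1 / x) / CR) (by
    intro p hp ρ hρ him
    have h1 := hrep Q (k4.trans hQK) r ψ hr hprim hψ1 hψ2 β hβ hLβ (by rw [← hxd]; exact hsmall)
      p hp ρ hρ him
    rw [div_div, hxd]
    exact h1)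
  rw [ph_split (PC Q) p0 (p0_mem hQ1') (fun p => p ≠ p0) (fun _ => Iff.rfl),
    ph_split ((PC Q).filter (fun p => p ≠ p0)) ⟨r, ψ⟩ (mem_filter.2 ⟨hmemψ, hneψ⟩)
      (fun p => p ≠ ⟨r, ψ⟩) (fun _ => Iff.rfl)] at hmain
  have hfilt : ((PC Q).filter (fun p => p ≠ p0)).filter (fun p => p ≠ ⟨r, ψ⟩) =
      (PC Q).filter (fun p => p ≠ p0 ∧ p ≠ ⟨r, ψ⟩) := by
    ext p
    simp only [mem_filter]
    tauto
  rw [hfilt] at hmain
  have hsum : ∑ p ∈ (PC Q).filter (fun p => p ≠ p0 ∧ p ≠ ⟨r, ψ⟩),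
      ∫ t in (-(Q : ℝ) ^ 7)..((Q : ℝ) ^ 7),
      ‖FL X p t - (((if p = p0 then 1 else if p = ⟨r, ψ⟩ then -1 else 0 : ℝ)) : ℂ) *
        Mb X (if p = ⟨r, ψ⟩ then β else 1) t‖ =
      ∑ p ∈ (PC Q).filter (fun p => p ≠ p0 ∧ p ≠ ⟨r, ψ⟩),
        ∫ t in (-(Q : ℝ) ^ 7)..((Q : ℝ) ^ 7), ‖FL X p t‖ := by
    refine Finset.sum_congr rfl fun p hp => ?_
    rw [if_neg (mem_filter.1 hp).2.1, if_neg (mem_filter.1 hp).2.2]
    simp
  rw [hsum] at hmain
  have htri := ph_tri (FL X p0) (Mb X 1) (F0 X) (ph_FF_cont X _) (ph_Mb_cont X 1) (ph_FF_cont X _)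
    ((Q : ℝ) ^ 7) (CF * (1 + (Q : ℝ) ^ 7) / X) hpow (by
      intro t ht
      rw [PF_F0]
      refine (hF X (k5.trans hXK) 1 t (by norm_num) le_rfl).trans ?_
      apply div_le_div_of_nonneg_right _ (Nat.cast_nonneg _)
      apply mul_le_mul_of_nonneg_left _ hCF.le
      have := abs_le.2 ⟨ht.1, ht.2⟩
      linarith)
  have htri2 := ph_tri (FL X ⟨r, ψ⟩) (fun t => -Mb X β t) (fun t => -Fb X β t) (ph_FF_cont X _)
    (ph_Mb_cont X β).neg (ph_FF_cont X _).neg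
    ((Q : ℝ) ^ 7) (CF * (1 + (Q : ℝ) ^ 7) / X) hpow (by
      intro t ht
      rw [show -Fb X β t - -Mb X β t = -(Fb X β t - Mb X β t) by ring, norm_neg]
      refine (hF X (k5.trans hXK) β t (by linarith) hβ.le).trans ?_
      apply div_le_div_of_nonneg_right _ (Nat.cast_nonneg _)
      apply mul_le_mul_of_nonneg_left _ hCF.le
      have := abs_le.2 ⟨ht.1, ht.2⟩
      linarith)
  simp only [sub_neg_eq_add] at htri2
  have herr := ph_err hCF k6 k7 hreg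
  have hp0t : ∫ t in (-(Q : ℝ) ^ 7)..((Q : ℝ) ^ 7),
      ‖FL X p0 t - (((if p0 = p0 then 1 else if p0 = ⟨r, ψ⟩ then -1 else 0 : ℝ)) : ℂ) *
        Mb X (if p0 = ⟨r, ψ⟩ then β else 1) t‖ =
      ∫ t in (-(Q : ℝ) ^ 7)..((Q : ℝ) ^ 7), ‖FL X p0 t - Mb X 1 t‖ := by
    rw [if_pos rfl, if_neg (fun h3 => hneψ h3.symm)]
    simp
  have hψt : ∫ t in (-(Q : ℝ) ^ 7)..((Q : ℝ) ^ 7),
      ‖FL X ⟨r, ψ⟩ t - (((if (⟨r, ψ⟩ : Σ r : ℕ, DirichletCharacter ℂ r) = p0 then 1 else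
        if (⟨r, ψ⟩ : Σ r : ℕ, DirichletCharacter ℂ r) = ⟨r, ψ⟩ then -1 else 0 : ℝ)) : ℂ) *
        Mb X (if (⟨r, ψ⟩ : Σ r : ℕ, DirichletCharacter ℂ r) = ⟨r, ψ⟩ then β else 1) t‖ =
      ∫ t in (-(Q : ℝ) ^ 7)..((Q : ℝ) ^ 7), ‖FL X ⟨r, ψ⟩ t + Mb X β t‖ := by
    rw [if_neg hneψ, if_pos rfl, if_pos rfl]
    simp
  rw [hp0t, hψt] at hmain
  rw [ph_q6 hQ1] at hmain hzs
  -- the numbers
  obtain ⟨C, hCd⟩ : ∃ C, C = max (CL * CZ * Real.exp lam) (max (16 * CR / lam) 1) := ⟨_, rfl⟩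
  rw [← hCd]
  have hC1 : CL * CZ * Real.exp lam ≤ C := by rw [hCd]; exact le_max_left _ _
  have hC2 : 16 * CR / lam ≤ C := by rw [hCd]; exact (le_max_left _ _).trans (le_max_right _ _)
  have hC3 : 1 ≤ C := by rw [hCd]; exact (le_max_right _ _).trans (le_max_right _ _)
  have hA1 : CL * (CZ * Real.exp (-(kp / 16 * (Real.log (1 / x) / CR)))) ≤
      C * Real.exp (-(kp / C)) * x := by
    have hxc : lam ≤ Real.log (1 / x) := by
      rw [hlamd]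
      exact Real.log_le_log (by positivity) (one_div_le_one_div_of_le hx0 hsmall)
    have hxlog : Real.log (1 / x) = -Real.log x := by rw [one_div, Real.log_inv]
    set Y := Real.log (1 / x) with hY
    have hY0 : 0 < Y := by linarith
    have e1 : -(kp / 16 * (Y / CR)) = Real.log x + -((kp / (16 * CR) - 1) * Y) := by
      have : Real.log x = -Y := by linarith
      rw [this]
      field_simp
      ring
    rw [e1, Real.exp_add, Real.exp_log hx0]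
    have ha : 0 ≤ kp / (16 * CR) - 1 := by
      have : 1 ≤ kp / (16 * CR) := by
        rw [le_div_iff₀ (by positivity)]
        linarith
      linarith
    have hb : (kp / (16 * CR) - 1) * lam ≤ (kp / (16 * CR) - 1) * Y :=
      mul_le_mul_of_nonneg_left hxc ha
    have hd : kp / C ≤ kp / (16 * CR) * lam := by
      have h1 : kp / C ≤ kp / (16 * CR / lam) :=
        div_le_div_of_nonneg_left (by linarith) (by positivity) hC2
      have h2 : kp / (16 * CR / lam) = kp / (16 * CR) * lam := by field_simp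
      linarith
    have hf : Real.exp (-((kp / (16 * CR) - 1) * Y)) ≤ Real.exp lam * Real.exp (-(kp / C)) := by
      rw [← Real.exp_add]
      apply Real.exp_le_exp.2
      linarith
    calc CL * (CZ * (x * Real.exp (-((kp / (16 * CR) - 1) * Y)))) =
        (CL * CZ * x) * Real.exp (-((kp / (16 * CR) - 1) * Y)) := by ring
      _ ≤ (CL * CZ * x) * (Real.exp lam * Real.exp (-(kp / C))) :=
          mul_le_mul_of_nonneg_left hf (by positivity)
      _ = CL * CZ * Real.exp lam * (Real.exp (-(kp / C)) * x) := by ring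
      _ ≤ C * (Real.exp (-(kp / C)) * x) := mul_le_mul_of_nonneg_right hC1 (by positivity)
      _ = C * Real.exp (-(kp / C)) * x := by ring
  have hA2 : (CL + 3) * (1 / (Q : ℝ) ^ 6) ≤ 1 / Q * x := by
    have hr1 : (1 : ℝ) ≤ r := by exact_mod_cast Nat.pos_of_ne_zero (NeZero.ne r)
    have hrQ : (r : ℝ) ≤ Q := by exact_mod_cast hr
    have h1 := hel r ψ hψ1 hψ2 β hβ hLβ
    have h2 : ce / (Q : ℝ) ^ 2 ≤ 1 - β := by
      refine le_trans ?_ h1
      apply div_le_div_of_nonneg_left hce.le (by positivity)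
      exact pow_le_pow_left₀ (by linarith) hrQ 2
    have h3 : ce / (Q : ℝ) ^ 2 ≤ x := by
      rw [hxd]
      have h4 : 0 ≤ ce / (Q : ℝ) ^ 2 := by positivity
      calc ce / (Q : ℝ) ^ 2 = ce / (Q : ℝ) ^ 2 * 1 := (mul_one _).symm
        _ ≤ (1 - β) * Real.log Q := mul_le_mul h2 (by linarith) zero_le_one hη.le
    have hq0 : (0 : ℝ) < Q := by linarith
    refine le_trans ?_ (mul_le_mul_of_nonneg_left h3 (by positivity))
    rw [div_le_iff₀ hce] at k9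
    have h5 : (CL + 3) * (1 / (Q : ℝ) ^ 6) ≤ ce * Q * (1 / (Q : ℝ) ^ 6) := by
      apply mul_le_mul_of_nonneg_right _ (by positivity)
      have h6 : K * ce ≤ Q * ce := mul_le_mul_of_nonneg_right hQK hce.le
      linarith
    have h7 : ce * (Q : ℝ) * (1 / (Q : ℝ) ^ 6) ≤ 1 / Q * (ce / (Q : ℝ) ^ 2) := by
      have h8 : ce * (Q : ℝ) * (1 / (Q : ℝ) ^ 6) = ce / (Q : ℝ) ^ 5 := by field_simp
      have h9 : 1 / Q * (ce / (Q : ℝ) ^ 2) = ce / (Q : ℝ) ^ 3 := by field_simp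
      rw [h8, h9]
      apply div_le_div_of_nonneg_left hce.le (by positivity)
      exact pow_le_pow_right₀ hQ1 (by norm_num)
    linarith
  have hA3 := mul_le_mul_of_nonneg_left hzs (by linarith : (0 : ℝ) ≤ CL)
  have hA4 : CL * (CZ * Real.exp (-(kp / 16 * (Real.log (1 / x) / CR))) + 1 / (Q : ℝ) ^ 6) =
      CL * (CZ * Real.exp (-(kp / 16 * (Real.log (1 / x) / CR)))) + CL * (1 / (Q : ℝ) ^ 6) := by ring
  rw [hA4] at hA3
  have hA5 : (CL + 3) * (1 / (Q : ℝ) ^ 6) = CL * (1 / (Q : ℝ) ^ 6) + 3 * (1 / (Q : ℝ) ^ 6) := by ring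
  rw [hA5] at hA2
  have hA6 : (C * Real.exp (-(kp / C)) + 1 / Q) * x = C * Real.exp (-(kp / C)) * x + 1 / Q * x := by
    ring
  rw [hA6]
  linarith

end Pool.Agent.Lib.H59P
end

-- from Lib.H59P.A3
section

/-!
# Project H59P, module A, file A3: the model at good levels
-/

open Finset

namespace Pool.Agent.Lib.H59P

open Pool.Agent.Lib.H68T Pool.Agent.Lib.H18Q

theorem a3_q4 {Q : ℕ} (hQ : (16 : ℝ) ≤ Q) : 2 / Real.sqrt Q ≤ (Q : ℝ) ^ (-(1 / 4) : ℝ) := by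
  have hQ0 : (0 : ℝ) < Q := by linarith
  have h1 : (2 : ℝ) ≤ (Q : ℝ) ^ (1 / 4 : ℝ) := by
    have h2 : (16 : ℝ) ^ (1 / 4 : ℝ) ≤ (Q : ℝ) ^ (1 / 4 : ℝ) :=
      Real.rpow_le_rpow (by norm_num) hQ (by norm_num)
    have h3 : (16 : ℝ) ^ (1 / 4 : ℝ) = 2 := by
      rw [show (16 : ℝ) = 2 ^ (4 : ℝ) by norm_num, ← Real.rpow_mul (by norm_num)]
      norm_num
    linarith
  have h4 : Real.sqrt Q = (Q : ℝ) ^ (1 / 4 : ℝ) * (Q : ℝ) ^ (1 / 4 : ℝ) := by
    rw [Real.sqrt_eq_rpow, ← Real.rpow_add hQ0]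
    norm_num
  have h5 : 0 < (Q : ℝ) ^ (1 / 4 : ℝ) := by positivity
  rw [Real.rpow_neg hQ0.le, h4, ← one_div, div_le_div_iff₀ (by positivity) h5]
  calc 2 * (Q : ℝ) ^ (1 / 4 : ℝ) ≤ (Q : ℝ) ^ (1 / 4 : ℝ) * (Q : ℝ) ^ (1 / 4 : ℝ) :=
        mul_le_mul_of_nonneg_right h1 h5.le
    _ = 1 * ((Q : ℝ) ^ (1 / 4 : ℝ) * (Q : ℝ) ^ (1 / 4 : ℝ)) := (one_mul _).symm

theorem a3_inv {Q : ℕ} (hQ : (16 : ℝ) ≤ Q) : 1 / (Q : ℝ) ≤ 1 / Real.sqrt Q := by
  have hQ0 : (0 : ℝ) < Q := by linarith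
  apply one_div_le_one_div_of_le (Real.sqrt_pos.2 hQ0)
  rw [Real.sqrt_le_left (by linarith)]
  nlinarith

open scoped Classical in
/-- Quantitative `lev_good`: the model at a good level. -/
theorem mdl_good (c : ℝ) (hc : 0 < c) : ∃ K C : ℝ, 1 ≤ K ∧ 1 ≤ C ∧ ∀ kp : ℝ, K ≤ kp →
    ∀ Q X : ℕ, RegP K Q X → kp * Real.log Q ≤ Real.log X → Good c Q →
    Mdl Q X 1 (C * Real.exp (-(kp / C)) + (Q : ℝ) ^ (-(1 / 4) : ℝ)) p0 (fun _ => 0) := by
  classical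
  obtain ⟨K1, C, hK1, hC, hL1⟩ := L1_good_q c hc
  obtain ⟨K2, hK2, hLip⟩ := Bc_lip
  obtain ⟨K3, hK3, hLk⟩ := Lk_SG
  obtain ⟨K4, hK4, hB0⟩ := cl1_B0
  obtain ⟨K5, hK5, hB⟩ := B_leP
  refine ⟨max (max (max K1 K2) (max K3 K4)) (max K5 16), C,
    hK1.trans ((le_max_left _ _).trans ((le_max_left _ _).trans (le_max_left _ _))), hC, ?_⟩
  intro kp hkp Q X hreg hkQ hgood
  obtain ⟨K, hKd⟩ : ∃ K, K = max (max (max K1 K2) (max K3 K4)) (max K5 16) := ⟨_, rfl⟩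
  rw [← hKd] at hreg hkp
  have k1 : K1 ≤ K := by rw [hKd]; exact (le_max_left _ _).trans ((le_max_left _ _).trans (le_max_left _ _))
  have k2 : K2 ≤ K := by rw [hKd]; exact (le_max_right _ _).trans ((le_max_left _ _).trans (le_max_left _ _))
  have k3 : K3 ≤ K := by rw [hKd]; exact (le_max_left _ _).trans ((le_max_right _ _).trans (le_max_left _ _))
  have k4 : K4 ≤ K := by rw [hKd]; exact (le_max_right _ _).trans ((le_max_right _ _).trans (le_max_left _ _))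
  have k5 : K5 ≤ K := by rw [hKd]; exact (le_max_left _ _).trans (le_max_right _ _)
  have k6 : 16 ≤ K := by rw [hKd]; exact (le_max_right _ _).trans (le_max_right _ _)
  clear hKd
  have hKp : 1 ≤ K := hK1.trans k1
  have hK0 : 0 ≤ K := by linarith
  have hQ1 : 1 ≤ Q := hreg.Q_pos hKp
  have hQ1' : (1 : ℝ) ≤ Q := by exact_mod_cast hQ1
  have hQK := hreg.Q_ge hKp
  have hX0 : (0 : ℝ) < X := by exact_mod_cast hreg.X_pos (by linarith)
  have hL := hL1 kp (by linarith) Q X (hreg.mono hK0 k1) hkQ hgood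
  obtain ⟨q, hq⟩ : ∃ q, q = (Q : ℝ) ^ (-(5 / 2) : ℝ) := ⟨_, rfl⟩
  have hq0 : 0 ≤ q := by rw [hq]; positivity
  obtain ⟨eb, heb⟩ : ∃ eb : (Σ r : ℕ, DirichletCharacter ℂ r) → ℝ, eb = fun p =>
    (if p = p0 then ∫ t in (-(Q : ℝ) ^ 7)..((Q : ℝ) ^ 7), ‖FL X p0 t - F0 X t‖
      else ∫ t in (-(Q : ℝ) ^ 7)..((Q : ℝ) ^ 7), ‖FL X p t‖) + q := ⟨_, rfl⟩
  have heb0 : ∀ p, 0 ≤ eb p := by
    intro p
    rw [heb]
    simp only
    split_ifs
    · exact add_nonneg (cl1_int_nonneg Q _) hq0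
    · exact add_nonneg (cl1_int_nonneg Q _) hq0
  have hsum : ∑ p ∈ PC Q, eb p ≤ C * Real.exp (-(kp / C)) + (Q : ℝ) ^ (-(1 / 4) : ℝ) := by
    have h1 : ∑ p ∈ PC Q, eb p =
        (∑ p ∈ PC Q, (if p = p0 then ∫ t in (-(Q : ℝ) ^ 7)..((Q : ℝ) ^ 7), ‖FL X p0 t - F0 X t‖
          else ∫ t in (-(Q : ℝ) ^ 7)..((Q : ℝ) ^ 7), ‖FL X p t‖)) + (PC Q).card * q := by
      rw [heb, Finset.sum_add_distrib, Finset.sum_const, nsmul_eq_mul]
    rw [h1, ph_split (PC Q) p0 (p0_mem hQ1) (fun p => p ≠ p0) (fun _ => Iff.rfl), if_pos rfl]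
    have h2 : ∑ p ∈ (PC Q).filter (fun p => p ≠ p0),
        (if p = p0 then ∫ t in (-(Q : ℝ) ^ 7)..((Q : ℝ) ^ 7), ‖FL X p0 t - F0 X t‖
          else ∫ t in (-(Q : ℝ) ^ 7)..((Q : ℝ) ^ 7), ‖FL X p t‖) =
        ∑ p ∈ (PC Q).filter (fun p => p ≠ p0), ∫ t in (-(Q : ℝ) ^ 7)..((Q : ℝ) ^ 7), ‖FL X p t‖ :=
      Finset.sum_congr rfl fun p hp => by rw [if_neg (mem_filter.1 hp).2]
    rw [h2]
    have h3 : ((PC Q).card : ℝ) * q ≤ 1 / Real.sqrt Q := by
      rw [← (cl1_Qpow hQ1).1, ← hq]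
      apply mul_le_mul_of_nonneg_right _ hq0
      exact_mod_cast card_PC_le Q
    have h4 := a3_q4 (Q := Q) (by linarith)
    have h5 := a3_inv (Q := Q) (by linarith)
    have h6 : 2 / Real.sqrt Q = 1 / Real.sqrt Q + 1 / Real.sqrt Q := by ring
    linarith
  refine ⟨one_pos, le_rfl, p0_mem hQ1, ?_, ?_, fun _ _ => rfl, fun _ _ _ => le_rfl, ?_, ?_, ?_⟩
  · have : p0.2 = 1 := rfl
    rw [this, one_pow]
  · have : p0.1 = 1 := rfl
    rw [this, one_pow]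
    exact hQ1
  · intro m _ _
    simp
  · intro m _ _
    rw [sub_self, abs_zero]
    positivity
  · have hMX : ∀ m p, MX p0 (fun _ => 0) m p = if p = p0 then 1 else 0 := by
      intro m p
      unfold MX
      split_ifs <;> simp
    refine ⟨fun m p => Bc Q X p m - MX p0 (fun _ => 0) m p, eb, fun p _ => heb0 p, ?_, ?_⟩
    · rw [one_mul]
      exact hsum
    · intro m hm hm4
      refine ⟨?_, ?_⟩
      · rw [hLk Q X (hreg.mono hK0 k3) m hm hm4]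
        congr 1
        funext p
        ring
      · intro p hp
        beta_reduce
        refine ⟨?_, ?_⟩
        · rw [hMX, heb]
          simp only
          split_ifs with h
          · rw [h, hq]
            exact hB0 Q X (hreg.mono hK0 k4) m hm hm4
          · rw [sub_zero, hq]
            exact hB Q X (hreg.mono hK0 k5) p (mem_PC.1 hp).1 m hm hm4
        · have h1 := hLip Q X (hreg.mono hK0 k2) p m hm hm4
          rw [hMX, hMX]
          have h2 : (Bc Q X p (m + 1) - (if p = p0 then 1 else 0)) -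
              (Bc Q X p m - (if p = p0 then 1 else 0)) = Bc Q X p (m + 1) - Bc Q X p m := by ring
          rw [h2]
          refine h1.trans ?_
          apply div_le_div_of_nonneg_left (by positivity) hX0
          linarith

end Pool.Agent.Lib.H59P
end

-- from Lib.H59P.A4
section

/-!
# Project H59P, module A, file A4: the model at exceptional levels
-/

open Finset

namespace Pool.Agent.Lib.H59P

open Pool.Agent.Lib.H68T Pool.Agent.Lib.H18Q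

/-- `1 - X^(β-1) ≥ (1-β) log Q/2` if `(1-β) log Q ≤ 1` and `log Q ≤ log X`. -/
theorem a4_eta {X : ℕ} {β q : ℝ} (hX : 1 ≤ X) (hβ : β < 1) (hq : q ≤ Real.log X)
    (hq1 : (1 - β) * q ≤ 1) : (1 - β) * q / 2 ≤ 1 - (X : ℝ) ^ (β - 1) := by
  have hX0 : (0 : ℝ) < X := by exact_mod_cast hX
  have h1 : (X : ℝ) ^ (β - 1) ≤ Real.exp (-((1 - β) * q)) := by
    rw [Real.rpow_def_of_pos hX0]
    apply Real.exp_le_exp.2
    have h2 : (1 - β) * q ≤ (1 - β) * Real.log X := mul_le_mul_of_nonneg_left hq (by linarith)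
    nlinarith
  by_cases h0 : 0 ≤ (1 - β) * q
  · have h3 : Real.exp (-((1 - β) * q)) ≤ 1 - (1 - β) * q / 2 := by
      have hu := Real.exp_bound_div_one_sub_of_interval' (x := (1 - β) * q / 2)
      have h4 := Real.add_one_le_exp ((1 - β) * q)
      have h5 : Real.exp ((1 - β) * q) * Real.exp (-((1 - β) * q)) = 1 := by
        rw [← Real.exp_add]; simp
      have h6 : ((1 - β) * q + 1) * Real.exp (-((1 - β) * q)) ≤ 1 := by
        have := mul_le_mul_of_nonneg_right h4 (Real.exp_pos (-((1 - β) * q))).le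
        linarith
      have h7 : ((1 - β) * q + 1) * Real.exp (-((1 - β) * q)) ≤
          ((1 - β) * q + 1) * (1 - (1 - β) * q / 2) := by nlinarith
      exact le_of_mul_le_mul_left h7 (by linarith)
    linarith
  · push Not at h0
    have h3 : (X : ℝ) ^ (β - 1) ≤ 1 :=
      Real.rpow_le_one_of_one_le_of_nonpos (by exact_mod_cast hX) (by linarith)
    linarith

open scoped Classical in
/-- Quantitative `lev_exc`: the model at a level with an exceptional zero. -/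
theorem mdl_exc : ∃ c1 K C : ℝ, 0 < c1 ∧ c1 < 1 ∧ 1 ≤ K ∧ 1 ≤ C ∧ ∀ kp : ℝ, K ≤ kp →
    ∀ Q X : ℕ, RegP K Q X → kp * Real.log Q ≤ Real.log X →
    ∀ (r : ℕ) [NeZero r] (ψ : DirichletCharacter ℂ r), r ^ 100 ≤ Q →
    ψ.IsPrimitive → ψ ≠ 1 → ψ ^ 2 = 1 → ∀ β : ℝ, β < 1 → ψ.LFunction (β : ℂ) = 0 →
    (1 - β) * Real.log Q ≤ c1 →
    (1 - β) * Real.log Q / 2 ≤ 1 - (X : ℝ) ^ (β - 1) ∧
    Mdl Q X (1 - (X : ℝ) ^ (β - 1)) (C * Real.exp (-(kp / C)) + (Q : ℝ) ^ (-(1 / 4) : ℝ)) ⟨r, ψ⟩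
      (fun m => (m : ℝ) ^ (β - 1)) := by
  classical
  obtain ⟨c1, K1, C1, hc1, hc11, hK1, hC1, hL1⟩ := L1_exceptional_q
  obtain ⟨K2, hK2, hLip⟩ := Bc_lip
  obtain ⟨K3, hK3, hLk⟩ := Lk_SG
  obtain ⟨K4, hK4, hB0⟩ := cl1_B0
  obtain ⟨K5, hK5, hB⟩ := B_leP
  obtain ⟨K6, hK6, hB1⟩ := B1_leP
  obtain ⟨ce, hce, hel⟩ := zero_elementary
  refine ⟨c1, max (max (max K1 K2) (max K3 K4)) (max (max K5 K6) (max 256 ((8 / ce) ^ 8))),
    2 * C1, hc1, hc11,
    hK1.trans ((le_max_left _ _).trans ((le_max_left _ _).trans (le_max_left _ _))),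
    by linarith, ?_⟩
  intro kp hkp Q X hreg hkQ r _ ψ hr100 hprim hψ1 hψ2 β hβ hLβ hsmall
  obtain ⟨K, hKd⟩ : ∃ K, K = max (max (max K1 K2) (max K3 K4)) (max (max K5 K6)
    (max 256 ((8 / ce) ^ 8))) := ⟨_, rfl⟩
  rw [← hKd] at hreg hkp
  have k1 : K1 ≤ K := by rw [hKd]; exact (le_max_left _ _).trans ((le_max_left _ _).trans (le_max_left _ _))
  have k2 : K2 ≤ K := by rw [hKd]; exact (le_max_right _ _).trans ((le_max_left _ _).trans (le_max_left _ _))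
  have k3 : K3 ≤ K := by rw [hKd]; exact (le_max_left _ _).trans ((le_max_right _ _).trans (le_max_left _ _))
  have k4 : K4 ≤ K := by rw [hKd]; exact (le_max_right _ _).trans ((le_max_right _ _).trans (le_max_left _ _))
  have k5 : K5 ≤ K := by rw [hKd]; exact (le_max_left _ _).trans ((le_max_left _ _).trans (le_max_right _ _))
  have k6 : K6 ≤ K := by rw [hKd]; exact (le_max_right _ _).trans ((le_max_left _ _).trans (le_max_right _ _))
  have k7 : 256 ≤ K := by rw [hKd]; exact (le_max_left _ _).trans ((le_max_right _ _).trans (le_max_right _ _))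
  have k8 : (8 / ce) ^ 8 ≤ K := by
    rw [hKd]; exact (le_max_right _ _).trans ((le_max_right _ _).trans (le_max_right _ _))
  clear hKd
  have hKp : 1 ≤ K := hK1.trans k1
  have hK0 : 0 ≤ K := by linarith
  have hQ1 : 1 ≤ Q := hreg.Q_pos hKp
  have hQ1' : (1 : ℝ) ≤ Q := by exact_mod_cast hQ1
  have hQK := hreg.Q_ge hKp
  have hlQ := hreg.logQ_ge hKp
  have hX1 : 1 ≤ X := hreg.X_pos (by linarith)
  have hX0 : (0 : ℝ) < X := by exact_mod_cast hX1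
  have hr0 : 1 ≤ r := Nat.pos_of_ne_zero (NeZero.ne r)
  have hr : r ≤ Q := (Nat.le_self_pow (by norm_num) r).trans hr100
  have hη : 0 < 1 - β := by linarith
  have hβ12 : 1 / 2 ≤ β := by
    by_contra hcon
    have h1 : (1 / 2 : ℝ) ≤ 1 - β := by linarith [not_le.1 hcon]
    have h2 : (1 / 2 : ℝ) * 3 ≤ (1 - β) * Real.log Q :=
      mul_le_mul h1 (by linarith) (by norm_num) hη.le
    linarith
  have hL := hL1 kp (by linarith) Q X (hreg.mono hK0 k1) hkQ r ψ hr hprim hψ1 hψ2 β hβ hLβ hsmall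
  have hmemψ : (⟨r, ψ⟩ : Σ r : ℕ, DirichletCharacter ℂ r) ∈ PC Q :=
    mem_PC.2 ⟨hr0, hr, hprim⟩
  have hneψ : (⟨r, ψ⟩ : Σ r : ℕ, DirichletCharacter ℂ r) ≠ p0 := by
    intro h
    unfold p0 at h
    obtain ⟨h1, h2⟩ := Sigma.mk.inj_iff.1 h
    subst h1
    exact hψ1 (eq_of_heq h2)
  obtain ⟨x, hxd⟩ : ∃ x, x = (1 - β) * Real.log Q := ⟨_, rfl⟩
  have hx0 : 0 < x := by rw [hxd]; exact mul_pos hη (by linarith)
  rw [← hxd] at hsmall hL ⊢
  obtain ⟨q, hq⟩ : ∃ q, q = (Q : ℝ) ^ (-(5 / 2) : ℝ) := ⟨_, rfl⟩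
  have hq0 : 0 ≤ q := by rw [hq]; positivity
  obtain ⟨q', hq'⟩ : ∃ q', q' = (Q : ℝ) ^ (-(3 / 2) : ℝ) := ⟨_, rfl⟩
  have hq'0 : 0 ≤ q' := by rw [hq']; positivity
  obtain ⟨I, hI⟩ : ∃ I : (Σ r : ℕ, DirichletCharacter ℂ r) → ℝ, I = fun p =>
    (if p = p0 then ∫ t in (-(Q : ℝ) ^ 7)..((Q : ℝ) ^ 7), ‖FL X p0 t - F0 X t‖
      else if p = ⟨r, ψ⟩ then ∫ t in (-(Q : ℝ) ^ 7)..((Q : ℝ) ^ 7), ‖FL X ⟨r, ψ⟩ t + Fb X β t‖
      else ∫ t in (-(Q : ℝ) ^ 7)..((Q : ℝ) ^ 7), ‖FL X p t‖) := ⟨_, rfl⟩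
  have hI0 : ∀ p, 0 ≤ I p := by
    intro p
    rw [hI]
    simp only
    split_ifs
    · exact cl1_int_nonneg Q _
    · exact cl1_int_nonneg Q _
    · exact cl1_int_nonneg Q _
  obtain ⟨eb, heb⟩ : ∃ eb : (Σ r : ℕ, DirichletCharacter ℂ r) → ℝ, eb = fun p =>
    I p + q + (if p = ⟨r, ψ⟩ then q' else 0) := ⟨_, rfl⟩
  have heb0 : ∀ p, 0 ≤ eb p := by
    intro p
    rw [heb]
    have := hI0 p
    simp only
    split_ifs <;> linarith
  have hIsum : ∑ p ∈ PC Q, I p ≤ (C1 * Real.exp (-(kp / C1)) + 1 / Q) * x := by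
    rw [ph_split (PC Q) p0 (p0_mem hQ1) (fun p => p ≠ p0) (fun _ => Iff.rfl),
      ph_split ((PC Q).filter (fun p => p ≠ p0)) ⟨r, ψ⟩ (mem_filter.2 ⟨hmemψ, hneψ⟩)
        (fun p => p ≠ ⟨r, ψ⟩) (fun _ => Iff.rfl)]
    have hfilt : ((PC Q).filter (fun p => p ≠ p0)).filter (fun p => p ≠ ⟨r, ψ⟩) =
        (PC Q).filter (fun p => p ≠ p0 ∧ p ≠ ⟨r, ψ⟩) := by
      ext p
      simp only [mem_filter]
      tauto
    rw [hfilt]
    have e1 : I p0 = ∫ t in (-(Q : ℝ) ^ 7)..((Q : ℝ) ^ 7), ‖FL X p0 t - F0 X t‖ := by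
      rw [hI]
      beta_reduce
      rw [if_pos rfl]
    have e2 : I ⟨r, ψ⟩ = ∫ t in (-(Q : ℝ) ^ 7)..((Q : ℝ) ^ 7), ‖FL X ⟨r, ψ⟩ t + Fb X β t‖ := by
      rw [hI]
      beta_reduce
      rw [if_neg hneψ, if_pos rfl]
    have e3 : ∑ p ∈ (PC Q).filter (fun p => p ≠ p0 ∧ p ≠ ⟨r, ψ⟩), I p =
        ∑ p ∈ (PC Q).filter (fun p => p ≠ p0 ∧ p ≠ ⟨r, ψ⟩),
          ∫ t in (-(Q : ℝ) ^ 7)..((Q : ℝ) ^ 7), ‖FL X p t‖ := by
      refine Finset.sum_congr rfl fun p hp => ?_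
      rw [hI]
      simp only
      rw [if_neg (mem_filter.1 hp).2.1, if_neg (mem_filter.1 hp).2.2]
    rw [e1, e2, e3]
    linarith
  obtain ⟨η, hηd⟩ : ∃ η, η = 1 - (X : ℝ) ^ (β - 1) := ⟨_, rfl⟩
  have hlQX : Real.log Q ≤ Real.log X := by
    have h1 : 1 * Real.log Q ≤ kp * Real.log Q :=
      mul_le_mul_of_nonneg_right (by linarith) (by linarith)
    linarith
  have hηx : x / 2 ≤ η := by
    rw [hηd, hxd]
    exact a4_eta hX1 hβ hlQX (by rw [← hxd]; linarith)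
  have hη0 : 0 < η := by linarith
  -- the size of η
  have hηQ : 4 * (Q : ℝ) ^ (-(1 / 4) : ℝ) ≤ η := by
    have hr1 : (1 : ℝ) ≤ r := by exact_mod_cast hr0
    have h6 := hel r ψ hψ1 hψ2 β hβ hLβ
    have h7 : ce / (r : ℝ) ^ 2 ≤ x := by
      rw [hxd]
      have h8 : 0 ≤ ce / (r : ℝ) ^ 2 := by positivity
      calc ce / (r : ℝ) ^ 2 = ce / (r : ℝ) ^ 2 * 1 := (mul_one _).symm
        _ ≤ (1 - β) * Real.log Q := mul_le_mul h6 (by linarith) zero_le_one hη.le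
    have h8 : 8 / ce * (r : ℝ) ^ 2 ≤ (Q : ℝ) ^ (1 / 4 : ℝ) := by
      have h9 : (8 / ce * (r : ℝ) ^ 2) ^ 8 ≤ (Q : ℝ) ^ 2 := by
        have h10 : (r : ℝ) ^ 16 ≤ Q := by
          have : r ^ 16 ≤ Q := (Nat.pow_le_pow_right hr0 (by norm_num)).trans hr100
          exact_mod_cast this
        calc (8 / ce * (r : ℝ) ^ 2) ^ 8 = (8 / ce) ^ 8 * (r : ℝ) ^ 16 := by ring
          _ ≤ (Q : ℝ) * (Q : ℝ) := mul_le_mul (k8.trans hQK) h10 (by positivity) (by positivity)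
          _ = _ := by ring
      have h11 : ((Q : ℝ) ^ (1 / 4 : ℝ)) ^ 8 = (Q : ℝ) ^ 2 := by
        rw [← Real.rpow_natCast, ← Real.rpow_mul (by linarith)]
        norm_num
      rw [← h11] at h9
      exact le_of_pow_le_pow_left₀ (by norm_num) (by positivity) h9
    have h12 : (0 : ℝ) < (Q : ℝ) ^ (1 / 4 : ℝ) := by positivity
    have h13 : 4 * (Q : ℝ) ^ (-(1 / 4) : ℝ) ≤ ce / (r : ℝ) ^ 2 / 2 := by
      have h14 : 4 * (Q : ℝ) ^ (-(1 / 4) : ℝ) = 4 / (Q : ℝ) ^ (1 / 4 : ℝ) := by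
        rw [Real.rpow_neg (by linarith)]
        exact (div_eq_mul_inv _ _).symm
      have h15 : ce / (r : ℝ) ^ 2 / 2 = 4 / (8 / ce * (r : ℝ) ^ 2) := by
        have hr2 : (0 : ℝ) < (r : ℝ) ^ 2 := by positivity
        rw [eq_div_iff (by positivity)]
        have e1 : ce / (r : ℝ) ^ 2 / 2 * (8 / ce * (r : ℝ) ^ 2) =
            4 * (ce / ce) * ((r : ℝ) ^ 2 / (r : ℝ) ^ 2) := by ring
        rw [e1, div_self hce.ne', div_self hr2.ne']
        norm_num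
      rw [h14, h15]
      exact div_le_div_of_nonneg_left (by norm_num) (by positivity) h8
    linarith
  have hsum : ∑ p ∈ PC Q, eb p ≤
      η * (2 * C1 * Real.exp (-(kp / (2 * C1))) + (Q : ℝ) ^ (-(1 / 4) : ℝ)) := by
    have h1 : ∑ p ∈ PC Q, eb p = ∑ p ∈ PC Q, I p + (PC Q).card * q + q' := by
      rw [heb, Finset.sum_add_distrib, Finset.sum_add_distrib, Finset.sum_const, nsmul_eq_mul,
        Finset.sum_ite_eq' (PC Q) _ (fun _ => q'), if_pos hmemψ]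
    have h3 : ((PC Q).card : ℝ) * q ≤ 1 / Real.sqrt Q := by
      rw [← (cl1_Qpow hQ1).1, ← hq]
      apply mul_le_mul_of_nonneg_right _ hq0
      exact_mod_cast card_PC_le Q
    have h4 : q' ≤ 1 / Real.sqrt Q := by rw [hq']; exact (cl1_Qpow hQ1).2
    have hq4 : 0 < (Q : ℝ) ^ (-(1 / 4) : ℝ) := by positivity
    have hsq : 1 / Real.sqrt Q = (Q : ℝ) ^ (-(1 / 4) : ℝ) * (Q : ℝ) ^ (-(1 / 4) : ℝ) := by
      rw [Real.sqrt_eq_rpow, one_div, ← Real.rpow_neg (by linarith), ← Real.rpow_add (by linarith)]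
      norm_num
    have h5 : 2 / Real.sqrt Q ≤ η / 2 * (Q : ℝ) ^ (-(1 / 4) : ℝ) := by
      have e1 : 2 / Real.sqrt Q = 2 * (Q : ℝ) ^ (-(1 / 4) : ℝ) * (Q : ℝ) ^ (-(1 / 4) : ℝ) := by
        rw [mul_assoc, ← hsq]; ring
      rw [e1]
      exact mul_le_mul_of_nonneg_right (by linarith) hq4.le
    have h6 : 1 / (Q : ℝ) * x ≤ η / 2 * (Q : ℝ) ^ (-(1 / 4) : ℝ) := by
      have e1 : 1 / (Q : ℝ) ≤ 1 / 4 * (Q : ℝ) ^ (-(1 / 4) : ℝ) := by
        have e2 : 1 / (Q : ℝ) ≤ 1 / Real.sqrt Q := a3_inv (by linarith)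
        have e3 : (Q : ℝ) ^ (-(1 / 4) : ℝ) ≤ 1 / 4 := by
          have e4 : (256 : ℝ) ^ (1 / 4 : ℝ) ≤ (Q : ℝ) ^ (1 / 4 : ℝ) :=
            Real.rpow_le_rpow (by norm_num) (by linarith) (by norm_num)
          have e5 : (256 : ℝ) ^ (1 / 4 : ℝ) = 4 := by
            rw [show (256 : ℝ) = 4 ^ (4 : ℝ) by norm_num, ← Real.rpow_mul (by norm_num)]
            norm_num
          rw [e5] at e4
          rw [Real.rpow_neg (by linarith), ← one_div]
          exact one_div_le_one_div_of_le (by norm_num) e4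
        rw [hsq] at e2
        exact e2.trans (mul_le_mul_of_nonneg_right e3 hq4.le)
      calc 1 / (Q : ℝ) * x ≤ (1 / 4 * (Q : ℝ) ^ (-(1 / 4) : ℝ)) * (2 * η) :=
            mul_le_mul e1 (by linarith) hx0.le (by positivity)
        _ = η / 2 * (Q : ℝ) ^ (-(1 / 4) : ℝ) := by ring
    have h7 : C1 * Real.exp (-(kp / C1)) * x ≤ η * (2 * C1 * Real.exp (-(kp / (2 * C1)))) := by
      have e1 : Real.exp (-(kp / C1)) ≤ Real.exp (-(kp / (2 * C1))) := by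
        apply Real.exp_le_exp.2
        have : kp / (2 * C1) ≤ kp / C1 :=
          div_le_div_of_nonneg_left (by linarith) (by linarith) (by linarith)
        linarith
      calc C1 * Real.exp (-(kp / C1)) * x ≤ C1 * Real.exp (-(kp / (2 * C1))) * (2 * η) := by
            apply mul_le_mul _ (by linarith) hx0.le (by positivity)
            exact mul_le_mul_of_nonneg_left e1 (by linarith)
        _ = η * (2 * C1 * Real.exp (-(kp / (2 * C1)))) := by ring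
    have h8 : 2 / Real.sqrt Q = 1 / Real.sqrt Q + 1 / Real.sqrt Q := by ring
    have h9 : (C1 * Real.exp (-(kp / C1)) + 1 / Q) * x = C1 * Real.exp (-(kp / C1)) * x + 1 / Q * x := by
      ring
    rw [h9] at hIsum
    rw [h1]
    linarith
  obtain ⟨μ, hμ⟩ : ∃ μ : ℤ → (Σ r : ℕ, DirichletCharacter ℂ r) → ℂ, μ = fun (m : ℤ) p =>
    if p = p0 then 1 else if p = ⟨r, ψ⟩ then -(((m : ℝ) ^ (β - 1) : ℝ) : ℂ) else 0 := ⟨_, rfl⟩
  have hμ0 : ∀ m, μ m p0 = 1 := fun m => by rw [hμ]; beta_reduce; rw [if_pos rfl]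
  have hμ1 : ∀ m, μ m ⟨r, ψ⟩ = -(((m : ℝ) ^ (β - 1) : ℝ) : ℂ) := fun m => by
    rw [hμ]; beta_reduce; rw [if_neg hneψ, if_pos rfl]
  have hμ2 : ∀ m p, p ≠ p0 → p ≠ ⟨r, ψ⟩ → μ m p = 0 := fun m p h h' => by
    rw [hμ]; beta_reduce; rw [if_neg h, if_neg h']
  have hμX : ∀ m p, MX ⟨r, ψ⟩ (fun m => (m : ℝ) ^ (β - 1)) m p = μ m p := by
    intro m p
    rw [hμ]
    rfl
  have hXr : (1 : ℝ) ≤ X := by exact_mod_cast hX1
  refine ⟨by rw [← hηd]; exact hηx, ?_⟩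
  rw [← hηd]
  refine ⟨hη0, ?_, hmemψ, hψ2, hr100, fun h => absurd h hneψ, ?_, ?_, ?_, ?_⟩
  · rw [hηd]
    have : 0 ≤ (X : ℝ) ^ (β - 1) := by positivity
    linarith
  · intro m hm _
    have hm1 : (1 : ℝ) ≤ (m : ℝ) := by
      have : (1 : ℤ) ≤ m := by omega
      exact_mod_cast this
    exact Real.rpow_nonneg (by linarith) _
  · intro m hm _
    have hmX : (X : ℝ) ≤ (m : ℝ) := by exact_mod_cast hm
    rw [hηd]
    have : (m : ℝ) ^ (β - 1) ≤ (X : ℝ) ^ (β - 1) :=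
      Real.rpow_le_rpow_of_nonpos hX0 hmX (by linarith)
    linarith
  · intro m hm _
    have hm1 : (1 : ℝ) ≤ (m : ℝ) := by
      have : (1 : ℤ) ≤ m := by omega
      exact_mod_cast this
    have hmX : (X : ℝ) ≤ (m : ℝ) := by exact_mod_cast hm
    have hrp := cl1_rpow hm1 (by linarith : 0 ≤ β) hβ.le
    have e1 : (((m + 1 : ℤ) : ℝ)) = (m : ℝ) + 1 := by push_cast; ring
    rw [e1]
    refine hrp.1.trans ((one_div_le_one_div_of_le hX0 hmX).trans ?_)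
    apply div_le_div_of_nonneg_right _ hX0.le
    exact one_le_pow₀ hQ1'
  · refine ⟨fun m p => Bc Q X p m - μ m p, eb, fun p _ => heb0 p, hsum, ?_⟩
    intro m hm hm4
    have hm1 : (1 : ℝ) ≤ (m : ℝ) := by
      have : (1 : ℤ) ≤ m := by omega
      exact_mod_cast this
    have hmX : (X : ℝ) ≤ (m : ℝ) := by exact_mod_cast hm
    have hrp := cl1_rpow hm1 (by linarith : 0 ≤ β) hβ.le
    refine ⟨?_, ?_⟩
    · rw [hLk Q X (hreg.mono hK0 k3) m hm hm4]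
      congr 1
      funext p
      rw [hμX]
      ring
    · intro p hp
      have hpos : 0 ≤ (Q : ℝ) ^ 3 / X := by positivity
      have hQ3 : (2 : ℝ) ≤ (Q : ℝ) ^ 3 := by
        have h1 : (3 : ℝ) ^ 3 ≤ (Q : ℝ) ^ 3 := pow_le_pow_left₀ (by norm_num) (by linarith) 3
        linarith
      have hdμ : ‖μ (m + 1) p - μ m p‖ ≤ 1 / X := by
        by_cases h : p = p0
        · rw [h, hμ0, hμ0, sub_self, norm_zero]
          positivity
        · by_cases h' : p = ⟨r, ψ⟩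
          · rw [h', hμ1, hμ1]
            have e1 : -((((m + 1 : ℤ) : ℝ) ^ (β - 1) : ℝ) : ℂ) - -(((m : ℝ) ^ (β - 1) : ℝ) : ℂ) =
                -((((m : ℝ) + 1) ^ (β - 1) - (m : ℝ) ^ (β - 1) : ℝ) : ℂ) := by
              push_cast
              ring
            rw [e1, norm_neg, Complex.norm_real, Real.norm_eq_abs]
            exact hrp.1.trans (one_div_le_one_div_of_le hX0 hmX)
          · rw [hμ2 _ p h h', hμ2 _ p h h', sub_self, norm_zero]
            positivity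
      beta_reduce
      refine ⟨?_, ?_⟩
      · rw [heb, hI]
        simp only
        by_cases h : p = p0
        · have h'' : p0 ≠ (⟨r, ψ⟩ : Σ r : ℕ, DirichletCharacter ℂ r) := fun h3 => hneψ h3.symm
          rw [h, hμ0, if_pos rfl, if_neg h'', add_zero, hq]
          exact hB0 Q X (hreg.mono hK0 k4) m hm hm4
        · by_cases h' : p = ⟨r, ψ⟩
          · rw [h', hμ1, if_neg hneψ, if_pos rfl, if_pos rfl, sub_neg_eq_add]
            have h1 := hB1 Q X (hreg.mono hK0 k6) ⟨r, ψ⟩ hr0 β hβ12 hβ.le m hm hm4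
            rw [← hq'] at h1
            refine le_trans h1 ?_
            linarith
          · rw [hμ2 _ p h h', if_neg h, if_neg h', if_neg h', sub_zero, add_zero, hq]
            exact hB Q X (hreg.mono hK0 k5) p (mem_PC.1 hp).1 m hm hm4
      · have h1 := hLip Q X (hreg.mono hK0 k2) p m hm hm4
        have h2 : (Bc Q X p (m + 1) - μ (m + 1) p) - (Bc Q X p m - μ m p) =
            (Bc Q X p (m + 1) - Bc Q X p m) - (μ (m + 1) p - μ m p) := by ring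
        rw [h2]
        refine (norm_sub_le _ _).trans ((add_le_add h1 hdμ).trans ?_)
        have h3 : (Q : ℝ) ^ 3 / (2 * X) + 1 / X = ((Q : ℝ) ^ 3 / 2 + 1) / X := by
          field_simp
        rw [h3]
        apply div_le_div_of_nonneg_right _ hX0.le
        linarith

end Pool.Agent.Lib.H59P
end
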