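import Pool.Agent.Lib.H59M.M1.M003
import Pool.Agent.Lib.H59M.M1.M008
import Pool.Agent.Lib.H59M.M1.M023
import Pool.Agent.Lib.H59M.M1.M056

/-! Merged copies (to shorten the build) of Lib.H59T.FDefs, Lib.H59T.C3, Lib.H59T.L1, Lib.H59T.L2, Lib.H59T.L3, Lib.H59T.L4, Lib.H59T.E3, Lib.H59T.E4, Lib.H59T.G1, Lib.H59T.G2, Lib.H59T.G3, Lib.H59T.G4, Lib.H59T.G5, Lib.H59T.E7, Lib.H59T.LKDefs, Lib.H59T.UD. -/

-- from Lib.H59T.FDefs
section

/-!
# Project H59T, second part: mean squares of components over pairs (definitions)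

`(y, y')` is random, one sums over `z`. The mean square is a sum over pairs `(κ, κ')` of complete sums in the four
variables `y, y', z, z'`, which factor over the primes.
-/

open Finset

namespace Pool.Agent.Lib.H59T

open Pool.Agent.Lib.H68T Pool.Agent.Lib.H18Q Pool.Agent.Lib.H59P

noncomputable section

/-- The sum over a complete period in four variables. -/
def S4 (N : ℕ) (F : ℤ → ℤ → ℤ → ℤ → ℂ) : ℂ :=
  ∑ y ∈ range N, ∑ y' ∈ range N, ∑ z ∈ range N, ∑ z' ∈ range N, F y y' z z'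

/-- Periodic in each of the four variables. -/
structure Per4 (N : ℕ) (F : ℤ → ℤ → ℤ → ℤ → ℂ) : Prop where
  h1 : ∀ y y' z z' : ℤ, F (y + N) y' z z' = F y y' z z'
  h2 : ∀ y y' z z' : ℤ, F y (y' + N) z z' = F y y' z z'
  h3 : ∀ y y' z z' : ℤ, F y y' (z + N) z' = F y y' z z'
  h4 : ∀ y y' z z' : ℤ, F y y' z (z' + N) = F y y' z z'

/-- Integer functions of `(y, y', z)`. -/
abbrev Fm (k : ℕ) := Fin k → ℤ → ℤ → ℤ → ℤ

/-- Congruence preserving in each variable. -/
def CpF {k : ℕ} (ψ : Fm k) : Prop := ∀ (i : Fin k) (q y y' z : ℤ),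
  q ∣ ψ i (y + q) y' z - ψ i y y' z ∧ q ∣ ψ i y (y' + q) z - ψ i y y' z ∧
    q ∣ ψ i y y' (z + q) - ψ i y y' z



/-- The doubled product `∏ g_i(ψ_i(y,y',z)) conj g'_i(ψ_i(y,y',z'))`. -/
def Db {k : ℕ} (ψ : Fm k) (g g' : Fin k → ℤ → ℂ) (y y' z z' : ℤ) : ℂ :=
  ∏ i, (g i (ψ i y y' z) * (starRingEnd ℂ) (g' i (ψ i y y' z')))

/-- `F l` is the primitive character modulo the exact power of `l` in `p.1`, for the primes `l ∣ p.1`, and `p` is
their product. -/
def LCh (p : Ch) (F : ℕ → Ch) : Prop :=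
  (∀ l ∈ p.1.primeFactors, (F l).1 = l ^ p.1.factorization l ∧ (F l).2.IsPrimitive) ∧
    ∀ n : ℤ, p.2 (n : ZMod p.1) = ∏ l ∈ p.1.primeFactors, (F l).2 (n : ZMod (F l).1)

/-- The local components of a character. -/
def lch (p : Ch) : ℕ → Ch := open Classical in if h : ∃ F : ℕ → Ch, LCh p F then h.choose else fun _ => p0

/-- The local factor at the prime `l` of the component `gk p κ`. -/
def lf (p : Ch) (κ l : ℕ) (m : ℤ) : ℂ :=
  if l ∣ p.1 then (((l : ℝ) / ((l : ℝ) - 1) : ℝ) : ℂ) * cj (lch p l) m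
  else if l ∣ κ then ((gl l m : ℝ) : ℂ) else 1

/-- The least common multiple of the conductors. -/
def Rm {k : ℕ} (p : Fin k → Ch) : ℕ := univ.lcm fun i => (p i).1

/-- Positive conductors, primitive characters. -/
def Pm {k : ℕ} (p : Fin k → Ch) : Prop := ∀ i, 0 < (p i).1 ∧ (p i).2.IsPrimitive

/-- Squarefree, coprime to the conductors. -/
def Kp {k : ℕ} (p : Fin k → Ch) (κ : Fin k → ℕ) : Prop :=
  ∀ i, Squarefree (κ i) ∧ Nat.Coprime (κ i) (p i).1

/-- The local bounds: gain `(l^b)^(-c)` at the primes `l` dividing the conductors (`l^b` exactly divides their least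
common multiple) and `l^(-2)` at the other primes which divide some modulus, up to constants `2^A`. -/
def LocB {k : ℕ} (ψ : Fm k) (A : ℕ) (c : ℝ) : Prop :=
  ∀ p : Fin k → Ch, Pm p → ∀ κ κ' : Fin k → ℕ, Kp p κ → Kp p κ' → ∀ l : ℕ, l.Prime →
    (l ∣ Rm p → ‖S4 (l ^ (Rm p).factorization l)
        (Db ψ (fun i => lf (p i) (κ i) l) (fun i => lf (p i) (κ' i) l))‖ ≤
      ((l ^ (Rm p).factorization l : ℕ) : ℝ) ^ 4 *
        (2 ^ A * ((l ^ (Rm p).factorization l : ℕ) : ℝ) ^ (-c))) ∧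
    (¬ l ∣ Rm p → (∃ i, l ∣ κ i ∨ l ∣ κ' i) →
      ‖S4 l (Db ψ (fun i => lf (p i) (κ i) l) (fun i => lf (p i) (κ' i) l))‖ ≤
        (l : ℝ) ^ 4 * (2 ^ A / (l : ℝ) ^ 2))

open Classical in
/-- The product of the primes dividing some `κ_i` or `κ'_i` but not `R`. -/
def dof {k : ℕ} (R : ℕ) (κ κ' : Fin k → ℕ) : ℕ :=
  ∏ l ∈ (univ.biUnion fun i => (κ i).primeFactors ∪ (κ' i).primeFactors).filter (fun l => ¬ l ∣ R), l

/-- The number of divisors. -/
def tau (n : ℕ) : ℝ := (n.divisors.card : ℝ)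

/-- `gl l` as a function on `ZMod l`. -/
def glz (l : ℕ) (t : ZMod l) : ℝ := if t = 0 then -1 else 1 / ((l : ℝ) - 1)

end

end Pool.Agent.Lib.H59T
end

-- from Lib.H59T.C3
section

/-!
# Project H59T, chunk C3 (S): complete sums over `ZMod N`
-/

open Finset

namespace Pool.Agent.Lib.H59T

open Pool.Agent.Lib.H68T Pool.Agent.Lib.H18Q Pool.Agent.Lib.H59P

theorem C3_nest (N : ℕ) [NeZero N] (G : ZMod N → ZMod N → ZMod N → ZMod N → ℂ) :
    S4 N (fun y y' z z' => G y y' z z') = ∑ y, ∑ y', ∑ z, ∑ z', G y y' z z' := by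
  unfold S4
  simp only [Int.cast_natCast]
  rw [← CA_range N (fun y => ∑ y', ∑ z, ∑ z', G y y' z z')]
  refine Finset.sum_congr rfl fun y _ => ?_
  rw [← CA_range N (fun y' => ∑ z, ∑ z', G y y' z z')]
  refine Finset.sum_congr rfl fun y' _ => ?_
  rw [← CA_range N (fun z => ∑ z', G y y' z z')]
  refine Finset.sum_congr rfl fun z _ => ?_
  rw [← CA_range N (fun z' => G y y' z z')]

theorem C3_fin (N : ℕ) [NeZero N] (G : ZMod N → ZMod N → ZMod N → ZMod N → ℂ) :
    S4 N (fun y y' z z' => G y y' z z') = ∑ x : Fin 4 → ZMod N, G (x 0) (x 1) (x 2) (x 3) := by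
  rw [C3_nest]
  let e : (Fin 4 → ZMod N) ≃ ZMod N × ZMod N × ZMod N × ZMod N :=
    { toFun := fun x => (x 0, x 1, x 2, x 3)
      invFun := fun t => ![t.1, t.2.1, t.2.2.1, t.2.2.2]
      left_inv := fun x => by funext i; fin_cases i <;> rfl
      right_inv := fun t => rfl }
  have h1 : ∑ x : Fin 4 → ZMod N, G (x 0) (x 1) (x 2) (x 3) =
      ∑ t : ZMod N × ZMod N × ZMod N × ZMod N, G t.1 t.2.1 t.2.2.1 t.2.2.2 :=
    Fintype.sum_equiv e _ _ fun x => rfl
  rw [h1, Fintype.sum_prod_type]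
  refine Finset.sum_congr rfl fun y _ => ?_
  rw [Fintype.sum_prod_type]
  refine Finset.sum_congr rfl fun y' _ => ?_
  rw [Fintype.sum_prod_type]

theorem C3_fun (N : ℕ) [NeZero N] (f : ℤ → ℂ) (hf : ∀ m, f (m + N) = f m) :
    ∃ G : ZMod N → ℂ, ∀ m : ℤ, f m = G (m : ZMod N) := by
  refine ⟨fun t => f (t.val : ℤ), fun m => ?_⟩
  have h1 : ∀ (k : ℕ) (m : ℤ), f (m + (k : ℤ) * N) = f m := by
    intro k
    induction k with
    | zero => intro m; simp
    | succ k ih =>
      intro m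
      have : m + ((k + 1 : ℕ) : ℤ) * N = (m + (k : ℤ) * N) + N := by push_cast; ring
      rw [this, hf, ih]
  have h2 : ∀ (k m : ℤ), f (m + k * N) = f m := by
    intro k m
    obtain ⟨n, rfl | rfl⟩ := k.eq_nat_or_neg
    · exact h1 n m
    · have := h1 n (m + (-(n : ℤ)) * N)
      rw [← this]
      congr 1
      ring
  show f m = f (((m : ZMod N).val : ℕ) : ℤ)
  rw [ZMod.val_intCast]
  have h3 : m = m % (N : ℤ) + (m / (N : ℤ)) * N := by
    have := Int.emod_add_mul_ediv m N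
    linarith
  conv_lhs => rw [h3]
  exact h2 _ _

theorem C3_gl (l : ℕ) (m : ℤ) : gl l m = glz l (m : ZMod l) := by
  unfold gl glz
  simp only [ZMod.intCast_zmod_eq_zero_iff_dvd]

theorem C3_triv (N : ℕ) (F : ℤ → ℤ → ℤ → ℤ → ℂ) (B : ℝ) (hB : ∀ y y' z z', ‖F y y' z z'‖ ≤ B) :
    ‖S4 N F‖ ≤ (N : ℝ) ^ 4 * B := by
  have key : ∀ (g : ℕ → ℂ) (C : ℝ), (∀ j, ‖g j‖ ≤ C) → ‖∑ j ∈ range N, g j‖ ≤ N * C := by
    intro g C hg
    calc ‖∑ j ∈ range N, g j‖ ≤ ∑ j ∈ range N, ‖g j‖ := norm_sum_le _ _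
      _ ≤ ∑ _j ∈ range N, C := Finset.sum_le_sum fun j _ => hg j
      _ = N * C := by rw [Finset.sum_const, card_range, nsmul_eq_mul]
  unfold S4
  calc _ ≤ (N : ℝ) * (N * (N * (N * B))) :=
        key _ _ fun y => key _ _ fun y' => key _ _ fun z => key _ _ fun z' => hB _ _ _ _
    _ = (N : ℝ) ^ 4 * B := by ring

end Pool.Agent.Lib.H59T
end

-- from Lib.H59T.L1
section

/-!
# Project H59T, chunk L1 (M): splitting off a coprime factor of the modulus of a primitive character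
-/

open Finset

namespace Pool.Agent.Lib.H59T

theorem l1_prim (N q m : ℕ) (hN : N = q * m) (hq : 0 < q) (hm : 0 < m)
    (χ : DirichletCharacter ℂ N) (hχ : χ.IsPrimitive)
    (χ1 : DirichletCharacter ℂ q) (χ2 : DirichletCharacter ℂ m)
    (h : ∀ n : ℤ, χ (n : ZMod N) = χ1 (n : ZMod q) * χ2 (n : ZMod m)) : χ1.IsPrimitive := by
  subst hN
  by_contra hne
  have hc : χ1.conductor ∣ q := χ1.conductor_dvd_level
  have hlt : χ1.conductor < q := lt_of_le_of_ne (Nat.le_of_dvd hq hc) hne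
  set c := χ1.conductor with hcdef
  set ψ : DirichletCharacter ℂ (c * m) :=
    DirichletCharacter.changeLevel (dvd_mul_right c m) χ1.primitiveCharacter *
      DirichletCharacter.changeLevel (dvd_mul_left m c) χ2 with hψ
  have hdvd : c * m ∣ q * m := mul_dvd_mul_right hc m
  have key : χ = DirichletCharacter.changeLevel hdvd ψ := by
    apply MulChar.ext
    intro u
    obtain ⟨n, hn⟩ := ZMod.intCast_surjective (u : ZMod (q * m))
    have hu : IsUnit ((n : ℤ) : ZMod (q * m)) := by rw [hn]; exact u.isUnit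
    have hcop : IsCoprime (n : ℤ) ((q * m : ℕ) : ℤ) :=
      ((ZMod.coe_int_isUnit_iff_isCoprime n (q * m)).1 hu).symm
    have hcopq : IsCoprime (n : ℤ) ((q : ℕ) : ℤ) := by
      push_cast at hcop
      exact hcop.of_mul_right_left
    have hcopc : IsCoprime (n : ℤ) ((c * m : ℕ) : ℤ) :=
      hcop.of_isCoprime_of_dvd_right (by exact_mod_cast hdvd)
    rw [← hn, h n, DirichletCharacter.changeLevel_eq_cast_of_dvd' ψ hdvd hcop, hψ, MulChar.mul_apply,
      DirichletCharacter.changeLevel_eq_cast_of_dvd' _ (dvd_mul_right c m) hcopc,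
      DirichletCharacter.changeLevel_eq_cast_of_dvd' _ (dvd_mul_left m c) hcopc,
      DirichletCharacter.primitiveCharacter_apply_of_isCoprime χ1 hcopq]
  have hmem : c * m ∈ χ.conductorSet := ⟨hdvd, ψ, key⟩
  have hle : χ.conductor ≤ c * m := Nat.sInf_le hmem
  have he : χ.conductor = q * m := hχ
  rw [he] at hle
  exact absurd (Nat.mul_lt_mul_of_pos_right hlt hm) (not_lt.2 hle)

/-- Proof. `e = ZMod.chineseRemainder hqm : ZMod (q * m) ≃+* ZMod q × ZMod m` sends the integer `n` to `(n, n)` (`map_intCast`).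
Put `χ1 x = χ (e.symm (x, 1))`, `χ2 y = χ (e.symm (1, y))` (`MulChar`: multiplicative, `0` at nonunits because `(x, 1)` is a unit
iff `x` is). Then `χ n = χ1 n χ2 n` since `(n, n) = (n, 1) (1, n)`. If `χ1` were not primitive, `χ1` would factor through a
proper divisor `c` of `q` (`χ1.factorsThrough_conductor`): `χ1 = changeLevel ξ`, so `χ` agrees with
`changeLevel (changeLevel ξ * changeLevel χ2)`, the inner character of modulus `c m` (equality on units, `MulChar.ext`,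
both sides evaluated at integers prime to `q m`: `DirichletCharacter.changeLevel_eq_cast_of_dvd`); so
`χ.FactorsThrough (c * m)`, and the conductor of `χ` is at most `c m < q m` (it is `sInf` of the conductor set,
`Nat.sInf_le`), a contradiction. The same for `χ2`. -/
theorem L1_split (q m : ℕ) (hq : 0 < q) (hm : 0 < m) (hqm : Nat.Coprime q m)
    (χ : DirichletCharacter ℂ (q * m)) (hχ : χ.IsPrimitive) :
    ∃ (χ1 : DirichletCharacter ℂ q) (χ2 : DirichletCharacter ℂ m), χ1.IsPrimitive ∧ χ2.IsPrimitive ∧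
      ∀ n : ℤ, χ (n : ZMod (q * m)) = χ1 (n : ZMod q) * χ2 (n : ZMod m) := by
  classical
  set e := ZMod.chineseRemainder hqm with he
  have hsymm : ∀ n : ℤ, e.symm ((n : ZMod q), (n : ZMod m)) = (n : ZMod (q * m)) := by
    intro n
    rw [RingEquiv.symm_apply_eq, map_intCast]
    rfl
  let χ1 : DirichletCharacter ℂ q :=
    { toFun := fun x => χ (e.symm (x, 1))
      map_one' := by
        have h1 : e.symm ((1 : ZMod q), (1 : ZMod m)) = 1 := map_one e.symm
        change χ (e.symm ((1 : ZMod q), (1 : ZMod m))) = 1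
        rw [h1, map_one]
      map_mul' := by
        intro x y
        change χ (e.symm ((x * y : ZMod q), (1 : ZMod m))) = χ (e.symm (x, 1)) * χ (e.symm (y, 1))
        rw [← map_mul, ← map_mul, Prod.mk_mul_mk, mul_one]
      map_nonunit' := by
        intro x hx
        change χ (e.symm (x, 1)) = 0
        apply χ.map_nonunit
        intro hu
        apply hx
        have h2 : IsUnit (e (e.symm (x, 1))) := hu.map e
        rw [RingEquiv.apply_symm_apply, Prod.isUnit_iff] at h2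
        exact h2.1 }
  let χ2 : DirichletCharacter ℂ m :=
    { toFun := fun y => χ (e.symm (1, y))
      map_one' := by
        have h1 : e.symm ((1 : ZMod q), (1 : ZMod m)) = 1 := map_one e.symm
        change χ (e.symm ((1 : ZMod q), (1 : ZMod m))) = 1
        rw [h1, map_one]
      map_mul' := by
        intro x y
        change χ (e.symm ((1 : ZMod q), (x * y : ZMod m))) = χ (e.symm (1, x)) * χ (e.symm (1, y))
        rw [← map_mul, ← map_mul, Prod.mk_mul_mk, mul_one]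
      map_nonunit' := by
        intro x hx
        change χ (e.symm (1, x)) = 0
        apply χ.map_nonunit
        intro hu
        apply hx
        have h2 : IsUnit (e (e.symm (1, x))) := hu.map e
        rw [RingEquiv.apply_symm_apply, Prod.isUnit_iff] at h2
        exact h2.2 }
  have h : ∀ n : ℤ, χ (n : ZMod (q * m)) = χ1 (n : ZMod q) * χ2 (n : ZMod m) := by
    intro n
    change χ (n : ZMod (q * m)) = χ (e.symm ((n : ZMod q), 1)) * χ (e.symm (1, (n : ZMod m)))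
    rw [← map_mul, ← map_mul, Prod.mk_mul_mk, mul_one, one_mul, hsymm]
  refine ⟨χ1, χ2, ?_, ?_, h⟩
  · exact l1_prim (q * m) q m rfl hq hm χ hχ χ1 χ2 h
  · exact l1_prim (q * m) m q (mul_comm q m) hm hq χ hχ χ2 χ1 (fun n => by rw [h n, mul_comm])

end Pool.Agent.Lib.H59T
end

-- from Lib.H59T.L2
section

/-!
# Project H59T, chunk L2 (M): a primitive character is the product of primitive characters of prime power moduli
-/

open Finset

namespace Pool.Agent.Lib.H59T

open Pool.Agent.Lib.H68T Pool.Agent.Lib.H18Q Pool.Agent.Lib.H59P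

theorem l2_aux (r : ℕ) : 0 < r → ∀ χ : DirichletCharacter ℂ r, χ.IsPrimitive → ∃ F : ℕ → Ch, LCh ⟨r, χ⟩ F := by
  induction r using Nat.recOnPosPrimePosCoprime with
  | zero => intro h; exact absurd h (lt_irrefl 0)
  | one =>
    intro _ χ _
    refine ⟨fun _ => ⟨1, χ⟩, fun l hl => ?_, fun n => ?_⟩
    · simp at hl
    · change χ (n : ZMod 1) = ∏ l ∈ (1 : ℕ).primeFactors, χ (n : ZMod 1)
      rw [Nat.primeFactors_one, prod_empty, Subsingleton.elim (n : ZMod 1) 1, map_one]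
  | prime_pow p n hp hn =>
    intro _ χ hχ
    have h1 : (p ^ n).primeFactors = {p} := Nat.primeFactors_prime_pow hn.ne' hp
    refine ⟨fun _ => ⟨p ^ n, χ⟩, fun l hl => ?_, fun m => ?_⟩
    · change l ∈ (p ^ n).primeFactors at hl
      rw [h1, mem_singleton] at hl
      refine ⟨?_, hχ⟩
      change p ^ n = l ^ (p ^ n).factorization l
      rw [hl, hp.factorization_pow, Finsupp.single_eq_same]
    · change χ (m : ZMod (p ^ n)) = ∏ l ∈ (p ^ n).primeFactors, χ (m : ZMod (p ^ n))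
      rw [h1, prod_singleton]
  | coprime a b ha hb hab iha ihb =>
    intro _ χ hχ
    obtain ⟨χ1, χ2, h1, h2, h3⟩ := L1_split a b (by omega) (by omega) hab χ hχ
    obtain ⟨F1, hF1, hF1'⟩ := iha (by omega) χ1 h1
    obtain ⟨F2, hF2, hF2'⟩ := ihb (by omega) χ2 h2
    have hdisj : Disjoint a.primeFactors b.primeFactors := hab.disjoint_primeFactors
    have hb2 : ∀ l ∈ b.primeFactors, ¬ l ∈ a.primeFactors := fun l hl hl' => disjoint_left.1 hdisj hl' hl
    refine ⟨fun l => if l ∈ a.primeFactors then F1 l else F2 l, fun l hl => ?_, fun n => ?_⟩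
    · change l ∈ (a * b).primeFactors at hl
      change (if l ∈ a.primeFactors then F1 l else F2 l).1 = l ^ (a * b).factorization l ∧
        (if l ∈ a.primeFactors then F1 l else F2 l).2.IsPrimitive
      rw [hab.primeFactors_mul, mem_union] at hl
      by_cases h4 : l ∈ a.primeFactors
      · rw [if_pos h4, Nat.factorization_eq_of_coprime_left hab (List.mem_toFinset.1 h4)]
        exact hF1 l h4
      · have h5 : l ∈ b.primeFactors := hl.resolve_left h4
        rw [if_neg h4, Nat.factorization_eq_of_coprime_right hab (List.mem_toFinset.1 h5)]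
        exact hF2 l h5
    · change χ (n : ZMod (a * b)) = ∏ l ∈ (a * b).primeFactors,
        (if l ∈ a.primeFactors then F1 l else F2 l).2 (n : ZMod (if l ∈ a.primeFactors then F1 l else F2 l).1)
      rw [h3 n, hab.primeFactors_mul, prod_union hdisj]
      have h6 := hF1' n
      have h7 := hF2' n
      change χ1 (n : ZMod a) = ∏ l ∈ a.primeFactors, (F1 l).2 (n : ZMod (F1 l).1) at h6
      change χ2 (n : ZMod b) = ∏ l ∈ b.primeFactors, (F2 l).2 (n : ZMod (F2 l).1) at h7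
      rw [h6, h7]
      refine congrArg₂ _ (prod_congr rfl fun l hl => ?_) (prod_congr rfl fun l hl => ?_)
      · rw [if_pos hl]
      · rw [if_neg (hb2 l hl)]

/-- Proof. Strong induction on `p.1` (destruct `p = ⟨r, χ⟩`). `r = 1`: `ZMod 1` is a subsingleton, `χ n = χ 1 = 1`, empty product.
`r > 1`: `l = r.minFac`, `r = l^a m` with `a = r.factorization l` (`Nat.ordProj_mul_ordCompl_eq_self`, `m = ordCompl[l] r`, positive,
coprime to `l`); `subst`/generalize so that `L1_split` applies (`q = l^a`); the induction hypothesis for `⟨m, χ2⟩` gives `F'`,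
`F = Function.update F' l ⟨l^a, χ1⟩`. The prime factors of `r` are `l` and those of `m`, and the exponents in `r` and
`m` agree at the primes other than `l` (`Nat.factorization_ordCompl`). -/
theorem L2_family (p : Ch) (h0 : 0 < p.1) (hp : p.2.IsPrimitive) : ∃ F : ℕ → Ch, LCh p F := by
  obtain ⟨r, χ⟩ := p
  exact l2_aux r h0 χ hp

/-- Proof. `Exists.choose_spec`. -/
theorem L2_spec (p : Ch) (h0 : 0 < p.1) (hp : p.2.IsPrimitive) : LCh p (lch p) := by
  have h : ∃ F : ℕ → Ch, LCh p F := L2_family p h0 hp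
  unfold lch
  rw [dif_pos h]
  exact h.choose_spec

end Pool.Agent.Lib.H59T
end

-- from Lib.H59T.L3
section

/-!
# Project H59T, chunk L3 (M): the components as products of local factors
-/

open Finset

namespace Pool.Agent.Lib.H59T

open Pool.Agent.Lib.H68T Pool.Agent.Lib.H18Q Pool.Agent.Lib.H59P

/-- Proof. `r/φ(r) = ∏_{l ∣ r} l/(l-1)` (`GAM_ratio` in `H68T/GAM1`), `conj χ(m) = ∏ conj χ_l(m)` (`L2_spec`, `map_prod`),
`μ(κ) c_κ(m)/φ(κ) = GAM_F 1 m κ` (`CA_F_one` in `H18Q/CA`), multiplicative (`GAM_F_mult`, `prod_primeFactors` for squarefree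
`κ`), with the value `gl l m` at the primes (`GAM_F_prime` for `r = 1`). For `l ∈ P` dividing neither `p.1` nor `κ` the
local factor is `1` (`Finset.prod_subset`); no prime divides both. -/
theorem L3_gk (p : Ch) (h0 : 0 < p.1) (hp : p.2.IsPrimitive) (κ : ℕ) (hκ : Squarefree κ)
    (hc : Nat.Coprime κ p.1) (P : Finset ℕ) (hP : ∀ l ∈ P, l.Prime) (h1 : p.1.primeFactors ⊆ P)
    (h2 : κ.primeFactors ⊆ P) (m : ℤ) : gk p κ m = ∏ l ∈ P, lf p κ l m := by
  have f1 : P.filter (fun l => l ∣ p.1) = p.1.primeFactors := by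
    ext l
    rw [mem_filter, Nat.mem_primeFactors]
    constructor
    · rintro ⟨h, h'⟩
      exact ⟨hP l h, h', h0.ne'⟩
    · rintro ⟨h, h', h''⟩
      exact ⟨h1 (Nat.mem_primeFactors.2 ⟨h, h', h''⟩), h'⟩
  have f2 : P.filter (fun l => l ∣ κ) = κ.primeFactors := by
    ext l
    rw [mem_filter, Nat.mem_primeFactors]
    constructor
    · rintro ⟨h, h'⟩
      exact ⟨hP l h, h', hκ.ne_zero⟩
    · rintro ⟨h, h', h''⟩
      exact ⟨h2 (Nat.mem_primeFactors.2 ⟨h, h', h''⟩), h'⟩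
  have e1 : ∀ l ∈ P, lf p κ l m =
      (if l ∣ p.1 then (((l : ℝ) / ((l : ℝ) - 1) : ℝ) : ℂ) * cj (lch p l) m else 1) *
        (if l ∣ κ then ((gl l m : ℝ) : ℂ) else 1) := by
    intro l hl
    unfold lf
    by_cases a : l ∣ p.1
    · have b : ¬ l ∣ κ := fun h => (hP l hl).one_lt.ne' (Nat.dvd_one.1 (hc ▸ Nat.dvd_gcd h a))
      rw [if_pos a, if_pos a, if_neg b, mul_one]
    · rw [if_neg a, if_neg a, one_mul]
  have L := L2_spec p h0 hp
  rw [Finset.prod_congr rfl e1, Finset.prod_mul_distrib, ← Finset.prod_filter, ← Finset.prod_filter,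
    f1, f2, Finset.prod_mul_distrib]
  unfold gk
  rw [GAM_ratio p.1 h0.ne', ← CA_F_one, ← (GAM_F_mult 1 m).prod_primeFactors hκ, L.2 m, map_prod,
    Complex.ofReal_prod, Complex.ofReal_prod]
  have e2 : ∀ l ∈ κ.primeFactors, ((GAM_F 1 m l : ℝ) : ℂ) = ((gl l m : ℝ) : ℂ) := by
    intro l hl
    have hl' := (Nat.mem_primeFactors.1 hl).1
    have h2 : ¬ l ∣ 1 := fun h => hl'.one_lt.ne' (Nat.dvd_one.1 h)
    rw [GAM_F_prime 1 m l hl', if_neg h2]
    rfl
  rw [Finset.prod_congr rfl e2]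
  rfl

/-- The doubled product. Proof. `L3_gk`, exchange of products (`Finset.prod_comm`), `map_prod`. -/
theorem L3_Db {k : ℕ} (ψ : Fm k) (p : Fin k → Ch) (hp : Pm p) (κ κ' : Fin k → ℕ) (hκ : Kp p κ)
    (hκ' : Kp p κ') (P : Finset ℕ) (hP : ∀ l ∈ P, l.Prime) (h1 : ∀ i, (p i).1.primeFactors ⊆ P)
    (h2 : ∀ i, (κ i).primeFactors ⊆ P) (h3 : ∀ i, (κ' i).primeFactors ⊆ P) (y y' z z' : ℤ) :
    Db ψ (fun i => gk (p i) (κ i)) (fun i => gk (p i) (κ' i)) y y' z z' =
      ∏ l ∈ P, Db ψ (fun i => lf (p i) (κ i) l) (fun i => lf (p i) (κ' i) l) y y' z z' := by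
  unfold Db
  rw [Finset.prod_comm]
  refine Finset.prod_congr rfl fun i _ => ?_
  change gk (p i) (κ i) (ψ i y y' z) * (starRingEnd ℂ) (gk (p i) (κ' i) (ψ i y y' z')) =
    ∏ x ∈ P, lf (p i) (κ i) x (ψ i y y' z) * (starRingEnd ℂ) (lf (p i) (κ' i) x (ψ i y y' z'))
  rw [L3_gk (p i) (hp i).1 (hp i).2 (κ i) (hκ i).1 (hκ i).2 P hP (h1 i) (h2 i),
    L3_gk (p i) (hp i).1 (hp i).2 (κ' i) (hκ' i).1 (hκ' i).2 P hP (h1 i) (h3 i), map_prod,
    ← Finset.prod_mul_distrib]

end Pool.Agent.Lib.H59T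
end

-- from Lib.H59T.L4
section

/-!
# Project H59T, chunk L4 (S/M): size and periods of the local factors
-/

open Finset

namespace Pool.Agent.Lib.H59T

open Pool.Agent.Lib.H68T Pool.Agent.Lib.H18Q Pool.Agent.Lib.H59P

theorem L4_norm (p : Ch) (κ l : ℕ) (hl : l.Prime) (m : ℤ) : ‖lf p κ l m‖ ≤ 2 := by
  have h2 : (2 : ℝ) ≤ l := by exact_mod_cast hl.two_le
  have h1 : (0 : ℝ) < (l : ℝ) - 1 := by linarith
  unfold lf
  split_ifs with ha hb
  · rw [norm_mul, Complex.norm_real, Real.norm_eq_abs, abs_of_nonneg (by positivity)]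
    have h3 : ‖cj (lch p l) m‖ ≤ 1 := by
      unfold cj
      rw [RCLike.norm_conj]
      exact DirichletCharacter.norm_le_one _ _
    have h4 : (l : ℝ) / ((l : ℝ) - 1) ≤ 2 := by
      rw [div_le_iff₀ h1]
      linarith
    calc (l : ℝ) / ((l : ℝ) - 1) * ‖cj (lch p l) m‖ ≤ 2 * 1 := by
          apply mul_le_mul h4 h3 (norm_nonneg _) (by norm_num)
      _ = 2 := by norm_num
  · rw [Complex.norm_real, Real.norm_eq_abs]
    unfold gl
    split_ifs
    · norm_num
    · rw [abs_of_nonneg (by positivity), div_le_iff₀ h1]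
      linarith
  · norm_num

theorem L4_per (p : Ch) (h0 : 0 < p.1) (hp : p.2.IsPrimitive) (κ l b : ℕ) (hl : l.Prime) (hb : 1 ≤ b)
    (hb' : p.1.factorization l ≤ b) (m t : ℤ) : lf p κ l (m + (l : ℤ) ^ b * t) = lf p κ l m := by
  unfold lf
  split_ifs with ha hc
  · have hs := (L2_spec p h0 hp).1 l (Nat.mem_primeFactors.2 ⟨hl, ha, h0.ne'⟩)
    have h1 : ((m + (l : ℤ) ^ b * t : ℤ) : ZMod (lch p l).1) = (m : ZMod (lch p l).1) := by
      have h2 : ((l ^ b : ℕ) : ZMod (lch p l).1) = 0 := by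
        rw [ZMod.natCast_eq_zero_iff, hs.1]
        exact pow_dvd_pow _ hb'
      push_cast at h2 ⊢
      rw [h2]
      ring
    unfold cj
    rw [h1]
  · have h1 : ((l : ℤ) ∣ m + (l : ℤ) ^ b * t) ↔ (l : ℤ) ∣ m := by
      apply Int.dvd_add_left
      exact Dvd.dvd.mul_right (dvd_pow_self _ (by omega)) _
    unfold gl
    simp only [h1]
  · rfl

theorem L4_char (p : Ch) (h0 : 0 < p.1) (hp : p.2.IsPrimitive) (l : ℕ) (hl : l.Prime) (hd : l ∣ p.1) :
    ∃ χ : DirichletCharacter ℂ (l ^ p.1.factorization l), χ.IsPrimitive ∧ ∀ (κ : ℕ) (m : ℤ),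
      lf p κ l m = (((l : ℝ) / ((l : ℝ) - 1) : ℝ) : ℂ) *
        (starRingEnd ℂ) (χ (m : ZMod (l ^ p.1.factorization l))) := by
  have hs := (L2_spec p h0 hp).1 l (Nat.mem_primeFactors.2 ⟨hl, hd, h0.ne'⟩)
  have hlf : ∀ (κ : ℕ) (m : ℤ), lf p κ l m = (((l : ℝ) / ((l : ℝ) - 1) : ℝ) : ℂ) * cj (lch p l) m := by
    intro κ m
    unfold lf
    rw [if_pos hd]
  generalize lch p l = q at hs hlf
  generalize l ^ p.1.factorization l = N at hs
  obtain ⟨r, χ⟩ := q
  obtain ⟨h1, h2⟩ := hs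
  dsimp only at h1 h2
  subst h1
  exact ⟨χ, h2, fun κ m => hlf κ m⟩

theorem L4_Per4 {k : ℕ} (ψ : Fm k) (hψ : CpF ψ) (p : Fin k → Ch) (hp : Pm p) (κ κ' : Fin k → ℕ) (l b : ℕ)
    (hl : l.Prime) (hb : 1 ≤ b) (hb' : ∀ i, (p i).1.factorization l ≤ b) :
    Per4 (l ^ b) (Db ψ (fun i => lf (p i) (κ i) l) (fun i => lf (p i) (κ' i) l)) := by
  have key : ∀ (i : Fin k) (K : ℕ) (u v : ℤ), (((l ^ b : ℕ) : ℤ) ∣ u - v) → lf (p i) K l u = lf (p i) K l v := by
    intro i K u v h
    obtain ⟨t, ht⟩ := h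
    have h1 : u = v + (l : ℤ) ^ b * t := by
      push_cast at ht
      linarith
    rw [h1]
    exact L4_per (p i) (hp i).1 (hp i).2 K l b hl hb (hb' i) v t
  constructor
  · intro y y' z z'
    unfold Db
    refine Finset.prod_congr rfl fun i _ => ?_
    beta_reduce
    rw [key i _ _ _ (hψ i _ y y' z).1, key i _ _ _ (hψ i _ y y' z').1]
  · intro y y' z z'
    unfold Db
    refine Finset.prod_congr rfl fun i _ => ?_
    beta_reduce
    rw [key i _ _ _ (hψ i _ y y' z).2.1, key i _ _ _ (hψ i _ y y' z').2.1]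
  · intro y y' z z'
    unfold Db
    refine Finset.prod_congr rfl fun i _ => ?_
    beta_reduce
    rw [key i _ _ _ (hψ i _ y y' z).2.2]
  · intro y y' z z'
    unfold Db
    refine Finset.prod_congr rfl fun i _ => ?_
    beta_reduce
    rw [key i _ _ _ (hψ i _ y y' z').2.2]

end Pool.Agent.Lib.H59T
end

-- from Lib.H59T.E3
section

/-!
# Project H59T, chunk E3 (M): two independent linear forms modulo a prime
-/

open Finset

namespace Pool.Agent.Lib.H59T

theorem e3_prod (i j : Fin 4) (hij : i ≠ j) (A B L : ℂ) :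
    ∏ k : Fin 4, (if k = i then A else if k = j then B else L) = L ^ 2 * (A * B) := by
  revert hij
  fin_cases i <;> fin_cases j <;> intro hij <;> first | exact absurd rfl hij | (rw [Fin.prod_univ_four]; simp; try ring)

theorem e3_ij (l : ℕ) [Fact l.Prime] (i j : Fin 4) (hij : i ≠ j) (f g : ZMod l → ℂ) :
    ∑ x : Fin 4 → ZMod l, f (x i) * g (x j) = (l : ℂ) ^ 2 * ((∑ t, f t) * ∑ t, g t) := by
  have h1 : ∀ x : Fin 4 → ZMod l, f (x i) * g (x j) = ∏ k : Fin 4, (if k = i then f (x k) else if k = j then g (x k) else 1) := by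
    intro x
    have h2 : ∏ k : Fin 4, (if k = i then f (x k) else if k = j then g (x k) else 1) =
        ∏ k : Fin 4, (if k = i then f (x i) else if k = j then g (x j) else 1) := by
      refine Finset.prod_congr rfl fun k _ => ?_
      split_ifs with h3 h4
      · rw [h3]
      · rw [h4]
      · rfl
    rw [h2, e3_prod i j hij, one_pow, one_mul]
  rw [Finset.sum_congr rfl fun x _ => h1 x]
  have h3 := Finset.prod_univ_sum (fun _ : Fin 4 => (univ : Finset (ZMod l)))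
    (fun k t => if k = i then f t else if k = j then g t else (1 : ℂ))
  rw [Fintype.piFinset_univ] at h3
  rw [← h3]
  have h4 : ∀ k : Fin 4, ∑ t : ZMod l, (if k = i then f t else if k = j then g t else (1 : ℂ)) =
      if k = i then ∑ t, f t else if k = j then ∑ t, g t else (l : ℂ) := by
    intro k
    split_ifs with h5 h6
    · rfl
    · rfl
    · simp [ZMod.card]
  rw [Finset.prod_congr rfl fun k _ => h4 k, e3_prod i j hij]

/-- Proof. Replace the coordinates `i, j` of `x` by `∑ u_k x_k + c` and `∑ v_k x_k + d`: this map of `Fin 4 → ZMod l` to itself is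
injective (the minor is not `0`), so bijective (`Finite.injective_iff_bijective`), and the sum becomes
`∑_x f (x i) g (x j) = l² (∑ f) (∑ g)` (`Finset.prod_univ_sum`/`Fintype.piFinset_univ`, `i ≠ j` because the minor is not `0`). -/
theorem E3_two (l : ℕ) [Fact l.Prime] (u v : Fin 4 → ZMod l) (c d : ZMod l) (i j : Fin 4)
    (hij : u i * v j - u j * v i ≠ 0) (f g : ZMod l → ℂ) :
    ∑ x : Fin 4 → ZMod l, f (∑ k, u k * x k + c) * g (∑ k, v k * x k + d) =
      (l : ℂ) ^ 2 * ((∑ t, f t) * ∑ t, g t) := by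
  have hne : i ≠ j := by
    rintro rfl
    exact hij (by ring)
  let Φ : (Fin 4 → ZMod l) → (Fin 4 → ZMod l) := fun x =>
    Function.update (Function.update x i (∑ k, u k * x k + c)) j (∑ k, v k * x k + d)
  have hΦi : ∀ x, Φ x i = ∑ k, u k * x k + c := by
    intro x
    simp [Φ, Function.update_of_ne hne]
  have hΦj : ∀ x, Φ x j = ∑ k, v k * x k + d := by
    intro x
    simp [Φ]
  have hΦk : ∀ x k, k ≠ i → k ≠ j → Φ x k = x k := by
    intro x k h1 h2
    simp [Φ, Function.update_of_ne h1, Function.update_of_ne h2]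
  have hinj : Function.Injective Φ := by
    intro x y hxy
    have h1 : ∀ k, k ≠ i → k ≠ j → x k - y k = 0 := by
      intro k h1 h2
      rw [← hΦk x k h1 h2, ← hΦk y k h1 h2, hxy, sub_self]
    have hsum : ∀ w : Fin 4 → ZMod l, ∑ k, w k * (x k - y k) = w i * (x i - y i) + w j * (x j - y j) := by
      intro w
      have : ∑ k, w k * (x k - y k) = ∑ k ∈ ({i, j} : Finset (Fin 4)), w k * (x k - y k) := by
        refine (Finset.sum_subset (Finset.subset_univ _) fun k _ hk => ?_).symm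
        rw [Finset.mem_insert, Finset.mem_singleton] at hk
        push Not at hk
        rw [h1 k hk.1 hk.2, mul_zero]
      rw [this, Finset.sum_pair hne]
    have h2 : ∑ k, u k * (x k - y k) = 0 := by
      have h3 := hΦi x
      rw [hxy, hΦi y] at h3
      simp only [mul_sub, Finset.sum_sub_distrib]
      linear_combination -h3
    have h2' : ∑ k, v k * (x k - y k) = 0 := by
      have h3 := hΦj x
      rw [hxy, hΦj y] at h3
      simp only [mul_sub, Finset.sum_sub_distrib]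
      linear_combination -h3
    rw [hsum u] at h2
    rw [hsum v] at h2'
    have h5 : (u i * v j - u j * v i) * (x i - y i) = 0 := by
      linear_combination v j * h2 - u j * h2'
    have h6 : (u i * v j - u j * v i) * (x j - y j) = 0 := by
      linear_combination -v i * h2 + u i * h2'
    have h5' := (mul_eq_zero.1 h5).resolve_left hij
    have h6' := (mul_eq_zero.1 h6).resolve_left hij
    funext k
    by_cases hki : k = i
    · rw [hki]; exact sub_eq_zero.1 h5'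
    · by_cases hkj : k = j
      · rw [hkj]; exact sub_eq_zero.1 h6'
      · exact sub_eq_zero.1 (h1 k hki hkj)
  have hbij : Function.Bijective Φ := Finite.injective_iff_bijective.1 hinj
  rw [← e3_ij l i j hne f g, ← hbij.sum_comp (fun x => f (x i) * g (x j))]
  refine Finset.sum_congr rfl fun x _ => ?_
  rw [hΦi, hΦj]

/-- Proof. `E3_two` with the form `v = e_j`, `j ≠ i`, and `g = 1`. -/
theorem E3_one (l : ℕ) [Fact l.Prime] (u : Fin 4 → ZMod l) (c : ZMod l) (i : Fin 4) (hi : u i ≠ 0)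
    (f : ZMod l → ℂ) : ∑ x : Fin 4 → ZMod l, f (∑ k, u k * x k + c) = (l : ℂ) ^ 3 * ∑ t, f t := by
  obtain ⟨j, hj⟩ : ∃ j : Fin 4, j ≠ i := exists_ne i
  have h := E3_two l u (Pi.single j 1) c 0 i j (by
    rw [Pi.single_eq_same, Pi.single_eq_of_ne hj.symm]
    simpa using hi) f (fun _ => 1)
  simp only [mul_one] at h
  rw [h]
  simp [ZMod.card]
  ring

/-- The number of the common zeros. Proof. `E3_two` with the indicator function of `0`. -/
theorem E3_zero (l : ℕ) [Fact l.Prime] (u v : Fin 4 → ZMod l) (c d : ZMod l) (i j : Fin 4)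
    (hij : u i * v j - u j * v i ≠ 0) :
    ((univ : Finset (Fin 4 → ZMod l)).filter
      (fun x => ∑ k, u k * x k + c = 0 ∧ ∑ k, v k * x k + d = 0)).card = l ^ 2 := by
  have h := E3_two l u v c d i j hij (fun t => if t = 0 then 1 else 0) (fun t => if t = 0 then 1 else 0)
  have h1 : ∑ t : ZMod l, (if t = 0 then (1 : ℂ) else 0) = 1 := by simp
  rw [h1, mul_one, mul_one] at h
  have h2 : (((univ : Finset (Fin 4 → ZMod l)).filter
      (fun x => ∑ k, u k * x k + c = 0 ∧ ∑ k, v k * x k + d = 0)).card : ℂ) = (l : ℂ) ^ 2 := by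
    rw [← h, Finset.card_filter, Nat.cast_sum]
    refine Finset.sum_congr rfl fun x _ => ?_
    by_cases ha : ∑ k, u k * x k + c = 0 <;> by_cases hb : ∑ k, v k * x k + d = 0 <;> simp [ha, hb]
  exact_mod_cast h2

/-- Proof. `(l - 1) (1/(l-1)) - 1 = 0`. -/
theorem E3_glz (l : ℕ) [Fact l.Prime] : ∑ t : ZMod l, glz l t = 0 := by
  have hl : (l : ℝ) - 1 ≠ 0 := by
    have : 2 ≤ l := (Fact.out : l.Prime).two_le
    have h : (2 : ℝ) ≤ l := by exact_mod_cast this
    linarith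
  have h1 : ∀ t : ZMod l, glz l t = 1 / ((l : ℝ) - 1) + if t = 0 then (-1 - 1 / ((l : ℝ) - 1)) else 0 := by
    intro t
    rw [glz]
    split_ifs <;> ring
  rw [Finset.sum_congr rfl fun t _ => h1 t, Finset.sum_add_distrib]
  simp [ZMod.card]
  field_simp
  ring

end Pool.Agent.Lib.H59T
end

-- from Lib.H59T.E4
section

/-!
# Project H59T, chunk E4 (M): products of the factors `gl` at pairwise independent forms
-/

open Finset

namespace Pool.Agent.Lib.H59T

theorem e4_abs (l : ℕ) [Fact l.Prime] (t : ZMod l) : |glz l t| ≤ 1 := by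
  have : 2 ≤ l := (Fact.out : l.Prime).two_le
  have h : (2 : ℝ) ≤ l := by exact_mod_cast this
  rw [glz]
  split_ifs
  · simp
  · rw [abs_of_nonneg (by apply div_nonneg <;> linarith), div_le_one (by linarith)]
    linarith

theorem e4_ne (l : ℕ) [Fact l.Prime] (t : ZMod l) (ht : t ≠ 0) : |glz l t| = 1 / ((l : ℝ) - 1) := by
  have : 2 ≤ l := (Fact.out : l.Prime).two_le
  have h : (2 : ℝ) ≤ l := by exact_mod_cast this
  rw [glz, if_neg ht, abs_of_nonneg (by apply div_nonneg <;> linarith)]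

theorem e4_three (l : ℕ) [Fact l.Prime] (a b c : ZMod l) :
    |glz l a| * |glz l b| * |glz l c| ≤ (if a = 0 ∧ b = 0 then 1 else 0) + (if a = 0 ∧ c = 0 then 1 else 0) +
      (if b = 0 ∧ c = 0 then 1 else 0) + (1 / ((l : ℝ) - 1)) ^ 2 := by
  have : 2 ≤ l := (Fact.out : l.Prime).two_le
  have h : (2 : ℝ) ≤ l := by exact_mod_cast this
  have hq0 : 0 ≤ 1 / ((l : ℝ) - 1) := by apply div_nonneg <;> linarith
  have hA := e4_abs l a
  have hB := e4_abs l b
  have hC := e4_abs l c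
  have hA0 := abs_nonneg (glz l a)
  have hB0 := abs_nonneg (glz l b)
  have hC0 := abs_nonneg (glz l c)
  have hall : |glz l a| * |glz l b| * |glz l c| ≤ 1 := by
    have := mul_le_one₀ (mul_le_one₀ hA hB0 hB) hC0 hC
    exact this
  have hq2 : 0 ≤ (1 / ((l : ℝ) - 1)) ^ 2 := sq_nonneg _
  by_cases ha : a = 0
  · by_cases hb : b = 0
    · simp only [ha, hb, true_and]
      rw [ha, hb] at hall
      split_ifs <;> linarith
    · by_cases hc : c = 0
      · simp only [ha, hc, hb, and_true, and_false, if_true, if_false]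
        rw [ha, hc] at hall
        linarith
      · simp only [hb, hc, and_false, false_and, if_false]
        rw [e4_ne l b hb, e4_ne l c hc, sq, zero_add, zero_add, zero_add, mul_assoc]
        exact mul_le_of_le_one_left (mul_nonneg hq0 hq0) hA
  · by_cases hb : b = 0
    · by_cases hc : c = 0
      · simp only [ha, hc, hb, and_true, false_and, if_true, if_false]
        rw [hb, hc] at hall
        linarith
      · simp only [ha, hc, and_false, false_and, if_false]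
        rw [e4_ne l a ha, e4_ne l c hc, sq, zero_add, zero_add, zero_add, mul_right_comm]
        exact mul_le_of_le_one_right (mul_nonneg hq0 hq0) hB
    · simp only [ha, hb, false_and, if_false]
      rw [e4_ne l a ha, e4_ne l b hb, sq, zero_add, zero_add, zero_add]
      exact mul_le_of_le_one_right (mul_nonneg hq0 hq0) hC

theorem e4_count (l : ℕ) [Fact l.Prime] (u v : Fin 4 → ZMod l) (c d : ZMod l)
    (huv : ∃ a b, u a * v b - u b * v a ≠ 0) :
    ∑ x : Fin 4 → ZMod l, (if ∑ k, u k * x k + c = 0 ∧ ∑ k, v k * x k + d = 0 then (1 : ℝ) else 0) = (l : ℝ) ^ 2 := by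
  obtain ⟨a, b, h⟩ := huv
  have h1 := E3_zero l u v c d a b h
  rw [← Finset.sum_filter, Finset.sum_const, nsmul_eq_mul, mul_one, h1]
  push_cast
  rfl

/-- Proof. `S` has one element: `0` (`E3_one`, `E3_glz`); two elements: `0` (`E3_two`). At least three: choose three different
`i1, i2, i3 ∈ S`; `|glz| ≤ 1`, so the product is at most `|glz glz glz|` at these three. The number of `x` for which at
least two of the three forms vanish is at most `3 l²` (`E3_zero`); for the others at least two factors are `1/(l-1)`, and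
`l⁴/(l-1)² ≤ 4 l²`. Total `7 l²`. -/
theorem E4_gl (l : ℕ) [Fact l.Prime] (m : ℕ) (u : Fin m → Fin 4 → ZMod l) (c : Fin m → ZMod l)
    (hu : ∀ i j, i ≠ j → ∃ a b, u i a * u j b - u i b * u j a ≠ 0) (hu1 : ∀ i, ∃ a, u i a ≠ 0)
    (S : Finset (Fin m)) (hS : S.Nonempty) :
    ‖∑ x : Fin 4 → ZMod l, ∏ i ∈ S, ((glz l (∑ k, u i k * x k + c i) : ℝ) : ℂ)‖ ≤ 7 * (l : ℝ) ^ 2 := by
  have hl2 : 2 ≤ l := (Fact.out : l.Prime).two_le
  have hl : (2 : ℝ) ≤ l := by exact_mod_cast hl2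
  have hz : (∑ t : ZMod l, ((glz l t : ℝ) : ℂ)) = 0 := by
    rw [← Complex.ofReal_sum, E3_glz, Complex.ofReal_zero]
  have hc0 : 1 ≤ S.card := hS.card_pos
  rcases (by omega : S.card = 1 ∨ S.card = 2 ∨ 3 ≤ S.card) with h1 | h2 | h3
  · obtain ⟨i, rfl⟩ := Finset.card_eq_one.1 h1
    obtain ⟨a, ha⟩ := hu1 i
    have h := E3_one l (u i) (c i) a ha (fun t => ((glz l t : ℝ) : ℂ))
    simp only [Finset.prod_singleton]
    rw [h, hz, mul_zero, norm_zero]
    positivity
  · obtain ⟨i, j, hij, rfl⟩ := Finset.card_eq_two.1 h2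
    obtain ⟨a, b, hab⟩ := hu i j hij
    have h := E3_two l (u i) (u j) (c i) (c j) a b hab (fun t => ((glz l t : ℝ) : ℂ)) (fun t => ((glz l t : ℝ) : ℂ))
    simp only [Finset.prod_pair hij]
    rw [h, hz, mul_zero, mul_zero, norm_zero]
    positivity
  · obtain ⟨T, hTS, hT3⟩ := Finset.exists_subset_card_eq h3
    obtain ⟨i, j, k, hij, hik, hjk, rfl⟩ := Finset.card_eq_three.1 hT3
    have hx : ∀ x : Fin 4 → ZMod l, ‖∏ i ∈ S, ((glz l (∑ k, u i k * x k + c i) : ℝ) : ℂ)‖ ≤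
        |glz l (∑ m, u i m * x m + c i)| * |glz l (∑ m, u j m * x m + c j)| * |glz l (∑ m, u k m * x m + c k)| := by
      intro x
      rw [norm_prod]
      simp only [Complex.norm_real, Real.norm_eq_abs]
      rw [← Finset.prod_sdiff hTS]
      have h4 : ∏ i ∈ S \ {i, j, k}, |glz l (∑ k, u i k * x k + c i)| ≤ 1 :=
        Finset.prod_le_one (fun _ _ => abs_nonneg _) (fun _ _ => e4_abs l _)
      have h5 : ∏ i ∈ ({i, j, k} : Finset (Fin m)), |glz l (∑ k, u i k * x k + c i)| =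
          |glz l (∑ m, u i m * x m + c i)| * |glz l (∑ m, u j m * x m + c j)| * |glz l (∑ m, u k m * x m + c k)| := by
        rw [Finset.prod_insert (by simp [hij, hik]), Finset.prod_pair hjk, mul_assoc]
      rw [h5]
      exact mul_le_of_le_one_left (by positivity) h4
    calc ‖∑ x : Fin 4 → ZMod l, ∏ i ∈ S, ((glz l (∑ k, u i k * x k + c i) : ℝ) : ℂ)‖ ≤
        ∑ x : Fin 4 → ZMod l, ‖∏ i ∈ S, ((glz l (∑ k, u i k * x k + c i) : ℝ) : ℂ)‖ := norm_sum_le _ _
      _ ≤ ∑ x : Fin 4 → ZMod l, ((if (∑ m, u i m * x m + c i = 0 ∧ ∑ m, u j m * x m + c j = 0) then (1 : ℝ) else 0) +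
          (if (∑ m, u i m * x m + c i = 0 ∧ ∑ m, u k m * x m + c k = 0) then 1 else 0) +
          (if (∑ m, u j m * x m + c j = 0 ∧ ∑ m, u k m * x m + c k = 0) then 1 else 0) + (1 / ((l : ℝ) - 1)) ^ 2) :=
        Finset.sum_le_sum fun x _ => (hx x).trans (e4_three l _ _ _)
      _ = 3 * (l : ℝ) ^ 2 + (l : ℝ) ^ 4 * (1 / ((l : ℝ) - 1)) ^ 2 := by
        rw [Finset.sum_add_distrib, Finset.sum_add_distrib, Finset.sum_add_distrib, e4_count l _ _ _ _ (hu i j hij),
          e4_count l _ _ _ _ (hu i k hik), e4_count l _ _ _ _ (hu j k hjk), Finset.sum_const, Finset.card_univ,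
          Fintype.card_fun, ZMod.card, Fintype.card_fin, nsmul_eq_mul]
        push_cast
        ring
      _ ≤ 7 * (l : ℝ) ^ 2 := by
        have h6 : (l : ℝ) * (1 / ((l : ℝ) - 1)) ≤ 2 := by
          rw [mul_one_div, div_le_iff₀ (by linarith)]
          linarith
        have h7 : 0 ≤ (l : ℝ) * (1 / ((l : ℝ) - 1)) := by
          apply mul_nonneg (by linarith)
          apply div_nonneg <;> linarith
        have h8 : ((l : ℝ) * (1 / ((l : ℝ) - 1))) ^ 2 ≤ 4 := by nlinarith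
        have h9 : (l : ℝ) ^ 4 * (1 / ((l : ℝ) - 1)) ^ 2 = (l : ℝ) ^ 2 * ((l : ℝ) * (1 / ((l : ℝ) - 1))) ^ 2 := by ring
        rw [h9]
        have h10 : (0 : ℝ) ≤ (l : ℝ) ^ 2 := by positivity
        nlinarith

end Pool.Agent.Lib.H59T
end

-- from Lib.H59T.G1
section

/-!
# Project H59T, chunk G1 (M): Lemma G for prime moduli
-/

open Finset

namespace Pool.Agent.Lib.H59T

theorem g1_double (q : ℕ) (hq : Odd q) (x y : ZMod q) (h : x + x = y + y) : x = y := by
  obtain ⟨k, hk⟩ := hq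
  have h0 : (2 * (k : ZMod q) + 1) = 0 := by
    have : ((2 * k + 1 : ℕ) : ZMod q) = 0 := by rw [← hk]; exact ZMod.natCast_self q
    push_cast at this
    exact this
  linear_combination (-(k : ZMod q)) * h + (x - y) * h0

theorem g1_sub (q : ℕ) [NeZero q] (hq : Odd q) (H : ZMod q → ZMod q → ℂ) :
    ∑ z : ZMod q, ∑ y : ZMod q, H (z + y) (z - y) = ∑ s : ZMod q, ∑ t : ZMod q, H s t := by
  rw [← Fintype.sum_prod_type' (f := fun z y : ZMod q => H (z + y) (z - y)), ← Fintype.sum_prod_type' (f := fun z y : ZMod q => H z y)]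
  have hinj : Function.Injective (fun p : ZMod q × ZMod q => (p.1 + p.2, p.1 - p.2)) := by
    rintro ⟨a, b⟩ ⟨c, d⟩ h
    simp only [Prod.mk.injEq] at h
    obtain ⟨h1, h2⟩ := h
    have h3 : a = c := g1_double q hq a c (by linear_combination h1 + h2)
    have h4 : b = d := by rw [h3] at h1; exact add_left_cancel h1
    rw [h3, h4]
  have hbij : Function.Bijective (fun p : ZMod q × ZMod q => (p.1 + p.2, p.1 - p.2)) :=
    Finite.injective_iff_bijective.1 hinj
  exact hbij.sum_comp (fun p : ZMod q × ZMod q => H p.1 p.2)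

theorem g1_sq {ι : Type*} [Fintype ι] (f : ι → ℂ) : ((‖∑ y, f y‖ ^ 2 : ℝ) : ℂ) = ∑ y1, ∑ y2, f y1 * star (f y2) := by
  rw [← Finset.sum_mul_sum, ← star_sum]
  have := Complex.mul_conj (∑ y, f y)
  rw [Complex.normSq_eq_norm_sq] at this
  rw [← this]
  rfl

/-- The expansion of `GS`, for odd `q`. Proof. Expand the square: sum over `z1, z2, y1, y2` of
`χ(z1+y1) star χ(z2+y1) star χ(z1+y2) χ(z2+y2) · W(z1-y1) W'(z2-y1) star W(z1-y2) star W'(z2-y2)`; substitute
`s = z1 + y1`, `t = z1 - y1` (bijection, `2` is invertible), `a = y2 - y1`, `b = z2 - z1`: the arguments are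
`s, s+b, s+a, s+a+b` and `t, t+b, t-a, t+b-a`. -/
theorem G1_expand (q : ℕ) [NeZero q] (hq : Odd q) (χ : DirichletCharacter ℂ q) (W W' : ZMod q → ℂ) :
    ((GS χ W W' : ℝ) : ℂ) = ∑ a : ZMod q, ∑ b : ZMod q, U4 χ a b *
      ∑ t : ZMod q, W t * W' (t + b) * star (W (t - a)) * star (W' (t + b - a)) := by
  unfold GS U4
  push_cast
  have e1 : ∀ z1 z2 : ZMod q, ((‖∑ y : ZMod q, χ (z1 + y) * star (χ (z2 + y)) * W (z1 - y) * W' (z2 - y)‖ : ℂ)) ^ 2 =
      ∑ y1 : ZMod q, ∑ y2 : ZMod q, (χ (z1 + y1) * star (χ (z2 + y1)) * W (z1 - y1) * W' (z2 - y1)) *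
        star (χ (z1 + y2) * star (χ (z2 + y2)) * W (z1 - y2) * W' (z2 - y2)) := by
    intro z1 z2
    rw [← g1_sq]
    push_cast
    rfl
  simp only [e1]
  -- substitute `z2 = z1 + b`, `y2 = y1 + a`
  have e2 : ∀ z1 : ZMod q, ∑ z2 : ZMod q, ∑ y1 : ZMod q, ∑ y2 : ZMod q,
      (χ (z1 + y1) * star (χ (z2 + y1)) * W (z1 - y1) * W' (z2 - y1)) *
        star (χ (z1 + y2) * star (χ (z2 + y2)) * W (z1 - y2) * W' (z2 - y2)) =
      ∑ b : ZMod q, ∑ y1 : ZMod q, ∑ a : ZMod q,
      (χ (z1 + y1) * star (χ (z1 + b + y1)) * W (z1 - y1) * W' (z1 + b - y1)) *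
        star (χ (z1 + (y1 + a)) * star (χ (z1 + b + (y1 + a))) * W (z1 - (y1 + a)) * W' (z1 + b - (y1 + a))) := by
    intro z1
    rw [← Equiv.sum_comp (Equiv.addLeft z1)]
    refine Finset.sum_congr rfl fun b _ => Finset.sum_congr rfl fun y1 _ => ?_
    rw [← Equiv.sum_comp (Equiv.addLeft y1)]
    rfl
  simp only [e2]
  have e3 : ∀ a b : ZMod q, (∑ s : ZMod q, χ s * star (χ (s + a)) * star (χ (s + b)) * χ (s + a + b)) *
      ∑ t : ZMod q, W t * W' (t + b) * star (W (t - a)) * star (W' (t + b - a)) =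
      ∑ z : ZMod q, ∑ y : ZMod q, (χ (z + y) * star (χ (z + b + y)) * W (z - y) * W' (z + b - y)) *
        star (χ (z + (y + a)) * star (χ (z + b + (y + a))) * W (z - (y + a)) * W' (z + b - (y + a))) := by
    intro a b
    rw [Finset.sum_mul_sum, ← g1_sub q hq]
    refine Finset.sum_congr rfl fun z _ => Finset.sum_congr rfl fun y _ => ?_
    have i1 : z + y + a = z + (y + a) := by ring
    have i2 : z + y + b = z + b + y := by ring
    have i3 : z + (y + a) + b = z + b + (y + a) := by ring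
    have i4 : z - y + b = z + b - y := by ring
    have i5 : z - y - a = z - (y + a) := by ring
    have i6 : z + b - y - a = z + b - (y + a) := by ring
    rw [i1, i2, i3, i4, i5, i6]
    simp only [star_mul', star_star]
    ring
  simp only [e3]
  -- swap the sums
  rw [Finset.sum_comm]
  rw [Finset.sum_comm (s := univ) (t := univ) (f := fun a b => ∑ z : ZMod q, ∑ y : ZMod q, (χ (z + y) * star (χ (z + b + y)) * W (z - y) * W' (z + b - y)) *
        star (χ (z + (y + a)) * star (χ (z + b + (y + a))) * W (z - (y + a)) * W' (z + b - (y + a))))]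
  refine Finset.sum_congr rfl fun b _ => ?_
  rw [Finset.sum_comm (s := univ) (t := univ) (f := fun a z => ∑ y : ZMod q, (χ (z + y) * star (χ (z + b + y)) * W (z - y) * W' (z + b - y)) *
        star (χ (z + (y + a)) * star (χ (z + b + (y + a))) * W (z - (y + a)) * W' (z + b - (y + a))))]
  refine Finset.sum_congr rfl fun z _ => ?_
  rw [Finset.sum_comm]

/-- Proof. `G1_expand`; the inner sum is at most `l`; Cauchy-Schwarz over `a, b` and `K4`:
`l (l² · 13 l³)^(1/2) ≤ 4 l^(7/2)`. -/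
theorem G1 (l : ℕ) [Fact l.Prime] (hl : l ≠ 2) (χ : DirichletCharacter ℂ l) (hχ : χ ≠ 1)
    (W W' : ZMod l → ℂ) (hW : ∀ t, ‖W t‖ ≤ 1) (hW' : ∀ t, ‖W' t‖ ≤ 1) :
    GS χ W W' ≤ 4 * (l : ℝ) ^ (7 / 2 : ℝ) := by
  have hp : l.Prime := Fact.out
  have hodd : Odd l := hp.odd_of_ne_two hl
  have hl0 : (0 : ℝ) ≤ l := Nat.cast_nonneg l
  have h0 : 0 ≤ GS χ W W' := by
    unfold GS
    positivity
  have h1 : GS χ W W' ≤ (l : ℝ) * ∑ a : ZMod l, ∑ b : ZMod l, ‖U4 χ a b‖ := by
    have e1 : GS χ W W' = ‖((GS χ W W' : ℝ) : ℂ)‖ := by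
      rw [Complex.norm_real, Real.norm_of_nonneg h0]
    rw [e1, G1_expand l hodd, Finset.mul_sum]
    refine (norm_sum_le _ _).trans (Finset.sum_le_sum fun a _ => ?_)
    rw [Finset.mul_sum]
    refine (norm_sum_le _ _).trans (Finset.sum_le_sum fun b _ => ?_)
    rw [norm_mul, mul_comm]
    refine mul_le_mul_of_nonneg_right ?_ (norm_nonneg _)
    refine (norm_sum_le _ _).trans ?_
    calc ∑ t : ZMod l, ‖W t * W' (t + b) * star (W (t - a)) * star (W' (t + b - a))‖ ≤ ∑ t : ZMod l, (1 : ℝ) := by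
          refine Finset.sum_le_sum fun t _ => ?_
          rw [norm_mul, norm_mul, norm_mul, norm_star, norm_star]
          have k1 := hW t
          have k2 := hW' (t + b)
          have k3 := hW (t - a)
          have k4 := hW' (t + b - a)
          exact mul_le_one₀ (mul_le_one₀ (mul_le_one₀ k1 (norm_nonneg _) k2) (norm_nonneg _) k3) (norm_nonneg _) k4
      _ = l := by
          rw [Finset.sum_const, Finset.card_univ, ZMod.card, nsmul_eq_mul, mul_one]
  have h2 : (∑ a : ZMod l, ∑ b : ZMod l, ‖U4 χ a b‖) ^ 2 ≤ (l : ℝ) ^ 2 * (13 * (l : ℝ) ^ 3) := by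
    have k := K4 l hl χ hχ
    rw [← Fintype.sum_prod_type' (f := fun a b : ZMod l => ‖U4 χ a b‖)]
    rw [← Fintype.sum_prod_type' (f := fun a b : ZMod l => ‖U4 χ a b‖ ^ 2)] at k
    have k2 := sq_sum_le_card_mul_sum_sq (s := (univ : Finset (ZMod l × ZMod l))) (f := fun p => ‖U4 χ p.1 p.2‖)
    refine k2.trans ?_
    have k3 : ((univ : Finset (ZMod l × ZMod l)).card : ℝ) = (l : ℝ) ^ 2 := by
      rw [Finset.card_univ, Fintype.card_prod, ZMod.card]
      push_cast
      ring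
    rw [k3]
    exact mul_le_mul_of_nonneg_left k (by positivity)
  refine h1.trans ?_
  have h3 : (4 * (l : ℝ) ^ (7 / 2 : ℝ)) ^ 2 = 16 * (l : ℝ) ^ 7 := by
    rw [mul_pow, ← Real.rpow_natCast ((l : ℝ) ^ (7 / 2 : ℝ)) 2, ← Real.rpow_mul hl0, ← Real.rpow_natCast (l : ℝ) 7]
    norm_num
  have h4 : 0 ≤ 4 * (l : ℝ) ^ (7 / 2 : ℝ) := by positivity
  refine (abs_le_of_sq_le_sq' ?_ h4).2
  rw [h3, mul_pow]
  calc (l : ℝ) ^ 2 * (∑ a : ZMod l, ∑ b : ZMod l, ‖U4 χ a b‖) ^ 2 ≤ (l : ℝ) ^ 2 * ((l : ℝ) ^ 2 * (13 * (l : ℝ) ^ 3)) :=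
        mul_le_mul_of_nonneg_left h2 (by positivity)
    _ = 13 * (l : ℝ) ^ 7 := by ring
    _ ≤ 16 * (l : ℝ) ^ 7 := by
        have : 0 ≤ (l : ℝ) ^ 7 := by positivity
        linarith

end Pool.Agent.Lib.H59T
end

-- from Lib.H59T.G2
section

/-!
# Project H59T, chunk G2 (M): characters modulo prime powers near 1
-/

open Finset

namespace Pool.Agent.Lib.H59T

theorem g2_pow (l a k : ℕ) (h : a ≤ k) : (l : ZMod (l ^ a)) ^ k = 0 := by
  have h1 : ((l ^ k : ℕ) : ZMod (l ^ a)) = 0 := (ZMod.natCast_eq_zero_iff _ _).2 (pow_dvd_pow l h)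
  rw [← h1]
  push_cast
  rfl

/-- `t ↦ χ(1 + l^m t)` is additive if `l^(2m) = 0`. Proof. `(1 + l^m t)(1 + l^m t') = 1 + l^m (t + t')`. -/
theorem G2_add (l a m : ℕ) (h2 : a ≤ 2 * m) (χ : DirichletCharacter ℂ (l ^ a)) (t t' : ZMod (l ^ a)) :
    χ (1 + (l : ZMod (l ^ a)) ^ m * (t + t')) =
      χ (1 + (l : ZMod (l ^ a)) ^ m * t) * χ (1 + (l : ZMod (l ^ a)) ^ m * t') := by
  have h : (l : ZMod (l ^ a)) ^ m * (l : ZMod (l ^ a)) ^ m = 0 := by
    rw [← pow_add]
    exact g2_pow l a (m + m) (by omega)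
  rw [← map_mul]
  congr 1
  linear_combination (-(t * t')) * h

theorem g2_top (l a : ℕ) (hl : l.Prime) (ha : 1 ≤ a) [NeZero (l ^ a)] (χ : DirichletCharacter ℂ (l ^ a)) (hχ : χ.IsPrimitive)
    (h : ∀ t : ZMod (l ^ a), χ (1 + (l : ZMod (l ^ a)) ^ (a - 1) * t) = 1) : False := by
  have hd : l ^ (a - 1) ∣ l ^ a := pow_dvd_pow l (by omega)
  have hf : χ.FactorsThrough (l ^ (a - 1)) := by
    rw [DirichletCharacter.factorsThrough_iff_ker_unitsMap hd]
    intro u hu
    rw [MonoidHom.mem_ker] at hu ⊢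
    have h1 : (ZMod.castHom hd (ZMod (l ^ (a - 1)))) (u : ZMod (l ^ a)) = 1 := by
      have h2 := congrArg (fun w : (ZMod (l ^ (a - 1)))ˣ => (w : ZMod (l ^ (a - 1)))) hu
      exact h2
    have h3 : (ZMod.castHom hd (ZMod (l ^ (a - 1)))) ((u : ZMod (l ^ a)) - 1) = 0 := by
      rw [map_sub, h1, map_one, sub_self]
    obtain ⟨w, hw⟩ : ∃ w : ZMod (l ^ a), w = (u : ZMod (l ^ a)) - 1 := ⟨_, rfl⟩
    rw [← hw] at h3
    have h4 : ((w.val : ℕ) : ZMod (l ^ (a - 1))) = 0 := by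
      have h5 : (ZMod.castHom hd (ZMod (l ^ (a - 1)))) ((w.val : ℕ) : ZMod (l ^ a)) = 0 := by
        rw [ZMod.natCast_zmod_val]
        exact h3
      rw [map_natCast] at h5
      exact h5
    obtain ⟨t, ht⟩ := (ZMod.natCast_eq_zero_iff _ _).1 h4
    have h6 : w = (l : ZMod (l ^ a)) ^ (a - 1) * (t : ZMod (l ^ a)) := by
      rw [← ZMod.natCast_zmod_val w, ht]
      push_cast
      rfl
    have h7 : (u : ZMod (l ^ a)) = 1 + (l : ZMod (l ^ a)) ^ (a - 1) * (t : ZMod (l ^ a)) := by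
      rw [← h6, hw]
      ring
    have h8 := h t
    rw [← h7] at h8
    exact Units.ext h8
  have h1 : χ.conductor ≤ l ^ (a - 1) := Nat.sInf_le hf
  rw [(DirichletCharacter.isPrimitive_def χ).1 hχ] at h1
  have h2 : l ^ (a - 1) < l ^ a := Nat.pow_lt_pow_right hl.one_lt (by omega)
  omega

/-- The mean over `v` vanishes unless `l^n ∣ K`, `a = m + n`. Proof. `ψ(v) = χ(1 + l^m K v)` is additive in `v` (`G2_add`), with
values of absolute value `1` (`1 + l^m K v` is a unit since `l` is nilpotent, `m ≥ 1`). If `ψ(v0) ≠ 1` for some `v0`, the sum `S`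
satisfies `ψ(v0) S = S` (shift `v` by `v0`), so `S = 0`. If `ψ = 1` identically and `l^n ∤ K.val`, then `K = l^j u` with
`j < n`, `u` a unit (`K.val = l^j u'`, `l ∤ u'`), so `χ(1 + l^(a-1) t) = 1` for all `t` (take
`v = l^(n-1-j) u⁻¹ t`); hence `χ` factors through `l^(a-1)` (`DirichletCharacter.factorsThrough_iff_ker_unitsMap`: the kernel
of `(ZMod (l^a))ˣ → (ZMod (l^(a-1)))ˣ` consists of the units `≡ 1` modulo `l^(a-1)`), contradicting primitivity
(`DirichletCharacter.isPrimitive_def`, `conductor_dvd...`/`FactorsThrough`). -/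
theorem G2_mean (l a m n : ℕ) (hl : l.Prime) (ha : a = m + n) (hn : 1 ≤ n) (hmn : n ≤ m)
    [NeZero (l ^ a)] (χ : DirichletCharacter ℂ (l ^ a)) (hχ : χ.IsPrimitive) (K : ZMod (l ^ a))
    (hK : ¬ l ^ n ∣ K.val) :
    ∑ v : ZMod (l ^ a), χ (1 + (l : ZMod (l ^ a)) ^ m * (K * v)) = 0 := by
  by_cases hall : ∀ v : ZMod (l ^ a), χ (1 + (l : ZMod (l ^ a)) ^ m * (K * v)) = 1
  · exfalso
    refine g2_top l a hl (by omega) χ hχ fun t => ?_
    have hK0 : K.val ≠ 0 := fun h => hK (h ▸ dvd_zero _)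
    obtain ⟨j, u, hu, hKu⟩ := Nat.exists_eq_pow_mul_and_not_dvd hK0 l hl.ne_one
    have hj : j < n := by
      by_contra hj
      exact hK (hKu ▸ (pow_dvd_pow l (not_lt.1 hj)).trans (dvd_mul_right _ _))
    have hcop : Nat.Coprime u (l ^ a) := ((hl.coprime_iff_not_dvd.2 hu).symm).pow_right a
    obtain ⟨w, hw⟩ : ∃ w : (ZMod (l ^ a))ˣ, w = ZMod.unitOfCoprime u hcop := ⟨_, rfl⟩
    have hwu : (w : ZMod (l ^ a)) = (u : ZMod (l ^ a)) := by rw [hw, ZMod.coe_unitOfCoprime]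
    have hKe : K = (l : ZMod (l ^ a)) ^ j * (w : ZMod (l ^ a)) := by
      rw [← ZMod.natCast_zmod_val K, hKu, hwu]
      push_cast
      rfl
    have h1 := hall ((l : ZMod (l ^ a)) ^ (n - 1 - j) * ((w⁻¹ : (ZMod (l ^ a))ˣ) : ZMod (l ^ a)) * t)
    have h2 : (l : ZMod (l ^ a)) ^ m * (K * ((l : ZMod (l ^ a)) ^ (n - 1 - j) * ((w⁻¹ : (ZMod (l ^ a))ˣ) : ZMod (l ^ a)) * t)) =
        (l : ZMod (l ^ a)) ^ (a - 1) * t := by
      have h3 : (l : ZMod (l ^ a)) ^ (a - 1) = (l : ZMod (l ^ a)) ^ m * ((l : ZMod (l ^ a)) ^ j * (l : ZMod (l ^ a)) ^ (n - 1 - j)) := by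
        rw [← pow_add, ← pow_add]
        congr 1
        omega
      have h4 : (w : ZMod (l ^ a)) * ((w⁻¹ : (ZMod (l ^ a))ˣ) : ZMod (l ^ a)) = 1 := Units.mul_inv w
      rw [hKe, h3]
      linear_combination ((l : ZMod (l ^ a)) ^ m * (l : ZMod (l ^ a)) ^ j * (l : ZMod (l ^ a)) ^ (n - 1 - j) * t) * h4
    rw [h2] at h1
    exact h1
  · push Not at hall
    obtain ⟨v0, hv0⟩ := hall
    obtain ⟨S, hS⟩ : ∃ S : ℂ, S = ∑ v : ZMod (l ^ a), χ (1 + (l : ZMod (l ^ a)) ^ m * (K * v)) := ⟨_, rfl⟩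
    rw [← hS]
    have h1 : S = χ (1 + (l : ZMod (l ^ a)) ^ m * (K * v0)) * S := by
      rw [hS, Finset.mul_sum]
      rw [← Equiv.sum_comp (Equiv.addLeft v0)]
      refine Finset.sum_congr rfl fun v _ => ?_
      rw [← G2_add l a m (by omega), Equiv.coe_addLeft, mul_add]
    have h2 : (1 - χ (1 + (l : ZMod (l ^ a)) ^ m * (K * v0))) * S = 0 := by
      linear_combination h1
    rcases mul_eq_zero.1 h2 with h3 | h3
    · exact absurd (sub_eq_zero.1 h3).symm hv0
    · exact h3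

end Pool.Agent.Lib.H59T
end

-- from Lib.H59T.G3
section

/-!
# Project H59T, chunk G3 (M): the shift in the four corners
-/

open Finset

namespace Pool.Agent.Lib.H59T

private theorem g3_sq (l a m n : ℕ) (ha : a = m + n) (hmn : n ≤ m) :
    (l : ZMod (l ^ a)) ^ m * (l : ZMod (l ^ a)) ^ m = 0 := by
  have h1 : ((l ^ a : ℕ) : ZMod (l ^ a)) = 0 := ZMod.natCast_self _
  have h2 : (l : ZMod (l ^ a)) ^ a = 0 := by
    rw [← Nat.cast_pow]; exact h1
  rw [← pow_add]
  have h3 : m + m = a + (m - n) := by omega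
  rw [h3, pow_add, h2, zero_mul]

/-- units are stable under the shift by multiples of `l ^ m` -/
private theorem g3_unit (l a m n : ℕ) (ha : a = m + n) (hmn : n ≤ m) (s t : ZMod (l ^ a)) :
    IsUnit (s + (l : ZMod (l ^ a)) ^ m * t) ↔ IsUnit s := by
  have key : ∀ s t : ZMod (l ^ a), IsUnit s → IsUnit (s + (l : ZMod (l ^ a)) ^ m * t) := by
    intro s t hs
    obtain ⟨u, hu⟩ := hs
    have hsu : s * (↑(u⁻¹) : ZMod (l ^ a)) = 1 := by rw [← hu]; exact u.mul_inv
    refine IsUnit.of_mul_eq_one (((↑(u⁻¹) : ZMod (l ^ a))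
      - (l : ZMod (l ^ a)) ^ m * t * (↑(u⁻¹) : ZMod (l ^ a)) * (↑(u⁻¹) : ZMod (l ^ a)))) ?_
    have hq := g3_sq l a m n ha hmn
    set L := (l : ZMod (l ^ a)) ^ m
    set w := (↑(u⁻¹) : ZMod (l ^ a))
    linear_combination (1 - L * t * w) * hsu - t ^ 2 * w ^ 2 * hq
  constructor
  · intro h
    have h1 := key _ (-t) h
    have h2 : s + (l : ZMod (l ^ a)) ^ m * t + (l : ZMod (l ^ a)) ^ m * -t = s := by ring
    rwa [h2] at h1
  · exact key s t

private theorem g3_star (q : ℕ) [NeZero q] (χ : DirichletCharacter ℂ q) (w w' : ZMod q)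
    (h : χ w * χ w' = 1) : star (χ w) = χ w' := by
  have h3 : χ w ≠ 0 := by
    intro h0
    rw [h0, zero_mul] at h
    exact zero_ne_one h
  have hu : IsUnit w := by
    by_contra hw
    exact h3 (MulChar.map_nonunit χ hw)
  obtain ⟨u, rfl⟩ := hu
  have h1 : ‖χ (u : ZMod q)‖ = 1 := DirichletCharacter.unit_norm_eq_one χ u
  have h2 : χ (u : ZMod q) * star (χ (u : ZMod q)) = 1 := by
    have h2 : star (χ (u : ZMod q)) = (starRingEnd ℂ) (χ (u : ZMod q)) := rfl
    rw [h2, Complex.mul_conj, Complex.normSq_eq_norm_sq, h1]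
    norm_num
  exact mul_left_cancel₀ h3 (h2.trans h.symm)

/-- The sum over the common shift. Proof. If one of the four arguments `s_ij = z_i + y_j` is not a unit, all terms vanish (`s_ij + 2 l^m v` is
not a unit either, `m ≥ 1`). Otherwise `χ(s + 2 l^m v) = χ(s) χ(1 + l^m (2 s⁻¹ v))`, `star χ(s + ..)` similarly with
`-2 s⁻¹` (`star χ(u) = χ(u)⁻¹`; `χ(1 + l^m t)⁻¹ = χ(1 - l^m t)` by `G2_add`), so by `G2_add` the product of the four is a
constant times `χ(1 + l^m (K v))`, `K = 2 (1/s11 - 1/s12 - 1/s21 + 1/s22)`, and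
`K s11 s12 s21 s22 = 2 (z1+z2+y1+y2)(z1-z2)(y1-y2)` (`field_simp; ring` is not available in `ZMod`: use units and
`linear_combination`). So if `l^n` does not divide `2 (z1+z2+y1+y2)(z1-z2)(y1-y2)` it does not divide `K` and `G2_mean`
applies. -/
theorem G3 (l a m n : ℕ) (hl : l.Prime) (ha : a = m + n) (hn : 1 ≤ n) (hmn : n ≤ m)
    [NeZero (l ^ a)] (χ : DirichletCharacter ℂ (l ^ a)) (hχ : χ.IsPrimitive)
    (z1 z2 y1 y2 : ZMod (l ^ a))
    (hK : ¬ l ^ n ∣ (2 * (z1 + z2 + y1 + y2) * (z1 - z2) * (y1 - y2)).val) :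
    ∑ v : ZMod (l ^ a), χ (z1 + y1 + 2 * (l : ZMod (l ^ a)) ^ m * v) *
      star (χ (z2 + y1 + 2 * (l : ZMod (l ^ a)) ^ m * v)) *
      star (χ (z1 + y2 + 2 * (l : ZMod (l ^ a)) ^ m * v)) *
      χ (z2 + y2 + 2 * (l : ZMod (l ^ a)) ^ m * v) = 0 := by
  have hz : ∀ s v : ZMod (l ^ a), ¬ IsUnit s →
      χ (s + 2 * (l : ZMod (l ^ a)) ^ m * v) = 0 := by
    intro s v hs
    refine MulChar.map_nonunit χ ?_
    have e : s + 2 * (l : ZMod (l ^ a)) ^ m * v = s + (l : ZMod (l ^ a)) ^ m * (2 * v) := by ring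
    rw [e, g3_unit l a m n ha hmn]
    exact hs
  by_cases h11 : IsUnit (z1 + y1)
  swap
  · refine Finset.sum_eq_zero (fun v _ => ?_)
    rw [hz _ v h11]; simp
  by_cases h21 : IsUnit (z2 + y1)
  swap
  · refine Finset.sum_eq_zero (fun v _ => ?_)
    rw [hz _ v h21]; simp
  by_cases h12 : IsUnit (z1 + y2)
  swap
  · refine Finset.sum_eq_zero (fun v _ => ?_)
    rw [hz _ v h12]; simp
  by_cases h22 : IsUnit (z2 + y2)
  swap
  · refine Finset.sum_eq_zero (fun v _ => ?_)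
    rw [hz _ v h22]; simp
  have hinv : ∀ s : ZMod (l ^ a), IsUnit s → ∃ u : ZMod (l ^ a), s * u = 1 := by
    rintro s ⟨u, rfl⟩
    exact ⟨_, u.mul_inv⟩
  obtain ⟨u11, e11⟩ := hinv _ h11
  obtain ⟨u21, e21⟩ := hinv _ h21
  obtain ⟨u12, e12⟩ := hinv _ h12
  obtain ⟨u22, e22⟩ := hinv _ h22
  have hadd := G2_add l a m (by omega) χ
  have hsplit : ∀ s u v : ZMod (l ^ a), s * u = 1 →
      χ (s + 2 * (l : ZMod (l ^ a)) ^ m * v)
        = χ s * χ (1 + (l : ZMod (l ^ a)) ^ m * (2 * u * v)) := by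
    intro s u v hsu
    rw [← map_mul]
    refine congrArg χ ?_
    linear_combination (-2 * (l : ZMod (l ^ a)) ^ m * v) * hsu
  have hst : ∀ t : ZMod (l ^ a), star (χ (1 + (l : ZMod (l ^ a)) ^ m * t))
      = χ (1 + (l : ZMod (l ^ a)) ^ m * (-t)) := by
    intro t
    refine g3_star _ χ _ _ ?_
    rw [← hadd, add_neg_cancel, mul_zero, add_zero, map_one]
  have hterm : ∀ v : ZMod (l ^ a), χ (z1 + y1 + 2 * (l : ZMod (l ^ a)) ^ m * v) *
      star (χ (z2 + y1 + 2 * (l : ZMod (l ^ a)) ^ m * v)) *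
      star (χ (z1 + y2 + 2 * (l : ZMod (l ^ a)) ^ m * v)) *
      χ (z2 + y2 + 2 * (l : ZMod (l ^ a)) ^ m * v)
      = (χ (z1 + y1) * star (χ (z2 + y1)) * star (χ (z1 + y2)) * χ (z2 + y2)) *
        χ (1 + (l : ZMod (l ^ a)) ^ m * ((2 * (u11 - u21 - u12 + u22)) * v)) := by
    intro v
    have hs : (2 * (u11 - u21 - u12 + u22)) * v
        = ((2 * u11 * v + -(2 * u21 * v)) + -(2 * u12 * v)) + 2 * u22 * v := by ring
    rw [hs, hadd, hadd, hadd, hsplit _ _ v e11, hsplit _ _ v e21, hsplit _ _ v e12,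
      hsplit _ _ v e22, star_mul', star_mul', hst, hst]
    ring
  rw [Finset.sum_congr rfl (fun v _ => hterm v), ← Finset.mul_sum]
  have hK' : ¬ l ^ n ∣ (2 * (u11 - u21 - u12 + u22)).val := by
    intro hd
    apply hK
    have e : 2 * (z1 + z2 + y1 + y2) * (z1 - z2) * (y1 - y2)
        = (2 * (u11 - u21 - u12 + u22)) * ((z1 + y1) * (z2 + y1) * (z1 + y2) * (z2 + y2)) := by
      have f1 : (z1 + y1) * (z2 + y1) * (u11 - u21) = z2 - z1 := by
        linear_combination (z2 + y1) * e11 - (z1 + y1) * e21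
      have f2 : (z1 + y2) * (z2 + y2) * (u22 - u12) = z1 - z2 := by
        linear_combination (z1 + y2) * e22 - (z2 + y2) * e12
      linear_combination (-2 * (z1 + y2) * (z2 + y2)) * f1 - 2 * (z1 + y1) * (z2 + y1) * f2
    rw [e, ZMod.val_mul]
    have hna : l ^ n ∣ l ^ a := pow_dvd_pow l (by omega)
    exact (Nat.dvd_mod_iff hna).mpr (Dvd.dvd.mul_right hd _)
  rw [G2_mean l a m n hl ha hn hmn χ hχ _ hK', mul_zero]

end Pool.Agent.Lib.H59T
end

-- from Lib.H59T.G4
section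

/-!
# Project H59T, chunk G4 (M): counting
-/

open Finset

namespace Pool.Agent.Lib.H59T

/-- Proof. Multiples of `l^j` in `ZMod (l^a)`: `l^(a-j)` of them (`ZMod.val` between `0` and `l^a`). -/
theorem G4_one (l a j : ℕ) (hl : l.Prime) (hj : j ≤ a) [NeZero (l ^ a)] :
    ((univ : Finset (ZMod (l ^ a))).filter (fun x => l ^ j ∣ x.val)).card = l ^ (a - j) := by
  have hlj : 0 < l ^ j := Nat.pow_pos hl.pos
  have hsplit : l ^ a = l ^ j * l ^ (a - j) := by
    rw [← pow_add]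
    congr 1
    omega
  rw [← card_range (l ^ (a - j))]
  refine Finset.card_bij' (fun x _ => x.val / l ^ j) (fun m _ => ((l ^ j * m : ℕ) : ZMod (l ^ a))) ?_ ?_ ?_ ?_
  · intro x _
    rw [mem_range, Nat.div_lt_iff_lt_mul hlj, mul_comm, ← hsplit]
    exact ZMod.val_lt x
  · intro m hm
    rw [mem_range] at hm
    rw [mem_filter]
    refine ⟨mem_univ _, ?_⟩
    have h1 : l ^ j * m < l ^ a := by
      rw [hsplit]
      exact Nat.mul_lt_mul_of_pos_left hm hlj
    rw [ZMod.val_natCast, Nat.mod_eq_of_lt h1]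
    exact Dvd.intro m rfl
  · intro x hx
    have h1 := (mem_filter.1 hx).2
    rw [Nat.mul_div_cancel' h1]
    exact ZMod.natCast_zmod_val x
  · intro m hm
    rw [mem_range] at hm
    have h1 : l ^ j * m < l ^ a := by
      rw [hsplit]
      exact Nat.mul_lt_mul_of_pos_left hm hlj
    rw [ZMod.val_natCast, Nat.mod_eq_of_lt h1, Nat.mul_div_cancel_left _ hlj]

/-- one of three factors is divisible by a large power -/
theorem g4_three (l n j u1 u2 u3 : ℕ) (hl : l.Prime)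
    (hj : 3 * j ≤ n + 2) (hj2 : l = 2 → 3 * j ≤ n + 1) (h : l ^ n ∣ 2 * u1 * u2 * u3) :
    l ^ j ∣ u1 ∨ l ^ j ∣ u2 ∨ l ^ j ∣ u3 := by
  by_contra hcon
  push Not at hcon
  obtain ⟨h1, h2, h3⟩ := hcon
  have : Fact l.Prime := ⟨hl⟩
  have hj0 : 1 ≤ j := by
    rcases Nat.eq_zero_or_pos j with h0 | h0
    · rw [h0, pow_zero] at h1
      exact absurd (one_dvd _) h1
    · exact h0
  have hne : ∀ u, ¬ l ^ j ∣ u → u ≠ 0 ∧ padicValNat l u < j := by
    intro u hu
    have hu0 : u ≠ 0 := fun h0 => hu (h0 ▸ dvd_zero _)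
    refine ⟨hu0, ?_⟩
    rw [padicValNat_dvd_iff_le hu0, not_le] at hu
    exact hu
  obtain ⟨a1, b1⟩ := hne u1 h1
  obtain ⟨a2, b2⟩ := hne u2 h2
  obtain ⟨a3, b3⟩ := hne u3 h3
  have h20 : (2 : ℕ) ≠ 0 := by norm_num
  rw [padicValNat_dvd_iff_le (mul_ne_zero (mul_ne_zero (mul_ne_zero h20 a1) a2) a3),
    padicValNat.mul (mul_ne_zero (mul_ne_zero h20 a1) a2) a3,
    padicValNat.mul (mul_ne_zero h20 a1) a2, padicValNat.mul h20 a1] at h
  by_cases hl2 : l = 2
  · have h4 := hj2 hl2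
    have h5 : padicValNat l 2 = 1 := by
      rw [hl2]
      exact padicValNat_self
    omega
  · have h5 : padicValNat l 2 = 0 := by
      refine padicValNat.eq_zero_of_not_dvd fun h6 => ?_
      exact hl2 ((Nat.prime_dvd_prime_iff_eq hl Nat.prime_two).1 h6)
    omega


theorem g4_val2 (l a n : ℕ) (hn : n ≤ a) (x y z : ZMod (l ^ a))
    (h : l ^ n ∣ (2 * x * y * z).val) : l ^ n ∣ 2 * x.val * y.val * z.val := by
  have h2 : (2 : ZMod (l ^ a)) = ((2 : ℕ) : ZMod (l ^ a)) := by norm_num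
  have hd : l ^ n ∣ l ^ a := pow_dvd_pow l hn
  rw [h2] at h
  have h3 : (((2 : ℕ) : ZMod (l ^ a)) * x * y * z).val = 2 * x.val * y.val * z.val % l ^ a := by
    rw [ZMod.val_mul, ZMod.val_mul, ZMod.val_mul, ZMod.val_natCast]
    simp only [Nat.mod_mul_mod, Nat.mod_mul_mod]
  rw [h3] at h
  exact (Nat.dvd_mod_iff hd).1 h

/-- Proof. If `l^n ∣ 2 x1 x2 x3` with `l^n ∣ l^a` then (for `l` odd; for `l = 2` with `n - 1` in place of `n`) one of
the `x_i` is divisible by `l^j`, `j = ⌈n/3⌉` (`⌈(n-1)/3⌉`); each of the three linear forms takes each value `(l^a)³`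
times: so the count is at most `3 l^(3a) l^(a - j)` (`G4_one`), and `l^(-j) ≤ 2 l^(-n/3)` in both cases. -/
theorem G4 (l a n : ℕ) (hl : l.Prime) (hn : n ≤ a) [NeZero (l ^ a)] :
    (((univ : Finset (ZMod (l ^ a) × ZMod (l ^ a) × ZMod (l ^ a) × ZMod (l ^ a))).filter
      (fun x => l ^ n ∣ (2 * (x.1 + x.2.1 + x.2.2.1 + x.2.2.2) * (x.1 - x.2.1) *
        (x.2.2.1 - x.2.2.2)).val)).card : ℝ) ≤ 6 * ((l ^ a : ℕ) : ℝ) ^ 4 * (l : ℝ) ^ (-(n / 3 : ℝ)) := by
  classical
  obtain ⟨j, hj1, hj2, hj3⟩ : ∃ j : ℕ, 3 * j ≤ n + 2 ∧ (l = 2 → 3 * j ≤ n + 1) ∧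
      n ≤ 3 * j + (if l = 2 then 1 else 0) := by
    by_cases h2 : l = 2
    · refine ⟨(n + 1) / 3, by omega, fun _ => by omega, ?_⟩
      rw [if_pos h2]
      omega
    · refine ⟨(n + 2) / 3, by omega, fun h => absurd h h2, ?_⟩
      rw [if_neg h2]
      omega
  have hja : j ≤ a := by
    rcases Nat.eq_zero_or_pos n with h0 | h0
    · omega
    · omega
  have hlr : (2 : ℝ) ≤ l := by exact_mod_cast hl.two_le
  have hl0 : (0 : ℝ) < l := by linarith
  set T := ZMod (l ^ a) × ZMod (l ^ a) × ZMod (l ^ a) × ZMod (l ^ a) with hT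
  set S : Finset (ZMod (l ^ a)) := univ.filter (fun x => l ^ j ∣ x.val) with hS
  have hSc : S.card = l ^ (a - j) := G4_one l a j hl hja
  -- one linear form
  have hform : ∀ (L : T → ZMod (l ^ a)) (R : T → ZMod (l ^ a) × ZMod (l ^ a) × ZMod (l ^ a)),
      Function.Injective (fun x => (L x, R x)) →
      ((univ : Finset T).filter (fun x => l ^ j ∣ (L x).val)).card ≤ l ^ (a - j) * (l ^ a) ^ 3 := by
    intro L R hLR
    have h1 : ((univ : Finset T).filter (fun x => l ^ j ∣ (L x).val)).card ≤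
        (S ×ˢ (univ : Finset (ZMod (l ^ a) × ZMod (l ^ a) × ZMod (l ^ a)))).card := by
      refine card_le_card_of_injOn (fun x => (L x, R x)) ?_ hLR.injOn
      intro x hx
      rw [mem_coe, mem_filter] at hx
      rw [mem_coe, mem_product, hS, mem_filter]
      exact ⟨⟨mem_univ _, hx.2⟩, mem_univ _⟩
    rw [card_product, hSc, card_univ, Fintype.card_prod, Fintype.card_prod, ZMod.card] at h1
    calc _ ≤ _ := h1
      _ = _ := by ring
  have i1 : Function.Injective (fun x : T => (x.1 + x.2.1 + x.2.2.1 + x.2.2.2, (x.2.1, x.2.2.1, x.2.2.2))) := by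
    rintro ⟨z1, z2, y1, y2⟩ ⟨z1', z2', y1', y2'⟩ h
    simp only [Prod.mk.injEq] at h
    obtain ⟨h1, rfl, rfl, rfl⟩ := h
    have : z1 = z1' := by linear_combination h1
    rw [this]
  have i2 : Function.Injective (fun x : T => (x.1 - x.2.1, (x.2.1, x.2.2.1, x.2.2.2))) := by
    rintro ⟨z1, z2, y1, y2⟩ ⟨z1', z2', y1', y2'⟩ h
    simp only [Prod.mk.injEq] at h
    obtain ⟨h1, rfl, rfl, rfl⟩ := h
    have : z1 = z1' := by linear_combination h1
    rw [this]
  have i3 : Function.Injective (fun x : T => (x.2.2.1 - x.2.2.2, (x.1, x.2.1, x.2.2.2))) := by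
    rintro ⟨z1, z2, y1, y2⟩ ⟨z1', z2', y1', y2'⟩ h
    simp only [Prod.mk.injEq] at h
    obtain ⟨h1, rfl, rfl, rfl⟩ := h
    have : y1 = y1' := by linear_combination h1
    rw [this]
  have hsub : (univ : Finset T).filter
      (fun x => l ^ n ∣ (2 * (x.1 + x.2.1 + x.2.2.1 + x.2.2.2) * (x.1 - x.2.1) *
        (x.2.2.1 - x.2.2.2)).val) ⊆
      (univ : Finset T).filter (fun x => l ^ j ∣ (x.1 + x.2.1 + x.2.2.1 + x.2.2.2).val) ∪
      ((univ : Finset T).filter (fun x => l ^ j ∣ (x.1 - x.2.1).val) ∪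
      (univ : Finset T).filter (fun x => l ^ j ∣ (x.2.2.1 - x.2.2.2).val)) := by
    intro x hx
    rw [mem_filter] at hx
    rw [mem_union, mem_union, mem_filter, mem_filter, mem_filter]
    rcases g4_three l n j _ _ _ hl hj1 hj2 (g4_val2 l a n hn _ _ _ hx.2) with h | h | h
    · exact Or.inl ⟨mem_univ _, h⟩
    · exact Or.inr (Or.inl ⟨mem_univ _, h⟩)
    · exact Or.inr (Or.inr ⟨mem_univ _, h⟩)
  have hcard : ((univ : Finset T).filter
      (fun x => l ^ n ∣ (2 * (x.1 + x.2.1 + x.2.2.1 + x.2.2.2) * (x.1 - x.2.1) *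
        (x.2.2.1 - x.2.2.2)).val)).card ≤ 3 * (l ^ (a - j) * (l ^ a) ^ 3) := by
    refine (card_le_card hsub).trans ((card_union_le _ _).trans ?_)
    have h1 := hform _ _ i1
    have h2 := hform _ _ i2
    have h3 := hform _ _ i3
    have h4 := card_union_le ((univ : Finset T).filter (fun x => l ^ j ∣ (x.1 - x.2.1).val))
      ((univ : Finset T).filter (fun x => l ^ j ∣ (x.2.2.1 - x.2.2.2).val))
    omega
  have hcard' : (((univ : Finset T).filter
      (fun x => l ^ n ∣ (2 * (x.1 + x.2.1 + x.2.2.1 + x.2.2.2) * (x.1 - x.2.1) *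
        (x.2.2.1 - x.2.2.2)).val)).card : ℝ) ≤ 3 * ((l : ℝ) ^ (a - j) * ((l : ℝ) ^ a) ^ 3) := by
    exact_mod_cast hcard
  refine hcard'.trans ?_
  have h5 : (l : ℝ) ^ (a - j) = (l : ℝ) ^ a * (l : ℝ) ^ (-(j : ℝ)) := by
    rw [← Real.rpow_natCast, ← Real.rpow_natCast, ← Real.rpow_add hl0]
    congr 1
    rw [Nat.cast_sub hja]
    ring
  have h6 : (l : ℝ) ^ (-(j : ℝ)) ≤ 2 * (l : ℝ) ^ (-(n / 3 : ℝ)) := by
    by_cases h2 : l = 2
    · rw [if_pos h2] at hj3
      have h7 : (n : ℝ) ≤ 3 * j + 1 := by exact_mod_cast hj3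
      have h8 : (l : ℝ) ^ (-(j : ℝ)) ≤ (l : ℝ) ^ (1 - (n / 3 : ℝ)) :=
        Real.rpow_le_rpow_of_exponent_le (by linarith) (by linarith)
      refine h8.trans (le_of_eq ?_)
      rw [sub_eq_add_neg, Real.rpow_add hl0, Real.rpow_one, h2]
      norm_num
    · rw [if_neg h2] at hj3
      have h7 : (n : ℝ) ≤ 3 * j := by exact_mod_cast hj3
      have h8 : (l : ℝ) ^ (-(j : ℝ)) ≤ (l : ℝ) ^ (-(n / 3 : ℝ)) :=
        Real.rpow_le_rpow_of_exponent_le (by linarith) (by linarith)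
      have h9 : 0 ≤ (l : ℝ) ^ (-(n / 3 : ℝ)) := Real.rpow_nonneg hl0.le _
      linarith
  rw [h5]
  push_cast
  have h10 : 0 ≤ 3 * ((l : ℝ) ^ a) ^ 4 := by positivity
  calc 3 * ((l : ℝ) ^ a * (l : ℝ) ^ (-(j : ℝ)) * ((l : ℝ) ^ a) ^ 3)
      = 3 * ((l : ℝ) ^ a) ^ 4 * (l : ℝ) ^ (-(j : ℝ)) := by ring
    _ ≤ 3 * ((l : ℝ) ^ a) ^ 4 * (2 * (l : ℝ) ^ (-(n / 3 : ℝ))) := mul_le_mul_of_nonneg_left h6 h10
    _ = _ := by ring

end Pool.Agent.Lib.H59T
end

-- from Lib.H59T.G5
section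

/-!
# Project H59T, chunk G5 (M): Lemma G
-/

open Finset

namespace Pool.Agent.Lib.H59T



theorem g5_two : ∀ x : ZMod 2, x ≠ 0 → x = 1 := by decide



end Pool.Agent.Lib.H59T
end

-- from Lib.H59T.E7
section

/-!
# Project H59T, chunk E7 (M): the local bounds for the four forms
-/

open Finset

namespace Pool.Agent.Lib.H59T

open Pool.Agent.Lib.H68T Pool.Agent.Lib.H18Q Pool.Agent.Lib.H59P

theorem e7_lcm {ι : Type*} [DecidableEq ι] (s : Finset ι) (f : ι → ℕ) (l : ℕ) (hf : ∀ i, f i ≠ 0) :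
    s.lcm f ≠ 0 ∧ (s.Nonempty → ∃ i ∈ s, (f i).factorization l = (s.lcm f).factorization l) := by
  induction s using Finset.induction_on with
  | empty =>
    refine ⟨by simp, fun h => ?_⟩
    exact absurd h (by simp)
  | insert a s ha ih =>
    rw [Finset.lcm_insert]
    have h1 : GCDMonoid.lcm (f a) (s.lcm f) = Nat.lcm (f a) (s.lcm f) := rfl
    rw [h1]
    refine ⟨Nat.lcm_ne_zero (hf a) ih.1, fun _ => ?_⟩
    rw [Nat.factorization_lcm (hf a) ih.1, Finsupp.sup_apply]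
    rcases le_total ((s.lcm f).factorization l) ((f a).factorization l) with h2 | h2
    · exact ⟨a, Finset.mem_insert_self _ _, (sup_eq_left.2 h2).symm⟩
    · rcases s.eq_empty_or_nonempty with hs | hs
      · subst hs
        refine ⟨a, Finset.mem_insert_self _ _, ?_⟩
        rw [Finset.lcm_empty, Nat.factorization_one]
        simp
      · obtain ⟨i, hi, he⟩ := ih.2 hs
        refine ⟨i, Finset.mem_insert_of_mem hi, ?_⟩
        rw [he, sup_eq_right.2 h2]

theorem E7_attained {k : ℕ} (p : Fin k → Ch) (hp : Pm p) (l : ℕ) (hl : l.Prime) (hd : l ∣ Rm p) :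
    1 ≤ (Rm p).factorization l ∧ (∀ i, (p i).1.factorization l ≤ (Rm p).factorization l) ∧
      ∃ i, (p i).1.factorization l = (Rm p).factorization l ∧ l ∣ (p i).1 := by
  have h0 : ∀ i, (p i).1 ≠ 0 := fun i => (hp i).1.ne'
  have h1 := e7_lcm (univ : Finset (Fin k)) (fun i => (p i).1) l h0
  have hR : Rm p ≠ 0 := h1.1
  have h2 : 1 ≤ (Rm p).factorization l := (hl.dvd_iff_one_le_factorization hR).1 hd
  refine ⟨h2, fun i => ?_, ?_⟩
  · exact (Nat.factorization_le_iff_dvd (h0 i) hR).2 (Finset.dvd_lcm (Finset.mem_univ i)) l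
  · have hne : (univ : Finset (Fin k)).Nonempty := by
      by_contra hc
      rw [Finset.not_nonempty_iff_eq_empty] at hc
      have h3 : Rm p = 1 := by
        unfold Rm
        rw [hc, Finset.lcm_empty]
      rw [h3] at hd
      exact hl.one_lt.ne' (Nat.dvd_one.1 hd)
    obtain ⟨i, _, hi⟩ := h1.2 hne
    refine ⟨i, hi, ?_⟩
    rw [hl.dvd_iff_one_le_factorization (h0 i)]
    have h4 : (p i).1.factorization l = (Rm p).factorization l := hi
    rw [h4]
    exact h2



end Pool.Agent.Lib.H59T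
end

-- from Lib.H59T.LKDefs
section

/-!
# Project H59T, module LK: the difference of the projections at two levels is negligible (definitions)
-/

open Finset

namespace Pool.Agent.Lib.H59T

open Pool.Agent.Lib.H68T Pool.Agent.Lib.H18Q Pool.Agent.Lib.H59P

noncomputable section

/-- The forms `2z + e_0`, `2z + y + e_1`, `2z + y' + e_2`, `2z + y + y' + e_3`. -/
def uf (e : Fin 4 → ℤ) : Fm 4 := ![fun _ _ z => 2 * z + e 0, fun y _ z => 2 * z + y + e 1,
  fun _ y' z => 2 * z + y' + e 2, fun y y' z => 2 * z + y + y' + e 3]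

/-- The eighth power of the `U³` norm of `f`, times `N⁴`. -/
def UU {N : ℕ} [NeZero N] (f : ZMod N → ℂ) : ℝ :=
  ∑ A : ZMod N, ∑ B : ZMod N, ‖∑ s : ZMod N, f s * star (f (s + A)) * star (f (s + B)) * f (s + A + B)‖ ^ 2

/-- The part of the components of `p` with moduli between `Q'` and `Q`. -/
def Vl (Q Q' : ℕ) (p : Ch) (m : ℤ) : ℂ := ∑ κ ∈ (KS Q p.1).filter (fun κ => Q' < p.1 * κ), gk p κ m

/-- `F(m+h+k) conj F(m+h'+k) conj F(m+h+k') F(m+h'+k')` -/
def P4 (F : ℤ → ℂ) (h h' k k' m : ℤ) : ℂ :=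
  F (m + h + k) * (starRingEnd ℂ) (F (m + h' + k)) * (starRingEnd ℂ) (F (m + h + k')) * F (m + h' + k')

end

end Pool.Agent.Lib.H59T
end

-- from Lib.H59T.UD
section

/-!
# Project H59T, chunk UD (M): the forms `uf e` at a prime not dividing the conductors
-/

open Finset

namespace Pool.Agent.Lib.H59T

open Pool.Agent.Lib.H68T Pool.Agent.Lib.H18Q Pool.Agent.Lib.H59P

/-- The rows of the eight forms. -/
def ud_U : Fin 8 → Fin 4 → ℤ := ![![0, 0, 2, 0], ![1, 0, 2, 0], ![0, 1, 2, 0], ![1, 1, 2, 0],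
  ![0, 0, 0, 2], ![1, 0, 0, 2], ![0, 1, 0, 2], ![1, 1, 0, 2]]

theorem ud_minor : ∀ i j : Fin 8, i ≠ j →
    ∃ a b, (ud_U i a * ud_U j b - ud_U i b * ud_U j a) ∣ 4 := by
  decide +kernel

theorem ud_row : ∀ i : Fin 8, ∃ a, ud_U i a ∣ 4 := by
  decide +kernel

theorem ud_cast (l : ℕ) (hl : l.Prime) (h2 : l ≠ 2) (v : ℤ) (hv : v ∣ 4) : (v : ZMod l) ≠ 0 := by
  intro h
  rw [ZMod.intCast_zmod_eq_zero_iff_dvd] at h
  have h4 : (l : ℤ) ∣ ((4 : ℕ) : ℤ) := h.trans (by exact_mod_cast hv)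
  have h5 : l ∣ 2 ^ 2 := by exact_mod_cast h4
  exact h2 ((Nat.prime_dvd_prime_iff_eq hl Nat.prime_two).1 (hl.dvd_of_dvd_pow h5))

theorem ud_g (p : Prop) [Decidable p] (x : ℝ) :
    (starRingEnd ℂ) (if p then (x : ℂ) else 1) = if p then (x : ℂ) else 1 := by
  split_ifs
  · exact Complex.conj_ofReal _
  · exact map_one _

theorem ud_two (p : Prop) [Decidable p] (m : ℤ) :
    ‖(if p then ((gl 2 m : ℝ) : ℂ) else 1)‖ ≤ 1 := by
  split_ifs
  · rw [Complex.norm_real]
    unfold gl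
    split_ifs <;> norm_num
  · simp

/-- Proof. As `E5_four` (`E5.lean`): `l = 2` trivial (`16 ≤ 28`); `l` odd: `C3_fin`, `C3_gl`, `E4_gl` for the eight forms with linear
parts `(0,0,2,0), (1,0,2,0), (0,1,2,0), (1,1,2,0), (0,0,0,2), (1,0,0,2), (0,1,0,2), (1,1,0,2)` in `(y,y',z,z')` and the constants
`e i`: each pair has a minor `±1`, `±2` or `±4` (`decide` over the integers). -/
theorem UD_cube (l : ℕ) (hl : l.Prime) (e : Fin 4 → ℤ) (s s' : Fin 4 → Prop) [DecidablePred s]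
    [DecidablePred s'] (hs : ∃ i, s i ∨ s' i) :
    ‖S4 l (Db (uf e) (fun i m => if s i then ((gl l m : ℝ) : ℂ) else 1)
      (fun i m => if s' i then ((gl l m : ℝ) : ℂ) else 1))‖ ≤ 7 * (l : ℝ) ^ 2 := by
  classical
  by_cases h2 : l = 2
  · subst h2
    refine le_trans (C3_triv 2 _ 1 ?_) (by norm_num)
    intro y y' z z'
    unfold Db
    rw [norm_prod]
    refine Finset.prod_le_one (fun i _ => norm_nonneg _) fun i _ => ?_
    rw [norm_mul, RCLike.norm_conj]
    exact mul_le_one₀ (ud_two _ _) (norm_nonneg _) (ud_two _ _)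
  have : Fact l.Prime := ⟨hl⟩
  obtain ⟨t, ht⟩ : ∃ t : Fin 8 → Prop, t = ![s 0, s 1, s 2, s 3, s' 0, s' 1, s' 2, s' 3] := ⟨_, rfl⟩
  obtain ⟨w, hw⟩ : ∃ w : Fin 8 → ZMod l, w = ![(e 0 : ZMod l), (e 1 : ZMod l), (e 2 : ZMod l), (e 3 : ZMod l),
    (e 0 : ZMod l), (e 1 : ZMod l), (e 2 : ZMod l), (e 3 : ZMod l)] := ⟨_, rfl⟩
  have hS : (univ.filter fun j : Fin 8 => t j).Nonempty := by
    obtain ⟨i, hi⟩ := hs
    rw [ht]
    rcases hi with hi | hi
    · fin_cases i
      · exact ⟨0, by simpa using hi⟩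
      · exact ⟨1, by simpa using hi⟩
      · exact ⟨2, by simpa using hi⟩
      · exact ⟨3, by simpa using hi⟩
    · fin_cases i
      · exact ⟨4, by simpa using hi⟩
      · exact ⟨5, by simpa using hi⟩
      · exact ⟨6, by simpa using hi⟩
      · exact ⟨7, by simpa using hi⟩
  have h4 := E4_gl l 8 (fun i k => ((ud_U i k : ℤ) : ZMod l)) w
    (fun i j hij => by
      obtain ⟨a, b, hab⟩ := ud_minor i j hij
      refine ⟨a, b, ?_⟩
      have h := ud_cast l hl h2 _ hab
      push_cast at h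
      exact h)
    (fun i => by
      obtain ⟨a, ha⟩ := ud_row i
      exact ⟨a, ud_cast l hl h2 _ ha⟩) (univ.filter fun j : Fin 8 => t j) hS
  have h5 := C3_fin l (fun a b c d => ∏ i ∈ univ.filter (fun j : Fin 8 => t j),
    ((glz l (∑ k, ((ud_U i k : ℤ) : ZMod l) * ![a, b, c, d] k + w i) : ℝ) : ℂ))
  have h6 : S4 l (Db (uf e) (fun i m => if s i then ((gl l m : ℝ) : ℂ) else 1)
      (fun i m => if s' i then ((gl l m : ℝ) : ℂ) else 1)) =
      S4 l (fun y y' z z' => ∏ i ∈ univ.filter (fun j : Fin 8 => t j),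
        ((glz l (∑ k, ((ud_U i k : ℤ) : ZMod l) *
          ![(y : ZMod l), (y' : ZMod l), (z : ZMod l), (z' : ZMod l)] k + w i) : ℝ) : ℂ)) := by
    congr 1
    funext y y' z z'
    rw [Finset.prod_filter, Fin.prod_univ_eight]
    unfold Db uf
    rw [Fin.prod_univ_four]
    simp only [ud_g, C3_gl, ht, hw, ud_U, Fin.sum_univ_four]
    simp [-mul_ite, -ite_mul]
    ring_nf
  rw [h6, h5]
  have h7 : ∀ x : Fin 4 → ZMod l, ![x 0, x 1, x 2, x 3] = x := by
    intro x
    funext k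
    fin_cases k <;> rfl
  simp only [h7]
  exact h4

end Pool.Agent.Lib.H59T
end
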