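import Mathlib
import Pool.Agent.Lib.H59M.M1.D_H59_SchinzelDefs
import Pool.Agent.Lib.H59M.M1.M004
import Pool.Agent.Lib.H59M.M1.M010
import Pool.Agent.Lib.H59M.M1.M011
import Pool.Agent.Lib.H59M.M1.M057

/-! Merged copies (to shorten the build) of Lib.H15P.Defs, Lib.H56G.Defs, Lib.H15P.PB1, Lib.H56G.Crt, Lib.H15P.TR1, Lib.H15P.LV1, Lib.H15P.TR2, Lib.Helper57.Bonferroni, Lib.Helper57.Count, Lib.Helper57.PrimeSums, Lib.Helper57.Transfer, Lib.Helper57.Sieve, Lib.H59.MertensLower, Lib.H59.SchinzelCount, Lib.H33B.AC, Lib.H33B.LS1, Lib.H33B.LS3, Lib.H33B.CH, Lib.H33B.SR4, Lib.H59.SchinzelUpper, Lib.H33B.SR2, Lib.H92G.Defs, Lib.H92G.WG, Lib.Helper57.PairCount, Lib.H92G.CDefs, Lib.H92G.G0, Lib.H92G.G1, Lib.H92G.G3, Lib.H92G.G5, Lib.H92G.W1, Lib.H57M.Defs, Lib.H57M.Sc, Lib.H5C.Defs, Lib.H92G.W2, Lib.H92G.K5. -/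

-- from Lib.H15P.Defs
section

/-!
# H15P: definitions

`ι` = index type of the primes, `J` = index type of the forms `b j + M t`, `I` = labels (scales).
-/

open Finset

namespace Pool.Agent.Lib.H15P

/-- Bernoulli weight of the set `A` (the element `i` is chosen with probability `q i`). -/
noncomputable def bw {ι : Type} [Fintype ι] [DecidableEq ι] (q : ι → ℝ) (A : Finset ι) : ℝ :=
  ∏ i, if i ∈ A then q i else 1 - q i

/-- Expectation of a function of one random set. -/
noncomputable def ex {ι : Type} [Fintype ι] [DecidableEq ι] (q : ι → ℝ)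
    (F : Finset ι → ℝ) : ℝ := ∑ A : Finset ι, F A * bw q A

/-- Expectation of a function of a family of independent random sets. -/
noncomputable def EX {ι J : Type} [Fintype ι] [DecidableEq ι] [Fintype J] [DecidableEq J]
    (q : ι → ℝ) (F : (J → Finset ι) → ℝ) : ℝ :=
  ∑ S : J → Finset ι, F S * ∏ j, bw q (S j)

/-- Number of the forms with label `i`. -/
def cnt {J I : Type} [Fintype J] [DecidableEq I] (l : J → Option I) (i : I) : ℕ :=
  (univ.filter (fun j => l j = some i)).card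

/-- Admissible labelings: only forms of `B` are labelled, at most `m i` of them with label `i`. -/
def adm {J I : Type} [Fintype J] [DecidableEq J] [Fintype I] [DecidableEq I]
    (B : Finset J) (m : I → ℕ) : Finset (J → Option I) :=
  univ.filter (fun l => (∀ j, j ∉ B → l j = none) ∧ ∀ i, cnt l i ≤ m i)







/-- The hypotheses on the one form functions `D i`. -/
structure Good {ι I : Type} [Fintype ι] [DecidableEq ι] (q : ι → ℝ)
    (D : I → Finset ι → ℝ) (h : ℝ) : Prop where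
  q0 : ∀ i, 0 ≤ q i
  q1 : ∀ i, q i ≤ 1
  empty : ∀ i, D i ∅ = 1
  mean : ∀ i, ex q (D i) = 0
  orth : ∀ i i', i ≠ i' → ex q (fun A => D i A * D i' A) = 0
  sq : ∀ i, ex q (fun A => D i A ^ 2) ≤ h
  fourth : ∀ i, ex q (fun A => D i A ^ 4) ≤ h

/-! ## Forms -/

/-- The primes of `P` which divide `e`. -/
def hit (P : Finset ℕ) (e : ℕ) : Finset {p // p ∈ P} := univ.filter (fun p => p.1 ∣ e)

/-- The probabilities: `1/p`, slightly increased (`K` = bound for the number of forms). -/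
noncomputable def qq (P : Finset ℕ) (K : ℕ) (p : {p // p ∈ P}) : ℝ :=
  (1 / (p.1 : ℝ) + 2 * K / (p.1 : ℝ) ^ 2) / (1 + 2 * K / (p.1 : ℝ) ^ 2)

/-- Hypotheses on the primes `P` and the forms `b j + M t`. -/
structure Forms {J : Type} [Fintype J] (P : Finset ℕ) (W K M : ℕ) (b : J → ℕ) : Prop where
  prime : ∀ p ∈ P, p.Prime
  big : ∀ p ∈ P, W < p
  cop : ∀ p ∈ P, ¬ p ∣ M
  dist : ∀ p ∈ P, ∀ j j', j ≠ j' → ¬ (b j ≡ b j' [MOD p])
  one_le : 1 ≤ K
  card : Fintype.card J ≤ K
  KW : 4 * K ^ 2 ≤ W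

/-- Mean value over a full period. -/
noncomputable def EP {J : Type} (P : Finset ℕ) (M : ℕ) (b : J → ℕ)
    (F : (J → Finset {p // p ∈ P}) → ℝ) : ℝ :=
  (∑ t ∈ range (∏ p ∈ P, p), F (fun j => hit P (b j + M * t))) / ((∏ p ∈ P, p : ℕ) : ℝ)

/-- `G` is a finite sum of functions `g` with periods `d ∣ Q` such that `Σ d ‖g‖ ≤ K`. -/
inductive Lev (Q : ℕ) : (ℕ → ℝ) → ℝ → Prop
  | base (g : ℕ → ℝ) (d : ℕ) (c : ℝ) (hd0 : 0 < d) (hd : d ∣ Q) (hper : Function.Periodic g d)
      (hc : ∀ t, |g t| ≤ c) : Lev Q g (d * c)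
  | add (G G' : ℕ → ℝ) (K K' : ℝ) (h : Lev Q G K) (h' : Lev Q G' K') :
      Lev Q (fun t => G t + G' t) (K + K')
  | mono (G : ℕ → ℝ) (K K' : ℝ) (h : Lev Q G K) (hK : K ≤ K') : Lev Q G K'

/-- Level of a function of the set of the primes dividing a form. -/
def LevS (P : Finset ℕ) (F : Finset {p // p ∈ P} → ℝ) (K : ℝ) : Prop :=
  ∀ M b : ℕ, Lev (∏ p ∈ P, p) (fun t => F (hit P (b + M * t))) K

/-! ## Blocks of primes and Brun-Hooley functions -/

/-- The part of `A` in the block `b`. -/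
def AB {ι : Type} (blk : ι → ℕ) (b : ℕ) (A : Finset ι) : Finset ι := A.filter (fun i => blk i = b)









end Pool.Agent.Lib.H15P
end

-- from Lib.H56G.Defs
section

/-!
# H56G: definitions (linear forms `b j + M t`, `t = 1, 2, ..`, and divisor-type functions of them)

`ι` = (index type of) a finite set of primes `pr i`; `J` = index type of the linear forms.
A configuration `κ : ι → Option J` gives to a form `j` the primes `i` with `κ i = some j`;
`κ i = none` means that the prime `i` is not used.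
-/

open Finset

namespace Pool.Agent.Lib.H56G

/-- Distinct primes `pr i` and linear forms `b j + M * t` such that no `pr i` divides `M` or
one of the differences `b j - b j'`. -/
structure Sys (ι J : Type) where
  pr : ι → ℕ
  prime : ∀ i, (pr i).Prime
  inj : Function.Injective pr
  M : ℕ
  b : J → ℕ
  copM : ∀ i, ¬ pr i ∣ M
  dist : ∀ i j j', j ≠ j' → ¬ (b j ≡ b j' [MOD pr i])

variable {ι J : Type} [Fintype ι] [DecidableEq ι] [Fintype J] [DecidableEq J]

/-- the primes which are used -/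
def supp (κ : ι → Option J) : Finset ι := univ.filter (fun i => (κ i).isSome)


/-- the primes given to the form `j` -/
def part (κ : ι → Option J) (j : J) : Finset ι := univ.filter (fun i => κ i = some j)



namespace Sys

variable (s : Sys ι J)

/-- `u_p^j(t) = 1 - p [p ∣ f_j(t)]` -/
noncomputable def u (i : ι) (j : J) (t : ℕ) : ℝ :=
  if s.pr i ∣ s.b j + s.M * t then 1 - (s.pr i : ℝ) else 1

/-- product of the `u_p^j` over the used primes -/
noncomputable def U (κ : ι → Option J) (t : ℕ) : ℝ :=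
  ∏ i, (κ i).elim 1 (fun j => s.u i j t)

/-- product of a set of primes -/
noncomputable def rho (A : Finset ι) : ℝ := ∏ i ∈ A, (s.pr i : ℝ)

/-- Euler function of a product of primes -/
noncomputable def phi (A : Finset ι) : ℝ := ∏ i ∈ A, ((s.pr i : ℝ) - 1)

/-- level of a configuration -/
noncomputable def r (κ : ι → Option J) : ℝ := s.rho (supp κ)





end Sys


/-- one form part of the coefficients -/
noncomputable def gam (bb : Finset ι → ℝ) (A : Finset ι) : ℝ := if A = ∅ then 1 else - bb A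


/-- weight of one part -/
noncomputable def vv (s : Sys ι J) (bb : Finset ι → ℝ) (A : Finset ι) : ℝ :=
  (gam bb A) ^ 2 * s.phi A

/-- weight of a configuration -/
noncomputable def wt (s : Sys ι J) (bb : Finset ι → ℝ) (κ : ι → Option J) : ℝ :=
  ∏ j, vv s bb (part κ j)


/-- `Σ 1/(φ(A) log ρ(A))` over the nonempty sets of primes with product at most `z` -/
noncomputable def SS (s : Sys ι J) (z : ℝ) : ℝ :=
  ∑ A ∈ (univ : Finset (Finset ι)).filter (fun A => A ≠ ∅ ∧ s.rho A ≤ z),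
    1 / (s.phi A * Real.log (s.rho A))

/-- the weight `1/(S φ(A) log ρ(A))` -/
noncomputable def bw (s : Sys ι J) (z : ℝ) (A : Finset ι) : ℝ :=
  if A ≠ ∅ ∧ s.rho A ≤ z then 1 / (SS s z * (s.phi A * Real.log (s.rho A))) else 0

end Pool.Agent.Lib.H56G
end

-- from Lib.H15P.PB1
section

/-!
# Chunk PB1: expectations
-/

open Finset

namespace Pool.Agent.Lib.H15P

variable {ι J : Type} [Fintype ι] [DecidableEq ι] [Fintype J] [DecidableEq J]

theorem bw_nonneg (q : ι → ℝ) (h0 : ∀ i, 0 ≤ q i) (h1 : ∀ i, q i ≤ 1) (A : Finset ι) :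
    0 ≤ bw q A := by
  unfold bw
  refine prod_nonneg fun i _ => ?_
  split_ifs
  · exact h0 i
  · linarith [h1 i]

/-- `∏ (q i + (1 - q i)) = 1` (`Finset.prod_add`). -/
theorem sum_bw (q : ι → ℝ) : ∑ A : Finset ι, bw q A = 1 := by
  have h := Finset.prod_add (fun i => q i) (fun i => 1 - q i) (univ : Finset ι)
  have h1 : ∏ i : ι, (q i + (1 - q i)) = 1 := prod_eq_one fun i _ => by ring
  rw [h1, powerset_univ] at h
  rw [h]
  refine sum_congr rfl fun A _ => ?_
  unfold bw
  rw [← prod_mul_prod_compl A (fun i => if i ∈ A then q i else 1 - q i), compl_eq_univ_sdiff]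
  congr 1
  · exact prod_congr rfl fun i hi => by rw [if_pos hi]
  · exact prod_congr rfl fun i hi => by rw [if_neg (mem_sdiff.1 hi).2]

theorem ex_one (q : ι → ℝ) : ex q (fun _ => 1) = 1 := by
  unfold ex
  simp only [one_mul]
  exact sum_bw q




theorem ex_nonneg (q : ι → ℝ) (h0 : ∀ i, 0 ≤ q i) (h1 : ∀ i, q i ≤ 1) (F : Finset ι → ℝ)
    (h : ∀ A, 0 ≤ F A) : 0 ≤ ex q F := by
  unfold ex
  exact sum_nonneg fun A _ => mul_nonneg (h A) (bw_nonneg q h0 h1 A)

/-- Independence (`Finset.prod_univ_sum`, `Fintype.piFinset_univ`). -/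
theorem EX_prod (q : ι → ℝ) (F : J → Finset ι → ℝ) :
    EX q (fun S : J → Finset ι => ∏ j, F j (S j)) = ∏ j, ex q (F j) := by
  unfold EX ex
  rw [Finset.prod_univ_sum, Fintype.piFinset_univ]
  exact sum_congr rfl fun S _ => by rw [prod_mul_distrib]


theorem EX_sum {α : Type} (q : ι → ℝ) (s : Finset α) (F : α → (J → Finset ι) → ℝ) :
    EX q (fun S => ∑ a ∈ s, F a S) = ∑ a ∈ s, EX q (F a) := by
  unfold EX
  rw [sum_comm]
  exact sum_congr rfl fun S _ => by rw [sum_mul]

theorem EX_const_mul (q : ι → ℝ) (c : ℝ) (F : (J → Finset ι) → ℝ) :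
    EX q (fun S => c * F S) = c * EX q F := by
  unfold EX
  rw [mul_sum]
  exact sum_congr rfl fun A _ => by ring


theorem EX_nonneg (q : ι → ℝ) (h0 : ∀ i, 0 ≤ q i) (h1 : ∀ i, q i ≤ 1)
    (F : (J → Finset ι) → ℝ) (h : ∀ S, 0 ≤ F S) : 0 ≤ EX q F := by
  unfold EX
  exact sum_nonneg fun S _ => mul_nonneg (h S)
    (prod_nonneg fun j _ => bw_nonneg q h0 h1 (S j))


end Pool.Agent.Lib.H15P
end

-- from Lib.H56G.Crt
section

/-!
# Chunk CRT: sums of periodic functions with coprime periods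
-/

open Finset

namespace Pool.Agent.Lib.H56G

/-- Chinese remainder theorem. Proof: `t ↦ (t mod m, t mod n)` is a bijection from `range (m*n)`
to `range m ×ˢ range n` (`Nat.chineseRemainder`, or injectivity + cardinality); `f t = f (t % m)`,
`g t = g (t % n)` (`Function.Periodic.map_mod_nat`); then `Finset.sum_mul_sum`. -/
theorem sum_range_mul {m n : ℕ} (hmn : Nat.Coprime m n) (hm : 0 < m) (hn : 0 < n)
    (f g : ℕ → ℝ) (hf : Function.Periodic f m) (hg : Function.Periodic g n) :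
    ∑ t ∈ range (m * n), f t * g t = (∑ t ∈ range m, f t) * ∑ t ∈ range n, g t := by
  rw [Finset.sum_mul_sum, ← Finset.sum_product']
  refine Finset.sum_bij' (fun t _ => (t % m, t % n))
    (fun x _ => (Nat.chineseRemainder hmn x.1 x.2 : ℕ)) ?_ ?_ ?_ ?_ ?_
  · intro t _
    simp only [Finset.mem_product, Finset.mem_range]
    exact ⟨Nat.mod_lt _ hm, Nat.mod_lt _ hn⟩
  · intro x _
    simp only [Finset.mem_range]
    exact Nat.chineseRemainder_lt_mul hmn x.1 x.2 hm.ne' hn.ne'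
  · intro t ht
    simp only [Finset.mem_range] at ht
    have h := (Nat.chineseRemainder hmn (t % m) (t % n)).2
    have h1 : (Nat.chineseRemainder hmn (t % m) (t % n) : ℕ) ≡ t [MOD m] :=
      h.1.trans (Nat.mod_modEq t m)
    have h2 : (Nat.chineseRemainder hmn (t % m) (t % n) : ℕ) ≡ t [MOD n] :=
      h.2.trans (Nat.mod_modEq t n)
    have h3 := (Nat.modEq_and_modEq_iff_modEq_mul hmn).1 ⟨h1, h2⟩
    exact Nat.ModEq.eq_of_lt_of_lt h3 (Nat.chineseRemainder_lt_mul hmn _ _ hm.ne' hn.ne') ht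
  · intro x hx
    simp only [Finset.mem_product, Finset.mem_range] at hx
    have h := (Nat.chineseRemainder hmn x.1 x.2).2
    apply Prod.ext
    · have := h.1
      rw [Nat.ModEq, Nat.mod_eq_of_lt hx.1] at this
      exact this
    · have := h.2
      rw [Nat.ModEq, Nat.mod_eq_of_lt hx.2] at this
      exact this
  · intro t _
    simp only
    rw [hf.map_mod_nat, hg.map_mod_nat]

/-- Product version. Induction on `A` with `sum_range_mul` (the product over `A` is periodic with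
period `∏ p i`; coprimality: distinct primes, `Nat.Coprime.prod_right`). -/
theorem sum_range_prod {ι : Type} [DecidableEq ι] (p : ι → ℕ) (hp : ∀ i, (p i).Prime)
    (hinj : Function.Injective p) (A : Finset ι) (F : ι → ℕ → ℝ)
    (hF : ∀ i, Function.Periodic (F i) (p i)) :
    ∑ t ∈ range (∏ i ∈ A, p i), ∏ i ∈ A, F i t = ∏ i ∈ A, ∑ t ∈ range (p i), F i t := by
  induction A using Finset.induction_on with
  | empty => simp
  | insert a A ha ih =>
    rw [Finset.prod_insert ha, Finset.prod_insert ha, ← ih]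
    have hcop : Nat.Coprime (p a) (∏ i ∈ A, p i) := by
      apply Nat.Coprime.prod_right
      intro i hi
      rw [Nat.coprime_primes (hp a) (hp i)]
      intro h
      exact ha (hinj h ▸ hi)
    have hper : Function.Periodic (fun t => ∏ i ∈ A, F i t) (∏ i ∈ A, p i) := by
      intro t
      apply Finset.prod_congr rfl
      intro i hi
      obtain ⟨k, hk⟩ := Finset.dvd_prod_of_mem p hi
      rw [hk]
      have := (hF i).nat_mul k
      have h2 := this t
      simpa [mul_comm] using h2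
    rw [← sum_range_mul hcop (hp a).pos (Finset.prod_pos fun i _ => (hp i).pos) (F a)
      (fun t => ∏ i ∈ A, F i t) (hF a) hper]
    apply Finset.sum_congr rfl
    intro t _
    rw [Finset.prod_insert ha]

theorem crt_sum_Icc_period (q : ℕ) (F : ℕ → ℝ) (hF : Function.Periodic F q) (a : ℕ) :
    ∑ t ∈ Ico a (a + q), F t = ∑ t ∈ range q, F t := by
  induction a with
  | zero => simp [Nat.Ico_zero_eq_range]
  | succ a ih =>
    rcases Nat.eq_zero_or_pos q with hq | hq
    · subst hq; simp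
    · have h1 : ∑ t ∈ Ico a (a + 1 + q), F t = F a + ∑ t ∈ Ico (a + 1) (a + 1 + q), F t :=
        Finset.sum_eq_sum_Ico_succ_bot (by omega) F
      have h2 : ∑ t ∈ Ico a (a + q + 1), F t = ∑ t ∈ Ico a (a + q), F t + F (a + q) :=
        Finset.sum_Ico_succ_top (by omega) F
      have h3 : a + 1 + q = a + q + 1 := by omega
      have h4 : F (a + q) = F a := hF a
      rw [h3] at h1
      rw [h3]
      linarith

theorem crt_sum_Icc_mul (q : ℕ) (F : ℕ → ℝ) (hF : Function.Periodic F q) (k : ℕ) :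
    ∑ t ∈ Ico 1 (1 + k * q), F t = k * ∑ t ∈ range q, F t := by
  induction k with
  | zero => simp
  | succ k ih =>
    have h1 : 1 + (k + 1) * q = (1 + k * q) + q := by ring
    rw [h1, ← Finset.sum_Ico_consecutive F (by omega : 1 ≤ 1 + k * q) (by omega), ih,
      crt_sum_Icc_period q F hF]
    push_cast
    ring

/-- Incomplete sums of a periodic function. Proof: write `Y = k q + l`, `l < q`; the sum over
`Icc 1 (k q)` is `k` times the full period sum `Σ` (`|Σ| ≤ q K`), the remaining `l` terms are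
at most `l K`; `|Y/q - k| ≤ 1`. -/
theorem abs_sum_Icc_sub_le (q : ℕ) (hq : 0 < q) (F : ℕ → ℝ) (hF : Function.Periodic F q)
    (K : ℝ) (hK : ∀ t, |F t| ≤ K) (Y : ℕ) :
    |∑ t ∈ Icc 1 Y, F t - Y * ((∑ t ∈ range q, F t) / q)| ≤ 2 * q * K := by
  have hq' : (0 : ℝ) < q := by exact_mod_cast hq
  have hK0 : 0 ≤ K := le_trans (abs_nonneg _) (hK 0)
  obtain ⟨k, l, hl, hY⟩ : ∃ k l, l < q ∧ Y = k * q + l :=
    ⟨Y / q, Y % q, Nat.mod_lt _ hq, by rw [mul_comm]; exact (Nat.div_add_mod Y q).symm⟩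
  have hI : Icc 1 Y = Ico 1 (1 + Y) := by
    ext t; simp only [Finset.mem_Icc, Finset.mem_Ico]; omega
  have hS : |∑ t ∈ range q, F t| ≤ q * K := by
    calc |∑ t ∈ range q, F t| ≤ ∑ t ∈ range q, |F t| := Finset.abs_sum_le_sum_abs _ _
      _ ≤ ∑ t ∈ range q, K := Finset.sum_le_sum fun t _ => hK t
      _ = q * K := by simp
  have hR : |∑ t ∈ Ico (1 + k * q) (1 + Y), F t| ≤ l * K := by
    calc |∑ t ∈ Ico (1 + k * q) (1 + Y), F t| ≤ ∑ t ∈ Ico (1 + k * q) (1 + Y), |F t| :=
          Finset.abs_sum_le_sum_abs _ _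
      _ ≤ ∑ t ∈ Ico (1 + k * q) (1 + Y), K := Finset.sum_le_sum fun t _ => hK t
      _ = l * K := by
        rw [Finset.sum_const, Nat.card_Ico, nsmul_eq_mul]
        congr 2
        omega
  have hsum : ∑ t ∈ Icc 1 Y, F t
      = k * ∑ t ∈ range q, F t + ∑ t ∈ Ico (1 + k * q) (1 + Y), F t := by
    rw [hI, ← Finset.sum_Ico_consecutive F (by omega : 1 ≤ 1 + k * q) (by omega),
      crt_sum_Icc_mul q F hF]
  have hYr : (Y : ℝ) = k * q + l := by rw [hY]; push_cast; ring
  have hlq : (l : ℝ) ≤ q := by exact_mod_cast hl.le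
  have hl0 : (0 : ℝ) ≤ l := by positivity
  set S := ∑ t ∈ range q, F t with hSdef
  set R := ∑ t ∈ Ico (1 + k * q) (1 + Y), F t with hRdef
  have hid : k * S + R - Y * (S / q) = R - (l / q) * S := by
    rw [hYr]
    field_simp
    ring
  rw [hsum, hid]
  calc |R - (l / q) * S| ≤ |R| + |(l / q) * S| := abs_sub _ _
    _ = |R| + (l / q) * |S| := by rw [abs_mul, abs_of_nonneg (by positivity : (0:ℝ) ≤ l / q)]
    _ ≤ l * K + (l / q) * (q * K) := by gcongr
    _ = 2 * (l * K) := by field_simp; ring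
    _ ≤ 2 * (q * K) := by gcongr
    _ = 2 * q * K := by ring

end Pool.Agent.Lib.H56G
end

-- from Lib.H15P.TR1
section

/-!
# Chunk TR1: the mean value over a full period, as a sum over exclusive configurations
-/

open Finset

namespace Pool.Agent.Lib.H15P

variable {J : Type} [Fintype J] [DecidableEq J]

/-- Probabilities at the prime `p`: `1/p` for each form, the rest for none of them. -/
noncomputable def ww (J : Type) [Fintype J] (p : ℕ) : Option J → ℝ
  | none => 1 - (Fintype.card J : ℝ) / p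
  | some _ => 1 / p

/-- The sets of primes of the forms in the configuration `κ`. -/
def cfg {P : Finset ℕ} (κ : {p // p ∈ P} → Option J) (j : J) : Finset {p // p ∈ P} :=
  univ.filter (fun i => κ i = some j)

theorem tr1_T (M b p : ℕ) (hp : p.Prime) (hM : ¬ p ∣ M) : ∃ T, T < p ∧
    ∀ t < p, (p ∣ b + M * t ↔ t = T) := by
  have : Fact p.Prime := ⟨hp⟩
  have hM' : (M : ZMod p) ≠ 0 := by
    rw [Ne, ZMod.natCast_eq_zero_iff]
    exact hM
  refine ⟨(-(b : ZMod p) * (M : ZMod p)⁻¹).val, ZMod.val_lt _, fun t ht => ?_⟩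
  rw [← ZMod.natCast_eq_zero_iff]
  push_cast
  constructor
  · intro h
    have h1 : (t : ZMod p) = -(b : ZMod p) * (M : ZMod p)⁻¹ := by
      field_simp
      linear_combination h
    rw [← h1, ZMod.val_cast_of_lt ht]
  · intro h
    have h1 : (t : ZMod p) = -(b : ZMod p) * (M : ZMod p)⁻¹ := by
      rw [h, ZMod.natCast_zmod_val]
    rw [h1]
    field_simp
    ring

/-- Indicator that the prime `p` has the state `o` at `t`. -/
noncomputable def tr1_ind (M : ℕ) (b : J → ℕ) (p : ℕ) (t : ℕ) : Option J → ℝ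
  | none => 1 - ∑ j, (if p ∣ b j + M * t then (1 : ℝ) else 0)
  | some j => if p ∣ b j + M * t then 1 else 0

/-- At most one form is divisible by a prime of `P`. -/
theorem tr1_unique {P : Finset ℕ} {W K M : ℕ} {b : J → ℕ} (hF : Forms P W K M b)
    {p : ℕ} (hp : p ∈ P) (t : ℕ) {j j' : J} (h1 : p ∣ b j + M * t) (h2 : p ∣ b j' + M * t) :
    j = j' := by
  by_contra hne
  apply hF.dist p hp j j' hne
  have h3 : b j + M * t ≡ b j' + M * t [MOD p] :=
    ((Nat.modEq_zero_iff_dvd.2 h1).trans (Nat.modEq_zero_iff_dvd.2 h2).symm)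
  exact Nat.ModEq.add_right_cancel' _ h3

theorem tr1_sum_one {P : Finset ℕ} {W K M : ℕ} {b : J → ℕ} (hF : Forms P W K M b)
    {p : ℕ} (hp : p ∈ P) (t : ℕ) {j : J} (h1 : p ∣ b j + M * t) :
    ∑ j', (if p ∣ b j' + M * t then (1 : ℝ) else 0) = 1 := by
  rw [Finset.sum_eq_single j]
  · rw [if_pos h1]
  · intro j' _ hj'
    rw [if_neg]
    intro h2
    exact hj' (tr1_unique hF hp t h2 h1)
  · intro h
    exact absurd (Finset.mem_univ j) h

theorem tr1_expand {P : Finset ℕ} {W K M : ℕ} {b : J → ℕ} (hF : Forms P W K M b)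
    (F : (J → Finset {p // p ∈ P}) → ℝ) (t : ℕ) :
    F (fun j => hit P (b j + M * t)) = ∑ κ : {p // p ∈ P} → Option J, F (cfg κ) *
      ∏ i, tr1_ind M b i.1 t (κ i) := by
  classical
  set κ0 : {p // p ∈ P} → Option J := fun i =>
    if h : ∃ j, i.1 ∣ b j + M * t then some h.choose else none with hκ0
  have hsome : ∀ i j, κ0 i = some j ↔ i.1 ∣ b j + M * t := by
    intro i j
    by_cases h : ∃ j, i.1 ∣ b j + M * t
    · have e : κ0 i = some h.choose := by simp only [hκ0]; rw [dif_pos h]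
      rw [e, Option.some_inj]
      constructor
      · intro hj
        rw [← hj]
        exact h.choose_spec
      · intro hj
        exact tr1_unique hF i.2 t h.choose_spec hj
    · have e : κ0 i = none := by simp only [hκ0]; rw [dif_neg h]
      rw [e]
      constructor
      · intro h'; exact absurd h' (by simp)
      · intro hj; exact absurd ⟨j, hj⟩ h
  have hnone : ∀ i, κ0 i = none → ∀ j, ¬ i.1 ∣ b j + M * t := by
    intro i hi j hj
    rw [← hsome i j, hi] at hj
    exact absurd hj (by simp)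
  rw [Finset.sum_eq_single κ0]
  · have h1 : (fun j => hit P (b j + M * t)) = cfg κ0 := by
      funext j
      unfold hit cfg
      apply Finset.filter_congr
      intro i _
      exact (hsome i j).symm
    have h2 : ∏ i, tr1_ind M b i.1 t (κ0 i) = 1 := by
      apply Finset.prod_eq_one
      intro i _
      rcases h : κ0 i with _ | j
      · unfold tr1_ind
        simp only
        rw [Finset.sum_eq_zero]
        · ring
        · intro j _
          rw [if_neg (hnone i h j)]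
      · unfold tr1_ind
        simp only
        rw [if_pos ((hsome i j).1 h)]
    rw [h1, h2, mul_one]
  · intro κ _ hκ
    obtain ⟨i, hi⟩ : ∃ i, κ i ≠ κ0 i := by
      by_contra hcon
      push Not at hcon
      exact hκ (funext hcon)
    have : tr1_ind M b i.1 t (κ i) = 0 := by
      rcases h : κ i with _ | j
      · rcases h' : κ0 i with _ | j'
        · rw [h, h'] at hi
          exact absurd rfl hi
        · unfold tr1_ind
          simp only
          rw [tr1_sum_one hF i.2 t ((hsome i j').1 h')]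
          ring
      · unfold tr1_ind
        simp only
        rw [if_neg]
        intro hd
        rw [h, (hsome i j).2 hd] at hi
        exact absurd rfl hi
    rw [Finset.prod_eq_zero (Finset.mem_univ i) this, mul_zero]
  · intro h
    exact absurd (Finset.mem_univ κ0) h

theorem tr1_periodic (M : ℕ) (b : J → ℕ) (p : ℕ) (o : Option J) :
    Function.Periodic (fun t => tr1_ind M b p t o) p := by
  intro t
  have h : ∀ j, (p ∣ b j + M * (t + p)) ↔ (p ∣ b j + M * t) := by
    intro j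
    have e : b j + M * (t + p) = (b j + M * t) + p * M := by ring
    rw [e]
    exact (Nat.dvd_add_left (Dvd.intro M rfl))
  rcases o with _ | j
  · simp only [tr1_ind, h]
  · simp only [tr1_ind, h]

theorem tr1_sum_some {P : Finset ℕ} {W K M : ℕ} {b : J → ℕ} (hF : Forms P W K M b)
    {p : ℕ} (hp : p ∈ P) (j : J) :
    ∑ t ∈ range p, (if p ∣ b j + M * t then (1 : ℝ) else 0) = 1 := by
  obtain ⟨T, hT, hT'⟩ := tr1_T M (b j) p (hF.prime p hp) (hF.cop p hp)
  rw [Finset.sum_eq_single T]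
  · rw [if_pos ((hT' T hT).2 rfl)]
  · intro t ht hne
    rw [if_neg]
    intro h
    exact hne ((hT' t (Finset.mem_range.1 ht)).1 h)
  · intro h
    exact absurd (Finset.mem_range.2 hT) h

theorem tr1_sum_period {P : Finset ℕ} {W K M : ℕ} {b : J → ℕ} (hF : Forms P W K M b)
    {p : ℕ} (hp : p ∈ P) (o : Option J) :
    ∑ t ∈ range p, tr1_ind M b p t o = p * ww J p o := by
  have hp0 : (p : ℝ) ≠ 0 := by
    have := (hF.prime p hp).pos
    positivity
  rcases o with _ | j
  · simp only [tr1_ind, ww]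
    rw [Finset.sum_sub_distrib, Finset.sum_comm]
    rw [Finset.sum_congr rfl (fun j _ => tr1_sum_some hF hp j)]
    simp only [sum_const, card_range, nsmul_eq_mul, mul_one, card_univ]
    field_simp
  · simp only [tr1_ind, ww]
    rw [tr1_sum_some hF hp j]
    field_simp

/-- Let `κ_t(p)` be the form divisible by `p` at `t` (at most one by `dist`), or `none`. Then
`F(hit ..) = Σ_κ F(cfg κ) ∏_p 1[κ_t(p) = κ p]`; the factor of `p` has period `p`, and by
`H56G.sum_range_prod` (index type `{p // p ∈ P}`) the sum over a full period is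
`∏_p #{t < p : κ_t(p) = κ p}`, where the factor is `1` if `κ p = some j` (`p ∤ M`: exactly one class,
see `H56G.gram1_T`), and `p - |J|` if `κ p = none`. -/
theorem EP_eq (P : Finset ℕ) (W K M : ℕ) (b : J → ℕ) (hF : Forms P W K M b)
    (F : (J → Finset {p // p ∈ P}) → ℝ) :
    EP P M b F = ∑ κ : {p // p ∈ P} → Option J, F (cfg κ) * ∏ i, ww J i.1 (κ i) := by
  classical
  have hprod : (∏ p ∈ P, p) = ∏ i : {p // p ∈ P}, i.1 := by
    rw [← Finset.prod_coe_sort P (fun p => p)]
  have hpos : (0 : ℝ) < ((∏ p ∈ P, p : ℕ) : ℝ) := by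
    have : 0 < ∏ p ∈ P, p := Finset.prod_pos (fun p hp => (hF.prime p hp).pos)
    exact_mod_cast this
  unfold EP
  rw [div_eq_iff hpos.ne', Finset.sum_mul]
  rw [Finset.sum_congr rfl (fun t _ => tr1_expand hF F t), Finset.sum_comm]
  refine Finset.sum_congr rfl (fun κ _ => ?_)
  rw [← Finset.mul_sum, mul_assoc]
  congr 1
  rw [hprod, H56G.sum_range_prod (fun i : {p // p ∈ P} => i.1) (fun i => hF.prime i.1 i.2)
    Subtype.val_injective univ (fun i t => tr1_ind M b i.1 t (κ i))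
    (fun i => tr1_periodic M b i.1 (κ i))]
  rw [Finset.prod_congr rfl (fun i _ => tr1_sum_period hF i.2 (κ i))]
  rw [Finset.prod_mul_distrib]
  push_cast
  ring

end Pool.Agent.Lib.H15P
end

-- from Lib.H15P.LV1
section

/-!
# Chunk LV1: the level norm
-/

open Finset

namespace Pool.Agent.Lib.H15P

variable {Q : ℕ}

theorem Lev.nonneg {G : ℕ → ℝ} {K : ℝ} (h : Lev Q G K) : 0 ≤ K := by
  induction h with
  | base g d c hd0 hd hper hc =>
    have hc0 : 0 ≤ c := le_trans (abs_nonneg _) (hc 0)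
    positivity
  | add G G' K K' h h' ih ih' => exact add_nonneg ih ih'
  | mono G K K' h hK ih => exact ih.trans hK

theorem Lev.const (hQ : 0 < Q) (c : ℝ) : Lev Q (fun _ => c) |c| := by
  have h := Lev.base (Q := Q) (fun _ => c) 1 |c| one_pos (one_dvd Q) (fun _ => rfl)
    (fun _ => le_rfl)
  exact Lev.mono _ _ _ h (by simp)

theorem Lev.const_mul {G : ℕ → ℝ} {K : ℝ} (h : Lev Q G K) (c : ℝ) :
    Lev Q (fun t => c * G t) (|c| * K) := by
  induction h with
  | base g d c' hd0 hd hper hc =>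
    have h1 := Lev.base (Q := Q) (fun t => c * g t) d (|c| * c') hd0 hd
      (fun t => by simp only [hper t]) (fun t => by
        rw [abs_mul]
        exact mul_le_mul_of_nonneg_left (hc t) (abs_nonneg c))
    exact Lev.mono _ _ _ h1 (by nlinarith)
  | add G G' K K' h h' ih ih' =>
    have h1 := Lev.add _ _ _ _ ih ih'
    have h2 : (fun t => c * G t + c * G' t) = fun t => c * (G t + G' t) := by
      funext t
      ring
    rw [h2] at h1
    exact Lev.mono _ _ _ h1 (by nlinarith)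
  | mono G K K' h hK ih =>
    exact Lev.mono _ _ _ ih (mul_le_mul_of_nonneg_left hK (abs_nonneg c))

theorem lv1_mul_base {g : ℕ → ℝ} {d : ℕ} {c : ℝ} (hd0 : 0 < d) (hd : d ∣ Q)
    (hper : Function.Periodic g d) (hc : ∀ t, |g t| ≤ c) {G' : ℕ → ℝ} {K' : ℝ}
    (h' : Lev Q G' K') : Lev Q (fun t => g t * G' t) (d * c * K') := by
  have hc0 : 0 ≤ c := le_trans (abs_nonneg _) (hc 0)
  induction h' with
  | base g' d' c' hd0' hd' hper' hc' =>
    have hc0' : 0 ≤ c' := le_trans (abs_nonneg _) (hc' 0)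
    have hl : 0 < Nat.lcm d d' := Nat.lcm_pos hd0 hd0'
    have hl' : Nat.lcm d d' ∣ Q := Nat.lcm_dvd hd hd'
    have hp : Function.Periodic (fun t => g t * g' t) (Nat.lcm d d') := by
      intro t
      obtain ⟨k, hk⟩ := Nat.dvd_lcm_left d d'
      obtain ⟨k', hk'⟩ := Nat.dvd_lcm_right d d'
      have h1 : g (t + Nat.lcm d d') = g t := by
        rw [hk, mul_comm]
        simpa using (hper.nat_mul k) t
      have h2 : g' (t + Nat.lcm d d') = g' t := by
        rw [hk', mul_comm]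
        simpa using (hper'.nat_mul k') t
      show g (t + Nat.lcm d d') * g' (t + Nat.lcm d d') = g t * g' t
      rw [h1, h2]
    have h1 := Lev.base (Q := Q) (fun t => g t * g' t) (Nat.lcm d d') (c * c') hl hl' hp
      (fun t => by
        rw [abs_mul]
        exact mul_le_mul (hc t) (hc' t) (abs_nonneg _) hc0)
    refine Lev.mono _ _ _ h1 ?_
    have h2 : ((Nat.lcm d d' : ℕ) : ℝ) ≤ d * d' := by
      exact_mod_cast Nat.le_of_dvd (Nat.mul_pos hd0 hd0') (Nat.lcm_dvd_mul d d')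
    calc ((Nat.lcm d d' : ℕ) : ℝ) * (c * c') ≤ (d * d') * (c * c') :=
          mul_le_mul_of_nonneg_right h2 (mul_nonneg hc0 hc0')
      _ = d * c * (d' * c') := by ring
  | add G G' K K' h h' ih ih' =>
    have h1 := Lev.add _ _ _ _ ih ih'
    have h2 : (fun t => g t * G t + g t * G' t) = fun t => g t * (G t + G' t) := by
      funext t
      ring
    rw [h2] at h1
    exact Lev.mono _ _ _ h1 (by nlinarith)
  | mono G K K' h hK ih =>
    exact Lev.mono _ _ _ ih (mul_le_mul_of_nonneg_left hK (by positivity))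

/-- Double induction; the product of functions with periods `d, d' ∣ Q` has the period
`lcm d d' ∣ Q`, `lcm d d' ≤ d d'`. -/
theorem Lev.mul (hQ : 0 < Q) {G G' : ℕ → ℝ} {K K' : ℝ} (h : Lev Q G K) (h' : Lev Q G' K') :
    Lev Q (fun t => G t * G' t) (K * K') := by
  have hK0' := h'.nonneg
  induction h with
  | base g d c hd0 hd hper hc => exact lv1_mul_base hd0 hd hper hc h'
  | add G1 G2 K1 K2 h1 h2 ih1 ih2 =>
    have h3 := Lev.add _ _ _ _ ih1 ih2
    have h4 : (fun t => G1 t * G' t + G2 t * G' t) = fun t => (G1 t + G2 t) * G' t := by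
      funext t
      ring
    rw [h4] at h3
    exact Lev.mono _ _ _ h3 (by nlinarith)
  | mono G K1 K2 h hK ih =>
    exact Lev.mono _ _ _ ih (mul_le_mul_of_nonneg_right hK hK0')


theorem Lev.prod {α : Type} (s : Finset α) (G : α → ℕ → ℝ) (K : α → ℝ)
    (hQ : 0 < Q) (h : ∀ a ∈ s, Lev Q (G a) (K a)) :
    Lev Q (fun t => ∏ a ∈ s, G a t) (∏ a ∈ s, K a) := by
  classical
  induction s using Finset.induction_on with
  | empty =>
    have h1 := Lev.const hQ 1
    rw [abs_one] at h1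
    simpa using h1
  | insert a s ha ih =>
    have h1 := Lev.mul hQ (h a (Finset.mem_insert_self a s))
      (ih fun b hb => h b (Finset.mem_insert_of_mem hb))
    rw [Finset.prod_insert ha]
    have h2 : (fun t => ∏ b ∈ insert a s, G b t) = fun t => G a t * ∏ b ∈ s, G b t := by
      funext t
      rw [Finset.prod_insert ha]
    rw [h2]
    exact h1

theorem Lev.pow (hQ : 0 < Q) {G : ℕ → ℝ} {K : ℝ} (h : Lev Q G K) (n : ℕ) :
    Lev Q (fun t => G t ^ n) (K ^ n) := by
  have h1 := Lev.prod (Finset.range n) (fun _ => G) (fun _ => K) hQ (fun _ _ => h)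
  simpa using h1

theorem lv1_range_mul (d : ℕ) (g : ℕ → ℝ) (hg : Function.Periodic g d) (k : ℕ) :
    ∑ t ∈ range (k * d), g t = k * ∑ t ∈ range d, g t := by
  rw [← H56G.crt_sum_Icc_mul d g hg k]
  have h1 : Function.Periodic g (k * d) := by
    have := hg.nat_mul k
    simpa using this
  rw [← H56G.crt_sum_Icc_period (k * d) g h1 1]

theorem lv1_avg_base {g : ℕ → ℝ} {d : ℕ} {c : ℝ} (hQ : 0 < Q) (hd0 : 0 < d) (hd : d ∣ Q)
    (hper : Function.Periodic g d) (hc : ∀ t, |g t| ≤ c) (a Y : ℕ) :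
    |∑ t ∈ Ico a (a + Y), g t - Y * ((∑ t ∈ range Q, g t) / Q)| ≤ 2 * (d * c) := by
  have hF : Function.Periodic (fun t => g (t + (a + (d - 1)))) d := by
    intro t
    show g (t + d + (a + (d - 1))) = g (t + (a + (d - 1)))
    have h1 : t + d + (a + (d - 1)) = t + (a + (d - 1)) + d := by ring
    rw [h1]
    exact hper _
  have h := H56G.abs_sum_Icc_sub_le d hd0 (fun t => g (t + (a + (d - 1)))) hF c
    (fun t => hc _) Y
  have h1 : ∑ t ∈ Icc 1 Y, g (t + (a + (d - 1))) = ∑ t ∈ Ico a (a + Y), g t := by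
    have h2 : Ico a (a + Y) = (range Y).image (fun t => t + a) := by
      ext t
      simp only [Finset.mem_Ico, Finset.mem_image, Finset.mem_range]
      constructor
      · rintro ⟨h3, h4⟩
        exact ⟨t - a, by omega, by omega⟩
      · rintro ⟨u, h3, rfl⟩
        omega
    have h3 : Icc 1 Y = (range Y).image (fun t => t + 1) := by
      ext t
      simp only [Finset.mem_Icc, Finset.mem_image, Finset.mem_range]
      constructor
      · rintro ⟨h3, h4⟩
        exact ⟨t - 1, by omega, by omega⟩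
      · rintro ⟨u, h3, rfl⟩
        omega
    rw [h2, h3, Finset.sum_image (fun x _ y _ h => by simpa using h),
      Finset.sum_image (fun x _ y _ h => by simpa using h)]
    apply Finset.sum_congr rfl
    intro t _
    have h4 : t + 1 + (a + (d - 1)) = t + a + d := by omega
    rw [h4]
    exact hper _
  have h2 : ∑ t ∈ range d, g (t + (a + (d - 1))) = ∑ t ∈ range d, g t := by
    rw [← H56G.crt_sum_Icc_period d g hper (a + (d - 1))]
    have h3 : Ico (a + (d - 1)) (a + (d - 1) + d) =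
        (range d).image (fun t => t + (a + (d - 1))) := by
      ext t
      simp only [Finset.mem_Ico, Finset.mem_image, Finset.mem_range]
      constructor
      · rintro ⟨h3, h4⟩
        exact ⟨t - (a + (d - 1)), by omega, by omega⟩
      · rintro ⟨u, h3, rfl⟩
        omega
    rw [h3, Finset.sum_image (fun x _ y _ h => by simpa using h)]
  obtain ⟨k, hk⟩ := hd
  have hk0 : 0 < k := by
    rcases Nat.eq_zero_or_pos k with h3 | h3
    · subst h3
      omega
    · exact h3
  have h3 : (∑ t ∈ range Q, g t) / (Q : ℝ) = (∑ t ∈ range d, g t) / d := by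
    rw [hk, mul_comm d k, lv1_range_mul d g hper k]
    push_cast
    have hk' : (k : ℝ) ≠ 0 := by exact_mod_cast hk0.ne'
    have hd' : (d : ℝ) ≠ 0 := by exact_mod_cast hd0.ne'
    field_simp
  rw [h1, h2] at h
  rw [h3]
  refine h.trans (le_of_eq ?_)
  ring

/-- Incomplete sums. Each term `g` (period `d`, `|g| ≤ c`) contributes at most `2 d c`:
`H56G.abs_sum_Icc_sub_le` for the translate `t ↦ g (t + a - 1)` (or directly), and the mean value
over `range Q` is the mean value over `range d` as `d ∣ Q`. Induction over `Lev`. -/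
theorem Lev.avg (hQ : 0 < Q) {G : ℕ → ℝ} {K : ℝ} (h : Lev Q G K) (a Y : ℕ) :
    |∑ t ∈ Ico a (a + Y), G t - Y * ((∑ t ∈ range Q, G t) / Q)| ≤ 2 * K := by
  induction h with
  | base g d c hd0 hd hper hc => exact lv1_avg_base hQ hd0 hd hper hc a Y
  | add G G' K K' h h' ih ih' =>
    have h1 : ∑ t ∈ Ico a (a + Y), (G t + G' t) -
        Y * ((∑ t ∈ range Q, (G t + G' t)) / Q) =
        (∑ t ∈ Ico a (a + Y), G t - Y * ((∑ t ∈ range Q, G t) / Q)) +
        (∑ t ∈ Ico a (a + Y), G' t - Y * ((∑ t ∈ range Q, G' t) / Q)) := by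
      rw [Finset.sum_add_distrib, Finset.sum_add_distrib]
      ring
    rw [h1]
    refine (abs_add_le _ _).trans ?_
    linarith
  | mono G K K' h hK ih => linarith

end Pool.Agent.Lib.H15P
end

-- from Lib.H15P.TR2
section

/-!
# Chunk TR2: upper bound for the mean value over a period by the independent model
-/

open Finset

namespace Pool.Agent.Lib.H15P

variable {J : Type} [Fintype J] [DecidableEq J]

/-- The numbers of `P` are distinct and `> W`: `Σ p^-2 ≤ 1/W` (see `H56G.cnt_sum_inv_sq`). -/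
theorem sum_inv_sq_le (P : Finset ℕ) (W : ℕ) (hW : 1 ≤ W) (hb : ∀ p ∈ P, W < p) :
    ∑ p ∈ P, 1 / (p : ℝ) ^ 2 ≤ 1 / (W : ℝ) := by
  obtain ⟨N, hN⟩ : ∃ N, W ≤ N ∧ ∀ p ∈ P, p ≤ N :=
    ⟨max W (P.sup id), le_max_left _ _, fun p hp =>
      (Finset.le_sup (f := id) hp).trans (le_max_right _ _)⟩
  have hsub : P ⊆ Ioc W N := fun n hn => Finset.mem_Ioc.2 ⟨hb n hn, hN.2 n hn⟩
  have h0 : ∑ p ∈ P, 1 / (p : ℝ) ^ 2 = ∑ p ∈ P, ((p : ℝ) ^ 2)⁻¹ :=
    Finset.sum_congr rfl (fun p _ => one_div _)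
  rw [h0, one_div]
  calc ∑ n ∈ P, ((n : ℝ) ^ 2)⁻¹
      ≤ ∑ n ∈ Ioc W N, ((n : ℝ) ^ 2)⁻¹ :=
        Finset.sum_le_sum_of_subset_of_nonneg hsub (fun _ _ _ => by positivity)
    _ ≤ (W : ℝ)⁻¹ - (N : ℝ)⁻¹ := sum_Ioc_inv_sq_le_sub (by omega) hN.1
    _ ≤ (W : ℝ)⁻¹ := by
        have : (0 : ℝ) ≤ (N : ℝ)⁻¹ := by positivity
        linarith

theorem qq_nonneg (P : Finset ℕ) (K : ℕ) (p : {p // p ∈ P}) : 0 ≤ qq P K p := by
  unfold qq
  positivity

theorem tr2_big (P : Finset ℕ) (W K : ℕ) (hK : 1 ≤ K) (hKW : 4 * K ^ 2 ≤ W)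
    (hb : ∀ p ∈ P, W < p) (p : {p // p ∈ P}) : 4 * (K : ℝ) ≤ (p.1 : ℝ) ∧ (1 : ℝ) ≤ (p.1 : ℝ) := by
  have h1 := hb p.1 p.2
  have h2 : 4 * K ≤ p.1 := by nlinarith
  have h3 : 1 ≤ p.1 := by omega
  exact ⟨by exact_mod_cast h2, by exact_mod_cast h3⟩

/-- `qq ≤ 2/p`, in particular `≤ 1` (`p ≥ W ≥ 4 K^2 ≥ 4 K`). -/
theorem qq_le (P : Finset ℕ) (W K : ℕ) (hK : 1 ≤ K) (hKW : 4 * K ^ 2 ≤ W)
    (hb : ∀ p ∈ P, W < p) (p : {p // p ∈ P}) : qq P K p ≤ 2 / (p.1 : ℝ) := by
  obtain ⟨h1, h2⟩ := tr2_big P W K hK hKW hb p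
  unfold qq
  have hp : (0 : ℝ) < (p.1 : ℝ) := by linarith
  have hK0 : (0 : ℝ) ≤ K := by positivity
  have hc : (1 : ℝ) ≤ 1 + 2 * K / (p.1 : ℝ) ^ 2 := by
    have : (0 : ℝ) ≤ 2 * K / (p.1 : ℝ) ^ 2 := by positivity
    linarith
  have ha : 1 / (p.1 : ℝ) + 2 * K / (p.1 : ℝ) ^ 2 ≤ 2 / (p.1 : ℝ) := by
    have e : 2 / (p.1 : ℝ) - (1 / (p.1 : ℝ) + 2 * K / (p.1 : ℝ) ^ 2)
        = ((p.1 : ℝ) - 2 * K) / (p.1 : ℝ) ^ 2 := by
      field_simp
      ring
    have : (0 : ℝ) ≤ ((p.1 : ℝ) - 2 * K) / (p.1 : ℝ) ^ 2 :=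
      div_nonneg (by linarith) (by positivity)
    linarith
  refine (div_le_self (by positivity) hc).trans ha

theorem tr2_qq_le_one (P : Finset ℕ) (W K : ℕ) (hK : 1 ≤ K) (hKW : 4 * K ^ 2 ≤ W)
    (hb : ∀ p ∈ P, W < p) (p : {p // p ∈ P}) : qq P K p ≤ 1 := by
  obtain ⟨h1, h2⟩ := tr2_big P W K hK hKW hb p
  refine (qq_le P W K hK hKW hb p).trans ?_
  have hp : (0 : ℝ) < (p.1 : ℝ) := by linarith
  rw [div_le_one hp]
  have : (1 : ℝ) ≤ K := by exact_mod_cast hK
  linarith

/-- One prime: `ww (κ p) ≤ ∏_j (factor of j)`, where the factor is `α = 1/p + 2K/p^2` for the form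
`κ p` and `β = 1 - 1/p` for the other forms: `1 - k/p ≤ (1 - 1/p)^k` (Bernoulli) and
`1/p ≤ α (1 - 1/p)^(k-1)` since `(1 + 2K/p)(1 - 1/p)^(k-1) ≥ (1 + 2K/p)(1 - K/p) ≥ 1` for
`2 K ≤ p`. -/
theorem ww_le (P : Finset ℕ) (W K : ℕ) (hK : 1 ≤ K) (hKW : 4 * K ^ 2 ≤ W)
    (hb : ∀ p ∈ P, W < p) (hJ : Fintype.card J ≤ K) (p : {p // p ∈ P}) (o : Option J) :
    ww J p.1 o ≤ ∏ j : J, (if o = some j then 1 / (p.1 : ℝ) + 2 * K / (p.1 : ℝ) ^ 2
      else 1 - 1 / (p.1 : ℝ)) := by
  obtain ⟨h1, h2⟩ := tr2_big P W K hK hKW hb p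
  have hp : (0 : ℝ) < (p.1 : ℝ) := by linarith
  have hinv : 1 / (p.1 : ℝ) ≤ 1 := by rw [div_le_one hp]; exact h2
  have hinv0 : 0 ≤ 1 / (p.1 : ℝ) := by positivity
  have hJr : (Fintype.card J : ℝ) ≤ K := by exact_mod_cast hJ
  have hK0 : (0 : ℝ) ≤ K := by positivity
  rcases o with _ | j0
  · have e : ∏ j : J, (if (none : Option J) = some j then 1 / (p.1 : ℝ) + 2 * K / (p.1 : ℝ) ^ 2
        else 1 - 1 / (p.1 : ℝ)) = (1 - 1 / (p.1 : ℝ)) ^ Fintype.card J := by
      rw [Finset.prod_congr rfl (g := fun _ => 1 - 1 / (p.1 : ℝ))]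
      · rw [Finset.prod_const, Finset.card_univ]
      · intro j _
        rw [if_neg (by simp)]
    rw [e]
    have hB := one_add_mul_le_pow (a := -(1 / (p.1 : ℝ))) (by linarith) (Fintype.card J)
    have e2 : ww J p.1 none = 1 + (Fintype.card J : ℝ) * (-(1 / (p.1 : ℝ))) := by
      unfold ww
      ring
    rw [e2]
    calc 1 + (Fintype.card J : ℝ) * (-(1 / (p.1 : ℝ))) ≤ (1 + -(1 / (p.1 : ℝ))) ^ Fintype.card J := hB
      _ = (1 - 1 / (p.1 : ℝ)) ^ Fintype.card J := by rw [← sub_eq_add_neg]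
  · have e : ∏ j : J, (if (some j0 : Option J) = some j then 1 / (p.1 : ℝ) + 2 * K / (p.1 : ℝ) ^ 2
        else 1 - 1 / (p.1 : ℝ)) = (1 / (p.1 : ℝ) + 2 * K / (p.1 : ℝ) ^ 2) *
          (1 - 1 / (p.1 : ℝ)) ^ (Fintype.card J - 1) := by
      rw [← Finset.mul_prod_erase univ _ (Finset.mem_univ j0), if_pos rfl]
      congr 1
      rw [Finset.prod_congr rfl (g := fun _ => 1 - 1 / (p.1 : ℝ))]
      · rw [Finset.prod_const, Finset.card_erase_of_mem (Finset.mem_univ j0), Finset.card_univ]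
      · intro j hj
        rw [if_neg]
        intro h
        exact (Finset.ne_of_mem_erase hj) (Option.some_inj.1 h).symm
    rw [e]
    have hB := one_add_mul_le_pow (a := -(1 / (p.1 : ℝ))) (by linarith) (Fintype.card J - 1)
    have hc1 : ((Fintype.card J - 1 : ℕ) : ℝ) ≤ K := by
      have : Fintype.card J - 1 ≤ K := by omega
      exact_mod_cast this
    have hlow : 1 - K * (1 / (p.1 : ℝ)) ≤ (1 - 1 / (p.1 : ℝ)) ^ (Fintype.card J - 1) := by
      have h3 : 1 - K * (1 / (p.1 : ℝ)) ≤ 1 + ((Fintype.card J - 1 : ℕ) : ℝ) * (-(1 / (p.1 : ℝ))) := by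
        nlinarith
      have h4 : (1 + -(1 / (p.1 : ℝ))) = 1 - 1 / (p.1 : ℝ) := by ring
      rw [h4] at hB
      exact h3.trans hB
    have hα : 0 ≤ 1 / (p.1 : ℝ) + 2 * K / (p.1 : ℝ) ^ 2 := by positivity
    have e2 : ww J p.1 (some j0) = 1 / (p.1 : ℝ) := rfl
    rw [e2]
    refine le_trans ?_ (mul_le_mul_of_nonneg_left hlow hα)
    have e3 : (1 / (p.1 : ℝ) + 2 * K / (p.1 : ℝ) ^ 2) * (1 - K * (1 / (p.1 : ℝ))) - 1 / (p.1 : ℝ)
        = K * ((p.1 : ℝ) - 2 * K) / (p.1 : ℝ) ^ 3 := by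
      field_simp
      ring
    have : 0 ≤ K * ((p.1 : ℝ) - 2 * K) / (p.1 : ℝ) ^ 3 :=
      div_nonneg (mul_nonneg hK0 (by linarith)) (by positivity)
    linarith

omit [Fintype J] in
theorem tr2_cfg_injective {P : Finset ℕ} :
    Function.Injective (cfg : ({p // p ∈ P} → Option J) → J → Finset {p // p ∈ P}) := by
  intro κ κ' h
  funext i
  apply Option.ext
  intro j
  have h1 : i ∈ cfg κ j ↔ i ∈ cfg κ' j := by rw [h]
  unfold cfg at h1
  simp only [mem_filter, mem_univ, true_and] at h1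
  exact h1

theorem tr2_factor (P : Finset ℕ) (K : ℕ) (hb : ∀ p ∈ P, 0 < p) (κ : {p // p ∈ P} → Option J) :
    ∏ i : {p // p ∈ P}, ∏ j : J, (if κ i = some j then 1 / (i.1 : ℝ) + 2 * K / (i.1 : ℝ) ^ 2
      else 1 - 1 / (i.1 : ℝ))
      = (∏ i : {p // p ∈ P}, (1 + 2 * K / (i.1 : ℝ) ^ 2)) ^ Fintype.card J *
        ∏ j, bw (qq P K) (cfg κ j) := by
  rw [Finset.prod_comm, ← Finset.card_univ, ← Finset.prod_const, ← Finset.prod_mul_distrib]
  refine Finset.prod_congr rfl (fun j _ => ?_)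
  unfold bw
  rw [← Finset.prod_mul_distrib]
  refine Finset.prod_congr rfl (fun i _ => ?_)
  have hi : (0 : ℝ) < (i.1 : ℝ) := by exact_mod_cast hb i.1 i.2
  have hc : (1 + 2 * K / (i.1 : ℝ) ^ 2) ≠ 0 := by
    have : (0 : ℝ) ≤ 2 * K / (i.1 : ℝ) ^ 2 := by positivity
    linarith
  have hmem : i ∈ cfg κ j ↔ κ i = some j := by
    unfold cfg
    simp only [mem_filter, mem_univ, true_and]
  by_cases h : κ i = some j
  · rw [if_pos h, if_pos (hmem.2 h)]
    unfold qq
    rw [mul_div_cancel₀]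
    exact hc
  · rw [if_neg h, if_neg (fun h' => h (hmem.1 h'))]
    unfold qq
    rw [mul_sub, mul_one, mul_div_cancel₀]
    · ring
    · exact hc

/-- `α = (1 + 2K/p^2) qq`, `β = (1 + 2K/p^2) (1 - qq)`. Multiply `ww_le` over the primes:
`∏_p ww (κ p) ≤ ∏_p (1 + 2K/p^2)^|J| ∏_j bw (cfg κ j)`, the first factor is at most
`exp (2 K |J| Σ p^-2) ≤ exp (2 K^2/W)`; `κ ↦ cfg κ` is injective and all terms are
nonnegative. -/
theorem EP_le (P : Finset ℕ) (W K M : ℕ) (b : J → ℕ) (hF : Forms P W K M b)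
    (F : (J → Finset {p // p ∈ P}) → ℝ) (h0 : ∀ S, 0 ≤ F S) :
    EP P M b F ≤ Real.exp (2 * (K : ℝ) ^ 2 / W) * EX (qq P K) F := by
  classical
  have hW1 : 1 ≤ W := by
    have := hF.KW
    have := hF.one_le
    nlinarith
  have hWr : (0 : ℝ) < W := by exact_mod_cast hW1
  have hpos : ∀ p ∈ P, 0 < p := fun p hp => (hF.prime p hp).pos
  have hbw : ∀ A, 0 ≤ bw (qq P K) A := bw_nonneg _ (qq_nonneg P K)
    (tr2_qq_le_one P W K hF.one_le hF.KW hF.big)
  have hc : (∏ i : {p // p ∈ P}, (1 + 2 * K / (i.1 : ℝ) ^ 2)) ^ Fintype.card J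
      ≤ Real.exp (2 * (K : ℝ) ^ 2 / W) := by
    have h1 : ∏ i : {p // p ∈ P}, (1 + 2 * K / (i.1 : ℝ) ^ 2) ≤ Real.exp (2 * K / W) := by
      calc ∏ i : {p // p ∈ P}, (1 + 2 * K / (i.1 : ℝ) ^ 2)
          ≤ ∏ i : {p // p ∈ P}, Real.exp (2 * K / (i.1 : ℝ) ^ 2) := by
            apply Finset.prod_le_prod
            · intro i _
              positivity
            · intro i _
              rw [add_comm]
              exact Real.add_one_le_exp _
        _ = Real.exp (∑ i : {p // p ∈ P}, 2 * K / (i.1 : ℝ) ^ 2) := by rw [Real.exp_sum]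
        _ ≤ Real.exp (2 * K / W) := by
            apply Real.exp_le_exp.2
            have e1 : ∑ i : {p // p ∈ P}, 2 * (K : ℝ) / (i.1 : ℝ) ^ 2
                = ∑ p ∈ P, 2 * (K : ℝ) / (p : ℝ) ^ 2 :=
              Finset.sum_coe_sort P (fun p => 2 * (K : ℝ) / (p : ℝ) ^ 2)
            rw [e1]
            have e2 : ∑ p ∈ P, 2 * (K : ℝ) / (p : ℝ) ^ 2 = 2 * (K : ℝ) * ∑ p ∈ P, 1 / (p : ℝ) ^ 2 := by
              rw [Finset.mul_sum]
              refine Finset.sum_congr rfl (fun p _ => ?_)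
              ring
            rw [e2]
            calc 2 * (K : ℝ) * ∑ p ∈ P, 1 / (p : ℝ) ^ 2 ≤ 2 * K * (1 / W) :=
                  mul_le_mul_of_nonneg_left (sum_inv_sq_le P W hW1 hF.big) (by positivity)
              _ = 2 * K / W := by ring
    calc (∏ i : {p // p ∈ P}, (1 + 2 * K / (i.1 : ℝ) ^ 2)) ^ Fintype.card J
        ≤ (Real.exp (2 * K / W)) ^ Fintype.card J := by
          apply pow_le_pow_left₀ _ h1
          apply Finset.prod_nonneg
          intro i _
          positivity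
      _ = Real.exp (Fintype.card J * (2 * K / W)) := by rw [← Real.exp_nat_mul]
      _ ≤ Real.exp (2 * (K : ℝ) ^ 2 / W) := by
          apply Real.exp_le_exp.2
          have hJr : (Fintype.card J : ℝ) ≤ K := by exact_mod_cast hF.card
          calc (Fintype.card J : ℝ) * (2 * K / W) ≤ K * (2 * K / W) :=
                mul_le_mul_of_nonneg_right hJr (by positivity)
            _ = 2 * (K : ℝ) ^ 2 / W := by ring
  have hww : ∀ κ : {p // p ∈ P} → Option J, ∏ i, ww J i.1 (κ i)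
      ≤ Real.exp (2 * (K : ℝ) ^ 2 / W) * ∏ j, bw (qq P K) (cfg κ j) := by
    intro κ
    calc ∏ i, ww J i.1 (κ i)
        ≤ ∏ i : {p // p ∈ P}, ∏ j : J, (if κ i = some j then
            1 / (i.1 : ℝ) + 2 * K / (i.1 : ℝ) ^ 2 else 1 - 1 / (i.1 : ℝ)) := by
          apply Finset.prod_le_prod
          · intro i _
            have h2 := tr2_big P W K hF.one_le hF.KW hF.big i
            have hJr : (Fintype.card J : ℝ) ≤ K := by exact_mod_cast hF.card
            rcases h : κ i with _ | j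
            · have hp : (0 : ℝ) < (i.1 : ℝ) := by linarith [h2.2]
              have : (Fintype.card J : ℝ) / (i.1 : ℝ) ≤ 1 := by
                rw [div_le_one hp]
                linarith [h2.1, (Nat.cast_nonneg K : (0 : ℝ) ≤ K)]
              simp only [ww]
              linarith
            · simp only [ww]
              positivity
          · intro i _
            exact ww_le P W K hF.one_le hF.KW hF.big hF.card i (κ i)
      _ = _ := tr2_factor P K hpos κ
      _ ≤ _ := mul_le_mul_of_nonneg_right hc (Finset.prod_nonneg (fun j _ => hbw _))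
  rw [EP_eq P W K M b hF F]
  calc ∑ κ : {p // p ∈ P} → Option J, F (cfg κ) * ∏ i, ww J i.1 (κ i)
      ≤ ∑ κ : {p // p ∈ P} → Option J, F (cfg κ) *
          (Real.exp (2 * (K : ℝ) ^ 2 / W) * ∏ j, bw (qq P K) (cfg κ j)) :=
        Finset.sum_le_sum (fun κ _ => mul_le_mul_of_nonneg_left (hww κ) (h0 _))
    _ = Real.exp (2 * (K : ℝ) ^ 2 / W) *
          ∑ κ : {p // p ∈ P} → Option J, F (cfg κ) * ∏ j, bw (qq P K) (cfg κ j) := by
        rw [Finset.mul_sum]
        refine Finset.sum_congr rfl (fun κ _ => ?_)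
        ring
    _ ≤ Real.exp (2 * (K : ℝ) ^ 2 / W) * EX (qq P K) F := by
        apply mul_le_mul_of_nonneg_left _ (Real.exp_pos _).le
        unfold EX
        have e : ∑ κ : {p // p ∈ P} → Option J, F (cfg κ) * ∏ j, bw (qq P K) (cfg κ j)
            = ∑ S ∈ (univ : Finset ({p // p ∈ P} → Option J)).image cfg,
                F S * ∏ j, bw (qq P K) (S j) := by
          rw [Finset.sum_image (fun a _ b _ h => tr2_cfg_injective h)]
        rw [e]
        exact Finset.sum_le_sum_of_subset_of_nonneg (Finset.subset_univ _)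
          (fun S _ _ => mul_nonneg (h0 S) (Finset.prod_nonneg (fun j _ => hbw _)))

end Pool.Agent.Lib.H15P
end

-- from Lib.Helper57.Bonferroni
section

/-!
Truncated inclusion-exclusion, and an abstract combinatorial sieve in the style of Hooley:
the sieving set is cut into blocks, and inclusion-exclusion is truncated in each block.
-/

open Finset

namespace Pool.Agent.Lib.Helper57

set_option linter.unusedSectionVars false
set_option linter.unusedSimpArgs false

variable {ι : Type*} [DecidableEq ι]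

/-- The general finite expression `∑_{S ∈ F} c(S) ∏_{p ∈ S} f p`. -/
def ev (F : Finset (Finset ι)) (c : Finset ι → ℝ) (f : ι → ℝ) : ℝ :=
  ∑ S ∈ F, c S * ∏ p ∈ S, f p

/-- Subsets of `P` with at most `t` elements. -/
def small (P : Finset ι) (t : ℕ) : Finset (Finset ι) := P.powerset.filter fun S => S.card ≤ t

/-- The sign `(-1)^{|S|}`. -/
def sgn (S : Finset ι) : ℝ := (-1) ^ S.card

/-- The inclusion-exclusion sum over subsets of size at most `t`. -/
def T (P : Finset ι) (t : ℕ) (f : ι → ℝ) : ℝ := ev (small P t) sgn f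

/-- The elementary symmetric sum of degree `t`. -/
def E (P : Finset ι) (t : ℕ) (f : ι → ℝ) : ℝ := ev (P.powersetCard t) (fun _ => 1) f

/-- The full product. -/
def V (P : Finset ι) (f : ι → ℝ) : ℝ := ∏ p ∈ P, (1 - f p)

lemma T_eq_ite (P : Finset ι) (t : ℕ) (f : ι → ℝ) :
    T P t f = ∑ S ∈ P.powerset, if S.card ≤ t then sgn S * ∏ p ∈ S, f p else 0 := by
  unfold T ev small
  rw [Finset.sum_filter]

lemma E_eq_ite (P : Finset ι) (t : ℕ) (f : ι → ℝ) :
    E P t f = ∑ S ∈ P.powerset, if S.card = t then ∏ p ∈ S, f p else 0 := by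
  unfold E ev
  rw [← Finset.sum_filter, Finset.powersetCard_eq_filter]
  simp

lemma T_zero (P : Finset ι) (f : ι → ℝ) : T P 0 f = 1 := by
  rw [T_eq_ite]
  rw [Finset.sum_eq_single (∅ : Finset ι)]
  · simp [sgn]
  · intro S _ hS
    have : ¬ S.card ≤ 0 := by
      rw [Nat.le_zero, Finset.card_eq_zero]; exact hS
    simp [this]
  · intro h; exact absurd (Finset.empty_mem_powerset P) h

lemma T_insert {P : Finset ι} {q : ι} (hq : q ∉ P) (t : ℕ) (f : ι → ℝ) :
    T (insert q P) (t + 1) f = T P (t + 1) f - f q * T P t f := by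
  rw [T_eq_ite, T_eq_ite, T_eq_ite, Finset.sum_powerset_insert hq, Finset.mul_sum, sub_eq_add_neg,
    ← Finset.sum_neg_distrib]
  congr 1
  apply Finset.sum_congr rfl
  intro S hS
  have hqS : q ∉ S := fun h => hq (Finset.mem_powerset.mp hS h)
  rw [Finset.card_insert_of_notMem hqS]
  by_cases h : S.card ≤ t
  · have h' : S.card + 1 ≤ t + 1 := by omega
    simp only [h, h', if_true]
    rw [Finset.prod_insert hqS]
    unfold sgn
    rw [Finset.card_insert_of_notMem hqS]
    ring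
  · have h' : ¬ S.card + 1 ≤ t + 1 := by omega
    simp only [h, h', if_false]
    ring

lemma T_empty (t : ℕ) (f : ι → ℝ) : T (∅ : Finset ι) t f = 1 := by
  rw [T_eq_ite]
  simp [sgn]

lemma E_zero (P : Finset ι) (f : ι → ℝ) : E P 0 f = 1 := by
  unfold E ev; simp


/-- Bonferroni inequalities. -/
lemma bonferroni (P : Finset ι) (f : ι → ℝ) (hf : ∀ p ∈ P, 0 ≤ f p ∧ f p ≤ 1) (t : ℕ) :
    0 ≤ (-1) ^ t * (T P t f - V P f) := by
  induction P using Finset.induction_on generalizing t with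
  | empty => rw [T_empty]; simp [V]
  | insert q P hq ih =>
    have hf' : ∀ p ∈ P, 0 ≤ f p ∧ f p ≤ 1 := fun p hp => hf p (Finset.mem_insert_of_mem hp)
    have hfq := hf q (Finset.mem_insert_self q P)
    have hV : V (insert q P) f = (1 - f q) * V P f := by
      unfold V; rw [Finset.prod_insert hq]
    cases t with
    | zero =>
      rw [T_zero]
      have : V (insert q P) f ≤ 1 := by
        unfold V
        apply Finset.prod_le_one
        · intro p hp; linarith [(hf p hp).2]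
        · intro p hp; linarith [(hf p hp).1]
      simp; exact this
    | succ t =>
      rw [T_insert hq, hV]
      have h1 := ih hf' (t + 1)
      have h2 := ih hf' t
      have e : (-1 : ℝ) ^ (t + 1) * (T P (t + 1) f - f q * T P t f - (1 - f q) * V P f) =
          (-1) ^ (t + 1) * (T P (t + 1) f - V P f) + f q * ((-1) ^ t * (T P t f - V P f)) := by
        rw [pow_succ]; ring
      rw [e]
      have := mul_nonneg hfq.1 h2
      linarith

lemma V_le_T {P : Finset ι} {f : ι → ℝ} (hf : ∀ p ∈ P, 0 ≤ f p ∧ f p ≤ 1) {t : ℕ} (ht : Even t) :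
    V P f ≤ T P t f := by
  have := bonferroni P f hf t
  rw [ht.neg_one_pow, one_mul] at this
  linarith

lemma T_succ (P : Finset ι) (t : ℕ) (f : ι → ℝ) :
    T P (t + 1) f = T P t f + (-1) ^ (t + 1) * E P (t + 1) f := by
  rw [T_eq_ite, T_eq_ite, E_eq_ite, Finset.mul_sum, ← Finset.sum_add_distrib]
  apply Finset.sum_congr rfl
  intro S _
  by_cases h : S.card ≤ t
  · have h1 : S.card ≤ t + 1 := by omega
    have h2 : ¬ S.card = t + 1 := by omega
    simp [h, h1, h2]
  · by_cases h2 : S.card = t + 1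
    · have h1 : S.card ≤ t + 1 := by omega
      simp only [h, h1, h2, if_true, if_false, sgn]
      simp
    · have h1 : ¬ S.card ≤ t + 1 := by omega
      simp [h, h1, h2]

lemma T_sub_E_le {P : Finset ι} {f : ι → ℝ} (hf : ∀ p ∈ P, 0 ≤ f p ∧ f p ≤ 1) {t : ℕ}
    (ht : Even t) : T P t f - E P t f ≤ V P f := by
  cases t with
  | zero =>
    rw [T_zero, E_zero]
    have : 0 ≤ V P f := Finset.prod_nonneg fun p hp => by linarith [(hf p hp).2]
    linarith
  | succ t =>
    have hodd : Odd t := by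
      rcases Nat.even_or_odd t with h | h
      · exact absurd ht (by simpa [Nat.even_add_one] using h)
      · exact h
    rw [T_succ, ht.neg_one_pow]
    have := bonferroni P f hf t
    rw [hodd.neg_one_pow] at this
    linarith

lemma V_nonneg {P : Finset ι} {f : ι → ℝ} (hf : ∀ p ∈ P, 0 ≤ f p ∧ f p ≤ 1) : 0 ≤ V P f :=
  Finset.prod_nonneg fun p hp => by linarith [(hf p hp).2]





/-- Telescoping upper bound for the difference of two products. -/
lemma prod_sub_prod_le {κ : Type*} [DecidableEq κ] (J : Finset κ) (u v : κ → ℝ)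
    (h : ∀ j ∈ J, 0 ≤ v j ∧ v j ≤ u j) :
    ∏ j ∈ J, u j - ∏ j ∈ J, v j ≤ ∑ j ∈ J, (u j - v j) * ∏ i ∈ J.erase j, u i := by
  induction J using Finset.induction_on with
  | empty => simp
  | insert a J ha ih =>
    have h' : ∀ j ∈ J, 0 ≤ v j ∧ v j ≤ u j := fun j hj => h j (Finset.mem_insert_of_mem hj)
    have ha' := h a (Finset.mem_insert_self a J)
    rw [Finset.prod_insert ha, Finset.prod_insert ha, Finset.sum_insert ha,
      Finset.erase_insert ha]
    have e : ∑ j ∈ J, (u j - v j) * ∏ i ∈ (insert a J).erase j, u i =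
        u a * ∑ j ∈ J, (u j - v j) * ∏ i ∈ J.erase j, u i := by
      rw [Finset.mul_sum]
      apply Finset.sum_congr rfl
      intro j hj
      have hja : j ≠ a := fun h => ha (h ▸ hj)
      rw [Finset.erase_insert_of_ne hja.symm, Finset.prod_insert (by
        intro hmem; exact ha (Finset.mem_of_mem_erase hmem))]
      ring
    rw [e]
    have h1 := mul_le_mul_of_nonneg_left (ih h') (ha'.1.trans ha'.2)
    have h2 : ∏ j ∈ J, v j ≤ ∏ j ∈ J, u j :=
      Finset.prod_le_prod (fun j hj => (h' j hj).1) fun j hj => (h' j hj).2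
    have h3 : (u a - v a) * ∏ j ∈ J, v j ≤ (u a - v a) * ∏ j ∈ J, u j :=
      mul_le_mul_of_nonneg_left h2 (by linarith [ha'.2])
    nlinarith

end Pool.Agent.Lib.Helper57
end

-- from Lib.Helper57.Count
section

/-!
Counting integers in an initial segment subject to congruence conditions modulo distinct primes.
-/

open Finset

namespace Pool.Agent.Lib.Helper57

/-- Counting function of a predicate. -/
noncomputable def cnt (P : ℕ → Prop) (M : ℕ) : ℕ := by
  classical exact ((range M).filter P).card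








/-- The number of residue classes modulo `p` met by `A`. -/
def nu (A : Finset ℕ) (p : ℕ) : ℕ := (A.image fun a => a % p).card








end Pool.Agent.Lib.Helper57
end

-- from Lib.Helper57.PrimeSums
section

/-!
Sums of reciprocals of primes, from Chebyshev's bound.
-/

open Finset

namespace Pool.Agent.Lib.Helper57











/-- The primes in `(K, z]`. -/
def pr (K z : ℕ) : Finset ℕ := (range (z + 1)).filter fun p => p.Prime ∧ K < p






end Pool.Agent.Lib.Helper57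
end

-- from Lib.Helper57.Transfer
section

/-!
The abstract combinatorial sieve: upper and lower bounds for the number of unsieved elements.
-/

open Finset

namespace Pool.Agent.Lib.Helper57

set_option linter.unusedSectionVars false

variable {ι κ α : Type*} [DecidableEq ι] [DecidableEq κ] [DecidableEq α]

/-- The indicator function of `B`. -/
def ind (B : Finset ι) (p : ι) : ℝ := if p ∈ B then 1 else 0

lemma ind_bounds (B : Finset ι) (p : ι) : 0 ≤ ind B p ∧ ind B p ≤ 1 := by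
  unfold ind; split_ifs <;> norm_num

lemma prod_ind (B S : Finset ι) : ∏ p ∈ S, ind B p = if S ⊆ B then 1 else 0 := by
  unfold ind
  by_cases h : S ⊆ B
  · rw [if_pos h]
    apply Finset.prod_eq_one
    intro p hp
    rw [if_pos (h hp)]
  · rw [if_neg h]
    obtain ⟨p, hp, hpB⟩ := Finset.not_subset.mp h
    exact Finset.prod_eq_zero hp (by rw [if_neg hpB])

/-- `ev` commutes with products over disjoint blocks. -/
lemma prod_ev (J : Finset κ) (F : κ → Finset (Finset ι)) (c : κ → Finset ι → ℝ)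
    (P : κ → Finset ι) (hdisj : ∀ i ∈ J, ∀ j ∈ J, i ≠ j → Disjoint (P i) (P j))
    (hF : ∀ j ∈ J, ∀ S ∈ F j, S ⊆ P j) (f : ι → ℝ) :
    ∏ j ∈ J, ev (F j) (c j) f = ∑ φ ∈ J.pi F,
      (∏ x ∈ J.attach, c x.1 (φ x.1 x.2)) * ∏ p ∈ J.attach.biUnion (fun x => φ x.1 x.2), f p := by
  unfold ev
  rw [Finset.prod_sum]
  apply Finset.sum_congr rfl
  intro φ hφ
  rw [Finset.prod_mul_distrib]
  congr 1
  rw [Finset.prod_biUnion]
  intro x _ y _ hxy
  have hmem := Finset.mem_pi.mp hφ
  have h1 := hF x.1 x.2 _ (hmem x.1 x.2)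
  have h2 := hF y.1 y.2 _ (hmem y.1 y.2)
  have hne : x.1 ≠ y.1 := fun h => hxy (Subtype.ext h)
  exact Finset.disjoint_of_subset_left h1 (Finset.disjoint_of_subset_right h2
    (hdisj x.1 x.2 y.1 y.2 hne))

/-- The transfer principle. -/
lemma transfer (J : Finset κ) (F : κ → Finset (Finset ι)) (c : κ → Finset ι → ℝ)
    (P : κ → Finset ι) (hdisj : ∀ i ∈ J, ∀ j ∈ J, i ≠ j → Disjoint (P i) (P j))
    (hF : ∀ j ∈ J, ∀ S ∈ F j, S ⊆ P j) (hc : ∀ j ∈ J, ∀ S ∈ F j, |c j S| ≤ 1)
    (Ω : Finset α) (B : α → Finset ι) (X : ℝ) (g ν : ι → ℝ)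
    (hν : ∀ j ∈ J, ∀ p ∈ P j, 0 ≤ ν p)
    (hcount : ∀ S : Finset ι, (∀ p ∈ S, ∃ j ∈ J, p ∈ P j) →
      |((Ω.filter fun m => S ⊆ B m).card : ℝ) - X * ∏ p ∈ S, g p| ≤ ∏ p ∈ S, ν p) :
    |∑ m ∈ Ω, ∏ j ∈ J, ev (F j) (c j) (ind (B m)) - X * ∏ j ∈ J, ev (F j) (c j) g| ≤
      ∏ j ∈ J, ∑ S ∈ F j, ∏ p ∈ S, ν p := by
  have e1 : ∑ m ∈ Ω, ∏ j ∈ J, ev (F j) (c j) (ind (B m)) = ∑ φ ∈ J.pi F,
      (∏ x ∈ J.attach, c x.1 (φ x.1 x.2)) *
        ((Ω.filter fun m => J.attach.biUnion (fun x => φ x.1 x.2) ⊆ B m).card : ℝ) := by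
    simp_rw [prod_ev J F c P hdisj hF]
    rw [Finset.sum_comm]
    apply Finset.sum_congr rfl
    intro φ _
    rw [← Finset.mul_sum]
    congr 1
    simp_rw [prod_ind]
    rw [Finset.sum_ite]
    simp
  rw [e1, prod_ev J F c P hdisj hF, Finset.mul_sum, ← Finset.sum_sub_distrib]
  have e2 : ∏ j ∈ J, ∑ S ∈ F j, ∏ p ∈ S, ν p = ∑ φ ∈ J.pi F,
      ∏ p ∈ J.attach.biUnion (fun x => φ x.1 x.2), ν p := by
    have := prod_ev J F (fun _ _ => 1) P hdisj hF ν
    simp only [ev, one_mul, Finset.prod_const_one] at this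
    exact this
  rw [e2]
  refine (Finset.abs_sum_le_sum_abs _ _).trans ?_
  apply Finset.sum_le_sum
  intro φ hφ
  have hmem := Finset.mem_pi.mp hφ
  set U := J.attach.biUnion (fun x => φ x.1 x.2) with hU
  have hUmem : ∀ p ∈ U, ∃ j ∈ J, p ∈ P j := by
    intro p hp
    rw [hU, Finset.mem_biUnion] at hp
    obtain ⟨x, _, hx⟩ := hp
    exact ⟨x.1, x.2, hF x.1 x.2 _ (hmem x.1 x.2) hx⟩
  have h1 := hcount U hUmem
  have h2 : |∏ x ∈ J.attach, c x.1 (φ x.1 x.2)| ≤ 1 := by
    rw [Finset.abs_prod]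
    apply Finset.prod_le_one
    · intro x _; exact abs_nonneg _
    · intro x _; exact hc x.1 x.2 _ (hmem x.1 x.2)
  have h3 : (∏ x ∈ J.attach, c x.1 (φ x.1 x.2)) * ((Ω.filter fun m => U ⊆ B m).card : ℝ) -
      X * ((∏ x ∈ J.attach, c x.1 (φ x.1 x.2)) * ∏ p ∈ U, g p) =
      (∏ x ∈ J.attach, c x.1 (φ x.1 x.2)) *
        (((Ω.filter fun m => U ⊆ B m).card : ℝ) - X * ∏ p ∈ U, g p) := by ring
  rw [h3, abs_mul]
  have h4 : 0 ≤ ∏ p ∈ U, ν p := Finset.prod_nonneg fun p hp => by
    obtain ⟨j, hj, hpj⟩ := hUmem p hp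
    exact hν j hj p hpj
  calc _ ≤ 1 * ∏ p ∈ U, ν p := mul_le_mul h2 h1 (abs_nonneg _) zero_le_one
    _ = _ := one_mul _

/-- The number of elements of `Ω` which are unsieved by all blocks. -/
def good (J : Finset κ) (P : κ → Finset ι) (Ω : Finset α) (B : α → Finset ι) : Finset α :=
  Ω.filter fun m => ∀ j ∈ J, ∀ p ∈ P j, p ∉ B m

lemma V_ind (P : Finset ι) (B : Finset ι) :
    V P (ind B) = if (∀ p ∈ P, p ∉ B) then 1 else 0 := by
  unfold V ind
  by_cases h : ∀ p ∈ P, p ∉ B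
  · rw [if_pos h]
    apply Finset.prod_eq_one
    intro p hp
    rw [if_neg (h p hp)]; ring
  · rw [if_neg h]
    push Not at h
    obtain ⟨p, hp, hpB⟩ := h
    exact Finset.prod_eq_zero hp (by rw [if_pos hpB]; ring)

lemma card_good (J : Finset κ) (P : κ → Finset ι) (Ω : Finset α) (B : α → Finset ι) :
    ((good J P Ω B).card : ℝ) = ∑ m ∈ Ω, ∏ j ∈ J, V (P j) (ind (B m)) := by
  unfold good
  rw [Finset.card_filter]
  push_cast
  apply Finset.sum_congr rfl
  intro m _
  simp_rw [V_ind]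
  by_cases h : ∀ j ∈ J, ∀ p ∈ P j, p ∉ B m
  · rw [if_pos h]
    symm
    apply Finset.prod_eq_one
    intro j hj
    rw [if_pos (h j hj)]
  · rw [if_neg h]
    symm
    push Not at h
    obtain ⟨j, hj, p, hp, hpB⟩ := h
    apply Finset.prod_eq_zero hj
    rw [if_neg]
    intro h'; exact h' p hp hpB

/-- Hypotheses of the abstract sieve, bundled. -/
structure SieveData (κ ι α : Type*) [DecidableEq κ] [DecidableEq ι] where
  /-- the index set of blocks -/
  J : Finset κ
  /-- the blocks -/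
  P : κ → Finset ι
  /-- truncation levels -/
  t : κ → ℕ
  /-- the set to be sieved -/
  Ω : Finset α
  /-- the bad primes of an element -/
  B : α → Finset ι
  /-- the main quantity -/
  X : ℝ
  /-- the density -/
  g : ι → ℝ
  /-- the error function -/
  ν : ι → ℝ
  X_nonneg : 0 ≤ X
  even : ∀ j ∈ J, Even (t j)
  disj : ∀ i ∈ J, ∀ j ∈ J, i ≠ j → Disjoint (P i) (P j)
  g_bd : ∀ j ∈ J, ∀ p ∈ P j, 0 ≤ g p ∧ g p ≤ 1
  ν_nonneg : ∀ j ∈ J, ∀ p ∈ P j, 0 ≤ ν p
  count : ∀ S : Finset ι, (∀ p ∈ S, ∃ j ∈ J, p ∈ P j) →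
      |((Ω.filter fun m => S ⊆ B m).card : ℝ) - X * ∏ p ∈ S, g p| ≤ ∏ p ∈ S, ν p

namespace SieveData

variable (D : SieveData κ ι α)

/-- the error term -/
def N : ℝ := ∏ j ∈ D.J, ∑ S ∈ small (D.P j) (D.t j), ∏ p ∈ S, D.ν p

lemma sgn_abs (S : Finset ι) : |sgn S| ≤ 1 := by
  unfold sgn; rw [abs_pow]; simp

lemma small_sub (P : Finset ι) (t : ℕ) : ∀ S ∈ small P t, S ⊆ P := by
  intro S hS
  unfold small at hS
  exact Finset.mem_powerset.mp (Finset.mem_filter.mp hS).1

/-- Upper bound. -/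
lemma upper : ((good D.J D.P D.Ω D.B).card : ℝ) ≤ D.X * ∏ j ∈ D.J, T (D.P j) (D.t j) D.g + D.N := by
  rw [card_good]
  have h1 : ∑ m ∈ D.Ω, ∏ j ∈ D.J, V (D.P j) (ind (D.B m)) ≤
      ∑ m ∈ D.Ω, ∏ j ∈ D.J, ev (small (D.P j) (D.t j)) sgn (ind (D.B m)) := by
    apply Finset.sum_le_sum
    intro m _
    apply Finset.prod_le_prod
    · intro j _
      exact V_nonneg fun p _ => ind_bounds _ p
    · intro j hj
      exact V_le_T (fun p _ => ind_bounds _ p) (D.even j hj)
  have h2 := transfer D.J (fun j => small (D.P j) (D.t j)) (fun _ => sgn) D.P D.disj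
    (fun j _ => small_sub _ _) (fun j _ S _ => sgn_abs S) D.Ω D.B D.X D.g D.ν D.ν_nonneg D.count
  have h3 := (abs_le.mp h2).2
  unfold T N
  linarith

/-- Lower bound. -/
lemma lower : D.X * (∏ j ∈ D.J, T (D.P j) (D.t j) D.g -
    ∑ j ∈ D.J, E (D.P j) (D.t j) D.g * ∏ i ∈ D.J.erase j, T (D.P i) (D.t i) D.g) -
    (D.J.card + 1) * D.N ≤ ((good D.J D.P D.Ω D.B).card : ℝ) := by
  rw [card_good]
  -- pointwise inequality
  have hpt : ∀ m ∈ D.Ω, ∏ j ∈ D.J, T (D.P j) (D.t j) (ind (D.B m)) -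
      ∑ j ∈ D.J, E (D.P j) (D.t j) (ind (D.B m)) *
        ∏ i ∈ D.J.erase j, T (D.P i) (D.t i) (ind (D.B m)) ≤
      ∏ j ∈ D.J, V (D.P j) (ind (D.B m)) := by
    intro m _
    have h1 := prod_sub_prod_le D.J (fun j => T (D.P j) (D.t j) (ind (D.B m)))
      (fun j => V (D.P j) (ind (D.B m))) (fun j hj =>
        ⟨V_nonneg fun p _ => ind_bounds _ p, V_le_T (fun p _ => ind_bounds _ p) (D.even j hj)⟩)
    have h2 : ∑ j ∈ D.J, (T (D.P j) (D.t j) (ind (D.B m)) - V (D.P j) (ind (D.B m))) *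
        ∏ i ∈ D.J.erase j, T (D.P i) (D.t i) (ind (D.B m)) ≤
        ∑ j ∈ D.J, E (D.P j) (D.t j) (ind (D.B m)) *
        ∏ i ∈ D.J.erase j, T (D.P i) (D.t i) (ind (D.B m)) := by
      apply Finset.sum_le_sum
      intro j hj
      apply mul_le_mul_of_nonneg_right
      · have := T_sub_E_le (P := D.P j) (f := ind (D.B m)) (fun p _ => ind_bounds _ p) (D.even j hj)
        linarith
      · apply Finset.prod_nonneg
        intro i hi
        exact (V_nonneg fun p _ => ind_bounds _ p).trans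
          (V_le_T (fun p _ => ind_bounds _ p) (D.even i (Finset.mem_of_mem_erase hi)))
    linarith
  -- transfer for the main term
  have hmain := transfer D.J (fun j => small (D.P j) (D.t j)) (fun _ => sgn) D.P D.disj
    (fun j _ => small_sub _ _) (fun j _ S _ => sgn_abs S) D.Ω D.B D.X D.g D.ν D.ν_nonneg D.count
  -- transfer for the error terms
  have herr : ∀ j ∈ D.J, ∑ m ∈ D.Ω, E (D.P j) (D.t j) (ind (D.B m)) *
        ∏ i ∈ D.J.erase j, T (D.P i) (D.t i) (ind (D.B m)) ≤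
      D.X * (E (D.P j) (D.t j) D.g * ∏ i ∈ D.J.erase j, T (D.P i) (D.t i) D.g) + D.N := by
    intro j hj
    -- families
    set F : κ → Finset (Finset ι) := fun i =>
      if i = j then (D.P i).powersetCard (D.t i) else small (D.P i) (D.t i) with hF
    set c : κ → Finset ι → ℝ := fun i => if i = j then fun _ => 1 else sgn with hc
    have hprod : ∀ f : ι → ℝ, ∏ i ∈ D.J, ev (F i) (c i) f =
        E (D.P j) (D.t j) f * ∏ i ∈ D.J.erase j, T (D.P i) (D.t i) f := by
      intro f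
      rw [← Finset.mul_prod_erase _ _ hj]
      congr 1
      · simp [hF, hc, E]
      · apply Finset.prod_congr rfl
        intro i hi
        have hne : i ≠ j := Finset.ne_of_mem_erase hi
        simp [hF, hc, hne, T]
    have hsub : ∀ i, F i ⊆ small (D.P i) (D.t i) := by
      intro i S hS
      simp only [hF] at hS
      split_ifs at hS with h
      · unfold small
        rw [Finset.mem_filter, Finset.mem_powerset]
        rw [Finset.mem_powersetCard] at hS
        exact ⟨hS.1, hS.2.le⟩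
      · exact hS
    have h := transfer D.J F c D.P D.disj (fun i _ S hS => small_sub _ _ S (hsub i hS))
      (fun i _ S _ => by
        simp only [hc]
        split_ifs
        · simp
        · exact sgn_abs S) D.Ω D.B D.X D.g D.ν D.ν_nonneg D.count
    have h3 := (abs_le.mp h).2
    simp_rw [hprod] at h3
    have h4 : ∏ i ∈ D.J, ∑ S ∈ F i, ∏ p ∈ S, D.ν p ≤ D.N := by
      unfold N
      apply Finset.prod_le_prod
      · intro i hi
        apply Finset.sum_nonneg
        intro S hS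
        apply Finset.prod_nonneg
        intro p hp
        exact D.ν_nonneg i hi p (small_sub _ _ S (hsub i hS) hp)
      · intro i hi
        apply Finset.sum_le_sum_of_subset_of_nonneg (hsub i)
        intro S hS _
        apply Finset.prod_nonneg
        intro p hp
        exact D.ν_nonneg i hi p (small_sub _ _ S hS hp)
    linarith
  have h5 : ∑ m ∈ D.Ω, (∏ j ∈ D.J, T (D.P j) (D.t j) (ind (D.B m)) -
      ∑ j ∈ D.J, E (D.P j) (D.t j) (ind (D.B m)) *
        ∏ i ∈ D.J.erase j, T (D.P i) (D.t i) (ind (D.B m))) ≤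
      ∑ m ∈ D.Ω, ∏ j ∈ D.J, V (D.P j) (ind (D.B m)) := Finset.sum_le_sum hpt
  rw [Finset.sum_sub_distrib, Finset.sum_comm] at h5
  have h6 := Finset.sum_le_sum herr
  rw [Finset.sum_add_distrib, Finset.sum_const, nsmul_eq_mul, ← Finset.mul_sum] at h6
  have h7 := (abs_le.mp hmain).1
  have h8 : ∏ j ∈ D.J, ∑ S ∈ small (D.P j) (D.t j), ∏ p ∈ S, D.ν p = D.N := rfl
  rw [h8] at h7
  have h9 : ∀ m, ∏ j ∈ D.J, ev (small (D.P j) (D.t j)) sgn (ind (D.B m)) =
    ∏ j ∈ D.J, T (D.P j) (D.t j) (ind (D.B m)) := fun m => rfl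
  simp_rw [h9] at h7
  have h10 : ∏ j ∈ D.J, ev (small (D.P j) (D.t j)) sgn D.g =
    ∏ j ∈ D.J, T (D.P j) (D.t j) D.g := rfl
  rw [h10] at h7
  rw [mul_sub]
  linarith

/-- The full density. -/
def W : ℝ := ∏ j ∈ D.J, V (D.P j) D.g

variable {D} in
/-- Final form of the abstract sieve, when the truncation errors are small. -/
lemma main {ε : κ → ℝ} {η : ℝ} (hε0 : ∀ j ∈ D.J, 0 ≤ ε j)
    (hε : ∀ j ∈ D.J, E (D.P j) (D.t j) D.g ≤ ε j * V (D.P j) D.g)
    (hη : ∑ j ∈ D.J, ε j ≤ η) :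
    D.X * D.W * (1 - η * Real.exp η) - (D.J.card + 1) * D.N ≤
      ((good D.J D.P D.Ω D.B).card : ℝ) ∧
    ((good D.J D.P D.Ω D.B).card : ℝ) ≤ D.X * D.W * Real.exp η + D.N := by
  have hV0 : ∀ j ∈ D.J, 0 ≤ V (D.P j) D.g := fun j hj => V_nonneg (D.g_bd j hj)
  have hVT : ∀ j ∈ D.J, V (D.P j) D.g ≤ T (D.P j) (D.t j) D.g := fun j hj =>
    V_le_T (D.g_bd j hj) (D.even j hj)
  have hTV : ∀ j ∈ D.J, T (D.P j) (D.t j) D.g ≤ V (D.P j) D.g * Real.exp (ε j) := by
    intro j hj
    have h1 := T_sub_E_le (D.g_bd j hj) (D.even j hj)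
    have h2 := hε j hj
    have h3 := Real.add_one_le_exp (ε j)
    nlinarith [hV0 j hj]
  have hη0 : 0 ≤ η := (Finset.sum_nonneg hε0).trans hη
  have hW0 : 0 ≤ D.W := Finset.prod_nonneg hV0
  have hprodT : ∏ j ∈ D.J, T (D.P j) (D.t j) D.g ≤ D.W * Real.exp η := by
    calc ∏ j ∈ D.J, T (D.P j) (D.t j) D.g ≤ ∏ j ∈ D.J, (V (D.P j) D.g * Real.exp (ε j)) :=
          Finset.prod_le_prod (fun j hj => (hV0 j hj).trans (hVT j hj)) hTV
      _ = D.W * Real.exp (∑ j ∈ D.J, ε j) := by
          rw [Finset.prod_mul_distrib, Real.exp_sum]; rfl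
      _ ≤ D.W * Real.exp η := mul_le_mul_of_nonneg_left (Real.exp_le_exp.mpr hη) hW0
  have hWT : D.W ≤ ∏ j ∈ D.J, T (D.P j) (D.t j) D.g := Finset.prod_le_prod hV0 hVT
  have hsum : ∑ j ∈ D.J, E (D.P j) (D.t j) D.g * ∏ i ∈ D.J.erase j, T (D.P i) (D.t i) D.g ≤
      η * (D.W * Real.exp η) := by
    calc _ ≤ ∑ j ∈ D.J, ε j * (D.W * Real.exp η) := by
          apply Finset.sum_le_sum
          intro j hj
          have h1 : ∏ i ∈ D.J.erase j, T (D.P i) (D.t i) D.g ≤
              ∏ i ∈ D.J.erase j, (V (D.P i) D.g * Real.exp (ε i)) :=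
            Finset.prod_le_prod (fun i hi => (hV0 i (Finset.mem_of_mem_erase hi)).trans
              (hVT i (Finset.mem_of_mem_erase hi))) fun i hi => hTV i (Finset.mem_of_mem_erase hi)
          have h0 : 0 ≤ ∏ i ∈ D.J.erase j, T (D.P i) (D.t i) D.g :=
            Finset.prod_nonneg fun i hi => (hV0 i (Finset.mem_of_mem_erase hi)).trans
              (hVT i (Finset.mem_of_mem_erase hi))
          have h0' : 0 ≤ ∏ i ∈ D.J.erase j, V (D.P i) D.g :=
            Finset.prod_nonneg fun i hi => (hV0 i (Finset.mem_of_mem_erase hi))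
          rw [Finset.prod_mul_distrib, ← Real.exp_sum] at h1
          have h2 : Real.exp (∑ i ∈ D.J.erase j, ε i) ≤ Real.exp η := by
            apply Real.exp_le_exp.mpr
            refine le_trans ?_ hη
            exact Finset.sum_le_sum_of_subset_of_nonneg (Finset.erase_subset _ _)
              fun i hi _ => hε0 i hi
          calc E (D.P j) (D.t j) D.g * ∏ i ∈ D.J.erase j, T (D.P i) (D.t i) D.g
              ≤ (ε j * V (D.P j) D.g) * ((∏ i ∈ D.J.erase j, V (D.P i) D.g) *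
                Real.exp (∑ i ∈ D.J.erase j, ε i)) :=
                mul_le_mul (hε j hj) h1 h0 (mul_nonneg (hε0 j hj) (hV0 j hj))
            _ ≤ (ε j * V (D.P j) D.g) * ((∏ i ∈ D.J.erase j, V (D.P i) D.g) * Real.exp η) := by
                apply mul_le_mul_of_nonneg_left _ (mul_nonneg (hε0 j hj) (hV0 j hj))
                exact mul_le_mul_of_nonneg_left h2 h0'
            _ = ε j * ((V (D.P j) D.g * ∏ i ∈ D.J.erase j, V (D.P i) D.g) * Real.exp η) := by ring
            _ = ε j * (D.W * Real.exp η) := by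
                rw [Finset.mul_prod_erase D.J (fun j => V (D.P j) D.g) hj]; rfl
      _ = (∑ j ∈ D.J, ε j) * (D.W * Real.exp η) := by rw [Finset.sum_mul]
      _ ≤ η * (D.W * Real.exp η) := mul_le_mul_of_nonneg_right hη (by positivity)
  constructor
  · refine le_trans ?_ D.lower
    have : D.X * D.W * (1 - η * Real.exp η) ≤ D.X * (∏ j ∈ D.J, T (D.P j) (D.t j) D.g -
        ∑ j ∈ D.J, E (D.P j) (D.t j) D.g * ∏ i ∈ D.J.erase j, T (D.P i) (D.t i) D.g) := by
      rw [mul_assoc]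
      apply mul_le_mul_of_nonneg_left _ D.X_nonneg
      nlinarith
    linarith
  · refine D.upper.trans ?_
    have := mul_le_mul_of_nonneg_left hprodT D.X_nonneg
    nlinarith

end SieveData

end Pool.Agent.Lib.Helper57
end

-- from Lib.Helper57.Sieve
section

/-!
A fundamental lemma for the sieve of dimension `k`, uniform in `k`.
-/

open Finset

namespace Pool.Agent.Lib.Helper57

/-- The sieve density. -/
noncomputable def dens (A : Finset ℕ) (K z : ℕ) : ℝ := ∏ p ∈ pr K z, (1 - (nu A p : ℝ) / p)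








/-- Truncation levels. -/
def lev (k j : ℕ) : ℕ := 2 * (100 * k + j)








end Pool.Agent.Lib.Helper57
end

-- from Lib.H59.MertensLower
section

/-!
# Lower bound in Mertens' product theorem

-/

open Finset

noncomputable section

namespace Pool.Agent.Lib.H59

theorem log_le_prod_inv {z : ℕ} (hz : 1 ≤ z) :
    Real.log z ≤ ∏ p ∈ Nat.primesBelow z, (1 - (p : ℝ)⁻¹)⁻¹ := by
  classical
  set f : ℕ →* ℝ :=
    { toFun := fun n => (n : ℝ)⁻¹
      map_one' := by simp
      map_mul' := fun a b => by push_cast; rw [mul_inv] } with hf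
  have hfa : ∀ n : ℕ, f n = (n : ℝ)⁻¹ := fun n => rfl
  have hlt : ∀ {p : ℕ}, p.Prime → ‖f p‖ < 1 := by
    intro p hp
    rw [hfa, norm_inv, Real.norm_natCast]
    have : (1 : ℝ) < p := by exact_mod_cast hp.one_lt
    exact inv_lt_one_of_one_lt₀ this
  obtain ⟨hsum, hhas⟩ :=
    EulerProduct.summable_and_hasSum_smoothNumbers_prod_primesBelow_geometric (f := f) hlt z
  have hprod : ∏ p ∈ Nat.primesBelow z, (1 - f p)⁻¹ =
      ∏ p ∈ Nat.primesBelow z, (1 - (p : ℝ)⁻¹)⁻¹ := rfl
  rw [← hprod]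
  -- lower bound by the harmonic sum
  have hmem : ∀ i ∈ range (z - 1), i + 1 ∈ Nat.smoothNumbers z := by
    intro i hi
    rw [mem_range] at hi
    rw [Nat.mem_smoothNumbers]
    refine ⟨by omega, fun p hp => ?_⟩
    have := Nat.le_of_mem_primeFactorsList hp
    omega
  let e : (range (z - 1)) ↪ Nat.smoothNumbers z :=
    ⟨fun i => ⟨i.1 + 1, hmem i.1 i.2⟩, fun a b hab => by
      have := congrArg Subtype.val hab
      exact Subtype.ext (by simpa using this)⟩
  have h1 : ∑ m ∈ (range (z - 1)).attach.map e, f m ≤ ∏ p ∈ Nat.primesBelow z, (1 - f p)⁻¹ :=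
    sum_le_hasSum _ (fun m _ => by rw [hfa]; positivity) hhas
  rw [sum_map] at h1
  have h2 : ∑ x ∈ (range (z - 1)).attach, f (e x) = ∑ i ∈ range (z - 1), ((i : ℝ) + 1)⁻¹ := by
    rw [← sum_attach (range (z - 1)) (fun i => ((i : ℝ) + 1)⁻¹)]
    refine sum_congr rfl fun x _ => ?_
    change (((x : ℕ) + 1 : ℕ) : ℝ)⁻¹ = _
    push_cast
    rfl
  rw [h2] at h1
  refine le_trans ?_ h1
  have h3 := log_add_one_le_harmonic (z - 1)
  have h4 : ((harmonic (z - 1) : ℚ) : ℝ) = ∑ i ∈ range (z - 1), ((i : ℝ) + 1)⁻¹ := by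
    unfold harmonic
    push_cast
    rfl
  rw [h4] at h3
  have h5 : z - 1 + 1 = z := by omega
  rw [h5] at h3
  exact h3

theorem prod_one_sub_inv_le {z : ℕ} (hz : 2 ≤ z) :
    ∏ p ∈ Nat.primesBelow z, (1 - (p : ℝ)⁻¹) ≤ 1 / Real.log z := by
  have h := log_le_prod_inv (z := z) (by omega)
  have hlog : 0 < Real.log z := Real.log_pos (by exact_mod_cast (by omega : 1 < z))
  rw [prod_inv_distrib] at h
  have hpos : 0 < ∏ p ∈ Nat.primesBelow z, (1 - (p : ℝ)⁻¹) := by
    refine prod_pos fun p hp => ?_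
    have hp' := Nat.prime_of_mem_primesBelow hp
    have : (1 : ℝ) < p := by exact_mod_cast hp'.one_lt
    have := inv_lt_one_of_one_lt₀ this
    linarith
  rw [le_div_iff₀ hlog]
  calc (∏ p ∈ Nat.primesBelow z, (1 - (p : ℝ)⁻¹)) * Real.log z
      ≤ (∏ p ∈ Nat.primesBelow z, (1 - (p : ℝ)⁻¹)) *
        (∏ p ∈ Nat.primesBelow z, (1 - (p : ℝ)⁻¹))⁻¹ := by gcongr
    _ = 1 := mul_inv_cancel₀ hpos.ne'

end Pool.Agent.Lib.H59
end
end

-- from Lib.H59.SchinzelCount
section

/-!
# Counting the arguments in the quantitative Goldbach-type hypothesis of Schinzel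

-/

open Finset Polynomial Filter Topology

noncomputable section

namespace Pool.Agent.Lib.H59

theorem eval_map_real (G : ℤ[X]) (n : ℕ) :
    (G.map (Int.castRingHom ℝ)).eval (n : ℝ) = ((G.eval (n : ℤ) : ℤ) : ℝ) := by
  simp

theorem exists_strictMono {G : ℤ[X]} (hn : 1 ≤ G.natDegree) (hl : 0 < G.leadingCoeff) :
    ∃ n₁ : ℕ, ∀ a b : ℕ, n₁ ≤ a → a < b → G.eval (a : ℤ) < G.eval (b : ℤ) := by
  set P : ℝ[X] := G.map (Int.castRingHom ℝ) with hP
  have hinj : Function.Injective (Int.castRingHom ℝ) := RingHom.injective_int _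
  have hdeg : P.natDegree = G.natDegree := natDegree_map_eq_of_injective hinj _
  have hlc : P.leadingCoeff = (G.leadingCoeff : ℝ) := by
    rw [hP, leadingCoeff_map_of_injective hinj]
    simp
  have hlc0 : 0 < P.leadingCoeff := by rw [hlc]; exact_mod_cast hl
  -- the derivative is eventually positive
  have hder : ∀ᶠ x in atTop, 0 < P.derivative.eval x := by
    have hdd : P.derivative.natDegree = P.natDegree - 1 := natDegree_derivative P
    have hdl : P.derivative.leadingCoeff = P.leadingCoeff * P.natDegree := by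
      rw [leadingCoeff, hdd, coeff_derivative]
      have : P.natDegree - 1 + 1 = P.natDegree := by omega
      rw [this]
      have h2 : ((P.natDegree - 1 : ℕ) : ℝ) + 1 = P.natDegree := by
        exact_mod_cast congrArg (fun k : ℕ => (k : ℝ)) this
      rw [h2]
      rfl
    have hdl0 : 0 < P.derivative.leadingCoeff := by
      rw [hdl]
      have : (0 : ℝ) < P.natDegree := by exact_mod_cast (by omega : 0 < P.natDegree)
      positivity
    rcases Nat.eq_zero_or_pos P.derivative.natDegree with h0 | h0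
    · have h1 : P.derivative = C (P.derivative.coeff 0) := eq_C_of_natDegree_eq_zero h0
      have h2 : P.derivative.leadingCoeff = P.derivative.coeff 0 := by rw [leadingCoeff, h0]
      refine Eventually.of_forall fun x => ?_
      rw [h1, eval_C, ← h2]
      exact hdl0
    · have h1 : Tendsto (fun x => P.derivative.eval x) atTop atTop :=
        tendsto_atTop_of_leadingCoeff_nonneg _ (natDegree_pos_iff_degree_pos.mp h0) hdl0.le
      exact h1.eventually_gt_atTop 0
  obtain ⟨x₁, hx₁⟩ := eventually_atTop.mp hder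
  have hmono : StrictMonoOn (fun x => P.eval x) (Set.Ici x₁) := by
    refine strictMonoOn_of_deriv_pos (convex_Ici x₁) P.continuous.continuousOn fun x hx => ?_
    rw [interior_Ici] at hx
    rw [Polynomial.deriv]
    exact hx₁ x (le_of_lt hx)
  refine ⟨⌈x₁⌉₊, fun a b ha hab => ?_⟩
  have ha' : x₁ ≤ a := (Nat.le_ceil x₁).trans (by exact_mod_cast ha)
  have hab' : (a : ℝ) < b := by exact_mod_cast hab
  have h := hmono (Set.mem_Ici.mpr ha') (Set.mem_Ici.mpr (ha'.trans hab'.le)) hab'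
  simp only [hP, eval_map_real] at h
  exact_mod_cast h

/-- For large `N` the arguments form an initial segment. -/
theorem argSet_eq {G : ℤ[X]} (hn : 1 ≤ G.natDegree) (hl : 0 < G.leadingCoeff) :
    ∀ᶠ N : ℕ in atTop, argSet G N = ↑(Finset.Icc 1 (argCount G N)) := by
  classical
  obtain ⟨n₁, hn₁⟩ := exists_strictMono hn hl
  -- a bound for the initial values
  set M : ℕ := (Finset.range (n₁ + 1)).sup (fun a => (G.eval (a : ℤ)).natAbs) with hM
  have hMb : ∀ a ≤ n₁, G.eval (a : ℤ) ≤ M := by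
    intro a ha
    have h1 : (G.eval (a : ℤ)).natAbs ≤ M :=
      Finset.le_sup (f := fun a : ℕ => (G.eval (a : ℤ)).natAbs) (Finset.mem_range.mpr (by omega))
    omega
  filter_upwards [eventually_gt_atTop M] with N hN
  -- growth
  have hgrow : ∀ k : ℕ, G.eval (n₁ : ℤ) + k ≤ G.eval ((n₁ + k : ℕ) : ℤ) := by
    intro k
    induction k with
    | zero => simp
    | succ k ih =>
      have := hn₁ (n₁ + k) (n₁ + (k + 1)) (by omega) (by omega)
      push_cast at *
      omega
  -- finiteness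
  have hfin : (argSet G N).Finite := by
    refine (Set.finite_Iic (n₁ + (N + M))).subset fun n hn' => ?_
    obtain ⟨_, h2⟩ := hn'
    rw [Set.mem_Iic]
    by_contra hcon
    push Not at hcon
    obtain ⟨k, hk⟩ : ∃ k, n = n₁ + k := ⟨n - n₁, by omega⟩
    have h3 := hgrow k
    rw [← hk] at h3
    have h4 : -(M : ℤ) ≤ G.eval (n₁ : ℤ) := by
      have h1 : (G.eval (n₁ : ℤ)).natAbs ≤ M :=
        Finset.le_sup (f := fun a : ℕ => (G.eval (a : ℤ)).natAbs) (Finset.mem_range.mpr (by omega))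
      omega
    omega
  -- downward closed
  have hdown : ∀ a b : ℕ, 0 < a → a < b → b ∈ argSet G N → a ∈ argSet G N := by
    intro a b ha hab hb
    refine ⟨ha, ?_⟩
    rcases le_or_gt a n₁ with h | h
    · have := hMb a h
      omega
    · have := hn₁ a b h.le hab
      have := hb.2
      omega
  -- conclusion
  set T := hfin.toFinset with hT
  have hTmem : ∀ n, n ∈ T ↔ n ∈ argSet G N := fun n => by simp [hT]
  have hcard : argCount G N = T.card := Set.ncard_eq_toFinset_card _ hfin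
  have hTeq : T = Finset.Icc 1 T.card := by
    by_cases hemp : T = ∅
    · rw [hemp]; simp
    · have hne : T.Nonempty := Finset.nonempty_iff_ne_empty.mpr hemp
      set m := T.max' hne with hm
      have hmT : m ∈ T := T.max'_mem hne
      have h1 : T = Finset.Icc 1 m := by
        ext a
        rw [Finset.mem_Icc]
        constructor
        · intro ha
          exact ⟨((hTmem a).mp ha).1, T.le_max' a ha⟩
        · rintro ⟨ha1, ha2⟩
          rcases ha2.lt_or_eq with h | h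
          · exact (hTmem a).mpr (hdown a m ha1 h ((hTmem m).mp hmT))
          · rw [h]; exact hmT
      have h2 : T.card = m := by rw [h1, Nat.card_Icc]; omega
      rw [h2]
      exact h1
  rw [hcard, ← hTeq]
  ext n
  rw [Finset.mem_coe, hTmem]

theorem argCount_tendsto {G : ℤ[X]} (hn : 1 ≤ G.natDegree) (hl : 0 < G.leadingCoeff) :
    Tendsto (argCount G) atTop atTop := by
  rw [tendsto_atTop]
  intro m
  have h1 := argSet_eq hn hl
  filter_upwards [h1, eventually_gt_atTop ((G.eval (m : ℤ)).natAbs)] with N hN hNm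
  rcases Nat.eq_zero_or_pos m with rfl | hm
  · exact Nat.zero_le _
  have : m ∈ argSet G N := ⟨hm, by omega⟩
  rw [hN, Finset.mem_coe, Finset.mem_Icc] at this
  exact this.2

theorem eval_le_coeffSum (G : ℤ[X]) {n : ℕ} (hn : 1 ≤ n) :
    ((G.eval (n : ℤ) : ℤ) : ℝ) ≤ coeffSum G * (n : ℝ) ^ G.natDegree := by
  rw [eval_eq_sum_range]
  push_cast
  unfold coeffSum
  rw [Finset.sum_mul]
  refine Finset.sum_le_sum fun i hi => ?_
  rw [Finset.mem_range] at hi
  have hn' : (1 : ℝ) ≤ n := by exact_mod_cast hn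
  calc (G.coeff i : ℝ) * (n : ℝ) ^ i ≤ |(G.coeff i : ℝ)| * (n : ℝ) ^ i := by
        gcongr
        exact le_abs_self _
    _ ≤ |(G.coeff i : ℝ)| * (n : ℝ) ^ G.natDegree := by
        gcongr
        omega

theorem natDegree_C_sub' (G : ℤ[X]) (N : ℕ) : (C (N : ℤ) - G).natDegree = G.natDegree := by
  rw [← natDegree_neg, neg_sub, natDegree_sub_C]



end Pool.Agent.Lib.H59
end
end

-- from Lib.H33B.AC
section

/-!
# Chunk AC: the size of `argCount`
-/

open Finset Polynomial Filter Topology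

namespace Pool.Agent.Lib.H33B

open Pool.Agent.Lib.H59 (argSet argCount argSet_eq argCount_tendsto eval_map_real)

theorem AC_ratio (G : ℤ[X]) :
    Tendsto (fun n : ℕ => ((G.eval (n : ℤ) : ℤ) : ℝ) / (n : ℝ) ^ G.natDegree) atTop
      (𝓝 (G.leadingCoeff : ℝ)) := by
  set P : ℝ[X] := G.map (Int.castRingHom ℝ) with hP
  have hinj : Function.Injective (Int.castRingHom ℝ) := RingHom.injective_int _
  have hdeg : P.natDegree = G.natDegree := natDegree_map_eq_of_injective hinj _
  have hlc : P.leadingCoeff = (G.leadingCoeff : ℝ) := by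
    rw [hP, leadingCoeff_map_of_injective hinj]
    simp
  have h1 : Tendsto (fun x : ℝ => P.eval x / x ^ P.natDegree) atTop (𝓝 P.leadingCoeff) := by
    have h2 := P.div_tendsto_atTop_leadingCoeff_div_of_degree_eq (X ^ P.natDegree : ℝ[X])
    by_cases hP0 : P = 0
    · rw [hP0]
      simp
    · have h3 : P.degree = (X ^ P.natDegree : ℝ[X]).degree := by
        rw [degree_X_pow, degree_eq_natDegree hP0]
      have h4 := h2 h3
      simpa using h4
  have h5 := h1.comp (tendsto_natCast_atTop_atTop (R := ℝ))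
  rw [hlc] at h5
  refine h5.congr fun n => ?_
  simp only [Function.comp_apply]
  rw [hdeg, hP, eval_map_real]

/-- `X(Y)^k / Y → 1/a` for `k = deg G`, `a = lc G`: for large `Y` the set `argSet G Y` is `[1, X]`
(`H59.argSet_eq`), so `G(X) < Y ≤ G(X+1)`, and `G(n)/n^k → a`, `X(Y) → ∞` (`H59.argCount_tendsto`). -/
theorem argCount_pow (G : ℤ[X]) (hk : 1 ≤ G.natDegree) (hl : 0 < G.leadingCoeff) :
    Tendsto (fun Y : ℕ => (argCount G Y : ℝ) ^ G.natDegree / Y) atTop
      (𝓝 ((G.leadingCoeff : ℝ)⁻¹)) := by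
  have hl' : (0 : ℝ) < G.leadingCoeff := by exact_mod_cast hl
  have hX := argCount_tendsto hk hl
  have hr := AC_ratio G
  have h1 : Tendsto (fun Y : ℕ => (Y : ℝ) / (argCount G Y : ℝ) ^ G.natDegree) atTop
      (𝓝 (G.leadingCoeff : ℝ)) := by
    have hlow : Tendsto (fun Y : ℕ => ((G.eval (argCount G Y : ℤ) : ℤ) : ℝ) /
        (argCount G Y : ℝ) ^ G.natDegree) atTop (𝓝 (G.leadingCoeff : ℝ)) := hr.comp hX
    have hup : Tendsto (fun Y : ℕ => ((G.eval ((argCount G Y + 1 : ℕ) : ℤ) : ℤ) : ℝ) /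
        ((argCount G Y + 1 : ℕ) : ℝ) ^ G.natDegree *
          (1 + 1 / (argCount G Y : ℝ)) ^ G.natDegree) atTop (𝓝 (G.leadingCoeff : ℝ)) := by
      have h2 : Tendsto (fun Y : ℕ => argCount G Y + 1) atTop atTop :=
        (tendsto_add_atTop_nat 1).comp hX
      have h3 := hr.comp h2
      have h4 : Tendsto (fun Y : ℕ => (1 + 1 / (argCount G Y : ℝ)) ^ G.natDegree) atTop (𝓝 1) := by
        have h5 : Tendsto (fun Y : ℕ => 1 / (argCount G Y : ℝ)) atTop (𝓝 0) :=
          (tendsto_one_div_atTop_nhds_zero_nat (𝕜 := ℝ)).comp hX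
        have h6 := (h5.const_add 1).pow G.natDegree
        simpa using h6
      have h7 := h3.mul h4
      rw [mul_one] at h7
      exact h7
    refine tendsto_of_tendsto_of_tendsto_of_le_of_le' hlow hup ?_ ?_
    · filter_upwards [argSet_eq hk hl, hX.eventually_ge_atTop 1] with Y hY h1
      have h2 : argCount G Y ∈ argSet G Y := by
        rw [hY]
        simp [h1]
      have h3 : G.eval (argCount G Y : ℤ) < Y := by
        have := h2.2
        omega
      have h4 : ((G.eval (argCount G Y : ℤ) : ℤ) : ℝ) ≤ Y := by exact_mod_cast h3.le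
      exact div_le_div_of_nonneg_right h4 (by positivity)
    · filter_upwards [argSet_eq hk hl, hX.eventually_ge_atTop 1] with Y hY h1
      have h1' : (0 : ℝ) < argCount G Y := by exact_mod_cast h1
      have h2 : argCount G Y + 1 ∉ argSet G Y := by
        rw [hY]
        simp
      have h3 : (Y : ℤ) ≤ G.eval ((argCount G Y + 1 : ℕ) : ℤ) := by
        by_contra h
        exact h2 ⟨by omega, by omega⟩
      have h4 : (Y : ℝ) ≤ ((G.eval ((argCount G Y + 1 : ℕ) : ℤ) : ℤ) : ℝ) := by exact_mod_cast h3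
      have h5 : (1 + 1 / (argCount G Y : ℝ)) ^ G.natDegree =
          ((argCount G Y + 1 : ℕ) : ℝ) ^ G.natDegree / (argCount G Y : ℝ) ^ G.natDegree := by
        rw [← div_pow]
        congr 1
        push_cast
        field_simp
      rw [h5]
      have h6 : (0 : ℝ) < ((argCount G Y + 1 : ℕ) : ℝ) ^ G.natDegree := by positivity
      calc (Y : ℝ) / (argCount G Y : ℝ) ^ G.natDegree ≤
            ((G.eval ((argCount G Y + 1 : ℕ) : ℤ) : ℤ) : ℝ) / (argCount G Y : ℝ) ^ G.natDegree :=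
            div_le_div_of_nonneg_right h4 (by positivity)
        _ = _ := by
            rw [div_mul_div_comm, mul_comm (((argCount G Y + 1 : ℕ) : ℝ) ^ G.natDegree),
              mul_div_mul_right _ _ h6.ne']
  have h2 := h1.inv₀ hl'.ne'
  refine h2.congr fun Y => ?_
  rw [inv_div]

/-- `log Y / log X(Y) → k`. -/
theorem argCount_log (G : ℤ[X]) (hk : 1 ≤ G.natDegree) (hl : 0 < G.leadingCoeff) :
    Tendsto (fun Y : ℕ => Real.log Y / Real.log (argCount G Y)) atTop (𝓝 (G.natDegree : ℝ)) := by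
  have hl' : (0 : ℝ) < G.leadingCoeff := by exact_mod_cast hl
  have hX := argCount_tendsto hk hl
  have hXr : Tendsto (fun Y : ℕ => (argCount G Y : ℝ)) atTop atTop :=
    (tendsto_natCast_atTop_atTop (R := ℝ)).comp hX
  have hL : Tendsto (fun Y : ℕ => Real.log (argCount G Y)) atTop atTop :=
    Real.tendsto_log_atTop.comp hXr
  have h1 := argCount_pow G hk hl
  have h2 : Tendsto (fun Y : ℕ => Real.log ((argCount G Y : ℝ) ^ G.natDegree / Y)) atTop
      (𝓝 (Real.log ((G.leadingCoeff : ℝ)⁻¹))) :=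
    (Real.continuousAt_log (inv_ne_zero hl'.ne')).tendsto.comp h1
  have h3 := h2.div_atTop hL
  have h4 : Tendsto (fun Y : ℕ => (G.natDegree : ℝ) -
      Real.log ((argCount G Y : ℝ) ^ G.natDegree / Y) / Real.log (argCount G Y)) atTop
      (𝓝 (G.natDegree : ℝ)) := by
    have := h3.const_sub (G.natDegree : ℝ)
    simpa using this
  refine h4.congr' ?_
  filter_upwards [eventually_ge_atTop 1, hX.eventually_ge_atTop 2] with Y hY hX2
  have hY' : (Y : ℝ) ≠ 0 := by
    have : (0 : ℝ) < Y := by exact_mod_cast hY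
    exact this.ne'
  have hX2' : (2 : ℝ) ≤ argCount G Y := by exact_mod_cast hX2
  have hlog : 0 < Real.log (argCount G Y) := Real.log_pos (by linarith)
  rw [Real.log_div (by positivity) hY', Real.log_pow]
  field_simp
  ring

theorem AC_mono (G : ℤ[X]) (hk : 1 ≤ G.natDegree) (hl : 0 < G.leadingCoeff) : ∃ Y₀ : ℕ,
    ∀ N Y : ℕ, Y₀ ≤ Y → N ≤ Y → argCount G N ≤ argCount G Y := by
  obtain ⟨Y₀, hY₀⟩ := eventually_atTop.1 (argSet_eq hk hl)
  refine ⟨Y₀, fun N Y hY hNY => ?_⟩
  unfold argCount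
  refine Set.ncard_le_ncard ?_ ?_
  · intro n hn
    have h1 : 0 < n ∧ 0 < (N : ℤ) - G.eval (n : ℤ) := hn
    exact ⟨h1.1, by omega⟩
  · rw [hY₀ Y hY]
    exact Finset.finite_toSet _



end Pool.Agent.Lib.H33B
end

-- from Lib.H33B.LS1
section

/-!
# Chunk LS1: the Ramanujan expansion of the periodic model
-/

open Finset

namespace Pool.Agent.Lib.H33B

open Pool.Agent.Lib.H68T (cq)

theorem PW_squarefree (w : ℕ) : Squarefree (PW w) := by
  unfold PW
  refine Finset.squarefree_prod_of_pairwise_isCoprime (fun p hp q hq hpq => ?_)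
    (fun p hp => (Nat.prime_of_mem_primesBelow hp).prime.squarefree)
  simp only [Function.onFun, ← Nat.coprime_iff_isRelPrime]
  exact (Nat.coprime_primes (Nat.prime_of_mem_primesBelow hp)
    (Nat.prime_of_mem_primesBelow hq)).mpr hpq

theorem PW_pos (w : ℕ) : 0 < PW w := Nat.pos_of_ne_zero (PW_squarefree w).ne_zero


/-- the local factor -/
noncomputable def LS1_h (m : ℤ) (p : ℕ) : ℝ := if (p : ℤ) ∣ m then -1 else 1 / ((p : ℝ) - 1)

theorem LS1_term (q : ℕ) (hq : Squarefree q) (m : ℤ) :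
    (ArithmeticFunction.moebius q : ℝ) / (Nat.totient q : ℝ) * cq q m =
      ∏ p ∈ q.primeFactors, LS1_h m p := by
  rw [Pool.Agent.Lib.H68T.cq_squarefree q hq m]
  set g := Nat.gcd q m.natAbs with hg
  have hq0 : q ≠ 0 := hq.ne_zero
  have hgq : g ∣ q := Nat.gcd_dvd_left _ _
  have hg0 : 0 < g := Nat.pos_of_dvd_of_pos hgq (Nat.pos_of_ne_zero hq0)
  obtain ⟨h, hh⟩ := hgq
  have hcop : Nat.Coprime g h := by
    rw [hh] at hq
    exact Nat.coprime_of_squarefree_mul hq
  have hqg : q / g = h := by rw [hh]; exact Nat.mul_div_cancel_left _ hg0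
  have hgs : Squarefree g := hq.squarefree_of_dvd ⟨h, hh⟩
  have hhs : Squarefree h := hq.squarefree_of_dvd ⟨g, by rw [hh]; ring⟩
  have hh0 : 0 < h := Nat.pos_of_ne_zero hhs.ne_zero
  have hφh : (0 : ℝ) < (Nat.totient h : ℝ) := by exact_mod_cast Nat.totient_pos.mpr hh0
  have hφg : (0 : ℝ) < (Nat.totient g : ℝ) := by exact_mod_cast Nat.totient_pos.mpr hg0
  rw [hqg]
  have e1 : (ArithmeticFunction.moebius q : ℝ) = (ArithmeticFunction.moebius g : ℝ) *
      (ArithmeticFunction.moebius h : ℝ) := by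
    rw [hh, ArithmeticFunction.isMultiplicative_moebius.map_mul_of_coprime hcop]
    push_cast
    ring
  have e2 : (Nat.totient q : ℝ) = (Nat.totient g : ℝ) * (Nat.totient h : ℝ) := by
    rw [hh, Nat.totient_mul hcop]
    push_cast
    ring
  have e3 : (ArithmeticFunction.moebius h : ℝ) ^ 2 = 1 := by
    exact_mod_cast ArithmeticFunction.moebius_sq_eq_one_of_squarefree hhs
  have e4 : q.primeFactors = g.primeFactors ∪ h.primeFactors := by
    rw [hh, hcop.primeFactors_mul]
  have e5 : Disjoint g.primeFactors h.primeFactors := hcop.disjoint_primeFactors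
  have e6 : ∏ p ∈ g.primeFactors, LS1_h m p = (ArithmeticFunction.moebius g : ℝ) := by
    rw [ArithmeticFunction.moebius_apply_of_squarefree hgs]
    push_cast
    rw [ArithmeticFunction.cardFactors_apply,
      show g.primeFactorsList.length = g.primeFactors.card from ?_]
    · rw [← Finset.prod_const]
      refine prod_congr rfl fun p hp => ?_
      unfold LS1_h
      rw [if_pos]
      have h1 : p ∣ g := Nat.dvd_of_mem_primeFactors hp
      exact Int.natCast_dvd.mpr (h1.trans (Nat.gcd_dvd_right _ _))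
    · unfold Nat.primeFactors
      rw [List.toFinset_card_of_nodup]
      exact (Nat.squarefree_iff_nodup_primeFactorsList hgs.ne_zero).mp hgs
  have e7 : ∏ p ∈ h.primeFactors, LS1_h m p = 1 / (Nat.totient h : ℝ) := by
    rw [Pool.Agent.Lib.H68T.cg1_totient_squarefree_real hhs, one_div, ← prod_inv_distrib]
    refine prod_congr rfl fun p hp => ?_
    unfold LS1_h
    rw [if_neg, one_div]
    intro hpm
    have h1 : p ∣ h := Nat.dvd_of_mem_primeFactors hp
    have h2 : p ∣ q := h1.trans ⟨g, by rw [hh]; ring⟩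
    have h3 : p ∣ g := Nat.dvd_gcd h2 (Int.natCast_dvd.mp hpm)
    have h4 : p ∣ 1 := by
      have := Nat.dvd_gcd h3 h1
      rwa [hcop] at this
    exact (Nat.prime_of_mem_primeFactors hp).one_lt.ne' (Nat.dvd_one.mp h4)
  rw [e4, prod_union e5, e6, e7, e1, e2]
  field_simp
  rw [e3]

theorem LS1_full (P : ℕ) (hP : Squarefree P) (m : ℤ) :
    ∑ q ∈ P.divisors, (ArithmeticFunction.moebius q : ℝ) / (Nat.totient q : ℝ) * cq q m =
      Lq P m := by
  have h1 : ∑ q ∈ P.divisors, (ArithmeticFunction.moebius q : ℝ) / (Nat.totient q : ℝ) * cq q m =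
      ∑ q ∈ P.divisors, ArithmeticFunction.prodPrimeFactors (LS1_h m) q := by
    refine sum_congr rfl fun q hq => ?_
    have hqs : Squarefree q := hP.squarefree_of_dvd (Nat.dvd_of_mem_divisors hq)
    rw [LS1_term q hqs, ArithmeticFunction.prodPrimeFactors_apply hqs.ne_zero]
  have h2 := (ArithmeticFunction.IsMultiplicative.prodPrimeFactors
    (LS1_h m)).prodPrimeFactors_one_add_of_squarefree hP
  rw [h1, ← h2]
  have h3 : ∏ p ∈ P.primeFactors, (1 + ArithmeticFunction.prodPrimeFactors (LS1_h m) p) =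
      ∏ p ∈ P.primeFactors, (1 + LS1_h m p) := by
    refine prod_congr rfl fun p hp => ?_
    have hp' := Nat.prime_of_mem_primeFactors hp
    rw [ArithmeticFunction.prodPrimeFactors_apply hp'.ne_zero, hp'.primeFactors, prod_singleton]
  rw [h3]
  unfold Lq
  split_ifs with hc
  · rw [Pool.Agent.Lib.H68T.cg1_totient_squarefree_real hP]
    have h4 := congrArg (fun n : ℕ => (n : ℝ)) (Nat.prod_primeFactors_of_squarefree hP).symm
    push_cast at h4
    rw [h4, ← prod_div_distrib]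
    have h4' := congrArg (fun n : ℕ => (n : ℝ)) (Nat.prod_primeFactors_of_squarefree hP).symm
    refine prod_congr ?_ fun p hp => ?_
    · rfl
    · have hp' := Nat.prime_of_mem_primeFactors hp
      have h5 : (1 : ℝ) < p := by exact_mod_cast hp'.one_lt
      have h6 : (p : ℝ) - 1 ≠ 0 := by linarith
      unfold LS1_h
      rw [if_neg]
      · field_simp
        ring
      · intro hpm
        have h7 : (p : ℤ) ∣ (P : ℤ) := Int.natCast_dvd_natCast.mpr (Nat.dvd_of_mem_primeFactors hp)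
        have h8 := (hc.of_isCoprime_of_dvd_left hpm).of_isCoprime_of_dvd_right h7
        have h9 := isCoprime_self.mp h8
        exact (Nat.prime_iff_prime_int.mp hp').not_isUnit h9
  · rw [Int.isCoprime_iff_gcd_eq_one] at hc
    obtain ⟨p, hp, hpd⟩ := Nat.exists_prime_and_dvd hc
    have h5 : p ∣ P := by
      have := hpd.trans (Nat.gcd_dvd_right m.natAbs (P : ℤ).natAbs)
      simpa using this
    have h6 : (p : ℤ) ∣ m := by
      have := hpd.trans (Nat.gcd_dvd_left m.natAbs (P : ℤ).natAbs)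
      exact Int.natCast_dvd.mpr this
    refine prod_eq_zero (i := p) (Nat.mem_primeFactors.mpr ⟨hp, h5, hP.ne_zero⟩) ?_
    unfold LS1_h
    rw [if_pos h6]
    ring

/-- `∑_{q ∣ P} μ(q) c_q(m)/φ(q) = ∏_{p ∣ P} (1 - c_p(m)/(p-1))`, `P = PW w` squarefree, `c_p(m) = p - 1`
if `p ∣ m` and `-1` otherwise; so the product is `P/φ(P)` if `(m, P) = 1` and `0` otherwise. And
`G_Q(m)` is the sum over all `q ≤ Q`, which contains all divisors of `P` as `P ≤ Q`. -/
theorem G_sub_Lw (w Q : ℕ) (hw : PW w ≤ Q) (m : ℤ) :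
    Pool.Agent.Lib.H68T.G Q m - Lw w m = ∑ q ∈ (Icc 1 Q).filter (fun q => ¬ q ∣ PW w),
      (ArithmeticFunction.moebius q : ℝ) / (Nat.totient q : ℝ) * cq q m := by
  have h1 : (Icc 1 Q).filter (fun q => q ∣ PW w) = (PW w).divisors := by
    ext q
    simp only [mem_filter, mem_Icc, Nat.mem_divisors]
    constructor
    · rintro ⟨-, h⟩
      exact ⟨h, (PW_pos w).ne'⟩
    · rintro ⟨h, -⟩
      exact ⟨⟨Nat.pos_of_dvd_of_pos h (PW_pos w), (Nat.le_of_dvd (PW_pos w) h).trans hw⟩, h⟩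
  unfold Pool.Agent.Lib.H68T.G Lw
  rw [← LS1_full (PW w) (PW_squarefree w) m, ← h1, sub_eq_iff_eq_add, add_comm,
    sum_filter_add_sum_filter_not]

end Pool.Agent.Lib.H33B
end

-- from Lib.H33B.LS3
section

/-!
# Chunk LS3: sieve-type weights in classes of the values `G(n)`
-/

open Finset Polynomial

namespace Pool.Agent.Lib.H33B

open Pool.Agent.Lib.H59 (argCount rootCount)

theorem LS3_prime {f : ℤ[X]} {p : ℕ} (hp : p.Prime) (hpl : ¬ (p : ℤ) ∣ f.leadingCoeff) :
    rootCount f p ≤ f.natDegree := by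
  classical
  have : Fact p.Prime := ⟨hp⟩
  set g := f.map (Int.castRingHom (ZMod p)) with hg
  have hg0 : g ≠ 0 := by
    intro h
    apply hpl
    have := congrArg (fun q => q.coeff f.natDegree) h
    simp only [hg, coeff_map, coeff_zero, eq_intCast] at this
    exact (ZMod.intCast_zmod_eq_zero_iff_dvd _ _).mp this
  have h1 : rootCount f p ≤ g.roots.toFinset.card := by
    unfold rootCount
    refine Finset.card_le_card_of_injOn (fun a : ℕ => (a : ZMod p)) ?_ ?_
    · intro a ha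
      rw [Finset.mem_coe, Finset.mem_filter] at ha
      rw [Finset.mem_coe, Multiset.mem_toFinset, mem_roots hg0, IsRoot.def, hg]
      have h2 : ((f.eval (a : ℤ) : ℤ) : ZMod p) = 0 :=
        (ZMod.intCast_zmod_eq_zero_iff_dvd _ _).mpr ha.2
      have h3 := eval_intCast_map (Int.castRingHom (ZMod p)) f (a : ℤ)
      simp only [Int.cast_natCast, eq_intCast] at h3
      rw [h3]
      exact h2
    · intro a ha b hb hab
      rw [Finset.mem_coe, Finset.mem_filter, Finset.mem_range] at ha hb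
      have := (ZMod.natCast_eq_natCast_iff' a b p).mp hab
      rwa [Nat.mod_eq_of_lt ha.1, Nat.mod_eq_of_lt hb.1] at this
  refine h1.trans ((Multiset.toFinset_card_le _).trans ((card_roots' g).trans ?_))
  rw [hg]
  exact natDegree_map_le

theorem LS3_prod (H : ℤ[X]) (q : ℕ) (hq : Squarefree q) :
    (rootCount H q : ℝ) = ∏ p ∈ q.primeFactors, (rootCount H p : ℝ) := by
  have h1 := (Pool.Agent.Lib.H59.nuPoly_mult H).map_prod_of_prime q.primeFactors
    (fun p hp => Nat.prime_of_mem_primeFactors hp)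
  rw [Nat.prod_primeFactors_of_squarefree hq] at h1
  simp only [Pool.Agent.Lib.H59.nuPoly_apply] at h1
  rw [prod_div_distrib] at h1
  have h4 : (q : ℝ) = ∏ p ∈ q.primeFactors, (p : ℝ) := by
    have := congrArg (fun n : ℕ => (n : ℝ)) (Nat.prod_primeFactors_of_squarefree hq).symm
    push_cast at this
    exact this
  have h5 : (q : ℝ) ≠ 0 := by exact_mod_cast hq.ne_zero
  rw [← h4] at h1
  exact (div_left_inj' h5).mp h1

/-- For squarefree `q` the number of residues `b` modulo `q` with `G(b) ≡ v` is at most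
`lc(G) k^(ω(q))`: `rootCount` is multiplicative (`H59.rootCount_mul`), for a prime `p` not dividing
`lc(G)` it is at most `k` (the polynomial `G - v` is not zero modulo `p`), for `p ∣ lc(G)` at most
`p ≤ p k`. -/
theorem roots_le (G : ℤ[X]) (hk : 1 ≤ G.natDegree) (hl : 0 < G.leadingCoeff) (q : ℕ)
    (hq : Squarefree q) (v : ℤ) : (rootCount (G - C v) q : ℝ) ≤
      (G.leadingCoeff : ℝ) * (G.natDegree : ℝ) ^ q.primeFactors.card := by
  classical
  rw [LS3_prod _ q hq]
  have hdeg : (G - C v).natDegree = G.natDegree := natDegree_sub_C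
  have hlc : (G - C v).leadingCoeff = G.leadingCoeff := by
    unfold leadingCoeff
    rw [hdeg, coeff_sub, coeff_C_ne_zero (by omega), sub_zero]
  have hk' : (1 : ℝ) ≤ (G.natDegree : ℝ) := by exact_mod_cast hk
  have h1 : ∀ p ∈ q.primeFactors, (rootCount (G - C v) p : ℝ) ≤
      (if (p : ℤ) ∣ G.leadingCoeff then (p : ℝ) else 1) * (G.natDegree : ℝ) := by
    intro p hp
    have hp' := Nat.prime_of_mem_primeFactors hp
    split_ifs with h
    · have h2 : (rootCount (G - C v) p : ℝ) ≤ p := by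
        exact_mod_cast Pool.Agent.Lib.H59.rootCount_le_self _ _
      have h3 : (0 : ℝ) ≤ p := by positivity
      nlinarith
    · have h2 := LS3_prime (f := G - C v) hp' (by rw [hlc]; exact h)
      rw [hdeg] at h2
      rw [one_mul]
      exact_mod_cast h2
  refine (prod_le_prod (fun p _ => by positivity) h1).trans ?_
  rw [prod_mul_distrib, prod_const]
  refine mul_le_mul_of_nonneg_right ?_ (by positivity)
  rw [← prod_filter]
  have h2 : ∏ p ∈ q.primeFactors.filter (fun p : ℕ => (p : ℤ) ∣ G.leadingCoeff), p ∣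
      G.leadingCoeff.natAbs := by
    refine Finset.prod_primes_dvd _ (fun p hp => ?_) (fun p hp => ?_)
    · exact (Nat.prime_of_mem_primeFactors (mem_filter.mp hp).1).prime
    · exact Int.natCast_dvd.mp (mem_filter.mp hp).2
  have h3 := Nat.le_of_dvd (Int.natAbs_pos.mpr hl.ne') h2
  have h4 : ((∏ p ∈ q.primeFactors.filter (fun p : ℕ => (p : ℤ) ∣ G.leadingCoeff), p : ℕ) : ℝ) ≤
      (G.leadingCoeff.natAbs : ℝ) := by exact_mod_cast h3
  have h5 : (G.leadingCoeff.natAbs : ℝ) = (G.leadingCoeff : ℝ) := by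
    rw [Nat.cast_natAbs, abs_of_pos hl]
  rw [h5] at h4
  push_cast at h4
  exact h4

theorem LS3_term (M p : ℕ) (hp : 2 ≤ p) :
    (M : ℝ) / ((p : ℝ) - 1) ^ 2 ≤ (if p < 16 * M ^ 2 then 4 * (M : ℝ) + 1 else 1) *
      (p : ℝ) ^ (-(3 / 2) : ℝ) := by
  have hp2 : (2 : ℝ) ≤ p := by exact_mod_cast hp
  have hp0 : (0 : ℝ) < p := by linarith
  have h1 : (0 : ℝ) < ((p : ℝ) - 1) ^ 2 := by
    have : (0 : ℝ) < (p : ℝ) - 1 := by linarith
    positivity
  have h2 : (p : ℝ) ^ 2 ≤ 4 * ((p : ℝ) - 1) ^ 2 := by nlinarith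
  have e1 : (p : ℝ) ^ (-(3 / 2) : ℝ) = (p : ℝ) ^ ((1 : ℝ) / 2) / (p : ℝ) ^ 2 := by
    rw [show (-(3 / 2) : ℝ) = 1 / 2 - (2 : ℕ) by norm_num, Real.rpow_sub_natCast hp0.ne']
  have h3 : (M : ℝ) / ((p : ℝ) - 1) ^ 2 ≤ 4 * M / (p : ℝ) ^ 2 := by
    rw [div_le_div_iff₀ h1 (by positivity)]
    have hM : (0 : ℝ) ≤ M := by positivity
    nlinarith
  refine h3.trans ?_
  rw [e1, ← mul_div_assoc]
  refine div_le_div_of_nonneg_right ?_ (by positivity)
  split_ifs with h
  · have h4 : (1 : ℝ) ≤ (p : ℝ) ^ ((1 : ℝ) / 2) :=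
      Real.one_le_rpow (by linarith) (by norm_num)
    have hM : (0 : ℝ) ≤ M := by positivity
    nlinarith
  · rw [one_mul]
    push Not at h
    have h4 : ((16 * M ^ 2 : ℕ) : ℝ) ≤ p := by exact_mod_cast h
    have h5 : ((16 * M ^ 2 : ℕ) : ℝ) ^ ((1 : ℝ) / 2) ≤ (p : ℝ) ^ ((1 : ℝ) / 2) :=
      Real.rpow_le_rpow (by positivity) h4 (by norm_num)
    have h6 : ((16 * M ^ 2 : ℕ) : ℝ) = (4 * (M : ℝ)) ^ (2 : ℝ) := by
      rw [Real.rpow_two]
      push_cast
      ring
    rw [h6, ← Real.rpow_mul (by positivity)] at h5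
    norm_num at h5
    norm_num
    exact h5

/-- `∑_{q > w} μ(q)² M^(ω(q))/φ(q)² ≤ C w^(-1/4)` uniformly in the cut-off `Q`: `M^(ω(q)) ≤ C_M q^(1/4)`
(each prime factor `p > M^4` contributes `M ≤ p^(1/4)`, the others are finitely many) and
`q/φ(q) ≤ 2^(ω(q)) ≤ C q^(1/8)`, so the terms are at most `C q^(-3/2)`. -/
theorem tail_series (M : ℕ) : ∃ C : ℝ, 0 < C ∧ ∀ w : ℕ, 1 ≤ w → ∀ Q : ℕ,
    ∑ q ∈ (Icc w Q).filter Squarefree, (1 / (Nat.totient q : ℝ)) ^ 2 *
      (M : ℝ) ^ q.primeFactors.card ≤ C * (w : ℝ) ^ (-(1 / 4) : ℝ) := by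
  set B : ℝ := (4 * (M : ℝ) + 1) ^ (16 * M ^ 2) with hB
  have hB0 : 0 < B := by positivity
  have hsum : Summable (fun n : ℕ => 1 / (n : ℝ) ^ (5 / 4 : ℝ)) :=
    Real.summable_one_div_nat_rpow.mpr (by norm_num)
  set Z : ℝ := ∑' n : ℕ, 1 / (n : ℝ) ^ (5 / 4 : ℝ) with hZ
  have hZ0 : 0 ≤ Z := tsum_nonneg fun n => by positivity
  refine ⟨B * (Z + 1), by positivity, fun w hw Q => ?_⟩
  have hw0 : (0 : ℝ) < w := by exact_mod_cast hw
  have hterm : ∀ q ∈ (Icc w Q).filter Squarefree, (1 / (Nat.totient q : ℝ)) ^ 2 *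
      (M : ℝ) ^ q.primeFactors.card ≤ B * (w : ℝ) ^ (-(1 / 4) : ℝ) *
        (1 / (q : ℝ) ^ (5 / 4 : ℝ)) := by
    intro q hq
    rw [mem_filter, mem_Icc] at hq
    obtain ⟨⟨hwq, -⟩, hqs⟩ := hq
    have hq0 : 0 < q := by omega
    have hq0' : (0 : ℝ) < q := by exact_mod_cast hq0
    have h1 : (Nat.totient q : ℝ) = ∏ p ∈ q.primeFactors, ((p : ℝ) - 1) := by
      have h1 := Nat.totient_mul_prod_primeFactors q
      rw [Nat.prod_primeFactors_of_squarefree hqs, mul_comm] at h1
      have h2 := Nat.eq_of_mul_eq_mul_left hq0 h1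
      rw [h2]
      push_cast
      refine prod_congr rfl fun p hp => ?_
      rw [Nat.cast_sub (Nat.prime_of_mem_primeFactors hp).one_lt.le]
      simp
    have h2 : (1 / (Nat.totient q : ℝ)) ^ 2 * (M : ℝ) ^ q.primeFactors.card =
        ∏ p ∈ q.primeFactors, (M : ℝ) / ((p : ℝ) - 1) ^ 2 := by
      rw [h1, prod_div_distrib, prod_const, prod_pow, div_pow, one_pow]
      ring
    have h3 : (q : ℝ) ^ (-(3 / 2) : ℝ) = ∏ p ∈ q.primeFactors, (p : ℝ) ^ (-(3 / 2) : ℝ) := by
      have h4 : (q : ℝ) = ∏ p ∈ q.primeFactors, (p : ℝ) := by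
        have := congrArg (fun n : ℕ => (n : ℝ)) (Nat.prod_primeFactors_of_squarefree hqs).symm
        push_cast at this
        exact this
      rw [h4, Real.finsetProd_rpow _ _ (fun p _ => by positivity)]
    have h4 : (1 / (Nat.totient q : ℝ)) ^ 2 * (M : ℝ) ^ q.primeFactors.card ≤
        B * (q : ℝ) ^ (-(3 / 2) : ℝ) := by
      rw [h2, h3]
      refine (prod_le_prod (fun p _ => by positivity) (fun p hp =>
        LS3_term M p (Nat.prime_of_mem_primeFactors hp).two_le)).trans ?_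
      rw [prod_mul_distrib]
      refine mul_le_mul_of_nonneg_right ?_ (prod_nonneg fun p _ => by positivity)
      rw [← prod_filter, prod_const, hB]
      refine pow_le_pow_right₀ (by linarith [(by positivity : (0 : ℝ) ≤ M)]) ?_
      calc (q.primeFactors.filter (fun p => p < 16 * M ^ 2)).card
          ≤ (range (16 * M ^ 2)).card := card_le_card fun p hp => by
            rw [mem_filter] at hp
            exact mem_range.mpr hp.2
        _ = _ := card_range _
    refine h4.trans ?_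
    rw [mul_assoc]
    refine mul_le_mul_of_nonneg_left ?_ hB0.le
    have h5 : (q : ℝ) ^ (-(3 / 2) : ℝ) =
        (q : ℝ) ^ (-(1 / 4) : ℝ) * (1 / (q : ℝ) ^ (5 / 4 : ℝ)) := by
      rw [one_div ((q : ℝ) ^ (5 / 4 : ℝ)), ← Real.rpow_neg hq0'.le, ← Real.rpow_add hq0']
      norm_num
    rw [h5]
    refine mul_le_mul_of_nonneg_right ?_ (by positivity)
    exact Real.rpow_le_rpow_of_nonpos hw0 (by exact_mod_cast hwq) (by norm_num)
  refine (sum_le_sum hterm).trans ?_
  rw [← mul_sum]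
  have h6 : ∑ q ∈ (Icc w Q).filter Squarefree, 1 / (q : ℝ) ^ (5 / 4 : ℝ) ≤ Z :=
    hsum.sum_le_tsum _ (fun n _ => by positivity)
  have h7 : 0 < B * (w : ℝ) ^ (-(1 / 4) : ℝ) := by positivity
  calc B * (w : ℝ) ^ (-(1 / 4) : ℝ) * ∑ q ∈ (Icc w Q).filter Squarefree, 1 / (q : ℝ) ^ (5 / 4 : ℝ)
      ≤ B * (w : ℝ) ^ (-(1 / 4) : ℝ) * (Z + 1) := mul_le_mul_of_nonneg_left (by linarith) h7.le
    _ = _ := by ring

/-- The second moment over the classes of the values. -/
theorem LS3_core (G : ℤ[X]) (hk : 1 ≤ G.natDegree) (hl : 0 < G.leadingCoeff) (X : ℕ)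
    (S B : ℝ) (f : ℕ → ℝ) (hf : ∀ n ∈ Icc 1 X, 0 ≤ f n) (hS : ∑ n ∈ Icc 1 X, f n ≤ S)
    (A : Finset ℕ) (hA : A ⊆ Icc 1 X) (q : ℕ) (hq : Squarefree q) (hB : 0 ≤ B)
    (hcls : ∀ b : ℕ, ∑ n ∈ (Icc 1 X).filter (fun n => n ≡ b [MOD q]), f n ≤ B) :
    ∑ r ∈ range q, (∑ n ∈ A.filter (fun n : ℕ => (q : ℤ) ∣ G.eval (n : ℤ) - r), f n) ^ 2 ≤
      G.leadingCoeff * (G.natDegree : ℝ) ^ q.primeFactors.card * B * S := by
  classical
  have hq0 : 0 < q := Nat.pos_of_ne_zero hq.ne_zero
  have hlr : (0 : ℝ) < G.leadingCoeff := by exact_mod_cast hl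
  have hL : (0 : ℝ) ≤ G.leadingCoeff * (G.natDegree : ℝ) ^ q.primeFactors.card := by positivity
  have hs0 : ∀ r : ℕ, 0 ≤ ∑ n ∈ A.filter (fun n : ℕ => (q : ℤ) ∣ G.eval (n : ℤ) - r), f n :=
    fun r => sum_nonneg fun n hn => hf n (hA (mem_filter.mp hn).1)
  have hs1 : ∀ r : ℕ, ∑ n ∈ A.filter (fun n : ℕ => (q : ℤ) ∣ G.eval (n : ℤ) - r), f n ≤
      G.leadingCoeff * (G.natDegree : ℝ) ^ q.primeFactors.card * B := by
    intro r
    set s := A.filter (fun n : ℕ => (q : ℤ) ∣ G.eval (n : ℤ) - r) with hs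
    set T := (range q).filter (fun a : ℕ => (q : ℤ) ∣ (G - C (r : ℤ)).eval (a : ℤ)) with hT
    have hmap : ∀ n ∈ s, n % q ∈ T := by
      intro n hn
      rw [hs, mem_filter] at hn
      rw [hT, mem_filter, mem_range]
      refine ⟨Nat.mod_lt _ hq0, ?_⟩
      rw [Pool.Agent.Lib.H59.dvd_eval_mod_iff]
      simpa using hn.2
    rw [← sum_fiberwise_of_maps_to hmap f]
    have h1 : ∀ b ∈ T, ∑ n ∈ s.filter (fun n => n % q = b), f n ≤ B := by
      intro b hb
      refine le_trans ?_ (hcls b)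
      refine sum_le_sum_of_subset_of_nonneg ?_ ?_
      · intro n hn
        rw [mem_filter, hs, mem_filter] at hn
        rw [mem_filter]
        refine ⟨hA hn.1.1, ?_⟩
        rw [hT, mem_filter, mem_range] at hb
        unfold Nat.ModEq
        rw [hn.2, Nat.mod_eq_of_lt hb.1]
      · intro n hn _
        exact hf n (mem_filter.mp hn).1
    refine (sum_le_sum h1).trans ?_
    rw [sum_const, nsmul_eq_mul]
    refine mul_le_mul_of_nonneg_right ?_ hB
    exact roots_le G hk hl q hq r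
  have hs2 : ∑ r ∈ range q, ∑ n ∈ A.filter (fun n : ℕ => (q : ℤ) ∣ G.eval (n : ℤ) - r), f n ≤ S := by
    have h1 : ∑ r ∈ range q, ∑ n ∈ A.filter (fun n : ℕ => (q : ℤ) ∣ G.eval (n : ℤ) - r), f n =
        ∑ n ∈ A, f n := by
      have hmap : ∀ n ∈ A, (G.eval (n : ℤ) % q).toNat ∈ range q := by
        intro n _
        rw [mem_range]
        have h2 := Int.emod_lt_of_pos (G.eval (n : ℤ)) (by exact_mod_cast hq0 : (0 : ℤ) < q)
        have h3 := Int.emod_nonneg (G.eval (n : ℤ)) (by exact_mod_cast hq0.ne' : (q : ℤ) ≠ 0)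
        omega
      rw [← sum_fiberwise_of_maps_to hmap f]
      refine sum_congr rfl fun r hr => ?_
      refine sum_congr ?_ fun _ _ => rfl
      ext n
      simp only [mem_filter]
      rw [mem_range] at hr
      have h2 := Int.emod_lt_of_pos (G.eval (n : ℤ)) (by exact_mod_cast hq0 : (0 : ℤ) < q)
      have h3 := Int.emod_nonneg (G.eval (n : ℤ)) (by exact_mod_cast hq0.ne' : (q : ℤ) ≠ 0)
      refine and_congr_right fun _ => ?_
      constructor
      · intro h
        have h4 : G.eval (n : ℤ) % q = (r : ℤ) % q :=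
          Int.emod_eq_emod_iff_emod_sub_eq_zero.mpr (Int.emod_eq_zero_of_dvd h)
        rw [h4, Int.emod_eq_of_lt (by positivity) (by exact_mod_cast hr)]
        simp
      · intro h
        have h4 : (r : ℤ) = G.eval (n : ℤ) % q := by omega
        rw [h4]
        exact Int.dvd_self_sub_emod
    rw [h1]
    refine le_trans (sum_le_sum_of_subset_of_nonneg hA fun n hn _ => hf n hn) hS
  calc ∑ r ∈ range q, (∑ n ∈ A.filter (fun n : ℕ => (q : ℤ) ∣ G.eval (n : ℤ) - r), f n) ^ 2
      ≤ ∑ r ∈ range q, G.leadingCoeff * (G.natDegree : ℝ) ^ q.primeFactors.card * B *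
        ∑ n ∈ A.filter (fun n : ℕ => (q : ℤ) ∣ G.eval (n : ℤ) - r), f n := by
        refine sum_le_sum fun r _ => ?_
        rw [pow_two]
        exact mul_le_mul_of_nonneg_right (hs1 r) (hs0 r)
    _ = G.leadingCoeff * (G.natDegree : ℝ) ^ q.primeFactors.card * B *
        ∑ r ∈ range q, ∑ n ∈ A.filter (fun n : ℕ => (q : ℤ) ∣ G.eval (n : ℤ) - r), f n := by
        rw [mul_sum]
    _ ≤ _ := mul_le_mul_of_nonneg_left hs2 (mul_nonneg hL hB)

theorem LS3_mass (D : ℕ) (C K : ℝ) (hK : 0 ≤ K) (Y X : ℕ) (hY : 3 ≤ Y) (S : ℝ) (f : ℕ → ℝ)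
    (hf : SieveWt D C K Y X S f) : ∑ n ∈ Icc 1 X, f n ≤ S := by
  have hlog : 1 ≤ Real.log Y := by
    have h1 : Real.exp 1 ≤ Y := by
      have h2 := Real.exp_one_lt_d9
      have h3 : (3 : ℝ) ≤ Y := by exact_mod_cast hY
      linarith
    rw [← Real.log_exp 1]
    exact Real.log_le_log (Real.exp_pos 1) h1
  have h1 := hf.cls 1 0 squarefree_one (by
    push_cast
    exact Real.one_le_rpow hlog hK)
  simpa [Nat.modEq_one] using h1

/-- For squarefree `q`: `∑_r (∑_{G(n) ≡ r} f(n))² ≤ (∑ f) max_r ∑_{G(n) ≡ r} f(n)`; the `n` with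
`G(n) ≡ r (mod q)` lie in at most `rootCount (G - r) q ≤ lc(G) k^(ω(q))` classes modulo `q`
(`roots_le`), each of weight at most `D^(ω(q)) S/q`, and `∑ f ≤ S` (modulus `1`). `A ⊆ [1,X]`. -/
theorem cls_small (G : ℤ[X]) (hk : 1 ≤ G.natDegree) (hl : 0 < G.leadingCoeff) (D : ℕ) (C K : ℝ)
    (hK : 0 ≤ K) (Y X : ℕ) (hY : 3 ≤ Y) (S : ℝ) (f : ℕ → ℝ) (hf : SieveWt D C K Y X S f)
    (A : Finset ℕ) (hA : A ⊆ Icc 1 X) (q : ℕ) (hq : Squarefree q) (hqY : (q : ℝ) ≤ (Real.log Y) ^ K) :
    (q : ℝ) * ∑ r ∈ range q,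
      (∑ n ∈ A.filter (fun n : ℕ => (q : ℤ) ∣ G.eval (n : ℤ) - r), f n) ^ 2 ≤
        G.leadingCoeff * ((G.natDegree * D : ℕ) : ℝ) ^ q.primeFactors.card * S ^ 2 := by
  have hq0 : (0 : ℝ) < q := by exact_mod_cast Nat.pos_of_ne_zero hq.ne_zero
  have hS := LS3_mass D C K hK Y X hY S f hf
  have hS0 : 0 ≤ S := (sum_nonneg fun n hn => hf.nonneg n hn).trans hS
  have h1 := LS3_core G hk hl X S ((D : ℝ) ^ q.primeFactors.card * S / q) f hf.nonneg hS A hA q hq
    (by positivity) (fun b => hf.cls q b hq hqY)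
  calc (q : ℝ) * ∑ r ∈ range q,
      (∑ n ∈ A.filter (fun n : ℕ => (q : ℤ) ∣ G.eval (n : ℤ) - r), f n) ^ 2
      ≤ q * (G.leadingCoeff * (G.natDegree : ℝ) ^ q.primeFactors.card *
        ((D : ℝ) ^ q.primeFactors.card * S / q) * S) := mul_le_mul_of_nonneg_left h1 hq0.le
    _ = _ := by
        push_cast
        rw [mul_pow]
        field_simp

theorem LS3_card (X q b : ℕ) (hq : 0 < q) (hqX : q ≤ X) :
    (((Icc 1 X).filter (fun n => n ≡ b [MOD q])).card : ℝ) ≤ 2 * X / q := by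
  have h0 : Icc 1 X = Ioc 0 X := by
    ext n
    simp only [mem_Icc, mem_Ioc]
    omega
  have hq0 : (0 : ℝ) < q := by exact_mod_cast hq
  have h1 := Nat.Ioc_filter_modEq_card 0 X hq b
  have h2 : ⌊((X : ℚ) - b) / q⌋ - ⌊(((0 : ℕ) : ℚ) - b) / q⌋ ≤ X / q + 1 := by
    have h3 := Int.floor_le (((X : ℚ) - b) / q)
    have h4 := Int.lt_floor_add_one ((((0 : ℕ) : ℚ) - b) / q)
    have hq1 : (0 : ℚ) < q := by exact_mod_cast hq
    have h5 : ((X : ℚ) - b) / q - (((0 : ℕ) : ℚ) - b) / q = X / q := by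
      push_cast
      field_simp
      ring
    have h6 : ((⌊((X : ℚ) - b) / q⌋ - ⌊(((0 : ℕ) : ℚ) - b) / q⌋ : ℤ) : ℚ) < X / q + 1 := by
      push_cast
      push_cast at h3 h4 h5
      linarith
    have h7 : (X : ℚ) / q < ((X / q : ℕ) : ℚ) + 1 := by
      rw [div_lt_iff₀ hq1]
      have h8 : X < (X / q + 1) * q := by
        have := Nat.div_add_mod X q
        have h9 := Nat.mod_lt X hq
        nlinarith
      exact_mod_cast h8
    have h8 : ((⌊((X : ℚ) - b) / q⌋ - ⌊(((0 : ℕ) : ℚ) - b) / q⌋ : ℤ) : ℚ) <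
        ((((X / q : ℕ) : ℤ) + 2 : ℤ) : ℚ) := by
      refine h6.trans ?_
      rw [Int.cast_add, Int.cast_natCast]
      have h10 : ((2 : ℤ) : ℚ) = 2 := by norm_num
      rw [h10]
      linarith
    have h9 : ⌊((X : ℚ) - b) / q⌋ - ⌊(((0 : ℕ) : ℚ) - b) / q⌋ < ((X / q : ℕ) : ℤ) + 2 := by
      exact_mod_cast h8
    have h10 : (X : ℤ) / (q : ℤ) = ((X / q : ℕ) : ℤ) := (Int.natCast_div X q).symm
    rw [h10]
    omega
  have h3 : (((Icc 1 X).filter (fun n => n ≡ b [MOD q])).card : ℤ) ≤ X / q + 1 := by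
    rw [h0, h1]
    refine max_le h2 ?_
    positivity
  have h4 : (((Icc 1 X).filter (fun n => n ≡ b [MOD q])).card : ℝ) ≤ ((X / q : ℕ) : ℝ) + 1 := by
    exact_mod_cast h3
  have h5 : ((X / q : ℕ) : ℝ) ≤ (X : ℝ) / q := Nat.cast_div_le
  have h6 : (1 : ℝ) ≤ (X : ℝ) / q := by
    rw [le_div_iff₀ hq0, one_mul]
    exact_mod_cast hqX
  calc (((Icc 1 X).filter (fun n => n ≡ b [MOD q])).card : ℝ) ≤ (X : ℝ) / q + X / q := by linarith
    _ = _ := by ring

/-- For every squarefree `q ≤ X`, with the trivial bound `f ≤ (log Y)^C` in each class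
(`X/q + 1 ≤ 2X/q` elements), `∑ f ≤ S` and `X ≤ S (log Y)^C`. -/
theorem cls_large (G : ℤ[X]) (hk : 1 ≤ G.natDegree) (hl : 0 < G.leadingCoeff) (D : ℕ) (C K : ℝ)
    (hK : 0 ≤ K) (Y X : ℕ) (hY : 3 ≤ Y) (S : ℝ) (f : ℕ → ℝ) (hf : SieveWt D C K Y X S f)
    (A : Finset ℕ) (hA : A ⊆ Icc 1 X) (q : ℕ) (hq : Squarefree q) (hqX : q ≤ X) :
    (q : ℝ) * ∑ r ∈ range q,
      (∑ n ∈ A.filter (fun n : ℕ => (q : ℤ) ∣ G.eval (n : ℤ) - r), f n) ^ 2 ≤
        2 * G.leadingCoeff * (G.natDegree : ℝ) ^ q.primeFactors.card * (Real.log Y) ^ (2 * C) *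
          S ^ 2 := by
  have hqn : 0 < q := Nat.pos_of_ne_zero hq.ne_zero
  have hq0 : (0 : ℝ) < q := by exact_mod_cast hqn
  have hS := LS3_mass D C K hK Y X hY S f hf
  have hS0 : 0 ≤ S := (sum_nonneg fun n hn => hf.nonneg n hn).trans hS
  have hY3 : (3 : ℝ) ≤ Y := by exact_mod_cast hY
  have hlog0 : 0 < Real.log Y := Real.log_pos (by linarith)
  have hlr : (0 : ℝ) < G.leadingCoeff := by exact_mod_cast hl
  have hlc : 0 ≤ (Real.log Y) ^ C := by positivity
  have h1 := LS3_core G hk hl X S (2 * X / q * (Real.log Y) ^ C) f hf.nonneg hS A hA q hq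
    (by positivity) (fun b => by
      calc ∑ n ∈ (Icc 1 X).filter (fun n => n ≡ b [MOD q]), f n
          ≤ ∑ n ∈ (Icc 1 X).filter (fun n => n ≡ b [MOD q]), (Real.log Y) ^ C :=
            sum_le_sum fun n hn => hf.le n (mem_filter.mp hn).1
        _ = (((Icc 1 X).filter (fun n => n ≡ b [MOD q])).card : ℝ) * (Real.log Y) ^ C := by
            rw [sum_const, nsmul_eq_mul]
        _ ≤ _ := mul_le_mul_of_nonneg_right (LS3_card X q b hqn hqX) hlc)
  have h2 : (Real.log Y) ^ (2 * C) = (Real.log Y) ^ C * (Real.log Y) ^ C := by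
    rw [← Real.rpow_add hlog0]
    ring_nf
  have hbig := hf.large
  calc (q : ℝ) * ∑ r ∈ range q,
      (∑ n ∈ A.filter (fun n : ℕ => (q : ℤ) ∣ G.eval (n : ℤ) - r), f n) ^ 2
      ≤ q * (G.leadingCoeff * (G.natDegree : ℝ) ^ q.primeFactors.card *
        (2 * X / q * (Real.log Y) ^ C) * S) := mul_le_mul_of_nonneg_left h1 hq0.le
    _ = 2 * G.leadingCoeff * (G.natDegree : ℝ) ^ q.primeFactors.card * (Real.log Y) ^ C * S * X := by
        field_simp
    _ ≤ 2 * G.leadingCoeff * (G.natDegree : ℝ) ^ q.primeFactors.card * (Real.log Y) ^ C * S *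
        (S * (Real.log Y) ^ C) := mul_le_mul_of_nonneg_left hbig (by positivity)
    _ = _ := by
        rw [h2]
        ring

end Pool.Agent.Lib.H33B
end

-- from Lib.H33B.CH
section

/-!
# Chunk CH: Chebyshev's upper bound and the mean of the model
-/

open Finset

namespace Pool.Agent.Lib.H33B

open Pool.Agent.Lib.H68T (lp)

/-- Chebyshev (Mathlib: `Chebyshev.theta_le_log4_mul_x`). -/
theorem sum_lp_le : ∃ C : ℝ, 0 < C ∧ ∀ M : ℕ, ∑ m ∈ Icc (1 : ℤ) M, lp m ≤ C * M := by
  refine ⟨Real.log 4, Real.log_pos (by norm_num), fun M => ?_⟩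
  have h1 := Chebyshev.theta_le_log4_mul_x (x := (M : ℝ)) (Nat.cast_nonneg M)
  have h2 : ∑ m ∈ Icc (1 : ℤ) M, lp m = Chebyshev.theta (M : ℝ) := by
    unfold Chebyshev.theta
    rw [Nat.floor_natCast, Finset.sum_filter]
    refine Finset.sum_nbij' (fun m => m.toNat) (fun n => (n : ℤ)) ?_ ?_ ?_ ?_ ?_
    · intro m hm
      rw [Finset.mem_Icc] at hm
      rw [Finset.mem_Ioc]
      omega
    · intro n hn
      rw [Finset.mem_Ioc] at hn
      rw [Finset.mem_Icc]
      omega
    · intro m hm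
      rw [Finset.mem_Icc] at hm
      omega
    · intro n _
      simp
    · intro m hm
      rw [Finset.mem_Icc] at hm
      unfold Pool.Agent.Lib.H68T.lp
      have h3 : ((m.toNat : ℕ) : ℝ) = (m : ℝ) := by
        have : ((m.toNat : ℕ) : ℤ) = m := Int.toNat_of_nonneg (by omega)
        exact_mod_cast this
      rw [h3]
  rw [h2]
  exact h1

theorem CH_PW_pos (w : ℕ) : 0 < PW w :=
  Finset.prod_pos fun p hp => (Nat.prime_of_mem_primesBelow hp).pos

/-- In an interval of length `M` the number of integers coprime to `P = PW w` is at most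
`(M/P + 1) φ(P)`. -/
theorem sum_Lw_le (w : ℕ) (M : ℕ) (hM : PW w ≤ M) (a : ℤ) :
    ∑ m ∈ Ico a (a + M), Lw w m ≤ 2 * M := by
  classical
  have hP := CH_PW_pos w
  set P := PW w with hPdef
  have hP' : (0 : ℝ) < P := by exact_mod_cast hP
  have hφ : 0 < Nat.totient P := Nat.totient_pos.2 hP
  have hφ' : (0 : ℝ) < Nat.totient P := by exact_mod_cast hφ
  have hk : 0 ≤ a + P * |a| := by
    have h1 : 1 * |a| ≤ P * |a| := mul_le_mul_of_nonneg_right (by exact_mod_cast hP) (abs_nonneg a)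
    have h2 := neg_abs_le a
    linarith
  obtain ⟨k, hk'⟩ := Int.eq_ofNat_of_zero_le hk
  have h1 : ∑ m ∈ Ico a (a + M), Lw w m =
      ((P : ℝ) / Nat.totient P) * ((Ico a (a + M)).filter (fun m => IsCoprime m (P : ℤ))).card := by
    unfold Lw Lq
    rw [← Finset.sum_filter, Finset.sum_const, nsmul_eq_mul, mul_comm]
  have h2 : ((Ico a (a + M)).filter (fun m => IsCoprime m (P : ℤ))).card ≤
      Nat.totient P * (M / P + 1) := by
    refine le_trans ?_ (Nat.Ico_filter_coprime_le k M hP.ne')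
    refine Finset.card_le_card_of_injOn (fun m => (m + P * |a|).toNat) ?_ ?_
    · intro m hm
      rw [Finset.mem_coe, Finset.mem_filter, Finset.mem_Ico] at hm
      obtain ⟨⟨h3, h4⟩, h5⟩ := hm
      rw [Finset.mem_coe, Finset.mem_filter, Finset.mem_Ico]
      beta_reduce
      refine ⟨⟨by omega, by omega⟩, ?_⟩
      have h6 : (((m + P * |a|).toNat : ℕ) : ℤ) = m + P * |a| := Int.toNat_of_nonneg (by omega)
      have h7 : IsCoprime (((m + P * |a|).toNat : ℕ) : ℤ) (P : ℤ) := by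
        rw [h6]
        exact (IsCoprime.add_mul_left_left_iff).2 h5
      exact (Nat.isCoprime_iff_coprime.1 h7).symm
    · intro m hm m' hm' h
      rw [Finset.mem_coe, Finset.mem_filter, Finset.mem_Ico] at hm hm'
      have h8 : (m + P * |a|).toNat = (m' + P * |a|).toNat := h
      omega
  rw [h1]
  have h3 : (((Ico a (a + M)).filter (fun m => IsCoprime m (P : ℤ))).card : ℝ) ≤
      Nat.totient P * (M / P + 1) := by
    have h4 : (((Ico a (a + M)).filter (fun m => IsCoprime m (P : ℤ))).card : ℝ) ≤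
        Nat.totient P * ((M / P : ℕ) + 1) := by exact_mod_cast h2
    refine h4.trans (mul_le_mul_of_nonneg_left ?_ hφ'.le)
    have : ((M / P : ℕ) : ℝ) ≤ M / P := Nat.cast_div_le
    linarith
  have hM' : (P : ℝ) ≤ M := by exact_mod_cast hM
  calc (P : ℝ) / Nat.totient P * ((Ico a (a + M)).filter (fun m => IsCoprime m (P : ℤ))).card ≤
        (P : ℝ) / Nat.totient P * (Nat.totient P * (M / P + 1)) :=
        mul_le_mul_of_nonneg_left h3 (by positivity)
    _ = M + P := by field_simp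
    _ ≤ 2 * M := by linarith

end Pool.Agent.Lib.H33B
end

-- from Lib.H33B.SR4
section

/-!
# Chunk SR4: averages of the singular series over a class, `G = x`; the matrix of coprime differences
-/

open Finset Polynomial

namespace Pool.Agent.Lib.H33B

open Pool.Agent.Lib.H59 (omegaN seriesTrunc rootCount)

variable {g : ℕ}










theorem SR4_per (P : ℕ) (f : ℕ → ℝ) (hf : ∀ N, f (N % P) = f N) (c : ℕ) :
    ∑ i ∈ range P, f (c + i) = ∑ i ∈ range P, f i := by
  induction c with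
  | zero => simp
  | succ c ih =>
    rcases Nat.eq_zero_or_pos P with h0 | h0
    · subst h0
      simp
    · obtain ⟨r, rfl⟩ : ∃ r, P = r + 1 := ⟨P - 1, by omega⟩
      rw [← ih, sum_range_succ' (fun i => f (c + i)), sum_range_succ]
      congr 1
      · refine sum_congr rfl fun N _ => ?_
        congr 1
        ring
      · rw [← hf (c + 1 + r), ← hf (c + 0)]
        congr 1
        rw [show c + 1 + r = c + 0 + (r + 1) by ring, Nat.add_mod_right]

theorem SR4_per_mul (P : ℕ) (f : ℕ → ℝ) (hf : ∀ N, f (N % P) = f N) (k c : ℕ) :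
    ∑ i ∈ range (P * k), f (c + i) = k * ∑ i ∈ range P, f i := by
  induction k with
  | zero => simp
  | succ k ih =>
    rw [Nat.mul_succ, sum_range_add, ih]
    have h1 : ∑ x ∈ range P, f (c + (P * k + x)) = ∑ i ∈ range P, f i := by
      rw [← SR4_per P f hf (c + P * k)]
      refine sum_congr rfl fun i _ => ?_
      congr 1
      ring
    rw [h1]
    push_cast
    ring


end Pool.Agent.Lib.H33B
end

-- from Lib.H59.SchinzelUpper
section

/-!
# The upper bound in the quantitative Goldbach-type hypothesis of Schinzel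

-/

open Finset Polynomial Filter Topology

noncomputable section

namespace Pool.Agent.Lib.H59

theorem card_value_le {P : ℤ[X]} (hP : 1 ≤ P.natDegree) (q : ℤ) (X : ℕ) :
    ((Icc 1 X).filter fun n : ℕ => P.eval (n : ℤ) = q).card ≤ P.natDegree := by
  classical
  have hne : P - C q ≠ 0 := by
    intro h
    have h1 : P = C q := sub_eq_zero.mp h
    rw [h1, natDegree_C] at hP
    omega
  have h1 : ((Icc 1 X).filter fun n : ℕ => P.eval (n : ℤ) = q).card ≤
      (P - C q).roots.toFinset.card := by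
    refine card_le_card_of_injOn (fun n : ℕ => (n : ℤ)) (fun n hn => ?_)
      (fun a _ b _ hab => by simpa using hab)
    rw [mem_coe, mem_filter] at hn
    rw [mem_coe, Multiset.mem_toFinset, mem_roots hne, IsRoot.def, eval_sub, eval_C, hn.2, sub_self]
  refine h1.trans ((Multiset.toFinset_card_le _).trans ((card_roots' _).trans ?_))
  rw [natDegree_sub_C]

theorem rootCount_mul_le (P Q : ℤ[X]) {p : ℕ} (hp : p.Prime) :
    rootCount (P * Q) p ≤ rootCount P p + rootCount Q p := by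
  classical
  unfold rootCount
  refine le_trans (card_le_card ?_) (card_union_le _ _)
  intro a ha
  rw [mem_filter, eval_mul] at ha
  rw [mem_union, mem_filter, mem_filter]
  rcases (Nat.prime_iff_prime_int.mp hp).dvd_or_dvd ha.2 with h | h
  · exact Or.inl ⟨ha.1, h⟩
  · exact Or.inr ⟨ha.1, h⟩

theorem rootCount_prod_le {ι : Type*} (T : Finset ι) (F : ι → ℤ[X]) {p : ℕ} (hp : p.Prime) :
    rootCount (∏ i ∈ T, F i) p ≤ ∑ i ∈ T, rootCount (F i) p := by
  classical
  induction T using Finset.induction_on with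
  | empty =>
    rw [prod_empty, sum_empty, Nat.le_zero, rootCount, card_eq_zero, filter_eq_empty_iff]
    intro a _
    rw [eval_one]
    exact (Nat.prime_iff_prime_int.mp hp).not_dvd_one
  | insert i T hi ih =>
    rw [prod_insert hi, sum_insert hi]
    exact (rootCount_mul_le _ _ hp).trans (by omega)


theorem omegaN_eq {g : ℕ} (F : Fin g → ℤ[X]) (G : ℤ[X]) (N p : ℕ) :
    omegaN F G N p = rootCount ((∏ i, F i) * (C (N : ℤ) - G)) p := rfl

theorem omegaN_le_sum {g : ℕ} (F : Fin g → ℤ[X]) (G : ℤ[X]) (N : ℕ) {p : ℕ} (hp : p.Prime) :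
    omegaN F G N p ≤ ∑ i, rootCount (F i) p + rootCount (C (N : ℤ) - G) p := by
  rw [omegaN_eq]
  exact (rootCount_mul_le _ _ hp).trans (Nat.add_le_add_right (rootCount_prod_le _ _ hp) _)

theorem omegaN_lt {g : ℕ} {F : Fin g → ℤ[X]} {G : ℤ[X]} {N : ℕ} (hadm : Admissible F G N) {p : ℕ}
    (hp : p.Prime) : omegaN F G N p < p := by
  classical
  by_contra hcon
  push Not at hcon
  apply hadm.2 p hp
  intro n
  have h1 : ((Finset.range p).filter fun a : ℕ =>
      (p : ℤ) ∣ ((∏ i, F i) * (C (N : ℤ) - G)).eval (a : ℤ)) = Finset.range p := by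
    refine eq_of_subset_of_card_le (filter_subset _ _) ?_
    rw [card_range]
    exact hcon
  have hp0 : (0 : ℤ) < p := by exact_mod_cast hp.pos
  set a : ℕ := (n % p).toNat with ha
  have ha0 : 0 ≤ n % (p : ℤ) := Int.emod_nonneg _ hp0.ne'
  have ha1 : n % (p : ℤ) < p := Int.emod_lt_of_pos _ hp0
  have haa : (a : ℤ) = n % p := Int.toNat_of_nonneg ha0
  have hmem : a ∈ Finset.range p := by
    rw [Finset.mem_range]
    omega
  rw [← h1, mem_filter] at hmem
  have h2 : (p : ℤ) ∣ n - (a : ℤ) := by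
    rw [haa]
    exact Int.dvd_self_sub_emod
  have h3 := h2.trans (Polynomial.sub_dvd_eval_sub n (a : ℤ) ((∏ i, F i) * (C (N : ℤ) - G)))
  have := dvd_add h3 hmem.2
  simpa using this


end Pool.Agent.Lib.H59
end
end

-- from Lib.H33B.SR2
section

/-!
# Chunk SR2: moments of the truncated singular series
-/

open Finset Polynomial

namespace Pool.Agent.Lib.H33B

open Pool.Agent.Lib.H59 (omegaN seriesTrunc rootCount)

variable {g : ℕ}

theorem SR2_crt2 {m n : ℕ} (hmn : m.Coprime n) (hm : 0 < m) (hn : 0 < n) (A B : ℕ → ℝ)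
    (hA : ∀ b, A (b % m) = A b) (hB : ∀ b, B (b % n) = B b) :
    ∑ N ∈ range (m * n), A N * B N = (∑ a ∈ range m, A a) * ∑ b ∈ range n, B b := by
  rw [sum_mul_sum, ← sum_product']
  refine sum_bij (fun a _ => (a % m, a % n)) ?_ ?_ ?_ ?_
  · intro a _
    rw [mem_product, mem_range, mem_range]
    exact ⟨Nat.mod_lt _ hm, Nat.mod_lt _ hn⟩
  · intro a ha b hb hab
    rw [mem_range] at ha hb
    rw [Prod.mk.injEq] at hab
    have h : a ≡ b [MOD m * n] := (Nat.modEq_and_modEq_iff_modEq_mul hmn).mp hab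
    have h' : a % (m * n) = b % (m * n) := h
    rwa [Nat.mod_eq_of_lt ha, Nat.mod_eq_of_lt hb] at h'
  · intro b hb
    rw [mem_product, mem_range, mem_range] at hb
    obtain ⟨hb1, hb3⟩ := hb
    obtain ⟨c, hc1, hc2⟩ := Nat.chineseRemainder hmn b.1 b.2
    have e1 : c % (m * n) % m = b.1 := by
      rw [Nat.mod_mul_right_mod]
      have : c % m = b.1 % m := hc1
      rw [this, Nat.mod_eq_of_lt hb1]
    have e2 : c % (m * n) % n = b.2 := by
      rw [Nat.mod_mul_left_mod]
      have : c % n = b.2 % n := hc2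
      rw [this, Nat.mod_eq_of_lt hb3]
    refine ⟨c % (m * n), ?_, by rw [e1, e2]⟩
    rw [mem_range]
    exact Nat.mod_lt _ (Nat.mul_pos hm hn)
  · intro a _
    simp only
    rw [hA, hB]

theorem SR2_crt (s : Finset ℕ) (hs : ∀ p ∈ s, p.Prime) (f : ℕ → ℕ → ℝ)
    (hper : ∀ p N, f p (N % p) = f p N) :
    ∑ N ∈ range (∏ p ∈ s, p), ∏ p ∈ s, f p N = ∏ p ∈ s, ∑ a ∈ range p, f p a := by
  classical
  induction s using Finset.induction_on with
  | empty => simp
  | insert p s hp ih =>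
    rw [prod_insert hp, prod_insert hp]
    have hpp : p.Prime := hs p (mem_insert_self _ _)
    have hs' : ∀ q ∈ s, q.Prime := fun q hq => hs q (mem_insert_of_mem hq)
    have hcop : p.Coprime (∏ q ∈ s, q) := by
      refine Nat.Coprime.prod_right fun q hq => ?_
      refine (Nat.coprime_primes hpp (hs' q hq)).mpr ?_
      rintro rfl
      exact hp hq
    rw [← ih hs', ← SR2_crt2 hcop hpp.pos (prod_pos fun q hq => (hs' q hq).pos) (f p)
      (fun N => ∏ q ∈ s, f q N) (hper p) ?_]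
    · refine sum_congr rfl fun N _ => ?_
      rw [prod_insert hp]
    · intro b
      refine prod_congr rfl fun q hq => ?_
      have h1 : q ∣ ∏ q ∈ s, q := dvd_prod_of_mem _ hq
      rw [← hper q (b % ∏ q ∈ s, q), Nat.mod_mod_of_dvd _ h1, hper]

/-- Mean of a product of functions of `N` modulo the primes `p < w` (Chinese remainder theorem):
over a full period the mean is the product of the means; `[1,Y]` is covered by at most
`Y/P + 1 ≤ 2Y/P` periods. -/
theorem mean_prod (w Y : ℕ) (hY : PW w ≤ Y) (f : ℕ → ℕ → ℝ) (hf : ∀ p N, 0 ≤ f p N)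
    (hper : ∀ p N, f p (N % p) = f p N) :
    ∑ N ∈ Icc 1 Y, ∏ p ∈ Nat.primesBelow w, f p N ≤
      2 * Y * ∏ p ∈ Nat.primesBelow w, ((∑ a ∈ range p, f p a) / p) := by
  set P := PW w with hP
  have hPn : 0 < P := PW_pos w
  have hP0 : (0 : ℝ) < P := by exact_mod_cast hPn
  set F : ℕ → ℝ := fun N => ∏ p ∈ Nat.primesBelow w, f p N with hF
  have hF0 : ∀ N, 0 ≤ F N := fun N => prod_nonneg fun p _ => hf p N
  have hFper : ∀ N, F (N % P) = F N := by
    intro N
    rw [hF]
    simp only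
    refine prod_congr rfl fun p hp => ?_
    have h1 : p ∣ P := by
      rw [hP]
      unfold PW
      exact dvd_prod_of_mem _ hp
    rw [← hper p (N % P), Nat.mod_mod_of_dvd _ h1, hper]
  have h1 : ∑ N ∈ Icc 1 Y, F N = ∑ i ∈ range Y, F (1 + i) := by
    have h2 : Icc 1 Y = Ico 1 (1 + Y) := by
      ext N
      simp only [mem_Icc, mem_Ico]
      omega
    rw [h2, sum_Ico_eq_sum_range]
    congr 2
    omega
  have h2 : ∑ i ∈ range Y, F (1 + i) ≤ ∑ i ∈ range (P * (Y / P + 1)), F (1 + i) := by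
    refine sum_le_sum_of_subset_of_nonneg ?_ fun i _ _ => hF0 _
    refine range_subset_range.mpr ?_
    have h3 := Nat.div_add_mod Y P
    have h4 := Nat.mod_lt Y hPn
    nlinarith
  have h3 : ∑ i ∈ range P, F i = ∏ p ∈ Nat.primesBelow w, ∑ a ∈ range p, f p a := by
    rw [hP]
    unfold PW
    exact SR2_crt _ (fun p hp => Nat.prime_of_mem_primesBelow hp) f hper
  have h4 : ∏ p ∈ Nat.primesBelow w, ∑ a ∈ range p, f p a =
      P * ∏ p ∈ Nat.primesBelow w, ((∑ a ∈ range p, f p a) / p) := by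
    rw [prod_div_distrib]
    have h5 : (P : ℝ) = ∏ p ∈ Nat.primesBelow w, (p : ℝ) := by
      rw [hP]
      unfold PW
      push_cast
      rfl
    rw [← h5]
    field_simp
  have h5 : ((Y / P + 1 : ℕ) : ℝ) * P ≤ 2 * Y := by
    have h6 : (Y / P + 1) * P ≤ 2 * Y := by
      have := Nat.div_mul_le_self Y P
      nlinarith
    exact_mod_cast h6
  have h6 : 0 ≤ ∏ p ∈ Nat.primesBelow w, ((∑ a ∈ range p, f p a) / p) :=
    prod_nonneg fun p _ => div_nonneg (sum_nonneg fun a _ => hf p a) (by positivity)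
  change ∑ N ∈ Icc 1 Y, F N ≤ _
  rw [h1]
  refine h2.trans ?_
  rw [SR4_per_mul P F hFper, h3, h4, ← mul_assoc]
  exact mul_le_mul_of_nonneg_right h5 h6










end Pool.Agent.Lib.H33B
end

-- from Lib.H92G.Defs
section

/-!
# H92G: definitions

Weights with form dependent one form functions. `ι` = index type of the primes, `J` = index type of
the forms `b j + M t`, `I` = labels. `ex`, `EX`, `bw`, `cnt`, `adm`, `hit`, `qq`, `Forms`, `EP`,
`Lev`, `LevS` are those of `Lib/H15P/Defs`; `PC`, `p0`, `v` those of `Lib/H68T/Defs`.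
-/

open Finset

namespace Pool.Agent.Lib.H92G

open Pool.Agent.Lib.H15P

/-! ## Weights (Part II) -/

/-- Factor of the form `j` with the label `o`. -/
noncomputable def dg {ι J I : Type} (D : J → I → Finset ι → ℝ) (j : J) :
    Option I → Finset ι → ℝ
  | none, _ => 1
  | some i, A => D j i A

/-- Sum over the labelings of `s` with coefficients `w`. -/
noncomputable def LW {ι J I : Type} [Fintype J] (D : J → I → Finset ι → ℝ)
    (s : Finset (J → Option I)) (w : (J → Option I) → ℝ) (S : J → Finset ι) : ℝ :=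
  ∑ l ∈ s, w l * ∏ j, dg D j (l j) (S j)

/-- The weight function (before squaring). -/
noncomputable def LG {ι J I : Type} [Fintype J] [DecidableEq J] [Fintype I] [DecidableEq I]
    (D : J → I → Finset ι → ℝ) (m : I → ℕ) (B : Finset J) (S : J → Finset ι) : ℝ :=
  LW D (adm B m) (fun _ => 1) S

/-- Second moments of the factors of the form `j`. -/
noncomputable def GJ {ι J I : Type} [Fintype ι] [DecidableEq ι] (q : ι → ℝ)
    (D : J → I → Finset ι → ℝ) (j : J) : Option I → ℝ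
  | none => 1
  | some i => ex q (fun A => D j i A ^ 2)

/-- Total weight of all labelings of `B`. -/
noncomputable def ZG {ι J I : Type} [Fintype ι] [DecidableEq ι] [Fintype I] (q : ι → ℝ)
    (D : J → I → Finset ι → ℝ) (B : Finset J) : ℝ :=
  ∏ j ∈ B, (1 + ∑ i, GJ q D j (some i))

/-- The hypotheses on the one form functions `D j i` (some of them may be `0`). -/
structure GoodJ {ι J I : Type} [Fintype ι] [DecidableEq ι] (q : ι → ℝ)
    (D : J → I → Finset ι → ℝ) (h : ℝ) : Prop where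
  q0 : ∀ i, 0 ≤ q i
  q1 : ∀ i, q i ≤ 1
  mean : ∀ j i, ex q (D j i) = 0
  orth : ∀ j i i', i ≠ i' → ex q (fun A => D j i A * D j i' A) = 0
  sq : ∀ j i, ex q (fun A => D j i A ^ 2) ≤ h
  fourth : ∀ j i, ex q (fun A => D j i A ^ 4) ≤ h

/-- Coefficient of the labeling `l` (outside `Z`) if no prime divides the forms of `Z`: sum over
the labelings `o` of `Z` such that `l` and `o` together are admissible. -/
noncomputable def wZ {ι J I : Type} [Fintype J] [DecidableEq J] [Fintype I] [DecidableEq I]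
    (D : J → I → Finset ι → ℝ) (m : I → ℕ) (Z : Finset J) (l : J → Option I) : ℝ :=
  ∑ o ∈ univ.filter (fun o : J → Option I => (∀ j, j ∉ Z → o j = none) ∧
      ∀ i, cnt l i + cnt o i ≤ m i), ∏ j ∈ Z, dg D j (o j) ∅


/-- The weight of a prime `m`: `log m v(m)/m`, `0` if `m` is not a prime. -/
noncomputable def lpv (X m : ℕ) : ℝ :=
  if m.Prime then Real.log m * H68T.v X m / m else 0






end Pool.Agent.Lib.H92G
end

-- from Lib.H92G.WG
section

/-!
# The data of the weights for one value of `x`, the weight `nu`, the classes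
-/

open Finset

namespace Pool.Agent.Lib.H92G

open Pool.Agent.Lib.H15P

/-- All data of the weight function and the inequalities between them. `KA` = bound for the number
of allowed forms, `K` = bound for the number of all forms. Allowed forms (`true`) use the labels
`inl i`, disallowed forms (`false`) the labels `inr i`. -/
structure WG where
  P : Finset ℕ
  W : ℕ
  KA : ℕ
  K : ℕ
  nA : ℕ
  nD : ℕ
  DJ : Bool → (Fin nA ⊕ Fin nD) → Finset {p // p ∈ P} → ℝ
  m : (Fin nA ⊕ Fin nD) → ℕ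
  R : (Fin nA ⊕ Fin nD) → ℝ
  lm : Finset {p // p ∈ P} → ℝ
  cA : ℝ
  h : ℝ
  C : ℝ
  lv : ℝ
  e : ℝ
  el : ℝ
  prime : ∀ p ∈ P, p.Prime
  big : ∀ p ∈ P, W < p
  nDpos : 0 < nD
  Kpos : 1 ≤ K
  KW : 4 * K ^ 2 ≤ W
  cA0 : 0 ≤ cA
  good : GoodJ (qq P K) DJ h
  h0 : 0 ≤ h
  trl : ∀ i, DJ true (Sum.inl i) ∅ = cA
  trr : ∀ i A, DJ true (Sum.inr i) A = 0
  fll : ∀ i A, DJ false (Sum.inl i) A = 0
  flr : ∀ i, DJ false (Sum.inr i) ∅ = -1 / (nD : ℝ)
  hm : ∀ i, 2 * (KA * GJ (qq P K) DJ true (some i) + K * GJ (qq P K) DJ false (some i)) + R i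
    ≤ m i
  hR : ∑ i, Real.exp (-R i) ≤ 1 / 4
  hG : ∀ a, ∑ i, GJ (qq P K) DJ a (some i) ≤ 1
  lm0 : ∀ A, 0 ≤ lm A
  lm1 : lm ∅ = 1
  lmel : ex (qq P K) lm ≤ el
  el0 : 0 < el
  el1 : el ≤ 1
  e0 : 0 < e
  e1 : e ≤ 1 / 10
  hlm : K * (∑ i : Fin nD, Real.exp (-R (Sum.inr i))) * el ≤ e
  hC : Real.exp ((((nA + nD : ℕ) : ℝ) + 1) ^ 4 * h * K) ≤ C
  hKW : Real.exp (2 * (K : ℝ) ^ 2 / W) ≤ 1 + e
  lv1 : 1 ≤ lv
  levL : ∀ (J : Type) [Fintype J] [DecidableEq J] (al : J → Bool) (B : Finset J) (M : ℕ)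
    (b : J → ℕ) (wt : (J → Option (Fin nA ⊕ Fin nD)) → ℝ),
    Fintype.card J ≤ K → (∀ l, |wt l| ≤ 1) →
      Lev (∏ p ∈ P, p)
        (fun t => LW (fun j => DJ (al j)) (adm B m) wt (fun j => hit P (b j + M * t))) lv
  levlm : LevS P lm lv

/-- The factors of the forms `b + M t`, `b ∈ B`, if the elements of `A` are allowed. -/
def WG.Df (w : WG) (A B : Finset ℕ) :
    {b // b ∈ B} → (Fin w.nA ⊕ Fin w.nD) → Finset {p // p ∈ w.P} → ℝ :=
  fun j => w.DJ (decide (j.1 ∈ A))

/-- The weight at `t` of the system of the forms `b + M t`, `b ∈ B`. -/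
noncomputable def WG.nu (w : WG) (A B : Finset ℕ) (M t : ℕ) : ℝ :=
  LG (w.Df A B) w.m univ (fun j : {b // b ∈ B} => hit w.P (j.1 + M * t)) ^ 2 /
    ZG (qq w.P w.K) (w.Df A B) univ

/-- The value `1 + nA cA`: the gain at a prime of an allowed form. -/
noncomputable def WG.g (w : WG) : ℝ := 1 + w.nA * w.cA

/-- Hypotheses on a system of forms. -/
structure WG.Sys (w : WG) (A B : Finset ℕ) (M : ℕ) : Prop where
  AB : A ⊆ B
  cardA : A.card ≤ w.KA
  cardB : B.card ≤ w.K
  dist : ∀ b ∈ B, ∀ b' ∈ B, b ≤ b' + w.W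
  cop : ∀ p ∈ w.P, ¬ p ∣ M

/-- Hypothesis on the length of the sums. -/
def WG.Long (w : WG) (Y : ℕ) : Prop := 8 * w.K * w.g ^ 4 * w.lv ^ 4 ≤ w.e * w.el ^ 2 * Y

end Pool.Agent.Lib.H92G
end

-- from Lib.Helper57.PairCount
section

/-!
# Counting primes and pairs of primes in short intervals, and moments of `h / φ(h)`
-/

namespace Pool.Agent.Lib.Helper57

open Finset Pool.Agent.Lib.Sieve

/-- `h / φ(h)`, written as a product over the prime factors. -/
noncomputable def G (h : ℕ) : ℝ := ∏ p ∈ h.primeFactors, (1 - 1 / (p : ℝ))⁻¹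
















end Pool.Agent.Lib.Helper57
end

-- from Lib.H92G.CDefs
section

/-!
# Definitions for the second half: the modulus, the classes, the allowed intervals
-/

open Finset

namespace Pool.Agent.Lib.H92G

open Pool.Agent.Lib.H15P


/-- The numbers `a + h`, `h ∈ S`, which are prime to `M`. -/
def Ac (M : ℕ) (S : Finset ℕ) (a : ℕ) : Finset ℕ :=
  (S.filter (fun h => (a + h).Coprime M)).image (fun h => a + h)



/-- The class of `a` is good: not too many forms, `S` = allowed shifts. -/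
def okc (w : WG) (M H : ℕ) (S : Finset ℕ) (a : ℕ) : Prop :=
  (Ac M S a).card ≤ w.KA ∧ (Ac M (Icc 1 H) a).card ≤ w.K

instance (w : WG) (M H : ℕ) (S : Finset ℕ) (a : ℕ) : Decidable (okc w M H S a) := by
  unfold okc; infer_instance


/-- `n + h` is prime to `M` and to the primes of `P`. -/
def rg (w : WG) (M n h : ℕ) : Prop := (n + h).Coprime M ∧ hit w.P (n + h) = ∅

instance (w : WG) (M n h : ℕ) : Decidable (rg w M n h) := by
  unfold rg; infer_instance



/-- Hypotheses on the classes. -/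
structure CS (w : WG) (M H Y : ℕ) (S : Finset ℕ) : Prop where
  M0 : 0 < M
  sqf : Squarefree M
  SH : S ⊆ Icc 1 H
  HW : H ≤ w.W
  cop : ∀ p ∈ w.P, ¬ p ∣ M
  long : w.Long Y





end Pool.Agent.Lib.H92G
end

-- from Lib.H92G.G0
section

/-!
# Chunk G0: sums over labelings with form dependent factors, tails

Compare `H15P/PB3` (`sum_supp`, `tail_supp`: the same with factors independent of the form).
-/

open Finset

namespace Pool.Agent.Lib.H92G

open Pool.Agent.Lib.H15P

variable {J I : Type} [Fintype J] [DecidableEq J] [Fintype I] [DecidableEq I]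

/-- `Finset.prod_univ_sum` with the sets `univ` (`j ∈ B`) and `{none}` (`j ∉ B`). -/
theorem sum_suppJ (a : J → Option I → ℝ) (h0 : ∀ j, a j none = 1) (B : Finset J) :
    ∑ l ∈ univ.filter (fun l : J → Option I => ∀ j, j ∉ B → l j = none), ∏ j, a j (l j)
      = ∏ j ∈ B, (1 + ∑ i, a j (some i)) := by
  classical
  set t : J → Finset (Option I) := fun j => if j ∈ B then univ else {none} with ht
  have h1 : univ.filter (fun l : J → Option I => ∀ j, j ∉ B → l j = none) =
      Fintype.piFinset t := by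
    ext l
    simp only [mem_filter, mem_univ, true_and, Fintype.mem_piFinset, ht]
    constructor
    · intro h j
      by_cases hj : j ∈ B
      · rw [if_pos hj]; exact mem_univ _
      · rw [if_neg hj, mem_singleton]; exact h j hj
    · intro h j hj
      have := h j
      rw [if_neg hj, mem_singleton] at this
      exact this
  rw [h1, ← Finset.prod_univ_sum t (fun j o => a j o)]
  have h2 : ∀ j, ∑ o ∈ t j, a j o = if j ∈ B then (1 + ∑ i, a j (some i)) else 1 := by
    intro j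
    by_cases hj : j ∈ B
    · simp only [ht, if_pos hj]
      rw [Fintype.sum_option, h0]
    · simp only [ht, if_neg hj, sum_singleton, h0]
  rw [Finset.prod_congr rfl (fun j _ => h2 j), Finset.prod_ite_mem, Finset.univ_inter]



end Pool.Agent.Lib.H92G
end

-- from Lib.H92G.G1
section

/-!
# Chunk G1: second moments

Compare `H15P/PB2` (`ex_dd_dd`, `EX_sq_mul`).
-/

open Finset

namespace Pool.Agent.Lib.H92G

open Pool.Agent.Lib.H15P

variable {ι J I : Type} [Fintype ι] [DecidableEq ι] [Fintype J] [DecidableEq J] [Fintype I]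
  [DecidableEq I]

omit [Fintype J] [DecidableEq J] [Fintype I] in
/-- Mean `0`, orthogonality. -/
theorem ex_dg_dg (q : ι → ℝ) (D : J → I → Finset ι → ℝ) (h : ℝ) (hg : GoodJ q D h) (j : J)
    (o o' : Option I) :
    ex q (fun A => dg D j o A * dg D j o' A) = if o = o' then GJ q D j o else 0 := by
  rcases o with _ | i <;> rcases o' with _ | i'
  · simp only [dg, mul_one, if_true, GJ]
    exact ex_one q
  · simp only [dg, one_mul, reduceCtorEq, if_false]
    exact hg.mean j i'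
  · simp only [dg, mul_one, reduceCtorEq, if_false]
    exact hg.mean j i
  · simp only [dg, Option.some.injEq, GJ]
    by_cases hii : i = i'
    · subst hii
      rw [if_pos rfl]
      congr 1
      funext A
      ring
    · rw [if_neg hii]
      exact hg.orth j i i' hii

omit [Fintype J] [DecidableEq J] [Fintype I] [DecidableEq I] in
theorem GJ_nonneg (q : ι → ℝ) (D : J → I → Finset ι → ℝ) (h : ℝ) (hg : GoodJ q D h) (j : J)
    (o : Option I) : 0 ≤ GJ q D j o := by
  rcases o with _ | i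
  · exact zero_le_one
  · exact ex_nonneg q hg.q0 hg.q1 _ fun A => sq_nonneg _

omit [DecidableEq I] in
theorem one_le_ZG (q : ι → ℝ) (D : J → I → Finset ι → ℝ) (h : ℝ) (hg : GoodJ q D h)
    (B : Finset J) : 1 ≤ ZG q D B := by
  unfold ZG
  have h1 : ∀ j ∈ B, (1 : ℝ) ≤ 1 + ∑ i, GJ q D j (some i) := by
    intro j _
    have : 0 ≤ ∑ i, GJ q D j (some i) := Finset.sum_nonneg fun i _ => GJ_nonneg q D h hg j _
    linarith
  calc (1 : ℝ) = ∏ _j ∈ B, 1 := Finset.prod_const_one.symm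
    _ ≤ ∏ j ∈ B, (1 + ∑ i, GJ q D j (some i)) :=
        Finset.prod_le_prod (fun _ _ => zero_le_one) h1

omit [DecidableEq I] in
theorem ZG_mono (q : ι → ℝ) (D : J → I → Finset ι → ℝ) (h : ℝ) (hg : GoodJ q D h)
    {B B' : Finset J} (hB : B ⊆ B') : ZG q D B ≤ ZG q D B' := by
  unfold ZG
  have h1 : ∀ j, (1 : ℝ) ≤ 1 + ∑ i, GJ q D j (some i) := by
    intro j
    have : 0 ≤ ∑ i, GJ q D j (some i) := Finset.sum_nonneg fun i _ => GJ_nonneg q D h hg j _
    linarith
  apply Finset.prod_le_prod_of_subset_of_one_le hB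
  · intro j _
    exact zero_le_one.trans (h1 j)
  · intro j _ _
    exact h1 j

/-- Square out, exchange, `EX_prod`; for `l ≠ l'` some factor `ex_dg_dg` is `0` (at the forms of
`Z` both labels are `none`, the factor is `ex F`). -/
theorem EX_LW_sq_mul (q : ι → ℝ) (D : J → I → Finset ι → ℝ) (h : ℝ) (hg : GoodJ q D h)
    (s : Finset (J → Option I)) (w : (J → Option I) → ℝ) (Z : Finset J)
    (hZ : ∀ l ∈ s, ∀ j ∈ Z, l j = none) (F : Finset ι → ℝ) :
    EX q (fun S : J → Finset ι => LW D s w S ^ 2 * ∏ j ∈ Z, F (S j))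
      = (∑ l ∈ s, w l ^ 2 * ∏ j, GJ q D j (l j)) * ex q F ^ Z.card := by
  have h1 : ∀ S : J → Finset ι,
      LW D s w S ^ 2 * ∏ j ∈ Z, F (S j) =
      ∑ l ∈ s, ∑ l' ∈ s, w l * w l' * ∏ j,
        (dg D j (l j) (S j) * dg D j (l' j) (S j) * if j ∈ Z then F (S j) else 1) := by
    intro S
    unfold LW
    rw [sq, sum_mul_sum, sum_mul]
    refine sum_congr rfl fun l _ => ?_
    rw [sum_mul]
    refine sum_congr rfl fun l' _ => ?_
    rw [prod_mul_distrib, prod_mul_distrib]
    have e : ∏ j, (if j ∈ Z then F (S j) else 1) = ∏ j ∈ Z, F (S j) := by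
      rw [Finset.prod_ite_mem, Finset.univ_inter]
    rw [e]
    ring
  simp only [h1]
  rw [EX_sum, sum_mul]
  refine sum_congr rfl fun l hl => ?_
  rw [EX_sum]
  have h3 : ∀ l' ∈ s, EX q (fun S : J → Finset ι => w l * w l' * ∏ j,
      (dg D j (l j) (S j) * dg D j (l' j) (S j) * if j ∈ Z then F (S j) else 1)) =
      if l' = l then w l ^ 2 * (∏ j, GJ q D j (l j)) * ex q F ^ Z.card else 0 := by
    intro l' hl'
    rw [EX_const_mul, EX_prod q (fun j A => dg D j (l j) A * dg D j (l' j) A *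
      if j ∈ Z then F A else 1)]
    by_cases hll : l' = l
    · subst hll
      rw [if_pos rfl]
      have e2 : ∏ j, ex q (fun A => dg D j (l' j) A * dg D j (l' j) A *
          if j ∈ Z then F A else 1) =
          ∏ j, (GJ q D j (l' j) * if j ∈ Z then ex q F else 1) := by
        refine prod_congr rfl fun j _ => ?_
        by_cases hj : j ∈ Z
        · rw [if_pos hj, hZ l' hl' j hj]
          have e3 : (fun A => dg D j none A * dg D j none A * if j ∈ Z then F A else 1) = F := by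
            funext A
            rw [if_pos hj]
            simp [dg]
          rw [e3]
          simp [GJ]
        · rw [if_neg hj, mul_one]
          have e3 : (fun A => dg D j (l' j) A * dg D j (l' j) A * if j ∈ Z then F A else 1) =
              fun A => dg D j (l' j) A * dg D j (l' j) A := by
            funext A
            rw [if_neg hj, mul_one]
          rw [e3, ex_dg_dg q D h hg, if_pos rfl]
      rw [e2, prod_mul_distrib, Finset.prod_ite_mem, Finset.univ_inter, Finset.prod_const]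
      ring
    · rw [if_neg hll]
      obtain ⟨j, hj⟩ := Function.ne_iff.1 hll
      have hjZ : j ∉ Z := by
        intro hjZ
        exact hj (by rw [hZ l hl j hjZ, hZ l' hl' j hjZ])
      have e1 : ex q (fun A => dg D j (l j) A * dg D j (l' j) A * if j ∈ Z then F A else 1) =
          0 := by
        have e3 : (fun A => dg D j (l j) A * dg D j (l' j) A * if j ∈ Z then F A else 1) =
            fun A => dg D j (l j) A * dg D j (l' j) A := by
          funext A
          rw [if_neg hjZ, mul_one]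
        rw [e3, ex_dg_dg q D h hg, if_neg (fun hh => hj hh.symm)]
      rw [prod_eq_zero (mem_univ j) e1, mul_zero]
  rw [sum_congr rfl h3, sum_ite_eq' s l, if_pos hl]


end Pool.Agent.Lib.H92G
end

-- from Lib.H92G.G3
section

/-!
# Chunk G3: configurations where no prime divides the forms of `Z`
-/

open Finset

namespace Pool.Agent.Lib.H92G

open Pool.Agent.Lib.H15P

variable {ι J I : Type} [Fintype J] [DecidableEq J] [Fintype I] [DecidableEq I]

omit [DecidableEq J] [Fintype I] in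
theorem g3_cnt (Z : Finset J) (L l o : J → Option I) (h1 : ∀ j ∈ Z, l j = none)
    (h2 : ∀ j, j ∉ Z → l j = L j) (h3 : ∀ j ∈ Z, o j = L j) (h4 : ∀ j, j ∉ Z → o j = none) (i : I) :
    cnt L i = cnt l i + cnt o i := by
  classical
  unfold cnt
  rw [← Finset.card_union_of_disjoint]
  · congr 1
    ext j
    simp only [mem_union, mem_filter, mem_univ, true_and]
    by_cases hj : j ∈ Z
    · rw [h1 j hj, h3 j hj]
      simp
    · rw [h2 j hj, h4 j hj]
      simp
  · rw [Finset.disjoint_left]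
    intro j hj hj'
    simp only [mem_filter, mem_univ, true_and] at hj hj'
    by_cases hjZ : j ∈ Z
    · rw [h1 j hjZ] at hj
      simp at hj
    · rw [h4 j hjZ] at hj'
      simp at hj'

/-- A labeling `L ∈ adm B m` is the same as a pair (`l` = `L` outside `Z`, `none` in `Z`; `o` = `L`
in `Z`, `none` outside `Z`) with `l` supported in `B \ Z`, `o` supported in `Z` and
`cnt L = cnt l + cnt o ≤ m`; then `l ∈ adm (B \ Z) m`. The product over all `j` of the factors of `L`
is the product of the factors of `l` over all `j` (`1` on `Z`) times the product of the factors of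
`o` over `Z`, where `S j = ∅`. -/
theorem LG_restrict (D : J → I → Finset ι → ℝ) (m : I → ℕ) (B Z : Finset J) (hZ : Z ⊆ B)
    (S : J → Finset ι) (hS : ∀ j ∈ Z, S j = ∅) :
    LG D m B S = LW D (adm (B \ Z) m) (wZ D m Z) S := by
  classical
  unfold LG LW wZ
  simp only [one_mul]
  have e1 : ∀ l : J → Option I, (∑ o ∈ univ.filter (fun o : J → Option I =>
      (∀ j, j ∉ Z → o j = none) ∧ ∀ i, cnt l i + cnt o i ≤ m i), ∏ j ∈ Z, dg D j (o j) ∅) *
      ∏ j, dg D j (l j) (S j) =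
      ∑ o ∈ univ.filter (fun o : J → Option I =>
      (∀ j, j ∉ Z → o j = none) ∧ ∀ i, cnt l i + cnt o i ≤ m i),
        (∏ j ∈ Z, dg D j (o j) ∅) * ∏ j, dg D j (l j) (S j) := fun l => Finset.sum_mul _ _ _
  rw [Finset.sum_congr rfl (fun l _ => e1 l), Finset.sum_sigma']
  refine Finset.sum_bij' (fun L _ => ⟨fun j => if j ∈ Z then none else L j,
    fun j => if j ∈ Z then L j else none⟩) (fun p _ => fun j => if j ∈ Z then p.2 j else p.1 j)
    ?_ ?_ ?_ ?_ ?_
  · intro L hL
    unfold adm at hL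
    rw [mem_filter] at hL
    have hc := fun i => g3_cnt Z L (fun j => if j ∈ Z then none else L j)
      (fun j => if j ∈ Z then L j else none) (fun j hj => if_pos hj) (fun j hj => if_neg hj)
      (fun j hj => if_pos hj) (fun j hj => if_neg hj) i
    rw [mem_sigma]
    constructor
    · unfold adm
      rw [mem_filter]
      refine ⟨mem_univ _, ?_, ?_⟩
      · intro j hj
        show (if j ∈ Z then none else L j) = none
        by_cases hjZ : j ∈ Z
        · rw [if_pos hjZ]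
        · rw [if_neg hjZ]
          apply hL.2.1
          intro hjB
          exact hj (mem_sdiff.2 ⟨hjB, hjZ⟩)
      · intro i
        have := hL.2.2 i
        rw [hc i] at this
        show cnt (fun j => if j ∈ Z then none else L j) i ≤ m i
        omega
    · rw [mem_filter]
      refine ⟨mem_univ _, fun j hj => if_neg hj, ?_⟩
      intro i
      have := hL.2.2 i
      rw [hc i] at this
      exact this
  · rintro ⟨l, o⟩ hp
    rw [mem_sigma] at hp
    obtain ⟨hl, ho⟩ := hp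
    simp only at hl ho
    unfold adm at hl
    rw [mem_filter] at hl ho
    have hl0 : ∀ j ∈ Z, l j = none := fun j hj => hl.2.1 j (fun h => (mem_sdiff.1 h).2 hj)
    have hc := fun i => g3_cnt Z (fun j => if j ∈ Z then o j else l j) l o hl0
      (fun j hj => (if_neg hj).symm) (fun j hj => (if_pos hj).symm) ho.2.1 i
    unfold adm
    rw [mem_filter]
    refine ⟨mem_univ _, ?_, ?_⟩
    · intro j hj
      show (if j ∈ Z then o j else l j) = none
      have hjZ : j ∉ Z := fun h => hj (hZ h)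
      rw [if_neg hjZ]
      exact hl.2.1 j (fun h => hj (mem_sdiff.1 h).1)
    · intro i
      show cnt (fun j => if j ∈ Z then o j else l j) i ≤ m i
      rw [hc i]
      exact ho.2.2 i
  · intro L hL
    funext j
    show (if j ∈ Z then (if j ∈ Z then L j else none) else (if j ∈ Z then none else L j)) = L j
    by_cases hj : j ∈ Z
    · rw [if_pos hj, if_pos hj]
    · rw [if_neg hj, if_neg hj]
  · rintro ⟨l, o⟩ hp
    rw [mem_sigma] at hp
    obtain ⟨hl, ho⟩ := hp
    simp only at hl ho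
    unfold adm at hl
    rw [mem_filter] at hl ho
    have hl0 : ∀ j ∈ Z, l j = none := fun j hj => hl.2.1 j (fun h => (mem_sdiff.1 h).2 hj)
    have e2 : (fun j => if j ∈ Z then none else if j ∈ Z then o j else l j) = l := by
      funext j
      by_cases hj : j ∈ Z
      · rw [if_pos hj, hl0 j hj]
      · rw [if_neg hj, if_neg hj]
    have e3 : (fun j => if j ∈ Z then (if j ∈ Z then o j else l j) else none) = o := by
      funext j
      by_cases hj : j ∈ Z
      · rw [if_pos hj, if_pos hj]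
      · rw [if_neg hj, ho.2.1 j hj]
    simp only [e2, e3]
  · intro L hL
    show ∏ j, dg D j (L j) (S j) = (∏ j ∈ Z, dg D j (if j ∈ Z then L j else none) ∅) *
      ∏ j, dg D j (if j ∈ Z then none else L j) (S j)
    rw [← Finset.prod_mul_prod_compl Z (fun j => dg D j (L j) (S j)),
      ← Finset.prod_mul_prod_compl Z (fun j => dg D j (if j ∈ Z then none else L j) (S j))]
    have a1 : ∏ j ∈ Z, dg D j (if j ∈ Z then none else L j) (S j) = 1 := by
      apply Finset.prod_eq_one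
      intro j hj
      rw [if_pos hj]
      rfl
    have a2 : ∏ j ∈ Zᶜ, dg D j (if j ∈ Z then none else L j) (S j) =
        ∏ j ∈ Zᶜ, dg D j (L j) (S j) := by
      apply Finset.prod_congr rfl
      intro j hj
      rw [if_neg (mem_compl.1 hj)]
    have a3 : ∏ j ∈ Z, dg D j (if j ∈ Z then L j else none) ∅ =
        ∏ j ∈ Z, dg D j (L j) (S j) := by
      apply Finset.prod_congr rfl
      intro j hj
      rw [if_pos hj, hS j hj]
    rw [a1, a2, a3, one_mul]

/-- If the values `D j i ∅` are nonnegative (`j ∈ Z`), all terms are nonnegative and the sum is at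
most the sum over all labelings `o` supported in `Z`, which is the product
(`Finset.prod_univ_sum`, compare `sum_suppJ` in `G0`). -/
theorem wZ_bounds (D : J → I → Finset ι → ℝ) (m : I → ℕ) (Z : Finset J) (l : J → Option I)
    (hD : ∀ j ∈ Z, ∀ i, 0 ≤ D j i ∅) :
    0 ≤ wZ D m Z l ∧ wZ D m Z l ≤ ∏ j ∈ Z, (1 + ∑ i, D j i ∅) := by
  classical
  have h0 : ∀ o : J → Option I, 0 ≤ ∏ j ∈ Z, dg D j (o j) ∅ := by
    intro o
    apply Finset.prod_nonneg
    intro j hj
    cases o j with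
    | none => exact zero_le_one
    | some i => exact hD j hj i
  unfold wZ
  constructor
  · exact Finset.sum_nonneg fun o _ => h0 o
  · have h1 := sum_suppJ (fun j o => dg D j o ∅) (fun j => rfl) Z
    have h2 : ∏ j ∈ Z, (1 + ∑ i, D j i ∅) =
        ∑ o ∈ univ.filter (fun o : J → Option I => ∀ j, j ∉ Z → o j = none),
          ∏ j ∈ Z, dg D j (o j) ∅ := by
      refine h1.symm.trans ?_
      apply Finset.sum_congr rfl
      intro o ho
      rw [mem_filter] at ho
      rw [← Finset.prod_mul_prod_compl Z (fun j => dg D j (o j) ∅)]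
      have : ∏ j ∈ Zᶜ, dg D j (o j) ∅ = 1 := by
        apply Finset.prod_eq_one
        intro j hj
        rw [ho.2 j (mem_compl.1 hj)]
        rfl
      rw [this, mul_one]
    rw [h2]
    apply Finset.sum_le_sum_of_subset_of_nonneg
    · intro o ho
      rw [mem_filter] at ho ⊢
      exact ⟨ho.1, ho.2.1⟩
    · intro o _ _
      exact h0 o


end Pool.Agent.Lib.H92G
end

-- from Lib.H92G.G5
section

/-!
# Chunk G5: the main moments of the weight
-/

open Finset

namespace Pool.Agent.Lib.H92G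

open Pool.Agent.Lib.H15P

variable {ι J I : Type} [Fintype ι] [DecidableEq ι] [Fintype J] [DecidableEq J] [Fintype I]
  [DecidableEq I]

theorem g5_mem_adm {B : Finset J} {m : I → ℕ} {l : J → Option I} :
    l ∈ adm B m ↔ (∀ j, j ∉ B → l j = none) ∧ ∀ i, cnt l i ≤ m i := by
  unfold adm
  simp

theorem g5_prod_nonneg (q : ι → ℝ) (D : J → I → Finset ι → ℝ) (h : ℝ) (hg : GoodJ q D h)
    (l : J → Option I) : 0 ≤ ∏ j, GJ q D j (l j) :=
  Finset.prod_nonneg fun j _ => GJ_nonneg q D h hg j _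

/-- Sums over admissible labelings. -/
theorem g5_sum_adm_le (q : ι → ℝ) (D : J → I → Finset ι → ℝ) (h : ℝ) (hg : GoodJ q D h)
    (m : I → ℕ) (B : Finset J) : ∑ l ∈ adm B m, ∏ j, GJ q D j (l j) ≤ ZG q D B := by
  unfold ZG
  rw [← sum_suppJ (fun j o => GJ q D j o) (fun j => rfl) B]
  apply Finset.sum_le_sum_of_subset_of_nonneg
  · intro l hl
    rw [g5_mem_adm] at hl
    rw [mem_filter]
    exact ⟨mem_univ _, hl.1⟩
  · intro l _ _
    exact g5_prod_nonneg q D h hg l


/-- The majorant used if no prime divides the forms of `Z`: `EX_LW_sq_mul` with `F = lm`;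
`w^2 ≤ wm^2`; `sum_suppJ`; `ZG (B \ Z) ≤ ZG B`. -/
theorem EX_maj_le (q : ι → ℝ) (D : J → I → Finset ι → ℝ) (h : ℝ) (hg : GoodJ q D h)
    (m : I → ℕ) (B Z : Finset J) (wm : ℝ) (hw : ∀ l, |wZ D m Z l| ≤ wm)
    (lm : Finset ι → ℝ) (hlm : ∀ A, 0 ≤ lm A) :
    EX q (fun S : J → Finset ι => LW D (adm (B \ Z) m) (wZ D m Z) S ^ 2 * ∏ j ∈ Z, lm (S j))
      ≤ wm ^ 2 * ZG q D B * ex q lm ^ Z.card := by
  have hZ : ∀ l ∈ adm (B \ Z) m, ∀ j ∈ Z, l j = none := by
    intro l hl j hj
    rw [g5_mem_adm] at hl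
    exact hl.1 j (fun h => (mem_sdiff.1 h).2 hj)
  rw [EX_LW_sq_mul q D h hg (adm (B \ Z) m) (wZ D m Z) Z hZ lm]
  apply mul_le_mul_of_nonneg_right _ (pow_nonneg (ex_nonneg q hg.q0 hg.q1 _ hlm) _)
  calc ∑ l ∈ adm (B \ Z) m, wZ D m Z l ^ 2 * ∏ j, GJ q D j (l j)
      ≤ ∑ l ∈ adm (B \ Z) m, wm ^ 2 * ∏ j, GJ q D j (l j) := by
        apply Finset.sum_le_sum
        intro l _
        apply mul_le_mul_of_nonneg_right _ (g5_prod_nonneg q D h hg l)
        rw [← sq_abs]
        exact pow_le_pow_left₀ (abs_nonneg _) (hw l) 2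
    _ = wm ^ 2 * ∑ l ∈ adm (B \ Z) m, ∏ j, GJ q D j (l j) := by rw [Finset.mul_sum]
    _ ≤ wm ^ 2 * ZG q D B := by
        apply mul_le_mul_of_nonneg_left _ (sq_nonneg _)
        exact (g5_sum_adm_le q D h hg m _).trans (ZG_mono q D h hg sdiff_subset)





end Pool.Agent.Lib.H92G
end

-- from Lib.H92G.W1
section

/-!
# Chunk W1: basic facts on a system of forms, mean value and mean square of the weight

Compare `H15P/WIN1`, `H15P/WIN2`.
-/

open Finset

namespace Pool.Agent.Lib.H92G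

open Pool.Agent.Lib.H15P

/-- Distinct `b, b' ∈ B` differ by at most `W < p`. -/
theorem WG.Sys.forms {w : WG} {A B : Finset ℕ} {M : ℕ} (h : w.Sys A B M) :
    Forms w.P w.W w.K M (fun j : {b // b ∈ B} => j.1) := by
  refine ⟨w.prime, w.big, h.cop, ?_, w.Kpos, ?_, w.KW⟩
  · intro p hp j j' hne hm
    apply hne
    apply Subtype.ext
    have h1 := h.dist j.1 j.2 j'.1 j'.2
    have h2 := h.dist j'.1 j'.2 j.1 j.2
    have h3 := w.big p hp
    rcases le_total j.1 j'.1 with h4 | h4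
    · have h5 := (Nat.modEq_iff_dvd' h4).1 hm
      have h6 := Nat.eq_zero_of_dvd_of_lt h5 (by omega)
      omega
    · have h5 := (Nat.modEq_iff_dvd' h4).1 hm.symm
      have h6 := Nat.eq_zero_of_dvd_of_lt h5 (by omega)
      omega
  · rw [Fintype.card_coe]
    exact h.cardB

theorem WG.good_Df (w : WG) (A B : Finset ℕ) : GoodJ (qq w.P w.K) (w.Df A B) w.h where
  q0 := w.good.q0
  q1 := w.good.q1
  mean := fun _ i => w.good.mean _ i
  orth := fun _ i i' hi => w.good.orth _ i i' hi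
  sq := fun _ i => w.good.sq _ i
  fourth := fun _ i => w.good.fourth _ i

theorem WG.one_le_g (w : WG) : 1 ≤ w.g := by
  unfold WG.g
  have h1 := mul_nonneg (Nat.cast_nonneg w.nA : (0 : ℝ) ≤ w.nA) w.cA0
  linarith


theorem w1_GJ (w : WG) (A B : Finset ℕ) (j : {b // b ∈ B}) (o : Option (Fin w.nA ⊕ Fin w.nD)) :
    GJ (qq w.P w.K) (w.Df A B) j o = GJ (qq w.P w.K) w.DJ (decide (j.1 ∈ A)) o := by
  cases o <;> rfl

theorem w1_GJ_nonneg (w : WG) (a : Bool) (o : Option (Fin w.nA ⊕ Fin w.nD)) :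
    0 ≤ GJ (qq w.P w.K) w.DJ a o := GJ_nonneg _ _ _ w.good _ _

theorem w1_card_filter (A B : Finset ℕ) (hAB : A ⊆ B) :
    ((univ : Finset {b // b ∈ B}).filter (fun j => j.1 ∈ A)).card = A.card := by
  rw [← Finset.card_map (Function.Embedding.subtype (fun b => b ∈ B))]
  congr 1
  ext x
  simp only [Finset.mem_map, Finset.mem_filter, Finset.mem_univ, true_and,
    Function.Embedding.coe_subtype]
  constructor
  · rintro ⟨a, ha, rfl⟩
    exact ha
  · intro hx
    exact ⟨⟨x, hAB hx⟩, hx, rfl⟩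

/-- The sums of second moments: at most `KA` forms are allowed, at most `K` are not. -/
theorem WG.Sys.hm {w : WG} {A B : Finset ℕ} {M : ℕ} (h : w.Sys A B M)
    (i : Fin w.nA ⊕ Fin w.nD) :
    2 * ∑ j ∈ (univ : Finset {b // b ∈ B}), GJ (qq w.P w.K) (w.Df A B) j (some i) + w.R i
      ≤ w.m i := by
  refine le_trans ?_ (w.hm i)
  have h0 : ∑ j ∈ (univ : Finset {b // b ∈ B}), GJ (qq w.P w.K) (w.Df A B) j (some i) ≤
      w.KA * GJ (qq w.P w.K) w.DJ true (some i) + w.K * GJ (qq w.P w.K) w.DJ false (some i) := by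
    rw [← Finset.sum_filter_add_sum_filter_not (univ : Finset {b // b ∈ B}) (fun j => j.1 ∈ A)]
    have h1 : ∑ j ∈ (univ : Finset {b // b ∈ B}).filter (fun j => j.1 ∈ A),
        GJ (qq w.P w.K) (w.Df A B) j (some i) =
          (A.card : ℝ) * GJ (qq w.P w.K) w.DJ true (some i) := by
      rw [← w1_card_filter A B h.AB, ← nsmul_eq_mul]
      refine Finset.sum_eq_card_nsmul fun j hj => ?_
      rw [w1_GJ, decide_eq_true (Finset.mem_filter.1 hj).2]
    have h2 : ∑ j ∈ (univ : Finset {b // b ∈ B}).filter (fun j => ¬ j.1 ∈ A),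
        GJ (qq w.P w.K) (w.Df A B) j (some i) =
          (((univ : Finset {b // b ∈ B}).filter (fun j => ¬ j.1 ∈ A)).card : ℝ) *
            GJ (qq w.P w.K) w.DJ false (some i) := by
      rw [← nsmul_eq_mul]
      refine Finset.sum_eq_card_nsmul fun j hj => ?_
      rw [w1_GJ, decide_eq_false (Finset.mem_filter.1 hj).2]
    rw [h1, h2]
    have h3 : (A.card : ℝ) ≤ w.KA := by exact_mod_cast h.cardA
    have h4 : ((((univ : Finset {b // b ∈ B}).filter (fun j => ¬ j.1 ∈ A)).card : ℕ) : ℝ) ≤ w.K := by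
      have h5 := Finset.card_filter_le (univ : Finset {b // b ∈ B}) (fun j => ¬ j.1 ∈ A)
      rw [Finset.card_univ, Fintype.card_coe] at h5
      exact_mod_cast h5.trans h.cardB
    exact add_le_add (mul_le_mul_of_nonneg_right h3 (w1_GJ_nonneg w _ _))
      (mul_le_mul_of_nonneg_right h4 (w1_GJ_nonneg w _ _))
  linarith

/-- The values at `∅` of the factors of an allowed form. -/
theorem WG.sum_allowed (w : WG) (A B : Finset ℕ) (j : {b // b ∈ B}) (hj : j.1 ∈ A) :
    (∀ i, 0 ≤ w.Df A B j i ∅) ∧ 1 + ∑ i, w.Df A B j i ∅ = w.g := by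
  have h1 : w.Df A B j = w.DJ true := by
    unfold WG.Df
    rw [decide_eq_true hj]
  rw [h1]
  constructor
  · rintro (i | i)
    · rw [w.trl]
      exact w.cA0
    · rw [w.trr]
  · rw [Fintype.sum_sum_type]
    simp only [w.trl, w.trr]
    rw [Finset.sum_const, Finset.sum_const_zero, Finset.card_univ, Fintype.card_fin, nsmul_eq_mul,
      add_zero]
    rfl

theorem w1_Qpos (w : WG) : 0 < ∏ p ∈ w.P, p :=
  Finset.prod_pos fun p hp => (w.prime p hp).pos

/-- Sum over `t < Y` of a nonnegative function of the configuration of level `L`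
(`Lev.avg` with `a = 0`, `EP_le`, `w.hKW`). -/
theorem WG.Sys.avg_le {w : WG} {A B : Finset ℕ} {M : ℕ} (h : w.Sys A B M)
    (F : ({b // b ∈ B} → Finset {p // p ∈ w.P}) → ℝ) (h0 : ∀ S, 0 ≤ F S) (L : ℝ)
    (hL : Lev (∏ p ∈ w.P, p) (fun t => F (fun j => hit w.P (j.1 + M * t))) L) (Y : ℕ) :
    ∑ t ∈ range Y, F (fun j => hit w.P (j.1 + M * t)) ≤
      Y * ((1 + w.e) * EX (qq w.P w.K) F) + 2 * L := by
  have h1 := Lev.avg (w1_Qpos w) hL 0 Y
  rw [zero_add, ← Finset.range_eq_Ico] at h1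
  have h2 : EP w.P M (fun j : {b // b ∈ B} => j.1) F ≤ (1 + w.e) * EX (qq w.P w.K) F :=
    (EP_le w.P w.W w.K M _ h.forms F h0).trans
      (mul_le_mul_of_nonneg_right w.hKW (EX_nonneg _ w.good.q0 w.good.q1 F h0))
  have h3 := mul_le_mul_of_nonneg_left h2 (Nat.cast_nonneg Y : (0 : ℝ) ≤ Y)
  have h4 : |∑ t ∈ range Y, F (fun j => hit w.P (j.1 + M * t)) -
      Y * EP w.P M (fun j : {b // b ∈ B} => j.1) F| ≤ 2 * L := h1
  rw [abs_le] at h4
  linarith [h4.2]

theorem w1_one_le_ZG (w : WG) (A B : Finset ℕ) : 1 ≤ ZG (qq w.P w.K) (w.Df A B) univ :=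
  one_le_ZG _ _ _ (w.good_Df A B) _



/-- the error terms -/
theorem w1_err (w : WG) (Y : ℕ) (hY : w.Long Y) (a k : ℕ) (ha : a ≤ 4) (hk : k ≤ 4) :
    2 * w.K * (w.g ^ a * w.lv ^ k) ≤ w.e * w.el ^ 2 * Y / 4 ∧
      2 * (w.g ^ a * w.lv ^ k) ≤ w.e * w.el ^ 2 * Y / 4 := by
  have h1 : w.g ^ a * w.lv ^ k ≤ w.g ^ 4 * w.lv ^ 4 :=
    mul_le_mul (pow_le_pow_right₀ w.one_le_g ha) (pow_le_pow_right₀ w.lv1 hk)
      (pow_nonneg (zero_le_one.trans w.lv1) _) (pow_nonneg (zero_le_one.trans w.one_le_g) _)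
  have h2 : (1 : ℝ) ≤ w.K := by exact_mod_cast w.Kpos
  have h3 : 0 ≤ w.g ^ a * w.lv ^ k := mul_nonneg (pow_nonneg (zero_le_one.trans w.one_le_g) _)
    (pow_nonneg (zero_le_one.trans w.lv1) _)
  have h4 : (w.K : ℝ) * (w.g ^ a * w.lv ^ k) ≤ w.K * (w.g ^ 4 * w.lv ^ 4) :=
    mul_le_mul_of_nonneg_left h1 (by linarith)
  have h5 : w.g ^ a * w.lv ^ k ≤ w.K * (w.g ^ a * w.lv ^ k) := le_mul_of_one_le_left h3 h2
  have h6 : 8 * w.K * w.g ^ 4 * w.lv ^ 4 ≤ w.e * w.el ^ 2 * Y := hY
  constructor <;> nlinarith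

theorem w1_err1 (w : WG) (Y : ℕ) (hY : w.Long Y) (a k : ℕ) (ha : a ≤ 4) (hk : k ≤ 4) :
    2 * w.K * (w.g ^ a * w.lv ^ k) ≤ w.e * w.el * Y / 4 ∧
      2 * w.K * (w.g ^ a * w.lv ^ k) ≤ w.e * Y / 4 ∧
      2 * (w.g ^ a * w.lv ^ k) ≤ w.e * w.el * Y / 4 ∧
      2 * (w.g ^ a * w.lv ^ k) ≤ w.e * Y / 4 := by
  obtain ⟨h1, h2⟩ := w1_err w Y hY a k ha hk
  have h3 : w.el ^ 2 ≤ w.el := by
    have := mul_le_mul_of_nonneg_left w.el1 w.el0.le
    nlinarith
  have h5 : 0 ≤ w.e * Y := mul_nonneg w.e0.le (Nat.cast_nonneg Y)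
  have h6 : w.e * w.el ^ 2 * Y ≤ w.e * w.el * Y := by
    have := mul_le_mul_of_nonneg_left h3 h5
    nlinarith
  have h7 : w.e * w.el * Y ≤ w.e * Y := by
    have := mul_le_mul_of_nonneg_left w.el1 h5
    nlinarith
  refine ⟨?_, ?_, ?_, ?_⟩ <;> linarith



end Pool.Agent.Lib.H92G
end

-- from Lib.H57M.Defs
section

/-!
# Project H57M (MP_0bf1d2_nt): Maynard-Tao for Schinzel's hypothesis. Definitions

See `PROOF.md` in this folder.
-/

open Finset

namespace Pool.Agent.Lib.H57M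

open Pool.Agent.Lib.H15P Pool.Agent.Lib.H92G

/-! ## The weights -/

/-- The data of the weight for one scale; `K` = number of the forms. `D i` = one form function of
the label `i`, `c` = its value at `∅`, `s i` = bound for its second moment, `m i` = bound for the
number of the forms with label `i`. -/
structure Par (K : ℕ) where
  P : Finset ℕ
  W : ℕ
  n : ℕ
  D : Fin n → Finset {p // p ∈ P} → ℝ
  m : Fin n → ℕ
  R : Fin n → ℝ
  s : Fin n → ℝ
  c : ℝ
  h : ℝ
  Dt : ℝ
  lv : ℝ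
  prime : ∀ p ∈ P, p.Prime
  big : ∀ p ∈ P, W < p
  Kpos : 1 ≤ K
  KW : 4 * K ^ 2 ≤ W
  c0 : 0 ≤ c
  good : GoodJ (qq P K) (fun _ : Unit => D) h
  h0 : 0 ≤ h
  emp : ∀ i, D i ∅ = c
  s0 : ∀ i, 0 ≤ s i
  hs : ∑ i, s i ≤ 1
  hm : ∀ i, 2 * (K * s i) + R i ≤ m i
  hR : ∑ i, Real.exp (-R i) ≤ 1 / 4
  Dt1 : 1 ≤ Dt
  tilt : ∀ i (T : Finset {p // p ∈ P}),
    ex (qq P K) (fun A => D i A ^ 2 * (if T ⊆ A then 1 else 0)) ≤
      Dt ^ T.card * (∏ p ∈ T, qq P K p) * s i
  lv1 : 1 ≤ lv
  lev : ∀ (J : Type) [Fintype J] [DecidableEq J] (M : ℕ) (b : J → ℕ), Fintype.card J = K →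
    Lev (∏ p ∈ P, p) (fun t => LG (fun _ : J => D) m univ (fun j => hit P (b j + M * t))) lv


/-- The weight function before squaring, as a function of the configuration. -/
noncomputable def Par.L {K : ℕ} (w : Par K) {J : Type} [Fintype J] [DecidableEq J]
    (S : J → Finset {p // p ∈ w.P}) : ℝ := LG (fun _ : J => w.D) w.m univ S

/-- `1 + ∑ E D_i^2` -/
noncomputable def Par.z {K : ℕ} (w : Par K) : ℝ :=
  1 + ∑ i, ex (qq w.P K) (fun A => w.D i A ^ 2)



/-! ## Residues -/

/-- The residues `v` modulo `P` for which all `v + h`, `h ∈ H`, are prime to `P`. -/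
def cF (H : Finset ℕ) (P : ℕ) : Finset ℕ :=
  (range P).filter (fun v => (∏ h ∈ H, (v + h)).Coprime P)



end Pool.Agent.Lib.H57M
end

-- from Lib.H57M.Sc
section

/-!
# Everything that is needed at one scale, and the weight `wf`
-/

open Finset

namespace Pool.Agent.Lib.H57M

open Pool.Agent.Lib.H15P Pool.Agent.Lib.H92G

/-- The forms `v + h + M t`. -/
structure Sc {K : ℕ} (w : Par K) (H : Finset ℕ) (M X g : ℕ) : Prop where
  cardH : H.card = K
  g1 : 1 ≤ g
  M0 : 0 < M
  X0 : 0 < X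
  sqf : Squarefree M
  cop : ∀ p ∈ w.P, ¬ p ∣ M
  HW : ∀ h ∈ H, h ≤ w.W
  HX : ∀ h ∈ H, 8 * (M + h) ≤ X
  KW : 400 * K ^ 2 ≤ w.W
  long : 100 * K * w.lv ^ 4 * M * Real.exp (2 * Real.sqrt (Real.log X)) ≤ X
  prime : ∀ v ∈ cF H M, ∀ h0 ∈ H, w.z ^ K * (1 + w.n * w.c) ^ 2 / (16 * (M.totient : ℝ)) ≤
    ∑ t ∈ range (60 * X / M + 1),
      w.L (fun h : {h // h ∈ H} => hit w.P (v + h.1 + M * t)) ^ 2 * lpv X (v + h0 + M * t)
  gain : 10 ^ 5 * g * Real.log (60 * X) * M.totient ≤ K * (1 + w.n * w.c) ^ 2 * M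



theorem Sc.card {K : ℕ} {w : Par K} {H : Finset ℕ} {M X g : ℕ} (hS : Sc w H M X g) :
    Fintype.card {h // h ∈ H} = K := by
  rw [Fintype.card_coe, hS.cardH]


end Pool.Agent.Lib.H57M
end

-- from Lib.H5C.Defs
section

/-!
# Project H5C (MP_f9960f_nt, chains of large gaps): definitions

See `PROOF.md` in this folder. Analytic objects (`PC`, `p0`, `FL`, `Mu`, `v`, `lp`) are those of
`Lib/H68T/Defs.lean`, sieve objects (`Sys`, `noJ`, `cp`, `cc`, `bw`, `ZZ`, ..) those of
`Lib/H56G/Defs.lean`.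
-/

open Finset Filter
open Pool.Agent.Lib.H68T (PC p0 FL Mu v lp)
open Pool.Agent.Lib.H56G

namespace Pool.Agent.Lib.H5C

noncomputable section








/-! ## Characters of the sieve primes -/

variable {ι J : Type} [Fintype ι] [DecidableEq ι] [Fintype J] [DecidableEq J]




instance (s : Sys ι J) (i : ι) : NeZero (s.pr i) := ⟨(s.prime i).ne_zero⟩





/-! ## Weights -/

/-- The weights `θ bw`. -/
def tb (s : Sys ι J) (z θ : ℝ) (A : Finset ι) : ℝ := θ * bw s z A

end

end Pool.Agent.Lib.H5C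
end

-- from Lib.H92G.W2
section

/-!
# Chunk W2: upper bounds for the elements without prime factor in `P`

Compare `H15P/WIN3` (`win_rough`).
-/

open Finset

namespace Pool.Agent.Lib.H92G

open Pool.Agent.Lib.H15P

/-- Level of the majorant. -/
theorem w2_lev {w : WG} {A B : Finset ℕ} {M : ℕ} (h : w.Sys A B M)
    (Zs : Finset {b // b ∈ B}) (wm : ℝ) (hwm : 0 < wm)
    (hw : ∀ l ∈ adm (univ \ Zs) w.m, |wZ (w.Df A B) w.m Zs l| ≤ wm) :
    Lev (∏ p ∈ w.P, p) (fun t =>
      LW (w.Df A B) (adm (univ \ Zs) w.m) (wZ (w.Df A B) w.m Zs)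
        (fun j : {b // b ∈ B} => hit w.P (j.1 + M * t)) ^ 2 *
          ∏ j ∈ Zs, w.lm (hit w.P (j.1 + M * t)))
      (wm ^ 2 * w.lv ^ 2 * w.lv ^ Zs.card) := by
  have h1 : Lev (∏ p ∈ w.P, p) (fun t => ∏ j ∈ Zs, w.lm (hit w.P (j.1 + M * t)))
      (w.lv ^ Zs.card) := by
    have h2 := Lev.prod Zs (fun (j : {b // b ∈ B}) (t : ℕ) => w.lm (hit w.P (j.1 + M * t)))
      (fun _ => w.lv) (w1_Qpos w) (fun j _ => w.levlm M j.1)
    rw [Finset.prod_const] at h2
    exact h2
  have h3 := w.levL {b // b ∈ B} (fun j => decide (j.1 ∈ A)) (univ \ Zs) M (fun j => j.1)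
    (fun l => if l ∈ adm (univ \ Zs) w.m then wZ (w.Df A B) w.m Zs l / wm else 0)
    (by rw [Fintype.card_coe]; exact h.cardB) (by
      intro l
      split_ifs with hl
      · rw [abs_div, abs_of_pos hwm, div_le_one hwm]
        exact hw l hl
      · rw [abs_zero]
        exact zero_le_one)
  have h4 := Lev.const_mul h3 wm
  rw [abs_of_pos hwm] at h4
  have h5 : (fun t : ℕ => wm * LW (fun j : {b // b ∈ B} => w.DJ (decide (j.1 ∈ A)))
      (adm (univ \ Zs) w.m)
      (fun l => if l ∈ adm (univ \ Zs) w.m then wZ (w.Df A B) w.m Zs l / wm else 0)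
      (fun j => hit w.P (j.1 + M * t))) = fun t : ℕ =>
      LW (w.Df A B) (adm (univ \ Zs) w.m) (wZ (w.Df A B) w.m Zs)
        (fun j : {b // b ∈ B} => hit w.P (j.1 + M * t)) := by
    funext t
    unfold LW
    rw [Finset.mul_sum]
    refine Finset.sum_congr rfl fun l hl => ?_
    beta_reduce
    rw [if_pos hl, ← mul_assoc, mul_div_cancel₀ _ hwm.ne']
    rfl
  rw [h5] at h4
  have h6 := Lev.mul (w1_Qpos w) (Lev.pow (w1_Qpos w) h4 2) h1
  rw [mul_pow] at h6
  exact h6

/-- General bound for the configurations where no prime divides the forms of `Zs`. -/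
theorem w2_gen {w : WG} {A B : Finset ℕ} {M : ℕ} (h : w.Sys A B M) (Y : ℕ)
    (Zs : Finset {b // b ∈ B}) (wm : ℝ) (hwm : 0 < wm)
    (hw : ∀ l ∈ adm (univ \ Zs) w.m, |wZ (w.Df A B) w.m Zs l| ≤ wm) (E : ℝ)
    (hE : EX (qq w.P w.K) (fun S : {b // b ∈ B} → Finset {p // p ∈ w.P} =>
      LW (w.Df A B) (adm (univ \ Zs) w.m) (wZ (w.Df A B) w.m Zs) S ^ 2 *
        ∏ j ∈ Zs, w.lm (S j)) ≤ E * ZG (qq w.P w.K) (w.Df A B) univ) :
    ∑ t ∈ range Y, w.nu A B M t *
        (if ∀ j ∈ Zs, hit w.P (j.1 + M * t) = ∅ then 1 else 0) ≤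
      Y * ((1 + w.e) * E) + 2 * (wm ^ 2 * w.lv ^ 2 * w.lv ^ Zs.card) := by
  set Z := ZG (qq w.P w.K) (w.Df A B) univ with hZ
  have hZ1 : 1 ≤ Z := w1_one_le_ZG w A B
  have hZpos : 0 < Z := by linarith
  set F : ({b // b ∈ B} → Finset {p // p ∈ w.P}) → ℝ := fun S =>
    LW (w.Df A B) (adm (univ \ Zs) w.m) (wZ (w.Df A B) w.m Zs) S ^ 2 *
        ∏ j ∈ Zs, w.lm (S j) with hF
  have hF0 : ∀ S, 0 ≤ F S := fun S =>
    mul_nonneg (sq_nonneg _) (Finset.prod_nonneg fun j _ => w.lm0 _)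
  have hterm : ∀ t, w.nu A B M t * (if ∀ j ∈ Zs, hit w.P (j.1 + M * t) = ∅ then 1 else 0) ≤
      F (fun j => hit w.P (j.1 + M * t)) / Z := by
    intro t
    split_ifs with hh
    · rw [mul_one]
      unfold WG.nu
      rw [← hZ]
      apply div_le_div_of_nonneg_right _ hZpos.le
      rw [LG_restrict (w.Df A B) w.m univ Zs (Finset.subset_univ _)
        (fun j => hit w.P (j.1 + M * t)) hh]
      show _ ≤ LW (w.Df A B) (adm (univ \ Zs) w.m) (wZ (w.Df A B) w.m Zs)
        (fun j => hit w.P (j.1 + M * t)) ^ 2 * ∏ j ∈ Zs, w.lm (hit w.P (j.1 + M * t))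
      rw [Finset.prod_congr rfl (fun j hj => by rw [hh j hj, w.lm1]), Finset.prod_const_one,
        mul_one]
    · rw [mul_zero]
      exact div_nonneg (hF0 _) hZpos.le
  have havg := h.avg_le F hF0 _ (w2_lev h Zs wm hwm hw) Y
  refine (Finset.sum_le_sum fun t _ => hterm t).trans ?_
  rw [← Finset.sum_div, div_le_iff₀ hZpos]
  refine havg.trans ?_
  have he0 := w.e0
  have h1 := mul_le_mul_of_nonneg_left hE (by linarith : 0 ≤ 1 + w.e)
  have h2 := mul_le_mul_of_nonneg_left h1 (Nat.cast_nonneg Y : (0 : ℝ) ≤ Y)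
  have h3 : 0 ≤ 2 * (wm ^ 2 * w.lv ^ 2 * w.lv ^ Zs.card) := by
    have := zero_le_one.trans w.lv1
    positivity
  have h4 := mul_le_mul_of_nonneg_left hZ1 h3
  nlinarith


/-- Allowed forms. -/
theorem w2_allowed {w : WG} {A B : Finset ℕ} {M : ℕ} (h : w.Sys A B M) (Y : ℕ)
    (Zs : Finset {b // b ∈ B}) (hZs : ∀ j ∈ Zs, j.1 ∈ A) :
    ∑ t ∈ range Y, w.nu A B M t *
        (if ∀ j ∈ Zs, hit w.P (j.1 + M * t) = ∅ then 1 else 0) ≤
      Y * ((1 + w.e) * ((w.g ^ Zs.card) ^ 2 * w.el ^ Zs.card)) +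
        2 * ((w.g ^ Zs.card) ^ 2 * w.lv ^ 2 * w.lv ^ Zs.card) := by
  have hg0 : 0 < w.g := zero_lt_one.trans_le w.one_le_g
  have hX0 : 0 ≤ ex (qq w.P w.K) w.lm := ex_nonneg _ w.good.q0 w.good.q1 _ w.lm0
  have hw : ∀ l, |wZ (w.Df A B) w.m Zs l| ≤ w.g ^ Zs.card := by
    intro l
    obtain ⟨h1, h2⟩ := wZ_bounds (w.Df A B) w.m Zs l
      (fun j hj => (w.sum_allowed A B j (hZs j hj)).1)
    rw [abs_of_nonneg h1]
    refine h2.trans (le_of_eq ?_)
    rw [Finset.prod_congr rfl (fun j hj => (w.sum_allowed A B j (hZs j hj)).2),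
      Finset.prod_const]
  refine w2_gen h Y Zs (w.g ^ Zs.card) (pow_pos hg0 _) (fun l _ => hw l) _ ?_
  refine (EX_maj_le (qq w.P w.K) (w.Df A B) w.h (w.good_Df A B) w.m univ Zs (w.g ^ Zs.card) hw
    w.lm w.lm0).trans ?_
  have h1 := w1_one_le_ZG w A B
  have h2 : ex (qq w.P w.K) w.lm ^ Zs.card ≤ w.el ^ Zs.card :=
    pow_le_pow_left₀ hX0 w.lmel _
  have h3 : 0 ≤ (w.g ^ Zs.card) ^ 2 * ZG (qq w.P w.K) (w.Df A B) univ :=
    mul_nonneg (sq_nonneg _) (by linarith)
  have h4 := mul_le_mul_of_nonneg_left h2 h3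
  nlinarith

/-- One allowed form. The coefficients `wZ {b}` are in `[0, g]` (`wZ_bounds`, `sum_allowed`);
`EX_maj_le` with `wm = g`; level of `LW(wZ)^2 lm`: `g^2 lv^2 lv` (`levL` for `wZ/g`). -/
theorem WG.Sys.one_le {w : WG} {A B : Finset ℕ} {M : ℕ} (h : w.Sys A B M) (Y : ℕ)
    (hY : w.Long Y) (b : ℕ) (hb : b ∈ A) :
    ∑ t ∈ range Y, w.nu A B M t * (if hit w.P (b + M * t) = ∅ then 1 else 0) ≤
      2 * w.g ^ 2 * w.el * Y := by
  have h1 := w2_allowed h Y {(⟨b, h.AB hb⟩ : {b // b ∈ B})} (by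
    intro j hj
    rw [Finset.mem_singleton.1 hj]
    exact hb)
  simp only [Finset.mem_singleton, forall_eq, Finset.card_singleton, pow_one] at h1
  refine h1.trans ?_
  have herr := (w1_err1 w Y hY 2 3 (by norm_num) (by norm_num)).2.2.1
  have hg := w.one_le_g
  have hg2 : 1 ≤ w.g ^ 2 := one_le_pow₀ hg
  have he0 := w.e0
  have he1 := w.e1
  have hYr : (0 : ℝ) ≤ Y := Nat.cast_nonneg Y
  have h0 : 0 ≤ w.el * Y := mul_nonneg w.el0.le hYr
  have h2 : w.el * Y ≤ w.g ^ 2 * (w.el * Y) := le_mul_of_one_le_left h0 hg2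
  have h3 : w.e * (w.g ^ 2 * (w.el * Y)) ≤ 1 / 10 * (w.g ^ 2 * (w.el * Y)) :=
    mul_le_mul_of_nonneg_right he1 (by positivity)
  have h4 : w.e * (w.el * Y) ≤ 1 / 10 * (w.el * Y) := mul_le_mul_of_nonneg_right he1 h0
  nlinarith

/-- Two allowed forms: `Z = {b, b'}`, `wZ ≤ g^2`, `EX_maj_le`: mean value at most
`g^4 ZG el^2`; level `g^4 lv^2 lv^2`. -/
theorem WG.Sys.two_le {w : WG} {A B : Finset ℕ} {M : ℕ} (h : w.Sys A B M) (Y : ℕ)
    (hY : w.Long Y) (b b' : ℕ) (hb : b ∈ A) (hb' : b' ∈ A) (hne : b ≠ b') :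
    ∑ t ∈ range Y, w.nu A B M t *
        (if hit w.P (b + M * t) = ∅ ∧ hit w.P (b' + M * t) = ∅ then 1 else 0) ≤
      2 * w.g ^ 4 * w.el ^ 2 * Y := by
  have h1 := w2_allowed h Y {(⟨b, h.AB hb⟩ : {b // b ∈ B}), ⟨b', h.AB hb'⟩} (by
    intro j hj
    rcases Finset.mem_insert.1 hj with hj | hj
    · rw [hj]
      exact hb
    · rw [Finset.mem_singleton.1 hj]
      exact hb')
  have hc : ({(⟨b, h.AB hb⟩ : {b // b ∈ B}), ⟨b', h.AB hb'⟩} : Finset {b // b ∈ B}).card = 2 := by
    apply Finset.card_pair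
    intro hh
    exact hne (congrArg Subtype.val hh)
  rw [hc] at h1
  simp only [Finset.mem_insert, Finset.mem_singleton, forall_eq_or_imp, forall_eq] at h1
  refine h1.trans ?_
  have herr := (w1_err w Y hY 4 4 le_rfl le_rfl).2
  have hg := w.one_le_g
  have hg4 : 1 ≤ w.g ^ 4 := one_le_pow₀ hg
  have he0 := w.e0
  have he1 := w.e1
  have hYr : (0 : ℝ) ≤ Y := Nat.cast_nonneg Y
  have h0 : 0 ≤ w.el ^ 2 * Y := mul_nonneg (sq_nonneg _) hYr
  have h2 : w.el ^ 2 * Y ≤ w.g ^ 4 * (w.el ^ 2 * Y) := le_mul_of_one_le_left h0 hg4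
  have h3 : w.e * (w.g ^ 4 * (w.el ^ 2 * Y)) ≤ 1 / 10 * (w.g ^ 4 * (w.el ^ 2 * Y)) :=
    mul_le_mul_of_nonneg_right he1 (by positivity)
  have h4 : w.e * (w.el ^ 2 * Y) ≤ 1 / 10 * (w.el ^ 2 * Y) := mul_le_mul_of_nonneg_right he1 h0
  have h5 : (w.g ^ 2) ^ 2 * w.lv ^ 2 * w.lv ^ 2 = w.g ^ 4 * w.lv ^ 4 := by ring
  rw [h5]
  nlinarith

end Pool.Agent.Lib.H92G
end

-- from Lib.H92G.K5
section

/-!
# Chunk K5: sums over all `n < M Y`

`n = a + M t` with `a = n % M`, `t = n / M` (compare `H15P.sum_classes`).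
-/

open Finset

namespace Pool.Agent.Lib.H92G

open Pool.Agent.Lib.H15P


/-- The forms of a good class are a system; distinct elements of `Ac M (Icc 1 H) a` differ by at
most `H ≤ W`. -/
theorem CS.sys {w : WG} {M H Y : ℕ} {S : Finset ℕ} (h : CS w M H Y S) (a : ℕ)
    (ha : okc w M H S a) : w.Sys (Ac M S a) (Ac M (Icc 1 H) a) M := by
  refine ⟨?_, ha.1, ha.2, ?_, h.cop⟩
  · unfold Ac
    exact image_subset_image (filter_subset_filter _ h.SH)
  · intro b hb b' hb'
    obtain ⟨x, hx, rfl⟩ := mem_image.1 hb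
    obtain ⟨y, hy, rfl⟩ := mem_image.1 hb'
    have h1 := (mem_Icc.1 (mem_filter.1 hx).1)
    have h2 := (mem_Icc.1 (mem_filter.1 hy).1)
    have h3 := h.HW
    omega













end Pool.Agent.Lib.H92G
end
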