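import Mathlib
import Pool.Agent.Lib.H59M.M1.M010
import Pool.Agent.Lib.H59M.M1.M011
import Pool.Agent.Lib.H59M.M1.M012
import Pool.Agent.Lib.H59M.M1.M014
import Pool.Agent.Lib.H59M.M1.M016
import Pool.Agent.Lib.H59M.M1.M017
import Pool.Agent.Lib.H59M.M1.M018
import Pool.Agent.Lib.H59M.M1.M023
import Pool.Agent.Lib.H59M.M1.M024
import Pool.Agent.Lib.H59M.M1.M030
import Pool.Agent.Lib.H59M.M1.M033
import Pool.Agent.Lib.H59M.M1.M034
import Pool.Agent.Lib.H59M.M1.M049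
import Pool.Agent.Lib.H59M.M1.M056
import Pool.Agent.Lib.H59M.M1.M058

/-! Merged copies (to shorten the build) of Lib.H18Q.QP, Lib.H59P.S1A, Lib.H59P.S1B, Lib.H59P.S1, Lib.H59P.V1A, Lib.H59P.S2, Lib.H59P.S4, Lib.H59P.V1B, Lib.H59P.V1. -/

-- from Lib.H18Q.QP
section

/-!
# Project H18Q, chunk QP: lower bound for the prime pairs in a window (no classes)
-/

open Finset

namespace Pool.Agent.Lib.H18Q

open Pool.Agent.Lib.H68T Pool.Agent.Lib.H18E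

/-- the bound for a sum over the components -/
theorem qp_SG_le {Q : ℕ} (hQ : 1 ≤ Q) (b : (Σ r : ℕ, DirichletCharacter ℂ r) → ℂ)
    (bb : (Σ r : ℕ, DirichletCharacter ℂ r) → ℝ) (hb : ∀ p ∈ PC Q, ‖b p‖ ≤ bb p) (m : ℤ) :
    ‖SG Q b m‖ ≤ 100 * (1 + Real.log Q) ^ 3 * dQ Q m * ∑ p ∈ PC Q, bb p := by
  unfold SG
  rw [Finset.mul_sum]
  refine (norm_sum_le _ _).trans (Finset.sum_le_sum fun p hp => ?_)
  have h1 := mem_PC.1 hp
  have h2 := abs_Gam_le Q p.1 h1.1 h1.2.1 m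
  rw [norm_mul, norm_mul, Complex.norm_real, Real.norm_eq_abs, Complex.norm_conj]
  have h3 : ‖p.2 (m : ZMod p.1)‖ ≤ 1 := DirichletCharacter.norm_le_one p.2 _
  have h0 : 0 ≤ 100 * (1 + Real.log Q) ^ 3 * dQ Q m := (abs_nonneg _).trans h2
  calc |Gam Q p.1 m| * ‖p.2 (m : ZMod p.1)‖ * ‖b p‖
      ≤ (100 * (1 + Real.log Q) ^ 3 * dQ Q m * 1) * bb p := by
        apply mul_le_mul _ (hb p hp) (norm_nonneg _) (by rw [mul_one]; exact h0)
        exact mul_le_mul h2 h3 (norm_nonneg _) h0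
    _ = _ := by rw [mul_one]

theorem qp_regime {K : ℝ} {Q M : ℕ} (hK : 20736 ≤ K) (h : RegP K Q M) :
    20736 ≤ (Q : ℝ) ∧ 1 + Real.log Q ≤ Real.log M ∧ 1 ≤ Real.log M ∧ (Q : ℝ) ^ 20 ≤ M ∧ 0 < M ∧
      0 ≤ Real.log Q := by
  have hK1 : 1 ≤ K := by linarith
  have hQK := h.Q_ge hK1
  have hlQ := h.logQ_ge hK1
  have hlQ0 : 0 ≤ Real.log Q := by linarith
  have h1 := h.logQ_le hK1
  have hM0 := h.X_pos (by linarith)
  have hM0' : (0 : ℝ) < M := by exact_mod_cast hM0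
  have hQ0 : (0 : ℝ) < Q := by linarith
  refine ⟨by linarith, by nlinarith, h.logX_ge_one (by linarith), ?_, hM0, hlQ0⟩
  rw [← Real.log_le_log_iff (by positivity) hM0', Real.log_pow]
  have h2 : 20 * Real.log Q ≤ K * Real.log Q := mul_le_mul_of_nonneg_right (by linarith) hlQ0
  push_cast
  linarith







end Pool.Agent.Lib.H18Q
end

-- from Lib.H59P.S1A
section

/-!
# Project H59P, chunk S1a
-/

open Finset

namespace Pool.Agent.Lib.H59P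

open Pool.Agent.Lib.H68T Pool.Agent.Lib.H18Q

/-- `∑_{c < X} dQ(n + c)² ≤ 5 X (1 + log Q)^3` for `Q² ≤ X`, any `n`. Proof. `dQ_moment` (used in the proof
of `QP_Lk`, `H18Q/QP.lean`): `dQ Q m = ∑_{d ≤ Q} 1[d ∣ m]`, `dQ² = ∑_{d,d'} 1[lcm ∣ m]`,
`∑ 1/lcm(d,d') ≤ (1+log Q)^3`. (A constant other than `5`: use it below; the statement has `8`.) -/
theorem S1a (Q X : ℕ) (hQ : 1 ≤ Q) (hQX : Q ^ 2 ≤ X) (n : ℕ) :
    ∑ c ∈ range X, dQ Q ((n : ℤ) + c) ^ 2 ≤ 8 * X * (1 + Real.log Q) ^ 3 := by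
  have h1 := dQ_moment Q X 1 0 n one_pos (Nat.coprime_one_right 0)
  have h2 : ∑ c ∈ range X, dQ Q ((n : ℤ) + c) ^ 2 =
      ∑ c ∈ range X, (dQ Q (((0 : ℕ) : ℤ) + (1 : ℕ) * ((n + c : ℕ) : ℤ))) ^ 2 := by
    refine Finset.sum_congr rfl fun c _ => ?_
    congr 2
    push_cast
    ring
  rw [h2]
  refine h1.trans ?_
  have hlog : 0 ≤ Real.log Q := Real.log_natCast_nonneg Q
  have h3 : (1 : ℝ) ≤ (1 + Real.log Q) ^ 3 := one_le_pow₀ (by linarith)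
  have h4 : (Q : ℝ) ^ 2 ≤ X := by exact_mod_cast hQX
  have h5 : (0 : ℝ) ≤ X := Nat.cast_nonneg X
  have h6 : (X : ℝ) * 1 ≤ X * (1 + Real.log Q) ^ 3 := mul_le_mul_of_nonneg_left h3 h5
  nlinarith

end Pool.Agent.Lib.H59P
end

-- from Lib.H59P.S1B
section

/-!
# Project H59P, chunk S1b
-/

open Finset

namespace Pool.Agent.Lib.H59P

open Pool.Agent.Lib.H68T Pool.Agent.Lib.H18Q

/-- The size of `SG` with coefficients of total size at most `b`. Proof. `qp_SG_le` in `H18Q/QP.lean`. -/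
theorem S1b (Q : ℕ) (hQ : 1 ≤ Q) (B : Ch → ℂ) (mb : Ch → ℝ) (hB : ∀ p ∈ PC Q, ‖B p‖ ≤ mb p) (m : ℤ) :
    ‖SG Q B m‖ ≤ 100 * (1 + Real.log Q) ^ 3 * dQ Q m * ∑ p ∈ PC Q, mb p :=
  qp_SG_le hQ B mb hB m

end Pool.Agent.Lib.H59P
end

-- from Lib.H59P.S1
section

/-!
# Project H59P, chunk S1
-/

open Finset

namespace Pool.Agent.Lib.H59P

open Pool.Agent.Lib.H68T Pool.Agent.Lib.H18Q

/-- **S1.** Mean squares over the windows `[n, n + X)`, `X ≤ n ≤ 2 X` (all in `[X, 3X)`).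

Proof. `Lk` is `SG (B m) m`, `‖·‖ ≤ 300 (1+log Q)^3 dQ Q m` (`S1b`, `Cf.eq`, `Cf.le`, `Cf.sum`), `S1a`;
`1 + log Q ≤ log X`; total `720000 X (log X)^9 ≤ X (log X)^10` since `log X ≥ e^K`, `K` large. `lp m ≤ log(4X)`,
`lp² ≤ (2 log X)²`. `(lp - Lk)² ≤ 2 lp² + 2 Lk²`. -/
theorem S1 : ∃ K : ℝ, 1 ≤ K ∧ ∀ (Q X : ℕ) (B : ℤ → Ch → ℂ) (mb : Ch → ℝ), RegP K Q X → Cf Q X B mb →
    ∀ n ∈ Icc X (2 * X),
      ∑ s ∈ range X, Lk Q (X / Q ^ 2) ((n : ℤ) + s) ^ 2 ≤ X * (Real.log X) ^ 10 ∧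
      ∑ s ∈ range X, lp ((n : ℤ) + s) ^ 2 ≤ X * (Real.log X) ^ 10 ∧
      ∑ s ∈ range X, (lp ((n : ℤ) + s) - Lk Q (X / Q ^ 2) ((n : ℤ) + s)) ^ 2 ≤ X * (Real.log X) ^ 10 := by
  refine ⟨2000000, by norm_num, fun Q X B mb hreg hB n hn => ?_⟩
  have hK0 : (0 : ℝ) ≤ 2000000 := by norm_num
  obtain ⟨hQ, hlQ, hlX, hQX, hX0, hlQ0⟩ := qp_regime (le_refl (20736 : ℝ)) (hreg.mono hK0 (by norm_num))
  have hl2 : 2000000 ≤ Real.log X := by
    have h1 := hreg.logX_ge (by norm_num)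
    have h2 := Real.add_one_le_exp (2000000 : ℝ)
    linarith
  have hX1 : (1 : ℝ) ≤ X := by exact_mod_cast hX0
  have hQ1' : (1 : ℝ) ≤ Q := by linarith
  have hQ1 : 1 ≤ Q := by exact_mod_cast hQ1'
  have hQXn : Q ^ 2 ≤ X := by
    have h3 : (Q : ℝ) ^ 2 ≤ X := (pow_le_pow_right₀ hQ1' (by norm_num)).trans hQX
    exact_mod_cast h3
  obtain ⟨hn1, hn2⟩ := mem_Icc.1 hn
  obtain ⟨ℓ, hℓ⟩ : ∃ ℓ, ℓ = Real.log X := ⟨_, rfl⟩
  rw [← hℓ] at hl2 hlX hlQ ⊢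
  have hℓ9 : 0 ≤ ℓ ^ 9 := by positivity
  have hℓ2 : ℓ ^ 2 ≤ ℓ ^ 9 := pow_le_pow_right₀ hlX (by norm_num)
  have hT1 : ∑ s ∈ range X, Lk Q (X / Q ^ 2) ((n : ℤ) + s) ^ 2 ≤ X * (720000 * ℓ ^ 9) := by
    have h1 : ∀ s ∈ range X, Lk Q (X / Q ^ 2) ((n : ℤ) + s) ^ 2 ≤
        90000 * (1 + Real.log Q) ^ 6 * dQ Q ((n : ℤ) + s) ^ 2 := by
      intro s hs
      rw [mem_range] at hs
      have g1 : (X : ℤ) ≤ (n : ℤ) + s := by omega
      have g2 : (n : ℤ) + s ≤ 4 * X := by omega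
      have g3 := hB.eq _ g1 g2
      have g4 := S1b Q hQ1 (B ((n : ℤ) + s)) mb (hB.le _ g1 g2) ((n : ℤ) + s)
      have hd0 : 0 ≤ dQ Q ((n : ℤ) + s) := by unfold dQ; positivity
      have hA0 : 0 ≤ 100 * (1 + Real.log Q) ^ 3 * dQ Q ((n : ℤ) + s) := by positivity
      have g5 : |Lk Q (X / Q ^ 2) ((n : ℤ) + s)| ≤ 300 * (1 + Real.log Q) ^ 3 * dQ Q ((n : ℤ) + s) := by
        rw [← Real.norm_eq_abs, ← Complex.norm_real, g3]
        have g8 := mul_le_mul_of_nonneg_left hB.sum hA0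
        linarith
      rw [← sq_abs]
      calc |Lk Q (X / Q ^ 2) ((n : ℤ) + s)| ^ 2 ≤
          (300 * (1 + Real.log Q) ^ 3 * dQ Q ((n : ℤ) + s)) ^ 2 :=
            pow_le_pow_left₀ (abs_nonneg _) g5 2
        _ = _ := by ring
    refine (Finset.sum_le_sum h1).trans ?_
    rw [← Finset.mul_sum]
    have h2 := S1a Q X hQ1 hQXn n
    have h3 : (1 + Real.log Q) ^ 9 ≤ ℓ ^ 9 := pow_le_pow_left₀ (by linarith) hlQ 9
    calc 90000 * (1 + Real.log Q) ^ 6 * ∑ s ∈ range X, dQ Q ((n : ℤ) + s) ^ 2 ≤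
        90000 * (1 + Real.log Q) ^ 6 * (8 * X * (1 + Real.log Q) ^ 3) :=
          mul_le_mul_of_nonneg_left h2 (by positivity)
      _ = X * (720000 * (1 + Real.log Q) ^ 9) := by ring
      _ ≤ X * (720000 * ℓ ^ 9) := by
          apply mul_le_mul_of_nonneg_left _ (by linarith)
          linarith
  have hT2 : ∑ s ∈ range X, lp ((n : ℤ) + s) ^ 2 ≤ X * (4 * ℓ ^ 9) := by
    have h1 : ∀ s ∈ range X, lp ((n : ℤ) + s) ^ 2 ≤ 4 * ℓ ^ 9 := by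
      intro s hs
      rw [mem_range] at hs
      have g1 : (1 : ℤ) ≤ (n : ℤ) + s := by omega
      have g2 : ((((n : ℤ) + s : ℤ)) : ℝ) ≤ 4 * X := by
        have g3 : (n : ℤ) + s ≤ 4 * X := by omega
        exact_mod_cast g3
      obtain ⟨g3, g4⟩ := BA2_lp_bounds ((n : ℤ) + s) (4 * X) g1 g2
      have g5 : lp ((n : ℤ) + s) ≤ 2 * ℓ := by
        refine g4.trans ?_
        rw [Real.log_mul (by norm_num) (by positivity), ← hℓ]
        have : Real.log 4 ≤ 4 := by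
          have := Real.log_le_sub_one_of_pos (show (0 : ℝ) < 4 by norm_num)
          linarith
        linarith
      calc lp ((n : ℤ) + s) ^ 2 ≤ (2 * ℓ) ^ 2 := pow_le_pow_left₀ g3 g5 2
        _ = 4 * ℓ ^ 2 := by ring
        _ ≤ 4 * ℓ ^ 9 := by linarith
    refine (Finset.sum_le_sum h1).trans ?_
    rw [Finset.sum_const, card_range, nsmul_eq_mul]
  have hc : ∀ c : ℝ, c ≤ 2000000 → (X : ℝ) * (c * ℓ ^ 9) ≤ X * ℓ ^ 10 := by
    intro c hc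
    apply mul_le_mul_of_nonneg_left _ (by linarith)
    have h1 : ℓ ^ 10 = ℓ * ℓ ^ 9 := by ring
    rw [h1]
    exact mul_le_mul_of_nonneg_right (by linarith) hℓ9
  refine ⟨hT1.trans (hc _ (by norm_num)), hT2.trans (hc _ (by norm_num)), ?_⟩
  have hT3 : ∑ s ∈ range X, (lp ((n : ℤ) + s) - Lk Q (X / Q ^ 2) ((n : ℤ) + s)) ^ 2 ≤
      2 * ∑ s ∈ range X, lp ((n : ℤ) + s) ^ 2 +
      2 * ∑ s ∈ range X, Lk Q (X / Q ^ 2) ((n : ℤ) + s) ^ 2 := by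
    rw [Finset.mul_sum, Finset.mul_sum, ← Finset.sum_add_distrib]
    refine Finset.sum_le_sum fun s _ => ?_
    nlinarith [sq_nonneg (lp ((n : ℤ) + s) + Lk Q (X / Q ^ 2) ((n : ℤ) + s))]
  refine hT3.trans (le_trans ?_ (hc 1440008 (by norm_num)))
  have h5 : (X : ℝ) * (1440008 * ℓ ^ 9) = 2 * (X * (4 * ℓ ^ 9)) + 2 * (X * (720000 * ℓ ^ 9)) := by ring
  rw [h5]
  linarith

end Pool.Agent.Lib.H59P
end

-- from Lib.H59P.V1A
section

/-!
# Project H59P, chunk V1a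
-/

open Finset

namespace Pool.Agent.Lib.H59P

open Pool.Agent.Lib.H68T Pool.Agent.Lib.H18Q

/-- Slow variation over a distance less than `2 H`. Proof. Induction on the distance (`Cf.slow`),
both points in `[X, 4X]`. -/
theorem V1a (Q X : ℕ) (B : ℤ → Ch → ℂ) (mb : Ch → ℝ) (hB : Cf Q X B mb) (m m' : ℤ)
    (hm : (X : ℤ) ≤ m) (hmm : m ≤ m') (hm' : m' ≤ 4 * X) (p : Ch) (hp : p ∈ PC Q) :
    ‖B m' p - B m p‖ ≤ (m' - m) * (2 * (Q : ℝ) ^ 3 / X) := by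
  have hQ0 : (0 : ℝ) ≤ 2 * (Q : ℝ) ^ 3 / X := by positivity
  obtain ⟨d, rfl⟩ : ∃ d : ℕ, m' = m + d := ⟨(m' - m).toNat, by
    rw [Int.toNat_of_nonneg (by omega)]
    ring⟩
  clear hmm
  induction d with
  | zero => simp
  | succ d ih =>
    have h1 := ih (by push_cast at hm'; omega)
    have h2 := hB.slow (m + d) (by omega) (by push_cast at hm'; omega) p hp
    have h3 : m + ((d + 1 : ℕ) : ℤ) = m + d + 1 := by push_cast; ring
    rw [h3]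
    have h4 : B (m + d + 1) p - B m p = (B (m + d + 1) p - B (m + d) p) + (B (m + d) p - B m p) := by
      ring
    rw [h4]
    refine (norm_add_le _ _).trans ?_
    push_cast at h1 ⊢
    have h5 : ((m : ℝ) + d - m) = d := by ring
    have h6 : ((m : ℝ) + d + 1 - m) = d + 1 := by ring
    rw [h5] at h1
    rw [h6]
    linarith

end Pool.Agent.Lib.H59P
end

-- from Lib.H59P.S2
section

/-!
# Project H59P, chunk S2: correlations of the unstructured part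
-/

open Finset

namespace Pool.Agent.Lib.H59P

open Pool.Agent.Lib.H68T Pool.Agent.Lib.H18Q

theorem S2_sum_Ico (F : ℤ → ℂ) (s X : ℕ) :
    ∑ m ∈ Ico (s : ℤ) ((s : ℤ) + X), F m = ∑ c ∈ range X, F ((s : ℤ) + c) := by
  symm
  apply Finset.sum_nbij (fun c : ℕ => (s : ℤ) + c)
  · intro c hc
    rw [mem_range] at hc
    rw [mem_Ico]
    constructor <;> omega
  · intro a _ b _ hab
    simp only at hab
    omega
  · intro m hm
    rw [coe_Ico, Set.mem_Ico] at hm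
    refine ⟨(m - s).toNat, ?_, ?_⟩
    · rw [coe_range, Set.mem_Iio]
      omega
    · simp only
      omega
  · intro c _
    rfl

theorem S2_norm_e (x : ℝ) : ‖e x‖ = 1 := by
  unfold e
  rw [Complex.norm_exp]
  simp

/-- **S2.** Proof. `corr_sq_le` (`H68T/PV.lean`) with `M = X`, `u = v = (lp - Lk)(·)` on the natural numbers
(cast), `D = X Q^(-1/4)` by `fourier_smallP` (`H18Q/R1.lean`; the sum over `[s, s + X)`,
`X ≤ s < 2X`, with the phase shifted: `e((s+c)θ) = e(sθ) e(cθ)`), and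
`∑_{l ∈ [X,3X)} (lp - Lk)² ≤ 2 X (log X)^10` by `S1` (windows at `n = X` and `n = 2X`). Total
`X · X² Q^(-1/2) · 2 X (log X)^10 ≤ (X² Q^(-1/4) (log X)^6)²`. -/
theorem S2 : ∃ K : ℝ, 1 ≤ K ∧ ∀ (Q X : ℕ) (B : ℤ → Ch → ℂ) (mb : Ch → ℝ), RegP K Q X → Cf Q X B mb →
    ∑ n ∈ Ico X (2 * X), ∑ n' ∈ Ico X (2 * X),
      (∑ s ∈ range X, (lp ((n : ℤ) + s) - Lk Q (X / Q ^ 2) ((n : ℤ) + s)) *
        (lp ((n' : ℤ) + s) - Lk Q (X / Q ^ 2) ((n' : ℤ) + s))) ^ 2 ≤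
      ((X : ℝ) ^ 2 * (Q : ℝ) ^ (-(1 / 4) : ℝ) * (Real.log X) ^ 6) ^ 2 := by
  obtain ⟨K1, hK1, h1⟩ := S1
  obtain ⟨K2, h2⟩ := fourier_smallP
  refine ⟨max K1 (max K2 2), hK1.trans (le_max_left _ _), fun Q X B mb hR hC => ?_⟩
  have hKpos : (0 : ℝ) ≤ max K1 (max K2 2) := by
    have := le_max_left K1 (max K2 2)
    linarith
  have hR1 : RegP K1 Q X := hR.mono hKpos (le_max_left _ _)
  have hR2 : RegP K2 Q X := hR.mono hKpos ((le_max_left _ _).trans (le_max_right _ _))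
  have hR3 : RegP 2 Q X := hR.mono hKpos ((le_max_right _ _).trans (le_max_right _ _))
  have hL2 : 2 ≤ Real.log X := by
    have := hR3.logX_ge (by norm_num)
    have h3 := Real.add_one_le_exp 2
    linarith
  have hX0 : (0 : ℝ) ≤ X := Nat.cast_nonneg X
  set L := Real.log X with hL
  set w := (Q : ℝ) ^ (-(1 / 4) : ℝ) with hw
  have hw0 : 0 ≤ w := Real.rpow_nonneg (Nat.cast_nonneg Q) _
  set u : ℕ → ℝ := fun l => lp (l : ℤ) - Lk Q (X / Q ^ 2) (l : ℤ) with hu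
  have hD : ∀ s ∈ Ico X (2 * X), ∀ θ : ℝ,
      ‖∑ c ∈ range X, (u (s + c) : ℂ) * e (c * θ)‖ ≤ X * w := by
    intro s hs θ
    rw [mem_Ico] at hs
    have h3 := h2 Q X hR2 θ (s : ℤ) ((s : ℤ) + X) (by omega) (by omega)
    rw [S2_sum_Ico] at h3
    have h4 : ∑ c ∈ range X, ((lp ((s : ℤ) + (c : ℤ)) - Lk Q (X / Q ^ 2) ((s : ℤ) + (c : ℤ)) : ℝ) : ℂ) *
        e ((((s : ℤ) + (c : ℤ) : ℤ) : ℝ) * θ) =
        e ((s : ℝ) * θ) * ∑ c ∈ range X, (u (s + c) : ℂ) * e (c * θ) := by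
      rw [mul_sum]
      refine sum_congr rfl fun c _ => ?_
      have e1 : ((((s : ℤ) + (c : ℤ) : ℤ) : ℝ) * θ) = (s : ℝ) * θ + (c : ℝ) * θ := by
        push_cast
        ring
      rw [e1, PV_e_add, hu]
      push_cast
      ring
    rw [h4, norm_mul, S2_norm_e, one_mul] at h3
    exact h3
  have h5 := corr_sq_le X u u (X * w) hD
  have hs1 : ∑ l ∈ Ico X (3 * X), u l ^ 2 ≤ 2 * (X * L ^ 10) := by
    have e0 : ∑ l ∈ Ico X (3 * X), u l ^ 2 =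
        ∑ l ∈ Ico X (2 * X), u l ^ 2 + ∑ l ∈ Ico (2 * X) (3 * X), u l ^ 2 :=
      (sum_Ico_consecutive _ (by omega) (by omega)).symm
    have e1 : ∑ l ∈ Ico X (2 * X), u l ^ 2 ≤ X * L ^ 10 := by
      have g := (h1 Q X B mb hR1 hC X (by rw [mem_Icc]; omega)).2.2
      rw [sum_Ico_eq_sum_range]
      have e2 : 2 * X - X = X := by omega
      rw [e2]
      refine le_trans (le_of_eq ?_) g
      refine sum_congr rfl fun s _ => ?_
      rw [hu]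
      push_cast
      rfl
    have e3 : ∑ l ∈ Ico (2 * X) (3 * X), u l ^ 2 ≤ X * L ^ 10 := by
      have g := (h1 Q X B mb hR1 hC (2 * X) (by rw [mem_Icc]; omega)).2.2
      rw [sum_Ico_eq_sum_range]
      have e2 : 3 * X - 2 * X = X := by omega
      rw [e2]
      refine le_trans (le_of_eq ?_) g
      refine sum_congr rfl fun s _ => ?_
      rw [hu]
      push_cast
      rfl
    rw [e0]
    linarith
  have h6 : ∑ n ∈ Ico X (2 * X), ∑ n' ∈ Ico X (2 * X),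
      (∑ s ∈ range X, (lp ((n : ℤ) + s) - Lk Q (X / Q ^ 2) ((n : ℤ) + s)) *
        (lp ((n' : ℤ) + s) - Lk Q (X / Q ^ 2) ((n' : ℤ) + s))) ^ 2 =
      ∑ s ∈ Ico X (2 * X), ∑ s' ∈ Ico X (2 * X), (∑ c ∈ range X, u (s + c) * u (s' + c)) ^ 2 := by
    refine sum_congr rfl fun n _ => sum_congr rfl fun n' _ => ?_
    rw [hu]
    push_cast
    rfl
  rw [h6]
  refine h5.trans ?_
  have h7 : (X : ℝ) * (X * w) ^ 2 * ∑ l ∈ Ico X (3 * X), u l ^ 2 ≤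
      (X : ℝ) * (X * w) ^ 2 * (2 * (X * L ^ 10)) :=
    mul_le_mul_of_nonneg_left hs1 (by positivity)
  refine h7.trans ?_
  have h8 : ((X : ℝ) ^ 2 * w * L ^ 6) ^ 2 - (X : ℝ) * (X * w) ^ 2 * (2 * (X * L ^ 10)) =
      (X ^ 2 * w * L ^ 5) ^ 2 * (L ^ 2 - 2) := by ring
  have h9 : 0 ≤ L ^ 2 - 2 := by nlinarith
  have h10 : 0 ≤ ((X : ℝ) ^ 2 * w * L ^ 5) ^ 2 * (L ^ 2 - 2) := mul_nonneg (sq_nonneg _) h9
  linarith

end Pool.Agent.Lib.H59P
end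

-- from Lib.H59P.S4
section

/-!
# Project H59P, chunk S4: the primes are replaced by the projection, in mean square over the tuples
-/

open Finset

namespace Pool.Agent.Lib.H59P

open Pool.Agent.Lib.H68T Pool.Agent.Lib.H18Q

/-- **S4.** Proof. `S3` for each `n`: `Rh - Rs = ∑_j D_j`, `D_j(h) = ∑_n ∏_i f_{j,i}(n+h_i)`,
`f_{j,i} = Lk` for `i < j`, `lp - Lk` for `i = j`, `lp` for `i > j`. `S0c` with `W i = X (log X)^10` (`S1`),
`V = X² Q^(-1/4) (log X)^6` (`S2`), `|I| = X`: `∑_h D_j² ≤ X · V · (X (log X)^10)^(k-1)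
= X^(k+2) Q^(-1/4) (log X)^(10 k - 4)`. `(∑_j D_j)² ≤ k ∑_j D_j²` and `k² ≤ (log X)^(10 k)`
(`k ≤ 2^k`, `log X ≥ 2`). -/
theorem S4 : ∃ K : ℝ, 1 ≤ K ∧ ∀ (k Q X : ℕ) (B : ℤ → Ch → ℂ) (mb : Ch → ℝ), RegP K Q X → Cf Q X B mb →
    ∑ h ∈ bx k X, (Rh X h - Rs Q X h) ^ 2 ≤
      (X : ℝ) ^ (k + 2) * (Q : ℝ) ^ (-(1 / 4) : ℝ) * (Real.log X) ^ (20 * k) := by
  obtain ⟨K1, hK1, h1⟩ := S1
  obtain ⟨K2, hK2, h2⟩ := S2
  refine ⟨max (max K1 K2) 100, le_max_of_le_left (le_max_of_le_left hK1), fun k Q X B mb hr hB => ?_⟩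
  have hM0 : (0 : ℝ) ≤ max (max K1 K2) 100 := le_max_of_le_right (by norm_num)
  have hr1 : RegP K1 Q X := hr.mono hM0 ((le_max_left _ _).trans (le_max_left _ _))
  have hr2 : RegP K2 Q X := hr.mono hM0 ((le_max_right _ _).trans (le_max_left _ _))
  have hr3 : RegP 100 Q X := hr.mono hM0 (le_max_right _ _)
  have h100 : (0 : ℝ) < 100 := by norm_num
  set L : ℝ := Real.log X with hLdef
  have hL : (100 : ℝ) ≤ L := by
    have e1 := hr3.logX_ge h100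
    have e2 := Real.add_one_le_exp (100 : ℝ)
    linarith
  have hX0 : (0 : ℝ) ≤ X := Nat.cast_nonneg X
  have hQ0 : (0 : ℝ) ≤ (Q : ℝ) ^ (-(1 / 4) : ℝ) := Real.rpow_nonneg (Nat.cast_nonneg Q) _
  set W : ℝ := X * L ^ 10 with hW
  set V : ℝ := (X : ℝ) ^ 2 * (Q : ℝ) ^ (-(1 / 4) : ℝ) * L ^ 6 with hV
  have hW0 : 0 ≤ W := by positivity
  have hV0 : 0 ≤ V := by positivity
  obtain ⟨f, hf⟩ : ∃ f : Fin k → Fin k → ℤ → ℝ, f = fun j i m =>
    if i < j then Lk Q (X / Q ^ 2) m else if i = j then H68T.lp m - Lk Q (X / Q ^ 2) m else H68T.lp m := ⟨_, rfl⟩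
  have hdiff : ∀ h : Fin k → ℕ, Rh X h - Rs Q X h =
      ∑ j, ∑ n ∈ Ico X (2 * X), ∏ i, f j i ((n : ℤ) + h i) := by
    intro h
    unfold Rh Rs
    rw [← Finset.sum_sub_distrib, Finset.sum_comm]
    refine Finset.sum_congr rfl fun n _ => ?_
    rw [S3 (fun i => H68T.lp ((n : ℤ) + h i)) (fun i => Lk Q (X / Q ^ 2) ((n : ℤ) + h i)), hf]
  have hj : ∀ j : Fin k, ∑ h ∈ bx k X, (∑ n ∈ Ico X (2 * X), ∏ i, f j i ((n : ℤ) + h i)) ^ 2 ≤
      X * V * W ^ (k - 1) := by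
    intro j
    have e1 := S0c X (Ico X (2 * X)) (f j) (fun _ => W) j (by
      intro i n hn
      have hn' : n ∈ Icc X (2 * X) := mem_Icc.2 ⟨(mem_Ico.1 hn).1, (mem_Ico.1 hn).2.le⟩
      obtain ⟨g1, g2, g3⟩ := h1 Q X B mb hr1 hB n hn'
      rcases lt_trichotomy i j with hij | hij | hij
      · simp only [hf, if_pos hij]
        exact g1
      · simp only [hf, if_neg (not_lt.2 hij.symm.le), if_pos hij]
        exact g3
      · simp only [hf, if_neg (not_lt.2 hij.le), if_neg hij.ne']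
        exact g2) V hV0 (by
      simp only [hf, lt_irrefl, if_false, if_true]
      exact h2 Q X B mb hr2 hB)
    have hcard : ((Ico X (2 * X)).card : ℝ) = X := by
      rw [Nat.card_Ico]
      congr 1
      omega
    rw [hcard, Finset.prod_const, Finset.card_erase_of_mem (Finset.mem_univ j), Finset.card_univ,
      Fintype.card_fin] at e1
    exact e1
  have hsum : ∑ h ∈ bx k X, (Rh X h - Rs Q X h) ^ 2 ≤ k * (k * (X * V * W ^ (k - 1))) := by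
    calc ∑ h ∈ bx k X, (Rh X h - Rs Q X h) ^ 2
        ≤ ∑ h ∈ bx k X, (k : ℝ) * ∑ j, (∑ n ∈ Ico X (2 * X), ∏ i, f j i ((n : ℤ) + h i)) ^ 2 := by
          refine Finset.sum_le_sum fun h _ => ?_
          rw [hdiff h]
          refine sq_sum_le_card_mul_sum_sq.trans (le_of_eq ?_)
          rw [Finset.card_univ, Fintype.card_fin]
      _ = (k : ℝ) * ∑ j, ∑ h ∈ bx k X, (∑ n ∈ Ico X (2 * X), ∏ i, f j i ((n : ℤ) + h i)) ^ 2 := by
          rw [← Finset.mul_sum, Finset.sum_comm]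
      _ ≤ (k : ℝ) * ∑ _j : Fin k, (X * V * W ^ (k - 1)) :=
          mul_le_mul_of_nonneg_left (Finset.sum_le_sum fun j _ => hj j) (Nat.cast_nonneg k)
      _ = k * (k * (X * V * W ^ (k - 1))) := by
          rw [Finset.sum_const, Finset.card_univ, Fintype.card_fin, nsmul_eq_mul]
  refine hsum.trans ?_
  rcases Nat.eq_zero_or_pos k with hk | hk
  · rw [hk]
    simp only [Nat.cast_zero, zero_mul]
    positivity
  obtain ⟨m, rfl⟩ : ∃ m, k = m + 1 := ⟨k - 1, by omega⟩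
  have hk2 : ((m + 1 : ℕ) : ℝ) ^ 2 ≤ L ^ (m + 1) := by
    have e1 : ((m + 1 : ℕ) : ℝ) ≤ 2 ^ (m + 1) := by
      exact_mod_cast (Nat.lt_two_pow_self (n := m + 1)).le
    calc ((m + 1 : ℕ) : ℝ) ^ 2 ≤ (2 ^ (m + 1)) ^ 2 := pow_le_pow_left₀ (Nat.cast_nonneg _) e1 2
      _ = 4 ^ (m + 1) := by rw [← pow_mul, mul_comm, pow_mul]; norm_num
      _ ≤ L ^ (m + 1) := pow_le_pow_left₀ (by norm_num) (by linarith) _
  have hL1 : (1 : ℝ) ≤ L := by linarith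
  calc ((m + 1 : ℕ) : ℝ) * (((m + 1 : ℕ) : ℝ) * (X * V * W ^ (m + 1 - 1)))
      = (X : ℝ) ^ (m + 1 + 2) * (Q : ℝ) ^ (-(1 / 4) : ℝ) * (((m + 1 : ℕ) : ℝ) ^ 2 * L ^ (10 * m + 6)) := by
        rw [Nat.add_sub_cancel, hW, hV, mul_pow, ← pow_mul]
        ring
    _ ≤ (X : ℝ) ^ (m + 1 + 2) * (Q : ℝ) ^ (-(1 / 4) : ℝ) * L ^ (20 * (m + 1)) := by
        refine mul_le_mul_of_nonneg_left ?_ (by positivity)
        calc ((m + 1 : ℕ) : ℝ) ^ 2 * L ^ (10 * m + 6) ≤ L ^ (m + 1) * L ^ (10 * m + 6) :=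
              mul_le_mul_of_nonneg_right hk2 (by positivity)
          _ = L ^ (m + 1 + (10 * m + 6)) := by rw [← pow_add]
          _ ≤ L ^ (20 * (m + 1)) := pow_le_pow_right₀ hL1 (by omega)

end Pool.Agent.Lib.H59P
end

-- from Lib.H59P.V1B
section

/-!
# Project H59P, chunk V1b
-/

open Finset

namespace Pool.Agent.Lib.H59P

open Pool.Agent.Lib.H68T Pool.Agent.Lib.H18Q

/-- difference of two products -/
theorem v1b_prod {ι : Type*} (s : Finset ι) (x y : ι → ℂ) (M : ι → ℝ) (δ : ℝ) (hδ : 0 ≤ δ)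
    (hM : ∀ i, 0 ≤ M i) (hx : ∀ i ∈ s, ‖x i‖ ≤ M i) (hy : ∀ i ∈ s, ‖y i‖ ≤ M i)
    (hd : ∀ i ∈ s, ‖x i - y i‖ ≤ δ * M i) :
    ‖∏ i ∈ s, x i - ∏ i ∈ s, y i‖ ≤ s.card * δ * ∏ i ∈ s, M i := by
  classical
  induction s using Finset.induction_on with
  | empty => simp
  | insert a s ha ih =>
    have ih' := ih (fun i hi => hx i (Finset.mem_insert_of_mem hi))
      (fun i hi => hy i (Finset.mem_insert_of_mem hi)) (fun i hi => hd i (Finset.mem_insert_of_mem hi))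
    rw [Finset.prod_insert ha, Finset.prod_insert ha, Finset.prod_insert ha,
      Finset.card_insert_of_notMem ha]
    have e1 : x a * ∏ i ∈ s, x i - y a * ∏ i ∈ s, y i =
        (x a - y a) * ∏ i ∈ s, x i + y a * (∏ i ∈ s, x i - ∏ i ∈ s, y i) := by ring
    rw [e1]
    have hP : ‖∏ i ∈ s, x i‖ ≤ ∏ i ∈ s, M i := by
      rw [norm_prod]
      exact Finset.prod_le_prod (fun i _ => norm_nonneg _)
        (fun i hi => hx i (Finset.mem_insert_of_mem hi))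
    have hP0 : 0 ≤ ∏ i ∈ s, M i := Finset.prod_nonneg fun i _ => hM i
    have h1 := hd a (Finset.mem_insert_self a s)
    have h2 := hy a (Finset.mem_insert_self a s)
    calc ‖(x a - y a) * ∏ i ∈ s, x i + y a * (∏ i ∈ s, x i - ∏ i ∈ s, y i)‖
        ≤ ‖x a - y a‖ * ‖∏ i ∈ s, x i‖ + ‖y a‖ * ‖∏ i ∈ s, x i - ∏ i ∈ s, y i‖ := by
          refine (norm_add_le _ _).trans ?_
          rw [norm_mul, norm_mul]
      _ ≤ (δ * M a) * ∏ i ∈ s, M i + M a * (s.card * δ * ∏ i ∈ s, M i) := by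
          have hMa := hM a
          apply add_le_add
          · exact mul_le_mul h1 hP (norm_nonneg _) (by positivity)
          · exact mul_le_mul h2 ih' (norm_nonneg _) hMa
      _ = ((s.card + 1 : ℕ) : ℝ) * δ * (M a * ∏ i ∈ s, M i) := by
          push_cast
          ring

/-- `SG` is additive in the coefficients -/
theorem v1b_sub (Q : ℕ) (b c : Ch → ℂ) (m : ℤ) :
    SG Q b m - SG Q c m = SG Q (fun p => b p - c p) m := by
  unfold SG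
  rw [← Finset.sum_sub_distrib]
  refine Finset.sum_congr rfl fun p _ => ?_
  ring

/-- Pointwise comparison. `Z = 300 (1 + log Q)^3`.

Proof. `|∏ x_i - ∏ y_i| ≤ ∑_j |x_j - y_j| ∏_{i≠j} max(|x_i|,|y_i|)` (`Finset.prod_sub_prod` type estimate;
induction); each `|x_i|, |y_i| ≤ Z dQ Q (n+h_i)` (`S1b`), and `|x_j - y_j| ≤ 100 (1+log Q)^3 dQ Q(n+h_j) ∑_p
‖B(n+h_j) p - B(base) p‖ ≤ Z dQ · Q² · 2H · 2Q³/X` (`V1a`: `0 ≤ n + h_j - (bs H n + bs H h_j) < 2H`, the base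
point is `≥ X` since `n ≥ X = H q0` is a multiple of `H` (`bs H n ≥ X`); `card_PC_le`), and
`2H · 2Q^5/X = 4 Q^5/Q^8`. So the difference is at most `k (4/Q^3) Z^k ∏ dQ`. -/
theorem V1b {k : ℕ} (Q X H : ℕ) (hQ : 1 ≤ Q) (hX : X = H * Q ^ 8) (hH : 1 ≤ H) (B : ℤ → Ch → ℂ)
    (mb : Ch → ℝ) (hB : Cf Q X B mb) (h : Fin k → ℕ) (hh : h ∈ bx k X) (n : ℕ) (hn : n ∈ Ico X (2 * X)) :
    ‖∏ i, SG Q (B ((n : ℤ) + h i)) ((n : ℤ) + h i) -
      ∏ i, SG Q (B (((bs H n + bs H (h i) : ℕ) : ℤ))) ((n : ℤ) + h i)‖ ≤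
      k * (4 / (Q : ℝ) ^ 3) * (300 * (1 + Real.log Q) ^ 3) ^ k * ∏ i, dQ Q ((n : ℤ) + h i) := by
  have hQ1 : (1 : ℝ) ≤ Q := by exact_mod_cast hQ
  have hQ0 : (0 : ℝ) < Q := by linarith
  have hH1 : (1 : ℝ) ≤ H := by exact_mod_cast hH
  have hlog : 0 ≤ Real.log Q := Real.log_nonneg hQ1
  have hXr : (X : ℝ) = H * (Q : ℝ) ^ 8 := by
    rw [hX]
    push_cast
    ring
  have hX0 : (0 : ℝ) < X := by
    rw [hXr]
    positivity
  rw [Finset.mem_Ico] at hn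
  have hhi : ∀ i, h i < X := by
    intro i
    have := Fintype.mem_piFinset.1 hh i
    exact Finset.mem_range.1 this
  have hbsn : X ≤ bs H n := by
    unfold bs
    have h1 : Q ^ 8 ≤ n / H := by
      rw [Nat.le_div_iff_mul_le (by omega)]
      calc Q ^ 8 * H = X := by rw [hX]; ring
        _ ≤ n := hn.1
    calc X = Q ^ 8 * H := by rw [hX]; ring
      _ ≤ n / H * H := Nat.mul_le_mul_right _ h1
  have hbsle : ∀ m : ℕ, bs H m ≤ m := fun m => Nat.div_mul_le_self m H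
  have hbslt : ∀ m : ℕ, m < bs H m + H := by
    intro m
    unfold bs
    have h1 := Nat.div_add_mod' m H
    have h2 := Nat.mod_lt m (show 0 < H by omega)
    omega
  have hZ : (∏ i : Fin k, (300 * (1 + Real.log Q) ^ 3 * dQ Q ((n : ℤ) + h i))) =
      (300 * (1 + Real.log Q) ^ 3) ^ k * ∏ i, dQ Q ((n : ℤ) + h i) := by
    rw [Finset.prod_mul_distrib, Finset.prod_const, Finset.card_univ, Fintype.card_fin]
  have hdq : ∀ i : Fin k, 0 ≤ dQ Q ((n : ℤ) + h i) := by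
    intro i
    unfold dQ
    positivity
  have hC0 : 0 ≤ 100 * (1 + Real.log Q) ^ 3 := by positivity
  -- bounds for both factors
  have hsg : ∀ (m : ℤ) (i : Fin k), (X : ℤ) ≤ m → m ≤ 4 * X →
      ‖SG Q (B m) ((n : ℤ) + h i)‖ ≤ 300 * (1 + Real.log Q) ^ 3 * dQ Q ((n : ℤ) + h i) := by
    intro m i h1 h2
    refine (S1b Q hQ (B m) mb (hB.le m h1 h2) _).trans ?_
    have h3 : 0 ≤ 100 * (1 + Real.log Q) ^ 3 * dQ Q ((n : ℤ) + h i) := mul_nonneg hC0 (hdq i)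
    calc 100 * (1 + Real.log Q) ^ 3 * dQ Q ((n : ℤ) + h i) * ∑ p ∈ PC Q, mb p
        ≤ 100 * (1 + Real.log Q) ^ 3 * dQ Q ((n : ℤ) + h i) * 3 :=
          mul_le_mul_of_nonneg_left hB.sum h3
      _ = 300 * (1 + Real.log Q) ^ 3 * dQ Q ((n : ℤ) + h i) := by ring
  have hr1 : ∀ i : Fin k, (X : ℤ) ≤ (n : ℤ) + h i ∧ (n : ℤ) + h i ≤ 4 * X := by
    intro i
    have := hhi i
    constructor
    · omega
    · omega
  have hr2 : ∀ i : Fin k, (X : ℤ) ≤ ((bs H n + bs H (h i) : ℕ) : ℤ) ∧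
      ((bs H n + bs H (h i) : ℕ) : ℤ) ≤ (n : ℤ) + h i ∧
      (n : ℤ) + h i - ((bs H n + bs H (h i) : ℕ) : ℤ) ≤ 2 * H := by
    intro i
    have h1 := hbsle n
    have h2 := hbsle (h i)
    have h3 := hbslt n
    have h4 := hbslt (h i)
    refine ⟨?_, ?_, ?_⟩ <;> omega
  have key := v1b_prod (Finset.univ : Finset (Fin k))
    (fun i => SG Q (B ((n : ℤ) + h i)) ((n : ℤ) + h i))
    (fun i => SG Q (B (((bs H n + bs H (h i) : ℕ) : ℤ))) ((n : ℤ) + h i))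
    (fun i => 300 * (1 + Real.log Q) ^ 3 * dQ Q ((n : ℤ) + h i)) (4 / (Q : ℝ) ^ 3) (by positivity)
    (fun i => mul_nonneg (by positivity) (hdq i))
    (fun i _ => hsg _ i (hr1 i).1 (hr1 i).2)
    (fun i _ => hsg _ i (hr2 i).1 ((hr2 i).2.1.trans (hr1 i).2))
    (fun i _ => ?_)
  · rw [hZ, Finset.card_univ, Fintype.card_fin] at key
    refine key.trans (le_of_eq ?_)
    ring
  · rw [v1b_sub]
    have h1 : ∀ p ∈ PC Q, ‖B ((n : ℤ) + h i) p - B (((bs H n + bs H (h i) : ℕ) : ℤ)) p‖ ≤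
        4 / (Q : ℝ) ^ 5 := by
      intro p hp
      refine (V1a Q X B mb hB _ _ (hr2 i).1 (hr2 i).2.1 (hr1 i).2 p hp).trans ?_
      have h2 : (((n : ℤ) + h i : ℤ) : ℝ) - (((bs H n + bs H (h i) : ℕ) : ℤ) : ℝ) ≤ 2 * H := by
        exact_mod_cast (hr2 i).2.2
      calc ((((n : ℤ) + h i : ℤ) : ℝ) - (((bs H n + bs H (h i) : ℕ) : ℤ) : ℝ)) * (2 * (Q : ℝ) ^ 3 / X)
          ≤ 2 * H * (2 * (Q : ℝ) ^ 3 / X) := mul_le_mul_of_nonneg_right h2 (by positivity)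
        _ = 4 / (Q : ℝ) ^ 5 := by
            rw [hXr]
            field_simp
            ring
    refine (S1b Q hQ _ (fun _ => 4 / (Q : ℝ) ^ 5) h1 _).trans ?_
    rw [Finset.sum_const, nsmul_eq_mul]
    have hc : ((PC Q).card : ℝ) ≤ (Q : ℝ) ^ 2 := by exact_mod_cast card_PC_le Q
    have h3 : 0 ≤ 100 * (1 + Real.log Q) ^ 3 * dQ Q ((n : ℤ) + h i) := mul_nonneg hC0 (hdq i)
    calc 100 * (1 + Real.log Q) ^ 3 * dQ Q ((n : ℤ) + h i) * (((PC Q).card : ℝ) * (4 / (Q : ℝ) ^ 5))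
        ≤ 100 * (1 + Real.log Q) ^ 3 * dQ Q ((n : ℤ) + h i) * ((Q : ℝ) ^ 2 * (4 / (Q : ℝ) ^ 5)) := by
          apply mul_le_mul_of_nonneg_left _ h3
          exact mul_le_mul_of_nonneg_right hc (by positivity)
      _ = 4 / (Q : ℝ) ^ 3 * (100 * (1 + Real.log Q) ^ 3 * dQ Q ((n : ℤ) + h i)) := by
          field_simp
      _ ≤ 4 / (Q : ℝ) ^ 3 * (300 * (1 + Real.log Q) ^ 3 * dQ Q ((n : ℤ) + h i)) := by
          apply mul_le_mul_of_nonneg_left _ (by positivity)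
          have h5 : 0 ≤ (1 + Real.log Q) ^ 3 * dQ Q ((n : ℤ) + h i) := mul_nonneg (by positivity) (hdq i)
          nlinarith

end Pool.Agent.Lib.H59P
end

-- from Lib.H59P.V1
section

/-!
# Project H59P, chunk V1
-/

open Finset

namespace Pool.Agent.Lib.H59P

open Pool.Agent.Lib.H68T Pool.Agent.Lib.H18Q

/-- **V1.** Proof. `Rs = ∑_n ∏_i SG Q (B (n+h_i)) (n+h_i)` (`Cf.eq`, `n + h_i < 3X`), `V1b` summed over `n`,
then `S0b` with `f_i = dQ Q`, `W i = 8 X (1+log Q)^3` (`S1a`): mean square at most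
`(k (4/Q^3) Z^k)² X² (8 X (1+log Q)^3)^k`; `Z² · 8 (1+log Q)^3 ≤ (log X)^10`, `k² 16 ≤ 16 (log X)^(2k)`, `16/Q^6 ≤
Q^(-4)`. -/
theorem V1 : ∃ K : ℝ, 1 ≤ K ∧ ∀ (k Q X H : ℕ) (B : ℤ → Ch → ℂ) (mb : Ch → ℝ), RegP K Q X →
    X = H * Q ^ 8 → Cf Q X B mb →
    ∑ h ∈ bx k X, ‖((Rs Q X h : ℝ) : ℂ) - Rc Q X H B h‖ ^ 2 ≤
      (X : ℝ) ^ (k + 2) * (Q : ℝ) ^ (-(4) : ℝ) * (Real.log X) ^ (20 * k) := by
  refine ⟨1000000, by norm_num, fun k Q X H B mb hr hX hB => ?_⟩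
  have hK0 : (0 : ℝ) < 1000000 := by norm_num
  have hK1 : (1 : ℝ) ≤ 1000000 := by norm_num
  have hQ : 1 ≤ Q := hr.Q_pos hK1
  have hXp : 0 < X := hr.X_pos hK0
  have hH : 1 ≤ H := by
    rcases Nat.eq_zero_or_pos H with h0 | h0
    · rw [h0, zero_mul] at hX; omega
    · exact h0
  have hQX : Q ^ 2 ≤ X := by
    rw [hX]
    calc Q ^ 2 ≤ Q ^ 8 := Nat.pow_le_pow_right hQ (by norm_num)
      _ ≤ H * Q ^ 8 := Nat.le_mul_of_pos_left _ hH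
  set L : ℝ := Real.log X with hLdef
  set q : ℝ := 1 + Real.log Q with hqdef
  have hL : (1000000 : ℝ) ≤ L := by
    have e1 := hr.logX_ge hK0
    have e2 := Real.add_one_le_exp (1000000 : ℝ)
    linarith
  have hlQ : 0 ≤ Real.log Q := Real.log_natCast_nonneg Q
  have hq0 : 0 ≤ q := by rw [hqdef]; linarith
  have hq : q ≤ L := by
    have e1 := hr.logQ_le hK1
    rw [hqdef]
    nlinarith
  have hQr : (1000000 : ℝ) ≤ Q := hr.Q_ge hK1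
  have hX0 : (0 : ℝ) ≤ X := Nat.cast_nonneg X
  set c : ℝ := (k : ℝ) * (4 / (Q : ℝ) ^ 3) * (300 * q ^ 3) ^ k with hc
  have hpt : ∀ h ∈ bx k X, ‖((Rs Q X h : ℝ) : ℂ) - Rc Q X H B h‖ ^ 2 ≤
      c ^ 2 * (∑ n ∈ Ico X (2 * X), ∏ i, dQ Q ((n : ℤ) + h i)) ^ 2 := by
    intro h hh
    have hhi : ∀ i, h i < X := fun i => mem_range.1 (Fintype.mem_piFinset.1 hh i)
    have e1 : ((Rs Q X h : ℝ) : ℂ) =
        ∑ n ∈ Ico X (2 * X), ∏ i, SG Q (B ((n : ℤ) + h i)) ((n : ℤ) + h i) := by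
      unfold Rs
      rw [Complex.ofReal_sum]
      refine Finset.sum_congr rfl fun n hn => ?_
      rw [Complex.ofReal_prod]
      refine Finset.prod_congr rfl fun i _ => ?_
      have h1 := mem_Ico.1 hn
      have h2 := hhi i
      exact hB.eq _ (by omega) (by omega)
    rw [e1, Rc, ← Finset.sum_sub_distrib]
    have h1 : ‖∑ n ∈ Ico X (2 * X), (∏ i, SG Q (B ((n : ℤ) + h i)) ((n : ℤ) + h i) -
        ∏ i, SG Q (B (((bs H n + bs H (h i) : ℕ) : ℤ))) ((n : ℤ) + h i))‖ ≤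
        ∑ n ∈ Ico X (2 * X), c * ∏ i, dQ Q ((n : ℤ) + h i) :=
      (norm_sum_le _ _).trans (Finset.sum_le_sum fun n hn =>
        V1b Q X H hQ hX hH B mb hB h hh n hn)
    rw [← Finset.mul_sum] at h1
    calc _ ≤ (c * ∑ n ∈ Ico X (2 * X), ∏ i, dQ Q ((n : ℤ) + h i)) ^ 2 :=
          pow_le_pow_left₀ (norm_nonneg _) h1 2
      _ = _ := mul_pow _ _ _
  have hS := S0b (k := k) X (Ico X (2 * X)) (fun _ => dQ Q) (fun _ => 8 * X * q ^ 3)
    (fun i n _ => S1a Q X hQ hQX n)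
  have hcard : ((Ico X (2 * X)).card : ℝ) = X := by
    rw [Nat.card_Ico]
    congr 1
    omega
  rw [hcard, Finset.prod_const, Finset.card_univ, Fintype.card_fin] at hS
  have hA : (k : ℝ) ^ 2 * (720000 * q ^ 9) ^ k ≤ L ^ (20 * k) := by
    have h1 : (k : ℝ) ≤ 2 ^ k := by exact_mod_cast (Nat.lt_two_pow_self (n := k)).le
    have h2 : (k : ℝ) ^ 2 ≤ 4 ^ k := by
      calc (k : ℝ) ^ 2 ≤ (2 ^ k) ^ 2 := pow_le_pow_left₀ (Nat.cast_nonneg k) h1 2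
        _ = 4 ^ k := by rw [← pow_mul, mul_comm, pow_mul]; norm_num
    have h3 : 4 * (720000 * q ^ 9) ≤ L ^ 20 := by
      have h4 : q ^ 9 ≤ L ^ 9 := pow_le_pow_left₀ hq0 hq 9
      have h5 : (2880000 : ℝ) ≤ L ^ 2 := by nlinarith
      calc 4 * (720000 * q ^ 9) = 2880000 * q ^ 9 := by ring
        _ ≤ L ^ 2 * L ^ 9 := mul_le_mul h5 h4 (by positivity) (by positivity)
        _ = L ^ 11 := by ring
        _ ≤ L ^ 20 := pow_le_pow_right₀ (by linarith) (by norm_num)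
    calc (k : ℝ) ^ 2 * (720000 * q ^ 9) ^ k ≤ 4 ^ k * (720000 * q ^ 9) ^ k :=
          mul_le_mul_of_nonneg_right h2 (by positivity)
      _ = (4 * (720000 * q ^ 9)) ^ k := (mul_pow _ _ _).symm
      _ ≤ (L ^ 20) ^ k := pow_le_pow_left₀ (by positivity) h3 k
      _ = L ^ (20 * k) := by rw [← pow_mul]
  have hQ4 : 16 / (Q : ℝ) ^ 6 ≤ (Q : ℝ) ^ (-(4) : ℝ) := by
    have hQp : (0 : ℝ) < Q := by linarith
    have e1 : (Q : ℝ) ^ (-(4) : ℝ) = ((Q : ℝ) ^ 4)⁻¹ := by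
      rw [Real.rpow_neg hQp.le]
      congr 1
      exact_mod_cast Real.rpow_natCast (Q : ℝ) 4
    rw [e1, div_le_iff₀ (by positivity)]
    have e2 : ((Q : ℝ) ^ 4)⁻¹ * (Q : ℝ) ^ 6 = (Q : ℝ) ^ 2 := by field_simp
    rw [e2]
    nlinarith
  calc ∑ h ∈ bx k X, ‖((Rs Q X h : ℝ) : ℂ) - Rc Q X H B h‖ ^ 2
      ≤ ∑ h ∈ bx k X, c ^ 2 * (∑ n ∈ Ico X (2 * X), ∏ i, dQ Q ((n : ℤ) + h i)) ^ 2 :=
        Finset.sum_le_sum hpt
    _ = c ^ 2 * ∑ h ∈ bx k X, (∑ n ∈ Ico X (2 * X), ∏ i, dQ Q ((n : ℤ) + h i)) ^ 2 := by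
        rw [Finset.mul_sum]
    _ ≤ c ^ 2 * ((X : ℝ) ^ 2 * (8 * X * q ^ 3) ^ k) := mul_le_mul_of_nonneg_left hS (sq_nonneg c)
    _ = (X : ℝ) ^ (k + 2) * (16 / (Q : ℝ) ^ 6) * ((k : ℝ) ^ 2 * (720000 * q ^ 9) ^ k) := by
        have e1 : (720000 * q ^ 9) ^ k = ((300 * q ^ 3) ^ k) ^ 2 * (8 * q ^ 3) ^ k := by
          rw [← pow_mul, mul_comm k 2, pow_mul, ← mul_pow]
          congr 1
          ring
        have e2 : (8 * (X : ℝ) * q ^ 3) ^ k = (X : ℝ) ^ k * (8 * q ^ 3) ^ k := by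
          rw [← mul_pow]
          congr 1
          ring
        rw [e1, e2, hc, pow_add]
        ring
    _ ≤ (X : ℝ) ^ (k + 2) * (Q : ℝ) ^ (-(4) : ℝ) * L ^ (20 * k) := by
        have h0 : (0 : ℝ) ≤ (X : ℝ) ^ (k + 2) := by positivity
        refine mul_le_mul (mul_le_mul_of_nonneg_left hQ4 h0) hA (by positivity) ?_
        exact mul_nonneg h0 (Real.rpow_nonneg (Nat.cast_nonneg Q) _)

end Pool.Agent.Lib.H59P
end
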