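import Pool.Agent.Lib.H59M.M1.M004
import Pool.Agent.Lib.H59M.M1.M010
import Pool.Agent.Lib.H59M.M1.M014
import Pool.Agent.Lib.H59M.M1.M058

/-! Merged copies (to shorten the build) of Lib.H59P.FDefs, Lib.H59P.F1A, Lib.H59P.F1B, Lib.H59P.F1, Lib.H59P.F2, Lib.H59P.F3, Lib.H59P.F4, Lib.H59P.F5, Lib.H59P.F. -/

-- from Lib.H59P.FDefs
section

/-!
# Project H59P, module F (frequencies): definitions
-/

open Finset

namespace Pool.Agent.Lib.H59P

open Pool.Agent.Lib.H68T Pool.Agent.Lib.H18Q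

noncomputable section

/-- The residues coprime to `q`. -/
def UR (q : ℕ) : Finset ℕ := (range q).filter (fun x => Nat.Coprime x q)

/-- The index set of the frequencies of a coordinate of conductor `r`: the pairs `(κ, x)`,
`κ ∈ KS Q r`, `x < r κ` coprime to `r κ`. -/
def FJ (Q r : ℕ) : Finset (ℕ × ℕ) :=
  open Classical in ((KS Q r) ×ˢ (range Q)).filter (fun j => j.2 ∈ UR (r * j.1))

/-- The frequency `x/(r κ)` of the index `(κ, x)`. -/
def fr (r : ℕ) (j : ℕ × ℕ) : ℝ := (j.2 : ℝ) / ((r * j.1 : ℕ) : ℝ)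

end

end Pool.Agent.Lib.H59P
end

-- from Lib.H59P.F1A
section

/-!
# Project H59P, chunk F1a: Fourier expansion of a primitive character
-/

open Finset

namespace Pool.Agent.Lib.H59P

open Pool.Agent.Lib.H68T Pool.Agent.Lib.H18Q

theorem f1a_e (r : ℕ) [NeZero r] (m : ℤ) (b : ℕ) : ZMod.stdAddChar ((m : ZMod r) * (b : ZMod r)) =
    e ((m : ℝ) * ((b : ℝ) / r)) := by
  have h := ZMod.stdAddChar_coe (N := r) (m * (b : ℤ))
  push_cast at h
  rw [h, e]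
  congr 1
  push_cast
  ring

/-- **F1a.** Proof. `gaussSum_mulShift_of_isPrimitive` (as in `ls_gauss`, `H59C/LSB.lean`) and `lsb_gauss`:
`τ conj χ(m) = ∑_y χ(y) e(y m / r)`, `|τ|² = r`, `χ(y) = 0` if `(y,r) ≠ 1`: `d y = χ(y)/τ`. Sum over `ZMod r`
to `range r`: `CA_range` (`H18Q/CA.lean`), `ZMod.stdAddChar` to `e`: `lsb_e`. -/
theorem F1a (r : ℕ) [NeZero r] (χ : DirichletCharacter ℂ r) (hχ : χ.IsPrimitive) : ∃ d : ℕ → ℂ,
    (∀ y, ‖d y‖ ^ 2 ≤ 1 / (r : ℝ)) ∧ ∀ m : ℤ, (starRingEnd ℂ) (χ (m : ZMod r)) =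
      ∑ y ∈ UR r, d y * e ((m : ℝ) * ((y : ℝ) / r)) := by
  have hr0 : (0 : ℝ) < r := by exact_mod_cast NeZero.pos r
  obtain ⟨τ, hτ⟩ : ∃ τ : ℂ, τ = gaussSum χ (ZMod.stdAddChar (N := r)) := ⟨_, rfl⟩
  have hn : ‖τ‖ ^ 2 = r := by rw [hτ]; exact Pool.Agent.Lib.H59C.lsb_gauss r hχ
  have hτ0 : τ ≠ 0 := by
    intro h
    rw [h, norm_zero] at hn
    norm_num at hn
    exact hr0.ne hn
  refine ⟨fun y => χ (y : ZMod r) / τ, ?_, ?_⟩
  · intro y
    rw [norm_div, div_pow, hn]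
    have h1 : ‖χ (y : ZMod r)‖ ^ 2 ≤ 1 := pow_le_one₀ (norm_nonneg _) (DirichletCharacter.norm_le_one _ _)
    exact div_le_div_of_nonneg_right h1 hr0.le
  · intro m
    have h1 : (starRingEnd ℂ) (χ (m : ZMod r)) = χ⁻¹ (m : ZMod r) := MulChar.star_apply' χ (m : ZMod r)
    have h2 := gaussSum_mulShift_of_isPrimitive (ZMod.stdAddChar (N := r)) hχ (m : ZMod r)
    rw [← hτ, gaussSum] at h2
    have h3 : ∑ b : ZMod r, χ b * (AddChar.mulShift (ZMod.stdAddChar (N := r)) (m : ZMod r)) b =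
        ∑ y ∈ UR r, χ (y : ZMod r) * e ((m : ℝ) * ((y : ℝ) / r)) := by
      rw [← CA_range r fun b => χ b * (AddChar.mulShift (ZMod.stdAddChar (N := r)) (m : ZMod r)) b]
      unfold UR
      rw [sum_filter]
      refine sum_congr rfl fun y _ => ?_
      split_ifs with hy
      · rw [AddChar.mulShift_apply, f1a_e]
      · have h4 : ¬ IsUnit (y : ZMod r) := by
          rw [ZMod.isUnit_iff_coprime]
          exact hy
        rw [MulChar.map_nonunit χ h4, zero_mul]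
    rw [h1]
    have h5 : χ⁻¹ (m : ZMod r) = (∑ y ∈ UR r, χ (y : ZMod r) * e ((m : ℝ) * ((y : ℝ) / r))) / τ := by
      rw [← h3, h2, mul_div_cancel_right₀ _ hτ0]
    rw [h5, sum_div]
    refine sum_congr rfl fun y _ => ?_
    ring

end Pool.Agent.Lib.H59P
end

-- from Lib.H59P.F1B
section

/-!
# Project H59P, chunk F1b: the Chinese remainder theorem for frequencies
-/

open Finset

namespace Pool.Agent.Lib.H59P

open Pool.Agent.Lib.H68T Pool.Agent.Lib.H18Q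

/-- an inverse modulo `n`, also for `n = 1` -/
theorem f1b_inv (a n : ℕ) (h : Nat.Coprime a n) : ∃ a' : ℕ, a * a' ≡ 1 [MOD n] ∧ Nat.Coprime a' n := by
  rcases Nat.eq_zero_or_pos n with h0 | h0
  · subst h0
    rw [Nat.coprime_zero_right] at h
    exact ⟨1, by rw [h], by simp⟩
  · obtain ⟨x, -, hx⟩ := Nat.exists_mul_mod_eq_of_coprime 1 h h0.ne'
    have hx' : a * x ≡ 1 [MOD n] := hx
    refine ⟨x, hx', ?_⟩
    have h1 := hx'.gcd_eq
    rw [Nat.gcd_one_left] at h1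
    exact Nat.Coprime.coprime_mul_left (k := a) h1

theorem f1b_e_per (m : ℤ) (N : ℕ) (hN : 1 ≤ N) (x y : ℕ) (h : x ≡ y [MOD N]) :
    e ((m : ℝ) * ((x : ℝ) / (N : ℝ))) = e ((m : ℝ) * ((y : ℝ) / (N : ℝ))) := by
  have hN0 : (N : ℝ) ≠ 0 := by
    have : (1 : ℝ) ≤ N := by exact_mod_cast hN
    linarith
  obtain ⟨t, ht⟩ := (Nat.modEq_iff_dvd).1 h
  have h1 : (y : ℝ) = x + N * t := by
    have h2 : (y : ℤ) = x + N * t := by linarith
    exact_mod_cast h2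
  have h3 : (m : ℝ) * ((y : ℝ) / (N : ℝ)) = (m : ℝ) * ((x : ℝ) / (N : ℝ)) + ((m * t : ℤ) : ℝ) := by
    rw [h1]
    push_cast
    field_simp
  rw [h3, CQ1_e_add, CQ1_e_int, mul_one]

/-- **F1b.** Proof. The map `(y, z) ↦ (y κ + z r) mod r κ` is a bijection from `UR r × UR κ` onto `UR (r κ)`
(injective: modulo `r` it is `y κ`, modulo `κ` it is `z r`; coprime to `r κ`; the cardinalities `φ(r) φ(κ) = φ(r κ)`
agree, or the inverse). `e(m (y κ + z r)/(r κ)) = e(m y/r) e(m z/κ)`, and multiples of `r κ` do not change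
`e(m x/(r κ))`, `m` an integer. So `c x = d (y x)` where `y x` is the `y` of `x` (any choice, for example
`y x = the y ∈ UR r with y κ ≡ x mod r`). -/
theorem F1b (r κ : ℕ) (hr : 1 ≤ r) (hκ : 1 ≤ κ) (hc : Nat.Coprime κ r) (d : ℕ → ℂ) : ∃ c : ℕ → ℂ,
    (∀ x, ∃ y, c x = d y) ∧ ∀ m : ℤ,
      (∑ y ∈ UR r, d y * e ((m : ℝ) * ((y : ℝ) / r))) * (∑ z ∈ UR κ, e ((m : ℝ) * ((z : ℝ) / κ))) =
      ∑ x ∈ UR (r * κ), c x * e ((m : ℝ) * fr r (κ, x)) := by
  obtain ⟨κ', hκ', hκc⟩ := f1b_inv κ r hc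
  obtain ⟨r', hr', hrc⟩ := f1b_inv r κ hc.symm
  have hr0 : (r : ℝ) ≠ 0 := by
    have : (1 : ℝ) ≤ r := by exact_mod_cast hr
    linarith
  have hκ0 : (κ : ℝ) ≠ 0 := by
    have : (1 : ℝ) ≤ κ := by exact_mod_cast hκ
    linarith
  have hN : 1 ≤ r * κ := Nat.one_le_iff_ne_zero.2 (Nat.mul_ne_zero (by omega) (by omega))
  refine ⟨fun x => d (x * κ' % r), fun x => ⟨_, rfl⟩, fun m => ?_⟩
  rw [sum_mul_sum, ← sum_product']
  -- congruences
  have c1 : ∀ y z : ℕ, (y * κ + z * r) % (r * κ) * κ' ≡ y [MOD r] := by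
    intro y z
    have h1 : (y * κ + z * r) % (r * κ) ≡ y * κ + z * r [MOD r] :=
      (Nat.mod_modEq _ _).of_dvd (dvd_mul_right r κ)
    have h2 : y * κ + z * r ≡ y * κ [MOD r] := by
      have : y * κ + z * r ≡ y * κ + 0 [MOD r] :=
        Nat.ModEq.add_left _ ((Nat.modEq_zero_iff_dvd).2 (dvd_mul_left r z))
      simp only [add_zero, zero_add] at this
      exact this
    have h3 : y * κ * κ' ≡ y * 1 [MOD r] := by
      rw [mul_assoc]
      exact Nat.ModEq.mul_left y hκ'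
    rw [mul_one] at h3
    exact ((h1.trans h2).mul_right κ').trans h3
  have c2 : ∀ y z : ℕ, (y * κ + z * r) % (r * κ) * r' ≡ z [MOD κ] := by
    intro y z
    have h1 : (y * κ + z * r) % (r * κ) ≡ y * κ + z * r [MOD κ] :=
      (Nat.mod_modEq _ _).of_dvd (dvd_mul_left κ r)
    have h2 : y * κ + z * r ≡ z * r [MOD κ] := by
      have : y * κ + z * r ≡ 0 + z * r [MOD κ] :=
        Nat.ModEq.add_right _ ((Nat.modEq_zero_iff_dvd).2 (dvd_mul_left κ y))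
      simp only [add_zero, zero_add] at this
      exact this
    have h3 : z * r * r' ≡ z * 1 [MOD κ] := by
      rw [mul_assoc]
      exact Nat.ModEq.mul_left z hr'
    rw [mul_one] at h3
    exact ((h1.trans h2).mul_right r').trans h3
  have c3 : ∀ x : ℕ, (x * κ' % r * κ + x * r' % κ * r) % (r * κ) ≡ x [MOD r * κ] := by
    intro x
    refine (Nat.mod_modEq _ _).trans ?_
    rw [← Nat.modEq_and_modEq_iff_modEq_mul hc.symm]
    constructor
    · have h1 : x * κ' % r * κ + x * r' % κ * r ≡ x * κ' * κ + 0 [MOD r] :=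
        ((Nat.mod_modEq _ _).mul_right κ).add ((Nat.modEq_zero_iff_dvd).2 (dvd_mul_left r _))
      refine h1.trans ?_
      rw [add_zero, mul_assoc, mul_comm κ' κ]
      have h2 := Nat.ModEq.mul_left x hκ'
      rwa [mul_one] at h2
    · have h1 : x * κ' % r * κ + x * r' % κ * r ≡ 0 + x * r' * r [MOD κ] :=
        ((Nat.modEq_zero_iff_dvd).2 (dvd_mul_left κ _)).add ((Nat.mod_modEq _ _).mul_right r)
      refine h1.trans ?_
      rw [zero_add, mul_assoc, mul_comm r' r]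
      have h2 := Nat.ModEq.mul_left x hr'
      rwa [mul_one] at h2
  refine sum_nbij' (fun p => (p.1 * κ + p.2 * r) % (r * κ)) (fun x => (x * κ' % r, x * r' % κ)) ?_ ?_ ?_ ?_ ?_
  · rintro ⟨y, z⟩ hp
    rw [mem_product] at hp
    unfold UR at hp ⊢
    simp only [mem_filter, mem_range] at hp ⊢
    refine ⟨Nat.mod_lt _ hN, ?_⟩
    have h1 : Nat.Coprime (y * κ + z * r) r := by
      have h2 : y * κ + z * r ≡ y * κ + 0 [MOD r] :=
        Nat.ModEq.add_left _ ((Nat.modEq_zero_iff_dvd).2 (dvd_mul_left r z))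
      have h3 := h2.gcd_eq
      rw [add_zero] at h3
      have h4 : Nat.Coprime (y * κ) r := Nat.Coprime.mul_left hp.1.2 hc
      exact h3.trans h4
    have h5 : Nat.Coprime (y * κ + z * r) κ := by
      have h2 : y * κ + z * r ≡ 0 + z * r [MOD κ] :=
        Nat.ModEq.add_right _ ((Nat.modEq_zero_iff_dvd).2 (dvd_mul_left κ y))
      have h3 := h2.gcd_eq
      rw [zero_add] at h3
      have h4 : Nat.Coprime (z * r) κ := Nat.Coprime.mul_left hp.2.2 hc.symm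
      exact h3.trans h4
    have h6 : Nat.Coprime (y * κ + z * r) (r * κ) := Nat.Coprime.mul_right h1 h5
    exact (Nat.mod_modEq (y * κ + z * r) (r * κ)).gcd_eq.trans h6
  · intro x hx
    rw [mem_product]
    unfold UR at hx ⊢
    simp only [mem_filter, mem_range] at hx ⊢
    have h1 : Nat.Coprime x r := Nat.Coprime.coprime_mul_right_right hx.2
    have h2 : Nat.Coprime x κ := Nat.Coprime.coprime_mul_left_right hx.2
    have h3 : Nat.Coprime (x * κ') r := Nat.Coprime.mul_left h1 hκc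
    have h4 : Nat.Coprime (x * r') κ := Nat.Coprime.mul_left h2 hrc
    exact ⟨⟨Nat.mod_lt _ hr, (Nat.mod_modEq (x * κ') r).gcd_eq.trans h3⟩,
      ⟨Nat.mod_lt _ hκ, (Nat.mod_modEq (x * r') κ).gcd_eq.trans h4⟩⟩
  · rintro ⟨y, z⟩ hp
    rw [mem_product] at hp
    unfold UR at hp
    simp only [mem_filter, mem_range] at hp
    have h1 := c1 y z
    have h2 := c2 y z
    unfold Nat.ModEq at h1 h2
    rw [Nat.mod_eq_of_lt hp.1.1] at h1
    rw [Nat.mod_eq_of_lt hp.2.1] at h2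
    exact Prod.ext h1 h2
  · intro x hx
    unfold UR at hx
    simp only [mem_filter, mem_range] at hx
    have h1 := c3 x
    unfold Nat.ModEq at h1
    rw [Nat.mod_mod, Nat.mod_eq_of_lt hx.1] at h1
    exact h1
  · rintro ⟨y, z⟩ hp
    rw [mem_product] at hp
    unfold UR at hp
    simp only [mem_filter, mem_range] at hp
    have h1 := c1 y z
    unfold Nat.ModEq at h1
    rw [Nat.mod_eq_of_lt hp.1.1] at h1
    simp only
    rw [h1, mul_assoc, ← CQ1_e_add]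
    congr 1
    unfold fr
    have h2 := f1b_e_per m (r * κ) hN _ _ (Nat.mod_modEq (y * κ + z * r) (r * κ))
    simp only
    rw [h2]
    congr 1
    push_cast
    field_simp

end Pool.Agent.Lib.H59P
end

-- from Lib.H59P.F1
section

/-!
# Project H59P, chunk F1: Fourier expansion of a component
-/

open Finset

namespace Pool.Agent.Lib.H59P

open Pool.Agent.Lib.H68T Pool.Agent.Lib.H18Q

/-- **F1.** Proof. `gk p κ m = (r/φ(r)) conj χ(m) (μ(κ)/φ(κ)) c_κ(m)`; `F1a`, `cq_eq_sum` (`H68T/CQ1.lean`),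
`F1b`; the coefficient is `(r/φ(r)) (μ(κ)/φ(κ)) d y`, of absolute value at most
`(r/φ(r)) (1/φ(κ)) r^(-1/2) = √r/φ(r κ)`. -/
theorem F1 (Q : ℕ) (p : Ch) (hp : p ∈ PC Q) : ∃ c : ℕ → ℕ → ℂ, ∀ κ ∈ KS Q p.1,
    (∀ x, ‖c κ x‖ ^ 2 ≤ (p.1 : ℝ) / (Nat.totient (p.1 * κ) : ℝ) ^ 2) ∧
    ∀ m : ℤ, gk p κ m = ∑ x ∈ UR (p.1 * κ), c κ x * e ((m : ℝ) * fr p.1 (κ, x)) := by
  rw [mem_PC] at hp
  obtain ⟨r, χ⟩ := p
  obtain ⟨hr, -, hχ⟩ := hp
  simp only at hr hχ ⊢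
  have : NeZero r := ⟨by omega⟩
  obtain ⟨d, hd, hdm⟩ := F1a r χ hχ
  have hr0 : (0 : ℝ) < r := by exact_mod_cast hr
  have hφr : (0 : ℝ) < Nat.totient r := by exact_mod_cast Nat.totient_pos.2 hr
  have H : ∀ κ : ℕ, ∃ c : ℕ → ℂ, κ ∈ KS Q r → (∀ x, ‖c x‖ ^ 2 ≤ (r : ℝ) / (Nat.totient (r * κ) : ℝ) ^ 2) ∧
      ∀ m : ℤ, gk ⟨r, χ⟩ κ m = ∑ x ∈ UR (r * κ), c x * e ((m : ℝ) * fr r (κ, x)) := by
    intro κ
    by_cases hκ : κ ∈ KS Q r
    swap
    · exact ⟨fun _ => 0, fun h => absurd h hκ⟩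
    have hκ' := hκ
    unfold KS at hκ'
    rw [mem_filter, mem_Icc] at hκ'
    obtain ⟨⟨hκ1, -⟩, -, hcop⟩ := hκ'
    have hφκ : (0 : ℝ) < Nat.totient κ := by exact_mod_cast Nat.totient_pos.2 hκ1
    obtain ⟨c', hc', hcm⟩ := F1b r κ hr hκ1 hcop d
    refine ⟨fun x => (((r : ℝ) / (Nat.totient r : ℝ) *
      ((ArithmeticFunction.moebius κ : ℝ) / (Nat.totient κ : ℝ)) : ℝ) : ℂ) * c' x, fun _ => ⟨?_, ?_⟩⟩
    · intro x
      obtain ⟨y, hy⟩ := hc' x
      simp only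
      rw [hy, norm_mul, mul_pow, Complex.norm_real, Real.norm_eq_abs, sq_abs]
      have hμ : (ArithmeticFunction.moebius κ : ℝ) ^ 2 ≤ 1 := by
        have h1 : |ArithmeticFunction.moebius κ| ≤ 1 := ArithmeticFunction.abs_moebius_le_one
        have h2 : |(ArithmeticFunction.moebius κ : ℝ)| ≤ 1 := by exact_mod_cast h1
        rw [← sq_abs]
        exact pow_le_one₀ (abs_nonneg _) h2
      have htot : (Nat.totient (r * κ) : ℝ) = Nat.totient r * Nat.totient κ := by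
        rw [Nat.totient_mul hcop.symm]
        push_cast
        ring
      rw [htot]
      have e1 : ((r : ℝ) / (Nat.totient r : ℝ) * ((ArithmeticFunction.moebius κ : ℝ) / (Nat.totient κ : ℝ))) ^ 2 *
          ‖d y‖ ^ 2 = (r : ℝ) ^ 2 / ((Nat.totient r : ℝ) * Nat.totient κ) ^ 2 *
          ((ArithmeticFunction.moebius κ : ℝ) ^ 2 * ‖d y‖ ^ 2) := by
        field_simp
      have e2 : (r : ℝ) / ((Nat.totient r : ℝ) * Nat.totient κ) ^ 2 =
          (r : ℝ) ^ 2 / ((Nat.totient r : ℝ) * Nat.totient κ) ^ 2 * (1 * (1 / (r : ℝ))) := by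
        field_simp
      rw [e1, e2]
      refine mul_le_mul_of_nonneg_left ?_ (by positivity)
      exact mul_le_mul hμ (hd y) (sq_nonneg _) zero_le_one
    · intro m
      have h1 : ((cq κ m : ℝ) : ℂ) = ∑ z ∈ UR κ, e ((m : ℝ) * ((z : ℝ) / κ)) := by
        rw [cq_eq_sum κ hκ1 m]
        unfold UR
        refine sum_congr rfl fun z _ => ?_
        congr 1
        ring
      unfold gk
      simp only
      rw [hdm m]
      push_cast
      rw [h1]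
      have h2 := hcm m
      calc _ = ((r : ℂ) / (Nat.totient r : ℂ) * ((ArithmeticFunction.moebius κ : ℂ) / (Nat.totient κ : ℂ))) *
            ((∑ y ∈ UR r, d y * e ((m : ℝ) * ((y : ℝ) / r))) * ∑ z ∈ UR κ, e ((m : ℝ) * ((z : ℝ) / κ))) := by
            ring
        _ = _ := by
            rw [h2, mul_sum]
            refine sum_congr rfl fun x _ => ?_
            ring
  choose c hc using H
  exact ⟨c, fun κ hκ => hc κ hκ⟩

end Pool.Agent.Lib.H59P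
end

-- from Lib.H59P.F2
section

/-!
# Project H59P, chunk F2: spacing of the frequencies
-/

open Finset

namespace Pool.Agent.Lib.H59P

open Pool.Agent.Lib.H68T Pool.Agent.Lib.H18Q

theorem f2_geo (b H : ℕ) (α : ℝ) :
    ‖∑ h ∈ Ico b (b + H), e ((h : ℝ) * α)‖ ≤ H ∧ ‖∑ h ∈ Ico b (b + H), e ((h : ℝ) * α)‖ * (2 * nd α) ≤ 1 := by
  have h0 : ∀ x : ℝ, ‖e x‖ = 1 := by
    intro x
    unfold e
    rw [show (2 * Real.pi * x * Complex.I : ℂ) = ((2 * Real.pi * x : ℝ) : ℂ) * Complex.I by push_cast; ring,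
      Complex.norm_exp_ofReal_mul_I]
  constructor
  · refine (norm_sum_le _ _).trans ?_
    simp_rw [h0]
    rw [sum_const, Nat.card_Ico, nsmul_eq_mul, mul_one]
    simp
  · have h1 : (e α - 1) * ∑ h ∈ Ico b (b + H), e ((h : ℝ) * α) =
        e (((b + H : ℕ) : ℝ) * α) - e ((b : ℝ) * α) := by
      rw [sum_Ico_eq_sum_range, Nat.add_sub_cancel_left, mul_sum]
      have h2 : ∀ i ∈ range H, (e α - 1) * e (((b + i : ℕ) : ℝ) * α) =
          (fun i : ℕ => e (((b + i : ℕ) : ℝ) * α)) (i + 1) - (fun i : ℕ => e (((b + i : ℕ) : ℝ) * α)) i := by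
        intro i _
        have h3 : e (((b + (i + 1) : ℕ) : ℝ) * α) = e α * e (((b + i : ℕ) : ℝ) * α) := by
          rw [← PV_e_add]
          congr 1
          push_cast
          ring
        simp only [h3]
        ring
      rw [sum_congr rfl h2]
      have h3 := sum_range_sub (fun i : ℕ => e (((b + i : ℕ) : ℝ) * α)) H
      rw [h3]
      simp
    have h4 := congrArg norm h1
    rw [norm_mul] at h4
    have h5 : ‖e (((b + H : ℕ) : ℝ) * α) - e ((b : ℝ) * α)‖ ≤ 2 := by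
      refine (norm_sub_le _ _).trans ?_
      rw [h0, h0]
      norm_num
    have h6 := VB_four_nd_le α
    have h7 : 4 * nd α * ‖∑ h ∈ Ico b (b + H), e ((h : ℝ) * α)‖ ≤ 2 := by
      calc 4 * nd α * ‖∑ h ∈ Ico b (b + H), e ((h : ℝ) * α)‖
          ≤ ‖e α - 1‖ * ‖∑ h ∈ Ico b (b + H), e ((h : ℝ) * α)‖ := by gcongr
        _ ≤ 2 := by rw [h4]; exact h5
    linarith

theorem f2_nd (Q q q' x x' : ℕ) (hq : 1 ≤ q) (hq' : 1 ≤ q') (hqQ : q ≤ Q) (hqQ' : q' ≤ Q)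
    (hx : x < q) (hx' : x' < q') (hc : Nat.Coprime x q) (hc' : Nat.Coprime x' q')
    (hne : ¬ (q = q' ∧ x = x')) :
    1 / (Q : ℝ) ^ 2 ≤ nd ((x : ℝ) / q - (x' : ℝ) / q') := by
  set m : ℤ := round ((x : ℝ) / q - (x' : ℝ) / q') with hm
  have hqr : (0 : ℝ) < q := by exact_mod_cast hq
  have hqr' : (0 : ℝ) < q' := by exact_mod_cast hq'
  have hQr : (0 : ℝ) < Q := by
    have : (q : ℝ) ≤ Q := by exact_mod_cast hqQ
    linarith
  set N : ℤ := (x : ℤ) * q' - x' * q - m * (q * q') with hN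
  have h1 : nd ((x : ℝ) / q - (x' : ℝ) / q') = |(N : ℝ)| / (q * q') := by
    have h2 : (x : ℝ) / q - (x' : ℝ) / q' - m = (N : ℝ) / (q * q') := by
      rw [hN]
      push_cast
      field_simp
    have h3 : nd ((x : ℝ) / q - (x' : ℝ) / q') = |(x : ℝ) / q - (x' : ℝ) / q' - m| := rfl
    rw [h3, h2, abs_div, abs_of_pos (mul_pos hqr hqr')]
  have hN0 : N ≠ 0 := by
    intro hN1
    rw [hN] at hN1
    have h2 : (x : ℤ) * q' = q * (x' + m * q') := by linarith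
    have h3 : (q : ℤ) ∣ (x : ℤ) * q' := ⟨_, h2⟩
    have h4 : q ∣ q' := by
      have h5 : q ∣ x * q' := by exact_mod_cast h3
      exact (Nat.Coprime.dvd_of_dvd_mul_left hc.symm h5)
    have h6 : (x' : ℤ) * q = q' * (x - m * q) := by linarith
    have h7 : q' ∣ q := by
      have h8 : (q' : ℤ) ∣ (x' : ℤ) * q := ⟨_, h6⟩
      have h9 : q' ∣ x' * q := by exact_mod_cast h8
      exact (Nat.Coprime.dvd_of_dvd_mul_left hc'.symm h9)
    have h10 : q = q' := Nat.dvd_antisymm h4 h7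
    apply hne
    refine ⟨h10, ?_⟩
    subst h10
    have hq0 : (q : ℤ) ≠ 0 := by exact_mod_cast (by omega : q ≠ 0)
    have h11 : (x : ℤ) = x' + m * q := by
      apply mul_right_cancel₀ hq0
      linarith
    have h12 : (x : ℤ) < q := by exact_mod_cast hx
    have h13 : (x' : ℤ) < q := by exact_mod_cast hx'
    have h14 : (0 : ℤ) ≤ x := by positivity
    have h15 : (0 : ℤ) ≤ x' := by positivity
    have h16 : m = 0 := by
      by_contra hm0
      rcases lt_or_gt_of_ne hm0 with h | h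
      · have : m ≤ -1 := by omega
        nlinarith
      · have : 1 ≤ m := by omega
        nlinarith
    rw [h16] at h11
    have : (x : ℤ) = x' := by linarith
    exact_mod_cast this
  rw [h1]
  have h2 : (1 : ℝ) ≤ |(N : ℝ)| := by
    have := Int.one_le_abs hN0
    exact_mod_cast this
  have h3 : (q : ℝ) * q' ≤ (Q : ℝ) ^ 2 := by
    have a1 : (q : ℝ) ≤ Q := by exact_mod_cast hqQ
    have a2 : (q' : ℝ) ≤ Q := by exact_mod_cast hqQ'
    nlinarith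
  calc 1 / (Q : ℝ) ^ 2 ≤ 1 / (q * q') := by
        apply one_div_le_one_div_of_le (mul_pos hqr hqr') h3
    _ ≤ |(N : ℝ)| / (q * q') := by gcongr

theorem f2_mem {Q r : ℕ} {j : ℕ × ℕ} (hr : 1 ≤ r) (hj : j ∈ FJ Q r) :
    1 ≤ r * j.1 ∧ r * j.1 ≤ Q ∧ j.2 < r * j.1 ∧ Nat.Coprime j.2 (r * j.1) := by
  classical
  unfold FJ at hj
  rw [mem_filter, mem_product, mem_range] at hj
  obtain ⟨⟨h1, -⟩, h2⟩ := hj
  obtain ⟨⟨hk1, hk2⟩, -, -⟩ := CA_mem_KS.1 h1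
  unfold UR at h2
  rw [mem_filter, mem_range] at h2
  refine ⟨Nat.mul_pos hr hk1, ?_, h2.1, h2.2⟩
  calc r * j.1 ≤ r * (Q / r) := Nat.mul_le_mul_left _ hk2
    _ ≤ Q := Nat.mul_div_le _ _

theorem f2_card (Q r : ℕ) : (FJ Q r).card ≤ Q ^ 2 := by
  classical
  unfold FJ
  refine (card_filter_le _ _).trans ?_
  rw [card_product, card_range]
  have h1 : (KS Q r).card ≤ Q := by
    have h2 : KS Q r ⊆ Icc 1 Q := by
      intro κ hκ
      obtain ⟨⟨hk1, hk2⟩, -, -⟩ := CA_mem_KS.1 hκ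
      rw [mem_Icc]
      exact ⟨hk1, hk2.trans (Nat.div_le_self _ _)⟩
    refine (card_le_card h2).trans ?_
    simp
  calc (KS Q r).card * Q ≤ Q * Q := Nat.mul_le_mul_right _ h1
    _ = Q ^ 2 := by ring

/-- **F2.** Proof. The term `j' = j` is `H`. For `j' ≠ j` the difference of the two reduced fractions is not an
integer (equal reduced fractions in `[0, 1)` have equal denominators `r κ = r κ'` and numerators) and is a
rational with denominator at most `Q²`, so `nd ≥ 1/Q²`, and `‖∑‖ ≤ 1/(2 nd) ≤ Q²/2` (`H68T/VB.lean`, line 84).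
There are at most `Q²` indices `j'` (`FJ Q r ⊆ KS Q r ×ˢ range Q`). Total `H + Q^4/2 ≤ 2 H`. -/
theorem F2 (Q r H b : ℕ) (hr : 1 ≤ r) (hrQ : r ≤ Q) (hQ : Q ^ 4 ≤ H) : ∀ j ∈ FJ Q r,
    ∑ j' ∈ FJ Q r, ‖∑ h ∈ Ico b (b + H), e ((h : ℝ) * (fr r j - fr r j'))‖ ≤ 2 * H := by
  classical
  intro j hj
  have hQ1 : 1 ≤ Q := hr.trans hrQ
  have hQr : (0 : ℝ) < Q := by exact_mod_cast hQ1
  obtain ⟨a1, a2, a3, a4⟩ := f2_mem hr hj
  rw [← add_sum_erase _ _ hj]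
  have h1 : ∀ j' ∈ (FJ Q r).erase j,
      ‖∑ h ∈ Ico b (b + H), e ((h : ℝ) * (fr r j - fr r j'))‖ ≤ (Q : ℝ) ^ 2 / 2 := by
    intro j' hj'
    rw [mem_erase] at hj'
    obtain ⟨b1, b2, b3, b4⟩ := f2_mem hr hj'.2
    have h2 : 1 / (Q : ℝ) ^ 2 ≤ nd (fr r j - fr r j') := by
      refine f2_nd Q (r * j.1) (r * j'.1) j.2 j'.2 a1 b1 a2 b2 a3 b3 a4 b4 ?_
      rintro ⟨e1, e2⟩
      apply hj'.1
      have e3 : j.1 = j'.1 := Nat.eq_of_mul_eq_mul_left hr e1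
      exact (Prod.ext e3 e2).symm
    have h3 := (f2_geo b H (fr r j - fr r j')).2
    set S := ‖∑ h ∈ Ico b (b + H), e ((h : ℝ) * (fr r j - fr r j'))‖ with hS
    have h4 : S * (2 * (1 / (Q : ℝ) ^ 2)) ≤ 1 := by
      refine le_trans ?_ h3
      have : 0 ≤ S := norm_nonneg _
      gcongr
    have h5 : S * (2 * (1 / (Q : ℝ) ^ 2)) = S / ((Q : ℝ) ^ 2 / 2) := by
      field_simp
    rw [h5, div_le_one (by positivity)] at h4
    exact h4
  have h6 := (f2_geo b H (fr r j - fr r j)).1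
  have h7 : ∑ j' ∈ (FJ Q r).erase j, ‖∑ h ∈ Ico b (b + H), e ((h : ℝ) * (fr r j - fr r j'))‖ ≤
      (Q : ℝ) ^ 2 * ((Q : ℝ) ^ 2 / 2) := by
    refine (sum_le_sum h1).trans ?_
    rw [sum_const, nsmul_eq_mul]
    have h8 : (((FJ Q r).erase j).card : ℝ) ≤ (Q : ℝ) ^ 2 := by
      have : ((FJ Q r).erase j).card ≤ Q ^ 2 := (card_le_card (erase_subset _ _)).trans (f2_card Q r)
      exact_mod_cast this
    gcongr
  have h9 : (Q : ℝ) ^ 4 ≤ H := by exact_mod_cast hQ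
  have h10 : (Q : ℝ) ^ 2 * ((Q : ℝ) ^ 2 / 2) ≤ H := by
    have : (Q : ℝ) ^ 2 * ((Q : ℝ) ^ 2 / 2) = (Q : ℝ) ^ 4 / 2 := by ring
    rw [this]
    have : (0 : ℝ) ≤ (Q : ℝ) ^ 4 := by positivity
    linarith
  linarith

end Pool.Agent.Lib.H59P
end

-- from Lib.H59P.F3
section

/-!
# Project H59P, chunk F3: the large sieve in `k` dimensions, by Schur's test
-/

open Finset

namespace Pool.Agent.Lib.H59P

open Pool.Agent.Lib.H68T Pool.Agent.Lib.H18Q

theorem f3_conj_symm (s : Finset ℕ) (x y : ℝ) :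
    ‖∑ h ∈ s, e ((h : ℝ) * (x - y))‖ = ‖∑ h ∈ s, e ((h : ℝ) * (y - x))‖ := by
  have h1 : ∑ h ∈ s, e ((h : ℝ) * (x - y)) = (starRingEnd ℂ) (∑ h ∈ s, e ((h : ℝ) * (y - x))) := by
    rw [map_sum]
    refine sum_congr rfl fun h _ => ?_
    rw [PV_e_conj]
    congr 1
    ring
  rw [h1, Complex.norm_conj]

/-- Schur's test for a symmetric nonnegative kernel -/
theorem f3_schur {ι : Type} (S : Finset ι) (K : ι → ι → ℝ) (hK : ∀ i j, 0 ≤ K i j)
    (hs : ∀ i j, K i j = K j i) (B : ℝ) (hB : ∀ i ∈ S, ∑ j ∈ S, K i j ≤ B) (A : ι → ℝ) :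
    ∑ i ∈ S, ∑ j ∈ S, A i * A j * K i j ≤ B * ∑ i ∈ S, A i ^ 2 := by
  have h1 : ∀ i ∈ S, ∀ j ∈ S, A i * A j * K i j ≤ (A i ^ 2 * K i j + A j ^ 2 * K i j) / 2 := by
    intro i _ j _
    have := mul_nonneg (sq_nonneg (A i - A j)) (hK i j)
    nlinarith
  have h2 : ∑ i ∈ S, ∑ j ∈ S, A j ^ 2 * K i j = ∑ i ∈ S, ∑ j ∈ S, A i ^ 2 * K i j := by
    rw [sum_comm]
    exact sum_congr rfl fun i _ => sum_congr rfl fun j _ => by rw [hs j i]
  calc ∑ i ∈ S, ∑ j ∈ S, A i * A j * K i j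
      ≤ ∑ i ∈ S, ∑ j ∈ S, (A i ^ 2 * K i j + A j ^ 2 * K i j) / 2 :=
        sum_le_sum fun i hi => sum_le_sum fun j hj => h1 i hi j hj
    _ = (∑ i ∈ S, ∑ j ∈ S, A i ^ 2 * K i j + ∑ i ∈ S, ∑ j ∈ S, A j ^ 2 * K i j) / 2 := by
        rw [← sum_add_distrib, sum_div]
        refine sum_congr rfl fun i _ => ?_
        rw [← sum_add_distrib, sum_div]
    _ = ∑ i ∈ S, ∑ j ∈ S, A i ^ 2 * K i j := by rw [h2]; ring
    _ = ∑ i ∈ S, A i ^ 2 * ∑ j ∈ S, K i j := sum_congr rfl fun i _ => (mul_sum _ _ _).symm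
    _ ≤ ∑ i ∈ S, A i ^ 2 * B := sum_le_sum fun i hi => mul_le_mul_of_nonneg_left (hB i hi) (sq_nonneg _)
    _ = B * ∑ i ∈ S, A i ^ 2 := by rw [← sum_mul, mul_comm]

/-- **F3.** Proof. Expand the square: `∑_{j,j'} A j conj(A j') ∏_i (∑_{h_i} e(h_i (θ_i j_i - θ_i j'_i)))`
(`Finset.prod_univ_sum`, `PV_e_conj`, `PV_e_add`). In absolute value at most
`∑_{j,j'} (‖A j‖² + ‖A j'‖²)/2 ∏_i K_i(j_i, j'_i)`, `K_i` symmetric, `= ∑_j ‖A j‖² ∏_i ∑_{j'} K_i(j_i, j')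
≤ B^k ∑_j ‖A j‖²`. -/
theorem F3 {k : ℕ} {ι : Type} (J : Fin k → Finset ι) (θ : Fin k → ι → ℝ) (b : Fin k → ℕ) (H : ℕ) (B : ℝ)
    (hB0 : 0 ≤ B) (hB : ∀ i, ∀ j ∈ J i,
      ∑ j' ∈ J i, ‖∑ h ∈ Ico (b i) (b i + H), e ((h : ℝ) * (θ i j - θ i j'))‖ ≤ B)
    (A : (Fin k → ι) → ℂ) :
    ∑ h ∈ cube b H, ‖∑ j ∈ Fintype.piFinset J, A j * ∏ i, e ((h i : ℝ) * θ i (j i))‖ ^ 2 ≤
      B ^ k * ∑ j ∈ Fintype.piFinset J, ‖A j‖ ^ 2 := by
  set P := Fintype.piFinset J with hP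
  set K : (Fin k → ι) → (Fin k → ι) → ℝ := fun j j' =>
    ∏ i, ‖∑ h ∈ Ico (b i) (b i + H), e ((h : ℝ) * (θ i (j i) - θ i (j' i)))‖ with hKdef
  have hC : ((∑ h ∈ cube b H, ‖∑ j ∈ P, A j * ∏ i, e ((h i : ℝ) * θ i (j i))‖ ^ 2 : ℝ) : ℂ) =
      ∑ j ∈ P, ∑ j' ∈ P, A j * (starRingEnd ℂ) (A j') *
        ∏ i, ∑ h ∈ Ico (b i) (b i + H), e ((h : ℝ) * (θ i (j i) - θ i (j' i))) := by
    have h1 : ∀ h : Fin k → ℕ, ((‖∑ j ∈ P, A j * ∏ i, e ((h i : ℝ) * θ i (j i))‖ ^ 2 : ℝ) : ℂ) =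
        ∑ j ∈ P, ∑ j' ∈ P, A j * (starRingEnd ℂ) (A j') *
          ∏ i, e ((h i : ℝ) * (θ i (j i) - θ i (j' i))) := by
      intro h
      rw [Complex.ofReal_pow, ← Complex.mul_conj', map_sum, sum_mul_sum]
      refine sum_congr rfl fun j _ => sum_congr rfl fun j' _ => ?_
      rw [map_mul, map_prod]
      have h2 : ∏ i, e ((h i : ℝ) * (θ i (j i) - θ i (j' i))) =
          (∏ i, e ((h i : ℝ) * θ i (j i))) * ∏ i, (starRingEnd ℂ) (e ((h i : ℝ) * θ i (j' i))) := by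
        rw [← prod_mul_distrib]
        refine prod_congr rfl fun i _ => ?_
        rw [PV_e_conj, ← PV_e_add]
        congr 1
        ring
      rw [h2]
      ring
    rw [Complex.ofReal_sum, sum_congr rfl fun h _ => h1 h, sum_comm]
    refine sum_congr rfl fun j _ => ?_
    rw [sum_comm]
    refine sum_congr rfl fun j' _ => ?_
    rw [← mul_sum]
    congr 1
    rw [prod_univ_sum]
    rfl
  have hle : ∑ h ∈ cube b H, ‖∑ j ∈ P, A j * ∏ i, e ((h i : ℝ) * θ i (j i))‖ ^ 2 ≤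
      ∑ j ∈ P, ∑ j' ∈ P, ‖A j‖ * ‖A j'‖ * K j j' := by
    have h3 : ∑ h ∈ cube b H, ‖∑ j ∈ P, A j * ∏ i, e ((h i : ℝ) * θ i (j i))‖ ^ 2 =
        ‖((∑ h ∈ cube b H, ‖∑ j ∈ P, A j * ∏ i, e ((h i : ℝ) * θ i (j i))‖ ^ 2 : ℝ) : ℂ)‖ := by
      rw [Complex.norm_real, Real.norm_eq_abs, abs_of_nonneg (sum_nonneg fun _ _ => sq_nonneg _)]
    rw [h3, hC]
    refine (norm_sum_le _ _).trans (sum_le_sum fun j _ => (norm_sum_le _ _).trans
      (sum_le_sum fun j' _ => ?_))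
    rw [norm_mul, norm_mul, Complex.norm_conj, norm_prod]
  refine hle.trans (f3_schur P K (fun j j' => prod_nonneg fun i _ => norm_nonneg _) ?_ (B ^ k) ?_
    (fun j => ‖A j‖))
  · intro j j'
    exact prod_congr rfl fun i _ => f3_conj_symm _ _ _
  · intro j hj
    rw [hP, Fintype.mem_piFinset] at hj
    calc ∑ j' ∈ P, K j j' = ∏ i, ∑ x ∈ J i,
          ‖∑ h ∈ Ico (b i) (b i + H), e ((h : ℝ) * (θ i (j i) - θ i x))‖ := by
          rw [prod_univ_sum]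
      _ ≤ ∏ _i : Fin k, B := prod_le_prod (fun i _ => sum_nonneg fun _ _ => norm_nonneg _)
          (fun i _ => hB i (j i) (hj i))
      _ = B ^ k := by rw [prod_const, card_univ, Fintype.card_fin]

end Pool.Agent.Lib.H59P
end

-- from Lib.H59P.F4
section

/-!
# Project H59P, chunk F4: the second moment over the frequencies
-/

open Finset

namespace Pool.Agent.Lib.H59P

open Pool.Agent.Lib.H68T Pool.Agent.Lib.H18Q

theorem f4_conj (x : ℝ) : (starRingEnd ℂ) (e x) = e (-x) := by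
  unfold e
  rw [← Complex.exp_conj]
  congr 1
  simp only [map_mul, Complex.conj_I, Complex.conj_ofReal, map_ofNat]
  push_cast
  ring

/-- the number of points of an interval in a residue class -/
theorem f4_count (a H L n : ℕ) (hL : 0 < L) :
    (((Ico a (a + H)).filter fun n' : ℕ => (L : ℤ) ∣ (n' : ℤ) - n).card : ℝ) ≤ (H : ℝ) / L + 1 := by
  have h1 : (Ico a (a + H)).filter (fun n' : ℕ => (L : ℤ) ∣ (n' : ℤ) - n) =
      (Ico a (a + H)).filter (fun n' : ℕ => n' ≡ n [MOD L]) := by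
    refine filter_congr fun n' _ => ?_
    rw [Nat.ModEq.comm, Nat.modEq_iff_dvd]
  rw [h1]
  have hLq : (0 : ℚ) < L := by exact_mod_cast hL
  have h2 := Nat.Ico_filter_modEq_card a (a + H) hL n
  have h3 : ((((Ico a (a + H)).filter (fun n' : ℕ => n' ≡ n [MOD L])).card : ℤ) : ℚ) ≤ (H : ℚ) / L + 1 := by
    rw [h2]
    rw [Int.cast_max]
    apply max_le
    · have h4 := Int.ceil_lt_add_one ((((a + H : ℕ) : ℚ) - (n : ℚ)) / (L : ℚ))
      have h5 := Int.le_ceil (((a : ℚ) - (n : ℚ)) / (L : ℚ))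
      have h6 : (((a + H : ℕ) : ℚ) - (n : ℚ)) / (L : ℚ) - ((a : ℚ) - (n : ℚ)) / (L : ℚ) = (H : ℚ) / L := by
        push_cast
        ring
      push_cast at h4 h6 ⊢
      linarith
    · push_cast
      positivity
  have h5 : ((((Ico a (a + H)).filter (fun n' : ℕ => n' ≡ n [MOD L])).card : ℚ) : ℝ) ≤ (((H : ℚ) / L + 1 : ℚ) : ℝ) := by
    exact_mod_cast h3
  push_cast at h5
  exact h5

/-- **F4.** Proof. Expand the square: `∑_{n,n'} ∏_i ∑_{x_i < q_i} e((n - n') x_i/q_i)`, and the inner sum is `q_i`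
if `q_i ∣ n - n'` and `0` else (`CQ1_geom`). So the left side is `∏ q_i` times the number of pairs `(n, n')` with
`lcm q_i ∣ n - n'`; for each `n` there are at most `H/lcm + 1` such `n'` in the interval. -/
theorem F4 {k : ℕ} (q : Fin k → ℕ) (hq : ∀ i, 1 ≤ q i) (a H : ℕ) :
    ∑ x ∈ Fintype.piFinset (fun i => range (q i)),
      ‖∑ n ∈ Ico a (a + H), ∏ i, e ((n : ℝ) * ((x i : ℝ) / (q i : ℝ)))‖ ^ 2 ≤
      (∏ i, (q i : ℝ)) * (H * ((H : ℝ) / (univ.lcm q : ℕ) + 1)) := by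
  have hL : 0 < univ.lcm q := by
    rw [Nat.pos_iff_ne_zero, Ne, Finset.lcm_eq_zero_iff]
    rintro ⟨i, -, hi⟩
    have := hq i
    omega
  have hdvd : ∀ m : ℤ, (∀ i, (q i : ℤ) ∣ m) ↔ ((univ.lcm q : ℕ) : ℤ) ∣ m := by
    intro m
    rw [Int.natCast_dvd, Finset.lcm_dvd_iff]
    simp only [Int.natCast_dvd, mem_univ, true_implies]
  have h1 : ∀ x : Fin k → ℕ, ((‖∑ n ∈ Ico a (a + H), ∏ i, e ((n : ℝ) * ((x i : ℝ) / (q i : ℝ)))‖ ^ 2 : ℝ) : ℂ) =
      ∑ n ∈ Ico a (a + H), ∑ n' ∈ Ico a (a + H), ∏ i, e ((x i : ℝ) * ((((n' : ℤ) - n : ℤ) : ℝ) / (q i : ℝ))) := by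
    intro x
    rw [Complex.ofReal_pow, ← Complex.conj_mul', map_sum, sum_mul_sum]
    refine sum_congr rfl fun n _ => sum_congr rfl fun n' _ => ?_
    rw [map_prod, ← prod_mul_distrib]
    refine prod_congr rfl fun i _ => ?_
    rw [f4_conj, ← CQ1_e_add]
    congr 1
    push_cast
    ring
  have h2 : ((∑ x ∈ Fintype.piFinset (fun i => range (q i)),
      ‖∑ n ∈ Ico a (a + H), ∏ i, e ((n : ℝ) * ((x i : ℝ) / (q i : ℝ)))‖ ^ 2 : ℝ) : ℂ) =
      ∑ n ∈ Ico a (a + H), ∑ n' ∈ Ico a (a + H),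
        if ((univ.lcm q : ℕ) : ℤ) ∣ (n' : ℤ) - n then ((∏ i, (q i : ℝ) : ℝ) : ℂ) else 0 := by
    rw [Complex.ofReal_sum]
    simp_rw [h1]
    rw [sum_comm]
    refine sum_congr rfl fun n _ => ?_
    rw [sum_comm]
    refine sum_congr rfl fun n' _ => ?_
    rw [← prod_univ_sum (fun i => range (q i))
      (fun i b => e ((b : ℝ) * ((((n' : ℤ) - n : ℤ) : ℝ) / (q i : ℝ))))]
    have h3 : ∀ i, ∑ b ∈ range (q i), e ((b : ℝ) * ((((n' : ℤ) - n : ℤ) : ℝ) / (q i : ℝ))) =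
        if (q i : ℤ) ∣ (n' : ℤ) - n then (q i : ℂ) else 0 := fun i => CQ1_geom (q i) (hq i) _
    simp_rw [h3]
    rw [prod_ite_zero]
    simp only [mem_univ, true_implies, hdvd]
    push_cast
    rfl
  have h4 : ∑ x ∈ Fintype.piFinset (fun i => range (q i)),
      ‖∑ n ∈ Ico a (a + H), ∏ i, e ((n : ℝ) * ((x i : ℝ) / (q i : ℝ)))‖ ^ 2 =
      ∑ n ∈ Ico a (a + H), ∑ n' ∈ Ico a (a + H),
        if ((univ.lcm q : ℕ) : ℤ) ∣ (n' : ℤ) - n then (∏ i, (q i : ℝ)) else 0 := by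
    apply Complex.ofReal_injective
    rw [h2, Complex.ofReal_sum]
    refine sum_congr rfl fun n _ => ?_
    rw [Complex.ofReal_sum]
    refine sum_congr rfl fun n' _ => ?_
    split_ifs <;> simp
  rw [h4]
  have hP : 0 ≤ ∏ i, (q i : ℝ) := prod_nonneg fun i _ => Nat.cast_nonneg _
  calc _ ≤ ∑ _n ∈ Ico a (a + H), (∏ i, (q i : ℝ)) * ((H : ℝ) / (univ.lcm q : ℕ) + 1) := by
        refine sum_le_sum fun n _ => ?_
        rw [← sum_filter, sum_const, nsmul_eq_mul, mul_comm]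
        exact mul_le_mul_of_nonneg_left (f4_count a H _ n hL) hP
    _ = _ := by
        rw [sum_const, Nat.card_Ico, Nat.add_sub_cancel_left, nsmul_eq_mul]
        ring

end Pool.Agent.Lib.H59P
end

-- from Lib.H59P.F5
section

/-!
# Project H59P, chunk F5: an arithmetic sum
-/

open Finset

namespace Pool.Agent.Lib.H59P

open Pool.Agent.Lib.H68T Pool.Agent.Lib.H18Q

/-- **F5.** Proof. `CQ2_ratio`: `1/φ(q) ≤ (3/2) (1 + log q)/q`, so each term is at most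
`(9/4) (1 + log Q)²/κ`, and `∑_{κ ≤ Q} 1/κ ≤ 1 + log Q` (`harmonic_le_one_add_log`). -/
theorem F5 (Q r : ℕ) (hr : 1 ≤ r) (hrQ : r ≤ Q) :
    ∑ κ ∈ KS Q r, (r : ℝ) / (Nat.totient (r * κ) : ℝ) ^ 2 * (r * κ : ℕ) ≤
      3 * (1 + Real.log Q) ^ 3 := by
  have hQ1 : 1 ≤ Q := hr.trans hrQ
  have hlQ : 0 ≤ Real.log Q := Real.log_natCast_nonneg Q
  have hrr : (0 : ℝ) < r := by exact_mod_cast hr
  have h1 : ∀ κ ∈ KS Q r, (r : ℝ) / (Nat.totient (r * κ) : ℝ) ^ 2 * (r * κ : ℕ) ≤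
      9 / 4 * (1 + Real.log Q) ^ 2 * (1 / (κ : ℝ)) := by
    intro κ hκ
    obtain ⟨⟨hk1, hk2⟩, -, -⟩ := CA_mem_KS.1 hκ
    have hkr : (0 : ℝ) < κ := by exact_mod_cast hk1
    have hq : 0 < r * κ := Nat.mul_pos hr hk1
    have hqQ : r * κ ≤ Q := by
      calc r * κ ≤ r * (Q / r) := Nat.mul_le_mul_left _ hk2
        _ ≤ Q := Nat.mul_div_le _ _
    have hqr : (0 : ℝ) < ((r * κ : ℕ) : ℝ) := by exact_mod_cast hq
    have h2 := CQ2_ratio (r * κ) hq
    have h3 : Real.log ((r * κ : ℕ) : ℝ) ≤ Real.log Q :=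
      Real.log_le_log hqr (by exact_mod_cast hqQ)
    have h4 : (1 : ℝ) / Nat.totient (r * κ) ≤ 3 / 2 * (1 + Real.log Q) / ((r * κ : ℕ) : ℝ) := by
      refine h2.trans ?_
      gcongr
    have h0 : (0 : ℝ) ≤ 1 / Nat.totient (r * κ) := by positivity
    calc (r : ℝ) / (Nat.totient (r * κ) : ℝ) ^ 2 * (r * κ : ℕ)
        = r * (1 / (Nat.totient (r * κ) : ℝ)) ^ 2 * (r * κ : ℕ) := by
          rw [one_div, inv_pow, div_eq_mul_inv]
      _ ≤ r * (3 / 2 * (1 + Real.log Q) / ((r * κ : ℕ) : ℝ)) ^ 2 * (r * κ : ℕ) := by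
          gcongr
      _ = 9 / 4 * (1 + Real.log Q) ^ 2 * (1 / (κ : ℝ)) := by
          push_cast
          field_simp
          ring
  have h5 : ∑ κ ∈ KS Q r, (1 / (κ : ℝ)) ≤ 1 + Real.log Q := by
    have h6 : KS Q r ⊆ Icc 1 Q := by
      intro κ hκ
      obtain ⟨⟨hk1, hk2⟩, -, -⟩ := CA_mem_KS.1 hκ
      rw [mem_Icc]
      exact ⟨hk1, hk2.trans (Nat.div_le_self _ _)⟩
    calc ∑ κ ∈ KS Q r, (1 / (κ : ℝ)) ≤ ∑ κ ∈ Icc 1 Q, (1 / (κ : ℝ)) :=
          sum_le_sum_of_subset_of_nonneg h6 (fun _ _ _ => by positivity)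
      _ = (harmonic Q : ℝ) := by
          rw [harmonic_eq_sum_Icc]
          push_cast
          exact sum_congr rfl fun κ _ => one_div _
      _ ≤ 1 + Real.log Q := harmonic_le_one_add_log Q
  calc _ ≤ ∑ κ ∈ KS Q r, 9 / 4 * (1 + Real.log Q) ^ 2 * (1 / (κ : ℝ)) := sum_le_sum h1
    _ = 9 / 4 * (1 + Real.log Q) ^ 2 * ∑ κ ∈ KS Q r, (1 / (κ : ℝ)) := (mul_sum _ _ _).symm
    _ ≤ 9 / 4 * (1 + Real.log Q) ^ 2 * (1 + Real.log Q) := by gcongr
    _ ≤ 3 * (1 + Real.log Q) ^ 3 := by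
        have : 0 ≤ (1 + Real.log Q) ^ 3 := by positivity
        nlinarith

end Pool.Agent.Lib.H59P
end

-- from Lib.H59P.F
section

/-!
# Project H59P, chunk F: conclusion of module F
-/

open Finset

namespace Pool.Agent.Lib.H59P

open Pool.Agent.Lib.H68T Pool.Agent.Lib.H18Q

theorem f_mem_FJ {Q r : ℕ} {j : ℕ × ℕ} :
    j ∈ FJ Q r ↔ (j.1 ∈ KS Q r ∧ j.2 < Q) ∧ j.2 ∈ UR (r * j.1) := by
  classical
  unfold FJ
  rw [mem_filter, mem_product, mem_range]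

theorem f_q_le {Q : ℕ} {p : Ch} (hp : p ∈ PC Q) {κ : ℕ} (hκ : κ ∈ KS Q p.1) :
    1 ≤ p.1 * κ ∧ p.1 * κ ≤ Q := by
  obtain ⟨hr1, hrQ, -⟩ := mem_PC.1 hp
  obtain ⟨⟨hk1, hk2⟩, -, -⟩ := CA_mem_KS.1 hκ
  refine ⟨Nat.one_le_iff_ne_zero.2 (by positivity), ?_⟩
  calc p.1 * κ ≤ p.1 * (Q / p.1) := Nat.mul_le_mul_left _ hk2
    _ ≤ Q := Nat.mul_div_le _ _

theorem f_sum {k Q : ℕ} (p : Fin k → Ch) (hp : ∀ i, p i ∈ PC Q) (T : Finset (Fin k → ℕ))
    (hT : T ⊆ Fintype.piFinset (fun i => KS Q (p i).1)) {M : Type*} [AddCommMonoid M]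
    (f : (Fin k → ℕ × ℕ) → M) :
    ∑ j ∈ Fintype.piFinset (fun i => FJ Q (p i).1),
      (if (fun i => (j i).1) ∈ T then f j else 0) =
    ∑ κ ∈ T, ∑ x ∈ Fintype.piFinset (fun i => UR ((p i).1 * κ i)), f (fun i => (κ i, x i)) := by
  classical
  rw [← sum_filter, sum_sigma']
  refine sum_bij' (fun j _ => (⟨fun i => (j i).1, fun i => (j i).2⟩ : (_ : Fin k → ℕ) × (Fin k → ℕ)))
    (fun s _ => fun i => (s.1 i, s.2 i)) ?_ ?_ ?_ ?_ ?_
  · intro j hj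
    rw [mem_filter, Fintype.mem_piFinset] at hj
    rw [mem_sigma]
    refine ⟨hj.2, ?_⟩
    rw [Fintype.mem_piFinset]
    intro i
    exact (f_mem_FJ.1 (hj.1 i)).2
  · intro s hs
    rw [mem_sigma, Fintype.mem_piFinset] at hs
    rw [mem_filter, Fintype.mem_piFinset]
    refine ⟨fun i => ?_, hs.1⟩
    have h1 := Fintype.mem_piFinset.1 (hT hs.1) i
    have h2 := hs.2 i
    refine f_mem_FJ.2 ⟨⟨h1, ?_⟩, h2⟩
    have h3 : s.2 i < (p i).1 * s.1 i := by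
      unfold UR at h2
      rw [mem_filter, mem_range] at h2
      exact h2.1
    exact lt_of_lt_of_le h3 (f_q_le (hp i) h1).2
  · intro j hj
    rfl
  · intro s hs
    rfl
  · intro j hj
    rfl

/-- the amplitude -/
noncomputable def fA {k : ℕ} (p : Fin k → Ch) (c : Fin k → ℕ → ℕ → ℂ) (a H : ℕ) (j : Fin k → ℕ × ℕ) : ℂ :=
  (∏ i, c i (j i).1 (j i).2) * ∑ n ∈ Ico a (a + H), ∏ i, e ((n : ℝ) * fr (p i).1 (j i))

theorem f_expand {k Q : ℕ} (p : Fin k → Ch) (hp : ∀ i, p i ∈ PC Q) (T : Finset (Fin k → ℕ))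
    (hT : T ⊆ Fintype.piFinset (fun i => KS Q (p i).1)) (c : Fin k → ℕ → ℕ → ℂ)
    (hc : ∀ i, ∀ κ ∈ KS Q (p i).1, ∀ m : ℤ, gk (p i) κ m =
      ∑ x ∈ UR ((p i).1 * κ), c i κ x * e ((m : ℝ) * fr (p i).1 (κ, x))) (a H : ℕ) (h : Fin k → ℕ) :
    ∑ n ∈ Ico a (a + H), ∑ κ ∈ T, ∏ i, gk (p i) (κ i) ((n : ℤ) + h i) =
    ∑ j ∈ Fintype.piFinset (fun i => FJ Q (p i).1),
      (if (fun i => (j i).1) ∈ T then fA p c a H j else 0) * ∏ i, e ((h i : ℝ) * fr (p i).1 (j i)) := by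
  have h1 : ∀ j ∈ Fintype.piFinset (fun i => FJ Q (p i).1),
      (if (fun i => (j i).1) ∈ T then fA p c a H j else 0) * ∏ i, e ((h i : ℝ) * fr (p i).1 (j i)) =
      if (fun i => (j i).1) ∈ T then fA p c a H j * ∏ i, e ((h i : ℝ) * fr (p i).1 (j i)) else 0 := by
    intro j _
    rw [ite_mul, zero_mul]
  rw [sum_congr rfl h1, f_sum p hp T hT (fun j => fA p c a H j * ∏ i, e ((h i : ℝ) * fr (p i).1 (j i))),
    sum_comm]
  refine sum_congr rfl fun κ hκ => ?_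
  have h2 := Fintype.mem_piFinset.1 (hT hκ)
  have h3 : ∀ n ∈ Ico a (a + H), ∏ i, gk (p i) (κ i) ((n : ℤ) + h i) =
      ∑ x ∈ Fintype.piFinset (fun i => UR ((p i).1 * κ i)), (∏ i, c i (κ i) (x i)) *
        (∏ i, e ((n : ℝ) * fr (p i).1 (κ i, x i))) * ∏ i, e ((h i : ℝ) * fr (p i).1 (κ i, x i)) := by
    intro n _
    rw [prod_congr rfl fun i _ => hc i (κ i) (h2 i) ((n : ℤ) + h i), prod_univ_sum]
    refine sum_congr rfl fun x _ => ?_
    rw [← prod_mul_distrib, ← prod_mul_distrib]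
    refine prod_congr rfl fun i _ => ?_
    rw [mul_assoc, ← PV_e_add]
    congr 2
    push_cast
    ring
  rw [sum_congr rfl h3, sum_comm]
  refine sum_congr rfl fun x _ => ?_
  unfold fA
  rw [mul_sum, sum_mul]

theorem f_moment {k Q D : ℕ} (hD1 : 1 ≤ D) (p : Fin k → Ch) (hp : ∀ i, p i ∈ PC Q) (T : Finset (Fin k → ℕ))
    (hT : T ⊆ Fintype.piFinset (fun i => KS Q (p i).1))
    (hTD : ∀ κ ∈ T, D < univ.lcm (fun i => (p i).1 * κ i)) (c : Fin k → ℕ → ℕ → ℂ)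
    (hc : ∀ i, ∀ κ ∈ KS Q (p i).1, ∀ x, ‖c i κ x‖ ^ 2 ≤ ((p i).1 : ℝ) / (Nat.totient ((p i).1 * κ) : ℝ) ^ 2)
    (a H : ℕ) :
    ∑ j ∈ Fintype.piFinset (fun i => FJ Q (p i).1),
      ‖(if (fun i => (j i).1) ∈ T then fA p c a H j else 0)‖ ^ 2 ≤
      (H * ((H : ℝ) / D + 1)) * (3 * (1 + Real.log Q) ^ 3) ^ k := by
  have h1 : ∀ j ∈ Fintype.piFinset (fun i => FJ Q (p i).1),
      ‖(if (fun i => (j i).1) ∈ T then fA p c a H j else 0)‖ ^ 2 =
      if (fun i => (j i).1) ∈ T then ‖fA p c a H j‖ ^ 2 else 0 := by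
    intro j _
    split_ifs <;> simp
  rw [sum_congr rfl h1, f_sum p hp T hT (fun j => ‖fA p c a H j‖ ^ 2)]
  have hDr : (0 : ℝ) < D := by exact_mod_cast hD1
  have h2 : ∀ κ ∈ T, ∑ x ∈ Fintype.piFinset (fun i => UR ((p i).1 * κ i)),
      ‖fA p c a H (fun i => (κ i, x i))‖ ^ 2 ≤
      (H * ((H : ℝ) / D + 1)) * ∏ i, (((p i).1 : ℝ) / (Nat.totient ((p i).1 * κ i) : ℝ) ^ 2 *
        ((p i).1 * κ i : ℕ)) := by
    intro κ hκ
    have hk := Fintype.mem_piFinset.1 (hT hκ)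
    have h3 : ∀ x ∈ Fintype.piFinset (fun i => UR ((p i).1 * κ i)),
        ‖fA p c a H (fun i => (κ i, x i))‖ ^ 2 ≤
        (∏ i, (((p i).1 : ℝ) / (Nat.totient ((p i).1 * κ i) : ℝ) ^ 2)) *
          ‖∑ n ∈ Ico a (a + H), ∏ i, e ((n : ℝ) * ((x i : ℝ) / (((p i).1 * κ i : ℕ) : ℝ)))‖ ^ 2 := by
      intro x _
      unfold fA
      rw [norm_mul, mul_pow]
      refine mul_le_mul_of_nonneg_right ?_ (by positivity)
      rw [norm_prod, ← prod_pow]
      exact prod_le_prod (fun i _ => by positivity) (fun i _ => hc i (κ i) (hk i) (x i))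
    have h4 := F4 (fun i => (p i).1 * κ i) (fun i => (f_q_le (hp i) (hk i)).1) a H
    have hL : (D : ℝ) ≤ ((univ.lcm (fun i => (p i).1 * κ i) : ℕ) : ℝ) := by
      exact_mod_cast (hTD κ hκ).le
    calc ∑ x ∈ Fintype.piFinset (fun i => UR ((p i).1 * κ i)), ‖fA p c a H (fun i => (κ i, x i))‖ ^ 2
        ≤ ∑ x ∈ Fintype.piFinset (fun i => UR ((p i).1 * κ i)),
          (∏ i, (((p i).1 : ℝ) / (Nat.totient ((p i).1 * κ i) : ℝ) ^ 2)) *
          ‖∑ n ∈ Ico a (a + H), ∏ i, e ((n : ℝ) * ((x i : ℝ) / (((p i).1 * κ i : ℕ) : ℝ)))‖ ^ 2 :=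
          sum_le_sum h3
      _ ≤ ∑ x ∈ Fintype.piFinset (fun i => range ((p i).1 * κ i)),
          (∏ i, (((p i).1 : ℝ) / (Nat.totient ((p i).1 * κ i) : ℝ) ^ 2)) *
          ‖∑ n ∈ Ico a (a + H), ∏ i, e ((n : ℝ) * ((x i : ℝ) / (((p i).1 * κ i : ℕ) : ℝ)))‖ ^ 2 := by
          refine sum_le_sum_of_subset_of_nonneg ?_ (fun _ _ _ => by positivity)
          exact Fintype.piFinset_subset _ _ (fun i => filter_subset _ _)
      _ = (∏ i, (((p i).1 : ℝ) / (Nat.totient ((p i).1 * κ i) : ℝ) ^ 2)) *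
          ∑ x ∈ Fintype.piFinset (fun i => range ((p i).1 * κ i)),
          ‖∑ n ∈ Ico a (a + H), ∏ i, e ((n : ℝ) * ((x i : ℝ) / (((p i).1 * κ i : ℕ) : ℝ)))‖ ^ 2 :=
          (mul_sum _ _ _).symm
      _ ≤ (∏ i, (((p i).1 : ℝ) / (Nat.totient ((p i).1 * κ i) : ℝ) ^ 2)) *
          ((∏ i, (((p i).1 * κ i : ℕ) : ℝ)) * (H * ((H : ℝ) / D + 1))) := by
          refine mul_le_mul_of_nonneg_left (h4.trans ?_) (prod_nonneg fun i _ => by positivity)
          refine mul_le_mul_of_nonneg_left ?_ (prod_nonneg fun i _ => by positivity)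
          refine mul_le_mul_of_nonneg_left ?_ (by positivity)
          gcongr
      _ = _ := by
          rw [prod_mul_distrib]
          ring
  refine (sum_le_sum h2).trans ?_
  rw [← mul_sum]
  refine mul_le_mul_of_nonneg_left ?_ (by positivity)
  calc ∑ κ ∈ T, ∏ i, (((p i).1 : ℝ) / (Nat.totient ((p i).1 * κ i) : ℝ) ^ 2 * ((p i).1 * κ i : ℕ))
      ≤ ∑ κ ∈ Fintype.piFinset (fun i => KS Q (p i).1),
        ∏ i, (((p i).1 : ℝ) / (Nat.totient ((p i).1 * κ i) : ℝ) ^ 2 * ((p i).1 * κ i : ℕ)) :=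
        sum_le_sum_of_subset_of_nonneg hT (fun _ _ _ => prod_nonneg fun i _ => by positivity)
    _ = ∏ i, ∑ κ ∈ KS Q (p i).1, (((p i).1 : ℝ) / (Nat.totient ((p i).1 * κ) : ℝ) ^ 2 *
        ((p i).1 * κ : ℕ)) := by
        rw [prod_univ_sum]
    _ ≤ ∏ _i : Fin k, (3 * (1 + Real.log Q) ^ 3) := by
        refine prod_le_prod (fun i _ => sum_nonneg fun κ _ => by positivity) (fun i _ => ?_)
        obtain ⟨hr1, hrQ, -⟩ := mem_PC.1 (hp i)
        exact F5 Q (p i).1 hr1 hrQ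
    _ = _ := by rw [prod_const, card_univ, Fintype.card_fin]

/-- **F_main.** -/
theorem F_main : FMain := by
  refine ⟨4, 5, by norm_num, by norm_num, ?_⟩
  intro k Q X H D hreg hQH hHX hD1 hDQ p hp a b T hT hTD
  have hlX := hreg.logX_ge (by norm_num)
  have hlX1 := hreg.logX_ge_one (by norm_num)
  have hQ5 := hreg.Q_ge (by norm_num)
  have hQ1 : 1 ≤ Q := by
    have : (1 : ℝ) ≤ Q := by linarith
    exact_mod_cast this
  have hH1 : 1 ≤ H := le_trans (Nat.one_le_pow _ _ hQ1) hQH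
  have hDH : D ≤ H := hDQ.trans ((Nat.le_self_pow (by norm_num) Q).trans hQH)
  have hDr : (1 : ℝ) ≤ D := by exact_mod_cast hD1
  have hHr : (1 : ℝ) ≤ H := by exact_mod_cast hH1
  have hDHr : (D : ℝ) ≤ H := by exact_mod_cast hDH
  -- the case k = 0
  rcases Nat.eq_zero_or_pos k with hk | hk
  · subst hk
    have hTe : T = ∅ := by
      rw [eq_empty_iff_forall_notMem]
      intro κ hκ
      have h1 := hTD κ hκ
      rw [univ_eq_empty, lcm_empty] at h1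
      omega
    rw [hTe]
    have : ∑ h ∈ cube b H, ‖∑ n ∈ Ico a (a + H), ∑ κ ∈ (∅ : Finset (Fin 0 → ℕ)),
        ∏ i, gk (p i) (κ i) ((n : ℤ) + h i)‖ ^ 2 = 0 := by
      simp
    rw [this]
    positivity
  choose c hc using fun i => F1 Q (p i) (hp i)
  have h1 : ∀ h ∈ cube b H, ‖∑ n ∈ Ico a (a + H), ∑ κ ∈ T, ∏ i, gk (p i) (κ i) ((n : ℤ) + h i)‖ ^ 2 =
      ‖∑ j ∈ Fintype.piFinset (fun i => FJ Q (p i).1),
      (if (fun i => (j i).1) ∈ T then fA p c a H j else 0) * ∏ i, e ((h i : ℝ) * fr (p i).1 (j i))‖ ^ 2 := by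
    intro h _
    rw [f_expand p hp T hT c (fun i κ hκ => (hc i κ hκ).2) a H h]
  rw [sum_congr rfl h1]
  have h2 := F3 (fun i => FJ Q (p i).1) (fun i => fr (p i).1) b H (2 * H) (by positivity)
    (fun i j hj => F2 Q (p i).1 H (b i) (mem_PC.1 (hp i)).1 (mem_PC.1 (hp i)).2.1 hQH j hj)
    (fun j => if (fun i => (j i).1) ∈ T then fA p c a H j else 0)
  have h3 := f_moment hD1 p hp T hT hTD c (fun i κ hκ => (hc i κ hκ).1) a H
  refine h2.trans ((mul_le_mul_of_nonneg_left h3 (by positivity)).trans ?_)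
  -- numerical part
  have hlQ0 : 0 ≤ Real.log Q := Real.log_natCast_nonneg Q
  have hlQ : Real.log Q ≤ Real.log X := by
    have := hreg.2.2
    linarith
  have hexp : (96 : ℝ) ≤ Real.log X := by
    refine le_trans ?_ hlX
    have h5 : (2.7182818283 : ℝ) < Real.exp 1 := Real.exp_one_gt_d9
    have h6 : Real.exp 5 = Real.exp 1 ^ 5 := by
      rw [← Real.exp_nat_mul]
      norm_num
    rw [h6]
    calc (96 : ℝ) ≤ 2.7 ^ 5 := by norm_num
      _ ≤ Real.exp 1 ^ 5 := by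
        apply pow_le_pow_left₀ (by norm_num)
        linarith
  have hbase : 2 * (2 * (3 * (1 + Real.log Q) ^ 3)) ≤ Real.log X ^ 4 := by
    have h7 : 1 + Real.log Q ≤ 2 * Real.log X := by linarith
    have h8 : (1 + Real.log Q) ^ 3 ≤ (2 * Real.log X) ^ 3 := pow_le_pow_left₀ (by positivity) h7 3
    calc 2 * (2 * (3 * (1 + Real.log Q) ^ 3)) ≤ 2 * (2 * (3 * (2 * Real.log X) ^ 3)) := by
          gcongr
      _ = 96 * Real.log X ^ 3 := by ring
      _ ≤ Real.log X * Real.log X ^ 3 := by gcongr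
      _ = _ := by ring
  have hrp : (Real.log X) ^ ((4 : ℝ) * k) = (Real.log X ^ 4) ^ k := by
    rw [Real.rpow_mul (by linarith), Real.rpow_natCast]
    norm_num
  rw [hrp]
  have hDhalf : (D : ℝ) ^ (-(1 / 2) : ℝ) = 1 / Real.sqrt D := by
    rw [Real.rpow_neg (by positivity), Real.sqrt_eq_rpow]
    exact (one_div _).symm
  rw [hDhalf]
  have hsq1 : 1 ≤ Real.sqrt D := Real.one_le_sqrt.2 hDr
  have hsq2 : Real.sqrt D * Real.sqrt D = D := Real.mul_self_sqrt (by positivity)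
  have hsqD : Real.sqrt D ≤ D := by nlinarith
  have hmain : (H : ℝ) * ((H : ℝ) / D + 1) ≤ 2 * ((H : ℝ) ^ 2 * (1 / Real.sqrt D)) := by
    have e1 : (H : ℝ) / D ≤ H * (1 / Real.sqrt D) := by
      rw [div_eq_mul_one_div]
      gcongr
    have e2 : 1 ≤ (H : ℝ) * (1 / Real.sqrt D) := by
      rw [mul_one_div, le_div_iff₀ (by linarith), one_mul]
      exact hsqD.trans hDHr
    calc (H : ℝ) * ((H : ℝ) / D + 1) ≤ H * (H * (1 / Real.sqrt D) + H * (1 / Real.sqrt D)) := by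
          gcongr
      _ = _ := by ring
  have h2k : (2 : ℝ) ≤ 2 ^ k := by
    calc (2 : ℝ) = 2 ^ 1 := by norm_num
      _ ≤ 2 ^ k := pow_le_pow_right₀ (by norm_num) hk
  have hs0 : 0 ≤ 1 / Real.sqrt D := by positivity
  calc (2 * (H : ℝ)) ^ k * (H * ((H : ℝ) / D + 1) * (3 * (1 + Real.log Q) ^ 3) ^ k)
      ≤ (2 * (H : ℝ)) ^ k * ((2 ^ k * ((H : ℝ) ^ 2 * (1 / Real.sqrt D))) * (3 * (1 + Real.log Q) ^ 3) ^ k) := by
        refine mul_le_mul_of_nonneg_left (mul_le_mul_of_nonneg_right (hmain.trans ?_) (by positivity))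
          (by positivity)
        exact mul_le_mul_of_nonneg_right h2k (by positivity)
    _ = (2 * (2 * (3 * (1 + Real.log Q) ^ 3))) ^ k * (H : ℝ) ^ (k + 2) * (1 / Real.sqrt D) := by
        generalize 3 * (1 + Real.log Q) ^ 3 = B
        generalize 1 / Real.sqrt D = s
        rw [mul_pow, mul_pow, mul_pow, pow_add]
        ring
    _ ≤ (Real.log X ^ 4) ^ k * (H : ℝ) ^ (k + 2) * (1 / Real.sqrt D) := by
        gcongr

end Pool.Agent.Lib.H59P
end
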