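import Pool.Agent.Lib.H59M.M1.M013
import Pool.Agent.Lib.H59M.M1.M034
import Pool.Agent.Lib.H59M.M1.M058
import Pool.Agent.Lib.H59M.M1.M059

/-! Merged copies (to shorten the build) of Lib.H24P.L. -/

-- from Lib.H24P.L
section

/-!
# Project H24P, module L: levels

One level `Q`, a power of `X` up to constants, for all scales `Y` between `X^(1/2)` and `X^(A+1)`, together with the
level `Q^100`.
-/

open Finset

namespace Pool.Agent.Lib.H24P

open Pool.Agent.Lib.H68T Pool.Agent.Lib.H18Q Pool.Agent.Lib.H59P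

theorem L_mono {Q Y : ℕ} {η η' E E' : ℝ} {px : Ch} {th : ℤ → ℝ} (h : Mdl Q Y η E px th)
    (h0 : 0 < η') (h1 : η' ≤ η) (hE : η * E ≤ η' * E') : Mdl Q Y η' E' px th := by
  refine ⟨h0, h1.trans h.eta_le, h.mem, h.real, h.cond, h.triv, h.nonneg,
    fun m hm hm' => (h.le m hm hm').trans (by linarith), h.slow, ?_⟩
  obtain ⟨e, eb, g1, g2, g3⟩ := h.lev
  exact ⟨e, eb, g1, g2.trans hE, g3⟩

theorem L_good_mono {c c' : ℝ} {Q Q' : ℕ} (h : Good c Q) (hQ : Q' ≤ Q) (hl : 0 < Real.log Q)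
    (hl' : 0 < Real.log Q') (hc : c' * Real.log Q ≤ c * Real.log Q') : Good c' Q' := by
  intro r _ ψ hr hp hne hsq σ hσ hσ1
  refine h r ψ (hr.trans hQ) hp hne hsq σ ?_ hσ1
  have : c' / Real.log Q' ≤ c / Real.log Q := by
    rw [div_le_div_iff₀ hl' hl]; exact hc
  linarith

theorem L_bern (u s : ℝ) (hs : 1 ≤ s) :
    1 - Real.exp (-(s * u)) ≤ s * (1 - Real.exp (-u)) := by
  have h1 := one_add_mul_self_le_rpow_one_add
    (show -1 ≤ Real.exp (-u) - 1 by linarith [Real.exp_pos (-u)]) hs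
  have h2 : (1 + (Real.exp (-u) - 1)) ^ s = Real.exp (-(s * u)) := by
    rw [add_sub_cancel, ← Real.exp_mul]
    congr 1
    ring
  rw [h2] at h1
  linarith

theorem L_half (v : ℝ) (h0 : 0 ≤ v) (h1 : v ≤ 1) : v ≤ 2 * (1 - Real.exp (-v)) := by
  have h2 := Real.add_one_le_exp v
  have h3 : Real.exp (-v) ≤ 1 / (1 + v) := by
    rw [Real.exp_neg, ← one_div]
    exact one_div_le_one_div_of_le (by linarith) (by linarith)
  have h4 : 1 / (1 + v) ≤ 1 - v / 2 := by
    rw [div_le_iff₀ (by linarith)]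
    nlinarith
  linarith

/-- **L.** -/
theorem L_levels (A : ℕ) (E0 K0 : ℝ) (hE : 0 < E0) (hK0 : 1 ≤ K0) : ∃ C : ℝ, 1 ≤ C ∧ ∃ X0 : ℕ,
    ∀ X : ℕ, X0 ≤ X → ∃ Q : ℕ, K0 * Real.log Q ≤ Real.log X ∧ Real.log X ≤ C * Real.log Q ∧
      (∀ Y : ℕ, X ≤ Y ^ 2 → Y ≤ X ^ (A + 1) → RegP K0 Q Y ∧ RegP K0 (Q ^ 100) Y) ∧
      ((∀ Y : ℕ, X ≤ Y ^ 2 → Y ≤ X ^ (A + 1) →
        Mdl Q Y 1 E0 p0 (fun _ => 0) ∧ Mdl (Q ^ 100) Y 1 E0 p0 (fun _ => 0)) ∨
      ∃ (r : ℕ) (_ : NeZero r) (ψ : DirichletCharacter ℂ r) (β η : ℝ), r ^ 100 ≤ Q ∧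
        ψ.IsPrimitive ∧ ψ ≠ 1 ∧ ψ ^ 2 = 1 ∧ β < 1 ∧ ψ.LFunction (β : ℂ) = 0 ∧ 1 - β ≤ 2 * η ∧
        ∀ Y : ℕ, X ≤ Y ^ 2 → Y ≤ X ^ (A + 1) →
          Mdl Q Y η E0 ⟨r, ψ⟩ (fun m => (m : ℝ) ^ (β - 1)) ∧
          Mdl (Q ^ 100) Y η E0 ⟨r, ψ⟩ (fun m => (m : ℝ) ^ (β - 1))) := by
  obtain ⟨c1, K1, C1, hc1, hc11, hK1, hC1, hexc⟩ := mdl_exc
  obtain ⟨c2, K2, hc2, hgb⟩ := good_below
  obtain ⟨c, hcd⟩ : ∃ c, c = min c1 c2 := ⟨_, rfl⟩
  have hc0 : 0 < c := by rw [hcd]; exact lt_min hc1 hc2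
  have hcc1 : c ≤ c1 := by rw [hcd]; exact min_le_left _ _
  have hcc2 : c ≤ c2 := by rw [hcd]; exact min_le_right _ _
  obtain ⟨c3, hc3d⟩ : ∃ c3, c3 = c / 1000 := ⟨_, rfl⟩
  have hc3 : 0 < c3 := by rw [hc3d]; positivity
  obtain ⟨K3, C3, hK3, hC3, hg3⟩ := mdl_good c3 hc3
  -- the constants
  obtain ⟨s, hs⟩ : ∃ s : ℝ, s = 2 * ((A : ℝ) + 1) := ⟨_, rfl⟩
  have hA0 : (0 : ℝ) ≤ A := Nat.cast_nonneg _
  have hs2 : 2 ≤ s := by rw [hs]; linarith
  obtain ⟨E1, hE1⟩ : ∃ E1 : ℝ, E1 = E0 / (2 * s) := ⟨_, rfl⟩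
  have hE1p : 0 < E1 := by rw [hE1]; positivity
  obtain ⟨kp, hkp1, hkpK1, hkpK3, hkpe⟩ : ∃ kp : ℝ, 1 ≤ kp ∧ K1 ≤ kp ∧ K3 ≤ kp ∧
      (C1 + C3) * Real.exp (-(kp / (C1 + C3))) ≤ E1 := by
    have hD : 0 < C1 + C3 := by linarith
    refine ⟨max (max 1 (max K1 K3)) ((C1 + C3) * ((C1 + C3) / E1)), ?_, ?_, ?_, ?_⟩
    · exact (le_max_left _ _).trans (le_max_left _ _)
    · exact (le_max_left _ _).trans ((le_max_right _ _).trans (le_max_left _ _))
    · exact (le_max_right _ _).trans ((le_max_right _ _).trans (le_max_left _ _))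
    · set kp := max (max 1 (max K1 K3)) ((C1 + C3) * ((C1 + C3) / E1))
      have h1 : (C1 + C3) / E1 ≤ kp / (C1 + C3) := by
        rw [le_div_iff₀ hD]
        calc (C1 + C3) / E1 * (C1 + C3) = (C1 + C3) * ((C1 + C3) / E1) := by ring
          _ ≤ kp := le_max_right _ _
      have h2 : (C1 + C3) / E1 ≤ Real.exp (kp / (C1 + C3)) := by
        have := Real.add_one_le_exp (kp / (C1 + C3))
        linarith
      rw [Real.exp_neg, ← div_eq_mul_inv, div_le_iff₀ (Real.exp_pos _)]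
      rw [div_le_iff₀ hE1p] at h2
      linarith
  obtain ⟨Kb, hKb⟩ : ∃ Kb : ℝ, Kb = 200 * (kp + K0 + K1 + K3) := ⟨_, rfl⟩
  have hKb1 : 200 ≤ Kb := by rw [hKb]; linarith
  obtain ⟨Kr, hKr⟩ : ∃ Kr : ℝ, Kr = K0 + K1 + K3 := ⟨_, rfl⟩
  have hKr1 : 1 ≤ Kr := by rw [hKr]; linarith
  obtain ⟨C, hC⟩ : ∃ C : ℝ, C = 30000 * Kb := ⟨_, rfl⟩
  have hC1' : 1 ≤ C := by rw [hC]; linarith
  have herrC : ∀ C' : ℝ, 1 ≤ C' → C' ≤ C1 + C3 → C' * Real.exp (-(kp / C')) ≤ E1 := by
    intro C' h1 h2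
    refine le_trans ?_ hkpe
    have h3 : Real.exp (-(kp / C')) ≤ Real.exp (-(kp / (C1 + C3))) := by
      apply Real.exp_le_exp.2
      have : kp / (C1 + C3) ≤ kp / C' := div_le_div_of_nonneg_left (by linarith) (by linarith) h2
      linarith
    exact mul_le_mul h2 h3 (Real.exp_pos _).le (by linarith)
  -- large `L`
  obtain ⟨L0, hL0⟩ := Filter.eventually_atTop.mp (((ev_log (2 * C * Kr * 1) 1 one_pos).and
    (Filter.eventually_ge_atTop (4 * Real.exp Kr + C * (|K2| + 10) + C * (4 * Real.log (1 / E1 + 1) + 4) +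
      2 * C * Kr * (Real.log ((A : ℝ) + 1) + 1) * 2))).and
    (Filter.eventually_ge_atTop (2 * C)))
  refine ⟨C, hC1', ⌈Real.exp (max L0 1)⌉₊, fun X hX => ?_⟩
  obtain ⟨L, hL⟩ : ∃ L, L = Real.log X := ⟨_, rfl⟩
  have hXe : Real.exp (max L0 1) ≤ (X : ℝ) := (Nat.le_ceil _).trans (by exact_mod_cast hX)
  have hX0 : (0 : ℝ) < X := lt_of_lt_of_le (Real.exp_pos _) hXe
  have hLge : max L0 1 ≤ L := by
    rw [hL, Real.le_log_iff_exp_le hX0]; exact hXe
  have hL1 : 1 ≤ L := (le_max_right _ _).trans hLge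
  obtain ⟨⟨e1, e2⟩, e3⟩ := hL0 L ((le_max_left _ _).trans hLge)
  rw [Real.rpow_one, mul_one] at e1
  rw [← hL]
  have hCKr : 0 < C * Kr := by positivity
  have hlogA : 0 ≤ Real.log ((A : ℝ) + 1) := Real.log_nonneg (by linarith)
  have hlogE : 0 ≤ Real.log (1 / E1 + 1) := Real.log_nonneg (by
    have : 0 < 1 / E1 := by positivity
    linarith)
  have hexpKr : 0 < Real.exp Kr := Real.exp_pos _
  have ha2 := abs_nonneg K2
  have hL_a : 4 * Real.exp Kr ≤ L := by
    have h1 : 0 ≤ C * (|K2| + 10) := by positivity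
    have h2 : 0 ≤ C * (4 * Real.log (1 / E1 + 1) + 4) := by positivity
    have h3 : 0 ≤ 2 * C * Kr * (Real.log ((A : ℝ) + 1) + 1) * 2 := by positivity
    linarith
  have hL_b : C * (|K2| + 10) ≤ L := by
    have h2 : 0 ≤ C * (4 * Real.log (1 / E1 + 1) + 4) := by positivity
    have h3 : 0 ≤ 2 * C * Kr * (Real.log ((A : ℝ) + 1) + 1) * 2 := by positivity
    linarith
  have hL_c : C * (4 * Real.log (1 / E1 + 1) + 4) ≤ L := by
    have h1 : 0 ≤ C * (|K2| + 10) := by positivity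
    have h3 : 0 ≤ 2 * C * Kr * (Real.log ((A : ℝ) + 1) + 1) * 2 := by positivity
    linarith
  have hL_d : 2 * C * Kr * (Real.log ((A : ℝ) + 1) + 1) * 2 ≤ L := by
    have h1 : 0 ≤ C * (|K2| + 10) := by positivity
    have h2 : 0 ≤ C * (4 * Real.log (1 / E1 + 1) + 4) := by positivity
    linarith
  -- the scales `Y`
  have hY : ∀ Y : ℕ, X ≤ Y ^ 2 → Y ≤ X ^ (A + 1) → L / 2 ≤ Real.log Y ∧
      Real.log Y ≤ ((A : ℝ) + 1) * L ∧ (0 : ℝ) < Y := by
    intro Y h1 h2
    have hY0 : 0 < Y := by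
      rcases Nat.eq_zero_or_pos Y with h | h
      · rw [h] at h1
        have : 0 < X := by exact_mod_cast hX0
        norm_num at h1
        omega
      · exact h
    have hY0' : (0 : ℝ) < Y := by exact_mod_cast hY0
    have h3 : (X : ℝ) ≤ (Y : ℝ) ^ 2 := by exact_mod_cast h1
    have h4 : (Y : ℝ) ≤ (X : ℝ) ^ (A + 1) := by exact_mod_cast h2
    have h5 := Real.log_le_log hX0 h3
    have h6 := Real.log_le_log hY0' h4
    rw [Real.log_pow] at h5 h6
    push_cast at h5 h6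
    rw [← hL] at h5 h6
    exact ⟨by linarith, h6, hY0'⟩
  -- the regime
  have hreg : ∀ Q : ℕ, Real.log Q ≤ 100 * (L / Kb) → L ≤ C * Real.log Q →
      ∀ Y : ℕ, X ≤ Y ^ 2 → Y ≤ X ^ (A + 1) →
        RegP Kr Q Y ∧ kp * Real.log Q ≤ Real.log Y ∧ (Q : ℝ) ^ (-(1 / 4) : ℝ) ≤ E1 := by
    intro Q hQ1 hQ2 Y h1 h2
    obtain ⟨y1, y2, y3⟩ := hY Y h1 h2
    have hlQ : 0 < Real.log Q := by
      by_contra hcon
      push Not at hcon
      have := mul_nonpos_of_nonneg_of_nonpos (by linarith : 0 ≤ C) hcon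
      linarith
    have hQ0 : (0 : ℝ) < Q := by
      rcases Nat.eq_zero_or_pos Q with h | h
      · rw [h, Nat.cast_zero, Real.log_zero] at hlQ; exact absurd hlQ (lt_irrefl _)
      · exact_mod_cast h
    have hbound : ∀ κ : ℝ, 0 ≤ κ → 200 * κ ≤ Kb → κ * Real.log Q ≤ Real.log Y := by
      intro κ hκ0 hκ
      have g1 : κ * Real.log Q ≤ κ * (100 * (L / Kb)) := mul_le_mul_of_nonneg_left hQ1 hκ0
      have g2 : κ * (100 * (L / Kb)) ≤ L / 2 := by
        have g3 : κ * (100 * (L / Kb)) = (200 * κ) / Kb * (L / 2) := by ring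
        rw [g3]
        have g4 : (200 * κ) / Kb ≤ 1 := by
          rw [div_le_one (by linarith)]; exact hκ
        calc (200 * κ) / Kb * (L / 2) ≤ 1 * (L / 2) :=
              mul_le_mul_of_nonneg_right g4 (by linarith)
          _ = L / 2 := one_mul _
      linarith
    refine ⟨⟨?_, ?_, ?_⟩, ?_, ?_⟩
    · have g1 : Real.exp Kr ≤ Real.log Y := by linarith
      rw [Real.le_log_iff_exp_le (by linarith)]
      exact g1
    · have g1 : Real.log (Real.log Y) ≤ Real.log ((A : ℝ) + 1) + Real.log L := by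
        rw [← Real.log_mul (by linarith) (by linarith)]
        exact Real.log_le_log (by linarith) y2
      have g2 : Kr * Real.log (Real.log Y) ≤ Kr * (Real.log ((A : ℝ) + 1) + Real.log L) :=
        mul_le_mul_of_nonneg_left g1 (by linarith)
      have g3 : C * (Kr * (Real.log ((A : ℝ) + 1) + Real.log L)) ≤ L := by
        have g4 : C * (Kr * Real.log L) ≤ L / 2 := by linarith
        have g5 : C * (Kr * Real.log ((A : ℝ) + 1)) ≤ L / 2 := by
          have g6 : 0 ≤ C * Kr := hCKr.le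
          have g7 : 0 ≤ C * Kr * Real.log ((A : ℝ) + 1) := by positivity
          linarith
        linarith
      have g8 : C * (Kr * (Real.log ((A : ℝ) + 1) + Real.log L)) ≤ C * Real.log Q :=
        g3.trans hQ2
      have g9 : Kr * (Real.log ((A : ℝ) + 1) + Real.log L) ≤ Real.log Q :=
        le_of_mul_le_mul_left g8 (by linarith)
      linarith
    · exact hbound Kr (by linarith) (by rw [hKb, hKr]; linarith)
    · exact hbound kp (by linarith) (by rw [hKb]; linarith)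
    · have g1 : 4 * Real.log (1 / E1 + 1) + 4 ≤ Real.log Q := by
        have g2 : C * (4 * Real.log (1 / E1 + 1) + 4) ≤ C * Real.log Q := hL_c.trans hQ2
        exact le_of_mul_le_mul_left g2 (by linarith)
      rw [Real.rpow_def_of_pos hQ0]
      have g3 : Real.exp (Real.log Q * -(1 / 4)) ≤ Real.exp (-Real.log (1 / E1 + 1)) :=
        Real.exp_le_exp.2 (by linarith)
      refine g3.trans ?_
      have g4 : 0 < 1 / E1 + 1 := by positivity
      rw [Real.exp_neg, Real.exp_log g4, inv_eq_one_div, div_le_iff₀ g4]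
      have g5 : E1 * (1 / E1 + 1) = 1 + E1 := by field_simp
      linarith
  have hsE : 2 * s * E1 = E0 := by rw [hE1]; field_simp
  -- good levels
  have hgood : ∀ Q : ℕ, Real.log Q ≤ 100 * (L / Kb) → L ≤ C * Real.log Q → Good c3 Q →
      ∀ Y : ℕ, X ≤ Y ^ 2 → Y ≤ X ^ (A + 1) → Mdl Q Y 1 E0 p0 (fun _ => 0) := by
    intro Q hQ1 hQ2 hG Y h1 h2
    obtain ⟨g1, g2, g3⟩ := hreg Q hQ1 hQ2 Y h1 h2
    have g4 := hg3 kp hkpK3 Q Y (g1.mono (by linarith) (by rw [hKr]; linarith)) g2 hG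
    refine L_mono g4 one_pos le_rfl ?_
    have g5 := herrC C3 (by linarith) (by linarith)
    have g6 : 2 * E1 ≤ E0 := by
      rw [← hsE]
      have : 2 * E1 * 1 ≤ 2 * E1 * s := mul_le_mul_of_nonneg_left (by linarith) (by linarith)
      linarith
    linarith
  -- the level
  obtain ⟨q, hq⟩ : ∃ q, q = L / Kb := ⟨_, rfl⟩
  have hq0 : 0 < q := by rw [hq]; positivity
  have hqL : Kb * q = L := by rw [hq]; field_simp
  have hqbig : 30000 * (|K2| + 10) ≤ q := by
    rw [hq, le_div_iff₀ (by linarith)]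
    rw [hC] at hL_b
    linarith
  obtain ⟨Q1, hQ1⟩ : ∃ Q1, Q1 = ⌊Real.exp q⌋₊ := ⟨_, rfl⟩
  have hexpq : Real.exp 1 ≤ Real.exp q := Real.exp_le_exp.2 (by linarith)
  have he2 : (2 : ℝ) ≤ Real.exp 1 := by linarith [Real.exp_one_gt_d9]
  have hQ1le : (Q1 : ℝ) ≤ Real.exp q := by rw [hQ1]; exact Nat.floor_le (Real.exp_pos q).le
  have hQ1ge : Real.exp q / 2 ≤ (Q1 : ℝ) := by
    have h1 := Nat.lt_floor_add_one (Real.exp q)
    rw [← hQ1] at h1
    linarith
  have hQ1pos : (0 : ℝ) < Q1 := by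
    have := Real.exp_pos q
    linarith
  have hlQ1le : Real.log Q1 ≤ q := by
    rw [Real.log_le_iff_le_exp hQ1pos]; exact hQ1le
  have hlQ1ge : q - 1 ≤ Real.log Q1 := by
    rw [Real.le_log_iff_exp_le hQ1pos]
    refine le_trans ?_ hQ1ge
    rw [Real.exp_sub, div_le_div_iff₀ (Real.exp_pos 1) (by norm_num)]
    have := mul_le_mul_of_nonneg_left he2 (Real.exp_pos q).le
    linarith
  have hlQ1p : Real.log ((Q1 ^ 100 : ℕ) : ℝ) = 100 * Real.log Q1 := by
    rw [Nat.cast_pow, Real.log_pow]; norm_num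
  have hKlog : ∀ Q : ℕ, Real.log Q ≤ q → K0 * Real.log Q ≤ L := by
    intro Q hQ
    have g1 : K0 * Real.log Q ≤ K0 * q := mul_le_mul_of_nonneg_left hQ (by linarith)
    have g2 : K0 * q ≤ Kb * q := mul_le_mul_of_nonneg_right (by rw [hKb]; linarith) hq0.le
    linarith
  have hCq : ∀ Q : ℕ, q / 20000 ≤ Real.log Q → L ≤ C * Real.log Q := by
    intro Q hQ
    have g1 : C * (q / 20000) ≤ C * Real.log Q := mul_le_mul_of_nonneg_left hQ (by linarith)
    have g2 : C * (q / 20000) = 3 / 2 * (Kb * q) := by rw [hC]; ring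
    rw [g2, hqL] at g1
    linarith
  have hreg0 : ∀ Q : ℕ, q / 20000 ≤ Real.log Q → Real.log Q ≤ q →
      ∀ Y : ℕ, X ≤ Y ^ 2 → Y ≤ X ^ (A + 1) → RegP K0 Q Y ∧ RegP K0 (Q ^ 100) Y := by
    intro Q g1 g2 Y h1 h2
    have g3 : Real.log ((Q ^ 100 : ℕ) : ℝ) = 100 * Real.log Q := by
      rw [Nat.cast_pow, Real.log_pow]; norm_num
    have g4 := (hreg Q (by rw [← hq]; linarith) (hCq Q g1) Y h1 h2).1
    have g5 := (hreg (Q ^ 100) (by rw [g3, ← hq]; linarith)
      (hCq (Q ^ 100) (by rw [g3]; linarith)) Y h1 h2).1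
    exact ⟨g4.mono (by linarith) (by rw [hKr]; linarith), g5.mono (by linarith) (by rw [hKr]; linarith)⟩
  by_cases hG : Good c (Q1 ^ 100)
  · refine ⟨Q1, hKlog Q1 hlQ1le, hCq Q1 (by linarith), hreg0 Q1 (by linarith) hlQ1le,
      Or.inl fun Y h1 h2 => ⟨?_, ?_⟩⟩
    · refine hgood Q1 (by rw [← hq]; linarith) (hCq Q1 (by linarith)) ?_ Y h1 h2
      refine L_good_mono hG (Nat.le_self_pow (by norm_num) Q1) (by rw [hlQ1p]; linarith)
        (by linarith) ?_
      rw [hlQ1p, hc3d]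
      have : 0 ≤ c * Real.log Q1 := mul_nonneg hc0.le (by linarith)
      linarith
    · refine hgood (Q1 ^ 100) (by rw [hlQ1p, ← hq]; linarith)
        (hCq (Q1 ^ 100) (by rw [hlQ1p]; linarith)) ?_ Y h1 h2
      refine L_good_mono hG le_rfl (by rw [hlQ1p]; linarith) (by rw [hlQ1p]; linarith) ?_
      rw [hlQ1p, hc3d]
      have : 0 ≤ c * Real.log Q1 := mul_nonneg hc0.le (by linarith)
      linarith
  · unfold Good at hG
    push Not at hG
    obtain ⟨r, hr, ψ, hrQ, hprim, hne, hsq, β, hβ1, hβ2, hz⟩ := hG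
    have hβ : β < 1 := by
      rcases lt_or_eq_of_le hβ2 with h | h
      · exact h
      · exfalso
        rw [h] at hz
        refine DirichletCharacter.LFunction_ne_zero_of_one_le_re ψ (Or.inl hne) ?_ hz
        simp
    have hsm : (1 - β) * (100 * Real.log Q1) ≤ c := by
      have h1 : 1 - β ≤ c / Real.log ((Q1 ^ 100 : ℕ) : ℝ) := by linarith
      rw [hlQ1p, le_div_iff₀ (by linarith)] at h1
      exact h1
    by_cases hr100 : r ^ 100 ≤ Q1
    · -- exceptional level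
      obtain ⟨u, hu⟩ : ∃ u, u = (1 - β) * (L / 2) := ⟨_, rfl⟩
      have hu0 : 0 < u := by rw [hu]; exact mul_pos (by linarith) (by linarith)
      obtain ⟨η, hη⟩ : ∃ η, η = 1 - Real.exp (-u) := ⟨_, rfl⟩
      have hη0 : 0 < η := by
        rw [hη]
        have : Real.exp (-u) < 1 := by rw [Real.exp_lt_one_iff]; linarith
        linarith
      have hsm1 : (1 - β) * Real.log Q1 ≤ c1 := by
        have : 0 ≤ (1 - β) * Real.log Q1 := mul_nonneg (by linarith) (by linarith)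
        linarith
      have hβs : 1 - β ≤ 1 := by
        have h1 : (1 - β) * 1 ≤ (1 - β) * Real.log Q1 :=
          mul_le_mul_of_nonneg_left (by linarith) (by linarith)
        linarith
      refine ⟨Q1, hKlog Q1 hlQ1le, hCq Q1 (by linarith), hreg0 Q1 (by linarith) hlQ1le,
        Or.inr ⟨r, hr, ψ, β, η, hr100, hprim, hne, hsq, hβ, hz, ?_, fun Y h1 h2 => ?_⟩⟩
      · have h1 := L_half (1 - β) (by linarith) hβs
        have h2 : Real.exp (-u) ≤ Real.exp (-(1 - β)) := by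
          apply Real.exp_le_exp.2
          have : (1 - β) * 1 ≤ (1 - β) * (L / 2) :=
            mul_le_mul_of_nonneg_left (by linarith) (by linarith)
          rw [hu]
          linarith
        rw [hη]
        linarith
      · obtain ⟨y1, y2, y3⟩ := hY Y h1 h2
        have hYexp : (Y : ℝ) ^ (β - 1) = Real.exp (-((1 - β) * Real.log Y)) := by
          rw [Real.rpow_def_of_pos y3]
          congr 1
          ring
        have hηY : η ≤ 1 - (Y : ℝ) ^ (β - 1) := by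
          rw [hη, hYexp]
          have : Real.exp (-((1 - β) * Real.log Y)) ≤ Real.exp (-u) := by
            apply Real.exp_le_exp.2
            rw [hu]
            have : (1 - β) * (L / 2) ≤ (1 - β) * Real.log Y :=
              mul_le_mul_of_nonneg_left y1 (by linarith)
            linarith
          linarith
        have hηY' : 1 - (Y : ℝ) ^ (β - 1) ≤ s * η := by
          rw [hη, hYexp]
          refine le_trans ?_ (L_bern u s (by linarith))
          have : Real.exp (-(s * u)) ≤ Real.exp (-((1 - β) * Real.log Y)) := by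
            apply Real.exp_le_exp.2
            have h3 : (1 - β) * Real.log Y ≤ (1 - β) * (((A : ℝ) + 1) * L) :=
              mul_le_mul_of_nonneg_left y2 (by linarith)
            have h4 : s * u = (1 - β) * (((A : ℝ) + 1) * L) := by rw [hs, hu]; ring
            linarith
          linarith
        have hfin : ∀ Q : ℕ, r ^ 100 ≤ Q → Real.log Q ≤ 100 * (L / Kb) → L ≤ C * Real.log Q →
            (1 - β) * Real.log Q ≤ c1 → Mdl Q Y η E0 ⟨r, ψ⟩ (fun m => (m : ℝ) ^ (β - 1)) := by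
          intro Q q1 q2 q3 q4
          obtain ⟨g1, g2, g3⟩ := hreg Q q2 q3 Y h1 h2
          have g4 := (hexc kp hkpK1 Q Y (g1.mono (by linarith) (by rw [hKr]; linarith)) g2 r ψ q1
            hprim hne hsq β hβ hz q4).2
          refine L_mono g4 hη0 hηY ?_
          have g5 := herrC C1 (by linarith) (by linarith)
          have g6 : C1 * Real.exp (-(kp / C1)) + (Q : ℝ) ^ (-(1 / 4) : ℝ) ≤ 2 * E1 := by linarith
          have g7 : 0 ≤ 1 - (Y : ℝ) ^ (β - 1) := by linarith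
          calc (1 - (Y : ℝ) ^ (β - 1)) * (C1 * Real.exp (-(kp / C1)) + (Q : ℝ) ^ (-(1 / 4) : ℝ))
              ≤ (1 - (Y : ℝ) ^ (β - 1)) * (2 * E1) := mul_le_mul_of_nonneg_left g6 g7
            _ ≤ (s * η) * (2 * E1) := mul_le_mul_of_nonneg_right hηY' (by linarith)
            _ = η * (2 * s * E1) := by ring
            _ = η * E0 := by rw [hsE]
        refine ⟨hfin Q1 hr100 (by rw [← hq]; linarith) (hCq Q1 (by linarith)) hsm1,
          hfin (Q1 ^ 100) (hr100.trans (Nat.le_self_pow (by norm_num) Q1))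
            (by rw [hlQ1p, ← hq]; linarith) (hCq (Q1 ^ 100) (by rw [hlQ1p]; linarith)) ?_⟩
        rw [hlQ1p]
        linarith
    · -- large conductor
      push Not at hr100
      have hr100' : (Q1 : ℝ) < (r : ℝ) ^ 100 := by exact_mod_cast hr100
      have hrpos : (0 : ℝ) < r := by exact_mod_cast Nat.pos_of_ne_zero (NeZero.ne r)
      have hlr : Real.log Q1 ≤ 100 * Real.log r := by
        have h1 := Real.log_le_log hQ1pos hr100'.le
        rw [Real.log_pow] at h1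
        exact_mod_cast h1
      have hlr' : q / 100 - 1 ≤ Real.log r := by linarith
      have hexplr : Real.exp 1 ≤ r := by
        rw [← Real.le_log_iff_exp_le hrpos]
        linarith
      have hr2 : (2 : ℝ) ≤ r := by linarith
      have hr2' : 2 ≤ r := by exact_mod_cast hr2
      have hcast : ((r - 1 : ℕ) : ℝ) = r - 1 := by
        rw [Nat.cast_sub (by omega), Nat.cast_one]
      have hr1pos : (0 : ℝ) < ((r - 1 : ℕ) : ℝ) := by rw [hcast]; linarith
      have hlow : Real.log r - 1 ≤ Real.log ((r - 1 : ℕ) : ℝ) := by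
        rw [Real.le_log_iff_exp_le hr1pos, hcast, Real.exp_sub, Real.exp_log hrpos,
          div_le_iff₀ (Real.exp_pos 1)]
        have := mul_le_mul_of_nonneg_left he2 (show (0:ℝ) ≤ r - 1 by linarith)
        linarith
      have hup : Real.log ((r - 1 : ℕ) : ℝ) ≤ 100 * q := by
        have h1 : Real.log ((r - 1 : ℕ) : ℝ) ≤ Real.log ((Q1 ^ 100 : ℕ) : ℝ) := by
          refine Real.log_le_log hr1pos ?_
          rw [hcast]
          have : (r : ℝ) ≤ ((Q1 ^ 100 : ℕ) : ℝ) := by exact_mod_cast hrQ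
          linarith
        rw [hlQ1p] at h1
        linarith
      have hKr' : K2 ≤ r := by
        have h1 := le_abs_self K2
        have h3 : Real.log r ≤ r := (Real.log_le_sub_one_of_pos hrpos).trans (by linarith)
        linarith
      have hexc' : Exc c2 (Q1 ^ 100) r ψ β := by
        refine ⟨hrQ, hprim, hne, hsq, ?_, hβ, hz⟩
        have : c / Real.log ((Q1 ^ 100 : ℕ) : ℝ) ≤ c2 / Real.log ((Q1 ^ 100 : ℕ) : ℝ) :=
          div_le_div_of_nonneg_right hcc2 (by rw [hlQ1p]; linarith)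
        linarith
      have hG2 := hgb (Q1 ^ 100) r ψ β hKr' hexc'
      -- the level
      obtain ⟨v, hv⟩ : ∃ v, v = Real.log ((r - 1 : ℕ) : ℝ) / 100 := ⟨_, rfl⟩
      have hv1 : q / 10000 - 1 ≤ v := by rw [hv]; linarith
      have hvq : v ≤ q := by rw [hv]; linarith
      obtain ⟨Q2, hQ2⟩ : ∃ Q2, Q2 = ⌊Real.exp v⌋₊ := ⟨_, rfl⟩
      have hexpv : Real.exp 1 ≤ Real.exp v := Real.exp_le_exp.2 (by linarith)
      have hQ2le : (Q2 : ℝ) ≤ Real.exp v := by rw [hQ2]; exact Nat.floor_le (Real.exp_pos v).le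
      have hQ2ge : Real.exp v / 2 ≤ (Q2 : ℝ) := by
        have h1 := Nat.lt_floor_add_one (Real.exp v)
        rw [← hQ2] at h1
        linarith
      have hQ2pos : (0 : ℝ) < Q2 := by
        have := Real.exp_pos v
        linarith
      have hlQ2le : Real.log Q2 ≤ v := by
        rw [Real.log_le_iff_le_exp hQ2pos]; exact hQ2le
      have hlQ2ge : v - 1 ≤ Real.log Q2 := by
        rw [Real.le_log_iff_exp_le hQ2pos]
        refine le_trans ?_ hQ2ge
        rw [Real.exp_sub, div_le_div_iff₀ (Real.exp_pos 1) (by norm_num)]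
        have := mul_le_mul_of_nonneg_left he2 (Real.exp_pos v).le
        linarith
      have hlQ2p : Real.log ((Q2 ^ 100 : ℕ) : ℝ) = 100 * Real.log Q2 := by
        rw [Nat.cast_pow, Real.log_pow]; norm_num
      have hQ2r : Q2 ^ 100 ≤ r - 1 := by
        have h1 : ((Q2 ^ 100 : ℕ) : ℝ) ≤ ((r - 1 : ℕ) : ℝ) := by
          rw [← Real.log_le_log_iff (by rw [Nat.cast_pow]; exact pow_pos hQ2pos 100) hr1pos, hlQ2p]
          have : 100 * v = Real.log ((r - 1 : ℕ) : ℝ) := by rw [hv]; ring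
          linarith
        exact_mod_cast h1
      have hlQ2q : q / 20000 ≤ Real.log Q2 := by linarith
      have hlr1 : Real.log ((r - 1 : ℕ) : ℝ) ≤ 200 * Real.log Q2 := by
        have : 100 * v = Real.log ((r - 1 : ℕ) : ℝ) := by rw [hv]; ring
        linarith
      have hlr1pos : 0 < Real.log ((r - 1 : ℕ) : ℝ) := by linarith
      have hgm : ∀ t : ℝ, Real.log Q2 ≤ t → c3 * Real.log ((r - 1 : ℕ) : ℝ) ≤ c2 * t := by
        intro t ht
        have h1 : c3 * Real.log ((r - 1 : ℕ) : ℝ) ≤ c3 * (200 * Real.log Q2) :=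
          mul_le_mul_of_nonneg_left hlr1 hc3.le
        have h2 : c3 * (200 * Real.log Q2) ≤ c2 * Real.log Q2 := by
          have h3 : c3 * 200 ≤ c2 := by rw [hc3d]; linarith
          have h4 := mul_le_mul_of_nonneg_right h3 (show 0 ≤ Real.log Q2 by linarith)
          linarith
        have h5 : c2 * Real.log Q2 ≤ c2 * t := mul_le_mul_of_nonneg_left ht hc2.le
        linarith
      refine ⟨Q2, hKlog Q2 (by linarith), hCq Q2 hlQ2q, hreg0 Q2 hlQ2q (by linarith),
        Or.inl fun Y h1 h2 => ⟨?_, ?_⟩⟩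
      · refine hgood Q2 (by rw [← hq]; linarith) (hCq Q2 hlQ2q) ?_ Y h1 h2
        exact L_good_mono hG2 ((Nat.le_self_pow (by norm_num) Q2).trans hQ2r) hlr1pos (by linarith)
          (hgm _ le_rfl)
      · refine hgood (Q2 ^ 100) (by rw [hlQ2p, ← hq]; linarith)
          (hCq (Q2 ^ 100) (by rw [hlQ2p]; linarith)) ?_ Y h1 h2
        refine L_good_mono hG2 hQ2r hlr1pos (by rw [hlQ2p]; linarith) ?_
        rw [hlQ2p]
        exact hgm _ (by linarith)

end Pool.Agent.Lib.H24P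
end
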