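import Pool.Agent.Lib.H59M.M1.M058
import Pool.Agent.Lib.H59M.M1.M060

/-! Merged copies (to shorten the build) of Lib.H59P.M3F, Lib.H59P.M5A, Lib.H59P.M5B, Lib.H59P.M5, Lib.H59P.C3A, Lib.H59P.C3, Lib.H59P.M4, Lib.H59P.Z1A, Lib.H59P.Z3A, Lib.H59P.Z3, Lib.H59P.Z1B, Lib.H59P.Z1C, Lib.H59P.Z1D, Lib.H59P.Z1E, Lib.H59P.Z2A, Lib.H59P.Z2B, Lib.H59P.Z2. -/

-- from Lib.H59P.M3F
section

/-!
# Project H59P, chunk M3f: the mean of the main term function times a local function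
-/

open Finset

namespace Pool.Agent.Lib.H59P

open Pool.Agent.Lib.H68T Pool.Agent.Lib.H18Q

theorem m3f_uu (R : ℕ) (m : ℤ) : uu R.primeFactors (m + R) = uu R.primeFactors m := by
  unfold uu
  apply Finset.prod_congr rfl
  intro l hl
  obtain ⟨c, hc⟩ := Nat.dvd_of_mem_primeFactors hl
  have : m + (R : ℤ) = m + (c : ℤ) * l := by
    rw [show (R : ℤ) = ((l * c : ℕ) : ℤ) from by rw [← hc]]
    push_cast; ring
  rw [this, gl_per]

theorem m3f_cj (p : Ch) (R : ℕ) (hd : p.1 ∣ R) (m : ℤ) : cj p (m + R) = cj p m := by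
  unfold cj
  have : (((m + (R : ℤ) : ℤ)) : ZMod p.1) = (m : ZMod p.1) := by
    push_cast
    rw [(ZMod.natCast_eq_zero_iff R p.1).2 hd, add_zero]
  rw [this]

/-- `Ph p R.primeFactors h` has period `R` if all conductors divide `R`. Proof. `gl_per`; `ZMod` casts. -/
theorem M3f_per {k : ℕ} (p : Fin k → Ch) (R : ℕ) (hd : ∀ i, (p i).1 ∣ R) (h : Fin k → ℕ) (n : ℤ) :
    Ph p R.primeFactors h (n + R) = Ph p R.primeFactors h n := by
  unfold Ph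
  apply Finset.prod_congr rfl
  intro i _
  have : n + (R : ℤ) + h i = (n + h i) + R := by ring
  rw [this, m3f_uu, m3f_cj (p i) R (hd i)]

/-- Proof. `n ↦ Ph … n * Wd d h n` has period `R d`, is bounded by `(R/φ(R))^k (d/φ(d))^k` (`M3a_Ph`, `M3a_uu`,
`M3a_td`) and has mean `MR p R h * td d h` (`M3d`, `M3e`, `d` coprime to `R`); `M3c`. -/
theorem M3f {k : ℕ} (p : Fin k → Ch) (R d : ℕ) (hR : 0 < R) (hd : ∀ i, (p i).1 ∣ R)
    (hsq : Squarefree d) (hc : Nat.Coprime d R) (h : Fin k → ℕ) (a H : ℕ) :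
    ‖∑ n ∈ Ico a (a + H), Ph p R.primeFactors h n * ((Wd d h n : ℝ) : ℂ) -
      H * (MR p R h * ((td d h : ℝ) : ℂ))‖ ≤
      2 * (R * d) * (((R : ℝ) / (Nat.totient R : ℝ)) * ((d : ℝ) / (Nat.totient d : ℝ))) ^ k := by
  have hd0 : 0 < d := Nat.pos_of_ne_zero hsq.ne_zero
  set f : ℤ → ℂ := fun n => Ph p R.primeFactors h n with hf
  set g : ℤ → ℂ := fun n => ((Wd d h n : ℝ) : ℂ) with hg
  have hfper : ∀ m, f (m + R) = f m := fun m => M3f_per p R hd h m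
  have hgper : ∀ m, g (m + d) = g m := by
    intro m
    show ((Wd d h (m + d) : ℝ) : ℂ) = ((Wd d h m : ℝ) : ℂ)
    have : Wd d h (m + d) = Wd d h m :=
      m3e_per_prod d.primeFactors d (fun l hl => Nat.dvd_of_mem_primeFactors hl) h m
    rw [this]
  have hfgper : ∀ m : ℤ, f (m + ((R * d : ℕ) : ℤ)) * g (m + ((R * d : ℕ) : ℤ)) = f m * g m := by
    intro m
    have e1 : f (m + ((R * d : ℕ) : ℤ)) = f m := by
      have := m3c_per f R hfper d m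
      rw [← this]
      congr 1
      push_cast
      ring
    have e2 : g (m + ((R * d : ℕ) : ℤ)) = g m := by
      have := m3c_per g d hgper R m
      rw [← this]
      congr 1
    rw [e1, e2]
  have hbd : ∀ m : ℤ, ‖f m * g m‖ ≤
      (((R : ℝ) / (Nat.totient R : ℝ)) * ((d : ℝ) / (Nat.totient d : ℝ))) ^ k := by
    intro m
    rw [norm_mul, mul_pow]
    apply mul_le_mul
    · calc ‖f m‖ ≤ ∏ i, uu R.primeFactors (m + h i) :=
          M3a_Ph p R.primeFactors (fun l hl => Nat.prime_of_mem_primeFactors hl) h m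
        _ ≤ ∏ _i : Fin k, ((R : ℝ) / (Nat.totient R : ℝ)) :=
          Finset.prod_le_prod (fun i _ => (M3a_uu R hR _).1) (fun i _ => (M3a_uu R hR _).2)
        _ = ((R : ℝ) / (Nat.totient R : ℝ)) ^ k := by
          rw [Finset.prod_const, Finset.card_univ, Fintype.card_fin]
    · show ‖((Wd d h m : ℝ) : ℂ)‖ ≤ _
      rw [Complex.norm_real, Real.norm_eq_abs]
      exact (M3a_td d hsq h m).1
    · exact norm_nonneg _
    · positivity
  have key := M3c (fun m => f m * g m) (R * d) (Nat.mul_pos hR hd0) hfgper _ hbd a H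
  have hprod : ∑ n ∈ range (R * d), f n * g n = (∑ n ∈ range R, f n) * ∑ n ∈ range d, g n :=
    M3d f g R d hR hd0 hc.symm hfper hgper
  have hgsum : ∑ n ∈ range d, g n = d * ((td d h : ℝ) : ℂ) := by
    have := M3e d hsq h
    have h2 : ((∑ n ∈ range d, Wd d h n : ℝ) : ℂ) = ((d * td d h : ℝ) : ℂ) := by rw [this]
    rw [Complex.ofReal_sum] at h2
    rw [show ∑ n ∈ range d, g n = ∑ n ∈ range d, ((Wd d h (n : ℤ) : ℝ) : ℂ) from rfl, h2]
    push_cast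
    rfl
  have hRc : (R : ℂ) ≠ 0 := by exact_mod_cast hR.ne'
  have hdc : (d : ℂ) ≠ 0 := by exact_mod_cast hd0.ne'
  have hmean : (∑ n ∈ range (R * d), f n * g n) / ((R * d : ℕ) : ℂ) =
      MR p R h * ((td d h : ℝ) : ℂ) := by
    rw [hprod, hgsum]
    unfold MR
    push_cast
    field_simp
    rw [mul_comm]
  have key2 : ‖∑ n ∈ Ico a (a + H), f n * g n - H * (MR p R h * ((td d h : ℝ) : ℂ))‖ ≤
      2 * ((R * d : ℕ) : ℝ) * (((R : ℝ) / (Nat.totient R : ℝ)) * ((d : ℝ) / (Nat.totient d : ℝ))) ^ k := by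
    rw [← hmean]
    exact key
  rw [Nat.cast_mul] at key2
  exact key2

end Pool.Agent.Lib.H59P
end

-- from Lib.H59P.M5A
section

/-!
# Project H59P, chunk M5
-/

open Finset

namespace Pool.Agent.Lib.H59P

open Pool.Agent.Lib.H68T Pool.Agent.Lib.H18Q

/-- full periods -/
theorem m5a_full (f : ℤ → ℂ) (N : ℕ) (hf : ∀ m, f (m + N) = f m) (j : ℕ) :
    ∑ n ∈ range (N * j), f n = j * ∑ n ∈ range N, f n := by
  have hper : ∀ (j : ℕ) (n : ℕ), f ((N * j + n : ℕ) : ℤ) = f n := by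
    intro j n
    induction j with
    | zero => simp
    | succ j ih =>
      have e : ((N * (j + 1) + n : ℕ) : ℤ) = ((N * j + n : ℕ) : ℤ) + N := by push_cast; ring
      rw [e, hf, ih]
  induction j with
  | zero => simp
  | succ j ih =>
    rw [mul_add, mul_one, sum_range_add, ih]
    have : ∑ x ∈ range N, f ((N * j + x : ℕ) : ℤ) = ∑ n ∈ range N, f n :=
      sum_congr rfl fun n _ => hper j n
    rw [this]
    push_cast
    ring

/-- the local factors at one prime -/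
noncomputable def m5a_g {k : ℕ} (h : Fin k → ℕ) (l : ℕ) (n : ℤ) : ℂ :=
  ∏ i, (((1 + gl l (n + h i) : ℝ)) : ℂ)

theorem m5a_g_per {k : ℕ} (h : Fin k → ℕ) (l : ℕ) (n : ℤ) : m5a_g h l (n + l) = m5a_g h l n := by
  unfold m5a_g
  refine prod_congr rfl fun i _ => ?_
  have e : n + (l : ℤ) + h i = (n + h i) + 1 * l := by ring
  rw [e, gl_per]

theorem m5a_g_per' {k : ℕ} (h : Fin k → ℕ) (l c : ℕ) (n : ℤ) :
    m5a_g h l (n + (l * c : ℕ)) = m5a_g h l n := by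
  unfold m5a_g
  refine prod_congr rfl fun i _ => ?_
  have e : n + ((l * c : ℕ) : ℤ) + h i = (n + h i) + c * l := by push_cast; ring
  rw [e, gl_per]

theorem m5a_g_sum {k : ℕ} (h : Fin k → ℕ) (l : ℕ) (hl : 0 < l) :
    ∑ n ∈ range l, m5a_g h l n = l * (((1 + tp l h : ℝ)) : ℂ) := by
  have hl0 : (l : ℂ) ≠ 0 := by exact_mod_cast hl.ne'
  unfold tp m5a_g
  push_cast
  field_simp
  ring

theorem m5a_ph {k : ℕ} (p : Fin k → Ch) (A S : Finset ℕ) (hd : Disjoint A S) (h : Fin k → ℕ) (n : ℤ) :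
    Ph p (A ∪ S) h n = Ph p A h n * ∏ l ∈ S, m5a_g h l n := by
  unfold Ph m5a_g uu
  rw [prod_comm (s := S), ← prod_mul_distrib]
  refine prod_congr rfl fun i _ => ?_
  rw [prod_union hd]
  push_cast
  ring

theorem m5a_main {k : ℕ} (R : ℕ) (hR : 0 < R) (p : Fin k → Ch) (hd : ∀ i, (p i).1 ∣ R)
    (h : Fin k → ℕ) (S : Finset ℕ) (hS : ∀ l ∈ S, l.Prime ∧ ¬ l ∣ R) :
    ∑ n ∈ range (R * ∏ l ∈ S, l), Ph p R.primeFactors h n * ∏ l ∈ S, m5a_g h l n =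
      (∑ n ∈ range R, Ph p R.primeFactors h n) * ∏ l ∈ S, (l * (((1 + tp l h : ℝ)) : ℂ)) := by
  induction S using Finset.induction_on with
  | empty => simp
  | insert l S hl ih =>
    have ih := ih fun q hq => hS q (mem_insert_of_mem hq)
    obtain ⟨hlp, hlR⟩ := hS l (mem_insert_self _ _)
    have hSpos : 0 < ∏ q ∈ S, q := prod_pos fun q hq => (hS q (mem_insert_of_mem hq)).1.pos
    have hco : Nat.Coprime (R * ∏ q ∈ S, q) l := by
      rw [Nat.coprime_comm, Nat.Prime.coprime_iff_not_dvd hlp]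
      intro hdvd
      rcases (Nat.Prime.dvd_mul hlp).1 hdvd with h1 | h1
      · exact hlR h1
      · obtain ⟨q, hq, hlq⟩ := (Prime.dvd_finset_prod_iff hlp.prime _).1 h1
        have := (Nat.prime_dvd_prime_iff_eq hlp (hS q (mem_insert_of_mem hq)).1).1 hlq
        exact hl (this ▸ hq)
    have e1 : R * ∏ q ∈ insert l S, q = (R * ∏ q ∈ S, q) * l := by
      rw [prod_insert hl]; ring
    have h3 := M3d (fun n => Ph p R.primeFactors h n * ∏ q ∈ S, m5a_g h q n) (m5a_g h l)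
      (R * ∏ q ∈ S, q) l (Nat.mul_pos hR hSpos) hlp.pos hco (by
        intro m
        have a1 : Ph p R.primeFactors h (m + (R * ∏ q ∈ S, q : ℕ)) = Ph p R.primeFactors h m := by
          have hper : ∀ (j : ℕ) (m : ℤ), Ph p R.primeFactors h (m + (R * j : ℕ)) =
              Ph p R.primeFactors h m := by
            intro j
            induction j with
            | zero => intro m; simp
            | succ j ihj =>
              intro m
              have e : m + ((R * (j + 1) : ℕ) : ℤ) = (m + ((R * j : ℕ) : ℤ)) + R := by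
                push_cast; ring
              rw [e, M3f_per p R hd h, ihj m]
          exact hper _ m
        have a2 : ∀ q ∈ S, m5a_g h q (m + (R * ∏ q ∈ S, q : ℕ)) = m5a_g h q m := by
          intro q hq
          have : R * ∏ q ∈ S, q = q * (R * ∏ t ∈ S.erase q, t) := by
            rw [← mul_prod_erase S (fun t => t) hq]; ring
          rw [this]
          exact m5a_g_per' h q _ m
        rw [a1, prod_congr rfl a2]) (m5a_g_per h l)
    rw [e1, prod_insert hl]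
    have e2 : ∑ n ∈ range (R * (∏ q ∈ S, q) * l),
        Ph p R.primeFactors h n * ∏ q ∈ insert l S, m5a_g h q n =
        ∑ n ∈ range (R * (∏ q ∈ S, q) * l),
          (Ph p R.primeFactors h n * ∏ q ∈ S, m5a_g h q n) * m5a_g h l n := by
      refine sum_congr rfl fun n _ => ?_
      rw [prod_insert hl]
      ring
    rw [e2, h3, ih, m5a_g_sum h l hlp.pos]
    ring

/-- **M5.** The mean modulo `R` times the local factors at the other primes is the mean over `Q!`.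

Proof. `Ph p (pr Q) h n = Ph p R.primeFactors h n * ∏_{l ∈ pr Q, l ∤ R} ∏_i (1 + gl l (n+h_i))` (the prime
factors of `R` are at most `Q`, since `R ∣ Q!`). By `M3d` and induction over the primes `l` the sum over a
period `N = R ∏_{l ≤ Q, l ∤ R} l` is `R MR p R h ∏ l (1 + tp l h)`; `N` divides `Q!` (`R ∣ Q!`, each `l ∣ Q!`,
pairwise coprime), so the mean over `Q!` is the mean over `N` (full periods). -/
theorem M5 {k : ℕ} (Q R : ℕ) (hR : 0 < R) (hRQ : R ∣ Q.factorial) (p : Fin k → Ch)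
    (hd : ∀ i, (p i).1 ∣ R) (h : Fin k → ℕ) :
    MR p R h * ((SS ((pr Q).filter (fun l => ¬ l ∣ R)) h : ℝ) : ℂ) = MQ Q p h := by
  obtain ⟨S, hSdef⟩ : ∃ S, S = (pr Q).filter (fun l => ¬ l ∣ R) := ⟨_, rfl⟩
  rw [← hSdef]
  have hS : ∀ l ∈ S, (l ≤ Q ∧ l.Prime) ∧ ¬ l ∣ R := by
    intro l hl
    rw [hSdef, mem_filter, pr, mem_filter, mem_Icc] at hl
    exact ⟨⟨hl.1.1.2, hl.1.2⟩, hl.2⟩
  have hSpos : 0 < ∏ q ∈ S, q := prod_pos fun q hq => (hS q hq).1.2.pos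
  have hdisj : Disjoint R.primeFactors S := by
    rw [disjoint_left]
    intro l h1 h2
    exact (hS l h2).2 (Nat.dvd_of_mem_primeFactors h1)
  have hunion : R.primeFactors ∪ S = pr Q := by
    ext l
    rw [mem_union, hSdef, mem_filter, Nat.mem_primeFactors]
    constructor
    · rintro (⟨h1, h2, -⟩ | h1)
      · rw [pr, mem_filter, mem_Icc]
        exact ⟨⟨h1.one_le, (Nat.Prime.dvd_factorial h1).1 (h2.trans hRQ)⟩, h1⟩
      · exact h1.1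
    · intro h1
      by_cases h2 : l ∣ R
      · left
        rw [pr, mem_filter] at h1
        exact ⟨h1.2, h2, hR.ne'⟩
      · exact Or.inr ⟨h1, h2⟩
  have hper0 : ∀ (j : ℕ) (m : ℤ), Ph p R.primeFactors h (m + (R * j : ℕ)) =
      Ph p R.primeFactors h m := by
    intro j
    induction j with
    | zero => intro m; simp
    | succ j ihj =>
      intro m
      have e : m + ((R * (j + 1) : ℕ) : ℤ) = (m + ((R * j : ℕ) : ℤ)) + R := by
        push_cast; ring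
      rw [e, M3f_per p R hd h, ihj m]
  have hper : ∀ m : ℤ, Ph p (pr Q) h (m + (R * ∏ q ∈ S, q : ℕ)) = Ph p (pr Q) h m := by
    intro m
    rw [← hunion, m5a_ph p _ _ hdisj, m5a_ph p _ _ hdisj, hper0]
    congr 1
    refine prod_congr rfl fun q hq => ?_
    have : R * ∏ q ∈ S, q = q * (R * ∏ t ∈ S.erase q, t) := by
      rw [← mul_prod_erase S (fun t => t) hq]; ring
    rw [this]
    exact m5a_g_per' h q _ m
  have hcop : Nat.Coprime R (∏ q ∈ S, q) := by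
    apply Nat.Coprime.prod_right
    intro q hq
    rw [Nat.coprime_comm, Nat.Prime.coprime_iff_not_dvd (hS q hq).1.2]
    exact (hS q hq).2
  have hdvdN : R * ∏ q ∈ S, q ∣ Q.factorial := by
    apply hcop.mul_dvd_of_dvd_of_dvd hRQ
    apply Finset.prod_primes_dvd
    · intro q hq
      exact (hS q hq).1.2.prime
    · intro q hq
      exact (Nat.Prime.dvd_factorial (hS q hq).1.2).2 (hS q hq).1.1
  obtain ⟨j, hj⟩ := hdvdN
  have hfac : 0 < Q.factorial := Nat.factorial_pos Q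
  have hj0 : 0 < j := by
    rcases Nat.eq_zero_or_pos j with rfl | h1
    · rw [mul_zero] at hj
      omega
    · exact h1
  have hsum : ∑ n ∈ range (R * ∏ l ∈ S, l), Ph p (pr Q) h n =
      (∑ n ∈ range R, Ph p R.primeFactors h n) * ∏ l ∈ S, (l * (((1 + tp l h : ℝ)) : ℂ)) := by
    rw [← m5a_main R hR p hd h S fun l hl => ⟨(hS l hl).1.2, (hS l hl).2⟩]
    refine sum_congr rfl fun n _ => ?_
    rw [← hunion, m5a_ph p _ _ hdisj]
  unfold MQ MR SS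
  rw [hj, m5a_full _ _ hper j, hsum, prod_mul_distrib]
  have r0 : (R : ℂ) ≠ 0 := by exact_mod_cast hR.ne'
  have j0 : (j : ℂ) ≠ 0 := by exact_mod_cast hj0.ne'
  have s0 : (∏ l ∈ S, (l : ℂ)) ≠ 0 := by
    rw [← Nat.cast_prod]
    exact_mod_cast hSpos.ne'
  push_cast
  field_simp

end Pool.Agent.Lib.H59P
end

-- from Lib.H59P.M5B
section

/-!
# Project H59P, chunk M5_loc
-/

open Finset

namespace Pool.Agent.Lib.H59P

open Pool.Agent.Lib.H68T Pool.Agent.Lib.H18Q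

theorem m5b_cj (m : ℤ) : cj p0 m = 1 := by
  unfold cj p0
  have h1 : ((m : ℤ) : ZMod 1) = 1 := Subsingleton.elim _ _
  rw [h1, map_one, map_one]

theorem m5b_ph {k : ℕ} (h : Fin k → ℕ) (n : ℤ) : Ph (fun _ => p0) ∅ h n = 1 := by
  unfold Ph uu
  refine prod_eq_one fun i _ => ?_
  rw [m5b_cj]
  simp

/-- The mean modulo `R` for the trivial characters. Proof. As `M5`: `M3d` over the prime factors of `R`, the
period `∏_{l ∣ R} l` divides `R`. -/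
theorem M5_loc {k : ℕ} (R : ℕ) (hR : 0 < R) (h : Fin k → ℕ) :
    MR (fun _ => p0) R h = ((SS R.primeFactors h : ℝ) : ℂ) := by
  have hp1 : ∀ l ∈ R.primeFactors, l.Prime ∧ ¬ l ∣ 1 := by
    intro l hl
    have h1 := Nat.prime_of_mem_primeFactors hl
    exact ⟨h1, fun h2 => h1.one_lt.ne' (Nat.dvd_one.1 h2)⟩
  have hpos : 0 < ∏ l ∈ R.primeFactors, l := prod_pos fun q hq => (hp1 q hq).1.pos
  have hPh : ∀ n : ℤ, Ph (fun _ : Fin k => p0) R.primeFactors h n =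
      ∏ l ∈ R.primeFactors, m5a_g h l n := by
    intro n
    have h1 := m5a_ph (fun _ : Fin k => p0) ∅ R.primeFactors (disjoint_empty_left _) h n
    rw [empty_union, m5b_ph, one_mul] at h1
    exact h1
  have hmain := m5a_main 1 one_pos (fun _ : Fin k => p0) (fun _ => one_dvd _) h R.primeFactors hp1
  rw [one_mul, Nat.primeFactors_one] at hmain
  have hone : ∑ n ∈ range 1, Ph (fun _ : Fin k => p0) ∅ h n = 1 := by
    rw [sum_range_one]
    exact m5b_ph h _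
  rw [hone, one_mul] at hmain
  have hmain2 : ∑ n ∈ range (∏ l ∈ R.primeFactors, l), Ph (fun _ : Fin k => p0) R.primeFactors h n =
      ∏ l ∈ R.primeFactors, (l * (((1 + tp l h : ℝ)) : ℂ)) := by
    rw [← hmain]
    refine sum_congr rfl fun n _ => ?_
    rw [hPh, m5b_ph, one_mul]
  have hper : ∀ m : ℤ, Ph (fun _ : Fin k => p0) R.primeFactors h (m + (∏ l ∈ R.primeFactors, l : ℕ)) =
      Ph (fun _ : Fin k => p0) R.primeFactors h m := by
    intro m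
    rw [hPh, hPh]
    refine prod_congr rfl fun q hq => ?_
    rw [← mul_prod_erase R.primeFactors (fun t => t) hq]
    exact m5a_g_per' h q _ m
  obtain ⟨j, hj⟩ := Nat.prod_primeFactors_dvd R
  have hj0 : 0 < j := by
    rcases Nat.eq_zero_or_pos j with rfl | h1
    · rw [mul_zero] at hj
      omega
    · exact h1
  have hsum : ∑ n ∈ range R, Ph (fun _ : Fin k => p0) R.primeFactors h n =
      j * ∏ l ∈ R.primeFactors, (l * (((1 + tp l h : ℝ)) : ℂ)) := by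
    have h1 := m5a_full _ _ hper j
    rw [← hj, hmain2] at h1
    exact h1
  have hRc : (R : ℂ) = (∏ l ∈ R.primeFactors, (l : ℂ)) * j := by
    have h1 : ((R : ℕ) : ℂ) = (((∏ l ∈ R.primeFactors, l) * j : ℕ) : ℂ) := by rw [← hj]
    rw [h1]
    push_cast
    rfl
  have hR0 : (R : ℂ) ≠ 0 := by exact_mod_cast hR.ne'
  unfold MR SS
  rw [hsum, prod_mul_distrib, div_eq_iff hR0, hRc]
  push_cast
  ring

end Pool.Agent.Lib.H59P
end

-- from Lib.H59P.M5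
section

/-!
# Project H59P, chunk M5_SS
-/

open Finset

namespace Pool.Agent.Lib.H59P

open Pool.Agent.Lib.H68T Pool.Agent.Lib.H18Q

/-- The mean of `∏_i uu (pr Q)(n + h_i)` is the singular series. Proof. `M5` with `R = 1`, `p_i = p0`
(`cj p0 m = 1`), or directly. -/
theorem M5_SS {k : ℕ} (Q : ℕ) (h : Fin k → ℕ) :
    (∑ n ∈ range Q.factorial, ∏ i, uu (pr Q) ((n : ℤ) + h i)) / (Q.factorial : ℝ) =
      SS (pr Q) h := by
  have hc : ∀ m : ℤ, cj p0 m = 1 := by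
    intro m
    unfold cj p0
    rw [MulChar.one_apply (isUnit_of_subsingleton _), map_one]
  have h1 := M5 Q 1 one_pos (one_dvd _) (fun _ : Fin k => p0) (fun _ => dvd_rfl) h
  have h2 : (pr Q).filter (fun l => ¬ l ∣ 1) = pr Q := by
    apply filter_true_of_mem
    intro l hl h3
    rw [pr, mem_filter] at hl
    exact hl.2.one_lt.ne' (Nat.dvd_one.1 h3)
  have h3 : MR (fun _ : Fin k => p0) 1 h = 1 := by
    unfold MR Ph
    rw [sum_range_one, Nat.primeFactors_one]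
    simp [uu, hc]
  rw [h2, h3, one_mul] at h1
  have h4 : MQ Q (fun _ : Fin k => p0) h =
      (((∑ n ∈ range Q.factorial, ∏ i, uu (pr Q) ((n : ℤ) + h i)) / (Q.factorial : ℝ) : ℝ) : ℂ) := by
    unfold MQ Ph
    push_cast
    congr 1
    refine sum_congr rfl fun n _ => prod_congr rfl fun i _ => ?_
    rw [hc, one_mul]
  rw [h4] at h1
  exact (Complex.ofReal_injective h1).symm

end Pool.Agent.Lib.H59P
end

-- from Lib.H59P.C3A
section

/-!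
# Project H59P, chunk C3a
-/

open Finset

namespace Pool.Agent.Lib.H59P

open Pool.Agent.Lib.H68T Pool.Agent.Lib.H18Q

/-- A real character has real values `-1, 0, 1`. Proof. `ψ ^ 2 = 1`; compare `XDA_real` in `H68X`. -/
theorem C3a (px : Ch) (hreal : px.2 ^ 2 = 1) (m : ℤ) :
    cj px m = ((cj px m).re : ℂ) ∧ |(cj px m).re| ≤ 1 := by
  unfold cj
  by_cases ha : IsUnit (m : ZMod px.1)
  · have h1 : (px.2 (m : ZMod px.1)) ^ 2 = 1 := by
      rw [← MulChar.pow_apply' px.2 (by norm_num : (2:ℕ) ≠ 0) _, hreal, MulChar.one_apply ha]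
    have h2 : (px.2 (m : ZMod px.1) - 1) * (px.2 (m : ZMod px.1) + 1) = 0 := by
      have : (px.2 (m : ZMod px.1) - 1) * (px.2 (m : ZMod px.1) + 1) = (px.2 (m : ZMod px.1)) ^ 2 - 1 := by ring
      rw [this, h1, sub_self]
    rcases mul_eq_zero.mp h2 with h3 | h3
    · have : px.2 (m : ZMod px.1) = 1 := by linear_combination h3
      rw [this, map_one]
      simp
    · have : px.2 (m : ZMod px.1) = -1 := by linear_combination h3
      rw [this, map_neg, map_one]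
      simp
  · rw [MulChar.map_nonunit px.2 ha, map_zero]
    simp

end Pool.Agent.Lib.H59P
end

-- from Lib.H59P.C3
section

/-!
# Project H59P, chunk C3
-/

open Finset

namespace Pool.Agent.Lib.H59P

open Pool.Agent.Lib.H68T Pool.Agent.Lib.H18Q

theorem c3_cj_p0 (m : ℤ) : cj p0 m = 1 := by
  unfold cj p0
  have h : IsUnit ((m : ℤ) : ZMod 1) := isUnit_of_subsingleton _
  rw [MulChar.one_apply h, map_one]

theorem c3_cj_norm (p : Ch) (m : ℤ) : ‖cj p m‖ ≤ 1 := by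
  unfold cj
  rw [RCLike.norm_conj]
  exact DirichletCharacter.norm_le_one _ _

theorem c3_lcm {k : ℕ} (px : Ch) (J : Finset (Fin k)) (p p' : Fin k → Ch) (h1 : ∀ i ∈ J, p i = p' i)
    (h2 : ∀ i, i ∉ J → p i = p0 ∨ p i = px) :
    px.1.lcm (univ.lcm fun i => (p i).1) ∣ px.1.lcm (univ.lcm fun i => (p' i).1) := by
  refine Nat.lcm_dvd (Nat.dvd_lcm_left _ _) (Finset.lcm_dvd fun i _ => ?_)
  by_cases hi : i ∈ J
  · rw [h1 i hi]
    exact (Finset.dvd_lcm (f := fun i => (p' i).1) (Finset.mem_univ i)).trans (Nat.dvd_lcm_right _ _)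
  · rcases h2 i hi with h | h
    · rw [h]
      exact one_dvd _
    · rw [h]
      exact Nat.dvd_lcm_left _ _

theorem c3_sumA (Q : ℕ) (hQ : 1 ≤ Q) (px : Ch) (hpx : px ∈ PC Q) (t : ℝ) (htriv : px = p0 → t = 0)
    (hreal : px.2 ^ 2 = 1) (m : ℤ) :
    ∑ p ∈ PC Q, MX px (fun _ => t) 0 p * cj p m = ((1 - t * (cj px m).re : ℝ) : ℂ) := by
  classical
  by_cases hp : px = p0
  · have ht := htriv hp
    rw [Finset.sum_eq_single p0]
    · simp [MX, c3_cj_p0, ht]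
    · intro p _ hne
      have h0 : MX px (fun _ => t) 0 p = 0 := by
        simp only [MX]
        rw [if_neg hne, if_neg (by rw [hp]; exact hne)]
      rw [h0, zero_mul]
    · intro h
      exact absurd (p0_mem hQ) h
  · have hsub : ({p0, px} : Finset Ch) ⊆ PC Q := by
      intro p h
      rw [Finset.mem_insert, Finset.mem_singleton] at h
      rcases h with h | h
      · rw [h]; exact p0_mem hQ
      · rw [h]; exact hpx
    rw [← Finset.sum_subset hsub]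
    · rw [Finset.sum_pair (Ne.symm hp)]
      have e1 : MX px (fun _ => t) 0 p0 = 1 := by simp [MX]
      have e2 : MX px (fun _ => t) 0 px = -((t : ℝ) : ℂ) := by simp [MX, hp]
      rw [e1, e2, c3_cj_p0]
      have e3 := (C3a px hreal m).1
      rw [e3]
      push_cast
      simp
      ring
    · intro p _ hne
      rw [Finset.mem_insert, Finset.mem_singleton, not_or] at hne
      have h0 : MX px (fun _ => t) 0 p = 0 := by
        simp only [MX]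
        rw [if_neg hne.1, if_neg hne.2]
      rw [h0, zero_mul]

/-- the pointwise bound -/
theorem c3_pt {k : ℕ} (Q D1 : ℕ) (hQ : 1 ≤ Q) (η E0 : ℝ) (px : Ch) (hpx : px ∈ PC Q) (hreal : px.2 ^ 2 = 1)
    (hcond : px.1 ≤ D1) (hη : 0 < η) (hE0 : 0 ≤ E0) (hE : 4 * k * E0 ≤ 1) (th : Fin k → ℝ)
    (hth0 : ∀ i, 0 ≤ th i) (hth : ∀ i, th i ≤ 1 - η) (htriv : px = p0 → ∀ i, th i = 0)
    (e : Fin k → Ch → ℂ) (he : ∀ i, ∑ p ∈ PC Q, ‖e i p‖ ≤ η * E0) (m : Fin k → ℤ) :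
    ‖∑ p ∈ TS k Q D1 px, ∏ i, ((MX px (fun _ => th i) 0 (p i) + e i (p i)) * cj (p i) (m i)) -
      ((∏ i, (1 - th i * (cj px (m i)).re) : ℝ) : ℂ)‖ ≤ 1 / 2 * ∏ i, (1 - th i * (cj px (m i)).re) := by
  classical
  have ha : ∀ i, η ≤ 1 - th i * (cj px (m i)).re := by
    intro i
    have h1 := (abs_le.mp (C3a px hreal (m i)).2).2
    have h2 := mul_le_mul_of_nonneg_left h1 (hth0 i)
    have h3 := hth i
    linarith
  have ha0 : ∀ i, 0 ≤ 1 - th i * (cj px (m i)).re := fun i => hη.le.trans (ha i)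
  have hsum : ∀ i, ∑ p ∈ PC Q, MX px (fun _ => th i) 0 p * cj p (m i) =
      ((1 - th i * (cj px (m i)).re : ℝ) : ℂ) := fun i =>
    c3_sumA Q hQ px hpx (th i) (fun h => htriv h i) hreal (m i)
  have hC1 := C1 (PC Q) ({p0, px} : Finset Ch) (fun p : Fin k → Ch => px.1.lcm (univ.lcm fun i => (p i).1) ≤ D1)
    (fun i p => MX px (fun _ => th i) 0 p * cj p (m i)) (fun i p => e i p * cj p (m i)) ?_ ?_ ?_
  rotate_left
  · intro i p _ hne
    rw [Finset.mem_insert, Finset.mem_singleton, not_or] at hne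
    have h0 : MX px (fun _ => th i) 0 p = 0 := by
      simp only [MX]
      rw [if_neg hne.1, if_neg hne.2]
    show MX px (fun _ => th i) 0 p * cj p (m i) = 0
    rw [h0, zero_mul]
  · intro J p p' h1 h2 h3
    have k1 := c3_lcm px J p p' h1 (fun i hi => by simpa using h2 i hi)
    have k2 := c3_lcm px J p' p (fun i hi => (h1 i hi).symm) (fun i hi => by simpa using h3 i hi)
    show px.1.lcm (univ.lcm fun i => (p i).1) ≤ D1 ↔ px.1.lcm (univ.lcm fun i => (p' i).1) ≤ D1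
    rw [Nat.dvd_antisymm k1 k2]
  · intro p hp
    have k1 := c3_lcm px ∅ p (fun _ => p0) (fun i hi => by simp at hi) (fun i _ => by simpa using hp i)
    have k2 : px.1.lcm (univ.lcm fun i : Fin k => ((fun _ => p0 : Fin k → Ch) i).1) ∣ px.1 := by
      refine Nat.lcm_dvd dvd_rfl (Finset.lcm_dvd fun i _ => ?_)
      exact one_dvd _
    have hpos : 0 < px.1 := (mem_PC.mp hpx).1
    exact (Nat.le_of_dvd hpos (k1.trans k2)).trans hcond
  have e1 : ∀ p : Fin k → Ch, ∏ i, ((MX px (fun _ => th i) 0 (p i) + e i (p i)) * cj (p i) (m i)) =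
      ∏ i, (MX px (fun _ => th i) 0 (p i) * cj (p i) (m i) + e i (p i) * cj (p i) (m i)) := fun p =>
    Finset.prod_congr rfl fun i _ => by ring
  have e2 : ∏ i, ∑ p ∈ PC Q, MX px (fun _ => th i) 0 p * cj p (m i) =
      ((∏ i, (1 - th i * (cj px (m i)).re) : ℝ) : ℂ) := by
    rw [Complex.ofReal_prod]
    exact Finset.prod_congr rfl fun i _ => hsum i
  have e3 : ∀ i, ‖∑ p ∈ PC Q, MX px (fun _ => th i) 0 p * cj p (m i)‖ = 1 - th i * (cj px (m i)).re := by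
    intro i
    rw [hsum i, Complex.norm_real, Real.norm_eq_abs, abs_of_nonneg (ha0 i)]
  have hC2 := C2 (fun i => 1 - th i * (cj px (m i)).re) (fun i => ∑ p ∈ PC Q, ‖e i p * cj p (m i)‖) η E0 hη hE0 hE ha
    (fun i => Finset.sum_nonneg fun _ _ => norm_nonneg _) (fun i => ?_)
  swap
  · refine (Finset.sum_le_sum fun p _ => ?_).trans (he i)
    rw [norm_mul]
    exact mul_le_of_le_one_right (norm_nonneg _) (c3_cj_norm p (m i))
  simp only [e3] at hC1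
  rw [e2] at hC1
  unfold TS
  simp only [e1]
  exact hC1.trans hC2

theorem c3_pr (Q : ℕ) : ∀ l ∈ pr Q, l.Prime := fun l hl => (Finset.mem_filter.mp hl).2

/-- **C3.** `c i p = MX px (th i) p + e i p`.

Proof. Both sides are means over `n < Q!` of `∏_i uu(n+h_i)` (`≥ 0`, `M3a_uu_nonneg`) times
`∑_{p ∈ TS} ∏_i c_i(p_i) cj (p_i)(n+h_i)` and `∏_i (1 - th_i ψ(n+h_i))` respectively. For fixed `n` apply `C1` with
`S = PC Q`, `V = {p0, px}`, `φ p = (px.1.lcm (lcm p_i.1) ≤ D1)`, `A i p = MX px (th i) p · cj p (n+h_i)`,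
`B i p = e i p · cj p (n+h_i)`: `∑_p A i p = 1 - th_i ψ(n+h_i)` (`cj p0 = 1`; `C3a`; if `px = p0` then `th_i = 0`)
which is real and `≥ 1 - th_i ≥ η`, `∑ ‖B‖ ≤ ∑ ‖e i p‖ ≤ η E0`; `dep`: coordinates in `V` have modulus `1` or
`px.1`, which does not change `px.1.lcm (…)`; `hV`: then the lcm is `px.1 ≤ D1`. `C2`. -/
theorem C3 {k : ℕ} (Q D1 : ℕ) (hQ : 1 ≤ Q) (η E0 : ℝ) (px : Ch) (hpx : px ∈ PC Q) (hreal : px.2 ^ 2 = 1)
    (hcond : px.1 ≤ D1) (hη : 0 < η) (hE0 : 0 ≤ E0) (hE : 4 * k * E0 ≤ 1) (th : Fin k → ℝ)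
    (hth0 : ∀ i, 0 ≤ th i) (hth : ∀ i, th i ≤ 1 - η) (htriv : px = p0 → ∀ i, th i = 0)
    (e : Fin k → Ch → ℂ) (he : ∀ i, ∑ p ∈ PC Q, ‖e i p‖ ≤ η * E0) (h : Fin k → ℕ) :
    ‖∑ p ∈ TS k Q D1 px, (∏ i, (MX px (fun _ => th i) 0 (p i) + e i (p i))) * MQ Q p h -
      ((PM Q px th h : ℝ) : ℂ)‖ ≤ 1 / 2 * PM Q px th h := by
  have hQ0 : (0 : ℝ) < (Q.factorial : ℝ) := by exact_mod_cast Nat.factorial_pos Q
  have hU : ∀ n : ℤ, 0 ≤ ∏ i : Fin k, uu (pr Q) (n + h i) := fun n =>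
    Finset.prod_nonneg fun i _ => M3a_uu_nonneg _ (c3_pr Q) _
  have h1 : ∑ p ∈ TS k Q D1 px, (∏ i, (MX px (fun _ => th i) 0 (p i) + e i (p i))) * MQ Q p h =
      (∑ n ∈ range Q.factorial, ((∏ i : Fin k, uu (pr Q) ((n : ℤ) + h i) : ℝ) : ℂ) *
        ∑ p ∈ TS k Q D1 px, ∏ i, ((MX px (fun _ => th i) 0 (p i) + e i (p i)) * cj (p i) ((n : ℤ) + h i))) /
        ((Q.factorial : ℝ) : ℂ) := by
    unfold MQ
    rw [Finset.sum_div]
    simp only [Finset.mul_sum, Finset.sum_div, mul_div_assoc']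
    rw [Finset.sum_comm]
    refine Finset.sum_congr rfl fun n _ => ?_
    refine Finset.sum_congr rfl fun p _ => ?_
    unfold Ph
    rw [Finset.prod_mul_distrib, Finset.prod_mul_distrib, Complex.ofReal_prod]
    push_cast
    ring
  have h2 : PM Q px th h = (∑ n ∈ range Q.factorial, (∏ i : Fin k, uu (pr Q) ((n : ℤ) + h i)) *
        ∏ i, (1 - th i * (cj px ((n : ℤ) + h i)).re)) / (Q.factorial : ℝ) := by
    unfold PM fP
    congr 1
    refine Finset.sum_congr rfl fun n _ => ?_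
    rw [Finset.prod_mul_distrib]
  rw [h1, h2]
  rw [Complex.ofReal_div, ← sub_div, norm_div, Complex.norm_real, Real.norm_eq_abs, abs_of_pos hQ0, mul_div_assoc']
  refine div_le_div_of_nonneg_right ?_ hQ0.le
  rw [Complex.ofReal_sum, ← Finset.sum_sub_distrib, Finset.mul_sum]
  refine (norm_sum_le _ _).trans (Finset.sum_le_sum fun n _ => ?_)
  rw [Complex.ofReal_mul, ← mul_sub, norm_mul, Complex.norm_real, Real.norm_eq_abs, abs_of_nonneg (hU n)]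
  have hpt := c3_pt Q D1 hQ η E0 px hpx hreal hcond hη hE0 hE th hth0 hth htriv e he (fun i => (n : ℤ) + h i)
  have := mul_le_mul_of_nonneg_left hpt (hU n)
  refine this.trans (le_of_eq ?_)
  ring

end Pool.Agent.Lib.H59P
end

-- from Lib.H59P.M4
section

/-!
# Project H59P, chunk M4: the main part of the correlation of components
-/

open Finset

namespace Pool.Agent.Lib.H59P

open Pool.Agent.Lib.H68T Pool.Agent.Lib.H18Q

/-- **M4.** Proof. `M2` for each `n`, then `M3f` for each `d ∈ SF (D/R) R` (`d ≤ D/R`, so `R d ≤ D`), `M3b`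
(`R ≤ D ≤ Q`, else `D / R = 0` and both sums are empty, `d ≤ Q`): each `d` costs
`2 D (2 (1 + log Q))^(2k)`, and there are at most `D` of them. -/
theorem M4 {k : ℕ} (Q D R : ℕ) (hDQ : D ≤ Q) (hR : 0 < R) (p : Fin k → Ch) (hp : ∀ i, p i ∈ PC Q)
    (hd : ∀ i, (p i).1 ∣ R) (h : Fin k → ℕ) (a H : ℕ) :
    ‖∑ n ∈ Ico a (a + H),
      ∑ κ ∈ (Fintype.piFinset fun i => KS Q (p i).1).filter (fun κ => R.lcm (univ.lcm κ) ≤ D),
        ∏ i, gk (p i) (κ i) ((n : ℤ) + h i) -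
      H * (MR p R h * ((∑ d ∈ SF (D / R) R, td d h : ℝ) : ℂ))‖ ≤
      2 * (D : ℝ) ^ 2 * (2 * (1 + Real.log Q)) ^ (2 * k) := by
  have e1 : ∑ n ∈ Ico a (a + H),
      ∑ κ ∈ (Fintype.piFinset fun i => KS Q (p i).1).filter (fun κ => R.lcm (univ.lcm κ) ≤ D),
        ∏ i, gk (p i) (κ i) ((n : ℤ) + h i) =
      ∑ d ∈ SF (D / R) R, ∑ n ∈ Ico a (a + H), Ph p R.primeFactors h n * ((Wd d h n : ℝ) : ℂ) := by
    symm
    rw [sum_comm]
    refine sum_congr rfl fun n _ => ?_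
    rw [M2 Q D R hDQ hR p hp hd h n, mul_sum]
  have e2 : (H : ℂ) * (MR p R h * ((∑ d ∈ SF (D / R) R, td d h : ℝ) : ℂ)) =
      ∑ d ∈ SF (D / R) R, (H : ℂ) * (MR p R h * ((td d h : ℝ) : ℂ)) := by
    push_cast
    rw [mul_sum, mul_sum]
  rw [e1, e2, ← sum_sub_distrib]
  have key : ∀ d ∈ SF (D / R) R, ‖∑ n ∈ Ico a (a + H), Ph p R.primeFactors h n * ((Wd d h n : ℝ) : ℂ) -
      (H : ℂ) * (MR p R h * ((td d h : ℝ) : ℂ))‖ ≤
      2 * (D : ℝ) * (2 * (1 + Real.log Q)) ^ (2 * k) := by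
    intro d hdm
    have hdm' : (1 ≤ d ∧ d ≤ D / R) ∧ Squarefree d ∧ Nat.Coprime d R := by
      simpa [SF] using hdm
    obtain ⟨⟨h1, h2⟩, h3, h4⟩ := hdm'
    have h5 := M3f p R d hR hd h3 h4 h a H
    have h6 : R * d ≤ D := by
      have := (Nat.le_div_iff_mul_le hR).1 h2
      rwa [mul_comm] at this
    have hRD : R ≤ D := le_trans (Nat.le_mul_of_pos_right R h1) h6
    have hdD : d ≤ D := le_trans (Nat.le_mul_of_pos_left d hR) h6
    have hlog : ∀ m : ℕ, 1 ≤ m → m ≤ D → (m : ℝ) / (Nat.totient m : ℝ) ≤ 2 * (1 + Real.log Q) := by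
      intro m hm hmD
      refine (M3b m hm).trans ?_
      have hm0 : (0 : ℝ) < m := by exact_mod_cast hm
      have : Real.log m ≤ Real.log Q :=
        Real.log_le_log hm0 (by exact_mod_cast hmD.trans hDQ)
      linarith
    have b1 := hlog R hR hRD
    have b2 := hlog d h1 hdD
    have b0 : (0 : ℝ) ≤ (R : ℝ) / (Nat.totient R : ℝ) := by positivity
    have b0' : (0 : ℝ) ≤ (d : ℝ) / (Nat.totient d : ℝ) := by positivity
    refine h5.trans ?_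
    have b3 : (((R : ℝ) / (Nat.totient R : ℝ)) * ((d : ℝ) / (Nat.totient d : ℝ))) ^ k ≤
        (2 * (1 + Real.log Q)) ^ (2 * k) := by
      rw [pow_mul]
      apply pow_le_pow_left₀ (mul_nonneg b0 b0')
      rw [sq]
      exact mul_le_mul b1 b2 b0' (b0.trans b1)
    have b4 : (R : ℝ) * d ≤ D := by exact_mod_cast h6
    have b5 : (0 : ℝ) ≤ (((R : ℝ) / (Nat.totient R : ℝ)) * ((d : ℝ) / (Nat.totient d : ℝ))) ^ k := by
      positivity
    calc 2 * ((R : ℝ) * d) * (((R : ℝ) / (Nat.totient R : ℝ)) * ((d : ℝ) / (Nat.totient d : ℝ))) ^ k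
        ≤ 2 * (D : ℝ) * (((R : ℝ) / (Nat.totient R : ℝ)) * ((d : ℝ) / (Nat.totient d : ℝ))) ^ k := by
          gcongr
      _ ≤ 2 * (D : ℝ) * (2 * (1 + Real.log Q)) ^ (2 * k) := by gcongr
  have hcard : ((SF (D / R) R).card : ℝ) ≤ D := by
    have h1 : (SF (D / R) R).card ≤ (Icc 1 (D / R)).card := by
      unfold SF
      exact card_filter_le _ _
    rw [Nat.card_Icc] at h1
    have h2 : D / R ≤ D := Nat.div_le_self _ _
    exact_mod_cast (by omega : (SF (D / R) R).card ≤ D)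
  calc ‖∑ d ∈ SF (D / R) R, (∑ n ∈ Ico a (a + H), Ph p R.primeFactors h n * ((Wd d h n : ℝ) : ℂ) -
      (H : ℂ) * (MR p R h * ((td d h : ℝ) : ℂ)))‖
      ≤ ∑ d ∈ SF (D / R) R, ‖∑ n ∈ Ico a (a + H), Ph p R.primeFactors h n * ((Wd d h n : ℝ) : ℂ) -
      (H : ℂ) * (MR p R h * ((td d h : ℝ) : ℂ))‖ := norm_sum_le _ _
    _ ≤ ∑ d ∈ SF (D / R) R, 2 * (D : ℝ) * (2 * (1 + Real.log Q)) ^ (2 * k) := sum_le_sum key
    _ = ((SF (D / R) R).card : ℝ) * (2 * (D : ℝ) * (2 * (1 + Real.log Q)) ^ (2 * k)) := by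
        rw [sum_const, nsmul_eq_mul]
    _ ≤ (D : ℝ) * (2 * (D : ℝ) * (2 * (1 + Real.log Q)) ^ (2 * k)) := by
        apply mul_le_mul_of_nonneg_right hcard
        have : (0 : ℝ) ≤ (2 * (1 + Real.log Q)) ^ (2 * k) := by
          rw [pow_mul]; positivity
        positivity
    _ = 2 * (D : ℝ) ^ 2 * (2 * (1 + Real.log Q)) ^ (2 * k) := by ring

end Pool.Agent.Lib.H59P
end

-- from Lib.H59P.Z1A
section

/-!
# Project H59P, chunk Z1a
-/

open Finset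

namespace Pool.Agent.Lib.H59P

open Pool.Agent.Lib.H68T Pool.Agent.Lib.H18Q

/-- **Z1a.** Expansion of the product into tuples of characters and components.

Proof. `SG Q c m = ∑_{p ∈ PC Q} (∑_{κ ∈ KS Q p.1} gk p κ m) c p` (`gam_expand`, `H18Q/CA.lean`),
`Finset.prod_univ_sum` twice. -/
theorem Z1a {k : ℕ} (Q : ℕ) (c : Fin k → Ch → ℂ) (h : Fin k → ℕ) (n : ℤ) :
    ∏ i, SG Q (c i) (n + h i) =
      ∑ p ∈ Fintype.piFinset fun _ : Fin k => PC Q, (∏ i, c i (p i)) *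
        ∑ κ ∈ Fintype.piFinset fun i => KS Q (p i).1, ∏ i, gk (p i) (κ i) (n + h i) := by
  classical
  have h1 : ∀ i : Fin k, SG Q (c i) (n + h i) =
      ∑ p ∈ PC Q, c i p * ∑ κ ∈ KS Q p.1, gk p κ (n + h i) := by
    intro i
    unfold SG
    refine sum_congr rfl fun p hp => ?_
    rw [gam_expand Q p hp, mul_comm]
  rw [prod_congr rfl fun i _ => h1 i, Finset.prod_univ_sum]
  refine sum_congr rfl fun p _ => ?_
  rw [prod_mul_distrib, Finset.prod_univ_sum]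

end Pool.Agent.Lib.H59P
end

-- from Lib.H59P.Z3A
section

/-!
# Project H59P, chunk Z3a
-/

open Finset

namespace Pool.Agent.Lib.H59P

open Pool.Agent.Lib.H68T Pool.Agent.Lib.H18Q

/-- The mean of the main term is bounded. -/
theorem Z3A_MR {k : ℕ} (Q : ℕ) (p : Fin k → Ch) (R : ℕ) (hR : 0 < R) (hRQ : R ≤ Q) (h : Fin k → ℕ) :
    ‖MR p R h‖ ≤ (2 * (1 + Real.log Q)) ^ k := by
  have hR0 : (0 : ℝ) < (R : ℝ) := by exact_mod_cast hR
  have hlog : Real.log R ≤ Real.log Q := Real.log_le_log hR0 (by exact_mod_cast hRQ)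
  have hB : ∀ n : ℕ, ‖Ph p R.primeFactors h n‖ ≤ (2 * (1 + Real.log Q)) ^ k := by
    intro n
    refine (M3a_Ph p R.primeFactors (fun l hl => Nat.prime_of_mem_primeFactors hl) h n).trans ?_
    have h1 : ∀ i : Fin k, uu R.primeFactors ((n : ℤ) + h i) ≤ 2 * (1 + Real.log Q) := by
      intro i
      refine ((M3a_uu R hR _).2).trans ((M3b R hR).trans ?_)
      linarith
    calc ∏ i, uu R.primeFactors ((n : ℤ) + h i) ≤ ∏ _i : Fin k, (2 * (1 + Real.log Q)) :=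
          Finset.prod_le_prod (fun i _ => (M3a_uu R hR _).1) (fun i _ => h1 i)
      _ = (2 * (1 + Real.log Q)) ^ k := by
          rw [Finset.prod_const, Finset.card_univ, Fintype.card_fin]
  unfold MR
  rw [norm_div, Complex.norm_natCast, div_le_iff₀ hR0]
  refine (norm_sum_le _ _).trans ?_
  refine (Finset.sum_le_sum fun n _ => hB n).trans ?_
  rw [Finset.sum_const, Finset.card_range, nsmul_eq_mul, mul_comm]

/-- **Z3a.** The truncated and the complete main term of a cell, for `h` with small tails.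

Proof. For `p ∈ TS`, `R = Rp px p`: `‖MR p R h‖ ≤ (R/φ(R))^k ≤ (2(1+log Q))^k` (`M3a_Ph`, `M3a_uu`, `M3b`;
`R ≤ D1 ≤ Q`), and `MR p R h · SS (…) = MQ Q p h` (`M5`; `R ∣ Q!` since all the conductors are `≤ Q`:
`Nat.dvd_factorial`, `Nat.lcm_dvd`, `Finset.lcm_dvd`). `∑ ∏ ‖c‖ ≤ 3^k`. -/
theorem Z3a {k : ℕ} (Q : ℕ) (hQ : 1 ≤ Q) (px : Ch) (hpx : px ∈ PC Q) (c : Fin k → Ch → ℂ)
    (hc : ∀ i, ∑ p ∈ PC Q, ‖c i p‖ ≤ 3) (h : Fin k → ℕ) (τ : ℝ)
    (hτ : ∀ R : ℕ, 1 ≤ R → R ≤ Nat.sqrt (Nat.sqrt Q) →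
      |∑ d ∈ SF (Nat.sqrt Q / R) R, td d h - SS ((pr Q).filter (fun l => ¬ l ∣ R)) h| ≤ τ) :
    ‖MC Q px c h - ∑ p ∈ TS k Q (Nat.sqrt (Nat.sqrt Q)) px, (∏ i, c i (p i)) * MQ Q p h‖ ≤
      (6 * (1 + Real.log Q)) ^ k * τ := by
  classical
  have hpos : 0 < Nat.sqrt (Nat.sqrt Q) := by
    rw [Nat.sqrt_pos, Nat.sqrt_pos]; exact hQ
  have hτ0 : 0 ≤ τ := (abs_nonneg _).trans (hτ 1 le_rfl hpos)
  have hlog0 : 0 ≤ Real.log Q := Real.log_natCast_nonneg Q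
  have hterm : ∀ p ∈ TS k Q (Nat.sqrt (Nat.sqrt Q)) px,
      ‖(∏ i, c i (p i)) * (MR p (Rp px p) h *
          ((∑ d ∈ SF (Nat.sqrt Q / Rp px p) (Rp px p), td d h : ℝ) : ℂ)) -
        (∏ i, c i (p i)) * MQ Q p h‖ ≤ (∏ i, ‖c i (p i)‖) * ((2 * (1 + Real.log Q)) ^ k * τ) := by
    intro p hp
    unfold TS at hp
    rw [Finset.mem_filter, Fintype.mem_piFinset] at hp
    obtain ⟨hp1, hp2⟩ := hp
    have hRle : Rp px p ≤ Nat.sqrt (Nat.sqrt Q) := hp2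
    have hRQ : Rp px p ≤ Q := hRle.trans ((Nat.sqrt_le_self _).trans (Nat.sqrt_le_self _))
    have hR0 : 0 < Rp px p := by
      have h1 : (univ.lcm fun i => (p i).1) ≠ 0 := by
        intro h0
        rw [Finset.lcm_eq_zero_iff] at h0
        obtain ⟨i, _, h2⟩ := h0
        have h3 : 0 < (p i).1 := (mem_PC.mp (hp1 i)).1
        exact h3.ne' h2
      unfold Rp
      exact Nat.lcm_pos (mem_PC.mp hpx).1 (Nat.pos_of_ne_zero h1)
    have hd : ∀ i, (p i).1 ∣ Rp px p := by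
      intro i
      unfold Rp
      exact (Finset.dvd_lcm (f := fun i => (p i).1) (Finset.mem_univ i)).trans (Nat.dvd_lcm_right _ _)
    have hfac : Rp px p ∣ Q.factorial := by
      unfold Rp
      refine Nat.lcm_dvd (Nat.dvd_factorial (mem_PC.mp hpx).1 (mem_PC.mp hpx).2.1) ?_
      refine Finset.lcm_dvd fun i _ => ?_
      exact Nat.dvd_factorial (mem_PC.mp (hp1 i)).1 (mem_PC.mp (hp1 i)).2.1
    rw [← M5 Q (Rp px p) hR0 hfac p hd h, ← mul_sub, ← mul_sub, norm_mul, norm_mul, norm_prod,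
      ← Complex.ofReal_sub, Complex.norm_real, Real.norm_eq_abs]
    have h1 := Z3A_MR Q p (Rp px p) hR0 hRQ h
    have h2 := hτ (Rp px p) hR0 hRle
    have h3 : ‖MR p (Rp px p) h‖ * |∑ d ∈ SF (Nat.sqrt Q / Rp px p) (Rp px p), td d h -
        SS ((pr Q).filter (fun l => ¬ l ∣ Rp px p)) h| ≤ (2 * (1 + Real.log Q)) ^ k * τ :=
      mul_le_mul h1 h2 (abs_nonneg _) (by positivity)
    exact mul_le_mul_of_nonneg_left h3 (Finset.prod_nonneg fun i _ => norm_nonneg _)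
  have hsum : ∑ p ∈ TS k Q (Nat.sqrt (Nat.sqrt Q)) px, ∏ i, ‖c i (p i)‖ ≤ 3 ^ k := by
    calc ∑ p ∈ TS k Q (Nat.sqrt (Nat.sqrt Q)) px, ∏ i, ‖c i (p i)‖
        ≤ ∑ p ∈ Fintype.piFinset fun _ : Fin k => PC Q, ∏ i, ‖c i (p i)‖ := by
          refine Finset.sum_le_sum_of_subset_of_nonneg ?_ ?_
          · intro p hp
            unfold TS at hp
            exact (Finset.mem_filter.mp hp).1
          · intro p _ _
            exact Finset.prod_nonneg fun i _ => norm_nonneg _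
      _ = ∏ i, ∑ q ∈ PC Q, ‖c i q‖ := by
          rw [Finset.prod_univ_sum]
      _ ≤ ∏ _i : Fin k, (3 : ℝ) :=
          Finset.prod_le_prod (fun i _ => Finset.sum_nonneg fun _ _ => norm_nonneg _) fun i _ => hc i
      _ = 3 ^ k := by
          rw [Finset.prod_const, Finset.card_univ, Fintype.card_fin]
  unfold MC
  rw [← Finset.sum_sub_distrib]
  refine (norm_sum_le _ _).trans ?_
  refine (Finset.sum_le_sum hterm).trans ?_
  rw [← Finset.sum_mul]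
  have h6 : (6 * (1 + Real.log Q)) ^ k * τ = 3 ^ k * ((2 * (1 + Real.log Q)) ^ k * τ) := by
    rw [← mul_assoc, ← mul_pow]
    ring
  rw [h6]
  exact mul_le_mul_of_nonneg_right hsum (by positivity)

end Pool.Agent.Lib.H59P
end

-- from Lib.H59P.Z3
section

/-!
# Project H59P, chunk Z3
-/

open Finset

namespace Pool.Agent.Lib.H59P

open Pool.Agent.Lib.H68T Pool.Agent.Lib.H18Q

/-- **Z3.** Proof. For each `j` the arguments `X + jH + bs H (h i)` are in `[X, 4X]`; with `c_i` the coefficients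
there, `Z3a` and `C3` (`th_i = th (X + jH + bs H (h i))`, `MX px th m p = MX px (fun _ => th m) 0 p`) give
`Re (MC) ≥ PM/2 - (6(1+log Q))^k τ ≥ m/2 - …` (`hm`); sum over `j < Q^8`, times `H`; `H Q^8 = X`. -/
theorem Z3 {k : ℕ} (Q X H : ℕ) (hQ : 1 ≤ Q) (hX : X = H * Q ^ 8) (hX0 : 0 < X) (η E0 : ℝ) (px : Ch)
    (th : ℤ → ℝ) (hM : Mdl Q X η E0 px th) (hE0 : 0 ≤ E0) (hE1 : E0 ≤ 1) (hE : 4 * k * E0 ≤ 1)
    (hcond : px.1 ≤ Nat.sqrt (Nat.sqrt Q))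
    (e : ℤ → Ch → ℂ) (eb mb : Ch → ℝ) (heb : ∑ p ∈ PC Q, eb p ≤ η * E0)
    (he : ∀ m : ℤ, (X : ℤ) ≤ m → m ≤ 4 * X → ∀ p ∈ PC Q, ‖e m p‖ ≤ eb p)
    (hcf : Cf Q X (fun m p => MX px th m p + e m p) mb)
    (h : Fin k → ℕ) (hh : h ∈ bx k X) (τ m : ℝ)
    (hτ : ∀ R : ℕ, 1 ≤ R → R ≤ Nat.sqrt (Nat.sqrt Q) →
      |∑ d ∈ SF (Nat.sqrt Q / R) R, td d h - SS ((pr Q).filter (fun l => ¬ l ∣ R)) h| ≤ τ)
    (hm : ∀ th' : Fin k → ℝ, (∀ i, 0 ≤ th' i) → (∀ i, th' i ≤ 1 - η) → (px = p0 → ∀ i, th' i = 0) →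
      m ≤ PM Q px th' h) :
    X * (m / 2 - (6 * (1 + Real.log Q)) ^ k * τ) ≤
      (MT Q X H px (fun m p => MX px th m p + e m p) h).re := by
  have hXr : (X : ℝ) = H * (Q : ℝ) ^ 8 := by
    rw [hX]
    push_cast
    ring
  have hhi : ∀ i, h i < X := by
    intro i
    have := Fintype.mem_piFinset.1 hh i
    exact Finset.mem_range.1 this
  have hbsle : ∀ m : ℕ, bs H m ≤ m := fun m => Nat.div_mul_le_self m H
  have harg : ∀ j ∈ range (Q ^ 8), ∀ i : Fin k,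
      (X : ℤ) ≤ ((X + j * H + bs H (h i) : ℕ) : ℤ) ∧ ((X + j * H + bs H (h i) : ℕ) : ℤ) ≤ 4 * X := by
    intro j hj i
    have h1 := hbsle (h i)
    have h2 := hhi i
    have h3 : j * H ≤ X := by
      rw [hX, mul_comm]
      exact Nat.mul_le_mul_left _ (Finset.mem_range.1 hj).le
    constructor <;> omega
  have hcell : ∀ j ∈ range (Q ^ 8), m / 2 - (6 * (1 + Real.log Q)) ^ k * τ ≤
      (MC Q px (fun i => (fun m p => MX px th m p + e m p) (((X + j * H + bs H (h i) : ℕ) : ℤ))) h).re := by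
    intro j hj
    set a : Fin k → ℤ := fun i => ((X + j * H + bs H (h i) : ℕ) : ℤ) with ha
    have ha1 : ∀ i, (X : ℤ) ≤ a i := fun i => (harg j hj i).1
    have ha2 : ∀ i, a i ≤ 4 * X := fun i => (harg j hj i).2
    have hc : ∀ i, ∑ p ∈ PC Q, ‖MX px th (a i) p + e (a i) p‖ ≤ 3 := fun i =>
      (Finset.sum_le_sum fun p hp => hcf.le (a i) (ha1 i) (ha2 i) p hp).trans hcf.sum
    have z1 := Z3a Q hQ px hM.mem (fun i p => MX px th (a i) p + e (a i) p) hc h τ hτ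
    have z2 := C3 Q (Nat.sqrt (Nat.sqrt Q)) hQ η E0 px hM.mem hM.real hcond hM.eta_pos hE0 hE
      (fun i => th (a i)) (fun i => hM.nonneg _ (ha1 i) (ha2 i)) (fun i => hM.le _ (ha1 i) (ha2 i))
      (fun h0 i => hM.triv h0 _) (fun i => e (a i))
      (fun i => (Finset.sum_le_sum fun p hp => he (a i) (ha1 i) (ha2 i) p hp).trans heb) h
    have z3 := hm (fun i => th (a i)) (fun i => hM.nonneg _ (ha1 i) (ha2 i))
      (fun i => hM.le _ (ha1 i) (ha2 i)) (fun h0 i => hM.triv h0 _)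
    have hS : ∑ p ∈ TS k Q (Nat.sqrt (Nat.sqrt Q)) px,
        (∏ i, (MX px (fun _ => th (a i)) 0 (p i) + e (a i) (p i))) * MQ Q p h =
        ∑ p ∈ TS k Q (Nat.sqrt (Nat.sqrt Q)) px,
        (∏ i, (MX px th (a i) (p i) + e (a i) (p i))) * MQ Q p h := rfl
    rw [hS] at z2
    set S : ℂ := ∑ p ∈ TS k Q (Nat.sqrt (Nat.sqrt Q)) px,
        (∏ i, (MX px th (a i) (p i) + e (a i) (p i))) * MQ Q p h with hSdef
    set P : ℝ := PM Q px (fun i => th (a i)) h with hP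
    have y2 : -(1 / 2 * P) ≤ (S - ((P : ℝ) : ℂ)).re := by
      have := (Complex.abs_re_le_norm (S - ((P : ℝ) : ℂ))).trans z2
      exact (abs_le.1 this).1
    rw [Complex.sub_re, Complex.ofReal_re] at y2
    have y1 := (abs_le.1 ((Complex.abs_re_le_norm _).trans z1)).1
    rw [Complex.sub_re] at y1
    have y3 : MC Q px (fun i => (fun m p => MX px th m p + e m p) (a i)) h =
        MC Q px (fun i p => MX px th (a i) p + e (a i) p) h := rfl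
    rw [y3]
    linarith
  unfold MT
  rw [Complex.re_sum]
  have hterm : ∀ j ∈ range (Q ^ 8), (H : ℝ) * (m / 2 - (6 * (1 + Real.log Q)) ^ k * τ) ≤
      ((H : ℂ) * MC Q px (fun i => (fun m p => MX px th m p + e m p)
        (((X + j * H + bs H (h i) : ℕ) : ℤ))) h).re := by
    intro j hj
    have e1 : ((H : ℂ) * MC Q px (fun i => (fun m p => MX px th m p + e m p)
        (((X + j * H + bs H (h i) : ℕ) : ℤ))) h).re = (H : ℝ) * (MC Q px (fun i => (fun m p => MX px th m p + e m p)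
        (((X + j * H + bs H (h i) : ℕ) : ℤ))) h).re := by
      rw [Complex.mul_re]
      simp
    rw [e1]
    exact mul_le_mul_of_nonneg_left (hcell j hj) (Nat.cast_nonneg H)
  calc (X : ℝ) * (m / 2 - (6 * (1 + Real.log Q)) ^ k * τ)
      = ∑ _j ∈ range (Q ^ 8), (H : ℝ) * (m / 2 - (6 * (1 + Real.log Q)) ^ k * τ) := by
        rw [Finset.sum_const, Finset.card_range, nsmul_eq_mul, hXr]
        push_cast
        ring
    _ ≤ _ := Finset.sum_le_sum hterm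

end Pool.Agent.Lib.H59P
end

-- from Lib.H59P.Z1B
section

/-!
# Project H59P, chunk Z1b
-/

open Finset

namespace Pool.Agent.Lib.H59P

open Pool.Agent.Lib.H68T Pool.Agent.Lib.H18Q

/-- **Z1b.** If `lcm(R, κ) > D` with `R = Rp px p`, then `D < px.1 · lcm(r_i κ_i)`; and
`Rp px p ≤ px.1 · lcm(r_i κ_i)`.

Proof. `R = lcm(px.1, lcm r_i)` and all `κ_i` divide `lcm(px.1, lcm (r_i κ_i)) ≤ px.1 · lcm(r_i κ_i)` (the `κ_i`,
`r_i` are positive, so this is positive). -/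
theorem Z1b {k : ℕ} (Q D : ℕ) (px : Ch) (hpx : px ∈ PC Q) (p : Fin k → Ch) (hp : ∀ i, p i ∈ PC Q)
    (κ : Fin k → ℕ) (hκ : ∀ i, κ i ∈ KS Q (p i).1) :
    (D < (Rp px p).lcm (univ.lcm κ) → D < px.1 * univ.lcm (fun i => (p i).1 * κ i)) ∧
    Rp px p ≤ px.1 * univ.lcm (fun i => (p i).1 * κ i) := by
  have hx1 : 0 < px.1 := (mem_PC.mp hpx).1
  have hpi : ∀ i, 0 < (p i).1 := fun i => (mem_PC.mp (hp i)).1
  have hκi : ∀ i, 0 < κ i := by
    intro i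
    have h1 := hκ i
    unfold KS at h1
    rw [Finset.mem_filter, Finset.mem_Icc] at h1
    exact h1.1.1
  set L : ℕ := univ.lcm (fun i => (p i).1 * κ i) with hL
  have hL0 : L ≠ 0 := by
    intro h0
    rw [hL, Finset.lcm_eq_zero_iff] at h0
    obtain ⟨i, _, h1⟩ := h0
    exact (Nat.mul_pos (hpi i) (hκi i)).ne' h1
  have hpos : 0 < px.1 * L := Nat.mul_pos hx1 (Nat.pos_of_ne_zero hL0)
  have hdi : ∀ i, (p i).1 * κ i ∣ L := fun i => Finset.dvd_lcm (Finset.mem_univ i)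
  have hR : Rp px p ∣ px.1 * L := by
    unfold Rp
    refine Nat.lcm_dvd (Nat.dvd_mul_right _ _) ?_
    refine Dvd.dvd.mul_left ?_ _
    refine Finset.lcm_dvd fun i _ => ?_
    exact (Nat.dvd_mul_right _ _).trans (hdi i)
  have hK : univ.lcm κ ∣ px.1 * L := by
    refine Dvd.dvd.mul_left ?_ _
    refine Finset.lcm_dvd fun i _ => ?_
    exact (Nat.dvd_mul_left _ _).trans (hdi i)
  refine ⟨fun h => ?_, Nat.le_of_dvd hpos hR⟩
  exact lt_of_lt_of_le h (Nat.le_of_dvd hpos (Nat.lcm_dvd hR hK))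

end Pool.Agent.Lib.H59P
end

-- from Lib.H59P.Z1C
section

/-!
# Project H59P, chunk Z1c
-/

open Finset

namespace Pool.Agent.Lib.H59P

open Pool.Agent.Lib.H68T Pool.Agent.Lib.H18Q

/-- Sizes: for `Q` large, `px.1^100 ≤ Q`, `D = √Q`, `D1 = √D`, `D2 = ⌊Q^(1/5)⌋`: `px.1 D2 ≤ D1 ≤ D`,
`1 ≤ D2 ≤ Q`, `Q^(1/6) ≤ D2`, and `R ≤ D1` implies `Q^(1/5) ≤ D / R`, `D / R ≤ Q`, `1 ≤ D1`, `px.1 ≤ D1`. -/
theorem Z1c : ∃ Q0 : ℕ, ∀ Q : ℕ, Q0 ≤ Q → ∀ r : ℕ, 1 ≤ r → r ^ 100 ≤ Q →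
    r * ⌊(Q : ℝ) ^ (1 / 5 : ℝ)⌋₊ ≤ Nat.sqrt (Nat.sqrt Q) ∧ Nat.sqrt (Nat.sqrt Q) ≤ Nat.sqrt Q ∧
    1 ≤ ⌊(Q : ℝ) ^ (1 / 5 : ℝ)⌋₊ ∧ ⌊(Q : ℝ) ^ (1 / 5 : ℝ)⌋₊ ≤ Q ∧
    (Q : ℝ) ^ (1 / 6 : ℝ) ≤ ⌊(Q : ℝ) ^ (1 / 5 : ℝ)⌋₊ ∧ r ≤ Nat.sqrt (Nat.sqrt Q) ∧
    ∀ R : ℕ, 1 ≤ R → R ≤ Nat.sqrt (Nat.sqrt Q) →
      (Q : ℝ) ^ (1 / 5 : ℝ) ≤ ((Nat.sqrt Q / R : ℕ) : ℝ) ∧ Nat.sqrt Q / R ≤ Q := by
  refine ⟨2 ^ 60, fun Q hQ r hr hrQ => ?_⟩
  have hQ1 : 1 ≤ Q := le_trans (Nat.one_le_two_pow) hQ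
  have hQ0 : (0 : ℝ) ≤ (Q : ℝ) := Nat.cast_nonneg Q
  set y : ℝ := (Q : ℝ) ^ (1 / 60 : ℝ) with hy
  have hy0 : 0 ≤ y := Real.rpow_nonneg hQ0 _
  have hpow : ∀ n : ℕ, y ^ n = (Q : ℝ) ^ ((1 / 60 : ℝ) * n) := by
    intro n
    rw [hy, ← Real.rpow_natCast, ← Real.rpow_mul hQ0]
  have h5 : (Q : ℝ) ^ (1 / 5 : ℝ) = y ^ 12 := by
    rw [hpow]; norm_num
  have h6 : (Q : ℝ) ^ (1 / 6 : ℝ) = y ^ 10 := by
    rw [hpow]; norm_num
  have h60 : (Q : ℝ) = y ^ 60 := by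
    rw [hpow]; norm_num
  have hy2 : 2 ≤ y := by
    by_contra hlt
    push Not at hlt
    have h1 : y ^ 60 < 2 ^ 60 := pow_lt_pow_left₀ hlt hy0 (by norm_num)
    have h2 : ((2 ^ 60 : ℕ) : ℝ) ≤ (Q : ℝ) := by exact_mod_cast hQ
    rw [h60] at h2
    push_cast at h2
    linarith
  have hmono : ∀ n : ℕ, (1 : ℝ) ≤ y ^ n := fun n => one_le_pow₀ (by linarith)
  set D2 : ℕ := ⌊(Q : ℝ) ^ (1 / 5 : ℝ)⌋₊ with hD2
  have hD2le : (D2 : ℝ) ≤ y ^ 12 := by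
    rw [hD2, ← h5]
    exact Nat.floor_le (Real.rpow_nonneg hQ0 _)
  have hD2lt : y ^ 12 < (D2 : ℝ) + 1 := by
    rw [hD2, ← h5]
    exact Nat.lt_floor_add_one _
  have hD2Q : D2 ^ 5 ≤ Q := by
    have h1 : ((D2 : ℝ)) ^ 5 ≤ (y ^ 12) ^ 5 := pow_le_pow_left₀ (Nat.cast_nonneg _) hD2le 5
    rw [← pow_mul] at h1
    have h2 : ((D2 : ℝ)) ^ 5 ≤ (Q : ℝ) := by
      rw [h60]; exact h1
    exact_mod_cast h2
  have h10 : y ^ 10 + 1 ≤ y ^ 12 := by
    have h1 := hmono 10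
    have h2 : y ^ 12 = y ^ 10 * y ^ 2 := by ring
    have h3 : (2 : ℝ) ≤ y ^ 2 := by nlinarith
    rw [h2]
    nlinarith
  have hD2one : y ^ 10 ≤ (D2 : ℝ) := by linarith
  have hD21 : 1 ≤ D2 := by
    have h1 : (1 : ℝ) ≤ (D2 : ℝ) := (hmono 10).trans hD2one
    exact_mod_cast h1
  have hsq : Nat.sqrt Q * Nat.sqrt Q ≤ Q := Nat.sqrt_le Q
  have hDQ : Nat.sqrt Q ≤ Q := Nat.sqrt_le_self Q
  have hD1D : Nat.sqrt (Nat.sqrt Q) * Nat.sqrt (Nat.sqrt Q) ≤ Nat.sqrt Q := Nat.sqrt_le _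
  have hD1lt : (Q : ℝ) < ((Nat.sqrt (Nat.sqrt Q) : ℝ) + 1) ^ 4 := by
    have h1 : Q < (Nat.sqrt Q + 1) * (Nat.sqrt Q + 1) := Nat.lt_succ_sqrt Q
    have h2 : Nat.sqrt Q + 1 ≤ (Nat.sqrt (Nat.sqrt Q) + 1) * (Nat.sqrt (Nat.sqrt Q) + 1) :=
      Nat.lt_succ_sqrt (Nat.sqrt Q)
    have h3 : Q < (Nat.sqrt (Nat.sqrt Q) + 1) ^ 4 := by
      calc Q < (Nat.sqrt Q + 1) * (Nat.sqrt Q + 1) := h1
        _ ≤ ((Nat.sqrt (Nat.sqrt Q) + 1) * (Nat.sqrt (Nat.sqrt Q) + 1)) *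
            ((Nat.sqrt (Nat.sqrt Q) + 1) * (Nat.sqrt (Nat.sqrt Q) + 1)) := Nat.mul_le_mul h2 h2
        _ = (Nat.sqrt (Nat.sqrt Q) + 1) ^ 4 := by ring
    exact_mod_cast h3
  have hD1 : y ^ 12 ≤ (Nat.sqrt (Nat.sqrt Q) : ℝ) := by
    have h1 : y ^ 15 < (Nat.sqrt (Nat.sqrt Q) : ℝ) + 1 := by
      by_contra hge
      push Not at hge
      have h2 : ((Nat.sqrt (Nat.sqrt Q) : ℝ) + 1) ^ 4 ≤ (y ^ 15) ^ 4 :=
        pow_le_pow_left₀ (by positivity) hge 4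
      rw [← pow_mul] at h2
      rw [h60] at hD1lt
      exact absurd (lt_of_lt_of_le hD1lt h2) (lt_irrefl _)
    have h2 : y ^ 12 + 1 ≤ y ^ 15 := by
      have h3 := hmono 12
      have h4 : y ^ 15 = y ^ 12 * y ^ 3 := by ring
      have h5 : (2 : ℝ) ≤ y ^ 3 := by
        have := pow_le_pow_left₀ (by norm_num : (0 : ℝ) ≤ 2) hy2 3
        linarith
      rw [h4]
      nlinarith
    linarith
  have key : ∀ m : ℕ, m ^ 4 ≤ Q → m ≤ Nat.sqrt (Nat.sqrt Q) := by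
    intro m hm
    rw [Nat.le_sqrt, Nat.le_sqrt]
    calc m * m * (m * m) = m ^ 4 := by ring
      _ ≤ Q := hm
  refine ⟨?_, Nat.sqrt_le_self _, hD21, ?_, ?_, ?_, ?_⟩
  · apply key
    by_contra hlt
    push Not at hlt
    have h1 : Q ^ 25 < ((r * D2) ^ 4) ^ 25 := Nat.pow_lt_pow_left hlt (by norm_num)
    have h2 : ((r * D2) ^ 4) ^ 25 = r ^ 100 * (D2 ^ 5) ^ 20 := by ring
    have h3 : r ^ 100 * (D2 ^ 5) ^ 20 ≤ Q * Q ^ 20 :=
      Nat.mul_le_mul hrQ (Nat.pow_le_pow_left hD2Q 20)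
    have h4 : Q * Q ^ 20 ≤ Q ^ 25 := by
      calc Q * Q ^ 20 = Q ^ 21 := by ring
        _ ≤ Q ^ 25 := Nat.pow_le_pow_right hQ1 (by norm_num)
    omega
  · calc D2 ≤ D2 ^ 5 := Nat.le_self_pow (by norm_num) D2
      _ ≤ Q := hD2Q
  · rw [h6]; exact hD2one
  · apply key
    calc r ^ 4 ≤ r ^ 100 := Nat.pow_le_pow_right hr (by norm_num)
      _ ≤ Q := hrQ
  · intro R hR1 hR
    refine ⟨?_, (Nat.div_le_self _ _).trans hDQ⟩
    have h1 : Nat.sqrt (Nat.sqrt Q) ≤ Nat.sqrt Q / R := by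
      rw [Nat.le_div_iff_mul_le (by omega)]
      exact (Nat.mul_le_mul_left _ hR).trans hD1D
    rw [h5]
    refine hD1.trans ?_
    exact_mod_cast h1

end Pool.Agent.Lib.H59P
end

-- from Lib.H59P.Z1D
section

/-!
# Project H59P, chunk Z1d
-/

open Finset

namespace Pool.Agent.Lib.H59P

open Pool.Agent.Lib.H68T Pool.Agent.Lib.H18Q

theorem z1d_lcm_pos {k : ℕ} (d : Fin k → ℕ) (h : ∀ i, 0 < d i) : 0 < univ.lcm d :=
  Nat.pos_of_dvd_of_pos (Finset.lcm_dvd (fun i _ => Finset.dvd_prod_of_mem d (mem_univ i)))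
    (Finset.prod_pos (fun i _ => h i))

/-- the numerical inequality -/
theorem z1d_num (L C0 : ℝ) (hL : 4 ≤ L) (hC0 : 1 ≤ C0) (k Q H D D2 : ℕ) (hk : 1 ≤ k) (hQ : 1 ≤ Q)
    (hlQ : Real.log Q ≤ L) (hQH : Q ^ 4 ≤ H) (hD : D ^ 2 ≤ Q)
    (hD2 : (Q : ℝ) ^ (1 / 6 : ℝ) ≤ D2) :
    2 * ((H : ℝ) ^ k * (2 * (D : ℝ) ^ 2 * (2 * (1 + Real.log Q)) ^ (2 * k)) ^ 2) +
      2 * (L ^ (C0 * k) * (H : ℝ) ^ (k + 2) * (D2 : ℝ) ^ (-(1 / 2) : ℝ)) ≤
      L ^ ((C0 + 16) * k) * (H : ℝ) ^ (k + 2) * (Q : ℝ) ^ (-(1 / 12) : ℝ) := by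
  have hQ1 : (1 : ℝ) ≤ Q := by exact_mod_cast hQ
  have hQ0 : (0 : ℝ) < Q := by linarith
  have hlQ0 : 0 ≤ Real.log Q := Real.log_nonneg hQ1
  have hL0 : 0 < L := by linarith
  have hL1 : 1 ≤ L := by linarith
  have hH0 : (0 : ℝ) ≤ H := by positivity
  have hQH' : (Q : ℝ) ^ 4 ≤ H := by exact_mod_cast hQH
  have hD' : (D : ℝ) ^ 2 ≤ Q := by exact_mod_cast hD
  set y := 2 * (1 + Real.log Q) with hy
  have hy0 : 0 ≤ y := by positivity
  have hyL : y ≤ L ^ 2 := by nlinarith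
  set q := (Q : ℝ) ^ (-(1 / 12) : ℝ) with hq
  have hqpos : 0 < q := Real.rpow_pos_of_pos hQ0 _
  set P := L ^ (C0 * k) with hP
  have hk1 : (1 : ℝ) ≤ k := by exact_mod_cast hk
  have hP1 : 1 ≤ P := Real.one_le_rpow hL1 (by positivity)
  set E := L ^ (8 * k) with hE
  have hE16 : 16 ≤ E := by
    calc (16 : ℝ) ≤ L ^ 2 := by nlinarith
      _ ≤ L ^ (8 * k) := pow_le_pow_right₀ hL1 (by omega)
  have hsplit : L ^ ((C0 + 16) * (k : ℝ)) = P * (E * E) := by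
    have h1 : ((C0 + 16) * (k : ℝ)) = C0 * k + ((16 * k : ℕ) : ℝ) := by push_cast; ring
    rw [h1, Real.rpow_add hL0, Real.rpow_natCast, hP, hE, ← pow_add]
    congr 2
    ring
  -- first part
  have h1 : (2 * (D : ℝ) ^ 2 * y ^ (2 * k)) ^ 2 ≤ 4 * (Q : ℝ) ^ 2 * E := by
    have e1 : (2 * (D : ℝ) ^ 2 * y ^ (2 * k)) ^ 2 = 4 * ((D : ℝ) ^ 2) ^ 2 * y ^ (4 * k) := by
      rw [mul_pow, mul_pow, ← pow_mul y]
      have : 2 * k * 2 = 4 * k := by ring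
      rw [this]
      norm_num
    have e2 : ((D : ℝ) ^ 2) ^ 2 ≤ (Q : ℝ) ^ 2 := pow_le_pow_left₀ (by positivity) hD' 2
    have e3 : y ^ (4 * k) ≤ E := by
      calc y ^ (4 * k) ≤ (L ^ 2) ^ (4 * k) := pow_le_pow_left₀ hy0 hyL _
        _ = E := by rw [hE, ← pow_mul]; congr 1; ring
    rw [e1]
    have e4 : 4 * ((D : ℝ) ^ 2) ^ 2 ≤ 4 * (Q : ℝ) ^ 2 := by linarith
    exact mul_le_mul e4 e3 (by positivity) (by positivity)
  have h2 : (Q : ℝ) ^ 2 ≤ (H : ℝ) ^ 2 * q := by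
    have e1 : q * (Q : ℝ) ^ (1 / 12 : ℝ) = 1 := by
      rw [hq, ← Real.rpow_add hQ0]
      norm_num
    have e2 : (Q : ℝ) ^ (1 / 12 : ℝ) ≤ Q := by
      calc (Q : ℝ) ^ (1 / 12 : ℝ) ≤ (Q : ℝ) ^ (1 : ℝ) :=
            Real.rpow_le_rpow_of_exponent_le hQ1 (by norm_num)
        _ = Q := Real.rpow_one _
    have e3 : (Q : ℝ) ^ 3 ≤ (H : ℝ) ^ 2 := by
      calc (Q : ℝ) ^ 3 ≤ (Q : ℝ) ^ 8 := pow_le_pow_right₀ hQ1 (by norm_num)
        _ = ((Q : ℝ) ^ 4) ^ 2 := by ring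
        _ ≤ (H : ℝ) ^ 2 := pow_le_pow_left₀ (by positivity) hQH' 2
    calc (Q : ℝ) ^ 2 = (Q : ℝ) ^ 2 * (q * (Q : ℝ) ^ (1 / 12 : ℝ)) := by rw [e1, mul_one]
      _ = ((Q : ℝ) ^ 2 * (Q : ℝ) ^ (1 / 12 : ℝ)) * q := by ring
      _ ≤ ((Q : ℝ) ^ 2 * Q) * q := by
          refine mul_le_mul_of_nonneg_right ?_ hqpos.le
          exact mul_le_mul_of_nonneg_left e2 (by positivity)
      _ = (Q : ℝ) ^ 3 * q := by ring
      _ ≤ (H : ℝ) ^ 2 * q := mul_le_mul_of_nonneg_right e3 hqpos.le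
  have h3 : (H : ℝ) ^ k * (2 * (D : ℝ) ^ 2 * y ^ (2 * k)) ^ 2 ≤ 4 * E * ((H : ℝ) ^ (k + 2) * q) := by
    have hHk : 0 ≤ (H : ℝ) ^ k := by positivity
    have hE0 : 0 ≤ E := by linarith
    calc (H : ℝ) ^ k * (2 * (D : ℝ) ^ 2 * y ^ (2 * k)) ^ 2
        ≤ (H : ℝ) ^ k * (4 * (Q : ℝ) ^ 2 * E) := mul_le_mul_of_nonneg_left h1 hHk
      _ = (4 * E * (H : ℝ) ^ k) * (Q : ℝ) ^ 2 := by ring
      _ ≤ (4 * E * (H : ℝ) ^ k) * ((H : ℝ) ^ 2 * q) :=
          mul_le_mul_of_nonneg_left h2 (by positivity)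
      _ = 4 * E * ((H : ℝ) ^ (k + 2) * q) := by ring
  -- second part
  have h4 : (D2 : ℝ) ^ (-(1 / 2) : ℝ) ≤ q := by
    have e1 : (0 : ℝ) < (Q : ℝ) ^ (1 / 6 : ℝ) := Real.rpow_pos_of_pos hQ0 _
    calc (D2 : ℝ) ^ (-(1 / 2) : ℝ) ≤ ((Q : ℝ) ^ (1 / 6 : ℝ)) ^ (-(1 / 2) : ℝ) :=
          Real.rpow_le_rpow_of_nonpos e1 hD2 (by norm_num)
      _ = q := by
          rw [hq, ← Real.rpow_mul hQ0.le]
          norm_num
  have h5 : P * (H : ℝ) ^ (k + 2) * (D2 : ℝ) ^ (-(1 / 2) : ℝ) ≤ P * ((H : ℝ) ^ (k + 2) * q) := by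
    rw [mul_assoc]
    refine mul_le_mul_of_nonneg_left ?_ (by linarith)
    exact mul_le_mul_of_nonneg_left h4 (by positivity)
  have hZ : 0 ≤ (H : ℝ) ^ (k + 2) * q := by positivity
  rw [hsplit]
  have h6 : 8 * E + 2 * P ≤ P * (E * E) := by
    have a1 : 16 * E ≤ E * E := by nlinarith
    have a2 : 256 ≤ E * E := by nlinarith
    nlinarith
  calc 2 * ((H : ℝ) ^ k * (2 * (D : ℝ) ^ 2 * y ^ (2 * k)) ^ 2) +
      2 * (P * (H : ℝ) ^ (k + 2) * (D2 : ℝ) ^ (-(1 / 2) : ℝ))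
      ≤ 2 * (4 * E * ((H : ℝ) ^ (k + 2) * q)) + 2 * (P * ((H : ℝ) ^ (k + 2) * q)) := by linarith
    _ = (8 * E + 2 * P) * ((H : ℝ) ^ (k + 2) * q) := by ring
    _ ≤ (P * (E * E)) * ((H : ℝ) ^ (k + 2) * q) := mul_le_mul_of_nonneg_right h6 hZ
    _ = P * (E * E) * (H : ℝ) ^ (k + 2) * q := by ring

theorem z1d_sq (x y : ℂ) : ‖x + y‖ ^ 2 ≤ 2 * ‖x‖ ^ 2 + 2 * ‖y‖ ^ 2 := by
  have h1 : ‖x + y‖ ≤ ‖x‖ + ‖y‖ := norm_add_le x y
  have h2 : 0 ≤ ‖x + y‖ := norm_nonneg _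
  nlinarith [sq_nonneg (‖x‖ - ‖y‖)]

/-- **Z1d.** A tuple with small modulus. `C`, `K` depend on the constants of `FMain` only.

Proof. Split the tuples `κ` into those with `lcm(R, κ) ≤ D` (`M4`, error `2 D² (2(1+log Q))^(2k)`, `D ≤ Q`,
`D² ≤ Q`, `Q^4 ≤ H`: its square times `H^k` is at most `H^(k+2) Q^(-6) (log X)^(Ck)`) and the others, for which
`lcm(r_i κ_i) > D / px.1 ≥ D2` (`Z1b`, `Z1c`: `px.1 D2 ≤ D1 ≤ D`), `FMain` with `D2`; `D2^(-1/2) ≤ Q^(-1/12)`.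
`(x+y)² ≤ 2x² + 2y²`. -/
theorem Z1d (hF : FMain) : ∃ C K : ℝ, 1 ≤ C ∧ 1 ≤ K ∧ ∀ (k Q X H : ℕ), RegP K Q X → 1 ≤ k → Q ^ 4 ≤ H →
    H ≤ X → ∀ px ∈ PC Q, px.1 ^ 100 ≤ Q → ∀ p ∈ TS k Q (Nat.sqrt (Nat.sqrt Q)) px,
    ∀ (a : ℕ) (b : Fin k → ℕ),
    ∑ h ∈ cube b H, ‖∑ n ∈ Ico a (a + H),
        ∑ κ ∈ Fintype.piFinset fun i => KS Q (p i).1, ∏ i, gk (p i) (κ i) ((n : ℤ) + h i) -
      H * (MR p (Rp px p) h *
        ((∑ d ∈ SF (Nat.sqrt Q / Rp px p) (Rp px p), td d h : ℝ) : ℂ))‖ ^ 2 ≤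
      (Real.log X) ^ (C * k) * (H : ℝ) ^ (k + 2) * (Q : ℝ) ^ (-(1 / 12) : ℝ) := by
  classical
  obtain ⟨C0, K0, hC0, hK0, hF'⟩ := hF
  obtain ⟨Q0, hQ0⟩ := Z1c
  refine ⟨C0 + 16, K0 + Q0 + 3, by linarith, by
    have : (0 : ℝ) ≤ Q0 := by positivity
    linarith, ?_⟩
  intro k Q X H hReg hk hQH hHX px hpx hpx100 p hp a b
  have hQ0n : (0 : ℝ) ≤ Q0 := by positivity
  have hKpos : (0 : ℝ) < K0 + Q0 + 3 := by linarith
  have hK1 : (1 : ℝ) ≤ K0 + Q0 + 3 := by linarith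
  have hRegK0 : RegP K0 Q X := hReg.mono hKpos.le (by linarith)
  have hQQ0 : Q0 ≤ Q := by
    have h1 := hReg.Q_ge hK1
    have h2 : (Q0 : ℝ) ≤ Q := by linarith
    exact_mod_cast h2
  have hQpos : 1 ≤ Q := hReg.Q_pos hK1
  have hL4 : 4 ≤ Real.log X := by
    have h1 := hReg.logX_ge hKpos
    have h2 := Real.add_one_le_exp (K0 + Q0 + 3)
    linarith
  have hlQ : Real.log Q ≤ Real.log X := by
    have h1 := hReg.logQ_le hK1
    have h2 : 0 ≤ Real.log Q := Real.log_nonneg (by exact_mod_cast hQpos)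
    nlinarith
  have hpx1 : 1 ≤ px.1 := (mem_PC.mp hpx).1
  obtain ⟨c1, c2, c3, c4, c5, c6, c7⟩ := hQ0 Q hQQ0 px.1 hpx1 hpx100
  set D2 := ⌊(Q : ℝ) ^ (1 / 5 : ℝ)⌋₊ with hD2
  have hTS : (∀ i, p i ∈ PC Q) ∧ Rp px p ≤ Nat.sqrt (Nat.sqrt Q) := by
    unfold TS at hp
    rw [mem_filter, Fintype.mem_piFinset] at hp
    exact hp
  obtain ⟨hpPC, hpR⟩ := hTS
  have hp1 : ∀ i, 1 ≤ (p i).1 := fun i => (mem_PC.mp (hpPC i)).1
  have hlcmpos : 0 < univ.lcm (fun i => (p i).1) := z1d_lcm_pos _ hp1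
  have hRpos : 0 < Rp px p := Nat.lcm_pos hpx1 hlcmpos
  have hdvd : ∀ i, (p i).1 ∣ Rp px p := fun i => by
    unfold Rp
    exact (Finset.dvd_lcm (f := fun i => (p i).1) (mem_univ i)).trans (Nat.dvd_lcm_right _ _)
  have hDQ : Nat.sqrt Q ≤ Q := Nat.sqrt_le_self Q
  have hDsq : Nat.sqrt Q ^ 2 ≤ Q := by
    rw [pow_two]
    exact Nat.sqrt_le Q
  -- the two parts
  set T := (Fintype.piFinset fun i => KS Q (p i).1).filter
    (fun κ => ¬ (Rp px p).lcm (univ.lcm κ) ≤ Nat.sqrt Q) with hT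
  have hTsub : T ⊆ Fintype.piFinset (fun i => KS Q (p i).1) := Finset.filter_subset _ _
  have hTlt : ∀ κ ∈ T, D2 < univ.lcm (fun i => (p i).1 * κ i) := by
    intro κ hκ
    rw [hT, mem_filter, Fintype.mem_piFinset] at hκ
    have h1 := (Z1b Q (Nat.sqrt Q) px hpx p hpPC κ hκ.1).1 (not_le.mp hκ.2)
    have h2 : px.1 * D2 < px.1 * univ.lcm (fun i => (p i).1 * κ i) :=
      lt_of_le_of_lt (c1.trans c2) h1
    exact lt_of_mul_lt_mul_left h2 (Nat.zero_le _)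
  have hB := hF' k Q X H D2 hRegK0 hQH hHX c3 c4 p hpPC a b T hTsub hTlt
  have hA : ∀ h : Fin k → ℕ, ‖∑ n ∈ Ico a (a + H),
      ∑ κ ∈ (Fintype.piFinset fun i => KS Q (p i).1).filter
        (fun κ => (Rp px p).lcm (univ.lcm κ) ≤ Nat.sqrt Q),
        ∏ i, gk (p i) (κ i) ((n : ℤ) + h i) -
      H * (MR p (Rp px p) h *
        ((∑ d ∈ SF (Nat.sqrt Q / Rp px p) (Rp px p), td d h : ℝ) : ℂ))‖ ≤
      2 * (Nat.sqrt Q : ℝ) ^ 2 * (2 * (1 + Real.log Q)) ^ (2 * k) :=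
    fun h => M4 Q (Nat.sqrt Q) (Rp px p) hDQ hRpos p hpPC hdvd h a H
  have hsplit : ∀ h : Fin k → ℕ, ∑ n ∈ Ico a (a + H),
        ∑ κ ∈ Fintype.piFinset fun i => KS Q (p i).1, ∏ i, gk (p i) (κ i) ((n : ℤ) + h i) -
      H * (MR p (Rp px p) h *
        ((∑ d ∈ SF (Nat.sqrt Q / Rp px p) (Rp px p), td d h : ℝ) : ℂ)) =
      (∑ n ∈ Ico a (a + H),
      ∑ κ ∈ (Fintype.piFinset fun i => KS Q (p i).1).filter
        (fun κ => (Rp px p).lcm (univ.lcm κ) ≤ Nat.sqrt Q),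
        ∏ i, gk (p i) (κ i) ((n : ℤ) + h i) -
      H * (MR p (Rp px p) h *
        ((∑ d ∈ SF (Nat.sqrt Q / Rp px p) (Rp px p), td d h : ℝ) : ℂ))) +
      ∑ n ∈ Ico a (a + H), ∑ κ ∈ T, ∏ i, gk (p i) (κ i) ((n : ℤ) + h i) := by
    intro h
    have h1 : ∑ n ∈ Ico a (a + H),
        ∑ κ ∈ Fintype.piFinset fun i => KS Q (p i).1, ∏ i, gk (p i) (κ i) ((n : ℤ) + h i) =
        ∑ n ∈ Ico a (a + H),
        ∑ κ ∈ (Fintype.piFinset fun i => KS Q (p i).1).filter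
          (fun κ => (Rp px p).lcm (univ.lcm κ) ≤ Nat.sqrt Q),
          ∏ i, gk (p i) (κ i) ((n : ℤ) + h i) +
        ∑ n ∈ Ico a (a + H), ∑ κ ∈ T, ∏ i, gk (p i) (κ i) ((n : ℤ) + h i) := by
      rw [← Finset.sum_add_distrib]
      refine Finset.sum_congr rfl (fun n _ => ?_)
      rw [hT]
      exact (Finset.sum_filter_add_sum_filter_not _ _ _).symm
    rw [h1]
    ring
  set W := 2 * (Nat.sqrt Q : ℝ) ^ 2 * (2 * (1 + Real.log Q)) ^ (2 * k) with hW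
  have hW0 : 0 ≤ W := by
    have : 0 ≤ Real.log Q := Real.log_nonneg (by exact_mod_cast hQpos)
    positivity
  have hcard : ((cube b H).card : ℝ) = (H : ℝ) ^ k := by
    unfold cube
    rw [Fintype.card_piFinset]
    simp
  calc ∑ h ∈ cube b H, ‖∑ n ∈ Ico a (a + H),
        ∑ κ ∈ Fintype.piFinset fun i => KS Q (p i).1, ∏ i, gk (p i) (κ i) ((n : ℤ) + h i) -
      H * (MR p (Rp px p) h *
        ((∑ d ∈ SF (Nat.sqrt Q / Rp px p) (Rp px p), td d h : ℝ) : ℂ))‖ ^ 2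
      ≤ ∑ h ∈ cube b H, (2 * W ^ 2 + 2 * ‖∑ n ∈ Ico a (a + H), ∑ κ ∈ T,
          ∏ i, gk (p i) (κ i) ((n : ℤ) + h i)‖ ^ 2) := by
        refine Finset.sum_le_sum (fun h _ => ?_)
        rw [hsplit h]
        refine (z1d_sq _ _).trans ?_
        have h1 := pow_le_pow_left₀ (norm_nonneg _) (hA h) 2
        linarith
    _ = 2 * ((H : ℝ) ^ k * W ^ 2) + 2 * ∑ h ∈ cube b H, ‖∑ n ∈ Ico a (a + H), ∑ κ ∈ T,
          ∏ i, gk (p i) (κ i) ((n : ℤ) + h i)‖ ^ 2 := by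
        rw [Finset.sum_add_distrib, Finset.sum_const, nsmul_eq_mul, hcard, ← Finset.mul_sum]
        ring
    _ ≤ 2 * ((H : ℝ) ^ k * W ^ 2) + 2 * ((Real.log X) ^ (C0 * k) * (H : ℝ) ^ (k + 2) *
          (D2 : ℝ) ^ (-(1 / 2) : ℝ)) := by linarith
    _ ≤ _ := z1d_num (Real.log X) C0 hL4 hC0 k Q H (Nat.sqrt Q) D2 hk hQpos hlQ hQH hDsq c5

end Pool.Agent.Lib.H59P
end

-- from Lib.H59P.Z1E
section

/-!
# Project H59P, chunk Z1e
-/

open Finset

namespace Pool.Agent.Lib.H59P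

open Pool.Agent.Lib.H68T Pool.Agent.Lib.H18Q

/-- `Q` is large in the regime. -/
theorem z1e_large {K : ℝ} (hK : 1 ≤ K) {Q X : ℕ} (hR : RegP K Q X) : K ≤ Q := by
  obtain ⟨h1, h2, -⟩ := hR
  have h3 : K * 1 ≤ K * Real.log (Real.log X) := mul_le_mul_of_nonneg_left (hK.trans h1) (by linarith)
  have h4 : Real.log Q ≤ Q := Real.log_le_self (Nat.cast_nonneg Q)
  linarith

/-- **Z1e.** A tuple with large modulus. Proof. All `κ` have `lcm(r_i κ_i) ≥ Rp px p / px.1 > D1 / px.1 ≥ D2`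
(`Z1b`, `Z1c`); `FMain` with `T` = everything. -/
theorem Z1e (hF : FMain) : ∃ C K : ℝ, 1 ≤ C ∧ 1 ≤ K ∧ ∀ (k Q X H : ℕ), RegP K Q X → 1 ≤ k → Q ^ 4 ≤ H →
    H ≤ X → ∀ px ∈ PC Q, px.1 ^ 100 ≤ Q → ∀ p : Fin k → Ch, (∀ i, p i ∈ PC Q) →
    p ∉ TS k Q (Nat.sqrt (Nat.sqrt Q)) px → ∀ (a : ℕ) (b : Fin k → ℕ),
    ∑ h ∈ cube b H, ‖∑ n ∈ Ico a (a + H),
        ∑ κ ∈ Fintype.piFinset fun i => KS Q (p i).1, ∏ i, gk (p i) (κ i) ((n : ℤ) + h i)‖ ^ 2 ≤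
      (Real.log X) ^ (C * k) * (H : ℝ) ^ (k + 2) * (Q : ℝ) ^ (-(1 / 12) : ℝ) := by
  obtain ⟨C, K, hC, hK, hF⟩ := hF
  obtain ⟨Q0, h0⟩ := Z1c
  refine ⟨C, max K (Q0 + 1), hC, hK.trans (le_max_left _ _), ?_⟩
  intro k Q X H hR hk hQH hHX px hpx hpx100 p hp hpTS a b
  have hK1 : 1 ≤ max K ((Q0 : ℝ) + 1) := hK.trans (le_max_left _ _)
  have hR1 : RegP K Q X := hR.mono (by linarith) (le_max_left _ _)
  have hQ1 := z1e_large hK1 hR
  have hQ0 : Q0 ≤ Q := by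
    have h1 : ((Q0 : ℝ) + 1) ≤ Q := (le_max_right _ _).trans hQ1
    have h2 : (Q0 : ℝ) ≤ Q := by linarith
    exact_mod_cast h2
  have hQpos : (0 : ℝ) < Q := by linarith
  have hpx1 : 1 ≤ px.1 := (mem_PC.mp hpx).1
  obtain ⟨c1, c2, c3, c4, c5, c6, -⟩ := h0 Q hQ0 px.1 hpx1 hpx100
  have hRp : Nat.sqrt (Nat.sqrt Q) < Rp px p := by
    by_contra hcon
    refine hpTS ?_
    unfold TS
    rw [mem_filter]
    exact ⟨Fintype.mem_piFinset.mpr hp, not_lt.mp hcon⟩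
  have hmain := hF k Q X H ⌊(Q : ℝ) ^ (1 / 5 : ℝ)⌋₊ hR1 hQH hHX c3 c4 p hp a b
    (Fintype.piFinset fun i => KS Q (p i).1) subset_rfl ?_
  · refine hmain.trans ?_
    have h3 : ((⌊(Q : ℝ) ^ (1 / 5 : ℝ)⌋₊ : ℕ) : ℝ) ^ (-(1 / 2) : ℝ) ≤ (Q : ℝ) ^ (-(1 / 12) : ℝ) := by
      have h4 : ((⌊(Q : ℝ) ^ (1 / 5 : ℝ)⌋₊ : ℕ) : ℝ) ^ (-(1 / 2) : ℝ) ≤ ((Q : ℝ) ^ (1 / 6 : ℝ)) ^ (-(1 / 2) : ℝ) :=
        Real.rpow_le_rpow_of_nonpos (Real.rpow_pos_of_pos hQpos _) c5 (by norm_num)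
      refine h4.trans (le_of_eq ?_)
      rw [← Real.rpow_mul hQpos.le]
      norm_num
    refine mul_le_mul_of_nonneg_left h3 ?_
    exact mul_nonneg (Real.rpow_nonneg (Real.log_natCast_nonneg X) _) (pow_nonneg (Nat.cast_nonneg H) _)
  · intro κ hκ
    have h5 := (Z1b Q 0 px hpx p hp κ (fun i => Fintype.mem_piFinset.mp hκ i)).2
    by_contra hcon
    have h6 : px.1 * univ.lcm (fun i => (p i).1 * κ i) ≤ px.1 * ⌊(Q : ℝ) ^ (1 / 5 : ℝ)⌋₊ :=
      Nat.mul_le_mul_left _ (not_lt.mp hcon)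
    omega

end Pool.Agent.Lib.H59P
end

-- from Lib.H59P.Z2A
section

/-!
# Project H59P, chunk Z2a
-/

open Finset

namespace Pool.Agent.Lib.H59P

open Pool.Agent.Lib.H68T Pool.Agent.Lib.H18Q

/-- Triangle inequality in `ℓ²`: a combination of functions with mean square at most `W²` and coefficients of
total size at most `c`. Proof. Minkowski, or Cauchy-Schwarz: `‖∑_p γ_p f_p(h)‖² ≤ (∑ |γ_p|) ∑_p |γ_p| ‖f_p(h)‖²`. -/
theorem Z2a {α β : Type*} (S : Finset α) (P : Finset β) (γ : β → ℂ) (f : β → α → ℂ) (c W : ℝ)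
    (hW : 0 ≤ W) (hγ : ∑ p ∈ P, ‖γ p‖ ≤ c) (hf : ∀ p ∈ P, ∑ h ∈ S, ‖f p h‖ ^ 2 ≤ W) :
    ∑ h ∈ S, ‖∑ p ∈ P, γ p * f p h‖ ^ 2 ≤ c ^ 2 * W := by
  have h0 : 0 ≤ ∑ p ∈ P, ‖γ p‖ := Finset.sum_nonneg fun p _ => norm_nonneg _
  have hc : 0 ≤ c := h0.trans hγ
  have h1 : ∀ h ∈ S, ‖∑ p ∈ P, γ p * f p h‖ ^ 2 ≤ c * ∑ p ∈ P, ‖γ p‖ * ‖f p h‖ ^ 2 := by
    intro h _
    have e1 : ‖∑ p ∈ P, γ p * f p h‖ ≤ ∑ p ∈ P, ‖γ p‖ * ‖f p h‖ := by
      refine (norm_sum_le _ _).trans (le_of_eq ?_)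
      exact Finset.sum_congr rfl fun p _ => norm_mul _ _
    have e2 : (∑ p ∈ P, ‖γ p‖ * ‖f p h‖) ^ 2 ≤
        (∑ p ∈ P, ‖γ p‖) * ∑ p ∈ P, ‖γ p‖ * ‖f p h‖ ^ 2 := by
      have h2 := Finset.sum_mul_sq_le_sq_mul_sq P (fun p => Real.sqrt ‖γ p‖)
        (fun p => Real.sqrt ‖γ p‖ * ‖f p h‖)
      have h3 : ∀ p ∈ P, Real.sqrt ‖γ p‖ * (Real.sqrt ‖γ p‖ * ‖f p h‖) = ‖γ p‖ * ‖f p h‖ := by
        intro p _
        rw [← mul_assoc, Real.mul_self_sqrt (norm_nonneg _)]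
      have h4 : ∀ p ∈ P, Real.sqrt ‖γ p‖ ^ 2 = ‖γ p‖ := fun p _ => Real.sq_sqrt (norm_nonneg _)
      have h5 : ∀ p ∈ P, (Real.sqrt ‖γ p‖ * ‖f p h‖) ^ 2 = ‖γ p‖ * ‖f p h‖ ^ 2 := by
        intro p hp
        rw [mul_pow, h4 p hp]
      rw [Finset.sum_congr rfl h3, Finset.sum_congr rfl h4, Finset.sum_congr rfl h5] at h2
      exact h2
    have e3 : 0 ≤ ∑ p ∈ P, ‖γ p‖ * ‖f p h‖ ^ 2 :=
      Finset.sum_nonneg fun p _ => mul_nonneg (norm_nonneg _) (sq_nonneg _)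
    calc ‖∑ p ∈ P, γ p * f p h‖ ^ 2 ≤ (∑ p ∈ P, ‖γ p‖ * ‖f p h‖) ^ 2 :=
          pow_le_pow_left₀ (norm_nonneg _) e1 2
      _ ≤ (∑ p ∈ P, ‖γ p‖) * ∑ p ∈ P, ‖γ p‖ * ‖f p h‖ ^ 2 := e2
      _ ≤ c * ∑ p ∈ P, ‖γ p‖ * ‖f p h‖ ^ 2 := mul_le_mul_of_nonneg_right hγ e3
  refine (Finset.sum_le_sum h1).trans ?_
  rw [← Finset.mul_sum, Finset.sum_comm]
  have h6 : ∑ p ∈ P, ∑ h ∈ S, ‖γ p‖ * ‖f p h‖ ^ 2 ≤ ∑ p ∈ P, ‖γ p‖ * W := by
    refine Finset.sum_le_sum fun p hp => ?_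
    rw [← Finset.mul_sum]
    exact mul_le_mul_of_nonneg_left (hf p hp) (norm_nonneg _)
  rw [← Finset.sum_mul] at h6
  calc c * ∑ p ∈ P, ∑ h ∈ S, ‖γ p‖ * ‖f p h‖ ^ 2 ≤ c * ((∑ p ∈ P, ‖γ p‖) * W) :=
        mul_le_mul_of_nonneg_left h6 hc
    _ ≤ c * (c * W) := mul_le_mul_of_nonneg_left (mul_le_mul_of_nonneg_right hγ hW) hc
    _ = c ^ 2 * W := by ring

end Pool.Agent.Lib.H59P
end

-- from Lib.H59P.Z2B
section

/-!
# Project H59P, chunk Z2b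
-/

open Finset

namespace Pool.Agent.Lib.H59P

open Pool.Agent.Lib.H68T Pool.Agent.Lib.H18Q

/-- The decomposition of the cell into the functions of the tuples of characters. -/
theorem z2b_dec {k : ℕ} (Q H a : ℕ) (px : Ch) (c : Fin k → Ch → ℂ) (h : Fin k → ℕ)
    (f : (Fin k → Ch) → ℂ)
    (hf1 : ∀ p ∈ TS k Q (Nat.sqrt (Nat.sqrt Q)) px, f p = ∑ n ∈ Ico a (a + H),
        ∑ κ ∈ Fintype.piFinset fun i => KS Q (p i).1, ∏ i, gk (p i) (κ i) ((n : ℤ) + h i) -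
      H * (MR p (Rp px p) h *
        ((∑ d ∈ SF (Nat.sqrt Q / Rp px p) (Rp px p), td d h : ℝ) : ℂ)))
    (hf2 : ∀ p, p ∉ TS k Q (Nat.sqrt (Nat.sqrt Q)) px → f p = ∑ n ∈ Ico a (a + H),
        ∑ κ ∈ Fintype.piFinset fun i => KS Q (p i).1, ∏ i, gk (p i) (κ i) ((n : ℤ) + h i)) :
    ∑ n ∈ Ico a (a + H), ∏ i, SG Q (c i) ((n : ℤ) + h i) - H * MC Q px c h =
      ∑ p ∈ Fintype.piFinset fun _ : Fin k => PC Q, (∏ i, c i (p i)) * f p := by
  classical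
  have h1 : ∑ n ∈ Ico a (a + H), ∏ i, SG Q (c i) ((n : ℤ) + h i) =
      ∑ p ∈ Fintype.piFinset fun _ : Fin k => PC Q, (∏ i, c i (p i)) *
        ∑ n ∈ Ico a (a + H), ∑ κ ∈ Fintype.piFinset fun i => KS Q (p i).1, ∏ i, gk (p i) (κ i) ((n : ℤ) + h i) := by
    have e1 : ∀ n ∈ Ico a (a + H), ∏ i, SG Q (c i) ((n : ℤ) + h i) =
        ∑ p ∈ Fintype.piFinset fun _ : Fin k => PC Q, (∏ i, c i (p i)) *
          ∑ κ ∈ Fintype.piFinset fun i => KS Q (p i).1, ∏ i, gk (p i) (κ i) ((n : ℤ) + h i) :=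
      fun n _ => Z1a Q c h n
    rw [Finset.sum_congr rfl e1, Finset.sum_comm]
    refine Finset.sum_congr rfl fun p _ => ?_
    rw [Finset.mul_sum]
  have hsub : TS k Q (Nat.sqrt (Nat.sqrt Q)) px ⊆ Fintype.piFinset fun _ : Fin k => PC Q := by
    unfold TS
    exact Finset.filter_subset _ _
  have h2 : (H : ℂ) * MC Q px c h = ∑ p ∈ Fintype.piFinset fun _ : Fin k => PC Q,
      (if p ∈ TS k Q (Nat.sqrt (Nat.sqrt Q)) px then (∏ i, c i (p i)) * (H * (MR p (Rp px p) h *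
        ((∑ d ∈ SF (Nat.sqrt Q / Rp px p) (Rp px p), td d h : ℝ) : ℂ))) else 0) := by
    rw [← Finset.sum_filter, Finset.filter_mem_eq_inter, Finset.inter_eq_right.mpr hsub]
    unfold MC
    rw [Finset.mul_sum]
    refine Finset.sum_congr rfl fun p _ => ?_
    ring
  rw [h1, h2, ← Finset.sum_sub_distrib]
  refine Finset.sum_congr rfl fun p _ => ?_
  by_cases hp : p ∈ TS k Q (Nat.sqrt (Nat.sqrt Q)) px
  · rw [if_pos hp, hf1 p hp]
    ring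
  · rw [if_neg hp, hf2 p hp, sub_zero]

/-- **Z2b.** One cell. Proof. `Z1a`; `Z2a` with `γ_p = ∏ c_i(p_i)`, `∑_p |γ_p| = ∏_i ∑_p ‖c_i p‖ ≤ 3^k`
(`Finset.prod_univ_sum`), `f_p` the difference of `Z1d` for `p ∈ TS`, the sum of `Z1e` else; `9^k ≤
(log X)^(3k)` (`log X ≥ 3`). -/
theorem Z2b (hF : FMain) : ∃ C K : ℝ, 1 ≤ C ∧ 1 ≤ K ∧ ∀ (k Q X H : ℕ), RegP K Q X → 1 ≤ k → Q ^ 4 ≤ H →
    H ≤ X → ∀ px ∈ PC Q, px.1 ^ 100 ≤ Q → ∀ c : Fin k → Ch → ℂ, (∀ i, ∑ p ∈ PC Q, ‖c i p‖ ≤ 3) →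
    ∀ (a : ℕ) (b : Fin k → ℕ),
    ∑ h ∈ cube b H, ‖∑ n ∈ Ico a (a + H), ∏ i, SG Q (c i) ((n : ℤ) + h i) - H * MC Q px c h‖ ^ 2 ≤
      (Real.log X) ^ (C * k) * (H : ℝ) ^ (k + 2) * (Q : ℝ) ^ (-(1 / 12) : ℝ) := by
  classical
  obtain ⟨C1, K1, hC1, hK1, h1⟩ := Z1d hF
  obtain ⟨C2, K2, hC2, hK2, h2⟩ := Z1e hF
  have hC0 : 1 ≤ max C1 C2 := hC1.trans (le_max_left _ _)
  refine ⟨max C1 C2 + 3, max (max K1 K2) 3, by linarith, (by norm_num : (1 : ℝ) ≤ 3).trans (le_max_right _ _), ?_⟩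
  intro k Q X H hR hk hQH hHX px hpx hpx100 c hc a b
  have hK0 : (0 : ℝ) ≤ max (max K1 K2) 3 := (by norm_num : (0 : ℝ) ≤ 3).trans (le_max_right _ _)
  have hR1 : RegP K1 Q X := hR.mono hK0 ((le_max_left _ _).trans (le_max_left _ _))
  have hR2 : RegP K2 Q X := hR.mono hK0 ((le_max_right _ _).trans (le_max_left _ _))
  have hlX : 3 ≤ Real.log X := by
    have e1 : (3 : ℝ) ≤ Real.log (Real.log X) := (le_max_right _ _).trans hR.1
    exact e1.trans (Real.log_le_self (Real.log_natCast_nonneg X))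
  have hlX1 : 1 ≤ Real.log X := by linarith
  have hHk : 0 ≤ (H : ℝ) ^ (k + 2) := pow_nonneg (Nat.cast_nonneg H) _
  have hQ12 : 0 ≤ (Q : ℝ) ^ (-(1 / 12) : ℝ) := Real.rpow_nonneg (Nat.cast_nonneg Q) _
  set W : ℝ := (Real.log X) ^ (max C1 C2 * k) * (H : ℝ) ^ (k + 2) * (Q : ℝ) ^ (-(1 / 12) : ℝ) with hW
  have hW0 : 0 ≤ W := by
    rw [hW]
    exact mul_nonneg (mul_nonneg (Real.rpow_nonneg (by linarith) _) hHk) hQ12
  have hWle : ∀ C : ℝ, C ≤ max C1 C2 →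
      (Real.log X) ^ (C * k) * (H : ℝ) ^ (k + 2) * (Q : ℝ) ^ (-(1 / 12) : ℝ) ≤ W := by
    intro C hC
    rw [hW]
    refine mul_le_mul_of_nonneg_right (mul_le_mul_of_nonneg_right ?_ hHk) hQ12
    exact Real.rpow_le_rpow_of_exponent_le hlX1 (mul_le_mul_of_nonneg_right hC (Nat.cast_nonneg k))
  set f : (Fin k → Ch) → (Fin k → ℕ) → ℂ := fun p h =>
    if p ∈ TS k Q (Nat.sqrt (Nat.sqrt Q)) px then ∑ n ∈ Ico a (a + H),
        ∑ κ ∈ Fintype.piFinset fun i => KS Q (p i).1, ∏ i, gk (p i) (κ i) ((n : ℤ) + h i) -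
      H * (MR p (Rp px p) h *
        ((∑ d ∈ SF (Nat.sqrt Q / Rp px p) (Rp px p), td d h : ℝ) : ℂ))
    else ∑ n ∈ Ico a (a + H),
        ∑ κ ∈ Fintype.piFinset fun i => KS Q (p i).1, ∏ i, gk (p i) (κ i) ((n : ℤ) + h i) with hfdef
  have hf1 : ∀ p ∈ TS k Q (Nat.sqrt (Nat.sqrt Q)) px, ∀ h, f p h = ∑ n ∈ Ico a (a + H),
        ∑ κ ∈ Fintype.piFinset fun i => KS Q (p i).1, ∏ i, gk (p i) (κ i) ((n : ℤ) + h i) -
      H * (MR p (Rp px p) h *
        ((∑ d ∈ SF (Nat.sqrt Q / Rp px p) (Rp px p), td d h : ℝ) : ℂ)) := by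
    intro p hp h
    rw [hfdef]
    exact if_pos hp
  have hf2 : ∀ p, p ∉ TS k Q (Nat.sqrt (Nat.sqrt Q)) px → ∀ h, f p h = ∑ n ∈ Ico a (a + H),
        ∑ κ ∈ Fintype.piFinset fun i => KS Q (p i).1, ∏ i, gk (p i) (κ i) ((n : ℤ) + h i) := by
    intro p hp h
    rw [hfdef]
    exact if_neg hp
  have hdec : ∀ h ∈ cube b H,
      ‖∑ n ∈ Ico a (a + H), ∏ i, SG Q (c i) ((n : ℤ) + h i) - H * MC Q px c h‖ ^ 2 =
      ‖∑ p ∈ Fintype.piFinset fun _ : Fin k => PC Q, (∏ i, c i (p i)) * f p h‖ ^ 2 := by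
    intro h _
    rw [z2b_dec Q H a px c h (fun p => f p h) (fun p hp => hf1 p hp h) (fun p hp => hf2 p hp h)]
  rw [Finset.sum_congr rfl hdec]
  have hγ : ∑ p ∈ Fintype.piFinset fun _ : Fin k => PC Q, ‖∏ i, c i (p i)‖ ≤ 3 ^ k := by
    have e1 : ∑ p ∈ Fintype.piFinset fun _ : Fin k => PC Q, ‖∏ i, c i (p i)‖ = ∏ i, ∑ p ∈ PC Q, ‖c i p‖ := by
      rw [Finset.prod_univ_sum]
      refine Finset.sum_congr rfl fun p _ => ?_
      rw [norm_prod]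
    rw [e1]
    have e2 : ∏ i : Fin k, ∑ p ∈ PC Q, ‖c i p‖ ≤ ∏ _i : Fin k, (3 : ℝ) :=
      Finset.prod_le_prod (fun i _ => Finset.sum_nonneg fun p _ => norm_nonneg _) (fun i _ => hc i)
    simpa using e2
  have hmain := Z2a (cube b H) (Fintype.piFinset fun _ : Fin k => PC Q) (fun p => ∏ i, c i (p i)) f (3 ^ k) W hW0 hγ ?_
  · refine hmain.trans ?_
    have e1 : ((3 : ℝ) ^ k) ^ 2 ≤ (Real.log X) ^ (3 * (k : ℝ)) := by
      have e2 : ((3 : ℝ) ^ k) ^ 2 = 9 ^ k := by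
        rw [← pow_mul, mul_comm, pow_mul]
        norm_num
      have e3 : (Real.log X) ^ (3 * (k : ℝ)) = ((Real.log X) ^ 3) ^ k := by
        rw [Real.rpow_mul (by linarith), Real.rpow_natCast]
        norm_num
      rw [e2, e3]
      refine pow_le_pow_left₀ (by norm_num) ?_ k
      have e4 : (3 : ℝ) ^ 3 ≤ (Real.log X) ^ 3 := pow_le_pow_left₀ (by norm_num) hlX 3
      linarith
    have e5 : (Real.log X) ^ ((max C1 C2 + 3) * (k : ℝ)) =
        (Real.log X) ^ (3 * (k : ℝ)) * (Real.log X) ^ (max C1 C2 * (k : ℝ)) := by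
      rw [← Real.rpow_add (by linarith)]
      congr 1
      ring
    rw [e5]
    have e6 := mul_le_mul_of_nonneg_right e1 hW0
    refine e6.trans (le_of_eq ?_)
    rw [hW]
    ring
  · intro p hp
    have hp' : ∀ i, p i ∈ PC Q := fun i => Fintype.mem_piFinset.mp hp i
    by_cases hpT : p ∈ TS k Q (Nat.sqrt (Nat.sqrt Q)) px
    · have e1 := h1 k Q X H hR1 hk hQH hHX px hpx hpx100 p hpT a b
      have e2 : ∑ h ∈ cube b H, ‖f p h‖ ^ 2 = ∑ h ∈ cube b H, ‖∑ n ∈ Ico a (a + H),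
          ∑ κ ∈ Fintype.piFinset fun i => KS Q (p i).1, ∏ i, gk (p i) (κ i) ((n : ℤ) + h i) -
        H * (MR p (Rp px p) h *
          ((∑ d ∈ SF (Nat.sqrt Q / Rp px p) (Rp px p), td d h : ℝ) : ℂ))‖ ^ 2 :=
        Finset.sum_congr rfl fun h _ => by rw [hf1 p hpT h]
      rw [e2]
      exact e1.trans (hWle C1 (le_max_left _ _))
    · have e1 := h2 k Q X H hR2 hk hQH hHX px hpx hpx100 p hp' hpT a b
      have e2 : ∑ h ∈ cube b H, ‖f p h‖ ^ 2 = ∑ h ∈ cube b H, ‖∑ n ∈ Ico a (a + H),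
          ∑ κ ∈ Fintype.piFinset fun i => KS Q (p i).1, ∏ i, gk (p i) (κ i) ((n : ℤ) + h i)‖ ^ 2 :=
        Finset.sum_congr rfl fun h _ => by rw [hf2 p hpT h]
      rw [e2]
      exact e1.trans (hWle C2 (le_max_right _ _))

end Pool.Agent.Lib.H59P
end

-- from Lib.H59P.Z2
section

/-!
# Project H59P, chunk Z2
-/

open Finset

namespace Pool.Agent.Lib.H59P

open Pool.Agent.Lib.H68T Pool.Agent.Lib.H18Q

/-- the fibres of `h ↦ h / H` on the box are the cubes -/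
theorem z2_fib {k : ℕ} (N H : ℕ) (hH : 0 < H) (t : Fin k → ℕ) (ht : ∀ i, t i < N) :
    (bx k (H * N)).filter (fun h => (fun i => h i / H) = t) = cube (fun i => t i * H) H := by
  classical
  ext h
  unfold bx cube
  rw [mem_filter, Fintype.mem_piFinset, Fintype.mem_piFinset]
  constructor
  · rintro ⟨_, h2⟩ i
    have h3 : h i / H = t i := congrFun h2 i
    rw [mem_Ico]
    have h4 := Nat.div_mul_le_self (h i) H
    have h5 := Nat.lt_div_mul_add hH (a := h i)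
    rw [h3] at h4 h5
    exact ⟨h4, h5⟩
  · intro h1
    have h3 : ∀ i, t i * H ≤ h i ∧ h i < t i * H + H := fun i => mem_Ico.mp (h1 i)
    refine ⟨fun i => ?_, ?_⟩
    · rw [mem_range]
      have h4 : (t i + 1) * H ≤ N * H := Nat.mul_le_mul_right H (ht i)
      calc h i < t i * H + H := (h3 i).2
        _ = (t i + 1) * H := by ring
        _ ≤ N * H := h4
        _ = H * N := by ring
    · funext i
      have h4 := h3 i
      rw [Nat.div_eq_iff hH]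
      constructor
      · exact h4.1
      · have h5 : h i < t i * H + H := h4.2
        omega

/-- sums over a long interval split into cells -/
theorem z2_cells {M : Type*} [AddCommMonoid M] (A H N : ℕ) (f : ℕ → M) :
    ∑ n ∈ Ico A (A + N * H), f n = ∑ j ∈ range N, ∑ n ∈ Ico (A + j * H) (A + j * H + H), f n := by
  induction N with
  | zero => simp
  | succ N ih =>
    rw [Finset.sum_range_succ, ← ih]
    have h1 : A + (N + 1) * H = A + N * H + H := by ring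
    rw [h1]
    exact (Finset.sum_Ico_consecutive f (by omega) (by omega)).symm

theorem z2_bs {H : ℕ} (hH : 0 < H) (c m : ℕ) (h1 : c * H ≤ m) (h2 : m < c * H + H) : bs H m = c * H := by
  unfold bs
  have h3 : m / H = c := by
    rw [Nat.div_eq_iff hH]
    constructor
    · exact h1
    · omega
  rw [h3]

theorem z2_cs (N : ℕ) (z : ℕ → ℂ) : ‖∑ j ∈ range N, z j‖ ^ 2 ≤ N * ∑ j ∈ range N, ‖z j‖ ^ 2 := by
  have h1 : ‖∑ j ∈ range N, z j‖ ≤ ∑ j ∈ range N, ‖z j‖ := norm_sum_le _ _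
  have h2 := sq_sum_le_card_mul_sum_sq (s := range N) (f := fun j => ‖z j‖)
  rw [card_range] at h2
  exact (pow_le_pow_left₀ (norm_nonneg _) h1 2).trans h2

/-- **Z2.** All cells. Proof. `bx k X` is the disjoint union of the `Q^(8k)` cubes of side `H` with base points
multiples of `H` (`X = H Q^8`), `Ico X (2X)` of the `Q^8` intervals `Ico (X+jH) (X+(j+1)H)`, on which `bs H n =
X + jH`; on a cube `bs H (h i) = b i`. For each cube: `‖∑_j (…)‖² ≤ Q^8 ∑_j ‖…‖²`, `Z2b` with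
`c_i = B(X + jH + b_i)` (total size `≤ 3`: `Cf.le`, `Cf.sum`, arguments in `[X, 3X)`). Sum:
`Q^(8k) · Q^8 · Q^8 · H^(k+2) = X^(k+2)`. -/
theorem Z2 (hF : FMain) : ∃ C K : ℝ, 1 ≤ C ∧ 1 ≤ K ∧ ∀ (k Q X H : ℕ), RegP K Q X → 1 ≤ k → Q ^ 4 ≤ H →
    X = H * Q ^ 8 → ∀ px ∈ PC Q, px.1 ^ 100 ≤ Q → ∀ (B : ℤ → Ch → ℂ) (mb : Ch → ℝ), Cf Q X B mb →
    ∑ h ∈ bx k X, ‖Rc Q X H B h - MT Q X H px B h‖ ^ 2 ≤
      (Real.log X) ^ (C * k) * (X : ℝ) ^ (k + 2) * (Q : ℝ) ^ (-(1 / 12) : ℝ) := by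
  classical
  obtain ⟨C, K, hC, hK, hZ⟩ := Z2b hF
  refine ⟨C, K, hC, hK, ?_⟩
  intro k Q X H hReg hk hQH hX px hpx hpx100 B mb hB
  have hKpos : (0 : ℝ) < K := by linarith
  have hQpos : 0 < Q := hReg.Q_pos hK
  have hQ8 : 0 < Q ^ 8 := Nat.pow_pos hQpos
  have hXpos : 0 < X := hReg.X_pos hKpos
  have hHpos : 0 < H := by
    rcases Nat.eq_zero_or_pos H with h0 | h0
    · rw [h0] at hX
      omega
    · exact h0
  have hHX : H ≤ X := by
    rw [hX]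
    exact Nat.le_mul_of_pos_right H hQ8
  set W := (Real.log X) ^ (C * k) * (H : ℝ) ^ (k + 2) * (Q : ℝ) ^ (-(1 / 12) : ℝ) with hW
  -- the errors of the cells
  set Er : (Fin k → ℕ) → ℕ → (Fin k → ℕ) → ℂ := fun t j h =>
    ∑ n ∈ Ico (X + j * H) (X + j * H + H), ∏ i, SG Q (B (((X + j * H + t i * H : ℕ) : ℤ))) ((n : ℤ) + h i)
      - H * MC Q px (fun i => B (((X + j * H + t i * H : ℕ) : ℤ))) h with hEr
  have hcell : ∀ t : Fin k → ℕ, (∀ i, t i < Q ^ 8) → ∀ j < Q ^ 8,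
      ∑ h ∈ cube (fun i => t i * H) H, ‖Er t j h‖ ^ 2 ≤ W := by
    intro t ht j hj
    refine hZ k Q X H hReg hk hQH hHX px hpx hpx100
      (fun i => B (((X + j * H + t i * H : ℕ) : ℤ))) ?_ (X + j * H) (fun i => t i * H)
    intro i
    have h1 : (j + 1) * H ≤ Q ^ 8 * H := Nat.mul_le_mul_right H hj
    have h2 : (t i + 1) * H ≤ Q ^ 8 * H := Nat.mul_le_mul_right H (ht i)
    have h3 : Q ^ 8 * H = X := by rw [hX]; ring
    have h4 : X + j * H + t i * H ≤ 4 * X := by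
      rw [h3] at h1 h2
      have h5 : (j + 1) * H = j * H + H := by ring
      have h6 : (t i + 1) * H = t i * H + H := by ring
      omega
    refine (Finset.sum_le_sum (fun p hp => ?_)).trans hB.sum
    exact hB.le _ (by push_cast; nlinarith [Nat.zero_le (j * H), Nat.zero_le (t i * H)])
      (by exact_mod_cast h4) p hp
  -- on the cube of `t`
  have hdiff : ∀ t : Fin k → ℕ, ∀ h ∈ cube (fun i => t i * H) H,
      Rc Q X H B h - MT Q X H px B h = ∑ j ∈ range (Q ^ 8), Er t j h := by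
    intro t h hh
    have hh2 : ∀ i, t i * H ≤ h i ∧ h i < t i * H + H := by
      intro i
      unfold cube at hh
      rw [Fintype.mem_piFinset] at hh
      exact mem_Ico.mp (hh i)
    have hbs : ∀ i, bs H (h i) = t i * H := fun i => z2_bs hHpos (t i) (h i) (hh2 i).1 (hh2 i).2
    have h1 : Rc Q X H B h = ∑ j ∈ range (Q ^ 8), ∑ n ∈ Ico (X + j * H) (X + j * H + H),
        ∏ i, SG Q (B (((X + j * H + t i * H : ℕ) : ℤ))) ((n : ℤ) + h i) := by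
      unfold Rc
      have h2 : 2 * X = X + Q ^ 8 * H := by
        have : Q ^ 8 * H = X := by rw [hX]; ring
        omega
      rw [h2, z2_cells]
      refine Finset.sum_congr rfl (fun j _ => Finset.sum_congr rfl (fun n hn => ?_))
      rw [mem_Ico] at hn
      have h3 : bs H n = X + j * H := by
        have h4 : X + j * H = (Q ^ 8 + j) * H := by rw [hX]; ring
        rw [h4] at hn ⊢
        exact z2_bs hHpos _ n hn.1 hn.2
      rw [h3]
      refine Finset.prod_congr rfl (fun i _ => ?_)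
      rw [hbs i]
    have h5 : MT Q X H px B h = ∑ j ∈ range (Q ^ 8), (H : ℂ) *
        MC Q px (fun i => B (((X + j * H + t i * H : ℕ) : ℤ))) h := by
      unfold MT
      refine Finset.sum_congr rfl (fun j _ => ?_)
      simp only [hbs]
    rw [h1, h5, ← Finset.sum_sub_distrib]
  -- each cube
  have hcube : ∀ t ∈ Fintype.piFinset (fun _ : Fin k => range (Q ^ 8)),
      ∑ h ∈ cube (fun i => t i * H) H, ‖Rc Q X H B h - MT Q X H px B h‖ ^ 2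
        ≤ ((Q : ℝ) ^ 8) ^ 2 * W := by
    intro t ht
    rw [Fintype.mem_piFinset] at ht
    have ht' : ∀ i, t i < Q ^ 8 := fun i => mem_range.mp (ht i)
    calc ∑ h ∈ cube (fun i => t i * H) H, ‖Rc Q X H B h - MT Q X H px B h‖ ^ 2
        ≤ ∑ h ∈ cube (fun i => t i * H) H, ((Q ^ 8 : ℕ) : ℝ) * ∑ j ∈ range (Q ^ 8), ‖Er t j h‖ ^ 2 := by
          refine Finset.sum_le_sum (fun h hh => ?_)
          rw [hdiff t h hh]
          exact z2_cs _ _
      _ = ((Q ^ 8 : ℕ) : ℝ) * ∑ j ∈ range (Q ^ 8), ∑ h ∈ cube (fun i => t i * H) H, ‖Er t j h‖ ^ 2 := by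
          rw [← Finset.mul_sum, Finset.sum_comm]
      _ ≤ ((Q ^ 8 : ℕ) : ℝ) * ∑ j ∈ range (Q ^ 8), W := by
          refine mul_le_mul_of_nonneg_left ?_ (by positivity)
          exact Finset.sum_le_sum (fun j hj => hcell t ht' j (mem_range.mp hj))
      _ = ((Q : ℝ) ^ 8) ^ 2 * W := by
          rw [Finset.sum_const, card_range, nsmul_eq_mul]
          push_cast
          ring
  have hmaps : ∀ h ∈ bx k X, (fun i => h i / H) ∈ Fintype.piFinset (fun _ : Fin k => range (Q ^ 8)) := by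
    intro h hh
    unfold bx at hh
    rw [Fintype.mem_piFinset] at hh ⊢
    intro i
    have h1 : h i < X := mem_range.mp (hh i)
    rw [mem_range]
    rw [Nat.div_lt_iff_lt_mul hHpos]
    calc h i < X := h1
      _ = Q ^ 8 * H := by rw [hX]; ring
  rw [← Finset.sum_fiberwise_of_maps_to hmaps]
  have hfib : ∀ t ∈ Fintype.piFinset (fun _ : Fin k => range (Q ^ 8)),
      ∑ h ∈ (bx k X).filter (fun h => (fun i => h i / H) = t), ‖Rc Q X H B h - MT Q X H px B h‖ ^ 2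
        ≤ ((Q : ℝ) ^ 8) ^ 2 * W := by
    intro t ht
    have ht' : ∀ i, t i < Q ^ 8 := fun i => mem_range.mp ((Fintype.mem_piFinset.mp ht) i)
    have h1 : (bx k X).filter (fun h => (fun i => h i / H) = t) = cube (fun i => t i * H) H := by
      conv_lhs => rw [hX]
      exact z2_fib (Q ^ 8) H hHpos t ht'
    rw [h1]
    exact hcube t ht
  refine (Finset.sum_le_sum hfib).trans (le_of_eq ?_)
  rw [Finset.sum_const, Fintype.card_piFinset, nsmul_eq_mul]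
  simp only [card_range, Finset.prod_const, card_univ, Fintype.card_fin]
  have hXr : (X : ℝ) = H * (Q : ℝ) ^ 8 := by
    rw [hX]
    push_cast
    ring
  rw [hW]
  have h7 : (X : ℝ) ^ (k + 2) = (H : ℝ) ^ (k + 2) * ((Q : ℝ) ^ 8) ^ (k + 2) := by
    rw [hXr, mul_pow]
  rw [h7]
  push_cast
  ring

end Pool.Agent.Lib.H59P
end
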