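import Mathlib
import Pool.Agent.Lib.H59M.M1.D_H59_SchinzelDefs
import Pool.Agent.Lib.H59M.M1.M023
import Pool.Agent.Lib.H59M.M1.M056
import Pool.Agent.Lib.H59M.M1.M058
import Pool.Agent.Lib.H59M.M1.M060
import Pool.Agent.Lib.H59M.M1.M061

/-! Merged copies (to shorten the build) of Lib.H24P.Defs, Lib.H24P.B3, Lib.H24P.P0, Lib.H24P.Defs2, Lib.H24P.KDefs, Lib.H24P.ZDefs, Lib.H24P.G1, Lib.H59T.UA. -/

-- from Lib.H24P.Defs
section

/-!
# Project H24P (MP_0bf1d2_nt): power savings for Schinzel's problem with varying constant terms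

Definitions. See `PROOF.md`. The notions of H59P (where the coordinates are `n + h_i`) for congruence
preserving maps `φ_i : ℤ → ℤ`.
-/

open Finset Polynomial

namespace Pool.Agent.Lib.H24P

open Pool.Agent.Lib.H68T Pool.Agent.Lib.H18Q Pool.Agent.Lib.H59P

noncomputable section

/-! ## Local factors, mean values -/

/-- The maps `φ_i` preserve congruences. -/
def Cp {k : ℕ} (φ : Fin k → ℤ → ℤ) : Prop := ∀ (i : Fin k) (q n : ℤ), q ∣ φ i (n + q) - φ i n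

/-- The local factor of the singular series at the prime `l`, minus `1`. -/
def tpf {k : ℕ} (l : ℕ) (φ : Fin k → ℤ → ℤ) : ℝ :=
  (∑ n ∈ range l, ∏ i, (1 + gl l (φ i n))) / l - 1

/-- The product of the local factors over the primes in `P`. -/
def SSf {k : ℕ} (P : Finset ℕ) (φ : Fin k → ℤ → ℤ) : ℝ := ∏ l ∈ P, (1 + tpf l φ)

/-- `∏_{l ∣ d} tpf l φ` -/
def tdf {k : ℕ} (d : ℕ) (φ : Fin k → ℤ → ℤ) : ℝ := ∏ l ∈ d.primeFactors, tpf l φ

/-- `∏_i (1 + gl l (m_i)) - 1` -/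
def Wf {k : ℕ} (l : ℕ) (m : Fin k → ℤ) : ℝ := ∏ i, (1 + gl l (m i)) - 1

/-- `∏_{l ∣ d} Wf l m` -/
def Wdf {k : ℕ} (d : ℕ) (m : Fin k → ℤ) : ℝ := ∏ l ∈ d.primeFactors, Wf l m

/-- `∏_i conj χ_i(m_i) ∏_{l ∈ P} (1 + gl l (m_i))` -/
def Phf {k : ℕ} (p : Fin k → Ch) (P : Finset ℕ) (m : Fin k → ℤ) : ℂ :=
  ∏ i, (cj (p i) (m i) * ((uu P (m i) : ℝ) : ℂ))

/-- The values of the maps at `n`. -/
def at' {k : ℕ} (φ : Fin k → ℤ → ℤ) (n : ℤ) : Fin k → ℤ := fun i => φ i n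

/-- The mean modulo `R` for the primes dividing `R`. -/
def MRf {k : ℕ} (p : Fin k → Ch) (R : ℕ) (φ : Fin k → ℤ → ℤ) : ℂ :=
  (∑ n ∈ range R, Phf p R.primeFactors (at' φ n)) / R

/-- The mean over a complete period `Q!` for all primes up to `Q`. -/
def MQf {k : ℕ} (Q : ℕ) (p : Fin k → Ch) (φ : Fin k → ℤ → ℤ) : ℂ :=
  (∑ n ∈ range Q.factorial, Phf p (pr Q) (at' φ n)) / (Q.factorial : ℂ)

/-- `∏_i uu(m_i) (1 - th_i ψ(m_i))` -/
def fPf {k : ℕ} (Q : ℕ) (px : Ch) (th : Fin k → ℝ) (m : Fin k → ℤ) : ℝ :=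
  ∏ i, (uu (pr Q) (m i) * (1 - th i * (cj px (m i)).re))

/-- The main term: the mean of `fPf` over a complete period. -/
def PMf {k : ℕ} (Q : ℕ) (px : Ch) (th : Fin k → ℝ) (φ : Fin k → ℤ → ℤ) : ℝ :=
  (∑ n ∈ range Q.factorial, fPf Q px th (at' φ n)) / (Q.factorial : ℝ)

open Classical in
/-- The tuples of characters with `lcm(m0, p_1.1, …, p_k.1) ≤ D`. -/
def TSf (k Q D m0 : ℕ) : Finset (Fin k → Ch) :=
  (Fintype.piFinset fun _ : Fin k => PC Q).filter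
    (fun p => m0.lcm (univ.lcm fun i => (p i).1) ≤ D)

/-- The modulus of a tuple of characters. -/
def Rf {k : ℕ} (m0 : ℕ) (p : Fin k → Ch) : ℕ := m0.lcm (univ.lcm fun i => (p i).1)

/-- No prime divides the product of the `φ_i(n)` for all `n`. -/
def NoFix {k : ℕ} (φ : Fin k → ℤ → ℤ) : Prop :=
  ∀ l : ℕ, l.Prime → ∃ n : ℤ, ∀ i, ¬ (l : ℤ) ∣ φ i n

/-! ## Systems of polynomials -/

/-- The random coordinates `P_i + h_i`. -/
def ran {k : ℕ} (P : Fin k → ℤ[X]) (h : Fin k → ℕ) : Fin k → ℤ → ℤ :=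
  fun i n => (P i).eval n + h i

/-- The system: the deterministic linear coordinate `B` and the random coordinates `P_i + h_i`. -/
def sys {k : ℕ} (B : ℤ[X]) (P : Fin k → ℤ[X]) (h : Fin k → ℕ) : Fin (k + 1) → ℤ → ℤ :=
  Fin.cons (fun n => B.eval n) (ran P h)

/-- Degrees between `1` and `A`, leading coefficients (of any sign) at most `A` in absolute value. -/
structure Pol (A : ℕ) {k : ℕ} (P : Fin k → ℤ[X]) : Prop where
  deg : ∀ i, 1 ≤ (P i).natDegree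
  degA : ∀ i, (P i).natDegree ≤ A
  lc : ∀ i, (P i).leadingCoeff.natAbs ≤ A

/-- The linear coordinate: degree `1`, leading coefficient at most `A` in absolute value, primitive. -/
structure Lin (A : ℕ) (B : ℤ[X]) : Prop where
  deg : B.natDegree = 1
  lc : B.leadingCoeff.natAbs ≤ A
  cop : IsCoprime (B.coeff 0) (B.coeff 1)

/-- The box `∏ [b_i, b_i + s_i)`. -/
def cub {k : ℕ} (b s : Fin k → ℕ) : Finset (Fin k → ℕ) :=
  Fintype.piFinset fun i => Ico (b i) (b i + s i)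


/-- The component of the character `p` at level `Q`: `Gam Q r m conj χ(m) = ∑_{κ ∈ KS Q r} gk p κ m`. -/
def Fc (Q : ℕ) (p : Ch) (m : ℤ) : ℂ := ∑ κ ∈ KS Q p.1, gk p κ m

/-- The regime: `Q` is a power of `X` between `X^(1/C)` and `X^(1/K)`. -/
def Rg (K C : ℝ) (Q X : ℕ) : Prop :=
  K * Real.log Q ≤ Real.log X ∧ Real.log X ≤ C * Real.log Q

/-- The scale of the values on the dyadic box `∏ [M_i, 2 M_i)`: `Y = 3 M/4` (`8 ∣ M`), the values are in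
`[Y, 3 Y)`. -/
def Ysc (M : ℕ) : ℕ := 3 * (M / 4)

/-- The geometry: range `[X1, 2 X1)` of `n`, dyadic box `∏ [M_i, 2 M_i)` of the `h`; `L` a large
constant. -/
structure Geo (L Q X X1 : ℕ) {k : ℕ} (P : Fin k → ℤ[X]) (M : Fin k → ℕ) : Prop where
  dvd : Q ^ 800 ∣ X1
  pos : 0 < X1
  le : X1 ≤ X
  ge : X ≤ X1 * Q
  dvdM : ∀ i, 8 * Q ^ 8 ∣ M i
  lo : ∀ i, L * X1 ^ (P i).natDegree ≤ M i
  hi : ∀ i, (M i : ℝ) ≤ (X1 : ℝ) ^ (P i).natDegree * (Q : ℝ) ^ (1 / 8 : ℝ)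

/-- The values of the linear coordinate on `[X1, 2 X1)` are in `[Y, 3 Y)`. -/
structure GeoB (A X X1 Y : ℕ) (B : ℤ[X]) : Prop where
  lin : Lin A B
  lo : ∀ n : ℕ, n ∈ Ico X1 (2 * X1) → (Y : ℤ) ≤ B.eval (n : ℤ)
  hi : ∀ n : ℕ, n ∈ Ico X1 (2 * X1) → B.eval (n : ℤ) < 3 * Y
  Ylo : X1 ≤ 2 * Y
  Yhi : Y ≤ A * X

end

end Pool.Agent.Lib.H24P
end

-- from Lib.H24P.B3
section

/-!
# Project H24P, chunk B3 (M): components have mean zero in progressions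
-/

open Finset Polynomial

namespace Pool.Agent.Lib.H24P

open Pool.Agent.Lib.H68T Pool.Agent.Lib.H18Q Pool.Agent.Lib.H59P

theorem b3_perZ (G : ℤ → ℂ) (q : ℤ) (hG : ∀ t, G (t + q) = G t) (j : ℤ) (t : ℤ) :
    G (t + q * j) = G t := by
  induction j using Int.induction_on with
  | zero => simp
  | succ i ih =>
    rw [← ih, ← hG (t + q * i)]
    congr 1
    ring
  | pred i ih =>
    rw [← ih, ← hG (t + q * (-(i : ℤ) - 1))]
    congr 1
    ring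

/-- the sum over a period does not depend on the starting point -/
theorem b3_shift (G : ℤ → ℂ) (q : ℕ) (hq : 0 < q) (hG : ∀ t, G (t + q) = G t) (c : ℤ) :
    ∑ t ∈ range q, G ((t : ℤ) + c) = ∑ t ∈ range q, G (t : ℤ) := by
  have h0 : (0 : ℤ) < q := by exact_mod_cast hq
  have h1 : 0 ≤ c % (q : ℤ) := Int.emod_nonneg _ h0.ne'
  obtain ⟨a, ha⟩ := Int.eq_ofNat_of_zero_le h1
  have h2 : ∀ t ∈ range q, G ((t : ℤ) + c) = G ((a : ℤ) + t) := by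
    intro t _
    have h3 := Int.emod_add_mul_ediv c (q : ℤ)
    have h4 : (t : ℤ) + c = ((a : ℤ) + t) + q * (c / q) := by
      rw [← ha]
      linarith
    rw [h4, b3_perZ G q hG]
  rw [sum_congr rfl h2]
  exact m3c_start G q hG a

/-- Proof. Let `q = r κ`, `g = gcd(N, q)`, a proper divisor of `q`; let `l` be a prime dividing `q/g`. Then `g` divides
`q' = q/l`, so `q' ≡ s N` modulo `q` for some integer `s ≥ 0`. `F = gk p κ` has period `q` (`gk_period`), so the sum over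
`t` of `F(m + t N)` over a complete system of residues modulo `q` is invariant under `t ↦ t + j s`, and so
`l ∑_t F(m + t N) = ∑_t ∑_{j<l} F(m + t N + j q') = 0` by `gk_prim` (`H18Q/CA.lean`). -/
theorem B3_zero (Q : ℕ) (p : Ch) (hp : p ∈ PC Q) (κ : ℕ) (hκ : κ ∈ KS Q p.1) (N : ℤ)
    (hN : ¬ ((p.1 * κ : ℕ) : ℤ) ∣ N) (m : ℤ) :
    ∑ t ∈ range (p.1 * κ), gk p κ (m + (t : ℤ) * N) = 0 := by
  obtain ⟨hr1, hrQ, -⟩ := mem_PC.1 hp
  obtain ⟨⟨hk1, -⟩, -, -⟩ := CA_mem_KS.1 hκ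
  have hq : 0 < p.1 * κ := Nat.mul_pos hr1 hk1
  have hgz : ((Int.gcd N ((p.1 * κ : ℕ) : ℤ) : ℕ) : ℤ) =
      N * Int.gcdA N ((p.1 * κ : ℕ) : ℤ) + ((p.1 * κ : ℕ) : ℤ) * Int.gcdB N ((p.1 * κ : ℕ) : ℤ) :=
    Int.gcd_eq_gcd_ab _ _
  have hgN : ((Int.gcd N ((p.1 * κ : ℕ) : ℤ) : ℕ) : ℤ) ∣ N := Int.gcd_dvd_left _ _
  have hgq : ((Int.gcd N ((p.1 * κ : ℕ) : ℤ) : ℕ) : ℤ) ∣ ((p.1 * κ : ℕ) : ℤ) := Int.gcd_dvd_right _ _
  generalize Int.gcd N ((p.1 * κ : ℕ) : ℤ) = g at hgz hgN hgq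
  generalize Int.gcdA N ((p.1 * κ : ℕ) : ℤ) = x at hgz
  generalize Int.gcdB N ((p.1 * κ : ℕ) : ℤ) = y at hgz
  have hgq' : g ∣ p.1 * κ := by exact_mod_cast hgq
  obtain ⟨c, hc⟩ := hgq'
  have hc1 : c ≠ 1 := by
    intro h
    rw [h, mul_one] at hc
    rw [hc] at hN
    exact hN hgN
  obtain ⟨l, hl, hlc⟩ := Nat.exists_prime_and_dvd hc1
  obtain ⟨c', hc'⟩ := hlc
  have hlq : l ∣ p.1 * κ := ⟨g * c', by rw [hc, hc']; ring⟩
  have hdiv : p.1 * κ / l = g * c' := by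
    rw [hc, hc']
    have : g * (l * c') = l * (g * c') := by ring
    rw [this, Nat.mul_div_cancel_left _ hl.pos]
  have hprim := gk_prim Q p hp κ hκ l hl hlq
  rw [hdiv] at hprim
  have hper := gk_period p κ
  -- G t = F(m + t N)
  have hGper : ∀ t : ℤ, gk p κ (m + (t + ((p.1 * κ : ℕ) : ℤ)) * N) = gk p κ (m + t * N) := by
    intro t
    have : m + (t + ((p.1 * κ : ℕ) : ℤ)) * N = (m + t * N) + ((p.1 * κ : ℕ) : ℤ) * N := by ring
    rw [this, hper]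
  have hsh := fun c0 : ℤ => b3_shift (fun t : ℤ => gk p κ (m + t * N)) (p.1 * κ) hq hGper c0
  have h1 : ∑ j ∈ range l, ∑ t ∈ range (p.1 * κ), gk p κ (m + ((t : ℤ) + (j : ℤ) * (x * c')) * N) =
      (l : ℂ) * ∑ t ∈ range (p.1 * κ), gk p κ (m + (t : ℤ) * N) := by
    have hh : ∀ j ∈ range l,
        ∑ t ∈ range (p.1 * κ), gk p κ (m + ((t : ℤ) + (j : ℤ) * (x * c')) * N) =
        ∑ t ∈ range (p.1 * κ), gk p κ (m + (t : ℤ) * N) := fun j _ => hsh ((j : ℤ) * (x * c'))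
    rw [sum_congr rfl hh, sum_const, card_range, nsmul_eq_mul]
  have h2 : ∑ j ∈ range l, ∑ t ∈ range (p.1 * κ), gk p κ (m + ((t : ℤ) + (j : ℤ) * (x * c')) * N) = 0 := by
    rw [sum_comm]
    refine sum_eq_zero fun t _ => ?_
    rw [← hprim (m + (t : ℤ) * N)]
    refine sum_congr rfl fun j _ => ?_
    have h3 : m + ((t : ℤ) + (j : ℤ) * (x * c')) * N =
        (m + (t : ℤ) * N + (j : ℤ) * ((g * c' : ℕ) : ℤ)) +
          ((p.1 * κ : ℕ) : ℤ) * (-((j : ℤ) * c' * y)) := by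
      rw [Nat.cast_mul g c', hgz]
      ring
    rw [h3, hper]
  rw [h2] at h1
  have hl0 : (l : ℂ) ≠ 0 := by exact_mod_cast hl.ne_zero
  exact (mul_eq_zero.1 h1.symm).resolve_left hl0

/-- the sum over `q N` consecutive numbers -/
theorem b3_blocks (f : ℕ → ℂ) (q N : ℕ) :
    ∑ n ∈ range (q * N), f n = ∑ t ∈ range q, ∑ v ∈ range N, f (t * N + v) := by
  induction q with
  | zero => simp
  | succ q ih =>
    rw [Nat.succ_mul, sum_range_add, ih, sum_range_succ]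

/-- Proof. `n = v + t N`, `v < N`, `t < q = r κ`, `B(v + t N) = B(v) + t a N` (`B` linear), `ψ(v + t N) = ψ(v)`;
`B3_zero` for `a N`. So the sum over the period `q N` vanishes; `M3c` (`H59P/M3C.lean`; `‖gk‖ ≤ Q`: `gk_bound`). -/
theorem B3_int (Q : ℕ) (p : Ch) (hp : p ∈ PC Q) (κ : ℕ) (hκ : κ ∈ KS Q p.1) (B : ℤ[X])
    (hB : B.natDegree = 1) (N : ℕ) (hN : 0 < N) (ψ : ℤ → ℂ) (hψ : ∀ n, ψ (n + N) = ψ n) (Φ : ℝ)
    (hΦ : ∀ n, ‖ψ n‖ ≤ Φ) (hn : ¬ ((p.1 * κ : ℕ) : ℤ) ∣ B.leadingCoeff * N) (a H : ℕ) :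
    ‖∑ n ∈ Ico a (a + H), gk p κ (B.eval (n : ℤ)) * ψ n‖ ≤ 2 * (Q * N) * (Q * Φ) := by
  obtain ⟨hr1, hrQ, -⟩ := mem_PC.1 hp
  obtain ⟨⟨hk1, hk2⟩, -, -⟩ := CA_mem_KS.1 hκ
  have hq : 0 < p.1 * κ := Nat.mul_pos hr1 hk1
  have hqQ : p.1 * κ ≤ Q := (Nat.mul_le_mul_left _ hk2).trans (Nat.mul_div_le _ _)
  have hΦ0 : 0 ≤ Φ := le_trans (norm_nonneg _) (hΦ 0)
  have hev : ∀ z w : ℤ, B.eval (z + w) = B.eval z + w * B.leadingCoeff := by
    intro z w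
    have h1 : ∀ u : ℤ, B.eval u = B.coeff 0 + B.leadingCoeff * u := by
      intro u
      rw [eval_eq_sum_range, hB, sum_range_succ, sum_range_one, leadingCoeff, hB]
      simp
    rw [h1, h1]
    ring
  have hper := gk_period p κ
  have hf : ∀ n : ℤ, gk p κ (B.eval (n + ((p.1 * κ * N : ℕ) : ℤ))) * ψ (n + ((p.1 * κ * N : ℕ) : ℤ)) =
      gk p κ (B.eval n) * ψ n := by
    intro n
    have h1 : gk p κ (B.eval (n + ((p.1 * κ * N : ℕ) : ℤ))) = gk p κ (B.eval n) := by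
      rw [hev]
      have : B.eval n + ((p.1 * κ * N : ℕ) : ℤ) * B.leadingCoeff =
          B.eval n + ((p.1 * κ : ℕ) : ℤ) * (N * B.leadingCoeff) := by
        push_cast
        ring
      rw [this, hper]
    have h2 : ψ (n + ((p.1 * κ * N : ℕ) : ℤ)) = ψ n := by
      have := b3_perZ ψ N hψ ((p.1 * κ : ℕ) : ℤ) n
      rw [← this]
      congr 1
      push_cast
      ring
    rw [h1, h2]
  have hbd : ∀ n : ℤ, ‖gk p κ (B.eval n) * ψ n‖ ≤ Q * Φ := by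
    intro n
    rw [norm_mul]
    exact mul_le_mul (gk_bound Q p hp κ hκ _) (hΦ n) (norm_nonneg _) (Nat.cast_nonneg _)
  have hP : 0 < p.1 * κ * N := Nat.mul_pos hq hN
  have hM := M3c (fun n : ℤ => gk p κ (B.eval n) * ψ n) (p.1 * κ * N) hP hf (Q * Φ) hbd a H
  have hzero : ∑ n ∈ range (p.1 * κ * N), (fun n : ℤ => gk p κ (B.eval n) * ψ n) (n : ℤ) = 0 := by
    rw [b3_blocks (fun n : ℕ => (fun n : ℤ => gk p κ (B.eval n) * ψ n) (n : ℤ)), sum_comm]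
    refine sum_eq_zero fun v _ => ?_
    have h1 : ∀ t ∈ range (p.1 * κ), (fun n : ℤ => gk p κ (B.eval n) * ψ n) ((t * N + v : ℕ) : ℤ) =
        gk p κ (B.eval (v : ℤ) + (t : ℤ) * (B.leadingCoeff * N)) * ψ v := by
      intro t _
      have h2 : ((t * N + v : ℕ) : ℤ) = (v : ℤ) + (t : ℤ) * N := by
        push_cast
        ring
      simp only
      rw [h2, hev]
      have h3 : ψ ((v : ℤ) + (t : ℤ) * N) = ψ v := by
        have := b3_perZ ψ N hψ (t : ℤ) v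
        rw [← this]
        congr 1
        ring
      rw [h3]
      congr 2
      ring
    rw [sum_congr rfl h1, ← sum_mul, B3_zero Q p hp κ hκ _ hn, zero_mul]
  rw [hzero, zero_div, mul_zero, sub_zero] at hM
  refine hM.trans ?_
  have h1 : ((p.1 * κ * N : ℕ) : ℝ) ≤ Q * N := by
    exact_mod_cast Nat.mul_le_mul_right N hqQ
  have h2 : 0 ≤ (Q : ℝ) * Φ := by positivity
  nlinarith [mul_le_mul_of_nonneg_right h1 h2]

end Pool.Agent.Lib.H24P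
end

-- from Lib.H24P.P0
section

/-!
# Project H24P, chunk P0 (S/M): bounds (port of H59P/M3A, second half)
-/

open Finset

namespace Pool.Agent.Lib.H24P

open Pool.Agent.Lib.H68T Pool.Agent.Lib.H18Q Pool.Agent.Lib.H59P

/-- Proof. As `M3a_Ph`: `‖cj‖ ≤ 1`, `0 ≤ uu`. -/
theorem P0_Ph {k : ℕ} (p : Fin k → Ch) (P : Finset ℕ) (hP : ∀ l ∈ P, l.Prime) (m : Fin k → ℤ) :
    ‖Phf p P m‖ ≤ ∏ i, uu P (m i) := by
  unfold Phf
  rw [norm_prod]
  apply Finset.prod_le_prod (fun i _ => norm_nonneg _)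
  intro i _
  have h0 := M3a_uu_nonneg P hP (m i)
  rw [norm_mul, Complex.norm_real, Real.norm_of_nonneg h0]
  have h1 : ‖cj (p i) (m i)‖ ≤ 1 := by
    unfold cj
    rw [RCLike.norm_conj]
    exact DirichletCharacter.norm_le_one _ _
  calc ‖cj (p i) (m i)‖ * uu P (m i) ≤ 1 * uu P (m i) :=
        mul_le_mul_of_nonneg_right h1 h0
    _ = uu P (m i) := one_mul _

/-- Proof. `P0_Ph` and `M3a_uu` (`uu R.primeFactors m ≤ R/φ(R)`). -/
theorem P0_PhR {k : ℕ} (p : Fin k → Ch) (R : ℕ) (hR : 0 < R) (m : Fin k → ℤ) :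
    ‖Phf p R.primeFactors m‖ ≤ ((R : ℝ) / (Nat.totient R : ℝ)) ^ k := by
  refine (P0_Ph p R.primeFactors (fun l hl => Nat.prime_of_mem_primeFactors hl) m).trans ?_
  calc ∏ i, uu R.primeFactors (m i) ≤ ∏ _i : Fin k, ((R : ℝ) / (Nat.totient R : ℝ)) :=
        Finset.prod_le_prod (fun i _ => (M3a_uu R hR _).1) (fun i _ => (M3a_uu R hR _).2)
    _ = ((R : ℝ) / (Nat.totient R : ℝ)) ^ k := by
        rw [Finset.prod_const, Finset.card_univ, Fintype.card_fin]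

theorem P0_one {k : ℕ} (l : ℕ) (hl : l.Prime) (m : Fin k → ℤ) : 0 ≤ ∏ i, (1 + gl l (m i)) ∧
    ∏ i, (1 + gl l (m i)) ≤ ((l : ℝ) / ((l : ℝ) - 1)) ^ k := by
  constructor
  · exact Finset.prod_nonneg fun i _ => (M3a_gl l hl _).1
  · calc ∏ i, (1 + gl l (m i)) ≤ ∏ _i : Fin k, ((l : ℝ) / ((l : ℝ) - 1)) :=
        Finset.prod_le_prod (fun i _ => (M3a_gl l hl _).1) (fun i _ => (M3a_gl l hl _).2)
      _ = ((l : ℝ) / ((l : ℝ) - 1)) ^ k := by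
        rw [Finset.prod_const, Finset.card_univ, Fintype.card_fin]

/-- Proof. As `M3a_tp`, `M3a_td`. -/
theorem P0_W {k : ℕ} (d : ℕ) (hd : Squarefree d) (m : Fin k → ℤ) :
    |Wdf d m| ≤ ((d : ℝ) / (Nat.totient d : ℝ)) ^ k := by
  have hd0 : 0 < d := Nat.pos_of_ne_zero hd.ne_zero
  rw [← M3a_prod d hd0, ← Finset.prod_pow]
  unfold Wdf
  rw [Finset.abs_prod]
  refine Finset.prod_le_prod (fun l _ => abs_nonneg _) (fun l hl => ?_)
  have hl' := Nat.prime_of_mem_primeFactors hl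
  have hc : (1 : ℝ) ≤ ((l : ℝ) / ((l : ℝ) - 1)) ^ k := one_le_pow₀ (M3a_ratio l hl')
  have h := P0_one l hl' m
  unfold Wf
  rw [abs_le]
  constructor <;> linarith [h.1, h.2]

/-- Proof. Mean of products between `0` and `(l/(l-1))^k`. -/
theorem P0_tp {k : ℕ} (l : ℕ) (hl : l.Prime) (φ : Fin k → ℤ → ℤ) :
    0 ≤ 1 + tpf l φ ∧ 1 + tpf l φ ≤ ((l : ℝ) / ((l : ℝ) - 1)) ^ k := by
  have hl0 : (0 : ℝ) < l := by exact_mod_cast hl.pos
  unfold tpf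
  rw [add_sub_cancel]
  constructor
  · exact div_nonneg (Finset.sum_nonneg fun n _ => (P0_one l hl fun i => φ i n).1) hl0.le
  · rw [div_le_iff₀ hl0]
    calc ∑ n ∈ range l, ∏ i, (1 + gl l (φ i n))
        ≤ ∑ _n ∈ range l, ((l : ℝ) / ((l : ℝ) - 1)) ^ k :=
          Finset.sum_le_sum fun n _ => (P0_one l hl fun i => φ i n).2
      _ = ((l : ℝ) / ((l : ℝ) - 1)) ^ k * l := by
        rw [Finset.sum_const, Finset.card_range, nsmul_eq_mul, mul_comm]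

/-- Proof. `P0_PhR`, a mean of `R` terms. -/
theorem P0_MR {k : ℕ} (p : Fin k → Ch) (R : ℕ) (hR : 0 < R) (φ : Fin k → ℤ → ℤ) :
    ‖MRf p R φ‖ ≤ ((R : ℝ) / (Nat.totient R : ℝ)) ^ k := by
  have hR0 : (0 : ℝ) < R := by exact_mod_cast hR
  unfold MRf
  rw [norm_div, Complex.norm_natCast, div_le_iff₀ hR0]
  calc ‖∑ n ∈ range R, Phf p R.primeFactors (at' φ n)‖
      ≤ ∑ _n ∈ range R, ((R : ℝ) / (Nat.totient R : ℝ)) ^ k :=
        norm_sum_le_of_le _ fun n _ => P0_PhR p R hR _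
    _ = ((R : ℝ) / (Nat.totient R : ℝ)) ^ k * R := by
      rw [Finset.sum_const, Finset.card_range, nsmul_eq_mul, mul_comm]

end Pool.Agent.Lib.H24P
end

-- from Lib.H24P.Defs2
section

/-!
# Project H24P: definitions for the assembly
-/

open Finset Polynomial

namespace Pool.Agent.Lib.H24P

open Pool.Agent.Lib.H68T Pool.Agent.Lib.H18Q Pool.Agent.Lib.H59P

noncomputable section

/-- `⌊Q^x⌋` -/
def fl (Q : ℕ) (x : ℝ) : ℕ := ⌊(Q : ℝ) ^ x⌋₊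


/-- The sum with the projections in the random coordinates, the weight `w` in the linear one. -/
def Rw {k : ℕ} (Q X1 : ℕ) (P : Fin k → ℤ[X]) (M : Fin k → ℕ) (w : ℕ → ℝ) (h : Fin k → ℕ) : ℝ :=
  ∑ n ∈ Ico X1 (2 * X1), w n * ∏ i, Lk Q (Ysc (M i) / Q ^ 2) ((P i).eval (n : ℤ) + h i)


/-- The complete main term of a cell with coefficients `c`. -/
def MDf {k : ℕ} (Q m0 : ℕ) (c : Fin k → Ch → ℂ) (φ : Fin k → ℤ → ℤ) : ℂ :=
  ∑ p ∈ TSf k Q (fl Q (1 / 16)) m0, (∏ i, c i (p i)) * MQf Q p φ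


end

end Pool.Agent.Lib.H24P
end

-- from Lib.H24P.KDefs
section

/-!
# Project H24P, definitions for the core theorem and the final module
-/

open Finset Polynomial

namespace Pool.Agent.Lib.H24P

open Pool.Agent.Lib.H68T Pool.Agent.Lib.H18Q Pool.Agent.Lib.H59P

noncomputable section

/-- The number of the positive integers `n ≤ Z` for which `B(n)` and all `P_i(n) + h_i` are primes. -/
def pcount {k : ℕ} (Z : ℕ) (B : ℤ[X]) (P : Fin k → ℤ[X]) (h : Fin k → ℕ) : ℕ :=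
  ((Icc 1 Z).filter (fun n : ℕ => (B.eval (n : ℤ)).toNat.Prime ∧
    ∀ i, ((P i).eval (n : ℤ) + (h i : ℤ)).toNat.Prime)).card

/-- The linear coordinate: degree `1`, leading coefficient at most `A` in absolute value, and for
`Z^(1-ε) ≤ n ≤ Z/A` the values are between `n/2` and `A Z` and vary on `[n, 2n)` by a factor less than `3`. -/
structure OKB (A : ℕ) (ε : ℝ) (Z : ℕ) (B : ℤ[X]) : Prop where
  deg : B.natDegree = 1
  lc : B.leadingCoeff.natAbs ≤ A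
  lo : ∀ n : ℕ, (Z : ℝ) ^ (1 - ε) ≤ n → A * n ≤ Z → (n : ℤ) ≤ 2 * B.eval (n : ℤ)
  hi : ∀ n : ℕ, (Z : ℝ) ^ (1 - ε) ≤ n → A * n ≤ Z → B.eval (n : ℤ) ≤ A * Z
  cmp1 : ∀ n n' : ℕ, (Z : ℝ) ^ (1 - ε) ≤ n → A * n ≤ Z → n ≤ n' → n' < 2 * n →
    B.eval (n' : ℤ) < 3 * B.eval (n : ℤ)
  cmp2 : ∀ n n' : ℕ, (Z : ℝ) ^ (1 - ε) ≤ n → A * n ≤ Z → n ≤ n' → n' < 2 * n →
    B.eval (n : ℤ) < 3 * B.eval (n' : ℤ)




end

end Pool.Agent.Lib.H24P
end

-- from Lib.H24P.ZDefs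
section

/-!
# Project H24P: definitions for module Z
-/

open Finset Polynomial

namespace Pool.Agent.Lib.H24P

open Pool.Agent.Lib.H68T Pool.Agent.Lib.H18Q Pool.Agent.Lib.H59P

noncomputable section

/-- The truncated main term of a cell with coefficients `c`. -/
def MCf {k : ℕ} (Q m0 : ℕ) (c : Fin k → Ch → ℂ) (φ : Fin k → ℤ → ℤ) : ℂ :=
  ∑ p ∈ TSf k Q (fl Q (1 / 16)) m0, (∏ i, c i (p i)) * (MRf p (Rf m0 p) φ *
    ((∑ d ∈ SF (fl Q (1 / 2) / Rf m0 p) (Rf m0 p), tdf d φ : ℝ) : ℂ))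



/-- The weighted number of prime values. -/
def RPh {k : ℕ} (X1 : ℕ) (B : ℤ[X]) (P : Fin k → ℤ[X]) (h : Fin k → ℕ) : ℝ :=
  ∑ n ∈ Ico X1 (2 * X1), lp (B.eval (n : ℤ)) * ∏ i, lp ((P i).eval (n : ℤ) + h i)

end

end Pool.Agent.Lib.H24P
end

-- from Lib.H24P.G1
section

/-!
# Project H24P, chunk G1 (S/M): numerical facts
-/

open Finset Polynomial

namespace Pool.Agent.Lib.H24P

theorem G1_aux (K s ε : ℝ) (hε : 0 < ε) : ∃ Q0 : ℕ, 3 ≤ Q0 ∧ ∀ Q : ℕ, Q0 ≤ Q →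
    K * (Real.log Q) ^ s ≤ (Q : ℝ) ^ ε := by
  have h := isLittleO_log_rpow_rpow_atTop s hε
  have hc : (0:ℝ) < 1 / (|K| + 1) := by positivity
  have h1 := h.bound hc
  obtain ⟨x0, hx0⟩ := Filter.eventually_atTop.1 h1
  refine ⟨max 3 ⌈x0⌉₊, le_max_left _ _, fun Q hQ => ?_⟩
  have hQ3 : 3 ≤ Q := (le_max_left _ _).trans hQ
  have hQ0 : (0:ℝ) < Q := by exact_mod_cast (show 0 < Q by omega)
  have hQx : x0 ≤ Q := (Nat.le_ceil x0).trans (by exact_mod_cast (le_max_right _ _).trans hQ)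
  have h2 := hx0 Q hQx
  have hlog : 0 ≤ Real.log Q := Real.log_natCast_nonneg Q
  rw [Real.norm_of_nonneg (Real.rpow_nonneg hlog _), Real.norm_of_nonneg (Real.rpow_nonneg hQ0.le _)] at h2
  have h3 : 0 ≤ (Real.log Q) ^ s := Real.rpow_nonneg hlog _
  have h4 : (|K| + 1) * (Real.log Q) ^ s ≤ (Q : ℝ) ^ ε := by
    calc (|K| + 1) * (Real.log Q) ^ s ≤ (|K| + 1) * (1 / (|K| + 1) * (Q : ℝ) ^ ε) :=
          mul_le_mul_of_nonneg_left h2 (by positivity)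
      _ = (Q : ℝ) ^ ε := by field_simp
  have h5 : K ≤ |K| + 1 := (le_abs_self K).trans (by linarith)
  exact (mul_le_mul_of_nonneg_right h5 h3).trans h4

theorem G1_log1 {Q : ℕ} (hQ : 3 ≤ Q) : 1 ≤ Real.log Q := by
  rw [Real.le_log_iff_exp_le (by exact_mod_cast (show 0 < Q by omega))]
  have h1 := Real.exp_one_lt_d9
  have h2 : (3:ℝ) ≤ Q := by exact_mod_cast hQ
  linarith

/-- Powers of logarithms are small against powers of `Q`. Proof. `log X ≤ C log Q`, so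
`a (log X)^n ≤ |a| |C|^n (log Q)^n`, which is `≤ Q^ε` for large `Q` (`isLittleO_log_rpow_atTop` or
`Real.add_one_le_exp`). -/
theorem G1_log (C : ℝ) (n : ℕ) (a ε : ℝ) (hε : 0 < ε) : ∃ Q0 : ℕ, 1 ≤ Q0 ∧ ∀ Q X : ℕ, Q0 ≤ Q →
    Real.log X ≤ C * Real.log Q → a * (Real.log X) ^ n ≤ (Q : ℝ) ^ ε := by
  obtain ⟨Q0, h3, h⟩ := G1_aux (|a| * |C| ^ n) n ε hε
  refine ⟨Q0, by omega, fun Q X hQ hX => ?_⟩
  have h0 := Real.log_natCast_nonneg X
  have hlog : 0 ≤ Real.log Q := Real.log_natCast_nonneg Q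
  have h1 : Real.log X ≤ |C| * Real.log Q := hX.trans (mul_le_mul_of_nonneg_right (le_abs_self C) hlog)
  calc a * (Real.log X) ^ n ≤ |a| * (|C| * Real.log Q) ^ n := by
        refine mul_le_mul (le_abs_self a) (pow_le_pow_left₀ h0 h1 n) (pow_nonneg h0 n) (abs_nonneg a)
    _ = |a| * |C| ^ n * (Real.log Q) ^ (n : ℝ) := by
        rw [mul_pow, Real.rpow_natCast]
        ring
    _ ≤ (Q : ℝ) ^ ε := h Q hQ

/-- The same with a real exponent. -/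
theorem G1_rlog (a b ε : ℝ) (hε : 0 < ε) : ∃ Q0 : ℕ, 1 ≤ Q0 ∧ ∀ Q : ℕ, Q0 ≤ Q →
    a * (1 + Real.log Q) ^ b ≤ (Q : ℝ) ^ ε := by
  obtain ⟨Q0, h3, h⟩ := G1_aux (|a| * 2 ^ |b|) |b| ε hε
  refine ⟨Q0, by omega, fun Q hQ => ?_⟩
  have hlog : 1 ≤ Real.log Q := G1_log1 (h3.trans hQ)
  have h1 : (1 + Real.log Q) ^ b ≤ 2 ^ |b| * (Real.log Q) ^ |b| := by
    calc (1 + Real.log Q) ^ b ≤ (1 + Real.log Q) ^ |b| :=
          Real.rpow_le_rpow_of_exponent_le (by linarith) (le_abs_self b)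
      _ ≤ (2 * Real.log Q) ^ |b| := Real.rpow_le_rpow (by linarith) (by linarith) (abs_nonneg b)
      _ = 2 ^ |b| * (Real.log Q) ^ |b| := Real.mul_rpow (by norm_num) (by linarith)
  calc a * (1 + Real.log Q) ^ b ≤ |a| * (2 ^ |b| * (Real.log Q) ^ |b|) :=
        mul_le_mul (le_abs_self a) h1 (Real.rpow_nonneg (by linarith) _) (abs_nonneg a)
    _ = |a| * 2 ^ |b| * (Real.log Q) ^ |b| := by ring
    _ ≤ (Q : ℝ) ^ ε := h Q hQ

/-- In the regime everything is large: `log X ≥ K log Q`, `X ≥ Q`, `log log X`. -/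
theorem G1_one {Q : ℕ} {x : ℝ} (hQ : 1 ≤ Q) (hx : 0 ≤ x) : 1 ≤ fl Q x ∧ (fl Q x : ℝ) ≤ (Q : ℝ) ^ x ∧
    (Q : ℝ) ^ x ≤ 2 * (fl Q x : ℝ) := by
  have hQ1 : (1:ℝ) ≤ Q := by exact_mod_cast hQ
  have h1 : 1 ≤ (Q : ℝ) ^ x := Real.one_le_rpow hQ1 hx
  have h2 : 1 ≤ fl Q x := Nat.le_floor (by rw [Nat.cast_one]; exact h1)
  have h3 : (fl Q x : ℝ) ≤ (Q : ℝ) ^ x := Nat.floor_le (by linarith)
  have h4 : (Q : ℝ) ^ x < fl Q x + 1 := Nat.lt_floor_add_one _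
  have h5 : (1:ℝ) ≤ fl Q x := by exact_mod_cast h2
  exact ⟨h2, h3, by linarith⟩

theorem G1_le {Q : ℕ} {x : ℝ} (hQ : 1 ≤ Q) (hx : 0 ≤ x) (hx1 : x ≤ 1) : fl Q x ≤ Q := by
  have hQ1 : (1:ℝ) ≤ Q := by exact_mod_cast hQ
  refine Nat.floor_le_of_le ?_
  calc (Q : ℝ) ^ x ≤ (Q : ℝ) ^ (1:ℝ) := Real.rpow_le_rpow_of_exponent_le hQ1 hx1
    _ = Q := Real.rpow_one _

/-- Powers of `fl Q x`: `(fl Q x)^(-c) ≤ 2^c Q^(-c x)`. -/
theorem G1_neg {Q : ℕ} {x c : ℝ} (hQ : 1 ≤ Q) (hx : 0 ≤ x) (hc : 0 ≤ c) :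
    (fl Q x : ℝ) ^ (-c) ≤ 2 ^ c * (Q : ℝ) ^ (-(c * x)) := by
  have hQ0 : (0:ℝ) < Q := by exact_mod_cast hQ
  obtain ⟨h1, -, h3⟩ := G1_one hQ hx
  have h4 : 0 < (Q : ℝ) ^ x / 2 := by positivity
  calc (fl Q x : ℝ) ^ (-c) ≤ ((Q : ℝ) ^ x / 2) ^ (-c) :=
        Real.rpow_le_rpow_of_nonpos h4 (by linarith) (by linarith)
    _ = 2 ^ c * (Q : ℝ) ^ (-(c * x)) := by
        rw [Real.div_rpow (by positivity) (by norm_num), ← Real.rpow_mul hQ0.le,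
          Real.rpow_neg (by norm_num : (0:ℝ) ≤ 2) c, div_inv_eq_mul, mul_comm]
        congr 2
        ring

/-- Sizes. `m0 ≤ A Q^(1/100)`. Proof. `Q` large in terms of `A`. -/
theorem G1_size (A : ℕ) : ∃ Q0 : ℕ, 1 ≤ Q0 ∧ ∀ Q : ℕ, Q0 ≤ Q → ∀ r a : ℕ, 1 ≤ a → a ≤ A → r ^ 100 ≤ Q →
    a * r ≤ fl Q (1 / 16) ∧ fl Q (1 / 16) ≤ fl Q (1 / 2) ∧
    a * r * fl Q (1 / 32) * (a * fl Q (1 / 128)) < fl Q (1 / 16) ∧
    fl Q (1 / 2) * fl Q (1 / 2) ≤ Q ∧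
    ∀ R : ℕ, 1 ≤ R → R ≤ fl Q (1 / 16) → (Q : ℝ) ^ (1 / 4 : ℝ) ≤ ((fl Q (1 / 2) / R : ℕ) : ℝ) := by
  obtain ⟨Q0, h3, hK⟩ := G1_aux (4 * (A + 1) ^ 2 + 4) 0 (1 / 100) (by norm_num)
  refine ⟨Q0, by omega, fun Q hQ r a ha1 haA hr => ?_⟩
  have hQ3 := h3.trans hQ
  have hQ1 : 1 ≤ Q := by omega
  have hQr : (1:ℝ) ≤ Q := by exact_mod_cast hQ1
  have hQ0 : (0:ℝ) < Q := by linarith
  have k1 := hK Q hQ
  rw [Real.rpow_zero, mul_one] at k1
  have haA' : (a:ℝ) ≤ A := by exact_mod_cast haA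
  have ha1' : (1:ℝ) ≤ a := by exact_mod_cast ha1
  have hA1 : (1:ℝ) ≤ A := ha1'.trans haA'
  -- r is at most Q^(1/100)
  have hr' : (r:ℝ) ≤ (Q:ℝ) ^ (1 / 100 : ℝ) := by
    have h1 : ((r:ℝ)) ^ 100 ≤ Q := by exact_mod_cast hr
    have h2 : (r:ℝ) = (((r:ℝ)) ^ 100) ^ (1 / 100 : ℝ) := by
      rw [← Real.rpow_natCast, ← Real.rpow_mul (Nat.cast_nonneg r)]
      norm_num
    rw [h2]
    exact Real.rpow_le_rpow (by positivity) h1 (by norm_num)
  have hr0 : (0:ℝ) ≤ r := Nat.cast_nonneg r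
  set u := (Q:ℝ) ^ (1 / 100 : ℝ) with hu
  have hu0 : 0 < u := Real.rpow_pos_of_pos hQ0 _
  have o16 := G1_one (x := 1 / 16) hQ1 (by norm_num)
  have o2 := G1_one (x := 1 / 2) hQ1 (by norm_num)
  have o32 := G1_one (x := 1 / 32) hQ1 (by norm_num)
  have o128 := G1_one (x := 1 / 128) hQ1 (by norm_num)
  have hmono : ∀ x y : ℝ, x ≤ y → (Q:ℝ) ^ x ≤ (Q:ℝ) ^ y := fun x y h =>
    Real.rpow_le_rpow_of_exponent_le hQr h
  refine ⟨?_, ?_, ?_, ?_, ?_⟩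
  · refine Nat.le_floor ?_
    push_cast
    calc (a:ℝ) * r ≤ u * u := by
          refine mul_le_mul ?_ hr' hr0 hu0.le
          nlinarith
      _ = (Q:ℝ) ^ (1 / 50 : ℝ) := by
          rw [hu, ← Real.rpow_add hQ0]
          norm_num
      _ ≤ (Q:ℝ) ^ (1 / 16 : ℝ) := hmono _ _ (by norm_num)
  · exact Nat.floor_le_floor (hmono _ _ (by norm_num))
  · have h1 : ((a:ℝ) * r * fl Q (1 / 32)) * (a * fl Q (1 / 128)) < fl Q (1 / 16) := by
      have e1 : ((a:ℝ) * r * fl Q (1 / 32)) * (a * fl Q (1 / 128)) ≤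
          ((A:ℝ) * u * (Q:ℝ) ^ (1 / 32 : ℝ)) * (A * (Q:ℝ) ^ (1 / 128 : ℝ)) := by
        have n32 : (0:ℝ) ≤ fl Q (1 / 32) := Nat.cast_nonneg _
        have n128 : (0:ℝ) ≤ fl Q (1 / 128) := Nat.cast_nonneg _
        have := o32.2.1
        have := o128.2.1
        gcongr
      have e2 : ((A:ℝ) * u * (Q:ℝ) ^ (1 / 32 : ℝ)) * (A * (Q:ℝ) ^ (1 / 128 : ℝ)) =
          (A:ℝ) ^ 2 * (Q:ℝ) ^ (1 / 100 + 1 / 32 + 1 / 128 : ℝ) := by
        rw [Real.rpow_add hQ0, Real.rpow_add hQ0, hu]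
        ring
      have e3 : 4 * ((A:ℝ) ^ 2 * (Q:ℝ) ^ (1 / 100 + 1 / 32 + 1 / 128 : ℝ)) ≤ (Q:ℝ) ^ (1 / 16 : ℝ) := by
        calc 4 * ((A:ℝ) ^ 2 * (Q:ℝ) ^ (1 / 100 + 1 / 32 + 1 / 128 : ℝ))
            = (4 * (A:ℝ) ^ 2) * (Q:ℝ) ^ (1 / 100 + 1 / 32 + 1 / 128 : ℝ) := by ring
          _ ≤ (Q:ℝ) ^ (1 / 100 : ℝ) * (Q:ℝ) ^ (1 / 100 + 1 / 32 + 1 / 128 : ℝ) := by
              refine mul_le_mul_of_nonneg_right ?_ (Real.rpow_nonneg hQ0.le _)
              refine le_trans ?_ k1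
              nlinarith
          _ = (Q:ℝ) ^ (1 / 100 + (1 / 100 + 1 / 32 + 1 / 128) : ℝ) := (Real.rpow_add hQ0 _ _).symm
          _ ≤ (Q:ℝ) ^ (1 / 16 : ℝ) := hmono _ _ (by norm_num)
      have e4 : 0 < (A:ℝ) ^ 2 * (Q:ℝ) ^ (1 / 100 + 1 / 32 + 1 / 128 : ℝ) := by positivity
      have := o16.2.2
      rw [e2] at e1
      linarith
    exact_mod_cast h1
  · have h1 : (fl Q (1 / 2) : ℝ) * fl Q (1 / 2) ≤ Q := by
      calc (fl Q (1 / 2) : ℝ) * fl Q (1 / 2) ≤ (Q:ℝ) ^ (1 / 2 : ℝ) * (Q:ℝ) ^ (1 / 2 : ℝ) :=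
            mul_le_mul o2.2.1 o2.2.1 (Nat.cast_nonneg _) (Real.rpow_nonneg hQ0.le _)
        _ = Q := by
            rw [← Real.rpow_add hQ0]
            norm_num
    exact_mod_cast h1
  · intro R hR1 hR
    have hR0 : (0:ℝ) < R := by exact_mod_cast hR1
    have hRle : (R:ℝ) ≤ (Q:ℝ) ^ (1 / 16 : ℝ) := le_trans (by exact_mod_cast hR) o16.2.1
    have h1 : (fl Q (1 / 2) : ℝ) < R * (((fl Q (1 / 2) / R : ℕ) : ℝ) + 1) := by
      exact_mod_cast Nat.lt_mul_div_succ (fl Q (1 / 2)) hR1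
    set D : ℝ := ((fl Q (1 / 2) / R : ℕ) : ℝ) with hD
    have hD0 : 0 ≤ D := Nat.cast_nonneg _
    have h2 : (Q:ℝ) ^ (1 / 2 : ℝ) ≤ 2 * ((Q:ℝ) ^ (1 / 16 : ℝ) * (D + 1)) := by
      have h3 : (R:ℝ) * (D + 1) ≤ (Q:ℝ) ^ (1 / 16 : ℝ) * (D + 1) :=
        mul_le_mul_of_nonneg_right hRle (by linarith)
      linarith [o2.2.2]
    have h4 : (Q:ℝ) ^ (1 / 16 : ℝ) * (4 * (Q:ℝ) ^ (1 / 4 : ℝ)) ≤ (Q:ℝ) ^ (1 / 2 : ℝ) := by
      calc (Q:ℝ) ^ (1 / 16 : ℝ) * (4 * (Q:ℝ) ^ (1 / 4 : ℝ))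
          ≤ (Q:ℝ) ^ (1 / 16 : ℝ) * ((Q:ℝ) ^ (1 / 100 : ℝ) * (Q:ℝ) ^ (1 / 4 : ℝ)) := by
            refine mul_le_mul_of_nonneg_left ?_ (Real.rpow_nonneg hQ0.le _)
            refine mul_le_mul_of_nonneg_right ?_ (Real.rpow_nonneg hQ0.le _)
            refine le_trans ?_ k1
            nlinarith
        _ = (Q:ℝ) ^ (1 / 16 + (1 / 100 + 1 / 4) : ℝ) := by
            rw [Real.rpow_add hQ0, Real.rpow_add hQ0]
        _ ≤ (Q:ℝ) ^ (1 / 2 : ℝ) := hmono _ _ (by norm_num)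
    have hp16 : 0 < (Q:ℝ) ^ (1 / 16 : ℝ) := Real.rpow_pos_of_pos hQ0 _
    have h5 : 4 * (Q:ℝ) ^ (1 / 4 : ℝ) ≤ 2 * (D + 1) := by
      have h6 : (Q:ℝ) ^ (1 / 16 : ℝ) * (4 * (Q:ℝ) ^ (1 / 4 : ℝ)) ≤ (Q:ℝ) ^ (1 / 16 : ℝ) * (2 * (D + 1)) := by
        refine h4.trans (h2.trans (le_of_eq ?_))
        ring
      exact le_of_mul_le_mul_left h6 hp16
    have h7 : 1 ≤ (Q:ℝ) ^ (1 / 4 : ℝ) := Real.one_le_rpow hQr (by norm_num)
    linarith

end Pool.Agent.Lib.H24P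
end

-- from Lib.H59T.UA
section

/-!
# Project H59T, chunk UA (M): three Cauchy-Schwarz steps with short shifts, on `ZMod M`
-/

open Finset

namespace Pool.Agent.Lib.H59T

/-- Cauchy-Schwarz with bounded coefficients -/
theorem ua_cs {ι : Type} (s : Finset ι) (u v : ι → ℂ) (hu : ∀ i ∈ s, ‖u i‖ ≤ 1) :
    ‖∑ i ∈ s, u i * v i‖ ^ 2 ≤ s.card * ∑ i ∈ s, ‖v i‖ ^ 2 := by
  have h1 : ‖∑ i ∈ s, u i * v i‖ ≤ ∑ i ∈ s, ‖v i‖ := by
    refine (norm_sum_le _ _).trans (Finset.sum_le_sum fun i hi => ?_)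
    rw [norm_mul]
    exact mul_le_of_le_one_left (norm_nonneg _) (hu i hi)
  have h2 : (∑ i ∈ s, ‖v i‖) ^ 2 ≤ s.card * ∑ i ∈ s, ‖v i‖ ^ 2 := sq_sum_le_card_mul_sum_sq
  exact (pow_le_pow_left₀ (norm_nonneg _) h1 2).trans h2

/-- average over shifts -/
theorem ua_shift (M H : ℕ) [NeZero M] (φ : ZMod M → ℂ) (c : ℕ → ZMod M) :
    (H : ℂ) * ∑ y, φ y = ∑ y, ∑ h ∈ range H, φ (y + c h) := by
  rw [Finset.sum_comm]
  have h1 : ∀ h ∈ range H, ∑ y, φ (y + c h) = ∑ y, φ y := fun h _ =>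
    Equiv.sum_comp (Equiv.addRight (c h)) φ
  rw [Finset.sum_congr rfl h1, Finset.sum_const, Finset.card_range, nsmul_eq_mul]

/-- the square of a sum as a double sum -/
theorem ua_sq (H : ℕ) (a : ℕ → ℂ) : ((‖∑ h ∈ range H, a h‖ ^ 2 : ℝ) : ℂ) =
    ∑ h ∈ range H, ∑ h' ∈ range H, a h * star (a h') := by
  have h1 : ((‖∑ h ∈ range H, a h‖ ^ 2 : ℝ) : ℂ) = (∑ h ∈ range H, a h) * star (∑ h ∈ range H, a h) := by
    have h2 : star (∑ h ∈ range H, a h) = (starRingEnd ℂ) (∑ h ∈ range H, a h) := rfl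
    rw [h2, Complex.mul_conj, Complex.normSq_eq_norm_sq]
  rw [h1, star_sum, Finset.sum_mul_sum]

/-- step 1 -/
theorem ua_one (M H : ℕ) [NeZero M] (f g F W : ZMod M → ℂ) (hf : ∀ x, ‖f x‖ ≤ 1) :
    (H : ℝ) ^ 2 * ‖∑ x : ZMod M, ∑ y : ZMod M, f x * g y * F (x + y) * W (x - y)‖ ^ 2 ≤
      (M : ℝ) ^ 2 * ∑ x : ZMod M, ∑ y : ZMod M,
        ‖∑ h ∈ range H, g (y + h) * F (x + y + h) * W (x - y - h)‖ ^ 2 := by
  have h1 : (H : ℂ) * ∑ x : ZMod M, ∑ y : ZMod M, f x * g y * F (x + y) * W (x - y) =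
      ∑ q : ZMod M × ZMod M, f q.1 *
        ∑ h ∈ range H, g (q.2 + h) * F (q.1 + q.2 + h) * W (q.1 - q.2 - h) := by
    rw [Fintype.sum_prod_type, Finset.mul_sum]
    refine Finset.sum_congr rfl fun x _ => ?_
    rw [ua_shift M H (fun y => f x * g y * F (x + y) * W (x - y)) (fun h => (h : ZMod M))]
    refine Finset.sum_congr rfl fun y _ => ?_
    rw [Finset.mul_sum]
    refine Finset.sum_congr rfl fun h _ => ?_
    have e1 : x + (y + (h : ZMod M)) = x + y + h := by ring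
    have e2 : x - (y + (h : ZMod M)) = x - y - h := by ring
    simp only [e1, e2]
    ring
  have h2 := ua_cs (univ : Finset (ZMod M × ZMod M)) (fun q => f q.1)
    (fun q => ∑ h ∈ range H, g (q.2 + h) * F (q.1 + q.2 + h) * W (q.1 - q.2 - h)) (fun q _ => hf _)
  rw [← h1, norm_mul, mul_pow, Complex.norm_natCast] at h2
  rw [Finset.card_univ, Fintype.card_prod, ZMod.card, Fintype.sum_prod_type] at h2
  push_cast at h2
  rw [pow_two (M : ℝ)]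
  exact h2

/-- step 2 -/
theorem ua_two (M H : ℕ) [NeZero M] (hH : 0 < H) (g F W : ZMod M → ℂ) (hg : ∀ x, ‖g x‖ ≤ 1) :
    (∑ x : ZMod M, ∑ y : ZMod M,
        ‖∑ h ∈ range H, g (y + h) * F (x + y + h) * W (x - y - h)‖ ^ 2) ^ 2 ≤
      (M : ℝ) ^ 2 * ∑ h ∈ range H, ∑ h' ∈ range H, ∑ x : ZMod M, ∑ y : ZMod M,
        ‖∑ k ∈ range H, (F (x + y + h + k) * star (F (x + y + h' + k))) *
          (W (x - y - h + k) * star (W (x - y - h' + k)))‖ ^ 2 := by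
  obtain ⟨T1, hT1⟩ : ∃ T1 : ℝ, T1 = ∑ x : ZMod M, ∑ y : ZMod M,
        ‖∑ h ∈ range H, g (y + h) * F (x + y + h) * W (x - y - h)‖ ^ 2 := ⟨_, rfl⟩
  rw [← hT1]
  have h1 : (H : ℂ) * (T1 : ℂ) =
      ∑ q ∈ (range H ×ˢ range H) ×ˢ (univ : Finset (ZMod M × ZMod M)),
        (g (q.2.2 + q.1.1) * star (g (q.2.2 + q.1.2))) *
        ∑ k ∈ range H, (F (q.2.1 + q.2.2 + q.1.1 + k) * star (F (q.2.1 + q.2.2 + q.1.2 + k))) *
          (W (q.2.1 - q.2.2 - q.1.1 + k) * star (W (q.2.1 - q.2.2 - q.1.2 + k))) := by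
    rw [Finset.sum_product, Finset.sum_product, hT1]
    push_cast
    have e0 : ∀ x y : ZMod M, ((‖∑ h ∈ range H, g (y + h) * F (x + y + h) * W (x - y - h)‖ : ℂ)) ^ 2 =
        ∑ h ∈ range H, ∑ h' ∈ range H, (g (y + h) * F (x + y + h) * W (x - y - h)) *
          star (g (y + h') * F (x + y + h') * W (x - y - h')) := by
      intro x y
      have := ua_sq H (fun h : ℕ => g (y + h) * F (x + y + h) * W (x - y - h))
      push_cast at this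
      exact this
    simp only [e0]
    have e1 : ∀ x : ZMod M, ∑ y : ZMod M, ∑ h ∈ range H, ∑ h' ∈ range H,
        (g (y + h) * F (x + y + h) * W (x - y - h)) *
          star (g (y + h') * F (x + y + h') * W (x - y - h')) =
        ∑ h ∈ range H, ∑ h' ∈ range H, ∑ y : ZMod M,
        (g (y + h) * F (x + y + h) * W (x - y - h)) *
          star (g (y + h') * F (x + y + h') * W (x - y - h')) := by
      intro x
      rw [Finset.sum_comm]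
      refine Finset.sum_congr rfl fun h _ => ?_
      rw [Finset.sum_comm]
    simp only [e1]
    rw [Finset.sum_comm, Finset.mul_sum]
    refine Finset.sum_congr rfl fun h _ => ?_
    rw [Finset.sum_comm, Finset.mul_sum]
    refine Finset.sum_congr rfl fun h' _ => ?_
    rw [Fintype.sum_prod_type, Finset.sum_comm, Finset.mul_sum, Finset.sum_comm (s := (univ : Finset (ZMod M)))]
    refine Finset.sum_congr rfl fun y _ => ?_
    rw [ua_shift M H (fun x => (g (y + h) * F (x + y + h) * W (x - y - h)) *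
          star (g (y + h') * F (x + y + h') * W (x - y - h'))) (fun k => (k : ZMod M))]
    refine Finset.sum_congr rfl fun x _ => ?_
    rw [Finset.mul_sum]
    refine Finset.sum_congr rfl fun k _ => ?_
    have e2 : x + (k : ZMod M) + y + h = x + y + h + k := by ring
    have e3 : x + (k : ZMod M) + y + h' = x + y + h' + k := by ring
    have e4 : x + (k : ZMod M) - y - h = x - y - h + k := by ring
    have e5 : x + (k : ZMod M) - y - h' = x - y - h' + k := by ring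
    simp only [e2, e3, e4, e5, star_mul']
    ring
  have h2 := ua_cs ((range H ×ˢ range H) ×ˢ (univ : Finset (ZMod M × ZMod M)))
    (fun q => g (q.2.2 + q.1.1) * star (g (q.2.2 + q.1.2)))
    (fun q => ∑ k ∈ range H, (F (q.2.1 + q.2.2 + q.1.1 + k) * star (F (q.2.1 + q.2.2 + q.1.2 + k))) *
          (W (q.2.1 - q.2.2 - q.1.1 + k) * star (W (q.2.1 - q.2.2 - q.1.2 + k)))) (fun q _ => by
      rw [norm_mul, norm_star]
      exact mul_le_one₀ (hg _) (norm_nonneg _) (hg _))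
  rw [← h1, norm_mul, mul_pow, Complex.norm_natCast, Complex.norm_real, Real.norm_eq_abs, sq_abs] at h2
  rw [Finset.card_product, Finset.card_product, Finset.card_range, Finset.card_univ,
    Fintype.card_prod, ZMod.card, Finset.sum_product, Finset.sum_product] at h2
  simp only [Fintype.sum_prod_type] at h2
  push_cast at h2
  have hH0 : (0 : ℝ) < (H : ℝ) ^ 2 := by positivity
  refine le_of_mul_le_mul_left ?_ hH0
  calc (H : ℝ) ^ 2 * T1 ^ 2 ≤ _ := h2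
    _ = _ := by ring

/-- step 3 -/
theorem ua_three (M H : ℕ) [NeZero M] (hH : 0 < H) (F W : ZMod M → ℂ) (hW : ∀ x, ‖W x‖ ≤ 1) :
    (∑ h ∈ range H, ∑ h' ∈ range H, ∑ x : ZMod M, ∑ y : ZMod M,
        ‖∑ k ∈ range H, (F (x + y + h + k) * star (F (x + y + h' + k))) *
          (W (x - y - h + k) * star (W (x - y - h' + k)))‖ ^ 2) ^ 2 ≤
      (H : ℝ) ^ 2 * (M : ℝ) ^ 3 * ∑ m : ZMod M, ∑ h ∈ range H, ∑ h' ∈ range H, ∑ k ∈ range H,
        ∑ k' ∈ range H, ‖∑ t ∈ range H, F (m + 2 * (t : ZMod M) + h + k) *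
          star (F (m + 2 * (t : ZMod M) + h' + k)) * star (F (m + 2 * (t : ZMod M) + h + k')) *
          F (m + 2 * (t : ZMod M) + h' + k')‖ ^ 2 := by
  obtain ⟨T2, hT2⟩ : ∃ T2 : ℝ, T2 = ∑ h ∈ range H, ∑ h' ∈ range H, ∑ x : ZMod M, ∑ y : ZMod M,
        ‖∑ k ∈ range H, (F (x + y + h + k) * star (F (x + y + h' + k))) *
          (W (x - y - h + k) * star (W (x - y - h' + k)))‖ ^ 2 := ⟨_, rfl⟩
  rw [← hT2]
  have h1 : (H : ℂ) * (T2 : ℂ) =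
      ∑ q ∈ ((range H ×ˢ range H) ×ˢ (range H ×ˢ range H)) ×ˢ (univ : Finset (ZMod M × ZMod M)),
        ((W (q.2.1 - q.2.2 - q.1.1.1 + q.1.2.1) * star (W (q.2.1 - q.2.2 - q.1.1.2 + q.1.2.1))) *
          star (W (q.2.1 - q.2.2 - q.1.1.1 + q.1.2.2) * star (W (q.2.1 - q.2.2 - q.1.1.2 + q.1.2.2)))) *
        ∑ t ∈ range H, F (q.2.1 + q.2.2 + 2 * (t : ZMod M) + q.1.1.1 + q.1.2.1) *
          star (F (q.2.1 + q.2.2 + 2 * (t : ZMod M) + q.1.1.2 + q.1.2.1)) *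
          star (F (q.2.1 + q.2.2 + 2 * (t : ZMod M) + q.1.1.1 + q.1.2.2)) *
          F (q.2.1 + q.2.2 + 2 * (t : ZMod M) + q.1.1.2 + q.1.2.2) := by
    rw [Finset.sum_product, Finset.sum_product, Finset.sum_product, hT2]
    simp only [Finset.sum_product]
    push_cast
    rw [Finset.mul_sum]
    refine Finset.sum_congr rfl fun h _ => ?_
    rw [Finset.mul_sum]
    refine Finset.sum_congr rfl fun h' _ => ?_
    have e0 : ∀ x y : ZMod M, ((‖∑ k ∈ range H, (F (x + y + h + k) * star (F (x + y + h' + k))) *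
          (W (x - y - h + k) * star (W (x - y - h' + k)))‖ : ℂ)) ^ 2 =
        ∑ k ∈ range H, ∑ k' ∈ range H, ((F (x + y + h + k) * star (F (x + y + h' + k))) *
          (W (x - y - h + k) * star (W (x - y - h' + k)))) *
          star ((F (x + y + h + k') * star (F (x + y + h' + k'))) *
          (W (x - y - h + k') * star (W (x - y - h' + k')))) := by
      intro x y
      have := ua_sq H (fun k : ℕ => (F (x + y + h + k) * star (F (x + y + h' + k))) *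
          (W (x - y - h + k) * star (W (x - y - h' + k))))
      push_cast at this
      exact this
    simp only [e0]
    have e1 : ∀ x : ZMod M, ∑ y : ZMod M, ∑ k ∈ range H, ∑ k' ∈ range H,
        ((F (x + y + h + k) * star (F (x + y + h' + k))) *
          (W (x - y - h + k) * star (W (x - y - h' + k)))) *
          star ((F (x + y + h + k') * star (F (x + y + h' + k'))) *
          (W (x - y - h + k') * star (W (x - y - h' + k')))) =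
        ∑ k ∈ range H, ∑ k' ∈ range H, ∑ y : ZMod M,
        ((F (x + y + h + k) * star (F (x + y + h' + k))) *
          (W (x - y - h + k) * star (W (x - y - h' + k)))) *
          star ((F (x + y + h + k') * star (F (x + y + h' + k'))) *
          (W (x - y - h + k') * star (W (x - y - h' + k')))) := by
      intro x
      rw [Finset.sum_comm]
      refine Finset.sum_congr rfl fun h _ => ?_
      rw [Finset.sum_comm]
    simp only [e1]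
    rw [Finset.sum_comm, Finset.mul_sum]
    refine Finset.sum_congr rfl fun k _ => ?_
    rw [Finset.sum_comm, Finset.mul_sum]
    refine Finset.sum_congr rfl fun k' _ => ?_
    rw [Fintype.sum_prod_type]
    -- shift along the diagonal
    obtain ⟨φ, hφ⟩ : ∃ φ : ZMod M × ZMod M → ℂ, φ = fun q => ((F (q.1 + q.2 + h + k) * star (F (q.1 + q.2 + h' + k))) *
          (W (q.1 - q.2 - h + k) * star (W (q.1 - q.2 - h' + k)))) *
          star ((F (q.1 + q.2 + h + k') * star (F (q.1 + q.2 + h' + k'))) *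
          (W (q.1 - q.2 - h + k') * star (W (q.1 - q.2 - h' + k')))) := ⟨_, rfl⟩
    have e2 : ∑ x : ZMod M, ∑ y : ZMod M, ((F (x + y + h + k) * star (F (x + y + h' + k))) *
          (W (x - y - h + k) * star (W (x - y - h' + k)))) *
          star ((F (x + y + h + k') * star (F (x + y + h' + k'))) *
          (W (x - y - h + k') * star (W (x - y - h' + k')))) = ∑ q, φ q := by
      rw [Fintype.sum_prod_type, hφ]
    rw [e2]
    have e3 : ∀ t ∈ range H, ∑ q : ZMod M × ZMod M, φ (q + ((t : ZMod M), (t : ZMod M))) = ∑ q, φ q :=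
      fun t _ => Equiv.sum_comp (Equiv.addRight ((t : ZMod M), (t : ZMod M))) φ
    have e4 : (H : ℂ) * ∑ q, φ q = ∑ q : ZMod M × ZMod M, ∑ t ∈ range H,
        φ (q + ((t : ZMod M), (t : ZMod M))) := by
      rw [Finset.sum_comm, Finset.sum_congr rfl e3, Finset.sum_const, Finset.card_range, nsmul_eq_mul]
    rw [e4, Fintype.sum_prod_type]
    refine Finset.sum_congr rfl fun x _ => ?_
    refine Finset.sum_congr rfl fun y _ => ?_
    rw [Finset.mul_sum]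
    refine Finset.sum_congr rfl fun t _ => ?_
    rw [hφ]
    simp only [Prod.mk_add_mk]
    have a1 : ∀ u v : ZMod M, x + (t : ZMod M) + (y + t) + u + v = x + y + 2 * t + u + v := by
      intro u v; ring
    have a2 : ∀ u v : ZMod M, x + (t : ZMod M) - (y + t) - u + v = x - y - u + v := by
      intro u v; ring
    simp only [a1, a2, star_mul', star_star]
    ring
  have h2 := ua_cs (((range H ×ˢ range H) ×ˢ (range H ×ˢ range H)) ×ˢ (univ : Finset (ZMod M × ZMod M)))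
    (fun q => (W (q.2.1 - q.2.2 - q.1.1.1 + q.1.2.1) * star (W (q.2.1 - q.2.2 - q.1.1.2 + q.1.2.1))) *
          star (W (q.2.1 - q.2.2 - q.1.1.1 + q.1.2.2) * star (W (q.2.1 - q.2.2 - q.1.1.2 + q.1.2.2))))
    (fun q => ∑ t ∈ range H, F (q.2.1 + q.2.2 + 2 * (t : ZMod M) + q.1.1.1 + q.1.2.1) *
          star (F (q.2.1 + q.2.2 + 2 * (t : ZMod M) + q.1.1.2 + q.1.2.1)) *
          star (F (q.2.1 + q.2.2 + 2 * (t : ZMod M) + q.1.1.1 + q.1.2.2)) *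
          F (q.2.1 + q.2.2 + 2 * (t : ZMod M) + q.1.1.2 + q.1.2.2)) (fun q _ => by
      rw [norm_mul, norm_star, norm_mul, norm_mul, norm_star, norm_star]
      have a := hW (q.2.1 - q.2.2 - q.1.1.1 + q.1.2.1)
      have b := hW (q.2.1 - q.2.2 - q.1.1.2 + q.1.2.1)
      have c := hW (q.2.1 - q.2.2 - q.1.1.1 + q.1.2.2)
      have d := hW (q.2.1 - q.2.2 - q.1.1.2 + q.1.2.2)
      exact mul_le_one₀ (mul_le_one₀ a (norm_nonneg _) b) (by positivity)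
        (mul_le_one₀ c (norm_nonneg _) d))
  rw [← h1, norm_mul, mul_pow, Complex.norm_natCast, Complex.norm_real, Real.norm_eq_abs, sq_abs] at h2
  rw [Finset.card_product, Finset.card_product, Finset.card_product, Finset.card_range, Finset.card_univ,
    Fintype.card_prod, ZMod.card] at h2
  -- the sum over x, y is M times the sum over m
  have h3 : ∑ q ∈ ((range H ×ˢ range H) ×ˢ (range H ×ˢ range H)) ×ˢ (univ : Finset (ZMod M × ZMod M)),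
      ‖∑ t ∈ range H, F (q.2.1 + q.2.2 + 2 * (t : ZMod M) + q.1.1.1 + q.1.2.1) *
          star (F (q.2.1 + q.2.2 + 2 * (t : ZMod M) + q.1.1.2 + q.1.2.1)) *
          star (F (q.2.1 + q.2.2 + 2 * (t : ZMod M) + q.1.1.1 + q.1.2.2)) *
          F (q.2.1 + q.2.2 + 2 * (t : ZMod M) + q.1.1.2 + q.1.2.2)‖ ^ 2 =
      (M : ℝ) * ∑ m : ZMod M, ∑ h ∈ range H, ∑ h' ∈ range H, ∑ k ∈ range H,
        ∑ k' ∈ range H, ‖∑ t ∈ range H, F (m + 2 * (t : ZMod M) + h + k) *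
          star (F (m + 2 * (t : ZMod M) + h' + k)) * star (F (m + 2 * (t : ZMod M) + h + k')) *
          F (m + 2 * (t : ZMod M) + h' + k')‖ ^ 2 := by
    rw [Finset.sum_product_right, Fintype.sum_prod_type]
    have e5 : ∀ x : ZMod M, ∑ y : ZMod M, ∑ q ∈ (range H ×ˢ range H) ×ˢ (range H ×ˢ range H),
      ‖∑ t ∈ range H, F (x + y + 2 * (t : ZMod M) + q.1.1 + q.2.1) *
          star (F (x + y + 2 * (t : ZMod M) + q.1.2 + q.2.1)) *
          star (F (x + y + 2 * (t : ZMod M) + q.1.1 + q.2.2)) *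
          F (x + y + 2 * (t : ZMod M) + q.1.2 + q.2.2)‖ ^ 2 =
        ∑ m : ZMod M, ∑ q ∈ (range H ×ˢ range H) ×ˢ (range H ×ˢ range H),
      ‖∑ t ∈ range H, F (m + 2 * (t : ZMod M) + q.1.1 + q.2.1) *
          star (F (m + 2 * (t : ZMod M) + q.1.2 + q.2.1)) *
          star (F (m + 2 * (t : ZMod M) + q.1.1 + q.2.2)) *
          F (m + 2 * (t : ZMod M) + q.1.2 + q.2.2)‖ ^ 2 := fun x =>
      Equiv.sum_comp (Equiv.addLeft x) (fun m : ZMod M => ∑ q ∈ (range H ×ˢ range H) ×ˢ (range H ×ˢ range H),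
      ‖∑ t ∈ range H, F (m + 2 * (t : ZMod M) + q.1.1 + q.2.1) *
          star (F (m + 2 * (t : ZMod M) + q.1.2 + q.2.1)) *
          star (F (m + 2 * (t : ZMod M) + q.1.1 + q.2.2)) *
          F (m + 2 * (t : ZMod M) + q.1.2 + q.2.2)‖ ^ 2)
    rw [Finset.sum_congr rfl (fun x _ => e5 x), Finset.sum_const, Finset.card_univ, ZMod.card,
      nsmul_eq_mul]
    congr 1
    refine Finset.sum_congr rfl fun m _ => ?_
    rw [Finset.sum_product, Finset.sum_product]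
    refine Finset.sum_congr rfl fun h _ => ?_
    refine Finset.sum_congr rfl fun h' _ => ?_
    rw [Finset.sum_product]
  rw [h3] at h2
  push_cast at h2
  have hH0 : (0 : ℝ) < (H : ℝ) ^ 2 := by positivity
  refine le_of_mul_le_mul_left ?_ hH0
  refine h2.trans (le_of_eq ?_)
  ring

/-- Proof. `T = ∑_{x,y} f(x) g(y) F(x+y) W(x-y)`. All shifts are exact on `ZMod M`.
(1) Replace `y` by `y + h` and average over `h < H`: `T = H⁻¹ ∑_{x,y} f(x) ∑_h g(y+h) F(x+y+h) W(x-y-h)`, so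
`|T|² ≤ M² H⁻² T1`, `T1 = ∑_{h,h'} ∑_{x,y} G(y) F(x+y+h) star F(x+y+h') W1(x-y)`, `G(y) = g(y+h) star g(y+h')`,
`W1(d) = W(d-h) star W(d-h')`.
(2) Replace `x` by `x + k` and average over `k < H`: `|T1|² ≤ (H² M²) H⁻² T2`,
`T2 = ∑_{h,h',k,k'} ∑_{x,y} P(x+y) W2(x-y)`, `P(m) = F(m+h+k) star F(m+h'+k) star F(m+h+k') F(m+h'+k')`,
`W2(d) = W1(d+k) star W1(d+k')`.
(3) Replace `(x, y)` by `(x + t, y + t)`: `T2 = H⁻¹ ∑_{h,h',k,k'} ∑_{x,y} W2(x-y) ∑_t P(x+y+2t)`, so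
`|T2|² ≤ (H⁴ M²) H⁻² ∑_{h,h',k,k'} ∑_{x,y} |∑_t P(x+y+2t)|²`, and the sum over `x, y` is `M` times the sum over `m = x + y`.
Altogether `|T|^8 ≤ (M² H⁻²)⁴ (M²)² (H² M²) M Σ = M^15 H^(-6) Σ`. -/
theorem UA_main (M H : ℕ) [NeZero M] (hH : 0 < H) (f g F W : ZMod M → ℂ) (hf : ∀ x, ‖f x‖ ≤ 1)
    (hg : ∀ x, ‖g x‖ ≤ 1) (hW : ∀ x, ‖W x‖ ≤ 1) :
    ‖∑ x : ZMod M, ∑ y : ZMod M, f x * g y * F (x + y) * W (x - y)‖ ^ 8 ≤
      (M : ℝ) ^ 15 / (H : ℝ) ^ 6 * ∑ m : ZMod M, ∑ h ∈ range H, ∑ h' ∈ range H, ∑ k ∈ range H,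
        ∑ k' ∈ range H, ‖∑ t ∈ range H, F (m + 2 * (t : ZMod M) + h + k) *
          star (F (m + 2 * (t : ZMod M) + h' + k)) * star (F (m + 2 * (t : ZMod M) + h + k')) *
          F (m + 2 * (t : ZMod M) + h' + k')‖ ^ 2 := by
  have h1 := ua_one M H f g F W hf
  have h2 := ua_two M H hH g F W hg
  have h3 := ua_three M H hH F W hW
  obtain ⟨T, hT⟩ : ∃ T, T = ‖∑ x : ZMod M, ∑ y : ZMod M, f x * g y * F (x + y) * W (x - y)‖ := ⟨_, rfl⟩
  obtain ⟨T1, hT1⟩ : ∃ T1 : ℝ, T1 = ∑ x : ZMod M, ∑ y : ZMod M,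
        ‖∑ h ∈ range H, g (y + h) * F (x + y + h) * W (x - y - h)‖ ^ 2 := ⟨_, rfl⟩
  obtain ⟨T2, hT2⟩ : ∃ T2 : ℝ, T2 = ∑ h ∈ range H, ∑ h' ∈ range H, ∑ x : ZMod M, ∑ y : ZMod M,
        ‖∑ k ∈ range H, (F (x + y + h + k) * star (F (x + y + h' + k))) *
          (W (x - y - h + k) * star (W (x - y - h' + k)))‖ ^ 2 := ⟨_, rfl⟩
  obtain ⟨S, hS⟩ : ∃ S : ℝ, S = ∑ m : ZMod M, ∑ h ∈ range H, ∑ h' ∈ range H, ∑ k ∈ range H,
        ∑ k' ∈ range H, ‖∑ t ∈ range H, F (m + 2 * (t : ZMod M) + h + k) *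
          star (F (m + 2 * (t : ZMod M) + h' + k)) * star (F (m + 2 * (t : ZMod M) + h + k')) *
          F (m + 2 * (t : ZMod M) + h' + k')‖ ^ 2 := ⟨_, rfl⟩
  rw [← hT, ← hT1] at h1
  rw [← hT1, ← hT2] at h2
  rw [← hT2, ← hS] at h3
  rw [← hT, ← hS]
  have hT1' : 0 ≤ T1 := by
    rw [hT1]
    exact Finset.sum_nonneg fun _ _ => Finset.sum_nonneg fun _ _ => sq_nonneg _
  have hT2' : 0 ≤ T2 := by
    rw [hT2]
    exact Finset.sum_nonneg fun _ _ => Finset.sum_nonneg fun _ _ => Finset.sum_nonneg fun _ _ =>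
      Finset.sum_nonneg fun _ _ => sq_nonneg _
  have hH0 : (0 : ℝ) < H := by exact_mod_cast hH
  have hM0 : (0 : ℝ) ≤ M := Nat.cast_nonneg _
  have a1 : ((H : ℝ) ^ 2 * T ^ 2) ^ 4 ≤ ((M : ℝ) ^ 2 * T1) ^ 4 :=
    pow_le_pow_left₀ (by positivity) h1 4
  have a2 : (T1 ^ 2) ^ 2 ≤ ((M : ℝ) ^ 2 * T2) ^ 2 := pow_le_pow_left₀ (by positivity) h2 2
  have a3 : (H : ℝ) ^ 8 * T ^ 8 ≤ (M : ℝ) ^ 15 * (H : ℝ) ^ 2 * S := by
    calc (H : ℝ) ^ 8 * T ^ 8 = ((H : ℝ) ^ 2 * T ^ 2) ^ 4 := by ring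
      _ ≤ ((M : ℝ) ^ 2 * T1) ^ 4 := a1
      _ = (M : ℝ) ^ 8 * (T1 ^ 2) ^ 2 := by ring
      _ ≤ (M : ℝ) ^ 8 * ((M : ℝ) ^ 2 * T2) ^ 2 := mul_le_mul_of_nonneg_left a2 (by positivity)
      _ = (M : ℝ) ^ 12 * T2 ^ 2 := by ring
      _ ≤ (M : ℝ) ^ 12 * ((H : ℝ) ^ 2 * (M : ℝ) ^ 3 * S) := mul_le_mul_of_nonneg_left h3 (by positivity)
      _ = _ := by ring
  rw [div_mul_eq_mul_div, le_div_iff₀ (by positivity)]
  have hH2 : (0 : ℝ) < (H : ℝ) ^ 2 := by positivity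
  refine le_of_mul_le_mul_left ?_ hH2
  calc (H : ℝ) ^ 2 * (T ^ 8 * (H : ℝ) ^ 6) = (H : ℝ) ^ 8 * T ^ 8 := by ring
    _ ≤ _ := a3
    _ = _ := by ring

end Pool.Agent.Lib.H59T
end
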