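import Mathlib
import Pool.Agent.Lib.H59M.M1.D_H59_SchinzelDefs
import Pool.Agent.Lib.H59M.M1.M004
import Pool.Agent.Lib.H59M.M1.M010
import Pool.Agent.Lib.H59M.M1.M011
import Pool.Agent.Lib.H59M.M1.M013
import Pool.Agent.Lib.H59M.M1.M014
import Pool.Agent.Lib.H59M.M1.M016
import Pool.Agent.Lib.H59M.M1.M017
import Pool.Agent.Lib.H59M.M1.M025
import Pool.Agent.Lib.H59M.M1.M033
import Pool.Agent.Lib.H59M.M1.M034
import Pool.Agent.Lib.H59M.M1.M048
import Pool.Agent.Lib.H59M.M1.M049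
import Pool.Agent.Lib.H59M.M1.M057
import Pool.Agent.Lib.H59M.M1.M062

/-! Merged copies (to shorten the build) of Lib.H33B.LS2, Lib.H33B.LS4, Lib.H57S.S4, Lib.H57S.S5, Lib.H57M.Q1. -/

-- from Lib.H33B.LS2
section

/-!
# Chunk LS2: a crude dual large sieve
-/

open Finset

namespace Pool.Agent.Lib.H33B

open Pool.Agent.Lib.H68T (cq e)

theorem LS2_conj (x : ℝ) : (starRingEnd ℂ) (e x) = e (-x) := by
  unfold Pool.Agent.Lib.H68T.e
  rw [← Complex.exp_conj]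
  congr 1
  simp only [map_mul, Complex.conj_I, Complex.conj_ofReal, map_ofNat]
  push_cast
  ring

/-- Duality with a bound for the off-diagonal kernel. -/
theorem LS2_gen {ι : Type*} [DecidableEq ι] (T : Finset ι) (c : ι → ℂ) (θ : ι → ℝ) (B : ℝ)
    (hB : 0 ≤ B) (N₀ : ℤ) (H : ℕ)
    (hsep : ∀ x ∈ T, ∀ y ∈ T, x ≠ y →
      ‖∑ N ∈ Ico N₀ (N₀ + H), e ((N : ℝ) * (θ x - θ y))‖ ≤ B) :
    ∑ N ∈ Ico N₀ (N₀ + H), ‖∑ x ∈ T, c x * e ((N : ℝ) * θ x)‖ ^ 2 ≤
      (H + B * T.card) * ∑ x ∈ T, ‖c x‖ ^ 2 := by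
  have h1 : ((∑ N ∈ Ico N₀ (N₀ + H), ‖∑ x ∈ T, c x * e ((N : ℝ) * θ x)‖ ^ 2 : ℝ) : ℂ) =
      ∑ x ∈ T, ∑ y ∈ T, c x * (starRingEnd ℂ) (c y) *
        ∑ N ∈ Ico N₀ (N₀ + H), e ((N : ℝ) * (θ x - θ y)) := by
    rw [Complex.ofReal_sum]
    have h2 : ∀ N ∈ Ico N₀ (N₀ + H), ((‖∑ x ∈ T, c x * e ((N : ℝ) * θ x)‖ ^ 2 : ℝ) : ℂ) =
        ∑ x ∈ T, ∑ y ∈ T, c x * (starRingEnd ℂ) (c y) * e ((N : ℝ) * (θ x - θ y)) := by
      intro N _
      rw [Complex.ofReal_pow, ← Complex.mul_conj', map_sum, sum_mul_sum]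
      refine sum_congr rfl fun x _ => sum_congr rfl fun y _ => ?_
      rw [map_mul, LS2_conj, mul_sub, sub_eq_add_neg, Pool.Agent.Lib.H68T.BA1_e_add]
      ring
    rw [sum_congr rfl h2, sum_comm]
    refine sum_congr rfl fun x _ => ?_
    rw [sum_comm]
    refine sum_congr rfl fun y _ => ?_
    rw [mul_sum]
  have h3 : ∑ N ∈ Ico N₀ (N₀ + H), ‖∑ x ∈ T, c x * e ((N : ℝ) * θ x)‖ ^ 2 =
      ‖((∑ N ∈ Ico N₀ (N₀ + H), ‖∑ x ∈ T, c x * e ((N : ℝ) * θ x)‖ ^ 2 : ℝ) : ℂ)‖ := by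
    rw [Complex.norm_real, Real.norm_of_nonneg]
    exact sum_nonneg fun N _ => by positivity
  rw [h3, h1]
  have h4 : ∀ x ∈ T, ∀ y ∈ T, ‖c x * (starRingEnd ℂ) (c y) *
      ∑ N ∈ Ico N₀ (N₀ + H), e ((N : ℝ) * (θ x - θ y))‖ ≤
      ‖c x‖ * ‖c y‖ * ((if x = y then (H : ℝ) else 0) + B) := by
    intro x hx y hy
    rw [norm_mul, norm_mul, RCLike.norm_conj]
    refine mul_le_mul_of_nonneg_left ?_ (by positivity)
    split_ifs with h
    · refine (norm_sum_le _ _).trans ?_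
      have h5 : ∀ N ∈ Ico N₀ (N₀ + H), ‖e ((N : ℝ) * (θ x - θ y))‖ = 1 := fun N _ =>
        Pool.Agent.Lib.H68T.BA1_norm_e _
      rw [sum_congr rfl h5, sum_const, nsmul_eq_mul, Int.card_Ico]
      simp only [add_sub_cancel_left, Int.toNat_natCast, mul_one]
      linarith
    · rw [zero_add]
      exact hsep x hx y hy h
  calc ‖∑ x ∈ T, ∑ y ∈ T, c x * (starRingEnd ℂ) (c y) *
        ∑ N ∈ Ico N₀ (N₀ + H), e ((N : ℝ) * (θ x - θ y))‖
      ≤ ∑ x ∈ T, ∑ y ∈ T, ‖c x‖ * ‖c y‖ * ((if x = y then (H : ℝ) else 0) + B) := by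
        refine (norm_sum_le _ _).trans (sum_le_sum fun x hx => ?_)
        exact (norm_sum_le _ _).trans (sum_le_sum fun y hy => h4 x hx y hy)
    _ = H * ∑ x ∈ T, ‖c x‖ ^ 2 + B * (∑ x ∈ T, ‖c x‖) ^ 2 := by
        have h5 : ∀ x ∈ T, ∑ y ∈ T, ‖c x‖ * ‖c y‖ * ((if x = y then (H : ℝ) else 0) + B) =
            H * ‖c x‖ ^ 2 + B * (‖c x‖ * ∑ y ∈ T, ‖c y‖) := by
          intro x hx
          have h6 : ∀ y ∈ T, ‖c x‖ * ‖c y‖ * ((if x = y then (H : ℝ) else 0) + B) =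
              (if x = y then ‖c x‖ * ‖c y‖ * H else 0) + B * (‖c x‖ * ‖c y‖) := by
            intro y _
            split_ifs <;> ring
          rw [sum_congr rfl h6, sum_add_distrib, sum_ite_eq T x, if_pos hx, ← mul_sum, ← mul_sum]
          ring
        rw [sum_congr rfl h5, sum_add_distrib, ← mul_sum, ← mul_sum, ← sum_mul]
        ring
    _ ≤ H * ∑ x ∈ T, ‖c x‖ ^ 2 + B * (T.card * ∑ x ∈ T, ‖c x‖ ^ 2) := by
        have := sq_sum_le_card_mul_sum_sq (s := T) (f := fun x => ‖c x‖)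
        gcongr
    _ = _ := by ring

theorem LS2_sin (k : ℤ) (n Q : ℕ) (hn : 0 < n) (hk : k ≠ 0) (hkn : |k| < n) (hQ : n ≤ Q ^ 2) :
    2 / (Q : ℝ) ^ 2 ≤ ‖e ((k : ℝ) / n) - 1‖ := by
  have hn0 : (0 : ℝ) < n := by exact_mod_cast hn
  have hk1 : (1 : ℝ) ≤ |(k : ℝ)| := by
    have h1 : 1 ≤ |k| := Int.one_le_abs hk
    exact_mod_cast h1
  have hk2 : |(k : ℝ)| ≤ n - 1 := by
    have h1 : |k| + 1 ≤ n := hkn
    have h2 : ((|k| + 1 : ℤ) : ℝ) ≤ ((n : ℤ) : ℝ) := by exact_mod_cast h1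
    push_cast at h2
    linarith
  have hQ2 : (n : ℝ) ≤ (Q : ℝ) ^ 2 := by exact_mod_cast hQ
  have hQ0 : (0 : ℝ) < (Q : ℝ) ^ 2 := lt_of_lt_of_le hn0 hQ2
  have e1 : ‖e ((k : ℝ) / n) - 1‖ = 2 * |Real.sin (Real.pi * (|(k : ℝ)| / n))| := by
    unfold Pool.Agent.Lib.H68T.e
    have h1 : 2 * (Real.pi : ℂ) * (((k : ℝ) / n : ℝ) : ℂ) * Complex.I =
        Complex.I * ((2 * Real.pi * ((k : ℝ) / n) : ℝ) : ℂ) := by
      push_cast
      ring
    rw [h1, Complex.norm_exp_I_mul_ofReal_sub_one, Real.norm_eq_abs, abs_mul,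
      abs_of_pos (by norm_num : (0 : ℝ) < 2)]
    congr 1
    rw [show 2 * Real.pi * ((k : ℝ) / n) / 2 = Real.pi * ((k : ℝ) / n) by ring]
    rcases abs_cases (k : ℝ) with ⟨h, _⟩ | ⟨h, _⟩
    · rw [h]
    · rw [h, neg_div, mul_neg, Real.sin_neg, abs_neg]
  rw [e1]
  set t : ℝ := |(k : ℝ)| / n with ht
  have ht1 : 1 / n ≤ t := div_le_div_of_nonneg_right hk1 hn0.le
  have ht2 : t ≤ 1 - 1 / n := by
    rw [ht, div_le_iff₀ hn0, sub_mul, one_div, inv_mul_cancel₀ hn0.ne']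
    linarith
  have hnQ : 1 / (Q : ℝ) ^ 2 ≤ 1 / n := one_div_le_one_div_of_le hn0 hQ2
  have hn1 : 0 < 1 / (n : ℝ) := by positivity
  have hpi := Real.pi_pos
  have key : 1 / (n : ℝ) ≤ Real.sin (Real.pi * t) := by
    rcases le_total t (1 / 2) with h | h
    · have h2 := Real.mul_le_sin (x := Real.pi * t) (by positivity) (by nlinarith)
      have h3 : 2 / Real.pi * (Real.pi * t) = 2 * t := by field_simp
      rw [h3] at h2
      linarith
    · have h1 : Real.sin (Real.pi * t) = Real.sin (Real.pi * (1 - t)) := by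
        rw [mul_sub, mul_one, Real.sin_pi_sub]
      rw [h1]
      have h2 := Real.mul_le_sin (x := Real.pi * (1 - t)) (by
        have : 0 ≤ 1 - t := by linarith
        positivity) (by nlinarith)
      have h3 : 2 / Real.pi * (Real.pi * (1 - t)) = 2 * (1 - t) := by field_simp
      rw [h3] at h2
      linarith
  have h5 := le_abs_self (Real.sin (Real.pi * t))
  calc 2 / (Q : ℝ) ^ 2 = 2 * (1 / (Q : ℝ) ^ 2) := by ring
    _ ≤ 2 * |Real.sin (Real.pi * t)| := by linarith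

theorem LS2_geom (x : ℝ) (b : ℝ) (hb : 0 < b) (hx : b ≤ ‖e x - 1‖) (N₀ : ℤ) (H : ℕ) :
    ‖∑ N ∈ Ico N₀ (N₀ + H), e ((N : ℝ) * x)‖ ≤ 2 / b := by
  have hne : e x ≠ 1 := by
    intro h
    rw [h, sub_self, norm_zero] at hx
    linarith
  have h1 : ∑ N ∈ Ico N₀ (N₀ + H), e ((N : ℝ) * x) = ∑ j ∈ range H, e ((N₀ : ℝ) * x) * e x ^ j := by
    refine (sum_bij (fun (j : ℕ) _ => N₀ + (j : ℤ)) ?_ ?_ ?_ ?_).symm
    · intro j hj
      rw [mem_range] at hj
      rw [mem_Ico]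
      omega
    · intro i _ j _ h
      omega
    · intro N hN
      rw [mem_Ico] at hN
      refine ⟨(N - N₀).toNat, ?_, ?_⟩
      · rw [mem_range]
        omega
      · omega
    · intro j _
      rw [Pool.Agent.Lib.H68T.BA1_e_pow, ← Pool.Agent.Lib.H68T.BA1_e_add]
      congr 1
      push_cast
      ring
  rw [h1, ← mul_sum, geom_sum_eq hne, norm_mul, Pool.Agent.Lib.H68T.BA1_norm_e, one_mul, norm_div]
  have h2 : ‖e x ^ H - 1‖ ≤ 2 := by
    refine (norm_sub_le _ _).trans ?_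
    rw [norm_pow, Pool.Agent.Lib.H68T.BA1_norm_e, one_pow, norm_one]
    norm_num
  exact div_le_div₀ (by norm_num) h2 hb hx

theorem LS2_parseval (A : Finset ℕ) (f : ℕ → ℝ) (v : ℕ → ℤ) (q : ℕ) (hq : 0 < q) :
    ∑ a ∈ range q, ‖∑ n ∈ A, (f n : ℂ) * e (-((a : ℝ) * (v n : ℝ) / q))‖ ^ 2 =
      q * ∑ r ∈ range q, (∑ n ∈ A.filter (fun n : ℕ => (q : ℤ) ∣ v n - r), f n) ^ 2 := by
  have hq0 : (q : ℝ) ≠ 0 := by exact_mod_cast hq.ne'
  have h1 : ((∑ a ∈ range q, ‖∑ n ∈ A, (f n : ℂ) * e (-((a : ℝ) * (v n : ℝ) / q))‖ ^ 2 : ℝ) : ℂ) =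
      ∑ n ∈ A, ∑ m ∈ A, (f n : ℂ) * (f m : ℂ) * (if (q : ℤ) ∣ v m - v n then (q : ℂ) else 0) := by
    rw [Complex.ofReal_sum]
    have h2 : ∀ a ∈ range q,
        ((‖∑ n ∈ A, (f n : ℂ) * e (-((a : ℝ) * (v n : ℝ) / q))‖ ^ 2 : ℝ) : ℂ) =
        ∑ n ∈ A, ∑ m ∈ A, (f n : ℂ) * (f m : ℂ) * e ((a : ℝ) * (((v m - v n : ℤ) : ℝ) / q)) := by
      intro a _
      rw [Complex.ofReal_pow, ← Complex.mul_conj', map_sum, sum_mul_sum]
      refine sum_congr rfl fun n _ => sum_congr rfl fun m _ => ?_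
      rw [map_mul, LS2_conj, Complex.conj_ofReal]
      have h3 : e ((a : ℝ) * (((v m - v n : ℤ) : ℝ) / q)) =
          e (-((a : ℝ) * (v n : ℝ) / q)) * e (- -((a : ℝ) * (v m : ℝ) / q)) := by
        rw [← Pool.Agent.Lib.H68T.BA1_e_add]
        congr 1
        push_cast
        ring
      rw [h3]
      ring
    rw [sum_congr rfl h2, sum_comm]
    refine sum_congr rfl fun n _ => ?_
    rw [sum_comm]
    refine sum_congr rfl fun m _ => ?_
    rw [← mul_sum, Pool.Agent.Lib.H68T.BA1_detect q hq]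
  have h4 : ((q * ∑ r ∈ range q, (∑ n ∈ A.filter (fun n : ℕ => (q : ℤ) ∣ v n - r), f n) ^ 2 : ℝ) : ℂ) =
      ∑ n ∈ A, ∑ m ∈ A, (f n : ℂ) * (f m : ℂ) * (if (q : ℤ) ∣ v m - v n then (q : ℂ) else 0) := by
    have h5 : q * ∑ r ∈ range q, (∑ n ∈ A.filter (fun n : ℕ => (q : ℤ) ∣ v n - r), f n) ^ 2 =
        ∑ n ∈ A, ∑ m ∈ A, f n * f m * (if (q : ℤ) ∣ v m - v n then (q : ℝ) else 0) := by
      have h6 : ∀ r ∈ range q, (∑ n ∈ A.filter (fun n : ℕ => (q : ℤ) ∣ v n - r), f n) ^ 2 =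
          ∑ n ∈ A, ∑ m ∈ A, f n * f m *
            (if (q : ℤ) ∣ v n - r ∧ (q : ℤ) ∣ v m - r then (1 : ℝ) else 0) := by
        intro r _
        rw [sum_filter, pow_two, sum_mul_sum]
        refine sum_congr rfl fun n _ => sum_congr rfl fun m _ => ?_
        by_cases h7 : (q : ℤ) ∣ v n - r <;> by_cases h8 : (q : ℤ) ∣ v m - r <;> simp [h7, h8]
      rw [sum_congr rfl h6, sum_comm, mul_sum]
      refine sum_congr rfl fun n _ => ?_
      rw [sum_comm, mul_sum]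
      refine sum_congr rfl fun m _ => ?_
      rw [← mul_sum]
      have h7 : ∑ r ∈ range q, (if (q : ℤ) ∣ v n - r ∧ (q : ℤ) ∣ v m - r then (1 : ℝ) else 0) =
          if (q : ℤ) ∣ v m - v n then 1 else 0 := by
        have hr0 : (v n % q).toNat < q := by
          have h2 := Int.emod_lt_of_pos (v n) (by exact_mod_cast hq : (0 : ℤ) < q)
          have h3 := Int.emod_nonneg (v n) (by exact_mod_cast hq.ne' : (q : ℤ) ≠ 0)
          omega
        have hr1 : ∀ r ∈ range q, (q : ℤ) ∣ v n - r → r = (v n % q).toNat := by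
          intro r hr h
          rw [mem_range] at hr
          have h4 : v n % q = (r : ℤ) % q :=
            Int.emod_eq_emod_iff_emod_sub_eq_zero.mpr (Int.emod_eq_zero_of_dvd h)
          rw [h4, Int.emod_eq_of_lt (by positivity) (by exact_mod_cast hr)]
          simp
        have hr2 : (q : ℤ) ∣ v n - ((v n % q).toNat : ℕ) := by
          have h3 := Int.emod_nonneg (v n) (by exact_mod_cast hq.ne' : (q : ℤ) ≠ 0)
          rw [Int.toNat_of_nonneg h3]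
          exact Int.dvd_self_sub_emod
        rw [sum_eq_single_of_mem (v n % q).toNat (mem_range.mpr hr0)]
        · congr 1
          apply propext
          constructor
          · rintro ⟨_, h8⟩
            have := dvd_sub h8 hr2
            simpa using this
          · intro h8
            refine ⟨hr2, ?_⟩
            have := dvd_add h8 hr2
            simpa using this
        · intro r hr hne
          rw [if_neg]
          rintro ⟨h8, _⟩
          exact hne (hr1 r hr h8)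
      rw [h7]
      split_ifs <;> ring
    rw [h5]
    push_cast
    refine sum_congr rfl fun n _ => sum_congr rfl fun m _ => ?_
    split_ifs <;> simp
  exact_mod_cast h1.trans h4.symm

/-- Write `c_q(m) = ∑_{a mod q, (a,q)=1} e(a m/q)` (`H68T.cq_eq_sum`). The inner sum is
`∑_{θ = a/q, q ∈ S} c_θ e(N θ)`, `c_θ = a_q ∑_{n ∈ A} f(n) e(-θ v(n))`. There are at most `Q²` such
fractions `θ` in `[0,1)`, different ones differ by at least `1/Q²` modulo `1`, so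
`|∑_{N ∈ [N₀,N₀+H)} e(N(θ-θ'))| ≤ Q²/2` for `θ ≠ θ'` and
`∑_N |∑_θ c_θ e(Nθ)|² ≤ H ∑ |c_θ|² + (Q²/2) (∑ |c_θ|)² ≤ (H + Q⁴) ∑ |c_θ|²`. Finally
`∑_{a mod q} |∑_{n ∈ A} f(n) e(a v(n)/q)|² = q ∑_{r mod q} (∑_{n ∈ A, v(n) ≡ r} f(n))²` (orthogonality,
`H68T.BA1_detect`), and dropping the `a` not coprime to `q` only decreases the sum. -/
theorem dual_ls (Q : ℕ) (S : Finset ℕ) (hS : S ⊆ Icc 1 Q) (a : ℕ → ℝ) (A : Finset ℕ) (f : ℕ → ℝ)
    (v : ℕ → ℤ) (N₀ : ℤ) (H : ℕ) :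
    ∑ N ∈ Ico N₀ (N₀ + H), (∑ n ∈ A, f n * ∑ q ∈ S, a q * cq q (N - v n)) ^ 2 ≤
      (H + (Q : ℝ) ^ 4) * ∑ q ∈ S, a q ^ 2 * (q * ∑ r ∈ range q,
        (∑ n ∈ A.filter (fun n : ℕ => (q : ℤ) ∣ v n - r), f n) ^ 2) := by
  set T : Finset (Σ _ : ℕ, ℕ) := S.sigma (fun q => (range q).filter (fun b => Nat.Coprime b q)) with hT
  set g : (Σ _ : ℕ, ℕ) → ℂ := fun x =>
    ∑ n ∈ A, (f n : ℂ) * e (-((x.2 : ℝ) * (v n : ℝ) / x.1)) with hg
  set θ : (Σ _ : ℕ, ℕ) → ℝ := fun x => (x.2 : ℝ) / x.1 with hθ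
  have hexp : ∀ N ∈ Ico N₀ (N₀ + H), (∑ n ∈ A, f n * ∑ q ∈ S, a q * cq q (N - v n)) ^ 2 =
      ‖∑ x ∈ T, ((a x.1 : ℂ) * g x) * e ((N : ℝ) * θ x)‖ ^ 2 := by
    intro N _
    have h1 : ((∑ n ∈ A, f n * ∑ q ∈ S, a q * cq q (N - v n) : ℝ) : ℂ) =
        ∑ x ∈ T, ((a x.1 : ℂ) * g x) * e ((N : ℝ) * θ x) := by
      rw [hT, sum_sigma]
      push_cast
      simp only [mul_sum]
      rw [sum_comm]
      refine sum_congr rfl fun q hq => ?_
      have hq1 := mem_Icc.mp (hS hq)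
      have h2 : ∀ n ∈ A, (f n : ℂ) * ((a q : ℂ) * (cq q (N - v n) : ℂ)) =
          ∑ b ∈ (range q).filter (fun b => Nat.Coprime b q),
            (a q : ℂ) * ((f n : ℂ) * e (-((b : ℝ) * (v n : ℝ) / q))) * e ((N : ℝ) * ((b : ℝ) / q)) := by
        intro n _
        rw [Pool.Agent.Lib.H68T.cq_eq_sum q hq1.1, mul_sum, mul_sum]
        refine sum_congr rfl fun b _ => ?_
        have h3 : e ((b : ℝ) * ((N - v n : ℤ) : ℝ) / q) =
            e (-((b : ℝ) * (v n : ℝ) / q)) * e ((N : ℝ) * ((b : ℝ) / q)) := by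
          rw [← Pool.Agent.Lib.H68T.BA1_e_add]
          congr 1
          push_cast
          ring
        rw [h3]
        ring
      rw [sum_congr rfl h2, sum_comm]
      refine sum_congr rfl fun b _ => ?_
      rw [hg, hθ]
      simp only
      rw [mul_sum, sum_mul]
    rw [← h1, Complex.norm_real, Real.norm_eq_abs, sq_abs]
  rw [sum_congr rfl hexp]
  have hsep : ∀ x ∈ T, ∀ y ∈ T, x ≠ y →
      ‖∑ N ∈ Ico N₀ (N₀ + H), e ((N : ℝ) * (θ x - θ y))‖ ≤ (Q : ℝ) ^ 2 := by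
    rintro ⟨q, b⟩ hx ⟨r, c⟩ hy hne
    rw [hT, mem_sigma, mem_filter, mem_range] at hx hy
    simp only at hx hy
    obtain ⟨hq, hbq, hbc⟩ := hx
    obtain ⟨hr, hcr, hcc⟩ := hy
    have hq1 := mem_Icc.mp (hS hq)
    have hr1 := mem_Icc.mp (hS hr)
    have hq0 : (q : ℝ) ≠ 0 := by exact_mod_cast (by omega : q ≠ 0)
    have hr0 : (r : ℝ) ≠ 0 := by exact_mod_cast (by omega : r ≠ 0)
    set k : ℤ := (b : ℤ) * r - c * q with hk
    have e1 : θ ⟨q, b⟩ - θ ⟨r, c⟩ = (k : ℝ) / ((q * r : ℕ) : ℝ) := by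
      rw [hθ, hk]
      push_cast
      field_simp
    have hqr : 0 < q * r := Nat.mul_pos (by omega) (by omega)
    have hk0 : k ≠ 0 := by
      intro h
      rw [hk, sub_eq_zero] at h
      have h1 : b * r = c * q := by exact_mod_cast h
      have h2 : q ∣ r := by
        have : q ∣ b * r := ⟨c, by rw [h1]; ring⟩
        exact (Nat.Coprime.dvd_of_dvd_mul_left hbc.symm this)
      have h3 : r ∣ q := by
        have : r ∣ c * q := ⟨b, by rw [← h1]; ring⟩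
        exact (Nat.Coprime.dvd_of_dvd_mul_left hcc.symm this)
      have h4 : q = r := Nat.dvd_antisymm h2 h3
      subst h4
      have h5 : b = c := Nat.eq_of_mul_eq_mul_right (by omega) h1
      subst h5
      exact hne rfl
    have hk1 : |k| < ((q * r : ℕ) : ℤ) := by
      rw [abs_lt, hk]
      push_cast
      have hb1 : (b : ℤ) < q := by exact_mod_cast hbq
      have hc1 : (c : ℤ) < r := by exact_mod_cast hcr
      have hb0 : (0 : ℤ) ≤ b := by positivity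
      have hc0 : (0 : ℤ) ≤ c := by positivity
      have hq2 : (0 : ℤ) < q := by exact_mod_cast hq1.1
      have hr2 : (0 : ℤ) < r := by exact_mod_cast hr1.1
      constructor <;> nlinarith
    have hQ : q * r ≤ Q ^ 2 := by
      rw [pow_two]
      exact Nat.mul_le_mul hq1.2 hr1.2
    have hs := LS2_sin k (q * r) Q hqr hk0 hk1 hQ
    have hQ0 : (0 : ℝ) < (Q : ℝ) ^ 2 := by
      have : 0 < Q := by omega
      positivity
    have h2 := LS2_geom ((k : ℝ) / ((q * r : ℕ) : ℝ)) (2 / (Q : ℝ) ^ 2) (by positivity) hs N₀ H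
    rw [e1]
    refine h2.trans (le_of_eq ?_)
    field_simp
  have hmain := LS2_gen T (fun x => (a x.1 : ℂ) * g x) θ ((Q : ℝ) ^ 2) (by positivity) N₀ H hsep
  refine hmain.trans ?_
  have hcard : (T.card : ℝ) ≤ (Q : ℝ) ^ 2 := by
    have h1 : T.card ≤ Q ^ 2 := by
      rw [hT, card_sigma]
      calc ∑ q ∈ S, ((range q).filter (fun b => Nat.Coprime b q)).card ≤ ∑ q ∈ S, Q := by
            refine sum_le_sum fun q hq => ?_
            calc _ ≤ (range q).card := card_le_card (filter_subset _ _)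
              _ = q := card_range q
              _ ≤ Q := (mem_Icc.mp (hS hq)).2
        _ = S.card * Q := by rw [sum_const, smul_eq_mul]
        _ ≤ Q * Q := by
            refine Nat.mul_le_mul_right _ ?_
            calc S.card ≤ (Icc 1 Q).card := card_le_card hS
              _ = Q := by simp
        _ = Q ^ 2 := by ring
    exact_mod_cast h1
  have hpar : ∑ x ∈ T, ‖(a x.1 : ℂ) * g x‖ ^ 2 ≤ ∑ q ∈ S, a q ^ 2 * (q * ∑ r ∈ range q,
        (∑ n ∈ A.filter (fun n : ℕ => (q : ℤ) ∣ v n - r), f n) ^ 2) := by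
    rw [hT, sum_sigma]
    refine sum_le_sum fun q hq => ?_
    have hq1 := mem_Icc.mp (hS hq)
    rw [← LS2_parseval A f v q hq1.1, mul_sum]
    refine (sum_le_sum_of_subset_of_nonneg (filter_subset _ _) fun _ _ _ => by positivity).trans ?_
    refine le_of_eq (sum_congr rfl fun b _ => ?_)
    rw [norm_mul, mul_pow, Complex.norm_real, Real.norm_eq_abs, sq_abs]
  have hT0 : 0 ≤ ∑ x ∈ T, ‖(a x.1 : ℂ) * g x‖ ^ 2 := sum_nonneg fun _ _ => by positivity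
  have h9 : (H : ℝ) + (Q : ℝ) ^ 2 * T.card ≤ H + (Q : ℝ) ^ 4 := by
    have h10 : (Q : ℝ) ^ 2 * T.card ≤ (Q : ℝ) ^ 2 * (Q : ℝ) ^ 2 :=
      mul_le_mul_of_nonneg_left hcard (by positivity)
    nlinarith
  exact mul_le_mul h9 hpar hT0 (by positivity)

end Pool.Agent.Lib.H33B
end

-- from Lib.H33B.LS4
section

/-!
# Chunk LS4: the Ramanujan model against the periodic model
-/

open Finset Polynomial

namespace Pool.Agent.Lib.H33B

open Pool.Agent.Lib.H59 (argCount)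

theorem LS4_arg (G : ℤ[X]) (hk : 1 ≤ G.natDegree) (hl : 0 < G.leadingCoeff) :
    ∃ Y₁ : ℕ, 3 ≤ Y₁ ∧ ∀ Y : ℕ, Y₁ ≤ Y →
      Real.exp (Real.sqrt (Real.log Y)) ≤ (argCount G Y : ℝ) := by
  have ha : (0 : ℝ) < (G.leadingCoeff : ℝ) := by exact_mod_cast hl
  set k := G.natDegree with hkd
  set c₁ := (G.leadingCoeff : ℝ)⁻¹ / 2 with hc₁
  have hc₁0 : 0 < c₁ := by positivity
  have h1 := argCount_pow G hk hl
  have h2 : ∀ᶠ Y : ℕ in Filter.atTop, c₁ <
      (argCount G Y : ℝ) ^ G.natDegree / Y := h1.eventually_const_lt (by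
        have : 0 < (G.leadingCoeff : ℝ)⁻¹ := by positivity
        rw [hc₁]; linarith)
  have hlog : Filter.Tendsto (fun Y : ℕ => Real.log (Y : ℝ)) Filter.atTop Filter.atTop :=
    Real.tendsto_log_atTop.comp tendsto_natCast_atTop_atTop
  have h3 := hlog.eventually_ge_atTop ((2 * k : ℝ) ^ 2)
  have h4 := hlog.eventually_ge_atTop (2 * |Real.log c₁|)
  obtain ⟨Y₀, hY₀⟩ := Filter.eventually_atTop.1 (h2.and (h3.and h4))
  refine ⟨max Y₀ 3, le_max_right _ _, fun Y hY => ?_⟩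
  obtain ⟨a1, a2, a3⟩ := hY₀ Y ((le_max_left _ _).trans hY)
  have hY3 : 3 ≤ Y := (le_max_right _ _).trans hY
  have hYr : (0 : ℝ) < Y := by
    have : (3 : ℝ) ≤ Y := by exact_mod_cast hY3
    linarith
  rw [lt_div_iff₀ hYr] at a1
  set L := Real.log Y with hL
  have hL0 : 0 ≤ L := le_trans (by positivity) a2
  have hs : (2 * k : ℝ) ≤ Real.sqrt L := by
    rw [Real.le_sqrt (by positivity) hL0]; exact a2
  have hss : Real.sqrt L * Real.sqrt L = L := Real.mul_self_sqrt hL0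
  have hs0 := Real.sqrt_nonneg L
  have e1 : (k : ℝ) * Real.sqrt L ≤ L / 2 := by nlinarith
  have e2 : -(L / 2) ≤ Real.log c₁ := by linarith [neg_abs_le (Real.log c₁)]
  have e3 : Real.exp (k * Real.sqrt L) ≤ c₁ * Y := by
    calc Real.exp (k * Real.sqrt L) ≤ Real.exp (Real.log c₁ + L) :=
          Real.exp_le_exp.mpr (by linarith)
      _ = c₁ * Y := by rw [Real.exp_add, Real.exp_log hc₁0, hL, Real.exp_log hYr]
  have e4 : Real.exp (Real.sqrt L) ^ k ≤ (argCount G Y : ℝ) ^ k := by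
    rw [← Real.exp_nat_mul]
    linarith
  exact (pow_le_pow_iff_left₀ (Real.exp_pos _).le (by positivity) (by omega)).mp e4

theorem LS4_ge {w q : ℕ} (hq : Squarefree q) (h : ¬ q ∣ PW w) : w ≤ q := by
  by_contra hc
  push Not at hc
  apply h
  rw [← Nat.prod_primeFactors_of_squarefree hq]
  unfold PW
  apply Finset.prod_dvd_prod_of_subset
  intro p hp
  rw [Nat.mem_primesBelow]
  have hp' := Nat.prime_of_mem_primeFactors hp
  have hpq := Nat.dvd_of_mem_primeFactors hp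
  have : p ≤ q := Nat.le_of_dvd (Nat.pos_of_ne_zero hq.ne_zero) hpq
  exact ⟨by omega, hp'⟩

theorem LS4_model (w Q : ℕ) (hw : PW w ≤ Q) (m : ℤ) :
    Pool.Agent.Lib.H68T.G Q m - Lw w m =
      ∑ q ∈ (Icc 1 Q).filter (fun q => Squarefree q ∧ ¬ q ∣ PW w),
      ((ArithmeticFunction.moebius q : ℝ) / (Nat.totient q : ℝ)) *
        Pool.Agent.Lib.H68T.cq q m := by
  rw [G_sub_Lw w Q hw m]
  symm
  apply sum_subset
  · intro q hq
    rw [mem_filter] at hq ⊢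
    exact ⟨hq.1, hq.2.2⟩
  · intro q hq hq'
    rw [mem_filter] at hq hq'
    have : ¬ Squarefree q := fun h => hq' ⟨hq.1, h, hq.2⟩
    rw [ArithmeticFunction.moebius_eq_zero_of_not_squarefree this]
    simp

/-- Take `K = 16 |C| + 16`. Cauchy-Schwarz in `N`, then `G_sub_Lw` (the `q ≤ Q` not dividing
`P = PW w`; only squarefree `q` count because of `μ(q)`, and a squarefree `q` not dividing `P` has a
prime factor `≥ w`, so `q ≥ w`) and `dual_ls` with `v = G`, `H + Q⁴ ≤ 2H`. The `q ≤ (log Y)^K`: `cls_small`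
and `tail_series` (`M = k D`), the others: `cls_large` (`Q ≤ exp(√ log Y) ≤ X`, `argCount_pow`) and
`tail_series` (`M = k`, `w` replaced by `(log Y)^K`), they contribute
`C (log Y)^(2C - K/4) S²`. Altogether the mean square is `≤ C' (w^(-1/4) + (log Y)^(-1)) H S²`. -/
theorem ls_main (G : ℤ[X]) (hk : 1 ≤ G.natDegree) (hl : 0 < G.leadingCoeff) (D : ℕ) (C : ℝ) :
    ∃ K : ℝ, 0 ≤ K ∧ ∀ ε : ℝ, 0 < ε → ∃ w₀ : ℕ, ∀ w : ℕ, w₀ ≤ w → ∃ Y₀ : ℕ, ∀ Y Q : ℕ, Y₀ ≤ Y →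
    PW w ≤ Q → (Q : ℝ) ≤ Real.exp (Real.sqrt (Real.log Y)) → ∀ (f : ℕ → ℝ) (S : ℝ),
    SieveWt D C K Y (argCount G Y) S f → ∀ A ⊆ Icc 1 (argCount G Y), ∀ (N₀ : ℤ) (H : ℕ), Q ^ 4 ≤ H →
    ∑ N ∈ Ico N₀ (N₀ + H), |∑ n ∈ A, f n * (Pool.Agent.Lib.H68T.G Q (N - G.eval (n : ℤ)) -
      Lw w (N - G.eval (n : ℤ)))| ≤ ε * H * S := by
  obtain ⟨C₁, hC₁, hts1⟩ := tail_series (G.natDegree * D)
  obtain ⟨C₂, hC₂, hts2⟩ := tail_series G.natDegree
  obtain ⟨Y₁, hY₁3, hY₁⟩ := LS4_arg G hk hl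
  set K := 16 * |C| + 16 with hK
  have hK0 : 0 ≤ K := by positivity
  have ha : (0 : ℝ) < (G.leadingCoeff : ℝ) := by exact_mod_cast hl
  refine ⟨K, hK0, fun ε hε => ?_⟩
  -- choice of `w₀`
  have hw1 : Filter.Tendsto (fun w : ℕ => 2 * G.leadingCoeff * C₁ * (w : ℝ) ^ (-(1 / 4) : ℝ))
      Filter.atTop (nhds (2 * G.leadingCoeff * C₁ * 0)) :=
    ((tendsto_rpow_neg_atTop (by norm_num : (0:ℝ) < 1 / 4)).comp
      tendsto_natCast_atTop_atTop).const_mul _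
  rw [mul_zero] at hw1
  obtain ⟨w₁, hw₁⟩ := Filter.eventually_atTop.1
    (hw1.eventually_le_const (by positivity : 0 < ε ^ 2 / 2))
  refine ⟨max w₁ 1, fun w hw => ?_⟩
  have hww := hw₁ w ((le_max_left _ _).trans hw)
  have hw1' : 1 ≤ w := (le_max_right _ _).trans hw
  have hlog : Filter.Tendsto (fun Y : ℕ => Real.log (Y : ℝ)) Filter.atTop Filter.atTop :=
    Real.tendsto_log_atTop.comp tendsto_natCast_atTop_atTop
  obtain ⟨Y₂, hY₂⟩ := Filter.eventually_atTop.1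
    (hlog.eventually_ge_atTop (8 * G.leadingCoeff * C₂ / ε ^ 2))
  refine ⟨max Y₁ Y₂, fun Y Q hY hPW hQ f S hf A hA N₀ H hH => ?_⟩
  have hYY1 : Y₁ ≤ Y := (le_max_left _ _).trans hY
  have hY3 : 3 ≤ Y := hY₁3.trans hYY1
  have hX := hY₁ Y hYY1
  have hlY := hY₂ Y ((le_max_right _ _).trans hY)
  have hY3r : (3 : ℝ) ≤ Y := by exact_mod_cast hY3
  set L := Real.log Y with hL
  have hL1 : 1 ≤ L := by
    rw [hL, Real.le_log_iff_exp_le (by linarith)]
    linarith [Real.exp_one_lt_d9]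
  have hL0 : 0 < L := by linarith
  have hS0 : 0 ≤ S := by
    have h1 := hf.cls 1 0 squarefree_one (by
      rw [Nat.cast_one]
      exact Real.one_le_rpow hL1 hK0)
    have h2 : 0 ≤ ∑ n ∈ (Icc 1 (argCount G Y)).filter (fun n => n ≡ 0 [MOD 1]), f n :=
      sum_nonneg fun n hn => hf.nonneg n (mem_filter.mp hn).1
    simp only [Nat.primeFactors_one, card_empty, pow_zero, one_mul, Nat.cast_one, div_one] at h1
    linarith
  set T := (Icc 1 Q).filter (fun q => Squarefree q ∧ ¬ q ∣ PW w) with hT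
  set R : ℕ → ℝ := fun q => (q : ℝ) * ∑ r ∈ range q,
      (∑ n ∈ A.filter (fun n : ℕ => (q : ℤ) ∣ G.eval (n : ℤ) - r), f n) ^ 2 with hR
  have hR0 : ∀ q, 0 ≤ R q := fun q => by rw [hR]; positivity
  -- the bound of the sum over `q`
  have hbound : ∑ q ∈ T, ((ArithmeticFunction.moebius q : ℝ) / (Nat.totient q : ℝ)) ^ 2 * R q ≤
      (ε ^ 2 / 2) * S ^ 2 := by
    have h1 : ∀ q ∈ T, ((ArithmeticFunction.moebius q : ℝ) / (Nat.totient q : ℝ)) ^ 2 * R q ≤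
        G.leadingCoeff * S ^ 2 * ((1 / (Nat.totient q : ℝ)) ^ 2 *
          ((G.natDegree * D : ℕ) : ℝ) ^ q.primeFactors.card) +
        (if L ^ K < (q : ℝ) then 2 * G.leadingCoeff * L ^ (2 * C) * S ^ 2 *
          ((1 / (Nat.totient q : ℝ)) ^ 2 * (G.natDegree : ℝ) ^ q.primeFactors.card) else 0) := by
      intro q hq
      rw [hT, mem_filter, mem_Icc] at hq
      have hmu : ((ArithmeticFunction.moebius q : ℝ) / (Nat.totient q : ℝ)) ^ 2 =
          (1 / (Nat.totient q : ℝ)) ^ 2 := by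
        rw [div_pow, div_pow, one_pow]
        congr 1
        have := ArithmeticFunction.moebius_sq_eq_one_of_squarefree hq.2.1
        exact_mod_cast this
      rw [hmu]
      by_cases hqK : L ^ K < (q : ℝ)
      · rw [if_pos hqK]
        have hqX : q ≤ argCount G Y := by
          have e1 : (q : ℝ) ≤ Q := by exact_mod_cast hq.1.2
          have : (q : ℝ) ≤ argCount G Y := e1.trans (hQ.trans hX)
          exact_mod_cast this
        have h2 := cls_large G hk hl D C K hK0 Y _ hY3 S f hf A hA q hq.2.1 hqX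
        have h3 : 0 ≤ G.leadingCoeff * S ^ 2 * ((1 / (Nat.totient q : ℝ)) ^ 2 *
          ((G.natDegree * D : ℕ) : ℝ) ^ q.primeFactors.card) := by positivity
        calc (1 / (Nat.totient q : ℝ)) ^ 2 * R q ≤ (1 / (Nat.totient q : ℝ)) ^ 2 * _ :=
              mul_le_mul_of_nonneg_left h2 (by positivity)
          _ = 2 * G.leadingCoeff * L ^ (2 * C) * S ^ 2 *
          ((1 / (Nat.totient q : ℝ)) ^ 2 * (G.natDegree : ℝ) ^ q.primeFactors.card) := by ring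
          _ ≤ _ := by linarith
      · rw [if_neg hqK, add_zero]
        push Not at hqK
        have h2 := cls_small G hk hl D C K hK0 Y _ hY3 S f hf A hA q hq.2.1 hqK
        calc (1 / (Nat.totient q : ℝ)) ^ 2 * R q ≤ (1 / (Nat.totient q : ℝ)) ^ 2 * _ :=
              mul_le_mul_of_nonneg_left h2 (by positivity)
          _ = _ := by ring
    refine (sum_le_sum h1).trans ?_
    rw [sum_add_distrib, ← mul_sum, ← sum_filter, ← mul_sum]
    have hpos1 : ∀ q : ℕ, 0 ≤ (1 / (Nat.totient q : ℝ)) ^ 2 *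
          ((G.natDegree * D : ℕ) : ℝ) ^ q.primeFactors.card := fun q => by positivity
    have hpos2 : ∀ q : ℕ, 0 ≤ (1 / (Nat.totient q : ℝ)) ^ 2 *
          (G.natDegree : ℝ) ^ q.primeFactors.card := fun q => by positivity
    have h2 : ∑ q ∈ T, (1 / (Nat.totient q : ℝ)) ^ 2 *
          ((G.natDegree * D : ℕ) : ℝ) ^ q.primeFactors.card ≤ C₁ * (w : ℝ) ^ (-(1 / 4) : ℝ) := by
      refine le_trans ?_ (hts1 w hw1' Q)
      apply sum_le_sum_of_subset_of_nonneg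
      · intro q hq
        rw [hT, mem_filter, mem_Icc] at hq
        rw [mem_filter, mem_Icc]
        exact ⟨⟨LS4_ge hq.2.1 hq.2.2, hq.1.2⟩, hq.2.1⟩
      · intro q _ _
        exact hpos1 q
    set w' := ⌈L ^ K⌉₊ with hw'
    have hLK : 1 ≤ L ^ K := Real.one_le_rpow hL1 hK0
    have hw'1 : 1 ≤ w' := Nat.one_le_iff_ne_zero.mpr (by
      rw [hw']
      have : 0 < ⌈L ^ K⌉₊ := Nat.ceil_pos.mpr (by linarith)
      omega)
    have h3 : ∑ q ∈ T.filter (fun q : ℕ => L ^ K < (q : ℝ)), (1 / (Nat.totient q : ℝ)) ^ 2 *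
          (G.natDegree : ℝ) ^ q.primeFactors.card ≤ C₂ * (w' : ℝ) ^ (-(1 / 4) : ℝ) := by
      refine le_trans ?_ (hts2 w' hw'1 Q)
      apply sum_le_sum_of_subset_of_nonneg
      · intro q hq
        rw [mem_filter, hT, mem_filter, mem_Icc] at hq
        rw [mem_filter, mem_Icc]
        exact ⟨⟨Nat.ceil_le.mpr hq.2.le, hq.1.1.2⟩, hq.1.2.1⟩
      · intro q _ _
        exact hpos2 q
    have h4 : (w' : ℝ) ^ (-(1 / 4) : ℝ) ≤ L ^ (-(K / 4)) := by
      have e1 : L ^ K ≤ (w' : ℝ) := Nat.le_ceil _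
      calc (w' : ℝ) ^ (-(1 / 4) : ℝ) ≤ (L ^ K) ^ (-(1 / 4) : ℝ) :=
            Real.rpow_le_rpow_of_nonpos (by linarith) e1 (by norm_num)
        _ = L ^ (-(K / 4)) := by
            rw [← Real.rpow_mul hL0.le]
            congr 1
            ring
    have h5 : L ^ (2 * C) * L ^ (-(K / 4)) ≤ L⁻¹ := by
      rw [← Real.rpow_add hL0, ← Real.rpow_neg_one]
      apply Real.rpow_le_rpow_of_exponent_le hL1
      rw [hK]
      linarith [le_abs_self C, abs_nonneg C]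
    have h6 : 2 * G.leadingCoeff * L ^ (2 * C) * S ^ 2 *
        ∑ q ∈ T.filter (fun q : ℕ => L ^ K < (q : ℝ)), (1 / (Nat.totient q : ℝ)) ^ 2 *
          (G.natDegree : ℝ) ^ q.primeFactors.card ≤ (ε ^ 2 / 4) * S ^ 2 := by
      calc _ ≤ 2 * G.leadingCoeff * L ^ (2 * C) * S ^ 2 * (C₂ * L ^ (-(K / 4))) := by
            apply mul_le_mul_of_nonneg_left _ (by positivity)
            exact h3.trans (mul_le_mul_of_nonneg_left h4 hC₂.le)
        _ = 2 * G.leadingCoeff * C₂ * S ^ 2 * (L ^ (2 * C) * L ^ (-(K / 4))) := by ring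
        _ ≤ 2 * G.leadingCoeff * C₂ * S ^ 2 * L⁻¹ :=
            mul_le_mul_of_nonneg_left h5 (by positivity)
        _ ≤ (ε ^ 2 / 4) * S ^ 2 := by
            have e1 : 8 * G.leadingCoeff * C₂ ≤ L * ε ^ 2 := by
              rw [div_le_iff₀ (by positivity)] at hlY
              exact hlY
            have e2 : 2 * G.leadingCoeff * C₂ * L⁻¹ ≤ ε ^ 2 / 4 := by
              rw [← div_eq_mul_inv, div_le_iff₀ hL0]
              linarith
            calc 2 * G.leadingCoeff * C₂ * S ^ 2 * L⁻¹ =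
                (2 * G.leadingCoeff * C₂ * L⁻¹) * S ^ 2 := by ring
              _ ≤ _ := mul_le_mul_of_nonneg_right e2 (by positivity)
    have h7 : G.leadingCoeff * S ^ 2 * ∑ q ∈ T, (1 / (Nat.totient q : ℝ)) ^ 2 *
          ((G.natDegree * D : ℕ) : ℝ) ^ q.primeFactors.card ≤ (ε ^ 2 / 4) * S ^ 2 := by
      calc _ ≤ G.leadingCoeff * S ^ 2 * (C₁ * (w : ℝ) ^ (-(1 / 4) : ℝ)) :=
            mul_le_mul_of_nonneg_left h2 (by positivity)
        _ = (2 * G.leadingCoeff * C₁ * (w : ℝ) ^ (-(1 / 4) : ℝ)) * (S ^ 2 / 2) := by ring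
        _ ≤ (ε ^ 2 / 2) * (S ^ 2 / 2) := mul_le_mul_of_nonneg_right hww (by positivity)
        _ = _ := by ring
    linarith
  -- Cauchy-Schwarz
  have hdls := dual_ls Q T (filter_subset _ _)
    (fun q => (ArithmeticFunction.moebius q : ℝ) / (Nat.totient q : ℝ)) A f
    (fun n => G.eval (n : ℤ)) N₀ H
  have hcs := sq_sum_le_card_mul_sum_sq (s := Ico N₀ (N₀ + H))
    (f := fun N : ℤ => |∑ n ∈ A, f n * (Pool.Agent.Lib.H68T.G Q (N - G.eval (n : ℤ)) -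
      Lw w (N - G.eval (n : ℤ)))|)
  have hcard : ((Ico N₀ (N₀ + (H : ℤ))).card : ℝ) = H := by
    rw [Int.card_Ico]
    have : (N₀ + (H : ℤ) - N₀).toNat = H := by omega
    rw [this]
  rw [hcard] at hcs
  have hHQ : (H : ℝ) + (Q : ℝ) ^ 4 ≤ 2 * H := by
    have : (Q : ℝ) ^ 4 ≤ H := by exact_mod_cast hH
    linarith
  refine le_of_sq_le_sq ?_ (by positivity)
  refine hcs.trans ?_
  have hconv : ∑ N ∈ Ico N₀ (N₀ + (H : ℤ)), |∑ n ∈ A, f n *
      (Pool.Agent.Lib.H68T.G Q (N - G.eval (n : ℤ)) - Lw w (N - G.eval (n : ℤ)))| ^ 2 =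
      ∑ N ∈ Ico N₀ (N₀ + (H : ℤ)), (∑ n ∈ A, f n * ∑ q ∈ T,
        ((ArithmeticFunction.moebius q : ℝ) / (Nat.totient q : ℝ)) *
          Pool.Agent.Lib.H68T.cq q (N - G.eval (n : ℤ))) ^ 2 := by
    refine sum_congr rfl fun N _ => ?_
    rw [sq_abs]
    congr 1
    refine sum_congr rfl fun n _ => ?_
    rw [LS4_model w Q hPW]
  rw [hconv]
  calc (H : ℝ) * _ ≤ H * ((H + (Q : ℝ) ^ 4) * ∑ q ∈ T,
        ((ArithmeticFunction.moebius q : ℝ) / (Nat.totient q : ℝ)) ^ 2 * R q) :=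
        mul_le_mul_of_nonneg_left hdls (by positivity)
    _ ≤ H * ((2 * H) * ((ε ^ 2 / 2) * S ^ 2)) := by
        apply mul_le_mul_of_nonneg_left _ (by positivity)
        exact mul_le_mul hHQ hbound (sum_nonneg fun q _ => mul_nonneg (sq_nonneg _) (hR0 q))
          (by positivity)
    _ = (ε * H * S) ^ 2 := by ring

end Pool.Agent.Lib.H33B
end

-- from Lib.H57S.S4
section

/-!
# Chunk S4: Siegel's theorem
-/

open Finset

namespace Pool.Agent.Lib.H57S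

open Pool.Agent.Lib.H68T

theorem S4_log_cube {ε r : ℝ} (hε : 0 < ε) (hr : 1 ≤ r) :
    (Real.log r) ^ 3 * r ^ (ε / 5) ≤ (5 / ε) ^ 3 * r ^ ε := by
  have hr0 : 0 ≤ r := by linarith
  have h1 : Real.log r ≤ r ^ (ε / 5) / (ε / 5) := Real.log_le_rpow_div hr0 (by positivity)
  have h0 : 0 ≤ Real.log r := Real.log_nonneg hr
  have h2 : (Real.log r) ^ 3 ≤ (r ^ (ε / 5) / (ε / 5)) ^ 3 := pow_le_pow_left₀ h0 h1 3
  have h3 : (r ^ (ε / 5) / (ε / 5)) ^ 3 = (5 / ε) ^ 3 * (r ^ (ε / 5)) ^ 3 := by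
    field_simp
  have h4 : (r ^ (ε / 5)) ^ 3 * r ^ (ε / 5) = r ^ (4 * (ε / 5)) := by
    rw [← pow_succ, ← Real.rpow_natCast, ← Real.rpow_mul hr0]
    congr 1; push_cast; ring
  have h5 : r ^ (4 * (ε / 5)) ≤ r ^ ε := Real.rpow_le_rpow_of_exponent_le hr (by linarith)
  have h6 : 0 ≤ r ^ (ε / 5) := Real.rpow_nonneg hr0 _
  calc (Real.log r) ^ 3 * r ^ (ε / 5) ≤ ((5 / ε) ^ 3 * (r ^ (ε / 5)) ^ 3) * r ^ (ε / 5) := by
        rw [← h3]; exact mul_le_mul_of_nonneg_right h2 h6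
    _ = (5 / ε) ^ 3 * r ^ (4 * (ε / 5)) := by rw [← h4]; ring
    _ ≤ _ := mul_le_mul_of_nonneg_left h5 (by positivity)

/-- all real zeros `< 1` are at distance `≥ c / r^ε` from `1` -/
theorem S4_claim (ε : ℝ) (hε : 0 < ε) (hε1 : ε ≤ 1) : ∃ c : ℝ, 0 < c ∧ ∀ (r : ℕ) [NeZero r]
    (ψ : DirichletCharacter ℂ r), ψ.IsPrimitive → ψ ≠ 1 → ψ ^ 2 = 1 → ∀ σ : ℝ,
    σ < 1 → ψ.LFunction (σ : ℂ) = 0 → c / (r : ℝ) ^ ε ≤ 1 - σ := by
  by_cases hA : ∀ (r : ℕ) [NeZero r] (ψ : DirichletCharacter ℂ r), ψ.IsPrimitive → ψ ≠ 1 →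
      ψ ^ 2 = 1 → ∀ σ : ℝ, σ < 1 → ψ.LFunction (σ : ℂ) = 0 → ε / 60 ≤ 1 - σ
  · refine ⟨ε / 60, by positivity, fun r _ ψ hp h1 h2 σ hσ hz => ?_⟩
    have hr : (1 : ℝ) ≤ r := by
      have : 0 < r := Nat.pos_of_ne_zero (NeZero.ne r)
      exact_mod_cast this
    have h3 : 1 ≤ (r : ℝ) ^ ε := Real.one_le_rpow hr hε.le
    calc ε / 60 / (r : ℝ) ^ ε ≤ ε / 60 := div_le_self (by positivity) h3
      _ ≤ _ := hA r ψ hp h1 h2 σ hσ hz
  · push Not at hA
    obtain ⟨r₁, _, ψ₁, hp₁, hn₁, hs₁, β₁, hβ₁, hz₁, hβ₁e⟩ := hA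
    obtain ⟨c₀, hc₀, H0⟩ := zero_elementary
    obtain ⟨C₁, hC₁, H1⟩ := L1_upper
    obtain ⟨C, hC, H2⟩ := L1_log
    have hr₁ : (1 : ℝ) ≤ r₁ := by
      have : 0 < r₁ := Nat.pos_of_ne_zero (NeZero.ne r₁)
      exact_mod_cast this
    have hl₁ : 0 ≤ Real.log r₁ := Real.log_nonneg hr₁
    set A₁ : ℝ := C * (1 + Real.log r₁) with hA₁
    have hA₁p : 0 < A₁ := by positivity
    set B : ℝ := (10 ^ 6 * (r₁ : ℝ) ^ 2) ^ (ε / 10) with hB
    have hBp : 0 < B := Real.rpow_pos_of_pos (by positivity) _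
    set D : ℝ := 4 * A₁ * C₁ * C * (2 + Real.log r₁) * (5 / ε) ^ 3 * B with hD
    have hDp : 0 < D := by positivity
    have hβ0 : 0 < 1 - β₁ := by linarith
    refine ⟨min (c₀ / 10 ^ 4) (min (c₀ / (r₁ : ℝ) ^ 2) (min ε ((1 - β₁) / D))),
      by positivity, fun r _ ψ hp hn hs σ hσ hz => ?_⟩
    have hr : (1 : ℝ) ≤ r := by
      have : 0 < r := Nat.pos_of_ne_zero (NeZero.ne r)
      exact_mod_cast this
    have h3 : 1 ≤ (r : ℝ) ^ ε := Real.one_le_rpow hr hε.le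
    have h3p : 0 < (r : ℝ) ^ ε := by linarith
    set m := min (c₀ / 10 ^ 4) (min (c₀ / (r₁ : ℝ) ^ 2) (min ε ((1 - β₁) / D))) with hm
    have hmp : 0 < m := by positivity
    have m1 : m ≤ c₀ / 10 ^ 4 := min_le_left _ _
    have m2 : m ≤ c₀ / (r₁ : ℝ) ^ 2 := (min_le_right _ _).trans (min_le_left _ _)
    have m3 : m ≤ ε := (min_le_right _ _).trans ((min_le_right _ _).trans (min_le_left _ _))
    have m4 : m ≤ (1 - β₁) / D :=
      (min_le_right _ _).trans ((min_le_right _ _).trans (min_le_right _ _))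
    by_cases hr100 : 100 ≤ r
    swap
    · have h4 := H0 r ψ hn hs σ hσ hz
      have h5 : (r : ℝ) ^ 2 ≤ 10 ^ 4 := by
        have : (r : ℝ) ≤ 100 := by
          have : r ≤ 100 := by omega
          exact_mod_cast this
        nlinarith
      calc m / (r : ℝ) ^ ε ≤ m := div_le_self hmp.le h3
        _ ≤ c₀ / 10 ^ 4 := m1
        _ ≤ c₀ / (r : ℝ) ^ 2 := div_le_div_of_nonneg_left hc₀.le (by positivity) h5
        _ ≤ _ := h4
    by_cases hsame : (⟨r₁, ψ₁⟩ : Σ r : ℕ, DirichletCharacter ℂ r) = ⟨r, ψ⟩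
    · have h4 := H0 r ψ hn hs σ hσ hz
      have h5 : r₁ = r := congrArg Sigma.fst hsame
      calc m / (r : ℝ) ^ ε ≤ m := div_le_self hmp.le h3
        _ ≤ c₀ / (r₁ : ℝ) ^ 2 := m2
        _ = c₀ / (r : ℝ) ^ 2 := by rw [h5]
        _ ≤ _ := h4
    have hrR : (100 : ℝ) ≤ r := by exact_mod_cast hr100
    have hlog1 : 1 ≤ Real.log r := by
      rw [Real.le_log_iff_exp_le (by linarith)]
      have := Real.exp_one_lt_d9
      linarith
    by_cases hfar : σ < 1 - 1 / Real.log r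
    · have h4 : Real.log r ≤ (r : ℝ) ^ ε / ε := Real.log_le_rpow_div (by linarith) hε
      have h5 : ε / (r : ℝ) ^ ε ≤ 1 / Real.log r := by
        rw [div_le_div_iff₀ h3p (by linarith), one_mul]
        rw [le_div_iff₀ hε] at h4
        linarith
      calc m / (r : ℝ) ^ ε ≤ ε / (r : ℝ) ^ ε := div_le_div_of_nonneg_right m3 h3p.le
        _ ≤ 1 / Real.log r := h5
        _ ≤ 1 - σ := by linarith
    · push Not at hfar
      have hne := prodc_ne_one r₁ r ψ₁ ψ hp₁ hp hs hsame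
      have e1 := estermann r₁ r ψ₁ ψ hs₁ hs hn₁ hn hne β₁ (by linarith) hβ₁ hz₁
      have b1 := H2 r₁ ψ₁ hn₁
      have b2 := H1 r ψ hr100 hn σ hfar hσ.le hz
      have b3 := H2 (r₁ * r) (prodc ψ₁ ψ) hne
      have hσ0 : 0 < 1 - σ := by linarith
      have b3' : ‖(prodc ψ₁ ψ).LFunction 1‖ ≤ C * ((2 + Real.log r₁) * Real.log r) := by
        refine b3.trans (mul_le_mul_of_nonneg_left ?_ hC.le)
        push_cast
        rw [Real.log_mul (by positivity) (by positivity)]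
        nlinarith
      have b4 : (10 ^ 6 * ((r₁ : ℝ) * r) ^ 2) ^ (6 * (1 - β₁)) ≤ B * (r : ℝ) ^ (ε / 5) := by
        have h1 : (1 : ℝ) ≤ 10 ^ 6 * ((r₁ : ℝ) * r) ^ 2 := by
          have : (1 : ℝ) ≤ (r₁ : ℝ) * r := one_le_mul_of_one_le_of_one_le hr₁ hr
          nlinarith
        calc (10 ^ 6 * ((r₁ : ℝ) * r) ^ 2) ^ (6 * (1 - β₁))
            ≤ (10 ^ 6 * ((r₁ : ℝ) * r) ^ 2) ^ (ε / 10) :=
              Real.rpow_le_rpow_of_exponent_le h1 (by linarith)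
          _ = ((10 ^ 6 * (r₁ : ℝ) ^ 2) * (r : ℝ) ^ 2) ^ (ε / 10) := by
              congr 1; ring
          _ = B * ((r : ℝ) ^ 2) ^ (ε / 10) := by
              rw [Real.mul_rpow (by positivity) (by positivity)]
          _ = B * (r : ℝ) ^ (ε / 5) := by
              rw [← Real.rpow_natCast, ← Real.rpow_mul (by positivity)]
              congr 2; push_cast; ring
      have n1 := norm_nonneg (ψ₁.LFunction 1)
      have n2 := norm_nonneg (ψ.LFunction 1)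
      have n3 := norm_nonneg ((prodc ψ₁ ψ).LFunction 1)
      have e2 : 1 - β₁ ≤ 4 * (A₁ * (C₁ * (1 - σ) * (Real.log r) ^ 2) *
          (C * ((2 + Real.log r₁) * Real.log r))) * (B * (r : ℝ) ^ (ε / 5)) := by
        refine e1.trans ?_
        have hp4 : 0 ≤ (10 ^ 6 * ((r₁ : ℝ) * r) ^ 2) ^ (6 * (1 - β₁)) :=
          Real.rpow_nonneg (by positivity) _
        gcongr
      have e3 := S4_log_cube (r := (r : ℝ)) hε hr
      have e4 : 1 - β₁ ≤ D * (r : ℝ) ^ ε * (1 - σ) := by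
        have hK : 0 ≤ 4 * A₁ * C₁ * C * (2 + Real.log r₁) * B * (1 - σ) := by positivity
        calc 1 - β₁ ≤ _ := e2
          _ = (4 * A₁ * C₁ * C * (2 + Real.log r₁) * B * (1 - σ)) *
              ((Real.log r) ^ 3 * (r : ℝ) ^ (ε / 5)) := by ring
          _ ≤ (4 * A₁ * C₁ * C * (2 + Real.log r₁) * B * (1 - σ)) *
              ((5 / ε) ^ 3 * (r : ℝ) ^ ε) := mul_le_mul_of_nonneg_left e3 hK
          _ = _ := by rw [hD]; ring
      calc m / (r : ℝ) ^ ε ≤ ((1 - β₁) / D) / (r : ℝ) ^ ε :=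
            div_le_div_of_nonneg_right m4 h3p.le
        _ ≤ 1 - σ := by
            rw [div_div, div_le_iff₀ (by positivity)]
            linarith

/-- **Siegel.** Let `ε ≤ 1` without loss. CASE A: no real primitive `ψ₁ ≠ 1` has a real zero in
`[1 - ε/60, 1)`: take `c = ε/60` (`r^ε ≥ 1`; at `σ = 1` use
`DirichletCharacter.LFunction_ne_zero_of_one_le_re`). CASE B: fix `(r₁, ψ₁, β₁)` with
`1 - ε/60 ≤ β₁ < 1`, a zero. Let `(r, ψ)` be another one, with a zero `σ < 1`. If `r < 100`, or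
`(r, ψ) = (r₁, ψ₁)`, `zero_elementary` gives `1 - σ ≥ c₀/r² ≥ c₀/max(100, r₁)²`. If
`σ < 1 - 1/log r`, then `1 - σ > 1/log r ≥ c r^(-ε)`. Otherwise `L1_upper` gives
`‖L(1,ψ)‖ ≤ C₁ (1-σ) log² r`, and `estermann` (with `ψ₂ = ψ`; `prodc_ne_one`) and `L1_log` give
`1 - β₁ ≤ 4 C(1 + log r₁) · C₁ (1-σ) log² r · C (1 + log r₁ + log r) · (10^6 r₁²)^(ε/10) r^(ε/5)`,
so `1 - σ ≥ c₂ r^(-ε/5)/(1 + log r)^3 ≥ c₃ r^(-ε)` (`Real.log_le_rpow_div`), `c₃` depending on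
`ε, r₁, β₁` only. -/
theorem siegel (ε : ℝ) (hε : 0 < ε) : ∃ c : ℝ, 0 < c ∧ ∀ (r : ℕ) [NeZero r]
    (ψ : DirichletCharacter ℂ r), ψ.IsPrimitive → ψ ≠ 1 → ψ ^ 2 = 1 → ∀ σ : ℝ,
    1 - c / (r : ℝ) ^ ε ≤ σ → σ ≤ 1 → ψ.LFunction (σ : ℂ) ≠ 0 := by
  obtain ⟨c, hc, H⟩ := S4_claim (min ε 1) (by positivity) (min_le_right _ _)
  refine ⟨c / 2, by positivity, fun r _ ψ hp h1 h2 σ hσ hσ1 hz => ?_⟩
  have hr : (1 : ℝ) ≤ r := by
    have : 0 < r := Nat.pos_of_ne_zero (NeZero.ne r)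
    exact_mod_cast this
  rcases hσ1.lt_or_eq with hlt | heq
  · have h3 := H r ψ hp h1 h2 σ hlt hz
    have h4 : (r : ℝ) ^ (min ε 1) ≤ (r : ℝ) ^ ε :=
      Real.rpow_le_rpow_of_exponent_le hr (min_le_left _ _)
    have h5 : 0 < (r : ℝ) ^ (min ε 1) := Real.rpow_pos_of_pos (by linarith) _
    have h6 : c / (r : ℝ) ^ ε ≤ c / (r : ℝ) ^ (min ε 1) :=
      div_le_div_of_nonneg_left hc.le h5 h4
    have h7 : 0 < c / (r : ℝ) ^ ε := div_pos hc (Real.rpow_pos_of_pos (by linarith) _)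
    have h8 : c / 2 / (r : ℝ) ^ ε = (c / (r : ℝ) ^ ε) / 2 := by ring
    rw [h8] at hσ
    linarith
  · subst heq
    exact DirichletCharacter.LFunction_ne_zero_of_one_le_re ψ (Or.inl h1) (by simp) hz

end Pool.Agent.Lib.H57S
end

-- from Lib.H57S.S5
section

/-!
# Chunk S5: good levels in every interval `[(log Y)^K, exp (√(log Y))]`
-/

open Finset

namespace Pool.Agent.Lib.H57S

open Pool.Agent.Lib.H68T

open Filter in
theorem S5_growth (K : ℝ) : ∃ x₀ : ℝ, 1 ≤ x₀ ∧ ∀ x : ℝ, x₀ ≤ x →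
    x ^ (2 * K) + 1 ≤ Real.exp x ∧ Real.exp (x / 2) + 1 ≤ Real.exp x := by
  have h1 := tendsto_rpow_mul_exp_neg_mul_atTop_nhds_zero (2 * K) 1 one_pos
  have h2 : ∀ᶠ x : ℝ in atTop, x ^ (2 * K) * Real.exp (-1 * x) < 1 / 2 :=
    h1.eventually (gt_mem_nhds (by norm_num))
  obtain ⟨x₁, hx₁⟩ := eventually_atTop.1 h2
  refine ⟨max x₁ 2, by simp, fun x hx => ?_⟩
  have hx1 : x₁ ≤ x := (le_max_left _ _).trans hx
  have hx2 : 2 ≤ x := (le_max_right _ _).trans hx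
  have h3 := hx₁ x hx1
  have e1 : Real.exp (-1 * x) * Real.exp x = 1 := by rw [← Real.exp_add]; simp
  have ep := Real.exp_pos x
  have h4 : x ^ (2 * K) < Real.exp x / 2 := by
    have := mul_lt_mul_of_pos_right h3 ep
    rw [mul_assoc, e1, mul_one] at this
    linarith
  have h5 : 2 ≤ Real.exp (x / 2) := by
    have := Real.add_one_le_exp (x / 2)
    linarith
  have h6 : Real.exp x = Real.exp (x / 2) * Real.exp (x / 2) := by
    rw [← Real.exp_add]; congr 1; ring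
  constructor
  · nlinarith
  · nlinarith

/-- `c, K₀` from `good_below`. Given `K` (wlog `K ≥ 1`), let `Q₁ = ⌊exp (√(log Y))⌋₊`. If `Good c Q₁`,
take `Q = Q₁`. Otherwise there are `r ≤ Q₁`, `ψ` primitive real `≠ 1` and a zero
`σ ∈ [1 - c/log Q₁, 1)` (`σ ≠ 1` by `DirichletCharacter.LFunction_ne_zero_of_one_le_re`), i.e.
`Exc c Q₁ r ψ σ`. By `siegel` with `ε = 1/(4 (K+1))`: `c_ε/r^ε < 1 - σ ≤ c/log Q₁`, so
`r^ε > (c_ε/c) log Q₁ ≥ (c_ε/(2c)) √(log Y)` and `r ≥ (c_ε/(2c))^(4(K+1)) (log Y)^(2(K+1)) ≥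
(log Y)^K + K₀ + 1` for `Y ≥ Y₀`. By `good_below`, `Q = r - 1` works. -/
theorem good_level : ∃ c : ℝ, 0 < c ∧ ∀ K : ℝ, ∃ Y0 : ℝ, ∀ Y : ℝ, Y0 ≤ Y → ∃ Q : ℕ,
    (Real.log Y) ^ K ≤ Q ∧ (Q : ℝ) ≤ Real.exp (Real.sqrt (Real.log Y)) ∧ Good c Q := by
  obtain ⟨c, K₀, hc, hbelow⟩ := good_below
  refine ⟨c, hc, fun K => ?_⟩
  set K' : ℝ := max K 1 with hK'
  have hK1 : 1 ≤ K' := le_max_right _ _
  have hKK : K ≤ K' := le_max_left _ _
  obtain ⟨cε, hcε, hS⟩ := siegel (1 / (4 * (K' + 1))) (by positivity)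
  obtain ⟨x₀, hx₀1, hx₀⟩ := S5_growth K
  set A : ℝ := (cε / (2 * c)) ^ (4 * (K' + 1)) with hA
  have hAp : 0 < A := Real.rpow_pos_of_pos (by positivity) _
  set x₂ : ℝ := max x₀ ((3 + |K₀|) / A) with hx₂
  refine ⟨Real.exp (x₂ ^ 2), fun Y hY => ?_⟩
  have hx₂1 : 1 ≤ x₂ := hx₀1.trans (le_max_left _ _)
  have hYp : 0 < Y := (Real.exp_pos _).trans_le hY
  have hL : x₂ ^ 2 ≤ Real.log Y := by rwa [Real.le_log_iff_exp_le hYp]
  set x : ℝ := Real.sqrt (Real.log Y) with hx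
  have hL0 : 0 ≤ Real.log Y := (by positivity : (0:ℝ) ≤ x₂ ^ 2).trans hL
  have hxx : x ^ 2 = Real.log Y := Real.sq_sqrt hL0
  have hx2 : x₂ ≤ x := Real.le_sqrt_of_sq_le hL
  have hx1 : 1 ≤ x := hx₂1.trans hx2
  have hx0 : 0 ≤ x := by linarith
  have hLK : (Real.log Y) ^ K = x ^ (2 * K) := by
    rw [← hxx, ← Real.rpow_natCast, ← Real.rpow_mul hx0]; norm_num
  obtain ⟨g1, g2⟩ := hx₀ x ((le_max_left _ _).trans hx2)
  have g3 : 3 + |K₀| ≤ A * x := by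
    have : (3 + |K₀|) / A ≤ x := (le_max_right _ _).trans hx2
    rw [div_le_iff₀ hAp] at this
    linarith
  set Q₁ : ℕ := ⌊Real.exp x⌋₊ with hQ₁
  have q1 : (Q₁ : ℝ) ≤ Real.exp x := Nat.floor_le (Real.exp_pos _).le
  have q2 : Real.exp x < Q₁ + 1 := Nat.lt_floor_add_one _
  by_cases hG : Good c Q₁
  · refine ⟨Q₁, ?_, q1, hG⟩
    rw [hLK]; linarith
  · unfold Good at hG
    push Not at hG
    obtain ⟨r, _, ψ, hrQ, hp, hn, hs, σ, hσ, hσ1, hz⟩ := hG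
    have hσne : σ < 1 := by
      rcases hσ1.lt_or_eq with h | h
      · exact h
      · subst h
        exact absurd hz (DirichletCharacter.LFunction_ne_zero_of_one_le_re ψ (Or.inl hn) (by simp))
    have hexc : Exc c Q₁ r ψ σ := ⟨hrQ, hp, hn, hs, hσ, hσne, hz⟩
    have hr : (1 : ℝ) ≤ r := by
      have : 0 < r := Nat.pos_of_ne_zero (NeZero.ne r)
      exact_mod_cast this
    have hr0 : (0 : ℝ) < r := by linarith
    set ε : ℝ := 1 / (4 * (K' + 1)) with hε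
    have hεp : 0 < ε := by positivity
    have h1 : cε / (r : ℝ) ^ ε < 1 - σ := by
      by_contra hcon
      push Not at hcon
      exact hS r ψ hp hn hs σ (by linarith) hσ1 hz
    have hlogQ : x / 2 ≤ Real.log Q₁ := by
      have h2 : Real.exp (x / 2) ≤ Q₁ := by linarith
      have h3 : (0 : ℝ) < Q₁ := (Real.exp_pos _).trans_le h2
      rwa [Real.le_log_iff_exp_le h3]
    have hlogQp : 0 < Real.log Q₁ := by linarith
    have hrε : 0 < (r : ℝ) ^ ε := Real.rpow_pos_of_pos hr0 _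
    have h4 : cε / (r : ℝ) ^ ε < c / Real.log Q₁ := by linarith
    have h5 : cε / (2 * c) * x < (r : ℝ) ^ ε := by
      rw [div_lt_div_iff₀ hrε hlogQp] at h4
      have h6 : cε * (x / 2) < c * (r : ℝ) ^ ε :=
        lt_of_le_of_lt (mul_le_mul_of_nonneg_left hlogQ hcε.le) h4
      have h7 : cε / (2 * c) * x = (cε * (x / 2)) / c := by field_simp
      rw [h7, div_lt_iff₀ hc]
      linarith
    have h8 : A * x ^ (4 * (K' + 1)) ≤ r := by
      have h9 : (cε / (2 * c) * x) ^ (4 * (K' + 1)) ≤ ((r : ℝ) ^ ε) ^ (4 * (K' + 1)) :=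
        Real.rpow_le_rpow (by positivity) h5.le (by positivity)
      rw [Real.mul_rpow (by positivity) hx0, ← Real.rpow_mul hr0.le] at h9
      have h10 : ε * (4 * (K' + 1)) = 1 := by rw [hε]; field_simp
      rw [h10, Real.rpow_one] at h9
      exact h9
    have h11 : x ^ (4 * (K' + 1)) = x ^ (2 * K') * x ^ (2 * K' + 4) := by
      rw [← Real.rpow_add (by linarith)]; congr 1; ring
    have h12 : x ≤ x ^ (2 * K' + 4) := by
      calc x = x ^ (1 : ℝ) := (Real.rpow_one x).symm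
        _ ≤ _ := Real.rpow_le_rpow_of_exponent_le hx1 (by linarith)
    have h13 : 1 ≤ x ^ (2 * K') := Real.one_le_rpow hx1 (by linarith)
    have h14 : x ^ (2 * K) ≤ x ^ (2 * K') :=
      Real.rpow_le_rpow_of_exponent_le hx1 (by linarith)
    have h15 : x ^ (2 * K') * (3 + |K₀|) ≤ r := by
      calc x ^ (2 * K') * (3 + |K₀|) ≤ x ^ (2 * K') * (A * x) :=
            mul_le_mul_of_nonneg_left g3 (by linarith)
        _ ≤ x ^ (2 * K') * (A * x ^ (2 * K' + 4)) := by gcongr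
        _ = A * x ^ (4 * (K' + 1)) := by rw [h11]; ring
        _ ≤ r := h8
    have hKa : 0 ≤ |K₀| := abs_nonneg _
    have hKb : K₀ ≤ |K₀| := le_abs_self _
    have h16 : x ^ (2 * K) + 1 + |K₀| ≤ r := by nlinarith
    have h17 : (0 : ℝ) ≤ x ^ (2 * K) := Real.rpow_nonneg hx0 _
    have hgood := hbelow Q₁ r ψ σ (by linarith) hexc
    have hr1 : 1 ≤ r := by exact_mod_cast hr
    have hcast : ((r - 1 : ℕ) : ℝ) = (r : ℝ) - 1 := by push_cast [Nat.cast_sub hr1]; ring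
    refine ⟨r - 1, ?_, ?_, hgood⟩
    · rw [hLK, hcast]; linarith
    · rw [hcast]
      have : (r : ℝ) ≤ Q₁ := by exact_mod_cast hrQ
      linarith

end Pool.Agent.Lib.H57S
end

-- from Lib.H57M.Q1
section

/-!
# Chunk Q1: elementary facts on `argCount`
-/

open Finset Polynomial

namespace Pool.Agent.Lib.H57M

open Pool.Agent.Lib.H59

/-- For large `Y` the set `argSet G Y` is `{1, .., argCount G Y}` (`G` is eventually increasing and tends to
infinity: for `n0` beyond which `G` is strictly increasing and larger than all earlier values, and `Y > G(n0)`);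
compare `Lib/H59` (`argSet`, `argCount` lemmas in `PolyKey`, `SchinzelUpper`). -/
theorem argSet_eq (G : ℤ[X]) (hG : 1 ≤ G.natDegree) (hlc : 0 < G.leadingCoeff) :
    ∃ Y0 : ℕ, ∀ Y : ℕ, Y0 ≤ Y → ∀ n : ℕ, n ∈ argSet G Y ↔ 1 ≤ n ∧ n ≤ argCount G Y := by
  obtain ⟨Y0, h⟩ := Filter.eventually_atTop.1 (Pool.Agent.Lib.H59.argSet_eq hG hlc)
  refine ⟨Y0, fun Y hY n => ?_⟩
  have h1 := h Y hY
  constructor
  · intro hn
    rw [h1, Finset.mem_coe, Finset.mem_Icc] at hn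
    exact hn
  · intro hn
    rw [h1, Finset.mem_coe, Finset.mem_Icc]
    exact hn

theorem Q1_low (G : ℤ[X]) (hlc : 0 < G.leadingCoeff) :
    ∃ n0 : ℕ, ∀ n : ℕ, n0 ≤ n →
      (n : ℝ) ^ G.natDegree / 2 ≤ ((G.eval (n : ℤ) : ℤ) : ℝ) := by
  set P : ℝ[X] := G.map (Int.castRingHom ℝ) with hP
  have hinj : Function.Injective (Int.castRingHom ℝ) := RingHom.injective_int _
  have hdeg : P.natDegree = G.natDegree := natDegree_map_eq_of_injective hinj _
  have hlcP : P.leadingCoeff = (G.leadingCoeff : ℝ) := by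
    rw [hP, leadingCoeff_map_of_injective hinj]
    simp
  have h1 : (1 : ℝ) ≤ P.leadingCoeff := by
    rw [hlcP]
    exact_mod_cast hlc
  have h2 := (P.isEquivalent_atTop_lead).isLittleO.def (c := 1 / 2) (by norm_num)
  obtain ⟨x0, hx0⟩ := Filter.eventually_atTop.1 h2
  refine ⟨⌈x0⌉₊, fun n hn => ?_⟩
  have h3 := hx0 (n : ℝ) ((Nat.le_ceil x0).trans (by exact_mod_cast hn))
  simp only [Pi.sub_apply] at h3
  rw [Real.norm_eq_abs, Real.norm_eq_abs, hdeg] at h3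
  have h4 : 0 ≤ P.leadingCoeff * (n : ℝ) ^ G.natDegree := by positivity
  rw [abs_of_nonneg h4] at h3
  have h5 := (abs_le.1 h3).1
  have h6 : P.eval (n : ℝ) = ((G.eval (n : ℤ) : ℤ) : ℝ) := eval_map_real G n
  rw [h6] at h5
  have h7 : (n : ℝ) ^ G.natDegree ≤ P.leadingCoeff * (n : ℝ) ^ G.natDegree :=
    le_mul_of_one_le_left (by positivity) h1
  linarith

/-- two sided bounds for `argCount` -/
theorem Q1_two (G : ℤ[X]) (hG : 1 ≤ G.natDegree) (hlc : 0 < G.leadingCoeff) (m : ℕ) :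
    ∃ N0 : ℕ, ∀ N : ℕ, N0 ≤ N → 1 ≤ argCount G N ∧ m ≤ argCount G N ∧
      (argCount G N : ℝ) ^ G.natDegree ≤ 2 * N ∧
      (N : ℝ) ≤ coeffSum G * 2 ^ G.natDegree * (argCount G N : ℝ) ^ G.natDegree := by
  obtain ⟨n0, hn0⟩ := Q1_low G hlc
  have hG0 : G ≠ 0 := by rintro rfl; simp at hlc
  have hA : 1 ≤ coeffSum G := one_le_coeffSum hG0
  have hev := (Pool.Agent.Lib.H59.argSet_eq hG hlc).and
    ((argCount_tendsto hG hlc).eventually_ge_atTop (max 1 (max n0 m)))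
  obtain ⟨N0, h⟩ := Filter.eventually_atTop.1 hev
  refine ⟨N0, fun N hN => ?_⟩
  obtain ⟨h1, h2⟩ := h N hN
  set X := argCount G N with hX
  have hX1 : 1 ≤ X := (le_max_left _ _).trans h2
  have hXn : n0 ≤ X := ((le_max_left _ _).trans (le_max_right _ _)).trans h2
  have hXm : m ≤ X := ((le_max_right _ _).trans (le_max_right _ _)).trans h2
  have hmem : X ∈ argSet G N := by
    rw [h1, Finset.mem_coe, Finset.mem_Icc]
    exact ⟨hX1, le_rfl⟩
  have hnot : X + 1 ∉ argSet G N := by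
    rw [h1, Finset.mem_coe, Finset.mem_Icc]
    omega
  have hNle : (N : ℤ) ≤ G.eval ((X + 1 : ℕ) : ℤ) := by
    by_contra hcon
    push Not at hcon
    exact hnot ⟨by omega, by omega⟩
  have hNle' : (N : ℝ) ≤ coeffSum G * ((X + 1 : ℕ) : ℝ) ^ G.natDegree := by
    refine le_trans ?_ (eval_le_coeffSum G (by omega))
    exact_mod_cast hNle
  have hX1' : (1 : ℝ) ≤ X := by exact_mod_cast hX1
  refine ⟨hX1, hXm, ?_, ?_⟩
  · have h3 := hn0 X hXn
    have h4 : G.eval (X : ℤ) ≤ N := by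
      have := hmem.2
      omega
    have h5 : ((G.eval (X : ℤ) : ℤ) : ℝ) ≤ N := by exact_mod_cast h4
    linarith
  · have h3 : ((X + 1 : ℕ) : ℝ) ^ G.natDegree ≤ 2 ^ G.natDegree * (X : ℝ) ^ G.natDegree := by
      rw [← mul_pow]
      push_cast
      exact pow_le_pow_left₀ (by positivity) (by linarith) _
    calc (N : ℝ) ≤ coeffSum G * ((X + 1 : ℕ) : ℝ) ^ G.natDegree := hNle'
      _ ≤ coeffSum G * (2 ^ G.natDegree * (X : ℝ) ^ G.natDegree) :=
          mul_le_mul_of_nonneg_left h3 (by linarith)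
      _ = _ := by ring


end Pool.Agent.Lib.H57M
end
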