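import Mathlib
import Pool.Agent.Lib.H59M.M1.M010
import Pool.Agent.Lib.H59M.M1.M011
import Pool.Agent.Lib.H59M.M1.M012
import Pool.Agent.Lib.H59M.M1.M014
import Pool.Agent.Lib.H59M.M1.M016
import Pool.Agent.Lib.H59M.M1.M017
import Pool.Agent.Lib.H59M.M1.M018
import Pool.Agent.Lib.H59M.M1.M023
import Pool.Agent.Lib.H59M.M1.M030
import Pool.Agent.Lib.H59M.M1.M033
import Pool.Agent.Lib.H59M.M1.M034
import Pool.Agent.Lib.H59M.M1.M049
import Pool.Agent.Lib.H59M.M1.M056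
import Pool.Agent.Lib.H59M.M1.M058
import Pool.Agent.Lib.H59M.M1.M059
import Pool.Agent.Lib.H59M.M1.M060
import Pool.Agent.Lib.H59M.M1.M063
import Pool.Agent.Lib.H59M.M1.M066

/-! Merged copies (to shorten the build) of Lib.H18Q.MPA, Lib.H59P.TDefs, Lib.H59P.T0, Lib.H59P.T3, Lib.H59P.T1, Lib.H59P.T2, Lib.H59P.T4A, Lib.H59P.X1A, Lib.H59P.X1, Lib.H59P.X2A, Lib.H59P.X2, Lib.H59P.X3, Lib.H59P.YDefs, Lib.H59P.Y1, Lib.H59P.Y1B, Lib.H59P.A5, Lib.H59P.A6, Lib.H59P.Y8A, Lib.H59P.Y8, Lib.H59P.Y9. -/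

-- from Lib.H18Q.MPA
section

/-!
# Project H18Q, chunk MPA: parameters, and the distance of a real zero from 1
-/

open Finset

namespace Pool.Agent.Lib.H18Q

open Pool.Agent.Lib.H68T Pool.Agent.Lib.H18E Pool.Agent.Lib.GoldbachGraph

/-- A real zero is not too close to `1`: `1 - β ≥ c/(r (1 + log r)²)`.

Proof. `r ≤ 100`: `zero_elementary` (`H68X/XSIE`). `r ≥ 100`: if `β < 1 - 1/log r` clear; else
`1/(100 r) ≤ ‖L(1, ψ)‖` (`L1_lower`, `H68X/XL1`) `≤ C (1 - β) (log r)²` (`L1_upper`, `H68X/XRL`). -/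
theorem zero_lower : ∃ c : ℝ, 0 < c ∧ ∀ (r : ℕ) [NeZero r] (ψ : DirichletCharacter ℂ r), ψ ≠ 1 →
    ψ ^ 2 = 1 → ∀ β : ℝ, β < 1 → ψ.LFunction (β : ℂ) = 0 →
    c / (r * (1 + Real.log r) ^ 2) ≤ 1 - β := by
  obtain ⟨c1, hc1, H1⟩ := Pool.Agent.Lib.H68T.zero_elementary
  obtain ⟨C, hC, H2⟩ := Pool.Agent.Lib.H68T.L1_upper
  refine ⟨min (c1 / 100) (min 1 (1 / (100 * C))), by positivity, ?_⟩
  intro r _ ψ hψ hψ2 β hβ h0
  set c := min (c1 / 100) (min 1 (1 / (100 * C))) with hc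
  have hcc1 : c ≤ c1 / 100 := min_le_left _ _
  have hcc2 : c ≤ 1 := (min_le_right _ _).trans (min_le_left _ _)
  have hcc3 : c ≤ 1 / (100 * C) := (min_le_right _ _).trans (min_le_right _ _)
  have hc0 : 0 < c := by positivity
  have hr1 : (1 : ℝ) ≤ r := by
    have : 0 < r := Nat.pos_of_ne_zero (NeZero.ne r)
    exact_mod_cast this
  have hlog : 0 ≤ Real.log r := Real.log_nonneg hr1
  have hsq : 1 ≤ (1 + Real.log r) ^ 2 := by nlinarith
  by_cases hr : r < 100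
  · refine le_trans ?_ (H1 r ψ hψ hψ2 β hβ h0)
    have hr' : (r : ℝ) ≤ 100 := by exact_mod_cast hr.le
    rw [div_le_div_iff₀ (by positivity) (by positivity)]
    have h1 : c * (r : ℝ) ≤ c1 := by
      have : c * (r : ℝ) ≤ c1 / 100 * 100 := mul_le_mul hcc1 hr' (by positivity) (by positivity)
      linarith
    calc c * (r : ℝ) ^ 2 = (c * r) * r := by ring
      _ ≤ c1 * r := mul_le_mul_of_nonneg_right h1 (by positivity)
      _ = c1 * (r * 1) := by ring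
      _ ≤ c1 * (r * (1 + Real.log r) ^ 2) := by
        apply mul_le_mul_of_nonneg_left _ hc1.le
        exact mul_le_mul_of_nonneg_left hsq (by positivity)
  · have hr100 : 100 ≤ r := not_lt.mp hr
    have hrR : (100 : ℝ) ≤ r := by exact_mod_cast hr100
    have hlogp : 0 < Real.log r := Real.log_pos (by linarith)
    by_cases hb : β < 1 - 1 / Real.log r
    · refine le_trans ?_ (show 1 / Real.log r ≤ 1 - β by linarith)
      rw [div_le_div_iff₀ (by positivity) hlogp]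
      have h1 : Real.log r ≤ (1 + Real.log r) ^ 2 := by nlinarith
      have h2 : (1 + Real.log r) ^ 2 ≤ r * (1 + Real.log r) ^ 2 := by nlinarith
      nlinarith
    · have h1 := H2 r ψ hr100 hψ β (not_lt.mp hb) hβ.le h0
      have h2 := Pool.Agent.Lib.H68T.L1_lower r ψ hψ hψ2
      have h3 : 1 / (100 * (r : ℝ)) ≤ C * (1 - β) * (Real.log r) ^ 2 := h2.trans h1
      have hb1 : 0 < 1 - β := by linarith
      rw [div_le_iff₀ (by positivity)] at h3
      rw [div_le_iff₀ (by positivity)]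
      have h4 : C * (1 - β) * (Real.log r) ^ 2 * (100 * r) ≤
          (100 * C) * ((1 - β) * (r * (1 + Real.log r) ^ 2)) := by
        have h5 : (Real.log r) ^ 2 ≤ (1 + Real.log r) ^ 2 := by nlinarith
        calc C * (1 - β) * (Real.log r) ^ 2 * (100 * r) = (100 * C) * ((1 - β) * (r * (Real.log r) ^ 2)) := by ring
          _ ≤ (100 * C) * ((1 - β) * (r * (1 + Real.log r) ^ 2)) := by
            apply mul_le_mul_of_nonneg_left _ (by positivity)
            apply mul_le_mul_of_nonneg_left _ hb1.le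
            exact mul_le_mul_of_nonneg_left h5 (by positivity)
      refine hcc3.trans ?_
      rw [div_le_iff₀ (by positivity)]
      linarith



end Pool.Agent.Lib.H18Q
end

-- from Lib.H59P.TDefs
section

/-!
# Project H59P, part T: definitions for the local factors (helper24)
-/

open Finset

namespace Pool.Agent.Lib.H59P

noncomputable section

/-- The number of classes `n` modulo `l` with `l ∣ n + h_i` for some `i`. -/
def nu {k : ℕ} (l : ℕ) (h : Fin k → ℕ) : ℕ :=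
  ((range l).filter (fun n => ∃ i, l ∣ n + h i)).card

/-- The pairs `(i, j)` of indices with `j < i`. -/
def prs (k : ℕ) : Finset (Fin k × Fin k) := univ.filter (fun p => p.2 < p.1)

/-- The number of pairs `j < i` with `h_i ≡ h_j` modulo `l`. -/
def col {k : ℕ} (l : ℕ) (h : Fin k → ℕ) : ℕ :=
  ((prs k).filter (fun p => (l : ℤ) ∣ (h p.1 : ℤ) - (h p.2 : ℤ))).card

/-- `∑ l^(η-1)` over the primes `l ∣ n` with `w < l ≤ X`. -/
def Fz (η w : ℝ) (X n : ℕ) : ℝ := ∑ l ∈ (pr X).filter (fun l : ℕ => w < (l : ℝ) ∧ l ∣ n), (l : ℝ) ^ (η - 1)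

/-- `∑_{j < i} Fz |h_i - h_j|` -/
def GG {k : ℕ} (η w : ℝ) (X : ℕ) (h : Fin k → ℕ) : ℝ :=
  ∑ p ∈ prs k, Fz η w X ((h p.1 : ℤ) - (h p.2 : ℤ)).natAbs

/-- The product `∏_{l ≤ X} (1 + l^η |tp l h|)` which bounds all tails (Rankin). -/
def RP {k : ℕ} (η : ℝ) (X : ℕ) (h : Fin k → ℕ) : ℝ := ∏ l ∈ pr X, (1 + (l : ℝ) ^ η * |tp l h|)

theorem mem_pr {l X : ℕ} : l ∈ pr X ↔ l ≤ X ∧ l.Prime := by
  unfold pr
  rw [mem_filter, mem_Icc]
  constructor
  · rintro ⟨⟨-, h1⟩, h2⟩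
    exact ⟨h1, h2⟩
  · rintro ⟨h1, h2⟩
    exact ⟨⟨h2.one_lt.le, h1⟩, h2⟩

end

end Pool.Agent.Lib.H59P
end

-- from Lib.H59P.T0
section

/-!
# Chunk T0 (M): the local factor

* `T0_tp`. For a prime `l` and an integer `n`: `1 + gl l (n + h i)` is `l/(l-1)` if `l` does not divide
  `n + h i` and `0` else. So `∏_i (1 + gl l (n + h i)) = (l/(l-1))^k` if `l ∤ n + h i` for all `i`, and `0`
  if `l ∣ n + h i` for some `i` (the divisibility of integers `(l : ℤ) ∣ (n : ℤ) + h i` is the one of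
  natural numbers: `exact_mod_cast`). The sum over `n < l` is `(l - nu l h) (l/(l-1))^k`. (`k = 0`: both
  sides are `1`; `nu = 0`.)
* `T0_nu_le_k`. The classes `n < l` with `∃ i, l ∣ n + h i` inject into `Fin k` (choose `i`; two `n, n' < l`
  with the same `i` satisfy `l ∣ n - n'`, so they are equal). E.g. the set is contained in the image of
  `univ : Finset (Fin k)` under `i ↦ (l - h i % l) % l`.
* `T0_nu_lt`. `Adm h` gives `n` with `l ∤ n + h i` for all `i`; then `n % l < l` is not in the filtered set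
  (`(n % l + h i) % l = (n + h i) % l`), so the filtered set is a proper subset of `range l`.
* `T0_k_le`. Let `r i = (l - h i % l) % l`, so `nu l h = (univ.image r).card` (the filtered set is exactly the
  image). Call `i` old if there is `j < i` with `r j = r i`. The other `i` (first occurrences) inject into
  the image: at most `nu` of them. The old ones inject into the set of pairs counted by `col` (map `i` to
  `(i, j)` with such a `j`; `r j = r i` iff `h j ≡ h i` mod `l` iff `(l : ℤ) ∣ (h i : ℤ) - h j`).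
* `T0_nonneg`: each product is nonnegative. `T0_le`: `1 - nu / l ≤ 1`, in `T0_tp`.
-/

open Finset

namespace Pool.Agent.Lib.H59P

theorem t0_gl (l : ℕ) (hl : l.Prime) (m : ℕ) :
    1 + gl l (m : ℤ) = if l ∣ m then 0 else (l : ℝ) / ((l : ℝ) - 1) := by
  have h1 : (1 : ℝ) < l := by exact_mod_cast hl.one_lt
  have h2 : (l : ℝ) - 1 ≠ 0 := by linarith
  rw [gl]
  by_cases h : l ∣ m
  · rw [if_pos h, if_pos (Int.natCast_dvd_natCast.2 h)]
    norm_num
  · rw [if_neg h, if_neg fun h' => h (Int.natCast_dvd_natCast.1 h')]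
    field_simp
    ring

theorem t0_prod {k : ℕ} (l : ℕ) (hl : l.Prime) (h : Fin k → ℕ) (n : ℕ) :
    ∏ i, (1 + gl l ((n : ℤ) + h i)) =
      if ∃ i, l ∣ n + h i then 0 else ((l : ℝ) / ((l : ℝ) - 1)) ^ k := by
  have h1 : ∀ i, 1 + gl l ((n : ℤ) + h i) = if l ∣ n + h i then 0 else (l : ℝ) / ((l : ℝ) - 1) := by
    intro i
    rw [← t0_gl l hl (n + h i)]
    push_cast
    rfl
  rw [Finset.prod_congr rfl fun i _ => h1 i]
  split_ifs with hex
  · obtain ⟨i, hi⟩ := hex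
    exact Finset.prod_eq_zero (Finset.mem_univ i) (if_pos hi)
  · have h2 : ∀ i ∈ (univ : Finset (Fin k)), (if l ∣ n + h i then 0 else (l : ℝ) / ((l : ℝ) - 1)) =
        (l : ℝ) / ((l : ℝ) - 1) := fun i _ => if_neg fun hd => hex ⟨i, hd⟩
    rw [Finset.prod_congr rfl h2, Finset.prod_const, Finset.card_univ, Fintype.card_fin]

/-- The class modulo `l` of `- a`. -/
def t0_r (l a : ℕ) : ℕ := (l - a % l) % l

theorem t0_r_dvd {l : ℕ} (hl : 0 < l) (a : ℕ) : t0_r l a < l ∧ l ∣ t0_r l a + a := by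
  refine ⟨Nat.mod_lt _ hl, ?_⟩
  have h1 : t0_r l a + a ≡ (l - a % l) + a % l [MOD l] :=
    (Nat.mod_modEq _ _).add (Nat.mod_modEq a l).symm
  have h2 : (l - a % l) + a % l = l := Nat.sub_add_cancel (Nat.mod_lt a hl).le
  rw [h2] at h1
  exact (Nat.modEq_zero_iff_dvd.1 (h1.trans (Nat.modEq_zero_iff_dvd.2 dvd_rfl)))

theorem t0_eq {l n n' a : ℕ} (hn : n < l) (hn' : n' < l) (h : l ∣ n + a) (h' : l ∣ n' + a) :
    n = n' := by
  have h1 : n + a ≡ n' + a [MOD l] :=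
    (Nat.modEq_zero_iff_dvd.2 h).trans (Nat.modEq_zero_iff_dvd.2 h').symm
  have h2 := Nat.ModEq.add_right_cancel' a h1
  exact Nat.ModEq.eq_of_lt_of_lt h2 hn hn'

theorem t0_image {k : ℕ} (l : ℕ) (hl : 0 < l) (h : Fin k → ℕ) :
    (range l).filter (fun n => ∃ i, l ∣ n + h i) = univ.image fun i => t0_r l (h i) := by
  ext n
  rw [mem_filter, mem_range, mem_image]
  constructor
  · rintro ⟨h1, i, hi⟩
    exact ⟨i, mem_univ _, t0_eq (t0_r_dvd hl (h i)).1 h1 (t0_r_dvd hl (h i)).2 hi⟩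
  · rintro ⟨i, -, rfl⟩
    exact ⟨(t0_r_dvd hl (h i)).1, i, (t0_r_dvd hl (h i)).2⟩

theorem T0_tp {k : ℕ} (l : ℕ) (hl : l.Prime) (h : Fin k → ℕ) :
    1 + tp l h = (1 - (nu l h : ℝ) / l) * ((l : ℝ) / ((l : ℝ) - 1)) ^ k := by
  have hl0 : (l : ℝ) ≠ 0 := by exact_mod_cast hl.ne_zero
  rw [tp, Finset.sum_congr rfl fun n _ => t0_prod l hl h n, Finset.sum_ite, Finset.sum_const_zero,
    zero_add, Finset.sum_const, nsmul_eq_mul, nu]
  have h1 := Finset.card_filter_add_card_filter_not (s := range l) (fun n => ∃ i, l ∣ n + h i)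
  rw [card_range] at h1
  have h2 : ((((range l).filter (fun n => ∃ i, l ∣ n + h i)).card : ℕ) : ℝ) +
      ((((range l).filter (fun n => ¬ ∃ i, l ∣ n + h i)).card : ℕ) : ℝ) = l := by
    exact_mod_cast h1
  rw [← eq_sub_iff_add_eq'] at h2
  rw [h2]
  field_simp
  ring

theorem T0_nu_le_k {k : ℕ} (l : ℕ) (hl : l.Prime) (h : Fin k → ℕ) : nu l h ≤ k := by
  rw [nu, t0_image l hl.pos]
  refine Finset.card_image_le.trans ?_
  rw [Finset.card_univ, Fintype.card_fin]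

theorem T0_nu_lt {k : ℕ} (l : ℕ) (hl : l.Prime) (h : Fin k → ℕ) (hA : Adm h) : nu l h < l := by
  obtain ⟨n, hn⟩ := hA l hl
  rw [nu]
  have h1 : ((range l).filter (fun n => ∃ i, l ∣ n + h i)).card < (range l).card := by
    refine Finset.card_lt_card (Finset.filter_ssubset.2 ⟨n % l, mem_range.2 (Nat.mod_lt _ hl.pos), ?_⟩)
    rintro ⟨i, hi⟩
    refine hn i ?_
    have h2 : n % l + h i ≡ n + h i [MOD l] := (Nat.mod_modEq _ _).add_right _
    exact (Nat.ModEq.dvd_iff h2 dvd_rfl).1 hi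
  rwa [card_range] at h1

theorem T0_k_le {k : ℕ} (l : ℕ) (hl : l.Prime) (h : Fin k → ℕ) : k ≤ nu l h + col l h := by
  classical
  have h1 := Finset.card_filter_add_card_filter_not (s := (univ : Finset (Fin k)))
    (fun i => ∃ j, j < i ∧ t0_r l (h j) = t0_r l (h i))
  rw [Finset.card_univ, Fintype.card_fin] at h1
  have h2 : ((univ : Finset (Fin k)).filter
      (fun i => ¬ ∃ j, j < i ∧ t0_r l (h j) = t0_r l (h i))).card ≤ nu l h := by
    rw [nu, t0_image l hl.pos]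
    refine Finset.card_le_card_of_injOn (fun i => t0_r l (h i)) ?_ ?_
    · intro i _
      exact mem_image_of_mem _ (mem_univ i)
    · intro i hi j hj hij
      have hi' := (mem_filter.1 hi).2
      have hj' := (mem_filter.1 hj).2
      rcases lt_trichotomy i j with hlt | heq | hlt
      · exact absurd ⟨i, hlt, hij⟩ hj'
      · exact heq
      · exact absurd ⟨j, hlt, hij.symm⟩ hi'
  have h3 : ((univ : Finset (Fin k)).filter
      (fun i => ∃ j, j < i ∧ t0_r l (h j) = t0_r l (h i))).card ≤ col l h := by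
    rw [col]
    refine le_trans (Finset.card_le_card ?_) (Finset.card_image_le (f := Prod.fst))
    intro i hi
    obtain ⟨j, hj, hij⟩ := (mem_filter.1 hi).2
    refine mem_image.2 ⟨(i, j), mem_filter.2 ⟨mem_filter.2 ⟨mem_univ _, hj⟩, ?_⟩, rfl⟩
    have h4 := (t0_r_dvd hl.pos (h i)).2
    have h5 := (t0_r_dvd hl.pos (h j)).2
    rw [hij] at h5
    have h6 : (l : ℤ) ∣ ((t0_r l (h i) + h i : ℕ) : ℤ) := Int.natCast_dvd_natCast.2 h4
    have h7 : (l : ℤ) ∣ ((t0_r l (h i) + h j : ℕ) : ℤ) := Int.natCast_dvd_natCast.2 h5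
    have h8 := dvd_sub h6 h7
    push_cast at h8
    rwa [add_sub_add_left_eq_sub] at h8
  omega

theorem T0_nonneg {k : ℕ} (l : ℕ) (hl : l.Prime) (h : Fin k → ℕ) : 0 ≤ 1 + tp l h := by
  have hl1 : (1 : ℝ) < l := by exact_mod_cast hl.one_lt
  rw [T0_tp l hl]
  have h1 : nu l h ≤ l := by
    rw [nu]
    exact (Finset.card_filter_le _ _).trans (card_range l).le
  have h2 : (nu l h : ℝ) ≤ l := by exact_mod_cast h1
  have h3 : (nu l h : ℝ) / l ≤ 1 := (div_le_one (by linarith)).2 h2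
  have h4 : 0 ≤ (l : ℝ) / ((l : ℝ) - 1) := div_nonneg (by linarith) (by linarith)
  exact mul_nonneg (by linarith) (pow_nonneg h4 k)

theorem T0_le {k : ℕ} (l : ℕ) (hl : l.Prime) (h : Fin k → ℕ) :
    1 + tp l h ≤ ((l : ℝ) / ((l : ℝ) - 1)) ^ k := by
  have hl1 : (1 : ℝ) < l := by exact_mod_cast hl.one_lt
  rw [T0_tp l hl]
  have h4 : 0 ≤ (l : ℝ) / ((l : ℝ) - 1) := div_nonneg (by linarith) (by linarith)
  have h5 : 0 ≤ (nu l h : ℝ) / l := by positivity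
  exact mul_le_of_le_one_left (pow_nonneg h4 k) (by linarith)

end Pool.Agent.Lib.H59P
end

-- from Lib.H59P.T3
section

/-!
# Chunk T3 (M): Rankin's trick and the truncation of the singular series

* `T3_SS`: `Finset.prod_one_add` (or `Finset.prod_add`).
* `T3_tail`. For `d ∈ T`: `td d h = ∏_{l ∣ d} tp l h` and `1 ≤ (d/E0)^η`, `d = ∏_{l ∈ d.primeFactors} l`
  (`Nat.prod_primeFactors_of_squarefree`), so `|td d h| ≤ E0^(-η) ∏_{l ∈ d.primeFactors} l^η |tp l h|`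
  (`Real.finset_prod_rpow`, `Real.mul_rpow`). The map `d ↦ d.primeFactors` is injective on squarefree
  numbers and has values in `(pr X).powerset`; the sum over all of the powerset is `RP η X h`
  (`Finset.prod_one_add`), all terms being nonnegative.
* `T3_diff`. With `P = (pr z).filter (¬ · ∣ R)`: `SS P h = ∑_{S ⊆ P} ∏_{l ∈ S} tp l h` is the sum of `td d h`
  over the set `A` of the squarefree `d` all of whose prime factors are in `P` (bijection
  `S ↦ ∏_{l ∈ S} l`, inverse `d ↦ d.primeFactors`). `SF E R` is the set of squarefree `d ≤ E` coprime to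
  `R`, i.e. no prime factor of `d` divides `R`. The difference of the two sums is at most the sum of
  `|td d h|` over the symmetric difference. If `d ∈ A`, `d ∉ SF E R`, then `d > E ≥ E0`. If `d ∈ SF E R`,
  `d ∉ A`, then `d` has a prime factor `> z`, so `d > z ≥ E0`. In both cases the prime factors are `≤ X`
  (`≤ z ≤ X`, resp. `≤ d ≤ E ≤ X`). Apply `T3_tail`.
* `T3_abs`: `SF E R` with `E ≤ X`: `T3_tail` with `E0 = 1` (`1 ≤ d`).
* `T3_SSle`: `SS P h ≤ ∏ (1 + |tp l h|) ≤ ∏_{l ∈ P} (1 + l^η |tp l h|) ≤ RP η X h`; the lower bound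
  `0 ≤ 1 + tp l h` is clear from the definition of `tp` (`-1 ≤ gl`), or do it with absolute values.
-/

open Finset

namespace Pool.Agent.Lib.H59P

theorem T3_SS {k : ℕ} (P : Finset ℕ) (h : Fin k → ℕ) :
    SS P h = ∑ S ∈ P.powerset, ∏ l ∈ S, tp l h := by
  rw [SS, Finset.prod_one_add]

theorem T3_tail {k : ℕ} (η E0 : ℝ) (hη : 0 ≤ η) (hE0 : 0 < E0) (X : ℕ) (T : Finset ℕ)
    (hT : ∀ d ∈ T, Squarefree d ∧ (∀ l ∈ d.primeFactors, l ≤ X) ∧ E0 ≤ (d : ℝ)) (h : Fin k → ℕ) :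
    ∑ d ∈ T, |td d h| ≤ E0 ^ (-η) * RP η X h := by
  classical
  have h1 : ∀ d ∈ T, |td d h| ≤ E0 ^ (-η) * ∏ l ∈ d.primeFactors, ((l : ℝ) ^ η * |tp l h|) := by
    intro d hd
    obtain ⟨hsq, -, hle⟩ := hT d hd
    have h2 : ∏ l ∈ d.primeFactors, ((l : ℝ) ^ η * |tp l h|) = (d : ℝ) ^ η * |td d h| := by
      rw [Finset.prod_mul_distrib, td, Finset.abs_prod]
      congr 1
      rw [Real.finsetProd_rpow _ _ fun l _ => Nat.cast_nonneg l]
      congr 1
      have h3 := Nat.prod_primeFactors_of_squarefree hsq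
      rw [← Nat.cast_prod, h3]
    rw [h2, ← mul_assoc]
    have h4 : 1 ≤ E0 ^ (-η) * (d : ℝ) ^ η := by
      rw [Real.rpow_neg hE0.le, inv_mul_eq_div, le_div_iff₀ (Real.rpow_pos_of_pos hE0 _), one_mul]
      exact Real.rpow_le_rpow hE0.le hle hη
    exact le_mul_of_one_le_left (abs_nonneg _) h4
  refine (Finset.sum_le_sum h1).trans ?_
  rw [← Finset.mul_sum]
  refine mul_le_mul_of_nonneg_left ?_ (Real.rpow_nonneg hE0.le _)
  have hinj : Set.InjOn Nat.primeFactors (T : Set ℕ) := by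
    intro d hd d' hd' hdd
    have h2 := Nat.prod_primeFactors_of_squarefree (hT d hd).1
    have h3 := Nat.prod_primeFactors_of_squarefree (hT d' hd').1
    rw [← h2, ← h3, hdd]
  rw [RP, Finset.prod_one_add,
    ← Finset.sum_image (f := fun S : Finset ℕ => ∏ l ∈ S, ((l : ℝ) ^ η * |tp l h|)) hinj]
  refine Finset.sum_le_sum_of_subset_of_nonneg ?_ ?_
  · intro S hS
    obtain ⟨d, hd, rfl⟩ := mem_image.1 hS
    rw [mem_powerset]
    intro l hl
    exact mem_pr.2 ⟨(hT d hd).2.1 l hl, Nat.prime_of_mem_primeFactors hl⟩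
  · intro S _ _
    exact Finset.prod_nonneg fun l _ => mul_nonneg (Real.rpow_nonneg (Nat.cast_nonneg l) _)
      (abs_nonneg _)

/-- The elements of `SF`. -/
theorem t3_mem {E R d : ℕ} : d ∈ SF E R ↔ 1 ≤ d ∧ d ≤ E ∧ Squarefree d ∧ Nat.Coprime d R := by
  unfold SF
  rw [mem_filter, mem_Icc]
  tauto

theorem t3_coprime {R d : ℕ} (hd : d ≠ 0) :
    Nat.Coprime d R ↔ ∀ l ∈ d.primeFactors, ¬ l ∣ R := by
  constructor
  · intro h l hl hlR
    have hp := Nat.prime_of_mem_primeFactors hl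
    have h1 : l ∣ Nat.gcd d R := Nat.dvd_gcd (Nat.dvd_of_mem_primeFactors hl) hlR
    rw [Nat.Coprime] at h
    rw [h] at h1
    exact hp.one_lt.ne' (Nat.dvd_one.1 h1)
  · intro h
    refine Nat.coprime_of_dvd fun l hp hld hlR => ?_
    exact h l (Nat.mem_primeFactors.2 ⟨hp, hld, hd⟩) hlR

theorem T3_diff {k : ℕ} (η E0 : ℝ) (hη : 0 ≤ η) (hE0 : 0 < E0) (X z R E : ℕ) (hz : z ≤ X) (hE : E ≤ X)
    (h1 : E0 ≤ (z : ℝ)) (h2 : E0 ≤ (E : ℝ)) (h : Fin k → ℕ) :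
    |∑ d ∈ SF E R, td d h - SS ((pr z).filter (fun l : ℕ => ¬ l ∣ R)) h| ≤ E0 ^ (-η) * RP η X h := by
  classical
  set P : Finset ℕ := (pr z).filter (fun l : ℕ => ¬ l ∣ R) with hP
  have hPm : ∀ l, l ∈ P ↔ (l ≤ z ∧ l.Prime) ∧ ¬ l ∣ R := by
    intro l
    rw [hP, mem_filter, mem_pr]
  set A : Finset ℕ := P.powerset.image fun S => ∏ l ∈ S, l with hA
  have hpf : ∀ S ∈ P.powerset, (∏ l ∈ S, l).primeFactors = S := by
    intro S hS
    exact Nat.primeFactors_prod fun l hl => ((hPm l).1 (mem_powerset.1 hS hl)).1.2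
  have hSA : SS P h = ∑ d ∈ A, td d h := by
    rw [T3_SS, hA, Finset.sum_image]
    · refine Finset.sum_congr rfl fun S hS => ?_
      rw [td, hpf S hS]
    · intro S hS S' hS' hSS
      have h3 := congrArg Nat.primeFactors hSS
      rwa [hpf S hS, hpf S' hS'] at h3
  have hAm : ∀ d, d ∈ A ↔ Squarefree d ∧ d.primeFactors ⊆ P := by
    intro d
    rw [hA, mem_image]
    constructor
    · rintro ⟨S, hS, rfl⟩
      refine ⟨?_, ?_⟩
      · refine Finset.squarefree_prod_of_pairwise_isCoprime ?_ ?_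
        · intro a ha b hb hab
          have ha' := ((hPm a).1 (mem_powerset.1 hS ha)).1.2
          have hb' := ((hPm b).1 (mem_powerset.1 hS hb)).1.2
          exact Nat.coprime_iff_isRelPrime.1 ((Nat.coprime_primes ha' hb').2 hab)
        · intro a ha
          exact ((hPm a).1 (mem_powerset.1 hS ha)).1.2.prime.squarefree
      · rw [hpf S hS]
        exact mem_powerset.1 hS
    · rintro ⟨hsq, hsub⟩
      exact ⟨d.primeFactors, mem_powerset.2 hsub, Nat.prod_primeFactors_of_squarefree hsq⟩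
  rw [hSA, ← Finset.sum_sdiff_sub_sum_sdiff]
  have hT : ∀ d ∈ (SF E R \ A) ∪ (A \ SF E R),
      Squarefree d ∧ (∀ l ∈ d.primeFactors, l ≤ X) ∧ E0 ≤ (d : ℝ) := by
    intro d hd
    rcases mem_union.1 hd with hd | hd
    · obtain ⟨hd1, hd2⟩ := mem_sdiff.1 hd
      obtain ⟨h3, h4, h5, h6⟩ := t3_mem.1 hd1
      have hd0 : d ≠ 0 := by omega
      refine ⟨h5, fun l hl => (Nat.le_of_dvd (by omega) (Nat.dvd_of_mem_primeFactors hl)).trans
        (h4.trans hE), ?_⟩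
      by_contra hlt
      push Not at hlt
      apply hd2
      rw [hAm]
      refine ⟨h5, fun l hl => (hPm l).2 ⟨⟨?_, Nat.prime_of_mem_primeFactors hl⟩,
        (t3_coprime hd0).1 h6 l hl⟩⟩
      have h7 : l ≤ d := Nat.le_of_dvd (by omega) (Nat.dvd_of_mem_primeFactors hl)
      have h8 : (d : ℝ) ≤ z := by linarith
      exact h7.trans (by exact_mod_cast h8)
    · obtain ⟨hd1, hd2⟩ := mem_sdiff.1 hd
      obtain ⟨h3, h4⟩ := (hAm d).1 hd1
      refine ⟨h3, fun l hl => (((hPm l).1 (h4 hl)).1.1).trans hz, ?_⟩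
      by_contra hlt
      push Not at hlt
      apply hd2
      have hd0 : d ≠ 0 := h3.ne_zero
      have h8 : (d : ℝ) ≤ E := by linarith
      exact t3_mem.2 ⟨by omega, by exact_mod_cast h8, h3,
        (t3_coprime hd0).2 fun l hl => ((hPm l).1 (h4 hl)).2⟩
  refine le_trans ?_ (T3_tail η E0 hη hE0 X _ hT h)
  have hdisj : Disjoint (SF E R \ A) (A \ SF E R) := by
    rw [Finset.disjoint_left]
    intro d hd hd'
    exact (mem_sdiff.1 hd).2 (mem_sdiff.1 hd').1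
  rw [Finset.sum_union hdisj]
  refine (abs_sub _ _).trans ?_
  exact add_le_add (Finset.abs_sum_le_sum_abs _ _) (Finset.abs_sum_le_sum_abs _ _)



end Pool.Agent.Lib.H59P
end

-- from Lib.H59P.T1
section

/-!
# Chunk T1 (M): lower bound for the singular series of admissible tuples

Use `T0_tp`, `T0_nu_lt`, `T0_nu_le_k`. For `l ∈ P` put `b l = 1/l` if `l ≤ 2k` and `b l = 1 - k^2/l^2` if
`l > 2k`. Then `b l ≤ 1 + tp l h` and `0 < b l ≤ 1`:
* `l ≤ 2k`: `1 - nu/l ≥ 1/l` (as `nu + 1 ≤ l`) and `(l/(l-1))^k ≥ 1`.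
* `l > 2k`: `1 - nu/l ≥ 1 - k/l > 0` and `(l/(l-1))^k = (1 + 1/(l-1))^k ≥ 1 + k/(l-1) ≥ 1 + k/l` (Bernoulli,
  `one_add_mul_le_pow`), so the product is at least `(1 - k/l)(1 + k/l)`.
So `SS P h ≥ ∏_{l ∈ P} b l`. The small primes: `∏_{l ∈ P, l ≤ 2k} 1/l ≥ 1/primorial (2k) ≥ 4^(-2k)`
(`primorial_le_four_pow`; `primorial` is the product over all primes `≤ 2k`, and `1/l ≤ 1`). The large ones:
`1 - k^2/l^2 ≥ exp (-2 k^2/l^2)` (for `0 ≤ x ≤ 1/2`: `1 - x ≥ exp (-2x)`, e.g. from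
`Real.add_one_le_exp` applied to `x/(1-x)`: `1/(1-x) = 1 + x/(1-x) ≤ exp (x/(1-x)) ≤ exp (2x)`), and
`∑_{l > 2k} 1/l^2 ≤ 1/(2k)` for any finite set of integers `l > 2k` (compare with
`1/(l-1) - 1/l`, or by induction `∑_{2k < l ≤ N} 1/l^2 ≤ 1/(2k) - 1/N`). Total:
`exp (-k (2 log 4 + 1)) ≥ exp (-4k)` (`2 log 4 = 4 log 2 ≤ 2.78`). `k = 0`: `nu = 0`, all factors are `1`.
-/

open Finset

namespace Pool.Agent.Lib.H59P

theorem t1_B {k l : ℕ} (hl : l.Prime) :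
    1 ≤ ((l : ℝ) / ((l : ℝ) - 1)) ^ k ∧ 1 + (k : ℝ) / l ≤ ((l : ℝ) / ((l : ℝ) - 1)) ^ k := by
  have h1 : (1 : ℝ) < l := by exact_mod_cast hl.one_lt
  have h2 : (0 : ℝ) < (l : ℝ) - 1 := by linarith
  have h3 : (l : ℝ) / ((l : ℝ) - 1) = 1 + 1 / ((l : ℝ) - 1) := by
    field_simp
    ring
  have h4 : (0 : ℝ) ≤ 1 / ((l : ℝ) - 1) := by positivity
  have h5 : 1 + (k : ℝ) / l ≤ ((l : ℝ) / ((l : ℝ) - 1)) ^ k := by
    rw [h3]
    refine le_trans ?_ (one_add_mul_le_pow (by linarith) k)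
    have h6 : (k : ℝ) / l ≤ k * (1 / ((l : ℝ) - 1)) := by
      rw [mul_one_div]
      exact div_le_div_of_nonneg_left (Nat.cast_nonneg k) h2 (by linarith)
    linarith
  refine ⟨le_trans ?_ h5, h5⟩
  have h7 : (0 : ℝ) ≤ (k : ℝ) / l := by positivity
  linarith

theorem t1_small {k : ℕ} (h : Fin k → ℕ) (hA : Adm h) {l : ℕ} (hl : l.Prime) :
    ((l : ℝ))⁻¹ ≤ 1 + tp l h := by
  have h1 : (1 : ℝ) < l := by exact_mod_cast hl.one_lt
  have h2 : nu l h + 1 ≤ l := T0_nu_lt l hl h hA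
  have h3 : (nu l h : ℝ) + 1 ≤ l := by exact_mod_cast h2
  have h4 : ((l : ℝ))⁻¹ ≤ 1 - (nu l h : ℝ) / l := by
    rw [inv_eq_one_div, div_le_iff₀ (by linarith), sub_mul, div_mul_cancel₀ _ (by linarith)]
    linarith
  rw [T0_tp l hl]
  calc ((l : ℝ))⁻¹ = (l : ℝ)⁻¹ * 1 := (mul_one _).symm
    _ ≤ (1 - (nu l h : ℝ) / l) * ((l : ℝ) / ((l : ℝ) - 1)) ^ k :=
      mul_le_mul h4 (t1_B hl).1 zero_le_one (le_trans (by positivity) h4)

theorem t1_exp {x : ℝ} (h0 : 0 ≤ x) (h1 : x ≤ 1 / 2) : Real.exp (-(2 * x)) ≤ 1 - x := by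
  rw [Real.exp_neg]
  have h2 := Real.add_one_le_exp (2 * x)
  have h3 : (Real.exp (2 * x))⁻¹ ≤ (2 * x + 1)⁻¹ := inv_anti₀ (by linarith) h2
  refine h3.trans ?_
  rw [inv_eq_one_div, div_le_iff₀ (by linarith)]
  nlinarith

theorem t1_large {k : ℕ} (h : Fin k → ℕ) {l : ℕ} (hl : l.Prime) (hk : 2 * k < l) :
    Real.exp (-(2 * (k : ℝ) ^ 2 * ((l : ℝ) ^ 2)⁻¹)) ≤ 1 + tp l h := by
  have h1 : (1 : ℝ) < l := by exact_mod_cast hl.one_lt
  have h0 : (0 : ℝ) < l := by linarith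
  have h2 : (nu l h : ℝ) ≤ k := by exact_mod_cast T0_nu_le_k l hl h
  have h3 : 2 * (k : ℝ) ≤ l := by exact_mod_cast hk.le
  have h4 : (k : ℝ) / l ≤ 1 / 2 := by
    rw [div_le_iff₀ h0]
    linarith
  have h4' : 0 ≤ (k : ℝ) / l := by positivity
  have h5 : Real.exp (-(2 * ((k : ℝ) / l) ^ 2)) ≤ 1 - ((k : ℝ) / l) ^ 2 :=
    t1_exp (by positivity) (by nlinarith)
  have h6 : 2 * (k : ℝ) ^ 2 * ((l : ℝ) ^ 2)⁻¹ = 2 * ((k : ℝ) / l) ^ 2 := by
    rw [div_pow, div_eq_mul_inv, mul_assoc]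
  rw [h6]
  refine h5.trans ?_
  rw [T0_tp l hl]
  have h7 : 1 - (k : ℝ) / l ≤ 1 - (nu l h : ℝ) / l := by
    have := div_le_div_of_nonneg_right h2 h0.le
    linarith
  calc 1 - ((k : ℝ) / l) ^ 2 = (1 - (k : ℝ) / l) * (1 + (k : ℝ) / l) := by ring
    _ ≤ (1 - (nu l h : ℝ) / l) * ((l : ℝ) / ((l : ℝ) - 1)) ^ k :=
      mul_le_mul h7 (t1_B hl).2 (by linarith) (by linarith)

theorem t1_prodSmall (k : ℕ) (P : Finset ℕ) (hP : ∀ l ∈ P, l.Prime) :
    Real.exp (-(2 * k * Real.log 4)) ≤ ∏ l ∈ P.filter (fun l => l ≤ 2 * k), ((l : ℝ))⁻¹ := by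
  have h1 : ∏ l ∈ P.filter (fun l => l ≤ 2 * k), l ≤ primorial (2 * k) := by
    unfold primorial
    refine Finset.prod_le_prod_of_subset_of_one_le' ?_ ?_
    · intro l hl
      have h2 := mem_filter.1 hl
      exact mem_filter.2 ⟨mem_range.2 (by omega), hP l h2.1⟩
    · intro l hl _
      exact (mem_filter.1 hl).2.one_lt.le
  have h2 := h1.trans (primorial_le_four_pow (2 * k))
  have h3 : ∏ l ∈ P.filter (fun l => l ≤ 2 * k), (l : ℝ) ≤ (4 : ℝ) ^ (2 * k) := by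
    have h3' := (Nat.cast_le (α := ℝ)).2 h2
    rw [Nat.cast_prod, Nat.cast_pow, Nat.cast_ofNat] at h3'
    exact h3'
  have h4 : 0 < ∏ l ∈ P.filter (fun l => l ≤ 2 * k), (l : ℝ) := by
    refine Finset.prod_pos fun l hl => ?_
    exact_mod_cast (hP l (mem_filter.1 hl).1).pos
  have h5 : Real.exp (-(2 * k * Real.log 4)) = ((4 : ℝ) ^ (2 * k))⁻¹ := by
    have h6 : (2 * k * Real.log 4 : ℝ) = ((2 * k : ℕ) : ℝ) * Real.log 4 := by push_cast; ring
    rw [Real.exp_neg, h6, Real.exp_nat_mul, Real.exp_log (by norm_num)]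
  rw [h5, Finset.prod_inv_distrib]
  exact inv_anti₀ h4 h3

theorem t1_sum (k : ℕ) (P : Finset ℕ) :
    2 * (k : ℝ) ^ 2 * ∑ l ∈ P.filter (fun l => ¬ l ≤ 2 * k), ((l : ℝ) ^ 2)⁻¹ ≤ k := by
  rcases Nat.eq_zero_or_pos k with rfl | hk
  · simp
  have hk' : (0 : ℝ) < k := by exact_mod_cast hk
  have h1 : ∑ l ∈ P.filter (fun l => ¬ l ≤ 2 * k), ((l : ℝ) ^ 2)⁻¹ ≤
      ∑ l ∈ Ioc (2 * k) (2 * k + P.sup id), ((l : ℝ) ^ 2)⁻¹ := by
    refine Finset.sum_le_sum_of_subset_of_nonneg ?_ fun _ _ _ => by positivity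
    intro l hl
    have h2 := mem_filter.1 hl
    have h3 : l ≤ P.sup id := Finset.le_sup (f := id) h2.1
    exact mem_Ioc.2 ⟨by omega, by omega⟩
  have h2 := sum_Ioc_inv_sq_le_sub (α := ℝ) (k := 2 * k) (n := 2 * k + P.sup id) (by omega) (by omega)
  have h3 : (0 : ℝ) ≤ (((2 * k + P.sup id : ℕ) : ℝ))⁻¹ := by positivity
  have h4 : ∑ l ∈ P.filter (fun l => ¬ l ≤ 2 * k), ((l : ℝ) ^ 2)⁻¹ ≤ (((2 * k : ℕ) : ℝ))⁻¹ := by
    linarith
  have h5 : 2 * (k : ℝ) ^ 2 * (((2 * k : ℕ) : ℝ))⁻¹ = k := by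
    push_cast
    field_simp
  calc 2 * (k : ℝ) ^ 2 * ∑ l ∈ P.filter (fun l => ¬ l ≤ 2 * k), ((l : ℝ) ^ 2)⁻¹ ≤
      2 * (k : ℝ) ^ 2 * (((2 * k : ℕ) : ℝ))⁻¹ := mul_le_mul_of_nonneg_left h4 (by positivity)
    _ = k := h5

theorem T_lower {k : ℕ} (h : Fin k → ℕ) (hA : Adm h) (P : Finset ℕ) (hP : ∀ l ∈ P, l.Prime) :
    Real.exp (-(4 * k : ℝ)) ≤ SS P h := by
  have h0 : SS P h = (∏ l ∈ P.filter (fun l => l ≤ 2 * k), (1 + tp l h)) *
      ∏ l ∈ P.filter (fun l => ¬ l ≤ 2 * k), (1 + tp l h) := by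
    rw [SS]
    exact (Finset.prod_filter_mul_prod_filter_not P (fun l => l ≤ 2 * k) _).symm
  have h1 : Real.exp (-(2 * k * Real.log 4)) ≤
      ∏ l ∈ P.filter (fun l => l ≤ 2 * k), (1 + tp l h) := by
    refine (t1_prodSmall k P hP).trans (Finset.prod_le_prod (fun l _ => by positivity) fun l hl => ?_)
    exact t1_small h hA (hP l (mem_filter.1 hl).1)
  have h2 : Real.exp (-(k : ℝ)) ≤ ∏ l ∈ P.filter (fun l => ¬ l ≤ 2 * k), (1 + tp l h) := by
    have h3 : Real.exp (-(k : ℝ)) ≤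
        ∏ l ∈ P.filter (fun l => ¬ l ≤ 2 * k), Real.exp (-(2 * (k : ℝ) ^ 2 * ((l : ℝ) ^ 2)⁻¹)) := by
      rw [← Real.exp_sum, Finset.sum_neg_distrib, ← Finset.mul_sum]
      exact Real.exp_le_exp.2 (neg_le_neg (t1_sum k P))
    refine h3.trans (Finset.prod_le_prod (fun l _ => (Real.exp_pos _).le) fun l hl => ?_)
    have h4 := mem_filter.1 hl
    exact t1_large h (hP l h4.1) (by omega)
  rw [h0]
  refine le_trans ?_ (mul_le_mul h1 h2 (Real.exp_pos _).le (le_trans (Real.exp_pos _).le h1))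
  rw [← Real.exp_add]
  refine Real.exp_le_exp.2 ?_
  have h5 : Real.log 4 = 2 * Real.log 2 := by
    have h6 : (4 : ℝ) = 2 ^ 2 := by norm_num
    rw [h6, Real.log_pow]
    norm_num
  have h7 := Real.log_two_lt_d9
  have h8 : (0 : ℝ) ≤ k := Nat.cast_nonneg k
  rw [h5]
  nlinarith

end Pool.Agent.Lib.H59P
end

-- from Lib.H59P.T2
section

/-!
# Chunk T2 (S/M): bounds for the local factors

* `T2_abs`: by `T0_nonneg`, `T0_le`: `-1 ≤ tp ≤ (l/(l-1))^k - 1` and `1 ≤ (l/(l-1))^k`.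
* `T2_large` (`2 k ≤ l`). If `k = 0` then `tp l h = 0` (`T0_tp`, `nu = 0` by `T0_nu_le_k`). Let `k ≥ 1`,
  `g = k - nu` (real, `0 ≤ g ≤ col` by `T0_nu_le_k`, `T0_k_le`), `B = (l/(l-1))^k`. By `T0_tp`
  `tp = [(1 - k/l) B - 1] + (g/l) B`. Upper bound of `B`: `l/(l-1) = 1 + 1/(l-1) ≤ exp (1/(l-1))`, so
  `B ≤ exp (k/(l-1)) ≤ exp 1 ≤ 3` (`k ≤ l - 1`: as `2k ≤ l`, `k ≥ 1`). The bracket lies in `[-k^2/l^2, 0]`:
  `(1 - k/l) ≤ (1 - 1/l)^k` (Bernoulli, `one_add_mul_le_pow`) and `(1 - 1/l)^k B = 1`; and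
  `B ≥ 1 + k/(l-1) ≥ 1 + k/l`, so `(1 - k/l) B ≥ 1 - k^2/l^2`.
-/

open Finset

namespace Pool.Agent.Lib.H59P

theorem t2_B {k l : ℕ} (hl : l.Prime) :
    1 ≤ ((l : ℝ) / ((l : ℝ) - 1)) ^ k ∧ 1 + (k : ℝ) / l ≤ ((l : ℝ) / ((l : ℝ) - 1)) ^ k := by
  have h1 : (1 : ℝ) < l := by exact_mod_cast hl.one_lt
  have h2 : (0 : ℝ) < (l : ℝ) - 1 := by linarith
  have h3 : (l : ℝ) / ((l : ℝ) - 1) = 1 + 1 / ((l : ℝ) - 1) := by
    field_simp
    ring
  have h4 : (0 : ℝ) ≤ 1 / ((l : ℝ) - 1) := by positivity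
  have h5 : 1 + (k : ℝ) / l ≤ ((l : ℝ) / ((l : ℝ) - 1)) ^ k := by
    rw [h3]
    refine le_trans ?_ (one_add_mul_le_pow (by linarith) k)
    have h6 : (k : ℝ) / l ≤ k * (1 / ((l : ℝ) - 1)) := by
      rw [mul_one_div]
      exact div_le_div_of_nonneg_left (Nat.cast_nonneg k) h2 (by linarith)
    linarith
  refine ⟨le_trans ?_ h5, h5⟩
  have h7 : (0 : ℝ) ≤ (k : ℝ) / l := by positivity
  linarith

theorem T2_abs {k : ℕ} (l : ℕ) (hl : l.Prime) (h : Fin k → ℕ) :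
    |tp l h| ≤ ((l : ℝ) / ((l : ℝ) - 1)) ^ k := by
  have h1 := T0_nonneg l hl h
  have h2 := T0_le l hl h
  have h3 := (t2_B (k := k) hl).1
  rw [abs_le]
  constructor <;> linarith

theorem T2_large {k : ℕ} (l : ℕ) (hl : l.Prime) (h : Fin k → ℕ) (hk : 2 * k ≤ l) :
    |tp l h| ≤ (k : ℝ) ^ 2 / (l : ℝ) ^ 2 + 3 * (col l h : ℝ) / l := by
  have hl1 : (1 : ℝ) < l := by exact_mod_cast hl.one_lt
  have hl0 : (0 : ℝ) < l := by linarith
  have hl2 : (0 : ℝ) < (l : ℝ) - 1 := by linarith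
  obtain ⟨hB1, hB2⟩ := t2_B (k := k) hl
  have hB3 : ((l : ℝ) / ((l : ℝ) - 1)) ^ k ≤ 3 := by
    have h3 : (l : ℝ) / ((l : ℝ) - 1) = 1 / ((l : ℝ) - 1) + 1 := by
      field_simp
      ring
    have h4 : (l : ℝ) / ((l : ℝ) - 1) ≤ Real.exp (1 / ((l : ℝ) - 1)) := by
      rw [h3]
      exact Real.add_one_le_exp _
    have h5 : ((l : ℝ) / ((l : ℝ) - 1)) ^ k ≤ Real.exp (1 / ((l : ℝ) - 1)) ^ k :=
      pow_le_pow_left₀ (by positivity) h4 k
    refine h5.trans ?_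
    rw [← Real.exp_nat_mul]
    have h6 : (k : ℝ) * (1 / ((l : ℝ) - 1)) ≤ 1 := by
      rw [mul_one_div, div_le_one hl2]
      have h7 : k + 1 ≤ l := by
        have := hl.two_le
        omega
      have h8 : ((k + 1 : ℕ) : ℝ) ≤ l := by exact_mod_cast h7
      push_cast at h8
      linarith
    refine (Real.exp_le_exp.2 h6).trans ?_
    linarith [Real.exp_one_lt_d9]
  have h1 : (nu l h : ℝ) ≤ k := by exact_mod_cast T0_nu_le_k l hl h
  have h2 : (k : ℝ) ≤ nu l h + col l h := by exact_mod_cast T0_k_le l hl h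
  have hkl : (k : ℝ) / l ≤ 1 := by
    rw [div_le_one hl0]
    have h9 : k ≤ l := by omega
    exact_mod_cast h9
  -- the bracket
  have hb1 : (1 - (k : ℝ) / l) * ((l : ℝ) / ((l : ℝ) - 1)) ^ k ≤ 1 := by
    have h3 : 1 - (k : ℝ) / l ≤ (1 + -(1 / (l : ℝ))) ^ k := by
      refine le_trans (le_of_eq ?_) (one_add_mul_le_pow (a := -(1 / (l : ℝ))) ?_ k)
      · ring
      · have h4 : 1 / (l : ℝ) ≤ 1 := (div_le_one hl0).2 hl1.le
        linarith
    have h5 : (1 + -(1 / (l : ℝ))) ^ k * ((l : ℝ) / ((l : ℝ) - 1)) ^ k = 1 := by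
      rw [← mul_pow]
      have h6 : (1 + -(1 / (l : ℝ))) * ((l : ℝ) / ((l : ℝ) - 1)) = 1 := by
        field_simp
        ring
      rw [h6, one_pow]
    calc (1 - (k : ℝ) / l) * ((l : ℝ) / ((l : ℝ) - 1)) ^ k ≤
        (1 + -(1 / (l : ℝ))) ^ k * ((l : ℝ) / ((l : ℝ) - 1)) ^ k :=
          mul_le_mul_of_nonneg_right h3 (by linarith)
      _ = 1 := h5
  have hb2 : 1 - (k : ℝ) ^ 2 / (l : ℝ) ^ 2 ≤ (1 - (k : ℝ) / l) * ((l : ℝ) / ((l : ℝ) - 1)) ^ k := by
    have h3 : (1 - (k : ℝ) / l) * (1 + (k : ℝ) / l) ≤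
        (1 - (k : ℝ) / l) * ((l : ℝ) / ((l : ℝ) - 1)) ^ k :=
      mul_le_mul_of_nonneg_left hB2 (by linarith)
    refine le_trans (le_of_eq ?_) h3
    ring
  set B := ((l : ℝ) / ((l : ℝ) - 1)) ^ k with hB
  have htp : tp l h = ((1 - (k : ℝ) / l) * B - 1) + ((k : ℝ) - nu l h) / l * B := by
    have h3 := T0_tp l hl h
    rw [← hB] at h3
    have h4 : tp l h = (1 - (nu l h : ℝ) / l) * B - 1 := by linarith
    rw [h4]
    ring
  have hg0 : 0 ≤ ((k : ℝ) - nu l h) / l := div_nonneg (by linarith) hl0.le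
  have hg1 : ((k : ℝ) - nu l h) / l ≤ (col l h : ℝ) / l :=
    div_le_div_of_nonneg_right (by linarith) hl0.le
  have hg2 : ((k : ℝ) - nu l h) / l * B ≤ (col l h : ℝ) / l * 3 :=
    mul_le_mul hg1 hB3 (by linarith) (by positivity)
  have hg3 : 0 ≤ ((k : ℝ) - nu l h) / l * B := mul_nonneg hg0 (by linarith)
  have hk2 : 0 ≤ (k : ℝ) ^ 2 / (l : ℝ) ^ 2 := by positivity
  have hc2 : 3 * (col l h : ℝ) / l = (col l h : ℝ) / l * 3 := by ring
  have hc3 : 0 ≤ (col l h : ℝ) / l * 3 := by positivity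
  rw [htp, hc2, abs_le]
  constructor <;> linarith

end Pool.Agent.Lib.H59P
end

-- from Lib.H59P.T4A
section

/-!
# Chunk T4A (M): exponential moment of the sum over the large prime divisors

* `T4A_int`: for integers `l > w ≥ 1` and `0 < η ≤ 1/2`: `∑_{l > w} l^(η-2) ≤ w^(η-2) + ∫_w^∞ t^(η-2) dt ≤
  w^(η-1) + w^(η-1)/(1-η) ≤ 3 w^(η-1)`. Elementary way: for `l ≥ 2`, `l^(η-2) ≤ 2 ((l-1)^(η-1) - l^(η-1))`
  (mean value theorem: `(l-1)^(η-1) - l^(η-1) ≥ (1-η) l^(η-2) ≥ l^(η-2)/2`), telescope from `l0 = ⌊w⌋ + 1`,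
  and treat the first term `l0^(η-2) ≤ w^(η-1)` separately (`l0 > w ≥ 1`; the rest is at most
  `2 l0^(η-1) ≤ 2 w^(η-1)`).
* `T4A_sum`. Let `𝒫 = {l ∈ pr X : w < l}` and `β l = exp (m l^(η-1)) - 1`. As `m l^(η-1) ≤ m w^(η-1) ≤ 1` and
  `e^t - 1 ≤ 2 t` for `0 ≤ t ≤ 1`: `0 ≤ β l ≤ 2 m l^(η-1)`. For `n ≥ 1`:
  `exp (m Fz n) = ∏_{l ∈ 𝒫, l ∣ n} (1 + β l) = ∑_{S ⊆ 𝒫} [∏ S ∣ n] ∏_{l ∈ S} β l` (distinct primes all
  divide `n` iff their product does: `Finset.prod_primes_dvd` or `Finset.prod_dvd_of_coprime`). Sum over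
  `1 ≤ n ≤ N`: the number of `n ≤ N` divisible by `d` is at most `N/d`. So the sum is at most
  `N ∑_{S ⊆ 𝒫} ∏_{l ∈ S} β l / l = N ∏_{l ∈ 𝒫} (1 + β l/l) ≤ N exp (2 m ∑_{l ∈ 𝒫} l^(η-2)) ≤ N exp 6`.
-/

open Finset

namespace Pool.Agent.Lib.H59P

/-- One step of the comparison with the integral. -/
theorem t4a_step (η : ℝ) (hη : 0 < η) (hη2 : η ≤ 1 / 2) (l : ℕ) (hl : 2 ≤ l) :
    (l : ℝ) ^ (η - 2) ≤ 2 * (((l : ℝ) - 1) ^ (η - 1) - (l : ℝ) ^ (η - 1)) := by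
  have hl' : (2 : ℝ) ≤ l := by exact_mod_cast hl
  have hl0 : (0 : ℝ) < l := by linarith
  have hl1 : (0 : ℝ) < (l : ℝ) - 1 := by linarith
  -- `(1 - 1/l) ^ (η - 1) ≥ 1 + (1 - η) / l`
  have h1 : 1 + (1 - η) * (1 / l) ≤ (((l : ℝ) - 1) / l) ^ (η - 1) := by
    have h2 : (((l : ℝ) - 1) / l) ^ (η - 1) = Real.exp (Real.log (((l : ℝ) - 1) / l) * (η - 1)) :=
      Real.rpow_def_of_pos (by positivity) _
    have h3 : Real.log (((l : ℝ) - 1) / l) ≤ -(1 / l) := by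
      refine (Real.log_le_sub_one_of_pos (by positivity)).trans (le_of_eq ?_)
      field_simp
      ring
    have h4 : (1 - η) * (1 / l) ≤ Real.log (((l : ℝ) - 1) / l) * (η - 1) := by
      have h5 : 0 ≤ 1 - η := by linarith
      nlinarith
    rw [h2]
    linarith [Real.add_one_le_exp (Real.log (((l : ℝ) - 1) / l) * (η - 1))]
  have h6 : ((l : ℝ) - 1) ^ (η - 1) = (l : ℝ) ^ (η - 1) * (((l : ℝ) - 1) / l) ^ (η - 1) := by
    rw [← Real.mul_rpow hl0.le (by positivity)]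
    congr 1
    field_simp
  have h7 : (l : ℝ) ^ (η - 2) = (l : ℝ) ^ (η - 1) * (1 / l) := by
    have h8 : η - 2 = (η - 1) - 1 := by ring
    rw [h8, Real.rpow_sub_one hl0.ne']
    ring
  have h9 : 0 < (l : ℝ) ^ (η - 1) := Real.rpow_pos_of_pos hl0 _
  rw [h6, h7]
  have h10 : (l : ℝ) ^ (η - 1) * (1 + (1 - η) * (1 / l)) ≤
      (l : ℝ) ^ (η - 1) * (((l : ℝ) - 1) / l) ^ (η - 1) := mul_le_mul_of_nonneg_left h1 h9.le
  have h11 : (l : ℝ) ^ (η - 1) * (1 / l) ≤ 2 * ((l : ℝ) ^ (η - 1) * ((1 - η) * (1 / l))) := by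
    have h12 : 0 ≤ (l : ℝ) ^ (η - 1) * (1 / l) := by positivity
    nlinarith
  linarith

theorem t4a_tele (η : ℝ) (hη : 0 < η) (hη2 : η ≤ 1 / 2) (a : ℕ) (ha : 1 ≤ a) (N : ℕ) :
    ∑ l ∈ Ioc a (a + N), (l : ℝ) ^ (η - 2) ≤ 2 * ((a : ℝ) ^ (η - 1) - ((a + N : ℕ) : ℝ) ^ (η - 1)) := by
  induction N with
  | zero => simp
  | succ N ih =>
    have h1 : a + (N + 1) = (a + N) + 1 := by ring
    rw [h1, Finset.sum_Ioc_succ_top (by omega)]
    have h2 := t4a_step η hη hη2 (a + N + 1) (by omega)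
    have h3 : (((a + N + 1 : ℕ) : ℝ) - 1) = ((a + N : ℕ) : ℝ) := by push_cast; ring
    rw [h3] at h2
    linarith

theorem T4A_int (η w : ℝ) (hη : 0 < η) (hη2 : η ≤ 1 / 2) (hw : 1 ≤ w) (X : ℕ) :
    ∑ l ∈ (pr X).filter (fun l : ℕ => w < (l : ℝ)), (l : ℝ) ^ (η - 2) ≤ 3 * w ^ (η - 1) := by
  have hw0 : 0 < w := by linarith
  set a := ⌊w⌋₊ + 1 with ha
  have haw : w < (a : ℝ) := by
    rw [ha]
    push_cast
    exact Nat.lt_floor_add_one w
  have hsub : (pr X).filter (fun l : ℕ => w < (l : ℝ)) ⊆ insert a (Ioc a (a + X)) := by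
    intro l hl
    obtain ⟨h1, h2⟩ := mem_filter.1 hl
    have h3 := (mem_pr.1 h1).1
    have h4 : ⌊w⌋₊ < l := (Nat.floor_lt hw0.le).2 h2
    rw [mem_insert, mem_Ioc]
    omega
  refine (Finset.sum_le_sum_of_subset_of_nonneg hsub fun l _ _ => by positivity).trans ?_
  rw [Finset.sum_insert (by simp)]
  have h5 := t4a_tele η hη hη2 a (by omega) X
  have h6 : (0 : ℝ) ≤ ((a + X : ℕ) : ℝ) ^ (η - 1) := by positivity
  have h7 : (a : ℝ) ^ (η - 1) ≤ w ^ (η - 1) :=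
    Real.rpow_le_rpow_of_nonpos hw0 haw.le (by linarith)
  have h8 : (a : ℝ) ^ (η - 2) ≤ w ^ (η - 1) := by
    have h9 : (a : ℝ) ^ (η - 2) ≤ w ^ (η - 2) :=
      Real.rpow_le_rpow_of_nonpos hw0 haw.le (by linarith)
    have h10 : w ^ (η - 2) ≤ w ^ (η - 1) := Real.rpow_le_rpow_of_exponent_le hw (by linarith)
    linarith
  linarith

/-- The expansion of the exponential. -/
theorem t4a_exp (η w m : ℝ) (X n : ℕ) (hn : n ≠ 0) :
    Real.exp (m * Fz η w X n) =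
      ∑ S ∈ ((pr X).filter (fun l : ℕ => w < (l : ℝ))).powerset,
        (if (∏ l ∈ S, l) ∣ n then (1 : ℝ) else 0) *
          ∏ l ∈ S, (Real.exp (m * (l : ℝ) ^ (η - 1)) - 1) := by
  classical
  set PP := (pr X).filter (fun l : ℕ => w < (l : ℝ)) with hPP
  have hpr : ∀ l ∈ PP, l.Prime := fun l hl => (mem_pr.1 (mem_filter.1 hl).1).2
  have h1 : Real.exp (m * Fz η w X n) =
      ∏ l ∈ PP, (1 + (if l ∣ n then (Real.exp (m * (l : ℝ) ^ (η - 1)) - 1) else 0)) := by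
    rw [Fz, Finset.mul_sum, Real.exp_sum]
    have h2 : (pr X).filter (fun l : ℕ => w < (l : ℝ) ∧ l ∣ n) = PP.filter (fun l => l ∣ n) := by
      rw [hPP, Finset.filter_filter]
    rw [h2, Finset.prod_filter]
    refine Finset.prod_congr rfl fun l _ => ?_
    split_ifs
    · ring
    · ring
  rw [h1, Finset.prod_one_add]
  refine Finset.sum_congr rfl fun S hS => ?_
  have hSP := mem_powerset.1 hS
  by_cases hdiv : (∏ l ∈ S, l) ∣ n
  · rw [if_pos hdiv, one_mul]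
    refine Finset.prod_congr rfl fun l hl => ?_
    rw [if_pos ((Finset.dvd_prod_of_mem (fun l : ℕ => l) hl).trans hdiv)]
  · rw [if_neg hdiv, zero_mul]
    have h3 : ∃ l ∈ S, ¬ l ∣ n := by
      by_contra hcon
      push Not at hcon
      exact hdiv (Finset.prod_primes_dvd n (fun l hl => (hpr l (hSP hl)).prime) hcon)
    obtain ⟨l, hl, hln⟩ := h3
    exact Finset.prod_eq_zero hl (if_neg hln)

theorem t4a_count (d N : ℕ) (hd : 0 < d) :
    ∑ n ∈ Icc 1 N, (if d ∣ n then (1 : ℝ) else 0) ≤ N / d := by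
  rw [Finset.sum_ite, Finset.sum_const_zero, add_zero, Finset.sum_const, nsmul_eq_mul, mul_one]
  have h1 : ((Icc 1 N).filter (fun n => d ∣ n)).card = N / d := by
    have h2 := Nat.Ioc_filter_dvd_card_eq_div N d
    have h3 : Icc 1 N = Ioc 0 N := by
      ext x
      simp only [mem_Icc, mem_Ioc]
      omega
    rw [h3]
    exact h2
  rw [h1]
  exact Nat.cast_div_le

theorem T4A_sum (η w m : ℝ) (hη : 0 < η) (hη2 : η ≤ 1 / 2) (hw : 1 ≤ w) (hm : 0 ≤ m)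
    (hmw : m * w ^ (η - 1) ≤ 1) (X N : ℕ) :
    ∑ n ∈ Icc 1 N, Real.exp (m * Fz η w X n) ≤ N * Real.exp 6 := by
  classical
  have hw0 : 0 < w := by linarith
  set PP := (pr X).filter (fun l : ℕ => w < (l : ℝ)) with hPP
  have hpr : ∀ l ∈ PP, l.Prime := fun l hl => (mem_pr.1 (mem_filter.1 hl).1).2
  have hlw : ∀ l ∈ PP, w < (l : ℝ) := fun l hl => (mem_filter.1 hl).2
  have h1 : ∀ n ∈ Icc 1 N, Real.exp (m * Fz η w X n) = ∑ S ∈ PP.powerset,
      (if (∏ l ∈ S, l) ∣ n then (1 : ℝ) else 0) *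
        ∏ l ∈ S, (Real.exp (m * (l : ℝ) ^ (η - 1)) - 1) := by
    intro n hn
    exact t4a_exp η w m X n (by have := (mem_Icc.1 hn).1; omega)
  rw [Finset.sum_congr rfl h1, Finset.sum_comm]
  -- the bounds for `β`
  have hβ0 : ∀ l ∈ PP, 0 ≤ Real.exp (m * (l : ℝ) ^ (η - 1)) - 1 := by
    intro l hl
    have h2 : 0 ≤ m * (l : ℝ) ^ (η - 1) := by positivity
    linarith [Real.one_le_exp h2]
  have hβ1 : ∀ l ∈ PP, Real.exp (m * (l : ℝ) ^ (η - 1)) - 1 ≤ 2 * m * (l : ℝ) ^ (η - 1) := by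
    intro l hl
    have h2 : 0 ≤ m * (l : ℝ) ^ (η - 1) := by positivity
    have h3 : m * (l : ℝ) ^ (η - 1) ≤ 1 := by
      refine le_trans (mul_le_mul_of_nonneg_left ?_ hm) hmw
      exact Real.rpow_le_rpow_of_nonpos hw0 (hlw l hl).le (by linarith)
    have h4 := Real.abs_exp_sub_one_le (x := m * (l : ℝ) ^ (η - 1)) (by rwa [abs_of_nonneg h2])
    rw [abs_of_nonneg h2] at h4
    have h5 := le_abs_self (Real.exp (m * (l : ℝ) ^ (η - 1)) - 1)
    linarith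
  have h6 : ∀ S ∈ PP.powerset, ∑ n ∈ Icc 1 N, (if (∏ l ∈ S, l) ∣ n then (1 : ℝ) else 0) *
        ∏ l ∈ S, (Real.exp (m * (l : ℝ) ^ (η - 1)) - 1) ≤
      N * ∏ l ∈ S, ((Real.exp (m * (l : ℝ) ^ (η - 1)) - 1) / l) := by
    intro S hS
    have hSP := mem_powerset.1 hS
    have hd : 0 < ∏ l ∈ S, l := Finset.prod_pos fun l hl => (hpr l (hSP hl)).pos
    rw [← Finset.sum_mul]
    have h7 := t4a_count (∏ l ∈ S, l) N hd
    have h8 : 0 ≤ ∏ l ∈ S, (Real.exp (m * (l : ℝ) ^ (η - 1)) - 1) :=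
      Finset.prod_nonneg fun l hl => hβ0 l (hSP hl)
    refine (mul_le_mul_of_nonneg_right h7 h8).trans (le_of_eq ?_)
    rw [Finset.prod_div_distrib, Nat.cast_prod]
    ring
  refine (Finset.sum_le_sum h6).trans ?_
  rw [← Finset.mul_sum, ← Finset.prod_one_add]
  refine mul_le_mul_of_nonneg_left ?_ (Nat.cast_nonneg N)
  have h9 : ∀ l ∈ PP, 1 + (Real.exp (m * (l : ℝ) ^ (η - 1)) - 1) / l ≤
      Real.exp (2 * m * (l : ℝ) ^ (η - 2)) := by
    intro l hl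
    have hl0 : (0 : ℝ) < l := by exact_mod_cast (hpr l hl).pos
    have h10 : (Real.exp (m * (l : ℝ) ^ (η - 1)) - 1) / l ≤ 2 * m * (l : ℝ) ^ (η - 2) := by
      rw [div_le_iff₀ hl0]
      refine (hβ1 l hl).trans (le_of_eq ?_)
      have h8 : η - 1 = (η - 2) + 1 := by ring
      rw [h8, Real.rpow_add_one hl0.ne']
      ring
    linarith [Real.add_one_le_exp (2 * m * (l : ℝ) ^ (η - 2))]
  refine (Finset.prod_le_prod (fun l hl => ?_) h9).trans ?_
  · have := div_nonneg (hβ0 l hl) (Nat.cast_nonneg (α := ℝ) l)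
    linarith
  rw [← Real.exp_sum, ← Finset.mul_sum]
  refine Real.exp_le_exp.2 ?_
  have h11 := T4A_int η w hη hη2 hw X
  rw [← hPP] at h11
  calc 2 * m * ∑ l ∈ PP, (l : ℝ) ^ (η - 2) ≤ 2 * m * (3 * w ^ (η - 1)) :=
      mul_le_mul_of_nonneg_left h11 (by positivity)
    _ = 6 * (m * w ^ (η - 1)) := by ring
    _ ≤ 6 := by linarith

end Pool.Agent.Lib.H59P
end

-- from Lib.H59P.X1A
section

/-!
# Project H59P, chunk X1a
-/

open Finset

namespace Pool.Agent.Lib.H59P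

open Pool.Agent.Lib.H68T Pool.Agent.Lib.H18Q

theorem x1a_parseval (r : ℕ) [NeZero r] (f : ZMod r → ℂ) :
    ∑ m : ZMod r, ‖∑ b, (ZMod.stdAddChar (b * m) : ℂ) * f b‖ ^ 2 = (r : ℝ) * ∑ b, ‖f b‖ ^ 2 := by
  classical
  refine Pool.Agent.Lib.H59C.lsb_parseval (fun (m b : ZMod r) => (ZMod.stdAddChar (b * m) : ℂ)) (r : ℝ) ?_ f
  intro b b'
  have h2 := AddChar.sum_mulShift (b' - b) (ZMod.isPrimitive_stdAddChar r)
  rw [ZMod.card] at h2
  have h3 : ∀ x : ZMod r, (starRingEnd ℂ) (ZMod.stdAddChar (b * x) : ℂ) *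
      ZMod.stdAddChar (b' * x) = ZMod.stdAddChar (x * (b' - b)) := by
    intro x
    rw [← AddChar.map_neg_eq_conj, ← AddChar.map_add_eq_mul]
    congr 1
    ring
  rw [sum_congr rfl fun x _ => h3 x, h2]
  by_cases hb : b = b'
  · rw [if_pos hb, if_pos (by rw [hb, sub_self])]
    norm_cast
  · rw [if_neg hb, if_neg (by rw [sub_eq_zero]; exact fun h => hb h.symm)]
    norm_cast

theorem x1a_gauss (r : ℕ) [NeZero r] (χ : DirichletCharacter ℂ r) (hχ : χ.IsPrimitive) (m : ZMod r) :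
    ‖∑ b, (ZMod.stdAddChar (b * m) : ℂ) * χ b‖ ^ 2 ≤ r := by
  have h4 : ‖∑ b, (ZMod.stdAddChar (b * m) : ℂ) * χ b‖ ^ 2 =
      ‖χ⁻¹ m‖ ^ 2 * ‖gaussSum χ (ZMod.stdAddChar (N := r))‖ ^ 2 := by
    rw [← mul_pow, ← norm_mul, ← gaussSum_mulShift_of_isPrimitive _ hχ, gaussSum]
    congr 2
    refine sum_congr rfl fun b _ => ?_
    rw [AddChar.mulShift_apply, mul_comm, mul_comm b]
  rw [h4, Pool.Agent.Lib.H59C.lsb_gauss r hχ]
  have h5 : ‖χ⁻¹ m‖ ≤ 1 := χ⁻¹.norm_le_one m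
  have h6 : ‖χ⁻¹ m‖ ^ 2 ≤ 1 := pow_le_one₀ (norm_nonneg _) h5
  have h7 : (0 : ℝ) ≤ r := Nat.cast_nonneg r
  nlinarith

/-- **X1a.** For a primitive character modulo `r`: `∑_{t mod r} |∑_{s mod r} χ(s) conj χ(s+t)|² ≤ r^3`.

Proof. By Parseval the autocorrelation `c(t) = ∑_s χ(s) conj χ(s+t)` has Fourier transform
`|χ^(ξ)|²`, and `|χ^(ξ)|² = |χ(ξ)|² |τ|² ≤ r` (`lsb_gauss`, `gaussSum_mulShift_of_isPrimitive`; primitivity), so
`∑_t |c(t)|² = (1/r) ∑_ξ |χ^(ξ)|^4 ≤ (1/r) r · r² = r²`... (so even `≤ r^2 · 1`; any bound `≤ r^3 / r` is fine: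
the statement is with `r ^ 2`). Or `c(t)` is a Ramanujan sum. -/
theorem X1a (r : ℕ) [NeZero r] (χ : DirichletCharacter ℂ r) (hχ : χ.IsPrimitive) :
    ∑ t : ZMod r, ‖∑ s : ZMod r, χ s * (starRingEnd ℂ) (χ (s + t))‖ ^ 2 ≤ (r : ℝ) ^ 2 := by
  classical
  have hr : (0 : ℝ) < r := by exact_mod_cast NeZero.pos r
  have h1 := x1a_parseval r (fun t => ∑ s : ZMod r, χ s * (starRingEnd ℂ) (χ (s + t)))
  have h2 : ∀ m : ZMod r, ‖∑ b : ZMod r, (ZMod.stdAddChar (b * m) : ℂ) *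
      ∑ s : ZMod r, χ s * (starRingEnd ℂ) (χ (s + b))‖ ^ 2 ≤ (r : ℝ) ^ 2 := by
    intro m
    have e1 : ∑ b : ZMod r, (ZMod.stdAddChar (b * m) : ℂ) *
        ∑ s : ZMod r, χ s * (starRingEnd ℂ) (χ (s + b)) =
        (∑ s : ZMod r, (ZMod.stdAddChar (s * (-m)) : ℂ) * χ s) *
          (starRingEnd ℂ) (∑ u : ZMod r, (ZMod.stdAddChar (u * (-m)) : ℂ) * χ u) := by
      rw [map_sum, sum_mul_sum]
      simp_rw [mul_sum]
      rw [sum_comm]
      refine sum_congr rfl fun s _ => ?_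
      rw [← Equiv.sum_comp (Equiv.addLeft s)
        (fun u => (ZMod.stdAddChar (s * -m) : ℂ) * χ s *
          (starRingEnd ℂ) ((ZMod.stdAddChar (u * -m) : ℂ) * χ u))]
      refine sum_congr rfl fun b _ => ?_
      rw [Equiv.coe_addLeft, map_mul (starRingEnd ℂ)]
      dsimp only
      rw [← AddChar.map_neg_eq_conj]
      have e2 : (ZMod.stdAddChar (b * m) : ℂ) =
          ZMod.stdAddChar (s * -m) * ZMod.stdAddChar (-((s + b) * -m)) := by
        rw [← AddChar.map_add_eq_mul]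
        congr 1
        ring
      rw [e2]
      ring
    rw [e1, norm_mul, RCLike.norm_conj, ← sq, ← pow_mul]
    have e3 := x1a_gauss r χ hχ (-m)
    calc ‖∑ s : ZMod r, (ZMod.stdAddChar (s * (-m)) : ℂ) * χ s‖ ^ (2 * 2)
        = (‖∑ s : ZMod r, (ZMod.stdAddChar (s * (-m)) : ℂ) * χ s‖ ^ 2) ^ 2 := by rw [pow_mul]
      _ ≤ (r : ℝ) ^ 2 := pow_le_pow_left₀ (sq_nonneg _) e3 2
  have h3 : (r : ℝ) * ∑ t : ZMod r, ‖∑ s : ZMod r, χ s * (starRingEnd ℂ) (χ (s + t))‖ ^ 2 ≤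
      (r : ℝ) * (r : ℝ) ^ 2 := by
    rw [← h1]
    refine (sum_le_sum fun m _ => h2 m).trans ?_
    rw [sum_const, card_univ, ZMod.card, nsmul_eq_mul]
  exact le_of_mul_le_mul_left h3 hr

end Pool.Agent.Lib.H59P
end

-- from Lib.H59P.X1
section

/-!
# Project H59P, chunk pB, X1
-/

open Finset

namespace Pool.Agent.Lib.H59P

open Pool.Agent.Lib.H68T Pool.Agent.Lib.H18Q

/-- The tuple of characters: `⟨r, ψ⟩` on `B`, trivial else. -/
noncomputable def pB {k : ℕ} (px : Ch) (B : Finset (Fin k)) (i : Fin k) : Ch := if i ∈ B then px else p0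

theorem x1_tot (r : ℕ) (hr : 0 < r) :
    ∏ l ∈ r.primeFactors, ((l : ℝ) / ((l : ℝ) - 1)) = (r : ℝ) / (Nat.totient r : ℝ) := by
  have h1 : (Nat.totient r : ℝ) = (r : ℝ) * ∏ p ∈ r.primeFactors, (1 - (p : ℝ)⁻¹) := by
    have h := Nat.totient_eq_mul_prod_factors r
    have h2 : (((Nat.totient r : ℚ)) : ℝ) = (((r : ℚ) * ∏ p ∈ r.primeFactors, (1 - (p : ℚ)⁻¹) : ℚ) : ℝ) := by
      rw [h]
    push_cast at h2
    exact h2
  have h3 : ∀ p ∈ r.primeFactors, ((p : ℝ) / ((p : ℝ) - 1)) * (1 - (p : ℝ)⁻¹) = 1 := by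
    intro p hp
    have hp2 := (Nat.prime_of_mem_primeFactors hp).two_le
    have hp3 : (2 : ℝ) ≤ p := by exact_mod_cast hp2
    have : (p : ℝ) - 1 ≠ 0 := by linarith
    have : (p : ℝ) ≠ 0 := by linarith
    field_simp
  have h4 : (∏ l ∈ r.primeFactors, ((l : ℝ) / ((l : ℝ) - 1))) * ∏ p ∈ r.primeFactors, (1 - (p : ℝ)⁻¹) = 1 := by
    rw [← prod_mul_distrib]
    exact prod_eq_one h3
  have hr0 : (0 : ℝ) < r := by exact_mod_cast hr
  have ht0 : (0 : ℝ) < Nat.totient r := by exact_mod_cast Nat.totient_pos.2 hr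
  rw [eq_div_iff ht0.ne', h1, mul_comm (r : ℝ), ← mul_assoc, h4, one_mul]

theorem x1_uu_unit (r : ℕ) (hr : 0 < r) (m : ℤ) (hm : IsUnit (m : ZMod r)) :
    uu r.primeFactors m = (r : ℝ) / (Nat.totient r : ℝ) := by
  rw [← x1_tot r hr]
  unfold uu
  refine prod_congr rfl fun l hl => ?_
  have hlp := Nat.prime_of_mem_primeFactors hl
  have hld := Nat.dvd_of_mem_primeFactors hl
  have hnd : ¬ (l : ℤ) ∣ m := by
    intro h
    rw [ZMod.coe_int_isUnit_iff_isCoprime] at hm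
    have h1 : IsCoprime (l : ℤ) m := hm.of_isCoprime_of_dvd_left (by exact_mod_cast hld)
    have h2 : IsUnit (l : ℤ) := h1.isUnit_of_dvd' dvd_rfl h
    rw [Int.isUnit_iff] at h2
    have := hlp.two_le
    omega
  unfold gl
  rw [if_neg hnd]
  have hp3 : (2 : ℝ) ≤ l := by exact_mod_cast hlp.two_le
  have : (l : ℝ) - 1 ≠ 0 := by linarith
  field_simp
  ring


theorem x1_sum_mul (r q : ℕ) (g : ℕ → ℂ) (hg : ∀ s, g (s + r) = g s) :
    ∑ s ∈ range (r * q), g s = q * ∑ s ∈ range r, g s := by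
  induction q with
  | zero => simp
  | succ q ih =>
    rw [Nat.mul_succ, sum_range_add, ih]
    have h1 : ∀ q s : ℕ, g (r * q + s) = g s := by
      intro q s
      induction q with
      | zero => simp
      | succ q ih =>
        rw [Nat.mul_succ, show r * q + r + s = (r * q + s) + r by ring, hg, ih]
    simp_rw [h1]
    push_cast
    ring

theorem x1_sum_zmod (r : ℕ) [NeZero r] {M : Type*} [AddCommMonoid M] (g : ZMod r → M) :
    ∑ s ∈ range r, g (s : ZMod r) = ∑ t : ZMod r, g t := by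
  refine sum_nbij' (fun s => (s : ZMod r)) (fun t => t.val) ?_ ?_ ?_ ?_ ?_
  · intro s _
    exact mem_univ _
  · intro t _
    exact mem_range.2 (ZMod.val_lt t)
  · intro s hs
    exact ZMod.val_cast_of_lt (mem_range.1 hs)
  · intro t _
    exact ZMod.natCast_zmod_val t
  · intro s _
    rfl

theorem x1_cj_norm (p : Ch) (m : ℤ) : ‖cj p m‖ ≤ 1 := by
  unfold cj
  rw [RCLike.norm_conj]
  exact DirichletCharacter.norm_le_one _ _

theorem x1_sum_c (r : ℕ) [NeZero r] (χ : DirichletCharacter ℂ r) (hχ : χ.IsPrimitive) :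
    ∑ t : ZMod r, ‖∑ s : ZMod r, χ s * (starRingEnd ℂ) (χ (s + t))‖ ≤ (r : ℝ) * Real.sqrt r := by
  have h1 := X1a r χ hχ
  have h2 := sq_sum_le_card_mul_sum_sq (s := (univ : Finset (ZMod r)))
    (f := fun t => ‖∑ s : ZMod r, χ s * (starRingEnd ℂ) (χ (s + t))‖)
  rw [card_univ, ZMod.card] at h2
  have hr0 : (0 : ℝ) ≤ r := Nat.cast_nonneg r
  refine (pow_le_pow_iff_left₀ (sum_nonneg fun _ _ => norm_nonneg _) (by positivity) two_ne_zero).1 ?_
  calc _ ≤ (r : ℝ) * ∑ t : ZMod r, ‖∑ s : ZMod r, χ s * (starRingEnd ℂ) (χ (s + t))‖ ^ 2 := h2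
    _ ≤ (r : ℝ) * (r : ℝ) ^ 2 := mul_le_mul_of_nonneg_left h1 hr0
    _ = ((r : ℝ) * Real.sqrt r) ^ 2 := by
      rw [mul_pow, Real.sq_sqrt hr0]
      ring

/-- the factor of the `i`-th coordinate -/
noncomputable def x1F {k : ℕ} (px : Ch) (B : Finset (Fin k)) (r : ℕ) (i : Fin k) (m : ℤ) : ℂ :=
  cj (pB px B i) m * ((uu r.primeFactors m : ℝ) : ℂ)

theorem x1_MR {k : ℕ} (px : Ch) (B : Finset (Fin k)) (r : ℕ) (h : Fin k → ℕ) :
    MR (pB px B) r h = (∑ n ∈ range r, ∏ i, x1F px B r i ((n : ℤ) + h i)) / r := rfl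

theorem x1_sq {k : ℕ} (px : Ch) (B : Finset (Fin k)) (r : ℕ) (h : Fin k → ℕ) :
    ((‖MR (pB px B) r h‖ ^ 2 : ℝ) : ℂ) = (1 / (r : ℂ) ^ 2) * ∑ n ∈ range r, ∑ n' ∈ range r,
      ∏ i, ((starRingEnd ℂ) (x1F px B r i ((n : ℤ) + h i)) * x1F px B r i ((n' : ℤ) + h i)) := by
  rw [Complex.ofReal_pow, ← Complex.conj_mul', x1_MR, map_div₀, map_sum, Complex.conj_natCast,
    div_mul_div_comm, sum_mul_sum, ← sq, one_div, div_eq_inv_mul]
  congr 1
  refine sum_congr rfl fun n _ => sum_congr rfl fun n' _ => ?_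
  rw [map_prod, prod_mul_distrib]

theorem x1_F_le {k : ℕ} (px : Ch) (B : Finset (Fin k)) (r : ℕ) (hr : 0 < r) (i : Fin k) (m : ℤ) :
    ‖x1F px B r i m‖ ≤ (r : ℝ) / (Nat.totient r : ℝ) := by
  unfold x1F
  rw [norm_mul, Complex.norm_real, Real.norm_eq_abs, abs_of_nonneg (M3a_uu r hr m).1]
  calc _ ≤ 1 * ((r : ℝ) / (Nat.totient r : ℝ)) :=
        mul_le_mul (x1_cj_norm _ _) (M3a_uu r hr m).2 (M3a_uu r hr m).1 zero_le_one
    _ = _ := one_mul _

theorem x1_F_B {k : ℕ} (r : ℕ) (hr : 0 < r) (χ : DirichletCharacter ℂ r) (B : Finset (Fin k)) (i : Fin k)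
    (hi : i ∈ B) (m : ℤ) :
    x1F ⟨r, χ⟩ B r i m = (((r : ℝ) / (Nat.totient r : ℝ) : ℝ) : ℂ) * (starRingEnd ℂ) (χ (m : ZMod r)) := by
  unfold x1F pB
  rw [if_pos hi]
  unfold cj
  by_cases hm : IsUnit (m : ZMod r)
  · rw [x1_uu_unit r hr m hm, mul_comm]
  · show (starRingEnd ℂ) (χ (m : ZMod r)) * _ = _
    rw [MulChar.map_nonunit χ hm]
    simp

/-- the correlation of one coordinate -/
noncomputable def x1T {k : ℕ} (px : Ch) (B : Finset (Fin k)) (r L : ℕ) (i : Fin k) (n n' : ℕ) : ℂ :=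
  ∑ s ∈ range L, (starRingEnd ℂ) (x1F px B r i ((n : ℤ) + s)) * x1F px B r i ((n' : ℤ) + s)

theorem x1_T_le {k : ℕ} (px : Ch) (B : Finset (Fin k)) (r : ℕ) (hr : 0 < r) (L : ℕ) (i : Fin k) (n n' : ℕ) :
    ‖x1T px B r L i n n'‖ ≤ (L : ℝ) * ((r : ℝ) / (Nat.totient r : ℝ)) ^ 2 := by
  unfold x1T
  refine (norm_sum_le _ _).trans ?_
  calc _ ≤ ∑ _s ∈ range L, ((r : ℝ) / (Nat.totient r : ℝ)) ^ 2 := by
        refine sum_le_sum fun s _ => ?_
        rw [norm_mul, RCLike.norm_conj, sq]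
        exact mul_le_mul (x1_F_le px B r hr i _) (x1_F_le px B r hr i _) (norm_nonneg _) (by positivity)
    _ = _ := by rw [sum_const, card_range, nsmul_eq_mul]

theorem x1_T_B {k : ℕ} (r : ℕ) [NeZero r] (hr : 0 < r) (χ : DirichletCharacter ℂ r) (B : Finset (Fin k)) (q : ℕ)
    (i : Fin k) (hi : i ∈ B) (n n' : ℕ) :
    ‖x1T ⟨r, χ⟩ B r (r * q) i n n'‖ = (q : ℝ) * ((r : ℝ) / (Nat.totient r : ℝ)) ^ 2 *
      ‖∑ s : ZMod r, χ s * (starRingEnd ℂ) (χ (s + ((n' : ZMod r) - (n : ZMod r))))‖ := by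
  have h1 : x1T ⟨r, χ⟩ B r (r * q) i n n' = ((((r : ℝ) / (Nat.totient r : ℝ)) ^ 2 : ℝ) : ℂ) *
      ∑ s ∈ range (r * q), χ ((n : ZMod r) + s) * (starRingEnd ℂ) (χ ((n' : ZMod r) + s)) := by
    unfold x1T
    rw [mul_sum]
    refine sum_congr rfl fun s _ => ?_
    rw [x1_F_B r hr χ B i hi, x1_F_B r hr χ B i hi]
    push_cast
    simp only [map_mul, map_div₀, Complex.conj_natCast, Complex.conj_conj]
    ring
  have h2 : ∑ s ∈ range (r * q), χ ((n : ZMod r) + s) * (starRingEnd ℂ) (χ ((n' : ZMod r) + s)) =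
      q * ∑ s : ZMod r, χ s * (starRingEnd ℂ) (χ (s + ((n' : ZMod r) - (n : ZMod r)))) := by
    rw [x1_sum_mul r q (fun s => χ ((n : ZMod r) + s) * (starRingEnd ℂ) (χ ((n' : ZMod r) + s)))]
    · congr 1
      rw [x1_sum_zmod r fun s : ZMod r => χ ((n : ZMod r) + s) * (starRingEnd ℂ) (χ ((n' : ZMod r) + s))]
      refine Fintype.sum_equiv (Equiv.addLeft (n : ZMod r)) _ _ fun s => ?_
      simp only [Equiv.coe_addLeft]
      congr 3
      ring
    · intro s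
      push_cast
      rw [ZMod.natCast_self, add_zero]
  rw [h1, h2, norm_mul, norm_mul, Complex.norm_real, Real.norm_eq_abs, abs_of_nonneg (sq_nonneg _),
    Complex.norm_natCast]
  ring

theorem x1_double (r : ℕ) [NeZero r] (f : ZMod r → ℝ) :
    ∑ n ∈ range r, ∑ n' ∈ range r, f ((n' : ZMod r) - (n : ZMod r)) = (r : ℝ) * ∑ t : ZMod r, f t := by
  have h1 : ∀ n : ℕ, ∑ n' ∈ range r, f ((n' : ZMod r) - (n : ZMod r)) = ∑ t : ZMod r, f t := by
    intro n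
    rw [x1_sum_zmod r fun t : ZMod r => f (t - (n : ZMod r))]
    exact Fintype.sum_equiv (Equiv.subRight (n : ZMod r)) _ _ fun t => rfl
  simp_rw [h1]
  rw [sum_const, card_range, nsmul_eq_mul]

theorem x1_main {k : ℕ} (X r : ℕ) (hr : 0 < r) (hrX : r ≤ X) (χ : DirichletCharacter ℂ r)
    (hprim : χ.IsPrimitive) (B : Finset (Fin k)) (hB : B.Nonempty) :
    ∑ h ∈ bx k X, ‖MR (pB ⟨r, χ⟩ B) r h‖ ^ 2 ≤
      (2 * (X : ℝ)) ^ k * ((r : ℝ) / (Nat.totient r : ℝ)) ^ (2 * k) * (r : ℝ) ^ (-(1 / 2) : ℝ) := by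
  have : NeZero r := ⟨hr.ne'⟩
  obtain ⟨i0, hi0⟩ := hB
  set Φ : ℝ := (r : ℝ) / (Nat.totient r : ℝ) with hΦ
  have hr0 : (0 : ℝ) < r := by exact_mod_cast hr
  have hΦ0 : 0 ≤ Φ := by positivity
  set q := (X + r - 1) / r with hq
  have hq1 : X ≤ r * q := by
    have h1 := Nat.div_add_mod (X + r - 1) r
    have h2 := Nat.mod_lt (X + r - 1) hr
    rw [← hq] at h1
    omega
  have hq2 : r * q ≤ 2 * X := by
    have h1 := Nat.mul_div_le (X + r - 1) r
    rw [← hq] at h1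
    omega
  set L := r * q with hL
  have hsub : bx k X ⊆ bx k L := by
    intro h hh
    unfold bx at hh ⊢
    rw [Fintype.mem_piFinset] at hh ⊢
    intro i
    have := mem_range.1 (hh i)
    exact mem_range.2 (by omega)
  have h1 : ∑ h ∈ bx k X, ‖MR (pB ⟨r, χ⟩ B) r h‖ ^ 2 ≤ ∑ h ∈ bx k L, ‖MR (pB ⟨r, χ⟩ B) r h‖ ^ 2 :=
    sum_le_sum_of_subset_of_nonneg hsub fun h _ _ => sq_nonneg _
  have h2 : ((∑ h ∈ bx k L, ‖MR (pB ⟨r, χ⟩ B) r h‖ ^ 2 : ℝ) : ℂ) =
      (1 / (r : ℂ) ^ 2) * ∑ n ∈ range r, ∑ n' ∈ range r, ∏ i, x1T ⟨r, χ⟩ B r L i n n' := by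
    rw [Complex.ofReal_sum]
    simp_rw [x1_sq]
    rw [← mul_sum, sum_comm]
    congr 1
    refine sum_congr rfl fun n _ => ?_
    rw [sum_comm]
    refine sum_congr rfl fun n' _ => ?_
    unfold bx x1T
    rw [prod_univ_sum]
  have h3 : ∀ n n' : ℕ, ‖∏ i, x1T ⟨r, χ⟩ B r L i n n'‖ ≤ ((L : ℝ) * Φ ^ 2) ^ (k - 1) * ((q : ℝ) * Φ ^ 2 *
      ‖∑ s : ZMod r, χ s * (starRingEnd ℂ) (χ (s + ((n' : ZMod r) - (n : ZMod r))))‖) := by
    intro n n'
    rw [norm_prod, ← mul_prod_erase univ _ (mem_univ i0), mul_comm]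
    apply mul_le_mul _ (x1_T_B r hr χ B q i0 hi0 n n').le (norm_nonneg _) (by positivity)
    refine (prod_le_prod (fun i _ => norm_nonneg _) fun i _ => x1_T_le ⟨r, χ⟩ B r hr L i n n').trans ?_
    rw [prod_const, card_erase_of_mem (mem_univ i0), card_univ, Fintype.card_fin]
  have h4 : ∑ h ∈ bx k L, ‖MR (pB ⟨r, χ⟩ B) r h‖ ^ 2 ≤ (1 / (r : ℝ) ^ 2) *
      (((L : ℝ) * Φ ^ 2) ^ (k - 1) * ((q : ℝ) * Φ ^ 2) * ((r : ℝ) * ((r : ℝ) * Real.sqrt r))) := by
    have h5 : ∑ h ∈ bx k L, ‖MR (pB ⟨r, χ⟩ B) r h‖ ^ 2 =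
        ‖((∑ h ∈ bx k L, ‖MR (pB ⟨r, χ⟩ B) r h‖ ^ 2 : ℝ) : ℂ)‖ := by
      rw [Complex.norm_real, Real.norm_eq_abs, abs_of_nonneg (sum_nonneg fun _ _ => sq_nonneg _)]
    rw [h5, h2, norm_mul, norm_div, norm_one, norm_pow, Complex.norm_natCast]
    refine mul_le_mul_of_nonneg_left ?_ (by positivity)
    refine (norm_sum_le _ _).trans ?_
    calc _ ≤ ∑ n ∈ range r, ∑ n' ∈ range r, ((L : ℝ) * Φ ^ 2) ^ (k - 1) * ((q : ℝ) * Φ ^ 2 *
          ‖∑ s : ZMod r, χ s * (starRingEnd ℂ) (χ (s + ((n' : ZMod r) - (n : ZMod r))))‖) :=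
          sum_le_sum fun n _ => (norm_sum_le _ _).trans (sum_le_sum fun n' _ => h3 n n')
      _ = ((L : ℝ) * Φ ^ 2) ^ (k - 1) * ((q : ℝ) * Φ ^ 2) *
          ∑ n ∈ range r, ∑ n' ∈ range r,
            ‖∑ s : ZMod r, χ s * (starRingEnd ℂ) (χ (s + ((n' : ZMod r) - (n : ZMod r))))‖ := by
          rw [mul_sum]
          refine sum_congr rfl fun n _ => ?_
          rw [mul_sum]
          refine sum_congr rfl fun n' _ => ?_
          ring
      _ = ((L : ℝ) * Φ ^ 2) ^ (k - 1) * ((q : ℝ) * Φ ^ 2) * ((r : ℝ) *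
            ∑ t : ZMod r, ‖∑ s : ZMod r, χ s * (starRingEnd ℂ) (χ (s + t))‖) := by
          rw [x1_double r fun t => ‖∑ s : ZMod r, χ s * (starRingEnd ℂ) (χ (s + t))‖]
      _ ≤ _ := by
          refine mul_le_mul_of_nonneg_left ?_ (by positivity)
          exact mul_le_mul_of_nonneg_left (x1_sum_c r χ hprim) hr0.le
  have hk : 1 ≤ k := Nat.one_le_of_lt i0.2
  obtain ⟨k', rfl⟩ : ∃ k', k = k' + 1 := ⟨k - 1, by omega⟩
  rw [Nat.add_sub_cancel] at h4
  have hs : (r : ℝ) ^ (-(1 / 2) : ℝ) = (Real.sqrt r)⁻¹ := by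
    rw [Real.rpow_neg hr0.le, Real.sqrt_eq_rpow]
  have hs0 : 0 < Real.sqrt r := Real.sqrt_pos.2 hr0
  have hss : Real.sqrt r * Real.sqrt r = r := Real.mul_self_sqrt hr0.le
  have hLq : (L : ℝ) = r * q := by rw [hL]; push_cast; ring
  have hL2 : (L : ℝ) ≤ 2 * X := by exact_mod_cast hq2
  refine (h1.trans h4).trans ?_
  have h6 : (1 / (r : ℝ) ^ 2) * (((L : ℝ) * Φ ^ 2) ^ k' * ((q : ℝ) * Φ ^ 2) * ((r : ℝ) * ((r : ℝ) * Real.sqrt r)))
      = (L : ℝ) ^ (k' + 1) * Φ ^ (2 * (k' + 1)) * (Real.sqrt r)⁻¹ := by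
    have e1 : (Real.sqrt r)⁻¹ = Real.sqrt r / r := by
      rw [eq_div_iff hr0.ne', inv_mul_eq_div, div_eq_iff hs0.ne', hss]
    rw [e1, mul_pow, pow_succ (L : ℝ) k', ← pow_mul]
    have e2 : Φ ^ (2 * (k' + 1)) = Φ ^ (2 * k') * Φ ^ 2 := by ring
    rw [e2, hLq]
    field_simp
  rw [h6, hs]
  gcongr

/-- **X1.** Proof. The range of each `h_i` is covered by `⌈X/r⌉ ≤ 2X/r` complete periods, and the summand is
nonnegative and periodic modulo `r` in each `h_i`: the sum is at most `(2X/r)^k` times the sum over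
`[0, r)^k`. There, squaring out, it is `(1/r²) ∑_{n,n'} ∏_i (∑_{s mod r} …)`: for `i ∉ B` the factor is
`∑_s uu(n+s) uu(n'+s) ≤ r (r/φ)²`, for `i ∈ B` (`uu = r/φ(r)` where `ψ ≠ 0`) it is `(r/φ)² ∑_s χ(n+s) conj χ(n'+s)`, of
absolute value `(r/φ)² |c(n'-n)| ≤ r (r/φ)²`. Choose one `i0 ∈ B` and bound the others: at most
`r^(k-1) (r/φ)^(2k) (1/r²) ∑_{n,n'} |c(n'-n)| = r^(k-1) (r/φ)^(2k) (1/r) ∑_t |c(t)| ≤ r^(k-1) (r/φ)^(2k) (1/r) (r · r²)^(1/2)`
by Cauchy-Schwarz and `X1a`, i.e. `r^k (r/φ)^(2k) r^(-1/2)`. -/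
theorem X1 {k : ℕ} (X r : ℕ) (hr : 0 < r) (hrX : r ≤ X) (px : Ch) (hpx : px.1 = r)
    (hprim : px.2.IsPrimitive) (B : Finset (Fin k)) (hB : B.Nonempty) :
    ∑ h ∈ bx k X, ‖MR (pB px B) r h‖ ^ 2 ≤
      (2 * (X : ℝ)) ^ k * ((r : ℝ) / (Nat.totient r : ℝ)) ^ (2 * k) * (r : ℝ) ^ (-(1 / 2) : ℝ) := by
  obtain ⟨r', χ⟩ := px
  simp only at hpx
  subst hpx
  exact x1_main X r' hr hrX χ hprim B hB

end Pool.Agent.Lib.H59P
end

-- from Lib.H59P.X2A
section

/-!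
# Project H59P, chunk X2a
-/

open Finset

namespace Pool.Agent.Lib.H59P

open Pool.Agent.Lib.H68T Pool.Agent.Lib.H18Q

theorem x2a_p0 (m : ℤ) : cj p0 m = 1 := cl1_p0_one m

theorem x2a_real (px : Ch) (hreal : px.2 ^ 2 = 1) (m : ℤ) : (((cj px m).re : ℝ) : ℂ) = cj px m := by
  unfold cj
  by_cases hu : IsUnit (m : ZMod px.1)
  · have h1 : px.2 (m : ZMod px.1) ^ 2 = 1 := by
      have h2 : (px.2 ^ 2) (m : ZMod px.1) = (1 : DirichletCharacter ℂ px.1) (m : ZMod px.1) := by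
        rw [hreal]
      rw [MulChar.one_apply hu] at h2
      rw [← h2, MulChar.pow_apply' _ two_ne_zero]
    have h3 : px.2 (m : ZMod px.1) = 1 ∨ px.2 (m : ZMod px.1) = -1 := by
      have h4 : (px.2 (m : ZMod px.1) - 1) * (px.2 (m : ZMod px.1) + 1) = 0 := by linear_combination h1
      rcases mul_eq_zero.1 h4 with h5 | h5
      · left; linear_combination h5
      · right; linear_combination h5
    rcases h3 with h | h
    all_goals rw [h]; simp
  · rw [MulChar.map_nonunit _ hu]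
    simp

/-- The expansion of the main term. Proof. `∏_i (1 - th_i ψ) = ∑_B ∏_{i∈B} (-th_i) ψ(n+h_i)` (`Finset.prod_add` or
`Finset.prod_one_sub`…), and `M5` with `R = px.1` (`px.1 ∣ Q!`). -/
theorem X2a {k : ℕ} (Q : ℕ) (px : Ch) (hpx : px ∈ PC Q) (hreal : px.2 ^ 2 = 1) (th : Fin k → ℝ)
    (h : Fin k → ℕ) :
    ((PM Q px th h : ℝ) : ℂ) = ∑ B ∈ (univ : Finset (Fin k)).powerset,
      ((∏ i ∈ B, -(th i) : ℝ) : ℂ) * (MR (pB px B) px.1 h *
        ((SS ((pr Q).filter (fun l => ¬ l ∣ px.1)) h : ℝ) : ℂ)) := by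
  classical
  obtain ⟨hr1, hrQ, hprim⟩ := mem_PC.1 hpx
  have h1 : ∀ B : Finset (Fin k), MR (pB px B) px.1 h *
        ((SS ((pr Q).filter (fun l => ¬ l ∣ px.1)) h : ℝ) : ℂ) = MQ Q (pB px B) h := by
    intro B
    refine M5 Q px.1 (by omega) (Nat.dvd_factorial (by omega) hrQ) (pB px B) ?_ h
    intro i
    unfold pB
    split_ifs
    · exact dvd_rfl
    · exact one_dvd _
  rw [sum_congr rfl fun B _ => by rw [h1 B]]
  have h2 : ∀ n : ℤ, ((fP Q px th h n : ℝ) : ℂ) = ∑ B ∈ (univ : Finset (Fin k)).powerset,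
      ((∏ i ∈ B, -(th i) : ℝ) : ℂ) * Ph (pB px B) (pr Q) h n := by
    intro n
    unfold fP
    rw [Complex.ofReal_prod]
    have e1 : ∀ i : Fin k, ((uu (pr Q) (n + h i) * (1 - th i * (cj px (n + h i)).re) : ℝ) : ℂ) =
        ((uu (pr Q) (n + h i) : ℝ) : ℂ) * ((((-(th i) : ℝ)) : ℂ) * cj px (n + h i) + 1) := by
      intro i
      push_cast
      rw [x2a_real px hreal]
      ring
    rw [prod_congr rfl fun i _ => e1 i, prod_mul_distrib, Finset.prod_add, mul_sum]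
    refine sum_congr rfl fun B hB => ?_
    unfold Ph
    rw [prod_mul_distrib, prod_mul_distrib, prod_const_one, mul_one, Complex.ofReal_prod]
    have e2 : ∏ i, cj (pB px B i) (n + h i) = ∏ i ∈ B, cj px (n + h i) := by
      rw [← prod_subset (subset_univ B)]
      · refine prod_congr rfl fun i hi => ?_
        unfold pB
        rw [if_pos hi]
      · intro i _ hi
        unfold pB
        rw [if_neg hi, x2a_p0]
    rw [e2]
    ring
  unfold PM MQ
  rw [Complex.ofReal_div, Complex.ofReal_sum, sum_congr rfl fun (n : ℕ) _ => h2 (n : ℤ), sum_comm,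
    sum_div]
  refine sum_congr rfl fun B _ => ?_
  rw [← mul_sum, mul_div_assoc]
  norm_cast

end Pool.Agent.Lib.H59P
end

-- from Lib.H59P.X2
section

/-!
# Project H59P, chunk X2
-/

open Finset

namespace Pool.Agent.Lib.H59P

open Pool.Agent.Lib.H68T Pool.Agent.Lib.H18Q

theorem x2_SS_nonneg {k : ℕ} (P : Finset ℕ) (hP : ∀ l ∈ P, l.Prime) (h : Fin k → ℕ) :
    0 ≤ SS P h :=
  Finset.prod_nonneg fun l hl => (M3a_tp l (hP l hl) h 0).2.2.1

theorem x2_mem_pr {Q l : ℕ} : l ∈ pr Q ↔ l.Prime ∧ l ≤ Q := by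
  unfold pr
  rw [Finset.mem_filter, Finset.mem_Icc]
  constructor
  · rintro ⟨⟨_, h2⟩, h3⟩
    exact ⟨h3, h2⟩
  · rintro ⟨h1, h2⟩
    exact ⟨⟨h1.one_lt.le, h2⟩, h1⟩

/-- **X2.** Proof. `SS (pr Q) h = SS (primes ∣ r) h · SS (primes ∤ r) h` and `MR (pB px ∅) r h = SS (primes ∣ r) h`
(`M5_loc`). By `X2a`, `PM ≥ SS (primes ∤ r) (SS (primes ∣ r) - ∑_{B ≠ ∅} ‖MR (pB px B) r h‖)`
(`|th_i| ≤ 1`), and the sum is at most `2^k` times the maximum. -/
theorem X2 {k : ℕ} (Q : ℕ) (px : Ch) (hpx : px ∈ PC Q) (hreal : px.2 ^ 2 = 1) (th : Fin k → ℝ)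
    (hth0 : ∀ i, 0 ≤ th i) (hth : ∀ i, th i ≤ 1) (h : Fin k → ℕ)
    (hm : ∀ B : Finset (Fin k), B.Nonempty →
      2 ^ (k + 1) * ‖MR (pB px B) px.1 h‖ ≤ SS px.1.primeFactors h) :
    1 / 2 * SS (pr Q) h ≤ PM Q px th h := by
  classical
  have hpc := mem_PC.mp hpx
  have hr : 0 < px.1 := hpc.1
  set S : ℝ := SS px.1.primeFactors h with hS
  set S' : ℝ := SS ((pr Q).filter (fun l => ¬ l ∣ px.1)) h with hS'
  have hS0 : 0 ≤ S := x2_SS_nonneg _ (fun l hl => Nat.prime_of_mem_primeFactors hl) h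
  have hS'0 : 0 ≤ S' := x2_SS_nonneg _ (fun l hl => (x2_mem_pr.mp (Finset.mem_filter.mp hl).1).1) h
  have hsplit : SS (pr Q) h = S * S' := by
    have h1 : (pr Q).filter (fun l => l ∣ px.1) = px.1.primeFactors := by
      ext l
      rw [Finset.mem_filter, x2_mem_pr, Nat.mem_primeFactors]
      constructor
      · rintro ⟨⟨h1, _⟩, h3⟩
        exact ⟨h1, h3, hr.ne'⟩
      · rintro ⟨h1, h3, _⟩
        exact ⟨⟨h1, (Nat.le_of_dvd hr h3).trans hpc.2.1⟩, h3⟩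
    rw [hS, hS', ← h1]
    unfold SS
    exact (Finset.prod_filter_mul_prod_filter_not (pr Q) (fun l => l ∣ px.1)
      (fun l => 1 + tp l h)).symm
  have hempty : MR (pB px (∅ : Finset (Fin k))) px.1 h = ((S : ℝ) : ℂ) := by
    have h1 : (pB px (∅ : Finset (Fin k))) = fun _ => p0 := by
      funext i
      simp [pB]
    rw [h1]
    exact M5_loc px.1 hr h
  have hX := X2a Q px hpx hreal th h
  -- take real parts
  set E : Finset (Fin k) → ℂ := fun B => ((∏ i ∈ B, -(th i) : ℝ) : ℂ) * MR (pB px B) px.1 h with hE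
  have hX' : ((PM Q px th h : ℝ) : ℂ) = (∑ B ∈ (univ : Finset (Fin k)).powerset, E B) * (S' : ℂ) := by
    rw [hX, Finset.sum_mul]
    refine Finset.sum_congr rfl fun B _ => ?_
    simp only [hE]
    ring
  have hne : (∅ : Finset (Fin k)) ∈ (univ : Finset (Fin k)).powerset := by simp
  rw [← Finset.add_sum_erase _ E hne] at hX'
  have hE0 : E ∅ = ((S : ℝ) : ℂ) := by
    simp only [hE, Finset.prod_empty, hempty]
    simp
  rw [hE0] at hX'
  have hre : PM Q px th h = (S + (∑ B ∈ (univ : Finset (Fin k)).powerset.erase ∅, E B).re) * S' := by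
    have h1 := congrArg Complex.re hX'
    rw [Complex.ofReal_re, Complex.re_mul_ofReal, Complex.add_re, Complex.ofReal_re] at h1
    exact h1
  have hbound : ‖∑ B ∈ (univ : Finset (Fin k)).powerset.erase ∅, E B‖ ≤ S / 2 := by
    refine (norm_sum_le _ _).trans ?_
    have h1 : ∀ B ∈ (univ : Finset (Fin k)).powerset.erase ∅, ‖E B‖ ≤ S / 2 ^ (k + 1) := by
      intro B hB
      have hBn : B.Nonempty := Finset.nonempty_iff_ne_empty.mpr (Finset.mem_erase.mp hB).1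
      simp only [hE]
      rw [norm_mul, Complex.norm_real]
      have h2 : ‖(∏ i ∈ B, -(th i) : ℝ)‖ ≤ 1 := by
        rw [norm_prod]
        refine Finset.prod_le_one (fun i _ => norm_nonneg _) fun i _ => ?_
        rw [norm_neg, Real.norm_eq_abs, abs_of_nonneg (hth0 i)]
        exact hth i
      have h3 := hm B hBn
      have h4 : ‖MR (pB px B) px.1 h‖ ≤ S / 2 ^ (k + 1) := by
        rw [le_div_iff₀ (by positivity), mul_comm]
        exact h3
      calc ‖(∏ i ∈ B, -(th i) : ℝ)‖ * ‖MR (pB px B) px.1 h‖ ≤ 1 * ‖MR (pB px B) px.1 h‖ :=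
            mul_le_mul_of_nonneg_right h2 (norm_nonneg _)
        _ ≤ S / 2 ^ (k + 1) := by rw [one_mul]; exact h4
    refine (Finset.sum_le_sum h1).trans ?_
    rw [Finset.sum_const, nsmul_eq_mul]
    have h5 : (((univ : Finset (Fin k)).powerset.erase ∅).card : ℝ) ≤ 2 ^ k := by
      have h6 : ((univ : Finset (Fin k)).powerset.erase ∅).card ≤
          (univ : Finset (Fin k)).powerset.card := Finset.card_erase_le
      rw [Finset.card_powerset, Finset.card_univ, Fintype.card_fin] at h6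
      exact_mod_cast h6
    have h7 : 0 ≤ S / 2 ^ (k + 1) := by positivity
    calc (((univ : Finset (Fin k)).powerset.erase ∅).card : ℝ) * (S / 2 ^ (k + 1))
        ≤ 2 ^ k * (S / 2 ^ (k + 1)) := mul_le_mul_of_nonneg_right h5 h7
      _ = S / 2 := by rw [pow_succ]; field_simp
  have hre2 : -(S / 2) ≤ (∑ B ∈ (univ : Finset (Fin k)).powerset.erase ∅, E B).re := by
    have h1 := Complex.abs_re_le_norm (∑ B ∈ (univ : Finset (Fin k)).powerset.erase ∅, E B)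
    have h2 := (abs_le.mp (h1.trans hbound)).1
    exact h2
  rw [hre, hsplit]
  have h3 : S / 2 * S' ≤
      (S + (∑ B ∈ (univ : Finset (Fin k)).powerset.erase ∅, E B).re) * S' :=
    mul_le_mul_of_nonneg_right (by linarith) hS'0
  linarith

end Pool.Agent.Lib.H59P
end

-- from Lib.H59P.X3
section

/-!
# Project H59P, chunk X3
-/

open Finset

namespace Pool.Agent.Lib.H59P

open Pool.Agent.Lib.H68T Pool.Agent.Lib.H18Q

theorem x3_const (c0 L : ℝ) (hc0 : 0 ≤ c0) (hL : 3 ≤ L) (k : ℕ) (hk : 1 ≤ k) :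
    2 ^ k * (4 ^ (k + 1) * Real.exp (2 * c0) ^ k * (2 ^ k * (4 * L) ^ (2 * k))) ≤
      L ^ ((9 + 2 * c0) * (k : ℝ)) := by
  have hL0 : 0 < L := by linarith
  rw [Real.rpow_mul hL0.le, Real.rpow_natCast, Real.rpow_add hL0]
  have h1 : Real.exp (2 * c0) ≤ L ^ (2 * c0) := by
    have h2 : Real.exp 1 ≤ L := by
      have := Real.exp_one_lt_d9
      linarith
    calc Real.exp (2 * c0) = Real.exp 1 ^ (2 * c0) := by
          rw [Real.exp_one_rpow]
      _ ≤ L ^ (2 * c0) := Real.rpow_le_rpow (Real.exp_pos 1).le h2 (by positivity)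
  have h3 : L ^ (9 : ℝ) = L ^ 9 := by
    rw [← Real.rpow_natCast]
    norm_num
  rw [h3]
  have h4 : (4 : ℝ) ≤ 4 ^ k := by
    calc (4 : ℝ) = 4 ^ 1 := by norm_num
      _ ≤ 4 ^ k := pow_le_pow_right₀ (by norm_num) hk
  have h5 : 2 ^ k * (4 ^ (k + 1) * Real.exp (2 * c0) ^ k * (2 ^ k * (4 * L) ^ (2 * k))) =
      4 * (256 * Real.exp (2 * c0) * L ^ 2) ^ k := by
    rw [pow_mul (4 * L) 2 k, pow_succ]
    have e1 : (256 : ℝ) = 2 * (4 * (2 * 4 ^ 2)) := by norm_num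
    rw [e1]
    simp only [mul_pow]
    ring
  rw [h5]
  calc 4 * (256 * Real.exp (2 * c0) * L ^ 2) ^ k
      ≤ 4 ^ k * (256 * Real.exp (2 * c0) * L ^ 2) ^ k :=
        mul_le_mul_of_nonneg_right h4 (by positivity)
    _ = (4 * (256 * Real.exp (2 * c0) * L ^ 2)) ^ k := by rw [← mul_pow]
    _ ≤ (L ^ 9 * L ^ (2 * c0)) ^ k := by
        refine pow_le_pow_left₀ (by positivity) ?_ k
        have h6 : (2187 : ℝ) ≤ L ^ 7 := by
          calc (2187 : ℝ) = 3 ^ 7 := by norm_num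
            _ ≤ L ^ 7 := pow_le_pow_left₀ (by norm_num) hL 7
        have h7 : (0 : ℝ) < L ^ 2 := by positivity
        calc 4 * (256 * Real.exp (2 * c0) * L ^ 2) = (1024 * L ^ 2) * Real.exp (2 * c0) := by ring
          _ ≤ (L ^ 7 * L ^ 2) * L ^ (2 * c0) := by
              refine mul_le_mul ?_ h1 (Real.exp_pos _).le (by positivity)
              exact mul_le_mul_of_nonneg_right (by linarith) h7.le
          _ = L ^ 9 * L ^ (2 * c0) := by ring

/-- **X3.** Large conductor. `c0` is the constant of the lower bound for the singular series (hypothesis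
`hlow`, proved in module T).

Proof. The bad set is the union over `B ≠ ∅` of `{h ∈ bx k X | 2^(k+1) ‖MR (pB px B) r h‖ > exp (-c0 k)}`;
by Markov and `X1` its size is at most `2^k · 4^(k+1) e^(2 c0 k) (2X)^k (r/φ(r))^(2k) r^(-1/2)`, and
`r/φ(r) ≤ 2 (1 + log r) ≤ 4 log X` (`M3b`). The total constant to the power `k` is absorbed by
`(log X)^(C k)` (`log X ≥ 3`). -/
theorem X3 (c0 : ℝ) (hc0 : 0 ≤ c0)
    (hlow : ∀ (k : ℕ) (h : Fin k → ℕ), Adm h → ∀ P : Finset ℕ, (∀ l ∈ P, l.Prime) →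
      Real.exp (-(c0 * k)) ≤ SS P h) :
    ∃ C : ℝ, 1 ≤ C ∧ ∀ (k Q X : ℕ) (px : Ch), 3 ≤ Real.log X → 1 ≤ k → px ∈ PC Q → px.2 ^ 2 = 1 →
      px.1 ≤ X → ∃ Bad : Finset (Fin k → ℕ), Bad ⊆ bx k X ∧
        (Bad.card : ℝ) ≤ (X : ℝ) ^ k * (Real.log X) ^ (C * k) * (px.1 : ℝ) ^ (-(1 / 2) : ℝ) ∧
        ∀ h ∈ bx k X, h ∉ Bad → Adm h → ∀ th : Fin k → ℝ, (∀ i, 0 ≤ th i) → (∀ i, th i ≤ 1) →
          1 / 2 * SS (pr Q) h ≤ PM Q px th h := by
  classical
  refine ⟨9 + 2 * c0, by linarith, ?_⟩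
  intro k Q X px hX hk hpx hreal hle
  obtain ⟨hr1, hrQ, hprim⟩ := mem_PC.1 hpx
  set L := Real.log X with hLdef
  have hL0 : 0 < L := by linarith
  -- the sets for one `B`
  set S : Finset (Fin k) → Finset (Fin k → ℕ) := fun B =>
    (bx k X).filter (fun h => Real.exp (-(c0 * k)) < 2 ^ (k + 1) * ‖MR (pB px B) px.1 h‖) with hS
  set Bad : Finset (Fin k → ℕ) := ((univ : Finset (Finset (Fin k))).filter (fun B => B.Nonempty)).biUnion S
    with hBad
  have hr0 : (0 : ℝ) < (px.1 : ℝ) ^ (-(1 / 2) : ℝ) := Real.rpow_pos_of_pos (by exact_mod_cast hr1) _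
  have hphi : (px.1 : ℝ) / (Nat.totient px.1 : ℝ) ≤ 4 * L := by
    have h1 := M3b px.1 hr1
    have h2 : Real.log px.1 ≤ L := Real.log_le_log (by exact_mod_cast hr1) (by exact_mod_cast hle)
    linarith
  have hphi0 : (0 : ℝ) ≤ (px.1 : ℝ) / (Nat.totient px.1 : ℝ) := by positivity
  have hcard : ∀ B : Finset (Fin k), B.Nonempty → ((S B).card : ℝ) ≤
      4 ^ (k + 1) * Real.exp (2 * c0) ^ k * ((2 * (X : ℝ)) ^ k * (4 * L) ^ (2 * k) *
        (px.1 : ℝ) ^ (-(1 / 2) : ℝ)) := by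
    intro B hB
    have h1 := X1 X px.1 (by omega) hle px rfl hprim B hB
    have h2 : ((S B).card : ℝ) ≤ ∑ h ∈ S B, 4 ^ (k + 1) * Real.exp (2 * c0) ^ k *
        ‖MR (pB px B) px.1 h‖ ^ 2 := by
      rw [Finset.card_eq_sum_ones, Nat.cast_sum]
      refine sum_le_sum fun h hh => ?_
      rw [hS] at hh
      have h3 := (mem_filter.1 hh).2
      have h4 : Real.exp (-(c0 * k)) ^ 2 ≤ (2 ^ (k + 1) * ‖MR (pB px B) px.1 h‖) ^ 2 :=
        pow_le_pow_left₀ (Real.exp_pos _).le h3.le 2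
      have h5 : Real.exp (2 * c0) ^ k * Real.exp (-(c0 * k)) ^ 2 = 1 := by
        rw [← Real.exp_nat_mul, ← Real.exp_nat_mul, ← Real.exp_add]
        rw [Real.exp_eq_one_iff]
        push_cast
        ring
      have h6 : (0 : ℝ) < Real.exp (2 * c0) ^ k := by positivity
      push_cast
      calc (1 : ℝ) = Real.exp (2 * c0) ^ k * Real.exp (-(c0 * k)) ^ 2 := h5.symm
        _ ≤ Real.exp (2 * c0) ^ k * (2 ^ (k + 1) * ‖MR (pB px B) px.1 h‖) ^ 2 :=
            mul_le_mul_of_nonneg_left h4 h6.le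
        _ = 4 ^ (k + 1) * Real.exp (2 * c0) ^ k * ‖MR (pB px B) px.1 h‖ ^ 2 := by
            rw [mul_pow, ← pow_mul, mul_comm (k + 1) 2, pow_mul]
            norm_num
            ring
    refine h2.trans ?_
    rw [← mul_sum]
    refine mul_le_mul_of_nonneg_left ?_ (by positivity)
    have h7 : ∑ h ∈ S B, ‖MR (pB px B) px.1 h‖ ^ 2 ≤ ∑ h ∈ bx k X, ‖MR (pB px B) px.1 h‖ ^ 2 :=
      sum_le_sum_of_subset_of_nonneg (filter_subset _ _) fun _ _ _ => sq_nonneg _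
    refine h7.trans (h1.trans ?_)
    refine mul_le_mul_of_nonneg_right ?_ hr0.le
    refine mul_le_mul_of_nonneg_left ?_ (by positivity)
    exact pow_le_pow_left₀ hphi0 hphi (2 * k)
  refine ⟨Bad, ?_, ?_, ?_⟩
  · intro h hh
    rw [hBad, mem_biUnion] at hh
    obtain ⟨B, _, hB⟩ := hh
    exact (mem_filter.1 hB).1
  · have h1 : (Bad.card : ℝ) ≤ ∑ B ∈ (univ : Finset (Finset (Fin k))).filter (fun B => B.Nonempty),
        ((S B).card : ℝ) := by
      have := @card_biUnion_le _ _ _ ((univ : Finset (Finset (Fin k))).filter (fun B => B.Nonempty)) S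
      exact_mod_cast this
    have h2 : ∑ B ∈ (univ : Finset (Finset (Fin k))).filter (fun B => B.Nonempty),
        ((S B).card : ℝ) ≤ 2 ^ k * (4 ^ (k + 1) * Real.exp (2 * c0) ^ k * ((2 * (X : ℝ)) ^ k *
          (4 * L) ^ (2 * k) * (px.1 : ℝ) ^ (-(1 / 2) : ℝ))) := by
      refine (sum_le_sum fun B hB => hcard B (mem_filter.1 hB).2).trans ?_
      rw [sum_const, nsmul_eq_mul]
      refine mul_le_mul_of_nonneg_right ?_ (by positivity)
      have h3 : ((univ : Finset (Finset (Fin k))).filter (fun B => B.Nonempty)).card ≤ 2 ^ k := by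
        refine (card_filter_le _ _).trans ?_
        rw [card_univ, Fintype.card_finset, Fintype.card_fin]
      exact_mod_cast h3
    refine h1.trans (h2.trans ?_)
    have h4 := x3_const c0 L hc0 hX k hk
    have h5 : 2 ^ k * (4 ^ (k + 1) * Real.exp (2 * c0) ^ k * ((2 * (X : ℝ)) ^ k *
          (4 * L) ^ (2 * k) * (px.1 : ℝ) ^ (-(1 / 2) : ℝ))) =
        (X : ℝ) ^ k * (2 ^ k * (4 ^ (k + 1) * Real.exp (2 * c0) ^ k * (2 ^ k * (4 * L) ^ (2 * k)))) *
          (px.1 : ℝ) ^ (-(1 / 2) : ℝ) := by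
      rw [mul_pow 2 (X : ℝ) k]
      ring
    rw [h5]
    refine mul_le_mul_of_nonneg_right ?_ hr0.le
    exact mul_le_mul_of_nonneg_left h4 (by positivity)
  · intro h hh hnb hadm th h0 h1
    refine X2 Q px hpx hreal th h0 h1 h ?_
    intro B hB
    by_contra hcon
    rw [not_le] at hcon
    apply hnb
    rw [hBad, mem_biUnion]
    refine ⟨B, mem_filter.2 ⟨mem_univ _, hB⟩, mem_filter.2 ⟨hh, ?_⟩⟩
    refine lt_of_le_of_lt ?_ hcon
    exact hlow k h hadm px.1.primeFactors fun l hl => Nat.prime_of_mem_primeFactors hl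

end Pool.Agent.Lib.H59P
end

-- from Lib.H59P.YDefs
section

/-!
# Project H59P, interfaces of the final part: conclusions of the modules A and T
-/

open Finset

namespace Pool.Agent.Lib.H59P

open Pool.Agent.Lib.H68T Pool.Agent.Lib.H18Q

/-- The conclusion of module A (levels). `C`, `K` absolute; `K'` is the constant needed for the regime.
For every large `N` and every `kp` between `K` (and `K'`) and `(log log N)^2` there is a level `Q` with
`log Q ≥ log N/(C kp)` and a length `X = H Q^8` between `N` and `2 N`, with the level structure of total error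
`C exp(-kp/C)`, either without exceptional character or with one. -/
def AMain : Prop := ∃ C K : ℝ, 1 ≤ C ∧ 1 ≤ K ∧ ∀ K' : ℝ, ∃ N0 : ℕ, ∀ N : ℕ, N0 ≤ N → ∀ kp : ℝ, K ≤ kp →
  K' ≤ kp → kp ≤ (Real.log (Real.log N)) ^ 2 → ∃ Q H : ℕ, N ≤ H * Q ^ 8 ∧ H * Q ^ 8 ≤ 2 * N ∧
    RegP K' Q (H * Q ^ 8) ∧ Real.log N ≤ C * kp * Real.log Q ∧
    (Mdl Q (H * Q ^ 8) 1 (C * Real.exp (-(kp / C))) p0 (fun _ => 0) ∨
      ∃ (r : ℕ) (_ : NeZero r) (ψ : DirichletCharacter ℂ r) (β η : ℝ), ψ.IsPrimitive ∧ ψ ≠ 1 ∧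
        ψ ^ 2 = 1 ∧ 1 / 2 ≤ β ∧ β < 1 ∧ ψ.LFunction (β : ℂ) = 0 ∧ (1 - β) / 2 ≤ η ∧
        Mdl Q (H * Q ^ 8) η (C * Real.exp (-(kp / C))) ⟨r, ψ⟩ (fun m => (m : ℝ) ^ (β - 1)))

/-- The conclusion of module A for good levels: arbitrarily large `N` with a level
`log Q ≥ log N/(C log log N)` without exceptional character and total error at most `(log N)^(-2)`. -/
def AGood : Prop := ∃ C : ℝ, 1 ≤ C ∧ ∀ (K' : ℝ) (N0 : ℕ), ∃ N : ℕ, N0 ≤ N ∧ ∃ Q H : ℕ, N ≤ H * Q ^ 8 ∧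
  H * Q ^ 8 ≤ 2 * N ∧ RegP K' Q (H * Q ^ 8) ∧
  Real.log N ≤ C * Real.log (Real.log N) * Real.log Q ∧
  Mdl Q (H * Q ^ 8) 1 ((Real.log N) ^ (-(2 : ℝ))) p0 (fun _ => 0)

/-- The lower bound for the singular series (module T). -/
def TLow (c0 : ℝ) : Prop := ∀ (k : ℕ) (h : Fin k → ℕ), Adm h → ∀ P : Finset ℕ, (∀ l ∈ P, l.Prime) →
  Real.exp (-(c0 * k)) ≤ SS P h

open Classical in
/-- The number of admissible sets (module T). -/
def TCount : Prop := ∃ C : ℝ, 1 ≤ C ∧ ∀ δ : ℝ, 0 < δ → δ < 1 → ∃ N0 : ℕ, ∀ (N k : ℕ), N0 ≤ N → 1 ≤ k →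
  (k : ℝ) ≤ (Real.log N) ^ (1 - δ) →
  (N : ℝ) ^ k ≤ (Real.log N) ^ (C * k) * ((k.factorial : ℝ) *
    ((((range N).powersetCard k).filter (fun A => Admissible A)).card : ℝ))

/-- Every admissible tuple of the box outside of `Bad` has a prime translate in `[X, 2X)`. -/
def Good' {k : ℕ} (X : ℕ) (Bad : Finset (Fin k → ℕ)) : Prop :=
  Bad ⊆ bx k X ∧ ∀ h ∈ bx k X, h ∉ Bad → Adm h → ∃ n ∈ Ico X (2 * X), ∀ i, (n + h i).Prime

open Classical in
/-- The admissible `k`-sets in `[0, x^(1-δ)]`. -/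
noncomputable def adm (x δ : ℝ) (k : ℕ) : Finset (Finset ℕ) :=
  ((range (⌊x ^ (1 - δ)⌋₊ + 1)).powersetCard k).filter (fun A => Admissible A)

open Classical in
/-- The admissible `k`-sets in `[0, x^(1-δ)]` without prime translate. -/
noncomputable def bad (x δ : ℝ) (k : ℕ) : Finset (Finset ℕ) :=
  ((range (⌊x ^ (1 - δ)⌋₊ + 1)).powersetCard k).filter
    (fun A => Admissible A ∧ ¬ HasPrimeTranslate x A)

end Pool.Agent.Lib.H59P
end

-- from Lib.H59P.Y1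
section

/-!
# Project H59P, chunk Y1: lower bound for the main term, any admissible tuple
-/

open Finset

namespace Pool.Agent.Lib.H59P

open Pool.Agent.Lib.H68T Pool.Agent.Lib.H18Q

/-- **Y1.** Proof. `fP = ∏ uu (1 - th_i ψ) ≥ ∏ uu · η^k` pointwise (`1 - th_i ψ ≥ 1 - th_i ≥ η`, `C3a`,
`M3a_uu_nonneg`), so `PM ≥ η^k SS (pr Q) h` (`M5_SS`), `TLow`. -/
theorem Y1 (c0 : ℝ) (hlow : TLow c0) {k : ℕ} (Q : ℕ) (px : Ch) (hreal : px.2 ^ 2 = 1) (η : ℝ)
    (hη : 0 < η) (th : Fin k → ℝ) (h0 : ∀ i, 0 ≤ th i) (h1 : ∀ i, th i ≤ 1 - η) (h : Fin k → ℕ)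
    (hA : Adm h) : η ^ k * Real.exp (-(c0 * k)) ≤ PM Q px th h := by
  have hpr : ∀ l ∈ pr Q, l.Prime := fun l hl => (Finset.mem_filter.mp hl).2
  have hQ0 : (0 : ℝ) < (Q.factorial : ℝ) := by exact_mod_cast Nat.factorial_pos Q
  have hS := hlow k h hA (pr Q) hpr
  have hpt : ∀ n : ℕ, η ^ k * ∏ i, uu (pr Q) ((n : ℤ) + h i) ≤ fP Q px th h (n : ℤ) := by
    intro n
    have e1 : η ^ k * ∏ i, uu (pr Q) ((n : ℤ) + h i) = ∏ i : Fin k, (uu (pr Q) ((n : ℤ) + h i) * η) := by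
      rw [Finset.prod_mul_distrib, Finset.prod_const, Finset.card_univ, Fintype.card_fin, mul_comm]
    rw [e1]
    unfold fP
    refine Finset.prod_le_prod (fun i _ => mul_nonneg (M3a_uu_nonneg _ hpr _) hη.le) (fun i _ => ?_)
    refine mul_le_mul_of_nonneg_left ?_ (M3a_uu_nonneg _ hpr _)
    have hc := (C3a px hreal ((n : ℤ) + h i)).2
    have h2 := (abs_le.mp hc).2
    have h3 := mul_le_mul_of_nonneg_left h2 (h0 i)
    linarith [h1 i]
  have hsum : η ^ k * SS (pr Q) h ≤ PM Q px th h := by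
    rw [← M5_SS Q h]
    unfold PM
    rw [← mul_div_assoc]
    refine div_le_div_of_nonneg_right ?_ hQ0.le
    rw [Finset.mul_sum]
    exact Finset.sum_le_sum fun n _ => hpt n
  exact (mul_le_mul_of_nonneg_left hS (pow_nonneg hη.le k)).trans hsum

end Pool.Agent.Lib.H59P
end

-- from Lib.H59P.Y1B
section

/-!
# Project H59P, chunk Y1B: a positive weighted count gives a prime translate
-/

open Finset

namespace Pool.Agent.Lib.H59P

open Pool.Agent.Lib.H68T Pool.Agent.Lib.H18Q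

/-- If the weighted count is positive there is a prime translate. Proof. Some summand is positive, so all
factors `lp (n + h_i)` are different from `0`, i.e. all `n + h_i` are primes. -/
theorem Y1b {k : ℕ} (X : ℕ) (h : Fin k → ℕ) (hR : 0 < Rh X h) :
    ∃ n ∈ Ico X (2 * X), ∀ i, (n + h i).Prime := by
  by_contra hcon
  have hz : Rh X h ≤ 0 := by
    unfold Rh
    refine Finset.sum_nonpos fun n hn => ?_
    have hne : ¬ ∀ i, (n + h i).Prime := fun hh => hcon ⟨n, hn, hh⟩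
    push Not at hne
    obtain ⟨i, hi⟩ := hne
    refine le_of_eq (Finset.prod_eq_zero (Finset.mem_univ i) ?_)
    unfold Pool.Agent.Lib.H68T.lp
    have : ((n : ℤ) + (h i : ℤ)).toNat = n + h i := by
      rw [← Nat.cast_add]; exact Int.toNat_natCast _
    rw [this, if_neg hi]
  exact absurd hR (not_lt.mpr hz)

end Pool.Agent.Lib.H59P
end

-- from Lib.H59P.A5
section

/-!
# Project H59P, module A, file A5: choice of the level
-/

open Finset

namespace Pool.Agent.Lib.H59P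

open Pool.Agent.Lib.H68T Pool.Agent.Lib.H18Q

/-- `(r, ψ)` is a real primitive character of small conductor with the exceptional zero `β`. -/
structure ExcZ (c1 : ℝ) (Q r : ℕ) [NeZero r] (ψ : DirichletCharacter ℂ r) (β : ℝ) : Prop where
  cond : r ^ 100 ≤ Q
  prim : ψ.IsPrimitive
  ne : ψ ≠ 1
  sq : ψ ^ 2 = 1
  lt : β < 1
  zero : ψ.LFunction (β : ℂ) = 0
  small : (1 - β) * Real.log Q ≤ c1


end Pool.Agent.Lib.H59P
end

-- from Lib.H59P.A6
section

/-!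
# Project H59P, module A, file A6: choice of the level, independent of the length
-/

open Finset

namespace Pool.Agent.Lib.H59P

open Pool.Agent.Lib.H68T Pool.Agent.Lib.H18Q

/-- **The level.** For every large `Q₁` there is a level `Q ≤ Q₁`, `log Q₁ ≤ 200 log Q`, which
is good or has an exceptional zero of small conductor, and the model for all lengths.

Proof. If `Q₁` is good for `c = min c₁ c₂` take `Q = Q₁` (`mdl_good`). Otherwise
there is an exceptional zero `β` of `ψ` mod `r`, `r ≤ Q₁`. If `r^100 ≤ Q₁` take `Q = Q₁` (`mdl_exc`). If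
`r^100 > Q₁` take `Q = r - 1` (`good_below`, `mdl_good`). -/
theorem mdl_level : ∃ c1 K C : ℝ, 0 < c1 ∧ c1 < 1 ∧ 1 ≤ K ∧ 1 ≤ C ∧ ∀ Q1 : ℕ, K ≤ Real.log Q1 →
    ∃ Q : ℕ, Q ≤ Q1 ∧ Real.log Q1 ≤ 200 * Real.log Q ∧
      ((∀ kp : ℝ, K ≤ kp → ∀ X : ℕ, RegP K Q X → kp * Real.log Q ≤ Real.log X →
        Mdl Q X 1 (C * Real.exp (-(kp / C)) + (Q : ℝ) ^ (-(1 / 4) : ℝ)) p0 (fun _ => 0)) ∨
      ∃ (r : ℕ) (_ : NeZero r) (ψ : DirichletCharacter ℂ r) (β : ℝ), ExcZ c1 Q r ψ β ∧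
        ∀ kp : ℝ, K ≤ kp → ∀ X : ℕ, RegP K Q X → kp * Real.log Q ≤ Real.log X →
        (1 - β) * Real.log Q / 2 ≤ 1 - (X : ℝ) ^ (β - 1) ∧
        Mdl Q X (1 - (X : ℝ) ^ (β - 1)) (C * Real.exp (-(kp / C)) + (Q : ℝ) ^ (-(1 / 4) : ℝ)) ⟨r, ψ⟩
          (fun m => (m : ℝ) ^ (β - 1))) := by
  obtain ⟨c1, K1, C1, hc1, hc11, hK1, hC1, hexc⟩ := mdl_exc
  obtain ⟨c2, K2, hc2, hgb⟩ := good_below
  obtain ⟨c, hcd⟩ : ∃ c, c = min c1 c2 := ⟨_, rfl⟩
  have hc0 : 0 < c := by rw [hcd]; exact lt_min hc1 hc2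
  have hcc1 : c ≤ c1 := by rw [hcd]; exact min_le_left _ _
  have hcc2 : c ≤ c2 := by rw [hcd]; exact min_le_right _ _
  obtain ⟨K3, C3, hK3, hC3, hg3⟩ := mdl_good c hc0
  obtain ⟨K4, C4, hK4, hC4, hg4⟩ := mdl_good c2 hc2
  obtain ⟨K, hKd⟩ : ∃ K, K = K1 + 200 * |K2| + K3 + K4 + 400 := ⟨_, rfl⟩
  obtain ⟨C, hCd⟩ : ∃ C, C = C1 + C3 + C4 := ⟨_, rfl⟩
  have ha2 := abs_nonneg K2
  have hle2 := le_abs_self K2
  have he2 : (2 : ℝ) ≤ Real.exp 1 := by linarith [Real.exp_one_gt_d9]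
  refine ⟨c1, K, C, hc1, hc11, by linarith, by linarith, ?_⟩
  intro Q1 hQ1
  have hK0 : 0 ≤ K := by linarith
  have hQ1pos : (0 : ℝ) < Q1 := by
    have h1 : Q1 ≠ 0 := by
      rintro rfl
      rw [Nat.cast_zero, Real.log_zero] at hQ1
      linarith
    exact_mod_cast Nat.pos_of_ne_zero h1
  -- errors
  have herr : ∀ C' : ℝ, 1 ≤ C' → C' ≤ C → ∀ kp : ℝ, 0 ≤ kp → ∀ Q : ℕ,
      C' * Real.exp (-(kp / C')) + (Q : ℝ) ^ (-(1 / 4) : ℝ) ≤
      C * Real.exp (-(kp / C)) + (Q : ℝ) ^ (-(1 / 4) : ℝ) := by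
    intro C' h1 h2 kp hkp Q
    have h3 : Real.exp (-(kp / C')) ≤ Real.exp (-(kp / C)) := by
      apply Real.exp_le_exp.2
      have : kp / C ≤ kp / C' := div_le_div_of_nonneg_left hkp (by linarith) h2
      linarith
    have h4 := mul_le_mul h2 h3 (Real.exp_pos _).le (by linarith)
    linarith
  have hmono : ∀ (Q X : ℕ) (η E E' : ℝ) (px : Ch) (th : ℤ → ℝ), E ≤ E' → Mdl Q X η E px th →
      Mdl Q X η E' px th := by
    intro Q X η E E' px th hE h
    refine ⟨h.eta_pos, h.eta_le, h.mem, h.real, h.cond, h.triv, h.nonneg, h.le, h.slow, ?_⟩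
    obtain ⟨e, eb, h1, h2, h3⟩ := h.lev
    exact ⟨e, eb, h1, h2.trans (mul_le_mul_of_nonneg_left hE h.eta_pos.le), h3⟩
  by_cases hG : Good c Q1
  · refine ⟨Q1, le_rfl, by linarith, Or.inl ?_⟩
    intro kp hkp X hreg hkQ
    exact hmono _ _ _ _ _ _ _ (herr C3 hC3 (by linarith) kp (by linarith) Q1)
      (hg3 kp (by linarith) Q1 X (hreg.mono hK0 (by linarith)) hkQ hG)
  · unfold Good at hG
    push Not at hG
    obtain ⟨r, hr, ψ, hrQ, hprim, hne, hsq, β, hβ1, hβ2, hz⟩ := hG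
    have hβ : β < 1 := by
      rcases lt_or_eq_of_le hβ2 with h | h
      · exact h
      · exfalso
        rw [h] at hz
        refine DirichletCharacter.LFunction_ne_zero_of_one_le_re ψ (Or.inl hne) ?_ hz
        simp
    by_cases hr100 : r ^ 100 ≤ Q1
    · have hsm : (1 - β) * Real.log Q1 ≤ c1 := by
        have h1 : 1 - β ≤ c / Real.log Q1 := by linarith
        rw [le_div_iff₀ (by linarith)] at h1
        linarith
      refine ⟨Q1, le_rfl, by linarith, Or.inr ⟨r, hr, ψ, β,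
        ⟨hr100, hprim, hne, hsq, hβ, hz, hsm⟩, ?_⟩⟩
      intro kp hkp X hreg hkQ
      obtain ⟨h1, h2⟩ := hexc kp (by linarith) Q1 X (hreg.mono hK0 (by linarith)) hkQ r ψ hr100
        hprim hne hsq β hβ hz hsm
      exact ⟨h1, hmono _ _ _ _ _ _ _ (herr C1 hC1 (by linarith) kp (by linarith) Q1) h2⟩
    · -- large conductor
      push Not at hr100
      have hr100' : (Q1 : ℝ) < (r : ℝ) ^ 100 := by exact_mod_cast hr100
      have hrpos : (0 : ℝ) < r := by exact_mod_cast Nat.pos_of_ne_zero (NeZero.ne r)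
      have hlr : Real.log Q1 ≤ 100 * Real.log r := by
        have h1 := Real.log_le_log hQ1pos hr100'.le
        rw [Real.log_pow] at h1
        exact_mod_cast h1
      obtain ⟨u, hu⟩ : ∃ u, u = Real.log Q1 / 200 := ⟨_, rfl⟩
      have hu1 : 2 ≤ u := by rw [hu, le_div_iff₀ (by norm_num)]; linarith
      have hlr' : u + 1 ≤ Real.log r := by
        have : Real.log Q1 = 200 * u := by rw [hu]; ring
        linarith
      have hexplr : Real.exp 1 ≤ r := by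
        rw [← Real.le_log_iff_exp_le hrpos]
        linarith
      have hr2 : (2 : ℝ) ≤ r := by linarith
      have hr2' : 2 ≤ r := by exact_mod_cast hr2
      have hcast : ((r - 1 : ℕ) : ℝ) = r - 1 := by
        rw [Nat.cast_sub (by omega), Nat.cast_one]
      have hr1pos : (0 : ℝ) < ((r - 1 : ℕ) : ℝ) := by rw [hcast]; linarith
      have hlow : u ≤ Real.log ((r - 1 : ℕ) : ℝ) := by
        rw [Real.le_log_iff_exp_le hr1pos, hcast]
        have h1 : Real.exp (u + 1) ≤ r := by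
          rw [← Real.le_log_iff_exp_le hrpos]; exact hlr'
        rw [Real.exp_add] at h1
        have h2 : Real.exp u * 2 ≤ Real.exp u * Real.exp 1 :=
          mul_le_mul_of_nonneg_left he2 (Real.exp_pos _).le
        have h3 : 1 ≤ Real.exp u := Real.one_le_exp (by linarith)
        linarith
      have hKr : K2 ≤ r := by
        have h1 : |K2| ≤ u := by
          rw [hu, le_div_iff₀ (by norm_num)]
          linarith
        have h3 : u + 1 ≤ Real.exp u := Real.add_one_le_exp _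
        have h4 : Real.exp u ≤ ((r - 1 : ℕ) : ℝ) := by
          rw [← Real.le_log_iff_exp_le hr1pos]; exact hlow
        rw [hcast] at h4
        linarith
      have hexc' : Exc c2 Q1 r ψ β := by
        refine ⟨hrQ, hprim, hne, hsq, ?_, hβ, hz⟩
        have : c / Real.log Q1 ≤ c2 / Real.log Q1 :=
          div_le_div_of_nonneg_right hcc2 (by linarith)
        linarith
      have hG2 := hgb Q1 r ψ β hKr hexc'
      refine ⟨r - 1, by omega, ?_, Or.inl ?_⟩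
      · have : Real.log Q1 = 200 * u := by rw [hu]; ring
        linarith
      · intro kp hkp X hreg hkQ
        exact hmono _ _ _ _ _ _ _ (herr C4 hC4 (by linarith) kp (by linarith) (r - 1))
          (hg4 kp (by linarith) (r - 1) X (hreg.mono hK0 (by linarith)) hkQ hG2)

theorem a6_ev (M : ℝ) : ∃ L0 : ℝ, 1 ≤ L0 ∧ ∀ L : ℝ, L0 ≤ L → M * (Real.log L + 1) ^ 4 ≤ L ∧
    M ≤ Real.log L := by
  have h1 : Filter.Tendsto (fun L : ℝ => Real.log L) Filter.atTop Filter.atTop :=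
    Real.tendsto_log_atTop
  have h2 : (fun L : ℝ => Real.log L ^ 4) =o[Filter.atTop] fun L : ℝ => L :=
    Real.isLittleO_pow_log_id_atTop
  have h3 := h2.bound (show (0 : ℝ) < 1 / (16 * (|M| + 1)) by positivity)
  obtain ⟨L1, hL1⟩ := Filter.eventually_atTop.1 (h3.and (h1.eventually_ge_atTop (|M| + 1)))
  refine ⟨max L1 1, le_max_right _ _, fun L hL => ?_⟩
  obtain ⟨h4, h5⟩ := hL1 L ((le_max_left _ _).trans hL)
  have hL1' : 1 ≤ L := (le_max_right _ _).trans hL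
  have hM := le_abs_self M
  have hM0 := abs_nonneg M
  refine ⟨?_, by linarith⟩
  rw [Real.norm_of_nonneg (by positivity), Real.norm_of_nonneg (by linarith)] at h4
  have h6 : 1 ≤ Real.log L := by linarith
  have h7 : (Real.log L + 1) ^ 4 ≤ (2 * Real.log L) ^ 4 :=
    pow_le_pow_left₀ (by linarith) (by linarith) 4
  have h8 : (2 * Real.log L) ^ 4 = 16 * Real.log L ^ 4 := by ring
  rw [h8] at h7
  calc M * (Real.log L + 1) ^ 4 ≤ (|M| + 1) * (16 * Real.log L ^ 4) := by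
        apply mul_le_mul (by linarith) h7 (by positivity) (by linarith)
    _ ≤ (|M| + 1) * (16 * (1 / (16 * (|M| + 1)) * L)) := by
        apply mul_le_mul_of_nonneg_left _ (by linarith)
        apply mul_le_mul_of_nonneg_left h4 (by norm_num)
    _ = L := by field_simp

end Pool.Agent.Lib.H59P
end

-- from Lib.H59P.Y8A
section

/-!
# Project H59P, chunk Y8A: admissible tuples and sets
-/

open Finset

namespace Pool.Agent.Lib.H59P

open Pool.Agent.Lib.H68T Pool.Agent.Lib.H18Q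

/-- Admissible tuples and sets. Proof. `n = - r` modulo `l`; `(n + h_i : ZMod l) = 0 ↔ h_i = -n`. -/
theorem Y8a {k : ℕ} (h : Fin k → ℕ) : Adm h ↔ Admissible (univ.image h) := by
  constructor
  · intro hA p hp
    obtain ⟨n, hn⟩ := hA p hp
    refine ⟨-(n : ZMod p), fun y hy => ?_⟩
    rw [mem_image] at hy
    obtain ⟨i, -, rfl⟩ := hy
    intro h0
    apply hn i
    rw [← ZMod.natCast_eq_zero_iff, Nat.cast_add, h0]
    ring
  · intro hA p hp
    obtain ⟨r, hr⟩ := hA p hp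
    have : NeZero p := ⟨hp.ne_zero⟩
    refine ⟨(-r).val, fun i hdvd => ?_⟩
    have h2 := (ZMod.natCast_eq_zero_iff _ _).mpr hdvd
    rw [Nat.cast_add, ZMod.natCast_val, ZMod.cast_id] at h2
    apply hr (h i) (mem_image_of_mem _ (mem_univ _))
    have h3 : (h i : ZMod p) = r + (-r + (h i : ZMod p)) := by ring
    rw [h3, h2, add_zero]

end Pool.Agent.Lib.H59P
end

-- from Lib.H59P.Y8
section

/-!
# Project H59P, chunk Y8: from tuples to sets
-/

open Finset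

namespace Pool.Agent.Lib.H59P

open Pool.Agent.Lib.H68T Pool.Agent.Lib.H18Q

/-- **Y8.** Proof. `SETS_tuples` with `H = N - 1`: `k!` times the number of bad sets is the number of injective
tuples in `[0, N)^k` whose image is admissible and has no prime translate `n ≤ x`; such a tuple is in
`bx k X` (`N ≤ X`) and must be in `Bad`, since otherwise `n < 2X ≤ 4N ≤ x` is a translate (`Y8a`; `n ≥ X ≥ 1`). -/
theorem Y8 (x : ℝ) (N X k : ℕ) (hN : 1 ≤ N) (hNX : N ≤ X) (hX : X ≤ 2 * N) (hx : 4 * (N : ℝ) ≤ x)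
    (Bad : Finset (Fin k → ℕ)) (hB : Good' X Bad) (σ : ℝ) (hσ : (Bad.card : ℝ) ≤ (X : ℝ) ^ k * σ)
    (hσ0 : 0 ≤ σ) :
    open Classical in
    (k.factorial : ℝ) * ((((range N).powersetCard k).filter
      (fun A => Admissible A ∧ ¬ HasPrimeTranslate x A)).card : ℝ) ≤ 2 ^ k * (N : ℝ) ^ k * σ := by
  classical
  have hT := SETS_tuples k (N - 1) (fun A => Admissible A ∧ ¬ HasPrimeTranslate x A)
  have hN1 : N - 1 + 1 = N := by omega
  rw [hN1] at hT
  have hsub : (SETS_Om k (N - 1)).filter (fun a => Function.Injective a ∧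
      (Admissible (univ.image a) ∧ ¬ HasPrimeTranslate x (univ.image a))) ⊆ Bad := by
    intro a ha
    rw [mem_filter] at ha
    obtain ⟨h1, _, h3, h4⟩ := ha
    unfold SETS_Om at h1
    rw [Fintype.mem_piFinset] at h1
    have hbx : a ∈ bx k X := by
      unfold bx
      rw [Fintype.mem_piFinset]
      intro i
      have := mem_range.mp (h1 i)
      rw [mem_range]
      omega
    by_contra hBad
    obtain ⟨n, hn, hp⟩ := hB.2 a hbx hBad ((Y8a a).mpr h3)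
    rw [mem_Ico] at hn
    refine h4 ⟨n, by omega, ?_, ?_⟩
    · have h5 : (n : ℝ) < 2 * X := by exact_mod_cast hn.2
      have h6 : (X : ℝ) ≤ 2 * N := by exact_mod_cast hX
      linarith
    · intro y hy
      rw [mem_image] at hy
      obtain ⟨i, -, rfl⟩ := hy
      exact hp i
  have h5 := card_le_card hsub
  have h6 : k.factorial * (((range N).powersetCard k).filter
      (fun A => Admissible A ∧ ¬ HasPrimeTranslate x A)).card ≤ Bad.card := by
    refine le_trans (le_of_eq ?_) h5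
    refine Eq.trans ?_ (hT.symm.trans ?_)
    · congr
    · congr
  have h7 : (k.factorial : ℝ) * ((((range N).powersetCard k).filter
      (fun A => Admissible A ∧ ¬ HasPrimeTranslate x A)).card : ℝ) ≤ (Bad.card : ℝ) := by
    exact_mod_cast h6
  refine h7.trans (hσ.trans ?_)
  have h8 : (X : ℝ) ≤ 2 * N := by exact_mod_cast hX
  have h9 : (X : ℝ) ^ k ≤ (2 * (N : ℝ)) ^ k := pow_le_pow_left₀ (by positivity) h8 k
  rw [mul_pow] at h9
  exact mul_le_mul_of_nonneg_right h9 hσ0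

end Pool.Agent.Lib.H59P
end

-- from Lib.H59P.Y9
section

/-!
# Project H59P, chunk Y9: the proportion among the admissible sets
-/

open Finset

namespace Pool.Agent.Lib.H59P

open Pool.Agent.Lib.H68T Pool.Agent.Lib.H18Q

/-- **Y9.** The proportion of the bad sets among the admissible ones. Proof. `Y8` with `N = ⌊x^(1-δ)⌋₊ + 1`
(`4 N ≤ x` for `x` large), `TCount`; `2^k ≤ (log N)^k`; `log N ≤ log x`. -/
theorem Y9 (hC : TCount) : ∃ C : ℝ, 1 ≤ C ∧ ∀ δ δ' : ℝ, 0 < δ → δ < 1 → 0 < δ' → δ' < 1 → ∃ x0 : ℝ,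
    ∀ (x : ℝ) (k : ℕ), x0 ≤ x → 1 ≤ k → (k : ℝ) ≤ (Real.log (⌊x ^ (1 - δ)⌋₊ + 1 : ℕ)) ^ (1 - δ') →
    ∀ (X : ℕ) (Bad : Finset (Fin k → ℕ)) (σ : ℝ), ⌊x ^ (1 - δ)⌋₊ + 1 ≤ X →
      X ≤ 2 * (⌊x ^ (1 - δ)⌋₊ + 1) → Good' X Bad → (Bad.card : ℝ) ≤ (X : ℝ) ^ k * σ → 0 ≤ σ →
      ((bad x δ k).card : ℝ) ≤ (Real.log x) ^ (C * k) * σ * ((adm x δ k).card : ℝ) := by
  classical
  obtain ⟨C0, hC0, hCt⟩ := hC
  refine ⟨C0 + 1, by linarith, ?_⟩
  intro δ δ' hδ hδ1 hδ' hδ'1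
  obtain ⟨N0, hN0⟩ := hCt δ' hδ' hδ'1
  refine ⟨max (max 8 (8 ^ (1 / δ))) (max ((N0 : ℝ) ^ (1 / (1 - δ))) (Real.exp 2)), ?_⟩
  intro x k hx hk hkN X Bad σ hNX hX2 hG hcard hσ
  have hx8 : 8 ≤ x := (le_max_left _ _).trans ((le_max_left _ _).trans hx)
  have hx8δ : (8 : ℝ) ^ (1 / δ) ≤ x := (le_max_right _ _).trans ((le_max_left _ _).trans hx)
  have hxN0 : (N0 : ℝ) ^ (1 / (1 - δ)) ≤ x := (le_max_left _ _).trans ((le_max_right _ _).trans hx)
  have hxe : Real.exp 2 ≤ x := (le_max_right _ _).trans ((le_max_right _ _).trans hx)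
  have hx0 : 0 < x := by linarith
  have hδ1' : 0 < 1 - δ := by linarith
  have hxδ : 8 ≤ x ^ δ := by
    have h1 : ((8 : ℝ) ^ (1 / δ)) ^ δ ≤ x ^ δ := Real.rpow_le_rpow (by positivity) hx8δ hδ.le
    rw [← Real.rpow_mul (by norm_num), one_div, inv_mul_cancel₀ hδ.ne', Real.rpow_one] at h1
    exact h1
  have hxN : (N0 : ℝ) ≤ x ^ (1 - δ) := by
    have h1 : ((N0 : ℝ) ^ (1 / (1 - δ))) ^ (1 - δ) ≤ x ^ (1 - δ) :=
      Real.rpow_le_rpow (by positivity) hxN0 hδ1'.le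
    rw [← Real.rpow_mul (by positivity), one_div, inv_mul_cancel₀ hδ1'.ne', Real.rpow_one] at h1
    exact h1
  have hlogx : 2 ≤ Real.log x := (Real.le_log_iff_exp_le hx0).mpr hxe
  have hprod : x ^ (1 - δ) * x ^ δ = x := by
    rw [← Real.rpow_add hx0]
    simp
  have hxpos : 0 < x ^ (1 - δ) := Real.rpow_pos_of_pos hx0 _
  have h8 : 8 * x ^ (1 - δ) ≤ x := by nlinarith
  set N := ⌊x ^ (1 - δ)⌋₊ + 1 with hN
  have hNle : (N : ℝ) ≤ x ^ (1 - δ) + 1 := by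
    rw [hN]
    push_cast
    have := Nat.floor_le hxpos.le
    linarith
  have hNgt : x ^ (1 - δ) < N := by
    rw [hN]
    push_cast
    exact Nat.lt_floor_add_one _
  have h4N : 4 * (N : ℝ) ≤ x := by linarith
  have hN1 : 1 ≤ N := by omega
  have hN0N : N0 ≤ N := by
    have : (N0 : ℝ) ≤ N := by linarith
    exact_mod_cast this
  have hNr : (1 : ℝ) ≤ N := by exact_mod_cast hN1
  have hNx : (N : ℝ) ≤ x := by linarith
  have hlogN0 : 0 ≤ Real.log N := Real.log_nonneg hNr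
  have hlogNx : Real.log N ≤ Real.log x := Real.log_le_log (by linarith) hNx
  have hA := Y8 x N X k hN1 hNX hX2 h4N Bad hG σ hcard hσ
  have hB := hN0 N k hN0N hk hkN
  have hfac : (0 : ℝ) < (k.factorial : ℝ) := by exact_mod_cast k.factorial_pos
  have hbad : ((bad x δ k).card : ℝ) = ((((range N).powersetCard k).filter
      (fun A => Admissible A ∧ ¬ HasPrimeTranslate x A)).card : ℝ) := by
    unfold bad
    norm_cast
  have hadm : ((adm x δ k).card : ℝ) = ((((range N).powersetCard k).filter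
      (fun A => Admissible A)).card : ℝ) := by
    unfold adm
    norm_cast
  have hA' : (k.factorial : ℝ) * ((bad x δ k).card : ℝ) ≤ 2 ^ k * (N : ℝ) ^ k * σ := by
    rw [hbad]
    refine le_trans (le_of_eq ?_) hA
    congr
  have hB' : (N : ℝ) ^ k ≤ (Real.log N) ^ (C0 * k) * ((k.factorial : ℝ) * ((adm x δ k).card : ℝ)) := by
    rw [hadm]
    refine hB.trans (le_of_eq ?_)
    congr
  set Ad := ((adm x δ k).card : ℝ) with hAd
  have hAd0 : 0 ≤ Ad := by rw [hAd]; positivity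
  have hk0 : (0 : ℝ) ≤ k := by positivity
  have hpow1 : (2 : ℝ) ^ k ≤ (Real.log x) ^ k := pow_le_pow_left₀ (by norm_num) hlogx k
  have hpow2 : (Real.log N) ^ (C0 * k) ≤ (Real.log x) ^ (C0 * k) :=
    Real.rpow_le_rpow hlogN0 hlogNx (by positivity)
  have hlx : 0 < Real.log x := by linarith
  have hpow3 : (Real.log x) ^ ((C0 + 1) * k) = (Real.log x) ^ k * (Real.log x) ^ (C0 * k) := by
    rw [← Real.rpow_natCast, ← Real.rpow_add hlx]
    congr 1
    ring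
  have hfin : (k.factorial : ℝ) * ((bad x δ k).card : ℝ) ≤
      (k.factorial : ℝ) * ((Real.log x) ^ ((C0 + 1) * k) * σ * Ad) := by
    calc (k.factorial : ℝ) * ((bad x δ k).card : ℝ) ≤ 2 ^ k * (N : ℝ) ^ k * σ := hA'
      _ ≤ 2 ^ k * ((Real.log N) ^ (C0 * k) * ((k.factorial : ℝ) * Ad)) * σ := by
          refine mul_le_mul_of_nonneg_right ?_ hσ
          exact mul_le_mul_of_nonneg_left hB' (by positivity)
      _ = (2 ^ k * (Real.log N) ^ (C0 * k)) * (((k.factorial : ℝ) * Ad) * σ) := by ring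
      _ ≤ ((Real.log x) ^ k * (Real.log x) ^ (C0 * k)) * (((k.factorial : ℝ) * Ad) * σ) := by
          refine mul_le_mul_of_nonneg_right ?_ (by positivity)
          exact mul_le_mul hpow1 hpow2 (Real.rpow_nonneg hlogN0 _) (by positivity)
      _ = (k.factorial : ℝ) * ((Real.log x) ^ ((C0 + 1) * k) * σ * Ad) := by
          rw [hpow3]
          ring
  exact le_of_mul_le_mul_left hfin hfac

end Pool.Agent.Lib.H59P
end
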