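import Pool.Agent.Lib.H59M.M1.M063
import Pool.Agent.Lib.H59M.M1.M066

/-! Merged copies (to shorten the build) of Lib.H59P.Z4. -/

-- from Lib.H59P.Z4
section

/-!
# Project H59P, chunk Z4: the core theorem
-/

open Finset

namespace Pool.Agent.Lib.H59P

open Pool.Agent.Lib.H68T Pool.Agent.Lib.H18Q

/-- powers `(log X)^(C k)` are small against powers of `Q` -/
theorem z4_pow (C κ δ : ℝ) (hC : 0 ≤ C) (hκ : 0 < κ) (hδ : 0 < δ) :
    ∃ X0 : ℕ, ∀ X : ℕ, X0 ≤ X → ∀ k Q : ℕ, 1 ≤ Q → (k : ℝ) ≤ (Real.log X) ^ (1 - δ) →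
      (Real.log X) ^ (1 - δ / 8) ≤ Real.log Q → (Real.log X) ^ (C * k) ≤ (Q : ℝ) ^ κ := by
  have h1 : ∀ᶠ y : ℝ in Filter.atTop, C * Real.log y ≤ κ * y ^ (7 * δ / 8) := by
    have h2 := (isLittleO_log_rpow_atTop (show 0 < 7 * δ / 8 by positivity)).bound
      (show 0 < κ / (C + 1) by positivity)
    filter_upwards [h2, Filter.eventually_ge_atTop (1 : ℝ)] with y hy hy1
    rw [Real.norm_of_nonneg (Real.log_nonneg hy1),
      Real.norm_of_nonneg (Real.rpow_nonneg (by linarith) _)] at hy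
    have hC1 : 0 < C + 1 := by linarith
    have h3 : 0 ≤ y ^ (7 * δ / 8) := Real.rpow_nonneg (by linarith) _
    calc C * Real.log y ≤ C * (κ / (C + 1) * y ^ (7 * δ / 8)) := mul_le_mul_of_nonneg_left hy hC
      _ ≤ (C + 1) * (κ / (C + 1) * y ^ (7 * δ / 8)) := by
          apply mul_le_mul_of_nonneg_right _ (by positivity)
          linarith
      _ = κ * y ^ (7 * δ / 8) := by field_simp
  have h3 : Filter.Tendsto (fun X : ℕ => Real.log (X : ℝ)) Filter.atTop Filter.atTop :=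
    Real.tendsto_log_atTop.comp tendsto_natCast_atTop_atTop
  have h4 := (h3.eventually (h1.and (Filter.eventually_ge_atTop (1 : ℝ))))
  obtain ⟨X0, hX0⟩ := Filter.eventually_atTop.1 h4
  refine ⟨X0, fun X hX k Q hQ hk hQL => ?_⟩
  obtain ⟨h5, h6⟩ := hX0 X hX
  set L : ℝ := Real.log X with hL
  have hL0 : 0 < L := by linarith
  have hQ0 : (0 : ℝ) < Q := by exact_mod_cast hQ
  rw [Real.rpow_def_of_pos hL0, Real.rpow_def_of_pos hQ0]
  apply Real.exp_le_exp.2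
  have hlL : 0 ≤ Real.log L := Real.log_nonneg h6
  have hp : 0 ≤ L ^ (1 - δ) := Real.rpow_nonneg hL0.le _
  calc Real.log L * (C * k) = C * Real.log L * k := by ring
    _ ≤ C * Real.log L * L ^ (1 - δ) := mul_le_mul_of_nonneg_left hk (by positivity)
    _ ≤ κ * L ^ (7 * δ / 8) * L ^ (1 - δ) := mul_le_mul_of_nonneg_right h5 hp
    _ = κ * L ^ (1 - δ / 8) := by
        rw [mul_assoc, ← Real.rpow_add hL0]
        congr 2
        ring
    _ ≤ κ * Real.log Q := mul_le_mul_of_nonneg_left hQL hκ.le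
    _ = Real.log Q * κ := by ring

/-- `(log X)^(1 - δ/8)` is large -/
theorem z4_big (T δ : ℝ) (hδ : 0 < δ) (hδ1 : δ < 1) :
    ∃ X0 : ℕ, ∀ X : ℕ, X0 ≤ X → T ≤ (Real.log X) ^ (1 - δ / 8) ∧ 100 ≤ Real.log X := by
  have h3 : Filter.Tendsto (fun X : ℕ => Real.log (X : ℝ)) Filter.atTop Filter.atTop :=
    Real.tendsto_log_atTop.comp tendsto_natCast_atTop_atTop
  have h4 : Filter.Tendsto (fun X : ℕ => (Real.log (X : ℝ)) ^ (1 - δ / 8)) Filter.atTop Filter.atTop :=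
    (tendsto_rpow_atTop (by linarith)).comp h3
  have h5 := (h4.eventually_ge_atTop T).and (h3.eventually_ge_atTop 100)
  obtain ⟨X0, hX0⟩ := Filter.eventually_atTop.1 h5
  exact ⟨X0, hX0⟩

/-- Chebyshev's inequality for the exceptional set -/
theorem z4_cheb {ι : Type*} (S : Finset ι) (A : ι → ℝ) (T V : ℝ) (hT : 0 < T)
    (hV : ∑ h ∈ S, A h ^ 2 ≤ V) (hA : ∀ h, 0 ≤ A h) :
    (((S.filter fun h => T < A h).card : ℕ) : ℝ) ≤ V / T ^ 2 := by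
  rw [le_div_iff₀ (by positivity)]
  refine le_trans ?_ hV
  calc (((S.filter fun h => T < A h).card : ℕ) : ℝ) * T ^ 2
      = ∑ _h ∈ S.filter (fun h => T < A h), T ^ 2 := by rw [Finset.sum_const, nsmul_eq_mul]
    _ ≤ ∑ h ∈ S.filter (fun h => T < A h), A h ^ 2 := by
        apply Finset.sum_le_sum
        intro h hh
        have h1 := (Finset.mem_filter.1 hh).2
        exact pow_le_pow_left₀ hT.le h1.le 2
    _ ≤ ∑ h ∈ S, A h ^ 2 := by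
        apply Finset.sum_le_sum_of_subset_of_nonneg (Finset.filter_subset _ _)
        intro h _ _
        positivity

/-- **Z4, core theorem.** For all tuples `h` outside of a set of relative size `Q^(-ε)`: the weighted number of
prime values is at least `X/2` times every lower bound `m` of the complete main terms, up to `X Q^(-ε)`.

Proof. `CF0` gives `e, eb, mb`; `Z1c` gives `px.1 ≤ D1`. By `S4`, `V1`, `Z2` (add up, `(x+y+z)² ≤ 3(x²+y²+z²)`)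
`∑_{h ∈ bx k X} |Rh X h - Re MT|² ≤ 9 (log X)^(C k) X^(k+2) Q^(-1/12)`. `(log X)^(C k) ≤ Q^(1/100)`: `k ≤
(log X)^(1-δ)`, `log Q ≥ (log X)^(1-δ/8)`, `X` large. So by Chebyshev all but `X^k Q^(-1/30)` of the `h` have
`|Rh - Re MT| ≤ X Q^(-1/50)`. Outside of the bad set of `TMain` (exponent `ε0`): `τ = Q^(-ε0)`
(`E = D / R`, `Z1c`), `Z3`; `(6(1+log Q))^k ≤ (log X)^(3k) ≤ Q^(ε0/2)`. Take `ε = min(ε0, 1/50)/4`.
`Q^4 ≤ H` follows from `RegP K Q X`, `K ≥ 13`, `X = H Q^8`. -/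
theorem Z4 (hF : FMain) (hT : TMain) (δ : ℝ) (hδ : 0 < δ) (hδ1 : δ < 1) :
    ∃ ε K : ℝ, 0 < ε ∧ 1 ≤ K ∧ ∃ X0 : ℕ, ∀ (k Q X H : ℕ) (η E0 : ℝ) (px : Ch) (th : ℤ → ℝ), X0 ≤ X →
      1 ≤ k → (k : ℝ) ≤ (Real.log X) ^ (1 - δ) → RegP K Q X →
      (Real.log X) ^ (1 - δ / 8) ≤ Real.log Q → X = H * Q ^ 8 → Mdl Q X η E0 px th → 0 ≤ E0 →
      4 * k * E0 ≤ 1 →
      ∃ Bad : Finset (Fin k → ℕ), Bad ⊆ bx k X ∧ (Bad.card : ℝ) ≤ (X : ℝ) ^ k * (Q : ℝ) ^ (-ε) ∧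
        ∀ h ∈ bx k X, h ∉ Bad → Function.Injective h ∧ ∀ m : ℝ,
          (∀ th' : Fin k → ℝ, (∀ i, 0 ≤ th' i) → (∀ i, th' i ≤ 1 - η) →
            (px = p0 → ∀ i, th' i = 0) → m ≤ PM Q px th' h) →
          X * (m / 2 - (Q : ℝ) ^ (-ε)) ≤ Rh X h := by
  obtain ⟨K1, hK1, hS4⟩ := S4
  obtain ⟨K2, hK2, hV1⟩ := V1
  obtain ⟨C, K3, hC1, hK3, hZ2⟩ := Z2 hF
  obtain ⟨Q0, hZ1c⟩ := Z1c
  obtain ⟨ε0, hε0, hε01, X1, hTM⟩ := hT δ hδ hδ1
  set ε : ℝ := min ε0 (1 / 50) / 4 with hε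
  have hεp : 0 < ε := by
    rw [hε]
    have : 0 < min ε0 (1 / 50) := lt_min hε0 (by norm_num)
    positivity
  have hεa : 4 * ε ≤ ε0 := by
    rw [hε]
    have := min_le_left ε0 (1 / 50)
    linarith
  have hεb : 4 * ε ≤ 1 / 50 := by
    rw [hε]
    have := min_le_right ε0 (1 / 50)
    linarith
  set C' : ℝ := max C 20 with hC'
  have hCC : C ≤ C' := le_max_left _ _
  have hC20 : 20 ≤ C' := le_max_right _ _
  obtain ⟨X2, hX2⟩ := z4_pow (C' + 4) (1 / 100) δ (by linarith) (by norm_num) hδ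
  obtain ⟨X3, hX3⟩ := z4_pow 2 (ε0 / 2) δ (by norm_num) (by positivity) hδ
  obtain ⟨X4, hX4⟩ := z4_big (max (Real.log (Q0 + 2)) (Real.log 2 / ε)) δ hδ hδ1
  refine ⟨ε, max (max K1 K2) (max K3 13), hεp, ?_, max (max X1 X2) (max X3 X4), ?_⟩
  · exact le_max_of_le_left (le_max_of_le_left hK1)
  intro k Q X H η E0 px th hX hk hkL hreg hQL hXH hM hE0 hEk
  have hXX1 : X1 ≤ X := le_trans (le_trans (le_max_left _ _) (le_max_left _ _)) hX
  have hXX2 : X2 ≤ X := le_trans (le_trans (le_max_right _ _) (le_max_left _ _)) hX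
  have hXX3 : X3 ≤ X := le_trans (le_trans (le_max_left _ _) (le_max_right _ _)) hX
  have hXX4 : X4 ≤ X := le_trans (le_trans (le_max_right _ _) (le_max_right _ _)) hX
  set K : ℝ := max (max K1 K2) (max K3 13) with hK
  have hKK1 : K1 ≤ K := le_trans (le_max_left _ _) (le_max_left _ _)
  have hKK2 : K2 ≤ K := le_trans (le_max_right _ _) (le_max_left _ _)
  have hKK3 : K3 ≤ K := le_trans (le_max_left _ _) (le_max_right _ _)
  have hKK4 : 13 ≤ K := le_trans (le_max_right _ _) (le_max_right _ _)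
  have hK0 : 0 ≤ K := by linarith
  obtain ⟨hbig, hL100⟩ := hX4 X hXX4
  set L : ℝ := Real.log X with hL
  have hL0 : 0 < L := by linarith
  have hL1 : 1 ≤ L := by linarith
  have hlQ1 : Real.log (Q0 + 2) ≤ Real.log Q := (le_max_left _ _).trans (hbig.trans hQL)
  have hlQ2 : Real.log 2 / ε ≤ Real.log Q := (le_max_right _ _).trans (hbig.trans hQL)
  have hlQ0 : 0 < Real.log Q := by
    have : 0 < Real.log ((Q0 : ℝ) + 2) := Real.log_pos (by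
      have : (0 : ℝ) ≤ Q0 := Nat.cast_nonneg _
      linarith)
    linarith
  have hQpos : 0 < (Q : ℝ) := by
    rcases Nat.eq_zero_or_pos Q with h0 | h0
    · rw [h0] at hlQ0
      simp at hlQ0
    · exact_mod_cast h0
  have hQnat : 1 ≤ Q := by exact_mod_cast hQpos
  have hQ1 : (1 : ℝ) ≤ Q := by exact_mod_cast hQnat
  have hQQ0 : Q0 ≤ Q := by
    have h1 : ((Q0 : ℝ) + 2) ≤ Q := (Real.log_le_log_iff (by positivity) hQpos).1 hlQ1
    have h2 : (Q0 : ℝ) ≤ Q := by linarith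
    exact_mod_cast h2
  have hQ2 : (2 : ℝ) ≤ (Q : ℝ) ^ ε := by
    rw [Real.rpow_def_of_pos hQpos]
    calc (2 : ℝ) = Real.exp (Real.log 2) := (Real.exp_log (by norm_num)).symm
      _ ≤ _ := by
        apply Real.exp_le_exp.2
        rw [div_le_iff₀ hεp] at hlQ2
        exact hlQ2
  -- sizes of X, H
  have hXpos : 0 < X := by
    rcases Nat.eq_zero_or_pos X with h0 | h0
    · rw [hL, h0] at hL0
      simp at hL0
    · exact h0
  have hXr : (0 : ℝ) < X := by exact_mod_cast hXpos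
  have hHpos : 0 < H := by
    rcases Nat.eq_zero_or_pos H with h0 | h0
    · rw [h0] at hXH
      simp at hXH
      omega
    · exact h0
  have hHr : (0 : ℝ) < H := by exact_mod_cast hHpos
  have hlogX : L = Real.log H + 8 * Real.log Q := by
    rw [hL, hXH]
    push_cast
    rw [Real.log_mul hHr.ne' (by positivity), Real.log_pow]
    norm_num
  have hQ4H : Q ^ 4 ≤ H := by
    have h1 : K * Real.log Q ≤ L := hreg.2.2
    have h2 : 13 * Real.log Q ≤ K * Real.log Q := mul_le_mul_of_nonneg_right hKK4 hlQ0.le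
    have h3 : Real.log ((Q : ℝ) ^ 4) ≤ Real.log H := by
      rw [Real.log_pow]
      push_cast
      linarith
    have h4 : (Q : ℝ) ^ 4 ≤ H := (Real.log_le_log_iff (by positivity) hHr).1 h3
    exact_mod_cast h4
  have hQX : Q ≤ X := by
    rw [hXH]
    calc Q = 1 * Q ^ 1 := by ring
      _ ≤ H * Q ^ 8 := Nat.mul_le_mul hHpos (Nat.pow_le_pow_right hQnat (by norm_num))
  have hk1 : (1 : ℝ) ≤ k := by exact_mod_cast hk
  have hE01 : E0 ≤ 1 := by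
    nlinarith
  obtain ⟨e, eb, mb, heb0, heb, he, hcf⟩ := CF0 Q X η E0 px th hQnat hM hE01
  set B : ℤ → Ch → ℂ := fun m p => MX px th m p + e m p with hB
  have hpx1 : 1 ≤ px.1 := (mem_PC.1 hM.mem).1
  obtain ⟨_, _, _, _, _, hc6, hc7⟩ := hZ1c Q hQQ0 px.1 hpx1 hM.cond
  -- mean square
  have m1 := hS4 k Q X B mb (hreg.mono hK0 hKK1) hcf
  have m2 := hV1 k Q X H B mb (hreg.mono hK0 hKK2) hXH hcf
  have m3 := hZ2 k Q X H (hreg.mono hK0 hKK3) hk hQ4H hXH px hM.mem hM.cond B mb hcf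
  set A : (Fin k → ℕ) → ℝ := fun h => ‖((Rh X h : ℝ) : ℂ) - MT Q X H px B h‖ with hA
  have hA0 : ∀ h, 0 ≤ A h := fun h => norm_nonneg _
  have hAle : ∀ h, A h ^ 2 ≤ 3 * ((Rh X h - Rs Q X h) ^ 2 +
      ‖((Rs Q X h : ℝ) : ℂ) - Rc Q X H B h‖ ^ 2 + ‖Rc Q X H B h - MT Q X H px B h‖ ^ 2) := by
    intro h
    have h1 : A h ≤ |Rh X h - Rs Q X h| + ‖((Rs Q X h : ℝ) : ℂ) - Rc Q X H B h‖ +
        ‖Rc Q X H B h - MT Q X H px B h‖ := by
      have h2 : ((Rh X h : ℝ) : ℂ) - MT Q X H px B h = (((Rh X h - Rs Q X h : ℝ)) : ℂ) +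
          (((Rs Q X h : ℝ) : ℂ) - Rc Q X H B h) + (Rc Q X H B h - MT Q X H px B h) := by
        push_cast
        ring
      rw [hA]
      simp only
      rw [h2]
      refine (norm_add₃_le).trans ?_
      rw [Complex.norm_real, Real.norm_eq_abs]
    have h0 := hA0 h
    have h3 : A h ^ 2 ≤ (|Rh X h - Rs Q X h| + ‖((Rs Q X h : ℝ) : ℂ) - Rc Q X H B h‖ +
        ‖Rc Q X H B h - MT Q X H px B h‖) ^ 2 := pow_le_pow_left₀ h0 h1 2
    have h4 := sq_abs (Rh X h - Rs Q X h)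
    nlinarith [sq_nonneg (|Rh X h - Rs Q X h| - ‖((Rs Q X h : ℝ) : ℂ) - Rc Q X H B h‖),
      sq_nonneg (|Rh X h - Rs Q X h| - ‖Rc Q X H B h - MT Q X H px B h‖),
      sq_nonneg (‖((Rs Q X h : ℝ) : ℂ) - Rc Q X H B h‖ - ‖Rc Q X H B h - MT Q X H px B h‖)]
  -- powers of L
  have hL20 : L ^ (20 * k) ≤ L ^ (C' * k) := by
    rw [← Real.rpow_natCast]
    apply Real.rpow_le_rpow_of_exponent_le hL1
    push_cast
    exact mul_le_mul_of_nonneg_right hC20 (Nat.cast_nonneg k)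
  have hLC : L ^ (C * k) ≤ L ^ (C' * k) :=
    Real.rpow_le_rpow_of_exponent_le hL1 (mul_le_mul_of_nonneg_right hCC (Nat.cast_nonneg k))
  have hL9 : 9 * L ^ (C' * k) ≤ (Q : ℝ) ^ (1 / 100 : ℝ) := by
    refine le_trans ?_ (hX2 X hXX2 k Q hQnat hkL hQL)
    have h1 : L ^ ((C' + 4) * k) = L ^ (C' * k) * L ^ (4 * (k : ℝ)) := by
      rw [← Real.rpow_add hL0]
      congr 1
      ring
    rw [← hL, h1]
    have h2 : (9 : ℝ) ≤ L ^ (4 * (k : ℝ)) := by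
      calc (9 : ℝ) ≤ L ^ (1 : ℝ) := by
            rw [Real.rpow_one]
            linarith
        _ ≤ L ^ (4 * (k : ℝ)) := Real.rpow_le_rpow_of_exponent_le hL1 (by linarith)
    have h3 : 0 ≤ L ^ (C' * k) := Real.rpow_nonneg hL0.le _
    nlinarith
  have hq12 : (0 : ℝ) ≤ (Q : ℝ) ^ (-(1 / 12) : ℝ) := Real.rpow_nonneg hQpos.le _
  have hq4 : (Q : ℝ) ^ (-(1 / 4) : ℝ) ≤ (Q : ℝ) ^ (-(1 / 12) : ℝ) :=
    Real.rpow_le_rpow_of_exponent_le hQ1 (by norm_num)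
  have hq44 : (Q : ℝ) ^ (-(4) : ℝ) ≤ (Q : ℝ) ^ (-(1 / 12) : ℝ) :=
    Real.rpow_le_rpow_of_exponent_le hQ1 (by norm_num)
  have hLp : 0 ≤ L ^ (C' * k) := Real.rpow_nonneg hL0.le _
  have hXk : (0 : ℝ) < (X : ℝ) ^ (k + 2) := by positivity
  have hsum : ∑ h ∈ bx k X, A h ^ 2 ≤ (X : ℝ) ^ (k + 2) * (Q : ℝ) ^ (-(11 / 150) : ℝ) := by
    have t1 : (X : ℝ) ^ (k + 2) * (Q : ℝ) ^ (-(1 / 4) : ℝ) * L ^ (20 * k) ≤
        L ^ (C' * k) * (X : ℝ) ^ (k + 2) * (Q : ℝ) ^ (-(1 / 12) : ℝ) := by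
      calc (X : ℝ) ^ (k + 2) * (Q : ℝ) ^ (-(1 / 4) : ℝ) * L ^ (20 * k)
          ≤ (X : ℝ) ^ (k + 2) * (Q : ℝ) ^ (-(1 / 12) : ℝ) * L ^ (C' * k) := by
            apply mul_le_mul _ hL20 (by positivity) (by positivity)
            exact mul_le_mul_of_nonneg_left hq4 hXk.le
        _ = _ := by ring
    have t2 : (X : ℝ) ^ (k + 2) * (Q : ℝ) ^ (-(4) : ℝ) * L ^ (20 * k) ≤
        L ^ (C' * k) * (X : ℝ) ^ (k + 2) * (Q : ℝ) ^ (-(1 / 12) : ℝ) := by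
      calc (X : ℝ) ^ (k + 2) * (Q : ℝ) ^ (-(4) : ℝ) * L ^ (20 * k)
          ≤ (X : ℝ) ^ (k + 2) * (Q : ℝ) ^ (-(1 / 12) : ℝ) * L ^ (C' * k) := by
            apply mul_le_mul _ hL20 (by positivity) (by positivity)
            exact mul_le_mul_of_nonneg_left hq44 hXk.le
        _ = _ := by ring
    have t3 : L ^ (C * k) * (X : ℝ) ^ (k + 2) * (Q : ℝ) ^ (-(1 / 12) : ℝ) ≤
        L ^ (C' * k) * (X : ℝ) ^ (k + 2) * (Q : ℝ) ^ (-(1 / 12) : ℝ) := by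
      apply mul_le_mul_of_nonneg_right _ hq12
      exact mul_le_mul_of_nonneg_right hLC hXk.le
    have t4 : ∑ h ∈ bx k X, A h ^ 2 ≤ 9 * L ^ (C' * k) * ((X : ℝ) ^ (k + 2) * (Q : ℝ) ^ (-(1 / 12) : ℝ)) := by
      calc ∑ h ∈ bx k X, A h ^ 2 ≤ ∑ h ∈ bx k X, 3 * ((Rh X h - Rs Q X h) ^ 2 +
            ‖((Rs Q X h : ℝ) : ℂ) - Rc Q X H B h‖ ^ 2 + ‖Rc Q X H B h - MT Q X H px B h‖ ^ 2) :=
            Finset.sum_le_sum fun h _ => hAle h
        _ = 3 * (∑ h ∈ bx k X, (Rh X h - Rs Q X h) ^ 2 +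
            ∑ h ∈ bx k X, ‖((Rs Q X h : ℝ) : ℂ) - Rc Q X H B h‖ ^ 2 +
            ∑ h ∈ bx k X, ‖Rc Q X H B h - MT Q X H px B h‖ ^ 2) := by
            rw [← Finset.mul_sum, Finset.sum_add_distrib, Finset.sum_add_distrib]
        _ ≤ _ := by linarith
    refine t4.trans ?_
    calc 9 * L ^ (C' * k) * ((X : ℝ) ^ (k + 2) * (Q : ℝ) ^ (-(1 / 12) : ℝ))
        ≤ (Q : ℝ) ^ (1 / 100 : ℝ) * ((X : ℝ) ^ (k + 2) * (Q : ℝ) ^ (-(1 / 12) : ℝ)) :=
          mul_le_mul_of_nonneg_right hL9 (by positivity)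
      _ = (X : ℝ) ^ (k + 2) * ((Q : ℝ) ^ (1 / 100 : ℝ) * (Q : ℝ) ^ (-(1 / 12) : ℝ)) := by ring
      _ = (X : ℝ) ^ (k + 2) * (Q : ℝ) ^ (-(11 / 150) : ℝ) := by
          rw [← Real.rpow_add hQpos]
          norm_num
  -- the exceptional sets
  obtain ⟨Bad2, hB2sub, hB2card, hB2⟩ := hTM k Q X hXX1 hk hkL hQL hQX
  set T : ℝ := X * (Q : ℝ) ^ (-(1 / 50) : ℝ) with hTdef
  have hTpos : 0 < T := by positivity
  have hcheb := z4_cheb (bx k X) A T _ hTpos hsum hA0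
  have hT2 : (X : ℝ) ^ (k + 2) * (Q : ℝ) ^ (-(11 / 150) : ℝ) / T ^ 2 =
      (X : ℝ) ^ k * (Q : ℝ) ^ (-(1 / 30) : ℝ) := by
    have e1 : ((Q : ℝ) ^ (-(1 / 50) : ℝ)) ^ 2 = (Q : ℝ) ^ (-(1 / 25) : ℝ) := by
      rw [← Real.rpow_natCast, ← Real.rpow_mul hQpos.le]
      norm_num
    have e2 : (Q : ℝ) ^ (-(11 / 150) : ℝ) = (Q : ℝ) ^ (-(1 / 30) : ℝ) * (Q : ℝ) ^ (-(1 / 25) : ℝ) := by
      rw [← Real.rpow_add hQpos]
      norm_num
    rw [hTdef, mul_pow, e1, e2]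
    have e3 : (0 : ℝ) < (Q : ℝ) ^ (-(1 / 25) : ℝ) := Real.rpow_pos_of_pos hQpos _
    rw [div_eq_iff (by positivity)]
    ring
  rw [hT2] at hcheb
  have hQε : (Q : ℝ) ^ (-(2 * ε)) * 2 ≤ (Q : ℝ) ^ (-ε) := by
    calc (Q : ℝ) ^ (-(2 * ε)) * 2 ≤ (Q : ℝ) ^ (-(2 * ε)) * (Q : ℝ) ^ ε :=
          mul_le_mul_of_nonneg_left hQ2 (Real.rpow_nonneg hQpos.le _)
      _ = (Q : ℝ) ^ (-ε) := by
          rw [← Real.rpow_add hQpos]
          congr 1
          ring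
  refine ⟨(bx k X).filter (fun h => T < A h) ∪ Bad2,
    Finset.union_subset (Finset.filter_subset _ _) hB2sub, ?_, ?_⟩
  · have h1 : ((((bx k X).filter (fun h => T < A h) ∪ Bad2).card : ℕ) : ℝ) ≤
        (((bx k X).filter (fun h => T < A h)).card : ℝ) + (Bad2.card : ℝ) := by
      exact_mod_cast Finset.card_union_le _ _
    have h2 : (Q : ℝ) ^ (-(1 / 30) : ℝ) ≤ (Q : ℝ) ^ (-(2 * ε)) :=
      Real.rpow_le_rpow_of_exponent_le hQ1 (by linarith)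
    have h3 : (Q : ℝ) ^ (-ε0) ≤ (Q : ℝ) ^ (-(2 * ε)) :=
      Real.rpow_le_rpow_of_exponent_le hQ1 (by linarith)
    have hXk0 : (0 : ℝ) ≤ (X : ℝ) ^ k := by positivity
    calc ((((bx k X).filter (fun h => T < A h) ∪ Bad2).card : ℕ) : ℝ)
        ≤ (X : ℝ) ^ k * (Q : ℝ) ^ (-(1 / 30) : ℝ) + (X : ℝ) ^ k * (Q : ℝ) ^ (-ε0) := by linarith
      _ ≤ (X : ℝ) ^ k * (Q : ℝ) ^ (-(2 * ε)) + (X : ℝ) ^ k * (Q : ℝ) ^ (-(2 * ε)) :=
          add_le_add (mul_le_mul_of_nonneg_left h2 hXk0) (mul_le_mul_of_nonneg_left h3 hXk0)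
      _ = (X : ℝ) ^ k * ((Q : ℝ) ^ (-(2 * ε)) * 2) := by ring
      _ ≤ (X : ℝ) ^ k * (Q : ℝ) ^ (-ε) := mul_le_mul_of_nonneg_left hQε hXk0
  · intro h hh hbad
    rw [Finset.mem_union, not_or] at hbad
    obtain ⟨hb1, hb2⟩ := hbad
    have hA1 : A h ≤ T := by
      by_contra hcon
      exact hb1 (Finset.mem_filter.2 ⟨hh, not_le.1 hcon⟩)
    obtain ⟨hinj, htail⟩ := hB2 h hh hb2
    refine ⟨hinj, fun m hm => ?_⟩
    have z3 := Z3 Q X H hQnat hXH hXpos η E0 px th hM hE0 hE01 hEk hc6 e eb mb heb he hcf h hh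
      ((Q : ℝ) ^ (-ε0)) m (fun R hR1 hR2 => htail R _ (hc7 R hR1 hR2).1 (hc7 R hR1 hR2).2) hm
    have hre : (MT Q X H px B h).re - T ≤ Rh X h := by
      have h1 : |(((Rh X h : ℝ) : ℂ) - MT Q X H px B h).re| ≤ T :=
        (Complex.abs_re_le_norm _).trans hA1
      rw [Complex.sub_re, Complex.ofReal_re] at h1
      have := (abs_le.1 h1).1
      linarith
    have hpow : (6 * (1 + Real.log Q)) ^ k * (Q : ℝ) ^ (-ε0) ≤ (Q : ℝ) ^ (-(2 * ε)) := by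
      have hlQL : Real.log Q ≤ L := by
        apply Real.log_le_log hQpos
        exact_mod_cast hQX
      have h1 : 6 * (1 + Real.log Q) ≤ L ^ (2 : ℝ) := by
        rw [Real.rpow_two]
        nlinarith
      have h2 : (6 * (1 + Real.log Q)) ^ k ≤ L ^ (2 * (k : ℝ)) := by
        rw [Real.rpow_mul hL0.le, Real.rpow_natCast]
        exact pow_le_pow_left₀ (by positivity) h1 k
      have h3 := hX3 X hXX3 k Q hQnat hkL hQL
      have h4 : (Q : ℝ) ^ (ε0 / 2) * (Q : ℝ) ^ (-ε0) ≤ (Q : ℝ) ^ (-(2 * ε)) := by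
        rw [← Real.rpow_add hQpos]
        apply Real.rpow_le_rpow_of_exponent_le hQ1
        linarith
      exact (mul_le_mul_of_nonneg_right (h2.trans h3) (Real.rpow_nonneg hQpos.le _)).trans h4
    have h50 : (Q : ℝ) ^ (-(1 / 50) : ℝ) ≤ (Q : ℝ) ^ (-(2 * ε)) :=
      Real.rpow_le_rpow_of_exponent_le hQ1 (by linarith)
    have hfin : (6 * (1 + Real.log Q)) ^ k * (Q : ℝ) ^ (-ε0) + (Q : ℝ) ^ (-(1 / 50) : ℝ) ≤
        (Q : ℝ) ^ (-ε) := by linarith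
    calc (X : ℝ) * (m / 2 - (Q : ℝ) ^ (-ε))
        ≤ X * (m / 2 - ((6 * (1 + Real.log Q)) ^ k * (Q : ℝ) ^ (-ε0) + (Q : ℝ) ^ (-(1 / 50) : ℝ))) := by
          apply mul_le_mul_of_nonneg_left _ hXr.le
          linarith
      _ = X * (m / 2 - (6 * (1 + Real.log Q)) ^ k * (Q : ℝ) ^ (-ε0)) - T := by
          rw [hTdef]
          ring
      _ ≤ (MT Q X H px B h).re - T := by linarith
      _ ≤ Rh X h := hre

end Pool.Agent.Lib.H59P
end
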