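import Mathlib
import Pool.Agent.Lib.H59M.M1.M037
import Pool.Agent.Lib.H59M.M1.M038
import Pool.Agent.Lib.H59M.M1.M039
import Pool.Agent.Lib.H59M.M1.M055
import Pool.Agent.Lib.H59M.M1.M057
import Pool.Agent.Lib.H59M.M1.M060
import Pool.Agent.Lib.H59M.M1.M064
import Pool.Agent.Lib.H59M.M1.M066
import Pool.Agent.Lib.H59M.M1.M067

/-! Merged copies (to shorten the build) of Lib.H24P.P2, Lib.H24P.B1, Lib.H24P.B4, Lib.H24P.D3, Lib.H24P.P1, Lib.H24P.T1, Lib.H24P.X2, Lib.H24P.T2, Lib.H24P.T3, Lib.H24P.W1, Lib.H3B.S0E, Lib.H3B.S1A, Lib.H3B.S1B, Lib.H3B.S2B, Lib.H3B.FN, Lib.H3B.Final. -/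

-- from Lib.H24P.P2
section

/-!
# Project H24P, chunk P2 (S/M): congruence preserving maps, periodicity
-/

open Finset Polynomial

namespace Pool.Agent.Lib.H24P

open Pool.Agent.Lib.H68T Pool.Agent.Lib.H18Q Pool.Agent.Lib.H59P

/-- Proof. `Polynomial.sub_dvd_eval_sub`. -/
theorem P2_ran {k : ℕ} (P : Fin k → ℤ[X]) (h : Fin k → ℕ) : Cp (ran P h) := by
  intro i q n
  have h1 := Polynomial.sub_dvd_eval_sub (n + q) n (P i)
  have h2 : n + q - n = q := by ring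
  rw [h2] at h1
  have h3 : ran P h i (n + q) - ran P h i n = (P i).eval (n + q) - (P i).eval n := by
    unfold ran
    ring
  rw [h3]
  exact h1

/-- Proof. `Fin.cases`; `Polynomial.sub_dvd_eval_sub`. -/
theorem P2_sys {k : ℕ} (B : ℤ[X]) (P : Fin k → ℤ[X]) (h : Fin k → ℕ) : Cp (sys B P h) := by
  intro i q n
  refine Fin.cases ?_ (fun j => ?_) i
  · have h1 := Polynomial.sub_dvd_eval_sub (n + q) n B
    have h2 : n + q - n = q := by ring
    rw [h2] at h1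
    exact h1
  · exact P2_ran P h j q n

/-- Proof. `l ∣ N ∣ φ i (n + N) - φ i n`; definition of `gl`. -/
theorem P2_gl {k : ℕ} (φ : Fin k → ℤ → ℤ) (hφ : Cp φ) (l N : ℕ) (hl : l ∣ N) (i : Fin k) (n : ℤ) :
    gl l (φ i (n + N)) = gl l (φ i n) := by
  have h1 : (l : ℤ) ∣ φ i (n + N) - φ i n := (Int.natCast_dvd_natCast.2 hl).trans (hφ i N n)
  obtain ⟨c, hc⟩ := h1
  have h2 : φ i (n + N) = φ i n + c * l := by linarith
  rw [h2, gl_per]

/-- Proof. `P2_gl`. -/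
theorem P2_Wd {k : ℕ} (φ : Fin k → ℤ → ℤ) (hφ : Cp φ) (d N : ℕ) (hd : d ∣ N) (n : ℤ) :
    Wdf d (at' φ (n + N)) = Wdf d (at' φ n) := by
  unfold Wdf
  refine Finset.prod_congr rfl fun l hl => ?_
  unfold Wf
  congr 1
  refine Finset.prod_congr rfl fun i _ => ?_
  congr 1
  exact P2_gl φ hφ l N ((Nat.dvd_of_mem_primeFactors hl).trans hd) i n

/-- Proof. As `M3f_per`. -/
theorem P2_Ph {k : ℕ} (φ : Fin k → ℤ → ℤ) (hφ : Cp φ) (p : Fin k → Ch) (R N : ℕ) (hN : R ∣ N)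
    (hd : ∀ i, (p i).1 ∣ R) (n : ℤ) :
    Phf p R.primeFactors (at' φ (n + N)) = Phf p R.primeFactors (at' φ n) := by
  unfold Phf
  refine Finset.prod_congr rfl fun i _ => ?_
  have h1 : uu R.primeFactors (at' φ (n + N) i) = uu R.primeFactors (at' φ n i) := by
    unfold uu
    refine Finset.prod_congr rfl fun l hl => ?_
    congr 1
    exact P2_gl φ hφ l N ((Nat.dvd_of_mem_primeFactors hl).trans hN) i n
  have h2 : cj (p i) (at' φ (n + N) i) = cj (p i) (at' φ n i) := by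
    unfold cj
    have h3 : ((at' φ (n + N) i : ℤ) : ZMod (p i).1) = ((at' φ n i : ℤ) : ZMod (p i).1) := by
      have h4 : ((p i).1 : ℤ) ∣ φ i (n + N) - φ i n :=
        (Int.natCast_dvd_natCast.2 ((hd i).trans hN)).trans (hφ i N n)
      have h5 := (ZMod.intCast_zmod_eq_zero_iff_dvd (φ i (n + N) - φ i n) (p i).1).2 h4
      rw [Int.cast_sub] at h5
      exact sub_eq_zero.1 h5
    rw [h3]
  rw [h1, h2]

end Pool.Agent.Lib.H24P
end

-- from Lib.H24P.B1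
section

/-!
# Project H24P, chunk B1 (M): the deterministic coordinate, local identities
-/

open Finset Polynomial

namespace Pool.Agent.Lib.H24P

open Pool.Agent.Lib.H68T Pool.Agent.Lib.H18Q Pool.Agent.Lib.H59P

/-- Proof. `gk p κ m = (r/φ(r)) cj p m ∏_{l ∣ κ} gl l m` (`M2a`), `M2c`, `M2b` (`H59P`). -/
theorem B1_SD (N : ℕ) (hN : 0 < N) (p : Ch) (hd : p.1 ∣ N) (m : ℤ) :
    ∑ κ ∈ SD N p.1, gk p κ m = cj p m * ((uu N.primeFactors m : ℝ) : ℂ) := by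
  classical
  have h1 : ∀ κ ∈ SD N p.1, gk p κ m =
      (((p.1 : ℝ) / (Nat.totient p.1 : ℝ) : ℝ) : ℂ) * cj p m * ∏ l ∈ κ.primeFactors, ((gl l m : ℝ) : ℂ) := by
    intro κ hκ
    rw [SD, Finset.mem_filter] at hκ
    unfold gk
    rw [M2a κ hκ.2.1 m, Complex.ofReal_prod]
    rfl
  rw [Finset.sum_congr rfl h1, ← Finset.mul_sum, M2c (fun l => ((gl l m : ℝ) : ℂ)) N p.1 hN, ← M2b N hN p hd m]
  congr 1
  rw [Complex.ofReal_prod]
  refine Finset.prod_congr rfl fun l _ => ?_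
  push_cast
  rfl

/-- The mean of a product of periodic functions over the primes of a set. -/
theorem b1_set (F : ℕ → ℤ → ℝ) (hF : ∀ l : ℕ, ∀ n, F l (n + l) = F l n) (S : Finset ℕ) : (∀ l ∈ S, l.Prime) →
    ∑ n ∈ range (∏ l ∈ S, l), ∏ l ∈ S, F l n = ∏ l ∈ S, ∑ n ∈ range l, F l n := by
  have hper : ∀ (l c : ℕ) (n : ℤ), F l (n + ((c * l : ℕ) : ℤ)) = F l n := by
    intro l c
    induction c with
    | zero => intro n; simp
    | succ c ih =>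
      intro n
      have e : n + (((c + 1) * l : ℕ) : ℤ) = (n + ((c * l : ℕ) : ℤ)) + l := by push_cast; ring
      rw [e, hF, ih]
  induction S using Finset.induction_on with
  | empty => intro _; simp
  | insert a s ha ih =>
    intro hS
    have hap : a.Prime := hS a (Finset.mem_insert_self _ _)
    have hs : ∀ l ∈ s, l.Prime := fun l hl => hS l (Finset.mem_insert_of_mem hl)
    have hcop : Nat.Coprime a (∏ l ∈ s, l) := by
      apply Nat.Coprime.prod_right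
      intro l hl
      rw [Nat.coprime_primes hap (hs l hl)]
      rintro rfl
      exact ha hl
    have hpos : 0 < ∏ l ∈ s, l := Finset.prod_pos fun l hl => (hs l hl).pos
    have key := M3d (fun n => ((F a n : ℝ) : ℂ)) (fun n => ((∏ l ∈ s, F l n : ℝ) : ℂ)) a
      (∏ l ∈ s, l) hap.pos hpos hcop
      (fun m => by
        show ((F a (m + a) : ℝ) : ℂ) = ((F a m : ℝ) : ℂ)
        rw [hF])
      (fun m => by
        show ((∏ l ∈ s, F l (m + ((∏ l ∈ s, l : ℕ) : ℤ)) : ℝ) : ℂ) = ((∏ l ∈ s, F l m : ℝ) : ℂ)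
        congr 1
        refine Finset.prod_congr rfl fun l hl => ?_
        obtain ⟨c, hc⟩ := Finset.dvd_prod_of_mem (fun l => l) hl
        have e : (∏ l ∈ s, l : ℕ) = c * l := by
          rw [mul_comm]
          exact hc
        rw [e, hper])
    have key' : ∑ n ∈ range (a * ∏ l ∈ s, l), F a n * ∏ l ∈ s, F l n =
        (∑ n ∈ range a, F a n) * ∑ n ∈ range (∏ l ∈ s, l), ∏ l ∈ s, F l n := by
      have : ((∑ n ∈ range (a * ∏ l ∈ s, l), F a n * ∏ l ∈ s, F l n : ℝ) : ℂ) =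
          (((∑ n ∈ range a, F a n) * ∑ n ∈ range (∏ l ∈ s, l), ∏ l ∈ s, F l n : ℝ) : ℂ) := by
        rw [Complex.ofReal_sum, Complex.ofReal_mul, Complex.ofReal_sum, Complex.ofReal_sum]
        rw [← key]
        apply Finset.sum_congr rfl
        intro n _
        rw [Complex.ofReal_mul]
      exact_mod_cast this
    rw [Finset.prod_insert ha, Finset.prod_insert ha]
    have e1 : ∑ n ∈ range (a * ∏ l ∈ s, l), ∏ l ∈ insert a s, F l n =
        ∑ n ∈ range (a * ∏ l ∈ s, l), F a n * ∏ l ∈ s, F l n := by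
      apply Finset.sum_congr rfl
      intro n _
      rw [Finset.prod_insert ha]
    rw [e1, key', ih hs]

/-- The values of a linear polynomial run through all classes. -/
theorem b1_lin (l : ℕ) (hl : l.Prime) (a b : ℤ) (ha : ¬ (l : ℤ) ∣ a) :
    ∑ n ∈ range l, (1 + gl l (b + a * (n : ℤ))) = l := by
  classical
  have hl1 : (1 : ℝ) < l := by exact_mod_cast hl.one_lt
  have hlp : Prime (l : ℤ) := Nat.prime_iff_prime_int.1 hl
  have hl0 : (0 : ℤ) < l := by exact_mod_cast hl.pos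
  have hcop : IsCoprime (l : ℤ) a := (Int.isCoprime_iff_gcd_eq_one).2 (by
    rw [← Int.isCoprime_iff_gcd_eq_one]
    exact (Prime.coprime_iff_not_dvd hlp).2 ha)
  obtain ⟨u, c, huc⟩ := hcop
  -- the solution
  obtain ⟨n0, hn0⟩ : ∃ n0 : ℕ, ((n0 : ℕ) : ℤ) = (-b * c) % l :=
    ⟨((-b * c) % l).toNat, Int.toNat_of_nonneg (Int.emod_nonneg _ hl0.ne')⟩
  have hn0l : n0 < l := by
    have := Int.emod_lt_of_pos (-b * c) hl0
    omega
  have hdiv0 : (l : ℤ) ∣ b + a * (n0 : ℤ) := by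
    obtain ⟨t, ht⟩ : ∃ t : ℤ, (n0 : ℤ) = -b * c - l * t := ⟨(-b * c) / l, by
      rw [hn0]
      have := Int.emod_add_mul_ediv (-b * c) l
      linarith⟩
    refine ⟨b * u - a * t, ?_⟩
    rw [ht]
    linear_combination (-b) * huc
  have hfil : (range l).filter (fun n : ℕ => (l : ℤ) ∣ b + a * (n : ℤ)) = {n0} := by
    ext n
    rw [Finset.mem_filter, Finset.mem_range, Finset.mem_singleton]
    constructor
    · rintro ⟨h1, h2⟩
      have h3 : (l : ℤ) ∣ a * ((n : ℤ) - n0) := by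
        have := dvd_sub h2 hdiv0
        have e : b + a * (n : ℤ) - (b + a * (n0 : ℤ)) = a * ((n : ℤ) - n0) := by ring
        rwa [e] at this
      rcases hlp.dvd_or_dvd h3 with h4 | h4
      · exact absurd h4 ha
      · obtain ⟨t, ht⟩ := h4
        have h5 : t = 0 := by
          by_contra h6
          rcases lt_or_gt_of_ne h6 with h7 | h7
          · have : (l : ℤ) * t ≤ -l := by nlinarith
            omega
          · have : (l : ℤ) ≤ l * t := by nlinarith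
            omega
        rw [h5, mul_zero] at ht
        omega
    · rintro rfl
      exact ⟨hn0l, hdiv0⟩
  have e1 : ∀ n ∈ range l, (1 + gl l (b + a * (n : ℤ))) =
      (l : ℝ) / (l - 1) - if (l : ℤ) ∣ b + a * (n : ℤ) then (l : ℝ) / (l - 1) else 0 := by
    intro n _
    unfold gl
    split_ifs
    · ring
    · have : (l : ℝ) - 1 ≠ 0 := by linarith
      field_simp
      ring
  rw [Finset.sum_congr rfl e1, Finset.sum_sub_distrib, ← Finset.sum_filter, hfil, Finset.sum_singleton,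
    Finset.sum_const, Finset.card_range, nsmul_eq_mul]
  have : (l : ℝ) - 1 ≠ 0 := by linarith
  field_simp

/-- Proof. For a prime `l` not dividing the leading coefficient `a` of `B` the values `B(n)`, `n < l`, run through
all classes modulo `l` (`B(n) = b + a n`), so `∑_{n<l} (1 + gl l (B n)) = l` (one value `0`, the others
`l/(l-1)`), and `∑_{n<l} (1 + gl l (B n)) Wf l (ran) = l (1 + tpf l (sys)) - l = l tpf l (sys)`
(`Fin.prod_univ_succ`). The general case by induction over the prime factors with `M3d` (compare `m3e_set` in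
`H59P/M3E.lean`). -/
theorem B1_mean {k : ℕ} (B : ℤ[X]) (hB : B.natDegree = 1) (P : Fin k → ℤ[X]) (h : Fin k → ℕ) (d : ℕ)
    (hd : Squarefree d) (hc : Nat.Coprime d B.leadingCoeff.natAbs) :
    ∑ n ∈ range d, uu d.primeFactors (B.eval (n : ℤ)) * Wdf d (at' (ran P h) n) =
      d * tdf d (sys B P h) := by
  classical
  have hBe : ∀ x : ℤ, B.eval x = B.coeff 0 + B.leadingCoeff * x := by
    intro x
    rw [eval_eq_sum_range, hB, Finset.sum_range_succ, Finset.sum_range_one, leadingCoeff, hB]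
    ring
  have hperF : ∀ (l : ℕ) (n : ℤ), (1 + gl l (B.eval (n + l))) * Wf l (at' (ran P h) (n + l)) =
      (1 + gl l (B.eval n)) * Wf l (at' (ran P h) n) := by
    intro l n
    have h1 : gl l (B.eval (n + l)) = gl l (B.eval n) :=
      P2_gl (sys B P h) (P2_sys B P h) l l dvd_rfl 0 n
    have h2 : ∀ i, gl l (ran P h i (n + l)) = gl l (ran P h i n) := fun i =>
      P2_gl (ran P h) (P2_ran P h) l l dvd_rfl i n
    rw [h1]
    unfold Wf at'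
    simp only [h2]
  have h1 := b1_set (fun l n => (1 + gl l (B.eval n)) * Wf l (at' (ran P h) n)) hperF d.primeFactors
    (fun l hl => Nat.prime_of_mem_primeFactors hl)
  rw [Nat.prod_primeFactors_of_squarefree hd] at h1
  have h2 : ∑ n ∈ range d, uu d.primeFactors (B.eval (n : ℤ)) * Wdf d (at' (ran P h) n) =
      ∑ n ∈ range d, ∏ l ∈ d.primeFactors, (1 + gl l (B.eval (n : ℤ))) * Wf l (at' (ran P h) n) := by
    refine Finset.sum_congr rfl fun n _ => ?_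
    unfold uu Wdf
    rw [← Finset.prod_mul_distrib]
  rw [h2]
  refine h1.trans ?_
  have h3 : ∀ l ∈ d.primeFactors, ∑ n ∈ range l, (1 + gl l (B.eval (n : ℤ))) * Wf l (at' (ran P h) n) =
      l * tpf l (sys B P h) := by
    intro l hl
    have hlp := Nat.prime_of_mem_primeFactors hl
    have hl0 : (l : ℝ) ≠ 0 := by exact_mod_cast hlp.pos.ne'
    have hna : ¬ (l : ℤ) ∣ B.leadingCoeff := by
      intro hdv
      have h4 : l ∣ B.leadingCoeff.natAbs := Int.natCast_dvd.1 hdv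
      have h5 := Nat.dvd_gcd (Nat.dvd_of_mem_primeFactors hl) h4
      rw [hc] at h5
      exact hlp.one_lt.ne' (Nat.dvd_one.1 h5)
    have h6 := b1_lin l hlp B.leadingCoeff (B.coeff 0) hna
    simp only [← hBe] at h6
    have h7 : ∀ n ∈ range l, (1 + gl l (B.eval (n : ℤ))) * Wf l (at' (ran P h) n) =
        ∏ i, (1 + gl l (sys B P h i (n : ℤ))) - (1 + gl l (B.eval (n : ℤ))) := by
      intro n _
      rw [Fin.prod_univ_succ]
      unfold Wf at' sys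
      simp only [Fin.cons_zero, Fin.cons_succ]
      ring
    rw [Finset.sum_congr rfl h7, Finset.sum_sub_distrib, h6]
    unfold tpf
    field_simp
  rw [Finset.prod_congr rfl h3, Finset.prod_mul_distrib]
  unfold tdf
  congr 1
  have h8 := Nat.prod_primeFactors_of_squarefree hd
  rw [← Nat.cast_prod, h8]

end Pool.Agent.Lib.H24P
end

-- from Lib.H24P.B4
section

/-!
# Project H24P, chunk B4 (M): the deterministic coordinate against periodic functions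
-/

open Finset Polynomial

namespace Pool.Agent.Lib.H24P

open Pool.Agent.Lib.H68T Pool.Agent.Lib.H18Q Pool.Agent.Lib.H59P

theorem b4_card (Q : ℕ) (r : ℕ) (S : Finset ℕ) (hS : S ⊆ KS Q r) : (S.card : ℝ) ≤ Q := by
  have h1 : S ⊆ Icc 1 Q := by
    intro κ hκ
    have h2 := (CA_mem_KS.1 (hS hκ)).1
    rw [Finset.mem_Icc]
    exact ⟨h2.1, h2.2.trans (Nat.div_le_self _ _)⟩
  have h3 := Finset.card_le_card h1
  rw [Nat.card_Icc, Nat.add_sub_cancel] at h3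
  exact_mod_cast h3

theorem b4_sum (Q N : ℕ) (p : Ch) (hp : p ∈ PC Q) (B : ℤ[X]) (hB : B.natDegree = 1) (hN : 0 < N)
    (ψ : ℤ → ℂ) (hψ : ∀ n, ψ (n + N) = ψ n) (Φ : ℝ) (hΦ : ∀ n, ‖ψ n‖ ≤ Φ) (a H : ℕ)
    (S : Finset ℕ) (hS : S ⊆ KS Q p.1)
    (hn : ∀ κ ∈ S, ¬ ((p.1 * κ : ℕ) : ℤ) ∣ B.leadingCoeff * N) :
    ‖∑ n ∈ Ico a (a + H), (∑ κ ∈ S, gk p κ (B.eval (n : ℤ))) * ψ n‖ ≤ 2 * (Q : ℝ) ^ 3 * N * Φ := by
  have hΦ0 : 0 ≤ Φ := le_trans (norm_nonneg _) (hΦ 0)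
  have h1 : ∑ n ∈ Ico a (a + H), (∑ κ ∈ S, gk p κ (B.eval (n : ℤ))) * ψ n =
      ∑ κ ∈ S, ∑ n ∈ Ico a (a + H), gk p κ (B.eval (n : ℤ)) * ψ n := by
    rw [Finset.sum_comm]
    refine Finset.sum_congr rfl fun n _ => ?_
    rw [Finset.sum_mul]
  rw [h1]
  calc ‖∑ κ ∈ S, ∑ n ∈ Ico a (a + H), gk p κ (B.eval (n : ℤ)) * ψ n‖
      ≤ ∑ _κ ∈ S, 2 * ((Q : ℝ) * N) * (Q * Φ) :=
        norm_sum_le_of_le _ fun κ hκ => B3_int Q p hp κ (hS hκ) B hB N hN ψ hψ Φ hΦ (hn κ hκ) a H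
    _ = S.card * (2 * ((Q : ℝ) * N) * (Q * Φ)) := by rw [Finset.sum_const, nsmul_eq_mul]
    _ ≤ Q * (2 * ((Q : ℝ) * N) * (Q * Φ)) :=
        mul_le_mul_of_nonneg_right (b4_card Q p.1 S hS) (by positivity)
    _ = 2 * (Q : ℝ) ^ 3 * N * Φ := by ring

theorem b4_lc (B : ℤ[X]) (hB : B.natDegree = 1) : 0 < B.leadingCoeff.natAbs := by
  rw [Int.natAbs_pos, Polynomial.leadingCoeff_ne_zero]
  intro h
  rw [h] at hB
  simp at hB

theorem b4_ndvd (N a κ : ℕ) (hN : 0 < N) (ha : a ∣ N) (hκ : Squarefree κ) (h : κ ∣ a * N) : κ ∣ N := by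
  have h1 := Nat.prod_primeFactors_of_squarefree hκ
  rw [← h1]
  refine Finset.prod_primes_dvd N (fun l hl => (Nat.prime_of_mem_primeFactors hl).prime)
    (fun l hl => ?_)
  have h2 := (Nat.dvd_of_mem_primeFactors hl).trans h
  rcases (Nat.Prime.dvd_mul (Nat.prime_of_mem_primeFactors hl)).1 h2 with h3 | h3
  · exact h3.trans ha
  · exact h3

/-- Proof. `Fc Q p = ∑_{κ ∈ KS Q r} gk p κ`. If `κ ∈ KS Q r` does not divide `N` then `r κ` does not divide `a N`, `a` the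
leading coefficient (`κ` is squarefree and `a ∣ N`, so `κ ∣ a N` would imply `κ ∣ N`); `B3_int`; there are at most `Q` of
them: total error `2 Q^3 N Φ`. The `κ ∈ KS Q r` dividing `N` are the elements of `SD N r` (`r κ ≤ N^2 ≤ Q`); their sum is
`cj uu` (`B1_SD`), of period `N` (in `n`; `r ∣ N`, primes of `N`), bounded by `N` (`M3a_uu`, `N/φ(N) ≤ N`):
`M3c`: error `2 N · N Φ`. `N ≤ Q`. -/
theorem B4_small (Q N : ℕ) (p : Ch) (hp : p ∈ PC Q) (hr : p.1 ∣ N) (B : ℤ[X]) (hB : B.natDegree = 1)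
    (ha : B.leadingCoeff.natAbs ∣ N) (hN : 0 < N) (hNQ : N * N ≤ Q) (ψ : ℤ → ℂ)
    (hψ : ∀ n, ψ (n + N) = ψ n) (Φ : ℝ) (hΦ : ∀ n, ‖ψ n‖ ≤ Φ) (a H : ℕ) :
    ‖∑ n ∈ Ico a (a + H), Fc Q p (B.eval (n : ℤ)) * ψ n -
      H * ((∑ n ∈ range N, cj p (B.eval (n : ℤ)) * ((uu N.primeFactors (B.eval (n : ℤ)) : ℝ) : ℂ) *
        ψ n) / N)‖ ≤ 4 * (Q : ℝ) ^ 4 * Φ := by
  classical
  have hΦ0 : 0 ≤ Φ := le_trans (norm_nonneg _) (hΦ 0)
  obtain ⟨hr1, hrQ, -⟩ := mem_PC.1 hp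
  have hNN : N ≤ N * N := Nat.le_mul_of_pos_left N hN
  have hNQ1 : (N : ℝ) ≤ Q := by exact_mod_cast hNN.trans hNQ
  have hNQ2 : (N : ℝ) * N ≤ Q := by exact_mod_cast hNQ
  have hQ1 : (1 : ℝ) ≤ Q := by
    have : 1 ≤ Q := by
      have := Nat.mul_pos hN hN
      omega
    exact_mod_cast this
  -- splitting
  have hfil : (KS Q p.1).filter (fun κ => κ ∣ N) = SD N p.1 := by
    ext κ
    rw [Finset.mem_filter, CA_mem_KS, SD, Finset.mem_filter, Nat.mem_divisors]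
    constructor
    · rintro ⟨⟨-, h2, h3⟩, h4⟩
      exact ⟨⟨h4, hN.ne'⟩, h2, h3⟩
    · rintro ⟨⟨h4, -⟩, h2, h3⟩
      have hκ0 : 0 < κ := Nat.pos_of_dvd_of_pos h4 hN
      refine ⟨⟨⟨hκ0, ?_⟩, h2, h3⟩, h4⟩
      rw [Nat.le_div_iff_mul_le (by omega)]
      exact (Nat.mul_le_mul (Nat.le_of_dvd hN h4) (Nat.le_of_dvd hN hr)).trans hNQ
  have hsplit : ∀ m : ℤ, Fc Q p m = cj p m * ((uu N.primeFactors m : ℝ) : ℂ) +
      ∑ κ ∈ (KS Q p.1).filter (fun κ => ¬ κ ∣ N), gk p κ m := by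
    intro m
    unfold Fc
    rw [← Finset.sum_filter_add_sum_filter_not (KS Q p.1) (fun κ => κ ∣ N), hfil, B1_SD N hN p hr m]
  -- the large part
  have hlarge := b4_sum Q N p hp B hB hN ψ hψ Φ hΦ a H ((KS Q p.1).filter (fun κ => ¬ κ ∣ N))
    (Finset.filter_subset _ _) (by
      intro κ hκ hdvd
      rw [Finset.mem_filter] at hκ
      apply hκ.2
      have h1 : p.1 * κ ∣ B.leadingCoeff.natAbs * N := by
        have h2 := Int.natAbs_dvd_natAbs.2 hdvd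
        rw [Int.natAbs_mul, Int.natAbs_natCast, Int.natAbs_natCast] at h2
        exact h2
      exact b4_ndvd N _ κ hN ha (CA_mem_KS.1 hκ.1).2.1 ((dvd_mul_left _ _).trans h1))
  -- the main part
  set f : ℤ → ℂ := fun n => cj p (B.eval n) * ((uu N.primeFactors (B.eval n) : ℝ) : ℂ) * ψ n with hf
  have hPh : ∀ n : ℤ, Phf (fun _ : Fin 1 => p) N.primeFactors (at' (fun _ : Fin 1 => fun n => B.eval n) n) =
      cj p (B.eval n) * ((uu N.primeFactors (B.eval n) : ℝ) : ℂ) := by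
    intro n
    unfold Phf at'
    rw [Fin.prod_univ_one]
  have hCp : Cp (fun _ : Fin 1 => fun n : ℤ => B.eval n) := by
    intro i q n
    have h1 := Polynomial.sub_dvd_eval_sub (n + q) n B
    have h2 : n + q - n = q := by ring
    rw [h2] at h1
    exact h1
  have hper : ∀ m, f (m + N) = f m := by
    intro m
    have h1 := P2_Ph _ hCp (fun _ : Fin 1 => p) N N dvd_rfl (fun _ => hr) m
    rw [hPh, hPh] at h1
    simp only [hf]
    rw [h1, hψ]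
  have hbd : ∀ m, ‖f m‖ ≤ N * Φ := by
    intro m
    have h1 := P0_PhR (fun _ : Fin 1 => p) N hN (at' (fun _ : Fin 1 => fun n => B.eval n) m)
    rw [hPh, pow_one] at h1
    have h2 : (N : ℝ) / (Nat.totient N : ℝ) ≤ N := by
      have h4 : (1 : ℝ) ≤ (Nat.totient N : ℝ) := by exact_mod_cast Nat.totient_pos.2 hN
      exact div_le_self (by positivity) h4
    simp only [hf]
    rw [norm_mul]
    exact mul_le_mul (h1.trans h2) (hΦ m) (norm_nonneg _) (by positivity)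
  have hmain := M3c f N hN hper (N * Φ) hbd a H
  have heq : ∑ n ∈ Ico a (a + H), Fc Q p (B.eval (n : ℤ)) * ψ n -
      H * ((∑ n ∈ range N, f n) / N) =
      (∑ n ∈ Ico a (a + H), f n - H * ((∑ n ∈ range N, f n) / N)) +
      ∑ n ∈ Ico a (a + H), (∑ κ ∈ (KS Q p.1).filter (fun κ => ¬ κ ∣ N), gk p κ (B.eval (n : ℤ))) * ψ n := by
    have h1 : ∑ n ∈ Ico a (a + H), Fc Q p (B.eval (n : ℤ)) * ψ n = ∑ n ∈ Ico a (a + H), f n +
        ∑ n ∈ Ico a (a + H), (∑ κ ∈ (KS Q p.1).filter (fun κ => ¬ κ ∣ N), gk p κ (B.eval (n : ℤ))) *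
          ψ n := by
      rw [← Finset.sum_add_distrib]
      refine Finset.sum_congr rfl fun n _ => ?_
      rw [hsplit]
      simp only [hf]
      ring
    rw [h1]
    ring
  have hgoal : ∑ n ∈ range N, cj p (B.eval (n : ℤ)) * ((uu N.primeFactors (B.eval (n : ℤ)) : ℝ) : ℂ) *
        ψ n = ∑ n ∈ range N, f n := rfl
  rw [hgoal, heq]
  refine (norm_add_le _ _).trans ?_
  have h3 : (2 : ℝ) * N * (N * Φ) ≤ 2 * (Q : ℝ) ^ 4 * Φ := by
    have h4 : (Q : ℝ) ≤ (Q : ℝ) ^ 4 := le_self_pow₀ hQ1 (by norm_num)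
    calc (2 : ℝ) * N * (N * Φ) = 2 * (N * N) * Φ := by ring
      _ ≤ 2 * (Q : ℝ) ^ 4 * Φ := by
        apply mul_le_mul_of_nonneg_right _ hΦ0
        linarith
  have h5 : 2 * (Q : ℝ) ^ 3 * N * Φ ≤ 2 * (Q : ℝ) ^ 4 * Φ := by
    apply mul_le_mul_of_nonneg_right _ hΦ0
    calc 2 * (Q : ℝ) ^ 3 * N ≤ 2 * (Q : ℝ) ^ 3 * Q := mul_le_mul_of_nonneg_left hNQ1 (by positivity)
      _ = 2 * (Q : ℝ) ^ 4 := by ring
  linarith

/-- Proof. `r κ ≥ r > |a| N > 0`, so `r κ` does not divide `a N`: `B3_int` for all (at most `Q`) `κ ∈ KS Q r`. -/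
theorem B4_large (Q N : ℕ) (p : Ch) (hp : p ∈ PC Q) (B : ℤ[X]) (hB : B.natDegree = 1) (hN : 0 < N)
    (hr : B.leadingCoeff.natAbs * N < p.1) (ψ : ℤ → ℂ) (hψ : ∀ n, ψ (n + N) = ψ n) (Φ : ℝ)
    (hΦ : ∀ n, ‖ψ n‖ ≤ Φ) (a H : ℕ) :
    ‖∑ n ∈ Ico a (a + H), Fc Q p (B.eval (n : ℤ)) * ψ n‖ ≤ 2 * (Q : ℝ) ^ 3 * N * Φ := by
  refine b4_sum Q N p hp B hB hN ψ hψ Φ hΦ a H (KS Q p.1) (Finset.Subset.refl _) fun κ hκ hdvd => ?_
  have h1 : p.1 * κ ∣ B.leadingCoeff.natAbs * N := by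
    have h2 := Int.natAbs_dvd_natAbs.2 hdvd
    rw [Int.natAbs_mul, Int.natAbs_natCast, Int.natAbs_natCast] at h2
    exact h2
  have h3 := Nat.le_of_dvd (Nat.mul_pos (b4_lc B hB) hN) h1
  have h4 : p.1 ≤ p.1 * κ := Nat.le_mul_of_pos_right _ (CA_mem_KS.1 hκ).1.1
  omega

end Pool.Agent.Lib.H24P
end

-- from Lib.H24P.D3
section

/-!
# Project H24P, chunk D3 (M/L): the mean square of the part with large moduli (`Fgen`)
-/

open Finset Polynomial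

namespace Pool.Agent.Lib.H24P

open Pool.Agent.Lib.H68T Pool.Agent.Lib.H18Q Pool.Agent.Lib.H59P




/-- the least common multiple divides the product -/
theorem d3_lcm_le {k : ℕ} (q : Fin k → ℕ) (hq : ∀ i, 1 ≤ q i) : univ.lcm q ≤ ∏ i, q i := by
  refine Nat.le_of_dvd (prod_pos fun i _ => hq i) ?_
  exact Finset.lcm_dvd fun i hi => dvd_prod_of_mem q hi



end Pool.Agent.Lib.H24P
end

-- from Lib.H24P.P1
section

/-!
# Project H24P, chunk P1 (S/M): the part of the product with bounded least common multiple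
-/

open Finset

namespace Pool.Agent.Lib.H24P

open Pool.Agent.Lib.H68T Pool.Agent.Lib.H18Q Pool.Agent.Lib.H59P

/-- Every tuple of integers is `n + h_i` with natural numbers `h_i`. Proof. `n = - ∑_j |m_j|`,
`h_i = (m_i - n).toNat`. -/
theorem P1_shift {k : ℕ} (m : Fin k → ℤ) : ∃ (n : ℤ) (h : Fin k → ℕ), ∀ i, n + h i = m i := by
  refine ⟨-∑ j, |m j|, fun i => (m i - -∑ j, |m j|).toNat, fun i => ?_⟩
  have h1 : |m i| ≤ ∑ j, |m j| :=
    Finset.single_le_sum (f := fun j => |m j|) (fun j _ => abs_nonneg _) (Finset.mem_univ i)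
  have h2 : -|m i| ≤ m i := neg_abs_le (m i)
  rw [Int.toNat_of_nonneg (by linarith)]
  ring

/-- Proof. `P1_shift` and `M2` of H59P (`Ph`, `Wd` there are `Phf`, `Wdf` at the tuple `n + h_i`; unfold
`Ph`, `Wd`, `Wl`, `Phf`, `Wdf`, `Wf` and rewrite `n + h i = m i`). -/
theorem P1_M2 {k : ℕ} (Q D R : ℕ) (hDQ : D ≤ Q) (hR : 0 < R) (p : Fin k → Ch) (hp : ∀ i, p i ∈ PC Q)
    (hd : ∀ i, (p i).1 ∣ R) (m : Fin k → ℤ) :
    ∑ κ ∈ (Fintype.piFinset fun i => KS Q (p i).1).filter (fun κ => R.lcm (univ.lcm κ) ≤ D),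
      ∏ i, gk (p i) (κ i) (m i) =
    Phf p R.primeFactors m * ∑ d ∈ SF (D / R) R, ((Wdf d m : ℝ) : ℂ) := by
  obtain ⟨n, h, hm⟩ := P1_shift m
  have key := M2 Q D R hDQ hR p hp hd h n
  simp only [Ph, H59P.Wd, H59P.Wl, hm] at key
  exact key

/-- For squarefree `d`: `Wdf d m` is the sum over the tuples of divisors of `d` with least common
multiple `d` of the products of the components of the trivial character.

Proof. `M1a` of H59P with `a l i = gl l (m i)`, and `gk p0 κ m = ∏_{l ∣ κ} gl l m` (`M2a`; `p0.1 = 1`, the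
character is `1`: `cj p0 m = 1`, `Nat.totient 1 = 1`). -/
theorem P1_Wd {k : ℕ} (d : ℕ) (hd : Squarefree d) (m : Fin k → ℤ) :
    ∑ κ ∈ (Fintype.piFinset fun _ : Fin k => d.divisors).filter (fun κ => univ.lcm κ = d),
      ∏ i, gk p0 (κ i) (m i) = ((Wdf d m : ℝ) : ℂ) := by
  have key := M1a (fun l i => ((gl l (m i) : ℝ) : ℂ)) d hd
  have h1 : ((Wdf d m : ℝ) : ℂ) =
      ∏ l ∈ d.primeFactors, (∏ i, (1 + ((gl l (m i) : ℝ) : ℂ)) - 1) := by
    simp only [Wdf, Wf]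
    push_cast
    rfl
  rw [h1, ← key]
  refine Finset.sum_congr rfl fun κ hκ => ?_
  refine Finset.prod_congr rfl fun i _ => ?_
  rw [Finset.mem_filter, Fintype.mem_piFinset] at hκ
  have hκi : Squarefree (κ i) := hd.squarefree_of_dvd (Nat.dvd_of_mem_divisors (hκ.1 i))
  have h2 : cj p0 (m i) = 1 := by
    have hz : ((m i : ℤ) : ZMod 1) = 1 := Subsingleton.elim _ _
    show (starRingEnd ℂ) ((1 : DirichletCharacter ℂ 1) ((m i : ℤ) : ZMod 1)) = 1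
    rw [hz, map_one, map_one]
  rw [← Complex.ofReal_prod, ← M2a (κ i) hκi (m i), gk]
  have h3 : (starRingEnd ℂ) (p0.2 ((m i : ℤ) : ZMod p0.1)) = 1 := h2
  rw [h3]
  have h4 : (p0.1 : ℕ) = 1 := rfl
  rw [h4]
  simp

end Pool.Agent.Lib.H24P
end

-- from Lib.H24P.T1
section

/-!
# Project H24P, chunk T1 (M): size of the local factors
-/

open Finset Polynomial

namespace Pool.Agent.Lib.H24P

open Pool.Agent.Lib.H68T Pool.Agent.Lib.H18Q Pool.Agent.Lib.H59P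

/-- The local factor as a count. Proof. `1 + gl l m = l/(l-1)` if `l ∤ m`, else `0`. -/
theorem T1_count {k : ℕ} (l : ℕ) (hl : l.Prime) (φ : Fin k → ℤ → ℤ) :
    1 + tpf l φ = (((range l).filter (fun n : ℕ => ∀ i, ¬ (l : ℤ) ∣ φ i n)).card : ℝ) / l *
      ((l : ℝ) / ((l : ℝ) - 1)) ^ k := by
  classical
  have hl1 : (1 : ℝ) < l := by exact_mod_cast hl.one_lt
  have hl2 : (l : ℝ) - 1 ≠ 0 := by linarith
  have hg : ∀ m : ℤ, 1 + gl l m = if (l : ℤ) ∣ m then 0 else (l : ℝ) / ((l : ℝ) - 1) := by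
    intro m
    unfold gl
    split_ifs
    · ring
    · field_simp
      ring
  have h1 : ∀ n ∈ range l, ∏ i, (1 + gl l (φ i (n : ℤ))) =
      if (∀ i, ¬ (l : ℤ) ∣ φ i (n : ℤ)) then ((l : ℝ) / ((l : ℝ) - 1)) ^ k else 0 := by
    intro n _
    split_ifs with h
    · have h2 : ∀ i ∈ (univ : Finset (Fin k)), (1 + gl l (φ i (n : ℤ))) = (l : ℝ) / ((l : ℝ) - 1) := by
        intro i _
        rw [hg, if_neg (h i)]
      rw [Finset.prod_congr rfl h2, Finset.prod_const, card_univ, Fintype.card_fin]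
    · push Not at h
      obtain ⟨i, hi⟩ := h
      refine Finset.prod_eq_zero (mem_univ i) ?_
      rw [hg, if_pos hi]
  unfold tpf
  rw [add_sub_cancel, Finset.sum_congr rfl h1, ← Finset.sum_filter, Finset.sum_const, nsmul_eq_mul]
  ring

/-- The number of zeros modulo `l`, the leading coefficient not being divisible by `l`. -/
theorem t1_roots (F : ℤ[X]) (l : ℕ) (hl : l.Prime) (hn : ¬ (l : ℤ) ∣ F.leadingCoeff) :
    ((range l).filter (fun a : ℕ => (l : ℤ) ∣ F.eval (a : ℤ))).card ≤ F.natDegree := by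
  classical
  have := Fact.mk hl
  set Q : (ZMod l)[X] := F.map (Int.castRingHom (ZMod l)) with hQ
  have hev : ∀ m : ℤ, Q.eval (m : ZMod l) = ((F.eval m : ℤ) : ZMod l) := by
    intro m
    rw [hQ, eval_intCast_map]
    rfl
  have hQ0 : Q ≠ 0 := by
    intro h0
    apply hn
    rw [← ZMod.intCast_zmod_eq_zero_iff_dvd]
    have h2 : Q.coeff F.natDegree = 0 := by rw [h0, coeff_zero]
    rw [hQ, coeff_map] at h2
    exact h2
  have h1 : ((range l).filter (fun a : ℕ => (l : ℤ) ∣ F.eval (a : ℤ))).card ≤ Q.roots.toFinset.card := by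
    refine card_le_card_of_injOn (fun a : ℕ => (a : ZMod l)) ?_ ?_
    · intro a ha
      have ha' := (mem_filter.1 (mem_coe.1 ha)).2
      rw [mem_coe, Multiset.mem_toFinset, mem_roots hQ0, IsRoot.def]
      have h2 := hev (a : ℤ)
      rw [Int.cast_natCast] at h2
      rw [h2, ZMod.intCast_zmod_eq_zero_iff_dvd]
      exact ha'
    · intro a ha b hb hab
      have ha' := mem_range.1 (mem_filter.1 (mem_coe.1 ha)).1
      have hb' := mem_range.1 (mem_filter.1 (mem_coe.1 hb)).1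
      have h2 := (ZMod.natCast_eq_natCast_iff a b l).1 hab
      exact Nat.ModEq.eq_of_lt_of_lt h2 ha' hb'
  refine h1.trans ((Multiset.toFinset_card_le _).trans ((card_roots' _).trans ?_))
  exact natDegree_map_le

theorem t1_pow (n : ℕ) (x : ℝ) (hx : 0 ≤ x) (hx1 : x ≤ 1) : (1 + x) ^ n ≤ 1 + (2 ^ n - 1) * x := by
  induction n with
  | zero => simp
  | succ n ih =>
    have h1 : (1 : ℝ) ≤ 2 ^ n := one_le_pow₀ (by norm_num)
    calc (1 + x) ^ (n + 1) = (1 + x) ^ n * (1 + x) := pow_succ _ _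
      _ ≤ (1 + (2 ^ n - 1) * x) * (1 + x) := mul_le_mul_of_nonneg_right ih (by linarith)
      _ ≤ 1 + (2 ^ (n + 1) - 1) * x := by
        have h2 : x * x ≤ 1 * x := mul_le_mul_of_nonneg_right hx1 hx
        have h3 : (2 ^ n - 1) * (x * x) ≤ (2 ^ n - 1) * (1 * x) :=
          mul_le_mul_of_nonneg_left h2 (by linarith)
        rw [pow_succ]
        linarith

/-- **T1.** Proof. For `l ≤ A` trivial (`P0_tp`: `0 ≤ 1 + tpf ≤ 2^(k+1)`). For a prime `l > A` the leading coefficients are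
not divisible by `l`, so `B`, `P_i + h_i` have at most `A` (resp. `1 ≤ A`) zeros modulo `l`
(`Polynomial.card_roots'` over `ZMod l`): the count in `T1_count` is at least `l - (k+1) A` and at most `l`;
`(l/(l-1))^(k+1) ≤ 1 + C/l` (e.g. `(1+1/(l-1))^(k+1) ≤ 1 + 2^(k+1)/(l-1)`, `l - 1 ≥ l/2`). -/
theorem T1_abs (k A : ℕ) (hA : 1 ≤ A) : ∃ C : ℝ, 1 ≤ C ∧ ∀ B : ℤ[X], Lin A B →
    ∀ P : Fin k → ℤ[X], Pol A P → ∀ h : Fin k → ℕ, ∀ l : ℕ, l.Prime →
    |tpf l (sys B P h)| ≤ C / l := by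
  classical
  have hA1 : (1 : ℝ) ≤ A := by exact_mod_cast hA
  have h2k : (1 : ℝ) ≤ 2 ^ (k + 1) := one_le_pow₀ (by norm_num)
  refine ⟨2 * 2 ^ (k + 1) * A + (k + 1) * A, ?_, ?_⟩
  · have h1 : (1 : ℝ) * 1 ≤ 2 ^ (k + 1) * A := mul_le_mul h2k hA1 (by norm_num) (by positivity)
    have h2 : (0 : ℝ) ≤ (k + 1) * A := by positivity
    linarith
  intro B hB P hP h l hl
  have hl2 : (2 : ℝ) ≤ l := by exact_mod_cast hl.two_le
  have hl0 : (0 : ℝ) < l := by linarith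
  have hl1 : (0 : ℝ) < l - 1 := by linarith
  have hratio : (l : ℝ) / (l - 1) ≤ 2 := by
    rw [div_le_iff₀ hl1]
    linarith
  have hr0 : (0 : ℝ) ≤ (l : ℝ) / (l - 1) := by positivity
  obtain ⟨e1, e2⟩ := P0_tp l hl (sys B P h)
  have hkA : (0 : ℝ) ≤ (k + 1) * A := by positivity
  by_cases hlA : l ≤ A
  · have h1 : ((l : ℝ) / (l - 1)) ^ (k + 1) ≤ 2 ^ (k + 1) := pow_le_pow_left₀ hr0 hratio _
    have h2 : |tpf l (sys B P h)| ≤ 2 ^ (k + 1) := by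
      rw [abs_le]
      constructor <;> linarith
    refine h2.trans ?_
    rw [le_div_iff₀ hl0]
    have h3 : (l : ℝ) ≤ A := by exact_mod_cast hlA
    have h4 : (2 : ℝ) ^ (k + 1) * l ≤ 2 ^ (k + 1) * A := mul_le_mul_of_nonneg_left h3 (by linarith)
    have h5 : (0 : ℝ) ≤ 2 ^ (k + 1) * A := by positivity
    linarith
  · push Not at hlA
    rw [abs_le]
    constructor
    · -- lower bound
      have hlc : ∀ F : ℤ[X], 1 ≤ F.natDegree → F.leadingCoeff.natAbs ≤ A →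
          ¬ (l : ℤ) ∣ F.leadingCoeff := by
        intro F hF hFA hd
        have h1 : F.leadingCoeff ≠ 0 := by
          rw [Ne, leadingCoeff_eq_zero]
          rintro rfl
          rw [natDegree_zero] at hF
          omega
        have h2 : l ∣ F.leadingCoeff.natAbs := Int.natCast_dvd.1 hd
        have h3 := Nat.le_of_dvd (Int.natAbs_pos.2 h1) h2
        omega
      set good := (range l).filter (fun n : ℕ => ∀ i, ¬ (l : ℤ) ∣ sys B P h i n) with hgood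
      set bad := univ.biUnion (fun i : Fin (k + 1) => (range l).filter
        (fun n : ℕ => (l : ℤ) ∣ sys B P h i n)) with hbad
      have hb : bad.card ≤ (k + 1) * A := by
        refine card_biUnion_le.trans ?_
        calc ∑ i : Fin (k + 1), ((range l).filter (fun n : ℕ => (l : ℤ) ∣ sys B P h i n)).card
            ≤ ∑ _i : Fin (k + 1), A := by
              refine Finset.sum_le_sum fun i _ => ?_
              refine Fin.cases ?_ (fun i => ?_) i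
              · have h1 := t1_roots B l hl (hlc B (by rw [hB.deg]) hB.lc)
                rw [hB.deg] at h1
                exact h1.trans hA
              · have h2 : ((P i) + C (h i : ℤ)).natDegree = (P i).natDegree := natDegree_add_C
                have h3 : ((P i) + C (h i : ℤ)).leadingCoeff = (P i).leadingCoeff := by
                  have h5 := hP.deg i
                  rw [leadingCoeff, h2, coeff_add, coeff_C, if_neg (by omega), add_zero, leadingCoeff]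
                have h4 := t1_roots ((P i) + C (h i : ℤ)) l hl
                  (hlc _ (by rw [h2]; exact hP.deg i) (by rw [h3]; exact hP.lc i))
                rw [h2] at h4
                refine (le_of_eq ?_).trans (h4.trans (hP.degA i))
                congr 1
                refine Finset.filter_congr fun n _ => ?_
                rw [eval_add, eval_C]
                rfl
          _ = (k + 1) * A := by
              rw [Finset.sum_const, card_univ, Fintype.card_fin, smul_eq_mul]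
      have hcov : l ≤ good.card + bad.card := by
        have h1 : range l ⊆ good ∪ bad := by
          intro n hn
          by_cases h2 : ∀ i, ¬ (l : ℤ) ∣ sys B P h i n
          · exact mem_union_left _ (mem_filter.2 ⟨hn, h2⟩)
          · push Not at h2
            obtain ⟨i, hi⟩ := h2
            exact mem_union_right _ (mem_biUnion.2 ⟨i, mem_univ i, mem_filter.2 ⟨hn, hi⟩⟩)
        have h2 := (card_le_card h1).trans (card_union_le _ _)
        rwa [card_range] at h2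
      have h3 : (l : ℝ) ≤ good.card + (k + 1) * A := by
        have h4 : l ≤ good.card + (k + 1) * A := by omega
        exact_mod_cast h4
      have h5 := T1_count l hl (sys B P h)
      rw [← hgood] at h5
      have h6 : (1 : ℝ) ≤ ((l : ℝ) / (l - 1)) ^ (k + 1) := one_le_pow₀ (M3a_ratio l hl)
      have h7 : (0 : ℝ) ≤ (good.card : ℝ) / l := by positivity
      have h8 : (good.card : ℝ) / l * 1 ≤ (good.card : ℝ) / l * ((l : ℝ) / (l - 1)) ^ (k + 1) :=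
        mul_le_mul_of_nonneg_left h6 h7
      have h9 : 1 - (k + 1) * A / (l : ℝ) ≤ (good.card : ℝ) / l := by
        rw [le_div_iff₀ hl0]
        have h10 : (1 - (k + 1) * A / (l : ℝ)) * l = l - (k + 1) * A := by field_simp
        rw [h10]
        linarith
      have h11 : (0 : ℝ) ≤ 2 * 2 ^ (k + 1) * A / (l : ℝ) := by positivity
      rw [add_div]
      linarith
    · -- upper bound
      have h1 : (l : ℝ) / (l - 1) = 1 + 1 / ((l : ℝ) - 1) := by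
        field_simp
        ring
      have h2 : 1 / ((l : ℝ) - 1) ≤ 1 := by
        rw [div_le_one hl1]
        linarith
      have h3 := t1_pow (k + 1) (1 / ((l : ℝ) - 1)) (by positivity) h2
      rw [← h1] at h3
      have h4 : 1 / ((l : ℝ) - 1) ≤ 2 / l := by
        rw [div_le_div_iff₀ hl1 hl0]
        linarith
      have h5 : ((2 : ℝ) ^ (k + 1) - 1) * (1 / ((l : ℝ) - 1)) ≤ 2 ^ (k + 1) * (2 / l) := by
        refine mul_le_mul (by linarith) h4 (by positivity) (by linarith)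
      have h6 : (2 : ℝ) ^ (k + 1) * (2 / l) ≤ (2 * 2 ^ (k + 1) * A + (k + 1) * A) / l := by
        rw [← mul_div_assoc]
        refine div_le_div_of_nonneg_right ?_ hl0.le
        have h7 : (2 * 2 ^ (k + 1) : ℝ) * 1 ≤ 2 * 2 ^ (k + 1) * A :=
          mul_le_mul_of_nonneg_left hA1 (by positivity)
        linarith
      linarith

/-- Without fixed divisor. Proof. Some `n`, which may be reduced modulo `l` (`P2_sys`-type periodicity, i.e.
`Polynomial.sub_dvd_eval_sub`), is counted in `T1_count`; `(l/(l-1))^k ≥ 1`. -/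
theorem T1_low {k : ℕ} (B : ℤ[X]) (P : Fin k → ℤ[X]) (h : Fin k → ℕ) (hN : NoFix (sys B P h)) (l : ℕ)
    (hl : l.Prime) : 1 / (l : ℝ) ≤ 1 + tpf l (sys B P h) := by
  classical
  have hl2 : (2 : ℝ) ≤ l := by exact_mod_cast hl.two_le
  have hl0 : (0 : ℝ) < l := by linarith
  have hlz : (0 : ℤ) < l := by exact_mod_cast hl.pos
  obtain ⟨n, hn⟩ := hN l hl
  set n' : ℕ := (n % l).toNat with hn'
  have h1 : (n' : ℤ) = n % l := Int.toNat_of_nonneg (Int.emod_nonneg _ hlz.ne')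
  have h2 : n' < l := by
    have := Int.emod_lt_of_pos n hlz
    omega
  have h3 : n' ∈ (range l).filter (fun n : ℕ => ∀ i, ¬ (l : ℤ) ∣ sys B P h i n) := by
    refine mem_filter.2 ⟨mem_range.2 h2, fun i hi => hn i ?_⟩
    have h4 := P2_sys B P h i (l * (n / l)) (n' : ℤ)
    have h5 : (n' : ℤ) + l * (n / l) = n := by
      rw [h1]
      exact Int.emod_add_mul_ediv n l
    rw [h5] at h4
    have h6 : (l : ℤ) ∣ sys B P h i n - sys B P h i n' := (Dvd.intro _ rfl).trans h4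
    exact (dvd_sub_left hi).1 h6
  rw [T1_count l hl]
  have h4 : (1 : ℝ) ≤ (((range l).filter (fun n : ℕ => ∀ i, ¬ (l : ℤ) ∣ sys B P h i n)).card : ℝ) := by
    exact_mod_cast Finset.card_pos.2 ⟨n', h3⟩
  have h5 : (1 : ℝ) ≤ ((l : ℝ) / (l - 1)) ^ (k + 1) := one_le_pow₀ (M3a_ratio l hl)
  calc 1 / (l : ℝ) = 1 / (l : ℝ) * 1 := (mul_one _).symm
    _ ≤ _ := mul_le_mul (div_le_div_of_nonneg_right h4 hl0.le) h5 (by norm_num) (by positivity)

end Pool.Agent.Lib.H24P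
end

-- from Lib.H24P.X2
section

/-!
# Project H24P, chunk X2 (M): lower bound for the singular series
-/

open Finset Polynomial

namespace Pool.Agent.Lib.H24P

open Pool.Agent.Lib.H68T Pool.Agent.Lib.H18Q Pool.Agent.Lib.H59P

theorem x2_exp (x : ℝ) (hx0 : 0 ≤ x) (hx : x ≤ 1 / 2) : Real.exp (-(2 * x)) ≤ 1 - x := by
  have h1 : 0 < 1 - x := by linarith
  have h2 : 1 + 2 * x ≤ Real.exp (2 * x) := by linarith [Real.add_one_le_exp (2 * x)]
  have h3 : 1 ≤ (1 - x) * (1 + 2 * x) := by nlinarith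
  rw [Real.exp_neg, inv_le_comm₀ (Real.exp_pos _) h1]
  refine le_trans ?_ h2
  rw [inv_le_iff_one_le_mul₀ h1]
  linarith [mul_comm (1 - x) (1 + 2 * x)]

theorem x2_sum (Q : ℕ) (hQ : 2 ≤ Q) (P' : Finset ℕ) (hP' : P' ⊆ pr Q) :
    Real.exp (∑ l ∈ P', 1 / (l : ℝ)) ≤ 500 * (1 + Real.log Q) := by
  have hsub : P' ⊆ Pool.Agent.Lib.Sieve.primesUpTo Q := by
    intro l hl
    have h1 := hP' hl
    unfold pr at h1
    rw [mem_filter, mem_Icc] at h1
    unfold Pool.Agent.Lib.Sieve.primesUpTo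
    rw [mem_filter, mem_range]
    exact ⟨Nat.lt_succ_of_le h1.1.2, h1.2⟩
  have h1 : ∑ l ∈ P', 1 / (l : ℝ) ≤ ∑ l ∈ Pool.Agent.Lib.Sieve.primesUpTo Q, 1 / (l : ℝ) :=
    Finset.sum_le_sum_of_subset_of_nonneg hsub fun _ _ _ => by positivity
  have h2 : Real.exp (∑ l ∈ Pool.Agent.Lib.Sieve.primesUpTo Q, 1 / (l : ℝ)) ≤
      ∏ l ∈ Pool.Agent.Lib.Sieve.primesUpTo Q, (1 - 1 / (l : ℝ))⁻¹ := by
    rw [Real.exp_sum]
    apply Finset.prod_le_prod
    · intro l _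
      exact (Real.exp_pos _).le
    · intro l hl
      unfold Pool.Agent.Lib.Sieve.primesUpTo at hl
      rw [mem_filter] at hl
      have h3 : (2 : ℝ) ≤ l := by exact_mod_cast hl.2.two_le
      have h4 : 1 / (l : ℝ) ≤ 1 / 2 := one_div_le_one_div_of_le (by norm_num) h3
      have h5 : 0 < 1 - 1 / (l : ℝ) := by linarith
      have h6 := Real.add_one_le_exp (-(1 / (l : ℝ)))
      rw [le_inv_comm₀ (Real.exp_pos _) h5, ← Real.exp_neg]
      linarith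
  have h3 := Pool.Agent.Lib.Helper57.prod_one_sub_inv_inv_le Q hQ
  refine (Real.exp_le_exp.2 h1).trans (h2.trans (h3.trans ?_))
  linarith

/-- Proof. `|tpf| ≤ C1/l` (`T1_abs`). For `l > 2 C1`: `1 + tpf ≥ 1 - C1/l ≥ exp(-2 C1/l)`; for `l ≤ 2 C1`:
`1 + tpf ≥ 1/l ≥ 1/(2 C1)` (`T1_low`), and there are at most `2 C1` such primes. `exp(∑_{l ≤ Q} 1/l) ≤ ∏ (1 - 1/l)⁻¹ ≤ 500 log Q`
(`Helper57.prod_one_sub_inv_inv_le`; all primes in `P'` are `≤ Q`). So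
`SSf ≥ (2 C1)^(-2 C1) (500 log Q)^(-2 C1)`. -/
theorem X2_low (k A : ℕ) (hA : 1 ≤ A) : ∃ C c : ℝ, 1 ≤ C ∧ 0 < c ∧ ∀ B : ℤ[X], Lin A B →
    ∀ P : Fin k → ℤ[X], Pol A P → ∀ h : Fin k → ℕ, NoFix (sys B P h) → ∀ Q : ℕ, 2 ≤ Q →
    ∀ P' : Finset ℕ, P' ⊆ pr Q → c * (1 + Real.log Q) ^ (-C) ≤ SSf P' (sys B P h) := by
  classical
  obtain ⟨C1, hC1, hT⟩ := T1_abs k A hA
  obtain ⟨N, hN⟩ : ∃ N, N = ⌊2 * C1⌋₊ := ⟨_, rfl⟩
  have hC0 : 0 < 2 * C1 := by linarith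
  refine ⟨2 * C1, (1 / (2 * C1)) ^ N * 500 ^ (-(2 * C1)), by linarith, by positivity, ?_⟩
  intro B hB P hP h hNF Q hQ P' hP'
  have hQ1 : (1 : ℝ) ≤ Q := by exact_mod_cast (by omega : 1 ≤ Q)
  have hlog : 0 ≤ Real.log Q := Real.log_nonneg hQ1
  have hprime : ∀ l ∈ P', l.Prime := by
    intro l hl
    have h1 := hP' hl
    unfold pr at h1
    exact (mem_filter.1 h1).2
  have hfl : ∀ l ∈ P', (if l ≤ N then 1 / (2 * C1) else 1) * Real.exp (-(2 * C1 * (1 / (l : ℝ)))) ≤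
      1 + tpf l (sys B P h) := by
    intro l hl
    have hlp := hprime l hl
    have hl0 : (0 : ℝ) < l := by exact_mod_cast hlp.pos
    split_ifs with h1
    · have h2 := T1_low B P h hNF l hlp
      have h3 : (l : ℝ) ≤ 2 * C1 := by
        have h4 : (l : ℝ) ≤ (N : ℝ) := Nat.cast_le.2 h1
        refine h4.trans ?_
        rw [hN]
        exact Nat.floor_le hC0.le
      have h4 : 1 / (2 * C1) ≤ 1 / (l : ℝ) := one_div_le_one_div_of_le hl0 h3
      have h5 : Real.exp (-(2 * C1 * (1 / (l : ℝ)))) ≤ 1 := by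
        rw [Real.exp_le_one_iff]
        have : 0 ≤ 2 * C1 * (1 / (l : ℝ)) := by positivity
        linarith
      have h6 : 0 ≤ 1 / (2 * C1) := by positivity
      exact (mul_le_of_le_one_right h6 h5).trans (h4.trans h2)
    · have h2 : 2 * C1 < l := by
        rw [not_le, hN] at h1
        exact (Nat.floor_lt hC0.le).1 h1
      have h3 := (abs_le.1 (hT B hB P hP h l hlp)).1
      have h4 : C1 / (l : ℝ) ≤ 1 / 2 := by
        rw [div_le_iff₀ hl0]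
        linarith
      have h5 := x2_exp (C1 / l) (by positivity) h4
      rw [one_mul]
      have e : 2 * C1 * (1 / (l : ℝ)) = 2 * (C1 / l) := by ring
      rw [e]
      linarith
  have hnn : ∀ l ∈ P', 0 ≤ (if l ≤ N then 1 / (2 * C1) else 1) * Real.exp (-(2 * C1 * (1 / (l : ℝ)))) := by
    intro l _
    apply mul_nonneg _ (Real.exp_pos _).le
    split_ifs
    · positivity
    · exact zero_le_one
  have h1 := Finset.prod_le_prod hnn hfl
  unfold SSf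
  refine le_trans ?_ h1
  rw [Finset.prod_mul_distrib, ← Real.exp_sum, mul_assoc]
  have hA1 : (1 / (2 * C1)) ^ N ≤ ∏ l ∈ P', (if l ≤ N then 1 / (2 * C1) else (1 : ℝ)) := by
    rw [Finset.prod_ite, Finset.prod_const, Finset.prod_const_one, mul_one]
    apply pow_le_pow_of_le_one (by positivity)
    · rw [div_le_one hC0]
      linarith
    · have hsub : P'.filter (fun l => l ≤ N) ⊆ Icc 1 N := by
        intro l hl
        rw [mem_filter] at hl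
        exact mem_Icc.2 ⟨(hprime l hl.1).one_lt.le, hl.2⟩
      have := Finset.card_le_card hsub
      rwa [Nat.card_Icc, Nat.add_sub_cancel] at this
  have hA2 : (500 : ℝ) ^ (-(2 * C1)) * (1 + Real.log Q) ^ (-(2 * C1)) ≤
      Real.exp (∑ l ∈ P', -(2 * C1 * (1 / (l : ℝ)))) := by
    rw [← Real.mul_rpow (by norm_num) (by linarith)]
    have h2 := x2_sum Q hQ P' hP'
    have e : ∑ l ∈ P', -(2 * C1 * (1 / (l : ℝ))) = (∑ l ∈ P', 1 / (l : ℝ)) * (-(2 * C1)) := by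
      rw [Finset.sum_mul]
      exact Finset.sum_congr rfl fun l _ => by ring
    rw [e, Real.exp_mul]
    exact Real.rpow_le_rpow_of_nonpos (Real.exp_pos _) h2 (by linarith)
  refine mul_le_mul hA1 hA2 (by positivity) ?_
  exact Finset.prod_nonneg fun l _ => by
    split_ifs
    · positivity
    · exact zero_le_one

end Pool.Agent.Lib.H24P
end

-- from Lib.H24P.T2
section

/-!
# Project H24P, chunk T2 (M): the twisted sums as means over a complete period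
-/

open Finset Polynomial

namespace Pool.Agent.Lib.H24P

open Pool.Agent.Lib.H68T Pool.Agent.Lib.H18Q Pool.Agent.Lib.H59P

theorem t2_eval (B : ℤ[X]) (hB : B.natDegree = 1) (x : ℤ) :
    B.eval x = B.coeff 0 + B.leadingCoeff * x := by
  rw [eval_eq_sum_range, hB, Finset.sum_range_succ, Finset.sum_range_one, leadingCoeff, hB]
  ring

theorem t2_not (B : ℤ[X]) (l : ℕ) (h : ¬ l ∣ B.leadingCoeff.natAbs) : ¬ (l : ℤ) ∣ B.leadingCoeff :=
  fun hd => h (Int.natCast_dvd.1 hd)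

/-- One prime. -/
theorem t2_one (B : ℤ[X]) (hB : B.natDegree = 1) (l : ℕ) (hl : l.Prime)
    (h : ¬ l ∣ B.leadingCoeff.natAbs) :
    ∑ n ∈ range l, (1 + gl l (B.eval (n : ℤ))) = l := by
  have h1 := b1_lin l hl B.leadingCoeff (B.coeff 0) (t2_not B l h)
  refine (Finset.sum_congr rfl fun n _ => ?_).trans h1
  rw [t2_eval B hB]

/-- Proof. Induction over `S` (`Finset.induction_on`) with `M3d` of `H59P` (the moduli `l` and `∏_{S'} l` are coprime; `uu` is a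
product, `gl_per`); for a prime `l ∤ lc B` the values `B(n)`, `n < l`, run through all classes modulo `l`, so
`∑_{n<l} (1 + gl l (B n)) = (l-1) l/(l-1) = l` and `∑_{n<l} (1 + gl l (B n))² = l²/(l-1)`. -/
theorem T2_unit (B : ℤ[X]) (hB : B.natDegree = 1) (S : Finset ℕ)
    (hS : ∀ l ∈ S, l.Prime ∧ ¬ l ∣ B.leadingCoeff.natAbs) :
    ∑ n ∈ range (∏ l ∈ S, l), uu S (B.eval (n : ℤ)) = ((∏ l ∈ S, l : ℕ) : ℝ) ∧
    ∑ n ∈ range (∏ l ∈ S, l), (uu S (B.eval (n : ℤ))) ^ 2 =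
      ((∏ l ∈ S, l : ℕ) : ℝ) * ∏ l ∈ S, ((l : ℝ) / ((l : ℝ) - 1)) := by
  have hper : ∀ l : ℕ, ∀ n : ℤ, gl l (B.eval (n + l)) = gl l (B.eval n) := by
    intro l n
    rw [t2_eval B hB, t2_eval B hB]
    have h1 : B.coeff 0 + B.leadingCoeff * (n + l) =
        (B.coeff 0 + B.leadingCoeff * n) + B.leadingCoeff * l := by ring
    rw [h1, gl_per]
  constructor
  · have h1 := b1_set (fun l n => 1 + gl l (B.eval n)) (fun l n => by rw [hper]) S
      (fun l hl => (hS l hl).1)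
    unfold uu
    rw [h1, Nat.cast_prod]
    exact Finset.prod_congr rfl fun l hl => t2_one B hB l (hS l hl).1 (hS l hl).2
  · have h1 := b1_set (fun l n => (1 + gl l (B.eval n)) ^ 2) (fun l n => by rw [hper]) S
      (fun l hl => (hS l hl).1)
    unfold uu
    have h2 : ∀ n ∈ range (∏ l ∈ S, l), (∏ l ∈ S, (1 + gl l (B.eval (n : ℤ)))) ^ 2 =
        ∏ l ∈ S, (1 + gl l (B.eval (n : ℤ))) ^ 2 := fun n _ => (Finset.prod_pow _ _ _).symm
    rw [Finset.sum_congr rfl h2, h1, Nat.cast_prod, ← Finset.prod_mul_distrib]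
    refine Finset.prod_congr rfl fun l hl => ?_
    obtain ⟨hlp, hlB⟩ := hS l hl
    have hl1 : (1 : ℝ) < l := by exact_mod_cast hlp.one_lt
    have hl2 : (l : ℝ) - 1 ≠ 0 := by linarith
    have h3 : ∀ m : ℤ, (1 + gl l m) ^ 2 = (1 + gl l m) * ((l : ℝ) / ((l : ℝ) - 1)) := by
      intro m
      unfold gl
      split_ifs
      · ring
      · have h4 : 1 + 1 / ((l : ℝ) - 1) = (l : ℝ) / ((l : ℝ) - 1) := by
          field_simp
          ring
        rw [h4]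
        ring
    simp only [h3]
    rw [← Finset.sum_mul, t2_one B hB l hlp hlB]

/-- Proof. `uu S = uu D uu (S \ D)`; the first factor times `Wdf` has period `∏ D` (`P2_Wd`, `P2_ran`), sum
`(∏ D) tdf` by `B1_mean` (`d = ∏ D` is squarefree with prime factors `D`: `Nat.primeFactors_prod`), the second has period
`∏ (S \ D)` and sum `∏ (S \ D)` (`T2_unit`): `M3d`. -/
theorem T2_mean {k : ℕ} (B : ℤ[X]) (hB : B.natDegree = 1) (P : Fin k → ℤ[X]) (h : Fin k → ℕ)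
    (S D : Finset ℕ) (hS : ∀ l ∈ S, l.Prime ∧ ¬ l ∣ B.leadingCoeff.natAbs) (hD : D ⊆ S) :
    ∑ n ∈ range (∏ l ∈ S, l), uu S (B.eval (n : ℤ)) * Wdf (∏ l ∈ D, l) (at' (ran P h) n) =
      ((∏ l ∈ S, l : ℕ) : ℝ) * tdf (∏ l ∈ D, l) (sys B P h) := by
  classical
  have hDp : (∏ l ∈ D, l).primeFactors = D := Nat.primeFactors_prod fun l hl => (hS l (hD hl)).1
  have hper : ∀ l : ℕ, ∀ n : ℤ, gl l (B.eval (n + l)) = gl l (B.eval n) := by
    intro l n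
    rw [t2_eval B hB, t2_eval B hB]
    have h1 : B.coeff 0 + B.leadingCoeff * (n + l) =
        (B.coeff 0 + B.leadingCoeff * n) + B.leadingCoeff * l := by ring
    rw [h1, gl_per]
  have hperW : ∀ l : ℕ, ∀ n : ℤ, Wf l (at' (ran P h) (n + l)) = Wf l (at' (ran P h) n) := by
    intro l n
    unfold Wf
    congr 1
    refine Finset.prod_congr rfl fun i _ => ?_
    congr 1
    exact P2_gl (ran P h) (P2_ran P h) l l dvd_rfl i n
  -- one prime
  have hone : ∀ l ∈ S, ∑ n ∈ range l, (1 + gl l (B.eval (n : ℤ))) * Wf l (at' (ran P h) n) =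
      l * tpf l (sys B P h) := by
    intro l hl
    obtain ⟨hlp, hlB⟩ := hS l hl
    have h1 := B1_mean B hB P h l hlp.prime.squarefree ((Nat.Prime.coprime_iff_not_dvd hlp).2 hlB)
    have h2 : l.primeFactors = {l} := hlp.primeFactors
    unfold Wdf tdf uu at h1
    rw [h2] at h1
    simp only [Finset.prod_singleton] at h1
    exact h1
  set F : ℕ → ℤ → ℝ := fun l n =>
    (1 + gl l (B.eval n)) * (if l ∈ D then Wf l (at' (ran P h) n) else 1) with hF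
  have h1 := b1_set F (fun l n => by
    rw [hF]
    simp only
    rw [hper, hperW]) S (fun l hl => (hS l hl).1)
  have h2 : ∀ n ∈ range (∏ l ∈ S, l), uu S (B.eval (n : ℤ)) * Wdf (∏ l ∈ D, l) (at' (ran P h) n) =
      ∏ l ∈ S, F l n := by
    intro n _
    unfold uu Wdf
    rw [hDp, hF]
    simp only
    rw [Finset.prod_mul_distrib]
    congr 1
    rw [Finset.prod_ite_mem, Finset.inter_eq_right.2 hD]
  rw [Finset.sum_congr rfl h2, h1]
  have h3 : ∀ l ∈ S, ∑ n ∈ range l, F l n = (l : ℝ) * (if l ∈ D then tpf l (sys B P h) else 1) := by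
    intro l hl
    rw [hF]
    simp only
    split_ifs
    · exact hone l hl
    · simp only [mul_one]
      exact t2_one B hB l (hS l hl).1 (hS l hl).2
  rw [Finset.prod_congr rfl h3, Finset.prod_mul_distrib, Nat.cast_prod]
  congr 1
  unfold tdf
  rw [hDp, Finset.prod_ite_mem, Finset.inter_eq_right.2 hD]

/-- `j` periods. -/
theorem t2_per (f : ℤ → ℂ) (N : ℕ) (hf : ∀ m, f (m + N) = f m) (j : ℕ) :
    ∑ n ∈ Ico 0 (0 + N * j), f ((n : ℕ) : ℤ) = j * ∑ n ∈ range N, f n := by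
  rw [zero_add, ← Finset.range_eq_Ico]
  induction j with
  | zero => simp
  | succ j ih =>
    rw [mul_add, mul_one, Finset.sum_range_add, ih]
    have h1 : ∀ n ∈ range N, f (((N * j + n : ℕ)) : ℤ) = f n := by
      intro n _
      have h2 := m3c_per f N hf j (n : ℤ)
      rw [← h2]
      congr 1
      push_cast
      ring
    rw [Finset.sum_congr rfl h1]
    push_cast
    ring

/-- The components of the trivial character. -/
theorem t2_comp {k : ℕ} (Z : ℕ) (Δ : Finset ℕ) (hΔ : ∀ d ∈ Δ, Squarefree d ∧ d ≤ Z)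
    (m : Fin k → ℤ) :
    ∑ κ ∈ (Fintype.piFinset fun _ : Fin k => KS Z 1).filter (fun κ => univ.lcm κ ∈ Δ),
      ∏ i, gk p0 (κ i) (m i) = ((∑ d ∈ Δ, Wdf d m : ℝ) : ℂ) := by
  classical
  have h0 : ∑ κ ∈ (Fintype.piFinset fun _ : Fin k => KS Z 1).filter (fun κ => univ.lcm κ ∈ Δ),
      ∏ i, gk p0 (κ i) (m i) = ∑ d ∈ Δ, ∑ κ ∈ ((Fintype.piFinset fun _ : Fin k => KS Z 1).filter
        (fun κ => univ.lcm κ ∈ Δ)).filter (fun κ => univ.lcm κ = d), ∏ i, gk p0 (κ i) (m i) :=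
    (Finset.sum_fiberwise_of_maps_to (fun κ hκ => (mem_filter.1 hκ).2) _).symm
  rw [h0, Complex.ofReal_sum]
  refine Finset.sum_congr rfl fun d hd => ?_
  obtain ⟨hsq, hdZ⟩ := hΔ d hd
  rw [← P1_Wd d hsq m]
  refine Finset.sum_congr ?_ fun _ _ => rfl
  ext κ
  simp only [mem_filter, Fintype.mem_piFinset]
  constructor
  · rintro ⟨⟨h1, h2⟩, h3⟩
    refine ⟨fun i => ?_, h3⟩
    rw [Nat.mem_divisors]
    exact ⟨h3 ▸ Finset.dvd_lcm (mem_univ i), hsq.ne_zero⟩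
  · rintro ⟨h1, h2⟩
    refine ⟨⟨fun i => ?_, h2 ▸ hd⟩, h2⟩
    have h3 := Nat.dvd_of_mem_divisors (h1 i)
    rw [CA_mem_KS, Nat.div_one]
    exact ⟨⟨Nat.pos_of_dvd_of_pos h3 (Nat.pos_of_ne_zero hsq.ne_zero),
      (Nat.le_of_dvd (Nat.pos_of_ne_zero hsq.ne_zero) h3).trans hdZ⟩, hsq.squarefree_of_dvd h3,
      Nat.coprime_one_right _⟩

/-- The sum over `Δ` as a mean over `N = j ∏ S`. Proof. `P1_Wd` for each `d ∈ Δ` (`∏ p0`-components; for `κ` with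
`lcm κ = d`, `d` squarefree, `d ≤ Z`: `κ_i ∣ d` iff `κ_i ∈ KS Z 1` given the lcm; `KS Z 1` = squarefree numbers up to `Z`)
gives `∑_{κ ∈ T} ∏ gk p0 (κ i) (m i) = ∑_{d ∈ Δ} Wdf d m`; `T2_mean` with `D = d.primeFactors`; `j` full periods
(`m3c_start` of `H59P`, or induction on `j`). -/
theorem T2_iden {k : ℕ} (B : ℤ[X]) (hB : B.natDegree = 1) (P : Fin k → ℤ[X]) (h : Fin k → ℕ)
    (S : Finset ℕ) (hS : ∀ l ∈ S, l.Prime ∧ ¬ l ∣ B.leadingCoeff.natAbs) (Z j : ℕ) (hj : 1 ≤ j)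
    (Δ : Finset ℕ) (hΔ : ∀ d ∈ Δ, Squarefree d ∧ d ≤ Z ∧ d.primeFactors ⊆ S) :
    ∑ n ∈ Ico 0 (0 + (∏ l ∈ S, l) * j), ((uu S (B.eval (n : ℤ)) : ℝ) : ℂ) *
        ∑ κ ∈ (Fintype.piFinset fun _ : Fin k => KS Z 1).filter (fun κ => univ.lcm κ ∈ Δ),
          ∏ i, gk p0 (κ i) ((P i).eval (n : ℤ) + h i) =
      (((∏ l ∈ S, l) * j : ℕ) : ℂ) * ((∑ d ∈ Δ, tdf d (sys B P h) : ℝ) : ℂ) := by
  classical
  set N : ℕ := ∏ l ∈ S, l with hN
  have hdvd : ∀ l ∈ S, l ∣ N := fun l hl => Finset.dvd_prod_of_mem (fun l => l) hl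
  have hprod : ∀ d ∈ Δ, ∏ l ∈ d.primeFactors, l = d := fun d hd =>
    Nat.prod_primeFactors_of_squarefree (hΔ d hd).1
  have hdN : ∀ d ∈ Δ, d ∣ N := by
    intro d hd
    rw [← hprod d hd, hN]
    exact Finset.prod_dvd_prod_of_subset _ _ _ (hΔ d hd).2.2
  set f : ℤ → ℂ := fun n => ((uu S (B.eval n) * ∑ d ∈ Δ, Wdf d (at' (ran P h) n) : ℝ) : ℂ) with hf
  have hper : ∀ n : ℤ, f (n + N) = f n := by
    intro n
    rw [hf]
    simp only
    congr 2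
    · unfold uu
      refine Finset.prod_congr rfl fun l hl => ?_
      congr 1
      rw [t2_eval B hB, t2_eval B hB]
      obtain ⟨c, hc⟩ := hdvd l hl
      have h1 : B.coeff 0 + B.leadingCoeff * (n + (N : ℤ)) =
          (B.coeff 0 + B.leadingCoeff * n) + (B.leadingCoeff * c) * l := by
        rw [hc]
        push_cast
        ring
      rw [h1, gl_per]
    · refine Finset.sum_congr rfl fun d hd => ?_
      exact P2_Wd (ran P h) (P2_ran P h) d N (hdN d hd) n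
  have h1 : ∀ n ∈ Ico 0 (0 + N * j), ((uu S (B.eval (n : ℤ)) : ℝ) : ℂ) *
        ∑ κ ∈ (Fintype.piFinset fun _ : Fin k => KS Z 1).filter (fun κ => univ.lcm κ ∈ Δ),
          ∏ i, gk p0 (κ i) ((P i).eval (n : ℤ) + h i) = f ((n : ℕ) : ℤ) := by
    intro n _
    have h2 := t2_comp Z Δ (fun d hd => ⟨(hΔ d hd).1, (hΔ d hd).2.1⟩) (at' (ran P h) (n : ℤ))
    have h3 : ∑ κ ∈ (Fintype.piFinset fun _ : Fin k => KS Z 1).filter (fun κ => univ.lcm κ ∈ Δ),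
          ∏ i, gk p0 (κ i) ((P i).eval (n : ℤ) + h i) =
        ((∑ d ∈ Δ, Wdf d (at' (ran P h) (n : ℤ)) : ℝ) : ℂ) := h2
    rw [h3, hf]
    simp only
    rw [Complex.ofReal_mul]
  rw [Finset.sum_congr rfl h1, t2_per f N hper j]
  have h4 : ∑ n ∈ range N, f n = ((N * ∑ d ∈ Δ, tdf d (sys B P h) : ℝ) : ℂ) := by
    rw [hf]
    simp only
    rw [← Complex.ofReal_sum]
    congr 1
    simp only [Finset.mul_sum]
    rw [Finset.sum_comm]
    refine Finset.sum_congr rfl fun d hd => ?_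
    have h5 := T2_mean B hB P h S d.primeFactors hS (hΔ d hd).2.2
    rw [hprod d hd] at h5
    exact h5
  rw [h4]
  push_cast
  ring

end Pool.Agent.Lib.H24P
end

-- from Lib.H24P.T3
section

/-!
# Project H24P, chunk T3 (M): mean square of the twisted sums
-/

open Finset Polynomial

namespace Pool.Agent.Lib.H24P

open Pool.Agent.Lib.H68T Pool.Agent.Lib.H18Q Pool.Agent.Lib.H59P

theorem t3_per (B : ℤ[X]) (S : Finset ℕ) (v t : ℕ) :
    uu S (B.eval (((t * (∏ l ∈ S, l) + v : ℕ)) : ℤ)) = uu S (B.eval (v : ℤ)) := by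
  unfold uu
  refine prod_congr rfl fun l hl => ?_
  congr 1
  have h1 : (l : ℤ) ∣ ((∏ l ∈ S, l : ℕ) : ℤ) := by
    exact_mod_cast dvd_prod_of_mem (fun l : ℕ => l) hl
  have h2 := Polynomial.sub_dvd_eval_sub (((t * (∏ l ∈ S, l) + v : ℕ)) : ℤ) (v : ℤ) B
  have h3 : ((((t * (∏ l ∈ S, l) + v : ℕ)) : ℤ) - (v : ℤ)) = ((∏ l ∈ S, l : ℕ) : ℤ) * t := by
    push_cast
    ring
  rw [h3] at h2
  obtain ⟨c, hc⟩ := (h1.mul_right _).trans h2
  have h4 : B.eval (((t * (∏ l ∈ S, l) + v : ℕ)) : ℤ) = B.eval (v : ℤ) + c * l := by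
    linarith
  rw [h4, gl_per]

/-- the mean square of the weight -/
theorem t3_sq (B : ℤ[X]) (hB : B.natDegree = 1) (Q : ℕ) (hQ : 2 ≤ Q) (j : ℕ) (S : Finset ℕ)
    (hS : ∀ l ∈ S, l.Prime ∧ l ≤ Q ∧ ¬ l ∣ B.leadingCoeff.natAbs) :
    ∑ n ∈ Ico 0 (0 + (∏ l ∈ S, l) * j), ‖((uu S (B.eval (n : ℤ)) : ℝ) : ℂ)‖ ^ 2 ≤
      (((∏ l ∈ S, l) * j : ℕ) : ℝ) * (500 * Real.log Q) := by
  have h1 : ∀ n ∈ Ico 0 (0 + (∏ l ∈ S, l) * j), ‖((uu S (B.eval (n : ℤ)) : ℝ) : ℂ)‖ ^ 2 =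
      (uu S (B.eval (n : ℤ))) ^ 2 := by
    intro n _
    rw [Complex.norm_real, Real.norm_eq_abs, sq_abs]
  rw [sum_congr rfl h1, zero_add, ← range_eq_Ico, mul_comm (∏ l ∈ S, l) j]
  have h2 : ∀ q N : ℕ, ∀ f : ℕ → ℝ,
      ∑ n ∈ range (q * N), f n = ∑ t ∈ range q, ∑ v ∈ range N, f (t * N + v) := by
    intro q N f
    induction q with
    | zero => simp
    | succ q ih => rw [Nat.succ_mul, sum_range_add, ih, sum_range_succ]
  rw [h2]
  have h3 := (T2_unit B hB S fun l hl => ⟨(hS l hl).1, (hS l hl).2.2⟩).2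
  have h4 : ∀ t ∈ range j, ∑ v ∈ range (∏ l ∈ S, l),
      (uu S (B.eval (((t * (∏ l ∈ S, l) + v : ℕ)) : ℤ))) ^ 2 =
      ((∏ l ∈ S, l : ℕ) : ℝ) * ∏ l ∈ S, ((l : ℝ) / ((l : ℝ) - 1)) := by
    intro t _
    rw [← h3]
    exact sum_congr rfl fun v _ => by rw [t3_per]
  rw [sum_congr rfl h4, sum_const, card_range, nsmul_eq_mul]
  have h5 : ∏ l ∈ S, ((l : ℝ) / ((l : ℝ) - 1)) ≤ 500 * Real.log Q := by
    have h6 : ∀ l : ℕ, l.Prime → ((l : ℝ) / ((l : ℝ) - 1)) = (1 - 1 / (l : ℝ))⁻¹ ∧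
        1 ≤ (1 - 1 / (l : ℝ))⁻¹ := by
      intro l hl
      have h7 : (2 : ℝ) ≤ l := by exact_mod_cast hl.two_le
      have h8 : (0 : ℝ) < (l : ℝ) - 1 := by linarith
      have h9 : ((l : ℝ) / ((l : ℝ) - 1)) = (1 - 1 / (l : ℝ))⁻¹ := by
        field_simp
      refine ⟨h9, ?_⟩
      rw [← h9, le_div_iff₀ h8]
      linarith
    have h10 : S ⊆ Pool.Agent.Lib.Sieve.primesUpTo Q := fun l hl =>
      Pool.Agent.Lib.Sieve.mem_primesUpTo.mpr ⟨(hS l hl).1, (hS l hl).2.1⟩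
    rw [prod_congr rfl fun l hl => (h6 l (hS l hl).1).1]
    refine le_trans ?_ (Pool.Agent.Lib.Helper57.prod_one_sub_inv_inv_le Q hQ)
    rw [← prod_sdiff h10]
    have h13 : (1 : ℝ) ≤ ∏ l ∈ Pool.Agent.Lib.Sieve.primesUpTo Q \ S, (1 - 1 / (l : ℝ))⁻¹ := by
      calc (1 : ℝ) = ∏ _l ∈ Pool.Agent.Lib.Sieve.primesUpTo Q \ S, (1 : ℝ) := prod_const_one.symm
        _ ≤ _ := prod_le_prod (fun _ _ => zero_le_one) (fun l hl =>
          (h6 l (Pool.Agent.Lib.Sieve.mem_primesUpTo.mp (mem_sdiff.mp hl).1).1).2)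
    have h14 : (0 : ℝ) ≤ ∏ l ∈ S, (1 - 1 / (l : ℝ))⁻¹ :=
      prod_nonneg fun l hl => zero_le_one.trans (h6 l (hS l hl).1).2
    exact le_mul_of_one_le_left h14 h13
  have h11 : (0 : ℝ) ≤ ((∏ l ∈ S, l : ℕ) : ℝ) := by positivity
  have h12 : (0 : ℝ) ≤ (j : ℝ) := by positivity
  calc (j : ℝ) * (((∏ l ∈ S, l : ℕ) : ℝ) * ∏ l ∈ S, ((l : ℝ) / ((l : ℝ) - 1)))
      ≤ (j : ℝ) * (((∏ l ∈ S, l : ℕ) : ℝ) * (500 * Real.log Q)) := by gcongr
    _ = _ := by push_cast; ring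


end Pool.Agent.Lib.H24P
end

-- from Lib.H24P.W1
section

/-!
# Project H24P, chunk W1 (M): Fourier uniform weights
-/

open Finset Polynomial

namespace Pool.Agent.Lib.H24P

open Pool.Agent.Lib.H68T Pool.Agent.Lib.H18Q Pool.Agent.Lib.H59P

theorem w1_mul (f : ℤ → ℂ) (q : ℕ) (hf : ∀ m, f (m + q) = f m) (m k : ℤ) :
    f (m + k * q) = f m := by
  induction k using Int.induction_on with
  | zero => simp
  | succ i ih =>
    rw [show m + ((i : ℤ) + 1) * q = m + i * q + q by ring, hf, ih]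
  | pred i ih =>
    have := hf (m + (-(i : ℤ) - 1) * q)
    rw [← this, show m + (-(i : ℤ) - 1) * q + q = m + -(i : ℤ) * q by ring, ih]

/-- A weight without correlation with additive characters against a periodic function. Proof. With
`S_c = ∑_n f(n) e(n c/N)`: `∑_{n ≡ m} f(n) = (1/N) ∑_{c<N} e(-c m/N) S_c`, so the sum is
`∑_{m<N} ψ(m) (1/N) ∑_c e(-c m/N) S_c`, at most `N Φ δ`. -/
theorem W1_per (f : ℕ → ℂ) (I : Finset ℕ) (δ : ℝ)
    (hf : ∀ θ : ℝ, ‖∑ n ∈ I, f n * e ((n : ℝ) * θ)‖ ≤ δ) (N : ℕ) (hN : 0 < N) (ψ : ℤ → ℂ)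
    (hψ : ∀ n, ψ (n + N) = ψ n) (Φ : ℝ) (hΦ : ∀ n, ‖ψ n‖ ≤ Φ) :
    ‖∑ n ∈ I, f n * ψ n‖ ≤ N * Φ * δ := by
  have hδ : 0 ≤ δ := (norm_nonneg _).trans (hf 0)
  have hΦ0 : 0 ≤ Φ := (norm_nonneg _).trans (hΦ 0)
  have hNr : (0 : ℝ) < N := by exact_mod_cast hN
  have hNc : (N : ℂ) ≠ 0 := by exact_mod_cast hN.ne'
  have h1 : ∀ n : ℕ, ψ (n : ℤ) = ∑ m ∈ range N, if (N : ℤ) ∣ (n : ℤ) - m then ψ (m : ℤ) else 0 := by
    intro n
    have h2 : ψ (n : ℤ) = ψ ((n % N : ℕ) : ℤ) := by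
      have h3 : (n : ℤ) = ((n % N : ℕ) : ℤ) + ((n / N : ℕ) : ℤ) * N := by
        have h4 := Nat.mod_add_div' n N
        exact_mod_cast h4.symm
      rw [h3]
      exact w1_mul ψ N hψ _ _
    rw [sum_eq_single (n % N)]
    · rw [if_pos, h2]
      have h4 : ((n : ℤ) - ((n % N : ℕ) : ℤ)) = N * ((n / N : ℕ) : ℤ) := by
        have h5 := Nat.mod_add_div n N
        have h6 : ((n % N : ℕ) : ℤ) + N * ((n / N : ℕ) : ℤ) = n := by exact_mod_cast h5
        linarith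
      rw [h4]
      exact dvd_mul_right _ _
    · intro m hm hne
      rw [if_neg]
      intro hd
      apply hne
      have h4 := mem_range.mp hm
      have h5 : m % N = n % N := by
        have h6 : (m : ℤ) ≡ n [ZMOD N] := Int.modEq_iff_dvd.mpr hd
        have h7 : m ≡ n [MOD N] := (Int.natCast_modEq_iff).mp h6
        exact h7
      rw [← h5, Nat.mod_eq_of_lt h4]
    · intro h
      exact absurd (mem_range.mpr (Nat.mod_lt n hN)) h
  have h2 : ∀ n : ℕ, ψ (n : ℤ) = (N : ℂ)⁻¹ * ∑ c ∈ range N,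
      (∑ m ∈ range N, ψ (m : ℤ) * e (-(c * ((m : ℝ) / N)))) * e ((n : ℝ) * (c / N)) := by
    intro n
    have h3 : ∑ c ∈ range N, (∑ m ∈ range N, ψ (m : ℤ) * e (-(c * ((m : ℝ) / N)))) * e ((n : ℝ) * (c / N))
        = ∑ m ∈ range N, ψ (m : ℤ) * ∑ c ∈ range N, e (c * ((((n : ℤ) - m : ℤ) : ℝ) / N)) := by
      simp_rw [sum_mul, mul_sum]
      rw [sum_comm]
      refine sum_congr rfl fun m _ => sum_congr rfl fun c _ => ?_
      rw [mul_assoc, ← CQ1_e_add]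
      congr 2
      push_cast
      field_simp
      ring
    rw [h3, h1 n, mul_sum]
    refine sum_congr rfl fun m _ => ?_
    rw [CQ1_geom N hN]
    split_ifs
    · field_simp
    · simp
  have h3 : ∑ n ∈ I, f n * ψ n = (N : ℂ)⁻¹ * ∑ c ∈ range N,
      (∑ m ∈ range N, ψ (m : ℤ) * e (-(c * ((m : ℝ) / N)))) * ∑ n ∈ I, f n * e ((n : ℝ) * (c / N)) := by
    have h4 : ∀ n ∈ I, f n * ψ n = ∑ c ∈ range N, (N : ℂ)⁻¹ *
        ((∑ m ∈ range N, ψ (m : ℤ) * e (-(c * ((m : ℝ) / N)))) * (f n * e ((n : ℝ) * (c / N)))) := by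
      intro n _
      rw [h2 n, ← mul_sum, mul_left_comm, mul_sum]
      congr 1
      refine sum_congr rfl fun c _ => ?_
      ring
    rw [sum_congr rfl h4, sum_comm, mul_sum]
    refine sum_congr rfl fun c _ => ?_
    rw [← mul_sum, ← mul_sum]
  rw [h3, norm_mul, norm_inv]
  have h5 : ‖∑ c ∈ range N, (∑ m ∈ range N, ψ (m : ℤ) * e (-(c * ((m : ℝ) / N)))) *
      ∑ n ∈ I, f n * e ((n : ℝ) * (c / N))‖ ≤ N * (N * Φ * δ) := by
    refine (norm_sum_le _ _).trans ?_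
    have h6 : ∀ c ∈ range N, ‖(∑ m ∈ range N, ψ (m : ℤ) * e (-(c * ((m : ℝ) / N)))) *
        ∑ n ∈ I, f n * e ((n : ℝ) * (c / N))‖ ≤ N * Φ * δ := by
      intro c _
      rw [norm_mul]
      refine mul_le_mul ?_ (hf _) (norm_nonneg _) (by positivity)
      refine (norm_sum_le _ _).trans ?_
      have h7 : ∀ m ∈ range N, ‖ψ (m : ℤ) * e (-(c * ((m : ℝ) / N)))‖ ≤ Φ := by
        intro m _
        have h8 : ‖e (-(c * ((m : ℝ) / N)))‖ = 1 := by
          unfold e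
          have h9 : (2 * Real.pi * ((-(c * ((m : ℝ) / N)) : ℝ) : ℂ) * Complex.I : ℂ)
              = ((2 * Real.pi * (-(c * ((m : ℝ) / N))) : ℝ) : ℂ) * Complex.I := by push_cast; ring
          rw [h9, Complex.norm_exp_ofReal_mul_I]
        rw [norm_mul, h8, mul_one]
        exact hΦ _
      refine (sum_le_sum h7).trans ?_
      rw [sum_const, card_range, nsmul_eq_mul]
    refine (sum_le_sum h6).trans ?_
    rw [sum_const, card_range, nsmul_eq_mul]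
  have h10 : ‖(N : ℂ)‖ = N := by simp
  rw [h10]
  calc (N : ℝ)⁻¹ * _ ≤ (N : ℝ)⁻¹ * (N * (N * Φ * δ)) :=
        mul_le_mul_of_nonneg_left h5 (by positivity)
    _ = N * Φ * δ := by field_simp

/-- The components with bounded moduli. Proof. `κ ∈ T` have `r_i κ_i ≤ D`, so there are at most `D^k` of them,
`‖gk (p i) κ_i m‖ ≤ r_i ≤ D` (`gk_bound` with `Q = D`... or directly as in its proof: `r/φ(r) ≤ r` and the other factors
are at most `1`), the product has period `lcm(r_i κ_i) ≤ D` in `n` (`gk_period`, `Polynomial.sub_dvd_eval_sub`):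
`W1_per`. -/
theorem W1_small {k : ℕ} (P : Fin k → ℤ[X]) (Q D : ℕ) (hD : 1 ≤ D) (p : Fin k → Ch)
    (hp : ∀ i, p i ∈ PC Q) (T : Finset (Fin k → ℕ)) (hT : T ⊆ Fintype.piFinset (fun i => KS Q (p i).1))
    (hTD : ∀ κ ∈ T, univ.lcm (fun i => (p i).1 * κ i) ≤ D) (f : ℕ → ℂ) (I : Finset ℕ) (δ : ℝ)
    (hf : ∀ θ : ℝ, ‖∑ n ∈ I, f n * e ((n : ℝ) * θ)‖ ≤ δ) (h : Fin k → ℕ) :
    ‖∑ n ∈ I, f n * ∑ κ ∈ T, ∏ i, gk (p i) (κ i) ((P i).eval (n : ℤ) + h i)‖ ≤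
      (D : ℝ) ^ (2 * k + 1) * δ := by
  have hδ : 0 ≤ δ := (norm_nonneg _).trans (hf 0)
  have hDr : (1 : ℝ) ≤ D := by exact_mod_cast hD
  have h1 : ∑ n ∈ I, f n * ∑ κ ∈ T, ∏ i, gk (p i) (κ i) ((P i).eval (n : ℤ) + h i)
      = ∑ κ ∈ T, ∑ n ∈ I, f n * ∏ i, gk (p i) (κ i) ((P i).eval (n : ℤ) + h i) := by
    simp_rw [mul_sum]
    exact sum_comm
  rw [h1]
  refine (norm_sum_le _ _).trans ?_
  have hKS : ∀ κ ∈ T, ∀ i, κ i ∈ KS Q (p i).1 := fun κ hκ i => Fintype.mem_piFinset.mp (hT hκ) i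
  have hle : ∀ κ ∈ T, ∀ i, (p i).1 * κ i ≤ D := by
    intro κ hκ i
    have hpos : 0 < univ.lcm (fun i => (p i).1 * κ i) := by
      rw [Nat.pos_iff_ne_zero, Ne, Finset.lcm_eq_zero_iff]
      rintro ⟨j, -, hj⟩
      have h2 := (mem_PC.1 (hp j)).1
      have h3 := (CA_mem_KS.1 (hKS κ hκ j)).1
      have h4 : 1 ≤ κ j := h3.1
      have h5 : 0 < (p j).1 * κ j := Nat.mul_pos h2 h4
      omega
    exact (Nat.le_of_dvd hpos (dvd_lcm (mem_univ i))).trans (hTD κ hκ)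
  have h2 : ∀ κ ∈ T, ‖∑ n ∈ I, f n * ∏ i, gk (p i) (κ i) ((P i).eval (n : ℤ) + h i)‖
      ≤ (D : ℝ) ^ (k + 1) * δ := by
    intro κ hκ
    set N : ℕ := univ.lcm (fun i => (p i).1 * κ i) with hN
    have hND : N ≤ D := hTD κ hκ
    have hN0 : 0 < N := by
      rw [Nat.pos_iff_ne_zero, hN, Ne, Finset.lcm_eq_zero_iff]
      rintro ⟨j, -, hj⟩
      have h2 := (mem_PC.1 (hp j)).1
      have h3 := (CA_mem_KS.1 (hKS κ hκ j)).1
      have h4 : 1 ≤ κ j := h3.1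
      have h5 : 0 < (p j).1 * κ j := Nat.mul_pos h2 h4
      omega
    have h3 := W1_per f I δ hf N hN0 (fun n => ∏ i, gk (p i) (κ i) ((P i).eval n + h i)) (by
      intro n
      refine prod_congr rfl fun i _ => ?_
      have h4 : (((p i).1 * κ i : ℕ) : ℤ) ∣ (P i).eval (n + N) - (P i).eval n := by
        have h5 : (n + (N : ℤ)) - n ∣ (P i).eval (n + N) - (P i).eval n := sub_dvd_eval_sub _ _ _
        rw [add_sub_cancel_left] at h5
        refine dvd_trans ?_ h5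
        have h6 : (p i).1 * κ i ∣ N := dvd_lcm (mem_univ i)
        exact_mod_cast h6
      obtain ⟨j, hj⟩ := h4
      have h7 : (P i).eval (n + N) + (h i : ℤ) = ((P i).eval n + h i) + (((p i).1 * κ i : ℕ) : ℤ) * j := by
        linarith
      rw [h7]
      exact gk_period _ _ _ _) ((D : ℝ) ^ k) (by
      intro n
      rw [norm_prod]
      calc ∏ i, ‖gk (p i) (κ i) ((P i).eval n + h i)‖ ≤ ∏ _i : Fin k, (D : ℝ) := by
            refine prod_le_prod (fun i _ => norm_nonneg _) fun i _ => ?_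
            obtain ⟨hr1, hrQ, hprim⟩ := mem_PC.1 (hp i)
            obtain ⟨hI, hsq, hcop⟩ := CA_mem_KS.1 (hKS κ hκ i)
            have hk1 : 1 ≤ κ i := hI.1
            have hiD := hle κ hκ i
            refine gk_bound D (p i) (mem_PC.2 ⟨hr1, ?_, hprim⟩) (κ i) (CA_mem_KS.2 ⟨?_, hsq, hcop⟩) _
            · exact (Nat.le_mul_of_pos_right _ hk1).trans hiD
            · refine ⟨hk1, ?_⟩
              rw [Nat.le_div_iff_mul_le hr1, mul_comm]
              exact hiD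
        _ = (D : ℝ) ^ k := by rw [prod_const, card_univ, Fintype.card_fin])
    refine h3.trans ?_
    have hNr : (N : ℝ) ≤ D := by exact_mod_cast hND
    calc (N : ℝ) * (D : ℝ) ^ k * δ ≤ D * (D : ℝ) ^ k * δ := by gcongr
      _ = (D : ℝ) ^ (k + 1) * δ := by ring
  refine (sum_le_sum h2).trans ?_
  rw [sum_const, nsmul_eq_mul]
  have hcard : (T.card : ℝ) ≤ (D : ℝ) ^ k := by
    have h3 : T ⊆ Fintype.piFinset (fun _ : Fin k => Icc 1 D) := by
      intro κ hκ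
      refine Fintype.mem_piFinset.mpr fun i => ?_
      obtain ⟨hI, -, -⟩ := CA_mem_KS.1 (hKS κ hκ i)
      have hr1 := (mem_PC.1 (hp i)).1
      refine mem_Icc.mpr ⟨hI.1, ?_⟩
      exact (Nat.le_mul_of_pos_left _ hr1).trans (hle κ hκ i)
    have h4 := card_le_card h3
    rw [Fintype.card_piFinset] at h4
    simp only [Nat.card_Icc, add_tsub_cancel_right, prod_const, card_univ, Fintype.card_fin] at h4
    exact_mod_cast h4
  calc (T.card : ℝ) * ((D : ℝ) ^ (k + 1) * δ) ≤ (D : ℝ) ^ k * ((D : ℝ) ^ (k + 1) * δ) :=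
        mul_le_mul_of_nonneg_right hcard (by positivity)
    _ = (D : ℝ) ^ (2 * k + 1) * δ := by ring


end Pool.Agent.Lib.H24P
end

-- from Lib.H3B.S0E
section

/-! # H3B (MP_443e5f, candidate T, module B), chunk S0E -/

namespace Pool.Agent.H3B

open Finset
open Pool.Agent.H44W (ee TF cut tII)

theorem s0e_card {M : ℕ} {ε : ℤ} (hε : ε = 0 ∨ ε = 1) : ((SS M ε).card : ℝ) ≤ M := by
  have h1 : SS M ε ⊆ Ico (0 : ℤ) M := by
    intro b hb
    unfold SS at hb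
    rw [mem_filter, mem_Ico] at hb
    rw [mem_Ico]
    rcases hε with h | h <;> subst h <;> omega
  have h2 := card_le_card h1
  rw [Int.card_Ico, sub_zero, Int.toNat_natCast] at h2
  exact_mod_cast h2

theorem s0e_BB {M : ℕ} {ε : ℤ} {be : ℤ → ℂ} (hbe : ∀ x, ‖be x‖ ≤ 1) (h b : ℤ) : ‖BB M ε be h b‖ ≤ 1 := by
  unfold BB
  split_ifs
  · rw [norm_mul, RCLike.norm_conj]
    exact mul_le_one₀ (hbe _) (norm_nonneg _) (hbe _)
  · rw [norm_zero]
    exact zero_le_one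

/-- Chunk S0E (M). The choice of the frequencies. PROOF. For each h TP2 with N := 2 n, ρ l = ∑_{a in Ico K 2K} R (Gd g (a (2h))) (a l), En φ = ∑_a E a (tw (φ/a) (Gd g (a (2h)))) (E_exp with j = a, N := n; ρ l = 0
for |l| > 2 n: R_out), S = SS M ε, B = BB: ∑_b |BB b|² ≤ card SS ≤ M. The sum over a of the double sums is the double sum with ρ. re ≤ norm. -/
theorem s0_freq {n K M : ℕ} (hK : 1 ≤ K) {ε : ℤ} (hε : ε = 0 ∨ ε = 1) {be g : ℤ → ℂ} (hbe : ∀ x, ‖be x‖ ≤ 1) (hgs : Sp n g) (h : ℤ) :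
    ∃ φ : ℝ, ∑ a ∈ Ico K (2 * K), (∑ b ∈ SS M ε, ∑ b' ∈ SS M ε, BB M ε be h b * (starRingEnd ℂ) (BB M ε be h b') *
        R (Gd g (a * (2 * h))) (a * (b' - b))).re ≤ M * ∑ a ∈ Ico K (2 * K), E a (tw (φ / a) (Gd g (a * (2 * h)))) := by
  have hρ : ∀ l : ℤ, l ∉ Icc (-((2 * n : ℕ) : ℤ)) ((2 * n : ℕ) : ℤ) →
      ∑ a ∈ Ico K (2 * K), R (Gd g (a * (2 * h))) (a * l) = 0 := by
    intro l hl
    refine sum_eq_zero fun a ha => ?_
    rw [mem_Ico] at ha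
    refine R_out (hgs.Gd _) ?_
    rw [abs_mul]
    have h1 : (1 : ℤ) ≤ |(a : ℤ)| := by
      rw [Nat.abs_cast]
      omega
    have h2 : 2 * (n : ℤ) < |l| := by
      by_contra h3
      apply hl
      rw [not_lt, abs_le] at h3
      rw [mem_Icc]
      push_cast
      constructor <;> omega
    have h3 : |l| ≤ |(a : ℤ)| * |l| := le_mul_of_one_le_left (abs_nonneg _) h1
    linarith
  have hexp : ∀ φ : ℝ, ((∑ a ∈ Ico K (2 * K), E a (tw (φ / a) (Gd g (a * (2 * h)))) : ℝ) : ℂ) =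
      ∑ l ∈ Icc (-((2 * n : ℕ) : ℤ)) ((2 * n : ℕ) : ℤ),
        (∑ a ∈ Ico K (2 * K), R (Gd g (a * (2 * h))) (a * l)) * ee (φ * l) := by
    intro φ
    rw [Complex.ofReal_sum]
    simp only [sum_mul]
    rw [sum_comm]
    refine sum_congr rfl fun a ha => ?_
    rw [mem_Ico] at ha
    have h1 := E_exp (hgs.Gd ((a : ℤ) * (2 * h))) (j := (a : ℤ)) (by omega) φ
    rw [Int.natAbs_natCast, Int.cast_natCast] at h1
    rw [h1]
    push_cast
    rfl
  obtain ⟨φ, hφ⟩ := TP2 hρ (fun φ => ∑ a ∈ Ico K (2 * K), E a (tw (φ / a) (Gd g (a * (2 * h)))))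
    (fun φ => sum_nonneg fun a _ => E_nonneg _ _) hexp (SS M ε) (BB M ε be h)
  refine ⟨φ, ?_⟩
  have e1 : ∑ a ∈ Ico K (2 * K), (∑ b ∈ SS M ε, ∑ b' ∈ SS M ε, BB M ε be h b * (starRingEnd ℂ) (BB M ε be h b') *
        R (Gd g (a * (2 * h))) (a * (b' - b))).re =
      (∑ b ∈ SS M ε, ∑ b' ∈ SS M ε, BB M ε be h b * (starRingEnd ℂ) (BB M ε be h b') *
        (∑ a ∈ Ico K (2 * K), R (Gd g (a * (2 * h))) (a * (b' - b)))).re := by
    rw [← Complex.re_sum]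
    congr 1
    rw [sum_comm]
    refine sum_congr rfl fun b _ => ?_
    rw [sum_comm]
    refine sum_congr rfl fun b' _ => ?_
    rw [mul_sum]
  rw [e1]
  refine (Complex.re_le_norm _).trans (hφ.trans ?_)
  refine mul_le_mul_of_nonneg_right ?_ (sum_nonneg fun a _ => E_nonneg _ _)
  refine le_trans ?_ (s0e_card (M := M) hε)
  calc ∑ b ∈ SS M ε, ‖BB M ε be h b‖ ^ 2 ≤ ∑ _b ∈ SS M ε, (1 : ℝ) :=
        sum_le_sum fun b _ => pow_le_one₀ (norm_nonneg _) (s0e_BB hbe _ _)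
    _ = (SS M ε).card := by rw [sum_const, nsmul_eq_mul, mul_one]

/-- The fourth power. -/
theorem s0e_pow (K : ℕ) (t : ℕ → ℝ) :
    (∑ a ∈ Ico K (2 * K), t a) ^ 4 ≤ (K : ℝ) ^ 3 * ∑ a ∈ Ico K (2 * K), t a ^ 4 := by
  have hc : (Ico K (2 * K)).card = K := by
    rw [Nat.card_Ico]
    omega
  have h1 := sq_sum_le_card_mul_sum_sq (s := Ico K (2 * K)) (f := t)
  have h2 := sq_sum_le_card_mul_sum_sq (s := Ico K (2 * K)) (f := fun a => t a ^ 2)
  rw [hc] at h1 h2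
  have h3 : 0 ≤ (∑ a ∈ Ico K (2 * K), t a) ^ 2 := sq_nonneg _
  calc (∑ a ∈ Ico K (2 * K), t a) ^ 4 = ((∑ a ∈ Ico K (2 * K), t a) ^ 2) ^ 2 := by ring
    _ ≤ ((K : ℝ) * ∑ a ∈ Ico K (2 * K), t a ^ 2) ^ 2 := pow_le_pow_left₀ h3 h1 2
    _ = (K : ℝ) ^ 2 * (∑ a ∈ Ico K (2 * K), t a ^ 2) ^ 2 := by ring
    _ ≤ (K : ℝ) ^ 2 * (K * ∑ a ∈ Ico K (2 * K), (t a ^ 2) ^ 2) := mul_le_mul_of_nonneg_left h2 (by positivity)
    _ = (K : ℝ) ^ 3 * ∑ a ∈ Ico K (2 * K), t a ^ 4 := by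
        have : ∀ a, (t a ^ 2) ^ 2 = t a ^ 4 := fun a => by ring
        simp only [this]
        ring

/-- Chunk S0F (M). Step 0. PROOF. TF_le_Tt: some ε has ∑_a ‖Tt a‖ ≥ n²/(2D). (∑_a ‖Tt‖)⁴ ≤ K³ ∑_a ‖Tt‖⁴ (inner_le_nnorm_mul_nnorm or twice Cauchy-Schwarz). s0_four for each a in Ico K 2K (a · 2M < 4 K M ≤ 8 n).
Exchange the sums over a and h; s0_freq: n⁸/(16 D⁴ K³) ≤ 400 n³ M · M · V, V = the right side. So V ≥ n⁵/(6400 D⁴ K³ M²), K³ M² = K (K M)² ≤ 4 K n², n/K ≥ M/2: V ≥ n² M/(51200 D⁴) and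
51200 ≤ 2¹⁶ ≤ D¹⁶. (M ≥ 1, K ≥ 1 because TF ≠ 0.) -/
theorem step0 {n K M : ℕ} {D : ℝ} (hD : 2 ≤ D) (hn : 1 ≤ n) (hK : 1 ≤ K) (hKM : K * M ≤ 2 * n) (al be : ℕ → ℂ) (hal : ∀ a, ‖al a‖ ≤ 1)
    (hbe : ∀ b, ‖be b‖ ≤ 1) (W f g : ℤ → ℂ) (hW : ∀ x, ‖W x‖ ≤ 1) (hf : ∀ x, ‖f x‖ ≤ 1) (hg : ∀ x, ‖g x‖ ≤ 1)
    (hT : (n : ℝ) ^ 2 / D ≤ ‖TF n (tII K M al be) W f g‖) :
    ∃ ψ : ℤ → ℝ, (M : ℝ) * n ^ 2 / D ^ 20 ≤ ∑ h ∈ Ioo (-(M : ℤ)) M, ∑ a ∈ Ico K (2 * K),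
      E a (tw (ψ h / a) (Gd (cut n g) (a * (2 * h)))) := by
  have hnR : (0 : ℝ) < n := by exact_mod_cast hn
  have hKR : (0 : ℝ) < K := by exact_mod_cast hK
  have hD0 : (0 : ℝ) < D := by linarith
  obtain ⟨be', hbe'⟩ : ∃ be' : ℤ → ℂ, be' = fun b => be b.toNat := ⟨_, rfl⟩
  have hbn : ∀ x, ‖be' x‖ ≤ 1 := by
    intro x
    rw [hbe']
    exact hbe _
  have h1 := hT.trans (TF_le_Tt n K M al be hal W f g)
  rw [← hbe'] at h1
  have h2 : ∃ ε : ℤ, (ε = 0 ∨ ε = 1) ∧ (n : ℝ) ^ 2 / (2 * D) ≤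
      ∑ a ∈ Ico K (2 * K), ‖Tt M a ε be' W (cut n f) (cut n g)‖ := by
    rw [sum_pair (by norm_num)] at h1
    by_contra hc
    push Not at hc
    have h3 := hc 0 (Or.inl rfl)
    have h4 := hc 1 (Or.inr rfl)
    have h5 : (n : ℝ) ^ 2 / (2 * D) + (n : ℝ) ^ 2 / (2 * D) = (n : ℝ) ^ 2 / D := by
      field_simp
      norm_num
    linarith
  obtain ⟨ε, hε, h3⟩ := h2
  have hfreq : ∀ h : ℤ, ∃ φ : ℝ, _ := fun h => s0_freq (n := n) (M := M) hK hε hbn (cut_Sp n g) h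
  choose ψ hψ using hfreq
  refine ⟨ψ, ?_⟩
  obtain ⟨V, hV⟩ : ∃ V : ℝ, V = ∑ h ∈ Ioo (-(M : ℤ)) M, ∑ a ∈ Ico K (2 * K),
      E a (tw (ψ h / a) (Gd (cut n g) (a * (2 * h)))) := ⟨_, rfl⟩
  rw [← hV]
  have h4 : ∑ a ∈ Ico K (2 * K), ‖Tt M a ε be' W (cut n f) (cut n g)‖ ^ 4 ≤ 400 * n ^ 3 * M * (M * V) := by
    calc ∑ a ∈ Ico K (2 * K), ‖Tt M a ε be' W (cut n f) (cut n g)‖ ^ 4
        ≤ ∑ a ∈ Ico K (2 * K), 400 * (n : ℝ) ^ 3 * M * ∑ h ∈ Ioo (-(M : ℤ)) M,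
          (∑ b ∈ SS M ε, ∑ b' ∈ SS M ε, BB M ε be' h b * (starRingEnd ℂ) (BB M ε be' h b') *
          R (Gd (cut n g) (a * (2 * h))) (a * (b' - b))).re := by
          refine sum_le_sum fun a ha => ?_
          rw [mem_Ico] at ha
          have ha1 : (1 : ℤ) ≤ a := by
            have : 1 ≤ a := by omega
            exact_mod_cast this
          have haM : (a : ℤ) * (2 * M) ≤ 8 * n := by
            have g1 : a * (2 * M) ≤ 8 * n := by
              calc a * (2 * M) ≤ (2 * K) * (2 * M) := Nat.mul_le_mul_right _ ha.2.le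
                _ = 4 * (K * M) := by ring
                _ ≤ 8 * n := by omega
            exact_mod_cast g1
          exact s0_four hn ha1 haM hε hW (cut_norm hf) (cut_Sp n f) (cut_Sp n g)
      _ = 400 * (n : ℝ) ^ 3 * M * ∑ h ∈ Ioo (-(M : ℤ)) M, ∑ a ∈ Ico K (2 * K),
          (∑ b ∈ SS M ε, ∑ b' ∈ SS M ε, BB M ε be' h b * (starRingEnd ℂ) (BB M ε be' h b') *
          R (Gd (cut n g) (a * (2 * h))) (a * (b' - b))).re := by
          rw [← mul_sum, sum_comm]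
      _ ≤ 400 * (n : ℝ) ^ 3 * M * ∑ h ∈ Ioo (-(M : ℤ)) M, (M * ∑ a ∈ Ico K (2 * K),
          E a (tw (ψ h / a) (Gd (cut n g) (a * (2 * h))))) :=
          mul_le_mul_of_nonneg_left (sum_le_sum fun h _ => hψ h) (by positivity)
      _ = 400 * n ^ 3 * M * (M * V) := by
          rw [← mul_sum, hV]
  have h5 : ((n : ℝ) ^ 2 / (2 * D)) ^ 4 ≤ (K : ℝ) ^ 3 * (400 * n ^ 3 * M * (M * V)) := by
    refine (pow_le_pow_left₀ (by positivity) h3 4).trans ((s0e_pow K _).trans ?_)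
    exact mul_le_mul_of_nonneg_left h4 (by positivity)
  by_contra hc
  push Not at hc
  have hKMR : (K : ℝ) * M ≤ 2 * n := by exact_mod_cast hKM
  have h6 : (K : ℝ) ^ 3 * (400 * n ^ 3 * M * (M * V)) ≤ 3200 * (n : ℝ) ^ 8 / D ^ 20 := by
    calc (K : ℝ) ^ 3 * (400 * n ^ 3 * M * (M * V)) = (400 * (K : ℝ) ^ 3 * n ^ 3 * M ^ 2) * V := by ring
      _ ≤ (400 * (K : ℝ) ^ 3 * n ^ 3 * M ^ 2) * ((M : ℝ) * n ^ 2 / D ^ 20) :=
          mul_le_mul_of_nonneg_left hc.le (by positivity)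
      _ = 400 * ((K : ℝ) * M) ^ 3 * n ^ 5 / D ^ 20 := by ring
      _ ≤ 400 * (2 * (n : ℝ)) ^ 3 * n ^ 5 / D ^ 20 := by gcongr
      _ = 3200 * (n : ℝ) ^ 8 / D ^ 20 := by ring
  have h7 : (n : ℝ) ^ 8 / (16 * D ^ 4) ≤ 3200 * (n : ℝ) ^ 8 / D ^ 20 := by
    have g1 : (n : ℝ) ^ 8 / (16 * D ^ 4) = ((n : ℝ) ^ 2 / (2 * D)) ^ 4 := by
      rw [div_pow]
      ring
    rw [g1]
    exact h5.trans h6
  rw [div_le_div_iff₀ (by positivity) (by positivity)] at h7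
  have h8 : (2 : ℝ) ^ 16 ≤ D ^ 16 := pow_le_pow_left₀ (by norm_num) hD 16
  have h9 : (n : ℝ) ^ 8 * D ^ 4 * D ^ 16 ≤ (n : ℝ) ^ 8 * D ^ 4 * 51200 := by
    calc (n : ℝ) ^ 8 * D ^ 4 * D ^ 16 = (n : ℝ) ^ 8 * D ^ 20 := by ring
      _ ≤ _ := h7
      _ = _ := by ring
  have h10 := le_of_mul_le_mul_left h9 (by positivity)
  norm_num at h8
  linarith

end Pool.Agent.H3B
end

-- from Lib.H3B.S1A
section

/-! # H3B (MP_443e5f, candidate T, module B), chunk S1A -/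

namespace Pool.Agent.H3B

open Finset
open Pool.Agent.H44W (ee TF cut)

/-- Chunk S1Aa (S/M). PROOF. u(y) = conj g(y + q) g(y + q') ee(-(θ y)); u(y - q) conjugated is a constant of norm 1 times Gd g (q' - q) y * ee(-(-θ) y) = tw (-θ) (Gd g (q' - q)) y. E_shift, E_conj, E_const. -/
theorem E_pair {g : ℤ → ℂ} (m : ℕ) (q q' : ℤ) (θ : ℝ) :
    E m (fun y => (starRingEnd ℂ) (g (y + q)) * g (y + q') * ee (-(θ * y))) = E m (tw (-θ) (Gd g (q' - q))) := by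
  have h1 := E_shift m (fun y => (starRingEnd ℂ) (g (y + q)) * g (y + q') * ee (-(θ * y))) (-q)
  have h2 := E_conj m (fun y => (fun y : ℤ => (starRingEnd ℂ) (g (y + q)) * g (y + q') * ee (-(θ * y))) (y + -q))
  have h3 := E_const m (tw (-θ) (Gd g (q' - q))) (c := ee (-(θ * q))) (ee_norm _)
  rw [← h1, ← h2, ← h3]
  congr 1
  funext y
  have e1 : y + -q + q = y := by ring
  have e2 : y + -q + q' = y + (q' - q) := by ring
  simp only [tw, Gd, map_mul, Complex.conj_conj, ee_conj, e1, e2]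
  have e3 : -(-(θ * ((y + -q : ℤ) : ℝ))) = -(θ * q) + -(-θ * y) := by
    push_cast
    ring
  rw [e3, ee_add]
  ring

/-- Chunk S1Ab (M). Step 1. PROOF. S = Ico K 2K, q a = a H. PX (N := n, m := a ≤ 2K ≤ n) for tw (ψ/a) (Gd g (a H)): periodic p_a with ∑' y, tw (ψ/a) (Gd g (aH)) y * p_a y = (a/3n) E_a ≥ (K/3n) E_a.
CSg with v a y = ee(-(ψ/a y)) p_a y: ((K/3n) ∑ E_a)² ≤ 3 n ∑_{a,a'} ‖Z_{a,a'}‖, Z = ∑' y, conj g(y + aH) g(y + a'H) ee(-(θ y)) * (p_a y conj p_a' y), θ = ψ/a - ψ/a' = ψ (a' - a)/(a a').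
p_a conj p_a' has period a a': PC: ‖Z‖² ≤ a a' E_{aa'}(..) = a a' E (a a') (tw (-θ) (Gd g ((a' - a) H))) (E_pair), a a' ≤ 4 K². (∑ ‖Z‖)² ≤ K² ∑ ‖Z‖². So
(K/3n)⁴ (∑ E_a)⁴ ≤ 9 n² · K² · 4 K² · ∑ E, (∑ E_a)⁴ ≤ 2916 n⁶ ∑ E. -/
theorem step1a {n K : ℕ} (hK : 1 ≤ K) (hn : 2 * K ≤ n) {g : ℤ → ℂ} (hg : ∀ z, ‖g z‖ ≤ 1) (hs : Sp n g) (H : ℤ) (ψ : ℝ) :
    (∑ a ∈ Ico K (2 * K), E a (tw (ψ / a) (Gd g (a * H)))) ^ 4 ≤ 3000 * n ^ 6 *
      ∑ a ∈ Ico K (2 * K), ∑ a' ∈ Ico K (2 * K), E (a * a') (tw (-(ψ * ((a' : ℝ) - a)) / ((a * a' : ℕ) : ℝ)) (Gd g (((a' : ℤ) - a) * H))) := by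
  classical
  have hn1 : 1 ≤ n := by omega
  have hn0 : (0 : ℝ) < n := by exact_mod_cast hn1
  have hK0 : (0 : ℝ) < K := by exact_mod_cast hK
  -- the periodic functions
  have hex : ∀ a : ℕ, ∃ p : ℤ → ℂ, a ∈ Ico K (2 * K) → (∀ y, ‖p y‖ ≤ 1) ∧ (∀ y, p (y + a) = p y) ∧
      ∑' y, tw (ψ / a) (Gd g (a * H)) y * p y
        = (((a : ℝ) / (3 * n) * E a (tw (ψ / a) (Gd g (a * H))) : ℝ) : ℂ) := by
    intro a
    by_cases ha : a ∈ Ico K (2 * K)
    · rw [mem_Ico] at ha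
      obtain ⟨p, hp1, hp2, hp3⟩ := PX (N := n) (u := tw (ψ / a) (Gd g (a * H))) ((hs.Gd _).tw _)
        (fun y => by rw [tw_norm]; exact Gd_norm hg _ _) (m := a) (by omega) (by omega)
      exact ⟨p, fun _ => ⟨hp1, hp2, hp3⟩⟩
    · exact ⟨fun _ => 0, fun h => absurd h ha⟩
  choose p hp using hex
  have hcs := CSg hn1 hg hs (Ico K (2 * K)) (fun a : ℕ => (a : ℤ) * H)
    (fun a y => ee (-(ψ / a * y)) * p a y)
  obtain ⟨X, hX⟩ : ∃ X, X = ∑ a ∈ Ico K (2 * K), E a (tw (ψ / a) (Gd g (a * H))) := ⟨_, rfl⟩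
  obtain ⟨Y, hY⟩ : ∃ Y, Y = ∑ a ∈ Ico K (2 * K), ∑ a' ∈ Ico K (2 * K), E (a * a')
    (tw (-(ψ * ((a' : ℝ) - a)) / ((a * a' : ℕ) : ℝ)) (Gd g (((a' : ℤ) - a) * H))) := ⟨_, rfl⟩
  have hX0 : 0 ≤ X := by rw [hX]; exact sum_nonneg fun _ _ => E_nonneg _ _
  -- left side
  have hL : (K : ℝ) / (3 * n) * X ≤ ‖∑ a ∈ Ico K (2 * K), ∑' y : ℤ, Gd g ((a : ℤ) * H) y
      * (ee (-(ψ / a * y)) * p a y)‖ := by
    have e1 : ∑ a ∈ Ico K (2 * K), ∑' y : ℤ, Gd g ((a : ℤ) * H) y * (ee (-(ψ / a * y)) * p a y)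
        = ((∑ a ∈ Ico K (2 * K), (a : ℝ) / (3 * n) * E a (tw (ψ / a) (Gd g (a * H))) : ℝ) : ℂ) := by
      rw [Complex.ofReal_sum]
      apply sum_congr rfl
      intro a ha
      rw [← (hp a ha).2.2]
      apply tsum_congr
      intro y
      unfold tw
      ring
    rw [e1, Complex.norm_real, Real.norm_eq_abs]
    refine le_trans ?_ (le_abs_self _)
    rw [hX, mul_sum]
    apply sum_le_sum
    intro a ha
    rw [mem_Ico] at ha
    apply mul_le_mul_of_nonneg_right _ (E_nonneg _ _)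
    apply div_le_div_of_nonneg_right _ (by positivity)
    exact_mod_cast ha.1
  -- the correlations
  have hZ : ∀ a ∈ Ico K (2 * K), ∀ a' ∈ Ico K (2 * K),
      ‖∑' y : ℤ, (starRingEnd ℂ) (g (y + (a : ℤ) * H)) * g (y + (a' : ℤ) * H)
        * ((ee (-(ψ / a * y)) * p a y) * (starRingEnd ℂ) (ee (-(ψ / a' * y)) * p a' y))‖ ^ 2
      ≤ 4 * (K : ℝ) ^ 2 * E (a * a')
        (tw (-(ψ * ((a' : ℝ) - a)) / ((a * a' : ℕ) : ℝ)) (Gd g (((a' : ℤ) - a) * H))) := by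
    intro a ha a' ha'
    have ha1 := mem_Ico.1 ha
    have ha1' := mem_Ico.1 ha'
    have ha0 : (0 : ℝ) < a := by exact_mod_cast (by omega : 0 < a)
    have ha0' : (0 : ℝ) < a' := by exact_mod_cast (by omega : 0 < a')
    obtain ⟨θ, hθ⟩ : ∃ θ : ℝ, θ = ψ / a - ψ / a' := ⟨_, rfl⟩
    have hSp : Sp (n + ((a : ℤ) * H).natAbs)
        (fun y => (starRingEnd ℂ) (g (y + (a : ℤ) * H)) * g (y + (a' : ℤ) * H) * ee (-(θ * y))) := by
      intro y hy
      have h1 : g (y + (a : ℤ) * H) ≠ 0 := by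
        intro h0
        apply hy
        simp only [h0, map_zero, zero_mul]
      exact (hs.shift ((a : ℤ) * H)) y h1
    have hper : ∀ y, (fun y => p a y * (starRingEnd ℂ) (p a' y)) (y + ((a * a' : ℕ) : ℤ))
        = (fun y => p a y * (starRingEnd ℂ) (p a' y)) y := by
      intro y
      have e1 := pc_per (hp a ha).2.1 y a'
      have e2 := pc_per (hp a' ha').2.1 y a
      have e3 : y + ((a * a' : ℕ) : ℤ) = y + (a : ℤ) * a' := by push_cast; ring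
      have e4 : y + ((a * a' : ℕ) : ℤ) = y + (a' : ℤ) * a := by push_cast; ring
      simp only
      rw [e3, e1, ← e3, e4, e2]
    have hpc := PC hSp (p := fun y => p a y * (starRingEnd ℂ) (p a' y)) (m := a * a')
      (Nat.mul_pos (by omega) (by omega)) (fun y => by
        rw [norm_mul, RCLike.norm_conj]
        exact mul_le_one₀ ((hp a ha).1 y) (norm_nonneg _) ((hp a' ha').1 y)) hper
    have e5 : ∑' y : ℤ, (starRingEnd ℂ) (g (y + (a : ℤ) * H)) * g (y + (a' : ℤ) * H)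
        * ((ee (-(ψ / a * y)) * p a y) * (starRingEnd ℂ) (ee (-(ψ / a' * y)) * p a' y))
        = ∑' y : ℤ, (starRingEnd ℂ) (g (y + (a : ℤ) * H)) * g (y + (a' : ℤ) * H) * ee (-(θ * y))
          * (p a y * (starRingEnd ℂ) (p a' y)) := by
      apply tsum_congr
      intro y
      have e6 : ee (-(θ * y)) = ee (-(ψ / a * y)) * ee (-(-(ψ / a' * y))) := by
        rw [← ee_add]
        congr 1
        rw [hθ]
        ring
      rw [e6, map_mul, ee_conj]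
      ring
    rw [e5]
    refine le_trans hpc ?_
    rw [E_pair]
    have e7 : -θ = -(ψ * ((a' : ℝ) - a)) / ((a * a' : ℕ) : ℝ) := by
      rw [hθ]
      push_cast
      field_simp
    have e8 : (a' : ℤ) * H - (a : ℤ) * H = ((a' : ℤ) - a) * H := by ring
    rw [e7, e8]
    apply mul_le_mul_of_nonneg_right _ (E_nonneg _ _)
    have e9 : (a : ℝ) ≤ 2 * K := by exact_mod_cast ha1.2.le
    have e9' : (a' : ℝ) ≤ 2 * K := by exact_mod_cast ha1'.2.le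
    push_cast
    nlinarith
  -- Cauchy-Schwarz over the pairs
  obtain ⟨W, hW⟩ : ∃ W : ℝ, W = ∑ a ∈ Ico K (2 * K), ∑ a' ∈ Ico K (2 * K),
      ‖∑' y : ℤ, (starRingEnd ℂ) (g (y + (a : ℤ) * H)) * g (y + (a' : ℤ) * H)
        * ((ee (-(ψ / a * y)) * p a y) * (starRingEnd ℂ) (ee (-(ψ / a' * y)) * p a' y))‖ := ⟨_, rfl⟩
  have hW0 : 0 ≤ W := by
    rw [hW]
    exact sum_nonneg fun _ _ => sum_nonneg fun _ _ => norm_nonneg _
  have hcard : ((Ico K (2 * K)).card : ℝ) = K := by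
    rw [Nat.card_Ico]
    congr 1
    omega
  have hW2 : W ^ 2 ≤ 4 * (K : ℝ) ^ 4 * Y := by
    rw [hW, ← sum_product']
    refine le_trans (sq_sum_le_card_mul_sum_sq) ?_
    rw [card_product, Nat.cast_mul, hcard, hY, ← sum_product']
    have h1 : ∑ x ∈ Ico K (2 * K) ×ˢ Ico K (2 * K),
        ‖∑' y : ℤ, (starRingEnd ℂ) (g (y + (x.1 : ℤ) * H)) * g (y + (x.2 : ℤ) * H)
          * ((ee (-(ψ / x.1 * y)) * p x.1 y) * (starRingEnd ℂ) (ee (-(ψ / x.2 * y)) * p x.2 y))‖ ^ 2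
        ≤ ∑ x ∈ Ico K (2 * K) ×ˢ Ico K (2 * K), 4 * (K : ℝ) ^ 2 * E (x.1 * x.2)
        (tw (-(ψ * ((x.2 : ℝ) - x.1)) / ((x.1 * x.2 : ℕ) : ℝ)) (Gd g (((x.2 : ℤ) - x.1) * H))) := by
      apply sum_le_sum
      intro x hx
      rw [mem_product] at hx
      exact hZ x.1 hx.1 x.2 hx.2
    rw [← mul_sum] at h1
    have h2 := mul_le_mul_of_nonneg_left h1 (by positivity : (0 : ℝ) ≤ (K : ℝ) * K)
    refine le_trans h2 (le_of_eq ?_)
    ring
  rw [← hW] at hcs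
  have h3 : ((K : ℝ) / (3 * n) * X) ^ 2 ≤ 3 * n * W :=
    le_trans (pow_le_pow_left₀ (by positivity) hL 2) hcs
  have h4 : ((K : ℝ) / (3 * n) * X) ^ 4 ≤ 9 * n ^ 2 * W ^ 2 := by
    have h5 := pow_le_pow_left₀ (by positivity) h3 2
    have e1 : (((K : ℝ) / (3 * n) * X) ^ 2) ^ 2 = ((K : ℝ) / (3 * n) * X) ^ 4 := by ring
    have e2 : (3 * (n : ℝ) * W) ^ 2 = 9 * n ^ 2 * W ^ 2 := by ring
    rw [e1, e2] at h5
    exact h5
  have hY0 : 0 ≤ Y := by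
    rw [hY]
    exact sum_nonneg fun _ _ => sum_nonneg fun _ _ => E_nonneg _ _
  have h6 : ((K : ℝ) / (3 * n) * X) ^ 4 ≤ 36 * n ^ 2 * K ^ 4 * Y := by
    have := mul_le_mul_of_nonneg_left hW2 (by positivity : (0 : ℝ) ≤ 9 * (n : ℝ) ^ 2)
    nlinarith
  have h7 : (K : ℝ) ^ 4 * X ^ 4 = (81 * n ^ 4) * ((K : ℝ) / (3 * n) * X) ^ 4 := by
    field_simp
    ring
  have h8 : (K : ℝ) ^ 4 * X ^ 4 ≤ (K : ℝ) ^ 4 * (2916 * n ^ 6 * Y) := by
    rw [h7]
    have := mul_le_mul_of_nonneg_left h6 (by positivity : (0 : ℝ) ≤ 81 * (n : ℝ) ^ 4)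
    refine le_trans this (le_of_eq ?_)
    ring
  have h9 : X ^ 4 ≤ 2916 * n ^ 6 * Y := le_of_mul_le_mul_left h8 (by positivity)
  rw [← hX, ← hY]
  have h10 : (0 : ℝ) ≤ (n : ℝ) ^ 6 * Y := by positivity
  nlinarith

end Pool.Agent.H3B
end

-- from Lib.H3B.S1B
section

/-! # H3B (MP_443e5f, candidate T, module B), chunk S1B -/

namespace Pool.Agent.H3B

open Finset
open Pool.Agent.H44W (ee TF cut tII)

theorem s1b_reindex (K : ℕ) (F : ℕ → ℤ → ℂ) :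
    ∑ a ∈ Ico K (2 * K), ∑ a' ∈ Ico K (2 * K), F a (a' : ℤ) =
      ∑ j ∈ Ioo (-(K : ℤ)) K, ∑ a ∈ Ij K j, F a (a + j) := by
  have h1 : ∀ j ∈ Ioo (-(K : ℤ)) K, ∑ a ∈ Ij K j, F a (a + j) =
      ∑ a ∈ Ico K (2 * K), if (K : ℤ) ≤ a + j ∧ (a : ℤ) + j < 2 * K then F a (a + j) else 0 := by
    intro j _
    unfold Ij
    rw [sum_filter]
  refine Eq.trans ?_ (sum_congr rfl h1).symm
  rw [sum_comm (s := Ioo (-(K : ℤ)) K)]
  refine sum_congr rfl fun a ha => ?_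
  rw [mem_Ico] at ha
  rw [← sum_filter]
  refine sum_nbij' (fun a' => (a' : ℤ) - a) (fun j => ((a : ℤ) + j).toNat) ?_ ?_ ?_ ?_ ?_
  · intro a' ha'
    rw [mem_Ico] at ha'
    rw [mem_filter, mem_Ioo]
    omega
  · intro j hj
    rw [mem_filter, mem_Ioo] at hj
    rw [mem_Ico]
    omega
  · intro a' _
    simp
  · intro j hj
    rw [mem_filter, mem_Ioo] at hj
    omega
  · intro a' _
    have : (a : ℤ) + ((a' : ℤ) - a) = a' := by ring
    rw [this]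

/-- Chunk S1B (M). PROOF. E_exp (N := n, integer a a' > 0, φ = -(ψ h (a' - a))) and R_symm: E (a a') (..) = ∑_{k in Icc (-2n) 2n} R (Gd g (a a' k)) ((a' - a) (2h)) ee(-(ψ h (a' - a)) k). Put j = a' - a: the pairs (a, a') in
Ico K 2K ×ˢ Ico K 2K correspond to j in Ioo (-K) K, a in Ij K j, a' = a + j. Exchange the finite sums. -/
theorem step1b {n K M : ℕ} (hK : 1 ≤ K) {g : ℤ → ℂ} (hs : Sp n g) (ψ : ℤ → ℝ) :
    ((∑ h ∈ Ioo (-(M : ℤ)) M, ∑ a ∈ Ico K (2 * K), ∑ a' ∈ Ico K (2 * K),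
      E (a * a') (tw (-(ψ h * ((a' : ℝ) - a)) / ((a * a' : ℕ) : ℝ)) (Gd g (((a' : ℤ) - a) * (2 * h)))) : ℝ) : ℂ) =
      ∑ j ∈ Ioo (-(K : ℤ)) K, ∑ k ∈ Icc (-(2 * n : ℤ)) (2 * n), val g K M ψ j k := by
  have h1 : ∀ h : ℤ, ∀ a ∈ Ico K (2 * K), ∀ a' ∈ Ico K (2 * K),
      ((E (a * a') (tw (-(ψ h * ((a' : ℝ) - a)) / ((a * a' : ℕ) : ℝ)) (Gd g (((a' : ℤ) - a) * (2 * h)))) : ℝ) : ℂ) =
      ∑ k ∈ Icc (-(2 * n : ℤ)) (2 * n), ee (-(ψ h * ((a' : ℤ) - a : ℤ) * k)) *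
        R (Gd g (a * (a' : ℤ) * k)) (((a' : ℤ) - a) * (2 * h)) := by
    intro h a ha a' ha'
    rw [mem_Ico] at ha ha'
    have hpos : 0 < a * a' := Nat.mul_pos (by omega) (by omega)
    have hj : ((a * a' : ℕ) : ℤ) ≠ 0 := by exact_mod_cast hpos.ne'
    have h2 := E_exp (hs.Gd (((a' : ℤ) - a) * (2 * h))) hj (-(ψ h * ((a' : ℝ) - a)))
    rw [Int.natAbs_natCast, Int.cast_natCast] at h2
    rw [h2]
    refine sum_congr rfl fun k _ => ?_
    rw [R_symm, mul_comm]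
    have e1 : ((a * a' : ℕ) : ℤ) * k = (a : ℤ) * a' * k := by push_cast; ring
    have e2 : -(ψ h * ((a' : ℝ) - a)) * (k : ℝ) = -(ψ h * (((a' : ℤ) - a : ℤ) : ℝ) * k) := by
      push_cast; ring
    rw [e1, e2]
  have h3 : ((∑ h ∈ Ioo (-(M : ℤ)) M, ∑ a ∈ Ico K (2 * K), ∑ a' ∈ Ico K (2 * K),
      E (a * a') (tw (-(ψ h * ((a' : ℝ) - a)) / ((a * a' : ℕ) : ℝ)) (Gd g (((a' : ℤ) - a) * (2 * h)))) : ℝ) : ℂ) =
      ∑ h ∈ Ioo (-(M : ℤ)) M, ∑ a ∈ Ico K (2 * K), ∑ a' ∈ Ico K (2 * K),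
        ∑ k ∈ Icc (-(2 * n : ℤ)) (2 * n), ee (-(ψ h * ((a' : ℤ) - a : ℤ) * k)) *
        R (Gd g (a * (a' : ℤ) * k)) (((a' : ℤ) - a) * (2 * h)) := by
    rw [Complex.ofReal_sum]
    refine sum_congr rfl fun h _ => ?_
    rw [Complex.ofReal_sum]
    refine sum_congr rfl fun a ha => ?_
    rw [Complex.ofReal_sum]
    exact sum_congr rfl fun a' ha' => h1 h a ha a' ha'
  rw [h3]
  have h4 : ∀ h ∈ Ioo (-(M : ℤ)) M, ∑ a ∈ Ico K (2 * K), ∑ a' ∈ Ico K (2 * K),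
        ∑ k ∈ Icc (-(2 * n : ℤ)) (2 * n), ee (-(ψ h * ((a' : ℤ) - a : ℤ) * k)) *
        R (Gd g (a * (a' : ℤ) * k)) (((a' : ℤ) - a) * (2 * h)) =
      ∑ j ∈ Ioo (-(K : ℤ)) K, ∑ k ∈ Icc (-(2 * n : ℤ)) (2 * n), ee (-(ψ h * j * k)) *
        ∑ a ∈ Ij K j, R (Gd g (a * (a + j) * k)) (j * (2 * h)) := by
    intro h _
    rw [s1b_reindex K (fun a z => ∑ k ∈ Icc (-(2 * n : ℤ)) (2 * n), ee (-(ψ h * (z - a : ℤ) * k)) *
        R (Gd g (a * z * k)) ((z - a) * (2 * h)))]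
    refine sum_congr rfl fun j _ => ?_
    rw [sum_comm]
    refine sum_congr rfl fun k _ => ?_
    rw [mul_sum]
    refine sum_congr rfl fun a _ => ?_
    have e1 : (a : ℤ) + j - a = j := by ring
    rw [e1]
  rw [sum_congr rfl h4, sum_comm]
  refine sum_congr rfl fun j _ => ?_
  rw [sum_comm]
  refine sum_congr rfl fun k _ => ?_
  rfl

/-- Chunk S1Ba (S). Trivial bound (R_bound; at most 2 M values of h, at most K values of a). -/
theorem val_bound {n K M : ℕ} (hn : 1 ≤ n) {g : ℤ → ℂ} (hg : ∀ z, ‖g z‖ ≤ 1) (hs : Sp n g) (ψ : ℤ → ℝ) (j k : ℤ) :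
    ‖val g K M ψ j k‖ ≤ 6 * K * M * n := by
  unfold val
  have hcard : (Ij K j).card ≤ K := by
    unfold Ij
    refine (card_filter_le _ _).trans ?_
    rw [Nat.card_Ico]
    omega
  have h1 : ∀ h ∈ Ioo (-(M : ℤ)) M, ‖ee (-(ψ h * j * k)) * ∑ a ∈ Ij K j, R (Gd g (a * (a + j) * k)) (j * (2 * h))‖ ≤
      K * (3 * n) := by
    intro h _
    rw [norm_mul, ee_norm, one_mul]
    refine (norm_sum_le_of_le _ fun a _ => R_bound hs hg hn _ _).trans ?_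
    rw [sum_const, nsmul_eq_mul]
    exact mul_le_mul_of_nonneg_right (by exact_mod_cast hcard) (by positivity)
  refine (norm_sum_le_of_le _ h1).trans ?_
  rw [sum_const, nsmul_eq_mul, Int.card_Ioo]
  have h2 : ((((M : ℤ) - -(M : ℤ) - 1).toNat : ℕ) : ℝ) ≤ 2 * M := by
    have : ((M : ℤ) - -(M : ℤ) - 1).toNat ≤ 2 * M := by omega
    exact_mod_cast this
  calc _ ≤ (2 * (M : ℝ)) * (K * (3 * n)) := mul_le_mul_of_nonneg_right h2 (by positivity)
    _ = 6 * K * M * n := by ring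

/-- Chunk S1Bb (S). a (a + j) ≥ K² for a in Ij K j, and Gd g q = 0 for |q| > 2 n. -/
theorem val_zero {n K M : ℕ} (hK : 1 ≤ K) {g : ℤ → ℂ} (hs : Sp n g) (ψ : ℤ → ℝ) (j k : ℤ) (hk : 2 * (n : ℤ) < K ^ 2 * |k|) :
    val g K M ψ j k = 0 := by
  unfold val
  refine sum_eq_zero fun h _ => ?_
  have h1 : ∑ a ∈ Ij K j, R (Gd g (a * (a + j) * k)) (j * (2 * h)) = 0 := by
    refine sum_eq_zero fun a ha => ?_
    unfold Ij at ha
    rw [mem_filter, mem_Ico] at ha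
    rw [R_symm]
    refine R_zero hs ?_
    obtain ⟨⟨h1, -⟩, h2, -⟩ := ha
    have h3 : (K : ℤ) ≤ a := by exact_mod_cast h1
    have hK0 : (0 : ℤ) ≤ K := Int.natCast_nonneg _
    have h4 : (K : ℤ) ^ 2 ≤ a * (a + j) := by nlinarith
    have h5 : |(a : ℤ) * (a + j) * k| = a * (a + j) * |k| := by
      rw [abs_mul, abs_of_nonneg (by nlinarith)]
    rw [h5]
    have h6 := mul_le_mul_of_nonneg_right h4 (abs_nonneg k)
    linarith
  rw [h1, mul_zero]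

end Pool.Agent.H3B
end

-- from Lib.H3B.S2B
section

/-! # H3B (MP_443e5f, candidate T, module B), chunk S2B -/

namespace Pool.Agent.H3B

open Finset
open Pool.Agent.H44W (ee TF cut tII)

/-- Chunk S2B (M). The second choice of a frequency. PROOF. TP1 with N := 2 n, ρ l = ∑_{a in Ij K j} R (Gd g (a (a+j) k)) (j l), En φ = ∑_a E |j| (tw (φ/j) (Gd g (a (a+j) k))) (E_exp, R_out because |j| ≥ 1), T = image of
Ioo (-M) M under h ↦ 2 h, c (2h) = ee(-(ψ h j k)), L = 2 M, η = 1/(24 D^A), ‖ρ 0‖ ≤ K · 3 n: K M n/D^A ≤ ‖val‖ ≤ η · 2 M · 3 K n + En φ/η, η · 6 K M n = K M n/(4 D^A): En φ ≥ η (3/4) K M n/D^A = K M n/(32 D^(2A))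
≥ n²/(32 D^(2A+1)) (n ≤ D K M) ≥ n²/D^(2A+6). θ = φ/j. (If E_exp is used with the natural number |j|, note tw (φ/j).) -/
theorem step2b {n K M A : ℕ} {D : ℝ} (hD : 2 ≤ D) (hn : 1 ≤ n) (hM : 1 ≤ M) (hnKM : (n : ℝ) ≤ D * K * M) {g : ℤ → ℂ} (hg : ∀ z, ‖g z‖ ≤ 1)
    (hs : Sp n g) (ψ : ℤ → ℝ) {j k : ℤ} (hj : j ≠ 0) (hv : (K : ℝ) * M * n / D ^ A ≤ ‖val g K M ψ j k‖) :
    ∃ θ : ℝ, (n : ℝ) ^ 2 / D ^ (2 * A + 6) ≤ ∑ a ∈ Ij K j, E j.natAbs (tw θ (Gd g (a * (a + j) * k))) := by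
  obtain ⟨En, hEn⟩ : ∃ En : ℝ → ℝ, ∀ φ, En φ = ∑ a ∈ Ij K j, E j.natAbs (tw (φ / j) (Gd g (a * (a + j) * k))) :=
    ⟨_, fun _ => rfl⟩
  obtain ⟨ρ, hρd⟩ : ∃ ρ : ℤ → ℂ, ∀ l, ρ l = ∑ a ∈ Ij K j, R (Gd g (a * (a + j) * k)) (j * l) := ⟨_, fun _ => rfl⟩
  have hE0 : ∀ φ, 0 ≤ En φ := by
    intro φ
    rw [hEn]
    exact Finset.sum_nonneg fun a _ => E_nonneg _ _
  have hcast : ((2 * n : ℕ) : ℤ) = 2 * (n : ℤ) := by push_cast; rfl
  have hρ : ∀ l, l ∉ Icc (-((2 * n : ℕ) : ℤ)) ((2 * n : ℕ) : ℤ) → ρ l = 0 := by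
    intro l hl
    rw [hρd]
    refine Finset.sum_eq_zero fun a _ => R_out (hs.Gd _) ?_
    rw [hcast, mem_Icc, ← abs_le, not_le] at hl
    rw [abs_mul]
    have h1 : 1 ≤ |j| := Int.one_le_abs hj
    nlinarith [abs_nonneg l]
  have hexp : ∀ φ, ((En φ : ℝ) : ℂ) = ∑ l ∈ Icc (-((2 * n : ℕ) : ℤ)) ((2 * n : ℕ) : ℤ), ρ l * ee (φ * l) := by
    intro φ
    rw [hEn, Complex.ofReal_sum, hcast]
    rw [Finset.sum_congr rfl fun (a : ℕ) _ => E_exp (hs.Gd ((a : ℤ) * (a + j) * k)) hj φ, Finset.sum_comm]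
    refine Finset.sum_congr rfl fun l _ => ?_
    rw [hρd, Finset.sum_mul]
  obtain ⟨T, hT⟩ : ∃ T : Finset ℤ, T = (Ioo (-(M : ℤ)) M).image (fun h => 2 * h) := ⟨_, rfl⟩
  have hTc : (T.card : ℝ) ≤ 2 * M := by
    have h1 : T.card ≤ 2 * M := by
      rw [hT]
      refine Finset.card_image_le.trans ?_
      rw [Int.card_Ioo]
      omega
    exact_mod_cast h1
  have hD0 : (0 : ℝ) < D := by linarith
  have hP : 0 < D ^ A := by positivity
  have hMR : (1 : ℝ) ≤ M := by exact_mod_cast hM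
  have hnR : (1 : ℝ) ≤ n := by exact_mod_cast hn
  obtain ⟨φ, hφ⟩ := TP1 hρ En hE0 hexp T (fun l => ee (-(ψ (l / 2) * j * k))) (fun h => (ee_norm _).le)
    (η := 1 / (24 * D ^ A)) (L := 2 * M) (by positivity) (by linarith) hTc
  refine ⟨φ / j, ?_⟩
  rw [← hEn]
  have hval : ∑ l ∈ T, ee (-(ψ (l / 2) * j * k)) * ρ l = val g K M ψ j k := by
    rw [hT, Finset.sum_image (fun x _ y _ h => by simpa using h)]
    unfold val
    refine Finset.sum_congr rfl fun h _ => ?_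
    rw [hρd, Int.mul_ediv_cancel_left _ two_ne_zero]
  rw [hval] at hφ
  have hρ0 : ‖ρ 0‖ ≤ K * (3 * n) := by
    rw [hρd]
    refine (norm_sum_le _ _).trans ((Finset.sum_le_sum fun a _ => R_bound hs hg hn _ _).trans ?_)
    rw [Finset.sum_const, nsmul_eq_mul]
    refine mul_le_mul_of_nonneg_right ?_ (by positivity)
    have h1 : (Ij K j).card ≤ K := by
      unfold Ij
      refine (Finset.card_filter_le _ _).trans ?_
      rw [Nat.card_Ico]
      omega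
    exact_mod_cast h1
  have h1 : (K : ℝ) * M * n / D ^ A ≤ K * M * n / (4 * D ^ A) + 24 * D ^ A * En φ := by
    refine hv.trans (hφ.trans ?_)
    have h2 : 1 / (24 * D ^ A) * (2 * M) * ‖ρ 0‖ ≤ 1 / (24 * D ^ A) * (2 * M) * (K * (3 * n)) :=
      mul_le_mul_of_nonneg_left hρ0 (by positivity)
    have h3 : 1 / (24 * D ^ A) * (2 * M) * (K * (3 * n)) = K * M * n / (4 * D ^ A) := by
      field_simp
      ring
    have h4 : En φ / (1 / (24 * D ^ A)) = 24 * D ^ A * En φ := by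
      field_simp
    rw [h4]
    linarith
  have h2 : (K : ℝ) * M * n / (32 * (D ^ A) ^ 2) ≤ En φ := by
    have h3 : (K : ℝ) * M * n / D ^ A = K * M * n / (4 * D ^ A) + 24 * D ^ A * (K * M * n / (32 * (D ^ A) ^ 2)) := by
      field_simp
      ring
    rw [h3] at h1
    have h4 : 24 * D ^ A * (K * M * n / (32 * (D ^ A) ^ 2)) ≤ 24 * D ^ A * En φ := by linarith
    exact le_of_mul_le_mul_left h4 (by positivity)
  refine le_trans ?_ h2
  have h3 : D ^ (2 * A + 6) = (D ^ A) ^ 2 * (D ^ 5 * D) := by ring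
  have h4 : (32 : ℝ) ≤ D ^ 5 := by
    calc (32 : ℝ) = 2 ^ 5 := by norm_num
      _ ≤ D ^ 5 := pow_le_pow_left₀ (by norm_num) hD 5
  rw [h3, div_le_div_iff₀ (by positivity) (by positivity)]
  have h5 : (n : ℝ) ^ 2 ≤ D * (K * M * n) := by
    calc (n : ℝ) ^ 2 = n * n := by ring
      _ ≤ (D * K * M) * n := mul_le_mul_of_nonneg_right hnKM (by linarith)
      _ = _ := by ring
  have h6 : 0 ≤ (K : ℝ) * M * n := by positivity
  calc (n : ℝ) ^ 2 * (32 * (D ^ A) ^ 2) ≤ (D * (K * M * n)) * (32 * (D ^ A) ^ 2) :=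
        mul_le_mul_of_nonneg_right h5 (by positivity)
    _ = K * M * n * ((D ^ A) ^ 2 * (32 * D)) := by ring
    _ ≤ K * M * n * ((D ^ A) ^ 2 * (D ^ 5 * D)) := by
        refine mul_le_mul_of_nonneg_left ?_ h6
        refine mul_le_mul_of_nonneg_left ?_ (by positivity)
        exact mul_le_mul_of_nonneg_right h4 hD0.le

end Pool.Agent.H3B
end

-- from Lib.H3B.FN
section

/-! # H3B (MP_443e5f, candidate T, module B), chunk FN -/

namespace Pool.Agent.H3B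

open Finset
open Pool.Agent.H44W (ee TF cut tII)

theorem fn_pow4 {s : Finset ℤ} {M : ℕ} (hs : (s.card : ℝ) ≤ 2 * M) (X : ℤ → ℝ) :
    (∑ h ∈ s, X h) ^ 4 ≤ 8 * (M : ℝ) ^ 3 * ∑ h ∈ s, X h ^ 4 := by
  have h1 : (∑ h ∈ s, X h) ^ 2 ≤ s.card * ∑ h ∈ s, X h ^ 2 := sq_sum_le_card_mul_sum_sq
  have h2 : (∑ h ∈ s, X h ^ 2) ^ 2 ≤ s.card * ∑ h ∈ s, (X h ^ 2) ^ 2 := sq_sum_le_card_mul_sum_sq
  have h3 : ∑ h ∈ s, (X h ^ 2) ^ 2 = ∑ h ∈ s, X h ^ 4 := sum_congr rfl fun h _ => by ring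
  rw [h3] at h2
  have h4 : 0 ≤ ∑ h ∈ s, X h ^ 4 := sum_nonneg fun h _ => by positivity
  have h5 : (0 : ℝ) ≤ s.card := Nat.cast_nonneg _
  calc (∑ h ∈ s, X h) ^ 4 = ((∑ h ∈ s, X h) ^ 2) ^ 2 := by ring
    _ ≤ (s.card * ∑ h ∈ s, X h ^ 2) ^ 2 := pow_le_pow_left₀ (sq_nonneg _) h1 2
    _ = (s.card : ℝ) ^ 2 * (∑ h ∈ s, X h ^ 2) ^ 2 := by ring
    _ ≤ (s.card : ℝ) ^ 2 * (s.card * ∑ h ∈ s, X h ^ 4) := mul_le_mul_of_nonneg_left h2 (by positivity)
    _ = (s.card : ℝ) ^ 3 * ∑ h ∈ s, X h ^ 4 := by ring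
    _ ≤ (2 * (M : ℝ)) ^ 3 * ∑ h ∈ s, X h ^ 4 :=
        mul_le_mul_of_nonneg_right (pow_le_pow_left₀ h5 hs 3) h4
    _ = 8 * (M : ℝ) ^ 3 * ∑ h ∈ s, X h ^ 4 := by ring

theorem fn_card (M : ℕ) : ((Ioo (-(M : ℤ)) M).card : ℝ) ≤ 2 * M := by
  rw [Int.card_Ioo]
  have h : ((M : ℤ) - -(M : ℤ) - 1).toNat ≤ 2 * M := by omega
  exact_mod_cast h

/-- The numbers of steps 0 and 1. -/
theorem fn_num {M n D X Y : ℝ} (hM : 0 < M) (hn : 0 < n) (hD : 2 ≤ D) (h0 : M * n ^ 2 / D ^ 20 ≤ X)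
    (h1 : X ^ 4 ≤ 8 * M ^ 3 * (3000 * n ^ 6 * Y)) : M * n ^ 2 / D ^ 95 ≤ Y := by
  have hD0 : 0 < D := by linarith
  obtain ⟨d, hd⟩ : ∃ d : ℝ, d = D ^ 20 := ⟨_, rfl⟩
  obtain ⟨e, he⟩ : ∃ e : ℝ, e = D ^ 15 := ⟨_, rfl⟩
  have hd0 : 0 < d := by rw [hd]; positivity
  have he0 : 24000 ≤ e := by
    rw [he]
    calc (24000 : ℝ) ≤ 2 ^ 15 := by norm_num
      _ ≤ D ^ 15 := pow_le_pow_left₀ (by norm_num) hD 15
  have hde : D ^ 95 = d ^ 4 * e := by rw [hd, he, ← pow_mul, ← pow_add]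
  rw [← hd] at h0
  rw [hde]
  have h2 : (M * n ^ 2 / d) ^ 4 ≤ X ^ 4 := pow_le_pow_left₀ (by positivity) h0 4
  have h3 : (M * n ^ 2 / d) ^ 4 ≤ 8 * M ^ 3 * (3000 * n ^ 6 * Y) := h2.trans h1
  rw [div_pow, div_le_iff₀ (by positivity)] at h3
  rw [div_le_iff₀ (by positivity)]
  have h4 : (M ^ 3 * n ^ 6) * (M * n ^ 2) ≤ (M ^ 3 * n ^ 6) * (24000 * Y * d ^ 4) := by
    calc (M ^ 3 * n ^ 6) * (M * n ^ 2) = (M * n ^ 2) ^ 4 := by ring
      _ ≤ _ := h3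
      _ = (M ^ 3 * n ^ 6) * (24000 * Y * d ^ 4) := by ring
  have h5 : M * n ^ 2 ≤ 24000 * Y * d ^ 4 := le_of_mul_le_mul_left h4 (by positivity)
  have hY : 0 ≤ Y := by
    by_contra hc
    have h6 : 24000 * Y * d ^ 4 < 0 := by
      apply mul_neg_of_neg_of_pos
      · linarith
      · positivity
    have h7 : 0 < M * n ^ 2 := by positivity
    linarith
  calc M * n ^ 2 ≤ 24000 * Y * d ^ 4 := h5
    _ = 24000 * (Y * d ^ 4) := by ring
    _ ≤ e * (Y * d ^ 4) := mul_le_mul_of_nonneg_right he0 (by positivity)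
    _ = Y * (d ^ 4 * e) := by ring

/-- Chunk FN (S/M). Steps 0, 1, 2 together. PROOF. n ≤ D K M (TF_le), K M ≤ 2 n (KM_le), M ≥ 1 (TF ≠ 0). step0: M n²/D²⁰ ≤ ∑_h X_h, X_h = ∑_a E_a. step1a with H = 2 h: X_h⁴ ≤ 3000 n⁶ Y_h. (∑_h X_h)⁴ ≤ (2M)³ ∑ X_h⁴ ≤ 8 M³ · 3000 n⁶ ∑ Y_h,
so ∑ Y_h ≥ M⁴ n⁸/(D⁸⁰ · 24000 M³ n⁶) = M n²/(24000 D⁸⁰) ≥ M n²/D⁹⁵. step1b, triangle inequality, step2a with A = 95, v = val (val_bound, val_zero), step2b. (2 K ≤ n because K² D^C ≤ n, K ≥ D^C.) -/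
theorem steps012 : ∃ A C : ℕ, ∀ (n K M : ℕ) (D : ℝ), 2 ≤ D → D ^ C ≤ K → (K : ℝ) ^ 2 * D ^ C ≤ n →
    ∀ al be : ℕ → ℂ, (∀ a, ‖al a‖ ≤ 1) → (∀ b, ‖be b‖ ≤ 1) → ∀ W f g : ℤ → ℂ, (∀ x, ‖W x‖ ≤ 1) → (∀ x, ‖f x‖ ≤ 1) → (∀ x, ‖g x‖ ≤ 1) →
    (n : ℝ) ^ 2 / D ≤ ‖TF n (tII K M al be) W f g‖ →
    ∃ P : Finset (ℤ × ℤ), (n : ℝ) / (K * D ^ A) ≤ P.card ∧ ∀ p ∈ P, (K : ℝ) / D ^ A ≤ |(p.1 : ℝ)| ∧ |p.1| < K ∧ p.2 ≠ 0 ∧
      ∃ θ : ℝ, (n : ℝ) ^ 2 / D ^ A ≤ ∑ a ∈ Ij K p.1, E p.1.natAbs (tw θ (Gd (cut n g) (a * (a + p.1) * p.2))) := by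
  obtain ⟨C₁, C₂, h2a⟩ := step2a 95
  refine ⟨2 * C₁ + 6, C₂ + 1, ?_⟩
  intro n K M D hD hDK hKn al be hal hbe W f g hW hf hg hT
  have hD0 : 0 < D := by linarith
  have hD1 : 1 ≤ D := by linarith
  have hDC : 2 ≤ D ^ (C₂ + 1) := by
    calc (2 : ℝ) ≤ D := hD
      _ = D ^ 1 := (pow_one D).symm
      _ ≤ D ^ (C₂ + 1) := pow_le_pow_right₀ hD1 (by omega)
  have hK2 : (2 : ℝ) ≤ K := hDC.trans hDK
  have hK : 1 ≤ K := by
    have : (1 : ℝ) ≤ K := by linarith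
    exact_mod_cast this
  have hn2K : 2 * (K : ℝ) ≤ n := by
    calc 2 * (K : ℝ) ≤ (K : ℝ) ^ 2 * 1 := by nlinarith
      _ ≤ (K : ℝ) ^ 2 * D ^ (C₂ + 1) := mul_le_mul_of_nonneg_left (by linarith) (by positivity)
      _ ≤ n := hKn
  have hn2 : 2 * K ≤ n := by exact_mod_cast hn2K
  have hn : 1 ≤ n := by omega
  have hnr : (1 : ℝ) ≤ n := by exact_mod_cast hn
  have hn0 : (0 : ℝ) < n := by linarith
  have hle := TF_le n K M al be hal hbe W f g hW hf hg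
  have h1 : (n : ℝ) ^ 2 / D ≤ K * M * n := hT.trans hle
  have hnKM : (n : ℝ) ≤ D * K * M := by
    rw [div_le_iff₀ hD0] at h1
    have h2 : (n : ℝ) * n ≤ (D * K * M) * n := by
      calc (n : ℝ) * n = (n : ℝ) ^ 2 := by ring
        _ ≤ K * M * n * D := h1
        _ = (D * K * M) * n := by ring
    exact le_of_mul_le_mul_right h2 hn0
  have hM : 1 ≤ M := by
    rcases Nat.eq_zero_or_pos M with h | h
    · exfalso
      rw [h] at hnKM
      simp at hnKM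
      omega
    · exact h
  have hMr : (1 : ℝ) ≤ M := by exact_mod_cast hM
  have hM0 : (0 : ℝ) < M := by linarith
  have hTne : TF n (tII K M al be) W f g ≠ 0 := by
    intro h0
    rw [h0, norm_zero] at hT
    have : 0 < (n : ℝ) ^ 2 / D := by positivity
    linarith
  have hKM := KM_le n K M al be W f g hTne
  obtain ⟨ψ, hψ⟩ := step0 hD hn hK hKM al be hal hbe W f g hW hf hg hT
  have hgs : Sp n (cut n g) := cut_Sp n g
  have hgn : ∀ z, ‖cut n g z‖ ≤ 1 := cut_norm hg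
  -- step 1
  obtain ⟨X, hX⟩ : ∃ X : ℤ → ℝ, ∀ h, X h = ∑ a ∈ Ico K (2 * K),
    E a (tw (ψ h / a) (Gd (cut n g) (a * (2 * h)))) := ⟨_, fun _ => rfl⟩
  obtain ⟨Y, hY⟩ : ∃ Y : ℤ → ℝ, ∀ h, Y h = ∑ a ∈ Ico K (2 * K), ∑ a' ∈ Ico K (2 * K),
    E (a * a') (tw (-(ψ h * ((a' : ℝ) - a)) / ((a * a' : ℕ) : ℝ)) (Gd (cut n g) (((a' : ℤ) - a) * (2 * h)))) :=
      ⟨_, fun _ => rfl⟩
  have hXY : ∀ h, X h ^ 4 ≤ 3000 * n ^ 6 * Y h := by
    intro h
    rw [hX h, hY h]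
    exact step1a hK hn2 hgn hgs (2 * h) (ψ h)
  have hX0 : (M : ℝ) * n ^ 2 / D ^ 20 ≤ ∑ h ∈ Ioo (-(M : ℤ)) M, X h := by
    refine hψ.trans (le_of_eq (sum_congr rfl fun h _ => ?_))
    rw [hX h]
  have hX4 : (∑ h ∈ Ioo (-(M : ℤ)) M, X h) ^ 4 ≤ 8 * (M : ℝ) ^ 3 * (3000 * n ^ 6 * ∑ h ∈ Ioo (-(M : ℤ)) M, Y h) := by
    refine (fn_pow4 (fn_card M) X).trans ?_
    apply mul_le_mul_of_nonneg_left _ (by positivity)
    rw [mul_sum]
    exact sum_le_sum fun h _ => hXY h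
  have hYl := fn_num hM0 hn0 hD hX0 hX4
  have hYv : ∑ h ∈ Ioo (-(M : ℤ)) M, Y h ≤
      ∑ j ∈ Ioo (-(K : ℤ)) K, ∑ k ∈ Icc (-(2 * n : ℤ)) (2 * n), ‖val (cut n g) K M ψ j k‖ := by
    have h3 := step1b (M := M) (n := n) hK hgs ψ
    have h4 : ∑ h ∈ Ioo (-(M : ℤ)) M, Y h = ∑ h ∈ Ioo (-(M : ℤ)) M, ∑ a ∈ Ico K (2 * K), ∑ a' ∈ Ico K (2 * K),
      E (a * a') (tw (-(ψ h * ((a' : ℝ) - a)) / ((a * a' : ℕ) : ℝ)) (Gd (cut n g) (((a' : ℤ) - a) * (2 * h)))) :=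
      sum_congr rfl fun h _ => hY h
    rw [← h4] at h3
    calc ∑ h ∈ Ioo (-(M : ℤ)) M, Y h ≤ ‖((∑ h ∈ Ioo (-(M : ℤ)) M, Y h : ℝ) : ℂ)‖ := by
          rw [Complex.norm_real]
          exact le_abs_self _
      _ ≤ _ := by
          rw [h3]
          refine (norm_sum_le _ _).trans (sum_le_sum fun j _ => norm_sum_le _ _)
  -- step 2
  have hDK2 : D ^ C₂ ≤ K := (pow_le_pow_right₀ hD1 (by omega)).trans hDK
  have hKn2 : (K : ℝ) ^ 2 * D ^ C₂ ≤ n :=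
    (mul_le_mul_of_nonneg_left (pow_le_pow_right₀ hD1 (by omega)) (by positivity)).trans hKn
  obtain ⟨P, hP1, hP2⟩ := h2a n K M D hD hM hDK2 hKn2 (fun j k => val (cut n g) K M ψ j k)
    (fun j k => val_bound hn hgn hgs ψ j k) (fun j k hk => val_zero hK hgs ψ j k hk) (hYl.trans hYv)
  have hpow : D ^ C₁ ≤ D ^ (2 * C₁ + 6) := pow_le_pow_right₀ hD1 (by omega)
  have hpow0 : 0 < D ^ C₁ := by positivity
  have hKr0 : (0 : ℝ) < K := by linarith
  refine ⟨P, ?_, ?_⟩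
  · refine le_trans ?_ hP1
    apply div_le_div_of_nonneg_left hn0.le (by positivity)
    exact mul_le_mul_of_nonneg_left hpow hKr0.le
  · intro p hp
    obtain ⟨q1, q2, q3, q4⟩ := hP2 p hp
    have hj : p.1 ≠ 0 := by
      intro h0
      rw [h0] at q1
      have : 0 < (K : ℝ) / D ^ C₁ := by positivity
      simp only [Int.cast_zero, abs_zero] at q1
      linarith
    refine ⟨?_, q2, q3, step2b hD hn hM hnKM hgn hgs ψ hj q4⟩
    refine le_trans ?_ q1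
    exact div_le_div_of_nonneg_left hKr0.le hpow0 hpow

end Pool.Agent.H3B
end

-- from Lib.H3B.Final
section

/-! # H3B (MP_443e5f, candidate T, module B): the theorem -/

namespace Pool.Agent.H3B

open Finset
open Pool.Agent.H44W (ee TF cut tII ClassTwo)

/-- **Module B.** -/
theorem class_two : ∃ C : ℕ, ClassTwo C := by
  obtain ⟨A, C₁, h1⟩ := steps012
  obtain ⟨C₂, h2⟩ := step34 A
  refine ⟨max C₁ C₂, ?_⟩
  intro n K M D hD hdiv hK hKn al be hal hbe W f g hW hf hg hT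
  have hD1 : (1 : ℝ) ≤ D := by linarith
  have hD0 : (0 : ℝ) < D := by linarith
  have p1 : D ^ C₁ ≤ D ^ max C₁ C₂ := pow_le_pow_right₀ hD1 (le_max_left _ _)
  have p2 : D ^ C₂ ≤ D ^ max C₁ C₂ := pow_le_pow_right₀ hD1 (le_max_right _ _)
  have hKK : (0 : ℝ) ≤ (K : ℝ) ^ 2 := by positivity
  obtain ⟨P, hP, hP2⟩ := h1 n K M D hD (p1.trans hK) ((mul_le_mul_of_nonneg_left p1 hKK).trans hKn) al be hal hbe W f g hW hf hg hT
  obtain ⟨θ, hθ⟩ := h2 n K D hD hdiv (p2.trans hK) ((mul_le_mul_of_nonneg_left p2 hKK).trans hKn) (cut n g) (cut_norm hg)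
    (fun y hy => by unfold Pool.Agent.H44W.cut; rw [if_neg hy]) P hP hP2
  refine ⟨-θ, ?_⟩
  have e1 : ∑' y : ℤ, cut n g y * ee (-(θ * y)) = ∑ z ∈ Icc (1 : ℤ) n, g z * ee (-θ * z) := by
    rw [tsum_eq_sum (s := Icc (1 : ℤ) n)]
    · refine sum_congr rfl fun z hz => ?_
      unfold Pool.Agent.H44W.cut
      rw [if_pos hz, neg_mul]
    · intro y hy
      unfold Pool.Agent.H44W.cut
      rw [if_neg hy, zero_mul]
  rw [← e1]
  refine le_trans ?_ hθ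
  exact div_le_div_of_nonneg_left (Nat.cast_nonneg _) (pow_pos hD0 _) p2

end Pool.Agent.H3B
end
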