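import Pool.Agent.Lib.H59M.M1.M012
import Pool.Agent.Lib.H59M.M1.M059
import Pool.Agent.Lib.H59M.M1.M061
import Pool.Agent.Lib.H59M.M1.M067
import Pool.Agent.Lib.H59M.M1.M068

/-! Merged copies (to shorten the build) of Lib.H24P.G2, Lib.H59T.UME, Lib.H59T.UMG, Lib.H59T.U3, Lib.H59T.U3B, Lib.H59T.UC, Lib.H59T.UE. -/

-- from Lib.H24P.G2
section

/-!
# Project H24P, chunk G2 (M): geometry
-/

open Finset Polynomial

namespace Pool.Agent.Lib.H24P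

open Pool.Agent.Lib.H68T Pool.Agent.Lib.H18Q Pool.Agent.Lib.H59P

theorem g2_pow (N n n' : ℤ) (hn : 0 ≤ n) (h : n ≤ n') (h' : n' ≤ N) (j : ℕ) :
    0 ≤ n' ^ j - n ^ j ∧ N * (n' ^ j - n ^ j) ≤ j * N ^ j * (n' - n) := by
  induction j with
  | zero => simp
  | succ j ih =>
    obtain ⟨ih0, ih1⟩ := ih
    have hn' : 0 ≤ n' := hn.trans h
    have hN : 0 ≤ N := hn'.trans h'
    have e1 : n' ^ (j + 1) - n ^ (j + 1) = n' * (n' ^ j - n ^ j) + n ^ j * (n' - n) := by ring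
    have hnj : 0 ≤ n ^ j := pow_nonneg hn j
    have hNj : n ^ j ≤ N ^ j := pow_le_pow_left₀ hn (h.trans h') j
    have hd : 0 ≤ n' - n := by linarith
    refine ⟨?_, ?_⟩
    · rw [e1]
      exact add_nonneg (mul_nonneg hn' ih0) (mul_nonneg hnj hd)
    · rw [e1]
      have h1 : N * (n' * (n' ^ j - n ^ j)) ≤ N * (j * N ^ j * (n' - n)) := by
        have h2 : n' * (N * (n' ^ j - n ^ j)) ≤ n' * (j * N ^ j * (n' - n)) :=
          mul_le_mul_of_nonneg_left ih1 hn'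
        have h3 : n' * (j * N ^ j * (n' - n)) ≤ N * (j * N ^ j * (n' - n)) := by
          refine mul_le_mul_of_nonneg_right h' ?_
          exact mul_nonneg (mul_nonneg (by positivity) (pow_nonneg hN j)) hd
        calc N * (n' * (n' ^ j - n ^ j)) = n' * (N * (n' ^ j - n ^ j)) := by ring
          _ ≤ _ := h2.trans h3
      have h4 : N * (n ^ j * (n' - n)) ≤ N * (N ^ j * (n' - n)) :=
        mul_le_mul_of_nonneg_left (mul_le_mul_of_nonneg_right hNj hd) hN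
      calc N * (n' * (n' ^ j - n ^ j) + n ^ j * (n' - n))
          = N * (n' * (n' ^ j - n ^ j)) + N * (n ^ j * (n' - n)) := by ring
        _ ≤ N * (j * N ^ j * (n' - n)) + N * (N ^ j * (n' - n)) := add_le_add h1 h4
        _ = ((j + 1 : ℕ) : ℤ) * N ^ (j + 1) * (n' - n) := by push_cast; ring

theorem g2_asy (K D : ℝ) (hK : 1 ≤ K) (hD : 0 < D) : ∃ Q0 : ℕ, ∀ Q : ℕ, Q0 ≤ Q →
    3 ≤ Q ∧ 1 ≤ Real.log Q ∧ K ≤ Real.log (Real.log Q) ∧ K * Real.log (D * Real.log Q) ≤ Real.log Q := by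
  refine ⟨⌈Real.exp (Real.exp K + 4 * K ^ 2 * D)⌉₊ + 3, fun Q hQ => ?_⟩
  have h3 : 3 ≤ Q := by omega
  have hQ1 : Real.exp (Real.exp K + 4 * K ^ 2 * D) ≤ Q := by
    refine (Nat.le_ceil _).trans ?_
    exact_mod_cast (by omega : ⌈Real.exp (Real.exp K + 4 * K ^ 2 * D)⌉₊ ≤ Q)
  have hQ0 : (0 : ℝ) < Q := (Real.exp_pos _).trans_le hQ1
  have hl : Real.exp K + 4 * K ^ 2 * D ≤ Real.log Q := (Real.le_log_iff_exp_le hQ0).mpr hQ1
  have hp : 0 < 4 * K ^ 2 * D := by positivity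
  have hek : 1 ≤ Real.exp K := Real.one_le_exp (by linarith)
  have hl1 : 1 ≤ Real.log Q := by linarith
  have hl2 : Real.exp K ≤ Real.log Q := by linarith
  have hl3 : 4 * K ^ 2 * D ≤ Real.log Q := by linarith
  have hl0 : 0 < Real.log Q := by linarith
  refine ⟨h3, hl1, (Real.le_log_iff_exp_le hl0).mpr hl2, ?_⟩
  generalize Real.log Q = t at *
  have hDt : 0 < D * t := mul_pos hD hl0
  have hs : 0 < Real.sqrt (D * t) := Real.sqrt_pos.mpr hDt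
  have h4 : Real.log (D * t) ≤ 2 * Real.sqrt (D * t) := by
    have h5 : Real.log (D * t) = 2 * Real.log (Real.sqrt (D * t)) := by
      rw [Real.log_sqrt hDt.le]
      ring
    rw [h5]
    have h6 := Real.log_le_sub_one_of_pos hs
    linarith
  have h7 : 2 * K * Real.sqrt (D * t) ≤ t := by
    have h8 : (2 * K * Real.sqrt (D * t)) ^ 2 ≤ t ^ 2 := by
      rw [mul_pow, Real.sq_sqrt hDt.le]
      nlinarith [mul_le_mul_of_nonneg_right hl3 hl0.le]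
    exact abs_le_of_sq_le_sq' h8 hl0.le |>.2
  have h9 := mul_le_mul_of_nonneg_left h4 (by linarith : 0 ≤ K)
  linarith

/-- One polynomial. Proof. `|P(n)| ≤ ∑_j |a_j| (2 X1)^j ≤ C X1^d`; `P(n') - P(n) = ∑_j a_j (n'^j - n^j)`,
`|n'^j - n^j| ≤ (n' - n) j (2 X1)^(j-1)`, so `|P(n') - P(n)| ≤ C (n' - n) X1^(d-1)` (`X1 ≥ 1`). -/
theorem G2_one (P : ℤ[X]) (hP : 1 ≤ P.natDegree) : ∃ L : ℕ, 1 ≤ L ∧ ∀ X1 n n' : ℕ, 1 ≤ X1 →
    n ≤ n' → n' < 2 * X1 → |P.eval (n : ℤ)| ≤ L * (X1 : ℤ) ^ P.natDegree ∧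
    X1 * |P.eval (n' : ℤ) - P.eval (n : ℤ)| ≤ L * (n' - n) * (X1 : ℤ) ^ P.natDegree := by
  set d := P.natDegree with hd
  refine ⟨∑ j ∈ range (d + 1), (P.coeff j).natAbs * ((j + 1) * 2 ^ j) + 1, by omega, ?_⟩
  intro X1 n n' hX hnn hn'
  have hL : ((∑ j ∈ range (d + 1), (P.coeff j).natAbs * ((j + 1) * 2 ^ j) + 1 : ℕ) : ℤ)
      = ∑ j ∈ range (d + 1), |P.coeff j| * ((j + 1) * 2 ^ j) + 1 := by
    push_cast
    rfl
  rw [hL]
  have hXz : (1 : ℤ) ≤ X1 := by exact_mod_cast hX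
  have hXd : (0 : ℤ) ≤ (X1 : ℤ) ^ d := by positivity
  have hXj : ∀ j ∈ range (d + 1), (X1 : ℤ) ^ j ≤ (X1 : ℤ) ^ d := fun j hj =>
    pow_le_pow_right₀ hXz (by have := mem_range.mp hj; omega)
  have hn0 : (0 : ℤ) ≤ n := by positivity
  have hnn' : (n : ℤ) ≤ n' := by exact_mod_cast hnn
  have hn2 : (n' : ℤ) ≤ 2 * X1 := by
    have : n' ≤ 2 * X1 := hn'.le
    exact_mod_cast this
  have hdn : (0 : ℤ) ≤ (n' : ℤ) - n := by linarith
  constructor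
  · rw [eval_eq_sum_range]
    refine (abs_sum_le_sum_abs _ _).trans ?_
    have h1 : ∑ j ∈ range (d + 1), |P.coeff j * (n : ℤ) ^ j|
        ≤ ∑ j ∈ range (d + 1), |P.coeff j| * ((j + 1) * 2 ^ j) * (X1 : ℤ) ^ d := by
      refine sum_le_sum fun j hj => ?_
      rw [abs_mul, mul_assoc]
      refine mul_le_mul_of_nonneg_left ?_ (abs_nonneg _)
      rw [abs_of_nonneg (by positivity : (0 : ℤ) ≤ (n : ℤ) ^ j)]
      have h2 : (n : ℤ) ^ j ≤ (2 * X1) ^ j := pow_le_pow_left₀ hn0 (hnn'.trans hn2) j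
      have h3 : ((2 : ℤ) * X1) ^ j = 2 ^ j * (X1 : ℤ) ^ j := mul_pow _ _ _
      have h4 : (2 : ℤ) ^ j * (X1 : ℤ) ^ j ≤ 2 ^ j * (X1 : ℤ) ^ d :=
        mul_le_mul_of_nonneg_left (hXj j hj) (by positivity)
      have h5 : (0 : ℤ) ≤ 2 ^ j * (X1 : ℤ) ^ d := by positivity
      have h6 : (0 : ℤ) ≤ (j : ℤ) := by positivity
      nlinarith [mul_nonneg h6 h5]
    refine h1.trans ?_
    rw [← sum_mul, add_mul, one_mul]
    linarith
  · rw [eval_eq_sum_range, eval_eq_sum_range, ← sum_sub_distrib]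
    have h1 : (X1 : ℤ) * |∑ j ∈ range (P.natDegree + 1), (P.coeff j * (n' : ℤ) ^ j - P.coeff j * (n : ℤ) ^ j)|
        ≤ ∑ j ∈ range (d + 1), |P.coeff j| * ((j + 1) * 2 ^ j) * (((n' : ℤ) - n) * (X1 : ℤ) ^ d) := by
      refine (mul_le_mul_of_nonneg_left (abs_sum_le_sum_abs _ _) (by linarith)).trans ?_
      rw [mul_sum]
      refine sum_le_sum fun j hj => ?_
      obtain ⟨p0, p1⟩ := g2_pow (2 * X1) n n' hn0 hnn' hn2 j
      have h2 : P.coeff j * (n' : ℤ) ^ j - P.coeff j * (n : ℤ) ^ j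
          = P.coeff j * ((n' : ℤ) ^ j - (n : ℤ) ^ j) := by ring
      rw [h2, abs_mul, abs_of_nonneg p0]
      have h3 : (2 * (X1 : ℤ)) ^ j ≤ 2 ^ j * (X1 : ℤ) ^ d := by
        rw [mul_pow]
        exact mul_le_mul_of_nonneg_left (hXj j hj) (by positivity)
      have h6 : (0 : ℤ) ≤ (j : ℤ) := by positivity
      have h7 : (X1 : ℤ) * ((n' : ℤ) ^ j - (n : ℤ) ^ j)
          ≤ (j + 1) * 2 ^ j * (((n' : ℤ) - n) * (X1 : ℤ) ^ d) := by
        have h8 : (j : ℤ) * (2 * (X1 : ℤ)) ^ j * ((n' : ℤ) - n)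
            ≤ (j : ℤ) * (2 ^ j * (X1 : ℤ) ^ d) * ((n' : ℤ) - n) :=
          mul_le_mul_of_nonneg_right (mul_le_mul_of_nonneg_left h3 h6) hdn
        have h9 : (0 : ℤ) ≤ 2 ^ j * (((n' : ℤ) - n) * (X1 : ℤ) ^ d) :=
          mul_nonneg (by positivity) (mul_nonneg hdn hXd)
        have h10 : 0 ≤ (X1 : ℤ) * ((n' : ℤ) ^ j - (n : ℤ) ^ j) := mul_nonneg (by linarith) p0
        nlinarith [mul_nonneg h6 h9]
      calc (X1 : ℤ) * (|P.coeff j| * ((n' : ℤ) ^ j - (n : ℤ) ^ j))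
          = |P.coeff j| * ((X1 : ℤ) * ((n' : ℤ) ^ j - (n : ℤ) ^ j)) := by ring
        _ ≤ |P.coeff j| * ((j + 1) * 2 ^ j * (((n' : ℤ) - n) * (X1 : ℤ) ^ d)) :=
            mul_le_mul_of_nonneg_left h7 (abs_nonneg _)
        _ = _ := by ring
    refine h1.trans ?_
    rw [← sum_mul]
    have h11 : 0 ≤ ((n' : ℤ) - n) * (X1 : ℤ) ^ d := mul_nonneg hdn hXd
    nlinarith

/-- Proof. `G2_one` for all `i`, `L` = `8` times the sum of the constants. `L X1^d ≤ M_i`; for the second part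
multiply by `X1 > 0`: `X1 Q^8 |P(n') - P(n)| ≤ L' (n' - n) Q^8 X1^d ≤ L' X1 X1^d ≤ X1 M_i`. -/
theorem G2_P {k : ℕ} (P : Fin k → ℤ[X]) (hP : ∀ i, 1 ≤ (P i).natDegree) : ∃ L : ℕ, 2 ≤ L ∧
    ∀ (Q X X1 : ℕ) (M : Fin k → ℕ), Geo L Q X X1 P M → ∀ i, ∀ n ∈ Ico X1 (2 * X1),
    8 * |(P i).eval (n : ℤ)| ≤ M i ∧ ∀ n' ∈ Ico X1 (2 * X1), n ≤ n' → (n' - n) * Q ^ 8 ≤ X1 →
      (Q : ℤ) ^ 8 * |(P i).eval (n' : ℤ) - (P i).eval (n : ℤ)| ≤ M i := by
  choose L hL1 hL2 using fun i => G2_one (P i) (hP i)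
  refine ⟨8 * ∑ i, L i + 2, by omega, ?_⟩
  intro Q X X1 M hG i n hn
  have hX1 : 1 ≤ X1 := hG.pos
  obtain ⟨hn1, hn2⟩ := mem_Ico.mp hn
  have hLi : L i ≤ ∑ i, L i := single_le_sum (fun j _ => Nat.zero_le _) (mem_univ i)
  have hM : (8 * (L i : ℤ)) * (X1 : ℤ) ^ (P i).natDegree ≤ M i := by
    have h1 := hG.lo i
    have h2 : 8 * L i * X1 ^ (P i).natDegree ≤ M i :=
      (Nat.mul_le_mul_right _ (by omega)).trans h1
    exact_mod_cast h2
  have hXd : (0 : ℤ) ≤ (X1 : ℤ) ^ (P i).natDegree := by positivity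
  have hL0 : (0 : ℤ) ≤ L i := by positivity
  refine ⟨?_, ?_⟩
  · have h3 := (hL2 i X1 n n hX1 le_rfl hn2).1
    nlinarith
  · intro n' hn' hnn hQ
    obtain ⟨hn1', hn2'⟩ := mem_Ico.mp hn'
    have h3 := (hL2 i X1 n n' hX1 hnn hn2').2
    have hXp : (0 : ℤ) < X1 := by exact_mod_cast hX1
    have hQz : ((n' : ℤ) - n) * (Q : ℤ) ^ 8 ≤ X1 := by
      have h4 : (((n' - n) * Q ^ 8 : ℕ) : ℤ) ≤ X1 := by exact_mod_cast hQ
      push_cast [Nat.cast_sub hnn] at h4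
      exact h4
    have h5 : (X1 : ℤ) * ((Q : ℤ) ^ 8 * |(P i).eval (n' : ℤ) - (P i).eval (n : ℤ)|)
        ≤ X1 * M i := by
      calc (X1 : ℤ) * ((Q : ℤ) ^ 8 * |(P i).eval (n' : ℤ) - (P i).eval (n : ℤ)|)
          = (Q : ℤ) ^ 8 * (X1 * |(P i).eval (n' : ℤ) - (P i).eval (n : ℤ)|) := by ring
        _ ≤ (Q : ℤ) ^ 8 * (L i * (n' - n) * (X1 : ℤ) ^ (P i).natDegree) :=
            mul_le_mul_of_nonneg_left h3 (by positivity)
        _ = (((n' : ℤ) - n) * (Q : ℤ) ^ 8) * (L i * (X1 : ℤ) ^ (P i).natDegree) := by ring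
        _ ≤ X1 * (L i * (X1 : ℤ) ^ (P i).natDegree) :=
            mul_le_mul_of_nonneg_right hQz (mul_nonneg hL0 hXd)
        _ ≤ X1 * M i := by
            refine mul_le_mul_of_nonneg_left ?_ hXp.le
            nlinarith [mul_nonneg hL0 hXd]
    exact le_of_mul_le_mul_left h5 hXp

/-- The values are in `[Y, 3Y)`. Proof. `8 ∣ M`: `M = 4 m'`, `m'` even, `Y = 3 m'`. -/
theorem G2_val (M x : ℕ) (v : ℤ) (hM : 8 ∣ M) (hv : 8 * |v| ≤ M) (hx : x ∈ Ico M (2 * M)) :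
    (Ysc M : ℤ) ≤ v + x ∧ v + x < 3 * Ysc M ∧ 4 * Ysc M = 3 * M := by
  obtain ⟨m, rfl⟩ := hM
  obtain ⟨hx1, hx2⟩ := mem_Ico.mp hx
  have hY : Ysc (8 * m) = 6 * m := by
    unfold Ysc
    omega
  rw [hY]
  have h1 := neg_le_abs v
  have h2 := le_abs_self v
  push_cast at hv ⊢
  refine ⟨?_, ?_, ?_⟩
  · have h3 : (8 * m : ℤ) ≤ x := by exact_mod_cast hx1
    linarith
  · have h3 : (x : ℤ) < 2 * (8 * m) := by exact_mod_cast hx2
    have h4 : (8 * m : ℤ) ≤ x := by exact_mod_cast hx1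
    linarith
  · ring

/-- The regime for the values. Proof. `M_i ≥ L X1^d ≥ 2 X1`, so `Y_i ≥ X1`, and `log X1 ≥ log X - log Q ≥ K log Q`.
`M_i ≤ X1^d Q^(1/8) ≤ X^(d+1)` (`Q ≤ X`), so `log Y_i ≤ (d+1) log X ≤ (d+1) C log Q`; `log log Y_i ≤ log Q/K` and
`K ≤ log log Y_i` for `Q` large. -/
theorem G2_reg {k : ℕ} (P : Fin k → ℤ[X]) (hP : ∀ i, 1 ≤ (P i).natDegree) (K C : ℝ) (hK : 1 ≤ K) :
    ∃ Q0 : ℕ, ∀ (L Q X X1 : ℕ) (M : Fin k → ℕ), Q0 ≤ Q → 2 ≤ L → Rg (K + 1) C Q X →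
    Geo L Q X X1 P M → ∀ i, RegP K Q (Ysc (M i)) ∧ X1 ≤ Ysc (M i) ∧
      Real.log (Ysc (M i)) ≤ ((P i).natDegree + 1) * Real.log X := by
  set D : ℝ := ((∑ i, (P i).natDegree : ℕ) + 1 : ℝ) * max C 1 with hD
  have hD0 : 0 < D := mul_pos (by positivity) (lt_of_lt_of_le one_pos (le_max_right _ _))
  obtain ⟨Q0, hQ0⟩ := g2_asy K D hK hD0
  refine ⟨Q0, ?_⟩
  intro L Q X X1 M hQ hL hR hG i
  obtain ⟨hQ3, hlQ1, hllQ, hasy⟩ := hQ0 Q hQ
  obtain ⟨hR1, hR2⟩ := hR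
  have hX1 : 1 ≤ X1 := hG.pos
  have hXX : X1 ≤ X := hG.le
  have hX1r : (1 : ℝ) ≤ X1 := by exact_mod_cast hX1
  have hXr : (1 : ℝ) ≤ X := by exact_mod_cast hX1.trans hXX
  have hQr : (0 : ℝ) < Q := by
    have : 0 < Q := by omega
    exact_mod_cast this
  have hlX1 : Real.log X - Real.log Q ≤ Real.log X1 := by
    have h1 : (X : ℝ) ≤ X1 * Q := by exact_mod_cast hG.ge
    have h2 := Real.log_le_log (by linarith) h1
    rw [Real.log_mul (by linarith) hQr.ne'] at h2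
    linarith
  have hlX1' : Real.log X1 ≤ Real.log X := Real.log_le_log (by linarith) (by exact_mod_cast hXX)
  have h8 : 8 ∣ M i := (Dvd.intro _ rfl : 8 ∣ 8 * Q ^ 8).trans (hG.dvdM i)
  have hY4 : 4 * Ysc (M i) = 3 * M i := by
    obtain ⟨m, hm⟩ := h8
    unfold Ysc
    omega
  have hM2 : 2 * X1 ≤ M i := by
    refine le_trans ?_ (hG.lo i)
    refine Nat.mul_le_mul hL ?_
    calc X1 = X1 ^ 1 := (pow_one _).symm
      _ ≤ X1 ^ (P i).natDegree := Nat.pow_le_pow_right hX1 (hP i)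
  have hXY : X1 ≤ Ysc (M i) := by omega
  have hYM : Ysc (M i) ≤ M i := by omega
  have hYr : (1 : ℝ) ≤ Ysc (M i) := by exact_mod_cast hX1.trans hXY
  have hlXY : Real.log X1 ≤ Real.log (Ysc (M i)) :=
    Real.log_le_log (by linarith) (by exact_mod_cast hXY)
  have hlow : K * Real.log Q ≤ Real.log (Ysc (M i)) := by linarith
  have hQX : Real.log Q ≤ Real.log X := by nlinarith
  have hup : Real.log (Ysc (M i)) ≤ ((P i).natDegree + 1) * Real.log X := by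
    have h1 : ((Ysc (M i) : ℕ) : ℝ) ≤ (X1 : ℝ) ^ (P i).natDegree * (Q : ℝ) ^ (1 / 8 : ℝ) :=
      (by exact_mod_cast hYM : ((Ysc (M i) : ℕ) : ℝ) ≤ M i).trans (hG.hi i)
    have h2 := Real.log_le_log (by linarith) h1
    rw [Real.log_mul (by positivity) (by positivity), Real.log_pow, Real.log_rpow hQr] at h2
    have h3 : ((P i).natDegree : ℝ) * Real.log X1 ≤ (P i).natDegree * Real.log X :=
      mul_le_mul_of_nonneg_left hlX1' (by positivity)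
    have h4 : (0 : ℝ) ≤ Real.log Q := by linarith
    linarith
  have hlY1 : 1 ≤ Real.log (Ysc (M i)) := by nlinarith
  refine ⟨⟨?_, ?_, hlow⟩, hXY, hup⟩
  · refine hllQ.trans (Real.log_le_log (by linarith) ?_)
    nlinarith
  · refine le_trans (mul_le_mul_of_nonneg_left (Real.log_le_log (by linarith) ?_) (by linarith)) hasy
    refine hup.trans ?_
    have h5 : Real.log X ≤ max C 1 * Real.log Q :=
      hR2.trans (mul_le_mul_of_nonneg_right (le_max_left _ _) (by linarith))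
    have h6 : (((P i).natDegree : ℕ) : ℝ) ≤ ((∑ i, (P i).natDegree : ℕ) : ℝ) := by
      have : (P i).natDegree ≤ ∑ i, (P i).natDegree :=
        single_le_sum (f := fun i => (P i).natDegree) (fun j _ => Nat.zero_le _) (mem_univ i)
      exact_mod_cast this
    have h7 : 0 ≤ max C 1 * Real.log Q := by positivity
    calc (((P i).natDegree : ℝ) + 1) * Real.log X
        ≤ (((P i).natDegree : ℝ) + 1) * (max C 1 * Real.log Q) :=
          mul_le_mul_of_nonneg_left h5 (by positivity)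
      _ ≤ (((∑ i, (P i).natDegree : ℕ) : ℝ) + 1) * (max C 1 * Real.log Q) :=
          mul_le_mul_of_nonneg_right (by linarith) h7
      _ = D * Real.log Q := by rw [hD]; ring

/-- The regime for the linear coordinate, at level `Q^100`. Proof. `X1/2 ≤ Y ≤ A X`, `X ≤ X1 Q`. -/
theorem G2_regB (A : ℕ) (K C : ℝ) (hK : 1 ≤ K) : ∃ Q0 : ℕ, ∀ (Q X X1 Y : ℕ) (B : ℤ[X]), Q0 ≤ Q →
    Rg (100 * K + 2) C Q X → 0 < X1 → X1 ≤ X → X ≤ X1 * Q → GeoB A X X1 Y B →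
    RegP K (Q ^ 100) Y ∧ Real.log Y ≤ 2 * Real.log X := by
  set D : ℝ := 2 * max C 1 with hD
  have hD0 : 0 < D := mul_pos two_pos (lt_of_lt_of_le one_pos (le_max_right _ _))
  obtain ⟨Q0, hQ0⟩ := g2_asy K D hK hD0
  refine ⟨Q0 + A, ?_⟩
  intro Q X X1 Y B hQ hR hX1 hXX hXQ hG
  obtain ⟨hQ3, hlQ1, hllQ, hasy⟩ := hQ0 Q (by omega)
  obtain ⟨hR1, hR2⟩ := hR
  have hX1r : (1 : ℝ) ≤ X1 := by exact_mod_cast hX1
  have hXr : (1 : ℝ) ≤ X := by exact_mod_cast (le_trans hX1 hXX)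
  have hQr : (0 : ℝ) < Q := by
    have : 0 < Q := by omega
    exact_mod_cast this
  have hlX1 : Real.log X - Real.log Q ≤ Real.log X1 := by
    have h1 : (X : ℝ) ≤ X1 * Q := by exact_mod_cast hXQ
    have h2 := Real.log_le_log (by linarith) h1
    rw [Real.log_mul (by linarith) hQr.ne'] at h2
    linarith
  have hY0 : 0 < Y := by
    have := hG.Ylo
    omega
  have hYr : (1 : ℝ) ≤ Y := by exact_mod_cast hY0
  have hA0 : 0 < A := by
    have h1 := hG.Yhi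
    rcases Nat.eq_zero_or_pos A with h | h
    · rw [h, zero_mul] at h1
      omega
    · exact h
  have hAr : (1 : ℝ) ≤ A := by exact_mod_cast hA0
  have hl2 : Real.log 2 ≤ Real.log Q := by
    refine Real.log_le_log two_pos ?_
    have : 2 ≤ Q := by omega
    exact_mod_cast this
  have hlA : Real.log A ≤ Real.log Q := by
    refine Real.log_le_log (by linarith) ?_
    have : A ≤ Q := by omega
    exact_mod_cast this
  have hlY : Real.log X1 ≤ Real.log 2 + Real.log Y := by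
    rw [← Real.log_mul (by norm_num) (by linarith)]
    exact Real.log_le_log (by linarith) (by exact_mod_cast hG.Ylo)
  have hKQ : Real.log Q ≤ K * Real.log Q := by nlinarith
  have hlow : K * (100 * Real.log Q) ≤ Real.log Y := by
    have h1 : (100 * K + 2) * Real.log Q = K * (100 * Real.log Q) + 2 * Real.log Q := by ring
    linarith
  have hQX : Real.log Q ≤ Real.log X := by nlinarith
  have hup : Real.log Y ≤ 2 * Real.log X := by
    have h1 : Real.log Y ≤ Real.log A + Real.log X := by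
      rw [← Real.log_mul (by linarith) (by linarith)]
      exact Real.log_le_log (by linarith) (by exact_mod_cast hG.Yhi)
    linarith
  have hlY1 : Real.log Q ≤ Real.log Y := by
    have h1 : K * (100 * Real.log Q) = 100 * (K * Real.log Q) := by ring
    linarith
  have hlQ100 : Real.log ((Q ^ 100 : ℕ) : ℝ) = 100 * Real.log Q := by
    rw [Nat.cast_pow, Real.log_pow]
    norm_num
  refine ⟨⟨?_, ?_, ?_⟩, hup⟩
  · exact hllQ.trans (Real.log_le_log (by linarith) hlY1)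
  · rw [hlQ100]
    have h5 : Real.log X ≤ max C 1 * Real.log Q :=
      hR2.trans (mul_le_mul_of_nonneg_right (le_max_left _ _) (by linarith))
    have h6 : K * Real.log (Real.log Y) ≤ K * Real.log (D * Real.log Q) := by
      refine mul_le_mul_of_nonneg_left (Real.log_le_log (by linarith) ?_) (by linarith)
      rw [hD]
      linarith
    linarith
  · rw [hlQ100]
    exact hlow

end Pool.Agent.Lib.H24P
end

-- from Lib.H59T.UME
section

/-!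
# Project H59T, chunk UME (M): the total mass of the coefficients, exceptional levels
-/

open Finset

namespace Pool.Agent.Lib.H59T

open Pool.Agent.Lib.H68T Pool.Agent.Lib.H18Q Pool.Agent.Lib.H59P

open scoped Classical in
/-- Levels with an exceptional zero (`r ≤ Q` only). Proof. As `mdl_exc` (`H59P/A4.lean`) with `kp = K`, without the lower bound for `η`: `mb p = I p + q`
(`+ 1` for `p = p0`, `+ 1 + q'` for `p = ⟨r, ψ⟩`; `0 ≤ m^(β-1) ≤ 1`), `L1_exceptional_q` (`(1-β) log Q ≤ c1 < 1`), `cl1_B0`, `B_leP`,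
`B1_leP`. -/
theorem UM_exc : ∃ c1 K C : ℝ, 0 < c1 ∧ c1 < 1 ∧ 1 ≤ K ∧ 1 ≤ C ∧ ∀ Q X : ℕ, RegP K Q X →
    ∀ (r : ℕ) [NeZero r] (ψ : DirichletCharacter ℂ r), r ≤ Q → ψ.IsPrimitive → ψ ≠ 1 → ψ ^ 2 = 1 →
    ∀ β : ℝ, β < 1 → ψ.LFunction (β : ℂ) = 0 → (1 - β) * Real.log Q ≤ c1 →
    ∃ mb : Ch → ℝ, (∀ p ∈ PC Q, 0 ≤ mb p) ∧ ∑ p ∈ PC Q, mb p ≤ C ∧
      ∀ m : ℤ, (X : ℤ) ≤ m → m ≤ 4 * X → ∀ p ∈ PC Q, ‖Bc Q X p m‖ ≤ mb p := by
  classical
  obtain ⟨c1, K1, C1, hc1, hc11, hK1, hC1, hL1⟩ := L1_exceptional_q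
  obtain ⟨K2, hK2, hLip⟩ := Bc_lip
  obtain ⟨K3, hK3, hLk⟩ := Lk_SG
  obtain ⟨K4, hK4, hB0⟩ := cl1_B0
  obtain ⟨K5, hK5, hB⟩ := B_leP
  obtain ⟨K6, hK6, hB1⟩ := B1_leP
  refine ⟨c1, max (max (max K1 K2) (max K3 K4)) (max (max K5 K6) 256),
    C1 + 6, hc1, hc11,
    hK1.trans ((le_max_left _ _).trans ((le_max_left _ _).trans (le_max_left _ _))),
    by linarith, ?_⟩
  intro Q X hreg r _ ψ hr hprim hψ1 hψ2 β hβ hLβ hsmall
  obtain ⟨kp, hkpd⟩ : ∃ kp, kp = max (max (max K1 K2) (max K3 K4)) (max (max K5 K6) 256) := ⟨_, rfl⟩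
  have hkQ : kp * Real.log Q ≤ Real.log X := by rw [hkpd]; exact hreg.2.2
  have hkp : max (max (max K1 K2) (max K3 K4)) (max (max K5 K6) 256) ≤ kp := by rw [hkpd]
  obtain ⟨K, hKd⟩ : ∃ K, K = max (max (max K1 K2) (max K3 K4)) (max (max K5 K6) 256) := ⟨_, rfl⟩
  rw [← hKd] at hreg hkp
  have k1 : K1 ≤ K := by rw [hKd]; exact (le_max_left _ _).trans ((le_max_left _ _).trans (le_max_left _ _))
  have k2 : K2 ≤ K := by rw [hKd]; exact (le_max_right _ _).trans ((le_max_left _ _).trans (le_max_left _ _))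
  have k3 : K3 ≤ K := by rw [hKd]; exact (le_max_left _ _).trans ((le_max_right _ _).trans (le_max_left _ _))
  have k4 : K4 ≤ K := by rw [hKd]; exact (le_max_right _ _).trans ((le_max_right _ _).trans (le_max_left _ _))
  have k5 : K5 ≤ K := by rw [hKd]; exact (le_max_left _ _).trans ((le_max_left _ _).trans (le_max_right _ _))
  have k6 : K6 ≤ K := by rw [hKd]; exact (le_max_right _ _).trans ((le_max_left _ _).trans (le_max_right _ _))
  have k7 : 256 ≤ K := by rw [hKd]; exact (le_max_right _ _).trans (le_max_right _ _)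
  clear hKd
  have hKp : 1 ≤ K := hK1.trans k1
  have hK0 : 0 ≤ K := by linarith
  have hQ1 : 1 ≤ Q := hreg.Q_pos hKp
  have hQ1' : (1 : ℝ) ≤ Q := by exact_mod_cast hQ1
  have hQK := hreg.Q_ge hKp
  have hlQ := hreg.logQ_ge hKp
  have hX1 : 1 ≤ X := hreg.X_pos (by linarith)
  have hX0 : (0 : ℝ) < X := by exact_mod_cast hX1
  have hr0 : 1 ≤ r := Nat.pos_of_ne_zero (NeZero.ne r)
  have hη : 0 < 1 - β := by linarith
  have hβ12 : 1 / 2 ≤ β := by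
    by_contra hcon
    have h1 : (1 / 2 : ℝ) ≤ 1 - β := by linarith [not_le.1 hcon]
    have h2 : (1 / 2 : ℝ) * 3 ≤ (1 - β) * Real.log Q :=
      mul_le_mul h1 (by linarith) (by norm_num) hη.le
    linarith
  have hL := hL1 kp (by linarith) Q X (hreg.mono hK0 k1) hkQ r ψ hr hprim hψ1 hψ2 β hβ hLβ hsmall
  have hmemψ : (⟨r, ψ⟩ : Σ r : ℕ, DirichletCharacter ℂ r) ∈ PC Q :=
    mem_PC.2 ⟨hr0, hr, hprim⟩
  have hneψ : (⟨r, ψ⟩ : Σ r : ℕ, DirichletCharacter ℂ r) ≠ p0 := by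
    intro h
    unfold p0 at h
    obtain ⟨h1, h2⟩ := Sigma.mk.inj_iff.1 h
    subst h1
    exact hψ1 (eq_of_heq h2)
  obtain ⟨x, hxd⟩ : ∃ x, x = (1 - β) * Real.log Q := ⟨_, rfl⟩
  have hx0 : 0 < x := by rw [hxd]; exact mul_pos hη (by linarith)
  rw [← hxd] at hsmall hL
  obtain ⟨q, hq⟩ : ∃ q, q = (Q : ℝ) ^ (-(5 / 2) : ℝ) := ⟨_, rfl⟩
  have hq0 : 0 ≤ q := by rw [hq]; positivity
  obtain ⟨q', hq'⟩ : ∃ q', q' = (Q : ℝ) ^ (-(3 / 2) : ℝ) := ⟨_, rfl⟩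
  have hq'0 : 0 ≤ q' := by rw [hq']; positivity
  obtain ⟨I, hI⟩ : ∃ I : (Σ r : ℕ, DirichletCharacter ℂ r) → ℝ, I = fun p =>
    (if p = p0 then ∫ t in (-(Q : ℝ) ^ 7)..((Q : ℝ) ^ 7), ‖FL X p0 t - F0 X t‖
      else if p = ⟨r, ψ⟩ then ∫ t in (-(Q : ℝ) ^ 7)..((Q : ℝ) ^ 7), ‖FL X ⟨r, ψ⟩ t + Fb X β t‖
      else ∫ t in (-(Q : ℝ) ^ 7)..((Q : ℝ) ^ 7), ‖FL X p t‖) := ⟨_, rfl⟩
  have hI0 : ∀ p, 0 ≤ I p := by
    intro p
    rw [hI]
    simp only
    split_ifs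
    · exact cl1_int_nonneg Q _
    · exact cl1_int_nonneg Q _
    · exact cl1_int_nonneg Q _
  obtain ⟨eb, heb⟩ : ∃ eb : (Σ r : ℕ, DirichletCharacter ℂ r) → ℝ, eb = fun p =>
    I p + q + (if p = ⟨r, ψ⟩ then q' else 0) := ⟨_, rfl⟩
  have heb0 : ∀ p, 0 ≤ eb p := by
    intro p
    rw [heb]
    have := hI0 p
    simp only
    split_ifs <;> linarith
  have hIsum : ∑ p ∈ PC Q, I p ≤ (C1 * Real.exp (-(kp / C1)) + 1 / Q) * x := by
    rw [ph_split (PC Q) p0 (p0_mem hQ1) (fun p => p ≠ p0) (fun _ => Iff.rfl),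
      ph_split ((PC Q).filter (fun p => p ≠ p0)) ⟨r, ψ⟩ (mem_filter.2 ⟨hmemψ, hneψ⟩)
        (fun p => p ≠ ⟨r, ψ⟩) (fun _ => Iff.rfl)]
    have hfilt : ((PC Q).filter (fun p => p ≠ p0)).filter (fun p => p ≠ ⟨r, ψ⟩) =
        (PC Q).filter (fun p => p ≠ p0 ∧ p ≠ ⟨r, ψ⟩) := by
      ext p
      simp only [mem_filter]
      tauto
    rw [hfilt]
    have e1 : I p0 = ∫ t in (-(Q : ℝ) ^ 7)..((Q : ℝ) ^ 7), ‖FL X p0 t - F0 X t‖ := by
      rw [hI]
      beta_reduce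
      rw [if_pos rfl]
    have e2 : I ⟨r, ψ⟩ = ∫ t in (-(Q : ℝ) ^ 7)..((Q : ℝ) ^ 7), ‖FL X ⟨r, ψ⟩ t + Fb X β t‖ := by
      rw [hI]
      beta_reduce
      rw [if_neg hneψ, if_pos rfl]
    have e3 : ∑ p ∈ (PC Q).filter (fun p => p ≠ p0 ∧ p ≠ ⟨r, ψ⟩), I p =
        ∑ p ∈ (PC Q).filter (fun p => p ≠ p0 ∧ p ≠ ⟨r, ψ⟩),
          ∫ t in (-(Q : ℝ) ^ 7)..((Q : ℝ) ^ 7), ‖FL X p t‖ := by
      refine Finset.sum_congr rfl fun p hp => ?_
      rw [hI]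
      simp only
      rw [if_neg (mem_filter.1 hp).2.1, if_neg (mem_filter.1 hp).2.2]
    rw [e1, e2, e3]
    linarith
  have hXr : (1 : ℝ) ≤ X := by exact_mod_cast hX1
  have hx1 : x ≤ 1 := by linarith
  have hqle : q ≤ 1 := by
    rw [hq]
    exact Real.rpow_le_one_of_one_le_of_nonpos hQ1' (by norm_num)
  have hq'le : q' ≤ 1 := by
    rw [hq']
    exact Real.rpow_le_one_of_one_le_of_nonpos hQ1' (by norm_num)
  have hIle : ∑ p ∈ PC Q, I p ≤ C1 + 1 := by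
    have h1 : Real.exp (-(kp / C1)) ≤ 1 := by
      rw [Real.exp_le_one_iff]
      have : 0 ≤ kp / C1 := div_nonneg (by linarith) (by linarith)
      linarith
    have h2 : 1 / (Q : ℝ) ≤ 1 := by
      rw [div_le_one (by linarith)]
      exact hQ1'
    have h3 : C1 * Real.exp (-(kp / C1)) ≤ C1 * 1 := mul_le_mul_of_nonneg_left h1 (by linarith)
    have h4 : 0 ≤ C1 * Real.exp (-(kp / C1)) + 1 / Q := by positivity
    have h5 : (C1 * Real.exp (-(kp / C1)) + 1 / Q) * x ≤ (C1 * Real.exp (-(kp / C1)) + 1 / Q) * 1 :=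
      mul_le_mul_of_nonneg_left hx1 h4
    linarith
  refine ⟨fun p => eb p + (if p = p0 then 1 else 0) + (if p = ⟨r, ψ⟩ then 1 else 0), fun p _ => ?_, ?_,
    fun m hm hm4 p hp => ?_⟩
  · have := heb0 p
    beta_reduce
    split_ifs <;> linarith
  · rw [Finset.sum_add_distrib, Finset.sum_add_distrib, Finset.sum_ite_eq' (PC Q) p0 (fun _ => (1 : ℝ)),
      if_pos (p0_mem hQ1), Finset.sum_ite_eq' (PC Q) _ (fun _ => (1 : ℝ)), if_pos hmemψ]
    have h1 : ∑ p ∈ PC Q, eb p = ∑ p ∈ PC Q, I p + (PC Q).card * q + q' := by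
      rw [heb, Finset.sum_add_distrib, Finset.sum_add_distrib, Finset.sum_const, nsmul_eq_mul,
        Finset.sum_ite_eq' (PC Q) _ (fun _ => q'), if_pos hmemψ]
    have h3 : ((PC Q).card : ℝ) * q ≤ 1 / Real.sqrt Q := by
      rw [← (cl1_Qpow hQ1).1, ← hq]
      apply mul_le_mul_of_nonneg_right _ hq0
      exact_mod_cast card_PC_le Q
    have h4 : 1 / Real.sqrt Q ≤ 1 := by
      rw [div_le_one (Real.sqrt_pos.2 (by linarith))]
      exact Real.one_le_sqrt.2 hQ1'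
    rw [h1]
    linarith
  · have hm1 : (1 : ℝ) ≤ (m : ℝ) := by
      have : (1 : ℤ) ≤ m := by omega
      exact_mod_cast this
    beta_reduce
    by_cases h : p = p0
    · have h'' : p0 ≠ (⟨r, ψ⟩ : Σ r : ℕ, DirichletCharacter ℂ r) := fun h3 => hneψ h3.symm
      rw [h, if_pos rfl, if_neg h'', add_zero]
      have h1 := hB0 Q X (hreg.mono hK0 k4) m hm hm4
      rw [← hq] at h1
      have h2 : ‖Bc Q X p0 m‖ ≤ ‖Bc Q X p0 m - 1‖ + 1 := by
        have h3 := norm_add_le (Bc Q X p0 m - 1) 1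
        rw [sub_add_cancel, norm_one] at h3
        exact h3
      have h3 : eb p0 = (∫ t in (-(Q : ℝ) ^ 7)..((Q : ℝ) ^ 7), ‖FL X p0 t - F0 X t‖) + q := by
        rw [heb, hI]
        beta_reduce
        rw [if_pos rfl, if_neg h'', add_zero]
      rw [h3]
      linarith
    · by_cases h' : p = ⟨r, ψ⟩
      · rw [if_neg h, if_pos h', h', add_zero]
        have h1 := hB1 Q X (hreg.mono hK0 k6) ⟨r, ψ⟩ hr0 β hβ12 hβ.le m hm hm4
        rw [← hq'] at h1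
        have h2 : ‖(((m : ℝ) ^ (β - 1) : ℝ) : ℂ)‖ ≤ 1 := by
          rw [Complex.norm_real, Real.norm_eq_abs, abs_of_nonneg (Real.rpow_nonneg (by linarith) _)]
          exact Real.rpow_le_one_of_one_le_of_nonpos hm1 (by linarith)
        have h3 : eb ⟨r, ψ⟩ = (∫ t in (-(Q : ℝ) ^ 7)..((Q : ℝ) ^ 7), ‖FL X ⟨r, ψ⟩ t + Fb X β t‖) + q + q' := by
          rw [heb, hI]
          beta_reduce
          rw [if_neg hneψ, if_pos rfl, if_pos rfl]
        rw [h3]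
        have h4 := norm_sub_le (Bc Q X ⟨r, ψ⟩ m + (((m : ℝ) ^ (β - 1) : ℝ) : ℂ)) (((m : ℝ) ^ (β - 1) : ℝ) : ℂ)
        rw [add_sub_cancel_right] at h4
        have h5 : ‖Bc Q X ⟨r, ψ⟩ m + (((m : ℝ) ^ (β - 1) : ℝ) : ℂ)‖ ≤
            (∫ t in (-(Q : ℝ) ^ 7)..((Q : ℝ) ^ 7), ‖FL X ⟨r, ψ⟩ t + Fb X β t‖) + q' := h1
        linarith
      · rw [if_neg h, if_neg h', add_zero, add_zero]
        have h1 := hB Q X (hreg.mono hK0 k5) p (mem_PC.1 hp).1 m hm hm4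
        rw [← hq] at h1
        have h3 : eb p = (∫ t in (-(Q : ℝ) ^ 7)..((Q : ℝ) ^ 7), ‖FL X p t‖) + q := by
          rw [heb, hI]
          beta_reduce
          rw [if_neg h, if_neg h', if_neg h', add_zero]
        rw [h3]
        exact h1

end Pool.Agent.Lib.H59T
end

-- from Lib.H59T.UMG
section

/-!
# Project H59T, chunk UMG (M): the total mass of the coefficients, good levels
-/

open Finset

namespace Pool.Agent.Lib.H59T

open Pool.Agent.Lib.H68T Pool.Agent.Lib.H18Q Pool.Agent.Lib.H59P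

open scoped Classical in
/-- Good levels. Proof. As `mdl_good` (`H59P/A3.lean`) with `kp = K`: `mb p = eb p` for `p ≠ p0` and `1 + eb p0` for `p0`, where `eb` is as
there: `L1_good_q`, `cl1_B0`, `B_leP`. -/
theorem UM_good (c : ℝ) (hc : 0 < c) : ∃ K C : ℝ, 1 ≤ K ∧ 1 ≤ C ∧ ∀ Q X : ℕ, RegP K Q X → Good c Q →
    ∃ mb : Ch → ℝ, (∀ p ∈ PC Q, 0 ≤ mb p) ∧ ∑ p ∈ PC Q, mb p ≤ C ∧
      ∀ m : ℤ, (X : ℤ) ≤ m → m ≤ 4 * X → ∀ p ∈ PC Q, ‖Bc Q X p m‖ ≤ mb p := by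
  classical
  obtain ⟨K1, C, hK1, hC, hL1⟩ := L1_good_q c hc
  obtain ⟨K2, hK2, hLip⟩ := Bc_lip
  obtain ⟨K3, hK3, hLk⟩ := Lk_SG
  obtain ⟨K4, hK4, hB0⟩ := cl1_B0
  obtain ⟨K5, hK5, hB⟩ := B_leP
  refine ⟨max (max (max K1 K2) (max K3 K4)) (max K5 16), C + 2,
    hK1.trans ((le_max_left _ _).trans ((le_max_left _ _).trans (le_max_left _ _))), by linarith, ?_⟩
  intro Q X hreg hgood
  obtain ⟨kp, hkpd⟩ : ∃ kp, kp = max (max (max K1 K2) (max K3 K4)) (max K5 16) := ⟨_, rfl⟩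
  have hkQ : kp * Real.log Q ≤ Real.log X := by rw [hkpd]; exact hreg.2.2
  have hkp : max (max (max K1 K2) (max K3 K4)) (max K5 16) ≤ kp := by rw [hkpd]
  obtain ⟨K, hKd⟩ : ∃ K, K = max (max (max K1 K2) (max K3 K4)) (max K5 16) := ⟨_, rfl⟩
  rw [← hKd] at hreg hkp
  have k1 : K1 ≤ K := by rw [hKd]; exact (le_max_left _ _).trans ((le_max_left _ _).trans (le_max_left _ _))
  have k2 : K2 ≤ K := by rw [hKd]; exact (le_max_right _ _).trans ((le_max_left _ _).trans (le_max_left _ _))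
  have k3 : K3 ≤ K := by rw [hKd]; exact (le_max_left _ _).trans ((le_max_right _ _).trans (le_max_left _ _))
  have k4 : K4 ≤ K := by rw [hKd]; exact (le_max_right _ _).trans ((le_max_right _ _).trans (le_max_left _ _))
  have k5 : K5 ≤ K := by rw [hKd]; exact (le_max_left _ _).trans (le_max_right _ _)
  have k6 : 16 ≤ K := by rw [hKd]; exact (le_max_right _ _).trans (le_max_right _ _)
  clear hKd
  have hKp : 1 ≤ K := hK1.trans k1
  have hK0 : 0 ≤ K := by linarith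
  have hQ1 : 1 ≤ Q := hreg.Q_pos hKp
  have hQ1' : (1 : ℝ) ≤ Q := by exact_mod_cast hQ1
  have hQK := hreg.Q_ge hKp
  have hX0 : (0 : ℝ) < X := by exact_mod_cast hreg.X_pos (by linarith)
  have hL := hL1 kp (by linarith) Q X (hreg.mono hK0 k1) hkQ hgood
  obtain ⟨q, hq⟩ : ∃ q, q = (Q : ℝ) ^ (-(5 / 2) : ℝ) := ⟨_, rfl⟩
  have hq0 : 0 ≤ q := by rw [hq]; positivity
  obtain ⟨eb, heb⟩ : ∃ eb : (Σ r : ℕ, DirichletCharacter ℂ r) → ℝ, eb = fun p =>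
    (if p = p0 then ∫ t in (-(Q : ℝ) ^ 7)..((Q : ℝ) ^ 7), ‖FL X p0 t - F0 X t‖
      else ∫ t in (-(Q : ℝ) ^ 7)..((Q : ℝ) ^ 7), ‖FL X p t‖) + q := ⟨_, rfl⟩
  have heb0 : ∀ p, 0 ≤ eb p := by
    intro p
    rw [heb]
    simp only
    split_ifs
    · exact add_nonneg (cl1_int_nonneg Q _) hq0
    · exact add_nonneg (cl1_int_nonneg Q _) hq0
  have hsum : ∑ p ∈ PC Q, eb p ≤ C * Real.exp (-(kp / C)) + (Q : ℝ) ^ (-(1 / 4) : ℝ) := by
    have h1 : ∑ p ∈ PC Q, eb p =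
        (∑ p ∈ PC Q, (if p = p0 then ∫ t in (-(Q : ℝ) ^ 7)..((Q : ℝ) ^ 7), ‖FL X p0 t - F0 X t‖
          else ∫ t in (-(Q : ℝ) ^ 7)..((Q : ℝ) ^ 7), ‖FL X p t‖)) + (PC Q).card * q := by
      rw [heb, Finset.sum_add_distrib, Finset.sum_const, nsmul_eq_mul]
    rw [h1, ph_split (PC Q) p0 (p0_mem hQ1) (fun p => p ≠ p0) (fun _ => Iff.rfl), if_pos rfl]
    have h2 : ∑ p ∈ (PC Q).filter (fun p => p ≠ p0),
        (if p = p0 then ∫ t in (-(Q : ℝ) ^ 7)..((Q : ℝ) ^ 7), ‖FL X p0 t - F0 X t‖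
          else ∫ t in (-(Q : ℝ) ^ 7)..((Q : ℝ) ^ 7), ‖FL X p t‖) =
        ∑ p ∈ (PC Q).filter (fun p => p ≠ p0), ∫ t in (-(Q : ℝ) ^ 7)..((Q : ℝ) ^ 7), ‖FL X p t‖ :=
      Finset.sum_congr rfl fun p hp => by rw [if_neg (mem_filter.1 hp).2]
    rw [h2]
    have h3 : ((PC Q).card : ℝ) * q ≤ 1 / Real.sqrt Q := by
      rw [← (cl1_Qpow hQ1).1, ← hq]
      apply mul_le_mul_of_nonneg_right _ hq0
      exact_mod_cast card_PC_le Q
    have h4 := a3_q4 (Q := Q) (by linarith)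
    have h5 := a3_inv (Q := Q) (by linarith)
    have h6 : 2 / Real.sqrt Q = 1 / Real.sqrt Q + 1 / Real.sqrt Q := by ring
    linarith
  have hE1 : C * Real.exp (-(kp / C)) + (Q : ℝ) ^ (-(1 / 4) : ℝ) ≤ C + 1 := by
    have h1 : Real.exp (-(kp / C)) ≤ 1 := by
      rw [Real.exp_le_one_iff]
      have : 0 ≤ kp / C := div_nonneg (by linarith) (by linarith)
      linarith
    have h2 : (Q : ℝ) ^ (-(1 / 4) : ℝ) ≤ 1 :=
      Real.rpow_le_one_of_one_le_of_nonpos hQ1' (by norm_num)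
    have h3 : C * Real.exp (-(kp / C)) ≤ C * 1 := mul_le_mul_of_nonneg_left h1 (by linarith)
    linarith
  refine ⟨fun p => eb p + (if p = p0 then 1 else 0), fun p _ => ?_, ?_, fun m hm hm4 p hp => ?_⟩
  · have := heb0 p
    beta_reduce
    split_ifs <;> linarith
  · rw [Finset.sum_add_distrib, Finset.sum_ite_eq' (PC Q) p0 (fun _ => (1 : ℝ)), if_pos (p0_mem hQ1)]
    linarith
  · beta_reduce
    by_cases h : p = p0
    · rw [if_pos h, h]
      have h1 := hB0 Q X (hreg.mono hK0 k4) m hm hm4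
      have h2 : ‖Bc Q X p0 m‖ ≤ ‖Bc Q X p0 m - 1‖ + 1 := by
        have h3 := norm_add_le (Bc Q X p0 m - 1) 1
        rw [sub_add_cancel, norm_one] at h3
        exact h3
      rw [← hq] at h1
      have h3 : eb p0 = (∫ t in (-(Q : ℝ) ^ 7)..((Q : ℝ) ^ 7), ‖FL X p0 t - F0 X t‖) + q := by
        rw [heb]
        beta_reduce
        rw [if_pos rfl]
      rw [h3]
      linarith
    · rw [if_neg h, add_zero]
      have h1 := hB Q X (hreg.mono hK0 k5) p (mem_PC.1 hp).1 m hm hm4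
      rw [← hq] at h1
      have h3 : eb p = (∫ t in (-(Q : ℝ) ^ 7)..((Q : ℝ) ^ 7), ‖FL X p t‖) + q := by
        rw [heb]
        beta_reduce
        rw [if_neg h]
      rw [h3]
      exact h1

end Pool.Agent.Lib.H59T
end

-- from Lib.H59T.U3
section

/-!
# Project H59T, chunk U3 (M): Gowers-Cauchy-Schwarz on `ZMod N`
-/

open Finset

namespace Pool.Agent.Lib.H59T

/-- the square of a sum, by differences -/
theorem u3_sq (N : ℕ) [NeZero N] (g : ZMod N → ℂ) :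
    (((‖∑ z : ZMod N, g z‖ ^ 2 : ℝ)) : ℂ) = ∑ h : ZMod N, ∑ z : ZMod N, g z * star (g (z + h)) := by
  have e2 : (((‖∑ z : ZMod N, g z‖ ^ 2 : ℝ)) : ℂ) = (∑ z : ZMod N, g z) * star (∑ z : ZMod N, g z) := by
    rw [Complex.star_def, Complex.mul_conj, Complex.normSq_eq_norm_sq]
  rw [e2, star_sum, Finset.sum_mul_sum, Finset.sum_comm]
  have e3 : ∀ z : ZMod N, ∑ h : ZMod N, g z * star (g (z + h)) = ∑ w : ZMod N, g z * star (g w) := by
    intro z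
    rw [← Equiv.sum_comp (Equiv.addLeft z) (fun w => g z * star (g w))]
    rfl
  rw [Finset.sum_comm, Finset.sum_comm (f := fun h z => g z * star (g (z + h)))]
  exact (Finset.sum_congr rfl fun z _ => e3 z).symm

/-- Cauchy-Schwarz over pairs -/
theorem u3_cs (N : ℕ) [NeZero N] (b : ZMod N → ZMod N → ℝ) :
    (∑ h : ZMod N, ∑ k : ZMod N, b h k) ^ 2 ≤ (N : ℝ) ^ 2 * ∑ h : ZMod N, ∑ k : ZMod N, b h k ^ 2 := by
  have h3 := sq_sum_le_card_mul_sum_sq (s := (univ : Finset (ZMod N × ZMod N)))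
    (f := fun p => b p.1 p.2)
  rw [Finset.card_univ, Fintype.card_prod, ZMod.card, Fintype.sum_prod_type, Fintype.sum_prod_type] at h3
  refine h3.trans (le_of_eq ?_)
  push_cast
  ring

/-- Proof. Put `Δ_h f(z) = f(z) star f(z+h)`. Expanding the squares, the left side `X` is
`∑_{h,z,y,y'} Δ_h f0(z) Δ_h f1(z+y) Δ_h f2(z+y') Δ_h f3(z+y+y')`, so
`X ≤ ∑_{h,z,y'} ‖∑_y Δ_h f1(z+y) Δ_h f3(z+y+y')‖ = N ∑_{h,y'} ‖∑_u Δ_h f1(u) Δ_h f3(u+y')‖ ≤ N (N² S)^(1/2)` with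
`S = ∑_{h,y'} ‖∑_u Δ_h f1(u) Δ_h f3(u+y')‖² = ∑_{h,k} ∑_u Δ_k Δ_h f1(u) ∑_{y'} Δ_k Δ_h f3(u+y')
≤ N ∑_{h,k} ‖∑_s Δ_k Δ_h f3(s)‖ ≤ N · N (UU f3)^(1/2)`. So `X ≤ N² (N² (UU f3)^(1/2))^(1/2)`. -/
theorem U3_top (N : ℕ) [NeZero N] (f0 f1 f2 f3 : ZMod N → ℂ) (h0 : ∀ t, ‖f0 t‖ ≤ 1)
    (h1 : ∀ t, ‖f1 t‖ ≤ 1) (h2 : ∀ t, ‖f2 t‖ ≤ 1) (h3 : ∀ t, ‖f3 t‖ ≤ 1) :
    ∑ y : ZMod N, ∑ y' : ZMod N, ‖∑ z : ZMod N, f0 z * f1 (z + y) * f2 (z + y') * f3 (z + y + y')‖ ^ 2 ≤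
      (N : ℝ) ^ 3 * (UU f3) ^ (1 / 4 : ℝ) := by
  have hN0 : (0 : ℝ) < N := by exact_mod_cast Nat.pos_of_ne_zero (NeZero.ne N)
  set D : (ZMod N → ℂ) → ZMod N → ZMod N → ℂ := fun f h z => f z * star (f (z + h)) with hD
  have hDn : ∀ f : ZMod N → ℂ, (∀ t, ‖f t‖ ≤ 1) → ∀ h z, ‖D f h z‖ ≤ 1 := by
    intro f hf h z
    simp only [hD, norm_mul, norm_star]
    exact mul_le_one₀ (hf _) (norm_nonneg _) (hf _)
  set X : ℝ := ∑ y : ZMod N, ∑ y' : ZMod N,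
    ‖∑ z : ZMod N, f0 z * f1 (z + y) * f2 (z + y') * f3 (z + y + y')‖ ^ 2 with hX
  have hX0 : 0 ≤ X := Finset.sum_nonneg fun _ _ => Finset.sum_nonneg fun _ _ => by positivity
  set C : ZMod N → ZMod N → ℂ := fun h y' => ∑ u : ZMod N, D f1 h u * D f3 h (u + y') with hC
  have s1 : (X : ℂ) = ∑ h : ZMod N, ∑ z : ZMod N, ∑ y' : ZMod N, D f0 h z * D f2 h (z + y') * C h y' := by
    have e1 : ∀ h z y' : ZMod N, C h y' = ∑ y : ZMod N, D f1 h (z + y) * D f3 h (z + y + y') := by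
      intro h z y'
      simp only [hC]
      rw [← Equiv.sum_comp (Equiv.addLeft z)]
      rfl
    have e2 : (X : ℂ) = ∑ y : ZMod N, ∑ y' : ZMod N, ∑ h : ZMod N, ∑ z : ZMod N,
        D f0 h z * D f2 h (z + y') * (D f1 h (z + y) * D f3 h (z + y + y')) := by
      rw [hX, Complex.ofReal_sum]
      refine Finset.sum_congr rfl fun y _ => ?_
      rw [Complex.ofReal_sum]
      refine Finset.sum_congr rfl fun y' _ => ?_
      rw [u3_sq]
      refine Finset.sum_congr rfl fun h _ => Finset.sum_congr rfl fun z _ => ?_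
      simp only [hD, star_mul']
      have a1 : z + h + y = z + y + h := by ring
      have a2 : z + h + y' = z + y' + h := by ring
      have a3 : z + y + h + y' = z + y + y' + h := by ring
      rw [a1, a2, a3]
      ring
    rw [e2]
    have e3 : ∀ y : ZMod N, ∑ y' : ZMod N, ∑ h : ZMod N, ∑ z : ZMod N,
        D f0 h z * D f2 h (z + y') * (D f1 h (z + y) * D f3 h (z + y + y')) =
        ∑ h : ZMod N, ∑ z : ZMod N, ∑ y' : ZMod N,
        D f0 h z * D f2 h (z + y') * (D f1 h (z + y) * D f3 h (z + y + y')) := by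
      intro y
      rw [Finset.sum_comm]
      exact Finset.sum_congr rfl fun h _ => Finset.sum_comm
    rw [Finset.sum_congr rfl fun y _ => e3 y, Finset.sum_comm]
    refine Finset.sum_congr rfl fun h _ => ?_
    rw [Finset.sum_comm]
    refine Finset.sum_congr rfl fun z _ => ?_
    rw [Finset.sum_comm]
    refine Finset.sum_congr rfl fun y' _ => ?_
    rw [e1 h z y', Finset.mul_sum]
  have s2 : X ≤ N * ∑ h : ZMod N, ∑ y' : ZMod N, ‖C h y'‖ := by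
    have e1 : X = ‖(X : ℂ)‖ := by rw [Complex.norm_real, Real.norm_of_nonneg hX0]
    rw [e1, s1, Finset.mul_sum]
    refine (norm_sum_le _ _).trans (Finset.sum_le_sum fun h _ => ?_)
    refine (norm_sum_le _ _).trans ?_
    calc _ ≤ ∑ _z : ZMod N, ∑ y' : ZMod N, ‖C h y'‖ := by
          refine Finset.sum_le_sum fun z _ => (norm_sum_le _ _).trans (Finset.sum_le_sum fun y' _ => ?_)
          rw [norm_mul, norm_mul]
          have e4 : ‖D f0 h z‖ * ‖D f2 h (z + y')‖ ≤ 1 :=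
            mul_le_one₀ (hDn f0 h0 h z) (norm_nonneg _) (hDn f2 h2 h _)
          calc _ ≤ 1 * ‖C h y'‖ := mul_le_mul_of_nonneg_right e4 (norm_nonneg _)
            _ = ‖C h y'‖ := one_mul _
      _ = N * ∑ y' : ZMod N, ‖C h y'‖ := by rw [Finset.sum_const, Finset.card_univ, ZMod.card, nsmul_eq_mul]
  set S : ℝ := ∑ h : ZMod N, ∑ y' : ZMod N, ‖C h y'‖ ^ 2 with hS
  have hS0 : 0 ≤ S := Finset.sum_nonneg fun _ _ => Finset.sum_nonneg fun _ _ => by positivity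
  set E : ZMod N → ZMod N → ℂ := fun h k =>
    ∑ s : ZMod N, f3 s * star (f3 (s + h)) * star (f3 (s + k)) * f3 (s + h + k) with hE
  have s3 : (S : ℂ) = ∑ h : ZMod N, ∑ k : ZMod N, (∑ u : ZMod N, D f1 h u * star (D f1 h (u + k))) * E h k := by
    rw [hS, Complex.ofReal_sum]
    refine Finset.sum_congr rfl fun h _ => ?_
    rw [Complex.ofReal_sum]
    have e1 : ∀ y' : ZMod N, ((‖C h y'‖ ^ 2 : ℝ) : ℂ) = ∑ k : ZMod N, ∑ u : ZMod N,
        (D f1 h u * star (D f1 h (u + k))) * (D f3 h (u + y') * star (D f3 h (u + y' + k))) := by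
      intro y'
      simp only [hC]
      rw [u3_sq]
      refine Finset.sum_congr rfl fun k _ => Finset.sum_congr rfl fun u _ => ?_
      have a1 : u + k + y' = u + y' + k := by ring
      rw [star_mul', a1]
      ring
    rw [Finset.sum_congr rfl fun y' _ => e1 y', Finset.sum_comm]
    refine Finset.sum_congr rfl fun k _ => ?_
    rw [Finset.sum_comm, Finset.sum_mul]
    refine Finset.sum_congr rfl fun u _ => ?_
    rw [← Finset.mul_sum]
    congr 1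
    simp only [hE]
    rw [← Equiv.sum_comp (Equiv.addLeft u) (fun s => f3 s * star (f3 (s + h)) * star (f3 (s + k)) * f3 (s + h + k))]
    refine Finset.sum_congr rfl fun y' _ => ?_
    simp only [hD, Equiv.coe_addLeft, star_mul', star_star]
    have a1 : u + y' + k + h = u + y' + h + k := by ring
    rw [a1]
    ring
  have s4 : S ≤ N * ∑ h : ZMod N, ∑ k : ZMod N, ‖E h k‖ := by
    have e1 : S = ‖(S : ℂ)‖ := by rw [Complex.norm_real, Real.norm_of_nonneg hS0]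
    rw [e1, s3, Finset.mul_sum]
    refine (norm_sum_le _ _).trans (Finset.sum_le_sum fun h _ => ?_)
    rw [Finset.mul_sum]
    refine (norm_sum_le _ _).trans (Finset.sum_le_sum fun k _ => ?_)
    rw [norm_mul]
    refine mul_le_mul_of_nonneg_right ?_ (norm_nonneg _)
    calc _ ≤ ∑ u : ZMod N, ‖D f1 h u * star (D f1 h (u + k))‖ := norm_sum_le _ _
      _ ≤ ∑ _u : ZMod N, (1 : ℝ) := by
        refine Finset.sum_le_sum fun u _ => ?_
        rw [norm_mul, norm_star]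
        exact mul_le_one₀ (hDn f1 h1 h _) (norm_nonneg _) (hDn f1 h1 h _)
      _ = N := by rw [Finset.sum_const, Finset.card_univ, ZMod.card, nsmul_eq_mul, mul_one]
  have hUU : ∑ h : ZMod N, ∑ k : ZMod N, ‖E h k‖ ^ 2 = UU f3 := rfl
  have hUU0 : 0 ≤ UU f3 := Finset.sum_nonneg fun _ _ => Finset.sum_nonneg fun _ _ => by positivity
  have c1 := u3_cs N (fun h y' => ‖C h y'‖)
  have c2 := u3_cs N (fun h k => ‖E h k‖)
  rw [hUU] at c2
  set P : ℝ := ∑ h : ZMod N, ∑ y' : ZMod N, ‖C h y'‖ with hP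
  set R : ℝ := ∑ h : ZMod N, ∑ k : ZMod N, ‖E h k‖ with hR
  have hP0 : 0 ≤ P := Finset.sum_nonneg fun _ _ => Finset.sum_nonneg fun _ _ => norm_nonneg _
  have hR0 : 0 ≤ R := Finset.sum_nonneg fun _ _ => Finset.sum_nonneg fun _ _ => norm_nonneg _
  have c3 : P ^ 2 ≤ (N : ℝ) ^ 2 * S := c1
  have d1 : S ^ 2 ≤ (N : ℝ) ^ 4 * UU f3 := by
    calc S ^ 2 ≤ (N * R) ^ 2 := pow_le_pow_left₀ hS0 s4 2
      _ = (N : ℝ) ^ 2 * R ^ 2 := by ring
      _ ≤ (N : ℝ) ^ 2 * ((N : ℝ) ^ 2 * UU f3) := mul_le_mul_of_nonneg_left c2 (by positivity)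
      _ = (N : ℝ) ^ 4 * UU f3 := by ring
  have d2 : X ^ 2 ≤ (N : ℝ) ^ 4 * S := by
    calc X ^ 2 ≤ (N * P) ^ 2 := pow_le_pow_left₀ hX0 s2 2
      _ = (N : ℝ) ^ 2 * P ^ 2 := by ring
      _ ≤ (N : ℝ) ^ 2 * ((N : ℝ) ^ 2 * S) := mul_le_mul_of_nonneg_left c3 (by positivity)
      _ = (N : ℝ) ^ 4 * S := by ring
  have d3 : X ^ 4 ≤ (N : ℝ) ^ 12 * UU f3 := by
    calc X ^ 4 = (X ^ 2) ^ 2 := by ring
      _ ≤ ((N : ℝ) ^ 4 * S) ^ 2 := pow_le_pow_left₀ (by positivity) d2 2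
      _ = (N : ℝ) ^ 8 * S ^ 2 := by ring
      _ ≤ (N : ℝ) ^ 8 * ((N : ℝ) ^ 4 * UU f3) := mul_le_mul_of_nonneg_left d1 (by positivity)
      _ = (N : ℝ) ^ 12 * UU f3 := by ring
  have d4 : X ^ 4 ≤ ((N : ℝ) ^ 3 * (UU f3) ^ (1 / 4 : ℝ)) ^ 4 := by
    refine d3.trans (le_of_eq ?_)
    have e5 : ((UU f3) ^ (1 / 4 : ℝ)) ^ 4 = UU f3 := by
      rw [← Real.rpow_natCast, ← Real.rpow_mul hUU0]
      norm_num
    rw [mul_pow, e5]
    ring
  exact (pow_le_pow_iff_left₀ hX0 (by positivity) (by norm_num)).1 d4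

end Pool.Agent.Lib.H59T
end

-- from Lib.H59T.U3B
section

/-!
# Project H59T, chunk U3B (M): the same for the forms `2z + e_0`, …, and any of the four functions
-/

open Finset

namespace Pool.Agent.Lib.H59T

theorem u3b_neg (N : ℕ) [NeZero N] (H : ZMod N → ℝ) : ∑ y : ZMod N, H (-y) = ∑ y : ZMod N, H y :=
  Equiv.sum_comp (Equiv.neg (ZMod N)) H

theorem u3b_add (N : ℕ) [NeZero N] (c : ZMod N) (H : ZMod N → ℂ) : ∑ z : ZMod N, H (z + c) = ∑ z : ZMod N, H z :=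
  Equiv.sum_comp (Equiv.addRight c) H

/-- Proof. `i = 3`: `U3_top`. `i = 0`: substitute `z → z + y + y'`, `y → -y`, `y' → -y'` (inner resp. outer sum); `i = 1`: `z → z + y'`,
`y' → -y'`; `i = 2`: `z → z + y`, `y → -y`. -/
theorem U3B_any (N : ℕ) [NeZero N] (f : Fin 4 → ZMod N → ℂ) (hf : ∀ i t, ‖f i t‖ ≤ 1) (i : Fin 4) :
    ∑ y : ZMod N, ∑ y' : ZMod N,
      ‖∑ z : ZMod N, f 0 z * f 1 (z + y) * f 2 (z + y') * f 3 (z + y + y')‖ ^ 2 ≤
      (N : ℝ) ^ 3 * (UU (f i)) ^ (1 / 4 : ℝ) := by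
  fin_cases i
  · refine le_trans (le_of_eq ?_) (U3_top N (f 3) (f 2) (f 1) (f 0) (hf 3) (hf 2) (hf 1) (hf 0))
    rw [← u3b_neg N]
    refine Finset.sum_congr rfl fun y _ => ?_
    rw [← u3b_neg N]
    refine Finset.sum_congr rfl fun y' _ => ?_
    rw [← u3b_add N (y + y')]
    refine congrArg (fun w : ℂ => ‖w‖ ^ 2) ?_
    refine Finset.sum_congr rfl fun z _ => ?_
    have e1 : z + (y + y') + -y = z + y' := by ring
    have e2 : z + (y + y') + -y' = z + y := by ring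
    have e3 : z + y' + -y' = z := by ring
    have e4 : z + (y + y') = z + y + y' := by ring
    rw [e1, e2, e3, e4]
    ring
  · refine le_trans (le_of_eq ?_) (U3_top N (f 2) (f 3) (f 0) (f 1) (hf 2) (hf 3) (hf 0) (hf 1))
    refine Finset.sum_congr rfl fun y _ => ?_
    rw [← u3b_neg N]
    refine Finset.sum_congr rfl fun y' _ => ?_
    rw [← u3b_add N y']
    refine congrArg (fun w : ℂ => ‖w‖ ^ 2) ?_
    refine Finset.sum_congr rfl fun z _ => ?_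
    have e1 : z + y' + y = z + y + y' := by ring
    have e2 : z + y' + -y' = z := by ring
    have e3 : z + y + y' + -y' = z + y := by ring
    rw [e1, e2, e3]
    ring
  · refine le_trans (le_of_eq ?_) (U3_top N (f 1) (f 0) (f 3) (f 2) (hf 1) (hf 0) (hf 3) (hf 2))
    rw [← u3b_neg N]
    refine Finset.sum_congr rfl fun y _ => ?_
    refine Finset.sum_congr rfl fun y' _ => ?_
    rw [← u3b_add N y]
    refine congrArg (fun w : ℂ => ‖w‖ ^ 2) ?_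
    refine Finset.sum_congr rfl fun z _ => ?_
    have e1 : z + y + -y = z := by ring
    rw [e1]
    ring
  · exact U3_top N (f 0) (f 1) (f 2) (f 3) (hf 0) (hf 1) (hf 2) (hf 3)

/-- The sign of the parity of `s`. -/
def u3b_e {N : ℕ} (s : ZMod N) : ℂ := (-1) ^ s.val


theorem u3b_e_norm {N : ℕ} (s : ZMod N) : ‖u3b_e s‖ = 1 := by
  unfold u3b_e
  rw [norm_pow, norm_neg, norm_one, one_pow]

theorem u3b_e_add {N : ℕ} [NeZero N] (hN : Even N) (s t : ZMod N) : u3b_e (s + t) = u3b_e s * u3b_e t := by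
  unfold u3b_e
  rw [ZMod.val_add, ← pow_add, neg_one_pow_eq_pow_mod_two, Nat.mod_mod_of_dvd _ hN.two_dvd, ← neg_one_pow_eq_pow_mod_two]

theorem u3b_e_cast {N : ℕ} [NeZero N] (hN : Even N) (k : ℕ) : u3b_e (k : ZMod N) = (-1) ^ k := by
  unfold u3b_e
  rw [ZMod.val_natCast, neg_one_pow_eq_pow_mod_two, Nat.mod_mod_of_dvd _ hN.two_dvd, ← neg_one_pow_eq_pow_mod_two]

theorem u3b_range (N : ℕ) [NeZero N] (H : ZMod N → ℂ) :
    ∑ z : ZMod N, H z = ∑ k ∈ range N, H (k : ZMod N) := by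
  symm
  refine Finset.sum_nbij' (fun k : ℕ => (k : ZMod N)) (fun z : ZMod N => z.val) ?_ ?_ ?_ ?_ ?_
  · intro k _
    exact Finset.mem_univ _
  · intro z _
    exact Finset.mem_range.2 (ZMod.val_lt z)
  · intro k hk
    exact ZMod.val_cast_of_lt (Finset.mem_range.1 hk)
  · intro z _
    exact ZMod.natCast_zmod_val z
  · intro k _
    rfl

theorem u3b_double (h : ℕ → ℂ) (M : ℕ) : ∑ k ∈ range (M + M), h k = ∑ k ∈ range M, (h (2 * k) + h (2 * k + 1)) := by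
  induction M with
  | zero => simp
  | succ M ih =>
    have e : M + 1 + (M + 1) = M + M + 1 + 1 := by ring
    rw [e, Finset.sum_range_succ, Finset.sum_range_succ, ih, Finset.sum_range_succ, ← two_mul M]
    ring

theorem u3b_even (N : ℕ) [NeZero N] (hN : Even N) (G : ZMod N → ℂ) :
    ∑ z : ZMod N, G (2 * z) = ∑ s : ZMod N, G s + ∑ s : ZMod N, u3b_e s * G s := by
  obtain ⟨M, hM⟩ := id hN
  rw [u3b_range N (fun z => G (2 * z)), u3b_range N G, u3b_range N (fun s => u3b_e s * G s), ← Finset.sum_add_distrib]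
  have h1 : ∑ k ∈ range N, G (2 * ((k : ℕ) : ZMod N)) = 2 * ∑ k ∈ range M, G (2 * ((k : ℕ) : ZMod N)) := by
    have h2 : ∑ k ∈ range (M + M), G (2 * ((k : ℕ) : ZMod N)) = 2 * ∑ k ∈ range M, G (2 * ((k : ℕ) : ZMod N)) := by
      rw [Finset.sum_range_add, two_mul]
      refine congrArg (fun w : ℂ => (∑ k ∈ range M, G (2 * ((k : ℕ) : ZMod N))) + w) ?_
      refine Finset.sum_congr rfl fun k _ => ?_
      have e : 2 * (((M + k : ℕ)) : ZMod N) = 2 * (k : ZMod N) := by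
        have e1 : ((M + M : ℕ) : ZMod N) = 0 := by
          rw [← hM]
          exact ZMod.natCast_self N
        push_cast at e1 ⊢
        linear_combination e1
      rw [e]
    rw [← h2, ← hM]
  have h3 : ∑ k ∈ range N, (G ((k : ℕ) : ZMod N) + u3b_e ((k : ℕ) : ZMod N) * G ((k : ℕ) : ZMod N)) =
      2 * ∑ k ∈ range M, G (2 * ((k : ℕ) : ZMod N)) := by
    have h4 : ∑ k ∈ range (M + M), (G ((k : ℕ) : ZMod N) + u3b_e ((k : ℕ) : ZMod N) * G ((k : ℕ) : ZMod N)) =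
        2 * ∑ k ∈ range M, G (2 * ((k : ℕ) : ZMod N)) := by
      rw [u3b_double, Finset.mul_sum]
      refine Finset.sum_congr rfl fun k _ => ?_
      rw [u3b_e_cast hN, u3b_e_cast hN, pow_succ, pow_mul]
      push_cast
      ring
    rw [← h4, ← hM]
  exact h1.trans h3.symm

theorem u3b_odd (N : ℕ) [NeZero N] (hN : ¬ Even N) (G : ZMod N → ℂ) :
    ∑ z : ZMod N, G (2 * z) = ∑ s : ZMod N, G s := by
  have h1 : Nat.Coprime 2 N := (Nat.coprime_two_left).2 (Nat.not_even_iff_odd.1 hN)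
  have h2 : ((ZMod.unitOfCoprime 2 h1 : (ZMod N)ˣ) : ZMod N) = 2 := by
    rw [ZMod.coe_unitOfCoprime]
    norm_num
  have h3 := Equiv.sum_comp (Units.mulLeft (ZMod.unitOfCoprime 2 h1)) G
  rw [← h3]
  refine Finset.sum_congr rfl fun z _ => ?_
  rw [Units.mulLeft_apply, h2]

theorem u3b_UU (N : ℕ) [NeZero N] (f : ZMod N → ℂ) (c : ZMod N) : UU (fun t => f (t + c)) = UU f := by
  unfold UU
  refine Finset.sum_congr rfl fun A _ => ?_
  refine Finset.sum_congr rfl fun B _ => ?_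
  rw [← u3b_add N c (fun s => f s * star (f (s + A)) * star (f (s + B)) * f (s + A + B))]
  refine congrArg (fun w : ℂ => ‖w‖ ^ 2) ?_
  refine Finset.sum_congr rfl fun z _ => ?_
  show f (z + c) * star (f (z + A + c)) * star (f (z + B + c)) * f (z + A + B + c) = _
  have e1 : z + A + c = z + c + A := by ring
  have e2 : z + B + c = z + c + B := by ring
  have e3 : z + A + B + c = z + c + A + B := by ring
  rw [e1, e2, e3]

theorem u3b_UU_nonneg (N : ℕ) [NeZero N] (f : ZMod N → ℂ) : 0 ≤ UU f :=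
  Finset.sum_nonneg fun _ _ => Finset.sum_nonneg fun _ _ => sq_nonneg _

/-- The sum with the sign. -/
theorem u3b_sign (N : ℕ) [NeZero N] (hN : Even N) (g : Fin 4 → ZMod N → ℂ) (hg : ∀ i t, ‖g i t‖ ≤ 1) (i : Fin 4) :
    ∑ y : ZMod N, ∑ y' : ZMod N,
      ‖∑ z : ZMod N, u3b_e z * (g 0 z * g 1 (z + y) * g 2 (z + y') * g 3 (z + y + y'))‖ ^ 2 ≤
      (N : ℝ) ^ 3 * (UU (g i)) ^ (1 / 4 : ℝ) := by
  by_cases hi : i = 0
  · subst hi
    have hg' : ∀ i t, ‖(![g 0, fun t => u3b_e t * g 1 t, g 2, g 3] : Fin 4 → ZMod N → ℂ) i t‖ ≤ 1 := by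
      intro i t
      fin_cases i
      · exact hg 0 t
      · show ‖u3b_e t * g 1 t‖ ≤ 1
        rw [norm_mul, u3b_e_norm, one_mul]
        exact hg 1 t
      · exact hg 2 t
      · exact hg 3 t
    refine le_trans (le_of_eq ?_) (U3B_any N ![g 0, fun t => u3b_e t * g 1 t, g 2, g 3] hg' 0)
    refine Finset.sum_congr rfl fun y _ => ?_
    refine Finset.sum_congr rfl fun y' _ => ?_
    refine congrArg (fun w : ℝ => w ^ 2) ?_
    rw [← one_mul (‖∑ z : ZMod N, u3b_e z * (g 0 z * g 1 (z + y) * g 2 (z + y') * g 3 (z + y + y'))‖), ← u3b_e_norm y,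
      ← norm_mul, Finset.mul_sum]
    refine congrArg (fun w : ℂ => ‖w‖) ?_
    refine Finset.sum_congr rfl fun z _ => ?_
    show u3b_e y * (u3b_e z * (g 0 z * g 1 (z + y) * g 2 (z + y') * g 3 (z + y + y'))) =
      g 0 z * (u3b_e (z + y) * g 1 (z + y)) * g 2 (z + y') * g 3 (z + y + y')
    rw [u3b_e_add hN]
    ring
  · have hg' : ∀ i t, ‖(![fun t => u3b_e t * g 0 t, g 1, g 2, g 3] : Fin 4 → ZMod N → ℂ) i t‖ ≤ 1 := by
      intro i t
      fin_cases i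
      · show ‖u3b_e t * g 0 t‖ ≤ 1
        rw [norm_mul, u3b_e_norm, one_mul]
        exact hg 0 t
      · exact hg 1 t
      · exact hg 2 t
      · exact hg 3 t
    have h1 : (![fun t => u3b_e t * g 0 t, g 1, g 2, g 3] : Fin 4 → ZMod N → ℂ) i = g i := by
      fin_cases i
      · exact absurd rfl hi
      · rfl
      · rfl
      · rfl
    have h2 := U3B_any N ![fun t => u3b_e t * g 0 t, g 1, g 2, g 3] hg' i
    rw [h1] at h2
    refine le_trans (le_of_eq ?_) h2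
    refine Finset.sum_congr rfl fun y _ => ?_
    refine Finset.sum_congr rfl fun y' _ => ?_
    refine congrArg (fun w : ℂ => ‖w‖ ^ 2) ?_
    refine Finset.sum_congr rfl fun z _ => ?_
    show u3b_e z * (g 0 z * g 1 (z + y) * g 2 (z + y') * g 3 (z + y + y')) =
      (u3b_e z * g 0 z) * g 1 (z + y) * g 2 (z + y') * g 3 (z + y + y')
    ring

/-- Proof. Replace `f j` by its translate `f j (· + e j)` (the same `UU`). `N` odd: `z ↦ 2 z` is a bijection. `N` even: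
`∑_z G(2z) = ∑_s (1 + ε(s)) G(s)` with the sign `ε(s) = (-1)^(s.val)` (multiplicative: `ε(s+y) = ε(s) ε(y)`), so
`‖∑_z G(2z)‖² ≤ 2 ‖∑_s G(s)‖² + 2 ‖∑_s ε(s) G(s)‖²`; in the second sum multiply the function with some index `j ≠ i` by `ε`
(`ε(s) = ε(s+y) ε(y)` etc., the sign `ε(y)` does not matter). -/
theorem U3B_two (N : ℕ) [NeZero N] (f : Fin 4 → ZMod N → ℂ) (hf : ∀ i t, ‖f i t‖ ≤ 1) (e : Fin 4 → ZMod N)
    (i : Fin 4) :
    ∑ y : ZMod N, ∑ y' : ZMod N, ‖∑ z : ZMod N, f 0 (2 * z + e 0) * f 1 (2 * z + y + e 1) *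
      f 2 (2 * z + y' + e 2) * f 3 (2 * z + y + y' + e 3)‖ ^ 2 ≤
      4 * (N : ℝ) ^ 3 * (UU (f i)) ^ (1 / 4 : ℝ) := by
  set g : Fin 4 → ZMod N → ℂ := fun j t => f j (t + e j) with hgdef
  have hg : ∀ i t, ‖g i t‖ ≤ 1 := fun i t => hf i _
  have hU : UU (g i) = UU (f i) := u3b_UU N (f i) (e i)
  rw [← hU]
  have hX := U3B_any N g hg i
  have hX0 : 0 ≤ (N : ℝ) ^ 3 * (UU (g i)) ^ (1 / 4 : ℝ) :=
    mul_nonneg (by positivity) (Real.rpow_nonneg (u3b_UU_nonneg N _) _)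
  have e0 : ∀ y y' : ZMod N, ∑ z : ZMod N, f 0 (2 * z + e 0) * f 1 (2 * z + y + e 1) *
      f 2 (2 * z + y' + e 2) * f 3 (2 * z + y + y' + e 3) =
      ∑ z : ZMod N, (fun s => g 0 s * g 1 (s + y) * g 2 (s + y') * g 3 (s + y + y')) (2 * z) := fun y y' => rfl
  by_cases hN : Even N
  · have hY := u3b_sign N hN g hg i
    have h1 : ∀ y y' : ZMod N, ‖∑ z : ZMod N, f 0 (2 * z + e 0) * f 1 (2 * z + y + e 1) *
        f 2 (2 * z + y' + e 2) * f 3 (2 * z + y + y' + e 3)‖ ^ 2 ≤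
        2 * ‖∑ z : ZMod N, g 0 z * g 1 (z + y) * g 2 (z + y') * g 3 (z + y + y')‖ ^ 2 +
        2 * ‖∑ z : ZMod N, u3b_e z * (g 0 z * g 1 (z + y) * g 2 (z + y') * g 3 (z + y + y'))‖ ^ 2 := by
      intro y y'
      rw [e0, u3b_even N hN (fun s => g 0 s * g 1 (s + y) * g 2 (s + y') * g 3 (s + y + y'))]
      have h2 := norm_add_le (∑ z : ZMod N, g 0 z * g 1 (z + y) * g 2 (z + y') * g 3 (z + y + y'))
        (∑ z : ZMod N, u3b_e z * (g 0 z * g 1 (z + y) * g 2 (z + y') * g 3 (z + y + y')))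
      have h3 := norm_nonneg (∑ z : ZMod N, g 0 z * g 1 (z + y) * g 2 (z + y') * g 3 (z + y + y') +
        ∑ z : ZMod N, u3b_e z * (g 0 z * g 1 (z + y) * g 2 (z + y') * g 3 (z + y + y')))
      have h4 := pow_le_pow_left₀ h3 h2 2
      refine h4.trans ?_
      nlinarith [sq_nonneg (‖∑ z : ZMod N, g 0 z * g 1 (z + y) * g 2 (z + y') * g 3 (z + y + y')‖ -
        ‖∑ z : ZMod N, u3b_e z * (g 0 z * g 1 (z + y) * g 2 (z + y') * g 3 (z + y + y'))‖)]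
    refine (Finset.sum_le_sum fun y _ => Finset.sum_le_sum fun y' _ => h1 y y').trans ?_
    simp only [Finset.sum_add_distrib, ← Finset.mul_sum]
    linarith
  · refine le_trans (le_of_eq ?_) (hX.trans ?_)
    · refine Finset.sum_congr rfl fun y _ => ?_
      refine Finset.sum_congr rfl fun y' _ => ?_
      rw [e0, u3b_odd N hN (fun s => g 0 s * g 1 (s + y) * g 2 (s + y') * g 3 (s + y + y'))]
    · linarith

end Pool.Agent.Lib.H59T
end

-- from Lib.H59T.UC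
section

/-!
# Project H59T, chunk UC (M): the forms `uf e` at a prime dividing the conductors
-/

open Finset

namespace Pool.Agent.Lib.H59T

/-- the `U³` norm of a multiple of the conjugate of a character -/
theorem uc_UU (N : ℕ) [NeZero N] (χ : DirichletCharacter ℂ N) (c : ℝ) (hc : |c| ≤ 2) (f : ZMod N → ℂ)
    (hf : ∀ t, f t = c * (starRingEnd ℂ) (χ t) / 2) : UU f ≤ UU (fun s => χ s) := by
  unfold UU
  refine Finset.sum_le_sum fun A _ => Finset.sum_le_sum fun B _ => ?_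
  have e1 : ∑ s : ZMod N, f s * star (f (s + A)) * star (f (s + B)) * f (s + A + B) =
      (((c / 2) ^ 4 : ℝ) : ℂ) * star (∑ s : ZMod N, χ s * star (χ (s + A)) * star (χ (s + B)) * χ (s + A + B)) := by
    rw [star_sum, Finset.mul_sum]
    refine Finset.sum_congr rfl fun s _ => ?_
    rw [hf, hf, hf, hf]
    simp only [← starRingEnd_apply]
    simp only [map_mul, map_div₀, Complex.conj_conj, Complex.conj_ofReal, map_ofNat]
    push_cast
    ring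
  rw [e1, norm_mul, norm_star, Complex.norm_real, Real.norm_eq_abs, mul_pow]
  have h1 : |(c / 2) ^ 4| ≤ 1 := by
    rw [abs_pow, abs_div, abs_two]
    exact pow_le_one₀ (by positivity) (by linarith)
  calc _ ≤ 1 ^ 2 * _ := mul_le_mul_of_nonneg_right (pow_le_pow_left₀ (abs_nonneg _) h1 2) (by positivity)
    _ = _ := by rw [one_pow, one_mul]

/-- Proof. `N = l^a`, `C3_fun`, `C3_nest`: the sum is `∑_{y,y'} A(y,y') conj A'(y,y')`, `A = ∑_z ∏ g_w`, `‖A'‖ ≤ 16 N`. So it is at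
most `16 N · N (∑ ‖A‖²)^(1/2)`, and `∑ ‖A‖² = 256 ∑ ‖∑_z ∏ (g_w/2)‖² ≤ 256 · 4 N³ UU(g_{i0}/2)^(1/4)` (`U3B_two`),
`UU(g_{i0}/2) ≤ UU(χ) ≤ 13 N⁴ l^(-a/9)` (`U1_all`; the factor `|c/2|^8 ≤ 1` and the conjugation do not matter): total
`16 N² (1024 · 2 N⁴ N^(-1/36))^(1/2) ≤ 2^10 N⁴ N^(-1/72)`. -/
theorem UC_cube (l a : ℕ) (hl : l.Prime) (ha : 1 ≤ a) (χ : DirichletCharacter ℂ (l ^ a))
    (hχ : χ.IsPrimitive) (c : ℝ) (hc : |c| ≤ 2) (g g' : Fin 4 → ℤ → ℂ)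
    (hp : ∀ i m, g i (m + (l ^ a : ℕ)) = g i m) (hp' : ∀ i m, g' i (m + (l ^ a : ℕ)) = g' i m)
    (hb : ∀ i m, ‖g i m‖ ≤ 2) (hb' : ∀ i m, ‖g' i m‖ ≤ 2) (i0 : Fin 4)
    (h : ∀ m : ℤ, g i0 m = c * (starRingEnd ℂ) (χ (m : ZMod (l ^ a)))) (e : Fin 4 → ℤ) :
    ‖S4 (l ^ a) (Db (uf e) g g')‖ ≤ ((l ^ a : ℕ) : ℝ) ^ 4 * (2 ^ 12 * ((l ^ a : ℕ) : ℝ) ^ (-(1 / 72 : ℝ))) := by
  have hne : NeZero (l ^ a) := ⟨pow_ne_zero _ hl.ne_zero⟩
  have hl0 : (0 : ℝ) < l := by exact_mod_cast hl.pos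
  have hq0 : (0 : ℝ) < ((l ^ a : ℕ) : ℝ) := by exact_mod_cast pow_pos hl.pos a
  choose G hG using fun i => C3_fun (l ^ a) (g i) (hp i)
  choose G' hG' using fun i => C3_fun (l ^ a) (g' i) (hp' i)
  have hs : ∀ t : ZMod (l ^ a), ∃ m : ℤ, (m : ZMod (l ^ a)) = t := fun t => ZMod.intCast_surjective t
  have bG : ∀ i t, ‖G i t‖ ≤ 2 := by
    intro i t
    obtain ⟨m, rfl⟩ := hs t
    rw [← hG]
    exact hb i m
  have bG' : ∀ i t, ‖G' i t‖ ≤ 2 := by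
    intro i t
    obtain ⟨m, rfl⟩ := hs t
    rw [← hG']
    exact hb' i m
  have hG0 : ∀ t, G i0 t = c * (starRingEnd ℂ) (χ t) := by
    intro t
    obtain ⟨m, rfl⟩ := hs t
    rw [← hG]
    exact h m
  obtain ⟨Pg, hPg⟩ : ∃ Pg : (Fin 4 → ZMod (l ^ a) → ℂ) → ZMod (l ^ a) → ZMod (l ^ a) → ZMod (l ^ a) → ℂ,
      ∀ F y y' z, Pg F y y' z = F 0 (2 * z + (e 0 : ZMod (l ^ a))) * F 1 (2 * z + y + (e 1 : ZMod (l ^ a))) *
        F 2 (2 * z + y' + (e 2 : ZMod (l ^ a))) * F 3 (2 * z + y + y' + (e 3 : ZMod (l ^ a))) :=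
    ⟨_, fun _ _ _ _ => rfl⟩
  have e1 : Db (uf e) g g' = fun y y' z z' : ℤ =>
      (fun y y' z z' : ZMod (l ^ a) => Pg G y y' z * (starRingEnd ℂ) (Pg G' y y' z')) y y' z z' := by
    funext y y' z z'
    unfold Db
    rw [Fin.prod_univ_four]
    simp only [uf, hG, hG', Matrix.cons_val_zero, Matrix.cons_val_one, Matrix.cons_val, hPg, map_mul]
    push_cast
    ring
  have e2 : S4 (l ^ a) (Db (uf e) g g') = ∑ y : ZMod (l ^ a), ∑ y' : ZMod (l ^ a),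
      (∑ z : ZMod (l ^ a), Pg G y y' z) * (starRingEnd ℂ) (∑ z' : ZMod (l ^ a), Pg G' y y' z') := by
    rw [e1, C3_nest (l ^ a) (fun y y' z z' : ZMod (l ^ a) => Pg G y y' z * (starRingEnd ℂ) (Pg G' y y' z'))]
    refine Finset.sum_congr rfl fun y _ => Finset.sum_congr rfl fun y' _ => ?_
    rw [map_sum, Finset.sum_mul_sum]
  have hA' : ∀ y y' : ZMod (l ^ a), ‖∑ z' : ZMod (l ^ a), Pg G' y y' z'‖ ≤ 16 * ((l ^ a : ℕ) : ℝ) := by
    intro y y'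
    calc _ ≤ ∑ z' : ZMod (l ^ a), ‖Pg G' y y' z'‖ := norm_sum_le _ _
      _ ≤ ∑ _z' : ZMod (l ^ a), (16 : ℝ) := by
        refine Finset.sum_le_sum fun z' _ => ?_
        rw [hPg, norm_mul, norm_mul, norm_mul]
        calc _ ≤ ((2 : ℝ) * 2 * 2) * 2 :=
              mul_le_mul (mul_le_mul (mul_le_mul (bG' 0 _) (bG' 1 _) (norm_nonneg _) (by norm_num)) (bG' 2 _)
                (norm_nonneg _) (by norm_num)) (bG' 3 _) (norm_nonneg _) (by norm_num)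
          _ = 16 := by norm_num
      _ = 16 * ((l ^ a : ℕ) : ℝ) := by rw [Finset.sum_const, Finset.card_univ, ZMod.card, nsmul_eq_mul, mul_comm]
  have hA : ∑ y : ZMod (l ^ a), ∑ y' : ZMod (l ^ a), ‖∑ z : ZMod (l ^ a), Pg G y y' z‖ ^ 2 ≤
      2048 * (((l ^ a : ℕ) : ℝ) ^ 4 * ((l ^ a : ℕ) : ℝ) ^ (-(1 / 36 : ℝ))) := by
    have u1 := U3B_two (l ^ a) (fun i t => G i t / 2) (fun i t => by
      have hn2 : ‖(2 : ℂ)‖ = 2 := by simp
      rw [norm_div, hn2]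
      have := bG i t
      linarith) (fun i => (e i : ZMod (l ^ a))) i0
    have u2 : ∑ y : ZMod (l ^ a), ∑ y' : ZMod (l ^ a), ‖∑ z : ZMod (l ^ a), Pg G y y' z‖ ^ 2 =
        256 * ∑ y : ZMod (l ^ a), ∑ y' : ZMod (l ^ a), ‖∑ z : ZMod (l ^ a),
          G 0 (2 * z + (e 0 : ZMod (l ^ a))) / 2 * (G 1 (2 * z + y + (e 1 : ZMod (l ^ a))) / 2) *
          (G 2 (2 * z + y' + (e 2 : ZMod (l ^ a))) / 2) * (G 3 (2 * z + y + y' + (e 3 : ZMod (l ^ a))) / 2)‖ ^ 2 := by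
      rw [Finset.mul_sum]
      refine Finset.sum_congr rfl fun y _ => ?_
      rw [Finset.mul_sum]
      refine Finset.sum_congr rfl fun y' _ => ?_
      have u3 : ∑ z : ZMod (l ^ a), Pg G y y' z = 16 * ∑ z : ZMod (l ^ a),
          G 0 (2 * z + (e 0 : ZMod (l ^ a))) / 2 * (G 1 (2 * z + y + (e 1 : ZMod (l ^ a))) / 2) *
          (G 2 (2 * z + y' + (e 2 : ZMod (l ^ a))) / 2) *
          (G 3 (2 * z + y + y' + (e 3 : ZMod (l ^ a))) / 2) := by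
        rw [Finset.mul_sum]
        refine Finset.sum_congr rfl fun z _ => ?_
        rw [hPg]
        ring
      have hn16 : ‖(16 : ℂ)‖ = 16 := by simp
      rw [u3, norm_mul, hn16, mul_pow]
      norm_num
    have u4 : UU (fun t => G i0 t / 2) ≤ 13 * ((l ^ a : ℕ) : ℝ) ^ 4 * (l : ℝ) ^ (-(a / 9 : ℝ)) :=
      (uc_UU (l ^ a) χ c hc (fun t => G i0 t / 2) (fun t => by rw [hG0])).trans (U1_all l a hl ha χ hχ)
    have hUU0 : 0 ≤ UU (fun t => G i0 t / 2) :=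
      Finset.sum_nonneg fun _ _ => Finset.sum_nonneg fun _ _ => by positivity
    have u5 : (UU (fun t => G i0 t / 2)) ^ (1 / 4 : ℝ) ≤
        2 * (((l ^ a : ℕ) : ℝ) * ((l ^ a : ℕ) : ℝ) ^ (-(1 / 36 : ℝ))) := by
      have v0 : ((l ^ a : ℕ) : ℝ) ^ (-(1 / 9 : ℝ)) = (l : ℝ) ^ (-(a / 9 : ℝ)) := by
        push_cast
        rw [← Real.rpow_natCast, ← Real.rpow_mul hl0.le]
        congr 1
        ring
      have v1 : 13 * ((l ^ a : ℕ) : ℝ) ^ 4 * (l : ℝ) ^ (-(a / 9 : ℝ)) ≤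
          (2 * (((l ^ a : ℕ) : ℝ) * ((l ^ a : ℕ) : ℝ) ^ (-(1 / 36 : ℝ)))) ^ (4 : ℝ) := by
        have v2 : (2 * (((l ^ a : ℕ) : ℝ) * ((l ^ a : ℕ) : ℝ) ^ (-(1 / 36 : ℝ)))) ^ (4 : ℝ) =
            16 * (((l ^ a : ℕ) : ℝ) ^ 4 * ((l ^ a : ℕ) : ℝ) ^ (-(1 / 9 : ℝ))) := by
          rw [Real.mul_rpow (by norm_num) (by positivity), Real.mul_rpow hq0.le (by positivity),
            ← Real.rpow_mul hq0.le]
          have v3 : (4 : ℝ) = ((4 : ℕ) : ℝ) := by norm_num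
          have v4 : (-(1 / 36 : ℝ)) * 4 = -(1 / 9 : ℝ) := by norm_num
          rw [v4]
          rw [v3, Real.rpow_natCast, Real.rpow_natCast]
          norm_num
        rw [v2, v0]
        have v5 : 0 ≤ ((l ^ a : ℕ) : ℝ) ^ 4 * (l : ℝ) ^ (-(a / 9 : ℝ)) := by positivity
        nlinarith
      calc (UU (fun t => G i0 t / 2)) ^ (1 / 4 : ℝ) ≤
          ((2 * (((l ^ a : ℕ) : ℝ) * ((l ^ a : ℕ) : ℝ) ^ (-(1 / 36 : ℝ)))) ^ (4 : ℝ)) ^ (1 / 4 : ℝ) :=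
            Real.rpow_le_rpow hUU0 (u4.trans v1) (by norm_num)
        _ = 2 * (((l ^ a : ℕ) : ℝ) * ((l ^ a : ℕ) : ℝ) ^ (-(1 / 36 : ℝ))) := by
          rw [← Real.rpow_mul (by positivity)]
          norm_num
    rw [u2]
    calc _ ≤ 256 * (4 * ((l ^ a : ℕ) : ℝ) ^ 3 * (UU (fun t => G i0 t / 2)) ^ (1 / 4 : ℝ)) :=
          mul_le_mul_of_nonneg_left u1 (by norm_num)
      _ ≤ 256 * (4 * ((l ^ a : ℕ) : ℝ) ^ 3 * (2 * (((l ^ a : ℕ) : ℝ) * ((l ^ a : ℕ) : ℝ) ^ (-(1 / 36 : ℝ))))) := by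
        gcongr
      _ = 2048 * (((l ^ a : ℕ) : ℝ) ^ 4 * ((l ^ a : ℕ) : ℝ) ^ (-(1 / 36 : ℝ))) := by ring
  have h1 : ‖S4 (l ^ a) (Db (uf e) g g')‖ ≤
      16 * ((l ^ a : ℕ) : ℝ) * ∑ y : ZMod (l ^ a), ∑ y' : ZMod (l ^ a), ‖∑ z : ZMod (l ^ a), Pg G y y' z‖ := by
    rw [e2, Finset.mul_sum]
    refine (norm_sum_le _ _).trans (Finset.sum_le_sum fun y _ => ?_)
    rw [Finset.mul_sum]
    refine (norm_sum_le _ _).trans (Finset.sum_le_sum fun y' _ => ?_)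
    rw [norm_mul, RCLike.norm_conj, mul_comm]
    exact mul_le_mul_of_nonneg_right (hA' y y') (norm_nonneg _)
  have h2 := u3_cs (l ^ a) (fun y y' => ‖∑ z : ZMod (l ^ a), Pg G y y' z‖)
  have hsq : (((l ^ a : ℕ) : ℝ) ^ (-(1 / 72 : ℝ))) ^ 2 = ((l ^ a : ℕ) : ℝ) ^ (-(1 / 36 : ℝ)) := by
    rw [← Real.rpow_natCast, ← Real.rpow_mul hq0.le]
    norm_num
  have h3 : ∑ y : ZMod (l ^ a), ∑ y' : ZMod (l ^ a), ‖∑ z : ZMod (l ^ a), Pg G y y' z‖ ≤
      64 * (((l ^ a : ℕ) : ℝ) ^ 3 * ((l ^ a : ℕ) : ℝ) ^ (-(1 / 72 : ℝ))) := by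
    refine (pow_le_pow_iff_left₀ (Finset.sum_nonneg fun _ _ => Finset.sum_nonneg fun _ _ => norm_nonneg _)
      (by positivity) two_ne_zero).1 (h2.trans ?_)
    calc _ ≤ ((l ^ a : ℕ) : ℝ) ^ 2 * (2048 * (((l ^ a : ℕ) : ℝ) ^ 4 * ((l ^ a : ℕ) : ℝ) ^ (-(1 / 36 : ℝ)))) :=
          mul_le_mul_of_nonneg_left hA (by positivity)
      _ ≤ (64 * (((l ^ a : ℕ) : ℝ) ^ 3 * ((l ^ a : ℕ) : ℝ) ^ (-(1 / 72 : ℝ)))) ^ 2 := by
        rw [← hsq]
        have h5 : 0 ≤ ((l ^ a : ℕ) : ℝ) ^ 6 * (((l ^ a : ℕ) : ℝ) ^ (-(1 / 72 : ℝ))) ^ 2 := by positivity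
        nlinarith
  refine h1.trans ((mul_le_mul_of_nonneg_left h3 (by positivity)).trans ?_)
  have h6 : 0 ≤ ((l ^ a : ℕ) : ℝ) ^ 4 * ((l ^ a : ℕ) : ℝ) ^ (-(1 / 72 : ℝ)) := by positivity
  nlinarith

end Pool.Agent.Lib.H59T
end

-- from Lib.H59T.UE
section

/-!
# Project H59T, chunk UE (S/M): the local bounds for the forms `uf e`
-/

open Finset

namespace Pool.Agent.Lib.H59T

/-- Proof. As `E7_four` (`E7.lean`), with `UC_cube` and `UD_cube`. -/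
theorem UE_loc (e : Fin 4 → ℤ) : LocB (uf e) 12 (1 / 72) := by
  intro p hp κ κ' hκ hκ' l hl
  have hl2 : (2 : ℝ) ≤ l := by exact_mod_cast hl.two_le
  refine ⟨fun hd => ?_, fun hd hex => ?_⟩
  · obtain ⟨h1, h2, i0, h3, h4⟩ := E7_attained p hp l hl hd
    have hch := L4_char (p i0) (hp i0).1 (hp i0).2 l hl h4
    rw [h3] at hch
    obtain ⟨χ, hχ, hlf⟩ := hch
    have hc : |(l : ℝ) / ((l : ℝ) - 1)| ≤ 2 := by
      rw [abs_of_nonneg (by apply div_nonneg <;> linarith), div_le_iff₀ (by linarith)]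
      linarith
    have hper : ∀ (K : Fin 4 → ℕ) (i : Fin 4) (m : ℤ),
        lf (p i) (K i) l (m + ((l ^ (Rm p).factorization l : ℕ) : ℤ)) = lf (p i) (K i) l m := by
      intro K i m
      have := L4_per (p i) (hp i).1 (hp i).2 (K i) l ((Rm p).factorization l) hl h1 (h2 i) m 1
      rw [mul_one] at this
      rw [← this]
      push_cast
      rfl
    exact UC_cube l ((Rm p).factorization l) hl h1 χ hχ _ hc (fun i => lf (p i) (κ i) l) (fun i => lf (p i) (κ' i) l)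
      (fun i m => hper κ i m) (fun i m => hper κ' i m) (fun i m => L4_norm _ _ _ hl m) (fun i m => L4_norm _ _ _ hl m) i0
      (fun m => hlf (κ i0) m) e
  · have hnd : ∀ i, ¬ l ∣ (p i).1 := fun i h => hd (h.trans (Finset.dvd_lcm (Finset.mem_univ i)))
    have hg : ∀ (K : Fin 4 → ℕ), (fun i => lf (p i) (K i) l) =
        (fun i (m : ℤ) => if l ∣ K i then ((Pool.Agent.Lib.H59P.gl l m : ℝ) : ℂ) else 1) := by
      intro K
      funext i m
      unfold lf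
      rw [if_neg (hnd i)]
    rw [hg κ, hg κ']
    have h5 := UD_cube l hl e (fun i => l ∣ κ i) (fun i => l ∣ κ' i) hex
    refine h5.trans ?_
    have h6 : (l : ℝ) ^ 4 * (2 ^ 12 / (l : ℝ) ^ 2) = 2 ^ 12 * (l : ℝ) ^ 2 := by
      have : (l : ℝ) ≠ 0 := by positivity
      field_simp
    rw [h6]
    have h7 : 0 ≤ (l : ℝ) ^ 2 := by positivity
    nlinarith

/-- Proof. Differences of the values. -/
theorem UE_cp (e : Fin 4 → ℤ) : CpF (uf e) := by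
  intro i q y y' z
  fin_cases i
  · show q ∣ (2 * z + e 0) - (2 * z + e 0) ∧ q ∣ (2 * z + e 0) - (2 * z + e 0) ∧ q ∣ (2 * (z + q) + e 0) - (2 * z + e 0)
    exact ⟨⟨0, by ring⟩, ⟨0, by ring⟩, ⟨2, by ring⟩⟩
  · show q ∣ (2 * z + (y + q) + e 1) - (2 * z + y + e 1) ∧ q ∣ (2 * z + y + e 1) - (2 * z + y + e 1) ∧
      q ∣ (2 * (z + q) + y + e 1) - (2 * z + y + e 1)
    exact ⟨⟨1, by ring⟩, ⟨0, by ring⟩, ⟨2, by ring⟩⟩
  · show q ∣ (2 * z + y' + e 2) - (2 * z + y' + e 2) ∧ q ∣ (2 * z + (y' + q) + e 2) - (2 * z + y' + e 2) ∧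
      q ∣ (2 * (z + q) + y' + e 2) - (2 * z + y' + e 2)
    exact ⟨⟨0, by ring⟩, ⟨1, by ring⟩, ⟨2, by ring⟩⟩
  · show q ∣ (2 * z + (y + q) + y' + e 3) - (2 * z + y + y' + e 3) ∧ q ∣ (2 * z + y + (y' + q) + e 3) - (2 * z + y + y' + e 3) ∧
      q ∣ (2 * (z + q) + y + y' + e 3) - (2 * z + y + y' + e 3)
    exact ⟨⟨1, by ring⟩, ⟨1, by ring⟩, ⟨2, by ring⟩⟩

end Pool.Agent.Lib.H59T
end
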