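import Pool.Agent.Lib.H59M.M1.M010
import Pool.Agent.Lib.H59M.M1.M011
import Pool.Agent.Lib.H59M.M1.M014
import Pool.Agent.Lib.H59M.M1.M015
import Pool.Agent.Lib.H59M.M1.M049
import Pool.Agent.Lib.H59M.M1.M057
import Pool.Agent.Lib.H59M.M1.M062
import Pool.Agent.Lib.H59M.M1.M069

/-! Merged copies (to shorten the build) of Lib.H33B.DE1, Lib.H33B.DE2, Lib.H59X.EP1, Lib.H59X.EP2, Lib.H33B.ENG, Lib.H59X.EP3, Lib.H59X.EP4, Lib.H59X.Defs. -/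

-- from Lib.H33B.DE1
section

/-!
# Chunk DE1: the Fourier-uniform part of the primes at the values `N - G(n)`
-/

open Finset Polynomial

namespace Pool.Agent.Lib.H33B

open Pool.Agent.Lib.H59 (argCount)
open Pool.Agent.Lib.H68T (lp Lk Reg Good)

/-- the truncated function -/
noncomputable def DE1_u (Q X₀ : ℕ) (b : ℤ) (m : ℤ) : ℝ :=
  if (X₀ : ℤ) ≤ m ∧ m < b then lp m - Lk Q (X₀ / Q ^ 2) m else 0

theorem DE1_sq {Q X₀ : ℕ} {b : ℤ} (hb : b ≤ 4 * X₀) (hX0 : 1 ≤ X₀) (hQ : 1 ≤ Q)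
    (hℓ : 1 ≤ Real.log X₀)
    (hQX : (Q : ℝ) ^ 2 ≤ X₀) (hlQ : Real.log Q ≤ Real.log X₀)
    (hstr : ∀ m : ℤ, (X₀ : ℤ) ≤ m → m ≤ 4 * X₀ →
      |Lk Q (X₀ / Q ^ 2) m - Pool.Agent.Lib.H68T.G Q m| ≤
        (Real.log X₀) ^ (-1 : ℝ) * Pool.Agent.Lib.H68T.dQ Q m) :
    ∑ m ∈ Icc (1 : ℤ) (4 * X₀ : ℕ), DE1_u Q X₀ b m ^ 2 ≤ 10 ^ 6 * X₀ * (Real.log X₀) ^ 7 := by
  set ℓ := Real.log X₀ with hℓd
  have hX0r : (1 : ℝ) ≤ X₀ := by exact_mod_cast hX0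
  have hlQ0 : 0 ≤ Real.log Q := Real.log_nonneg (by exact_mod_cast hQ)
  have hdQ0 : ∀ m, 0 ≤ Pool.Agent.Lib.H68T.dQ Q m := fun m => by
    unfold Pool.Agent.Lib.H68T.dQ; positivity
  have hpt : ∀ m ∈ Ico (X₀ : ℤ) (4 * X₀), (lp m - Lk Q (X₀ / Q ^ 2) m) ^ 2 ≤
      2 * (ℓ + 2) ^ 2 + 242 * (1 + ℓ) ^ 4 * (Pool.Agent.Lib.H68T.dQ Q m) ^ 2 := by
    intro m hm
    rw [mem_Ico] at hm
    have h1 : |lp m| ≤ ℓ + 2 := by
      have hm1 : (1 : ℝ) ≤ m := by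
        have : (1 : ℤ) ≤ m := by omega
        exact_mod_cast this
      have hm2 : (m : ℝ) ≤ 4 * X₀ := by
        have : m ≤ 4 * (X₀ : ℤ) := by omega
        exact_mod_cast this
      have h2 : Real.log m ≤ ℓ + 2 := by
        calc Real.log m ≤ Real.log (4 * X₀) := Real.log_le_log (by linarith) hm2
          _ = Real.log 4 + ℓ := by rw [Real.log_mul (by norm_num) (by linarith)]
          _ ≤ ℓ + 2 := by
            have : Real.log 4 = 2 * Real.log 2 := by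
              rw [show (4:ℝ) = 2 ^ 2 by norm_num, Real.log_pow]; norm_num
            linarith [Real.log_two_lt_d9]
      unfold Pool.Agent.Lib.H68T.lp
      split_ifs
      · rw [abs_of_nonneg (Real.log_nonneg hm1)]; exact h2
      · rw [abs_zero]; linarith
    have h3 : |Lk Q (X₀ / Q ^ 2) m| ≤ 11 * (1 + ℓ) ^ 2 * Pool.Agent.Lib.H68T.dQ Q m := by
      have a1 := hstr m hm.1 (by omega)
      have a2 := Pool.Agent.Lib.H68T.abs_G_le Q m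
      have a3 : (ℓ) ^ (-1 : ℝ) ≤ 1 := by
        rw [Real.rpow_neg_one]
        exact inv_le_one_of_one_le₀ hℓ
      have a4 : |Lk Q (X₀ / Q ^ 2) m| ≤ |Lk Q (X₀ / Q ^ 2) m - Pool.Agent.Lib.H68T.G Q m| +
          |Pool.Agent.Lib.H68T.G Q m| := by
        have := abs_add_le (Lk Q (X₀ / Q ^ 2) m - Pool.Agent.Lib.H68T.G Q m)
          (Pool.Agent.Lib.H68T.G Q m)
        simpa using this
      have a5 : (ℓ) ^ (-1 : ℝ) * Pool.Agent.Lib.H68T.dQ Q m ≤ 1 * Pool.Agent.Lib.H68T.dQ Q m :=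
        mul_le_mul_of_nonneg_right a3 (hdQ0 m)
      have a6 : (1 + Real.log Q) ^ 2 ≤ (1 + ℓ) ^ 2 := by
        apply pow_le_pow_left₀ (by linarith); linarith
      have a7 : 10 * (1 + Real.log Q) ^ 2 * Pool.Agent.Lib.H68T.dQ Q m ≤
          10 * (1 + ℓ) ^ 2 * Pool.Agent.Lib.H68T.dQ Q m := by
        apply mul_le_mul_of_nonneg_right _ (hdQ0 m)
        linarith
      have a8 : 1 * Pool.Agent.Lib.H68T.dQ Q m ≤ (1 + ℓ) ^ 2 * Pool.Agent.Lib.H68T.dQ Q m := by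
        apply mul_le_mul_of_nonneg_right _ (hdQ0 m)
        nlinarith
      calc |Lk Q (X₀ / Q ^ 2) m| ≤ (ℓ) ^ (-1 : ℝ) * Pool.Agent.Lib.H68T.dQ Q m +
            10 * (1 + Real.log Q) ^ 2 * Pool.Agent.Lib.H68T.dQ Q m := a4.trans (add_le_add a1 a2)
        _ ≤ (1 + ℓ) ^ 2 * Pool.Agent.Lib.H68T.dQ Q m + 10 * (1 + ℓ) ^ 2 *
            Pool.Agent.Lib.H68T.dQ Q m := add_le_add (a5.trans a8) a7
        _ = _ := by ring
    have h4 : (lp m - Lk Q (X₀ / Q ^ 2) m) ^ 2 ≤ 2 * (lp m) ^ 2 + 2 * (Lk Q (X₀ / Q ^ 2) m) ^ 2 := by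
      nlinarith [sq_nonneg (lp m + Lk Q (X₀ / Q ^ 2) m)]
    have h5 : (lp m) ^ 2 ≤ (ℓ + 2) ^ 2 := by
      rw [← sq_abs]; exact pow_le_pow_left₀ (abs_nonneg _) h1 2
    have h6 : (Lk Q (X₀ / Q ^ 2) m) ^ 2 ≤ (11 * (1 + ℓ) ^ 2 * Pool.Agent.Lib.H68T.dQ Q m) ^ 2 := by
      rw [← sq_abs]; exact pow_le_pow_left₀ (abs_nonneg _) h3 2
    calc _ ≤ 2 * (ℓ + 2) ^ 2 + 2 * (11 * (1 + ℓ) ^ 2 * Pool.Agent.Lib.H68T.dQ Q m) ^ 2 := by linarith
      _ = _ := by ring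
  have hmom : ∑ m ∈ Ico (X₀ : ℤ) (4 * X₀), (Pool.Agent.Lib.H68T.dQ Q m) ^ 2 ≤
      3 * X₀ * (1 + ℓ) ^ 3 + X₀ := by
    have h1 := Pool.Agent.Lib.H68T.dQ_moment Q (3 * X₀) 1 0 X₀ one_pos (Nat.coprime_one_right 0)
    have h2 : ∑ m ∈ Ico (X₀ : ℤ) (4 * X₀), (Pool.Agent.Lib.H68T.dQ Q m) ^ 2 =
        ∑ c ∈ range (3 * X₀), (Pool.Agent.Lib.H68T.dQ Q (((0 : ℕ) : ℤ) + (1 : ℕ) *
          (X₀ + c : ℕ))) ^ 2 := by
      symm
      refine sum_bij' (fun c _ => ((X₀ + c : ℕ) : ℤ)) (fun m _ => (m - X₀).toNat) ?_ ?_ ?_ ?_ ?_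
      · intro c hc
        rw [mem_range] at hc
        rw [mem_Ico]
        push_cast
        omega
      · intro m hm
        rw [mem_Ico] at hm
        rw [mem_range]
        omega
      · intro c hc
        simp
      · intro m hm
        rw [mem_Ico] at hm
        push_cast
        omega
      · intro c hc
        simp
    rw [h2]
    refine h1.trans ?_
    have h3 : (1 + Real.log Q) ^ 3 ≤ (1 + ℓ) ^ 3 := by
      apply pow_le_pow_left₀ (by linarith); linarith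
    push_cast
    have h4 : 3 * (X₀ : ℝ) * (1 + Real.log Q) ^ 3 ≤ 3 * X₀ * (1 + ℓ) ^ 3 :=
      mul_le_mul_of_nonneg_left h3 (by positivity)
    linarith
  have hstep : ∑ m ∈ Icc (1 : ℤ) (4 * X₀ : ℕ), DE1_u Q X₀ b m ^ 2 ≤
      ∑ m ∈ Ico (X₀ : ℤ) (4 * X₀), (2 * (ℓ + 2) ^ 2 + 242 * (1 + ℓ) ^ 4 *
        (Pool.Agent.Lib.H68T.dQ Q m) ^ 2) := by
    have h1 : ∑ m ∈ Icc (1 : ℤ) (4 * X₀ : ℕ), DE1_u Q X₀ b m ^ 2 =
        ∑ m ∈ (Icc (1 : ℤ) (4 * X₀ : ℕ)).filter (fun m => (X₀ : ℤ) ≤ m ∧ m < b),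
          (lp m - Lk Q (X₀ / Q ^ 2) m) ^ 2 := by
      rw [sum_filter]
      refine sum_congr rfl fun m _ => ?_
      unfold DE1_u
      split_ifs <;> simp
    rw [h1]
    have h2 : ∀ m ∈ (Icc (1 : ℤ) (4 * X₀ : ℕ)).filter (fun m => (X₀ : ℤ) ≤ m ∧ m < b),
        (lp m - Lk Q (X₀ / Q ^ 2) m) ^ 2 ≤ 2 * (ℓ + 2) ^ 2 + 242 * (1 + ℓ) ^ 4 *
          (Pool.Agent.Lib.H68T.dQ Q m) ^ 2 := by
      intro m hm
      rw [mem_filter] at hm
      refine hpt m ?_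
      rw [mem_Ico]
      omega
    refine (sum_le_sum h2).trans (sum_le_sum_of_subset_of_nonneg ?_ ?_)
    · intro m hm
      rw [mem_filter] at hm
      rw [mem_Ico]
      omega
    · intro m _ _
      positivity
  refine hstep.trans ?_
  rw [sum_add_distrib, sum_const, ← mul_sum, Int.card_Ico, nsmul_eq_mul]
  have hcard : (((4 * (X₀ : ℤ) - X₀).toNat : ℕ) : ℝ) = 3 * X₀ := by
    have : (4 * (X₀ : ℤ) - X₀).toNat = 3 * X₀ := by omega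
    rw [this]; push_cast; ring
  rw [hcard]
  have k1 : (1 + ℓ) ≤ 2 * ℓ := by linarith
  have k2 : (1 + ℓ) ^ 3 ≤ (2 * ℓ) ^ 3 := pow_le_pow_left₀ (by linarith) k1 3
  have k3 : (1 + ℓ) ^ 4 ≤ (2 * ℓ) ^ 4 := pow_le_pow_left₀ (by linarith) k1 4
  have k4 : (ℓ + 2) ^ 2 ≤ (3 * ℓ) ^ 2 := pow_le_pow_left₀ (by linarith) (by linarith) 2
  have k5 : ℓ ^ 2 ≤ ℓ ^ 7 := pow_le_pow_right₀ hℓ (by norm_num)
  have k6 : (1 : ℝ) ≤ ℓ ^ 3 := one_le_pow₀ hℓ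
  have k7 : 3 * (X₀ : ℝ) * (1 + ℓ) ^ 3 + X₀ ≤ 25 * X₀ * ℓ ^ 3 := by
    have : 3 * (X₀ : ℝ) * (1 + ℓ) ^ 3 ≤ 3 * X₀ * (2 * ℓ) ^ 3 :=
      mul_le_mul_of_nonneg_left k2 (by positivity)
    nlinarith
  have k8 : 242 * (1 + ℓ) ^ 4 * ∑ m ∈ Ico (X₀ : ℤ) (4 * X₀), (Pool.Agent.Lib.H68T.dQ Q m) ^ 2 ≤
      242 * (2 * ℓ) ^ 4 * (25 * X₀ * ℓ ^ 3) := by
    apply mul_le_mul (by linarith) (hmom.trans k7) (sum_nonneg fun _ _ => sq_nonneg _) (by positivity)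
  have k9 : 3 * (X₀ : ℝ) * (2 * (ℓ + 2) ^ 2) ≤ 54 * X₀ * ℓ ^ 7 := by
    have h1 : 2 * (ℓ + 2) ^ 2 ≤ 18 * ℓ ^ 7 := by nlinarith
    nlinarith
  have k10 : 242 * (2 * ℓ) ^ 4 * (25 * X₀ * ℓ ^ 3) = 96800 * X₀ * ℓ ^ 7 := by ring
  have k11 : 0 ≤ (X₀ : ℝ) * ℓ ^ 7 := by positivity
  linarith

theorem DE1_supp (Q X₀ : ℕ) (b : ℤ) (hb : b ≤ 4 * X₀) (hX0 : 1 ≤ X₀) (m : ℤ)
    (hm : m ∉ Icc (1 : ℤ) (4 * X₀ : ℕ)) : DE1_u Q X₀ b m = 0 := by
  unfold DE1_u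
  rw [if_neg]
  intro h
  apply hm
  rw [mem_Icc]
  push_cast
  omega

theorem DE1_four (Q X₀ : ℕ) (b : ℤ) (hb : b ≤ 4 * X₀) (hX0 : 1 ≤ X₀) (S : ℝ) (hS0 : 0 ≤ S)
    (hS : ∀ θ : ℝ, ∀ a b : ℤ, (X₀ : ℤ) ≤ a → b ≤ 4 * X₀ →
      ‖∑ m ∈ Ico a b, ((lp m - Lk Q (X₀ / Q ^ 2) m : ℝ) : ℂ) * Pool.Agent.Lib.H68T.e (m * θ)‖ ≤ S)
    (θ : ℝ) : ‖∑ m ∈ Icc (1 : ℤ) (4 * X₀ : ℕ), (DE1_u Q X₀ b m : ℂ) *
      Pool.Agent.Lib.H68T.e (m * θ)‖ ≤ S := by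
  have h1 : ∑ m ∈ Icc (1 : ℤ) (4 * X₀ : ℕ), (DE1_u Q X₀ b m : ℂ) *
      Pool.Agent.Lib.H68T.e (m * θ) = ∑ m ∈ Ico (X₀ : ℤ) b,
        ((lp m - Lk Q (X₀ / Q ^ 2) m : ℝ) : ℂ) * Pool.Agent.Lib.H68T.e (m * θ) := by
    have h2 : Ico (X₀ : ℤ) b = (Icc (1 : ℤ) (4 * X₀ : ℕ)).filter
        (fun m => (X₀ : ℤ) ≤ m ∧ m < b) := by
      ext m
      rw [mem_Ico, mem_filter, mem_Icc]
      push_cast
      omega
    rw [h2, sum_filter]
    refine sum_congr rfl fun m _ => ?_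
    unfold DE1_u
    split_ifs <;> simp
  rw [h1]
  exact hS θ X₀ b le_rfl hb

theorem DE1_rpow (base P : ℝ) (T : ℕ) (hT : 1 ≤ T) (hb : 0 ≤ base) (hP : 0 < P)
    (h : base * P ^ T ≤ 1) : P * base ^ ((1 : ℝ) / T) ≤ 1 := by
  have hT0 : (T : ℝ) ≠ 0 := by positivity
  have h1 : base ≤ (P⁻¹) ^ T := by
    rw [inv_pow, ← one_div, le_div_iff₀ (by positivity)]; exact h
  have h2 : base ^ ((1 : ℝ) / T) ≤ P⁻¹ := by
    calc base ^ ((1 : ℝ) / T) ≤ ((P⁻¹) ^ T) ^ ((1 : ℝ) / T) :=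
          Real.rpow_le_rpow hb h1 (by positivity)
      _ = P⁻¹ := by
          rw [one_div, Real.pow_rpow_inv_natCast (by positivity) (by omega)]
  calc P * base ^ ((1 : ℝ) / T) ≤ P * P⁻¹ := mul_le_mul_of_nonneg_left h2 hP.le
    _ = 1 := mul_inv_cancel₀ hP.ne'

/-- numerical part: the bound of the double sum is small enough -/
theorem DE1_num (k T : ℕ) (hk : 1 ≤ k) (hT : 1 ≤ T) (Cv c₁ B Y X X₀ q ℓ L : ℝ) (hCv : 1 ≤ Cv)
    (hc₁ : 0 < c₁) (hX : 1 ≤ X) (hX0 : 1 ≤ X₀) (hXY : X₀ ≤ 2 * Y) (hℓ : 1 ≤ ℓ) (hL1 : 1 ≤ L)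
    (hL : L ≤ 2 * ℓ) (hq : 0 < q) (hlX : 1 + Real.log X ≤ 4 * ℓ) (hXk : c₁ * Y ≤ X ^ k)
    (hqX : 2 / c₁ * q ^ k ≤ X₀)
    (hqℓ : ((1 + (Real.sqrt (c₁ / 2))⁻¹) * 4 ^ Cv * (Cv * 2 * 10 ^ 6 * 2 ^ (2 * |B|)) ^ T) *
      ℓ ^ (Cv + (7 + 2 * |B|) * T) ≤ q) :
    Cv * (10 ^ 6 * X₀ * ℓ ^ 7) * (1 / X + (X₀ * q⁻¹) * (1 + Real.log X) ^ Cv /
      Real.sqrt (X ^ k * (10 ^ 6 * X₀ * ℓ ^ 7))) ^ ((1 : ℝ) / T) * L ^ (2 * B) ≤ Y := by
  have hY0 : 0 < Y := by linarith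
  have hℓ0 : 0 < ℓ := by linarith
  have hlX0 : 0 ≤ Real.log X := Real.log_nonneg hX
  set E := 10 ^ 6 * X₀ * ℓ ^ 7 with hE
  have hℓ7 : (1 : ℝ) ≤ ℓ ^ 7 := one_le_pow₀ hℓ
  have hEX : X₀ ≤ E := by rw [hE]; nlinarith
  have hE0 : 0 < E := by linarith
  set base := 1 / X + (X₀ * q⁻¹) * (1 + Real.log X) ^ Cv / Real.sqrt (X ^ k * E) with hbase
  have hbase0 : 0 ≤ base := by
    rw [hbase]
    positivity
  -- `X ≥ q`
  have hXX0 : c₁ / 2 * X₀ ≤ X ^ k := by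
    calc c₁ / 2 * X₀ ≤ c₁ / 2 * (2 * Y) := mul_le_mul_of_nonneg_left hXY (by positivity)
      _ = c₁ * Y := by ring
      _ ≤ _ := hXk
  have hXq : q ≤ X := by
    have h1 : q ^ k ≤ X ^ k := by
      refine le_trans ?_ hXX0
      have : c₁ / 2 * (2 / c₁ * q ^ k) ≤ c₁ / 2 * X₀ := mul_le_mul_of_nonneg_left hqX (by positivity)
      have h2 : c₁ / 2 * (2 / c₁ * q ^ k) = q ^ k := by field_simp
      linarith
    exact (pow_le_pow_iff_left₀ hq.le (by linarith) (by omega)).mp h1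
  have hb1 : 1 / X ≤ q⁻¹ := by
    rw [one_div]
    exact inv_anti₀ hq hXq
  have hs : Real.sqrt (c₁ / 2) * X₀ ≤ Real.sqrt (X ^ k * E) := by
    rw [Real.le_sqrt (by positivity) (by positivity), mul_pow, Real.sq_sqrt (by positivity)]
    calc c₁ / 2 * X₀ ^ 2 = (c₁ / 2 * X₀) * X₀ := by ring
      _ ≤ X ^ k * E := mul_le_mul hXX0 hEX (by positivity) (by positivity)
  set s := Real.sqrt (c₁ / 2) with hsd
  have hs0 : 0 < s := Real.sqrt_pos.mpr (by positivity)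
  have hpow : (1 + Real.log X) ^ Cv ≤ (4 * ℓ) ^ Cv :=
    Real.rpow_le_rpow (by linarith) hlX (by linarith)
  have hpow1 : 1 ≤ (4 * ℓ) ^ Cv := Real.one_le_rpow (by linarith) (by linarith)
  have hb2 : (X₀ * q⁻¹) * (1 + Real.log X) ^ Cv / Real.sqrt (X ^ k * E) ≤
      q⁻¹ * (4 * ℓ) ^ Cv * s⁻¹ := by
    rw [div_le_iff₀ (by positivity)]
    calc (X₀ * q⁻¹) * (1 + Real.log X) ^ Cv ≤ (X₀ * q⁻¹) * (4 * ℓ) ^ Cv :=
          mul_le_mul_of_nonneg_left hpow (by positivity)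
      _ = q⁻¹ * (4 * ℓ) ^ Cv * s⁻¹ * (s * X₀) := by field_simp
      _ ≤ _ := mul_le_mul_of_nonneg_left hs (by positivity)
  have hb3 : base ≤ q⁻¹ * ((1 + s⁻¹) * (4 * ℓ) ^ Cv) := by
    have h1 : q⁻¹ * 1 ≤ q⁻¹ * (4 * ℓ) ^ Cv := mul_le_mul_of_nonneg_left hpow1 (by positivity)
    calc base ≤ q⁻¹ + q⁻¹ * (4 * ℓ) ^ Cv * s⁻¹ := by rw [hbase]; linarith
      _ ≤ q⁻¹ * (4 * ℓ) ^ Cv + q⁻¹ * (4 * ℓ) ^ Cv * s⁻¹ := by linarith
      _ = _ := by ring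
  set P := Cv * 2 * 10 ^ 6 * ℓ ^ 7 * (2 * ℓ) ^ (2 * |B|) with hP
  have hP0 : 0 < P := by positivity
  have hPT : (1 + s⁻¹) * (4 * ℓ) ^ Cv * P ^ T =
      ((1 + s⁻¹) * 4 ^ Cv * (Cv * 2 * 10 ^ 6 * 2 ^ (2 * |B|)) ^ T) *
      ℓ ^ (Cv + (7 + 2 * |B|) * T) := by
    rw [hP, Real.mul_rpow (by norm_num) hℓ0.le, Real.mul_rpow (by norm_num) hℓ0.le,
      Real.rpow_add hℓ0, add_mul (7 : ℝ) (2 * |B|) (T : ℝ), Real.rpow_add hℓ0]
    have e1 : ℓ ^ ((7 : ℝ) * T) = (ℓ ^ 7) ^ T := by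
      rw [Real.rpow_mul hℓ0.le, Real.rpow_natCast]
      norm_cast
    have e2 : ℓ ^ (2 * |B| * T) = (ℓ ^ (2 * |B|)) ^ T := by
      rw [Real.rpow_mul hℓ0.le, Real.rpow_natCast]
    rw [e1, e2]
    ring
  have hmain : base * P ^ T ≤ 1 := by
    calc base * P ^ T ≤ (q⁻¹ * ((1 + s⁻¹) * (4 * ℓ) ^ Cv)) * P ^ T :=
          mul_le_mul_of_nonneg_right hb3 (by positivity)
      _ = q⁻¹ * ((1 + s⁻¹) * (4 * ℓ) ^ Cv * P ^ T) := by ring
      _ ≤ q⁻¹ * q := by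
          rw [hPT]
          exact mul_le_mul_of_nonneg_left hqℓ (by positivity)
      _ = 1 := inv_mul_cancel₀ hq.ne'
  have hr := DE1_rpow base P T hT hbase0 hP0 hmain
  have hL2 : L ^ (2 * B) ≤ (2 * ℓ) ^ (2 * |B|) := by
    calc L ^ (2 * B) ≤ L ^ (2 * |B|) :=
          Real.rpow_le_rpow_of_exponent_le hL1 (by linarith [le_abs_self B])
      _ ≤ (2 * ℓ) ^ (2 * |B|) := Real.rpow_le_rpow (by linarith) hL (by positivity)
  calc Cv * E * base ^ ((1 : ℝ) / T) * L ^ (2 * B)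
      ≤ Cv * E * base ^ ((1 : ℝ) / T) * (2 * ℓ) ^ (2 * |B|) :=
        mul_le_mul_of_nonneg_left hL2 (by positivity)
    _ = (X₀ / 2) * (P * base ^ ((1 : ℝ) / T)) := by rw [hE, hP]; ring
    _ ≤ (X₀ / 2) * 1 := mul_le_mul_of_nonneg_left hr (by positivity)
    _ ≤ Y := by linarith


theorem DE1_cs (u : ℤ → ℝ) (M : ℕ) (hu : ∀ m, m ∉ Icc (1 : ℤ) M → u m = 0) (X Y : ℕ)
    (A : Finset ℕ) (hA : A ⊆ Icc 1 X) (f : ℕ → ℝ) (hf : ∀ n, |f n| ≤ 1) (v : ℕ → ℤ) :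
    (∑ N ∈ Icc 1 Y, |∑ n ∈ A, f n * u ((N : ℤ) - v n)|) ^ 2 ≤
      Y * ∑ n ∈ Icc 1 X, ∑ n' ∈ Icc 1 X, |cor u M (v n - v n')| := by
  have h1 := sq_sum_le_card_mul_sum_sq (s := Icc 1 Y)
    (f := fun N : ℕ => |∑ n ∈ A, f n * u ((N : ℤ) - v n)|)
  refine h1.trans ?_
  rw [Nat.card_Icc, Nat.add_sub_cancel]
  refine mul_le_mul_of_nonneg_left ?_ (by positivity)
  have h2 : ∑ N ∈ Icc 1 Y, |∑ n ∈ A, f n * u ((N : ℤ) - v n)| ^ 2 =
      ∑ N ∈ (Icc 1 Y).image (fun N : ℕ => (N : ℤ)), (∑ n ∈ A, f n * u (N - v n)) ^ 2 := by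
    rw [sum_image (fun a _ b _ h => by exact_mod_cast h)]
    refine sum_congr rfl fun N _ => ?_
    rw [sq_abs]
  rw [h2]
  refine (cor_conv u M hu A f hf v _).trans ?_
  refine (sum_le_sum fun n _ => sum_le_sum_of_subset_of_nonneg hA
    (fun _ _ _ => abs_nonneg _)).trans ?_
  exact sum_le_sum_of_subset_of_nonneg hA (fun _ _ _ => sum_nonneg fun _ _ => abs_nonneg _)

theorem DE1_filter (G : ℤ[X]) (Q X₀ : ℕ) (b : ℤ) (A : Finset ℕ) (f : ℕ → ℝ) (N : ℕ) :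
    ∑ n ∈ A.filter (fun n : ℕ => (X₀ : ℤ) ≤ (N : ℤ) - G.eval (n : ℤ) ∧
      (N : ℤ) - G.eval (n : ℤ) < b), f n * (lp ((N : ℤ) - G.eval (n : ℤ)) -
        Lk Q (X₀ / Q ^ 2) ((N : ℤ) - G.eval (n : ℤ))) =
      ∑ n ∈ A, f n * DE1_u Q X₀ b ((N : ℤ) - G.eval (n : ℤ)) := by
  rw [sum_filter]
  refine sum_congr rfl fun n _ => ?_
  unfold DE1_u
  split_ifs <;> simp

theorem DE1_arg (G : ℤ[X]) (hk : 1 ≤ G.natDegree) (hl : 0 < G.leadingCoeff) :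
    ∃ c₁ : ℝ, 0 < c₁ ∧ ∃ Y₁ : ℕ, 3 ≤ Y₁ ∧ ∀ Y : ℕ, Y₁ ≤ Y →
      1 ≤ argCount G Y ∧ c₁ * Y ≤ (argCount G Y : ℝ) ^ G.natDegree ∧
        (argCount G Y : ℝ) ≤ 2 * Y := by
  have ha : (0 : ℝ) < (G.leadingCoeff : ℝ) := by exact_mod_cast hl
  have ha1 : (1 : ℝ) ≤ (G.leadingCoeff : ℝ) := by exact_mod_cast hl
  have h1 := argCount_pow G hk hl
  have h2 : ∀ᶠ Y : ℕ in Filter.atTop, (G.leadingCoeff : ℝ)⁻¹ / 2 <
      (argCount G Y : ℝ) ^ G.natDegree / Y := h1.eventually_const_lt (by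
        have : 0 < (G.leadingCoeff : ℝ)⁻¹ := by positivity
        linarith)
  have h3 : ∀ᶠ Y : ℕ in Filter.atTop, (argCount G Y : ℝ) ^ G.natDegree / Y < 2 :=
    h1.eventually_lt_const (by
      have : (G.leadingCoeff : ℝ)⁻¹ ≤ 1 := inv_le_one_of_one_le₀ ha1
      linarith)
  have h4 : ∀ᶠ Y : ℕ in Filter.atTop, 1 ≤ argCount G Y :=
    (Pool.Agent.Lib.H59.argCount_tendsto hk hl).eventually_ge_atTop 1
  obtain ⟨Y₀, hY₀⟩ := Filter.eventually_atTop.1 (h2.and (h3.and h4))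
  refine ⟨(G.leadingCoeff : ℝ)⁻¹ / 2, by positivity, max Y₀ 3, le_max_right _ _, fun Y hY => ?_⟩
  obtain ⟨a1, a2, a3⟩ := hY₀ Y ((le_max_left _ _).trans hY)
  have hY3 : 3 ≤ Y := (le_max_right _ _).trans hY
  have hYr : (0 : ℝ) < Y := by
    have : (3 : ℝ) ≤ Y := by exact_mod_cast hY3
    linarith
  rw [lt_div_iff₀ hYr] at a1
  rw [div_lt_iff₀ hYr] at a2
  refine ⟨a3, a1.le, ?_⟩
  have h5 : (argCount G Y : ℝ) ≤ (argCount G Y : ℝ) ^ G.natDegree :=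
    le_self_pow₀ (by exact_mod_cast a3) (by omega)
  linarith

/-- Let `X = argCount G Y`, `k = deg G`, `u(m) = (lp - Lk)(m)` for `X₀ ≤ m < b` and `0` otherwise,
`M = 4 X₀`. Then `u` is supported in `[1, M]` and:
* sup of the exponential sums `≤ X₀ Q^(-1/4) =: S` (`H68T.fourier_small`, `a = X₀`);
* `∑ u² ≤ 2 ∑ lp² + 2 ∑ Lk²`, `lp ≤ log(4X₀)`, `|Lk| ≤ |G_Q| + (log X₀)^(-1) dQ ≤ (10 (1+log Q)² + 1) dQ`
  (`H68T.structured` with `A = 1`, `H68T.abs_G_le`), `∑_{X₀ ≤ m < 4X₀} dQ² ≤ 3 X₀ (1+log Q)³ + Q²`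
  (`H68T.dQ_moment` with `W = 1, b = 0`), so `∑ u² ≤ E := X₀ (log X₀)^10`, `X₀` large.
By Cauchy-Schwarz and `cor_conv`,
`(∑_{N ≤ Y} |∑_n f(n) u(N - G(n))|)² ≤ Y ∑_{n,n' ≤ X} |cor(G(n) - G(n'))|`, and `vdc` bounds the double sum
by `C X² E (1/X + S (1+log X)^C/√(X^k E))^(1/2^(k-1))`; `X^k ≥ c Y` (`argCount_pow`), `E ≥ X₀ ≥ δ Y`,
`S ≤ 2 Y Q^(-1/4)`, so the base is at most `1/X + C' (log Y)^C Q^(-1/4)`, and
`Q ≥ (log X₀)^K` (from `Reg`), `K` large in terms of `G, B, δ`. Also `|f| ≤ 1`. `Y` is large because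
`K ≤ log log X₀`, `X₀ ≤ 2Y`. -/
theorem dec_u2 (G : ℤ[X]) (hk : 1 ≤ G.natDegree) (hl : 0 < G.leadingCoeff) (c : ℝ) (hc : 0 < c)
    (B δ : ℝ) (hδ : 0 < δ) : ∃ K : ℝ, ∀ Y Q X₀ : ℕ, Reg K Q X₀ → Good c Q → δ * Y ≤ X₀ →
    (X₀ : ℝ) ≤ 2 * Y → ∀ b : ℤ, b ≤ 4 * X₀ → ∀ f : ℕ → ℝ, (∀ n, |f n| ≤ 1) →
    ∀ A ⊆ Icc 1 (argCount G Y),
    ∑ N ∈ Icc 1 Y, |∑ n ∈ A.filter (fun n : ℕ => (X₀ : ℤ) ≤ (N : ℤ) - G.eval (n : ℤ) ∧
      (N : ℤ) - G.eval (n : ℤ) < b), f n * (lp ((N : ℤ) - G.eval (n : ℤ)) -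
        Lk Q (X₀ / Q ^ 2) ((N : ℤ) - G.eval (n : ℤ)))| ≤
      Y * argCount G Y / (Real.log Y) ^ B := by
  obtain ⟨Cv, hCv, hvdc⟩ := vdc G hk hl
  obtain ⟨c₁, hc₁, Y₁, hY₁3, hY₁⟩ := DE1_arg G hk hl
  obtain ⟨K1, hst⟩ := Pool.Agent.Lib.H68T.structured c hc 1
  obtain ⟨K2, hfs⟩ := Pool.Agent.Lib.H68T.fourier_small
  set k := G.natDegree with hkd
  set T := 2 ^ (k - 1) with hT
  have hT1 : 1 ≤ T := Nat.one_le_two_pow
  obtain ⟨K3, hK3, h3⟩ := Pool.Agent.Lib.H68T.reg_pow_le (2 / c₁) ((1 : ℝ) / 4 * k) 1 one_pos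
  obtain ⟨K4, hK4, h4⟩ := Pool.Agent.Lib.H68T.reg_log_le
    ((1 + (Real.sqrt (c₁ / 2))⁻¹) * 4 ^ Cv * (Cv * 2 * 10 ^ 6 * 2 ^ (2 * |B|)) ^ T)
    (Cv + (7 + 2 * |B|) * T) (1 / 4) (by norm_num)
  obtain ⟨K5, hK5, h5⟩ := Pool.Agent.Lib.H68T.reg_pow_le 1 2 1 one_pos
  refine ⟨|K1| + |K2| + K3 + K4 + K5 + |Real.log δ| + 2 * Y₁ + 3,
    fun Y Q X₀ hR hG hX1 hX2 b hb f hf A hA => ?_⟩
  set K := |K1| + |K2| + K3 + K4 + K5 + |Real.log δ| + 2 * Y₁ + 3 with hK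
  have a1 := abs_nonneg K1
  have a2 := abs_nonneg K2
  have a3 := abs_nonneg (Real.log δ)
  have a4 : (0 : ℝ) ≤ 2 * Y₁ := by positivity
  have hK0 : 0 ≤ K := by rw [hK]; linarith
  have hK1' : 1 ≤ K := by rw [hK]; linarith
  have hKpos : 0 < K := by linarith
  have r1 : Reg K1 Q X₀ := hR.mono hK0 (by rw [hK]; linarith [le_abs_self K1])
  have r2 : Reg K2 Q X₀ := hR.mono hK0 (by rw [hK]; linarith [le_abs_self K2])
  have r3 : Reg K3 Q X₀ := hR.mono hK0 (by rw [hK]; linarith)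
  have r4 : Reg K4 Q X₀ := hR.mono hK0 (by rw [hK]; linarith)
  have r5 : Reg K5 Q X₀ := hR.mono hK0 (by rw [hK]; linarith)
  have hQpos : 0 < Q := hR.Q_pos hK1'
  have hQr : (0 : ℝ) < Q := by exact_mod_cast hQpos
  have hX0pos : 0 < X₀ := hR.X_pos hKpos
  have hX0r : (1 : ℝ) ≤ X₀ := by exact_mod_cast hX0pos
  set ℓ := Real.log X₀ with hℓd
  have hℓK : K ≤ ℓ := by
    have := hR.logX_ge hKpos
    have h' : K + 1 ≤ Real.exp K := Real.add_one_le_exp K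
    linarith
  have hℓ1 : 1 ≤ ℓ := by linarith
  have hXK : K ≤ (X₀ : ℝ) := hR.X_ge hKpos
  have hYY : Y₁ ≤ Y := by
    have : (Y₁ : ℝ) ≤ Y := by
      have : 2 * (Y₁ : ℝ) ≤ K := by rw [hK]; linarith
      linarith
    exact_mod_cast this
  obtain ⟨b1, b2, b3⟩ := hY₁ Y hYY
  have hY3 : (3 : ℝ) ≤ Y := by exact_mod_cast (hY₁3.trans hYY)
  have hYpos : (0 : ℝ) < Y := by linarith
  set L := Real.log Y with hLd
  have hL1 : 1 ≤ L := by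
    rw [hLd, Real.le_log_iff_exp_le hYpos]
    linarith [Real.exp_one_lt_d9]
  have hLℓ : L ≤ 2 * ℓ := by
    have e1 : Real.log (δ * Y) ≤ ℓ := Real.log_le_log (by positivity) hX1
    rw [Real.log_mul hδ.ne' hYpos.ne'] at e1
    have e2 : |Real.log δ| ≤ K := by rw [hK]; linarith
    have e3 := neg_abs_le (Real.log δ)
    linarith
  set X := argCount G Y with hXd
  have hXr : (1 : ℝ) ≤ X := by exact_mod_cast b1
  have hlogX : 1 + Real.log X ≤ 4 * ℓ := by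
    have e1 : Real.log X ≤ Real.log (2 * Y) := Real.log_le_log (by linarith) b3
    rw [Real.log_mul (by norm_num) hYpos.ne'] at e1
    have e2 : Real.log 2 ≤ 1 := by linarith [Real.log_two_lt_d9]
    have e3 : 3 ≤ ℓ := by
      have : 3 ≤ K := by rw [hK]; linarith
      linarith
    linarith
  have hlogQ : Real.log Q ≤ ℓ := by
    have e1 := hR.logQ_le hK1'
    have e2 : 0 ≤ Real.log Q := Real.log_nonneg (by exact_mod_cast hQpos)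
    have e3 : 1 * Real.log Q ≤ K * Real.log Q := mul_le_mul_of_nonneg_right hK1' e2
    linarith
  have hQ2X : (Q : ℝ) ^ 2 ≤ X₀ := by
    have e1 := h5 Q X₀ r5
    rw [one_mul, Real.rpow_one] at e1
    exact_mod_cast e1
  -- the function `u`
  set u := DE1_u Q X₀ b with hu
  have husupp : ∀ m, m ∉ Icc (1 : ℤ) (4 * X₀ : ℕ) → u m = 0 := fun m hm =>
    DE1_supp Q X₀ b hb hX0pos m hm
  have hE := DE1_sq hb hX0pos hQpos hℓ1 hQ2X hlogQ (fun m hm hm4 => hst Q X₀ r1 hG m hm hm4)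
  have hS0 : (0 : ℝ) ≤ X₀ * (Q : ℝ) ^ (-(1 / 4) : ℝ) := by positivity
  have hS := DE1_four Q X₀ b hb hX0pos _ hS0 (fun θ a b ha hb => hfs Q X₀ r2 θ a b ha hb)
  have hE0 : 0 < 10 ^ 6 * (X₀ : ℝ) * ℓ ^ 7 := by positivity
  have hv := hvdc u (4 * X₀) husupp _ _ hE0 hE hS0 hS X b1
  have hcs := DE1_cs u (4 * X₀) husupp X Y A hA f hf (fun n => G.eval (n : ℤ))
  have hsum : ∑ N ∈ Icc 1 Y, |∑ n ∈ A.filter (fun n : ℕ => (X₀ : ℤ) ≤ (N : ℤ) - G.eval (n : ℤ) ∧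
      (N : ℤ) - G.eval (n : ℤ) < b), f n * (lp ((N : ℤ) - G.eval (n : ℤ)) -
        Lk Q (X₀ / Q ^ 2) ((N : ℤ) - G.eval (n : ℤ)))| =
      ∑ N ∈ Icc 1 Y, |∑ n ∈ A, f n * u ((N : ℤ) - G.eval (n : ℤ))| := by
    refine sum_congr rfl fun N _ => ?_
    rw [DE1_filter]
  rw [hsum]
  have hqq : ((Q : ℝ) ^ ((1 : ℝ) / 4))⁻¹ = (Q : ℝ) ^ (-(1 / 4) : ℝ) := by
    rw [← Real.rpow_neg hQr.le]
  have hnum := DE1_num k T hk hT1 Cv c₁ B Y X X₀ ((Q : ℝ) ^ ((1 : ℝ) / 4)) ℓ L hCv hc₁ hXr hX0r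
    hX2 hℓ1 hL1 hLℓ (by positivity) hlogX b2 (by
      have e1 := h3 Q X₀ r3
      rw [Real.rpow_one, Real.rpow_mul hQr.le, Real.rpow_natCast] at e1
      exact e1) (h4 Q X₀ r4)
  rw [hqq] at hnum
  have hTc : ((2 : ℝ) ^ (k - 1)) = ((T : ℕ) : ℝ) := by rw [hT]; push_cast; rfl
  rw [hTc] at hv
  have hLB : 0 < L ^ B := Real.rpow_pos_of_pos (by linarith) _
  rw [le_div_iff₀ hLB]
  refine le_of_sq_le_sq ?_ (by positivity)
  rw [mul_pow, ← Real.rpow_natCast (L ^ B) 2, ← Real.rpow_mul (by linarith)]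
  have hcast : B * ((2 : ℕ) : ℝ) = 2 * B := by push_cast; ring
  rw [hcast]
  have hD := hcs.trans (mul_le_mul_of_nonneg_left hv hYpos.le)
  have hL2B : 0 ≤ L ^ (2 * B) := Real.rpow_nonneg (by linarith) _
  refine (mul_le_mul_of_nonneg_right hD hL2B).trans ?_
  refine le_trans (le_of_eq ?_) (mul_le_mul_of_nonneg_left hnum
    (by positivity : (0 : ℝ) ≤ Y * X ^ 2)) |>.trans (le_of_eq ?_)
  · ring
  · ring

end Pool.Agent.Lib.H33B
end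

-- from Lib.H33B.DE2
section

/-!
# Chunk DE2: primes against the Ramanujan model at the values `N - G(n)`
-/

open Finset Polynomial

namespace Pool.Agent.Lib.H33B

open Pool.Agent.Lib.H59 (argCount)
open Pool.Agent.Lib.H68T (lp Lk Reg Good)

theorem DE2_mom {Q X₀ : ℕ} (hX0 : 1 ≤ X₀) (hQ : 1 ≤ Q) (hℓ : 1 ≤ Real.log X₀)
    (hQX : (Q : ℝ) ^ 2 ≤ X₀) (hlQ : Real.log Q ≤ Real.log X₀) :
    ∑ m ∈ Ico (X₀ : ℤ) (4 * X₀), (Pool.Agent.Lib.H68T.dQ Q m) ^ 2 ≤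
      25 * X₀ * (Real.log X₀) ^ 3 := by
  set ℓ := Real.log X₀ with hℓd
  have hX0r : (1 : ℝ) ≤ X₀ := by exact_mod_cast hX0
  have hlQ0 : 0 ≤ Real.log Q := Real.log_nonneg (by exact_mod_cast hQ)
  have hmom : ∑ m ∈ Ico (X₀ : ℤ) (4 * X₀), (Pool.Agent.Lib.H68T.dQ Q m) ^ 2 ≤
      3 * X₀ * (1 + ℓ) ^ 3 + X₀ := by
    have h1 := Pool.Agent.Lib.H68T.dQ_moment Q (3 * X₀) 1 0 X₀ one_pos (Nat.coprime_one_right 0)
    have h2 : ∑ m ∈ Ico (X₀ : ℤ) (4 * X₀), (Pool.Agent.Lib.H68T.dQ Q m) ^ 2 =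
        ∑ c ∈ range (3 * X₀), (Pool.Agent.Lib.H68T.dQ Q (((0 : ℕ) : ℤ) + (1 : ℕ) *
          (X₀ + c : ℕ))) ^ 2 := by
      symm
      refine sum_bij' (fun c _ => ((X₀ + c : ℕ) : ℤ)) (fun m _ => (m - X₀).toNat) ?_ ?_ ?_ ?_ ?_
      · intro c hc
        rw [mem_range] at hc
        rw [mem_Ico]
        push_cast
        omega
      · intro m hm
        rw [mem_Ico] at hm
        rw [mem_range]
        omega
      · intro c hc
        simp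
      · intro m hm
        rw [mem_Ico] at hm
        push_cast
        omega
      · intro c hc
        simp
    rw [h2]
    refine h1.trans ?_
    have h3 : (1 + Real.log Q) ^ 3 ≤ (1 + ℓ) ^ 3 := by
      apply pow_le_pow_left₀ (by linarith); linarith
    push_cast
    have h4 : 3 * (X₀ : ℝ) * (1 + Real.log Q) ^ 3 ≤ 3 * X₀ * (1 + ℓ) ^ 3 :=
      mul_le_mul_of_nonneg_left h3 (by positivity)
    linarith
  refine hmom.trans ?_
  have k1 : (1 + ℓ) ≤ 2 * ℓ := by linarith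
  have k2 : (1 + ℓ) ^ 3 ≤ (2 * ℓ) ^ 3 := pow_le_pow_left₀ (by linarith) k1 3
  have k6 : (1 : ℝ) ≤ ℓ ^ 3 := one_le_pow₀ hℓ
  have : 3 * (X₀ : ℝ) * (1 + ℓ) ^ 3 ≤ 3 * X₀ * (2 * ℓ) ^ 3 :=
    mul_le_mul_of_nonneg_left k2 (by positivity)
  nlinarith

/-- `lp - G_Q = (lp - Lk) + (Lk - G_Q)`; the first part is `dec_u2` (with `B + 1`). For the second,
`|Lk - G_Q| ≤ (log X₀)^(-B-9) dQ` on `[X₀, 4X₀]` (`H68T.structured`), and
`∑_N |∑_n f(n) (Lk - G_Q)(N - G(n))| ≤ ∑_{n ≤ X} ∑_{X₀ ≤ m < 4X₀} (log X₀)^(-B-9) dQ(m)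
≤ X (log X₀)^(-B-9) (3X₀ (1+log Q)³ + Q²)` (`dQ ≤ dQ²`, `H68T.dQ_moment`), and `X₀ ≤ 2Y`, `log Q ≤ log X₀`,
`log Y ≤ 2 log X₀`. -/
theorem dec (G : ℤ[X]) (hk : 1 ≤ G.natDegree) (hl : 0 < G.leadingCoeff) (c : ℝ) (hc : 0 < c)
    (B δ : ℝ) (hδ : 0 < δ) : ∃ K : ℝ, ∀ Y Q X₀ : ℕ, Reg K Q X₀ → Good c Q → δ * Y ≤ X₀ →
    (X₀ : ℝ) ≤ 2 * Y → ∀ b : ℤ, b ≤ 4 * X₀ → ∀ f : ℕ → ℝ, (∀ n, |f n| ≤ 1) →
    ∀ A ⊆ Icc 1 (argCount G Y),
    ∑ N ∈ Icc 1 Y, |∑ n ∈ A.filter (fun n : ℕ => (X₀ : ℤ) ≤ (N : ℤ) - G.eval (n : ℤ) ∧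
      (N : ℤ) - G.eval (n : ℤ) < b), f n * (lp ((N : ℤ) - G.eval (n : ℤ)) -
        Pool.Agent.Lib.H68T.G Q ((N : ℤ) - G.eval (n : ℤ)))| ≤
      Y * argCount G Y / (Real.log Y) ^ B := by
  obtain ⟨K0, hK0'⟩ := dec_u2 G hk hl c hc (B + 1) δ hδ
  obtain ⟨K1, hst⟩ := Pool.Agent.Lib.H68T.structured c hc (|B| + 4)
  obtain ⟨K5, hK5, h5⟩ := Pool.Agent.Lib.H68T.reg_pow_le 1 2 1 one_pos
  refine ⟨|K0| + |K1| + K5 + |Real.log δ| + 100 * 2 ^ |B| + 50,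
    fun Y Q X₀ hR hG hX1 hX2 b hb f hf A hA => ?_⟩
  set K := |K0| + |K1| + K5 + |Real.log δ| + 100 * 2 ^ |B| + 50 with hK
  have a1 := abs_nonneg K1
  have a2 := abs_nonneg K0
  have a3 := abs_nonneg (Real.log δ)
  have a4 : (0 : ℝ) ≤ 100 * 2 ^ |B| := by positivity
  have hK0 : 0 ≤ K := by rw [hK]; linarith
  have hK1' : 1 ≤ K := by rw [hK]; linarith
  have hKpos : 0 < K := by linarith
  have r0 : Reg K0 Q X₀ := hR.mono hK0 (by rw [hK]; linarith [le_abs_self K0])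
  have r1 : Reg K1 Q X₀ := hR.mono hK0 (by rw [hK]; linarith [le_abs_self K1])
  have r5 : Reg K5 Q X₀ := hR.mono hK0 (by rw [hK]; linarith)
  have hQpos : 0 < Q := hR.Q_pos hK1'
  have hX0pos : 0 < X₀ := hR.X_pos hKpos
  have hX0r : (1 : ℝ) ≤ X₀ := by exact_mod_cast hX0pos
  set ℓ := Real.log X₀ with hℓd
  have hℓK : K ≤ ℓ := by
    have := hR.logX_ge hKpos
    have h' : K + 1 ≤ Real.exp K := Real.add_one_le_exp K
    linarith
  have hℓ1 : 1 ≤ ℓ := by linarith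
  have hXK : K ≤ (X₀ : ℝ) := hR.X_ge hKpos
  have hY3 : (25 : ℝ) ≤ Y := by
    have : 50 ≤ K := by rw [hK]; linarith
    linarith
  have hYpos : (0 : ℝ) < Y := by linarith
  set L := Real.log Y with hLd
  have hL2 : 2 ≤ L := by
    rw [hLd, Real.le_log_iff_exp_le hYpos]
    have : Real.exp 2 = Real.exp 1 * Real.exp 1 := by rw [← Real.exp_add]; norm_num
    rw [this]
    nlinarith [Real.exp_one_lt_d9, Real.exp_pos 1]
  have hLℓ : L ≤ 2 * ℓ := by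
    have e1 : Real.log (δ * Y) ≤ ℓ := Real.log_le_log (by positivity) hX1
    rw [Real.log_mul hδ.ne' hYpos.ne'] at e1
    have e2 : |Real.log δ| ≤ K := by rw [hK]; linarith
    have e3 := neg_abs_le (Real.log δ)
    linarith
  set X := argCount G Y with hXd
  have hlogQ : Real.log Q ≤ ℓ := by
    have e1 := hR.logQ_le hK1'
    have e2 : 0 ≤ Real.log Q := Real.log_nonneg (by exact_mod_cast hQpos)
    have e3 : 1 * Real.log Q ≤ K * Real.log Q := mul_le_mul_of_nonneg_right hK1' e2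
    linarith
  have hQ2X : (Q : ℝ) ^ 2 ≤ X₀ := by
    have e1 := h5 Q X₀ r5
    rw [one_mul, Real.rpow_one] at e1
    exact_mod_cast e1
  have hmom := DE2_mom hX0pos hQpos hℓ1 hQ2X hlogQ
  have hfirst := hK0' Y Q X₀ r0 hG hX1 hX2 b hb f hf A hA
  -- the second part
  have hdQ0 : ∀ m, 0 ≤ Pool.Agent.Lib.H68T.dQ Q m := fun m => by
    unfold Pool.Agent.Lib.H68T.dQ; positivity
  have hdQ1 : ∀ m, Pool.Agent.Lib.H68T.dQ Q m ≤ Pool.Agent.Lib.H68T.dQ Q m ^ 2 := fun m => by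
    have := Pool.Agent.Lib.H68T.one_le_dQ Q hQpos m
    nlinarith
  have hℓA : 0 ≤ ℓ ^ (-(|B| + 4)) := Real.rpow_nonneg (by linarith) _
  have hsecond : ∑ N ∈ Icc 1 Y, |∑ n ∈ A.filter (fun n : ℕ =>
      (X₀ : ℤ) ≤ (N : ℤ) - G.eval (n : ℤ) ∧ (N : ℤ) - G.eval (n : ℤ) < b), f n *
        (Lk Q (X₀ / Q ^ 2) ((N : ℤ) - G.eval (n : ℤ)) -
        Pool.Agent.Lib.H68T.G Q ((N : ℤ) - G.eval (n : ℤ)))| ≤
      X * (ℓ ^ (-(|B| + 4)) * (25 * X₀ * ℓ ^ 3)) := by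
    have h1 : ∀ N ∈ Icc 1 Y, |∑ n ∈ A.filter (fun n : ℕ =>
        (X₀ : ℤ) ≤ (N : ℤ) - G.eval (n : ℤ) ∧ (N : ℤ) - G.eval (n : ℤ) < b), f n *
          (Lk Q (X₀ / Q ^ 2) ((N : ℤ) - G.eval (n : ℤ)) -
          Pool.Agent.Lib.H68T.G Q ((N : ℤ) - G.eval (n : ℤ)))| ≤
        ∑ n ∈ Icc 1 X, (if (X₀ : ℤ) ≤ (N : ℤ) - G.eval (n : ℤ) ∧
          (N : ℤ) - G.eval (n : ℤ) < 4 * X₀ then
          ℓ ^ (-(|B| + 4)) * Pool.Agent.Lib.H68T.dQ Q ((N : ℤ) - G.eval (n : ℤ)) else 0) := by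
      intro N _
      refine (abs_sum_le_sum_abs _ _).trans ?_
      rw [sum_filter]
      refine (sum_le_sum_of_subset_of_nonneg hA ?_).trans (sum_le_sum ?_)
      · intro n _ _
        split_ifs
        · exact abs_nonneg _
        · exact le_rfl
      · intro n _
        by_cases h : (X₀ : ℤ) ≤ (N : ℤ) - G.eval (n : ℤ) ∧ (N : ℤ) - G.eval (n : ℤ) < b
        · rw [if_pos h, if_pos ⟨h.1, by omega⟩, abs_mul]
          have e1 := hst Q X₀ r1 hG _ h.1 (by omega)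
          have e2 := hf n
          calc |f n| * _ ≤ 1 * _ := mul_le_mul e2 e1 (abs_nonneg _) zero_le_one
            _ = _ := one_mul _
        · rw [if_neg h]
          split_ifs
          · exact mul_nonneg hℓA (hdQ0 _)
          · exact le_rfl
    refine (sum_le_sum h1).trans ?_
    rw [sum_comm]
    have h2 : ∀ n ∈ Icc 1 X, ∑ N ∈ Icc 1 Y, (if (X₀ : ℤ) ≤ (N : ℤ) - G.eval (n : ℤ) ∧
          (N : ℤ) - G.eval (n : ℤ) < 4 * X₀ then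
          ℓ ^ (-(|B| + 4)) * Pool.Agent.Lib.H68T.dQ Q ((N : ℤ) - G.eval (n : ℤ)) else 0) ≤
        ℓ ^ (-(|B| + 4)) * (25 * X₀ * ℓ ^ 3) := by
      intro n _
      rw [← sum_filter]
      have e1 : ∑ N ∈ (Icc 1 Y).filter (fun N : ℕ => (X₀ : ℤ) ≤ (N : ℤ) - G.eval (n : ℤ) ∧
          (N : ℤ) - G.eval (n : ℤ) < 4 * X₀), ℓ ^ (-(|B| + 4)) *
            Pool.Agent.Lib.H68T.dQ Q ((N : ℤ) - G.eval (n : ℤ)) =
          ∑ m ∈ ((Icc 1 Y).filter (fun N : ℕ => (X₀ : ℤ) ≤ (N : ℤ) - G.eval (n : ℤ) ∧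
          (N : ℤ) - G.eval (n : ℤ) < 4 * X₀)).image (fun N : ℕ => (N : ℤ) - G.eval (n : ℤ)),
            ℓ ^ (-(|B| + 4)) * Pool.Agent.Lib.H68T.dQ Q m := by
        rw [sum_image]
        intro a _ b _ h
        have h' : (a : ℤ) - G.eval (n : ℤ) = (b : ℤ) - G.eval (n : ℤ) := h
        have : (a : ℤ) = b := by linarith
        exact_mod_cast this
      rw [e1]
      calc _ ≤ ∑ m ∈ Ico (X₀ : ℤ) (4 * X₀), ℓ ^ (-(|B| + 4)) *
            Pool.Agent.Lib.H68T.dQ Q m := by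
            refine sum_le_sum_of_subset_of_nonneg ?_ (fun m _ _ => mul_nonneg hℓA (hdQ0 m))
            intro m hm
            rw [mem_image] at hm
            obtain ⟨N, hN, rfl⟩ := hm
            rw [mem_filter] at hN
            rw [mem_Ico]
            exact hN.2
        _ ≤ ∑ m ∈ Ico (X₀ : ℤ) (4 * X₀), ℓ ^ (-(|B| + 4)) *
            Pool.Agent.Lib.H68T.dQ Q m ^ 2 :=
            sum_le_sum fun m _ => mul_le_mul_of_nonneg_left (hdQ1 m) hℓA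
        _ = ℓ ^ (-(|B| + 4)) * ∑ m ∈ Ico (X₀ : ℤ) (4 * X₀),
            Pool.Agent.Lib.H68T.dQ Q m ^ 2 := by rw [mul_sum]
        _ ≤ _ := mul_le_mul_of_nonneg_left hmom hℓA
    refine (sum_le_sum h2).trans ?_
    rw [sum_const, Nat.card_Icc, nsmul_eq_mul, Nat.add_sub_cancel]
  -- combination
  have hsplit : ∀ N ∈ Icc 1 Y, |∑ n ∈ A.filter (fun n : ℕ =>
      (X₀ : ℤ) ≤ (N : ℤ) - G.eval (n : ℤ) ∧ (N : ℤ) - G.eval (n : ℤ) < b), f n *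
        (lp ((N : ℤ) - G.eval (n : ℤ)) -
        Pool.Agent.Lib.H68T.G Q ((N : ℤ) - G.eval (n : ℤ)))| ≤
      |∑ n ∈ A.filter (fun n : ℕ =>
      (X₀ : ℤ) ≤ (N : ℤ) - G.eval (n : ℤ) ∧ (N : ℤ) - G.eval (n : ℤ) < b), f n *
        (lp ((N : ℤ) - G.eval (n : ℤ)) - Lk Q (X₀ / Q ^ 2) ((N : ℤ) - G.eval (n : ℤ)))| +
      |∑ n ∈ A.filter (fun n : ℕ =>
      (X₀ : ℤ) ≤ (N : ℤ) - G.eval (n : ℤ) ∧ (N : ℤ) - G.eval (n : ℤ) < b), f n *
        (Lk Q (X₀ / Q ^ 2) ((N : ℤ) - G.eval (n : ℤ)) -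
        Pool.Agent.Lib.H68T.G Q ((N : ℤ) - G.eval (n : ℤ)))| := by
    intro N _
    refine le_trans (le_of_eq ?_) (abs_add_le _ _)
    congr 1
    rw [← sum_add_distrib]
    refine sum_congr rfl fun n _ => ?_
    ring
  refine (sum_le_sum hsplit).trans ?_
  rw [sum_add_distrib]
  refine (add_le_add hfirst hsecond).trans ?_
  have hLB : 0 < L ^ B := Real.rpow_pos_of_pos (by linarith) _
  have p1 : (Y : ℝ) * X / L ^ (B + 1) ≤ (1 / 2) * (Y * X / L ^ B) := by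
    rw [Real.rpow_add (by linarith), Real.rpow_one]
    rw [div_le_iff₀ (by positivity)]
    have e1 : 1 / 2 * (Y * X / L ^ B) * (L ^ B * L) = (Y * X) * (L / 2) := by
      field_simp
    rw [e1]
    have : (0 : ℝ) ≤ Y * X := by positivity
    nlinarith
  have p2 : X * (ℓ ^ (-(|B| + 4)) * (25 * X₀ * ℓ ^ 3)) ≤ (1 / 2) * (Y * X / L ^ B) := by
    have hLB2 : L ^ B ≤ 2 ^ |B| * ℓ ^ |B| := by
      calc L ^ B ≤ L ^ |B| := Real.rpow_le_rpow_of_exponent_le (by linarith) (le_abs_self B)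
        _ ≤ (2 * ℓ) ^ |B| := Real.rpow_le_rpow (by linarith) hLℓ (abs_nonneg B)
        _ = _ := Real.mul_rpow (by norm_num) (by linarith)
    have e0 : ℓ ^ (-(|B| + 4)) * ℓ ^ 3 * ℓ ^ |B| = ℓ⁻¹ := by
      rw [← Real.rpow_natCast ℓ 3, ← Real.rpow_add (by linarith), ← Real.rpow_add (by linarith),
        ← Real.rpow_neg_one]
      congr 1
      push_cast
      ring
    rw [← mul_div_assoc, le_div_iff₀ hLB]
    calc X * (ℓ ^ (-(|B| + 4)) * (25 * X₀ * ℓ ^ 3)) * L ^ B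
        ≤ X * (ℓ ^ (-(|B| + 4)) * (25 * X₀ * ℓ ^ 3)) * (2 ^ |B| * ℓ ^ |B|) :=
          mul_le_mul_of_nonneg_left hLB2 (by positivity)
      _ = X * (25 * X₀ * 2 ^ |B|) * (ℓ ^ (-(|B| + 4)) * ℓ ^ 3 * ℓ ^ |B|) := by ring
      _ = X * X₀ * ((25 * 2 ^ |B|) * ℓ⁻¹) := by rw [e0]; ring
      _ ≤ X * (2 * Y) * (1 / 4) := by
          apply mul_le_mul _ _ (by positivity) (by positivity)
          · exact mul_le_mul_of_nonneg_left hX2 (by positivity)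
          · rw [← div_eq_mul_inv, div_le_iff₀ (by linarith)]
            have : 100 * 2 ^ |B| ≤ ℓ := by
              have : 100 * 2 ^ |B| ≤ K := by rw [hK]; linarith
              linarith
            linarith
      _ = 1 / 2 * (Y * X) := by ring
  linarith

end Pool.Agent.Lib.H33B
end

-- from Lib.H59X.EP1
section

/-!
# Chunk EP1: the Fourier-uniform part of the primes at the values `N + P(n)`
-/

open Finset Polynomial

namespace Pool.Agent.Lib.H59X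

open Pool.Agent.Lib.H68T (lp Lk Reg Good)
open Pool.Agent.Lib.H33B

theorem EP1_cs (u : ℤ → ℝ) (M : ℕ) (hu : ∀ m, m ∉ Icc (1 : ℤ) M → u m = 0) (X Y : ℕ)
    (A : Finset ℕ) (hA : A ⊆ Icc 1 X) (f : ℕ → ℝ) (hf : ∀ n, |f n| ≤ 1) (v : ℕ → ℤ) :
    (∑ N ∈ Icc 1 Y, |∑ n ∈ A, f n * u ((N : ℤ) + v n)|) ^ 2 ≤
      Y * ∑ n ∈ Icc 1 X, ∑ n' ∈ Icc 1 X, |cor u M (v n - v n')| := by
  have h := DE1_cs u M hu X Y A hA f hf (fun n => - v n)
  simp only [sub_neg_eq_add] at h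
  refine h.trans (mul_le_mul_of_nonneg_left (le_of_eq ?_) (by positivity))
  rw [sum_comm]
  refine sum_congr rfl fun n _ => sum_congr rfl fun n' _ => ?_
  congr 2
  ring

theorem EP1_filter (P : ℤ[X]) (Q X₀ : ℕ) (b : ℤ) (A : Finset ℕ) (f : ℕ → ℝ) (N : ℕ) :
    ∑ n ∈ A.filter (fun n : ℕ => (X₀ : ℤ) ≤ (N : ℤ) + P.eval (n : ℤ) ∧
      (N : ℤ) + P.eval (n : ℤ) < b), f n * (lp ((N : ℤ) + P.eval (n : ℤ)) -
        Lk Q (X₀ / Q ^ 2) ((N : ℤ) + P.eval (n : ℤ))) =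
      ∑ n ∈ A, f n * DE1_u Q X₀ b ((N : ℤ) + P.eval (n : ℤ)) := by
  rw [sum_filter]
  refine sum_congr rfl fun n _ => ?_
  unfold DE1_u
  split_ifs <;> simp

/-- The analogue of `H33B.dec_u2` for the values `N + P(n)`, `N ≤ Y`, `n ≤ X`, `c₁ Y ≤ X^k`, `X ≤ 2 Y`. -/
theorem dec_u2 (G : ℤ[X]) (hk : 1 ≤ G.natDegree) (hl : 0 < G.leadingCoeff) (c : ℝ) (hc : 0 < c)
    (B δ c₁ : ℝ) (hδ : 0 < δ) (hc₁ : 0 < c₁) : ∃ K : ℝ, ∀ Y Q X₀ X : ℕ, Reg K Q X₀ → Good c Q →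
    δ * Y ≤ X₀ → (X₀ : ℝ) ≤ 2 * Y → 1 ≤ X → c₁ * Y ≤ (X : ℝ) ^ G.natDegree → (X : ℝ) ≤ 2 * Y →
    ∀ b : ℤ, b ≤ 4 * X₀ → ∀ f : ℕ → ℝ, (∀ n, |f n| ≤ 1) → ∀ A ⊆ Icc 1 X,
    ∑ N ∈ Icc 1 Y, |∑ n ∈ A.filter (fun n : ℕ => (X₀ : ℤ) ≤ (N : ℤ) + G.eval (n : ℤ) ∧
      (N : ℤ) + G.eval (n : ℤ) < b), f n * (lp ((N : ℤ) + G.eval (n : ℤ)) -
        Lk Q (X₀ / Q ^ 2) ((N : ℤ) + G.eval (n : ℤ)))| ≤
      Y * X / (Real.log Y) ^ B := by
  obtain ⟨Cv, hCv, hvdc⟩ := vdc G hk hl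
  set Y₁ : ℕ := 3 with hY₁d
  obtain ⟨K1, hst⟩ := Pool.Agent.Lib.H68T.structured c hc 1
  obtain ⟨K2, hfs⟩ := Pool.Agent.Lib.H68T.fourier_small
  set k := G.natDegree with hkd
  set T := 2 ^ (k - 1) with hT
  have hT1 : 1 ≤ T := Nat.one_le_two_pow
  obtain ⟨K3, hK3, h3⟩ := Pool.Agent.Lib.H68T.reg_pow_le (2 / c₁) ((1 : ℝ) / 4 * k) 1 one_pos
  obtain ⟨K4, hK4, h4⟩ := Pool.Agent.Lib.H68T.reg_log_le
    ((1 + (Real.sqrt (c₁ / 2))⁻¹) * 4 ^ Cv * (Cv * 2 * 10 ^ 6 * 2 ^ (2 * |B|)) ^ T)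
    (Cv + (7 + 2 * |B|) * T) (1 / 4) (by norm_num)
  obtain ⟨K5, hK5, h5⟩ := Pool.Agent.Lib.H68T.reg_pow_le 1 2 1 one_pos
  refine ⟨|K1| + |K2| + K3 + K4 + K5 + |Real.log δ| + 2 * Y₁ + 3,
    fun Y Q X₀ X hR hG hX1 hX2 b1 b2 b3 b hb f hf A hA => ?_⟩
  set K := |K1| + |K2| + K3 + K4 + K5 + |Real.log δ| + 2 * Y₁ + 3 with hK
  have a1 := abs_nonneg K1
  have a2 := abs_nonneg K2
  have a3 := abs_nonneg (Real.log δ)
  have a4 : (0 : ℝ) ≤ 2 * Y₁ := by positivity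
  have hK0 : 0 ≤ K := by rw [hK]; linarith
  have hK1' : 1 ≤ K := by rw [hK]; linarith
  have hKpos : 0 < K := by linarith
  have r1 : Reg K1 Q X₀ := hR.mono hK0 (by rw [hK]; linarith [le_abs_self K1])
  have r2 : Reg K2 Q X₀ := hR.mono hK0 (by rw [hK]; linarith [le_abs_self K2])
  have r3 : Reg K3 Q X₀ := hR.mono hK0 (by rw [hK]; linarith)
  have r4 : Reg K4 Q X₀ := hR.mono hK0 (by rw [hK]; linarith)
  have r5 : Reg K5 Q X₀ := hR.mono hK0 (by rw [hK]; linarith)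
  have hQpos : 0 < Q := hR.Q_pos hK1'
  have hQr : (0 : ℝ) < Q := by exact_mod_cast hQpos
  have hX0pos : 0 < X₀ := hR.X_pos hKpos
  have hX0r : (1 : ℝ) ≤ X₀ := by exact_mod_cast hX0pos
  set ℓ := Real.log X₀ with hℓd
  have hℓK : K ≤ ℓ := by
    have := hR.logX_ge hKpos
    have h' : K + 1 ≤ Real.exp K := Real.add_one_le_exp K
    linarith
  have hℓ1 : 1 ≤ ℓ := by linarith
  have hXK : K ≤ (X₀ : ℝ) := hR.X_ge hKpos
  have hYY : Y₁ ≤ Y := by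
    have : (Y₁ : ℝ) ≤ Y := by
      have : 2 * (Y₁ : ℝ) ≤ K := by rw [hK]; linarith
      linarith
    exact_mod_cast this
  have hY3 : (3 : ℝ) ≤ Y := by exact_mod_cast hYY
  have hYpos : (0 : ℝ) < Y := by linarith
  set L := Real.log Y with hLd
  have hL1 : 1 ≤ L := by
    rw [hLd, Real.le_log_iff_exp_le hYpos]
    linarith [Real.exp_one_lt_d9]
  have hLℓ : L ≤ 2 * ℓ := by
    have e1 : Real.log (δ * Y) ≤ ℓ := Real.log_le_log (by positivity) hX1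
    rw [Real.log_mul hδ.ne' hYpos.ne'] at e1
    have e2 : |Real.log δ| ≤ K := by rw [hK]; linarith
    have e3 := neg_abs_le (Real.log δ)
    linarith
  have hXr : (1 : ℝ) ≤ X := by exact_mod_cast b1
  have hlogX : 1 + Real.log X ≤ 4 * ℓ := by
    have e1 : Real.log X ≤ Real.log (2 * Y) := Real.log_le_log (by linarith) b3
    rw [Real.log_mul (by norm_num) hYpos.ne'] at e1
    have e2 : Real.log 2 ≤ 1 := by linarith [Real.log_two_lt_d9]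
    have e3 : 3 ≤ ℓ := by
      have : 3 ≤ K := by rw [hK]; linarith
      linarith
    linarith
  have hlogQ : Real.log Q ≤ ℓ := by
    have e1 := hR.logQ_le hK1'
    have e2 : 0 ≤ Real.log Q := Real.log_nonneg (by exact_mod_cast hQpos)
    have e3 : 1 * Real.log Q ≤ K * Real.log Q := mul_le_mul_of_nonneg_right hK1' e2
    linarith
  have hQ2X : (Q : ℝ) ^ 2 ≤ X₀ := by
    have e1 := h5 Q X₀ r5
    rw [one_mul, Real.rpow_one] at e1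
    exact_mod_cast e1
  -- the function `u`
  set u := DE1_u Q X₀ b with hu
  have husupp : ∀ m, m ∉ Icc (1 : ℤ) (4 * X₀ : ℕ) → u m = 0 := fun m hm =>
    DE1_supp Q X₀ b hb hX0pos m hm
  have hE := DE1_sq hb hX0pos hQpos hℓ1 hQ2X hlogQ (fun m hm hm4 => hst Q X₀ r1 hG m hm hm4)
  have hS0 : (0 : ℝ) ≤ X₀ * (Q : ℝ) ^ (-(1 / 4) : ℝ) := by positivity
  have hS := DE1_four Q X₀ b hb hX0pos _ hS0 (fun θ a b ha hb => hfs Q X₀ r2 θ a b ha hb)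
  have hE0 : 0 < 10 ^ 6 * (X₀ : ℝ) * ℓ ^ 7 := by positivity
  have hv := hvdc u (4 * X₀) husupp _ _ hE0 hE hS0 hS X b1
  have hcs := EP1_cs u (4 * X₀) husupp X Y A hA f hf (fun n => G.eval (n : ℤ))
  have hsum : ∑ N ∈ Icc 1 Y, |∑ n ∈ A.filter (fun n : ℕ => (X₀ : ℤ) ≤ (N : ℤ) + G.eval (n : ℤ) ∧
      (N : ℤ) + G.eval (n : ℤ) < b), f n * (lp ((N : ℤ) + G.eval (n : ℤ)) -
        Lk Q (X₀ / Q ^ 2) ((N : ℤ) + G.eval (n : ℤ)))| =
      ∑ N ∈ Icc 1 Y, |∑ n ∈ A, f n * u ((N : ℤ) + G.eval (n : ℤ))| := by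
    refine sum_congr rfl fun N _ => ?_
    rw [EP1_filter]
  rw [hsum]
  have hqq : ((Q : ℝ) ^ ((1 : ℝ) / 4))⁻¹ = (Q : ℝ) ^ (-(1 / 4) : ℝ) := by
    rw [← Real.rpow_neg hQr.le]
  have hnum := DE1_num k T hk hT1 Cv c₁ B Y X X₀ ((Q : ℝ) ^ ((1 : ℝ) / 4)) ℓ L hCv hc₁ hXr hX0r
    hX2 hℓ1 hL1 hLℓ (by positivity) hlogX b2 (by
      have e1 := h3 Q X₀ r3
      rw [Real.rpow_one, Real.rpow_mul hQr.le, Real.rpow_natCast] at e1
      exact e1) (h4 Q X₀ r4)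
  rw [hqq] at hnum
  have hTc : ((2 : ℝ) ^ (k - 1)) = ((T : ℕ) : ℝ) := by rw [hT]; push_cast; rfl
  rw [hTc] at hv
  have hLB : 0 < L ^ B := Real.rpow_pos_of_pos (by linarith) _
  rw [le_div_iff₀ hLB]
  refine le_of_sq_le_sq ?_ (by positivity)
  rw [mul_pow, ← Real.rpow_natCast (L ^ B) 2, ← Real.rpow_mul (by linarith)]
  have hcast : B * ((2 : ℕ) : ℝ) = 2 * B := by push_cast; ring
  rw [hcast]
  have hD := hcs.trans (mul_le_mul_of_nonneg_left hv hYpos.le)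
  have hL2B : 0 ≤ L ^ (2 * B) := Real.rpow_nonneg (by linarith) _
  refine (mul_le_mul_of_nonneg_right hD hL2B).trans ?_
  refine le_trans (le_of_eq ?_) (mul_le_mul_of_nonneg_left hnum
    (by positivity : (0 : ℝ) ≤ Y * X ^ 2)) |>.trans (le_of_eq ?_)
  · ring
  · ring

end Pool.Agent.Lib.H59X
end

-- from Lib.H59X.EP2
section

/-!
# Chunk EP2: primes against the Ramanujan model at the values `N + P(n)`
-/

open Finset Polynomial

namespace Pool.Agent.Lib.H59X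

open Pool.Agent.Lib.H68T (lp Lk Reg Good)
open Pool.Agent.Lib.H33B (DE2_mom)

/-- The analogue of `H33B.dec` for the values `N + P(n)`. -/
theorem dec (G : ℤ[X]) (hk : 1 ≤ G.natDegree) (hl : 0 < G.leadingCoeff) (c : ℝ) (hc : 0 < c)
    (B δ c₁ : ℝ) (hδ : 0 < δ) (hc₁ : 0 < c₁) : ∃ K : ℝ, ∀ Y Q X₀ X : ℕ, Reg K Q X₀ → Good c Q →
    δ * Y ≤ X₀ → (X₀ : ℝ) ≤ 2 * Y → 1 ≤ X → c₁ * Y ≤ (X : ℝ) ^ G.natDegree → (X : ℝ) ≤ 2 * Y →
    ∀ b : ℤ, b ≤ 4 * X₀ → ∀ f : ℕ → ℝ, (∀ n, |f n| ≤ 1) → ∀ A ⊆ Icc 1 X,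
    ∑ N ∈ Icc 1 Y, |∑ n ∈ A.filter (fun n : ℕ => (X₀ : ℤ) ≤ (N : ℤ) + G.eval (n : ℤ) ∧
      (N : ℤ) + G.eval (n : ℤ) < b), f n * (lp ((N : ℤ) + G.eval (n : ℤ)) -
        Pool.Agent.Lib.H68T.G Q ((N : ℤ) + G.eval (n : ℤ)))| ≤
      Y * X / (Real.log Y) ^ B := by
  obtain ⟨K0, hK0'⟩ := dec_u2 G hk hl c hc (B + 1) δ c₁ hδ hc₁
  obtain ⟨K1, hst⟩ := Pool.Agent.Lib.H68T.structured c hc (|B| + 4)
  obtain ⟨K5, hK5, h5⟩ := Pool.Agent.Lib.H68T.reg_pow_le 1 2 1 one_pos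
  refine ⟨|K0| + |K1| + K5 + |Real.log δ| + 100 * 2 ^ |B| + 50,
    fun Y Q X₀ X hR hG hX1 hX2 b1 b2 b3 b hb f hf A hA => ?_⟩
  set K := |K0| + |K1| + K5 + |Real.log δ| + 100 * 2 ^ |B| + 50 with hK
  have a1 := abs_nonneg K1
  have a2 := abs_nonneg K0
  have a3 := abs_nonneg (Real.log δ)
  have a4 : (0 : ℝ) ≤ 100 * 2 ^ |B| := by positivity
  have hK0 : 0 ≤ K := by rw [hK]; linarith
  have hK1' : 1 ≤ K := by rw [hK]; linarith
  have hKpos : 0 < K := by linarith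
  have r0 : Reg K0 Q X₀ := hR.mono hK0 (by rw [hK]; linarith [le_abs_self K0])
  have r1 : Reg K1 Q X₀ := hR.mono hK0 (by rw [hK]; linarith [le_abs_self K1])
  have r5 : Reg K5 Q X₀ := hR.mono hK0 (by rw [hK]; linarith)
  have hQpos : 0 < Q := hR.Q_pos hK1'
  have hX0pos : 0 < X₀ := hR.X_pos hKpos
  have hX0r : (1 : ℝ) ≤ X₀ := by exact_mod_cast hX0pos
  set ℓ := Real.log X₀ with hℓd
  have hℓK : K ≤ ℓ := by
    have := hR.logX_ge hKpos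
    have h' : K + 1 ≤ Real.exp K := Real.add_one_le_exp K
    linarith
  have hℓ1 : 1 ≤ ℓ := by linarith
  have hXK : K ≤ (X₀ : ℝ) := hR.X_ge hKpos
  have hY3 : (25 : ℝ) ≤ Y := by
    have : 50 ≤ K := by rw [hK]; linarith
    linarith
  have hYpos : (0 : ℝ) < Y := by linarith
  set L := Real.log Y with hLd
  have hL2 : 2 ≤ L := by
    rw [hLd, Real.le_log_iff_exp_le hYpos]
    have : Real.exp 2 = Real.exp 1 * Real.exp 1 := by rw [← Real.exp_add]; norm_num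
    rw [this]
    nlinarith [Real.exp_one_lt_d9, Real.exp_pos 1]
  have hLℓ : L ≤ 2 * ℓ := by
    have e1 : Real.log (δ * Y) ≤ ℓ := Real.log_le_log (by positivity) hX1
    rw [Real.log_mul hδ.ne' hYpos.ne'] at e1
    have e2 : |Real.log δ| ≤ K := by rw [hK]; linarith
    have e3 := neg_abs_le (Real.log δ)
    linarith
  have hlogQ : Real.log Q ≤ ℓ := by
    have e1 := hR.logQ_le hK1'
    have e2 : 0 ≤ Real.log Q := Real.log_nonneg (by exact_mod_cast hQpos)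
    have e3 : 1 * Real.log Q ≤ K * Real.log Q := mul_le_mul_of_nonneg_right hK1' e2
    linarith
  have hQ2X : (Q : ℝ) ^ 2 ≤ X₀ := by
    have e1 := h5 Q X₀ r5
    rw [one_mul, Real.rpow_one] at e1
    exact_mod_cast e1
  have hmom := DE2_mom hX0pos hQpos hℓ1 hQ2X hlogQ
  have hfirst := hK0' Y Q X₀ X r0 hG hX1 hX2 b1 b2 b3 b hb f hf A hA
  -- the second part
  have hdQ0 : ∀ m, 0 ≤ Pool.Agent.Lib.H68T.dQ Q m := fun m => by
    unfold Pool.Agent.Lib.H68T.dQ; positivity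
  have hdQ1 : ∀ m, Pool.Agent.Lib.H68T.dQ Q m ≤ Pool.Agent.Lib.H68T.dQ Q m ^ 2 := fun m => by
    have := Pool.Agent.Lib.H68T.one_le_dQ Q hQpos m
    nlinarith
  have hℓA : 0 ≤ ℓ ^ (-(|B| + 4)) := Real.rpow_nonneg (by linarith) _
  have hsecond : ∑ N ∈ Icc 1 Y, |∑ n ∈ A.filter (fun n : ℕ =>
      (X₀ : ℤ) ≤ (N : ℤ) + G.eval (n : ℤ) ∧ (N : ℤ) + G.eval (n : ℤ) < b), f n *
        (Lk Q (X₀ / Q ^ 2) ((N : ℤ) + G.eval (n : ℤ)) -
        Pool.Agent.Lib.H68T.G Q ((N : ℤ) + G.eval (n : ℤ)))| ≤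
      X * (ℓ ^ (-(|B| + 4)) * (25 * X₀ * ℓ ^ 3)) := by
    have h1 : ∀ N ∈ Icc 1 Y, |∑ n ∈ A.filter (fun n : ℕ =>
        (X₀ : ℤ) ≤ (N : ℤ) + G.eval (n : ℤ) ∧ (N : ℤ) + G.eval (n : ℤ) < b), f n *
          (Lk Q (X₀ / Q ^ 2) ((N : ℤ) + G.eval (n : ℤ)) -
          Pool.Agent.Lib.H68T.G Q ((N : ℤ) + G.eval (n : ℤ)))| ≤
        ∑ n ∈ Icc 1 X, (if (X₀ : ℤ) ≤ (N : ℤ) + G.eval (n : ℤ) ∧
          (N : ℤ) + G.eval (n : ℤ) < 4 * X₀ then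
          ℓ ^ (-(|B| + 4)) * Pool.Agent.Lib.H68T.dQ Q ((N : ℤ) + G.eval (n : ℤ)) else 0) := by
      intro N _
      refine (abs_sum_le_sum_abs _ _).trans ?_
      rw [sum_filter]
      refine (sum_le_sum_of_subset_of_nonneg hA ?_).trans (sum_le_sum ?_)
      · intro n _ _
        split_ifs
        · exact abs_nonneg _
        · exact le_rfl
      · intro n _
        by_cases h : (X₀ : ℤ) ≤ (N : ℤ) + G.eval (n : ℤ) ∧ (N : ℤ) + G.eval (n : ℤ) < b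
        · rw [if_pos h, if_pos ⟨h.1, by omega⟩, abs_mul]
          have e1 := hst Q X₀ r1 hG _ h.1 (by omega)
          have e2 := hf n
          calc |f n| * _ ≤ 1 * _ := mul_le_mul e2 e1 (abs_nonneg _) zero_le_one
            _ = _ := one_mul _
        · rw [if_neg h]
          split_ifs
          · exact mul_nonneg hℓA (hdQ0 _)
          · exact le_rfl
    refine (sum_le_sum h1).trans ?_
    rw [sum_comm]
    have h2 : ∀ n ∈ Icc 1 X, ∑ N ∈ Icc 1 Y, (if (X₀ : ℤ) ≤ (N : ℤ) + G.eval (n : ℤ) ∧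
          (N : ℤ) + G.eval (n : ℤ) < 4 * X₀ then
          ℓ ^ (-(|B| + 4)) * Pool.Agent.Lib.H68T.dQ Q ((N : ℤ) + G.eval (n : ℤ)) else 0) ≤
        ℓ ^ (-(|B| + 4)) * (25 * X₀ * ℓ ^ 3) := by
      intro n _
      rw [← sum_filter]
      have e1 : ∑ N ∈ (Icc 1 Y).filter (fun N : ℕ => (X₀ : ℤ) ≤ (N : ℤ) + G.eval (n : ℤ) ∧
          (N : ℤ) + G.eval (n : ℤ) < 4 * X₀), ℓ ^ (-(|B| + 4)) *
            Pool.Agent.Lib.H68T.dQ Q ((N : ℤ) + G.eval (n : ℤ)) =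
          ∑ m ∈ ((Icc 1 Y).filter (fun N : ℕ => (X₀ : ℤ) ≤ (N : ℤ) + G.eval (n : ℤ) ∧
          (N : ℤ) + G.eval (n : ℤ) < 4 * X₀)).image (fun N : ℕ => (N : ℤ) + G.eval (n : ℤ)),
            ℓ ^ (-(|B| + 4)) * Pool.Agent.Lib.H68T.dQ Q m := by
        rw [sum_image]
        intro a _ b _ h
        have h' : (a : ℤ) + G.eval (n : ℤ) = (b : ℤ) + G.eval (n : ℤ) := h
        have : (a : ℤ) = b := by linarith
        exact_mod_cast this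
      rw [e1]
      calc _ ≤ ∑ m ∈ Ico (X₀ : ℤ) (4 * X₀), ℓ ^ (-(|B| + 4)) *
            Pool.Agent.Lib.H68T.dQ Q m := by
            refine sum_le_sum_of_subset_of_nonneg ?_ (fun m _ _ => mul_nonneg hℓA (hdQ0 m))
            intro m hm
            rw [mem_image] at hm
            obtain ⟨N, hN, rfl⟩ := hm
            rw [mem_filter] at hN
            rw [mem_Ico]
            exact hN.2
        _ ≤ ∑ m ∈ Ico (X₀ : ℤ) (4 * X₀), ℓ ^ (-(|B| + 4)) *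
            Pool.Agent.Lib.H68T.dQ Q m ^ 2 :=
            sum_le_sum fun m _ => mul_le_mul_of_nonneg_left (hdQ1 m) hℓA
        _ = ℓ ^ (-(|B| + 4)) * ∑ m ∈ Ico (X₀ : ℤ) (4 * X₀),
            Pool.Agent.Lib.H68T.dQ Q m ^ 2 := by rw [mul_sum]
        _ ≤ _ := mul_le_mul_of_nonneg_left hmom hℓA
    refine (sum_le_sum h2).trans ?_
    rw [sum_const, Nat.card_Icc, nsmul_eq_mul, Nat.add_sub_cancel]
  -- combination
  have hsplit : ∀ N ∈ Icc 1 Y, |∑ n ∈ A.filter (fun n : ℕ =>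
      (X₀ : ℤ) ≤ (N : ℤ) + G.eval (n : ℤ) ∧ (N : ℤ) + G.eval (n : ℤ) < b), f n *
        (lp ((N : ℤ) + G.eval (n : ℤ)) -
        Pool.Agent.Lib.H68T.G Q ((N : ℤ) + G.eval (n : ℤ)))| ≤
      |∑ n ∈ A.filter (fun n : ℕ =>
      (X₀ : ℤ) ≤ (N : ℤ) + G.eval (n : ℤ) ∧ (N : ℤ) + G.eval (n : ℤ) < b), f n *
        (lp ((N : ℤ) + G.eval (n : ℤ)) - Lk Q (X₀ / Q ^ 2) ((N : ℤ) + G.eval (n : ℤ)))| +
      |∑ n ∈ A.filter (fun n : ℕ =>
      (X₀ : ℤ) ≤ (N : ℤ) + G.eval (n : ℤ) ∧ (N : ℤ) + G.eval (n : ℤ) < b), f n *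
        (Lk Q (X₀ / Q ^ 2) ((N : ℤ) + G.eval (n : ℤ)) -
        Pool.Agent.Lib.H68T.G Q ((N : ℤ) + G.eval (n : ℤ)))| := by
    intro N _
    refine le_trans (le_of_eq ?_) (abs_add_le _ _)
    congr 1
    rw [← sum_add_distrib]
    refine sum_congr rfl fun n _ => ?_
    ring
  refine (sum_le_sum hsplit).trans ?_
  rw [sum_add_distrib]
  refine (add_le_add hfirst hsecond).trans ?_
  have hLB : 0 < L ^ B := Real.rpow_pos_of_pos (by linarith) _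
  have p1 : (Y : ℝ) * X / L ^ (B + 1) ≤ (1 / 2) * (Y * X / L ^ B) := by
    rw [Real.rpow_add (by linarith), Real.rpow_one]
    rw [div_le_iff₀ (by positivity)]
    have e1 : 1 / 2 * (Y * X / L ^ B) * (L ^ B * L) = (Y * X) * (L / 2) := by
      field_simp
    rw [e1]
    have : (0 : ℝ) ≤ Y * X := by positivity
    nlinarith
  have p2 : X * (ℓ ^ (-(|B| + 4)) * (25 * X₀ * ℓ ^ 3)) ≤ (1 / 2) * (Y * X / L ^ B) := by
    have hLB2 : L ^ B ≤ 2 ^ |B| * ℓ ^ |B| := by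
      calc L ^ B ≤ L ^ |B| := Real.rpow_le_rpow_of_exponent_le (by linarith) (le_abs_self B)
        _ ≤ (2 * ℓ) ^ |B| := Real.rpow_le_rpow (by linarith) hLℓ (abs_nonneg B)
        _ = _ := Real.mul_rpow (by norm_num) (by linarith)
    have e0 : ℓ ^ (-(|B| + 4)) * ℓ ^ 3 * ℓ ^ |B| = ℓ⁻¹ := by
      rw [← Real.rpow_natCast ℓ 3, ← Real.rpow_add (by linarith), ← Real.rpow_add (by linarith),
        ← Real.rpow_neg_one]
      congr 1
      push_cast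
      ring
    rw [← mul_div_assoc, le_div_iff₀ hLB]
    calc X * (ℓ ^ (-(|B| + 4)) * (25 * X₀ * ℓ ^ 3)) * L ^ B
        ≤ X * (ℓ ^ (-(|B| + 4)) * (25 * X₀ * ℓ ^ 3)) * (2 ^ |B| * ℓ ^ |B|) :=
          mul_le_mul_of_nonneg_left hLB2 (by positivity)
      _ = X * (25 * X₀ * 2 ^ |B|) * (ℓ ^ (-(|B| + 4)) * ℓ ^ 3 * ℓ ^ |B|) := by ring
      _ = X * X₀ * ((25 * 2 ^ |B|) * ℓ⁻¹) := by rw [e0]; ring
      _ ≤ X * (2 * Y) * (1 / 4) := by
          apply mul_le_mul _ _ (by positivity) (by positivity)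
          · exact mul_le_mul_of_nonneg_left hX2 (by positivity)
          · rw [← div_eq_mul_inv, div_le_iff₀ (by linarith)]
            have : 100 * 2 ^ |B| ≤ ℓ := by
              have : 100 * 2 ^ |B| ≤ K := by rw [hK]; linarith
              linarith
            linarith
      _ = 1 / 2 * (Y * X) := by ring
  linarith

end Pool.Agent.Lib.H59X
end

-- from Lib.H33B.ENG
section

/-!
# Chunk ENG: the engine
-/

open Finset Polynomial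

namespace Pool.Agent.Lib.H33B

open Pool.Agent.Lib.H59 (argCount)
open Pool.Agent.Lib.H68T (lp Reg Good)

open Filter in
theorem ENG_ev (K₀ K δ : ℝ) (hδ : 0 < δ) : ∃ Y₀ : ℝ, 3 ≤ Y₀ ∧ ∀ y : ℝ, Y₀ ≤ y →
    2 ≤ Real.log y ∧ 1 ≤ Real.log (δ * y) ∧ K ≤ Real.log (Real.log (δ * y)) ∧
      0 ≤ Real.log (Real.log y) ∧
      K₀ * (Real.sqrt (Real.log y) * (2 * Real.log (Real.log y))) ≤ Real.log (δ * y) := by
  have hlog : Tendsto Real.log atTop atTop := Real.tendsto_log_atTop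
  have hδy : Tendsto (fun y : ℝ => δ * y) atTop atTop := tendsto_id.const_mul_atTop hδ
  have h1 : ∀ᶠ y : ℝ in atTop, 2 ≤ Real.log y := hlog.eventually_ge_atTop 2
  have h2 : ∀ᶠ y : ℝ in atTop, 1 ≤ Real.log (δ * y) := (hlog.comp hδy).eventually_ge_atTop 1
  have h3 : ∀ᶠ y : ℝ in atTop, K ≤ Real.log (Real.log (δ * y)) :=
    (hlog.comp (hlog.comp hδy)).eventually_ge_atTop K
  have h4 : ∀ᶠ y : ℝ in atTop, 0 ≤ Real.log (Real.log y) :=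
    (hlog.comp hlog).eventually_ge_atTop 0
  have h5 : ∀ᶠ L : ℝ in atTop, ‖Real.log L‖ ≤ (1 / (4 * (|K₀| + 1))) * ‖L ^ ((1:ℝ) / 2)‖ :=
    (isLittleO_log_rpow_atTop (by norm_num : (0:ℝ) < 1 / 2)).bound (by positivity)
  have h6 : ∀ᶠ y : ℝ in atTop, ‖Real.log (Real.log y)‖ ≤
      (1 / (4 * (|K₀| + 1))) * ‖(Real.log y) ^ ((1:ℝ) / 2)‖ := hlog.eventually h5
  have h7 : ∀ᶠ y : ℝ in atTop, 2 * |Real.log δ| ≤ Real.log y := hlog.eventually_ge_atTop _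
  obtain ⟨Y₀, hY₀⟩ := eventually_atTop.1 (h1.and (h2.and (h3.and (h4.and (h6.and
    (h7.and (eventually_gt_atTop 0)))))))
  refine ⟨max Y₀ 3, le_max_right _ _, fun y hy => ?_⟩
  obtain ⟨a1, a2, a3, a4, a6, a7, a8⟩ := hY₀ y ((le_max_left _ _).trans hy)
  refine ⟨a1, a2, a3, a4, ?_⟩
  set L := Real.log y with hL
  have hL0 : 0 ≤ L := by linarith
  rw [Real.norm_of_nonneg a4, Real.norm_of_nonneg (Real.rpow_nonneg hL0 _),
    ← Real.sqrt_eq_rpow] at a6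
  have hs : 0 ≤ Real.sqrt L := Real.sqrt_nonneg _
  have hss : Real.sqrt L * Real.sqrt L = L := Real.mul_self_sqrt hL0
  have e1 : Real.log (δ * y) = Real.log δ + L := by
    rw [Real.log_mul hδ.ne' a8.ne']
  have e2 : K₀ * (Real.sqrt L * (2 * Real.log L)) ≤
      (|K₀| + 1) * (Real.sqrt L * (2 * Real.log L)) := by
    apply mul_le_mul_of_nonneg_right _ (by positivity)
    linarith [le_abs_self K₀]
  have e3 : (|K₀| + 1) * (Real.sqrt L * (2 * Real.log L)) ≤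
      (|K₀| + 1) * (Real.sqrt L * (2 * ((1 / (4 * (|K₀| + 1))) * Real.sqrt L))) := by
    gcongr
  have e4 : (|K₀| + 1) * (Real.sqrt L * (2 * ((1 / (4 * (|K₀| + 1))) * Real.sqrt L))) = L / 2 := by
    have h0 : (|K₀| + 1) ≠ 0 := by positivity
    calc _ = (Real.sqrt L * Real.sqrt L) / 2 := by field_simp; ring
      _ = L / 2 := by rw [hss]
  have e5 : -|Real.log δ| ≤ Real.log δ := neg_abs_le _
  rw [e1]
  linarith

theorem ENG_reg (K δ : ℝ) (hδ : 0 < δ) : ∃ K₁ : ℝ, 0 ≤ K₁ ∧ ∃ Y₀ : ℕ, ∀ Y Q X₀ : ℕ, Y₀ ≤ Y →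
    (Real.log Y) ^ K₁ ≤ Q → (Q : ℝ) ≤ Real.exp (Real.sqrt (Real.log Y)) → δ * Y ≤ X₀ →
    (X₀ : ℝ) ≤ 2 * Y → Reg K Q X₀ := by
  obtain ⟨y₀, hy3, hy⟩ := ENG_ev (|K|) (max K 0) δ hδ
  refine ⟨2 * |K|, by positivity, ⌈y₀⌉₊, fun Y Q X₀ hY hQ1 hQ2 hX1 hX2 => ?_⟩
  have hYr : y₀ ≤ (Y : ℝ) := (Nat.le_ceil _).trans (by exact_mod_cast hY)
  obtain ⟨a1, a2, a3, a4, a5⟩ := hy Y hYr
  have hY0 : (0:ℝ) < Y := by linarith
  have hL0 : 0 < Real.log Y := by linarith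
  have hδY : 0 < δ * Y := by positivity
  have hX0 : (0:ℝ) < X₀ := hδY.trans_le hX1
  have b1 : Real.log (δ * Y) ≤ Real.log X₀ := Real.log_le_log hδY hX1
  have b2 : 0 < Real.log X₀ := by linarith
  have b3 : Real.log (Real.log (δ * Y)) ≤ Real.log (Real.log X₀) :=
    Real.log_le_log (by linarith) b1
  have b4 : 0 ≤ Real.log (Real.log X₀) := (le_max_right K 0).trans (a3.trans b3)
  have b5 : Real.log (Real.log X₀) ≤ 2 * Real.log (Real.log Y) := by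
    have c1 : Real.log X₀ ≤ Real.log 2 + Real.log Y := by
      rw [← Real.log_mul (by norm_num) hY0.ne']
      exact Real.log_le_log hX0 hX2
    have c2 : Real.log 2 ≤ 1 := by linarith [Real.log_two_lt_d9]
    have c3 : Real.log X₀ ≤ (Real.log Y) ^ 2 := by nlinarith
    calc Real.log (Real.log X₀) ≤ Real.log ((Real.log Y) ^ 2) := Real.log_le_log b2 c3
      _ = 2 * Real.log (Real.log Y) := by rw [Real.log_pow]; norm_num
  have hQ0 : (0:ℝ) < Q := (Real.rpow_pos_of_pos hL0 _).trans_le hQ1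
  have d1 : 2 * |K| * Real.log (Real.log Y) ≤ Real.log Q := by
    rw [← Real.log_rpow hL0]
    exact Real.log_le_log (Real.rpow_pos_of_pos hL0 _) hQ1
  have d2 : Real.log Q ≤ Real.sqrt (Real.log Y) := by
    rw [Real.log_le_iff_le_exp hQ0]; exact hQ2
  have hKa : K ≤ |K| := le_abs_self K
  have hK0 : 0 ≤ |K| := abs_nonneg K
  refine ⟨(le_max_left K 0).trans (a3.trans b3), ?_, ?_⟩
  · calc K * Real.log (Real.log X₀) ≤ |K| * Real.log (Real.log X₀) :=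
          mul_le_mul_of_nonneg_right hKa b4
      _ ≤ |K| * (2 * Real.log (Real.log Y)) := mul_le_mul_of_nonneg_left b5 hK0
      _ = 2 * |K| * Real.log (Real.log Y) := by ring
      _ ≤ _ := d1
  · have hlQ : 0 ≤ Real.log Q := (by positivity : (0:ℝ) ≤ 2 * |K| * Real.log (Real.log Y)).trans d1
    calc K * (Real.log Q * Real.log (Real.log X₀)) ≤ |K| * (Real.log Q * Real.log (Real.log X₀)) :=
          mul_le_mul_of_nonneg_right hKa (by positivity)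
      _ ≤ |K| * (Real.sqrt (Real.log Y) * (2 * Real.log (Real.log Y))) := by gcongr
      _ ≤ Real.log (δ * Y) := a5
      _ ≤ _ := b1

theorem ENG_low (G : ℤ[X]) (hk : 1 ≤ G.natDegree) (hl : 0 < G.leadingCoeff) :
    ∃ c : ℕ, ∀ n : ℕ, -(c : ℤ) ≤ G.eval (n : ℤ) := by
  obtain ⟨n₁, hn₁⟩ := Pool.Agent.Lib.H59.exists_strictMono hk hl
  refine ⟨(Finset.range (n₁ + 1)).sup (fun a => (G.eval (a : ℤ)).natAbs), fun n => ?_⟩
  have hle : ∀ a ≤ n₁, -(((Finset.range (n₁ + 1)).sup (fun a => (G.eval (a : ℤ)).natAbs) : ℕ) : ℤ) ≤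
      G.eval (a : ℤ) := by
    intro a ha
    have h1 : (G.eval (a : ℤ)).natAbs ≤
        (Finset.range (n₁ + 1)).sup (fun a => (G.eval (a : ℤ)).natAbs) :=
      Finset.le_sup (f := fun a : ℕ => (G.eval (a : ℤ)).natAbs) (Finset.mem_range.mpr (by omega))
    omega
  rcases Nat.lt_or_ge n₁ n with h | h
  · have := hn₁ n₁ n le_rfl h
    have := hle n₁ le_rfl
    omega
  · exact hle n h


theorem ENG_pieces (H : ℕ) (m : ℤ) (c : ℝ) : ∀ J : ℕ,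
    ∑ j ∈ range J, (if ((4 ^ j * H : ℕ) : ℤ) ≤ m ∧ m < ((4 ^ (j + 1) * H : ℕ) : ℤ) then c else 0) =
      if (H : ℤ) ≤ m ∧ m < ((4 ^ J * H : ℕ) : ℤ) then c else 0 := by
  intro J
  induction J with
  | zero =>
    rw [range_zero, sum_empty]
    have : ¬ ((H : ℤ) ≤ m ∧ m < ((4 ^ 0 * H : ℕ) : ℤ)) := by
      rw [pow_zero, one_mul]; omega
    rw [if_neg this]
  | succ J ih =>
    rw [sum_range_succ, ih]
    have h1 : (H : ℤ) ≤ ((4 ^ J * H : ℕ) : ℤ) := by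
      exact_mod_cast Nat.le_mul_of_pos_left H (by positivity)
    have h2 : ((4 ^ J * H : ℕ) : ℤ) ≤ ((4 ^ (J + 1) * H : ℕ) : ℤ) := by
      have : 4 ^ J * H ≤ 4 ^ (J + 1) * H :=
        Nat.mul_le_mul_right H (Nat.pow_le_pow_right (by norm_num) (by omega))
      exact_mod_cast this
    by_cases ha : (H : ℤ) ≤ m ∧ m < ((4 ^ J * H : ℕ) : ℤ)
    · rw [if_pos ha, if_neg (by omega), if_pos (by omega), add_zero]
    · rw [if_neg ha, zero_add]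
      by_cases hb : ((4 ^ J * H : ℕ) : ℤ) ≤ m ∧ m < ((4 ^ (J + 1) * H : ℕ) : ℤ)
      · rw [if_pos hb, if_pos (by omega)]
      · rw [if_neg hb, if_neg (by omega)]

theorem ENG_lp_nonneg (m : ℤ) : 0 ≤ lp m := by
  unfold Pool.Agent.Lib.H68T.lp
  split_ifs with h
  · have h1 : 0 < m.toNat := h.pos
    have h2 : (1 : ℝ) ≤ (m : ℝ) := by
      have : (1 : ℤ) ≤ m := by omega
      exact_mod_cast this
    exact Real.log_nonneg h2
  · exact le_rfl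

theorem ENG_Lw_nonneg (w : ℕ) (m : ℤ) : 0 ≤ Lw w m := by
  unfold Lw Lq
  split_ifs
  · positivity
  · exact le_rfl

/-- the part with small `N - G(n)` -/
theorem ENG_rest (G : ℤ[X]) (X Y H : ℕ) (f : ℕ → ℝ) (hf : ∀ n ∈ Icc 1 X, 0 ≤ f n) (S T : ℝ)
    (hS : ∑ n ∈ Icc 1 X, f n ≤ S) (hT0 : 0 ≤ T) (ψ : ℤ → ℝ) (hψ : ∀ m, 0 ≤ ψ m)
    (hT : ∑ m ∈ Icc (1 : ℤ) (2 * H : ℕ), ψ m ≤ T) :
    ∑ N ∈ Icc 1 Y, ∑ n ∈ (Icc 1 X).filter (fun n : ℕ => 1 ≤ (N : ℤ) - G.eval (n : ℤ) ∧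
      (N : ℤ) - G.eval (n : ℤ) ≤ (2 * H : ℕ)), f n * ψ ((N : ℤ) - G.eval (n : ℤ)) ≤ S * T := by
  have h1 : ∀ N ∈ Icc 1 Y, ∑ n ∈ (Icc 1 X).filter (fun n : ℕ => 1 ≤ (N : ℤ) - G.eval (n : ℤ) ∧
      (N : ℤ) - G.eval (n : ℤ) ≤ (2 * H : ℕ)), f n * ψ ((N : ℤ) - G.eval (n : ℤ)) =
      ∑ n ∈ Icc 1 X, if 1 ≤ (N : ℤ) - G.eval (n : ℤ) ∧
      (N : ℤ) - G.eval (n : ℤ) ≤ (2 * H : ℕ) then f n * ψ ((N : ℤ) - G.eval (n : ℤ)) else 0 :=
    fun N _ => sum_filter _ _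
  rw [sum_congr rfl h1, sum_comm]
  have h2 : ∀ n ∈ Icc 1 X, (∑ N ∈ Icc 1 Y, if 1 ≤ (N : ℤ) - G.eval (n : ℤ) ∧
      (N : ℤ) - G.eval (n : ℤ) ≤ (2 * H : ℕ) then f n * ψ ((N : ℤ) - G.eval (n : ℤ)) else 0) ≤
      f n * T := by
    intro n hn
    rw [← sum_filter, ← mul_sum]
    refine mul_le_mul_of_nonneg_left (le_trans ?_ hT) (hf n hn)
    have hinj : Set.InjOn (fun N : ℕ => (N : ℤ) - G.eval (n : ℤ)) (((Icc 1 Y).filter
        (fun N : ℕ => 1 ≤ (N : ℤ) - G.eval (n : ℤ) ∧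
          (N : ℤ) - G.eval (n : ℤ) ≤ (2 * H : ℕ)) : Finset ℕ) : Set ℕ) := by
      intro a _ b _ hab
      simp only at hab
      omega
    have h3 := (sum_image (f := ψ) hinj)
    rw [← h3]
    refine sum_le_sum_of_subset_of_nonneg ?_ (fun m _ _ => hψ m)
    intro m hm
    rw [mem_image] at hm
    obtain ⟨N, hN, rfl⟩ := hm
    rw [mem_filter] at hN
    rw [mem_Icc]
    exact hN.2
  refine (sum_le_sum h2).trans ?_
  rw [← sum_mul]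
  exact mul_le_mul_of_nonneg_right hS hT0

/-- splitting off the part with small `N - G(n)` -/
theorem ENG_split (G : ℤ[X]) (X N H : ℕ) (hN : 1 ≤ N) (hH : 0 < H) (f : ℕ → ℝ)
    (hf : ∀ n ∈ Icc 1 X, 0 ≤ f n) (φ ψ : ℤ → ℝ) (hψ : ∀ m, |φ m| ≤ ψ m) :
    |∑ n ∈ (Icc 1 X).filter (fun n : ℕ => G.eval (n : ℤ) < N), f n * φ ((N : ℤ) - G.eval (n : ℤ))| ≤
      |∑ n ∈ (Icc 1 X).filter (fun n : ℕ => G.eval (n : ℤ) + H ≤ (((N - 1) / H * H : ℕ) : ℤ)),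
        f n * φ ((N : ℤ) - G.eval (n : ℤ))| +
      ∑ n ∈ (Icc 1 X).filter (fun n : ℕ => 1 ≤ (N : ℤ) - G.eval (n : ℤ) ∧
        (N : ℤ) - G.eval (n : ℤ) ≤ (2 * H : ℕ)), f n * ψ ((N : ℤ) - G.eval (n : ℤ)) := by
  have hdiv : (N - 1) / H * H + (N - 1) % H = N - 1 := Nat.div_add_mod' (N - 1) H
  have hmod : (N - 1) % H < H := Nat.mod_lt _ hH
  have h1 : (Icc 1 X).filter (fun n : ℕ => G.eval (n : ℤ) < N) =
      (Icc 1 X).filter (fun n : ℕ => G.eval (n : ℤ) + H ≤ (((N - 1) / H * H : ℕ) : ℤ)) ∪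
      ((Icc 1 X).filter (fun n : ℕ => G.eval (n : ℤ) < N)).filter
        (fun n : ℕ => ¬ (G.eval (n : ℤ) + H ≤ (((N - 1) / H * H : ℕ) : ℤ))) := by
    ext n
    simp only [mem_union, mem_filter]
    constructor
    · rintro ⟨a, b⟩
      by_cases h : G.eval (n : ℤ) + H ≤ (((N - 1) / H * H : ℕ) : ℤ)
      · exact Or.inl ⟨a, h⟩
      · exact Or.inr ⟨⟨a, b⟩, h⟩
    · rintro (⟨a, b⟩ | ⟨⟨a, b⟩, _⟩)
      · refine ⟨a, ?_⟩
        omega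
      · exact ⟨a, b⟩
  have hdis : Disjoint
      ((Icc 1 X).filter (fun n : ℕ => G.eval (n : ℤ) + H ≤ (((N - 1) / H * H : ℕ) : ℤ)))
      (((Icc 1 X).filter (fun n : ℕ => G.eval (n : ℤ) < N)).filter
        (fun n : ℕ => ¬ (G.eval (n : ℤ) + H ≤ (((N - 1) / H * H : ℕ) : ℤ)))) := by
    rw [disjoint_left]
    intro n hn hn'
    rw [mem_filter] at hn hn'
    exact hn'.2 hn.2
  rw [h1, sum_union hdis]
  refine (abs_add_le _ _).trans (add_le_add le_rfl ?_)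
  refine (abs_sum_le_sum_abs _ _).trans ?_
  have h2 : ∀ n ∈ ((Icc 1 X).filter (fun n : ℕ => G.eval (n : ℤ) < N)).filter
        (fun n : ℕ => ¬ (G.eval (n : ℤ) + H ≤ (((N - 1) / H * H : ℕ) : ℤ))),
      |f n * φ ((N : ℤ) - G.eval (n : ℤ))| ≤ f n * ψ ((N : ℤ) - G.eval (n : ℤ)) := by
    intro n hn
    rw [mem_filter, mem_filter] at hn
    rw [abs_mul, abs_of_nonneg (hf n hn.1.1)]
    exact mul_le_mul_of_nonneg_left (hψ _) (hf n hn.1.1)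
  refine (sum_le_sum h2).trans ?_
  refine sum_le_sum_of_subset_of_nonneg ?_ ?_
  · intro n hn
    rw [mem_filter, mem_filter] at hn
    rw [mem_filter]
    refine ⟨hn.1.1, ?_, ?_⟩
    · have := hn.1.2
      omega
    · have := hn.2
      push Not at this
      have h5 := hn.1.2
      push_cast
      omega
  · intro n hn _
    rw [mem_filter] at hn
    exact mul_nonneg (hf n hn.1) ((abs_nonneg _).trans (hψ _))

/-- the block decomposition -/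
theorem ENG_block (Y H : ℕ) (hH : 0 < H) (h : ℕ → ℕ → ℝ) (B : ℕ → ℝ)
    (hB : ∀ i ∈ range (Y / H + 1),
      ∑ N ∈ (Icc 1 Y).filter (fun N => (N - 1) / H = i), h i N ≤ B i) :
    ∑ N ∈ Icc 1 Y, h ((N - 1) / H) N ≤ ∑ i ∈ range (Y / H + 1), B i := by
  have hmaps : ∀ N ∈ Icc 1 Y, (N - 1) / H ∈ range (Y / H + 1) := by
    intro N hN
    rw [mem_Icc] at hN
    rw [mem_range]
    have : (N - 1) / H ≤ Y / H := Nat.div_le_div_right (by omega)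
    omega
  rw [← sum_fiberwise_of_maps_to hmaps]
  refine sum_le_sum fun i hi => le_trans (le_of_eq ?_) (hB i hi)
  refine sum_congr rfl fun N hN => ?_
  rw [mem_filter] at hN
  rw [hN.2]

/-- the Fourier-uniform part on a block -/
theorem ENG_first (G : ℤ[X]) (cG : ℕ) (hcG : ∀ n : ℕ, -(cG : ℤ) ≤ G.eval (n : ℤ)) (X Y H J i : ℕ)
    (hH : 0 < H) (hJ : Y + cG < 4 ^ J * H) (f : ℕ → ℝ) (φ : ℤ → ℝ) (T : ℝ)
    (hT : ∀ j ∈ range J, ∑ N ∈ Icc 1 Y, |∑ n ∈ ((Icc 1 X).filter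
      (fun n : ℕ => G.eval (n : ℤ) + H ≤ ((i * H : ℕ) : ℤ))).filter
        (fun n : ℕ => ((4 ^ j * H : ℕ) : ℤ) ≤ (N : ℤ) - G.eval (n : ℤ) ∧
          (N : ℤ) - G.eval (n : ℤ) < ((4 ^ (j + 1) * H : ℕ) : ℤ)),
          f n * φ ((N : ℤ) - G.eval (n : ℤ))| ≤ T) :
    ∑ N ∈ (Icc 1 Y).filter (fun N => (N - 1) / H = i),
      |∑ n ∈ (Icc 1 X).filter (fun n : ℕ => G.eval (n : ℤ) + H ≤ ((i * H : ℕ) : ℤ)),
        f n * φ ((N : ℤ) - G.eval (n : ℤ))| ≤ J * T := by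
  have h1 : ∀ N ∈ (Icc 1 Y).filter (fun N => (N - 1) / H = i),
      |∑ n ∈ (Icc 1 X).filter (fun n : ℕ => G.eval (n : ℤ) + H ≤ ((i * H : ℕ) : ℤ)),
        f n * φ ((N : ℤ) - G.eval (n : ℤ))| ≤
      ∑ j ∈ range J, |∑ n ∈ ((Icc 1 X).filter
      (fun n : ℕ => G.eval (n : ℤ) + H ≤ ((i * H : ℕ) : ℤ))).filter
        (fun n : ℕ => ((4 ^ j * H : ℕ) : ℤ) ≤ (N : ℤ) - G.eval (n : ℤ) ∧
          (N : ℤ) - G.eval (n : ℤ) < ((4 ^ (j + 1) * H : ℕ) : ℤ)),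
          f n * φ ((N : ℤ) - G.eval (n : ℤ))| := by
    intro N hN
    rw [mem_filter, mem_Icc] at hN
    obtain ⟨⟨hN1, hNY⟩, hNi⟩ := hN
    have hdiv : (N - 1) / H * H + (N - 1) % H = N - 1 := Nat.div_add_mod' (N - 1) H
    rw [hNi] at hdiv
    refine le_trans (le_of_eq ?_) (abs_sum_le_sum_abs _ _)
    congr 1
    have h2 : ∀ n ∈ (Icc 1 X).filter (fun n : ℕ => G.eval (n : ℤ) + H ≤ ((i * H : ℕ) : ℤ)),
        f n * φ ((N : ℤ) - G.eval (n : ℤ)) = ∑ j ∈ range J,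
          (if ((4 ^ j * H : ℕ) : ℤ) ≤ (N : ℤ) - G.eval (n : ℤ) ∧
          (N : ℤ) - G.eval (n : ℤ) < ((4 ^ (j + 1) * H : ℕ) : ℤ) then
            f n * φ ((N : ℤ) - G.eval (n : ℤ)) else 0) := by
      intro n hn
      rw [mem_filter] at hn
      rw [ENG_pieces, if_pos]
      have h3 := hn.2
      have h4 := hcG n
      have h5 : ((Y + cG : ℕ) : ℤ) < ((4 ^ J * H : ℕ) : ℤ) := by exact_mod_cast hJ
      constructor
      · omega
      · refine lt_of_le_of_lt ?_ h5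
        push_cast
        omega
    rw [sum_congr rfl h2, sum_comm]
    refine sum_congr rfl fun j _ => ?_
    rw [sum_filter (s := (Icc 1 X).filter
      (fun n : ℕ => G.eval (n : ℤ) + H ≤ ((i * H : ℕ) : ℤ)))]
  refine (sum_le_sum h1).trans ?_
  rw [sum_comm]
  have h6 : ∀ j ∈ range J, ∑ N ∈ (Icc 1 Y).filter (fun N => (N - 1) / H = i), |∑ n ∈ ((Icc 1 X).filter
      (fun n : ℕ => G.eval (n : ℤ) + H ≤ ((i * H : ℕ) : ℤ))).filter
        (fun n : ℕ => ((4 ^ j * H : ℕ) : ℤ) ≤ (N : ℤ) - G.eval (n : ℤ) ∧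
          (N : ℤ) - G.eval (n : ℤ) < ((4 ^ (j + 1) * H : ℕ) : ℤ)),
          f n * φ ((N : ℤ) - G.eval (n : ℤ))| ≤ T := fun j hj =>
    (sum_le_sum_of_subset_of_nonneg (filter_subset _ _) (fun _ _ _ => abs_nonneg _)).trans (hT j hj)
  refine (sum_le_sum h6).trans ?_
  rw [sum_const, card_range, nsmul_eq_mul]

/-- from natural numbers in a block to an interval of integers -/
theorem ENG_second (Y H i : ℕ) (hH : 0 < H) (h : ℤ → ℝ) (hh : ∀ N, 0 ≤ h N) :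
    ∑ N ∈ (Icc 1 Y).filter (fun N => (N - 1) / H = i), h (N : ℤ) ≤
      ∑ N ∈ Ico (((i * H + 1 : ℕ) : ℤ)) (((i * H + 1 : ℕ) : ℤ) + H), h N := by
  have hinj : Set.InjOn (fun N : ℕ => (N : ℤ)) (((Icc 1 Y).filter
      (fun N => (N - 1) / H = i) : Finset ℕ) : Set ℕ) := fun a _ b _ hab => by simpa using hab
  rw [← sum_image (f := h) hinj]
  refine sum_le_sum_of_subset_of_nonneg ?_ (fun N _ _ => hh N)
  intro m hm
  rw [mem_image] at hm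
  obtain ⟨N, hN, rfl⟩ := hm
  rw [mem_filter, mem_Icc] at hN
  obtain ⟨⟨hN1, hNY⟩, hNi⟩ := hN
  have hdiv : (N - 1) / H * H + (N - 1) % H = N - 1 := Nat.div_add_mod' (N - 1) H
  rw [hNi] at hdiv
  have hmod : (N - 1) % H < H := Nat.mod_lt _ hH
  rw [mem_Ico]
  push_cast
  constructor <;> omega

open Filter in
theorem ENG_ev2 (δ a b κ : ℝ) (hδ : 0 < δ) (hκ : 0 < κ) : ∃ Y₀ : ℝ, 3 ≤ Y₀ ∧ ∀ y : ℝ, Y₀ ≤ y →
    1 ≤ Real.log y ∧ a ≤ Real.log y ∧ a ≤ δ * y ∧ 1 ≤ δ * y ∧ a ≤ y ∧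
      Real.exp (4 * Real.sqrt (Real.log y)) ≤ δ * y ∧ b / Real.log y ≤ κ := by
  have hlog : Tendsto Real.log atTop atTop := Real.tendsto_log_atTop
  have hδy : Tendsto (fun y : ℝ => δ * y) atTop atTop := tendsto_id.const_mul_atTop hδ
  have h1 := hlog.eventually_ge_atTop (max (max 1 a) (max (b / κ) (64 + 2 * |Real.log δ|)))
  have h2 := hδy.eventually_ge_atTop (max 1 a)
  have h3 := eventually_ge_atTop (max a 3)
  obtain ⟨Y₀, hY₀⟩ := eventually_atTop.1 (h1.and (h2.and h3))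
  refine ⟨max Y₀ 3, le_max_right _ _, fun y hy => ?_⟩
  obtain ⟨b1, b2, b3⟩ := hY₀ y ((le_max_left _ _).trans hy)
  have c1 : 1 ≤ Real.log y := ((le_max_left 1 a).trans (le_max_left _ _)).trans b1
  have c2 : a ≤ Real.log y := ((le_max_right 1 a).trans (le_max_left _ _)).trans b1
  have c3 : b / κ ≤ Real.log y := ((le_max_left _ _).trans (le_max_right _ _)).trans b1
  have c4 : 64 + 2 * |Real.log δ| ≤ Real.log y := ((le_max_right _ _).trans (le_max_right _ _)).trans b1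
  have hy0 : 0 < y := by
    have := (le_max_right a 3).trans b3
    linarith
  refine ⟨c1, c2, (le_max_right _ _).trans b2, (le_max_left _ _).trans b2,
    (le_max_left _ _).trans b3, ?_, ?_⟩
  · rw [← Real.le_log_iff_exp_le (by positivity), Real.log_mul hδ.ne' hy0.ne']
    set L := Real.log y with hL
    have hL0 : 0 ≤ L := by linarith
    have hs : 8 ≤ Real.sqrt L := by
      have : Real.sqrt 64 ≤ Real.sqrt L := Real.sqrt_le_sqrt (by linarith [abs_nonneg (Real.log δ)])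
      rwa [show (64:ℝ) = 8 ^ 2 by norm_num, Real.sqrt_sq (by norm_num)] at this
    have hss : Real.sqrt L * Real.sqrt L = L := Real.mul_self_sqrt hL0
    have e5 : -|Real.log δ| ≤ Real.log δ := neg_abs_le _
    nlinarith
  · rw [div_le_iff₀ (by linarith)]
    rw [div_le_iff₀ hκ] at c3
    linarith

/-- **The engine.** `K` is the constant of `ls_main`. Let `X = argCount G Y`, `δ > 0` small (in terms of
`ε`), `H = ⌈δ Y⌉`. Choose a good level `Q` (`H57S.good_level`), `(log Y)^K₁ ≤ Q ≤ exp(√ log Y)`, `K₁` large;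
then `Reg K' Q X₀` for all `δ Y ≤ X₀ ≤ 2Y` (`K' log Q log log X₀ ≤ √(log Y) K' log log (2Y) ≤ log(δ Y)`),
`PW w ≤ Q`, `Q⁴ ≤ H`. Split `[1,Y]` into the blocks `B_i = (iH, (i+1)H]`, `0 ≤ i ≤ 1/δ`, and for
`N ∈ B_i` split the `n ≤ X`, `G(n) < N`, into `A_i = {n : G(n) ≤ (i-1)H}` and the rest.
* Rest: `(i-1)H < G(n) < N ≤ (i+1)H`. Each `n` belongs to at most `3` values of `i`, and
  `∑_{N ∈ B_i, N > G(n)} (lp + Lw)(N - G(n)) ≤ ∑_{1 ≤ m ≤ 2H} (lp + Lw)(m) ≤ C₁ H` (chunk CH). Total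
  `≤ 3 C₁ H ∑ f ≤ C₂ δ Y S` (`∑ f ≤ S`, the modulus `1`).
* `n ∈ A_i`, `N ∈ B_i`: `m = N - G(n) ≥ H` and `m ≤ Y + c_G ≤ 2Y` (`c_G = max(-G(n))`). Split
  `lp - Lw = (lp - G_Q) + (G_Q - Lw)`. The first: pieces `4^j H ≤ m < 4^(j+1) H`, `j ≤ J`, `J` maximal
  with `4^J H ≤ 2Y`, and `dec` with `X₀ = 4^j H`, `B = 2C + 2`, the weights `f/(log Y)^C ≤ 1` and the set
  `A_i`: total `≤ (1/δ+1)(J+1) (log Y)^C Y X/(log Y)^(2C+2) ≤ C(δ) Y S/(log Y)`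
  (`X ≤ S (log Y)^C`). The second: `ls_main` on the block: total `≤ (1/δ + 1) ε' H S`, with
  `ε'` small in terms of `ε` only (`(1/δ + 1) H ≤ 3 Y`).
(The condition `G(n) < N` is automatic for `n ∈ A_i`, `N ∈ B_i`.) -/
theorem engine (G : ℤ[X]) (hk : 1 ≤ G.natDegree) (hl : 0 < G.leadingCoeff) (D : ℕ) (C : ℝ) :
    ∃ K : ℝ, 0 ≤ K ∧ ∀ ε : ℝ, 0 < ε → ∃ w₀ : ℕ, ∀ w : ℕ, w₀ ≤ w → ∃ Y₀ : ℕ, ∀ Y : ℕ, Y₀ ≤ Y →
    ∀ (f : ℕ → ℝ) (S : ℝ), SieveWt D C K Y (argCount G Y) S f →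
    ∑ N ∈ Icc 1 Y, |∑ n ∈ (Icc 1 (argCount G Y)).filter (fun n : ℕ => G.eval (n : ℤ) < N),
      f n * (lp ((N : ℤ) - G.eval (n : ℤ)) - Lw w ((N : ℤ) - G.eval (n : ℤ)))| ≤ ε * Y * S := by
  obtain ⟨c, hc, hgood⟩ := Pool.Agent.Lib.H57S.good_level
  obtain ⟨K, hK0, hls⟩ := ls_main G hk hl D C
  refine ⟨K, hK0, fun ε hε => ?_⟩
  obtain ⟨Cl, hCl, hlp⟩ := sum_lp_le
  set δ : ℝ := min 1 (ε / (16 * (Cl + 2))) with hδdef
  have hδ : 0 < δ := lt_min one_pos (by positivity)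
  have hδ1 : δ ≤ 1 := min_le_left _ _
  have hδ2 : δ ≤ ε / (16 * (Cl + 2)) := min_le_right _ _
  obtain ⟨w₀, hw₀⟩ := hls (ε / 16) (by positivity)
  refine ⟨w₀, fun w hw => ?_⟩
  obtain ⟨Y₁, hY₁⟩ := hw₀ w hw
  obtain ⟨Kd, hdec⟩ := dec G hk hl c hc (2 * C + 1) δ hδ
  obtain ⟨K₁, hK₁, Y₂, hreg⟩ := ENG_reg Kd δ hδ
  obtain ⟨Y₃, hgl⟩ := hgood (K₁ + 1)
  obtain ⟨cG, hcG⟩ := ENG_low G hk hl
  obtain ⟨J, hJ⟩ : ∃ J : ℕ, 2 / δ < (4 : ℝ) ^ J := pow_unbounded_of_one_lt _ (by norm_num)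
  obtain ⟨y₀, hy3, hev⟩ := ENG_ev2 δ ((PW w : ℝ) + cG) ((1 / δ + 1) * J) (ε / 4) hδ (by positivity)
  refine ⟨max (max Y₁ Y₂) (max ⌈Y₃⌉₊ ⌈y₀⌉₊), fun Y hY f S hf => ?_⟩
  have hYY1 : Y₁ ≤ Y := ((le_max_left _ _).trans (le_max_left _ _)).trans hY
  have hYY2 : Y₂ ≤ Y := ((le_max_right _ _).trans (le_max_left _ _)).trans hY
  have hYY3 : Y₃ ≤ (Y : ℝ) := (Nat.le_ceil _).trans
    (by exact_mod_cast ((le_max_left _ _).trans (le_max_right _ _)).trans hY)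
  have hYY4 : y₀ ≤ (Y : ℝ) := (Nat.le_ceil _).trans
    (by exact_mod_cast ((le_max_right _ _).trans (le_max_right _ _)).trans hY)
  obtain ⟨v1, v2, v3, v4, v5, v6, v7⟩ := hev Y hYY4
  have hY3 : (3 : ℝ) ≤ Y := hy3.trans hYY4
  have hYpos : (0 : ℝ) < Y := by linarith
  have hPW0 : (0 : ℝ) ≤ PW w := Nat.cast_nonneg _
  have hcG0 : (0 : ℝ) ≤ cG := Nat.cast_nonneg _
  obtain ⟨Q, hQ1, hQ2, hQg⟩ := hgl Y hYY3
  set X := argCount G Y with hX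
  set L := Real.log (Y : ℝ) with hL
  have hL0 : 0 < L := by linarith
  -- the total mass
  have hmass : ∑ n ∈ Icc 1 X, f n ≤ S := by
    have h := hf.cls 1 0 squarefree_one (by rw [Nat.cast_one]; exact Real.one_le_rpow v1 hK0)
    rw [filter_true_of_mem (fun n _ => Nat.modEq_one)] at h
    simpa using h
  have hS0 : 0 ≤ S := (sum_nonneg hf.nonneg).trans hmass
  -- the length of the blocks
  set H : ℕ := ⌈δ * Y⌉₊ with hHdef
  have hH1 : δ * Y ≤ H := Nat.le_ceil _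
  have hH2 : (H : ℝ) ≤ 2 * (δ * Y) := by
    have := Nat.ceil_lt_add_one (a := δ * (Y : ℝ)) (by positivity)
    linarith
  have hHpos : 0 < H := by
    have : (0 : ℝ) < H := by linarith
    exact_mod_cast this
  have hHr : (0 : ℝ) < H := by exact_mod_cast hHpos
  -- Q
  have hQK : L ^ K₁ ≤ Q := by
    refine le_trans ?_ hQ1
    exact Real.rpow_le_rpow_of_exponent_le v1 (by linarith)
  have hPQ : PW w ≤ Q := by
    have h1 : (PW w : ℝ) ≤ Q := by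
      have h2 : L ≤ L ^ (K₁ + 1) := by
        calc L = L ^ (1 : ℝ) := (Real.rpow_one L).symm
          _ ≤ _ := Real.rpow_le_rpow_of_exponent_le v1 (by linarith)
      linarith
    exact_mod_cast h1
  have hQH : Q ^ 4 ≤ H := by
    have h1 : ((Q : ℝ)) ^ 4 ≤ H := by
      calc ((Q : ℝ)) ^ 4 ≤ (Real.exp (Real.sqrt L)) ^ 4 :=
            pow_le_pow_left₀ (Nat.cast_nonneg _) hQ2 4
        _ = Real.exp (4 * Real.sqrt L) := by rw [← Real.exp_nat_mul]; norm_num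
        _ ≤ δ * Y := v6
        _ ≤ H := hH1
    exact_mod_cast h1
  have hJH : Y + cG < 4 ^ J * H := by
    have h1 : ((Y + cG : ℕ) : ℝ) < ((4 ^ J * H : ℕ) : ℝ) := by
      push_cast
      have h2 : (cG : ℝ) ≤ Y := by linarith
      have h3 : 2 / δ * (δ * Y) = 2 * Y := by field_simp
      have h4 : 2 / δ * (δ * Y) < 4 ^ J * (δ * Y) := mul_lt_mul_of_pos_right hJ (by positivity)
      have h5 : (4:ℝ) ^ J * (δ * Y) ≤ 4 ^ J * H := mul_le_mul_of_nonneg_left hH1 (by positivity)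
      linarith
    exact_mod_cast h1
  -- number of blocks
  have hblocks : ((Y / H + 1 : ℕ) : ℝ) ≤ 1 / δ + 1 := by
    push_cast
    have h1 : ((Y / H : ℕ) : ℝ) ≤ (Y : ℝ) / H := Nat.cast_div_le
    have h2 : (Y : ℝ) / H ≤ 1 / δ := by
      rw [div_le_div_iff₀ hHr hδ]
      linarith
    linarith
  have hblocks2 : ((Y / H + 1 : ℕ) : ℝ) * H ≤ 3 * Y := by
    have h1 : ((Y / H + 1 : ℕ) : ℝ) * H = (((Y / H) * H : ℕ) : ℝ) + H := by push_cast; ring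
    have h2 : (((Y / H) * H : ℕ) : ℝ) ≤ Y := by exact_mod_cast Nat.div_mul_le_self Y H
    have h3 : δ * Y ≤ 1 * Y := mul_le_mul_of_nonneg_right hδ1 hYpos.le
    rw [h1]; linarith
  -- first part
  have hfirst : ∀ i ∈ range (Y / H + 1),
      ∑ N ∈ (Icc 1 Y).filter (fun N => (N - 1) / H = i),
      |∑ n ∈ (Icc 1 X).filter (fun n : ℕ => G.eval (n : ℤ) + H ≤ ((i * H : ℕ) : ℤ)),
        f n * (lp ((N : ℤ) - G.eval (n : ℤ)) -
          Pool.Agent.Lib.H68T.G Q ((N : ℤ) - G.eval (n : ℤ)))| ≤ J * (Y * S / L) := by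
    intro i _
    refine ENG_first G cG hcG X Y H J i hHpos hJH f
      (fun m => lp m - Pool.Agent.Lib.H68T.G Q m) (Y * S / L) ?_
    intro j _
    have hTnn : 0 ≤ Y * S / L := by positivity
    by_cases hj : ((4 ^ j * H : ℕ) : ℝ) ≤ 2 * Y
    · have hX₀ : δ * Y ≤ ((4 ^ j * H : ℕ) : ℝ) := by
        refine hH1.trans ?_
        exact_mod_cast Nat.le_mul_of_pos_left H (by positivity)
      have hR := hreg Y Q (4 ^ j * H) hYY2 hQK hQ2 hX₀ hj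
      set f' : ℕ → ℝ := fun n => if n ∈ Icc 1 X then f n / L ^ C else 0 with hf'
      have hLC : 0 < L ^ C := Real.rpow_pos_of_pos hL0 _
      have hf'1 : ∀ n, |f' n| ≤ 1 := by
        intro n
        rw [hf']
        by_cases hn : n ∈ Icc 1 X
        · simp only [hn, if_true]
          rw [abs_of_nonneg (div_nonneg (hf.nonneg n hn) hLC.le), div_le_one hLC]
          exact hf.le n hn
        · simp only [hn, if_false, abs_zero]
          norm_num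
      have hb : (((4 ^ (j + 1) * H : ℕ) : ℤ)) ≤ 4 * ((4 ^ j * H : ℕ) : ℤ) := by
        push_cast; ring_nf; exact le_rfl
      have hd := hdec Y Q (4 ^ j * H) hR hQg hX₀ hj _ hb f' hf'1
        ((Icc 1 X).filter (fun n : ℕ => G.eval (n : ℤ) + H ≤ ((i * H : ℕ) : ℤ)))
        (filter_subset _ _)
      have heq : ∀ N ∈ Icc 1 Y, |∑ n ∈ ((Icc 1 X).filter
          (fun n : ℕ => G.eval (n : ℤ) + H ≤ ((i * H : ℕ) : ℤ))).filter
          (fun n : ℕ => ((4 ^ j * H : ℕ) : ℤ) ≤ (N : ℤ) - G.eval (n : ℤ) ∧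
            (N : ℤ) - G.eval (n : ℤ) < ((4 ^ (j + 1) * H : ℕ) : ℤ)),
            f n * (lp ((N : ℤ) - G.eval (n : ℤ)) -
              Pool.Agent.Lib.H68T.G Q ((N : ℤ) - G.eval (n : ℤ)))| =
          L ^ C * |∑ n ∈ ((Icc 1 X).filter
          (fun n : ℕ => G.eval (n : ℤ) + H ≤ ((i * H : ℕ) : ℤ))).filter
          (fun n : ℕ => ((4 ^ j * H : ℕ) : ℤ) ≤ (N : ℤ) - G.eval (n : ℤ) ∧
            (N : ℤ) - G.eval (n : ℤ) < ((4 ^ (j + 1) * H : ℕ) : ℤ)),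
            f' n * (lp ((N : ℤ) - G.eval (n : ℤ)) -
              Pool.Agent.Lib.H68T.G Q ((N : ℤ) - G.eval (n : ℤ)))| := by
        intro N _
        have habs : ∀ x : ℝ, L ^ C * |x| = |L ^ C * x| := fun x => by
          rw [abs_mul, abs_of_pos hLC]
        rw [habs, mul_sum]
        congr 1
        refine sum_congr rfl fun n hn => ?_
        rw [mem_filter, mem_filter] at hn
        rw [hf']
        simp only [hn.1.1, if_true]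
        field_simp
      rw [sum_congr rfl heq, ← mul_sum]
      refine (mul_le_mul_of_nonneg_left hd hLC.le).trans ?_
      rw [← hX, ← hL]
      have hpow : L ^ (2 * C + 1) = L ^ C * L ^ C * L := by
        rw [← Real.rpow_add hL0, Real.rpow_add_one hL0.ne']
        congr 2; ring
      rw [hpow]
      have hXS : (X : ℝ) ≤ S * L ^ C := hf.large
      rw [← mul_div_assoc, div_le_div_iff₀ (by positivity) hL0]
      calc L ^ C * (Y * X) * L ≤ L ^ C * (Y * (S * L ^ C)) * L := by gcongr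
        _ = Y * S * (L ^ C * L ^ C * L) := by ring
    · have hzero : ∀ N ∈ Icc 1 Y, |∑ n ∈ ((Icc 1 X).filter
          (fun n : ℕ => G.eval (n : ℤ) + H ≤ ((i * H : ℕ) : ℤ))).filter
          (fun n : ℕ => ((4 ^ j * H : ℕ) : ℤ) ≤ (N : ℤ) - G.eval (n : ℤ) ∧
            (N : ℤ) - G.eval (n : ℤ) < ((4 ^ (j + 1) * H : ℕ) : ℤ)),
            f n * (lp ((N : ℤ) - G.eval (n : ℤ)) -
              Pool.Agent.Lib.H68T.G Q ((N : ℤ) - G.eval (n : ℤ)))| = 0 := by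
        intro N hN
        rw [abs_eq_zero]
        apply sum_eq_zero
        intro n hn
        exfalso
        rw [mem_filter] at hn
        rw [mem_Icc] at hN
        have h1 := hn.2.1
        have h2 := hcG n
        apply hj
        have h3 : ((4 ^ j * H : ℕ) : ℤ) ≤ (Y : ℤ) + cG := by omega
        have h4 : ((4 ^ j * H : ℕ) : ℝ) ≤ (Y : ℝ) + cG := by exact_mod_cast h3
        linarith
      rw [sum_congr rfl hzero, sum_const_zero]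
      exact hTnn
  -- second part
  have hsecond : ∀ i ∈ range (Y / H + 1),
      ∑ N ∈ (Icc 1 Y).filter (fun N => (N - 1) / H = i),
      |∑ n ∈ (Icc 1 X).filter (fun n : ℕ => G.eval (n : ℤ) + H ≤ ((i * H : ℕ) : ℤ)),
        f n * (Pool.Agent.Lib.H68T.G Q ((N : ℤ) - G.eval (n : ℤ)) -
          Lw w ((N : ℤ) - G.eval (n : ℤ)))| ≤ ε / 16 * H * S := by
    intro i _
    refine (ENG_second Y H i hHpos (fun N => |∑ n ∈ (Icc 1 X).filter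
      (fun n : ℕ => G.eval (n : ℤ) + H ≤ ((i * H : ℕ) : ℤ)),
        f n * (Pool.Agent.Lib.H68T.G Q (N - G.eval (n : ℤ)) -
          Lw w (N - G.eval (n : ℤ)))|) (fun _ => abs_nonneg _)).trans ?_
    exact hY₁ Y Q hYY1 hPQ hQ2 f S hf _ (filter_subset _ _) _ H hQH
  -- both
  have hmain : ∑ N ∈ Icc 1 Y, |∑ n ∈ (Icc 1 X).filter
      (fun n : ℕ => G.eval (n : ℤ) + H ≤ (((N - 1) / H * H : ℕ) : ℤ)),
        f n * (lp ((N : ℤ) - G.eval (n : ℤ)) - Lw w ((N : ℤ) - G.eval (n : ℤ)))| ≤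
      ∑ i ∈ range (Y / H + 1), (J * (Y * S / L) + ε / 16 * H * S) := by
    refine ENG_block Y H hHpos (fun i N => |∑ n ∈ (Icc 1 X).filter
      (fun n : ℕ => G.eval (n : ℤ) + H ≤ ((i * H : ℕ) : ℤ)),
        f n * (lp ((N : ℤ) - G.eval (n : ℤ)) - Lw w ((N : ℤ) - G.eval (n : ℤ)))|) _ ?_
    intro i hi
    refine le_trans ?_ (add_le_add (hfirst i hi) (hsecond i hi))
    rw [← sum_add_distrib]
    refine sum_le_sum fun N _ => ?_
    refine le_trans (le_of_eq ?_) (abs_add_le _ _)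
    rw [← sum_add_distrib]
    congr 1
    refine sum_congr rfl fun n _ => ?_
    ring
  -- rest
  have hψT : ∑ m ∈ Icc (1 : ℤ) (2 * H : ℕ), (lp m + Lw w m) ≤ (2 * Cl + 4) * H := by
    rw [sum_add_distrib]
    have h1 := hlp (2 * H)
    have hPH : PW w ≤ 2 * H := by
      have : (PW w : ℝ) ≤ ((2 * H : ℕ) : ℝ) := by push_cast; linarith
      exact_mod_cast this
    have h2 := sum_Lw_le w (2 * H) hPH 1
    have h3 : Icc (1 : ℤ) (2 * H : ℕ) = Ico 1 (1 + ((2 * H : ℕ) : ℤ)) := by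
      ext m; rw [mem_Icc, mem_Ico]; omega
    rw [h3] at h1 ⊢
    push_cast at h1 h2 ⊢
    linarith
  have hrest := ENG_rest G X Y H f hf.nonneg S ((2 * Cl + 4) * H) hmass (by positivity)
    (fun m => lp m + Lw w m) (fun m => add_nonneg (ENG_lp_nonneg m) (ENG_Lw_nonneg w m)) hψT
  have hsplit : ∀ N ∈ Icc 1 Y, |∑ n ∈ (Icc 1 X).filter (fun n : ℕ => G.eval (n : ℤ) < N),
      f n * (lp ((N : ℤ) - G.eval (n : ℤ)) - Lw w ((N : ℤ) - G.eval (n : ℤ)))| ≤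
      |∑ n ∈ (Icc 1 X).filter (fun n : ℕ => G.eval (n : ℤ) + H ≤ (((N - 1) / H * H : ℕ) : ℤ)),
        f n * (lp ((N : ℤ) - G.eval (n : ℤ)) - Lw w ((N : ℤ) - G.eval (n : ℤ)))| +
      ∑ n ∈ (Icc 1 X).filter (fun n : ℕ => 1 ≤ (N : ℤ) - G.eval (n : ℤ) ∧
        (N : ℤ) - G.eval (n : ℤ) ≤ (2 * H : ℕ)),
          f n * (lp ((N : ℤ) - G.eval (n : ℤ)) + Lw w ((N : ℤ) - G.eval (n : ℤ))) := by
    intro N hN
    rw [mem_Icc] at hN
    exact ENG_split G X N H hN.1 hHpos f hf.nonneg (fun m => lp m - Lw w m)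
      (fun m => lp m + Lw w m) (fun m => by
        rw [abs_le]
        have h1 := ENG_lp_nonneg m
        have h2 := ENG_Lw_nonneg w m
        constructor <;> linarith)
  refine (sum_le_sum hsplit).trans ?_
  rw [sum_add_distrib]
  refine (add_le_add hmain hrest).trans ?_
  rw [sum_const, card_range, nsmul_eq_mul]
  have t1 : ((Y / H + 1 : ℕ) : ℝ) * (J * (Y * S / L)) ≤ ε / 4 * (Y * S) := by
    calc ((Y / H + 1 : ℕ) : ℝ) * (J * (Y * S / L)) ≤ (1 / δ + 1) * (J * (Y * S / L)) := by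
          gcongr
      _ = ((1 / δ + 1) * J / L) * (Y * S) := by ring
      _ ≤ ε / 4 * (Y * S) := mul_le_mul_of_nonneg_right v7 (by positivity)
  have t2 : ((Y / H + 1 : ℕ) : ℝ) * (ε / 16 * H * S) ≤ 3 * ε / 16 * (Y * S) := by
    calc ((Y / H + 1 : ℕ) : ℝ) * (ε / 16 * H * S) = ε / 16 * S * (((Y / H + 1 : ℕ) : ℝ) * H) := by
          ring
      _ ≤ ε / 16 * S * (3 * Y) := mul_le_mul_of_nonneg_left hblocks2 (by positivity)
      _ = _ := by ring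
  have t3 : S * ((2 * Cl + 4) * H) ≤ ε / 4 * (Y * S) := by
    have h1 : (2 * Cl + 4) * (H : ℝ) ≤ (2 * Cl + 4) * (2 * (ε / (16 * (Cl + 2)) * Y)) := by
      have h2 : (H : ℝ) ≤ 2 * (ε / (16 * (Cl + 2)) * Y) := by
        refine hH2.trans ?_
        gcongr
      exact mul_le_mul_of_nonneg_left h2 (by positivity)
    have h3 : (2 * Cl + 4) * (2 * (ε / (16 * (Cl + 2)) * Y)) = ε / 4 * Y := by
      field_simp
      ring
    calc S * ((2 * Cl + 4) * H) ≤ S * (ε / 4 * Y) :=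
          mul_le_mul_of_nonneg_left (h1.trans h3.le) hS0
      _ = _ := by ring
  have hYS : 0 ≤ (Y : ℝ) * S := by positivity
  nlinarith

end Pool.Agent.Lib.H33B
end

-- from Lib.H59X.EP3
section

/-!
# Chunk EP3: the Ramanujan model against the periodic model at the values `N + P(n)`
-/

open Finset Polynomial

namespace Pool.Agent.Lib.H59X

open Pool.Agent.Lib.H59 (argCount argSet)
open Pool.Agent.Lib.H68T (lp Reg Good)
open Pool.Agent.Lib.H33B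

theorem EP3_Geven (Q : ℕ) (m : ℤ) : H68T.G Q (-m) = H68T.G Q m := by
  unfold H68T.G
  refine sum_congr rfl fun q _ => ?_
  rw [H68T.cq_neg]

theorem EP3_Leven (w : ℕ) (m : ℤ) : Lw w (-m) = Lw w m := by
  unfold Lw Lq
  have h : IsCoprime (-m) ((PW w : ℕ) : ℤ) ↔ IsCoprime m ((PW w : ℕ) : ℤ) := IsCoprime.neg_left_iff _ _
  by_cases h1 : IsCoprime m ((PW w : ℕ) : ℤ)
  · rw [if_pos (h.2 h1), if_pos h1]
  · rw [if_neg (fun h2 => h1 (h.1 h2)), if_neg h1]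

open Filter in
theorem EP3_ev (K : ℝ) (hK : 0 ≤ K) : ∃ Y₀ : ℕ, 3 ≤ Y₀ ∧ ∀ Y : ℕ, Y₀ ≤ Y →
    Real.log ((Y + 1 : ℕ) : ℝ) ^ K ≤ Real.log Y ^ (K + 1) ∧ 1 ≤ Real.log (Y : ℝ) := by
  have hlog : Tendsto (fun Y : ℕ => Real.log (Y : ℝ)) atTop atTop :=
    Real.tendsto_log_atTop.comp tendsto_natCast_atTop_atTop
  obtain ⟨Y₀, hY₀⟩ := eventually_atTop.1 (hlog.eventually_ge_atTop (2 ^ K + 1))
  refine ⟨max Y₀ 3, le_max_right _ _, fun Y hY => ?_⟩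
  have h1 := hY₀ Y ((le_max_left _ _).trans hY)
  have hY3 : (3 : ℝ) ≤ Y := by exact_mod_cast (le_max_right _ _).trans hY
  have h2 : (1 : ℝ) ≤ Real.log Y := by
    have : (1 : ℝ) ≤ 2 ^ K := Real.one_le_rpow (by norm_num) hK
    linarith
  refine ⟨?_, h2⟩
  have h3 : Real.log ((Y + 1 : ℕ) : ℝ) ≤ 2 * Real.log Y := by
    have : Real.log ((Y + 1 : ℕ) : ℝ) ≤ Real.log ((Y : ℝ) ^ 2) := by
      apply Real.log_le_log (by positivity)
      push_cast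
      nlinarith
    rw [Real.log_pow] at this
    exact_mod_cast this
  have h4 : 0 ≤ Real.log ((Y + 1 : ℕ) : ℝ) := Real.log_natCast_nonneg _
  calc Real.log ((Y + 1 : ℕ) : ℝ) ^ K ≤ (2 * Real.log Y) ^ K := Real.rpow_le_rpow h4 h3 hK
    _ = 2 ^ K * Real.log Y ^ K := Real.mul_rpow (by norm_num) (by linarith)
    _ ≤ Real.log Y * Real.log Y ^ K := by
        apply mul_le_mul_of_nonneg_right _ (by positivity)
        linarith
    _ = Real.log Y ^ (K + 1) := by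
        rw [Real.rpow_add_one (by linarith)]
        ring

theorem ls_plus (P : ℤ[X]) (hk : 1 ≤ P.natDegree) (hl : 0 < P.leadingCoeff) (D : ℕ) (C c₁ : ℝ)
    (hC : 0 ≤ C) (hc₁ : 0 < c₁) :
    ∃ K : ℝ, 0 ≤ K ∧ ∀ ε : ℝ, 0 < ε → ∃ w₀ : ℕ, ∀ w : ℕ, w₀ ≤ w → ∃ Y₀ : ℕ, ∀ Y Q X : ℕ, Y₀ ≤ Y →
    1 ≤ X → c₁ * Y ≤ (X : ℝ) ^ P.natDegree → (∀ n ∈ Icc 1 X, P.eval (n : ℤ) ≤ Y) →
    PW w ≤ Q → (Q : ℝ) ≤ Real.exp (Real.sqrt (Real.log Y)) → ∀ (f : ℕ → ℝ) (S : ℝ),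
    SieveWt D C K Y X S f → ∀ A ⊆ Icc 1 X, ∀ (N₀ : ℤ) (H : ℕ), Q ^ 4 ≤ H →
    ∑ N ∈ Ico N₀ (N₀ + H), |∑ n ∈ A, f n * (H68T.G Q (N + P.eval (n : ℤ)) -
      Lw w (N + P.eval (n : ℤ)))| ≤ ε * H * S := by
  obtain ⟨K, hK0, hls⟩ := ls_main P hk hl D (C + 1)
  obtain ⟨Y₁, h3, hY₁⟩ := EP3_ev K hK0
  obtain ⟨Y₂, hY₂⟩ := H57M.argSet_eq P hk hl
  have hac := argCount_pow P hk hl
  have ha : (0 : ℝ) < (P.leadingCoeff : ℝ) := by exact_mod_cast hl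
  have ha1 : (1 : ℝ) ≤ (P.leadingCoeff : ℝ) := by exact_mod_cast hl
  obtain ⟨Y₃, hY₃⟩ := Filter.eventually_atTop.1 (hac.eventually_lt_const (u := 2) (by
    have : (P.leadingCoeff : ℝ)⁻¹ ≤ 1 := inv_le_one_of_one_le₀ ha1
    linarith))
  have hlog : Filter.Tendsto (fun Y : ℕ => Real.log (Y : ℝ)) Filter.atTop Filter.atTop :=
    Real.tendsto_log_atTop.comp tendsto_natCast_atTop_atTop
  obtain ⟨Y₄, hY₄⟩ := Filter.eventually_atTop.1 (hlog.eventually_ge_atTop (4 / c₁ + 1))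
  refine ⟨K + 1, by linarith, fun ε hε => ?_⟩
  obtain ⟨w₀, hw₀⟩ := hls ε hε
  refine ⟨w₀, fun w hw => ?_⟩
  obtain ⟨Y₀, hY₀⟩ := hw₀ w hw
  refine ⟨max (max Y₀ Y₁) (max Y₂ (max Y₃ Y₄)), fun Y Q X hY hX1 hXk hPX hPW hQ f S hf A hA N₀ H hH => ?_⟩
  have hYY0 : Y₀ ≤ Y := ((le_max_left _ _).trans (le_max_left _ _)).trans hY
  have hYY1 : Y₁ ≤ Y := ((le_max_right _ _).trans (le_max_left _ _)).trans hY
  have hYY2 : Y₂ ≤ Y := ((le_max_left _ _).trans (le_max_right _ _)).trans hY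
  have hYY3 : Y₃ ≤ Y :=
    (((le_max_left _ _).trans (le_max_right _ _)).trans (le_max_right _ _)).trans hY
  have hYY4 : Y₄ ≤ Y :=
    (((le_max_right _ _).trans (le_max_right _ _)).trans (le_max_right _ _)).trans hY
  obtain ⟨l1, l2⟩ := hY₁ Y hYY1
  have l4 := hY₄ Y hYY4
  have hY3 : 3 ≤ Y := h3.trans hYY1
  have hY3r : (3 : ℝ) ≤ Y := by exact_mod_cast hY3
  have l3 : Real.log Y ≤ Real.log ((Y + 1 : ℕ) : ℝ) := by
    apply Real.log_le_log (by linarith)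
    push_cast; linarith
  have hXle : X ≤ argCount P (Y + 1) := by
    have := hY₂ (Y + 1) (by omega) X
    refine (this.1 ⟨hX1, ?_⟩).2
    have h := hPX X (mem_Icc.2 ⟨hX1, le_rfl⟩)
    push_cast
    omega
  have hX2 : (argCount P (Y + 1) : ℝ) ≤ (4 / c₁ + 1) * X := by
    have h1 := hY₃ (Y + 1) (by omega)
    have hY1pos : (0 : ℝ) < ((Y + 1 : ℕ) : ℝ) := by positivity
    rw [div_lt_iff₀ hY1pos] at h1
    have hXpos : (0 : ℝ) < X := by exact_mod_cast hX1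
    have h2 : ((argCount P (Y + 1) : ℝ) / X) ^ P.natDegree ≤ 4 / c₁ := by
      rw [div_pow, div_le_div_iff₀ (by positivity) hc₁]
      push_cast at h1
      calc (argCount P (Y + 1) : ℝ) ^ P.natDegree * c₁ ≤ (2 * (Y + 1)) * c₁ := by
            apply mul_le_mul_of_nonneg_right h1.le hc₁.le
        _ ≤ (4 * Y) * c₁ := by
            apply mul_le_mul_of_nonneg_right _ hc₁.le
            linarith
        _ = 4 * (c₁ * Y) := by ring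
        _ ≤ 4 * (X : ℝ) ^ P.natDegree := by linarith
    have h3 : 1 ≤ (argCount P (Y + 1) : ℝ) / X := by
      rw [one_le_div hXpos]; exact_mod_cast hXle
    have h4 : (argCount P (Y + 1) : ℝ) / X ≤ 4 / c₁ :=
      (le_self_pow₀ h3 (by omega)).trans h2
    rw [div_le_iff₀ hXpos] at h4
    linarith
  -- the extended weight
  classical
  set f' : ℕ → ℝ := fun n => if n ∈ Icc 1 X then f n else 0 with hf'
  have hlogpos : 0 < Real.log (Y : ℝ) := by linarith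
  have hSnn : 0 ≤ S := by
    have h1 := hf.cls 1 0 squarefree_one (by
      rw [Nat.cast_one]; exact Real.one_le_rpow l2 (by linarith))
    have h2 : 0 ≤ ∑ n ∈ (Icc 1 X).filter (fun n => n ≡ 0 [MOD 1]), f n :=
      sum_nonneg fun n hn => hf.nonneg n (mem_filter.mp hn).1
    simp only [Nat.primeFactors_one, card_empty, pow_zero, one_mul, Nat.cast_one, div_one] at h1
    linarith
  have hsub : Icc 1 X ⊆ Icc 1 (argCount P (Y + 1)) := Icc_subset_Icc le_rfl hXle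
  have hsum : ∀ (p : ℕ → Prop) [DecidablePred p],
      ∑ n ∈ (Icc 1 (argCount P (Y + 1))).filter p, f' n = ∑ n ∈ (Icc 1 X).filter p, f n := by
    intro p _
    have h1 : ∑ n ∈ (Icc 1 X).filter p, f n = ∑ n ∈ (Icc 1 X).filter p, f' n := by
      refine sum_congr rfl fun n hn => ?_
      rw [hf']
      simp only [(mem_filter.1 hn).1, if_true]
    rw [h1]
    symm
    apply sum_subset (filter_subset_filter _ hsub)
    intro n hn hn'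
    rw [mem_filter] at hn hn'
    rw [hf']
    by_cases h : n ∈ Icc 1 X
    · exact absurd ⟨h, hn.2⟩ hn'
    · simp only [h, if_false]
  have hf2 : SieveWt D (C + 1) K (Y + 1) (argCount P (Y + 1)) S f' := by
    refine ⟨?_, ?_, ?_, ?_⟩
    · intro n _
      rw [hf']
      by_cases h : n ∈ Icc 1 X
      · simp only [h, if_true]; exact hf.nonneg n h
      · simp only [h, if_false]; exact le_rfl
    · intro n _
      have hh : Real.log Y ^ C ≤ Real.log ((Y + 1 : ℕ) : ℝ) ^ (C + 1) := by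
        calc Real.log Y ^ C ≤ Real.log Y ^ (C + 1) :=
              Real.rpow_le_rpow_of_exponent_le l2 (by linarith)
          _ ≤ _ := Real.rpow_le_rpow hlogpos.le l3 (by linarith)
      rw [hf']
      by_cases h : n ∈ Icc 1 X
      · simp only [h, if_true]; exact (hf.le n h).trans hh
      · simp only [h, if_false]
        exact Real.rpow_nonneg (Real.log_natCast_nonneg _) _
    · intro q b hq hqK
      rw [hsum]
      exact hf.cls q b hq (hqK.trans l1)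
    · calc (argCount P (Y + 1) : ℝ) ≤ (4 / c₁ + 1) * X := hX2
        _ ≤ Real.log Y * (S * Real.log Y ^ C) := by
            apply mul_le_mul l4 hf.large (by positivity) hlogpos.le
        _ = S * Real.log Y ^ (C + 1) := by
            rw [Real.rpow_add_one hlogpos.ne']; ring
        _ ≤ S * Real.log ((Y + 1 : ℕ) : ℝ) ^ (C + 1) := by
            apply mul_le_mul_of_nonneg_left _ hSnn
            exact Real.rpow_le_rpow hlogpos.le l3 (by linarith)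
  have hmain := hY₀ (Y + 1) Q (by omega) hPW (hQ.trans (Real.exp_le_exp.2 (Real.sqrt_le_sqrt l3))) f' S hf2
    A (hA.trans hsub) (1 - (N₀ + H)) H hH
  refine le_trans (le_of_eq ?_) hmain
  refine sum_bij' (fun N _ => -N) (fun N _ => -N) ?_ ?_ ?_ ?_ ?_
  · intro N hN
    rw [mem_Ico] at hN ⊢
    omega
  · intro N hN
    rw [mem_Ico] at hN ⊢
    omega
  · intro N _; ring
  · intro N _; ring
  · intro N _
    congr 1
    refine sum_congr rfl fun n hn => ?_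
    have h1 : f' n = f n := by
      rw [hf']; simp only [hA hn, if_true]
    rw [h1, show -N - eval (n : ℤ) P = -(N + eval (n : ℤ) P) by ring, EP3_Geven, EP3_Leven]

end Pool.Agent.Lib.H59X
end

-- from Lib.H59X.EP4
section

/-!
# Chunk EP4: the engine for the values `N + P(n)`
-/

open Finset Polynomial

namespace Pool.Agent.Lib.H59X

open Pool.Agent.Lib.H59 (argCount)
open Pool.Agent.Lib.H68T (lp Reg Good)
open Pool.Agent.Lib.H33B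

/-- the Fourier-uniform part on a block -/
theorem EP4_first (G : ℤ[X]) (cG X : ℕ) (hcG : ∀ n ∈ Icc 1 X, -(cG : ℤ) ≤ G.eval (n : ℤ)) (Y H J i : ℕ)
    (hH : 0 < H) (hJ : Y + cG < 4 ^ J * H) (f : ℕ → ℝ) (φ : ℤ → ℝ) (T : ℝ)
    (hT : ∀ j ∈ range J, ∑ N ∈ Icc 1 Y, |∑ n ∈ ((Icc 1 X).filter
      (fun n : ℕ => G.eval (n : ℤ) + H ≤ ((i * H : ℕ) : ℤ))).filter
        (fun n : ℕ => ((4 ^ j * H : ℕ) : ℤ) ≤ (N : ℤ) - G.eval (n : ℤ) ∧
          (N : ℤ) - G.eval (n : ℤ) < ((4 ^ (j + 1) * H : ℕ) : ℤ)),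
          f n * φ ((N : ℤ) - G.eval (n : ℤ))| ≤ T) :
    ∑ N ∈ (Icc 1 Y).filter (fun N => (N - 1) / H = i),
      |∑ n ∈ (Icc 1 X).filter (fun n : ℕ => G.eval (n : ℤ) + H ≤ ((i * H : ℕ) : ℤ)),
        f n * φ ((N : ℤ) - G.eval (n : ℤ))| ≤ J * T := by
  have h1 : ∀ N ∈ (Icc 1 Y).filter (fun N => (N - 1) / H = i),
      |∑ n ∈ (Icc 1 X).filter (fun n : ℕ => G.eval (n : ℤ) + H ≤ ((i * H : ℕ) : ℤ)),
        f n * φ ((N : ℤ) - G.eval (n : ℤ))| ≤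
      ∑ j ∈ range J, |∑ n ∈ ((Icc 1 X).filter
      (fun n : ℕ => G.eval (n : ℤ) + H ≤ ((i * H : ℕ) : ℤ))).filter
        (fun n : ℕ => ((4 ^ j * H : ℕ) : ℤ) ≤ (N : ℤ) - G.eval (n : ℤ) ∧
          (N : ℤ) - G.eval (n : ℤ) < ((4 ^ (j + 1) * H : ℕ) : ℤ)),
          f n * φ ((N : ℤ) - G.eval (n : ℤ))| := by
    intro N hN
    rw [mem_filter, mem_Icc] at hN
    obtain ⟨⟨hN1, hNY⟩, hNi⟩ := hN
    have hdiv : (N - 1) / H * H + (N - 1) % H = N - 1 := Nat.div_add_mod' (N - 1) H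
    rw [hNi] at hdiv
    refine le_trans (le_of_eq ?_) (abs_sum_le_sum_abs _ _)
    congr 1
    have h2 : ∀ n ∈ (Icc 1 X).filter (fun n : ℕ => G.eval (n : ℤ) + H ≤ ((i * H : ℕ) : ℤ)),
        f n * φ ((N : ℤ) - G.eval (n : ℤ)) = ∑ j ∈ range J,
          (if ((4 ^ j * H : ℕ) : ℤ) ≤ (N : ℤ) - G.eval (n : ℤ) ∧
          (N : ℤ) - G.eval (n : ℤ) < ((4 ^ (j + 1) * H : ℕ) : ℤ) then
            f n * φ ((N : ℤ) - G.eval (n : ℤ)) else 0) := by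
      intro n hn
      rw [mem_filter] at hn
      rw [ENG_pieces, if_pos]
      have h3 := hn.2
      have h4 := hcG n hn.1
      have h5 : ((Y + cG : ℕ) : ℤ) < ((4 ^ J * H : ℕ) : ℤ) := by exact_mod_cast hJ
      constructor
      · omega
      · refine lt_of_le_of_lt ?_ h5
        push_cast
        omega
    rw [sum_congr rfl h2, sum_comm]
    refine sum_congr rfl fun j _ => ?_
    rw [sum_filter (s := (Icc 1 X).filter
      (fun n : ℕ => G.eval (n : ℤ) + H ≤ ((i * H : ℕ) : ℤ)))]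
  refine (sum_le_sum h1).trans ?_
  rw [sum_comm]
  have h6 : ∀ j ∈ range J, ∑ N ∈ (Icc 1 Y).filter (fun N => (N - 1) / H = i), |∑ n ∈ ((Icc 1 X).filter
      (fun n : ℕ => G.eval (n : ℤ) + H ≤ ((i * H : ℕ) : ℤ))).filter
        (fun n : ℕ => ((4 ^ j * H : ℕ) : ℤ) ≤ (N : ℤ) - G.eval (n : ℤ) ∧
          (N : ℤ) - G.eval (n : ℤ) < ((4 ^ (j + 1) * H : ℕ) : ℤ)),
          f n * φ ((N : ℤ) - G.eval (n : ℤ))| ≤ T := fun j hj =>
    (sum_le_sum_of_subset_of_nonneg (filter_subset _ _) (fun _ _ _ => abs_nonneg _)).trans (hT j hj)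
  refine (sum_le_sum h6).trans ?_
  rw [sum_const, card_range, nsmul_eq_mul]

theorem engine_neg (P : ℤ[X]) (hk : 1 ≤ P.natDegree) (hl : 0 < P.leadingCoeff) (D : ℕ) (C c₁ : ℝ)
    (hC : 0 ≤ C) (hc₁ : 0 < c₁) : ∀ G : ℤ[X], G = -P →
    ∃ K : ℝ, 0 ≤ K ∧ ∀ ε : ℝ, 0 < ε → ∃ w₀ : ℕ, ∀ w : ℕ, w₀ ≤ w → ∃ Y₀ : ℕ, ∀ Y X : ℕ, Y₀ ≤ Y →
    1 ≤ X → c₁ * Y ≤ (X : ℝ) ^ P.natDegree → (X : ℝ) ≤ 2 * Y → (∀ n ∈ Icc 1 X, P.eval (n : ℤ) ≤ Y) →
    ∀ (f : ℕ → ℝ) (S : ℝ), SieveWt D C K Y X S f →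
    ∑ N ∈ Icc 1 Y, |∑ n ∈ (Icc 1 X).filter (fun n : ℕ => G.eval (n : ℤ) < N),
      f n * (lp ((N : ℤ) - G.eval (n : ℤ)) - Lw w ((N : ℤ) - G.eval (n : ℤ)))| ≤ ε * Y * S := by
  intro G hGP
  have hGe : ∀ n : ℤ, G.eval n = - P.eval n := fun n => by rw [hGP, eval_neg]
  have hPG : ∀ N n : ℤ, N + P.eval n = N - G.eval n := fun N n => by rw [hGe]; ring
  obtain ⟨c, hc, hgood⟩ := Pool.Agent.Lib.H57S.good_level
  obtain ⟨K, hK0, hls⟩ := ls_plus P hk hl D C c₁ hC hc₁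
  refine ⟨K, hK0, fun ε hε => ?_⟩
  obtain ⟨Cl, hCl, hlp⟩ := sum_lp_le
  set δ : ℝ := min 1 (ε / (16 * (Cl + 2))) with hδdef
  have hδ : 0 < δ := lt_min one_pos (by positivity)
  have hδ1 : δ ≤ 1 := min_le_left _ _
  have hδ2 : δ ≤ ε / (16 * (Cl + 2)) := min_le_right _ _
  obtain ⟨w₀, hw₀⟩ := hls (ε / 16) (by positivity)
  refine ⟨w₀, fun w hw => ?_⟩
  obtain ⟨Y₁, hY₁⟩ := hw₀ w hw
  obtain ⟨Kd, hdec⟩ := dec P hk hl c hc (2 * C + 1) δ c₁ hδ hc₁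
  obtain ⟨K₁, hK₁, Y₂, hreg⟩ := ENG_reg Kd δ hδ
  obtain ⟨Y₃, hgl⟩ := hgood (K₁ + 1)
  obtain ⟨J, hJ⟩ : ∃ J : ℕ, 2 / δ < (4 : ℝ) ^ J := pow_unbounded_of_one_lt _ (by norm_num)
  obtain ⟨y₀, hy3, hev⟩ := ENG_ev2 δ (PW w : ℝ) ((1 / δ + 1) * J) (ε / 4) hδ (by positivity)
  refine ⟨max (max Y₁ Y₂) (max ⌈Y₃⌉₊ ⌈y₀⌉₊), fun Y X hY hX1' hXk hX2Y hPX f S hf => ?_⟩
  have hYY1 : Y₁ ≤ Y := ((le_max_left _ _).trans (le_max_left _ _)).trans hY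
  have hYY2 : Y₂ ≤ Y := ((le_max_right _ _).trans (le_max_left _ _)).trans hY
  have hYY3 : Y₃ ≤ (Y : ℝ) := (Nat.le_ceil _).trans
    (by exact_mod_cast ((le_max_left _ _).trans (le_max_right _ _)).trans hY)
  have hYY4 : y₀ ≤ (Y : ℝ) := (Nat.le_ceil _).trans
    (by exact_mod_cast ((le_max_right _ _).trans (le_max_right _ _)).trans hY)
  obtain ⟨v1, v2, v3, v4, v5, v6, v7⟩ := hev Y hYY4
  have hY3 : (3 : ℝ) ≤ Y := hy3.trans hYY4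
  have hYpos : (0 : ℝ) < Y := by linarith
  have hPW0 : (0 : ℝ) ≤ PW w := Nat.cast_nonneg _
  obtain ⟨cG, hcGd⟩ : ∃ cG : ℕ, cG = Y := ⟨Y, rfl⟩
  have hcG : ∀ n ∈ Icc 1 X, -(cG : ℤ) ≤ G.eval (n : ℤ) := fun n hn => by
    rw [hGe, hcGd]
    have := hPX n hn
    omega
  obtain ⟨Q, hQ1, hQ2, hQg⟩ := hgl Y hYY3
  set L := Real.log (Y : ℝ) with hL
  have hL0 : 0 < L := by linarith
  -- the total mass
  have hmass : ∑ n ∈ Icc 1 X, f n ≤ S := by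
    have h := hf.cls 1 0 squarefree_one (by rw [Nat.cast_one]; exact Real.one_le_rpow v1 hK0)
    rw [filter_true_of_mem (fun n _ => Nat.modEq_one)] at h
    simpa using h
  have hS0 : 0 ≤ S := (sum_nonneg hf.nonneg).trans hmass
  -- the length of the blocks
  set H : ℕ := ⌈δ * Y⌉₊ with hHdef
  have hH1 : δ * Y ≤ H := Nat.le_ceil _
  have hH2 : (H : ℝ) ≤ 2 * (δ * Y) := by
    have := Nat.ceil_lt_add_one (a := δ * (Y : ℝ)) (by positivity)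
    linarith
  have hHpos : 0 < H := by
    have : (0 : ℝ) < H := by linarith
    exact_mod_cast this
  have hHr : (0 : ℝ) < H := by exact_mod_cast hHpos
  -- Q
  have hQK : L ^ K₁ ≤ Q := by
    refine le_trans ?_ hQ1
    exact Real.rpow_le_rpow_of_exponent_le v1 (by linarith)
  have hPQ : PW w ≤ Q := by
    have h1 : (PW w : ℝ) ≤ Q := by
      have h2 : L ≤ L ^ (K₁ + 1) := by
        calc L = L ^ (1 : ℝ) := (Real.rpow_one L).symm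
          _ ≤ _ := Real.rpow_le_rpow_of_exponent_le v1 (by linarith)
      linarith
    exact_mod_cast h1
  have hQH : Q ^ 4 ≤ H := by
    have h1 : ((Q : ℝ)) ^ 4 ≤ H := by
      calc ((Q : ℝ)) ^ 4 ≤ (Real.exp (Real.sqrt L)) ^ 4 :=
            pow_le_pow_left₀ (Nat.cast_nonneg _) hQ2 4
        _ = Real.exp (4 * Real.sqrt L) := by rw [← Real.exp_nat_mul]; norm_num
        _ ≤ δ * Y := v6
        _ ≤ H := hH1
    exact_mod_cast h1
  have hJH : Y + cG < 4 ^ J * H := by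
    have h1 : ((Y + cG : ℕ) : ℝ) < ((4 ^ J * H : ℕ) : ℝ) := by
      push_cast
      have h2 : (cG : ℝ) ≤ Y := by rw [hcGd]
      have h3 : 2 / δ * (δ * Y) = 2 * Y := by field_simp
      have h4 : 2 / δ * (δ * Y) < 4 ^ J * (δ * Y) := mul_lt_mul_of_pos_right hJ (by positivity)
      have h5 : (4:ℝ) ^ J * (δ * Y) ≤ 4 ^ J * H := mul_le_mul_of_nonneg_left hH1 (by positivity)
      linarith
    exact_mod_cast h1
  -- number of blocks
  have hblocks : ((Y / H + 1 : ℕ) : ℝ) ≤ 1 / δ + 1 := by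
    push_cast
    have h1 : ((Y / H : ℕ) : ℝ) ≤ (Y : ℝ) / H := Nat.cast_div_le
    have h2 : (Y : ℝ) / H ≤ 1 / δ := by
      rw [div_le_div_iff₀ hHr hδ]
      linarith
    linarith
  have hblocks2 : ((Y / H + 1 : ℕ) : ℝ) * H ≤ 3 * Y := by
    have h1 : ((Y / H + 1 : ℕ) : ℝ) * H = (((Y / H) * H : ℕ) : ℝ) + H := by push_cast; ring
    have h2 : (((Y / H) * H : ℕ) : ℝ) ≤ Y := by exact_mod_cast Nat.div_mul_le_self Y H
    have h3 : δ * Y ≤ 1 * Y := mul_le_mul_of_nonneg_right hδ1 hYpos.le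
    rw [h1]; linarith
  -- first part
  have hfirst : ∀ i ∈ range (Y / H + 1),
      ∑ N ∈ (Icc 1 Y).filter (fun N => (N - 1) / H = i),
      |∑ n ∈ (Icc 1 X).filter (fun n : ℕ => G.eval (n : ℤ) + H ≤ ((i * H : ℕ) : ℤ)),
        f n * (lp ((N : ℤ) - G.eval (n : ℤ)) -
          Pool.Agent.Lib.H68T.G Q ((N : ℤ) - G.eval (n : ℤ)))| ≤ J * (Y * S / L) := by
    intro i _
    refine EP4_first G cG X hcG Y H J i hHpos hJH f
      (fun m => lp m - Pool.Agent.Lib.H68T.G Q m) (Y * S / L) ?_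
    intro j _
    have hTnn : 0 ≤ Y * S / L := by positivity
    by_cases hj : ((4 ^ j * H : ℕ) : ℝ) ≤ 2 * Y
    · have hX₀ : δ * Y ≤ ((4 ^ j * H : ℕ) : ℝ) := by
        refine hH1.trans ?_
        exact_mod_cast Nat.le_mul_of_pos_left H (by positivity)
      have hR := hreg Y Q (4 ^ j * H) hYY2 hQK hQ2 hX₀ hj
      set f' : ℕ → ℝ := fun n => if n ∈ Icc 1 X then f n / L ^ C else 0 with hf'
      have hLC : 0 < L ^ C := Real.rpow_pos_of_pos hL0 _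
      have hf'1 : ∀ n, |f' n| ≤ 1 := by
        intro n
        rw [hf']
        by_cases hn : n ∈ Icc 1 X
        · simp only [hn, if_true]
          rw [abs_of_nonneg (div_nonneg (hf.nonneg n hn) hLC.le), div_le_one hLC]
          exact hf.le n hn
        · simp only [hn, if_false, abs_zero]
          norm_num
      have hb : (((4 ^ (j + 1) * H : ℕ) : ℤ)) ≤ 4 * ((4 ^ j * H : ℕ) : ℤ) := by
        push_cast; ring_nf; exact le_rfl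
      have hd := hdec Y Q (4 ^ j * H) X hR hQg hX₀ hj hX1' hXk hX2Y _ hb f' hf'1
        ((Icc 1 X).filter (fun n : ℕ => G.eval (n : ℤ) + H ≤ ((i * H : ℕ) : ℤ)))
        (filter_subset _ _)
      simp only [hPG] at hd
      have heq : ∀ N ∈ Icc 1 Y, |∑ n ∈ ((Icc 1 X).filter
          (fun n : ℕ => G.eval (n : ℤ) + H ≤ ((i * H : ℕ) : ℤ))).filter
          (fun n : ℕ => ((4 ^ j * H : ℕ) : ℤ) ≤ (N : ℤ) - G.eval (n : ℤ) ∧
            (N : ℤ) - G.eval (n : ℤ) < ((4 ^ (j + 1) * H : ℕ) : ℤ)),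
            f n * (lp ((N : ℤ) - G.eval (n : ℤ)) -
              Pool.Agent.Lib.H68T.G Q ((N : ℤ) - G.eval (n : ℤ)))| =
          L ^ C * |∑ n ∈ ((Icc 1 X).filter
          (fun n : ℕ => G.eval (n : ℤ) + H ≤ ((i * H : ℕ) : ℤ))).filter
          (fun n : ℕ => ((4 ^ j * H : ℕ) : ℤ) ≤ (N : ℤ) - G.eval (n : ℤ) ∧
            (N : ℤ) - G.eval (n : ℤ) < ((4 ^ (j + 1) * H : ℕ) : ℤ)),
            f' n * (lp ((N : ℤ) - G.eval (n : ℤ)) -
              Pool.Agent.Lib.H68T.G Q ((N : ℤ) - G.eval (n : ℤ)))| := by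
        intro N _
        have habs : ∀ x : ℝ, L ^ C * |x| = |L ^ C * x| := fun x => by
          rw [abs_mul, abs_of_pos hLC]
        rw [habs, mul_sum]
        congr 1
        refine sum_congr rfl fun n hn => ?_
        rw [mem_filter, mem_filter] at hn
        rw [hf']
        simp only [hn.1.1, if_true]
        field_simp
      rw [sum_congr rfl heq, ← mul_sum]
      refine (mul_le_mul_of_nonneg_left hd hLC.le).trans ?_
      rw [← hL]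
      have hpow : L ^ (2 * C + 1) = L ^ C * L ^ C * L := by
        rw [← Real.rpow_add hL0, Real.rpow_add_one hL0.ne']
        congr 2; ring
      rw [hpow]
      have hXS : (X : ℝ) ≤ S * L ^ C := hf.large
      rw [← mul_div_assoc, div_le_div_iff₀ (by positivity) hL0]
      calc L ^ C * (Y * X) * L ≤ L ^ C * (Y * (S * L ^ C)) * L := by gcongr
        _ = Y * S * (L ^ C * L ^ C * L) := by ring
    · have hzero : ∀ N ∈ Icc 1 Y, |∑ n ∈ ((Icc 1 X).filter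
          (fun n : ℕ => G.eval (n : ℤ) + H ≤ ((i * H : ℕ) : ℤ))).filter
          (fun n : ℕ => ((4 ^ j * H : ℕ) : ℤ) ≤ (N : ℤ) - G.eval (n : ℤ) ∧
            (N : ℤ) - G.eval (n : ℤ) < ((4 ^ (j + 1) * H : ℕ) : ℤ)),
            f n * (lp ((N : ℤ) - G.eval (n : ℤ)) -
              Pool.Agent.Lib.H68T.G Q ((N : ℤ) - G.eval (n : ℤ)))| = 0 := by
        intro N hN
        rw [abs_eq_zero]
        apply sum_eq_zero
        intro n hn
        exfalso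
        rw [mem_filter] at hn
        rw [mem_Icc] at hN
        have h1 := hn.2.1
        have h2 := hcG n (mem_filter.1 hn.1).1
        apply hj
        have h3 : ((4 ^ j * H : ℕ) : ℤ) ≤ (Y : ℤ) + cG := by omega
        have h4 : ((4 ^ j * H : ℕ) : ℝ) ≤ (Y : ℝ) + cG := by exact_mod_cast h3
        rw [hcGd] at h4
        linarith
      rw [sum_congr rfl hzero, sum_const_zero]
      exact hTnn
  -- second part
  have hsecond : ∀ i ∈ range (Y / H + 1),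
      ∑ N ∈ (Icc 1 Y).filter (fun N => (N - 1) / H = i),
      |∑ n ∈ (Icc 1 X).filter (fun n : ℕ => G.eval (n : ℤ) + H ≤ ((i * H : ℕ) : ℤ)),
        f n * (Pool.Agent.Lib.H68T.G Q ((N : ℤ) - G.eval (n : ℤ)) -
          Lw w ((N : ℤ) - G.eval (n : ℤ)))| ≤ ε / 16 * H * S := by
    intro i _
    refine (ENG_second Y H i hHpos (fun N => |∑ n ∈ (Icc 1 X).filter
      (fun n : ℕ => G.eval (n : ℤ) + H ≤ ((i * H : ℕ) : ℤ)),
        f n * (Pool.Agent.Lib.H68T.G Q (N - G.eval (n : ℤ)) -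
          Lw w (N - G.eval (n : ℤ)))|) (fun _ => abs_nonneg _)).trans ?_
    have hls := hY₁ Y Q X hYY1 hX1' hXk hPX hPQ hQ2 f S hf
      ((Icc 1 X).filter (fun n : ℕ => G.eval (n : ℤ) + H ≤ ((i * H : ℕ) : ℤ)))
      (filter_subset _ _) (((i * H + 1 : ℕ) : ℤ)) H hQH
    simp only [hPG] at hls
    exact hls
  -- both
  have hmain : ∑ N ∈ Icc 1 Y, |∑ n ∈ (Icc 1 X).filter
      (fun n : ℕ => G.eval (n : ℤ) + H ≤ (((N - 1) / H * H : ℕ) : ℤ)),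
        f n * (lp ((N : ℤ) - G.eval (n : ℤ)) - Lw w ((N : ℤ) - G.eval (n : ℤ)))| ≤
      ∑ i ∈ range (Y / H + 1), (J * (Y * S / L) + ε / 16 * H * S) := by
    refine ENG_block Y H hHpos (fun i N => |∑ n ∈ (Icc 1 X).filter
      (fun n : ℕ => G.eval (n : ℤ) + H ≤ ((i * H : ℕ) : ℤ)),
        f n * (lp ((N : ℤ) - G.eval (n : ℤ)) - Lw w ((N : ℤ) - G.eval (n : ℤ)))|) _ ?_
    intro i hi
    refine le_trans ?_ (add_le_add (hfirst i hi) (hsecond i hi))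
    rw [← sum_add_distrib]
    refine sum_le_sum fun N _ => ?_
    refine le_trans (le_of_eq ?_) (abs_add_le _ _)
    rw [← sum_add_distrib]
    congr 1
    refine sum_congr rfl fun n _ => ?_
    ring
  -- rest
  have hψT : ∑ m ∈ Icc (1 : ℤ) (2 * H : ℕ), (lp m + Lw w m) ≤ (2 * Cl + 4) * H := by
    rw [sum_add_distrib]
    have h1 := hlp (2 * H)
    have hPH : PW w ≤ 2 * H := by
      have : (PW w : ℝ) ≤ ((2 * H : ℕ) : ℝ) := by push_cast; linarith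
      exact_mod_cast this
    have h2 := sum_Lw_le w (2 * H) hPH 1
    have h3 : Icc (1 : ℤ) (2 * H : ℕ) = Ico 1 (1 + ((2 * H : ℕ) : ℤ)) := by
      ext m; rw [mem_Icc, mem_Ico]; omega
    rw [h3] at h1 ⊢
    push_cast at h1 h2 ⊢
    linarith
  have hrest := ENG_rest G X Y H f hf.nonneg S ((2 * Cl + 4) * H) hmass (by positivity)
    (fun m => lp m + Lw w m) (fun m => add_nonneg (ENG_lp_nonneg m) (ENG_Lw_nonneg w m)) hψT
  have hsplit : ∀ N ∈ Icc 1 Y, |∑ n ∈ (Icc 1 X).filter (fun n : ℕ => G.eval (n : ℤ) < N),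
      f n * (lp ((N : ℤ) - G.eval (n : ℤ)) - Lw w ((N : ℤ) - G.eval (n : ℤ)))| ≤
      |∑ n ∈ (Icc 1 X).filter (fun n : ℕ => G.eval (n : ℤ) + H ≤ (((N - 1) / H * H : ℕ) : ℤ)),
        f n * (lp ((N : ℤ) - G.eval (n : ℤ)) - Lw w ((N : ℤ) - G.eval (n : ℤ)))| +
      ∑ n ∈ (Icc 1 X).filter (fun n : ℕ => 1 ≤ (N : ℤ) - G.eval (n : ℤ) ∧
        (N : ℤ) - G.eval (n : ℤ) ≤ (2 * H : ℕ)),
          f n * (lp ((N : ℤ) - G.eval (n : ℤ)) + Lw w ((N : ℤ) - G.eval (n : ℤ))) := by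
    intro N hN
    rw [mem_Icc] at hN
    exact ENG_split G X N H hN.1 hHpos f hf.nonneg (fun m => lp m - Lw w m)
      (fun m => lp m + Lw w m) (fun m => by
        rw [abs_le]
        have h1 := ENG_lp_nonneg m
        have h2 := ENG_Lw_nonneg w m
        constructor <;> linarith)
  refine (sum_le_sum hsplit).trans ?_
  rw [sum_add_distrib]
  refine (add_le_add hmain hrest).trans ?_
  rw [sum_const, card_range, nsmul_eq_mul]
  have t1 : ((Y / H + 1 : ℕ) : ℝ) * (J * (Y * S / L)) ≤ ε / 4 * (Y * S) := by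
    calc ((Y / H + 1 : ℕ) : ℝ) * (J * (Y * S / L)) ≤ (1 / δ + 1) * (J * (Y * S / L)) := by
          gcongr
      _ = ((1 / δ + 1) * J / L) * (Y * S) := by ring
      _ ≤ ε / 4 * (Y * S) := mul_le_mul_of_nonneg_right v7 (by positivity)
  have t2 : ((Y / H + 1 : ℕ) : ℝ) * (ε / 16 * H * S) ≤ 3 * ε / 16 * (Y * S) := by
    calc ((Y / H + 1 : ℕ) : ℝ) * (ε / 16 * H * S) = ε / 16 * S * (((Y / H + 1 : ℕ) : ℝ) * H) := by
          ring
      _ ≤ ε / 16 * S * (3 * Y) := mul_le_mul_of_nonneg_left hblocks2 (by positivity)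
      _ = _ := by ring
  have t3 : S * ((2 * Cl + 4) * H) ≤ ε / 4 * (Y * S) := by
    have h1 : (2 * Cl + 4) * (H : ℝ) ≤ (2 * Cl + 4) * (2 * (ε / (16 * (Cl + 2)) * Y)) := by
      have h2 : (H : ℝ) ≤ 2 * (ε / (16 * (Cl + 2)) * Y) := by
        refine hH2.trans ?_
        gcongr
      exact mul_le_mul_of_nonneg_left h2 (by positivity)
    have h3 : (2 * Cl + 4) * (2 * (ε / (16 * (Cl + 2)) * Y)) = ε / 4 * Y := by
      field_simp
      ring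
    calc S * ((2 * Cl + 4) * H) ≤ S * (ε / 4 * Y) :=
          mul_le_mul_of_nonneg_left (h1.trans h3.le) hS0
      _ = _ := by ring
  have hYS : 0 ≤ (Y : ℝ) * S := by positivity
  nlinarith

/-- The engine for the values `N + P(n)`. -/
theorem engine_plus0 (P : ℤ[X]) (hk : 1 ≤ P.natDegree) (hl : 0 < P.leadingCoeff) (D : ℕ) (C c₁ : ℝ)
    (hC : 0 ≤ C) (hc₁ : 0 < c₁) :
    ∃ K : ℝ, 0 ≤ K ∧ ∀ ε : ℝ, 0 < ε → ∃ w₀ : ℕ, ∀ w : ℕ, w₀ ≤ w → ∃ Y₀ : ℕ, ∀ Y X : ℕ, Y₀ ≤ Y →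
    1 ≤ X → c₁ * Y ≤ (X : ℝ) ^ P.natDegree → (X : ℝ) ≤ 2 * Y → (∀ n ∈ Icc 1 X, P.eval (n : ℤ) ≤ Y) →
    ∀ (f : ℕ → ℝ) (S : ℝ), SieveWt D C K Y X S f →
    ∑ N ∈ Icc 1 Y, |∑ n ∈ (Icc 1 X).filter (fun n : ℕ => 0 < (N : ℤ) + P.eval (n : ℤ)),
      f n * (lp ((N : ℤ) + P.eval (n : ℤ)) - Lw w ((N : ℤ) + P.eval (n : ℤ)))| ≤ ε * Y * S := by
  obtain ⟨K, hK, h⟩ := engine_neg P hk hl D C c₁ hC hc₁ (-P) rfl
  refine ⟨K, hK, fun ε hε => ?_⟩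
  obtain ⟨w₀, h⟩ := h ε hε
  refine ⟨w₀, fun w hw => ?_⟩
  obtain ⟨Y₀, h⟩ := h w hw
  refine ⟨Y₀, fun Y X h1 h2 h3 h4 h5 f S hf => ?_⟩
  have h6 := h Y X h1 h2 h3 h4 h5 f S hf
  simp only [eval_neg, sub_neg_eq_add] at h6
  have h7 : ∀ N : ℕ, (Icc 1 X).filter (fun n : ℕ => 0 < (N : ℤ) + P.eval (n : ℤ)) =
      (Icc 1 X).filter (fun n : ℕ => -P.eval (n : ℤ) < (N : ℤ)) := fun N => by
    refine filter_congr fun n _ => ?_
    constructor <;> intro h <;> omega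
  simp only [h7]
  exact h6

end Pool.Agent.Lib.H59X
end

-- from Lib.H59X.Defs
section

/-!
# Project H59X (MP_0bf1d2_nt): Schinzel's formula for almost all constant terms. Definitions

See `PROOF.md` in this folder.
-/

open Finset Polynomial

namespace Pool.Agent.Lib.H59X

open Pool.Agent.Lib.H59 (argSet argCount Admissible primeCount omegaN seriesTrunc rootCount)
open Pool.Agent.Lib.H68T (lp)
open Pool.Agent.Lib.H33B (Lq Lw PW SieveWt)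

/-- The system `P_1 + h_1, …, P_g + h_g`. -/
noncomputable def fam {g : ℕ} (P : Fin g → ℤ[X]) (h : Fin g → ℕ) : Fin g → ℤ[X] :=
  fun i => P i + C (h i : ℤ)

/-- The box `1 ≤ h_i ≤ H_i`. -/
def Box {g : ℕ} (H : Fin g → ℕ) : Finset (Fin g → ℕ) := Fintype.piFinset fun i => Icc 1 (H i)

/-- `H_1 ⋯ H_g` -/
noncomputable def vol {g : ℕ} (H : Fin g → ℕ) : ℝ := ∏ i, (H i : ℝ)

/-- The sides `H_i` of the box have the order of magnitude `X^(deg P_i)`. -/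
structure Fit (C₁ : ℝ) (X : ℕ) {g : ℕ} (P : Fin g → ℤ[X]) (H : Fin g → ℕ) : Prop where
  lo : ∀ i, (X : ℝ) ^ (P i).natDegree ≤ C₁ * H i
  hi : ∀ i, (H i : ℝ) ≤ C₁ * (X : ℝ) ^ (P i).natDegree

/-- Degrees between `1` and `A`, leading coefficients (of any sign) at most `A` in absolute value. -/
structure Pol (A : ℕ) {g : ℕ} (P : Fin g → ℤ[X]) : Prop where
  deg : ∀ i, 1 ≤ (P i).natDegree
  degA : ∀ i, (P i).natDegree ≤ A
  lc : ∀ i, (P i).leadingCoeff.natAbs ≤ A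

/-- The deterministic polynomial: none (`r = 0`) or a linear one (`r = 1`). -/
def Bas (A r : ℕ) (B : ℤ[X]) : Prop :=
  (r = 0 ∧ B = 1) ∨ (r = 1 ∧ B.natDegree = 1 ∧ B.leadingCoeff.natAbs ≤ A)

/-- Its weight: `1`, or `log B(n)` if `B(n)` is prime and `0` otherwise. -/
noncomputable def bw (r : ℕ) (B : ℤ[X]) (n : ℕ) : ℝ := if r = 0 then 1 else lp (B.eval (n : ℤ))

/-- The local model of `bw`. -/
noncomputable def bL (r : ℕ) (B : ℤ[X]) (q v : ℕ) : ℝ := if r = 0 then 1 else Lq q (B.eval (v : ℤ))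

/-- `B ∏ (P_i + h_i)` -/
noncomputable def QQ (B : ℤ[X]) {g : ℕ} (P : Fin g → ℤ[X]) (h : Fin g → ℕ) : ℤ[X] :=
  B * ∏ i, fam P h i

/-- The product over `p < z` of the local factors of a product `Q` of `m` polynomials. -/
noncomputable def ssz (m : ℕ) (Q : ℤ[X]) (z : ℕ) : ℝ :=
  ∏ p ∈ Nat.primesBelow z, (1 - (rootCount Q p : ℝ) / p) * ((1 - 1 / (p : ℝ)) ^ m)⁻¹

/-- `⌊X^(1/M)⌋` -/
noncomputable def zz (M X : ℕ) : ℕ := ⌊(X : ℝ) ^ ((1 : ℝ) / M)⌋₊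

/-- A full system of residues modulo `q`. -/
def cube (g q : ℕ) : Finset (Fin g → ℕ) := Fintype.piFinset fun _ => range q

/-- `F(h)` depends only on `h` modulo `q`. -/
def Per (q : ℕ) {g : ℕ} (F : (Fin g → ℕ) → ℝ) : Prop :=
  ∀ h h' : Fin g → ℕ, (∀ i, h i ≡ h' i [MOD q]) → F h = F h'

/-- The mean over a full system of residues modulo `q`. -/
noncomputable def mean (q : ℕ) {g : ℕ} (F : (Fin g → ℕ) → ℝ) : ℝ :=
  (∑ h ∈ cube g q, F h) / (q : ℝ) ^ g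

/-- The local factor at `p` of `B` and the `P_i + h_i`, `i ∈ I`. -/
noncomputable def af (r : ℕ) (B : ℤ[X]) {g : ℕ} (P : Fin g → ℤ[X]) (I : Finset (Fin g)) (p : ℕ)
    (h : Fin g → ℕ) : ℝ :=
  (∑ v ∈ range p, bL r B p v * ∏ i ∈ I, Lq p ((P i).eval (v : ℤ) + h i)) / p

/-- The mean value of the model with the levels `u_i` and `U`. -/
noncomputable def mixv (r : ℕ) (B : ℤ[X]) {g : ℕ} (P : Fin g → ℤ[X]) (u : Fin g → ℕ) (U : ℕ)
    (h : Fin g → ℕ) : ℝ :=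
  (∑ v ∈ range (PW U), bL r B (PW U) v * ∏ i, Lw (u i) ((P i).eval (v : ℤ) + h i)) / PW U

/-- The prime number theorem for `B` in the residue classes modulo `PW U`, on all `[1, x]`, `x ≤ X`. -/
def BEq (r : ℕ) (B : ℤ[X]) (U X : ℕ) (η : ℝ) : Prop :=
  ∀ x ≤ X, ∀ v : ℕ, |∑ n ∈ (Icc 1 x).filter (fun n => n ≡ v [MOD PW U]), bw r B n -
    x / PW U * bL r B (PW U) v| ≤ η * X

/-- `1` if `m` is a prime and `0` otherwise. -/
noncomputable def pr (m : ℤ) : ℝ := if m.toNat.Prime then 1 else 0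

/-- `1` if there is no deterministic polynomial, or `B(n)` is prime, and `0` otherwise. -/
noncomputable def pb (r : ℕ) (B : ℤ[X]) (n : ℕ) : ℝ := if r = 0 then 1 else pr (B.eval (n : ℤ))

end Pool.Agent.Lib.H59X
end
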