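import Pool.Agent.Lib.H59M.M1.M013
import Pool.Agent.Lib.H59M.M1.M070

/-! Merged copies (to shorten the build) of Lib.H59P.A7. -/

-- from Lib.H59P.A7
section

/-!
# Project H59P, module A, file A7: the conclusions of module A
-/

open Finset

namespace Pool.Agent.Lib.H59P

open Pool.Agent.Lib.H68T Pool.Agent.Lib.H18Q

theorem a7_err {C kp E : ℝ} (hC : 1 ≤ C) (hkp : 0 ≤ kp) (hE : E ≤ Real.exp (-kp)) :
    C * Real.exp (-(2 * kp / C)) + E ≤ (C + 1) * Real.exp (-(kp / (C + 1))) := by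
  have h1 : Real.exp (-(2 * kp / C)) ≤ Real.exp (-(kp / (C + 1))) := by
    apply Real.exp_le_exp.2
    have : kp / (C + 1) ≤ 2 * kp / C :=
      div_le_div₀ (by linarith) (by linarith) (by linarith) (by linarith)
    linarith
  have h2 : Real.exp (-kp) ≤ Real.exp (-(kp / (C + 1))) := by
    apply Real.exp_le_exp.2
    have : kp / (C + 1) ≤ kp := div_le_self hkp (by linarith)
    linarith
  have h3 := mul_le_mul_of_nonneg_left h1 (by linarith : 0 ≤ C)
  linarith

/-- The conclusion of module A, for `kp ≥ K'`. -/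
theorem A_main' : ∃ C K : ℝ, 1 ≤ C ∧ 1 ≤ K ∧ ∀ K' : ℝ, ∃ N0 : ℕ, ∀ N : ℕ, N0 ≤ N → ∀ kp : ℝ,
    K ≤ kp → K' ≤ kp → kp ≤ (Real.log (Real.log N)) ^ 2 → ∃ Q H : ℕ, N ≤ H * Q ^ 8 ∧ H * Q ^ 8 ≤ 2 * N ∧
    RegP K' Q (H * Q ^ 8) ∧ Real.log N ≤ C * kp * Real.log Q ∧
    (Mdl Q (H * Q ^ 8) 1 (C * Real.exp (-(kp / C))) p0 (fun _ => 0) ∨
      ∃ (r : ℕ) (_ : NeZero r) (ψ : DirichletCharacter ℂ r) (β η : ℝ), ψ.IsPrimitive ∧ ψ ≠ 1 ∧
        ψ ^ 2 = 1 ∧ 1 / 2 ≤ β ∧ β < 1 ∧ ψ.LFunction (β : ℂ) = 0 ∧ (1 - β) / 2 ≤ η ∧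
        Mdl Q (H * Q ^ 8) η (C * Real.exp (-(kp / C))) ⟨r, ψ⟩ (fun m => (m : ℝ) ^ (β - 1))) := by
  obtain ⟨c1, K, C, hc1, hc11, hK1, hC1, hlev⟩ := mdl_level
  refine ⟨C + 1 + 800, K + 4, by linarith, by linarith, fun K' => ?_⟩
  have ha := abs_nonneg K'
  have hle := le_abs_self K'
  obtain ⟨M, hM⟩ : ∃ M, M = 3200 * (|K'| + K + 2) := ⟨_, rfl⟩
  obtain ⟨L0, hL01, hL0⟩ := a6_ev M
  obtain ⟨N0, hN0⟩ : ∃ N0 : ℕ, Real.exp L0 ≤ N0 := ⟨_, Nat.le_ceil _⟩
  refine ⟨N0, fun N hN kp hkp hkp' hkpl => ?_⟩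
  have hNr : Real.exp L0 ≤ (N : ℝ) := hN0.trans (by exact_mod_cast hN)
  have hNpos : (0 : ℝ) < N := lt_of_lt_of_le (Real.exp_pos _) hNr
  have hNp : 0 < N := by exact_mod_cast hNpos
  obtain ⟨L, hL⟩ : ∃ L, L = Real.log N := ⟨_, rfl⟩
  have hLL0 : L0 ≤ L := by rw [hL, Real.le_log_iff_exp_le hNpos]; exact hNr
  obtain ⟨l, hl⟩ : ∃ l, l = Real.log L := ⟨_, rfl⟩
  obtain ⟨e1, e2⟩ := hL0 L hLL0
  rw [← hl] at e1 e2
  rw [← hL, ← hl] at hkpl
  have hM9 : 9600 ≤ M := by rw [hM]; linarith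
  have hl1 : 9600 ≤ l := by linarith
  have hL0' : 0 < L := by linarith
  have hkp0 : 0 < kp := by linarith
  have hl2 : kp ≤ (l + 1) ^ 2 := hkpl.trans (by nlinarith)
  have hl4 : (l + 1) ^ 2 * (l + 1) ^ 2 = (l + 1) ^ 4 := by ring
  have hl12 : 1 ≤ (l + 1) ^ 2 := one_le_pow₀ (by linarith)
  have hl1s : l + 1 ≤ (l + 1) ^ 2 := by nlinarith
  -- `q = L/(2 kp)` is large
  obtain ⟨q, hq⟩ : ∃ q, q = L / (2 * kp) := ⟨_, rfl⟩
  have hkq : kp * q = L / 2 := by rw [hq]; field_simp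
  have hqbig : 1600 * (|K'| + K + 2) * (l + 1) ≤ q := by
    rw [hq, le_div_iff₀ (by linarith)]
    have h1 : (l + 1) * kp ≤ (l + 1) ^ 4 := by
      rw [← hl4]
      exact mul_le_mul hl1s hl2 hkp0.le (by positivity)
    have h2 : M * ((l + 1) * kp) ≤ M * (l + 1) ^ 4 := mul_le_mul_of_nonneg_left h1 (by linarith)
    have h3 : 1600 * (|K'| + K + 2) * (l + 1) * (2 * kp) = M * ((l + 1) * kp) := by
      rw [hM]; ring
    rw [h3]
    linarith
  have hqkp : 1600 * kp ≤ q := by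
    rw [hq, le_div_iff₀ (by linarith)]
    have h1 : kp * kp ≤ (l + 1) ^ 4 := by
      rw [← hl4]
      exact mul_le_mul hl2 hl2 hkp0.le (by positivity)
    have h2 : 9600 * (kp * kp) ≤ M * (l + 1) ^ 4 :=
      mul_le_mul hM9 h1 (by positivity) (by linarith)
    have h3 : 1600 * kp * (2 * kp) = 3200 * (kp * kp) := by ring
    have h4 : 0 ≤ kp * kp := by positivity
    linarith
  have hK'l : 0 ≤ |K'| * l := mul_nonneg ha (by linarith)
  have hKl : 0 ≤ K * l := mul_nonneg (by linarith) (by linarith)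
  -- `Q₁`
  obtain ⟨Q1, hQ1⟩ : ∃ Q1, Q1 = ⌊Real.exp q⌋₊ := ⟨_, rfl⟩
  have hq1 : 1 ≤ q := by linarith
  have hexpq : Real.exp 1 ≤ Real.exp q := Real.exp_le_exp.2 hq1
  have he2 : (2 : ℝ) ≤ Real.exp 1 := by linarith [Real.exp_one_gt_d9]
  have hQ1le : (Q1 : ℝ) ≤ Real.exp q := by rw [hQ1]; exact Nat.floor_le (Real.exp_pos q).le
  have hQ1ge : Real.exp q / 2 ≤ (Q1 : ℝ) := by
    have h1 := Nat.lt_floor_add_one (Real.exp q)
    rw [← hQ1] at h1
    linarith
  have hQ1pos : (0 : ℝ) < Q1 := by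
    have := Real.exp_pos q
    linarith
  have hlQ1le : Real.log Q1 ≤ q := by
    rw [Real.log_le_iff_le_exp hQ1pos]; exact hQ1le
  have hlQ1ge : q - 1 ≤ Real.log Q1 := by
    rw [Real.le_log_iff_exp_le hQ1pos]
    refine le_trans ?_ hQ1ge
    rw [Real.exp_sub, div_le_div_iff₀ (Real.exp_pos 1) (by norm_num)]
    have := mul_le_mul_of_nonneg_left he2 (Real.exp_pos q).le
    linarith
  have hexpand : 1600 * (|K'| + K + 2) * (l + 1) =
      1600 * (|K'| * l) + 1600 * (K * l) + 3200 * l + 1600 * (|K'| + K + 2) := by ring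
  rw [hexpand] at hqbig
  obtain ⟨Q, hQQ1, hQlog, hcase⟩ := hlev Q1 (by linarith)
  have hQpos : (0 : ℝ) < Q := by
    have h1 : Q ≠ 0 := by
      rintro rfl
      rw [Nat.cast_zero, Real.log_zero] at hQlog
      linarith
    exact_mod_cast Nat.pos_of_ne_zero h1
  have hQp : 0 < Q := by exact_mod_cast hQpos
  have hlQle : Real.log Q ≤ q := by
    refine le_trans (Real.log_le_log hQpos ?_) hlQ1le
    exact_mod_cast hQQ1
  have hlQge : q / 400 ≤ Real.log Q := by linarith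
  -- the length
  obtain ⟨H, hH⟩ : ∃ H, H = N / Q ^ 8 + 1 := ⟨_, rfl⟩
  have hQ8 : Q ^ 8 ≤ N := by
    have h1 : ((Q : ℝ)) ^ 8 ≤ N := by
      rw [← Real.log_le_log_iff (by positivity) hNpos, Real.log_pow]
      push_cast
      have h2 : 8 * q ≤ L := by
        have h3 : 4 * q ≤ kp * q := mul_le_mul_of_nonneg_right (by linarith) (by linarith)
        linarith
      rw [← hL]
      linarith
    exact_mod_cast h1
  have hQ8p : 0 < Q ^ 8 := by positivity
  have hX1 : N ≤ H * Q ^ 8 := by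
    rw [hH]
    have h1 := Nat.div_add_mod N (Q ^ 8)
    have h2 := Nat.mod_lt N hQ8p
    nlinarith
  have hX2 : H * Q ^ 8 ≤ 2 * N := by
    rw [hH]
    have h1 := Nat.div_mul_le_self N (Q ^ 8)
    rw [add_mul, one_mul]
    omega
  obtain ⟨X, hX⟩ : ∃ X, X = H * Q ^ 8 := ⟨_, rfl⟩
  rw [← hX] at hX1 hX2
  have hXpos : (0 : ℝ) < X := by
    have : 0 < X := by omega
    exact_mod_cast this
  have hlX1 : L ≤ Real.log X := by
    rw [hL]
    exact Real.log_le_log hNpos (by exact_mod_cast hX1)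
  have hlX2 : Real.log X ≤ L + 1 := by
    have h1 : Real.log X ≤ Real.log (2 * N) := Real.log_le_log hXpos (by exact_mod_cast hX2)
    rw [Real.log_mul (by norm_num) hNpos.ne', ← hL] at h1
    linarith [Real.log_two_lt_d9]
  have hllX1 : l ≤ Real.log (Real.log X) := by
    rw [hl]; exact Real.log_le_log hL0' hlX1
  have hllX2 : Real.log (Real.log X) ≤ l + 1 := by
    have h1 : Real.log (Real.log X) ≤ Real.log (2 * L) :=
      Real.log_le_log (by linarith) (by linarith)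
    rw [Real.log_mul (by norm_num) hL0'.ne', ← hl] at h1
    linarith [Real.log_two_lt_d9]
  have hK'll : K' * Real.log (Real.log X) ≤ |K'| * (l + 1) := by
    calc K' * Real.log (Real.log X) ≤ |K'| * Real.log (Real.log X) :=
          mul_le_mul_of_nonneg_right hle (by linarith)
      _ ≤ _ := mul_le_mul_of_nonneg_left hllX2 ha
  have hKll : K * Real.log (Real.log X) ≤ K * (l + 1) :=
    mul_le_mul_of_nonneg_left hllX2 (by linarith)
  have hkL : 2 * kp * Real.log Q ≤ Real.log X := by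
    have h1 : kp * Real.log Q ≤ kp * q := mul_le_mul_of_nonneg_left hlQle hkp0.le
    linarith
  have hkL0 : 0 ≤ kp * Real.log Q := mul_nonneg hkp0.le (by linarith)
  have hregK' : RegP K' Q X := by
    refine ⟨by linarith, by linarith, ?_⟩
    have h1 : K' * Real.log Q ≤ kp * Real.log Q :=
      mul_le_mul_of_nonneg_right hkp' (by linarith)
    linarith
  have hregK : RegP K Q X := by
    refine ⟨by linarith, by linarith, ?_⟩
    have h1 : K * Real.log Q ≤ kp * Real.log Q :=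
      mul_le_mul_of_nonneg_right (by linarith) (by linarith)
    linarith
  have hNC : Real.log N ≤ (C + 1 + 800) * kp * Real.log Q := by
    rw [← hL]
    have h1 : kp * q ≤ kp * (400 * Real.log Q) := mul_le_mul_of_nonneg_left (by linarith) hkp0.le
    have h2 : 800 * (kp * Real.log Q) ≤ (C + 1 + 800) * (kp * Real.log Q) :=
      mul_le_mul_of_nonneg_right (by linarith) hkL0
    linarith
  have hQ4 : (Q : ℝ) ^ (-(1 / 4) : ℝ) ≤ Real.exp (-kp) := by
    rw [Real.rpow_def_of_pos hQpos]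
    apply Real.exp_le_exp.2
    linarith
  have hE : C * Real.exp (-(2 * kp / C)) + (Q : ℝ) ^ (-(1 / 4) : ℝ) ≤
      (C + 1 + 800) * Real.exp (-(kp / (C + 1 + 800))) := by
    refine (a7_err hC1 hkp0.le hQ4).trans ?_
    have h1 : Real.exp (-(kp / (C + 1))) ≤ Real.exp (-(kp / (C + 1 + 800))) := by
      apply Real.exp_le_exp.2
      have : kp / (C + 1 + 800) ≤ kp / (C + 1) :=
        div_le_div_of_nonneg_left hkp0.le (by linarith) (by linarith)
      linarith
    exact mul_le_mul (by linarith) h1 (Real.exp_pos _).le (by linarith)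
  have hmono : ∀ (η E E' : ℝ) (px : Ch) (th : ℤ → ℝ), E ≤ E' → Mdl Q X η E px th →
      Mdl Q X η E' px th := by
    intro η E E' px th hE h
    refine ⟨h.eta_pos, h.eta_le, h.mem, h.real, h.cond, h.triv, h.nonneg, h.le, h.slow, ?_⟩
    obtain ⟨e, eb, h1, h2, h3⟩ := h.lev
    exact ⟨e, eb, h1, h2.trans (mul_le_mul_of_nonneg_left hE h.eta_pos.le), h3⟩
  refine ⟨Q, H, ?_, ?_, ?_, hNC, ?_⟩
  · rw [← hX]; exact hX1
  · rw [← hX]; exact hX2
  · rw [← hX]; exact hregK'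
  rw [← hX]
  rcases hcase with hg | ⟨r, hr, ψ, β, hz, he⟩
  · left
    exact hmono _ _ _ _ _ hE (hg (2 * kp) (by linarith) X hregK hkL)
  · right
    obtain ⟨h1, h2⟩ := he (2 * kp) (by linarith) X hregK hkL
    have hβ := hz.lt
    have hlQ2 : 2 ≤ Real.log Q := by linarith
    have hsm := hz.small
    refine ⟨r, hr, ψ, β, 1 - (X : ℝ) ^ (β - 1), hz.prim, hz.ne, hz.sq, ?_, hβ, hz.zero, ?_,
      hmono _ _ _ _ _ hE h2⟩
    · by_contra hcon
      have h3 : (1 / 2 : ℝ) ≤ 1 - β := by linarith [not_le.1 hcon]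
      have h4 : (1 / 2 : ℝ) * 2 ≤ (1 - β) * Real.log Q :=
        mul_le_mul h3 hlQ2 (by norm_num) (by linarith)
      linarith
    · have h3 : (1 - β) * 1 ≤ (1 - β) * Real.log Q :=
        mul_le_mul_of_nonneg_left (by linarith) (by linarith)
      linarith

/-- The conclusion of module A for good levels.

Proof. Good level `Q` (`good_levels`), `T = A log log Q log Q`, `H = ⌊exp T⌋`, `N = H Q^8`. -/
theorem A_good : AGood := by
  obtain ⟨c, hc, hgl⟩ := good_levels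
  obtain ⟨K, C, hK1, hC1, hmg⟩ := mdl_good c hc
  obtain ⟨A, hA⟩ : ∃ A, A = 8 * C + K := ⟨_, rfl⟩
  refine ⟨A + 9, by linarith, fun K' N0 => ?_⟩
  have ha := abs_nonneg K'
  have hle := le_abs_self K'
  obtain ⟨M, hM⟩ : ∃ M, M = 100 * (|K'| + A + 10) := ⟨_, rfl⟩
  have hM1000 : 1000 ≤ M := by rw [hM]; linarith
  obtain ⟨L0, hL01, hL0⟩ := a6_ev M
  obtain ⟨Q, hQ0, hG⟩ := hgl (⌈Real.exp L0⌉₊ + N0 + 2)
  have hQr : Real.exp L0 ≤ (Q : ℝ) := by
    have h1 := Nat.le_ceil (Real.exp L0)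
    have h2 : ((⌈Real.exp L0⌉₊ : ℕ) : ℝ) ≤ Q := by exact_mod_cast (by omega)
    linarith
  have hQpos : (0 : ℝ) < Q := lt_of_lt_of_le (Real.exp_pos _) hQr
  obtain ⟨g, hg⟩ : ∃ g, g = Real.log Q := ⟨_, rfl⟩
  have hgL0 : L0 ≤ g := by rw [hg, Real.le_log_iff_exp_le hQpos]; exact hQr
  obtain ⟨l, hl⟩ : ∃ l, l = Real.log g := ⟨_, rfl⟩
  obtain ⟨e1, e2⟩ := hL0 g hgL0
  rw [← hl] at e1 e2
  have hg0 : 0 < g := by linarith
  have hl0 : 1000 ≤ l := by linarith
  have hl41 : l + 1 ≤ (l + 1) ^ 4 := by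
    calc l + 1 = (l + 1) ^ 1 := (pow_one _).symm
      _ ≤ (l + 1) ^ 4 := pow_le_pow_right₀ (by linarith) (by norm_num)
  have hgM : M * (l + 1) ≤ g := (mul_le_mul_of_nonneg_left hl41 (by linarith)).trans e1
  have hexpand : M * (l + 1) = 100 * (|K'| * l) + 100 * (A * l) + 1000 * l + M := by rw [hM]; ring
  rw [hexpand] at hgM
  have hK'l : 0 ≤ |K'| * l := mul_nonneg ha (by linarith)
  have hAl : 0 ≤ A * l := mul_nonneg (by linarith) (by linarith)
  have hA9 : 9 ≤ A := by linarith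
  obtain ⟨T, hT⟩ : ∃ T, T = A * l * g := ⟨_, rfl⟩
  have hTg : 1000 * g ≤ T := by
    rw [hT]
    apply mul_le_mul_of_nonneg_right _ hg0.le
    have h1 : 1 * l ≤ A * l := mul_le_mul_of_nonneg_right (by linarith) (by linarith)
    linarith
  obtain ⟨H, hH⟩ : ∃ H, H = ⌊Real.exp T⌋₊ := ⟨_, rfl⟩
  have hHle : (H : ℝ) ≤ Real.exp T := by rw [hH]; exact Nat.floor_le (Real.exp_pos T).le
  have hHge : Real.exp T / 2 ≤ (H : ℝ) := by
    have h1 := Nat.lt_floor_add_one (Real.exp T)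
    rw [← hH] at h1
    have h2 : (2 : ℝ) ≤ Real.exp T := by
      have := Real.add_one_le_exp T
      linarith
    linarith
  have hHpos : (0 : ℝ) < H := by
    have := Real.exp_pos T
    linarith
  have hHp : 0 < H := by exact_mod_cast hHpos
  obtain ⟨N, hN⟩ : ∃ N, N = H * Q ^ 8 := ⟨_, rfl⟩
  have hQ2 : 2 ≤ Q := by omega
  have hQN : Q ≤ N := by
    rw [hN]
    calc Q = 1 * Q ^ 1 := by ring
      _ ≤ H * Q ^ 8 := Nat.mul_le_mul hHp (Nat.pow_le_pow_right (by omega) (by norm_num))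
  have hNr : (N : ℝ) = H * (Q : ℝ) ^ 8 := by rw [hN]; push_cast; ring
  have hNpos : (0 : ℝ) < N := by rw [hNr]; positivity
  obtain ⟨L, hL⟩ : ∃ L, L = Real.log N := ⟨_, rfl⟩
  have hL1 : T ≤ L := by
    rw [hL, Real.le_log_iff_exp_le hNpos, hNr]
    have h1 : (2 : ℝ) ≤ (Q : ℝ) ^ 8 := by
      have h2 : (2 : ℝ) ≤ Q := by exact_mod_cast hQ2
      calc (2 : ℝ) = 2 ^ 1 := by norm_num
        _ ≤ 2 ^ 8 := by norm_num
        _ ≤ (Q : ℝ) ^ 8 := pow_le_pow_left₀ (by norm_num) h2 8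
    calc Real.exp T = Real.exp T / 2 * 2 := by ring
      _ ≤ (H : ℝ) * (Q : ℝ) ^ 8 := mul_le_mul hHge h1 (by norm_num) hHpos.le
  have hL2 : L ≤ T + 8 * g := by
    rw [hL, hNr, Real.log_mul hHpos.ne' (by positivity), Real.log_pow, ← hg]
    have h1 : Real.log H ≤ T := by rw [Real.log_le_iff_le_exp hHpos]; exact hHle
    push_cast
    linarith
  have hgL : g ≤ L := by linarith
  have hL0' : 0 < L := by linarith
  have hllN1 : l ≤ Real.log L := by rw [hl]; exact Real.log_le_log hg0 hgL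
  have hLg2 : L ≤ g ^ 2 := by
    have h1 : T + 8 * g = (A * l + 8) * g := by rw [hT]; ring
    have h2 : (A * l + 8) * g ≤ g * g := mul_le_mul_of_nonneg_right (by linarith) hg0.le
    rw [pow_two]
    linarith
  have hllN2 : Real.log L ≤ 2 * l := by
    have h1 : Real.log L ≤ Real.log (g ^ 2) := Real.log_le_log hL0' hLg2
    rw [Real.log_pow, ← hl] at h1
    push_cast at h1
    exact h1
  have hK'll : K' * Real.log L ≤ 2 * (|K'| * l) := by
    calc K' * Real.log L ≤ |K'| * Real.log L := mul_le_mul_of_nonneg_right hle (by linarith)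
      _ ≤ |K'| * (2 * l) := mul_le_mul_of_nonneg_left hllN2 ha
      _ = _ := by ring
  have hreg : ∀ K'' : ℝ, K'' ≤ |K'| + A → RegP K'' Q N := by
    intro K'' hK''
    have hs : 0 ≤ |K'| + A := by linarith
    refine ⟨?_, ?_, ?_⟩
    · rw [← hL]; linarith
    · rw [← hL, ← hg]
      have h1 : K'' * Real.log L ≤ (|K'| + A) * Real.log L :=
        mul_le_mul_of_nonneg_right hK'' (by linarith)
      have h2 : (|K'| + A) * Real.log L ≤ (|K'| + A) * (2 * l) :=
        mul_le_mul_of_nonneg_left hllN2 hs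
      have h3 : (|K'| + A) * (2 * l) = 2 * (|K'| * l) + 2 * (A * l) := by ring
      linarith
    · rw [← hL, ← hg]
      have h1 : K'' ≤ A * l := by
        have h2 : A * 2 ≤ A * l := mul_le_mul_of_nonneg_left (by linarith) (by linarith)
        have h3 : 9 * l ≤ A * l := mul_le_mul_of_nonneg_right hA9 (by linarith)
        linarith
      have h2 : K'' * g ≤ A * l * g := mul_le_mul_of_nonneg_right h1 hg0.le
      linarith
  have hA1 : 1 ≤ A := by linarith
  -- the model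
  have hmdl := hmg (A * l) (by
      have : A * 1 ≤ A * l := mul_le_mul_of_nonneg_left (by linarith) (by linarith)
      linarith) Q N (hreg K (by linarith)) (by rw [← hg, ← hL, ← hT]; exact hL1) hG
  have herr : C * Real.exp (-(A * l / C)) + (Q : ℝ) ^ (-(1 / 4) : ℝ) ≤
      (Real.log N) ^ (-(2 : ℝ)) := by
    rw [← hL]
    have h1 : Real.exp (-(4 * l)) ≤ L ^ (-(2 : ℝ)) := by
      rw [Real.rpow_def_of_pos hL0']
      apply Real.exp_le_exp.2
      linarith
    have h2 : C * Real.exp (-(A * l / C)) ≤ 1 / 2 * Real.exp (-(4 * l)) := by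
      have h3 : Real.exp (-(A * l / C)) ≤ Real.exp (-(8 * l)) := by
        apply Real.exp_le_exp.2
        have h4 : 8 * l ≤ A * l / C := by
          rw [le_div_iff₀ (by linarith)]
          have : 8 * C * l ≤ A * l := mul_le_mul_of_nonneg_right (by linarith) (by linarith)
          linarith
        linarith
      have h5 : Real.exp (-(8 * l)) = Real.exp (-(4 * l)) * Real.exp (-(4 * l)) := by
        rw [← Real.exp_add]; ring_nf
      have h6 : C * Real.exp (-(4 * l)) ≤ 1 / 2 := by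
        have h7 : 2 * C ≤ Real.exp (4 * l) := by
          have := Real.add_one_le_exp (4 * l)
          have h8 : 2 * C ≤ l := by linarith
          linarith
        rw [Real.exp_neg, ← div_eq_mul_inv, div_le_iff₀ (Real.exp_pos _)]
        linarith
      calc C * Real.exp (-(A * l / C)) ≤ C * Real.exp (-(8 * l)) :=
            mul_le_mul_of_nonneg_left h3 (by linarith)
        _ = (C * Real.exp (-(4 * l))) * Real.exp (-(4 * l)) := by rw [h5]; ring
        _ ≤ 1 / 2 * Real.exp (-(4 * l)) := mul_le_mul_of_nonneg_right h6 (Real.exp_pos _).le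
    have h3 : (Q : ℝ) ^ (-(1 / 4) : ℝ) ≤ 1 / 2 * Real.exp (-(4 * l)) := by
      rw [Real.rpow_def_of_pos hQpos, ← hg]
      have h4 : Real.exp (g * -(1 / 4)) ≤ Real.exp (-1 + -(4 * l)) := by
        apply Real.exp_le_exp.2
        linarith
      rw [Real.exp_add] at h4
      have h5 : Real.exp (-1) ≤ 1 / 2 := by
        rw [Real.exp_neg, ← one_div]
        exact one_div_le_one_div_of_le (by norm_num) (by linarith [Real.exp_one_gt_d9])
      exact h4.trans (mul_le_mul_of_nonneg_right h5 (Real.exp_pos _).le)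
    linarith
  refine ⟨N, by omega, Q, H, by rw [hN], by rw [hN]; omega, by rw [← hN]; exact hreg K' (by linarith),
    ?_, ?_⟩
  · rw [← hL, ← hg]
    have h1 : T + 8 * g = (A * l + 8) * g := by rw [hT]; ring
    have h2 : (A * l + 8) * g ≤ (A + 9) * Real.log L * g := by
      apply mul_le_mul_of_nonneg_right _ hg0.le
      have h3 : (A + 9) * l ≤ (A + 9) * Real.log L := mul_le_mul_of_nonneg_left hllN1 (by linarith)
      linarith
    linarith
  · rw [← hN]
    refine ⟨hmdl.eta_pos, hmdl.eta_le, hmdl.mem, hmdl.real, hmdl.cond, hmdl.triv, hmdl.nonneg,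
      hmdl.le, hmdl.slow, ?_⟩
    obtain ⟨e, eb, h1, h2, h3⟩ := hmdl.lev
    exact ⟨e, eb, h1, h2.trans (mul_le_mul_of_nonneg_left herr zero_le_one), h3⟩

theorem A_main : AMain := A_main'

end Pool.Agent.Lib.H59P
end
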