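import Pool.Agent.Lib.H59M.M1.M006
import Pool.Agent.Lib.H59M.M1.M038
import Pool.Agent.Lib.H59M.M1.M040
import Pool.Agent.Lib.H59M.M1.M050
import Pool.Agent.Lib.H59M.M1.M051
import Pool.Agent.Lib.H59M.M1.M052
import Pool.Agent.Lib.H59M.M1.M055
import Pool.Agent.Lib.H59M.M1.M072

/-! Merged copies (to shorten the build) of Lib.H81A.SM, Lib.H81A.Final, Lib.H37T.A4, Lib.H44W.M8, Lib.H37T.A5, Lib.H37T.A6. -/

-- from Lib.H81A.SM
section

/-!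
# H81A, chunk SM (M): one term of Heath-Brown's identity
-/

namespace Pool.Agent.Lib.H81A

open Finset ArithmeticFunction

/-- The factors of the `j`-th term. -/
noncomputable def sm_G (z j : ℕ) : Fin (j + 1) ⊕ (Fin j ⊕ Unit) → ArithmeticFunction ℝ :=
  Sum.elim (fun _ => muV z) (Sum.elim (fun _ => one1) (fun _ => logf))

theorem sm_prod (z j : ℕ) : ∏ i, sm_G z j i = muV z ^ (j + 1) * one1 ^ j * logf := by
  rw [Fintype.prod_sum_type, Fintype.prod_sum_type]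
  simp only [sm_G, Sum.elim_inl, Sum.elim_inr, Finset.prod_const, Finset.card_univ, Fintype.card_fin, Fintype.card_unit, pow_one]
  rw [mul_assoc]

theorem sm_bound {z j N : ℕ} {V : ℝ} (hN : 1 ≤ N) (hV : 1 ≤ V) (hVlog : Real.log N ≤ V) (i : Fin (j + 1) ⊕ (Fin j ⊕ Unit)) (n : ℕ)
    (h1 : 1 ≤ n) (h2 : n ≤ N) : |sm_G z j i n| ≤ V := by
  have hn : n ≠ 0 := by omega
  rcases i with i | i | i
  · show |muV z n| ≤ V
    unfold muV
    rw [af_apply _ hn]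
    split_ifs
    · have h3 : |((moebius n : ℤ) : ℝ)| ≤ 1 := by
        rw [← Int.cast_abs]
        exact_mod_cast abs_moebius_le_one
      exact h3.trans hV
    · rw [abs_zero]
      exact zero_le_one.trans hV
  · show |one1 n| ≤ V
    unfold one1
    rw [af_apply _ hn, abs_one]
    exact hV
  · show |logf n| ≤ V
    unfold logf
    rw [af_apply _ hn, abs_of_nonneg (Real.log_natCast_nonneg n)]
    exact (Real.log_le_log (by exact_mod_cast h1) (by exact_mod_cast h2)).trans hVlog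

theorem sm_sum {α : Type} (p : Seminorm ℝ (ℕ → ℝ)) (s : Finset α) (f : α → ℕ → ℝ) {Y : ℝ} (h : ∀ a ∈ s, p (f a) ≤ Y) :
    p (∑ a ∈ s, f a) ≤ s.card * Y := by
  classical
  induction s using Finset.induction_on with
  | empty =>
    rw [Finset.sum_empty, _root_.map_zero, Finset.card_empty, Nat.cast_zero, zero_mul]
  | insert a s ha ih =>
    rw [Finset.sum_insert ha, Finset.card_insert_of_notMem ha]
    refine (map_add_le_add p _ _).trans ?_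
    have h1 := h a (Finset.mem_insert_self a s)
    have h2 := ih fun b hb => h b (Finset.mem_insert_of_mem hb)
    push_cast
    linarith

/-- PROOF. `ι = Fin (j + 1) ⊕ (Fin j ⊕ Unit)`, `G = Sum.elim (fun _ => muV z) (Sum.elim (fun _ => one1) (fun _ => logf))`: the product is `∏ i, G i` (`Fintype.prod_sum_type`, `Finset.prod_const`). `dyadic` for `m ≤ N < 2 ^ L` (`Loc.congr`), subadditivity: the sum over
`k ∈ Fintype.piFinset (range L)`, at most `L ^ (2 j + 2) ≤ V ^ (2 J)` terms. If some `i = inl _` has `z < 2 ^ k i` then `dy (k i) (muV z) = 0` and the product is `0`; otherwise `2 ^ k i ≤ z < 2 ^ u`, `k i < u`: `box` with `r = 2 J`. `|muV| ≤ 1 ≤ V` (`abs_moebius_le_one`), `|one1| ≤ 1`, `|logf n| ≤ log N ≤ V`. -/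
theorem term {c η : ℝ} {N L u v J z : ℕ} {V : ℝ} (par : Par c η N L u v (2 * J) V) (hz : z < 2 ^ u) (p : Seminorm ℝ (ℕ → ℝ)) (hp : Loc N p)
    {X : ℝ} (h2 : H2 c η N p X) (h1 : H1 c N p X) (h3 : H3 c η N p X) {j : ℕ} (hj : j < J) :
    p (fun m => (muV z ^ (j + 1) * one1 ^ j * logf) m) ≤ V ^ (6 * J + 2) * X := by
  classical
  have hX := t1_X h1
  have hV0 : 0 ≤ V := zero_le_one.trans par.hV
  have hcard : Fintype.card (Fin (j + 1) ⊕ (Fin j ⊕ Unit)) = 2 * j + 2 := by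
    rw [Fintype.card_sum, Fintype.card_sum, Fintype.card_fin, Fintype.card_fin, Fintype.card_unit]
    omega
  have h4 : p (fun m => (muV z ^ (j + 1) * one1 ^ j * logf) m) =
      p (∑ k ∈ Fintype.piFinset (fun _ : Fin (j + 1) ⊕ (Fin j ⊕ Unit) => range L), fun m => (∏ i, dy (k i) (sm_G z j i)) m) := by
    refine hp.congr fun m _ hm => ?_
    rw [← sm_prod, dyadic _ L m (lt_of_le_of_lt hm par.hL), Finset.sum_apply]
  have hY : 0 ≤ V ^ (2 * (2 * J) + 2) * X := mul_nonneg (pow_nonneg hV0 _) hX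
  rw [h4]
  have h5 : ∀ k ∈ Fintype.piFinset (fun _ : Fin (j + 1) ⊕ (Fin j ⊕ Unit) => range L),
      p (fun m => (∏ i, dy (k i) (sm_G z j i)) m) ≤ V ^ (2 * (2 * J) + 2) * X := by
    intro k _
    by_cases hk : ∃ i : Fin (j + 1), z < 2 ^ k (Sum.inl i)
    · obtain ⟨i, hi⟩ := hk
      have h6 : dy (k (Sum.inl i)) (sm_G z j (Sum.inl i)) = 0 := by
        ext n
        rw [dy_apply, ArithmeticFunction.zero_apply]
        split_ifs with h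
        · show muV z n = 0
          have hn : n ≠ 0 := by
            have := h.1
            have h7 : 0 < 2 ^ k (Sum.inl i) := pow_pos (by norm_num) _
            omega
          unfold muV
          rw [af_apply _ hn, if_neg (by omega)]
        · rfl
      have h7 : (fun m => (∏ i, dy (k i) (sm_G z j i)) m) = 0 := by
        funext m
        rw [Finset.prod_eq_zero (Finset.mem_univ (Sum.inl i)) h6]
        rfl
      rw [h7, _root_.map_zero]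
      exact hY
    · push Not at hk
      refine box par (by rw [hcard]; omega) p hp h2 h1 h3 k (sm_G z j) (sm_bound par.hN par.hV par.hVlog) fun i => ?_
      rcases i with i | i | i
      · refine Or.inr (Or.inr ?_)
        have h6 : 2 ^ k (Sum.inl i) < 2 ^ u := lt_of_le_of_lt (hk i) hz
        exact (Nat.pow_lt_pow_iff_right (by norm_num)).1 h6
      · exact Or.inl rfl
      · exact Or.inr (Or.inl rfl)
  refine (sm_sum p _ _ h5).trans ?_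
  rw [Fintype.card_piFinset, Finset.prod_const, Finset.card_univ, hcard, Finset.card_range]
  have hL1 : (L : ℝ) ≤ V := by
    have := par.hVL
    linarith
  have h6 : ((L ^ (2 * j + 2) : ℕ) : ℝ) ≤ V ^ (2 * J) := by
    push_cast
    exact (pow_le_pow_left₀ (Nat.cast_nonneg L) hL1 _).trans (pow_le_pow_right₀ par.hV (by omega))
  calc ((L ^ (2 * j + 2) : ℕ) : ℝ) * (V ^ (2 * (2 * J) + 2) * X) ≤ V ^ (2 * J) * (V ^ (2 * (2 * J) + 2) * X) := mul_le_mul_of_nonneg_right h6 hY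
    _ = V ^ (6 * J + 2) * X := by ring

end Pool.Agent.Lib.H81A
end

-- from Lib.H81A.Final
section

/-!
# H81A, the final theorem
-/

namespace Pool.Agent.Lib.H81A

open Finset ArithmeticFunction

/-- **Module A**: Heath-Brown's identity in seminorm form. -/
theorem hb_seminorm (c η ε : ℝ) (hc : 0 < c) (hη : 0 < η) (hcη : 4 * c + 4 * η ≤ 1 / 3) (hε : 0 < ε) : ∃ N₀ : ℕ, ∀ N : ℕ, N₀ ≤ N →
    ∀ p : Seminorm ℝ (ℕ → ℝ), Loc N p → ∀ X : ℝ, H2 c η N p X → H1 c N p X → H3 c η N p X → p (fun m => vonMangoldt m) ≤ (N : ℝ) ^ ε * X := by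
  obtain ⟨J, N₀, h⟩ := params c η ε hc hη hcη hε
  refine ⟨N₀, fun N hN p hp X h2 h1 h3 => ?_⟩
  obtain ⟨L, u, v, z, V, par, hz1, hz2, hV⟩ := h N hN
  have hX : 0 ≤ X := by
    refine le_trans ?_ (h1 1 1 le_rfl (by norm_num) (fun _ => 0) (fun _ => by rw [abs_zero]; exact zero_le_one) (fun q hq => absurd rfl hq))
    exact apply_nonneg p _
  have h4 : p (fun m => vonMangoldt m) = p (∑ j ∈ range J, ((-1 : ℝ) ^ j * (J.choose (j + 1) : ℝ)) • (fun m => (muV z ^ (j + 1) * one1 ^ j * logf) m)) := by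
    refine hp.congr fun m _ hm => ?_
    rw [hb_identity z J m (lt_of_le_of_lt hm hz1), Finset.sum_apply]
    exact Finset.sum_congr rfl fun j _ => rfl
  rw [h4]
  have h5 : ∀ s : Finset ℕ, s ⊆ range J → p (∑ j ∈ s, ((-1 : ℝ) ^ j * (J.choose (j + 1) : ℝ)) • (fun m => (muV z ^ (j + 1) * one1 ^ j * logf) m)) ≤
      ∑ j ∈ s, (J.choose (j + 1) : ℝ) * (V ^ (6 * J + 2) * X) := by
    intro s
    induction s using Finset.induction_on with
    | empty =>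
      intro _
      rw [Finset.sum_empty, Finset.sum_empty, _root_.map_zero]
    | insert j s hj ih =>
      intro hs
      rw [Finset.sum_insert hj, Finset.sum_insert hj]
      refine (map_add_le_add p _ _).trans (add_le_add ?_ (ih fun i hi => hs (Finset.mem_insert_of_mem hi)))
      rw [map_smul_eq_mul, norm_mul, norm_pow, norm_neg, norm_one, one_pow, one_mul, Real.norm_natCast]
      exact mul_le_mul_of_nonneg_left (term par hz2 p hp h2 h1 h3 (Finset.mem_range.1 (hs (Finset.mem_insert_self j s)))) (Nat.cast_nonneg _)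
  refine (h5 (range J) (Finset.Subset.refl _)).trans ?_
  rw [← Finset.sum_mul]
  have h6 : (∑ j ∈ range J, (J.choose (j + 1) : ℝ)) ≤ 2 ^ J := by
    have h7 : (∑ j ∈ range J, J.choose (j + 1)) ≤ 2 ^ J := by
      rw [← Nat.sum_range_choose J, Finset.sum_range_succ' (fun i => J.choose i) J]
      exact Nat.le_add_right _ _
    exact_mod_cast h7
  have hV0 : 0 ≤ V ^ (6 * J + 2) := pow_nonneg (zero_le_one.trans par.hV) _
  calc (∑ j ∈ range J, (J.choose (j + 1) : ℝ)) * (V ^ (6 * J + 2) * X) ≤ 2 ^ J * (V ^ (6 * J + 2) * X) :=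
        mul_le_mul_of_nonneg_right h6 (mul_nonneg hV0 hX)
    _ = (2 ^ J * V ^ (6 * J + 2)) * X := by ring
    _ ≤ (N : ℝ) ^ ε * X := mul_le_mul_of_nonneg_right hV hX

end Pool.Agent.Lib.H81A
end

-- from Lib.H37T.A4
section
/-!
H37T: A + B + C + D give the inverse theorem for the von Mangoldt function.
-/
namespace Pool.Agent.H37T
open Finset Pool.Agent.H44W

theorem H1_mono {c : ℝ} {N : ℕ} {p : Seminorm ℝ (ℕ → ℝ)} {X Y : ℝ} (h : Pool.Agent.Lib.H81A.H1 c N p X) (hXY : X ≤ Y) :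
    Pool.Agent.Lib.H81A.H1 c N p Y := fun B1 B2 h1 h2 γ h3 h4 => (h B1 B2 h1 h2 γ h3 h4).trans hXY


theorem H3_mono {c η : ℝ} {N : ℕ} {p : Seminorm ℝ (ℕ → ℝ)} {X Y : ℝ} (h : Pool.Agent.Lib.H81A.H3 c η N p X) (hXY : X ≤ Y) :
    Pool.Agent.Lib.H81A.H3 c η N p Y := fun A1 A2 B1 B2 h1 h2 h3 h4 h5 h6 γ h7 h8 => (h A1 A2 B1 B2 h1 h2 h3 h4 h5 h6 γ h7 h8).trans hXY

/-- The divisor bound. -/
theorem div_bound (b : ℝ) (hb : 0 < b) : ∃ n0 : ℕ, ∀ n : ℕ, n0 ≤ n → ∀ m : ℕ, 1 ≤ m → m ≤ 2 * n → (m.divisors.card : ℝ) ≤ (n:ℝ) ^ b := by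
  obtain ⟨C, hC, hdiv⟩ := Pool.Agent.Lib.H21AP.divisor_bound (ε := b / 2) (by positivity)
  have t : ∀ᶠ n : ℕ in Filter.atTop, C * 2 ^ (b / 2) ≤ (n : ℝ) ^ (b / 2) :=
    ((tendsto_rpow_atTop (by positivity : 0 < b / 2)).comp tendsto_natCast_atTop_atTop).eventually_ge_atTop _
  obtain ⟨n0, hn0⟩ := Filter.eventually_atTop.1 t
  refine ⟨max n0 1, fun n hn m hm1 hm2 => (hdiv m hm1).trans ?_⟩
  have h1 := hn0 n (by omega)
  have hn1 : (0:ℝ) < n := by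
    have : 0 < n := by omega
    exact_mod_cast this
  have h2 : (m:ℝ) ^ (b / 2) ≤ 2 ^ (b / 2) * (n:ℝ) ^ (b / 2) := by
    rw [← Real.mul_rpow (by norm_num) hn1.le]
    refine Real.rpow_le_rpow (Nat.cast_nonneg m) ?_ (by positivity)
    exact_mod_cast hm2
  calc C * (m:ℝ) ^ (b / 2) ≤ C * (2 ^ (b / 2) * (n:ℝ) ^ (b / 2)) := mul_le_mul_of_nonneg_left h2 hC.le
    _ = (C * 2 ^ (b / 2)) * (n:ℝ) ^ (b / 2) := by ring
    _ ≤ (n:ℝ) ^ (b / 2) * (n:ℝ) ^ (b / 2) := mul_le_mul_of_nonneg_right h1 (Real.rpow_nonneg hn1.le _)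
    _ = (n:ℝ) ^ b := by
      rw [← Real.rpow_add hn1]
      congr 1
      ring

/-- The inverse theorem for the von Mangoldt function (the same proposition as in `H9S`). -/
def INV : Prop :=
  ∀ c1 : ℝ, 0 < c1 → ∃ c2 : ℝ, 0 < c2 ∧ ∃ n0 : ℕ, ∀ n : ℕ, n0 ≤ n → ∀ W f g : ℤ → ℂ,
    (∀ x, ‖W x‖ ≤ 1) → (∀ x, ‖f x‖ ≤ 1) → (∀ x, ‖g x‖ ≤ 1) →
    (∀ th : ℝ, ‖∑ z ∈ Icc (1:ℤ) n, g z * ee (th * z)‖ ≤ (n:ℝ) ^ (1 - c1)) →
    ‖TF n (fun m => ((ArithmeticFunction.vonMangoldt m.toNat : ℝ) : ℂ)) W f g‖ ≤ (n:ℝ) ^ (2 - c2)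

theorem inv_of (hB : ∃ C : ℕ, ClassTwo C)
    (hD : ∃ et0 : ℝ, 0 < et0 ∧ ∃ C n0 : ℕ, DOut et0 C n0) : INV := by
  intro c0 hc0
  obtain ⟨et0, het0, CD, nD, hDO⟩ := hD
  set c1 : ℝ := min c0 1 with hc1d
  have hc1 : 0 < c1 := lt_min hc0 one_pos
  have hc1' : c1 ≤ 1 := min_le_right _ _
  have hc1'' : c1 ≤ c0 := min_le_left _ _
  set η : ℝ := min et0 (1 / 24) with hηd
  have hη : 0 < η := lt_min het0 (by norm_num)
  have hη1 : η ≤ et0 := min_le_left _ _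
  have hη2 : η ≤ 1 / 24 := min_le_right _ _
  obtain ⟨CB, hCB⟩ := hB
  obtain ⟨nB, hnB⟩ := h2_of η hη CB hCB
  set d : ℝ := c1 / (2 * ((CD : ℝ) + 1)) with hdd
  have hCD0 : (0:ℝ) ≤ CD := Nat.cast_nonneg _
  have hCB0 : (0:ℝ) ≤ CB := Nat.cast_nonneg _
  have hd : 0 < d := by positivity
  have hd1 : d * (2 * ((CD : ℝ) + 1)) = c1 := div_mul_cancel₀ _ (by positivity)
  have hdC : d * CD < c1 := by nlinarith
  have hd2 : d ≤ c1 / 2 := by nlinarith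
  set c : ℝ := min (d / 12) η with hcd
  have hc : 0 < c := lt_min (by positivity) hη
  have hc12 : c ≤ d / 12 := min_le_left _ _
  have hcη : c ≤ η := min_le_right _ _
  have hc24 : c ≤ 1 / 24 := by linarith
  set b : ℝ := c / (2 * ((CB : ℝ) + 1)) with hbd
  have hb : 0 < b := by positivity
  have hb1 : b * (2 * ((CB : ℝ) + 1)) = c := div_mul_cancel₀ _ (by positivity)
  have hbC : b * CB < c := by nlinarith
  have hb2 : b ≤ c / 2 := by nlinarith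
  obtain ⟨nA, hnA⟩ := Pool.Agent.Lib.H81A.hb_seminorm c η (b / 4) hc hη (by linarith) (by positivity)
  -- large n
  have t1 : ∀ᶠ n : ℕ in Filter.atTop, (2 : ℝ) ≤ (n : ℝ) ^ b :=
    ((tendsto_rpow_atTop hb).comp tendsto_natCast_atTop_atTop).eventually_ge_atTop 2
  have t2 : ∀ᶠ n : ℕ in Filter.atTop, (4 : ℝ) ≤ (n : ℝ) ^ (b / 4) :=
    ((tendsto_rpow_atTop (by positivity : 0 < b / 4)).comp tendsto_natCast_atTop_atTop).eventually_ge_atTop 4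
  have t3 : ∀ᶠ n : ℕ in Filter.atTop, (1 + Real.log n) ^ 10 ≤ (n : ℝ) ^ d := by
    have h1 : ∀ᶠ x : ℝ in Filter.atTop, 1 + Real.log x ≤ x ^ (d / 10) := by
      have h2 := (isLittleO_log_rpow_atTop (by positivity : 0 < d / 10)).def (by norm_num : (0:ℝ) < 1 / 2)
      have h3 : ∀ᶠ x : ℝ in Filter.atTop, (2 : ℝ) ≤ x ^ (d / 10) := (tendsto_rpow_atTop (by positivity : 0 < d / 10)).eventually_ge_atTop 2
      filter_upwards [h2, h3, Filter.eventually_ge_atTop (1:ℝ)] with x h4 h5 h6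
      rw [Real.norm_of_nonneg (Real.log_nonneg h6), Real.norm_of_nonneg (Real.rpow_nonneg (by linarith) _)] at h4
      linarith
    filter_upwards [tendsto_natCast_atTop_atTop.eventually h1, Filter.eventually_ge_atTop 1] with n h4 h5
    have h6 : (0:ℝ) ≤ n := Nat.cast_nonneg n
    have h7 : (n : ℝ) ^ d = ((n : ℝ) ^ (d / 10)) ^ 10 := by
      rw [← Real.rpow_natCast, ← Real.rpow_mul h6]
      congr 1
      push_cast
      ring
    rw [h7]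
    have h8 : 0 ≤ Real.log n := Real.log_natCast_nonneg n
    exact pow_le_pow_left₀ (by linarith) h4 10
  have t4 : ∀ᶠ n : ℕ in Filter.atTop, 5 * (1 + Real.log n) ≤ (n : ℝ) ^ (c1 / 3) := by
    have h1 : ∀ᶠ x : ℝ in Filter.atTop, 5 * (1 + Real.log x) ≤ x ^ (c1 / 3) := by
      have h2 := (isLittleO_log_rpow_atTop (by positivity : 0 < c1 / 3)).def (by norm_num : (0:ℝ) < 1 / 10)
      have h3 : ∀ᶠ x : ℝ in Filter.atTop, (10 : ℝ) ≤ x ^ (c1 / 3) := (tendsto_rpow_atTop (by positivity : 0 < c1 / 3)).eventually_ge_atTop 10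
      filter_upwards [h2, h3, Filter.eventually_ge_atTop (1:ℝ)] with x h4 h5 h6
      rw [Real.norm_of_nonneg (Real.log_nonneg h6), Real.norm_of_nonneg (Real.rpow_nonneg (by linarith) _)] at h4
      linarith
    exact tendsto_natCast_atTop_atTop.eventually h1
  obtain ⟨nT, hnT⟩ := Filter.eventually_atTop.1 (t1.and (t2.and (t3.and t4)))
  obtain ⟨nV, hnV⟩ := div_bound b hb
  refine ⟨b / 4, by positivity, max (max nA nB) (max (max nD nT) (max nV 2)), fun n hn W f g hW hf hg hth => ?_⟩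
  have hnA' : nA ≤ 2 * n := by omega
  have hnB' : nB ≤ n := by omega
  have hnD' : nD ≤ n := by omega
  have hn2 : 2 ≤ n := by omega
  obtain ⟨u1, u2, u3, u4⟩ := hnT n (by omega)
  have hdvb := hnV n (by omega)
  have hnR : (2:ℝ) ≤ n := by exact_mod_cast hn2
  have hn0 : (0:ℝ) < n := by linarith
  have hn1 : (1:ℝ) ≤ n := by linarith
  have hlog : 0 ≤ Real.log n := Real.log_natCast_nonneg n
  have hth1 : ∀ th : ℝ, ‖∑ z ∈ Icc (1:ℤ) n, g z * ee (th * z)‖ ≤ (n:ℝ) ^ (1 - c1) := fun th =>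
    (hth th).trans (Real.rpow_le_rpow_of_exponent_le hn1 (by linarith))
  have hlt : ∀ e : ℝ, ∀ C : ℕ, e * C < c1 → ∀ th : ℝ, ‖∑ z ∈ Icc (1:ℤ) n, g z * ee (th * z)‖ < (n:ℝ) / ((n:ℝ) ^ e) ^ C := by
    intro e C he th
    refine lt_of_le_of_lt (hth1 th) ?_
    have h1 : (n:ℝ) / ((n:ℝ) ^ e) ^ C = (n:ℝ) ^ (1 - e * C) := by
      rw [← Real.rpow_natCast, ← Real.rpow_mul hn0.le, Real.rpow_sub hn0, Real.rpow_one]
    rw [h1]
    exact Real.rpow_lt_rpow_of_exponent_lt (by linarith) (by linarith)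
  have h2n : ∀ e : ℝ, 0 ≤ e → ((2 * n : ℕ) : ℝ) ^ e ≤ (n:ℝ) ^ (2 * e) := by
    intro e he
    rw [Real.rpow_mul hn0.le]
    refine Real.rpow_le_rpow (Nat.cast_nonneg _) ?_ he
    push_cast
    rw [Real.rpow_two]
    nlinarith
  have hn2n : ∀ e : ℝ, 0 ≤ e → (n:ℝ) ^ e ≤ ((2 * n : ℕ) : ℝ) ^ e := by
    intro e he
    refine Real.rpow_le_rpow hn0.le ?_ he
    push_cast
    linarith
  have hdiv : ∀ e : ℝ, (n:ℝ) ^ 2 / (n:ℝ) ^ e = (n:ℝ) ^ (2 - e) := by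
    intro e
    rw [Real.rpow_sub hn0, Real.rpow_two]
  set X : ℝ := 4 * (n:ℝ) ^ (2 - b) with hX
  have hbb : b ≤ d := by linarith
  have k2 : Pool.Agent.Lib.H81A.H2 c η (2 * n) (tfS n W f g) X := by
    have h0 : ((n:ℝ) ^ b) ^ CB ≤ (n:ℝ) ^ c := by
      rw [← Real.rpow_natCast, ← Real.rpow_mul hn0.le]
      exact Real.rpow_le_rpow_of_exponent_le hn1 hbC.le
    have h1 := hnB n hnB' c ((n:ℝ) ^ b) u1 hdvb (h0.trans (hn2n c hc.le))
      (h0.trans (Real.rpow_le_rpow_of_exponent_le hn1 hcη)) W f g hW hf hg (hlt b CB (by linarith))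
    rw [hdiv] at h1
    exact h1
  have k3 : Pool.Agent.Lib.H81A.H3 c η (2 * n) (tfS n W f g) X := by
    have h1 := h3_of et0 CD nD hDO η hη1 n hnD' (by omega) c ((n:ℝ) ^ d) u3
      (fun m hm1 hm2 => (hdvb m hm1 hm2).trans (Real.rpow_le_rpow_of_exponent_le hn1 hbb)) (by
      rw [← Real.rpow_natCast, ← Real.rpow_mul hn0.le]
      calc (n:ℝ) ^ (d * CD) ≤ (n:ℝ) ^ (1:ℝ) := Real.rpow_le_rpow_of_exponent_le hn1 (by linarith)
        _ = n := Real.rpow_one _) (by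
      refine (h2n (2 * c) (by positivity)).trans (Real.rpow_le_rpow_of_exponent_le hn1 ?_)
      linarith) W f g hW hf hg (hlt d CD hdC)
    rw [hdiv] at h1
    refine H3_mono h1 ?_
    have h2 : (n:ℝ) ^ (2 - d) ≤ (n:ℝ) ^ (2 - b) := Real.rpow_le_rpow_of_exponent_le hn1 (by linarith)
    have h3 : 0 ≤ (n:ℝ) ^ (2 - b) := Real.rpow_nonneg hn0.le _
    rw [hX]
    linarith
  have k1 : Pool.Agent.Lib.H81A.H1 c (2 * n) (tfS n W f g) X := by
    refine H1_mono (h1_of n (by omega) c W f g hW hf ((n:ℝ) ^ (1 - c1)) hth1) ?_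
    have h1 : ((2 * n : ℕ) : ℝ) ^ (2 * c) ≤ (n:ℝ) ^ (d / 3) := by
      refine (h2n (2 * c) (by positivity)).trans (Real.rpow_le_rpow_of_exponent_le hn1 ?_)
      linarith
    have h2 : (0:ℝ) ≤ (n:ℝ) ^ (1 - c1) := Real.rpow_nonneg hn0.le _
    have h3 : (0:ℝ) ≤ (n:ℝ) ^ (d / 3) := Real.rpow_nonneg hn0.le _
    calc 20 * ((2 * n : ℕ) : ℝ) ^ (2 * c) * (1 + Real.log n) * n * (n:ℝ) ^ (1 - c1)
        ≤ 20 * (n:ℝ) ^ (d / 3) * (1 + Real.log n) * n * (n:ℝ) ^ (1 - c1) := by gcongr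
      _ = 4 * ((n:ℝ) ^ (d / 3) * (5 * (1 + Real.log n)) * (n ^ (1:ℝ) * (n:ℝ) ^ (1 - c1))) := by rw [Real.rpow_one]; ring
      _ ≤ 4 * ((n:ℝ) ^ (d / 3) * (n:ℝ) ^ (c1 / 3) * (n ^ (1:ℝ) * (n:ℝ) ^ (1 - c1))) := by gcongr
      _ = 4 * (n:ℝ) ^ (d / 3 + c1 / 3 + (1 + (1 - c1))) := by
          rw [← Real.rpow_add hn0, ← Real.rpow_add hn0, ← Real.rpow_add hn0]
      _ ≤ X := by
          rw [hX]
          refine mul_le_mul_of_nonneg_left (Real.rpow_le_rpow_of_exponent_le hn1 ?_) (by norm_num)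
          linarith
  have h := hnA (2 * n) hnA' (tfS n W f g) (tfS_loc n W f g) X k2 k1 k3
  have e : tfS n W f g (fun m => ArithmeticFunction.vonMangoldt m) =
      ‖TF n (fun m => ((ArithmeticFunction.vonMangoldt m.toNat : ℝ) : ℂ)) W f g‖ := rfl
  rw [e] at h
  refine h.trans ?_
  have h1 := h2n (b / 4) (by positivity)
  have h2 : 0 ≤ (n:ℝ) ^ (2 - b) := Real.rpow_nonneg hn0.le _
  have h3 : 0 ≤ (n:ℝ) ^ (2 * (b / 4)) := Real.rpow_nonneg hn0.le _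
  calc ((2 * n : ℕ) : ℝ) ^ (b / 4) * X ≤ (n:ℝ) ^ (2 * (b / 4)) * ((n:ℝ) ^ (b / 4) * (n:ℝ) ^ (2 - b)) := by
        rw [hX]
        gcongr
    _ = (n:ℝ) ^ (2 - b / 4) := by
        rw [← Real.rpow_add hn0, ← Real.rpow_add hn0]
        congr 1
        ring

end Pool.Agent.H37T
end

-- from Lib.H44W.M8
section
/-!
CHUNK M8 (M, elementary: exponents). The output of module D.
Proof. h34 (H21T.D34): ka in (0, 1/2]. Put ep = min ka (1/8), et0 = ka/8, e = ep/2, E = 16, C3 = 2 (C2 + 1) (C2 from h2),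
closing C3 E e (M6) gives C, n0; N0 from h34 for ep. C' = max C 17; n0' so large that everything below holds.
Given the data, Q = floor((2n)^ep) >= 1, N = 2n. A1, B1 >= (2n)^(1/2 - 2 et0) >= max (n^(1/4)) 1 ((1/2 - ka/4 >= 3/8)).
If A1 B1 > 2n then pd q .. m = 0 for 2 <= m <= 2n, 1 <= q (q a b >= A1 B1 > m), so TF = 0 < n^2/D: contradiction (D > 0).
So A1 B1 <= 2n, A1 <= 2n/B1 <= (2n)^(1/2 + 2 et0), the same for B1. l := floor((2n)^(1/2 - 3 et0)): l (A1 + B1) <= 2 (2n)^(1 - et0) <= n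
for (2n)^et0 >= 4; (2n)^(1/2 - ka) <= l and n^(1/4) <= l for n large (3 et0 = 3ka/8 < ka, 1/2 - 3/16 > 1/4; l >= (2n)^(1/2 - 3 et0) - 1).
Apply closing with M := fun q => Mq Q A1 A2 B1 B2 q:
 hcf: D' >= D >= (1+log n)^10 >= 560 (1+log n)^4 (n large), hdiv for D' >= D, D'^16 <= n: q Q <= D' (2n)^(1/8) <= n^(1/16) (2n)^(1/8) <= n^(1/4),
 mq_cf (M7). mass: mass_le (M5) (R <= D <= n, Q <= (2n)^(1/8) <= n). hX: hX_of (M4) with h34 (N = 2n >= N0; ee of SZW and of H44W are the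
 same function: rfl).
-/
namespace Pool.Agent.H44W
open Finset

theorem m8_gap (a b : ℝ) (hb : 0 < b) (hab : a < b) :
    ∃ x0 : ℝ, ∀ x : ℝ, x0 ≤ x → x ^ a + 1 ≤ x ^ b := by
  have h1 := (tendsto_rpow_atTop hb).eventually_ge_atTop 2
  have h2 := (tendsto_rpow_atTop (sub_pos.2 hab)).eventually_ge_atTop 2
  have h3 := Filter.eventually_gt_atTop (0:ℝ)
  obtain ⟨x0, hx0⟩ := Filter.eventually_atTop.1 (h1.and (h2.and h3))
  refine ⟨x0, fun x hx => ?_⟩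
  obtain ⟨h4, h5, h6⟩ := hx0 x hx
  have h7 : x ^ b = x ^ a * x ^ (b - a) := by
    rw [← Real.rpow_add h6]
    congr 1
    ring
  have h8 : 0 ≤ x ^ a := Real.rpow_nonneg h6.le _
  have h9 : x ^ a * 2 ≤ x ^ b := by
    rw [h7]
    exact mul_le_mul_of_nonneg_left h5 h8
  linarith

theorem m8_large (ka : ℝ) (hka : 0 < ka) (hka1 : ka ≤ 1 / 2) (N0 n1 : ℕ) :
    ∃ n0 : ℕ, ∀ n : ℕ, n0 ≤ n → n1 ≤ n ∧ N0 ≤ 2 * n ∧ 4 ≤ n ∧
      560 * (1 + Real.log n) ^ 4 ≤ (1 + Real.log n) ^ 10 ∧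
      4 ≤ ((2 * n : ℕ) : ℝ) ^ (ka / 8) ∧
      ((2 * n : ℕ) : ℝ) ^ (1 / 2 - ka) + 1 ≤ ((2 * n : ℕ) : ℝ) ^ (1 / 2 - 3 * (ka / 8)) ∧
      ((2 * n : ℕ) : ℝ) ^ (1 / 4 : ℝ) + 1 ≤ ((2 * n : ℕ) : ℝ) ^ (1 / 2 - 3 * (ka / 8)) := by
  obtain ⟨x1, h1⟩ := m8_gap (1 / 2 - ka) (1 / 2 - 3 * (ka / 8)) (by linarith) (by linarith)
  obtain ⟨x2, h2⟩ := m8_gap (1 / 4) (1 / 2 - 3 * (ka / 8)) (by linarith) (by linarith)
  obtain ⟨x3, h3⟩ := Filter.eventually_atTop.1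
    ((tendsto_rpow_atTop (by linarith : 0 < ka / 8)).eventually_ge_atTop 4)
  obtain ⟨x4, h4⟩ := Filter.eventually_atTop.1 (Real.tendsto_log_atTop.eventually_ge_atTop 2)
  obtain ⟨m1, hm1⟩ := exists_nat_ge x1
  obtain ⟨m2, hm2⟩ := exists_nat_ge x2
  obtain ⟨m3, hm3⟩ := exists_nat_ge x3
  obtain ⟨m4, hm4⟩ := exists_nat_ge x4
  refine ⟨n1 + N0 + 4 + m1 + m2 + m3 + m4, fun n hn => ?_⟩
  have h5 : (m1 : ℝ) ≤ ((2 * n : ℕ) : ℝ) := by
    have : m1 ≤ 2 * n := by omega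
    exact_mod_cast this
  have h6 : (m2 : ℝ) ≤ ((2 * n : ℕ) : ℝ) := by
    have : m2 ≤ 2 * n := by omega
    exact_mod_cast this
  have h7 : (m3 : ℝ) ≤ ((2 * n : ℕ) : ℝ) := by
    have : m3 ≤ 2 * n := by omega
    exact_mod_cast this
  have h8 : (m4 : ℝ) ≤ (n : ℝ) := by
    have : m4 ≤ n := by omega
    exact_mod_cast this
  refine ⟨by omega, by omega, by omega, ?_, h3 _ (hm3.trans h7), h1 _ (hm1.trans h5),
    h2 _ (hm2.trans h6)⟩
  have h9 := h4 n (hm4.trans h8)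
  have h10 : (3:ℝ) ^ 6 ≤ (1 + Real.log n) ^ 6 := pow_le_pow_left₀ (by norm_num) (by linarith) 6
  have h11 : (560:ℝ) ≤ (1 + Real.log n) ^ 6 := le_trans (by norm_num) h10
  calc 560 * (1 + Real.log n) ^ 4 ≤ (1 + Real.log n) ^ 6 * (1 + Real.log n) ^ 4 :=
        mul_le_mul_of_nonneg_right h11 (by positivity)
    _ = (1 + Real.log n) ^ 10 := by ring

theorem m8_pd (n q A1 A2 B1 B2 : ℕ) (hq : 1 ≤ q) (h : 2 * n < A1 * B1) (m : ℤ)
    (hm : m ≤ 2 * n) : pd q (Ico (A1:ℤ) A2) (Ico (B1:ℤ) B2) m = 0 := by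
  unfold pd
  rw [Nat.cast_eq_zero, card_eq_zero, filter_eq_empty_iff]
  rintro ⟨a, b⟩ hp he
  rw [mem_product, mem_Ico, mem_Ico] at hp
  obtain ⟨⟨h1, _⟩, h2, _⟩ := hp
  simp only at h1 h2 he
  have h3 : (2 * n : ℤ) < A1 * B1 := by exact_mod_cast h
  have h4 : (A1:ℤ) * B1 ≤ a * b := mul_le_mul h1 h2 (by positivity) (le_trans (by positivity) h1)
  have h5 : (1:ℤ) ≤ q := by exact_mod_cast hq
  have h6 : 0 ≤ a * b := le_trans (by positivity) h4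
  have h7 : 1 * (a * b) ≤ (q:ℤ) * (a * b) := mul_le_mul_of_nonneg_right h5 h6
  have h8 : (q:ℤ) * (a * b) = m := by rw [← mul_assoc]; exact he
  rw [h8, one_mul] at h7
  linarith

theorem m8_upper (x a : ℝ) (A B : ℕ) (hx : 0 < x) (hA : x ^ (1 / 2 - 2 * a) ≤ A)
    (hAB : (A:ℝ) * B ≤ x) : (B:ℝ) ≤ x ^ (1 / 2 + 2 * a) := by
  have h1 : 0 < x ^ (1 / 2 - 2 * a) := Real.rpow_pos_of_pos hx _
  have h2 : x ^ (1 / 2 - 2 * a) * B ≤ x := by
    refine le_trans (mul_le_mul_of_nonneg_right hA (Nat.cast_nonneg B)) hAB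
  have h3 : x ^ (1 / 2 - 2 * a) * x ^ (1 / 2 + 2 * a) = x := by
    rw [← Real.rpow_add hx]
    have : (1 / 2 - 2 * a + (1 / 2 + 2 * a) : ℝ) = 1 := by ring
    rw [this, Real.rpow_one]
  have h4 : x ^ (1 / 2 - 2 * a) * B ≤ x ^ (1 / 2 - 2 * a) * x ^ (1 / 2 + 2 * a) := by
    rw [h3]
    exact h2
  exact le_of_mul_le_mul_left h4 h1

theorem d_out (C2 : ℕ) (h2 : ClassTwo C2)
    (h34 : ∃ κ : ℝ, 0 < κ ∧ κ ≤ 1 / 2 ∧ ∀ ε : ℝ, 0 < ε → ε ≤ κ → ∃ N0 : ℕ, ∀ N : ℕ, N0 ≤ N →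
      ∀ A1 A2 B1 B2 : ℕ, (N : ℝ) ^ (1 / 2 - κ) ≤ A1 → (N : ℝ) ^ (1 / 2 - κ) ≤ B1 → A1 ≤ A2 →
      A2 ≤ 2 * A1 → B1 ≤ B2 → B2 ≤ 2 * B1 → A1 * B1 ≤ N →
      ∀ (x H : ℕ) (α : ℝ), (N : ℝ) ^ (1 / 2 - κ) ≤ H →
      ‖∑ m ∈ Ico x (x + H), ((Pool.Agent.Lib.H21T.dbox A1 A2 B1 B2 m : ℂ) -
        (Pool.Agent.Lib.H21T.Mbox ⌊(N : ℝ) ^ ε⌋₊ A1 A2 B1 B2 m : ℂ)) *
          Pool.Agent.SZW.ee (α * m)‖ ≤ H * (N : ℝ) ^ (-(ε / 2))) :
    ∃ et0 : ℝ, 0 < et0 ∧ ∃ C n0 : ℕ, ∀ n : ℕ, n0 ≤ n → ∀ D : ℝ, (1 + Real.log n) ^ 10 ≤ D →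
      (∀ m : ℕ, 1 ≤ m → m ≤ 2 * n → (m.divisors.card : ℝ) ≤ D) → D ^ C ≤ n →
      ∀ R : ℕ, (R : ℝ) ≤ D → ∀ A1 A2 B1 B2 : ℕ,
      ((2 * n : ℕ) : ℝ) ^ (1 / 2 - 2 * et0) ≤ A1 → ((2 * n : ℕ) : ℝ) ^ (1 / 2 - 2 * et0) ≤ B1 →
      A2 ≤ 2 * A1 → B2 ≤ 2 * B1 → ∀ ga : ℕ → ℂ, (∀ q, ‖ga q‖ ≤ 1) → ∀ W f g : ℤ → ℂ,
      (∀ x, ‖W x‖ ≤ 1) → (∀ x, ‖f x‖ ≤ 1) → (∀ x, ‖g x‖ ≤ 1) →
      (n:ℝ) ^ 2 / D ≤ ‖TF n (fun m => ∑ q ∈ Icc 1 R, ga q *
        pd q (Ico (A1:ℤ) A2) (Ico (B1:ℤ) B2) m) W f g‖ →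
      ∃ th : ℝ, (n:ℝ) / D ^ C ≤ ‖∑ z ∈ Icc (1:ℤ) n, g z * ee (th * z)‖ := by
  obtain ⟨ka, hka, hka1, h34⟩ := h34
  have hep : 0 < min ka (1 / 8) := lt_min hka (by norm_num)
  have hepk : min ka (1 / 8) ≤ ka := min_le_left _ _
  have hep8 : min ka (1 / 8) ≤ 1 / 8 := min_le_right _ _
  obtain ⟨ep, hepd⟩ : ∃ ep : ℝ, ep = min ka (1 / 8) := ⟨_, rfl⟩
  rw [← hepd] at hep hepk hep8
  obtain ⟨C, n1, hcl⟩ := closing (2 * (C2 + 1)) 16 (ep / 2) (by linarith)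
  obtain ⟨N0, hN0⟩ := h34 ep hep hepk
  obtain ⟨n0, hn0⟩ := m8_large ka hka hka1 N0 n1
  refine ⟨ka / 8, by linarith, max C 1, n0, ?_⟩
  intro n hn D hD10 hdiv hDC R hR A1 A2 B1 B2 hA hB hA2 hB2 ga hga W f g hW hf hg hT
  obtain ⟨hn1, hnN, hn4, hlog, hE3, hE4, hE5⟩ := hn0 n hn
  have hL0 : 0 ≤ Real.log n := Real.log_natCast_nonneg n
  have hL1 : 1 ≤ 1 + Real.log n := by linarith
  have hD1 : 1 ≤ D := le_trans (one_le_pow₀ hL1) hD10
  have hD0 : 0 < D := by linarith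
  have hnR4 : (4:ℝ) ≤ n := by exact_mod_cast hn4
  have hnR1 : (1:ℝ) ≤ n := by linarith
  have hnR0 : (0:ℝ) < n := by linarith
  obtain ⟨x, hxd⟩ : ∃ x : ℝ, x = ((2 * n : ℕ) : ℝ) := ⟨_, rfl⟩
  have hx2 : x = 2 * n := by
    rw [hxd]
    push_cast
    rfl
  have hx1 : 1 ≤ x := by rw [hx2]; linarith
  have hx0 : 0 < x := by linarith
  rw [← hxd] at hE3 hE4 hE5 hA hB
  have hDC' : D ^ C ≤ n := le_trans (pow_le_pow_right₀ hD1 (le_max_left _ _)) hDC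
  have hDn : D ≤ n := by
    have := le_trans (pow_le_pow_right₀ hD1 (le_max_right C 1)) hDC
    rw [pow_one] at this
    exact this
  have hAx1 : 1 ≤ x ^ (1 / 2 - 2 * (ka / 8)) := Real.one_le_rpow hx1 (by linarith)
  have hA1 : 1 ≤ A1 := by
    have : (1:ℝ) ≤ A1 := hAx1.trans hA
    exact_mod_cast this
  have hB1 : 1 ≤ B1 := by
    have : (1:ℝ) ≤ B1 := hAx1.trans hB
    exact_mod_cast this
  have hAB : A1 * B1 ≤ 2 * n := by
    by_contra hcon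
    rw [not_le] at hcon
    have h0 : TF n (fun m => ∑ q ∈ Icc 1 R, ga q *
        pd q (Ico (A1:ℤ) A2) (Ico (B1:ℤ) B2) m) W f g = 0 := by
      unfold TF
      refine sum_eq_zero fun u hu => sum_eq_zero fun v hv => ?_
      rw [mem_Icc] at hu hv
      have h1 : ∑ q ∈ Icc 1 R, ga q *
          pd q (Ico (A1:ℤ) A2) (Ico (B1:ℤ) B2) (u + v) = 0 := by
        refine sum_eq_zero fun q hq => ?_
        rw [mem_Icc] at hq
        rw [m8_pd n q A1 A2 B1 B2 hq.1 hcon (u + v) (by omega), mul_zero]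
      simp only [h1, mul_zero, zero_mul]
    rw [h0, norm_zero] at hT
    have : 0 < (n:ℝ) ^ 2 / D := by positivity
    linarith
  have hABx : (A1:ℝ) * B1 ≤ x := by
    rw [hxd]
    exact_mod_cast hAB
  have hBu : (B1:ℝ) ≤ x ^ (1 / 2 + 2 * (ka / 8)) := m8_upper x (ka / 8) A1 B1 hx0 hA hABx
  have hAu : (A1:ℝ) ≤ x ^ (1 / 2 + 2 * (ka / 8)) :=
    m8_upper x (ka / 8) B1 A1 hx0 hB (by rw [mul_comm]; exact hABx)
  obtain ⟨l, hld⟩ : ∃ l : ℕ, l = ⌊x ^ (1 / 2 - 3 * (ka / 8))⌋₊ := ⟨_, rfl⟩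
  have hly : 0 ≤ x ^ (1 / 2 - 3 * (ka / 8)) := Real.rpow_nonneg hx0.le _
  have hlu : (l:ℝ) ≤ x ^ (1 / 2 - 3 * (ka / 8)) := by
    rw [hld]
    exact Nat.floor_le hly
  have hll : x ^ (1 / 2 - 3 * (ka / 8)) - 1 < l := by
    rw [hld]
    have := Nat.lt_floor_add_one (x ^ (1 / 2 - 3 * (ka / 8)))
    linarith
  have hlk : x ^ (1 / 2 - ka) ≤ l := by linarith
  have hn4x : (n:ℝ) ^ (1 / 4 : ℝ) ≤ x ^ (1 / 4 : ℝ) := by
    apply Real.rpow_le_rpow hnR0.le _ (by norm_num)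
    rw [hx2]
    linarith
  have hl4 : (n:ℝ) ^ (1 / 4 : ℝ) ≤ l := by linarith
  have hl1 : 1 ≤ l := by
    have h1 : (1:ℝ) ≤ (n:ℝ) ^ (1 / 4 : ℝ) := Real.one_le_rpow hnR1 (by norm_num)
    have : (1:ℝ) ≤ l := h1.trans hl4
    exact_mod_cast this
  have h14 : x ^ (1 / 4 : ℝ) ≤ x ^ (1 / 2 - 2 * (ka / 8)) :=
    Real.rpow_le_rpow_of_exponent_le hx1 (by linarith)
  have hlAB : l * (A1 + B1) ≤ n := by
    have h1 : (l:ℝ) * (A1 + B1) ≤ x ^ (1 / 2 - 3 * (ka / 8)) *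
        (x ^ (1 / 2 + 2 * (ka / 8)) + x ^ (1 / 2 + 2 * (ka / 8))) := by
      apply mul_le_mul hlu (by linarith) (by positivity) hly
    have h3 : x ^ (1 / 2 - 3 * (ka / 8)) * x ^ (1 / 2 + 2 * (ka / 8)) * x ^ (ka / 8) = x := by
      rw [← Real.rpow_add hx0, ← Real.rpow_add hx0]
      have : (1 / 2 - 3 * (ka / 8) + (1 / 2 + 2 * (ka / 8)) + ka / 8 : ℝ) = 1 := by ring
      rw [this, Real.rpow_one]
    have h4 : 0 ≤ x ^ (1 / 2 - 3 * (ka / 8)) * x ^ (1 / 2 + 2 * (ka / 8)) := by positivity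
    have h5 : x ^ (1 / 2 - 3 * (ka / 8)) * x ^ (1 / 2 + 2 * (ka / 8)) * 4 ≤ x := by
      calc _ ≤ x ^ (1 / 2 - 3 * (ka / 8)) * x ^ (1 / 2 + 2 * (ka / 8)) * x ^ (ka / 8) :=
            mul_le_mul_of_nonneg_left hE3 h4
        _ = x := h3
    have h6 : (l:ℝ) * (A1 + B1) ≤ n := by
      have h7 : (l:ℝ) * (A1 + B1) ≤
          2 * (x ^ (1 / 2 - 3 * (ka / 8)) * x ^ (1 / 2 + 2 * (ka / 8))) := by
        refine h1.trans (le_of_eq ?_)
        ring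
      rw [hx2] at h5 h7
      linarith
    exact_mod_cast h6
  obtain ⟨Q, hQd⟩ : ∃ Q : ℕ, Q = ⌊x ^ ep⌋₊ := ⟨_, rfl⟩
  have hQu : (Q:ℝ) ≤ x ^ (1 / 8 : ℝ) := by
    rw [hQd]
    refine (Nat.floor_le (Real.rpow_nonneg hx0.le _)).trans ?_
    exact Real.rpow_le_rpow_of_exponent_le hx1 hep8
  have hQ1 : 1 ≤ Q := by
    rw [hQd]
    apply Nat.le_floor
    rw [Nat.cast_one]
    exact Real.one_le_rpow hx1 hep.le
  have hx8 : x ^ (1 / 8 : ℝ) * (n:ℝ) ^ (1 / 16 : ℝ) ≤ (n:ℝ) ^ (1 / 4 : ℝ) := by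
    have h1 : x ≤ (n:ℝ) ^ (3 / 2 : ℝ) := by
      have h3 : (2:ℝ) ≤ (n:ℝ) ^ (1 / 2 : ℝ) := by
        have h4 : ((4:ℝ)) ^ (1 / 2 : ℝ) ≤ (n:ℝ) ^ (1 / 2 : ℝ) :=
          Real.rpow_le_rpow (by norm_num) hnR4 (by norm_num)
        have h5 : ((4:ℝ)) ^ (1 / 2 : ℝ) = 2 := by
          rw [← Real.sqrt_eq_rpow]
          rw [show (4:ℝ) = 2 ^ 2 by norm_num]
          exact Real.sqrt_sq (by norm_num)
        rw [h5] at h4
        exact h4
      have h6 : (n:ℝ) ^ (3 / 2 : ℝ) = (n:ℝ) ^ (1 / 2 : ℝ) * n := by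
        rw [show (3 / 2 : ℝ) = 1 / 2 + 1 by norm_num, Real.rpow_add hnR0, Real.rpow_one]
      rw [h6, hx2]
      exact mul_le_mul_of_nonneg_right h3 hnR0.le
    have h2 : x ^ (1 / 8 : ℝ) ≤ (n:ℝ) ^ (3 / 16 : ℝ) := by
      calc x ^ (1 / 8 : ℝ) ≤ ((n:ℝ) ^ (3 / 2 : ℝ)) ^ (1 / 8 : ℝ) :=
            Real.rpow_le_rpow hx0.le h1 (by norm_num)
        _ = (n:ℝ) ^ (3 / 16 : ℝ) := by
            rw [← Real.rpow_mul hnR0.le]
            norm_num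
    calc x ^ (1 / 8 : ℝ) * (n:ℝ) ^ (1 / 16 : ℝ) ≤ (n:ℝ) ^ (3 / 16 : ℝ) * (n:ℝ) ^ (1 / 16 : ℝ) :=
          mul_le_mul_of_nonneg_right h2 (Real.rpow_nonneg hnR0.le _)
      _ = (n:ℝ) ^ (1 / 4 : ℝ) := by
          rw [← Real.rpow_add hnR0]
          norm_num
  have hn4n : (n:ℝ) ^ (1 / 4 : ℝ) ≤ n := by
    calc (n:ℝ) ^ (1 / 4 : ℝ) ≤ (n:ℝ) ^ (1 : ℝ) :=
          Real.rpow_le_rpow_of_exponent_le hnR1 (by norm_num)
      _ = n := Real.rpow_one _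
  have hn16 : (1:ℝ) ≤ (n:ℝ) ^ (1 / 16 : ℝ) := Real.one_le_rpow hnR1 (by norm_num)
  have hQn : Q ≤ n := by
    have h1 : x ^ (1 / 8 : ℝ) ≤ x ^ (1 / 8 : ℝ) * (n:ℝ) ^ (1 / 16 : ℝ) :=
      le_mul_of_one_le_right (Real.rpow_nonneg hx0.le _) hn16
    have : (Q:ℝ) ≤ n := by linarith
    exact_mod_cast this
  have hRn : R ≤ n := by
    have : (R:ℝ) ≤ n := hR.trans hDn
    exact_mod_cast this
  obtain ⟨th, hth⟩ := hcl n hn1 D hD10 hDC' R hR A1 A2 B1 B2 l (by linarith) (by linarith) hl4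
    hA2 hB2 hlAB ga hga (fun q => Mq Q A1 A2 B1 B2 q) (fun q hq D' hDD' hD16 W' f' g' hW' hf' hg'
      hT' => by
      rw [mem_Icc] at hq
      have hD'0 : 0 < D' := by linarith
      have hqQ : ((q * Q : ℕ):ℝ) ≤ (n:ℝ) ^ (1 / 4 : ℝ) := by
        have h1 : (q:ℝ) ≤ D' := by
          have : (q:ℝ) ≤ R := by exact_mod_cast hq.2
          linarith
        have h3 : D' ≤ (n:ℝ) ^ (1 / 16 : ℝ) := by
          have h4 : (D' ^ 16) ^ (1 / 16 : ℝ) ≤ (n:ℝ) ^ (1 / 16 : ℝ) :=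
            Real.rpow_le_rpow (by positivity) hD16 (by norm_num)
          have h5 : (D' ^ 16) ^ (1 / 16 : ℝ) = D' := by
            rw [← Real.rpow_natCast, ← Real.rpow_mul hD'0.le]
            norm_num
          rw [h5] at h4
          exact h4
        rw [Nat.cast_mul]
        calc (q:ℝ) * Q ≤ (n:ℝ) ^ (1 / 16 : ℝ) * x ^ (1 / 8 : ℝ) :=
              mul_le_mul (h1.trans h3) hQu (Nat.cast_nonneg _) (by linarith)
          _ = x ^ (1 / 8 : ℝ) * (n:ℝ) ^ (1 / 16 : ℝ) := mul_comm _ _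
          _ ≤ _ := hx8
      exact mq_cf C2 h2 n Q A1 A2 B1 B2 q (by omega) hQ1 hq.1 hqQ hA1 hB1 hA2 D'
        (by linarith) (fun m hm hm2 => (hdiv m hm hm2).trans hDD') W' f' g' hW' hf' hg' hT')
    (mass_le n Q R A1 A2 B1 B2 (by omega) hQ1 hQn hRn hA1 hB1 hA2 hB2 ga hga)
    (fun q hq u v hu huv hv hvu th => by
      rw [mem_Icc] at hq
      exact hX_of ka ep n Q A1 A2 B1 B2 l q (by omega) hep hl1 hA1 hB1 hq.1 hA2 hB2
        (fun hAA hBB hAB' y H α hH => by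
          have hAk : ((2 * n : ℕ):ℝ) ^ (1 / 2 - ka) ≤ A1 := by
            rw [← hxd]
            refine le_trans ?_ hA
            exact Real.rpow_le_rpow_of_exponent_le hx1 (by linarith)
          have hBk : ((2 * n : ℕ):ℝ) ^ (1 / 2 - ka) ≤ B1 := by
            rw [← hxd]
            refine le_trans ?_ hB
            exact Real.rpow_le_rpow_of_exponent_le hx1 (by linarith)
          have h7 := hN0 (2 * n) hnN A1 A2 B1 B2 hAk hBk hAA hA2 hBB hB2 hAB' y H α hH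
          rw [← hxd, ← hQd] at h7
          rw [← hxd]
          exact h7)
        (by rw [← hxd]; exact hlk) u v hu huv hv hvu th)
    W f g hW hf hg hT
  refine ⟨th, le_trans ?_ hth⟩
  exact div_le_div_of_nonneg_left hnR0.le (pow_pos hD0 _)
    (pow_le_pow_right₀ hD1 (le_max_left _ _))

end Pool.Agent.H44W
end

-- from Lib.H37T.A5
section
/-!
H37T: the inverse theorem for the von Mangoldt function from module B.
-/
namespace Pool.Agent.H37T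
open Finset Pool.Agent.H44W

theorem inv_of_classTwo (h2 : ∃ C : ℕ, ClassTwo C) : INV := by
  obtain ⟨C, hC⟩ := h2
  exact inv_of ⟨C, hC⟩ (d_out C hC Pool.Agent.Lib.H21T.D34)

end Pool.Agent.H37T
end

-- from Lib.H37T.A6
section
/-!
H37T: the inverse theorem for the von Mangoldt function (all modules).
-/
namespace Pool.Agent.H37T

/-- **The inverse theorem**: if `g` has no Fourier coefficient larger than `n ^ (1 - c1)`, then every form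
`∑ f(x) g(y) Λ(x+y) W(x-y)` with bounded `f`, `W` is at most `n ^ (2 - c2)`. -/
theorem inv : INV := inv_of_classTwo Pool.Agent.H3B.class_two

end Pool.Agent.H37T
end
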