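import Pool.Agent.Lib.H59M.M1.M002
import Pool.Agent.Lib.H59M.M1.M014
import Pool.Agent.Lib.H59M.M1.M023
import Pool.Agent.Lib.H59M.M1.M024
import Pool.Agent.Lib.H59M.M1.M049
import Pool.Agent.Lib.H59M.M1.M060
import Pool.Agent.Lib.H59M.M1.M063
import Pool.Agent.Lib.H59M.M1.M066
import Pool.Agent.Lib.H59M.M1.M067
import Pool.Agent.Lib.H59M.M1.M070
import Pool.Agent.Lib.H59M.M1.M072
import Pool.Agent.Lib.H59M.M1.M073

/-! Merged copies (to shorten the build) of Lib.H24P.B2, Lib.H24P.P3, Lib.H24P.Z2B, Lib.H24P.E1, Lib.H24P.B5, Lib.H24P.Z1L, Lib.H24P.Z1S, Lib.H24P.W2, Lib.H24P.W3, Lib.H24P.P4, Lib.H24P.Z3, Lib.H24P.T5, Lib.H24P.X1A, Lib.H24P.X1B. -/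

-- from Lib.H24P.B2
section

/-!
# Project H24P, chunk B2 (M): the mean value factorises
-/

open Finset Polynomial

namespace Pool.Agent.Lib.H24P

open Pool.Agent.Lib.H68T Pool.Agent.Lib.H18Q Pool.Agent.Lib.H59P

/-- Proof. `uu (R d).primeFactors = uu R.primeFactors · uu d.primeFactors` (disjoint: `R`, `d` coprime), the product of
`cj (p 0) (B n) uu R.primeFactors (B n)` and `Phf` of the other coordinates is `Phf p R.primeFactors (at' (sys B P h) n)`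
(`Fin.prod_univ_succ`, `sys` is a `Fin.cons`); it has period `R` (`P2_sys`, `P2_Ph`), the other factor has period `d`
(`P2_ran`, `P2_Wd`, `P2_gl`); `M3d` (`H59P`), `B1_mean` (`d` is coprime to `R`, hence to the leading coefficient). -/
theorem B2_fac {k : ℕ} (B : ℤ[X]) (hB : B.natDegree = 1) (P : Fin k → ℤ[X]) (h : Fin k → ℕ)
    (p : Fin (k + 1) → Ch) (R d : ℕ) (hR : 0 < R) (ha : B.leadingCoeff.natAbs ∣ R)
    (hp : ∀ i, (p i).1 ∣ R) (hd : Squarefree d) (hc : Nat.Coprime d R) :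
    (∑ n ∈ range (R * d), cj (p 0) (B.eval (n : ℤ)) * ((uu (R * d).primeFactors (B.eval (n : ℤ)) : ℝ) : ℂ) *
      (Phf (fun i : Fin k => p i.succ) R.primeFactors (at' (ran P h) n) *
        ((Wdf d (at' (ran P h) n) : ℝ) : ℂ))) / ((R * d : ℕ) : ℂ) =
    MRf p R (sys B P h) * ((tdf d (sys B P h) : ℝ) : ℂ) := by
  classical
  have hd0 : 0 < d := Nat.pos_of_ne_zero hd.ne_zero
  have hRd : (R * d).primeFactors = R.primeFactors ∪ d.primeFactors := Nat.primeFactors_mul hR.ne' hd0.ne'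
  have hdis : Disjoint R.primeFactors d.primeFactors := hc.symm.disjoint_primeFactors
  have huu : ∀ m : ℤ, uu (R * d).primeFactors m = uu R.primeFactors m * uu d.primeFactors m := by
    intro m
    unfold uu
    rw [hRd, Finset.prod_union hdis]
  have hPh : ∀ n : ℤ, cj (p 0) (B.eval n) * ((uu R.primeFactors (B.eval n) : ℝ) : ℂ) *
      Phf (fun i : Fin k => p i.succ) R.primeFactors (at' (ran P h) n) =
      Phf p R.primeFactors (at' (sys B P h) n) := by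
    intro n
    unfold Phf
    rw [Fin.prod_univ_succ]
    unfold at' sys
    simp only [Fin.cons_zero, Fin.cons_succ]
  have e1 : ∀ n ∈ range (R * d), cj (p 0) (B.eval (n : ℤ)) * ((uu (R * d).primeFactors (B.eval (n : ℤ)) : ℝ) : ℂ) *
      (Phf (fun i : Fin k => p i.succ) R.primeFactors (at' (ran P h) n) *
        ((Wdf d (at' (ran P h) n) : ℝ) : ℂ)) =
      Phf p R.primeFactors (at' (sys B P h) n) *
        ((uu d.primeFactors (B.eval (n : ℤ)) * Wdf d (at' (ran P h) n) : ℝ) : ℂ) := by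
    intro n _
    rw [huu, ← hPh]
    push_cast
    ring
  have hper1 : ∀ m : ℤ, Phf p R.primeFactors (at' (sys B P h) (m + R)) =
      Phf p R.primeFactors (at' (sys B P h) m) := fun m =>
    P2_Ph (sys B P h) (P2_sys B P h) p R R dvd_rfl hp m
  have hper2 : ∀ m : ℤ, ((uu d.primeFactors (B.eval (m + d)) * Wdf d (at' (ran P h) (m + d)) : ℝ) : ℂ) =
      ((uu d.primeFactors (B.eval m) * Wdf d (at' (ran P h) m) : ℝ) : ℂ) := by
    intro m
    congr 1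
    rw [P2_Wd (ran P h) (P2_ran P h) d d dvd_rfl m]
    congr 1
    unfold uu
    refine Finset.prod_congr rfl fun l hl => ?_
    have h1 : gl l (B.eval (m + d)) = gl l (B.eval m) :=
      P2_gl (sys B P h) (P2_sys B P h) l d (Nat.dvd_of_mem_primeFactors hl) 0 m
    rw [h1]
  have key := M3d (fun n => Phf p R.primeFactors (at' (sys B P h) n))
    (fun n => ((uu d.primeFactors (B.eval n) * Wdf d (at' (ran P h) n) : ℝ) : ℂ)) R d hR hd0 hc.symm hper1 hper2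
  have h2 := B1_mean B hB P h d hd (hc.coprime_dvd_right ha)
  have h3 : ∑ n ∈ range d, ((uu d.primeFactors (B.eval (n : ℤ)) * Wdf d (at' (ran P h) n) : ℝ) : ℂ) =
      (d : ℂ) * ((tdf d (sys B P h) : ℝ) : ℂ) := by
    rw [← Complex.ofReal_sum, h2]
    push_cast
    rfl
  rw [Finset.sum_congr rfl e1]
  refine (congrArg (fun z => z / ((R * d : ℕ) : ℂ)) key).trans ?_
  rw [h3]
  unfold MRf
  have hR' : (R : ℂ) ≠ 0 := by exact_mod_cast hR.ne'
  have hd' : (d : ℂ) ≠ 0 := by exact_mod_cast hd0.ne'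
  push_cast
  field_simp

end Pool.Agent.Lib.H24P
end

-- from Lib.H24P.P3
section

/-!
# Project H24P, chunk P3 (M): mean values over complete periods (port of H59P/M5A, M5B, M5)
-/

open Finset

namespace Pool.Agent.Lib.H24P

open Pool.Agent.Lib.H68T Pool.Agent.Lib.H18Q Pool.Agent.Lib.H59P

/-- the local factors at one prime -/
noncomputable def p3_g {k : ℕ} (φ : Fin k → ℤ → ℤ) (l : ℕ) (n : ℤ) : ℂ :=
  ∏ i, (((1 + gl l (φ i n) : ℝ)) : ℂ)

theorem p3_g_per {k : ℕ} (φ : Fin k → ℤ → ℤ) (hφ : Cp φ) (l N : ℕ) (h : l ∣ N) (n : ℤ) :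
    p3_g φ l (n + N) = p3_g φ l n := by
  unfold p3_g
  refine prod_congr rfl fun i _ => ?_
  rw [P2_gl φ hφ l N h]

theorem p3_g_sum {k : ℕ} (φ : Fin k → ℤ → ℤ) (l : ℕ) (hl : 0 < l) :
    ∑ n ∈ range l, p3_g φ l n = l * (((1 + tpf l φ : ℝ)) : ℂ) := by
  have hl0 : (l : ℂ) ≠ 0 := by exact_mod_cast hl.ne'
  unfold tpf p3_g
  push_cast
  field_simp
  ring

theorem p3_ph {k : ℕ} (p : Fin k → Ch) (A S : Finset ℕ) (hd : Disjoint A S) (φ : Fin k → ℤ → ℤ)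
    (n : ℤ) :
    Phf p (A ∪ S) (at' φ n) = Phf p A (at' φ n) * ∏ l ∈ S, p3_g φ l n := by
  unfold Phf p3_g uu at'
  rw [prod_comm (s := S), ← prod_mul_distrib]
  refine prod_congr rfl fun i _ => ?_
  rw [prod_union hd]
  push_cast
  ring

theorem p3_main {k : ℕ} (φ : Fin k → ℤ → ℤ) (hφ : Cp φ) (R : ℕ) (hR : 0 < R) (p : Fin k → Ch)
    (hd : ∀ i, (p i).1 ∣ R) (S : Finset ℕ) (hS : ∀ l ∈ S, l.Prime ∧ ¬ l ∣ R) :
    ∑ n ∈ range (R * ∏ l ∈ S, l), Phf p R.primeFactors (at' φ n) * ∏ l ∈ S, p3_g φ l n =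
      (∑ n ∈ range R, Phf p R.primeFactors (at' φ n)) * ∏ l ∈ S, (l * (((1 + tpf l φ : ℝ)) : ℂ)) := by
  induction S using Finset.induction_on with
  | empty => simp
  | insert l S hl ih =>
    have ih := ih fun q hq => hS q (mem_insert_of_mem hq)
    obtain ⟨hlp, hlR⟩ := hS l (mem_insert_self _ _)
    have hSpos : 0 < ∏ q ∈ S, q := prod_pos fun q hq => (hS q (mem_insert_of_mem hq)).1.pos
    have hco : Nat.Coprime (R * ∏ q ∈ S, q) l := by
      rw [Nat.coprime_comm, Nat.Prime.coprime_iff_not_dvd hlp]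
      intro hdvd
      rcases (Nat.Prime.dvd_mul hlp).1 hdvd with h1 | h1
      · exact hlR h1
      · obtain ⟨q, hq, hlq⟩ := (Prime.dvd_finsetProd_iff hlp.prime _).1 h1
        have := (Nat.prime_dvd_prime_iff_eq hlp (hS q (mem_insert_of_mem hq)).1).1 hlq
        exact hl (this ▸ hq)
    have e1 : R * ∏ q ∈ insert l S, q = (R * ∏ q ∈ S, q) * l := by
      rw [prod_insert hl]; ring
    have h3 := M3d (fun n => Phf p R.primeFactors (at' φ n) * ∏ q ∈ S, p3_g φ q n) (p3_g φ l)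
      (R * ∏ q ∈ S, q) l (Nat.mul_pos hR hSpos) hlp.pos hco (by
        intro m
        have a1 : Phf p R.primeFactors (at' φ (m + (R * ∏ q ∈ S, q : ℕ))) =
            Phf p R.primeFactors (at' φ m) :=
          P2_Ph φ hφ p R _ (Dvd.intro _ rfl) hd m
        have a2 : ∀ q ∈ S, p3_g φ q (m + (R * ∏ q ∈ S, q : ℕ)) = p3_g φ q m := by
          intro q hq
          exact p3_g_per φ hφ q _ ((Finset.dvd_prod_of_mem (fun q => q) hq).trans (dvd_mul_left _ _)) m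
        rw [a1, prod_congr rfl a2]) (p3_g_per φ hφ l l dvd_rfl)
    rw [e1, prod_insert hl]
    have e2 : ∑ n ∈ range (R * (∏ q ∈ S, q) * l),
        Phf p R.primeFactors (at' φ n) * ∏ q ∈ insert l S, p3_g φ q n =
        ∑ n ∈ range (R * (∏ q ∈ S, q) * l),
          (Phf p R.primeFactors (at' φ n) * ∏ q ∈ S, p3_g φ q n) * p3_g φ l n := by
      refine sum_congr rfl fun n _ => ?_
      rw [prod_insert hl]
      ring
    rw [e2, h3, ih, p3_g_sum φ l hlp.pos]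
    ring

/-- **M5.** The mean modulo `R` times the local factors at the other primes is the mean over `Q!`.

Proof. As `M5` in `H59P/M5A.lean` with `n + h_i` replaced by `φ i n`:
`Phf p (pr Q) (at' φ n) = Phf p R.primeFactors (at' φ n) * ∏_{l ∈ pr Q, l ∤ R} ∏_i (1 + gl l (φ i n))` (the prime
factors of `R` are at most `Q`, since `R ∣ Q!`). By `M3d` and induction over the primes `l` the sum over a
period `N = R ∏_{l ≤ Q, l ∤ R} l` is `R MRf p R φ ∏ l (1 + tpf l φ)`; `N` divides `Q!`, so the mean over `Q!` is the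
mean over `N` (full periods). -/
theorem P3_M5 {k : ℕ} (φ : Fin k → ℤ → ℤ) (hφ : Cp φ) (Q R : ℕ) (hR : 0 < R) (hRQ : R ∣ Q.factorial)
    (p : Fin k → Ch) (hd : ∀ i, (p i).1 ∣ R) :
    MRf p R φ * ((SSf ((pr Q).filter (fun l => ¬ l ∣ R)) φ : ℝ) : ℂ) = MQf Q p φ := by
  obtain ⟨S, hSdef⟩ : ∃ S, S = (pr Q).filter (fun l => ¬ l ∣ R) := ⟨_, rfl⟩
  rw [← hSdef]
  have hS : ∀ l ∈ S, (l ≤ Q ∧ l.Prime) ∧ ¬ l ∣ R := by
    intro l hl
    rw [hSdef, mem_filter, pr, mem_filter, mem_Icc] at hl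
    exact ⟨⟨hl.1.1.2, hl.1.2⟩, hl.2⟩
  have hSpos : 0 < ∏ q ∈ S, q := prod_pos fun q hq => (hS q hq).1.2.pos
  have hdisj : Disjoint R.primeFactors S := by
    rw [disjoint_left]
    intro l h1 h2
    exact (hS l h2).2 (Nat.dvd_of_mem_primeFactors h1)
  have hunion : R.primeFactors ∪ S = pr Q := by
    ext l
    rw [mem_union, hSdef, mem_filter, Nat.mem_primeFactors]
    constructor
    · rintro (⟨h1, h2, -⟩ | h1)
      · rw [pr, mem_filter, mem_Icc]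
        exact ⟨⟨h1.one_le, (Nat.Prime.dvd_factorial h1).1 (h2.trans hRQ)⟩, h1⟩
      · exact h1.1
    · intro h1
      by_cases h2 : l ∣ R
      · left
        rw [pr, mem_filter] at h1
        exact ⟨h1.2, h2, hR.ne'⟩
      · exact Or.inr ⟨h1, h2⟩
  have hper : ∀ m : ℤ, Phf p (pr Q) (at' φ (m + (R * ∏ q ∈ S, q : ℕ))) = Phf p (pr Q) (at' φ m) := by
    intro m
    rw [← hunion, p3_ph p _ _ hdisj, p3_ph p _ _ hdisj,
      P2_Ph φ hφ p R _ (Dvd.intro _ rfl) hd m]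
    congr 1
    refine prod_congr rfl fun q hq => ?_
    exact p3_g_per φ hφ q _ ((Finset.dvd_prod_of_mem (fun q => q) hq).trans (dvd_mul_left _ _)) m
  have hcop : Nat.Coprime R (∏ q ∈ S, q) := by
    apply Nat.Coprime.prod_right
    intro q hq
    rw [Nat.coprime_comm, Nat.Prime.coprime_iff_not_dvd (hS q hq).1.2]
    exact (hS q hq).2
  have hdvdN : R * ∏ q ∈ S, q ∣ Q.factorial := by
    apply hcop.mul_dvd_of_dvd_of_dvd hRQ
    apply Finset.prod_primes_dvd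
    · intro q hq
      exact (hS q hq).1.2.prime
    · intro q hq
      exact (Nat.Prime.dvd_factorial (hS q hq).1.2).2 (hS q hq).1.1
  obtain ⟨j, hj⟩ := hdvdN
  have hfac : 0 < Q.factorial := Nat.factorial_pos Q
  have hj0 : 0 < j := by
    rcases Nat.eq_zero_or_pos j with rfl | h1
    · rw [mul_zero] at hj
      omega
    · exact h1
  have hsum : ∑ n ∈ range (R * ∏ l ∈ S, l), Phf p (pr Q) (at' φ n) =
      (∑ n ∈ range R, Phf p R.primeFactors (at' φ n)) *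
        ∏ l ∈ S, (l * (((1 + tpf l φ : ℝ)) : ℂ)) := by
    rw [← p3_main φ hφ R hR p hd S fun l hl => ⟨(hS l hl).1.2, (hS l hl).2⟩]
    refine sum_congr rfl fun n _ => ?_
    rw [← hunion, p3_ph p _ _ hdisj]
  have hfull := m5a_full (fun n => Phf p (pr Q) (at' φ n)) _ hper j
  unfold MQf MRf SSf
  rw [hj, hfull, hsum, prod_mul_distrib]
  have r0 : (R : ℂ) ≠ 0 := by exact_mod_cast hR.ne'
  have j0 : (j : ℂ) ≠ 0 := by exact_mod_cast hj0.ne'
  have s0 : (∏ l ∈ S, (l : ℂ)) ≠ 0 := by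
    rw [← Nat.cast_prod]
    exact_mod_cast hSpos.ne'
  push_cast
  field_simp

theorem p3_ph0 {k : ℕ} (m : Fin k → ℤ) : Phf (fun _ => p0) ∅ m = 1 := by
  unfold Phf uu
  refine prod_eq_one fun i _ => ?_
  rw [m5b_cj]
  simp

/-- Proof. As `M5_SS`: `P3_M5` with `R = 1` and the trivial characters (`cj p0 m = 1`), or directly. -/
theorem P3_SS {k : ℕ} (φ : Fin k → ℤ → ℤ) (hφ : Cp φ) (Q : ℕ) :
    (∑ n ∈ range Q.factorial, ∏ i, uu (pr Q) (φ i n)) / (Q.factorial : ℝ) = SSf (pr Q) φ := by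
  have h1 := P3_M5 φ hφ Q 1 one_pos (one_dvd _) (fun _ : Fin k => p0) (fun _ => one_dvd _)
  have h2 : (pr Q).filter (fun l => ¬ l ∣ 1) = pr Q := by
    refine Finset.filter_true_of_mem fun l hl h => ?_
    rw [pr, mem_filter] at hl
    exact hl.2.one_lt.ne' (Nat.dvd_one.1 h)
  have h3 : MRf (fun _ : Fin k => p0) 1 φ = 1 := by
    unfold MRf
    rw [Nat.primeFactors_one, Finset.sum_range_one, p3_ph0]
    simp
  rw [h2, h3, one_mul] at h1
  have h4 : MQf Q (fun _ : Fin k => p0) φ =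
      (((∑ n ∈ range Q.factorial, ∏ i, uu (pr Q) (φ i n)) / (Q.factorial : ℝ) : ℝ) : ℂ) := by
    unfold MQf Phf at'
    push_cast
    congr 1
    refine Finset.sum_congr rfl fun n _ => Finset.prod_congr rfl fun i _ => ?_
    rw [m5b_cj, one_mul]
  rw [h4] at h1
  exact (Complex.ofReal_injective h1).symm

/-- Proof. As `M5_loc` in `H59P/M5B.lean`. -/
theorem P3_loc {k : ℕ} (φ : Fin k → ℤ → ℤ) (hφ : Cp φ) (R : ℕ) (hR : 0 < R) :
    MRf (fun _ => p0) R φ = ((SSf R.primeFactors φ : ℝ) : ℂ) := by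
  have hp1 : ∀ l ∈ R.primeFactors, l.Prime ∧ ¬ l ∣ 1 := by
    intro l hl
    have h1 := Nat.prime_of_mem_primeFactors hl
    exact ⟨h1, fun h2 => h1.one_lt.ne' (Nat.dvd_one.1 h2)⟩
  have hpos : 0 < ∏ l ∈ R.primeFactors, l := prod_pos fun q hq => (hp1 q hq).1.pos
  have hPh : ∀ n : ℤ, Phf (fun _ : Fin k => p0) R.primeFactors (at' φ n) =
      ∏ l ∈ R.primeFactors, p3_g φ l n := by
    intro n
    have h1 := p3_ph (fun _ : Fin k => p0) ∅ R.primeFactors (disjoint_empty_left _) φ n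
    rw [empty_union, p3_ph0, one_mul] at h1
    exact h1
  have hmain := p3_main φ hφ 1 one_pos (fun _ : Fin k => p0) (fun _ => one_dvd _) R.primeFactors hp1
  rw [one_mul, Nat.primeFactors_one] at hmain
  have hone : ∑ n ∈ range 1, Phf (fun _ : Fin k => p0) ∅ (at' φ n) = 1 := by
    rw [sum_range_one]
    exact p3_ph0 _
  rw [hone, one_mul] at hmain
  have hmain2 : ∑ n ∈ range (∏ l ∈ R.primeFactors, l),
      Phf (fun _ : Fin k => p0) R.primeFactors (at' φ n) =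
      ∏ l ∈ R.primeFactors, (l * (((1 + tpf l φ : ℝ)) : ℂ)) := by
    rw [← hmain]
    refine sum_congr rfl fun n _ => ?_
    rw [hPh, p3_ph0, one_mul]
  have hper : ∀ m : ℤ, Phf (fun _ : Fin k => p0) R.primeFactors
      (at' φ (m + (∏ l ∈ R.primeFactors, l : ℕ))) =
      Phf (fun _ : Fin k => p0) R.primeFactors (at' φ m) := by
    intro m
    rw [hPh, hPh]
    refine prod_congr rfl fun q hq => ?_
    exact p3_g_per φ hφ q _ (Finset.dvd_prod_of_mem (fun q => q) hq) m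
  obtain ⟨j, hj⟩ := Nat.prod_primeFactors_dvd R
  have hj0 : 0 < j := by
    rcases Nat.eq_zero_or_pos j with rfl | h1
    · rw [mul_zero] at hj
      omega
    · exact h1
  have hsum : ∑ n ∈ range R, Phf (fun _ : Fin k => p0) R.primeFactors (at' φ n) =
      j * ∏ l ∈ R.primeFactors, (l * (((1 + tpf l φ : ℝ)) : ℂ)) := by
    have h1 := m5a_full (fun n => Phf (fun _ : Fin k => p0) R.primeFactors (at' φ n)) _ hper j
    rw [← hj, hmain2] at h1
    exact h1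
  have hRc : (R : ℂ) = (∏ l ∈ R.primeFactors, (l : ℂ)) * j := by
    have h1 : ((R : ℕ) : ℂ) = (((∏ l ∈ R.primeFactors, l) * j : ℕ) : ℂ) := by rw [← hj]
    rw [h1]
    push_cast
    rfl
  have hR0 : (R : ℂ) ≠ 0 := by exact_mod_cast hR.ne'
  unfold MRf SSf
  rw [hsum, prod_mul_distrib, div_eq_iff hR0, hRc]
  push_cast
  ring

end Pool.Agent.Lib.H24P
end

-- from Lib.H24P.Z2B
section

/-!
# Project H24P, chunk Z2B (M): the truncated and the complete main term (compare H59P/Z3A)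
-/

open Finset Polynomial

namespace Pool.Agent.Lib.H24P

open Pool.Agent.Lib.H68T Pool.Agent.Lib.H18Q Pool.Agent.Lib.H59P

theorem z2b_R {k : ℕ} (Q D m0 : ℕ) (hm0 : 1 ≤ m0) (p : Fin (k + 1) → Ch)
    (hp : p ∈ TSf (k + 1) Q D m0) : 0 < Rf m0 p ∧ Rf m0 p ≤ D ∧ (∀ i, (p i).1 ∣ Rf m0 p) ∧
      m0 ∣ Rf m0 p := by
  classical
  unfold TSf at hp
  rw [Finset.mem_filter, Fintype.mem_piFinset] at hp
  obtain ⟨hp1, hp2⟩ := hp
  refine ⟨?_, hp2, ?_, ?_⟩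
  · have h1 : (univ.lcm fun i => (p i).1) ≠ 0 := by
      intro h0
      rw [Finset.lcm_eq_zero_iff] at h0
      obtain ⟨i, _, h2⟩ := h0
      have h3 : 0 < (p i).1 := (mem_PC.mp (hp1 i)).1
      exact h3.ne' h2
    unfold Rf
    exact Nat.lcm_pos hm0 (Nat.pos_of_ne_zero h1)
  · intro i
    unfold Rf
    exact (Finset.dvd_lcm (f := fun i => (p i).1) (Finset.mem_univ i)).trans (Nat.dvd_lcm_right _ _)
  · unfold Rf
    exact Nat.dvd_lcm_left _ _

/-- the size of the mean modulo `R` -/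
theorem z2b_MR {k : ℕ} (Q : ℕ) (p : Fin (k + 1) → Ch) (R : ℕ) (hR : 0 < R) (hRQ : R ≤ Q)
    (φ : Fin (k + 1) → ℤ → ℤ) : ‖MRf p R φ‖ ≤ (2 * (1 + Real.log Q)) ^ (k + 1) := by
  refine (P0_MR p R hR φ).trans ?_
  refine pow_le_pow_left₀ (by positivity) ((M3b R hR).trans ?_) _
  have h1 : Real.log R ≤ Real.log Q :=
    Real.log_le_log (by exact_mod_cast hR) (by exact_mod_cast hRQ)
  linarith

theorem z2b_gam {k : ℕ} (Q D m0 : ℕ) (c' : Fin (k + 1) → Ch → ℂ)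
    (hc' : ∀ i, ∑ p ∈ PC Q, ‖c' i p‖ ≤ 3) :
    ∑ p ∈ TSf (k + 1) Q D m0, ‖∏ i, c' i (p i)‖ ≤ 3 ^ (k + 1) := by
  classical
  calc ∑ p ∈ TSf (k + 1) Q D m0, ‖∏ i, c' i (p i)‖
      = ∑ p ∈ TSf (k + 1) Q D m0, ∏ i, ‖c' i (p i)‖ :=
        Finset.sum_congr rfl fun p _ => norm_prod _ _
    _ ≤ ∑ p ∈ Fintype.piFinset fun _ : Fin (k + 1) => PC Q, ∏ i, ‖c' i (p i)‖ := by
        refine Finset.sum_le_sum_of_subset_of_nonneg ?_ ?_
        · intro p hp
          unfold TSf at hp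
          exact (Finset.mem_filter.mp hp).1
        · intro p _ _
          exact Finset.prod_nonneg fun i _ => norm_nonneg _
    _ = ∏ i, ∑ q ∈ PC Q, ‖c' i q‖ := by
        rw [Finset.prod_univ_sum]
    _ ≤ ∏ _i : Fin (k + 1), (3 : ℝ) :=
        Finset.prod_le_prod (fun i _ => Finset.sum_nonneg fun _ _ => norm_nonneg _) fun i _ => hc' i
    _ = 3 ^ (k + 1) := by
        rw [Finset.prod_const, Finset.card_univ, Fintype.card_fin]


end Pool.Agent.Lib.H24P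
end

-- from Lib.H24P.E1
section

/-!
# Project H24P, chunk E1 (M): cells
-/

open Finset Polynomial

namespace Pool.Agent.Lib.H24P

open Pool.Agent.Lib.H68T Pool.Agent.Lib.H18Q Pool.Agent.Lib.H59P




/-- The base point for long cells is constant on short cells. Proof. `X1 = Hc N = Hf N' N`; both `n` and the left
end of the short cell are in the same interval `[c Hc, (c+1) Hc)`. -/
theorem E1_fine {X1 Hc Hf N' j n : ℕ} (hf : 0 < Hf) (hN : 0 < N') (hc : Hc = Hf * N') (hX : Hc ∣ X1)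
    (hn : n ∈ Ico (X1 + j * Hf) (X1 + j * Hf + Hf)) : bs Hc n = bs Hc (X1 + j * Hf) := by
  have h1 := mem_Ico.mp hn
  obtain ⟨c, rfl⟩ := hX
  have h2 : Hc * c + j * Hf = (N' * c + j) * Hf := by rw [hc]; ring
  rw [h2] at h1 ⊢
  have h3 : n / Hf = N' * c + j := by
    rw [Nat.div_eq_iff hf]
    constructor
    · exact h1.1
    · omega
  unfold bs
  have h4 : n / Hc = (N' * c + j) * Hf / Hc := by
    rw [hc, ← Nat.div_div_eq_div_mul, ← Nat.div_div_eq_div_mul, h3, Nat.mul_div_cancel _ hf]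
  rw [h4]

end Pool.Agent.Lib.H24P
end

-- from Lib.H24P.B5
section

/-!
# Project H24P, chunk B5 (M): mean squares of the linear coordinate
-/

open Finset Polynomial

namespace Pool.Agent.Lib.H24P

open Pool.Agent.Lib.H68T Pool.Agent.Lib.H18Q Pool.Agent.Lib.H59P

theorem b5_per (Q : ℕ) (x t : ℤ) : dQ Q (x + (Q.factorial : ℤ) * t) = dQ Q x := by
  unfold dQ
  congr 2
  refine Finset.filter_congr fun d hd => ?_
  rw [Finset.mem_Icc] at hd
  have h1 : (d : ℤ) ∣ (Q.factorial : ℤ) * t :=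
    Dvd.dvd.mul_right (Int.natCast_dvd_natCast.2 (Nat.dvd_factorial (by omega) hd.2)) t
  constructor
  · intro h
    exact (Int.dvd_add_left h1).1 h
  · intro h
    exact (Int.dvd_add_left h1).2 h

theorem b5_core (Q W H : ℕ) (hW : 0 < W) (x : ℤ) (hx : IsCoprime x (W : ℤ)) :
    ∑ c ∈ range H, dQ Q (x + W * (c : ℤ)) ^ 2 ≤ H * (1 + Real.log Q) ^ 3 + (Q : ℝ) ^ 2 := by
  have hW' : (1 : ℤ) ≤ W := by exact_mod_cast hW
  have hF : (1 : ℤ) ≤ (Q.factorial : ℤ) := by exact_mod_cast Nat.succ_le_of_lt (Nat.factorial_pos Q)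
  have h0 : 0 ≤ x + (Q.factorial : ℤ) * (W * |x|) := by
    have h1 : |x| ≤ (Q.factorial : ℤ) * (W * |x|) := by
      have h2 := abs_nonneg x
      calc |x| = 1 * (1 * |x|) := by ring
        _ ≤ (Q.factorial : ℤ) * (W * |x|) := by gcongr
    have h3 := neg_abs_le x
    linarith
  obtain ⟨b, hb⟩ := Int.eq_ofNat_of_zero_le h0
  have hbW : Nat.Coprime b W := by
    rw [← Nat.isCoprime_iff_coprime]
    have h4 : (b : ℤ) = x + (W : ℤ) * ((Q.factorial : ℤ) * |x|) := by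
      rw [← hb]
      ring
    rw [h4]
    exact (IsCoprime.add_mul_left_left_iff).2 hx
  have h5 := dQ_moment Q H W b 0 hW hbW
  refine le_trans (le_of_eq ?_) h5
  refine Finset.sum_congr rfl fun c _ => ?_
  have h6 : (b : ℤ) + W * ((0 + c : ℕ) : ℤ) = (x + W * (c : ℤ)) + (Q.factorial : ℤ) * (W * |x|) := by
    rw [← hb, Nat.zero_add]
    ring
  rw [h6, b5_per]

/-- Proof. `B(n) = b + a n`, `gcd(a, b) = 1`. `dQ Q m` depends only on `m` modulo `Q!` and `dQ Q (-m) = dQ Q m`. If `a < 0`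
reflect the interval (`n ↦ 2 a0 + H - 1 - n`). So the sum is `∑_{c < H} dQ(x + W c)^2` with `W = |a| ≥ 1` and an
integer `x` coprime to `W`, which may be replaced by `x + W Q! t ≥ 0`; then `x = b' + W s` with naturals, `b' = x % W`:
`dQ_moment` (`H68T/CG2.lean`). -/
theorem B5_dQ (Q A : ℕ) (B : ℤ[X]) (hB : Lin A B) (a H : ℕ) :
    ∑ n ∈ Ico a (a + H), dQ Q (B.eval (n : ℤ)) ^ 2 ≤ H * (1 + Real.log Q) ^ 3 + (Q : ℝ) ^ 2 := by
  have hev : ∀ n : ℤ, B.eval n = B.coeff 0 + B.coeff 1 * n := by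
    intro n
    rw [Polynomial.eval_eq_sum_range, hB.deg]
    simp [Finset.sum_range_succ]
  have hc1 : B.coeff 1 ≠ 0 := by
    have h1 : B.leadingCoeff ≠ 0 := by
      rw [Polynomial.leadingCoeff_ne_zero]
      intro h
      have h2 := hB.deg
      rw [h] at h2
      simp at h2
    rwa [Polynomial.leadingCoeff, hB.deg] at h1
  rcases lt_or_gt_of_ne hc1 with hneg | hpos
  · -- negative
    obtain ⟨W, hW⟩ : ∃ W : ℕ, (W : ℤ) = -B.coeff 1 := ⟨(-B.coeff 1).toNat, by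
      rw [Int.toNat_of_nonneg (by linarith)]⟩
    have hW0 : 0 < W := by
      have : (0 : ℤ) < W := by rw [hW]; linarith
      exact_mod_cast this
    have hx : IsCoprime (B.coeff 0 + (W : ℤ) * (-((a : ℤ) + H - 1))) (W : ℤ) := by
      rw [IsCoprime.add_mul_left_left_iff, hW]
      exact (IsCoprime.neg_right_iff _ _).2 hB.cop
    have h1 := b5_core Q W H hW0 _ hx
    refine le_trans (le_of_eq ?_) h1
    rw [Finset.sum_Ico_eq_sum_range, Nat.add_sub_cancel_left]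
    rw [← Finset.sum_range_reflect]
    refine Finset.sum_congr rfl fun c hc => ?_
    rw [Finset.mem_range] at hc
    have h2 : ((a + (H - 1 - c) : ℕ) : ℤ) = a + H - 1 - c := by
      have : 1 + c ≤ H := by omega
      rw [Nat.sub_sub]
      push_cast [this]
      ring
    have h4 : B.eval ((a + (H - 1 - c) : ℕ) : ℤ) =
        B.coeff 0 + (W : ℤ) * (-((a : ℤ) + H - 1)) + W * (c : ℤ) := by
      rw [hev, h2, hW]
      ring
    rw [h4]
  · obtain ⟨W, hW⟩ : ∃ W : ℕ, (W : ℤ) = B.coeff 1 := ⟨(B.coeff 1).toNat, by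
      rw [Int.toNat_of_nonneg (by linarith)]⟩
    have hW0 : 0 < W := by
      have : (0 : ℤ) < W := by rw [hW]; linarith
      exact_mod_cast this
    have hx : IsCoprime (B.coeff 0 + (W : ℤ) * a) (W : ℤ) := by
      rw [IsCoprime.add_mul_left_left_iff, hW]
      exact hB.cop
    have h1 := b5_core Q W H hW0 _ hx
    refine le_trans (le_of_eq ?_) h1
    rw [Finset.sum_Ico_eq_sum_range, Nat.add_sub_cancel_left]
    refine Finset.sum_congr rfl fun c hc => ?_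
    have h4 : B.eval ((a + c : ℕ) : ℤ) = B.coeff 0 + (W : ℤ) * a + W * (c : ℤ) := by
      rw [hev, hW]
      push_cast
      ring
    rw [h4]

/-- Proof. `Fc Q p m = Gam Q p.1 m conj χ(m)` (`gam_expand`) `= SG Q b m` with `b = 1` at `p` and `0` else, so
`‖Fc‖ ≤ 100 (1 + log Q)^3 dQ Q m` (`S1b` with `mb = b`). -/
theorem B5_Fc (Q : ℕ) (hQ : 1 ≤ Q) (p : Ch) (hp : p ∈ PC Q) (m : ℤ) :
    ‖Fc Q p m‖ ≤ 100 * (1 + Real.log Q) ^ 3 * dQ Q m := by
  classical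
  have h1 := S1b Q hQ (fun q => if q = p then 1 else 0) (fun q => if q = p then 1 else 0)
    (fun q _ => by split_ifs <;> simp) m
  have h2 : SG Q (fun q => if q = p then 1 else 0) m = Fc Q p m := by
    unfold SG Fc
    rw [← gam_expand Q p hp m, Finset.sum_eq_single_of_mem p hp]
    · beta_reduce
      rw [if_pos rfl, mul_one]
    · intro q _ hq
      beta_reduce
      rw [if_neg hq, mul_zero]
  have h3 : ∑ q ∈ PC Q, (if q = p then (1 : ℝ) else 0) = 1 := by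
    rw [Finset.sum_ite_eq' (PC Q) p (fun _ => (1 : ℝ)), if_pos hp]
  rw [h2, h3, mul_one] at h1
  exact h1

/-- Proof. `B5_Fc`, `B5_dQ`. -/
theorem B5_sq (Q A : ℕ) (hQ : 1 ≤ Q) (p : Ch) (hp : p ∈ PC Q) (B : ℤ[X]) (hB : Lin A B) (a H : ℕ)
    (hH : Q ^ 2 ≤ H) :
    ∑ n ∈ Ico a (a + H), ‖Fc Q p (B.eval (n : ℤ))‖ ^ 2 ≤ 20000 * (1 + Real.log Q) ^ 9 * H := by
  have hL : 0 ≤ Real.log Q := Real.log_nonneg (by exact_mod_cast hQ)
  have hH' : (Q : ℝ) ^ 2 ≤ H := by exact_mod_cast hH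
  have h1 : ∑ n ∈ Ico a (a + H), ‖Fc Q p (B.eval (n : ℤ))‖ ^ 2 ≤
      ∑ n ∈ Ico a (a + H), (100 * (1 + Real.log Q) ^ 3) ^ 2 * dQ Q (B.eval (n : ℤ)) ^ 2 := by
    refine Finset.sum_le_sum fun n _ => ?_
    rw [← mul_pow]
    exact pow_le_pow_left₀ (norm_nonneg _) (B5_Fc Q hQ p hp _) 2
  rw [← Finset.mul_sum] at h1
  have h2 := B5_dQ Q A B hB a H
  have h3 : (H : ℝ) * (1 + Real.log Q) ^ 3 + (Q : ℝ) ^ 2 ≤ 2 * ((1 + Real.log Q) ^ 3 * H) := by
    have h4 : (1 : ℝ) ≤ (1 + Real.log Q) ^ 3 := one_le_pow₀ (by linarith)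
    have h5 : (H : ℝ) ≤ (1 + Real.log Q) ^ 3 * H := le_mul_of_one_le_left (Nat.cast_nonneg H) h4
    nlinarith
  calc ∑ n ∈ Ico a (a + H), ‖Fc Q p (B.eval (n : ℤ))‖ ^ 2
      ≤ (100 * (1 + Real.log Q) ^ 3) ^ 2 * ∑ n ∈ Ico a (a + H), dQ Q (B.eval (n : ℤ)) ^ 2 := h1
    _ ≤ (100 * (1 + Real.log Q) ^ 3) ^ 2 * (2 * ((1 + Real.log Q) ^ 3 * H)) :=
        mul_le_mul_of_nonneg_left (h2.trans h3) (by positivity)
    _ = 20000 * (1 + Real.log Q) ^ 9 * H := by ring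

end Pool.Agent.Lib.H24P
end

-- from Lib.H24P.Z1L
section

/-!
# Project H24P, chunk Z1L (M): tuples of characters with large modulus
-/

open Finset Polynomial

namespace Pool.Agent.Lib.H24P

open Pool.Agent.Lib.H68T Pool.Agent.Lib.H18Q Pool.Agent.Lib.H59P

theorem z1l_sq (x y : ℂ) : ‖x + y‖ ^ 2 ≤ 2 * ‖x‖ ^ 2 + 2 * ‖y‖ ^ 2 := by
  have h1 : ‖x + y‖ ≤ ‖x‖ + ‖y‖ := norm_add_le x y
  have h2 : 0 ≤ ‖x + y‖ := norm_nonneg _
  nlinarith [sq_nonneg (‖x‖ - ‖y‖)]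


theorem z1l_prod {k : ℕ} (Q : ℕ) (P : Fin k → ℤ[X]) (p : Fin k → Ch) (h : Fin k → ℕ) (n : ℕ) :
    ∏ i : Fin k, Fc Q (p i) ((P i).eval (n : ℤ) + h i) =
      ∑ κ ∈ Fintype.piFinset (fun i : Fin k => KS Q (p i).1),
        ∏ i, gk (p i) (κ i) ((P i).eval (n : ℤ) + h i) := by
  unfold Fc
  rw [Finset.prod_univ_sum]

/-- the tuples with small moduli, the linear coordinate with a large one -/
theorem z1l_small {k : ℕ} (Q D7 : ℕ) (hQ : 1 ≤ Q) (P : Fin k → ℤ[X]) (p0' : Ch)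
    (hp0 : p0' ∈ PC (Q ^ 100)) (B : ℤ[X]) (hB : B.natDegree = 1)
    (hlarge : B.leadingCoeff.natAbs * D7 < p0'.1) (p : Fin k → Ch) (hp : ∀ i, p i ∈ PC Q)
    (a H : ℕ) (h : Fin k → ℕ) :
    ‖∑ n ∈ Ico a (a + H), Fc (Q ^ 100) p0' (B.eval (n : ℤ)) *
      ∑ κ ∈ (Fintype.piFinset (fun i : Fin k => KS Q (p i).1)).filter
        (fun κ => ¬ D7 < univ.lcm (fun i => (p i).1 * κ i)),
        ∏ i, gk (p i) (κ i) ((P i).eval (n : ℤ) + h i)‖ ≤
      2 * (Q : ℝ) ^ 300 * (D7 : ℝ) ^ (2 * k + 1) := by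
  classical
  set S : Finset (Fin k → ℕ) := (Fintype.piFinset (fun i : Fin k => KS Q (p i).1)).filter
        (fun κ => ¬ D7 < univ.lcm (fun i => (p i).1 * κ i)) with hS
  have hr1 : ∀ i, 1 ≤ (p i).1 := fun i => (mem_PC.1 (hp i)).1
  have hfacts : ∀ κ ∈ S, (∀ i, κ i ∈ KS Q (p i).1) ∧ (∀ i, 1 ≤ κ i) ∧
      0 < univ.lcm (fun i => (p i).1 * κ i) ∧ univ.lcm (fun i => (p i).1 * κ i) ≤ D7 ∧
      ∀ i, (p i).1 * κ i ≤ D7 := by
    intro κ hκ
    rw [hS, mem_filter, Fintype.mem_piFinset] at hκ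
    have h1 : ∀ i, 1 ≤ κ i := fun i => (CA_mem_KS.1 (hκ.1 i)).1.1
    have h2 : 0 < univ.lcm (fun i => (p i).1 * κ i) := by
      refine Nat.pos_of_ne_zero ?_
      rw [Finset.lcm_ne_zero_iff]
      intro i _
      have := Nat.mul_pos (hr1 i) (h1 i)
      omega
    refine ⟨hκ.1, h1, h2, not_lt.1 hκ.2, fun i => ?_⟩
    exact (Nat.le_of_dvd h2 (Finset.dvd_lcm (f := fun i => (p i).1 * κ i) (mem_univ i))).trans
      (not_lt.1 hκ.2)
  have e1 : ∑ n ∈ Ico a (a + H), Fc (Q ^ 100) p0' (B.eval (n : ℤ)) *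
      ∑ κ ∈ S, ∏ i, gk (p i) (κ i) ((P i).eval (n : ℤ) + h i) =
      ∑ κ ∈ S, ∑ n ∈ Ico a (a + H), Fc (Q ^ 100) p0' (B.eval (n : ℤ)) *
        ∏ i, gk (p i) (κ i) ((P i).eval (n : ℤ) + h i) := by
    rw [Finset.sum_comm]
    refine Finset.sum_congr rfl fun n _ => ?_
    rw [Finset.mul_sum]
  rw [e1]
  have hone : ∀ κ ∈ S, ‖∑ n ∈ Ico a (a + H), Fc (Q ^ 100) p0' (B.eval (n : ℤ)) *
        ∏ i, gk (p i) (κ i) ((P i).eval (n : ℤ) + h i)‖ ≤
      2 * (Q : ℝ) ^ 300 * D7 * (D7 : ℝ) ^ k := by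
    intro κ hκ
    obtain ⟨hK, h1, hN0, hND, hle⟩ := hfacts κ hκ
    have hB4 := B4_large (Q ^ 100) (univ.lcm (fun i => (p i).1 * κ i)) p0' hp0 B hB hN0
      (lt_of_le_of_lt (Nat.mul_le_mul_left _ hND) hlarge)
      (fun n => ∏ i, gk (p i) (κ i) ((P i).eval n + h i))
      (fun n => by
        refine Finset.prod_congr rfl fun i _ => ?_
        have h2 := Polynomial.sub_dvd_eval_sub (n + (univ.lcm (fun i => (p i).1 * κ i) : ℕ)) n (P i)
        rw [add_sub_cancel_left] at h2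
        have h3 : (((p i).1 * κ i : ℕ) : ℤ) ∣
            (P i).eval (n + (univ.lcm (fun i => (p i).1 * κ i) : ℕ)) - (P i).eval n :=
          (Int.natCast_dvd_natCast.2
            (Finset.dvd_lcm (f := fun i => (p i).1 * κ i) (mem_univ i))).trans h2
        obtain ⟨c, hc⟩ := h3
        have h4 : (P i).eval (n + (univ.lcm (fun i => (p i).1 * κ i) : ℕ)) + (h i : ℤ) =
            ((P i).eval n + h i) + (((p i).1 * κ i : ℕ) : ℤ) * c := by linarith
        rw [h4, gk_period])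
      ((D7 : ℝ) ^ k) (fun n => by
        rw [norm_prod]
        calc ∏ i, ‖gk (p i) (κ i) ((P i).eval n + h i)‖ ≤ ∏ _i : Fin k, (D7 : ℝ) := by
              refine Finset.prod_le_prod (fun i _ => norm_nonneg _) fun i _ => ?_
              have hrD : (p i).1 ≤ D7 := (Nat.le_mul_of_pos_right _ (h1 i)).trans (hle i)
              have hpD : p i ∈ PC D7 := mem_PC.2 ⟨hr1 i, hrD, (mem_PC.1 (hp i)).2.2⟩
              have hκD : κ i ∈ KS D7 (p i).1 := by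
                rw [CA_mem_KS]
                refine ⟨⟨h1 i, ?_⟩, (CA_mem_KS.1 (hK i)).2⟩
                rw [Nat.le_div_iff_mul_le (hr1 i), mul_comm]
                exact hle i
              exact gk_bound D7 (p i) hpD (κ i) hκD _
          _ = (D7 : ℝ) ^ k := by rw [Finset.prod_const, Finset.card_univ, Fintype.card_fin]) a H
    refine hB4.trans ?_
    have hND' : ((univ.lcm (fun i => (p i).1 * κ i) : ℕ) : ℝ) ≤ D7 := by exact_mod_cast hND
    calc 2 * (((Q ^ 100 : ℕ) : ℝ)) ^ 3 * ((univ.lcm (fun i => (p i).1 * κ i) : ℕ) : ℝ) * (D7 : ℝ) ^ k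
        = 2 * (Q : ℝ) ^ 300 * ((univ.lcm (fun i => (p i).1 * κ i) : ℕ) : ℝ) * (D7 : ℝ) ^ k := by
          rw [Nat.cast_pow, ← pow_mul]
      _ ≤ 2 * (Q : ℝ) ^ 300 * D7 * (D7 : ℝ) ^ k := by gcongr
  have hcard : (S.card : ℝ) ≤ (D7 : ℝ) ^ k := by
    have h1 : S ⊆ Fintype.piFinset fun _ : Fin k => Icc 1 D7 := by
      intro κ hκ
      obtain ⟨-, h1, -, -, hle⟩ := hfacts κ hκ
      rw [Fintype.mem_piFinset]
      intro i
      rw [Finset.mem_Icc]
      exact ⟨h1 i, (Nat.le_mul_of_pos_left _ (hr1 i)).trans (hle i)⟩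
    have h2 := Finset.card_le_card h1
    rw [Fintype.card_piFinset, Finset.prod_const, Finset.card_univ, Fintype.card_fin, Nat.card_Icc,
      Nat.add_sub_cancel] at h2
    exact_mod_cast h2
  calc _ ≤ ∑ _κ ∈ S, 2 * (Q : ℝ) ^ 300 * D7 * (D7 : ℝ) ^ k := norm_sum_le_of_le _ hone
    _ = S.card * (2 * (Q : ℝ) ^ 300 * D7 * (D7 : ℝ) ^ k) := by rw [Finset.sum_const, nsmul_eq_mul]
    _ ≤ (D7 : ℝ) ^ k * (2 * (Q : ℝ) ^ 300 * D7 * (D7 : ℝ) ^ k) :=
        mul_le_mul_of_nonneg_right hcard (by positivity)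
    _ = 2 * (Q : ℝ) ^ 300 * (D7 : ℝ) ^ (2 * k + 1) := by ring


end Pool.Agent.Lib.H24P
end

-- from Lib.H24P.Z1S
section

/-!
# Project H24P, chunk Z1S (M/L): tuples of characters with small modulus
-/

open Finset Polynomial

namespace Pool.Agent.Lib.H24P

open Pool.Agent.Lib.H68T Pool.Agent.Lib.H18Q Pool.Agent.Lib.H59P

theorem z1s_mem_SF {D R d : ℕ} : d ∈ SF D R ↔ (1 ≤ d ∧ d ≤ D) ∧ Squarefree d ∧ Nat.Coprime d R := by
  unfold SF
  rw [mem_filter, mem_Icc]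

theorem z1s_PC {Q : ℕ} (hQ : 1 ≤ Q) {p : Ch} (hp : p ∈ PC Q) : p ∈ PC (Q ^ 100) := by
  rw [mem_PC] at hp ⊢
  refine ⟨hp.1, hp.2.1.trans ?_, hp.2.2⟩
  calc Q = Q ^ 1 := (pow_one Q).symm
    _ ≤ Q ^ 100 := Nat.pow_le_pow_right hQ (by norm_num)

/-- one modulus `d` -/
theorem z1s_one {k : ℕ} (Q A : ℕ) (hQ : 1 ≤ Q) (hbd : (2 * (1 + Real.log Q)) ^ (2 * k) ≤ (Q : ℝ))
    (B : ℤ[X]) (hB : Lin A B) (P : Fin k → ℤ[X]) (R D : ℕ) (hR : 1 ≤ R)
    (ha : B.leadingCoeff.natAbs ∣ R) (hDQ : D * D ≤ Q) (p : Fin (k + 1) → Ch) (hp : ∀ i, p i ∈ PC Q)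
    (hd : ∀ i, (p i).1 ∣ R) (a H : ℕ) (h : Fin k → ℕ) (d : ℕ) (hdS : d ∈ SF (D / R) R) :
    ‖∑ n ∈ Ico a (a + H), Fc (Q ^ 100) (p 0) (B.eval (n : ℤ)) *
        (Phf (fun i : Fin k => p i.succ) R.primeFactors (at' (ran P h) n) *
          ((Wdf d (at' (ran P h) n) : ℝ) : ℂ)) -
      H * (MRf p R (sys B P h) * ((tdf d (sys B P h) : ℝ) : ℂ))‖ ≤ 4 * (Q : ℝ) ^ 401 := by
  obtain ⟨⟨hd1, hd2⟩, hsq, hcop⟩ := z1s_mem_SF.1 hdS
  have hQ1 : (1 : ℝ) ≤ Q := by exact_mod_cast hQ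
  have hRd : R * d ≤ D := by
    have := (Nat.le_div_iff_mul_le (by omega)).1 hd2
    rw [mul_comm]
    exact this
  have hRd0 : 0 < R * d := Nat.mul_pos (by omega) (by omega)
  have hD1 : 1 ≤ D := by omega
  have hDQ1 : D ≤ Q := (Nat.le_mul_of_pos_left D (by omega)).trans hDQ
  have hRQ : R ≤ Q := (Nat.le_mul_of_pos_right R (by omega)).trans (hRd.trans hDQ1)
  have hdQ : d ≤ Q := (Nat.le_mul_of_pos_left d (by omega)).trans (hRd.trans hDQ1)
  have hNQ : (R * d) * (R * d) ≤ Q ^ 100 := by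
    calc (R * d) * (R * d) ≤ D * D := Nat.mul_le_mul hRd hRd
      _ ≤ Q := hDQ
      _ = Q ^ 1 := (pow_one Q).symm
      _ ≤ Q ^ 100 := Nat.pow_le_pow_right hQ (by norm_num)
  obtain ⟨ψ, hψ⟩ : ∃ ψ : ℤ → ℂ, ψ = fun n => Phf (fun i : Fin k => p i.succ) R.primeFactors (at' (ran P h) n) *
      ((Wdf d (at' (ran P h) n) : ℝ) : ℂ) := ⟨_, rfl⟩
  have hper : ∀ n, ψ (n + (R * d : ℕ)) = ψ n := by
    intro n
    rw [hψ]
    beta_reduce
    rw [P2_Ph (ran P h) (P2_ran P h) (fun i : Fin k => p i.succ) R (R * d) (dvd_mul_right _ _)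
      (fun i => hd i.succ) n, P2_Wd (ran P h) (P2_ran P h) d (R * d) (dvd_mul_left _ _) n]
  have hlog : ∀ x : ℕ, 1 ≤ x → x ≤ Q → (x : ℝ) / (Nat.totient x : ℝ) ≤ 2 * (1 + Real.log Q) := by
    intro x hx hxQ
    refine (M3b x hx).trans ?_
    have hx0 : (0 : ℝ) < x := by exact_mod_cast (by omega : 0 < x)
    have : Real.log x ≤ Real.log Q := Real.log_le_log hx0 (by exact_mod_cast hxQ)
    linarith
  have hbd' : ∀ n, ‖ψ n‖ ≤ (Q : ℝ) := by
    intro n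
    rw [hψ]
    beta_reduce
    rw [norm_mul, Complex.norm_real, Real.norm_eq_abs]
    have h1 := P0_PhR (fun i : Fin k => p i.succ) R (by omega) (at' (ran P h) n)
    have h2 := P0_W d hsq (at' (ran P h) n)
    have h3 : ((R : ℝ) / (Nat.totient R : ℝ)) ^ k ≤ (2 * (1 + Real.log Q)) ^ k :=
      pow_le_pow_left₀ (by positivity) (hlog R (by omega) hRQ) k
    have h4 : ((d : ℝ) / (Nat.totient d : ℝ)) ^ k ≤ (2 * (1 + Real.log Q)) ^ k :=
      pow_le_pow_left₀ (by positivity) (hlog d hd1 hdQ) k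
    have hl : 0 ≤ Real.log Q := Real.log_nonneg hQ1
    calc _ ≤ (2 * (1 + Real.log Q)) ^ k * (2 * (1 + Real.log Q)) ^ k :=
          mul_le_mul (h1.trans h3) (h2.trans h4) (abs_nonneg _) (by positivity)
      _ = (2 * (1 + Real.log Q)) ^ (2 * k) := by
          rw [← pow_add]
          congr 1
          ring
      _ ≤ Q := hbd
  have h1 := B4_small (Q ^ 100) (R * d) (p 0) (z1s_PC hQ (hp 0)) ((hd 0).trans (dvd_mul_right _ _))
    B hB.deg (ha.trans (dvd_mul_right _ _)) hRd0 hNQ ψ hper Q hbd' a H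
  have h2 := B2_fac B hB.deg P h p R d (by omega) ha hd hsq hcop
  rw [hψ] at h1
  beta_reduce at h1
  rw [h2] at h1
  refine h1.trans (le_of_eq ?_)
  push_cast
  ring

/-- The part with `lcm(R, κ) ≤ D`, for each `h`. Proof. `P1_M2` for the random coordinates (`p i.succ`, `D ≤ Q`), so the
inner sum is `Phf p' R.primeFactors m ∑_{d ∈ SF (D/R) R} Wdf d m`, `m = at' (ran P h) n`. For each `d` the function
`ψ(n) = Phf … Wdf d …` has period `N = R d ≤ D` (`P2_ran`, `P2_Ph`, `P2_Wd`), `‖ψ‖ ≤ (2(1+log Q))^(2k) ≤ Q` (`P0_PhR`,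
`P0_W`, `M3b` of `H59P`). `B4_small` at the level `Q^100` for `p 0 ∈ PC Q ⊆ PC (Q^100)` and `N` (`N² ≤ D² ≤ Q`;
`(p 0).1 ∣ R ∣ N`), and `B2_fac`: error `4 Q^400 Q` for each of the at most `D ≤ Q` values of `d`. -/
theorem Z1S_main (k A : ℕ) : ∃ Q0 : ℕ, ∀ Q : ℕ, Q0 ≤ Q → ∀ B : ℤ[X], Lin A B → ∀ P : Fin k → ℤ[X],
    ∀ R D : ℕ, 1 ≤ R → B.leadingCoeff.natAbs ∣ R → D * D ≤ Q → ∀ p : Fin (k + 1) → Ch,
    (∀ i, p i ∈ PC Q) → (∀ i, (p i).1 ∣ R) → ∀ (a H : ℕ) (h : Fin k → ℕ),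
    ‖∑ n ∈ Ico a (a + H), Fc (Q ^ 100) (p 0) (B.eval (n : ℤ)) *
        ∑ κ ∈ (Fintype.piFinset fun i : Fin k => KS Q (p i.succ).1).filter
          (fun κ => R.lcm (univ.lcm κ) ≤ D), ∏ i, gk (p i.succ) (κ i) ((P i).eval (n : ℤ) + h i) -
      H * (MRf p R (sys B P h) * ((∑ d ∈ SF (D / R) R, tdf d (sys B P h) : ℝ) : ℂ))‖ ≤
      (Q : ℝ) ^ 410 := by
  obtain ⟨Q1, hQ1, hlog⟩ := G1_rlog (2 ^ (2 * k)) ((2 * k : ℕ) : ℝ) 1 one_pos
  refine ⟨max 2 Q1, ?_⟩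
  intro Q hQ B hB P R D hR ha hDQ p hp hd a H h
  have hQ2 : 2 ≤ Q := (le_max_left _ _).trans hQ
  have hbd : (2 * (1 + Real.log Q)) ^ (2 * k) ≤ (Q : ℝ) := by
    have h1 := hlog Q ((le_max_right _ _).trans hQ)
    rw [Real.rpow_natCast, Real.rpow_one, ← mul_pow] at h1
    exact h1
  have hDQ1 : D ≤ Q := by
    rcases Nat.eq_zero_or_pos D with h0 | h0
    · omega
    · exact (Nat.le_mul_of_pos_left D h0).trans hDQ
  have hin : ∀ n : ℤ, ∑ κ ∈ (Fintype.piFinset fun i : Fin k => KS Q (p i.succ).1).filter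
          (fun κ => R.lcm (univ.lcm κ) ≤ D), ∏ i, gk (p i.succ) (κ i) ((P i).eval (n : ℤ) + h i) =
      Phf (fun i : Fin k => p i.succ) R.primeFactors (at' (ran P h) n) *
        ∑ d ∈ SF (D / R) R, ((Wdf d (at' (ran P h) n) : ℝ) : ℂ) := fun n =>
    P1_M2 Q D R hDQ1 (by omega) (fun i : Fin k => p i.succ) (fun i => hp i.succ)
      (fun i => hd i.succ) (at' (ran P h) n)
  have e1 : ∑ n ∈ Ico a (a + H), Fc (Q ^ 100) (p 0) (B.eval (n : ℤ)) *
        ∑ κ ∈ (Fintype.piFinset fun i : Fin k => KS Q (p i.succ).1).filter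
          (fun κ => R.lcm (univ.lcm κ) ≤ D), ∏ i, gk (p i.succ) (κ i) ((P i).eval (n : ℤ) + h i) -
      H * (MRf p R (sys B P h) * ((∑ d ∈ SF (D / R) R, tdf d (sys B P h) : ℝ) : ℂ)) =
      ∑ d ∈ SF (D / R) R, (∑ n ∈ Ico a (a + H), Fc (Q ^ 100) (p 0) (B.eval (n : ℤ)) *
        (Phf (fun i : Fin k => p i.succ) R.primeFactors (at' (ran P h) n) *
          ((Wdf d (at' (ran P h) n) : ℝ) : ℂ)) -
      H * (MRf p R (sys B P h) * ((tdf d (sys B P h) : ℝ) : ℂ))) := by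
    rw [Finset.sum_sub_distrib, Finset.sum_comm]
    congr 1
    · refine Finset.sum_congr rfl fun n _ => ?_
      rw [hin, Finset.mul_sum, Finset.mul_sum]
    · rw [← Finset.mul_sum, ← Finset.mul_sum, Complex.ofReal_sum]
  rw [e1]
  have hcard : ((SF (D / R) R).card : ℝ) ≤ Q := by
    have h1 : SF (D / R) R ⊆ Icc 1 Q := by
      intro d hd'
      obtain ⟨⟨a1, a2⟩, -⟩ := z1s_mem_SF.1 hd'
      rw [Finset.mem_Icc]
      exact ⟨a1, (a2.trans (Nat.div_le_self _ _)).trans hDQ1⟩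
    have h2 := Finset.card_le_card h1
    rw [Nat.card_Icc, Nat.add_sub_cancel] at h2
    exact_mod_cast h2
  have hQr : (2 : ℝ) ≤ Q := by exact_mod_cast hQ2
  calc _ ≤ ∑ _d ∈ SF (D / R) R, 4 * (Q : ℝ) ^ 401 :=
        norm_sum_le_of_le _ fun d hd' => z1s_one Q A (by omega) hbd B hB P R D hR ha hDQ p hp hd a H h d hd'
    _ = (SF (D / R) R).card * (4 * (Q : ℝ) ^ 401) := by rw [Finset.sum_const, nsmul_eq_mul]
    _ ≤ Q * (4 * (Q : ℝ) ^ 401) := mul_le_mul_of_nonneg_right hcard (by positivity)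
    _ ≤ Q * (Q ^ 2 * (Q : ℝ) ^ 401) := by
        have : (4 : ℝ) ≤ Q ^ 2 := by nlinarith
        gcongr
    _ = (Q : ℝ) ^ 404 := by ring
    _ ≤ (Q : ℝ) ^ 410 := pow_le_pow_right₀ (by linarith) (by norm_num)

theorem z1s_sq (x y : ℂ) : ‖x + y‖ ^ 2 ≤ 2 * ‖x‖ ^ 2 + 2 * ‖y‖ ^ 2 := by
  have h1 : ‖x + y‖ ≤ ‖x‖ + ‖y‖ := norm_add_le x y
  have h2 : 0 ≤ ‖x + y‖ := norm_nonneg _
  nlinarith [sq_nonneg (‖x‖ - ‖y‖)]



end Pool.Agent.Lib.H24P
end

-- from Lib.H24P.W2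
section

/-!
# Project H24P, chunk W2 (M): the linear coordinate minus its projection
-/

open Finset Polynomial

namespace Pool.Agent.Lib.H24P

open Pool.Agent.Lib.H68T Pool.Agent.Lib.H18Q Pool.Agent.Lib.H59P

/-- The primes minus the projection at level `Q^100` at the linear coordinate. -/
noncomputable def fB (Q Y : ℕ) (B : ℤ[X]) (n : ℕ) : ℝ :=
  lp (B.eval (n : ℤ)) - Lk (Q ^ 100) (Y / (Q ^ 100) ^ 2) (B.eval (n : ℤ))

/-- A sum along a progression in `[Y, 3Y)`, with a linear phase. -/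
theorem w2_ap (g : ℤ → ℂ) (Y : ℕ) (δ : ℝ)
    (hg : ∀ θ : ℝ, ∀ u v : ℤ, (Y : ℤ) ≤ u → v ≤ 4 * Y → ‖∑ m ∈ Ico u v, g m * e (m * θ)‖ ≤ δ)
    (W : ℕ) (hW : 0 < W) (x : ℤ) (H : ℕ)
    (hx : ∀ c : ℕ, c < H → (Y : ℤ) ≤ x + W * c ∧ x + W * c < 3 * Y) (θ : ℝ) :
    ‖∑ c ∈ range H, g (x + W * c) * e (c * θ)‖ ≤ δ := by
  have hδ : 0 ≤ δ := (norm_nonneg _).trans (hg 0 Y Y le_rfl (by omega))
  rcases Nat.eq_zero_or_pos H with h0 | h0
  · rw [h0, Finset.sum_range_zero, norm_zero]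
    exact hδ
  have hxY : (Y : ℤ) ≤ x := by
    have := (hx 0 h0).1
    simpa using this
  set u : ℤ → ℂ := fun m => if m < 3 * Y then g m else 0 with hu
  have h1 := BA1_prog u W H hW x θ
  have h2 : ∑ c ∈ range H, u (x + W * c) * e (c * θ) = ∑ c ∈ range H, g (x + W * c) * e (c * θ) := by
    refine Finset.sum_congr rfl fun c hc => ?_
    have h3 := (hx c (mem_range.mp hc)).2
    rw [hu]
    beta_reduce
    rw [if_pos h3]
  rw [h2] at h1
  have h4 : ∀ j ∈ range W, ‖e (-(x : ℝ) * ((j + θ) / W)) *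
      ∑ m ∈ Ico x (x + W * H), u m * e (m * ((j + θ) / W))‖ ≤ δ := by
    intro j _
    rw [norm_mul, BA1_norm_e, one_mul]
    have h5 : ∑ m ∈ Ico x (x + W * H), u m * e (m * ((j + θ) / W)) =
        ∑ m ∈ Ico x (min (x + W * H) (3 * Y)), g m * e (m * ((j + θ) / W)) := by
      have h6 : (Ico x (min (x + (W : ℤ) * (H : ℤ)) (3 * (Y : ℤ))) : Finset ℤ) =
          (Ico x (x + (W : ℤ) * (H : ℤ)) : Finset ℤ).filter (fun m : ℤ => m < 3 * (Y : ℤ)) := by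
        ext m
        rw [mem_filter, mem_Ico, mem_Ico, lt_min_iff]
        tauto
      rw [h6, Finset.sum_filter]
      refine Finset.sum_congr rfl fun m _ => ?_
      rw [hu]
      beta_reduce
      split_ifs
      · rfl
      · rw [zero_mul]
    rw [h5]
    refine hg _ _ _ hxY ?_
    have := min_le_right (x + W * H) (3 * (Y : ℤ))
    omega
  have h7 : (W : ℝ) * ‖∑ c ∈ range H, g (x + W * c) * e (c * θ)‖ ≤ W * δ := by
    calc (W : ℝ) * ‖∑ c ∈ range H, g (x + W * c) * e (c * θ)‖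
        = ‖(W : ℂ) * ∑ c ∈ range H, g (x + W * c) * e (c * θ)‖ := by
          rw [norm_mul, Complex.norm_natCast]
      _ = ‖∑ j ∈ range W, e (-(x : ℝ) * ((j + θ) / W)) *
            ∑ m ∈ Ico x (x + W * H), u m * e (m * ((j + θ) / W))‖ := by rw [h1]
      _ ≤ ∑ j ∈ range W, δ := (norm_sum_le _ _).trans (Finset.sum_le_sum h4)
      _ = W * δ := by rw [Finset.sum_const, card_range, nsmul_eq_mul]
  have hW' : (0 : ℝ) < W := by exact_mod_cast hW
  exact le_of_mul_le_mul_left h7 hW'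

theorem w2_lin {A : ℕ} {B : ℤ[X]} (hB : Lin A B) :
    (∀ n : ℤ, B.eval n = B.coeff 0 + B.coeff 1 * n) ∧ B.coeff 1 ≠ 0 := by
  constructor
  · intro n
    rw [Polynomial.eval_eq_sum_range, hB.deg]
    simp [Finset.sum_range_succ]
  · have h1 : B.leadingCoeff ≠ 0 := by
      rw [Polynomial.leadingCoeff_ne_zero]
      intro h
      have h2 := hB.deg
      rw [h] at h2
      simp at h2
    rwa [Polynomial.leadingCoeff, hB.deg] at h1

/-- The Fourier transform along a linear polynomial. -/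
theorem w2_four (g : ℤ → ℂ) (Y : ℕ) (δ : ℝ)
    (hg : ∀ θ : ℝ, ∀ u v : ℤ, (Y : ℤ) ≤ u → v ≤ 4 * Y → ‖∑ m ∈ Ico u v, g m * e (m * θ)‖ ≤ δ)
    {A : ℕ} {B : ℤ[X]} (hB : Lin A B) (a H : ℕ)
    (hx : ∀ n ∈ Ico a (a + H), (Y : ℤ) ≤ B.eval (n : ℤ) ∧ B.eval (n : ℤ) < 3 * Y) (θ : ℝ) :
    ‖∑ n ∈ Ico a (a + H), g (B.eval (n : ℤ)) * e ((n : ℝ) * θ)‖ ≤ δ := by
  obtain ⟨hev, hc1⟩ := w2_lin hB
  have hfac : ∀ (s : Finset ℕ) (f : ℕ → ℂ) (t : ℝ), ‖∑ c ∈ s, f c * e t‖ = ‖∑ c ∈ s, f c‖ := by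
    intro s f t
    rw [← Finset.sum_mul, norm_mul, BA1_norm_e, mul_one]
  rcases lt_or_gt_of_ne hc1 with hneg | hpos
  · obtain ⟨W, hW⟩ : ∃ W : ℕ, (W : ℤ) = -B.coeff 1 := ⟨(-B.coeff 1).toNat, by
      rw [Int.toNat_of_nonneg (by linarith)]⟩
    have hW0 : 0 < W := by
      have : (0 : ℤ) < W := by rw [hW]; linarith
      exact_mod_cast this
    have hval : ∀ c : ℕ, c < H → B.eval ((a + (H - 1 - c) : ℕ) : ℤ) =
        B.coeff 0 + (W : ℤ) * (-((a : ℤ) + H - 1)) + W * (c : ℤ) := by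
      intro c hc
      have h2 : ((a + (H - 1 - c) : ℕ) : ℤ) = a + H - 1 - c := by
        have : 1 + c ≤ H := by omega
        rw [Nat.sub_sub]
        push_cast [this]
        ring
      rw [hev, h2, hW]
      ring
    have h1 := w2_ap g Y δ hg W hW0 (B.coeff 0 + (W : ℤ) * (-((a : ℤ) + H - 1))) H
      (fun c hc => by
        rw [← hval c hc]
        exact hx _ (by rw [mem_Ico]; omega)) (-θ)
    rw [Finset.sum_Ico_eq_sum_range, Nat.add_sub_cancel_left, ← Finset.sum_range_reflect]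
    rw [← hfac _ _ (((a : ℝ) + H - 1) * θ)] at h1
    refine le_trans (le_of_eq ?_) h1
    congr 1
    refine Finset.sum_congr rfl fun c hc => ?_
    rw [mem_range] at hc
    rw [hval c hc, mul_assoc (g _), ← BA1_e_add]
    congr 2
    have h3 : ((a + (H - 1 - c) : ℕ) : ℝ) = a + H - 1 - c := by
      have : 1 + c ≤ H := by omega
      rw [Nat.sub_sub]
      push_cast [this]
      ring
    rw [h3]
    ring
  · obtain ⟨W, hW⟩ : ∃ W : ℕ, (W : ℤ) = B.coeff 1 := ⟨(B.coeff 1).toNat, by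
      rw [Int.toNat_of_nonneg (by linarith)]⟩
    have hW0 : 0 < W := by
      have : (0 : ℤ) < W := by rw [hW]; linarith
      exact_mod_cast this
    have hval : ∀ c : ℕ, B.eval ((a + c : ℕ) : ℤ) = B.coeff 0 + (W : ℤ) * a + W * (c : ℤ) := by
      intro c
      rw [hev, hW]
      push_cast
      ring
    have h1 := w2_ap g Y δ hg W hW0 (B.coeff 0 + (W : ℤ) * a) H
      (fun c hc => by
        rw [← hval c]
        exact hx _ (by rw [mem_Ico]; omega)) θ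
    rw [Finset.sum_Ico_eq_sum_range, Nat.add_sub_cancel_left]
    rw [← hfac _ _ ((a : ℝ) * θ)] at h1
    refine le_trans (le_of_eq ?_) h1
    congr 1
    refine Finset.sum_congr rfl fun c hc => ?_
    rw [hval c, mul_assoc (g _), ← BA1_e_add]
    congr 2
    push_cast
    ring

/-- Fourier transform on intervals. Proof. `B(n) = b + a n`, `a ≠ 0`; if `a < 0` reflect. The `B(n)`, `n ∈ Ico a0 (a0+H)`, are
the `m ≡ b` modulo `|a|` in an interval contained in `[Y, 3Y)` (`GeoB`), so the sum is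
`(1/|a|) ∑_{j < |a|} ∑_m (lp m - Lk m) e((m - b) (θ + j)/a)`, each inner sum is at most `Y (Q^100)^(-1/4)`
(`fourier_smallP` with `X = Y`, `Q = Q^100`; empty intervals are trivial). `(Q^100)^(-1/4) = Q^(-25)`. -/
theorem W2_fourier : ∃ K : ℝ, 1 ≤ K ∧ ∀ (A Q X X1 Y : ℕ) (B : ℤ[X]), 1 ≤ Q → RegP K (Q ^ 100) Y →
    GeoB A X X1 Y B → ∀ a H : ℕ, X1 ≤ a → a + H ≤ 2 * X1 → ∀ θ : ℝ,
    ‖∑ n ∈ Ico a (a + H), ((fB Q Y B n : ℝ) : ℂ) * e ((n : ℝ) * θ)‖ ≤ Y * (Q : ℝ) ^ (-(25) : ℝ) := by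
  obtain ⟨K, hK⟩ := fourier_smallP
  refine ⟨max K 1, le_max_right _ _, ?_⟩
  intro A Q X X1 Y B hQ hR hG a H ha haH θ
  have hR' : RegP K (Q ^ 100) Y := hR.mono (le_trans zero_le_one (le_max_right _ _)) (le_max_left _ _)
  have hQ0 : (0 : ℝ) ≤ Q := Nat.cast_nonneg Q
  have hpow : (((Q ^ 100 : ℕ) : ℝ)) ^ (-(1 / 4) : ℝ) = (Q : ℝ) ^ (-(25) : ℝ) := by
    rw [Nat.cast_pow, ← Real.rpow_natCast, ← Real.rpow_mul hQ0]
    norm_num
  have h1 := w2_four (fun m => ((lp m - Lk (Q ^ 100) (Y / (Q ^ 100) ^ 2) m : ℝ) : ℂ)) Y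
    (Y * (Q : ℝ) ^ (-(25) : ℝ)) (fun θ u v hu hv => by
      rw [← hpow]
      exact hK (Q ^ 100) Y hR' θ u v hu hv) hG.lin a H
    (fun n hn => by
      rw [mem_Ico] at hn
      have hn' : n ∈ Ico X1 (2 * X1) := by rw [mem_Ico]; omega
      exact ⟨hG.lo n hn', hG.hi n hn'⟩) θ
  exact h1

/-- Mean squares. Proof. `|lp m| ≤ log(3 Y)` for `m < 3 Y`, `3 Y ≤ 3 A X`; `Lk = SG (C0 m) m` (`Cf.eq`), at most
`300 (1+log Q^100)³ dQ (Q^100) m` (`S1b` of `H59P`, `Cf.le`, `Cf.sum`); `B5_dQ` at level `Q^100`,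
`(Q^100)² ≤ H` (`X1 ≤ H Q^800`, `X ≤ X1 Q`, `K` large: `Q^1001 ≤ X` etc.); logarithms: `log Q ≤ log X`. -/
theorem W2_ms (A : ℕ) : ∃ K : ℝ, 1 ≤ K ∧ ∀ C : ℝ, ∃ Q0 : ℕ, ∀ (Q X X1 Y : ℕ) (B : ℤ[X])
    (C0 : ℤ → Ch → ℂ) (mb : Ch → ℝ), Q0 ≤ Q → Rg K C Q X → 0 < X1 → X1 ≤ X → X ≤ X1 * Q →
    GeoB A X X1 Y B → Cf (Q ^ 100) Y C0 mb → ∀ a H : ℕ, X1 ≤ a → a + H ≤ 2 * X1 → X1 ≤ H * Q ^ 800 →
    ∑ n ∈ Ico a (a + H), ‖((fB Q Y B n : ℝ) : ℂ)‖ ^ 2 ≤ H * (Real.log X) ^ 20 ∧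
    ∀ n ∈ Ico X1 (2 * X1), |lp (B.eval (n : ℤ))| ≤ (Real.log X) ^ 2 := by
  refine ⟨1001, by norm_num, fun C => ⟨3 * A + 3, ?_⟩⟩
  intro Q X X1 Y B C0 mb hQ hRg hX1 hX1X hXQ hG hC a H ha haH hH
  have hQ3 : 3 ≤ Q := by omega
  have hQA : 3 * A ≤ Q := by omega
  have hlogQ : 1 ≤ Real.log Q := G1_log1 hQ3
  have hlogX : 1001 * Real.log Q ≤ Real.log X := hRg.1
  set l := Real.log X with hl
  have hl1 : 1001 ≤ l := by linarith
  have hXpos : 0 < X := lt_of_lt_of_le hX1 hX1X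
  have hQr : (0 : ℝ) < Q := by exact_mod_cast (show 0 < Q by omega)
  have hXr : (0 : ℝ) < X := by exact_mod_cast hXpos
  have hQX : Q ^ 1001 ≤ X := by
    have h1 : Real.log ((Q : ℝ) ^ 1001) ≤ Real.log X := by
      rw [Real.log_pow]
      push_cast
      exact hlogX
    have h2 : (Q : ℝ) ^ 1001 ≤ X := (Real.log_le_log_iff (by positivity) hXr).1 h1
    exact_mod_cast h2
  have hH200 : (Q ^ 100) ^ 2 ≤ H := by
    have h1 : Q ^ 1001 ≤ H * Q ^ 801 := by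
      calc Q ^ 1001 ≤ X := hQX
        _ ≤ X1 * Q := hXQ
        _ ≤ H * Q ^ 800 * Q := Nat.mul_le_mul_right Q hH
        _ = H * Q ^ 801 := by ring
    have h2 : Q ^ 200 * Q ^ 801 ≤ H * Q ^ 801 := by
      rw [← pow_add]
      exact h1
    have h3 : Q ^ 200 ≤ H := Nat.le_of_mul_le_mul_right h2 (Nat.pow_pos (by omega))
    rw [← pow_mul]
    exact h3
  have hAX : Real.log (3 * (A : ℝ) * X) ≤ 2 * l := by
    rcases Nat.eq_zero_or_pos A with hA | hA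
    · rw [hA]
      simp only [Nat.cast_zero, mul_zero, zero_mul, Real.log_zero]
      linarith
    have hA' : (0 : ℝ) < A := by exact_mod_cast hA
    rw [Real.log_mul (by positivity) hXr.ne']
    have h1 : Real.log (3 * (A : ℝ)) ≤ Real.log Q := by
      refine Real.log_le_log (by positivity) ?_
      exact_mod_cast hQA
    linarith
  have hlp : ∀ n ∈ Ico X1 (2 * X1), |lp (B.eval (n : ℤ))| ≤ 2 * l := by
    intro n hn
    have h1 := hG.lo n hn
    have h2 := hG.hi n hn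
    unfold Pool.Agent.Lib.H68T.lp
    split_ifs with hp
    · have h3 : 2 ≤ (B.eval (n : ℤ)).toNat := hp.two_le
      have h4 : (2 : ℤ) ≤ B.eval (n : ℤ) := by omega
      have h5 : (2 : ℝ) ≤ ((B.eval (n : ℤ) : ℤ) : ℝ) := by exact_mod_cast h4
      rw [abs_of_nonneg (Real.log_nonneg (by linarith))]
      refine le_trans (Real.log_le_log (by linarith) ?_) hAX
      have h6 : B.eval (n : ℤ) ≤ ((3 * A * X : ℕ) : ℤ) := by
        have h7 : 3 * Y ≤ 3 * A * X := by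
          have := hG.Yhi
          calc 3 * Y ≤ 3 * (A * X) := Nat.mul_le_mul_left 3 this
            _ = 3 * A * X := by ring
        have h8 : ((3 * Y : ℕ) : ℤ) ≤ ((3 * A * X : ℕ) : ℤ) := by exact_mod_cast h7
        push_cast at h8 ⊢
        linarith
      calc ((B.eval (n : ℤ) : ℤ) : ℝ) ≤ (((3 * A * X : ℕ) : ℤ) : ℝ) := by exact_mod_cast h6
        _ = 3 * (A : ℝ) * X := by push_cast; ring
    · rw [abs_zero]
      linarith
  refine ⟨?_, fun n hn => (hlp n hn).trans ?_⟩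
  · -- the mean square
    set l1 := 1 + Real.log ((Q ^ 100 : ℕ) : ℝ) with hl1d
    have hl1' : l1 = 1 + 100 * Real.log Q := by
      rw [hl1d, Nat.cast_pow, Real.log_pow]
      push_cast
      ring
    have hl1one : 1 ≤ l1 := by rw [hl1']; linarith
    have hl1l : l1 ≤ l := by rw [hl1']; linarith
    have hQ100 : 1 ≤ Q ^ 100 := Nat.one_le_pow _ _ (by omega)
    have hLk : ∀ n ∈ Ico X1 (2 * X1), |Lk (Q ^ 100) (Y / (Q ^ 100) ^ 2) (B.eval (n : ℤ))| ≤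
        300 * l1 ^ 3 * dQ (Q ^ 100) (B.eval (n : ℤ)) := by
      intro n hn
      have h1 := hG.lo n hn
      have h2 := hG.hi n hn
      have h3 : B.eval (n : ℤ) ≤ 4 * Y := by
        have : (0 : ℤ) ≤ Y := Int.natCast_nonneg Y
        linarith
      have h4 := hC.eq _ h1 h3
      have h5 := S1b (Q ^ 100) hQ100 (C0 (B.eval (n : ℤ))) mb (fun p hp => hC.le _ h1 h3 p hp)
        (B.eval (n : ℤ))
      rw [← h4, Complex.norm_real, Real.norm_eq_abs] at h5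
      refine h5.trans ?_
      have hd : 0 ≤ dQ (Q ^ 100) (B.eval (n : ℤ)) := Nat.cast_nonneg _
      calc 100 * (1 + Real.log ((Q ^ 100 : ℕ) : ℝ)) ^ 3 * dQ (Q ^ 100) (B.eval (n : ℤ)) *
            ∑ p ∈ PC (Q ^ 100), mb p
          ≤ 100 * l1 ^ 3 * dQ (Q ^ 100) (B.eval (n : ℤ)) * 3 :=
            mul_le_mul_of_nonneg_left hC.sum (by positivity)
        _ = 300 * l1 ^ 3 * dQ (Q ^ 100) (B.eval (n : ℤ)) := by ring
    have hpt : ∀ n ∈ Ico a (a + H), ‖((fB Q Y B n : ℝ) : ℂ)‖ ^ 2 ≤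
        8 * l ^ 2 + 2 * (300 * l1 ^ 3) ^ 2 * dQ (Q ^ 100) (B.eval (n : ℤ)) ^ 2 := by
      intro n hn
      have hn' : n ∈ Ico X1 (2 * X1) := by
        rw [mem_Ico] at hn ⊢
        omega
      have h1 := hlp n hn'
      have h2 := hLk n hn'
      rw [Complex.norm_real, Real.norm_eq_abs, sq_abs]
      unfold fB
      have h3 : (lp (B.eval (n : ℤ))) ^ 2 ≤ (2 * l) ^ 2 := by
        rw [← sq_abs]
        exact pow_le_pow_left₀ (abs_nonneg _) h1 2
      have h4 : (Lk (Q ^ 100) (Y / (Q ^ 100) ^ 2) (B.eval (n : ℤ))) ^ 2 ≤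
          (300 * l1 ^ 3 * dQ (Q ^ 100) (B.eval (n : ℤ))) ^ 2 := by
        rw [← sq_abs]
        exact pow_le_pow_left₀ (abs_nonneg _) h2 2
      nlinarith [sq_nonneg (lp (B.eval (n : ℤ)) + Lk (Q ^ 100) (Y / (Q ^ 100) ^ 2) (B.eval (n : ℤ)))]
    have hms := B5_dQ (Q ^ 100) A B hG.lin a H
    have hms2 : ∑ n ∈ Ico a (a + H), dQ (Q ^ 100) (B.eval (n : ℤ)) ^ 2 ≤ 2 * H * l1 ^ 3 := by
      refine hms.trans ?_
      have h1 : (((Q ^ 100 : ℕ) : ℝ)) ^ 2 ≤ H := by exact_mod_cast hH200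
      have h2 : (1 : ℝ) ≤ l1 ^ 3 := one_le_pow₀ hl1one
      have h3 : (H : ℝ) ≤ H * l1 ^ 3 := le_mul_of_one_le_right (Nat.cast_nonneg H) h2
      linarith
    calc ∑ n ∈ Ico a (a + H), ‖((fB Q Y B n : ℝ) : ℂ)‖ ^ 2
        ≤ ∑ n ∈ Ico a (a + H), (8 * l ^ 2 + 2 * (300 * l1 ^ 3) ^ 2 *
            dQ (Q ^ 100) (B.eval (n : ℤ)) ^ 2) := Finset.sum_le_sum hpt
      _ = H * (8 * l ^ 2) + 2 * (300 * l1 ^ 3) ^ 2 *
            ∑ n ∈ Ico a (a + H), dQ (Q ^ 100) (B.eval (n : ℤ)) ^ 2 := by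
          rw [Finset.sum_add_distrib, Finset.sum_const, Nat.card_Ico, Nat.add_sub_cancel_left,
            nsmul_eq_mul, ← Finset.mul_sum]
      _ ≤ H * (8 * l ^ 2) + 2 * (300 * l1 ^ 3) ^ 2 * (2 * H * l1 ^ 3) := by
          have : 0 ≤ 2 * (300 * l1 ^ 3) ^ 2 := by positivity
          have := mul_le_mul_of_nonneg_left hms2 this
          linarith
      _ = H * (8 * l ^ 2 + 360000 * l1 ^ 9) := by ring
      _ ≤ H * l ^ 20 := by
          refine mul_le_mul_of_nonneg_left ?_ (Nat.cast_nonneg H)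
          have hl0 : 0 ≤ l := by linarith
          have h1 : l1 ^ 9 ≤ l ^ 9 := pow_le_pow_left₀ (by linarith) hl1l 9
          have h2 : l ^ 2 ≤ l ^ 9 := pow_le_pow_right₀ (by linarith) (by norm_num)
          have h3 : (1001 : ℝ) ^ 11 ≤ l ^ 11 := pow_le_pow_left₀ (by norm_num) hl1 11
          have h4 : (0 : ℝ) ≤ l ^ 9 := by positivity
          have h5 : (360008 : ℝ) ≤ l ^ 11 := le_trans (by norm_num) h3
          calc 8 * l ^ 2 + 360000 * l1 ^ 9 ≤ 360008 * l ^ 9 := by linarith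
            _ ≤ l ^ 11 * l ^ 9 := mul_le_mul_of_nonneg_right h5 h4
            _ = l ^ 20 := by ring
  · nlinarith

end Pool.Agent.Lib.H24P
end

-- from Lib.H24P.W3
section

/-!
# Project H24P, chunk W3 (M): from primes to the projection in the linear coordinate
-/

open Finset Polynomial

namespace Pool.Agent.Lib.H24P

open Pool.Agent.Lib.H68T Pool.Agent.Lib.H18Q Pool.Agent.Lib.H59P

/-- Expansion. Proof. Definitions of `SG`, `Fc`, `gam_expand` (`H18Q/CA.lean`), `Finset.prod_univ_sum`. -/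
theorem W3_SG {k : ℕ} (Q : ℕ) (c : Fin k → Ch → ℂ) (m : Fin k → ℤ) :
    ∏ i, SG Q (c i) (m i) =
      ∑ p ∈ Fintype.piFinset fun _ : Fin k => PC Q, (∏ i, c i (p i)) * ∏ i, Fc Q (p i) (m i) := by
  classical
  have h1 : ∀ i, SG Q (c i) (m i) = ∑ p ∈ PC Q, c i p * Fc Q p (m i) := by
    intro i
    unfold SG Fc
    refine Finset.sum_congr rfl fun p hp => ?_
    rw [gam_expand Q p hp, mul_comm]
  calc ∏ i, SG Q (c i) (m i) = ∏ i, ∑ p ∈ PC Q, c i p * Fc Q p (m i) :=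
        Finset.prod_congr rfl fun i _ => h1 i
    _ = ∑ p ∈ Fintype.piFinset fun _ : Fin k => PC Q, ∏ i, c i (p i) * Fc Q (p i) (m i) :=
        Finset.prod_univ_sum _ _
    _ = _ := Finset.sum_congr rfl fun p _ => Finset.prod_mul_distrib

theorem w3_Rg {K K' C : ℝ} {Q X : ℕ} (h : Rg K C Q X) (hK : K' ≤ K) : Rg K' C Q X :=
  ⟨(mul_le_mul_of_nonneg_right hK (Real.log_natCast_nonneg Q)).trans h.1, h.2⟩



end Pool.Agent.Lib.H24P
end

-- from Lib.H24P.P4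
section

/-!
# Project H24P, chunk P4 (M): domination by the model (port of H59P/C3)
-/

open Finset

namespace Pool.Agent.Lib.H24P

open Pool.Agent.Lib.H68T Pool.Agent.Lib.H18Q Pool.Agent.Lib.H59P

theorem p4_lcm {k : ℕ} (px : Ch) (m0 : ℕ) (hm0 : px.1 ∣ m0) (J : Finset (Fin k)) (p p' : Fin k → Ch)
    (h1 : ∀ i ∈ J, p i = p' i) (h2 : ∀ i, i ∉ J → p i = p0 ∨ p i = px) :
    m0.lcm (univ.lcm fun i => (p i).1) ∣ m0.lcm (univ.lcm fun i => (p' i).1) := by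
  refine Nat.lcm_dvd (Nat.dvd_lcm_left _ _) (Finset.lcm_dvd fun i _ => ?_)
  by_cases hi : i ∈ J
  · rw [h1 i hi]
    exact (Finset.dvd_lcm (f := fun i => (p' i).1) (Finset.mem_univ i)).trans (Nat.dvd_lcm_right _ _)
  · rcases h2 i hi with h | h
    · rw [h]
      exact one_dvd _
    · rw [h]
      exact hm0.trans (Nat.dvd_lcm_left _ _)

/-- the pointwise bound -/
theorem p4_pt {k : ℕ} (Q D1 m0 : ℕ) (hQ : 1 ≤ Q) (η E0 : ℝ) (px : Ch) (hpx : px ∈ PC Q)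
    (hreal : px.2 ^ 2 = 1) (hm0 : px.1 ∣ m0) (hmpos : 0 < m0)
    (hcond : m0 ≤ D1) (hη : 0 < η) (hE0 : 0 ≤ E0) (hE : 4 * k * E0 ≤ 1) (th : Fin k → ℝ)
    (hth0 : ∀ i, 0 ≤ th i) (hth : ∀ i, th i ≤ 1 - η) (htriv : px = p0 → ∀ i, th i = 0)
    (e : Fin k → Ch → ℂ) (he : ∀ i, ∑ p ∈ PC Q, ‖e i p‖ ≤ η * E0) (m : Fin k → ℤ) :
    ‖∑ p ∈ TSf k Q D1 m0, ∏ i, ((MX px (fun _ => th i) 0 (p i) + e i (p i)) * cj (p i) (m i)) -
      ((∏ i, (1 - th i * (cj px (m i)).re) : ℝ) : ℂ)‖ ≤ 1 / 2 * ∏ i, (1 - th i * (cj px (m i)).re) := by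
  classical
  have ha : ∀ i, η ≤ 1 - th i * (cj px (m i)).re := by
    intro i
    have h1 := (abs_le.mp (C3a px hreal (m i)).2).2
    have h2 := mul_le_mul_of_nonneg_left h1 (hth0 i)
    have h3 := hth i
    linarith
  have ha0 : ∀ i, 0 ≤ 1 - th i * (cj px (m i)).re := fun i => hη.le.trans (ha i)
  have hsum : ∀ i, ∑ p ∈ PC Q, MX px (fun _ => th i) 0 p * cj p (m i) =
      ((1 - th i * (cj px (m i)).re : ℝ) : ℂ) := fun i =>
    c3_sumA Q hQ px hpx (th i) (fun h => htriv h i) hreal (m i)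
  have hC1 := C1 (PC Q) ({p0, px} : Finset Ch) (fun p : Fin k → Ch => m0.lcm (univ.lcm fun i => (p i).1) ≤ D1)
    (fun i p => MX px (fun _ => th i) 0 p * cj p (m i)) (fun i p => e i p * cj p (m i)) ?_ ?_ ?_
  rotate_left
  · intro i p _ hne
    rw [Finset.mem_insert, Finset.mem_singleton, not_or] at hne
    have h0 : MX px (fun _ => th i) 0 p = 0 := by
      simp only [MX]
      rw [if_neg hne.1, if_neg hne.2]
    show MX px (fun _ => th i) 0 p * cj p (m i) = 0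
    rw [h0, zero_mul]
  · intro J p p' h1 h2 h3
    have k1 := p4_lcm px m0 hm0 J p p' h1 (fun i hi => by simpa using h2 i hi)
    have k2 := p4_lcm px m0 hm0 J p' p (fun i hi => (h1 i hi).symm) (fun i hi => by simpa using h3 i hi)
    show m0.lcm (univ.lcm fun i => (p i).1) ≤ D1 ↔ m0.lcm (univ.lcm fun i => (p' i).1) ≤ D1
    rw [Nat.dvd_antisymm k1 k2]
  · intro p hp
    have k1 := p4_lcm px m0 hm0 ∅ p (fun _ => p0) (fun i hi => by simp at hi) (fun i _ => by simpa using hp i)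
    have k2 : m0.lcm (univ.lcm fun i : Fin k => ((fun _ => p0 : Fin k → Ch) i).1) ∣ m0 := by
      refine Nat.lcm_dvd dvd_rfl (Finset.lcm_dvd fun i _ => ?_)
      exact one_dvd _
    exact (Nat.le_of_dvd hmpos (k1.trans k2)).trans hcond
  have e1 : ∀ p : Fin k → Ch, ∏ i, ((MX px (fun _ => th i) 0 (p i) + e i (p i)) * cj (p i) (m i)) =
      ∏ i, (MX px (fun _ => th i) 0 (p i) * cj (p i) (m i) + e i (p i) * cj (p i) (m i)) := fun p =>
    Finset.prod_congr rfl fun i _ => by ring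
  have e2 : ∏ i, ∑ p ∈ PC Q, MX px (fun _ => th i) 0 p * cj p (m i) =
      ((∏ i, (1 - th i * (cj px (m i)).re) : ℝ) : ℂ) := by
    rw [Complex.ofReal_prod]
    exact Finset.prod_congr rfl fun i _ => hsum i
  have e3 : ∀ i, ‖∑ p ∈ PC Q, MX px (fun _ => th i) 0 p * cj p (m i)‖ = 1 - th i * (cj px (m i)).re := by
    intro i
    rw [hsum i, Complex.norm_real, Real.norm_eq_abs, abs_of_nonneg (ha0 i)]
  have hC2 := C2 (fun i => 1 - th i * (cj px (m i)).re) (fun i => ∑ p ∈ PC Q, ‖e i p * cj p (m i)‖) η E0 hη hE0 hE ha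
    (fun i => Finset.sum_nonneg fun _ _ => norm_nonneg _) (fun i => ?_)
  swap
  · refine (Finset.sum_le_sum fun p _ => ?_).trans (he i)
    rw [norm_mul]
    exact mul_le_of_le_one_right (norm_nonneg _) (c3_cj_norm p (m i))
  simp only [e3] at hC1
  rw [e2] at hC1
  unfold TSf
  simp only [e1]
  exact hC1.trans hC2

/-- Proof. As `C3` (`H59P/C3.lean`), with `n + h_i` replaced by `φ i n` and `TS k Q D1 px` by `TSf k Q D1 m0`
(`px.1 ∣ m0 ≤ D1`): in `c3_pt` the condition `φ p` is now `m0.lcm (univ.lcm fun i => (p i).1) ≤ D1`; coordinates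
in `{p0, px}` have a modulus dividing `m0`, which does not change this least common multiple; if all coordinates
are in `{p0, px}` it is `m0 ≤ D1`. -/
theorem P4_C3 {k : ℕ} (φ : Fin k → ℤ → ℤ) (Q D1 m0 : ℕ) (hQ : 1 ≤ Q) (η E0 : ℝ) (px : Ch)
    (hpx : px ∈ PC Q) (hreal : px.2 ^ 2 = 1) (hm0 : px.1 ∣ m0) (hm : 0 < m0) (hcond : m0 ≤ D1)
    (hη : 0 < η) (hE0 : 0 ≤ E0) (hE : 4 * k * E0 ≤ 1) (th : Fin k → ℝ)
    (hth0 : ∀ i, 0 ≤ th i) (hth : ∀ i, th i ≤ 1 - η) (htriv : px = p0 → ∀ i, th i = 0)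
    (e : Fin k → Ch → ℂ) (he : ∀ i, ∑ p ∈ PC Q, ‖e i p‖ ≤ η * E0) :
    ‖∑ p ∈ TSf k Q D1 m0, (∏ i, (MX px (fun _ => th i) 0 (p i) + e i (p i))) * MQf Q p φ -
      ((PMf Q px th φ : ℝ) : ℂ)‖ ≤ 1 / 2 * PMf Q px th φ := by
  have hQ0 : (0 : ℝ) < (Q.factorial : ℝ) := by exact_mod_cast Nat.factorial_pos Q
  have hU : ∀ n : ℤ, 0 ≤ ∏ i : Fin k, uu (pr Q) (φ i n) := fun n =>
    Finset.prod_nonneg fun i _ => M3a_uu_nonneg _ (c3_pr Q) _
  have h1 : ∑ p ∈ TSf k Q D1 m0, (∏ i, (MX px (fun _ => th i) 0 (p i) + e i (p i))) * MQf Q p φ =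
      (∑ n ∈ range Q.factorial, ((∏ i : Fin k, uu (pr Q) (φ i (n : ℤ)) : ℝ) : ℂ) *
        ∑ p ∈ TSf k Q D1 m0, ∏ i, ((MX px (fun _ => th i) 0 (p i) + e i (p i)) *
          cj (p i) (φ i (n : ℤ)))) /
        ((Q.factorial : ℝ) : ℂ) := by
    unfold MQf
    rw [Finset.sum_div]
    simp only [Finset.mul_sum, Finset.sum_div, mul_div_assoc']
    rw [Finset.sum_comm]
    refine Finset.sum_congr rfl fun n _ => ?_
    refine Finset.sum_congr rfl fun p _ => ?_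
    unfold Phf at'
    rw [Finset.prod_mul_distrib, Finset.prod_mul_distrib, Complex.ofReal_prod]
    push_cast
    ring
  have h2 : PMf Q px th φ = (∑ n ∈ range Q.factorial, (∏ i : Fin k, uu (pr Q) (φ i (n : ℤ))) *
        ∏ i, (1 - th i * (cj px (φ i (n : ℤ))).re)) / (Q.factorial : ℝ) := by
    unfold PMf fPf at'
    congr 1
    refine Finset.sum_congr rfl fun n _ => ?_
    rw [Finset.prod_mul_distrib]
  rw [h1, h2]
  rw [Complex.ofReal_div, ← sub_div, norm_div, Complex.norm_real, Real.norm_eq_abs, abs_of_pos hQ0, mul_div_assoc']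
  refine div_le_div_of_nonneg_right ?_ hQ0.le
  rw [Complex.ofReal_sum, ← Finset.sum_sub_distrib, Finset.mul_sum]
  refine (norm_sum_le _ _).trans (Finset.sum_le_sum fun n _ => ?_)
  rw [Complex.ofReal_mul, ← mul_sub, norm_mul, Complex.norm_real, Real.norm_eq_abs, abs_of_nonneg (hU n)]
  have hpt := p4_pt Q D1 m0 hQ η E0 px hpx hreal hm0 hm hcond hη hE0 hE th hth0 hth htriv e he
    (fun i => φ i (n : ℤ))
  have := mul_le_mul_of_nonneg_left hpt (hU n)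
  refine this.trans (le_of_eq ?_)
  ring

end Pool.Agent.Lib.H24P
end

-- from Lib.H24P.Z3
section

/-!
# Project H24P, chunk Z3 (S/M): lower bound for the main term (compare H59P/Z3)
-/

open Finset Polynomial

namespace Pool.Agent.Lib.H24P

open Pool.Agent.Lib.H68T Pool.Agent.Lib.H18Q Pool.Agent.Lib.H59P

/-- One cell. Proof. `P4_C3` with `D1 = fl Q (1/16)`, `k + 1` coordinates: `‖MDf - PMf‖ ≤ PMf/2`, so
`Re MDf ≥ PMf/2 ≥ m/2`. -/
theorem Z3_cell {k : ℕ} (Q m0 : ℕ) (hQ : 1 ≤ Q) (η E0 : ℝ) (px : Ch) (hpx : px ∈ PC Q)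
    (hreal : px.2 ^ 2 = 1) (hm0 : px.1 ∣ m0) (hm : 0 < m0) (hcond : m0 ≤ fl Q (1 / 16)) (hη : 0 < η)
    (hE0 : 0 ≤ E0) (hE : 4 * k * E0 ≤ 1) (φ : Fin k → ℤ → ℤ) (th : Fin k → ℝ) (hth0 : ∀ i, 0 ≤ th i)
    (hth : ∀ i, th i ≤ 1 - η) (htriv : px = p0 → ∀ i, th i = 0) (e c : Fin k → Ch → ℂ)
    (he : ∀ i, ∑ p ∈ PC Q, ‖e i p‖ ≤ η * E0)
    (hc : ∀ i p, c i p = MX px (fun _ => th i) 0 p + e i p) (m : ℝ)
    (hm' : ∀ th' : Fin k → ℝ, (∀ i, 0 ≤ th' i) → (∀ i, th' i ≤ 1 - η) →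
      (px = p0 → ∀ i, th' i = 0) → m ≤ PMf Q px th' φ) :
    m / 2 ≤ (MDf Q m0 c φ).re := by
  have z := P4_C3 φ Q (fl Q (1 / 16)) m0 hQ η E0 px hpx hreal hm0 hm hcond hη hE0 hE th hth0 hth htriv e he
  have hS : MDf Q m0 c φ = ∑ p ∈ TSf k Q (fl Q (1 / 16)) m0,
      (∏ i, (MX px (fun _ => th i) 0 (p i) + e i (p i))) * MQf Q p φ := by
    unfold MDf
    refine Finset.sum_congr rfl fun p _ => ?_
    congr 1
    exact Finset.prod_congr rfl fun i _ => hc i (p i)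
  rw [← hS] at z
  have h1 := hm' th hth0 hth htriv
  have h2 : -(1 / 2 * PMf Q px th φ) ≤ (MDf Q m0 c φ - ((PMf Q px th φ : ℝ) : ℂ)).re :=
    (abs_le.1 ((Complex.abs_re_le_norm _).trans z)).1
  rw [Complex.sub_re, Complex.ofReal_re] at h2
  linarith


end Pool.Agent.Lib.H24P
end

-- from Lib.H24P.T5
section

/-!
# Project H24P, chunk T5 (M): truncation of the singular series, assembly
-/

open Finset Polynomial

namespace Pool.Agent.Lib.H24P

open Pool.Agent.Lib.H68T Pool.Agent.Lib.H18Q Pool.Agent.Lib.H59P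

theorem t5_ratio {l : ℕ} (hl : l.Prime) : 1 ≤ (l : ℝ) / ((l : ℝ) - 1) ∧
    (l : ℝ) / ((l : ℝ) - 1) = (1 - 1 / (l : ℝ))⁻¹ := by
  have h2 : (2 : ℝ) ≤ l := by exact_mod_cast hl.two_le
  have h1 : (0 : ℝ) < (l : ℝ) - 1 := by linarith
  have h0 : (l : ℝ) ≠ 0 := by linarith
  refine ⟨?_, ?_⟩
  · rw [le_div_iff₀ h1]
    linarith
  · rw [one_sub_div h0, inv_div]

/-- Upper bound for products of local factors. Proof. `P0_tp`: `0 ≤ 1 + tpf ≤ (l/(l-1))^(k+1)`, all primes are `≤ Q`: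
`Helper57.prod_one_sub_inv_inv_le`. -/
theorem T5_up {k : ℕ} (φ : Fin k → ℤ → ℤ) (Q : ℕ) (hQ : 2 ≤ Q) (P : Finset ℕ) (hP : P ⊆ pr Q) :
    0 ≤ SSf P φ ∧ SSf P φ ≤ (500 * Real.log Q) ^ k := by
  have hpr : ∀ l ∈ P, l.Prime := fun l hl => (Finset.mem_filter.1 (hP hl)).2
  unfold SSf
  refine ⟨Finset.prod_nonneg fun l hl => (P0_tp l (hpr l hl) φ).1, ?_⟩
  have h1 : ∏ l ∈ P, (1 + tpf l φ) ≤ ∏ l ∈ P, ((l : ℝ) / ((l : ℝ) - 1)) ^ k :=
    Finset.prod_le_prod (fun l hl => (P0_tp l (hpr l hl) φ).1)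
      (fun l hl => (P0_tp l (hpr l hl) φ).2)
  have h2 : ∏ l ∈ P, ((l : ℝ) / ((l : ℝ) - 1)) ^ k ≤ ∏ l ∈ pr Q, ((l : ℝ) / ((l : ℝ) - 1)) ^ k := by
    rw [← Finset.prod_sdiff hP]
    refine le_mul_of_one_le_left (Finset.prod_nonneg fun l hl => ?_) ?_
    · exact pow_nonneg (zero_le_one.trans (t5_ratio (hpr l hl)).1) _
    · have h5 : ∏ _l ∈ pr Q \ P, (1 : ℝ) ≤ ∏ l ∈ pr Q \ P, ((l : ℝ) / ((l : ℝ) - 1)) ^ k :=
        Finset.prod_le_prod (fun _ _ => zero_le_one) fun l hl =>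
          one_le_pow₀ (t5_ratio (Finset.mem_filter.1 (Finset.mem_sdiff.1 hl).1).2).1
      rwa [Finset.prod_const_one] at h5
  have h3 : ∏ l ∈ pr Q, ((l : ℝ) / ((l : ℝ) - 1)) ^ k =
      (∏ l ∈ pr Q, (1 - 1 / (l : ℝ))⁻¹) ^ k := by
    rw [Finset.prod_pow]
    congr 1
    exact Finset.prod_congr rfl fun l hl => (t5_ratio (Finset.mem_filter.1 hl).2).2
  have h4 : pr Q = Sieve.primesUpTo Q := by
    ext l
    rw [Sieve.mem_primesUpTo]
    unfold pr
    rw [Finset.mem_filter, Finset.mem_Icc]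
    constructor
    · rintro ⟨⟨_, h⟩, h'⟩
      exact ⟨h', h⟩
    · rintro ⟨h', h⟩
      exact ⟨⟨h'.one_le, h⟩, h'⟩
  rw [h3] at h2
  refine h1.trans (h2.trans ?_)
  rw [h4]
  refine pow_le_pow_left₀ (Finset.prod_nonneg fun l hl => ?_) (Helper57.prod_one_sub_inv_inv_le Q hQ) k
  have hl' := (Sieve.mem_primesUpTo.1 hl).1
  rw [← (t5_ratio hl').2]
  exact zero_le_one.trans (t5_ratio hl').1

theorem t5_SF {Q E R : ℕ} (hE : E ≤ Q) :
    SF E R = dv ((pr Q).filter (fun l => ¬ l ∣ R)) Q E := by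
  unfold SF dv
  refine Finset.filter_congr fun d hd => ?_
  rw [Finset.mem_Icc] at hd
  refine and_congr_right fun hsq => ?_
  constructor
  · intro h l hl
    have hlp := Nat.prime_of_mem_primeFactors hl
    have hld := Nat.dvd_of_mem_primeFactors hl
    have hlQ : l ≤ Q := (Nat.le_of_dvd (by omega) hld).trans (hd.2.trans hE)
    refine ⟨Finset.mem_filter.2 ⟨Finset.mem_filter.2 ⟨Finset.mem_Icc.2 ⟨hlp.one_le, hlQ⟩, hlp⟩, ?_⟩, hlQ⟩
    intro hlR
    exact hlp.one_lt.ne' (Nat.dvd_one.1 (h ▸ Nat.dvd_gcd hld hlR))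
  · intro h
    by_contra hnc
    obtain ⟨l, hlp, h1, h2⟩ := Nat.Prime.not_coprime_iff_dvd.1 hnc
    exact (Finset.mem_filter.1 (h l (Nat.mem_primeFactors.2 ⟨hlp, h1, by omega⟩)).1).2 h2

/-- Minkowski with one distinguished term. -/
theorem t5_mink {α : Type*} (S : Finset α) (P : Finset ℕ) (γ : ℕ → ℝ) (hγ : ∀ q ∈ P, 0 ≤ γ q)
    (g : α → ℝ) (f : ℕ → α → ℝ) (D : α → ℝ) (c W : ℝ) (hW : 0 ≤ W)
    (hc : 1 + ∑ q ∈ P, γ q ≤ c) (hg : ∑ h ∈ S, g h ^ 2 ≤ W)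
    (hf : ∀ q ∈ P, ∑ h ∈ S, f q h ^ 2 ≤ W)
    (hD : ∀ h ∈ S, |D h| ≤ |g h| + ∑ q ∈ P, γ q * |f q h|) :
    ∑ h ∈ S, D h ^ 2 ≤ c ^ 2 * W := by
  classical
  let γ' : Option ℕ → ℂ := fun o => match o with
    | none => 1
    | some q => (γ q : ℂ)
  let f' : Option ℕ → α → ℂ := fun o h => match o with
    | none => ((|g h| : ℝ) : ℂ)
    | some q => ((|f q h| : ℝ) : ℂ)
  have h1 := Z2a S (Finset.insertNone P) γ' f' c W hW ?_ ?_
  · refine le_trans (Finset.sum_le_sum fun h hh => ?_) h1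
    have h2 : ∑ o ∈ Finset.insertNone P, γ' o * f' o h =
        ((|g h| + ∑ q ∈ P, γ q * |f q h| : ℝ) : ℂ) := by
      rw [Finset.sum_insertNone]
      simp only [γ', f']
      push_cast
      rw [one_mul]
    rw [h2, Complex.norm_real, ← sq_abs (D h)]
    refine pow_le_pow_left₀ (abs_nonneg _) ?_ 2
    rw [Real.norm_eq_abs]
    exact (hD h hh).trans (le_abs_self _)
  · rw [Finset.sum_insertNone]
    simp only [γ', norm_one, Complex.norm_real, Real.norm_eq_abs]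
    refine le_trans (le_of_eq ?_) hc
    congr 1
    exact Finset.sum_congr rfl fun q hq => abs_of_nonneg (hγ q hq)
  · intro o ho
    rw [Finset.mem_insertNone] at ho
    rcases o with _ | q
    · simp only [f', Complex.norm_real, Real.norm_eq_abs, abs_abs, sq_abs]
      exact hg
    · simp only [f', Complex.norm_real, Real.norm_eq_abs, abs_abs, sq_abs]
      exact hf q (ho q rfl)

theorem t5_harm (Q : ℕ) (P : Finset ℕ) (hP : P ⊆ pr Q) : ∑ q ∈ P, 1 / (q : ℝ) ≤ 1 + Real.log Q := by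
  have h1 : ∑ q ∈ P, 1 / (q : ℝ) ≤ ∑ q ∈ Icc 1 Q, 1 / (q : ℝ) := by
    refine Finset.sum_le_sum_of_subset_of_nonneg ?_ (fun q _ _ => by positivity)
    exact hP.trans (Finset.filter_subset _ _)
  have h2 : ∑ q ∈ Icc 1 Q, 1 / (q : ℝ) = ((harmonic Q : ℚ) : ℝ) := by
    rw [harmonic_eq_sum_Icc]
    push_cast
    exact Finset.sum_congr rfl fun q _ => one_div _
  rw [h2] at h1
  exact h1.trans (harmonic_le_one_add_log Q)

/-- The members of `mv`. -/
theorem t5_mv {Q E R a j : ℕ} (hE : E ≤ Q) (ha : a ∣ R) (hj : j ≤ Q) :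
    ∀ d ∈ mv ((pr Q).filter (fun l => ¬ l ∣ R)) j E, Squarefree d ∧ E < d ∧ d ≤ Q ^ 2 ∧
      ∀ l ∈ d.primeFactors, l ≤ Q ∧ ¬ l ∣ a := by
  intro d hd
  unfold mv at hd
  rw [Finset.mem_filter, Finset.mem_Ioc] at hd
  obtain ⟨⟨h1, h2⟩, h3, h4, -⟩ := hd
  refine ⟨h3, h1, ?_, fun l hl => ⟨(h4 l hl).2.trans hj, fun h => ?_⟩⟩
  · calc d ≤ E * j := h2
      _ ≤ Q * Q := Nat.mul_le_mul hE hj
      _ = Q ^ 2 := (pow_two Q).symm
  · exact (Finset.mem_filter.1 (h4 l hl).1).2 (h.trans ha)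

/-- The difference of the truncated and the complete singular series, pointwise. -/
theorem t5_point {k : ℕ} (φ : Fin k → ℤ → ℤ) (C1 : ℝ) (hC1 : ∀ l : ℕ, l.Prime → |tpf l φ| ≤ C1 / l)
    {Q E R : ℕ} (hQ : 2 ≤ Q) (hE1 : 1 ≤ E) (hE : E ≤ Q) (hR : 1 ≤ R) :
    |∑ d ∈ SF E R, tdf d φ - SSf ((pr Q).filter (fun l => ¬ l ∣ R)) φ| ≤
      |∑ m ∈ mv ((pr Q).filter (fun l => ¬ l ∣ R)) Q E, tdf m φ| +
      ∑ q ∈ (pr Q).filter (fun l => ¬ l ∣ R), (C1 / q * (500 * Real.log Q) ^ k) *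
        |∑ m ∈ mv ((pr Q).filter (fun l => ¬ l ∣ R)) (q - 1) E, tdf m φ| := by
  classical
  set P' := (pr Q).filter (fun l => ¬ l ∣ R) with hP'
  have hpr : ∀ l ∈ P', l.Prime := fun l hl => (Finset.mem_filter.1 (Finset.mem_filter.1 hl).1).2
  have hsub : P' ⊆ pr Q := Finset.filter_subset _ _
  have hPQ : P'.filter (fun l => l ≤ Q) = P' := by
    refine Finset.filter_true_of_mem fun l hl => ?_
    exact (Finset.mem_Icc.1 (Finset.mem_filter.1 (hsub hl)).1).2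
  have h4 := T4_main (fun l => tpf l φ) P' hpr E hE1 Q
  rw [hPQ] at h4
  have htt : ∀ d, tt (fun l => tpf l φ) d = tdf d φ := fun d => rfl
  simp only [htt] at h4
  rw [t5_SF hE, ← hP', abs_sub_comm]
  have h5 : SSf P' φ - ∑ d ∈ dv P' Q E, tdf d φ =
      ∑ m ∈ mv P' Q E, tdf m φ +
      ∑ q ∈ P', tpf q φ * (∑ m ∈ mv P' (q - 1) E, tdf m φ) *
        ∏ l ∈ P'.filter (fun l => q < l ∧ l ≤ Q), (1 + tpf l φ) := h4
  rw [h5]
  refine (abs_add_le _ _).trans (add_le_add le_rfl ?_)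
  refine (Finset.abs_sum_le_sum_abs _ _).trans (Finset.sum_le_sum fun q hq => ?_)
  rw [abs_mul, abs_mul]
  have h6 := T5_up φ Q hQ (P'.filter (fun l => q < l ∧ l ≤ Q)) ((Finset.filter_subset _ _).trans hsub)
  have h7 : |∏ l ∈ P'.filter (fun l => q < l ∧ l ≤ Q), (1 + tpf l φ)| ≤ (500 * Real.log Q) ^ k := by
    have h8 : |SSf (P'.filter (fun l => q < l ∧ l ≤ Q)) φ| ≤ (500 * Real.log Q) ^ k := by
      rw [abs_of_nonneg h6.1]
      exact h6.2
    exact h8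
  have h9 := hC1 q (hpr q hq)
  calc |tpf q φ| * |∑ m ∈ mv P' (q - 1) E, tdf m φ| *
        |∏ l ∈ P'.filter (fun l => q < l ∧ l ≤ Q), (1 + tpf l φ)|
      ≤ (C1 / q) * |∑ m ∈ mv P' (q - 1) E, tdf m φ| * (500 * Real.log Q) ^ k := by
        refine mul_le_mul (mul_le_mul_of_nonneg_right h9 (abs_nonneg _)) h7 (abs_nonneg _) ?_
        exact mul_nonneg ((abs_nonneg _).trans h9) (abs_nonneg _)
    _ = (C1 / q * (500 * Real.log Q) ^ k) * |∑ m ∈ mv P' (q - 1) E, tdf m φ| := by ring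


end Pool.Agent.Lib.H24P
end

-- from Lib.H24P.X1A
section

/-!
# Project H24P, chunk X1A (M): a twisted mean value with a random coordinate twisted
-/

open Finset Polynomial

namespace Pool.Agent.Lib.H24P

open Pool.Agent.Lib.H68T Pool.Agent.Lib.H18Q Pool.Agent.Lib.H59P

/-- The set of the `κ` for the level `r`: `κ i = 1` at twisted coordinates, a divisor of the radical of `r` at the others.
(Chunks X1A, X1B.) -/
noncomputable def KT {k : ℕ} (px : Ch) (Bs : Finset (Fin k)) : Finset (Fin k → ℕ) :=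
  open Classical in Fintype.piFinset fun i =>
    if i ∈ Bs then {1} else (∏ l ∈ px.1.primeFactors, l).divisors

theorem x1a_SD1 (r : ℕ) (hr : 1 ≤ r) : SD r r = {1} := by
  classical
  ext s
  rw [SD, Finset.mem_filter, Finset.mem_singleton, Nat.mem_divisors]
  constructor
  · rintro ⟨⟨h1, _⟩, _, h3⟩
    exact Nat.Coprime.eq_one_of_dvd h3 h1
  · rintro rfl
    exact ⟨⟨one_dvd _, by omega⟩, squarefree_one, Nat.coprime_one_left r⟩

theorem x1a_rad (r : ℕ) : Squarefree (∏ l ∈ r.primeFactors, l) := by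
  rw [← Nat.radical_eq_prod_primeFactors]
  exact UniqueFactorizationMonoid.squarefree_radical

theorem x1a_SD2 (r : ℕ) (hr : 1 ≤ r) : SD r 1 = (∏ l ∈ r.primeFactors, l).divisors := by
  classical
  ext s
  rw [SD, Finset.mem_filter, Nat.mem_divisors, Nat.mem_divisors]
  constructor
  · rintro ⟨⟨h1, _⟩, h2, _⟩
    refine ⟨?_, (x1a_rad r).ne_zero⟩
    rw [← Nat.prod_primeFactors_of_squarefree h2]
    exact Finset.prod_dvd_prod_of_subset _ _ _ (Nat.primeFactors_mono h1 (by omega))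
  · rintro ⟨h1, _⟩
    exact ⟨⟨h1.trans (Nat.prod_primeFactors_dvd r), by omega⟩, (x1a_rad r).squarefree_of_dvd h1,
      Nat.coprime_one_right s⟩

/-- Proof. `r = px.1`. For `i ∈ Bs`: `cj px m uu r.primeFactors m = gk px 1 m` (both are
`(r/φ(r)) cj px m`: if `cj px m ≠ 0` then `m` is coprime to `r`: `x1_uu_unit`; `gk` with `κ = 1`: `M2a` of `H59P` or
`B1_SD` with `N = r`, `SD r r = {1}`). For `i ∉ Bs`: `uu r.primeFactors m = ∑_{κ ∣ rad r} gk p0 κ m` (`B1_SD` with `p = p0`,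
`N = r` or directly `Finset.prod_one_add`-type expansion, `M2a`). `Finset.prod_univ_sum`. -/
theorem X1A_expand {k : ℕ} (Q : ℕ) (px : Ch) (hpx : px ∈ PC Q) (Bs : Finset (Fin k)) (m : Fin k → ℤ) :
    ∏ i, (cj (pB px Bs i) (m i) * ((uu px.1.primeFactors (m i) : ℝ) : ℂ)) =
      ∑ κ ∈ KT px Bs, ∏ i, gk (pB px Bs i) (κ i) (m i) := by
  classical
  obtain ⟨hr1, -, -⟩ := mem_PC.1 hpx
  unfold KT
  refine Eq.trans ?_ (Finset.prod_univ_sum (fun i : Fin k => if i ∈ Bs then ({1} : Finset ℕ) else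
    (∏ l ∈ px.1.primeFactors, l).divisors) (fun i κ => gk (pB px Bs i) κ (m i)))
  refine Finset.prod_congr rfl fun i _ => ?_
  by_cases hi : i ∈ Bs
  · have hp : pB px Bs i = px := by
      unfold pB
      rw [if_pos hi]
    rw [if_pos hi, hp, ← B1_SD px.1 hr1 px dvd_rfl (m i), x1a_SD1 px.1 hr1]
  · have hp : pB px Bs i = p0 := by
      unfold pB
      rw [if_neg hi]
    rw [if_neg hi, hp, ← B1_SD px.1 hr1 p0 (one_dvd _) (m i)]
    have h0 : (p0 : Ch).1 = 1 := rfl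
    rw [h0, x1a_SD2 px.1 hr1]

/-- `KT` at the level `r`. Proof. `KS r r = {1}`, `KS r 1` = the squarefree numbers up to `r`; divisors of the radical of
`r` are squarefree and at most `r`. -/
theorem X1A_sub {k : ℕ} (Q : ℕ) (px : Ch) (hpx : px ∈ PC Q) (Bs : Finset (Fin k)) :
    KT px Bs ⊆ Fintype.piFinset (fun i => KS px.1 (pB px Bs i).1) ∧
      ∀ i, pB px Bs i ∈ PC px.1 := by
  classical
  obtain ⟨hr1, -, hprim⟩ := mem_PC.1 hpx
  refine ⟨?_, ?_⟩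
  · unfold KT
    refine Fintype.piFinset_subset _ _ fun i => ?_
    by_cases hi : i ∈ Bs
    · have hp : pB px Bs i = px := by
        unfold pB
        rw [if_pos hi]
      rw [if_pos hi, hp, Finset.singleton_subset_iff, KS, Finset.mem_filter, Finset.mem_Icc]
      refine ⟨⟨le_rfl, ?_⟩, squarefree_one, Nat.coprime_one_left _⟩
      rw [Nat.div_self hr1]
    · have hp : pB px Bs i = p0 := by
        unfold pB
        rw [if_neg hi]
      have h0 : (p0 : Ch).1 = 1 := rfl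
      rw [if_neg hi, hp, h0]
      intro s hs
      rw [Nat.mem_divisors] at hs
      have h1 := hs.1.trans (Nat.prod_primeFactors_dvd px.1)
      rw [KS, Finset.mem_filter, Finset.mem_Icc, Nat.div_one]
      refine ⟨⟨?_, Nat.le_of_dvd hr1 h1⟩, (x1a_rad px.1).squarefree_of_dvd hs.1, Nat.coprime_one_right s⟩
      exact Nat.pos_of_dvd_of_pos h1 hr1
  · intro i
    by_cases hi : i ∈ Bs
    · have hp : pB px Bs i = px := by
        unfold pB
        rw [if_pos hi]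
      rw [hp]
      exact mem_PC.2 ⟨hr1, le_rfl, hprim⟩
    · have hp : pB px Bs i = p0 := by
        unfold pB
        rw [if_neg hi]
      rw [hp]
      exact p0_mem hr1


end Pool.Agent.Lib.H24P
end

-- from Lib.H24P.X1B
section

/-!
# Project H24P, chunk X1B (M): a twisted mean value, only the linear coordinate twisted
-/

open Finset Polynomial

namespace Pool.Agent.Lib.H24P

open Pool.Agent.Lib.H68T Pool.Agent.Lib.H18Q Pool.Agent.Lib.H59P

theorem x1b_pow (k : ℕ) (L : ℝ) : ((2 * L) ^ (k + 1)) ^ 2 = 4 ^ (k + 1) * L ^ (2 * k + 2) := by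
  have h1 : (2 * L) ^ 2 = 4 * L ^ 2 := by ring
  have h2 : 2 * (k + 1) = 2 * k + 2 := by ring
  rw [← pow_mul, mul_comm (k + 1) 2, pow_mul, h1, mul_pow, ← pow_mul, h2]

theorem x1b_mean (f : ℤ → ℂ) (r M : ℕ) (hf : ∀ n, f (n + r) = f n) :
    ∑ n ∈ range (M * r), f (n : ℤ) = M * ∑ n ∈ range r, f (n : ℤ) := by
  have h1 := b3_blocks (fun n : ℕ => f (n : ℤ)) M r
  rw [h1]
  have h2 : ∀ t ∈ range M, ∑ v ∈ range r, f (((t * r + v : ℕ) : ℤ)) = ∑ v ∈ range r, f (v : ℤ) := by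
    intro t _
    refine Finset.sum_congr rfl fun v _ => ?_
    have h3 := b3_perZ f r hf (t : ℤ) (v : ℤ)
    have h4 : (((t * r + v : ℕ) : ℤ)) = (v : ℤ) + r * (t : ℤ) := by
      push_cast
      ring
    rw [h4, h3]
  rw [Finset.sum_congr rfl h2, Finset.sum_const, card_range, nsmul_eq_mul]

/-- The components with bounded moduli (compare `W1_small`). -/
theorem x1b_small {k : ℕ} (B : ℤ[X]) (hB : B.natDegree = 1) (P : Fin k → ℤ[X]) (r D : ℕ) (hD : 1 ≤ D)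
    (px : Ch) (hpx : px ∈ PC r) (hr : px.1 = r) (p : Fin k → Ch)
    (hp : ∀ i, p i ∈ PC r) (T : Finset (Fin k → ℕ)) (hT : T ⊆ Fintype.piFinset (fun i => KS r (p i).1))
    (hTD : ∀ κ ∈ T, univ.lcm (fun i => (p i).1 * κ i) ≤ D)
    (hn : ∀ N : ℕ, 0 < N → N ≤ D → ¬ (r : ℤ) ∣ B.leadingCoeff * N) (h : Fin k → ℕ) (a H : ℕ) :
    ‖∑ n ∈ Ico a (a + H), gk px 1 (B.eval (n : ℤ)) *
      ∑ κ ∈ T, ∏ i, gk (p i) (κ i) ((P i).eval (n : ℤ) + h i)‖ ≤ 2 * (r : ℝ) ^ 2 * (D : ℝ) ^ (2 * k + 1) := by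
  have hr1 : 1 ≤ r := by
    have := (mem_PC.1 hpx).1
    rwa [hr] at this
  have hDr : (1 : ℝ) ≤ D := by exact_mod_cast hD
  have hrr : (0 : ℝ) ≤ r := Nat.cast_nonneg _
  have h1 : ∑ n ∈ Ico a (a + H), gk px 1 (B.eval (n : ℤ)) *
      ∑ κ ∈ T, ∏ i, gk (p i) (κ i) ((P i).eval (n : ℤ) + h i)
      = ∑ κ ∈ T, ∑ n ∈ Ico a (a + H), gk px 1 (B.eval (n : ℤ)) *
        ∏ i, gk (p i) (κ i) ((P i).eval (n : ℤ) + h i) := by
    simp_rw [mul_sum]
    exact sum_comm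
  rw [h1]
  refine (norm_sum_le _ _).trans ?_
  have hKS : ∀ κ ∈ T, ∀ i, κ i ∈ KS r (p i).1 := fun κ hκ i => Fintype.mem_piFinset.mp (hT hκ) i
  have hle : ∀ κ ∈ T, ∀ i, (p i).1 * κ i ≤ D := by
    intro κ hκ i
    have hpos : 0 < univ.lcm (fun i => (p i).1 * κ i) := by
      rw [Nat.pos_iff_ne_zero, Ne, Finset.lcm_eq_zero_iff]
      rintro ⟨j, -, hj⟩
      have h2 := (mem_PC.1 (hp j)).1
      have h3 := (CA_mem_KS.1 (hKS κ hκ j)).1
      have h4 : 1 ≤ κ j := h3.1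
      have h5 : 0 < (p j).1 * κ j := Nat.mul_pos h2 h4
      omega
    exact (Nat.le_of_dvd hpos (dvd_lcm (mem_univ i))).trans (hTD κ hκ)
  have h1KS : 1 ∈ KS r px.1 := by
    refine CA_mem_KS.2 ⟨⟨le_rfl, ?_⟩, squarefree_one, Nat.coprime_one_left _⟩
    rw [hr, Nat.div_self hr1]
  have h2 : ∀ κ ∈ T, ‖∑ n ∈ Ico a (a + H), gk px 1 (B.eval (n : ℤ)) *
      ∏ i, gk (p i) (κ i) ((P i).eval (n : ℤ) + h i)‖ ≤ 2 * (r : ℝ) ^ 2 * (D : ℝ) ^ (k + 1) := by
    intro κ hκ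
    set N : ℕ := univ.lcm (fun i => (p i).1 * κ i) with hN
    have hND : N ≤ D := hTD κ hκ
    have hN0 : 0 < N := by
      rw [Nat.pos_iff_ne_zero, hN, Ne, Finset.lcm_eq_zero_iff]
      rintro ⟨j, -, hj⟩
      have h2 := (mem_PC.1 (hp j)).1
      have h3 := (CA_mem_KS.1 (hKS κ hκ j)).1
      have h4 : 1 ≤ κ j := h3.1
      have h5 : 0 < (p j).1 * κ j := Nat.mul_pos h2 h4
      omega
    have h3 := B3_int r px hpx 1 h1KS B hB N hN0 (fun n => ∏ i, gk (p i) (κ i) ((P i).eval n + h i)) (by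
      intro n
      refine prod_congr rfl fun i _ => ?_
      have h4 : (((p i).1 * κ i : ℕ) : ℤ) ∣ (P i).eval (n + N) - (P i).eval n := by
        have h5 : (n + (N : ℤ)) - n ∣ (P i).eval (n + N) - (P i).eval n := sub_dvd_eval_sub _ _ _
        rw [add_sub_cancel_left] at h5
        refine dvd_trans ?_ h5
        have h6 : (p i).1 * κ i ∣ N := dvd_lcm (mem_univ i)
        exact_mod_cast h6
      obtain ⟨j, hj⟩ := h4
      have h7 : (P i).eval (n + N) + (h i : ℤ) = ((P i).eval n + h i) + (((p i).1 * κ i : ℕ) : ℤ) * j := by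
        linarith
      rw [h7]
      exact gk_period _ _ _ _) ((D : ℝ) ^ k) (by
      intro n
      rw [norm_prod]
      calc ∏ i, ‖gk (p i) (κ i) ((P i).eval n + h i)‖ ≤ ∏ _i : Fin k, (D : ℝ) := by
            refine prod_le_prod (fun i _ => norm_nonneg _) fun i _ => ?_
            obtain ⟨hr1, hrQ, hprim⟩ := mem_PC.1 (hp i)
            obtain ⟨hI, hsq, hcop⟩ := CA_mem_KS.1 (hKS κ hκ i)
            have hk1 : 1 ≤ κ i := hI.1
            have hiD := hle κ hκ i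
            refine gk_bound D (p i) (mem_PC.2 ⟨hr1, ?_, hprim⟩) (κ i) (CA_mem_KS.2 ⟨?_, hsq, hcop⟩) _
            · exact (Nat.le_mul_of_pos_right _ hk1).trans hiD
            · refine ⟨hk1, ?_⟩
              rw [Nat.le_div_iff_mul_le hr1, mul_comm]
              exact hiD
        _ = (D : ℝ) ^ k := by rw [prod_const, card_univ, Fintype.card_fin]) (by
      rw [mul_one, hr]
      exact hn N hN0 hND) a H
    refine h3.trans ?_
    have hNr : (N : ℝ) ≤ D := by exact_mod_cast hND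
    calc 2 * ((r : ℝ) * N) * (r * (D : ℝ) ^ k) ≤ 2 * ((r : ℝ) * D) * (r * (D : ℝ) ^ k) := by gcongr
      _ = 2 * (r : ℝ) ^ 2 * (D : ℝ) ^ (k + 1) := by ring
  refine (sum_le_sum h2).trans ?_
  rw [sum_const, nsmul_eq_mul]
  have hcard : (T.card : ℝ) ≤ (D : ℝ) ^ k := by
    have h3 : T ⊆ Fintype.piFinset (fun _ : Fin k => Icc 1 D) := by
      intro κ hκ
      refine Fintype.mem_piFinset.mpr fun i => ?_
      obtain ⟨hI, -, -⟩ := CA_mem_KS.1 (hKS κ hκ i)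
      have hr1 := (mem_PC.1 (hp i)).1
      refine mem_Icc.mpr ⟨hI.1, ?_⟩
      exact (Nat.le_mul_of_pos_left _ hr1).trans (hle κ hκ i)
    have h4 := card_le_card h3
    rw [Fintype.card_piFinset] at h4
    simp only [Nat.card_Icc, add_tsub_cancel_right, prod_const, card_univ, Fintype.card_fin] at h4
    exact_mod_cast h4
  calc (T.card : ℝ) * (2 * (r : ℝ) ^ 2 * (D : ℝ) ^ (k + 1)) ≤
        (D : ℝ) ^ k * (2 * (r : ℝ) ^ 2 * (D : ℝ) ^ (k + 1)) :=
        mul_le_mul_of_nonneg_right hcard (by positivity)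
    _ = 2 * (r : ℝ) ^ 2 * (D : ℝ) ^ (2 * k + 1) := by ring

/-- the function in the mean, expanded -/
theorem x1b_exp {k : ℕ} (Q : ℕ) (px : Ch) (hpx : px ∈ PC Q) (B : ℤ[X]) (P : Fin k → ℤ[X])
    (h : Fin k → ℕ) (n : ℤ) :
    Phf (pB px ({0} : Finset (Fin (k + 1)))) px.1.primeFactors (at' (sys B P h) n) =
      gk px 1 (B.eval n) * ∑ κ ∈ KT px (∅ : Finset (Fin k)),
        ∏ i, gk (pB px ∅ i) (κ i) ((P i).eval n + h i) := by
  classical
  obtain ⟨hr1, -, -⟩ := mem_PC.1 hpx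
  rw [← X1A_expand Q px hpx ∅ (fun i => (P i).eval n + h i)]
  unfold Phf at'
  rw [Fin.prod_univ_succ]
  have e0 : sys B P h 0 n = B.eval n := rfl
  have e1 : ∀ i : Fin k, sys B P h i.succ n = (P i).eval n + h i := fun i => rfl
  have e2 : pB px ({0} : Finset (Fin (k + 1))) 0 = px := by
    unfold pB
    rw [if_pos (Finset.mem_singleton_self _)]
  have e3 : ∀ i : Fin k, pB px ({0} : Finset (Fin (k + 1))) i.succ = pB px ∅ i := by
    intro i
    unfold pB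
    rw [if_neg (by
      rw [Finset.mem_singleton]
      exact Fin.succ_ne_zero i), if_neg (Finset.notMem_empty _)]
  rw [e0, e2]
  have e4 : cj px (B.eval n) * ((uu px.1.primeFactors (B.eval n) : ℝ) : ℂ) = gk px 1 (B.eval n) := by
    rw [← B1_SD px.1 hr1 px dvd_rfl (B.eval n), x1a_SD1 px.1 hr1, Finset.sum_singleton]
  rw [e4]
  refine congrArg (fun z => gk px 1 (B.eval n) * z) (Finset.prod_congr rfl fun i _ => ?_)
  rw [e1, e3 i]


end Pool.Agent.Lib.H24P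
end
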