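import Pool.Agent.Lib.H59M.M1.M009
import Pool.Agent.Lib.H59M.M1.M021
import Pool.Agent.Lib.H59M.M1.M024
import Pool.Agent.Lib.H59M.M1.M061
import Pool.Agent.Lib.H59M.M1.M063
import Pool.Agent.Lib.H59M.M1.M066
import Pool.Agent.Lib.H59M.M1.M067
import Pool.Agent.Lib.H59M.M1.M068
import Pool.Agent.Lib.H59M.M1.M073

/-! Merged copies (to shorten the build) of Lib.H59T.F5, Lib.H59T.UF, Lib.H59T.UBA, Lib.H59T.UB, Lib.H59T.UM, Lib.H59T.UL, Lib.H9S.BDL, Lib.H59T.UV, Lib.H9U.Defs, Lib.HUK.IDE, Lib.HUP.Defs. -/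

-- from Lib.H59T.F5
section

/-!
# Project H59T, chunk F5 (M): the weighted version for two forms
-/

open Finset

namespace Pool.Agent.Lib.H59T

open Pool.Agent.Lib.H68T Pool.Agent.Lib.H18Q Pool.Agent.Lib.H59P

/-- The conjugate character. -/
noncomputable def cjp (p : Ch) : Ch := ⟨p.1, p.2⁻¹⟩

theorem f5_inv_prim {r : ℕ} (χ : DirichletCharacter ℂ r) (h : χ.IsPrimitive) :
    (χ⁻¹).IsPrimitive := by
  have key : ∀ ψ : DirichletCharacter ℂ r, ψ.conductorSet ⊆ (ψ⁻¹).conductorSet := by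
    rintro ψ d ⟨hd, ξ, hξ⟩
    exact ⟨hd, ξ⁻¹, by rw [map_inv, ← hξ]⟩
  have e : (χ⁻¹).conductorSet = χ.conductorSet := by
    apply Set.Subset.antisymm
    · have := key χ⁻¹
      rwa [inv_inv] at this
    · exact key χ
  unfold DirichletCharacter.IsPrimitive DirichletCharacter.conductor at *
  rw [e]
  exact h

/-- Proof. The inverse of a primitive character is primitive, `conj χ = χ⁻¹` (`MulChar.star_apply'`-type lemma or values of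
absolute value `1` on units), the other factors of `gk` are real. -/
theorem F5_conj (Q : ℕ) (p : Ch) (hp : p ∈ PC Q) (κ : ℕ) (m : ℤ) :
    cjp p ∈ PC Q ∧ (starRingEnd ℂ) (gk p κ m) = gk (cjp p) κ m := by
  obtain ⟨h1, h2, h3⟩ := mem_PC.1 hp
  refine ⟨mem_PC.2 ⟨h1, h2, f5_inv_prim p.2 h3⟩, ?_⟩
  have hne : NeZero p.1 := ⟨by omega⟩
  have hs : ∀ (χ : DirichletCharacter ℂ p.1) (a : ZMod p.1), (starRingEnd ℂ) (χ a) = χ⁻¹ a :=
    fun χ a => χ.star_apply' a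
  unfold gk cjp
  dsimp only
  rw [map_mul, map_mul, Complex.conj_ofReal, Complex.conj_ofReal, Complex.conj_conj, hs, inv_inv]









end Pool.Agent.Lib.H59T
end

-- from Lib.H59T.UF
section

/-!
# Project H59T, chunk UF (M): small cubes
-/

open Finset

namespace Pool.Agent.Lib.H59T

open Pool.Agent.Lib.H68T Pool.Agent.Lib.H18Q Pool.Agent.Lib.H59P

/-- Proof. `‖gk p κ m‖ ≤ p.1 ≤ Q` (see `F3_sup`), at most `Q` values of `κ`. -/
theorem UF_sup (Q Q' : ℕ) (p : Ch) (hp : p ∈ PC Q) (m : ℤ) : ‖Vl Q Q' p m‖ ≤ (Q : ℝ) ^ 2 := by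
  unfold Vl
  refine (norm_sum_le _ _).trans ?_
  have h1 : ∀ κ ∈ (KS Q p.1).filter (fun κ => Q' < p.1 * κ), ‖gk p κ m‖ ≤ (Q : ℝ) := fun κ hκ =>
    f3_gk Q p hp κ (mem_filter.1 hκ).1 m
  refine (Finset.sum_le_sum h1).trans ?_
  rw [sum_const, nsmul_eq_mul, pow_two]
  refine mul_le_mul_of_nonneg_right ?_ (Nat.cast_nonneg _)
  have h2 : ((KS Q p.1).filter (fun κ => Q' < p.1 * κ)).card ≤ Q := by
    have h3 : (KS Q p.1).filter (fun κ => Q' < p.1 * κ) ⊆ Icc 1 Q := by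
      intro κ hκ
      have h4 := CA_mem_KS.1 (mem_filter.1 hκ).1
      exact mem_Icc.2 ⟨h4.1.1, h4.1.2.trans (Nat.div_le_self _ _)⟩
    have h5 := card_le_card h3
    rwa [Nat.card_Icc, Nat.add_sub_cancel] at h5
  exact_mod_cast h2

/-- the four characters -/
noncomputable def uf_p (p : Ch) : Fin 4 → Ch := ![p, cjp p, cjp p, p]


theorem uf_conj (Q Q' : ℕ) (p : Ch) (hp : p ∈ PC Q) (m : ℤ) :
    (starRingEnd ℂ) (Vl Q Q' p m) = Vl Q Q' (cjp p) m := by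
  unfold Vl
  rw [map_sum]
  have h1 : (cjp p).1 = p.1 := rfl
  refine Finset.sum_congr rfl fun κ _ => (F5_conj Q p hp κ m).2

/-- the set of moduli -/
noncomputable def uf_T (Q Q' : ℕ) (p : Ch) : Finset (Fin 4 → ℕ) :=
  Fintype.piFinset fun i : Fin 4 => (KS Q (uf_p p i).1).filter (fun κ => Q' < (uf_p p i).1 * κ)

theorem uf_expand (Q Q' : ℕ) (p : Ch) (hp : p ∈ PC Q) (h h' k k' t m : ℤ) :
    P4 (Vl Q Q' p) h h' k k' (m + 2 * t) = ∑ κ ∈ uf_T Q Q' p,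
      ∏ i, gk (uf_p p i) (κ i) (uf ![m + h + k, m + k, m + h, m] i h' k' t) := by
  unfold uf_T
  rw [← Finset.prod_univ_sum (fun i : Fin 4 => (KS Q (uf_p p i).1).filter (fun κ => Q' < (uf_p p i).1 * κ))
    (fun i κ => gk (uf_p p i) κ (uf ![m + h + k, m + k, m + h, m] i h' k' t))]
  rw [Fin.prod_univ_four]
  unfold P4
  rw [uf_conj Q Q' p hp, uf_conj Q Q' p hp]
  have e0 : uf ![m + h + k, m + k, m + h, m] 0 h' k' t = m + 2 * t + h + k := by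
    show 2 * t + (m + h + k) = _
    ring
  have e1 : uf ![m + h + k, m + k, m + h, m] 1 h' k' t = m + 2 * t + h' + k := by
    show 2 * t + h' + (m + k) = _
    ring
  have e2 : uf ![m + h + k, m + k, m + h, m] 2 h' k' t = m + 2 * t + h + k' := by
    show 2 * t + k' + (m + h) = _
    ring
  have e3 : uf ![m + h + k, m + k, m + h, m] 3 h' k' t = m + 2 * t + h' + k' := by
    show 2 * t + h' + k' + m = _
    ring
  rw [e0, e1, e2, e3]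
  rfl

theorem uf_lcm (Q Q' : ℕ) (p : Ch) (hp : p ∈ PC Q) (κ : Fin 4 → ℕ) (hκ : κ ∈ uf_T Q Q' p) :
    Q' < univ.lcm (fun i => (uf_p p i).1 * κ i) := by
  have h1 : ∀ i, κ i ∈ KS Q (uf_p p i).1 ∧ Q' < (uf_p p i).1 * κ i := fun i =>
    mem_filter.1 (Fintype.mem_piFinset.1 hκ i)
  refine (h1 0).2.trans_le (Nat.le_of_dvd ?_ (Finset.dvd_lcm (mem_univ 0)))
  refine Nat.pos_of_ne_zero ?_
  rw [Ne, Finset.lcm_eq_zero_iff]
  rintro ⟨i, -, hi⟩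
  have h2 := (h1 i).2
  omega

/-- Proof. For fixed `h, k` put `y = h'`, `y' = k'`, `z = t`: `P4 V h h' k k' (m + 2t)` is the product of `V`, `conj V`, `conj V`, `V` at the
forms `uf e` with `e = ![m+h+k, m+k, m+h, m]`. Expand `V = Vl Q Q' p` (and its conjugate, `F5_conj`): it is
`∑_{κ ∈ T} ∏_i gk (p_i) (κ i) (uf e i …)` with `p_i = ![p, cjp p, cjp p, p]`, `T` = the product (`Fintype.piFinset`) of the sets
`(KS Q p.1).filter (Q' < p.1 κ)` (`Finset.prod_univ_sum`), and `Q' < p.1 κ_0 ≤ lcm`. `F3_gen` with `k = 4`, `A = 12`, `c = 1/72`,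
`D = Q'`, `a = a' = b = 0`, `s = s' = H` (`Q^40 ≤ H`): at most `C H⁴ Q'^(-1/144)` for each of the `H²` pairs `(h, k)`. -/
theorem UF_cube : ∃ C : ℝ, 0 < C ∧ ∀ Q Q' H : ℕ, 1 ≤ Q' → Q ^ 40 ≤ H → ∀ p ∈ PC Q, ∀ m : ℤ,
    ∑ h ∈ range H, ∑ h' ∈ range H, ∑ k ∈ range H, ∑ k' ∈ range H,
      ‖∑ t ∈ range H, P4 (Vl Q Q' p) h h' k k' (m + 2 * t)‖ ^ 2 ≤
      C * (H : ℝ) ^ 6 * (Q' : ℝ) ^ (-(1 / 144 : ℝ)) := by
  obtain ⟨C, hC, hF⟩ := F3_gen 4 12 (1 / 72) (by norm_num) (by norm_num)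
  refine ⟨C, hC, fun Q Q' H hQ' hH p hp m => ?_⟩
  have hpp : ∀ i, uf_p p i ∈ PC Q := by
    intro i
    have h1 := (F5_conj Q p hp 1 0).1
    fin_cases i
    · exact hp
    · exact h1
    · exact h1
    · exact hp
  have key : ∀ h k : ℕ, ∑ h' ∈ range H, ∑ k' ∈ range H,
      ‖∑ t ∈ range H, P4 (Vl Q Q' p) h h' k k' (m + 2 * t)‖ ^ 2 ≤
      C * ((H : ℝ) * H * (H : ℝ) ^ 2) * (Q' : ℝ) ^ (-(1 / 144 : ℝ)) := by
    intro h k
    have h1 := hF (uf ![m + h + k, m + k, m + h, m]) (UE_cp _) (UE_loc _) Q Q' hQ' (uf_p p) hpp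
      (uf_T Q Q' p) (fun κ hκ => Fintype.mem_piFinset.2 fun i =>
        (mem_filter.1 (Fintype.mem_piFinset.1 hκ i)).1) (fun κ hκ => uf_lcm Q Q' p hp κ hκ)
      0 0 0 H H H (by simpa using hH) (by simpa using hH) (by simpa using hH)
    have e1 : (-((1 : ℝ) / 72 / 2)) = -(1 / 144) := by norm_num
    rw [e1] at h1
    simp only [zero_add, ← Finset.range_eq_Ico] at h1
    refine le_trans (le_of_eq ?_) h1
    refine Finset.sum_congr rfl fun h' _ => Finset.sum_congr rfl fun k' _ => ?_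
    congr 2
    refine Finset.sum_congr rfl fun t _ => ?_
    exact uf_expand Q Q' p hp h h' k k' t m
  have e2 : ∀ h ∈ range H, ∑ h' ∈ range H, ∑ k ∈ range H, ∑ k' ∈ range H,
      ‖∑ t ∈ range H, P4 (Vl Q Q' p) h h' k k' (m + 2 * t)‖ ^ 2 ≤
      H * (C * ((H : ℝ) * H * (H : ℝ) ^ 2) * (Q' : ℝ) ^ (-(1 / 144 : ℝ))) := by
    intro h _
    rw [Finset.sum_comm]
    refine (Finset.sum_le_sum fun k _ => key h k).trans ?_
    rw [Finset.sum_const, Finset.card_range, nsmul_eq_mul]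
  refine (Finset.sum_le_sum e2).trans (le_of_eq ?_)
  rw [Finset.sum_const, Finset.card_range, nsmul_eq_mul]
  ring

end Pool.Agent.Lib.H59T
end

-- from Lib.H59T.UBA
section

/-!
# Project H59T, chunk UBA (M): small cubes for a kernel with slowly varying coefficient
-/

open Finset

namespace Pool.Agent.Lib.H59T

open Pool.Agent.Lib.H68T Pool.Agent.Lib.H18Q Pool.Agent.Lib.H59P

theorem uba_lip (β : ℤ → ℂ) (u v : ℤ) (δ : ℝ) (hδ : ∀ m, u ≤ m → m + 1 ≤ v → ‖β (m + 1) - β m‖ ≤ δ)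
    (m : ℤ) (hm : u ≤ m) (j : ℕ) : m + j ≤ v → ‖β (m + j) - β m‖ ≤ j * δ := by
  induction j with
  | zero =>
    intro _
    simp
  | succ j ih =>
    intro hj
    push_cast at hj
    have h1 := ih (by omega)
    have h2 := hδ (m + j) (by omega) (by omega)
    have h3 : β (m + ((j + 1 : ℕ) : ℤ)) - β m = (β (m + j + 1) - β (m + j)) + (β (m + j) - β m) := by
      push_cast
      rw [← add_assoc]
      ring
    rw [h3]
    refine (norm_add_le _ _).trans ?_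
    push_cast
    linarith

theorem uba_prod {B e : ℝ} (hB : 0 ≤ B) {a b c d a' b' c' d' : ℂ} (hb : ‖b‖ ≤ B) (hc : ‖c‖ ≤ B) (hd : ‖d‖ ≤ B)
    (ha' : ‖a'‖ ≤ B) (hb' : ‖b'‖ ≤ B) (hc' : ‖c'‖ ≤ B) (h1 : ‖a - a'‖ ≤ e) (h2 : ‖b - b'‖ ≤ e)
    (h3 : ‖c - c'‖ ≤ e) (h4 : ‖d - d'‖ ≤ e) : ‖a * b * c * d - a' * b' * c' * d'‖ ≤ 4 * e * B ^ 3 := by
  have he : 0 ≤ e := (norm_nonneg _).trans h1
  have h0 : a * b * c * d - a' * b' * c' * d' = (a - a') * b * c * d + a' * (b - b') * c * d +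
      a' * b' * (c - c') * d + a' * b' * c' * (d - d') := by ring
  have e1 : ‖(a - a') * b * c * d‖ ≤ e * B * B * B := by
    rw [norm_mul, norm_mul, norm_mul]
    gcongr
  have e2 : ‖a' * (b - b') * c * d‖ ≤ B * e * B * B := by
    rw [norm_mul, norm_mul, norm_mul]
    gcongr
  have e3 : ‖a' * b' * (c - c') * d‖ ≤ B * B * e * B := by
    rw [norm_mul, norm_mul, norm_mul]
    gcongr
  have e4 : ‖a' * b' * c' * (d - d')‖ ≤ B * B * B * e := by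
    rw [norm_mul, norm_mul, norm_mul]
    gcongr
  rw [h0]
  have n1 := norm_add_le ((a - a') * b * c * d + a' * (b - b') * c * d + a' * b' * (c - c') * d) (a' * b' * c' * (d - d'))
  have n2 := norm_add_le ((a - a') * b * c * d + a' * (b - b') * c * d) (a' * b' * (c - c') * d)
  have n3 := norm_add_le ((a - a') * b * c * d) (a' * (b - b') * c * d)
  have h5 : 4 * e * B ^ 3 = e * B * B * B + B * e * B * B + B * B * e * B + B * B * B * e := by ring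
  rw [h5]
  linarith

theorem uba_G (b : ℂ) (hb : ‖b‖ ≤ 1) (V : ℤ → ℂ) (H : ℕ) (h h' k k' m : ℤ) :
    ‖∑ t ∈ range H, P4 (fun x => b * V x) h h' k k' (m + 2 * t)‖ ≤
      ‖∑ t ∈ range H, P4 V h h' k k' (m + 2 * t)‖ := by
  have h1 : ∀ x, P4 (fun x => b * V x) h h' k k' x =
      (b * (starRingEnd ℂ) b * (starRingEnd ℂ) b * b) * P4 V h h' k k' x := by
    intro x
    unfold P4
    simp only [map_mul]
    ring
  rw [Finset.sum_congr rfl fun t _ => h1 _, ← Finset.mul_sum, norm_mul]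
  refine mul_le_of_le_one_left (norm_nonneg _) ?_
  rw [norm_mul, norm_mul, norm_mul, Complex.norm_conj]
  calc ‖b‖ * ‖b‖ * ‖b‖ * ‖b‖ ≤ 1 * 1 * 1 * 1 := by gcongr
    _ = 1 := by norm_num

theorem uba_const (H : ℕ) (a : ℝ) : ∑ _h ∈ range H, ∑ _h' ∈ range H, ∑ _k ∈ range H, ∑ _k' ∈ range H, a =
    (H : ℝ) ^ 4 * a := by
  simp only [Finset.sum_const, Finset.card_range, nsmul_eq_mul]
  ring

/-- all points in the interval -/
theorem uba_in {B δ : ℝ} (hB : 0 ≤ B) (hδ0 : 0 ≤ δ) (V : ℤ → ℂ) (hV : ∀ m, ‖V m‖ ≤ B) (β : ℤ → ℂ) (u v : ℤ)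
    (hβ : ∀ m, u ≤ m → m ≤ v → ‖β m‖ ≤ 1)
    (hδ : ∀ m, u ≤ m → m + 1 ≤ v → ‖β (m + 1) - β m‖ ≤ δ) (H : ℕ) (m : ℤ) (h1 : u ≤ m) (h2 : m + 4 * H ≤ v)
    (h h' k k' : ℕ) (hh : h < H) (hh' : h' < H) (hk : k < H) (hk' : k' < H) :
    ‖∑ t ∈ range H, P4 (fun m => if u ≤ m ∧ m ≤ v then β m * V m else 0) h h' k k' (m + 2 * t)‖ ^ 2 ≤
      2 * ‖∑ t ∈ range H, P4 V h h' k k' (m + 2 * t)‖ ^ 2 + 512 * (H : ℝ) ^ 4 * δ ^ 2 * B ^ 8 := by
  obtain ⟨F, hF⟩ : ∃ F : ℤ → ℂ, F = fun m => if u ≤ m ∧ m ≤ v then β m * V m else 0 := ⟨_, rfl⟩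
  rw [← hF]
  have hFx : ∀ j : ℕ, j ≤ 4 * H → F (m + j) = β (m + j) * V (m + j) ∧ ‖F (m + j)‖ ≤ B ∧
      ‖β m * V (m + j)‖ ≤ B ∧ ‖F (m + j) - β m * V (m + j)‖ ≤ 4 * H * δ * B := by
    intro j hj
    have e0 : F (m + j) = β (m + j) * V (m + j) := by
      rw [hF]
      exact if_pos ⟨by omega, by omega⟩
    refine ⟨e0, ?_, ?_, ?_⟩
    · rw [e0, norm_mul]
      calc ‖β (m + j)‖ * ‖V (m + j)‖ ≤ 1 * B :=
            mul_le_mul (hβ _ (by omega) (by omega)) (hV _) (norm_nonneg _) zero_le_one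
        _ = B := one_mul _
    · rw [norm_mul]
      calc ‖β m‖ * ‖V (m + j)‖ ≤ 1 * B :=
            mul_le_mul (hβ _ (by omega) (by omega)) (hV _) (norm_nonneg _) zero_le_one
        _ = B := one_mul _
    · rw [e0, ← sub_mul, norm_mul]
      have e1 := uba_lip β u v δ hδ m h1 j (by omega)
      have e2 : (j : ℝ) * δ ≤ 4 * H * δ := by
        refine mul_le_mul_of_nonneg_right ?_ hδ0
        exact_mod_cast hj
      exact mul_le_mul (e1.trans e2) (hV _) (norm_nonneg _) (by positivity)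
  have hpt : ∀ t ∈ range H, ‖P4 F h h' k k' (m + 2 * t) - P4 (fun x => β m * V x) h h' k k' (m + 2 * t)‖ ≤
      4 * (4 * H * δ * B) * B ^ 3 := by
    intro t ht
    rw [mem_range] at ht
    have a1 : (m + 2 * (t : ℤ) + h + k : ℤ) = m + ((2 * t + h + k : ℕ) : ℤ) := by push_cast; ring
    have a2 : (m + 2 * (t : ℤ) + h' + k : ℤ) = m + ((2 * t + h' + k : ℕ) : ℤ) := by push_cast; ring
    have a3 : (m + 2 * (t : ℤ) + h + k' : ℤ) = m + ((2 * t + h + k' : ℕ) : ℤ) := by push_cast; ring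
    have a4 : (m + 2 * (t : ℤ) + h' + k' : ℤ) = m + ((2 * t + h' + k' : ℕ) : ℤ) := by push_cast; ring
    obtain ⟨-, b1, c1, d1⟩ := hFx (2 * t + h + k) (by omega)
    obtain ⟨-, b2, c2, d2⟩ := hFx (2 * t + h' + k) (by omega)
    obtain ⟨-, b3, c3, d3⟩ := hFx (2 * t + h + k') (by omega)
    obtain ⟨-, b4, c4, d4⟩ := hFx (2 * t + h' + k') (by omega)
    unfold P4
    rw [a1, a2, a3, a4]
    refine uba_prod hB ?_ ?_ b4 c1 ?_ ?_ d1 ?_ ?_ d4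
    · rw [Complex.norm_conj]; exact b2
    · rw [Complex.norm_conj]; exact b3
    · rw [Complex.norm_conj]; exact c2
    · rw [Complex.norm_conj]; exact c3
    · rw [← map_sub, Complex.norm_conj]; exact d2
    · rw [← map_sub, Complex.norm_conj]; exact d3
  have hdiff : ‖∑ t ∈ range H, P4 F h h' k k' (m + 2 * t) - ∑ t ∈ range H, P4 (fun x => β m * V x) h h' k k' (m + 2 * t)‖ ≤
      16 * (H : ℝ) ^ 2 * δ * B ^ 4 := by
    rw [← Finset.sum_sub_distrib]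
    refine (norm_sum_le _ _).trans ((Finset.sum_le_sum hpt).trans (le_of_eq ?_))
    rw [Finset.sum_const, Finset.card_range, nsmul_eq_mul]
    ring
  have hG := uba_G (β m) (hβ m h1 (by omega)) V H h h' k k' m
  generalize ∑ t ∈ range H, P4 F h h' k k' (m + 2 * t) = X at hdiff ⊢
  generalize ∑ t ∈ range H, P4 (fun x => β m * V x) h h' k k' (m + 2 * t) = Y at hdiff hG
  generalize ‖∑ t ∈ range H, P4 V h h' k k' (m + 2 * t)‖ = Z at hG ⊢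
  have e1 : ‖X‖ ≤ ‖X - Y‖ + ‖Y‖ := by
    have := norm_add_le (X - Y) Y
    rwa [sub_add_cancel] at this
  have e2 : ‖X‖ ≤ 16 * (H : ℝ) ^ 2 * δ * B ^ 4 + Z := by linarith
  have e3 := pow_le_pow_left₀ (norm_nonneg _) e2 2
  refine e3.trans ?_
  nlinarith [sq_nonneg (16 * (H : ℝ) ^ 2 * δ * B ^ 4 - Z)]

theorem uba_triv {B : ℝ} (F : ℤ → ℂ) (hF : ∀ m, ‖F m‖ ≤ B) (H : ℕ) (m h h' k k' : ℤ) :
    ‖∑ t ∈ range H, P4 F h h' k k' (m + 2 * t)‖ ^ 2 ≤ (H : ℝ) ^ 2 * B ^ 8 := by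
  have hB : 0 ≤ B := (norm_nonneg _).trans (hF 0)
  have h1 : ∀ x, ‖P4 F h h' k k' x‖ ≤ B ^ 4 := by
    intro x
    unfold P4
    rw [norm_mul, norm_mul, norm_mul, Complex.norm_conj, Complex.norm_conj]
    calc _ ≤ B * B * B * B := by
          gcongr
          · exact hF _
          · exact hF _
          · exact hF _
          · exact hF _
      _ = B ^ 4 := by ring
  have h2 : ‖∑ t ∈ range H, P4 F h h' k k' (m + 2 * t)‖ ≤ H * B ^ 4 := by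
    refine (norm_sum_le _ _).trans ((Finset.sum_le_sum fun t _ => h1 _).trans (le_of_eq ?_))
    rw [Finset.sum_const, Finset.card_range, nsmul_eq_mul]
  refine (pow_le_pow_left₀ (norm_nonneg _) h2 2).trans (le_of_eq ?_)
  ring

theorem uba_ind (S A : Finset ℤ) (a : ℝ) (ha : 0 ≤ a) : ∑ m ∈ S, (if m ∈ A then a else 0) ≤ A.card * a := by
  classical
  rw [← Finset.sum_filter, Finset.sum_const, nsmul_eq_mul]
  refine mul_le_mul_of_nonneg_right ?_ ha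
  have h1 : S.filter (fun m => m ∈ A) ⊆ A := fun m hm => (Finset.mem_filter.1 hm).2
  exact_mod_cast Finset.card_le_card h1

/-- The sum over the small cubes for a kernel with slowly varying coefficient and sharp cutoffs. Proof. `H = Q^40`. If the interval
`[m, m + 4H]` lies in `[u, v]`: the coefficients at the points `m + j`, `0 ≤ j ≤ 4H`, differ from `β(m)` by at most `4 H δ`, so the inner
sum is `|β(m)|⁴`-type constant times the sum for `V = Vl Q Q' p` up to `H · 4 (4 H δ) B⁴`, `B = Q²` (`UF_sup`), and by `UF_cube` and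
`‖x+y‖² ≤ 2‖x‖² + 2‖y‖²` the contribution of `m` is at most `2 C H⁶ Q'^(-1/144) + 2 H⁴ (16 H² δ Q^8)²`. If `[m, m+4H]` does not
meet `[u, v]` it is `0`. At most `8 H + 2` other `m`, each at most `H⁶ B^8 = H⁶ Q^16`. -/
theorem UB_cubes : ∃ C : ℝ, 0 < C ∧ ∀ Q Q' : ℕ, 1 ≤ Q' → 1 ≤ Q → ∀ p ∈ PC Q, ∀ (β : ℤ → ℂ) (u v : ℤ)
    (δ : ℝ), u ≤ v → 0 ≤ δ → (∀ m, u ≤ m → m ≤ v → ‖β m‖ ≤ 1) →
    (∀ m, u ≤ m → m + 1 ≤ v → ‖β (m + 1) - β m‖ ≤ δ) → ∀ S : Finset ℤ,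
    ∑ m ∈ S, ∑ h ∈ range (Q ^ 40), ∑ h' ∈ range (Q ^ 40), ∑ k ∈ range (Q ^ 40), ∑ k' ∈ range (Q ^ 40),
      ‖∑ t ∈ range (Q ^ 40), P4 (fun m => if u ≤ m ∧ m ≤ v then β m * Vl Q Q' p m else 0) h h' k k'
        (m + 2 * t)‖ ^ 2 ≤
      (Q : ℝ) ^ 240 * (((v : ℝ) - u + 1) * (C * (Q' : ℝ) ^ (-(1 / 144 : ℝ)) + 512 * δ ^ 2 * (Q : ℝ) ^ 96) +
        10 * (Q : ℝ) ^ 56) := by
  classical
  obtain ⟨C, hC, hcube⟩ := UF_cube
  refine ⟨2 * C, by positivity, ?_⟩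
  intro Q Q' hQ' hQ p hp β u v δ huv hδ0 hβ hδ S
  obtain ⟨H, hH⟩ : ∃ H : ℕ, H = Q ^ 40 := ⟨_, rfl⟩
  have hHR : (H : ℝ) = (Q : ℝ) ^ 40 := by rw [hH]; push_cast; rfl
  rw [← hH]
  have hQ0 : (0 : ℝ) < Q := by exact_mod_cast hQ
  have hV : ∀ m, ‖Vl Q Q' p m‖ ≤ (Q : ℝ) ^ 2 := UF_sup Q Q' p hp
  have hB : (0 : ℝ) ≤ (Q : ℝ) ^ 2 := by positivity
  obtain ⟨F, hF⟩ : ∃ F : ℤ → ℂ, F = fun m => if u ≤ m ∧ m ≤ v then β m * Vl Q Q' p m else 0 := ⟨_, rfl⟩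
  have hFB : ∀ m, ‖F m‖ ≤ (Q : ℝ) ^ 2 := by
    intro m
    rw [hF]
    simp only
    split_ifs with hm
    · rw [norm_mul]
      calc ‖β m‖ * ‖Vl Q Q' p m‖ ≤ 1 * (Q : ℝ) ^ 2 :=
            mul_le_mul (hβ m hm.1 hm.2) (hV m) (norm_nonneg _) zero_le_one
        _ = _ := one_mul _
    · rw [norm_zero]
      exact hB
  obtain ⟨q, hq⟩ : ∃ q : ℝ, q = (Q' : ℝ) ^ (-(1 / 144 : ℝ)) := ⟨_, rfl⟩
  have hq0 : 0 ≤ q := by rw [hq]; exact Real.rpow_nonneg (Nat.cast_nonneg _) _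
  obtain ⟨aa, haa⟩ : ∃ aa : ℝ, aa = (H : ℝ) ^ 6 * (2 * C * q + 512 * δ ^ 2 * (Q : ℝ) ^ 96) := ⟨_, rfl⟩
  obtain ⟨bb, hbb⟩ : ∃ bb : ℝ, bb = (H : ℝ) ^ 6 * (Q : ℝ) ^ 16 := ⟨_, rfl⟩
  have haa0 : 0 ≤ aa := by rw [haa]; positivity
  have hbb0 : 0 ≤ bb := by rw [hbb]; positivity
  have hE : ∀ m : ℤ, ∑ h ∈ range H, ∑ h' ∈ range H, ∑ k ∈ range H, ∑ k' ∈ range H,
      ‖∑ t ∈ range H, P4 F h h' k k' (m + 2 * t)‖ ^ 2 ≤
      (if m ∈ Icc u v then aa else 0) + (if m ∈ Ico (u - 4 * H) u ∪ Ioc (v - 4 * H) v then bb else 0) := by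
    intro m
    have hy0 : 0 ≤ (if m ∈ Icc u v then aa else 0) := by split_ifs; exacts [haa0, le_rfl]
    have hz0 : 0 ≤ (if m ∈ Ico (u - 4 * H) u ∪ Ioc (v - 4 * H) v then bb else 0) := by
      split_ifs
      exacts [hbb0, le_rfl]
    by_cases hA : u ≤ m ∧ m + 4 * H ≤ v
    · have h1 : m ∈ Icc u v := Finset.mem_Icc.2 ⟨hA.1, by omega⟩
      rw [if_pos h1]
      refine le_trans ?_ (le_add_of_nonneg_right hz0)
      have h2 : ∑ h ∈ range H, ∑ h' ∈ range H, ∑ k ∈ range H, ∑ k' ∈ range H,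
          ‖∑ t ∈ range H, P4 F h h' k k' (m + 2 * t)‖ ^ 2 ≤
          ∑ h ∈ range H, ∑ h' ∈ range H, ∑ k ∈ range H, ∑ k' ∈ range H,
          (2 * ‖∑ t ∈ range H, P4 (Vl Q Q' p) h h' k k' (m + 2 * t)‖ ^ 2 +
            512 * (H : ℝ) ^ 4 * δ ^ 2 * ((Q : ℝ) ^ 2) ^ 8) := by
        refine Finset.sum_le_sum fun h hh => Finset.sum_le_sum fun h' hh' => Finset.sum_le_sum fun k hk =>
          Finset.sum_le_sum fun k' hk' => ?_
        rw [hF]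
        exact uba_in hB hδ0 (Vl Q Q' p) hV β u v hβ hδ H m hA.1 hA.2 h h' k k' (mem_range.1 hh)
          (mem_range.1 hh') (mem_range.1 hk) (mem_range.1 hk')
      refine h2.trans ?_
      have h4 : (H : ℝ) ^ 4 * (512 * (H : ℝ) ^ 4 * δ ^ 2 * ((Q : ℝ) ^ 2) ^ 8) =
          (H : ℝ) ^ 6 * (512 * δ ^ 2 * (Q : ℝ) ^ 96) := by
        rw [hHR]
        ring
      have h3 := hcube Q Q' H hQ' (le_of_eq hH.symm) p hp m
      rw [← hq] at h3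
      generalize 512 * (H : ℝ) ^ 4 * δ ^ 2 * ((Q : ℝ) ^ 2) ^ 8 = cst at h4 ⊢
      simp only [Finset.sum_add_distrib, ← Finset.mul_sum]
      rw [uba_const, h4, haa]
      linarith
    · by_cases hC' : m ∈ Ico (u - 4 * H) u ∪ Ioc (v - 4 * H) v
      · rw [if_pos hC']
        refine le_trans ?_ (le_add_of_nonneg_left hy0)
        have h2 : ∑ h ∈ range H, ∑ h' ∈ range H, ∑ k ∈ range H, ∑ k' ∈ range H,
            ‖∑ t ∈ range H, P4 F h h' k k' (m + 2 * t)‖ ^ 2 ≤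
            ∑ _h ∈ range H, ∑ _h' ∈ range H, ∑ _k ∈ range H, ∑ _k' ∈ range H,
            ((H : ℝ) ^ 2 * ((Q : ℝ) ^ 2) ^ 8) :=
          Finset.sum_le_sum fun h _ => Finset.sum_le_sum fun h' _ => Finset.sum_le_sum fun k _ =>
            Finset.sum_le_sum fun k' _ => uba_triv F hFB H m h h' k k'
        refine h2.trans (le_of_eq ?_)
        rw [uba_const, hbb]
        ring
      · refine le_trans (le_of_eq ?_) (add_nonneg hy0 hz0)
        have hout : ∀ j : ℕ, j < 4 * H → F (m + j) = 0 := by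
          intro j hj
          rw [hF]
          refine if_neg fun hcon => ?_
          rw [Finset.mem_union, Finset.mem_Ico, Finset.mem_Ioc] at hC'
          omega
        refine Finset.sum_eq_zero fun h hh => Finset.sum_eq_zero fun h' _ => Finset.sum_eq_zero fun k hk =>
          Finset.sum_eq_zero fun k' _ => ?_
        rw [mem_range] at hh hk
        have h3 : ∑ t ∈ range H, P4 F h h' k k' (m + 2 * t) = 0 := by
          refine Finset.sum_eq_zero fun t ht => ?_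
          rw [mem_range] at ht
          have a1 : (m + 2 * (t : ℤ) + h + k : ℤ) = m + ((2 * t + h + k : ℕ) : ℤ) := by push_cast; ring
          unfold P4
          rw [a1, hout _ (by omega), zero_mul, zero_mul, zero_mul]
        rw [h3, norm_zero]
        norm_num
  rw [← hF]
  refine (Finset.sum_le_sum fun m _ => hE m).trans ?_
  rw [Finset.sum_add_distrib]
  have h1 := uba_ind S (Icc u v) aa haa0
  have h2 := uba_ind S (Ico (u - 4 * H) u ∪ Ioc (v - 4 * H) v) bb hbb0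
  have h3 : ((Icc u v).card : ℝ) = (v : ℝ) - u + 1 := by
    rw [Int.card_Icc]
    have h4 : (((v + 1 - u).toNat : ℕ) : ℤ) = v + 1 - u := Int.toNat_of_nonneg (by omega)
    have h5 : (((v + 1 - u).toNat : ℕ) : ℝ) = (((v + 1 - u).toNat : ℤ) : ℝ) := by push_cast; rfl
    rw [h5, h4]
    push_cast
    ring
  have h4 : ((Ico (u - 4 * H) u ∪ Ioc (v - 4 * H) v).card : ℝ) ≤ 8 * H := by
    have h5 := Finset.card_union_le (Ico (u - 4 * (H : ℤ)) u) (Ioc (v - 4 * (H : ℤ)) v)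
    rw [Int.card_Ico, Int.card_Ioc] at h5
    have h6 : (Ico (u - 4 * (H : ℤ)) u ∪ Ioc (v - 4 * (H : ℤ)) v).card ≤ 8 * H := by omega
    exact_mod_cast h6
  rw [h3] at h1
  have h5 := h2.trans (mul_le_mul_of_nonneg_right h4 hbb0)
  have h6 : 8 * (H : ℝ) * bb = (Q : ℝ) ^ 240 * (8 * (Q : ℝ) ^ 56) := by
    rw [hbb, hHR]
    ring
  have h7 : ((v : ℝ) - u + 1) * aa = (Q : ℝ) ^ 240 * (((v : ℝ) - u + 1) * (2 * C * q + 512 * δ ^ 2 * (Q : ℝ) ^ 96)) := by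
    rw [haa, hHR]
    ring
  rw [← hq]
  rw [h6] at h5
  rw [h7] at h1
  have h8 : (Q : ℝ) ^ 240 * (8 * (Q : ℝ) ^ 56) ≤ (Q : ℝ) ^ 240 * (10 * (Q : ℝ) ^ 56) := by
    refine mul_le_mul_of_nonneg_left ?_ (by positivity)
    have : (0 : ℝ) ≤ (Q : ℝ) ^ 56 := by positivity
    linarith
  rw [mul_add]
  linarith

end Pool.Agent.Lib.H59T
end

-- from Lib.H59T.UB
section

/-!
# Project H59T, chunk UB (M): one character
-/

open Finset

namespace Pool.Agent.Lib.H59T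

open Pool.Agent.Lib.H68T Pool.Agent.Lib.H18Q Pool.Agent.Lib.H59P

/-- the representative of an integer in the middle range -/
theorem ub_rep (n : ℕ) (x : ℤ) (hx : -(2 * n : ℤ) ≤ x ∧ x ≤ 2 * n) :
    ((x : ZMod (4 * n + 1))).valMinAbs = x := by
  rw [ZMod.valMinAbs_spec]
  refine ⟨rfl, ?_, ?_⟩
  · push_cast
    omega
  · push_cast
    omega

theorem ub_mem (n : ℕ) (x : ZMod (4 * n + 1)) : -(2 * n : ℤ) ≤ x.valMinAbs ∧ x.valMinAbs ≤ 2 * n := by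
  have h := ZMod.valMinAbs_mem_Ioc x
  rw [Set.mem_Ioc] at h
  push_cast at h
  omega

/-- sums over `ZMod (4n+1)` -/
theorem ub_sum {A : Type*} [AddCommMonoid A] (n : ℕ) (G : ZMod (4 * n + 1) → A) :
    ∑ x : ZMod (4 * n + 1), G x = ∑ x ∈ Icc (-(2 * n : ℤ)) (2 * n), G (x : ZMod (4 * n + 1)) := by
  refine Finset.sum_bij' (fun x _ => x.valMinAbs) (fun (x : ℤ) _ => (x : ZMod (4 * n + 1))) (fun x _ => ?_)
    (fun _ _ => mem_univ _) (fun x _ => ZMod.coe_valMinAbs x) (fun x hx => ?_) (fun x _ => ?_)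
  · exact mem_Icc.2 (ub_mem n x)
  · exact ub_rep n x (mem_Icc.1 hx)
  · rw [ZMod.coe_valMinAbs]

/-- the kernel with the cutoff, near the range of the representatives -/
theorem ub_F (n H : ℕ) (hH : 4 * H ≤ 2 * n) (u v : ℤ) (hu : 1 ≤ u) (hv : v ≤ 2 * n) (g : ℤ → ℂ) (m : ℤ)
    (hm : -(2 * n : ℤ) ≤ m ∧ m ≤ 2 * n) (j : ℕ) (hj : j ≤ 4 * H) :
    (fun x : ZMod (4 * n + 1) => if u ≤ x.valMinAbs ∧ x.valMinAbs ≤ v then g x.valMinAbs else 0)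
      ((m + j : ℤ) : ZMod (4 * n + 1)) = if u ≤ m + j ∧ m + j ≤ v then g (m + j) else 0 := by
  by_cases h : m + j ≤ 2 * n
  · have h1 := ub_rep n (m + j) ⟨by omega, h⟩
    simp only [h1]
  · have h1 : ((m + j : ℤ) : ZMod (4 * n + 1)) = ((m + j - (4 * n + 1 : ℕ) : ℤ) : ZMod (4 * n + 1)) := by
      have h2 : (((4 * n + 1 : ℕ) : ℤ) : ZMod (4 * n + 1)) = 0 := by
        rw [Int.cast_natCast]
        exact ZMod.natCast_self _
      rw [Int.cast_sub (m + (j : ℤ)), h2, sub_zero]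
    have h3 := ub_rep n (m + j - (4 * n + 1 : ℕ)) ⟨by push_cast; omega, by push_cast; omega⟩
    simp only [h1, h3]
    rw [if_neg, if_neg]
    · omega
    · push_cast
      omega

/-- the left side as a sum over `ZMod (4n+1)` -/
theorem ub_lhs (n : ℕ) (u v : ℤ) (f g W B : ℤ → ℂ) :
    ∑ x ∈ Icc (-(n : ℤ)) n, ∑ y ∈ Icc (-(n : ℤ)) n, f x * g y *
      (if u ≤ x + y ∧ x + y ≤ min v (2 * n) then B (x + y) else 0) * W (x - y) =
    ∑ x : ZMod (4 * n + 1), ∑ y : ZMod (4 * n + 1),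
      (if x.valMinAbs ∈ Icc (-(n : ℤ)) n then f x.valMinAbs else 0) *
      (if y.valMinAbs ∈ Icc (-(n : ℤ)) n then g y.valMinAbs else 0) *
      (fun x : ZMod (4 * n + 1) => if u ≤ x.valMinAbs ∧ x.valMinAbs ≤ min v (2 * n) then B x.valMinAbs else 0)
        (x + y) * W ((x - y).valMinAbs) := by
  have hsub : Icc (-(n : ℤ)) n ⊆ Icc (-(2 * n : ℤ)) (2 * n) := by
    intro x hx
    rw [mem_Icc] at hx ⊢
    omega
  rw [ub_sum]
  have h0 : ∀ x ∈ Icc (-(2 * n : ℤ)) (2 * n), x ∉ Icc (-(n : ℤ)) n → ∑ y : ZMod (4 * n + 1),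
      (if (x : ZMod (4 * n + 1)).valMinAbs ∈ Icc (-(n : ℤ)) n then f (x : ZMod (4 * n + 1)).valMinAbs else 0) *
      (if y.valMinAbs ∈ Icc (-(n : ℤ)) n then g y.valMinAbs else 0) *
      (fun x : ZMod (4 * n + 1) => if u ≤ x.valMinAbs ∧ x.valMinAbs ≤ min v (2 * n) then B x.valMinAbs else 0)
        (x + y) * W (((x : ZMod (4 * n + 1)) - y).valMinAbs) = 0 := by
    intro x hx hx'
    refine Finset.sum_eq_zero fun y _ => ?_
    rw [ub_rep n x (mem_Icc.1 hx), if_neg hx', zero_mul, zero_mul, zero_mul]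
  rw [← Finset.sum_subset hsub h0]
  refine Finset.sum_congr rfl fun x hx => ?_
  rw [ub_sum]
  have h1 : ∀ y ∈ Icc (-(2 * n : ℤ)) (2 * n), y ∉ Icc (-(n : ℤ)) n →
      (if (x : ZMod (4 * n + 1)).valMinAbs ∈ Icc (-(n : ℤ)) n then f (x : ZMod (4 * n + 1)).valMinAbs else 0) *
      (if (y : ZMod (4 * n + 1)).valMinAbs ∈ Icc (-(n : ℤ)) n then g (y : ZMod (4 * n + 1)).valMinAbs else 0) *
      (fun x : ZMod (4 * n + 1) => if u ≤ x.valMinAbs ∧ x.valMinAbs ≤ min v (2 * n) then B x.valMinAbs else 0)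
        (x + y) * W (((x : ZMod (4 * n + 1)) - y).valMinAbs) = 0 := by
    intro y hy hy'
    rw [ub_rep n y (mem_Icc.1 hy), if_neg hy', mul_zero, zero_mul, zero_mul]
  rw [← Finset.sum_subset hsub h1]
  refine Finset.sum_congr rfl fun y hy => ?_
  have hx1 := mem_Icc.1 hx
  have hy1 := mem_Icc.1 hy
  rw [ub_rep n x ⟨by omega, by omega⟩, ub_rep n y ⟨by omega, by omega⟩, if_pos hx, if_pos hy,
    ← Int.cast_add, ← Int.cast_sub, ub_rep n (x - y) ⟨by omega, by omega⟩]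
  simp only [ub_rep n (x + y) ⟨by omega, by omega⟩]

/-- the right side of `UA_main` -/
theorem ub_rhs (n H : ℕ) (hH : 4 * H ≤ 2 * n) (u v : ℤ) (hu : 1 ≤ u) (hv : v ≤ 2 * n) (g : ℤ → ℂ)
    (F : ZMod (4 * n + 1) → ℂ)
    (hF : F = fun x : ZMod (4 * n + 1) => if u ≤ x.valMinAbs ∧ x.valMinAbs ≤ v then g x.valMinAbs else 0) :
    ∑ m : ZMod (4 * n + 1), ∑ h ∈ range H, ∑ h' ∈ range H, ∑ k ∈ range H,
        ∑ k' ∈ range H, ‖∑ t ∈ range H, F (m + 2 * (t : ZMod (4 * n + 1)) + h + k) *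
          star (F (m + 2 * (t : ZMod (4 * n + 1)) + h' + k)) * star (F (m + 2 * (t : ZMod (4 * n + 1)) + h + k')) *
          F (m + 2 * (t : ZMod (4 * n + 1)) + h' + k')‖ ^ 2 =
    ∑ m ∈ Icc (-(2 * n : ℤ)) (2 * n), ∑ h ∈ range H, ∑ h' ∈ range H, ∑ k ∈ range H, ∑ k' ∈ range H,
      ‖∑ t ∈ range H, P4 (fun m => if u ≤ m ∧ m ≤ v then g m else 0) h h' k k' (m + 2 * t)‖ ^ 2 := by
  rw [ub_sum]
  refine Finset.sum_congr rfl fun m hm => Finset.sum_congr rfl fun h hh => Finset.sum_congr rfl fun h' hh' =>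
    Finset.sum_congr rfl fun k hk => Finset.sum_congr rfl fun k' hk' => ?_
  rw [mem_range] at hh hh' hk hk'
  have key : ∀ t ∈ range H, ∀ a b : ℕ, a < H → b < H →
      F ((m : ZMod (4 * n + 1)) + 2 * (t : ZMod (4 * n + 1)) + a + b) =
        (fun m => if u ≤ m ∧ m ≤ v then g m else 0) (m + 2 * t + a + b) := by
    intro t ht a b ha hb
    rw [mem_range] at ht
    have e1 : (m : ZMod (4 * n + 1)) + 2 * (t : ZMod (4 * n + 1)) + a + b =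
        ((m + ((2 * t + a + b : ℕ) : ℤ) : ℤ) : ZMod (4 * n + 1)) := by
      push_cast
      ring
    have e2 := ub_F n H hH u v hu hv g m (mem_Icc.1 hm) (2 * t + a + b) (by omega)
    rw [e1, hF, e2]
    have e3 : m + ((2 * t + a + b : ℕ) : ℤ) = m + 2 * t + a + b := by
      push_cast
      ring
    rw [e3]
  congr 2
  refine Finset.sum_congr rfl fun t ht => ?_
  unfold P4
  rw [key t ht h k hh hk, key t ht h' k hh' hk, key t ht h k' hh hk', key t ht h' k' hh' hk']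
  rfl

/-- **One character.** Proof. `M = 4 n + 1`; represent the elements of `ZMod M` by the integers in `[-2n, 2n]` (`ZMod.valMinAbs`).
`f, g` cut off to `[-n, n]`, `F` to `[X, min(4X, 2n)]`: the sum is that of `UA_main` (`|x|, |y| ≤ n` imply `|x ± y| ≤ 2n`, so no wrap
around). In `UA_main` the arguments are `m + j`, `0 ≤ j ≤ 4H`, `m ∈ [-2n, 2n]`; if `m + j > 2n` it is represented by a negative
integer, where `F = 0`, in agreement with the cutoff at `2n` (`4H ≤ 2n`). So `UB_cubes` with `u = X`, `v = min(4X, 2n)`,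
`δ = Q^6/X`, `S = [-2n, 2n]` (if `v < u` everything is `0`): `|T|^8 ≤ (5n)^15 (4n (C Q'^(-1/144) + 512 Q^108/X²) + 10 Q^56)`;
`X ≥ Q^100` and `Q' ≤ Q`: at most `C' n^16 Q'^(-1/144)`. -/
theorem UB_one : ∃ C : ℝ, 0 < C ∧ ∀ Q Q' X n : ℕ, 1 ≤ Q' → Q' ≤ Q → Q ^ 100 ≤ X → X ≤ n →
    ∀ p ∈ PC Q, ∀ β : ℤ → ℂ, (∀ m : ℤ, (X : ℤ) ≤ m → m ≤ 4 * X → ‖β m‖ ≤ 1) →
    (∀ m : ℤ, (X : ℤ) ≤ m → m + 1 ≤ 4 * X → ‖β (m + 1) - β m‖ ≤ (Q : ℝ) ^ 6 / X) →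
    ∀ f g W : ℤ → ℂ, (∀ x, ‖f x‖ ≤ 1) → (∀ x, ‖g x‖ ≤ 1) → (∀ x, ‖W x‖ ≤ 1) →
    ‖∑ x ∈ Icc (-(n : ℤ)) n, ∑ y ∈ Icc (-(n : ℤ)) n, f x * g y *
      (if (X : ℤ) ≤ x + y ∧ x + y ≤ 4 * X then β (x + y) * Vl Q Q' p (x + y) else 0) * W (x - y)‖ ≤
      C * (n : ℝ) ^ 2 * (Q' : ℝ) ^ (-(1 / 1152 : ℝ)) := by
  obtain ⟨C, hC, hU⟩ := UB_cubes
  refine ⟨5 ^ 15 * (2 * C + 1034) + 9, by positivity, ?_⟩
  intro Q Q' X n hQ' hQQ hX hn p hp β hβ hβ' f g W hf hg hW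
  have hQ1 : 1 ≤ Q := hQ'.trans hQQ
  have hX1 : 1 ≤ X := (Nat.one_le_pow _ _ hQ1).trans hX
  have hn1 : 1 ≤ n := hX1.trans hn
  have hnR : (1 : ℝ) ≤ n := by exact_mod_cast hn1
  have hQR : (1 : ℝ) ≤ Q := by exact_mod_cast hQ1
  have hQ'R : (1 : ℝ) ≤ Q' := by exact_mod_cast hQ'
  have hQQR : (Q' : ℝ) ≤ Q := by exact_mod_cast hQQ
  have hXR : (Q : ℝ) ^ 100 ≤ X := by exact_mod_cast hX
  have hXnR : (X : ℝ) ≤ n := by exact_mod_cast hn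
  have hXR1 : (1 : ℝ) ≤ X := by exact_mod_cast hX1
  by_cases hQ2 : Q = 1
  · -- the trivial case
    have hQ'1 : Q' = 1 := by omega
    have e1 : (Q' : ℝ) ^ (-(1 / 1152 : ℝ)) = 1 := by
      rw [hQ'1, Nat.cast_one, Real.one_rpow]
    rw [e1, mul_one]
    have h1 : ‖∑ x ∈ Icc (-(n : ℤ)) n, ∑ y ∈ Icc (-(n : ℤ)) n, f x * g y *
      (if (X : ℤ) ≤ x + y ∧ x + y ≤ 4 * X then β (x + y) * Vl Q Q' p (x + y) else 0) * W (x - y)‖ ≤
        ∑ x ∈ Icc (-(n : ℤ)) n, ∑ y ∈ Icc (-(n : ℤ)) n, (1 : ℝ) := by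
      refine (norm_sum_le _ _).trans (Finset.sum_le_sum fun x _ => ?_)
      refine (norm_sum_le _ _).trans (Finset.sum_le_sum fun y _ => ?_)
      have h2 : ‖(if (X : ℤ) ≤ x + y ∧ x + y ≤ 4 * X then β (x + y) * Vl Q Q' p (x + y) else 0)‖ ≤ 1 := by
        split_ifs with h3
        · rw [norm_mul]
          have h4 := UF_sup Q Q' p hp (x + y)
          rw [hQ2, Nat.cast_one, one_pow] at h4
          rw [hQ2]
          exact mul_le_one₀ (hβ _ h3.1 h3.2) (norm_nonneg _) h4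
        · simp
      rw [norm_mul, norm_mul, norm_mul]
      exact mul_le_one₀ (mul_le_one₀ (mul_le_one₀ (hf _) (norm_nonneg _) (hg _)) (norm_nonneg _) h2)
        (norm_nonneg _) (hW _)
    refine h1.trans ?_
    rw [Finset.sum_const, Finset.sum_const, Int.card_Icc, smul_smul, nsmul_eq_mul, mul_one]
    have h5 : ((n : ℤ) + 1 - -(n : ℤ)).toNat = 2 * n + 1 := by omega
    rw [h5]
    push_cast
    have h6 : 0 ≤ 5 ^ 15 * (2 * C + 1034) * (n : ℝ) ^ 2 := by positivity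
    nlinarith
  -- the main case
  have hQ22 : 2 ≤ Q := by omega
  set H : ℕ := Q ^ 40 with hH
  have hHpos : 0 < H := by
    rw [hH]
    positivity
  have hHn : 4 * H ≤ 2 * n := by
    have h1 : Q ^ 42 ≤ Q ^ 100 := Nat.pow_le_pow_right hQ1 (by norm_num)
    have h2 : 4 * H ≤ Q ^ 42 := by
      rw [hH, pow_add Q 2 40]
      exact Nat.mul_le_mul_right _ (by nlinarith)
    omega
  set v : ℤ := min (4 * (X : ℤ)) (2 * n) with hv
  have hv1 : v ≤ 2 * n := min_le_right _ _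
  have hv2 : v ≤ 4 * X := min_le_left _ _
  have huv : (X : ℤ) ≤ v := by
    rw [hv]
    refine le_min (by omega) (by omega)
  set B : ℤ → ℂ := fun m => β m * Vl Q Q' p m with hB
  set F : ZMod (4 * n + 1) → ℂ := fun x : ZMod (4 * n + 1) =>
    if (X : ℤ) ≤ x.valMinAbs ∧ x.valMinAbs ≤ v then B x.valMinAbs else 0 with hF
  have hne : NeZero (4 * n + 1) := ⟨by omega⟩
  set T : ℂ := ∑ x ∈ Icc (-(n : ℤ)) n, ∑ y ∈ Icc (-(n : ℤ)) n, f x * g y *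
      (if (X : ℤ) ≤ x + y ∧ x + y ≤ 4 * X then β (x + y) * Vl Q Q' p (x + y) else 0) * W (x - y) with hT
  have hT1 : T = ∑ x : ZMod (4 * n + 1), ∑ y : ZMod (4 * n + 1),
      (if x.valMinAbs ∈ Icc (-(n : ℤ)) n then f x.valMinAbs else 0) *
      (if y.valMinAbs ∈ Icc (-(n : ℤ)) n then g y.valMinAbs else 0) * F (x + y) * W ((x - y).valMinAbs) := by
    rw [hF, ← ub_lhs n X (4 * X) f g W B, hT]
    refine Finset.sum_congr rfl fun x hx => Finset.sum_congr rfl fun y hy => ?_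
    have hx1 := mem_Icc.1 hx
    have hy1 := mem_Icc.1 hy
    have h1 : ((X : ℤ) ≤ x + y ∧ x + y ≤ 4 * X) ↔ ((X : ℤ) ≤ x + y ∧ x + y ≤ min (4 * (X : ℤ)) (2 * n)) := by
      rw [le_min_iff]
      constructor
      · rintro ⟨h1, h2⟩
        exact ⟨h1, h2, by omega⟩
      · rintro ⟨h1, h2, h3⟩
        exact ⟨h1, h2⟩
    simp only [h1, hB]
  have hmain := UA_main (4 * n + 1) H hHpos
    (fun x => if x.valMinAbs ∈ Icc (-(n : ℤ)) n then f x.valMinAbs else 0)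
    (fun y => if y.valMinAbs ∈ Icc (-(n : ℤ)) n then g y.valMinAbs else 0) F (fun d => W d.valMinAbs)
    (fun x => by
      split_ifs
      · exact hf _
      · simp)
    (fun x => by
      split_ifs
      · exact hg _
      · simp) (fun x => hW _)
  rw [← hT1, ub_rhs n H hHn X v (by exact_mod_cast hX1) hv1 B F hF] at hmain
  have hcub := hU Q Q' hQ' hQ1 p hp β X v ((Q : ℝ) ^ 6 / X) huv (by positivity)
    (fun m h1 h2 => hβ m h1 (h2.trans hv2)) (fun m h1 h2 => hβ' m h1 (h2.trans hv2))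
    (Icc (-(2 * n : ℤ)) (2 * n))
  rw [← hH] at hcub
  have hQ0 : (0 : ℝ) < Q := by linarith
  have hH6 : ((H : ℕ) : ℝ) ^ 6 = (Q : ℝ) ^ 240 := by
    rw [hH]
    push_cast
    rw [← pow_mul]
  set y : ℝ := (Q' : ℝ) ^ (-(1 / 144 : ℝ)) with hy
  have hy0 : 0 < y := Real.rpow_pos_of_pos (by linarith) _
  have hQy : 1 / (Q : ℝ) ≤ y := by
    have h1 : 1 / (Q : ℝ) ≤ 1 / (Q' : ℝ) := one_div_le_one_div_of_le (by linarith) hQQR
    refine h1.trans ?_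
    rw [hy, one_div, ← Real.rpow_neg_one]
    exact Real.rpow_le_rpow_of_exponent_le hQ'R (by norm_num)
  have hvR : (v : ℝ) - X + 1 ≤ 2 * n := by
    have h1 : (v : ℝ) ≤ 2 * n := by exact_mod_cast hv1
    linarith
  have hb1 : 512 * ((Q : ℝ) ^ 6 / X) ^ 2 * (Q : ℝ) ^ 96 ≤ 512 * y := by
    have h1 : ((Q : ℝ) ^ 6 / X) ^ 2 * (Q : ℝ) ^ 96 ≤ 1 / Q := by
      have h2 : ((Q : ℝ) ^ 6 / X) ^ 2 * (Q : ℝ) ^ 96 = (Q : ℝ) ^ 108 / (X : ℝ) ^ 2 := by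
        rw [div_pow]
        ring
      rw [h2, div_le_div_iff₀ (by positivity) hQ0]
      calc (Q : ℝ) ^ 108 * Q = (Q : ℝ) ^ 109 := by ring
        _ ≤ (Q : ℝ) ^ 200 := pow_le_pow_right₀ hQR (by norm_num)
        _ = ((Q : ℝ) ^ 100) ^ 2 := by ring
        _ ≤ (X : ℝ) ^ 2 := pow_le_pow_left₀ (by positivity) hXR 2
        _ = 1 * (X : ℝ) ^ 2 := by ring
    linarith [h1.trans hQy]
  have hb2 : 10 * (Q : ℝ) ^ 56 ≤ 10 * (n * y) := by
    have h1 : (Q : ℝ) ^ 56 ≤ n * (1 / Q) := by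
      rw [mul_one_div, le_div_iff₀ hQ0]
      calc (Q : ℝ) ^ 56 * Q = (Q : ℝ) ^ 57 := by ring
        _ ≤ (Q : ℝ) ^ 100 := pow_le_pow_right₀ hQR (by norm_num)
        _ ≤ n := hXR.trans hXnR
    have h2 : n * (1 / (Q : ℝ)) ≤ n * y := mul_le_mul_of_nonneg_left hQy (by linarith)
    linarith
  have hS : ‖T‖ ^ 8 ≤ 5 ^ 15 * (2 * C + 1034) * (n : ℝ) ^ 16 * y := by
    refine hmain.trans ?_
    have h1 : ((4 * n + 1 : ℕ) : ℝ) ^ 15 ≤ 5 ^ 15 * (n : ℝ) ^ 15 := by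
      rw [← mul_pow]
      refine pow_le_pow_left₀ (by positivity) ?_ 15
      push_cast
      linarith
    have h2 : (((v : ℝ) - X + 1) * (C * y + 512 * ((Q : ℝ) ^ 6 / X) ^ 2 * (Q : ℝ) ^ 96) + 10 * (Q : ℝ) ^ 56) ≤
        (2 * C + 1034) * (n * y) := by
      have h3 : C * y + 512 * ((Q : ℝ) ^ 6 / X) ^ 2 * (Q : ℝ) ^ 96 ≤ C * y + 512 * y := by linarith
      have h4 : 0 ≤ C * y + 512 * ((Q : ℝ) ^ 6 / X) ^ 2 * (Q : ℝ) ^ 96 := by positivity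
      calc _ ≤ 2 * n * (C * y + 512 * y) + 10 * (n * y) := by
            refine add_le_add ?_ hb2
            exact (mul_le_mul_of_nonneg_right hvR h4).trans (mul_le_mul_of_nonneg_left h3 (by linarith))
        _ = (2 * C + 1034) * (n * y) := by ring
    have h5 : ((4 * n + 1 : ℕ) : ℝ) ^ 15 / ((H : ℕ) : ℝ) ^ 6 * ((Q : ℝ) ^ 240 *
        (((v : ℝ) - X + 1) * (C * y + 512 * ((Q : ℝ) ^ 6 / X) ^ 2 * (Q : ℝ) ^ 96) + 10 * (Q : ℝ) ^ 56)) =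
        ((4 * n + 1 : ℕ) : ℝ) ^ 15 *
        (((v : ℝ) - X + 1) * (C * y + 512 * ((Q : ℝ) ^ 6 / X) ^ 2 * (Q : ℝ) ^ 96) + 10 * (Q : ℝ) ^ 56) := by
      rw [hH6]
      have h6 : (Q : ℝ) ^ 240 ≠ 0 := by positivity
      field_simp
    calc _ ≤ ((4 * n + 1 : ℕ) : ℝ) ^ 15 / ((H : ℕ) : ℝ) ^ 6 * ((Q : ℝ) ^ 240 *
        (((v : ℝ) - X + 1) * (C * y + 512 * ((Q : ℝ) ^ 6 / X) ^ 2 * (Q : ℝ) ^ 96) + 10 * (Q : ℝ) ^ 56)) :=
          mul_le_mul_of_nonneg_left hcub (by positivity)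
      _ = _ := h5
      _ ≤ (5 ^ 15 * (n : ℝ) ^ 15) * ((2 * C + 1034) * (n * y)) :=
        (mul_le_mul_of_nonneg_left h2 (by positivity)).trans (mul_le_mul_of_nonneg_right h1 (by positivity))
      _ = 5 ^ 15 * (2 * C + 1034) * (n : ℝ) ^ 16 * y := by ring
  have hy8 : ((Q' : ℝ) ^ (-(1 / 1152 : ℝ))) ^ 8 = y := by
    rw [hy, ← Real.rpow_natCast, ← Real.rpow_mul (by linarith)]
    norm_num
  refine (pow_le_pow_iff_left₀ (norm_nonneg _) (by positivity) (by norm_num : (8 : ℕ) ≠ 0)).1 (hS.trans ?_)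
  rw [mul_pow, mul_pow, hy8]
  have h7 : 5 ^ 15 * (2 * C + 1034) ≤ (5 ^ 15 * (2 * C + 1034) + 9) ^ 8 := by
    have h8 : 0 ≤ 5 ^ 15 * (2 * C + 1034) := by positivity
    calc 5 ^ 15 * (2 * C + 1034) ≤ 5 ^ 15 * (2 * C + 1034) + 9 := by linarith
      _ ≤ (5 ^ 15 * (2 * C + 1034) + 9) ^ 8 := le_self_pow₀ (by linarith) (by norm_num)
  have h9 : ((n : ℝ) ^ 2) ^ 8 = (n : ℝ) ^ 16 := by ring
  rw [h9]
  exact mul_le_mul_of_nonneg_right (mul_le_mul_of_nonneg_right h7 (by positivity)) hy0.le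

end Pool.Agent.Lib.H59T
end

-- from Lib.H59T.UM
section

/-!
# Project H59T, chunk UM (S/M): the total mass of the coefficients
-/

open Finset

namespace Pool.Agent.Lib.H59T

open Pool.Agent.Lib.H68T Pool.Agent.Lib.H18Q Pool.Agent.Lib.H59P

/-- **The total mass.** Proof. `UM_exc` gives `c1`. If `Good c1 Q`: `UM_good` with `c = c1`. Otherwise (definition of `Good`) there is an
exceptional zero `σ ≤ 1`, `1 - c1/log Q ≤ σ`; `σ < 1` by `DirichletCharacter.LFunction_apply_one_ne_zero` (`ψ ≠ 1`). -/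
theorem UM_mass : ∃ K C : ℝ, 1 ≤ K ∧ 1 ≤ C ∧ ∀ Q X : ℕ, RegP K Q X →
    ∃ mb : Ch → ℝ, (∀ p ∈ PC Q, 0 ≤ mb p) ∧ ∑ p ∈ PC Q, mb p ≤ C ∧
      ∀ m : ℤ, (X : ℤ) ≤ m → m ≤ 4 * X → ∀ p ∈ PC Q, ‖Bc Q X p m‖ ≤ mb p := by
  obtain ⟨c1, K1, C1, hc1, hc11, hK1, hC1, h1⟩ := UM_exc
  obtain ⟨K2, C2, hK2, hC2, h2⟩ := UM_good c1 hc1
  refine ⟨max (max K1 K2) 1, max C1 C2, le_max_right _ _, hC1.trans (le_max_left _ _),
    fun Q X hreg => ?_⟩
  have hK0 : 0 ≤ max (max K1 K2) 1 := zero_le_one.trans (le_max_right _ _)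
  have hQ := hreg.logQ_ge (le_max_right _ _)
  by_cases hg : Good c1 Q
  · obtain ⟨mb, a1, a2, a3⟩ := h2 Q X (hreg.mono hK0 ((le_max_right _ _).trans (le_max_left _ _))) hg
    exact ⟨mb, a1, a2.trans (le_max_right _ _), a3⟩
  · unfold Good at hg
    push Not at hg
    obtain ⟨r, _, ψ, hr, hp, hne, hsq, σ, hσ, hσ1, hL⟩ := hg
    have hlt : σ < 1 := by
      refine lt_of_le_of_ne hσ1 fun h => ?_
      rw [h, Complex.ofReal_one] at hL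
      exact DirichletCharacter.LFunction_apply_one_ne_zero hne hL
    have hlQ : 0 < Real.log Q := by
      have : (0 : ℝ) < max (max K1 K2) 1 := lt_of_lt_of_le one_pos (le_max_right _ _)
      linarith
    have hsm : (1 - σ) * Real.log Q ≤ c1 := by
      have h3 : 1 - σ ≤ c1 / Real.log Q := by linarith
      calc (1 - σ) * Real.log Q ≤ c1 / Real.log Q * Real.log Q :=
            mul_le_mul_of_nonneg_right h3 hlQ.le
        _ = c1 := div_mul_cancel₀ _ hlQ.ne'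
    obtain ⟨mb, a1, a2, a3⟩ := h1 Q X (hreg.mono hK0 ((le_max_left _ _).trans (le_max_left _ _)))
      r ψ hr hp hne hsq σ hlt hL hsm
    exact ⟨mb, a1, a2.trans (le_max_left _ _), a3⟩

end Pool.Agent.Lib.H59T
end

-- from Lib.H59T.UL
section

/-!
# Project H59T, chunk UL (M): the difference of the projections at two levels
-/

open Finset

namespace Pool.Agent.Lib.H59T

open Pool.Agent.Lib.H68T Pool.Agent.Lib.H18Q Pool.Agent.Lib.H59P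

/-- Proof. `DA_expand` (`H68T/DA.lean`) for `Q` and for `Q'`, both with `Y = X/Q²` (see `Lk_SG` in `H18Q/CL1.lean` for the regime); the
coefficients are `Bc Q X p m` in both cases. `PC Q' ⊆ PC Q`. `gam_expand` (`H18Q/CA.lean`): `Gam Q p.1 m conj χ(m) = ∑_{KS Q p.1} gk`, and for
`Q'` the sum over `KS Q' p.1 = {κ ∈ KS Q p.1 : p.1 κ ≤ Q'}` (`κ ≤ Q'/r` iff `r κ ≤ Q'`), empty if `p.1 > Q'`. -/
theorem UL_expand : ∃ K : ℝ, 1 ≤ K ∧ ∀ Q Q' X : ℕ, RegP K Q X → 1 ≤ Q' → Q' ≤ Q → ∀ m : ℤ,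
    (X : ℤ) ≤ m → m ≤ 4 * X →
    ((Lk Q (X / Q ^ 2) m - Lk Q' (X / Q ^ 2) m : ℝ) : ℂ) = ∑ p ∈ PC Q, Bc Q X p m * Vl Q Q' p m := by
  obtain ⟨K1, hK1, h1⟩ := BPS_regimeP
  obtain ⟨K2, hK2, h2⟩ := regp_pow_le 2 1 1 one_pos
  refine ⟨max K1 K2, hK1.trans (le_max_left _ _), fun Q Q' X hreg hQ'1 hQ'Q m hm hm4 => ?_⟩
  have hK0 : 0 ≤ max K1 K2 := by linarith [le_max_left K1 K2]
  obtain ⟨hQ, hX, hY, hYX, hXY, -⟩ := h1 Q X (hreg.mono hK0 (le_max_left _ _))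
  have hlog := h2 Q X (hreg.mono hK0 (le_max_right _ _))
  rw [Real.rpow_one, Real.rpow_one] at hlog
  have h3 : 2 * Q ≤ X := by exact_mod_cast hlog
  have hA : (Lk Q (X / Q ^ 2) m : ℂ) = ∑ p ∈ PC Q, (∑ k ∈ KS Q p.1, gk p k m) * Bc Q X p m := by
    rw [DA_expand Q X (X / Q ^ 2) m hm hm4 (by omega) (by omega)]
    refine Finset.sum_congr rfl fun p hp => ?_
    rw [gam_expand Q p hp m]
    rfl
  have hB : (Lk Q' (X / Q ^ 2) m : ℂ) = ∑ p ∈ PC Q, (∑ k ∈ KS Q' p.1, gk p k m) * Bc Q X p m := by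
    rw [DA_expand Q' X (X / Q ^ 2) m hm hm4 (by omega) (by omega)]
    have hsub : PC Q' ⊆ PC Q := by
      intro p hp
      obtain ⟨a, b, c⟩ := mem_PC.1 hp
      exact mem_PC.2 ⟨a, b.trans hQ'Q, c⟩
    rw [← Finset.sum_subset hsub (f := fun p => (∑ k ∈ KS Q' p.1, gk p k m) * Bc Q X p m)]
    · refine Finset.sum_congr rfl fun p hp => ?_
      rw [gam_expand Q' p hp m]
      rfl
    · intro p hp hp'
      have h4 : KS Q' p.1 = ∅ := by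
        rw [Finset.eq_empty_iff_forall_notMem]
        intro k hk
        have h5 := (CA_mem_KS.1 hk).1
        obtain ⟨a, b, c⟩ := mem_PC.1 hp
        have h6 : ¬ p.1 ≤ Q' := fun h => hp' (mem_PC.2 ⟨a, h, c⟩)
        have h7 : Q' / p.1 = 0 := Nat.div_eq_of_lt (by omega)
        omega
      rw [h4, Finset.sum_empty, zero_mul]
  push_cast
  rw [hA, hB, ← Finset.sum_sub_distrib]
  refine Finset.sum_congr rfl fun p hp => ?_
  obtain ⟨a, b, c⟩ := mem_PC.1 hp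
  have h8 : ∑ k ∈ KS Q p.1, gk p k m = Vl Q Q' p m + ∑ k ∈ KS Q' p.1, gk p k m := by
    rw [← Finset.sum_filter_add_sum_filter_not (KS Q p.1) (fun κ => Q' < p.1 * κ)]
    unfold Vl
    congr 1
    refine Finset.sum_congr ?_ fun _ _ => rfl
    ext k
    rw [Finset.mem_filter, CA_mem_KS, CA_mem_KS]
    constructor
    · rintro ⟨⟨h9, h10⟩, h11⟩
      refine ⟨⟨h9.1, ?_⟩, h10⟩
      rw [Nat.le_div_iff_mul_le (by omega)]
      rw [mul_comm]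
      omega
    · rintro ⟨⟨h9, h9'⟩, h10⟩
      have h11 : k * p.1 ≤ Q' := (Nat.le_div_iff_mul_le (by omega)).1 h9'
      refine ⟨⟨⟨h9, ?_⟩, h10⟩, ?_⟩
      · rw [Nat.le_div_iff_mul_le (by omega)]
        omega
      · rw [mul_comm p.1 k]
        omega
  rw [h8]
  ring

/-- **Module LK.** Proof. `UL_expand`; `UM_mass`: `‖Bc Q X p m‖ ≤ mb p`, put `w_p = mb p + Q^(-3)`, `β_p(m) = Bc Q X p m/w_p`: at most `1`,
and `Bc_lip` (`H18Q/CL1.lean`) gives `‖β_p(m+1) - β_p(m)‖ ≤ Q³/(2X) · Q³`. `UB_one` for each `p`, times `w_p`;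
`∑_p w_p ≤ C + Q² Q^(-3)` (`card_PC_le`). `Q^100 ≤ X` from `RegP K` with `K ≥ 100`. -/
theorem LK_diff : ∃ K C : ℝ, 1 ≤ K ∧ 0 < C ∧ ∀ Q Q' X n : ℕ, RegP K Q X → 1 ≤ Q' → Q' ≤ Q → X ≤ n →
    ∀ f g W : ℤ → ℂ, (∀ x, ‖f x‖ ≤ 1) → (∀ x, ‖g x‖ ≤ 1) → (∀ x, ‖W x‖ ≤ 1) →
    ‖∑ x ∈ Icc (-(n : ℤ)) n, ∑ y ∈ Icc (-(n : ℤ)) n, f x * g y *
      (if (X : ℤ) ≤ x + y ∧ x + y ≤ 4 * X then
        ((Lk Q (X / Q ^ 2) (x + y) - Lk Q' (X / Q ^ 2) (x + y) : ℝ) : ℂ) else 0) * W (x - y)‖ ≤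
      C * (n : ℝ) ^ 2 * (Q' : ℝ) ^ (-(1 / 1152 : ℝ)) := by
  obtain ⟨K1, hK1, h1⟩ := UL_expand
  obtain ⟨K2, C2, hK2, hC2, h2⟩ := UM_mass
  obtain ⟨K3, hK3, h3⟩ := Bc_lip
  obtain ⟨K4, hK4, h4⟩ := regp_pow_le 1 100 1 one_pos
  obtain ⟨C5, hC5, h5⟩ := UB_one
  refine ⟨max (max K1 K2) (max K3 K4), C5 * (C2 + 1), hK1.trans ((le_max_left _ _).trans (le_max_left _ _)), by positivity, ?_⟩
  intro Q Q' X n hreg hQ'1 hQ'Q hXn f g W hf hg hW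
  have hK0 : 0 ≤ max (max K1 K2) (max K3 K4) := by
    have := (le_max_left K1 K2).trans (le_max_left (max K1 K2) (max K3 K4))
    linarith
  have r1 := hreg.mono hK0 ((le_max_left K1 K2).trans (le_max_left _ _))
  have r2 := hreg.mono hK0 ((le_max_right K1 K2).trans (le_max_left _ _))
  have r3 := hreg.mono hK0 ((le_max_left K3 K4).trans (le_max_right _ _))
  have r4 := hreg.mono hK0 ((le_max_right K3 K4).trans (le_max_right _ _))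
  have hQ1 : 1 ≤ Q := hQ'1.trans hQ'Q
  have hQR : (1 : ℝ) ≤ Q := by exact_mod_cast hQ1
  have hQ0 : (0 : ℝ) < Q := by linarith
  have hX0 : 0 < X := r1.X_pos (by linarith)
  have hX0' : (0 : ℝ) < X := by exact_mod_cast hX0
  have hQ100 : Q ^ 100 ≤ X := by
    have h6 := h4 Q X r4
    rw [one_mul, Real.rpow_one] at h6
    have h7 : (Q : ℝ) ^ (100 : ℝ) = (Q : ℝ) ^ (100 : ℕ) := by
      rw [← Real.rpow_natCast]
      norm_num
    rw [h7] at h6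
    exact_mod_cast h6
  obtain ⟨mb, hmb0, hmbs, hmb⟩ := h2 Q X r2
  have hwp : ∀ p ∈ PC Q, 0 < mb p + ((Q : ℝ) ^ 3)⁻¹ := fun p hp => by
    have := hmb0 p hp
    positivity
  have hsum : ∑ p ∈ PC Q, (mb p + ((Q : ℝ) ^ 3)⁻¹) ≤ C2 + 1 := by
    rw [Finset.sum_add_distrib, Finset.sum_const, nsmul_eq_mul]
    have h8 : ((PC Q).card : ℝ) * ((Q : ℝ) ^ 3)⁻¹ ≤ 1 := by
      rw [← div_eq_mul_inv, div_le_one (by positivity)]
      have h9 : ((PC Q).card : ℝ) ≤ (Q : ℝ) ^ 2 := by exact_mod_cast card_PC_le Q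
      refine h9.trans ?_
      exact pow_le_pow_right₀ hQR (by norm_num)
    linarith
  have hexp : ∀ x y : ℤ, f x * g y * (if (X : ℤ) ≤ x + y ∧ x + y ≤ 4 * X then
        ((Lk Q (X / Q ^ 2) (x + y) - Lk Q' (X / Q ^ 2) (x + y) : ℝ) : ℂ) else 0) * W (x - y) =
      ∑ p ∈ PC Q, ((mb p + ((Q : ℝ) ^ 3)⁻¹ : ℝ) : ℂ) * (f x * g y * (if (X : ℤ) ≤ x + y ∧ x + y ≤ 4 * X then
        (Bc Q X p (x + y) / ((mb p + ((Q : ℝ) ^ 3)⁻¹ : ℝ) : ℂ)) * Vl Q Q' p (x + y) else 0) * W (x - y)) := by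
    intro x y
    by_cases hxy : (X : ℤ) ≤ x + y ∧ x + y ≤ 4 * X
    · rw [if_pos hxy, h1 Q Q' X r1 hQ'1 hQ'Q (x + y) hxy.1 hxy.2, Finset.mul_sum, Finset.sum_mul]
      refine Finset.sum_congr rfl fun p hp => ?_
      rw [if_pos hxy]
      have h10 : ((mb p + ((Q : ℝ) ^ 3)⁻¹ : ℝ) : ℂ) ≠ 0 := by exact_mod_cast (hwp p hp).ne'
      generalize ((mb p + ((Q : ℝ) ^ 3)⁻¹ : ℝ) : ℂ) = c at h10 ⊢
      have h11 : Bc Q X p (x + y) = c * (Bc Q X p (x + y) / c) := by rw [mul_div_cancel₀ _ h10]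
      rw [h11]
      rw [mul_div_cancel_left₀ _ h10]
      ring
    · rw [if_neg hxy, mul_zero, zero_mul]
      symm
      refine Finset.sum_eq_zero fun p hp => ?_
      rw [if_neg hxy, mul_zero, zero_mul, mul_zero]
  have heq : (∑ x ∈ Icc (-(n : ℤ)) n, ∑ y ∈ Icc (-(n : ℤ)) n, f x * g y *
      (if (X : ℤ) ≤ x + y ∧ x + y ≤ 4 * X then
        ((Lk Q (X / Q ^ 2) (x + y) - Lk Q' (X / Q ^ 2) (x + y) : ℝ) : ℂ) else 0) * W (x - y)) =
      ∑ p ∈ PC Q, ((mb p + ((Q : ℝ) ^ 3)⁻¹ : ℝ) : ℂ) * ∑ x ∈ Icc (-(n : ℤ)) n, ∑ y ∈ Icc (-(n : ℤ)) n,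
        f x * g y * (if (X : ℤ) ≤ x + y ∧ x + y ≤ 4 * X then
        (Bc Q X p (x + y) / ((mb p + ((Q : ℝ) ^ 3)⁻¹ : ℝ) : ℂ)) * Vl Q Q' p (x + y) else 0) * W (x - y) := by
    rw [Finset.sum_congr rfl fun x _ => Finset.sum_congr rfl fun y _ => hexp x y]
    rw [Finset.sum_congr rfl fun x _ => Finset.sum_comm, Finset.sum_comm]
    refine Finset.sum_congr rfl fun p _ => ?_
    rw [Finset.mul_sum]
    refine Finset.sum_congr rfl fun x _ => ?_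
    rw [Finset.mul_sum]
  rw [heq]
  have hQ'0 : (0 : ℝ) ≤ (n : ℝ) ^ 2 * (Q' : ℝ) ^ (-(1 / 1152 : ℝ)) :=
    mul_nonneg (by positivity) (Real.rpow_nonneg (Nat.cast_nonneg _) _)
  have hone : ∀ p ∈ PC Q, ‖((mb p + ((Q : ℝ) ^ 3)⁻¹ : ℝ) : ℂ) * ∑ x ∈ Icc (-(n : ℤ)) n, ∑ y ∈ Icc (-(n : ℤ)) n,
        f x * g y * (if (X : ℤ) ≤ x + y ∧ x + y ≤ 4 * X then
        (Bc Q X p (x + y) / ((mb p + ((Q : ℝ) ^ 3)⁻¹ : ℝ) : ℂ)) * Vl Q Q' p (x + y) else 0) * W (x - y)‖ ≤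
      (mb p + ((Q : ℝ) ^ 3)⁻¹) * (C5 * (n : ℝ) ^ 2 * (Q' : ℝ) ^ (-(1 / 1152 : ℝ))) := by
    intro p hp
    have hw := hwp p hp
    rw [norm_mul, Complex.norm_real, Real.norm_eq_abs, abs_of_pos hw]
    refine mul_le_mul_of_nonneg_left ?_ hw.le
    refine h5 Q Q' X n hQ'1 hQ'Q hQ100 hXn p hp (fun m => Bc Q X p m / ((mb p + ((Q : ℝ) ^ 3)⁻¹ : ℝ) : ℂ)) ?_ ?_
      f g W hf hg hW
    · intro m hm hm4
      rw [norm_div, Complex.norm_real, Real.norm_eq_abs, abs_of_pos hw, div_le_one hw]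
      have h11 := hmb m hm hm4 p hp
      have h12 : 0 ≤ ((Q : ℝ) ^ 3)⁻¹ := by positivity
      linarith
    · intro m hm hm4
      rw [← sub_div, norm_div, Complex.norm_real, Real.norm_eq_abs, abs_of_pos hw]
      have h13 := h3 Q X r3 p m hm (by omega)
      have h14 : ((Q : ℝ) ^ 3)⁻¹ ≤ mb p + ((Q : ℝ) ^ 3)⁻¹ := by linarith [hmb0 p hp]
      have h15 : 0 < ((Q : ℝ) ^ 3)⁻¹ := by positivity
      calc ‖Bc Q X p (m + 1) - Bc Q X p m‖ / (mb p + ((Q : ℝ) ^ 3)⁻¹)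
          ≤ ((Q : ℝ) ^ 3 / (2 * X)) / ((Q : ℝ) ^ 3)⁻¹ :=
            div_le_div₀ (by positivity) h13 h15 h14
        _ = (Q : ℝ) ^ 6 / X * (1 / 2) := by
            field_simp
        _ ≤ (Q : ℝ) ^ 6 / X := by
            have h16 : 0 ≤ (Q : ℝ) ^ 6 / X := by positivity
            linarith
  refine (norm_sum_le _ _).trans ((Finset.sum_le_sum hone).trans ?_)
  rw [← Finset.sum_mul]
  calc (∑ p ∈ PC Q, (mb p + ((Q : ℝ) ^ 3)⁻¹)) * (C5 * (n : ℝ) ^ 2 * (Q' : ℝ) ^ (-(1 / 1152 : ℝ)))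
      ≤ (C2 + 1) * (C5 * (n : ℝ) ^ 2 * (Q' : ℝ) ^ (-(1 / 1152 : ℝ))) := by
        refine mul_le_mul_of_nonneg_right hsum ?_
        have := mul_nonneg hC5.le hQ'0
        linarith
    _ = C5 * (C2 + 1) * (n : ℝ) ^ 2 * (Q' : ℝ) ^ (-(1 / 1152 : ℝ)) := by ring

end Pool.Agent.Lib.H59T
end

-- from Lib.H9S.BDL
section
/-!
H9S: pointwise bound for the projections.
-/
namespace Pool.Agent.H9S
open Finset
open Pool.Agent.Lib.H68T Pool.Agent.Lib.H18Q Pool.Agent.Lib.H59P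

theorem BDL_dQ (Q : ℕ) (m : ℤ) (hm : 1 ≤ m) : dQ Q m ≤ (m.toNat.divisors.card : ℝ) := by
  unfold dQ
  have h : (Icc 1 Q).filter (fun d : ℕ => (d : ℤ) ∣ m) ⊆ m.toNat.divisors := by
    intro d hd
    rw [mem_filter, mem_Icc] at hd
    rw [Nat.mem_divisors]
    refine ⟨?_, by omega⟩
    have h1 : ((m.toNat : ℕ) : ℤ) = m := Int.toNat_of_nonneg (by omega)
    rw [← h1] at hd
    exact_mod_cast hd.2
  exact_mod_cast Finset.card_le_card h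


end Pool.Agent.H9S
end

-- from Lib.H59T.UV
section

/-!
# Project H59T, chunk UV (S): the form of `LK_diff` used in module STAR (H9S)
-/

open Finset

namespace Pool.Agent.Lib.H59T

open Pool.Agent.Lib.H68T Pool.Agent.Lib.H18Q Pool.Agent.Lib.H59P

/-- Proof. `LK_diff` with `n = 3 X`, `f` cut off to `[2X, 3X)` and `g` to `(-X, X)`: then `x + y ∈ [X, 4X]` for the terms which are not `0`
(`Finset.sum_subset`, `Finset.sum_filter`-type manipulations); the constant is `9 C`. -/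
theorem LK_box : ∃ K C : ℝ, 1 ≤ K ∧ 0 < C ∧ ∀ Q Q' X : ℕ, RegP K Q X → 1 ≤ Q' → Q' ≤ Q →
    ∀ f g W : ℤ → ℂ, (∀ x, ‖f x‖ ≤ 1) → (∀ x, ‖g x‖ ≤ 1) → (∀ x, ‖W x‖ ≤ 1) →
    ‖∑ x ∈ Ico (2 * (X : ℤ)) (3 * X), ∑ y ∈ Ioo (-(X : ℤ)) X, f x * g y *
      ((Lk Q (X / Q ^ 2) (x + y) - Lk Q' (X / Q ^ 2) (x + y) : ℝ) : ℂ) * W (x - y)‖ ≤
      C * (X : ℝ) ^ 2 * (Q' : ℝ) ^ (-(1 / 1152 : ℝ)) := by
  classical
  obtain ⟨K, C, hK, hC, h⟩ := LK_diff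
  refine ⟨K, 9 * C, hK, by positivity, ?_⟩
  intro Q Q' X hR hQ' hQQ f g W hf hg hW
  obtain ⟨f', hf'⟩ : ∃ f' : ℤ → ℂ, ∀ x, f' x = if x ∈ Ico (2 * (X : ℤ)) (3 * X) then f x else 0 := ⟨_, fun _ => rfl⟩
  obtain ⟨g', hg'⟩ : ∃ g' : ℤ → ℂ, ∀ y, g' y = if y ∈ Ioo (-(X : ℤ)) X then g y else 0 := ⟨_, fun _ => rfl⟩
  have hf1 : ∀ x, ‖f' x‖ ≤ 1 := by
    intro x
    rw [hf' x]
    split_ifs
    · exact hf x
    · rw [norm_zero]
      exact zero_le_one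
  have hg1 : ∀ y, ‖g' y‖ ≤ 1 := by
    intro y
    rw [hg' y]
    split_ifs
    · exact hg y
    · rw [norm_zero]
      exact zero_le_one
  have h1 := h Q Q' X (3 * X) hR hQ' hQQ (by omega) f' g' W hf1 hg1 hW
  have h2 : ∑ x ∈ Icc (-((3 * X : ℕ) : ℤ)) ((3 * X : ℕ) : ℤ), ∑ y ∈ Icc (-((3 * X : ℕ) : ℤ)) ((3 * X : ℕ) : ℤ), f' x * g' y *
      (if (X : ℤ) ≤ x + y ∧ x + y ≤ 4 * X then
        ((Lk Q (X / Q ^ 2) (x + y) - Lk Q' (X / Q ^ 2) (x + y) : ℝ) : ℂ) else 0) * W (x - y) =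
      ∑ x ∈ Ico (2 * (X : ℤ)) (3 * X), ∑ y ∈ Ioo (-(X : ℤ)) X, f x * g y *
      ((Lk Q (X / Q ^ 2) (x + y) - Lk Q' (X / Q ^ 2) (x + y) : ℝ) : ℂ) * W (x - y) := by
    have hs1 : Ico (2 * (X : ℤ)) (3 * X) ⊆ Icc (-((3 * X : ℕ) : ℤ)) ((3 * X : ℕ) : ℤ) := by
      intro x hx
      rw [mem_Ico] at hx
      rw [mem_Icc]
      push_cast
      omega
    have hs2 : Ioo (-(X : ℤ)) X ⊆ Icc (-((3 * X : ℕ) : ℤ)) ((3 * X : ℕ) : ℤ) := by
      intro x hx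
      rw [mem_Ioo] at hx
      rw [mem_Icc]
      push_cast
      omega
    rw [← Finset.sum_subset hs1 (fun x _ hx => Finset.sum_eq_zero fun y _ => by
      rw [hf' x, if_neg hx, zero_mul, zero_mul, zero_mul])]
    refine Finset.sum_congr rfl fun x hx => ?_
    rw [← Finset.sum_subset hs2 (fun y _ hy => by
      rw [hg' y, if_neg hy, mul_zero, zero_mul, zero_mul])]
    refine Finset.sum_congr rfl fun y hy => ?_
    rw [hf' x, if_pos hx, hg' y, if_pos hy]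
    rw [mem_Ico] at hx
    rw [mem_Ioo] at hy
    rw [if_pos (by constructor <;> omega)]
  rw [h2] at h1
  refine h1.trans (le_of_eq ?_)
  push_cast
  ring

end Pool.Agent.Lib.H59T
end

-- from Lib.H9U.Defs
section

/-!
# Project H9U: power saving for the `U³` norm of the primes, and linear families of half dimension (definitions)

`φ_i(n, t) = a_i n + ∑_j c_ij t_j + b_i`. See `PROOF.md`.
-/

open Finset

namespace Pool.Agent.H9U

open Pool.Agent.H44W (ee)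
open Pool.Agent.H9S (Bd lc Lc BF Sx Sy)
open Pool.Agent.Lib.H68T (lp Lk PC p0 tent dQ)
open Pool.Agent.Lib.H18Q (gk KS Bc RegP)
open Pool.Agent.Lib.H59P (Ch cj uu gl pr SF MX bx TS Rp)
open Pool.Agent.Lib.H59T (UU Rm Pm Kp dof tau)

noncomputable section

/-! ## Systems of forms -/

/-- A system of `k` integral linear forms in `n` and `t_1, …, t_d`. -/
structure Sys (k d : ℕ) where
  a : Fin k → ℤ
  c : Fin k → Fin d → ℤ

/-- The `i`-th linear form at `(s, u)`. -/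
def Sys.lin {k d : ℕ} (S : Sys k d) (i : Fin k) (s : ℤ) (u : Fin d → ℤ) : ℤ :=
  S.a i * s + ∑ j, S.c i j * u j

/-- The `i`-th affine form at `(n, t)`. -/
def Sys.val {k d : ℕ} (S : Sys k d) (b : Fin k → ℤ) (n : ℤ) (t : Fin d → ℤ) (i : Fin k) : ℤ :=
  S.lin i n t + b i


/-- A vector of natural numbers as a vector of integers. -/
def iv {d : ℕ} (t : Fin d → ℕ) : Fin d → ℤ := fun j => (t j : ℤ)

/-- `t` is admissible: for every prime `l` some `n` makes all values prime to `l`. -/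
def Sys.Adm {k d : ℕ} (S : Sys k d) (b : Fin k → ℤ) (t : Fin d → ℤ) : Prop :=
  ∀ l : ℕ, l.Prime → ∃ n : ℤ, ∀ i, ¬ (l : ℤ) ∣ S.val b n t i

/-! ## Module U: functions with small `U³` norm at scale `X` -/

/-- The interval `[2X, 9X/4)`. -/
def JJ (X : ℕ) : Finset ℤ := Ico (2 * (X : ℤ)) (2 * X + X / 4)

/-- The function cut off to the interval `JJ X`. -/
def cutJ (X : ℕ) (F : ℤ → ℂ) (m : ℤ) : ℂ := if m ∈ JJ X then F m else 0

/-- `F` is uniform at scale `X` with exponent `κ`: the bilinear forms are at most `X^(2-κ)`, and the values on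
`[X, 4X]` at most `X^(κ/100)`. -/
structure Unif (X : ℕ) (κ : ℝ) (F : ℤ → ℂ) : Prop where
  bf : ∀ W f g : ℤ → ℂ, Bd W → Bd f → Bd g → ‖BF (Sx X) (Sy X) F W f g‖ ≤ (X : ℝ) ^ (2 - κ)
  bd : ∀ m : ℤ, (X : ℤ) ≤ m → m ≤ 4 * X → ‖F m‖ ≤ (X : ℝ) ^ (κ / 100)

/-- The regime: level `Q = X^(1/Cr)` or larger, small level `Q'` between `X^θ` and `Q`. -/
structure Rgm (K Cr θ : ℝ) (Q Q' X : ℕ) : Prop where
  reg : RegP K Q X
  log : Real.log X ≤ Cr * Real.log Q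
  low : (X : ℝ) ^ θ ≤ Q'
  le : Q' ≤ Q

/-- The error of the projection of small level `Q'` (with the window of the level `Q`). -/
def Er (Q Q' X : ℕ) (m : ℤ) : ℂ := lc m - Lc Q' (X / Q ^ 2) m

/-! ## Main terms -/

/-- The periodic function: `∏_i conj χ_i(m_i) ∏_{l ∈ P} (1 + gl l (m_i))`. -/
def PhV {k : ℕ} (p : Fin k → Ch) (P : Finset ℕ) (m : Fin k → ℤ) : ℂ :=
  ∏ i, (cj (p i) (m i) * ((uu P (m i) : ℝ) : ℂ))

/-- `∏_i (1 + gl l (m_i)) - 1` -/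
def WlV {k : ℕ} (l : ℕ) (m : Fin k → ℤ) : ℝ := ∏ i, (1 + gl l (m i)) - 1

/-- `∏_{l ∣ d} WlV l m` -/
def WdV {k : ℕ} (d : ℕ) (m : Fin k → ℤ) : ℝ := ∏ l ∈ d.primeFactors, WlV l m

/-- The mean of a function of the values over `n < N`. -/
def mn {k d : ℕ} (S : Sys k d) (b : Fin k → ℤ) (t : Fin d → ℤ) (N : ℕ) (G : (Fin k → ℤ) → ℂ) : ℂ :=
  (∑ n ∈ range N, G (fun i => S.val b n t i)) / N

/-- The local factor of the singular series at `l`, minus `1`. -/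
def tpS {k d : ℕ} (S : Sys k d) (b : Fin k → ℤ) (t : Fin d → ℤ) (l : ℕ) : ℝ :=
  (∑ n ∈ range l, ∏ i, (1 + gl l (S.val b n t i))) / l - 1

/-- `∏_{l ∣ d} tpS l` -/
def tdS {k d : ℕ} (S : Sys k d) (b : Fin k → ℤ) (t : Fin d → ℤ) (q : ℕ) : ℝ := ∏ l ∈ q.primeFactors, tpS S b t l

/-- The product of the local factors over the primes in `P`. -/
def SSS {k d : ℕ} (S : Sys k d) (b : Fin k → ℤ) (t : Fin d → ℤ) (P : Finset ℕ) : ℝ := ∏ l ∈ P, (1 + tpS S b t l)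

/-- The mean modulo `R` for the primes dividing `R`. -/
def MRS {k d : ℕ} (S : Sys k d) (b : Fin k → ℤ) (t : Fin d → ℤ) (p : Fin k → Ch) (R : ℕ) : ℂ :=
  mn S b t R (PhV p R.primeFactors)

/-- The mean over a complete period `Q!` for all primes up to `Q`. -/
def MQS {k d : ℕ} (S : Sys k d) (b : Fin k → ℤ) (t : Fin d → ℤ) (Q : ℕ) (p : Fin k → Ch) : ℂ :=
  mn S b t Q.factorial (PhV p (pr Q))

/-- The mean over `Q!` of `∏_i uu(m_i) (1 - th_i ψ(m_i))`, `ψ` the real character of `px`. -/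
def PMS {k d : ℕ} (S : Sys k d) (b : Fin k → ℤ) (t : Fin d → ℤ) (Q : ℕ) (px : Ch) (th : Fin k → ℝ) : ℝ :=
  (∑ n ∈ range Q.factorial, ∏ i, (uu (pr Q) (S.val b n t i) * (1 - th i * (cj px (S.val b n t i)).re))) /
    (Q.factorial : ℝ)

/-- The model with the explicit coefficients `Bc`, at the common level `Q`, for the length `X`: as `Mdl` in `H59P/Defs`. -/
structure MdB (Q X : ℕ) (η E0 : ℝ) (px : Ch) (th : ℤ → ℝ) : Prop where
  eta_pos : 0 < η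
  eta_le : η ≤ 1
  mem : px ∈ PC Q
  real : px.2 ^ 2 = 1
  triv : px = p0 → ∀ m, th m = 0
  nonneg : ∀ m, (X : ℤ) ≤ m → m ≤ 4 * X → 0 ≤ th m
  le : ∀ m, (X : ℤ) ≤ m → m ≤ 4 * X → th m ≤ 1 - η
  cf : ∃ eb : Ch → ℝ, (∀ p ∈ PC Q, 0 ≤ eb p) ∧ ∑ p ∈ PC Q, eb p ≤ η * E0 ∧
    ∀ m : ℤ, (X : ℤ) ≤ m → m ≤ 4 * X → ∀ p ∈ PC Q, ‖Bc Q X p m - MX px th m p‖ ≤ eb p

end

end Pool.Agent.H9U
end

-- from Lib.HUK.IDE
section

/-!
# Project HUK: the interfaces between the modules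

Module A: `TII k` (in `Defs.lean`) for all `k ≥ 3`. Module B: `TII k → TLP k`. Module C: `LKP k`, and
`TLP k → LKP k → PK (k - 1) → PK k`. Module D: from `PK k` for all `k` to systems.
-/

open Finset

namespace Pool.Agent.HUK

open Pool.Agent.H44W (ee)
open Pool.Agent.Lib.H84V (nd)
open Pool.Agent.Lib.H68T (lp Lk)
open Pool.Agent.Lib.H18Q (RegP)
open Pool.Agent.H9U (JJ cutJ Er Rgm Sys)

noncomputable section

/-- **Interface of module B.** -/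
def TLP (k : ℕ) : Prop := ∀ κ : ℝ, 0 < κ → ∃ κ' : ℝ, 0 < κ' ∧ ∃ X0 : ℕ, ∀ X : ℕ, X0 ≤ X →
  ∀ f : ℕ → ℤ → ℂ, (∀ j, j < k → Bdd X (f j)) → GG X (k - 1) (f 0) ≤ (X : ℝ) ^ (k - κ) →
  ‖∑ n ∈ Icc 1 (2 * k * X), ((lp n : ℝ) : ℂ) * Psi X k f n‖ ≤ (X : ℝ) ^ (2 - κ')

/-- **Interface of module C, first part**: components of large modulus. `B` bounds the supports of the functions. -/
def LKP (k : ℕ) : Prop := ∀ B : ℕ, ∃ K C c : ℝ, 1 ≤ K ∧ 0 < C ∧ 0 < c ∧ ∀ Q Q' X : ℕ, RegP K Q X → 1 ≤ Q' → Q' ≤ Q →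
  ∀ f : ℕ → ℤ → ℂ, (∀ j, j < k → Bdd (B * X) (f j)) →
  ‖∑ n ∈ JJ X, ((Lk Q (X / Q ^ 2) n - Lk Q' (X / Q ^ 2) n : ℝ) : ℂ) * Psi (B * X) k f n‖ ≤
    C * (X : ℝ) ^ 2 * (Q' : ℝ) ^ (-c)

/-- **Interface of module C**: the `U^k` norm of the error is small. -/
def PK (k : ℕ) : Prop := ∃ K : ℝ, 1 ≤ K ∧ ∀ Cr θ : ℝ, 1 ≤ Cr → 0 < θ → ∃ κ : ℝ, 0 < κ ∧ κ ≤ 1 ∧
  ∃ X0 : ℕ, ∀ Q Q' X : ℕ, X0 ≤ X → Rgm K Cr θ Q Q' X → GG (4 * X) k (cutJ X (Er Q Q' X)) ≤ (X : ℝ) ^ (k + 1 - κ)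

/-- Systems of finite complexity, also after doubling `n`: every form depends on `n`, and no two linear parts are
proportional. -/
def SysFin {k d : ℕ} (S : Sys k d) : Prop :=
  (∀ i, S.a i ≠ 0) ∧ ∀ i j, i ≠ j → ∃ (s : ℤ) (u : Fin d → ℤ), S.lin j s u = 0 ∧ S.lin i s u ≠ 0

end

end Pool.Agent.HUK
end

-- from Lib.HUP.Defs
section

/-!
# Project HUP (MP_0bf1d2_nt): the constant terms are linear forms in parameters. Definitions

The system `P_i(n) + β_i + ψ_i(t)`, `ψ_i(t) = ∑_j c_ij t_j` pairwise not proportional, polynomials `P_i` of any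
degrees `≥ 1`, a fixed linear coordinate `B`. See `PROOF.md`. The modules of H24P (where `ψ_i(t) = t_i`) are redone for
an abstract family `g : ι → (Fin k → ℕ)` of constant terms which satisfies the large sieve `FGood`.
-/

open Finset Polynomial

namespace Pool.Agent.HUP

open Pool.Agent.Lib.H68T Pool.Agent.Lib.H18Q Pool.Agent.Lib.H59P Pool.Agent.Lib.H24P

noncomputable section

/-! ## Forms, boxes -/

/-- The linear form `ψ_i(t) = ∑_j c_ij t_j`. -/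
def lf {k d : ℕ} (c : Fin k → Fin d → ℤ) (t : Fin d → ℤ) (i : Fin k) : ℤ := ∑ j, c i j * t j


/-- The box `∏ [b_j, b_j + s_j)`. -/
def tb {d : ℕ} (b : Fin d → ℤ) (s : Fin d → ℕ) : Finset (Fin d → ℤ) :=
  Fintype.piFinset fun j => Ico (b j) (b j + s j)

/-- The constant terms `h_i = β_i + ψ_i(t)` (used when they are not negative). -/
def hh {k d : ℕ} (c : Fin k → Fin d → ℤ) (β : Fin k → ℤ) (t : Fin d → ℤ) : Fin k → ℕ :=
  fun i => (β i + lf c t i).toNat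

/-- Every parameter occurs only in coordinates of one degree (`e j`, at least `1`). -/
def Blk {k d : ℕ} (c : Fin k → Fin d → ℤ) (e : Fin d → ℕ) (P : Fin k → ℤ[X]) : Prop :=
  (∀ j, 1 ≤ e j) ∧ ∀ i j, c i j ≠ 0 → e j = (P i).natDegree

/-! ## The large sieve for a family -/

/-- The constants of `FGood`. -/
structure FPar (Cc cc : ℝ) : Prop where
  one : 1 ≤ Cc
  pos : 0 < cc
  le : cc ≤ 1

/-- The family `g x`, `x ∈ S`, of constant terms satisfies with the polynomials `P` the large sieve (`Fgen` of H24P) for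
all levels `Q ≤ Qm`. -/
def FGood {k : ℕ} (E : ℕ) (Cc cc : ℝ) (Qm : ℕ) (P : Fin k → ℤ[X]) {ι : Type} (S : Finset ι) (g : ι → Fin k → ℕ) :
    Prop :=
  ∀ Q : ℕ, 1 ≤ Q → Q ≤ Qm → ∀ p : Fin k → Ch, (∀ i, p i ∈ PC Q) →
    ∀ T : Finset (Fin k → ℕ), T ⊆ Fintype.piFinset (fun i => KS Q (p i).1) →
    ∀ D : ℕ, 1 ≤ D → (∀ κ ∈ T, D < univ.lcm (fun i => (p i).1 * κ i)) →
    ∀ a H : ℕ, Q ^ E ≤ H → ∀ w : ℕ → ℂ,
    ∑ x ∈ S, ‖∑ n ∈ Ico a (a + H), w n *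
        ∑ κ ∈ T, ∏ i, gk (p i) (κ i) ((P i).eval (n : ℤ) + g x i)‖ ^ 2 ≤
      Cc * (1 + Real.log Q) ^ Cc * S.card * (H * ∑ n ∈ Ico a (a + H), ‖w n‖ ^ 2) * (D : ℝ) ^ (-cc)

/-- A cell: a family which satisfies the large sieve, all in the dyadic box `∏ [M_i, 2 M_i)` and close to the base
point `h0`. -/
structure Cl {k : ℕ} (E : ℕ) (Cc cc : ℝ) (Q : ℕ) (P : Fin k → ℤ[X]) (M : Fin k → ℕ) {ι : Type} (S : Finset ι)
    (g : ι → Fin k → ℕ) (h0 : Fin k → ℕ) : Prop where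
  good : FGood E Cc cc (Q ^ 2) P S g
  mem : ∀ x ∈ S, g x ∈ cub M M
  memb : h0 ∈ cub M M
  close : ∀ x ∈ S, ∀ i, (Q : ℤ) ^ 8 * |((g x i : ℕ) : ℤ) - h0 i| ≤ M i

/-! ## Main terms with coefficients frozen at the base point of the cell -/

/-- The sum with the projections in the random coordinates, coefficients frozen at `P_i(bs n) + h0_i`, weight `w`. -/
def Rzb {k : ℕ} (Q X1 : ℕ) (P : Fin k → ℤ[X]) (C : Fin k → ℤ → Ch → ℂ) (w : ℕ → ℂ) (h0 h : Fin k → ℕ) : ℂ :=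
  ∑ n ∈ Ico X1 (2 * X1), w n *
    ∏ i, SG Q (C i ((P i).eval ((bs (X1 / Q ^ 8) n : ℕ) : ℤ) + (h0 i : ℤ))) ((P i).eval (n : ℤ) + h i)

/-- All the coefficients, frozen. -/
def cfb {k : ℕ} (Q X1 : ℕ) (P : Fin k → ℤ[X]) (B : ℤ[X]) (C0 : ℤ → Ch → ℂ) (Cc : Fin k → ℤ → Ch → ℂ)
    (h0 : Fin k → ℕ) (n : ℕ) : Fin (k + 1) → Ch → ℂ :=
  Fin.cons (C0 (B.eval ((bs (X1 / Q ^ 800) n : ℕ) : ℤ)))
    (fun i => Cc i ((P i).eval ((bs (X1 / Q ^ 8) n : ℕ) : ℤ) + (h0 i : ℤ)))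

/-- The total main term. -/
def MZb {k : ℕ} (Q X1 m0 : ℕ) (P : Fin k → ℤ[X]) (B : ℤ[X]) (C0 : ℤ → Ch → ℂ) (Cc : Fin k → ℤ → Ch → ℂ)
    (h0 h : Fin k → ℕ) : ℂ :=
  ∑ n ∈ Ico X1 (2 * X1), MDf Q m0 (cfb Q X1 P B C0 Cc h0 n) (sys B P h)

/-- Truncation of the singular series for a family (`TMf` of H24P). -/
def TMb (k A E : ℕ) (Cc cc : ℝ) : Prop := ∃ c : ℝ, 0 < c ∧ ∃ Q0 : ℕ, ∀ Q : ℕ, Q0 ≤ Q → ∀ B : ℤ[X], Lin A B →
  ∀ P : Fin k → ℤ[X], Pol A P → ∀ (ι : Type) (S : Finset ι) (g : ι → Fin k → ℕ), FGood E Cc cc (Q ^ 2) P S g →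
  ∀ R : ℕ, 1 ≤ R → R ≤ fl Q (1 / 16) → B.leadingCoeff.natAbs ∣ R →
  ∑ x ∈ S, (∑ d ∈ SF (fl Q (1 / 2) / R) R, tdf d (sys B P (g x)) -
    SSf ((pr Q).filter (fun l => ¬ l ∣ R)) (sys B P (g x))) ^ 2 ≤ S.card * (Q : ℝ) ^ (-c)

/-! ## Interfaces -/

/-- **Interface of module FG** (large sieve for linear forms). -/
def FGT {k d : ℕ} (c : Fin k → Fin d → ℤ) (P : Fin k → ℤ[X]) : Prop := ∃ (E : ℕ) (Cc cc : ℝ), FPar Cc cc ∧
  ∀ (Qm : ℕ) (b : Fin d → ℤ) (s : Fin d → ℕ) (β : Fin k → ℤ), 1 ≤ Qm → (∀ j, Qm ^ E ≤ s j) →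
    (∀ t ∈ tb b s, ∀ i, 0 ≤ β i + lf c t i) → FGood E Cc cc Qm P (tb b s) (hh c β)

/-- **Interface of module POLY** (the primes may be replaced by their projections at level `Q`, mean square over the
parameters). The values `P_i(n) + h_i` are in `JJ (Ysc (M i)) = [3M/2, 27M/16)` since `151 M ≤ 100 h < 168 M` and
`|P_i(n)| ≤ M/1000` (`Geo L`, `L` large). -/
def S4T {k d : ℕ} (c : Fin k → Fin d → ℤ) (e : Fin d → ℕ) (P : Fin k → ℤ[X]) : Prop :=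
  ∃ (K : ℝ) (L : ℕ), 1 ≤ K ∧ ∀ C : ℝ, ∃ τ c0 : ℝ, 0 < τ ∧ τ ≤ 1 ∧
    0 < c0 ∧ ∃ Q0 : ℕ, ∀ (Q X X1 : ℕ) (M : Fin k → ℕ) (b : Fin d → ℤ) (s : Fin d → ℕ) (β : Fin k → ℤ), Q0 ≤ Q →
    Rg K C Q X → Geo L Q X X1 P M → (X : ℝ) ≤ X1 * (Q : ℝ) ^ τ →
    (∀ i, (M i : ℝ) ≤ (X1 : ℝ) ^ (P i).natDegree * (Q : ℝ) ^ τ) →
    (∀ j, (X : ℝ) ^ e j ≤ (Q : ℝ) ^ τ * s j) → (∀ j, (s j : ℝ) ≤ (Q : ℝ) ^ τ * (X : ℝ) ^ e j) →
    (∀ i, ∃ (B : ℤ → Ch → ℂ) (mb : Ch → ℝ), Cf Q (Ysc (M i)) B mb) →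
    (∀ t ∈ tb b s, ∀ i, 151 * (M i : ℤ) ≤ 100 * (β i + lf c t i) ∧ 100 * (β i + lf c t i) < 168 * (M i : ℤ)) →
    ∀ w : ℕ → ℝ, (∀ n ∈ Ico X1 (2 * X1), |w n| ≤ (Real.log X) ^ 2) →
    ∑ t ∈ tb b s, (∑ n ∈ Ico X1 (2 * X1), w n * ∏ i, lp ((P i).eval (n : ℤ) + hh c β t i) -
      Rw Q X1 P M w (hh c β t)) ^ 2 ≤ (X1 : ℝ) ^ 2 * (tb b s).card * (Q : ℝ) ^ (-c0)

open Classical in
/-- **The core theorem** for given forms and polynomials. -/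
def CoreT {k d : ℕ} (c : Fin k → Fin d → ℤ) (e : Fin d → ℕ) (P : Fin k → ℤ[X]) : Prop := ∀ (A : ℕ) (ε : ℝ), 0 < ε →
    ∃ η : ℝ, 0 < η ∧ ∃ Z0 : ℕ, ∀ Z : ℕ, Z0 ≤ Z → ∀ B : ℤ[X], OKB A ε Z B → ∀ β : Fin k → ℤ,
      (∀ i, |β i| ≤ A * (Z : ℤ) ^ (P i).natDegree) →
      (((tb 0 fun j => A * Z ^ e j + 1).filter fun t => (∀ i, 0 ≤ β i + lf c t i) ∧ NoFix (sys B P (hh c β t)) ∧
        ((pcount Z B P (hh c β t) : ℕ) : ℝ) < (Z : ℝ) ^ (1 - ε)).card : ℝ) ≤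
        (Z : ℝ) ^ ((∑ j, (e j : ℝ)) - η)

end

end Pool.Agent.HUP
end
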