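import Mathlib
import Pool.Agent.Lib.H59M.M1.M010
import Pool.Agent.Lib.H59M.M1.M057
import Pool.Agent.Lib.H59M.M1.M062
import Pool.Agent.Lib.H59M.M1.M074

/-! Merged copies (to shorten the build) of Lib.H33B.FS, Lib.PNT.Fejer, Lib.PNT.WienerIkehara, Lib.PNT.Dirichlet, Lib.PNT.PNT, Lib.H59X.B1, Lib.H59X.B2, Lib.H59X.F1A, Lib.H59X.F1B, Lib.H59X.F1C, Lib.H59X.C1, Lib.H59X.C2, Lib.H59X.L1, Lib.H59X.L2A, Lib.H59X.EP5, Lib.H59X.S1, Lib.H59X.V2A, Lib.H59X.V2B. -/

-- from Lib.H33B.FS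
section

/-!
# Chunk FS: the upper bound sieve in residue classes
-/

open Finset Polynomial Filter Topology

namespace Pool.Agent.Lib.H33B

open Pool.Agent.Lib.H59 (argCount rootCount poly_sieve card_value_le rootCount_prod_le
  rootCount_le_natDegree dvd_eval_mod_iff prod_one_sub_inv_le argCount_tendsto)

variable {g : ℕ}

/-- `P(q m + b)` -/
noncomputable def FS_P (P : ℤ[X]) (q b : ℕ) : ℤ[X] := P.comp (C (q : ℤ) * X + C (b : ℤ))

theorem FS_eval (P : ℤ[X]) (q b m : ℕ) :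
    (FS_P P q b).eval (m : ℤ) = P.eval ((q * m + b : ℕ) : ℤ) := by
  unfold FS_P
  rw [eval_comp]
  simp

theorem FS_deg (P : ℤ[X]) {q : ℕ} (hq : 1 ≤ q) (b : ℕ) : (FS_P P q b).natDegree = P.natDegree := by
  unfold FS_P
  rw [natDegree_comp, natDegree_linear (by exact_mod_cast (by omega : q ≠ 0)), mul_one]

theorem FS_root (P : ℤ[X]) {p q : ℕ} (b : ℕ) (hp : p.Prime) (hq : ¬ p ∣ q) :
    rootCount (FS_P P q b) p = rootCount P p := by
  classical
  set φ : ℕ → ℕ := fun a => (q * a + b) % p with hφ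
  have hinj : Set.InjOn φ (Finset.range p : Set ℕ) := by
    intro a ha c hc h
    rw [Finset.mem_coe, Finset.mem_range] at ha hc
    have h0 : q * a + b ≡ q * c + b [MOD p] := h
    have h1 := Nat.ModEq.add_right_cancel' b h0
    have h2 : a ≡ c [MOD p] :=
      Nat.ModEq.cancel_left_of_coprime ((hp.coprime_iff_not_dvd).2 hq) h1
    unfold Nat.ModEq at h2
    rwa [Nat.mod_eq_of_lt ha, Nat.mod_eq_of_lt hc] at h2
  have himg : (Finset.range p).image φ = Finset.range p := by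
    apply eq_of_subset_of_card_le
    · intro x hx
      rw [mem_image] at hx
      obtain ⟨a, _, rfl⟩ := hx
      rw [Finset.mem_range]
      exact Nat.mod_lt _ hp.pos
    · rw [card_image_of_injOn hinj]
  have hkey : ∀ a : ℕ, (p : ℤ) ∣ (FS_P P q b).eval (a : ℤ) ↔ (p : ℤ) ∣ P.eval ((φ a : ℕ) : ℤ) := by
    intro a
    rw [FS_eval, hφ, dvd_eval_mod_iff]
  have h1 : (Finset.range p).filter (fun c : ℕ => (p : ℤ) ∣ P.eval (c : ℤ)) =
      ((Finset.range p).filter (fun a : ℕ => (p : ℤ) ∣ (FS_P P q b).eval (a : ℤ))).image φ := by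
    ext c
    rw [mem_image, mem_filter]
    constructor
    · rintro ⟨h2, h3⟩
      rw [← himg, mem_image] at h2
      obtain ⟨a, ha, rfl⟩ := h2
      exact ⟨a, mem_filter.2 ⟨ha, (hkey a).2 h3⟩, rfl⟩
    · rintro ⟨a, ha, rfl⟩
      rw [mem_filter] at ha
      refine ⟨?_, (hkey a).1 ha.2⟩
      rw [← himg]
      exact mem_image_of_mem _ ha.1
  unfold rootCount
  rw [h1, card_image_of_injOn]
  exact hinj.mono fun a ha => (mem_filter.1 (Finset.mem_coe.1 ha)).1

theorem FS_root0 (P : ℤ[X]) {p q : ℕ} (b : ℕ) (hq : p ∣ q)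
    (h : ¬ (p : ℤ) ∣ P.eval (b : ℤ)) : rootCount (FS_P P q b) p = 0 := by
  classical
  unfold rootCount
  rw [card_eq_zero, filter_eq_empty_iff]
  intro a _ h1
  apply h
  rw [FS_eval] at h1
  rw [← dvd_eval_mod_iff] at h1 ⊢
  have h2 : (q * a + b) % p = b % p := by
    obtain ⟨c, rfl⟩ := hq
    rw [mul_assoc, Nat.mul_add_mod]
  rwa [h2] at h1

















end Pool.Agent.Lib.H33B
end

-- from Lib.PNT.Fejer
section

/-!
# The Fejer kernel and its Fourier transform
-/

open Complex MeasureTheory Filter Topology Set FourierTransform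

namespace Pool.Agent.Lib.PNT

/-- The tent function. -/
noncomputable def tent (t : ℝ) : ℝ := max 0 (1 - |t|)

/-- The Fejer kernel, normalised to have integral one. -/
noncomputable def fejer (u : ℝ) : ℝ := (Real.sinc (u / 2)) ^ 2 / (2 * Real.pi)

theorem continuous_tent : Continuous tent := by
  unfold tent; fun_prop

theorem tent_nonneg (t : ℝ) : 0 ≤ tent t := le_max_left _ _

theorem tent_eq_zero {t : ℝ} (ht : 1 ≤ |t|) : tent t = 0 :=
  max_eq_left (by linarith)

theorem tent_zero : tent 0 = 1 := by simp [tent]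

theorem hasCompactSupport_tent : HasCompactSupport tent := by
  refine HasCompactSupport.intro (K := Icc (-1) 1) isCompact_Icc ?_
  intro t ht
  apply tent_eq_zero
  by_contra h
  push Not at h
  exact ht (abs_le.mp h.le)

theorem integrable_tent : Integrable tent :=
  continuous_tent.integrable_of_hasCompactSupport hasCompactSupport_tent

theorem continuous_fejer : Continuous fejer := by
  unfold fejer
  have := Real.continuous_sinc
  fun_prop

theorem fejer_nonneg (u : ℝ) : 0 ≤ fejer u := by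
  unfold fejer
  have := Real.pi_pos
  positivity

theorem fejer_le_one (u : ℝ) : fejer u ≤ 1 := by
  unfold fejer
  have h3 := Real.pi_gt_three
  have h1 : (Real.sinc (u / 2)) ^ 2 ≤ 1 := by
    have := Real.abs_sinc_le_one (u / 2)
    rw [← sq_abs]
    exact pow_le_one₀ (abs_nonneg _) this
  rw [div_le_one (by positivity)]
  linarith

theorem tent_fourier (u : ℝ) :
    ∫ t : ℝ, (tent t : ℂ) * cexp (-(t * u) * I) = ((Real.sinc (u / 2)) ^ 2 : ℝ) := by
  have h1 : ∫ t : ℝ, (tent t : ℂ) * cexp (-(t * u) * I)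
      = ∫ t in (-1 : ℝ)..1, (tent t : ℂ) * cexp (-(t * u) * I) := by
    rw [intervalIntegral.integral_of_le (by norm_num)]
    symm
    apply setIntegral_eq_integral_of_forall_compl_eq_zero
    intro t ht
    have : tent t = 0 := by
      apply tent_eq_zero
      by_contra h
      push Not at h
      rw [abs_lt] at h
      exact ht ⟨h.1, h.2.le⟩
    simp [this]
  have hc : Continuous fun t : ℝ => (tent t : ℂ) * cexp (-(t * u) * I) := by
    have := continuous_tent
    fun_prop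
  have h2 : ∫ t in (-1 : ℝ)..1, (tent t : ℂ) * cexp (-(t * u) * I)
      = (∫ t in (-1 : ℝ)..0, (tent t : ℂ) * cexp (-(t * u) * I))
        + ∫ t in (0 : ℝ)..1, (tent t : ℂ) * cexp (-(t * u) * I) :=
    (intervalIntegral.integral_add_adjacent_intervals (hc.intervalIntegrable _ _)
      (hc.intervalIntegrable _ _)).symm
  have h3 : ∫ t in (-1 : ℝ)..0, (tent t : ℂ) * cexp (-(t * u) * I)
      = ∫ t in (-1 : ℝ)..0, ((1 + t : ℝ) : ℂ) * cexp (-(t * u) * I) := by
    apply intervalIntegral.integral_congr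
    intro t ht
    rw [uIcc_of_le (by norm_num)] at ht
    have : tent t = 1 + t := by
      unfold tent
      rw [abs_of_nonpos ht.2, max_eq_right (by linarith [ht.1])]; ring
    simp only [this]
  have h4 : ∫ t in (0 : ℝ)..1, (tent t : ℂ) * cexp (-(t * u) * I)
      = ∫ t in (0 : ℝ)..1, ((1 - t : ℝ) : ℂ) * cexp (-(t * u) * I) := by
    apply intervalIntegral.integral_congr
    intro t ht
    rw [uIcc_of_le (by norm_num)] at ht
    have : tent t = 1 - t := by
      unfold tent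
      rw [abs_of_nonneg ht.1, max_eq_right (by linarith [ht.2])]
    simp only [this]
  rw [h1, h2, h3, h4]
  rcases eq_or_ne u 0 with rfl | hu
  · simp only [ofReal_zero, mul_zero, neg_zero, zero_mul, Complex.exp_zero, mul_one, zero_div,
      Real.sinc_zero, one_pow, ofReal_one]
    rw [intervalIntegral.integral_ofReal, intervalIntegral.integral_ofReal]
    have e1 : ∫ t in (-1 : ℝ)..0, (1 + t) = 1 / 2 := by
      rw [intervalIntegral.integral_add (by simp) (by simp)]
      simp; norm_num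
    have e2 : ∫ t in (0 : ℝ)..1, (1 - t) = 1 / 2 := by
      rw [intervalIntegral.integral_sub (by simp) (by simp)]
      simp; norm_num
    rw [e1, e2]; norm_num
  · set c : ℂ := -(u * I) with hcdef
    have hc0 : c ≠ 0 := by
      rw [hcdef, neg_ne_zero]
      exact mul_ne_zero (by exact_mod_cast hu) I_ne_zero
    have hexp : ∀ t : ℝ, cexp (-(t * u) * I) = cexp (c * t) := by
      intro t; rw [hcdef]; congr 1; ring
    have hd : ∀ t : ℝ, HasDerivAt (fun t : ℝ => cexp (c * t)) (c * cexp (c * t)) t := by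
      intro t
      have h := ((hasDerivAt_id (t : ℂ)).const_mul c).cexp.comp_ofReal
      simpa [mul_comm] using h
    have hid : ∀ t : ℝ, HasDerivAt (fun t : ℝ => (t : ℂ)) 1 t := fun t =>
      (hasDerivAt_id (t : ℂ)).comp_ofReal
    have e1 : ∫ t in (-1 : ℝ)..0, ((1 + t : ℝ) : ℂ) * cexp (-(t * u) * I)
        = 1 / c - 1 / c ^ 2 + cexp (-c) / c ^ 2 := by
      have hder : ∀ t ∈ uIcc (-1 : ℝ) 0, HasDerivAt
          (fun t : ℝ => (1 + (t : ℂ)) * cexp (c * t) / c - cexp (c * t) / c ^ 2)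
          (((1 + t : ℝ) : ℂ) * cexp (-(t * u) * I)) t := by
        intro t _
        rw [hexp]
        have h := ((((hid t).const_add 1).mul (hd t)).div_const c).sub ((hd t).div_const (c ^ 2))
        convert! h using 1
        push_cast
        field_simp
        ring
      rw [intervalIntegral.integral_eq_sub_of_hasDerivAt hder
        (Continuous.intervalIntegrable (by fun_prop) _ _)]
      simp
    have e2 : ∫ t in (0 : ℝ)..1, ((1 - t : ℝ) : ℂ) * cexp (-(t * u) * I)
        = cexp c / c ^ 2 - 1 / c - 1 / c ^ 2 := by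
      have hder : ∀ t ∈ uIcc (0 : ℝ) 1, HasDerivAt
          (fun t : ℝ => (1 - (t : ℂ)) * cexp (c * t) / c + cexp (c * t) / c ^ 2)
          (((1 - t : ℝ) : ℂ) * cexp (-(t * u) * I)) t := by
        intro t _
        rw [hexp]
        have h := ((((hid t).const_sub 1).mul (hd t)).div_const c).add ((hd t).div_const (c ^ 2))
        convert! h using 1
        push_cast
        field_simp
        ring
      rw [intervalIntegral.integral_eq_sub_of_hasDerivAt hder
        (Continuous.intervalIntegrable (by fun_prop) _ _)]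
      simp
      ring
    rw [e1, e2]
    have hsum : cexp (-c) + cexp c = 2 * (Real.cos u : ℂ) := by
      rw [hcdef, neg_neg]
      rw [ofReal_cos, Complex.cos]
      ring_nf
    have hc2 : c ^ 2 = -((u : ℂ) ^ 2) := by
      rw [hcdef, neg_sq, mul_pow, I_sq]; ring
    have hu' : (u : ℂ) ≠ 0 := by exact_mod_cast hu
    have hs : (Real.sinc (u / 2)) ^ 2 = 2 * (1 - Real.cos u) / u ^ 2 := by
      rw [Real.sinc_of_ne_zero (by simpa using hu), div_pow]
      have : Real.cos u = 1 - 2 * Real.sin (u / 2) ^ 2 := by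
        have h := Real.cos_two_mul (u / 2)
        rw [Real.cos_sq', show 2 * (u / 2) = u by ring] at h
        linarith
      rw [this]
      field_simp
      ring
    have : 1 / c - 1 / c ^ 2 + cexp (-c) / c ^ 2 + (cexp c / c ^ 2 - 1 / c - 1 / c ^ 2)
        = ((cexp (-c) + cexp c) - 2) / c ^ 2 := by ring
    rw [this, hsum, hc2, hs]
    push_cast
    field_simp
    ring

theorem sinc_sq_le (x : ℝ) : (Real.sinc x) ^ 2 ≤ 2 * (1 + x ^ 2)⁻¹ := by
  have h1 : (Real.sinc x) ^ 2 ≤ 1 := by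
    have := Real.abs_sinc_le_one x
    rw [← sq_abs]
    exact pow_le_one₀ (abs_nonneg _) this
  have h2 : x ^ 2 * (Real.sinc x) ^ 2 ≤ 1 := by
    rcases eq_or_ne x 0 with rfl | hx
    · simp
    · rw [Real.sinc_of_ne_zero hx, div_pow]
      have : x ^ 2 * (Real.sin x ^ 2 / x ^ 2) = Real.sin x ^ 2 := by field_simp
      rw [this]
      exact Real.sin_sq_le_one x
  rw [← div_eq_mul_inv, le_div_iff₀ (by positivity)]
  nlinarith

theorem integrable_fejer : Integrable fejer := by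
  have h1 : Integrable fun x : ℝ => (1 + x ^ 2)⁻¹ := integrable_inv_one_add_sq
  have h2 : Integrable fun x : ℝ => (1 + (x / 2) ^ 2)⁻¹ := h1.comp_div (by norm_num)
  refine Integrable.mono' (g := fun x : ℝ => (2 * (1 + (x / 2) ^ 2)⁻¹) / (2 * Real.pi))
    ((h2.const_mul 2).div_const _) continuous_fejer.aestronglyMeasurable ?_
  refine Eventually.of_forall fun x => ?_
  rw [Real.norm_of_nonneg (fejer_nonneg x), fejer]
  exact div_le_div_of_nonneg_right (sinc_sq_le _) (by positivity)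

theorem fourier_tent (w : ℝ) : 𝓕 (fun t : ℝ => (tent t : ℂ)) w = ((2 * Real.pi * fejer (2 * Real.pi * w) : ℝ) : ℂ) := by
  rw [Real.fourier_eq']
  have := tent_fourier (2 * Real.pi * w)
  have hpi := Real.pi_pos
  rw [fejer, mul_div_cancel₀ _ (by positivity), ← this]
  apply integral_congr_ae
  refine Eventually.of_forall fun t => ?_
  simp only [smul_eq_mul]
  rw [mul_comm]
  congr 1
  simp
  ring_nf

theorem integral_fejer : ∫ u, fejer u = 1 := by
  have hpi := Real.pi_pos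
  have hF : (𝓕 (fun t : ℝ => (tent t : ℂ)))
      = fun w : ℝ => ((2 * Real.pi * fejer (2 * Real.pi * w) : ℝ) : ℂ) := by
    ext w; exact fourier_tent w
  have hint : Integrable (𝓕 (fun t : ℝ => (tent t : ℂ))) := by
    rw [hF]
    apply Integrable.ofReal
    exact (integrable_fejer.comp_mul_left' (by positivity : 2 * Real.pi ≠ 0)).const_mul _
  have hinv := Continuous.fourierInv_fourier_eq (f := fun t : ℝ => (tent t : ℂ))
    (by have := continuous_tent; fun_prop) integrable_tent.ofReal hint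
  have h0 := congrFun hinv 0
  rw [Real.fourierInv_eq'] at h0
  simp only [inner_zero_right, mul_zero, ofReal_zero, zero_mul, Complex.exp_zero, one_smul,
    tent_zero, ofReal_one] at h0
  rw [hF] at h0
  beta_reduce at h0
  rw [integral_complex_ofReal] at h0
  have h1 : ∫ w : ℝ, 2 * Real.pi * fejer (2 * Real.pi * w) = 1 := by exact_mod_cast h0
  rw [integral_const_mul, Measure.integral_comp_mul_left] at h1
  rw [abs_of_pos (by positivity), smul_eq_mul, ← mul_assoc, mul_inv_cancel₀ (by positivity),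
    one_mul] at h1
  exact h1

/-- Scaled Fejer kernel. -/
noncomputable def fejerS (l u : ℝ) : ℝ := l * fejer (l * u)

/-- Scaled tent. -/
noncomputable def tentS (l t : ℝ) : ℝ := tent (t / l)

theorem continuous_fejerS (l : ℝ) : Continuous (fejerS l) := by
  unfold fejerS
  have := continuous_fejer
  fun_prop

theorem continuous_tentS (l : ℝ) : Continuous (tentS l) := by
  unfold tentS
  have := continuous_tent
  fun_prop

theorem fejerS_nonneg {l : ℝ} (hl : 0 < l) (u : ℝ) : 0 ≤ fejerS l u :=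
  mul_nonneg hl.le (fejer_nonneg _)

theorem fejerS_le {l : ℝ} (hl : 0 < l) (u : ℝ) : fejerS l u ≤ l := by
  unfold fejerS
  have := fejer_le_one (l * u)
  nlinarith

theorem tentS_nonneg (l t : ℝ) : 0 ≤ tentS l t := tent_nonneg _

theorem tentS_eq_zero {l t : ℝ} (hl : 0 < l) (ht : l ≤ |t|) : tentS l t = 0 := by
  apply tent_eq_zero
  rwa [abs_div, abs_of_pos hl, le_div_iff₀ hl, one_mul]

theorem integrable_tentS {l : ℝ} (hl : 0 < l) : Integrable (tentS l) := by
  unfold tentS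
  exact integrable_tent.comp_div hl.ne'

theorem integrable_fejerS {l : ℝ} (hl : 0 < l) : Integrable (fejerS l) := by
  unfold fejerS
  exact (integrable_fejer.comp_mul_left' hl.ne').const_mul _

theorem integral_fejerS {l : ℝ} (hl : 0 < l) : ∫ u, fejerS l u = 1 := by
  unfold fejerS
  rw [integral_const_mul, Measure.integral_comp_mul_left, integral_fejer, abs_of_pos
    (by positivity), smul_eq_mul, mul_one, mul_inv_cancel₀ hl.ne']

theorem tentS_fourier {l : ℝ} (hl : 0 < l) (u : ℝ) :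
    ∫ t : ℝ, (tentS l t : ℂ) * cexp (-(t * u) * I) = ((2 * Real.pi * fejerS l u : ℝ) : ℂ) := by
  have h := tent_fourier (l * u)
  have h2 := Measure.integral_comp_div (fun t : ℝ => (tent t : ℂ) * cexp (-(t * (l * u : ℝ)) * I)) l
  rw [h, abs_of_pos hl] at h2
  have h3 : ∫ t : ℝ, (tentS l t : ℂ) * cexp (-(t * u) * I)
      = ∫ x : ℝ, (tent (x / l) : ℂ) * cexp (-(((x / l : ℝ) : ℂ) * (l * u : ℝ)) * I) := by
    apply integral_congr_ae
    refine Eventually.of_forall fun t => ?_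
    simp only [tentS]
    congr 2
    push_cast
    have : (l : ℂ) ≠ 0 := by exact_mod_cast hl.ne'
    field_simp
  rw [h3, h2, fejerS, fejer]
  have hpi := Real.pi_pos
  rw [real_smul, ← ofReal_mul]
  congr 1
  field_simp

end Pool.Agent.Lib.PNT
end

-- from Lib.PNT.WienerIkehara
section

/-!
# The Wiener-Ikehara theorem, Laplace transform form
-/

open Complex MeasureTheory Filter Topology Set

namespace Pool.Agent.Lib.PNT

/-- Hypotheses of the Wiener-Ikehara theorem in Laplace form. -/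
structure WIData (α : ℝ → ℝ) (A : ℝ) (H : ℂ → ℂ) : Prop where
  mono : MonotoneOn α (Ici 0)
  nonneg : ∀ u, 0 ≤ u → 0 ≤ α u
  int : ∀ σ : ℝ, 1 < σ → IntegrableOn (fun u => α u * Real.exp (-(σ * u))) (Ioi 0)
  cont : ContinuousOn H {s | 1 ≤ s.re}
  lap : ∀ s : ℂ, 1 < s.re →
    ∫ u in Ioi (0 : ℝ), (α u : ℂ) * cexp (-(s * u)) = H s + A / (s - 1)

/-- The damped difference. -/
noncomputable def wiG (α : ℝ → ℝ) (A δ u : ℝ) : ℝ :=
  (α u * Real.exp (-u) - A) * Real.exp (-(δ * u))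

variable {α : ℝ → ℝ} {A : ℝ} {H : ℂ → ℂ}

theorem WIData.integrable_exp {δ : ℝ} (hδ : 0 < δ) :
    IntegrableOn (fun u : ℝ => Real.exp (-(δ * u))) (Ioi 0) := by
  have := integrableOn_exp_mul_Ioi (a := -δ) (by linarith) 0
  refine this.congr_fun (fun u _ => ?_) measurableSet_Ioi
  simp

theorem WIData.integrable_damped (h : WIData α A H) {δ : ℝ} (hδ : 0 < δ) :
    IntegrableOn (fun u : ℝ => α u * Real.exp (-u) * Real.exp (-(δ * u))) (Ioi 0) := by
  refine (h.int (1 + δ) (by linarith)).congr_fun (fun u _ => ?_) measurableSet_Ioi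
  simp only []
  rw [mul_assoc, ← Real.exp_add]
  ring_nf

theorem WIData.integrable_g (h : WIData α A H) {δ : ℝ} (hδ : 0 < δ) :
    IntegrableOn (wiG α A δ) (Ioi 0) := by
  have h1 := h.integrable_damped hδ
  have h2 := (WIData.integrable_exp hδ).const_mul A
  refine (h1.sub h2).congr (Eventually.of_forall fun u => ?_)
  simp only [wiG, Pi.sub_apply]
  ring

theorem WIData.lap' (h : WIData α A H) {δ : ℝ} (hδ : 0 < δ) (t : ℝ) :
    ∫ u in Ioi (0 : ℝ), (wiG α A δ u : ℂ) * cexp (-(t * u) * I) = H (1 + δ + t * I) := by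
  have hs : 1 < (1 + δ + t * I : ℂ).re := by simp [hδ]
  have h1 := h.lap _ hs
  have hre : (-(δ + t * I) : ℂ).re < 0 := by simp [hδ]
  have hint1 : IntegrableOn (fun u : ℝ => (α u : ℂ) * cexp (-((1 + δ + t * I) * u))) (Ioi 0) := by
    have hi := (h.int (1 + δ) (by linarith)).ofReal (𝕜 := ℂ)
    have := hi.mul_bdd (g := fun u : ℝ => cexp (-(t * u) * I)) (c := 1)
      (by fun_prop) (Eventually.of_forall fun u => by
        rw [show (-(t * u : ℂ) * I) = ((-(t * u) : ℝ) : ℂ) * I by push_cast; ring]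
        rw [Complex.norm_exp_ofReal_mul_I])
    refine Integrable.congr this (Eventually.of_forall fun u => ?_)
    simp only [coe_algebraMap]
    push_cast
    rw [mul_assoc, ← Complex.exp_add]
    congr 2
    ring
  have hint2 : IntegrableOn (fun u : ℝ => cexp (-(δ + t * I) * u)) (Ioi 0) :=
    integrableOn_exp_mul_complex_Ioi hre 0
  have h2 := integral_exp_mul_complex_Ioi hre 0
  have h3 : ∫ u in Ioi (0 : ℝ), (wiG α A δ u : ℂ) * cexp (-(t * u) * I)
      = ∫ u in Ioi (0 : ℝ), ((α u : ℂ) * cexp (-((1 + δ + t * I) * u))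
        - A * cexp (-(δ + t * I) * u)) := by
    apply integral_congr_ae
    refine Eventually.of_forall fun u => ?_
    simp only [wiG]
    push_cast
    have e1 : cexp (-((1 + δ + t * I) * u)) = cexp (-(u : ℂ)) * cexp (-(δ * u)) * cexp (-(t * u) * I) := by
      rw [← Complex.exp_add, ← Complex.exp_add]; congr 1; ring
    have e2 : cexp (-(δ + t * I) * u) = cexp (-(δ * u)) * cexp (-(t * u) * I) := by
      rw [← Complex.exp_add]; congr 1; ring
    rw [e1, e2]
    ring
  rw [h3, integral_sub hint1 (hint2.const_mul _), h1, integral_const_mul, h2]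
  have hne : (δ + t * I : ℂ) ≠ 0 := by
    intro h0
    rw [h0] at hre
    simp at hre
  rw [show (1 + δ + t * I - 1 : ℂ) = δ + t * I by ring]
  simp only [ofReal_zero, mul_zero, Complex.exp_zero]
  field_simp
  ring

theorem WIData.fub (h : WIData α A H) {l : ℝ} (hl : 0 < l) {δ : ℝ} (hδ : 0 < δ) (y : ℝ) :
    ∫ t : ℝ, (tentS l t : ℂ) * cexp (t * y * I) * H (1 + δ + t * I)
      = ((∫ u in Ioi (0 : ℝ), wiG α A δ u * (2 * Real.pi * fejerS l (u - y)) : ℝ) : ℂ) := by
  have hint : Integrable (Function.uncurry fun (t : ℝ) (u : ℝ) =>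
      ((tentS l t : ℂ) * (wiG α A δ u : ℂ)) * cexp (-(t * (u - y)) * I))
      ((volume : Measure ℝ).prod (volume.restrict (Ioi (0 : ℝ)))) := by
    have h1 := Integrable.mul_prod ((integrable_tentS hl).ofReal (𝕜 := ℂ))
      ((h.integrable_g hδ).ofReal (𝕜 := ℂ))
    have := h1.mul_bdd (g := fun z : ℝ × ℝ => cexp (-(z.1 * (z.2 - y)) * I)) (c := 1)
      (by fun_prop) (Eventually.of_forall fun z => by
        rw [show (-(z.1 * (z.2 - y) : ℂ) * I) = ((-(z.1 * (z.2 - y)) : ℝ) : ℂ) * I by push_cast; ring]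
        rw [Complex.norm_exp_ofReal_mul_I])
    exact this
  have key := integral_integral_swap hint
  have e1 : ∫ t : ℝ, (tentS l t : ℂ) * cexp (t * y * I) * H (1 + δ + t * I)
      = ∫ t : ℝ, ∫ u in Ioi (0 : ℝ),
        ((tentS l t : ℂ) * (wiG α A δ u : ℂ)) * cexp (-(t * (u - y)) * I) := by
    apply integral_congr_ae
    refine Eventually.of_forall fun t => ?_
    simp only []
    rw [← h.lap' hδ t, ← integral_const_mul]
    apply integral_congr_ae
    refine Eventually.of_forall fun u => ?_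
    simp only []
    have : cexp (-(t * (u - y)) * I) = cexp (t * y * I) * cexp (-(t * u) * I) := by
      rw [← Complex.exp_add]; congr 1; ring
    rw [this]; ring
  have e2 : ∫ u in Ioi (0 : ℝ), ∫ t : ℝ,
        ((tentS l t : ℂ) * (wiG α A δ u : ℂ)) * cexp (-(t * (u - y)) * I)
      = ((∫ u in Ioi (0 : ℝ), wiG α A δ u * (2 * Real.pi * fejerS l (u - y)) : ℝ) : ℂ) := by
    rw [← integral_complex_ofReal]
    apply integral_congr_ae
    refine Eventually.of_forall fun u => ?_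
    simp only []
    rw [ofReal_mul, ← tentS_fourier hl, ← integral_const_mul]
    apply integral_congr_ae
    refine Eventually.of_forall fun t => ?_
    simp only []
    push_cast
    ring
  rw [e1, key, e2]

/-- The smoothed damped function. -/
noncomputable def wiJ (α : ℝ → ℝ) (l δ y : ℝ) : ℝ :=
  ∫ u in Ioi (0 : ℝ), α u * Real.exp (-u) * Real.exp (-(δ * u)) * fejerS l (u - y)

/-- The limit of the smoothed damped function. -/
noncomputable def wiL (A : ℝ) (H : ℂ → ℂ) (l y : ℝ) : ℝ :=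
  A * (∫ u in Ioi (0 : ℝ), fejerS l (u - y))
    + (1 / (2 * Real.pi)) * (∫ t : ℝ, (tentS l t : ℂ) * cexp (t * y * I) * H (1 + t * I)).re

theorem integrable_shift {l : ℝ} (hl : 0 < l) (y : ℝ) :
    Integrable fun u : ℝ => fejerS l (u - y) :=
  (integrable_fejerS hl).comp_sub_right y

theorem WIData.integrable_J (h : WIData α A H) {l : ℝ} (hl : 0 < l) {δ : ℝ} (hδ : 0 < δ) (y : ℝ) :
    IntegrableOn (fun u : ℝ => α u * Real.exp (-u) * Real.exp (-(δ * u)) * fejerS l (u - y))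
      (Ioi 0) := by
  refine (h.integrable_damped hδ).mul_bdd (c := l) ?_ (Eventually.of_forall fun u => ?_)
  · have := continuous_fejerS l
    fun_prop
  · rw [Real.norm_of_nonneg (fejerS_nonneg hl _)]
    exact fejerS_le hl _

theorem WIData.J_eq (h : WIData α A H) {l : ℝ} (hl : 0 < l) {δ : ℝ} (hδ : 0 < δ) (y : ℝ) :
    wiJ α l δ y = A * (∫ u in Ioi (0 : ℝ), Real.exp (-(δ * u)) * fejerS l (u - y))
      + (1 / (2 * Real.pi)) *
        (∫ t : ℝ, (tentS l t : ℂ) * cexp (t * y * I) * H (1 + δ + t * I)).re := by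
  have hpi := Real.pi_pos
  rw [h.fub hl hδ y, ofReal_re]
  have h1 := h.integrable_J hl hδ y
  have h2 : IntegrableOn (fun u : ℝ => Real.exp (-(δ * u)) * fejerS l (u - y)) (Ioi 0) := by
    refine (WIData.integrable_exp hδ).mul_bdd (c := l) ?_ (Eventually.of_forall fun u => ?_)
    · have := continuous_fejerS l
      fun_prop
    · rw [Real.norm_of_nonneg (fejerS_nonneg hl _)]
      exact fejerS_le hl _
  have h3 : ∫ u in Ioi (0 : ℝ), wiG α A δ u * (2 * Real.pi * fejerS l (u - y))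
      = 2 * Real.pi * (wiJ α l δ y
        - A * (∫ u in Ioi (0 : ℝ), Real.exp (-(δ * u)) * fejerS l (u - y))) := by
    unfold wiJ
    rw [← integral_const_mul, ← integral_sub h1 (h2.const_mul A), ← integral_const_mul]
    apply integral_congr_ae
    refine Eventually.of_forall fun u => ?_
    simp only [wiG]
    ring
  rw [h3]
  field_simp
  ring

theorem WIData.tendsto_J (h : WIData α A H) {l : ℝ} (hl : 0 < l) (y : ℝ) :
    Tendsto (fun δ => wiJ α l δ y) (𝓝[>] 0) (𝓝 (wiL A H l y)) := by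
  have hpi := Real.pi_pos
  have hA : Tendsto (fun δ : ℝ => ∫ u in Ioi (0 : ℝ), Real.exp (-(δ * u)) * fejerS l (u - y))
      (𝓝[>] 0) (𝓝 (∫ u in Ioi (0 : ℝ), fejerS l (u - y))) := by
    apply tendsto_integral_filter_of_dominated_convergence (fun u => fejerS l (u - y))
    · refine Eventually.of_forall fun δ => ?_
      have := continuous_fejerS l
      exact Continuous.aestronglyMeasurable (by fun_prop)
    · filter_upwards [self_mem_nhdsWithin] with δ hδ
      filter_upwards [ae_restrict_mem measurableSet_Ioi] with u hu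
      have hδ' : 0 < δ := hδ
      have hu' : 0 < u := hu
      rw [norm_mul, Real.norm_of_nonneg (fejerS_nonneg hl _), Real.norm_of_nonneg (Real.exp_pos _).le]
      have : Real.exp (-(δ * u)) ≤ 1 := by
        rw [Real.exp_le_one_iff]
        have := mul_pos hδ' hu'
        linarith
      exact mul_le_of_le_one_left (fejerS_nonneg hl _) this
    · exact (integrable_shift hl y).integrableOn
    · refine Eventually.of_forall fun u => ?_
      have : Continuous fun δ : ℝ => Real.exp (-(δ * u)) * fejerS l (u - y) := by fun_prop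
      have h0 := (this.tendsto 0).mono_left (nhdsWithin_le_nhds (s := Ioi (0 : ℝ)))
      simpa using h0
  have hB : Tendsto (fun δ : ℝ => ∫ t : ℝ, (tentS l t : ℂ) * cexp (t * y * I) * H (1 + δ + t * I))
      (𝓝[>] 0) (𝓝 (∫ t : ℝ, (tentS l t : ℂ) * cexp (t * y * I) * H (1 + t * I))) := by
    have hcomp : IsCompact (Icc (1 : ℝ) 2 ×ℂ Icc (-l) l) := isCompact_Icc.reProdIm isCompact_Icc
    have hsub : (Icc (1 : ℝ) 2 ×ℂ Icc (-l) l) ⊆ {s : ℂ | 1 ≤ s.re} := by
      intro s hs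
      exact (Complex.mem_reProdIm.mp hs).1.1
    obtain ⟨C, hC⟩ := hcomp.exists_bound_of_continuousOn (h.cont.mono hsub)
    have hcont : ∀ δ : ℝ, 0 ≤ δ → Continuous fun t : ℝ => H (1 + δ + t * I) := by
      intro δ hδ
      apply h.cont.comp_continuous (by fun_prop)
      intro t
      simp [hδ]
    apply tendsto_integral_filter_of_dominated_convergence (fun t => C * tentS l t)
    · filter_upwards [self_mem_nhdsWithin] with δ hδ
      have h1 := hcont δ (le_of_lt hδ)
      have h2 := continuous_tentS l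
      refine Continuous.aestronglyMeasurable (Continuous.mul ?_ h1)
      fun_prop
    · have hmem : Ioo (0 : ℝ) 1 ∈ 𝓝[>] (0 : ℝ) := Ioo_mem_nhdsGT one_pos
      filter_upwards [hmem] with δ hδ
      refine Eventually.of_forall fun t => ?_
      rw [norm_mul, norm_mul, show ((t : ℂ) * y * I) = ((t * y : ℝ) : ℂ) * I by push_cast; ring,
        Complex.norm_exp_ofReal_mul_I, mul_one, Complex.norm_real,
        Real.norm_of_nonneg (tentS_nonneg _ _), mul_comm]
      rcases le_or_gt l |t| with ht | ht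
      · rw [tentS_eq_zero hl ht]; simp
      · apply mul_le_mul_of_nonneg_right _ (tentS_nonneg _ _)
        apply hC
        rw [Complex.mem_reProdIm]
        rw [abs_lt] at ht
        simp only [add_re, one_re, ofReal_re, mul_re, I_re, mul_zero, ofReal_im, I_im, mul_one,
          sub_self, add_zero, add_im, one_im, mul_im, zero_add, mem_Icc]
        exact ⟨⟨by linarith [hδ.1], by linarith [hδ.2]⟩, ht.1.le, ht.2.le⟩
    · exact (integrable_tentS hl).const_mul C
    · refine Eventually.of_forall fun t => ?_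
      apply Tendsto.const_mul
      have hc := h.cont (1 + t * I) (by simp)
      refine Tendsto.comp hc ?_
      rw [tendsto_nhdsWithin_iff]
      constructor
      · have : Continuous fun δ : ℝ => (1 + δ + t * I : ℂ) := by fun_prop
        have h0 := (this.tendsto 0).mono_left (nhdsWithin_le_nhds (s := Ioi (0 : ℝ)))
        simpa using h0
      · filter_upwards [self_mem_nhdsWithin] with δ hδ
        have hδ' : 0 < δ := hδ
        simp [hδ'.le]
  have hsum := (hA.const_mul A).add (((continuous_re.tendsto _).comp hB).const_mul (1 / (2 * Real.pi)))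
  refine Tendsto.congr' ?_ hsum
  filter_upwards [self_mem_nhdsWithin] with δ hδ
  rw [h.J_eq hl hδ y]
  rfl

theorem WIData.tendsto_L (_h : WIData α A H) {l : ℝ} (hl : 0 < l) :
    Tendsto (wiL A H l) atTop (𝓝 A) := by
  have hA : Tendsto (fun y : ℝ => ∫ u in Ioi (0 : ℝ), fejerS l (u - y)) atTop (𝓝 1) := by
    have h1 : ∀ y : ℝ, ∫ u in Ioi (0 : ℝ), fejerS l (u - y) = ∫ v in Ioi (-y), fejerS l v := by
      intro y
      rw [← integral_indicator measurableSet_Ioi, ← integral_indicator measurableSet_Ioi,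
        ← integral_sub_right_eq_self (fun v => (Ioi (-y)).indicator (fejerS l) v) y]
      apply integral_congr_ae
      refine Eventually.of_forall fun u => ?_
      simp only [indicator, mem_Ioi]
      by_cases hu : 0 < u
      · rw [if_pos hu, if_pos (by linarith)]
      · rw [if_neg hu, if_neg (by intro h; exact hu (by linarith))]
    simp_rw [h1]
    have hc : AECover (volume : Measure ℝ) atTop (fun y : ℝ => Ioi (-y)) :=
      aecover_Ioi tendsto_neg_atTop_atBot
    have := hc.integral_tendsto_of_countably_generated (integrable_fejerS hl)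
    rwa [integral_fejerS hl] at this
  have hB : Tendsto (fun y : ℝ => ∫ t : ℝ, (tentS l t : ℂ) * cexp (t * y * I) * H (1 + t * I))
      atTop (𝓝 0) := by
    have hRL := Real.tendsto_integral_exp_smul_cocompact
      (fun t : ℝ => (tentS l t : ℂ) * H (1 + t * I))
    have hy : Tendsto (fun y : ℝ => -(y / (2 * Real.pi))) atTop (cocompact ℝ) := by
      have h1 : Tendsto (fun y : ℝ => -(y / (2 * Real.pi))) atTop atBot :=
        tendsto_neg_atTop_atBot.comp (tendsto_id.atTop_div_const (by positivity))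
      exact h1.mono_right atBot_le_cocompact
    refine (hRL.comp hy).congr fun y => ?_
    simp only [Function.comp]
    apply integral_congr_ae
    refine Eventually.of_forall fun t => ?_
    simp only [Real.fourierChar_apply, Circle.smul_def, smul_eq_mul]
    have hpi := Real.pi_pos
    have : ((2 * Real.pi * (-(t * -(y / (2 * Real.pi)))) : ℝ) : ℂ) * I = t * y * I := by
      push_cast
      have : (Real.pi : ℂ) ≠ 0 := by exact_mod_cast hpi.ne'
      field_simp
    rw [this]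
    ring
  have hsum := (hA.const_mul A).add (((continuous_re.tendsto _).comp hB).const_mul (1 / (2 * Real.pi)))
  simp only [zero_re, mul_zero, add_zero, mul_one] at hsum
  exact hsum

/-- Mass of the kernel on `[-η, η]`. -/
noncomputable def wiP (l η : ℝ) : ℝ := ∫ u in (-η)..η, fejerS l u

theorem tendsto_P {η : ℝ} (hη : 0 < η) : Tendsto (fun l => wiP l η) atTop (𝓝 1) := by
  have h1 : ∀ l, wiP l η = ∫ u in (l * (-η))..(l * η), fejer u := by
    intro l
    unfold wiP fejerS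
    rw [intervalIntegral.integral_const_mul, intervalIntegral.mul_integral_comp_mul_left]
  simp_rw [h1]
  rw [← integral_fejer]
  apply intervalIntegral_tendsto_integral integrable_fejer
  · exact tendsto_id.atTop_mul_const_of_neg (by linarith)
  · exact tendsto_id.atTop_mul_const hη

theorem wiP_le_one {l η : ℝ} (hl : 0 < l) (hη : 0 < η) : wiP l η ≤ 1 := by
  unfold wiP
  rw [intervalIntegral.integral_of_le (by linarith), ← integral_fejerS hl]
  exact setIntegral_le_integral (integrable_fejerS hl)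
    (Eventually.of_forall fun u => fejerS_nonneg hl u)

theorem wiP_shift (l η y : ℝ) (hη : 0 < η) :
    ∫ u in Ioc (y - η) (y + η), fejerS l (u - y) = wiP l η := by
  rw [← intervalIntegral.integral_of_le (by linarith), intervalIntegral.integral_comp_sub_right]
  unfold wiP
  congr 1 <;> ring

theorem WIData.upper (h : WIData α A H) {l η y : ℝ} (hl : 0 < l) (hη : 0 < η) (hy : η ≤ y) :
    α (y - η) * Real.exp (-(y + η)) * wiP l η ≤ wiL A H l y := by
  have h0 : 0 ≤ α (y - η) := h.nonneg _ (by linarith)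
  have h1 : ∀ δ > 0, α (y - η) * Real.exp (-(y + η)) * Real.exp (-(δ * (y + η))) * wiP l η
      ≤ wiJ α l δ y := by
    intro δ hδ
    have hint := h.integrable_J hl hδ y
    have hsub : Ioc (y - η) (y + η) ⊆ Ioi 0 := fun u hu => lt_of_le_of_lt (by linarith) hu.1
    have h2 : ∫ u in Ioc (y - η) (y + η),
        α u * Real.exp (-u) * Real.exp (-(δ * u)) * fejerS l (u - y) ≤ wiJ α l δ y := by
      unfold wiJ
      apply setIntegral_mono_set hint
      · filter_upwards [ae_restrict_mem measurableSet_Ioi] with u hu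
        have hu' : (0 : ℝ) < u := hu
        have h3 := h.nonneg u hu'.le
        have h4 := fejerS_nonneg hl (u - y)
        simp only [Pi.zero_apply]
        positivity
      · exact hsub.eventuallyLE
    refine le_trans ?_ h2
    rw [← wiP_shift l η y hη, ← integral_const_mul]
    apply setIntegral_mono_on ((integrable_shift hl y).integrableOn.const_mul _)
      (hint.mono_set hsub) measurableSet_Ioc
    intro u hu
    have hu0 : 0 < u := hsub hu
    apply mul_le_mul_of_nonneg_right _ (fejerS_nonneg hl _)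
    have hm : α (y - η) ≤ α u := h.mono (by simp only [mem_Ici]; linarith) hu0.le hu.1.le
    have he : Real.exp (-(y + η)) ≤ Real.exp (-u) := Real.exp_le_exp.mpr (by linarith [hu.2])
    have he2 : Real.exp (-(δ * (y + η))) ≤ Real.exp (-(δ * u)) := by
      apply Real.exp_le_exp.mpr
      have := mul_le_mul_of_nonneg_left hu.2 hδ.le
      linarith
    have h3 := h.nonneg u hu0.le
    gcongr
  have h2 : Tendsto (fun δ : ℝ => α (y - η) * Real.exp (-(y + η)) * Real.exp (-(δ * (y + η)))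
      * wiP l η) (𝓝[>] 0) (𝓝 (α (y - η) * Real.exp (-(y + η)) * wiP l η)) := by
    have : Continuous fun δ : ℝ => α (y - η) * Real.exp (-(y + η)) * Real.exp (-(δ * (y + η)))
      * wiP l η := by fun_prop
    have h0 := (this.tendsto 0).mono_left (nhdsWithin_le_nhds (s := Ioi (0 : ℝ)))
    simpa using h0
  refine le_of_tendsto_of_tendsto h2 (h.tendsto_J hl y) ?_
  filter_upwards [self_mem_nhdsWithin] with δ hδ
  exact h1 δ hδ

theorem WIData.lower (h : WIData α A H) {l η y M : ℝ} (hl : 0 < l) (hη : 0 < η) (hy : η ≤ y)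
    (hM : ∀ u, 0 ≤ u → α u * Real.exp (-u) ≤ M) :
    wiL A H l y ≤ α (y + η) * Real.exp (-(y - η)) * wiP l η + M * (1 - wiP l η) := by
  have h0 : 0 ≤ α (y + η) := h.nonneg _ (by linarith)
  have hM0 : 0 ≤ M := le_trans (mul_nonneg (h.nonneg 0 le_rfl) (Real.exp_pos _).le) (hM 0 le_rfl)
  set c : ℝ := α (y + η) * Real.exp (-(y - η)) with hc
  have hc0 : 0 ≤ c := mul_nonneg h0 (Real.exp_pos _).le
  have h1 : ∀ δ > 0, wiJ α l δ y ≤ c * wiP l η + M * (1 - wiP l η) := by
    intro δ hδ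
    have hint := h.integrable_J hl hδ y
    set Bd : ℝ → ℝ := fun u => M * fejerS l (u - y)
      + (Ioc (y - η) (y + η)).indicator (fun u => (c - M) * fejerS l (u - y)) u with hBd
    have hi1 : Integrable fun u => M * fejerS l (u - y) := (integrable_shift hl y).const_mul M
    have hi2 : Integrable ((Ioc (y - η) (y + η)).indicator
        (fun u => (c - M) * fejerS l (u - y))) :=
      ((integrable_shift hl y).const_mul _).indicator measurableSet_Ioc
    have hBdi : Integrable Bd := hi1.add hi2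
    have hBd_eq : ∀ u, Bd u = (if u ∈ Ioc (y - η) (y + η) then c else M) * fejerS l (u - y) := by
      intro u
      simp only [hBd, indicator]
      split_ifs
      · ring
      · ring
    have hBd0 : ∀ u, 0 ≤ Bd u := by
      intro u
      rw [hBd_eq]
      apply mul_nonneg _ (fejerS_nonneg hl _)
      split_ifs
      · exact hc0
      · exact hM0
    have h2 : wiJ α l δ y ≤ ∫ u in Ioi (0 : ℝ), Bd u := by
      unfold wiJ
      apply setIntegral_mono_on hint hBdi.integrableOn measurableSet_Ioi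
      intro u hu
      have hu0 : (0 : ℝ) < u := hu
      have h3 := h.nonneg u hu0.le
      rw [hBd_eq]
      apply mul_le_mul_of_nonneg_right _ (fejerS_nonneg hl _)
      have he : Real.exp (-(δ * u)) ≤ 1 := by
        rw [Real.exp_le_one_iff]
        have := mul_pos hδ hu0
        linarith
      have hle : α u * Real.exp (-u) * Real.exp (-(δ * u)) ≤ α u * Real.exp (-u) :=
        mul_le_of_le_one_right (by positivity) he
      refine hle.trans ?_
      split_ifs with hu1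
      · rw [hc]
        have hm : α u ≤ α (y + η) := h.mono hu0.le (by simp only [mem_Ici]; linarith) hu1.2
        have he : Real.exp (-u) ≤ Real.exp (-(y - η)) := Real.exp_le_exp.mpr (by linarith [hu1.1])
        gcongr
      · exact hM u hu0.le
    have h3 : ∫ u in Ioi (0 : ℝ), Bd u ≤ ∫ u, Bd u :=
      setIntegral_le_integral hBdi (Eventually.of_forall hBd0)
    have h4 : ∫ u, Bd u = c * wiP l η + M * (1 - wiP l η) := by
      rw [hBd, integral_add hi1 hi2, integral_indicator measurableSet_Ioc, integral_const_mul,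
        integral_const_mul, wiP_shift l η y hη,
        integral_sub_right_eq_self (fun v => fejerS l v) y, integral_fejerS hl]
      ring
    linarith
  refine le_of_tendsto (h.tendsto_J hl y) ?_
  filter_upwards [self_mem_nhdsWithin] with δ hδ
  exact h1 δ hδ

theorem WIData.A_nonneg (h : WIData α A H) : 0 ≤ A := by
  have hP : ∃ l : ℝ, 0 < l ∧ 0 < wiP l 1 := by
    have h1 := (tendsto_P one_pos).eventually (lt_mem_nhds (show (0 : ℝ) < 1 by norm_num))
    obtain ⟨l, hl, hl2⟩ := (h1.and (eventually_gt_atTop 0)).exists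
    exact ⟨l, hl2, hl⟩
  obtain ⟨l, hl, hP⟩ := hP
  refine ge_of_tendsto (h.tendsto_L hl) ?_
  filter_upwards [eventually_ge_atTop (1 : ℝ)] with y hy
  refine le_trans ?_ (h.upper hl one_pos hy)
  have := h.nonneg (y - 1) (by linarith)
  positivity

theorem WIData.exists_bound (h : WIData α A H) :
    ∃ M, ∀ u, 0 ≤ u → α u * Real.exp (-u) ≤ M := by
  have hP : ∃ l : ℝ, 0 < l ∧ 1 / 2 < wiP l 1 := by
    have h1 := (tendsto_P one_pos).eventually (lt_mem_nhds (show (1 / 2 : ℝ) < 1 by norm_num))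
    obtain ⟨l, hl, hl2⟩ := (h1.and (eventually_gt_atTop 0)).exists
    exact ⟨l, hl2, hl⟩
  obtain ⟨l, hl, hP⟩ := hP
  have hL := (h.tendsto_L hl).eventually (gt_mem_nhds (show A < A + 1 by linarith))
  obtain ⟨Y, hY⟩ := eventually_atTop.mp hL
  set U := max Y 0 with hU
  refine ⟨max (α U) (2 * Real.exp 2 * (A + 1)), fun u hu => ?_⟩
  rcases le_or_gt u U with h1 | h1
  · apply le_max_of_le_left
    have h2 : α u ≤ α U := h.mono hu (by simp [hU]) h1
    have h3 : Real.exp (-u) ≤ 1 := by rw [Real.exp_le_one_iff]; linarith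
    calc α u * Real.exp (-u) ≤ α u := mul_le_of_le_one_right (h.nonneg u hu) h3
      _ ≤ α U := h2
  · apply le_max_of_le_right
    have hyY : Y ≤ u + 1 := by
      have := le_max_left Y 0
      linarith
    have h2 := h.upper hl one_pos (y := u + 1) (by linarith)
    have h3 := hY (u + 1) hyY
    rw [show u + 1 - 1 = u by ring, show -(u + 1 + 1) = -u + -2 by ring, Real.exp_add] at h2
    have h4 := h.nonneg u hu
    have h5 : 0 ≤ α u * (Real.exp (-u) * Real.exp (-2)) := by positivity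
    have h6 : α u * (Real.exp (-u) * Real.exp (-2)) * (1 / 2) ≤ A + 1 := by
      calc α u * (Real.exp (-u) * Real.exp (-2)) * (1 / 2)
          ≤ α u * (Real.exp (-u) * Real.exp (-2)) * wiP l 1 := by gcongr
        _ ≤ A + 1 := by linarith
    have h7 : Real.exp 2 * Real.exp (-2) = 1 := by rw [← Real.exp_add]; simp
    calc α u * Real.exp (-u) = 2 * Real.exp 2 * (α u * (Real.exp (-u) * Real.exp (-2)) * (1 / 2)) := by
          linear_combination (-(α u * Real.exp (-u))) * h7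
      _ ≤ 2 * Real.exp 2 * (A + 1) := by gcongr

/-- **Wiener-Ikehara theorem**, Laplace transform form. -/
theorem WIData.tendsto (h : WIData α A H) :
    Tendsto (fun u => α u * Real.exp (-u)) atTop (𝓝 A) := by
  have hA := h.A_nonneg
  obtain ⟨M, hM⟩ := h.exists_bound
  have hM0 : 0 ≤ M := le_trans (mul_nonneg (h.nonneg 0 le_rfl) (Real.exp_pos _).le) (hM 0 le_rfl)
  rw [tendsto_order]
  constructor
  · intro a ha
    have hc : Continuous fun η : ℝ => Real.exp (-(2 * η)) * (A - η - M * η) := by fun_prop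
    have h1 : ∀ᶠ η in 𝓝[>] (0 : ℝ), a < Real.exp (-(2 * η)) * (A - η - M * η) := by
      have := (hc.tendsto 0).mono_left (nhdsWithin_le_nhds (s := Ioi (0 : ℝ)))
      simp only [mul_zero, neg_zero, Real.exp_zero, sub_zero, one_mul] at this
      exact this.eventually (lt_mem_nhds ha)
    obtain ⟨η, hη1, hη2⟩ := (h1.and (Ioo_mem_nhdsGT (show (0 : ℝ) < 1 by norm_num))).exists
    have hP := (tendsto_P hη2.1).eventually (lt_mem_nhds (show 1 - η < 1 by linarith [hη2.1]))
    obtain ⟨l, hPl, hl⟩ := (hP.and (eventually_gt_atTop 0)).exists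
    have hL := (h.tendsto_L hl).eventually (lt_mem_nhds (show A - η < A by linarith [hη2.1]))
    obtain ⟨Y, hY⟩ := eventually_atTop.mp hL
    filter_upwards [eventually_ge_atTop (max Y 0 + 2)] with u hu
    have hY0 := le_max_left Y 0
    have hY1 := le_max_right Y 0
    have h2 := hY (u - η) (by linarith [hη2.2])
    have h3 := h.lower hl hη2.1 (y := u - η) (by linarith [hη2.2]) hM
    rw [show u - η + η = u by ring, show -(u - η - η) = -u + 2 * η by ring, Real.exp_add] at h3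
    have hP1 := wiP_le_one hl hη2.1
    have hu0 : 0 ≤ α u := h.nonneg u (by linarith)
    have h4 : α u * (Real.exp (-u) * Real.exp (2 * η)) * wiP l η
        ≤ α u * Real.exp (-u) * Real.exp (2 * η) := by
      rw [← mul_assoc]
      exact mul_le_of_le_one_right (by positivity) hP1
    have h5 : M * (1 - wiP l η) ≤ M * η := by
      apply mul_le_mul_of_nonneg_left _ hM0
      linarith
    have h6 : A - η - M * η ≤ α u * Real.exp (-u) * Real.exp (2 * η) := by linarith
    have h7 : Real.exp (-(2 * η)) * Real.exp (2 * η) = 1 := by rw [← Real.exp_add]; simp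
    calc a < Real.exp (-(2 * η)) * (A - η - M * η) := hη1
      _ ≤ Real.exp (-(2 * η)) * (α u * Real.exp (-u) * Real.exp (2 * η)) := by gcongr
      _ = α u * Real.exp (-u) := by linear_combination (α u * Real.exp (-u)) * h7
  · intro a ha
    have hc : ContinuousAt (fun η : ℝ => Real.exp (2 * η) * (A + η) / (1 - η)) 0 := by
      apply ContinuousAt.div (by fun_prop) (by fun_prop) (by norm_num)
    have h1 : ∀ᶠ η in 𝓝[>] (0 : ℝ), Real.exp (2 * η) * (A + η) / (1 - η) < a := by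
      have := hc.tendsto.mono_left (nhdsWithin_le_nhds (s := Ioi (0 : ℝ)))
      simp only [mul_zero, Real.exp_zero, sub_zero, one_mul, add_zero, div_one] at this
      exact this.eventually (gt_mem_nhds ha)
    obtain ⟨η, hη1, hη2⟩ := (h1.and (Ioo_mem_nhdsGT (show (0 : ℝ) < 1 by norm_num))).exists
    have hP := (tendsto_P hη2.1).eventually (lt_mem_nhds (show 1 - η < 1 by linarith [hη2.1]))
    obtain ⟨l, hPl, hl⟩ := (hP.and (eventually_gt_atTop 0)).exists
    have hL := (h.tendsto_L hl).eventually (gt_mem_nhds (show A < A + η by linarith [hη2.1]))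
    obtain ⟨Y, hY⟩ := eventually_atTop.mp hL
    filter_upwards [eventually_ge_atTop (max Y 0)] with u hu
    have hY0 := le_max_left Y 0
    have hY1 := le_max_right Y 0
    have h2 := hY (u + η) (by linarith [hη2.1])
    have h3 := h.upper hl hη2.1 (y := u + η) (by linarith)
    rw [show u + η - η = u by ring, show -(u + η + η) = -u + -(2 * η) by ring, Real.exp_add] at h3
    have hu0 : 0 ≤ α u := h.nonneg u (by linarith)
    have h4 : α u * (Real.exp (-u) * Real.exp (-(2 * η))) * (1 - η)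
        ≤ α u * (Real.exp (-u) * Real.exp (-(2 * η))) * wiP l η := by
      apply mul_le_mul_of_nonneg_left hPl.le
      positivity
    have h6 : α u * (Real.exp (-u) * Real.exp (-(2 * η))) * (1 - η) ≤ A + η := by linarith
    have h7 : Real.exp (2 * η) * Real.exp (-(2 * η)) = 1 := by rw [← Real.exp_add]; simp
    have h8 : 0 < 1 - η := by linarith [hη2.2]
    calc α u * Real.exp (-u)
        = Real.exp (2 * η) * (α u * (Real.exp (-u) * Real.exp (-(2 * η))) * (1 - η)) / (1 - η) := by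
          rw [eq_div_iff h8.ne']
          linear_combination (-(α u * Real.exp (-u) * (1 - η))) * h7
      _ ≤ Real.exp (2 * η) * (A + η) / (1 - η) := by gcongr
      _ < a := hη1

end Pool.Agent.Lib.PNT
end

-- from Lib.PNT.Dirichlet
section

/-!
# The Wiener-Ikehara theorem for Dirichlet series
-/

open Complex MeasureTheory Filter Topology Set

namespace Pool.Agent.Lib.PNT

/-- The summatory function. -/
noncomputable def summ (a : ℕ → ℝ) (x : ℝ) : ℝ := ∑ k ∈ Finset.Icc 1 ⌊x⌋₊, a k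

theorem summ_mono {a : ℕ → ℝ} (ha : ∀ n, 0 ≤ a n) : Monotone (summ a) := by
  intro x y hxy
  unfold summ
  apply Finset.sum_le_sum_of_subset_of_nonneg
  · exact Finset.Icc_subset_Icc_right (Nat.floor_le_floor hxy)
  · intro i _ _
    exact ha i

theorem summ_nonneg {a : ℕ → ℝ} (ha : ∀ n, 0 ≤ a n) (x : ℝ) : 0 ≤ summ a x :=
  Finset.sum_nonneg fun i _ => ha i

theorem summ_le_rpow {a : ℕ → ℝ} (ha : ∀ n, 0 ≤ a n) {r : ℝ} (hr : 0 ≤ r)
    (hS : LSeriesSummable (fun n => (a n : ℂ)) r) :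
    ∃ C, 0 ≤ C ∧ ∀ x : ℝ, 1 ≤ x → summ a x ≤ C * x ^ r := by
  have h1 : Summable fun n : ℕ => ‖LSeries.term (fun n => (a n : ℂ)) r n‖ := hS.norm
  refine ⟨∑' n : ℕ, ‖LSeries.term (fun n => (a n : ℂ)) r n‖, tsum_nonneg fun n => norm_nonneg _,
    fun x hx => ?_⟩
  have h2 : ∀ k ∈ Finset.Icc 1 ⌊x⌋₊, a k ≤ x ^ r * ‖LSeries.term (fun n => (a n : ℂ)) r k‖ := by
    intro k hk
    rw [Finset.mem_Icc] at hk
    have hk0 : k ≠ 0 := by omega
    have hkpos : (0 : ℝ) < k := by exact_mod_cast hk.1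
    have hkx : (k : ℝ) ≤ x := (Nat.le_floor_iff (by linarith)).mp hk.2
    rw [LSeries.norm_term_eq, if_neg hk0, Complex.norm_real, Real.norm_of_nonneg (ha k), ofReal_re]
    rw [mul_div_assoc', le_div_iff₀ (Real.rpow_pos_of_pos hkpos _), mul_comm]
    exact mul_le_mul_of_nonneg_right (Real.rpow_le_rpow hkpos.le hkx hr) (ha k)
  calc summ a x ≤ ∑ k ∈ Finset.Icc 1 ⌊x⌋₊, x ^ r * ‖LSeries.term (fun n => (a n : ℂ)) r k‖ :=
        Finset.sum_le_sum h2
    _ = x ^ r * ∑ k ∈ Finset.Icc 1 ⌊x⌋₊, ‖LSeries.term (fun n => (a n : ℂ)) r k‖ := by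
        rw [Finset.mul_sum]
    _ ≤ x ^ r * ∑' n : ℕ, ‖LSeries.term (fun n => (a n : ℂ)) r n‖ := by
        apply mul_le_mul_of_nonneg_left _ (by positivity)
        exact h1.sum_le_tsum _ fun i _ => norm_nonneg _
    _ = _ := mul_comm _ _

theorem wiData_of_dirichlet (a : ℕ → ℝ) (ha : ∀ n, 0 ≤ a n) (A : ℝ) (G : ℂ → ℂ)
    (hS : ∀ σ : ℝ, 1 < σ → LSeriesSummable (fun n => (a n : ℂ)) σ)
    (hG : ContinuousOn G {s | 1 ≤ s.re})
    (hE : ∀ s : ℂ, 1 < s.re → LSeries (fun n => (a n : ℂ)) s = G s + A / (s - 1)) :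
    WIData (fun u => summ a (Real.exp u)) A (fun s => (G s - A) / s) where
  mono := by
    intro u _ v _ huv
    exact summ_mono ha (Real.exp_le_exp.mpr huv)
  nonneg := fun u _ => summ_nonneg ha _
  int := by
    intro σ hσ
    obtain ⟨C, hC0, hC⟩ := summ_le_rpow ha (r := (1 + σ) / 2) (by linarith)
      (hS _ (by linarith))
    have hm : Measurable fun u => summ a (Real.exp u) :=
      Monotone.measurable fun u v huv => summ_mono ha (Real.exp_le_exp.mpr huv)
    refine Integrable.mono' (g := fun u => C * Real.exp (-((σ - 1) / 2) * u))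
      ((integrableOn_exp_mul_Ioi (by linarith) 0).const_mul C) ?_ ?_
    · exact Measurable.aestronglyMeasurable (by fun_prop)
    · filter_upwards [ae_restrict_mem measurableSet_Ioi] with u hu
      have hu0 : (0 : ℝ) < u := hu
      rw [Real.norm_of_nonneg (mul_nonneg (summ_nonneg ha _) (Real.exp_pos _).le)]
      have h1 := hC (Real.exp u) (by rw [Real.one_le_exp_iff]; exact hu0.le)
      rw [← Real.exp_mul] at h1
      calc summ a (Real.exp u) * Real.exp (-(σ * u))
          ≤ C * Real.exp (u * ((1 + σ) / 2)) * Real.exp (-(σ * u)) := by gcongr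
        _ = C * Real.exp (-((σ - 1) / 2) * u) := by
            rw [mul_assoc, ← Real.exp_add]; ring_nf
  cont := by
    apply ContinuousOn.div (hG.sub continuousOn_const) continuousOn_id
    intro s hs h0
    have : (1 : ℝ) ≤ s.re := hs
    rw [id] at h0
    rw [h0] at this
    simp at this
    linarith
  lap := by
    intro s hs
    have hs0 : s ≠ 0 := by
      intro h0; rw [h0] at hs; simp at hs; linarith
    have hs1 : s - 1 ≠ 0 := by
      intro h0
      have : s = 1 := by linear_combination h0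
      rw [this] at hs; simp at hs
    obtain ⟨C, hC0, hC⟩ := summ_le_rpow ha (r := (1 + s.re) / 2) (by linarith)
      (hS _ (by linarith))
    have hO : (fun n : ℕ => ∑ k ∈ Finset.Icc 1 n, a k) =O[atTop]
        fun n : ℕ => (n : ℝ) ^ ((1 + s.re) / 2) := by
      apply Asymptotics.IsBigO.of_bound C
      filter_upwards [eventually_ge_atTop 1] with n hn
      have h1 := hC n (by exact_mod_cast hn)
      unfold summ at h1
      rw [Nat.floor_natCast] at h1
      rw [Real.norm_of_nonneg (Finset.sum_nonneg fun i _ => ha i),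
        Real.norm_of_nonneg (by positivity)]
      exact h1
    have h1 := LSeries_eq_mul_integral_of_nonneg a (r := (1 + s.re) / 2) (by linarith)
      (s := s) (by linarith) hO ha
    have h2 := integral_comp_exp_Ioi
      (fun t : ℝ => (∑ k ∈ Finset.Icc 1 ⌊t⌋₊, (a k : ℂ)) * (t : ℂ) ^ (-(s + 1))) 0
    rw [Real.exp_zero] at h2
    rw [← h2] at h1
    have h3 : ∫ x in Ioi (0 : ℝ), Real.exp x • ((∑ k ∈ Finset.Icc 1 ⌊Real.exp x⌋₊, (a k : ℂ)) *
        ((Real.exp x : ℝ) : ℂ) ^ (-(s + 1)))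
        = ∫ u in Ioi (0 : ℝ), ((summ a (Real.exp u) : ℝ) : ℂ) * cexp (-(s * u)) := by
      apply integral_congr_ae
      refine Eventually.of_forall fun u => ?_
      simp only [summ, real_smul]
      push_cast
      have h4 : (cexp u) ^ (-(s + 1)) = cexp (-(s + 1) * u) := by
        rw [← ofReal_exp, Complex.cpow_def_of_ne_zero (by exact_mod_cast (Real.exp_pos u).ne'),
          ← Complex.ofReal_log (Real.exp_pos u).le, Real.log_exp, mul_comm]
      rw [h4]
      have h5 : cexp (-(s * u)) = cexp u * cexp (-(s + 1) * u) := by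
        rw [← Complex.exp_add]; ring_nf
      rw [h5]
      ring
    rw [h3, hE s hs] at h1
    have h6 : ∫ u in Ioi (0 : ℝ), ((summ a (Real.exp u) : ℝ) : ℂ) * cexp (-(s * u))
        = (G s + A / (s - 1)) / s := by
      rw [h1]; field_simp
    rw [h6]
    field_simp
    ring

/-- **Wiener-Ikehara theorem** for Dirichlet series with nonnegative coefficients. -/
theorem wiener_ikehara (a : ℕ → ℝ) (ha : ∀ n, 0 ≤ a n) (A : ℝ) (G : ℂ → ℂ)
    (hS : ∀ σ : ℝ, 1 < σ → LSeriesSummable (fun n => (a n : ℂ)) σ)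
    (hG : ContinuousOn G {s | 1 ≤ s.re})
    (hE : ∀ s : ℂ, 1 < s.re → LSeries (fun n => (a n : ℂ)) s = G s + A / (s - 1)) :
    Tendsto (fun x : ℝ => summ a x / x) atTop (𝓝 A) := by
  have h := (wiData_of_dirichlet a ha A G hS hG hE).tendsto
  refine (h.comp Real.tendsto_log_atTop).congr' ?_
  filter_upwards [eventually_gt_atTop 0] with x hx
  simp only [Function.comp]
  rw [Real.exp_neg, Real.exp_log hx, div_eq_mul_inv]


end Pool.Agent.Lib.PNT
end

-- from Lib.PNT.PNT
section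

/-!
# The prime number theorem, also in arithmetic progressions
-/

open Complex MeasureTheory Filter Topology Set

namespace Pool.Agent.Lib.PNT

/-- Chebyshev's theta function for the primes with property `P`. -/
noncomputable def thetaP (P : ℕ → Prop) [DecidablePred P] (x : ℝ) : ℝ :=
  ∑ p ∈ Finset.Ioc 0 ⌊x⌋₊ with p.Prime ∧ P p, Real.log p


variable {P : ℕ → Prop} [DecidablePred P]

theorem thetaP_nonneg (x : ℝ) : 0 ≤ thetaP P x := by
  unfold thetaP
  apply Finset.sum_nonneg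
  intro p hp
  exact Real.log_natCast_nonneg p

theorem thetaP_mono : Monotone (thetaP P) := by
  intro x y hxy
  unfold thetaP
  apply Finset.sum_le_sum_of_subset_of_nonneg
  · exact Finset.filter_subset_filter _ (Finset.Ioc_subset_Ioc_right (Nat.floor_le_floor hxy))
  · intro i _ _
    exact Real.log_natCast_nonneg i










section AP

variable {q : ℕ} [NeZero q] {a : ZMod q}

open ArithmeticFunction ArithmeticFunction.vonMangoldt

theorem summ_residueClass_tendsto (ha : IsUnit a) :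
    Tendsto (fun x : ℝ => summ (residueClass a) x / x) atTop (𝓝 (q.totient : ℝ)⁻¹) := by
  apply wiener_ikehara _ (fun n => residueClass_nonneg a n) _ (LFunctionResidueClassAux a)
  · intro σ hσ
    apply LSeriesSummable_of_abscissaOfAbsConv_lt_re
    refine (abscissaOfAbsConv_residueClass_le_one a).trans_lt ?_
    rw [ofReal_re]
    exact_mod_cast hσ
  · exact continuousOn_LFunctionResidueClassAux a
  · intro s hs
    have h := eqOn_LFunctionResidueClassAux ha hs
    rw [h]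
    push_cast
    ring

theorem summ_residueClass_sub_thetaP (x : ℝ) :
    |summ (residueClass a) x - thetaP (fun p => (p : ZMod q) = a) x|
      ≤ Chebyshev.psi x - Chebyshev.theta x := by
  have h1 : summ (residueClass a) x - thetaP (fun p => (p : ZMod q) = a) x
      = ∑ n ∈ Finset.Ioc 0 ⌊x⌋₊ with ¬ n.Prime, residueClass a n := by
    unfold summ thetaP
    rw [show Finset.Icc 1 ⌊x⌋₊ = Finset.Ioc 0 ⌊x⌋₊ from rfl,
      ← Finset.sum_filter_add_sum_filter_not (Finset.Ioc 0 ⌊x⌋₊) (fun p => p.Prime)]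
    have : ∑ n ∈ Finset.Ioc 0 ⌊x⌋₊ with n.Prime, residueClass a n
        = ∑ p ∈ Finset.filter (fun p : ℕ => p.Prime ∧ (p : ZMod q) = a) (Finset.Ioc 0 ⌊x⌋₊),
          Real.log p := by
      rw [Finset.sum_filter, Finset.sum_filter]
      apply Finset.sum_congr rfl
      intro p _
      by_cases hp : p.Prime
      · by_cases h2 : (p : ZMod q) = a
        · rw [if_pos hp, if_pos ⟨hp, h2⟩]
          simp only [residueClass]
          rw [Set.indicator_of_mem (by exact h2), vonMangoldt_apply_prime hp]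
        · rw [if_pos hp, if_neg (fun h => h2 h.2)]
          simp only [residueClass]
          rw [Set.indicator_of_notMem (by exact h2)]
      · rw [if_neg hp, if_neg (fun h => hp h.1)]
    rw [this]
    ring
  rw [h1, Chebyshev.psi_sub_theta_eq_sum_not_prime, abs_of_nonneg
    (Finset.sum_nonneg fun n _ => residueClass_nonneg a n)]
  exact Finset.sum_le_sum fun n _ => residueClass_le a n

theorem psi_sub_theta_div_tendsto :
    Tendsto (fun x : ℝ => (Chebyshev.psi x - Chebyshev.theta x) / x) atTop (𝓝 0) := by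
  obtain ⟨C, hC⟩ := Chebyshev.psi_sub_theta_le_mul_sqrt
  have h1 : Tendsto (fun x : ℝ => C * (x ^ (1 / 2 : ℝ))⁻¹) atTop (𝓝 (C * 0)) :=
    ((tendsto_rpow_atTop (by norm_num)).inv_tendsto_atTop).const_mul C
  rw [mul_zero] at h1
  refine squeeze_zero' ?_ ?_ h1
  · filter_upwards [eventually_gt_atTop 0] with x hx
    have := Chebyshev.theta_le_psi x
    exact div_nonneg (by linarith) hx.le
  · filter_upwards [eventually_gt_atTop 0] with x hx
    rw [← Real.sqrt_eq_rpow, div_le_iff₀ hx]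
    refine (hC x).trans (le_of_eq ?_)
    have h2 : √x ≠ 0 := (Real.sqrt_pos.mpr hx).ne'
    have h3 : √x * √x = x := Real.mul_self_sqrt hx.le
    field_simp
    linear_combination C * h3

/-- **Prime number theorem in arithmetic progressions**, theta form. -/
theorem thetaAP_tendsto (ha : IsUnit a) :
    Tendsto (fun x : ℝ => thetaP (fun p => (p : ZMod q) = a) x / x) atTop
      (𝓝 (q.totient : ℝ)⁻¹) := by
  have h1 := summ_residueClass_tendsto ha
  have h2 : Tendsto (fun x : ℝ => (summ (residueClass a) x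
      - thetaP (fun p => (p : ZMod q) = a) x) / x) atTop (𝓝 0) := by
    rw [tendsto_zero_iff_abs_tendsto_zero]
    refine squeeze_zero' (Eventually.of_forall fun x => abs_nonneg _) ?_ psi_sub_theta_div_tendsto
    filter_upwards [eventually_gt_atTop 0] with x hx
    simp only [Function.comp]
    rw [abs_div, abs_of_pos hx]
    exact div_le_div_of_nonneg_right (summ_residueClass_sub_thetaP x) hx.le
  have h3 := h1.sub h2
  rw [sub_zero] at h3
  refine h3.congr fun x => ?_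
  ring



end AP










end Pool.Agent.Lib.PNT
end

-- from Lib.H59X.B1
section

/-!
# Chunk B1: the deterministic polynomial
-/

open Finset Polynomial

namespace Pool.Agent.Lib.H59X

open Pool.Agent.Lib.H59 (argSet argCount Admissible primeCount omegaN seriesTrunc rootCount)
open Pool.Agent.Lib.H68T (lp)
open Pool.Agent.Lib.H33B (Lq Lw PW SieveWt)
open Pool.Agent.Lib.PNT (thetaP thetaAP_tendsto)

theorem B1_PW_pos (U : ℕ) : 0 < PW U := by
  unfold PW
  exact Finset.prod_pos fun p hp => (Nat.prime_of_mem_primesBelow hp).pos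

/-- Proof. The number of the `n ≤ x` in a class modulo `q = PW U` is `x/q + O(1)`; `1 ≤ η X` for large `X`. -/
theorem beq_zero (U : ℕ) (η : ℝ) (hη : 0 < η) : ∃ X₀ : ℕ, ∀ X : ℕ, X₀ ≤ X → BEq 0 1 U X η := by
  obtain ⟨X₀, hX₀⟩ := exists_nat_ge (2 / η)
  refine ⟨X₀, fun X hX x _ v => ?_⟩
  have hq : 0 < PW U := B1_PW_pos U
  have hqR : (0 : ℝ) < (PW U : ℝ) := by exact_mod_cast hq
  have h1 : ∑ n ∈ (Icc 1 x).filter (fun n => n ≡ v [MOD PW U]), bw 0 1 n
      = (#{n ∈ Ioc 0 x | n ≡ v [MOD PW U]} : ℝ) := by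
    unfold bw
    simp only [if_true, sum_const, nsmul_eq_mul, mul_one]
    rfl
  have h2 := Nat.Ioc_filter_modEq_card 0 x hq v
  have h3 : ((#{n ∈ Ioc 0 x | n ≡ v [MOD PW U]} : ℕ) : ℝ)
      = ((max (⌊((x : ℚ) - v) / (PW U : ℚ)⌋ - ⌊(((0 : ℕ) : ℚ) - v) / (PW U : ℚ)⌋) 0 : ℤ) : ℝ) := by
    rw [← h2]; push_cast; rfl
  rw [h1, h3]
  unfold bL
  rw [if_pos rfl, mul_one]
  have hqQ : (0 : ℚ) < (PW U : ℚ) := by exact_mod_cast hq
  set A := ⌊((x : ℚ) - v) / (PW U : ℚ)⌋ with hA
  set B := ⌊(((0 : ℕ) : ℚ) - v) / (PW U : ℚ)⌋ with hB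
  have a1 : (A : ℚ) ≤ ((x : ℚ) - v) / (PW U : ℚ) := Int.floor_le _
  have a2 : ((x : ℚ) - v) / (PW U : ℚ) < A + 1 := Int.lt_floor_add_one _
  have b1 : (B : ℚ) ≤ (((0 : ℕ) : ℚ) - v) / (PW U : ℚ) := Int.floor_le _
  have b2 : (((0 : ℕ) : ℚ) - v) / (PW U : ℚ) < B + 1 := Int.lt_floor_add_one _
  have e : ((x : ℚ) - v) / (PW U : ℚ) - (((0 : ℕ) : ℚ) - v) / (PW U : ℚ) = (x : ℚ) / (PW U : ℚ) := by
    push_cast; ring
  have hx0 : (0 : ℚ) ≤ (x : ℚ) / (PW U : ℚ) := by positivity
  have hm : ((max (A - B) 0 : ℤ) : ℚ) - (x : ℚ) / (PW U : ℚ) ≤ 1 ∧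
      -1 ≤ ((max (A - B) 0 : ℤ) : ℚ) - (x : ℚ) / (PW U : ℚ) := by
    rcases le_total (A - B) 0 with h | h
    · rw [max_eq_right h]
      have h' : (A : ℚ) - B ≤ 0 := by exact_mod_cast h
      constructor
      · push_cast; linarith
      · push_cast; linarith
    · rw [max_eq_left h]
      constructor
      · push_cast; linarith
      · push_cast; linarith
  have hm' : ((max (A - B) 0 : ℤ) : ℝ) - (x : ℝ) / (PW U : ℝ) ≤ 1 ∧
      -1 ≤ ((max (A - B) 0 : ℤ) : ℝ) - (x : ℝ) / (PW U : ℝ) := by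
    have c1 := (Rat.cast_le (K := ℝ)).2 hm.1
    have c2 := (Rat.cast_le (K := ℝ)).2 hm.2
    push_cast at c1 c2
    push_cast
    exact ⟨c1, c2⟩
  rw [abs_le]
  have hbig : 2 ≤ η * X := by
    have h4 : 2 / η ≤ (X : ℝ) := hX₀.trans (by exact_mod_cast hX)
    rw [div_le_iff₀ hη] at h4
    linarith
  constructor <;> linarith [hm'.1, hm'.2]

/-- The uniform prime number theorem for a fixed modulus. -/
theorem B1_theta (m : ℕ) [NeZero m] (ε : ℝ) (hε : 0 < ε) (R : ℝ) (hR : 0 ≤ R) :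
    ∃ T₀ : ℝ, 0 < T₀ ∧ ∀ T : ℝ, T₀ ≤ T → ∀ t : ℝ, -R ≤ t → t ≤ T → ∀ c : ZMod m,
      |thetaP (fun p => (p : ZMod m) = c) t - (if IsUnit c then t / m.totient else 0)| ≤ ε * T := by
  classical
  have hφ : (0 : ℝ) < (m.totient : ℝ) := by exact_mod_cast m.totient.pos_of_neZero
  have hφ1 : (1 : ℝ) ≤ (m.totient : ℝ) := by exact_mod_cast m.totient.pos_of_neZero
  have key : ∀ c : ZMod m, ∃ T₀ : ℝ, 0 < T₀ ∧ ∀ T : ℝ, T₀ ≤ T → ∀ t : ℝ, -R ≤ t → t ≤ T →
      |thetaP (fun p => (p : ZMod m) = c) t - (if IsUnit c then t / m.totient else 0)|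
        ≤ ε * T := by
    intro c
    have hneg : ∀ t : ℝ, t < 0 → thetaP (fun p => (p : ZMod m) = c) t = 0 := by
      intro t ht
      unfold thetaP
      rw [Nat.floor_of_nonpos ht.le]
      simp
    by_cases hc : IsUnit c
    · simp only [if_pos hc]
      have h1 := thetaAP_tendsto hc
      have h2 := (Metric.tendsto_atTop.1 h1) ε hε
      obtain ⟨T1, hT1⟩ := h2
      set C := thetaP (fun p => (p : ZMod m) = c) (max T1 1) + max T1 1 + R with hC
      have hC0 : 0 ≤ thetaP (fun p => (p : ZMod m) = c) (max T1 1) := PNT.thetaP_nonneg _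
      have hm1 : 1 ≤ max T1 1 := le_max_right _ _
      refine ⟨max 1 (C / ε), by positivity, fun T hT t ht1 ht2 => ?_⟩
      have hT1' : 1 ≤ T := (le_max_left _ _).trans hT
      have hCT : C ≤ ε * T := by
        have := (le_max_right _ _).trans hT
        rw [div_le_iff₀ hε] at this
        linarith
      rcases lt_or_ge t 0 with h0 | h0
      · rw [hneg t h0, zero_sub, abs_neg, abs_div, abs_of_neg h0, abs_of_pos hφ,
          div_le_iff₀ hφ]
        have : -t ≤ ε * T := by linarith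
        nlinarith
      · rcases le_total t (max T1 1) with h | h
        · have ha : thetaP (fun p => (p : ZMod m) = c) t
              ≤ thetaP (fun p => (p : ZMod m) = c) (max T1 1) := PNT.thetaP_mono h
          have hb : 0 ≤ thetaP (fun p => (p : ZMod m) = c) t := PNT.thetaP_nonneg _
          have hd : t / (m.totient : ℝ) ≤ t := div_le_self h0 hφ1
          have hd0 : 0 ≤ t / (m.totient : ℝ) := by positivity
          rw [abs_le]
          constructor <;> linarith
        · have h3 := hT1 t ((le_max_left _ _).trans h)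
          rw [Real.dist_eq] at h3
          have ht0 : 0 < t := by linarith
          have e : thetaP (fun p => (p : ZMod m) = c) t - t / (m.totient : ℝ)
              = t * (thetaP (fun p => (p : ZMod m) = c) t / t - (m.totient : ℝ)⁻¹) := by
            field_simp
          rw [e, abs_mul, abs_of_pos ht0]
          calc t * _ ≤ t * ε := mul_le_mul_of_nonneg_left h3.le ht0.le
            _ ≤ ε * T := by nlinarith
    · simp only [if_neg hc, sub_zero]
      set C := ∑ p ∈ m.primeFactors, Real.log p with hC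
      refine ⟨max 1 (C / ε), by positivity, fun T hT t ht1 ht2 => ?_⟩
      have hCT : C ≤ ε * T := by
        have := (le_max_right _ _).trans hT
        rw [div_le_iff₀ hε] at this
        linarith
      rw [abs_of_nonneg (PNT.thetaP_nonneg _)]
      refine le_trans ?_ hCT
      unfold thetaP
      apply Finset.sum_le_sum_of_subset_of_nonneg
      · intro p hp
        rw [mem_filter] at hp
        obtain ⟨_, hp1, hp2⟩ := hp
        rw [Nat.mem_primeFactors]
        refine ⟨hp1, ?_, NeZero.ne m⟩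
        by_contra hd
        apply hc
        rw [← hp2]
        exact (ZMod.isUnit_iff_coprime p m).2 ((Nat.Prime.coprime_iff_not_dvd hp1).2 hd)
      · intro i _ _
        exact Real.log_natCast_nonneg i
  choose T₀ h0 h using key
  refine ⟨∑ c, T₀ c, Finset.sum_pos (fun c _ => h0 c) Finset.univ_nonempty,
    fun T hT t ht1 ht2 c => h c T ?_ t ht1 ht2⟩
  exact (Finset.single_le_sum (f := T₀) (fun c _ => (h0 c).le) (Finset.mem_univ c)).trans hT

theorem B1_floor (z : ℤ) : ⌊(z : ℝ)⌋₊ = z.toNat := by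
  rw [← Int.floor_toNat, Int.floor_intCast]

theorem B1_theta_sub (P : ℕ → Prop) [DecidablePred P] (z₁ z₂ : ℤ) (h : z₁ ≤ z₂) :
    thetaP P (z₂ : ℝ) - thetaP P (z₁ : ℝ) =
      ∑ p ∈ (Ioc z₁.toNat z₂.toNat).filter (fun p => p.Prime ∧ P p), Real.log p := by
  unfold thetaP
  rw [B1_floor, B1_floor, sub_eq_iff_eq_add, ← Finset.sum_union]
  · congr 1
    rw [← Finset.filter_union]
    congr 1
    ext p
    simp only [mem_Ioc, mem_union]
    have : z₁.toNat ≤ z₂.toNat := Int.toNat_le_toNat h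
    omega
  · rw [Finset.disjoint_left]
    intro p hp1 hp2
    simp only [mem_filter, mem_Ioc] at hp1 hp2
    omega

theorem B1_sum (a : ℤ) (ha : 0 < a) (b : ℤ) (q : ℕ) (hq : 0 < q) (x v : ℕ) :
    ∑ n ∈ (Icc 1 x).filter (fun n => n ≡ v [MOD q]), lp (a * n + b) =
      thetaP (fun p => (p : ZMod (a.toNat * q)) = ((a * v + b : ℤ) : ZMod (a.toNat * q)))
        ((a * x + b : ℤ) : ℝ) -
      thetaP (fun p => (p : ZMod (a.toNat * q)) = ((a * v + b : ℤ) : ZMod (a.toNat * q)))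
        ((b : ℤ) : ℝ) := by
  classical
  have haN : ((a.toNat : ℕ) : ℤ) = a := Int.toNat_of_nonneg ha.le
  rw [B1_theta_sub _ _ _ (by nlinarith [Nat.cast_nonneg (α := ℤ) x])]
  unfold H68T.lp
  rw [← Finset.sum_filter, Finset.filter_filter]
  refine Finset.sum_nbij (fun n : ℕ => (a * n + b).toNat) ?_ ?_ ?_ ?_
  · intro n hn
    simp only [mem_filter, mem_Icc, mem_Ioc] at hn ⊢
    obtain ⟨⟨h1, h2⟩, h3, h4⟩ := hn
    have h5 : 0 < (a * n + b).toNat := h4.pos
    have h6 : 0 < a * n + b := by omega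
    have h7 : a * n ≤ a * x := by
      apply mul_le_mul_of_nonneg_left _ ha.le
      exact_mod_cast h2
    have h8 : a * 1 ≤ a * n := by
      apply mul_le_mul_of_nonneg_left _ ha.le
      exact_mod_cast h1
    refine ⟨⟨by omega, by omega⟩, h4, ?_⟩
    have h9 : (((a * n + b).toNat : ℕ) : ZMod (a.toNat * q)) = ((a * n + b : ℤ) : ZMod (a.toNat * q)) := by
      rw [← Int.cast_natCast, Int.toNat_of_nonneg h6.le]
    rw [h9, ZMod.intCast_eq_intCast_iff]
    push_cast
    rw [haN]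
    apply Int.ModEq.add_right
    apply Int.ModEq.mul_left'
    exact_mod_cast h3
  · intro n hn n' hn' hnn
    simp only [coe_filter, Set.mem_ofPred_eq, mem_Icc] at hn hn'
    have h1 := hn.2.2.pos
    have h2 := hn'.2.2.pos
    have h3 : a * n + b = a * n' + b := by
      simp only at hnn
      omega
    have h4 : a * (n : ℤ) = a * (n' : ℤ) := by linarith
    have h5 := mul_left_cancel₀ ha.ne' h4
    exact_mod_cast h5
  · intro p hp
    simp only [coe_filter, Set.mem_ofPred_eq, mem_Ioc] at hp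
    obtain ⟨⟨h1, h2⟩, h3, h4⟩ := hp
    rw [← Int.cast_natCast, ZMod.intCast_eq_intCast_iff] at h4
    push_cast at h4
    rw [haN] at h4
    obtain ⟨k, hk⟩ := h4.symm.dvd
    -- p - (a v + b) = a q k
    have hp : (p : ℤ) = a * (v + q * k) + b := by linarith
    have hpb : b < (p : ℤ) := by omega
    have hpx : (p : ℤ) ≤ a * x + b := by
      have := h3.pos
      omega
    have h5 : 0 < (v : ℤ) + q * k := by
      by_contra hcon
      push Not at hcon
      have := mul_nonpos_of_nonneg_of_nonpos ha.le hcon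
      linarith
    have h6 : (v : ℤ) + q * k ≤ x := by
      have : a * ((v : ℤ) + q * k) ≤ a * x := by linarith
      exact le_of_mul_le_mul_left this ha
    obtain ⟨n, hn⟩ := Int.eq_ofNat_of_zero_le h5.le
    rw [hn] at hp h5 h6
    refine ⟨n, ?_, ?_⟩
    · simp only [coe_filter, Set.mem_ofPred_eq, mem_Icc]
      refine ⟨⟨by omega, by omega⟩, ?_, ?_⟩
      · have : (n : ℤ) ≡ v [ZMOD q] := by
          rw [← hn]
          exact Int.ModEq.symm (Int.modEq_iff_dvd.2 ⟨k, by ring⟩)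
        exact_mod_cast this
      · rw [← hp]; simpa using h3
    · simp only
      rw [← hp]; simp
  · intro n hn
    simp only [mem_filter, mem_Icc] at hn
    have h1 := hn.2.2.pos
    have h2 : 0 < a * n + b := by omega
    have h3 : (((a * n + b).toNat : ℕ) : ℝ) = ((a * n + b : ℤ) : ℝ) := by
      rw [← Int.cast_natCast, Int.toNat_of_nonneg h2.le]
    simp only [h3]

theorem B1_sum_sub (a : ℤ) (ha : 0 < a) (M : ℤ) (q : ℕ) (hq : 0 < q) (x v : ℕ) :
    ∑ n ∈ (Icc 1 x).filter (fun n => n ≡ v [MOD q]), lp (M - a * n) =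
      thetaP (fun p => (p : ZMod (a.toNat * q)) = ((M - a * v : ℤ) : ZMod (a.toNat * q)))
        ((M - 1 : ℤ) : ℝ) -
      thetaP (fun p => (p : ZMod (a.toNat * q)) = ((M - a * v : ℤ) : ZMod (a.toNat * q)))
        ((M - a * x - 1 : ℤ) : ℝ) := by
  classical
  have haN : ((a.toNat : ℕ) : ℤ) = a := Int.toNat_of_nonneg ha.le
  rw [B1_theta_sub _ _ _ (by nlinarith [Nat.cast_nonneg (α := ℤ) x])]
  unfold H68T.lp
  rw [← Finset.sum_filter, Finset.filter_filter]
  refine Finset.sum_nbij (fun n : ℕ => (M - a * n).toNat) ?_ ?_ ?_ ?_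
  · intro n hn
    simp only [mem_filter, mem_Icc, mem_Ioc] at hn ⊢
    obtain ⟨⟨h1, h2⟩, h3, h4⟩ := hn
    have h5 : 0 < (M - a * n).toNat := h4.pos
    have h6 : 0 < M - a * n := by omega
    have h7 : a * n ≤ a * x := by
      apply mul_le_mul_of_nonneg_left _ ha.le
      exact_mod_cast h2
    have h8 : a * 1 ≤ a * n := by
      apply mul_le_mul_of_nonneg_left _ ha.le
      exact_mod_cast h1
    refine ⟨⟨by omega, by omega⟩, h4, ?_⟩
    have h9 : (((M - a * n).toNat : ℕ) : ZMod (a.toNat * q)) = ((M - a * n : ℤ) : ZMod (a.toNat * q)) := by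
      rw [← Int.cast_natCast, Int.toNat_of_nonneg h6.le]
    rw [h9, ZMod.intCast_eq_intCast_iff]
    push_cast
    rw [haN]
    apply Int.ModEq.sub_left
    apply Int.ModEq.mul_left'
    exact_mod_cast h3
  · intro n hn n' hn' hnn
    simp only [coe_filter, Set.mem_ofPred_eq, mem_Icc] at hn hn'
    have h1 := hn.2.2.pos
    have h2 := hn'.2.2.pos
    have h3 : M - a * n = M - a * n' := by
      simp only at hnn
      omega
    have h4 : a * (n : ℤ) = a * (n' : ℤ) := by linarith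
    have h5 := mul_left_cancel₀ ha.ne' h4
    exact_mod_cast h5
  · intro p hp
    simp only [coe_filter, Set.mem_ofPred_eq, mem_Ioc] at hp
    obtain ⟨⟨h1, h2⟩, h3, h4⟩ := hp
    rw [← Int.cast_natCast, ZMod.intCast_eq_intCast_iff] at h4
    push_cast at h4
    rw [haN] at h4
    obtain ⟨k, hk⟩ := h4.dvd
    -- (M - a v) - p = a q k
    have hp : (p : ℤ) = M - a * (v + q * k) := by linarith
    have hpb : (p : ℤ) ≤ M - 1 := by
      have := h3.pos
      omega
    have hpx : M - a * x - 1 < (p : ℤ) := by omega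
    have h5 : 0 < (v : ℤ) + q * k := by
      by_contra hcon
      push Not at hcon
      have := mul_nonpos_of_nonneg_of_nonpos ha.le hcon
      linarith
    have h6 : (v : ℤ) + q * k ≤ x := by
      have : a * ((v : ℤ) + q * k) ≤ a * x := by linarith
      exact le_of_mul_le_mul_left this ha
    obtain ⟨n, hn⟩ := Int.eq_ofNat_of_zero_le h5.le
    rw [hn] at hp h5 h6
    refine ⟨n, ?_, ?_⟩
    · simp only [coe_filter, Set.mem_ofPred_eq, mem_Icc]
      refine ⟨⟨by omega, by omega⟩, ?_, ?_⟩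
      · have : (n : ℤ) ≡ v [ZMOD q] := by
          rw [← hn]
          exact Int.ModEq.symm (Int.modEq_iff_dvd.2 ⟨k, by ring⟩)
        exact_mod_cast this
      · rw [← hp]; simpa using h3
    · simp only
      rw [← hp]; simp
  · intro n hn
    simp only [mem_filter, mem_Icc] at hn
    have h1 := hn.2.2.pos
    have h2 : 0 < M - a * n := by omega
    have h3 : (((M - a * n).toNat : ℕ) : ℝ) = ((M - a * n : ℤ) : ℝ) := by
      rw [← Int.cast_natCast, Int.toNat_of_nonneg h2.le]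
    simp only [h3]

/-- Coprimality and the totient for a modulus `a q` with `a < U`, `q = PW U`. -/
theorem B1_primeFactors (a U : ℕ) (ha : 0 < a) (haU : a < U) :
    (a * PW U).primeFactors = (PW U).primeFactors := by
  have hq := B1_PW_pos U
  rw [Nat.primeFactors_mul ha.ne' hq.ne', Finset.union_eq_right]
  intro p hp
  have hp' := Nat.prime_of_mem_primeFactors hp
  have hle : p ≤ a := Nat.le_of_mem_primeFactors hp
  rw [Nat.mem_primeFactors]
  refine ⟨hp', ?_, hq.ne'⟩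
  unfold PW
  exact Finset.dvd_prod_of_mem _ (Nat.mem_primesBelow.2 ⟨by omega, hp'⟩)

theorem B1_totient (a U : ℕ) (ha : 0 < a) (haU : a < U) :
    (a * PW U).totient = a * (PW U).totient := by
  have h1 := Nat.totient_mul_prod_primeFactors (a * PW U)
  have h2 := Nat.totient_mul_prod_primeFactors (PW U)
  rw [B1_primeFactors a U ha haU] at h1
  have hpos : 0 < ∏ p ∈ (PW U).primeFactors, p :=
    Finset.prod_pos fun p hp => (Nat.prime_of_mem_primeFactors hp).pos
  apply Nat.eq_of_mul_eq_mul_right hpos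
  rw [h1, mul_assoc, mul_assoc, h2]

theorem B1_coprime (a U : ℕ) (ha : 0 < a) (haU : a < U) (m : ℤ) :
    IsUnit ((m : ℤ) : ZMod (a * PW U)) ↔ IsCoprime m (PW U : ℤ) := by
  rw [ZMod.coe_int_isUnit_iff_isCoprime, Int.isCoprime_iff_gcd_eq_one, Int.isCoprime_iff_gcd_eq_one,
    Int.gcd_comm, Int.gcd_eq_natAbs, Int.gcd_eq_natAbs, Int.natAbs_natCast, Int.natAbs_natCast]
  have hq := B1_PW_pos U
  have hb : (0 : ℕ) < a * PW U := Nat.mul_pos ha hq
  constructor
  · intro h
    exact Nat.Coprime.coprime_mul_left_right h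
  · intro h
    by_contra hcon
    obtain ⟨p, hp, h1, h2⟩ := Nat.Prime.not_coprime_iff_dvd.1 hcon
    have h3 : p ∈ (a * PW U).primeFactors := Nat.mem_primeFactors.2 ⟨hp, h2, hb.ne'⟩
    rw [B1_primeFactors a U ha haU] at h3
    have h4 := Nat.dvd_of_mem_primeFactors h3
    exact Nat.Prime.not_coprime_iff_dvd.2 ⟨p, hp, h1, h4⟩ h

/-- A linear polynomial. -/
theorem B1_eval (B : ℤ[X]) (hB : B.natDegree = 1) (n : ℤ) :
    B.eval n = B.leadingCoeff * n + B.coeff 0 := by
  conv_lhs => rw [Polynomial.eq_X_add_C_of_natDegree_le_one hB.le]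
  simp [Polynomial.leadingCoeff, hB]

open Classical in
/-- The main term. -/
theorem B1_main (a U : ℕ) (ha : 0 < a) (haU : a < U) (m : ℤ) (x : ℝ) :
    x / PW U * Lq (PW U) m
      = if IsUnit ((m : ℤ) : ZMod (a * PW U)) then a * x / (a * PW U).totient else 0 := by
  classical
  unfold Lq
  by_cases h : IsCoprime m (PW U : ℤ)
  · rw [if_pos h, if_pos ((B1_coprime a U ha haU m).2 h), B1_totient a U ha haU]
    have hq : (PW U : ℝ) ≠ 0 := by exact_mod_cast (B1_PW_pos U).ne'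
    have hφ : ((PW U).totient : ℝ) ≠ 0 := by
      exact_mod_cast (Nat.totient_pos.2 (B1_PW_pos U)).ne'
    have ha' : (a : ℝ) ≠ 0 := by exact_mod_cast ha.ne'
    push_cast
    field_simp
  · rw [if_neg h, if_neg (fun h' => h ((B1_coprime a U ha haU m).1 h')), mul_zero]

/-- Proof. `B = a x + b`, `a > 0`, `q = PW U`, all prime factors of `a` divide `q` (`a ≤ U`, `a < U`). The `n ≤ x`, `n ≡ v [MOD q]`, with `B(n) = m` prime: `m` runs through the primes
`≡ a v + b` modulo `a q` in `(b, a x + b]` (up to finitely many). If `gcd(a v + b, a q) ≠ 1`, equivalently `gcd(B(v), q) ≠ 1`, then `bL = 0` and only a bounded number of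
primes (divisors of `a q`) occurs; otherwise by the prime number theorem in progressions (`Pool.Agent.Lib.PNT.thetaAP_tendsto`, the fixed modulus `a q`) the sum is
`a x/φ(a q) + o(X) = (x/q)(q/φ(q)) + o(X)` (`φ(a q) = a φ(q)`), uniformly for `x ≤ X` (for `x ≤ η' X` both terms are small). -/
theorem beq_one (B : ℤ[X]) (hB : B.natDegree = 1) (hl : 0 < B.leadingCoeff) (U : ℕ)
    (hU : B.leadingCoeff < U) (η : ℝ) (hη : 0 < η) : ∃ X₀ : ℕ, ∀ X : ℕ, X₀ ≤ X → BEq 1 B U X η := by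
  classical
  set a := B.leadingCoeff with ha
  set b := B.coeff 0 with hb
  have haN : ((a.toNat : ℕ) : ℤ) = a := Int.toNat_of_nonneg hl.le
  have haR : ((a.toNat : ℕ) : ℝ) = (a : ℝ) := by exact_mod_cast congrArg (fun z : ℤ => (z : ℝ)) haN
  have hapos : 0 < a.toNat := by omega
  have haU : a.toNat < U := by omega
  have hq : 0 < PW U := B1_PW_pos U
  have : NeZero (a.toNat * PW U) := ⟨(Nat.mul_pos hapos hq).ne'⟩
  have haR0 : (0 : ℝ) < (a : ℝ) := by exact_mod_cast hl
  set ε := η / (2 * (a + 1)) with hε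
  have hεpos : 0 < ε := by positivity
  obtain ⟨T₀, hT₀, hT⟩ := B1_theta (a.toNat * PW U) ε hεpos (|b| : ℤ) (by positivity)
  obtain ⟨X₀, hX₀⟩ := exists_nat_ge (T₀ + |b| : ℝ)
  refine ⟨max X₀ 1, fun X hX x hx v => ?_⟩
  have hXX : (T₀ + |b| : ℝ) ≤ X := hX₀.trans (by exact_mod_cast (le_max_left _ _).trans hX)
  have h1X : (1 : ℝ) ≤ X := by exact_mod_cast (le_max_right _ _).trans hX
  have e1 : ∑ n ∈ (Icc 1 x).filter (fun n => n ≡ v [MOD PW U]), bw 1 B n
      = ∑ n ∈ (Icc 1 x).filter (fun n => n ≡ v [MOD PW U]), lp (a * n + b) := by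
    apply Finset.sum_congr rfl
    intro n _
    unfold bw
    rw [if_neg one_ne_zero, B1_eval B hB]
  have e2 : bL 1 B (PW U) v = Lq (PW U) (a * v + b) := by
    unfold bL
    rw [if_neg one_ne_zero, B1_eval B hB]
  rw [e1, e2, B1_sum a hl b (PW U) hq x v, B1_main a.toNat U hapos haU]
  set T := (a + 1 : ℝ) * X with hTdef
  have habs : ((|b| : ℤ) : ℝ) = |(b : ℝ)| := by push_cast; rfl
  have hbl := neg_abs_le (b : ℝ)
  have hbu := le_abs_self (b : ℝ)
  have hab0 := abs_nonneg (b : ℝ)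
  have hTT : T₀ ≤ T := by nlinarith
  have hxX : (x : ℝ) ≤ X := by exact_mod_cast hx
  have hx0 : (0 : ℝ) ≤ x := Nat.cast_nonneg x
  have hax : (a : ℝ) * x ≤ a * X := mul_le_mul_of_nonneg_left hxX haR0.le
  have hax0 : 0 ≤ (a : ℝ) * x := by positivity
  have g1 := hT T hTT ((a * x + b : ℤ) : ℝ) (by push_cast; linarith) (by push_cast; nlinarith)
    ((a * v + b : ℤ) : ZMod (a.toNat * PW U))
  have g2 := hT T hTT ((b : ℤ) : ℝ) (by push_cast; linarith) (by nlinarith)
    ((a * v + b : ℤ) : ZMod (a.toNat * PW U))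
  have hfin : 2 * (ε * T) ≤ η * X := by
    rw [hε, hTdef]
    have : (a + 1 : ℝ) ≠ 0 := by positivity
    apply le_of_eq
    field_simp
  rw [abs_le] at g1 g2 ⊢
  by_cases hu : IsUnit ((a * v + b : ℤ) : ZMod (a.toNat * PW U))
  · rw [if_pos hu] at g1 g2 ⊢
    have e3 : (a.toNat : ℝ) * x / ((a.toNat * PW U).totient : ℝ)
        = ((a * x + b : ℤ) : ℝ) / ((a.toNat * PW U).totient : ℝ)
          - ((b : ℤ) : ℝ) / ((a.toNat * PW U).totient : ℝ) := by
      rw [haR]; push_cast; ring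
    rw [e3]
    constructor <;> linarith [g1.1, g1.2, g2.1, g2.2]
  · rw [if_neg hu] at g1 g2 ⊢
    constructor <;> linarith [g1.1, g1.2, g2.1, g2.2]

end Pool.Agent.Lib.H59X
end

-- from Lib.H59X.B2
section

/-!
# Chunk B2: the deterministic polynomial `N - G`, `G` linear
-/

open Finset Polynomial

namespace Pool.Agent.Lib.H59X

open Pool.Agent.Lib.H59 (argSet argCount Admissible primeCount omegaN seriesTrunc rootCount)
open Pool.Agent.Lib.H68T (lp)
open Pool.Agent.Lib.H33B (Lq Lw PW SieveWt)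

/-- Proof. `G = a x + b`, `a > 0`; `X = argCount G N`, for large `N` the largest integer with `a X + b < N` (`H57M.argSet_eq`), so `|N - a X| ≤ |b| + a + 1`. `q = PW U`. For `x ≤ X` the
`n ≤ x`, `n ≡ v [MOD q]`, with `m = N - G(n)` prime correspond to the primes `m ≡ N - b - a v` modulo `a q` with `N - b - a x ≤ m < N - b` (`m > 0`). If `gcd(N - b - a v, q) ≠ 1` then `bL = 0`,
and `m` is one of the prime factors of `a q` (at most `a q` primes, each `log m ≤ log(a q)`). Otherwise the sum of `log m` is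
`θ(N - b - 1; a q, c) - θ(N - b - a x - 1; a q, c) = a x/φ(a q) + o(N)` by the prime number theorem in progressions (`Pool.Agent.Lib.PNT.thetaAP_tendsto`, fixed modulus `a q`, all residues `c`
coprime to `a q` — finitely many, so uniformly; `θ(t) = t/φ + o(N)` uniformly for `t ≤ N`), and `φ(a q) = a φ(q)` as all prime factors of `a` divide `q` (`a < U`). `N ≤ 2 a X`. -/
theorem beq_two (G : ℤ[X]) (hG : G.natDegree = 1) (hl : 0 < G.leadingCoeff) (U : ℕ)
    (hU : G.leadingCoeff < U) (η : ℝ) (hη : 0 < η) :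
    ∃ N₀ : ℕ, ∀ N : ℕ, N₀ ≤ N → BEq 1 (C (N : ℤ) - G) U (argCount G N) η := by
  classical
  set a := G.leadingCoeff with ha
  set b := G.coeff 0 with hb
  have haN : ((a.toNat : ℕ) : ℤ) = a := Int.toNat_of_nonneg hl.le
  have haR : ((a.toNat : ℕ) : ℝ) = (a : ℝ) := by exact_mod_cast congrArg (fun z : ℤ => (z : ℝ)) haN
  have hapos : 0 < a.toNat := by omega
  have haU : a.toNat < U := by omega
  have hq : 0 < PW U := B1_PW_pos U
  have : NeZero (a.toNat * PW U) := ⟨(Nat.mul_pos hapos hq).ne'⟩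
  have haR0 : (0 : ℝ) < (a : ℝ) := by exact_mod_cast hl
  have haR1 : (1 : ℝ) ≤ (a : ℝ) := by exact_mod_cast hl
  set ε := η / (16 * (a + 1)) with hε
  have hεpos : 0 < ε := by positivity
  obtain ⟨T₀, hT₀, hT⟩ := B1_theta (a.toNat * PW U) ε hεpos 1 zero_le_one
  obtain ⟨N₁, hN₁⟩ := Filter.eventually_atTop.1 (Pool.Agent.Lib.H59.argSet_eq (G := G) (by omega) hl)
  obtain ⟨N₂, hN₂⟩ := exists_nat_ge (T₀ + 2 * |b| + 2 * a + 2 : ℝ)
  refine ⟨max N₁ N₂, fun N hN x hx v => ?_⟩
  have hNN : (T₀ + 2 * |b| + 2 * a + 2 : ℝ) ≤ N :=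
    hN₂.trans (by exact_mod_cast (le_max_right _ _).trans hN)
  rw [Int.cast_abs] at hNN
  have hset := hN₁ N ((le_max_left _ _).trans hN)
  set X := argCount G N with hX
  have hbl := neg_abs_le (b : ℝ)
  have hbu := le_abs_self (b : ℝ)
  have hab0 := abs_nonneg (b : ℝ)
  -- `X + 1` is not an argument
  have hX1 : (N : ℝ) - b ≤ a * (X + 1) := by
    have h1 : X + 1 ∉ argSet G N := by
      rw [hset]
      simp
    unfold Pool.Agent.Lib.H59.argSet at h1
    simp only [Set.mem_ofPred_eq, not_and, not_lt] at h1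
    have h2 := h1 (by omega)
    rw [B1_eval G hG] at h2
    have h3 : ((N : ℤ) : ℝ) - ((a * ((X + 1 : ℕ) : ℤ) + b : ℤ) : ℝ) ≤ 0 := by exact_mod_cast h2
    push_cast at h3
    linarith
  have hXpos : 1 ≤ X := by
    by_contra hcon
    have : X = 0 := by omega
    rw [this] at hX1
    push_cast at hX1
    linarith
  -- `X` is an argument
  have hX2 : (a : ℝ) * X + b < N := by
    have h1 : X ∈ argSet G N := by
      rw [hset]
      simp [hXpos]
    unfold Pool.Agent.Lib.H59.argSet at h1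
    simp only [Set.mem_ofPred_eq] at h1
    have h2 := h1.2
    rw [B1_eval G hG] at h2
    have h3 : (0 : ℝ) < ((N : ℤ) : ℝ) - ((a * (X : ℤ) + b : ℤ) : ℝ) := by exact_mod_cast h2
    push_cast at h3
    linarith
  have hev : ∀ n : ℤ, (C (N : ℤ) - G).eval n = (N - b) - a * n := by
    intro n
    rw [Polynomial.eval_sub, B1_eval G hG, Polynomial.eval_C]
    ring
  have e1 : ∑ n ∈ (Icc 1 x).filter (fun n => n ≡ v [MOD PW U]), bw 1 (C (N : ℤ) - G) n
      = ∑ n ∈ (Icc 1 x).filter (fun n => n ≡ v [MOD PW U]), H68T.lp ((N - b) - a * n) := by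
    apply Finset.sum_congr rfl
    intro n _
    unfold bw
    rw [if_neg one_ne_zero, hev]
  have e2 : bL 1 (C (N : ℤ) - G) (PW U) v = Lq (PW U) ((N - b) - a * v) := by
    unfold bL
    rw [if_neg one_ne_zero, hev]
  rw [e1, e2, B1_sum_sub a hl ((N : ℤ) - b) (PW U) hq x v, B1_main a.toNat U hapos haU]
  set T := (2 * N : ℝ) with hTdef
  have hN0 : (0 : ℝ) ≤ N := Nat.cast_nonneg N
  have hTT : T₀ ≤ T := by linarith
  have hxX : (x : ℝ) ≤ X := by exact_mod_cast hx
  have hx0 : (0 : ℝ) ≤ x := Nat.cast_nonneg x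
  have hax : (a : ℝ) * x ≤ a * X := mul_le_mul_of_nonneg_left hxX haR0.le
  have hax0 : 0 ≤ (a : ℝ) * x := by positivity
  have g1 := hT T hTT (((N - b) - 1 : ℤ) : ℝ) (by push_cast; linarith) (by push_cast; linarith)
    (((N - b) - a * v : ℤ) : ZMod (a.toNat * PW U))
  have g2 := hT T hTT (((N - b) - a * x - 1 : ℤ) : ℝ) (by push_cast; linarith)
    (by push_cast; linarith) (((N - b) - a * v : ℤ) : ZMod (a.toNat * PW U))
  have hNX : (N : ℝ) ≤ 4 * (a + 1) * X := by
    have h1 : (1 : ℝ) ≤ X := by exact_mod_cast hXpos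
    nlinarith
  have hfin : 2 * (ε * T) ≤ η * X := by
    have h2 : ε * N ≤ ε * (4 * (a + 1) * X) := mul_le_mul_of_nonneg_left hNX hεpos.le
    have h3 : ε * (4 * (a + 1) * X) = η * X / 4 := by
      rw [hε]
      have : (a + 1 : ℝ) ≠ 0 := by positivity
      field_simp
      norm_num
    rw [hTdef]
    linarith
  rw [abs_le] at g1 g2 ⊢
  by_cases hu : IsUnit (((N - b) - a * v : ℤ) : ZMod (a.toNat * PW U))
  · rw [if_pos hu] at g1 g2 ⊢
    have e3 : (a.toNat : ℝ) * x / ((a.toNat * PW U).totient : ℝ)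
        = (((N - b) - 1 : ℤ) : ℝ) / ((a.toNat * PW U).totient : ℝ)
          - (((N - b) - a * x - 1 : ℤ) : ℝ) / ((a.toNat * PW U).totient : ℝ) := by
      rw [haR]; push_cast; ring
    rw [e3]
    constructor <;> linarith [g1.1, g1.2, g2.1, g2.2]
  · rw [if_neg hu] at g1 g2 ⊢
    constructor <;> linarith [g1.1, g1.2, g2.1, g2.2]

end Pool.Agent.Lib.H59X
end

-- from Lib.H59X.F1A
section

/-!
# Chunk F1A: Chebyshev type bounds
-/

open Finset Polynomial

namespace Pool.Agent.Lib.H59X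

open Pool.Agent.Lib.H59 (argSet argCount Admissible primeCount omegaN seriesTrunc rootCount)
open Pool.Agent.Lib.H68T (lp)
open Pool.Agent.Lib.H33B (Lq Lw PW SieveWt)

theorem f1a_theta (m : ℕ) : ∑ p ∈ (Icc 1 m).filter Nat.Prime, Real.log p ≤ Real.log 4 * m := by
  have h1 := Chebyshev.theta_le_log4_mul_x (x := (m : ℝ)) (Nat.cast_nonneg m)
  have h2 : ∑ p ∈ (Icc 1 m).filter Nat.Prime, Real.log p = Chebyshev.theta (m : ℝ) := by
    unfold Chebyshev.theta
    rw [Nat.floor_natCast]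
    refine sum_congr ?_ fun _ _ => rfl
    ext p
    simp only [mem_filter, mem_Icc, mem_Ioc]
    constructor
    · rintro ⟨⟨h1, h2⟩, h3⟩
      exact ⟨⟨by omega, h2⟩, h3⟩
    · rintro ⟨⟨h1, h2⟩, h3⟩
      exact ⟨⟨by omega, h2⟩, h3⟩
  rw [h2]
  exact h1

theorem f1a_key (d X m : ℕ) (hX : 1 ≤ X) :
    ∑ p ∈ (Icc 1 m).filter Nat.Prime, (d * Real.log X + Real.log p) ≤
      d * (√(X : ℝ) * Real.log X) + (2 * d + 1) * (Real.log 4 * m) := by
  classical
  have hlX : 0 ≤ Real.log X := Real.log_natCast_nonneg X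
  have h1 : ∀ p ∈ (Icc 1 m).filter Nat.Prime, (d * Real.log X + Real.log p) ≤
      (if p ≤ Nat.sqrt X then d * Real.log X else 0) + (2 * d + 1) * Real.log p := by
    intro p hp
    have hpp := (mem_filter.1 hp).2
    have hlp : 0 ≤ Real.log p := Real.log_natCast_nonneg p
    by_cases h : p ≤ Nat.sqrt X
    · rw [if_pos h]
      nlinarith [mul_nonneg (Nat.cast_nonneg d : (0 : ℝ) ≤ d) hlp]
    · rw [if_neg h, zero_add]
      have h2 : X < p ^ 2 := Nat.sqrt_lt'.1 (not_le.1 h)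
      have h3 : Real.log X ≤ 2 * Real.log p := by
        rw [← Nat.cast_ofNat, ← Real.log_pow]
        refine Real.log_le_log (by exact_mod_cast hX) ?_
        exact_mod_cast h2.le
      nlinarith [mul_le_mul_of_nonneg_left h3 (Nat.cast_nonneg d : (0 : ℝ) ≤ d)]
  refine (sum_le_sum h1).trans ?_
  rw [sum_add_distrib, ← mul_sum]
  have h4 : ∑ p ∈ (Icc 1 m).filter Nat.Prime, (if p ≤ Nat.sqrt X then d * Real.log X else 0) ≤
      d * (√(X : ℝ) * Real.log X) := by
    rw [← sum_filter, sum_const, nsmul_eq_mul]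
    have h5 : ((((Icc 1 m).filter Nat.Prime).filter fun p => p ≤ Nat.sqrt X).card : ℝ) ≤ √(X : ℝ) := by
      have h6 : (((Icc 1 m).filter Nat.Prime).filter fun p => p ≤ Nat.sqrt X).card ≤ Nat.sqrt X := by
        have h7 : ((Icc 1 m).filter Nat.Prime).filter (fun p => p ≤ Nat.sqrt X) ⊆ Icc 1 (Nat.sqrt X) := by
          intro p hp
          rw [mem_filter, mem_filter, mem_Icc] at hp
          exact mem_Icc.2 ⟨hp.1.1.1, hp.2⟩
        have h8 := card_le_card h7
        rwa [Nat.card_Icc, Nat.add_sub_cancel] at h8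
      exact (by exact_mod_cast h6 : (((((Icc 1 m).filter Nat.Prime).filter fun p => p ≤ Nat.sqrt X).card : ℕ) : ℝ) ≤
        (Nat.sqrt X : ℝ)).trans Real.nat_sqrt_le_real_sqrt
    have h9 : 0 ≤ d * Real.log X := by positivity
    calc _ ≤ √(X : ℝ) * (d * Real.log X) := mul_le_mul_of_nonneg_right h5 h9
      _ = _ := by ring
  have h10 : (2 * (d : ℝ) + 1) * ∑ p ∈ (Icc 1 m).filter Nat.Prime, Real.log p ≤
      (2 * d + 1) * (Real.log 4 * m) := mul_le_mul_of_nonneg_left (f1a_theta m) (by positivity)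
  exact add_le_add h4 h10

/-- Proof. `π(t) ≤ C t/log t` (`t ≥ 2`), `θ(t) ≤ C t` (Chebyshev, Mathlib or `H33B.sum_lp_le`). Second sum: `π(m₀) ≤ C (C₁ X^d)/log(C₁ X^d)`, `log m ≤ log(C₁ X^d)`. First sum: let `δ > 0` be small in terms of `η`. The primes
`m ≥ δ X^d` satisfy `|d log X - log m| ≤ log C₁ + log(1/δ)`, at most `C' X^d/log X` primes. The primes `m < δ X^d` contribute at most `(d log X + log(δ X^d)) π(δ X^d) ≤ C'' δ X^d` for large
`X` (`log(δ X^d) ≥ (d/2) log X`). -/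
theorem cheb_pow (d : ℕ) (hd : 1 ≤ d) (C₁ : ℝ) (hC₁ : 1 ≤ C₁) : ∃ C₂ : ℝ, 0 < C₂ ∧ ∀ η : ℝ, 0 < η →
    ∃ X₀ : ℕ, ∀ X : ℕ, X₀ ≤ X → ∀ m₀ : ℕ, (m₀ : ℝ) ≤ C₁ * (X : ℝ) ^ d →
    ∑ m ∈ (Icc 1 m₀).filter Nat.Prime, |d * Real.log X - Real.log m| ≤ η * (X : ℝ) ^ d ∧
    ∑ m ∈ (Icc 1 m₀).filter Nat.Prime, (d * Real.log X + Real.log m) ≤ C₂ * (X : ℝ) ^ d := by
  classical
  have hl4 : 0 < Real.log 4 := Real.log_pos (by norm_num)
  have hd0 : (0 : ℝ) < d := by exact_mod_cast hd
  have hC0 : 0 < C₁ := by linarith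
  refine ⟨2 * d + (2 * d + 1) * (Real.log 4 * C₁), by positivity, ?_⟩
  intro η hη
  set C₂ := 2 * (d : ℝ) + (2 * d + 1) * (Real.log 4 * C₁) with hC₂
  have hC₂0 : 0 < C₂ := by positivity
  set δ := min 1 (η / (4 * ((2 * d + 1) * Real.log 4))) with hδ
  have hδ0 : 0 < δ := lt_min one_pos (by positivity)
  have hδ1 : δ ≤ 1 := min_le_left _ _
  have hδ2 : (2 * d + 1) * (Real.log 4 * δ) ≤ η / 4 := by
    have h1 : δ ≤ η / (4 * ((2 * d + 1) * Real.log 4)) := min_le_right _ _
    have h2 : (2 * d + 1) * (Real.log 4 * δ) = ((2 * d + 1) * Real.log 4) * δ := by ring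
    rw [h2]
    calc ((2 * d + 1) * Real.log 4) * δ ≤ ((2 * d + 1) * Real.log 4) * (η / (4 * ((2 * d + 1) * Real.log 4))) :=
          mul_le_mul_of_nonneg_left h1 (by positivity)
      _ = η / 4 := by field_simp
  set K := Real.log C₁ + Real.log (1 / δ) with hK
  have hlC : 0 ≤ Real.log C₁ := Real.log_nonneg hC₁
  have hlδ : 0 ≤ Real.log (1 / δ) := Real.log_nonneg (by rw [le_div_iff₀ hδ0]; linarith)
  have hK0 : 0 ≤ K := add_nonneg hlC hlδ
  have ev1 : ∀ᶠ x : ℝ in Filter.atTop, d * (√x * Real.log x) ≤ η / 4 * x := by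
    have h1 := (isLittleO_log_rpow_atTop (show (0 : ℝ) < 1 / 2 by norm_num)).bound
      (show (0 : ℝ) < η / (4 * d) by positivity)
    filter_upwards [h1, Filter.eventually_ge_atTop (1 : ℝ)] with x hx hx1
    rw [Real.norm_eq_abs, Real.norm_eq_abs, abs_of_nonneg (Real.log_nonneg hx1),
      abs_of_nonneg (by positivity), ← Real.sqrt_eq_rpow] at hx
    calc d * (√x * Real.log x) ≤ d * (√x * (η / (4 * d) * √x)) :=
          mul_le_mul_of_nonneg_left (mul_le_mul_of_nonneg_left hx (Real.sqrt_nonneg _)) hd0.le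
      _ = η / 4 * (√x * √x) := by field_simp
      _ = η / 4 * x := by rw [Real.mul_self_sqrt (by linarith)]
  have ev2 : ∀ᶠ x : ℝ in Filter.atTop, 2 * K * C₂ / (d * η) + 1 ≤ Real.log x :=
    Real.tendsto_log_atTop.eventually_ge_atTop _
  obtain ⟨X₀, hX₀⟩ := Filter.eventually_atTop.1
    ((tendsto_natCast_atTop_atTop (R := ℝ)).eventually ((ev1.and ev2).and (Filter.eventually_ge_atTop (1 : ℝ))))
  refine ⟨X₀, ?_⟩
  intro X hX m₀ hm₀
  obtain ⟨⟨h1, h2⟩, h3⟩ := hX₀ X hX
  have hX1 : 1 ≤ X := by exact_mod_cast h3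
  have hXd : (X : ℝ) ≤ (X : ℝ) ^ d := le_self_pow₀ h3 (by omega)
  have hXd0 : (0 : ℝ) < (X : ℝ) ^ d := by positivity
  have hlX : 1 ≤ Real.log X := by
    have : 0 ≤ 2 * K * C₂ / (d * η) := by positivity
    linarith
  have second : ∑ m ∈ (Icc 1 m₀).filter Nat.Prime, (d * Real.log X + Real.log m) ≤ C₂ * (X : ℝ) ^ d := by
    refine (f1a_key d X m₀ hX1).trans ?_
    have k1 : √(X : ℝ) * Real.log X ≤ 2 * X := by
      have k2 : Real.log X ≤ 2 * √(X : ℝ) := by
        have k3 : Real.log X = 2 * Real.log (√(X : ℝ)) := by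
          rw [Real.log_sqrt (by positivity)]
          ring
        have k4 := Real.log_le_sub_one_of_pos (show 0 < √(X : ℝ) by positivity)
        rw [k3]
        linarith
      calc √(X : ℝ) * Real.log X ≤ √(X : ℝ) * (2 * √(X : ℝ)) :=
            mul_le_mul_of_nonneg_left k2 (Real.sqrt_nonneg _)
        _ = 2 * (√(X : ℝ) * √(X : ℝ)) := by ring
        _ = 2 * X := by rw [Real.mul_self_sqrt (by positivity)]
    have k5 : d * (√(X : ℝ) * Real.log X) ≤ d * (2 * (X : ℝ) ^ d) :=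
      mul_le_mul_of_nonneg_left (k1.trans (by linarith)) hd0.le
    have k6 : (2 * (d : ℝ) + 1) * (Real.log 4 * m₀) ≤ (2 * d + 1) * (Real.log 4 * (C₁ * (X : ℝ) ^ d)) :=
      mul_le_mul_of_nonneg_left (mul_le_mul_of_nonneg_left hm₀ hl4.le) (by positivity)
    refine (add_le_add k5 k6).trans (le_of_eq ?_)
    rw [hC₂]
    ring
  refine ⟨?_, second⟩
  rw [← sum_filter_add_sum_filter_not _ (fun m : ℕ => (m : ℝ) ≤ δ * (X : ℝ) ^ d)]
  have small : ∑ m ∈ ((Icc 1 m₀).filter Nat.Prime).filter (fun m : ℕ => (m : ℝ) ≤ δ * (X : ℝ) ^ d),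
      |d * Real.log X - Real.log m| ≤ η / 2 * (X : ℝ) ^ d := by
    set m₁ := ⌊δ * (X : ℝ) ^ d⌋₊ with hm₁
    have s1 : ∑ m ∈ ((Icc 1 m₀).filter Nat.Prime).filter (fun m : ℕ => (m : ℝ) ≤ δ * (X : ℝ) ^ d),
        |d * Real.log X - Real.log m| ≤ ∑ m ∈ (Icc 1 m₁).filter Nat.Prime, (d * Real.log X + Real.log m) := by
      have s2 : ∑ m ∈ ((Icc 1 m₀).filter Nat.Prime).filter (fun m : ℕ => (m : ℝ) ≤ δ * (X : ℝ) ^ d),
          |d * Real.log X - Real.log m| ≤
          ∑ m ∈ ((Icc 1 m₀).filter Nat.Prime).filter (fun m : ℕ => (m : ℝ) ≤ δ * (X : ℝ) ^ d),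
          (d * Real.log X + Real.log m) := by
        refine sum_le_sum fun m _ => ?_
        have t1 : 0 ≤ d * Real.log X := by positivity
        have t2 : 0 ≤ Real.log m := Real.log_natCast_nonneg m
        rw [abs_le]
        constructor <;> linarith
      refine s2.trans ?_
      refine sum_le_sum_of_subset_of_nonneg ?_ ?_
      · intro m hm
        rw [mem_filter, mem_filter, mem_Icc] at hm
        rw [mem_filter, mem_Icc]
        exact ⟨⟨hm.1.1.1, Nat.le_floor hm.2⟩, hm.1.2⟩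
      · intro m _ _
        have t1 : 0 ≤ d * Real.log X := by positivity
        have t2 : 0 ≤ Real.log m := Real.log_natCast_nonneg m
        linarith
    refine s1.trans ((f1a_key d X m₁ hX1).trans ?_)
    have s3 : (m₁ : ℝ) ≤ δ * (X : ℝ) ^ d := Nat.floor_le (by positivity)
    have s4 : (2 * (d : ℝ) + 1) * (Real.log 4 * m₁) ≤ η / 4 * (X : ℝ) ^ d := by
      calc (2 * (d : ℝ) + 1) * (Real.log 4 * m₁) ≤ (2 * d + 1) * (Real.log 4 * (δ * (X : ℝ) ^ d)) :=
            mul_le_mul_of_nonneg_left (mul_le_mul_of_nonneg_left s3 hl4.le) (by positivity)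
        _ = ((2 * d + 1) * (Real.log 4 * δ)) * (X : ℝ) ^ d := by ring
        _ ≤ η / 4 * (X : ℝ) ^ d := mul_le_mul_of_nonneg_right hδ2 hXd0.le
    have s5 : d * (√(X : ℝ) * Real.log X) ≤ η / 4 * (X : ℝ) ^ d :=
      h1.trans (mul_le_mul_of_nonneg_left hXd (by positivity))
    linarith
  have large : ∑ m ∈ ((Icc 1 m₀).filter Nat.Prime).filter (fun m : ℕ => ¬ (m : ℝ) ≤ δ * (X : ℝ) ^ d),
      |d * Real.log X - Real.log m| ≤ η / 2 * (X : ℝ) ^ d := by
    have l1 : ∀ m ∈ ((Icc 1 m₀).filter Nat.Prime).filter (fun m : ℕ => ¬ (m : ℝ) ≤ δ * (X : ℝ) ^ d),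
        |d * Real.log X - Real.log m| ≤ K := by
      intro m hm
      rw [mem_filter, mem_filter, mem_Icc, not_le] at hm
      obtain ⟨⟨⟨hm1, hm2⟩, hmp⟩, hm3⟩ := hm
      have hm0 : (0 : ℝ) < m := by exact_mod_cast hm1
      have e1 : Real.log (C₁ * (X : ℝ) ^ d) = Real.log C₁ + d * Real.log X := by
        rw [Real.log_mul hC0.ne' hXd0.ne', Real.log_pow]
      have e2 : Real.log (δ * (X : ℝ) ^ d) = -Real.log (1 / δ) + d * Real.log X := by
        rw [Real.log_mul hδ0.ne' hXd0.ne', Real.log_pow, one_div, Real.log_inv, neg_neg]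
      have l2 : Real.log m ≤ Real.log (C₁ * (X : ℝ) ^ d) := by
        refine Real.log_le_log hm0 (le_trans ?_ hm₀)
        exact_mod_cast hm2
      have l3 : Real.log (δ * (X : ℝ) ^ d) ≤ Real.log m := Real.log_le_log (by positivity) hm3.le
      rw [e1] at l2
      rw [e2] at l3
      rw [abs_le, hK]
      constructor <;> linarith
    have l4 : ((((Icc 1 m₀).filter Nat.Prime).filter (fun m : ℕ => ¬ (m : ℝ) ≤ δ * (X : ℝ) ^ d)).card : ℝ) *
        (d * Real.log X) ≤ C₂ * (X : ℝ) ^ d := by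
      refine le_trans ?_ second
      rw [← nsmul_eq_mul, ← sum_const]
      refine (sum_le_sum_of_subset_of_nonneg (filter_subset _ _) ?_).trans ?_
      · intro m _ _
        positivity
      · refine sum_le_sum fun m _ => ?_
        have t2 : 0 ≤ Real.log m := Real.log_natCast_nonneg m
        linarith
    refine (sum_le_card_nsmul _ _ _ l1).trans ?_
    rw [nsmul_eq_mul]
    set c : ℝ := ((((Icc 1 m₀).filter Nat.Prime).filter (fun m : ℕ => ¬ (m : ℝ) ≤ δ * (X : ℝ) ^ d)).card : ℝ)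
      with hc
    have hc0 : 0 ≤ c := Nat.cast_nonneg _
    have l5 : 2 * K * C₂ ≤ Real.log X * (d * η) := by
      have : 2 * K * C₂ / (d * η) ≤ Real.log X := by linarith
      rwa [div_le_iff₀ (by positivity)] at this
    -- `c K · 2 d log X ≤ 2 K C₂ X^d ≤ log X d η X^d`
    have l6 : c * K * (2 * (d * Real.log X)) ≤ (η / 2 * (X : ℝ) ^ d) * (2 * (d * Real.log X)) := by
      calc c * K * (2 * (d * Real.log X)) = 2 * K * (c * (d * Real.log X)) := by ring
        _ ≤ 2 * K * (C₂ * (X : ℝ) ^ d) := mul_le_mul_of_nonneg_left l4 (by positivity)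
        _ = (2 * K * C₂) * (X : ℝ) ^ d := by ring
        _ ≤ (Real.log X * (d * η)) * (X : ℝ) ^ d := mul_le_mul_of_nonneg_right l5 hXd0.le
        _ = (η / 2 * (X : ℝ) ^ d) * (2 * (d * Real.log X)) := by ring
    exact le_of_mul_le_mul_right l6 (by positivity)
  linarith

end Pool.Agent.Lib.H59X
end

-- from Lib.H59X.F1B
section

/-!
# Chunk F1B: Chebyshev type bounds at polynomial values
-/

open Finset Polynomial

namespace Pool.Agent.Lib.H59X

open Pool.Agent.Lib.H59 (argSet argCount Admissible primeCount omegaN seriesTrunc rootCount)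
open Pool.Agent.Lib.H68T (lp)
open Pool.Agent.Lib.H33B (Lq Lw PW SieveWt)

/-- Sums over the prime values of `a + h`. -/
theorem f1b_sum (a : ℤ) (H : ℕ) (f : ℕ → ℝ) (hf : ∀ m, 0 ≤ f m) :
    ∑ h ∈ Icc 1 H, (if (a + h).toNat.Prime then f (a + h).toNat else 0) ≤
      ∑ m ∈ (Icc 1 (a + H).toNat).filter Nat.Prime, f m := by
  classical
  rw [← sum_filter]
  have hinj : Set.InjOn (fun h : ℕ => (a + h).toNat) ((Icc 1 H).filter fun h : ℕ => (a + h).toNat.Prime) := by
    intro h hh h' hh' heq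
    rw [Finset.mem_coe, mem_filter] at hh hh'
    have h1 := hh.2.pos
    have h2 := hh'.2.pos
    simp only at heq
    omega
  rw [← sum_image (f := f) (g := fun h : ℕ => (a + h).toNat) hinj]
  refine sum_le_sum_of_subset_of_nonneg ?_ fun m _ _ => hf m
  intro m hm
  rw [mem_image] at hm
  obtain ⟨h, hh, rfl⟩ := hm
  rw [mem_filter, mem_Icc] at hh
  rw [mem_filter, mem_Icc]
  have h1 := hh.2.pos
  refine ⟨⟨h1, ?_⟩, hh.2⟩
  have h2 := hh.1.2
  omega

theorem f1b_cast {m : ℤ} (h : m.toNat.Prime) : (m : ℝ) = (m.toNat : ℝ) := by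
  have h1 := h.pos
  have h2 : (m.toNat : ℤ) = m := Int.toNat_of_nonneg (by omega)
  calc (m : ℝ) = ((m.toNat : ℤ) : ℝ) := by rw [h2]
    _ = (m.toNat : ℝ) := by norm_cast

theorem f1b_abs (c : ℝ) (m : ℤ) : |c * pr m - lp m| = if m.toNat.Prime then |c - Real.log m.toNat| else 0 := by
  unfold pr H68T.lp
  by_cases h : m.toNat.Prime
  · rw [if_pos h, if_pos h, if_pos h, mul_one, f1b_cast h]
  · rw [if_neg h, if_neg h, if_neg h, mul_zero, sub_zero, abs_zero]

theorem f1b_add (c : ℝ) (m : ℤ) : c * pr m + lp m = if m.toNat.Prime then c + Real.log m.toNat else 0 := by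
  unfold pr H68T.lp
  by_cases h : m.toNat.Prime
  · rw [if_pos h, if_pos h, if_pos h, mul_one, f1b_cast h]
  · rw [if_neg h, if_neg h, if_neg h, mul_zero, add_zero]

theorem f1b_two (a : ℤ) (H : ℕ) (c : ℝ) (hc : 0 ≤ c) :
    ∑ h ∈ Icc 1 H, |c * pr (a + h) - lp (a + h)| ≤
      ∑ m ∈ (Icc 1 (a + H).toNat).filter Nat.Prime, |c - Real.log m| ∧
    ∑ h ∈ Icc 1 H, (c * pr (a + h) + lp (a + h)) ≤
      ∑ m ∈ (Icc 1 (a + H).toNat).filter Nat.Prime, (c + Real.log m) := by
  constructor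
  · rw [sum_congr rfl fun (h : ℕ) _ => f1b_abs c (a + h)]
    exact f1b_sum a H (fun m => |c - Real.log m|) fun m => abs_nonneg _
  · rw [sum_congr rfl fun (h : ℕ) _ => f1b_add c (a + h)]
    exact f1b_sum a H (fun m => c + Real.log m) fun m => add_nonneg hc (Real.log_natCast_nonneg m)

/-- Proof. `m = P(n) + h` runs through different integers `≤ (coeffSum P + C₁) X^d` (`H59.eval_le_coeffSum`); only primes count (`lp`, `pr` are `0` otherwise). `cheb_pow` with `C₁ := coeffSum P + C₁`, `η/C₁`;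
`X^d ≤ C₁ H`. -/
theorem cheb_shift (P : ℤ[X]) (hk : 1 ≤ P.natDegree) (hl : 0 < P.leadingCoeff) (C₁ : ℝ)
    (hC₁ : 1 ≤ C₁) : ∃ C₂ : ℝ, 0 < C₂ ∧ ∀ η : ℝ, 0 < η → ∃ X₀ : ℕ, ∀ X : ℕ, X₀ ≤ X →
    ∀ H : ℕ, (X : ℝ) ^ P.natDegree ≤ C₁ * H → (H : ℝ) ≤ C₁ * (X : ℝ) ^ P.natDegree → ∀ n ∈ Icc 1 X,
    ∑ h ∈ Icc 1 H, |P.natDegree * Real.log X * pr (P.eval (n : ℤ) + h) - lp (P.eval (n : ℤ) + h)| ≤
      η * H ∧
    ∑ h ∈ Icc 1 H, (P.natDegree * Real.log X * pr (P.eval (n : ℤ) + h) + lp (P.eval (n : ℤ) + h)) ≤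
      C₂ * H := by
  have hcs : (0 : ℝ) ≤ Pool.Agent.Lib.H59.coeffSum P := sum_nonneg fun _ _ => abs_nonneg _
  obtain ⟨K, hK, hmain⟩ := cheb_pow P.natDegree hk (Pool.Agent.Lib.H59.coeffSum P + C₁) (by linarith)
  refine ⟨K * C₁, by positivity, fun η hη => ?_⟩
  obtain ⟨X₀, hX₀⟩ := hmain (η / C₁) (by positivity)
  refine ⟨X₀, fun X hX H hH1 hH2 n hn => ?_⟩
  rw [mem_Icc] at hn
  have hm : ((P.eval (n : ℤ) + H).toNat : ℝ) ≤ (Pool.Agent.Lib.H59.coeffSum P + C₁) * (X : ℝ) ^ P.natDegree := by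
    have h1 : ((P.eval (n : ℤ) : ℤ) : ℝ) ≤ Pool.Agent.Lib.H59.coeffSum P * (n : ℝ) ^ P.natDegree :=
      Pool.Agent.Lib.H59.eval_le_coeffSum P hn.1
    have h2 : ((n : ℝ)) ^ P.natDegree ≤ (X : ℝ) ^ P.natDegree :=
      pow_le_pow_left₀ (Nat.cast_nonneg n) (by exact_mod_cast hn.2) _
    have h3 := mul_le_mul_of_nonneg_left h2 hcs
    have h4 : (0 : ℝ) ≤ (Pool.Agent.Lib.H59.coeffSum P + C₁) * (X : ℝ) ^ P.natDegree := by positivity
    rcases le_or_gt (P.eval (n : ℤ) + H) 0 with h5 | h5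
    · rw [Int.toNat_of_nonpos h5, Nat.cast_zero]
      exact h4
    · have h6 : (((P.eval (n : ℤ) + H).toNat : ℕ) : ℤ) = P.eval (n : ℤ) + H := Int.toNat_of_nonneg h5.le
      have h7 : ((P.eval (n : ℤ) + H).toNat : ℝ) = ((P.eval (n : ℤ) : ℤ) : ℝ) + H := by
        have h8 : ((((P.eval (n : ℤ) + H).toNat : ℕ) : ℤ) : ℝ) = ((P.eval (n : ℤ) + H : ℤ) : ℝ) := by rw [h6]
        push_cast at h8
        exact h8
      rw [h7]
      linarith
  obtain ⟨h1, h2⟩ := hX₀ X hX _ hm
  have hc : (0 : ℝ) ≤ P.natDegree * Real.log X := mul_nonneg (Nat.cast_nonneg _) (Real.log_natCast_nonneg _)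
  obtain ⟨h3, h4⟩ := f1b_two (P.eval (n : ℤ)) H (P.natDegree * Real.log X) hc
  constructor
  · refine h3.trans (h1.trans ?_)
    have h5 : η / C₁ * (X : ℝ) ^ P.natDegree ≤ η / C₁ * (C₁ * H) := mul_le_mul_of_nonneg_left hH1 (by positivity)
    refine h5.trans (le_of_eq ?_)
    field_simp
  · refine h4.trans (h2.trans ?_)
    have h5 : K * (X : ℝ) ^ P.natDegree ≤ K * (C₁ * H) := mul_le_mul_of_nonneg_left hH1 hK.le
    linarith

/-- Proof. `X = argCount G Y`, `k = deg G`. `m = N - G(n) ≤ Y + c` (`H33B.ENG_low`) and `Y + c ≤ C₁ X^k` for large `Y` (`H33B.argCount_pow`); different `N` give different `m`. `cheb_pow` with `d = k`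
(`X → ∞` with `Y`); `X^k ≤ C Y`. -/
theorem cheb_N (G : ℤ[X]) (hG : 1 ≤ G.natDegree) (hlc : 0 < G.leadingCoeff) :
    ∃ C₂ : ℝ, 0 < C₂ ∧ ∀ η : ℝ, 0 < η → ∃ Y₀ : ℕ, ∀ Y : ℕ, Y₀ ≤ Y → ∀ n : ℕ,
    ∑ N ∈ Icc 1 Y, |G.natDegree * Real.log (argCount G Y) * pr ((N : ℤ) - G.eval (n : ℤ)) -
      lp ((N : ℤ) - G.eval (n : ℤ))| ≤ η * Y ∧
    ∑ N ∈ Icc 1 Y, (G.natDegree * Real.log (argCount G Y) * pr ((N : ℤ) - G.eval (n : ℤ)) +
      lp ((N : ℤ) - G.eval (n : ℤ))) ≤ C₂ * Y := by
  have hlc1 : (1 : ℝ) ≤ G.leadingCoeff := by exact_mod_cast hlc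
  obtain ⟨K, hK, hmain⟩ := cheb_pow G.natDegree hG (4 * G.leadingCoeff) (by linarith)
  obtain ⟨c, hc⟩ := H33B.ENG_low G hG hlc
  have hpow := H33B.argCount_pow G hG hlc
  have hlt : ((2 * G.leadingCoeff : ℝ))⁻¹ < ((G.leadingCoeff : ℝ))⁻¹ := by
    apply inv_strictAnti₀ (by linarith)
    linarith
  have hgt : ((G.leadingCoeff : ℝ))⁻¹ < 2 := by
    have := inv_le_one_of_one_le₀ hlc1
    linarith
  obtain ⟨Y₁, hY₁⟩ := Filter.eventually_atTop.1 ((hpow.eventually_const_lt hlt).and (hpow.eventually_lt_const hgt))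
  have htend := Pool.Agent.Lib.H59.argCount_tendsto hG hlc
  refine ⟨2 * K, by positivity, fun η hη => ?_⟩
  obtain ⟨X₀, hX₀⟩ := hmain (η / 2) (by positivity)
  obtain ⟨Y₂, hY₂⟩ := Filter.eventually_atTop.1 (htend.eventually_ge_atTop X₀)
  refine ⟨max (max Y₁ Y₂) (c + 1), fun Y hY n => ?_⟩
  have hYa : Y₁ ≤ Y := (le_max_left _ _).trans ((le_max_left _ _).trans hY)
  have hYb : Y₂ ≤ Y := (le_max_right _ _).trans ((le_max_left _ _).trans hY)
  have hYc : c + 1 ≤ Y := (le_max_right _ _).trans hY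
  have hYpos : (0 : ℝ) < Y := by exact_mod_cast (by omega : 0 < Y)
  obtain ⟨h1, h2⟩ := hY₁ Y hYa
  obtain ⟨X, hX⟩ : ∃ X : ℕ, X = argCount G Y := ⟨_, rfl⟩
  have hXX := hY₂ Y hYb
  rw [← hX] at h1 h2 hXX ⊢
  rw [lt_div_iff₀ hYpos, inv_mul_lt_iff₀ (by linarith)] at h1
  rw [div_lt_iff₀ hYpos] at h2
  have hm : ((-G.eval (n : ℤ) + Y).toNat : ℝ) ≤ 4 * G.leadingCoeff * (X : ℝ) ^ G.natDegree := by
    have h3 : -G.eval (n : ℤ) + Y ≤ ((c + Y : ℕ) : ℤ) := by
      have := hc n
      push_cast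
      linarith
    have h4 : (-G.eval (n : ℤ) + Y).toNat ≤ c + Y := Int.toNat_le.2 h3
    have h5 : ((-G.eval (n : ℤ) + Y).toNat : ℝ) ≤ 2 * Y := by
      have h6 : (-G.eval (n : ℤ) + Y).toNat ≤ 2 * Y := by omega
      exact_mod_cast h6
    linarith
  obtain ⟨h3, h4⟩ := hX₀ X hXX _ hm
  have hcc : (0 : ℝ) ≤ G.natDegree * Real.log X := mul_nonneg (Nat.cast_nonneg _) (Real.log_natCast_nonneg _)
  obtain ⟨h5, h6⟩ := f1b_two (-G.eval (n : ℤ)) Y (G.natDegree * Real.log X) hcc
  have he : ∀ N : ℕ, (N : ℤ) - G.eval (n : ℤ) = -G.eval (n : ℤ) + N := fun N => by ring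
  simp only [he]
  constructor
  · refine h5.trans (h3.trans ?_)
    have h7 : η / 2 * (X : ℝ) ^ G.natDegree ≤ η / 2 * (2 * Y) := mul_le_mul_of_nonneg_left h2.le (by positivity)
    linarith
  · refine h6.trans (h4.trans ?_)
    have h7 : K * (X : ℝ) ^ G.natDegree ≤ K * (2 * Y) := mul_le_mul_of_nonneg_left h2.le hK.le
    linarith

end Pool.Agent.Lib.H59X
end

-- from Lib.H59X.F1C
section

/-!
# Chunk F1C: Chebyshev type bounds for the deterministic polynomial
-/

open Finset Polynomial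

namespace Pool.Agent.Lib.H59X

open Pool.Agent.Lib.H59 (argSet argCount Admissible primeCount omegaN seriesTrunc rootCount)
open Pool.Agent.Lib.H68T (lp)
open Pool.Agent.Lib.H33B (Lq Lw PW SieveWt)

/-- The comparison of `log X · 1[B(n) prime]` and the weight `bw`. -/
def BCh (r : ℕ) (B : ℤ[X]) (X : ℕ) (η C₂ : ℝ) : Prop :=
  ∑ n ∈ Icc 1 X, |Real.log X ^ r * pb r B n - bw r B n| ≤ η * X ∧
    ∑ n ∈ Icc 1 X, (Real.log X ^ r * pb r B n + bw r B n) ≤ C₂ * X

/-- Proof. Both terms of the difference are `1`. -/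
theorem bch_zero (X : ℕ) (η : ℝ) (hη : 0 ≤ η) : BCh 0 1 X η 2 := by
  have e1 : ∀ n, pb 0 1 n = 1 := fun n => by simp [pb]
  have e2 : ∀ n, bw 0 1 n = 1 := fun n => by simp [bw]
  constructor
  · have h : ∑ n ∈ Icc 1 X, |Real.log X ^ 0 * pb 0 1 n - bw 0 1 n| = 0 := by
      apply Finset.sum_eq_zero
      intro n _
      rw [e1, e2, pow_zero, one_mul, sub_self, abs_zero]
    rw [h]
    positivity
  · have h : ∑ n ∈ Icc 1 X, (Real.log X ^ 0 * pb 0 1 n + bw 0 1 n) = 2 * X := by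
      rw [Finset.sum_congr rfl (fun n _ => show Real.log X ^ 0 * pb 0 1 n + bw 0 1 n = 2 by
        rw [e1, e2, pow_zero]; norm_num)]
      rw [Finset.sum_const, Nat.card_Icc, nsmul_eq_mul]
      rw [Nat.add_sub_cancel]
      ring
    rw [h]

theorem f1c_key (B : ℤ[X]) (X m₀ : ℕ)
    (hinj : ∀ n n' : ℕ, B.eval (n : ℤ) = B.eval (n' : ℤ) → n = n')
    (hle : ∀ n ∈ Icc 1 X, B.eval (n : ℤ) ≤ m₀) (F : ℕ → ℝ)
    (hF : ∀ m ∈ (Icc 1 m₀).filter Nat.Prime, 0 ≤ F m) :
    ∑ n ∈ Icc 1 X, (if (B.eval (n : ℤ)).toNat.Prime then F (B.eval (n : ℤ)).toNat else 0) ≤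
      ∑ m ∈ (Icc 1 m₀).filter Nat.Prime, F m := by
  rw [← Finset.sum_filter]
  have hinj2 : Set.InjOn (fun n : ℕ => (B.eval (n : ℤ)).toNat)
      (((Icc 1 X).filter fun n : ℕ => (B.eval (n : ℤ)).toNat.Prime : Finset ℕ) : Set ℕ) := by
    intro n hn n' hn' h
    rw [Finset.mem_coe, Finset.mem_filter] at hn hn'
    apply hinj
    have h1 := hn.2.pos
    have h2 := hn'.2.pos
    simp only at h
    omega
  rw [← Finset.sum_image (f := F) (g := fun n : ℕ => (B.eval (n : ℤ)).toNat) hinj2]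
  apply Finset.sum_le_sum_of_subset_of_nonneg
  · intro m hm
    rw [Finset.mem_image] at hm
    obtain ⟨n, hn, rfl⟩ := hm
    rw [Finset.mem_filter] at hn
    rw [Finset.mem_filter, Finset.mem_Icc]
    refine ⟨⟨hn.2.pos, ?_⟩, hn.2⟩
    have := hle n hn.1
    omega
  · intro m hm _
    exact hF m hm

theorem f1c_bch (B : ℤ[X]) (X m₀ : ℕ) (hX : 1 ≤ X)
    (hinj : ∀ n n' : ℕ, B.eval (n : ℤ) = B.eval (n' : ℤ) → n = n')
    (hle : ∀ n ∈ Icc 1 X, B.eval (n : ℤ) ≤ m₀) (η C₂ : ℝ)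
    (h1 : ∑ m ∈ (Icc 1 m₀).filter Nat.Prime, |((1 : ℕ) : ℝ) * Real.log X - Real.log m| ≤
      η * (X : ℝ) ^ 1)
    (h2 : ∑ m ∈ (Icc 1 m₀).filter Nat.Prime, (((1 : ℕ) : ℝ) * Real.log X + Real.log m) ≤
      C₂ * (X : ℝ) ^ 1) : BCh 1 B X η C₂ := by
  rw [pow_one] at h1 h2
  have hcast : ∀ n : ℕ, (B.eval (n : ℤ)).toNat.Prime →
      ((B.eval (n : ℤ) : ℤ) : ℝ) = (((B.eval (n : ℤ)).toNat : ℕ) : ℝ) := by
    intro n hn
    have h3 := hn.pos
    have h4 : (((B.eval (n : ℤ)).toNat : ℕ) : ℤ) = B.eval (n : ℤ) := Int.toNat_of_nonneg (by omega)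
    exact_mod_cast congrArg (fun t : ℤ => (t : ℝ)) h4.symm
  constructor
  · refine le_trans (le_of_eq ?_) ((f1c_key B X m₀ hinj hle
      (fun m => |((1 : ℕ) : ℝ) * Real.log X - Real.log m|) (fun m _ => abs_nonneg _)).trans h1)
    refine Finset.sum_congr rfl fun n _ => ?_
    unfold pb pr bw Pool.Agent.Lib.H68T.lp
    rw [if_neg one_ne_zero, if_neg one_ne_zero, pow_one, Nat.cast_one, one_mul]
    split_ifs with hp
    · rw [mul_one, hcast n hp]
    · rw [mul_zero, sub_zero, abs_zero]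
  · refine le_trans (le_of_eq ?_) ((f1c_key B X m₀ hinj hle
      (fun m => ((1 : ℕ) : ℝ) * Real.log X + Real.log m) (fun m hm => ?_)).trans h2)
    · refine Finset.sum_congr rfl fun n _ => ?_
      unfold pb pr bw Pool.Agent.Lib.H68T.lp
      rw [if_neg one_ne_zero, if_neg one_ne_zero, pow_one, Nat.cast_one, one_mul]
      split_ifs with hp
      · rw [mul_one, hcast n hp]
      · rw [mul_zero, add_zero]
    · have h3 := Real.log_natCast_nonneg X
      have h4 := Real.log_natCast_nonneg m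
      rw [Nat.cast_one, one_mul]
      exact add_nonneg h3 h4

/-- Proof. `m = B(n) ≤ (|a| + |b|) X`, different for different `n`; `cheb_pow` with `d = 1`. -/
theorem bch_one (B : ℤ[X]) (hB : B.natDegree = 1) (hl : 0 < B.leadingCoeff) : ∃ C₂ : ℝ, 0 < C₂ ∧
    ∀ η : ℝ, 0 < η → ∃ X₀ : ℕ, ∀ X : ℕ, X₀ ≤ X → BCh 1 B X η C₂ := by
  obtain ⟨a, b, hab⟩ : ∃ a b : ℤ, B = C a * Polynomial.X + C b :=
    exists_eq_X_add_C_of_natDegree_le_one hB.le
  have ha : 0 < a := by
    have h1 : B.leadingCoeff = a := by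
      unfold leadingCoeff
      rw [hB, hab, coeff_add, coeff_C_mul, coeff_X_one, mul_one, coeff_C_ne_zero one_ne_zero,
        add_zero]
    rwa [h1] at hl
  have hev : ∀ n : ℕ, B.eval (n : ℤ) = a * n + b := fun n => by
    rw [hab]
    simp
  obtain ⟨C₂, hC₂, hc⟩ := cheb_pow 1 le_rfl (a.toNat + b.natAbs : ℕ) (by
    have : 1 ≤ a.toNat + b.natAbs := by omega
    exact_mod_cast this)
  refine ⟨C₂, hC₂, fun η hη => ?_⟩
  obtain ⟨X₀, hX₀⟩ := hc η hη
  refine ⟨max X₀ 1, fun X hX => ?_⟩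
  have hX1 : 1 ≤ X := (le_max_right _ _).trans hX
  obtain ⟨h1, h2⟩ := hX₀ X ((le_max_left _ _).trans hX) ((a.toNat + b.natAbs) * X) (by
    push_cast
    rw [pow_one])
  refine f1c_bch B X ((a.toNat + b.natAbs) * X) hX1 ?_ ?_ η C₂ h1 h2
  · intro n n' h
    rw [hev, hev] at h
    have h3 : a * (n : ℤ) = a * n' := by linarith
    exact_mod_cast mul_left_cancel₀ ha.ne' h3
  · intro n hn
    rw [Finset.mem_Icc] at hn
    rw [hev]
    push_cast
    rw [Int.toNat_of_nonneg ha.le]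
    have h3 : a * (n : ℤ) ≤ a * X := mul_le_mul_of_nonneg_left (by exact_mod_cast hn.2) ha.le
    have h4 : b ≤ |b| := le_abs_self b
    have h5 : |b| * 1 ≤ |b| * X := mul_le_mul_of_nonneg_left (by exact_mod_cast hX1) (abs_nonneg b)
    linarith [add_mul a |b| (X : ℤ)]

/-- Proof. `m = N - G(n) ≤ N + |b| ≤ 2 a X + ...`, different for different `n`; `cheb_pow` with `d = 1`, `X = argCount G N → ∞`. -/
theorem bch_two (G : ℤ[X]) (hG : G.natDegree = 1) (hlc : 0 < G.leadingCoeff) : ∃ C₂ : ℝ, 0 < C₂ ∧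
    ∀ η : ℝ, 0 < η → ∃ N₀ : ℕ, ∀ N : ℕ, N₀ ≤ N → BCh 1 (C (N : ℤ) - G) (argCount G N) η C₂ := by
  obtain ⟨a, b, hab⟩ : ∃ a b : ℤ, G = C a * Polynomial.X + C b :=
    exists_eq_X_add_C_of_natDegree_le_one hG.le
  have ha : 0 < a := by
    have h1 : G.leadingCoeff = a := by
      unfold leadingCoeff
      rw [hG, hab, coeff_add, coeff_C_mul, coeff_X_one, mul_one, coeff_C_ne_zero one_ne_zero,
        add_zero]
    rwa [h1] at hlc
  have hev : ∀ N n : ℕ, (C (N : ℤ) - G).eval (n : ℤ) = N - (a * n + b) := fun N n => by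
    rw [hab]
    simp
  obtain ⟨K, hK⟩ : ∃ K : ℝ, K = max 1 (2 * (Pool.Agent.Lib.H59.coeffSum G * 2)) := ⟨_, rfl⟩
  have hK1 : 1 ≤ K := by rw [hK]; exact le_max_left _ _
  obtain ⟨C₂, hC₂, hc⟩ := cheb_pow 1 le_rfl K hK1
  refine ⟨C₂, hC₂, fun η hη => ?_⟩
  obtain ⟨X₀, hX₀⟩ := hc η hη
  obtain ⟨N₁, hN₁⟩ := Pool.Agent.Lib.H57M.Q1_two G hG.ge hlc X₀
  refine ⟨max N₁ b.natAbs, fun N hN => ?_⟩
  obtain ⟨g1, g2, -, g4⟩ := hN₁ N ((le_max_left _ _).trans hN)
  rw [hG, pow_one, pow_one] at g4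
  have hNb : b.natAbs ≤ N := (le_max_right _ _).trans hN
  obtain ⟨h1, h2⟩ := hX₀ (argCount G N) g2 (N + b.natAbs) (by
    have h3 : ((N + b.natAbs : ℕ) : ℝ) ≤ 2 * N := by
      have : N + b.natAbs ≤ 2 * N := by omega
      exact_mod_cast this
    have h4 : 2 * (Pool.Agent.Lib.H59.coeffSum G * 2) ≤ K := by rw [hK]; exact le_max_right _ _
    have h5 : (0 : ℝ) ≤ argCount G N := Nat.cast_nonneg _
    have h6 := mul_le_mul_of_nonneg_right h4 h5
    rw [pow_one]
    linarith)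
  refine f1c_bch _ _ _ g1 ?_ ?_ η C₂ h1 h2
  · intro n n' h
    rw [hev, hev] at h
    have h3 : a * (n : ℤ) = a * n' := by linarith
    exact_mod_cast mul_left_cancel₀ ha.ne' h3
  · intro n hn
    rw [Finset.mem_Icc] at hn
    rw [hev]
    push_cast
    have h3 : 0 ≤ a * (n : ℤ) := mul_nonneg ha.le (Nat.cast_nonneg _)
    have h4 := neg_le_abs b
    linarith

end Pool.Agent.Lib.H59X
end

-- from Lib.H59X.C1
section

/-!
# Chunk C1: means over full systems of residues
-/

open Finset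

namespace Pool.Agent.Lib.H59X

/-- Proof. `#cube g q = q^g`. -/
theorem mean_const (g q : ℕ) (hq : 0 < q) (c : ℝ) : mean q (fun _ : Fin g → ℕ => c) = c := by
  have hc : (cube g q).card = q ^ g := by simp [cube]
  rw [mean, sum_const, hc, nsmul_eq_mul]
  push_cast
  have hq' : (q : ℝ) ^ g ≠ 0 := by positivity
  field_simp

/-- Proof. Chinese remainder theorem: `h ↦ (h mod q₁, h mod q₂)` (coordinatewise) is a bijection of `cube g (q₁ q₂)` onto
`cube g q₁ × cube g q₂`. (Compare `H33B.SR2_crt2`, the case `g = 1`.) -/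
theorem mean_mul {g : ℕ} (q₁ q₂ : ℕ) (hc : Nat.Coprime q₁ q₂) (h₁ : 0 < q₁) (h₂ : 0 < q₂)
    (F₁ F₂ : (Fin g → ℕ) → ℝ) (hF₁ : Per q₁ F₁) (hF₂ : Per q₂ F₂) :
    mean (q₁ * q₂) (fun h => F₁ h * F₂ h) = mean q₁ F₁ * mean q₂ F₂ := by
  have key : ∑ h ∈ cube g (q₁ * q₂), F₁ h * F₂ h =
      (∑ h ∈ cube g q₁, F₁ h) * ∑ h ∈ cube g q₂, F₂ h := by
    rw [sum_mul_sum, ← sum_product']
    refine sum_bij (fun h _ => ((fun i => h i % q₁), (fun i => h i % q₂))) ?_ ?_ ?_ ?_
    · intro h _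
      rw [mem_product]
      simp only [cube, Fintype.mem_piFinset, mem_range]
      exact ⟨fun i => Nat.mod_lt _ h₁, fun i => Nat.mod_lt _ h₂⟩
    · intro a ha b hb hab
      simp only [cube, Fintype.mem_piFinset, mem_range] at ha hb
      rw [Prod.mk.injEq] at hab
      funext i
      have e1 : a i ≡ b i [MOD q₁] := congrFun hab.1 i
      have e2 : a i ≡ b i [MOD q₂] := congrFun hab.2 i
      have e3 : a i ≡ b i [MOD q₁ * q₂] := (Nat.modEq_and_modEq_iff_modEq_mul hc).mp ⟨e1, e2⟩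
      have e4 : a i % (q₁ * q₂) = b i % (q₁ * q₂) := e3
      rwa [Nat.mod_eq_of_lt (ha i), Nat.mod_eq_of_lt (hb i)] at e4
    · intro b hb
      rw [mem_product] at hb
      simp only [cube, Fintype.mem_piFinset, mem_range] at hb
      have hex : ∀ i, ∃ c, c < q₁ * q₂ ∧ c % q₁ = b.1 i ∧ c % q₂ = b.2 i := by
        intro i
        obtain ⟨c, hc1, hc2⟩ := Nat.chineseRemainder hc (b.1 i) (b.2 i)
        refine ⟨c % (q₁ * q₂), Nat.mod_lt _ (Nat.mul_pos h₁ h₂), ?_, ?_⟩
        · rw [Nat.mod_mul_right_mod]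
          have : c % q₁ = b.1 i % q₁ := hc1
          rw [this, Nat.mod_eq_of_lt (hb.1 i)]
        · rw [Nat.mod_mul_left_mod]
          have : c % q₂ = b.2 i % q₂ := hc2
          rw [this, Nat.mod_eq_of_lt (hb.2 i)]
      choose c hc1 hc2 hc3 using hex
      refine ⟨c, ?_, ?_⟩
      · simp only [cube, Fintype.mem_piFinset, mem_range]
        exact hc1
      · refine Prod.ext ?_ ?_
        · funext i; exact hc2 i
        · funext i; exact hc3 i
    · intro a _
      simp only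
      rw [hF₁ a (fun i => a i % q₁) (fun i => (Nat.mod_modEq _ _).symm),
        hF₂ a (fun i => a i % q₂) (fun i => (Nat.mod_modEq _ _).symm)]
  rw [mean, mean, mean, key, Nat.cast_mul, mul_pow, div_mul_div_comm]

/-- Proof. Induction on `T` with `mean_mul` (`∏_{p ∈ T} f p` is periodic modulo `∏_{p ∈ T} p`); `mean 1` of a constant for `T = ∅`. -/
theorem mean_prod {g : ℕ} (T : Finset ℕ) (hT : ∀ p ∈ T, p.Prime) (f : ℕ → (Fin g → ℕ) → ℝ)
    (hf : ∀ p ∈ T, Per p (f p)) :
    mean (∏ p ∈ T, p) (fun h => ∏ p ∈ T, f p h) = ∏ p ∈ T, mean p (f p) := by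
  classical
  induction T using Finset.induction_on with
  | empty =>
    simp only [prod_empty]
    exact mean_const g 1 one_pos 1
  | insert p T hp ih =>
    have hpp : p.Prime := hT p (mem_insert_self _ _)
    have hT' : ∀ q ∈ T, q.Prime := fun q hq => hT q (mem_insert_of_mem hq)
    have hf' : ∀ q ∈ T, Per q (f q) := fun q hq => hf q (mem_insert_of_mem hq)
    simp only [prod_insert hp]
    have hcop : Nat.Coprime p (∏ q ∈ T, q) := by
      refine Nat.Coprime.prod_right fun q hq => ?_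
      rw [Nat.coprime_primes hpp (hT' q hq)]
      rintro rfl
      exact hp hq
    rw [mean_mul p (∏ q ∈ T, q) hcop hpp.pos (prod_pos fun q hq => (hT' q hq).pos) (f p)
      (fun h => ∏ q ∈ T, f q h) (hf p (mem_insert_self _ _)) ?_, ih hT' hf']
    intro h h' hh
    refine prod_congr rfl fun q hq => ?_
    exact hf' q hq h h' fun i => (hh i).of_dvd (dvd_prod_of_mem _ hq)

end Pool.Agent.Lib.H59X
end

-- from Lib.H59X.C2
section

/-!
# Chunk C2: sums over boxes
-/

open Finset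

namespace Pool.Agent.Lib.H59X

/-- Proof. `h ↦ (h 0, fun i => h i.succ)`, inverse `Fin.cons`. -/
theorem box_succ {g : ℕ} (H : Fin (g + 1) → ℕ) (F : (Fin (g + 1) → ℕ) → ℝ) :
    ∑ h ∈ Box H, F h = ∑ a ∈ Icc 1 (H 0), ∑ h ∈ Box (fun i : Fin g => H i.succ), F (Fin.cons a h) := by
  rw [← sum_product']
  refine sum_bij' (fun h _ => (h 0, fun i : Fin g => h i.succ)) (fun p _ => Fin.cons p.1 p.2)
    ?_ ?_ ?_ ?_ ?_
  · intro h hh
    simp only [Box, Fintype.mem_piFinset] at hh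
    rw [mem_product]
    exact ⟨hh 0, by simp only [Box, Fintype.mem_piFinset]; exact fun i => hh i.succ⟩
  · intro p hp
    rw [mem_product] at hp
    have hp2 := hp.2
    simp only [Box, Fintype.mem_piFinset] at hp2 ⊢
    intro i
    refine Fin.cases ?_ (fun j => ?_) i
    · simpa using hp.1
    · simpa using hp2 j
  · intro h _
    funext i
    refine Fin.cases ?_ (fun j => ?_) i
    · simp
    · simp
  · intro p _
    simp
  · intro h _
    congr 1
    funext i
    refine Fin.cases ?_ (fun j => ?_) i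
    · simp
    · simp

/-- Proof. Group the `h ∈ Box H` by their residues (`h i % q`): a class of `[1, H_i]` modulo `q` has at most `H_i/q + 1 = (H_i + q)/q` elements, so the
sum is at most `∏ ((H_i + q)/q) ∑_{c ∈ cube} F c`. -/
theorem box_le {g : ℕ} (q : ℕ) (hq : 0 < q) (H : Fin g → ℕ) (F : (Fin g → ℕ) → ℝ) (hF : Per q F)
    (h0 : ∀ h, 0 ≤ F h) : ∑ h ∈ Box H, F h ≤ (∏ i, ((H i : ℝ) + q)) * mean q F := by
  classical
  have hmaps : ∀ h ∈ Box H, (fun i => h i % q) ∈ cube g q := by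
    intro h _
    simp only [cube, Fintype.mem_piFinset, mem_range]
    exact fun i => Nat.mod_lt _ hq
  rw [← sum_fiberwise_of_maps_to hmaps]
  have hq0 : (0 : ℝ) < q := by exact_mod_cast hq
  have hcount : ∀ c ∈ cube g q, (((Box H).filter fun h => (fun i => h i % q) = c).card : ℝ) ≤
      ∏ i, ((H i : ℝ) + q) / q := by
    intro c _
    have e1 : (Box H).filter (fun h => (fun i => h i % q) = c) =
        Fintype.piFinset fun i => (Icc 1 (H i)).filter fun a => a % q = c i := by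
      ext h
      simp only [Box, mem_filter, Fintype.mem_piFinset]
      constructor
      · rintro ⟨h1, h2⟩ i
        exact ⟨h1 i, congrFun h2 i⟩
      · intro h1
        exact ⟨fun i => (h1 i).1, funext fun i => (h1 i).2⟩
    rw [e1, Fintype.card_piFinset]
    push_cast
    refine prod_le_prod (fun i _ => Nat.cast_nonneg _) fun i _ => ?_
    have e2 : ((Icc 1 (H i)).filter fun a => a % q = c i).card ≤ H i / q + 1 := by
      rw [← card_range (H i / q + 1)]
      refine card_le_card_of_injOn (fun a => a / q) ?_ ?_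
      · intro a ha
        have ha' := (mem_Icc.1 (mem_filter.1 ha).1).2
        simp only [coe_range, Set.mem_Iio]
        exact Nat.lt_succ_of_le (Nat.div_le_div_right ha')
      · intro a ha b hb hab
        have ha' := (mem_filter.1 ha).2
        have hb' := (mem_filter.1 hb).2
        have hab' : a / q = b / q := hab
        rw [← Nat.div_add_mod a q, ← Nat.div_add_mod b q, hab', ha', hb']
    calc (((Icc 1 (H i)).filter fun a => a % q = c i).card : ℝ) ≤ ((H i / q + 1 : ℕ) : ℝ) := by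
          exact_mod_cast e2
      _ = ((H i / q : ℕ) : ℝ) + 1 := by push_cast; ring
      _ ≤ (H i : ℝ) / q + 1 := by linarith [Nat.cast_div_le (α := ℝ) (m := H i) (n := q)]
      _ = ((H i : ℝ) + q) / q := by field_simp
  have hinner : ∀ c ∈ cube g q, ∑ h ∈ (Box H).filter (fun h => (fun i => h i % q) = c), F h ≤
      F c * ∏ i, ((H i : ℝ) + q) / q := by
    intro c hc
    have e1 : ∑ h ∈ (Box H).filter (fun h => (fun i => h i % q) = c), F h =
        ∑ _h ∈ (Box H).filter (fun h => (fun i => h i % q) = c), F c := by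
      refine sum_congr rfl fun h hh => ?_
      rw [← (mem_filter.1 hh).2]
      exact hF _ _ fun i => (Nat.mod_modEq _ _).symm
    rw [e1, sum_const, nsmul_eq_mul, mul_comm]
    exact mul_le_mul_of_nonneg_left (hcount c hc) (h0 c)
  refine (sum_le_sum hinner).trans (le_of_eq ?_)
  rw [← sum_mul, mean, prod_div_distrib, prod_const, card_univ, Fintype.card_fin]
  ring

/-- Proof. `box_le` for `F + M ≥ 0`: `∑ (F + M) ≤ Π (mean F + M)`, `Π = ∏ (H_i + q) ≥ vol H = #Box H`, hence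
`∑ F ≤ Π (mean F + M) - M vol = vol · mean F + (Π - vol)(mean F + M) ≤ vol · mean F + 2 M (Π - vol)`. -/
theorem box_signed {g : ℕ} (q : ℕ) (hq : 0 < q) (H : Fin g → ℕ) (F : (Fin g → ℕ) → ℝ) (hF : Per q F)
    (M : ℝ) (hM : ∀ h, |F h| ≤ M) :
    ∑ h ∈ Box H, F h ≤ vol H * mean q F + 2 * M * ((∏ i, ((H i : ℝ) + q)) - vol H) := by
  have hq0 : (0 : ℝ) < q := by exact_mod_cast hq
  have hM0 : 0 ≤ M := (abs_nonneg _).trans (hM 0)
  have hcard : ((Box H).card : ℝ) = vol H := by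
    simp [Box, vol]
  have hPv : vol H ≤ ∏ i, ((H i : ℝ) + q) := by
    rw [vol]
    exact prod_le_prod (fun i _ => Nat.cast_nonneg _) fun i _ => by linarith
  have h1 := box_le q hq H (fun h => F h + M) (fun h h' hh => by
    simp only
    rw [hF h h' hh]) (fun h => by linarith [(abs_le.1 (hM h)).1])
  have h2 : mean q (fun h => F h + M) = mean q F + M := by
    have hc : (cube g q).card = q ^ g := by simp [cube]
    rw [mean, sum_add_distrib, sum_const, hc, nsmul_eq_mul, mean, add_div]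
    push_cast
    have : (q : ℝ) ^ g ≠ 0 := by positivity
    field_simp
  rw [sum_add_distrib, sum_const, nsmul_eq_mul, hcard, h2] at h1
  have h3 : mean q F ≤ M := by
    have hc : (cube g q).card = q ^ g := by simp [cube]
    rw [mean, div_le_iff₀ (by positivity)]
    calc ∑ h ∈ cube g q, F h ≤ ∑ _h ∈ cube g q, M :=
          sum_le_sum fun h _ => (abs_le.1 (hM h)).2
      _ = M * (q : ℝ) ^ g := by
          rw [sum_const, hc, nsmul_eq_mul]; push_cast; ring
  nlinarith [mul_nonneg (sub_nonneg.2 hPv) (sub_nonneg.2 h3)]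

/-- Proof. `H_i + q ≤ (1 + t) H_i`, and `(1 + t)^g ≤ 1 + 2^g t` for `0 ≤ t ≤ 1` (induction on `g`:
`(1 + 2^g t)(1 + t) = 1 + 2^g t + t + 2^g t² ≤ 1 + 2^(g+1) t` fails in general, so prove `(1 + t)^g ≤ 1 + (2^g - 1) t` by induction:
`(1 + (2^g - 1) t)(1 + t) ≤ 1 + (2^g - 1) t + t + (2^g - 1) t = 1 + (2^(g+1) - 1) t`). -/
theorem box_diff {g : ℕ} (H : Fin g → ℕ) (q t : ℝ) (hq : 0 ≤ q) (ht : 0 ≤ t) (ht1 : t ≤ 1)
    (h : ∀ i, q ≤ t * H i) : (∏ i, ((H i : ℝ) + q)) ≤ (1 + 2 ^ g * t) * vol H := by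
  have h1 : (∏ i, ((H i : ℝ) + q)) ≤ ∏ i, ((1 + t) * (H i : ℝ)) := by
    refine prod_le_prod (fun i _ => by positivity) fun i _ => ?_
    have := h i
    linarith
  have h2 : ∀ n : ℕ, (1 + t) ^ n ≤ 1 + (2 ^ n - 1) * t := by
    intro n
    induction n with
    | zero => simp
    | succ n ih =>
      have h3 : (0 : ℝ) ≤ 2 ^ n - 1 := by
        have : (1 : ℝ) ≤ 2 ^ n := one_le_pow₀ (by norm_num)
        linarith
      have h4 : (2 ^ n - 1) * t * t ≤ (2 ^ n - 1) * t * 1 :=
        mul_le_mul_of_nonneg_left ht1 (mul_nonneg h3 ht)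
      calc (1 + t) ^ (n + 1) = (1 + t) ^ n * (1 + t) := pow_succ _ _
        _ ≤ (1 + (2 ^ n - 1) * t) * (1 + t) := mul_le_mul_of_nonneg_right ih (by linarith)
        _ ≤ 1 + (2 ^ (n + 1) - 1) * t := by rw [pow_succ]; nlinarith
  have hv : 0 ≤ vol H := prod_nonneg fun i _ => Nat.cast_nonneg _
  calc (∏ i, ((H i : ℝ) + q)) ≤ ∏ i, ((1 + t) * (H i : ℝ)) := h1
    _ = (1 + t) ^ g * vol H := by
        rw [prod_mul_distrib, prod_const, card_univ, Fintype.card_fin, vol]
    _ ≤ (1 + (2 ^ g - 1) * t) * vol H := mul_le_mul_of_nonneg_right (h2 g) hv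
    _ ≤ (1 + 2 ^ g * t) * vol H := mul_le_mul_of_nonneg_right (by linarith) hv

end Pool.Agent.Lib.H59X
end

-- from Lib.H59X.L1
section

/-!
# Chunk L1: the local factors
-/

open Finset Polynomial

namespace Pool.Agent.Lib.H59X

open Pool.Agent.Lib.H59 (argSet argCount Admissible primeCount omegaN seriesTrunc rootCount)
open Pool.Agent.Lib.H68T (lp)
open Pool.Agent.Lib.H33B (Lq Lw PW SieveWt)

theorem l1_Lq_nonneg (q : ℕ) (m : ℤ) : 0 ≤ Lq q m := by
  unfold Lq
  split_ifs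
  · positivity
  · exact le_rfl

theorem l1_bL_nonneg (r : ℕ) (B : ℤ[X]) (q v : ℕ) : 0 ≤ bL r B q v := by
  unfold bL
  split_ifs
  · exact zero_le_one
  · exact l1_Lq_nonneg _ _

theorem l1_congr (q : ℕ) {m m' : ℤ} (h : (q : ℤ) ∣ m - m') : Lq q m = Lq q m' := by
  obtain ⟨k, hk⟩ := h
  have hm : m = m' + q * k := by linarith
  have h1 : IsCoprime m (q : ℤ) ↔ IsCoprime m' (q : ℤ) := by
    rw [hm]
    exact IsCoprime.add_mul_left_left_iff
  unfold Lq
  simp only [h1]

/-- Proof. `Lq ≥ 0`. -/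
theorem af_nonneg (r : ℕ) (B : ℤ[X]) {g : ℕ} (P : Fin g → ℤ[X]) (I : Finset (Fin g)) (p : ℕ)
    (h : Fin g → ℕ) : 0 ≤ af r B P I p h := by
  unfold af
  refine div_nonneg (sum_nonneg fun v _ => mul_nonneg (l1_bL_nonneg _ _ _ _) (prod_nonneg fun i _ => l1_Lq_nonneg _ _))
    (Nat.cast_nonneg p)

/-- Proof. `Lq p m` depends only on `m` modulo `p`. -/
theorem af_per (r : ℕ) (B : ℤ[X]) {g : ℕ} (P : Fin g → ℤ[X]) (I : Finset (Fin g)) (p : ℕ) :
    Per p (af r B P I p) := by
  intro h h' hh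
  unfold af
  congr 1
  refine sum_congr rfl fun v _ => ?_
  congr 1
  refine prod_congr rfl fun i _ => ?_
  refine l1_congr p ?_
  have h1 : (p : ℤ) ∣ (h i : ℤ) - h' i := Nat.modEq_iff_dvd.1 (hh i).symm
  have e : (P i).eval (v : ℤ) + h i - ((P i).eval (v : ℤ) + h' i) = (h i : ℤ) - h' i := by ring
  rw [e]
  exact h1

theorem l1_prime {p : ℕ} (hp : p.Prime) (m : ℤ) :
    Lq p m = if (p : ℤ) ∣ m then 0 else (1 - 1 / (p : ℝ))⁻¹ := by
  have hp1 : IsCoprime m (p : ℤ) ↔ ¬ (p : ℤ) ∣ m := by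
    rw [isCoprime_comm]
    exact (Nat.prime_iff_prime_int.1 hp).coprime_iff_not_dvd
  unfold Lq
  by_cases h : (p : ℤ) ∣ m
  · rw [if_neg (fun hc => (hp1.1 hc) h), if_pos h]
  · rw [if_pos (hp1.2 h), if_neg h, Nat.totient_prime hp, Nat.cast_sub hp.one_lt.le, Nat.cast_one]
    have h0 : (p : ℝ) ≠ 0 := by exact_mod_cast hp.ne_zero
    have h1 : (p : ℝ) - 1 ≠ 0 := by
      have : (1 : ℝ) < p := by exact_mod_cast hp.one_lt
      linarith
    field_simp

theorem l1_bL {A r : ℕ} {B : ℤ[X]} (hB : Bas A r B) {p : ℕ} (hp : p.Prime) (v : ℕ) :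
    bL r B p v = if (p : ℤ) ∣ B.eval (v : ℤ) then 0 else ((1 - 1 / (p : ℝ))⁻¹) ^ r := by
  unfold bL
  rcases hB with ⟨hr, hB1⟩ | ⟨hr, -, -⟩
  · subst hr hB1
    have h1 : ¬ (p : ℤ) ∣ (1 : ℤ[X]).eval (v : ℤ) := by
      rw [eval_one]
      exact (Nat.prime_iff_prime_int.1 hp).not_dvd_one
    rw [if_neg h1]
    simp
  · subst hr
    rw [if_neg one_ne_zero, l1_prime hp, pow_one]

theorem l1_prodLq {p : ℕ} (hp : p.Prime) {g : ℕ} (x : Fin g → ℤ) :
    ∏ i, Lq p (x i) = if (p : ℤ) ∣ ∏ i, x i then 0 else ((1 - 1 / (p : ℝ))⁻¹) ^ g := by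
  have hpz := Nat.prime_iff_prime_int.1 hp
  by_cases h : (p : ℤ) ∣ ∏ i, x i
  · rw [if_pos h]
    obtain ⟨i, hi, hd⟩ := (hpz.dvd_finset_prod_iff _).1 h
    refine prod_eq_zero hi ?_
    rw [l1_prime hp, if_pos hd]
  · rw [if_neg h]
    have h1 : ∀ i ∈ (univ : Finset (Fin g)), Lq p (x i) = (1 - 1 / (p : ℝ))⁻¹ := by
      intro i hi
      rw [l1_prime hp, if_neg fun hd => h (hd.trans (dvd_prod_of_mem _ hi))]
    rw [prod_congr rfl h1, prod_const, card_univ, Fintype.card_fin]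

theorem l1_QQ_eval (B : ℤ[X]) {g : ℕ} (P : Fin g → ℤ[X]) (h : Fin g → ℕ) (v : ℤ) :
    (QQ B P h).eval v = B.eval v * ∏ i, ((P i).eval v + h i) := by
  unfold QQ fam
  rw [eval_mul, eval_prod]
  simp

/-- Proof. `Lq p m = (1 - 1/p)⁻¹` if `p ∤ m` and `0` otherwise (`φ(p) = p - 1`), so the terms of the sum are `(1 - 1/p)^(-(r+g))` if `p` divides
neither `B(v)` nor any `P_i(v) + h_i`, i.e. if `p ∤ QQ B P h (v)` (for `r = 0`, `B = 1`), and `0` otherwise. -/
theorem af_eq (A r : ℕ) (B : ℤ[X]) (hB : Bas A r B) {g : ℕ} (P : Fin g → ℤ[X]) (p : ℕ) (hp : p.Prime)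
    (h : Fin g → ℕ) :
    af r B P univ p h = (1 - (rootCount (QQ B P h) p : ℝ) / p) * ((1 - 1 / (p : ℝ)) ^ (r + g))⁻¹ := by
  classical
  have hpz := Nat.prime_iff_prime_int.1 hp
  have hp0 : (p : ℝ) ≠ 0 := by exact_mod_cast hp.ne_zero
  have h1 : ∀ v ∈ range p, bL r B p v * ∏ i, Lq p ((P i).eval (v : ℤ) + h i) =
      if (p : ℤ) ∣ (QQ B P h).eval (v : ℤ) then 0 else ((1 - 1 / (p : ℝ)) ^ (r + g))⁻¹ := by
    intro v _
    rw [l1_bL hB hp, l1_prodLq hp, l1_QQ_eval]
    by_cases ha : (p : ℤ) ∣ B.eval (v : ℤ)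
    · rw [if_pos ha, if_pos (ha.mul_right _), zero_mul]
    · by_cases hb : (p : ℤ) ∣ ∏ i, ((P i).eval (v : ℤ) + h i)
      · rw [if_pos hb, if_pos (hb.mul_left _), mul_zero]
      · rw [if_neg ha, if_neg hb, if_neg (fun hc => (hpz.dvd_or_dvd hc).elim ha hb), ← pow_add, inv_pow]
  unfold af
  rw [sum_congr rfl h1, sum_ite, sum_const_zero, zero_add, sum_const, nsmul_eq_mul]
  have h2 : (((range p).filter fun v : ℕ => ¬ (p : ℤ) ∣ (QQ B P h).eval (v : ℤ)).card : ℝ) =
      p - (rootCount (QQ B P h) p : ℝ) := by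
    have h3 := card_filter_add_card_filter_not (s := range p) (fun v : ℕ => (p : ℤ) ∣ (QQ B P h).eval (v : ℤ))
    rw [card_range] at h3
    have h4 : ((rootCount (QQ B P h) p : ℕ) : ℝ) + (((range p).filter fun v : ℕ =>
        ¬ (p : ℤ) ∣ (QQ B P h).eval (v : ℤ)).card : ℝ) = p := by exact_mod_cast h3
    linarith
  rw [h2]
  field_simp

/-- Proof. `af_eq`. -/
theorem ssz_eq (A r : ℕ) (B : ℤ[X]) (hB : Bas A r B) {g : ℕ} (P : Fin g → ℤ[X]) (z : ℕ)
    (h : Fin g → ℕ) : ssz (r + g) (QQ B P h) z = ∏ p ∈ Nat.primesBelow z, af r B P univ p h := by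
  unfold ssz
  refine prod_congr rfl fun p hp => ?_
  exact (af_eq A r B hB P p (Nat.prime_of_mem_primesBelow hp) h).symm

theorem l1_Lq_prod (T : Finset ℕ) (hT : ∀ p ∈ T, p.Prime) (m : ℤ) :
    Lq (∏ p ∈ T, p) m = ∏ p ∈ T, Lq p m := by
  classical
  induction T using Finset.induction_on with
  | empty =>
    unfold Lq
    simp [isCoprime_one_right]
  | insert p s hp ih =>
    rw [prod_insert hp, prod_insert hp, ← ih fun q hq => hT q (mem_insert_of_mem hq)]
    have hpp : p.Prime := hT p (mem_insert_self _ _)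
    have hcop : p.Coprime (∏ q ∈ s, q) := by
      refine Nat.Coprime.prod_right fun q hq => ?_
      refine (Nat.coprime_primes hpp (hT q (mem_insert_of_mem hq))).mpr ?_
      rintro rfl
      exact hp hq
    unfold Lq
    have h1 : IsCoprime m ((p * ∏ q ∈ s, q : ℕ) : ℤ) ↔ IsCoprime m (p : ℤ) ∧ IsCoprime m ((∏ q ∈ s, q : ℕ) : ℤ) := by
      rw [Nat.cast_mul]
      exact IsCoprime.mul_right_iff
    by_cases ha : IsCoprime m (p : ℤ)
    · by_cases hb : IsCoprime m ((∏ q ∈ s, q : ℕ) : ℤ)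
      · rw [if_pos (h1.2 ⟨ha, hb⟩), if_pos ha, if_pos hb, Nat.totient_mul hcop, Nat.cast_mul, Nat.cast_mul,
          mul_div_mul_comm]
      · rw [if_neg (fun hc => hb (h1.1 hc).2), if_neg hb, mul_zero]
    · rw [if_neg (fun hc => ha (h1.1 hc).1), if_neg ha, zero_mul]

theorem l1_eval_mod (Q : ℤ[X]) (p N : ℕ) : (p : ℤ) ∣ Q.eval ((N % p : ℕ) : ℤ) - Q.eval (N : ℤ) := by
  have h1 : (p : ℤ) ∣ ((N % p : ℕ) : ℤ) - N := Nat.modEq_iff_dvd.1 (Nat.mod_modEq N p).symm
  exact h1.trans (Polynomial.sub_dvd_eval_sub _ _ _)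

/-- The mean value of the model is the product of its local factors.

Proof. For squarefree `q`: `Lq q m = ∏_{p ∣ q} Lq p m` (`IsCoprime m q` iff `p ∤ m` for all `p ∣ q`; `q/φ(q) = ∏ p/(p-1)`). Hence
`Lw (u i) m = ∏_{p < u i} Lq p m` and the summand of `mixv` is `∏_{p < U} ψ_p(v)` with
`ψ_p(v) = bL r B p v · ∏_{i : p < u i} Lq p (P_i(v) + h_i)` (as `u i ≤ U`), which depends only on `v` modulo `p`. The mean over `v mod PW U` of the product is
the product of the means (`H33B.SR2_crt`, or `mean_prod` with `g = 1`). -/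
theorem mixv_eq (A r : ℕ) (B : ℤ[X]) (hB : Bas A r B) {g : ℕ} (P : Fin g → ℤ[X]) (u : Fin g → ℕ)
    (U : ℕ) (hu : ∀ i, u i ≤ U) (h : Fin g → ℕ) :
    mixv r B P u U h =
      ∏ p ∈ Nat.primesBelow U, af r B P (univ.filter fun i => p < u i) p h := by
  classical
  have hT : ∀ p ∈ Nat.primesBelow U, p.Prime := fun p hp => Nat.prime_of_mem_primesBelow hp
  have h1 : ∀ v ∈ range (PW U), bL r B (PW U) v * ∏ i, Lw (u i) ((P i).eval (v : ℤ) + h i) =
      ∏ p ∈ Nat.primesBelow U, (bL r B p v * ∏ i ∈ univ.filter fun i => p < u i, Lq p ((P i).eval (v : ℤ) + h i)) := by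
    intro v _
    rw [prod_mul_distrib]
    congr 1
    · unfold bL
      split_ifs
      · rw [prod_const_one]
      · exact l1_Lq_prod _ hT _
    · have h2 : ∀ i ∈ (univ : Finset (Fin g)), Lw (u i) ((P i).eval (v : ℤ) + h i) =
          ∏ p ∈ Nat.primesBelow U, if p < u i then Lq p ((P i).eval (v : ℤ) + h i) else 1 := by
        intro i _
        have h3 : Nat.primesBelow (u i) = (Nat.primesBelow U).filter (fun p => p < u i) := by
          ext p
          rw [mem_filter, Nat.mem_primesBelow, Nat.mem_primesBelow]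
          constructor
          · rintro ⟨ha, hb⟩
            exact ⟨⟨lt_of_lt_of_le ha (hu i), hb⟩, ha⟩
          · rintro ⟨⟨-, hb⟩, hc⟩
            exact ⟨hc, hb⟩
        unfold Lw PW
        rw [l1_Lq_prod _ (fun p hp => Nat.prime_of_mem_primesBelow hp), h3, prod_filter]
      rw [prod_congr rfl h2, prod_comm]
      refine prod_congr rfl fun p _ => ?_
      rw [prod_filter]
  unfold mixv
  rw [sum_congr rfl h1]
  have h4 := Pool.Agent.Lib.H33B.SR2_crt (Nat.primesBelow U) hT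
    (fun p v => bL r B p v * ∏ i ∈ univ.filter fun i => p < u i, Lq p ((P i).eval (v : ℤ) + h i)) (by
      intro p N
      congr 1
      · unfold bL
        split_ifs
        · rfl
        · exact l1_congr p (l1_eval_mod B p N)
      · refine prod_congr rfl fun i _ => ?_
        refine l1_congr p ?_
        have e : (P i).eval ((N % p : ℕ) : ℤ) + h i - ((P i).eval (N : ℤ) + h i) =
            (P i).eval ((N % p : ℕ) : ℤ) - (P i).eval (N : ℤ) := by ring
        rw [e]
        exact l1_eval_mod (P i) p N)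
  have h5 : (PW U : ℝ) = ∏ p ∈ Nat.primesBelow U, (p : ℝ) := by
    unfold PW
    rw [Nat.cast_prod]
  have h6 : PW U = ∏ p ∈ Nat.primesBelow U, p := rfl
  rw [h5, h6, h4, ← prod_div_distrib]
  rfl

end Pool.Agent.Lib.H59X
end

-- from Lib.H59X.L2A
section

/-!
# Chunk L2A: first moments of the local factors
-/

open Finset Polynomial

namespace Pool.Agent.Lib.H59X

open Pool.Agent.Lib.H59 (argSet argCount Admissible primeCount omegaN seriesTrunc rootCount)
open Pool.Agent.Lib.H68T (lp)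
open Pool.Agent.Lib.H33B (Lq Lw PW SieveWt)

/-- `∑_{c < p} Lq p (x + c) = p`. -/
theorem l2a_sum {p : ℕ} (hp : p.Prime) (x : ℤ) : ∑ c ∈ range p, Lq p (x + c) = p := by
  classical
  have hp0 : (0 : ℤ) < p := by exact_mod_cast hp.pos
  have h1 : ∀ c ∈ range p, Lq p (x + c) = if c = ((-x) % p).toNat then 0 else (1 - 1 / (p : ℝ))⁻¹ := by
    intro c hc
    rw [l1_prime hp]
    have hm0 := Int.emod_nonneg (-x) hp0.ne'
    have hm1 := Int.emod_lt_of_pos (-x) hp0
    have hcp : (c : ℤ) < p := by exact_mod_cast mem_range.1 hc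
    have key : (p : ℤ) ∣ x + c ↔ c = ((-x) % p).toNat := by
      constructor
      · intro h
        have h2 : (c : ℤ) ≡ -x [ZMOD p] := by
          refine (Int.modEq_iff_dvd.2 ?_).symm
          have e : (c : ℤ) - -x = x + c := by ring
          rw [e]
          exact h
        have h3 : (c : ℤ) % p = (-x) % p := h2
        rw [Int.emod_eq_of_lt (Int.natCast_nonneg c) hcp] at h3
        rw [← h3]
        rfl
      · intro h
        have h2 : (c : ℤ) = (-x) % p := by
          rw [h, Int.toNat_of_nonneg hm0]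
        rw [h2]
        have h3 := Int.dvd_sub_self_of_emod_eq (a := -x) (b := p) (c := (-x) % p) rfl
        have e : x + (-x) % p = (-x) % p - -x := by ring
        rw [e]
        exact h3
    by_cases h : (p : ℤ) ∣ x + c
    · rw [if_pos h, if_pos (key.1 h)]
    · rw [if_neg h, if_neg fun hc => h (key.2 hc)]
  rw [sum_congr rfl h1]
  have hmem : ((-x) % p).toNat ∈ range p := by
    rw [mem_range]
    have hm0 := Int.emod_nonneg (-x) hp0.ne'
    have hm1 := Int.emod_lt_of_pos (-x) hp0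
    omega
  rw [sum_ite, sum_const_zero, zero_add, sum_const, filter_ne', card_erase_of_mem hmem, card_range,
    nsmul_eq_mul, Nat.cast_sub hp.one_lt.le, Nat.cast_one]
  have h0 : (p : ℝ) ≠ 0 := by exact_mod_cast hp.ne_zero
  have h1 : (p : ℝ) - 1 ≠ 0 := by
    have : (1 : ℝ) < p := by exact_mod_cast hp.one_lt
    linarith
  have e : (1 - 1 / (p : ℝ)) = (p - 1) / p := by field_simp
  rw [e, inv_div]
  field_simp

theorem l2a_Lq_le {p : ℕ} (hp : p.Prime) (m : ℤ) : Lq p m ≤ 2 := by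
  rw [l1_prime hp]
  split_ifs
  · norm_num
  · have h2 : (2 : ℝ) ≤ p := by exact_mod_cast hp.two_le
    have h3 : 1 / (p : ℝ) ≤ 1 / 2 := one_div_le_one_div_of_le (by norm_num) h2
    rw [inv_le_comm₀ (by linarith) (by norm_num)]
    linarith

theorem l2a_bL_le {p : ℕ} (hp : p.Prime) (r : ℕ) (B : ℤ[X]) (v : ℕ) : bL r B p v ≤ 2 := by
  unfold bL
  split_ifs
  · norm_num
  · exact l2a_Lq_le hp _

/-- The mean of `af` is the mean of `bL`. -/
theorem l2a_mean (r : ℕ) (B : ℤ[X]) {g : ℕ} (P : Fin g → ℤ[X]) (p : ℕ) (hp : p.Prime) (I : Finset (Fin g)) :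
    mean p (af r B P I p) = (∑ v ∈ range p, bL r B p v) / p := by
  classical
  have hp0 : (p : ℝ) ≠ 0 := by exact_mod_cast hp.ne_zero
  have key : ∀ v : ℕ, ∑ h ∈ cube g p, ∏ i ∈ I, Lq p ((P i).eval (v : ℤ) + h i) = (p : ℝ) ^ g := by
    intro v
    have e1 : ∀ h ∈ cube g p, ∏ i ∈ I, Lq p ((P i).eval (v : ℤ) + h i) =
        ∏ i, (if i ∈ I then Lq p ((P i).eval (v : ℤ) + h i) else 1) := by
      intro h _
      rw [prod_ite_mem, univ_inter]
    rw [sum_congr rfl e1]
    unfold cube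
    rw [← prod_univ_sum (fun _ : Fin g => range p)
      (fun i c => if i ∈ I then Lq p ((P i).eval (v : ℤ) + (c : ℕ)) else 1)]
    have e2 : ∀ i ∈ (univ : Finset (Fin g)), ∑ c ∈ range p, (if i ∈ I then Lq p ((P i).eval (v : ℤ) + (c : ℕ)) else 1) =
        (p : ℝ) := by
      intro i _
      by_cases hi : i ∈ I
      · simp only [if_pos hi]
        exact l2a_sum hp _
      · simp only [if_neg hi]
        simp
    rw [prod_congr rfl e2, prod_const, card_univ, Fintype.card_fin]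
  unfold mean af
  rw [← sum_div, sum_comm]
  have e3 : ∀ v ∈ range p, ∑ h ∈ cube g p, bL r B p v * ∏ i ∈ I, Lq p ((P i).eval (v : ℤ) + h i) =
      bL r B p v * (p : ℝ) ^ g := by
    intro v _
    rw [← mul_sum, key]
  rw [sum_congr rfl e3, ← sum_mul]
  have hpg : (p : ℝ) ^ g ≠ 0 := pow_ne_zero _ hp0
  field_simp

theorem l2a_bLsum_le (r : ℕ) (B : ℤ[X]) {p : ℕ} (hp : p.Prime) : (∑ v ∈ range p, bL r B p v) / p ≤ 2 := by
  have hp0 : (0 : ℝ) < p := by exact_mod_cast hp.pos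
  rw [div_le_iff₀ hp0]
  calc ∑ v ∈ range p, bL r B p v ≤ ∑ v ∈ range p, (2 : ℝ) := sum_le_sum fun v _ => l2a_bL_le hp r B v
    _ = 2 * p := by rw [sum_const, card_range, nsmul_eq_mul, mul_comm]

/-- `∑_v bL(v) = p` for `p > A`. -/
theorem l2a_bLsum {A r : ℕ} {B : ℤ[X]} (hB : Bas A r B) {p : ℕ} (hp : p.Prime) (hA : A < p) :
    ∑ v ∈ range p, bL r B p v = p := by
  classical
  rcases hB with ⟨hr, hB1⟩ | ⟨hr, hd, hl⟩
  · subst hr
    unfold bL
    simp
  · subst hr
    have h0 : B.leadingCoeff ≠ 0 := by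
      intro h
      rw [leadingCoeff_eq_zero] at h
      rw [h] at hd
      simp at hd
    have ha : B.coeff 1 ≠ 0 := by
      rw [← hd]
      exact h0
    have hal : (B.coeff 1).natAbs ≤ A := by
      rw [← hd]
      exact hl
    have hev : ∀ v : ℕ, B.eval (v : ℤ) = B.coeff 1 * v + B.coeff 0 := by
      intro v
      conv_lhs => rw [eq_X_add_C_of_natDegree_le_one hd.le]
      simp
    have hcop : IsCoprime (B.coeff 1) (p : ℤ) := by
      rw [isCoprime_comm, (Nat.prime_iff_prime_int.1 hp).coprime_iff_not_dvd, Int.natCast_dvd]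
      intro hd
      have := Nat.le_of_dvd (Int.natAbs_pos.2 ha) hd
      omega
    have h1 : ∑ v ∈ range p, bL 1 B p v = ∑ c ∈ range p, Lq p (B.coeff 0 + c) := by
      have hp0 : (0 : ℤ) < p := by exact_mod_cast hp.pos
      refine sum_bij (fun v _ => ((B.coeff 1 * v) % p).toNat) ?_ ?_ ?_ ?_
      · intro v _
        rw [mem_range]
        have hm0 := Int.emod_nonneg (B.coeff 1 * v) hp0.ne'
        have hm1 := Int.emod_lt_of_pos (B.coeff 1 * v) hp0
        omega
      · intro v hv w hw hvw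
        rw [mem_range] at hv hw
        have hm0 := Int.emod_nonneg (B.coeff 1 * v) hp0.ne'
        have hm1 := Int.emod_nonneg (B.coeff 1 * w) hp0.ne'
        have e1 : (B.coeff 1 * v) % p = (B.coeff 1 * w) % p := by
          have := congrArg (fun n : ℕ => (n : ℤ)) hvw
          simp only [Int.toNat_of_nonneg hm0, Int.toNat_of_nonneg hm1] at this
          exact this
        have e2 : (p : ℤ) ∣ B.coeff 1 * w - B.coeff 1 * v := Int.modEq_iff_dvd.1 e1
        rw [← mul_sub] at e2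
        have e3 : (p : ℤ) ∣ (w : ℤ) - v := hcop.symm.dvd_of_dvd_mul_left e2
        have e4 : (v : ℤ) ≡ w [ZMOD p] := Int.modEq_iff_dvd.2 e3
        have e5 : v ≡ w [MOD p] := Int.natCast_modEq_iff.1 e4
        have e6 : v % p = w % p := e5
        rwa [Nat.mod_eq_of_lt hv, Nat.mod_eq_of_lt hw] at e6
      · intro c hc
        rw [mem_range] at hc
        obtain ⟨x, y, hxy⟩ := hcop
        have hm0 := Int.emod_nonneg (x * c) hp0.ne'
        have hm1 := Int.emod_lt_of_pos (x * c) hp0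
        refine ⟨((x * c) % p).toNat, mem_range.2 (by omega), ?_⟩
        have e0 : ((((x * c) % p).toNat : ℕ) : ℤ) = (x * c) % p := Int.toNat_of_nonneg hm0
        have e1 : (B.coeff 1 * ((((x * c) % p).toNat : ℕ) : ℤ)) % p = c := by
          rw [e0]
          have e2 : B.coeff 1 * ((x * c) % p) ≡ (c : ℤ) [ZMOD p] := by
            have e3 : (x * c) % p ≡ x * c [ZMOD p] := Int.mod_modEq _ _
            have e4 : B.coeff 1 * ((x * c) % p) ≡ B.coeff 1 * (x * c) [ZMOD p] := e3.mul_left _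
            refine e4.trans ?_
            refine Int.modEq_iff_dvd.2 ⟨y * c, ?_⟩
            have e5 : (c : ℤ) = (x * B.coeff 1 + y * p) * c := by rw [hxy, one_mul]
            calc (c : ℤ) - B.coeff 1 * (x * c) = (x * B.coeff 1 + y * p) * c - B.coeff 1 * (x * c) := by
                  rw [← e5]
              _ = p * (y * c) := by ring
          have e6 : (B.coeff 1 * ((x * c) % p)) % p = (c : ℤ) % p := e2
          rw [e6]
          exact Int.emod_eq_of_lt (Int.natCast_nonneg c) (by exact_mod_cast hc)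
        rw [e1]
        rfl
      · intro v _
        have hm0 := Int.emod_nonneg (B.coeff 1 * v) hp0.ne'
        unfold bL
        rw [if_neg one_ne_zero, hev]
        refine l1_congr p ?_
        rw [Int.toNat_of_nonneg hm0]
        have e : B.coeff 1 * v + B.coeff 0 - (B.coeff 0 + (B.coeff 1 * v) % p) =
            B.coeff 1 * v - (B.coeff 1 * v) % p := by ring
        rw [e]
        exact Int.dvd_self_sub_of_emod_eq rfl
    rw [h1]
    exact l2a_sum hp _

/-- Proof. Exchange the sums over `h` and `v`: for fixed `v` the sum over `h ∈ cube g p` is `∏_i ∑_{h_i < p}` (`Finset.prod_univ_sum`), equal to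
`p` for `i ∉ I` and to `∑_{c < p} Lq p (P_i(v) + c) = (p - 1) p/(p - 1) = p` for `i ∈ I`. So the mean is `(1/p) ∑_v bL r B p v`, which is `1` for `r = 0`;
for `r = 1`, `B = a x + b` with `p ∤ a` (`0 < |a| ≤ A < p`), `B(v)` runs through all residues, and the mean is `1` again. -/
theorem af_mean (A r : ℕ) (B : ℤ[X]) (hB : Bas A r B) {g : ℕ} (P : Fin g → ℤ[X]) (p : ℕ)
    (hp : p.Prime) (hA : A < p) (I : Finset (Fin g)) : mean p (af r B P I p) = 1 := by
  have hp0 : (p : ℝ) ≠ 0 := by exact_mod_cast hp.ne_zero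
  rw [l2a_mean r B P p hp I, l2a_bLsum hB hp hA, div_self hp0]

/-- Proof. As `af_mean`; `Lq p m ≤ p/(p-1) ≤ 2`. -/
theorem af_mean_le (A r : ℕ) (B : ℤ[X]) (hB : Bas A r B) {g : ℕ} (P : Fin g → ℤ[X]) (p : ℕ)
    (hp : p.Prime) (I : Finset (Fin g)) : mean p (af r B P I p) ≤ 2 := by
  rw [l2a_mean r B P p hp I]
  exact l2a_bLsum_le r B hp

/-- Proof. `Lq p m ≤ 2`. -/
theorem af_le (r : ℕ) (B : ℤ[X]) {g : ℕ} (P : Fin g → ℤ[X]) (p : ℕ)
    (hp : p.Prime) (I : Finset (Fin g)) (h : Fin g → ℕ) : af r B P I p h ≤ 2 ^ (g + 1) := by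
  have hp0 : (0 : ℝ) < p := by exact_mod_cast hp.pos
  unfold af
  rw [div_le_iff₀ hp0]
  have h1 : ∀ v ∈ range p, bL r B p v * ∏ i ∈ I, Lq p ((P i).eval (v : ℤ) + h i) ≤ (2 : ℝ) ^ (g + 1) := by
    intro v _
    have h2 : ∏ i ∈ I, Lq p ((P i).eval (v : ℤ) + h i) ≤ (2 : ℝ) ^ I.card := by
      rw [← prod_const]
      exact prod_le_prod (fun i _ => l1_Lq_nonneg _ _) fun i _ => l2a_Lq_le hp _
    have h3 : (2 : ℝ) ^ I.card ≤ 2 ^ g := by
      refine pow_le_pow_right₀ (by norm_num) ?_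
      have := card_le_univ I
      rwa [Fintype.card_fin] at this
    rw [pow_succ, mul_comm ((2 : ℝ) ^ g)]
    exact mul_le_mul (l2a_bL_le hp r B v) (h2.trans h3) (prod_nonneg fun i _ => l1_Lq_nonneg _ _) (by norm_num)
  refine (sum_le_sum h1).trans ?_
  rw [sum_const, card_range, nsmul_eq_mul, mul_comm]

end Pool.Agent.Lib.H59X
end

-- from Lib.H59X.EP5
section

/-!
# Chunk EP5: the engine for `h + P(n)`, in terms of `X` only
-/

open Finset Polynomial

namespace Pool.Agent.Lib.H59X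

open Pool.Agent.Lib.H59 (argSet argCount Admissible primeCount omegaN seriesTrunc rootCount)
open Pool.Agent.Lib.H68T (lp)
open Pool.Agent.Lib.H33B (Lq Lw PW SieveWt)

/-- Change of the scale.

Proof. `S ≥ 0`, because `S ≥ ∑ f` by `cls` for `q = 1` (`1 ≤ (log Z)^K'`). `le`, `large`: `(log Z)^C ≤ (log Y)^C`. `cls`: hypothesis. -/
theorem wt_scale (D : ℕ) (C K K' : ℝ) (hC : 0 ≤ C) (hK' : 0 ≤ K') (X Y Z : ℕ) (S : ℝ) (f : ℕ → ℝ)
    (hZ : 1 ≤ Real.log Z) (hZY : Real.log Z ≤ Real.log Y) (hKK : Real.log Y ^ K ≤ Real.log Z ^ K')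
    (hf : SieveWt D C K' Z X S f) : SieveWt D C K Y X S f := by
  have hlogZ : 0 < Real.log Z := by linarith
  have hS : 0 ≤ S := by
    have h1 := hf.cls 1 0 squarefree_one (by
      rw [Nat.cast_one]; exact Real.one_le_rpow hZ hK')
    have h2 : 0 ≤ ∑ n ∈ (Icc 1 X).filter (fun n => n ≡ 0 [MOD 1]), f n :=
      sum_nonneg fun n hn => hf.nonneg n (mem_filter.mp hn).1
    simp only [Nat.primeFactors_one, card_empty, pow_zero, one_mul, Nat.cast_one, div_one] at h1
    linarith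
  have hpow : Real.log Z ^ C ≤ Real.log Y ^ C := Real.rpow_le_rpow hlogZ.le hZY hC
  exact ⟨hf.nonneg, fun n hn => (hf.le n hn).trans hpow,
    fun q b hq hqK => hf.cls q b hq (hqK.trans hKK),
    hf.large.trans (mul_le_mul_of_nonneg_left hpow hS)⟩

theorem EP5_Lw_le (w : ℕ) (m : ℤ) : Lw w m ≤ PW w := by
  unfold Pool.Agent.Lib.H33B.Lw Pool.Agent.Lib.H33B.Lq
  have hP : 0 < PW w := H33B.PW_pos w
  split_ifs
  · have h1 : (1 : ℝ) ≤ ((PW w).totient : ℝ) := by exact_mod_cast Nat.totient_pos.2 hP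
    exact div_le_self (Nat.cast_nonneg _) h1
  · exact Nat.cast_nonneg _

theorem EP5_low (P : ℤ[X]) (hk : 1 ≤ P.natDegree) (hl : 0 < P.leadingCoeff) :
    ∃ c n₀ : ℕ, ∀ n h : ℕ, (h : ℤ) + P.eval (n : ℤ) ≤ 0 → h ≤ c ∧ (1 ≤ h → n < n₀) := by
  obtain ⟨c, hc⟩ := H33B.ENG_low P hk hl
  obtain ⟨n₁, hn₁⟩ := Pool.Agent.Lib.H59.exists_strictMono hk hl
  refine ⟨c, n₁ + c + 2, fun n h hnh => ⟨by have := hc n; omega, fun h1 => ?_⟩⟩
  by_contra hcon
  push Not at hcon
  have hgrow : ∀ k : ℕ, P.eval (n₁ : ℤ) + k ≤ P.eval ((n₁ + k : ℕ) : ℤ) := by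
    intro k
    induction k with
    | zero => simp
    | succ k ih =>
      have := hn₁ (n₁ + k) (n₁ + (k + 1)) (by omega) (by omega)
      push_cast at *
      omega
  obtain ⟨k, hk'⟩ : ∃ k, n = n₁ + k := ⟨n - n₁, by omega⟩
  have h2 := hgrow k
  rw [← hk'] at h2
  have h3 := hc n₁
  omega

open Filter in
theorem EP5_ev (a b C : ℝ) (hC : 0 ≤ C) : ∃ X₀ : ℕ, 3 ≤ X₀ ∧ ∀ X : ℕ, X₀ ≤ X →
    a ≤ X ∧ b ≤ Real.log X ∧ Real.log X ^ (2 * C) ≤ X ∧ 1 ≤ Real.log X := by
  have hlog : Tendsto (fun X : ℕ => Real.log (X : ℝ)) atTop atTop :=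
    Real.tendsto_log_atTop.comp tendsto_natCast_atTop_atTop
  have h1 : ∀ᶠ x : ℝ in atTop, ‖Real.log x ^ (2 * C)‖ ≤ 1 * ‖x ^ (1 : ℝ)‖ :=
    (isLittleO_log_rpow_rpow_atTop (2 * C) one_pos).bound one_pos
  have h2 : ∀ᶠ X : ℕ in atTop, ‖Real.log (X : ℝ) ^ (2 * C)‖ ≤ 1 * ‖(X : ℝ) ^ (1 : ℝ)‖ :=
    tendsto_natCast_atTop_atTop.eventually h1
  obtain ⟨X₀, hX₀⟩ := eventually_atTop.1 (((tendsto_natCast_atTop_atTop (R := ℝ)).eventually_ge_atTop
    a).and ((hlog.eventually_ge_atTop b).and (h2.and (hlog.eventually_ge_atTop 1))))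
  refine ⟨max X₀ 3, le_max_right _ _, fun X hX => ?_⟩
  obtain ⟨a1, a2, a3, a4⟩ := hX₀ X ((le_max_left _ _).trans hX)
  refine ⟨a1, a2, ?_, a4⟩
  rw [one_mul, Real.rpow_one, Real.norm_of_nonneg (Real.rpow_nonneg (by linarith) _),
    Real.norm_of_nonneg (Nat.cast_nonneg _)] at a3
  exact a3

/-- The engine for `h + P(n)`, `h ≤ H`, `n ≤ X`, `H` of the order of `X^(deg P)`.

Proof. Put `d = deg P`. Let `B` be a natural number with `B ≥ C₁ + coeffSum P + 1` (`H59.eval_le_coeffSum`: `P(n) ≤ coeffSum P · n^d` for `n ≥ 1`),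
`Y = B X^d`. Then `P(n) ≤ Y` for `1 ≤ n ≤ X`, `H ≤ Y`, `X ≤ 2 Y`, `(1/B) Y ≤ X^d`, and `log Y ≤ (d + 1) log X` for large `X`, so
`(log Y)^K ≤ (log X)^(K+1)`. Take `K₀` from `engine_plus0 P hk hl D C (1/B)` and `K = K₀ + 1`; by `wt_scale` (`Z = X`) `f` is a
`SieveWt D C K₀ Y X S`. `engine_plus0` with `ε' = ε/(2 B C₁)` bounds
`∑_{N ≤ Y} |∑_{n ≤ X, 0 < N + P(n)} f(n)(lp - Lw)(N + P(n))|` by `ε' Y S ≤ (ε/2) H S` (`Y = B X^d ≤ B C₁ H`); drop the `N > H`. The
remaining `n`, those with `h + P(n) ≤ 0`: since `lc P > 0` there are `n₀, c₀` (depending on `P` only, `H33B.ENG_low`, `H59.exists_strictMono`) with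
`n < n₀` and `h ≤ c₀` for all such pairs `(h, n)`; there `lp = 0`, `0 ≤ Lw w m ≤ PW w` (`Lq q m ≤ q/φ(q) ≤ q`) and `f(n) ≤ (log X)^C`, so in total they
contribute at most `n₀ c₀ (log X)^C PW w`, and this is `≤ (ε/2) H S` for large `X`, because `S (log X)^C ≥ X` and `H ≥ X^d/C₁ ≥ X/C₁`. -/
theorem engine_shift (P : ℤ[X]) (hk : 1 ≤ P.natDegree) (hl : 0 < P.leadingCoeff) (D : ℕ) (C C₁ : ℝ)
    (hC : 0 ≤ C) (hC₁ : 1 ≤ C₁) :
    ∃ K : ℝ, 0 ≤ K ∧ ∀ ε : ℝ, 0 < ε → ∃ w₀ : ℕ, ∀ w : ℕ, w₀ ≤ w → ∃ X₀ : ℕ, ∀ X : ℕ, X₀ ≤ X →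
    ∀ H : ℕ, (X : ℝ) ^ P.natDegree ≤ C₁ * H → (H : ℝ) ≤ C₁ * (X : ℝ) ^ P.natDegree →
    ∀ (f : ℕ → ℝ) (S : ℝ), SieveWt D C K X X S f →
    ∑ h ∈ Icc 1 H, |∑ n ∈ Icc 1 X, f n * (lp (P.eval (n : ℤ) + h) - Lw w (P.eval (n : ℤ) + h))| ≤
      ε * H * S := by
  obtain ⟨B, hB⟩ := exists_nat_ge (C₁ + Pool.Agent.Lib.H59.coeffSum P + 1)
  have hP0 : P ≠ 0 := by rintro rfl; simp at hl
  have hcs : 1 ≤ Pool.Agent.Lib.H59.coeffSum P := Pool.Agent.Lib.H59.one_le_coeffSum hP0
  have hB1 : (1 : ℝ) ≤ B := by linarith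
  have hB0 : (0 : ℝ) < B := by linarith
  obtain ⟨K₀, hK₀, heng⟩ := engine_plus0 P hk hl D C (1 / B) hC (by positivity)
  obtain ⟨c, n₀, hlow⟩ := EP5_low P hk hl
  set d := P.natDegree with hd
  refine ⟨K₀ + 1, by linarith, fun ε hε => ?_⟩
  obtain ⟨w₀, hw₀⟩ := heng (ε / (2 * B * C₁)) (by positivity)
  refine ⟨w₀, fun w hw => ?_⟩
  obtain ⟨Y₀, hY₀⟩ := hw₀ w hw
  obtain ⟨X₀, hX₀3, hX₀⟩ := EP5_ev (max (max B Y₀) (2 * ((c : ℝ) * n₀ * PW w * C₁) / ε))
    (((d : ℝ) + 1) ^ K₀) C hC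
  refine ⟨X₀, fun X hX H hH1 hH2 f S hf => ?_⟩
  obtain ⟨e1, e2, e3, e4⟩ := hX₀ X hX
  have hX3 : 3 ≤ X := hX₀3.trans hX
  have hXpos : (0 : ℝ) < X := by
    have : (3 : ℝ) ≤ X := by exact_mod_cast hX3
    linarith
  have hX1 : (1 : ℝ) ≤ X := by
    have : (3 : ℝ) ≤ X := by exact_mod_cast hX3
    linarith
  have hBX : (B : ℝ) ≤ X := ((le_max_left _ _).trans (le_max_left _ _)).trans e1
  have hYX : (Y₀ : ℝ) ≤ X := ((le_max_right _ _).trans (le_max_left _ _)).trans e1
  have hcX : 2 * ((c : ℝ) * n₀ * PW w * C₁) / ε ≤ X := (le_max_right _ _).trans e1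
  have hXd : (X : ℝ) ≤ (X : ℝ) ^ d := le_self_pow₀ hX1 (by omega)
  have hlogpos : 0 < Real.log X := by linarith
  set Y : ℕ := B * X ^ d with hY
  have hYr : (Y : ℝ) = B * (X : ℝ) ^ d := by rw [hY]; push_cast; ring
  have hXY : (X : ℝ) ≤ Y := by
    rw [hYr]; nlinarith
  have hYpos : (0 : ℝ) < Y := by linarith
  have hlogXY : Real.log X ≤ Real.log Y := Real.log_le_log hXpos hXY
  have hlogY : Real.log Y ≤ ((d : ℝ) + 1) * Real.log X := by
    have h1 : (Y : ℝ) ≤ (X : ℝ) ^ (d + 1) := by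
      rw [hYr, pow_succ]
      calc (B : ℝ) * (X : ℝ) ^ d ≤ X * (X : ℝ) ^ d := mul_le_mul_of_nonneg_right hBX (by positivity)
        _ = _ := by ring
    calc Real.log Y ≤ Real.log ((X : ℝ) ^ (d + 1)) := Real.log_le_log hYpos h1
      _ = _ := by rw [Real.log_pow]; push_cast; ring
  have hKK : Real.log Y ^ K₀ ≤ Real.log X ^ (K₀ + 1) := by
    calc Real.log Y ^ K₀ ≤ (((d : ℝ) + 1) * Real.log X) ^ K₀ :=
          Real.rpow_le_rpow (by linarith) hlogY hK₀
      _ = ((d : ℝ) + 1) ^ K₀ * Real.log X ^ K₀ := Real.mul_rpow (by positivity) hlogpos.le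
      _ ≤ Real.log X * Real.log X ^ K₀ :=
          mul_le_mul_of_nonneg_right e2 (Real.rpow_nonneg hlogpos.le _)
      _ = _ := by rw [Real.rpow_add_one hlogpos.ne']; ring
  have hfY := wt_scale D C K₀ (K₀ + 1) hC (by linarith) X Y X S f e4 hlogXY hKK hf
  have hPY : ∀ n ∈ Icc 1 X, P.eval (n : ℤ) ≤ Y := by
    intro n hn
    rw [mem_Icc] at hn
    have h1 := Pool.Agent.Lib.H59.eval_le_coeffSum P hn.1
    have h2 : (n : ℝ) ^ d ≤ (X : ℝ) ^ d :=
      pow_le_pow_left₀ (Nat.cast_nonneg _) (by exact_mod_cast hn.2) d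
    have h3 : ((P.eval (n : ℤ) : ℤ) : ℝ) ≤ (Y : ℝ) := by
      rw [hYr]
      calc ((P.eval (n : ℤ) : ℤ) : ℝ) ≤ Pool.Agent.Lib.H59.coeffSum P * (n : ℝ) ^ d := h1
        _ ≤ Pool.Agent.Lib.H59.coeffSum P * (X : ℝ) ^ d :=
            mul_le_mul_of_nonneg_left h2 (by linarith)
        _ ≤ B * (X : ℝ) ^ d := mul_le_mul_of_nonneg_right (by linarith) (by positivity)
    exact_mod_cast h3
  have hY0' : Y₀ ≤ Y := by
    have : (Y₀ : ℝ) ≤ Y := hYX.trans hXY
    exact_mod_cast this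
  have hmain := hY₀ Y X hY0' (by omega) (by
    rw [hYr]
    have : 1 / (B : ℝ) * (B * (X : ℝ) ^ d) = (X : ℝ) ^ d := by field_simp
    rw [this]) (by linarith) hPY f S hfY
  -- `H ≤ Y`
  have hHY : H ≤ Y := by
    have : (H : ℝ) ≤ Y := by
      rw [hYr]
      exact hH2.trans (mul_le_mul_of_nonneg_right (by linarith) (by positivity))
    exact_mod_cast this
  have hS : 0 ≤ S := by
    have h1 := hf.large
    have h2 : 0 < Real.log X ^ C := Real.rpow_pos_of_pos hlogpos _
    by_contra hc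
    push Not at hc
    nlinarith
  -- the two parts
  have hsplit : ∀ h ∈ Icc 1 H, |∑ n ∈ Icc 1 X, f n * (lp (P.eval (n : ℤ) + h) -
      Lw w (P.eval (n : ℤ) + h))| ≤
      |∑ n ∈ (Icc 1 X).filter (fun n : ℕ => 0 < (h : ℤ) + P.eval (n : ℤ)),
        f n * (lp ((h : ℤ) + P.eval (n : ℤ)) - Lw w ((h : ℤ) + P.eval (n : ℤ)))| +
      (if h ≤ c then (n₀ : ℝ) * (Real.log X ^ C * PW w) else 0) := by
    intro h hh
    rw [mem_Icc] at hh
    have h1 : ∑ n ∈ Icc 1 X, f n * (lp (P.eval (n : ℤ) + h) - Lw w (P.eval (n : ℤ) + h)) =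
        ∑ n ∈ (Icc 1 X).filter (fun n : ℕ => 0 < (h : ℤ) + P.eval (n : ℤ)),
          f n * (lp ((h : ℤ) + P.eval (n : ℤ)) - Lw w ((h : ℤ) + P.eval (n : ℤ))) +
        ∑ n ∈ (Icc 1 X).filter (fun n : ℕ => ¬ 0 < (h : ℤ) + P.eval (n : ℤ)),
          f n * (lp ((h : ℤ) + P.eval (n : ℤ)) - Lw w ((h : ℤ) + P.eval (n : ℤ))) := by
      rw [sum_filter_add_sum_filter_not]
      refine sum_congr rfl fun n _ => ?_
      rw [add_comm]
    rw [h1]
    refine (abs_add_le _ _).trans (add_le_add le_rfl ?_)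
    have h2 : ∀ n ∈ (Icc 1 X).filter (fun n : ℕ => ¬ 0 < (h : ℤ) + P.eval (n : ℤ)),
        |f n * (lp ((h : ℤ) + P.eval (n : ℤ)) - Lw w ((h : ℤ) + P.eval (n : ℤ)))| ≤
          Real.log X ^ C * PW w := by
      intro n hn
      rw [mem_filter] at hn
      have h3 : lp ((h : ℤ) + P.eval (n : ℤ)) = 0 := by
        unfold Pool.Agent.Lib.H68T.lp
        rw [if_neg]
        intro h4
        have := h4.pos
        omega
      have h5 := EP5_Lw_le w ((h : ℤ) + P.eval (n : ℤ))
      have h6 := H33B.ENG_Lw_nonneg w ((h : ℤ) + P.eval (n : ℤ))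
      rw [h3, abs_mul, abs_of_nonneg (hf.nonneg n hn.1), zero_sub, abs_neg, abs_of_nonneg h6]
      exact mul_le_mul (hf.le n hn.1) h5 h6 (Real.rpow_nonneg hlogpos.le _)
    refine (abs_sum_le_sum_abs _ _).trans ((sum_le_sum h2).trans ?_)
    rw [sum_const, nsmul_eq_mul]
    have hnn : 0 ≤ Real.log X ^ C * (PW w : ℝ) :=
      mul_nonneg (Real.rpow_nonneg hlogpos.le _) (Nat.cast_nonneg _)
    split_ifs with hc
    · refine mul_le_mul_of_nonneg_right ?_ hnn
      have h3 : (Icc 1 X).filter (fun n : ℕ => ¬ 0 < (h : ℤ) + P.eval (n : ℤ)) ⊆ range n₀ := by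
        intro n hn
        rw [mem_filter] at hn
        rw [mem_range]
        exact (hlow n h (by omega)).2 hh.1
      have h4 := card_le_card h3
      rw [card_range] at h4
      exact_mod_cast h4
    · have h3 : (Icc 1 X).filter (fun n : ℕ => ¬ 0 < (h : ℤ) + P.eval (n : ℤ)) = ∅ := by
        rw [filter_eq_empty_iff]
        intro n _ hn
        exact hc (hlow n h (by omega)).1
      rw [h3, card_empty, Nat.cast_zero, zero_mul]
  refine (sum_le_sum hsplit).trans ?_
  rw [sum_add_distrib]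
  have hpart1 : ∑ h ∈ Icc 1 H, |∑ n ∈ (Icc 1 X).filter (fun n : ℕ => 0 < (h : ℤ) + P.eval (n : ℤ)),
        f n * (lp ((h : ℤ) + P.eval (n : ℤ)) - Lw w ((h : ℤ) + P.eval (n : ℤ)))| ≤
      ε / 2 * H * S := by
    refine (sum_le_sum_of_subset_of_nonneg (Icc_subset_Icc le_rfl hHY)
      fun _ _ _ => abs_nonneg _).trans (hmain.trans ?_)
    have h1 : (Y : ℝ) ≤ B * (C₁ * H) := by
      rw [hYr]; exact mul_le_mul_of_nonneg_left hH1 hB0.le
    calc ε / (2 * B * C₁) * Y * S ≤ ε / (2 * B * C₁) * (B * (C₁ * H)) * S := by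
          apply mul_le_mul_of_nonneg_right _ hS
          exact mul_le_mul_of_nonneg_left h1 (by positivity)
      _ = ε / 2 * H * S := by
          field_simp
  have hpart2 : ∑ h ∈ Icc 1 H, (if h ≤ c then (n₀ : ℝ) * (Real.log X ^ C * PW w) else 0) ≤
      ε / 2 * H * S := by
    have hnn : 0 ≤ (n₀ : ℝ) * (Real.log X ^ C * (PW w : ℝ)) := by
      have := Real.rpow_nonneg hlogpos.le C
      positivity
    have h1 : ∑ h ∈ Icc 1 H, (if h ≤ c then (n₀ : ℝ) * (Real.log X ^ C * PW w) else 0) ≤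
        c * ((n₀ : ℝ) * (Real.log X ^ C * PW w)) := by
      rw [← sum_filter, sum_const, nsmul_eq_mul]
      refine mul_le_mul_of_nonneg_right ?_ hnn
      have h3 : (Icc 1 H).filter (fun h => h ≤ c) ⊆ Icc 1 c := by
        intro h hh
        rw [mem_filter, mem_Icc] at hh
        rw [mem_Icc]
        exact ⟨hh.1.1, hh.2⟩
      have h4 := card_le_card h3
      rw [Nat.card_Icc, Nat.add_sub_cancel] at h4
      exact_mod_cast h4
    refine h1.trans ?_
    have hLC : 0 < Real.log X ^ C := Real.rpow_pos_of_pos hlogpos _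
    have h2 : (c : ℝ) * n₀ * PW w * C₁ ≤ ε / 2 * X := by
      rw [div_le_iff₀ hε] at hcX
      linarith
    have h3 : (X : ℝ) ≤ C₁ * H := hXd.trans hH1
    have h4 : Real.log X ^ (2 * C) = Real.log X ^ C * Real.log X ^ C := by
      rw [← Real.rpow_add hlogpos]; congr 1; ring
    rw [h4] at e3
    -- multiply by `C₁ (log X)^C`
    have h5 : (c * ((n₀ : ℝ) * (Real.log X ^ C * PW w))) * (C₁ * Real.log X ^ C) ≤
        (ε / 2 * H * S) * (C₁ * Real.log X ^ C) := by
      calc (c * ((n₀ : ℝ) * (Real.log X ^ C * PW w))) * (C₁ * Real.log X ^ C)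
          = ((c : ℝ) * n₀ * PW w * C₁) * (Real.log X ^ C * Real.log X ^ C) := by ring
        _ ≤ (ε / 2 * X) * X := by
            apply mul_le_mul h2 e3 (by positivity) (by positivity)
        _ ≤ (ε / 2 * (C₁ * H)) * (S * Real.log X ^ C) := by
            apply mul_le_mul _ hf.large hXpos.le (by positivity)
            exact mul_le_mul_of_nonneg_left h3 (by positivity)
        _ = _ := by ring
    exact le_of_mul_le_mul_right h5 (by positivity)
  linarith

end Pool.Agent.Lib.H59X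
end

-- from Lib.H59X.S1
section

/-!
# Chunk S1: a uniform upper bound sieve in residue classes
-/

open Finset Polynomial

namespace Pool.Agent.Lib.H59X

open Pool.Agent.Lib.H59 (argSet argCount Admissible primeCount omegaN seriesTrunc rootCount)
open Pool.Agent.Lib.H68T (lp)
open Pool.Agent.Lib.H33B (Lq Lw PW SieveWt AllPrime)

/-- few `n` have all values prime and one of them divisible by a given prime -/
theorem S1_few {m : ℕ} (R : Fin m → ℤ[X]) (hd : ∀ i, 1 ≤ (R i).natDegree) (X p : ℕ) (hp : p.Prime)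
    (T : Finset ℕ) (hT : T ⊆ Icc 1 X) (hA : ∀ n ∈ T, AllPrime R n)
    (hdiv : ∀ n ∈ T, (p : ℤ) ∣ (∏ i, R i).eval (n : ℤ)) : T.card ≤ ∑ i, (R i).natDegree := by
  classical
  have hsub : T ⊆ Finset.univ.biUnion fun i => (Icc 1 X).filter fun n : ℕ =>
      (R i).eval (n : ℤ) = (p : ℤ) := by
    intro n hn
    have h := hdiv n hn
    rw [eval_prod] at h
    have hpZ := Nat.prime_iff_prime_int.1 hp
    obtain ⟨i, _, hi⟩ := (hpZ.dvd_finsetProd_iff _).1 h
    obtain ⟨r, hr, hre⟩ := hA n hn i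
    rw [mem_biUnion]
    refine ⟨i, mem_univ _, mem_filter.2 ⟨hT hn, ?_⟩⟩
    rw [hre] at hi ⊢
    rw [Int.natCast_dvd_natCast, Nat.prime_dvd_prime_iff_eq hp hr] at hi
    rw [hi]
  refine (card_le_card hsub).trans (card_biUnion_le.trans (sum_le_sum fun i _ => ?_))
  exact Pool.Agent.Lib.H59.card_value_le (hd i) _ _

theorem S1_ssz_nonneg (m : ℕ) (Q : ℤ[X]) (z : ℕ) : 0 ≤ ssz m Q z := by
  unfold ssz
  refine prod_nonneg fun p hp => ?_
  have hpp := Nat.prime_of_mem_primesBelow hp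
  have hp0 : (0 : ℝ) < p := by exact_mod_cast hpp.pos
  have h1 : (rootCount Q p : ℝ) ≤ p := by
    exact_mod_cast Pool.Agent.Lib.H59.rootCount_le_self Q p
  have h2 : (rootCount Q p : ℝ) / p ≤ 1 := (div_le_one hp0).2 h1
  have h3 : 1 / (p : ℝ) ≤ 1 := by
    rw [div_le_one hp0]; exact_mod_cast hpp.one_lt.le
  have h4 : (0 : ℝ) ≤ 1 - 1 / p := by linarith
  exact mul_nonneg (by linarith) (inv_nonneg.2 (pow_nonneg h4 m))

/-- the sieve in a good class -/
theorem S1_sieve {m : ℕ} (R : Fin m → ℤ[X]) (hd : ∀ i, 1 ≤ (R i).natDegree) (κ : ℕ)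
    (hκ : (∑ i, (R i).natDegree) ≤ κ) (X q b z : ℕ) (hq : 1 ≤ q) (hbq : b < q)
    (hroot : ∀ p : ℕ, p.Prime → p < z → rootCount (∏ i, R i) p < p ∧ rootCount (∏ i, R i) p ≤ κ)
    (hb : ∀ p ∈ q.primeFactors, ¬ (p : ℤ) ∣ (∏ i, R i).eval (b : ℤ))
    {r : ℝ} (hz : 2 ≤ z) (hr : 1 ≤ r)
    (hrz : (Real.log 2 + 28 * (κ : ℝ) * Real.log 4) * Real.log z ≤ Real.log r)
    (hX : r ^ 12 ≤ ((X / q : ℕ) : ℝ)) (T : Finset ℕ) (hT : T ⊆ Icc 1 X)
    (hA : ∀ n ∈ T, AllPrime R n ∧ n ≡ b [MOD q]) :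
    (T.card : ℝ) ≤ 4 * ((X / q : ℕ) : ℝ) * (((2 * κ + 2 : ℕ) : ℝ) ^ q.primeFactors.card *
      ∏ p ∈ Nat.primesBelow z, (1 - (rootCount (∏ i, R i) p : ℝ) / p)) + κ * z + 1 := by
  classical
  set M : ℕ := X / q with hM
  set H : ℤ[X] := H33B.FS_P (∏ i, R i) q b with hH
  have hroot' : ∀ p : ℕ, p.Prime → p < z → rootCount H p ≤ κ ∧ rootCount H p < p := by
    intro p hp hpz
    by_cases hpq : p ∣ q
    · rw [hH, H33B.FS_root0 _ b hpq (hb p (Nat.mem_primeFactors.2 ⟨hp, hpq, by omega⟩))]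
      exact ⟨Nat.zero_le _, hp.pos⟩
    · rw [hH, H33B.FS_root _ b hp hpq]
      exact ⟨(hroot p hp hpz).2, (hroot p hp hpz).1⟩
  obtain ⟨h1, h2⟩ := Pool.Agent.Lib.H59.poly_sieve H (κ := κ) (Y := z) (X := M) (R := r)
    (fun p hp h => (hroot' p hp h).1) (fun p hp h => (hroot' p hp h).2) hz hr hrz hX
  set T₁ := (Icc 1 M).filter fun n : ℕ => ∀ p ∈ Nat.primesBelow z, ¬ (p : ℤ) ∣ H.eval (n : ℤ)
    with hT₁
  set T₂ := (Finset.range z).biUnion fun r =>
    (Finset.univ.biUnion fun i => (Icc 1 M).filter fun n : ℕ =>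
      (H33B.FS_P (R i) q b).eval (n : ℤ) = (r : ℤ)) with hT₂
  have hT₂card : T₂.card ≤ κ * z := by
    have : ∀ r ∈ Finset.range z, ((Finset.univ.biUnion fun i => (Icc 1 M).filter fun n : ℕ =>
      (H33B.FS_P (R i) q b).eval (n : ℤ) = (r : ℤ))).card ≤ κ := by
      intro r _
      refine le_trans (card_biUnion_le.trans (sum_le_sum fun i _ => ?_)) hκ
      rw [← H33B.FS_deg (R i) hq b]
      exact Pool.Agent.Lib.H59.card_value_le (by rw [H33B.FS_deg (R i) hq b]; exact hd i) _ _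
    refine card_biUnion_le.trans ((sum_le_sum this).trans ?_)
    rw [sum_const, card_range, smul_eq_mul, mul_comm]
  have hcount : T.card ≤ (T₁ ∪ T₂).card + 1 := by
    have hsub : T ⊆ insert b ((T₁ ∪ T₂).image fun m => q * m + b) := by
      intro n hn
      have hn1 := mem_Icc.1 (hT hn)
      obtain ⟨hn2, hn3⟩ := hA n hn
      have h3 : n % q = b := by
        have h4 : n % q = b % q := hn3
        rwa [Nat.mod_eq_of_lt hbq] at h4
      have h4 : q * (n / q) + b = n := by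
        have := Nat.div_add_mod n q
        rwa [h3] at this
      rw [mem_insert, mem_image]
      rcases Nat.eq_zero_or_pos (n / q) with h5 | h5
      · left
        rw [h5] at h4
        omega
      · right
        refine ⟨n / q, ?_, h4⟩
        have hmM : n / q ∈ Icc 1 M := by
          rw [mem_Icc]
          exact ⟨h5, Nat.div_le_div_right hn1.2⟩
        by_cases hbig : ∀ i, ∀ r : ℕ, (R i).eval (n : ℤ) = r → z ≤ r
        · rw [mem_union]
          left
          rw [hT₁, mem_filter]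
          refine ⟨hmM, fun p hp hpd => ?_⟩
          have hpp := Nat.prime_of_mem_primesBelow hp
          have hpz := Nat.lt_of_mem_primesBelow hp
          rw [hH, H33B.FS_eval, h4, eval_prod] at hpd
          obtain ⟨i, _, hi⟩ := ((Nat.prime_iff_prime_int.1 hpp).dvd_finsetProd_iff _).1 hpd
          obtain ⟨r, hr, hre⟩ := hn2 i
          rw [hre, Int.natCast_dvd_natCast, Nat.prime_dvd_prime_iff_eq hpp hr] at hi
          have := hbig i r hre
          omega
        · push Not at hbig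
          obtain ⟨i, r, hr, hrz⟩ := hbig
          rw [mem_union]
          right
          rw [hT₂, mem_biUnion]
          refine ⟨r, Finset.mem_range.2 hrz, ?_⟩
          rw [mem_biUnion]
          refine ⟨i, Finset.mem_univ _, mem_filter.2 ⟨hmM, ?_⟩⟩
          rw [H33B.FS_eval, h4, hr]
    refine (card_le_card hsub).trans ((card_insert_le _ _).trans ?_)
    exact Nat.add_le_add_right card_image_le 1
  have hcount' : T.card ≤ T₁.card + κ * z + 1 := by
    have := card_union_le T₁ T₂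
    omega
  have hcount'' : (T.card : ℝ) ≤ T₁.card + κ * z + 1 := by exact_mod_cast hcount'
  have hfac : ∀ p ∈ Nat.primesBelow z, 0 ≤ 1 - (rootCount (∏ i, R i) p : ℝ) / p := by
    intro p hp
    have hpp := Nat.prime_of_mem_primesBelow hp
    have hp0 : (0 : ℝ) < p := by exact_mod_cast hpp.pos
    have h3 : (rootCount (∏ i, R i) p : ℝ) ≤ p := by
      exact_mod_cast Pool.Agent.Lib.H59.rootCount_le_self _ p
    have h4 : (rootCount (∏ i, R i) p : ℝ) / p ≤ 1 := (div_le_one hp0).2 h3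
    linarith
  have hprod : ∏ p ∈ Nat.primesBelow z, (1 - (rootCount H p : ℝ) / p) ≤
      ((2 * κ + 2 : ℕ) : ℝ) ^ q.primeFactors.card *
      ∏ p ∈ Nat.primesBelow z, (1 - (rootCount (∏ i, R i) p : ℝ) / p) := by
    have h3 : ∏ p ∈ Nat.primesBelow z, (1 - (rootCount H p : ℝ) / p) ≤
        ∏ p ∈ Nat.primesBelow z, ((1 - (rootCount (∏ i, R i) p : ℝ) / p) *
          (if p ∣ q then ((2 * κ + 2 : ℕ) : ℝ) else 1)) := by
      refine prod_le_prod (fun p hp => ?_) fun p hp => ?_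
      · have hpp := Nat.prime_of_mem_primesBelow hp
        have hp0 : (0 : ℝ) < p := by exact_mod_cast hpp.pos
        have h3 : (rootCount H p : ℝ) ≤ p := by
          exact_mod_cast Pool.Agent.Lib.H59.rootCount_le_self _ p
        have h4 : (rootCount H p : ℝ) / p ≤ 1 := (div_le_one hp0).2 h3
        linarith
      · have hpp := Nat.prime_of_mem_primesBelow hp
        have hpz := Nat.lt_of_mem_primesBelow hp
        have hp0 : (0 : ℝ) < p := by exact_mod_cast hpp.pos
        split_ifs with hpq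
        · rw [hH, H33B.FS_root0 _ b hpq (hb p (Nat.mem_primeFactors.2 ⟨hpp, hpq, by omega⟩))]
          obtain ⟨a1, a2⟩ := hroot p hpp hpz
          simp only [Nat.cast_zero, zero_div, sub_zero]
          have a3 : (rootCount (∏ i, R i) p : ℝ) + 1 ≤ p := by exact_mod_cast a1
          have a4 : (rootCount (∏ i, R i) p : ℝ) ≤ κ := by exact_mod_cast a2
          push_cast
          have a5 : (0 : ℝ) ≤ κ := Nat.cast_nonneg _
          have a6 : 1 - (rootCount (∏ i, R i) p : ℝ) / p = (p - rootCount (∏ i, R i) p) / p := by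
            field_simp
          rw [a6, div_mul_eq_mul_div, le_div_iff₀ hp0, one_mul]
          rcases le_or_gt (p : ℝ) (2 * κ + 1) with h5 | h5
          · have h6 : (1 : ℝ) ≤ p - rootCount (∏ i, R i) p := by linarith
            nlinarith
          · have h6 : (p : ℝ) / 2 ≤ p - rootCount (∏ i, R i) p := by linarith
            nlinarith
        · rw [hH, H33B.FS_root _ b hpp hpq, mul_one]
    refine h3.trans ?_
    rw [prod_mul_distrib, mul_comm]
    apply mul_le_mul_of_nonneg_right _ (prod_nonneg hfac)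
    rw [← prod_filter, prod_const]
    apply pow_le_pow_right₀
    · push_cast
      have a5 : (0 : ℝ) ≤ κ := Nat.cast_nonneg _
      linarith
    · apply card_le_card
      intro p hp
      rw [mem_filter] at hp
      exact Nat.mem_primeFactors.2 ⟨Nat.prime_of_mem_primesBelow hp.1, hp.2, by omega⟩
  have h5 : (T₁.card : ℝ) ≤ 4 * M * (((2 * κ + 2 : ℕ) : ℝ) ^ q.primeFactors.card *
      ∏ p ∈ Nat.primesBelow z, (1 - (rootCount (∏ i, R i) p : ℝ) / p)) :=
    h1.trans (mul_le_mul_of_nonneg_left hprod (by positivity))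
  linarith

theorem S1_bh (m : ℕ) (Q : ℤ[X]) (z : ℕ) :
    ∏ p ∈ Nat.primesBelow z, (1 - (rootCount Q p : ℝ) / p) =
      ssz m Q z * (∏ p ∈ Nat.primesBelow z, (1 - (p : ℝ)⁻¹)) ^ m := by
  unfold ssz
  rw [← prod_pow, ← prod_mul_distrib]
  refine prod_congr rfl fun p hp => ?_
  have hpp := Nat.prime_of_mem_primesBelow hp
  have hp0 : (1 : ℝ) < p := by exact_mod_cast hpp.one_lt
  have h2 : 0 < 1 - (p : ℝ)⁻¹ := by
    have : (p : ℝ)⁻¹ < 1 := inv_lt_one_of_one_lt₀ hp0
    linarith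
  rw [mul_assoc, one_div, inv_mul_cancel₀, mul_one]
  positivity

open Filter in
theorem S1_ev (M κ m : ℕ) (hM1 : 14 ≤ M) (K : ℝ) : ∃ X₀ : ℕ, 3 ≤ X₀ ∧ ∀ X : ℕ, X₀ ≤ X →
    1 ≤ Real.log X ∧ 2 ≤ (X : ℝ) ^ ((1 : ℝ) / (2 * M)) ∧
    (2 * κ + 2) * (Real.log X ^ K * Real.log X ^ m) ≤ (X : ℝ) ^ ((1 : ℝ) / 2) ∧
    2 * Real.log X ^ K ≤ (X : ℝ) ^ ((1 : ℝ) / 14) := by
  have hlog : Tendsto (fun X : ℕ => Real.log (X : ℝ)) atTop atTop :=
    Real.tendsto_log_atTop.comp tendsto_natCast_atTop_atTop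
  have hM0 : (0 : ℝ) < (1 : ℝ) / (2 * M) := by
    have : (0 : ℝ) < M := by exact_mod_cast (by omega : 0 < M)
    positivity
  have h2 : ∀ᶠ X : ℕ in atTop, 2 ≤ (X : ℝ) ^ ((1 : ℝ) / (2 * M)) :=
    ((tendsto_rpow_atTop hM0).comp tendsto_natCast_atTop_atTop).eventually_ge_atTop 2
  have hκ : (0 : ℝ) < 2 * κ + 2 := by positivity
  have h3 : ∀ᶠ x : ℝ in atTop, ‖Real.log x ^ (K + m)‖ ≤ (1 / (2 * κ + 2)) * ‖x ^ ((1 : ℝ) / 2)‖ :=
    (isLittleO_log_rpow_rpow_atTop (K + m) (by norm_num)).bound (by positivity)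
  have h4 : ∀ᶠ x : ℝ in atTop, ‖Real.log x ^ K‖ ≤ (1 / 2) * ‖x ^ ((1 : ℝ) / 14)‖ :=
    (isLittleO_log_rpow_rpow_atTop K (by norm_num)).bound (by positivity)
  obtain ⟨X₀, hX₀⟩ := eventually_atTop.1 ((hlog.eventually_ge_atTop 1).and (h2.and
    (((tendsto_natCast_atTop_atTop (R := ℝ)).eventually h3).and
      ((tendsto_natCast_atTop_atTop (R := ℝ)).eventually h4))))
  refine ⟨max X₀ 3, le_max_right _ _, fun X hX => ?_⟩
  obtain ⟨a1, a2, a3, a4⟩ := hX₀ X ((le_max_left _ _).trans hX)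
  have hl0 : 0 < Real.log (X : ℝ) := by linarith
  rw [Real.norm_of_nonneg (Real.rpow_nonneg hl0.le _),
    Real.norm_of_nonneg (Real.rpow_nonneg (Nat.cast_nonneg _) _)] at a3 a4
  refine ⟨a1, a2, ?_, by linarith⟩
  rw [Real.rpow_add hl0, Real.rpow_natCast] at a3
  have h5 := mul_le_mul_of_nonneg_left a3 hκ.le
  have h6 : (2 * (κ : ℝ) + 2) * (1 / (2 * κ + 2) * (X : ℝ) ^ ((1 : ℝ) / 2)) =
      (X : ℝ) ^ ((1 : ℝ) / 2) := by field_simp
  linarith

open Classical in
/-- All constants depend only on `m`, `κ` and `K`: uniform in the polynomials.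

Proof. (Compare `H33B.FS_caseA`, `FS_caseB`, `FS_large`, the same for a fixed system; `H33B.FS_P`, `FS_root`, `FS_root0`, `FS_deg`, `FS_eval` can be used.)
`M = 14 (40 κ + 1)`, `Q = ∏ R_i`, `z = zz M X ≤ X^(1/M)`, `z → ∞`. A value `R_i(n) = c` is taken for at most `deg R_i` of the `n` (`H59.card_value_le`).
(A) If `rootCount Q p = p` for a prime `p < z`, then `p ∣ Q(n)` for all `n`, so if all `R_i(n)` are primes one of them is `p`: at most `κ` such `n`.
(B) Otherwise `rootCount Q p < p`, hence `≤ κ`, for all `p < z`. If a prime `p ∣ q` divides `Q(b)` then for `n ≡ b` some `R_i(n)` is divisible by `p`: again at most `κ` such `n`.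
Otherwise put `b' = b % q` and `n = b' + q m`, `0 ≤ m ≤ X/q` (`m = 0` is at most one `n`). The polynomial `H = Q(q x + b')` has `rootCount H p = rootCount Q p` for `p ∤ q` and `0` for
`p ∣ q`. `H59.poly_sieve` for `H`, `κ`, `Y = z`, `X := X / q`, `R = X^(1/14)` (`R^12 ≤ X / q` as `q ≤ (log X)^K`, and
`(log 2 + 28 κ log 4) log z ≤ log R` by the choice of `M`): at most `4 (X/q) ∏_{p < z, p ∤ q} (1 - ρ_p/p)` of the `m` have `H(m)` prime to all `p < z`. For the other `n` with all `R_i(n)` prime one of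
these is `< z`: at most `κ z` such `n`. Moreover `∏_{p < z, p ∤ q} (1 - ρ_p/p) ≤ (2κ+2)^(ω(q)) ∏_{p < z} (1 - ρ_p/p)` (`1 - ρ_p/p ≥ 1/(2κ+2)`: for `p ≤ 2κ` it is `≥ 1/p`, for
`p > 2κ` it is `≥ 1/2`) and `∏_{p < z} (1 - ρ_p/p) = ssz m Q z ∏_{p < z} (1 - 1/p)^m ≤ ssz m Q z (C/log z)^m ≤ ssz m Q z (C_M/log X)^m` (Mertens,
`H59.prod_one_sub_inv_le`). The additional `κ z + κ + 1` is at most `X/(q (log X)^m)` for large `X` (the term `1` in `1 + ssz`). -/
theorem class_sieve (m κ : ℕ) : ∃ M₀ : ℕ, ∀ M : ℕ, M₀ ≤ M → 1 ≤ M → ∃ C : ℝ, 0 < C ∧ ∀ K : ℝ,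
    ∃ X₀ : ℕ, ∀ X : ℕ, X₀ ≤ X →
    ∀ R : Fin m → ℤ[X], (∀ i, 1 ≤ (R i).natDegree) → (∑ i, (R i).natDegree) ≤ κ →
    (∀ p : ℕ, p.Prime → rootCount (∏ i, R i) p < p → rootCount (∏ i, R i) p ≤ κ) →
    ∀ q b : ℕ, Squarefree q → (q : ℝ) ≤ Real.log X ^ K →
    (((Icc 1 X).filter (fun n => n ≡ b [MOD q] ∧ AllPrime R n)).card : ℝ) ≤
      ((2 * κ + 2 : ℕ) : ℝ) ^ q.primeFactors.card * ((X : ℝ) / q) * (C / Real.log X ^ m) *
        (1 + ssz m (∏ i, R i) (zz M X)) := by
  refine ⟨14 * (40 * κ + 1), fun M hM hM1 => ⟨4 * (2 * M) ^ m + 1, by positivity, fun K => ?_⟩⟩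
  have hM14 : 14 ≤ M := le_trans (by nlinarith) hM
  obtain ⟨X₀, hX₀3, hX₀⟩ := S1_ev M κ m hM14 K
  refine ⟨X₀, fun X hX R hd hκ hroot q b hq hqK => ?_⟩
  obtain ⟨e1, e2, e3, e4⟩ := hX₀ X hX
  have hX3 : (3 : ℝ) ≤ X := by exact_mod_cast hX₀3.trans hX
  have hX0 : (0 : ℝ) < X := by linarith
  have hX1 : (1 : ℝ) ≤ X := by linarith
  have hl0 : 0 < Real.log (X : ℝ) := by linarith
  have hqn : 1 ≤ q := Nat.one_le_iff_ne_zero.2 hq.ne_zero
  have hq0 : (0 : ℝ) < q := by exact_mod_cast hqn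
  have hMpos : (0 : ℝ) < M := by exact_mod_cast (by omega : 0 < M)
  set z := zz M X with hz
  set Q := ∏ i, R i with hQ
  set T := (Icc 1 X).filter (fun n => n ≡ b [MOD q] ∧ AllPrime R n) with hT
  have hTsub : T ⊆ Icc 1 X := filter_subset _ _
  have hTA : ∀ n ∈ T, AllPrime R n := fun n hn => (mem_filter.1 hn).2.2
  have hTb : ∀ n ∈ T, n ≡ b [MOD q] := fun n hn => (mem_filter.1 hn).2.1
  have hss := S1_ssz_nonneg m Q z
  have hκ0 : (0 : ℝ) ≤ κ := Nat.cast_nonneg _
  -- `z ≤ X^(1/M)`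
  have hy0 : 0 < (X : ℝ) ^ ((1 : ℝ) / M) := Real.rpow_pos_of_pos hX0 _
  have hzle : (z : ℝ) ≤ (X : ℝ) ^ ((1 : ℝ) / M) := Nat.floor_le hy0.le
  have hz14 : (z : ℝ) ≤ (X : ℝ) ^ ((1 : ℝ) / 14) := by
    refine hzle.trans (Real.rpow_le_rpow_of_exponent_le hX1 ?_)
    exact one_div_le_one_div_of_le (by norm_num) (by exact_mod_cast hM14)
  have hXpow : (X : ℝ) ^ ((1 : ℝ) / 14) * (X : ℝ) ^ ((1 : ℝ) / 2) ≤ X := by
    rw [← Real.rpow_add hX0]
    calc (X : ℝ) ^ ((1 : ℝ) / 14 + 1 / 2) ≤ (X : ℝ) ^ (1 : ℝ) :=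
          Real.rpow_le_rpow_of_exponent_le hX1 (by norm_num)
      _ = X := Real.rpow_one _
  have hX14 : (1 : ℝ) ≤ (X : ℝ) ^ ((1 : ℝ) / 14) := Real.one_le_rpow hX1 (by norm_num)
  -- the small terms
  have hsmall : (κ : ℝ) * z + κ + 1 ≤ (X : ℝ) / q / Real.log X ^ m := by
    rw [le_div_iff₀ (by positivity), le_div_iff₀ hq0]
    have h1 : (κ : ℝ) * z + κ + 1 ≤ (2 * κ + 2) * (X : ℝ) ^ ((1 : ℝ) / 14) := by nlinarith
    calc ((κ : ℝ) * z + κ + 1) * Real.log X ^ m * q
        ≤ ((2 * κ + 2) * (X : ℝ) ^ ((1 : ℝ) / 14)) * Real.log X ^ m * Real.log X ^ K := by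
          apply mul_le_mul _ hqK hq0.le (by positivity)
          exact mul_le_mul_of_nonneg_right h1 (by positivity)
      _ = (X : ℝ) ^ ((1 : ℝ) / 14) * ((2 * κ + 2) * (Real.log X ^ K * Real.log X ^ m)) := by ring
      _ ≤ (X : ℝ) ^ ((1 : ℝ) / 14) * (X : ℝ) ^ ((1 : ℝ) / 2) :=
          mul_le_mul_of_nonneg_left e3 (by positivity)
      _ ≤ X := hXpow
  have hD1 : (1 : ℝ) ≤ ((2 * κ + 2 : ℕ) : ℝ) ^ q.primeFactors.card :=
    one_le_pow₀ (by push_cast; linarith)
  set Dq := ((2 * κ + 2 : ℕ) : ℝ) ^ q.primeFactors.card with hDq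
  have hE0 : 0 ≤ (X : ℝ) / q / Real.log X ^ m := by positivity
  have hgoal : ∀ t : ℝ, t ≤ (X : ℝ) / q / Real.log X ^ m →
      t ≤ Dq * ((X : ℝ) / q) * ((4 * (2 * M) ^ m + 1) / Real.log X ^ m) * (1 + ssz m Q z) := by
    intro t ht
    refine ht.trans ?_
    have h1 : Dq * ((X : ℝ) / q) * ((4 * (2 * M) ^ m + 1) / Real.log X ^ m) * (1 + ssz m Q z) =
        ((X : ℝ) / q / Real.log X ^ m) * (Dq * (4 * (2 * M) ^ m + 1) * (1 + ssz m Q z)) := by ring
    rw [h1]
    refine le_mul_of_one_le_right hE0 ?_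
    have h2 : (1 : ℝ) ≤ 4 * (2 * M) ^ m + 1 := by
      have : (0 : ℝ) ≤ (2 * M) ^ m := by positivity
      linarith
    exact one_le_mul_of_one_le_of_one_le (one_le_mul_of_one_le_of_one_le hD1 h2) (by linarith)
  have hfew : ∀ p : ℕ, p.Prime → (∀ n ∈ T, (p : ℤ) ∣ Q.eval (n : ℤ)) →
      (T.card : ℝ) ≤ Dq * ((X : ℝ) / q) * ((4 * (2 * M) ^ m + 1) / Real.log X ^ m) *
        (1 + ssz m Q z) := by
    intro p hp h
    apply hgoal
    have h1 := (S1_few R hd X p hp T hTsub hTA h).trans hκ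
    have h2 : (T.card : ℝ) ≤ κ := by exact_mod_cast h1
    have h3 : (0 : ℝ) ≤ κ * z := by positivity
    linarith
  -- case A
  by_cases hA : ∃ p : ℕ, p.Prime ∧ p < z ∧ p ≤ rootCount Q p
  · obtain ⟨p, hp, _, hpr⟩ := hA
    refine hfew p hp fun n _ => ?_
    have h1 : (Finset.range p).filter (fun a : ℕ => (p : ℤ) ∣ Q.eval (a : ℤ)) = Finset.range p := by
      apply eq_of_subset_of_card_le (filter_subset _ _)
      rw [card_range]
      exact hpr
    have h2 : n % p ∈ (Finset.range p).filter (fun a : ℕ => (p : ℤ) ∣ Q.eval (a : ℤ)) := by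
      rw [h1, Finset.mem_range]
      exact Nat.mod_lt _ hp.pos
    rw [mem_filter] at h2
    exact (Pool.Agent.Lib.H59.dvd_eval_mod_iff Q p n).1 h2.2
  push Not at hA
  -- case B1
  by_cases hB : ∃ p ∈ q.primeFactors, (p : ℤ) ∣ Q.eval ((b % q : ℕ) : ℤ)
  · obtain ⟨p, hp, hpd⟩ := hB
    rw [Nat.mem_primeFactors] at hp
    refine hfew p hp.1 fun n hn => ?_
    have h1 : n % p = (b % q) % p := by
      have h2 : n ≡ b [MOD p] := (hTb n hn).of_dvd hp.2.1
      have h3 : b % q ≡ b [MOD p] := (Nat.mod_modEq b q).of_dvd hp.2.1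
      exact h2.trans h3.symm
    rw [← Pool.Agent.Lib.H59.dvd_eval_mod_iff, h1, Pool.Agent.Lib.H59.dvd_eval_mod_iff]
    exact hpd
  push Not at hB
  -- case B2
  have hzy : (X : ℝ) ^ ((1 : ℝ) / (2 * M)) ≤ z := by
    have h1 : (X : ℝ) ^ ((1 : ℝ) / M) = ((X : ℝ) ^ ((1 : ℝ) / (2 * M))) ^ 2 := by
      rw [← Real.rpow_natCast, ← Real.rpow_mul hX0.le]
      congr 1
      push_cast
      field_simp
    have h2 : (X : ℝ) ^ ((1 : ℝ) / M) < z + 1 := Nat.lt_floor_add_one _
    rw [h1] at h2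
    nlinarith
  have hz2 : 2 ≤ z := by
    have : (2 : ℝ) ≤ z := e2.trans hzy
    exact_mod_cast this
  have hlogz : Real.log X / (2 * M) ≤ Real.log z := by
    have h1 := Real.log_le_log (Real.rpow_pos_of_pos hX0 _) hzy
    rw [Real.log_rpow hX0] at h1
    calc Real.log X / (2 * M) = 1 / (2 * M) * Real.log X := by ring
      _ ≤ _ := h1
  have hlogz' : Real.log z ≤ 1 / M * Real.log X := by
    have h1 := Real.log_le_log (by
      have : (2 : ℝ) ≤ z := by exact_mod_cast hz2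
      linarith) hzle
    rwa [Real.log_rpow hX0] at h1
  have hlogz0 : 0 < Real.log z := lt_of_lt_of_le (by positivity) hlogz
  set r : ℝ := (X : ℝ) ^ ((1 : ℝ) / 14) with hr
  have hr12 : r ^ 12 ≤ ((X / q : ℕ) : ℝ) := by
    have h1 : (X : ℝ) / q - 1 < ((X / q : ℕ) : ℝ) := by
      have h1 := Nat.lt_div_mul_add (a := X) (b := q) (by omega)
      have h2 : (X : ℝ) < ((X / q : ℕ) : ℝ) * q + q := by exact_mod_cast h1
      rw [sub_lt_iff_lt_add, div_lt_iff₀ hq0]
      linarith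
    have h2 : 2 * (X : ℝ) ^ ((13 : ℝ) / 14) ≤ X / q := by
      rw [le_div_iff₀ hq0]
      have h3 : (X : ℝ) ^ ((13 : ℝ) / 14) * r = X := by
        rw [hr, ← Real.rpow_add hX0]
        norm_num
      calc 2 * (X : ℝ) ^ ((13 : ℝ) / 14) * q ≤ 2 * (X : ℝ) ^ ((13 : ℝ) / 14) * Real.log X ^ K :=
            mul_le_mul_of_nonneg_left hqK (by positivity)
        _ = (X : ℝ) ^ ((13 : ℝ) / 14) * (2 * Real.log X ^ K) := by ring
        _ ≤ (X : ℝ) ^ ((13 : ℝ) / 14) * r := mul_le_mul_of_nonneg_left e4 (by positivity)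
        _ = X := h3
    have h4 : r ^ 12 ≤ (X : ℝ) ^ ((13 : ℝ) / 14) := by
      rw [hr, ← Real.rpow_natCast, ← Real.rpow_mul hX0.le]
      apply Real.rpow_le_rpow_of_exponent_le hX1
      norm_num
    have h5 : (1 : ℝ) ≤ (X : ℝ) ^ ((13 : ℝ) / 14) := Real.one_le_rpow hX1 (by norm_num)
    linarith
  have hrz : (Real.log 2 + 28 * (κ : ℝ) * Real.log 4) * Real.log z ≤ Real.log r := by
    rw [hr, Real.log_rpow hX0]
    have hl2 : Real.log 2 ≤ 1 := by linarith [Real.log_two_lt_d9]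
    have hl4 : Real.log 4 ≤ 10 / 7 := by
      have : Real.log 4 = 2 * Real.log 2 := by
        rw [show (4:ℝ) = 2 ^ 2 by norm_num, Real.log_pow]; norm_num
      linarith [Real.log_two_lt_d9]
    have h1 : Real.log 2 + 28 * (κ : ℝ) * Real.log 4 ≤ 1 + 40 * κ := by nlinarith
    have h2 : (0 : ℝ) ≤ 1 + 40 * κ := by positivity
    have h3 : 14 * (40 * (κ : ℝ) + 1) ≤ M := by exact_mod_cast hM
    calc (Real.log 2 + 28 * (κ : ℝ) * Real.log 4) * Real.log z
        ≤ (1 + 40 * κ) * (1 / M * Real.log X) :=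
          mul_le_mul h1 hlogz' hlogz0.le h2
      _ = ((1 + 40 * κ) / M) * Real.log X := by ring
      _ ≤ (1 / 14) * Real.log X := by
          apply mul_le_mul_of_nonneg_right _ hl0.le
          rw [div_le_div_iff₀ hMpos (by norm_num)]
          linarith
  have hsieve := S1_sieve R hd κ hκ X q (b % q) z hqn (Nat.mod_lt _ (by omega))
    (fun p hp hpz => ⟨hA p hp hpz, hroot p hp (hA p hp hpz)⟩) hB hz2 hX14 hrz hr12 T hTsub
    (fun n hn => ⟨hTA n hn, (hTb n hn).trans (Nat.mod_modEq b q).symm⟩)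
  have hMq : ((X / q : ℕ) : ℝ) ≤ X / q := Nat.cast_div_le
  have hpr : ∏ p ∈ Nat.primesBelow z, (1 - (rootCount Q p : ℝ) / p) ≤
      ssz m Q z * ((2 * M) ^ m / Real.log X ^ m) := by
    rw [S1_bh m Q z]
    apply mul_le_mul_of_nonneg_left _ hss
    have h0 : 0 ≤ ∏ p ∈ Nat.primesBelow z, (1 - (p : ℝ)⁻¹) := by
      refine prod_nonneg fun p hp => ?_
      have h1 : (1 : ℝ) < p := by exact_mod_cast (Nat.prime_of_mem_primesBelow hp).one_lt
      have : (p : ℝ)⁻¹ < 1 := inv_lt_one_of_one_lt₀ h1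
      linarith
    have h1 : ∏ p ∈ Nat.primesBelow z, (1 - (p : ℝ)⁻¹) ≤ 2 * M / Real.log X := by
      refine (Pool.Agent.Lib.H59.prod_one_sub_inv_le hz2).trans ?_
      calc 1 / Real.log z ≤ 1 / (Real.log X / (2 * M)) :=
            one_div_le_one_div_of_le (by positivity) hlogz
        _ = 2 * M / Real.log X := by rw [one_div_div]
    calc _ ≤ (2 * M / Real.log X) ^ m := pow_le_pow_left₀ h0 h1 m
      _ = _ := div_pow _ _ _
  have hmain : 4 * ((X / q : ℕ) : ℝ) * (Dq *
      ∏ p ∈ Nat.primesBelow z, (1 - (rootCount Q p : ℝ) / p)) ≤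
      Dq * ((X : ℝ) / q) * (4 * (2 * M) ^ m / Real.log X ^ m) * ssz m Q z := by
    have hD0 : 0 ≤ Dq := by linarith
    calc 4 * ((X / q : ℕ) : ℝ) * (Dq *
        ∏ p ∈ Nat.primesBelow z, (1 - (rootCount Q p : ℝ) / p)) ≤
        4 * ((X : ℝ) / q) * (Dq * (ssz m Q z * ((2 * M) ^ m / Real.log X ^ m))) := by
          have h1 : 0 ≤ Dq * (ssz m Q z * ((2 * M) ^ m / Real.log X ^ m)) := by positivity
          calc _ ≤ 4 * ((X / q : ℕ) : ℝ) * (Dq * (ssz m Q z * ((2 * M) ^ m / Real.log X ^ m))) := by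
                apply mul_le_mul_of_nonneg_left _ (by positivity)
                exact mul_le_mul_of_nonneg_left hpr hD0
            _ ≤ _ := by
                apply mul_le_mul_of_nonneg_right _ h1
                linarith
      _ = _ := by ring
  have hD0 : 0 ≤ Dq := by linarith
  have h3 : (κ : ℝ) * z + 1 ≤ Dq * ((X : ℝ) / q) * (1 / Real.log X ^ m) := by
    have h4 : (κ : ℝ) * z + 1 ≤ (X : ℝ) / q / Real.log X ^ m := by linarith
    refine h4.trans ?_
    have h5 : Dq * ((X : ℝ) / q) * (1 / Real.log X ^ m) = Dq * ((X : ℝ) / q / Real.log X ^ m) := by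
      ring
    rw [h5]
    exact le_mul_of_one_le_left hE0 hD1
  have h6 : 0 ≤ Dq * ((X : ℝ) / q) * (1 / Real.log X ^ m) * ssz m Q z := by positivity
  have h7 : 0 ≤ Dq * ((X : ℝ) / q) * (4 * (2 * M) ^ m / Real.log X ^ m) := by positivity
  calc (T.card : ℝ) ≤ _ := hsieve
    _ ≤ Dq * ((X : ℝ) / q) * (4 * (2 * M) ^ m / Real.log X ^ m) * ssz m Q z +
        Dq * ((X : ℝ) / q) * (1 / Real.log X ^ m) := by linarith
    _ ≤ Dq * ((X : ℝ) / q) * (4 * (2 * M) ^ m / Real.log X ^ m) * ssz m Q z +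
        Dq * ((X : ℝ) / q) * (1 / Real.log X ^ m) +
        Dq * ((X : ℝ) / q) * (1 / Real.log X ^ m) * ssz m Q z +
        Dq * ((X : ℝ) / q) * (4 * (2 * M) ^ m / Real.log X ^ m) := by linarith
    _ = _ := by ring

end Pool.Agent.Lib.H59X
end

-- from Lib.H59X.V2A
section

/-!
# Chunk V2A: a Mertens type bound
-/

open Finset

namespace Pool.Agent.Lib.H59X

/-- Proof. Mertens, or Chebyshev: the primes in `[2^j, 2^(j+1))` are at most `4 · 2^j/j` (`j ≥ 1`; `∏_{2^j ≤ p < 2^(j+1)} p` divides the central binomial coefficient and is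
`≤ 4^(2^j)`, or a bound of `Lib/H59/ChebLite.lean`), so they contribute at most `4/j`; the interval `[y, y²)`, `2^a ≤ y < 2^(a+1)`, is covered by
`a ≤ j ≤ 2 a + 1`, and `∑_{a ≤ j ≤ 2a+1} 4/j ≤ 4 (a + 2)/a ≤ 12`. (A Mertens bound `∑_{p < z} 1/p = log log z + O(1)` of the library, e.g. `Lib/H33B`, `Lib/H59`,
`Lib/H57S`, may be used.) -/
theorem sum_range : ∃ C : ℝ, 0 < C ∧ ∀ y : ℕ, 2 ≤ y → ∀ T : Finset ℕ,
    (∀ p ∈ T, p.Prime ∧ y ≤ p ∧ p < y ^ 2) → ∑ p ∈ T, (1 : ℝ) / p ≤ C := by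
  refine ⟨12, by norm_num, ?_⟩
  intro y hy T hT
  set a := Nat.log 2 y with ha
  have ha1 : 1 ≤ a := by
    rw [ha]
    exact Nat.log_pos (by norm_num) hy
  have hya : 2 ^ a ≤ y := Nat.pow_log_le_self 2 (by omega)
  have hya' : y < 2 ^ (a + 1) := Nat.lt_pow_succ_log_self (by norm_num) y
  have hmaps : ∀ p ∈ T, Nat.log 2 p ∈ Icc a (2 * a + 1) := by
    intro p hp
    obtain ⟨hpp, h1, h2⟩ := hT p hp
    rw [mem_Icc]
    constructor
    · exact Nat.log_mono_right h1
    · have h3 : p < 2 ^ (2 * a + 2) := by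
        calc p < y ^ 2 := h2
          _ ≤ (2 ^ (a + 1)) ^ 2 := Nat.pow_le_pow_left hya'.le 2
          _ = 2 ^ (2 * a + 2) := by rw [← pow_mul]; ring_nf
      have h4 := Nat.log_lt_of_lt_pow (by omega : p ≠ 0) h3
      omega
  rw [← sum_fiberwise_of_maps_to hmaps]
  have hlog2 : 0 < Real.log 2 := Real.log_pos (by norm_num)
  have hlog4 : Real.log 4 = 2 * Real.log 2 := by
    rw [show (4 : ℝ) = 2 ^ 2 by norm_num, Real.log_pow]; norm_num
  have hin : ∀ j ∈ Icc a (2 * a + 1),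
      ∑ p ∈ T.filter (fun p => Nat.log 2 p = j), (1 : ℝ) / p ≤ 4 / a := by
    intro j hj
    have hj1 : 1 ≤ j := ha1.trans (mem_Icc.1 hj).1
    have hj0 : (0 : ℝ) < j := by exact_mod_cast hj1
    have ha0 : (0 : ℝ) < a := by exact_mod_cast ha1
    have haj : (a : ℝ) ≤ j := by exact_mod_cast (mem_Icc.1 hj).1
    have h2j : (0 : ℝ) < 2 ^ j := by positivity
    have e1 : ∀ p ∈ T.filter (fun p => Nat.log 2 p = j),
        (1 : ℝ) / p ≤ Real.log p * (1 / (2 ^ j * (j * Real.log 2))) := by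
      intro p hp
      obtain ⟨hpT, hpj⟩ := mem_filter.1 hp
      have hp0 : p ≠ 0 := (hT p hpT).1.ne_zero
      have h5 : 2 ^ j ≤ p := by rw [← hpj]; exact Nat.pow_log_le_self 2 hp0
      have h6 : (2 : ℝ) ^ j ≤ p := by exact_mod_cast h5
      have h7 : j * Real.log 2 ≤ Real.log p := by
        rw [← Real.log_pow]
        exact Real.log_le_log h2j h6
      have hp1 : (0 : ℝ) < p := lt_of_lt_of_le h2j h6
      rw [mul_one_div, div_le_div_iff₀ hp1 (by positivity), one_mul]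
      calc (2 : ℝ) ^ j * (j * Real.log 2) ≤ p * Real.log p :=
            mul_le_mul h6 h7 (by positivity) hp1.le
        _ = Real.log p * p := mul_comm _ _
    have e2 : ∑ p ∈ T.filter (fun p => Nat.log 2 p = j), Real.log p ≤
        Chebyshev.theta ((2 : ℝ) ^ (j + 1)) := by
      rw [Chebyshev.theta]
      refine sum_le_sum_of_subset_of_nonneg ?_ fun p _ _ => Real.log_natCast_nonneg p
      intro p hp
      obtain ⟨hpT, hpj⟩ := mem_filter.1 hp
      rw [mem_filter, mem_Ioc]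
      refine ⟨⟨(hT p hpT).1.pos, ?_⟩, (hT p hpT).1⟩
      have h8 : p < 2 ^ (j + 1) := by
        rw [← hpj]; exact Nat.lt_pow_succ_log_self (by norm_num) p
      have h9 : ((2 : ℝ) ^ (j + 1)) = ((2 ^ (j + 1) : ℕ) : ℝ) := by push_cast; rfl
      rw [h9, Nat.floor_natCast]
      exact h8.le
    have e3 : Chebyshev.theta ((2 : ℝ) ^ (j + 1)) ≤ Real.log 4 * 2 ^ (j + 1) :=
      Chebyshev.theta_le_log4_mul_x (by positivity)
    calc ∑ p ∈ T.filter (fun p => Nat.log 2 p = j), (1 : ℝ) / p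
        ≤ ∑ p ∈ T.filter (fun p => Nat.log 2 p = j),
            Real.log p * (1 / (2 ^ j * (j * Real.log 2))) := sum_le_sum e1
      _ = (∑ p ∈ T.filter (fun p => Nat.log 2 p = j), Real.log p) *
            (1 / (2 ^ j * (j * Real.log 2))) := by rw [sum_mul]
      _ ≤ (Real.log 4 * 2 ^ (j + 1)) * (1 / (2 ^ j * (j * Real.log 2))) :=
          mul_le_mul_of_nonneg_right (e2.trans e3) (by positivity)
      _ = 4 / j := by
          rw [hlog4, pow_succ]
          field_simp
          norm_num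
      _ ≤ 4 / a := div_le_div_of_nonneg_left (by norm_num) ha0 haj
  refine (sum_le_sum hin).trans ?_
  rw [sum_const, Nat.card_Icc, nsmul_eq_mul]
  have ha0 : (1 : ℝ) ≤ a := by exact_mod_cast ha1
  have h10 : ((2 * a + 1 + 1 - a : ℕ) : ℝ) = a + 2 := by
    have : 2 * a + 1 + 1 - a = a + 2 := by omega
    rw [this]; push_cast; ring
  rw [h10, mul_div_assoc', div_le_iff₀ (by linarith)]
  linarith

end Pool.Agent.Lib.H59X
end

-- from Lib.H59X.V2B
section

/-!
# Chunk V2B: two elementary inequalities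
-/

open Finset

namespace Pool.Agent.Lib.H59X

/-- Proof. `λ_s = 1/((s+1)(s+2))`, `∑_{s < S} λ_s = 1 - 1/(S+1) ≤ 1`. Convexity of `exp` (Jensen, `convexOn_exp`, or induction on `S`) for the points `t_s/λ_s` with weights `λ_s`
and the point `0` with weight `1 - ∑ λ_s`: `exp(∑ t_s) ≤ ∑ λ_s exp(t_s/λ_s) + (1 - ∑ λ_s)`. -/
theorem jensen (S : ℕ) (t : ℕ → ℝ) : Real.exp (∑ s ∈ range S, t s) ≤
    1 + ∑ s ∈ range S, (1 / (((s : ℝ) + 1) * (s + 2))) * Real.exp (((s : ℝ) + 1) * (s + 2) * t s) := by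
  have hsum : ∀ S : ℕ, ∑ s ∈ range S, (1 / (((s : ℝ) + 1) * (s + 2))) = 1 - 1 / ((S : ℝ) + 1) := by
    intro S
    induction S with
    | zero => simp
    | succ S ih =>
      rw [sum_range_succ, ih]
      push_cast
      have h1 : (S : ℝ) + 1 ≠ 0 := by positivity
      have h2 : (S : ℝ) + 2 ≠ 0 := by positivity
      have h3 : (S : ℝ) + 1 + 1 ≠ 0 := by positivity
      field_simp
      ring
  set w : ℕ → ℝ := fun s => if s < S then 1 / (((s : ℝ) + 1) * (s + 2)) else 1 / ((S : ℝ) + 1)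
    with hw
  set x : ℕ → ℝ := fun s => if s < S then ((s : ℝ) + 1) * (s + 2) * t s else 0 with hx
  have hw1 : ∀ s ∈ range S, w s = 1 / (((s : ℝ) + 1) * (s + 2)) := by
    intro s hs
    simp only [hw, if_pos (mem_range.1 hs)]
  have hx1 : ∀ s ∈ range S, x s = ((s : ℝ) + 1) * (s + 2) * t s := by
    intro s hs
    simp only [hx, if_pos (mem_range.1 hs)]
  have hwS : w S = 1 / ((S : ℝ) + 1) := by simp [hw]
  have hxS : x S = 0 := by simp [hx]
  have hj := convexOn_exp.map_sum_le (t := range (S + 1)) (w := w) (p := x) (by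
      intro s _
      simp only [hw]
      split_ifs <;> positivity) (by
      rw [sum_range_succ, sum_congr rfl hw1, hsum, hwS]
      ring) (fun _ _ => Set.mem_univ _)
  rw [sum_range_succ, sum_range_succ, hwS, hxS] at hj
  have e1 : ∑ s ∈ range S, w s • x s = ∑ s ∈ range S, t s := by
    refine sum_congr rfl fun s hs => ?_
    rw [hw1 s hs, hx1 s hs, smul_eq_mul]
    have h1 : (s : ℝ) + 1 ≠ 0 := by positivity
    have h2 : (s : ℝ) + 2 ≠ 0 := by positivity
    field_simp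
  have e2 : ∑ s ∈ range S, w s • Real.exp (x s) = ∑ s ∈ range S,
      (1 / (((s : ℝ) + 1) * (s + 2))) * Real.exp (((s : ℝ) + 1) * (s + 2) * t s) := by
    refine sum_congr rfl fun s hs => ?_
    rw [hw1 s hs, hx1 s hs, smul_eq_mul]
  rw [e1, e2, smul_zero, add_zero, Real.exp_zero, smul_eq_mul, mul_one] at hj
  have h3 : 1 / ((S : ℝ) + 1) ≤ 1 := by
    rw [div_le_one (by positivity)]
    linarith [Nat.cast_nonneg (α := ℝ) S]
  linarith

/-- Proof. The left hand side tends to `0`: `2^s` grows faster than any polynomial in `s`, `log 2 > 0`. -/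
theorem numeric (C : ℝ) : ∃ C' : ℝ, 0 < C' ∧ ∀ s : ℕ,
    Real.exp (C * ((s : ℝ) + 1) * (s + 2)) * (((s : ℝ) + 1) * (s + 2)) ^ 2 / (2 : ℝ) ^ (2 ^ s) ≤ C' := by
  set F : ℕ → ℝ := fun s => Real.exp (C * ((s : ℝ) + 1) * (s + 2)) *
    (((s : ℝ) + 1) * (s + 2)) ^ 2 / (2 : ℝ) ^ (2 ^ s) with hF
  have hF0 : ∀ s, 0 ≤ F s := fun s => by simp only [hF]; positivity
  have hlog2 : 0 < Real.log 2 := Real.log_pos (by norm_num)
  have ht := tendsto_pow_const_div_const_pow_of_one_lt 2 (r := (2 : ℝ)) (by norm_num)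
  have hε : 0 < Real.log 2 / (6 * (|C| + 2)) := by positivity
  obtain ⟨s₀, hs₀⟩ := Filter.eventually_atTop.1 (ht.eventually_lt_const hε)
  have hbig : ∀ s, s₀ + 1 ≤ s → F s ≤ 1 := by
    intro s hs
    have h1 := hs₀ s (by omega)
    have hs1 : (1 : ℝ) ≤ s := by exact_mod_cast (by omega : 1 ≤ s)
    rw [div_lt_div_iff₀ (by positivity) (by positivity)] at h1
    set u : ℝ := ((s : ℝ) + 1) * (s + 2) with hu
    have hu0 : 0 < u := by positivity
    have hu6 : u ≤ 6 * (s : ℝ) ^ 2 := by rw [hu]; nlinarith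
    have h2 : (|C| + 2) * u ≤ Real.log 2 * 2 ^ s := by
      have h3 : (|C| + 2) * u ≤ (|C| + 2) * (6 * (s : ℝ) ^ 2) :=
        mul_le_mul_of_nonneg_left hu6 (by positivity)
      linarith
    have h4 : u ^ 2 ≤ Real.exp (2 * u) := by
      have h5 : u ≤ Real.exp u := by linarith [Real.add_one_le_exp u]
      calc u ^ 2 ≤ (Real.exp u) ^ 2 := pow_le_pow_left₀ hu0.le h5 2
        _ = Real.exp (2 * u) := by rw [← Real.exp_nat_mul]; norm_num
    have h6 : (2 : ℝ) ^ (2 ^ s) = Real.exp (Real.log 2 * 2 ^ s) := by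
      have h7 : Real.log 2 * 2 ^ s = ((2 ^ s : ℕ) : ℝ) * Real.log 2 := by push_cast; ring
      rw [h7, Real.exp_nat_mul, Real.exp_log (by norm_num)]
    have h8 : C * ((s : ℝ) + 1) * (s + 2) ≤ |C| * u := by
      rw [mul_assoc]
      exact mul_le_mul_of_nonneg_right (le_abs_self C) hu0.le
    simp only [hF]
    rw [div_le_one (by positivity), h6]
    calc Real.exp (C * ((s : ℝ) + 1) * (s + 2)) * u ^ 2
        ≤ Real.exp (|C| * u) * Real.exp (2 * u) :=
          mul_le_mul (Real.exp_le_exp.2 h8) h4 (by positivity) (Real.exp_pos _).le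
      _ = Real.exp ((|C| + 2) * u) := by rw [← Real.exp_add]; ring_nf
      _ ≤ Real.exp (Real.log 2 * 2 ^ s) := Real.exp_le_exp.2 h2
  refine ⟨1 + ∑ s ∈ range (s₀ + 1), F s, by
    have := sum_nonneg fun s (_ : s ∈ range (s₀ + 1)) => hF0 s
    linarith, ?_⟩
  intro s
  rcases Nat.lt_or_ge s (s₀ + 1) with h | h
  · have h1 := single_le_sum (f := F) (fun s _ => hF0 s) (mem_range.2 h)
    have : F s ≤ 1 + ∑ s ∈ range (s₀ + 1), F s := by linarith
    exact this
  · have h1 := sum_nonneg fun s (_ : s ∈ range (s₀ + 1)) => hF0 s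
    have h2 := hbig s h
    have : F s ≤ 1 + ∑ s ∈ range (s₀ + 1), F s := by linarith
    exact this

end Pool.Agent.Lib.H59X
end
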