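import Pool.Agent.Lib.H59M.M1.M021
import Pool.Agent.Lib.H59M.M1.M057
import Pool.Agent.Lib.H59M.M1.M063
import Pool.Agent.Lib.H59M.M1.M066
import Pool.Agent.Lib.H59M.M1.M067
import Pool.Agent.Lib.H59M.M1.M070
import Pool.Agent.Lib.H59M.M1.M072
import Pool.Agent.Lib.H59M.M1.M073
import Pool.Agent.Lib.H59M.M1.M078
import Pool.Agent.Lib.H59M.M1.M079

/-! Merged copies (to shorten the build) of Lib.H24P.P5, Lib.H24P.K1, Lib.H24P.V1A, Lib.H24P.V2, Lib.H24P.Z2A, Lib.H24P.Z2, Lib.HUP.R13, Lib.HUP.R14, Lib.HUP.R5, Lib.HUP.R6, Lib.HUP.R1, Lib.HUP.R2. -/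

-- from Lib.H24P.P5
section

/-!
# Project H24P, chunk P5 (M): lower bounds for the main term (port of H59P/X2A, X2)
-/

open Finset

namespace Pool.Agent.Lib.H24P

open Pool.Agent.Lib.H68T Pool.Agent.Lib.H18Q Pool.Agent.Lib.H59P

/-- The expansion of the main term (port of `X2a`). -/
theorem p5_X2a {k : ℕ} (φ : Fin k → ℤ → ℤ) (hφ : Cp φ) (Q : ℕ) (px : Ch) (hpx : px ∈ PC Q)
    (hreal : px.2 ^ 2 = 1) (th : Fin k → ℝ) :
    ((PMf Q px th φ : ℝ) : ℂ) = ∑ B ∈ (univ : Finset (Fin k)).powerset,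
      ((∏ i ∈ B, -(th i) : ℝ) : ℂ) * (MRf (pB px B) px.1 φ *
        ((SSf ((pr Q).filter (fun l => ¬ l ∣ px.1)) φ : ℝ) : ℂ)) := by
  classical
  obtain ⟨hr1, hrQ, hprim⟩ := mem_PC.1 hpx
  have h1 : ∀ B : Finset (Fin k), MRf (pB px B) px.1 φ *
        ((SSf ((pr Q).filter (fun l => ¬ l ∣ px.1)) φ : ℝ) : ℂ) = MQf Q (pB px B) φ := by
    intro B
    refine P3_M5 φ hφ Q px.1 (by omega) (Nat.dvd_factorial (by omega) hrQ) (pB px B) ?_
    intro i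
    unfold pB
    split_ifs
    · exact dvd_rfl
    · exact one_dvd _
  rw [sum_congr rfl fun B _ => by rw [h1 B]]
  have h2 : ∀ n : ℤ, ((fPf Q px th (at' φ n) : ℝ) : ℂ) = ∑ B ∈ (univ : Finset (Fin k)).powerset,
      ((∏ i ∈ B, -(th i) : ℝ) : ℂ) * Phf (pB px B) (pr Q) (at' φ n) := by
    intro n
    unfold fPf at'
    rw [Complex.ofReal_prod]
    have e1 : ∀ i : Fin k, ((uu (pr Q) (φ i n) * (1 - th i * (cj px (φ i n)).re) : ℝ) : ℂ) =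
        ((uu (pr Q) (φ i n) : ℝ) : ℂ) * ((((-(th i) : ℝ)) : ℂ) * cj px (φ i n) + 1) := by
      intro i
      push_cast
      rw [← (C3a px hreal (φ i n)).1]
      ring
    rw [prod_congr rfl fun i _ => e1 i, prod_mul_distrib, Finset.prod_add, mul_sum]
    refine sum_congr rfl fun B hB => ?_
    unfold Phf
    rw [prod_mul_distrib, prod_mul_distrib, prod_const_one, mul_one, Complex.ofReal_prod]
    have e2 : ∏ i, cj (pB px B i) (φ i n) = ∏ i ∈ B, cj px (φ i n) := by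
      rw [← prod_subset (subset_univ B)]
      · refine prod_congr rfl fun i hi => ?_
        unfold pB
        rw [if_pos hi]
      · intro i _ hi
        unfold pB
        rw [if_neg hi, m5b_cj]
    rw [e2]
    ring
  unfold PMf MQf
  rw [Complex.ofReal_div, Complex.ofReal_sum, sum_congr rfl fun (n : ℕ) _ => h2 (n : ℤ), sum_comm,
    sum_div]
  refine sum_congr rfl fun B _ => ?_
  rw [← mul_sum, mul_div_assoc]
  norm_cast

theorem p5_mem_pr {Q l : ℕ} : l ∈ pr Q ↔ l.Prime ∧ l ≤ Q := by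
  unfold pr
  rw [Finset.mem_filter, Finset.mem_Icc]
  constructor
  · rintro ⟨⟨_, h2⟩, h3⟩
    exact ⟨h3, h2⟩
  · rintro ⟨h1, h2⟩
    exact ⟨⟨h1.one_lt.le, h2⟩, h1⟩

theorem p5_SS_nonneg {k : ℕ} (P : Finset ℕ) (hP : ∀ l ∈ P, l.Prime) (φ : Fin k → ℤ → ℤ) :
    0 ≤ SSf P φ :=
  Finset.prod_nonneg fun l hl => (P0_tp l (hP l hl) φ).1

/-- Proof. As `X2a`, `X2` in `H59P`: with `n + h_i` replaced by `φ i n`; `pB` is in `H59P/X1.lean`; `M5` is `P3_M5`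
(`R = px.1`, `px.1 ∣ Q!` as `1 ≤ px.1 ≤ Q`), `M5_loc` is `P3_loc`. -/
theorem P5_X2 {k : ℕ} (φ : Fin k → ℤ → ℤ) (hφ : Cp φ) (Q : ℕ) (px : Ch) (hpx : px ∈ PC Q)
    (hreal : px.2 ^ 2 = 1) (th : Fin k → ℝ) (hth0 : ∀ i, 0 ≤ th i) (hth : ∀ i, th i ≤ 1)
    (hm : ∀ B : Finset (Fin k), B.Nonempty →
      2 ^ (k + 1) * ‖MRf (pB px B) px.1 φ‖ ≤ SSf px.1.primeFactors φ) :
    1 / 2 * SSf (pr Q) φ ≤ PMf Q px th φ := by
  classical
  have hpc := mem_PC.mp hpx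
  have hr : 0 < px.1 := hpc.1
  set S : ℝ := SSf px.1.primeFactors φ with hS
  set S' : ℝ := SSf ((pr Q).filter (fun l => ¬ l ∣ px.1)) φ with hS'
  have hS0 : 0 ≤ S := p5_SS_nonneg _ (fun l hl => Nat.prime_of_mem_primeFactors hl) φ
  have hS'0 : 0 ≤ S' := p5_SS_nonneg _ (fun l hl => (p5_mem_pr.mp (Finset.mem_filter.mp hl).1).1) φ
  have hsplit : SSf (pr Q) φ = S * S' := by
    have h1 : (pr Q).filter (fun l => l ∣ px.1) = px.1.primeFactors := by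
      ext l
      rw [Finset.mem_filter, p5_mem_pr, Nat.mem_primeFactors]
      constructor
      · rintro ⟨⟨h1, _⟩, h3⟩
        exact ⟨h1, h3, hr.ne'⟩
      · rintro ⟨h1, h3, _⟩
        exact ⟨⟨h1, (Nat.le_of_dvd hr h3).trans hpc.2.1⟩, h3⟩
    rw [hS, hS', ← h1]
    unfold SSf
    exact (Finset.prod_filter_mul_prod_filter_not (pr Q) (fun l => l ∣ px.1)
      (fun l => 1 + tpf l φ)).symm
  have hempty : MRf (pB px (∅ : Finset (Fin k))) px.1 φ = ((S : ℝ) : ℂ) := by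
    have h1 : (pB px (∅ : Finset (Fin k))) = fun _ => p0 := by
      funext i
      simp [pB]
    rw [h1]
    exact P3_loc φ hφ px.1 hr
  have hX := p5_X2a φ hφ Q px hpx hreal th
  -- take real parts
  set E : Finset (Fin k) → ℂ := fun B => ((∏ i ∈ B, -(th i) : ℝ) : ℂ) * MRf (pB px B) px.1 φ with hE
  have hX' : ((PMf Q px th φ : ℝ) : ℂ) = (∑ B ∈ (univ : Finset (Fin k)).powerset, E B) * (S' : ℂ) := by
    rw [hX, Finset.sum_mul]
    refine Finset.sum_congr rfl fun B _ => ?_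
    simp only [hE]
    ring
  have hne : (∅ : Finset (Fin k)) ∈ (univ : Finset (Fin k)).powerset := by simp
  rw [← Finset.add_sum_erase _ E hne] at hX'
  have hE0 : E ∅ = ((S : ℝ) : ℂ) := by
    simp only [hE, Finset.prod_empty, hempty]
    simp
  rw [hE0] at hX'
  have hre : PMf Q px th φ = (S + (∑ B ∈ (univ : Finset (Fin k)).powerset.erase ∅, E B).re) * S' := by
    have h1 := congrArg Complex.re hX'
    rw [Complex.ofReal_re, Complex.re_mul_ofReal, Complex.add_re, Complex.ofReal_re] at h1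
    exact h1
  have hbound : ‖∑ B ∈ (univ : Finset (Fin k)).powerset.erase ∅, E B‖ ≤ S / 2 := by
    refine (norm_sum_le _ _).trans ?_
    have h1 : ∀ B ∈ (univ : Finset (Fin k)).powerset.erase ∅, ‖E B‖ ≤ S / 2 ^ (k + 1) := by
      intro B hB
      have hBn : B.Nonempty := Finset.nonempty_iff_ne_empty.mpr (Finset.mem_erase.mp hB).1
      simp only [hE]
      rw [norm_mul, Complex.norm_real]
      have h2 : ‖(∏ i ∈ B, -(th i) : ℝ)‖ ≤ 1 := by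
        rw [norm_prod]
        refine Finset.prod_le_one (fun i _ => norm_nonneg _) fun i _ => ?_
        rw [norm_neg, Real.norm_eq_abs, abs_of_nonneg (hth0 i)]
        exact hth i
      have h3 := hm B hBn
      have h4 : ‖MRf (pB px B) px.1 φ‖ ≤ S / 2 ^ (k + 1) := by
        rw [le_div_iff₀ (by positivity), mul_comm]
        exact h3
      calc ‖(∏ i ∈ B, -(th i) : ℝ)‖ * ‖MRf (pB px B) px.1 φ‖ ≤ 1 * ‖MRf (pB px B) px.1 φ‖ :=
            mul_le_mul_of_nonneg_right h2 (norm_nonneg _)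
        _ ≤ S / 2 ^ (k + 1) := by rw [one_mul]; exact h4
    refine (Finset.sum_le_sum h1).trans ?_
    rw [Finset.sum_const, nsmul_eq_mul]
    have h5 : (((univ : Finset (Fin k)).powerset.erase ∅).card : ℝ) ≤ 2 ^ k := by
      have h6 : ((univ : Finset (Fin k)).powerset.erase ∅).card ≤
          (univ : Finset (Fin k)).powerset.card := Finset.card_erase_le
      rw [Finset.card_powerset, Finset.card_univ, Fintype.card_fin] at h6
      exact_mod_cast h6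
    have h7 : 0 ≤ S / 2 ^ (k + 1) := by positivity
    calc (((univ : Finset (Fin k)).powerset.erase ∅).card : ℝ) * (S / 2 ^ (k + 1))
        ≤ 2 ^ k * (S / 2 ^ (k + 1)) := mul_le_mul_of_nonneg_right h5 h7
      _ = S / 2 := by rw [pow_succ]; field_simp
  have hre2 : -(S / 2) ≤ (∑ B ∈ (univ : Finset (Fin k)).powerset.erase ∅, E B).re := by
    have h1 := Complex.abs_re_le_norm (∑ B ∈ (univ : Finset (Fin k)).powerset.erase ∅, E B)
    have h2 := (abs_le.mp (h1.trans hbound)).1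
    exact h2
  rw [hre, hsplit]
  have h3 : S / 2 * S' ≤
      (S + (∑ B ∈ (univ : Finset (Fin k)).powerset.erase ∅, E B).re) * S' :=
    mul_le_mul_of_nonneg_right (by linarith) hS'0
  linarith

/-- Proof. `1 - th_i ψ ≥ 1 - th_i ≥ η` (`|ψ| ≤ 1`: `C3a`), `uu ≥ 0` (`M3a_uu_nonneg`), so
`fPf ≥ η^k ∏ uu` pointwise; `P3_SS`. -/
theorem P5_eta {k : ℕ} (φ : Fin k → ℤ → ℤ) (hφ : Cp φ) (Q : ℕ) (px : Ch) (hreal : px.2 ^ 2 = 1)
    (η : ℝ) (hη : 0 ≤ η) (th : Fin k → ℝ) (hth0 : ∀ i, 0 ≤ th i) (hth : ∀ i, th i ≤ 1 - η) :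
    η ^ k * SSf (pr Q) φ ≤ PMf Q px th φ := by
  have hQ0 : (0 : ℝ) < (Q.factorial : ℝ) := by exact_mod_cast Nat.factorial_pos Q
  rw [← P3_SS φ hφ Q]
  unfold PMf
  rw [mul_div_assoc']
  refine div_le_div_of_nonneg_right ?_ hQ0.le
  rw [Finset.mul_sum]
  refine Finset.sum_le_sum fun n _ => ?_
  unfold fPf at'
  have h1 : η ^ k = ∏ _i : Fin k, η := by
    rw [Finset.prod_const, Finset.card_univ, Fintype.card_fin]
  rw [h1, ← Finset.prod_mul_distrib]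
  refine Finset.prod_le_prod (fun i _ => ?_) (fun i _ => ?_)
  · exact mul_nonneg hη (M3a_uu_nonneg _ (fun l hl => (p5_mem_pr.1 hl).1) _)
  · rw [mul_comm]
    refine mul_le_mul_of_nonneg_left ?_ (M3a_uu_nonneg _ (fun l hl => (p5_mem_pr.1 hl).1) _)
    have h2 := (abs_le.mp (C3a px hreal (φ i n)).2).2
    have h3 := mul_le_mul_of_nonneg_left h2 (hth0 i)
    have h4 := hth i
    linarith

end Pool.Agent.Lib.H24P
end

-- from Lib.H24P.K1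
section

/-!
# Project H24P, chunk K1 (M): lower bounds for the main term for almost all `h`
-/

open Finset Polynomial

namespace Pool.Agent.Lib.H24P

open Pool.Agent.Lib.H68T Pool.Agent.Lib.H18Q Pool.Agent.Lib.H59P

/-- Chebyshev's inequality for the exceptional set (copy of z4_cheb) -/
theorem k1_cheb {ι : Type*} (S : Finset ι) (A : ι → ℝ) (T V : ℝ) (hT : 0 < T)
    (hV : ∑ h ∈ S, A h ^ 2 ≤ V) (hA : ∀ h, 0 ≤ A h) :
    (((S.filter fun h => T < A h).card : ℕ) : ℝ) ≤ V / T ^ 2 := by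
  rw [le_div_iff₀ (by positivity)]
  refine le_trans ?_ hV
  calc (((S.filter fun h => T < A h).card : ℕ) : ℝ) * T ^ 2
      = ∑ _h ∈ S.filter (fun h => T < A h), T ^ 2 := by rw [Finset.sum_const, nsmul_eq_mul]
    _ ≤ ∑ h ∈ S.filter (fun h => T < A h), A h ^ 2 := by
        apply Finset.sum_le_sum
        intro h hh
        have h1 := (Finset.mem_filter.1 hh).2
        exact pow_le_pow_left₀ hT.le h1.le 2
    _ ≤ ∑ h ∈ S, A h ^ 2 := by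
        apply Finset.sum_le_sum_of_subset_of_nonneg (Finset.filter_subset _ _)
        intro h _ _
        positivity

theorem k1_inv (c C ε : ℝ) (hc : 0 < c) (hε : 0 < ε) : ∃ Q0 : ℕ, 1 ≤ Q0 ∧ ∀ Q : ℕ, Q0 ≤ Q →
    (Q : ℝ) ^ (-ε) ≤ c * (1 + Real.log Q) ^ (-C) := by
  obtain ⟨Q0, h1, h⟩ := G1_rlog (1 / c) C ε hε
  refine ⟨Q0, h1, fun Q hQ => ?_⟩
  have hQ1 : (1 : ℝ) ≤ Q := by exact_mod_cast h1.trans hQ
  have hl : 0 < 1 + Real.log Q := by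
    have := Real.log_nonneg hQ1
    linarith
  have h2 := h Q hQ
  have h3 : 0 < (1 + Real.log Q) ^ C := Real.rpow_pos_of_pos hl _
  have h4 : 0 < (Q : ℝ) ^ ε := Real.rpow_pos_of_pos (by linarith) _
  rw [one_div, inv_mul_le_iff₀ hc] at h2
  rw [Real.rpow_neg (by linarith), Real.rpow_neg hl.le]
  have h5 : ((Q : ℝ) ^ ε)⁻¹ = (1 + Real.log Q) ^ C * (((1 + Real.log Q) ^ C)⁻¹ * ((Q : ℝ) ^ ε)⁻¹) := by
    field_simp
  rw [h5]
  calc (1 + Real.log Q) ^ C * (((1 + Real.log Q) ^ C)⁻¹ * ((Q : ℝ) ^ ε)⁻¹)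
      ≤ (c * (Q : ℝ) ^ ε) * (((1 + Real.log Q) ^ C)⁻¹ * ((Q : ℝ) ^ ε)⁻¹) :=
        mul_le_mul_of_nonneg_right h2 (by positivity)
    _ = c * ((1 + Real.log Q) ^ C)⁻¹ := by field_simp

/-- Good levels. Proof. `P5_eta` with `η = 1`, `X2_low` with `P' = pr Q`; `(1 + log Q)^C ≤ c Q^c1` (`G1_rlog`). -/
theorem K1_good (k A : ℕ) (hA : 1 ≤ A) (c1 : ℝ) (hc1 : 0 < c1) : ∃ Q0 : ℕ, ∀ Q : ℕ, Q0 ≤ Q →
    ∀ B : ℤ[X], Lin A B → ∀ P : Fin k → ℤ[X], Pol A P → ∀ h : Fin k → ℕ, NoFix (sys B P h) →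
    ∀ th' : Fin (k + 1) → ℝ, (∀ i, 0 ≤ th' i) → (∀ i, th' i ≤ 1 - 1) →
    (Q : ℝ) ^ (-c1) ≤ PMf Q p0 th' (sys B P h) := by
  obtain ⟨C, c, hC, hc, hlow⟩ := X2_low k A hA
  obtain ⟨Q0, _, hQ0⟩ := k1_inv c C c1 hc hc1
  refine ⟨Q0 + 2, fun Q hQ B hB P hP h hN th' h0 h1' => ?_⟩
  have hp : p0.2 ^ 2 = 1 := one_pow 2
  have e1 := P5_eta (sys B P h) (P2_sys B P h) Q p0 hp 1 zero_le_one th' h0 h1'
  rw [one_pow, one_mul] at e1
  exact ((hQ0 Q (by omega)).trans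
    (hlow B hB P hP h hN Q (by omega) (pr Q) (Finset.Subset.refl _))).trans e1


/-- The real zero is not too close to `1`. -/
theorem k1_eta (c3 L q r lr η : ℝ) (hc3 : 0 < c3) (hq : 0 < q) (hL : 1 ≤ L) (hr : 0 < r) (hlr : 0 ≤ lr)
    (hrq : r ≤ q) (hlrL : 1 + lr ≤ L) (h1 : 2 / c3 * L ^ 2 ≤ q) (h2 : c3 / (r * (1 + lr) ^ 2) ≤ 2 * η) :
    (q * q)⁻¹ ≤ η := by
  have h3 : c3 / (r * (1 + lr) ^ 2) ≥ c3 / (q * L ^ 2) := by
    refine div_le_div_of_nonneg_left hc3.le (by positivity) ?_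
    gcongr
  have h4 : L ^ 2 ≤ c3 / 2 * q := by
    have h5 : L ^ 2 = c3 / 2 * (2 / c3 * L ^ 2) := by field_simp
    rw [h5]
    exact mul_le_mul_of_nonneg_left h1 (by positivity)
  have h6 : 2 * (q * q)⁻¹ ≤ c3 / (q * L ^ 2) := by
    rw [le_div_iff₀ (by positivity)]
    calc 2 * (q * q)⁻¹ * (q * L ^ 2) ≤ 2 * (q * q)⁻¹ * (q * (c3 / 2 * q)) := by gcongr
      _ = c3 := by field_simp
  linarith


end Pool.Agent.Lib.H24P
end

-- from Lib.H24P.V1A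
section

/-!
# Project H24P, chunk V1A (M): freezing the coefficients of the random coordinates
-/

open Finset Polynomial

namespace Pool.Agent.Lib.H24P

open Pool.Agent.Lib.H68T Pool.Agent.Lib.H18Q Pool.Agent.Lib.H59P

theorem v1a_bs (H q m A : ℕ) (hH : 0 < H) (hA : A = H * q) (hm : m ∈ Ico A (2 * A)) :
    bs H m ∈ Ico A (2 * A) ∧ bs H m ≤ m ∧ m < bs H m + H := by
  rw [Finset.mem_Ico] at hm ⊢
  have h1 : A ≤ bs H m := by
    unfold bs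
    have h1 : q ≤ m / H := by
      rw [Nat.le_div_iff_mul_le hH]
      calc q * H = A := by rw [hA]; ring
        _ ≤ m := hm.1
    calc A = q * H := by rw [hA]; ring
      _ ≤ m / H * H := Nat.mul_le_mul_right _ h1
  have h2 : bs H m ≤ m := Nat.div_mul_le_self m H
  have h3 : m < bs H m + H := by
    unfold bs
    have h1 := Nat.div_add_mod' m H
    have h2 := Nat.mod_lt m hH
    omega
  exact ⟨⟨h1, by omega⟩, h2, h3⟩

/-- slow variation, in both directions -/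
theorem v1a_slow (Q Y : ℕ) (B : ℤ → Ch → ℂ) (mb : Ch → ℝ) (hB : Cf Q Y B mb) (m m' : ℤ)
    (hm : (Y : ℤ) ≤ m) (hm2 : m ≤ 4 * Y) (hm' : (Y : ℤ) ≤ m') (hm2' : m' ≤ 4 * Y) (p : Ch)
    (hp : p ∈ PC Q) : ‖B m' p - B m p‖ ≤ |(m' : ℝ) - m| * (2 * (Q : ℝ) ^ 3 / Y) := by
  rcases le_total m m' with h | h
  · have h1 := V1a Q Y B mb hB m m' hm h hm2' p hp
    rw [abs_of_nonneg (sub_nonneg.2 (by exact_mod_cast h))]
    exact h1
  · have h1 := V1a Q Y B mb hB m' m hm' h hm2 p hp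
    rw [norm_sub_rev, abs_sub_comm, abs_of_nonneg (sub_nonneg.2 (by exact_mod_cast h))]
    exact h1


end Pool.Agent.Lib.H24P
end

-- from Lib.H24P.V2
section

/-!
# Project H24P, chunk V2 (S/M): freezing the coefficients of the linear coordinate
-/

open Finset Polynomial

namespace Pool.Agent.Lib.H24P

open Pool.Agent.Lib.H68T Pool.Agent.Lib.H18Q Pool.Agent.Lib.H59P

/-- The frozen linear coordinate: cells of length `X1/Q^800`. -/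
noncomputable def gB (Q X1 : ℕ) (B : ℤ[X]) (C0 : ℤ → Ch → ℂ) (n : ℕ) : ℂ :=
  SG (Q ^ 100) (C0 (B.eval ((bs (X1 / Q ^ 800) n : ℕ) : ℤ))) (B.eval (n : ℤ))

theorem v2_slow (Q X : ℕ) (B : ℤ → Ch → ℂ) (mb : Ch → ℝ) (hB : Cf Q X B mb) (m m' : ℤ)
    (hm : (X : ℤ) ≤ m) (hm4 : m ≤ 4 * X) (hm' : (X : ℤ) ≤ m') (hm4' : m' ≤ 4 * X) (p : Ch)
    (hp : p ∈ PC Q) : ‖B m p - B m' p‖ ≤ |((m - m' : ℤ) : ℝ)| * (2 * (Q : ℝ) ^ 3 / X) := by
  rcases le_total m m' with h | h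
  · have h1 := V1a Q X B mb hB m m' hm h hm4' p hp
    have h2 : |((m - m' : ℤ) : ℝ)| = (m' : ℝ) - m := by
      rw [abs_of_nonpos]
      · push_cast
        ring
      · have : m - m' ≤ 0 := by linarith
        exact_mod_cast this
    rw [h2, ← norm_neg, neg_sub]
    exact h1
  · have h1 := V1a Q X B mb hB m' m hm' h hm4 p hp
    have h2 : |((m - m' : ℤ) : ℝ)| = (m : ℝ) - m' := by
      rw [abs_of_nonneg]
      · push_cast
        ring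
      · have : 0 ≤ m - m' := by linarith
        exact_mod_cast this
    rw [h2]
    exact h1

theorem v2_SG (Q : ℕ) (hQ : 1 ≤ Q) (b b' : Ch → ℂ) (D : ℝ) (hD : ∀ p ∈ PC Q, ‖b p - b' p‖ ≤ D)
    (hD0 : 0 ≤ D) (m : ℤ) :
    ‖SG Q b m - SG Q b' m‖ ≤ 100 * (1 + Real.log Q) ^ 3 * Q * ((Q : ℝ) ^ 2 * D) := by
  have h1 : SG Q b m - SG Q b' m = SG Q (fun p => b p - b' p) m := by
    unfold SG
    rw [← sum_sub_distrib]
    refine sum_congr rfl fun p _ => ?_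
    ring
  rw [h1]
  have h2 := S1b Q hQ (fun p => b p - b' p) (fun _ => D) hD m
  refine h2.trans ?_
  have h3 : dQ Q m ≤ Q := by
    unfold dQ
    have h4 : ((Icc 1 Q).filter (fun d : ℕ => (d : ℤ) ∣ m)).card ≤ Q := by
      refine (card_filter_le _ _).trans ?_
      simp
    exact_mod_cast h4
  have h4 : ∑ p ∈ PC Q, D ≤ (Q : ℝ) ^ 2 * D := by
    rw [sum_const, nsmul_eq_mul]
    refine mul_le_mul_of_nonneg_right ?_ hD0
    exact_mod_cast card_PC_le Q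
  have hl : 0 ≤ Real.log Q := Real.log_natCast_nonneg Q
  have h5 : 0 ≤ dQ Q m := by
    unfold dQ
    positivity
  have h6 : 0 ≤ ∑ p ∈ PC Q, D := sum_nonneg fun _ _ => hD0
  gcongr

/-- Proof. `Lk = SG (C0 (B n)) (B n)` (`Cf.eq`); by `S1b` of `H59P` for the difference of the coefficients the left side is
at most `100 (1+log Q^100)³ dQ (Q^100) (B n) ∑_p ‖…‖`; `dQ ≤ Q^100`, at most `Q^200` characters (`card_PC_le`), each
difference at most `|B(n) - B(bs n)| 2 Q^300/Y` (`V1a` of `H59P` in the right order; both arguments are in `[Y, 3Y)` as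
`bs n ∈ [X1, 2 X1)`: `Q^800 ∣ X1`), `|B(n) - B(bs n)| ≤ A X1/Q^800` and `X1 ≤ 2 Y`. Total
`400 A (1+log Q^100)³ Q^600/Q^800 ≤ Q^(-10)`. -/
theorem V2_pt (A : ℕ) : ∃ Q0 : ℕ, ∀ (Q X X1 Y : ℕ) (B : ℤ[X]) (C0 : ℤ → Ch → ℂ) (mb : Ch → ℝ),
    Q0 ≤ Q → Q ^ 800 ∣ X1 → GeoB A X X1 Y B → Cf (Q ^ 100) Y C0 mb → ∀ n ∈ Ico X1 (2 * X1),
    ‖((Lk (Q ^ 100) (Y / (Q ^ 100) ^ 2) (B.eval (n : ℤ)) : ℝ) : ℂ) - gB Q X1 B C0 n‖ ≤
      (Q : ℝ) ^ (-(10) : ℝ) := by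
  refine ⟨400000000 * A + 1, ?_⟩
  intro Q X X1 Y B C0 mb hQ hdvd hG hC n hn
  obtain ⟨hn1, hn2⟩ := mem_Ico.mp hn
  have hX1 : 0 < X1 := by omega
  have hQ1 : 1 ≤ Q := by omega
  obtain ⟨s0, hs0⟩ := hdvd
  have hQp : 0 < Q ^ 800 := pow_pos hQ1 _
  have hs : X1 / Q ^ 800 = s0 := by rw [hs0, Nat.mul_div_cancel_left _ hQp]
  have hs0p : 0 < s0 := by
    rcases Nat.eq_zero_or_pos s0 with h | h
    · rw [h, mul_zero] at hs0
      omega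
    · exact h
  set b : ℕ := bs (X1 / Q ^ 800) n with hb
  have hbn : b ≤ n := by
    rw [hb, hs]
    exact Nat.div_mul_le_self n s0
  have hnb : n - b < s0 := by
    rw [hb, hs]
    unfold bs
    have := Nat.mod_lt n hs0p
    have h2 := Nat.div_add_mod' n s0
    omega
  have hX1b : X1 ≤ b := by
    rw [hb, hs]
    unfold bs
    have h1 : Q ^ 800 ≤ n / s0 := by
      rw [Nat.le_div_iff_mul_le hs0p, ← hs0]
      exact hn1
    calc X1 = Q ^ 800 * s0 := hs0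
      _ ≤ n / s0 * s0 := Nat.mul_le_mul_right _ h1
  have hbI : b ∈ Ico X1 (2 * X1) := mem_Ico.mpr ⟨hX1b, by omega⟩
  have hYn := hG.lo n hn
  have hYn' := hG.hi n hn
  have hYb := hG.lo b hbI
  have hYb' := hG.hi b hbI
  have hY0 : 0 < Y := by
    have := hG.Ylo
    omega
  have hlin : B.eval (n : ℤ) - B.eval (b : ℤ) = B.coeff 1 * ((n : ℤ) - b) := by
    rw [eval_eq_sum_range, eval_eq_sum_range, hG.lin.deg, sum_range_succ, sum_range_one,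
      sum_range_succ, sum_range_one]
    ring
  have hA : |B.coeff 1| ≤ A := by
    have h1 := hG.lin.lc
    unfold leadingCoeff at h1
    rw [hG.lin.deg] at h1
    have h2 : ((B.coeff 1).natAbs : ℤ) ≤ A := by exact_mod_cast h1
    rwa [Int.natCast_natAbs] at h2
  have hdiff : |((B.eval (n : ℤ) - B.eval (b : ℤ) : ℤ) : ℝ)| ≤ A * s0 := by
    have h1 : |B.eval (n : ℤ) - B.eval (b : ℤ)| ≤ (A : ℤ) * s0 := by
      rw [hlin, abs_mul]
      refine mul_le_mul hA ?_ (abs_nonneg _) (by positivity)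
      rw [abs_of_nonneg (by omega)]
      omega
    have h2 : ((|B.eval (n : ℤ) - B.eval (b : ℤ)| : ℤ) : ℝ) ≤ ((A : ℤ) * s0 : ℤ) := by
      exact_mod_cast h1
    push_cast at h2 ⊢
    exact h2
  have hQ100 : 1 ≤ Q ^ 100 := Nat.one_le_pow _ _ hQ1
  have hYr : (0 : ℝ) < Y := by exact_mod_cast hY0
  have hQr : (1 : ℝ) ≤ Q := by exact_mod_cast hQ1
  have e1 : ((Lk (Q ^ 100) (Y / (Q ^ 100) ^ 2) (B.eval (n : ℤ)) : ℝ) : ℂ)
      = SG (Q ^ 100) (C0 (B.eval (n : ℤ))) (B.eval (n : ℤ)) := hC.eq _ hYn (by linarith)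
  rw [e1]
  unfold gB
  have hD0 : (0 : ℝ) ≤ A * s0 * (2 * ((Q ^ 100 : ℕ) : ℝ) ^ 3 / Y) := by positivity
  have h3 := v2_SG (Q ^ 100) hQ100 (C0 (B.eval (n : ℤ))) (C0 (B.eval (b : ℤ)))
    (A * s0 * (2 * ((Q ^ 100 : ℕ) : ℝ) ^ 3 / Y)) (fun p hp => by
      refine (v2_slow (Q ^ 100) Y C0 mb hC (B.eval (n : ℤ)) (B.eval (b : ℤ)) hYn (by linarith)
        hYb (by linarith) p hp).trans ?_
      exact mul_le_mul_of_nonneg_right hdiff (by positivity)) hD0 (B.eval (n : ℤ))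
  refine h3.trans ?_
  have hlog : Real.log ((Q ^ 100 : ℕ) : ℝ) = 100 * Real.log Q := by
    rw [Nat.cast_pow, Real.log_pow]
    norm_num
  rw [hlog]
  have hl0 : 0 ≤ Real.log Q := Real.log_natCast_nonneg Q
  have hl1 : 1 + 100 * Real.log Q ≤ 100 * Q := by
    have := Real.log_le_sub_one_of_pos (by linarith : (0 : ℝ) < Q)
    linarith
  have hl3 : (1 + 100 * Real.log Q) ^ 3 ≤ (100 * Q) ^ 3 :=
    pow_le_pow_left₀ (by linarith) hl1 3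
  have hsY : (s0 : ℝ) * (Q : ℝ) ^ 800 ≤ 2 * Y := by
    have h1 : X1 ≤ 2 * Y := hG.Ylo
    have h2 : ((s0 * Q ^ 800 : ℕ) : ℝ) ≤ ((2 * Y : ℕ) : ℝ) := by
      have : s0 * Q ^ 800 ≤ 2 * Y := by
        rw [mul_comm, ← hs0]
        exact h1
      exact_mod_cast this
    push_cast at h2
    exact h2
  have hAQ : 400000000 * (A : ℝ) ≤ Q := by
    have : 400000000 * A ≤ Q := by omega
    exact_mod_cast this
  have hrp : (Q : ℝ) ^ (-(10) : ℝ) = ((Q : ℝ) ^ 10)⁻¹ := by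
    rw [Real.rpow_neg (by linarith), Real.rpow_ofNat]
  rw [hrp, ← one_div, le_div_iff₀ (by positivity)]
  have h7 : 100 * (1 + 100 * Real.log Q) ^ 3 * ((Q ^ 100 : ℕ) : ℝ) *
      (((Q ^ 100 : ℕ) : ℝ) ^ 2 * (A * s0 * (2 * ((Q ^ 100 : ℕ) : ℝ) ^ 3 / Y))) * (Q : ℝ) ^ 10
      = 200 * (1 + 100 * Real.log Q) ^ 3 * A * ((Q : ℝ) ^ 610 * s0 / Y) := by
    push_cast
    ring
  rw [h7]
  have h8 : (Q : ℝ) ^ 610 * s0 / Y ≤ 2 / (Q : ℝ) ^ 190 := by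
    rw [div_le_div_iff₀ hYr (by positivity)]
    have h11 : (Q : ℝ) ^ 610 * s0 * (Q : ℝ) ^ 190 = s0 * (Q : ℝ) ^ 800 := by ring
    rw [h11]
    exact hsY
  have h9 : 200 * (1 + 100 * Real.log Q) ^ 3 * A * ((Q : ℝ) ^ 610 * s0 / Y)
      ≤ 200 * (100 * Q) ^ 3 * A * (2 / (Q : ℝ) ^ 190) := by
    gcongr
  refine h9.trans ?_
  have h10 : 200 * (100 * (Q : ℝ)) ^ 3 * A * (2 / (Q : ℝ) ^ 190)
      = 400000000 * (A : ℝ) * (Q : ℝ) ^ 3 / (Q : ℝ) ^ 190 := by ring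
  rw [h10, div_le_one (by positivity)]
  calc 400000000 * (A : ℝ) * (Q : ℝ) ^ 3 ≤ Q * (Q : ℝ) ^ 3 :=
        mul_le_mul_of_nonneg_right hAQ (by positivity)
    _ = (Q : ℝ) ^ 4 := by ring
    _ ≤ (Q : ℝ) ^ 190 := pow_le_pow_right₀ hQr (by norm_num)


end Pool.Agent.Lib.H24P
end

-- from Lib.H24P.Z2A
section

/-!
# Project H24P, chunk Z2A (M): one cell, truncated main term (compare H59P/Z2B)
-/

open Finset Polynomial

namespace Pool.Agent.Lib.H24P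

open Pool.Agent.Lib.H68T Pool.Agent.Lib.H18Q Pool.Agent.Lib.H59P

theorem z2a_SG (Q : ℕ) (c : Ch → ℂ) (m : ℤ) : SG Q c m = ∑ p ∈ PC Q, c p * Fc Q p m := by
  unfold SG Fc
  refine Finset.sum_congr rfl fun p hp => ?_
  rw [gam_expand Q p hp, mul_comm]

/-- the index set of the tuples of characters -/
noncomputable def z2a_I (k Q : ℕ) : Finset (Fin (k + 1) → Ch) :=
  Fintype.piFinset (Fin.cons (PC (Q ^ 100)) (fun _ : Fin k => PC Q) : Fin (k + 1) → Finset Ch)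

theorem z2a_mem {k Q : ℕ} {p : Fin (k + 1) → Ch} :
    p ∈ z2a_I k Q ↔ p 0 ∈ PC (Q ^ 100) ∧ ∀ i : Fin k, p i.succ ∈ PC Q := by
  unfold z2a_I
  rw [Fintype.mem_piFinset, Fin.forall_fin_succ]
  simp only [Fin.cons_zero, Fin.cons_succ]

/-- Proof. `SG Q c m = ∑_{p ∈ PC Q} c p Fc Q p m` (definitions, `gam_expand`), `Finset.prod_univ_sum`,
`Fin.consEquiv`/`Fin.prod_univ_succ`: index set `Fintype.piFinset (Fin.cons (PC (Q^100)) fun _ => PC Q)`. -/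
theorem Z2A_expand {k : ℕ} (Q : ℕ) (c0 : Ch → ℂ) (c' : Fin k → Ch → ℂ) (m0 : ℤ) (m : Fin k → ℤ) :
    SG (Q ^ 100) c0 m0 * ∏ i, SG Q (c' i) (m i) =
      ∑ p ∈ Fintype.piFinset (Fin.cons (PC (Q ^ 100)) (fun _ : Fin k => PC Q) :
          Fin (k + 1) → Finset Ch),
        (∏ i, (Fin.cons c0 c' : Fin (k + 1) → Ch → ℂ) i (p i)) *
          (Fc (Q ^ 100) (p 0) m0 * ∏ i : Fin k, Fc Q (p i.succ) (m i)) := by
  classical
  have key := Finset.prod_univ_sum (Fin.cons (PC (Q ^ 100)) (fun _ : Fin k => PC Q) :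
    Fin (k + 1) → Finset Ch)
    (fun (i : Fin (k + 1)) (q : Ch) => (Fin.cons c0 c' : Fin (k + 1) → Ch → ℂ) i q *
      (Fin.cons (fun q => Fc (Q ^ 100) q m0) (fun i q => Fc Q q (m i)) :
        Fin (k + 1) → Ch → ℂ) i q)
  rw [Fin.prod_univ_succ] at key
  simp only [Fin.cons_zero, Fin.cons_succ] at key
  have e1 : SG (Q ^ 100) c0 m0 = ∑ q ∈ PC (Q ^ 100), c0 q * Fc (Q ^ 100) q m0 := z2a_SG _ _ _
  have e2 : ∏ i, SG Q (c' i) (m i) = ∏ i, ∑ q ∈ PC Q, c' i q * Fc Q q (m i) :=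
    Finset.prod_congr rfl fun i _ => z2a_SG _ _ _
  rw [e1, e2, key]
  refine Finset.sum_congr rfl fun p _ => ?_
  rw [Finset.prod_mul_distrib]
  congr 1
  rw [Fin.prod_univ_succ]
  simp only [Fin.cons_zero, Fin.cons_succ]

theorem z2a_gam {k : ℕ} (Q : ℕ) (c0 : Ch → ℂ) (h0 : ∑ p ∈ PC (Q ^ 100), ‖c0 p‖ ≤ 3)
    (c' : Fin k → Ch → ℂ) (hc' : ∀ i, ∑ p ∈ PC Q, ‖c' i p‖ ≤ 3) :
    ∑ p ∈ z2a_I k Q, ‖∏ i, (Fin.cons c0 c' : Fin (k + 1) → Ch → ℂ) i (p i)‖ ≤ 3 ^ (k + 1) := by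
  classical
  have key := Finset.prod_univ_sum (Fin.cons (PC (Q ^ 100)) (fun _ : Fin k => PC Q) :
    Fin (k + 1) → Finset Ch)
    (fun (i : Fin (k + 1)) (q : Ch) => ‖(Fin.cons c0 c' : Fin (k + 1) → Ch → ℂ) i q‖)
  have e1 : ∑ p ∈ z2a_I k Q, ‖∏ i, (Fin.cons c0 c' : Fin (k + 1) → Ch → ℂ) i (p i)‖ =
      ∏ i, ∑ q ∈ (Fin.cons (PC (Q ^ 100)) (fun _ : Fin k => PC Q) : Fin (k + 1) → Finset Ch) i,
        ‖(Fin.cons c0 c' : Fin (k + 1) → Ch → ℂ) i q‖ := by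
    rw [key]
    refine Finset.sum_congr rfl fun p _ => ?_
    rw [norm_prod]
  rw [e1]
  have e2 : ∏ i, ∑ q ∈ (Fin.cons (PC (Q ^ 100)) (fun _ : Fin k => PC Q) :
      Fin (k + 1) → Finset Ch) i, ‖(Fin.cons c0 c' : Fin (k + 1) → Ch → ℂ) i q‖ ≤
      ∏ _i : Fin (k + 1), (3 : ℝ) := by
    refine Finset.prod_le_prod (fun i _ => Finset.sum_nonneg fun p _ => norm_nonneg _) (fun i _ => ?_)
    refine Fin.cases ?_ (fun j => ?_) i
    · simp only [Fin.cons_zero]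
      exact h0
    · simp only [Fin.cons_succ]
      exact hc' j
  refine e2.trans (le_of_eq ?_)
  rw [Finset.prod_const, Finset.card_univ, Fintype.card_fin]

/-- the function of a tuple of characters -/
noncomputable def z2a_f {k : ℕ} (Q m0 : ℕ) (B : ℤ[X]) (P : Fin k → ℤ[X]) (a H : ℕ)
    (p : Fin (k + 1) → Ch) (h : Fin k → ℕ) : ℂ :=
  ∑ n ∈ Ico a (a + H), Fc (Q ^ 100) (p 0) (B.eval (n : ℤ)) *
    ∏ i : Fin k, Fc Q (p i.succ) ((P i).eval (n : ℤ) + h i)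

/-- the main term of a tuple of characters -/
noncomputable def z2a_g {k : ℕ} (Q m0 : ℕ) (B : ℤ[X]) (P : Fin k → ℤ[X]) (H : ℕ)
    (p : Fin (k + 1) → Ch) (h : Fin k → ℕ) : ℂ :=
  H * (MRf p (Rf m0 p) (sys B P h) *
    ((∑ d ∈ SF (fl Q (1 / 2) / Rf m0 p) (Rf m0 p), tdf d (sys B P h) : ℝ) : ℂ))

theorem z2a_sub {k Q D m0 : ℕ} (hQ : 1 ≤ Q) : TSf (k + 1) Q D m0 ⊆ z2a_I k Q := by
  intro p hp
  unfold TSf at hp
  have h1 := (Finset.mem_filter.1 hp).1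
  rw [Fintype.mem_piFinset] at h1
  exact z2a_mem.2 ⟨z1s_PC hQ (h1 0), fun i => h1 i.succ⟩

theorem z2a_dec {k : ℕ} (Q m0 : ℕ) (hQ : 1 ≤ Q) (B : ℤ[X]) (P : Fin k → ℤ[X]) (a H : ℕ)
    (c0 : Ch → ℂ) (c' : Fin k → Ch → ℂ) (h : Fin k → ℕ) (f : (Fin (k + 1) → Ch) → ℂ)
    (hf1 : ∀ p ∈ TSf (k + 1) Q (fl Q (1 / 16)) m0, f p =
      z2a_f Q m0 B P a H p h - z2a_g Q m0 B P H p h)
    (hf2 : ∀ p, p ∉ TSf (k + 1) Q (fl Q (1 / 16)) m0 → f p = z2a_f Q m0 B P a H p h) :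
    ∑ n ∈ Ico a (a + H), SG (Q ^ 100) c0 (B.eval (n : ℤ)) *
        ∏ i, SG Q (c' i) ((P i).eval (n : ℤ) + h i) -
      H * MCf Q m0 (Fin.cons c0 c' : Fin (k + 1) → Ch → ℂ) (sys B P h) =
      ∑ p ∈ z2a_I k Q, (∏ i, (Fin.cons c0 c' : Fin (k + 1) → Ch → ℂ) i (p i)) * f p := by
  classical
  have h1 : ∑ n ∈ Ico a (a + H), SG (Q ^ 100) c0 (B.eval (n : ℤ)) *
        ∏ i, SG Q (c' i) ((P i).eval (n : ℤ) + h i) =
      ∑ p ∈ z2a_I k Q, (∏ i, (Fin.cons c0 c' : Fin (k + 1) → Ch → ℂ) i (p i)) *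
        z2a_f Q m0 B P a H p h := by
    have e1 : ∀ n ∈ Ico a (a + H), SG (Q ^ 100) c0 (B.eval (n : ℤ)) *
        ∏ i, SG Q (c' i) ((P i).eval (n : ℤ) + h i) =
        ∑ p ∈ z2a_I k Q, (∏ i, (Fin.cons c0 c' : Fin (k + 1) → Ch → ℂ) i (p i)) *
          (Fc (Q ^ 100) (p 0) (B.eval (n : ℤ)) *
            ∏ i : Fin k, Fc Q (p i.succ) ((P i).eval (n : ℤ) + h i)) :=
      fun n _ => Z2A_expand Q c0 c' _ (fun i => (P i).eval (n : ℤ) + h i)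
    rw [Finset.sum_congr rfl e1, Finset.sum_comm]
    refine Finset.sum_congr rfl fun p _ => ?_
    unfold z2a_f
    rw [Finset.mul_sum]
  have h2 : (H : ℂ) * MCf Q m0 (Fin.cons c0 c' : Fin (k + 1) → Ch → ℂ) (sys B P h) =
      ∑ p ∈ z2a_I k Q, (if p ∈ TSf (k + 1) Q (fl Q (1 / 16)) m0 then
        (∏ i, (Fin.cons c0 c' : Fin (k + 1) → Ch → ℂ) i (p i)) * z2a_g Q m0 B P H p h else 0) := by
    rw [← Finset.sum_filter, Finset.filter_mem_eq_inter, Finset.inter_eq_right.mpr (z2a_sub hQ)]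
    unfold MCf z2a_g
    rw [Finset.mul_sum]
    refine Finset.sum_congr rfl fun p _ => ?_
    ring
  rw [h1, h2, ← Finset.sum_sub_distrib]
  refine Finset.sum_congr rfl fun p _ => ?_
  by_cases hp : p ∈ TSf (k + 1) Q (fl Q (1 / 16)) m0
  · rw [if_pos hp, hf1 p hp]
    ring
  · rw [if_neg hp, hf2 p hp, sub_zero]


end Pool.Agent.Lib.H24P
end

-- from Lib.H24P.Z2
section

/-!
# Project H24P, chunk Z2 (M): all cells (compare H59P/Z2)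
-/

open Finset Polynomial

namespace Pool.Agent.Lib.H24P

open Pool.Agent.Lib.H68T Pool.Agent.Lib.H18Q Pool.Agent.Lib.H59P


theorem z2f_PC {Q : ℕ} (hQ : 1 ≤ Q) : PC Q ⊆ PC (Q ^ 100) := by
  intro p hp
  obtain ⟨h1, h2, h3⟩ := mem_PC.1 hp
  exact mem_PC.2 ⟨h1, h2.trans (Nat.le_self_pow (by norm_num) Q), h3⟩


end Pool.Agent.Lib.H24P
end

-- from Lib.HUP.R13
section

/-!
# Project HUP, module R (the modules of H24P for an abstract family), R13: freezing the coefficients, pointwise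
-/

open Finset Polynomial

namespace Pool.Agent.HUP

open Pool.Agent.Lib.H68T Pool.Agent.Lib.H18Q Pool.Agent.Lib.H59P Pool.Agent.Lib.H24P

/-- The divisor function is small. Proof. `dQ Q m ≤` the number of divisors of `|m|` (`m ≠ 0`), `divisor_bound` of
`H21AP/DivisorBound.lean` with the exponent `ε/(2 C (A + 2))` (for `C ≥ 1`; else replace `C` by `max C 1`): `|m| ≤ X^(A+2)`,
`X ≤ Q^C`. -/
theorem R13_dQ (A : ℕ) (C ε : ℝ) (hε : 0 < ε) : ∃ Q0 : ℕ, ∀ (Q X : ℕ) (m : ℤ), Q0 ≤ Q → 1 ≤ X →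
    Real.log X ≤ C * Real.log Q → m ≠ 0 → |m| ≤ (X : ℤ) ^ (A + 2) → dQ Q m ≤ (Q : ℝ) ^ ε := by
  obtain ⟨C', hC'⟩ : ∃ C' : ℝ, C' = max C 1 := ⟨_, rfl⟩
  have hC1 : 1 ≤ C' := by rw [hC']; exact le_max_right _ _
  have hCC : C ≤ C' := by rw [hC']; exact le_max_left _ _
  have hA : (0 : ℝ) < (A : ℝ) + 2 := by positivity
  obtain ⟨K, hK, hdiv⟩ := Pool.Agent.Lib.H21AP.divisor_bound (ε := ε / (2 * C' * (A + 2))) (by positivity)
  obtain ⟨Q0, hQ01, hQ0⟩ := G1_rlog K 0 (ε / 2) (by positivity)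
  refine ⟨Q0, fun Q X m hQ hX hlog hm hmX => ?_⟩
  have hQ1 : 1 ≤ Q := hQ01.trans hQ
  have hQr : (0 : ℝ) < Q := by exact_mod_cast hQ1
  have hlogQ : 0 ≤ Real.log Q := Real.log_natCast_nonneg Q
  have hXr : (0 : ℝ) < X := by exact_mod_cast hX
  have hK2 := hQ0 Q hQ
  rw [Real.rpow_zero, mul_one] at hK2
  have hnat : 1 ≤ m.natAbs := Int.natAbs_pos.2 hm
  have hcard : ((Icc 1 Q).filter (fun d : ℕ => (d : ℤ) ∣ m)).card ≤ m.natAbs.divisors.card := by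
    apply Finset.card_le_card
    intro d hd
    rw [Finset.mem_filter] at hd
    rw [Nat.mem_divisors]
    exact ⟨Int.natCast_dvd.1 hd.2, by omega⟩
  have h1 : dQ Q m ≤ K * (m.natAbs : ℝ) ^ (ε / (2 * C' * (A + 2))) := by
    unfold dQ
    exact (Nat.cast_le.2 hcard).trans (hdiv _ hnat)
  have h2 : (m.natAbs : ℝ) ≤ (X : ℝ) ^ (A + 2) := by
    have h3 : ((m.natAbs : ℤ) : ℤ) ≤ (X : ℤ) ^ (A + 2) := by
      rw [Int.natCast_natAbs]
      exact hmX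
    exact_mod_cast h3
  have h4 : (m.natAbs : ℝ) ^ (ε / (2 * C' * (A + 2))) ≤ (Q : ℝ) ^ (ε / 2) := by
    calc (m.natAbs : ℝ) ^ (ε / (2 * C' * (A + 2))) ≤ ((X : ℝ) ^ (A + 2)) ^ (ε / (2 * C' * (A + 2))) :=
          Real.rpow_le_rpow (Nat.cast_nonneg _) h2 (by positivity)
      _ = Real.exp (Real.log X * (ε / (2 * C'))) := by
          rw [← Real.rpow_natCast, ← Real.rpow_mul hXr.le, Real.rpow_def_of_pos hXr]
          congr 1
          push_cast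
          field_simp
      _ ≤ Real.exp (Real.log Q * (ε / 2)) := by
          apply Real.exp_le_exp.2
          have h5 : Real.log X ≤ C' * Real.log Q := hlog.trans (mul_le_mul_of_nonneg_right hCC hlogQ)
          calc Real.log X * (ε / (2 * C')) ≤ C' * Real.log Q * (ε / (2 * C')) :=
                mul_le_mul_of_nonneg_right h5 (by positivity)
            _ = Real.log Q * (ε / 2) := by field_simp
      _ = (Q : ℝ) ^ (ε / 2) := by rw [Real.rpow_def_of_pos hQr]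
  calc dQ Q m ≤ K * (m.natAbs : ℝ) ^ (ε / (2 * C' * (A + 2))) := h1
    _ ≤ (Q : ℝ) ^ (ε / 2) * (Q : ℝ) ^ (ε / 2) := mul_le_mul hK2 h4 (by positivity) (by positivity)
    _ = (Q : ℝ) ^ ε := by
        rw [← Real.rpow_add hQr]
        congr 1
        ring

/-- Pointwise comparison with a base point of the cell (copy of `V1_pt` of H24P). -/
theorem r13_pt {k : ℕ} (P : Fin k → ℤ[X]) (L Q X X1 : ℕ) (hQ : 1 ≤ Q) (M : Fin k → ℕ)
    (hG : Geo L Q X X1 P M) (hP : ∀ i, ∀ n ∈ Ico X1 (2 * X1),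
      8 * |(P i).eval (n : ℤ)| ≤ M i ∧ ∀ n' ∈ Ico X1 (2 * X1), n ≤ n' → (n' - n) * Q ^ 8 ≤ X1 →
        (Q : ℤ) ^ 8 * |(P i).eval (n' : ℤ) - (P i).eval (n : ℤ)| ≤ M i)
    (Cc : Fin k → ℤ → Ch → ℂ) (mb : Fin k → Ch → ℝ) (hC : ∀ i, Cf Q (Ysc (M i)) (Cc i) (mb i))
    (h0 h : Fin k → ℕ) (hh0 : h0 ∈ cub M M) (hh : h ∈ cub M M) (n : ℕ) (hn : n ∈ Ico X1 (2 * X1)) :
    ((∀ i, (Q : ℤ) ^ 8 * |((h i : ℕ) : ℤ) - h0 i| ≤ M i) →
    ‖((∏ i, Lk Q (Ysc (M i) / Q ^ 2) ((P i).eval (n : ℤ) + h i) : ℝ) : ℂ) -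
      ∏ i, SG Q (Cc i ((P i).eval ((bs (X1 / Q ^ 8) n : ℕ) : ℤ) + (h0 i : ℤ))) ((P i).eval (n : ℤ) + h i)‖ ≤
      k * (6 / (Q : ℝ) ^ 3) * (300 * (1 + Real.log Q) ^ 3) ^ k *
        ∏ i, dQ Q ((P i).eval (n : ℤ) + h i)) ∧
    ‖∏ i, SG Q (Cc i ((P i).eval ((bs (X1 / Q ^ 8) n : ℕ) : ℤ) + (h0 i : ℤ))) ((P i).eval (n : ℤ) + h i)‖ ≤
      (300 * (1 + Real.log Q) ^ 3) ^ k * ∏ i, dQ Q ((P i).eval (n : ℤ) + h i) := by
  have hQ1 : (1 : ℝ) ≤ Q := by exact_mod_cast hQ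
  have hQ0 : (0 : ℝ) < Q := by linarith
  have hlog : 0 ≤ Real.log Q := Real.log_nonneg hQ1
  have hX1 := hG.pos
  have hq8 : 0 < Q ^ 8 := pow_pos (by omega) _
  -- the cells for n
  have hXd : Q ^ 8 ∣ X1 := (pow_dvd_pow Q (by norm_num)).trans hG.dvd
  have hXe : X1 = X1 / Q ^ 8 * Q ^ 8 := (Nat.div_mul_cancel hXd).symm
  have hH : 0 < X1 / Q ^ 8 := Nat.div_pos (Nat.le_of_dvd hX1 hXd) hq8
  obtain ⟨hb1, hb2, hb3⟩ := v1a_bs (X1 / Q ^ 8) (Q ^ 8) n X1 hH hXe hn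
  have hcell : (n - bs (X1 / Q ^ 8) n) * Q ^ 8 ≤ X1 := by
    calc (n - bs (X1 / Q ^ 8) n) * Q ^ 8 ≤ X1 / Q ^ 8 * Q ^ 8 :=
          Nat.mul_le_mul_right _ (by omega)
      _ = X1 := hXe.symm
  have hh' : ∀ i, h i ∈ Ico (M i) (M i + M i) := fun i => Fintype.mem_piFinset.1 hh i
  have hMd : ∀ i, Q ^ 8 ∣ M i := fun i => (dvd_mul_left _ _).trans (hG.dvdM i)
  have hM8 : ∀ i, 8 ∣ M i := fun i => (dvd_mul_right _ _).trans (hG.dvdM i)
  have hMpos : ∀ i, 0 < M i := by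
    intro i
    have := Finset.mem_Ico.1 (hh' i)
    omega
  -- the base points
  obtain ⟨F, hF⟩ : ∃ F : Fin k → ℤ, F = fun i => (P i).eval ((bs (X1 / Q ^ 8) n : ℕ) : ℤ) + (h0 i : ℤ) := ⟨_, rfl⟩
  suffices hgoal : ((∀ i, (Q : ℤ) ^ 8 * |((h i : ℕ) : ℤ) - h0 i| ≤ M i) →
      ‖((∏ i, Lk Q (Ysc (M i) / Q ^ 2) ((P i).eval (n : ℤ) + h i) : ℝ) : ℂ) -
      ∏ i, SG Q (Cc i (F i)) ((P i).eval (n : ℤ) + h i)‖ ≤
      k * (6 / (Q : ℝ) ^ 3) * (300 * (1 + Real.log Q) ^ 3) ^ k *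
        ∏ i, dQ Q ((P i).eval (n : ℤ) + h i)) ∧
    ‖∏ i, SG Q (Cc i (F i)) ((P i).eval (n : ℤ) + h i)‖ ≤
      (300 * (1 + Real.log Q) ^ 3) ^ k * ∏ i, dQ Q ((P i).eval (n : ℤ) + h i) by
    rw [hF] at hgoal
    exact hgoal
  have hval : ∀ i, (Ysc (M i) : ℤ) ≤ (P i).eval (n : ℤ) + h i ∧
      (P i).eval (n : ℤ) + h i ≤ 4 * Ysc (M i) ∧ 4 * Ysc (M i) = 3 * M i := by
    intro i
    have h1 := G2_val (M i) (h i) ((P i).eval (n : ℤ)) (hM8 i) (hP i n hn).1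
      (by have := hh' i; rw [← two_mul] at this; exact this)
    exact ⟨h1.1, by linarith [h1.2.1, h1.1], h1.2.2⟩
  have hY : ∀ i, 0 < Ysc (M i) := by
    intro i
    have h1 := (hval i).2.2
    have h2 := hMpos i
    omega
  have hh0' : ∀ i, h0 i ∈ Ico (M i) (2 * M i) := by
    intro i
    have := Fintype.mem_piFinset.1 hh0 i
    rw [← two_mul] at this
    exact this
  have hbase : ∀ i, (Ysc (M i) : ℤ) ≤ F i ∧ F i ≤ 4 * Ysc (M i) ∧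
      ((Q : ℤ) ^ 8 * |((h i : ℕ) : ℤ) - h0 i| ≤ M i →
        (Q : ℤ) ^ 8 * |(P i).eval (n : ℤ) + h i - F i| ≤ 2 * M i) := by
    intro i
    have h1 := G2_val (M i) (h0 i) ((P i).eval ((bs (X1 / Q ^ 8) n : ℕ) : ℤ)) (hM8 i)
      (hP i _ hb1).1 (hh0' i)
    have hFe : F i = (P i).eval ((bs (X1 / Q ^ 8) n : ℕ) : ℤ) + (h0 i : ℕ) := by
      rw [hF]
    rw [hFe]
    refine ⟨h1.1, by linarith [h1.2.1, h1.1], ?_⟩
    intro h3
    have h2 := (hP i _ hb1).2 n hn hb2 hcell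
    have h5 : (P i).eval (n : ℤ) + (h i : ℤ) -
        ((P i).eval ((bs (X1 / Q ^ 8) n : ℕ) : ℤ) + (h0 i : ℕ)) =
        ((P i).eval (n : ℤ) - (P i).eval ((bs (X1 / Q ^ 8) n : ℕ) : ℤ)) +
        (((h i : ℕ) : ℤ) - (h0 i : ℕ)) := by ring
    rw [h5]
    calc (Q : ℤ) ^ 8 * |((P i).eval (n : ℤ) - (P i).eval ((bs (X1 / Q ^ 8) n : ℕ) : ℤ)) +
        (((h i : ℕ) : ℤ) - (h0 i : ℕ))|
        ≤ (Q : ℤ) ^ 8 * (|(P i).eval (n : ℤ) - (P i).eval ((bs (X1 / Q ^ 8) n : ℕ) : ℤ)| +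
        |((h i : ℕ) : ℤ) - (h0 i : ℕ)|) :=
          mul_le_mul_of_nonneg_left (abs_add_le _ _) (by positivity)
      _ ≤ 2 * M i := by
          rw [mul_add]
          linarith
  have hZ : (∏ i : Fin k, (300 * (1 + Real.log Q) ^ 3 * dQ Q ((P i).eval (n : ℤ) + h i))) =
      (300 * (1 + Real.log Q) ^ 3) ^ k * ∏ i, dQ Q ((P i).eval (n : ℤ) + h i) := by
    rw [Finset.prod_mul_distrib, Finset.prod_const, Finset.card_univ, Fintype.card_fin]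
  have hdq : ∀ i : Fin k, 0 ≤ dQ Q ((P i).eval (n : ℤ) + h i) := by
    intro i
    exact Nat.cast_nonneg _
  have hC0 : 0 ≤ 100 * (1 + Real.log Q) ^ 3 := by positivity
  have hsg : ∀ (m : ℤ) (i : Fin k), (Ysc (M i) : ℤ) ≤ m → m ≤ 4 * Ysc (M i) →
      ‖SG Q (Cc i m) ((P i).eval (n : ℤ) + h i)‖ ≤
        300 * (1 + Real.log Q) ^ 3 * dQ Q ((P i).eval (n : ℤ) + h i) := by
    intro m i h1 h2
    refine (S1b Q hQ (Cc i m) (mb i) ((hC i).le m h1 h2) _).trans ?_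
    have h3 : 0 ≤ 100 * (1 + Real.log Q) ^ 3 * dQ Q ((P i).eval (n : ℤ) + h i) := mul_nonneg hC0 (hdq i)
    calc 100 * (1 + Real.log Q) ^ 3 * dQ Q ((P i).eval (n : ℤ) + h i) * ∑ p ∈ PC Q, mb i p
        ≤ 100 * (1 + Real.log Q) ^ 3 * dQ Q ((P i).eval (n : ℤ) + h i) * 3 :=
          mul_le_mul_of_nonneg_left (hC i).sum h3
      _ = 300 * (1 + Real.log Q) ^ 3 * dQ Q ((P i).eval (n : ℤ) + h i) := by ring
  constructor
  · intro hclose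
    have hLk : ((∏ i, Lk Q (Ysc (M i) / Q ^ 2) ((P i).eval (n : ℤ) + h i) : ℝ) : ℂ) =
        ∏ i, SG Q (Cc i ((P i).eval (n : ℤ) + h i)) ((P i).eval (n : ℤ) + h i) := by
      rw [Complex.ofReal_prod]
      exact Finset.prod_congr rfl fun i _ => (hC i).eq _ (hval i).1 (hval i).2.1
    rw [hLk]
    have key := v1b_prod (Finset.univ : Finset (Fin k))
      (fun i => SG Q (Cc i ((P i).eval (n : ℤ) + h i)) ((P i).eval (n : ℤ) + h i))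
      (fun i => SG Q (Cc i (F i)) ((P i).eval (n : ℤ) + h i))
      (fun i => 300 * (1 + Real.log Q) ^ 3 * dQ Q ((P i).eval (n : ℤ) + h i)) (6 / (Q : ℝ) ^ 3)
      (by positivity)
      (fun i => mul_nonneg (by positivity) (hdq i))
      (fun i _ => hsg _ i (hval i).1 (hval i).2.1)
      (fun i _ => hsg _ i (hbase i).1 (hbase i).2.1)
      (fun i _ => ?_)
    · rw [hZ, Finset.card_univ, Fintype.card_fin] at key
      refine key.trans (le_of_eq ?_)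
      ring
    · rw [v1b_sub]
      have hY0 : (0 : ℝ) < Ysc (M i) := by exact_mod_cast hY i
      have h1 : ∀ p ∈ PC Q, ‖Cc i ((P i).eval (n : ℤ) + h i) p - Cc i (F i) p‖ ≤ 6 / (Q : ℝ) ^ 5 := by
        intro p hp
        refine (v1a_slow Q (Ysc (M i)) (Cc i) (mb i) (hC i) _ _ (hbase i).1 (hbase i).2.1
          (hval i).1 (hval i).2.1 p hp).trans ?_
        have h2 : (Q : ℝ) ^ 8 * |(((P i).eval (n : ℤ) + h i : ℤ) : ℝ) - ((F i : ℤ) : ℝ)| ≤ 2 * M i := by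
          exact_mod_cast (hbase i).2.2 (hclose i)
        have h3 : (4 : ℝ) * Ysc (M i) = 3 * M i := by exact_mod_cast (hval i).2.2
        have h4 : |(((P i).eval (n : ℤ) + h i : ℤ) : ℝ) - ((F i : ℤ) : ℝ)| ≤
            (8 / 3 * Ysc (M i)) / (Q : ℝ) ^ 8 := by
          rw [le_div_iff₀ (by positivity), mul_comm]
          linarith
        calc |(((P i).eval (n : ℤ) + h i : ℤ) : ℝ) - ((F i : ℤ) : ℝ)| *
              (2 * (Q : ℝ) ^ 3 / Ysc (M i))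
            ≤ (8 / 3 * Ysc (M i)) / (Q : ℝ) ^ 8 * (2 * (Q : ℝ) ^ 3 / Ysc (M i)) :=
              mul_le_mul_of_nonneg_right h4 (by positivity)
          _ = (16 / 3) / (Q : ℝ) ^ 5 := by
              field_simp
              ring
          _ ≤ 6 / (Q : ℝ) ^ 5 := by
              apply div_le_div_of_nonneg_right _ (by positivity)
              norm_num
      refine (S1b Q hQ _ (fun _ => 6 / (Q : ℝ) ^ 5) h1 _).trans ?_
      rw [Finset.sum_const, nsmul_eq_mul]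
      have hc : ((PC Q).card : ℝ) ≤ (Q : ℝ) ^ 2 := by exact_mod_cast card_PC_le Q
      have h3 : 0 ≤ 100 * (1 + Real.log Q) ^ 3 * dQ Q ((P i).eval (n : ℤ) + h i) :=
        mul_nonneg hC0 (hdq i)
      calc 100 * (1 + Real.log Q) ^ 3 * dQ Q ((P i).eval (n : ℤ) + h i) *
            (((PC Q).card : ℝ) * (6 / (Q : ℝ) ^ 5))
          ≤ 100 * (1 + Real.log Q) ^ 3 * dQ Q ((P i).eval (n : ℤ) + h i) *
            ((Q : ℝ) ^ 2 * (6 / (Q : ℝ) ^ 5)) := by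
            apply mul_le_mul_of_nonneg_left _ h3
            exact mul_le_mul_of_nonneg_right hc (by positivity)
        _ = 6 / (Q : ℝ) ^ 3 * (100 * (1 + Real.log Q) ^ 3 * dQ Q ((P i).eval (n : ℤ) + h i)) := by
            field_simp
        _ ≤ 6 / (Q : ℝ) ^ 3 * (300 * (1 + Real.log Q) ^ 3 * dQ Q ((P i).eval (n : ℤ) + h i)) := by
            apply mul_le_mul_of_nonneg_left _ (by positivity)
            have h5 : 0 ≤ (1 + Real.log Q) ^ 3 * dQ Q ((P i).eval (n : ℤ) + h i) :=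
              mul_nonneg (by positivity) (hdq i)
            nlinarith
  · rw [← hZ, norm_prod]
    exact Finset.prod_le_prod (fun i _ => norm_nonneg _) fun i _ => hsg _ i (hbase i).1 (hbase i).2.1


/-- The product of the divisor functions. -/
theorem r13_prod {k : ℕ} (P : Fin k → ℤ[X]) (C : ℝ) : ∃ Q0 : ℕ, 3 ≤ Q0 ∧
    ∀ (L Q X X1 : ℕ) (M : Fin k → ℕ), Q0 ≤ Q → Rg 2 C Q X → Geo L Q X X1 P M →
    ∀ h ∈ cub M M, ∀ n ∈ Ico X1 (2 * X1), (∀ i, 8 * |(P i).eval (n : ℤ)| ≤ M i) →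
    ∏ i, dQ Q ((P i).eval (n : ℤ) + h i) ≤ (Q : ℝ) ^ (1 / 2 : ℝ) := by
  obtain ⟨Q0, hQ0⟩ := R13_dQ (∑ i, (P i).natDegree) C (1 / (2 * k + 2)) (by positivity)
  refine ⟨max 3 Q0, le_max_left _ _, fun L Q X X1 M hQ hR hG h hh n hn hP => ?_⟩
  have hQ3 : 3 ≤ Q := (le_max_left _ _).trans hQ
  have hQ0' : Q0 ≤ Q := (le_max_right _ _).trans hQ
  have hQr : (0 : ℝ) < Q := by exact_mod_cast (by omega : 0 < Q)
  have hQ1 : (1 : ℝ) ≤ Q := by exact_mod_cast (by omega : 1 ≤ Q)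
  have hlogQ : 1 ≤ Real.log Q := G1_log1 hQ3
  have hX1 : 0 < X1 := hG.pos
  have hX : 0 < X := lt_of_lt_of_le hX1 hG.le
  have hXr : (0 : ℝ) < X := by exact_mod_cast hX
  have hX3 : (3 : ℝ) ≤ X := by
    have h1 : 2 * Real.log Q ≤ Real.log X := hR.1
    have h2 : (2 : ℝ) ≤ Real.log X := by linarith
    have h3 := Real.add_one_le_exp (2 : ℝ)
    have h4 : Real.exp 2 ≤ Real.exp (Real.log X) := Real.exp_le_exp.2 h2
    rw [Real.exp_log hXr] at h4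
    linarith
  have hQX : (Q : ℝ) ^ (1 / 8 : ℝ) ≤ X := by
    rw [Real.rpow_def_of_pos hQr, ← Real.le_log_iff_exp_le hXr]
    have h1 : 2 * Real.log Q ≤ Real.log X := hR.1
    linarith
  have hh' : ∀ i, h i ∈ Ico (M i) (2 * M i) := by
    intro i
    have := Fintype.mem_piFinset.1 hh i
    rw [← two_mul] at this
    exact this
  have hM8 : ∀ i, 8 ∣ M i := fun i => (dvd_mul_right _ _).trans (hG.dvdM i)
  have hd : ∀ i, dQ Q ((P i).eval (n : ℤ) + h i) ≤ (Q : ℝ) ^ (1 / (2 * k + 2) : ℝ) := by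
    intro i
    have h1 := G2_val (M i) (h i) ((P i).eval (n : ℤ)) (hM8 i) (hP i) (hh' i)
    have hMi : 0 < M i := by
      have := mem_Ico.1 (hh' i)
      omega
    have hY : 0 < Ysc (M i) := by
      have := h1.2.2
      omega
    have hm0 : 0 < (P i).eval (n : ℤ) + h i := by
      have : (0 : ℤ) < Ysc (M i) := by exact_mod_cast hY
      linarith [h1.1]
    refine hQ0 Q X _ hQ0' hX hR.2 hm0.ne' ?_
    rw [abs_of_pos hm0]
    have h2 : (P i).eval (n : ℤ) + h i ≤ 3 * M i := by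
      have h3 : (4 : ℤ) * Ysc (M i) = 3 * M i := by exact_mod_cast h1.2.2
      have h4 : (0 : ℤ) ≤ M i := by positivity
      linarith [h1.2.1]
    have h5 : ((3 * M i : ℕ) : ℝ) ≤ ((X ^ ((∑ i, (P i).natDegree) + 2) : ℕ) : ℝ) := by
      push_cast
      have hX1r : (X1 : ℝ) ≤ X := by exact_mod_cast hG.le
      have hXone : (1 : ℝ) ≤ X := by linarith
      have hdeg : (P i).natDegree ≤ ∑ i, (P i).natDegree :=
        Finset.single_le_sum (f := fun i => (P i).natDegree) (fun _ _ => Nat.zero_le _) (Finset.mem_univ i)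
      calc (3 : ℝ) * M i ≤ X * ((X1 : ℝ) ^ (P i).natDegree * (Q : ℝ) ^ (1 / 8 : ℝ)) :=
            mul_le_mul hX3 (hG.hi i) (Nat.cast_nonneg _) hXr.le
        _ ≤ X * ((X : ℝ) ^ (∑ i, (P i).natDegree) * X) := by
            apply mul_le_mul_of_nonneg_left _ hXr.le
            apply mul_le_mul _ hQX (by positivity) (by positivity)
            exact (pow_le_pow_left₀ (Nat.cast_nonneg _) hX1r _).trans (pow_le_pow_right₀ hXone hdeg)
        _ = (X : ℝ) ^ ((∑ i, (P i).natDegree) + 2) := by ring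
    have h6 : 3 * M i ≤ X ^ ((∑ i, (P i).natDegree) + 2) := by exact_mod_cast h5
    calc (P i).eval (n : ℤ) + h i ≤ ((3 * M i : ℕ) : ℤ) := by push_cast; exact h2
      _ ≤ ((X ^ ((∑ i, (P i).natDegree) + 2) : ℕ) : ℤ) := by exact_mod_cast h6
      _ = _ := by push_cast; rfl
  calc ∏ i, dQ Q ((P i).eval (n : ℤ) + h i) ≤ ∏ _i : Fin k, (Q : ℝ) ^ (1 / (2 * k + 2) : ℝ) :=
        Finset.prod_le_prod (fun i _ => Nat.cast_nonneg _) fun i _ => hd i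
    _ = (Q : ℝ) ^ ((1 / (2 * k + 2) : ℝ) * k) := by
        rw [Finset.prod_const, Finset.card_univ, Fintype.card_fin, Real.rpow_mul hQr.le, Real.rpow_natCast]
    _ ≤ (Q : ℝ) ^ (1 / 2 : ℝ) := by
        apply Real.rpow_le_rpow_of_exponent_le hQ1
        have hk : (0 : ℝ) ≤ k := Nat.cast_nonneg k
        rw [div_mul_eq_mul_div, one_mul, div_le_div_iff₀ (by positivity) (by norm_num)]
        linarith

/-- **R13a**. Pointwise size. Proof. As the second part of `V1_pt` (H24P/V1A.lean): `S1b` of `H59P` for each coordinate (total size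
of the coefficients `≤ 3`, `Cf.le`, `Cf.sum`; `P_i(bs n) + h0_i` is in `[Y_i, 3 Y_i)`: `G2_P`, `G2_val`), `R13_dQ` with
`ε = 1/(2k+2)` (`0 < Y_i ≤ P_i(n) + h_i < 3 Y_i ≤ 3 M_i ≤ 3 X1^d Q^(1/8) ≤ X^(A+2)`), logarithms `G1_rlog`. -/
theorem R13_small {k : ℕ} (P : Fin k → ℤ[X]) (hP : ∀ i, 1 ≤ (P i).natDegree) : ∃ L : ℕ, 2 ≤ L ∧
    ∀ C : ℝ, ∃ Q0 : ℕ, ∀ (Q X X1 : ℕ) (M : Fin k → ℕ), Q0 ≤ Q → Rg 2 C Q X → Geo L Q X X1 P M →
    ∀ (C' : Fin k → ℤ → Ch → ℂ) (mb : Fin k → Ch → ℝ), (∀ i, Cf Q (Ysc (M i)) (C' i) (mb i)) →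
    ∀ (w : ℕ → ℂ) (δ : ℝ), (∀ n ∈ Ico X1 (2 * X1), ‖w n‖ ≤ δ) → ∀ h0 ∈ cub M M, ∀ h ∈ cub M M,
    ‖Rzb Q X1 P C' w h0 h‖ ≤ δ * X1 * Q := by
  obtain ⟨L, hL, hGP⟩ := G2_P P hP
  refine ⟨L, hL, fun C => ?_⟩
  obtain ⟨Qa, hQa3, ha⟩ := r13_prod P C
  obtain ⟨Qb, hQb1, hb⟩ := G1_rlog (300 ^ k) ((3 * k : ℕ) : ℝ) (1 / 2) (by norm_num)
  refine ⟨max Qa Qb, fun Q X X1 M hQ hR hG C' mb hC w δ hw h0 hh0 h hh => ?_⟩
  have hQa := (le_max_left _ _).trans hQ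
  have hQb := (le_max_right _ _).trans hQ
  have hQ1 : 1 ≤ Q := hQb1.trans hQb
  have hQr : (0 : ℝ) < Q := by exact_mod_cast hQ1
  have hlog : 0 ≤ Real.log Q := Real.log_natCast_nonneg Q
  have hgp := hGP Q X X1 M hG
  have hX1 : 0 < X1 := hG.pos
  have hδ : 0 ≤ δ := (norm_nonneg _).trans (hw X1 (by rw [Finset.mem_Ico]; omega))
  have k2 := hb Q hQb
  rw [Real.rpow_natCast] at k2
  have k3 : (300 * (1 + Real.log Q) ^ 3) ^ k ≤ (Q : ℝ) ^ (1 / 2 : ℝ) := by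
    rw [mul_pow, ← pow_mul]
    exact k2
  have hterm : ∀ n ∈ Ico X1 (2 * X1), ‖w n *
      ∏ i, SG Q (C' i ((P i).eval ((bs (X1 / Q ^ 8) n : ℕ) : ℤ) + (h0 i : ℤ))) ((P i).eval (n : ℤ) + h i)‖ ≤ δ * Q := by
    intro n hn
    rw [norm_mul]
    have h1 := (r13_pt P L Q X X1 hQ1 M hG hgp C' mb hC h0 h hh0 hh n hn).2
    have h2 := ha L Q X X1 M hQa hR hG h hh n hn fun i => (hgp i n hn).1
    have h3 : (300 * (1 + Real.log Q) ^ 3) ^ k * ∏ i, dQ Q ((P i).eval (n : ℤ) + h i) ≤ Q := by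
      calc (300 * (1 + Real.log Q) ^ 3) ^ k * ∏ i, dQ Q ((P i).eval (n : ℤ) + h i)
          ≤ (Q : ℝ) ^ (1 / 2 : ℝ) * (Q : ℝ) ^ (1 / 2 : ℝ) :=
            mul_le_mul k3 h2 (Finset.prod_nonneg fun i _ => Nat.cast_nonneg _) (by positivity)
        _ = Q := by
            rw [← Real.rpow_add hQr]
            norm_num
    exact mul_le_mul (hw n hn) (h1.trans h3) (norm_nonneg _) hδ
  unfold Rzb
  calc ‖∑ n ∈ Ico X1 (2 * X1), w n *
        ∏ i, SG Q (C' i ((P i).eval ((bs (X1 / Q ^ 8) n : ℕ) : ℤ) + (h0 i : ℤ))) ((P i).eval (n : ℤ) + h i)‖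
      ≤ ∑ n ∈ Ico X1 (2 * X1), δ * Q := (norm_sum_le _ _).trans (Finset.sum_le_sum hterm)
    _ = δ * X1 * Q := by
        rw [Finset.sum_const, Nat.card_Ico, nsmul_eq_mul]
        have : 2 * X1 - X1 = X1 := by omega
        rw [this]
        ring

/-- **R13** (port of `V1_main`). Proof. As the first part of `V1_pt` (H24P/V1A.lean): the distance of
`P_i(n) + h_i` and `P_i(bs n) + h0_i` is at most `2 M_i/Q^8` (`G2_P` and the hypothesis), both are in `[Y_i, 3 Y_i)`,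
`v1a_slow`, `v1b_prod`; `R13_dQ`, logarithms. The difference is at most `X1 (log X)² k (6/Q³) (300 (1+log Q)³)^k Q^(1/2)`. -/
theorem R13_main {k : ℕ} (P : Fin k → ℤ[X]) (hP : ∀ i, 1 ≤ (P i).natDegree) : ∃ L : ℕ, 2 ≤ L ∧
    ∀ C : ℝ, ∃ Q0 : ℕ, ∀ (Q X X1 : ℕ) (M : Fin k → ℕ), Q0 ≤ Q → Rg 2 C Q X → Geo L Q X X1 P M →
    ∀ (C' : Fin k → ℤ → Ch → ℂ) (mb : Fin k → Ch → ℝ), (∀ i, Cf Q (Ysc (M i)) (C' i) (mb i)) →
    ∀ w : ℕ → ℝ, (∀ n ∈ Ico X1 (2 * X1), |w n| ≤ (Real.log X) ^ 2) → ∀ h0 ∈ cub M M, ∀ h ∈ cub M M,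
    (∀ i, (Q : ℤ) ^ 8 * |((h i : ℕ) : ℤ) - h0 i| ≤ M i) →
    ‖((Rw Q X1 P M w h : ℝ) : ℂ) - Rzb Q X1 P C' (fun n => ((w n : ℝ) : ℂ)) h0 h‖ ≤ X1 * (Q : ℝ) ^ (-(1) : ℝ) := by
  obtain ⟨L, hL, hGP⟩ := G2_P P hP
  refine ⟨L, hL, fun C => ?_⟩
  obtain ⟨Qa, hQa3, ha⟩ := r13_prod P C
  obtain ⟨Qb, hQb1, hb⟩ := G1_rlog (300 ^ k) ((3 * k : ℕ) : ℝ) (1 / 4) (by norm_num)
  obtain ⟨Qc, hQc1, hc⟩ := G1_log C 2 (6 * k) (1 / 4) (by norm_num)
  refine ⟨max (max Qa Qb) Qc, fun Q X X1 M hQ hR hG C' mb hC w hw h0 hh0 h hh hclose => ?_⟩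
  have hQa := ((le_max_left _ _).trans (le_max_left _ _)).trans hQ
  have hQb := ((le_max_right _ _).trans (le_max_left _ _)).trans hQ
  have hQc := (le_max_right _ _).trans hQ
  have hQ1 : 1 ≤ Q := hQb1.trans hQb
  have hQr : (0 : ℝ) < Q := by exact_mod_cast hQ1
  have hQr1 : (1 : ℝ) ≤ Q := by exact_mod_cast hQ1
  have hlog : 0 ≤ Real.log Q := Real.log_natCast_nonneg Q
  have hgp := hGP Q X X1 M hG
  have k2 := hb Q hQb
  rw [Real.rpow_natCast] at k2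
  have k3 : (300 * (1 + Real.log Q) ^ 3) ^ k ≤ (Q : ℝ) ^ (1 / 4 : ℝ) := by
    rw [mul_pow, ← pow_mul]
    exact k2
  have k4 := hc Q X hQc hR.2
  obtain ⟨δ, hδ⟩ : ∃ δ : ℝ, δ = (Q : ℝ) ^ (-(1) : ℝ) := ⟨_, rfl⟩
  have hδ2 : (Q : ℝ) ^ (1 / 4 : ℝ) * ((Q : ℝ) ^ (1 / 4 : ℝ) * (Q : ℝ) ^ (1 / 2 : ℝ)) / (Q : ℝ) ^ 3 ≤ δ := by
    have h1 : (Q : ℝ) ^ (1 / 4 : ℝ) * ((Q : ℝ) ^ (1 / 4 : ℝ) * (Q : ℝ) ^ (1 / 2 : ℝ)) = Q := by
      rw [← Real.rpow_add hQr, ← Real.rpow_add hQr]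
      norm_num
    rw [h1, hδ, Real.rpow_neg hQr.le, Real.rpow_one, div_le_iff₀ (by positivity)]
    have h2 : ((Q : ℝ))⁻¹ * (Q : ℝ) ^ 3 = (Q : ℝ) ^ 2 := by field_simp
    rw [h2]
    nlinarith
  have hterm : ∀ n ∈ Ico X1 (2 * X1), ‖((w n : ℝ) : ℂ) *
      (((∏ i, Lk Q (Ysc (M i) / Q ^ 2) ((P i).eval (n : ℤ) + h i) : ℝ) : ℂ) -
      ∏ i, SG Q (C' i ((P i).eval ((bs (X1 / Q ^ 8) n : ℕ) : ℤ) + (h0 i : ℤ))) ((P i).eval (n : ℤ) + h i))‖ ≤ δ := by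
    intro n hn
    rw [norm_mul, Complex.norm_real, Real.norm_eq_abs]
    have h1 := (r13_pt P L Q X X1 hQ1 M hG hgp C' mb hC h0 h hh0 hh n hn).1 hclose
    have h2 := ha L Q X X1 M hQa hR hG h hh n hn fun i => (hgp i n hn).1
    have h4 : (0 : ℝ) ≤ ∏ i, dQ Q ((P i).eval (n : ℤ) + h i) := Finset.prod_nonneg fun i _ => Nat.cast_nonneg _
    refine le_trans ?_ hδ2
    calc |w n| * ‖((∏ i, Lk Q (Ysc (M i) / Q ^ 2) ((P i).eval (n : ℤ) + h i) : ℝ) : ℂ) -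
          ∏ i, SG Q (C' i ((P i).eval ((bs (X1 / Q ^ 8) n : ℕ) : ℤ) + (h0 i : ℤ))) ((P i).eval (n : ℤ) + h i)‖
        ≤ (Real.log X) ^ 2 * (k * (6 / (Q : ℝ) ^ 3) * (300 * (1 + Real.log Q) ^ 3) ^ k *
          ∏ i, dQ Q ((P i).eval (n : ℤ) + h i)) := mul_le_mul (hw n hn) h1 (norm_nonneg _) (by positivity)
      _ = (6 * k * (Real.log X) ^ 2) * ((300 * (1 + Real.log Q) ^ 3) ^ k *
          ∏ i, dQ Q ((P i).eval (n : ℤ) + h i)) / (Q : ℝ) ^ 3 := by ring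
      _ ≤ (Q : ℝ) ^ (1 / 4 : ℝ) * ((Q : ℝ) ^ (1 / 4 : ℝ) * (Q : ℝ) ^ (1 / 2 : ℝ)) / (Q : ℝ) ^ 3 := by
          apply div_le_div_of_nonneg_right _ (by positivity)
          apply mul_le_mul k4 _ (by positivity) (by positivity)
          exact mul_le_mul k3 h2 h4 (by positivity)
  have e : ((Rw Q X1 P M w h : ℝ) : ℂ) - Rzb Q X1 P C' (fun n => ((w n : ℝ) : ℂ)) h0 h =
      ∑ n ∈ Ico X1 (2 * X1), ((w n : ℝ) : ℂ) *
        (((∏ i, Lk Q (Ysc (M i) / Q ^ 2) ((P i).eval (n : ℤ) + h i) : ℝ) : ℂ) -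
          ∏ i, SG Q (C' i ((P i).eval ((bs (X1 / Q ^ 8) n : ℕ) : ℤ) + (h0 i : ℤ))) ((P i).eval (n : ℤ) + h i)) := by
    unfold Rw Rzb
    rw [Complex.ofReal_sum, ← Finset.sum_sub_distrib]
    refine Finset.sum_congr rfl fun n _ => ?_
    rw [Complex.ofReal_mul, mul_sub]
  rw [e]
  calc ‖∑ n ∈ Ico X1 (2 * X1), ((w n : ℝ) : ℂ) *
        (((∏ i, Lk Q (Ysc (M i) / Q ^ 2) ((P i).eval (n : ℤ) + h i) : ℝ) : ℂ) -
          ∏ i, SG Q (C' i ((P i).eval ((bs (X1 / Q ^ 8) n : ℕ) : ℤ) + (h0 i : ℤ))) ((P i).eval (n : ℤ) + h i))‖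
      ≤ ∑ n ∈ Ico X1 (2 * X1), δ := (norm_sum_le _ _).trans (Finset.sum_le_sum hterm)
    _ = X1 * (Q : ℝ) ^ (-(1) : ℝ) := by
        rw [Finset.sum_const, Nat.card_Ico, nsmul_eq_mul, hδ]
        have : 2 * X1 - X1 = X1 := by omega
        rw [this]

end Pool.Agent.HUP
end

-- from Lib.HUP.R14
section

/-!
# Project HUP, module R (the modules of H24P for an abstract family), R14: freezing the linear coordinate, pointwise
-/

open Finset Polynomial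

namespace Pool.Agent.HUP

open Pool.Agent.Lib.H68T Pool.Agent.Lib.H18Q Pool.Agent.Lib.H59P Pool.Agent.Lib.H24P

/-- **R14** (port of `V2_main`, H24P/V2.lean). Proof. `Rzb` is linear in the weight: `V2_pt` and `R13_small` with
`δ = Q^(-10)`. -/
theorem R14_main {k : ℕ} (P : Fin k → ℤ[X]) (hP : ∀ i, 1 ≤ (P i).natDegree) (A : ℕ) : ∃ L : ℕ, 2 ≤ L ∧
    ∀ C : ℝ, ∃ Q0 : ℕ, ∀ (Q X X1 Y : ℕ) (M : Fin k → ℕ) (B : ℤ[X]) (C0 : ℤ → Ch → ℂ) (mb : Ch → ℝ),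
    Q0 ≤ Q → Rg 2 C Q X → Geo L Q X X1 P M → GeoB A X X1 Y B → Cf (Q ^ 100) Y C0 mb →
    ∀ (C' : Fin k → ℤ → Ch → ℂ) (mc : Fin k → Ch → ℝ), (∀ i, Cf Q (Ysc (M i)) (C' i) (mc i)) →
    ∀ h0 ∈ cub M M, ∀ h ∈ cub M M,
    ‖Rzb Q X1 P C' (fun n => ((Lk (Q ^ 100) (Y / (Q ^ 100) ^ 2) (B.eval (n : ℤ)) : ℝ) : ℂ)) h0 h -
      Rzb Q X1 P C' (gB Q X1 B C0) h0 h‖ ≤ X1 * (Q : ℝ) ^ (-(1) : ℝ) := by
  obtain ⟨L, hL, hC1⟩ := R13_small P hP
  refine ⟨L, hL, ?_⟩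
  intro C
  obtain ⟨Q1, h1⟩ := hC1 C
  obtain ⟨Q2, h2⟩ := V2_pt A
  refine ⟨max (max Q1 Q2) 1, ?_⟩
  intro Q X X1 Y M B C0 mb hQ hRg hG hGB hC C' mc hCc h0 hh0 h hh
  have hQ1 : Q1 ≤ Q := (le_max_left _ _).trans ((le_max_left _ _).trans hQ)
  have hQ2 : Q2 ≤ Q := (le_max_right _ _).trans ((le_max_left _ _).trans hQ)
  have hQ3 : 1 ≤ Q := (le_max_right _ _).trans hQ
  have h3 := h1 Q X X1 M hQ1 hRg hG C' mc hCc
    (fun n => ((Lk (Q ^ 100) (Y / (Q ^ 100) ^ 2) (B.eval (n : ℤ)) : ℝ) : ℂ) - gB Q X1 B C0 n)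
    ((Q : ℝ) ^ (-(10) : ℝ)) (fun n hn => h2 Q X X1 Y B C0 mb hQ2 hG.dvd hGB hC n hn) h0 hh0 h hh
  have h4 : Rzb Q X1 P C'
        (fun n => ((Lk (Q ^ 100) (Y / (Q ^ 100) ^ 2) (B.eval (n : ℤ)) : ℝ) : ℂ)) h0 h -
      Rzb Q X1 P C' (gB Q X1 B C0) h0 h = Rzb Q X1 P C'
        (fun n => ((Lk (Q ^ 100) (Y / (Q ^ 100) ^ 2) (B.eval (n : ℤ)) : ℝ) : ℂ) - gB Q X1 B C0 n) h0 h := by
    unfold Rzb
    rw [← sum_sub_distrib]
    refine sum_congr rfl fun n _ => ?_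
    ring
  rw [h4]
  refine h3.trans ?_
  have hQr : (1 : ℝ) ≤ Q := by exact_mod_cast hQ3
  have hQp : (0 : ℝ) < Q := by linarith
  have h5 : (Q : ℝ) ^ (-(10) : ℝ) * Q ≤ (Q : ℝ) ^ (-(1) : ℝ) := by
    have e2 : (Q : ℝ) ^ (-(10) : ℝ) * Q = (Q : ℝ) ^ (-(9) : ℝ) := by
      have := Real.rpow_add hQp (-(10)) 1
      rw [Real.rpow_one] at this
      rw [← this]
      norm_num
    rw [e2]
    exact Real.rpow_le_rpow_of_exponent_le hQr (by norm_num)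
  calc (Q : ℝ) ^ (-(10) : ℝ) * X1 * Q = X1 * ((Q : ℝ) ^ (-(10) : ℝ) * Q) := by ring
    _ ≤ X1 * (Q : ℝ) ^ (-(1) : ℝ) := mul_le_mul_of_nonneg_left h5 (by positivity)

end Pool.Agent.HUP
end

-- from Lib.HUP.R5
section

/-!
# Project HUP, module R (the modules of H24P for an abstract family), R5: mean squares of parts of the singular series
-/

open Finset Polynomial

namespace Pool.Agent.HUP

open Pool.Agent.Lib.H68T Pool.Agent.Lib.H18Q Pool.Agent.Lib.H59P Pool.Agent.Lib.H24P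

/-- **R5** (port of `T3_main`, H24P/T3.lean). Proof. As there with `N = (∏ S) (Q^2)^(E+1)` (so `j = (Q^2)^(E+1)` in `T2_iden`) and
`FGood` at the level `Q^2`. -/
theorem R5_main (k A E : ℕ) (hA : 1 ≤ A) (Cc cc : ℝ) (hC : FPar Cc cc) : ∃ C c : ℝ, 1 ≤ C ∧ 0 < c ∧ c ≤ 1 ∧
    ∀ B : ℤ[X], Lin A B → ∀ P : Fin k → ℤ[X], Pol A P → ∀ Q : ℕ, 2 ≤ Q → ∀ (Δ : Finset ℕ) (D : ℕ), 1 ≤ D →
    (∀ d ∈ Δ, Squarefree d ∧ D < d ∧ d ≤ Q ^ 2 ∧
      ∀ l ∈ d.primeFactors, l ≤ Q ∧ ¬ l ∣ B.leadingCoeff.natAbs) →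
    ∀ (ι : Type) (S : Finset ι) (g : ι → Fin k → ℕ), FGood E Cc cc (Q ^ 2) P S g →
    ∑ x ∈ S, (∑ d ∈ Δ, tdf d (sys B P (g x))) ^ 2 ≤
      C * (1 + Real.log Q) ^ C * S.card * (D : ℝ) ^ (-c) := by
  classical
  obtain ⟨hCc, hcc0, hcc1⟩ := hC
  have hcst : 0 < 500 * Cc * 2 ^ Cc := by positivity
  refine ⟨500 * Cc * 2 ^ Cc + Cc + 1, cc, by linarith, hcc0, hcc1, ?_⟩
  intro B hB P hP Q hQ Δ D hD hΔ ι Sx g hg
  have hQr : (2 : ℝ) ≤ Q := by exact_mod_cast hQ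
  have hlQ : 0 ≤ Real.log Q := Real.log_natCast_nonneg Q
  set S : Finset ℕ := (pr Q).filter (fun l => ¬ l ∣ B.leadingCoeff.natAbs) with hSdef
  have hS : ∀ l ∈ S, l.Prime ∧ l ≤ Q ∧ ¬ l ∣ B.leadingCoeff.natAbs := by
    intro l hl
    rw [hSdef, mem_filter] at hl
    unfold pr at hl
    rw [mem_filter, mem_Icc] at hl
    exact ⟨hl.1.2, hl.1.1.2, hl.2⟩
  have hΔ' : ∀ d ∈ Δ, Squarefree d ∧ d ≤ Q ^ 2 ∧ d.primeFactors ⊆ S := by
    intro d hd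
    obtain ⟨h1, h2, h3, h4⟩ := hΔ d hd
    refine ⟨h1, h3, fun l hl => ?_⟩
    rw [hSdef, mem_filter]
    unfold pr
    rw [mem_filter, mem_Icc]
    have h5 := (Nat.mem_primeFactors.mp hl).1
    exact ⟨⟨⟨h5.one_lt.le, (h4 l hl).1⟩, h5⟩, (h4 l hl).2⟩
  have hpS : 0 < ∏ l ∈ S, l := prod_pos fun l hl => (hS l hl).1.pos
  have hQ2 : 1 ≤ Q ^ 2 := Nat.one_le_pow _ _ (by omega)
  have hj1 : 1 ≤ (Q ^ 2) ^ (E + 1) := Nat.one_le_pow _ _ (by positivity)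
  set N : ℕ := (∏ l ∈ S, l) * (Q ^ 2) ^ (E + 1) with hN
  have hN0 : 0 < N := Nat.mul_pos hpS hj1
  have hNQ : (Q ^ 2) ^ E ≤ N := (Nat.pow_le_pow_right hQ2 (Nat.le_succ E)).trans
    (Nat.le_mul_of_pos_left _ hpS)
  have hNr : (0 : ℝ) < N := by exact_mod_cast hN0
  set T : Finset (Fin k → ℕ) := (Fintype.piFinset fun _ : Fin k => KS (Q ^ 2) 1).filter
    (fun κ => univ.lcm κ ∈ Δ) with hT
  have hiden := fun h : Fin k → ℕ => T2_iden B hB.deg P h S (fun l hl => ⟨(hS l hl).1, (hS l hl).2.2⟩)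
    (Q ^ 2) ((Q ^ 2) ^ (E + 1)) hj1 Δ hΔ'
  have hFg := hg (Q ^ 2) hQ2 le_rfl (fun _ => p0) (fun _ => p0_mem hQ2) T (filter_subset _ _) D hD
    (by
      intro κ hκ
      have h1 := (mem_filter.mp hκ).2
      have h2 : (fun i => (p0).1 * κ i) = κ := by
        funext i
        exact one_mul _
      rw [h2]
      exact (hΔ _ h1).2.1)
    0 N hNQ (fun n => ((uu S (B.eval (n : ℤ)) : ℝ) : ℂ))
  have hsq := t3_sq B hB.deg Q hQ ((Q ^ 2) ^ (E + 1)) S hS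
  have hL : ∀ x ∈ Sx, ‖∑ n ∈ Ico 0 (0 + N), ((uu S (B.eval (n : ℤ)) : ℝ) : ℂ) *
      ∑ κ ∈ T, ∏ i, gk p0 (κ i) ((P i).eval (n : ℤ) + g x i)‖ ^ 2 =
      (N : ℝ) ^ 2 * (∑ d ∈ Δ, tdf d (sys B P (g x))) ^ 2 := by
    intro x _
    rw [hiden (g x), norm_mul, Complex.norm_natCast, Complex.norm_real, mul_pow, Real.norm_eq_abs, sq_abs]
  have hFg' : (N : ℝ) ^ 2 * ∑ x ∈ Sx, (∑ d ∈ Δ, tdf d (sys B P (g x))) ^ 2 ≤
      Cc * (1 + Real.log ((Q ^ 2 : ℕ) : ℝ)) ^ Cc * Sx.card *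
        (N * ∑ n ∈ Ico 0 (0 + N), ‖((uu S (B.eval (n : ℤ)) : ℝ) : ℂ)‖ ^ 2) * (D : ℝ) ^ (-cc) := by
    rw [mul_sum, ← sum_congr rfl hL]
    exact hFg
  have hlog2 : Real.log ((Q ^ 2 : ℕ) : ℝ) = 2 * Real.log Q := by
    rw [Nat.cast_pow, Real.log_pow]
    norm_num
  have hE0 : (0 : ℝ) ≤ (D : ℝ) ^ (-cc) := by positivity
  have hpw : (1 + Real.log ((Q ^ 2 : ℕ) : ℝ)) ^ Cc ≤ 2 ^ Cc * (1 + Real.log Q) ^ Cc := by
    rw [hlog2, ← Real.mul_rpow (by norm_num) (by linarith)]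
    exact Real.rpow_le_rpow (by linarith) (by linarith) (by linarith)
  have hb1 : (N : ℝ) ^ 2 * ∑ x ∈ Sx, (∑ d ∈ Δ, tdf d (sys B P (g x))) ^ 2 ≤
      (N : ℝ) ^ 2 * (Cc * (2 ^ Cc * (1 + Real.log Q) ^ Cc) * Sx.card * (500 * (1 + Real.log Q)) *
        (D : ℝ) ^ (-cc)) := by
    refine hFg'.trans ?_
    have h1 : (N : ℝ) * ∑ n ∈ Ico 0 (0 + N), ‖((uu S (B.eval (n : ℤ)) : ℝ) : ℂ)‖ ^ 2 ≤
        N * (N * (500 * (1 + Real.log Q))) := by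
      refine mul_le_mul_of_nonneg_left (hsq.trans ?_) hNr.le
      refine mul_le_mul_of_nonneg_left ?_ hNr.le
      linarith
    calc Cc * (1 + Real.log ((Q ^ 2 : ℕ) : ℝ)) ^ Cc * Sx.card *
          (N * ∑ n ∈ Ico 0 (0 + N), ‖((uu S (B.eval (n : ℤ)) : ℝ) : ℂ)‖ ^ 2) * (D : ℝ) ^ (-cc)
        ≤ Cc * (2 ^ Cc * (1 + Real.log Q) ^ Cc) * Sx.card * (N * (N * (500 * (1 + Real.log Q)))) *
          (D : ℝ) ^ (-cc) := by
          gcongr
      _ = _ := by ring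
  have hb2 := le_of_mul_le_mul_left hb1 (by positivity)
  refine hb2.trans ?_
  have h1L : 1 ≤ 1 + Real.log Q := by linarith
  have h3 : (1 + Real.log Q) ^ Cc * (1 + Real.log Q) ≤
      (1 + Real.log Q) ^ (500 * Cc * 2 ^ Cc + Cc + 1) := by
    rw [← Real.rpow_add_one (by linarith)]
    exact Real.rpow_le_rpow_of_exponent_le h1L (by linarith)
  have h4 : 500 * Cc * 2 ^ Cc ≤ 500 * Cc * 2 ^ Cc + Cc + 1 := by linarith
  calc Cc * (2 ^ Cc * (1 + Real.log Q) ^ Cc) * Sx.card * (500 * (1 + Real.log Q)) * (D : ℝ) ^ (-cc)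
      = (500 * Cc * 2 ^ Cc) * ((1 + Real.log Q) ^ Cc * (1 + Real.log Q)) * Sx.card * (D : ℝ) ^ (-cc) := by
        ring
    _ ≤ (500 * Cc * 2 ^ Cc + Cc + 1) * (1 + Real.log Q) ^ (500 * Cc * 2 ^ Cc + Cc + 1) * Sx.card *
        (D : ℝ) ^ (-cc) := by
        gcongr

end Pool.Agent.HUP
end

-- from Lib.HUP.R6
section

/-!
# Project HUP, module R (the modules of H24P for an abstract family), R6: truncation of the singular series
-/

open Finset Polynomial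

namespace Pool.Agent.HUP

open Pool.Agent.Lib.H68T Pool.Agent.Lib.H18Q Pool.Agent.Lib.H59P Pool.Agent.Lib.H24P

/-- **R6** (port of `T5_main`, H24P/T5.lean). Proof. As there with `R5_main`. -/
theorem R6_main (k A E : ℕ) (hA : 1 ≤ A) (Cc cc : ℝ) (hC : FPar Cc cc) : TMb k A E Cc cc := by
  classical
  obtain ⟨E0, hE0d⟩ : ∃ E0 : ℕ, E0 = E := ⟨E, rfl⟩
  rw [← hE0d]
  clear hE0d E
  obtain ⟨C3, c3, hC3, hc3, hc31, h3⟩ := R5_main k A E0 hA Cc cc hC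
  obtain ⟨C1, hC1, h1⟩ := T1_abs k A hA
  obtain ⟨Q1, hQ1, hlog⟩ := G1_rlog ((1 + C1 * 500 ^ (k + 1)) ^ 2 * C3) (2 * (k + 2) + C3) (c3 / 8)
    (by linarith)
  obtain ⟨Q2, hQ2, hsize⟩ := G1_size A
  refine ⟨c3 / 8, by linarith, max 3 (max Q1 Q2), fun Q hQ B hB P hP ι S g hG R hR1 hR hBR => ?_⟩
  have hQ3 : 3 ≤ Q := (le_max_left _ _).trans hQ
  have hQQ1 : Q1 ≤ Q := (le_max_left _ _).trans ((le_max_right _ _).trans hQ)
  have hQQ2 : Q2 ≤ Q := (le_max_right _ _).trans ((le_max_right _ _).trans hQ)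
  have hQr : (1 : ℝ) ≤ Q := by exact_mod_cast (show 1 ≤ Q by omega)
  have hQ0 : (0 : ℝ) < Q := by linarith
  have hL : 0 ≤ Real.log Q := Real.log_nonneg hQr
  obtain ⟨-, -, -, hEE, hEbig⟩ := hsize Q hQQ2 1 1 le_rfl hA (by rw [one_pow]; omega)
  have hEb := hEbig R hR1 hR
  have hone : (1 : ℝ) ≤ (Q : ℝ) ^ (1 / 4 : ℝ) := Real.one_le_rpow hQr (by norm_num)
  have hE1 : 1 ≤ fl Q (1 / 2) / R := by exact_mod_cast hone.trans hEb
  have hEQ : fl Q (1 / 2) / R ≤ Q := by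
    refine (Nat.div_le_self _ _).trans ?_
    exact G1_le (by omega) (by norm_num) (by norm_num)
  set E := fl Q (1 / 2) / R with hE
  set P' := (pr Q).filter (fun l => ¬ l ∣ R) with hP'
  have hsub : P' ⊆ pr Q := Finset.filter_subset _ _
  have hvol : (0 : ℝ) ≤ S.card := Nat.cast_nonneg _
  have hE0 : (0 : ℝ) < E := by exact_mod_cast hE1
  have hmvs : ∀ j, j ≤ Q → ∑ x ∈ S, (∑ d ∈ mv P' j E, tdf d (sys B P (g x))) ^ 2 ≤
      C3 * (1 + Real.log Q) ^ C3 * (S.card : ℝ) * (E : ℝ) ^ (-c3) := fun j hj =>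
    h3 B hB P hP Q (by omega) (mv P' j E) E hE1 (t5_mv hEQ hBR hj) ι S g hG
  have hW : 0 ≤ C3 * (1 + Real.log Q) ^ C3 * (S.card : ℝ) * (E : ℝ) ^ (-c3) := by
    have : 0 ≤ (1 + Real.log Q) ^ C3 := Real.rpow_nonneg (by linarith) _
    have : 0 ≤ (E : ℝ) ^ (-c3) := Real.rpow_nonneg hE0.le _
    positivity
  have hkey := t5_mink S P' (fun q => C1 / q * (500 * Real.log Q) ^ (k + 1))
    (fun q _ => by positivity)
    (fun x => ∑ m ∈ mv P' Q E, tdf m (sys B P (g x)))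
    (fun q x => ∑ m ∈ mv P' (q - 1) E, tdf m (sys B P (g x)))
    (fun x => ∑ d ∈ SF E R, tdf d (sys B P (g x)) - SSf P' (sys B P (g x)))
    ((1 + C1 * 500 ^ (k + 1)) * (1 + Real.log Q) ^ (k + 2)) _ hW ?_ (hmvs Q le_rfl)
    (fun q hq => hmvs (q - 1) ?_) (fun x _ => t5_point (sys B P (g x)) C1 (fun l hl => h1 B hB P hP (g x) l hl)
      (by omega) hE1 hEQ hR1)
  · refine hkey.trans ?_
    have e1 : (E : ℝ) ^ (-c3) ≤ (Q : ℝ) ^ (-(c3 / 4)) := by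
      calc (E : ℝ) ^ (-c3) ≤ ((Q : ℝ) ^ (1 / 4 : ℝ)) ^ (-c3) :=
            Real.rpow_le_rpow_of_nonpos (by linarith) hEb (by linarith)
        _ = (Q : ℝ) ^ (-(c3 / 4)) := by
            rw [← Real.rpow_mul hQ0.le]
            congr 1
            ring
    have e2 := hlog Q hQQ1
    have e3 : ((1 + C1 * 500 ^ (k + 1)) * (1 + Real.log Q) ^ (k + 2)) ^ 2 *
        (C3 * (1 + Real.log Q) ^ C3) =
        (1 + C1 * 500 ^ (k + 1)) ^ 2 * C3 * (1 + Real.log Q) ^ (2 * (k + 2) + C3) := by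
      have hp : 0 < 1 + Real.log Q := by linarith
      have e4 : (1 + Real.log Q) ^ (2 * ((k : ℝ) + 2) + C3) =
          ((1 + Real.log Q) ^ (k + 2)) ^ 2 * (1 + Real.log Q) ^ C3 := by
        rw [Real.rpow_add hp]
        congr 1
        rw [← pow_mul, ← Real.rpow_natCast]
        congr 1
        push_cast
        ring
      rw [e4]
      ring
    calc ((1 + C1 * 500 ^ (k + 1)) * (1 + Real.log Q) ^ (k + 2)) ^ 2 *
          (C3 * (1 + Real.log Q) ^ C3 * (S.card : ℝ) * (E : ℝ) ^ (-c3))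
        = (((1 + C1 * 500 ^ (k + 1)) * (1 + Real.log Q) ^ (k + 2)) ^ 2 *
          (C3 * (1 + Real.log Q) ^ C3)) * (S.card : ℝ) * (E : ℝ) ^ (-c3) := by ring
      _ ≤ (Q : ℝ) ^ (c3 / 8) * (S.card : ℝ) * (Q : ℝ) ^ (-(c3 / 4)) := by
          rw [e3]
          refine mul_le_mul (mul_le_mul_of_nonneg_right e2 hvol) e1 (Real.rpow_nonneg hE0.le _) ?_
          exact mul_nonneg (Real.rpow_nonneg hQ0.le _) hvol
      _ = (S.card : ℝ) * ((Q : ℝ) ^ (c3 / 8) * (Q : ℝ) ^ (-(c3 / 4))) := by ring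
      _ = (S.card : ℝ) * (Q : ℝ) ^ (-(c3 / 8)) := by
          rw [← Real.rpow_add hQ0]
          congr 2
          ring
  · have f1 := t5_harm Q P' hsub
    have f2 : ∑ q ∈ P', C1 / (q : ℝ) * (500 * Real.log Q) ^ (k + 1) =
        (C1 * (500 * Real.log Q) ^ (k + 1)) * ∑ q ∈ P', 1 / (q : ℝ) := by
      rw [Finset.mul_sum]
      refine Finset.sum_congr rfl fun q _ => ?_
      ring
    rw [f2]
    have f3 : (500 * Real.log Q) ^ (k + 1) ≤ 500 ^ (k + 1) * (1 + Real.log Q) ^ (k + 1) := by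
      rw [mul_pow]
      refine mul_le_mul_of_nonneg_left ?_ (by positivity)
      exact pow_le_pow_left₀ hL (by linarith) _
    have f4 : (1 : ℝ) ≤ (1 + Real.log Q) ^ (k + 2) := one_le_pow₀ (by linarith)
    have f5 : 0 ≤ C1 * (500 * Real.log Q) ^ (k + 1) := by positivity
    have f6 : C1 * (500 * Real.log Q) ^ (k + 1) * ∑ q ∈ P', 1 / (q : ℝ) ≤
        C1 * (500 ^ (k + 1) * (1 + Real.log Q) ^ (k + 1)) * (1 + Real.log Q) := by
      refine mul_le_mul (mul_le_mul_of_nonneg_left f3 (by linarith)) f1 ?_ ?_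
      · exact Finset.sum_nonneg fun q _ => by positivity
      · have : 0 ≤ 1 + Real.log Q := by linarith
        positivity
    calc 1 + C1 * (500 * Real.log Q) ^ (k + 1) * ∑ q ∈ P', 1 / (q : ℝ)
        ≤ (1 + Real.log Q) ^ (k + 2) +
          C1 * (500 ^ (k + 1) * (1 + Real.log Q) ^ (k + 1)) * (1 + Real.log Q) := add_le_add f4 f6
      _ = (1 + C1 * 500 ^ (k + 1)) * (1 + Real.log Q) ^ (k + 2) := by ring
  · have h7 := (Finset.mem_Icc.1 (Finset.mem_filter.1 (hsub hq)).1).2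
    omega

end Pool.Agent.HUP
end

-- from Lib.HUP.R1
section

/-!
# Project HUP, module R (the modules of H24P for an abstract family), R1: one cell, weight without correlation
-/

open Finset Polynomial

namespace Pool.Agent.HUP

open Pool.Agent.Lib.H68T Pool.Agent.Lib.H18Q Pool.Agent.Lib.H59P Pool.Agent.Lib.H24P

/-- **R1** (port of `W1_cell`, H24P/W1.lean). Proof. Copy the proof of `W1_cell`: `∏ Fc = ∑_κ ∏ gk`
(`Finset.prod_univ_sum`), `D = fl Q (1/(2k+2))`; for the `κ` with `lcm(r_i κ_i) > D` use the hypothesis `FGood` instead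
of `Fgen` (its constants are given), for the others `W1_small` (unchanged, it is for one `h`), summed over `x ∈ S`
(`S.card` instead of `vol s`). -/
theorem R1_cell (k A E : ℕ) (hA : 1 ≤ A) (Cc cc : ℝ) (hC : FPar Cc cc) : ∃ C c : ℝ, 1 ≤ C ∧ 0 < c ∧ c ≤ 1 ∧
    ∀ P : Fin k → ℤ[X], Pol A P → ∀ Q Qm : ℕ, 1 ≤ Q → Q ≤ Qm → ∀ p : Fin k → Ch, (∀ i, p i ∈ PC Q) →
    ∀ (ι : Type) (S : Finset ι) (g : ι → Fin k → ℕ), FGood E Cc cc Qm P S g →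
    ∀ a H : ℕ, Q ≤ H → Q ^ E ≤ H → ∀ (f : ℕ → ℂ) (Ws : ℝ), 0 ≤ Ws →
    ∑ n ∈ Ico a (a + H), ‖f n‖ ^ 2 ≤ H * Ws →
    (∀ θ : ℝ, ‖∑ n ∈ Ico a (a + H), f n * e ((n : ℝ) * θ)‖ ≤ H / (Q : ℝ) ^ 2) →
    ∑ x ∈ S, ‖∑ n ∈ Ico a (a + H), f n *
        ∏ i, Fc Q (p i) ((P i).eval (n : ℤ) + g x i)‖ ^ 2 ≤
      S.card * H ^ 2 * (C * (1 + Real.log Q) ^ C * (Ws + 1) * (Q : ℝ) ^ (-c)) := by
  classical
  obtain ⟨hCc, hcc0, hcc1⟩ := hC
  set xx : ℝ := 1 / (2 * k + 2) with hx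
  have hx0 : 0 < xx := by positivity
  have hx1 : xx ≤ 1 := by
    rw [hx, div_le_one (by positivity)]
    have : (0 : ℝ) ≤ k := by positivity
    linarith
  refine ⟨4 * Cc + 2, cc * xx, by linarith, mul_pos hcc0 hx0, ?_, ?_⟩
  · calc cc * xx ≤ 1 * 1 := mul_le_mul hcc1 hx1 hx0.le zero_le_one
      _ = 1 := one_mul 1
  intro P hP Q Qm hQ hQm p hp ι S g hF a H hQH hQE f Ws hWs hf2 hfe
  set D : ℕ := fl Q xx with hD
  obtain ⟨hD1, hD2, -⟩ := G1_one hQ hx0.le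
  rw [← hD] at hD1 hD2
  have hQr : (1 : ℝ) ≤ Q := by exact_mod_cast hQ
  have hQp : (0 : ℝ) < Q := by linarith
  have hHr : (0 : ℝ) ≤ H := by positivity
  have hvol : (0 : ℝ) ≤ S.card := Nat.cast_nonneg _
  have hl : 0 ≤ Real.log Q := Real.log_natCast_nonneg Q
  set T0 := Fintype.piFinset (fun i => KS Q (p i).1) with hT0
  set T1 := T0.filter (fun κ => univ.lcm (fun i => (p i).1 * κ i) ≤ D) with hT1
  set T2 := T0.filter (fun κ => ¬ univ.lcm (fun i => (p i).1 * κ i) ≤ D) with hT2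
  have hsplit : ∀ h : Fin k → ℕ, ∑ n ∈ Ico a (a + H), f n * ∏ i, Fc Q (p i) ((P i).eval (n : ℤ) + h i)
      = ∑ n ∈ Ico a (a + H), f n * ∑ κ ∈ T1, ∏ i, gk (p i) (κ i) ((P i).eval (n : ℤ) + h i)
        + ∑ n ∈ Ico a (a + H), f n * ∑ κ ∈ T2, ∏ i, gk (p i) (κ i) ((P i).eval (n : ℤ) + h i) := by
    intro h
    rw [← sum_add_distrib]
    refine sum_congr rfl fun n _ => ?_
    rw [← mul_add, hT1, hT2, sum_filter_add_sum_filter_not]
    congr 1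
    unfold Fc
    rw [hT0, prod_univ_sum]
  have hA1 : ∀ h : Fin k → ℕ,
      ‖∑ n ∈ Ico a (a + H), f n * ∑ κ ∈ T1, ∏ i, gk (p i) (κ i) ((P i).eval (n : ℤ) + h i)‖ ≤ H / Q := by
    intro h
    have h1 := W1_small P Q D hD1 p hp T1 (filter_subset _ _) (fun κ hκ => (mem_filter.mp hκ).2) f
      (Ico a (a + H)) (H / (Q : ℝ) ^ 2) hfe h
    refine h1.trans ?_
    have h2 : (D : ℝ) ^ (2 * k + 1) ≤ Q := by
      calc (D : ℝ) ^ (2 * k + 1) ≤ ((Q : ℝ) ^ xx) ^ (2 * k + 1) :=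
            pow_le_pow_left₀ (by positivity) hD2 _
        _ = (Q : ℝ) ^ (xx * ((2 * k + 1 : ℕ) : ℝ)) := by
            rw [← Real.rpow_natCast, ← Real.rpow_mul hQp.le]
        _ ≤ (Q : ℝ) ^ (1 : ℝ) := by
            refine Real.rpow_le_rpow_of_exponent_le hQr ?_
            rw [hx, div_mul_eq_mul_div, one_mul, div_le_one (by positivity)]
            push_cast
            linarith
        _ = Q := Real.rpow_one _
    calc (D : ℝ) ^ (2 * k + 1) * (H / (Q : ℝ) ^ 2) ≤ Q * (H / (Q : ℝ) ^ 2) :=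
          mul_le_mul_of_nonneg_right h2 (by positivity)
      _ = H / Q := by field_simp
  have hA2 : ∑ x ∈ S,
      ‖∑ n ∈ Ico a (a + H), f n * ∑ κ ∈ T1, ∏ i, gk (p i) (κ i) ((P i).eval (n : ℤ) + g x i)‖ ^ 2
      ≤ (S.card : ℝ) * H ^ 2 * (Q : ℝ) ^ (-(cc * xx)) := by
    have h1 : ∀ x ∈ S,
        ‖∑ n ∈ Ico a (a + H), f n * ∑ κ ∈ T1, ∏ i, gk (p i) (κ i) ((P i).eval (n : ℤ) + g x i)‖ ^ 2
        ≤ (H / Q) ^ 2 := fun x _ => pow_le_pow_left₀ (norm_nonneg _) (hA1 (g x)) 2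
    refine (sum_le_sum h1).trans ?_
    rw [sum_const, nsmul_eq_mul, div_pow, mul_assoc]
    refine mul_le_mul_of_nonneg_left ?_ hvol
    rw [div_eq_mul_inv]
    refine mul_le_mul_of_nonneg_left ?_ (by positivity)
    have h2 : ((Q : ℝ) ^ 2)⁻¹ = (Q : ℝ) ^ (-(2 : ℝ)) := by
      rw [Real.rpow_neg hQp.le, Real.rpow_ofNat]
    rw [h2]
    refine Real.rpow_le_rpow_of_exponent_le hQr ?_
    have h3 : cc * xx ≤ 1 * 1 := mul_le_mul hcc1 hx1 hx0.le zero_le_one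
    linarith
  have hB := hF Q hQ hQm p hp T2 (filter_subset _ _) D hD1
    (fun κ hκ => not_le.mp (mem_filter.mp hκ).2) a H hQE f
  have hneg : (D : ℝ) ^ (-cc) ≤ 2 * (Q : ℝ) ^ (-(cc * xx)) := by
    refine (G1_neg hQ hx0.le hcc0.le).trans ?_
    refine mul_le_mul_of_nonneg_right ?_ (by positivity)
    calc (2 : ℝ) ^ cc ≤ 2 ^ (1 : ℝ) := Real.rpow_le_rpow_of_exponent_le (by norm_num) hcc1
      _ = 2 := Real.rpow_one 2
  set EE : ℝ := (Q : ℝ) ^ (-(cc * xx)) with hE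
  have hE0 : 0 < EE := by positivity
  set Lg : ℝ := (1 + Real.log Q) ^ (4 * Cc + 2) with hLg
  have hLg1 : 1 ≤ Lg := Real.one_le_rpow (by linarith) (by linarith)
  have hLg2 : (1 + Real.log Q) ^ Cc ≤ Lg :=
    Real.rpow_le_rpow_of_exponent_le (by linarith) (by linarith)
  have hLc0 : 0 ≤ (1 + Real.log Q) ^ Cc := by positivity
  have hB2 : ∑ x ∈ S,
      ‖∑ n ∈ Ico a (a + H), f n * ∑ κ ∈ T2, ∏ i, gk (p i) (κ i) ((P i).eval (n : ℤ) + g x i)‖ ^ 2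
      ≤ (S.card : ℝ) * H ^ 2 * (2 * Cc * Lg * Ws * EE) := by
    refine hB.trans ?_
    calc Cc * (1 + Real.log Q) ^ Cc * (S.card : ℝ) * (H * ∑ n ∈ Ico a (a + H), ‖f n‖ ^ 2) * (D : ℝ) ^ (-cc)
        ≤ Cc * Lg * (S.card : ℝ) * (H * (H * Ws)) * (2 * EE) := by
          have h0 : 0 ≤ ∑ n ∈ Ico a (a + H), ‖f n‖ ^ 2 := sum_nonneg fun _ _ => by positivity
          have h1 : 0 ≤ (D : ℝ) ^ (-cc) := by positivity
          gcongr
      _ = (S.card : ℝ) * H ^ 2 * (2 * Cc * Lg * Ws * EE) := by ring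
  have h4 : ∀ x ∈ S, ‖∑ n ∈ Ico a (a + H), f n *
        ∏ i, Fc Q (p i) ((P i).eval (n : ℤ) + g x i)‖ ^ 2
      ≤ 2 * ‖∑ n ∈ Ico a (a + H), f n * ∑ κ ∈ T1, ∏ i, gk (p i) (κ i) ((P i).eval (n : ℤ) + g x i)‖ ^ 2
        + 2 * ‖∑ n ∈ Ico a (a + H), f n * ∑ κ ∈ T2, ∏ i, gk (p i) (κ i) ((P i).eval (n : ℤ) + g x i)‖ ^ 2 := by
    intro x _
    rw [hsplit (g x)]
    generalize (∑ n ∈ Ico a (a + H), f n * ∑ κ ∈ T1, ∏ i, gk (p i) (κ i) ((P i).eval (n : ℤ) + g x i)) = z1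
    generalize (∑ n ∈ Ico a (a + H), f n * ∑ κ ∈ T2, ∏ i, gk (p i) (κ i) ((P i).eval (n : ℤ) + g x i)) = z2
    have h5 := norm_add_le z1 z2
    have h6 : ‖z1 + z2‖ ^ 2 ≤ (‖z1‖ + ‖z2‖) ^ 2 := pow_le_pow_left₀ (norm_nonneg _) h5 2
    nlinarith [sq_nonneg (‖z1‖ - ‖z2‖)]
  refine (sum_le_sum h4).trans ?_
  rw [sum_add_distrib, ← mul_sum, ← mul_sum]
  have h7 : 2 * ((S.card : ℝ) * (H : ℝ) ^ 2 * EE) + 2 * ((S.card : ℝ) * H ^ 2 * (2 * Cc * Lg * Ws * EE))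
      ≤ (S.card : ℝ) * H ^ 2 * ((4 * Cc + 2) * Lg * (Ws + 1) * EE) := by
    have h8 : 2 * ((S.card : ℝ) * (H : ℝ) ^ 2 * EE) + 2 * ((S.card : ℝ) * H ^ 2 * (2 * Cc * Lg * Ws * EE))
        = (S.card : ℝ) * H ^ 2 * ((2 + 4 * Cc * Lg * Ws) * EE) := by ring
    rw [h8]
    refine mul_le_mul_of_nonneg_left ?_ (by positivity)
    refine mul_le_mul_of_nonneg_right ?_ hE0.le
    nlinarith [mul_nonneg (by linarith : 0 ≤ Lg) hWs, mul_nonneg (by linarith : 0 ≤ Cc) (by linarith : 0 ≤ Lg)]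
  linarith

end Pool.Agent.HUP
end

-- from Lib.HUP.R2
section

/-!
# Project HUP, module R (the modules of H24P for an abstract family), R2: the linear coordinate
-/

open Finset Polynomial

namespace Pool.Agent.HUP

open Pool.Agent.Lib.H68T Pool.Agent.Lib.H18Q Pool.Agent.Lib.H59P Pool.Agent.Lib.H24P

/-- **R2a** (port of `W3_cell`, H24P/W3.lean). Proof. As `W3_cell` with `R1_cell` (`Qm = Q^2`) instead of `W1_cell`. `K` must be so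
large (in terms of `E`) that `Q ^ E ≤ H` follows from `X1 ≤ H Q^8`, `X ≤ X1 Q`, `Q^K ≤ X`. -/
theorem R2_cell (k A E : ℕ) (hA : 1 ≤ A) (Cc cc : ℝ) (hC : FPar Cc cc) : ∃ c K : ℝ, 0 < c ∧ 1 ≤ K ∧ ∀ C : ℝ, ∃ Q0 : ℕ,
    ∀ (Q X X1 Y : ℕ) (B : ℤ[X]) (C0 : ℤ → Ch → ℂ) (mb : Ch → ℝ), Q0 ≤ Q → Rg K C Q X → 0 < X1 →
    X1 ≤ X → X ≤ X1 * Q → GeoB A X X1 Y B → Cf (Q ^ 100) Y C0 mb →
    ∀ P : Fin k → ℤ[X], Pol A P → ∀ c' : Fin k → Ch → ℂ, (∀ i, ∑ p ∈ PC Q, ‖c' i p‖ ≤ 3) →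
    ∀ (ι : Type) (S : Finset ι) (g : ι → Fin k → ℕ), FGood E Cc cc (Q ^ 2) P S g →
    ∀ a H : ℕ, X1 ≤ a → a + H ≤ 2 * X1 → X1 ≤ H * Q ^ 8 →
    ∑ x ∈ S, ‖∑ n ∈ Ico a (a + H), ((fB Q Y B n : ℝ) : ℂ) *
      ∏ i, SG Q (c' i) ((P i).eval (n : ℤ) + g x i)‖ ^ 2 ≤ S.card * H ^ 2 * (Q : ℝ) ^ (-c) := by
  classical
  obtain ⟨C1, c1, hC1, hc1, hc1', hW1⟩ := R1_cell k A E hA Cc cc hC
  obtain ⟨K2, hK2, hW2⟩ := W2_fourier
  obtain ⟨K3, hK3, hW3⟩ := W2_ms A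
  have hE0 : (0 : ℝ) ≤ E := Nat.cast_nonneg E
  refine ⟨c1 / 2, max (100 * K2 + 2) (max K3 (10 + E)), by linarith,
    (by linarith : (1 : ℝ) ≤ 10 + E).trans ((le_max_right _ _).trans (le_max_right _ _)), fun C => ?_⟩
  obtain ⟨Qa, hQa⟩ := hW3 C
  obtain ⟨Qb, hQb⟩ := G2_regB A K2 C hK2
  obtain ⟨Qc, hQc1, hQc⟩ := G1_log C 20 1 (c1 / 8) (by linarith)
  obtain ⟨Qd, hQd1, hQd⟩ := G1_rlog (2 * 9 ^ k * C1) C1 (c1 / 8) (by linarith)
  refine ⟨max (max Qa Qb) (max (max Qc Qd) (max A 1)), ?_⟩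
  intro Q X X1 Y B C0 mb hQ hRg hX1 hX1X hXX1 hB hCf P hP c' hc' ι S g hF a H haX haH hH
  have hQa' : Qa ≤ Q := (le_max_left _ _).trans ((le_max_left _ _).trans hQ)
  have hQb' : Qb ≤ Q := (le_max_right _ _).trans ((le_max_left _ _).trans hQ)
  have hQc' : Qc ≤ Q := (le_max_left _ _).trans ((le_max_left _ _).trans ((le_max_right _ _).trans hQ))
  have hQd' : Qd ≤ Q := (le_max_right _ _).trans ((le_max_left _ _).trans ((le_max_right _ _).trans hQ))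
  have hQA : A ≤ Q := (le_max_left _ _).trans ((le_max_right _ _).trans ((le_max_right _ _).trans hQ))
  have hQ1 : 1 ≤ Q := (le_max_right _ _).trans ((le_max_right _ _).trans ((le_max_right _ _).trans hQ))
  have hQr : (1 : ℝ) ≤ Q := by exact_mod_cast hQ1
  have hQ0 : (0 : ℝ) < Q := by linarith
  have hRa : Rg (100 * K2 + 2) C Q X := w3_Rg hRg (le_max_left _ _)
  have hRb : Rg K3 C Q X := w3_Rg hRg ((le_max_left _ _).trans (le_max_right _ _))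
  have hRc : Rg (10 + E) C Q X := w3_Rg hRg ((le_max_right _ _).trans (le_max_right _ _))
  have hHpos : 0 < H := by
    rcases Nat.eq_zero_or_pos H with h0 | h0
    · rw [h0, zero_mul] at hH
      omega
    · exact h0
  have hHr : (0 : ℝ) < H := by exact_mod_cast hHpos
  have hXH : X ≤ H * Q ^ 9 := by
    calc X ≤ X1 * Q := hXX1
      _ ≤ (H * Q ^ 8) * Q := Nat.mul_le_mul_right Q hH
      _ = H * Q ^ 9 := by ring
  have hXpos : 0 < X := lt_of_lt_of_le hX1 hX1X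
  have hlogH : Real.log X ≤ Real.log H + 9 * Real.log Q := by
    calc Real.log X ≤ Real.log ((H : ℝ) * (Q : ℝ) ^ 9) :=
          Real.log_le_log (by exact_mod_cast hXpos) (by exact_mod_cast hXH)
      _ = Real.log H + 9 * Real.log Q := by
          rw [Real.log_mul hHr.ne' (by positivity), Real.log_pow]
          norm_num
  have hlogQ' : 0 ≤ Real.log Q := Real.log_natCast_nonneg Q
  have hELQ : 0 ≤ (E : ℝ) * Real.log Q := mul_nonneg hE0 hlogQ'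
  have hRc1 : 10 * Real.log Q + E * Real.log Q ≤ Real.log X := by
    have h2 := hRc.1
    rwa [add_mul] at h2
  have hQH : Q ≤ H := by
    have h3 : Real.log Q ≤ Real.log H := by linarith
    have h4 := (Real.log_le_log_iff hQ0 hHr).1 h3
    exact_mod_cast h4
  have hQEH : Q ^ E ≤ H := by
    have h3 : Real.log ((Q : ℝ) ^ E) ≤ Real.log H := by
      rw [Real.log_pow]
      linarith
    have h4 := (Real.log_le_log_iff (pow_pos hQ0 E) hHr).1 h3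
    exact_mod_cast h4
  -- the Fourier bound
  have hreg := hQb Q X X1 Y B hQb' hRa hX1 hX1X hXX1 hB
  have hYH : (Y : ℝ) ≤ A * (H * (Q : ℝ) ^ 9) := by
    have h1 : Y ≤ A * (H * Q ^ 9) := hB.Yhi.trans (Nat.mul_le_mul_left A hXH)
    exact_mod_cast h1
  have hfour : ∀ θ : ℝ, ‖∑ n ∈ Ico a (a + H), ((fB Q Y B n : ℝ) : ℂ) * e ((n : ℝ) * θ)‖ ≤
      H / (Q : ℝ) ^ 2 := by
    intro θ
    refine (hW2 A Q X X1 Y B hQ1 hreg.1 hB a H haX haH θ).trans ?_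
    have h1 : (Q : ℝ) ^ (-(25) : ℝ) = ((Q : ℝ) ^ 25)⁻¹ := by
      have h25 : (25 : ℝ) = ((25 : ℕ) : ℝ) := by norm_num
      rw [Real.rpow_neg hQ0.le, h25, Real.rpow_natCast]
    rw [h1, ← div_eq_mul_inv, div_le_div_iff₀ (by positivity) (by positivity)]
    have h2 : (A : ℝ) ≤ (Q : ℝ) ^ 14 := by
      have h3 : (A : ℝ) ≤ Q := by exact_mod_cast hQA
      have h4 : (Q : ℝ) ^ 1 ≤ (Q : ℝ) ^ 14 := pow_le_pow_right₀ hQr (by norm_num)
      rw [pow_one] at h4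
      linarith
    calc (Y : ℝ) * (Q : ℝ) ^ 2 ≤ (A * (H * (Q : ℝ) ^ 9)) * (Q : ℝ) ^ 2 :=
          mul_le_mul_of_nonneg_right hYH (by positivity)
      _ = A * (H * (Q : ℝ) ^ 11) := by ring
      _ ≤ (Q : ℝ) ^ 14 * (H * (Q : ℝ) ^ 11) := mul_le_mul_of_nonneg_right h2 (by positivity)
      _ = H * (Q : ℝ) ^ 25 := by ring
  -- the mean square
  have hms := (hQa Q X X1 Y B C0 mb hQa' hRb hX1 hX1X hXX1 hB hCf a H haX haH
    (hH.trans (Nat.mul_le_mul_left H (Nat.pow_le_pow_right hQ1 (by norm_num))))).1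
  set Ws : ℝ := (Real.log X) ^ 20 with hWs
  have hWs0 : 0 ≤ Ws := pow_nonneg (Real.log_natCast_nonneg X) _
  set W : ℝ := S.card * H ^ 2 * (C1 * (1 + Real.log Q) ^ C1 * (Ws + 1) * (Q : ℝ) ^ (-c1)) with hW
  have hvol : (0 : ℝ) ≤ S.card := Nat.cast_nonneg _
  have hlogQ : 0 ≤ Real.log Q := Real.log_natCast_nonneg Q
  have hW0 : 0 ≤ W := by
    have h1 : 0 ≤ (1 + Real.log Q) ^ C1 := Real.rpow_nonneg (by linarith) _
    have h2 : 0 ≤ (Q : ℝ) ^ (-c1) := Real.rpow_nonneg hQ0.le _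
    have h3 : 0 ≤ C1 := by linarith
    positivity
  -- expansion
  have hexp : ∀ h : Fin k → ℕ, ∑ n ∈ Ico a (a + H), ((fB Q Y B n : ℝ) : ℂ) *
      ∏ i, SG Q (c' i) ((P i).eval (n : ℤ) + h i) =
      ∑ p ∈ Fintype.piFinset fun _ : Fin k => PC Q, (∏ i, c' i (p i)) *
        ∑ n ∈ Ico a (a + H), ((fB Q Y B n : ℝ) : ℂ) *
          ∏ i, Fc Q (p i) ((P i).eval (n : ℤ) + h i) := by
    intro h
    have h1 : ∀ n ∈ Ico a (a + H), ((fB Q Y B n : ℝ) : ℂ) *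
        ∏ i, SG Q (c' i) ((P i).eval (n : ℤ) + h i) =
        ∑ p ∈ Fintype.piFinset fun _ : Fin k => PC Q, (∏ i, c' i (p i)) *
          (((fB Q Y B n : ℝ) : ℂ) * ∏ i, Fc Q (p i) ((P i).eval (n : ℤ) + h i)) := by
      intro n _
      rw [W3_SG, Finset.mul_sum]
      refine Finset.sum_congr rfl fun p _ => ?_
      ring
    rw [Finset.sum_congr rfl h1, Finset.sum_comm]
    refine Finset.sum_congr rfl fun p _ => ?_
    rw [Finset.mul_sum]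
  have hγ : ∑ p ∈ Fintype.piFinset fun _ : Fin k => PC Q, ‖∏ i, c' i (p i)‖ ≤ (3 : ℝ) ^ k := by
    have h1 : ∑ p ∈ Fintype.piFinset fun _ : Fin k => PC Q, ‖∏ i, c' i (p i)‖ =
        ∏ i, ∑ p ∈ PC Q, ‖c' i p‖ := by
      rw [Finset.prod_univ_sum]
      exact Finset.sum_congr rfl fun p _ => norm_prod _ _
    rw [h1]
    have h2 : ∏ i : Fin k, ∑ p ∈ PC Q, ‖c' i p‖ ≤ ∏ _i : Fin k, (3 : ℝ) :=
      Finset.prod_le_prod (fun i _ => Finset.sum_nonneg fun p _ => norm_nonneg _) (fun i _ => hc' i)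
    rwa [prod_const, card_univ, Fintype.card_fin] at h2
  have hmain := Z2a S (Fintype.piFinset fun _ : Fin k => PC Q) (fun p => ∏ i, c' i (p i))
    (fun p x => ∑ n ∈ Ico a (a + H), ((fB Q Y B n : ℝ) : ℂ) *
      ∏ i, Fc Q (p i) ((P i).eval (n : ℤ) + g x i)) ((3 : ℝ) ^ k) W hW0 hγ (fun p hp =>
      hW1 P hP Q (Q ^ 2) hQ1 (Nat.le_self_pow (by norm_num) Q) p (fun i => Fintype.mem_piFinset.1 hp i) ι S g hF a H
        hQH hQEH (fun n => ((fB Q Y B n : ℝ) : ℂ)) Ws hWs0 hms hfour)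
  refine (le_of_eq (Finset.sum_congr rfl fun x _ => by rw [hexp (g x)])).trans (hmain.trans ?_)
  -- numerics
  have e1 : Ws + 1 ≤ 2 * (Q : ℝ) ^ (c1 / 8) := by
    have h1 := hQc Q X hQc' hRg.2
    rw [one_mul] at h1
    have h2 : 1 ≤ (Q : ℝ) ^ (c1 / 8) := Real.one_le_rpow hQr (by linarith)
    linarith
  have e2 := hQd Q hQd'
  have h9 : ((3 : ℝ) ^ k) ^ 2 = 9 ^ k := by
    rw [← pow_mul, mul_comm k 2, pow_mul]
    norm_num
  have hL0 : 0 ≤ (1 + Real.log Q) ^ C1 := Real.rpow_nonneg (by linarith) _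
  have hn1 : 0 ≤ (Q : ℝ) ^ (-c1) := Real.rpow_nonneg hQ0.le _
  have hC10 : 0 ≤ C1 := by linarith
  calc ((3 : ℝ) ^ k) ^ 2 * W = S.card * H ^ 2 *
        ((9 ^ k * C1 * (1 + Real.log Q) ^ C1) * (Ws + 1) * (Q : ℝ) ^ (-c1)) := by
        rw [h9, hW]
        ring
    _ ≤ S.card * H ^ 2 * ((9 ^ k * C1 * (1 + Real.log Q) ^ C1) * (2 * (Q : ℝ) ^ (c1 / 8)) *
        (Q : ℝ) ^ (-c1)) := by
        refine mul_le_mul_of_nonneg_left ?_ (by positivity)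
        refine mul_le_mul_of_nonneg_right ?_ hn1
        exact mul_le_mul_of_nonneg_left e1 (by positivity)
    _ = S.card * H ^ 2 * ((2 * 9 ^ k * C1 * (1 + Real.log Q) ^ C1) * (Q : ℝ) ^ (c1 / 8) *
        (Q : ℝ) ^ (-c1)) := by ring
    _ ≤ S.card * H ^ 2 * ((Q : ℝ) ^ (c1 / 8) * (Q : ℝ) ^ (c1 / 8) * (Q : ℝ) ^ (-c1)) := by
        refine mul_le_mul_of_nonneg_left ?_ (by positivity)
        refine mul_le_mul_of_nonneg_right ?_ hn1
        exact mul_le_mul_of_nonneg_right e2 (Real.rpow_nonneg hQ0.le _)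
    _ = S.card * H ^ 2 * (Q : ℝ) ^ (c1 / 8 + c1 / 8 + -c1) := by
        rw [Real.rpow_add hQ0, Real.rpow_add hQ0]
    _ ≤ S.card * H ^ 2 * (Q : ℝ) ^ (-(c1 / 2)) := by
        refine mul_le_mul_of_nonneg_left ?_ (by positivity)
        exact Real.rpow_le_rpow_of_exponent_le hQr (by linarith)

/-- **R2** (port of `W3_main`). Proof. The difference is `Rzb` with the weight `fB`. Cut `[X1, 2 X1)` into the `Q^8` cells of
length `H = X1/Q^8` (`Q^800 ∣ X1`); on a cell the frozen coefficients are constant (`bs H n = X1 + j H`, `E1_bs` with `m = X1`), of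
total size `≤ 3` (`Cf.le`, `Cf.sum`; `P_i(bs n) + h0_i` is in `[Y_i, 3 Y_i)`: `G2_P`, `G2_val`, `h0 ∈ cub M M`): `R2_cell`, and
`‖∑_j‖² ≤ N ∑_j ‖·‖²` (Cauchy-Schwarz, `inner_mul_le_norm_mul_norm` or as in `E1_cells`). -/
theorem R2_main {k : ℕ} (P : Fin k → ℤ[X]) (A E : ℕ) (hA : 1 ≤ A) (hP : Pol A P) (Cc cc : ℝ) (hC : FPar Cc cc) :
    ∃ c K : ℝ, 0 < c ∧ 1 ≤ K ∧ ∃ L : ℕ, 2 ≤ L ∧ ∀ C : ℝ, ∃ Q0 : ℕ, ∀ (Q X X1 Y : ℕ) (M : Fin k → ℕ) (B : ℤ[X])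
    (C0 : ℤ → Ch → ℂ) (mb : Ch → ℝ), Q0 ≤ Q → Rg K C Q X → Geo L Q X X1 P M → GeoB A X X1 Y B →
    Cf (Q ^ 100) Y C0 mb → ∀ (C' : Fin k → ℤ → Ch → ℂ) (mc : Fin k → Ch → ℝ),
    (∀ i, Cf Q (Ysc (M i)) (C' i) (mc i)) →
    ∀ (ι : Type) (S : Finset ι) (g : ι → Fin k → ℕ) (h0 : Fin k → ℕ), Cl E Cc cc Q P M S g h0 →
    ∑ x ∈ S, ‖Rzb Q X1 P C' (fun n => ((lp (B.eval (n : ℤ)) : ℝ) : ℂ)) h0 (g x) -
      Rzb Q X1 P C' (fun n => ((Lk (Q ^ 100) (Y / (Q ^ 100) ^ 2) (B.eval (n : ℤ)) : ℝ) : ℂ)) h0 (g x)‖ ^ 2 ≤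
      (X1 : ℝ) ^ 2 * S.card * (Q : ℝ) ^ (-c) := by
  classical
  obtain ⟨c, K, hc, hK, hcell⟩ := R2_cell k A E hA Cc cc hC
  obtain ⟨L, hL2, hL⟩ := G2_P P hP.deg
  refine ⟨c, K, hc, hK, L, hL2, fun C => ?_⟩
  obtain ⟨Q0, hQ0⟩ := hcell C
  refine ⟨max Q0 1, ?_⟩
  intro Q X X1 Y M B C0 mb hQ hRg hG hB hCf C' mc hCc ι S g h0 hCl
  have hQ0' : Q0 ≤ Q := (le_max_left _ _).trans hQ
  have hQ1 : 1 ≤ Q := (le_max_right _ _).trans hQ
  have hQ8 : 0 < Q ^ 8 := Nat.pow_pos hQ1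
  set H : ℕ := X1 / Q ^ 8 with hH
  have hdX : Q ^ 8 ∣ X1 := (pow_dvd_pow Q (by norm_num)).trans hG.dvd
  have hXH : X1 = H * Q ^ 8 := (Nat.div_mul_cancel hdX).symm
  have hHpos : 0 < H := by
    rcases Nat.eq_zero_or_pos H with h0 | h0
    · rw [h0, zero_mul] at hXH
      have := hG.pos
      omega
    · exact h0
  -- the difference
  set F : ι → ℕ → ℂ := fun x n => ((fB Q Y B n : ℝ) : ℂ) *
    ∏ i, SG Q (C' i ((P i).eval ((bs H n : ℕ) : ℤ) + (h0 i : ℤ))) ((P i).eval (n : ℤ) + g x i) with hF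
  have hdiff : ∀ x : ι,
      Rzb Q X1 P C' (fun n => ((lp (B.eval (n : ℤ)) : ℝ) : ℂ)) h0 (g x) -
      Rzb Q X1 P C' (fun n => ((Lk (Q ^ 100) (Y / (Q ^ 100) ^ 2) (B.eval (n : ℤ)) : ℝ) : ℂ)) h0 (g x) =
      ∑ n ∈ Ico X1 (2 * X1), F x n := by
    intro x
    unfold Rzb
    rw [← Finset.sum_sub_distrib]
    refine Finset.sum_congr rfl fun n _ => ?_
    rw [hF]
    simp only
    rw [← sub_mul]
    congr 1
    unfold fB
    push_cast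
    ring
  rw [Finset.sum_congr rfl fun x _ => by rw [hdiff x]]
  -- one cell
  have hone : ∀ j < Q ^ 8, ∑ x ∈ S, ‖∑ n ∈ Ico (X1 + j * H) (X1 + j * H + H), F x n‖ ^ 2 ≤
      S.card * H ^ 2 * (Q : ℝ) ^ (-c) := by
    intro j hj
    have hjH : (j + 1) * H ≤ X1 := by
      rw [hXH, mul_comm H]
      exact Nat.mul_le_mul_right H hj
    have hjH' : j * H + H ≤ X1 := by
      have : (j + 1) * H = j * H + H := by ring
      omega
    have haI : X1 + j * H ∈ Ico X1 (2 * X1) := by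
      rw [mem_Ico]
      omega
    have hbsn : ∀ n ∈ Ico (X1 + j * H) (X1 + j * H + H), bs H n = X1 + j * H := by
      intro n hn
      have h1 := mem_Ico.1 hn
      have h2 : X1 + j * H = (Q ^ 8 + j) * H := by
        conv_lhs => rw [hXH]
        ring
      rw [h2] at h1 ⊢
      exact z2_bs hHpos _ _ h1.1 h1.2
    set c' : Fin k → Ch → ℂ := fun i =>
      C' i ((P i).eval ((X1 + j * H : ℕ) : ℤ) + (h0 i : ℤ)) with hc'
    have hcell' := hQ0 Q X X1 Y B C0 mb hQ0' hRg hG.pos hG.le hG.ge hB hCf P hP c' ?_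
      ι S g hCl.good (X1 + j * H) H (by omega) (by omega) hXH.le
    · refine (le_of_eq ?_).trans hcell'
      refine Finset.sum_congr rfl fun x _ => ?_
      congr 2
      refine Finset.sum_congr rfl fun n hn => ?_
      rw [hF]
      simp only
      congr 1
      refine Finset.prod_congr rfl fun i _ => ?_
      rw [hc']
      simp only
      rw [hbsn n hn]
    · intro i
      have hx : h0 i ∈ Ico (M i) (2 * M i) := by
        have h1 := hCl.memb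
        unfold cub at h1
        have h2 := mem_Ico.1 ((Fintype.mem_piFinset.1 h1) i)
        rw [mem_Ico]
        omega
      have hv := (hL Q X X1 M hG i (X1 + j * H) haI).1
      have hd8 : 8 ∣ M i := (Dvd.intro _ rfl).trans (hG.dvdM i)
      have h5 := G2_val (M i) (h0 i) _ hd8 hv hx
      refine (Finset.sum_le_sum fun p hp => ?_).trans (hCc i).sum
      refine (hCc i).le _ h5.1 ?_ p hp
      have h6 : (0 : ℤ) ≤ Ysc (M i) := Nat.cast_nonneg _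
      linarith [h5.2.1]
  -- all cells
  have h2X : 2 * X1 = X1 + Q ^ 8 * H := by
    have : Q ^ 8 * H = X1 := by rw [mul_comm]; exact hXH.symm
    omega
  calc ∑ x ∈ S, ‖∑ n ∈ Ico X1 (2 * X1), F x n‖ ^ 2
      ≤ ∑ x ∈ S, ((Q ^ 8 : ℕ) : ℝ) * ∑ j ∈ range (Q ^ 8),
          ‖∑ n ∈ Ico (X1 + j * H) (X1 + j * H + H), F x n‖ ^ 2 := by
        refine Finset.sum_le_sum (fun x _ => ?_)
        rw [h2X, z2_cells]
        exact z2_cs _ _
    _ = ((Q ^ 8 : ℕ) : ℝ) * ∑ j ∈ range (Q ^ 8), ∑ x ∈ S,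
          ‖∑ n ∈ Ico (X1 + j * H) (X1 + j * H + H), F x n‖ ^ 2 := by
        rw [← Finset.mul_sum, Finset.sum_comm]
    _ ≤ ((Q ^ 8 : ℕ) : ℝ) * ∑ j ∈ range (Q ^ 8), S.card * H ^ 2 * (Q : ℝ) ^ (-c) := by
        refine mul_le_mul_of_nonneg_left ?_ (by positivity)
        exact Finset.sum_le_sum (fun j hj => hone j (mem_range.mp hj))
    _ = (X1 : ℝ) ^ 2 * S.card * (Q : ℝ) ^ (-c) := by
        rw [Finset.sum_const, card_range, nsmul_eq_mul]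
        have h7 : (X1 : ℝ) = H * ((Q ^ 8 : ℕ) : ℝ) := by
          rw [← Nat.cast_mul]
          exact congrArg (Nat.cast : ℕ → ℝ) hXH
        rw [h7]
        ring

end Pool.Agent.HUP
end
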