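import Pool.Agent.Lib.H59M.M1.M026
import Pool.Agent.Lib.H59M.M1.M060
import Pool.Agent.Lib.H59M.M1.M061
import Pool.Agent.Lib.H59M.M1.M067
import Pool.Agent.Lib.H59M.M1.M073
import Pool.Agent.Lib.H59M.M1.M078
import Pool.Agent.Lib.H59M.M1.M079

/-! Merged copies (to shorten the build) of Lib.H24P.K2, Lib.HUK.KBD, Lib.HUK.KB4A, Lib.HUK.KB4, Lib.HUK.KB6, Lib.HUP.R10, Lib.HUP.R8, Lib.HUP.R3, Lib.HUP.R4. -/

-- from Lib.H24P.K2
section

/-!
# Project H24P, chunk K2 (S/M): geometry and counting for the core theorem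
-/

open Finset Polynomial

namespace Pool.Agent.Lib.H24P

open Pool.Agent.Lib.H68T Pool.Agent.Lib.H18Q Pool.Agent.Lib.H59P

theorem k2_lp0 (m : ℤ) : 0 ≤ lp m := by
  unfold H68T.lp
  split_ifs with h
  · have h1 : 0 < m.toNat := h.pos
    have h2 : 0 < m := by omega
    exact Real.log_nonneg (by exact_mod_cast (by omega : 1 ≤ m))
  · exact le_rfl

theorem k2_lp_le (m : ℤ) (N : ℕ) (hN : 1 ≤ N) (h : m ≤ N) : lp m ≤ Real.log N := by
  unfold H68T.lp
  split_ifs with hp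
  · have h1 : 0 < m.toNat := hp.pos
    have h2 : 0 < m := by omega
    exact Real.log_le_log (by exact_mod_cast h2) (by exact_mod_cast h)
  · exact Real.log_nonneg (by exact_mod_cast hN)

/-- From the weighted count to the count. Proof. A term of `RPh` vanishes unless all the values are primes (`lp`), and these
`n ∈ [X1, 2 X1) ⊆ [1, Z]` are counted by `pcount`; the term is at most `∏ log(value)`, the values are at most
`3 Y ≤ 3 A Z` resp. `3 Y_i ≤ 3 M_i ≤ Z^(A+2)` (`G2_val`; `M_i ≤ X1^d Q^(1/8) ≤ Z^(A+1)`, `d ≤ A`, `3 A ≤ Z`, `Q ≤ Z`); `lp ≥ 0`. -/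
theorem K2_count {k : ℕ} (P : Fin k → ℤ[X]) (A L Q Z X1 Y : ℕ) (hQ : 1 ≤ Q) (hQZ : Q ≤ Z)
    (hAZ : 3 * A ≤ Z) (hZ : 3 ≤ Z) (M : Fin k → ℕ) (B : ℤ[X]) (hPA : Pol A P) (hG : Geo L Q Z X1 P M)
    (hGB : GeoB A Z X1 Y B) (hX : 2 * X1 ≤ Z)
    (hP8 : ∀ i, ∀ n ∈ Ico X1 (2 * X1), 8 * |(P i).eval (n : ℤ)| ≤ M i) (h : Fin k → ℕ)
    (hh : h ∈ cub M M) :
    RPh X1 B P h ≤ pcount Z B P h * ((A + 2) * Real.log Z) ^ (k + 1) := by
  have hZ1 : 1 ≤ Z := by omega
  have hl0 : 0 ≤ Real.log Z := Real.log_nonneg (by exact_mod_cast hZ1)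
  set W : ℝ := (A + 2) * Real.log Z with hW
  have hW0 : 0 ≤ W := by positivity
  have hWl : ∀ j : ℕ, j ≤ A + 2 → Real.log ((Z ^ j : ℕ) : ℝ) ≤ W := by
    intro j hj
    rw [Nat.cast_pow, Real.log_pow]
    exact mul_le_mul_of_nonneg_right (by exact_mod_cast hj) hl0
  -- the linear coordinate
  have hB : ∀ n ∈ Ico X1 (2 * X1), lp (B.eval (n : ℤ)) ≤ W := by
    intro n hn
    refine (k2_lp_le _ (Z ^ 2) (Nat.one_le_pow _ _ hZ1) ?_).trans (hWl 2 (by omega))
    have h1 := hGB.hi n hn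
    have h2 := hGB.Yhi
    have h3 : 3 * Y ≤ Z ^ 2 := by
      calc 3 * Y ≤ 3 * (A * Z) := Nat.mul_le_mul_left 3 h2
        _ = (3 * A) * Z := by ring
        _ ≤ Z * Z := Nat.mul_le_mul_right Z hAZ
        _ = Z ^ 2 := by ring
    have h4 : (3 * Y : ℤ) ≤ ((Z ^ 2 : ℕ) : ℤ) := by exact_mod_cast h3
    linarith
  have hM : ∀ i, 3 * M i ≤ Z ^ (A + 2) := by
    intro i
    have h1 := hG.hi i
    have hXZ : X1 ≤ Z := by omega
    have hZr : (1 : ℝ) ≤ Z := by exact_mod_cast hZ1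
    have h2 : (X1 : ℝ) ^ (P i).natDegree ≤ (Z : ℝ) ^ A :=
      (pow_le_pow_left₀ (by positivity) (by exact_mod_cast hXZ) _).trans
        (pow_le_pow_right₀ hZr (hPA.degA i))
    have h3 : (Q : ℝ) ^ (1 / 8 : ℝ) ≤ Z := by
      calc (Q : ℝ) ^ (1 / 8 : ℝ) ≤ (Q : ℝ) ^ (1 : ℝ) :=
            Real.rpow_le_rpow_of_exponent_le (by exact_mod_cast hQ) (by norm_num)
        _ = Q := Real.rpow_one _
        _ ≤ Z := by exact_mod_cast hQZ
    have h4 : (M i : ℝ) ≤ (Z : ℝ) ^ A * Z :=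
      h1.trans (mul_le_mul h2 h3 (by positivity) (by positivity))
    have h5 : ((3 * M i : ℕ) : ℝ) ≤ ((Z ^ (A + 2) : ℕ) : ℝ) := by
      push_cast
      calc (3 : ℝ) * M i ≤ Z * ((Z : ℝ) ^ A * Z) :=
            mul_le_mul (by exact_mod_cast hZ) h4 (by positivity) (by positivity)
        _ = (Z : ℝ) ^ (A + 2) := by ring
    exact_mod_cast h5
  have hPi : ∀ n ∈ Ico X1 (2 * X1), ∀ i, lp ((P i).eval (n : ℤ) + h i) ≤ W := by
    intro n hn i
    refine (k2_lp_le _ (Z ^ (A + 2)) (Nat.one_le_pow _ _ hZ1) ?_).trans (hWl (A + 2) le_rfl)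
    have h1 := hP8 i n hn
    have h2 : h i ∈ Ico (M i) (M i + M i) := by
      have := Fintype.mem_piFinset.mp hh i
      exact this
    have h3 := (mem_Ico.mp h2).2
    have h4 := le_abs_self ((P i).eval (n : ℤ))
    have h5 := abs_nonneg ((P i).eval (n : ℤ))
    have h6 : ((3 * M i : ℕ) : ℤ) ≤ ((Z ^ (A + 2) : ℕ) : ℤ) := by exact_mod_cast hM i
    have h7 : (h i : ℤ) < M i + M i := by exact_mod_cast h3
    push_cast at h6
    push_cast
    linarith
  unfold RPh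
  -- bound each term
  have hterm : ∀ n ∈ Ico X1 (2 * X1), lp (B.eval (n : ℤ)) * ∏ i, lp ((P i).eval (n : ℤ) + h i) ≤
      if ((B.eval (n : ℤ)).toNat.Prime ∧ ∀ i, ((P i).eval (n : ℤ) + (h i : ℤ)).toNat.Prime) then
        W ^ (k + 1) else 0 := by
    intro n hn
    split_ifs with hp
    · rw [pow_succ, mul_comm]
      refine mul_le_mul ?_ (hB n hn) (k2_lp0 _) (by positivity)
      calc ∏ i, lp ((P i).eval (n : ℤ) + h i) ≤ ∏ _i : Fin k, W :=
            prod_le_prod (fun i _ => k2_lp0 _) (fun i _ => hPi n hn i)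
        _ = W ^ k := by rw [prod_const, card_univ, Fintype.card_fin]
    · rw [not_and_or, not_forall] at hp
      rcases hp with hp | ⟨i, hp⟩
      · have : lp (B.eval (n : ℤ)) = 0 := by
          unfold H68T.lp
          rw [if_neg hp]
        rw [this, zero_mul]
      · have h0 : lp ((P i).eval (n : ℤ) + h i) = 0 := by
          unfold H68T.lp
          rw [if_neg hp]
        have h1 : ∏ i, lp ((P i).eval (n : ℤ) + h i) = 0 := prod_eq_zero (mem_univ i) h0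
        rw [h1, mul_zero]
  refine (sum_le_sum hterm).trans ?_
  rw [← sum_filter, sum_const, nsmul_eq_mul]
  refine mul_le_mul_of_nonneg_right ?_ (by positivity)
  unfold pcount
  have hsub : (Ico X1 (2 * X1)).filter (fun n : ℕ => (B.eval (n : ℤ)).toNat.Prime ∧
      ∀ i, ((P i).eval (n : ℤ) + (h i : ℤ)).toNat.Prime) ⊆
      (Icc 1 Z).filter (fun n : ℕ => (B.eval (n : ℤ)).toNat.Prime ∧
      ∀ i, ((P i).eval (n : ℤ) + (h i : ℤ)).toNat.Prime) := by
    intro n hn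
    rw [mem_filter, mem_Ico] at hn
    rw [mem_filter, mem_Icc]
    have := hG.pos
    refine ⟨⟨by omega, by omega⟩, hn.2⟩
  exact_mod_cast card_le_card hsub

theorem k2_ev (C x : ℝ) (hx : 0 < x) : ∃ Q0 : ℕ, ∀ Q : ℕ, Q0 ≤ Q → C ≤ (Q : ℝ) ^ x := by
  have h1 : Filter.Tendsto (fun Q : ℕ => (Q : ℝ) ^ x) Filter.atTop Filter.atTop :=
    (tendsto_rpow_atTop hx).comp tendsto_natCast_atTop_atTop
  obtain ⟨Q0, h⟩ := Filter.eventually_atTop.mp (h1.eventually_ge_atTop C)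
  exact ⟨Q0, h⟩


end Pool.Agent.Lib.H24P
end

-- from Lib.HUK.KBD
section

/-!
# Project HUK, module K, part 2: products of components over the vertices (definitions)

`gk p κ m = (r/φ(r)) conj χ(m) ∏_{l ∣ κ} gl l m` for squarefree `κ` (`H59P/M2A`), `p = (r, χ)`.
-/

open Finset

namespace Pool.Agent.HUK

open Pool.Agent.Lib.H68T (PC)
open Pool.Agent.Lib.H18Q (gk KS)
open Pool.Agent.Lib.H59P (Ch gl)
open Pool.Agent.Lib.H59T (Vl)

noncomputable section

/-- The product of the components `κ ω` at the vertices `y + vl ω h`. -/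
def gt {k : ℕ} (p : Ch) (κ : (Fin k → Bool) → ℕ) (y : ℤ) (h : Fin k → ℤ) : ℂ :=
  ∏ ω : Fin k → Bool, cj (sg ω) (gk p (κ ω) (y + vl ω h))

/-- The local factor at `l`: the vertices in `W`. -/
def lf {k : ℕ} (l : ℕ) (W : Finset (Fin k → Bool)) (y : ℤ) (h : Fin k → ℤ) : ℂ :=
  ∏ ω ∈ W, ((gl l (y + vl ω h) : ℝ) : ℂ)

/-- The character part: the differences of `conj χ`. -/
def cp {k : ℕ} (p : Ch) (y : ℤ) (h : Fin k → ℤ) : ℂ :=
  DL (List.ofFn fun i => lam k i * h i) (fun m : ℤ => (starRingEnd ℂ) (p.2 (m : ZMod p.1))) y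

/-- The primes dividing some `κ ω`. -/
def Pk {k : ℕ} (κ : (Fin k → Bool) → ℕ) : Finset ℕ := univ.biUnion fun ω => (κ ω).primeFactors

/-- Their product. -/
def nk {k : ℕ} (κ : (Fin k → Bool) → ℕ) : ℕ := ∏ l ∈ Pk κ, l

/-- The tuples of moduli between `Q'` and `Q`. -/
def TK (k Q Q' : ℕ) (p : Ch) : Finset ((Fin k → Bool) → ℕ) :=
  Fintype.piFinset fun _ => (KS Q p.1).filter fun κ => Q' < p.1 * κ

end

end Pool.Agent.HUK
end

-- from Lib.HUK.KB4A
section

/-!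
# Project HUK, chunk KB4A (M): local sums at a prime
-/

open Finset

namespace Pool.Agent.HUK

open Pool.Agent.Lib.H59P (gl)

theorem kb4a_filter (l : ℕ) (hl : 0 < l) (c : ℤ) :
    (Ico (0 : ℤ) l).filter (fun y => (l : ℤ) ∣ y + c) = {(-c) % (l : ℤ)} := by
  have hl' : (0 : ℤ) < l := by exact_mod_cast hl
  ext y
  rw [mem_filter, mem_Ico, mem_singleton]
  constructor
  · rintro ⟨⟨h0, h1⟩, h2⟩
    have h3 : y ≡ -c [ZMOD (l : ℤ)] := by
      rw [Int.modEq_iff_dvd]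
      have h4 : -c - y = -(y + c) := by ring
      rw [h4]
      exact (dvd_neg).2 h2
    have h5 : y % (l : ℤ) = (-c) % (l : ℤ) := h3
    rw [← h5, Int.emod_eq_of_lt h0 h1]
  · intro h
    have h1 := Int.emod_nonneg (-c) hl'.ne'
    have h2 := Int.emod_lt_of_pos (-c) hl'
    have h3 := Int.emod_add_mul_ediv (-c) (l : ℤ)
    refine ⟨⟨by rw [h]; exact h1, by rw [h]; exact h2⟩, ⟨-((-c) / (l : ℤ)), ?_⟩⟩
    rw [h]
    linarith

theorem kb4a_sum (l : ℕ) (hl : 0 < l) (c : ℤ) (F : ℝ → ℝ) :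
    ∑ y ∈ Ico (0 : ℤ) l, F (gl l (y + c)) = F (-1) + ((l : ℝ) - 1) * F (1 / ((l : ℝ) - 1)) := by
  have h1 : ∀ y ∈ Ico (0 : ℤ) l, F (gl l (y + c)) =
      F (1 / ((l : ℝ) - 1)) + (if (l : ℤ) ∣ y + c then F (-1) - F (1 / ((l : ℝ) - 1)) else 0) := by
    intro y _
    unfold gl
    split_ifs
    · ring
    · ring
  rw [sum_congr rfl h1, sum_add_distrib, ← sum_filter, kb4a_filter l hl c, sum_singleton, sum_const,
    Int.card_Ico, sub_zero, Int.toNat_natCast, nsmul_eq_mul]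
  ring

theorem kb4a_one (l : ℕ) (hl : l.Prime) : (1 : ℝ) ≤ (l : ℝ) - 1 := by
  have h : (2 : ℝ) ≤ l := by exact_mod_cast hl.two_le
  linarith

/-- `|gl l m| ≤ 1` (`l - 1 ≥ 1`). -/
theorem KB4A_le (l : ℕ) (hl : l.Prime) (m : ℤ) : |gl l m| ≤ 1 := by
  have h1 := kb4a_one l hl
  unfold gl
  split_ifs
  · rw [abs_neg, abs_one]
  · rw [abs_of_nonneg (by positivity), div_le_one (by linarith)]
    exact h1

/-- `gl l m` depends only on `m` modulo `l`. -/
theorem KB4A_mod (l : ℕ) (m m' : ℤ) (h : (l : ℤ) ∣ m - m') : gl l m = gl l m' := by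
  have h1 : (l : ℤ) ∣ m ↔ (l : ℤ) ∣ m' := dvd_iff_dvd_of_dvd_sub h
  unfold gl
  by_cases h2 : (l : ℤ) ∣ m
  · rw [if_pos h2, if_pos (h1.1 h2)]
  · rw [if_neg h2, if_neg fun h3 => h2 (h1.2 h3)]

/-- Exactly one `y ∈ [0, l)` is divisible by `l` after the shift: `-1 + (l - 1) / (l - 1) = 0`. -/
theorem KB4A_zero (l : ℕ) (hl : l.Prime) (c : ℤ) : ∑ y ∈ Ico (0 : ℤ) l, gl l (y + c) = 0 := by
  have h1 := kb4a_one l hl
  have h2 := kb4a_sum l hl.pos c (fun x => x)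
  rw [h2, mul_one_div_cancel (by linarith)]
  ring

/-- In the same way `1 + (l - 1) / (l - 1) = 2`. -/
theorem KB4A_two (l : ℕ) (hl : l.Prime) (c : ℤ) : ∑ y ∈ Ico (0 : ℤ) l, |gl l (y + c)| = 2 := by
  have h1 := kb4a_one l hl
  have h2 := kb4a_sum l hl.pos c (fun x => |x|)
  rw [h2, abs_of_nonneg (by positivity : (0 : ℝ) ≤ 1 / ((l : ℝ) - 1)), mul_one_div_cancel (by linarith), abs_neg, abs_one]
  norm_num

/-- `l ∤ c - c'`: the zeros of the two factors are different, so the sum is `2 / (l - 1) + (l - 2) / (l - 1)^2 ≤ 3 / (l - 1) ≤ 6 / l`. (It suffices: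
`|gl (y+c)| |gl (y+c')| ≤ (|gl (y+c)| + |gl(y+c')|) / (l - 1)` if not both are `1`, then `KB4A_two` gives `4 / (l - 1)`; with the bound `8 / l`.) -/
theorem KB4A_pair (l : ℕ) (hl : l.Prime) (c c' : ℤ) (h : ¬ (l : ℤ) ∣ c - c') :
    ∑ y ∈ Ico (0 : ℤ) l, |gl l (y + c)| * |gl l (y + c')| ≤ 8 / l := by
  have h1 := kb4a_one l hl
  have hl2 : (2 : ℝ) ≤ l := by exact_mod_cast hl.two_le
  have hx : (0 : ℝ) ≤ 1 / ((l : ℝ) - 1) := by positivity
  have h2 : ∀ y ∈ Ico (0 : ℤ) l, |gl l (y + c)| * |gl l (y + c')| ≤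
      (|gl l (y + c)| + |gl l (y + c')|) * (1 / ((l : ℝ) - 1)) := by
    intro y _
    have ha := abs_nonneg (gl l (y + c))
    have hb := abs_nonneg (gl l (y + c'))
    have h3 : |gl l (y + c)| = 1 / ((l : ℝ) - 1) ∨ |gl l (y + c')| = 1 / ((l : ℝ) - 1) := by
      by_cases h4 : (l : ℤ) ∣ y + c
      · right
        have h5 : ¬ (l : ℤ) ∣ y + c' := by
          intro h6
          apply h
          have h7 : c - c' = (y + c) - (y + c') := by ring
          rw [h7]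
          exact dvd_sub h4 h6
        unfold gl
        rw [if_neg h5, abs_of_nonneg hx]
      · left
        unfold gl
        rw [if_neg h4, abs_of_nonneg hx]
    rcases h3 with h3 | h3
    · rw [h3]
      nlinarith [mul_nonneg hx hx]
    · rw [h3]
      nlinarith [mul_nonneg hx hx]
  refine (sum_le_sum h2).trans ?_
  rw [← sum_mul, sum_add_distrib, KB4A_two l hl c, KB4A_two l hl c', mul_one_div,
    div_le_div_iff₀ (by linarith) (by linarith)]
  linarith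

/-- Periodicity of the local factor: `l ∣ vl ω h - vl ω h'` if `l ∣ h i - h' i` for all `i`; `KB4A_mod`. -/
theorem KB4A_per {k : ℕ} (l : ℕ) (W : Finset (Fin k → Bool)) : Pe l (lf (k := k) l W) := by
  intro y y' h h' hy hh
  unfold lf
  refine prod_congr rfl fun ω _ => ?_
  rw [KB4A_mod l (y + vl ω h) (y' + vl ω h') ?_]
  have h1 : (y + vl ω h) - (y' + vl ω h') = (y - y') + ∑ i, (if ω i then lam k i * h i else 0) -
      ∑ i, (if ω i then lam k i * h' i else 0) := by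
    unfold vl vt
    ring
  rw [h1, add_sub_assoc, ← sum_sub_distrib]
  refine dvd_add hy (dvd_sum fun i _ => ?_)
  split_ifs
  · rw [← mul_sub]
    exact Dvd.dvd.mul_left (hh i) _
  · rw [sub_zero]
    exact dvd_zero _

end Pool.Agent.HUK
end

-- from Lib.HUK.KB4
section

/-!
# Project HUK, chunk KB4 (M): the local factor at a prime is at most `C / l²`
-/

open Finset

namespace Pool.Agent.HUK

open Pool.Agent.Lib.H59P (gl)

/-- two arguments which agree outside of one coordinate -/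
theorem kb4_diff (k : ℕ) (ω ω' : Fin k → Bool) (i : Fin k) (hi : ω i ≠ ω' i) (h h' : Fin k → ℤ) (hj : ∀ j, j ≠ i → h j = h' j) :
    (vl ω h - vl ω' h) - (vl ω h' - vl ω' h') = lam k i * (h i - h' i) ∨
      (vl ω h - vl ω' h) - (vl ω h' - vl ω' h') = -(lam k i * (h i - h' i)) := by
  have e1 : (vl ω h - vl ω' h) - (vl ω h' - vl ω' h') =
      ∑ j, (((if ω j then lam k j * h j else 0) - (if ω' j then lam k j * h j else 0)) -
        ((if ω j then lam k j * h' j else 0) - (if ω' j then lam k j * h' j else 0))) := by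
    unfold vl vt
    simp only [Finset.sum_sub_distrib]
  have e2 : ∑ j, (((if ω j then lam k j * h j else 0) - (if ω' j then lam k j * h j else 0)) -
        ((if ω j then lam k j * h' j else 0) - (if ω' j then lam k j * h' j else 0))) =
      (((if ω i then lam k i * h i else 0) - (if ω' i then lam k i * h i else 0)) -
        ((if ω i then lam k i * h' i else 0) - (if ω' i then lam k i * h' i else 0))) := by
    refine Finset.sum_eq_single i (fun j _ hji => ?_) (fun hn => absurd (Finset.mem_univ i) hn)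
    rw [hj j hji, sub_self]
  rw [e1, e2]
  rcases Bool.eq_false_or_eq_true (ω i) with h1 | h1
  · have h2 : ω' i = false := by
      rw [h1] at hi
      exact (Bool.eq_false_or_eq_true (ω' i)).resolve_left (fun h => hi h.symm)
    left
    rw [h1, h2]
    simp only [if_true, Bool.false_eq_true, if_false]
    ring
  · have h2 : ω' i = true := by
      rw [h1] at hi
      exact (Bool.eq_false_or_eq_true (ω' i)).resolve_right (fun h => hi h.symm)
    right
    rw [h1, h2]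
    simp only [if_true, Bool.false_eq_true, if_false]
    ring

/-- the product over `W` is at most the product of two factors -/
theorem kb4_prod {α : Type*} [DecidableEq α] (W : Finset α) (f : α → ℝ) (h0 : ∀ a, 0 ≤ f a) (h1 : ∀ a, f a ≤ 1) {a b : α}
    (ha : a ∈ W) (hb : b ∈ W) (hab : b ≠ a) : ∏ x ∈ W, f x ≤ f a * f b := by
  rw [← Finset.mul_prod_erase W f ha]
  refine mul_le_mul_of_nonneg_left ?_ (h0 a)
  rw [← Finset.mul_prod_erase (W.erase a) f (Finset.mem_erase.2 ⟨hab, hb⟩)]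
  exact mul_le_of_le_one_right (h0 b) (Finset.prod_le_one (fun x _ => h0 x) (fun x _ => h1 x))

/-- Two different vertices have congruent values for few `h`. Proof. There is `i` with `ω i ≠ ω' i`; `vl ω h - vl ω' h = ± lam k i * h i + (terms with the other
coordinates)`, `1 ≤ lam k i ≤ k < l`; so for fixed other coordinates at most one `h i ∈ [0, l)` is possible (`l` prime). The map
`h ↦ (fun j : {j // j ≠ i} => h j)`, or `Function.update h i 0`, is injective on the set, and its image is in a set with `l^(k-1)` elements. -/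
theorem KB4_bad (k l : ℕ) (hl : l.Prime) (hk : k < l) (ω ω' : Fin k → Bool) (h : ω ≠ ω') :
    ((((Fintype.piFinset (fun _ : Fin k => Ico (0 : ℤ) l)).filter fun h => (l : ℤ) ∣ vl ω h - vl ω' h).card : ℕ) : ℝ) ≤
      (l : ℝ) ^ k / l := by
  classical
  obtain ⟨i, hi⟩ := Function.ne_iff.1 h
  set S := (Fintype.piFinset (fun _ : Fin k => Ico (0 : ℤ) l)).filter fun h => (l : ℤ) ∣ vl ω h - vl ω' h with hS
  have hl0 : 0 < l := hl.pos
  have hlam : ¬ (l : ℤ) ∣ lam k i := by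
    intro hd
    have h1 : 0 < lam k i := by
      unfold lam
      have := i.2
      omega
    have h2 := Int.le_of_dvd h1 hd
    have h3 : lam k i ≤ k := by
      unfold lam
      omega
    omega
  have hpr : Prime (l : ℤ) := Nat.prime_iff_prime_int.1 hl
  have hcard : S.card * l ≤ l ^ k := by
    have h1 : (S ×ˢ Ico (0 : ℤ) l).card ≤ (Fintype.piFinset (fun _ : Fin k => Ico (0 : ℤ) l)).card := by
      refine Finset.card_le_card_of_injOn (fun p => Function.update p.1 i p.2) ?_ ?_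
      · rintro ⟨h, x⟩ hp
        have hp' := Finset.mem_product.1 hp
        have h3 := Fintype.mem_piFinset.1 (Finset.mem_filter.1 hp'.1).1
        show Function.update h i x ∈ (Fintype.piFinset (fun _ : Fin k => Ico (0 : ℤ) l) : Finset (Fin k → ℤ))
        rw [Fintype.mem_piFinset]
        intro j
        by_cases hj : j = i
        · subst hj
          rw [Function.update_self]
          exact hp'.2
        · rw [Function.update_of_ne hj]
          exact h3 j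
      · rintro ⟨h, x⟩ hp ⟨h', x'⟩ hp' heq
        have hp1 := Finset.mem_product.1 hp
        have hp1' := Finset.mem_product.1 hp'
        have hm := Finset.mem_filter.1 hp1.1
        have hm' := Finset.mem_filter.1 hp1'.1
        have heq' : Function.update h i x = Function.update h' i x' := heq
        have hx : x = x' := by
          have := congrFun heq' i
          rwa [Function.update_self, Function.update_self] at this
        have hj : ∀ j, j ≠ i → h j = h' j := by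
          intro j hji
          have := congrFun heq' j
          rwa [Function.update_of_ne hji, Function.update_of_ne hji] at this
        have hd : (l : ℤ) ∣ lam k i * (h i - h' i) := by
          have h5 := dvd_sub hm.2 hm'.2
          rcases kb4_diff k ω ω' i hi h h' hj with h6 | h6
          · rwa [h6] at h5
          · rw [h6] at h5
            exact (dvd_neg.1 h5)
        have hd2 : (l : ℤ) ∣ h i - h' i := (hpr.dvd_or_dvd hd).resolve_left hlam
        have hb1 : 0 ≤ h i ∧ h i < l := Finset.mem_Ico.1 (Fintype.mem_piFinset.1 hm.1 i)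
        have hb2 : 0 ≤ h' i ∧ h' i < l := Finset.mem_Ico.1 (Fintype.mem_piFinset.1 hm'.1 i)
        have h7 : h i = h' i := by
          obtain ⟨c, hc⟩ := hd2
          have hc0 : c = 0 := by
            by_contra hne
            rcases lt_or_gt_of_ne hne with hlt | hgt
            · have : (l : ℤ) * c ≤ (l : ℤ) * (-1) := mul_le_mul_of_nonneg_left (by omega) (by positivity)
              omega
            · have : (l : ℤ) * 1 ≤ (l : ℤ) * c := mul_le_mul_of_nonneg_left (by omega) (by positivity)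
              omega
          rw [hc0, mul_zero] at hc
          omega
        have h8 : h = h' := by
          funext j
          by_cases hji : j = i
          · rw [hji]
            exact h7
          · exact hj j hji
        rw [h8, hx]
    rw [Finset.card_product, Fintype.card_piFinset_const, Int.card_Ico] at h1
    simpa using h1
  rw [le_div_iff₀ (by exact_mod_cast hl0)]
  exact_mod_cast hcard

/-- Proof. If `l ≤ k`: `Av ≤ 1 ≤ k² / l²` (`KB1_one`, `KB4A_le`). Let `k < l`. If `W = {ω}`: all inner sums are `0` (`KB4A_zero`), so `Av = 0`. Otherwise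
let `ω ≠ ω'` in `W`. The inner sum is at most `∑_y ∏_{W} |gl|`, at most `∑_y |gl l (y + vl ω h)| = 2` (`KB4A_two`; the other factors are at most `1`), and if
`l ∤ vl ω h - vl ω' h` at most `∑_y |gl (y + vl ω h)| |gl (y + vl ω' h)| ≤ 8 / l` (`KB4A_pair`). By `KB4_bad`:
`Av ≤ (2 l^k / l + l^k 8 / l) / l^(k+1) = 10 / l²`. -/
theorem KB4_loc (k l : ℕ) (hl : l.Prime) (W : Finset (Fin k → Bool)) (hW : W.Nonempty) :
    Av k l (lf l W) ≤ (10 + (k : ℝ) ^ 2) / (l : ℝ) ^ 2 := by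
  classical
  have hl0 : (0 : ℝ) < l := by exact_mod_cast hl.pos
  have hnorm : ∀ (y : ℤ) (h : Fin k → ℤ), ‖lf l W y h‖ = ∏ ω ∈ W, |gl l (y + vl ω h)| := by
    intro y h
    unfold lf
    rw [norm_prod]
    exact Finset.prod_congr rfl fun ω _ => by rw [Complex.norm_real, Real.norm_eq_abs]
  by_cases hk : k < l
  · obtain ⟨ω, hω⟩ := hW
    by_cases hone : ∀ ω' ∈ W, ω' = ω
    · have hWe : W = {ω} := by
        refine Finset.eq_singleton_iff_unique_mem.2 ⟨hω, hone⟩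
      have hz : Av k l (lf l W) = 0 := by
        unfold Av
        rw [div_eq_zero_iff]
        left
        refine Finset.sum_eq_zero fun h _ => ?_
        rw [norm_eq_zero]
        have e1 : ∀ y ∈ Ico (0 : ℤ) l, lf l W y h = ((gl l (y + vl ω h) : ℝ) : ℂ) := by
          intro y _
          unfold lf
          rw [hWe, Finset.prod_singleton]
        rw [Finset.sum_congr rfl e1, ← Complex.ofReal_sum, KB4A_zero l hl]
        exact Complex.ofReal_zero
      rw [hz]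
      positivity
    · push Not at hone
      obtain ⟨ω', hω', hne⟩ := hone
      have hI : ∀ h : Fin k → ℤ, ‖∑ y ∈ Ico (0 : ℤ) l, lf l W y h‖ ≤
          ∑ y ∈ Ico (0 : ℤ) l, |gl l (y + vl ω h)| * |gl l (y + vl ω' h)| := by
        intro h
        refine (norm_sum_le _ _).trans (Finset.sum_le_sum fun y _ => ?_)
        rw [hnorm]
        exact kb4_prod W (fun ω => |gl l (y + vl ω h)|) (fun _ => abs_nonneg _) (fun _ => KB4A_le l hl _) hω hω' hne
      have hI2 : ∀ h : Fin k → ℤ, ‖∑ y ∈ Ico (0 : ℤ) l, lf l W y h‖ ≤ 2 := by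
        intro h
        refine (hI h).trans ?_
        rw [← KB4A_two l hl (vl ω h)]
        exact Finset.sum_le_sum fun y _ => mul_le_of_le_one_right (abs_nonneg _) (KB4A_le l hl _)
      have hpt : ∀ h ∈ Fintype.piFinset (fun _ : Fin k => Ico (0 : ℤ) l), ‖∑ y ∈ Ico (0 : ℤ) l, lf l W y h‖ ≤
          (if (l : ℤ) ∣ vl ω h - vl ω' h then (2 : ℝ) else 0) + 8 / l := by
        intro h _
        split_ifs with hd
        · refine (hI2 h).trans ?_
          have : (0 : ℝ) ≤ 8 / l := by positivity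
          linarith
        · rw [zero_add]
          exact (hI h).trans (KB4A_pair l hl _ _ hd)
      have hsum := Finset.sum_le_sum hpt
      rw [Finset.sum_add_distrib, Finset.sum_const, Fintype.card_piFinset_const, Int.card_Ico, ← Finset.sum_filter,
        Finset.sum_const] at hsum
      have hbad := KB4_bad k l hl hk ω ω' (Ne.symm hne)
      unfold Av
      have hpow : (0 : ℝ) < (l : ℝ) ^ (k + 1) := by positivity
      rw [div_le_div_iff₀ hpow (by positivity)]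
      simp only [nsmul_eq_mul, sub_zero, Int.toNat_natCast, Nat.cast_pow] at hsum
      have h10 : (∑ h ∈ Fintype.piFinset (fun _ : Fin k => Ico (0 : ℤ) l), ‖∑ y ∈ Ico (0 : ℤ) l, lf l W y h‖) ≤
          10 * ((l : ℝ) ^ k / l) := by
        refine hsum.trans ?_
        have e1 : (l : ℝ) ^ k * (8 / l) = 8 * ((l : ℝ) ^ k / l) := by ring
        rw [e1]
        nlinarith [hbad]
      have e2 : (10 : ℝ) * ((l : ℝ) ^ k / l) * (l : ℝ) ^ 2 = 10 * (l : ℝ) ^ (k + 1) := by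
        field_simp
        ring
      calc (∑ h ∈ Fintype.piFinset (fun _ : Fin k => Ico (0 : ℤ) l), ‖∑ y ∈ Ico (0 : ℤ) l, lf l W y h‖) * (l : ℝ) ^ 2
          ≤ 10 * ((l : ℝ) ^ k / l) * (l : ℝ) ^ 2 := mul_le_mul_of_nonneg_right h10 (by positivity)
        _ = 10 * (l : ℝ) ^ (k + 1) := e2
        _ ≤ (10 + (k : ℝ) ^ 2) * (l : ℝ) ^ (k + 1) := by
            refine mul_le_mul_of_nonneg_right ?_ hpow.le
            have : (0 : ℝ) ≤ (k : ℝ) ^ 2 := by positivity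
            linarith
  · refine (KB1_one k l hl.pos _ ?_).trans ?_
    · intro y h
      rw [hnorm]
      exact Finset.prod_le_one (fun _ _ => abs_nonneg _) (fun _ _ => KB4A_le l hl _)
    · rw [le_div_iff₀ (by positivity), one_mul]
      have h1 : (l : ℝ) ≤ k := by exact_mod_cast not_lt.1 hk
      have h2 : (l : ℝ) ^ 2 ≤ (k : ℝ) ^ 2 := pow_le_pow_left₀ hl0.le h1 2
      linarith

end Pool.Agent.HUK
end

-- from Lib.HUK.KB6
section

/-!
# Project HUK, chunk KB6 (M): factorization of the product over the vertices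
-/

open Finset

namespace Pool.Agent.HUK

open Pool.Agent.Lib.H18Q (gk KS)
open Pool.Agent.Lib.H59P (Ch gl)

theorem kb6_cj_real (n : ℕ) (a : ℝ) : cj n (a : ℂ) = (a : ℂ) := by
  unfold cj
  split_ifs
  · rfl
  · exact Complex.conj_ofReal a

/-- Proof. `M2a`: `gk p κ m = (r/φ(r)) conj χ(m) ∏_{l ∈ κ.primeFactors} gl l m` (`κ` squarefree). `cj n` is multiplicative (`p0_cj_mul`) and fixes real
numbers; `DL_prod` for `cp`; there are `2^k` vertices; and
`∏_ω ∏_{l ∈ (κ ω).primeFactors} G l ω = ∏_{l ∈ Pk κ} ∏_{ω, l ∣ κ ω} G l ω` (`Finset.prod_comm'` or `Finset.prod_subset` with `ite`; `κ ω ≠ 0`, the elements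
of `Pk κ` are primes, so `l ∣ κ ω ↔ l ∈ (κ ω).primeFactors`). -/
theorem KB6_fac {k : ℕ} (p : Ch) (κ : (Fin k → Bool) → ℕ) (hκ : ∀ ω, Squarefree (κ ω)) (y : ℤ) (h : Fin k → ℤ) :
    gt p κ y h = ((((p.1 : ℝ) / (Nat.totient p.1 : ℝ)) ^ (2 ^ k) : ℝ) : ℂ) *
      (cp p y h * ∏ l ∈ Pk κ, lf l (univ.filter fun ω => l ∣ κ ω) y h) := by
  classical
  have h1 : ∀ ω : Fin k → Bool, cj (sg ω) (gk p (κ ω) (y + vl ω h)) =
      ((((p.1 : ℝ) / (Nat.totient p.1 : ℝ)) : ℝ) : ℂ) *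
        (cj (sg ω) ((starRingEnd ℂ) (p.2 ((y + vl ω h : ℤ) : ZMod p.1))) *
          ∏ l ∈ (κ ω).primeFactors, ((gl l (y + vl ω h) : ℝ) : ℂ)) := by
    intro ω
    unfold gk
    rw [Pool.Agent.Lib.H59P.M2a (κ ω) (hκ ω), p0_cj_mul, p0_cj_mul, kb6_cj_real, kb6_cj_real,
      Complex.ofReal_prod, mul_assoc]
  have h2 : cp p y h = ∏ ω : Fin k → Bool,
      cj (sg ω) ((starRingEnd ℂ) (p.2 ((y + vl ω h : ℤ) : ZMod p.1))) := by
    unfold cp
    rw [DL_prod]
    rfl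
  have h3 : ∏ ω : Fin k → Bool, ∏ l ∈ (κ ω).primeFactors, ((gl l (y + vl ω h) : ℝ) : ℂ) =
      ∏ l ∈ Pk κ, lf l (univ.filter fun ω => l ∣ κ ω) y h := by
    unfold lf
    refine Finset.prod_comm' ?_
    intro ω l
    simp only [Finset.mem_univ, true_and, Finset.mem_filter]
    constructor
    · intro hl
      refine ⟨Nat.dvd_of_mem_primeFactors hl, ?_⟩
      exact Finset.mem_biUnion.2 ⟨ω, Finset.mem_univ _, hl⟩
    · rintro ⟨hl, hl2⟩
      obtain ⟨ω', -, hω'⟩ := Finset.mem_biUnion.1 hl2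
      exact Nat.mem_primeFactors.2 ⟨Nat.prime_of_mem_primeFactors hω', hl, (hκ ω).ne_zero⟩
  unfold gt
  rw [Finset.prod_congr rfl fun ω _ => h1 ω, Finset.prod_mul_distrib, Finset.prod_mul_distrib,
    Finset.prod_const, h2, h3]
  congr 1
  rw [Complex.ofReal_pow]
  congr 1
  rw [Finset.card_univ, Fintype.card_fun, Fintype.card_bool, Fintype.card_fin]

/-- `κ ω ∣ nk κ` (squarefree: `Nat.prod_primeFactors_of_squarefree`), `nk κ ∣ ∏ κ ω` hence `nk κ ≤ ∏ κ ω`, the primes in `Pk κ` are coprime to `r`. -/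
theorem KB6_nk {k : ℕ} (Q : ℕ) (r : ℕ) (κ : (Fin k → Bool) → ℕ) (hκ : ∀ ω, κ ω ∈ KS Q r) :
    (∀ ω, κ ω ∣ nk κ) ∧ 1 ≤ nk κ ∧ nk κ ≤ ∏ ω, κ ω ∧ (∀ l ∈ Pk κ, l.Prime ∧ Nat.Coprime l r) ∧ Squarefree (nk κ) ∧
      (nk κ).primeFactors = Pk κ := by
  classical
  have hK : ∀ ω, Squarefree (κ ω) ∧ Nat.Coprime (κ ω) r := by
    intro ω
    have h1 := hκ ω
    unfold Pool.Agent.Lib.H18Q.KS at h1
    exact (Finset.mem_filter.1 h1).2
  have hP : ∀ l ∈ Pk κ, ∃ ω, l ∈ (κ ω).primeFactors := by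
    intro l hl
    obtain ⟨ω, -, hω⟩ := Finset.mem_biUnion.1 hl
    exact ⟨ω, hω⟩
  have hp : ∀ l ∈ Pk κ, l.Prime := by
    intro l hl
    obtain ⟨ω, hω⟩ := hP l hl
    exact Nat.prime_of_mem_primeFactors hω
  have hdiv : ∀ ω, κ ω ∣ nk κ := by
    intro ω
    have h1 : ∏ l ∈ (κ ω).primeFactors, l ∣ ∏ l ∈ Pk κ, l := by
      refine Finset.prod_dvd_prod_of_subset _ _ _ ?_
      intro l hl
      exact Finset.mem_biUnion.2 ⟨ω, Finset.mem_univ _, hl⟩
    rw [Nat.prod_primeFactors_of_squarefree (hK ω).1] at h1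
    exact h1
  have hpos : 0 < nk κ := Finset.prod_pos fun l hl => (hp l hl).pos
  have hdv : nk κ ∣ ∏ ω, κ ω := by
    refine Finset.prod_primes_dvd _ (fun l hl => (hp l hl).prime) ?_
    intro l hl
    obtain ⟨ω, hω⟩ := hP l hl
    exact (Nat.dvd_of_mem_primeFactors hω).trans (Finset.dvd_prod_of_mem κ (Finset.mem_univ ω))
  refine ⟨hdiv, hpos, ?_, ?_, ?_, Nat.primeFactors_prod hp⟩
  · exact Nat.le_of_dvd (Finset.prod_pos fun ω _ => Nat.pos_of_ne_zero (hK ω).1.ne_zero) hdv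
  · intro l hl
    obtain ⟨ω, hω⟩ := hP l hl
    exact ⟨hp l hl, Nat.Coprime.coprime_dvd_left (Nat.dvd_of_mem_primeFactors hω) (hK ω).2⟩
  · refine Finset.squarefree_prod_of_pairwise_isCoprime ?_ fun l hl => (hp l hl).prime.squarefree
    intro a ha b hb hab
    exact (Nat.coprime_iff_isRelPrime).1 ((Nat.coprime_primes (hp a ha) (hp b hb)).2 hab)

end Pool.Agent.HUK
end

-- from Lib.HUP.R10
section

/-!
# Project HUP, module R (the modules of H24P for an abstract family), R10: twisted means, a random coordinate is twisted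
-/

open Finset Polynomial

namespace Pool.Agent.HUP

open Pool.Agent.Lib.H68T Pool.Agent.Lib.H18Q Pool.Agent.Lib.H59P Pool.Agent.Lib.H24P

/-- **R10** (port of `X1A_main`, H24P/X1A.lean). Proof. As there, but `FGood` needs a range of length `H ≥ r^E`: by periodicity modulo
`r` the mean over `range r` is the mean over `range (r^(E+1))` (`x1b_mean` in H24P/X1B.lean). -/
theorem R10_main (k A E : ℕ) (hA : 1 ≤ A) (Cc cc : ℝ) (hC : FPar Cc cc) : ∃ C c : ℝ, 1 ≤ C ∧ 0 < c ∧ c ≤ 1 ∧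
    ∀ B : ℤ[X], Lin A B → ∀ P : Fin k → ℤ[X], Pol A P → ∀ (Q : ℕ) (px : Ch), px ∈ PC Q → 2 ≤ px.1 →
    ∀ Bs : Finset (Fin (k + 1)), (∃ i : Fin k, i.succ ∈ Bs) →
    ∀ (ι : Type) (S : Finset ι) (g : ι → Fin k → ℕ), FGood E Cc cc Q P S g →
    ∑ x ∈ S, ‖MRf (pB px Bs) px.1 (sys B P (g x))‖ ^ 2 ≤
      C * (1 + Real.log px.1) ^ C * S.card * (px.1 : ℝ) ^ (-c) := by
  classical
  obtain ⟨hCc1, hcc0, hcc1⟩ := hC
  refine ⟨8 * Cc + 2, cc, by linarith, hcc0, hcc1, ?_⟩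
  intro B _hB P _hP Q px hpx hr2 Bs hBs ι S g hG
  obtain ⟨hr1, hrQ, hprim⟩ := mem_PC.1 hpx
  obtain ⟨i0, hi0⟩ := hBs
  set r := px.1 with hr
  set Bs' : Finset (Fin k) := univ.filter (fun i : Fin k => i.succ ∈ Bs) with hBs'
  have hmem : ∀ i : Fin k, i ∈ Bs' ↔ i.succ ∈ Bs := by
    intro i
    rw [hBs', Finset.mem_filter]
    exact ⟨fun h => h.2, fun h => ⟨Finset.mem_univ _, h⟩⟩
  have hpB : ∀ i : Fin k, pB px Bs i.succ = pB px Bs' i := by
    intro i
    unfold pB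
    by_cases hi : i.succ ∈ Bs
    · rw [if_pos hi, if_pos ((hmem i).2 hi)]
    · rw [if_neg hi, if_neg (fun h => hi ((hmem i).1 h))]
  have hrR : (2 : ℝ) ≤ r := by exact_mod_cast hr2
  have hr0 : (0 : ℝ) < r := by linarith
  have hlog : 0 ≤ Real.log r := Real.log_natCast_nonneg r
  have hL1 : 1 ≤ 1 + Real.log r := by linarith
  have hv : (0 : ℝ) ≤ S.card := Nat.cast_nonneg _
  set H : ℕ := r ^ E * r with hH
  have hH0 : 0 < H := by positivity
  have hHR : (0 : ℝ) < H := by exact_mod_cast hH0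
  have hHE : r ^ E ≤ H := by
    rw [hH]
    exact Nat.le_mul_of_pos_right _ hr1
  set w : ℕ → ℂ := fun n => cj (pB px Bs 0) (B.eval (n : ℤ)) * ((uu r.primeFactors (B.eval (n : ℤ)) : ℝ) : ℂ)
    with hw
  have hwn : ∀ n, ‖w n‖ ≤ 2 * (1 + Real.log r) := by
    intro n
    rw [hw]
    simp only
    rw [norm_mul, Complex.norm_real, Real.norm_eq_abs, abs_of_nonneg (M3a_uu r hr1 _).1]
    calc _ ≤ 1 * ((r : ℝ) / (Nat.totient r : ℝ)) :=
          mul_le_mul (x1_cj_norm _ _) (M3a_uu r hr1 _).2 (M3a_uu r hr1 _).1 zero_le_one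
      _ = (r : ℝ) / (Nat.totient r : ℝ) := one_mul _
      _ ≤ _ := M3b r hr1
  have hsum : ∀ h : Fin k → ℕ, MRf (pB px Bs) r (sys B P h) = (∑ n ∈ Ico 0 (0 + H), w n *
      ∑ κ ∈ KT px Bs', ∏ i, gk (pB px Bs' i) (κ i) ((P i).eval (n : ℤ) + h i)) / H := by
    intro h
    have hm := x1b_mean (fun n => Phf (pB px Bs) r.primeFactors
      (at' (sys B P h) n)) r (r ^ E) (fun n => P2_Ph (sys B P h) (P2_sys B P h) _ r r dvd_rfl (by
        intro i
        unfold pB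
        split_ifs
        · exact dvd_rfl
        · exact one_dvd _) n)
    have hrC : (r : ℂ) ≠ 0 := by exact_mod_cast (show r ≠ 0 by omega)
    have hMR : MRf (pB px Bs) r (sys B P h) = (∑ n ∈ range H, Phf (pB px Bs) r.primeFactors
        (at' (sys B P h) (n : ℤ))) / H := by
      rw [hH, hm]
      unfold MRf
      push_cast
      field_simp
    rw [hMR, zero_add, Nat.Ico_zero_eq_range]
    congr 1
    refine Finset.sum_congr rfl fun n _ => ?_
    rw [← X1A_expand Q px hpx Bs' (fun i => (P i).eval (n : ℤ) + h i)]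
    unfold Phf at'
    rw [Fin.prod_univ_succ]
    have e0 : sys B P h 0 (n : ℤ) = B.eval (n : ℤ) := rfl
    have e1 : ∀ i : Fin k, sys B P h i.succ (n : ℤ) = (P i).eval (n : ℤ) + h i := fun i => rfl
    rw [e0]
    congr 1
    refine Finset.prod_congr rfl fun i _ => ?_
    rw [e1, hpB i]
  have hsub := X1A_sub Q px hpx Bs'
  have hlcm : ∀ κ ∈ KT px Bs', r - 1 < univ.lcm (fun i => (pB px Bs' i).1 * κ i) := by
    intro κ hκ
    have hκ' := Fintype.mem_piFinset.1 (hsub.1 hκ)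
    have hpos : ∀ i, (pB px Bs' i).1 * κ i ≠ 0 := by
      intro i
      have h1 := f_q_le (hsub.2 i) (hκ' i)
      exact (Nat.one_le_iff_ne_zero).1 h1.1
    have hκ0 : κ i0 = 1 := by
      unfold KT at hκ
      have h1 := Fintype.mem_piFinset.1 hκ i0
      rw [if_pos ((hmem i0).2 hi0), Finset.mem_singleton] at h1
      exact h1
    have hp0 : pB px Bs' i0 = px := by
      unfold pB
      rw [if_pos ((hmem i0).2 hi0)]
    have hdvd : r ∣ univ.lcm (fun i => (pB px Bs' i).1 * κ i) := by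
      have h1 : (pB px Bs' i0).1 * κ i0 ∣ univ.lcm (fun i => (pB px Bs' i).1 * κ i) :=
        Finset.dvd_lcm (f := fun i => (pB px Bs' i).1 * κ i) (Finset.mem_univ i0)
      rw [hκ0, mul_one, hp0] at h1
      exact h1
    have hne : univ.lcm (fun i => (pB px Bs' i).1 * κ i) ≠ 0 := by
      rw [Ne, Finset.lcm_eq_zero_iff]
      rintro ⟨i, _, hi⟩
      exact hpos i hi
    have := Nat.le_of_dvd (Nat.pos_of_ne_zero hne) hdvd
    omega
  have hmain := hG r hr1 hrQ (pB px Bs') hsub.2 (KT px Bs') hsub.1 (r - 1) (by omega) hlcm 0 H hHE w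
  have hD : (((r - 1 : ℕ) : ℝ)) ^ (-cc) ≤ 2 * (r : ℝ) ^ (-cc) := by
    have h1 : (((r - 1 : ℕ) : ℝ)) = (r : ℝ) - 1 := by
      rw [Nat.cast_sub hr1, Nat.cast_one]
    rw [h1]
    have h2 : (r : ℝ) / 2 ≤ (r : ℝ) - 1 := by linarith
    have h3 : ((r : ℝ) - 1) ^ (-cc) ≤ ((r : ℝ) / 2) ^ (-cc) :=
      Real.rpow_le_rpow_of_nonpos (by positivity) h2 (by linarith)
    refine h3.trans ?_
    rw [Real.div_rpow hr0.le (by norm_num), div_eq_mul_inv, mul_comm, ← Real.rpow_neg (by norm_num), neg_neg]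
    have h4 : (2 : ℝ) ^ cc ≤ 2 := by
      calc (2 : ℝ) ^ cc ≤ 2 ^ (1 : ℝ) := Real.rpow_le_rpow_of_exponent_le (by norm_num) hcc1
        _ = 2 := Real.rpow_one _
    exact mul_le_mul_of_nonneg_right h4 (by positivity)
  have hW : ∑ n ∈ Ico 0 (0 + H), ‖w n‖ ^ 2 ≤ H * (4 * (1 + Real.log r) ^ 2) := by
    calc ∑ n ∈ Ico 0 (0 + H), ‖w n‖ ^ 2 ≤ ∑ _n ∈ Ico 0 (0 + H), 4 * (1 + Real.log r) ^ 2 := by
          refine Finset.sum_le_sum fun n _ => ?_
          have h1 := pow_le_pow_left₀ (norm_nonneg _) (hwn n) 2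
          calc ‖w n‖ ^ 2 ≤ (2 * (1 + Real.log r)) ^ 2 := h1
            _ = _ := by ring
      _ = _ := by
          rw [Finset.sum_const, Nat.card_Ico, nsmul_eq_mul, zero_add, Nat.sub_zero]
  have hnorm : ∀ x ∈ S, ‖MRf (pB px Bs) r (sys B P (g x))‖ ^ 2 = (1 / (H : ℝ) ^ 2) *
      ‖∑ n ∈ Ico 0 (0 + H), w n *
      ∑ κ ∈ KT px Bs', ∏ i, gk (pB px Bs' i) (κ i) ((P i).eval (n : ℤ) + g x i)‖ ^ 2 := by
    intro x _
    rw [hsum (g x), norm_div, Complex.norm_natCast, div_pow]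
    ring
  rw [Finset.sum_congr rfl hnorm, ← Finset.mul_sum]
  have hpowL : (1 + Real.log r) ^ Cc * (1 + Real.log r) ^ 2 ≤ (1 + Real.log r) ^ (8 * Cc + 2) := by
    rw [← Real.rpow_natCast (1 + Real.log r) 2, ← Real.rpow_add (by linarith)]
    refine Real.rpow_le_rpow_of_exponent_le hL1 ?_
    push_cast
    linarith
  have hP0 : 0 ≤ (1 + Real.log r) ^ Cc := Real.rpow_nonneg (by linarith) _
  have hrc : 0 ≤ (r : ℝ) ^ (-cc) := Real.rpow_nonneg hr0.le _
  have hD0 : 0 ≤ (((r - 1 : ℕ) : ℝ)) ^ (-cc) := Real.rpow_nonneg (Nat.cast_nonneg _) _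
  calc (1 / (H : ℝ) ^ 2) * ∑ x ∈ S, ‖∑ n ∈ Ico 0 (0 + H), w n *
        ∑ κ ∈ KT px Bs', ∏ i, gk (pB px Bs' i) (κ i) ((P i).eval (n : ℤ) + g x i)‖ ^ 2
      ≤ (1 / (H : ℝ) ^ 2) * (Cc * (1 + Real.log r) ^ Cc * S.card * (H * ∑ n ∈ Ico 0 (0 + H), ‖w n‖ ^ 2) *
        (((r - 1 : ℕ) : ℝ)) ^ (-cc)) := mul_le_mul_of_nonneg_left hmain (by positivity)
    _ ≤ (1 / (H : ℝ) ^ 2) * (Cc * (1 + Real.log r) ^ Cc * S.card * (H * (H * (4 * (1 + Real.log r) ^ 2))) *
        (2 * (r : ℝ) ^ (-cc))) := by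
        refine mul_le_mul_of_nonneg_left ?_ (by positivity)
        refine mul_le_mul ?_ hD hD0 (by positivity)
        refine mul_le_mul_of_nonneg_left ?_ (by positivity)
        exact mul_le_mul_of_nonneg_left hW hHR.le
    _ = 8 * Cc * ((1 + Real.log r) ^ Cc * (1 + Real.log r) ^ 2) * S.card * (r : ℝ) ^ (-cc) := by
        field_simp
        ring
    _ ≤ (8 * Cc + 2) * (1 + Real.log r) ^ (8 * Cc + 2) * S.card * (r : ℝ) ^ (-cc) := by
        refine mul_le_mul_of_nonneg_right ?_ hrc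
        refine mul_le_mul_of_nonneg_right ?_ hv
        exact mul_le_mul (by linarith) hpowL (by positivity) (by linarith)

end Pool.Agent.HUP
end

-- from Lib.HUP.R8
section

/-!
# Project HUP, module R (the modules of H24P for an abstract family), R8: the complete main term
-/

open Finset Polynomial

namespace Pool.Agent.HUP

open Pool.Agent.Lib.H68T Pool.Agent.Lib.H18Q Pool.Agent.Lib.H59P Pool.Agent.Lib.H24P

/-- **R8** (port of `Z2B_main`, H24P/Z2B.lean). Proof. As there with `TMb` instead of `TMf`. -/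
theorem R8_main (k A E : ℕ) (Cc cc : ℝ) (hT : TMb k A E Cc cc) : ∃ c : ℝ, 0 < c ∧ ∃ Q0 : ℕ, ∀ Q : ℕ, Q0 ≤ Q →
    ∀ B : ℤ[X], Lin A B → ∀ P : Fin k → ℤ[X], Pol A P → ∀ r : ℕ, 1 ≤ r → r ^ 100 ≤ Q →
    ∀ c' : Fin (k + 1) → Ch → ℂ, (∀ i, ∑ p ∈ PC Q, ‖c' i p‖ ≤ 3) →
    ∀ (ι : Type) (S : Finset ι) (g : ι → Fin k → ℕ), FGood E Cc cc (Q ^ 2) P S g →
    ∑ x ∈ S, ‖MCf Q (B.leadingCoeff.natAbs * r) c' (sys B P (g x)) -
      MDf Q (B.leadingCoeff.natAbs * r) c' (sys B P (g x))‖ ^ 2 ≤ S.card * (Q : ℝ) ^ (-c) := by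
  classical
  obtain ⟨c1, hc1, Q1, h1⟩ := hT
  obtain ⟨Q3, hQ31, h3⟩ := G1_rlog (36 ^ (k + 1)) ((2 * (k + 1) : ℕ) : ℝ) (c1 / 2) (by linarith)
  refine ⟨c1 / 2, by linarith, max 1 (max Q1 Q3), ?_⟩
  intro Q hQ B hB P hP r hr1 hr c' hc' ι S g hF
  have hQ1 : 1 ≤ Q := (le_max_left _ _).trans hQ
  have hQQ1 : Q1 ≤ Q := (le_max_left _ _).trans ((le_max_right _ _).trans hQ)
  have hQQ3 : Q3 ≤ Q := (le_max_right _ _).trans ((le_max_right _ _).trans hQ)
  have hQ0r : (0 : ℝ) < Q := by exact_mod_cast hQ1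
  have hlog0 : 0 ≤ Real.log Q := Real.log_natCast_nonneg Q
  have hV : (0 : ℝ) ≤ (S.card : ℝ) := Nat.cast_nonneg _
  have hlc : 1 ≤ B.leadingCoeff.natAbs := by
    have hB0 : B ≠ 0 := by
      intro h0
      have := hB.deg
      rw [h0, natDegree_zero] at this
      omega
    have : B.leadingCoeff ≠ 0 := leadingCoeff_ne_zero.2 hB0
    omega
  set m0 : ℕ := B.leadingCoeff.natAbs * r with hm0
  have hm01 : 1 ≤ m0 := Nat.mul_pos hlc hr1
  have hdvd : B.leadingCoeff.natAbs ∣ m0 := Dvd.intro _ rfl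
  set D1 : ℕ := fl Q (1 / 16) with hD1
  have hD1Q : D1 ≤ Q := G1_le hQ1 (by norm_num) (by norm_num)
  set L1 : ℝ := (2 * (1 + Real.log Q)) ^ (k + 1) with hL1
  have hL10 : 0 ≤ L1 := by positivity
  set W : ℝ := L1 ^ 2 * ((S.card : ℝ) * (Q : ℝ) ^ (-c1)) with hW
  have hQc0 : 0 ≤ (Q : ℝ) ^ (-c1) := Real.rpow_nonneg hQ0r.le _
  have hW0 : 0 ≤ W := mul_nonneg (sq_nonneg _) (mul_nonneg hV hQc0)
  set f : (Fin (k + 1) → Ch) → ι → ℂ := fun p x =>
    MRf p (Rf m0 p) (sys B P (g x)) *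
      (((∑ d ∈ SF (fl Q (1 / 2) / Rf m0 p) (Rf m0 p), tdf d (sys B P (g x)) -
        SSf ((pr Q).filter (fun l => ¬ l ∣ Rf m0 p)) (sys B P (g x)) : ℝ) : ℂ)) with hfdef
  have hdec : ∀ x ∈ S, ‖MCf Q m0 c' (sys B P (g x)) - MDf Q m0 c' (sys B P (g x))‖ ^ 2 =
      ‖∑ p ∈ TSf (k + 1) Q D1 m0, (∏ i, c' i (p i)) * f p x‖ ^ 2 := by
    intro x _
    congr 2
    unfold MCf MDf
    rw [← Finset.sum_sub_distrib]
    refine Finset.sum_congr rfl fun p hp => ?_
    obtain ⟨hR0, hRD, hd, hmR⟩ := z2b_R Q D1 m0 hm01 p hp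
    have hfac : Rf m0 p ∣ Q.factorial := Nat.dvd_factorial hR0 (hRD.trans hD1Q)
    have e1 := P3_M5 (sys B P (g x)) (P2_sys B P (g x)) Q (Rf m0 p) hR0 hfac p hd
    rw [← e1, hfdef]
    beta_reduce
    rw [Complex.ofReal_sub]
    ring
  rw [Finset.sum_congr rfl hdec]
  have hmain := Z2a S (TSf (k + 1) Q D1 m0) (fun p => ∏ i, c' i (p i)) f (3 ^ (k + 1)) W hW0
    (z2b_gam Q D1 m0 c' hc') ?_
  · refine hmain.trans ?_
    have e1 : ((3 : ℝ) ^ (k + 1)) ^ 2 * L1 ^ 2 =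
        36 ^ (k + 1) * (1 + Real.log Q) ^ ((2 * (k + 1) : ℕ) : ℝ) := by
      rw [hL1, Real.rpow_natCast, ← mul_pow, ← mul_pow, ← pow_mul, mul_comm (k + 1) 2, pow_mul,
        pow_mul, ← mul_pow]
      congr 1
      ring
    have e2 : (Q : ℝ) ^ (-(c1 / 2)) = (Q : ℝ) ^ (c1 / 2) * (Q : ℝ) ^ (-c1) := by
      rw [← Real.rpow_add hQ0r]
      congr 1
      ring
    have e3 := h3 Q hQQ3
    have e4 : ((3 : ℝ) ^ (k + 1)) ^ 2 * W =
        (((3 : ℝ) ^ (k + 1)) ^ 2 * L1 ^ 2) * ((S.card : ℝ) * (Q : ℝ) ^ (-c1)) := by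
      rw [hW]
      ring
    rw [e4, e1, e2]
    have e5 := mul_le_mul_of_nonneg_right e3 (mul_nonneg hV hQc0)
    refine e5.trans (le_of_eq ?_)
    ring
  · intro p hp
    obtain ⟨hR0, hRD, hd, hmR⟩ := z2b_R Q D1 m0 hm01 p hp
    have hRQ : Rf m0 p ≤ Q := hRD.trans hD1Q
    have e1 := h1 Q hQQ1 B hB P hP ι S g hF (Rf m0 p) hR0 hRD (hdvd.trans hmR)
    rw [hW]
    refine le_trans ?_ (mul_le_mul_of_nonneg_left e1 (sq_nonneg L1))
    rw [Finset.mul_sum]
    refine Finset.sum_le_sum fun x _ => ?_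
    rw [hfdef]
    beta_reduce
    rw [norm_mul, Complex.norm_real, mul_pow, Real.norm_eq_abs, sq_abs]
    refine mul_le_mul_of_nonneg_right ?_ (sq_nonneg _)
    exact pow_le_pow_left₀ (norm_nonneg _) (z2b_MR Q p (Rf m0 p) hR0 hRQ _) 2

end Pool.Agent.HUP
end

-- from Lib.HUP.R3
section

/-!
# Project HUP, module R (the modules of H24P for an abstract family), R3: tuples of characters with small modulus
-/

open Finset Polynomial

namespace Pool.Agent.HUP

open Pool.Agent.Lib.H68T Pool.Agent.Lib.H18Q Pool.Agent.Lib.H59P Pool.Agent.Lib.H24P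

/-- **R3** (port of `Z1_small`, H24P/Z1S.lean). Proof. As there, `Z1S_main` (unchanged) for the `κ` with `lcm(R, κ) ≤ D`,
`FGood` for the others. -/
theorem R3_small (k A E : ℕ) (Cc cc : ℝ) (hC : FPar Cc cc) : ∃ c : ℝ, 0 < c ∧ ∃ Q0 : ℕ, ∀ Q : ℕ, Q0 ≤ Q →
    ∀ B : ℤ[X], Lin A B → ∀ P : Fin k → ℤ[X], Pol A P → ∀ m0 : ℕ, 1 ≤ m0 →
    B.leadingCoeff.natAbs ∣ m0 → ∀ p ∈ TSf (k + 1) Q (fl Q (1 / 16)) m0,
    ∀ (ι : Type) (S : Finset ι) (g : ι → Fin k → ℕ), FGood E Cc cc (Q ^ 2) P S g →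
    ∀ a H : ℕ, Q ^ 600 ≤ H → Q ^ E ≤ H →
    ∑ x ∈ S, ‖∑ n ∈ Ico a (a + H), Fc (Q ^ 100) (p 0) (B.eval (n : ℤ)) *
        ∏ i : Fin k, Fc Q (p i.succ) ((P i).eval (n : ℤ) + g x i) -
      H * (MRf p (Rf m0 p) (sys B P (g x)) *
        ((∑ d ∈ SF (fl Q (1 / 2) / Rf m0 p) (Rf m0 p), tdf d (sys B P (g x)) : ℝ) : ℂ))‖ ^ 2 ≤
      S.card * H ^ 2 * (Q : ℝ) ^ (-c) := by
  classical
  have hCc := hC.one
  have hcc0 := hC.pos
  have hcc1 := hC.le
  obtain ⟨Q1, hmain⟩ := Z1S_main k A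
  obtain ⟨Q2, hQ21, hsize⟩ := G1_size A
  obtain ⟨Q3, hQ31, hlog⟩ := G1_rlog (4 * (Cc * 20000 * 100 ^ 9)) (Cc + 9) (cc / 8) (by positivity)
  refine ⟨cc / 8, by positivity, max 2 (max Q1 (max Q2 Q3)), ?_⟩
  intro Q hQ B hB P hP m0 hm0 ham0 p hp ι S g hF a H hH hHE
  have hA : 1 ≤ A := by
    have h1 := b4_lc B hB.deg
    have h2 := hB.lc
    omega
  have hQ2 : 2 ≤ Q := (le_max_left _ _).trans hQ
  have hQ1' : Q1 ≤ Q := ((le_max_left _ _).trans (le_max_right _ _)).trans hQ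
  have hQ2' : Q2 ≤ Q :=
    ((le_max_left _ _).trans ((le_max_right _ _).trans (le_max_right _ _))).trans hQ
  have hQ3' : Q3 ≤ Q :=
    ((le_max_right _ _).trans ((le_max_right _ _).trans (le_max_right _ _))).trans hQ
  have hQr : (2 : ℝ) ≤ Q := by exact_mod_cast hQ2
  have hQ0 : (0 : ℝ) < Q := by linarith
  have hQr1 : (1 : ℝ) ≤ Q := by linarith
  have hlQ : 0 ≤ Real.log Q := Real.log_nonneg hQr1
  have hp' : (∀ i, p i ∈ PC Q) ∧ Rf m0 p ≤ fl Q (1 / 16) := by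
    unfold TSf at hp
    rw [mem_filter, Fintype.mem_piFinset] at hp
    exact hp
  obtain ⟨hpPC, hRle⟩ := hp'
  obtain ⟨R, hRdef⟩ : ∃ R, R = Rf m0 p := ⟨_, rfl⟩
  rw [← hRdef] at hRle ⊢
  have hm0R : m0 ∣ R := by
    rw [hRdef]
    exact Nat.dvd_lcm_left _ _
  have hpR : ∀ i, (p i).1 ∣ R := by
    intro i
    rw [hRdef]
    exact (Finset.dvd_lcm (f := fun i => (p i).1) (mem_univ i)).trans (Nat.dvd_lcm_right _ _)
  have hR1 : 1 ≤ R := by
    rw [hRdef]
    refine Nat.pos_of_ne_zero (Nat.lcm_ne_zero (by omega) ?_)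
    rw [Finset.lcm_ne_zero_iff]
    intro i _
    have := (mem_PC.1 (hpPC i)).1
    omega
  obtain ⟨-, -, -, hDD, hDR⟩ := hsize Q hQ2' 1 1 (le_refl _) hA (by rw [one_pow]; omega)
  have hDR' := hDR R hR1 hRle
  obtain ⟨D, hD⟩ : ∃ D, D = fl Q (1 / 2) := ⟨_, rfl⟩
  rw [← hD] at hDD hDR' ⊢
  -- splitting of the tuples `κ`
  set K : Finset (Fin k → ℕ) := Fintype.piFinset fun i : Fin k => KS Q (p i.succ).1 with hK
  set T : Finset (Fin k → ℕ) := K.filter (fun κ => ¬ R.lcm (univ.lcm κ) ≤ D) with hT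
  set w : ℕ → ℂ := fun n => Fc (Q ^ 100) (p 0) (B.eval (n : ℤ)) with hw
  have hprod : ∀ (h : Fin k → ℕ) (n : ℕ), ∏ i : Fin k, Fc Q (p i.succ) ((P i).eval (n : ℤ) + h i) =
      ∑ κ ∈ K.filter (fun κ => R.lcm (univ.lcm κ) ≤ D),
        ∏ i, gk (p i.succ) (κ i) ((P i).eval (n : ℤ) + h i) +
      ∑ κ ∈ T, ∏ i, gk (p i.succ) (κ i) ((P i).eval (n : ℤ) + h i) := by
    intro h n
    rw [hT, Finset.sum_filter_add_sum_filter_not]
    unfold Fc
    rw [Finset.prod_univ_sum]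
  have hF' := hF Q (by omega) (Nat.le_self_pow (by norm_num) Q) (fun i => p i.succ) (fun i => hpPC i.succ) T
    (Finset.filter_subset _ _) (D / R) (by
      have h1 : (0 : ℝ) < (Q : ℝ) ^ (1 / 4 : ℝ) := Real.rpow_pos_of_pos hQ0 _
      have h2 : (0 : ℝ) < ((D / R : ℕ) : ℝ) := lt_of_lt_of_le h1 hDR'
      exact_mod_cast h2) (by
      intro κ hκ
      rw [hT, mem_filter] at hκ
      have hκK := Fintype.mem_piFinset.1 (by rw [hK] at hκ; exact hκ.1)
      have h1 : D < R.lcm (univ.lcm κ) := not_le.1 hκ.2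
      have h2 : univ.lcm κ ∣ univ.lcm (fun i => (p i.succ).1 * κ i) :=
        Finset.lcm_dvd fun i _ => (dvd_mul_left (κ i) _).trans
          (Finset.dvd_lcm (f := fun i => (p i.succ).1 * κ i) (mem_univ i))
      have h3 : 0 < univ.lcm (fun i => (p i.succ).1 * κ i) := by
        refine Nat.pos_of_ne_zero ?_
        rw [Finset.lcm_ne_zero_iff]
        intro i _
        have e1 := (mem_PC.1 (hpPC i.succ)).1
        have e2 := (CA_mem_KS.1 (hκK i)).1.1
        have := Nat.mul_pos e1 e2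
        omega
      have h4 := Nat.le_of_dvd h3 h2
      have h5 : R.lcm (univ.lcm κ) ≤ R * univ.lcm κ :=
        Nat.le_of_dvd (Nat.mul_pos (by omega) (Nat.pos_of_dvd_of_pos h2 h3)) (Nat.lcm_dvd_mul _ _)
      refine lt_of_lt_of_le ?_ h4
      rw [Nat.div_lt_iff_lt_mul (by omega), mul_comm]
      omega) a H hHE w
  have hB5 := B5_sq (Q ^ 100) A (Nat.one_le_pow _ _ (by omega)) (p 0) (z1s_PC (by omega) (hpPC 0)) B hB a H
    (by
      rw [← pow_mul]
      exact (Nat.pow_le_pow_right (by omega) (by norm_num)).trans hH)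
  have hv : (0 : ℝ) ≤ S.card := Nat.cast_nonneg _
  have hH1 : (1 : ℝ) ≤ H := by
    have : 1 ≤ H := (Nat.one_le_pow 600 Q (by omega)).trans hH
    exact_mod_cast this
  have hlog100 : (1 + Real.log ((Q ^ 100 : ℕ) : ℝ)) ^ 9 ≤ 100 ^ 9 * (1 + Real.log Q) ^ 9 := by
    rw [← mul_pow]
    apply pow_le_pow_left₀
    · have : 0 ≤ Real.log ((Q ^ 100 : ℕ) : ℝ) := Real.log_natCast_nonneg _
      linarith
    · push_cast
      rw [Real.log_pow]
      push_cast
      linarith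
  have hw2 : ∑ n ∈ Ico a (a + H), ‖w n‖ ^ 2 ≤ 20000 * (100 ^ 9 * (1 + Real.log Q) ^ 9) * H := by
    refine hB5.trans ?_
    apply mul_le_mul_of_nonneg_right _ (by linarith)
    exact mul_le_mul_of_nonneg_left hlog100 (by norm_num)
  have hDneg : ((D / R : ℕ) : ℝ) ^ (-cc) ≤ (Q : ℝ) ^ (-(cc / 4)) := by
    calc ((D / R : ℕ) : ℝ) ^ (-cc) ≤ ((Q : ℝ) ^ (1 / 4 : ℝ)) ^ (-cc) :=
          Real.rpow_le_rpow_of_nonpos (Real.rpow_pos_of_pos hQ0 _) hDR' (by linarith)
      _ = (Q : ℝ) ^ (-(cc / 4)) := by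
          rw [← Real.rpow_mul hQ0.le]
          congr 1
          ring
  have hlogv := hlog Q hQ3'
  have hL0 : 0 < 1 + Real.log Q := by linarith
  have hlarge : ∑ x ∈ S, ‖∑ n ∈ Ico a (a + H), w n *
        ∑ κ ∈ T, ∏ i, gk (p i.succ) (κ i) ((P i).eval (n : ℤ) + g x i)‖ ^ 2 ≤
      1 / 4 * ((S.card : ℝ) * H ^ 2 * (Q : ℝ) ^ (-(cc / 8))) := by
    refine hF'.trans ?_
    have hCcp : 0 ≤ Cc * (1 + Real.log Q) ^ Cc * (S.card : ℝ) := by positivity
    calc Cc * (1 + Real.log Q) ^ Cc * (S.card : ℝ) * (H * ∑ n ∈ Ico a (a + H), ‖w n‖ ^ 2) *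
          ((D / R : ℕ) : ℝ) ^ (-cc)
        ≤ Cc * (1 + Real.log Q) ^ Cc * (S.card : ℝ) *
          (H * (20000 * (100 ^ 9 * (1 + Real.log Q) ^ 9) * H)) * (Q : ℝ) ^ (-(cc / 4)) := by
          apply mul_le_mul _ hDneg (by positivity) (by positivity)
          apply mul_le_mul_of_nonneg_left _ hCcp
          exact mul_le_mul_of_nonneg_left hw2 (by linarith)
      _ = 1 / 4 * ((S.card : ℝ) * H ^ 2 * ((4 * (Cc * 20000 * 100 ^ 9) * (1 + Real.log Q) ^ (Cc + 9)) *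
          (Q : ℝ) ^ (-(cc / 4)))) := by
          rw [Real.rpow_add hL0]
          have : (1 + Real.log Q) ^ (9 : ℝ) = (1 + Real.log Q) ^ 9 := by
            exact_mod_cast Real.rpow_natCast (1 + Real.log Q) 9
          rw [this]
          ring
      _ ≤ 1 / 4 * ((S.card : ℝ) * H ^ 2 * ((Q : ℝ) ^ (cc / 8) * (Q : ℝ) ^ (-(cc / 4)))) := by
          gcongr
      _ = 1 / 4 * ((S.card : ℝ) * H ^ 2 * (Q : ℝ) ^ (-(cc / 8))) := by
          rw [← Real.rpow_add hQ0]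
          congr 3
          ring
  -- the main part
  have hsmall : ∀ h : Fin k → ℕ, ‖∑ n ∈ Ico a (a + H), w n *
        ∑ κ ∈ K.filter (fun κ => R.lcm (univ.lcm κ) ≤ D),
          ∏ i, gk (p i.succ) (κ i) ((P i).eval (n : ℤ) + h i) -
      H * (MRf p R (sys B P h) * ((∑ d ∈ SF (D / R) R, tdf d (sys B P h) : ℝ) : ℂ))‖ ^ 2 ≤
      1 / 4 * (H ^ 2 * (Q : ℝ) ^ (-(cc / 8))) := by
    intro h
    have h1 := hmain Q hQ1' B hB P R D hR1 (ham0.trans hm0R) hDD p hpPC hpR a H h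
    refine (pow_le_pow_left₀ (norm_nonneg _) h1 2).trans ?_
    have h2 : (Q : ℝ) ^ (-(1 : ℝ)) ≤ (Q : ℝ) ^ (-(cc / 8)) :=
      Real.rpow_le_rpow_of_exponent_le hQr1 (by linarith)
    have h3 : (Q : ℝ) ^ (-(1 : ℝ)) = (Q : ℝ)⁻¹ := Real.rpow_neg_one _
    have hHr : (Q : ℝ) ^ 600 ≤ H := by exact_mod_cast hH
    calc ((Q : ℝ) ^ 410) ^ 2 = 1 / 4 * (4 * (Q : ℝ) ^ 820) := by ring
      _ ≤ 1 / 4 * ((Q : ℝ) ^ 2 * (Q : ℝ) ^ 820) := by
          have : (4 : ℝ) ≤ Q ^ 2 := by nlinarith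
          gcongr
      _ ≤ 1 / 4 * (((Q : ℝ) ^ 600) ^ 2 * (Q : ℝ)⁻¹) := by
          rw [← pow_mul, ← pow_add]
          have : (Q : ℝ) ^ (600 * 2) * (Q : ℝ)⁻¹ = (Q : ℝ) ^ 1199 := by
            field_simp
          rw [this]
          have : (Q : ℝ) ^ (2 + 820) ≤ (Q : ℝ) ^ 1199 := pow_le_pow_right₀ hQr1 (by norm_num)
          exact mul_le_mul_of_nonneg_left this (by norm_num)
      _ ≤ 1 / 4 * (H ^ 2 * (Q : ℝ) ^ (-(cc / 8))) := by
          rw [← h3]
          have h5 : 0 ≤ (Q : ℝ) ^ (-(1 : ℝ)) := Real.rpow_nonneg hQ0.le _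
          have h4 : ((Q : ℝ) ^ 600) ^ 2 ≤ (H : ℝ) ^ 2 := pow_le_pow_left₀ (by positivity) hHr 2
          have := mul_le_mul h4 h2 h5 (by positivity)
          linarith
  have hsplit : ∀ h : Fin k → ℕ, ‖∑ n ∈ Ico a (a + H), Fc (Q ^ 100) (p 0) (B.eval (n : ℤ)) *
        ∏ i : Fin k, Fc Q (p i.succ) ((P i).eval (n : ℤ) + h i) -
      H * (MRf p R (sys B P h) * ((∑ d ∈ SF (D / R) R, tdf d (sys B P h) : ℝ) : ℂ))‖ ^ 2 ≤
      2 * (1 / 4 * (H ^ 2 * (Q : ℝ) ^ (-(cc / 8)))) + 2 * ‖∑ n ∈ Ico a (a + H), w n *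
        ∑ κ ∈ T, ∏ i, gk (p i.succ) (κ i) ((P i).eval (n : ℤ) + h i)‖ ^ 2 := by
    intro h
    have e1 : ∑ n ∈ Ico a (a + H), Fc (Q ^ 100) (p 0) (B.eval (n : ℤ)) *
        ∏ i : Fin k, Fc Q (p i.succ) ((P i).eval (n : ℤ) + h i) -
      H * (MRf p R (sys B P h) * ((∑ d ∈ SF (D / R) R, tdf d (sys B P h) : ℝ) : ℂ)) =
      (∑ n ∈ Ico a (a + H), w n *
        ∑ κ ∈ K.filter (fun κ => R.lcm (univ.lcm κ) ≤ D),
          ∏ i, gk (p i.succ) (κ i) ((P i).eval (n : ℤ) + h i) -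
      H * (MRf p R (sys B P h) * ((∑ d ∈ SF (D / R) R, tdf d (sys B P h) : ℝ) : ℂ))) +
      ∑ n ∈ Ico a (a + H), w n *
        ∑ κ ∈ T, ∏ i, gk (p i.succ) (κ i) ((P i).eval (n : ℤ) + h i) := by
      have e2 : ∑ n ∈ Ico a (a + H), Fc (Q ^ 100) (p 0) (B.eval (n : ℤ)) *
          ∏ i : Fin k, Fc Q (p i.succ) ((P i).eval (n : ℤ) + h i) =
          ∑ n ∈ Ico a (a + H), w n *
            ∑ κ ∈ K.filter (fun κ => R.lcm (univ.lcm κ) ≤ D),
              ∏ i, gk (p i.succ) (κ i) ((P i).eval (n : ℤ) + h i) +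
          ∑ n ∈ Ico a (a + H), w n *
            ∑ κ ∈ T, ∏ i, gk (p i.succ) (κ i) ((P i).eval (n : ℤ) + h i) := by
        rw [← Finset.sum_add_distrib]
        refine Finset.sum_congr rfl fun n _ => ?_
        rw [hprod h n, mul_add]
      rw [e2]
      ring
    rw [e1]
    refine (z1s_sq _ _).trans ?_
    have := hsmall h
    linarith
  refine (Finset.sum_le_sum fun x _ => hsplit (g x)).trans ?_
  rw [Finset.sum_add_distrib, Finset.sum_const, nsmul_eq_mul, ← Finset.mul_sum]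
  have e3 : (S.card : ℝ) * (2 * (1 / 4 * ((H : ℝ) ^ 2 * (Q : ℝ) ^ (-(cc / 8))))) =
      1 / 2 * ((S.card : ℝ) * H ^ 2 * (Q : ℝ) ^ (-(cc / 8))) := by ring
  rw [e3]
  linarith

end Pool.Agent.HUP
end

-- from Lib.HUP.R4
section

/-!
# Project HUP, module R (the modules of H24P for an abstract family), R4: tuples of characters with large modulus
-/

open Finset Polynomial

namespace Pool.Agent.HUP

open Pool.Agent.Lib.H68T Pool.Agent.Lib.H18Q Pool.Agent.Lib.H59P Pool.Agent.Lib.H24P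

/-- **R4** (port of `Z1_large`, H24P/Z1L.lean). Proof. As there with `FGood` instead of `Fgen`; `z1l_small` unchanged. -/
theorem R4_large (k A E : ℕ) (hA : 1 ≤ A) (Cc cc : ℝ) (hC : FPar Cc cc) : ∃ c : ℝ, 0 < c ∧ ∃ Q0 : ℕ, ∀ Q : ℕ, Q0 ≤ Q →
    ∀ B : ℤ[X], Lin A B → ∀ P : Fin k → ℤ[X], Pol A P → ∀ r : ℕ, 1 ≤ r → r ^ 100 ≤ Q →
    ∀ p : Fin (k + 1) → Ch, p 0 ∈ PC (Q ^ 100) → (∀ i : Fin k, p i.succ ∈ PC Q) →
    p ∉ TSf (k + 1) Q (fl Q (1 / 16)) (B.leadingCoeff.natAbs * r) →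
    ∀ (ι : Type) (S : Finset ι) (g : ι → Fin k → ℕ), FGood E Cc cc (Q ^ 2) P S g →
    ∀ a H : ℕ, Q ^ 600 ≤ H → Q ^ E ≤ H →
    ∑ x ∈ S, ‖∑ n ∈ Ico a (a + H), Fc (Q ^ 100) (p 0) (B.eval (n : ℤ)) *
        ∏ i : Fin k, Fc Q (p i.succ) ((P i).eval (n : ℤ) + g x i)‖ ^ 2 ≤
      S.card * H ^ 2 * (Q : ℝ) ^ (-c) := by
  classical
  have hCc := hC.one
  have hcc0 := hC.pos
  have hcc1 := hC.le
  obtain ⟨Q2, hQ21, hsize⟩ := G1_size A
  set x7 : ℝ := 1 / (256 * ((k : ℝ) + 1)) with hx7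
  have hk0 : (0 : ℝ) ≤ k := Nat.cast_nonneg k
  have hx70 : 0 < x7 := by positivity
  have hx71 : x7 ≤ 1 / 256 := by
    rw [hx7]
    apply one_div_le_one_div_of_le (by norm_num)
    linarith
  set δ : ℝ := cc * x7 with hδ
  have hδ0 : 0 < δ := by positivity
  have hδ1 : δ ≤ 1 / 256 := by
    calc δ ≤ 1 * x7 := mul_le_mul_of_nonneg_right hcc1 hx70.le
      _ ≤ 1 / 256 := by rw [one_mul]; exact hx71
  obtain ⟨Q3, hQ31, hlog⟩ := G1_rlog (8 * (Cc * 20000 * 100 ^ 9)) (Cc + 9) (δ / 2) (by positivity)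
  refine ⟨δ / 2, by positivity, max 2 (max Q2 Q3), ?_⟩
  intro Q hQ B hB P hP r hr hrQ p hp0 hp hpT ι S g hF a H hH hHE
  have hQ2 : 2 ≤ Q := (le_max_left _ _).trans hQ
  have hQ2' : Q2 ≤ Q := ((le_max_left _ _).trans (le_max_right _ _)).trans hQ
  have hQ3' : Q3 ≤ Q := ((le_max_right _ _).trans (le_max_right _ _)).trans hQ
  have hQr : (2 : ℝ) ≤ Q := by exact_mod_cast hQ2
  have hQ0 : (0 : ℝ) < Q := by linarith
  have hQr1 : (1 : ℝ) ≤ Q := by linarith
  have hlQ : 0 ≤ Real.log Q := Real.log_nonneg hQr1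
  have hv : (0 : ℝ) ≤ S.card := Nat.cast_nonneg _
  have hQH : Q ≤ H := (Nat.le_self_pow (by norm_num) Q).trans hH
  have hH1 : (1 : ℝ) ≤ H := by
    have : 1 ≤ H := by omega
    exact_mod_cast this
  have ha1 : 1 ≤ B.leadingCoeff.natAbs := b4_lc B hB.deg
  -- the weight
  set w : ℕ → ℂ := fun n => Fc (Q ^ 100) (p 0) (B.eval (n : ℤ)) with hw
  have hB5 := B5_sq (Q ^ 100) A (Nat.one_le_pow _ _ (by omega)) (p 0) hp0 B hB a H
    (by
      rw [← pow_mul]
      exact (Nat.pow_le_pow_right (by omega) (by norm_num)).trans hH)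
  have hlog100 : (1 + Real.log ((Q ^ 100 : ℕ) : ℝ)) ^ 9 ≤ 100 ^ 9 * (1 + Real.log Q) ^ 9 := by
    rw [← mul_pow]
    apply pow_le_pow_left₀
    · have : 0 ≤ Real.log ((Q ^ 100 : ℕ) : ℝ) := Real.log_natCast_nonneg _
      linarith
    · push_cast
      rw [Real.log_pow]
      push_cast
      linarith
  have hw2 : ∑ n ∈ Ico a (a + H), ‖w n‖ ^ 2 ≤ 20000 * (100 ^ 9 * (1 + Real.log Q) ^ 9) * H := by
    refine hB5.trans ?_
    apply mul_le_mul_of_nonneg_right _ (by linarith)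
    exact mul_le_mul_of_nonneg_left hlog100 (by norm_num)
  have hlogv := hlog Q hQ3'
  have hL0 : 0 < 1 + Real.log Q := by linarith
  -- the general bound from `Fgen`
  have hgen : ∀ (T : Finset (Fin k → ℕ)), T ⊆ Fintype.piFinset (fun i : Fin k => KS Q (p i.succ).1) →
      ∀ D : ℕ, 1 ≤ D → (∀ κ ∈ T, D < univ.lcm (fun i : Fin k => (p i.succ).1 * κ i)) →
      (D : ℝ) ^ (-cc) ≤ 2 * (Q : ℝ) ^ (-δ) →
      ∑ x ∈ S, ‖∑ n ∈ Ico a (a + H), w n *
        ∑ κ ∈ T, ∏ i, gk (p i.succ) (κ i) ((P i).eval (n : ℤ) + g x i)‖ ^ 2 ≤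
      1 / 4 * ((S.card : ℝ) * H ^ 2 * (Q : ℝ) ^ (-(δ / 2))) := by
    intro T hT D hD hTD hDn
    refine (hF Q (by omega) (Nat.le_self_pow (by norm_num) Q) (fun i => p i.succ) hp T hT D hD hTD a H
      hHE w).trans ?_
    have hCcp : 0 ≤ Cc * (1 + Real.log Q) ^ Cc * (S.card : ℝ) := by positivity
    calc Cc * (1 + Real.log Q) ^ Cc * (S.card : ℝ) * (H * ∑ n ∈ Ico a (a + H), ‖w n‖ ^ 2) *
          (D : ℝ) ^ (-cc)
        ≤ Cc * (1 + Real.log Q) ^ Cc * (S.card : ℝ) *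
          (H * (20000 * (100 ^ 9 * (1 + Real.log Q) ^ 9) * H)) * (2 * (Q : ℝ) ^ (-δ)) := by
          apply mul_le_mul _ hDn (by positivity) (by positivity)
          apply mul_le_mul_of_nonneg_left _ hCcp
          exact mul_le_mul_of_nonneg_left hw2 (by linarith)
      _ = 1 / 4 * ((S.card : ℝ) * H ^ 2 * ((8 * (Cc * 20000 * 100 ^ 9) * (1 + Real.log Q) ^ (Cc + 9)) *
          (Q : ℝ) ^ (-δ))) := by
          rw [Real.rpow_add hL0]
          have : (1 + Real.log Q) ^ (9 : ℝ) = (1 + Real.log Q) ^ 9 := by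
            exact_mod_cast Real.rpow_natCast (1 + Real.log Q) 9
          rw [this]
          ring
      _ ≤ 1 / 4 * ((S.card : ℝ) * H ^ 2 * ((Q : ℝ) ^ (δ / 2) * (Q : ℝ) ^ (-δ))) := by
          gcongr
      _ = 1 / 4 * ((S.card : ℝ) * H ^ 2 * (Q : ℝ) ^ (-(δ / 2))) := by
          rw [← Real.rpow_add hQ0]
          congr 3
          ring
  obtain ⟨h51, h52, h53⟩ := G1_one (Q := Q) (x := 1 / 32) (by omega) (by norm_num)
  obtain ⟨h71, h72, h73⟩ := G1_one (Q := Q) (x := x7) (by omega) hx70.le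
  have h2cc : (2 : ℝ) ^ cc ≤ 2 := by
    calc (2 : ℝ) ^ cc ≤ 2 ^ (1 : ℝ) := Real.rpow_le_rpow_of_exponent_le (by norm_num) hcc1
      _ = 2 := Real.rpow_one 2
  have hneg : ∀ x : ℝ, x7 ≤ x → (fl Q x : ℝ) ^ (-cc) ≤ 2 * (Q : ℝ) ^ (-δ) := by
    intro x hx
    refine (G1_neg (by omega) (hx70.le.trans hx) hcc0.le).trans ?_
    apply mul_le_mul h2cc _ (by positivity) (by norm_num)
    apply Real.rpow_le_rpow_of_exponent_le hQr1
    have := mul_le_mul_of_nonneg_left hx hcc0.le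
    rw [hδ]
    linarith
  have hprod : ∀ (h : Fin k → ℕ) (n : ℕ), ∏ i : Fin k, Fc Q (p i.succ) ((P i).eval (n : ℤ) + h i) =
      ∑ κ ∈ Fintype.piFinset (fun i : Fin k => KS Q (p i.succ).1),
        ∏ i, gk (p i.succ) (κ i) ((P i).eval (n : ℤ) + h i) := fun h n =>
    z1l_prod Q P (fun i => p i.succ) h n
  have hfin0 : 0 ≤ (S.card : ℝ) * H ^ 2 * (Q : ℝ) ^ (-(δ / 2)) := by positivity
  by_cases hcase : fl Q (1 / 32) < univ.lcm (fun i : Fin k => (p i.succ).1)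
  · -- case (i)
    have h1 := hgen (Fintype.piFinset (fun i : Fin k => KS Q (p i.succ).1)) (Finset.Subset.refl _)
      (fl Q (1 / 32)) h51 (by
        intro κ hκ
        refine lt_of_lt_of_le hcase ?_
        rw [Fintype.mem_piFinset] at hκ
        refine Nat.le_of_dvd ?_ (Finset.lcm_dvd fun i _ => (dvd_mul_right _ (κ i)).trans
          (Finset.dvd_lcm (f := fun i : Fin k => (p i.succ).1 * κ i) (mem_univ i)))
        refine Nat.pos_of_ne_zero ?_
        rw [Finset.lcm_ne_zero_iff]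
        intro i _
        have := Nat.mul_pos (mem_PC.1 (hp i)).1 (CA_mem_KS.1 (hκ i)).1.1
        omega) (hneg (1 / 32) (by linarith))
    calc ∑ x ∈ S, ‖∑ n ∈ Ico a (a + H), Fc (Q ^ 100) (p 0) (B.eval (n : ℤ)) *
        ∏ i : Fin k, Fc Q (p i.succ) ((P i).eval (n : ℤ) + g x i)‖ ^ 2
        = ∑ x ∈ S, ‖∑ n ∈ Ico a (a + H), w n *
          ∑ κ ∈ Fintype.piFinset (fun i : Fin k => KS Q (p i.succ).1),
            ∏ i, gk (p i.succ) (κ i) ((P i).eval (n : ℤ) + g x i)‖ ^ 2 := by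
          refine Finset.sum_congr rfl fun x _ => ?_
          congr 2
          refine Finset.sum_congr rfl fun n _ => ?_
          rw [hprod (g x) n]
      _ ≤ _ := h1
      _ ≤ _ := by linarith
  · -- case (ii)
    have hcase' : univ.lcm (fun i : Fin k => (p i.succ).1) ≤ fl Q (1 / 32) := not_lt.1 hcase
    obtain ⟨hs1, hs2, hs3, -, -⟩ := hsize Q hQ2' r B.leadingCoeff.natAbs ha1 hB.lc hrQ
    have hfl7 : fl Q x7 ≤ fl Q (1 / 128) := by
      unfold fl
      apply Nat.floor_le_floor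
      exact Real.rpow_le_rpow_of_exponent_le hQr1 (by linarith)
    have hfl1Q : fl Q (1 / 16) ≤ Q := G1_le (by omega) (by norm_num) (by norm_num)
    have hpos : 0 < B.leadingCoeff.natAbs * r * fl Q (1 / 32) :=
      Nat.mul_pos (Nat.mul_pos ha1 hr) h51
    have hp0large : B.leadingCoeff.natAbs * fl Q x7 < (p 0).1 := by
      refine lt_of_le_of_lt (Nat.mul_le_mul_left _ hfl7) ?_
      by_cases hp0Q : p 0 ∈ PC Q
      · have hpall : ∀ i, p i ∈ PC Q := fun i => Fin.cases hp0Q hp i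
        have hnot : ¬ (B.leadingCoeff.natAbs * r).lcm (univ.lcm fun i => (p i).1) ≤ fl Q (1 / 16) := by
          intro hle
          apply hpT
          unfold TSf
          rw [mem_filter, Fintype.mem_piFinset]
          exact ⟨hpall, hle⟩
        rw [not_le] at hnot
        have hdv : univ.lcm (fun i : Fin (k + 1) => (p i).1) ∣
            (p 0).1 * univ.lcm (fun i : Fin k => (p i.succ).1) := by
          refine Finset.lcm_dvd fun i _ => ?_
          refine Fin.cases (dvd_mul_right _ _) (fun j => ?_) i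
          exact (Finset.dvd_lcm (f := fun i : Fin k => (p i.succ).1) (mem_univ j)).trans
            (dvd_mul_left _ _)
        have hl1 : 0 < univ.lcm (fun i : Fin k => (p i.succ).1) := by
          refine Nat.pos_of_ne_zero ?_
          rw [Finset.lcm_ne_zero_iff]
          intro i _
          have := (mem_PC.1 (hp i)).1
          omega
        have hp01 : 0 < (p 0).1 := (mem_PC.1 hp0).1
        have hle : (B.leadingCoeff.natAbs * r).lcm (univ.lcm fun i => (p i).1) ≤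
            B.leadingCoeff.natAbs * r * ((p 0).1 * fl Q (1 / 32)) := by
          calc (B.leadingCoeff.natAbs * r).lcm (univ.lcm fun i => (p i).1)
              ≤ (B.leadingCoeff.natAbs * r) * ((p 0).1 * univ.lcm (fun i : Fin k => (p i.succ).1)) :=
                Nat.le_of_dvd (Nat.mul_pos (Nat.mul_pos ha1 hr) (Nat.mul_pos hp01 hl1))
                  ((Nat.lcm_dvd_mul _ _).trans (Nat.mul_dvd_mul_left _ hdv))
            _ ≤ _ := Nat.mul_le_mul_left _ (Nat.mul_le_mul_left _ hcase')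
        have h1 : B.leadingCoeff.natAbs * r * fl Q (1 / 32) *
            (B.leadingCoeff.natAbs * fl Q (1 / 128)) <
            B.leadingCoeff.natAbs * r * fl Q (1 / 32) * (p 0).1 := by
          calc _ < fl Q (1 / 16) := hs3
            _ < _ := hnot
            _ ≤ _ := hle
            _ = _ := by ring
        exact lt_of_mul_lt_mul_left h1 (Nat.zero_le _)
      · have h1 : Q < (p 0).1 := by
          by_contra hle
          rw [not_lt] at hle
          obtain ⟨g1, -, g3⟩ := mem_PC.1 hp0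
          exact hp0Q (mem_PC.2 ⟨g1, hle, g3⟩)
        have h2 : B.leadingCoeff.natAbs * fl Q (1 / 128) ≤
            B.leadingCoeff.natAbs * r * fl Q (1 / 32) * (B.leadingCoeff.natAbs * fl Q (1 / 128)) :=
          Nat.le_mul_of_pos_left _ hpos
        omega
    set K : Finset (Fin k → ℕ) := Fintype.piFinset (fun i : Fin k => KS Q (p i.succ).1) with hK
    have hT := hgen (K.filter (fun κ => fl Q x7 < univ.lcm (fun i : Fin k => (p i.succ).1 * κ i)))
      (Finset.filter_subset _ _) (fl Q x7) h71 (fun κ hκ => (mem_filter.1 hκ).2) (hneg x7 (le_refl _))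
    have hsm : ∀ h : Fin k → ℕ, ‖∑ n ∈ Ico a (a + H), w n *
        ∑ κ ∈ K.filter (fun κ => ¬ fl Q x7 < univ.lcm (fun i : Fin k => (p i.succ).1 * κ i)),
          ∏ i, gk (p i.succ) (κ i) ((P i).eval (n : ℤ) + h i)‖ ≤ (Q : ℝ) ^ 302 := by
      intro h
      refine (z1l_small Q (fl Q x7) (by omega) P (p 0) hp0 B hB.deg hp0large (fun i => p i.succ) hp
        a H h).trans ?_
      have h1 : ((fl Q x7 : ℕ) : ℝ) ^ (2 * k + 1) ≤ Q := by
        calc ((fl Q x7 : ℕ) : ℝ) ^ (2 * k + 1) ≤ ((Q : ℝ) ^ x7) ^ (2 * k + 1) :=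
              pow_le_pow_left₀ (Nat.cast_nonneg _) h72 _
          _ = (Q : ℝ) ^ (x7 * ((2 * k + 1 : ℕ) : ℝ)) := by
              rw [Real.rpow_mul hQ0.le, Real.rpow_natCast]
          _ ≤ (Q : ℝ) ^ (1 : ℝ) := by
              apply Real.rpow_le_rpow_of_exponent_le hQr1
              rw [hx7]
              push_cast
              rw [one_div_mul_eq_div, div_le_one (by positivity)]
              linarith
          _ = Q := Real.rpow_one _
      calc 2 * (Q : ℝ) ^ 300 * ((fl Q x7 : ℕ) : ℝ) ^ (2 * k + 1) ≤ Q * (Q : ℝ) ^ 300 * Q := by gcongr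
        _ = (Q : ℝ) ^ 302 := by ring
    have hsm2 : ∀ h : Fin k → ℕ, ‖∑ n ∈ Ico a (a + H), w n *
        ∑ κ ∈ K.filter (fun κ => ¬ fl Q x7 < univ.lcm (fun i : Fin k => (p i.succ).1 * κ i)),
          ∏ i, gk (p i.succ) (κ i) ((P i).eval (n : ℤ) + h i)‖ ^ 2 ≤
        1 / 4 * (H ^ 2 * (Q : ℝ) ^ (-(δ / 2))) := by
      intro h
      refine (pow_le_pow_left₀ (norm_nonneg _) (hsm h) 2).trans ?_
      have h2 : (Q : ℝ) ^ (-(1 : ℝ)) ≤ (Q : ℝ) ^ (-(δ / 2)) :=
        Real.rpow_le_rpow_of_exponent_le hQr1 (by linarith)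
      have h3 : (Q : ℝ) ^ (-(1 : ℝ)) = (Q : ℝ)⁻¹ := Real.rpow_neg_one _
      have hHr : (Q : ℝ) ^ 600 ≤ H := by exact_mod_cast hH
      calc ((Q : ℝ) ^ 302) ^ 2 = 1 / 4 * (4 * (Q : ℝ) ^ 604) := by ring
        _ ≤ 1 / 4 * ((Q : ℝ) ^ 2 * (Q : ℝ) ^ 604) := by
            have : (4 : ℝ) ≤ Q ^ 2 := by nlinarith
            gcongr
        _ ≤ 1 / 4 * (((Q : ℝ) ^ 600) ^ 2 * (Q : ℝ)⁻¹) := by
            rw [← pow_mul, ← pow_add]
            have : (Q : ℝ) ^ (600 * 2) * (Q : ℝ)⁻¹ = (Q : ℝ) ^ 1199 := by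
              field_simp
            rw [this]
            have : (Q : ℝ) ^ (2 + 604) ≤ (Q : ℝ) ^ 1199 := pow_le_pow_right₀ hQr1 (by norm_num)
            exact mul_le_mul_of_nonneg_left this (by norm_num)
        _ ≤ 1 / 4 * (H ^ 2 * (Q : ℝ) ^ (-(δ / 2))) := by
            rw [← h3]
            have h5 : 0 ≤ (Q : ℝ) ^ (-(1 : ℝ)) := Real.rpow_nonneg hQ0.le _
            have h4 : ((Q : ℝ) ^ 600) ^ 2 ≤ (H : ℝ) ^ 2 := pow_le_pow_left₀ (by positivity) hHr 2
            have := mul_le_mul h4 h2 h5 (by positivity)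
            linarith
    have hsplit : ∀ h : Fin k → ℕ, ‖∑ n ∈ Ico a (a + H), Fc (Q ^ 100) (p 0) (B.eval (n : ℤ)) *
        ∏ i : Fin k, Fc Q (p i.succ) ((P i).eval (n : ℤ) + h i)‖ ^ 2 ≤
      2 * (1 / 4 * (H ^ 2 * (Q : ℝ) ^ (-(δ / 2)))) + 2 * ‖∑ n ∈ Ico a (a + H), w n *
        ∑ κ ∈ K.filter (fun κ => fl Q x7 < univ.lcm (fun i : Fin k => (p i.succ).1 * κ i)),
          ∏ i, gk (p i.succ) (κ i) ((P i).eval (n : ℤ) + h i)‖ ^ 2 := by
      intro h
      have e1 : ∑ n ∈ Ico a (a + H), Fc (Q ^ 100) (p 0) (B.eval (n : ℤ)) *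
          ∏ i : Fin k, Fc Q (p i.succ) ((P i).eval (n : ℤ) + h i) =
          ∑ n ∈ Ico a (a + H), w n *
          ∑ κ ∈ K.filter (fun κ => ¬ fl Q x7 < univ.lcm (fun i : Fin k => (p i.succ).1 * κ i)),
            ∏ i, gk (p i.succ) (κ i) ((P i).eval (n : ℤ) + h i) +
          ∑ n ∈ Ico a (a + H), w n *
          ∑ κ ∈ K.filter (fun κ => fl Q x7 < univ.lcm (fun i : Fin k => (p i.succ).1 * κ i)),
            ∏ i, gk (p i.succ) (κ i) ((P i).eval (n : ℤ) + h i) := by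
        rw [← Finset.sum_add_distrib]
        refine Finset.sum_congr rfl fun n _ => ?_
        rw [hprod h n, ← mul_add]
        congr 1
        exact ((add_comm _ _).trans (Finset.sum_filter_add_sum_filter_not K _ _)).symm
      rw [e1]
      refine (z1l_sq _ _).trans ?_
      have := hsm2 h
      linarith
    refine (Finset.sum_le_sum fun x _ => hsplit (g x)).trans ?_
    rw [Finset.sum_add_distrib, Finset.sum_const, nsmul_eq_mul, ← Finset.mul_sum]
    have e3 : (S.card : ℝ) * (2 * (1 / 4 * ((H : ℝ) ^ 2 * (Q : ℝ) ^ (-(δ / 2))))) =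
        1 / 2 * ((S.card : ℝ) * H ^ 2 * (Q : ℝ) ^ (-(δ / 2))) := by ring
    rw [e3]
    linarith

end Pool.Agent.HUP
end
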