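import Pool.Agent.Lib.H59M.M1.M026
import Pool.Agent.Lib.H59M.M1.M078
import Pool.Agent.Lib.H59M.M1.M079

/-! Merged copies (to shorten the build) of Lib.H9U.FDefs, Lib.H96U.Defs, Lib.HUP.Defs2, Lib.HUP.FG0, Lib.HUP.FGA3, Lib.HUP.FGC1, Lib.HUP.FGC3, Lib.HUP.FGC2, Lib.HUP.R11. -/

-- from Lib.H9U.FDefs
section

/-!
# Project H9U: the hand-ins (definitions)
-/

open Finset

namespace Pool.Agent.H9U

/-- `1 + ∑_i |a_i|` -/
def Sys.sa {k d : ℕ} (S : Sys k d) : ℕ := 1 + ∑ i, (S.a i).natAbs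

/-- `1 + ∑_(i,j) |c_ij|` -/
def Sys.sc {k d : ℕ} (S : Sys k d) : ℕ := 1 + ∑ i, ∑ j, (S.c i j).natAbs

/-- `t` is admissible, and the forms have few simultaneous prime values for `n` in `[n0, n0 + X)`. -/
def Sys.Few {k d : ℕ} (S : Sys k d) (b : Fin k → ℤ) (n0 : ℤ) (X : ℕ) (ε : ℝ) (t : Fin d → ℕ) : Prop :=
  S.Adm b (iv t) ∧
    (((range X).filter (fun n : ℕ => ∀ i, (S.val b (n0 + n) (iv t) i).toNat.Prime)).card : ℝ) < (X : ℝ) ^ (1 - ε)

end Pool.Agent.H9U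
end

-- from Lib.H96U.Defs
section

/-!
# The core statement for a system of linear forms, as a hypothesis

`CoreOf S`: the conclusion of `H9U.CORE` for the system `S`. Everything in this folder (boxes, covering, the two families
of the hand-ins) uses only this.
-/

open Finset

namespace Pool.Agent.H96U

open Pool.Agent.H9U
open Pool.Agent.Lib.H59P (bx)

open Classical in
/-- All but few `t` which are admissible have many simultaneous prime values (all values in the windows `JJ (Xs i)`). -/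
def CoreOf {k d : ℕ} (S : Sys k d) : Prop :=
  ∀ C0 : ℕ, 1 ≤ C0 → ∀ ε : ℝ, 0 < ε → ∃ κ : ℝ, 0 < κ ∧ ∃ X0 : ℕ, ∀ X : ℕ, X0 ≤ X →
    ∀ Xs : Fin k → ℕ, (∀ i, X ≤ Xs i ∧ Xs i ≤ C0 * X) → ∀ (b : Fin k → ℤ) (L T : ℕ), X ≤ L → L ≤ C0 * X → T ≤ C0 * X →
    (∀ i, ∀ n ∈ range L, ∀ t ∈ bx d T, S.val b n (iv t) i ∈ JJ (Xs i)) →
    (((bx d T).filter (fun t => S.Adm b (iv t) ∧
      (((range L).filter (fun n : ℕ => ∀ i, (S.val b n (iv t) i).toNat.Prime)).card : ℝ) < (X : ℝ) ^ (1 - ε))).card : ℝ) ≤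
      (X : ℝ) ^ (d - κ)

/-- No two of the linear forms are proportional, and all depend on `n`. -/
def Fin2 {k d : ℕ} (S : Sys k d) : Prop :=
  (∀ i, S.a i ≠ 0) ∧ ∀ i j, i ≠ j → ∃ l, S.a i * S.c j l ≠ S.a j * S.c i l

end Pool.Agent.H96U
end

-- from Lib.HUP.Defs2
section

/-!
# Projects HUP and HPC: uniform interfaces, one parameter allowed

The data are the forms `c`, the degrees `e j` of the parameters, the degrees `D i` and leading coefficients `a i` of the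
polynomials. Everything is uniform in the lower coefficients of the polynomials.
-/

open Finset Polynomial

namespace Pool.Agent.HUP

open Pool.Agent.Lib.H68T Pool.Agent.Lib.H18Q Pool.Agent.Lib.H59P Pool.Agent.Lib.H24P
open Pool.Agent.HUK (GG)

noncomputable section

/-- The polynomials have degrees `D` and leading coefficients `a`. -/
def HasD {k : ℕ} (D : Fin k → ℕ) (a : Fin k → ℤ) (P : Fin k → ℤ[X]) : Prop :=
  ∀ i, (P i).natDegree = D i ∧ (P i).leadingCoeff = a i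

/-- The condition on the data: degrees at least `1`, leading coefficients and forms not zero, and for two coordinates of
the same degree the vectors (leading coefficient, form) are linearly independent; a parameter occurs only in coordinates
of its degree. -/
structure Dat {k d : ℕ} (c : Fin k → Fin d → ℤ) (e : Fin d → ℕ) (D : Fin k → ℕ) (a : Fin k → ℤ) : Prop where
  deg : ∀ i, 1 ≤ D i
  lc : ∀ i, a i ≠ 0
  ne : ∀ i, ∃ j, c i j ≠ 0
  ind : ∀ i i', i ≠ i' → D i = D i' → ∀ x x' : ℤ, x * a i = x' * a i' → (∀ j, x * c i j = x' * c i' j) →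
    x = 0 ∧ x' = 0
  par : ∀ j, 1 ≤ e j
  blk : ∀ i j, c i j ≠ 0 → e j = D i

/-- **Interface: the second moment over the parameters.** One function (`i0`) with small `U^s` norm, all others (supported
in intervals of length `2 C0 X^(D i)`) and the weight `w` arbitrary bounded. -/
def FMT {k d : ℕ} (c : Fin k → Fin d → ℤ) (e : Fin d → ℕ) (D : Fin k → ℕ) (a : Fin k → ℤ) : Prop :=
  ∀ (i0 : Fin k) (C0 : ℕ), ∃ s : ℕ, 2 ≤ s ∧ ∀ κ : ℝ, 0 < κ → ∃ δ : ℝ, 0 < δ ∧ ∃ X0 : ℕ, ∀ X : ℕ, X0 ≤ X →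
    ∀ P : Fin k → ℤ[X], HasD D a P →
    ∀ (β : Fin k → ℤ) (b : Fin d → ℤ) (σ : Fin d → ℕ), (∀ j, σ j ≤ C0 * X ^ e j) →
    ∀ n0 N : ℕ, n0 + N ≤ C0 * X → ∀ w : ℕ → ℂ, (∀ n, ‖w n‖ ≤ 1) →
    ∀ f : Fin k → ℤ → ℂ, (∀ i m, ‖f i m‖ ≤ 1) →
    (∀ (i : Fin k) (m : ℤ), m ∉ Ico (-((C0 * X ^ D i : ℕ) : ℤ)) ((C0 * X ^ D i : ℕ) : ℤ) → f i m = 0) →
    Pool.Agent.HUK.GG (C0 * X ^ D i0) s (f i0) ≤ (X : ℝ) ^ ((D i0 : ℝ) * (s + 1) - κ) →
    ∑ t ∈ tb b σ, ‖∑ n ∈ Ico n0 (n0 + N), w n * ∏ i, f i ((P i).eval (n : ℤ) + (β i + lf c t i))‖ ^ 2 ≤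
      (X : ℝ) ^ (2 + (∑ j, (e j : ℝ)) - δ)

/-- The coordinates whose form is proportional to the form of `i0` and whose degree is the same. -/
def Kz {k d : ℕ} (c : Fin k → Fin d → ℤ) (D : Fin k → ℕ) (i0 : Fin k) : Finset (Fin k) :=
  open Classical in univ.filter fun i => D i = D i0 ∧ ∀ j j', c i j * c i0 j' = c i j' * c i0 j

/-- The large sieve, uniformly in the lower coefficients. -/
def FGTU {k d : ℕ} (c : Fin k → Fin d → ℤ) (D : Fin k → ℕ) (a : Fin k → ℤ) : Prop :=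
  ∃ (E : ℕ) (Cc cc : ℝ), FPar Cc cc ∧ ∀ P : Fin k → ℤ[X], HasD D a P →
  ∀ (Qm : ℕ) (b : Fin d → ℤ) (s : Fin d → ℕ) (β : Fin k → ℤ), 1 ≤ Qm → (∀ j, Qm ^ E ≤ s j) →
    (∀ t ∈ tb b s, ∀ i, 0 ≤ β i + lf c t i) → FGood E Cc cc Qm P (tb b s) (hh c β)

/-- The geometry, uniformly in the lower coefficients (`Geo` of H24P with `lo` replaced). -/
structure GeoU (A Q X X1 : ℕ) {k : ℕ} (P : Fin k → ℤ[X]) (M : Fin k → ℕ) : Prop where
  dvd : Q ^ 800 ∣ X1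
  pos : 0 < X1
  le : X1 ≤ X
  ge : X ≤ X1 * Q
  dvdM : ∀ i, 8 * Q ^ 8 ∣ M i
  lo : ∀ i j, 1000 * (A + 1) ^ 2 * ((P i).coeff j).natAbs * (2 * X1) ^ j ≤ M i
  hi : ∀ i, (M i : ℝ) ≤ (X1 : ℝ) ^ (P i).natDegree * (Q : ℝ) ^ (1 / 8 : ℝ)

/-- `S4T` uniformly in the lower coefficients. -/
def S4TU {k d : ℕ} (c : Fin k → Fin d → ℤ) (e : Fin d → ℕ) (D : Fin k → ℕ) (a : Fin k → ℤ) : Prop :=
  ∀ A : ℕ, (∀ i, D i ≤ A) → ∃ K : ℝ, 1 ≤ K ∧ ∀ C : ℝ, ∃ τ c0 : ℝ, 0 < τ ∧ τ ≤ 1 ∧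
    0 < c0 ∧ ∃ Q0 : ℕ, ∀ P : Fin k → ℤ[X], HasD D a P →
    ∀ (Q X X1 : ℕ) (M : Fin k → ℕ) (b : Fin d → ℤ) (s : Fin d → ℕ) (β : Fin k → ℤ), Q0 ≤ Q →
    Rg K C Q X → GeoU A Q X X1 P M → (X : ℝ) ≤ X1 * (Q : ℝ) ^ τ →
    (∀ i, (M i : ℝ) ≤ (X1 : ℝ) ^ (P i).natDegree * (Q : ℝ) ^ τ) →
    (∀ j, (X : ℝ) ^ e j ≤ (Q : ℝ) ^ τ * s j) → (∀ j, (s j : ℝ) ≤ (Q : ℝ) ^ τ * (X : ℝ) ^ e j) →
    (∀ i, ∃ (B : ℤ → Ch → ℂ) (mb : Ch → ℝ), Cf Q (Ysc (M i)) B mb) →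
    (∀ t ∈ tb b s, ∀ i, 151 * (M i : ℤ) ≤ 100 * (β i + lf c t i) ∧ 100 * (β i + lf c t i) < 168 * (M i : ℤ)) →
    ∀ w : ℕ → ℝ, (∀ n ∈ Ico X1 (2 * X1), |w n| ≤ (Real.log X) ^ 2) →
    ∑ t ∈ tb b s, (∑ n ∈ Ico X1 (2 * X1), w n * ∏ i, lp ((P i).eval (n : ℤ) + hh c β t i) -
      Rw Q X1 P M w (hh c β t)) ^ 2 ≤ (X1 : ℝ) ^ 2 * (tb b s).card * (Q : ℝ) ^ (-c0)

end

end Pool.Agent.HUP
end

-- from Lib.HUP.FG0
section

/-!
# Project HUP, module FG (the large sieve): definitions and interfaces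

`FGTU c D a` follows from two statements about complete means: `LocB` (primes not dividing `R = lcm r_i`) and `ChB` (the
part at `R`). For functions `F n n' t` of `n`, `n'` and `t`, periodic modulo `M`, `ms M F` is the mean over `n`, `n'` of
the square of the absolute value of the mean over `t`.
-/

open Finset Polynomial

namespace Pool.Agent.HUP

open Pool.Agent.Lib.H68T Pool.Agent.Lib.H18Q Pool.Agent.Lib.H59P Pool.Agent.Lib.H24P

noncomputable section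

/-- The value of the coordinate `i` at `(n, t)`. -/
def yy {k d : ℕ} (c : Fin k → Fin d → ℤ) (P : Fin k → ℤ[X]) (β : Fin k → ℤ) (i : Fin k) (n : ℤ) (t : Fin d → ℤ) : ℤ :=
  (P i).eval n + (β i + lf c t i)

/-- A function of one integer, periodic modulo `M`. -/
def Pz (M : ℕ) (f : ℤ → ℂ) : Prop := ∀ m m' : ℤ, (M : ℤ) ∣ m - m' → f m = f m'

/-- A function of `n`, `n'`, `t`, periodic modulo `M`. -/
def Pp {d : ℕ} (M : ℕ) (F : ℤ → ℤ → (Fin d → ℤ) → ℂ) : Prop :=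
  ∀ (n m n' m' : ℤ) (t t' : Fin d → ℤ), (M : ℤ) ∣ n - m → (M : ℤ) ∣ n' - m' → (∀ j, (M : ℤ) ∣ t j - t' j) →
    F n n' t = F m m' t'

/-- The complete system of residues for `t`. -/
def B0 (d M : ℕ) : Finset (Fin d → ℤ) := Fintype.piFinset fun _ => Ico (0 : ℤ) M

/-- The mean over `n`, `n'` of the square of the absolute value of the mean over `t`. -/
def ms {d : ℕ} (M : ℕ) (F : ℤ → ℤ → (Fin d → ℤ) → ℂ) : ℝ :=
  (∑ n ∈ Ico (0 : ℤ) M, ∑ n' ∈ Ico (0 : ℤ) M, ‖∑ t ∈ B0 d M, F n n' t‖ ^ 2) / ((M : ℝ) ^ 2 * ((M : ℝ) ^ d) ^ 2)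

/-- `∏_{l ∈ L} gl l m` -/
def gL (L : Finset ℕ) (m : ℤ) : ℂ := ∏ l ∈ L, ((gl l m : ℝ) : ℂ)

/-- The component `gk p κ m` without the constant `r / φ(r)` (for squarefree `κ`). -/
def ph (p : Ch) (κ : ℕ) (m : ℤ) : ℂ := cj p m * gL κ.primeFactors m

/-- The product of the components at `n` and of the conjugates of the components at `n'`. -/
def F2 {k d : ℕ} (c : Fin k → Fin d → ℤ) (P : Fin k → ℤ[X]) (β : Fin k → ℤ) (p : Fin k → Ch) (κ κ' : Fin k → ℕ)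
    (n n' : ℤ) (t : Fin d → ℤ) : ℂ :=
  (∏ i, ph (p i) (κ i) (yy c P β i n t)) * (starRingEnd ℂ) (∏ i, ph (p i) (κ' i) (yy c P β i n' t))

/-- The primes which divide some `κ i` or `κ' i`, but not `R`. -/
def Po {k : ℕ} (R : ℕ) (κ κ' : Fin k → ℕ) : Finset ℕ :=
  (univ.biUnion fun i => (κ i).primeFactors ∪ (κ' i).primeFactors).filter fun l => ¬ l ∣ R

/-- Their product. -/
def mo {k : ℕ} (R : ℕ) (κ κ' : Fin k → ℕ) : ℕ := ∏ l ∈ Po R κ κ', l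

/-- The factor at the prime `l`: the coordinates in `V` at `n`, those in `V'` at `n'`. -/
def Fl {k d : ℕ} (c : Fin k → Fin d → ℤ) (P : Fin k → ℤ[X]) (β : Fin k → ℤ) (V V' : Finset (Fin k)) (l : ℕ)
    (n n' : ℤ) (t : Fin d → ℤ) : ℂ :=
  (∏ i ∈ V, ((gl l (yy c P β i n t) : ℝ) : ℂ)) * ∏ i ∈ V', ((gl l (yy c P β i n' t) : ℝ) : ℂ)

/-- The factor at `R`. -/
def FR {k d : ℕ} (c : Fin k → Fin d → ℤ) (P : Fin k → ℤ[X]) (β : Fin k → ℤ) (p : Fin k → Ch) (R : ℕ)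
    (κ κ' : Fin k → ℕ) (n n' : ℤ) (t : Fin d → ℤ) : ℂ :=
  ∏ i, ((cj (p i) (yy c P β i n t) * gL ((κ i).primeFactors.filter fun l => l ∣ R) (yy c P β i n t)) *
    (starRingEnd ℂ) (cj (p i) (yy c P β i n' t) * gL ((κ' i).primeFactors.filter fun l => l ∣ R) (yy c P β i n' t)))

/-! ## Interfaces -/

/-- **Interface: the factors at the primes.** -/
def LocB {k d : ℕ} (c : Fin k → Fin d → ℤ) (D : Fin k → ℕ) (a : Fin k → ℤ) : Prop :=
  ∃ C : ℝ, 1 ≤ C ∧ ∀ P : Fin k → ℤ[X], HasD D a P → ∀ (β : Fin k → ℤ) (l : ℕ), l.Prime →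
    ∀ V V' : Finset (Fin k), 1 ≤ V.card + V'.card → ms l (Fl c P β V V' l) ≤ C / (l : ℝ) ^ 3

/-- **Interface: the factor at `R`.** The functions at `n` are characters times functions of coprime period, those at
`n'` are arbitrary. -/
def ChB {k d : ℕ} (c : Fin k → Fin d → ℤ) (D : Fin k → ℕ) (a : Fin k → ℤ) : Prop :=
  ∃ C c0 : ℝ, 0 < C ∧ 0 < c0 ∧ c0 ≤ 1 ∧ ∀ P : Fin k → ℤ[X], HasD D a P → ∀ (β : Fin k → ℤ) (p : Fin k → Ch),
    (∀ i, 1 ≤ (p i).1 ∧ (p i).2.IsPrimitive) → ∀ R : ℕ, R = univ.lcm (fun i => (p i).1) →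
    ∀ (K : Fin k → ℕ) (u g' : Fin k → ℤ → ℂ), (∀ i, 1 ≤ K i ∧ K i ∣ R ∧ Nat.Coprime (K i) (p i).1) →
    (∀ i, Pz (K i) (u i)) → (∀ i m, ‖u i m‖ ≤ 1) → (∀ i, Pz R (g' i)) → (∀ i m, ‖g' i m‖ ≤ 1) →
    ms R (fun n n' t => ∏ i, ((cj (p i) (yy c P β i n t) * u i (yy c P β i n t)) * g' i (yy c P β i n' t))) ≤
      C * (R : ℝ) ^ (-c0)

/-- A good prime for the data. -/
structure Gd {k d : ℕ} (c : Fin k → Fin d → ℤ) (D : Fin k → ℕ) (a : Fin k → ℤ) (l : ℕ) : Prop where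
  form : ∀ i, ∃ j, ¬ (l : ℤ) ∣ c i j
  lc : ∀ i, ¬ (l : ℤ) ∣ a i
  pair : ∀ i i', i ≠ i' → (∃ u : Fin d → ℤ, lf c u i' = 0 ∧ ¬ (l : ℤ) ∣ lf c u i) ∨ (D i = D i' ∧ ∃ A B : ℤ,
    (∀ t : Fin d → ℤ, B * lf c t i = A * lf c t i') ∧ ¬ (l : ℤ) ∣ A ∧ ¬ (l : ℤ) ∣ B ∧ ¬ (l : ℤ) ∣ B * a i - A * a i')

end

end Pool.Agent.HUP
end

-- from Lib.HUP.FGA3
section

/-!
# Project HUP, chunk FGA3 (S): sums of non-negative periodic functions over intervals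
-/

open Finset

namespace Pool.Agent.HUP

open Pool.Agent.HUK (kb3_blocks kb3_block)

theorem fga3_blocks (M : ℕ) (hM : 1 ≤ M) (g : ℤ → ℝ)
    (hg : ∀ n m : ℤ, (M : ℤ) ∣ n - m → g n = g m) (a : ℤ) (q : ℕ) :
    ∑ l ∈ range (M * q), g (a + l) = q * ∑ y ∈ Ico (0 : ℤ) M, g y := by
  have h := kb3_blocks M hM (fun y => ((g y : ℝ) : ℂ)) (fun y y' hy => by simp only [hg y y' hy]) a q
  exact_mod_cast h

/-- Proof. `H = M q + ρ`, `ρ < M`: the interval is contained in `q + 1 ≤ 2 H / M` blocks of `M` consecutive integers (`M ≤ H`), each block has the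
sum over `Ico 0 M` (bijection `n ↦ n % M`; compare `kb3_block` in `HUK/KB3.lean`; induction on `q`). -/
theorem FGA3_one (M H : ℕ) (hM : 1 ≤ M) (hMH : M ≤ H) (g : ℤ → ℝ) (h0 : ∀ n, 0 ≤ g n)
    (hg : ∀ n m : ℤ, (M : ℤ) ∣ n - m → g n = g m) (a : ℕ) :
    ∑ n ∈ Ico a (a + H), g n ≤ 2 * H / M * ∑ n ∈ Ico (0 : ℤ) M, g n := by
  have hM0 : (0 : ℝ) < M := by exact_mod_cast hM
  have hS : 0 ≤ ∑ n ∈ Ico (0 : ℤ) M, g n := Finset.sum_nonneg fun n _ => h0 n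
  have hH : H ≤ M * (H / M + 1) := by
    have h1 := Nat.div_add_mod H M
    have h2 := Nat.mod_lt H hM
    rw [Nat.mul_add, Nat.mul_one]
    omega
  have hq : 1 ≤ H / M := (Nat.one_le_div_iff (by omega)).mpr hMH
  have h1 : ∑ n ∈ Ico a (a + H), g n = ∑ l ∈ range H, g ((a : ℤ) + l) := by
    rw [Finset.sum_Ico_eq_sum_range]
    have : a + H - a = H := by omega
    rw [this]
    apply Finset.sum_congr rfl
    intro l _
    rw [Nat.cast_add]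
  rw [h1]
  have h2 : ∑ l ∈ range H, g ((a : ℤ) + l) ≤ ∑ l ∈ range (M * (H / M + 1)), g ((a : ℤ) + l) :=
    Finset.sum_le_sum_of_subset_of_nonneg (range_mono hH) fun l _ _ => h0 _
  refine h2.trans ?_
  rw [fga3_blocks M hM g hg a]
  apply mul_le_mul_of_nonneg_right _ hS
  have h3 : ((H / M : ℕ) : ℝ) ≤ H / M := Nat.cast_div_le
  have h4 : (1 : ℝ) ≤ ((H / M : ℕ) : ℝ) := by exact_mod_cast hq
  have h5 : 2 * (H : ℝ) / M = 2 * (H / M) := by ring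
  rw [h5, Nat.cast_add, Nat.cast_one]
  linarith

/-- Proof. `FGA3_one` for `n'`, then for `n` (the function `n ↦ ∑_{n' ∈ Ico 0 M} f n n'`). -/
theorem FGA3 (M H : ℕ) (hM : 1 ≤ M) (hMH : M ≤ H) (f : ℤ → ℤ → ℝ) (h0 : ∀ n n', 0 ≤ f n n')
    (hf : ∀ n m n' m' : ℤ, (M : ℤ) ∣ n - m → (M : ℤ) ∣ n' - m' → f n n' = f m m') (a : ℕ) :
    ∑ n ∈ Ico a (a + H), ∑ n' ∈ Ico a (a + H), f n n' ≤
      4 * (H : ℝ) ^ 2 / (M : ℝ) ^ 2 * ∑ n ∈ Ico (0 : ℤ) M, ∑ n' ∈ Ico (0 : ℤ) M, f n n' := by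
  have hM0 : (0 : ℝ) < M := by exact_mod_cast hM
  have h1 : ∑ n ∈ Ico a (a + H), ∑ n' ∈ Ico a (a + H), f n n' ≤
      ∑ n ∈ Ico a (a + H), 2 * (H : ℝ) / M * ∑ n' ∈ Ico (0 : ℤ) M, f n n' := by
    apply Finset.sum_le_sum
    intro n _
    exact FGA3_one M H hM hMH (fun n' => f n n') (fun n' => h0 _ _)
      (fun n' m' h => hf _ _ _ _ (by simp) h) a
  refine h1.trans ?_
  rw [← Finset.mul_sum]
  have h2 := FGA3_one M H hM hMH (fun n => ∑ n' ∈ Ico (0 : ℤ) M, f n n')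
    (fun n => Finset.sum_nonneg fun n' _ => h0 _ _)
    (fun n m h => Finset.sum_congr rfl fun n' _ => hf _ _ _ _ h (by simp)) a
  have h3 : 0 ≤ 2 * (H : ℝ) / M := by positivity
  refine (mul_le_mul_of_nonneg_left h2 h3).trans (le_of_eq ?_)
  rw [← mul_assoc]
  congr 1
  ring

end Pool.Agent.HUP
end

-- from Lib.HUP.FGC1
section

/-!
# Project HUP, chunk FGC1 (S/M): the lower coefficients modulo `R`
-/

open Finset Polynomial

namespace Pool.Agent.HUP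

/-- One polynomial. Proof. `P' = C P.leadingCoeff * X ^ D + ∑ j ∈ range D, C (P.coeff j % R) * X ^ j`, `D = P.natDegree ≥ 1`. Degree of the second sum
`< D`, `P.leadingCoeff ≠ 0`. Congruence: `P.eval n = ∑ j ∈ range (D + 1), P.coeff j * n ^ j` (`Polynomial.eval_eq_sum_range`). For `0 ≤ n < X`,
`R ≤ X`: `|P'(n)| ≤ |lc| X^D + ∑_{j < D} (R - 1) n^j`, and each term `(R - 1) n^j ≤ X * X^(D-1) = X^D`. -/
theorem FGC1_one (P : ℤ[X]) (hP : 1 ≤ P.natDegree) (R : ℕ) (hR : 1 ≤ R) : ∃ P' : ℤ[X],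
    P'.natDegree = P.natDegree ∧ P'.leadingCoeff = P.leadingCoeff ∧ (∀ n : ℤ, (R : ℤ) ∣ P.eval n - P'.eval n) ∧
    ∀ (X : ℕ) (n : ℤ), R ≤ X → 0 ≤ n → n < X →
      |P'.eval n| ≤ (P.leadingCoeff.natAbs + P.natDegree) * (X : ℤ) ^ P.natDegree := by
  classical
  have hlc : P.leadingCoeff ≠ 0 := by
    intro h0
    rw [leadingCoeff_eq_zero] at h0
    rw [h0] at hP
    simp at hP
  obtain ⟨S, hSdef⟩ : ∃ S : ℤ[X], S = ∑ j ∈ range P.natDegree, C (P.coeff j % R) * X ^ j := ⟨_, rfl⟩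
  have hS : S.degree < (P.natDegree : ℕ) := by
    rw [hSdef, Finset.sum_range]
    exact degree_sum_fin_lt (fun i : Fin P.natDegree => P.coeff i % R)
  have hlt : S.degree < (C P.leadingCoeff * X ^ P.natDegree).degree := by
    rw [degree_C_mul_X_pow _ hlc]; exact hS
  have hev : ∀ n : ℤ, (C P.leadingCoeff * X ^ P.natDegree + S).eval n =
      P.leadingCoeff * n ^ P.natDegree + ∑ j ∈ range P.natDegree, (P.coeff j % R) * n ^ j := by
    intro n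
    rw [eval_add, hSdef, eval_finset_sum]
    simp
  refine ⟨C P.leadingCoeff * X ^ P.natDegree + S, ?_, ?_, ?_, ?_⟩
  · rw [natDegree_add_eq_left_of_degree_lt hlt, natDegree_C_mul_X_pow _ _ hlc]
  · rw [leadingCoeff_add_of_degree_lt' hlt, leadingCoeff_C_mul_X_pow]
  · intro n
    rw [hev, eval_eq_sum_range, Finset.sum_range_succ]
    have h1 : (∑ j ∈ range P.natDegree, P.coeff j * n ^ j + P.coeff P.natDegree * n ^ P.natDegree) -
        (P.leadingCoeff * n ^ P.natDegree + ∑ j ∈ range P.natDegree, (P.coeff j % R) * n ^ j) =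
        ∑ j ∈ range P.natDegree, (P.coeff j - P.coeff j % R) * n ^ j := by
      rw [leadingCoeff]
      simp only [sub_mul, Finset.sum_sub_distrib]
      ring
    rw [h1]
    apply Finset.dvd_sum
    intro j _
    exact Dvd.dvd.mul_right (Int.dvd_self_sub_emod) _
  · intro Y n hRY hn0 hnY
    rw [hev]
    have hY1 : (1 : ℤ) ≤ Y := by exact_mod_cast hR.trans hRY
    have hRY' : (R : ℤ) ≤ Y := by exact_mod_cast hRY
    have hRp : (0 : ℤ) < R := by exact_mod_cast hR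
    have h2 : |P.leadingCoeff * n ^ P.natDegree| ≤ (P.leadingCoeff.natAbs : ℤ) * (Y : ℤ) ^ P.natDegree := by
      rw [abs_mul, Int.natCast_natAbs, abs_of_nonneg (pow_nonneg hn0 _)]
      exact mul_le_mul_of_nonneg_left (pow_le_pow_left₀ hn0 hnY.le _) (abs_nonneg _)
    have h3 : |∑ j ∈ range P.natDegree, (P.coeff j % R) * n ^ j| ≤ (P.natDegree : ℤ) * (Y : ℤ) ^ P.natDegree := by
      refine (Finset.abs_sum_le_sum_abs _ _).trans ?_
      have h4 : ∀ j ∈ range P.natDegree, |(P.coeff j % R) * n ^ j| ≤ (Y : ℤ) ^ P.natDegree := by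
        intro j hj
        rw [Finset.mem_range] at hj
        have h5 : 0 ≤ P.coeff j % R := Int.emod_nonneg _ hRp.ne'
        have h6 : P.coeff j % R < R := Int.emod_lt_of_pos _ hRp
        rw [abs_of_nonneg (mul_nonneg h5 (pow_nonneg hn0 _))]
        have h7 : n ^ j ≤ (Y : ℤ) ^ (P.natDegree - 1) :=
          (pow_le_pow_left₀ hn0 hnY.le _).trans (pow_le_pow_right₀ hY1 (by omega))
        calc (P.coeff j % R) * n ^ j ≤ (Y : ℤ) * (Y : ℤ) ^ (P.natDegree - 1) :=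
              mul_le_mul (h6.le.trans hRY') h7 (pow_nonneg hn0 _) (by omega)
          _ = (Y : ℤ) ^ P.natDegree := by
              rw [← pow_succ']
              congr 1
              omega
      refine (Finset.sum_le_sum h4).trans ?_
      simp
    refine (abs_add_le _ _).trans ?_
    rw [add_mul]
    exact add_le_add h2 h3

/-- `FGC1_one` for every `i` (`choose`). -/
theorem FGC1 {k : ℕ} (D : Fin k → ℕ) (a : Fin k → ℤ) (hD : ∀ i, 1 ≤ D i) (P : Fin k → ℤ[X]) (hP : HasD D a P)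
    (R : ℕ) (hR : 1 ≤ R) : ∃ P' : Fin k → ℤ[X], HasD D a P' ∧
    (∀ (i : Fin k) (n : ℤ), (R : ℤ) ∣ (P i).eval n - (P' i).eval n) ∧
    ∀ (i : Fin k) (X : ℕ) (n : ℤ), R ≤ X → 0 ≤ n → n < X →
      |(P' i).eval n| ≤ ((a i).natAbs + D i) * (X : ℤ) ^ D i := by
  have h : ∀ i, ∃ P' : ℤ[X],
    P'.natDegree = (P i).natDegree ∧ P'.leadingCoeff = (P i).leadingCoeff ∧
      (∀ n : ℤ, (R : ℤ) ∣ (P i).eval n - P'.eval n) ∧
    ∀ (X : ℕ) (n : ℤ), R ≤ X → 0 ≤ n → n < X →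
      |P'.eval n| ≤ ((P i).leadingCoeff.natAbs + (P i).natDegree) * (X : ℤ) ^ (P i).natDegree :=
    fun i => FGC1_one (P i) (by rw [(hP i).1]; exact hD i) R hR
  choose P' h1 h2 h3 h4 using h
  refine ⟨P', fun i => ⟨(h1 i).trans (hP i).1, (h2 i).trans (hP i).2⟩, h3, ?_⟩
  intro i Y n hRY hn0 hnY
  have h5 := h4 i Y n hRY hn0 hnY
  rw [(hP i).1, (hP i).2] at h5
  exact h5

end Pool.Agent.HUP
end

-- from Lib.HUP.FGC3
section

/-!
# Project HUP, chunk FGC3 (S/M): complete means as sums over long boxes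
-/

open Finset

namespace Pool.Agent.HUP

open Pool.Agent.HUK (kb3_blocks kb3_block)

theorem fgc3_card (R : ℕ) (hR : 1 ≤ R) (m : ℕ) (r : ℤ) (hr0 : 0 ≤ r) (hr : r < R) :
    ((Ico (0 : ℤ) (0 + ((R * m : ℕ) : ℤ))).filter (fun x => x % (R : ℤ) = r)).card = m := by
  have hR0 : (0 : ℤ) < R := by exact_mod_cast hR
  refine (Finset.card_nbij' (t := range m) (fun x : ℤ => (x / (R : ℤ)).toNat) (fun l : ℕ => r + (R : ℤ) * l)
    ?_ ?_ ?_ ?_).trans (card_range m)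
  · intro x hx
    rw [mem_coe, mem_filter, mem_Ico] at hx
    rw [mem_coe, mem_range]
    have h1 : 0 ≤ x / (R : ℤ) := Int.ediv_nonneg hx.1.1 hR0.le
    have h2 : x / (R : ℤ) < m := by
      apply Int.ediv_lt_of_lt_mul hR0
      have h3 := hx.1.2
      push_cast at h3
      linarith [mul_comm (R : ℤ) (m : ℤ)]
    show (x / (R : ℤ)).toNat < m
    omega
  · intro l hl
    rw [mem_coe, mem_range] at hl
    rw [mem_coe, mem_filter, mem_Ico]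
    have h1 : (0 : ℤ) ≤ (R : ℤ) * l := by positivity
    have h2 : (R : ℤ) * (l + 1) ≤ (R : ℤ) * m := mul_le_mul_of_nonneg_left (by exact_mod_cast hl) hR0.le
    refine ⟨⟨?_, ?_⟩, ?_⟩
    · show 0 ≤ r + (R : ℤ) * l
      linarith
    · show r + (R : ℤ) * l < 0 + ((R * m : ℕ) : ℤ)
      push_cast
      linarith
    · show (r + (R : ℤ) * l) % (R : ℤ) = r
      rw [Int.add_mul_emod_self_left]
      exact Int.emod_eq_of_lt hr0 hr
  · intro x hx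
    rw [mem_coe, mem_filter, mem_Ico] at hx
    show r + (R : ℤ) * (((x / (R : ℤ)).toNat : ℕ) : ℤ) = x
    rw [Int.toNat_of_nonneg (Int.ediv_nonneg hx.1.1 hR0.le), ← hx.2]
    exact Int.emod_add_mul_ediv x R
  · intro l _
    show ((r + (R : ℤ) * l) / (R : ℤ)).toNat = l
    rw [Int.add_mul_ediv_left _ _ hR0.ne', Int.ediv_eq_zero_of_lt hr0 hr, zero_add, Int.toNat_natCast]

/-- A box whose sides are multiples of the period. Proof. Induction on `d` with `Fin.cons`, or: the map `t ↦ (t j % R)_j` from `tb 0 (R m_j)` to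
`B0 d R` has fibres with `∏ m j` elements; one variable as in `kb3_blocks` (`HUK/KB3.lean`). -/
theorem FGC3_box {d : ℕ} (R : ℕ) (hR : 1 ≤ R) (m : Fin d → ℕ) (f : (Fin d → ℤ) → ℝ)
    (hf : ∀ t t' : Fin d → ℤ, (∀ j, (R : ℤ) ∣ t j - t' j) → f t = f t') :
    ∑ t ∈ tb 0 (fun j => R * m j), f t = (∏ j, (m j : ℝ)) * ∑ t ∈ B0 d R, f t := by
  have hR0 : (0 : ℤ) < R := by exact_mod_cast hR
  have hmap : ∀ t ∈ tb 0 (fun j => R * m j), (fun i => t i % (R : ℤ)) ∈ B0 d R := by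
    intro t _
    unfold B0
    rw [Fintype.mem_piFinset]
    intro i
    rw [mem_Ico]
    exact ⟨Int.emod_nonneg _ hR0.ne', Int.emod_lt_of_pos _ hR0⟩
  rw [← Finset.sum_fiberwise_of_maps_to hmap, Finset.mul_sum]
  refine Finset.sum_congr rfl fun r hr => ?_
  have hr' : ∀ i, 0 ≤ r i ∧ r i < R := by
    intro i
    unfold B0 at hr
    exact mem_Ico.1 (Fintype.mem_piFinset.1 hr i)
  have h1 : ((tb 0 (fun j => R * m j)).filter fun t => (fun i => t i % (R : ℤ)) = r) =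
      Fintype.piFinset fun i => (Ico (0 : ℤ) (0 + ((R * m i : ℕ) : ℤ))).filter (fun x => x % (R : ℤ) = r i) := by
    ext t
    unfold tb
    rw [mem_filter, Fintype.mem_piFinset, Fintype.mem_piFinset]
    constructor
    · rintro ⟨h2, h3⟩ i
      rw [mem_filter]
      exact ⟨h2 i, congrFun h3 i⟩
    · intro h2
      exact ⟨fun i => (mem_filter.1 (h2 i)).1, funext fun i => (mem_filter.1 (h2 i)).2⟩
  have h2 : ∑ t ∈ tb 0 (fun j => R * m j) with (fun i => t i % (R : ℤ)) = r, f t =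
      ((((tb 0 (fun j => R * m j)).filter fun t => (fun i => t i % (R : ℤ)) = r).card : ℕ) : ℝ) * f r := by
    rw [← nsmul_eq_mul, ← Finset.sum_const]
    refine Finset.sum_congr rfl fun t ht => ?_
    rw [mem_filter] at ht
    apply hf
    intro i
    rw [← ht.2]
    exact Int.dvd_self_sub_emod
  rw [h2, h1, Fintype.card_piFinset]
  congr 1
  push_cast
  refine Finset.prod_congr rfl fun i _ => ?_
  have h3 := fgc3_card R hR (m i) (r i) (hr' i).1 (hr' i).2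
  push_cast at h3
  rw [h3]

/-- Proof. For fixed `t`: `∑_{n ∈ Ico 0 (0 + R^2)} w n * G n t = R * ∑_{n ∈ Ico (0:ℤ) R} w n * G n t` (`kb3_blocks` with `q = R`). Then `FGC3_box` with
`m j = R * (R^2)^(e j - 1)`, `R * m j = (R^2)^(e j)`, and `R^d * ∏ m j = ∏ (R^2)^(e j)`. -/
theorem FGC3 {d : ℕ} (R : ℕ) (hR : 1 ≤ R) (e : Fin d → ℕ) (he : ∀ j, 1 ≤ e j) (G : ℤ → (Fin d → ℤ) → ℂ)
    (hG : ∀ (n m : ℤ) (t t' : Fin d → ℤ), (R : ℤ) ∣ n - m → (∀ j, (R : ℤ) ∣ t j - t' j) → G n t = G m t')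
    (w : ℤ → ℂ) (hw : Pz R w) :
    (R : ℝ) ^ d * ∑ t ∈ tb 0 (fun j => (R ^ 2) ^ e j), ‖∑ n ∈ Ico (0 : ℕ) (0 + R ^ 2), w ((n : ℕ) : ℤ) * G ((n : ℕ) : ℤ) t‖ ^ 2 =
      (∏ j, ((R : ℝ) ^ 2) ^ e j) * ((R : ℝ) ^ 2 * ∑ t ∈ B0 d R, ‖∑ n ∈ Ico (0 : ℤ) R, w n * G n t‖ ^ 2) := by
  have hself : ∀ m : ℤ, (R : ℤ) ∣ m - m := fun m => by
    rw [sub_self]
    exact dvd_zero _
  have h1 : ∀ t : Fin d → ℤ, ∑ n ∈ Ico (0 : ℕ) (0 + R ^ 2), w ((n : ℕ) : ℤ) * G ((n : ℕ) : ℤ) t =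
      (R : ℂ) * ∑ n ∈ Ico (0 : ℤ) R, w n * G n t := by
    intro t
    have h2 := kb3_blocks R hR (fun n => w n * G n t)
      (fun y y' hy => by
        show w y * G y t = w y' * G y' t
        rw [hw y y' hy, hG y y' t t hy (fun j => hself _)]) 0 R
    rw [← h2, zero_add, ← Finset.range_eq_Ico, pow_two]
    refine Finset.sum_congr rfl fun l _ => ?_
    rw [zero_add]
  have h3 : ∀ t : Fin d → ℤ, ‖∑ n ∈ Ico (0 : ℕ) (0 + R ^ 2), w ((n : ℕ) : ℤ) * G ((n : ℕ) : ℤ) t‖ ^ 2 =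
      (R : ℝ) ^ 2 * ‖∑ n ∈ Ico (0 : ℤ) R, w n * G n t‖ ^ 2 := by
    intro t
    rw [h1, norm_mul, Complex.norm_natCast, mul_pow]
  have h4 : (fun j => (R ^ 2) ^ e j) = fun j => R * (R * (R ^ 2) ^ (e j - 1)) := by
    funext j
    obtain ⟨a, ha⟩ : ∃ a, e j = a + 1 := ⟨e j - 1, by have := he j; omega⟩
    rw [ha, Nat.add_sub_cancel]
    ring
  have h5 : ∑ t ∈ tb 0 (fun j => (R ^ 2) ^ e j), ‖∑ n ∈ Ico (0 : ℕ) (0 + R ^ 2), w ((n : ℕ) : ℤ) * G ((n : ℕ) : ℤ) t‖ ^ 2 =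
      (R : ℝ) ^ 2 * ((∏ j, ((R * (R ^ 2) ^ (e j - 1) : ℕ) : ℝ)) * ∑ t ∈ B0 d R, ‖∑ n ∈ Ico (0 : ℤ) R, w n * G n t‖ ^ 2) := by
    rw [Finset.sum_congr rfl fun t _ => h3 t, ← Finset.mul_sum, h4,
      FGC3_box R hR (fun j => R * (R ^ 2) ^ (e j - 1)) (fun t => ‖∑ n ∈ Ico (0 : ℤ) R, w n * G n t‖ ^ 2)]
    intro t t' htt
    have h6 : ∑ n ∈ Ico (0 : ℤ) R, w n * G n t = ∑ n ∈ Ico (0 : ℤ) R, w n * G n t' := by
      refine Finset.sum_congr rfl fun n _ => ?_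
      rw [hG n n t t' (hself _) htt]
    show ‖∑ n ∈ Ico (0 : ℤ) R, w n * G n t‖ ^ 2 = ‖∑ n ∈ Ico (0 : ℤ) R, w n * G n t'‖ ^ 2
    rw [h6]
  have h7 : (R : ℝ) ^ d * ∏ j, ((R * (R ^ 2) ^ (e j - 1) : ℕ) : ℝ) = ∏ j, ((R : ℝ) ^ 2) ^ e j := by
    have h8 : (R : ℝ) ^ d = ∏ j : Fin d, (R : ℝ) := by
      rw [Finset.prod_const, Finset.card_univ, Fintype.card_fin]
    rw [h8, ← Finset.prod_mul_distrib]
    refine Finset.prod_congr rfl fun j _ => ?_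
    obtain ⟨a, ha⟩ : ∃ a, e j = a + 1 := ⟨e j - 1, by have := he j; omega⟩
    rw [ha, Nat.add_sub_cancel]
    push_cast
    ring
  rw [h5, ← h7]
  ring

end Pool.Agent.HUP
end

-- from Lib.HUP.FGC2
section

/-!
# Project HUP, chunk FGC2 (S/M): the mean over pairs from the mean with weights
-/

open Finset

namespace Pool.Agent.HUP

theorem fgc2_sq {a b : ℝ} (h : a ^ 2 ≤ b ^ 2) (hb : 0 ≤ b) : a ≤ b :=
  (abs_le_of_sq_le_sq' h hb).2

/-- For one `n'`. -/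
theorem fgc2_one {d : ℕ} (R : ℕ) (hR : 1 ≤ R) (G G' : ℤ → (Fin d → ℤ) → ℂ) (hG : ∀ n t, ‖G n t‖ ≤ 1)
    (hG' : ∀ n t, ‖G' n t‖ ≤ 1) (δ : ℝ) (hδ : 0 ≤ δ)
    (h : ∀ w : ℤ → ℂ, (∀ n, ‖w n‖ ≤ 1) →
      ∑ t ∈ B0 d R, ‖∑ n ∈ Ico (0 : ℤ) R, w n * G n t‖ ^ 2 ≤ δ ^ 2 * (R : ℝ) ^ d * (R : ℝ) ^ 2) (n' : ℤ) :
    ∑ n ∈ Ico (0 : ℤ) R, ‖∑ t ∈ B0 d R, G n t * G' n' t‖ ^ 2 ≤ δ * R * ((R : ℝ) ^ d) ^ 2 := by
  have hN : ((B0 d R).card : ℝ) = (R : ℝ) ^ d := by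
    unfold B0
    rw [Fintype.card_piFinset]
    simp
  have hRp : (0 : ℝ) < R := by exact_mod_cast hR
  have hNpos : (0 : ℝ) < (R : ℝ) ^ d := by positivity
  obtain ⟨M, hM⟩ : ∃ M : ℤ → ℂ, ∀ n, M n = ∑ t ∈ B0 d R, G n t * G' n' t := ⟨_, fun _ => rfl⟩
  have hMb : ∀ n, ‖M n‖ ≤ (R : ℝ) ^ d := by
    intro n
    rw [hM, ← hN]
    refine (norm_sum_le _ _).trans ?_
    have h1 : ∀ t ∈ B0 d R, ‖G n t * G' n' t‖ ≤ 1 := fun t _ => by
      rw [norm_mul]; exact mul_le_one₀ (hG n t) (norm_nonneg _) (hG' n' t)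
    refine (Finset.sum_le_sum h1).trans ?_
    simp
  obtain ⟨w, hw⟩ : ∃ w : ℤ → ℂ, ∀ n, w n = (starRingEnd ℂ) (M n) / ((R : ℂ) ^ d) := ⟨_, fun _ => rfl⟩
  have hw1 : ∀ n, ‖w n‖ ≤ 1 := by
    intro n
    rw [hw]
    simp only [norm_div, RCLike.norm_conj, norm_pow, Complex.norm_natCast]
    exact (div_le_one hNpos).2 (hMb n)
  have hq := h w hw1
  obtain ⟨x, hx⟩ : ∃ x : (Fin d → ℤ) → ℝ, ∀ t, x t = ‖∑ n ∈ Ico (0 : ℤ) R, w n * G n t‖ := ⟨_, fun _ => rfl⟩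
  have hx0 : ∀ t, 0 ≤ x t := fun t => by rw [hx]; exact norm_nonneg _
  have hx1 : ∑ t ∈ B0 d R, x t ≤ δ * (R : ℝ) ^ d * R := by
    have h1 : (∑ t ∈ B0 d R, x t) ^ 2 ≤ (δ * (R : ℝ) ^ d * R) ^ 2 := by
      calc (∑ t ∈ B0 d R, x t) ^ 2 ≤ (B0 d R).card * ∑ t ∈ B0 d R, x t ^ 2 := sq_sum_le_card_mul_sum_sq
        _ ≤ (R : ℝ) ^ d * (δ ^ 2 * (R : ℝ) ^ d * (R : ℝ) ^ 2) := by
            rw [hN]
            refine mul_le_mul_of_nonneg_left ?_ hNpos.le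
            simpa only [hx] using hq
        _ = (δ * (R : ℝ) ^ d * R) ^ 2 := by ring
    exact fgc2_sq h1 (by positivity)
  have h2 : ((∑ n ∈ Ico (0 : ℤ) R, ‖M n‖ ^ 2 : ℝ) : ℂ) =
      ∑ t ∈ B0 d R, G' n' t * ((R : ℂ) ^ d * ∑ n ∈ Ico (0 : ℤ) R, w n * G n t) := by
    have hRc : ((R : ℂ) ^ d) ≠ 0 := by
      apply pow_ne_zero
      exact_mod_cast (Nat.one_le_iff_ne_zero.mp hR)
    have h3 : ∀ n, (((‖M n‖ ^ 2 : ℝ)) : ℂ) = ∑ t ∈ B0 d R, G' n' t * ((R : ℂ) ^ d * (w n * G n t)) := by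
      intro n
      have h4 : (((‖M n‖ ^ 2 : ℝ)) : ℂ) = (starRingEnd ℂ) (M n) * M n := by
        rw [mul_comm, Complex.mul_conj, Complex.normSq_eq_norm_sq]
      have h5 : (starRingEnd ℂ) (M n) = (R : ℂ) ^ d * w n := by
        rw [hw]; field_simp
      rw [h4, h5]
      conv_lhs => rw [hM n]
      rw [Finset.mul_sum]
      refine Finset.sum_congr rfl fun t _ => ?_
      ring
    rw [Complex.ofReal_sum, Finset.sum_congr rfl fun n _ => h3 n, Finset.sum_comm]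
    refine Finset.sum_congr rfl fun t _ => ?_
    rw [Finset.mul_sum, Finset.mul_sum]
  have h6 : ∑ n ∈ Ico (0 : ℤ) R, ‖M n‖ ^ 2 ≤ (R : ℝ) ^ d * ∑ t ∈ B0 d R, x t := by
    have h7 : (∑ n ∈ Ico (0 : ℤ) R, ‖M n‖ ^ 2 : ℝ) = ‖((∑ n ∈ Ico (0 : ℤ) R, ‖M n‖ ^ 2 : ℝ) : ℂ)‖ := by
      rw [Complex.norm_real, Real.norm_of_nonneg]
      exact Finset.sum_nonneg fun n _ => by positivity
    rw [h7, h2, Finset.mul_sum]
    refine (norm_sum_le _ _).trans (Finset.sum_le_sum fun t _ => ?_)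
    rw [norm_mul, norm_mul, norm_pow, Complex.norm_natCast, ← hx t]
    calc ‖G' n' t‖ * ((R : ℝ) ^ d * x t) ≤ 1 * ((R : ℝ) ^ d * x t) :=
          mul_le_mul_of_nonneg_right (hG' n' t) (mul_nonneg hNpos.le (hx0 t))
      _ = (R : ℝ) ^ d * x t := one_mul _
  calc ∑ n ∈ Ico (0 : ℤ) R, ‖∑ t ∈ B0 d R, G n t * G' n' t‖ ^ 2 = ∑ n ∈ Ico (0 : ℤ) R, ‖M n‖ ^ 2 := by
        simp only [hM]
    _ ≤ (R : ℝ) ^ d * ∑ t ∈ B0 d R, x t := h6
    _ ≤ (R : ℝ) ^ d * (δ * (R : ℝ) ^ d * R) := mul_le_mul_of_nonneg_left hx1 hNpos.le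
    _ = δ * R * ((R : ℝ) ^ d) ^ 2 := by ring

/-- Proof. `M n n' = ∑_{t ∈ B0 d R} G n t * G' n' t`, `‖M n n'‖ ≤ R^d` (`card (B0 d R) = R^d`). `∑_{n,n'} ‖M n n'‖² = ∑_{n'} ∑_t G' n' t ∑_n conj (M n n') G n t`
(as complex numbers), at most `∑_{n'} ∑_t ‖∑_n conj (M n n') G n t‖`. For fixed `n'` let `w n = conj (M n n') / R^d`, so `‖w n‖ ≤ 1` and the inner sum is
`R^d ∑_t ‖∑_n w n G n t‖ ≤ R^d (R^d)^(1/2) (∑_t ‖∑_n w n G n t‖²)^(1/2) ≤ R^d (R^d)^(1/2) δ (R^d)^(1/2) R = δ R^(2d) R`. Sum over `n'`: `δ R^(2d) R²`. -/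
theorem FGC2 {d : ℕ} (R : ℕ) (hR : 1 ≤ R) (G G' : ℤ → (Fin d → ℤ) → ℂ) (hG : ∀ n t, ‖G n t‖ ≤ 1)
    (hG' : ∀ n t, ‖G' n t‖ ≤ 1) (δ : ℝ) (hδ : 0 ≤ δ)
    (h : ∀ w : ℤ → ℂ, (∀ n, ‖w n‖ ≤ 1) →
      ∑ t ∈ B0 d R, ‖∑ n ∈ Ico (0 : ℤ) R, w n * G n t‖ ^ 2 ≤ δ ^ 2 * (R : ℝ) ^ d * (R : ℝ) ^ 2) :
    ms R (fun n n' t => G n t * G' n' t) ≤ δ := by
  have hRp : (0 : ℝ) < R := by exact_mod_cast hR
  unfold ms
  rw [div_le_iff₀ (by positivity), Finset.sum_comm]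
  refine (Finset.sum_le_sum fun n' _ => fgc2_one R hR G G' hG hG' δ hδ h n').trans ?_
  rw [Finset.sum_const, Int.card_Ico, nsmul_eq_mul]
  simp only [sub_zero, Int.toNat_natCast]
  exact le_of_eq (by ring)

end Pool.Agent.HUP
end

-- from Lib.HUP.R11
section

/-!
# Project HUP, module R (the modules of H24P for an abstract family), R11: twisted means, only the linear coordinate is twisted
-/

open Finset Polynomial

namespace Pool.Agent.HUP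

open Pool.Agent.Lib.H68T Pool.Agent.Lib.H18Q Pool.Agent.Lib.H59P Pool.Agent.Lib.H24P

/-- **R11** (port of `X1B_main`, H24P/X1B.lean). Proof. As there with `H = r^(E+5)`, `FGood` instead of `Fgen`, `x1b_small`,
`x1b_exp` unchanged. -/
theorem R11_main (k A E : ℕ) (hA : 1 ≤ A) (Cc cc : ℝ) (hC : FPar Cc cc) : ∃ C c : ℝ, 1 ≤ C ∧ 0 < c ∧ c ≤ 1 ∧
    ∀ B : ℤ[X], Lin A B → ∀ P : Fin k → ℤ[X], Pol A P → ∀ (Q : ℕ) (px : Ch), px ∈ PC Q → 2 ≤ px.1 →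
    ∀ (ι : Type) (S : Finset ι) (g : ι → Fin k → ℕ), FGood E Cc cc Q P S g →
    ∑ x ∈ S, ‖MRf (pB px ({0} : Finset (Fin (k + 1)))) px.1 (sys B P (g x))‖ ^ 2 ≤
      C * (1 + Real.log px.1) ^ C * S.card * (px.1 : ℝ) ^ (-c) := by
  classical
  obtain ⟨hCc1, hcc0, hcc1⟩ := hC
  set x : ℝ := 1 / (2 * k + 2) with hx
  have hk0 : (0 : ℝ) ≤ k := Nat.cast_nonneg _
  have hx0 : 0 < x := by positivity
  have hx1 : x ≤ 1 / 2 := by
    rw [hx]
    exact one_div_le_one_div_of_le (by norm_num) (by linarith)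
  have hA1 : (1 : ℝ) ≤ A := by exact_mod_cast hA
  have h4k : (1 : ℝ) ≤ 4 ^ (k + 1) := one_le_pow₀ (by norm_num)
  set c : ℝ := cc * x with hc
  have hc0 : 0 < c := mul_pos hcc0 hx0
  have hc1 : c ≤ 1 := by
    calc cc * x ≤ 1 * 1 := mul_le_mul hcc1 (by linarith) hx0.le zero_le_one
      _ = 1 := one_mul 1
  set C : ℝ := 16 * Cc + 8 + 4 ^ (k + 1) * A ^ 2 + 2 * k with hCd
  have hbig : 0 ≤ (4 : ℝ) ^ (k + 1) * A ^ 2 := by positivity
  refine ⟨C, c, by linarith, hc0, hc1, ?_⟩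
  intro B hB P hP Q px hpx hr2 ι S g hG
  obtain ⟨hr1, hrQ, hprim⟩ := mem_PC.1 hpx
  set r := px.1 with hr
  have hrR : (2 : ℝ) ≤ r := by exact_mod_cast hr2
  have hr0 : (0 : ℝ) < r := by linarith
  have hrge1 : (1 : ℝ) ≤ r := by linarith
  have hlog : 0 ≤ Real.log r := Real.log_natCast_nonneg r
  have hL1 : 1 ≤ 1 + Real.log r := by linarith
  have hv : (0 : ℝ) ≤ S.card := Nat.cast_nonneg _
  have hrc : 0 < (r : ℝ) ^ (-c) := Real.rpow_pos_of_pos hr0 _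
  have hLC0 : 0 ≤ (1 + Real.log r) ^ C := Real.rpow_nonneg (by linarith) _
  have hCpos : 0 < C := by linarith
  set D : ℕ := fl r x with hD
  obtain ⟨hD1, hD2, -⟩ := G1_one (Q := r) hr1 hx0.le
  rw [← hD] at hD1 hD2
  by_cases hcase : r ≤ A * D
  · -- r is bounded
    have hrA : (r : ℝ) ≤ (A : ℝ) ^ 2 := by
      have h1 : (r : ℝ) ≤ A * D := by exact_mod_cast hcase
      have h2 : (D : ℝ) ≤ (r : ℝ) ^ (1 / 2 : ℝ) :=
        hD2.trans (Real.rpow_le_rpow_of_exponent_le hrge1 hx1)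
      have h3 : (r : ℝ) ≤ A * (r : ℝ) ^ (1 / 2 : ℝ) :=
        h1.trans (mul_le_mul_of_nonneg_left h2 (by linarith))
      have h4 : (r : ℝ) ^ (1 / 2 : ℝ) * (r : ℝ) ^ (1 / 2 : ℝ) = r := by
        rw [← Real.rpow_add hr0]
        norm_num
      have h5 : 0 < (r : ℝ) ^ (1 / 2 : ℝ) := Real.rpow_pos_of_pos hr0 _
      have h6 : (r : ℝ) ^ (1 / 2 : ℝ) ≤ A := by
        by_contra h7
        push Not at h7
        have := mul_lt_mul_of_pos_right h7 h5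
        rw [h4] at this
        linarith
      calc (r : ℝ) = (r : ℝ) ^ (1 / 2 : ℝ) * (r : ℝ) ^ (1 / 2 : ℝ) := h4.symm
        _ ≤ A * A := mul_le_mul h6 h6 h5.le (by linarith)
        _ = (A : ℝ) ^ 2 := (sq _).symm
    have hone : ∀ h ∈ S, ‖MRf (pB px ({0} : Finset (Fin (k + 1)))) r (sys B P (g h))‖ ^ 2 ≤
        4 ^ (k + 1) * (1 + Real.log r) ^ C := by
      intro h _
      have h1 := P0_MR (pB px ({0} : Finset (Fin (k + 1)))) r hr1 (sys B P (g h))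
      have h2 : ((r : ℝ) / (Nat.totient r : ℝ)) ^ (k + 1) ≤ (2 * (1 + Real.log r)) ^ (k + 1) :=
        pow_le_pow_left₀ (by positivity) (M3b r hr1) _
      have h3 := pow_le_pow_left₀ (norm_nonneg _) (h1.trans h2) 2
      refine h3.trans ?_
      have h4 : ((2 * (1 + Real.log r)) ^ (k + 1)) ^ 2 =
          4 ^ (k + 1) * (1 + Real.log r) ^ ((2 * k + 2 : ℕ) : ℝ) := by
        rw [Real.rpow_natCast]
        exact x1b_pow k _
      rw [h4]
      refine mul_le_mul_of_nonneg_left ?_ (by positivity)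
      refine Real.rpow_le_rpow_of_exponent_le hL1 ?_
      push_cast
      linarith
    refine (Finset.sum_le_sum hone).trans ?_
    rw [Finset.sum_const, nsmul_eq_mul]
    have h5 : 1 ≤ (A : ℝ) ^ 2 * (r : ℝ) ^ (-c) := by
      have h6 : (r : ℝ) ^ (-(1 : ℝ)) ≤ (r : ℝ) ^ (-c) :=
        Real.rpow_le_rpow_of_exponent_le hrge1 (by linarith)
      rw [Real.rpow_neg_one] at h6
      calc (1 : ℝ) = r * (r : ℝ)⁻¹ := (mul_inv_cancel₀ hr0.ne').symm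
        _ ≤ (A : ℝ) ^ 2 * (r : ℝ) ^ (-c) := mul_le_mul hrA h6 (by positivity) (by positivity)
    calc S.card * (4 ^ (k + 1) * (1 + Real.log r) ^ C)
        = 4 ^ (k + 1) * (1 + Real.log r) ^ C * S.card * 1 := by ring
      _ ≤ 4 ^ (k + 1) * (1 + Real.log r) ^ C * S.card * ((A : ℝ) ^ 2 * (r : ℝ) ^ (-c)) :=
          mul_le_mul_of_nonneg_left h5 (by positivity)
      _ = (4 ^ (k + 1) * A ^ 2) * ((1 + Real.log r) ^ C * S.card * (r : ℝ) ^ (-c)) := by ring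
      _ ≤ C * ((1 + Real.log r) ^ C * S.card * (r : ℝ) ^ (-c)) := by
          refine mul_le_mul_of_nonneg_right ?_ (by positivity)
          rw [hCd]
          linarith
      _ = C * (1 + Real.log r) ^ C * S.card * (r : ℝ) ^ (-c) := by ring
  · -- the main case
    push Not at hcase
    have hnd : ∀ N : ℕ, 0 < N → N ≤ D → ¬ (r : ℤ) ∣ B.leadingCoeff * N := by
      intro N hN hND hdv
      have h1 : r ∣ (B.leadingCoeff * (N : ℤ)).natAbs := Int.natCast_dvd.1 hdv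
      rw [Int.natAbs_mul, Int.natAbs_natCast] at h1
      have hlc : 0 < B.leadingCoeff.natAbs := by
        rw [Int.natAbs_pos, Ne, leadingCoeff_eq_zero]
        intro h3
        have h4 := hB.deg
        rw [h3, natDegree_zero] at h4
        omega
      have h2 := Nat.le_of_dvd (Nat.mul_pos hlc hN) h1
      have h3 : B.leadingCoeff.natAbs * N ≤ A * D := Nat.mul_le_mul hB.lc hND
      omega
    have hsub := X1A_sub Q px hpx (∅ : Finset (Fin k))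
    have hpxr : px ∈ PC r := mem_PC.2 ⟨hr1, le_rfl, hprim⟩
    set p := pB px (∅ : Finset (Fin k)) with hp
    set T1 := (KT px (∅ : Finset (Fin k))).filter (fun κ => univ.lcm (fun i => (p i).1 * κ i) ≤ D) with hT1
    set T2 := (KT px (∅ : Finset (Fin k))).filter (fun κ => ¬ univ.lcm (fun i => (p i).1 * κ i) ≤ D) with hT2
    set w : ℕ → ℂ := fun n => gk px 1 (B.eval (n : ℤ)) with hw
    set M : ℕ := r ^ (E + 4) with hM
    set H : ℕ := M * r with hH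
    have hH0n : 0 < H := by rw [hH, hM]; positivity
    have hH0 : (0 : ℝ) < H := by exact_mod_cast hH0n
    have hHE : r ^ E ≤ H := by
      rw [hH, hM, ← pow_succ]
      exact Nat.pow_le_pow_right hr1 (by omega)
    have hHr : (r : ℝ) ^ 5 ≤ H := by
      have h5 : r ^ 5 ≤ H := by
        rw [hH, hM, ← pow_succ]
        exact Nat.pow_le_pow_right hr1 (by omega)
      exact_mod_cast h5
    have hwn : ∀ n, ‖w n‖ ≤ 2 * (1 + Real.log r) := by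
      intro n
      have e4 : cj px (B.eval (n : ℤ)) * ((uu px.1.primeFactors (B.eval (n : ℤ)) : ℝ) : ℂ) =
          gk px 1 (B.eval (n : ℤ)) := by
        rw [← B1_SD px.1 hr1 px dvd_rfl (B.eval (n : ℤ)), x1a_SD1 px.1 hr1, Finset.sum_singleton]
      rw [hw]
      beta_reduce
      rw [← e4, norm_mul, Complex.norm_real, Real.norm_eq_abs, abs_of_nonneg (M3a_uu r hr1 _).1]
      calc _ ≤ 1 * ((r : ℝ) / (Nat.totient r : ℝ)) :=
            mul_le_mul (x1_cj_norm _ _) (M3a_uu r hr1 _).2 (M3a_uu r hr1 _).1 zero_le_one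
        _ = (r : ℝ) / (Nat.totient r : ℝ) := one_mul _
        _ ≤ _ := M3b r hr1
    have hsum : ∀ h : Fin k → ℕ, (H : ℂ) * MRf (pB px ({0} : Finset (Fin (k + 1)))) r (sys B P h) =
        ∑ n ∈ Ico 0 (0 + H), w n * ∑ κ ∈ T1, ∏ i, gk (p i) (κ i) ((P i).eval (n : ℤ) + h i) +
        ∑ n ∈ Ico 0 (0 + H), w n * ∑ κ ∈ T2, ∏ i, gk (p i) (κ i) ((P i).eval (n : ℤ) + h i) := by
      intro h
      have hr0c : (r : ℂ) ≠ 0 := by exact_mod_cast hr0.ne'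
      have h1 := x1b_mean (fun n => Phf (pB px ({0} : Finset (Fin (k + 1)))) r.primeFactors
        (at' (sys B P h) n)) r M (fun n => P2_Ph (sys B P h) (P2_sys B P h) _ r r dvd_rfl (by
          intro i
          unfold pB
          split_ifs
          · exact dvd_rfl
          · exact one_dvd _) n)
      have h2 : (H : ℂ) * MRf (pB px ({0} : Finset (Fin (k + 1)))) r (sys B P h) =
          ∑ n ∈ range (M * r), Phf (pB px ({0} : Finset (Fin (k + 1)))) r.primeFactors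
            (at' (sys B P h) (n : ℤ)) := by
        rw [h1]
        unfold MRf
        rw [hH]
        push_cast
        field_simp
      rw [h2, ← Finset.sum_add_distrib, zero_add, Nat.Ico_zero_eq_range]
      refine Finset.sum_congr rfl fun n _ => ?_
      rw [← mul_add, hT1, hT2, Finset.sum_filter_add_sum_filter_not]
      exact x1b_exp Q px hpx B P h (n : ℤ)
    have hS1 : ∀ h : Fin k → ℕ, ‖∑ n ∈ Ico 0 (0 + H), w n *
        ∑ κ ∈ T1, ∏ i, gk (p i) (κ i) ((P i).eval (n : ℤ) + h i)‖ ≤ 2 * (r : ℝ) ^ 3 := by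
      intro h
      refine (x1b_small B hB.deg P r D hD1 px hpxr rfl p hsub.2 T1 ((filter_subset _ _).trans hsub.1)
        (fun κ hκ => (mem_filter.mp hκ).2) hnd h 0 H).trans ?_
      have h2 : (D : ℝ) ^ (2 * k + 1) ≤ r := by
        calc (D : ℝ) ^ (2 * k + 1) ≤ ((r : ℝ) ^ x) ^ (2 * k + 1) :=
              pow_le_pow_left₀ (by positivity) hD2 _
          _ = (r : ℝ) ^ (x * ((2 * k + 1 : ℕ) : ℝ)) := by
              rw [← Real.rpow_natCast, ← Real.rpow_mul hr0.le]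
          _ ≤ (r : ℝ) ^ (1 : ℝ) := by
              refine Real.rpow_le_rpow_of_exponent_le hrge1 ?_
              rw [hx, div_mul_eq_mul_div, one_mul, div_le_one (by positivity)]
              push_cast
              linarith
          _ = r := Real.rpow_one _
      calc 2 * (r : ℝ) ^ 2 * (D : ℝ) ^ (2 * k + 1) ≤ 2 * (r : ℝ) ^ 2 * r :=
            mul_le_mul_of_nonneg_left h2 (by positivity)
        _ = 2 * (r : ℝ) ^ 3 := by ring
    have hB2 := hG r hr1 hrQ p hsub.2 T2 ((filter_subset _ _).trans hsub.1) D hD1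
      (fun κ hκ => not_le.mp (mem_filter.mp hκ).2) 0 H hHE w
    have hW : ∑ n ∈ Ico 0 (0 + H), ‖w n‖ ^ 2 ≤ H * (4 * (1 + Real.log r) ^ 2) := by
      calc ∑ n ∈ Ico 0 (0 + H), ‖w n‖ ^ 2 ≤ ∑ _n ∈ Ico 0 (0 + H), 4 * (1 + Real.log r) ^ 2 := by
            refine Finset.sum_le_sum fun n _ => ?_
            have h1 := pow_le_pow_left₀ (norm_nonneg _) (hwn n) 2
            calc ‖w n‖ ^ 2 ≤ (2 * (1 + Real.log r)) ^ 2 := h1
              _ = _ := by ring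
        _ = _ := by
            rw [Finset.sum_const, Nat.card_Ico, nsmul_eq_mul, zero_add, Nat.sub_zero]
    have hneg : (D : ℝ) ^ (-cc) ≤ 2 * (r : ℝ) ^ (-c) := by
      refine (G1_neg hr1 hx0.le hcc0.le).trans ?_
      refine mul_le_mul_of_nonneg_right ?_ (by positivity)
      calc (2 : ℝ) ^ cc ≤ 2 ^ (1 : ℝ) := Real.rpow_le_rpow_of_exponent_le (by norm_num) hcc1
        _ = 2 := Real.rpow_one 2
    have hLc : (1 + Real.log r) ^ Cc * (1 + Real.log r) ^ 2 ≤ (1 + Real.log r) ^ C := by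
      rw [← Real.rpow_natCast (1 + Real.log r) 2, ← Real.rpow_add (by linarith)]
      refine Real.rpow_le_rpow_of_exponent_le hL1 ?_
      push_cast
      linarith
    have hS2 : ∑ h ∈ S, ‖∑ n ∈ Ico 0 (0 + H), w n *
        ∑ κ ∈ T2, ∏ i, gk (p i) (κ i) ((P i).eval (n : ℤ) + g h i)‖ ^ 2 ≤
        (H : ℝ) ^ 2 * (8 * Cc * ((1 + Real.log r) ^ C * S.card * (r : ℝ) ^ (-c))) := by
      refine hB2.trans ?_
      have h0 : 0 ≤ (1 + Real.log r) ^ Cc := Real.rpow_nonneg (by linarith) _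
      have hD0 : 0 ≤ (D : ℝ) ^ (-cc) := Real.rpow_nonneg (Nat.cast_nonneg _) _
      calc Cc * (1 + Real.log r) ^ Cc * S.card * (H * ∑ n ∈ Ico 0 (0 + H), ‖w n‖ ^ 2) * (D : ℝ) ^ (-cc)
          ≤ Cc * (1 + Real.log r) ^ Cc * S.card * (H * (H * (4 * (1 + Real.log r) ^ 2))) *
            (2 * (r : ℝ) ^ (-c)) := by
            refine mul_le_mul ?_ hneg hD0 (by positivity)
            refine mul_le_mul_of_nonneg_left ?_ (by positivity)
            exact mul_le_mul_of_nonneg_left hW hH0.le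
        _ = (H : ℝ) ^ 2 * (8 * Cc * (((1 + Real.log r) ^ Cc * (1 + Real.log r) ^ 2) * S.card *
            (r : ℝ) ^ (-c))) := by ring
        _ ≤ (H : ℝ) ^ 2 * (8 * Cc * ((1 + Real.log r) ^ C * S.card * (r : ℝ) ^ (-c))) := by
            refine mul_le_mul_of_nonneg_left ?_ (by positivity)
            refine mul_le_mul_of_nonneg_left ?_ (by positivity)
            refine mul_le_mul_of_nonneg_right ?_ hrc.le
            exact mul_le_mul_of_nonneg_right hLc hv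
    have hS1' : ∑ h ∈ S, ‖∑ n ∈ Ico 0 (0 + H), w n *
        ∑ κ ∈ T1, ∏ i, gk (p i) (κ i) ((P i).eval (n : ℤ) + g h i)‖ ^ 2 ≤
        (H : ℝ) ^ 2 * (4 * ((1 + Real.log r) ^ C * S.card * (r : ℝ) ^ (-c))) := by
      have h1 : ∀ h ∈ S, ‖∑ n ∈ Ico 0 (0 + H), w n *
          ∑ κ ∈ T1, ∏ i, gk (p i) (κ i) ((P i).eval (n : ℤ) + g h i)‖ ^ 2 ≤ 4 * (r : ℝ) ^ 6 := by
        intro h _
        refine (pow_le_pow_left₀ (norm_nonneg _) (hS1 (g h)) 2).trans (le_of_eq ?_)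
        ring
      refine (Finset.sum_le_sum h1).trans ?_
      rw [Finset.sum_const, nsmul_eq_mul]
      have h2 : (r : ℝ) ^ (-(1 : ℝ)) ≤ (r : ℝ) ^ (-c) :=
        Real.rpow_le_rpow_of_exponent_le hrge1 (by linarith)
      rw [Real.rpow_neg_one] at h2
      have h3 : 1 ≤ (1 + Real.log r) ^ C := Real.one_le_rpow hL1 hCpos.le
      have h4 : (r : ℝ) ^ 6 ≤ (r : ℝ) ^ 10 * (r : ℝ)⁻¹ := by
        have h5 : (r : ℝ) ^ 10 * (r : ℝ)⁻¹ = (r : ℝ) ^ 9 := by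
          field_simp
        rw [h5]
        exact pow_le_pow_right₀ hrge1 (by norm_num)
      calc S.card * (4 * (r : ℝ) ^ 6) ≤ S.card * (4 * ((r : ℝ) ^ 10 * (r : ℝ)⁻¹)) := by
            refine mul_le_mul_of_nonneg_left ?_ hv
            linarith
        _ ≤ S.card * (4 * ((r : ℝ) ^ 10 * (r : ℝ) ^ (-c))) := by
            refine mul_le_mul_of_nonneg_left ?_ hv
            have := mul_le_mul_of_nonneg_left h2 (show (0 : ℝ) ≤ (r : ℝ) ^ 10 by positivity)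
            linarith
        _ = 1 * (((r : ℝ) ^ 5) ^ 2 * (4 * (S.card * (r : ℝ) ^ (-c)))) := by ring
        _ ≤ (1 + Real.log r) ^ C * (((r : ℝ) ^ 5) ^ 2 * (4 * (S.card * (r : ℝ) ^ (-c)))) :=
            mul_le_mul_of_nonneg_right h3 (by positivity)
        _ = ((r : ℝ) ^ 5) ^ 2 * (4 * ((1 + Real.log r) ^ C * S.card * (r : ℝ) ^ (-c))) := by ring
        _ ≤ (H : ℝ) ^ 2 * (4 * ((1 + Real.log r) ^ C * S.card * (r : ℝ) ^ (-c))) := by
            refine mul_le_mul_of_nonneg_right ?_ (by positivity)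
            exact pow_le_pow_left₀ (by positivity) hHr 2
    have hpt : ∀ x ∈ S, (H : ℝ) ^ 2 *
        ‖MRf (pB px ({0} : Finset (Fin (k + 1)))) r (sys B P (g x))‖ ^ 2 ≤
        2 * ‖∑ n ∈ Ico 0 (0 + H), w n * ∑ κ ∈ T1, ∏ i, gk (p i) (κ i) ((P i).eval (n : ℤ) + g x i)‖ ^ 2 +
        2 * ‖∑ n ∈ Ico 0 (0 + H), w n *
          ∑ κ ∈ T2, ∏ i, gk (p i) (κ i) ((P i).eval (n : ℤ) + g x i)‖ ^ 2 := by
      intro x _
      obtain ⟨h, hhd⟩ : ∃ h : Fin k → ℕ, g x = h := ⟨g x, rfl⟩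
      rw [hhd]
      have h1 : (H : ℝ) * ‖MRf (pB px ({0} : Finset (Fin (k + 1)))) r (sys B P h)‖ =
          ‖(H : ℂ) * MRf (pB px ({0} : Finset (Fin (k + 1)))) r (sys B P h)‖ := by
        rw [norm_mul, Complex.norm_natCast]
      rw [← mul_pow, h1, hsum h]
      refine (pow_le_pow_left₀ (norm_nonneg _) (norm_add_le _ _) 2).trans ?_
      nlinarith [sq_nonneg (‖∑ n ∈ Ico 0 (0 + H), w n *
        ∑ κ ∈ T1, ∏ i, gk (p i) (κ i) ((P i).eval (n : ℤ) + h i)‖ - ‖∑ n ∈ Ico 0 (0 + H), w n *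
        ∑ κ ∈ T2, ∏ i, gk (p i) (κ i) ((P i).eval (n : ℤ) + h i)‖)]
    have htot := Finset.sum_le_sum hpt
    rw [← Finset.mul_sum, Finset.sum_add_distrib, ← Finset.mul_sum, ← Finset.mul_sum] at htot
    set Z : ℝ := (1 + Real.log r) ^ C * S.card * (r : ℝ) ^ (-c) with hZ
    have hZ0 : 0 ≤ Z := by positivity
    have h6 : (H : ℝ) ^ 2 * ∑ h ∈ S, ‖MRf (pB px ({0} : Finset (Fin (k + 1)))) r (sys B P (g h))‖ ^ 2 ≤
        (H : ℝ) ^ 2 * ((16 * Cc + 8) * Z) := by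
      refine htot.trans ?_
      calc 2 * _ + 2 * _ ≤ 2 * ((H : ℝ) ^ 2 * (4 * Z)) + 2 * ((H : ℝ) ^ 2 * (8 * Cc * Z)) :=
            add_le_add (mul_le_mul_of_nonneg_left hS1' (by norm_num))
              (mul_le_mul_of_nonneg_left hS2 (by norm_num))
        _ = (H : ℝ) ^ 2 * ((16 * Cc + 8) * Z) := by ring
    have h7 := le_of_mul_le_mul_left h6 (by positivity)
    refine h7.trans ?_
    calc (16 * Cc + 8) * Z ≤ C * Z := by
          refine mul_le_mul_of_nonneg_right ?_ hZ0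
          rw [hCd]
          linarith
      _ = C * (1 + Real.log r) ^ C * S.card * (r : ℝ) ^ (-c) := by
          rw [hZ]
          ring

end Pool.Agent.HUP
end
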