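import Pool.Agent.Lib.H59M.M1.M006
import Pool.Agent.Lib.H59M.M1.M013
import Pool.Agent.Lib.H59M.M1.M021
import Pool.Agent.Lib.H59M.M1.M051
import Pool.Agent.Lib.H59M.M1.M059
import Pool.Agent.Lib.H59M.M1.M070
import Pool.Agent.Lib.H59M.M1.M079

/-! Merged copies (to shorten the build) of Lib.H9U.A1, Lib.H9U.A2, Lib.HUK.BH0, Lib.HUK.BH3, Lib.HUK.BH1, Lib.HUK.BH2, Lib.HUK.BH4, Lib.HUK.BH5, Lib.HUK.BH6, Lib.HUK.BH8, Lib.HUK.BH7, Lib.HUK.BH9. -/

-- from Lib.H9U.A1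
section

/-!
# H9U, chunk A1 (S/M): the model with explicit coefficients at good and at exceptional levels
-/

open Finset

namespace Pool.Agent.H9U

open Pool.Agent.Lib.H68T Pool.Agent.Lib.H18Q Pool.Agent.Lib.H59P

/-- Proof. Copy `mdl_good` (`H59P/A3.lean`): there `LevE` is proved with `e m p = Bc Q X p m - MX p0 _ m p`, which is exactly `MdB.cf` with the same `eb`. -/
theorem mdb_good (c : ℝ) (hc : 0 < c) : ∃ K C : ℝ, 1 ≤ K ∧ 1 ≤ C ∧ ∀ kp : ℝ, K ≤ kp →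
    ∀ Q X : ℕ, RegP K Q X → kp * Real.log Q ≤ Real.log X → Good c Q →
    MdB Q X 1 (C * Real.exp (-(kp / C)) + (Q : ℝ) ^ (-(1 / 4) : ℝ)) p0 (fun _ => 0) := by
  classical
  obtain ⟨K1, C, hK1, hC, hL1⟩ := L1_good_q c hc
  obtain ⟨K2, hK2, hLip⟩ := Bc_lip
  obtain ⟨K3, hK3, hLk⟩ := Lk_SG
  obtain ⟨K4, hK4, hB0⟩ := cl1_B0
  obtain ⟨K5, hK5, hB⟩ := B_leP
  refine ⟨max (max (max K1 K2) (max K3 K4)) (max K5 16), C,
    hK1.trans ((le_max_left _ _).trans ((le_max_left _ _).trans (le_max_left _ _))), hC, ?_⟩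
  intro kp hkp Q X hreg hkQ hgood
  obtain ⟨K, hKd⟩ : ∃ K, K = max (max (max K1 K2) (max K3 K4)) (max K5 16) := ⟨_, rfl⟩
  rw [← hKd] at hreg hkp
  have k1 : K1 ≤ K := by rw [hKd]; exact (le_max_left _ _).trans ((le_max_left _ _).trans (le_max_left _ _))
  have k2 : K2 ≤ K := by rw [hKd]; exact (le_max_right _ _).trans ((le_max_left _ _).trans (le_max_left _ _))
  have k3 : K3 ≤ K := by rw [hKd]; exact (le_max_left _ _).trans ((le_max_right _ _).trans (le_max_left _ _))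
  have k4 : K4 ≤ K := by rw [hKd]; exact (le_max_right _ _).trans ((le_max_right _ _).trans (le_max_left _ _))
  have k5 : K5 ≤ K := by rw [hKd]; exact (le_max_left _ _).trans (le_max_right _ _)
  have k6 : 16 ≤ K := by rw [hKd]; exact (le_max_right _ _).trans (le_max_right _ _)
  clear hKd
  have hKp : 1 ≤ K := hK1.trans k1
  have hK0 : 0 ≤ K := by linarith
  have hQ1 : 1 ≤ Q := hreg.Q_pos hKp
  have hQ1' : (1 : ℝ) ≤ Q := by exact_mod_cast hQ1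
  have hQK := hreg.Q_ge hKp
  have hX0 : (0 : ℝ) < X := by exact_mod_cast hreg.X_pos (by linarith)
  have hL := hL1 kp (by linarith) Q X (hreg.mono hK0 k1) hkQ hgood
  obtain ⟨q, hq⟩ : ∃ q, q = (Q : ℝ) ^ (-(5 / 2) : ℝ) := ⟨_, rfl⟩
  have hq0 : 0 ≤ q := by rw [hq]; positivity
  obtain ⟨eb, heb⟩ : ∃ eb : (Σ r : ℕ, DirichletCharacter ℂ r) → ℝ, eb = fun p =>
    (if p = p0 then ∫ t in (-(Q : ℝ) ^ 7)..((Q : ℝ) ^ 7), ‖FL X p0 t - F0 X t‖
      else ∫ t in (-(Q : ℝ) ^ 7)..((Q : ℝ) ^ 7), ‖FL X p t‖) + q := ⟨_, rfl⟩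
  have heb0 : ∀ p, 0 ≤ eb p := by
    intro p
    rw [heb]
    simp only
    split_ifs
    · exact add_nonneg (cl1_int_nonneg Q _) hq0
    · exact add_nonneg (cl1_int_nonneg Q _) hq0
  have hsum : ∑ p ∈ PC Q, eb p ≤ C * Real.exp (-(kp / C)) + (Q : ℝ) ^ (-(1 / 4) : ℝ) := by
    have h1 : ∑ p ∈ PC Q, eb p =
        (∑ p ∈ PC Q, (if p = p0 then ∫ t in (-(Q : ℝ) ^ 7)..((Q : ℝ) ^ 7), ‖FL X p0 t - F0 X t‖
          else ∫ t in (-(Q : ℝ) ^ 7)..((Q : ℝ) ^ 7), ‖FL X p t‖)) + (PC Q).card * q := by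
      rw [heb, Finset.sum_add_distrib, Finset.sum_const, nsmul_eq_mul]
    rw [h1, ph_split (PC Q) p0 (p0_mem hQ1) (fun p => p ≠ p0) (fun _ => Iff.rfl), if_pos rfl]
    have h2 : ∑ p ∈ (PC Q).filter (fun p => p ≠ p0),
        (if p = p0 then ∫ t in (-(Q : ℝ) ^ 7)..((Q : ℝ) ^ 7), ‖FL X p0 t - F0 X t‖
          else ∫ t in (-(Q : ℝ) ^ 7)..((Q : ℝ) ^ 7), ‖FL X p t‖) =
        ∑ p ∈ (PC Q).filter (fun p => p ≠ p0), ∫ t in (-(Q : ℝ) ^ 7)..((Q : ℝ) ^ 7), ‖FL X p t‖ :=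
      Finset.sum_congr rfl fun p hp => by rw [if_neg (mem_filter.1 hp).2]
    rw [h2]
    have h3 : ((PC Q).card : ℝ) * q ≤ 1 / Real.sqrt Q := by
      rw [← (cl1_Qpow hQ1).1, ← hq]
      apply mul_le_mul_of_nonneg_right _ hq0
      exact_mod_cast card_PC_le Q
    have h4 := a3_q4 (Q := Q) (by linarith)
    have h5 := a3_inv (Q := Q) (by linarith)
    have h6 : 2 / Real.sqrt Q = 1 / Real.sqrt Q + 1 / Real.sqrt Q := by ring
    linarith
  refine ⟨one_pos, le_rfl, p0_mem hQ1, ?_, fun _ _ => rfl, fun _ _ _ => le_rfl, ?_, ?_⟩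
  · have : p0.2 = 1 := rfl
    rw [this, one_pow]
  · intro m _ _
    simp
  · have hMX : ∀ m p, MX p0 (fun _ => 0) m p = if p = p0 then 1 else 0 := by
      intro m p
      unfold MX
      split_ifs <;> simp
    refine ⟨eb, fun p _ => heb0 p, ?_, ?_⟩
    · rw [one_mul]
      exact hsum
    · intro m hm hm4 p hp
      rw [hMX, heb]
      simp only
      split_ifs with h
      · rw [h, hq]
        exact hB0 Q X (hreg.mono hK0 k4) m hm hm4
      · rw [sub_zero, hq]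
        exact hB Q X (hreg.mono hK0 k5) p (mem_PC.1 hp).1 m hm hm4

/-- Proof. Copy `mdl_exc` (`H59P/A4.lean`): there `LevE` is proved with `e m p = Bc Q X p m - MX ⟨r, ψ⟩ _ m p`. -/
theorem mdb_exc : ∃ c1 K C : ℝ, 0 < c1 ∧ c1 < 1 ∧ 1 ≤ K ∧ 1 ≤ C ∧ ∀ kp : ℝ, K ≤ kp →
    ∀ Q X : ℕ, RegP K Q X → kp * Real.log Q ≤ Real.log X →
    ∀ (r : ℕ) [NeZero r] (ψ : DirichletCharacter ℂ r), r ^ 100 ≤ Q →
    ψ.IsPrimitive → ψ ≠ 1 → ψ ^ 2 = 1 → ∀ β : ℝ, β < 1 → ψ.LFunction (β : ℂ) = 0 →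
    (1 - β) * Real.log Q ≤ c1 →
    (1 - β) * Real.log Q / 2 ≤ 1 - (X : ℝ) ^ (β - 1) ∧
    MdB Q X (1 - (X : ℝ) ^ (β - 1)) (C * Real.exp (-(kp / C)) + (Q : ℝ) ^ (-(1 / 4) : ℝ)) ⟨r, ψ⟩
      (fun m => (m : ℝ) ^ (β - 1)) := by
  classical
  obtain ⟨c1, K1, C1, hc1, hc11, hK1, hC1, hL1⟩ := L1_exceptional_q
  obtain ⟨K2, hK2, hLip⟩ := Bc_lip
  obtain ⟨K3, hK3, hLk⟩ := Lk_SG
  obtain ⟨K4, hK4, hB0⟩ := cl1_B0
  obtain ⟨K5, hK5, hB⟩ := B_leP
  obtain ⟨K6, hK6, hB1⟩ := B1_leP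
  obtain ⟨ce, hce, hel⟩ := zero_elementary
  refine ⟨c1, max (max (max K1 K2) (max K3 K4)) (max (max K5 K6) (max 256 ((8 / ce) ^ 8))),
    2 * C1, hc1, hc11,
    hK1.trans ((le_max_left _ _).trans ((le_max_left _ _).trans (le_max_left _ _))),
    by linarith, ?_⟩
  intro kp hkp Q X hreg hkQ r _ ψ hr100 hprim hψ1 hψ2 β hβ hLβ hsmall
  obtain ⟨K, hKd⟩ : ∃ K, K = max (max (max K1 K2) (max K3 K4)) (max (max K5 K6)
    (max 256 ((8 / ce) ^ 8))) := ⟨_, rfl⟩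
  rw [← hKd] at hreg hkp
  have k1 : K1 ≤ K := by rw [hKd]; exact (le_max_left _ _).trans ((le_max_left _ _).trans (le_max_left _ _))
  have k2 : K2 ≤ K := by rw [hKd]; exact (le_max_right _ _).trans ((le_max_left _ _).trans (le_max_left _ _))
  have k3 : K3 ≤ K := by rw [hKd]; exact (le_max_left _ _).trans ((le_max_right _ _).trans (le_max_left _ _))
  have k4 : K4 ≤ K := by rw [hKd]; exact (le_max_right _ _).trans ((le_max_right _ _).trans (le_max_left _ _))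
  have k5 : K5 ≤ K := by rw [hKd]; exact (le_max_left _ _).trans ((le_max_left _ _).trans (le_max_right _ _))
  have k6 : K6 ≤ K := by rw [hKd]; exact (le_max_right _ _).trans ((le_max_left _ _).trans (le_max_right _ _))
  have k7 : 256 ≤ K := by rw [hKd]; exact (le_max_left _ _).trans ((le_max_right _ _).trans (le_max_right _ _))
  have k8 : (8 / ce) ^ 8 ≤ K := by
    rw [hKd]; exact (le_max_right _ _).trans ((le_max_right _ _).trans (le_max_right _ _))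
  clear hKd
  have hKp : 1 ≤ K := hK1.trans k1
  have hK0 : 0 ≤ K := by linarith
  have hQ1 : 1 ≤ Q := hreg.Q_pos hKp
  have hQ1' : (1 : ℝ) ≤ Q := by exact_mod_cast hQ1
  have hQK := hreg.Q_ge hKp
  have hlQ := hreg.logQ_ge hKp
  have hX1 : 1 ≤ X := hreg.X_pos (by linarith)
  have hX0 : (0 : ℝ) < X := by exact_mod_cast hX1
  have hr0 : 1 ≤ r := Nat.pos_of_ne_zero (NeZero.ne r)
  have hr : r ≤ Q := (Nat.le_self_pow (by norm_num) r).trans hr100
  have hη : 0 < 1 - β := by linarith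
  have hβ12 : 1 / 2 ≤ β := by
    by_contra hcon
    have h1 : (1 / 2 : ℝ) ≤ 1 - β := by linarith [not_le.1 hcon]
    have h2 : (1 / 2 : ℝ) * 3 ≤ (1 - β) * Real.log Q :=
      mul_le_mul h1 (by linarith) (by norm_num) hη.le
    linarith
  have hL := hL1 kp (by linarith) Q X (hreg.mono hK0 k1) hkQ r ψ hr hprim hψ1 hψ2 β hβ hLβ hsmall
  have hmemψ : (⟨r, ψ⟩ : Σ r : ℕ, DirichletCharacter ℂ r) ∈ PC Q :=
    mem_PC.2 ⟨hr0, hr, hprim⟩
  have hneψ : (⟨r, ψ⟩ : Σ r : ℕ, DirichletCharacter ℂ r) ≠ p0 := by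
    intro h
    unfold p0 at h
    obtain ⟨h1, h2⟩ := Sigma.mk.inj_iff.1 h
    subst h1
    exact hψ1 (eq_of_heq h2)
  obtain ⟨x, hxd⟩ : ∃ x, x = (1 - β) * Real.log Q := ⟨_, rfl⟩
  have hx0 : 0 < x := by rw [hxd]; exact mul_pos hη (by linarith)
  rw [← hxd] at hsmall hL ⊢
  obtain ⟨q, hq⟩ : ∃ q, q = (Q : ℝ) ^ (-(5 / 2) : ℝ) := ⟨_, rfl⟩
  have hq0 : 0 ≤ q := by rw [hq]; positivity
  obtain ⟨q', hq'⟩ : ∃ q', q' = (Q : ℝ) ^ (-(3 / 2) : ℝ) := ⟨_, rfl⟩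
  have hq'0 : 0 ≤ q' := by rw [hq']; positivity
  obtain ⟨I, hI⟩ : ∃ I : (Σ r : ℕ, DirichletCharacter ℂ r) → ℝ, I = fun p =>
    (if p = p0 then ∫ t in (-(Q : ℝ) ^ 7)..((Q : ℝ) ^ 7), ‖FL X p0 t - F0 X t‖
      else if p = ⟨r, ψ⟩ then ∫ t in (-(Q : ℝ) ^ 7)..((Q : ℝ) ^ 7), ‖FL X ⟨r, ψ⟩ t + Fb X β t‖
      else ∫ t in (-(Q : ℝ) ^ 7)..((Q : ℝ) ^ 7), ‖FL X p t‖) := ⟨_, rfl⟩
  have hI0 : ∀ p, 0 ≤ I p := by
    intro p
    rw [hI]
    simp only
    split_ifs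
    · exact cl1_int_nonneg Q _
    · exact cl1_int_nonneg Q _
    · exact cl1_int_nonneg Q _
  obtain ⟨eb, heb⟩ : ∃ eb : (Σ r : ℕ, DirichletCharacter ℂ r) → ℝ, eb = fun p =>
    I p + q + (if p = ⟨r, ψ⟩ then q' else 0) := ⟨_, rfl⟩
  have heb0 : ∀ p, 0 ≤ eb p := by
    intro p
    rw [heb]
    have := hI0 p
    simp only
    split_ifs <;> linarith
  have hIsum : ∑ p ∈ PC Q, I p ≤ (C1 * Real.exp (-(kp / C1)) + 1 / Q) * x := by
    rw [ph_split (PC Q) p0 (p0_mem hQ1) (fun p => p ≠ p0) (fun _ => Iff.rfl),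
      ph_split ((PC Q).filter (fun p => p ≠ p0)) ⟨r, ψ⟩ (mem_filter.2 ⟨hmemψ, hneψ⟩)
        (fun p => p ≠ ⟨r, ψ⟩) (fun _ => Iff.rfl)]
    have hfilt : ((PC Q).filter (fun p => p ≠ p0)).filter (fun p => p ≠ ⟨r, ψ⟩) =
        (PC Q).filter (fun p => p ≠ p0 ∧ p ≠ ⟨r, ψ⟩) := by
      ext p
      simp only [mem_filter]
      tauto
    rw [hfilt]
    have e1 : I p0 = ∫ t in (-(Q : ℝ) ^ 7)..((Q : ℝ) ^ 7), ‖FL X p0 t - F0 X t‖ := by
      rw [hI]
      beta_reduce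
      rw [if_pos rfl]
    have e2 : I ⟨r, ψ⟩ = ∫ t in (-(Q : ℝ) ^ 7)..((Q : ℝ) ^ 7), ‖FL X ⟨r, ψ⟩ t + Fb X β t‖ := by
      rw [hI]
      beta_reduce
      rw [if_neg hneψ, if_pos rfl]
    have e3 : ∑ p ∈ (PC Q).filter (fun p => p ≠ p0 ∧ p ≠ ⟨r, ψ⟩), I p =
        ∑ p ∈ (PC Q).filter (fun p => p ≠ p0 ∧ p ≠ ⟨r, ψ⟩),
          ∫ t in (-(Q : ℝ) ^ 7)..((Q : ℝ) ^ 7), ‖FL X p t‖ := by
      refine Finset.sum_congr rfl fun p hp => ?_
      rw [hI]
      simp only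
      rw [if_neg (mem_filter.1 hp).2.1, if_neg (mem_filter.1 hp).2.2]
    rw [e1, e2, e3]
    linarith
  obtain ⟨η, hηd⟩ : ∃ η, η = 1 - (X : ℝ) ^ (β - 1) := ⟨_, rfl⟩
  have hlQX : Real.log Q ≤ Real.log X := by
    have h1 : 1 * Real.log Q ≤ kp * Real.log Q :=
      mul_le_mul_of_nonneg_right (by linarith) (by linarith)
    linarith
  have hηx : x / 2 ≤ η := by
    rw [hηd, hxd]
    exact a4_eta hX1 hβ hlQX (by rw [← hxd]; linarith)
  have hη0 : 0 < η := by linarith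
  -- the size of η
  have hηQ : 4 * (Q : ℝ) ^ (-(1 / 4) : ℝ) ≤ η := by
    have hr1 : (1 : ℝ) ≤ r := by exact_mod_cast hr0
    have h6 := hel r ψ hψ1 hψ2 β hβ hLβ
    have h7 : ce / (r : ℝ) ^ 2 ≤ x := by
      rw [hxd]
      have h8 : 0 ≤ ce / (r : ℝ) ^ 2 := by positivity
      calc ce / (r : ℝ) ^ 2 = ce / (r : ℝ) ^ 2 * 1 := (mul_one _).symm
        _ ≤ (1 - β) * Real.log Q := mul_le_mul h6 (by linarith) zero_le_one hη.le
    have h8 : 8 / ce * (r : ℝ) ^ 2 ≤ (Q : ℝ) ^ (1 / 4 : ℝ) := by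
      have h9 : (8 / ce * (r : ℝ) ^ 2) ^ 8 ≤ (Q : ℝ) ^ 2 := by
        have h10 : (r : ℝ) ^ 16 ≤ Q := by
          have : r ^ 16 ≤ Q := (Nat.pow_le_pow_right hr0 (by norm_num)).trans hr100
          exact_mod_cast this
        calc (8 / ce * (r : ℝ) ^ 2) ^ 8 = (8 / ce) ^ 8 * (r : ℝ) ^ 16 := by ring
          _ ≤ (Q : ℝ) * (Q : ℝ) := mul_le_mul (k8.trans hQK) h10 (by positivity) (by positivity)
          _ = _ := by ring
      have h11 : ((Q : ℝ) ^ (1 / 4 : ℝ)) ^ 8 = (Q : ℝ) ^ 2 := by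
        rw [← Real.rpow_natCast, ← Real.rpow_mul (by linarith)]
        norm_num
      rw [← h11] at h9
      exact le_of_pow_le_pow_left₀ (by norm_num) (by positivity) h9
    have h12 : (0 : ℝ) < (Q : ℝ) ^ (1 / 4 : ℝ) := by positivity
    have h13 : 4 * (Q : ℝ) ^ (-(1 / 4) : ℝ) ≤ ce / (r : ℝ) ^ 2 / 2 := by
      have h14 : 4 * (Q : ℝ) ^ (-(1 / 4) : ℝ) = 4 / (Q : ℝ) ^ (1 / 4 : ℝ) := by
        rw [Real.rpow_neg (by linarith)]
        exact (div_eq_mul_inv _ _).symm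
      have h15 : ce / (r : ℝ) ^ 2 / 2 = 4 / (8 / ce * (r : ℝ) ^ 2) := by
        have hr2 : (0 : ℝ) < (r : ℝ) ^ 2 := by positivity
        rw [eq_div_iff (by positivity)]
        have e1 : ce / (r : ℝ) ^ 2 / 2 * (8 / ce * (r : ℝ) ^ 2) =
            4 * (ce / ce) * ((r : ℝ) ^ 2 / (r : ℝ) ^ 2) := by ring
        rw [e1, div_self hce.ne', div_self hr2.ne']
        norm_num
      rw [h14, h15]
      exact div_le_div_of_nonneg_left (by norm_num) (by positivity) h8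
    linarith
  have hsum : ∑ p ∈ PC Q, eb p ≤
      η * (2 * C1 * Real.exp (-(kp / (2 * C1))) + (Q : ℝ) ^ (-(1 / 4) : ℝ)) := by
    have h1 : ∑ p ∈ PC Q, eb p = ∑ p ∈ PC Q, I p + (PC Q).card * q + q' := by
      rw [heb, Finset.sum_add_distrib, Finset.sum_add_distrib, Finset.sum_const, nsmul_eq_mul,
        Finset.sum_ite_eq' (PC Q) _ (fun _ => q'), if_pos hmemψ]
    have h3 : ((PC Q).card : ℝ) * q ≤ 1 / Real.sqrt Q := by
      rw [← (cl1_Qpow hQ1).1, ← hq]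
      apply mul_le_mul_of_nonneg_right _ hq0
      exact_mod_cast card_PC_le Q
    have h4 : q' ≤ 1 / Real.sqrt Q := by rw [hq']; exact (cl1_Qpow hQ1).2
    have hq4 : 0 < (Q : ℝ) ^ (-(1 / 4) : ℝ) := by positivity
    have hsq : 1 / Real.sqrt Q = (Q : ℝ) ^ (-(1 / 4) : ℝ) * (Q : ℝ) ^ (-(1 / 4) : ℝ) := by
      rw [Real.sqrt_eq_rpow, one_div, ← Real.rpow_neg (by linarith), ← Real.rpow_add (by linarith)]
      norm_num
    have h5 : 2 / Real.sqrt Q ≤ η / 2 * (Q : ℝ) ^ (-(1 / 4) : ℝ) := by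
      have e1 : 2 / Real.sqrt Q = 2 * (Q : ℝ) ^ (-(1 / 4) : ℝ) * (Q : ℝ) ^ (-(1 / 4) : ℝ) := by
        rw [mul_assoc, ← hsq]; ring
      rw [e1]
      exact mul_le_mul_of_nonneg_right (by linarith) hq4.le
    have h6 : 1 / (Q : ℝ) * x ≤ η / 2 * (Q : ℝ) ^ (-(1 / 4) : ℝ) := by
      have e1 : 1 / (Q : ℝ) ≤ 1 / 4 * (Q : ℝ) ^ (-(1 / 4) : ℝ) := by
        have e2 : 1 / (Q : ℝ) ≤ 1 / Real.sqrt Q := a3_inv (by linarith)
        have e3 : (Q : ℝ) ^ (-(1 / 4) : ℝ) ≤ 1 / 4 := by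
          have e4 : (256 : ℝ) ^ (1 / 4 : ℝ) ≤ (Q : ℝ) ^ (1 / 4 : ℝ) :=
            Real.rpow_le_rpow (by norm_num) (by linarith) (by norm_num)
          have e5 : (256 : ℝ) ^ (1 / 4 : ℝ) = 4 := by
            rw [show (256 : ℝ) = 4 ^ (4 : ℝ) by norm_num, ← Real.rpow_mul (by norm_num)]
            norm_num
          rw [e5] at e4
          rw [Real.rpow_neg (by linarith), ← one_div]
          exact one_div_le_one_div_of_le (by norm_num) e4
        rw [hsq] at e2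
        exact e2.trans (mul_le_mul_of_nonneg_right e3 hq4.le)
      calc 1 / (Q : ℝ) * x ≤ (1 / 4 * (Q : ℝ) ^ (-(1 / 4) : ℝ)) * (2 * η) :=
            mul_le_mul e1 (by linarith) hx0.le (by positivity)
        _ = η / 2 * (Q : ℝ) ^ (-(1 / 4) : ℝ) := by ring
    have h7 : C1 * Real.exp (-(kp / C1)) * x ≤ η * (2 * C1 * Real.exp (-(kp / (2 * C1)))) := by
      have e1 : Real.exp (-(kp / C1)) ≤ Real.exp (-(kp / (2 * C1))) := by
        apply Real.exp_le_exp.2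
        have : kp / (2 * C1) ≤ kp / C1 :=
          div_le_div_of_nonneg_left (by linarith) (by linarith) (by linarith)
        linarith
      calc C1 * Real.exp (-(kp / C1)) * x ≤ C1 * Real.exp (-(kp / (2 * C1))) * (2 * η) := by
            apply mul_le_mul _ (by linarith) hx0.le (by positivity)
            exact mul_le_mul_of_nonneg_left e1 (by linarith)
        _ = η * (2 * C1 * Real.exp (-(kp / (2 * C1)))) := by ring
    have h8 : 2 / Real.sqrt Q = 1 / Real.sqrt Q + 1 / Real.sqrt Q := by ring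
    have h9 : (C1 * Real.exp (-(kp / C1)) + 1 / Q) * x = C1 * Real.exp (-(kp / C1)) * x + 1 / Q * x := by
      ring
    rw [h9] at hIsum
    rw [h1]
    linarith
  obtain ⟨μ, hμ⟩ : ∃ μ : ℤ → (Σ r : ℕ, DirichletCharacter ℂ r) → ℂ, μ = fun (m : ℤ) p =>
    if p = p0 then 1 else if p = ⟨r, ψ⟩ then -(((m : ℝ) ^ (β - 1) : ℝ) : ℂ) else 0 := ⟨_, rfl⟩
  have hμ0 : ∀ m, μ m p0 = 1 := fun m => by rw [hμ]; beta_reduce; rw [if_pos rfl]
  have hμ1 : ∀ m, μ m ⟨r, ψ⟩ = -(((m : ℝ) ^ (β - 1) : ℝ) : ℂ) := fun m => by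
    rw [hμ]; beta_reduce; rw [if_neg hneψ, if_pos rfl]
  have hμ2 : ∀ m p, p ≠ p0 → p ≠ ⟨r, ψ⟩ → μ m p = 0 := fun m p h h' => by
    rw [hμ]; beta_reduce; rw [if_neg h, if_neg h']
  have hμX : ∀ m p, MX ⟨r, ψ⟩ (fun m => (m : ℝ) ^ (β - 1)) m p = μ m p := by
    intro m p
    rw [hμ]
    rfl
  have hXr : (1 : ℝ) ≤ X := by exact_mod_cast hX1
  refine ⟨by rw [← hηd]; exact hηx, ?_⟩
  rw [← hηd]
  refine ⟨hη0, ?_, hmemψ, hψ2, fun h => absurd h hneψ, ?_, ?_, ?_⟩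
  · rw [hηd]
    have : 0 ≤ (X : ℝ) ^ (β - 1) := by positivity
    linarith
  · intro m hm _
    have hm1 : (1 : ℝ) ≤ (m : ℝ) := by
      have : (1 : ℤ) ≤ m := by omega
      exact_mod_cast this
    exact Real.rpow_nonneg (by linarith) _
  · intro m hm _
    have hmX : (X : ℝ) ≤ (m : ℝ) := by exact_mod_cast hm
    rw [hηd]
    have : (m : ℝ) ^ (β - 1) ≤ (X : ℝ) ^ (β - 1) :=
      Real.rpow_le_rpow_of_nonpos hX0 hmX (by linarith)
    linarith
  · refine ⟨eb, fun p _ => heb0 p, hsum, ?_⟩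
    intro m hm hm4 p hp
    rw [hμX, heb, hI]
    simp only
    by_cases h : p = p0
    · have h'' : p0 ≠ (⟨r, ψ⟩ : Σ r : ℕ, DirichletCharacter ℂ r) := fun h3 => hneψ h3.symm
      rw [h, hμ0, if_pos rfl, if_neg h'', add_zero, hq]
      exact hB0 Q X (hreg.mono hK0 k4) m hm hm4
    · by_cases h' : p = ⟨r, ψ⟩
      · rw [h', hμ1, if_neg hneψ, if_pos rfl, if_pos rfl, sub_neg_eq_add]
        have h1 := hB1 Q X (hreg.mono hK0 k6) ⟨r, ψ⟩ hr0 β hβ12 hβ.le m hm hm4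
        rw [← hq'] at h1
        refine le_trans h1 ?_
        linarith
      · rw [hμ2 _ p h h', if_neg h, if_neg h', if_neg h', sub_zero, add_zero, hq]
        exact hB Q X (hreg.mono hK0 k5) p (mem_PC.1 hp).1 m hm hm4

end Pool.Agent.H9U
end

-- from Lib.H9U.A2
section

/-!
# H9U, chunk A2 (S/M): the level
-/

open Finset

namespace Pool.Agent.H9U

open Pool.Agent.Lib.H68T Pool.Agent.Lib.H18Q Pool.Agent.Lib.H59P

/-- Proof. Copy `mdl_level` (`H59P/A6.lean`) with `mdb_good`, `mdb_exc`. -/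
theorem mdb_level : ∃ c1 K C : ℝ, 0 < c1 ∧ c1 < 1 ∧ 1 ≤ K ∧ 1 ≤ C ∧ ∀ Q1 : ℕ, K ≤ Real.log Q1 →
    ∃ Q : ℕ, Q ≤ Q1 ∧ Real.log Q1 ≤ 200 * Real.log Q ∧
      ((∀ kp : ℝ, K ≤ kp → ∀ X : ℕ, RegP K Q X → kp * Real.log Q ≤ Real.log X →
        MdB Q X 1 (C * Real.exp (-(kp / C)) + (Q : ℝ) ^ (-(1 / 4) : ℝ)) p0 (fun _ => 0)) ∨
      ∃ (r : ℕ) (_ : NeZero r) (ψ : DirichletCharacter ℂ r) (β : ℝ), ExcZ c1 Q r ψ β ∧
        ∀ kp : ℝ, K ≤ kp → ∀ X : ℕ, RegP K Q X → kp * Real.log Q ≤ Real.log X →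
        (1 - β) * Real.log Q / 2 ≤ 1 - (X : ℝ) ^ (β - 1) ∧
        MdB Q X (1 - (X : ℝ) ^ (β - 1)) (C * Real.exp (-(kp / C)) + (Q : ℝ) ^ (-(1 / 4) : ℝ)) ⟨r, ψ⟩
          (fun m => (m : ℝ) ^ (β - 1))) := by
  obtain ⟨c1, K1, C1, hc1, hc11, hK1, hC1, hexc⟩ := mdb_exc
  obtain ⟨c2, K2, hc2, hgb⟩ := good_below
  obtain ⟨c, hcd⟩ : ∃ c, c = min c1 c2 := ⟨_, rfl⟩
  have hc0 : 0 < c := by rw [hcd]; exact lt_min hc1 hc2
  have hcc1 : c ≤ c1 := by rw [hcd]; exact min_le_left _ _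
  have hcc2 : c ≤ c2 := by rw [hcd]; exact min_le_right _ _
  obtain ⟨K3, C3, hK3, hC3, hg3⟩ := mdb_good c hc0
  obtain ⟨K4, C4, hK4, hC4, hg4⟩ := mdb_good c2 hc2
  obtain ⟨K, hKd⟩ : ∃ K, K = K1 + 200 * |K2| + K3 + K4 + 400 := ⟨_, rfl⟩
  obtain ⟨C, hCd⟩ : ∃ C, C = C1 + C3 + C4 := ⟨_, rfl⟩
  have ha2 := abs_nonneg K2
  have hle2 := le_abs_self K2
  have he2 : (2 : ℝ) ≤ Real.exp 1 := by linarith [Real.exp_one_gt_d9]
  refine ⟨c1, K, C, hc1, hc11, by linarith, by linarith, ?_⟩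
  intro Q1 hQ1
  have hK0 : 0 ≤ K := by linarith
  have hQ1pos : (0 : ℝ) < Q1 := by
    have h1 : Q1 ≠ 0 := by
      rintro rfl
      rw [Nat.cast_zero, Real.log_zero] at hQ1
      linarith
    exact_mod_cast Nat.pos_of_ne_zero h1
  -- errors
  have herr : ∀ C' : ℝ, 1 ≤ C' → C' ≤ C → ∀ kp : ℝ, 0 ≤ kp → ∀ Q : ℕ,
      C' * Real.exp (-(kp / C')) + (Q : ℝ) ^ (-(1 / 4) : ℝ) ≤
      C * Real.exp (-(kp / C)) + (Q : ℝ) ^ (-(1 / 4) : ℝ) := by
    intro C' h1 h2 kp hkp Q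
    have h3 : Real.exp (-(kp / C')) ≤ Real.exp (-(kp / C)) := by
      apply Real.exp_le_exp.2
      have : kp / C ≤ kp / C' := div_le_div_of_nonneg_left hkp (by linarith) h2
      linarith
    have h4 := mul_le_mul h2 h3 (Real.exp_pos _).le (by linarith)
    linarith
  have hmono : ∀ (Q X : ℕ) (η E E' : ℝ) (px : Ch) (th : ℤ → ℝ), E ≤ E' → MdB Q X η E px th →
      MdB Q X η E' px th := by
    intro Q X η E E' px th hE h
    refine ⟨h.eta_pos, h.eta_le, h.mem, h.real, h.triv, h.nonneg, h.le, ?_⟩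
    obtain ⟨eb, h1, h2, h3⟩ := h.cf
    exact ⟨eb, h1, h2.trans (mul_le_mul_of_nonneg_left hE h.eta_pos.le), h3⟩
  by_cases hG : Good c Q1
  · refine ⟨Q1, le_rfl, by linarith, Or.inl ?_⟩
    intro kp hkp X hreg hkQ
    exact hmono _ _ _ _ _ _ _ (herr C3 hC3 (by linarith) kp (by linarith) Q1)
      (hg3 kp (by linarith) Q1 X (hreg.mono hK0 (by linarith)) hkQ hG)
  · unfold Good at hG
    push Not at hG
    obtain ⟨r, hr, ψ, hrQ, hprim, hne, hsq, β, hβ1, hβ2, hz⟩ := hG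
    have hβ : β < 1 := by
      rcases lt_or_eq_of_le hβ2 with h | h
      · exact h
      · exfalso
        rw [h] at hz
        refine DirichletCharacter.LFunction_ne_zero_of_one_le_re ψ (Or.inl hne) ?_ hz
        simp
    by_cases hr100 : r ^ 100 ≤ Q1
    · have hsm : (1 - β) * Real.log Q1 ≤ c1 := by
        have h1 : 1 - β ≤ c / Real.log Q1 := by linarith
        rw [le_div_iff₀ (by linarith)] at h1
        linarith
      refine ⟨Q1, le_rfl, by linarith, Or.inr ⟨r, hr, ψ, β,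
        ⟨hr100, hprim, hne, hsq, hβ, hz, hsm⟩, ?_⟩⟩
      intro kp hkp X hreg hkQ
      obtain ⟨h1, h2⟩ := hexc kp (by linarith) Q1 X (hreg.mono hK0 (by linarith)) hkQ r ψ hr100
        hprim hne hsq β hβ hz hsm
      exact ⟨h1, hmono _ _ _ _ _ _ _ (herr C1 hC1 (by linarith) kp (by linarith) Q1) h2⟩
    · -- large conductor
      push Not at hr100
      have hr100' : (Q1 : ℝ) < (r : ℝ) ^ 100 := by exact_mod_cast hr100
      have hrpos : (0 : ℝ) < r := by exact_mod_cast Nat.pos_of_ne_zero (NeZero.ne r)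
      have hlr : Real.log Q1 ≤ 100 * Real.log r := by
        have h1 := Real.log_le_log hQ1pos hr100'.le
        rw [Real.log_pow] at h1
        exact_mod_cast h1
      obtain ⟨u, hu⟩ : ∃ u, u = Real.log Q1 / 200 := ⟨_, rfl⟩
      have hu1 : 2 ≤ u := by rw [hu, le_div_iff₀ (by norm_num)]; linarith
      have hlr' : u + 1 ≤ Real.log r := by
        have : Real.log Q1 = 200 * u := by rw [hu]; ring
        linarith
      have hexplr : Real.exp 1 ≤ r := by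
        rw [← Real.le_log_iff_exp_le hrpos]
        linarith
      have hr2 : (2 : ℝ) ≤ r := by linarith
      have hr2' : 2 ≤ r := by exact_mod_cast hr2
      have hcast : ((r - 1 : ℕ) : ℝ) = r - 1 := by
        rw [Nat.cast_sub (by omega), Nat.cast_one]
      have hr1pos : (0 : ℝ) < ((r - 1 : ℕ) : ℝ) := by rw [hcast]; linarith
      have hlow : u ≤ Real.log ((r - 1 : ℕ) : ℝ) := by
        rw [Real.le_log_iff_exp_le hr1pos, hcast]
        have h1 : Real.exp (u + 1) ≤ r := by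
          rw [← Real.le_log_iff_exp_le hrpos]; exact hlr'
        rw [Real.exp_add] at h1
        have h2 : Real.exp u * 2 ≤ Real.exp u * Real.exp 1 :=
          mul_le_mul_of_nonneg_left he2 (Real.exp_pos _).le
        have h3 : 1 ≤ Real.exp u := Real.one_le_exp (by linarith)
        linarith
      have hKr : K2 ≤ r := by
        have h1 : |K2| ≤ u := by
          rw [hu, le_div_iff₀ (by norm_num)]
          linarith
        have h3 : u + 1 ≤ Real.exp u := Real.add_one_le_exp _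
        have h4 : Real.exp u ≤ ((r - 1 : ℕ) : ℝ) := by
          rw [← Real.le_log_iff_exp_le hr1pos]; exact hlow
        rw [hcast] at h4
        linarith
      have hexc' : Exc c2 Q1 r ψ β := by
        refine ⟨hrQ, hprim, hne, hsq, ?_, hβ, hz⟩
        have : c / Real.log Q1 ≤ c2 / Real.log Q1 :=
          div_le_div_of_nonneg_right hcc2 (by linarith)
        linarith
      have hG2 := hgb Q1 r ψ β hKr hexc'
      refine ⟨r - 1, by omega, ?_, Or.inl ?_⟩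
      · have : Real.log Q1 = 200 * u := by rw [hu]; ring
        linarith
      · intro kp hkp X hreg hkQ
        exact hmono _ _ _ _ _ _ _ (herr C4 hC4 (by linarith) kp (by linarith) (r - 1))
          (hg4 kp (by linarith) (r - 1) X (hreg.mono hK0 (by linarith)) hkQ hG2)

end Pool.Agent.H9U
end

-- from Lib.HUK.BH0
section

/-!
# Project HUK, module B, Heath-Brown part: definitions (helper68)

`N = 2 k X`. All arithmetic functions are real (`H81A/Defs`: `af f` has the values `f n` for `n ≥ 1`, `muV z`, `one1`, `logf`).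
-/

open Finset

namespace Pool.Agent.HUK

open Pool.Agent.Lib.H81A (af muV one1 logf)

noncomputable section

/-- The functional `∑_{n ≤ 2kX} F(n) Ψ(n)`. -/
def LF (X k : ℕ) (f : ℕ → ℤ → ℂ) (F : ArithmeticFunction ℝ) : ℂ :=
  ∑ n ∈ Icc 1 (2 * k * X), ((F n : ℝ) : ℂ) * Psi X k f (n : ℤ)

/-- `F` is bounded by `B` on `1, …, N`. -/
def BN (N : ℕ) (B : ℝ) (F : ArithmeticFunction ℝ) : Prop := ∀ n : ℕ, 1 ≤ n → n ≤ N → |F n| ≤ B

/-- On `1, …, N` the function `F` is supported on `n ≤ Y`. -/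
def SP (N : ℕ) (Y : ℝ) (F : ArithmeticFunction ℝ) : Prop := ∀ n : ℕ, 1 ≤ n → n ≤ N → F n ≠ 0 → (n : ℝ) ≤ Y

/-- At most `W` divisors for `1 ≤ n ≤ N`. -/
def TW (N : ℕ) (W : ℝ) : Prop := 1 ≤ W ∧ ∀ n : ℕ, 1 ≤ n → n ≤ N → (n.divisors.card : ℝ) ≤ W

/-- The part of `F` on `n ≤ T`. -/
def lowT (T : ℝ) (F : ArithmeticFunction ℝ) : ArithmeticFunction ℝ := af fun n => if (n : ℝ) ≤ T then F n else 0

/-- The part of `F` on `n > T`. -/
def highT (T : ℝ) (F : ArithmeticFunction ℝ) : ArithmeticFunction ℝ := af fun n => if (n : ℝ) ≤ T then 0 else F n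

/-- `s` -/
def fS (A D : ℕ) : ArithmeticFunction ℝ := af (sml A D)
/-- `u` -/
def fU (A : ℕ) : ArithmeticFunction ℝ := af (uu A)
/-- `v` -/
def fV (A D : ℕ) : ArithmeticFunction ℝ := af (vv A D)
/-- `η` -/
def fE (A D : ℕ) : ArithmeticFunction ℝ := af (eta A D)
/-- `s log` -/
def fSL (A D : ℕ) : ArithmeticFunction ℝ := af fun n => sml A D n * Real.log n
/-- `u log` -/
def fUL (A : ℕ) : ArithmeticFunction ℝ := af fun n => uu A n * Real.log n
/-- `v log` -/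
def fVL (A D : ℕ) : ArithmeticFunction ℝ := af fun n => vv A D n * Real.log n
/-- `η log` -/
def fEL (A D : ℕ) : ArithmeticFunction ℝ := af fun n => eta A D n * Real.log n

/-- What is known about the functional: type II with prime factor `u` or `u log`, the error `η`, and type II with a factor in
`(T, T Y]`, each for coefficients bounded by `B`. -/
structure Hyp (X k : ℕ) (f : ℕ → ℤ → ℂ) (A D : ℕ) (T Y B E : ℝ) : Prop where
  u : ∀ G, BN (2 * k * X) B G → ‖LF X k f (fU A * G)‖ ≤ E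
  ul : ∀ G, BN (2 * k * X) B G → ‖LF X k f (fUL A * G)‖ ≤ E
  e : ∀ G, BN (2 * k * X) B G → ‖LF X k f (G * fE A D)‖ ≤ E
  el : ∀ G, BN (2 * k * X) B G → ‖LF X k f (G * fEL A D)‖ ≤ E
  t2 : ∀ F G, BN (2 * k * X) B F → BN (2 * k * X) B G →
    (∀ n : ℕ, 1 ≤ n → n ≤ 2 * k * X → F n ≠ 0 → T < n ∧ (n : ℝ) ≤ T * Y) → ‖LF X k f (F * G)‖ ≤ E

/-- The sizes and supports of the factors. -/
structure Siz (N : ℕ) (A D z : ℕ) (Y M W : ℝ) : Prop where
  M1 : 1 ≤ M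
  tw : TW N W
  mu : BN N M (muV z) ∧ SP N Y (muV z)
  s : BN N M (fS A D) ∧ SP N Y (fS A D)
  sl : BN N M (fSL A D) ∧ SP N Y (fSL A D)
  v : BN N M (fV A D)
  vl : BN N M (fVL A D)
  one : BN N M one1
  log : BN N M logf
  S : 0 < SA A

end

end Pool.Agent.HUK
end

-- from Lib.HUK.BH3
section

/-!
# HUK, chunk BH3 (S/M): the algebra of one term of Heath-Brown's identity, ONLY MATHLIB
-/

open Finset

namespace Pool.Agent.HUK

/-- Proof. `o - s = u v + e`, `o ^ j = s ^ j + (∑ i ∈ range j, s ^ i * o ^ (j - 1 - i)) * (o - s)` (`geom_sum₂_mul` or `Commute.geom_sum₂_mul` with the roles of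
`s, o` exchanged), insert it in `m * o ^ j * L`, and `L = sl + ul v + u vl + el` in the term with `s ^ j`. -/
theorem bh_alg {R : Type*} [CommRing R] (m s o u v e L sl ul vl el : R) (j : ℕ) (ho : o = s + u * v + e)
    (hL : L = sl + ul * v + u * vl + el) :
    m * o ^ j * L = m * s ^ j * sl + ul * (m * s ^ j * v) + u * (m * s ^ j * vl) + m * s ^ j * el
      + ∑ i ∈ range j, (u * (m * s ^ i * o ^ (j - 1 - i) * L * v) + m * s ^ i * o ^ (j - 1 - i) * L * e) := by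
  have h := geom_sum₂_mul s o j
  have h2 : s - o = -(u * v + e) := by
    rw [ho]
    ring
  rw [h2] at h
  have h3 : ∑ i ∈ range j, (u * (m * s ^ i * o ^ (j - 1 - i) * L * v) + m * s ^ i * o ^ (j - 1 - i) * L * e) =
      m * L * (u * v + e) * ∑ i ∈ range j, s ^ i * o ^ (j - 1 - i) := by
    rw [Finset.mul_sum]
    refine Finset.sum_congr rfl fun i _ => ?_
    ring
  rw [h3]
  have h4 : m * s ^ j * L = m * s ^ j * sl + ul * (m * s ^ j * v) + u * (m * s ^ j * vl) + m * s ^ j * el := by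
    rw [hL]
    ring
  linear_combination (m * L) * h + h4

end Pool.Agent.HUK
end

-- from Lib.HUK.BH1
section

/-!
# HUK, chunk BH1 (M): the functional `LF` and Dirichlet convolutions
-/

open Finset

namespace Pool.Agent.HUK

open Pool.Agent.Lib.H81A (af muV one1 logf)

/-- Proof. Support: `k ≥ 2`, so `j = k - 1` and `j = k - 2` are in `range k`, with the forms `n - h` and `n - 2h`; if both factors are non-zero then
`n - h, n - 2h ∈ [-X, X)` and `n = 2 (n - h) - (n - 2h) < 2 X + X = 3 X`. So for `n ≥ 3X` every product over `range k` has a vanishing factor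
(`Finset.prod_eq_zero`). -/
theorem psi_zero (X k : ℕ) (hk : 2 ≤ k) (f : ℕ → ℤ → ℂ) (hf : ∀ j, j < k → Bdd X (f j)) (n : ℤ) (hn : 3 * (X : ℤ) ≤ n) :
    Psi X k f n = 0 := by
  unfold Psi
  refine Finset.sum_eq_zero fun h hh => ?_
  refine Finset.prod_eq_zero (mem_range.mpr (by omega : k - 1 < k)) ?_
  apply (hf (k - 1) (by omega)).sup
  rw [mem_Ioo] at hh
  rw [mem_Ico]
  have h1 : ((k - 1 : ℕ) : ℤ) = (k : ℤ) - 1 := by omega
  rw [h1]
  intro h2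
  have h3 : ((k : ℤ) - (k - 1)) * h = h := by ring
  rw [h3] at h2
  omega

/-- Proof. `card (Ioo (-2X) (2X)) ≤ 4X`, every factor has norm at most `1` (`Finset.prod_le_one`). -/
theorem psi_bd (X k : ℕ) (f : ℕ → ℤ → ℂ) (hf : ∀ j, j < k → Bdd X (f j)) (n : ℤ) : ‖Psi X k f n‖ ≤ 4 * X := by
  unfold Psi
  refine (norm_sum_le _ _).trans ?_
  have h1 : ∀ h ∈ Ioo (-(2 * X : ℤ)) (2 * X), ‖∏ j ∈ range k, f j (n - ((k : ℤ) - j) * h)‖ ≤ 1 := by
    intro h _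
    rw [norm_prod]
    exact Finset.prod_le_one (fun _ _ => norm_nonneg _) fun j hj => (hf j (mem_range.mp hj)).le _
  refine (Finset.sum_le_sum h1).trans ?_
  rw [Finset.sum_const, nsmul_eq_mul, mul_one, Int.card_Ioo]
  have h2 : (2 * (X : ℤ) - -(2 * (X : ℤ)) - 1).toNat ≤ 4 * X := by omega
  exact_mod_cast h2

/-- Additivity. -/
theorem LF_add (X k : ℕ) (f : ℕ → ℤ → ℂ) (F G : ArithmeticFunction ℝ) : LF X k f (F + G) = LF X k f F + LF X k f G := by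
  unfold LF
  rw [← Finset.sum_add_distrib]
  refine Finset.sum_congr rfl fun n _ => ?_
  rw [ArithmeticFunction.add_apply]
  push_cast
  ring

/-- Finite sums (`Finset.sum_induction` or induction with `LF_add`; `LF X k f 0 = 0`). -/
theorem LF_sum {ι : Type*} (s : Finset ι) (X k : ℕ) (f : ℕ → ℤ → ℂ) (F : ι → ArithmeticFunction ℝ) :
    LF X k f (∑ i ∈ s, F i) = ∑ i ∈ s, LF X k f (F i) := by
  exact map_sum (AddMonoidHom.mk' (LF X k f) (LF_add X k f)) F s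

/-- **Convolutions.** Proof. `N = 2 k X ≥ 3 X` (`k ≥ 2`: `2 k X ≥ 4 X`). `(F * G) n = ∑ x ∈ n.divisorsAntidiagonal, F x.1 * G x.2`. The right side is a sum over pairs
`(a, b) ∈ Icc 1 N ×ˢ Icc 1 N`; the pairs with `a b > N` give `0` by `psi_zero`; the others are in bijection with the pairs
`(n, x)`, `n ∈ Icc 1 N`, `x ∈ n.divisorsAntidiagonal` (`Finset.sum_sigma'`, `Finset.sum_bij'` / `Finset.sum_fiberwise_of_maps_to` for the map
`(a, b) ↦ a b`). -/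
theorem LF_mul (X k : ℕ) (hk : 2 ≤ k) (f : ℕ → ℤ → ℂ) (hf : ∀ j, j < k → Bdd X (f j)) (F G : ArithmeticFunction ℝ) :
    LF X k f (F * G) = ∑ a ∈ Icc 1 (2 * k * X), ∑ b ∈ Icc 1 (2 * k * X),
      ((F a : ℝ) : ℂ) * ((G b : ℝ) : ℂ) * Psi X k f ((a : ℤ) * b) := by
  classical
  set N := 2 * k * X with hN
  set g : ℕ × ℕ → ℂ := fun x => ((F x.1 : ℝ) : ℂ) * ((G x.2 : ℝ) : ℂ) * Psi X k f ((x.1 : ℤ) * x.2) with hg
  have h1 : LF X k f (F * G) = ∑ n ∈ Icc 1 N, ∑ x ∈ (Icc 1 N ×ˢ Icc 1 N).filter (fun x => x.1 * x.2 = n), g x := by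
    unfold LF
    refine Finset.sum_congr rfl fun n hn => ?_
    rw [mem_Icc] at hn
    have h2 : (Icc 1 N ×ˢ Icc 1 N).filter (fun x => x.1 * x.2 = n) = n.divisorsAntidiagonal := by
      ext x
      rw [mem_filter, mem_product, Nat.mem_divisorsAntidiagonal, mem_Icc, mem_Icc]
      constructor
      · rintro ⟨_, h3⟩
        exact ⟨h3, by omega⟩
      · rintro ⟨h3, h4⟩
        have h5 : x.1 ≠ 0 := by rintro h; rw [h, zero_mul] at h3; omega
        have h6 : x.2 ≠ 0 := by rintro h; rw [h, mul_zero] at h3; omega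
        have h7 : x.1 ≤ n := by rw [← h3]; exact Nat.le_mul_of_pos_right _ (Nat.pos_of_ne_zero h6)
        have h8 : x.2 ≤ n := by rw [← h3]; exact Nat.le_mul_of_pos_left _ (Nat.pos_of_ne_zero h5)
        exact ⟨⟨⟨by omega, by omega⟩, ⟨by omega, by omega⟩⟩, h3⟩
    rw [h2, ArithmeticFunction.mul_apply, Complex.ofReal_sum, Finset.sum_mul]
    refine Finset.sum_congr rfl fun x hx => ?_
    rw [Nat.mem_divisorsAntidiagonal] at hx
    rw [hg]
    simp only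
    rw [← hx.1]
    push_cast
    ring
  rw [h1]
  have h3 : ∑ a ∈ Icc 1 N, ∑ b ∈ Icc 1 N, ((F a : ℝ) : ℂ) * ((G b : ℝ) : ℂ) * Psi X k f ((a : ℤ) * b) =
      ∑ x ∈ Icc 1 N ×ˢ Icc 1 N, g x := by
    rw [Finset.sum_product]
  rw [h3]
  have h4 : ∑ x ∈ Icc 1 N ×ˢ Icc 1 N, g x = ∑ x ∈ (Icc 1 N ×ˢ Icc 1 N).filter (fun x => x.1 * x.2 ∈ Icc 1 N), g x := by
    symm
    refine Finset.sum_subset (Finset.filter_subset _ _) fun x hx hx' => ?_
    rw [mem_filter, not_and] at hx'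
    have h5 := hx' hx
    rw [mem_product, mem_Icc, mem_Icc] at hx
    rw [mem_Icc, not_and, not_le] at h5
    have h6 : 1 ≤ x.1 * x.2 := Nat.one_le_iff_ne_zero.mpr (Nat.mul_ne_zero (by omega) (by omega))
    have h7 := h5 h6
    rw [hg]
    simp only
    rw [psi_zero X k hk f hf, mul_zero]
    have h8 : 3 * X ≤ x.1 * x.2 := by nlinarith
    exact_mod_cast h8
  rw [h4, ← Finset.sum_fiberwise_of_maps_to (g := fun x : ℕ × ℕ => x.1 * x.2) (t := Icc 1 N)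
    (fun x hx => (mem_filter.mp hx).2)]
  refine Finset.sum_congr rfl fun n hn => ?_
  refine Finset.sum_congr ?_ fun _ _ => rfl
  ext x
  rw [mem_filter, mem_filter, mem_filter]
  constructor
  · rintro ⟨h5, h6⟩
    exact ⟨⟨h5, by rw [h6]; exact hn⟩, h6⟩
  · rintro ⟨⟨h5, _⟩, h6⟩
    exact ⟨h5, h6⟩

/-- **Trivial bound.** Proof. At most `T` numbers `1 ≤ n ≤ T`; each term is at most `B * (4 X)` (`psi_bd`). (Sum over the filter `F n ≠ 0`, which is contained in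
`Icc 1 ⌊T⌋₊`.) -/
theorem LF_triv (X k : ℕ) (f : ℕ → ℤ → ℂ) (hf : ∀ j, j < k → Bdd X (f j)) (F : ArithmeticFunction ℝ) (T B : ℝ) (hT : 0 ≤ T)
    (hB : BN (2 * k * X) B F) (hB0 : 0 ≤ B) (hs : SP (2 * k * X) T F) : ‖LF X k f F‖ ≤ T * B * (4 * X) := by
  classical
  have h1 : LF X k f F = ∑ n ∈ (Icc 1 (2 * k * X)).filter (fun n => F n ≠ 0), ((F n : ℝ) : ℂ) * Psi X k f (n : ℤ) := by
    unfold LF
    symm
    refine Finset.sum_subset (Finset.filter_subset _ _) fun n hn hn' => ?_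
    rw [mem_filter, not_and, not_not] at hn'
    rw [hn' hn, Complex.ofReal_zero, zero_mul]
  rw [h1]
  refine (norm_sum_le _ _).trans ?_
  have h2 : ∀ n ∈ (Icc 1 (2 * k * X)).filter (fun n => F n ≠ 0), ‖((F n : ℝ) : ℂ) * Psi X k f (n : ℤ)‖ ≤ B * (4 * X) := by
    intro n hn
    rw [mem_filter, mem_Icc] at hn
    rw [norm_mul, Complex.norm_real, Real.norm_eq_abs]
    exact mul_le_mul (hB n hn.1.1 hn.1.2) (psi_bd X k f hf n) (norm_nonneg _) hB0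
  refine (Finset.sum_le_sum h2).trans ?_
  rw [Finset.sum_const, nsmul_eq_mul, mul_assoc T B (4 * (X : ℝ))]
  refine mul_le_mul_of_nonneg_right ?_ (mul_nonneg hB0 (by positivity))
  have h3 : (Icc 1 (2 * k * X)).filter (fun n => F n ≠ 0) ⊆ Icc 1 ⌊T⌋₊ := by
    intro n hn
    rw [mem_filter, mem_Icc] at hn
    rw [mem_Icc]
    exact ⟨hn.1.1, Nat.le_floor (hs n hn.1.1 hn.1.2 hn.2)⟩
  have h4 := Finset.card_le_card h3
  rw [Nat.card_Icc, Nat.add_sub_cancel] at h4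
  exact (Nat.cast_le.mpr h4).trans (Nat.floor_le hT)

end Pool.Agent.HUK
end

-- from Lib.HUK.BH2
section

/-!
# HUK, chunk BH2 (M): bounds for Dirichlet convolutions, and the splitting of `1` and `log`
-/

open Finset

namespace Pool.Agent.HUK

open Pool.Agent.Lib.H81A (af muV one1 logf)

theorem bh2_mem {n : ℕ} (hn : 1 ≤ n) {x : ℕ × ℕ} (hx : x ∈ n.divisorsAntidiagonal) :
    1 ≤ x.1 ∧ 1 ≤ x.2 ∧ x.1 ≤ n ∧ x.2 ≤ n := by
  rw [Nat.mem_divisorsAntidiagonal] at hx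
  obtain ⟨h3, _⟩ := hx
  have h5 : x.1 ≠ 0 := by rintro h; rw [h, zero_mul] at h3; omega
  have h6 : x.2 ≠ 0 := by rintro h; rw [h, mul_zero] at h3; omega
  have h7 : x.1 ≤ n := by rw [← h3]; exact Nat.le_mul_of_pos_right _ (Nat.pos_of_ne_zero h6)
  have h8 : x.2 ≤ n := by rw [← h3]; exact Nat.le_mul_of_pos_left _ (Nat.pos_of_ne_zero h5)
  exact ⟨by omega, by omega, h7, h8⟩

/-- Monotonicity. -/
theorem BN.mono {N : ℕ} {B B' : ℝ} {F : ArithmeticFunction ℝ} (h : BN N B F) (hB : B ≤ B') : BN N B' F := by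
  exact fun n h1 h2 => (h n h1 h2).trans hB

/-- Proof. `(F * G) n = ∑ x ∈ n.divisorsAntidiagonal, F x.1 * G x.2`; the entries of `x` are in `[1, n]`, at most `n.divisors.card ≤ W` terms. -/
theorem BN_mul {N : ℕ} {W B B' : ℝ} (hW : TW N W) {F G : ArithmeticFunction ℝ} (hF : BN N B F) (hG : BN N B' G)
    (hB : 0 ≤ B) (hB' : 0 ≤ B') : BN N (W * B * B') (F * G) := by
  intro n h1 h2
  rw [ArithmeticFunction.mul_apply]
  refine (Finset.abs_sum_le_sum_abs _ _).trans ?_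
  have h3 : ∀ x ∈ n.divisorsAntidiagonal, |F x.1 * G x.2| ≤ B * B' := by
    intro x hx
    obtain ⟨h4, h5, h6, h7⟩ := bh2_mem h1 hx
    rw [abs_mul]
    exact mul_le_mul (hF _ h4 (h6.trans h2)) (hG _ h5 (h7.trans h2)) (abs_nonneg _) hB
  refine (Finset.sum_le_sum h3).trans ?_
  rw [Finset.sum_const, nsmul_eq_mul, mul_assoc]
  refine mul_le_mul_of_nonneg_right ?_ (mul_nonneg hB hB')
  have h8 : n.divisorsAntidiagonal.card = n.divisors.card := by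
    rw [← Nat.map_div_right_divisors, Finset.card_map]
  rw [h8]
  exact hW.2 n h1 h2

/-- Proof. Induction on the list (`List.prod_cons`, `BN_mul`, `W * M * (W * M) ^ n = (W * M) ^ (n + 1)`); empty list: `|1 n| ≤ 1` (`ArithmeticFunction.one_apply`). -/
theorem BN_list {N : ℕ} {W M : ℝ} (hW : TW N W) (hM : 1 ≤ M) (l : List (ArithmeticFunction ℝ)) (hl : ∀ g ∈ l, BN N M g) :
    BN N ((W * M) ^ l.length) l.prod := by
  induction l with
  | nil =>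
    intro n _ _
    rw [List.length_nil, pow_zero, List.prod_nil, ArithmeticFunction.one_apply]
    split_ifs <;> simp
  | cons g l ih =>
    have h1 := BN_mul hW (hl g List.mem_cons_self) (ih fun g' hg' => hl g' (List.mem_cons_of_mem _ hg')) (by linarith)
      (pow_nonneg (mul_nonneg (by linarith [hW.1]) (by linarith)) _)
    rw [List.prod_cons, List.length_cons, pow_succ']
    exact h1


/-- Proof. `ArithmeticFunction.ext`; at `0` both sides vanish; at `n ≥ 1`: `b_one` (`BFin.lean`), `ArithmeticFunction.mul_apply`, `af_apply` (the entries of the elements of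
`n.divisorsAntidiagonal` are not `0`). -/
theorem one_split (A D : ℕ) (hS : 0 < SA A) : one1 = fS A D + fU A * fV A D + fE A D := by
  refine ArithmeticFunction.ext fun n => ?_
  rcases Nat.eq_zero_or_pos n with rfl | hn
  · rw [ArithmeticFunction.map_zero, ArithmeticFunction.map_zero]
  · rw [ArithmeticFunction.add_apply, ArithmeticFunction.add_apply, ArithmeticFunction.mul_apply]
    unfold one1 fS fE
    rw [Pool.Agent.Lib.H81A.af_apply _ hn.ne', Pool.Agent.Lib.H81A.af_apply _ hn.ne', Pool.Agent.Lib.H81A.af_apply _ hn.ne']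
    have h1 : ∑ x ∈ n.divisorsAntidiagonal, fU A x.1 * fV A D x.2 = ∑ x ∈ n.divisorsAntidiagonal, uu A x.1 * vv A D x.2 := by
      refine Finset.sum_congr rfl fun x hx => ?_
      obtain ⟨h4, h5, h6, h7⟩ := bh2_mem hn hx
      unfold fU fV
      rw [Pool.Agent.Lib.H81A.af_apply _ (by omega), Pool.Agent.Lib.H81A.af_apply _ (by omega)]
    rw [h1]
    exact b_one A D n hS hn

/-- Proof. As `one_split`, with `b_log`. -/
theorem log_split (A D : ℕ) (hS : 0 < SA A) : logf = fSL A D + fUL A * fV A D + fU A * fVL A D + fEL A D := by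
  refine ArithmeticFunction.ext fun n => ?_
  rcases Nat.eq_zero_or_pos n with rfl | hn
  · rw [ArithmeticFunction.map_zero, ArithmeticFunction.map_zero]
  · rw [ArithmeticFunction.add_apply, ArithmeticFunction.add_apply, ArithmeticFunction.add_apply, ArithmeticFunction.mul_apply,
      ArithmeticFunction.mul_apply]
    unfold logf fSL fEL
    rw [Pool.Agent.Lib.H81A.af_apply _ hn.ne', Pool.Agent.Lib.H81A.af_apply _ hn.ne', Pool.Agent.Lib.H81A.af_apply _ hn.ne']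
    have h1 : ∑ x ∈ n.divisorsAntidiagonal, fUL A x.1 * fV A D x.2 =
        ∑ x ∈ n.divisorsAntidiagonal, uu A x.1 * Real.log x.1 * vv A D x.2 := by
      refine Finset.sum_congr rfl fun x hx => ?_
      obtain ⟨h4, h5, h6, h7⟩ := bh2_mem hn hx
      unfold fUL fV
      rw [Pool.Agent.Lib.H81A.af_apply _ (by omega), Pool.Agent.Lib.H81A.af_apply _ (by omega)]
    have h2 : ∑ x ∈ n.divisorsAntidiagonal, fU A x.1 * fVL A D x.2 =
        ∑ x ∈ n.divisorsAntidiagonal, uu A x.1 * (vv A D x.2 * Real.log x.2) := by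
      refine Finset.sum_congr rfl fun x hx => ?_
      obtain ⟨h4, h5, h6, h7⟩ := bh2_mem hn hx
      unfold fU fVL
      rw [Pool.Agent.Lib.H81A.af_apply _ (by omega), Pool.Agent.Lib.H81A.af_apply _ (by omega)]
    rw [h1, h2]
    exact b_log A D n hS hn

/-- `F` is the sum of its parts. -/
theorem low_add_high (T : ℝ) (F : ArithmeticFunction ℝ) : lowT T F + highT T F = F := by
  refine ArithmeticFunction.ext fun n => ?_
  rcases Nat.eq_zero_or_pos n with rfl | hn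
  · rw [ArithmeticFunction.map_zero, ArithmeticFunction.map_zero]
  · rw [ArithmeticFunction.add_apply]
    unfold lowT highT
    rw [Pool.Agent.Lib.H81A.af_apply _ hn.ne', Pool.Agent.Lib.H81A.af_apply _ hn.ne']
    split_ifs <;> simp

theorem low_BN {N : ℕ} {B T : ℝ} {F : ArithmeticFunction ℝ} (h : BN N B F) (hB : 0 ≤ B) : BN N B (lowT T F) ∧ BN N B (highT T F) := by
  constructor
  · intro n h1 h2
    unfold lowT
    rw [Pool.Agent.Lib.H81A.af_apply _ (by omega)]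
    split_ifs
    · exact h n h1 h2
    · rw [abs_zero]
      exact hB
  · intro n h1 h2
    unfold highT
    rw [Pool.Agent.Lib.H81A.af_apply _ (by omega)]
    split_ifs
    · rw [abs_zero]
      exact hB
    · exact h n h1 h2

theorem low_SP (N : ℕ) (T : ℝ) (F : ArithmeticFunction ℝ) : SP N T (lowT T F) := by
  intro n h1 _ h3
  unfold lowT at h3
  rw [Pool.Agent.Lib.H81A.af_apply _ (by omega)] at h3
  by_contra h4
  rw [if_neg h4] at h3
  exact h3 rfl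

/-- The upper part of a convolution of `S` (supported on `n ≤ T`) and `g` (supported on `n ≤ Y`) is supported on `T < n ≤ T Y`. -/
theorem high_supp {N : ℕ} {T Y : ℝ} (hT : 0 ≤ T) {S g : ArithmeticFunction ℝ} (hS : SP N T S) (hg : SP N Y g) :
    ∀ n : ℕ, 1 ≤ n → n ≤ N → highT T (S * g) n ≠ 0 → T < n ∧ (n : ℝ) ≤ T * Y := by
  intro n h1 h2 h3
  unfold highT at h3
  rw [Pool.Agent.Lib.H81A.af_apply _ (by omega)] at h3
  by_cases h4 : (n : ℝ) ≤ T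
  · rw [if_pos h4] at h3
    exact absurd rfl h3
  rw [if_neg h4, ArithmeticFunction.mul_apply] at h3
  refine ⟨not_le.mp h4, ?_⟩
  obtain ⟨x, hx, hx0⟩ := Finset.exists_ne_zero_of_sum_ne_zero h3
  obtain ⟨h5, h6, h7, h8⟩ := bh2_mem h1 hx
  have h9 := hS x.1 h5 (h7.trans h2) (left_ne_zero_of_mul hx0)
  have h10 := hg x.2 h6 (h8.trans h2) (right_ne_zero_of_mul hx0)
  rw [← (Nat.mem_divisorsAntidiagonal.mp hx).1]
  push_cast
  exact mul_le_mul h9 h10 (by positivity) hT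

end Pool.Agent.HUK
end

-- from Lib.HUK.BH4
section

/-!
# HUK, chunk BH4 (M): all factors small, partial products
-/

open Finset

namespace Pool.Agent.HUK

open Pool.Agent.Lib.H81A (af muV one1 logf)

/-- **Products of small factors.** `N = 2 k X`. Proof. Induction on `l`, `S` and `M'` arbitrary. Empty list: `S * 1 = S`, `LF_triv` (`M' ≤ B`). `g :: l`:
`S * (g * l.prod) = lowT T (S * g) * l.prod + highT T (S * g) * l.prod` (`low_add_high`), `LF_add`. First part: induction hypothesis for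
`lowT T (S * g)` (`low_SP`, `low_BN`, bounded by `W M' M` by `BN_mul`) and `W M' M`, `W M' M (W M) ^ l.length = M' (W M) ^ (l.length + 1) ≤ B`. Second part: `t2` with
`F = highT T (S * g)` (bounded by `W M' M ≤ M' (W M) ^ (l.length + 1) ≤ B`, support `high_supp`) and `G = l.prod` (`BN_list`, `(W M) ^ l.length ≤ B`): at most `E`. -/
theorem greedy (X k : ℕ) (f : ℕ → ℤ → ℂ) (hf : ∀ j, j < k → Bdd X (f j)) (T Y B E W M : ℝ) (hT : 1 ≤ T) (hM : 1 ≤ M)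
    (hW : TW (2 * k * X) W)
    (t2 : ∀ F G, BN (2 * k * X) B F → BN (2 * k * X) B G →
      (∀ n : ℕ, 1 ≤ n → n ≤ 2 * k * X → F n ≠ 0 → T < n ∧ (n : ℝ) ≤ T * Y) → ‖LF X k f (F * G)‖ ≤ E) :
    ∀ (l : List (ArithmeticFunction ℝ)) (S : ArithmeticFunction ℝ) (M' : ℝ), 1 ≤ M' →
      (∀ g ∈ l, BN (2 * k * X) M g ∧ SP (2 * k * X) Y g) → BN (2 * k * X) M' S → SP (2 * k * X) T S →
      M' * (W * M) ^ l.length ≤ B → ‖LF X k f (S * l.prod)‖ ≤ l.length * E + T * B * (4 * X) := by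
  have hW1 : 1 ≤ W := hW.1
  have hWM : 1 ≤ W * M := by nlinarith
  intro l
  induction l with
  | nil =>
    intro S M' hM' _ hS hSP hB
    simp only [List.prod_nil, mul_one, List.length_nil, Nat.cast_zero, zero_mul, zero_add, pow_zero] at *
    exact LF_triv X k f hf S T B (by linarith) (BN.mono hS hB) (by linarith) hSP
  | cons g l ih =>
    intro S M' hM' hl hS hSP hB
    have hg := hl g (List.mem_cons_self)
    have hl' : ∀ g' ∈ l, BN (2 * k * X) M g' ∧ SP (2 * k * X) Y g' := fun g' hg' => hl g' (List.mem_cons_of_mem _ hg')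
    have hpos : 1 ≤ (W * M) ^ l.length := one_le_pow₀ hWM
    have hSg : BN (2 * k * X) (W * M' * M) (S * g) := BN_mul hW hS hg.1 (by linarith) (by linarith)
    have hWMM : 1 ≤ W * M' * M := by
      have h1 : 1 ≤ W * M' := by nlinarith
      nlinarith
    have hlen : M' * (W * M) ^ (l.length + 1) = W * M' * M * (W * M) ^ l.length := by
      rw [pow_succ]; ring
    rw [List.length_cons, hlen] at hB
    have e1 : S * (g :: l).prod = lowT T (S * g) * l.prod + highT T (S * g) * l.prod := by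
      rw [List.prod_cons, ← add_mul, low_add_high, mul_assoc]
    rw [e1, LF_add]
    have hlow := ih (lowT T (S * g)) (W * M' * M) hWMM hl' (low_BN hSg (by linarith)).1 (low_SP _ _ _) hB
    have hB2 : W * M' * M ≤ B := by
      refine le_trans ?_ hB
      exact le_mul_of_one_le_right (by linarith) hpos
    have hB3 : (W * M) ^ l.length ≤ B := by
      refine le_trans ?_ hB
      exact le_mul_of_one_le_left (by linarith) hWMM
    have hhigh : ‖LF X k f (highT T (S * g) * l.prod)‖ ≤ E := by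
      refine t2 _ _ (BN.mono (low_BN hSg (by linarith)).2 hB2) (BN.mono (BN_list hW hM l fun g' hg' => (hl' g' hg').1) hB3) ?_
      exact high_supp (by linarith) hSP hg.2
    have hlc : (((g :: l).length : ℕ) : ℝ) = l.length + 1 := by simp
    rw [hlc]
    calc ‖LF X k f (lowT T (S * g) * l.prod) + LF X k f (highT T (S * g) * l.prod)‖
        ≤ ‖LF X k f (lowT T (S * g) * l.prod)‖ + ‖LF X k f (highT T (S * g) * l.prod)‖ := norm_add_le _ _
      _ ≤ (l.length * E + T * B * (4 * X)) + E := add_le_add hlow hhigh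
      _ = (l.length + 1) * E + T * B * (4 * X) := by ring

end Pool.Agent.HUK
end

-- from Lib.HUK.BH5
section

/-!
# HUK, chunk BH5 (M): one term of Heath-Brown's identity
-/

open Finset

namespace Pool.Agent.HUK

open Pool.Agent.Lib.H81A (af muV one1 logf)

/-- The general list product. -/
theorem bh5_list {N : ℕ} {W M B : ℝ} (A D z : ℕ) (hW : TW N W) (hM : 1 ≤ M) (hmu : BN N M (muV z)) (hs : BN N M (fS A D))
    (ho : BN N M one1) (a b c : ℕ) (t : List (ArithmeticFunction ℝ)) (ht : ∀ g ∈ t, BN N M g) (K : ℕ)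
    (hK : a + b + c + t.length ≤ K) (hB : (W * M) ^ K ≤ B) :
    BN N B (muV z ^ a * fS A D ^ b * one1 ^ c * t.prod) := by
  have hW1 : 1 ≤ W := hW.1
  have hWM : 1 ≤ W * M := by nlinarith
  have h1 : muV z ^ a * fS A D ^ b * one1 ^ c * t.prod =
      (List.replicate a (muV z) ++ List.replicate b (fS A D) ++ List.replicate c one1 ++ t).prod := by
    simp [List.prod_append, List.prod_replicate, mul_assoc]
  have h2 : ∀ g ∈ (List.replicate a (muV z) ++ List.replicate b (fS A D) ++ List.replicate c one1 ++ t), BN N M g := by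
    intro g hg
    simp only [List.mem_append, List.mem_replicate] at hg
    rcases hg with ((⟨_, rfl⟩ | ⟨_, rfl⟩) | ⟨_, rfl⟩) | hg
    · exact hmu
    · exact hs
    · exact ho
    · exact ht g hg
  have h3 := BN_list hW hM _ h2
  rw [h1]
  refine BN.mono h3 (le_trans ?_ hB)
  refine pow_le_pow_right₀ hWM ?_
  simp only [List.length_append, List.length_replicate]
  exact hK

/-- Proof. `bh_alg` with `m = muV z ^ (j + 1)`, `s = fS A D`, `o = one1`, `u = fU A`, `v = fV A D`, `e = fE A D`, `L = logf`, `sl = fSL A D`, `ul = fUL A`,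
`vl = fVL A D`, `el = fEL A D` (`one_split`, `log_split`), then `LF_add`, `LF_sum`, `norm_add_le`, `norm_sum_le`. Terms:
(1) `muV z ^ (j + 1) * fS ^ j * fSL = 1 * l.prod`, `l = List.replicate (j + 1) (muV z) ++ List.replicate j (fS A D) ++ [fSL A D]`, length `2 j + 2`: `greedy` with `S = 1`, `M' = 1`
(`1 n ≠ 0` only for `n = 1 ≤ T`), at most `(2 j + 2) E + T B (4 X)`. (2) `fUL * G`, `fU * G`, `G * fEL`: `Hyp` with `G` a product of `2 j + 2` resp. `2 j + 1` factors bounded by `M`, so by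
`(W M) ^ (2 j + 2) ≤ B` (`BN_mul`, `BN_pow`: a product of `n` factors is bounded by `(W M) ^ n`; or write it as a list product, `BN_list`), at most `E` each. (3) for `i < j`:
`u * G` with `G` a product of `(j + 1) + i + (j - 1 - i) + 2 = 2 j + 2` factors, `G * e` with `2 j + 1` factors: at most `2 E`. Sum: `(2 j + 2 + 3 + 2 j) E + T B (4 X)`. `E ≥ 0`
(`Hyp.u` for `G = 0`, `B ≥ 0`). -/
theorem hb_term (X k : ℕ) (f : ℕ → ℤ → ℂ) (hf : ∀ j, j < k → Bdd X (f j)) (A D z J j : ℕ) (hj : j < J) (T Y B E W M : ℝ)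
    (hT : 1 ≤ T) (hyp : Hyp X k f A D T Y B E) (hz : Siz (2 * k * X) A D z Y M W) (hB : (W * M) ^ (2 * J + 2) ≤ B) :
    ‖LF X k f (muV z ^ (j + 1) * one1 ^ j * logf)‖ ≤ (4 * J + 5) * E + T * B * (4 * X) := by
  have hM := hz.M1
  have hW := hz.tw
  have hW1 : 1 ≤ W := hW.1
  have hWM : 1 ≤ W * M := by nlinarith
  have hB1 : 1 ≤ B := le_trans (one_le_pow₀ hWM) hB
  have hX0 : (0 : ℝ) ≤ X := Nat.cast_nonneg X
  have hE : 0 ≤ E := by
    refine le_trans (norm_nonneg _) (hyp.u 0 ?_)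
    intro n _ _
    simpa using (by linarith : (0 : ℝ) ≤ B)
  have hlist := fun (a b c : ℕ) (t : List (ArithmeticFunction ℝ)) (ht : ∀ g ∈ t, BN (2 * k * X) M g)
    (hK : a + b + c + t.length ≤ 2 * J + 2) =>
    bh5_list A D z hW hM hz.mu.1 hz.s.1 hz.one a b c t ht (2 * J + 2) hK hB
  have halg := bh_alg (muV z ^ (j + 1)) (fS A D) one1 (fU A) (fV A D) (fE A D) logf (fSL A D) (fUL A) (fVL A D) (fEL A D) j
    (one_split A D hz.S) (log_split A D hz.S)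
  have t1 : ‖LF X k f (muV z ^ (j + 1) * fS A D ^ j * fSL A D)‖ ≤ (2 * j + 2) * E + T * B * (4 * X) := by
    have h1 : muV z ^ (j + 1) * fS A D ^ j * fSL A D =
        1 * (List.replicate (j + 1) (muV z) ++ List.replicate j (fS A D) ++ [fSL A D]).prod := by
      simp [List.prod_append, List.prod_replicate, mul_assoc]
    have h2 := greedy X k f hf T Y B E W M hT hM hW hyp.t2
      (List.replicate (j + 1) (muV z) ++ List.replicate j (fS A D) ++ [fSL A D]) 1 1 le_rfl ?_ ?_ ?_ ?_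
    · rw [h1]
      refine le_trans h2 (le_of_eq ?_)
      simp only [List.length_append, List.length_replicate, List.length_cons, List.length_nil]
      push_cast
      ring
    · intro g hg
      simp only [List.mem_append, List.mem_replicate, List.mem_singleton] at hg
      rcases hg with (⟨_, rfl⟩ | ⟨_, rfl⟩) | rfl
      · exact hz.mu
      · exact hz.s
      · exact hz.sl
    · intro n hn _
      rw [ArithmeticFunction.one_apply]
      split_ifs <;> simp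
    · intro n hn _ hne
      rw [ArithmeticFunction.one_apply] at hne
      by_cases h : n = 1
      · rw [h]
        simpa using hT
      · rw [if_neg h] at hne
        exact absurd rfl hne
    · rw [one_mul]
      refine le_trans (pow_le_pow_right₀ hWM ?_) hB
      simp only [List.length_append, List.length_replicate, List.length_cons, List.length_nil]
      omega
  have t2 : ‖LF X k f (fUL A * (muV z ^ (j + 1) * fS A D ^ j * fV A D))‖ ≤ E := by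
    refine hyp.ul _ ?_
    have h := hlist (j + 1) j 0 [fV A D] (by simpa using hz.v) (by simp only [List.length_cons, List.length_nil]; omega)
    simpa using h
  have t3 : ‖LF X k f (fU A * (muV z ^ (j + 1) * fS A D ^ j * fVL A D))‖ ≤ E := by
    refine hyp.u _ ?_
    have h := hlist (j + 1) j 0 [fVL A D] (by simpa using hz.vl) (by simp only [List.length_cons, List.length_nil]; omega)
    simpa using h
  have t4 : ‖LF X k f (muV z ^ (j + 1) * fS A D ^ j * fEL A D)‖ ≤ E := by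
    refine hyp.el _ ?_
    have h := hlist (j + 1) j 0 [] (by simp) (by simp only [List.length_nil]; omega)
    simpa using h
  have t5 : ∀ i ∈ range j, ‖LF X k f (fU A * (muV z ^ (j + 1) * fS A D ^ i * one1 ^ (j - 1 - i) * logf * fV A D) +
      muV z ^ (j + 1) * fS A D ^ i * one1 ^ (j - 1 - i) * logf * fE A D)‖ ≤ 2 * E := by
    intro i hi
    have hi' := Finset.mem_range.1 hi
    rw [LF_add]
    have h5 : ‖LF X k f (fU A * (muV z ^ (j + 1) * fS A D ^ i * one1 ^ (j - 1 - i) * logf * fV A D))‖ ≤ E := by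
      refine hyp.u _ ?_
      have h := hlist (j + 1) i (j - 1 - i) [logf, fV A D] (by
        intro g hg
        simp only [List.mem_cons, List.not_mem_nil, or_false] at hg
        rcases hg with rfl | rfl
        · exact hz.log
        · exact hz.v) (by simp only [List.length_cons, List.length_nil]; omega)
      have e : muV z ^ (j + 1) * fS A D ^ i * one1 ^ (j - 1 - i) * [logf, fV A D].prod =
          muV z ^ (j + 1) * fS A D ^ i * one1 ^ (j - 1 - i) * logf * fV A D := by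
        simp only [List.prod_cons, List.prod_nil, mul_one, mul_assoc]
      rwa [e] at h
    have h6 : ‖LF X k f (muV z ^ (j + 1) * fS A D ^ i * one1 ^ (j - 1 - i) * logf * fE A D)‖ ≤ E := by
      refine hyp.e _ ?_
      have h := hlist (j + 1) i (j - 1 - i) [logf] (by
        intro g hg
        simp only [List.mem_cons, List.not_mem_nil, or_false] at hg
        rw [hg]
        exact hz.log) (by simp only [List.length_cons, List.length_nil]; omega)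
      have e : muV z ^ (j + 1) * fS A D ^ i * one1 ^ (j - 1 - i) * [logf].prod =
          muV z ^ (j + 1) * fS A D ^ i * one1 ^ (j - 1 - i) * logf := by
        simp only [List.prod_cons, List.prod_nil, mul_one]
      rwa [e] at h
    calc _ ≤ ‖LF X k f (fU A * (muV z ^ (j + 1) * fS A D ^ i * one1 ^ (j - 1 - i) * logf * fV A D))‖ +
          ‖LF X k f (muV z ^ (j + 1) * fS A D ^ i * one1 ^ (j - 1 - i) * logf * fE A D)‖ := norm_add_le _ _
      _ ≤ 2 * E := by linarith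
  have t6 : ‖LF X k f (∑ i ∈ range j, (fU A * (muV z ^ (j + 1) * fS A D ^ i * one1 ^ (j - 1 - i) * logf * fV A D) +
      muV z ^ (j + 1) * fS A D ^ i * one1 ^ (j - 1 - i) * logf * fE A D))‖ ≤ j * (2 * E) := by
    rw [LF_sum]
    refine le_trans (norm_sum_le _ _) ?_
    refine le_trans (Finset.sum_le_sum t5) ?_
    rw [Finset.sum_const, Finset.card_range, nsmul_eq_mul]
  rw [halg, LF_add, LF_add, LF_add, LF_add]
  have hjJ : (j : ℝ) ≤ J := by exact_mod_cast hj.le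
  calc _ ≤ ‖LF X k f (muV z ^ (j + 1) * fS A D ^ j * fSL A D)‖ +
        ‖LF X k f (fUL A * (muV z ^ (j + 1) * fS A D ^ j * fV A D))‖ +
        ‖LF X k f (fU A * (muV z ^ (j + 1) * fS A D ^ j * fVL A D))‖ +
        ‖LF X k f (muV z ^ (j + 1) * fS A D ^ j * fEL A D)‖ +
        ‖LF X k f (∑ i ∈ range j, (fU A * (muV z ^ (j + 1) * fS A D ^ i * one1 ^ (j - 1 - i) * logf * fV A D) +
          muV z ^ (j + 1) * fS A D ^ i * one1 ^ (j - 1 - i) * logf * fE A D))‖ := by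
          refine le_trans (norm_add_le _ _) (add_le_add_left ?_ _)
          refine le_trans (norm_add_le _ _) (add_le_add_left ?_ _)
          refine le_trans (norm_add_le _ _) (add_le_add_left ?_ _)
          exact norm_add_le _ _
    _ ≤ (2 * j + 2) * E + T * B * (4 * X) + E + E + E + j * (2 * E) := by linarith
    _ = (4 * j + 5) * E + T * B * (4 * X) := by ring
    _ ≤ (4 * J + 5) * E + T * B * (4 * X) := by nlinarith

end Pool.Agent.HUK
end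

-- from Lib.HUK.BH6
section

/-!
# HUK, chunk BH6 (M): the two inputs in functional form
-/

open Finset

namespace Pool.Agent.HUK

open Pool.Agent.Lib.H81A (af muV one1 logf)

/-- **Type II.** Proof. `TII k` for `θ, κ`; `α a = F a` for `1 ≤ a ≤ 2 k X` and `0` otherwise, `β` the same with `G`; `LF_mul`. -/
theorem t2_LF (k : ℕ) (hk : 3 ≤ k) (h : TII k) (θ κ : ℝ) (hθ : 0 < θ) (hκ : 0 < κ) :
    ∃ κ' ε : ℝ, 0 < κ' ∧ 0 < ε ∧ ∃ X0 : ℕ, ∀ X : ℕ, X0 ≤ X → ∀ f : ℕ → ℤ → ℂ, (∀ j, j < k → Bdd X (f j)) →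
      GG X (k - 1) (f 0) ≤ (X : ℝ) ^ (k - κ) → ∀ F G : ArithmeticFunction ℝ,
      BN (2 * k * X) ((X : ℝ) ^ ε) F → BN (2 * k * X) ((X : ℝ) ^ ε) G →
      (∀ n : ℕ, 1 ≤ n → n ≤ 2 * k * X → F n ≠ 0 → (X : ℝ) ^ θ ≤ n ∧ (n : ℝ) ≤ (X : ℝ) ^ cs k) →
      ‖LF X k f (F * G)‖ ≤ (X : ℝ) ^ (2 - κ') := by
  obtain ⟨κ', ε, hκ', hε, X0, hX0⟩ := h θ κ hθ hκ
  refine ⟨κ', ε, hκ', hε, X0, fun X hX f hf hG F G hF hGb hs => ?_⟩
  have hXe : (0 : ℝ) ≤ (X : ℝ) ^ ε := Real.rpow_nonneg (Nat.cast_nonneg _) _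
  have key := hX0 X hX (fun a => if a ∈ Icc 1 (2 * k * X) then ((F a : ℝ) : ℂ) else 0)
    (fun b => if b ∈ Icc 1 (2 * k * X) then ((G b : ℝ) : ℂ) else 0) ?_ ?_ ?_ f hf hG
  · rw [LF_mul X k (by omega) f hf F G]
    refine le_of_eq_of_le (congrArg _ ?_) key
    refine Finset.sum_congr rfl fun a ha => Finset.sum_congr rfl fun b hb => ?_
    rw [if_pos ha, if_pos hb]
  · intro a
    split_ifs with ha
    · rw [mem_Icc] at ha
      rw [Complex.norm_real, Real.norm_eq_abs]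
      exact hF a ha.1 ha.2
    · rw [norm_zero]
      exact hXe
  · intro a
    split_ifs with ha
    · rw [mem_Icc] at ha
      rw [Complex.norm_real, Real.norm_eq_abs]
      exact hGb a ha.1 ha.2
    · rw [norm_zero]
      exact hXe
  · intro a ha
    beta_reduce at ha
    split_ifs at ha with h1
    · rw [mem_Icc] at h1
      refine hs a h1.1 h1.2 fun h0 => ha ?_
      rw [h0, Complex.ofReal_zero]
    · exact absurd rfl ha

/-- **The error of the replacement.** Proof. `eta_sum` (`BFin.lean`) with `γ m = G m` for `1 ≤ m ≤ 2 k X` and `0` otherwise, `ω = 1` resp. `ω = log`; `LF_mul`, `mul_comm` of the arguments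
(`af_apply` for `d ≥ 1`). -/
theorem eta_LF (k : ℕ) (hk : 3 ≤ k) (θ τ : ℝ) (hτ : 0 < τ) (hθτ : 2 ^ (k + 3) * τ ≤ θ) (hθ : θ ≤ 1) :
    ∃ c ε : ℝ, 0 < c ∧ 0 < ε ∧ ∃ X0 : ℕ, ∀ X : ℕ, X0 ≤ X → ∀ f : ℕ → ℤ → ℂ, (∀ j, j < k → Bdd X (f j)) →
      ∀ G : ArithmeticFunction ℝ, BN (2 * k * X) ((X : ℝ) ^ ε) G →
      ‖LF X k f (G * fE ⌊(X : ℝ) ^ τ⌋₊ ⌊(X : ℝ) ^ θ⌋₊)‖ ≤ (X : ℝ) ^ (2 - c) ∧
      ‖LF X k f (G * fEL ⌊(X : ℝ) ^ τ⌋₊ ⌊(X : ℝ) ^ θ⌋₊)‖ ≤ (X : ℝ) ^ (2 - c) := by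
  obtain ⟨c, ε, hc, hε, X0, hX0⟩ := eta_sum k (by omega) θ τ hτ hθτ hθ
  refine ⟨c, ε, hc, hε, X0, fun X hX f hf G hG => ?_⟩
  have hXe : (0 : ℝ) ≤ (X : ℝ) ^ ε := Real.rpow_nonneg (Nat.cast_nonneg _) _
  have hγ : ∀ m : ℕ, ‖(if m ∈ Icc 1 (2 * k * X) then ((G m : ℝ) : ℂ) else 0)‖ ≤ (X : ℝ) ^ ε := by
    intro a
    split_ifs with ha
    · rw [mem_Icc] at ha
      rw [Complex.norm_real, Real.norm_eq_abs]
      exact hG a ha.1 ha.2
    · rw [norm_zero]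
      exact hXe
  have key := hX0 X hX f hf (fun m => if m ∈ Icc 1 (2 * k * X) then ((G m : ℝ) : ℂ) else 0) hγ
  have haf : ∀ (g : ℕ → ℝ) (d : ℕ), d ∈ Icc 1 (2 * k * X) → af g d = g d := by
    intro g d hd
    rw [mem_Icc] at hd
    exact Pool.Agent.Lib.H81A.af_apply g (by omega)
  constructor
  · refine le_of_eq_of_le (congrArg _ ?_) (key (fun _ => 1) (Or.inl fun _ => rfl))
    rw [LF_mul X k (by omega) f hf]
    refine Finset.sum_congr rfl fun a ha => Finset.sum_congr rfl fun b hb => ?_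
    rw [if_pos ha, mul_one, mul_comm (a : ℤ)]
    unfold fE
    rw [haf _ b hb]
  · refine le_of_eq_of_le (congrArg _ ?_) (key (fun d => Real.log d) (Or.inr fun _ => rfl))
    rw [LF_mul X k (by omega) f hf]
    refine Finset.sum_congr rfl fun a ha => Finset.sum_congr rfl fun b hb => ?_
    rw [if_pos ha, mul_comm (a : ℤ)]
    unfold fEL
    rw [haf _ b hb]

end Pool.Agent.HUK
end

-- from Lib.HUK.BH8
section

/-!
# HUK, chunk BH8 (M): from primes to the von Mangoldt function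
-/

open Finset

namespace Pool.Agent.HUK

open Pool.Agent.Lib.H68T (lp)

theorem bh8_prime_powers (N : ℕ) (hN : 1 ≤ N) :
    ∑ n ∈ Icc 1 N, (ArithmeticFunction.vonMangoldt n - lp n) ≤
      2 * √(N : ℝ) * Real.log (N : ℝ) := by
  have h1 := Chebyshev.psi_sub_theta_le (x := (N : ℝ)) (by exact_mod_cast hN)
  rw [Chebyshev.psi_sub_theta_eq_sum_not_prime, Nat.floor_natCast] at h1
  refine le_trans (le_of_eq ?_) h1
  rw [Finset.sum_filter]
  apply Finset.sum_congr rfl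
  intro n _
  unfold Pool.Agent.Lib.H68T.lp
  rw [Int.toNat_natCast]
  by_cases h : n.Prime
  · simp [h, ArithmeticFunction.vonMangoldt_apply_prime h]
  · simp [h]

theorem bh8_num (k : ℕ) (hk : 1 ≤ k) : ∃ X0 : ℕ, ∀ X : ℕ, X0 ≤ X →
    2 * √((2 * k * X : ℕ) : ℝ) * Real.log ((2 * k * X : ℕ) : ℝ) * (4 * X) ≤ (X : ℝ) ^ (7 / 4 : ℝ) := by
  have h1 : (fun x : ℝ => 8 * √(2 * k) * (Real.log (2 * k) + Real.log x)) =o[Filter.atTop]
      fun x : ℝ => x ^ (1 / 4 : ℝ) := by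
    apply Asymptotics.IsLittleO.const_mul_left
    apply Asymptotics.IsLittleO.add
    · rw [Asymptotics.isLittleO_const_left]
      right
      exact tendsto_norm_atTop_atTop.comp (tendsto_rpow_atTop (by norm_num))
    · exact isLittleO_log_rpow_atTop (by norm_num)
  have h2 := (h1.def (c := 1) one_pos)
  obtain ⟨x0, hx0⟩ := Filter.eventually_atTop.mp h2
  refine ⟨max 1 ⌈x0⌉₊, fun X hX => ?_⟩
  have hX1 : 1 ≤ X := le_trans (le_max_left _ _) hX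
  have hXr : (1 : ℝ) ≤ X := by exact_mod_cast hX1
  have hX0 : (0 : ℝ) < X := by linarith
  have hXx : x0 ≤ (X : ℝ) := by
    have : ⌈x0⌉₊ ≤ X := le_trans (le_max_right _ _) hX
    exact (Nat.le_ceil x0).trans (by exact_mod_cast this)
  have h3 := hx0 X hXx
  have hk' : (1 : ℝ) ≤ k := by exact_mod_cast hk
  have h4 : 8 * √(2 * k) * (Real.log (2 * k) + Real.log X) ≤ (X : ℝ) ^ (1 / 4 : ℝ) := by
    refine (le_abs_self _).trans ?_
    rw [Real.norm_eq_abs, Real.norm_eq_abs, one_mul, abs_of_nonneg (Real.rpow_nonneg hX0.le _)] at h3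
    exact h3
  have e1 : ((2 * k * X : ℕ) : ℝ) = 2 * k * X := by push_cast; ring
  have e2 : (X : ℝ) ^ (7 / 4 : ℝ) = X * √(X : ℝ) * (X : ℝ) ^ (1 / 4 : ℝ) := by
    rw [Real.sqrt_eq_rpow]
    nth_rewrite 2 [← Real.rpow_one (X : ℝ)]
    rw [← Real.rpow_add hX0, ← Real.rpow_add hX0]
    norm_num
  rw [e1, Real.sqrt_mul (by positivity), Real.log_mul (by positivity) hX0.ne', e2]
  have h5 : 0 ≤ X * √(X : ℝ) := by positivity
  calc 2 * (√(2 * k) * √(X : ℝ)) * (Real.log (2 * k) + Real.log X) * (4 * X)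
      = X * √(X : ℝ) * (8 * √(2 * k) * (Real.log (2 * k) + Real.log X)) := by ring
    _ ≤ _ := mul_le_mul_of_nonneg_left h4 h5

/-- Proof. `BPS_lp_le` (`H68T/BPS.lean`): `lp n ≤ Λ n`; as `BPS_prime_powers` there with `60 * X` replaced by `N = 2 k X` (`Chebyshev.psi_sub_theta_le`, `Chebyshev.psi_sub_theta_eq_sum_not_prime`): `∑_{n ≤ N} (Λ n - lp n) ≤ 2 √N log N`; `psi_bd`. So the
difference is at most `2 √N log N · 4 X ≤ X^(7/4)` for large `X`. (`X ≥ 1`, `k ≥ 1`.) -/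
theorem bh_lp (k : ℕ) (hk : 1 ≤ k) : ∃ X0 : ℕ, ∀ X : ℕ, X0 ≤ X → ∀ f : ℕ → ℤ → ℂ, (∀ j, j < k → Bdd X (f j)) →
    ‖(∑ n ∈ Icc 1 (2 * k * X), ((lp n : ℝ) : ℂ) * Psi X k f n) - LF X k f ArithmeticFunction.vonMangoldt‖ ≤ (X : ℝ) ^ (7 / 4 : ℝ) := by
  obtain ⟨X0, hX0⟩ := bh8_num k hk
  refine ⟨max 1 X0, fun X hX f hf => ?_⟩
  have hX1 : 1 ≤ X := le_trans (le_max_left _ _) hX
  refine le_trans ?_ (hX0 X (le_trans (le_max_right _ _) hX))
  have hN : 1 ≤ 2 * k * X := Nat.one_le_iff_ne_zero.mpr (by positivity)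
  have h1 := bh8_prime_powers (2 * k * X) hN
  have h2 : (0 : ℝ) ≤ 4 * X := by positivity
  refine le_trans ?_ (mul_le_mul_of_nonneg_right h1 h2)
  rw [LF, ← Finset.sum_sub_distrib, Finset.sum_mul]
  refine (norm_sum_le _ _).trans (Finset.sum_le_sum fun n _ => ?_)
  rw [← sub_mul, norm_mul, ← Complex.ofReal_sub, Complex.norm_real, Real.norm_eq_abs, abs_sub_comm,
    abs_of_nonneg (by linarith [Pool.Agent.Lib.H68T.BPS_lp_le n])]
  exact mul_le_mul_of_nonneg_left (psi_bd X k f hf n) (by linarith [Pool.Agent.Lib.H68T.BPS_lp_le n])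

end Pool.Agent.HUK
end

-- from Lib.HUK.BH7
section

/-!
# HUK, chunk BH7 (M): sizes for large `X`
-/

open Finset

namespace Pool.Agent.HUK

open Pool.Agent.Lib.H81A (af muV one1 logf)

theorem bh7_ev (C : ℝ) {a b : ℝ} (hab : a < b) : ∀ᶠ X : ℕ in Filter.atTop, C * (X : ℝ) ^ a ≤ (X : ℝ) ^ b := by
  have h := ((tendsto_rpow_atTop (sub_pos.2 hab)).comp tendsto_natCast_atTop_atTop).eventually_ge_atTop C
  filter_upwards [h, Filter.eventually_ge_atTop 1] with X h1 h2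
  have hX : (0 : ℝ) < X := by exact_mod_cast h2
  have h3 : C ≤ (X : ℝ) ^ (b - a) := h1
  calc C * (X : ℝ) ^ a ≤ (X : ℝ) ^ (b - a) * (X : ℝ) ^ a :=
        mul_le_mul_of_nonneg_right h3 (Real.rpow_nonneg hX.le _)
    _ = (X : ℝ) ^ b := by rw [← Real.rpow_add hX, sub_add_cancel]

theorem bh7_one {δ : ℝ} (hδ : 0 < δ) {X : ℕ} (hX : 1 ≤ X) : 1 ≤ (X : ℝ) ^ δ :=
  Real.one_le_rpow (by exact_mod_cast hX) hδ.le

theorem bh7_log (k : ℕ) {δ : ℝ} (hδ : 0 < δ) :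
    ∀ᶠ X : ℕ in Filter.atTop, ∀ n : ℕ, 1 ≤ n → n ≤ 2 * k * X → Real.log n ≤ (X : ℝ) ^ δ := by
  have h := bh7_ev ((2 * (k : ℝ)) ^ (δ / 2) / (δ / 2)) (a := δ / 2) (b := δ) (by linarith)
  filter_upwards [h, Filter.eventually_ge_atTop 1] with X h1 h2 n hn hn2
  have hX : (0 : ℝ) < X := by exact_mod_cast h2
  have hn3 : (n : ℝ) ≤ 2 * k * X := by exact_mod_cast hn2
  have hn0 : (0 : ℝ) ≤ n := Nat.cast_nonneg n
  have hk : (0 : ℝ) ≤ 2 * k := by positivity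
  calc Real.log n ≤ (n : ℝ) ^ (δ / 2) / (δ / 2) := Real.log_le_rpow_div hn0 (by linarith)
    _ ≤ (2 * k * X : ℝ) ^ (δ / 2) / (δ / 2) := by
        have h3 := Real.rpow_le_rpow hn0 hn3 (by linarith : 0 ≤ δ / 2)
        gcongr
    _ = (2 * (k : ℝ)) ^ (δ / 2) / (δ / 2) * (X : ℝ) ^ (δ / 2) := by
        rw [Real.mul_rpow hk hX.le]
        ring
    _ ≤ (X : ℝ) ^ δ := h1

theorem bh7_floor {τ : ℝ} (X : ℕ) : ((⌊(X : ℝ) ^ τ⌋₊ : ℕ) : ℝ) ≤ (X : ℝ) ^ τ :=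
  Nat.floor_le (Real.rpow_nonneg (Nat.cast_nonneg X) τ)

theorem bh7_A {τ : ℝ} (hτ : 0 < τ) (A0 : ℕ) : ∀ᶠ X : ℕ in Filter.atTop, A0 ≤ ⌊(X : ℝ) ^ τ⌋₊ := by
  have h := ((tendsto_rpow_atTop hτ).comp tendsto_natCast_atTop_atTop).eventually_ge_atTop (A0 : ℝ)
  filter_upwards [h] with X h1
  exact Nat.le_floor h1

theorem bh7_S {τ : ℝ} (hτ : 0 < τ) {ε : ℝ} (hε : 0 < ε) : ∀ᶠ X : ℕ in Filter.atTop,
    0 < SA ⌊(X : ℝ) ^ τ⌋₊ ∧ 1 / SA ⌊(X : ℝ) ^ τ⌋₊ ≤ (X : ℝ) ^ ε := by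
  obtain ⟨A0, hA0, hA⟩ := sa_ge
  obtain ⟨e, he⟩ : ∃ e : ℝ, e = ε / (2 * τ) := ⟨_, rfl⟩
  have he0 : 0 < e := by rw [he]; positivity
  have h := bh7_ev (8 * ((4 : ℝ) ^ e / e)) (a := ε / 2) (b := ε) (by linarith)
  filter_upwards [h, bh7_A hτ A0, Filter.eventually_ge_atTop 1] with X h1 h2 h3
  have hX : (0 : ℝ) < X := by exact_mod_cast h3
  obtain ⟨A, hAdef⟩ : ∃ A : ℕ, A = ⌊(X : ℝ) ^ τ⌋₊ := ⟨_, rfl⟩
  rw [← hAdef] at h2 ⊢
  have hA2 : 2 ≤ A := hA0.trans h2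
  have hA2' : (2 : ℝ) ≤ A := by exact_mod_cast hA2
  have hAX : (A : ℝ) ≤ (X : ℝ) ^ τ := by rw [hAdef]; exact bh7_floor X
  have hlog : 0 < Real.log (4 * A) := Real.log_pos (by linarith)
  have h4 := hA A h2
  have h5 : 0 < SA A := lt_of_lt_of_le (by positivity) h4
  refine ⟨h5, ?_⟩
  have h6 : 1 / SA A ≤ 8 * Real.log (4 * A) := by
    rw [div_le_iff₀ h5]
    rw [div_le_iff₀ (by positivity)] at h4
    linarith
  have h7 : Real.log (4 * A) ≤ (4 : ℝ) ^ e / e * (X : ℝ) ^ (ε / 2) := by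
    calc Real.log (4 * A) ≤ (4 * (A : ℝ)) ^ e / e := Real.log_le_rpow_div (by positivity) he0
      _ ≤ (4 * (X : ℝ) ^ τ) ^ e / e := by
          have h8 := Real.rpow_le_rpow (by positivity : (0 : ℝ) ≤ 4 * A)
            (by linarith : 4 * (A : ℝ) ≤ 4 * (X : ℝ) ^ τ) he0.le
          gcongr
      _ = (4 : ℝ) ^ e / e * (X : ℝ) ^ (ε / 2) := by
          rw [Real.mul_rpow (by norm_num) (Real.rpow_nonneg hX.le _), ← Real.rpow_mul hX.le]
          have h9 : τ * e = ε / 2 := by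
            rw [he]
            field_simp
          rw [h9]
          ring
  calc 1 / SA A ≤ 8 * Real.log (4 * A) := h6
    _ ≤ 8 * ((4 : ℝ) ^ e / e * (X : ℝ) ^ (ε / 2)) := by linarith
    _ = 8 * ((4 : ℝ) ^ e / e) * (X : ℝ) ^ (ε / 2) := by ring
    _ ≤ (X : ℝ) ^ ε := h1

/-- Proof. `Pool.Agent.Lib.H21AP.divisor_bound` with exponent `δ / 2`: `C (2 k X) ^ (δ/2) ≤ X ^ δ` for large `X`; `1 ≤ X ^ δ`. -/
theorem bh_tw (k : ℕ) (δ : ℝ) (hδ : 0 < δ) : ∃ X0 : ℕ, ∀ X : ℕ, X0 ≤ X → TW (2 * k * X) ((X : ℝ) ^ δ) := by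
  obtain ⟨C, hC, hdiv⟩ := Pool.Agent.Lib.H21AP.divisor_bound (ε := δ / 2) (by linarith)
  have h := bh7_ev (C * (2 * (k : ℝ)) ^ (δ / 2)) (a := δ / 2) (b := δ) (by linarith)
  obtain ⟨X0, hX0⟩ := Filter.eventually_atTop.1 (h.and (Filter.eventually_ge_atTop 1))
  refine ⟨X0, fun X hX => ?_⟩
  obtain ⟨h1, h2⟩ := hX0 X hX
  have hXp : (0 : ℝ) < X := by exact_mod_cast h2
  refine ⟨bh7_one hδ h2, fun n hn hn2 => ?_⟩
  have hn3 : (n : ℝ) ≤ 2 * k * X := by exact_mod_cast hn2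
  have hn0 : (0 : ℝ) ≤ n := Nat.cast_nonneg n
  have hk : (0 : ℝ) ≤ 2 * k := by positivity
  calc (n.divisors.card : ℝ) ≤ C * (n : ℝ) ^ (δ / 2) := hdiv n hn
    _ ≤ C * (2 * k * X : ℝ) ^ (δ / 2) :=
        mul_le_mul_of_nonneg_left (Real.rpow_le_rpow hn0 hn3 (by linarith)) hC.le
    _ = C * (2 * (k : ℝ)) ^ (δ / 2) * (X : ℝ) ^ (δ / 2) := by
        rw [Real.mul_rpow hk hXp.le]
        ring
    _ ≤ (X : ℝ) ^ δ := h1

/-- Proof. `A = ⌊X^τ⌋`, `D = z = ⌊X^θ⌋`, `N = 2 k X`, `M = X^δ`, `Y = X^(2θ)`. For large `X`: `A ≥ A0` of `sa_ge`, so `SA A > 0` and `1/SA A ≤ 8 log (4A) ≤ X^(δ/2)`; `log N ≤ X^(δ/2)` (`Real.log_le_rpow_div`, powers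
absorb constants); `4 X^θ ≤ X^(2θ)`. `muV z`: values of the Moebius function (`abs_moebius_le_one`, see `sm_bound` in `H81A/SM.lean`), supported on `n ≤ z ≤ X^θ`; `fS`: `sml_mem`, `sml_zero`; `fSL`: in addition `0 ≤ log n ≤ log N`; `fV`, `fVL`: `vv_mem`;
`one1`, `logf` clear. `tw` is `bh_tw`. -/
theorem bh_siz (k : ℕ) (hk : 1 ≤ k) (δ θ τ : ℝ) (hδ : 0 < δ) (hθ : 0 < θ) (hτ : 0 < τ) : ∃ X0 : ℕ, ∀ X : ℕ, X0 ≤ X →
    Siz (2 * k * X) ⌊(X : ℝ) ^ τ⌋₊ ⌊(X : ℝ) ^ θ⌋₊ ⌊(X : ℝ) ^ θ⌋₊ ((X : ℝ) ^ (2 * θ)) ((X : ℝ) ^ δ) ((X : ℝ) ^ δ) := by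
  obtain ⟨X1, hX1⟩ := bh_tw k δ hδ
  have h4 := bh7_ev 4 (a := θ) (b := 2 * θ) (by linarith)
  obtain ⟨X0, hX0⟩ := Filter.eventually_atTop.1 ((Filter.eventually_ge_atTop X1).and
    ((Filter.eventually_ge_atTop 1).and ((bh7_log k hδ).and ((bh7_S hτ hδ).and h4))))
  refine ⟨X0, fun X hX => ?_⟩
  obtain ⟨h1, h2, h3, ⟨h5, -⟩, h6⟩ := hX0 X hX
  have hXp : (0 : ℝ) < X := by exact_mod_cast h2
  have hM : 1 ≤ (X : ℝ) ^ δ := bh7_one hδ h2
  have hD : ((⌊(X : ℝ) ^ θ⌋₊ : ℕ) : ℝ) ≤ (X : ℝ) ^ θ := bh7_floor X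
  have hθ1 : 1 ≤ (X : ℝ) ^ θ := bh7_one hθ h2
  have hlog : ∀ n : ℕ, 1 ≤ n → 0 ≤ Real.log n := fun n hn => Real.log_natCast_nonneg n
  have hsm := fun n => sml_mem ⌊(X : ℝ) ^ τ⌋₊ ⌊(X : ℝ) ^ θ⌋₊ n h5
  have hvm := fun n => vv_mem ⌊(X : ℝ) ^ τ⌋₊ ⌊(X : ℝ) ^ θ⌋₊ n
  have hss : ∀ n : ℕ, sml ⌊(X : ℝ) ^ τ⌋₊ ⌊(X : ℝ) ^ θ⌋₊ n ≠ 0 → (n : ℝ) ≤ (X : ℝ) ^ (2 * θ) := by
    intro n hn
    have h7 : n ≤ 4 * ⌊(X : ℝ) ^ θ⌋₊ := by
      by_contra hc
      exact hn (sml_zero _ _ n h5 (not_le.1 hc))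
    have h8 : (n : ℝ) ≤ 4 * ((⌊(X : ℝ) ^ θ⌋₊ : ℕ) : ℝ) := by exact_mod_cast h7
    linarith
  refine ⟨hM, hX1 X h1, ⟨?_, ?_⟩, ⟨?_, ?_⟩, ⟨?_, ?_⟩, ?_, ?_, ?_, ?_, h5⟩
  · intro n hn _
    rw [muV, Pool.Agent.Lib.H81A.af_apply _ (by omega)]
    split_ifs
    · have h7 : |((ArithmeticFunction.moebius n : ℤ) : ℝ)| ≤ 1 := by
        exact_mod_cast ArithmeticFunction.abs_moebius_le_one
      exact h7.trans hM
    · rw [abs_zero]
      linarith
  · intro n hn _ hF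
    rw [muV, Pool.Agent.Lib.H81A.af_apply _ (by omega)] at hF
    split_ifs at hF with h7
    · have h8 : (n : ℝ) ≤ ((⌊(X : ℝ) ^ θ⌋₊ : ℕ) : ℝ) := by exact_mod_cast h7
      linarith
    · exact absurd rfl hF
  · intro n hn _
    rw [fS, Pool.Agent.Lib.H81A.af_apply _ (by omega), abs_of_nonneg (hsm n).1]
    exact (hsm n).2.trans hM
  · intro n hn _ hF
    rw [fS, Pool.Agent.Lib.H81A.af_apply _ (by omega)] at hF
    exact hss n hF
  · intro n hn hn2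
    rw [fSL, Pool.Agent.Lib.H81A.af_apply _ (by omega),
      abs_of_nonneg (mul_nonneg (hsm n).1 (hlog n hn))]
    exact (mul_le_of_le_one_left (hlog n hn) (hsm n).2).trans (h3 n hn hn2)
  · intro n hn _ hF
    rw [fSL, Pool.Agent.Lib.H81A.af_apply _ (by omega)] at hF
    exact hss n (left_ne_zero_of_mul hF)
  · intro n hn _
    rw [fV, Pool.Agent.Lib.H81A.af_apply _ (by omega), abs_of_nonneg (hvm n).1]
    exact (hvm n).2.trans hM
  · intro n hn hn2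
    rw [fVL, Pool.Agent.Lib.H81A.af_apply _ (by omega),
      abs_of_nonneg (mul_nonneg (hvm n).1 (hlog n hn))]
    exact (mul_le_of_le_one_left (hlog n hn) (hvm n).2).trans (h3 n hn hn2)
  · intro n hn _
    rw [one1, Pool.Agent.Lib.H81A.af_apply _ (by omega), abs_one]
    exact hM
  · intro n hn hn2
    rw [logf, Pool.Agent.Lib.H81A.af_apply _ (by omega), abs_of_nonneg (hlog n hn)]
    exact h3 n hn hn2

/-- Proof. `A = ⌊X^τ⌋`, `N = 2kX`. `uu A n ≠ 0` only for `A < n ≤ 4 A` (`uu_supp`), so `X^(τ/2) ≤ X^τ < A + 1 ≤ n` and `n ≤ 4 X^τ ≤ X^σ` (as `τ < σ`, `X` large); `0 ≤ uu ≤ 1/SA A ≤ 8 log (4 A)` (`uu_mem`, `sa_ge`), times `log n ≤ log N`. -/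
theorem bh_u (k : ℕ) (hk : 1 ≤ k) (δ τ σ : ℝ) (hδ : 0 < δ) (hτ : 0 < τ) (hσ : τ < σ) : ∃ X0 : ℕ, ∀ X : ℕ, X0 ≤ X →
    (BN (2 * k * X) ((X : ℝ) ^ δ) (fU ⌊(X : ℝ) ^ τ⌋₊) ∧ BN (2 * k * X) ((X : ℝ) ^ δ) (fUL ⌊(X : ℝ) ^ τ⌋₊)) ∧
    (∀ n : ℕ, 1 ≤ n → n ≤ 2 * k * X → (fU ⌊(X : ℝ) ^ τ⌋₊ n ≠ 0 ∨ fUL ⌊(X : ℝ) ^ τ⌋₊ n ≠ 0) →
      (X : ℝ) ^ (τ / 2) ≤ n ∧ (n : ℝ) ≤ (X : ℝ) ^ σ) := by
  have h4 := bh7_ev 4 (a := τ) (b := σ) hσ
  obtain ⟨X0, hX0⟩ := Filter.eventually_atTop.1 ((Filter.eventually_ge_atTop 1).and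
    ((bh7_log k (half_pos hδ)).and ((bh7_S hτ (half_pos hδ)).and h4)))
  refine ⟨X0, fun X hX => ?_⟩
  obtain ⟨h2, h3, ⟨h5, h7⟩, h6⟩ := hX0 X hX
  have hXp : (0 : ℝ) < X := by exact_mod_cast h2
  have hX1 : (1 : ℝ) ≤ X := by exact_mod_cast h2
  have hM : 1 ≤ (X : ℝ) ^ (δ / 2) := bh7_one (half_pos hδ) h2
  have hMM : (X : ℝ) ^ (δ / 2) * (X : ℝ) ^ (δ / 2) = (X : ℝ) ^ δ := by
    rw [← Real.rpow_add hXp, add_halves]
  have hM2 : (X : ℝ) ^ (δ / 2) ≤ (X : ℝ) ^ δ := by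
    rw [← hMM]
    exact le_mul_of_one_le_left (by linarith) hM
  have hum := fun n => uu_mem ⌊(X : ℝ) ^ τ⌋₊ n
  have hlog : ∀ n : ℕ, 1 ≤ n → 0 ≤ Real.log n := fun n hn => Real.log_natCast_nonneg n
  refine ⟨⟨?_, ?_⟩, ?_⟩
  · intro n hn _
    rw [fU, Pool.Agent.Lib.H81A.af_apply _ (by omega), abs_of_nonneg (hum n).1]
    exact ((hum n).2.trans h7).trans hM2
  · intro n hn hn2
    rw [fUL, Pool.Agent.Lib.H81A.af_apply _ (by omega),
      abs_of_nonneg (mul_nonneg (hum n).1 (hlog n hn)), ← hMM]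
    exact mul_le_mul ((hum n).2.trans h7) (h3 n hn hn2) (hlog n hn) (by linarith)
  · intro n hn _ hF
    have hu : uu ⌊(X : ℝ) ^ τ⌋₊ n ≠ 0 := by
      rcases hF with hF | hF
      · rw [fU, Pool.Agent.Lib.H81A.af_apply _ (by omega)] at hF
        exact hF
      · rw [fUL, Pool.Agent.Lib.H81A.af_apply _ (by omega)] at hF
        exact left_ne_zero_of_mul hF
    obtain ⟨h8, h9⟩ := uu_supp _ n hu
    have h10 : ((⌊(X : ℝ) ^ τ⌋₊ : ℕ) : ℝ) + 1 ≤ n := by exact_mod_cast h8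
    have h11 : (n : ℝ) ≤ 4 * ((⌊(X : ℝ) ^ τ⌋₊ : ℕ) : ℝ) := by exact_mod_cast h9
    have h12 := Nat.lt_floor_add_one ((X : ℝ) ^ τ)
    have h13 : (X : ℝ) ^ (τ / 2) ≤ (X : ℝ) ^ τ := Real.rpow_le_rpow_of_exponent_le hX1 (by linarith)
    have h14 : ((⌊(X : ℝ) ^ τ⌋₊ : ℕ) : ℝ) ≤ (X : ℝ) ^ τ := bh7_floor X
    exact ⟨by linarith, by linarith⟩

/-- Proof. `⌊X^θ⌋ + 1 ≥ X^θ`, so `(⌊X^θ⌋ + 1)^J ≥ X^(θ J) ≥ X^2 > 2 k X` for large `X`. -/
theorem bh_J (k J : ℕ) (θ : ℝ) (hθ : 0 < θ) (hJ : 2 ≤ θ * J) : ∃ X0 : ℕ, ∀ X : ℕ, X0 ≤ X →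
    2 * k * X < (⌊(X : ℝ) ^ θ⌋₊ + 1) ^ J := by
  refine ⟨2 * k + 1, fun X hX => ?_⟩
  have h1 : (1 : ℝ) ≤ X := by
    have : 1 ≤ X := by omega
    exact_mod_cast this
  have h2 : (2 * k + 1 : ℝ) ≤ X := by exact_mod_cast hX
  have h3 : (X : ℝ) ^ 2 ≤ ((⌊(X : ℝ) ^ θ⌋₊ : ℝ) + 1) ^ J := by
    calc (X : ℝ) ^ 2 = (X : ℝ) ^ (2 : ℝ) := by rw [← Real.rpow_natCast]; norm_num
      _ ≤ (X : ℝ) ^ (θ * J) := Real.rpow_le_rpow_of_exponent_le h1 hJ
      _ = ((X : ℝ) ^ θ) ^ J := Real.rpow_mul_natCast (by linarith) θ J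
      _ ≤ ((⌊(X : ℝ) ^ θ⌋₊ : ℝ) + 1) ^ J :=
          pow_le_pow_left₀ (Real.rpow_nonneg (by linarith) _) (Nat.lt_floor_add_one _).le J
  have h4 : ((2 * k * X : ℕ) : ℝ) < (((⌊(X : ℝ) ^ θ⌋₊ + 1) ^ J : ℕ) : ℝ) := by
    push_cast
    refine lt_of_lt_of_le ?_ h3
    nlinarith
  exact_mod_cast h4

end Pool.Agent.HUK
end

-- from Lib.HUK.BH9
section

/-!
# HUK, chunk BH9 (M): assembly of module B
-/

open Finset

namespace Pool.Agent.HUK

open Pool.Agent.Lib.H81A (af muV one1 logf)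

/-- Proof. `hb_identity` (`H81A/HB.lean`) for `m ≤ 2kX < (z+1)^J`, `LF_sum`; a real constant `c` times an arithmetic function: the functional is linear (work with the sums:
`LF X k f vonMangoldt = ∑ j ∈ range J, (-1)^j (J choose (j+1)) LF X k f (muV z ^ (j+1) * one1 ^ j * logf)` by exchanging the two sums in the definition of `LF`), and
`∑_{j<J} (J choose (j+1)) ≤ 2^J`. (The hypothesis `0 < J` is added: for `J = 0` there is no condition on `R`.) -/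
theorem bh_vM (X k : ℕ) (f : ℕ → ℤ → ℂ) (z J : ℕ) (hJ : 0 < J) (hz : 2 * k * X < (z + 1) ^ J) (R : ℝ)
    (hR : ∀ j, j < J → ‖LF X k f (muV z ^ (j + 1) * one1 ^ j * logf)‖ ≤ R) :
    ‖LF X k f ArithmeticFunction.vonMangoldt‖ ≤ 2 ^ J * R := by
  have hR0 : 0 ≤ R := (norm_nonneg _).trans (hR 0 hJ)
  have h1 : LF X k f ArithmeticFunction.vonMangoldt = ∑ j ∈ range J, (((-1 : ℝ) ^ j * (J.choose (j + 1) : ℝ) : ℝ) : ℂ) *
      LF X k f (muV z ^ (j + 1) * one1 ^ j * logf) := by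
    unfold LF
    simp only [Finset.mul_sum]
    rw [Finset.sum_comm]
    refine Finset.sum_congr rfl fun n hn => ?_
    have hn2 := (Finset.mem_Icc.1 hn).2
    rw [Pool.Agent.Lib.H81A.hb_identity z J n (lt_of_le_of_lt hn2 hz)]
    push_cast
    rw [Finset.sum_mul]
    refine Finset.sum_congr rfl fun j _ => ?_
    ring
  rw [h1]
  refine (norm_sum_le _ _).trans ?_
  have h2 : ∀ j ∈ range J, ‖(((-1 : ℝ) ^ j * (J.choose (j + 1) : ℝ) : ℝ) : ℂ) * LF X k f (muV z ^ (j + 1) * one1 ^ j * logf)‖ ≤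
      (J.choose (j + 1) : ℝ) * R := by
    intro j hj
    rw [norm_mul, Complex.norm_real, Real.norm_eq_abs, abs_mul, abs_pow, abs_neg, abs_one, one_pow, one_mul, Nat.abs_cast]
    exact mul_le_mul_of_nonneg_left (hR j (Finset.mem_range.1 hj)) (Nat.cast_nonneg _)
  refine (Finset.sum_le_sum h2).trans ?_
  rw [← Finset.sum_mul]
  refine mul_le_mul_of_nonneg_right ?_ hR0
  have h3 : ∑ j ∈ range (J + 1), J.choose j = 2 ^ J := Nat.sum_range_choose J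
  rw [Finset.sum_range_succ'] at h3
  have h4 : ∑ j ∈ range J, J.choose (j + 1) ≤ 2 ^ J := by omega
  calc ∑ j ∈ range J, (J.choose (j + 1) : ℝ) = ((∑ j ∈ range J, J.choose (j + 1) : ℕ) : ℝ) := by push_cast; rfl
    _ ≤ ((2 ^ J : ℕ) : ℝ) := by exact_mod_cast h4
    _ = 2 ^ J := by push_cast; rfl

theorem bh9_large (C e : ℝ) (he : 0 < e) : ∃ X0 : ℕ, ∀ X : ℕ, X0 ≤ X → C ≤ (X : ℝ) ^ e := by
  have h1 : Filter.Tendsto (fun X : ℕ => ((X : ℝ)) ^ e) Filter.atTop Filter.atTop :=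
    (tendsto_rpow_atTop he).comp tendsto_natCast_atTop_atTop
  obtain ⟨X0, h2⟩ := Filter.eventually_atTop.1 (h1.eventually_ge_atTop C)
  exact ⟨X0, fun X hX => h2 X hX⟩

/-- **Module B.** Proof. `σ = cs k > 0`, `θ = σ / 8`, `J = ⌈2 / θ⌉₊`, `T = X^(σ/4)`, `Y = X^(2θ) = X^(σ/4)`, `τ = θ / 2^(k+3) < σ`. `t2_LF` with lower exponents `τ / 2` and `σ / 4` (and `κ`), `eta_LF` with `θ, τ`: let `κ0` be the minimum of the three
exponents of the conclusions and `1 / 4`, `ε0` the minimum of the three `ε` and `1`, `δ = ε0 / (4 J + 8)`, `B = X^ε0`, `M = W = X^δ` (so `(W M)^(2J+2) = X^(2 δ (2J+2)) ≤ B`), `E = X^(2 - κ0)`. For large `X`: `bh_siz`, `bh_u`, `bh_J` give `Siz`, and `Hyp` (`u`, `ul`, `t2`: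
`t2_LF`, for `t2` the support `T < n ≤ T Y = X^(σ/2) ≤ X^σ`; `e`, `el`: `eta_LF`; `BN.mono` from `B` to the power `X^ε` of each input). `hb_term`, `bh_vM`: `|LF Λ| ≤ 2^J ((4J+5) X^(2-κ0) + 4 X^(1 + σ/4 + ε0))`, and `σ/4 + ε0 ≤ 1/2` if `ε0 ≤ 1/4` (take it so);
with `bh_lp` everything is at most `X^(2 - κ0/2)` for large `X`. -/
theorem tlp_of_tii (k : ℕ) (hk : 3 ≤ k) (h : TII k) : TLP k := by
  intro κ hκ
  obtain ⟨σ, hσ⟩ : ∃ σ : ℝ, σ = cs k := ⟨_, rfl⟩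
  have hσ0 : 0 < σ := by
    rw [hσ]
    exact pow_pos (by norm_num) _
  have hσ1 : σ ≤ 1 := by
    rw [hσ]
    exact pow_le_one₀ (by norm_num) (by norm_num)
  obtain ⟨θ, hθ⟩ : ∃ θ : ℝ, θ = σ / 8 := ⟨_, rfl⟩
  have hθ0 : 0 < θ := by rw [hθ]; positivity
  have hθ1 : θ ≤ 1 := by rw [hθ]; linarith
  obtain ⟨τ, hτ⟩ : ∃ τ : ℝ, τ = θ / 2 ^ (k + 3) := ⟨_, rfl⟩
  have hp : (1 : ℝ) ≤ 2 ^ (k + 3) := one_le_pow₀ (by norm_num)
  have hp0 : (0 : ℝ) < 2 ^ (k + 3) := by positivity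
  have hτ0 : 0 < τ := by rw [hτ]; positivity
  have hτθ : τ ≤ θ := by rw [hτ]; exact div_le_self hθ0.le hp
  have hτσ : τ < σ := by
    have : θ < σ := by rw [hθ]; linarith
    linarith
  have hθτ : 2 ^ (k + 3) * τ ≤ θ := by
    rw [hτ, mul_div_cancel₀ _ hp0.ne']
  obtain ⟨J, hJ⟩ : ∃ J : ℕ, J = ⌈2 / θ⌉₊ := ⟨_, rfl⟩
  have hJ2 : 2 ≤ θ * J := by
    have h1 : 2 / θ ≤ J := by rw [hJ]; exact Nat.le_ceil _
    rw [div_le_iff₀ hθ0] at h1
    linarith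
  have hJ0 : 0 < J := by
    rw [hJ]
    exact Nat.ceil_pos.2 (by positivity)
  obtain ⟨κ1, ε1, hκ1, hε1, X1, H1⟩ := t2_LF k hk h (τ / 2) κ (by positivity) hκ
  obtain ⟨κ2, ε2, hκ2, hε2, X2, H2⟩ := t2_LF k hk h (σ / 4) κ (by positivity) hκ
  obtain ⟨κ3, ε3, hκ3, hε3, X3, H3⟩ := eta_LF k hk θ τ hτ0 hθτ hθ1
  obtain ⟨κ0, hκ0⟩ : ∃ κ0 : ℝ, κ0 = min (min κ1 κ2) (min κ3 (1 / 4)) := ⟨_, rfl⟩
  obtain ⟨ε0, hε0⟩ : ∃ ε0 : ℝ, ε0 = min (min ε1 ε2) (min ε3 (1 / 4)) := ⟨_, rfl⟩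
  have kp : 0 < κ0 := by rw [hκ0]; exact lt_min (lt_min hκ1 hκ2) (lt_min hκ3 (by norm_num))
  have ep : 0 < ε0 := by rw [hε0]; exact lt_min (lt_min hε1 hε2) (lt_min hε3 (by norm_num))
  have k1 : κ0 ≤ κ1 := by rw [hκ0]; exact (min_le_left _ _).trans (min_le_left _ _)
  have k2 : κ0 ≤ κ2 := by rw [hκ0]; exact (min_le_left _ _).trans (min_le_right _ _)
  have k3 : κ0 ≤ κ3 := by rw [hκ0]; exact (min_le_right _ _).trans (min_le_left _ _)
  have k4 : κ0 ≤ 1 / 4 := by rw [hκ0]; exact (min_le_right _ _).trans (min_le_right _ _)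
  have e1 : ε0 ≤ ε1 := by rw [hε0]; exact (min_le_left _ _).trans (min_le_left _ _)
  have e2 : ε0 ≤ ε2 := by rw [hε0]; exact (min_le_left _ _).trans (min_le_right _ _)
  have e3 : ε0 ≤ ε3 := by rw [hε0]; exact (min_le_right _ _).trans (min_le_left _ _)
  have e4 : ε0 ≤ 1 / 4 := by rw [hε0]; exact (min_le_right _ _).trans (min_le_right _ _)
  obtain ⟨δ, hδ⟩ : ∃ δ : ℝ, δ = ε0 / (4 * J + 8) := ⟨_, rfl⟩
  have hJp : (0 : ℝ) < 4 * J + 8 := by positivity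
  have hδ0 : 0 < δ := by rw [hδ]; positivity
  have hδe : δ ≤ ε0 := by
    rw [hδ]
    refine div_le_self ep.le ?_
    have : (0 : ℝ) ≤ J := Nat.cast_nonneg _
    linarith
  have hδm : 2 * δ * ((2 * J + 2 : ℕ) : ℝ) ≤ ε0 := by
    rw [hδ]
    push_cast
    rw [show 2 * (ε0 / (4 * (J : ℝ) + 8)) * (2 * J + 2) = ε0 * ((4 * J + 4) / (4 * J + 8)) by ring]
    refine mul_le_of_le_one_right ep.le ?_
    rw [div_le_one hJp]
    linarith
  obtain ⟨X4, H4⟩ := bh_siz k (by omega) δ θ τ hδ0 hθ0 hτ0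
  obtain ⟨X5, H5⟩ := bh_u k (by omega) δ τ σ hδ0 hτ0 hτσ
  obtain ⟨X6, H6⟩ := bh_J k J θ hθ0 hJ2
  obtain ⟨X7, H7⟩ := bh_lp k (by omega)
  obtain ⟨X8, H8⟩ := bh9_large (1 + 2 ^ J * ((4 * J + 5) + 4)) (κ0 / 2) (by positivity)
  refine ⟨κ0 / 2, by positivity, X1 + X2 + X3 + X4 + X5 + X6 + X7 + X8 + 1, fun X hX f hf hG => ?_⟩
  have hX1 : (1 : ℝ) ≤ X := by
    have : 1 ≤ X := by omega
    exact_mod_cast this
  have hXp : (0 : ℝ) < X := by linarith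
  have mono : ∀ a b : ℝ, a ≤ b → (X : ℝ) ^ a ≤ (X : ℝ) ^ b := fun a b hab => Real.rpow_le_rpow_of_exponent_le hX1 hab
  have G1 := H1 X (by omega) f hf hG
  have G2 := H2 X (by omega) f hf hG
  have G3 := H3 X (by omega) f hf
  have G4 := H4 X (by omega)
  obtain ⟨⟨u1, u2⟩, u3⟩ := H5 X (by omega)
  have G6 := H6 X (by omega)
  have G7 := H7 X (by omega) f hf
  have G8 := H8 X (by omega)
  rw [← hσ] at G1 G2
  have hyp : Hyp X k f ⌊(X : ℝ) ^ τ⌋₊ ⌊(X : ℝ) ^ θ⌋₊ ((X : ℝ) ^ (σ / 4)) ((X : ℝ) ^ (2 * θ)) ((X : ℝ) ^ ε0) ((X : ℝ) ^ (2 - κ0)) := by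
    refine ⟨fun G hB => ?_, fun G hB => ?_, fun G hB => ?_, fun G hB => ?_, fun F G hF hB hs => ?_⟩
    · exact (G1 _ G (u1.mono (mono _ _ (hδe.trans e1))) (hB.mono (mono _ _ e1)) fun n n1 n2 n3 => u3 n n1 n2 (Or.inl n3)).trans
        (mono _ _ (by linarith))
    · exact (G1 _ G (u2.mono (mono _ _ (hδe.trans e1))) (hB.mono (mono _ _ e1)) fun n n1 n2 n3 => u3 n n1 n2 (Or.inr n3)).trans
        (mono _ _ (by linarith))
    · exact ((G3 G (hB.mono (mono _ _ e3))).1).trans (mono _ _ (by linarith))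
    · exact ((G3 G (hB.mono (mono _ _ e3))).2).trans (mono _ _ (by linarith))
    · refine (G2 F G (hF.mono (mono _ _ e2)) (hB.mono (mono _ _ e2)) fun n n1 n2 n3 => ?_).trans (mono _ _ (by linarith))
      obtain ⟨s1, s2⟩ := hs n n1 n2 n3
      refine ⟨s1.le, s2.trans ?_⟩
      rw [← Real.rpow_add hXp]
      exact mono _ _ (by rw [hθ]; linarith)
  have hB : ((X : ℝ) ^ δ * (X : ℝ) ^ δ) ^ (2 * J + 2) ≤ (X : ℝ) ^ ε0 := by
    rw [← Real.rpow_add hXp, ← Real.rpow_natCast, ← Real.rpow_mul hXp.le]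
    exact mono _ _ (by
      have : (δ + δ) * ((2 * J + 2 : ℕ) : ℝ) = 2 * δ * ((2 * J + 2 : ℕ) : ℝ) := by ring
      rw [this]
      exact hδm)
  have hT : 1 ≤ (X : ℝ) ^ (σ / 4) := Real.one_le_rpow hX1 (by positivity)
  have K1 := bh_vM X k f ⌊(X : ℝ) ^ θ⌋₊ J hJ0 G6 _ fun j hj =>
    hb_term X k f hf ⌊(X : ℝ) ^ τ⌋₊ ⌊(X : ℝ) ^ θ⌋₊ ⌊(X : ℝ) ^ θ⌋₊ J j hj _ _ _ _ _ _ hT hyp G4 hB
  have K2 : ‖∑ n ∈ Icc 1 (2 * k * X), ((Pool.Agent.Lib.H68T.lp n : ℝ) : ℂ) * Psi X k f n‖ ≤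
      (X : ℝ) ^ (7 / 4 : ℝ) + 2 ^ J * ((4 * J + 5) * (X : ℝ) ^ (2 - κ0) + (X : ℝ) ^ (σ / 4) * (X : ℝ) ^ ε0 * (4 * X)) := by
    have t1 : (∑ n ∈ Icc 1 (2 * k * X), ((Pool.Agent.Lib.H68T.lp n : ℝ) : ℂ) * Psi X k f n) =
        ((∑ n ∈ Icc 1 (2 * k * X), ((Pool.Agent.Lib.H68T.lp n : ℝ) : ℂ) * Psi X k f n) - LF X k f ArithmeticFunction.vonMangoldt) +
          LF X k f ArithmeticFunction.vonMangoldt := by ring
    rw [t1]
    exact (norm_add_le _ _).trans (add_le_add G7 K1)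
  refine K2.trans ?_
  have P1 : (X : ℝ) ^ (7 / 4 : ℝ) ≤ (X : ℝ) ^ (2 - κ0) := mono _ _ (by linarith)
  have P2 : (X : ℝ) ^ (σ / 4) * (X : ℝ) ^ ε0 * (4 * X) ≤ 4 * (X : ℝ) ^ (2 - κ0) := by
    have t2 : (X : ℝ) ^ (σ / 4) * (X : ℝ) ^ ε0 * (4 * X) = 4 * (X : ℝ) ^ (σ / 4 + ε0 + 1) := by
      rw [Real.rpow_add hXp, Real.rpow_add hXp, Real.rpow_one]
      ring
    rw [t2]
    exact mul_le_mul_of_nonneg_left (mono _ _ (by linarith)) (by norm_num)
  have P3 : (1 + 2 ^ J * ((4 * (J : ℝ) + 5) + 4)) * (X : ℝ) ^ (2 - κ0) ≤ (X : ℝ) ^ (2 - κ0 / 2) := by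
    have t3 : (X : ℝ) ^ (2 - κ0 / 2) = (X : ℝ) ^ (κ0 / 2) * (X : ℝ) ^ (2 - κ0) := by
      rw [← Real.rpow_add hXp]
      congr 1
      ring
    rw [t3]
    exact mul_le_mul_of_nonneg_right G8 (Real.rpow_nonneg hXp.le _)
  refine le_trans ?_ P3
  have hJJ : (0 : ℝ) ≤ 2 ^ J := by positivity
  have P4 := mul_le_mul_of_nonneg_left P2 hJJ
  nlinarith

end Pool.Agent.HUK
end
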