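import Pool.Agent.Lib.H59M.M1.M003
import Pool.Agent.Lib.H59M.M1.M021
import Pool.Agent.Lib.H59M.M1.M026
import Pool.Agent.Lib.H59M.M1.M028
import Pool.Agent.Lib.H59M.M1.M056
import Pool.Agent.Lib.H59M.M1.M058
import Pool.Agent.Lib.H59M.M1.M060
import Pool.Agent.Lib.H59M.M1.M061
import Pool.Agent.Lib.H59M.M1.M066
import Pool.Agent.Lib.H59M.M1.M070
import Pool.Agent.Lib.H59M.M1.M073
import Pool.Agent.Lib.H59M.M1.M079

/-! Merged copies (to shorten the build) of Lib.H9U.LDefs, Lib.H9U.L0, Lib.H9U.L2T, Lib.H9U.L2, Lib.H9U.L3, Lib.H9U.L5A, Lib.H9U.L6A, Lib.HUK.KB11, Lib.HUK.DDefs, Lib.HUK.D0, Lib.HUK.V1, Lib.HUK.A14a, Lib.H9U.M2, Lib.H9U.U0A, Lib.H9U.U1B, Lib.H9U.U2, Lib.H9U.U3, Lib.H9U.U6, Lib.H9U.M3, Lib.H9U.M5, Lib.H9U.ZDefs, Lib.HUP.R18, Lib.H9U.T1, Lib.H9U.T2. -/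

-- from Lib.H9U.LDefs
section

/-!
# Project H9U, module L (local factors): definitions
-/

open Finset

namespace Pool.Agent.H9U

open Pool.Agent.Lib.H59P (Ch bx)

noncomputable section

/-- The `i`-th affine form at `(n, t)` over `ZMod q`. -/
def Sys.vz {k d : ℕ} (S : Sys k d) (q : ℕ) (b : Fin k → ℤ) (n : ZMod q) (t : Fin d → ZMod q) (i : Fin k) : ZMod q :=
  (S.a i : ZMod q) * n + ∑ j, (S.c i j : ZMod q) * t j + (b i : ZMod q)

/-- The first moment over `t` of the sums over `n`, for functions on `ZMod q`. -/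
def FZ {k d : ℕ} (S : Sys k d) (q : ℕ) [NeZero q] (b : Fin k → ℤ) (G : Fin k → ZMod q → ℂ) : ℝ :=
  ∑ t : Fin d → ZMod q, ‖∑ n : ZMod q, ∏ i, G i (S.vz q b n t i)‖

/-- The first moment over a complete period, for functions on the integers. -/
def FM {k d : ℕ} (S : Sys k d) (q : ℕ) (b : Fin k → ℤ) (F : Fin k → ℤ → ℂ) : ℝ :=
  ∑ t ∈ bx d q, ‖∑ n ∈ range q, ∏ i, F i (S.val b n (iv t) i)‖




end

end Pool.Agent.H9U
end

-- from Lib.H9U.L0
section

/-!
# H9U, chunk L0 (S): fibres of the multiplication by `e` on `ZMod q`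
-/

open Finset

namespace Pool.Agent.H9U

/-- the fibres have at most `|e|` elements -/
theorem l0_card (q : ℕ) [NeZero q] (e : ℤ) (he : e ≠ 0) (c y : ZMod q) :
    ((univ : Finset (ZMod q)).filter (fun m => (e : ZMod q) * m + c = y)).card ≤ e.natAbs := by
  classical
  have hq0 : 0 < q := Nat.pos_of_ne_zero (NeZero.ne q)
  have he0 : 0 < e.natAbs := Int.natAbs_pos.2 he
  rw [← Finset.card_range e.natAbs]
  refine Finset.card_le_card_of_injOn (fun m => m.val * e.natAbs / q) ?_ ?_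
  · intro m _
    simp only [Finset.coe_range, Set.mem_Iio]
    rw [Nat.div_lt_iff_lt_mul hq0, mul_comm]
    exact Nat.mul_lt_mul_of_pos_left (ZMod.val_lt m) he0
  · intro m hm m' hm' heq
    simp only [coe_filter, mem_univ, true_and, Set.mem_setOf_eq] at hm hm'
    have h1 : (e : ZMod q) * m = (e : ZMod q) * m' := by
      have := hm.trans hm'.symm
      exact add_right_cancel this
    have h2 : ((m.val * e.natAbs : ℕ) : ZMod q) = ((m'.val * e.natAbs : ℕ) : ZMod q) := by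
      push_cast
      rw [ZMod.natCast_zmod_val, ZMod.natCast_zmod_val]
      rcases Int.natAbs_eq e with h3 | h3
      · have h4 : (e : ZMod q) = (e.natAbs : ZMod q) := by
          conv_lhs => rw [h3]
          rw [Int.cast_natCast]
        rw [← h4, mul_comm m, mul_comm m']
        exact h1
      · have h4 : (e : ZMod q) = -(e.natAbs : ZMod q) := by
          conv_lhs => rw [h3]
          rw [Int.cast_neg, Int.cast_natCast]
        rw [h4, neg_mul, neg_mul, neg_inj] at h1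
        rw [mul_comm m, mul_comm m']
        exact h1
    rw [ZMod.natCast_eq_natCast_iff] at h2
    have h3 : m.val * e.natAbs = m'.val * e.natAbs := by
      have h4 := Nat.div_add_mod (m.val * e.natAbs) q
      have h5 := Nat.div_add_mod (m'.val * e.natAbs) q
      have h6 : m.val * e.natAbs / q = m'.val * e.natAbs / q := heq
      have h7 : m.val * e.natAbs % q = m'.val * e.natAbs % q := h2
      rw [← h4, ← h5, h6, h7]
    exact ZMod.val_injective q (Nat.eq_of_mul_eq_mul_right he0 h3)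

/-- Proof. The fibres of `m ↦ e m + c` have at most `|e|` elements: on `{m : e m + c = y}` the residue of `m.val * |e|` modulo `q` is constant, so
`m ↦ (m.val * e.natAbs) / q`, with values in `range e.natAbs`, is injective. Then `Finset.sum_fiberwise`-type rearrangement
(`∑_m g(e m + c) = ∑_y #{m : e m + c = y} g(y)`). -/
theorem L0_fib (q : ℕ) [NeZero q] (e : ℤ) (he : e ≠ 0) (c : ZMod q) (g : ZMod q → ℝ) (hg : ∀ x, 0 ≤ g x) :
    ∑ m : ZMod q, g ((e : ZMod q) * m + c) ≤ |(e : ℝ)| * ∑ x : ZMod q, g x := by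
  classical
  rw [← Finset.sum_fiberwise univ (fun m : ZMod q => (e : ZMod q) * m + c), Finset.mul_sum]
  refine Finset.sum_le_sum fun y _ => ?_
  have h1 : ∑ m ∈ univ.filter (fun m : ZMod q => (e : ZMod q) * m + c = y), g ((e : ZMod q) * m + c) =
      ∑ m ∈ univ.filter (fun m : ZMod q => (e : ZMod q) * m + c = y), g y := by
    refine Finset.sum_congr rfl fun m hm => ?_
    rw [(mem_filter.1 hm).2]
  rw [h1, Finset.sum_const, nsmul_eq_mul]
  refine mul_le_mul_of_nonneg_right ?_ (hg y)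
  have h2 : ((e.natAbs : ℕ) : ℝ) = |(e : ℝ)| := by
    rw [← Int.cast_abs, ← Int.natCast_natAbs, Int.cast_natCast]
  rw [← h2]
  exact_mod_cast l0_card q e he c y

end Pool.Agent.H9U
end

-- from Lib.H9U.L2T
section

/-!
# H9U, chunk L2T (S/M): functions on the integers and on `ZMod q`
-/

open Finset

namespace Pool.Agent.H9U

open Pool.Agent.Lib.H59P (Ch bx)

/-- Proof. `CA_range` (`H18Q/CA.lean`, used in `C3_nest` of `H59T/C3.lean`) for the sum over `n`; for `t` the bijection `t ↦ fun j => (t j : ZMod q)` from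
`bx d q` to `Fin d → ZMod q` (inverse `fun j => (t j).val`; `Finset.sum_bij'` or `Finset.sum_nbij'`). -/
theorem L2T {k d : ℕ} (S : Sys k d) (q : ℕ) [NeZero q] (b : Fin k → ℤ) (F : Fin k → ℤ → ℂ) (G : Fin k → ZMod q → ℂ)
    (h : ∀ i (m : ℤ), F i m = G i (m : ZMod q)) : FM S q b F = FZ S q b G := by
  unfold FM FZ bx
  refine Finset.sum_bij' (fun (t : Fin d → ℕ) _ => fun j => (t j : ZMod q)) (fun (z : Fin d → ZMod q) _ => fun j => (z j).val)
    (fun _ _ => mem_univ _) (fun z _ => Fintype.mem_piFinset.2 fun j => mem_range.2 (ZMod.val_lt (z j))) (fun t ht => ?_)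
    (fun z _ => funext fun j => ZMod.natCast_zmod_val (z j)) (fun t _ => ?_)
  · funext j
    have h1 := mem_range.1 (Fintype.mem_piFinset.1 ht j)
    show (((t j : ℕ) : ZMod q)).val = t j
    rw [ZMod.val_natCast, Nat.mod_eq_of_lt h1]
  · rw [← Pool.Agent.Lib.H18Q.CA_range q (fun n => ∏ i, G i (S.vz q b n (fun j => (t j : ZMod q)) i))]
    congr 1
    refine Finset.sum_congr rfl fun n _ => Finset.prod_congr rfl fun i _ => ?_
    rw [h]
    congr 1
    unfold Sys.val Sys.lin Sys.vz iv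
    push_cast
    rfl

end Pool.Agent.H9U
end

-- from Lib.H9U.L2
section

/-!
# H9U, chunk L2 (M): the first moment is bounded by the `U³` norm of each function
-/

open Finset

namespace Pool.Agent.H9U

open Pool.Agent.Lib.H59T (UU)


/-- unimodular factors -/
theorem l2_w {ι : Type*} (z : ι → ℂ) : ∃ w : ι → ℂ, (∀ t, ‖w t‖ ≤ 1) ∧ ∀ t, ((‖z t‖ : ℝ) : ℂ) = w t * z t := by
  classical
  refine ⟨fun t => if z t = 0 then 0 else ((‖z t‖ : ℝ) : ℂ) / z t, fun t => ?_, fun t => ?_⟩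
  · show ‖(if z t = 0 then 0 else ((‖z t‖ : ℝ) : ℂ) / z t)‖ ≤ 1
    split_ifs with h
    · rw [norm_zero]
      exact zero_le_one
    · rw [norm_div, Complex.norm_real, norm_norm, div_self (norm_ne_zero_iff.2 h)]
  · show ((‖z t‖ : ℝ) : ℂ) = (if z t = 0 then 0 else ((‖z t‖ : ℝ) : ℂ) / z t) * z t
    split_ifs with h
    · rw [h, norm_zero, Complex.ofReal_zero, zero_mul]
    · rw [div_mul_cancel₀ _ h]





end Pool.Agent.H9U
end

-- from Lib.H9U.L3
section

/-!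
# H9U, chunk L3 (M): the local factors at the primes dividing the conductors
-/

open Finset

namespace Pool.Agent.H9U

open Pool.Agent.Lib.H59P (Ch bx)
open Pool.Agent.Lib.H59T (UU Rm Pm Kp dof tau lf)

/-- functions bounded by two -/
theorem l3_scale {k d : ℕ} (S : Sys k d) (q : ℕ) [NeZero q] (b : Fin k → ℤ) (G : Fin k → ZMod q → ℂ) :
    FZ S q b G = 2 ^ k * FZ S q b (fun i t => G i t / 2) := by
  unfold FZ
  rw [Finset.mul_sum]
  refine Finset.sum_congr rfl fun t _ => ?_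
  have h1 : ∑ n : ZMod q, ∏ i, G i (S.vz q b n t i) = (2 : ℂ) ^ k * ∑ n : ZMod q, ∏ i, G i (S.vz q b n t i) / 2 := by
    rw [Finset.mul_sum]
    refine Finset.sum_congr rfl fun n _ => ?_
    rw [Finset.prod_div_distrib, Finset.prod_const, Finset.card_univ, Fintype.card_fin]
    field_simp
  have hn2 : ‖(2 : ℂ)‖ = 2 := by simp
  rw [h1, norm_mul, norm_pow, hn2]



end Pool.Agent.H9U
end

-- from Lib.H9U.L5A
section

/-!
# H9U, chunk L5A (M): the first moment is multiplicative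
-/

open Finset

namespace Pool.Agent.H9U

open Pool.Agent.Lib.H59P (Ch bx)

/-- Proof. `t ↦ (t mod a, t mod b)` (coordinatewise) is a bijection from `bx d (a b)` to `bx d a × bx d b` (`Nat.chineseRemainder` in each coordinate;
or injective and equal cardinalities), and `f` and `g` depend only on the residues. -/
theorem L5A_box (d a b : ℕ) (ha : 0 < a) (hb : 0 < b) (hab : Nat.Coprime a b) (f g : (Fin d → ℤ) → ℝ)
    (hf : ∀ t t' : Fin d → ℤ, (∀ j, (a : ℤ) ∣ t j - t' j) → f t = f t')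
    (hg : ∀ t t' : Fin d → ℤ, (∀ j, (b : ℤ) ∣ t j - t' j) → g t = g t') :
    ∑ t ∈ bx d (a * b), f (iv t) * g (iv t) = (∑ t ∈ bx d a, f (iv t)) * ∑ t ∈ bx d b, g (iv t) := by
  classical
  have hmod : ∀ (c : ℕ) (t : Fin d → ℕ) (j : Fin d), (c : ℤ) ∣ iv t j - iv (fun j => t j % c) j := by
    intro c t j
    refine ⟨((t j / c : ℕ) : ℤ), ?_⟩
    have h := Nat.mod_add_div (t j) c
    have h2 : (t j : ℤ) = ((t j % c : ℕ) : ℤ) + (c : ℤ) * ((t j / c : ℕ) : ℤ) := by exact_mod_cast h.symm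
    change (t j : ℤ) - ((t j % c : ℕ) : ℤ) = _
    rw [h2]
    ring
  rw [Finset.sum_mul_sum, ← Finset.sum_product']
  refine Finset.sum_bij (fun (t : Fin d → ℕ) _ => ((fun j => t j % a : Fin d → ℕ), (fun j => t j % b : Fin d → ℕ))) ?_ ?_ ?_ ?_
  · intro t _
    rw [Finset.mem_product]
    refine ⟨Fintype.mem_piFinset.2 fun j => Finset.mem_range.2 (Nat.mod_lt _ ha), Fintype.mem_piFinset.2 fun j => Finset.mem_range.2 (Nat.mod_lt _ hb)⟩
  · intro t ht t' ht' h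
    funext j
    have h1 : t j % a = t' j % a := congrFun (congrArg Prod.fst h) j
    have h2 : t j % b = t' j % b := congrFun (congrArg Prod.snd h) j
    have h3 : t j ≡ t' j [MOD (a * b)] := (Nat.modEq_and_modEq_iff_modEq_mul hab).1 ⟨h1, h2⟩
    exact Nat.ModEq.eq_of_lt_of_lt h3 (Finset.mem_range.1 (Fintype.mem_piFinset.1 ht j)) (Finset.mem_range.1 (Fintype.mem_piFinset.1 ht' j))
  · rintro ⟨x, y⟩ hxy
    rw [Finset.mem_product] at hxy
    have hx : ∀ j, x j < a := fun j => Finset.mem_range.1 (Fintype.mem_piFinset.1 hxy.1 j)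
    have hy : ∀ j, y j < b := fun j => Finset.mem_range.1 (Fintype.mem_piFinset.1 hxy.2 j)
    refine ⟨fun j => (Nat.chineseRemainder hab (x j) (y j) : ℕ), ?_, ?_⟩
    · exact Fintype.mem_piFinset.2 fun j => Finset.mem_range.2 (Nat.chineseRemainder_lt_mul hab (x j) (y j) ha.ne' hb.ne')
    · refine Prod.ext (funext fun j => ?_) (funext fun j => ?_)
      · have h1 := (Nat.chineseRemainder hab (x j) (y j)).2.1
        unfold Nat.ModEq at h1
        change (Nat.chineseRemainder hab (x j) (y j) : ℕ) % a = x j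
        rw [h1, Nat.mod_eq_of_lt (hx j)]
      · have h1 := (Nat.chineseRemainder hab (x j) (y j)).2.2
        unfold Nat.ModEq at h1
        change (Nat.chineseRemainder hab (x j) (y j) : ℕ) % b = y j
        rw [h1, Nat.mod_eq_of_lt (hy j)]
  · intro t _
    change f (iv t) * g (iv t) = f (iv fun j => t j % a) * g (iv fun j => t j % b)
    rw [hf _ _ (hmod a t), hg _ _ (hmod b t)]

theorem l5a_per (f : ℤ → ℂ) (P : ℕ) (hf : ∀ m, f (m + P) = f m) (m m' : ℤ) (h : (P : ℤ) ∣ m - m') : f m = f m' := by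
  obtain ⟨c, hc⟩ := h
  have h1 : ∀ (j : ℕ) (m : ℤ), f (m + j * P) = f m := fun j m => Pool.Agent.Lib.H59P.m3c_per f P hf j m
  rcases Int.eq_nat_or_neg c with ⟨j, hj | hj⟩
  · have e : m = m' + j * P := by
      rw [hj] at hc
      linear_combination hc
    rw [e, h1]
  · have e : m' = m + j * P := by
      rw [hj] at hc
      linear_combination -hc
    rw [e, h1]

theorem l5a_fper {k d : ℕ} (S : Sys k d) (a : ℕ) (β : Fin k → ℤ) (F : Fin k → ℤ → ℂ) (hF : ∀ i m, F i (m + a) = F i m)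
    (n : ℤ) (t : Fin d → ℤ) : ∏ i, F i (S.val β (n + a) t i) = ∏ i, F i (S.val β n t i) := by
  refine Finset.prod_congr rfl fun i _ => l5a_per (F i) a (hF i) _ _ ⟨S.a i, ?_⟩
  unfold Sys.val Sys.lin
  ring

theorem l5a_tper {k d : ℕ} (S : Sys k d) (a : ℕ) (β : Fin k → ℤ) (F : Fin k → ℤ → ℂ) (hF : ∀ i m, F i (m + a) = F i m)
    (n : ℤ) (t t' : Fin d → ℤ) (h : ∀ j, (a : ℤ) ∣ t j - t' j) : ∏ i, F i (S.val β n t i) = ∏ i, F i (S.val β n t' i) := by
  refine Finset.prod_congr rfl fun i _ => l5a_per (F i) a (hF i) _ _ ?_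
  have e : S.val β n t i - S.val β n t' i = ∑ j, S.c i j * (t j - t' j) := by
    unfold Sys.val Sys.lin
    simp only [mul_sub, Finset.sum_sub_distrib]
    ring
  rw [e]
  exact Finset.dvd_sum fun j _ => Dvd.dvd.mul_left (h j) _

/-- Proof. For fixed `t`: `M3d` (`H59P/M3D.lean`) for the sum over `n`, the norm of a product; then `L5A_box`. -/
theorem L5A_two {k d : ℕ} (S : Sys k d) (a b : ℕ) (ha : 0 < a) (hb : 0 < b) (hab : Nat.Coprime a b) (β : Fin k → ℤ)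
    (F G : Fin k → ℤ → ℂ) (hF : ∀ i m, F i (m + a) = F i m) (hG : ∀ i m, G i (m + b) = G i m) :
    FM S (a * b) β (fun i m => F i m * G i m) = FM S a β F * FM S b β G := by
  unfold FM
  rw [← L5A_box d a b ha hb hab (fun t => ‖∑ n ∈ range a, ∏ i, F i (S.val β n t i)‖) (fun t => ‖∑ n ∈ range b, ∏ i, G i (S.val β n t i)‖)
    (fun t t' h => by
      refine congrArg _ (Finset.sum_congr rfl fun n _ => l5a_tper S a β F hF n t t' h))
    (fun t t' h => by
      refine congrArg _ (Finset.sum_congr rfl fun n _ => l5a_tper S b β G hG n t t' h))]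
  refine Finset.sum_congr rfl fun t _ => ?_
  rw [← norm_mul, ← Pool.Agent.Lib.H59P.M3d (fun n => ∏ i, F i (S.val β n (iv t) i)) (fun n => ∏ i, G i (S.val β n (iv t) i)) a b ha hb hab
    (fun m => l5a_fper S a β F hF m (iv t)) (fun m => l5a_fper S b β G hG m (iv t))]
  refine congrArg _ (Finset.sum_congr rfl fun n _ => ?_)
  exact Finset.prod_mul_distrib

/-- Proof. Induction over `P` with `L5A_two`, as `C1_prod` (`H59T/C1.lean`); `FM S 1 β (fun _ _ => 1) = 1`. -/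
theorem L5A_prod {k d : ℕ} (S : Sys k d) (β : Fin k → ℤ) (P : Finset ℕ) (q : ℕ → ℕ) (hq : ∀ l ∈ P, 0 < q l)
    (hc : ∀ l ∈ P, ∀ l' ∈ P, l ≠ l' → Nat.Coprime (q l) (q l')) (F : ℕ → Fin k → ℤ → ℂ)
    (hF : ∀ l ∈ P, ∀ i m, F l i (m + q l) = F l i m) :
    (∀ i m, (∏ l ∈ P, F l i (m + (∏ l ∈ P, q l : ℕ))) = ∏ l ∈ P, F l i m) ∧
    FM S (∏ l ∈ P, q l) β (fun i m => ∏ l ∈ P, F l i m) = ∏ l ∈ P, FM S (q l) β (F l) := by
  classical
  induction P using Finset.induction_on with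
  | empty =>
    refine ⟨fun i m => by simp, ?_⟩
    have e : ∀ t ∈ bx d 1, ‖∑ n ∈ range 1, ∏ i : Fin k, (fun _ _ => (1 : ℂ)) i (S.val β n (iv t) i)‖ = 1 := by
      intro t _
      simp
    have hc1 : (bx d 1).card = 1 := by
      unfold Pool.Agent.Lib.H59P.bx
      rw [Fintype.card_piFinset]
      simp
    have h2 : FM S 1 β (fun _ _ => (1 : ℂ)) = 1 := by
      unfold FM
      rw [Finset.sum_congr rfl e, Finset.sum_const, hc1]
      simp
    rw [Finset.prod_empty, Finset.prod_empty]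
    simpa using h2
  | insert l P hl ih =>
    obtain ⟨i1, i2⟩ := ih (fun m hm => hq m (mem_insert_of_mem hm))
      (fun m hm m' hm' => hc m (mem_insert_of_mem hm) m' (mem_insert_of_mem hm'))
      (fun m hm => hF m (mem_insert_of_mem hm))
    have hl1 : ∀ i m, F l i (m + q l) = F l i m := hF l (mem_insert_self _ _)
    refine ⟨fun i m => ?_, ?_⟩
    · rw [Finset.prod_insert hl, Finset.prod_insert hl, Finset.prod_insert hl]
      have h1 : F l i (m + ((q l * ∏ l ∈ P, q l : ℕ) : ℤ)) = F l i m := by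
        refine l5a_per (F l i) (q l) (hl1 i) _ _ ⟨((∏ l ∈ P, q l : ℕ) : ℤ), ?_⟩
        push_cast
        ring
      have h2 : (∏ x ∈ P, F x i (m + ((q l * ∏ l ∈ P, q l : ℕ) : ℤ))) = ∏ x ∈ P, F x i m := by
        refine l5a_per (fun m => ∏ x ∈ P, F x i m) (∏ l ∈ P, q l) (i1 i) _ _ ⟨(q l : ℤ), ?_⟩
        push_cast
        ring
      rw [h1, h2]
    · have e1 : (fun i m => ∏ x ∈ insert l P, F x i m) = fun i m => F l i m * ∏ x ∈ P, F x i m := by
        funext i m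
        rw [Finset.prod_insert hl]
      rw [e1, Finset.prod_insert hl, Finset.prod_insert hl, ← i2]
      refine L5A_two S (q l) (∏ m ∈ P, q m) (hq l (mem_insert_self _ _))
        (Finset.prod_pos fun m hm => hq m (mem_insert_of_mem hm)) ?_ β (F l) _ hl1 i1
      refine Nat.Coprime.prod_right fun m hm => ?_
      refine hc l (mem_insert_self _ _) m (mem_insert_of_mem hm) ?_
      intro h
      rw [h] at hl
      exact hl hm

end Pool.Agent.H9U
end

-- from Lib.H9U.L6A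
section

/-!
# H9U, chunk L6A (S/M): the first moment over a box
-/

open Finset

namespace Pool.Agent.H9U

open Pool.Agent.Lib.H59P (Ch bx)

/-- Proof. `r = L/N + 1 ≤ 2 L/N`: `bx d L ⊆ bx d (r N)`, and `t ↦ (t / N, t % N)` (coordinatewise) is a bijection from `bx d (r N)` to `bx d r × bx d N`, and `f` depends
only on the residues. -/
theorem L6A_box (d N L : ℕ) (hN : 0 < N) (hL : N ≤ L) (f : (Fin d → ℤ) → ℝ) (h0 : ∀ t, 0 ≤ f t)
    (hf : ∀ t t' : Fin d → ℤ, (∀ j, (N : ℤ) ∣ t j - t' j) → f t = f t') :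
    ∑ t ∈ bx d L, f (iv t) ≤ (2 * (L : ℝ) / N) ^ d * ∑ t ∈ bx d N, f (iv t) := by
  classical
  obtain ⟨r, hr⟩ : ∃ r, r = L / N + 1 := ⟨_, rfl⟩
  have hN0 : (0 : ℝ) < N := by exact_mod_cast hN
  have e1 : ∀ t ∈ bx d L, f (iv t) = f (iv (fun j => t j % N)) := by
    intro t _
    refine hf _ _ fun j => ?_
    unfold iv
    refine ⟨((t j / N : ℕ) : ℤ), ?_⟩
    have h1 := Nat.div_add_mod (t j) N
    have h2 : ((t j : ℕ) : ℤ) = ((N * (t j / N) + t j % N : ℕ) : ℤ) := by rw [h1]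
    push_cast at h2 ⊢
    linarith
  rw [Finset.sum_congr rfl e1]
  have hinj : Set.InjOn (fun t : Fin d → ℕ => ((fun j => t j / N, fun j => t j % N) : (Fin d → ℕ) × (Fin d → ℕ)))
      (bx d L : Set (Fin d → ℕ)) := by
    intro t _ t' _ h
    simp only [Prod.mk.injEq] at h
    funext j
    have h1 := congrFun h.1 j
    have h2 := congrFun h.2 j
    have h3 := Nat.div_add_mod (t j) N
    have h4 := Nat.div_add_mod (t' j) N
    rw [← h3, ← h4, h1, h2]
  have e2 : ∑ t ∈ bx d L, f (iv (fun j => t j % N)) =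
      ∑ x ∈ (bx d L).image (fun t : Fin d → ℕ => ((fun j => t j / N, fun j => t j % N) : (Fin d → ℕ) × (Fin d → ℕ))),
        f (iv x.2) := by
    rw [Finset.sum_image hinj]
  have hsub : (bx d L).image (fun t : Fin d → ℕ => ((fun j => t j / N, fun j => t j % N) : (Fin d → ℕ) × (Fin d → ℕ))) ⊆
      bx d r ×ˢ bx d N := by
    intro x hx
    rw [mem_image] at hx
    obtain ⟨t, ht, rfl⟩ := hx
    unfold bx at ht ⊢
    rw [Fintype.mem_piFinset] at ht
    rw [mem_product, Fintype.mem_piFinset, Fintype.mem_piFinset]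
    refine ⟨fun j => ?_, fun j => ?_⟩
    · have h1 := mem_range.1 (ht j)
      rw [mem_range, hr]
      exact Nat.lt_succ_of_le (Nat.div_le_div_right h1.le)
    · exact mem_range.2 (Nat.mod_lt _ hN)
  rw [e2]
  refine (Finset.sum_le_sum_of_subset_of_nonneg hsub fun x _ _ => h0 _).trans ?_
  rw [Finset.sum_product]
  show ∑ _x ∈ bx d r, ∑ y ∈ bx d N, f (iv y) ≤ _
  rw [Finset.sum_const, nsmul_eq_mul]
  refine mul_le_mul_of_nonneg_right ?_ (Finset.sum_nonneg fun t _ => h0 _)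
  have h3 : (bx d r).card = r ^ d := by
    unfold bx
    rw [Fintype.card_piFinset_const, card_range]
  rw [h3]
  push_cast
  refine pow_le_pow_left₀ (by positivity) ?_ d
  rw [hr]
  push_cast
  have h4 : ((L / N : ℕ) : ℝ) ≤ (L : ℝ) / N := Nat.cast_div_le
  have h5 : (1 : ℝ) ≤ (L : ℝ) / N := by
    rw [le_div_iff₀ hN0, one_mul]
    exact_mod_cast hL
  have h6 : 2 * (L : ℝ) / N = (L : ℝ) / N + (L : ℝ) / N := by ring
  rw [h6]
  linarith

/-- the value of the forms at points congruent modulo `N` -/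
theorem l6a_val {k d : ℕ} (S : Sys k d) (b : Fin k → ℤ) (N : ℤ) (n : ℤ) (t t' : Fin d → ℤ)
    (h : ∀ j, N ∣ t j - t' j) (i : Fin k) : ∃ m : ℤ, S.val b n t i = S.val b n t' i + m * N := by
  choose c hc using h
  refine ⟨∑ j, S.c i j * c j, ?_⟩
  unfold Sys.val Sys.lin
  have h1 : ∑ j, S.c i j * t j = ∑ j, S.c i j * t' j + (∑ j, S.c i j * c j) * N := by
    rw [Finset.sum_mul, ← Finset.sum_add_distrib]
    refine Finset.sum_congr rfl fun j _ => ?_
    have := hc j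
    have h2 : t j = t' j + N * c j := by linarith
    rw [h2]
    ring
  rw [h1]
  ring

/-- periodic functions at integer multiples of the period -/
theorem l6a_per (F : ℤ → ℂ) (N : ℕ) (hF : ∀ m, F (m + N) = F m) (j m : ℤ) : F (m + j * N) = F m := by
  have h1 : ∀ (j : ℕ) (m : ℤ), F (m + (j : ℤ) * N) = F m := by
    intro j
    induction j with
    | zero => intro m; simp
    | succ j ih =>
      intro m
      have : m + ((j + 1 : ℕ) : ℤ) * N = (m + (j : ℤ) * N) + N := by push_cast; ring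
      rw [this, hF, ih]
  obtain ⟨n, rfl | rfl⟩ := j.eq_nat_or_neg
  · exact h1 n m
  · have := h1 n (m + (-(n : ℤ)) * N)
    rw [← this]
    congr 1
    ring

/-- the norm of a sum over an interval, for a periodic function -/
theorem l6a_int (f : ℤ → ℂ) (N : ℕ) (hN : 0 < N) (hf : ∀ m, f (m + N) = f m) (B : ℝ) (hB : ∀ m, ‖f m‖ ≤ B) (H : ℕ) :
    ‖∑ n ∈ range H, f n‖ ≤ ((H : ℝ) / N) * ‖∑ n ∈ range N, f n‖ + 2 * N * B := by
  have h1 := Pool.Agent.Lib.H59P.M3c f N hN hf B hB 0 H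
  rw [zero_add, ← Finset.range_eq_Ico] at h1
  have h2 : ∑ n ∈ range H, f n = (∑ n ∈ range H, f n - H * ((∑ n ∈ range N, f n) / N)) +
      H * ((∑ n ∈ range N, f n) / N) := by ring
  rw [h2]
  refine (norm_add_le _ _).trans ?_
  have h3 : ‖(H : ℂ) * ((∑ n ∈ range N, f n) / N)‖ = ((H : ℝ) / N) * ‖∑ n ∈ range N, f n‖ := by
    rw [norm_mul, norm_div, Complex.norm_natCast, Complex.norm_natCast]
    ring
  rw [h3, add_comm]
  exact add_le_add le_rfl h1

/-- Proof. For each `t`: `M3c` (`H59P/M3C.lean`) with `a = 0`, so `‖∑_{n<H}‖ ≤ (H/N) ‖∑_{n<N}‖ + 2 N B`; sum over `t ∈ bx d L` (`L^d` elements), `L6A_box` with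
`f t = ‖∑_{n<N} ∏_i F i (val b n t i)‖` (periodic: `val` changes by multiples of `N`). -/
theorem L6A_mom {k d : ℕ} (S : Sys k d) (N L H : ℕ) (hN : 0 < N) (hL : N ≤ L) (b : Fin k → ℤ) (F : Fin k → ℤ → ℂ)
    (hF : ∀ i m, F i (m + N) = F i m) (B : ℝ) (hB : ∀ m : Fin k → ℤ, ‖∏ i, F i (m i)‖ ≤ B) :
    ∑ t ∈ bx d L, ‖∑ n ∈ range H, ∏ i, F i (S.val b n (iv t) i)‖ ≤
      (2 * (L : ℝ) / N) ^ d * ((H : ℝ) / N) * FM S N b F + (L : ℝ) ^ d * (2 * N * B) := by
  classical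
  have hN0 : (0 : ℝ) < N := by exact_mod_cast hN
  have h1 : ∀ t ∈ bx d L, ‖∑ n ∈ range H, ∏ i, F i (S.val b n (iv t) i)‖ ≤
      ((H : ℝ) / N) * ‖∑ n ∈ range N, ∏ i, F i (S.val b n (iv t) i)‖ + 2 * N * B := by
    intro t _
    have hper : ∀ m : ℤ, (fun n : ℤ => ∏ i, F i (S.val b n (iv t) i)) (m + N) =
        (fun n : ℤ => ∏ i, F i (S.val b n (iv t) i)) m := by
      intro m
      refine Finset.prod_congr rfl fun i _ => ?_
      have h2 : S.val b (m + N) (iv t) i = S.val b m (iv t) i + S.a i * N := by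
        unfold Sys.val Sys.lin
        ring
      rw [h2]
      exact l6a_per (F i) N (hF i) _ _
    have h3 := l6a_int (fun n : ℤ => ∏ i, F i (S.val b n (iv t) i)) N hN hper B (fun m => hB _) H
    exact h3
  refine (Finset.sum_le_sum h1).trans ?_
  rw [Finset.sum_add_distrib, ← Finset.mul_sum, Finset.sum_const, nsmul_eq_mul]
  have h3 : (bx d L).card = L ^ d := by
    unfold bx
    rw [Fintype.card_piFinset_const, card_range]
  rw [h3]
  have h4 := L6A_box d N L hN hL (fun t => ‖∑ n ∈ range N, ∏ i, F i (S.val b n t i)‖) (fun t => norm_nonneg _)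
    (fun t t' h => by
      show ‖∑ n ∈ range N, ∏ i, F i (S.val b n t i)‖ = ‖∑ n ∈ range N, ∏ i, F i (S.val b n t' i)‖
      congr 1
      refine Finset.sum_congr rfl fun n _ => Finset.prod_congr rfl fun i _ => ?_
      obtain ⟨m, hm⟩ := l6a_val S b N n t t' h i
      rw [hm]
      exact l6a_per (F i) N (hF i) _ _)
  have h5 : ((H : ℝ) / N) * ∑ t ∈ bx d L, ‖∑ n ∈ range N, ∏ i, F i (S.val b n (iv t) i)‖ ≤
      ((H : ℝ) / N) * ((2 * (L : ℝ) / N) ^ d * FM S N b F) :=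
    mul_le_mul_of_nonneg_left h4 (by positivity)
  push_cast
  refine add_le_add (h5.trans (le_of_eq (by ring))) le_rfl

end Pool.Agent.H9U
end

-- from Lib.HUK.KB11
section

/-!
# Project HUK, chunk KB11 (M): elimination of the functions `f j` on `ℤ × ℤ`
-/

open Finset

namespace Pool.Agent.HUK

open Pool.Agent.H9U (JJ)

private theorem kb11_mul {G H : Type*} [AddCommGroup G] [AddCommGroup H] (l : List (G × H)) (a : G → ℂ) (b : H → ℂ)
    (z : G × H) :
    DL l (fun z => a z.1 * b z.2) z = DL (l.map Prod.fst) a z.1 * DL (l.map Prod.snd) b z.2 := by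
  induction l generalizing a b with
  | nil => rfl
  | cons v l ih =>
    have h1 : DD v (fun z : G × H => a z.1 * b z.2) = fun z : G × H => DD v.1 a z.1 * DD v.2 b z.2 := by
      funext z
      unfold DD
      show a z.1 * b z.2 * (starRingEnd ℂ) (a (z.1 + v.1) * b (z.2 + v.2)) = _
      rw [map_mul]
      ring
    show DL l (DD v (fun z : G × H => a z.1 * b z.2)) z = _
    rw [h1, ih (DD v.1 a) (DD v.2 b)]
    rfl

private theorem kb11_left (k B X : ℕ) (F : ℤ → ℂ) (f : ℕ → ℤ → ℂ) :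
    ∑ z ∈ JJ X ×ˢ Ioo (-(2 * ((B * X : ℕ) : ℤ))) (2 * ((B * X : ℕ) : ℤ)),
      (∏ i : Fin k, f i (z.1 - lam k i * z.2)) *
        (F z.1 * (if z.2 ∈ Ioo (-(2 * ((B * X : ℕ) : ℤ))) (2 * ((B * X : ℕ) : ℤ)) then 1 else 0)) =
    ∑ n ∈ JJ X, F n * Psi (B * X) k f n := by
  rw [Finset.sum_product]
  refine Finset.sum_congr rfl fun d _ => ?_
  unfold Psi
  rw [Finset.mul_sum]
  refine Finset.sum_congr rfl fun h hh => ?_
  simp only [hh, if_true, mul_one]
  rw [mul_comm, Finset.prod_range]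
  rfl

private theorem kb11_card (k B X H : ℕ) (hHX : H ≤ X) :
    ((Ico (2 * (X : ℤ) - k * H) (2 * X + X / 4) ×ˢ
      Ioo (-(2 * ((B * X : ℕ) : ℤ)) - H) (2 * ((B * X : ℕ) : ℤ))).card : ℝ) ≤ (k + 1) * (4 * B + 1) * (X : ℝ) ^ 2 := by
  rw [Finset.card_product, Int.card_Ico, Int.card_Ioo]
  have hx4 : (X : ℤ) / 4 ≤ X := by omega
  have h1 : ((2 * (X : ℤ) + X / 4) - (2 * (X : ℤ) - k * H)).toNat ≤ (k + 1) * X := by
    have h2 : (k : ℤ) * H ≤ k * X := by exact_mod_cast Nat.mul_le_mul_left k hHX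
    exact Int.toNat_le.mpr (by push_cast; linarith)
  have h4 : (2 * ((B * X : ℕ) : ℤ) - (-(2 * ((B * X : ℕ) : ℤ)) - H) - 1).toNat ≤ (4 * B + 1) * X := by
    have h5 : (H : ℤ) ≤ X := by exact_mod_cast hHX
    exact Int.toNat_le.mpr (by push_cast; linarith)
  have h6 := Nat.mul_le_mul h1 h4
  have h7 : ((((2 * (X : ℤ) + X / 4) - (2 * (X : ℤ) - k * H)).toNat *
      (2 * ((B * X : ℕ) : ℤ) - (-(2 * ((B * X : ℕ) : ℤ)) - H) - 1).toNat : ℕ) : ℝ) ≤
      (((k + 1) * X * ((4 * B + 1) * X) : ℕ) : ℝ) := by exact_mod_cast h6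
  refine h7.trans (le_of_eq ?_)
  push_cast
  ring

private theorem kb11_right (k B X : ℕ) (F : ℤ → ℂ) (j : Fin k → ℤ) :
    ‖∑ z ∈ JJ X ×ˢ Ioo (-(2 * ((B * X : ℕ) : ℤ))) (2 * ((B * X : ℕ) : ℤ)),
      DL (List.ofFn fun i : Fin k => j i • ((lam k i, (1 : ℤ)) : ℤ × ℤ))
        (fun z : ℤ × ℤ => F z.1 * (if z.2 ∈ Ioo (-(2 * ((B * X : ℕ) : ℤ))) (2 * ((B * X : ℕ) : ℤ)) then 1 else 0)) z‖ ≤
    ‖∑ n ∈ JJ X, DL (List.ofFn fun i => lam k i * j i) F n‖ * (4 * B * X) := by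
  have hb := fun z : ℤ × ℤ => kb11_mul (List.ofFn fun i : Fin k => j i • ((lam k i, (1 : ℤ)) : ℤ × ℤ))
    F (fun h => if h ∈ Ioo (-(2 * ((B * X : ℕ) : ℤ))) (2 * ((B * X : ℕ) : ℤ)) then (1 : ℂ) else 0) z
  rw [Finset.sum_congr rfl fun z _ => hb z, Finset.sum_product]
  simp only [List.map_ofFn]
  rw [← Finset.sum_mul_sum, norm_mul]
  refine mul_le_mul ?_ ?_ (norm_nonneg _) (norm_nonneg _)
  · have h1 : (Prod.fst ∘ fun i : Fin k => j i • ((lam k i, (1 : ℤ)) : ℤ × ℤ)) = fun i => lam k i * j i := by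
      funext i
      simp [mul_comm]
    rw [h1]
  · refine (norm_sum_le _ _).trans ?_
    refine (Finset.sum_le_sum fun h _ => DL_norm _ _ (fun y => ?_) h).trans ?_
    · by_cases hy : y ∈ Ioo (-(2 * ((B * X : ℕ) : ℤ))) (2 * ((B * X : ℕ) : ℤ))
      · rw [if_pos hy, norm_one]
      · rw [if_neg hy, norm_zero]
        exact zero_le_one
    · rw [Finset.sum_const, nsmul_eq_mul, mul_one, Int.card_Ioo]
      have h2 : (2 * ((B * X : ℕ) : ℤ) - -(2 * ((B * X : ℕ) : ℤ)) - 1).toNat ≤ 4 * B * X :=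
        Int.toNat_le.mpr (by push_cast; linarith)
      have h3 : (((2 * ((B * X : ℕ) : ℤ) - -(2 * ((B * X : ℕ) : ℤ)) - 1).toNat : ℕ) : ℝ) ≤ ((4 * B * X : ℕ) : ℝ) := by
        exact_mod_cast h2
      refine h3.trans (le_of_eq ?_)
      push_cast
      ring

/-- Proof. `E1_elim` with `G = ℤ × ℤ`, `r = k`, `I = Ioo (-(2 B X)) (2 B X)`, `B = JJ X ×ˢ I`, `B' = Ico (2 X - k H) (2 X + X / 4) ×ˢ Ioo (-(2 B X) - H) (2 B X)`,
`N = (k + 1) (4 B + 1) X²` (`card B' ≤ (X/4 + k H) (4 B X + H)`, `H ≤ X`), `v i = (lam k i, 1)`, `g i (n, h) = f i (n - lam k i * h)`,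
`c (n, h) = F n` if `h ∈ I` (and `n ∈ JJ X`), else `0`. The sum on the left side is `∑_{n ∈ JJ X} F n * Psi (B * X) k f n` (`Finset.sum_product`,
`Finset.prod_range`, `Psi` is a sum over `h ∈ I`). `DL_prod` (`P0.lean`): `vt ω (fun i => j i • v i) = (vl ω j, vt ω j)`, so
`DL (..) c (n, h) = DL (List.ofFn fun i => lam k i * j i) F n * χ(h)`, where `χ(h) = ∏_ω cj (sg ω) (1_I (h + vt ω j))` is `0` or `1`; so the sum over `B` is a product and its
norm is at most `4 B X ‖∑_{n ∈ JJ X} DL .. F n‖`, and `4 B X / N ≤ 1 / X`. So `(‖..‖ / N)^(2^k) ≤ 2^(2^k) / H^k * (1/X) * ∑_j ‖..‖`; multiply by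
`N^(2^k)`. -/
theorem KB11_elim (k B X H : ℕ) (hX : 1 ≤ X) (hH : 1 ≤ H) (hHX : H ≤ X) (F : ℤ → ℂ) (hF : ∀ m, m ∉ JJ X → F m = 0)
    (f : ℕ → ℤ → ℂ) (hf : ∀ j, j < k → ∀ y, ‖f j y‖ ≤ 1) :
    ‖∑ n ∈ JJ X, F n * Psi (B * X) k f n‖ ^ (2 ^ k) ≤ (2 * (k + 1) * (4 * B + 1) * (X : ℝ) ^ 2) ^ (2 ^ k) *
      ((∑ j ∈ bxS k H, ‖∑ n ∈ JJ X, DL (List.ofFn fun i => lam k i * j i) F n‖) / ((H : ℝ) ^ k * X)) := by
  have hX' : (0 : ℝ) < X := by exact_mod_cast hX
  have hH' : (0 : ℝ) < H := by exact_mod_cast hH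
  have hk' : (0 : ℝ) ≤ k := Nat.cast_nonneg k
  have hB' : (0 : ℝ) ≤ B := Nat.cast_nonneg B
  obtain ⟨N, hN⟩ : ∃ N : ℝ, N = (k + 1) * (4 * B + 1) * (X : ℝ) ^ 2 := ⟨_, rfl⟩
  have hN0 : 0 < N := by rw [hN]; positivity
  have hE := E1_elim (G := ℤ × ℤ) (JJ X ×ˢ Ioo (-(2 * ((B * X : ℕ) : ℤ))) (2 * ((B * X : ℕ) : ℤ)))
    (Ico (2 * (X : ℤ) - k * H) (2 * X + X / 4) ×ˢ Ioo (-(2 * ((B * X : ℕ) : ℤ)) - H) (2 * ((B * X : ℕ) : ℤ))) N
    (by rw [hN]; exact kb11_card k B X H hHX) hN0 H hH k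
    (fun i => (lam k i, (1 : ℤ))) (fun i z => f i (z.1 - lam k i * z.2))
    (fun z => F z.1 * (if z.2 ∈ Ioo (-(2 * ((B * X : ℕ) : ℤ))) (2 * ((B * X : ℕ) : ℤ)) then 1 else 0))
    (fun i z => hf i i.2 _)
    (fun i z => by
      simp only [Prod.fst_add, Prod.snd_add]
      congr 1
      ring)
    (fun z hz => by
      rw [Finset.mem_product, not_and_or] at hz
      rcases hz with hz | hz
      · rw [hF z.1 hz, zero_mul]
      · rw [if_neg hz, mul_zero])
    (fun i z h hh hz => by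
      have s1 : (h • ((lam k i, (1 : ℤ)) : ℤ × ℤ)).1 = h * lam k i := by
        rw [Prod.smul_fst, nsmul_eq_mul]
      have s2 : (h • ((lam k i, (1 : ℤ)) : ℤ × ℤ)).2 = h := by
        rw [Prod.smul_snd, nsmul_eq_mul, mul_one]
      unfold JJ at hz
      rw [Finset.mem_product, Finset.mem_Ico, Finset.mem_Ioo] at hz ⊢
      rw [Prod.fst_add, Prod.snd_add, s1, s2] at hz
      have hi1 : (i : ℤ) < k := by exact_mod_cast i.2
      have hi0 : (0 : ℤ) ≤ (i : ℕ) := by positivity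
      have hl1 : (0 : ℤ) ≤ lam k i := by
        unfold lam
        linarith
      have hl2 : lam k i ≤ (k : ℤ) := by
        unfold lam
        linarith
      have hh0 : (0 : ℤ) ≤ h := by positivity
      have hhH : (h : ℤ) ≤ H := by exact_mod_cast hh.le
      have e1 : (0 : ℤ) ≤ h * lam k i := mul_nonneg hh0 hl1
      have e2 : (h : ℤ) * lam k i ≤ k * H := by
        calc (h : ℤ) * lam k i ≤ H * k := mul_le_mul hhH hl2 hl1 (by positivity)
          _ = k * H := mul_comm _ _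
      refine ⟨⟨by linarith [hz.1.1], by linarith [hz.1.2]⟩, ⟨by linarith [hz.2.1], by linarith [hz.2.2]⟩⟩)
  rw [kb11_left] at hE
  obtain ⟨S, hS⟩ : ∃ S : ℝ, S = ‖∑ n ∈ JJ X, F n * Psi (B * X) k f n‖ := ⟨_, rfl⟩
  obtain ⟨T, hT⟩ : ∃ T : (Fin k → ℤ) → ℝ, ∀ j, T j = ‖∑ n ∈ JJ X, DL (List.ofFn fun i => lam k i * j i) F n‖ :=
    ⟨_, fun _ => rfl⟩
  rw [← hS] at hE ⊢
  have hT0 : 0 ≤ ∑ j ∈ bxS k H, T j := Finset.sum_nonneg fun j _ => by rw [hT]; positivity
  have hR : (S / N) ^ (2 ^ k) ≤ 2 ^ (2 ^ k) / (H : ℝ) ^ k * ((∑ j ∈ bxS k H, T j) * (4 * B * X) / N) := by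
    refine hE.trans (mul_le_mul_of_nonneg_left ?_ (by positivity))
    rw [Finset.sum_mul, Finset.sum_div]
    refine Finset.sum_le_sum fun j _ => ?_
    rw [hT]
    exact div_le_div_of_nonneg_right (kb11_right k B X F j) hN0.le
  have hq : (∑ j ∈ bxS k H, T j) * (4 * B * X) / N ≤ (∑ j ∈ bxS k H, T j) / X := by
    rw [div_le_div_iff₀ hN0 hX', mul_assoc]
    refine mul_le_mul_of_nonneg_left ?_ hT0
    rw [hN]
    have h1 : 0 ≤ (k : ℝ) * (4 * B + 1) * (X : ℝ) ^ 2 := by positivity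
    have h2 : 0 ≤ (X : ℝ) ^ 2 := by positivity
    nlinarith
  have hSN : S ^ (2 ^ k) = (S / N) ^ (2 ^ k) * N ^ (2 ^ k) := by
    rw [div_pow, div_mul_cancel₀]
    positivity
  have hsum : ∑ j ∈ bxS k H, ‖∑ n ∈ JJ X, DL (List.ofFn fun i => lam k i * j i) F n‖ = ∑ j ∈ bxS k H, T j :=
    Finset.sum_congr rfl fun j _ => (hT j).symm
  rw [hSN, hsum]
  calc (S / N) ^ (2 ^ k) * N ^ (2 ^ k) ≤
      2 ^ (2 ^ k) / (H : ℝ) ^ k * ((∑ j ∈ bxS k H, T j) / X) * N ^ (2 ^ k) :=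
        mul_le_mul_of_nonneg_right (hR.trans (mul_le_mul_of_nonneg_left hq (by positivity))) (by positivity)
    _ = (2 * N) ^ (2 ^ k) * ((∑ j ∈ bxS k H, T j) / ((H : ℝ) ^ k * X)) := by
        rw [mul_pow]
        field_simp
    _ = _ := by
        rw [hN, ← mul_assoc, ← mul_assoc]

end Pool.Agent.HUK
end

-- from Lib.HUK.DDefs
section

/-!
# Project HUK, module D: definitions and interfaces
-/

open Finset

namespace Pool.Agent.HUK

open Pool.Agent.H44W (ee)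
open Pool.Agent.Lib.H68T (lp Lk)
open Pool.Agent.H9U (JJ cutJ Er Rgm Sys iv)
open Pool.Agent.Lib.H59P (bx)

noncomputable section

/-- `f` is supported in `[-X, X)`. -/
def Spt (X : ℕ) (f : ℤ → ℂ) : Prop := ∀ y, y ∉ Ico (-(X : ℤ)) X → f y = 0

/-- A weight which on `|h| < 2X` is a combination of phases with coefficients of total size at most `1`. -/
def PhW (X : ℕ) (W : ℤ → ℂ) : Prop := ∃ (n : ℕ) (c : ℕ → ℂ) (θ : ℕ → ℝ), ∑ i ∈ range n, ‖c i‖ ≤ 1 ∧
  ∀ h ∈ Ioo (-(2 * X : ℤ)) (2 * X), W h = ∑ i ∈ range n, c i * ee (θ i * h)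

/-- **Interface**: primitive characters have small `U^s` norm (with absolute values over the differences). -/
def UCH (s : ℕ) : Prop := ∃ C c : ℝ, 0 < C ∧ 0 < c ∧ c ≤ 1 ∧ ∀ (q : ℕ) [NeZero q] (χ : DirichletCharacter ℂ q),
  χ.IsPrimitive → ∑ h : Fin s → ZMod q, ‖∑ y : ZMod q, DL (List.ofFn h) (fun y => χ y) y‖ ≤
    C * (q : ℝ) ^ ((s : ℝ) + 1 - c)

/-- No two linear parts are proportional. -/
def MinP {k d : ℕ} (S : Sys k d) : Prop := ∀ i j : Fin k, i ≠ j → ∃ r : Fin d, S.a i * S.c j r - S.a j * S.c i r ≠ 0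

/-- The primes may be replaced by the projections of small level, for almost all `t`. -/
def TelP {k d : ℕ} (S : Sys k d) : Prop := ∃ K : ℝ, 1 ≤ K ∧
  ∀ Cr θ : ℝ, 1 ≤ Cr → 0 < θ → ∀ C0 : ℕ, ∃ κ : ℝ, 0 < κ ∧ ∃ X0 : ℕ, ∀ Q Q' X : ℕ, X0 ≤ X → ∀ Xs : Fin k → ℕ,
  (∀ i, X ≤ Xs i ∧ Xs i ≤ C0 * X) → (∀ i, Rgm K Cr θ Q Q' (Xs i)) → ∀ (b : Fin k → ℤ) (L T : ℕ), L ≤ C0 * X → T ≤ C0 * X →
  (∀ i, ∀ n ∈ range L, ∀ t ∈ bx d T, S.val b n (iv t) i ∈ JJ (Xs i)) →
  ∑ t ∈ bx d T, |∑ n ∈ range L, (∏ i, lp (S.val b n (iv t) i) - ∏ i, Lk Q' (Xs i / Q ^ 2) (S.val b n (iv t) i))| ≤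
    (X : ℝ) ^ (1 + d - κ)

end

end Pool.Agent.HUK
end

-- from Lib.HUK.D0
section

/-!
# Project HUK, chunk D0: sums over differences with weights

`D0_W`: for `s ≥ 2` weights which are combinations of phases do not increase the Gowers norm; `D0_fej`, `D0_V2` (Fejer weights on multiples),
`D0_V1` (residue classes).
-/

open Finset

namespace Pool.Agent.HUK

open Pool.Agent.H44W (ee)

/-! ## Differences -/

theorem D0_DLz {G : Type*} [Add G] (l : List G) (f : G → ℂ) (y : G) (h : f y = 0) : DL l f y = 0 := by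
  induction l generalizing f with
  | nil => exact h
  | cons a l ih =>
    refine ih (DD a f) ?_
    unfold DD
    rw [h, zero_mul]

theorem D0_comm {G : Type*} [AddCommGroup G] (h k : G) (f : G → ℂ) : DD h (DD k f) = DD k (DD h f) := by
  funext y
  unfold DD
  simp only [map_mul, Complex.conj_conj]
  rw [add_right_comm y h k]
  ring

theorem D0_DLDD {G : Type*} [AddCommGroup G] (l : List G) (k : G) (f : G → ℂ) : DL l (DD k f) = DD k (DL l f) := by
  induction l generalizing f with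
  | nil => rfl
  | cons a l ih =>
    show DL l (DD a (DD k f)) = DD k (DL l (DD a f))
    rw [D0_comm, ih]


theorem D0_cons {s : ℕ} (a : ℤ) (h : Fin s → ℤ) (f : ℤ → ℂ) :
    DV (Fin.cons a h : Fin (s + 1) → ℤ) f = DV h (DD a f) := by
  unfold DV
  rw [List.ofFn_succ]
  simp only [Fin.cons_zero, Fin.cons_succ]
  rfl

theorem D0_cons' {s : ℕ} (a : ℤ) (h : Fin s → ℤ) (f : ℤ → ℂ) :
    DV (Fin.cons a h : Fin (s + 1) → ℤ) f = DD a (DV h f) := by
  rw [D0_cons]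
  exact D0_DLDD _ _ _

theorem D0_SDD {X : ℕ} {f : ℤ → ℂ} (h : Spt X f) (a : ℤ) : Spt X (DD a f) := by
  intro y hy
  unfold DD
  rw [h y hy, zero_mul]

theorem D0_SDV {X : ℕ} {f : ℤ → ℂ} (h : Spt X f) {s : ℕ} (a : Fin s → ℤ) : Spt X (DV a f) :=
  fun y hy => D0_DLz _ _ _ (h y hy)

/-- sums over a box -/
theorem D0_bx {M : Type*} [AddCommMonoid M] (s N : ℕ) (F : (Fin (s + 1) → ℤ) → M) :
    ∑ h ∈ bxS (s + 1) N, F h = ∑ a ∈ Ioo (-(N : ℤ)) N, ∑ h ∈ bxS s N, F (Fin.cons a h) := by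
  rw [← Finset.sum_product']
  refine Finset.sum_bij' (fun h _ => (h 0, fun i => h i.succ)) (fun p _ => Fin.cons p.1 p.2) ?_ ?_ ?_ ?_ ?_
  · intro h hh
    unfold bxS at hh ⊢
    rw [Fintype.mem_piFinset] at hh
    rw [mem_product, Fintype.mem_piFinset]
    exact ⟨hh 0, fun i => hh i.succ⟩
  · intro p hp
    unfold bxS at hp ⊢
    rw [mem_product, Fintype.mem_piFinset] at hp
    rw [Fintype.mem_piFinset]
    intro i
    refine Fin.cases ?_ (fun j => ?_) i
    · exact hp.1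
    · simp only [Fin.cons_succ]
      exact hp.2 j
  · intro h _
    funext i
    refine Fin.cases ?_ (fun j => ?_) i
    · rfl
    · rfl
  · intro p _
    rfl
  · intro h _
    congr 1
    funext i
    refine Fin.cases ?_ (fun j => ?_) i
    · rfl
    · rfl

/-- the autocorrelation with a phase -/
theorem d0_sq (X : ℕ) (g : ℤ → ℂ) (hg : Spt X g) (θ : ℝ) :
    ∑ a ∈ Ioo (-(2 * X : ℤ)) (2 * X), ee (θ * a) * ∑ y ∈ Ico (-(X : ℤ)) X, DD a g y =
      ((‖∑ y ∈ Ico (-(X : ℤ)) X, g y * ee (-(θ * y))‖ ^ 2 : ℝ) : ℂ) := by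
  have h1 : ((‖∑ y ∈ Ico (-(X : ℤ)) X, g y * ee (-(θ * y))‖ ^ 2 : ℝ) : ℂ) =
      ∑ y ∈ Ico (-(X : ℤ)) X, ∑ u ∈ Ico (-(X : ℤ)) X, g y * (starRingEnd ℂ) (g u) * ee (θ * ((u - y : ℤ) : ℝ)) := by
    push_cast
    rw [← Complex.mul_conj', map_sum, Finset.sum_mul]
    refine sum_congr rfl fun y _ => ?_
    rw [Finset.mul_sum]
    refine sum_congr rfl fun u _ => ?_
    rw [map_mul, ← Pool.Agent.H44W.ee_neg, neg_neg]
    have : θ * ((u : ℝ) - y) = -(θ * y) + θ * u := by ring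
    rw [this, Pool.Agent.H44W.ee_add]
    ring
  rw [h1]
  simp only [Finset.mul_sum]
  rw [Finset.sum_comm]
  refine sum_congr rfl fun y hy => ?_
  have hy' := mem_Ico.1 hy
  -- extend the sum over `u`
  have h2 : ∑ u ∈ Ico (-(X : ℤ)) X, g y * (starRingEnd ℂ) (g u) * ee (θ * ((u - y : ℤ) : ℝ)) =
      ∑ u ∈ Ioo (y - 2 * X) (y + 2 * X), g y * (starRingEnd ℂ) (g u) * ee (θ * ((u - y : ℤ) : ℝ)) := by
    refine Finset.sum_subset (fun u hu => ?_) fun u _ hu => ?_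
    · rw [mem_Ico] at hu
      rw [mem_Ioo]
      omega
    · rw [hg u hu, map_zero, mul_zero, zero_mul]
  rw [h2]
  refine Finset.sum_bij' (fun a _ => y + a) (fun u _ => u - y) ?_ ?_ ?_ ?_ ?_
  · intro a ha
    rw [mem_Ioo] at ha ⊢
    omega
  · intro u hu
    rw [mem_Ioo] at hu ⊢
    omega
  · intro a _
    ring
  · intro u _
    ring
  · intro a _
    unfold DD
    have : ((y + a - y : ℤ) : ℝ) = a := by push_cast; ring
    rw [this]
    ring

/-- The sum of all `F_f(h)` is a sum of squares. -/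
theorem D0_sq {X s : ℕ} {f : ℤ → ℂ} (hf : Spt X f) : ∑ h ∈ bxS (s + 1) (2 * X), FF X h f =
    ((∑ h ∈ bxS s (2 * X), ‖∑ y ∈ Ico (-(X : ℤ)) X, DV h f y‖ ^ 2 : ℝ) : ℂ) := by
  rw [D0_bx, Finset.sum_comm]
  rw [Complex.ofReal_sum]
  refine sum_congr rfl fun h _ => ?_
  have h1 := d0_sq X (DV h f) (D0_SDV hf h) 0
  simp only [zero_mul, neg_zero, Pool.Agent.H44W.ee_zero, one_mul, mul_one] at h1
  rw [← h1]
  push_cast
  refine sum_congr rfl fun a _ => ?_
  unfold FF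
  rw [D0_cons']

theorem D0_re {X s : ℕ} {f : ℤ → ℂ} (hf : Spt X f) (hs : 1 ≤ s) :
    ∑ h ∈ bxS s (2 * X), FF X h f = ((GG X s f : ℝ) : ℂ) := by
  obtain ⟨s, rfl⟩ : ∃ s', s = s' + 1 := ⟨s - 1, by omega⟩
  unfold GG
  rw [D0_sq hf, Complex.ofReal_re]

theorem D0_nn {X s : ℕ} {f : ℤ → ℂ} (hf : Spt X f) (hs : 1 ≤ s) : 0 ≤ GG X s f := by
  obtain ⟨s, rfl⟩ : ∃ s', s = s' + 1 := ⟨s - 1, by omega⟩
  unfold GG
  rw [D0_sq hf, Complex.ofReal_re]
  exact sum_nonneg fun _ _ => by positivity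

/-- `G_(s+1)(f) = ∑_a G_s(Δ_a f)` -/
theorem D0_succ {X s : ℕ} {f : ℤ → ℂ} : GG X (s + 1) f = ∑ a ∈ Ioo (-(2 * X : ℤ)) (2 * X), GG X s (DD a f) := by
  unfold GG
  rw [D0_bx, Complex.re_sum]
  push_cast
  refine sum_congr rfl fun a _ => ?_
  congr 1
  refine sum_congr rfl fun h _ => ?_
  unfold FF
  rw [D0_cons]

/-- **Phases do not increase the Gowers norm.** -/
theorem D0_ph {X s : ℕ} {f : ℤ → ℂ} (hf : Spt X f) (hs : 2 ≤ s) (θ : Fin s → ℝ) :
    ‖∑ h ∈ bxS s (2 * X), ee (∑ i, θ i * h i) * FF X h f‖ ≤ GG X s f := by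
  obtain ⟨s, rfl⟩ : ∃ s', s = s' + 1 := ⟨s - 1, by omega⟩
  have hs1 : 1 ≤ s := by omega
  have e1 : ∀ (a : ℤ) (h : Fin s → ℤ), ee (∑ i, θ i * ((Fin.cons a h : Fin (s + 1) → ℤ) i : ℝ)) =
      ee (θ 0 * a) * ee (∑ i, θ i.succ * h i) := by
    intro a h
    rw [← Pool.Agent.H44W.ee_add, Fin.sum_univ_succ]
    simp only [Fin.cons_zero, Fin.cons_succ]
  have e2 : ∑ h ∈ bxS (s + 1) (2 * X), ee (∑ i, θ i * h i) * FF X h f =
      ∑ h ∈ bxS s (2 * X), ee (∑ i, θ i.succ * h i) *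
        ((‖∑ y ∈ Ico (-(X : ℤ)) X, DV h f y * ee (-(θ 0 * y))‖ ^ 2 : ℝ) : ℂ) := by
    rw [D0_bx, Finset.sum_comm]
    refine sum_congr rfl fun h _ => ?_
    rw [← d0_sq X (DV h f) (D0_SDV hf h) (θ 0), Finset.mul_sum]
    push_cast
    refine sum_congr rfl fun a _ => ?_
    rw [e1]
    unfold FF
    rw [D0_cons']
    ring
  rw [e2]
  refine (norm_sum_le _ _).trans ?_
  have e3 : ∑ h ∈ bxS s (2 * X), ‖ee (∑ i, θ i.succ * h i) *
        ((‖∑ y ∈ Ico (-(X : ℤ)) X, DV h f y * ee (-(θ 0 * y))‖ ^ 2 : ℝ) : ℂ)‖ =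
      ‖∑ a ∈ Ioo (-(2 * X : ℤ)) (2 * X), ee (θ 0 * a) * ((GG X s (DD a f) : ℝ) : ℂ)‖ := by
    have e4 : ∑ a ∈ Ioo (-(2 * X : ℤ)) (2 * X), ee (θ 0 * a) * ((GG X s (DD a f) : ℝ) : ℂ) =
        ((∑ h ∈ bxS s (2 * X), ‖∑ y ∈ Ico (-(X : ℤ)) X, DV h f y * ee (-(θ 0 * y))‖ ^ 2 : ℝ) : ℂ) := by
      rw [Complex.ofReal_sum]
      have e5 : ∀ h ∈ bxS s (2 * X), ((‖∑ y ∈ Ico (-(X : ℤ)) X, DV h f y * ee (-(θ 0 * y))‖ ^ 2 : ℝ) : ℂ) =
          ∑ a ∈ Ioo (-(2 * X : ℤ)) (2 * X), ee (θ 0 * a) * FF X h (DD a f) := by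
        intro h _
        rw [← d0_sq X (DV h f) (D0_SDV hf h) (θ 0)]
        refine sum_congr rfl fun a _ => ?_
        unfold FF
        rw [← D0_cons', D0_cons]
      rw [sum_congr rfl e5, Finset.sum_comm]
      refine sum_congr rfl fun a _ => ?_
      rw [← Finset.mul_sum, D0_re (D0_SDD hf a) hs1]
    rw [e4, Complex.norm_real, Real.norm_of_nonneg (sum_nonneg fun _ _ => by positivity)]
    refine sum_congr rfl fun h _ => ?_
    rw [norm_mul, Pool.Agent.H44W.norm_ee, one_mul, Complex.norm_real, Real.norm_of_nonneg (by positivity)]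
  rw [e3, D0_succ]
  refine (norm_sum_le _ _).trans (sum_le_sum fun a _ => ?_)
  rw [norm_mul, Pool.Agent.H44W.norm_ee, one_mul, Complex.norm_real,
    Real.norm_of_nonneg (D0_nn (D0_SDD hf a) hs1)]

/-- **Weights which are combinations of phases do not increase the Gowers norm.** -/
theorem D0_W {X s : ℕ} {f : ℤ → ℂ} (hf : Spt X f) (hs : 2 ≤ s) (W : Fin s → ℤ → ℂ) (hW : ∀ i, PhW X (W i)) :
    ‖∑ h ∈ bxS s (2 * X), (∏ i, W i (h i)) * FF X h f‖ ≤ GG X s f := by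
  choose n c θ hc hWc using hW
  have hG := D0_nn hf (by omega : 1 ≤ s)
  have e1 : ∑ h ∈ bxS s (2 * X), (∏ i, W i (h i)) * FF X h f =
      ∑ ξ ∈ Fintype.piFinset (fun i => range (n i)), (∏ i, c i (ξ i)) *
        ∑ h ∈ bxS s (2 * X), ee (∑ i, θ i (ξ i) * h i) * FF X h f := by
    simp only [Finset.mul_sum]
    rw [Finset.sum_comm]
    refine sum_congr rfl fun h hh => ?_
    have h1 : ∏ i, W i (h i) = ∏ i, ∑ j ∈ range (n i), c i j * ee (θ i j * h i) := by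
      refine prod_congr rfl fun i _ => hWc i (h i) ?_
      unfold bxS at hh
      have := Fintype.mem_piFinset.1 hh i
      push_cast at this
      exact this
    rw [h1, Finset.prod_univ_sum, Finset.sum_mul]
    refine sum_congr rfl fun ξ _ => ?_
    have h2 : ∀ (t : Finset (Fin s)), ee (∑ i ∈ t, θ i (ξ i) * h i) = ∏ i ∈ t, ee (θ i (ξ i) * h i) := by
      intro t
      induction t using Finset.induction_on with
      | empty => simp [Pool.Agent.H44W.ee_zero]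
      | insert a t ha ih => rw [sum_insert ha, prod_insert ha, Pool.Agent.H44W.ee_add, ih]
    rw [h2, prod_mul_distrib]
    ring
  rw [e1]
  refine (norm_sum_le _ _).trans ?_
  have e2 : ∀ ξ ∈ Fintype.piFinset (fun i => range (n i)), ‖(∏ i, c i (ξ i)) *
        ∑ h ∈ bxS s (2 * X), ee (∑ i, θ i (ξ i) * h i) * FF X h f‖ ≤ (∏ i, ‖c i (ξ i)‖) * GG X s f := by
    intro ξ _
    rw [norm_mul, norm_prod]
    exact mul_le_mul_of_nonneg_left (D0_ph hf hs _) (prod_nonneg fun _ _ => norm_nonneg _)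
  refine (sum_le_sum e2).trans ?_
  rw [← Finset.sum_mul, ← Finset.prod_univ_sum (fun i => range (n i)) (fun i j => ‖c i j‖)]
  have e3 : ∏ i, ∑ j ∈ range (n i), ‖c i j‖ ≤ 1 :=
    prod_le_one (fun _ _ => sum_nonneg fun _ _ => norm_nonneg _) fun i _ => hc i
  calc _ ≤ 1 * GG X s f := mul_le_mul_of_nonneg_right e3 hG
    _ = _ := one_mul _

/-! ## Special weights -/

theorem D0_Wee (X : ℕ) (θ : ℝ) : PhW X (fun h => ee (θ * h)) :=
  ⟨1, fun _ => 1, fun _ => θ, by simp, fun h _ => by simp⟩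


/-- residue classes of the difference -/
theorem D0_Wdvd (X Λ : ℕ) (hΛ : 0 < Λ) : PhW X (fun h => if (Λ : ℤ) ∣ h then 1 else 0) := by
  have hΛr : (0 : ℝ) < Λ := by exact_mod_cast hΛ
  refine ⟨Λ, fun _ => 1 / (Λ : ℂ), fun j => (j : ℝ) / Λ, ?_, fun h _ => ?_⟩
  · rw [sum_const, card_range, nsmul_eq_mul, norm_div, norm_one, Complex.norm_natCast]
    exact le_of_eq (by field_simp)
  · rw [← Finset.mul_sum]
    have h1 := Pool.Agent.H44W.ee_orth Λ hΛ h
    have h2 : ∀ j ∈ range Λ, ee ((j : ℝ) / Λ * h) = ee ((j : ℝ) * h / Λ) := by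
      intro j _
      congr 1
      ring
    have hΛc : (Λ : ℂ) ≠ 0 := by exact_mod_cast hΛ.ne'
    rw [sum_congr rfl h2, h1]
    show (if (Λ : ℤ) ∣ h then (1 : ℂ) else 0) = _
    by_cases hd : (Λ : ℤ) ∣ h
    · rw [if_pos hd, if_pos hd]
      field_simp
    · rw [if_neg hd, if_neg hd, mul_zero]

/-- the number of pairs with a given difference -/
theorem d0_pairs (M : ℕ) (t : ℤ) :
    ∑ j ∈ range M, ∑ i ∈ range M, (if (i : ℤ) - j = t then (1 : ℝ) else 0) = max 0 ((M : ℝ) - |(t : ℝ)|) := by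
  have h1 : ∀ j ∈ range M, ∑ i ∈ range M, (if (i : ℤ) - j = t then (1 : ℝ) else 0) =
      if 0 ≤ (j : ℤ) + t ∧ (j : ℤ) + t < M then (1 : ℝ) else 0 := by
    intro j _
    by_cases h : 0 ≤ (j : ℤ) + t ∧ (j : ℤ) + t < M
    · rw [if_pos h, Finset.sum_eq_single_of_mem (((j : ℤ) + t).toNat) (by rw [mem_range]; omega)]
      · rw [if_pos (by omega)]
      · intro i _ hi
        rw [if_neg]
        intro h2
        apply hi
        omega
    · rw [if_neg h]
      refine sum_eq_zero fun i hi => ?_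
      rw [mem_range] at hi
      rw [if_neg]
      intro h2
      apply h
      omega
  rw [sum_congr rfl h1, ← Finset.sum_filter, sum_const, nsmul_eq_mul, mul_one]
  have h3 : ((range M).filter (fun j : ℕ => 0 ≤ (j : ℤ) + t ∧ (j : ℤ) + t < M)).card = M - t.natAbs := by
    rcases le_total 0 t with ht | ht
    · have : (range M).filter (fun j : ℕ => 0 ≤ (j : ℤ) + t ∧ (j : ℤ) + t < M) = range (M - t.natAbs) := by
        ext j
        rw [mem_filter, mem_range, mem_range]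
        omega
      rw [this, card_range]
    · have : (range M).filter (fun j : ℕ => 0 ≤ (j : ℤ) + t ∧ (j : ℤ) + t < M) = Ico t.natAbs M := by
        ext j
        rw [mem_filter, mem_range, mem_Ico]
        omega
      rw [this, Nat.card_Ico]
  rw [h3]
  have h4 : |(t : ℝ)| = (t.natAbs : ℝ) := by
    rw [← Int.cast_abs, Int.abs_eq_natAbs, Int.cast_natCast]
  rw [h4]
  rcases le_total t.natAbs M with h5 | h5
  · rw [Nat.cast_sub h5, max_eq_right]
    have : (t.natAbs : ℝ) ≤ M := by exact_mod_cast h5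
    linarith
  · rw [Nat.sub_eq_zero_of_le h5, max_eq_left]
    · simp
    · have : (M : ℝ) ≤ t.natAbs := by exact_mod_cast h5
      linarith

/-- The Fejer weight on multiples of `d`. -/
theorem D0_fej (X M : ℕ) (hM : 0 < M) (d : ℤ) (hd : d ≠ 0) :
    PhW X (fun h => if d ∣ h then ((fw M (h / d) : ℝ) : ℂ) else 0) := by
  obtain ⟨L, hL⟩ : ∃ L : ℕ, L = 4 * X + 2 * d.natAbs * M + 1 := ⟨_, rfl⟩
  have hL0 : 0 < L := by omega
  have hLr : (0 : ℝ) < L := by exact_mod_cast hL0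
  have hMr : (0 : ℝ) < M := by exact_mod_cast hM
  have hLc : (L : ℂ) ≠ 0 := by exact_mod_cast hL0.ne'
  have hMc : (M : ℂ) ≠ 0 := by exact_mod_cast hM.ne'
  -- the value of the trigonometric polynomial
  have key : ∀ h : ℤ, |h| ≤ 2 * X → ∑ ξ ∈ range L, ((1 / ((M : ℝ) * L) * ‖∑ j ∈ range M, ee ((ξ : ℝ) / L * (d * j))‖ ^ 2 : ℝ) : ℂ) *
      ee ((ξ : ℝ) / L * h) = if d ∣ h then ((fw M (h / d) : ℝ) : ℂ) else 0 := by
    intro h hh
    have h1 : ∀ ξ ∈ range L, ((1 / ((M : ℝ) * L) * ‖∑ j ∈ range M, ee ((ξ : ℝ) / L * (d * j))‖ ^ 2 : ℝ) : ℂ) *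
        ee ((ξ : ℝ) / L * h) = 1 / ((M : ℂ) * L) * ∑ j ∈ range M, ∑ i ∈ range M,
          ee ((ξ : ℝ) * ((d * j - d * i + h : ℤ) : ℝ) / L) := by
      intro ξ _
      push_cast
      rw [← Complex.mul_conj', map_sum, Finset.sum_mul, mul_assoc, Finset.sum_mul]
      congr 1
      refine sum_congr rfl fun j _ => ?_
      rw [Finset.mul_sum, Finset.sum_mul]
      refine sum_congr rfl fun i _ => ?_
      rw [← Pool.Agent.H44W.ee_neg, ← Pool.Agent.H44W.ee_add, ← Pool.Agent.H44W.ee_add]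
      congr 1
      ring
    rw [sum_congr rfl h1, ← Finset.mul_sum, Finset.sum_comm]
    have h2 : ∀ j ∈ range M, ∑ ξ ∈ range L, ∑ i ∈ range M, ee ((ξ : ℝ) * ((d * j - d * i + h : ℤ) : ℝ) / L) =
        ∑ i ∈ range M, (if (d : ℤ) * (i - j) = h then (L : ℂ) else 0) := by
      intro j hj
      rw [Finset.sum_comm]
      refine sum_congr rfl fun i hi => ?_
      rw [Pool.Agent.H44W.ee_orth L hL0]
      rw [mem_range] at hi hj
      have h3 : (L : ℤ) ∣ (d * j - d * i + h) ↔ d * ((i : ℤ) - j) = h := by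
        constructor
        · intro h4
          have h5 : |d * j - d * i + h| < L := by
            have h6 : |d * ((j : ℤ) - i)| ≤ d.natAbs * M := by
              rw [abs_mul, Int.abs_eq_natAbs d]
              refine mul_le_mul_of_nonneg_left ?_ (by positivity)
              rw [abs_le]
              constructor <;> omega
            have h7 : d * j - d * i + h = d * ((j : ℤ) - i) + h := by ring
            rw [h7]
            refine lt_of_le_of_lt (abs_add_le _ _) ?_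
            have h8 : (L : ℤ) = 4 * X + 2 * (d.natAbs * M) + 1 := by
              rw [hL]
              push_cast
              ring
            have h9 : (0 : ℤ) ≤ (d.natAbs : ℤ) * M := by positivity
            rw [h8]
            omega
          have h6 := Int.eq_zero_of_abs_lt_dvd h4 h5
          linarith
        · intro h4
          have : d * (j : ℤ) - d * i + h = 0 := by rw [← h4]; ring
          rw [this]
          exact dvd_zero _
      by_cases h4 : d * ((i : ℤ) - j) = h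
      · rw [if_pos (h3.2 h4), if_pos h4]
      · rw [if_neg (fun h5 => h4 (h3.1 h5)), if_neg h4]
    rw [sum_congr rfl h2]
    split_ifs with hdh
    · obtain ⟨t, rfl⟩ := hdh
      rw [Int.mul_ediv_cancel_left _ hd]
      have h4 : ∀ j ∈ range M, ∑ i ∈ range M, (if (d : ℤ) * (i - j) = d * t then (L : ℂ) else 0) =
          (L : ℂ) * ((∑ i ∈ range M, (if (i : ℤ) - j = t then (1 : ℝ) else 0) : ℝ) : ℂ) := by
        intro j _
        push_cast
        rw [Finset.mul_sum]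
        refine sum_congr rfl fun i _ => ?_
        have : d * ((i : ℤ) - j) = d * t ↔ (i : ℤ) - j = t := ⟨fun h => mul_left_cancel₀ hd h, fun h => by rw [h]⟩
        by_cases h5 : (i : ℤ) - j = t
        · rw [if_pos (this.2 h5), if_pos h5, Complex.ofReal_one, mul_one]
        · rw [if_neg (fun h => h5 (this.1 h)), if_neg h5, Complex.ofReal_zero, mul_zero]
      rw [sum_congr rfl h4, ← Finset.mul_sum, ← Complex.ofReal_sum, d0_pairs]
      unfold fw
      have h6 : max 0 ((M : ℝ) - |(t : ℝ)|) = M * max 0 (1 - |(t : ℝ)| / M) := by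
        rw [mul_max_of_nonneg _ _ hMr.le, mul_zero]
        congr 1
        field_simp
      rw [h6]
      push_cast
      field_simp
    · refine mul_eq_zero_of_right _ (sum_eq_zero fun j _ => sum_eq_zero fun i _ => ?_)
      rw [if_neg]
      intro h4
      exact hdh ⟨_, h4.symm⟩
  refine ⟨L, fun ξ => ((1 / ((M : ℝ) * L) * ‖∑ j ∈ range M, ee ((ξ : ℝ) / L * (d * j))‖ ^ 2 : ℝ) : ℂ),
    fun ξ => (ξ : ℝ) / L, ?_, fun h hh => ?_⟩
  · have h0 := key 0 (by rw [abs_zero]; positivity)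
    rw [if_pos (dvd_zero d)] at h0
    simp only [Int.cast_zero, mul_zero, Pool.Agent.H44W.ee_zero, mul_one, Int.zero_ediv] at h0
    rw [← Complex.ofReal_sum] at h0
    have h1 := Complex.ofReal_inj.1 h0
    have h2 : ∑ ξ ∈ range L, ‖((1 / ((M : ℝ) * L) * ‖∑ j ∈ range M, ee ((ξ : ℝ) / L * (d * j))‖ ^ 2 : ℝ) : ℂ)‖ =
        ∑ ξ ∈ range L, 1 / ((M : ℝ) * L) * ‖∑ j ∈ range M, ee ((ξ : ℝ) / L * (d * j))‖ ^ 2 := by
      refine sum_congr rfl fun ξ _ => ?_
      rw [Complex.norm_real, Real.norm_of_nonneg (by positivity)]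
    rw [h2, h1]
    unfold fw
    simp
  · rw [mem_Ioo] at hh
    rw [key h (by rw [abs_le]; constructor <;> linarith)]

theorem D0_fw0 {M : ℕ} {t : ℤ} (hM : 0 < M) (ht : (M : ℤ) ≤ |t|) : fw M t = 0 := by
  unfold fw
  have hMr : (0 : ℝ) < M := by exact_mod_cast hM
  rw [max_eq_left]
  have : (M : ℝ) ≤ |(t : ℝ)| := by
    rw [← Int.cast_abs]
    exact_mod_cast ht
  rw [sub_nonpos, one_le_div hMr]
  exact this

/-- `F_f(h) = 0` if one difference is large -/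
theorem D0_large {X s : ℕ} {f : ℤ → ℂ} (hf : Spt X f) (h : Fin s → ℤ) (i : Fin s) (hi : (2 * X : ℤ) ≤ |h i|) : FF X h f = 0 := by
  unfold FF
  refine sum_eq_zero fun y hy => ?_
  rw [mem_Ico] at hy
  have key : ∀ (l : List ℤ) (g : ℤ → ℂ) (a : ℤ), a ∈ l → Spt X g → (2 * X : ℤ) ≤ |a| → DL l g y = 0 := by
    intro l
    induction l with
    | nil =>
      intro g a ha
      exact absurd ha (List.not_mem_nil)
    | cons b l ih =>
      intro g a ha hg h2
      rcases List.mem_cons.1 ha with h3 | h3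
      · subst h3
        refine D0_DLz l (DD a g) y ?_
        unfold DD
        rw [hg (y + a), map_zero, mul_zero]
        rw [mem_Ico]
        rcases abs_cases a with ⟨h4, _⟩ | ⟨h4, _⟩ <;> omega
      · exact ih (DD b g) a h3 (D0_SDD hg b) h2
  exact key _ f (h i) (List.mem_ofFn.2 ⟨i, rfl⟩) hf hi

/-- **Fejer weights on multiples of `d`.** -/
theorem D0_V2 {X s : ℕ} {f : ℤ → ℂ} (hf : Spt X f) (hs : 2 ≤ s) (M : ℕ) (hM : 0 < M) (d : ℤ) (hd : d ≠ 0) :
    ‖∑ t ∈ bxS s M, ((FW M t : ℝ) : ℂ) * FF X (fun i => d * t i) f‖ ≤ GG X s f := by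
  classical
  have h1 := D0_W hf hs (fun _ h => if d ∣ h then ((fw M (h / d) : ℝ) : ℂ) else 0) (fun _ => D0_fej X M hM d hd)
  refine le_trans (le_of_eq (congrArg norm ?_)) h1
  -- both sums are sums over the `t` in a large box
  obtain ⟨N, hN⟩ : ∃ N : ℕ, N = M + 2 * X + 1 := ⟨_, rfl⟩
  have hfw : ∀ t : Fin s → ℤ, (∃ i, (M : ℤ) ≤ |t i|) → FW M t = 0 := by
    rintro t ⟨i, hi⟩
    exact prod_eq_zero (mem_univ i) (D0_fw0 hM hi)
  have e1 : ∑ t ∈ bxS s M, ((FW M t : ℝ) : ℂ) * FF X (fun i => d * t i) f =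
      ∑ t ∈ bxS s N, ((FW M t : ℝ) : ℂ) * FF X (fun i => d * t i) f := by
    refine Finset.sum_subset (fun t ht => ?_) fun t _ ht => ?_
    · unfold bxS at ht ⊢
      rw [Fintype.mem_piFinset] at ht ⊢
      intro i
      have := mem_Ioo.1 (ht i)
      rw [mem_Ioo]
      omega
    · unfold bxS at ht
      rw [Fintype.mem_piFinset] at ht
      push Not at ht
      obtain ⟨i, hi⟩ := ht
      rw [hfw t ⟨i, ?_⟩]
      · simp
      · rw [mem_Ioo] at hi
        rw [le_abs]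
        omega
  have e2 : ∑ h ∈ bxS s (2 * X), (∏ i, (if d ∣ h i then ((fw M (h i / d) : ℝ) : ℂ) else 0)) * FF X h f =
      ∑ t ∈ (bxS s N).filter (fun t => ∀ i, |d * t i| < 2 * X), ((FW M t : ℝ) : ℂ) * FF X (fun i => d * t i) f := by
    symm
    have e3 : ∑ h ∈ bxS s (2 * X), (∏ i, (if d ∣ h i then ((fw M (h i / d) : ℝ) : ℂ) else 0)) * FF X h f =
        ∑ h ∈ (bxS s (2 * X)).filter (fun h => ∀ i, d ∣ h i),
          (∏ i, (if d ∣ h i then ((fw M (h i / d) : ℝ) : ℂ) else 0)) * FF X h f := by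
      rw [Finset.sum_filter]
      refine sum_congr rfl fun h _ => ?_
      split_ifs with h2
      · rfl
      · push Not at h2
        obtain ⟨i, hi⟩ := h2
        rw [prod_eq_zero (mem_univ i) (if_neg hi), zero_mul]
    rw [e3]
    refine Finset.sum_bij' (fun t _ => fun i => d * t i) (fun h _ => fun i => h i / d) ?_ ?_ ?_ ?_ ?_
    · intro t ht
      rw [mem_filter] at ht ⊢
      refine ⟨?_, fun i => dvd_mul_right _ _⟩
      unfold bxS
      rw [Fintype.mem_piFinset]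
      intro i
      have := abs_lt.1 (ht.2 i)
      rw [mem_Ioo]
      push_cast
      exact this
    · intro h hh
      rw [mem_filter] at hh ⊢
      have hh1 := hh.1
      unfold bxS at hh1
      rw [Fintype.mem_piFinset] at hh1
      have h3 : ∀ i, d * (h i / d) = h i := fun i => Int.mul_ediv_cancel' (hh.2 i)
      refine ⟨?_, fun i => ?_⟩
      · unfold bxS
        rw [Fintype.mem_piFinset]
        intro i
        have h4 := mem_Ioo.1 (hh1 i)
        push_cast at h4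
        have h5 : |h i / d| ≤ |h i| := by
          rw [← h3 i, abs_mul, h3 i]
          have h6 : 1 ≤ |d| := Int.one_le_abs hd
          nlinarith [abs_nonneg (h i / d)]
        have h6 : |h i| < 2 * X := abs_lt.2 h4
        have h7 := abs_lt.1 (lt_of_le_of_lt h5 h6)
        rw [mem_Ioo, hN]
        push_cast
        constructor <;> linarith [h7.1, h7.2, (by positivity : (0 : ℤ) ≤ (M : ℤ))]
      · rw [h3 i]
        have h4 := mem_Ioo.1 (hh1 i)
        push_cast at h4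
        exact abs_lt.2 h4
    · intro t _
      funext i
      exact Int.mul_ediv_cancel_left _ hd
    · intro h hh
      rw [mem_filter] at hh
      funext i
      exact Int.mul_ediv_cancel' (hh.2 i)
    · intro t _
      congr 1
      unfold FW
      push_cast
      refine prod_congr rfl fun i _ => ?_
      rw [if_pos (dvd_mul_right _ _), Int.mul_ediv_cancel_left _ hd]
  rw [e1, e2, Finset.sum_filter]
  refine sum_congr rfl fun t _ => ?_
  split_ifs with h2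
  · rfl
  · push Not at h2
    obtain ⟨i, hi⟩ := h2
    rw [D0_large hf _ i hi, mul_zero]


/-- differences of a function cut off to a residue class -/
theorem D0_class (Λ : ℕ) (ρ : ℤ) (f : ℤ → ℂ) (l : List ℤ) (y : ℤ) :
    DL l (fun m => if (Λ : ℤ) ∣ m - ρ then f m else 0) y =
      if (Λ : ℤ) ∣ y - ρ ∧ ∀ a ∈ l, (Λ : ℤ) ∣ a then DL l f y else 0 := by
  induction l generalizing f with
  | nil => simp [DL]
  | cons b l ih =>
    have h1 : DD b (fun m => if (Λ : ℤ) ∣ m - ρ then f m else 0) =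
        fun m => if (Λ : ℤ) ∣ m - ρ then (if (Λ : ℤ) ∣ b then DD b f m else 0) else 0 := by
      funext m
      unfold DD
      dsimp only
      by_cases h2 : (Λ : ℤ) ∣ m - ρ
      · rw [if_pos h2, if_pos h2]
        by_cases h3 : (Λ : ℤ) ∣ b
        · have h4 : (Λ : ℤ) ∣ m + b - ρ := by
            have : m + b - ρ = (m - ρ) + b := by ring
            rw [this]
            exact dvd_add h2 h3
          rw [if_pos h4, if_pos h3]
        · have h4 : ¬ (Λ : ℤ) ∣ m + b - ρ := by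
            intro h5
            apply h3
            have : b = (m + b - ρ) - (m - ρ) := by ring
            rw [this]
            exact dvd_sub h5 h2
          rw [if_neg h4, if_neg h3, map_zero, mul_zero]
      · rw [if_neg h2, if_neg h2, zero_mul]
    show DL l (DD b _) y = _
    rw [h1, ih (fun m => if (Λ : ℤ) ∣ b then DD b f m else 0)]
    by_cases h3 : (Λ : ℤ) ∣ b
    · simp only [if_pos h3]
      by_cases h4 : (Λ : ℤ) ∣ y - ρ ∧ ∀ a ∈ l, (Λ : ℤ) ∣ a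
      · rw [if_pos h4, if_pos ⟨h4.1, fun a ha => by
          rcases List.mem_cons.1 ha with h5 | h5
          · rw [h5]; exact h3
          · exact h4.2 a h5⟩]
        rfl
      · rw [if_neg h4, if_neg]
        intro h5
        exact h4 ⟨h5.1, fun a ha => h5.2 a (List.mem_cons_of_mem _ ha)⟩
    · simp only [if_neg h3]
      rw [if_neg (fun h5 : _ ∧ ∀ a ∈ (b :: l), (Λ : ℤ) ∣ a => h3 (h5.2 b List.mem_cons_self))]
      split_ifs
      · exact D0_DLz l _ y rfl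
      · rfl

/-- **Residue classes.** -/
theorem D0_V1 {X s : ℕ} {f : ℤ → ℂ} (hf : Spt X f) (hs : 2 ≤ s) (Λ : ℕ) (hΛ : 0 < Λ) (ρ : ℤ) :
    GG X s (fun m => if (Λ : ℤ) ∣ m - ρ then f m else 0) ≤ GG X s f := by
  classical
  have hf' : ∀ σ : ℤ, Spt X (fun m => if (Λ : ℤ) ∣ m - σ then f m else 0) := by
    intro σ y hy
    simp only [hf y hy, ite_self]
  -- the sum over all classes
  have h1 : ∑ σ ∈ range Λ, GG X s (fun m => if (Λ : ℤ) ∣ m - σ then f m else 0) ≤ GG X s f := by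
    have h2 : ((∑ σ ∈ range Λ, GG X s (fun m => if (Λ : ℤ) ∣ m - σ then f m else 0) : ℝ) : ℂ) =
        ∑ h ∈ bxS s (2 * X), (∏ i, (if (Λ : ℤ) ∣ h i then (1 : ℂ) else 0)) * FF X h f := by
      rw [Complex.ofReal_sum]
      have h3 : ∀ σ ∈ range Λ, ((GG X s (fun m => if (Λ : ℤ) ∣ m - σ then f m else 0) : ℝ) : ℂ) =
          ∑ h ∈ bxS s (2 * X), FF X h (fun m => if (Λ : ℤ) ∣ m - σ then f m else 0) := fun σ _ =>
        (D0_re (hf' σ) (by omega)).symm
      rw [sum_congr rfl h3, Finset.sum_comm]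
      refine sum_congr rfl fun h _ => ?_
      unfold FF
      rw [Finset.sum_comm, Finset.mul_sum]
      refine sum_congr rfl fun y _ => ?_
      unfold DV
      have h4 : ∀ σ ∈ range Λ, DL (List.ofFn h) (fun m => if (Λ : ℤ) ∣ m - σ then f m else 0) y =
          if (Λ : ℤ) ∣ y - σ then (if ∀ i, (Λ : ℤ) ∣ h i then DL (List.ofFn h) f y else 0) else 0 := by
        intro σ _
        rw [D0_class]
        have h5 : (∀ a ∈ List.ofFn h, (Λ : ℤ) ∣ a) ↔ ∀ i, (Λ : ℤ) ∣ h i := by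
          simp only [List.mem_ofFn]
          constructor
          · exact fun h6 i => h6 _ ⟨i, rfl⟩
          · rintro h6 _ ⟨i, rfl⟩
            exact h6 i
        by_cases h6 : (Λ : ℤ) ∣ y - σ
        · by_cases h7 : ∀ i, (Λ : ℤ) ∣ h i
          · rw [if_pos ⟨h6, h5.2 h7⟩, if_pos h6, if_pos h7]
          · rw [if_neg (fun h8 => h7 (h5.1 h8.2)), if_pos h6, if_neg h7]
        · rw [if_neg (fun h8 => h6 h8.1), if_neg h6]
      rw [sum_congr rfl h4]
      have hΛz : (0 : ℤ) < Λ := by exact_mod_cast hΛ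
      rw [Finset.sum_eq_single_of_mem (y % Λ).toNat]
      · rw [if_pos]
        · by_cases h7 : ∀ i, (Λ : ℤ) ∣ h i
          · rw [if_pos h7, prod_congr rfl fun i _ => if_pos (h7 i), prod_const_one, one_mul]
          · rw [if_neg h7]
            push Not at h7
            obtain ⟨i, hi⟩ := h7
            rw [prod_eq_zero (mem_univ i) (if_neg hi), zero_mul]
        · have h8 : (((y % Λ).toNat : ℕ) : ℤ) = y % Λ := Int.toNat_of_nonneg (Int.emod_nonneg _ hΛz.ne')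
          rw [h8]
          exact Int.dvd_self_sub_emod
      · rw [mem_range]
        have := Int.emod_lt_of_pos y hΛz
        have := Int.emod_nonneg y hΛz.ne'
        omega
      · intro σ hσ hne
        rw [if_neg]
        intro h8
        apply hne
        rw [mem_range] at hσ
        have h9 : y % Λ = σ := by
          have h10 : y % Λ = (σ : ℤ) % Λ := Int.emod_eq_emod_iff_emod_sub_eq_zero.2 (Int.emod_eq_zero_of_dvd h8)
          rw [h10, Int.emod_eq_of_lt (by positivity) (by exact_mod_cast hσ)]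
        rw [h9, Int.toNat_natCast]
    have h3 := D0_W hf hs (fun _ h => if (Λ : ℤ) ∣ h then 1 else 0) (fun _ => D0_Wdvd X Λ hΛ)
    rw [← h2, Complex.norm_real] at h3
    exact (le_abs_self _).trans h3
  -- one class
  have hΛz : (0 : ℤ) < Λ := by exact_mod_cast hΛ
  have h2 : (fun m => if (Λ : ℤ) ∣ m - ρ then f m else 0) =
      fun m => if (Λ : ℤ) ∣ m - (((ρ % Λ).toNat : ℕ) : ℤ) then f m else 0 := by
    funext m
    have h8 : (((ρ % Λ).toNat : ℕ) : ℤ) = ρ % Λ := Int.toNat_of_nonneg (Int.emod_nonneg _ hΛz.ne')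
    rw [h8]
    have h9 : (Λ : ℤ) ∣ m - ρ ↔ (Λ : ℤ) ∣ m - ρ % Λ := by
      have h10 : m - ρ % Λ = (m - ρ) + (ρ - ρ % Λ) := by ring
      rw [h10]
      exact (Int.dvd_add_left Int.dvd_self_sub_emod).symm
    by_cases h10 : (Λ : ℤ) ∣ m - ρ
    · rw [if_pos h10, if_pos (h9.1 h10)]
    · rw [if_neg h10, if_neg (fun h => h10 (h9.2 h))]
  rw [h2]
  refine le_trans ?_ h1
  refine Finset.single_le_sum (f := fun σ : ℕ => GG X s (fun m => if (Λ : ℤ) ∣ m - σ then f m else 0))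
    (fun σ _ => D0_nn (hf' σ) (by omega)) ?_
  rw [mem_range]
  have := Int.emod_lt_of_pos ρ hΛz
  have := Int.emod_nonneg ρ hΛz.ne'
  omega

end Pool.Agent.HUK
end

-- from Lib.HUK.V1
section

/-!
# Project HUK, chunk V1 (helper9): residue classes and multiples (Lemma W of helper9)
-/

open Finset

namespace Pool.Agent.HUK

open Pool.Agent.H44W (ee)


/-- Differences which are multiples of `q`, with Fejer weights: `fw M (h/q) [q ∣ h]` is on `|h| < 2X` a convex combination of phases. -/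
theorem V2_mul (X s M q : ℕ) (hs : 2 ≤ s) (hM : 1 ≤ M) (hq : 1 ≤ q) (f : ℤ → ℂ) (hf : ∀ y, y ∉ Ico (-(X : ℤ)) X → f y = 0) :
    ‖∑ t ∈ bxS s M, ((FW M t : ℝ) : ℂ) * FF X (fun i => (q : ℤ) * t i) f‖ ≤ GG X s f :=
  D0_V2 hf hs M hM (q : ℤ) (by omega)

/-- Residue classes. -/
theorem V1_res (X s Λ : ℕ) (hs : 2 ≤ s) (hΛ : 1 ≤ Λ) (ρ : ℤ) (f : ℤ → ℂ) (hf : ∀ y, y ∉ Ico (-(X : ℤ)) X → f y = 0) :
    GG X s (fun y => if (Λ : ℤ) ∣ y - ρ then f y else 0) ≤ GG X s f :=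
  D0_V1 hf hs Λ hΛ ρ

theorem v1_DL (Λ ρ : ℤ) (f : ℤ → ℂ) (l : List ℤ) (x : ℤ) :
    DL l (fun x => f (ρ + Λ * x)) x = DL (l.map (fun a => Λ * a)) f (ρ + Λ * x) := by
  induction l generalizing f with
  | nil => rfl
  | cons a l ih =>
    show DL l (DD a (fun x => f (ρ + Λ * x))) x = DL (l.map (fun a => Λ * a)) (DD (Λ * a) f) (ρ + Λ * x)
    rw [← ih (DD (Λ * a) f)]
    congr 1
    funext z
    unfold DD
    dsimp only
    rw [mul_add, add_assoc]

theorem v1_DV {s : ℕ} (Λ ρ : ℤ) (f : ℤ → ℂ) (t : Fin s → ℤ) (x : ℤ) :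
    DV t (fun x => f (ρ + Λ * x)) x = DV (fun i => Λ * t i) f (ρ + Λ * x) := by
  unfold DV
  rw [v1_DL, List.map_ofFn]
  rfl

theorem v1_in (X Λ : ℕ) (hΛ : 1 ≤ Λ) (ρ : ℤ) (hρ : 0 ≤ ρ) (hρ' : ρ < Λ) (g : ℤ → ℂ)
    (hg : ∀ y, y ∉ Ico (-(X : ℤ)) X → g y = 0) :
    ∑ y ∈ Ico (-(X : ℤ)) X, (if (Λ : ℤ) ∣ y - ρ then g y else 0) = ∑ x ∈ Ico (-(X : ℤ)) X, g (ρ + Λ * x) := by
  have hΛz : (1 : ℤ) ≤ Λ := by exact_mod_cast hΛ
  have h1 : ∑ x ∈ Ico (-(X : ℤ)) X, g (ρ + Λ * x) =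
      ∑ x ∈ (Ico (-(X : ℤ)) X).filter (fun x => ρ + Λ * x ∈ Ico (-(X : ℤ)) X), g (ρ + Λ * x) := by
    rw [Finset.sum_filter]
    refine sum_congr rfl fun x _ => ?_
    split_ifs with h2
    · rfl
    · exact hg _ h2
  rw [h1, ← Finset.sum_filter]
  refine Finset.sum_bij' (fun y _ => (y - ρ) / Λ) (fun x _ => ρ + Λ * x) ?_ ?_ ?_ ?_ ?_
  · intro y hy
    rw [mem_filter] at hy ⊢
    obtain ⟨h3, t, ht⟩ := hy
    have h4 : (y - ρ) / Λ = t := by
      rw [ht]
      exact Int.mul_ediv_cancel_left t (by omega)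
    rw [h4]
    have h5 : ρ + Λ * t = y := by rw [← ht]; ring
    rw [h5]
    refine ⟨?_, h3⟩
    rw [mem_Ico] at h3 ⊢
    constructor
    · by_contra h6
      push Not at h6
      nlinarith
    · by_contra h6
      push Not at h6
      nlinarith
  · intro x hx
    rw [mem_filter] at hx ⊢
    refine ⟨hx.2, ?_⟩
    rw [add_sub_cancel_left]
    exact dvd_mul_right _ _
  · intro y hy
    rw [mem_filter] at hy
    have := Int.mul_ediv_cancel' hy.2
    linarith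
  · intro x _
    rw [add_sub_cancel_left]
    exact Int.mul_ediv_cancel_left x (by omega)
  · intro y hy
    rw [mem_filter] at hy
    have := Int.mul_ediv_cancel' hy.2
    congr 1
    linarith

theorem v1_out (X s Λ : ℕ) (hΛ : 1 ≤ Λ) (Φ : (Fin s → ℤ) → ℂ) (hΦ : ∀ h i, (2 * X : ℤ) ≤ |h i| → Φ h = 0) :
    ∑ h ∈ bxS s (2 * X), (if ∀ i, (Λ : ℤ) ∣ h i then Φ h else 0) = ∑ t ∈ bxS s (2 * X), Φ (fun i => (Λ : ℤ) * t i) := by
  classical
  have hΛz : (1 : ℤ) ≤ Λ := by exact_mod_cast hΛ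
  have h1 : ∑ t ∈ bxS s (2 * X), Φ (fun i => (Λ : ℤ) * t i) =
      ∑ t ∈ (bxS s (2 * X)).filter (fun t => ∀ i, |(Λ : ℤ) * t i| < 2 * X), Φ (fun i => (Λ : ℤ) * t i) := by
    rw [Finset.sum_filter]
    refine sum_congr rfl fun t _ => ?_
    split_ifs with h2
    · rfl
    · push Not at h2
      obtain ⟨i, hi⟩ := h2
      exact hΦ _ i hi
  rw [h1, ← Finset.sum_filter]
  symm
  refine Finset.sum_bij' (fun t _ => fun i => (Λ : ℤ) * t i) (fun h _ => fun i => h i / Λ) ?_ ?_ ?_ ?_ ?_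
  · intro t ht
    rw [mem_filter] at ht ⊢
    refine ⟨?_, fun i => dvd_mul_right _ _⟩
    unfold bxS
    rw [Fintype.mem_piFinset]
    intro i
    have := abs_lt.1 (ht.2 i)
    rw [mem_Ioo]
    push_cast
    exact this
  · intro h hh
    rw [mem_filter] at hh ⊢
    have hh1 := hh.1
    unfold bxS at hh1
    rw [Fintype.mem_piFinset] at hh1
    have h3 : ∀ i, (Λ : ℤ) * (h i / Λ) = h i := fun i => Int.mul_ediv_cancel' (hh.2 i)
    have h4 : ∀ i, |h i| < 2 * X := by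
      intro i
      have := mem_Ioo.1 (hh1 i)
      push_cast at this
      exact abs_lt.2 this
    refine ⟨?_, fun i => ?_⟩
    · unfold bxS
      rw [Fintype.mem_piFinset]
      intro i
      have h5 : |h i / Λ| ≤ |h i| := by
        rw [← h3 i, abs_mul, h3 i, abs_of_nonneg (by omega : (0 : ℤ) ≤ Λ)]
        nlinarith [abs_nonneg (h i / (Λ : ℤ))]
      have h7 := abs_lt.1 (lt_of_le_of_lt h5 (h4 i))
      rw [mem_Ioo]
      push_cast
      exact h7
    · rw [h3 i]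
      exact h4 i
  · intro t _
    funext i
    exact Int.mul_ediv_cancel_left _ (by omega)
  · intro h hh
    rw [mem_filter] at hh
    funext i
    exact Int.mul_ediv_cancel' (hh.2 i)
  · intro t _
    rfl

/-- The function `x ↦ f(ρ + Λ x)`: its differences `t` are the differences `Λ t` of `f` on the class of `ρ`; all other differences vanish.
`0 ≤ ρ < Λ`, so `ρ + Λ x ∈ [-X, X)` implies `x ∈ [-X, X)`. -/
theorem V1_dil (X s Λ : ℕ) (hX : 1 ≤ X) (hs : 1 ≤ s) (hΛ : 1 ≤ Λ) (ρ : ℤ) (hρ : 0 ≤ ρ) (hρ' : ρ < Λ) (f : ℤ → ℂ)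
    (hf : Bdd X f) : Bdd X (fun x => f (ρ + Λ * x)) ∧
    GG X s (fun x => f (ρ + Λ * x)) = GG X s (fun y => if (Λ : ℤ) ∣ y - ρ then f y else 0) := by
  have hΛz : (1 : ℤ) ≤ Λ := by exact_mod_cast hΛ
  refine ⟨⟨fun y => hf.le _, fun y hy => hf.sup _ fun h => hy ?_⟩, ?_⟩
  · rw [mem_Ico] at h ⊢
    constructor
    · by_contra h6
      push Not at h6
      nlinarith
    · by_contra h6
      push Not at h6
      nlinarith
  · unfold GG
    congr 1
    have h1 : ∀ h ∈ bxS s (2 * X), FF X h (fun y => if (Λ : ℤ) ∣ y - ρ then f y else 0) =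
        if ∀ i, (Λ : ℤ) ∣ h i then ∑ x ∈ Ico (-(X : ℤ)) X, DV h f (ρ + Λ * x) else 0 := by
      intro h _
      have h5 : (∀ a ∈ List.ofFn h, (Λ : ℤ) ∣ a) ↔ ∀ i, (Λ : ℤ) ∣ h i := by
        simp only [List.mem_ofFn]
        constructor
        · exact fun h6 i => h6 _ ⟨i, rfl⟩
        · rintro h6 _ ⟨i, rfl⟩
          exact h6 i
      unfold FF DV
      by_cases h7 : ∀ i, (Λ : ℤ) ∣ h i
      · rw [if_pos h7, ← v1_in X Λ hΛ ρ hρ hρ' (DL (List.ofFn h) f) (fun y hy => D0_DLz _ _ _ (hf.sup y hy))]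
        refine sum_congr rfl fun y _ => ?_
        rw [D0_class]
        by_cases h6 : (Λ : ℤ) ∣ y - ρ
        · rw [if_pos ⟨h6, h5.2 h7⟩, if_pos h6]
        · rw [if_neg (fun h8 => h6 h8.1), if_neg h6]
      · rw [if_neg h7]
        refine sum_eq_zero fun y _ => ?_
        rw [D0_class, if_neg (fun h8 => h7 (h5.1 h8.2))]
    rw [sum_congr rfl h1, v1_out X s Λ hΛ (fun h => ∑ x ∈ Ico (-(X : ℤ)) X, DV h f (ρ + Λ * x))]
    · refine sum_congr rfl fun t _ => ?_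
      unfold FF
      refine sum_congr rfl fun x _ => ?_
      rw [v1_DV]
    · intro h i hi
      show ∑ x ∈ Ico (-(X : ℤ)) X, DV h f (ρ + Λ * x) = 0
      rw [← v1_in X Λ hΛ ρ hρ hρ' (DV h f) (fun y hy => D0_DLz _ _ _ (hf.sup y hy))]
      have h2 := D0_large (X := X) (f := fun y => if (Λ : ℤ) ∣ y - ρ then f y else 0)
        (fun y hy => by simp only [hf.sup y hy, ite_self]) h i hi
      have key : ∀ y ∈ Ico (-(X : ℤ)) X, DV h f y = 0 := by
        intro y hy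
        rw [mem_Ico] at hy
        have key : ∀ (l : List ℤ) (g : ℤ → ℂ) (a : ℤ), a ∈ l → Spt X g → (2 * X : ℤ) ≤ |a| → DL l g y = 0 := by
          intro l
          induction l with
          | nil =>
            intro g a ha
            exact absurd ha (List.not_mem_nil)
          | cons b l ih =>
            intro g a ha hg h2
            rcases List.mem_cons.1 ha with h3 | h3
            · subst h3
              refine D0_DLz l (DD a g) y ?_
              unfold DD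
              rw [hg (y + a), map_zero, mul_zero]
              rw [mem_Ico]
              rcases abs_cases a with ⟨h4, _⟩ | ⟨h4, _⟩ <;> omega
            · exact ih (DD b g) a h3 (D0_SDD hg b) h2
        exact key _ f (h i) (List.mem_ofFn.2 ⟨i, rfl⟩) hf.sup hi
      refine sum_eq_zero fun y hy => ?_
      rw [key y hy, ite_self]

end Pool.Agent.HUK
end

-- from Lib.HUK.A14a
section

/-!
# Project HUK, chunk A14a: rules for the type II theorem (PROOF.md, section 3)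
-/

open Finset

namespace Pool.Agent.HUK

/-- Differences along an additive homomorphism. -/
theorem DL_comp {G G' : Type*} [AddCommMonoid G] [AddCommMonoid G'] (φ : G →+ G') (l : List G) (F : G' → ℂ) (z : G) :
    DL l (fun z => F (φ z)) z = DL (l.map φ) F (φ z) := by
  induction l generalizing F with
  | nil => rfl
  | cons h l ih =>
    have h1 : DD h (fun z => F (φ z)) = fun z => (DD (φ h) F) (φ z) := by
      funext y
      simp only [DD, map_add]
    rw [DL, h1, ih]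
    rfl

theorem DL_norm_le {G : Type*} [AddCommMonoid G] (l : List G) (f : G → ℂ) (R : ℝ) (hR : 0 ≤ R) (hf : ∀ z, ‖f z‖ ≤ R)
    (z : G) : ‖DL l f z‖ ≤ R ^ (2 ^ l.length) := by
  induction l generalizing f R with
  | nil => simpa [DL] using hf z
  | cons h l ih =>
    have h1 : ∀ y, ‖DD h f y‖ ≤ R ^ 2 := by
      intro y
      rw [DD, norm_mul, RCLike.norm_conj, pow_two]
      exact mul_le_mul (hf _) (hf _) (norm_nonneg _) hR
    have h2 := ih (DD h f) (R ^ 2) (by positivity) h1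
    rw [DL, List.length_cons, pow_succ' 2, pow_mul]
    exact h2

/-- The sum over `h` in `Psi`, with the factor `f 0` split off. -/
theorem A14_psi (X k : ℕ) (hk : 3 ≤ k) (f : ℕ → ℤ → ℂ) (hf : ∀ j, j < k → Bdd X (f j)) (n : ℤ) :
    Psi X k f n = ∑ h ∈ Ioo (-(6 * X : ℤ)) (6 * X),
      (∏ i : Fin (k - 1), f ((i : ℕ) + 1) (n - ((k : ℤ) - ((i : ℕ) + 1 : ℕ)) * h)) * f 0 (n - k * h) := by
  obtain ⟨r, rfl⟩ : ∃ r, k = r + 1 := ⟨k - 1, by omega⟩
  have h1 : ∀ h : ℤ, ∏ j ∈ range (r + 1), f j (n - (((r + 1 : ℕ) : ℤ) - j) * h) =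
      (∏ i : Fin (r + 1 - 1), f ((i : ℕ) + 1) (n - (((r + 1 : ℕ) : ℤ) - ((i : ℕ) + 1 : ℕ)) * h)) *
        f 0 (n - ((r + 1 : ℕ) : ℤ) * h) := by
    intro h
    rw [Finset.prod_range_succ', Nat.add_sub_cancel, Finset.prod_range]
    simp
  unfold Psi
  simp only [h1]
  refine Finset.sum_subset ?_ ?_
  · intro h hh
    rw [mem_Ioo] at hh ⊢
    omega
  · intro h _ hh2
    by_contra hne
    have hne0 : f 0 (n - ((r + 1 : ℕ) : ℤ) * h) ≠ 0 := fun h0 => hne (by rw [h0, mul_zero])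
    have hne1 : ∀ i : Fin (r + 1 - 1), f ((i : ℕ) + 1) (n - (((r + 1 : ℕ) : ℤ) - ((i : ℕ) + 1 : ℕ)) * h) ≠ 0 := by
      intro i h0
      apply hne
      rw [Finset.prod_eq_zero (mem_univ i) h0, zero_mul]
    have h3 := hne1 ⟨r - 1, by omega⟩
    have hr : 2 ≤ r := by omega
    have hb0 : n - ((r + 1 : ℕ) : ℤ) * h ∈ Ico (-(X : ℤ)) X := by
      by_contra hc
      exact hne0 ((hf 0 (by omega)).sup _ hc)
    have hb1 : n - (((r + 1 : ℕ) : ℤ) - ((r - 1 : ℕ) + 1 : ℕ)) * h ∈ Ico (-(X : ℤ)) X := by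
      by_contra hc
      exact h3 ((hf (r - 1 + 1) (by omega)).sup _ hc)
    rw [mem_Ico] at hb0 hb1
    apply hh2
    rw [mem_Ioo]
    have e1 : (((r - 1 : ℕ) + 1 : ℕ) : ℤ) = r := by
      have : r - 1 + 1 = r := by omega
      rw [this]
    rw [e1] at hb1
    push_cast at hb0 hb1
    have hr' : (2 : ℤ) ≤ r := by exact_mod_cast hr
    have e2 : n - ((r : ℤ) + 1 - r) * h - (n - ((r : ℤ) + 1) * h) = r * h := by ring
    have hh3 : -(2 * X : ℤ) < r * h ∧ (r : ℤ) * h < 2 * X := by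
      constructor <;> linarith [hb0.1, hb0.2, hb1.1, hb1.2]
    constructor
    · by_contra hcon
      push Not at hcon
      nlinarith [hh3.1, hh3.2]
    · by_contra hcon
      push Not at hcon
      nlinarith [hh3.1, hh3.2]

/-- `Psi` vanishes beyond `2 X`. -/
theorem A14_zero (X k : ℕ) (hk : 3 ≤ k) (f : ℕ → ℤ → ℂ) (hf : ∀ j, j < k → Bdd X (f j)) (n : ℤ) (hn : 2 * (X : ℤ) < n) :
    Psi X k f n = 0 := by
  unfold Psi
  refine Finset.sum_eq_zero fun h _ => ?_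
  by_contra hne
  replace hne := Finset.prod_ne_zero_iff.1 hne
  have h0 := hne 0 (by rw [mem_range]; omega)
  have h1 := hne (k - 1) (by rw [mem_range]; omega)
  have hb0 : n - ((k : ℤ) - (0 : ℕ)) * h ∈ Ico (-(X : ℤ)) X := by
    by_contra hc
    exact h0 ((hf 0 (by omega)).sup _ hc)
  have hb1 : n - ((k : ℤ) - (k - 1 : ℕ)) * h ∈ Ico (-(X : ℤ)) X := by
    by_contra hc
    exact h1 ((hf (k - 1) (by omega)).sup _ hc)
  rw [mem_Ico] at hb0 hb1
  have e1 : ((k - 1 : ℕ) : ℤ) = (k : ℤ) - 1 := by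
    have : 1 ≤ k := by omega
    push_cast [Nat.cast_sub this]
    ring
  rw [e1] at hb1
  push_cast at hb0
  have hk' : (3 : ℤ) ≤ k := by exact_mod_cast hk
  have e2 : (k : ℤ) * (n - (k - (k - 1)) * h) - (n - ((k : ℤ) - 0) * h) = (k - 1) * n := by ring
  have h3 : ((k : ℤ) - 1) * n < (k + 1) * X := by
    rw [← e2]
    have : (k : ℤ) * (n - (k - (k - 1)) * h) ≤ k * X := mul_le_mul_of_nonneg_left hb1.2.le (by omega)
    nlinarith [hb0.1, hb0.2]
  nlinarith [h3, hn]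

/-- The sum over `h` as a sum over the classes modulo `Λ`. -/
theorem A14_hsum (X k Λ : ℕ) (hk : 1 ≤ k) (hΛ : 1 ≤ Λ) (hkΛ : k ∣ Λ) (n : ℤ) (hn : 0 ≤ n) (hn' : n ≤ 4 * X) (G : ℤ → ℂ)
    (hG : ∀ y, y ∉ Ico (-(X : ℤ)) X → G y = 0) :
    ∑ h ∈ Ioo (-(6 * X : ℤ)) (6 * X), G (n - k * h) =
      ∑ ρ ∈ (range Λ).filter (fun ρ : ℕ => (k : ℤ) ∣ (ρ : ℤ) - n), ∑ x ∈ Ico (-(X : ℤ)) X, G (ρ + Λ * x) := by
  have hk0 : (0 : ℤ) < k := by exact_mod_cast hk
  have hΛ0 : (0 : ℤ) < Λ := by exact_mod_cast hΛ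
  have hL : ∑ h ∈ Ioo (-(6 * X : ℤ)) (6 * X), G (n - k * h) =
      ∑ y ∈ (Ico (-(X : ℤ)) X).filter (fun y => (k : ℤ) ∣ y - n), G y := by
    refine Finset.sum_bij_ne_zero (fun h _ _ => n - k * h) ?_ ?_ ?_ ?_
    · intro h _ hne
      rw [mem_filter]
      refine ⟨?_, ⟨-h, by ring⟩⟩
      by_contra hc
      exact hne (hG _ hc)
    · intro h1 _ _ h2 _ _ he
      have : (k : ℤ) * h1 = k * h2 := by linarith
      exact mul_left_cancel₀ hk0.ne' this
    · intro y hy hne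
      rw [mem_filter, mem_Ico] at hy
      obtain ⟨⟨hy1, hy2⟩, m, hm⟩ := hy
      have hX : (0 : ℤ) < X := by omega
      refine ⟨-m, ?_, ?_, by linarith⟩
      · rw [mem_Ioo]
        have hm1 : -(5 * X : ℤ) ≤ k * m := by rw [← hm]; linarith
        have hm2 : (k : ℤ) * m < X := by rw [← hm]; linarith
        have hk1 : (1 : ℤ) ≤ k := hk0
        constructor
        · by_contra hcon
          push Not at hcon
          nlinarith
        · by_contra hcon
          push Not at hcon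
          nlinarith
      · have e : n - k * -m = y := by linarith
        rw [e]
        exact hne
    · intro h _ _
      rfl
  rw [hL, ← Finset.sum_product']
  symm
  refine Finset.sum_bij_ne_zero (fun p _ _ => (p.1 : ℤ) + Λ * p.2) ?_ ?_ ?_ ?_
  · intro p hp hne
    rw [mem_product, mem_filter] at hp
    rw [mem_filter]
    refine ⟨?_, ?_⟩
    · by_contra hc
      exact hne (hG _ hc)
    · obtain ⟨c, hc⟩ := hkΛ
      obtain ⟨d, hd⟩ := hp.1.2
      refine ⟨d + c * p.2, ?_⟩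
      have : (p.1 : ℤ) + Λ * p.2 - n = (p.1 - n) + Λ * p.2 := by ring
      rw [this, hd, hc]
      push_cast
      ring
  · intro p hp _ q hq _ he
    rw [mem_product, mem_filter, mem_range] at hp hq
    have hp1 : (p.1 : ℤ) < Λ := by exact_mod_cast hp.1.1
    have hq1 : (q.1 : ℤ) < Λ := by exact_mod_cast hq.1.1
    have e1 : ((p.1 : ℤ) + Λ * p.2) % Λ = p.1 := by
      rw [Int.add_mul_emod_self_left]
      exact Int.emod_eq_of_lt (by positivity) hp1
    have e2 : ((q.1 : ℤ) + Λ * q.2) % Λ = q.1 := by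
      rw [Int.add_mul_emod_self_left]
      exact Int.emod_eq_of_lt (by positivity) hq1
    have h1 : (p.1 : ℤ) = q.1 := by
      rw [← e1, ← e2, he]
    have h2 : p.2 = q.2 := by
      have : (Λ : ℤ) * p.2 = Λ * q.2 := by linarith
      exact mul_left_cancel₀ hΛ0.ne' this
    exact Prod.ext (by exact_mod_cast h1) h2
  · intro y hy hne
    rw [mem_filter, mem_Ico] at hy
    obtain ⟨⟨hy1, hy2⟩, hd⟩ := hy
    have hX : (1 : ℤ) ≤ X := by omega
    have hm0 := Int.emod_nonneg y hΛ0.ne'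
    have hm1 := Int.emod_lt_of_pos y hΛ0
    have hdiv := Int.emod_add_mul_ediv y Λ
    have e0 : ((y % Λ).toNat : ℤ) = y % Λ := Int.toNat_of_nonneg hm0
    refine ⟨((y % Λ).toNat, y / Λ), ?_, ?_, ?_⟩
    · rw [mem_product, mem_filter, mem_range, mem_Ico]
      refine ⟨⟨?_, ?_⟩, ?_, ?_⟩
      · zify
        rw [e0]
        exact hm1
      · simp only
        rw [e0]
        obtain ⟨c, hc⟩ := hkΛ
        obtain ⟨d, hd⟩ := hd
        refine ⟨d - c * (y / Λ), ?_⟩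
        have h5 : y % (Λ : ℤ) = y - Λ * (y / Λ) := by linarith
        have h6 : y % (Λ : ℤ) - n = (y - n) - Λ * (y / Λ) := by linarith
        rw [h6, hd, hc]
        push_cast
        ring
      · simp only
        rw [Int.le_ediv_iff_mul_le hΛ0]
        nlinarith
      · simp only
        rw [Int.ediv_lt_iff_lt_mul hΛ0]
        nlinarith
    · simp only
      rw [e0, hdiv]
      exact hne
    · simp only
      rw [e0, hdiv]
  · intro p _ _
    rfl

end Pool.Agent.HUK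
end

-- from Lib.H9U.M2
section

/-!
# H9U, chunk M2 (S): the pointwise identities of H59P at arbitrary values
-/

open Finset

namespace Pool.Agent.H9U

open Pool.Agent.Lib.H68T (PC p0)
open Pool.Agent.Lib.H18Q (gk KS SG)
open Pool.Agent.Lib.H59P (Ch cj uu gl pr SF)

/-- Proof. `M2` (`H59P/M2.lean`) with `n := 0` and `h i := (m i).toNat`; `Ph` and `Wd` at `n = 0` are `PhV` and `WdV`. -/
theorem M2S {k : ℕ} (Q D R : ℕ) (hDQ : D ≤ Q) (hR : 0 < R) (p : Fin k → Ch) (hp : ∀ i, p i ∈ PC Q)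
    (hd : ∀ i, (p i).1 ∣ R) (m : Fin k → ℤ) (hm : ∀ i, 0 ≤ m i) :
    ∑ κ ∈ (Fintype.piFinset fun i => KS Q (p i).1).filter (fun κ => R.lcm (univ.lcm κ) ≤ D),
      ∏ i, gk (p i) (κ i) (m i) =
    PhV p R.primeFactors m * ∑ e ∈ SF (D / R) R, ((WdV e m : ℝ) : ℂ) := by
  have e : ∀ i, (0 : ℤ) + (((m i).toNat : ℕ) : ℤ) = m i := fun i => by rw [zero_add, Int.toNat_of_nonneg (hm i)]
  have h := Pool.Agent.Lib.H59P.M2 Q D R hDQ hR p hp hd (fun i => (m i).toNat) 0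
  unfold Pool.Agent.Lib.H59P.Ph Pool.Agent.Lib.H59P.Wd Pool.Agent.Lib.H59P.Wl at h
  simp only [e] at h
  exact h

/-- Proof. `Z1a` (`H59P/Z1A.lean`) with `n := 0` and `h i := (m i).toNat`. -/
theorem Z1S {k : ℕ} (Q : ℕ) (c : Fin k → Ch → ℂ) (m : Fin k → ℤ) (hm : ∀ i, 0 ≤ m i) :
    ∏ i, SG Q (c i) (m i) =
      ∑ p ∈ Fintype.piFinset fun _ : Fin k => PC Q, (∏ i, c i (p i)) *
        ∑ κ ∈ Fintype.piFinset fun i => KS Q (p i).1, ∏ i, gk (p i) (κ i) (m i) := by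
  have e : ∀ i, (0 : ℤ) + (((m i).toNat : ℕ) : ℤ) = m i := fun i => by rw [zero_add, Int.toNat_of_nonneg (hm i)]
  have h := Pool.Agent.Lib.H59P.Z1a Q c (fun i => (m i).toNat) 0
  simp only [e] at h
  exact h

end Pool.Agent.H9U
end

-- from Lib.H9U.U0A
section

/-!
# H9U, chunk U0A (S/M): the projection of small level as a sum over characters, and its size
-/

open Finset

namespace Pool.Agent.H9U

open Pool.Agent.H44W (ee)
open Pool.Agent.H9S (Bd lc Lc BF Sx Sy)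
open Pool.Agent.Lib.H68T (lp Lk PC p0 dQ)
open Pool.Agent.Lib.H18Q (gk KS Bc RegP SG)
open Pool.Agent.Lib.H59P (Ch)

/-- Proof. This is `hB` in the proof of `UL_expand` (`H59T/UL.lean`): `DA_expand Q' X (X / Q ^ 2) m` (regime as there), coefficients `Bc Q X p m`
(definition of `Bc`, window `X / Q ^ 2`). `SG Q' b m` is `∑ p ∈ PC Q', Gam Q' p.1 m * conj (χ m) * b p`. -/
theorem Lk_two : ∃ K : ℝ, 1 ≤ K ∧ ∀ Q Q' X : ℕ, RegP K Q X → 1 ≤ Q' → Q' ≤ Q → ∀ m : ℤ,
    (X : ℤ) ≤ m → m ≤ 4 * X → ((Lk Q' (X / Q ^ 2) m : ℝ) : ℂ) = SG Q' (fun p => Bc Q X p m) m := by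
  obtain ⟨K1, hK1, h1⟩ := Pool.Agent.Lib.H18Q.BPS_regimeP
  obtain ⟨K2, hK2, h2⟩ := Pool.Agent.Lib.H18Q.regp_pow_le 2 1 1 one_pos
  refine ⟨max K1 K2, hK1.trans (le_max_left _ _), fun Q Q' X hreg hQ'1 hQ'Q m hm hm4 => ?_⟩
  have hK0 : 0 ≤ max K1 K2 := by linarith [le_max_left K1 K2]
  obtain ⟨hQ, hX, hY, hYX, hXY, -⟩ := h1 Q X (hreg.mono hK0 (le_max_left _ _))
  have hlog := h2 Q X (hreg.mono hK0 (le_max_right _ _))
  rw [Real.rpow_one, Real.rpow_one] at hlog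
  have h3 : 2 * Q ≤ X := by exact_mod_cast hlog
  unfold SG Bc
  exact Pool.Agent.Lib.H68T.DA_expand Q' X (X / Q ^ 2) m hm hm4 (by omega) (by omega)

/-- Proof. As `BDL_bd` (`H9S/BDL.lean`): `Lk_two`, `S1b Q'` (`H59P/S1B.lean`) with the coefficients `Bc Q X p m`, `p ∈ PC Q' ⊆ PC Q`, bounded by
`mb p` (`UM_mass`, total at most `C`; the sum over the subset `PC Q'` is at most the sum over `PC Q`), `dQ Q' m ≤` number of divisors
(`BDL_dQ`), divisor bound, `m ≤ 4 X`, `Q' ≤ Q ≤ X` (`RegP`). -/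
theorem U0_size : ∃ K : ℝ, 1 ≤ K ∧ ∀ ε : ℝ, 0 < ε → ∃ X0 : ℕ, ∀ Q Q' X : ℕ, X0 ≤ X → RegP K Q X → 1 ≤ Q' →
    Q' ≤ Q → ∀ m : ℤ, (X : ℤ) ≤ m → m ≤ 4 * X → |Lk Q' (X / Q ^ 2) m| ≤ (X : ℝ) ^ ε := by
  obtain ⟨K1, C1, hK1, hC1, hmass⟩ := Pool.Agent.Lib.H59T.UM_mass
  obtain ⟨K2, hK2, hSG⟩ := Lk_two
  obtain ⟨K3, hK3, hpow⟩ := Pool.Agent.Lib.H18Q.regp_pow_le 1 1 1 one_pos
  refine ⟨max (max K1 K2) K3, hK1.trans ((le_max_left _ _).trans (le_max_left _ _)), fun ε hε => ?_⟩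
  obtain ⟨C, hC, hdiv⟩ := Pool.Agent.Lib.H21AP.divisor_bound (ε := ε / 2) (by positivity)
  obtain ⟨c3, hc3⟩ : ∃ c3 : ℝ, c3 = 100 * (1 + 12 / ε) ^ 3 * (C * 4 ^ (ε / 2)) * C1 := ⟨_, rfl⟩
  have ht1 : ∀ᶠ n : ℕ in Filter.atTop, c3 ≤ (n:ℝ) ^ (ε / 4) :=
    ((tendsto_rpow_atTop (by positivity : 0 < ε / 4)).comp tendsto_natCast_atTop_atTop).eventually_ge_atTop _
  obtain ⟨n1, hn1⟩ := Filter.eventually_atTop.1 ht1
  refine ⟨max n1 1, fun Q Q' X hX hreg hQ' hQQ m hm1 hm2 => ?_⟩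
  have hn1' := hn1 X (by omega)
  have hX1 : 1 ≤ X := by omega
  have hnp : (0:ℝ) < X := by exact_mod_cast hX1
  have hn1r : (1:ℝ) ≤ X := by exact_mod_cast hX1
  have hK0 : 0 ≤ max (max K1 K2) K3 := zero_le_one.trans (hK1.trans ((le_max_left _ _).trans (le_max_left _ _)))
  have hQX : Q ≤ X := by
    have h := hpow Q X (hreg.mono hK0 (le_max_right _ _))
    rw [Real.rpow_one, Real.rpow_one, one_mul] at h
    exact_mod_cast h
  obtain ⟨mb, hmb0, hmbs, hmb⟩ := hmass Q X (hreg.mono hK0 ((le_max_left _ _).trans (le_max_left _ _)))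
  have h1 := hSG Q Q' X (hreg.mono hK0 ((le_max_right _ _).trans (le_max_left _ _))) hQ' hQQ m hm1 hm2
  have hsub : PC Q' ⊆ PC Q := by
    intro p hp
    obtain ⟨a, b, c⟩ := Pool.Agent.Lib.H68T.mem_PC.1 hp
    exact Pool.Agent.Lib.H68T.mem_PC.2 ⟨a, b.trans hQQ, c⟩
  have h2 := Pool.Agent.Lib.H59P.S1b Q' hQ' (fun p => Bc Q X p m) mb (fun p hp => hmb m hm1 hm2 p (hsub hp)) m
  have hmbs' : ∑ p ∈ PC Q', mb p ≤ C1 :=
    (Finset.sum_le_sum_of_subset_of_nonneg hsub fun p hp _ => hmb0 p hp).trans hmbs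
  have hm1' : (1:ℤ) ≤ m := by omega
  have h3 : |Lk Q' (X / Q ^ 2) m| ≤ 100 * (1 + Real.log Q') ^ 3 * dQ Q' m * C1 := by
    rw [← Real.norm_eq_abs, ← Complex.norm_real, h1]
    refine h2.trans ?_
    refine mul_le_mul_of_nonneg_left hmbs' ?_
    have : 0 ≤ dQ Q' m := by unfold dQ; positivity
    have : 0 ≤ Real.log Q' := Real.log_natCast_nonneg Q'
    positivity
  refine h3.trans ?_
  have hlogQ0 : 0 ≤ Real.log Q' := Real.log_natCast_nonneg Q'
  have hdq0 : 0 ≤ dQ Q' m := by unfold dQ; positivity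
  have h4 : dQ Q' m ≤ (C * 4 ^ (ε / 2)) * (X:ℝ) ^ (ε / 2) := by
    refine (Pool.Agent.H9S.BDL_dQ Q' m hm1').trans ?_
    refine (hdiv m.toNat (by omega)).trans ?_
    rw [mul_assoc, ← Real.mul_rpow (by norm_num) hnp.le]
    refine mul_le_mul_of_nonneg_left ?_ hC.le
    refine Real.rpow_le_rpow (Nat.cast_nonneg _) ?_ (by positivity)
    have h5 : m.toNat ≤ 4 * X := by omega
    exact_mod_cast h5
  have h5 : (1 + Real.log Q') ^ 3 ≤ (1 + 12 / ε) ^ 3 * (X:ℝ) ^ (ε / 4) := by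
    have h6 : Real.log Q' ≤ Real.log X :=
      Real.log_le_log (by exact_mod_cast hQ') (by exact_mod_cast hQQ.trans hQX)
    have h7 : Real.log X ≤ (X:ℝ) ^ (ε / 12) / (ε / 12) := Real.log_le_rpow_div hnp.le (by positivity)
    have h8 : (X:ℝ) ^ (ε / 12) / (ε / 12) = 12 / ε * (X:ℝ) ^ (ε / 12) := by
      field_simp
    have h9 : (1:ℝ) ≤ (X:ℝ) ^ (ε / 12) := Real.one_le_rpow hn1r (by positivity)
    have h10 : 1 + Real.log Q' ≤ (1 + 12 / ε) * (X:ℝ) ^ (ε / 12) := by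
      rw [h8] at h7
      have : 0 < 12 / ε := by positivity
      nlinarith
    have h11 : ((X:ℝ) ^ (ε / 12)) ^ 3 = (X:ℝ) ^ (ε / 4) := by
      rw [← Real.rpow_natCast, ← Real.rpow_mul hnp.le]
      congr 1
      push_cast
      ring
    calc (1 + Real.log Q') ^ 3 ≤ ((1 + 12 / ε) * (X:ℝ) ^ (ε / 12)) ^ 3 := pow_le_pow_left₀ (by linarith) h10 3
      _ = (1 + 12 / ε) ^ 3 * (X:ℝ) ^ (ε / 4) := by rw [mul_pow, h11]
  have hC1' : 0 ≤ C1 := by linarith
  have hP0 : 0 ≤ (X:ℝ) ^ (ε / 2) := Real.rpow_nonneg hnp.le _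
  have hP1 : 0 ≤ (X:ℝ) ^ (ε / 4) := Real.rpow_nonneg hnp.le _
  calc 100 * (1 + Real.log Q') ^ 3 * dQ Q' m * C1
      ≤ 100 * ((1 + 12 / ε) ^ 3 * (X:ℝ) ^ (ε / 4)) * ((C * 4 ^ (ε / 2)) * (X:ℝ) ^ (ε / 2)) * C1 := by
        refine mul_le_mul_of_nonneg_right ?_ hC1'
        refine mul_le_mul (mul_le_mul_of_nonneg_left h5 (by norm_num)) h4 hdq0 (by positivity)
    _ = c3 * ((X:ℝ) ^ (ε / 4) * (X:ℝ) ^ (ε / 2)) := by rw [hc3]; ring
    _ ≤ (X:ℝ) ^ (ε / 4) * ((X:ℝ) ^ (ε / 4) * (X:ℝ) ^ (ε / 2)) :=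
        mul_le_mul_of_nonneg_right hn1' (mul_nonneg hP1 hP0)
    _ = (X:ℝ) ^ ε := by
        rw [← Real.rpow_add hnp, ← Real.rpow_add hnp]
        congr 1
        ring

/-- Proof. `lp m` is `0` or `log m`, `m ≤ 4X`. -/
theorem U0_lp (ε : ℝ) (hε : 0 < ε) : ∃ X0 : ℕ, ∀ X : ℕ, X0 ≤ X → ∀ m : ℤ, m ≤ 4 * X → |lp m| ≤ (X : ℝ) ^ ε := by
  have ht1 : ∀ᶠ n : ℕ in Filter.atTop, 4 ^ (ε / 2) / (ε / 2) ≤ (n:ℝ) ^ (ε / 2) :=
    ((tendsto_rpow_atTop (by positivity : 0 < ε / 2)).comp tendsto_natCast_atTop_atTop).eventually_ge_atTop _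
  obtain ⟨n1, hn1⟩ := Filter.eventually_atTop.1 ht1
  refine ⟨max n1 1, fun X hX m hm => ?_⟩
  have h1 := hn1 X (by omega)
  have hX1 : 1 ≤ X := by omega
  have hnp : (0:ℝ) < X := by exact_mod_cast hX1
  have hXe : 0 ≤ (X:ℝ) ^ ε := Real.rpow_nonneg hnp.le _
  unfold Pool.Agent.Lib.H68T.lp
  by_cases hp : m.toNat.Prime
  · rw [if_pos hp]
    have hm1 : 1 ≤ m.toNat := hp.one_le
    have hm2 : (1:ℤ) ≤ m := by omega
    have hmr : (1:ℝ) ≤ (m:ℝ) := by exact_mod_cast hm2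
    have hm4 : (m:ℝ) ≤ 4 * X := by exact_mod_cast hm
    rw [abs_of_nonneg (Real.log_nonneg hmr)]
    calc Real.log m ≤ Real.log (4 * X) := Real.log_le_log (by linarith) hm4
      _ ≤ (4 * (X:ℝ)) ^ (ε / 2) / (ε / 2) := Real.log_le_rpow_div (by positivity) (by positivity)
      _ = 4 ^ (ε / 2) / (ε / 2) * (X:ℝ) ^ (ε / 2) := by
          rw [Real.mul_rpow (by norm_num) hnp.le]
          ring
      _ ≤ (X:ℝ) ^ (ε / 2) * (X:ℝ) ^ (ε / 2) := mul_le_mul_of_nonneg_right h1 (Real.rpow_nonneg hnp.le _)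
      _ = (X:ℝ) ^ ε := by
          rw [← Real.rpow_add hnp]
          congr 1
          ring
  · rw [if_neg hp, abs_zero]
    exact hXe

end Pool.Agent.H9U
end

-- from Lib.H9U.U1B
section

/-!
# H9U, chunk U1B (S/M): cutoff of the kernel
-/

open Finset

namespace Pool.Agent.H9U

open Pool.Agent.H44W (ee)
open Pool.Agent.H9S (Bd BF Sx Sy)

/-- Proof. `x + y ∈ (X, 4X) ⊆ [0, M)` with `M = 4 X + 1` for `x ∈ Sx X`, `y ∈ Sy X`. Insert `U1A_ind M u v`; `ee(j (x+y)/M) = ee(j x/M) ee(j y/M)`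
(`ee_add`) is absorbed in `f` and `g` (still bounded by `1`). Triangle inequality. -/
theorem U1B_cut (X : ℕ) (F : ℤ → ℂ) (B : ℝ) (hF : ∀ W f g : ℤ → ℂ, Bd W → Bd f → Bd g → ‖BF (Sx X) (Sy X) F W f g‖ ≤ B)
    (u v : ℤ) (W f g : ℤ → ℂ) (hW : Bd W) (hf : Bd f) (hg : Bd g) :
    ‖BF (Sx X) (Sy X) (fun m => if u ≤ m ∧ m < v then F m else 0) W f g‖ ≤
      4 * (1 + Real.log ((4 * X + 1 : ℕ) : ℝ)) * B := by
  obtain ⟨c, hc1, hc2⟩ := U1A_ind (4 * X + 1) (by omega) u v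
  have hB0 : 0 ≤ B := le_trans (norm_nonneg _) (hF W f g hW hf hg)
  have key : BF (Sx X) (Sy X) (fun m => if u ≤ m ∧ m < v then F m else 0) W f g =
      ∑ j ∈ range (4 * X + 1), c j * BF (Sx X) (Sy X) F W (fun x => f x * ee ((j:ℝ) * x / ((4 * X + 1 : ℕ) : ℝ)))
        (fun y => g y * ee ((j:ℝ) * y / ((4 * X + 1 : ℕ) : ℝ))) := by
    simp only [BF, mul_sum]
    symm
    rw [sum_comm]
    refine sum_congr rfl fun x hx => ?_
    rw [sum_comm]
    refine sum_congr rfl fun y hy => ?_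
    symm
    rw [Sx, mem_Ico] at hx
    rw [Sy, mem_Ioo] at hy
    have h1 := hc1 (x + y) (by omega) (by push_cast; omega)
    have h2 : (if u ≤ x + y ∧ x + y < v then F (x + y) else 0) = F (x + y) * (if u ≤ x + y ∧ x + y < v then (1:ℂ) else 0) := by
      split_ifs <;> simp
    rw [h2, h1, mul_sum, mul_sum, sum_mul]
    refine sum_congr rfl fun j _ => ?_
    have h3 : ee ((j : ℝ) * ((x + y : ℤ) : ℝ) / ((4 * X + 1 : ℕ) : ℝ)) =
        ee ((j:ℝ) * x / ((4 * X + 1 : ℕ) : ℝ)) * ee ((j:ℝ) * y / ((4 * X + 1 : ℕ) : ℝ)) := by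
      rw [← Pool.Agent.H44W.ee_add]
      congr 1
      push_cast
      ring
    rw [h3]
    ring
  rw [key]
  refine le_trans (norm_sum_le _ _) ?_
  have h4 : ∀ j ∈ range (4 * X + 1), ‖c j * BF (Sx X) (Sy X) F W (fun x => f x * ee ((j:ℝ) * x / ((4 * X + 1 : ℕ) : ℝ)))
        (fun y => g y * ee ((j:ℝ) * y / ((4 * X + 1 : ℕ) : ℝ)))‖ ≤ ‖c j‖ * B := by
    intro j _
    rw [norm_mul]
    refine mul_le_mul_of_nonneg_left (hF _ _ _ hW ?_ ?_) (norm_nonneg _)
    · intro x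
      change ‖f x * _‖ ≤ 1
      rw [norm_mul, Pool.Agent.H44W.norm_ee, mul_one]
      exact hf x
    · intro y
      change ‖g y * _‖ ≤ 1
      rw [norm_mul, Pool.Agent.H44W.norm_ee, mul_one]
      exact hg y
  refine le_trans (sum_le_sum h4) ?_
  rw [← sum_mul]
  exact mul_le_mul_of_nonneg_right hc2 hB0

end Pool.Agent.H9U
end

-- from Lib.H9U.U2
section

/-!
# H9U, chunk U2 (M): parallelograms. The trick: on the parallelograms with `h - l = s` the form is the bilinear form `BF`.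
-/

open Finset

namespace Pool.Agent.H9U

open Pool.Agent.H44W (ee)
open Pool.Agent.H9S (Bd BF Sx Sy)

theorem u2_cut_ne {X : ℕ} {f : ℤ → ℂ} {m : ℤ} (h : cutJ X f m ≠ 0) : m ∈ JJ X := by
  by_contra h1
  exact h (if_neg h1)

theorem u2_cut_pos {X : ℕ} {f : ℤ → ℂ} {m : ℤ} (h : m ∈ JJ X) : cutJ X f m = f m := if_pos h

theorem u2_JJ {X : ℕ} {m : ℤ} (h : m ∈ JJ X) : 2 * (X : ℤ) ≤ m ∧ m < 2 * X + X / 4 := by
  unfold JJ at h
  rwa [Finset.mem_Ico] at h

theorem u2_Sx {X : ℕ} {m : ℤ} (h : m ∈ JJ X) : m ∈ Sx X := by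
  have h1 := u2_JJ h
  unfold Sx
  rw [Finset.mem_Ico]
  omega

theorem u2_bdcut {X : ℕ} {f : ℤ → ℂ} (hf : Bd f) (m : ℤ) : ‖cutJ X f m‖ ≤ 1 := by
  unfold cutJ
  split_ifs
  · exact hf m
  · simp

theorem u2_inner (X : ℕ) (F f1 f2 f3 : ℤ → ℂ) (w : ℂ) (l s : ℤ) :
    w * ∑ m ∈ JJ X, f1 m * cutJ X f2 (m + (l + s)) * cutJ X f3 (m + l) * cutJ X F (m + (l + s) + l) =
    ∑ x ∈ Sx X, (cutJ X f2 x * cutJ X f3 (x - s)) * w * cutJ X F (x + l) * cutJ X f1 (x - l - s) := by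
  rw [Finset.mul_sum]
  refine Finset.sum_bij_ne_zero (fun m _ _ => m + (l + s)) ?_ ?_ ?_ ?_
  · intro m hm h0
    apply u2_Sx
    apply u2_cut_ne (f := f2)
    intro h1
    exact h0 (by rw [h1]; ring)
  · intro a _ _ b _ _ hab
    have h1 : a + (l + s) = b + (l + s) := hab
    omega
  · intro x hx h0
    have h1 : x - l - s ∈ JJ X := by
      apply u2_cut_ne (f := f1)
      intro h1
      exact h0 (by rw [h1]; ring)
    refine ⟨x - l - s, h1, ?_, by ring⟩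
    intro h2
    apply h0
    rw [u2_cut_pos h1, ← h2]
    have e1 : x - l - s + (l + s) = x := by ring
    have e2 : x - l - s + l = x - s := by ring
    rw [e1, e2]
    ring
  · intro m hm h0
    have e1 : m + (l + s) - l - s = m := by ring
    have e2 : m + (l + s) - s = m + l := by ring
    rw [e1, e2, u2_cut_pos hm]
    ring

theorem u2_shift (X : ℕ) (F f1 f2 f3 : ℤ → ℂ) (W : ℤ → ℤ → ℂ) (l : ℤ) :
    ∑ h ∈ Sy X, W h l *
      ∑ m ∈ JJ X, f1 m * cutJ X f2 (m + h) * cutJ X f3 (m + l) * cutJ X F (m + h + l) =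
    ∑ s ∈ Sy X, (if l + s ∈ Sy X then W (l + s) l else 0) *
      ∑ m ∈ JJ X, f1 m * cutJ X f2 (m + (l + s)) * cutJ X f3 (m + l) * cutJ X F (m + (l + s) + l) := by
  refine Finset.sum_bij_ne_zero (fun h _ _ => h - l) ?_ ?_ ?_ ?_
  · intro h hh h0
    have h1 : ∑ m ∈ JJ X, f1 m * cutJ X f2 (m + h) * cutJ X f3 (m + l) * cutJ X F (m + h + l) ≠ 0 := by
      intro h2
      exact h0 (by rw [h2]; ring)
    obtain ⟨m, hm, hm0⟩ := Finset.exists_ne_zero_of_sum_ne_zero h1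
    have h2 : m + h ∈ JJ X := by
      apply u2_cut_ne (f := f2)
      intro h3
      exact hm0 (by rw [h3]; ring)
    have h3 : m + l ∈ JJ X := by
      apply u2_cut_ne (f := f3)
      intro h4
      exact hm0 (by rw [h4]; ring)
    have h4 := u2_JJ h2
    have h5 := u2_JJ h3
    show h - l ∈ Sy X
    unfold Sy
    rw [Finset.mem_Ioo]
    omega
  · intro a _ _ b _ _ hab
    have h1 : a - l = b - l := hab
    omega
  · intro s hs h0
    have h1 : l + s ∈ Sy X := by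
      by_contra h1
      exact h0 (by rw [if_neg h1]; ring)
    refine ⟨l + s, h1, ?_, by ring⟩
    rw [if_pos h1] at h0
    exact h0
  · intro h hh h0
    have e1 : l + (h - l) = h := by ring
    rw [e1, if_pos hh]

theorem u2_id (X : ℕ) (F : ℤ → ℂ) (W : ℤ → ℤ → ℂ) (f1 f2 f3 : ℤ → ℂ) :
    ∑ h ∈ Sy X, ∑ l ∈ Sy X, W h l *
      ∑ m ∈ JJ X, f1 m * cutJ X f2 (m + h) * cutJ X f3 (m + l) * cutJ X F (m + h + l) =
    ∑ s ∈ Sy X, BF (Sx X) (Sy X) (cutJ X F) (fun z => cutJ X f1 (z - s))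
      (fun x => cutJ X f2 x * cutJ X f3 (x - s)) (fun y => if y + s ∈ Sy X then W (y + s) y else 0) := by
  rw [Finset.sum_comm]
  rw [Finset.sum_congr rfl fun l _ => u2_shift X F f1 f2 f3 W l]
  rw [Finset.sum_comm]
  refine Finset.sum_congr rfl fun s _ => ?_
  unfold BF
  rw [Finset.sum_comm (s := Sx X)]
  refine Finset.sum_congr rfl fun l _ => ?_
  exact u2_inner X F f1 f2 f3 _ l s

theorem u2_num (κ : ℝ) (hκ : 0 < κ) : ∃ X0 : ℕ, ∀ X : ℕ, X0 ≤ X → 1 ≤ X ∧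
    8 * (1 + Real.log ((4 * X + 1 : ℕ) : ℝ)) ≤ (X : ℝ) ^ (κ / 2) := by
  have h1 : ∀ᶠ X : ℕ in Filter.atTop, 8 * (1 + 4 / κ * 5 ^ (κ / 4)) ≤ (X : ℝ) ^ (κ / 4) :=
    ((tendsto_rpow_atTop (by positivity : 0 < κ / 4)).comp
      tendsto_natCast_atTop_atTop).eventually_ge_atTop _
  obtain ⟨X0, hX0⟩ := Filter.eventually_atTop.1 (h1.and (Filter.eventually_ge_atTop 1))
  refine ⟨X0, fun X hX => ?_⟩
  obtain ⟨h2, h3⟩ := hX0 X hX
  refine ⟨h3, ?_⟩
  have hX1 : (1 : ℝ) ≤ X := by exact_mod_cast h3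
  have h4 : Real.log ((4 * X + 1 : ℕ) : ℝ) ≤ (5 * (X : ℝ)) ^ (κ / 4) / (κ / 4) := by
    have h5 : Real.log ((4 * X + 1 : ℕ) : ℝ) ≤ Real.log (5 * (X : ℝ)) := by
      apply Real.log_le_log (by positivity)
      push_cast
      linarith
    exact h5.trans (Real.log_le_rpow_div (by positivity) (by positivity))
  rw [Real.mul_rpow (by norm_num) (by positivity)] at h4
  have h6 : (1 : ℝ) ≤ (X : ℝ) ^ (κ / 4) := Real.one_le_rpow hX1 (by positivity)
  have h7 : (X : ℝ) ^ (κ / 2) = (X : ℝ) ^ (κ / 4) * (X : ℝ) ^ (κ / 4) := by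
    rw [← Real.rpow_add (by linarith)]
    congr 1
    ring
  have h8 : (5 : ℝ) ^ (κ / 4) * (X : ℝ) ^ (κ / 4) / (κ / 4) =
      4 / κ * 5 ^ (κ / 4) * (X : ℝ) ^ (κ / 4) := by
    field_simp
  rw [h8] at h4
  rw [h7]
  have h9 : 8 * (1 + Real.log ((4 * X + 1 : ℕ) : ℝ)) ≤
      8 * (1 + 4 / κ * 5 ^ (κ / 4)) * (X : ℝ) ^ (κ / 4) := by
    nlinarith
  exact h9.trans (mul_le_mul_of_nonneg_right h2 (by linarith))

/-- Proof. Put `s = h - l` (the terms with `s ∉ (-X, X)` vanish: `m + h` and `m + l` are both in `JJ X`, an interval of length `≤ X/4`). For fixed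
`s` substitute `x = m + h = m + l + s`, `y = l`: `x + y = m + h + l`, `x - y = m + s`. The terms are
`[cutJ f2 x * cutJ f3 (x - s)] * [W (y + s) y, if y + s ∈ (-X, X), else 0] * cutJ F (x + y) * [cutJ f1 (x - y - s)]`, summed over
`x ∈ Sx X` (`x ∈ JJ X ⊆ Sx X`, else the term is `0`), `y ∈ Sy X`: a value of `BF (Sx X) (Sy X) (cutJ X F)` at bounded functions.
`U1B_cut` with `u = 2X`, `v = 2X + X/4` (`cutJ X F m = if u ≤ m ∧ m < v then F m else 0`) and `Unif.bf`: each `s` contributes at most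
`4 (1 + log (4X+1)) X^(2-κ)`, and there are at most `2X` values of `s`. `X` large in terms of `κ`. -/
theorem U2_par (κ : ℝ) (hκ : 0 < κ) : ∃ X0 : ℕ, ∀ X : ℕ, X0 ≤ X → ∀ F : ℤ → ℂ, Unif X κ F →
    ∀ (W : ℤ → ℤ → ℂ) (f1 f2 f3 : ℤ → ℂ), (∀ h l, ‖W h l‖ ≤ 1) → Bd f1 → Bd f2 → Bd f3 →
    ‖∑ h ∈ Ioo (-(X : ℤ)) X, ∑ l ∈ Ioo (-(X : ℤ)) X, W h l *
      ∑ m ∈ JJ X, f1 m * cutJ X f2 (m + h) * cutJ X f3 (m + l) * cutJ X F (m + h + l)‖ ≤ (X : ℝ) ^ (3 - κ / 2) := by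
  obtain ⟨X0, hX0⟩ := u2_num κ hκ
  refine ⟨X0, fun X hX F hF W f1 f2 f3 hW h1 h2 h3 => ?_⟩
  obtain ⟨hX1, hnum⟩ := hX0 X hX
  have hXr : (1 : ℝ) ≤ X := by exact_mod_cast hX1
  have hid := u2_id X F W f1 f2 f3
  have hS : Sy X = Ioo (-(X : ℤ)) X := rfl
  rw [hS] at hid
  rw [hid]
  have hcut : cutJ X F = fun m => if 2 * (X : ℤ) ≤ m ∧ m < 2 * X + X / 4 then F m else 0 := by
    funext m
    unfold cutJ JJ
    simp only [Finset.mem_Ico]
  have hone : ∀ s : ℤ, ‖BF (Sx X) (Sy X) (cutJ X F) (fun z => cutJ X f1 (z - s))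
      (fun x => cutJ X f2 x * cutJ X f3 (x - s))
      (fun y => if y + s ∈ Ioo (-(X : ℤ)) X then W (y + s) y else 0)‖ ≤
      4 * (1 + Real.log ((4 * X + 1 : ℕ) : ℝ)) * (X : ℝ) ^ (2 - κ) := by
    intro s
    rw [hcut]
    apply U1B_cut X F _ hF.bf
    · intro z
      exact u2_bdcut h1 _
    · intro x
      rw [norm_mul]
      calc ‖cutJ X f2 x‖ * ‖cutJ X f3 (x - s)‖ ≤ 1 * 1 :=
            mul_le_mul (u2_bdcut h2 _) (u2_bdcut h3 _) (norm_nonneg _) zero_le_one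
        _ = 1 := one_mul 1
    · intro y
      show ‖if y + s ∈ Ioo (-(X : ℤ)) X then W (y + s) y else 0‖ ≤ 1
      split_ifs
      · exact hW _ _
      · simp
  have hcard : ((Ioo (-(X : ℤ)) X).card : ℝ) ≤ 2 * X := by
    rw [Int.card_Ioo]
    have h4 : ((X : ℤ) - -(X : ℤ) - 1).toNat ≤ 2 * X := by omega
    exact_mod_cast h4
  have hlog : 0 ≤ 1 + Real.log ((4 * X + 1 : ℕ) : ℝ) := by
    have h4 : 0 ≤ Real.log ((4 * X + 1 : ℕ) : ℝ) := Real.log_natCast_nonneg _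
    linarith
  have hp : 0 ≤ (X : ℝ) ^ (2 - κ) := by positivity
  calc ‖∑ s ∈ Ioo (-(X : ℤ)) X, BF (Sx X) (Sy X) (cutJ X F) (fun z => cutJ X f1 (z - s))
        (fun x => cutJ X f2 x * cutJ X f3 (x - s))
        (fun y => if y + s ∈ Ioo (-(X : ℤ)) X then W (y + s) y else 0)‖
      ≤ ∑ s ∈ Ioo (-(X : ℤ)) X, 4 * (1 + Real.log ((4 * X + 1 : ℕ) : ℝ)) * (X : ℝ) ^ (2 - κ) :=
        (norm_sum_le _ _).trans (Finset.sum_le_sum fun s _ => hone s)
    _ = ((Ioo (-(X : ℤ)) X).card : ℝ) * (4 * (1 + Real.log ((4 * X + 1 : ℕ) : ℝ)) * (X : ℝ) ^ (2 - κ)) := by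
        rw [Finset.sum_const, nsmul_eq_mul]
    _ ≤ (2 * X) * (4 * (1 + Real.log ((4 * X + 1 : ℕ) : ℝ)) * (X : ℝ) ^ (2 - κ)) := by
        apply mul_le_mul_of_nonneg_right hcard
        positivity
    _ = 8 * (1 + Real.log ((4 * X + 1 : ℕ) : ℝ)) * ((X : ℝ) * (X : ℝ) ^ (2 - κ)) := by ring
    _ ≤ (X : ℝ) ^ (κ / 2) * ((X : ℝ) * (X : ℝ) ^ (2 - κ)) := by
        apply mul_le_mul_of_nonneg_right hnum
        positivity
    _ = (X : ℝ) ^ (3 - κ / 2) := by
        have h5 : (X : ℝ) * (X : ℝ) ^ (2 - κ) = (X : ℝ) ^ (3 - κ) := by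
          nth_rewrite 1 [← Real.rpow_one (X : ℝ)]
          rw [← Real.rpow_add (by linarith)]
          congr 1
          ring
        rw [h5, ← Real.rpow_add (by linarith)]
        congr 1
        ring

end Pool.Agent.H9U
end

-- from Lib.H9U.U3
section

/-!
# H9U, chunk U3 (M): Fourier coefficients of `F(m) conj F(m+h)` on average over `h`; the `U³` norm
-/

open Finset

namespace Pool.Agent.H9U

open Pool.Agent.H44W (ee)
open Pool.Agent.H9S (Bd BF Sx Sy)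

theorem u3_mem {X : ℕ} {m : ℤ} (hm : m ∈ JJ X) : (X:ℤ) ≤ m ∧ m ≤ 4 * X ∧ 2 * (X:ℤ) ≤ m ∧ m < 2 * X + X / 4 := by
  unfold JJ at hm
  rw [mem_Ico] at hm
  have : (X:ℤ) / 4 ≤ X := by omega
  omega

/-- The sum over parallelograms, with the sizes. -/
theorem u3_par (κ : ℝ) (hκ : 0 < κ) : ∃ X0 : ℕ, ∀ X : ℕ, X0 ≤ X → ∀ F : ℤ → ℂ, Unif X κ F →
    ∀ W : ℤ → ℤ → ℂ, (∀ h l, ‖W h l‖ ≤ 1) →
    ‖∑ h ∈ Ioo (-(X : ℤ)) X, ∑ l ∈ Ioo (-(X : ℤ)) X, W h l *
      ∑ m ∈ JJ X, F m * (starRingEnd ℂ) (cutJ X F (m + h)) * (starRingEnd ℂ) (cutJ X F (m + l)) *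
        cutJ X F (m + h + l)‖ ≤ ((X : ℝ) ^ (κ / 100)) ^ 3 * (X : ℝ) ^ (3 - κ / 2) := by
  obtain ⟨X0, h0⟩ := U2_par κ hκ
  refine ⟨max X0 1, fun X hX F hF W hW => ?_⟩
  have hX1 : 1 ≤ X := by omega
  have hXp : (0:ℝ) < X := by exact_mod_cast hX1
  obtain ⟨B, hB⟩ : ∃ B : ℝ, B = (X:ℝ) ^ (κ / 100) := ⟨_, rfl⟩
  have hB0 : 0 < B := by rw [hB]; exact Real.rpow_pos_of_pos hXp _
  have hBc : (B:ℂ) ≠ 0 := by exact_mod_cast hB0.ne'
  rw [← hB]
  obtain ⟨f1, hf1⟩ : ∃ f1 : ℤ → ℂ, ∀ m, f1 m = if (X:ℤ) ≤ m ∧ m ≤ 4 * X then F m / B else 0 := ⟨_, fun _ => rfl⟩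
  obtain ⟨f2, hf2⟩ : ∃ f2 : ℤ → ℂ, ∀ m, f2 m = (starRingEnd ℂ) (f1 m) := ⟨_, fun _ => rfl⟩
  have hb1 : Bd f1 := by
    intro m
    rw [hf1]
    by_cases h : (X:ℤ) ≤ m ∧ m ≤ 4 * X
    · rw [if_pos h, norm_div, Complex.norm_real, Real.norm_of_nonneg hB0.le, div_le_one hB0, hB]
      exact hF.bd m h.1 h.2
    · rw [if_neg h, norm_zero]
      exact zero_le_one
  have hb2 : Bd f2 := by
    intro m
    rw [hf2, RCLike.norm_conj]
    exact hb1 m
  have hFm : ∀ m ∈ JJ X, F m = B * f1 m := by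
    intro m hm
    have h := u3_mem hm
    rw [hf1, if_pos ⟨h.1, h.2.1⟩]
    field_simp
  have hcm : ∀ m, (starRingEnd ℂ) (cutJ X F m) = B * cutJ X f2 m := by
    intro m
    unfold cutJ
    by_cases hm : m ∈ JJ X
    · rw [if_pos hm, if_pos hm, hFm m hm, map_mul, Complex.conj_ofReal, hf2]
    · rw [if_neg hm, if_neg hm, map_zero, mul_zero]
  have h1 := h0 X (by omega) F hF W f1 f2 f2 hW hb1 hb2 hb2
  have h2 : (∑ h ∈ Ioo (-(X : ℤ)) X, ∑ l ∈ Ioo (-(X : ℤ)) X, W h l *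
      ∑ m ∈ JJ X, F m * (starRingEnd ℂ) (cutJ X F (m + h)) * (starRingEnd ℂ) (cutJ X F (m + l)) *
        cutJ X F (m + h + l)) = ((B ^ 3 : ℝ) : ℂ) * ∑ h ∈ Ioo (-(X : ℤ)) X, ∑ l ∈ Ioo (-(X : ℤ)) X, W h l *
      ∑ m ∈ JJ X, f1 m * cutJ X f2 (m + h) * cutJ X f2 (m + l) * cutJ X F (m + h + l) := by
    rw [Finset.mul_sum]
    refine Finset.sum_congr rfl fun h _ => ?_
    rw [Finset.mul_sum]
    refine Finset.sum_congr rfl fun l _ => ?_
    rw [mul_left_comm, Finset.mul_sum (s := JJ X) (a := ((B ^ 3 : ℝ) : ℂ))]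
    congr 1
    refine Finset.sum_congr rfl fun m hm => ?_
    rw [hcm, hcm, hFm m hm]
    push_cast
    ring
  rw [h2, norm_mul, Complex.norm_real, Real.norm_of_nonneg (by positivity)]
  exact mul_le_mul_of_nonneg_left h1 (by positivity)



/-- The eighth power of the `U³` norm. Proof. `∑_{h,l} ‖S(h,l)‖²`, `S(h,l) = ∑_m F(m) conj F(m+h) conj F(m+l) F(m+h+l)` (cut off to `JJ X`) is
`∑_{h,l} W(h,l) B³ · (…)` with `W = conj S/‖S‖`-type weights: `‖S‖² ≤ X B⁴ ‖S‖`, `∑ ‖S(h,l)‖ ≤ B³ X^(3 - κ/2)` by `U2_par` (weights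
`W(h,l) = conj(S)/‖S‖`), `B = X^(κ/100)`. -/
theorem U3_norm (κ : ℝ) (hκ : 0 < κ) : ∃ X0 : ℕ, ∀ X : ℕ, X0 ≤ X → ∀ F : ℤ → ℂ, Unif X κ F →
    ∑ h ∈ Ioo (-(X : ℤ)) X, ∑ l ∈ Ioo (-(X : ℤ)) X, ‖∑ m ∈ JJ X, F m * (starRingEnd ℂ) (cutJ X F (m + h)) *
      (starRingEnd ℂ) (cutJ X F (m + l)) * cutJ X F (m + h + l)‖ ^ 2 ≤ (X : ℝ) ^ (4 - κ / 4) := by
  obtain ⟨X0, h0⟩ := u3_par κ hκ
  refine ⟨max X0 1, fun X hX F hF => ?_⟩
  have hX1 : 1 ≤ X := by omega
  have hXp : (0:ℝ) < X := by exact_mod_cast hX1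
  have hXr : (1:ℝ) ≤ X := by exact_mod_cast hX1
  obtain ⟨S, hS⟩ : ∃ S : ℤ → ℤ → ℂ, ∀ h l, S h l = ∑ m ∈ JJ X, F m * (starRingEnd ℂ) (cutJ X F (m + h)) *
      (starRingEnd ℂ) (cutJ X F (m + l)) * cutJ X F (m + h + l) := ⟨_, fun _ _ => rfl⟩
  obtain ⟨B, hB⟩ : ∃ B : ℝ, B = (X:ℝ) ^ (κ / 100) := ⟨_, rfl⟩
  have hB0 : 0 < B := by rw [hB]; exact Real.rpow_pos_of_pos hXp _
  have h1 := h0 X (by omega) F hF (fun h l => (starRingEnd ℂ) (S h l) / (‖S h l‖ : ℂ)) (fun h l => by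
    rw [norm_div, RCLike.norm_conj, Complex.norm_real, norm_norm]
    exact div_self_le_one _)
  rw [← hB] at h1
  have h2 : (∑ h ∈ Ioo (-(X : ℤ)) X, ∑ l ∈ Ioo (-(X : ℤ)) X,
      (starRingEnd ℂ) (S h l) / (‖S h l‖ : ℂ) * ∑ m ∈ JJ X, F m * (starRingEnd ℂ) (cutJ X F (m + h)) *
      (starRingEnd ℂ) (cutJ X F (m + l)) * cutJ X F (m + h + l)) =
      ((∑ h ∈ Ioo (-(X : ℤ)) X, ∑ l ∈ Ioo (-(X : ℤ)) X, ‖S h l‖ : ℝ) : ℂ) := by
    push_cast
    refine Finset.sum_congr rfl fun h _ => Finset.sum_congr rfl fun l _ => ?_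
    rw [← hS]
    by_cases h3 : S h l = 0
    · rw [h3, norm_zero]
      simp
    · have h4 : (‖S h l‖ : ℂ) ≠ 0 := by
        exact_mod_cast (norm_ne_zero_iff.2 h3)
      rw [div_mul_eq_mul_div, div_eq_iff h4, mul_comm ((starRingEnd ℂ) (S h l)), Complex.mul_conj,
        Complex.normSq_eq_norm_sq]
      push_cast
      ring
  have h3 : ∑ h ∈ Ioo (-(X : ℤ)) X, ∑ l ∈ Ioo (-(X : ℤ)) X, ‖S h l‖ ≤ B ^ 3 * (X : ℝ) ^ (3 - κ / 2) := by
    refine le_trans (le_of_eq ?_) h1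
    rw [h2, Complex.norm_real, Real.norm_of_nonneg
      (Finset.sum_nonneg fun _ _ => Finset.sum_nonneg fun _ _ => norm_nonneg _)]
  have hcB : ∀ m, ‖cutJ X F m‖ ≤ B := by
    intro m
    unfold cutJ
    by_cases hm : m ∈ JJ X
    · rw [if_pos hm, hB]
      have := u3_mem hm
      exact hF.bd m this.1 this.2.1
    · rw [if_neg hm, norm_zero]
      exact hB0.le
  have h4 : ∀ h l, ‖S h l‖ ≤ X * B ^ 4 := by
    intro h l
    rw [hS]
    have hcard : ((JJ X).card : ℝ) ≤ X := by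
      unfold JJ
      rw [Int.card_Ico]
      have : (2 * (X:ℤ) + X / 4 - 2 * X).toNat ≤ X := by omega
      exact_mod_cast this
    refine (norm_sum_le_of_le _ (fun m hm => ?_) : _ ≤ ∑ m ∈ JJ X, B ^ 4).trans ?_
    · have hm' := u3_mem hm
      rw [norm_mul, norm_mul, norm_mul, RCLike.norm_conj, RCLike.norm_conj]
      have e1 : ‖F m‖ ≤ B := by rw [hB]; exact hF.bd m hm'.1 hm'.2.1
      calc ‖F m‖ * ‖cutJ X F (m + h)‖ * ‖cutJ X F (m + l)‖ * ‖cutJ X F (m + h + l)‖ ≤ B * B * B * B := by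
            gcongr
            · exact hcB _
            · exact hcB _
            · exact hcB _
        _ = B ^ 4 := by ring
    · rw [Finset.sum_const, nsmul_eq_mul]
      exact mul_le_mul_of_nonneg_right hcard (by positivity)
  calc ∑ h ∈ Ioo (-(X : ℤ)) X, ∑ l ∈ Ioo (-(X : ℤ)) X, ‖∑ m ∈ JJ X, F m * (starRingEnd ℂ) (cutJ X F (m + h)) *
      (starRingEnd ℂ) (cutJ X F (m + l)) * cutJ X F (m + h + l)‖ ^ 2
      ≤ ∑ h ∈ Ioo (-(X : ℤ)) X, ∑ l ∈ Ioo (-(X : ℤ)) X, (X * B ^ 4) * ‖S h l‖ := by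
        refine Finset.sum_le_sum fun h _ => Finset.sum_le_sum fun l _ => ?_
        rw [← hS, sq]
        exact mul_le_mul_of_nonneg_right (h4 h l) (norm_nonneg _)
    _ = (X * B ^ 4) * ∑ h ∈ Ioo (-(X : ℤ)) X, ∑ l ∈ Ioo (-(X : ℤ)) X, ‖S h l‖ := by
        rw [Finset.mul_sum]
        refine Finset.sum_congr rfl fun h _ => ?_
        rw [Finset.mul_sum]
    _ ≤ (X * B ^ 4) * (B ^ 3 * (X : ℝ) ^ (3 - κ / 2)) := mul_le_mul_of_nonneg_left h3 (by positivity)
    _ = (X:ℝ) ^ (4 - κ / 2 + 7 * κ / 100) := by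
        have e1 : (X * B ^ 4) * (B ^ 3 * (X : ℝ) ^ (3 - κ / 2)) = X * (B ^ 7 * (X : ℝ) ^ (3 - κ / 2)) := by ring
        rw [e1, hB, ← Real.rpow_natCast, ← Real.rpow_mul hXp.le, ← Real.rpow_add hXp]
        nth_rewrite 1 [← Real.rpow_one (X:ℝ)]
        rw [← Real.rpow_add hXp]
        congr 1
        push_cast
        ring
    _ ≤ (X:ℝ) ^ (4 - κ / 4) := Real.rpow_le_rpow_of_exponent_le hXr (by linarith)

end Pool.Agent.H9U
end

-- from Lib.H9U.U6
section

/-!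
# H9U, chunk U6 (M/L): the generalised von Neumann inequality for systems
-/

open Finset

namespace Pool.Agent.H9U

open Pool.Agent.H44W (ee)
open Pool.Agent.H9S (Bd BF Sx Sy)
open Pool.Agent.Lib.H59P (bx)


theorem u6_range {L : ℕ} (g : ℤ → ℂ) : ∑ n ∈ range L, g (n : ℤ) = ∑ n ∈ Ico (0 : ℤ) L, g n := by
  refine Finset.sum_nbij' (fun n => (n : ℤ)) (fun n => n.toNat) ?_ ?_ ?_ ?_ ?_
  · intro n hn
    have := Finset.mem_range.1 hn
    rw [Finset.mem_Ico]
    omega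
  · intro n hn
    rw [Finset.mem_Ico] at hn
    rw [Finset.mem_range]
    omega
  · intro n _
    exact Int.toNat_natCast n
  · intro n hn
    rw [Finset.mem_Ico] at hn
    exact Int.toNat_of_nonneg hn.1
  · intro n _
    rfl

theorem u6_box {d T L : ℕ} (g : ℤ × (Fin d → ℤ) → ℂ) :
    ∑ t ∈ bx d T, ∑ n ∈ range L, g ((n : ℤ), iv t) =
      ∑ p ∈ (Ico (0 : ℤ) L) ×ˢ (Fintype.piFinset fun _ : Fin d => Ico (0 : ℤ) T), g p := by
  rw [Finset.sum_product_right]
  refine Finset.sum_nbij' (fun t => iv t) (fun t j => (t j).toNat) ?_ ?_ ?_ ?_ ?_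
  · intro t ht
    rw [bx, Fintype.mem_piFinset] at ht
    rw [Fintype.mem_piFinset]
    intro j
    have := Finset.mem_range.1 (ht j)
    rw [Finset.mem_Ico, iv]
    omega
  · intro t ht
    rw [Fintype.mem_piFinset] at ht
    rw [bx, Fintype.mem_piFinset]
    intro j
    have := Finset.mem_Ico.1 (ht j)
    rw [Finset.mem_range]
    omega
  · intro t _
    funext j
    exact Int.toNat_natCast (t j)
  · intro t ht
    rw [Fintype.mem_piFinset] at ht
    funext j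
    have := Finset.mem_Ico.1 (ht j)
    exact Int.toNat_of_nonneg this.1
  · intro t _
    exact u6_range (fun n => g (n, iv t))


theorem u6_abs {x X : ℕ} (hx : x < X) (s : ℤ) (c : ℕ) (hc : s.natAbs ≤ c) : |s * (x : ℤ)| ≤ (c : ℤ) * X := by
  rw [abs_mul, Int.abs_eq_natAbs, Int.abs_eq_natAbs, Int.natAbs_natCast]
  have h1 : s.natAbs * x ≤ c * X := Nat.mul_le_mul hc hx.le
  exact_mod_cast h1




end Pool.Agent.H9U
end

-- from Lib.H9U.M3
section

/-!
# H9U, chunk M3 (M): the mean of the main term modulo `R e`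
-/

open Finset

namespace Pool.Agent.H9U

open Pool.Agent.Lib.H68T (PC p0)
open Pool.Agent.Lib.H59P (Ch cj uu gl pr SF)

variable {k d : ℕ} (S : Sys k d) (b : Fin k → ℤ) (t : Fin d → ℤ)

theorem m3_val (n N : ℤ) (i : Fin k) : S.val b (n + N) t i = S.val b n t i + S.a i * N := by
  unfold Sys.val Sys.lin
  ring

/-- Proof. `val (n + N) i = val n i + a_i N`; `gl_per` (`H59P/M3A.lean`), `l ∣ P`. -/
theorem M3S_W (l P : ℕ) (hlP : l ∣ P) (n : ℤ) :
    WlV l (fun i => S.val b (n + P) t i) = WlV l (fun i => S.val b n t i) := by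
  obtain ⟨c, rfl⟩ := hlP
  unfold WlV
  congr 1
  apply Finset.prod_congr rfl
  intro i _
  have h1 : S.val b (n + ((l * c : ℕ) : ℤ)) t i = S.val b n t i + (S.a i * c) * l := by
    rw [m3_val]; push_cast; ring
  beta_reduce
  rw [h1, Pool.Agent.Lib.H59P.gl_per]

theorem m3_uu (R : ℕ) (m j : ℤ) : uu R.primeFactors (m + j * R) = uu R.primeFactors m := by
  unfold uu
  apply Finset.prod_congr rfl
  intro l hl
  obtain ⟨c, hc⟩ := Nat.dvd_of_mem_primeFactors hl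
  have h1 : m + j * (R : ℤ) = m + (j * c) * l := by
    rw [show (R : ℤ) = ((l * c : ℕ) : ℤ) from by rw [← hc]]
    push_cast; ring
  rw [h1, Pool.Agent.Lib.H59P.gl_per]

theorem m3_cj (p : Ch) (R : ℕ) (hd : p.1 ∣ R) (m j : ℤ) : cj p (m + j * R) = cj p m := by
  unfold cj
  have h1 : (((m + j * (R : ℤ) : ℤ)) : ZMod p.1) = (m : ZMod p.1) := by
    push_cast
    rw [(ZMod.natCast_eq_zero_iff R p.1).2 hd, mul_zero, add_zero]
  rw [h1]

/-- Proof. As `M3f_per` (`H59P/M3F.lean`): `cj (p i)` has period `(p i).1 ∣ R`, `uu R.primeFactors` has period `R`. -/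
theorem M3S_P (p : Fin k → Ch) (R : ℕ) (hd : ∀ i, (p i).1 ∣ R) (n : ℤ) :
    PhV p R.primeFactors (fun i => S.val b (n + R) t i) = PhV p R.primeFactors (fun i => S.val b n t i) := by
  unfold PhV
  apply Finset.prod_congr rfl
  intro i _
  beta_reduce
  rw [m3_val, m3_uu, m3_cj (p i) R (hd i)]

theorem m3_per_prod (T : Finset ℕ) (P : ℕ) (hP : ∀ l ∈ T, l ∣ P) (n : ℤ) :
    ∏ l ∈ T, WlV l (fun i => S.val b (n + P) t i) = ∏ l ∈ T, WlV l (fun i => S.val b n t i) :=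
  Finset.prod_congr rfl fun l hl => M3S_W S b t l P (hP l hl) n

theorem m3_prime (l : ℕ) (hl : l.Prime) :
    ∑ n ∈ range l, WlV l (fun i => S.val b n t i) = l * tpS S b t l := by
  have hl0 : (l : ℝ) ≠ 0 := by exact_mod_cast hl.pos.ne'
  unfold tpS WlV
  rw [Finset.sum_sub_distrib, Finset.sum_const, Finset.card_range, nsmul_eq_mul, mul_one]
  field_simp

theorem m3_set (T : Finset ℕ) : (∀ l ∈ T, l.Prime) →
    ∑ n ∈ range (∏ l ∈ T, l), ∏ l ∈ T, WlV l (fun i => S.val b n t i) = ((∏ l ∈ T, l : ℕ) : ℝ) * ∏ l ∈ T, tpS S b t l := by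
  induction T using Finset.induction_on with
  | empty => intro _; simp
  | insert a s ha ih =>
    intro hS
    have hap : a.Prime := hS a (Finset.mem_insert_self _ _)
    have hs : ∀ l ∈ s, l.Prime := fun l hl => hS l (Finset.mem_insert_of_mem hl)
    have hcop : Nat.Coprime a (∏ l ∈ s, l) := by
      apply Nat.Coprime.prod_right
      intro l hl
      rw [Nat.coprime_primes hap (hs l hl)]
      rintro rfl
      exact ha hl
    have hpos : 0 < ∏ l ∈ s, l := Finset.prod_pos fun l hl => (hs l hl).pos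
    have key := Pool.Agent.Lib.H59P.M3d (fun n => ((WlV a (fun i => S.val b n t i) : ℝ) : ℂ))
      (fun n => ((∏ l ∈ s, WlV l (fun i => S.val b n t i) : ℝ) : ℂ)) a
      (∏ l ∈ s, l) hap.pos hpos hcop
      (fun m => by
        show ((WlV a (fun i => S.val b (m + a) t i) : ℝ) : ℂ) = ((WlV a (fun i => S.val b m t i) : ℝ) : ℂ)
        rw [M3S_W S b t a a dvd_rfl m])
      (fun m => by
        show ((∏ l ∈ s, WlV l (fun i => S.val b (m + ((∏ l ∈ s, l : ℕ) : ℤ)) t i) : ℝ) : ℂ) = ((∏ l ∈ s, WlV l (fun i => S.val b m t i) : ℝ) : ℂ)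
        rw [m3_per_prod S b t s _ (fun l hl => Finset.dvd_prod_of_mem _ hl) m])
    have key' : ∑ n ∈ range (a * ∏ l ∈ s, l), WlV a (fun i => S.val b n t i) * ∏ l ∈ s, WlV l (fun i => S.val b n t i) =
        (∑ n ∈ range a, WlV a (fun i => S.val b n t i)) * ∑ n ∈ range (∏ l ∈ s, l), ∏ l ∈ s, WlV l (fun i => S.val b n t i) := by
      have : ((∑ n ∈ range (a * ∏ l ∈ s, l), WlV a (fun i => S.val b n t i) * ∏ l ∈ s, WlV l (fun i => S.val b n t i) : ℝ) : ℂ) =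
          (((∑ n ∈ range a, WlV a (fun i => S.val b n t i)) * ∑ n ∈ range (∏ l ∈ s, l), ∏ l ∈ s, WlV l (fun i => S.val b n t i) : ℝ) : ℂ) := by
        rw [Complex.ofReal_sum, Complex.ofReal_mul, Complex.ofReal_sum, Complex.ofReal_sum]
        rw [← key]
        apply Finset.sum_congr rfl
        intro n _
        rw [Complex.ofReal_mul]
      exact_mod_cast this
    rw [Finset.prod_insert ha, Finset.prod_insert ha]
    have e1 : ∑ n ∈ range (a * ∏ l ∈ s, l), ∏ l ∈ insert a s, WlV l (fun i => S.val b n t i) =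
        ∑ n ∈ range (a * ∏ l ∈ s, l), WlV a (fun i => S.val b n t i) * ∏ l ∈ s, WlV l (fun i => S.val b n t i) := by
      apply Finset.sum_congr rfl
      intro n _
      rw [Finset.prod_insert ha]
    rw [e1, key', ih hs, m3_prime S b t a hap, Nat.cast_mul]
    ring

/-- Proof. As `M3e` (`H59P/M3E.lean`): induction over the prime factors with `M3d`. -/
theorem M3S_e (e : ℕ) (he : Squarefree e) :
    ∑ n ∈ range e, WdV e (fun i => S.val b n t i) = e * tdS S b t e := by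
  have h1 := m3_set S b t e.primeFactors (fun l hl => Nat.prime_of_mem_primeFactors hl)
  rw [Nat.prod_primeFactors_of_squarefree he] at h1
  exact h1

theorem m3_Ph (p : Fin k → Ch) (R : ℕ) (hR : 0 < R) (m : Fin k → ℤ) :
    ‖PhV p R.primeFactors m‖ ≤ ((R : ℝ) / (Nat.totient R : ℝ)) ^ k := by
  have h2 : ‖PhV p R.primeFactors m‖ ≤ ∏ _i : Fin k, ((R : ℝ) / (Nat.totient R : ℝ)) := by
    unfold PhV
    rw [norm_prod]
    apply Finset.prod_le_prod (fun i _ => norm_nonneg _)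
    intro i _
    have h0 := Pool.Agent.Lib.H59P.M3a_uu R hR (m i)
    rw [norm_mul, Complex.norm_real, Real.norm_of_nonneg h0.1]
    have h1 : ‖cj (p i) (m i)‖ ≤ 1 := by
      unfold cj
      rw [RCLike.norm_conj]
      exact DirichletCharacter.norm_le_one _ _
    calc ‖cj (p i) (m i)‖ * uu R.primeFactors (m i) ≤ 1 * uu R.primeFactors (m i) :=
          mul_le_mul_of_nonneg_right h1 h0.1
      _ = uu R.primeFactors (m i) := one_mul _
      _ ≤ _ := h0.2
  rwa [Finset.prod_const, Finset.card_univ, Fintype.card_fin] at h2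

theorem m3_W (l : ℕ) (hl : l.Prime) (m : Fin k → ℤ) :
    |WlV l m| ≤ ((l : ℝ) / ((l : ℝ) - 1)) ^ k := by
  have hc : (1 : ℝ) ≤ ((l : ℝ) / ((l : ℝ) - 1)) ^ k := one_le_pow₀ (Pool.Agent.Lib.H59P.M3a_ratio l hl)
  have h1 : 0 ≤ ∏ i, (1 + gl l (m i)) := Finset.prod_nonneg fun i _ => (Pool.Agent.Lib.H59P.M3a_gl l hl _).1
  have h2 : ∏ i, (1 + gl l (m i)) ≤ ((l : ℝ) / ((l : ℝ) - 1)) ^ k := by
    calc ∏ i, (1 + gl l (m i)) ≤ ∏ _i : Fin k, ((l : ℝ) / ((l : ℝ) - 1)) :=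
          Finset.prod_le_prod (fun i _ => (Pool.Agent.Lib.H59P.M3a_gl l hl _).1) (fun i _ => (Pool.Agent.Lib.H59P.M3a_gl l hl _).2)
      _ = ((l : ℝ) / ((l : ℝ) - 1)) ^ k := by
          rw [Finset.prod_const, Finset.card_univ, Fintype.card_fin]
  unfold WlV
  rw [abs_le]
  constructor <;> linarith

theorem m3_tp (l : ℕ) (hl : l.Prime) : |tpS S b t l| ≤ ((l : ℝ) / ((l : ℝ) - 1)) ^ k := by
  have hl0 : (0 : ℝ) < l := by exact_mod_cast hl.pos
  have h1 := m3_prime S b t l hl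
  have h2 : |(l:ℝ) * tpS S b t l| ≤ l * ((l : ℝ) / ((l : ℝ) - 1)) ^ k := by
    rw [← h1]
    refine le_trans (Finset.abs_sum_le_sum_abs _ _) ?_
    refine le_trans (Finset.sum_le_sum fun n _ => m3_W l hl _) ?_
    rw [Finset.sum_const, Finset.card_range, nsmul_eq_mul]
  rw [abs_mul, abs_of_pos hl0] at h2
  exact le_of_mul_le_mul_left h2 hl0

/-- Proof. Bounds as `M3a_Ph`, `M3a_uu`, `M3a_td` (`H59P/M3A.lean`): `‖PhV p R.primeFactors m‖ ≤ (R/φ(R))^k`, `|WdV e m| ≤ (e/φ(e))^k`,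
`|tdS e| ≤ (e/φ(e))^k` for squarefree `e`, `‖MRS‖ ≤ (R/φ(R))^k`. -/
theorem M3S_bd (p : Fin k → Ch) (R e : ℕ) (hR : 0 < R) (he : Squarefree e) (m : Fin k → ℤ) :
    ‖PhV p R.primeFactors m‖ ≤ ((R : ℝ) / (Nat.totient R : ℝ)) ^ k ∧
    |WdV e m| ≤ ((e : ℝ) / (Nat.totient e : ℝ)) ^ k ∧ |tdS S b t e| ≤ ((e : ℝ) / (Nat.totient e : ℝ)) ^ k ∧
    ‖MRS S b t p R‖ ≤ ((R : ℝ) / (Nat.totient R : ℝ)) ^ k := by
  have he0 : 0 < e := Nat.pos_of_ne_zero he.ne_zero
  refine ⟨m3_Ph p R hR m, ?_, ?_, ?_⟩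
  · rw [← Pool.Agent.Lib.H59P.M3a_prod e he0, ← Finset.prod_pow]
    unfold WdV
    rw [Finset.abs_prod]
    exact Finset.prod_le_prod (fun l _ => abs_nonneg _)
      (fun l hl => m3_W l (Nat.prime_of_mem_primeFactors hl) m)
  · rw [← Pool.Agent.Lib.H59P.M3a_prod e he0, ← Finset.prod_pow]
    unfold tdS
    rw [Finset.abs_prod]
    exact Finset.prod_le_prod (fun l _ => abs_nonneg _)
      (fun l hl => m3_tp S b t l (Nat.prime_of_mem_primeFactors hl))
  · unfold MRS mn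
    rw [norm_div, Complex.norm_natCast, div_le_iff₀ (by exact_mod_cast hR)]
    refine le_trans (norm_sum_le _ _) ?_
    refine le_trans (Finset.sum_le_sum fun n _ => m3_Ph p R hR _) ?_
    rw [Finset.sum_const, Finset.card_range, nsmul_eq_mul, mul_comm]

/-- Proof. As `M3f` (`H59P/M3F.lean`): the summand has period `R e`, is bounded by the product of the bounds `M3S_bd` and has mean
`MRS * tdS e` (`M3d`, coprime moduli, `M3S_e`); `M3c`. -/
theorem M3S (p : Fin k → Ch) (R e : ℕ) (hR : 0 < R) (hd : ∀ i, (p i).1 ∣ R) (hsq : Squarefree e)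
    (hc : Nat.Coprime e R) (a H : ℕ) :
    ‖∑ n ∈ Ico a (a + H), PhV p R.primeFactors (fun i => S.val b n t i) * ((WdV e (fun i => S.val b n t i) : ℝ) : ℂ) -
      H * (MRS S b t p R * ((tdS S b t e : ℝ) : ℂ))‖ ≤
      2 * (R * e) * (((R : ℝ) / (Nat.totient R : ℝ)) * ((e : ℝ) / (Nat.totient e : ℝ))) ^ k := by
  have he0 : 0 < e := Nat.pos_of_ne_zero hsq.ne_zero
  set f : ℤ → ℂ := fun n => PhV p R.primeFactors (fun i => S.val b n t i) with hf
  set g : ℤ → ℂ := fun n => ((WdV e (fun i => S.val b n t i) : ℝ) : ℂ) with hg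
  have hfper : ∀ m, f (m + R) = f m := fun m => M3S_P S b t p R hd m
  have hgper : ∀ m, g (m + e) = g m := by
    intro m
    show ((WdV e (fun i => S.val b (m + e) t i) : ℝ) : ℂ) = ((WdV e (fun i => S.val b m t i) : ℝ) : ℂ)
    have : WdV e (fun i => S.val b (m + e) t i) = WdV e (fun i => S.val b m t i) :=
      m3_per_prod S b t e.primeFactors e (fun l hl => Nat.dvd_of_mem_primeFactors hl) m
    rw [this]
  have hfgper : ∀ m : ℤ, f (m + ((R * e : ℕ) : ℤ)) * g (m + ((R * e : ℕ) : ℤ)) = f m * g m := by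
    intro m
    have e1 : f (m + ((R * e : ℕ) : ℤ)) = f m := by
      have := Pool.Agent.Lib.H59P.m3c_per f R hfper e m
      rw [← this]
      congr 1
      push_cast
      ring
    have e2 : g (m + ((R * e : ℕ) : ℤ)) = g m := by
      have := Pool.Agent.Lib.H59P.m3c_per g e hgper R m
      rw [← this]
      congr 1
    rw [e1, e2]
  have hbd : ∀ m : ℤ, ‖f m * g m‖ ≤
      (((R : ℝ) / (Nat.totient R : ℝ)) * ((e : ℝ) / (Nat.totient e : ℝ))) ^ k := by
    intro m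
    have hb := M3S_bd S b t p R e hR hsq (fun i => S.val b m t i)
    rw [norm_mul, mul_pow]
    apply mul_le_mul
    · exact hb.1
    · show ‖((WdV e (fun i => S.val b m t i) : ℝ) : ℂ)‖ ≤ _
      rw [Complex.norm_real, Real.norm_eq_abs]
      exact hb.2.1
    · exact norm_nonneg _
    · positivity
  have key := Pool.Agent.Lib.H59P.M3c (fun m => f m * g m) (R * e) (Nat.mul_pos hR he0) hfgper _ hbd a H
  have hprod : ∑ n ∈ range (R * e), f n * g n = (∑ n ∈ range R, f n) * ∑ n ∈ range e, g n :=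
    Pool.Agent.Lib.H59P.M3d f g R e hR he0 hc.symm hfper hgper
  have hgsum : ∑ n ∈ range e, g n = e * ((tdS S b t e : ℝ) : ℂ) := by
    have := M3S_e S b t e hsq
    have h2 : ((∑ n ∈ range e, WdV e (fun i => S.val b n t i) : ℝ) : ℂ) = ((e * tdS S b t e : ℝ) : ℂ) := by rw [this]
    rw [Complex.ofReal_sum] at h2
    rw [show ∑ n ∈ range e, g n = ∑ n ∈ range e, ((WdV e (fun i => S.val b (n : ℤ) t i) : ℝ) : ℂ) from rfl, h2]
    push_cast
    rfl
  have hRc : (R : ℂ) ≠ 0 := by exact_mod_cast hR.ne'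
  have hec : (e : ℂ) ≠ 0 := by exact_mod_cast he0.ne'
  have hmean : (∑ n ∈ range (R * e), f n * g n) / ((R * e : ℕ) : ℂ) =
      MRS S b t p R * ((tdS S b t e : ℝ) : ℂ) := by
    rw [hprod, hgsum]
    unfold MRS mn
    push_cast
    field_simp
    rw [mul_comm]
  have key2 : ‖∑ n ∈ Ico a (a + H), f n * g n - H * (MRS S b t p R * ((tdS S b t e : ℝ) : ℂ))‖ ≤
      2 * ((R * e : ℕ) : ℝ) * (((R : ℝ) / (Nat.totient R : ℝ)) * ((e : ℝ) / (Nat.totient e : ℝ))) ^ k := by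
    rw [← hmean]
    exact key
  rw [Nat.cast_mul] at key2
  exact key2

end Pool.Agent.H9U
end

-- from Lib.H9U.M5
section

/-!
# H9U, chunk M5 (M): complete means
-/

open Finset

namespace Pool.Agent.H9U

open Pool.Agent.Lib.H68T (PC p0)
open Pool.Agent.Lib.H59P (Ch cj uu gl pr SF)

variable {k d : ℕ} (S : Sys k d) (b : Fin k → ℤ) (t : Fin d → ℤ)

/-- the local factors at one prime -/
noncomputable def m5_g (l : ℕ) (n : ℤ) : ℂ :=
  ∏ i, (((1 + gl l (S.val b n t i) : ℝ)) : ℂ)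

theorem m5_val (n N : ℤ) (i : Fin k) : S.val b (n + N) t i = S.val b n t i + S.a i * N := by
  unfold Sys.val Sys.lin
  ring

theorem m5_g_per' (l c : ℕ) (n : ℤ) : m5_g S b t l (n + (l * c : ℕ)) = m5_g S b t l n := by
  unfold m5_g
  refine prod_congr rfl fun i _ => ?_
  have e : S.val b n t i + S.a i * ((l * c : ℕ) : ℤ) = S.val b n t i + (S.a i * c) * l := by push_cast; ring
  rw [m5_val, e, Pool.Agent.Lib.H59P.gl_per]

theorem m5_g_per (l : ℕ) (n : ℤ) : m5_g S b t l (n + l) = m5_g S b t l n := by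
  have h1 := m5_g_per' S b t l 1 n
  rwa [mul_one] at h1

theorem m5_g_sum (l : ℕ) (hl : 0 < l) :
    ∑ n ∈ range l, m5_g S b t l n = l * (((1 + tpS S b t l : ℝ)) : ℂ) := by
  have hl0 : (l : ℂ) ≠ 0 := by exact_mod_cast hl.ne'
  unfold tpS m5_g
  push_cast
  field_simp
  ring

theorem m5_ph (p : Fin k → Ch) (A P : Finset ℕ) (hd : Disjoint A P) (n : ℤ) :
    PhV p (A ∪ P) (fun i => S.val b n t i) = PhV p A (fun i => S.val b n t i) * ∏ l ∈ P, m5_g S b t l n := by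
  unfold PhV m5_g uu
  rw [prod_comm (s := P), ← prod_mul_distrib]
  refine prod_congr rfl fun i _ => ?_
  rw [prod_union hd]
  push_cast
  ring

theorem m5_per (p : Fin k → Ch) (R : ℕ) (hd : ∀ i, (p i).1 ∣ R) (j : ℕ) (m : ℤ) :
    PhV p R.primeFactors (fun i => S.val b (m + (R * j : ℕ)) t i) =
      PhV p R.primeFactors (fun i => S.val b m t i) := by
  induction j generalizing m with
  | zero => simp
  | succ j ihj =>
    have e : m + ((R * (j + 1) : ℕ) : ℤ) = (m + ((R * j : ℕ) : ℤ)) + R := by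
      push_cast; ring
    rw [e, M3S_P S b t p R hd, ihj m]

theorem m5_main (R : ℕ) (hR : 0 < R) (p : Fin k → Ch) (hd : ∀ i, (p i).1 ∣ R)
    (P : Finset ℕ) (hP : ∀ l ∈ P, l.Prime ∧ ¬ l ∣ R) :
    ∑ n ∈ range (R * ∏ l ∈ P, l), PhV p R.primeFactors (fun i => S.val b n t i) * ∏ l ∈ P, m5_g S b t l n =
      (∑ n ∈ range R, PhV p R.primeFactors (fun i => S.val b n t i)) *
        ∏ l ∈ P, (l * (((1 + tpS S b t l : ℝ)) : ℂ)) := by
  induction P using Finset.induction_on with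
  | empty => simp
  | insert l P hl ih =>
    have ih := ih fun q hq => hP q (mem_insert_of_mem hq)
    obtain ⟨hlp, hlR⟩ := hP l (mem_insert_self _ _)
    have hSpos : 0 < ∏ q ∈ P, q := prod_pos fun q hq => (hP q (mem_insert_of_mem hq)).1.pos
    have hco : Nat.Coprime (R * ∏ q ∈ P, q) l := by
      rw [Nat.coprime_comm, Nat.Prime.coprime_iff_not_dvd hlp]
      intro hdvd
      rcases (Nat.Prime.dvd_mul hlp).1 hdvd with h1 | h1
      · exact hlR h1
      · obtain ⟨q, hq, hlq⟩ := (Prime.dvd_finsetProd_iff hlp.prime _).1 h1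
        have := (Nat.prime_dvd_prime_iff_eq hlp (hP q (mem_insert_of_mem hq)).1).1 hlq
        exact hl (this ▸ hq)
    have e1 : R * ∏ q ∈ insert l P, q = (R * ∏ q ∈ P, q) * l := by
      rw [prod_insert hl]; ring
    have h3 := Pool.Agent.Lib.H59P.M3d
      (fun n => PhV p R.primeFactors (fun i => S.val b n t i) * ∏ q ∈ P, m5_g S b t q n) (m5_g S b t l)
      (R * ∏ q ∈ P, q) l (Nat.mul_pos hR hSpos) hlp.pos hco (by
        intro m
        have a2 : ∀ q ∈ P, m5_g S b t q (m + (R * ∏ q ∈ P, q : ℕ)) = m5_g S b t q m := by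
          intro q hq
          have : R * ∏ q ∈ P, q = q * (R * ∏ t ∈ P.erase q, t) := by
            rw [← mul_prod_erase P (fun t => t) hq]; ring
          rw [this]
          exact m5_g_per' S b t q _ m
        rw [m5_per S b t p R hd, prod_congr rfl a2]) (m5_g_per S b t l)
    rw [e1, prod_insert hl]
    have e2 : ∑ n ∈ range (R * (∏ q ∈ P, q) * l),
        PhV p R.primeFactors (fun i => S.val b n t i) * ∏ q ∈ insert l P, m5_g S b t q n =
        ∑ n ∈ range (R * (∏ q ∈ P, q) * l),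
          (PhV p R.primeFactors (fun i => S.val b n t i) * ∏ q ∈ P, m5_g S b t q n) * m5_g S b t l n := by
      refine sum_congr rfl fun n _ => ?_
      rw [prod_insert hl]
      ring
    rw [e2, h3, ih, m5_g_sum S b t l hlp.pos]
    ring

/-- Proof. As `M5` (`H59P/M5A.lean`, `M5.lean`): `PhV p (pr Q) m = PhV p R.primeFactors m * ∏_{l ≤ Q, l ∤ R} ∏_i (1 + gl l (m i))`; induction over
the primes `l` with `M3d`. -/
theorem M5S (Q R : ℕ) (hR : 0 < R) (hRQ : R ∣ Q.factorial) (p : Fin k → Ch) (hd : ∀ i, (p i).1 ∣ R) :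
    MRS S b t p R * ((SSS S b t ((pr Q).filter (fun l => ¬ l ∣ R)) : ℝ) : ℂ) = MQS S b t Q p := by
  obtain ⟨P, hSdef⟩ : ∃ P, P = (pr Q).filter (fun l => ¬ l ∣ R) := ⟨_, rfl⟩
  rw [← hSdef]
  have hS : ∀ l ∈ P, (l ≤ Q ∧ l.Prime) ∧ ¬ l ∣ R := by
    intro l hl
    rw [hSdef, mem_filter, pr, mem_filter, mem_Icc] at hl
    exact ⟨⟨hl.1.1.2, hl.1.2⟩, hl.2⟩
  have hSpos : 0 < ∏ q ∈ P, q := prod_pos fun q hq => (hS q hq).1.2.pos
  have hdisj : Disjoint R.primeFactors P := by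
    rw [disjoint_left]
    intro l h1 h2
    exact (hS l h2).2 (Nat.dvd_of_mem_primeFactors h1)
  have hunion : R.primeFactors ∪ P = pr Q := by
    ext l
    rw [mem_union, hSdef, mem_filter, Nat.mem_primeFactors]
    constructor
    · rintro (⟨h1, h2, -⟩ | h1)
      · rw [pr, mem_filter, mem_Icc]
        exact ⟨⟨h1.one_le, (Nat.Prime.dvd_factorial h1).1 (h2.trans hRQ)⟩, h1⟩
      · exact h1.1
    · intro h1
      by_cases h2 : l ∣ R
      · left
        rw [pr, mem_filter] at h1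
        exact ⟨h1.2, h2, hR.ne'⟩
      · exact Or.inr ⟨h1, h2⟩
  have hper : ∀ m : ℤ, PhV p (pr Q) (fun i => S.val b (m + (R * ∏ q ∈ P, q : ℕ)) t i) =
      PhV p (pr Q) (fun i => S.val b m t i) := by
    intro m
    rw [← hunion, m5_ph S b t p _ _ hdisj, m5_ph S b t p _ _ hdisj, m5_per S b t p R hd]
    congr 1
    refine prod_congr rfl fun q hq => ?_
    have : R * ∏ q ∈ P, q = q * (R * ∏ t ∈ P.erase q, t) := by
      rw [← mul_prod_erase P (fun t => t) hq]; ring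
    rw [this]
    exact m5_g_per' S b t q _ m
  have hcop : Nat.Coprime R (∏ q ∈ P, q) := by
    apply Nat.Coprime.prod_right
    intro q hq
    rw [Nat.coprime_comm, Nat.Prime.coprime_iff_not_dvd (hS q hq).1.2]
    exact (hS q hq).2
  have hdvdN : R * ∏ q ∈ P, q ∣ Q.factorial := by
    apply hcop.mul_dvd_of_dvd_of_dvd hRQ
    apply Finset.prod_primes_dvd
    · intro q hq
      exact (hS q hq).1.2.prime
    · intro q hq
      exact (Nat.Prime.dvd_factorial (hS q hq).1.2).2 (hS q hq).1.1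
  obtain ⟨j, hj⟩ := hdvdN
  have hfac : 0 < Q.factorial := Nat.factorial_pos Q
  have hj0 : 0 < j := by
    rcases Nat.eq_zero_or_pos j with rfl | h1
    · rw [mul_zero] at hj
      omega
    · exact h1
  have hsum : ∑ n ∈ range (R * ∏ l ∈ P, l), PhV p (pr Q) (fun i => S.val b n t i) =
      (∑ n ∈ range R, PhV p R.primeFactors (fun i => S.val b n t i)) *
        ∏ l ∈ P, (l * (((1 + tpS S b t l : ℝ)) : ℂ)) := by
    rw [← m5_main S b t R hR p hd P fun l hl => ⟨(hS l hl).1.2, (hS l hl).2⟩]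
    refine sum_congr rfl fun n _ => ?_
    rw [← hunion, m5_ph S b t p _ _ hdisj]
  have hfull := Pool.Agent.Lib.H59P.m5a_full (fun m : ℤ => PhV p (pr Q) (fun i => S.val b m t i))
    (R * ∏ q ∈ P, q) hper j
  unfold MQS MRS SSS mn
  rw [hj, hfull, hsum, prod_mul_distrib]
  have r0 : (R : ℂ) ≠ 0 := by exact_mod_cast hR.ne'
  have j0 : (j : ℂ) ≠ 0 := by exact_mod_cast hj0.ne'
  have s0 : (∏ l ∈ P, (l : ℂ)) ≠ 0 := by
    rw [← Nat.cast_prod]
    exact_mod_cast hSpos.ne'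
  push_cast
  field_simp

/-- Proof. `M5S` with `R = 1`, `p i = p0` (`cj p0 m = 1`), or directly; compare `M5_SS` (`H59P/M5.lean`). -/
theorem M5S_SS (Q : ℕ) :
    (∑ n ∈ range Q.factorial, ∏ i, uu (pr Q) (S.val b n t i)) / (Q.factorial : ℝ) = SSS S b t (pr Q) := by
  have hc : ∀ m : ℤ, cj p0 m = 1 := by
    intro m
    unfold cj p0
    rw [MulChar.one_apply (isUnit_of_subsingleton _), map_one]
  have h1 := M5S S b t Q 1 one_pos (one_dvd _) (fun _ : Fin k => p0) (fun _ => dvd_rfl)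
  have h2 : (pr Q).filter (fun l => ¬ l ∣ 1) = pr Q := by
    apply filter_true_of_mem
    intro l hl h3
    rw [pr, mem_filter] at hl
    exact hl.2.one_lt.ne' (Nat.dvd_one.1 h3)
  have h3 : MRS S b t (fun _ : Fin k => p0) 1 = 1 := by
    unfold MRS mn PhV
    rw [sum_range_one, Nat.primeFactors_one]
    simp [uu, hc]
  rw [h2, h3, one_mul] at h1
  have h4 : MQS S b t Q (fun _ : Fin k => p0) =
      (((∑ n ∈ range Q.factorial, ∏ i, uu (pr Q) (S.val b n t i)) / (Q.factorial : ℝ) : ℝ) : ℂ) := by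
    unfold MQS mn PhV
    push_cast
    congr 1
    refine sum_congr rfl fun n _ => prod_congr rfl fun i _ => ?_
    rw [hc, one_mul]
  rw [h4] at h1
  exact (Complex.ofReal_injective h1).symm

end Pool.Agent.H9U
end

-- from Lib.H9U.ZDefs
section

/-!
# Project H9U: definitions for modules Z, A and the assembly
-/

open Finset

namespace Pool.Agent.H9U

open Pool.Agent.Lib.H68T (lp Lk PC p0)
open Pool.Agent.Lib.H18Q (gk KS Bc)
open Pool.Agent.Lib.H59P (Ch SF MX bx TS Rp)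

noncomputable section

/-- **The conclusion of module L**: tuples of components whose moduli have a large least common multiple contribute little
on average over `t`. -/
def LBig {k d : ℕ} (S : Sys k d) : Prop :=
  ∃ c C : ℝ, 0 < c ∧ 1 ≤ C ∧ ∀ Q D : ℕ, 1 ≤ D → D ≤ Q → ∀ p : Fin k → Ch, (∀ i, p i ∈ PC Q) →
    ∀ TT : Finset (Fin k → ℕ), TT ⊆ Fintype.piFinset (fun i => KS Q (p i).1) →
    (∀ κ ∈ TT, D < univ.lcm (fun i => (p i).1 * κ i)) →
    ∀ (b : Fin k → ℤ) (a H T : ℕ), Q ^ (10 * (k + 1)) ≤ H → Q ^ (10 * (k + 1)) ≤ T →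
    ∑ t ∈ bx d T, ‖∑ n ∈ Ico a (a + H), ∑ κ ∈ TT, ∏ i, gk (p i) (κ i) (S.val b n (iv t) i)‖ ≤
      C * (1 + Real.log Q) ^ C * ((T : ℝ) ^ d * H) * (D : ℝ) ^ (-c)

/-- The main term of a cell with coefficients `c`, moduli up to `D`, conductors up to `D1`. -/
def MCS {k d : ℕ} (S : Sys k d) (b : Fin k → ℤ) (t : Fin d → ℤ) (Q D D1 : ℕ) (px : Ch) (c : Fin k → Ch → ℂ) : ℂ :=
  ∑ p ∈ TS k Q D1 px, (∏ i, c i (p i)) *
    (MRS S b t p (Rp px p) * ((∑ e ∈ SF (D / Rp px p) (Rp px p), tdS S b t e : ℝ) : ℂ))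

/-- The data of a small level `Q'`: moduli up to `D`, conductors up to `D1`; the coefficients of the characters of conductor
at most `D1` are given by the model `MX px th` up to `η E0`. -/
structure Dat (k Q Q' D D1 D2 : ℕ) (η E0 : ℝ) (px : Ch) (th : ℤ → ℝ) (Xs : Fin k → ℕ) : Prop where
  D2_pos : 1 ≤ D2
  hD2 : px.1 * D2 ≤ D1
  hD1 : D1 * D1 ≤ D
  hD : D ≤ Q'
  mem : px ∈ PC Q'
  real : px.2 ^ 2 = 1
  eta_pos : 0 < η
  eta_le : η ≤ 1
  E0_nonneg : 0 ≤ E0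
  E0_le : 4 * k * E0 ≤ 1
  triv : px = p0 → ∀ m, th m = 0
  nonneg : ∀ i, ∀ m, (Xs i : ℤ) ≤ m → m ≤ 4 * Xs i → 0 ≤ th m
  le : ∀ i, ∀ m, (Xs i : ℤ) ≤ m → m ≤ 4 * Xs i → th m ≤ 1 - η
  cf : ∀ i, ∃ eb : Ch → ℝ, (∀ p ∈ PC Q', 0 ≤ eb p) ∧ ∑ p ∈ PC Q', eb p ≤ η * E0 ∧
    ∀ m : ℤ, (Xs i : ℤ) ≤ m → m ≤ 4 * Xs i → ∀ p ∈ PC Q', p.1 ≤ D1 → ‖Bc Q (Xs i) p m - MX px th m p‖ ≤ eb p

end

end Pool.Agent.H9U
end

-- from Lib.HUP.R18
section

/-!
# Project HUP, module R (the modules of H24P for an abstract family), R18: cutting a box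
-/

open Finset Polynomial

namespace Pool.Agent.HUP

open Pool.Agent.Lib.H68T Pool.Agent.Lib.H18Q Pool.Agent.Lib.H59P Pool.Agent.Lib.H24P

theorem r18_mem {d : ℕ} (b : Fin d → ℤ) (s : Fin d → ℕ) (t : Fin d → ℤ) :
    t ∈ tb b s ↔ ∀ j, b j ≤ t j ∧ t j < b j + s j := by
  unfold tb
  rw [Fintype.mem_piFinset]
  exact forall_congr' fun j => mem_Ico

theorem R18_card {d : ℕ} (b : Fin d → ℤ) (s : Fin d → ℕ) : (tb b s).card = ∏ j, s j := by
  unfold tb
  rw [Fintype.card_piFinset]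
  refine prod_congr rfl fun j _ => ?_
  rw [Int.card_Ico]
  omega

/-- **R18.** A box of sides `q s'_j` is the disjoint union of the boxes `tb (b + u s') s'`, `u ∈ [0, q)^d`. -/
theorem R18_split {d : ℕ} (b : Fin d → ℤ) (s s' : Fin d → ℕ) (q : ℕ) (hs : ∀ j, s j = q * s' j)
    (E : (Fin d → ℤ) → Prop) [DecidablePred E] (δ : ℝ)
    (hE : ∀ b' : Fin d → ℤ, tb b' s' ⊆ tb b s → (((tb b' s').filter E).card : ℝ) ≤ (tb b' s').card * δ) :
    (((tb b s).filter E).card : ℝ) ≤ (tb b s).card * δ := by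
  obtain ⟨φ, hφ⟩ : ∃ φ : (Fin d → ℤ) → (Fin d → ℕ), ∀ t j, φ t j = ((t j - b j) / (s' j : ℤ)).toNat := ⟨_, fun _ _ => rfl⟩
  have hdiv : ∀ t ∈ tb b s, ∀ j, φ t j < q ∧ b j + (φ t j : ℤ) * s' j ≤ t j ∧
      t j < b j + (φ t j : ℤ) * s' j + s' j := by
    intro t ht j
    have h1 := (r18_mem b s t).1 ht j
    have h2 : ((s j : ℕ) : ℤ) = (q : ℤ) * s' j := by rw [hs j]; push_cast; ring
    rw [h2] at h1
    have hpos : (0 : ℤ) < s' j := by
      rcases Nat.eq_zero_or_pos (s' j) with h | h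
      · rw [h] at h1
        push_cast at h1
        rw [mul_zero] at h1
        omega
      · exact_mod_cast h
    have h3 : 0 ≤ (t j - b j) / (s' j : ℤ) := Int.ediv_nonneg (by omega) hpos.le
    have h4 : (t j - b j) / (s' j : ℤ) < q := Int.ediv_lt_of_lt_mul hpos (by omega)
    have h5 : ((φ t j : ℕ) : ℤ) = (t j - b j) / (s' j : ℤ) := by rw [hφ, Int.toNat_of_nonneg h3]
    have h6 := Int.mul_ediv_add_emod (t j - b j) (s' j : ℤ)
    have h7 := Int.emod_nonneg (t j - b j) hpos.ne'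
    have h8 := Int.emod_lt_of_pos (t j - b j) hpos
    have h9 : (s' j : ℤ) * ((t j - b j) / (s' j : ℤ)) = ((φ t j : ℕ) : ℤ) * s' j := by rw [h5]; ring
    rw [h9] at h6
    refine ⟨by omega, by omega, by omega⟩
  obtain ⟨U, hU⟩ : ∃ U : Finset (Fin d → ℕ), U = Fintype.piFinset fun _ => range q := ⟨_, rfl⟩
  have hmap : ∀ t ∈ (tb b s).filter E, φ t ∈ U := by
    intro t ht
    rw [hU, Fintype.mem_piFinset]
    intro j
    rw [mem_range]
    exact (hdiv t (mem_filter.1 ht).1 j).1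
  have h1 := card_eq_sum_card_fiberwise hmap
  have h2 : ∀ u ∈ U, (((tb b s).filter E).filter (fun t => φ t = u)) ⊆
      (tb (fun j => b j + (u j : ℤ) * s' j) s').filter E := by
    intro u _ t ht
    rw [mem_filter, mem_filter] at ht
    rw [mem_filter, r18_mem]
    refine ⟨fun j => ?_, ht.1.2⟩
    have h3 := hdiv t ht.1.1 j
    rw [ht.2] at h3
    exact h3.2
  have h3 : ∀ u ∈ U, tb (fun j => b j + (u j : ℤ) * s' j) s' ⊆ tb b s := by
    intro u hu t ht
    rw [hU, Fintype.mem_piFinset] at hu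
    rw [r18_mem] at ht ⊢
    intro j
    have h4 := ht j
    have h5 := mem_range.1 (hu j)
    have h6 : ((s j : ℕ) : ℤ) = (q : ℤ) * s' j := by rw [hs j]; push_cast; ring
    have h7 : ((u j : ℤ) + 1) * s' j ≤ (q : ℤ) * s' j :=
      mul_le_mul_of_nonneg_right (by omega) (by positivity)
    have h8 : (0 : ℤ) ≤ (u j : ℤ) * s' j := by positivity
    rw [h6]
    constructor
    · linarith [h4.1]
    · linarith [h4.2]
  have h4 : (((tb b s).filter E).card : ℝ) = ∑ u ∈ U, ((((tb b s).filter E).filter (fun t => φ t = u)).card : ℝ) := by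
    rw [h1]
    push_cast
    rfl
  rw [h4]
  calc ∑ u ∈ U, ((((tb b s).filter E).filter (fun t => φ t = u)).card : ℝ)
      ≤ ∑ _u ∈ U, ((∏ j, s' j : ℕ) : ℝ) * δ := by
        refine sum_le_sum fun u hu => ?_
        have h5 : ((((tb b s).filter E).filter (fun t => φ t = u)).card : ℝ) ≤
            (((tb (fun j => b j + (u j : ℤ) * s' j) s').filter E).card : ℝ) := by
          exact_mod_cast card_le_card (h2 u hu)
        refine h5.trans ((hE _ (h3 u hu)).trans (le_of_eq ?_))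
        rw [R18_card]
    _ = (tb b s).card * δ := by
        rw [sum_const, nsmul_eq_mul, ← mul_assoc]
        congr 1
        rw [R18_card, hU, Fintype.card_piFinset]
        rw [show (∏ j, s j) = (∏ _j : Fin d, q) * ∏ j, s' j from by
          rw [← prod_mul_distrib]
          exact prod_congr rfl fun j _ => hs j]
        push_cast
        congr 1
        refine prod_congr rfl fun j _ => ?_
        rw [card_range]

/-- The forms vary little on a small box. -/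
theorem R18_var {k d : ℕ} (c : Fin k → Fin d → ℤ) (b : Fin d → ℤ) (s : Fin d → ℕ) (i : Fin k) (t t' : Fin d → ℤ)
    (ht : t ∈ tb b s) (ht' : t' ∈ tb b s) : |lf c t i - lf c t' i| ≤ ∑ j, |c i j| * (s j : ℤ) := by
  unfold lf
  rw [← sum_sub_distrib]
  refine (abs_sum_le_sum_abs _ _).trans (sum_le_sum fun j _ => ?_)
  rw [← mul_sub, abs_mul]
  refine mul_le_mul_of_nonneg_left ?_ (abs_nonneg _)
  have h1 := (r18_mem b s t).1 ht j
  have h2 := (r18_mem b s t').1 ht' j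
  rw [abs_le]
  omega

end Pool.Agent.HUP
end

-- from Lib.H9U.T1
section

/-!
# H9U, chunk T1 (M): the local factors of the singular series, lower bound
-/

open Finset

namespace Pool.Agent.H9U

open Pool.Agent.Lib.H59P (Ch cj uu gl pr SF)

variable {k d : ℕ} (S : Sys k d) (b : Fin k → ℤ) (t : Fin d → ℤ)

/-- The number of classes `n` modulo `l` with `l ∣ val n i` for some `i`. -/
noncomputable def nuS (l : ℕ) : ℕ := by
  classical exact ((range l).filter (fun n : ℕ => ∃ i, (l : ℤ) ∣ S.val b n t i)).card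

theorem t1_gl (l : ℕ) (hl : l.Prime) (m : ℤ) :
    1 + gl l m = if (l : ℤ) ∣ m then 0 else (l : ℝ) / ((l : ℝ) - 1) := by
  have h1 : (1 : ℝ) < l := by exact_mod_cast hl.one_lt
  have h2 : (l : ℝ) - 1 ≠ 0 := by linarith
  rw [gl]
  by_cases h : (l : ℤ) ∣ m
  · rw [if_pos h, if_pos h]
    norm_num
  · rw [if_neg h, if_neg h]
    field_simp
    ring

theorem t1_prod (l : ℕ) (hl : l.Prime) (n : ℕ) [Decidable (∃ i, (l : ℤ) ∣ S.val b n t i)] :
    ∏ i, (1 + gl l (S.val b n t i)) =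
      if ∃ i, (l : ℤ) ∣ S.val b n t i then 0 else ((l : ℝ) / ((l : ℝ) - 1)) ^ k := by
  rw [Finset.prod_congr rfl fun i _ => t1_gl l hl (S.val b n t i)]
  split_ifs with hex
  · obtain ⟨i, hi⟩ := hex
    exact Finset.prod_eq_zero (Finset.mem_univ i) (if_pos hi)
  · have h2 : ∀ i ∈ (univ : Finset (Fin k)), (if (l : ℤ) ∣ S.val b n t i then 0 else (l : ℝ) / ((l : ℝ) - 1)) =
        (l : ℝ) / ((l : ℝ) - 1) := fun i _ => if_neg fun hd => hex ⟨i, hd⟩
    rw [Finset.prod_congr rfl h2, Finset.prod_const, Finset.card_univ, Fintype.card_fin]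

theorem t1_nuS (l : ℕ) [DecidablePred fun n : ℕ => ∃ i, (l : ℤ) ∣ S.val b n t i] :
    nuS S b t l = ((range l).filter (fun n : ℕ => ∃ i, (l : ℤ) ∣ S.val b n t i)).card := by
  unfold nuS
  congr

/-- Proof. As `T0_tp` (`H59P/T0.lean`): `∏_i (1 + gl l (val i))` is `0` if `l` divides some value and `(l/(l-1))^k` else. -/
theorem T0S_tp (l : ℕ) (hl : l.Prime) :
    1 + tpS S b t l = (1 - (nuS S b t l : ℝ) / l) * ((l : ℝ) / ((l : ℝ) - 1)) ^ k := by
  classical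
  have hl0 : (l : ℝ) ≠ 0 := by exact_mod_cast hl.ne_zero
  rw [tpS, Finset.sum_congr rfl fun n _ => t1_prod S b t l hl n, Finset.sum_ite, Finset.sum_const_zero,
    zero_add, Finset.sum_const, nsmul_eq_mul]
  have h1 := Finset.card_filter_add_card_filter_not (s := range l) (fun n : ℕ => ∃ i, (l : ℤ) ∣ S.val b n t i)
  rw [card_range] at h1
  have h2 : ((nuS S b t l : ℕ) : ℝ) +
      ((((range l).filter (fun n : ℕ => ¬ ∃ i, (l : ℤ) ∣ S.val b n t i)).card : ℕ) : ℝ) = l := by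
    rw [t1_nuS]
    exact_mod_cast h1
  rw [← eq_sub_iff_add_eq'] at h2
  rw [h2]
  field_simp
  ring

/-- Proof. For each `i` there is at most one class with `l ∣ a_i n + …` if `l ∤ a_i`; if `l ∣ a_i` the divisibility does not depend on `n`, so by
admissibility it never holds. Hence at most `k` classes, and by admissibility not all (`n` may be replaced by its residue). -/
theorem T0S_nu (l : ℕ) (hl : l.Prime) (hA : S.Adm b t) : nuS S b t l ≤ k ∧ nuS S b t l < l := by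
  classical
  obtain ⟨m, hm⟩ := hA l hl
  have hdiff : ∀ (n n' : ℤ) (i : Fin k), S.val b n t i - S.val b n' t i = S.a i * (n - n') := by
    intro n n' i
    simp only [Sys.val, Sys.lin]
    ring
  constructor
  · rw [t1_nuS]
    have h1 : (range l).filter (fun n : ℕ => ∃ i, (l : ℤ) ∣ S.val b n t i) ⊆
        (univ : Finset (Fin k)).biUnion fun i => (range l).filter fun n : ℕ => (l : ℤ) ∣ S.val b n t i := by
      intro n hn
      obtain ⟨h2, i, hi⟩ := mem_filter.1 hn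
      exact mem_biUnion.2 ⟨i, mem_univ i, mem_filter.2 ⟨h2, hi⟩⟩
    refine (card_le_card h1).trans (card_biUnion_le.trans ?_)
    have h3 : ∀ i ∈ (univ : Finset (Fin k)),
        ((range l).filter fun n : ℕ => (l : ℤ) ∣ S.val b n t i).card ≤ 1 := by
      intro i _
      refine card_le_one.2 fun n hn n' hn' => ?_
      obtain ⟨hn1, hn2⟩ := mem_filter.1 hn
      obtain ⟨hn1', hn2'⟩ := mem_filter.1 hn'
      have h4 : (l : ℤ) ∣ S.a i * ((n : ℤ) - n') := by
        rw [← hdiff]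
        exact dvd_sub hn2 hn2'
      have hlp : Prime (l : ℤ) := Nat.prime_iff_prime_int.1 hl
      rcases hlp.dvd_or_dvd h4 with h5 | h5
      · exfalso
        refine hm i ?_
        have h6 : (l : ℤ) ∣ S.val b m t i - S.val b n t i := by
          rw [hdiff]
          exact Dvd.dvd.mul_right h5 _
        have h7 := dvd_add h6 hn2
        rwa [sub_add_cancel] at h7
      · have h6 : (n : ℤ) ≡ n' [ZMOD l] := by
          rw [Int.modEq_iff_dvd]
          have h7 := (dvd_neg (α := ℤ)).2 h5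
          rwa [neg_sub] at h7
        have h7 : n ≡ n' [MOD l] := Int.natCast_modEq_iff.1 h6
        exact Nat.ModEq.eq_of_lt_of_lt h7 (mem_range.1 hn1) (mem_range.1 hn1')
    refine (Finset.sum_le_sum h3).trans ?_
    simp
  · rw [t1_nuS]
    have h1 : ((range l).filter (fun n : ℕ => ∃ i, (l : ℤ) ∣ S.val b n t i)).card < (range l).card := by
      have hl0 : (0 : ℤ) < l := by exact_mod_cast hl.pos
      have hnn : 0 ≤ m % (l : ℤ) := Int.emod_nonneg _ hl0.ne'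
      have hlt : m % (l : ℤ) < l := Int.emod_lt_of_pos _ hl0
      refine Finset.card_lt_card (Finset.filter_ssubset.2 ⟨(m % (l : ℤ)).toNat, mem_range.2 ?_, ?_⟩)
      · have h8 : (((m % (l : ℤ)).toNat : ℕ) : ℤ) < l := by
          rw [Int.toNat_of_nonneg hnn]
          exact hlt
        exact_mod_cast h8
      · rintro ⟨i, hi⟩
        refine hm i ?_
        rw [Int.toNat_of_nonneg hnn] at hi
        have h2 : (l : ℤ) ∣ S.val b m t i - S.val b (m % (l : ℤ)) t i := by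
          rw [hdiff]
          refine Dvd.dvd.mul_left ?_ _
          exact Int.dvd_self_sub_emod
        have h7 := dvd_add h2 hi
        rwa [sub_add_cancel] at h7
    rwa [card_range] at h1

theorem t1_small (hA : S.Adm b t) {l : ℕ} (hl : l.Prime) : ((l : ℝ))⁻¹ ≤ 1 + tpS S b t l := by
  have h1 : (1 : ℝ) < l := by exact_mod_cast hl.one_lt
  have h2 : nuS S b t l + 1 ≤ l := (T0S_nu S b t l hl hA).2
  have h3 : (nuS S b t l : ℝ) + 1 ≤ l := by exact_mod_cast h2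
  have h4 : ((l : ℝ))⁻¹ ≤ 1 - (nuS S b t l : ℝ) / l := by
    rw [inv_eq_one_div, div_le_iff₀ (by linarith), sub_mul, div_mul_cancel₀ _ (by linarith)]
    linarith
  rw [T0S_tp S b t l hl]
  calc ((l : ℝ))⁻¹ = (l : ℝ)⁻¹ * 1 := (mul_one _).symm
    _ ≤ (1 - (nuS S b t l : ℝ) / l) * ((l : ℝ) / ((l : ℝ) - 1)) ^ k :=
      mul_le_mul h4 (Lib.H59P.t1_B hl).1 zero_le_one (le_trans (by positivity) h4)

theorem t1_large (hA : S.Adm b t) {l : ℕ} (hl : l.Prime) (hk : 2 * k < l) :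
    Real.exp (-(2 * (k : ℝ) ^ 2 * ((l : ℝ) ^ 2)⁻¹)) ≤ 1 + tpS S b t l := by
  have h1 : (1 : ℝ) < l := by exact_mod_cast hl.one_lt
  have h0 : (0 : ℝ) < l := by linarith
  have h2 : (nuS S b t l : ℝ) ≤ k := by exact_mod_cast (T0S_nu S b t l hl hA).1
  have h3 : 2 * (k : ℝ) ≤ l := by exact_mod_cast hk.le
  have h4 : (k : ℝ) / l ≤ 1 / 2 := by
    rw [div_le_iff₀ h0]
    linarith
  have h4' : 0 ≤ (k : ℝ) / l := by positivity
  have h5 : Real.exp (-(2 * ((k : ℝ) / l) ^ 2)) ≤ 1 - ((k : ℝ) / l) ^ 2 :=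
    Lib.H59P.t1_exp (by positivity) (by nlinarith)
  have h6 : 2 * (k : ℝ) ^ 2 * ((l : ℝ) ^ 2)⁻¹ = 2 * ((k : ℝ) / l) ^ 2 := by
    rw [div_pow, div_eq_mul_inv, mul_assoc]
  rw [h6]
  refine h5.trans ?_
  rw [T0S_tp S b t l hl]
  have h7 : 1 - (k : ℝ) / l ≤ 1 - (nuS S b t l : ℝ) / l := by
    have := div_le_div_of_nonneg_right h2 h0.le
    linarith
  calc 1 - ((k : ℝ) / l) ^ 2 = (1 - (k : ℝ) / l) * (1 + (k : ℝ) / l) := by ring
    _ ≤ (1 - (nuS S b t l : ℝ) / l) * ((l : ℝ) / ((l : ℝ) - 1)) ^ k :=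
      mul_le_mul h7 (Lib.H59P.t1_B hl).2 (by linarith) (by linarith)

/-- Proof. As `T_lower` (`H59P/T1.lean`), which uses only `nu ≤ k`, `nu < l` and the formula `T0_tp`: for `l ≤ 2k` the factor is at least `1/l`, for
`l > 2k` at least `exp(-2 k²/l²)`. -/
theorem T1S_low (hA : S.Adm b t) (P : Finset ℕ) (hP : ∀ l ∈ P, l.Prime) : Real.exp (-(4 * k : ℝ)) ≤ SSS S b t P := by
  have h0 : SSS S b t P = (∏ l ∈ P.filter (fun l => l ≤ 2 * k), (1 + tpS S b t l)) *
      ∏ l ∈ P.filter (fun l => ¬ l ≤ 2 * k), (1 + tpS S b t l) := by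
    rw [SSS]
    exact (Finset.prod_filter_mul_prod_filter_not P (fun l => l ≤ 2 * k) _).symm
  have h1 : Real.exp (-(2 * k * Real.log 4)) ≤
      ∏ l ∈ P.filter (fun l => l ≤ 2 * k), (1 + tpS S b t l) := by
    refine (Lib.H59P.t1_prodSmall k P hP).trans (Finset.prod_le_prod (fun l _ => by positivity) fun l hl => ?_)
    exact t1_small S b t hA (hP l (mem_filter.1 hl).1)
  have h2 : Real.exp (-(k : ℝ)) ≤ ∏ l ∈ P.filter (fun l => ¬ l ≤ 2 * k), (1 + tpS S b t l) := by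
    have h3 : Real.exp (-(k : ℝ)) ≤
        ∏ l ∈ P.filter (fun l => ¬ l ≤ 2 * k), Real.exp (-(2 * (k : ℝ) ^ 2 * ((l : ℝ) ^ 2)⁻¹)) := by
      rw [← Real.exp_sum, Finset.sum_neg_distrib, ← Finset.mul_sum]
      exact Real.exp_le_exp.2 (neg_le_neg (Lib.H59P.t1_sum k P))
    refine h3.trans (Finset.prod_le_prod (fun l _ => (Real.exp_pos _).le) fun l hl => ?_)
    have h4 := mem_filter.1 hl
    exact t1_large S b t hA (hP l h4.1) (by omega)
  rw [h0]
  refine le_trans ?_ (mul_le_mul h1 h2 (Real.exp_pos _).le (le_trans (Real.exp_pos _).le h1))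
  rw [← Real.exp_add]
  refine Real.exp_le_exp.2 ?_
  have h5 : Real.log 4 = 2 * Real.log 2 := by
    have h6 : (4 : ℝ) = 2 ^ 2 := by norm_num
    rw [h6, Real.log_pow]
    norm_num
  have h7 := Real.log_two_lt_d9
  have h8 : (0 : ℝ) ≤ k := Nat.cast_nonneg k
  rw [h5]
  nlinarith

end Pool.Agent.H9U
end

-- from Lib.H9U.T2
section

/-!
# H9U, chunk T2 (M): the local factors of the singular series, upper bounds; the tail (Rankin)
-/

open Finset

namespace Pool.Agent.H9U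

open Pool.Agent.Lib.H59P (Ch cj uu gl pr SF)

variable {k d : ℕ} (S : Sys k d) (b : Fin k → ℤ) (t : Fin d → ℤ)

/-- The minor `a_i φ_j - a_j φ_i`, a function of `t` only. -/
def Sys.minr (i j : Fin k) : ℤ := S.a i * S.val b 0 t j - S.a j * S.val b 0 t i

theorem t2_val (n : ℤ) (i : Fin k) : S.val b n t i = S.a i * n + S.val b 0 t i := by
  unfold Sys.val Sys.lin
  ring

theorem t2_root (l : ℕ) (hl : l.Prime) (a c : ℤ) (ha : ¬ (l : ℤ) ∣ a) : ∃ r : ℕ, r < l ∧ (l : ℤ) ∣ a * r + c := by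
  have hco : IsCoprime a (l : ℤ) := by
    rw [isCoprime_comm]
    exact (Nat.prime_iff_prime_int.1 hl).coprime_iff_not_dvd.2 ha
  obtain ⟨u, v, huv⟩ := hco
  have hl0 : (0 : ℤ) < l := by exact_mod_cast hl.pos
  refine ⟨((-(c * u)) % l).toNat, ?_, ?_⟩
  · have h1 := Int.emod_lt_of_pos (-(c * u)) hl0
    have h2 := Int.emod_nonneg (-(c * u)) hl0.ne'
    omega
  · rw [Int.toNat_of_nonneg (Int.emod_nonneg _ hl0.ne')]
    have h1 := Int.emod_add_mul_ediv (-(c * u)) l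
    have h2 : (-(c * u)) % (l : ℤ) = -(c * u) - l * (-(c * u) / l) := by linarith
    rw [h2]
    refine ⟨c * v - a * (-(c * u) / l), ?_⟩
    linear_combination (-c) * huv

theorem t2_uniq (l : ℕ) (hl : l.Prime) (a c : ℤ) (ha : ¬ (l : ℤ) ∣ a) {r s : ℕ} (hr : r < l) (hs : s < l)
    (h1 : (l : ℤ) ∣ a * r + c) (h2 : (l : ℤ) ∣ a * s + c) : r = s := by
  have h3 : (l : ℤ) ∣ a * ((r : ℤ) - s) := by
    have := dvd_sub h1 h2
    rwa [show a * (r : ℤ) + c - (a * s + c) = a * ((r : ℤ) - s) by ring] at this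
  have h4 := ((Nat.prime_iff_prime_int.1 hl).dvd_or_dvd h3).resolve_left ha
  have h5 : (r : ℤ) - s = 0 := Int.eq_zero_of_abs_lt_dvd h4 (by rw [abs_lt]; constructor <;> omega)
  omega

theorem t2_nu (l : ℕ) (hl : l.Prime) (ha : ∀ i, ¬ (l : ℤ) ∣ S.a i) :
    nuS S b t l ≤ k ∧ ((∀ i j, i ≠ j → ¬ (l : ℤ) ∣ S.minr b t i j) → nuS S b t l = k) := by
  classical
  choose r hr1 hr2 using fun i => t2_root l hl (S.a i) (S.val b 0 t i) (ha i)
  have hcard : nuS S b t l = (univ.image r).card := by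
    unfold nuS
    congr 1
    ext n
    rw [mem_filter, mem_image, mem_range]
    constructor
    · rintro ⟨hn, i, hi⟩
      rw [t2_val] at hi
      exact ⟨i, mem_univ _, t2_uniq l hl _ _ (ha i) (hr1 i) hn (hr2 i) hi⟩
    · rintro ⟨i, -, rfl⟩
      refine ⟨hr1 i, i, ?_⟩
      rw [t2_val]
      exact hr2 i
  refine ⟨?_, fun hm => ?_⟩
  · rw [hcard]
    exact card_image_le.trans (by rw [card_univ, Fintype.card_fin])
  · rw [hcard, card_image_of_injective _ ?_, card_univ, Fintype.card_fin]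
    intro i j hij
    by_contra hne
    apply hm i j hne
    have h1 := hr2 i
    have h2 := hr2 j
    rw [← hij] at h2
    have h3 := dvd_sub (Dvd.dvd.mul_left h2 (S.a i)) (Dvd.dvd.mul_left h1 (S.a j))
    unfold Sys.minr
    rwa [show S.a i * (S.a j * (r i : ℤ) + S.val b 0 t j) - S.a j * (S.a i * (r i : ℤ) + S.val b 0 t i) =
      S.a i * S.val b 0 t j - S.a j * S.val b 0 t i by ring] at h3

theorem t2_nule (l : ℕ) : nuS S b t l ≤ l := by
  unfold nuS
  exact (card_filter_le _ _).trans (by rw [card_range])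

/-- Proof. `T0S_tp`; `l > 2k` prime to all `a_i`: every form has exactly one root modulo `l`, so `1 ≤ ν ≤ k` (or `k = 0`), and `ν = k` if no minor is
divisible by `l` (the roots of `i` and `j` agree iff `l ∣ minr i j`). `(1 - ν/l)(1 + 1/(l-1))^k`: `|…- 1| ≤ C/l` in general and `≤ C/l²` if `ν = k`,
with `C = 2^(k+3) (k+1)^2` or any explicit bound (`(1+1/(l-1))^k ≤ 1 + k/(l-1) + 2^k/(l-1)²`-type estimates; compare `T2_large`). For the other
`l` (`l ≤ 2k` or `l` divides some `a_i`) `|tpS| ≤ 2^k`. -/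
theorem T2S_bd (l : ℕ) (hl : l.Prime) :
    |tpS S b t l| ≤ 2 ^ k ∧
    (2 * k < l → (∀ i, ¬ (l : ℤ) ∣ S.a i) → |tpS S b t l| ≤ 4 ^ (k + 3) / l ∧
      ((∀ i j, i ≠ j → ¬ (l : ℤ) ∣ S.minr b t i j) → |tpS S b t l| ≤ 4 ^ (k + 3) / (l : ℝ) ^ 2)) := by
  have hl1 : (1 : ℝ) < l := by exact_mod_cast hl.one_lt
  have hl2' : (2 : ℝ) ≤ l := by exact_mod_cast hl.two_le
  have hl0 : (0 : ℝ) < l := by linarith
  have hl2 : (0 : ℝ) < (l : ℝ) - 1 := by linarith
  have hT := T0S_tp S b t l hl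
  have hnl : (nuS S b t l : ℝ) ≤ l := by exact_mod_cast t2_nule S b t l
  have hn0 : (0 : ℝ) ≤ nuS S b t l := Nat.cast_nonneg _
  obtain ⟨hB1, hB2⟩ := Pool.Agent.Lib.H59P.t2_B (k := k) hl
  set B := ((l : ℝ) / ((l : ℝ) - 1)) ^ k with hB
  have hB0 : 0 ≤ B := by linarith
  have hq0 : 0 ≤ 1 - (nuS S b t l : ℝ) / l := by
    rw [sub_nonneg, div_le_one hl0]; exact hnl
  have hq1 : 1 - (nuS S b t l : ℝ) / l ≤ 1 := by
    have : 0 ≤ (nuS S b t l : ℝ) / l := by positivity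
    linarith
  refine ⟨?_, fun hk ha => ?_⟩
  · have hB4 : B ≤ 2 ^ k := by
      refine pow_le_pow_left₀ (by positivity) ?_ k
      rw [div_le_iff₀ hl2]
      linarith
    have h1 : 0 ≤ 1 + tpS S b t l := by rw [hT]; exact mul_nonneg hq0 hB0
    have h2 : 1 + tpS S b t l ≤ B := by
      rw [hT]
      exact mul_le_of_le_one_left hB0 hq1
    rw [abs_le]
    constructor <;> linarith
  · obtain ⟨hnk, hnk'⟩ := t2_nu S b t l hl ha
    have hB3 : B ≤ 3 := by
      have h3 : (l : ℝ) / ((l : ℝ) - 1) = 1 / ((l : ℝ) - 1) + 1 := by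
        field_simp
        ring
      have h4 : (l : ℝ) / ((l : ℝ) - 1) ≤ Real.exp (1 / ((l : ℝ) - 1)) := by
        rw [h3]
        exact Real.add_one_le_exp _
      have h5 : B ≤ Real.exp (1 / ((l : ℝ) - 1)) ^ k :=
        pow_le_pow_left₀ (by positivity) h4 k
      refine h5.trans ?_
      rw [← Real.exp_nat_mul]
      have h6 : (k : ℝ) * (1 / ((l : ℝ) - 1)) ≤ 1 := by
        rw [mul_one_div, div_le_one hl2]
        have h7 : k + 1 ≤ l := by omega
        have h8 : ((k + 1 : ℕ) : ℝ) ≤ l := by exact_mod_cast h7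
        push_cast at h8
        linarith
      refine (Real.exp_le_exp.2 h6).trans ?_
      linarith [Real.exp_one_lt_d9]
    have h1 : (nuS S b t l : ℝ) ≤ k := by exact_mod_cast hnk
    have hkl : (k : ℝ) / l ≤ 1 := by
      rw [div_le_one hl0]
      have h9 : k ≤ l := by omega
      exact_mod_cast h9
    have hb1 : (1 - (k : ℝ) / l) * B ≤ 1 := by
      have h3 : 1 - (k : ℝ) / l ≤ (1 + -(1 / (l : ℝ))) ^ k := by
        refine le_trans (le_of_eq ?_) (one_add_mul_le_pow (a := -(1 / (l : ℝ))) ?_ k)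
        · ring
        · have h4 : 1 / (l : ℝ) ≤ 1 := (div_le_one hl0).2 hl1.le
          linarith
      have h5 : (1 + -(1 / (l : ℝ))) ^ k * B = 1 := by
        rw [hB, ← mul_pow]
        have h6 : (1 + -(1 / (l : ℝ))) * ((l : ℝ) / ((l : ℝ) - 1)) = 1 := by
          field_simp
          ring
        rw [h6, one_pow]
      calc (1 - (k : ℝ) / l) * B ≤ (1 + -(1 / (l : ℝ))) ^ k * B :=
            mul_le_mul_of_nonneg_right h3 hB0
        _ = 1 := h5
    have hb2 : 1 - (k : ℝ) ^ 2 / (l : ℝ) ^ 2 ≤ (1 - (k : ℝ) / l) * B := by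
      have h3 : (1 - (k : ℝ) / l) * (1 + (k : ℝ) / l) ≤ (1 - (k : ℝ) / l) * B :=
        mul_le_mul_of_nonneg_left hB2 (by linarith)
      refine le_trans (le_of_eq ?_) h3
      ring
    have htp : tpS S b t l = ((1 - (k : ℝ) / l) * B - 1) + ((k : ℝ) - nuS S b t l) / l * B := by
      have h4 : tpS S b t l = (1 - (nuS S b t l : ℝ) / l) * B - 1 := by linarith
      rw [h4]
      ring
    have hg0 : 0 ≤ ((k : ℝ) - nuS S b t l) / l * B := mul_nonneg (div_nonneg (by linarith) hl0.le) hB0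
    have hk4 : (k : ℝ) ≤ 4 ^ k := by
      have : k < 4 ^ k := Nat.lt_pow_self (by norm_num)
      exact_mod_cast this.le
    have hk0 : (0 : ℝ) ≤ k := Nat.cast_nonneg k
    have hk22 : (k : ℝ) ^ 2 ≤ 4 ^ (k + 3) := by
      have h2k : (k : ℝ) ≤ 2 ^ k := by
        have : k < 2 ^ k := Nat.lt_two_pow_self
        exact_mod_cast this.le
      have h4k : (k : ℝ) ^ 2 ≤ 4 ^ k := by
        have h5 : (k : ℝ) ^ 2 ≤ (2 ^ k) ^ 2 := pow_le_pow_left₀ hk0 h2k 2
        have h6 : ((2 : ℝ) ^ k) ^ 2 = 4 ^ k := by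
          rw [← pow_mul, mul_comm, pow_mul]
          norm_num
        rwa [h6] at h5
      have h7 : (4 : ℝ) ^ k ≤ 4 ^ (k + 3) := pow_le_pow_right₀ (by norm_num) (by omega)
      linarith
    have hk2l : 0 ≤ (k : ℝ) ^ 2 / (l : ℝ) ^ 2 := by positivity
    refine ⟨?_, fun hm => ?_⟩
    · have e1 : (k : ℝ) ^ 2 / (l : ℝ) ^ 2 ≤ (k : ℝ) / l := by
        have : (k : ℝ) ^ 2 / (l : ℝ) ^ 2 = (k : ℝ) / l * ((k : ℝ) / l) := by ring
        rw [this]
        exact mul_le_of_le_one_right (by positivity) hkl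
      have e2 : ((k : ℝ) - nuS S b t l) / l * B ≤ (k : ℝ) / l * 3 :=
        mul_le_mul (div_le_div_of_nonneg_right (by linarith) hl0.le) hB3 hB0 (by positivity)
      have e3 : 4 * ((k : ℝ) / l) ≤ 4 ^ (k + 3) / l := by
        rw [mul_div_assoc']
        refine div_le_div_of_nonneg_right ?_ hl0.le
        have : (4 : ℝ) ^ (k + 3) = 64 * 4 ^ k := by rw [pow_add]; norm_num; ring
        rw [this]
        linarith
      have e4 : 0 ≤ (k : ℝ) / l := by positivity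
      rw [htp, abs_le]
      constructor <;> linarith
    · have hν : (nuS S b t l : ℝ) = k := by exact_mod_cast hnk' hm
      have e5 : (k : ℝ) ^ 2 / (l : ℝ) ^ 2 ≤ 4 ^ (k + 3) / (l : ℝ) ^ 2 :=
        div_le_div_of_nonneg_right hk22 (by positivity)
      rw [htp, hν, sub_self, zero_div, zero_mul, add_zero, abs_le]
      constructor <;> linarith

/-- `∏_{l ≤ X} (1 + l^η |tpS l|)` -/
noncomputable def RPS (η : ℝ) (X : ℕ) : ℝ := ∏ l ∈ pr X, (1 + (l : ℝ) ^ η * |tpS S b t l|)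

theorem t2_SS (P : Finset ℕ) :
    SSS S b t P = ∑ V ∈ P.powerset, ∏ l ∈ V, tpS S b t l := by
  rw [SSS, Finset.prod_one_add]

theorem t2_tail (η E0 : ℝ) (hη : 0 ≤ η) (hE0 : 0 < E0) (X : ℕ) (T : Finset ℕ)
    (hT : ∀ e ∈ T, Squarefree e ∧ (∀ l ∈ e.primeFactors, l ≤ X) ∧ E0 ≤ (e : ℝ)) :
    ∑ e ∈ T, |tdS S b t e| ≤ E0 ^ (-η) * RPS S b t η X := by
  classical
  have h1 : ∀ e ∈ T, |tdS S b t e| ≤ E0 ^ (-η) * ∏ l ∈ e.primeFactors, ((l : ℝ) ^ η * |tpS S b t l|) := by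
    intro e hd
    obtain ⟨hsq, -, hle⟩ := hT e hd
    have h2 : ∏ l ∈ e.primeFactors, ((l : ℝ) ^ η * |tpS S b t l|) = (e : ℝ) ^ η * |tdS S b t e| := by
      rw [Finset.prod_mul_distrib, tdS, Finset.abs_prod]
      congr 1
      rw [Real.finsetProd_rpow _ _ fun l _ => Nat.cast_nonneg l]
      congr 1
      have h3 := Nat.prod_primeFactors_of_squarefree hsq
      rw [← Nat.cast_prod, h3]
    rw [h2, ← mul_assoc]
    have h4 : 1 ≤ E0 ^ (-η) * (e : ℝ) ^ η := by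
      rw [Real.rpow_neg hE0.le, inv_mul_eq_div, le_div_iff₀ (Real.rpow_pos_of_pos hE0 _), one_mul]
      exact Real.rpow_le_rpow hE0.le hle hη
    exact le_mul_of_one_le_left (abs_nonneg _) h4
  refine (Finset.sum_le_sum h1).trans ?_
  rw [← Finset.mul_sum]
  refine mul_le_mul_of_nonneg_left ?_ (Real.rpow_nonneg hE0.le _)
  have hinj : Set.InjOn Nat.primeFactors (T : Set ℕ) := by
    intro e hd e' hd' hdd
    have h2 := Nat.prod_primeFactors_of_squarefree (hT e hd).1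
    have h3 := Nat.prod_primeFactors_of_squarefree (hT e' hd').1
    rw [← h2, ← h3, hdd]
  rw [RPS, Finset.prod_one_add,
    ← Finset.sum_image (f := fun V : Finset ℕ => ∏ l ∈ V, ((l : ℝ) ^ η * |tpS S b t l|)) hinj]
  refine Finset.sum_le_sum_of_subset_of_nonneg ?_ ?_
  · intro V hS
    obtain ⟨e, hd, rfl⟩ := mem_image.1 hS
    rw [mem_powerset]
    intro l hl
    exact Pool.Agent.Lib.H59P.mem_pr.2 ⟨(hT e hd).2.1 l hl, Nat.prime_of_mem_primeFactors hl⟩
  · intro V _ _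
    exact Finset.prod_nonneg fun l _ => mul_nonneg (Real.rpow_nonneg (Nat.cast_nonneg l) _)
      (abs_nonneg _)

theorem t2_diff (η E0 : ℝ) (hη : 0 ≤ η) (hE0 : 0 < E0) (X z R E : ℕ) (hz : z ≤ X) (hE : E ≤ X)
    (h1 : E0 ≤ (z : ℝ)) (h2 : E0 ≤ (E : ℝ)) :
    |∑ e ∈ SF E R, tdS S b t e - SSS S b t ((pr z).filter (fun l : ℕ => ¬ l ∣ R))| ≤ E0 ^ (-η) * RPS S b t η X := by
  classical
  set P : Finset ℕ := (pr z).filter (fun l : ℕ => ¬ l ∣ R) with hP
  have hPm : ∀ l, l ∈ P ↔ (l ≤ z ∧ l.Prime) ∧ ¬ l ∣ R := by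
    intro l
    rw [hP, mem_filter, Pool.Agent.Lib.H59P.mem_pr]
  set A : Finset ℕ := P.powerset.image fun V => ∏ l ∈ V, l with hA
  have hpf : ∀ V ∈ P.powerset, (∏ l ∈ V, l).primeFactors = V := by
    intro V hS
    exact Nat.primeFactors_prod fun l hl => ((hPm l).1 (mem_powerset.1 hS hl)).1.2
  have hSA : SSS S b t P = ∑ e ∈ A, tdS S b t e := by
    rw [t2_SS, hA, Finset.sum_image]
    · refine Finset.sum_congr rfl fun V hS => ?_
      rw [tdS, hpf V hS]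
    · intro V hS V' hS' hSS
      have h3 := congrArg Nat.primeFactors hSS
      rwa [hpf V hS, hpf V' hS'] at h3
  have hAm : ∀ e, e ∈ A ↔ Squarefree e ∧ e.primeFactors ⊆ P := by
    intro e
    rw [hA, mem_image]
    constructor
    · rintro ⟨V, hS, rfl⟩
      refine ⟨?_, ?_⟩
      · refine Finset.squarefree_prod_of_pairwise_isCoprime ?_ ?_
        · intro a ha c hb hab
          have ha' := ((hPm a).1 (mem_powerset.1 hS ha)).1.2
          have hb' := ((hPm c).1 (mem_powerset.1 hS hb)).1.2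
          exact Nat.coprime_iff_isRelPrime.1 ((Nat.coprime_primes ha' hb').2 hab)
        · intro a ha
          exact ((hPm a).1 (mem_powerset.1 hS ha)).1.2.prime.squarefree
      · rw [hpf V hS]
        exact mem_powerset.1 hS
    · rintro ⟨hsq, hsub⟩
      exact ⟨e.primeFactors, mem_powerset.2 hsub, Nat.prod_primeFactors_of_squarefree hsq⟩
  rw [hSA, ← Finset.sum_sdiff_sub_sum_sdiff]
  have hT : ∀ e ∈ (SF E R \ A) ∪ (A \ SF E R),
      Squarefree e ∧ (∀ l ∈ e.primeFactors, l ≤ X) ∧ E0 ≤ (e : ℝ) := by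
    intro e hd
    rcases mem_union.1 hd with hd | hd
    · obtain ⟨hd1, hd2⟩ := mem_sdiff.1 hd
      obtain ⟨h3, h4, h5, h6⟩ := Pool.Agent.Lib.H59P.t3_mem.1 hd1
      have hd0 : e ≠ 0 := by omega
      refine ⟨h5, fun l hl => (Nat.le_of_dvd (by omega) (Nat.dvd_of_mem_primeFactors hl)).trans
        (h4.trans hE), ?_⟩
      by_contra hlt
      push Not at hlt
      apply hd2
      rw [hAm]
      refine ⟨h5, fun l hl => (hPm l).2 ⟨⟨?_, Nat.prime_of_mem_primeFactors hl⟩,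
        (Pool.Agent.Lib.H59P.t3_coprime hd0).1 h6 l hl⟩⟩
      have h7 : l ≤ e := Nat.le_of_dvd (by omega) (Nat.dvd_of_mem_primeFactors hl)
      have h8 : (e : ℝ) ≤ z := by linarith
      exact h7.trans (by exact_mod_cast h8)
    · obtain ⟨hd1, hd2⟩ := mem_sdiff.1 hd
      obtain ⟨h3, h4⟩ := (hAm e).1 hd1
      refine ⟨h3, fun l hl => (((hPm l).1 (h4 hl)).1.1).trans hz, ?_⟩
      by_contra hlt
      push Not at hlt
      apply hd2
      have hd0 : e ≠ 0 := h3.ne_zero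
      have h8 : (e : ℝ) ≤ E := by linarith
      exact Pool.Agent.Lib.H59P.t3_mem.2 ⟨by omega, by exact_mod_cast h8, h3,
        (Pool.Agent.Lib.H59P.t3_coprime hd0).2 fun l hl => ((hPm l).1 (h4 hl)).2⟩
  refine le_trans ?_ (t2_tail S b t η E0 hη hE0 X _ hT)
  have hdisj : Disjoint (SF E R \ A) (A \ SF E R) := by
    rw [Finset.disjoint_left]
    intro e hd hd'
    exact (mem_sdiff.1 hd).2 (mem_sdiff.1 hd').1
  rw [Finset.sum_union hdisj]
  refine (abs_sub _ _).trans ?_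
  exact add_le_add (Finset.abs_sum_le_sum_abs _ _) (Finset.abs_sum_le_sum_abs _ _)

/-- Proof. As `T3_diff` (`H59P/T3.lean`): the difference is a sum of `tdS e` over squarefree `e > E` (with prime factors at most `Q`) and the rest. -/
theorem T3S_diff (η : ℝ) (hη : 0 ≤ η) (Q R E : ℕ) (hE : 1 ≤ E) (hEQ : E ≤ Q) :
    |∑ e ∈ SF E R, tdS S b t e - SSS S b t ((pr Q).filter (fun l : ℕ => ¬ l ∣ R))| ≤
      (E : ℝ) ^ (-η) * RPS S b t η Q := by
  have hE0 : (0 : ℝ) < E := by exact_mod_cast hE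
  exact t2_diff S b t η E hη hE0 Q Q R E le_rfl hEQ (by exact_mod_cast hEQ) le_rfl

end Pool.Agent.H9U
end
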