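import Pool.Agent.Lib.H59M.M1.M062
import Pool.Agent.Lib.H59M.M1.M080

/-! Merged copies (to shorten the build) of Lib.H59X.F2A, Lib.H59X.F2B, Lib.H59X.M1, Lib.H59X.S2, Lib.H59X.L2B, Lib.H59X.L2C, Lib.H59X.L3, Lib.H59X.L4, Lib.H59X.V1, Lib.H59X.V3, Lib.H59X.Z2A, Lib.H59X.T1, Lib.H59X.T2, Lib.H59X.T0, Lib.H59X.Z2B, Lib.H59X.Z1, Lib.H59X.Z3, Lib.H59X.Z4, Lib.H59X.Z5, Lib.H59X.Fin, Lib.H59X.R1, Lib.H59X.R2. -/

-- from Lib.H59X.F2A
section

/-!
# Chunk F2A: products of functions close in mean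
-/

open Finset Polynomial

namespace Pool.Agent.Lib.H59X

open Pool.Agent.Lib.H59 (argSet argCount Admissible primeCount omegaN seriesTrunc rootCount)
open Pool.Agent.Lib.H68T (lp)
open Pool.Agent.Lib.H33B (Lq Lw PW SieveWt)

/-- Proof. Induction on `g` with `box_succ`, `Fin.prod_univ_succ`: `|α_0 ∏ α - β_0 ∏ β| ≤ |α_0 - β_0| ∏ α + β_0 |∏ α - ∏ β|`, sums: `≤ η H_0 (s^g vol H') + s H_0 (g s^g η vol H')`
(`∑_{h'} ∏ α = ∏ ∑ ≤ s^g vol H'`), `≤ (g + 1) s^(g+1) η vol H` as `s ≥ 1`. -/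
theorem prod_l1 {g : ℕ} (H : Fin g → ℕ) (α β : Fin g → ℕ → ℝ) (hα : ∀ i a, 0 ≤ α i a)
    (hβ : ∀ i a, 0 ≤ β i a) (s η : ℝ) (hs : 1 ≤ s) (hη : 0 ≤ η)
    (h1 : ∀ i, ∑ a ∈ Icc 1 (H i), α i a ≤ s * H i) (h2 : ∀ i, ∑ a ∈ Icc 1 (H i), β i a ≤ s * H i)
    (h3 : ∀ i, ∑ a ∈ Icc 1 (H i), |α i a - β i a| ≤ η * H i) :
    ∑ h ∈ Box H, |(∏ i, α i (h i)) - ∏ i, β i (h i)| ≤ g * s ^ g * η * vol H := by
  induction g with
  | zero => simp
  | succ g ih =>
    rw [box_succ]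
    have ih' := ih (fun i => H i.succ) (fun i => α i.succ) (fun i => β i.succ) (fun i a => hα _ a)
      (fun i a => hβ _ a) (fun i => h1 _) (fun i => h2 _) (fun i => h3 _)
    have hA : ∑ h ∈ Box (fun i : Fin g => H i.succ), ∏ i, α i.succ (h i) ≤
        s ^ g * vol (fun i : Fin g => H i.succ) := by
      have e1 : ∑ h ∈ Box (fun i : Fin g => H i.succ), ∏ i, α i.succ (h i) =
          ∏ i : Fin g, ∑ a ∈ Icc 1 (H i.succ), α i.succ a := by
        unfold Box
        exact (prod_univ_sum _ _).symm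
      have e2 : s ^ g * vol (fun i : Fin g => H i.succ) = ∏ i : Fin g, (s * (H i.succ : ℝ)) := by
        rw [prod_mul_distrib, prod_const, card_univ, Fintype.card_fin]
        rfl
      rw [e1, e2]
      exact prod_le_prod (fun i _ => sum_nonneg fun a _ => hα _ a) fun i _ => h1 _
    have hvol : vol H = (H 0 : ℝ) * vol (fun i : Fin g => H i.succ) := by
      unfold vol
      rw [Fin.prod_univ_succ]
    have hv0 : 0 ≤ vol (fun i : Fin g => H i.succ) := by
      unfold vol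
      positivity
    have hsg : 1 ≤ s ^ g := one_le_pow₀ hs
    have hstep : ∀ a ∈ Icc 1 (H 0), ∑ h ∈ Box (fun i : Fin g => H i.succ),
        |(∏ i, α i ((Fin.cons a h : Fin (g + 1) → ℕ) i)) - ∏ i, β i ((Fin.cons a h : Fin (g + 1) → ℕ) i)| ≤
        |α 0 a - β 0 a| * (s ^ g * vol (fun i : Fin g => H i.succ)) +
        β 0 a * (g * s ^ g * η * vol (fun i : Fin g => H i.succ)) := by
      intro a _
      calc ∑ h ∈ Box (fun i : Fin g => H i.succ),
            |(∏ i, α i ((Fin.cons a h : Fin (g + 1) → ℕ) i)) - ∏ i, β i ((Fin.cons a h : Fin (g + 1) → ℕ) i)|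
          ≤ ∑ h ∈ Box (fun i : Fin g => H i.succ), (|α 0 a - β 0 a| * (∏ i, α i.succ (h i)) +
            β 0 a * |(∏ i, α i.succ (h i)) - ∏ i, β i.succ (h i)|) := by
            refine sum_le_sum fun h _ => ?_
            rw [Fin.prod_univ_succ, Fin.prod_univ_succ]
            simp only [Fin.cons_zero, Fin.cons_succ]
            have hp : 0 ≤ ∏ i : Fin g, α i.succ (h i) := prod_nonneg fun i _ => hα _ _
            have e : α 0 a * (∏ i : Fin g, α i.succ (h i)) - β 0 a * ∏ i : Fin g, β i.succ (h i) =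
                (α 0 a - β 0 a) * (∏ i : Fin g, α i.succ (h i)) +
                β 0 a * ((∏ i : Fin g, α i.succ (h i)) - ∏ i : Fin g, β i.succ (h i)) := by ring
            rw [e]
            refine (abs_add_le _ _).trans ?_
            rw [abs_mul, abs_mul, abs_of_nonneg hp, abs_of_nonneg (hβ 0 a)]
        _ = |α 0 a - β 0 a| * (∑ h ∈ Box (fun i : Fin g => H i.succ), ∏ i, α i.succ (h i)) +
            β 0 a * ∑ h ∈ Box (fun i : Fin g => H i.succ), |(∏ i, α i.succ (h i)) - ∏ i, β i.succ (h i)| := by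
            rw [sum_add_distrib, mul_sum, mul_sum]
        _ ≤ _ := add_le_add (mul_le_mul_of_nonneg_left hA (abs_nonneg _))
            (mul_le_mul_of_nonneg_left ih' (hβ 0 a))
    refine (sum_le_sum hstep).trans ?_
    rw [sum_add_distrib, ← sum_mul, ← sum_mul]
    have k1 : (∑ a ∈ Icc 1 (H 0), |α 0 a - β 0 a|) * (s ^ g * vol (fun i : Fin g => H i.succ)) ≤
        (η * H 0) * (s ^ g * vol (fun i : Fin g => H i.succ)) :=
      mul_le_mul_of_nonneg_right (h3 0) (by positivity)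
    have k2 : (∑ a ∈ Icc 1 (H 0), β 0 a) * (g * s ^ g * η * vol (fun i : Fin g => H i.succ)) ≤
        (s * H 0) * (g * s ^ g * η * vol (fun i : Fin g => H i.succ)) :=
      mul_le_mul_of_nonneg_right (h2 0) (by positivity)
    refine (add_le_add k1 k2).trans ?_
    rw [hvol]
    have k3 : (η * H 0) * (s ^ g * vol (fun i : Fin g => H i.succ)) ≤
        s * ((η * H 0) * (s ^ g * vol (fun i : Fin g => H i.succ))) :=
      le_mul_of_one_le_left (by positivity) hs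
    refine (add_le_add k3 le_rfl).trans (le_of_eq ?_)
    push_cast
    ring

end Pool.Agent.Lib.H59X
end

-- from Lib.H59X.F2B
section

/-!
# Chunk F2B: from weighted sums to numbers of primes
-/

open Finset Polynomial

namespace Pool.Agent.Lib.H59X

open Pool.Agent.Lib.H59 (argSet argCount Admissible primeCount omegaN seriesTrunc rootCount)
open Pool.Agent.Lib.H68T (lp)
open Pool.Agent.Lib.H33B (Lq Lw PW SieveWt)

/-- The number of the `n ≤ X` with `B(n)` and all `P_i(n) + h_i` prime. -/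
noncomputable def cntF (r : ℕ) (B : ℤ[X]) {g : ℕ} (P : Fin g → ℤ[X]) (h : Fin g → ℕ) (X : ℕ) : ℝ :=
  ∑ n ∈ Icc 1 X, pb r B n * ∏ i, pr ((P i).eval (n : ℤ) + h i)

/-- The number of the `n ≤ X` with `G(n) < N` and `B(n)`, all `P_i(n) + h_i` and `N - G(n)` prime. -/
noncomputable def cntN (r : ℕ) (B : ℤ[X]) {g : ℕ} (P : Fin g → ℤ[X]) (G : ℤ[X]) (h : Fin g → ℕ)
    (N X : ℕ) : ℝ :=
  ∑ n ∈ (Icc 1 X).filter (fun n : ℕ => G.eval (n : ℤ) < N),
    pb r B n * (∏ i, pr ((P i).eval (n : ℤ) + h i)) * pr ((N : ℤ) - G.eval (n : ℤ))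

theorem f2b_pr_nonneg (m : ℤ) : 0 ≤ pr m := by
  unfold pr; split_ifs <;> norm_num

theorem f2b_pb_nonneg (r : ℕ) (B : ℤ[X]) (n : ℕ) : 0 ≤ pb r B n := by
  unfold pb; split_ifs
  · norm_num
  · exact f2b_pr_nonneg _

theorem f2b_lp_nonneg (m : ℤ) : 0 ≤ lp m := Pool.Agent.Lib.H33B.ENG_lp_nonneg m

theorem f2b_bw_nonneg (r : ℕ) (B : ℤ[X]) (n : ℕ) : 0 ≤ bw r B n := by
  unfold bw; split_ifs
  · norm_num
  · exact f2b_lp_nonneg _

theorem f2b_vol_nonneg {g : ℕ} (H : Fin g → ℕ) : 0 ≤ vol H :=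
  Finset.prod_nonneg fun i _ => Nat.cast_nonneg _

theorem f2b_prod_le {g : ℕ} (H : Fin g → ℕ) (α : Fin g → ℕ → ℝ) (hα : ∀ i a, 0 ≤ α i a) (s : ℝ)
    (h1 : ∀ i, ∑ a ∈ Icc 1 (H i), α i a ≤ s * H i) :
    ∑ h ∈ Box H, ∏ i, α i (h i) ≤ s ^ g * vol H := by
  unfold Box vol
  rw [← Finset.prod_univ_sum]
  calc ∏ i, ∑ a ∈ Icc 1 (H i), α i a ≤ ∏ i, (s * (H i : ℝ)) :=
        Finset.prod_le_prod (fun i _ => Finset.sum_nonneg fun a _ => hα i a) (fun i _ => h1 i)
    _ = s ^ g * ∏ i, (H i : ℝ) := by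
        rw [Finset.prod_mul_distrib, Finset.prod_const, Finset.card_univ, Fintype.card_fin]

theorem f2b_key {g : ℕ} (H : Fin g → ℕ) (S : Finset ℕ) (p q : ℕ → ℝ) (α β : ℕ → Fin g → ℕ → ℝ)
    (hq : ∀ n, 0 ≤ q n)
    (hα : ∀ n i a, 0 ≤ α n i a) (hβ : ∀ n i a, 0 ≤ β n i a) (s η C X : ℝ) (hs : 1 ≤ s)
    (hη : 0 ≤ η)
    (h1 : ∀ n ∈ S, ∀ i, ∑ a ∈ Icc 1 (H i), α n i a ≤ s * H i)
    (h2 : ∀ n ∈ S, ∀ i, ∑ a ∈ Icc 1 (H i), β n i a ≤ s * H i)
    (h3 : ∀ n ∈ S, ∀ i, ∑ a ∈ Icc 1 (H i), |α n i a - β n i a| ≤ η * H i)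
    (h4 : ∑ n ∈ S, |p n - q n| ≤ η * X) (h5 : ∑ n ∈ S, q n ≤ C * X) :
    ∑ n ∈ S, ∑ h ∈ Box H, |p n * (∏ i, α n i (h i)) - q n * ∏ i, β n i (h i)| ≤
      (s ^ g + C * g * s ^ g) * η * X * vol H := by
  have hv := f2b_vol_nonneg H
  have hsg : 0 ≤ s ^ g := by positivity
  have step : ∀ n ∈ S, ∑ h ∈ Box H, |p n * (∏ i, α n i (h i)) - q n * ∏ i, β n i (h i)| ≤
      |p n - q n| * (s ^ g * vol H) + q n * (g * s ^ g * η * vol H) := by
    intro n hn
    calc ∑ h ∈ Box H, |p n * (∏ i, α n i (h i)) - q n * ∏ i, β n i (h i)|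
        ≤ ∑ h ∈ Box H, (|p n - q n| * (∏ i, α n i (h i)) +
            q n * |(∏ i, α n i (h i)) - ∏ i, β n i (h i)|) := by
          apply Finset.sum_le_sum
          intro h _
          have e : p n * (∏ i, α n i (h i)) - q n * ∏ i, β n i (h i) =
              (p n - q n) * (∏ i, α n i (h i)) +
                q n * ((∏ i, α n i (h i)) - ∏ i, β n i (h i)) := by ring
          rw [e]
          refine (abs_add_le _ _).trans (le_of_eq ?_)
          rw [abs_mul, abs_mul, abs_of_nonneg (hq n),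
            abs_of_nonneg (Finset.prod_nonneg fun i _ => hα n i (h i))]
      _ = |p n - q n| * (∑ h ∈ Box H, ∏ i, α n i (h i)) +
            q n * ∑ h ∈ Box H, |(∏ i, α n i (h i)) - ∏ i, β n i (h i)| := by
          rw [Finset.sum_add_distrib, Finset.mul_sum, Finset.mul_sum]
      _ ≤ _ := by
          have a1 := f2b_prod_le H (α n) (hα n) s (h1 n hn)
          have a2 := prod_l1 H (α n) (β n) (hα n) (hβ n) s η hs hη (h1 n hn) (h2 n hn) (h3 n hn)
          have a3 := mul_le_mul_of_nonneg_left a1 (abs_nonneg (p n - q n))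
          have a4 := mul_le_mul_of_nonneg_left a2 (hq n)
          linarith
  calc ∑ n ∈ S, ∑ h ∈ Box H, |p n * (∏ i, α n i (h i)) - q n * ∏ i, β n i (h i)|
      ≤ ∑ n ∈ S, (|p n - q n| * (s ^ g * vol H) + q n * (g * s ^ g * η * vol H)) :=
        Finset.sum_le_sum step
    _ = (∑ n ∈ S, |p n - q n|) * (s ^ g * vol H) + (∑ n ∈ S, q n) * (g * s ^ g * η * vol H) := by
        rw [Finset.sum_add_distrib, Finset.sum_mul, Finset.sum_mul]
    _ ≤ (η * X) * (s ^ g * vol H) + (C * X) * (g * s ^ g * η * vol H) := by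
        have b1 := mul_le_mul_of_nonneg_right h4 (mul_nonneg hsg hv)
        have hg0 : (0 : ℝ) ≤ g := Nat.cast_nonneg g
        have hh : 0 ≤ (g : ℝ) * s ^ g * η * vol H := by positivity
        have b2 := mul_le_mul_of_nonneg_right h5 hh
        linarith
    _ = (s ^ g + C * g * s ^ g) * η * X * vol H := by ring

/-- Chebyshev data for the system `P`. -/
theorem f2b_data {g : ℕ} (P : Fin g → ℤ[X]) (hP : ∀ i, 1 ≤ (P i).natDegree)
    (hl : ∀ i, 0 < (P i).leadingCoeff) (C₁ : ℝ) (hC₁ : 1 ≤ C₁) :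
    ∃ s : ℝ, 1 ≤ s ∧ ∀ η : ℝ, 0 < η → ∃ X₀ : ℕ, ∀ X : ℕ, X₀ ≤ X → ∀ H : Fin g → ℕ,
      Fit C₁ X P H → ∀ n ∈ Icc 1 X, ∀ i,
      ∑ a ∈ Icc 1 (H i), ((P i).natDegree * Real.log X * pr ((P i).eval (n : ℤ) + a)) ≤ s * H i ∧
      ∑ a ∈ Icc 1 (H i), lp ((P i).eval (n : ℤ) + a) ≤ s * H i ∧
      ∑ a ∈ Icc 1 (H i), |(P i).natDegree * Real.log X * pr ((P i).eval (n : ℤ) + a) -
        lp ((P i).eval (n : ℤ) + a)| ≤ η * H i := by
  choose C hC hC' using fun i => cheb_shift (P i) (hP i) (hl i) C₁ hC₁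
  refine ⟨1 + ∑ i, C i, ?_, ?_⟩
  · have : 0 ≤ ∑ i, C i := Finset.sum_nonneg fun i _ => (hC i).le
    linarith
  intro η hη
  choose X₀ hX₀ using fun i => hC' i η hη
  refine ⟨∑ i, X₀ i, ?_⟩
  intro X hX H hF n hn i
  have hXi : X₀ i ≤ X := le_trans (Finset.single_le_sum (f := X₀) (fun j _ => Nat.zero_le _)
    (Finset.mem_univ i)) hX
  obtain ⟨h1, h2⟩ := hX₀ i X hXi (H i) (hF.lo i) (hF.hi i) n hn
  have hCi : C i ≤ 1 + ∑ i, C i := by
    have := Finset.single_le_sum (f := C) (fun j _ => (hC j).le) (Finset.mem_univ i)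
    linarith
  have hH : (0 : ℝ) ≤ H i := Nat.cast_nonneg _
  have hCH : C i * H i ≤ (1 + ∑ i, C i) * H i := mul_le_mul_of_nonneg_right hCi hH
  have hlog : 0 ≤ Real.log X := Real.log_natCast_nonneg X
  have hp : ∀ a : ℕ, 0 ≤ (P i).natDegree * Real.log X * pr ((P i).eval (n : ℤ) + a) := fun a =>
    mul_nonneg (mul_nonneg (Nat.cast_nonneg _) hlog) (f2b_pr_nonneg _)
  refine ⟨le_trans (Finset.sum_le_sum fun a _ => ?_) (h2.trans hCH),
    le_trans (Finset.sum_le_sum fun a _ => ?_) (h2.trans hCH), h1⟩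
  · have := f2b_lp_nonneg ((P i).eval (n : ℤ) + a)
    linarith
  · have := hp a
    linarith

theorem f2b_tend (G : ℤ[X]) (hG : 1 ≤ G.natDegree) (hlc : 0 < G.leadingCoeff) (X₀ : ℕ) :
    ∃ Y₂ : ℕ, ∀ Y : ℕ, Y₂ ≤ Y → X₀ ≤ argCount G Y := by
  have h := Pool.Agent.Lib.H59.argCount_tendsto hG hlc
  exact Filter.eventually_atTop.mp (h.eventually_ge_atTop X₀)

/-- Proof. `L = log X`. `∑_n |(L^r pb) ∏ (d_i L pr_i) - bw ∏ lp_i| ≤ ∑_n |L^r pb - bw| ∏ (d_i L pr_i) + ∑_n bw |∏ (d_i L pr_i) - ∏ lp_i|`. For each `n` sum over `h ∈ Box H`: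
`∑_h ∏ (d_i L pr_i) ≤ s^g vol H` (`cheb_shift`, `s` the maximum of `1` and the constants), `∑_h |∏ - ∏| ≤ g s^g η vol H` (`prod_l1`, `cheb_shift` with `η`); then sum over `n` by `BCh`:
`≤ (η s^g + C₂ g s^g η) X vol H ≤ ε X vol H`. -/
theorem count_fix {g : ℕ} (P : Fin g → ℤ[X]) (hP : ∀ i, 1 ≤ (P i).natDegree)
    (hl : ∀ i, 0 < (P i).leadingCoeff) (C₁ : ℝ) (hC₁ : 1 ≤ C₁) (C₂ ε : ℝ) (hε : 0 < ε) :
    ∃ η : ℝ, 0 < η ∧ ∃ X₀ : ℕ, ∀ X : ℕ, X₀ ≤ X → ∀ H : Fin g → ℕ, Fit C₁ X P H →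
    ∀ (r : ℕ) (B : ℤ[X]), BCh r B X η C₂ →
    ∑ h ∈ Box H, |(∏ i, ((P i).natDegree : ℝ)) * Real.log X ^ (g + r) * cntF r B P h X -
      ∑ n ∈ Icc 1 X, bw r B n * ∏ i, lp ((P i).eval (n : ℤ) + h i)| ≤ ε * X * vol H := by
  obtain ⟨s, hs, hdata⟩ := f2b_data P hP hl C₁ hC₁
  set K : ℝ := s ^ g + |C₂| * g * s ^ g with hK
  have hs0 : 0 < s := by linarith
  have hK0 : 0 < K := by positivity
  refine ⟨ε / K, by positivity, ?_⟩
  obtain ⟨X₀, hX₀⟩ := hdata (ε / K) (by positivity)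
  refine ⟨X₀, ?_⟩
  intro X hX H hF r B hB
  obtain ⟨hB1, hB2⟩ := hB
  have hlog : 0 ≤ Real.log X := Real.log_natCast_nonneg X
  have hpq : ∑ n ∈ Icc 1 X, bw r B n ≤ |C₂| * X := by
    have h1 : ∑ n ∈ Icc 1 X, bw r B n ≤ ∑ n ∈ Icc 1 X, (Real.log X ^ r * pb r B n + bw r B n) :=
      Finset.sum_le_sum fun n _ => by
        have := mul_nonneg (pow_nonneg hlog r) (f2b_pb_nonneg r B n)
        linarith
    have h2 : C₂ * X ≤ |C₂| * X := mul_le_mul_of_nonneg_right (le_abs_self _) (Nat.cast_nonneg _)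
    linarith
  have key := f2b_key H (Icc 1 X) (fun n => Real.log X ^ r * pb r B n) (fun n => bw r B n)
    (fun n i a => (P i).natDegree * Real.log X * pr ((P i).eval (n : ℤ) + a))
    (fun n i a => lp ((P i).eval (n : ℤ) + a)) (fun n => f2b_bw_nonneg r B n)
    (fun n i a => mul_nonneg (mul_nonneg (Nat.cast_nonneg _) hlog) (f2b_pr_nonneg _))
    (fun n i a => f2b_lp_nonneg _) s (ε / K) |C₂| X hs (by positivity)
    (fun n hn i => (hX₀ X hX H hF n hn i).1) (fun n hn i => (hX₀ X hX H hF n hn i).2.1)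
    (fun n hn i => (hX₀ X hX H hF n hn i).2.2) hB1 hpq
  rw [Finset.sum_comm] at key
  have e1 : (s ^ g + |C₂| * g * s ^ g) * (ε / K) * X * vol H = ε * X * vol H := by
    rw [← hK]; field_simp
  rw [e1] at key
  refine le_trans (Finset.sum_le_sum fun h _ => ?_) key
  have e2 : (∏ i, ((P i).natDegree : ℝ)) * Real.log X ^ (g + r) * cntF r B P h X -
      ∑ n ∈ Icc 1 X, bw r B n * ∏ i, lp ((P i).eval (n : ℤ) + h i) =
      ∑ n ∈ Icc 1 X, (Real.log X ^ r * pb r B n *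
        (∏ i, ((P i).natDegree * Real.log X * pr ((P i).eval (n : ℤ) + h i))) -
        bw r B n * ∏ i, lp ((P i).eval (n : ℤ) + h i)) := by
    unfold cntF
    rw [Finset.mul_sum, Finset.sum_sub_distrib]
    congr 1
    apply Finset.sum_congr rfl
    intro n _
    rw [Finset.prod_mul_distrib, Finset.prod_mul_distrib, Finset.prod_const, Finset.card_univ,
      Fintype.card_fin]
    ring
  rw [e2]
  exact Finset.abs_sum_le_sum_abs _ _

/-- Proof. As `count_fix`, with the additional factor `k L pr(N - G(n))` resp. `lp(N - G(n))`, `k = deg G`, `L = log X`, `X = argCount G Y`, summed over `N ≤ Y` by `cheb_N` (drop the condition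
`G(n) < N` after taking absolute values inside the sum over `n`). -/
theorem count_avg {g : ℕ} (G : ℤ[X]) (hG : 1 ≤ G.natDegree) (hlc : 0 < G.leadingCoeff)
    (P : Fin g → ℤ[X]) (hP : ∀ i, 1 ≤ (P i).natDegree)
    (hl : ∀ i, 0 < (P i).leadingCoeff) (C₁ : ℝ) (hC₁ : 1 ≤ C₁) (C₂ ε : ℝ) (hε : 0 < ε) :
    ∃ η : ℝ, 0 < η ∧ ∃ Y₀ : ℕ, ∀ Y : ℕ, Y₀ ≤ Y → ∀ H : Fin g → ℕ, Fit C₁ (argCount G Y) P H →
    ∀ (r : ℕ) (B : ℤ[X]), BCh r B (argCount G Y) η C₂ →
    ∑ h ∈ Box H, ∑ N ∈ Icc 1 Y, |((G.natDegree : ℝ) * ∏ i, ((P i).natDegree : ℝ)) *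
      Real.log (argCount G Y) ^ (g + r + 1) * cntN r B P G h N (argCount G Y) -
      ∑ n ∈ (Icc 1 (argCount G Y)).filter (fun n : ℕ => G.eval (n : ℤ) < N),
        bw r B n * (∏ i, lp ((P i).eval (n : ℤ) + h i)) * lp ((N : ℤ) - G.eval (n : ℤ))| ≤
      ε * Y * argCount G Y * vol H := by
  obtain ⟨s, hs, hdata⟩ := f2b_data P hP hl C₁ hC₁
  obtain ⟨C₃, hC₃, hN⟩ := cheb_N G hG hlc
  set K : ℝ := C₃ * (s ^ g + |C₂| * g * s ^ g) + |C₂| * s ^ g with hK
  have hs0 : 0 < s := by linarith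
  have hK0 : 0 < K := by positivity
  refine ⟨ε / K, by positivity, ?_⟩
  obtain ⟨X₀, hX₀⟩ := hdata (ε / K) (by positivity)
  obtain ⟨Y₁, hY₁⟩ := hN (ε / K) (by positivity)
  obtain ⟨Y₂, hY₂⟩ := f2b_tend G hG hlc X₀
  refine ⟨max Y₁ Y₂, ?_⟩
  intro Y hY H hF r B hB
  have hX : X₀ ≤ argCount G Y := hY₂ Y (le_trans (le_max_right _ _) hY)
  have hYN := hY₁ Y (le_trans (le_max_left _ _) hY)
  set X := argCount G Y with hXdef
  obtain ⟨hB1, hB2⟩ := hB
  have hlog : 0 ≤ Real.log X := Real.log_natCast_nonneg X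
  have hpq : ∑ n ∈ Icc 1 X, bw r B n ≤ |C₂| * X := by
    have h1 : ∑ n ∈ Icc 1 X, bw r B n ≤ ∑ n ∈ Icc 1 X, (Real.log X ^ r * pb r B n + bw r B n) :=
      Finset.sum_le_sum fun n _ => by
        have := mul_nonneg (pow_nonneg hlog r) (f2b_pb_nonneg r B n)
        linarith
    have h2 : C₂ * X ≤ |C₂| * X := mul_le_mul_of_nonneg_right (le_abs_self _) (Nat.cast_nonneg _)
    linarith
  have key := f2b_key H (Icc 1 X) (fun n => Real.log X ^ r * pb r B n) (fun n => bw r B n)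
    (fun n i a => (P i).natDegree * Real.log X * pr ((P i).eval (n : ℤ) + a))
    (fun n i a => lp ((P i).eval (n : ℤ) + a)) (fun n => f2b_bw_nonneg r B n)
    (fun n i a => mul_nonneg (mul_nonneg (Nat.cast_nonneg _) hlog) (f2b_pr_nonneg _))
    (fun n i a => f2b_lp_nonneg _) s (ε / K) |C₂| X hs (by positivity)
    (fun n hn i => (hX₀ X hX H hF n hn i).1) (fun n hn i => (hX₀ X hX H hF n hn i).2.1)
    (fun n hn i => (hX₀ X hX H hF n hn i).2.2) hB1 hpq
  have hv := f2b_vol_nonneg H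
  -- the second term
  have key2 : ∑ n ∈ Icc 1 X, ∑ h ∈ Box H, bw r B n * ∏ i, lp ((P i).eval (n : ℤ) + h i) ≤
      |C₂| * X * (s ^ g * vol H) := by
    calc ∑ n ∈ Icc 1 X, ∑ h ∈ Box H, bw r B n * ∏ i, lp ((P i).eval (n : ℤ) + h i)
        ≤ ∑ n ∈ Icc 1 X, bw r B n * (s ^ g * vol H) := by
          apply Finset.sum_le_sum
          intro n hn
          rw [← Finset.mul_sum]
          exact mul_le_mul_of_nonneg_left (f2b_prod_le H
            (fun i a => lp ((P i).eval (n : ℤ) + a)) (fun i a => f2b_lp_nonneg _) s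
            (fun i => (hX₀ X hX H hF n hn i).2.1)) (f2b_bw_nonneg r B n)
      _ = (∑ n ∈ Icc 1 X, bw r B n) * (s ^ g * vol H) := by rw [Finset.sum_mul]
      _ ≤ _ := mul_le_mul_of_nonneg_right hpq (by positivity)
  have hk0 : (0 : ℝ) ≤ G.natDegree := Nat.cast_nonneg _
  have hγ0 : ∀ (N n : ℕ), 0 ≤ (G.natDegree : ℝ) * Real.log X * pr ((N : ℤ) - G.eval (n : ℤ)) :=
    fun N n => mul_nonneg (mul_nonneg hk0 hlog) (f2b_pr_nonneg _)
  -- pointwise in `h`, `n`
  have point : ∀ h ∈ Box H, ∀ n ∈ Icc 1 X, ∑ N ∈ Icc 1 Y,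
      |Real.log X ^ r * pb r B n *
        (∏ i, ((P i).natDegree * Real.log X * pr ((P i).eval (n : ℤ) + h i))) *
        ((G.natDegree : ℝ) * Real.log X * pr ((N : ℤ) - G.eval (n : ℤ))) -
        bw r B n * (∏ i, lp ((P i).eval (n : ℤ) + h i)) * lp ((N : ℤ) - G.eval (n : ℤ))| ≤
      |Real.log X ^ r * pb r B n *
        (∏ i, ((P i).natDegree * Real.log X * pr ((P i).eval (n : ℤ) + h i))) -
        bw r B n * (∏ i, lp ((P i).eval (n : ℤ) + h i))| * (C₃ * Y) +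
      (bw r B n * (∏ i, lp ((P i).eval (n : ℤ) + h i))) * (ε / K * Y) := by
    intro h _ n _
    obtain ⟨c1, c2⟩ := hYN n
    set a := Real.log X ^ r * pb r B n *
        (∏ i, ((P i).natDegree * Real.log X * pr ((P i).eval (n : ℤ) + h i))) with ha
    set b := bw r B n * (∏ i, lp ((P i).eval (n : ℤ) + h i)) with hb
    have hb0 : 0 ≤ b := mul_nonneg (f2b_bw_nonneg r B n)
      (Finset.prod_nonneg fun i _ => f2b_lp_nonneg _)
    have c3 : ∑ N ∈ Icc 1 Y, (G.natDegree : ℝ) * Real.log X * pr ((N : ℤ) - G.eval (n : ℤ)) ≤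
        C₃ * Y := le_trans (Finset.sum_le_sum fun N _ => by
          have := f2b_lp_nonneg ((N : ℤ) - G.eval (n : ℤ))
          linarith) c2
    calc _ ≤ ∑ N ∈ Icc 1 Y, (|a - b| *
            ((G.natDegree : ℝ) * Real.log X * pr ((N : ℤ) - G.eval (n : ℤ))) +
            b * |(G.natDegree : ℝ) * Real.log X * pr ((N : ℤ) - G.eval (n : ℤ)) -
              lp ((N : ℤ) - G.eval (n : ℤ))|) := by
          apply Finset.sum_le_sum
          intro N _
          have e : a * ((G.natDegree : ℝ) * Real.log X * pr ((N : ℤ) - G.eval (n : ℤ))) -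
              b * lp ((N : ℤ) - G.eval (n : ℤ)) =
              (a - b) * ((G.natDegree : ℝ) * Real.log X * pr ((N : ℤ) - G.eval (n : ℤ))) +
              b * ((G.natDegree : ℝ) * Real.log X * pr ((N : ℤ) - G.eval (n : ℤ)) -
                lp ((N : ℤ) - G.eval (n : ℤ))) := by ring
          rw [e]
          refine (abs_add_le _ _).trans (le_of_eq ?_)
          rw [abs_mul (a - b), abs_mul b, abs_of_nonneg (hγ0 N n), abs_of_nonneg hb0]
      _ = |a - b| * (∑ N ∈ Icc 1 Y,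
            (G.natDegree : ℝ) * Real.log X * pr ((N : ℤ) - G.eval (n : ℤ))) +
            b * ∑ N ∈ Icc 1 Y, |(G.natDegree : ℝ) * Real.log X * pr ((N : ℤ) - G.eval (n : ℤ)) -
              lp ((N : ℤ) - G.eval (n : ℤ))| := by
          rw [Finset.sum_add_distrib, Finset.mul_sum, Finset.mul_sum]
      _ ≤ _ := add_le_add (mul_le_mul_of_nonneg_left c3 (abs_nonneg _))
          (mul_le_mul_of_nonneg_left c1 hb0)
  have main : ∑ h ∈ Box H, ∑ n ∈ Icc 1 X, ∑ N ∈ Icc 1 Y,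
      |Real.log X ^ r * pb r B n *
        (∏ i, ((P i).natDegree * Real.log X * pr ((P i).eval (n : ℤ) + h i))) *
        ((G.natDegree : ℝ) * Real.log X * pr ((N : ℤ) - G.eval (n : ℤ))) -
        bw r B n * (∏ i, lp ((P i).eval (n : ℤ) + h i)) * lp ((N : ℤ) - G.eval (n : ℤ))| ≤
      ε * Y * X * vol H := by
    calc _ ≤ ∑ h ∈ Box H, ∑ n ∈ Icc 1 X, (|Real.log X ^ r * pb r B n *
            (∏ i, ((P i).natDegree * Real.log X * pr ((P i).eval (n : ℤ) + h i))) -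
            bw r B n * (∏ i, lp ((P i).eval (n : ℤ) + h i))| * (C₃ * Y) +
          (bw r B n * (∏ i, lp ((P i).eval (n : ℤ) + h i))) * (ε / K * Y)) :=
          Finset.sum_le_sum fun h hh => Finset.sum_le_sum fun n hn => point h hh n hn
      _ = (∑ n ∈ Icc 1 X, ∑ h ∈ Box H, |Real.log X ^ r * pb r B n *
            (∏ i, ((P i).natDegree * Real.log X * pr ((P i).eval (n : ℤ) + h i))) -
            bw r B n * (∏ i, lp ((P i).eval (n : ℤ) + h i))|) * (C₃ * Y) +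
          (∑ n ∈ Icc 1 X, ∑ h ∈ Box H, bw r B n * (∏ i, lp ((P i).eval (n : ℤ) + h i))) *
            (ε / K * Y) := by
          rw [Finset.sum_comm (s := Icc 1 X), Finset.sum_comm (s := Icc 1 X)]
          simp only [Finset.sum_add_distrib, Finset.sum_mul]
      _ ≤ ((s ^ g + |C₂| * g * s ^ g) * (ε / K) * X * vol H) * (C₃ * Y) +
          (|C₂| * X * (s ^ g * vol H)) * (ε / K * Y) :=
          add_le_add (mul_le_mul_of_nonneg_right key (by positivity))
            (mul_le_mul_of_nonneg_right key2 (by positivity))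
      _ = K * (ε / K) * Y * X * vol H := by rw [hK]; ring
      _ = ε * Y * X * vol H := by rw [mul_div_cancel₀ _ hK0.ne']
  refine le_trans (Finset.sum_le_sum fun h _ => ?_) main
  rw [Finset.sum_comm (s := Icc 1 X)]
  apply Finset.sum_le_sum
  intro N _
  have e2 : ((G.natDegree : ℝ) * ∏ i, ((P i).natDegree : ℝ)) *
      Real.log X ^ (g + r + 1) * cntN r B P G h N X -
      ∑ n ∈ (Icc 1 X).filter (fun n : ℕ => G.eval (n : ℤ) < N),
        bw r B n * (∏ i, lp ((P i).eval (n : ℤ) + h i)) * lp ((N : ℤ) - G.eval (n : ℤ)) =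
      ∑ n ∈ (Icc 1 X).filter (fun n : ℕ => G.eval (n : ℤ) < N), (Real.log X ^ r * pb r B n *
        (∏ i, ((P i).natDegree * Real.log X * pr ((P i).eval (n : ℤ) + h i))) *
        ((G.natDegree : ℝ) * Real.log X * pr ((N : ℤ) - G.eval (n : ℤ))) -
        bw r B n * (∏ i, lp ((P i).eval (n : ℤ) + h i)) * lp ((N : ℤ) - G.eval (n : ℤ))) := by
    unfold cntN
    rw [Finset.mul_sum, Finset.sum_sub_distrib]
    congr 1
    apply Finset.sum_congr rfl
    intro n _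
    rw [Finset.prod_mul_distrib, Finset.prod_mul_distrib, Finset.prod_const, Finset.card_univ,
      Fintype.card_fin]
    ring
  rw [e2]
  refine (Finset.abs_sum_le_sum_abs _ _).trans ?_
  exact Finset.sum_le_sum_of_subset_of_nonneg (Finset.filter_subset _ _)
    fun n _ _ => abs_nonneg _

end Pool.Agent.Lib.H59X
end

-- from Lib.H59X.M1
section

/-!
# Chunk M1: sums of the model
-/

open Finset Polynomial

namespace Pool.Agent.Lib.H59X

open Pool.Agent.Lib.H59 (argSet argCount Admissible primeCount omegaN seriesTrunc rootCount)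
open Pool.Agent.Lib.H68T (lp)
open Pool.Agent.Lib.H33B (Lq Lw PW SieveWt)

theorem M1_PW_dvd {w U : ℕ} (h : w ≤ U) : PW w ∣ PW U := by
  unfold PW
  apply Finset.prod_dvd_prod_of_subset
  intro p hp
  rw [Nat.mem_primesBelow] at hp ⊢
  exact ⟨by omega, hp.2⟩

theorem M1_Lw_mod (w : ℕ) (m m' : ℤ) (h : ((PW w : ℕ) : ℤ) ∣ m - m') : Lw w m = Lw w m' := by
  unfold Pool.Agent.Lib.H33B.Lw Pool.Agent.Lib.H33B.Lq
  have h1 : IsCoprime m ((PW w : ℕ) : ℤ) ↔ IsCoprime m' ((PW w : ℕ) : ℤ) := by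
    obtain ⟨c, hc⟩ := h
    have h2 : m = m' + ((PW w : ℕ) : ℤ) * c := by linarith
    rw [h2]
    exact IsCoprime.add_mul_left_left_iff
  by_cases h3 : IsCoprime m ((PW w : ℕ) : ℤ)
  · rw [if_pos h3, if_pos (h1.1 h3)]
  · rw [if_neg h3, if_neg (fun h4 => h3 (h1.2 h4))]

theorem M1_Lw_le (w : ℕ) (m : ℤ) : Lw w m ≤ PW w := by
  unfold Pool.Agent.Lib.H33B.Lw Pool.Agent.Lib.H33B.Lq
  have hP : 0 < PW w := H33B.PW_pos w
  split_ifs
  · have h1 : (1 : ℝ) ≤ ((PW w).totient : ℝ) := by exact_mod_cast Nat.totient_pos.2 hP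
    exact div_le_self (Nat.cast_nonneg _) h1
  · exact Nat.cast_nonneg _

/-- Proof. `Φ(n) = ∏ Lw (u i)(P_i(n) + h_i)` depends only on `n` modulo `PW U` (`PW (u i) ∣ PW U`) and `0 ≤ Φ ≤ (PW U)^g` (`Lw w m ≤ PW w/φ(PW w) ≤ PW w ≤ PW U`). Split `[1, x]` into the classes
`v < PW U`: `∑_{n ≤ x} bw(n) Φ(n) = ∑_v Φ(v) ∑_{n ≡ v} bw(n)`, and `x mixv = ∑_v Φ(v) (x/PW U) bL(v)`. -/
theorem per_sum (r : ℕ) (B : ℤ[X]) {g : ℕ} (P : Fin g → ℤ[X]) (u : Fin g → ℕ) (U X : ℕ) (η : ℝ)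
    (hu : ∀ i, u i ≤ U) (hη : BEq r B U X η) (x : ℕ) (hx : x ≤ X) (h : Fin g → ℕ) :
    |∑ n ∈ Icc 1 x, bw r B n * ∏ i, Lw (u i) ((P i).eval (n : ℤ) + h i) - x * mixv r B P u U h| ≤
      (PW U : ℝ) ^ (g + 1) * (η * X) := by
  classical
  set q := PW U with hq
  have hqpos : 0 < q := H33B.PW_pos U
  have hqr : (0 : ℝ) < q := by exact_mod_cast hqpos
  set Φ : ℕ → ℝ := fun n => ∏ i, Lw (u i) ((P i).eval (n : ℤ) + h i) with hΦ
  have hΦ0 : ∀ n, 0 ≤ Φ n := fun n => prod_nonneg fun i _ => H33B.ENG_Lw_nonneg _ _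
  have hΦ1 : ∀ n, Φ n ≤ (q : ℝ) ^ g := by
    intro n
    calc Φ n ≤ ∏ _i : Fin g, (q : ℝ) := by
          refine prod_le_prod (fun i _ => H33B.ENG_Lw_nonneg _ _) fun i _ => ?_
          refine (M1_Lw_le _ _).trans ?_
          exact_mod_cast Nat.le_of_dvd hqpos (M1_PW_dvd (hu i))
      _ = (q : ℝ) ^ g := by rw [prod_const, card_univ, Fintype.card_fin]
  have hper : ∀ n v : ℕ, n ≡ v [MOD q] → Φ n = Φ v := by
    intro n v hnv
    refine prod_congr rfl fun i _ => ?_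
    apply M1_Lw_mod
    have h1 : ((q : ℕ) : ℤ) ∣ (n : ℤ) - v := by
      have h2 := (Nat.modEq_iff_dvd.1 hnv)
      have h3 := (dvd_neg.2 h2)
      simpa using h3
    have h2 : (n : ℤ) - v ∣ (P i).eval (n : ℤ) - (P i).eval (v : ℤ) := sub_dvd_eval_sub _ _ _
    have h3 : ((PW (u i) : ℕ) : ℤ) ∣ ((q : ℕ) : ℤ) := by exact_mod_cast M1_PW_dvd (hu i)
    have h4 := h3.trans (h1.trans h2)
    have h5 : (P i).eval (n : ℤ) + (h i : ℤ) - ((P i).eval (v : ℤ) + (h i : ℤ)) =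
        (P i).eval (n : ℤ) - (P i).eval (v : ℤ) := by ring
    rw [h5]
    exact h4
  have hsum : ∑ n ∈ Icc 1 x, bw r B n * Φ n =
      ∑ v ∈ range q, Φ v * ∑ n ∈ (Icc 1 x).filter (fun n => n ≡ v [MOD q]), bw r B n := by
    have hmaps : ∀ n ∈ Icc 1 x, n % q ∈ range q := fun n _ => by
      rw [mem_range]; exact Nat.mod_lt _ hqpos
    rw [← sum_fiberwise_of_maps_to hmaps]
    refine sum_congr rfl fun v hv => ?_
    rw [mem_range] at hv
    rw [mul_sum]
    have h1 : (Icc 1 x).filter (fun n => n % q = v) = (Icc 1 x).filter (fun n => n ≡ v [MOD q]) := by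
      refine filter_congr fun n _ => ?_
      unfold Nat.ModEq
      rw [Nat.mod_eq_of_lt hv]
    rw [h1]
    refine sum_congr rfl fun n hn => ?_
    rw [hper n v (mem_filter.1 hn).2]
    ring
  have hmix : (x : ℝ) * mixv r B P u U h = ∑ v ∈ range q, Φ v * (x / q * bL r B q v) := by
    unfold mixv
    rw [← mul_div_assoc, mul_sum, sum_div]
    refine sum_congr rfl fun v _ => ?_
    rw [← hq]
    simp only [hΦ]
    ring
  rw [hsum, hmix, ← sum_sub_distrib]
  refine (abs_sum_le_sum_abs _ _).trans ?_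
  have hηX : 0 ≤ η * X := (abs_nonneg _).trans (hη x hx 0)
  have h1 : ∀ v ∈ range q, |Φ v * ∑ n ∈ (Icc 1 x).filter (fun n => n ≡ v [MOD q]), bw r B n -
      Φ v * (x / q * bL r B q v)| ≤ (q : ℝ) ^ g * (η * X) := by
    intro v _
    rw [← mul_sub, abs_mul, abs_of_nonneg (hΦ0 v)]
    exact mul_le_mul (hΦ1 v) (hη x hx v) (abs_nonneg _) (by positivity)
  refine (sum_le_sum h1).trans ?_
  rw [sum_const, card_range, nsmul_eq_mul, pow_succ]
  exact le_of_eq (by ring)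

end Pool.Agent.Lib.H59X
end

-- from Lib.H59X.S2
section

/-!
# Chunk S2: the weights
-/

open Finset Polynomial

namespace Pool.Agent.Lib.H59X

open Pool.Agent.Lib.H59 (argSet argCount Admissible primeCount omegaN seriesTrunc rootCount)
open Pool.Agent.Lib.H68T (lp)
open Pool.Agent.Lib.H33B (Lq Lw PW SieveWt AllPrime)

theorem s2_root1 {f : ℤ[X]} {p : ℕ} (hp : p.Prime) (h : ¬ (p : ℤ) ∣ f.leadingCoeff) :
    rootCount f p ≤ f.natDegree := by
  classical
  have : Fact p.Prime := ⟨hp⟩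
  set g := f.map (Int.castRingHom (ZMod p)) with hg
  have hg0 : g ≠ 0 := by
    intro h0
    apply h
    have h1 : g.coeff f.natDegree = 0 := by rw [h0, coeff_zero]
    rw [hg, coeff_map, eq_intCast] at h1
    exact (ZMod.intCast_zmod_eq_zero_iff_dvd _ _).mp h1
  have h1 : rootCount f p ≤ g.roots.toFinset.card := by
    unfold rootCount
    refine Finset.card_le_card_of_injOn (fun a : ℕ => (a : ZMod p)) ?_ ?_
    · intro a ha
      rw [Finset.mem_coe, Finset.mem_filter] at ha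
      rw [Finset.mem_coe, Multiset.mem_toFinset, mem_roots hg0, IsRoot.def, hg]
      have h2 : ((f.eval (a : ℤ) : ℤ) : ZMod p) = 0 :=
        (ZMod.intCast_zmod_eq_zero_iff_dvd _ _).mpr ha.2
      rw [eval_map, eval₂_eq_eval_map] at *
      have h3 := eval_intCast_map (Int.castRingHom (ZMod p)) f (a : ℤ)
      simp only [Int.cast_natCast, eq_intCast] at h3
      rw [h3]
      exact h2
    · intro a ha b hb hab
      rw [Finset.mem_coe, Finset.mem_filter, Finset.mem_range] at ha hb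
      have := (ZMod.natCast_eq_natCast_iff' a b p).mp hab
      rwa [Nat.mod_eq_of_lt ha.1, Nat.mod_eq_of_lt hb.1] at this
  refine h1.trans ((Multiset.toFinset_card_le _).trans ((card_roots' g).trans ?_))
  rw [hg]
  exact natDegree_map_le

theorem s2_root {m : ℕ} (R : Fin m → ℤ[X]) (A κ : ℕ) (hd : ∀ i, 1 ≤ (R i).natDegree)
    (hlc : ∀ i, (R i).leadingCoeff.natAbs ≤ A) (hs : ∑ i, (R i).natDegree ≤ κ) (hA : A ≤ κ)
    (p : ℕ) (hp : p.Prime) (h : rootCount (∏ i, R i) p < p) : rootCount (∏ i, R i) p ≤ κ := by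
  by_cases hpA : p ≤ A
  · omega
  · refine (Pool.Agent.Lib.H59.rootCount_prod_le univ R hp).trans
      ((sum_le_sum fun i _ => s2_root1 hp ?_).trans hs)
    intro h1
    have h2 : (R i).leadingCoeff ≠ 0 := by
      rw [Ne, leadingCoeff_eq_zero]
      intro h0
      have := hd i
      rw [h0, natDegree_zero] at this
      omega
    have h3 := Int.natAbs_dvd_natAbs.2 h1
    rw [Int.natAbs_natCast] at h3
    have h4 := Nat.le_of_dvd (Int.natAbs_pos.2 h2) h3
    have := hlc i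
    omega

theorem s2_lp0 (m : ℤ) : 0 ≤ lp m := by
  unfold H68T.lp
  split_ifs with h
  · apply Real.log_nonneg
    have h1 : 0 < m := by
      by_contra h2
      rw [Int.toNat_of_nonpos (not_lt.1 h2)] at h
      exact Nat.not_prime_zero h
    exact_mod_cast h1
  · exact le_rfl

theorem s2_lpe (m : ℤ) (h : lp m ≠ 0) : ∃ q : ℕ, q.Prime ∧ m = q := by
  unfold H68T.lp at h
  have h1 : m.toNat.Prime := by
    by_contra h1
    rw [if_neg h1] at h
    exact h rfl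
  have h2 : 0 < m := by
    by_contra h2
    rw [Int.toNat_of_nonpos (not_lt.1 h2)] at h1
    exact Nat.not_prime_zero h1
  exact ⟨m.toNat, h1, (Int.toNat_of_nonneg h2.le).symm⟩

theorem s2_lple (m : ℤ) {T L : ℝ} (hT : (m : ℝ) ≤ T) (hL0 : 0 ≤ L) (hL : Real.log T ≤ L) :
    lp m ≤ L := by
  by_cases h : lp m = 0
  · rw [h]; exact hL0
  · obtain ⟨q, hq, hm⟩ := s2_lpe m h
    unfold H68T.lp
    rw [if_pos (by rw [hm, Int.toNat_natCast]; exact hq)]
    refine le_trans (Real.log_le_log ?_ hT) hL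
    rw [hm]
    exact_mod_cast hq.pos

theorem s2_ssz {m : ℕ} (Q : ℤ[X]) (z : ℕ) : 0 ≤ ssz m Q z := by
  unfold ssz
  refine prod_nonneg fun p hp => ?_
  have hpp := Nat.prime_of_mem_primesBelow hp
  have hp0 : (0 : ℝ) < p := by exact_mod_cast hpp.pos
  have h1 : (rootCount Q p : ℝ) ≤ p := by
    exact_mod_cast Pool.Agent.Lib.H59.rootCount_le_self Q p
  have h2 : (rootCount Q p : ℝ) / p ≤ 1 := (div_le_one hp0).2 h1
  have h3 : 1 / (p : ℝ) ≤ 1 := by
    rw [div_le_one hp0]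
    exact_mod_cast hpp.one_lt.le
  have h4 : 0 ≤ 1 - 1 / (p : ℝ) := by linarith
  exact mul_nonneg (by linarith) (inv_nonneg.2 (pow_nonneg h4 _))

open Classical in
theorem s2_gen (m κ M : ℕ) (Cs C' Ce K A₀ : ℝ) (X : ℕ) (R : Fin m → ℤ[X]) (f : ℕ → ℝ)
    (hf0 : ∀ n ∈ Icc 1 X, 0 ≤ f n)
    (hf1 : ∀ n ∈ Icc 1 X, AllPrime R n → f n ≤ (C' * Real.log X) ^ m)
    (hf2 : ∀ n ∈ Icc 1 X, ¬ AllPrime R n → f n = 0)
    (hs : ∀ q b : ℕ, Squarefree q → (q : ℝ) ≤ Real.log X ^ K →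
      (((Icc 1 X).filter (fun n => n ≡ b [MOD q] ∧ AllPrime R n)).card : ℝ) ≤
      ((2 * κ + 2 : ℕ) : ℝ) ^ q.primeFactors.card * ((X : ℝ) / q) * (Cs / Real.log X ^ m) *
        (1 + ssz m (∏ i, R i) (zz M X)))
    (hA : C' ^ m * Cs ≤ A₀) (hA1 : 1 ≤ A₀) (hlog : 1 ≤ Real.log X) (hC' : 0 ≤ C')
    (hle : (C' * Real.log X) ^ m ≤ Real.log X ^ Ce) (hCe : 0 ≤ Ce) :
    SieveWt (2 * κ + 2) Ce K X X (A₀ * X * (1 + ssz m (∏ i, R i) (zz M X))) f := by
  have hL0 : 0 < Real.log X := by linarith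
  have hpow : 1 ≤ Real.log X ^ Ce := Real.one_le_rpow hlog hCe
  have hpm : 0 ≤ (C' * Real.log X) ^ m := by positivity
  have hsz := s2_ssz (m := m) (∏ i, R i) (zz M X)
  refine ⟨hf0, fun n hn => ?_, fun q b hq hqK => ?_, ?_⟩
  · by_cases h : AllPrime R n
    · exact (hf1 n hn h).trans hle
    · rw [hf2 n hn h]; linarith
  · have h1 : ∑ n ∈ (Icc 1 X).filter (fun n => n ≡ b [MOD q]), f n ≤
        ∑ n ∈ (Icc 1 X).filter (fun n => n ≡ b [MOD q] ∧ AllPrime R n),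
          (C' * Real.log X) ^ m := by
      have h2 : ∑ n ∈ (Icc 1 X).filter (fun n => n ≡ b [MOD q] ∧ AllPrime R n), f n =
          ∑ n ∈ (Icc 1 X).filter (fun n => n ≡ b [MOD q]), f n := by
        apply sum_subset
        · intro n hn
          rw [mem_filter] at hn ⊢
          exact ⟨hn.1, hn.2.1⟩
        · intro n hn hn'
          rw [mem_filter] at hn hn'
          exact hf2 n hn.1 fun h => hn' ⟨hn.1, hn.2, h⟩
      rw [← h2]
      refine sum_le_sum fun n hn => ?_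
      rw [mem_filter] at hn
      exact hf1 n hn.1 hn.2.2
    refine h1.trans ?_
    rw [sum_const, nsmul_eq_mul]
    refine (mul_le_mul_of_nonneg_right (hs q b hq hqK) hpm).trans ?_
    have h3 : ((2 * κ + 2 : ℕ) : ℝ) ^ q.primeFactors.card * ((X : ℝ) / q) * (Cs / Real.log X ^ m) *
        (1 + ssz m (∏ i, R i) (zz M X)) * (C' * Real.log X) ^ m =
        (C' ^ m * Cs) * (((2 * κ + 2 : ℕ) : ℝ) ^ q.primeFactors.card * ((X : ℝ) / q) *
        (1 + ssz m (∏ i, R i) (zz M X))) := by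
      rw [mul_pow]
      field_simp
    rw [h3]
    have h4 : ((2 * κ + 2 : ℕ) : ℝ) ^ q.primeFactors.card *
        (A₀ * X * (1 + ssz m (∏ i, R i) (zz M X))) / q =
        A₀ * (((2 * κ + 2 : ℕ) : ℝ) ^ q.primeFactors.card * ((X : ℝ) / q) *
        (1 + ssz m (∏ i, R i) (zz M X))) := by
      ring
    rw [h4]
    exact mul_le_mul_of_nonneg_right hA (by positivity)
  · have hX0 : (0 : ℝ) ≤ X := by positivity
    calc (X : ℝ) = 1 * X * 1 * 1 := by ring
      _ ≤ A₀ * X * (1 + ssz m (∏ i, R i) (zz M X)) * Real.log X ^ Ce := by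
        gcongr
        linarith

/-- Proof. `R = fam P h` (`m = g`) if `r = 0`, `R = Fin.cons B (fam P h)` (`m = g + 1`) if `r = 1`; `∏ R_i = QQ B P h`. `κ = (g + 1)(A + 1)`: the sum of the degrees is at most
`1 + g A ≤ κ`; if `rootCount (QQ B P h) p < p` then it is `≤ κ`: for `p ≤ A` clear, for `p > A` no factor vanishes modulo `p` (leading coefficients, the constants `h_i` do not matter),
so it is at most `1 + g A`. `M` = maximum of `3` and the `M₀` of `class_sieve` for `m = g` and `m = g + 1`.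
For `n ≤ X`: `0 < P_i(n) + h_i ≤ (coeffSum P_i + C₁) X^A` and `|B(n)| ≤ A X + X²`, so `lp ≤ 2(A+1) log X + C ≤ 3 (A + 1) log X`-like bound `C' log X` for large `X`; the product is `0` unless all of them are
primes, i.e. unless `AllPrime R n` (`lp m = 0` unless `m.toNat` is prime). So `f(n) ≤ (C' log X)^(g+r) 1[AllPrime R n]`: this gives `le` (exponent `C = g + 2`), and `cls` by `class_sieve` with
`A₀ = (C' + 1)^(g+1) (C_sieve + 1)` for both `r` (`(C' log X)^m · C_s/(log X)^m = C'^m C_s`), `D = 2 κ + 2`. `large`: `S ≥ X` if `A₀ ≥ 1`, and `(log X)^C ≥ 1`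
(`ssz ≥ 0`: `rootCount ≤ p`). -/
theorem wt {g : ℕ} (P : Fin g → ℤ[X]) (A : ℕ) (hA : 1 ≤ A) (hP : Pol A P)
    (hl : ∀ i, 0 < (P i).leadingCoeff) (C₁ : ℝ) (hC₁ : 1 ≤ C₁) :
    ∃ (D M : ℕ) (C A₀ : ℝ), 3 ≤ M ∧ 0 ≤ C ∧ 0 < A₀ ∧ ∀ K : ℝ, ∃ X₀ : ℕ, ∀ X : ℕ, X₀ ≤ X →
    ∀ H : Fin g → ℕ, Fit C₁ X P H → ∀ h ∈ Box H, ∀ (r : ℕ) (B : ℤ[X]), Bas A r B →
    |(B.coeff 0 : ℝ)| ≤ (X : ℝ) ^ 2 → ∀ ψ : ℕ → ℝ, (∀ n, 0 ≤ ψ n ∧ ψ n ≤ 1) →
    SieveWt D C K X X (A₀ * X * (1 + ssz (r + g) (QQ B P h) (zz M X)))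
      (fun n => ψ n * bw r B n * ∏ i, lp ((P i).eval (n : ℤ) + h i)) := by
  classical
  set κ : ℕ := (g + 1) * (A + 1) with hκ
  obtain ⟨M1, hM1⟩ := class_sieve g κ
  obtain ⟨M2, hM2⟩ := class_sieve (g + 1) κ
  set M : ℕ := max 3 (max M1 M2) with hM
  have h3M : 3 ≤ M := le_max_left _ _
  obtain ⟨Cs1, hCs1, hS1⟩ := hM1 M ((le_max_left _ _).trans (le_max_right _ _)) (by omega)
  obtain ⟨Cs2, hCs2, hS2⟩ := hM2 M ((le_max_right _ _).trans (le_max_right _ _)) (by omega)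
  set C' : ℝ := (A : ℝ) + 3 with hC'
  have hC'1 : 1 ≤ C' := by rw [hC']; have : (0 : ℝ) ≤ A := by positivity
                           linarith
  have hC'0 : 0 ≤ C' := by linarith
  set A₀ : ℝ := C' ^ (g + 1) * (Cs1 + Cs2 + 1) with hA₀
  have hpow1 : 1 ≤ C' ^ (g + 1) := one_le_pow₀ hC'1
  have hpow2 : C' ^ g ≤ C' ^ (g + 1) := pow_le_pow_right₀ hC'1 (by omega)
  have hA₀1 : 1 ≤ A₀ := by
    rw [hA₀]
    nlinarith
  refine ⟨2 * κ + 2, M, (g : ℝ) + 2, A₀, h3M, by positivity, by linarith, fun K => ?_⟩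
  obtain ⟨X1, hX1⟩ := hS1 K
  obtain ⟨X2, hX2⟩ := hS2 K
  -- large X
  set cP : ℝ := ∑ i, Pool.Agent.Lib.H59.coeffSum (P i) + C₁ with hcP
  obtain ⟨X3, hX3⟩ := exists_nat_ge (max cP (max (A : ℝ) (Real.exp (C' ^ (g + 1)))))
  refine ⟨max (max X1 X2) (max X3 3), fun X hX H hFit h hh r B hB hB0 ψ hψ => ?_⟩
  have hXX1 : X1 ≤ X := (le_max_left _ _).trans ((le_max_left _ _).trans hX)
  have hXX2 : X2 ≤ X := (le_max_right _ _).trans ((le_max_left _ _).trans hX)
  have hXX3 : X3 ≤ X := (le_max_left _ _).trans ((le_max_right _ _).trans hX)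
  have hXX4 : 3 ≤ X := (le_max_right _ _).trans ((le_max_right _ _).trans hX)
  have hXr : max cP (max (A : ℝ) (Real.exp (C' ^ (g + 1)))) ≤ X :=
    hX3.trans (by exact_mod_cast hXX3)
  have hXc : cP ≤ X := (le_max_left _ _).trans hXr
  have hXA : (A : ℝ) ≤ X := (le_max_left _ _).trans ((le_max_right _ _).trans hXr)
  have hXe : Real.exp (C' ^ (g + 1)) ≤ X := (le_max_right _ _).trans ((le_max_right _ _).trans hXr)
  have hX3' : (3 : ℝ) ≤ X := by exact_mod_cast hXX4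
  have hX0 : (0 : ℝ) < X := by linarith
  have hlogC : C' ^ (g + 1) ≤ Real.log X := (Real.le_log_iff_exp_le hX0).2 hXe
  have hlog1 : 1 ≤ Real.log X := hpow1.trans hlogC
  have hlog0 : 0 < Real.log X := by linarith
  have hce : ∀ m : ℕ, m ≤ g + 1 → (C' * Real.log X) ^ m ≤ Real.log X ^ ((g : ℝ) + 2) := by
    intro m hm
    have h1 : 1 ≤ C' * Real.log X := by nlinarith
    calc (C' * Real.log X) ^ m ≤ (C' * Real.log X) ^ (g + 1) := pow_le_pow_right₀ h1 hm
      _ = C' ^ (g + 1) * Real.log X ^ (g + 1) := by rw [mul_pow]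
      _ ≤ Real.log X * Real.log X ^ (g + 1) := by gcongr
      _ = Real.log X ^ (g + 2) := by ring
      _ = Real.log X ^ ((g : ℝ) + 2) := by
        rw [← Real.rpow_natCast]
        push_cast
        rfl
  -- the bounds for the weights
  have hcoef : ∀ i, 0 ≤ Pool.Agent.Lib.H59.coeffSum (P i) := fun i => by
    unfold Pool.Agent.Lib.H59.coeffSum
    positivity
  have hPb : ∀ n ∈ Icc 1 X, ∀ i, lp ((P i).eval (n : ℤ) + h i) ≤ C' * Real.log X := by
    intro n hn i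
    rw [mem_Icc] at hn
    have h1 := Pool.Agent.Lib.H59.eval_le_coeffSum (P i) hn.1
    have h2 : (n : ℝ) ^ (P i).natDegree ≤ (X : ℝ) ^ (P i).natDegree := by
      gcongr
      exact hn.2
    have h3 : (h i : ℝ) ≤ C₁ * (X : ℝ) ^ (P i).natDegree := by
      refine le_trans ?_ (hFit.hi i)
      unfold Box at hh
      rw [Fintype.mem_piFinset] at hh
      exact_mod_cast (mem_Icc.1 (hh i)).2
    have h4 : Pool.Agent.Lib.H59.coeffSum (P i) + C₁ ≤ cP := by
      rw [hcP]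
      have := single_le_sum (f := fun i => Pool.Agent.Lib.H59.coeffSum (P i))
        (fun i _ => hcoef i) (mem_univ i)
      linarith
    have h5 : (((P i).eval (n : ℤ) + h i : ℤ) : ℝ) ≤ (X : ℝ) ^ (A + 1) := by
      push_cast
      calc ((eval (n : ℤ) (P i) : ℤ) : ℝ) + h i ≤
          Pool.Agent.Lib.H59.coeffSum (P i) * (X : ℝ) ^ (P i).natDegree +
            C₁ * (X : ℝ) ^ (P i).natDegree := by
            have := mul_le_mul_of_nonneg_left h2 (hcoef i)
            linarith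
        _ = (Pool.Agent.Lib.H59.coeffSum (P i) + C₁) * (X : ℝ) ^ (P i).natDegree := by ring
        _ ≤ X * (X : ℝ) ^ A := by
            gcongr
            · linarith
            · linarith
            · exact hP.degA i
        _ = (X : ℝ) ^ (A + 1) := by ring
    refine s2_lple _ h5 (by positivity) ?_
    rw [Real.log_pow]
    push_cast
    rw [hC']
    nlinarith
  have hPpos : ∀ n, 0 ≤ ∏ i, lp ((P i).eval (n : ℤ) + h i) := fun n =>
    prod_nonneg fun i _ => s2_lp0 _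
  have hPprod : ∀ n ∈ Icc 1 X, ∏ i, lp ((P i).eval (n : ℤ) + h i) ≤ (C' * Real.log X) ^ g := by
    intro n hn
    calc ∏ i, lp ((P i).eval (n : ℤ) + h i) ≤ ∏ _i : Fin g, (C' * Real.log X) :=
          prod_le_prod (fun i _ => s2_lp0 _) fun i _ => hPb n hn i
      _ = _ := by rw [prod_const, card_univ, Fintype.card_fin]
  have hfe : ∀ n i, (fam P h i).eval (n : ℤ) = (P i).eval (n : ℤ) + h i := by
    intro n i
    unfold fam
    simp
  have hfd : ∀ i, (fam P h i).natDegree = (P i).natDegree := fun i => by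
    unfold fam
    exact natDegree_add_C
  have hflc : ∀ i, (fam P h i).leadingCoeff = (P i).leadingCoeff := fun i => by
    rw [leadingCoeff, hfd i]
    unfold fam
    rw [coeff_add, coeff_C, if_neg (by have := hP.deg i; omega), add_zero]
    rfl
  have hdsum : ∑ i, (fam P h i).natDegree ≤ g * A := by
    calc ∑ i, (fam P h i).natDegree ≤ ∑ _i : Fin g, A :=
          sum_le_sum fun i _ => by rw [hfd i]; exact hP.degA i
      _ = g * A := by simp
  have hκ1 : g * A + 1 ≤ κ := by rw [hκ]; nlinarith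
  have hκ2 : A ≤ κ := by rw [hκ]; nlinarith
  rcases hB with ⟨rfl, rfl⟩ | ⟨rfl, hB1, hB2⟩
  · -- r = 0
    have hQ : QQ 1 P h = ∏ i, fam P h i := by unfold QQ; rw [one_mul]
    rw [hQ]
    have h0g : 0 + g = g := by omega
    rw [h0g]
    have hbw : ∀ n, bw 0 (1 : ℤ[X]) n = 1 := fun n => by unfold bw; simp
    refine s2_gen g κ M Cs1 C' _ K A₀ X (fam P h) _ ?_ ?_ ?_ ?_ ?_ hA₀1 hlog1 hC'0
      (hce g (by omega)) (by positivity)
    · intro n _
      simp only [hbw, mul_one]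
      exact mul_nonneg (hψ n).1 (hPpos n)
    · intro n hn _
      simp only [hbw, mul_one]
      calc ψ n * ∏ i, lp ((P i).eval (n : ℤ) + h i) ≤ 1 * (C' * Real.log X) ^ g := by
            gcongr
            · exact hPpos n
            · exact (hψ n).2
            · exact hPprod n hn
        _ = _ := one_mul _
    · intro n _ hn
      have : ∏ i, lp ((P i).eval (n : ℤ) + h i) = 0 := by
        by_contra h0
        apply hn
        intro i
        rw [hfe]
        exact s2_lpe _ (prod_ne_zero_iff.1 h0 i (mem_univ i))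
      simp only [this, mul_zero]
    · intro q b hq hqK
      exact hX1 X hXX1 (fam P h) (fun i => by rw [hfd i]; exact hP.deg i)
        (hdsum.trans (by omega))
        (s2_root (fam P h) A κ (fun i => by rw [hfd i]; exact hP.deg i)
          (fun i => by rw [hflc i]; exact hP.lc i) (hdsum.trans (by omega)) hκ2) q b hq hqK
    · rw [hA₀]
      calc C' ^ g * Cs1 ≤ C' ^ (g + 1) * Cs1 := by gcongr
        _ ≤ C' ^ (g + 1) * (Cs1 + Cs2 + 1) := by
          gcongr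
          linarith
  · -- r = 1
    set R : Fin (g + 1) → ℤ[X] := Fin.cons B (fam P h) with hR
    have hR0 : R 0 = B := rfl
    have hRs : ∀ i : Fin g, R i.succ = fam P h i := fun i => by
      rw [hR, Fin.cons_succ]
    have hQ : QQ B P h = ∏ i, R i := by
      unfold QQ
      rw [Fin.prod_univ_succ, hR0]
      congr 1
    rw [hQ]
    have h0g : 1 + g = g + 1 := by omega
    rw [h0g]
    have hbw : ∀ n : ℕ, bw 1 B n = lp (B.eval (n : ℤ)) := fun n => by unfold bw; simp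
    have hBb : ∀ n ∈ Icc 1 X, lp (B.eval (n : ℤ)) ≤ C' * Real.log X := by
      intro n hn
      rw [mem_Icc] at hn
      have h1 : B.eval (n : ℤ) = B.coeff 0 + B.leadingCoeff * n := by
        rw [eval_eq_sum_range, hB1, sum_range_succ, sum_range_one, leadingCoeff, hB1]
        ring
      have h2 : ((B.eval (n : ℤ) : ℤ) : ℝ) ≤ (X : ℝ) ^ 3 := by
        rw [h1]
        push_cast
        have h3 : (B.coeff 0 : ℝ) ≤ (X : ℝ) ^ 2 := (le_abs_self _).trans hB0
        have h4 : (B.leadingCoeff : ℝ) ≤ A := by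
          have h5 : B.leadingCoeff ≤ (B.leadingCoeff.natAbs : ℤ) := Int.le_natAbs
          have h6 : B.leadingCoeff ≤ (A : ℤ) := h5.trans (by exact_mod_cast hB2)
          exact_mod_cast h6
        have h5 : (n : ℝ) ≤ X := by exact_mod_cast hn.2
        have h6 : (0 : ℝ) ≤ n := by positivity
        have h7 : (B.leadingCoeff : ℝ) * n ≤ X * X :=
          (mul_le_mul_of_nonneg_right (h4.trans hXA) h6).trans
            (mul_le_mul_of_nonneg_left h5 hX0.le)
        nlinarith [sq_nonneg (X : ℝ)]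
      refine s2_lple _ h2 (by positivity) ?_
      rw [Real.log_pow]
      push_cast
      rw [hC']
      have : (0 : ℝ) ≤ A := by positivity
      nlinarith
    refine s2_gen (g + 1) κ M Cs2 C' _ K A₀ X R _ ?_ ?_ ?_ ?_ ?_ hA₀1 hlog1 hC'0
      (hce (g + 1) le_rfl) (by positivity)
    · intro n _
      simp only [hbw]
      exact mul_nonneg (mul_nonneg (hψ n).1 (s2_lp0 _)) (hPpos n)
    · intro n hn _
      simp only [hbw]
      calc ψ n * lp (B.eval (n : ℤ)) * ∏ i, lp ((P i).eval (n : ℤ) + h i) ≤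
          1 * (C' * Real.log X) * (C' * Real.log X) ^ g := by
            gcongr
            · exact hPpos n
            · exact s2_lp0 _
            · exact (hψ n).2
            · exact hBb n hn
            · exact hPprod n hn
        _ = _ := by ring
    · intro n _ hn
      have : lp (B.eval (n : ℤ)) * ∏ i, lp ((P i).eval (n : ℤ) + h i) = 0 := by
        by_contra h0
        apply hn
        intro i
        obtain ⟨h1, h2⟩ := mul_ne_zero_iff.1 h0
        refine Fin.cases ?_ (fun j => ?_) i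
        · rw [hR0]
          exact s2_lpe _ h1
        · rw [hRs, hfe]
          exact s2_lpe _ (prod_ne_zero_iff.1 h2 j (mem_univ j))
      simp only [hbw, mul_assoc, this, mul_zero]
    · intro q b hq hqK
      have hd : ∀ i, 1 ≤ (R i).natDegree := by
        intro i
        refine Fin.cases ?_ (fun j => ?_) i
        · rw [hR0, hB1]
        · rw [hRs, hfd]; exact hP.deg j
      have hlc : ∀ i, (R i).leadingCoeff.natAbs ≤ A := by
        intro i
        refine Fin.cases ?_ (fun j => ?_) i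
        · rw [hR0]; exact hB2
        · rw [hRs, hflc]; exact hP.lc j
      have hsum : ∑ i, (R i).natDegree ≤ κ := by
        rw [Fin.sum_univ_succ, hR0, hB1]
        simp only [hRs]
        omega
      exact hX2 X hXX2 R hd hsum (s2_root R A κ hd hlc hsum hκ2) q b hq hqK
    · rw [hA₀]
      gcongr
      linarith

end Pool.Agent.Lib.H59X
end

-- from Lib.H59X.L2B
section

/-!
# Chunk L2B: second moments of the local factors
-/

open Finset Polynomial

namespace Pool.Agent.Lib.H59X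

open Pool.Agent.Lib.H59 (argSet argCount Admissible primeCount omegaN seriesTrunc rootCount)
open Pool.Agent.Lib.H68T (lp)
open Pool.Agent.Lib.H33B (Lq Lw PW SieveWt)

theorem l2b_roots {f : ℤ[X]} {p : ℕ} (hp : p.Prime) (hl : ¬ (p : ℤ) ∣ f.leadingCoeff) :
    rootCount f p ≤ f.natDegree := by
  classical
  have : Fact p.Prime := ⟨hp⟩
  set g := f.map (Int.castRingHom (ZMod p)) with hg
  have hg0 : g ≠ 0 := by
    intro h
    have := congrArg (fun q => q.coeff f.natDegree) h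
    simp only [hg, coeff_map, coeff_zero, eq_intCast] at this
    exact hl ((ZMod.intCast_zmod_eq_zero_iff_dvd _ _).mp this)
  have h1 : rootCount f p ≤ g.roots.toFinset.card := by
    unfold rootCount
    refine Finset.card_le_card_of_injOn (fun a : ℕ => (a : ZMod p)) ?_ ?_
    · intro a ha
      rw [Finset.mem_coe, Finset.mem_filter] at ha
      rw [Finset.mem_coe, Multiset.mem_toFinset, mem_roots hg0, IsRoot.def, hg]
      have h2 : ((f.eval (a : ℤ) : ℤ) : ZMod p) = 0 :=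
        (ZMod.intCast_zmod_eq_zero_iff_dvd _ _).mpr ha.2
      rw [eval_map, eval₂_eq_eval_map] at *
      have h3 := eval_intCast_map (Int.castRingHom (ZMod p)) f (a : ℤ)
      simp only [Int.cast_natCast, eq_intCast] at h3
      rw [h3]
      exact h2
    · intro a ha b hb hab
      rw [Finset.mem_coe, Finset.mem_filter, Finset.mem_range] at ha hb
      have := (ZMod.natCast_eq_natCast_iff' a b p).mp hab
      rwa [Nat.mod_eq_of_lt ha.1, Nat.mod_eq_of_lt hb.1] at this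
  refine h1.trans ((Multiset.toFinset_card_le _).trans ((card_roots' g).trans ?_))
  rw [hg]
  exact natDegree_map_le

theorem l2b_L {p : ℕ} (hp : p.Prime) : (1 - 1 / (p : ℝ))⁻¹ = p / ((p : ℝ) - 1) := by
  have h0 : (p : ℝ) ≠ 0 := by exact_mod_cast hp.ne_zero
  have h1 : (p : ℝ) - 1 ≠ 0 := by
    have : (1 : ℝ) < p := by exact_mod_cast hp.one_lt
    linarith
  have e : (1 - 1 / (p : ℝ)) = (p - 1) / p := by field_simp
  rw [e, inv_div]

theorem l2b_L_le {p : ℕ} (hp : p.Prime) : (1 - 1 / (p : ℝ))⁻¹ - 1 ≤ 2 / p := by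
  have h2 : (2 : ℝ) ≤ p := by exact_mod_cast hp.two_le
  rw [l2b_L hp]
  have h3 : (0 : ℝ) < p - 1 := by linarith
  have e : (p : ℝ) / (p - 1) - 1 = 1 / (p - 1) := by field_simp; ring
  rw [e, div_le_div_iff₀ h3 (by linarith)]
  linarith

theorem l2b_L_one {p : ℕ} (hp : p.Prime) : 1 ≤ (1 - 1 / (p : ℝ))⁻¹ := by
  have h2 : (2 : ℝ) ≤ p := by exact_mod_cast hp.two_le
  rw [l2b_L hp, one_le_div (by linarith)]
  linarith

theorem l2b_L_two {p : ℕ} (hp : p.Prime) : (1 - 1 / (p : ℝ))⁻¹ ≤ 2 := by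
  have h2 : (2 : ℝ) ≤ p := by exact_mod_cast hp.two_le
  have h := l2b_L_le hp
  have h3 : 2 / (p : ℝ) ≤ 1 := by
    rw [div_le_one (by linarith)]
    exact h2
  linarith

theorem l2b_pow {p : ℕ} (hp : p.Prime) (n : ℕ) :
    ((1 - 1 / (p : ℝ))⁻¹) ^ n - 1 ≤ n * 2 ^ n * ((1 - 1 / (p : ℝ))⁻¹ - 1) := by
  have h1 := l2b_L_one hp
  have h2 := l2b_L_two hp
  set L := (1 - 1 / (p : ℝ))⁻¹
  induction n with
  | zero => simp
  | succ n ih =>
    have e : L ^ (n + 1) - 1 = L * (L ^ n - 1) + (L - 1) := by ring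
    rw [e]
    have h3 : 0 ≤ L ^ n - 1 := sub_nonneg.2 (one_le_pow₀ h1)
    have h4 : L * (L ^ n - 1) ≤ 2 * (n * 2 ^ n * (L - 1)) := mul_le_mul h2 ih h3 (by norm_num)
    have h5 : (L - 1) ≤ 2 ^ (n + 1) * (L - 1) :=
      le_mul_of_one_le_left (by linarith) (one_le_pow₀ (by norm_num))
    refine (add_le_add h4 h5).trans (le_of_eq ?_)
    push_cast
    ring

/-- The mean over `c` of `Lq (x + c) Lq (y + c)`, `x ≡ y`. -/
theorem l2b_same {p : ℕ} (hp : p.Prime) {x y : ℤ} (h : (p : ℤ) ∣ x - y) :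
    ∑ c ∈ range p, Lq p (x + c) * Lq p (y + c) = (1 - 1 / (p : ℝ))⁻¹ * p := by
  have h1 : ∀ c ∈ range p, Lq p (x + c) * Lq p (y + c) = (1 - 1 / (p : ℝ))⁻¹ * Lq p (x + c) := by
    intro c _
    have h2 : Lq p (y + c) = Lq p (x + c) := by
      refine l1_congr p ?_
      have e : y + (c : ℤ) - (x + c) = -(x - y) := by ring
      rw [e]
      exact (dvd_neg).2 h
    rw [h2, l1_prime hp]
    split_ifs <;> simp
  rw [sum_congr rfl h1, ← mul_sum, l2a_sum hp]

/-- The mean over `c` of `Lq (x + c) Lq (y + c)`, `x ≢ y`. -/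
theorem l2b_diff {p : ℕ} (hp : p.Prime) {x y : ℤ} (h : ¬ (p : ℤ) ∣ x - y) :
    ∑ c ∈ range p, Lq p (x + c) * Lq p (y + c) ≤ p := by
  classical
  have h0 : (0 : ℝ) < p := by exact_mod_cast hp.pos
  have h1 : (0 : ℝ) < (p : ℝ) - 1 := by
    have : (1 : ℝ) < p := by exact_mod_cast hp.one_lt
    linarith
  -- `Lq x + Lq y - L ≤ Lq x Lq y / L`, with equality since the two do not vanish together
  have key : ∀ c ∈ range p, Lq p (x + c) * Lq p (y + c) =
      (1 - 1 / (p : ℝ))⁻¹ * (Lq p (x + c) + Lq p (y + c) - (1 - 1 / (p : ℝ))⁻¹) := by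
    intro c _
    rw [l1_prime hp, l1_prime hp]
    by_cases hx : (p : ℤ) ∣ x + c
    · have hy : ¬ (p : ℤ) ∣ y + c := by
        intro hy
        refine h ?_
        have e : x - y = (x + c) - (y + c) := by ring
        rw [e]
        exact dvd_sub hx hy
      rw [if_pos hx, if_neg hy]
      ring
    · by_cases hy : (p : ℤ) ∣ y + c
      · rw [if_neg hx, if_pos hy]
        ring
      · rw [if_neg hx, if_neg hy]
        ring
  rw [sum_congr rfl key, ← mul_sum, sum_sub_distrib, sum_add_distrib, l2a_sum hp, l2a_sum hp, sum_const,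
    card_range, nsmul_eq_mul, l2b_L hp]
  have e : (p : ℝ) / (p - 1) * (p + p - p * (p / (p - 1))) = p * (1 - 1 / (p - 1) ^ 2) := by
    field_simp
    ring
  rw [e]
  have h3 : (0 : ℝ) ≤ 1 / ((p : ℝ) - 1) ^ 2 := by positivity
  nlinarith

/-- Proof. `p² · mean (af²) = ∑_{v,v'} bL(v) bL(v') ∏_{i ∈ I} m_i(v, v')`, `m_i` the mean over `c mod p` of `Lq p (P_i(v) + c) Lq p (P_i(v') + c)`; this is
`(p/(p-1))² (p-2)/p ≤ 1` if `P_i(v) ≢ P_i(v')` and `p/(p-1) ≤ 2` if `P_i(v) ≡ P_i(v')` modulo `p`. The pairs `(v, v')` of the second kind for at least one `i ∈ I` are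
at most `g A p` (for given `v'` the polynomial `P_i - P_i(v')` is not zero modulo `p`, as `p > A ≥ |lc|`, so it has at most `A` roots); for them
the product is at most `(p/(p-1))^g ≤ 1 + g 2^g/p` (`p/(p-1) = 1 + 1/(p-1) ≤ 1 + 2/p`, `(1 + x)^g ≤ 1 + g 2^(g-1) x` for `0 ≤ x ≤ 1`), for all others at most `1`.
Hence the sum is at most `∑_{v,v'} bL(v) bL(v') + g A p · 4 · g 2^g/p` and `∑_v bL(v) = p` (as in `af_mean`). -/
theorem af_sq (g A : ℕ) : ∃ C : ℝ, 0 < C ∧ ∀ P : Fin g → ℤ[X], Pol A P → ∀ (r : ℕ) (B : ℤ[X]),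
    Bas A r B → ∀ p : ℕ, p.Prime → A < p → ∀ I : Finset (Fin g),
    mean p (fun h => af r B P I p h ^ 2) ≤ 1 + C / (p : ℝ) ^ 2 := by
  classical
  refine ⟨8 * (g : ℝ) ^ 2 * 2 ^ g * A + 1, by positivity, ?_⟩
  intro P hP r B hB p hp hA I
  have hp0 : (0 : ℝ) < p := by exact_mod_cast hp.pos
  have hpz := Nat.prime_iff_prime_int.1 hp
  have hLone := l2b_L_one hp
  have hLtwo := l2b_L_two hp
  set L := (1 - 1 / (p : ℝ))⁻¹ with hL
  -- the bad pairs
  let bad : ℕ → ℕ → Prop := fun v w => ∃ i ∈ I, (p : ℤ) ∣ (P i).eval (v : ℤ) - (P i).eval (w : ℤ)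
  let m : Fin g → ℕ → ℕ → ℝ := fun i v w =>
    (∑ c ∈ range p, Lq p ((P i).eval (v : ℤ) + (c : ℕ)) * Lq p ((P i).eval (w : ℤ) + (c : ℕ))) / p
  have hm0 : ∀ i v w, 0 ≤ m i v w := fun i v w =>
    div_nonneg (sum_nonneg fun c _ => mul_nonneg (l1_Lq_nonneg _ _) (l1_Lq_nonneg _ _)) hp0.le
  have hm1 : ∀ i v w, m i v w ≤ L := by
    intro i v w
    by_cases h : (p : ℤ) ∣ (P i).eval (v : ℤ) - (P i).eval (w : ℤ)
    · have e : m i v w = L := by
        show (∑ c ∈ range p, Lq p ((P i).eval (v : ℤ) + (c : ℕ)) * Lq p ((P i).eval (w : ℤ) + (c : ℕ))) / p = L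
        rw [l2b_same hp h, ← hL]
        field_simp
      exact e.le
    · have h2 : m i v w ≤ 1 := by
        show (∑ c ∈ range p, Lq p ((P i).eval (v : ℤ) + (c : ℕ)) * Lq p ((P i).eval (w : ℤ) + (c : ℕ))) / p ≤ 1
        rw [div_le_one hp0]
        exact l2b_diff hp h
      exact h2.trans hLone
  have hm2 : ∀ i (v w : ℕ), ¬ (p : ℤ) ∣ (P i).eval (v : ℤ) - (P i).eval (w : ℤ) → m i v w ≤ 1 := by
    intro i v w h
    show (∑ c ∈ range p, Lq p ((P i).eval (v : ℤ) + (c : ℕ)) * Lq p ((P i).eval (w : ℤ) + (c : ℕ))) / p ≤ 1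
    rw [div_le_one hp0]
    exact l2b_diff hp h
  have hprod : ∀ v w, ∏ i ∈ I, m i v w ≤ 1 + if bad v w then L ^ g - 1 else 0 := by
    intro v w
    by_cases hb : bad v w
    · rw [if_pos hb]
      have h1 : ∏ i ∈ I, m i v w ≤ L ^ I.card := by
        rw [← prod_const]
        exact prod_le_prod (fun i _ => hm0 i v w) fun i _ => hm1 i v w
      have h2 : L ^ I.card ≤ L ^ g := by
        refine pow_le_pow_right₀ hLone ?_
        have := card_le_univ I
        rwa [Fintype.card_fin] at this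
      linarith
    · rw [if_neg hb, add_zero]
      refine prod_le_one (fun i _ => hm0 i v w) fun i hi => hm2 i v w fun hd => hb ⟨i, hi, hd⟩
  -- the mean as a double sum
  have hmean : mean p (fun h => af r B P I p h ^ 2) =
      (∑ v ∈ range p, ∑ w ∈ range p, bL r B p v * bL r B p w * ∏ i ∈ I, m i v w) / (p : ℝ) ^ 2 := by
    have e1 : ∀ h : Fin g → ℕ, af r B P I p h ^ 2 = (∑ v ∈ range p, ∑ w ∈ range p, bL r B p v * bL r B p w *
        ∏ i ∈ I, (Lq p ((P i).eval (v : ℤ) + h i) * Lq p ((P i).eval (w : ℤ) + h i))) / (p : ℝ) ^ 2 := by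
      intro h
      unfold af
      rw [div_pow, sq (∑ v ∈ range p, _), sum_mul_sum]
      congr 1
      refine sum_congr rfl fun v _ => sum_congr rfl fun w _ => ?_
      rw [prod_mul_distrib]
      ring
    have e2 : ∀ v w : ℕ, ∑ h ∈ cube g p, ∏ i ∈ I, (Lq p ((P i).eval (v : ℤ) + h i) *
        Lq p ((P i).eval (w : ℤ) + h i)) = (p : ℝ) ^ g * ∏ i ∈ I, m i v w := by
      intro v w
      have e3 : ∀ h ∈ cube g p, ∏ i ∈ I, (Lq p ((P i).eval (v : ℤ) + h i) * Lq p ((P i).eval (w : ℤ) + h i)) =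
          ∏ i, (if i ∈ I then Lq p ((P i).eval (v : ℤ) + h i) * Lq p ((P i).eval (w : ℤ) + h i) else 1) := by
        intro h _
        rw [prod_ite_mem, univ_inter]
      rw [sum_congr rfl e3]
      unfold cube
      rw [← prod_univ_sum (fun _ : Fin g => range p)
        (fun i c => if i ∈ I then Lq p ((P i).eval (v : ℤ) + (c : ℕ)) * Lq p ((P i).eval (w : ℤ) + (c : ℕ)) else 1)]
      have e4 : ∀ i ∈ (univ : Finset (Fin g)), ∑ c ∈ range p, (if i ∈ I then
          Lq p ((P i).eval (v : ℤ) + (c : ℕ)) * Lq p ((P i).eval (w : ℤ) + (c : ℕ)) else 1) =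
          (p : ℝ) * (if i ∈ I then m i v w else 1) := by
        intro i _
        by_cases hi : i ∈ I
        · simp only [if_pos hi]
          show _ = (p : ℝ) * ((∑ c ∈ range p, Lq p ((P i).eval (v : ℤ) + (c : ℕ)) *
            Lq p ((P i).eval (w : ℤ) + (c : ℕ))) / p)
          field_simp
        · simp only [if_neg hi]
          simp
      rw [prod_congr rfl e4, prod_mul_distrib, prod_const, card_univ, Fintype.card_fin, prod_ite_mem, univ_inter]
    unfold mean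
    rw [sum_congr rfl fun h _ => e1 h, ← sum_div, sum_comm]
    have e5 : ∀ v ∈ range p, ∑ h ∈ cube g p, ∑ w ∈ range p, bL r B p v * bL r B p w *
        ∏ i ∈ I, (Lq p ((P i).eval (v : ℤ) + h i) * Lq p ((P i).eval (w : ℤ) + h i)) =
        (p : ℝ) ^ g * ∑ w ∈ range p, bL r B p v * bL r B p w * ∏ i ∈ I, m i v w := by
      intro v _
      rw [sum_comm, mul_sum]
      refine sum_congr rfl fun w _ => ?_
      rw [← mul_sum, e2]
      ring
    rw [sum_congr rfl e5, ← mul_sum]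
    have hpg : (p : ℝ) ^ g ≠ 0 := pow_ne_zero _ hp0.ne'
    field_simp
  -- the number of bad pairs
  have hcount : ∀ w : ℕ, (((range p).filter fun v => bad v w).card : ℝ) ≤ g * A := by
    intro w
    have h1 : (range p).filter (fun v => bad v w) ⊆
        I.biUnion fun i => (range p).filter fun v : ℕ => (p : ℤ) ∣ (P i - C ((P i).eval (w : ℤ))).eval (v : ℤ) := by
      intro v hv
      rw [mem_filter] at hv
      obtain ⟨hv1, i, hi, hd⟩ := hv
      rw [mem_biUnion]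
      refine ⟨i, hi, mem_filter.2 ⟨hv1, ?_⟩⟩
      rw [eval_sub, eval_C]
      exact hd
    have h2 : ∀ i ∈ I, ((range p).filter fun v : ℕ =>
        (p : ℤ) ∣ (P i - C ((P i).eval (w : ℤ))).eval (v : ℤ)).card ≤ A := by
      intro i _
      have hd : (P i - C ((P i).eval (w : ℤ))).natDegree = (P i).natDegree := natDegree_sub_C
      have hlc : (P i - C ((P i).eval (w : ℤ))).leadingCoeff = (P i).leadingCoeff := by
        unfold leadingCoeff
        rw [hd, coeff_sub, coeff_C, if_neg (by have := hP.deg i; omega), sub_zero]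
      have hne : (P i).leadingCoeff ≠ 0 := by
        intro h
        rw [leadingCoeff_eq_zero] at h
        have := hP.deg i
        rw [h] at this
        simp at this
      have hnd : ¬ (p : ℤ) ∣ (P i - C ((P i).eval (w : ℤ))).leadingCoeff := by
        rw [hlc, Int.natCast_dvd]
        intro hdv
        have h3 := Nat.le_of_dvd (Int.natAbs_pos.2 hne) hdv
        have h4 := hP.lc i
        omega
      exact (l2b_roots hp hnd).trans (hd.le.trans (hP.degA i))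
    have h3 : ((range p).filter fun v => bad v w).card ≤ g * A := by
      refine (card_le_card h1).trans (card_biUnion_le.trans ((sum_le_card_nsmul _ _ _ h2).trans ?_))
      rw [smul_eq_mul]
      refine Nat.mul_le_mul_right _ ?_
      have := card_le_univ I
      rwa [Fintype.card_fin] at this
    exact_mod_cast h3
  have hLg : L ^ g - 1 ≤ g * 2 ^ g * (2 / p) := by
    refine (l2b_pow hp g).trans ?_
    exact mul_le_mul_of_nonneg_left (l2b_L_le hp) (by positivity)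
  have hLg0 : 0 ≤ L ^ g - 1 := sub_nonneg.2 (one_le_pow₀ hLone)
  -- conclusion
  rw [hmean, div_le_iff₀ (by positivity)]
  have f1 : ∀ v ∈ range p, ∀ w ∈ range p, bL r B p v * bL r B p w * ∏ i ∈ I, m i v w ≤
      bL r B p v * bL r B p w + (if bad v w then 4 * (L ^ g - 1) else 0) := by
    intro v _ w _
    have hb0 := mul_nonneg (l1_bL_nonneg r B p v) (l1_bL_nonneg r B p w)
    have hb4 : bL r B p v * bL r B p w ≤ 4 := by
      have := mul_le_mul (l2a_bL_le hp r B v) (l2a_bL_le hp r B w) (l1_bL_nonneg r B p w) (by norm_num)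
      linarith
    refine (mul_le_mul_of_nonneg_left (hprod v w) hb0).trans ?_
    by_cases hb : bad v w
    · rw [if_pos hb, if_pos hb]
      nlinarith
    · rw [if_neg hb, if_neg hb]
      simp
  refine (sum_le_sum fun v hv => sum_le_sum fun w hw => f1 v hv w hw).trans ?_
  have f2 : ∑ v ∈ range p, ∑ w ∈ range p, (bL r B p v * bL r B p w + (if bad v w then 4 * (L ^ g - 1) else 0)) =
      (∑ v ∈ range p, bL r B p v) * (∑ w ∈ range p, bL r B p w) +
      ∑ w ∈ range p, (((range p).filter fun v => bad v w).card : ℝ) * (4 * (L ^ g - 1)) := by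
    rw [sum_mul_sum, sum_congr rfl fun v _ => sum_add_distrib, sum_add_distrib]
    congr 1
    rw [sum_comm]
    refine sum_congr rfl fun w _ => ?_
    rw [← sum_filter, sum_const, nsmul_eq_mul]
  rw [f2, l2a_bLsum hB hp hA]
  have f3 : ∑ w ∈ range p, (((range p).filter fun v => bad v w).card : ℝ) * (4 * (L ^ g - 1)) ≤
      p * ((g * A) * (4 * (g * 2 ^ g * (2 / p)))) := by
    have : ∀ w ∈ range p, (((range p).filter fun v => bad v w).card : ℝ) * (4 * (L ^ g - 1)) ≤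
        (g * A) * (4 * (g * 2 ^ g * (2 / p))) := by
      intro w _
      exact mul_le_mul (hcount w) (mul_le_mul_of_nonneg_left hLg (by norm_num)) (by positivity) (by positivity)
    refine (sum_le_sum this).trans ?_
    rw [sum_const, card_range, nsmul_eq_mul]
  have e : (1 + (8 * (g : ℝ) ^ 2 * 2 ^ g * A + 1) / (p : ℝ) ^ 2) * (p : ℝ) ^ 2 =
      p * p + (8 * (g : ℝ) ^ 2 * 2 ^ g * A + 1) := by
    field_simp
  have e2 : (p : ℝ) * ((g * A) * (4 * (g * 2 ^ g * (2 / p)))) = 8 * (g : ℝ) ^ 2 * 2 ^ g * A := by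
    field_simp
    ring
  rw [e]
  rw [e2] at f3
  linarith

end Pool.Agent.Lib.H59X
end

-- from Lib.H59X.L2C
section

/-!
# Chunk L2C: the local factors are close to one
-/

open Finset Polynomial

namespace Pool.Agent.Lib.H59X

open Pool.Agent.Lib.H59 (argSet argCount Admissible primeCount omegaN seriesTrunc rootCount)
open Pool.Agent.Lib.H68T (lp)
open Pool.Agent.Lib.H33B (Lq Lw PW SieveWt)

theorem l2c_roots {f : ℤ[X]} {p : ℕ} (hp : p.Prime) (hl : ¬ (p : ℤ) ∣ f.leadingCoeff) :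
    rootCount f p ≤ f.natDegree := by
  classical
  have : Fact p.Prime := ⟨hp⟩
  set g := f.map (Int.castRingHom (ZMod p)) with hg
  have hg0 : g ≠ 0 := by
    intro h
    have := congrArg (fun q => q.coeff f.natDegree) h
    simp only [hg, coeff_map, coeff_zero, eq_intCast] at this
    exact hl ((ZMod.intCast_zmod_eq_zero_iff_dvd _ _).mp this)
  have h1 : rootCount f p ≤ g.roots.toFinset.card := by
    unfold rootCount
    refine Finset.card_le_card_of_injOn (fun a : ℕ => (a : ZMod p)) ?_ ?_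
    · intro a ha
      rw [Finset.mem_coe, Finset.mem_filter] at ha
      rw [Finset.mem_coe, Multiset.mem_toFinset, mem_roots hg0, IsRoot.def, hg]
      have h2 : ((f.eval (a : ℤ) : ℤ) : ZMod p) = 0 :=
        (ZMod.intCast_zmod_eq_zero_iff_dvd _ _).mpr ha.2
      rw [eval_map, eval₂_eq_eval_map] at *
      have h3 := eval_intCast_map (Int.castRingHom (ZMod p)) f (a : ℤ)
      simp only [Int.cast_natCast, eq_intCast] at h3
      rw [h3]
      exact h2
    · intro a ha b hb hab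
      rw [Finset.mem_coe, Finset.mem_filter, Finset.mem_range] at ha hb
      have := (ZMod.natCast_eq_natCast_iff' a b p).mp hab
      rwa [Nat.mod_eq_of_lt ha.1, Nat.mod_eq_of_lt hb.1] at this
  refine h1.trans ((Multiset.toFinset_card_le _).trans ((card_roots' g).trans ?_))
  rw [hg]
  exact natDegree_map_le

theorem l2c_L {p : ℕ} (hp : p.Prime) : (1 - 1 / (p : ℝ))⁻¹ = p / ((p : ℝ) - 1) := by
  have h0 : (p : ℝ) ≠ 0 := by exact_mod_cast hp.ne_zero
  have h1 : (p : ℝ) - 1 ≠ 0 := by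
    have : (1 : ℝ) < p := by exact_mod_cast hp.one_lt
    linarith
  have e : (1 - 1 / (p : ℝ)) = (p - 1) / p := by field_simp
  rw [e, inv_div]

theorem l2c_L_le {p : ℕ} (hp : p.Prime) : (1 - 1 / (p : ℝ))⁻¹ - 1 ≤ 2 / p := by
  have h2 : (2 : ℝ) ≤ p := by exact_mod_cast hp.two_le
  rw [l2c_L hp]
  have h3 : (0 : ℝ) < p - 1 := by linarith
  have e : (p : ℝ) / (p - 1) - 1 = 1 / (p - 1) := by field_simp; ring
  rw [e, div_le_div_iff₀ h3 (by linarith)]
  linarith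

theorem l2c_L_one {p : ℕ} (hp : p.Prime) : 1 ≤ (1 - 1 / (p : ℝ))⁻¹ := by
  have h2 : (2 : ℝ) ≤ p := by exact_mod_cast hp.two_le
  rw [l2c_L hp, one_le_div (by linarith)]
  linarith

theorem l2c_L_two {p : ℕ} (hp : p.Prime) : (1 - 1 / (p : ℝ))⁻¹ ≤ 2 := by
  have h2 : (2 : ℝ) ≤ p := by exact_mod_cast hp.two_le
  have h := l2c_L_le hp
  have h3 : 2 / (p : ℝ) ≤ 1 := by
    rw [div_le_one (by linarith)]
    exact h2
  linarith

theorem l2c_pow {p : ℕ} (hp : p.Prime) (n : ℕ) :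
    ((1 - 1 / (p : ℝ))⁻¹) ^ n - 1 ≤ n * 2 ^ n * ((1 - 1 / (p : ℝ))⁻¹ - 1) := by
  have h1 := l2c_L_one hp
  have h2 := l2c_L_two hp
  set L := (1 - 1 / (p : ℝ))⁻¹
  induction n with
  | zero => simp
  | succ n ih =>
    have e : L ^ (n + 1) - 1 = L * (L ^ n - 1) + (L - 1) := by ring
    rw [e]
    have h3 : 0 ≤ L ^ n - 1 := sub_nonneg.2 (one_le_pow₀ h1)
    have h4 : L * (L ^ n - 1) ≤ 2 * (n * 2 ^ n * (L - 1)) := mul_le_mul h2 ih h3 (by norm_num)
    have h5 : (L - 1) ≤ 2 ^ (n + 1) * (L - 1) :=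
      le_mul_of_one_le_left (by linarith) (one_le_pow₀ (by norm_num))
    refine (add_le_add h4 h5).trans (le_of_eq ?_)
    push_cast
    ring

/-- Proof. `af_eq`; `QQ B P h` has at most `ρ ≤ 1 + g A` roots modulo `p > A` (`H59.rootCount_mul_le`, `H59.rootCount_prod_le`; none of the factors vanishes modulo
`p`). `|(1 - ρ/p)(1 - 1/p)^(-m) - 1| ≤ |(1 - 1/p)^(-m) - 1| + (ρ/p) 2^m ≤ m 2^m/p + ρ 2^m/p`, `m = r + g ≤ g + 1` (`(1 - 1/p)^(-1) = 1 + 1/(p-1) ≤ 1 + 2/p`). -/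
theorem af_close (g A : ℕ) : ∃ C : ℝ, 0 < C ∧ ∀ P : Fin g → ℤ[X], Pol A P → ∀ (r : ℕ) (B : ℤ[X]),
    Bas A r B → ∀ p : ℕ, p.Prime → A < p → ∀ h : Fin g → ℕ, |af r B P univ p h - 1| ≤ C / p := by
  classical
  refine ⟨(g + 1 : ℝ) * 2 ^ (g + 1) * 2 + (1 + g * A) * 2 ^ (g + 1), by positivity, ?_⟩
  intro P hP r B hB p hp hA h
  have hp0 : (0 : ℝ) < p := by exact_mod_cast hp.pos
  have hLone := l2c_L_one hp
  have hLtwo := l2c_L_two hp
  have hroot : rootCount (QQ B P h) p ≤ 1 + g * A := by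
    unfold QQ
    refine (Pool.Agent.Lib.H59.rootCount_mul_le _ _ hp).trans (add_le_add ?_ ?_)
    · rcases hB with ⟨-, hB1⟩ | ⟨-, hd, hl⟩
      · subst hB1
        refine (l2c_roots hp ?_).trans ?_
        · rw [leadingCoeff_one]
          exact (Nat.prime_iff_prime_int.1 hp).not_dvd_one
        · simp
      · refine (l2c_roots hp ?_).trans hd.le
        have hne : B.leadingCoeff ≠ 0 := by
          intro h0
          rw [leadingCoeff_eq_zero] at h0
          rw [h0] at hd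
          simp at hd
        rw [Int.natCast_dvd]
        intro hdv
        have h3 := Nat.le_of_dvd (Int.natAbs_pos.2 hne) hdv
        omega
    · refine (Pool.Agent.Lib.H59.rootCount_prod_le _ _ hp).trans ?_
      have h2 : ∀ i ∈ (univ : Finset (Fin g)), rootCount (fam P h i) p ≤ A := by
        intro i _
        unfold fam
        have hd : (P i + C (h i : ℤ)).natDegree = (P i).natDegree := natDegree_add_C
        have hlc : (P i + C (h i : ℤ)).leadingCoeff = (P i).leadingCoeff := by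
          unfold leadingCoeff
          rw [hd, coeff_add, coeff_C, if_neg (by have := hP.deg i; omega), add_zero]
        have hne : (P i).leadingCoeff ≠ 0 := by
          intro h0
          rw [leadingCoeff_eq_zero] at h0
          have := hP.deg i
          rw [h0] at this
          simp at this
        have hnd : ¬ (p : ℤ) ∣ (P i + C (h i : ℤ)).leadingCoeff := by
          rw [hlc, Int.natCast_dvd]
          intro hdv
          have h3 := Nat.le_of_dvd (Int.natAbs_pos.2 hne) hdv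
          have h4 := hP.lc i
          omega
        exact (l2c_roots hp hnd).trans (hd.le.trans (hP.degA i))
      refine (sum_le_card_nsmul _ _ _ h2).trans ?_
      rw [card_univ, Fintype.card_fin, smul_eq_mul]
  rw [af_eq A r B hB P p hp h]
  have hinv : ((1 - 1 / (p : ℝ)) ^ (r + g))⁻¹ = ((1 - 1 / (p : ℝ))⁻¹) ^ (r + g) := by rw [inv_pow]
  rw [hinv]
  have hr : r ≤ 1 := by
    rcases hB with ⟨h1, -⟩ | ⟨h1, -, -⟩ <;> omega
  have hpow := l2c_pow hp (r + g)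
  have hLle := l2c_L_le hp
  set L := (1 - 1 / (p : ℝ))⁻¹ with hL
  have hm0 : 0 ≤ L ^ (r + g) - 1 := sub_nonneg.2 (one_le_pow₀ hLone)
  have hm1 : L ^ (r + g) - 1 ≤ (g + 1 : ℝ) * 2 ^ (g + 1) * (2 / p) := by
    refine hpow.trans ?_
    have k1 : ((r + g : ℕ) : ℝ) ≤ g + 1 := by
      push_cast
      have : (r : ℝ) ≤ 1 := by exact_mod_cast hr
      linarith
    have k2 : (2 : ℝ) ^ (r + g) ≤ 2 ^ (g + 1) := pow_le_pow_right₀ (by norm_num) (by omega)
    refine mul_le_mul (mul_le_mul k1 k2 (by positivity) (by positivity)) hLle (by linarith) (by positivity)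
  have hm2 : L ^ (r + g) ≤ 2 ^ (g + 1) := by
    refine (pow_le_pow_left₀ (by linarith) hLtwo _).trans ?_
    exact pow_le_pow_right₀ (by norm_num) (by omega)
  have hrr : (rootCount (QQ B P h) p : ℝ) ≤ 1 + g * A := by exact_mod_cast hroot
  have e : (1 - (rootCount (QQ B P h) p : ℝ) / p) * L ^ (r + g) - 1 =
      (L ^ (r + g) - 1) - (rootCount (QQ B P h) p : ℝ) / p * L ^ (r + g) := by ring
  rw [e]
  have hq0 : 0 ≤ (rootCount (QQ B P h) p : ℝ) / p * L ^ (r + g) := by positivity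
  have hq1 : (rootCount (QQ B P h) p : ℝ) / p * L ^ (r + g) ≤ (1 + g * A) / p * 2 ^ (g + 1) := by
    refine mul_le_mul (div_le_div_of_nonneg_right hrr hp0.le) hm2 (by positivity) (by positivity)
  have e2 : ((g + 1 : ℝ) * 2 ^ (g + 1) * 2 + (1 + g * A) * 2 ^ (g + 1)) / p =
      (g + 1 : ℝ) * 2 ^ (g + 1) * (2 / p) + (1 + g * A) / p * 2 ^ (g + 1) := by
    field_simp
  rw [e2, abs_le]
  have hz1 : (0 : ℝ) ≤ (g + 1 : ℝ) * 2 ^ (g + 1) * (2 / p) := by positivity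
  have hz2 : (0 : ℝ) ≤ (1 + g * A) / p * 2 ^ (g + 1) := by positivity
  constructor <;> linarith

end Pool.Agent.Lib.H59X
end

-- from Lib.H59X.L3
section

/-!
# Chunk L3: the model against the truncated singular series, on average over all residues
-/

open Finset Polynomial

namespace Pool.Agent.Lib.H59X

open Pool.Agent.Lib.H59 (argSet argCount Admissible primeCount omegaN seriesTrunc rootCount)
open Pool.Agent.Lib.H68T (lp)
open Pool.Agent.Lib.H33B (Lq Lw PW SieveWt)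

theorem L3_mod_dvd {g a b : ℕ} (hab : a ∣ b) {F : (Fin g → ℕ) → ℝ} (hF : Per a F) : Per b F :=
  fun h h' hh => hF h h' fun i => (hh i).of_dvd hab

theorem L3_per_prod {g : ℕ} (T : Finset ℕ) (f : ℕ → (Fin g → ℕ) → ℝ) (hf : ∀ p ∈ T, Per p (f p)) :
    Per (∏ p ∈ T, p) (fun h => ∏ p ∈ T, f p h) := by
  intro h h' hh
  exact prod_congr rfl fun p hp => hf p hp h h' fun i => (hh i).of_dvd (dvd_prod_of_mem _ hp)

theorem L3_card (g q : ℕ) : ((cube g q).card : ℝ) = (q : ℝ) ^ g := by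
  unfold cube
  rw [Fintype.card_piFinset]
  simp

theorem L3_mean_add {g q : ℕ} (F G : (Fin g → ℕ) → ℝ) :
    mean q (fun h => F h + G h) = mean q F + mean q G := by
  unfold mean
  rw [sum_add_distrib, add_div]

theorem L3_mean_mul_const {g q : ℕ} (c : ℝ) (F : (Fin g → ℕ) → ℝ) :
    mean q (fun h => c * F h) = c * mean q F := by
  unfold mean
  rw [← mul_sum, mul_div_assoc]

theorem L3_mean_mono {g q : ℕ} (F G : (Fin g → ℕ) → ℝ) (h : ∀ x, F x ≤ G x) :
    mean q F ≤ mean q G := by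
  unfold mean
  exact div_le_div_of_nonneg_right (sum_le_sum fun x _ => h x) (by positivity)

theorem L3_mean_nonneg {g q : ℕ} (F : (Fin g → ℕ) → ℝ) (h : ∀ x, 0 ≤ F x) : 0 ≤ mean q F := by
  unfold mean
  exact div_nonneg (sum_nonneg fun x _ => h x) (by positivity)

/-- Cauchy-Schwarz for means -/
theorem L3_cs {g q : ℕ} (hq : 0 < q) (F : (Fin g → ℕ) → ℝ) (M : ℝ)
    (hM : mean q (fun h => F h ^ 2) ≤ M) : mean q (fun h => |F h|) ≤ Real.sqrt M := by
  apply Real.le_sqrt_of_sq_le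
  refine le_trans ?_ hM
  unfold mean
  have hqg : (0 : ℝ) < (q : ℝ) ^ g := by positivity
  rw [div_pow, div_le_div_iff₀ (by positivity) hqg]
  have h1 := sq_sum_le_card_mul_sum_sq (s := cube g q) (f := fun h => |F h|)
  rw [L3_card] at h1
  simp only [sq_abs] at h1
  calc (∑ h ∈ cube g q, |F h|) ^ 2 * (q : ℝ) ^ g ≤ ((q : ℝ) ^ g * ∑ h ∈ cube g q, F h ^ 2) * (q : ℝ) ^ g :=
        mul_le_mul_of_nonneg_right h1 hqg.le
    _ = _ := by ring

theorem L3_sum_sq (T : Finset ℕ) (W : ℕ) (hW : 1 ≤ W) (hT : ∀ p ∈ T, W ≤ p) :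
    ∑ p ∈ T, (1 : ℝ) / (p : ℝ) ^ 2 ≤ 2 / W := by
  obtain ⟨N, hN⟩ : ∃ N, ∀ p ∈ T, p < N := by
    refine ⟨T.sup id + 1, fun p hp => ?_⟩
    have : p ≤ T.sup id := le_sup (f := id) hp
    omega
  have hsub : T ⊆ Ioo (W - 1) N := by
    intro p hp
    rw [mem_Ioo]
    have := hT p hp
    have := hN p hp
    omega
  have h1 := sum_Ioo_inv_sq_le (α := ℝ) (W - 1) N
  have h2 : (((W - 1 : ℕ) : ℝ) + 1) = W := by
    rw [Nat.cast_sub hW]; push_cast; ring
  rw [h2] at h1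
  refine le_trans ?_ h1
  simp only [one_div]
  exact sum_le_sum_of_subset_of_nonneg hsub fun _ _ _ => by positivity

/-- Proof. Let `T` be a finite set of primes `≥ W > A`, `F = ∏_{p ∈ T} a_p`, `a_p = af r B P (I p) p`. By `mean_prod`, `af_mean`, `af_sq`:
`mean F = 1`, `mean F² ≤ ∏_{p ∈ T} (1 + C/p²) ≤ exp(C ∑_{p ≥ W} 1/p²) ≤ exp(2C/W) ≤ 1 + 4C/W` for `W ≥ 2C`. So `mean |F - 1| ≤ (mean (F - 1)²)^(1/2) =
(mean F² - 1)^(1/2) ≤ (4C/W)^(1/2)` (Cauchy-Schwarz). -/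
theorem prod_close (g A : ℕ) : ∃ (C : ℝ) (W₀ : ℕ), 0 < C ∧ ∀ P : Fin g → ℤ[X], Pol A P →
    ∀ (r : ℕ) (B : ℤ[X]), Bas A r B → ∀ W : ℕ, W₀ ≤ W → ∀ T : Finset ℕ, (∀ p ∈ T, p.Prime ∧ W ≤ p) →
    ∀ I : ℕ → Finset (Fin g),
    mean (∏ p ∈ T, p) (fun h => |(∏ p ∈ T, af r B P (I p) p h) - 1|) ≤ C / Real.sqrt W := by
  obtain ⟨c, hc, hsq⟩ := af_sq g A
  refine ⟨2 * Real.sqrt c, max (A + 1) (⌈4 * c⌉₊ + 1), by positivity, ?_⟩
  intro P hP r B hB W hW T hT I
  have hW1 : A + 1 ≤ W := (le_max_left _ _).trans hW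
  have hW2 : ⌈4 * c⌉₊ + 1 ≤ W := (le_max_right _ _).trans hW
  have hWpos : (0 : ℝ) < W := by
    have : 0 < W := by omega
    exact_mod_cast this
  have hW3 : 4 * c ≤ W := by
    refine (Nat.le_ceil _).trans ?_
    have : ⌈4 * c⌉₊ ≤ W := by omega
    exact_mod_cast this
  set q := ∏ p ∈ T, p with hq
  have hq0 : 0 < q := prod_pos fun p hp => (hT p hp).1.pos
  have hper : ∀ p ∈ T, Per p (af r B P (I p) p) := fun p _ => af_per r B P (I p) p
  have hmean : mean q (fun h => ∏ p ∈ T, af r B P (I p) p h) = 1 := by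
    rw [hq, mean_prod T (fun p hp => (hT p hp).1) (fun p => af r B P (I p) p) hper]
    apply prod_eq_one
    intro p hp
    exact af_mean A r B hB P p (hT p hp).1 (by have := (hT p hp).2; omega) (I p)
  have hmean2 : mean q (fun h => (∏ p ∈ T, af r B P (I p) p h) ^ 2) ≤ 1 + 4 * c / W := by
    have h1 : (fun h => (∏ p ∈ T, af r B P (I p) p h) ^ 2) =
        (fun h => ∏ p ∈ T, (fun h => af r B P (I p) p h ^ 2) h) := by
      funext h; rw [prod_pow]
    rw [h1, hq, mean_prod T (fun p hp => (hT p hp).1) (fun p => fun h => af r B P (I p) p h ^ 2)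
      (fun p hp h h' hh => by simp only [hper p hp h h' hh])]
    have h2 : ∏ p ∈ T, mean p (fun h => af r B P (I p) p h ^ 2) ≤
        ∏ p ∈ T, Real.exp (c * (1 / (p : ℝ) ^ 2)) := by
      apply prod_le_prod
      · intro p _
        exact L3_mean_nonneg _ fun x => sq_nonneg _
      · intro p hp
        refine (hsq P hP r B hB p (hT p hp).1 (by have := (hT p hp).2; omega) (I p)).trans ?_
        have := Real.add_one_le_exp (c * (1 / (p : ℝ) ^ 2))
        rw [mul_one_div] at this ⊢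
        linarith
    refine h2.trans ?_
    rw [← Real.exp_sum, ← mul_sum]
    have h3 := L3_sum_sq T W (by omega) fun p hp => (hT p hp).2
    have h4 : Real.exp (c * ∑ p ∈ T, 1 / (p : ℝ) ^ 2) ≤ Real.exp (2 * c / W) := by
      apply Real.exp_le_exp.mpr
      calc c * ∑ p ∈ T, 1 / (p : ℝ) ^ 2 ≤ c * (2 / W) := mul_le_mul_of_nonneg_left h3 hc.le
        _ = 2 * c / W := by ring
    refine h4.trans ?_
    set x := 2 * c / W with hx
    have hx0 : 0 ≤ x := by positivity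
    have hx1 : x ≤ 1 / 2 := by
      rw [hx, div_le_iff₀ hWpos]; linarith
    have h5 := Real.exp_bound_div_one_sub_of_interval hx0 (by linarith)
    refine h5.trans ?_
    have h6 : 1 + 4 * c / W = 1 + 2 * x := by rw [hx]; ring
    rw [h6, div_le_iff₀ (by linarith)]
    nlinarith
  have hvar : mean q (fun h => ((∏ p ∈ T, af r B P (I p) p h) - 1) ^ 2) ≤ 4 * c / W := by
    have h1 : (fun h => ((∏ p ∈ T, af r B P (I p) p h) - 1) ^ 2) =
        (fun h => (∏ p ∈ T, af r B P (I p) p h) ^ 2 + ((-2) * (∏ p ∈ T, af r B P (I p) p h) + 1)) := by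
      funext h; ring
    rw [h1, L3_mean_add, L3_mean_add, L3_mean_mul_const, hmean, mean_const g q hq0]
    linarith
  have h := L3_cs hq0 (fun h => (∏ p ∈ T, af r B P (I p) p h) - 1) _ hvar
  refine h.trans (le_of_eq ?_)
  rw [Real.sqrt_div (by positivity), Real.sqrt_mul (by norm_num),
    show (4 : ℝ) = 2 ^ 2 by norm_num, Real.sqrt_sq (by norm_num)]

theorem L3_PW_pos (w : ℕ) : 0 < PW w :=
  prod_pos fun _ hp => (Nat.prime_of_mem_primesBelow hp).pos

theorem L3_below_mono {a b : ℕ} (h : a ≤ b) : Nat.primesBelow a ⊆ Nat.primesBelow b := by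
  intro p hp
  rw [Nat.mem_primesBelow] at hp ⊢
  exact ⟨hp.1.trans_le h, hp.2⟩

theorem L3_one (A r : ℕ) (B : ℤ[X]) (hB : Bas A r B) {g : ℕ} (P : Fin g → ℤ[X]) (p : ℕ)
    (hp : p.Prime) (hA : A < p) (h : Fin g → ℕ) : af r B P ∅ p h = 1 := by
  have h1 := af_mean A r B hB P p hp hA ∅
  have h2 : af r B P ∅ p = fun _ => af r B P ∅ p h := by
    funext h'
    simp [af]
  rw [h2, mean_const g p hp.pos] at h1
  exact h1

theorem L3_split (A r : ℕ) (B : ℤ[X]) (hB : Bas A r B) {g : ℕ} (P : Fin g → ℤ[X]) {W V Z : ℕ}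
    (hA : A < W) (hWV : W ≤ V) (hVZ : V ≤ Z) (I : ℕ → Finset (Fin g)) (h1 : ∀ p < W, I p = univ)
    (h2 : ∀ p, V ≤ p → I p = ∅) (h : Fin g → ℕ) :
    ∏ p ∈ Nat.primesBelow V, af r B P (I p) p h =
      (∏ p ∈ Nat.primesBelow W, af r B P univ p h) *
        ∏ p ∈ Nat.primesBelow Z \ Nat.primesBelow W, af r B P (I p) p h := by
  have e1 : ∏ p ∈ Nat.primesBelow V, af r B P (I p) p h =
      ∏ p ∈ Nat.primesBelow Z, af r B P (I p) p h := by
    apply prod_subset (L3_below_mono hVZ)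
    intro p hp hp'
    rw [Nat.mem_primesBelow] at hp hp'
    have hVp : V ≤ p := by
      by_contra hc
      exact hp' ⟨not_le.mp hc, hp.2⟩
    rw [h2 p hVp]
    exact L3_one A r B hB P p hp.2 (by omega) h
  rw [e1, ← prod_sdiff (L3_below_mono (hWV.trans hVZ)), mul_comm]
  congr 1
  refine prod_congr rfl fun p hp => ?_
  rw [h1 p (Nat.mem_primesBelow.mp hp).1]

theorem L3_mean_small (A r : ℕ) (B : ℤ[X]) (hB : Bas A r B) {g : ℕ} (P : Fin g → ℤ[X]) (W : ℕ) :
    mean (PW W) (fun h => ∏ p ∈ Nat.primesBelow W, af r B P univ p h) ≤ 2 ^ (A + 1) := by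
  unfold PW
  rw [mean_prod _ (fun p hp => Nat.prime_of_mem_primesBelow hp) (fun p => af r B P univ p)
    (fun p _ => af_per r B P univ p)]
  rw [← prod_filter_mul_prod_filter_not (Nat.primesBelow W) (fun p => p ≤ A)]
  have h2 : ∏ p ∈ (Nat.primesBelow W).filter (fun p => ¬ p ≤ A), mean p (af r B P univ p) = 1 := by
    apply prod_eq_one
    intro p hp
    rw [mem_filter] at hp
    exact af_mean A r B hB P p (Nat.prime_of_mem_primesBelow hp.1) (by omega) univ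
  rw [h2, mul_one]
  calc ∏ p ∈ (Nat.primesBelow W).filter (fun p => p ≤ A), mean p (af r B P univ p)
      ≤ ∏ p ∈ (Nat.primesBelow W).filter (fun p => p ≤ A), (2 : ℝ) := by
        apply prod_le_prod
        · intro p _
          exact L3_mean_nonneg _ fun x => af_nonneg r B P univ p x
        · intro p hp
          rw [mem_filter] at hp
          exact af_mean_le A r B hB P p (Nat.prime_of_mem_primesBelow hp.1) univ
    _ = 2 ^ ((Nat.primesBelow W).filter (fun p => p ≤ A)).card := by rw [prod_const]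
    _ ≤ 2 ^ (A + 1) := by
        apply pow_le_pow_right₀ (by norm_num)
        have : (Nat.primesBelow W).filter (fun p => p ≤ A) ⊆ range (A + 1) := by
          intro p hp
          rw [mem_filter] at hp
          rw [mem_range]
          omega
        have := card_le_card this
        rwa [card_range] at this

/-- Proof. By `mixv_eq`, `ssz_eq` both are products of local factors, with the same factors `b_p = af r B P univ p` for `p < W` (`p < W ≤ u i`). So the function is at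
most `(∏_{p < W} b_p)(|∏_{W ≤ p < U} a_p - 1| + |∏_{W ≤ p < z} b_p - 1|)`. `mean_mul` for `PW W` and the product of the primes in `[W, max U z)` (product `PW (max U z)`); and
the mean modulo `∏_{W ≤ p < max U z} p` of the function `|∏_{W ≤ p < U} a_p - 1|`, periodic modulo `∏_{W ≤ p < U} p`, is its mean modulo the latter (`mean_mul` with
`F₂ = 1`, `mean_const`). `mean (∏_{p < W} b_p) = ∏ mean b_p ≤ 2^(A+1)` (`mean_prod`, `af_mean`, `af_mean_le` for the at most `A + 1` primes `≤ A`), `prod_close`. -/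
theorem mix_mean (g A : ℕ) : ∃ (C : ℝ) (W₀ : ℕ), 0 < C ∧ ∀ P : Fin g → ℤ[X], Pol A P →
    ∀ (r : ℕ) (B : ℤ[X]), Bas A r B → ∀ W : ℕ, W₀ ≤ W → ∀ (u : Fin g → ℕ) (U z : ℕ),
    (∀ i, W ≤ u i ∧ u i ≤ U) → W ≤ U → W ≤ z →
    mean (PW (max U z)) (fun h => |mixv r B P u U h - ssz (r + g) (QQ B P h) z|) ≤
      C / Real.sqrt W := by
  obtain ⟨C, W₁, hC, hpc⟩ := prod_close g A
  refine ⟨2 ^ (A + 1) * (2 * C), max W₁ (A + 1), by positivity, ?_⟩
  intro P hP r B hB W hW u U z hu hWU hWz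
  have hW1 : W₁ ≤ W := (le_max_left _ _).trans hW
  have hWA : A < W := by have := (le_max_right W₁ (A + 1)).trans hW; omega
  set Z := max U z with hZ
  have hUZ : U ≤ Z := le_max_left _ _
  have hzZ : z ≤ Z := le_max_right _ _
  set T := Nat.primesBelow Z \ Nat.primesBelow W with hT
  have hTp : ∀ p ∈ T, p.Prime ∧ W ≤ p := by
    intro p hp
    rw [hT, mem_sdiff, Nat.mem_primesBelow, Nat.mem_primesBelow] at hp
    refine ⟨hp.1.2, ?_⟩
    by_contra hc
    exact hp.2 ⟨not_le.mp hc, hp.1.2⟩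
  have hPW : PW Z = PW W * ∏ p ∈ T, p := by
    unfold PW
    rw [mul_comm, hT, prod_sdiff (L3_below_mono (hWU.trans hUZ))]
  have hcop : Nat.Coprime (PW W) (∏ p ∈ T, p) := by
    unfold PW
    apply Nat.Coprime.prod_left
    intro p hp
    apply Nat.Coprime.prod_right
    intro q hq
    rw [Nat.coprime_primes (Nat.prime_of_mem_primesBelow hp) (hTp q hq).1]
    have h1 := (Nat.mem_primesBelow.mp hp).1
    have h2 := (hTp q hq).2
    omega
  set Ia : ℕ → Finset (Fin g) := fun p => univ.filter fun i => p < u i with hIa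
  set Ib : ℕ → Finset (Fin g) := fun p => if p < z then univ else ∅ with hIb
  set F₁ : (Fin g → ℕ) → ℝ := fun h => ∏ p ∈ Nat.primesBelow W, af r B P univ p h with hF₁
  set Fa : (Fin g → ℕ) → ℝ := fun h => ∏ p ∈ T, af r B P (Ia p) p h with hFa
  set Fb : (Fin g → ℕ) → ℝ := fun h => ∏ p ∈ T, af r B P (Ib p) p h with hFb
  have e1 : ∀ h, mixv r B P u U h = F₁ h * Fa h := by
    intro h
    rw [mixv_eq A r B hB P u U (fun i => (hu i).2) h]
    refine L3_split A r B hB P hWA hWU hUZ Ia ?_ ?_ h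
    · intro p hp
      rw [hIa]
      simp only [filter_eq_self, mem_univ, true_implies]
      intro i
      exact lt_of_lt_of_le hp (hu i).1
    · intro p hp
      rw [hIa]
      simp only [filter_eq_empty_iff, mem_univ, true_implies]
      intro i
      have := (hu i).2
      omega
  have e2 : ∀ h, ssz (r + g) (QQ B P h) z = F₁ h * Fb h := by
    intro h
    rw [ssz_eq A r B hB P z h]
    have e3 : ∏ p ∈ Nat.primesBelow z, af r B P univ p h =
        ∏ p ∈ Nat.primesBelow z, af r B P (Ib p) p h := by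
      refine prod_congr rfl fun p hp => ?_
      rw [hIb]
      simp only [(Nat.mem_primesBelow.mp hp).1, if_true]
    rw [e3]
    refine L3_split A r B hB P hWA hWz hzZ Ib ?_ ?_ h
    · intro p hp
      rw [hIb]
      simp only [show p < z by omega, if_true]
    · intro p hp
      rw [hIb]
      simp only [show ¬ p < z by omega, if_false]
  have hF₁0 : ∀ h, 0 ≤ F₁ h := fun h => prod_nonneg fun p _ => af_nonneg r B P univ p h
  have hle : ∀ h, |mixv r B P u U h - ssz (r + g) (QQ B P h) z| ≤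
      F₁ h * (|Fa h - 1| + |Fb h - 1|) := by
    intro h
    rw [e1, e2, ← mul_sub, abs_mul, abs_of_nonneg (hF₁0 h)]
    apply mul_le_mul_of_nonneg_left _ (hF₁0 h)
    calc |Fa h - Fb h| = |(Fa h - 1) - (Fb h - 1)| := by congr 1; ring
      _ ≤ _ := abs_sub _ _
  refine (L3_mean_mono _ _ hle).trans ?_
  have hper1 : Per (PW W) F₁ := L3_per_prod _ (fun p => af r B P univ p)
    (fun p _ => af_per r B P univ p)
  have hpera : Per (∏ p ∈ T, p) Fa := L3_per_prod _ (fun p => af r B P (Ia p) p)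
    (fun p _ => af_per r B P (Ia p) p)
  have hperb : Per (∏ p ∈ T, p) Fb := L3_per_prod _ (fun p => af r B P (Ib p) p)
    (fun p _ => af_per r B P (Ib p) p)
  have hTpos : 0 < ∏ p ∈ T, p := prod_pos fun p hp => (hTp p hp).1.pos
  rw [hPW, mean_mul (PW W) (∏ p ∈ T, p) hcop (L3_PW_pos W) hTpos F₁
    (fun h => |Fa h - 1| + |Fb h - 1|) hper1 (by
      intro h h' hh
      simp only [hpera h h' hh, hperb h h' hh])]
  have h3 : mean (∏ p ∈ T, p) (fun h => |Fa h - 1| + |Fb h - 1|) ≤ 2 * C / Real.sqrt W := by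
    rw [L3_mean_add]
    have ha := hpc P hP r B hB W hW1 T hTp Ia
    have hb := hpc P hP r B hB W hW1 T hTp Ib
    calc _ ≤ C / Real.sqrt W + C / Real.sqrt W := add_le_add ha hb
      _ = _ := by ring
  calc _ ≤ 2 ^ (A + 1) * (2 * C / Real.sqrt W) := by
        apply mul_le_mul (L3_mean_small A r B hB P W) h3
        · exact L3_mean_nonneg _ fun x => by positivity
        · positivity
    _ = _ := by ring

end Pool.Agent.Lib.H59X
end

-- from Lib.H59X.L4
section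

/-!
# Chunk L4: the model against the truncated singular series, on average over a box
-/

open Finset Polynomial

namespace Pool.Agent.Lib.H59X

open Pool.Agent.Lib.H59 (argSet argCount Admissible primeCount omegaN seriesTrunc rootCount)
open Pool.Agent.Lib.H68T (lp)
open Pool.Agent.Lib.H33B (Lq Lw PW SieveWt)

theorem L4_ssz_per (A r : ℕ) (B : ℤ[X]) (hB : Bas A r B) {g : ℕ} (P : Fin g → ℤ[X]) (z : ℕ) :
    Per (PW z) (fun h => ssz (r + g) (QQ B P h) z) := by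
  have h1 : (fun h => ssz (r + g) (QQ B P h) z) =
      fun h => ∏ p ∈ Nat.primesBelow z, af r B P univ p h := by
    funext h; exact ssz_eq A r B hB P z h
  rw [h1]
  exact L3_per_prod _ (fun p => af r B P univ p) (fun p _ => af_per r B P univ p)

theorem L4_mix_per (A r : ℕ) (B : ℤ[X]) (hB : Bas A r B) {g : ℕ} (P : Fin g → ℤ[X]) (u : Fin g → ℕ)
    (U : ℕ) (hu : ∀ i, u i ≤ U) : Per (PW U) (mixv r B P u U) := by
  have h1 : mixv r B P u U = fun h =>
      ∏ p ∈ Nat.primesBelow U, af r B P (univ.filter fun i => p < u i) p h := by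
    funext h; exact mixv_eq A r B hB P u U hu h
  rw [h1]
  exact L3_per_prod _ (fun p => af r B P (univ.filter fun i => p < u i) p)
    (fun p _ => af_per r B P _ p)

theorem L4_PW_dvd {a b : ℕ} (h : a ≤ b) : PW a ∣ PW b :=
  prod_dvd_prod_of_subset _ _ _ (L3_below_mono h)

/-- `box_le` for a box with sides at least the period -/
theorem L4_box {g : ℕ} (q : ℕ) (hq : 0 < q) (H : Fin g → ℕ) (hH : ∀ i, q ≤ H i)
    (F : (Fin g → ℕ) → ℝ) (hF : Per q F) (h0 : ∀ h, 0 ≤ F h) :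
    ∑ h ∈ Box H, F h ≤ 2 ^ g * vol H * mean q F := by
  refine (box_le q hq H F hF h0).trans ?_
  apply mul_le_mul_of_nonneg_right _ (L3_mean_nonneg F h0)
  unfold vol
  calc ∏ i, ((H i : ℝ) + q) ≤ ∏ i : Fin g, (2 * (H i : ℝ)) := by
        apply prod_le_prod
        · intro i _; positivity
        · intro i _
          have : (q : ℝ) ≤ H i := by exact_mod_cast hH i
          linarith
    _ = _ := by rw [prod_mul_distrib]; simp

/-- Proof. `box_le` with `q = PW (max U z)`, for the function of `mix_mean` (periodic: `af_per` and `mixv_eq`, `ssz_eq`, or directly), and `H_i ≥ H₀ = q`: the sum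
is at most `2^g vol H` times the mean. -/
theorem mix_box (g A : ℕ) : ∃ (C : ℝ) (W₀ : ℕ), 0 < C ∧ ∀ (W U z : ℕ) (u : Fin g → ℕ), W₀ ≤ W →
    (∀ i, W ≤ u i ∧ u i ≤ U) → W ≤ U → W ≤ z → ∃ H₀ : ℕ, ∀ H : Fin g → ℕ, (∀ i, H₀ ≤ H i) →
    ∀ P : Fin g → ℤ[X], Pol A P → ∀ (r : ℕ) (B : ℤ[X]), Bas A r B →
    ∑ h ∈ Box H, |mixv r B P u U h - ssz (r + g) (QQ B P h) z| ≤ C / Real.sqrt W * vol H := by
  obtain ⟨C, W₀, hC, hmm⟩ := mix_mean g A
  refine ⟨2 ^ g * C, W₀, by positivity, ?_⟩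
  intro W U z u hW hu hWU hWz
  refine ⟨PW (max U z), ?_⟩
  intro H hH P hP r B hB
  have h1 := hmm P hP r B hB W hW u U z hu hWU hWz
  have hper : Per (PW (max U z)) (fun h => |mixv r B P u U h - ssz (r + g) (QQ B P h) z|) := by
    have ha : Per (PW (max U z)) (mixv r B P u U) :=
      L3_mod_dvd (L4_PW_dvd (le_max_left _ _)) (L4_mix_per A r B hB P u U fun i => (hu i).2)
    have hb : Per (PW (max U z)) (fun h => ssz (r + g) (QQ B P h) z) :=
      L3_mod_dvd (L4_PW_dvd (le_max_right _ _)) (L4_ssz_per A r B hB P z)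
    intro h h' hh
    have hb' := hb h h' hh
    simp only at hb'
    simp only [ha h h' hh, hb']
  refine (L4_box _ (L3_PW_pos _) H hH _ hper fun _ => abs_nonneg _).trans ?_
  have hv : 0 ≤ vol H := prod_nonneg fun _ _ => Nat.cast_nonneg _
  calc 2 ^ g * vol H * mean (PW (max U z)) (fun h => |mixv r B P u U h - ssz (r + g) (QQ B P h) z|)
      ≤ 2 ^ g * vol H * (C / Real.sqrt W) := mul_le_mul_of_nonneg_left h1 (by positivity)
    _ = _ := by ring

/-- The truncated singular series is rarely small.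

Proof. `f_p(h) = (af r B P univ p h)⁻¹` if `af > 0` and `0` otherwise; the number is at most `σ ∑_{h ∈ Box} ∏_{p < z} f_p(h)`, which is at most `σ 2^g vol H ∏_{p < z} mean p f_p` by
`box_le` (`H_i ≥ PW z`) and `mean_prod`. By `af_close`, for `p > A`, `p ≥ 2 C'`: `af = 1 + x`, `|x| ≤ C'/p ≤ 1/2`, `f_p ≤ 1 - x + 2 x²`, so (mean of `x` is `0`, `af_mean`)
`mean f_p ≤ 1 + 2 C'²/p²`; the product of these is bounded. For the other primes (`p < p₀ = A + 2 C' + 2`) `f_p ≤ p` (`af_eq`: `af > 0` means `rootCount < p`,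
so `1 - rootCount/p ≥ 1/p`, and `(1 - 1/p)^(-m) ≥ 1`), and there are at most `p₀` of them. -/
theorem inv_box (g A : ℕ) : ∃ C : ℝ, 0 < C ∧ ∀ z : ℕ, ∃ H₀ : ℕ, ∀ H : Fin g → ℕ, (∀ i, H₀ ≤ H i) →
    ∀ P : Fin g → ℤ[X], Pol A P → ∀ (r : ℕ) (B : ℤ[X]), Bas A r B → ∀ σ : ℝ, 0 < σ →
    (((Box H).filter (fun h => 0 < ssz (r + g) (QQ B P h) z ∧
      ssz (r + g) (QQ B P h) z < σ)).card : ℝ) ≤ C * σ * vol H := by
  obtain ⟨c, hc, hcl⟩ := af_close g A
  set p₀ : ℕ := A + ⌈2 * c⌉₊ + 2 with hp₀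
  refine ⟨2 ^ g * ((p₀ : ℝ) ^ p₀ * Real.exp (4 * c ^ 2)), by positivity, ?_⟩
  intro z
  refine ⟨PW z, ?_⟩
  intro H hH P hP r B hB σ hσ
  set f : ℕ → (Fin g → ℕ) → ℝ := fun p h =>
    if 0 < af r B P univ p h then (af r B P univ p h)⁻¹ else 0 with hf
  have hf0 : ∀ p h, 0 ≤ f p h := by
    intro p h
    simp only [hf]
    split_ifs with h1
    · positivity
    · exact le_rfl
  have hfper : ∀ p, Per p (f p) := by
    intro p h h' hh
    simp only [hf, af_per r B P univ p h h' hh]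
  have hFper : Per (PW z) (fun h => ∏ p ∈ Nat.primesBelow z, f p h) :=
    L3_per_prod _ f fun p _ => hfper p
  have hF0 : ∀ h, 0 ≤ ∏ p ∈ Nat.primesBelow z, f p h := fun h => prod_nonneg fun p _ => hf0 p h
  -- the count
  have h1 : (((Box H).filter (fun h => 0 < ssz (r + g) (QQ B P h) z ∧
      ssz (r + g) (QQ B P h) z < σ)).card : ℝ) ≤ σ * ∑ h ∈ Box H, ∏ p ∈ Nat.primesBelow z, f p h := by
    rw [← mul_one (((Box H).filter (fun h => 0 < ssz (r + g) (QQ B P h) z ∧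
      ssz (r + g) (QQ B P h) z < σ)).card : ℝ), ← nsmul_eq_mul, ← sum_const, mul_sum]
    refine le_trans (sum_le_sum (g := fun h => σ * ∏ p ∈ Nat.primesBelow z, f p h) ?_)
      (sum_le_sum_of_subset_of_nonneg (filter_subset _ _)
        fun h _ _ => mul_nonneg hσ.le (hF0 h))
    intro h hh
    rw [mem_filter] at hh
    obtain ⟨-, hpos, hlt⟩ := hh
    rw [ssz_eq A r B hB P z h] at hpos hlt
    have h2 : ∀ p ∈ Nat.primesBelow z, 0 < af r B P univ p h := by
      intro p hp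
      rcases lt_or_eq_of_le (af_nonneg r B P univ p h) with h3 | h3
      · exact h3
      · exfalso
        rw [prod_eq_zero hp h3.symm] at hpos
        exact lt_irrefl _ hpos
    have h3 : ∏ p ∈ Nat.primesBelow z, f p h = (∏ p ∈ Nat.primesBelow z, af r B P univ p h)⁻¹ := by
      rw [← prod_inv_distrib]
      refine prod_congr rfl fun p hp => ?_
      simp only [hf, if_pos (h2 p hp)]
    rw [h3, ← div_eq_mul_inv, le_div_iff₀ hpos, one_mul]
    exact hlt.le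
  refine h1.trans ?_
  have h2 := L4_box (PW z) (L3_PW_pos z) H hH _ hFper hF0
  have h3 : mean (PW z) (fun h => ∏ p ∈ Nat.primesBelow z, f p h) =
      ∏ p ∈ Nat.primesBelow z, mean p (f p) :=
    mean_prod _ (fun p hp => Nat.prime_of_mem_primesBelow hp) f fun p _ => hfper p
  -- small primes
  have hsmall : ∀ p ∈ Nat.primesBelow z, p < p₀ → mean p (f p) ≤ p₀ := by
    intro p hp hlt
    have hpp := Nat.prime_of_mem_primesBelow hp
    have hp0 : (0 : ℝ) < p := by exact_mod_cast hpp.pos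
    have hle : mean p (f p) ≤ mean p (fun _ : Fin g → ℕ => (p : ℝ)) := by
      apply L3_mean_mono
      intro h
      simp only [hf]
      split_ifs with h4
      · rw [af_eq A r B hB P p hpp h] at h4 ⊢
        have hp1 : (1 : ℝ) < p := by exact_mod_cast hpp.one_lt
        have h5 : 0 < 1 - 1 / (p : ℝ) := by
          rw [sub_pos, div_lt_one hp0]; exact hp1
        have h6 : 1 - 1 / (p : ℝ) ≤ 1 := by
          have : 0 < 1 / (p : ℝ) := by positivity
          linarith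
        have h7 : 1 ≤ ((1 - 1 / (p : ℝ)) ^ (r + g))⁻¹ := by
          rw [one_le_inv₀ (pow_pos h5 _)]
          exact pow_le_one₀ h5.le h6
        have h8 : 0 < 1 - (rootCount (QQ B P h) p : ℝ) / p := by
          by_contra hcon
          have := mul_nonpos_of_nonpos_of_nonneg (not_lt.mp hcon) (zero_le_one.trans h7)
          linarith
        have h9 : rootCount (QQ B P h) p + 1 ≤ p := by
          rw [sub_pos, div_lt_one hp0] at h8
          exact_mod_cast h8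
        have h10 : 1 / (p : ℝ) ≤ 1 - (rootCount (QQ B P h) p : ℝ) / p := by
          rw [div_le_iff₀ hp0]
          have : (rootCount (QQ B P h) p : ℝ) + 1 ≤ p := by exact_mod_cast h9
          rw [sub_mul, div_mul_cancel₀ _ hp0.ne']
          linarith
        rw [inv_le_comm₀ h4 hp0]
        calc ((p : ℝ))⁻¹ = 1 / p * 1 := by rw [one_div, mul_one]
          _ ≤ _ := mul_le_mul h10 h7 zero_le_one h8.le
      · positivity
    rw [mean_const g p hpp.pos] at hle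
    refine hle.trans ?_
    exact_mod_cast hlt.le
  -- large primes
  have hlarge : ∀ p ∈ Nat.primesBelow z, ¬ p < p₀ → mean p (f p) ≤
      Real.exp (2 * c ^ 2 * (1 / (p : ℝ) ^ 2)) := by
    intro p hp hlt
    have hpp := Nat.prime_of_mem_primesBelow hp
    have hp0 : (0 : ℝ) < p := by exact_mod_cast hpp.pos
    have hAp : A < p := by omega
    have hcp : 2 * c ≤ p := by
      refine (Nat.le_ceil _).trans ?_
      have : ⌈2 * c⌉₊ ≤ p := by omega
      exact_mod_cast this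
    have hle : mean p (f p) ≤ mean p (fun h : Fin g → ℕ =>
        (-1) * af r B P univ p h + (2 + 2 * (c / p) ^ 2)) := by
      apply L3_mean_mono
      intro h
      have h4 := hcl P hP r B hB p hpp hAp h
      have h5 : c / p ≤ 1 / 2 := by
        rw [div_le_iff₀ hp0]; linarith
      set x := af r B P univ p h - 1 with hx
      have hx1 := abs_le.mp (h4.trans h5)
      have hx2 : x ^ 2 ≤ (c / p) ^ 2 := sq_le_sq' (by linarith [neg_abs_le x]) (by linarith [le_abs_self x])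
      have hxa : af r B P univ p h = 1 + x := by rw [hx]; ring
      have hpos : 0 < af r B P univ p h := by rw [hxa]; linarith [hx1.1]
      simp only [hf]
      rw [if_pos hpos]
      rw [inv_le_iff_one_le_mul₀ hpos, hxa]
      have h6 : 1 - x + 2 * x ^ 2 ≤ (-1) * (1 + x) + (2 + 2 * (c / p) ^ 2) := by linarith
      have h7 : 0 < 1 + x := by linarith [hx1.1]
      calc (1 : ℝ) ≤ (1 + x) * (1 - x + 2 * x ^ 2) := by nlinarith [sq_nonneg x, hx1.1]
        _ ≤ _ := by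
          rw [mul_comm]
          exact mul_le_mul_of_nonneg_right h6 h7.le
    refine hle.trans ?_
    rw [L3_mean_add, L3_mean_mul_const, af_mean A r B hB P p hpp hAp univ, mean_const g p hpp.pos]
    have := Real.add_one_le_exp (2 * c ^ 2 * (1 / (p : ℝ) ^ 2))
    have h8 : 2 * (c / (p : ℝ)) ^ 2 = 2 * c ^ 2 * (1 / (p : ℝ) ^ 2) := by
      rw [div_pow]; ring
    linarith
  have hp₀1 : (1 : ℝ) ≤ p₀ := by
    have : 1 ≤ p₀ := by omega
    exact_mod_cast this
  have h4 : ∏ p ∈ Nat.primesBelow z, mean p (f p) ≤ (p₀ : ℝ) ^ p₀ * Real.exp (4 * c ^ 2) := by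
    rw [← prod_filter_mul_prod_filter_not (Nat.primesBelow z) (fun p => p < p₀)]
    apply mul_le_mul
    · calc ∏ p ∈ (Nat.primesBelow z).filter (fun p => p < p₀), mean p (f p)
          ≤ ∏ p ∈ (Nat.primesBelow z).filter (fun p => p < p₀), (p₀ : ℝ) := by
            apply prod_le_prod
            · intro p _
              exact L3_mean_nonneg _ (hf0 p)
            · intro p hp
              rw [mem_filter] at hp
              exact hsmall p hp.1 hp.2
        _ = (p₀ : ℝ) ^ ((Nat.primesBelow z).filter (fun p => p < p₀)).card := by rw [prod_const]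
        _ ≤ _ := by
            apply pow_le_pow_right₀ hp₀1
            have : (Nat.primesBelow z).filter (fun p => p < p₀) ⊆ range p₀ := by
              intro p hp
              rw [mem_filter] at hp
              exact mem_range.mpr hp.2
            have := card_le_card this
            rwa [card_range] at this
    · calc ∏ p ∈ (Nat.primesBelow z).filter (fun p => ¬ p < p₀), mean p (f p)
          ≤ ∏ p ∈ (Nat.primesBelow z).filter (fun p => ¬ p < p₀),
              Real.exp (2 * c ^ 2 * (1 / (p : ℝ) ^ 2)) := by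
            apply prod_le_prod
            · intro p _
              exact L3_mean_nonneg _ (hf0 p)
            · intro p hp
              rw [mem_filter] at hp
              exact hlarge p hp.1 hp.2
        _ = Real.exp (2 * c ^ 2 * ∑ p ∈ (Nat.primesBelow z).filter (fun p => ¬ p < p₀),
              1 / (p : ℝ) ^ 2) := by rw [← Real.exp_sum, mul_sum]
        _ ≤ _ := by
            apply Real.exp_le_exp.mpr
            have h5 := L3_sum_sq ((Nat.primesBelow z).filter (fun p => ¬ p < p₀)) 1 le_rfl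
              (fun p hp => by
                rw [mem_filter] at hp
                exact (Nat.prime_of_mem_primesBelow hp.1).one_le)
            calc 2 * c ^ 2 * ∑ p ∈ (Nat.primesBelow z).filter (fun p => ¬ p < p₀), 1 / (p : ℝ) ^ 2
                ≤ 2 * c ^ 2 * (2 / ((1 : ℕ) : ℝ)) := mul_le_mul_of_nonneg_left h5 (by positivity)
              _ = _ := by push_cast; ring
    · exact prod_nonneg fun p _ => L3_mean_nonneg _ (hf0 p)
    · positivity
  have hv : 0 ≤ vol H := prod_nonneg fun _ _ => Nat.cast_nonneg _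
  calc σ * ∑ h ∈ Box H, ∏ p ∈ Nat.primesBelow z, f p h
      ≤ σ * (2 ^ g * vol H * ((p₀ : ℝ) ^ p₀ * Real.exp (4 * c ^ 2))) := by
        apply mul_le_mul_of_nonneg_left _ hσ.le
        refine h2.trans ?_
        rw [h3]
        exact mul_le_mul_of_nonneg_left h4 (by positivity)
    _ = _ := by ring

end Pool.Agent.Lib.H59X
end

-- from Lib.H59X.V1
section

/-!
# Chunk V1: second moments over boxes
-/

open Finset Polynomial

namespace Pool.Agent.Lib.H59X

open Pool.Agent.Lib.H59 (argSet argCount Admissible primeCount omegaN seriesTrunc rootCount)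
open Pool.Agent.Lib.H68T (lp)
open Pool.Agent.Lib.H33B (Lq Lw PW SieveWt)

theorem V1_card {g : ℕ} (H : Fin g → ℕ) : ((Box H).card : ℝ) = vol H := by
  unfold Box vol
  rw [Fintype.card_piFinset]
  simp

theorem V1_vol_nonneg {g : ℕ} (H : Fin g → ℕ) : 0 ≤ vol H := prod_nonneg fun _ _ => Nat.cast_nonneg _

/-- Proof. `x_p = af r B P univ p - 1`, `|x_p| ≤ C/p`, `mean p x_p = 0` (`af_close`, `af_mean`). Expand the square: `∑_{p, p'} ∑_h x_p x_{p'}`.
`p ≠ p'`: `x_p x_{p'}` is periodic modulo `q = p p'`, of mean `0` (`mean_mul`) and at most `M = C²/q` in absolute value; `box_signed` and `box_diff` with `t = q C₁/z³`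
(`q ≤ z² `, `q ≤ t H_i` by `z³ ≤ C₁ H_i`; `t ≤ C₁/z ≤ 1` if `z ≥ C₁`) give `≤ 2 M 2^g t vol H = 2^(g+1) C² C₁ vol H/z³`; at most `z²` pairs: total
`≤ C' vol H/z ≤ C' vol H/y`. `p = p'`: `box_le` with `q = p ≤ z² ≤ H_i` (`z ≥ C₁`): `≤ 2^g vol H C²/p²`, and `∑_{p ≥ y} 1/p² ≤ 2/y`.
If `z < C₁` then `T` has less than `C₁` elements, `|∑ x_p| ≤ C C₁`, and `y ≤ z < C₁`: the sum is at most `C² C₁² vol H ≤ C² C₁³ vol H/y`. (If `T = ∅` the sum is `0`.) -/
theorem sec (g A : ℕ) (C₁ : ℝ) (hC₁ : 1 ≤ C₁) : ∃ C : ℝ, 0 < C ∧ ∀ P : Fin g → ℤ[X], Pol A P →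
    ∀ (r : ℕ) (B : ℤ[X]), Bas A r B → ∀ (z y : ℕ) (H : Fin g → ℕ), 1 ≤ y → y ≤ z →
    (∀ i, (z : ℝ) ^ 3 ≤ C₁ * H i) → ∀ T : Finset ℕ, (∀ p ∈ T, p.Prime ∧ A < p ∧ y ≤ p ∧ p < z) →
    ∑ h ∈ Box H, (∑ p ∈ T, (af r B P univ p h - 1)) ^ 2 ≤ C / y * vol H := by
  obtain ⟨c, hc, hcl⟩ := af_close g A
  refine ⟨c ^ 2 * (2 ^ (g + 1) + 2 ^ (g + 1) * C₁ + C₁ ^ 3), by positivity, ?_⟩
  intro P hP r B hB z y H hy hyz hH T hT
  have hv := V1_vol_nonneg H
  have hy0 : (0 : ℝ) < y := by exact_mod_cast hy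
  have hz0 : (0 : ℝ) < z := by
    have : 0 < z := by omega
    exact_mod_cast this
  have hz1 : (1 : ℝ) ≤ z := by
    have : 1 ≤ z := by omega
    exact_mod_cast this
  have hyzr : (y : ℝ) ≤ z := by exact_mod_cast hyz
  have hTcard : (T.card : ℝ) ≤ z := by
    have h1 : T ⊆ range z := fun p hp => mem_range.mpr (hT p hp).2.2.2
    have := card_le_card h1
    rw [card_range] at this
    exact_mod_cast this
  have hx : ∀ p ∈ T, ∀ h, |af r B P univ p h - 1| ≤ c / p := fun p hp h =>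
    hcl P hP r B hB p (hT p hp).1 (hT p hp).2.1 h
  have hper : ∀ p, Per p (fun h => af r B P univ p h - 1) := by
    intro p h h' hh
    simp only [af_per r B P univ p h h' hh]
  have hmean : ∀ p ∈ T, mean p (fun h => af r B P univ p h - 1) = 0 := by
    intro p hp
    have h1 : (fun h => af r B P univ p h - 1) = fun h => af r B P univ p h + (-1) := by
      funext h; ring
    rw [h1, L3_mean_add, af_mean A r B hB P p (hT p hp).1 (hT p hp).2.1 univ,
      mean_const g p (hT p hp).1.pos]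
    norm_num
  rcases lt_or_ge (z : ℝ) C₁ with hzC | hzC
  · -- small `z`
    have h1 : ∀ h ∈ Box H, (∑ p ∈ T, (af r B P univ p h - 1)) ^ 2 ≤ (c * C₁) ^ 2 := by
      intro h _
      rw [← sq_abs]
      apply pow_le_pow_left₀ (abs_nonneg _)
      refine (abs_sum_le_sum_abs _ _).trans ?_
      calc ∑ p ∈ T, |af r B P univ p h - 1| ≤ ∑ p ∈ T, c := by
            apply sum_le_sum
            intro p hp
            refine (hx p hp h).trans ?_
            apply div_le_self hc.le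
            exact_mod_cast (hT p hp).1.one_le
        _ = T.card * c := by rw [sum_const, nsmul_eq_mul]
        _ ≤ C₁ * c := mul_le_mul_of_nonneg_right (hTcard.trans hzC.le) hc.le
        _ = c * C₁ := mul_comm _ _
    refine (sum_le_sum h1).trans ?_
    rw [sum_const, nsmul_eq_mul, V1_card, mul_comm]
    apply mul_le_mul_of_nonneg_right _ hv
    rw [le_div_iff₀ hy0]
    have h2 : (y : ℝ) ≤ C₁ := hyzr.trans hzC.le
    calc (c * C₁) ^ 2 * y ≤ (c * C₁) ^ 2 * C₁ := mul_le_mul_of_nonneg_left h2 (by positivity)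
      _ = c ^ 2 * C₁ ^ 3 := by ring
      _ ≤ _ := by
        apply mul_le_mul_of_nonneg_left _ (by positivity)
        have : 0 ≤ (2 : ℝ) ^ (g + 1) + 2 ^ (g + 1) * C₁ := by positivity
        linarith
  · -- large `z`
    have hHz : ∀ i, (z : ℝ) ^ 2 ≤ H i := by
      intro i
      have h1 := hH i
      have h2 : (z : ℝ) ^ 2 * C₁ ≤ H i * C₁ := by
        calc (z : ℝ) ^ 2 * C₁ ≤ (z : ℝ) ^ 2 * z := mul_le_mul_of_nonneg_left hzC (by positivity)
          _ = (z : ℝ) ^ 3 := by ring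
          _ ≤ _ := by rw [mul_comm]; exact h1
      exact le_of_mul_le_mul_right h2 (by linarith)
    set K₂ : ℝ := 2 ^ (g + 1) * c ^ 2 * C₁ * vol H / (z : ℝ) ^ 3 with hK₂
    have hK₂0 : 0 ≤ K₂ := by positivity
    have hpair : ∀ p ∈ T, ∀ p' ∈ T,
        ∑ h ∈ Box H, (af r B P univ p h - 1) * (af r B P univ p' h - 1) ≤
        (if p = p' then 2 ^ g * vol H * (c ^ 2 * (1 / (p : ℝ) ^ 2)) else 0) + K₂ := by
      intro p hp p' hp'
      have hp0 : (0 : ℝ) < p := by exact_mod_cast (hT p hp).1.pos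
      have hp'0 : (0 : ℝ) < p' := by exact_mod_cast (hT p' hp').1.pos
      have hpz : (p : ℝ) ≤ z := by exact_mod_cast (hT p hp).2.2.2.le
      have hp'z : (p' : ℝ) ≤ z := by exact_mod_cast (hT p' hp').2.2.2.le
      split_ifs with heq
      · subst heq
        have h1 := L4_box p (hT p hp).1.pos H (fun i => by
            have h2 : (p : ℝ) ≤ H i := by
              calc (p : ℝ) ≤ z := hpz
                _ ≤ (z : ℝ) ^ 2 := by nlinarith
                _ ≤ _ := hHz i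
            exact_mod_cast h2)
          (fun h => (af r B P univ p h - 1) * (af r B P univ p h - 1))
          (fun h h' hh => by simp only [af_per r B P univ p h h' hh])
          (fun h => mul_self_nonneg _)
        have h3 : mean p (fun h => (af r B P univ p h - 1) * (af r B P univ p h - 1)) ≤
            c ^ 2 * (1 / (p : ℝ) ^ 2) := by
          rw [← mean_const g p (hT p hp).1.pos (c ^ 2 * (1 / (p : ℝ) ^ 2))]
          apply L3_mean_mono
          intro h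
          have h4 := hx p hp h
          calc (af r B P univ p h - 1) * (af r B P univ p h - 1) = |af r B P univ p h - 1| ^ 2 := by
                rw [sq_abs]; ring
            _ ≤ (c / p) ^ 2 := pow_le_pow_left₀ (abs_nonneg _) h4 2
            _ = _ := by rw [div_pow]; ring
        refine h1.trans ?_
        have h5 : 2 ^ g * vol H * mean p (fun h => (af r B P univ p h - 1) *
            (af r B P univ p h - 1)) ≤ 2 ^ g * vol H * (c ^ 2 * (1 / (p : ℝ) ^ 2)) :=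
          mul_le_mul_of_nonneg_left h3 (by positivity)
        linarith
      · rw [zero_add]
        set q := p * p' with hq
        have hq0 : 0 < q := Nat.mul_pos (hT p hp).1.pos (hT p' hp').1.pos
        have hqr : (q : ℝ) = p * p' := by rw [hq]; push_cast; ring
        have hqr0 : (0 : ℝ) < q := by exact_mod_cast hq0
        have hcop : Nat.Coprime p p' :=
          (Nat.coprime_primes (hT p hp).1 (hT p' hp').1).mpr heq
        have hFper : Per q (fun h => (af r B P univ p h - 1) * (af r B P univ p' h - 1)) := by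
          intro h h' hh
          have h1 := hper p h h' fun i => (hh i).of_dvd (Dvd.intro _ rfl)
          have h2 := hper p' h h' fun i => (hh i).of_dvd (Dvd.intro_left _ rfl)
          simp only at h1 h2
          simp only [h1, h2]
        have hm : mean q (fun h => (af r B P univ p h - 1) * (af r B P univ p' h - 1)) = 0 := by
          rw [hq, mean_mul p p' hcop (hT p hp).1.pos (hT p' hp').1.pos
            (fun h => af r B P univ p h - 1) (fun h => af r B P univ p' h - 1) (hper p) (hper p'),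
            hmean p hp, zero_mul]
        have hM : ∀ h, |(af r B P univ p h - 1) * (af r B P univ p' h - 1)| ≤ c ^ 2 / q := by
          intro h
          rw [abs_mul]
          calc _ ≤ c / p * (c / p') := mul_le_mul (hx p hp h) (hx p' hp' h) (abs_nonneg _)
                (by positivity)
            _ = _ := by rw [hqr]; field_simp
        have h1 := box_signed q hq0 H _ hFper (c ^ 2 / q) hM
        rw [hm, mul_zero, zero_add] at h1
        have hz3 : (0 : ℝ) < (z : ℝ) ^ 3 := by positivity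
        have h2 := box_diff H q (q * C₁ / (z : ℝ) ^ 3) hqr0.le (by positivity) (by
          rw [div_le_one hz3, hqr]
          calc (p : ℝ) * p' * C₁ ≤ z * z * z := by
                apply mul_le_mul _ hzC (by linarith) (by positivity)
                exact mul_le_mul hpz hp'z hp'0.le hz0.le
            _ = _ := by ring) (fun i => by
          rw [div_mul_eq_mul_div, le_div_iff₀ hz3, mul_assoc]
          exact mul_le_mul_of_nonneg_left (hH i) hqr0.le)
        refine h1.trans ?_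
        calc 2 * (c ^ 2 / q) * ((∏ i, ((H i : ℝ) + q)) - vol H)
            ≤ 2 * (c ^ 2 / q) * ((1 + 2 ^ g * (q * C₁ / (z : ℝ) ^ 3)) * vol H - vol H) := by
              apply mul_le_mul_of_nonneg_left _ (by positivity)
              linarith
          _ = K₂ := by
              rw [hK₂, pow_succ (2 : ℝ) g]
              field_simp
              ring
    have hexp : ∑ h ∈ Box H, (∑ p ∈ T, (af r B P univ p h - 1)) ^ 2 =
        ∑ p ∈ T, ∑ p' ∈ T, ∑ h ∈ Box H, (af r B P univ p h - 1) * (af r B P univ p' h - 1) := by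
      simp_rw [sq, sum_mul_sum]
      rw [sum_comm]
      refine sum_congr rfl fun p _ => ?_
      rw [sum_comm]
    rw [hexp]
    refine (sum_le_sum fun p hp => sum_le_sum fun p' hp' => hpair p hp p' hp').trans ?_
    have h1 : ∀ p ∈ T, ∑ p' ∈ T, ((if p = p' then 2 ^ g * vol H * (c ^ 2 * (1 / (p : ℝ) ^ 2)) else 0)
        + K₂) = 2 ^ g * vol H * (c ^ 2 * (1 / (p : ℝ) ^ 2)) + T.card * K₂ := by
      intro p hp
      rw [sum_add_distrib, sum_ite_eq, if_pos hp, sum_const, nsmul_eq_mul]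
    rw [sum_congr rfl h1, sum_add_distrib, sum_const, nsmul_eq_mul, ← mul_sum, ← mul_sum]
    have h2 := L3_sum_sq T y hy fun p hp => (hT p hp).2.2.1
    have h3 : (T.card : ℝ) * (T.card * K₂) ≤ 2 ^ (g + 1) * c ^ 2 * C₁ * vol H / y := by
      calc (T.card : ℝ) * (T.card * K₂) ≤ z * (z * K₂) := by
            apply mul_le_mul hTcard _ (by positivity) hz0.le
            exact mul_le_mul_of_nonneg_right hTcard hK₂0
        _ = 2 ^ (g + 1) * c ^ 2 * C₁ * vol H / z := by rw [hK₂]; field_simp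
        _ ≤ _ := by
            apply div_le_div_of_nonneg_left (by positivity) hy0 hyzr
    have h4 : 2 ^ g * vol H * (c ^ 2 * ∑ p ∈ T, 1 / (p : ℝ) ^ 2) ≤
        2 ^ g * vol H * (c ^ 2 * (2 / y)) := by
      apply mul_le_mul_of_nonneg_left _ (by positivity)
      exact mul_le_mul_of_nonneg_left h2 (by positivity)
    refine (add_le_add h4 h3).trans ?_
    have h5 : 2 ^ g * vol H * (c ^ 2 * (2 / y)) + 2 ^ (g + 1) * c ^ 2 * C₁ * vol H / y =
        c ^ 2 * (2 ^ (g + 1) + 2 ^ (g + 1) * C₁) / y * vol H := by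
      rw [pow_succ]; ring
    rw [h5]
    apply mul_le_mul_of_nonneg_right _ hv
    apply div_le_div_of_nonneg_right _ hy0.le
    apply mul_le_mul_of_nonneg_left _ (by positivity)
    have : 0 ≤ C₁ ^ 3 := by positivity
    linarith

end Pool.Agent.Lib.H59X
end

-- from Lib.H59X.V3
section

/-!
# Chunk V3: the mean of the truncated singular series over a box
-/

open Finset Polynomial

namespace Pool.Agent.Lib.H59X

open Pool.Agent.Lib.H59 (argSet argCount Admissible primeCount omegaN seriesTrunc rootCount)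
open Pool.Agent.Lib.H68T (lp)
open Pool.Agent.Lib.H33B (Lq Lw PW SieveWt)

theorem V3_lam (S : ℕ) : ∑ s ∈ range S, (1 : ℝ) / (((s : ℝ) + 1) * (s + 2)) ≤ 1 := by
  have h : ∀ S : ℕ, ∑ s ∈ range S, (1 : ℝ) / (((s : ℝ) + 1) * (s + 2)) = 1 - 1 / (S + 1) := by
    intro S
    induction S with
    | zero => simp
    | succ n ih =>
      rw [sum_range_succ, ih]
      push_cast
      field_simp
      ring
  rw [h]
  have : (0 : ℝ) < 1 / ((S : ℝ) + 1) := by positivity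
  linarith

theorem V3_loglog {p s : ℕ} (hp : 2 ≤ p) (h : Nat.log 2 (Nat.log 2 p) = s) :
    2 ^ (2 ^ s) ≤ p ∧ p < (2 ^ (2 ^ s)) ^ 2 := by
  have h1 : Nat.log 2 p ≠ 0 := (Nat.log_pos (by norm_num) hp).ne'
  have h2 : 2 ^ s ≤ Nat.log 2 p := by
    rw [← h]; exact Nat.pow_log_le_self 2 h1
  have h3 : Nat.log 2 p < 2 ^ (s + 1) := by
    rw [← h]; exact Nat.lt_pow_succ_log_self (by norm_num) _
  constructor
  · exact (Nat.pow_le_pow_right (by norm_num) h2).trans (Nat.pow_log_le_self 2 (by omega))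
  · rw [← pow_mul, ← pow_succ]
    exact Nat.lt_pow_of_log_lt (by norm_num) h3

theorem V3_exp {t L C : ℝ} (hL : 0 < L) (ht : t ≤ C) :
    Real.exp (L * t) ≤ Real.exp 1 + Real.exp (C * L) * (L * t) ^ 2 := by
  rcases le_or_gt (L * t) 1 with h | h
  · have h1 := Real.exp_le_exp.mpr h
    have h2 : 0 ≤ Real.exp (C * L) * (L * t) ^ 2 := by positivity
    linarith
  · have h1 : L * t ≤ C * L := by
      rw [mul_comm C L]; exact mul_le_mul_of_nonneg_left ht hL.le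
    have h2 := Real.exp_le_exp.mpr h1
    have h3 : 1 ≤ (L * t) ^ 2 := by nlinarith
    have h4 : Real.exp (C * L) * 1 ≤ Real.exp (C * L) * (L * t) ^ 2 :=
      mul_le_mul_of_nonneg_left h3 (Real.exp_pos _).le
    have h5 := Real.exp_pos 1
    linarith

/-- Proof. `ssz_eq`. `x_p = af r B P univ p - 1`. The factors with `p ≤ A` are at most `2^(g+1)` (`af_le`), at most `A` of them, and
`∏_{A < p < z} (1 + x_p) ≤ exp(∑_{A < p < z} x_p) = exp(∑_{s < S} T_s)`, `T_s` the sum of the `x_p` with `A < p < z`, `y_s ≤ p < y_s²`, `y_s = 2^(2^s)` (`y_s² = y_{s+1}`,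
`2^(2^S) ≥ z`). By `af_close`, `sum_range`: `|T_s| ≤ C₀`. By `jensen` it suffices to bound, with `Λ = (s+1)(s+2)`, `∑_{h ∈ Box} exp(Λ T_s) ≤ C₃ vol H` uniformly in `s`
(`∑ 1/Λ ≤ 1`). `exp(Λ T_s) ≤ e + exp(C₀ Λ) (Λ T_s)²` (`Λ |T_s| ≤ 1` or `(Λ T_s)² > 1`). If `y_s > z` then `T_s = 0`; otherwise `sec` (`y = y_s ≤ z`):
`∑_h T_s² ≤ C vol H/y_s`, and `exp(C₀ Λ) Λ² C/y_s` is bounded by `numeric`. (`#Box H = vol H`.) -/
theorem series_avg (g A : ℕ) (C₁ : ℝ) (hC₁ : 1 ≤ C₁) : ∃ C : ℝ, 0 < C ∧ ∀ P : Fin g → ℤ[X], Pol A P →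
    ∀ (r : ℕ) (B : ℤ[X]), Bas A r B → ∀ (z : ℕ) (H : Fin g → ℕ), (∀ i, (z : ℝ) ^ 3 ≤ C₁ * H i) →
    ∑ h ∈ Box H, ssz (r + g) (QQ B P h) z ≤ C * vol H := by
  obtain ⟨c, hc, hcl⟩ := af_close g A
  obtain ⟨Cr, hCr, hsr⟩ := sum_range
  obtain ⟨Cs, hCs, hsec⟩ := sec g A C₁ hC₁
  obtain ⟨Cn, hCn, hnum⟩ := numeric (c * Cr)
  refine ⟨(2 ^ (g + 1)) ^ (A + 1) * (1 + (Real.exp 1 + Cn * Cs)), by positivity, ?_⟩
  intro P hP r B hB z H hH
  have hv := V1_vol_nonneg H
  set PA := (Nat.primesBelow z).filter (fun p => A < p) with hPA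
  set x : ℕ → (Fin g → ℕ) → ℝ := fun p h => af r B P univ p h - 1 with hx
  set T : ℕ → Finset ℕ := fun s => PA.filter (fun p => Nat.log 2 (Nat.log 2 p) = s) with hT
  set t : ℕ → (Fin g → ℕ) → ℝ := fun s h => ∑ p ∈ T s, x p h with ht
  have hTmem : ∀ s, ∀ p ∈ T s, p.Prime ∧ A < p ∧ 2 ^ (2 ^ s) ≤ p ∧ p < z ∧ p < (2 ^ (2 ^ s)) ^ 2 := by
    intro s p hp
    simp only [hT, hPA, mem_filter, Nat.mem_primesBelow] at hp
    have h1 := V3_loglog hp.1.1.2.two_le hp.2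
    exact ⟨hp.1.1.2, hp.1.2, h1.1, hp.1.1.1, h1.2⟩
  -- pointwise bound
  have hpt : ∀ h, ssz (r + g) (QQ B P h) z ≤ (2 ^ (g + 1)) ^ (A + 1) *
      (1 + ∑ s ∈ range z, (1 / (((s : ℝ) + 1) * (s + 2))) *
        Real.exp (((s : ℝ) + 1) * (s + 2) * t s h)) := by
    intro h
    rw [ssz_eq A r B hB P z h, ← prod_filter_mul_prod_filter_not (Nat.primesBelow z) (fun p => A < p),
      mul_comm]
    apply mul_le_mul
    · calc ∏ p ∈ (Nat.primesBelow z).filter (fun p => ¬ A < p), af r B P univ p h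
          ≤ ∏ p ∈ (Nat.primesBelow z).filter (fun p => ¬ A < p), (2 : ℝ) ^ (g + 1) := by
            apply prod_le_prod
            · intro p _; exact af_nonneg r B P univ p h
            · intro p hp
              rw [mem_filter] at hp
              exact af_le r B P p (Nat.prime_of_mem_primesBelow hp.1) univ h
        _ = ((2 : ℝ) ^ (g + 1)) ^ ((Nat.primesBelow z).filter (fun p => ¬ A < p)).card := by
            rw [prod_const]
        _ ≤ _ := by
            apply pow_le_pow_right₀ (one_le_pow₀ (by norm_num))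
            have : (Nat.primesBelow z).filter (fun p => ¬ A < p) ⊆ Finset.range (A + 1) := by
              intro p hp
              rw [mem_filter] at hp
              rw [mem_range]; omega
            have := card_le_card this
            rwa [card_range] at this
    · have h1 : ∏ p ∈ PA, af r B P univ p h ≤ Real.exp (∑ p ∈ PA, x p h) := by
        rw [Real.exp_sum]
        apply prod_le_prod
        · intro p _; exact af_nonneg r B P univ p h
        · intro p _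
          have := Real.add_one_le_exp (x p h)
          simp only [hx] at this ⊢
          linarith
      have h2 : ∑ p ∈ PA, x p h = ∑ s ∈ range z, t s h := by
        simp only [ht, hT]
        rw [sum_fiberwise_of_maps_to]
        intro p hp
        rw [hPA, mem_filter, Nat.mem_primesBelow] at hp
        rw [mem_range]
        have h3 : Nat.log 2 (Nat.log 2 p) ≤ Nat.log 2 p := Nat.log_le_self _ _
        have h4 : Nat.log 2 p ≤ p := Nat.log_le_self _ _
        omega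
      rw [h2] at h1
      exact h1.trans (jensen z fun s => t s h)
    · exact prod_nonneg fun p _ => af_nonneg r B P univ p h
    · positivity
  -- the exponential moments
  have hmom : ∀ s : ℕ, ∑ h ∈ Box H, Real.exp (((s : ℝ) + 1) * (s + 2) * t s h) ≤
      (Real.exp 1 + Cn * Cs) * vol H := by
    intro s
    have hL : (0 : ℝ) < ((s : ℝ) + 1) * (s + 2) := by positivity
    have hb : ∀ h, t s h ≤ c * Cr := by
      intro h
      refine (le_abs_self _).trans ?_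
      simp only [ht]
      refine (abs_sum_le_sum_abs _ _).trans ?_
      have h1 : ∀ p ∈ T s, |x p h| ≤ c * (1 / p) := by
        intro p hp
        obtain ⟨h1, h2, -, -, -⟩ := hTmem s p hp
        have := hcl P hP r B hB p h1 h2 h
        rw [mul_one_div]
        exact this
      refine (sum_le_sum h1).trans ?_
      rw [← mul_sum]
      apply mul_le_mul_of_nonneg_left _ hc.le
      apply hsr (2 ^ (2 ^ s))
      · calc 2 = 2 ^ 1 := by norm_num
          _ ≤ 2 ^ (2 ^ s) := Nat.pow_le_pow_right (by norm_num) Nat.one_le_two_pow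
      · intro p hp
        obtain ⟨h1, -, h3, -, h5⟩ := hTmem s p hp
        exact ⟨h1, h3, h5⟩
    have h1 : ∀ h ∈ Box H, Real.exp (((s : ℝ) + 1) * (s + 2) * t s h) ≤ Real.exp 1 +
        Real.exp (c * Cr * (((s : ℝ) + 1) * (s + 2))) * (((s : ℝ) + 1) * (s + 2)) ^ 2 * t s h ^ 2 := by
      intro h _
      refine (V3_exp hL (hb h)).trans (le_of_eq ?_)
      ring
    refine (sum_le_sum h1).trans ?_
    rw [sum_add_distrib, sum_const, nsmul_eq_mul, V1_card, ← mul_sum, add_mul (Real.exp 1) (Cn * Cs)]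
    apply add_le_add (le_of_eq (mul_comm _ _))
    have h2 : ∑ h ∈ Box H, t s h ^ 2 ≤ Cs / (2 : ℝ) ^ (2 ^ s) * vol H := by
      by_cases hemp : T s = ∅
      · have h3 : ∀ h ∈ Box H, t s h ^ 2 = 0 := by
          intro h _
          simp only [ht, hemp, sum_empty]
          norm_num
        rw [sum_congr rfl h3, sum_const_zero]
        positivity
      · obtain ⟨p, hp⟩ := nonempty_iff_ne_empty.mpr hemp
        obtain ⟨-, -, h3, h4, -⟩ := hTmem s p hp
        have h5 := hsec P hP r B hB z (2 ^ (2 ^ s)) H Nat.one_le_two_pow (by omega) hH (T s)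
          (fun p hp => by
            obtain ⟨h1, h2, h3, h4, -⟩ := hTmem s p hp
            exact ⟨h1, h2, h3, h4⟩)
        push_cast at h5
        exact h5
    calc Real.exp (c * Cr * (((s : ℝ) + 1) * (s + 2))) * (((s : ℝ) + 1) * (s + 2)) ^ 2 *
          ∑ h ∈ Box H, t s h ^ 2
        ≤ Real.exp (c * Cr * (((s : ℝ) + 1) * (s + 2))) * (((s : ℝ) + 1) * (s + 2)) ^ 2 *
          (Cs / (2 : ℝ) ^ (2 ^ s) * vol H) := mul_le_mul_of_nonneg_left h2 (by positivity)
      _ = (Real.exp (c * Cr * ((s : ℝ) + 1) * (s + 2)) * (((s : ℝ) + 1) * (s + 2)) ^ 2 /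
            (2 : ℝ) ^ (2 ^ s)) * Cs * vol H := by
          rw [mul_assoc (c * Cr)]
          ring
      _ ≤ _ := by
          apply mul_le_mul_of_nonneg_right _ hv
          exact mul_le_mul_of_nonneg_right (hnum s) hCs.le
  -- conclusion
  refine (sum_le_sum fun h _ => hpt h).trans ?_
  rw [← mul_sum, mul_assoc]
  apply mul_le_mul_of_nonneg_left _ (by positivity)
  rw [sum_add_distrib, sum_const, nsmul_eq_mul, V1_card, mul_one, sum_comm,
    add_mul 1 (Real.exp 1 + Cn * Cs), one_mul]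
  apply add_le_add le_rfl
  calc ∑ s ∈ range z, ∑ h ∈ Box H, (1 / (((s : ℝ) + 1) * (s + 2))) *
        Real.exp (((s : ℝ) + 1) * (s + 2) * t s h)
      ≤ ∑ s ∈ range z, (1 / (((s : ℝ) + 1) * (s + 2))) * ((Real.exp 1 + Cn * Cs) * vol H) := by
        apply sum_le_sum
        intro s _
        rw [← mul_sum]
        exact mul_le_mul_of_nonneg_left (hmom s) (by positivity)
    _ = (∑ s ∈ range z, (1 : ℝ) / (((s : ℝ) + 1) * (s + 2))) * ((Real.exp 1 + Cn * Cs) * vol H) := by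
        rw [sum_mul]
    _ ≤ 1 * ((Real.exp 1 + Cn * Cs) * vol H) :=
        mul_le_mul_of_nonneg_right (V3_lam z) (by positivity)
    _ = _ := one_mul _

end Pool.Agent.Lib.H59X
end

-- from Lib.H59X.Z2A
section

/-!
# Chunk Z2A: the mixed model for the family with `N - G`
-/

open Finset Polynomial

namespace Pool.Agent.Lib.H59X

open Pool.Agent.Lib.H59 (argSet argCount Admissible primeCount omegaN seriesTrunc rootCount)
open Pool.Agent.Lib.H68T (lp)
open Pool.Agent.Lib.H33B (Lq Lw PW SieveWt)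

theorem z2a_qq {g : ℕ} (G : ℤ[X]) (P : Fin g → ℤ[X]) (B : ℤ[X]) (N : ℕ) (h : Fin g → ℕ) :
    QQ B (Fin.cons (-G) P : Fin (g + 1) → ℤ[X]) (Fin.cons N h) = QQ B P h * (C (N : ℤ) - G) := by
  have e : ∏ i : Fin (g + 1), fam (Fin.cons (-G) P : Fin (g + 1) → ℤ[X]) (Fin.cons N h) i =
      (C (N : ℤ) - G) * ∏ i : Fin g, fam P h i := by
    rw [Fin.prod_univ_succ]
    have e0 : fam (Fin.cons (-G) P : Fin (g + 1) → ℤ[X]) (Fin.cons N h) 0 = C (N : ℤ) - G := by
      show (Fin.cons (-G) P : Fin (g + 1) → ℤ[X]) 0 +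
        C (((Fin.cons N h : Fin (g + 1) → ℕ) 0 : ℕ) : ℤ) = _
      rw [Fin.cons_zero, Fin.cons_zero]
      ring
    rw [e0]
    rfl
  unfold QQ
  rw [e]
  ring

theorem z2a_vol {g : ℕ} (Y : ℕ) (H : Fin g → ℕ) :
    vol (Fin.cons Y H : Fin (g + 1) → ℕ) = Y * vol H := by
  unfold vol
  rw [Fin.prod_univ_succ]
  rfl

theorem z2a_pol {g : ℕ} (A : ℕ) (G : ℤ[X]) (hG : 1 ≤ G.natDegree) (hGA : G.natDegree ≤ A)
    (hGl : G.leadingCoeff.natAbs ≤ A) (P : Fin g → ℤ[X]) (hP : Pol A P) :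
    Pol A (Fin.cons (-G) P : Fin (g + 1) → ℤ[X]) where
  deg i := by
    refine Fin.cases ?_ (fun i => ?_) i
    · rw [Fin.cons_zero, natDegree_neg]
      exact hG
    · rw [Fin.cons_succ]
      exact hP.deg i
  degA i := by
    refine Fin.cases ?_ (fun i => ?_) i
    · rw [Fin.cons_zero, natDegree_neg]
      exact hGA
    · rw [Fin.cons_succ]
      exact hP.degA i
  lc i := by
    refine Fin.cases ?_ (fun i => ?_) i
    · rw [Fin.cons_zero, leadingCoeff_neg, Int.natAbs_neg]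
      exact hGl
    · rw [Fin.cons_succ]
      exact hP.lc i

/-- The mixed model (levels `u` and `w`) against the singular series, in the mean over `N` and the shifts.

Proof. `mix_box` for `g + 1`, the family `Fin.cons (-G) P`, the levels `Fin.cons w u`, the box `Fin.cons Y H`; `box_succ`. (`mixv r B (Fin.cons (-G) P) (Fin.cons w u) U (Fin.cons N h)` has the summands
`bL · Lw w (-G(v) + N) · ∏ Lw (u i)(P_i(v) + h_i)`, and `QQ B (Fin.cons (-G) P) (Fin.cons N h) = B ((-G + N) ∏ (P_i + h_i))`, `r + (g + 1) = r + g + 1`.) -/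
theorem mix_box_N {g : ℕ} (A : ℕ) (G : ℤ[X]) (hG : 1 ≤ G.natDegree) (hGA : G.natDegree ≤ A)
    (hGl : G.leadingCoeff.natAbs ≤ A) (P : Fin g → ℤ[X]) (hP : Pol A P) :
    ∃ (K : ℝ) (W₀ : ℕ), 0 < K ∧ ∀ (W U z w : ℕ) (u : Fin g → ℕ), W₀ ≤ W → W ≤ w → w ≤ U →
    (∀ i, W ≤ u i ∧ u i ≤ U) → W ≤ z → ∃ H₀ : ℕ, ∀ (Y : ℕ) (H : Fin g → ℕ), H₀ ≤ Y →
    (∀ i, H₀ ≤ H i) → ∀ (r : ℕ) (B : ℤ[X]), Bas A r B →
    ∑ N ∈ Icc 1 Y, ∑ h ∈ Box H,
      |mixv r B (Fin.cons (-G) P : Fin (g + 1) → ℤ[X]) (Fin.cons w u : Fin (g + 1) → ℕ) U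
          (Fin.cons N h) - ssz (r + g + 1) (QQ B P h * (C (N : ℤ) - G)) z| ≤
        K / Real.sqrt W * Y * vol H := by
  obtain ⟨K, W₀, hK, hmix⟩ := mix_box (g + 1) A
  refine ⟨K, W₀, hK, fun W U z w u hW hWw hwU hu hWz => ?_⟩
  obtain ⟨H₀, hH₀⟩ := hmix W U z (Fin.cons w u : Fin (g + 1) → ℕ) hW (fun i => by
    refine Fin.cases ?_ (fun i => ?_) i
    · rw [Fin.cons_zero]
      exact ⟨hWw, hwU⟩
    · rw [Fin.cons_succ]
      exact hu i) (hWw.trans hwU) hWz
  refine ⟨H₀, fun Y H hY hH r B hB => ?_⟩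
  have h1 := hH₀ (Fin.cons Y H : Fin (g + 1) → ℕ) (fun i => by
    refine Fin.cases ?_ (fun i => ?_) i
    · rw [Fin.cons_zero]
      exact hY
    · rw [Fin.cons_succ]
      exact hH i) (Fin.cons (-G) P : Fin (g + 1) → ℤ[X]) (z2a_pol A G hG hGA hGl P hP) r B hB
  rw [box_succ, z2a_vol, ← mul_assoc] at h1
  refine le_trans (le_of_eq ?_) h1
  refine Finset.sum_congr rfl fun N _ => ?_
  refine Finset.sum_congr rfl fun h _ => ?_
  rw [z2a_qq]
  rfl

theorem z2a_mono (G : ℤ[X]) (Y1 : ℕ)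
    (h1 : ∀ Y : ℕ, Y1 ≤ Y → ∀ n : ℕ, n ∈ argSet G Y ↔ 1 ≤ n ∧ n ≤ argCount G Y) :
    ∀ N N' : ℕ, Y1 ≤ N → N ≤ N' → argCount G N ≤ argCount G N' := by
  intro N N' hN hNN'
  rcases Nat.eq_zero_or_pos (argCount G N) with h0 | h0
  · omega
  · have h3 := (h1 N hN (argCount G N)).2 ⟨h0, le_refl _⟩
    have h4 : argCount G N ∈ argSet G N' := by
      refine ⟨h3.1, ?_⟩
      have h5 := h3.2
      have : (N : ℤ) ≤ N' := by exact_mod_cast hNN'
      linarith
    exact ((h1 N' (hN.trans hNN') _).1 h4).2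

/-- Sums of the mixed model.

Proof. `per_sum` for the family `Fin.cons (-G) P` with the levels `Fin.cons w u` and the shifts `Fin.cons N h` (`x = argCount G N ≤ argCount G Y`, and for `N ≥ N₀`:
`{n ≤ argCount G Y : G(n) < N} = [1, argCount G N]`, `H57M.argSet_eq`). -/
theorem per_sum_N {g : ℕ} (G : ℤ[X]) (hG : 1 ≤ G.natDegree) (hlc : 0 < G.leadingCoeff)
    (P : Fin g → ℤ[X]) : ∃ N₀ : ℕ, ∀ (r : ℕ) (B : ℤ[X]) (u : Fin g → ℕ) (w U Y : ℕ) (η : ℝ),
    (∀ i, u i ≤ U) → w ≤ U → BEq r B U (argCount G Y) η → ∀ N : ℕ, N₀ ≤ N → N ≤ Y →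
    ∀ h : Fin g → ℕ,
    |∑ n ∈ (Icc 1 (argCount G Y)).filter (fun n : ℕ => G.eval (n : ℤ) < N),
      bw r B n * (∏ i, Lw (u i) ((P i).eval (n : ℤ) + h i)) * Lw w ((N : ℤ) - G.eval (n : ℤ)) -
      argCount G N * mixv r B (Fin.cons (-G) P : Fin (g + 1) → ℤ[X])
        (Fin.cons w u : Fin (g + 1) → ℕ) U (Fin.cons N h)| ≤
      (PW U : ℝ) ^ (g + 2) * (η * argCount G Y) := by
  obtain ⟨N₀, hN₀⟩ := Pool.Agent.Lib.H57M.argSet_eq G hG hlc
  refine ⟨N₀, fun r B u w U Y η hu hw hη N hN hNY h => ?_⟩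
  have hle := z2a_mono G N₀ hN₀ N Y hN hNY
  have h1 := per_sum r B (Fin.cons (-G) P : Fin (g + 1) → ℤ[X]) (Fin.cons w u : Fin (g + 1) → ℕ)
    U (argCount G Y) η (fun i => by
      refine Fin.cases ?_ (fun i => ?_) i
      · rw [Fin.cons_zero]
        exact hw
      · rw [Fin.cons_succ]
        exact hu i) hη (argCount G N) hle (Fin.cons N h : Fin (g + 1) → ℕ)
  have hset : (Icc 1 (argCount G Y)).filter (fun n : ℕ => G.eval (n : ℤ) < N) =
      Icc 1 (argCount G N) := by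
    ext n
    rw [Finset.mem_filter, Finset.mem_Icc, Finset.mem_Icc, ← hN₀ N hN n]
    constructor
    · rintro ⟨⟨h2, -⟩, h3⟩
      exact ⟨h2, by linarith⟩
    · intro h2
      have h3 := (hN₀ N hN n).1 h2
      exact ⟨⟨h3.1, h3.2.trans hle⟩, by have := h2.2; linarith⟩
  rw [hset]
  refine le_trans (le_of_eq ?_) h1
  congr 2
  refine Finset.sum_congr rfl fun n _ => ?_
  rw [Fin.prod_univ_succ]
  have e0 : Lw ((Fin.cons w u : Fin (g + 1) → ℕ) 0)
      (((Fin.cons (-G) P : Fin (g + 1) → ℤ[X]) 0).eval (n : ℤ) +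
        (((Fin.cons N h : Fin (g + 1) → ℕ) 0 : ℕ) : ℤ)) = Lw w ((N : ℤ) - G.eval (n : ℤ)) := by
    rw [Fin.cons_zero, Fin.cons_zero, Fin.cons_zero, eval_neg]
    congr 1
    ring
  rw [e0]
  simp only [Fin.cons_succ]
  ring

end Pool.Agent.Lib.H59X
end

-- from Lib.H59X.T1
section

/-!
# Chunk T1: one replacement
-/

open Finset Polynomial

namespace Pool.Agent.Lib.H59X

open Pool.Agent.Lib.H59 (argSet argCount Admissible primeCount omegaN seriesTrunc rootCount)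
open Pool.Agent.Lib.H68T (lp)
open Pool.Agent.Lib.H33B (Lq Lw PW SieveWt)

/-- The mean over the box of the masses of the weights.

Proof. `series_avg` with `z = zz M X`, `z³ ≤ X^(3/M) ≤ X ≤ X^(deg P_i) ≤ C₁ H_i` (`X ≥ 1`, `M ≥ 3`); `#Box H = vol H`. -/
theorem mass_avg {g : ℕ} (A : ℕ) (C₁ : ℝ) (hC₁ : 1 ≤ C₁) : ∃ C : ℝ, 0 < C ∧
    ∀ P : Fin g → ℤ[X], Pol A P → ∀ M : ℕ, 3 ≤ M → ∀ X : ℕ, 1 ≤ X → ∀ H : Fin g → ℕ,
    Fit C₁ X P H → ∀ (r : ℕ) (B : ℤ[X]), Bas A r B →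
    ∑ h ∈ Box H, (1 + ssz (r + g) (QQ B P h) (zz M X)) ≤ C * vol H := by
  obtain ⟨C, hC, h⟩ := series_avg g A C₁ hC₁
  refine ⟨1 + C, by positivity, ?_⟩
  intro P hP M hM X hX H hF r B hB
  have hX1 : (1 : ℝ) ≤ X := by exact_mod_cast hX
  have hz : (zz M X : ℝ) ^ 3 ≤ X := by
    have h1 : (zz M X : ℝ) ≤ (X : ℝ) ^ ((1 : ℝ) / M) := Nat.floor_le (by positivity)
    calc (zz M X : ℝ) ^ 3 ≤ ((X : ℝ) ^ ((1 : ℝ) / M)) ^ 3 := pow_le_pow_left₀ (Nat.cast_nonneg _) h1 3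
      _ = (X : ℝ) ^ (((1 : ℝ) / M) * 3) := by
          rw [← Real.rpow_natCast ((X : ℝ) ^ ((1 : ℝ) / M)) 3, ← Real.rpow_mul (by linarith)]
          norm_num
      _ ≤ (X : ℝ) ^ (1 : ℝ) := by
          apply Real.rpow_le_rpow_of_exponent_le hX1
          have : (3 : ℝ) ≤ M := by exact_mod_cast hM
          rw [div_mul_eq_mul_div, one_mul, div_le_one (by linarith)]
          exact this
      _ = X := Real.rpow_one _
  have h1 := h P hP r B hB (zz M X) H (fun i => by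
    refine hz.trans (le_trans ?_ (hF.lo i))
    have := hP.deg i
    exact le_self_pow₀ hX1 (by omega))
  rw [sum_add_distrib, sum_const, nsmul_eq_mul, V1_card, mul_one, add_mul, one_mul]
  exact add_le_add le_rfl h1

/-- Replace the first prime by the model, in the mean over the shifts.

Proof. Let `P' i = P i.succ`. `wt P' …` gives `D, M, C, A₀`; `engine_shift (P 0) … D C C₁` gives `K`, then `X₀` from `wt` for this `K`; `mass_avg` for `P'` gives `C₂`. Use
`ε' = ε/(A₀ C₂)` in `engine_shift` (`w₀`). By `box_succ` the sum is `∑_{h'} ∑_{a ≤ H_0}`, `h = Fin.cons a h'` (`Fin.cons_zero`, `Fin.cons_succ`); for fixed `h'` the inner sum is that of `engine_shift`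
(with the weight `f(n) = ψ(n) bw(n) ∏ lp(P'_i(n) + h'_i)`, `S = A₀ X (1 + ssz)`), hence `≤ ε' H_0 S(h')`; summing over `h'`: `≤ ε' H_0 A₀ X C₂ vol H'= ε X vol H`
(`Fin.prod_univ_succ`). -/
theorem step {g : ℕ} (P : Fin (g + 1) → ℤ[X]) (A : ℕ) (hA : 1 ≤ A) (hP : Pol A P)
    (hl : ∀ i, 0 < (P i).leadingCoeff) (C₁ : ℝ) (hC₁ : 1 ≤ C₁) (ε : ℝ) (hε : 0 < ε) :
    ∃ w₀ : ℕ, ∀ w : ℕ, w₀ ≤ w → ∃ X₀ : ℕ, ∀ X : ℕ, X₀ ≤ X → ∀ H : Fin (g + 1) → ℕ, Fit C₁ X P H →
    ∀ (r : ℕ) (B : ℤ[X]), Bas A r B → |(B.coeff 0 : ℝ)| ≤ (X : ℝ) ^ 2 →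
    ∀ ψ : ℕ → ℝ, (∀ n, 0 ≤ ψ n ∧ ψ n ≤ 1) →
    ∑ h ∈ Box H, |∑ n ∈ Icc 1 X, ψ n * bw r B n *
      (lp ((P 0).eval (n : ℤ) + h 0) - Lw w ((P 0).eval (n : ℤ) + h 0)) *
        ∏ i : Fin g, lp ((P i.succ).eval (n : ℤ) + h i.succ)| ≤ ε * X * vol H := by
  set P' : Fin g → ℤ[X] := fun i => P i.succ with hP'
  have hPol' : Pol A P' := ⟨fun i => hP.deg i.succ, fun i => hP.degA i.succ, fun i => hP.lc i.succ⟩
  obtain ⟨D, M, C, A₀, hM, hC, hA₀, hwt⟩ := wt P' A hA hPol' (fun i => hl i.succ) C₁ hC₁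
  obtain ⟨K, hK, heng⟩ := engine_shift (P 0) (hP.deg 0) (hl 0) D C C₁ hC hC₁
  obtain ⟨X₁, hX₁⟩ := hwt K
  obtain ⟨C₂, hC₂, hmass⟩ := mass_avg (g := g) A C₁ hC₁
  obtain ⟨w₀, hw₀⟩ := heng (ε / (A₀ * C₂)) (by positivity)
  refine ⟨w₀, fun w hw => ?_⟩
  obtain ⟨X₂, hX₂⟩ := hw₀ w hw
  refine ⟨max (max X₁ X₂) 1, ?_⟩
  intro X hX H hF r B hB hBc ψ hψ
  have hX1 : X₁ ≤ X := ((le_max_left _ _).trans (le_max_left _ _)).trans hX
  have hX2 : X₂ ≤ X := ((le_max_right _ _).trans (le_max_left _ _)).trans hX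
  have hX3 : 1 ≤ X := (le_max_right _ _).trans hX
  set H' : Fin g → ℕ := fun i => H i.succ with hH'
  have hF' : Fit C₁ X P' H' := ⟨fun i => hF.lo i.succ, fun i => hF.hi i.succ⟩
  rw [box_succ, sum_comm]
  simp only [Fin.cons_zero, Fin.cons_succ]
  have h1 : ∀ h ∈ Box H', ∑ a ∈ Icc 1 (H 0), |∑ n ∈ Icc 1 X, ψ n * bw r B n *
      (lp ((P 0).eval (n : ℤ) + a) - Lw w ((P 0).eval (n : ℤ) + a)) *
        ∏ i : Fin g, lp ((P i.succ).eval (n : ℤ) + h i)| ≤
      ε / (A₀ * C₂) * H 0 * (A₀ * X * (1 + ssz (r + g) (QQ B P' h) (zz M X))) := by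
    intro h hh
    have h2 := hX₂ X hX2 (H 0) (hF.lo 0) (hF.hi 0) _ _ (hX₁ X hX1 H' hF' h hh r B hB hBc ψ hψ)
    refine le_trans (le_of_eq ?_) h2
    refine sum_congr rfl fun a _ => ?_
    congr 1
    refine sum_congr rfl fun n _ => ?_
    simp only [hP']
    ring
  refine (sum_le_sum h1).trans ?_
  rw [← mul_sum, ← mul_sum]
  have h2 := hmass P' hPol' M hM X hX3 H' hF' r B hB
  have h3 : vol H = H 0 * vol H' := by
    unfold vol
    rw [Fin.prod_univ_succ]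
  have hX0 : (0 : ℝ) ≤ X := Nat.cast_nonneg _
  have hH0 : (0 : ℝ) ≤ H 0 := Nat.cast_nonneg _
  calc ε / (A₀ * C₂) * H 0 * (A₀ * X * ∑ h ∈ Box H', (1 + ssz (r + g) (QQ B P' h) (zz M X)))
      ≤ ε / (A₀ * C₂) * H 0 * (A₀ * X * (C₂ * vol H')) := by
        apply mul_le_mul_of_nonneg_left _ (by positivity)
        exact mul_le_mul_of_nonneg_left h2 (by positivity)
    _ = ε * X * vol H := by
        rw [h3]; field_simp

end Pool.Agent.Lib.H59X
end

-- from Lib.H59X.T2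
section

/-!
# Chunk T2: all replacements
-/

open Finset Polynomial

namespace Pool.Agent.Lib.H59X

open Pool.Agent.Lib.H59 (argSet argCount Admissible primeCount omegaN seriesTrunc rootCount)
open Pool.Agent.Lib.H68T (lp)
open Pool.Agent.Lib.H33B (Lq Lw PW SieveWt)

/-- Replace all primes `P_i(n) + h_i` by models of the levels `u_i ≥ W`, one after the other, in the mean over the shifts.

Proof. Induction on `g`. `g = 0`: the difference is `0` (`u` arbitrary). `g + 1`: `step` with `ε/2` gives `w₀`; take `u 0 = max w₀ W`. `Lw (u 0) m` is between `0` and `M₀ = PW (u 0) ≥ 1`. The induction hypothesis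
for `P' i = P i.succ` and `ε/(2 M₀)` gives `u'`; `u = Fin.cons (u 0) u'`. With `l_i = lp(P_i(n) + h_i)`, `L_i = Lw (u i)(P_i(n) + h_i)`:
`∏ l - ∏ L = (l_0 - L_0) ∏_{i ≥ 1} l_i + L_0 (∏_{i ≥ 1} l_i - ∏_{i ≥ 1} L_i)` (`Fin.prod_univ_succ`). The first part is `step`. For the second part (`box_succ`) fix `h_0 = a` and apply
the induction hypothesis with `ψ'(n) = ψ(n) L_0/M₀ ∈ [0, 1]`: at most `H_0 M₀ (ε/(2 M₀)) X vol H' = (ε/2) X vol H`. -/
theorem replace {g : ℕ} (P : Fin g → ℤ[X]) (A : ℕ) (hA : 1 ≤ A) (hP : Pol A P)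
    (hl : ∀ i, 0 < (P i).leadingCoeff) (C₁ : ℝ) (hC₁ : 1 ≤ C₁) (ε : ℝ) (hε : 0 < ε) (W : ℕ) :
    ∃ u : Fin g → ℕ, (∀ i, W ≤ u i) ∧ ∃ X₀ : ℕ, ∀ X : ℕ, X₀ ≤ X → ∀ H : Fin g → ℕ, Fit C₁ X P H →
    ∀ (r : ℕ) (B : ℤ[X]), Bas A r B → |(B.coeff 0 : ℝ)| ≤ (X : ℝ) ^ 2 →
    ∀ ψ : ℕ → ℝ, (∀ n, 0 ≤ ψ n ∧ ψ n ≤ 1) →
    ∑ h ∈ Box H, |∑ n ∈ Icc 1 X, ψ n * bw r B n *
      (∏ i, lp ((P i).eval (n : ℤ) + h i) - ∏ i, Lw (u i) ((P i).eval (n : ℤ) + h i))| ≤
      ε * X * vol H := by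
  induction g generalizing ε with
  | zero =>
    refine ⟨fun i => i.elim0, fun i => i.elim0, 0, ?_⟩
    intro X _ H _ r B _ _ ψ _
    have h1 : ∀ h ∈ Box H, |∑ n ∈ Icc 1 X, ψ n * bw r B n *
        (∏ i, lp ((P i).eval (n : ℤ) + h i) -
          ∏ i, Lw ((fun i : Fin 0 => (i.elim0 : ℕ)) i) ((P i).eval (n : ℤ) + h i))| = 0 := by
      intro h _
      rw [abs_eq_zero]
      apply sum_eq_zero
      intro n _
      simp
    rw [sum_congr rfl h1, sum_const_zero]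
    have := V1_vol_nonneg H
    positivity
  | succ g ih =>
    obtain ⟨w₀, hw₀⟩ := step P A hA hP hl C₁ hC₁ (ε / 2) (by positivity)
    set u0 : ℕ := max w₀ W with hu0
    obtain ⟨X₁, hX₁⟩ := hw₀ u0 (le_max_left _ _)
    set P' : Fin g → ℤ[X] := fun i => P i.succ with hP'
    have hPol' : Pol A P' := ⟨fun i => hP.deg i.succ, fun i => hP.degA i.succ, fun i => hP.lc i.succ⟩
    have hM0 : (0 : ℝ) < PW u0 := by exact_mod_cast L3_PW_pos u0
    obtain ⟨u', hu', X₂, hX₂⟩ := ih P' hPol' (fun i => hl i.succ) (ε / (2 * PW u0)) (by positivity)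
    refine ⟨Fin.cons u0 u', ?_, max X₁ X₂, ?_⟩
    · intro i
      refine Fin.cases ?_ (fun j => ?_) i
      · rw [Fin.cons_zero]; exact le_max_right _ _
      · rw [Fin.cons_succ]; exact hu' j
    intro X hX H hF r B hB hBc ψ hψ
    have hXa : X₁ ≤ X := (le_max_left _ _).trans hX
    have hXb : X₂ ≤ X := (le_max_right _ _).trans hX
    set H' : Fin g → ℕ := fun i => H i.succ with hH'
    have hF' : Fit C₁ X P' H' := ⟨fun i => hF.lo i.succ, fun i => hF.hi i.succ⟩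
    have h1 : ∀ h ∈ Box H, |∑ n ∈ Icc 1 X, ψ n * bw r B n *
        (∏ i, lp ((P i).eval (n : ℤ) + h i) -
          ∏ i, Lw ((Fin.cons u0 u' : Fin (g + 1) → ℕ) i) ((P i).eval (n : ℤ) + h i))| ≤
        |∑ n ∈ Icc 1 X, ψ n * bw r B n *
          (lp ((P 0).eval (n : ℤ) + h 0) - Lw u0 ((P 0).eval (n : ℤ) + h 0)) *
            ∏ i : Fin g, lp ((P i.succ).eval (n : ℤ) + h i.succ)| +
        |∑ n ∈ Icc 1 X, ψ n * bw r B n * Lw u0 ((P 0).eval (n : ℤ) + h 0) *
          (∏ i : Fin g, lp ((P i.succ).eval (n : ℤ) + h i.succ) -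
            ∏ i : Fin g, Lw (u' i) ((P i.succ).eval (n : ℤ) + h i.succ))| := by
      intro h _
      refine le_trans (le_of_eq ?_) (abs_add_le _ _)
      rw [← sum_add_distrib]
      congr 1
      refine sum_congr rfl fun n _ => ?_
      rw [Fin.prod_univ_succ, Fin.prod_univ_succ]
      simp only [Fin.cons_zero, Fin.cons_succ]
      ring
    refine (sum_le_sum h1).trans ?_
    rw [sum_add_distrib]
    have h2 := hX₁ X hXa H hF r B hB hBc ψ hψ
    have h3 : ∑ h ∈ Box H, |∑ n ∈ Icc 1 X, ψ n * bw r B n * Lw u0 ((P 0).eval (n : ℤ) + h 0) *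
          (∏ i : Fin g, lp ((P i.succ).eval (n : ℤ) + h i.succ) -
            ∏ i : Fin g, Lw (u' i) ((P i.succ).eval (n : ℤ) + h i.succ))| ≤ ε / 2 * X * vol H := by
      rw [box_succ]
      simp only [Fin.cons_zero, Fin.cons_succ]
      have h4 : ∀ a ∈ Icc 1 (H 0), ∑ h ∈ Box H', |∑ n ∈ Icc 1 X, ψ n * bw r B n *
          Lw u0 ((P 0).eval (n : ℤ) + a) *
          (∏ i : Fin g, lp ((P i.succ).eval (n : ℤ) + h i) -
            ∏ i : Fin g, Lw (u' i) ((P i.succ).eval (n : ℤ) + h i))| ≤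
          PW u0 * (ε / (2 * PW u0) * X * vol H') := by
        intro a _
        have h5 := hX₂ X hXb H' hF' r B hB hBc
          (fun n => ψ n * (Lw u0 ((P 0).eval (n : ℤ) + a) / PW u0)) (fun n => by
            have h6 := H33B.ENG_Lw_nonneg u0 ((P 0).eval (n : ℤ) + a)
            have h7 := EP5_Lw_le u0 ((P 0).eval (n : ℤ) + a)
            have h8 : Lw u0 ((P 0).eval (n : ℤ) + a) / PW u0 ≤ 1 := by
              rw [div_le_one hM0]; exact h7
            have h9 : 0 ≤ Lw u0 ((P 0).eval (n : ℤ) + a) / PW u0 := by positivity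
            exact ⟨mul_nonneg (hψ n).1 h9, mul_le_one₀ (hψ n).2 h9 h8⟩)
        have h10 := mul_le_mul_of_nonneg_left h5 hM0.le
        refine le_trans (le_of_eq ?_) h10
        rw [mul_sum]
        refine sum_congr rfl fun h _ => ?_
        rw [← abs_of_pos hM0, ← abs_mul, abs_of_pos hM0, mul_sum]
        congr 1
        refine sum_congr rfl fun n _ => ?_
        simp only [hP']
        field_simp
      refine (sum_le_sum h4).trans ?_
      rw [sum_const, Nat.card_Icc, Nat.add_sub_cancel, nsmul_eq_mul]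
      have h5 : vol H = H 0 * vol H' := by
        unfold vol
        rw [Fin.prod_univ_succ]
      rw [h5]
      apply le_of_eq
      field_simp
    calc _ ≤ ε / 2 * X * vol H + ε / 2 * X * vol H := add_le_add h2 h3
      _ = _ := by ring

end Pool.Agent.Lib.H59X
end

-- from Lib.H59X.T0
section

/-!
# Chunk T0: replacement of `N - G(n)`
-/

open Finset Polynomial

namespace Pool.Agent.Lib.H59X

open Pool.Agent.Lib.H59 (argSet argCount Admissible primeCount omegaN seriesTrunc rootCount)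
open Pool.Agent.Lib.H68T (lp)
open Pool.Agent.Lib.H33B (Lq Lw PW SieveWt)

theorem T0_scale (D : ℕ) (C C' K K' : ℝ) (hK' : 0 ≤ K') (X Y Z : ℕ) (S : ℝ) (f : ℕ → ℝ)
    (hZ : 1 ≤ Real.log Z) (hCC : Real.log Z ^ C ≤ Real.log Y ^ C')
    (hKK : Real.log Y ^ K ≤ Real.log Z ^ K')
    (hf : SieveWt D C K' Z X S f) : SieveWt D C' K Y X S f := by
  have hlogZ : 0 < Real.log Z := by linarith
  have hS : 0 ≤ S := by
    have h1 := hf.cls 1 0 squarefree_one (by
      rw [Nat.cast_one]; exact Real.one_le_rpow hZ hK')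
    have h2 : 0 ≤ ∑ n ∈ (Icc 1 X).filter (fun n => n ≡ 0 [MOD 1]), f n :=
      sum_nonneg fun n hn => hf.nonneg n (mem_filter.mp hn).1
    simp only [Nat.primeFactors_one, card_empty, pow_zero, one_mul, Nat.cast_one, div_one] at h1
    linarith
  exact ⟨hf.nonneg, fun n hn => (hf.le n hn).trans hCC,
    fun q b hq hqK => hf.cls q b hq (hqK.trans hKK),
    hf.large.trans (mul_le_mul_of_nonneg_left hCC hS)⟩

open Filter in
theorem T0_ev (G : ℤ[X]) (hG : 1 ≤ G.natDegree) (hlc : 0 < G.leadingCoeff) (C K : ℝ) (hC : 0 ≤ C)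
    (hK : 0 ≤ K) : ∃ Y₀ : ℕ, ∀ Y : ℕ, Y₀ ≤ Y → 1 ≤ Real.log (argCount G Y) ∧
      Real.log (argCount G Y) ^ C ≤ Real.log Y ^ (C + 1) ∧
      Real.log Y ^ K ≤ Real.log (argCount G Y) ^ (K + 1) := by
  have hX := Pool.Agent.Lib.H59.argCount_tendsto hG hlc
  have hL : Tendsto (fun Y : ℕ => Real.log (argCount G Y)) atTop atTop :=
    Real.tendsto_log_atTop.comp ((tendsto_natCast_atTop_atTop (R := ℝ)).comp hX)
  have hlog : Tendsto (fun Y : ℕ => Real.log (Y : ℝ)) atTop atTop :=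
    Real.tendsto_log_atTop.comp tendsto_natCast_atTop_atTop
  have hr := H33B.argCount_log G hG hlc
  have hk : (1 : ℝ) ≤ G.natDegree := by exact_mod_cast hG
  have h1 := hr.eventually_le_const (u := (G.natDegree : ℝ) + 1) (by linarith)
  have h2 := hr.eventually_const_le (u := (1 : ℝ) / 2) (by linarith)
  obtain ⟨Y₀, hY₀⟩ := eventually_atTop.1 (h1.and (h2.and ((hL.eventually_ge_atTop 1).and
    ((hL.eventually_ge_atTop (((G.natDegree : ℝ) + 1) ^ K)).and
      ((hlog.eventually_ge_atTop 1).and (hlog.eventually_ge_atTop ((2 : ℝ) ^ C)))))))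
  refine ⟨Y₀, fun Y hY => ?_⟩
  obtain ⟨a1, a2, a3, a4, a5, a6⟩ := hY₀ Y hY
  have l0 : 0 < Real.log (argCount G Y) := by linarith
  have l1 : 0 < Real.log (Y : ℝ) := by linarith
  rw [div_le_iff₀ l0] at a1
  rw [le_div_iff₀ l0] at a2
  refine ⟨a3, ?_, ?_⟩
  · calc Real.log (argCount G Y) ^ C ≤ (2 * Real.log Y) ^ C :=
          Real.rpow_le_rpow l0.le (by linarith) hC
      _ = 2 ^ C * Real.log Y ^ C := Real.mul_rpow (by norm_num) l1.le
      _ ≤ Real.log Y * Real.log Y ^ C :=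
          mul_le_mul_of_nonneg_right a6 (Real.rpow_nonneg l1.le _)
      _ = _ := by rw [Real.rpow_add_one l1.ne']; ring
  · calc Real.log Y ^ K ≤ (((G.natDegree : ℝ) + 1) * Real.log (argCount G Y)) ^ K :=
          Real.rpow_le_rpow l1.le a1 hK
      _ = ((G.natDegree : ℝ) + 1) ^ K * Real.log (argCount G Y) ^ K :=
          Real.mul_rpow (by positivity) l0.le
      _ ≤ Real.log (argCount G Y) * Real.log (argCount G Y) ^ K :=
          mul_le_mul_of_nonneg_right a4 (Real.rpow_nonneg l0.le _)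
      _ = _ := by rw [Real.rpow_add_one l0.ne']; ring

/-- Proof. `X = argCount G Y`. `wt P …`: `D, M, C, A₀`; `H33B.engine G hG hlc D C`: `K`. `log X ≤ log Y ≤ C' log X` for large `Y` (`H33B.argCount_log`,
`H33B.DE1_arg`), so a `SieveWt D C (K + 1) X X S f` is a `SieveWt D C K Y X S f` for large `Y` (`wt_scale` with `Z = X`, `K' = K + 1`; use `wt` with `K + 1`). For each `h ∈ Box H` apply the engine with
`f(n) = bw(n) ∏ lp(P_i(n) + h_i)` (`ψ = 1`), `S = A₀ X (1 + ssz)`, `ε' = ε/(A₀ C₂)` (`C₂` from `mass_avg`) and sum over `h`. -/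
theorem stepN {g : ℕ} (G : ℤ[X]) (hG : 1 ≤ G.natDegree) (hlc : 0 < G.leadingCoeff)
    (P : Fin g → ℤ[X]) (A : ℕ) (hA : 1 ≤ A) (hP : Pol A P)
    (hl : ∀ i, 0 < (P i).leadingCoeff) (C₁ : ℝ) (hC₁ : 1 ≤ C₁) (ε : ℝ) (hε : 0 < ε) :
    ∃ w₀ : ℕ, ∀ w : ℕ, w₀ ≤ w → ∃ Y₀ : ℕ, ∀ Y : ℕ, Y₀ ≤ Y → ∀ H : Fin g → ℕ,
    Fit C₁ (argCount G Y) P H → ∀ (r : ℕ) (B : ℤ[X]), Bas A r B →
    |(B.coeff 0 : ℝ)| ≤ (argCount G Y : ℝ) ^ 2 →
    ∑ h ∈ Box H, ∑ N ∈ Icc 1 Y,
      |∑ n ∈ (Icc 1 (argCount G Y)).filter (fun n : ℕ => G.eval (n : ℤ) < N),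
        bw r B n * (∏ i, lp ((P i).eval (n : ℤ) + h i)) *
          (lp ((N : ℤ) - G.eval (n : ℤ)) - Lw w ((N : ℤ) - G.eval (n : ℤ)))| ≤
      ε * Y * argCount G Y * vol H := by
  classical
  obtain ⟨D, M, C, A₀, hM, hC, hA₀, hwt⟩ := wt P A hA hP hl C₁ hC₁
  obtain ⟨C₂, hC₂, hmass⟩ := mass_avg (g := g) A C₁ hC₁
  obtain ⟨K, hK, heng⟩ := H33B.engine G hG hlc D (C + 1)
  obtain ⟨w₀, hw₀⟩ := heng (ε / (A₀ * C₂)) (by positivity)
  refine ⟨w₀, fun w hw => ?_⟩
  obtain ⟨Y₁, hY₁⟩ := hw₀ w hw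
  obtain ⟨X₀, hX₀⟩ := hwt (K + 1)
  obtain ⟨Y₂, hY₂⟩ := T0_ev G hG hlc C K hC hK
  obtain ⟨Y₃, hY₃⟩ := Filter.eventually_atTop.1
    ((Pool.Agent.Lib.H59.argCount_tendsto hG hlc).eventually_ge_atTop (max X₀ 1))
  refine ⟨max Y₁ (max Y₂ Y₃), fun Y hY H hH r B hB hB0 => ?_⟩
  have y1 : Y₁ ≤ Y := (le_max_left _ _).trans hY
  have y2 : Y₂ ≤ Y := ((le_max_left _ _).trans (le_max_right _ _)).trans hY
  have y3 : Y₃ ≤ Y := ((le_max_right _ _).trans (le_max_right _ _)).trans hY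
  obtain ⟨b1, b2, b3⟩ := hY₂ Y y2
  have b4 := hY₃ Y y3
  have hX0 : X₀ ≤ argCount G Y := (le_max_left _ _).trans b4
  have hX1 : 1 ≤ argCount G Y := (le_max_right _ _).trans b4
  set X := argCount G Y with hX
  have key : ∀ h ∈ Box H, ∑ N ∈ Icc 1 Y,
      |∑ n ∈ (Icc 1 X).filter (fun n : ℕ => G.eval (n : ℤ) < N),
        bw r B n * (∏ i, lp ((P i).eval (n : ℤ) + h i)) *
          (lp ((N : ℤ) - G.eval (n : ℤ)) - Lw w ((N : ℤ) - G.eval (n : ℤ)))| ≤
      ε / (A₀ * C₂) * Y * (A₀ * X * (1 + ssz (r + g) (QQ B P h) (zz M X))) := by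
    intro h hh
    have h1 := hX₀ X hX0 H hH h hh r B hB hB0 (fun _ => 1) (fun _ => ⟨zero_le_one, le_rfl⟩)
    have h2 := T0_scale D C (C + 1) K (K + 1) (by linarith) X Y X _ _ b1 b2 b3 h1
    have h3 := hY₁ Y y1 _ _ h2
    simp only [one_mul] at h3
    exact h3
  refine (sum_le_sum key).trans ?_
  have h4 := hmass P hP M hM X hX1 H hH r B hB
  rw [← mul_sum, ← mul_sum]
  calc ε / (A₀ * C₂) * Y * (A₀ * X * ∑ h ∈ Box H, (1 + ssz (r + g) (QQ B P h) (zz M X)))
      ≤ ε / (A₀ * C₂) * Y * (A₀ * X * (C₂ * vol H)) := by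
        apply mul_le_mul_of_nonneg_left _ (by positivity)
        exact mul_le_mul_of_nonneg_left h4 (by positivity)
    _ = ε * Y * X * vol H := by
        field_simp

end Pool.Agent.Lib.H59X
end

-- from Lib.H59X.Z2B
section

/-!
# Chunk Z2B: the formula in the mean over the shifts and over `N`
-/

open Finset Polynomial

namespace Pool.Agent.Lib.H59X

open Pool.Agent.Lib.H59 (argSet argCount Admissible primeCount omegaN seriesTrunc rootCount)
open Pool.Agent.Lib.H68T (lp)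
open Pool.Agent.Lib.H33B (Lq Lw PW SieveWt)

/-- The deterministic polynomial of the final theorems: none, or a fixed linear one. -/
def Bas' (r : ℕ) (B : ℤ[X]) : Prop :=
  (r = 0 ∧ B = 1) ∨ (r = 1 ∧ B.natDegree = 1 ∧ 0 < B.leadingCoeff)

theorem z2b_bdd (G : ℤ[X]) (hG : 1 ≤ G.natDegree) (hlc : 0 < G.leadingCoeff) (N : ℕ) :
    ∃ n₀ : ℕ, ∀ n : ℕ, G.eval (n : ℤ) < N → n < n₀ := by
  obtain ⟨n₁, hn₁⟩ := Pool.Agent.Lib.H59.exists_strictMono hG hlc
  have hgrow : ∀ k : ℕ, G.eval (n₁ : ℤ) + k ≤ G.eval ((n₁ + k : ℕ) : ℤ) := by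
    intro k
    induction k with
    | zero => simp
    | succ k ih =>
      have := hn₁ (n₁ + k) (n₁ + (k + 1)) (by omega) (by omega)
      push_cast at *
      omega
  refine ⟨n₁ + (N + (G.eval (n₁ : ℤ)).natAbs) + 1, fun n hn => ?_⟩
  by_contra hcon
  push Not at hcon
  obtain ⟨k, hk⟩ : ∃ k, n = n₁ + k := ⟨n - n₁, by omega⟩
  have h3 := hgrow k
  rw [← hk] at h3
  omega

theorem z2b_mono (G : ℤ[X]) (hG : 1 ≤ G.natDegree) (hlc : 0 < G.leadingCoeff) {N Y : ℕ}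
    (h : N ≤ Y) : argCount G N ≤ argCount G Y := by
  obtain ⟨n₀, hn₀⟩ := z2b_bdd G hG hlc Y
  refine Set.ncard_le_ncard (fun n hn => ⟨hn.1, ?_⟩) ((Set.finite_Iio n₀).subset fun n hn => ?_)
  · have := hn.2
    have h' : (N : ℤ) ≤ Y := by exact_mod_cast h
    linarith
  · exact hn₀ n (by have := hn.2; linarith)

theorem z2b_card {g : ℕ} (H : Fin g → ℕ) : ((Box H).card : ℝ) = vol H := by
  unfold Box vol
  rw [Fintype.card_piFinset]
  push_cast
  simp

theorem z2b_vol_nonneg {g : ℕ} (H : Fin g → ℕ) : 0 ≤ vol H :=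
  Finset.prod_nonneg fun i _ => Nat.cast_nonneg _

theorem z2b_PW_one (w : ℕ) : (1 : ℝ) ≤ PW w := by
  have := Pool.Agent.Lib.H33B.PW_pos w
  exact_mod_cast this

theorem z2b_bw_nonneg (r : ℕ) (B : ℤ[X]) (n : ℕ) : 0 ≤ bw r B n := by
  unfold bw; split_ifs
  · norm_num
  · exact Pool.Agent.Lib.H33B.ENG_lp_nonneg _

theorem z2b_Lq_nonneg (q : ℕ) (m : ℤ) : 0 ≤ Lq q m := by
  unfold Lq; split_ifs
  · positivity
  · exact le_rfl

theorem z2b_Lq_le (q : ℕ) (hq : 0 < q) (m : ℤ) : Lq q m ≤ q := by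
  unfold Lq; split_ifs
  · have h1 : (1 : ℝ) ≤ Nat.totient q := by exact_mod_cast Nat.totient_pos.mpr hq
    exact div_le_self (Nat.cast_nonneg _) h1
  · positivity

theorem z2b_Lw_le (w : ℕ) (m : ℤ) : Lw w m ≤ PW w :=
  z2b_Lq_le _ (Pool.Agent.Lib.H33B.PW_pos w) m

theorem z2b_mixv_le {g : ℕ} (r : ℕ) (B : ℤ[X]) (P : Fin g → ℤ[X]) (u : Fin g → ℕ) (U : ℕ)
    (h : Fin g → ℕ) : |mixv r B P u U h| ≤ PW U * ∏ i, (PW (u i) : ℝ) := by
  have hU := z2b_PW_one U
  have hbL0 : ∀ v, 0 ≤ bL r B (PW U) v := by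
    intro v; unfold bL; split_ifs
    · norm_num
    · exact z2b_Lq_nonneg _ _
  have hbL : ∀ v, bL r B (PW U) v ≤ PW U := by
    intro v; unfold bL; split_ifs
    · exact hU
    · exact z2b_Lq_le _ (Pool.Agent.Lib.H33B.PW_pos U) _
  have hL0 : ∀ (i : Fin g) (m : ℤ), 0 ≤ Lw (u i) m := fun i m =>
    Pool.Agent.Lib.H33B.ENG_Lw_nonneg _ _
  have hL : ∀ (i : Fin g) (m : ℤ), Lw (u i) m ≤ PW (u i) := fun i m =>
    z2b_Lw_le _ _
  unfold mixv
  rw [abs_div, abs_of_pos (by linarith : (0 : ℝ) < PW U), div_le_iff₀ (by linarith)]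
  rw [abs_of_nonneg (Finset.sum_nonneg fun v _ => mul_nonneg (hbL0 v)
    (Finset.prod_nonneg fun i _ => hL0 i _))]
  calc ∑ v ∈ range (PW U), bL r B (PW U) v * ∏ i, Lw (u i) ((P i).eval (v : ℤ) + h i)
      ≤ ∑ _v ∈ range (PW U), (PW U : ℝ) * ∏ i, (PW (u i) : ℝ) := by
        apply Finset.sum_le_sum
        intro v _
        exact mul_le_mul (hbL v) (Finset.prod_le_prod (fun i _ => hL0 i _) (fun i _ => hL i _))
          (Finset.prod_nonneg fun i _ => hL0 i _) (by linarith)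
    _ = PW U * (∏ i, (PW (u i) : ℝ)) * PW U := by
        rw [Finset.sum_const, Finset.card_range, nsmul_eq_mul]; ring

/-- replacement of the shifted primes for one `N` -/
theorem z2b_step {g : ℕ} (G : ℤ[X]) (P : Fin g → ℤ[X]) (A : ℕ) (hA : 1 ≤ A) (hP : Pol A P)
    (hl : ∀ i, 0 < (P i).leadingCoeff) (C₁ : ℝ) (hC₁ : 1 ≤ C₁) (ε : ℝ) (hε : 0 < ε) (W w : ℕ) :
    ∃ u : Fin g → ℕ, (∀ i, W ≤ u i) ∧ ∃ X₀ : ℕ, ∀ X : ℕ, X₀ ≤ X → ∀ H : Fin g → ℕ, Fit C₁ X P H →
    ∀ (r : ℕ) (B : ℤ[X]), Bas A r B → |(B.coeff 0 : ℝ)| ≤ (X : ℝ) ^ 2 → ∀ N : ℕ,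
    ∑ h ∈ Box H, |∑ n ∈ (Icc 1 X).filter (fun n : ℕ => G.eval (n : ℤ) < N),
        bw r B n * (∏ i, lp ((P i).eval (n : ℤ) + h i)) * Lw w ((N : ℤ) - G.eval (n : ℤ)) -
      ∑ n ∈ (Icc 1 X).filter (fun n : ℕ => G.eval (n : ℤ) < N),
        bw r B n * (∏ i, Lw (u i) ((P i).eval (n : ℤ) + h i)) * Lw w ((N : ℤ) - G.eval (n : ℤ))| ≤
      ε * X * vol H := by
  have hw : (0 : ℝ) < PW w := lt_of_lt_of_le one_pos (z2b_PW_one w)
  obtain ⟨u, hu, X₀, hX₀⟩ := replace P A hA hP hl C₁ hC₁ (ε / PW w) (by positivity) W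
  refine ⟨u, hu, X₀, ?_⟩
  intro X hX H hF r B hB hB0 N
  have key := hX₀ X hX H hF r B hB hB0
    (fun n => if G.eval (n : ℤ) < N then Lw w ((N : ℤ) - G.eval (n : ℤ)) / PW w else 0)
    (fun n => by
      split_ifs
      · exact ⟨div_nonneg (Pool.Agent.Lib.H33B.ENG_Lw_nonneg _ _) hw.le,
          (div_le_one hw).mpr (z2b_Lw_le _ _)⟩
      · exact ⟨le_rfl, zero_le_one⟩)
  have e : ∀ h : Fin g → ℕ, |∑ n ∈ (Icc 1 X).filter (fun n : ℕ => G.eval (n : ℤ) < N),
        bw r B n * (∏ i, lp ((P i).eval (n : ℤ) + h i)) * Lw w ((N : ℤ) - G.eval (n : ℤ)) -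
      ∑ n ∈ (Icc 1 X).filter (fun n : ℕ => G.eval (n : ℤ) < N),
        bw r B n * (∏ i, Lw (u i) ((P i).eval (n : ℤ) + h i)) *
          Lw w ((N : ℤ) - G.eval (n : ℤ))| =
      PW w * |∑ n ∈ Icc 1 X,
        (if G.eval (n : ℤ) < N then Lw w ((N : ℤ) - G.eval (n : ℤ)) / PW w else 0) * bw r B n *
      (∏ i, lp ((P i).eval (n : ℤ) + h i) - ∏ i, Lw (u i) ((P i).eval (n : ℤ) + h i))| := by
    intro h
    have habs : ∀ x : ℝ, (PW w : ℝ) * |x| = |(PW w : ℝ) * x| := fun x => by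
      rw [abs_mul, abs_of_pos hw]
    rw [← Finset.sum_sub_distrib, Finset.sum_filter, habs, Finset.mul_sum]
    congr 1
    apply Finset.sum_congr rfl
    intro n _
    split_ifs
    · field_simp
    · ring
  calc _ = PW w * ∑ h ∈ Box H, |∑ n ∈ Icc 1 X,
        (if G.eval (n : ℤ) < N then Lw w ((N : ℤ) - G.eval (n : ℤ)) / PW w else 0) * bw r B n *
      (∏ i, lp ((P i).eval (n : ℤ) + h i) - ∏ i, Lw (u i) ((P i).eval (n : ℤ) + h i))| := by
        rw [Finset.mul_sum]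
        exact Finset.sum_congr rfl fun h _ => e h
    _ ≤ PW w * (ε / PW w * X * vol H) := mul_le_mul_of_nonneg_left key hw.le
    _ = ε * X * vol H := by field_simp

/-- the small `N` -/
theorem z2b_small {g : ℕ} (G : ℤ[X]) (hG : 1 ≤ G.natDegree) (hlc : 0 < G.leadingCoeff)
    (P : Fin g → ℤ[X]) (r : ℕ) (B : ℤ[X]) (u : Fin g → ℕ) (w U N₀ : ℕ) :
    ∃ D : ℝ, 0 ≤ D ∧ ∀ N : ℕ, N < N₀ → ∀ (X : ℕ) (h : Fin g → ℕ),
    |∑ n ∈ (Icc 1 X).filter (fun n : ℕ => G.eval (n : ℤ) < N),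
      bw r B n * (∏ i, Lw (u i) ((P i).eval (n : ℤ) + h i)) * Lw w ((N : ℤ) - G.eval (n : ℤ)) -
      argCount G N * mixv r B (Fin.cons (-G) P : Fin (g + 1) → ℤ[X])
        (Fin.cons w u : Fin (g + 1) → ℕ) U (Fin.cons N h)| ≤ D := by
  obtain ⟨n₀, hn₀⟩ := z2b_bdd G hG hlc N₀
  refine ⟨(∑ n ∈ range n₀, bw r B n) * (∏ i, (PW (u i) : ℝ)) * PW w +
    argCount G N₀ * (PW U * ∏ i, (PW ((Fin.cons w u : Fin (g + 1) → ℕ) i) : ℝ)), ?_, ?_⟩
  · have : 0 ≤ ∑ n ∈ range n₀, bw r B n := Finset.sum_nonneg fun n _ => z2b_bw_nonneg r B n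
    positivity
  intro N hN X h
  refine (abs_sub _ _).trans (add_le_add ?_ ?_)
  · rw [abs_of_nonneg (Finset.sum_nonneg fun n _ => mul_nonneg (mul_nonneg (z2b_bw_nonneg r B n)
      (Finset.prod_nonneg fun i _ => Pool.Agent.Lib.H33B.ENG_Lw_nonneg _ _))
      (Pool.Agent.Lib.H33B.ENG_Lw_nonneg _ _))]
    calc ∑ n ∈ (Icc 1 X).filter (fun n : ℕ => G.eval (n : ℤ) < N),
          bw r B n * (∏ i, Lw (u i) ((P i).eval (n : ℤ) + h i)) * Lw w ((N : ℤ) - G.eval (n : ℤ))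
        ≤ ∑ n ∈ (Icc 1 X).filter (fun n : ℕ => G.eval (n : ℤ) < N),
          bw r B n * (∏ i, (PW (u i) : ℝ)) * PW w := by
          apply Finset.sum_le_sum
          intro n _
          have a0 := z2b_bw_nonneg r B n
          have a1 : ∏ i, Lw (u i) ((P i).eval (n : ℤ) + h i) ≤ ∏ i, (PW (u i) : ℝ) :=
            Finset.prod_le_prod (fun i _ => Pool.Agent.Lib.H33B.ENG_Lw_nonneg _ _)
              (fun i _ => z2b_Lw_le _ _)
          have a2 := z2b_Lw_le w ((N : ℤ) - G.eval (n : ℤ))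
          exact mul_le_mul (mul_le_mul_of_nonneg_left a1 a0) a2
            (Pool.Agent.Lib.H33B.ENG_Lw_nonneg _ _) (by positivity)
      _ ≤ ∑ n ∈ range n₀, bw r B n * (∏ i, (PW (u i) : ℝ)) * PW w := by
          apply Finset.sum_le_sum_of_subset_of_nonneg
          · intro n hn
            rw [Finset.mem_filter] at hn
            rw [Finset.mem_range]
            apply hn₀
            have h' : (N : ℤ) < N₀ := by exact_mod_cast hN
            exact hn.2.trans h'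
          · intro n _ _
            have a0 := z2b_bw_nonneg r B n
            positivity
      _ = (∑ n ∈ range n₀, bw r B n) * (∏ i, (PW (u i) : ℝ)) * PW w := by
          rw [Finset.sum_mul, Finset.sum_mul]
  · rw [abs_mul, abs_of_nonneg (Nat.cast_nonneg _ : (0 : ℝ) ≤ argCount G N)]
    have a1 : (argCount G N : ℝ) ≤ argCount G N₀ := by
      exact_mod_cast z2b_mono G hG hlc hN.le
    exact mul_le_mul a1 (z2b_mixv_le _ _ _ _ _ _) (abs_nonneg _) (Nat.cast_nonneg _)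

theorem z2b_bas {r : ℕ} {B : ℤ[X]} (hB : Bas' r B) : ∃ A₀ : ℕ, (∀ A, A₀ ≤ A → Bas A r B) ∧
    (∀ U, A₀ < U → ∀ η : ℝ, 0 < η → ∃ X₀ : ℕ, ∀ X : ℕ, X₀ ≤ X → BEq r B U X η) ∧
    ∃ C₂ : ℝ, ∀ η : ℝ, 0 < η → ∃ X₀ : ℕ, ∀ X : ℕ, X₀ ≤ X → BCh r B X η C₂ := by
  rcases hB with ⟨rfl, rfl⟩ | ⟨rfl, h1, h2⟩
  · refine ⟨0, fun A _ => Or.inl ⟨rfl, rfl⟩, fun U _ η hη => beq_zero U η hη, 2, fun η hη =>
      ⟨0, fun X _ => bch_zero X η hη.le⟩⟩
  · refine ⟨B.leadingCoeff.natAbs, fun A hA => Or.inr ⟨rfl, h1, hA⟩, fun U hU η hη =>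
      beq_one B h1 h2 U (by omega) η hη, ?_⟩
    obtain ⟨C₂, -, hC⟩ := bch_one B h1 h2
    exact ⟨C₂, hC⟩

/-- Proof. `X = argCount G Y`, `L = log X`; `A` a bound for all degrees and leading coefficients, `Bas A r B`; `|B.coeff 0| ≤ X²` for large `Y`. Choose `W ≥ W₀ + lc B + 1` with `C/√W ≤ ε/8` (`mix_box_N`),
`w ≥ W` from `stepN … (ε/8)`, `u` from `replace P … (ε/(8 PW w)) W`, `U = max w (sup u)`, `z₀ = W`. For `z ≥ z₀`, large `Y`, in the mean over `N ≤ Y` and `h ∈ Box H` (each step costs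
`(ε/8) X Y vol H`): `k ∏ d_i L^(g+r+1) cntN` → `∑ bw ∏ lp · lp(N - G(n))` (`count_avg`, with `bch_zero`, `bch_one`) → `∑ bw ∏ lp · Lw w (N - G(n))` (`stepN`) → `∑ bw ∏ Lw (u i) · Lw w (N - G(n))` (for each `N`: `replace` with
`ψ(n) = 1[G(n) < N] Lw w (N - G(n))/PW w`) → `argCount G N · mixv` (`per_sum_N` with `beq_zero`, `beq_one`, for `N ≥ N₀`) → `argCount G N · ssz` (`mix_box_N`, `argCount G N ≤ X` for large `Y`). For the
`N < N₀` (finitely many) bound everything trivially: `argCount G N` is bounded; `mixv`, `ssz`, `Lw` are bounded in terms of `U, z` (not of `Y`), and the sum over the `n` with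
`G(n) < N < N₀` has a bounded number of terms, with `bw ≤ C log X`: total `O(log X) vol H ≤ (ε/8) X Y vol H`. -/
theorem l1_avg {g : ℕ} (G : ℤ[X]) (hG : 1 ≤ G.natDegree) (hlc : 0 < G.leadingCoeff)
    (P : Fin g → ℤ[X]) (hP : ∀ i, 1 ≤ (P i).natDegree) (hl : ∀ i, 0 < (P i).leadingCoeff)
    (r : ℕ) (B : ℤ[X]) (hB : Bas' r B) (C₁ : ℝ) (hC₁ : 1 ≤ C₁) (ε : ℝ) (hε : 0 < ε) :
    ∃ z₀ : ℕ, ∀ z : ℕ, z₀ ≤ z → ∃ Y₀ : ℕ, ∀ Y : ℕ, Y₀ ≤ Y → ∀ H : Fin g → ℕ,
    Fit C₁ (argCount G Y) P H →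
    ∑ h ∈ Box H, ∑ N ∈ Icc 1 Y, |((G.natDegree : ℝ) * ∏ i, ((P i).natDegree : ℝ)) *
        Real.log (argCount G Y) ^ (g + r + 1) * cntN r B P G h N (argCount G Y) -
      argCount G N * ssz (r + g + 1) (QQ B P h * (C (N : ℤ) - G)) z| ≤
        ε * Y * argCount G Y * vol H := by
  obtain ⟨A₀, hBas, hBEq, C₂, hBCh⟩ := z2b_bas hB
  -- the bound for degrees and leading coefficients
  set A : ℕ := 1 + A₀ + G.natDegree + G.leadingCoeff.natAbs +
    ∑ i, ((P i).natDegree + (P i).leadingCoeff.natAbs) with hA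
  have hPi : ∀ i, (P i).natDegree + (P i).leadingCoeff.natAbs ≤
      ∑ i, ((P i).natDegree + (P i).leadingCoeff.natAbs) := fun i =>
    Finset.single_le_sum (f := fun i => (P i).natDegree + (P i).leadingCoeff.natAbs)
      (fun j _ => Nat.zero_le _) (Finset.mem_univ i)
  have hPol : Pol A P := ⟨hP, fun i => by have := hPi i; omega, fun i => by have := hPi i; omega⟩
  have hBA : Bas A r B := hBas A (by omega)
  have hA1 : 1 ≤ A := by omega
  obtain ⟨K, W₀, hK, hmix⟩ := mix_box_N A G hG (by omega) (by omega) P hPol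
  have hε8 : 0 < ε / 8 := by positivity
  -- the level `W`
  obtain ⟨W₁, hW₁⟩ : ∃ W₁ : ℕ, ∀ W : ℕ, W₁ ≤ W → K / Real.sqrt W ≤ ε / 8 := by
    have h1 : Filter.Tendsto (fun W : ℕ => K / Real.sqrt W) Filter.atTop (nhds 0) := by
      apply Filter.Tendsto.const_div_atTop
      exact Real.tendsto_sqrt_atTop.comp tendsto_natCast_atTop_atTop
    exact Filter.eventually_atTop.mp (h1.eventually_le_const hε8)
  set W : ℕ := W₀ + W₁ + A₀ + 1 with hW
  obtain ⟨w₀, hw₀⟩ := stepN G hG hlc P A hA1 hPol hl C₁ hC₁ (ε / 8) hε8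
  set w : ℕ := max w₀ W with hw
  obtain ⟨Y₁, hY₁⟩ := hw₀ w (le_max_left _ _)
  obtain ⟨u, hu, X₂, hX₂⟩ := z2b_step G P A hA1 hPol hl C₁ hC₁ (ε / 8) hε8 W w
  set U : ℕ := w + ∑ i, u i with hU
  have hwU : w ≤ U := by omega
  have huU : ∀ i, u i ≤ U := fun i => by
    have := Finset.single_le_sum (f := u) (fun j _ => Nat.zero_le _) (Finset.mem_univ i)
    omega
  have hWw : W ≤ w := le_max_right _ _
  refine ⟨W, fun z hz => ?_⟩
  obtain ⟨H₀, hH₀⟩ := hmix W U z w u (by omega) hWw hwU (fun i => ⟨hu i, huU i⟩) hz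
  obtain ⟨η₁, hη₁, Y₂, hY₂⟩ := count_avg G hG hlc P hP hl C₁ hC₁ C₂ (ε / 8) hε8
  obtain ⟨X₃, hX₃⟩ := hBCh η₁ hη₁
  have hPU : (0 : ℝ) < PW U := lt_of_lt_of_le one_pos (z2b_PW_one U)
  obtain ⟨X₄, hX₄⟩ := hBEq U (by omega) (ε / (8 * (PW U : ℝ) ^ (g + 2))) (by positivity)
  obtain ⟨N₀, hN₀⟩ := per_sum_N G hG hlc P
  obtain ⟨D, hD0, hD⟩ := z2b_small G hG hlc P r B u w U N₀
  -- `X` is large
  obtain ⟨Y₃, hY₃⟩ : ∃ Y₃ : ℕ, ∀ Y : ℕ, Y₃ ≤ Y →
      1 + X₂ + X₃ + X₄ + ⌈C₁⌉₊ * H₀ + (B.coeff 0).natAbs ≤ argCount G Y :=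
    Filter.eventually_atTop.mp ((Pool.Agent.Lib.H59.argCount_tendsto hG hlc).eventually_ge_atTop _)
  refine ⟨Y₁ + Y₂ + Y₃ + H₀ + N₀ + ⌈8 * N₀ * D / ε⌉₊ + 1, fun Y hY H hF => ?_⟩
  have hXl := hY₃ Y (by omega)
  set X := argCount G Y with hXdef
  have hX1 : (1 : ℝ) ≤ X := by
    have : 1 ≤ X := by omega
    exact_mod_cast this
  have hv := z2b_vol_nonneg H
  have hcoef : |(B.coeff 0 : ℝ)| ≤ (X : ℝ) ^ 2 := by
    have h1 : ((B.coeff 0).natAbs : ℝ) ≤ X := by
      have : (B.coeff 0).natAbs ≤ X := by omega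
      exact_mod_cast this
    have h2 : |(B.coeff 0 : ℝ)| = ((B.coeff 0).natAbs : ℝ) := by
      rw [Nat.cast_natAbs]; push_cast; rfl
    rw [h2]
    nlinarith
  have hHi : ∀ i, H₀ ≤ H i := by
    intro i
    have h1 := hF.lo i
    have h2 : (X : ℝ) ≤ (X : ℝ) ^ (P i).natDegree := le_self_pow₀ hX1 (by have := hP i; omega)
    have h3 : ((⌈C₁⌉₊ * H₀ : ℕ) : ℝ) ≤ X := by
      have : ⌈C₁⌉₊ * H₀ ≤ X := by omega
      exact_mod_cast this
    have h4 : C₁ * (H₀ : ℝ) ≤ ((⌈C₁⌉₊ * H₀ : ℕ) : ℝ) := by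
      push_cast
      exact mul_le_mul_of_nonneg_right (Nat.le_ceil C₁) (Nat.cast_nonneg _)
    have h5 : C₁ * (H₀ : ℝ) ≤ C₁ * (H i : ℝ) := by linarith
    have h6 : (H₀ : ℝ) ≤ H i := le_of_mul_le_mul_left h5 (by linarith)
    exact_mod_cast h6
  -- the terms
  set T0 : (Fin g → ℕ) → ℕ → ℝ := fun h N => ((G.natDegree : ℝ) * ∏ i, ((P i).natDegree : ℝ)) *
        Real.log X ^ (g + r + 1) * cntN r B P G h N X with hT0
  set T1 : (Fin g → ℕ) → ℕ → ℝ := fun h N =>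
    ∑ n ∈ (Icc 1 X).filter (fun n : ℕ => G.eval (n : ℤ) < N),
        bw r B n * (∏ i, lp ((P i).eval (n : ℤ) + h i)) * lp ((N : ℤ) - G.eval (n : ℤ)) with hT1
  set T2 : (Fin g → ℕ) → ℕ → ℝ := fun h N =>
    ∑ n ∈ (Icc 1 X).filter (fun n : ℕ => G.eval (n : ℤ) < N),
        bw r B n * (∏ i, lp ((P i).eval (n : ℤ) + h i)) * Lw w ((N : ℤ) - G.eval (n : ℤ)) with hT2
  set T3 : (Fin g → ℕ) → ℕ → ℝ := fun h N =>
    ∑ n ∈ (Icc 1 X).filter (fun n : ℕ => G.eval (n : ℤ) < N),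
        bw r B n * (∏ i, Lw (u i) ((P i).eval (n : ℤ) + h i)) *
          Lw w ((N : ℤ) - G.eval (n : ℤ)) with hT3
  set T4 : (Fin g → ℕ) → ℕ → ℝ := fun h N =>
    argCount G N * mixv r B (Fin.cons (-G) P : Fin (g + 1) → ℤ[X])
        (Fin.cons w u : Fin (g + 1) → ℕ) U (Fin.cons N h) with hT4
  set T5 : (Fin g → ℕ) → ℕ → ℝ := fun h N =>
    argCount G N * ssz (r + g + 1) (QQ B P h * (C (N : ℤ) - G)) z with hT5
  have s01 : ∑ h ∈ Box H, ∑ N ∈ Icc 1 Y, |T0 h N - T1 h N| ≤ ε / 8 * Y * X * vol H :=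
    hY₂ Y (by omega) H hF r B (hX₃ X (by omega))
  have s12 : ∑ h ∈ Box H, ∑ N ∈ Icc 1 Y, |T1 h N - T2 h N| ≤ ε / 8 * Y * X * vol H := by
    have h1 := hY₁ Y (by omega) H hF r B hBA hcoef
    refine le_trans (le_of_eq ?_) h1
    refine Finset.sum_congr rfl fun h _ => Finset.sum_congr rfl fun N _ => ?_
    congr 1
    simp only [hT1, hT2]
    rw [← Finset.sum_sub_distrib]
    exact Finset.sum_congr rfl fun n _ => by ring
  have s23 : ∑ h ∈ Box H, ∑ N ∈ Icc 1 Y, |T2 h N - T3 h N| ≤ ε / 8 * Y * X * vol H := by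
    rw [Finset.sum_comm]
    calc ∑ N ∈ Icc 1 Y, ∑ h ∈ Box H, |T2 h N - T3 h N|
        ≤ ∑ _N ∈ Icc 1 Y, ε / 8 * X * vol H :=
          Finset.sum_le_sum fun N _ => hX₂ X (by omega) H hF r B hBA hcoef N
      _ = ε / 8 * Y * X * vol H := by
          rw [Finset.sum_const, Nat.card_Icc, nsmul_eq_mul]
          push_cast
          ring
  have s34 : ∑ h ∈ Box H, ∑ N ∈ Icc 1 Y, |T3 h N - T4 h N| ≤ ε / 4 * Y * X * vol H := by
    have hbe := hX₄ X (by omega)
    have hpt : ∀ h : Fin g → ℕ, ∀ N ∈ Icc 1 Y, |T3 h N - T4 h N| ≤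
        ε / 8 * X + if N < N₀ then D else 0 := by
      intro h N hN
      rw [Finset.mem_Icc] at hN
      have hεX : 0 ≤ ε / 8 * X := by positivity
      split_ifs with hlt
      · have := hD N hlt X h
        linarith
      · have h1 := hN₀ r B u w U Y _ huU hwU hbe N (by omega) hN.2 h
        have h2 : (PW U : ℝ) ^ (g + 2) * (ε / (8 * (PW U : ℝ) ^ (g + 2)) * X) = ε / 8 * X := by
          field_simp
        have h3 : |T3 h N - T4 h N| ≤ (PW U : ℝ) ^ (g + 2) *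
          (ε / (8 * (PW U : ℝ) ^ (g + 2)) * X) := h1
        linarith
    have hsmall : ∑ N ∈ Icc 1 Y, (if N < N₀ then D else 0) ≤ ε / 8 * X * Y := by
      have h1 : ∑ N ∈ Icc 1 Y, (if N < N₀ then D else 0) ≤ N₀ * D := by
        rw [← Finset.sum_filter, Finset.sum_const, nsmul_eq_mul]
        apply mul_le_mul_of_nonneg_right _ hD0
        have : ((Icc 1 Y).filter (fun N => N < N₀)).card ≤ (range N₀).card := by
          apply Finset.card_le_card
          intro N hN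
          rw [Finset.mem_filter] at hN
          exact Finset.mem_range.mpr hN.2
        rw [Finset.card_range] at this
        exact_mod_cast this
      have h2 : 8 * N₀ * D / ε ≤ Y := by
        refine (Nat.le_ceil _).trans ?_
        have : ⌈8 * N₀ * D / ε⌉₊ ≤ Y := by omega
        exact_mod_cast this
      rw [div_le_iff₀ hε] at h2
      have h3 : (Y : ℝ) * ε ≤ X * (Y * ε) := by
        have : (0 : ℝ) ≤ Y * ε := by positivity
        nlinarith
      nlinarith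
    calc ∑ h ∈ Box H, ∑ N ∈ Icc 1 Y, |T3 h N - T4 h N|
        ≤ ∑ _h ∈ Box H, ∑ N ∈ Icc 1 Y, (ε / 8 * X + if N < N₀ then D else 0) :=
          Finset.sum_le_sum fun h _ => Finset.sum_le_sum fun N hN => hpt h N hN
      _ = vol H * (Y * (ε / 8 * X) + ∑ N ∈ Icc 1 Y, (if N < N₀ then D else 0)) := by
          rw [Finset.sum_const, nsmul_eq_mul, z2b_card, Finset.sum_add_distrib, Finset.sum_const,
            Nat.card_Icc, nsmul_eq_mul]
          push_cast
          ring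
      _ ≤ vol H * (Y * (ε / 8 * X) + ε / 8 * X * Y) := by gcongr
      _ = ε / 4 * Y * X * vol H := by ring
  have s45 : ∑ h ∈ Box H, ∑ N ∈ Icc 1 Y, |T4 h N - T5 h N| ≤ ε / 8 * Y * X * vol H := by
    have h1 := hH₀ Y H (by omega) hHi r B hBA
    have h2 := hW₁ W (by omega)
    rw [Finset.sum_comm]
    calc ∑ N ∈ Icc 1 Y, ∑ h ∈ Box H, |T4 h N - T5 h N|
        ≤ ∑ N ∈ Icc 1 Y, ∑ h ∈ Box H, X *
          |mixv r B (Fin.cons (-G) P : Fin (g + 1) → ℤ[X]) (Fin.cons w u : Fin (g + 1) → ℕ) U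
          (Fin.cons N h) - ssz (r + g + 1) (QQ B P h * (C (N : ℤ) - G)) z| := by
          apply Finset.sum_le_sum
          intro N hN
          apply Finset.sum_le_sum
          intro h _
          simp only [hT4, hT5]
          rw [← mul_sub, abs_mul, abs_of_nonneg (Nat.cast_nonneg _ : (0 : ℝ) ≤ argCount G N)]
          apply mul_le_mul_of_nonneg_right _ (abs_nonneg _)
          rw [Finset.mem_Icc] at hN
          exact_mod_cast z2b_mono G hG hlc hN.2
      _ = X * ∑ N ∈ Icc 1 Y, ∑ h ∈ Box H,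
          |mixv r B (Fin.cons (-G) P : Fin (g + 1) → ℤ[X]) (Fin.cons w u : Fin (g + 1) → ℕ) U
          (Fin.cons N h) - ssz (r + g + 1) (QQ B P h * (C (N : ℤ) - G)) z| := by
          simp only [Finset.mul_sum]
      _ ≤ X * (K / Real.sqrt W * Y * vol H) := mul_le_mul_of_nonneg_left h1 (Nat.cast_nonneg _)
      _ ≤ X * (ε / 8 * Y * vol H) := by gcongr
      _ = ε / 8 * Y * X * vol H := by ring
  calc ∑ h ∈ Box H, ∑ N ∈ Icc 1 Y, |T0 h N - T5 h N|
      ≤ ∑ h ∈ Box H, ∑ N ∈ Icc 1 Y, (|T0 h N - T1 h N| + |T1 h N - T2 h N| + |T2 h N - T3 h N| +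
          |T3 h N - T4 h N| + |T4 h N - T5 h N|) := by
        refine Finset.sum_le_sum fun h _ => Finset.sum_le_sum fun N _ => ?_
        have a1 := abs_sub_le (T0 h N) (T1 h N) (T5 h N)
        have a2 := abs_sub_le (T1 h N) (T2 h N) (T5 h N)
        have a3 := abs_sub_le (T2 h N) (T3 h N) (T5 h N)
        have a4 := abs_sub_le (T3 h N) (T4 h N) (T5 h N)
        linarith
    _ = (∑ h ∈ Box H, ∑ N ∈ Icc 1 Y, |T0 h N - T1 h N|) +
        (∑ h ∈ Box H, ∑ N ∈ Icc 1 Y, |T1 h N - T2 h N|) +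
        (∑ h ∈ Box H, ∑ N ∈ Icc 1 Y, |T2 h N - T3 h N|) +
        (∑ h ∈ Box H, ∑ N ∈ Icc 1 Y, |T3 h N - T4 h N|) +
        (∑ h ∈ Box H, ∑ N ∈ Icc 1 Y, |T4 h N - T5 h N|) := by
        simp only [Finset.sum_add_distrib]
    _ ≤ ε / 8 * Y * X * vol H + ε / 8 * Y * X * vol H + ε / 8 * Y * X * vol H +
        ε / 4 * Y * X * vol H + ε / 8 * Y * X * vol H :=
        add_le_add (add_le_add (add_le_add (add_le_add s01 s12) s23) s34) s45
    _ ≤ ε * Y * X * vol H := by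
        have : 0 ≤ ε * Y * X * vol H := by positivity
        linarith

end Pool.Agent.Lib.H59X
end

-- from Lib.H59X.Z1
section

/-!
# Chunk Z1: the formula in the mean over the shifts, for every `N` (`G` linear)
-/

open Finset Polynomial

namespace Pool.Agent.Lib.H59X

open Pool.Agent.Lib.H59 (argSet argCount Admissible primeCount omegaN seriesTrunc rootCount)
open Pool.Agent.Lib.H68T (lp)
open Pool.Agent.Lib.H33B (Lq Lw PW SieveWt)

theorem z1_card {g : ℕ} (H : Fin g → ℕ) : ((Box H).card : ℝ) = vol H := by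
  unfold Box vol
  rw [Fintype.card_piFinset]
  push_cast
  refine Finset.prod_congr rfl fun i _ => ?_
  rw [Nat.card_Icc, Nat.add_sub_cancel]

theorem z1_bas (A : ℕ) (G : ℤ[X]) (hG : G.natDegree = 1) (hA : G.leadingCoeff.natAbs ≤ A) (N : ℕ) :
    Bas A 1 (C (N : ℤ) - G) := by
  have h1 : (C (N : ℤ)).natDegree < G.natDegree := by
    rw [natDegree_C, hG]
    exact one_pos
  have h2 : (C (N : ℤ) - G).natDegree = 1 := by
    rw [natDegree_sub_eq_right_of_natDegree_lt h1, hG]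
  refine Or.inr ⟨rfl, h2, ?_⟩
  have h3 : (C (N : ℤ) - G).leadingCoeff = -G.leadingCoeff := by
    unfold leadingCoeff
    rw [h2, hG, coeff_sub, coeff_C_ne_zero one_ne_zero, zero_sub]
  rw [h3, Int.natAbs_neg]
  exact hA

theorem z1_pol {g : ℕ} (P : Fin g → ℤ[X]) (hP : ∀ i, 1 ≤ (P i).natDegree) (c : ℕ) :
    ∃ A : ℕ, 1 ≤ A ∧ c ≤ A ∧ Pol A P := by
  refine ⟨1 + c + ∑ i, ((P i).natDegree + (P i).leadingCoeff.natAbs), by omega, by omega, ?_⟩
  have h : ∀ i, (P i).natDegree + (P i).leadingCoeff.natAbs ≤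
      ∑ i, ((P i).natDegree + (P i).leadingCoeff.natAbs) := fun i =>
    Finset.single_le_sum (f := fun i => (P i).natDegree + (P i).leadingCoeff.natAbs)
      (fun _ _ => Nat.zero_le _) (Finset.mem_univ i)
  exact ⟨hP, fun i => by have := h i; omega, fun i => by have := h i; omega⟩

/-- Proof. `X = argCount G N`, `B = C N - G` (`Bas A 1 B` for `A ≥ lc G, deg P_i, lc P_i`; `|B.coeff 0| ≤ N + |b| ≤ X²` for large `N`). Choose `W ≥ W₀ + lc G + 1` with `C/√W ≤ ε/4` (`mix_box`), then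
`u` from `replace P … (ε/4) W`, `U = max W (sup u)`, `z₀ = W`. For `z ≥ z₀` and large `N` (so that all `H_i ≥ X^(deg P_i)/C₁ ≥ H₀`, and all for large `X` hold; `argCount G N → ∞`,
`H59.argCount_tendsto`), in the mean over `h ∈ Box H` (each step costs `(ε/4) X vol H`):
`(∏ d_i) L^(g+1) cntF` → `∑_{n ≤ X} bw ∏ lp` (`count_fix` with the `C₂` of `bch_two`, `bch_two` with the `η` of `count_fix`) → `∑_{n ≤ X} bw ∏ Lw (u i)` (`replace`, `ψ = 1`) → `X · mixv`
(`per_sum`, `beq_two` with `η = ε/(4 (PW U)^(g+1))`) → `X · ssz` (`mix_box`). -/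
theorem l1_fix {g : ℕ} (G : ℤ[X]) (hG : G.natDegree = 1) (hlc : 0 < G.leadingCoeff)
    (P : Fin g → ℤ[X]) (hP : ∀ i, 1 ≤ (P i).natDegree) (hl : ∀ i, 0 < (P i).leadingCoeff)
    (C₁ : ℝ) (hC₁ : 1 ≤ C₁) (ε : ℝ) (hε : 0 < ε) :
    ∃ z₀ : ℕ, ∀ z : ℕ, z₀ ≤ z → ∃ N₀ : ℕ, ∀ N : ℕ, N₀ ≤ N → ∀ H : Fin g → ℕ,
    Fit C₁ (argCount G N) P H →
    ∑ h ∈ Box H, |(∏ i, ((P i).natDegree : ℝ)) * Real.log (argCount G N) ^ (g + 1) *
        cntF 1 (C (N : ℤ) - G) P h (argCount G N) -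
      argCount G N * ssz (1 + g) (QQ (C (N : ℤ) - G) P h) z| ≤ ε * argCount G N * vol H := by
  obtain ⟨A, hA, hcA, hPol⟩ := z1_pol P hP G.leadingCoeff.natAbs
  obtain ⟨K, W₀, hK, hmix⟩ := mix_box g A
  have hε4 : 0 < ε / 4 := by positivity
  obtain ⟨W, hWdef⟩ : ∃ W : ℕ, W = max (W₀ + G.leadingCoeff.natAbs + 1) ⌈(4 * K / ε) ^ 2⌉₊ :=
    ⟨_, rfl⟩
  have hW1 : W₀ + G.leadingCoeff.natAbs + 1 ≤ W := by rw [hWdef]; exact le_max_left _ _
  have hW2 : (4 * K / ε) ^ 2 ≤ W := by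
    refine (Nat.le_ceil _).trans ?_
    rw [hWdef]
    exact_mod_cast le_max_right _ _
  have hWpos : (0 : ℝ) < W := by
    have : 0 < W := by omega
    exact_mod_cast this
  have hKW : K / Real.sqrt W ≤ ε / 4 := by
    have h1 : 4 * K / ε ≤ Real.sqrt W := Real.le_sqrt_of_sq_le hW2
    have h2 : 0 < Real.sqrt W := Real.sqrt_pos.2 hWpos
    rw [div_le_iff₀ h2]
    rw [div_le_iff₀ hε] at h1
    linarith
  obtain ⟨u, hWu, X₂, hrep⟩ := replace P A hA hPol hl C₁ hC₁ (ε / 4) hε4 W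
  obtain ⟨U, hUdef⟩ : ∃ U : ℕ, U = max W (Finset.univ.sup u) := ⟨_, rfl⟩
  have hWU : W ≤ U := by rw [hUdef]; exact le_max_left _ _
  have huU : ∀ i, u i ≤ U := fun i => by
    rw [hUdef]
    exact (Finset.le_sup (f := u) (Finset.mem_univ i)).trans (le_max_right _ _)
  have hGU : G.leadingCoeff < U := by
    have : G.leadingCoeff.natAbs < U := by omega
    omega
  refine ⟨W, fun z hz => ?_⟩
  obtain ⟨H₀, hH₀⟩ := hmix W U z u (by omega) (fun i => ⟨hWu i, huU i⟩) hWU hz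
  obtain ⟨C₂, hC₂, hbch⟩ := bch_two G hG hlc
  obtain ⟨η₁, hη₁, X₁, hcount⟩ := count_fix P hP hl C₁ hC₁ C₂ (ε / 4) hε4
  obtain ⟨N₁, hN₁⟩ := hbch η₁ hη₁
  have hPW : (0 : ℝ) < (PW U : ℝ) ^ (g + 1) := by
    have h1 : 0 < PW U := by
      unfold PW
      exact Finset.prod_pos fun p hp => (Nat.prime_of_mem_primesBelow hp).pos
    positivity
  obtain ⟨η₂, hη₂def⟩ : ∃ η₂ : ℝ, η₂ = ε / 4 / (PW U : ℝ) ^ (g + 1) := ⟨_, rfl⟩
  have hη₂ : 0 < η₂ := by rw [hη₂def]; positivity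
  obtain ⟨N₂, hN₂⟩ := beq_two G hG hlc U hGU η₂ hη₂
  obtain ⟨m, hm⟩ : ∃ m : ℕ, m = max (max X₁ X₂) (max ⌈C₁ * H₀⌉₊
      ⌈4 * Pool.Agent.Lib.H59.coeffSum G⌉₊) := ⟨_, rfl⟩
  obtain ⟨N₃, hN₃⟩ := Pool.Agent.Lib.H57M.Q1_two G hG.ge hlc m
  refine ⟨max (max N₁ N₂) (max N₃ (G.coeff 0).natAbs), fun N hN H hfit => ?_⟩
  have hNa : N₁ ≤ N := ((le_max_left _ _).trans (le_max_left _ _)).trans hN
  have hNb : N₂ ≤ N := ((le_max_right _ _).trans (le_max_left _ _)).trans hN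
  have hNc : N₃ ≤ N := ((le_max_left _ _).trans (le_max_right _ _)).trans hN
  have hNd : (G.coeff 0).natAbs ≤ N := ((le_max_right _ _).trans (le_max_right _ _)).trans hN
  obtain ⟨g1, g2, -, g4⟩ := hN₃ N hNc
  rw [hG, pow_one, pow_one] at g4
  obtain ⟨X, hX⟩ : ∃ X : ℕ, X = argCount G N := ⟨_, rfl⟩
  have hb1 := hN₁ N hNa
  have hb2 := hN₂ N hNb
  rw [← hX] at hfit g1 g2 g4 hb1 hb2
  rw [← hX]
  obtain ⟨B, hBdef⟩ : ∃ B : ℤ[X], B = C (N : ℤ) - G := ⟨_, rfl⟩
  have hbas : Bas A 1 B := by rw [hBdef]; exact z1_bas A G hG hcA N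
  rw [← hBdef] at hb1 hb2
  rw [← hBdef]
  have hX1 : X₁ ≤ X := by
    refine le_trans ?_ g2
    rw [hm]
    exact (le_max_left _ _).trans (le_max_left _ _)
  have hX2 : X₂ ≤ X := by
    refine le_trans ?_ g2
    rw [hm]
    exact (le_max_right _ _).trans (le_max_left _ _)
  have hX3 : C₁ * H₀ ≤ X := by
    refine (Nat.le_ceil _).trans ?_
    have : ⌈C₁ * (H₀ : ℝ)⌉₊ ≤ X := by
      refine le_trans ?_ g2
      rw [hm]
      exact (le_max_left _ _).trans (le_max_right _ _)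
    exact_mod_cast this
  have hX4 : 4 * Pool.Agent.Lib.H59.coeffSum G ≤ X := by
    refine (Nat.le_ceil _).trans ?_
    have : ⌈4 * Pool.Agent.Lib.H59.coeffSum G⌉₊ ≤ X := by
      refine le_trans ?_ g2
      rw [hm]
      exact (le_max_right _ _).trans (le_max_right _ _)
    exact_mod_cast this
  have hXR : (1 : ℝ) ≤ X := by exact_mod_cast g1
  have hHi : ∀ i, H₀ ≤ H i := by
    intro i
    have h1 := hfit.lo i
    have h2 : (X : ℝ) ≤ (X : ℝ) ^ (P i).natDegree := le_self_pow₀ hXR (by have := hP i; omega)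
    have h3 : C₁ * (H₀ : ℝ) ≤ C₁ * H i := hX3.trans (h2.trans h1)
    have h4 : (H₀ : ℝ) ≤ H i := le_of_mul_le_mul_left h3 (by linarith)
    exact_mod_cast h4
  have hB0 : |(B.coeff 0 : ℝ)| ≤ (X : ℝ) ^ 2 := by
    have h1 : B.coeff 0 = N - G.coeff 0 := by
      rw [hBdef, coeff_sub, coeff_C_zero]
    have h2 : |B.coeff 0| ≤ 2 * N := by
      rw [h1]
      have h3 : |G.coeff 0| ≤ N := by
        rw [Int.abs_eq_natAbs]
        exact_mod_cast hNd
      have h4 := abs_sub (N : ℤ) (G.coeff 0)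
      have h5 : |(N : ℤ)| = N := abs_of_nonneg (Nat.cast_nonneg _)
      rw [h5] at h4
      linarith
    have h3 : |(B.coeff 0 : ℝ)| ≤ 2 * N := by exact_mod_cast h2
    refine h3.trans ?_
    have h4 := mul_le_mul_of_nonneg_right hX4 (by linarith : (0 : ℝ) ≤ X)
    nlinarith
  have s1 := hcount X hX1 H hfit 1 B hb1
  have s2 := hrep X hX2 H hfit 1 B hbas hB0 (fun _ => 1) (fun _ => ⟨zero_le_one, le_rfl⟩)
  have s3 : ∀ h : Fin g → ℕ, |∑ n ∈ Icc 1 X, bw 1 B n * ∏ i, Lw (u i) ((P i).eval (n : ℤ) + h i) -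
      X * mixv 1 B P u U h| ≤ ε / 4 * X := by
    intro h
    refine (per_sum 1 B P u U X η₂ huU hb2 X le_rfl h).trans (le_of_eq ?_)
    rw [hη₂def]
    field_simp
  have s4 := hH₀ H hHi P hPol 1 B hbas
  have s3' : ∑ h ∈ Box H, |∑ n ∈ Icc 1 X, bw 1 B n *
      ∏ i, Lw (u i) ((P i).eval (n : ℤ) + h i) - X * mixv 1 B P u U h| ≤ ε / 4 * X * vol H := by
    refine (Finset.sum_le_sum fun h _ => s3 h).trans (le_of_eq ?_)
    rw [Finset.sum_const, nsmul_eq_mul, z1_card]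
    ring
  have hvol : 0 ≤ vol H := by
    unfold vol
    exact Finset.prod_nonneg fun i _ => Nat.cast_nonneg _
  have s4' : ∑ h ∈ Box H, |X * mixv 1 B P u U h - X * ssz (1 + g) (QQ B P h) z| ≤
      ε / 4 * X * vol H := by
    have e : ∑ h ∈ Box H, |X * mixv 1 B P u U h - X * ssz (1 + g) (QQ B P h) z| =
        X * ∑ h ∈ Box H, |mixv 1 B P u U h - ssz (1 + g) (QQ B P h) z| := by
      rw [Finset.mul_sum]
      refine Finset.sum_congr rfl fun h _ => ?_
      rw [← mul_sub, abs_mul, abs_of_nonneg (by linarith : (0 : ℝ) ≤ X)]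
    rw [e]
    have h1 : K / Real.sqrt W * vol H ≤ ε / 4 * vol H := mul_le_mul_of_nonneg_right hKW hvol
    have h2 := mul_le_mul_of_nonneg_left (s4.trans h1) (by linarith : (0 : ℝ) ≤ X)
    refine h2.trans (le_of_eq ?_)
    ring
  have s2' : ∑ h ∈ Box H, |∑ n ∈ Icc 1 X, bw 1 B n * ∏ i, lp ((P i).eval (n : ℤ) + h i) -
      ∑ n ∈ Icc 1 X, bw 1 B n * ∏ i, Lw (u i) ((P i).eval (n : ℤ) + h i)| ≤
      ε / 4 * X * vol H := by
    refine le_trans (le_of_eq ?_) s2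
    refine Finset.sum_congr rfl fun h _ => ?_
    rw [← Finset.sum_sub_distrib]
    congr 1
    refine Finset.sum_congr rfl fun n _ => ?_
    ring
  calc _ ≤ ∑ h ∈ Box H, (|(∏ i, ((P i).natDegree : ℝ)) * Real.log X ^ (g + 1) * cntF 1 B P h X -
      ∑ n ∈ Icc 1 X, bw 1 B n * ∏ i, lp ((P i).eval (n : ℤ) + h i)| +
      |∑ n ∈ Icc 1 X, bw 1 B n * ∏ i, lp ((P i).eval (n : ℤ) + h i) -
      ∑ n ∈ Icc 1 X, bw 1 B n * ∏ i, Lw (u i) ((P i).eval (n : ℤ) + h i)| +
      |∑ n ∈ Icc 1 X, bw 1 B n * ∏ i, Lw (u i) ((P i).eval (n : ℤ) + h i) -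
        X * mixv 1 B P u U h| + |X * mixv 1 B P u U h - X * ssz (1 + g) (QQ B P h) z|) := by
        apply Finset.sum_le_sum
        intro h _
        have h1 := abs_sub_le ((∏ i, ((P i).natDegree : ℝ)) * Real.log X ^ (g + 1) *
          cntF 1 B P h X) (X * mixv 1 B P u U h) (X * ssz (1 + g) (QQ B P h) z)
        have h2 := abs_sub_le ((∏ i, ((P i).natDegree : ℝ)) * Real.log X ^ (g + 1) *
          cntF 1 B P h X) (∑ n ∈ Icc 1 X, bw 1 B n * ∏ i, Lw (u i) ((P i).eval (n : ℤ) + h i))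
          (X * mixv 1 B P u U h)
        have h3 := abs_sub_le ((∏ i, ((P i).natDegree : ℝ)) * Real.log X ^ (g + 1) *
          cntF 1 B P h X) (∑ n ∈ Icc 1 X, bw 1 B n * ∏ i, lp ((P i).eval (n : ℤ) + h i))
          (∑ n ∈ Icc 1 X, bw 1 B n * ∏ i, Lw (u i) ((P i).eval (n : ℤ) + h i))
        linarith
    _ ≤ ε / 4 * X * vol H + ε / 4 * X * vol H + ε / 4 * X * vol H + ε / 4 * X * vol H := by
        rw [Finset.sum_add_distrib, Finset.sum_add_distrib, Finset.sum_add_distrib]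
        exact add_le_add (add_le_add (add_le_add s1 s2') s3') s4'
    _ = ε * X * vol H := by ring

end Pool.Agent.Lib.H59X
end

-- from Lib.H59X.Z3
section

/-!
# Chunk Z3: the exceptional shifts, for every `N` (`G` linear)
-/

open Finset Polynomial

namespace Pool.Agent.Lib.H59X

open Pool.Agent.Lib.H59 (argSet argCount Admissible primeCount omegaN seriesTrunc rootCount)
open Pool.Agent.Lib.H68T (lp)
open Pool.Agent.Lib.H33B (Lq Lw PW SieveWt)

theorem z3_pr (m : ℤ) : m.toNat.Prime ↔ ∃ q : ℕ, q.Prime ∧ m = q := by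
  constructor
  · intro h
    refine ⟨m.toNat, h, ?_⟩
    have h1 := h.pos
    omega
  · rintro ⟨q, hq, rfl⟩
    rwa [Int.toNat_natCast]

theorem z3_eval {g : ℕ} (P : Fin g → ℤ[X]) (h : Fin g → ℕ) (i : Fin g) (n : ℤ) :
    (fam P h i).eval n = (P i).eval n + h i := by
  unfold fam
  rw [eval_add, eval_C]

/-- Proof. For `N ≥ N₀`: `argSet G N = [1, argCount G N]` (`H57M.argSet_eq`); `∃ q prime, m = q` iff `m.toNat` is prime; a sum of products of indicators. -/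
theorem primeCount_fix {g : ℕ} (G : ℤ[X]) (hG : 1 ≤ G.natDegree) (hlc : 0 < G.leadingCoeff) :
    ∃ N₀ : ℕ, ∀ N : ℕ, N₀ ≤ N → ∀ (P : Fin g → ℤ[X]) (h : Fin g → ℕ),
    (primeCount (fam P h) G N : ℝ) = cntF 1 (C (N : ℤ) - G) P h (argCount G N) := by
  classical
  obtain ⟨N₀, hN₀⟩ := H57M.argSet_eq G hG hlc
  refine ⟨N₀, fun N hN P h => ?_⟩
  have e : {n : ℕ | n ∈ argSet G N ∧ (∀ i, ∃ q : ℕ, q.Prime ∧ (fam P h i).eval (n : ℤ) = q) ∧
      ∃ q : ℕ, q.Prime ∧ (N : ℤ) - G.eval (n : ℤ) = q} =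
      ((Icc 1 (argCount G N)).filter fun n : ℕ => (((C (N : ℤ) - G).eval (n : ℤ)).toNat.Prime ∧
        ∀ i ∈ (univ : Finset (Fin g)), ((P i).eval (n : ℤ) + h i).toNat.Prime) : Finset ℕ) := by
    ext n
    rw [Finset.mem_coe, mem_filter, mem_Icc, Set.mem_ofPred_eq, hN₀ N hN n]
    simp only [z3_eval, z3_pr, eval_sub, eval_C, mem_univ, true_implies]
    constructor
    · rintro ⟨h1, h2, h3⟩
      exact ⟨h1, h3, h2⟩
    · rintro ⟨h1, h3, h2⟩
      exact ⟨h1, h2, h3⟩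
  unfold primeCount
  rw [e, Set.ncard_coe_finset, Finset.card_filter]
  unfold cntF
  push_cast
  refine sum_congr rfl fun n _ => ?_
  unfold pb pr
  rw [if_neg one_ne_zero, prod_ite_zero, prod_const_one]
  by_cases h1 : (((C (N : ℤ) - G).eval (n : ℤ)).toNat.Prime)
  · by_cases h2 : ∀ i ∈ (univ : Finset (Fin g)), ((P i).eval (n : ℤ) + h i).toNat.Prime
    · rw [if_pos ⟨h1, h2⟩, if_pos h1, if_pos h2, one_mul]
    · rw [if_neg (fun h => h2 h.2), if_neg h2, mul_zero]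
  · rw [if_neg (fun h => h1 h.1), if_neg h1, zero_mul]

/-- Proof. `omegaN F G N p = rootCount ((∏ F)(C N - G)) p`; commutativity. -/
theorem series_fix {g : ℕ} (P : Fin g → ℤ[X]) (G : ℤ[X]) (h : Fin g → ℕ) (N z : ℕ) :
    seriesTrunc (fam P h) G N z = ssz (1 + g) (QQ (C (N : ℤ) - G) P h) z := by
  unfold seriesTrunc ssz
  refine prod_congr rfl fun p _ => ?_
  have h1 : omegaN (fam P h) G N p = rootCount (QQ (C (N : ℤ) - G) P h) p := by
    unfold omegaN rootCount QQ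
    rw [mul_comm]
  rw [h1, add_comm g 1]

/-- Proof. If `p < z` and `omegaN = p` then `p` divides all values. -/
theorem series_pos {g : ℕ} (F : Fin g → ℤ[X]) (G : ℤ[X]) (N z : ℕ) (h : Admissible F G N) :
    0 < seriesTrunc F G N z := by
  unfold seriesTrunc
  refine prod_pos fun p hp => ?_
  have hpp : p.Prime := Nat.prime_of_mem_primesBelow hp
  have hp2 : (2 : ℝ) ≤ p := by exact_mod_cast hpp.two_le
  have hp0 : (0 : ℝ) < p := by linarith
  have h1 : (0 : ℝ) < 1 - 1 / (p : ℝ) := by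
    rw [sub_pos, div_lt_one hp0]
    linarith
  have h2 : omegaN F G N p < p := by
    by_contra hcon
    push Not at hcon
    have h3 : omegaN F G N p ≤ p := by
      unfold omegaN
      exact (card_filter_le _ _).trans (by rw [card_range])
    have h4 : ((range p).filter fun a : ℕ =>
        (p : ℤ) ∣ ((∏ i, F i) * (C (N : ℤ) - G)).eval (a : ℤ)) = range p := by
      apply eq_of_subset_of_card_le (filter_subset _ _)
      rw [card_range]
      exact hcon
    refine h.2 p hpp fun n => ?_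
    have hpz : (0 : ℤ) < p := by exact_mod_cast hpp.pos
    have h5 : (n % p).toNat ∈ range p := by
      rw [mem_range]
      have := Int.emod_lt_of_pos n hpz
      have := Int.emod_nonneg n hpz.ne'
      omega
    rw [← h4, mem_filter] at h5
    have h6 := h5.2
    have h7 : (((n % p).toNat : ℕ) : ℤ) = n % p := Int.toNat_of_nonneg (Int.emod_nonneg n hpz.ne')
    rw [h7] at h6
    have h8 : n - n % p ∣ ((∏ i, F i) * (C (N : ℤ) - G)).eval n - ((∏ i, F i) * (C (N : ℤ) - G)).eval (n % p) :=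
      sub_dvd_eval_sub _ _ _
    have h9 : (p : ℤ) ∣ n - n % p := Int.dvd_self_sub_emod
    exact (dvd_iff_dvd_of_dvd_sub (h9.trans h8)).2 h6
  have h3 : (omegaN F G N p : ℝ) < p := by exact_mod_cast h2
  have h4 : (0 : ℝ) < 1 - (omegaN F G N p : ℝ) / p := by
    rw [sub_pos, div_lt_one hp0]
    exact h3
  positivity

open Classical in
/-- Proof. `X = argCount G N`, `L = log X`, `mainT (fam P h) G N = X/L^(g+1)/∏ d_i` (`natDegree_add_C`, `deg G = 1`), the same for all `h`. Write `s(h) = seriesTrunc = ssz`. The `h` of the filter have `s(h) > 0`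
(`series_pos`) and `|(∏ d_i) L^(g+1) cntF - X s| > ε X s`. With `σ` such that `C σ ≤ ε/2` (`inv_box`, `Bas A 1 (C N - G)`): at most `(ε/2) vol H` of them have `s < σ`; the others are at most
`ε' X vol H/(ε X σ)` by `l1_fix` with `ε' = ε² σ/2`. -/
theorem exc_fix {g : ℕ} (G : ℤ[X]) (hG : G.natDegree = 1) (hlc : 0 < G.leadingCoeff)
    (P : Fin g → ℤ[X]) (hP : ∀ i, 1 ≤ (P i).natDegree) (hl : ∀ i, 0 < (P i).leadingCoeff)
    (C₁ : ℝ) (hC₁ : 1 ≤ C₁) (ε : ℝ) (hε : 0 < ε) :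
    ∃ z₀ : ℕ, ∀ z : ℕ, z₀ ≤ z → ∃ N₀ : ℕ, ∀ N : ℕ, N₀ ≤ N → ∀ H : Fin g → ℕ,
    Fit C₁ (argCount G N) P H →
    (((Box H).filter (fun h => Admissible (fam P h) G N ∧
      ε * (H33B.mainT (fam P h) G N * seriesTrunc (fam P h) G N z) <
        |(primeCount (fam P h) G N : ℝ) -
          H33B.mainT (fam P h) G N * seriesTrunc (fam P h) G N z|)).card : ℝ) ≤ ε * vol H := by
  obtain ⟨A, hA⟩ : ∃ A : ℕ, A = (∑ i, ((P i).natDegree + (P i).leadingCoeff.natAbs)) + G.leadingCoeff.natAbs := ⟨_, rfl⟩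
  have hAi : ∀ i, (P i).natDegree + (P i).leadingCoeff.natAbs ≤ A := by
    intro i
    have h1 := single_le_sum (f := fun i => (P i).natDegree + (P i).leadingCoeff.natAbs) (fun _ _ => Nat.zero_le _) (mem_univ i)
    omega
  have hPol : Pol A P := ⟨hP, fun i => by have := hAi i; omega, fun i => by have := hAi i; omega⟩
  obtain ⟨K, hK, hinv⟩ := inv_box g A
  obtain ⟨σ, hσ⟩ : ∃ σ : ℝ, σ = ε / (2 * K) := ⟨_, rfl⟩
  have hσ0 : 0 < σ := by rw [hσ]; positivity
  obtain ⟨z₀, hz₀⟩ := l1_fix G hG hlc P hP hl C₁ hC₁ (ε ^ 2 * σ / 2) (by positivity)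
  refine ⟨z₀, fun z hz => ?_⟩
  obtain ⟨N₀, hN₀⟩ := hz₀ z hz
  obtain ⟨H₀, hH₀⟩ := hinv z
  obtain ⟨N₁, hN₁⟩ := primeCount_fix (g := g) G hG.ge hlc
  have htend := Pool.Agent.Lib.H59.argCount_tendsto hG.ge hlc
  obtain ⟨N₂, hN₂⟩ := Filter.eventually_atTop.1 (htend.eventually_ge_atTop (max 3 ⌈C₁ * H₀⌉₊))
  refine ⟨max N₀ (max N₁ N₂), fun N hN H hH => ?_⟩
  have hNa : N₀ ≤ N := (le_max_left _ _).trans hN
  have hNb : N₁ ≤ N := (le_max_left _ _).trans ((le_max_right _ _).trans hN)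
  have hNc := hN₂ N ((le_max_right _ _).trans ((le_max_right _ _).trans hN))
  obtain ⟨X, hX⟩ : ∃ X : ℕ, X = argCount G N := ⟨_, rfl⟩
  rw [← hX] at hNc hH
  have hX3 : 3 ≤ X := (le_max_left _ _).trans hNc
  have hXH : C₁ * H₀ ≤ X := (Nat.le_ceil _).trans (by exact_mod_cast (le_max_right _ _).trans hNc)
  have hX0 : (0 : ℝ) < X := by exact_mod_cast (by omega : 0 < X)
  have hX1 : (1 : ℝ) ≤ X := by exact_mod_cast (by omega : 1 ≤ X)
  have hL0 : 0 < Real.log X := Real.log_pos (by exact_mod_cast (by omega : 1 < X))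
  have hHi : ∀ i, H₀ ≤ H i := by
    intro i
    have h1 := hH.lo i
    have h2 : (X : ℝ) ≤ (X : ℝ) ^ (P i).natDegree := le_self_pow₀ hX1 (by have := hP i; omega)
    have h3 : C₁ * (H₀ : ℝ) ≤ C₁ * H i := hXH.trans (h2.trans h1)
    have h4 : (H₀ : ℝ) ≤ H i := le_of_mul_le_mul_left h3 (by linarith)
    exact_mod_cast h4
  have hD0 : (0 : ℝ) < ∏ i, ((P i).natDegree : ℝ) := prod_pos fun i _ => by exact_mod_cast hP i
  obtain ⟨D, hD⟩ : ∃ D : ℝ, D = ∏ i, ((P i).natDegree : ℝ) := ⟨_, rfl⟩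
  rw [← hD] at hD0
  have hmain : ∀ h, H33B.mainT (fam P h) G N = X / Real.log X ^ (g + 1) * D⁻¹ := by
    intro h
    unfold H33B.mainT
    have h1 : ∀ i, (fam P h i).natDegree = (P i).natDegree := fun i => by
      unfold fam
      exact natDegree_add_C
    simp only [h1, hG, ← hX, Nat.cast_one, one_mul, ← hD]
  have hvol0 : 0 ≤ vol H := by
    unfold vol
    positivity
  have hsum := hN₀ N hNa H (by rw [← hX]; exact hH)
  rw [← hX, ← hD] at hsum
  have hdeg : (C (N : ℤ) - G).natDegree = 1 := by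
    rw [sub_eq_neg_add, natDegree_add_C, natDegree_neg, hG]
  have hB : Bas A 1 (C (N : ℤ) - G) := by
    refine Or.inr ⟨rfl, hdeg, ?_⟩
    have h1 : (C (N : ℤ) - G).leadingCoeff = -G.leadingCoeff := by
      unfold leadingCoeff
      rw [hdeg, hG, coeff_sub, coeff_C, if_neg one_ne_zero, zero_sub]
    rw [h1, Int.natAbs_neg, hA]
    omega
  have hbox := hH₀ H hHi P hPol 1 _ hB σ hσ0
  obtain ⟨E, hE⟩ : ∃ E : Finset (Fin g → ℕ), E = (Box H).filter (fun h => Admissible (fam P h) G N ∧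
      ε * (H33B.mainT (fam P h) G N * seriesTrunc (fam P h) G N z) <
        |(primeCount (fam P h) G N : ℝ) -
          H33B.mainT (fam P h) G N * seriesTrunc (fam P h) G N z|) := ⟨_, rfl⟩
  rw [← hE]
  obtain ⟨S, hS⟩ : ∃ S : (Fin g → ℕ) → ℝ, S = fun h => ssz (1 + g) (QQ (C (N : ℤ) - G) P h) z := ⟨_, rfl⟩
  obtain ⟨T, hT⟩ : ∃ T : (Fin g → ℕ) → ℝ, T = fun h => D * Real.log X ^ (g + 1) * cntF 1 (C (N : ℤ) - G) P h X := ⟨_, rfl⟩
  have hkey : ∀ h ∈ E, 0 < S h ∧ ε * X * S h < |T h - X * S h| := by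
    intro h hh
    rw [hE, mem_filter] at hh
    obtain ⟨-, hadm, hlt⟩ := hh
    have h1 := series_pos (fam P h) G N z hadm
    rw [series_fix] at h1
    rw [series_fix, hmain, hN₁ N hNb P h, ← hX] at hlt
    have hSh : ssz (1 + g) (QQ (C (N : ℤ) - G) P h) z = S h := by rw [hS]
    rw [hSh] at h1 hlt
    refine ⟨h1, ?_⟩
    have hM : (0 : ℝ) < D * Real.log X ^ (g + 1) := by positivity
    have h2 := mul_lt_mul_of_pos_left hlt hM
    have h3 : D * Real.log X ^ (g + 1) * (ε * (X / Real.log X ^ (g + 1) * D⁻¹ * S h)) = ε * X * S h := by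
      field_simp
    have h4 : D * Real.log X ^ (g + 1) * |cntF 1 (C (N : ℤ) - G) P h X - X / Real.log X ^ (g + 1) * D⁻¹ * S h| =
        |T h - X * S h| := by
      have h6 : T h - X * S h = D * Real.log X ^ (g + 1) * (cntF 1 (C (N : ℤ) - G) P h X - X / Real.log X ^ (g + 1) * D⁻¹ * S h) := by
        rw [hT]
        field_simp
      rw [h6, abs_mul, abs_of_pos hM]
    rwa [h3, h4] at h2
  have hsplit : E ⊆ ((Box H).filter (fun h => 0 < ssz (1 + g) (QQ (C (N : ℤ) - G) P h) z ∧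
      ssz (1 + g) (QQ (C (N : ℤ) - G) P h) z < σ)) ∪ E.filter (fun h => σ ≤ S h) := by
    intro h hh
    rw [mem_union, mem_filter, mem_filter]
    rcases lt_or_ge (S h) σ with h1 | h1
    · refine Or.inl ⟨?_, ?_, ?_⟩
      · rw [hE, mem_filter] at hh
        exact hh.1
      · have h2 := (hkey h hh).1
        rw [hS] at h2
        exact h2
      · rw [hS] at h1
        exact h1
    · exact Or.inr ⟨hh, h1⟩
  have hcard : (E.card : ℝ) ≤ K * σ * vol H + ((E.filter (fun h => σ ≤ S h)).card : ℝ) := by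
    have h1 := (card_le_card hsplit).trans (card_union_le _ _)
    have h2 : (E.card : ℝ) ≤ (((Box H).filter (fun h => 0 < ssz (1 + g) (QQ (C (N : ℤ) - G) P h) z ∧
      ssz (1 + g) (QQ (C (N : ℤ) - G) P h) z < σ)).card : ℝ) + ((E.filter (fun h => σ ≤ S h)).card : ℝ) := by
      exact_mod_cast h1
    linarith
  have hlarge : ((E.filter (fun h => σ ≤ S h)).card : ℝ) * (ε * X * σ) ≤ ε ^ 2 * σ / 2 * X * vol H := by
    refine le_trans ?_ hsum
    have h1 : ((E.filter (fun h => σ ≤ S h)).card : ℝ) * (ε * X * σ) ≤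
        ∑ h ∈ E.filter (fun h => σ ≤ S h), |T h - X * S h| := by
      rw [← nsmul_eq_mul]
      refine card_nsmul_le_sum _ _ _ fun h hh => ?_
      rw [mem_filter] at hh
      refine le_trans ?_ (hkey h hh.1).2.le
      exact mul_le_mul_of_nonneg_left hh.2 (by positivity)
    refine h1.trans ?_
    have h2 : E.filter (fun h => σ ≤ S h) ⊆ Box H := by
      refine (filter_subset _ _).trans ?_
      rw [hE]
      exact filter_subset _ _
    have h3 := sum_le_sum_of_subset_of_nonneg (f := fun h => |T h - X * S h|) h2 (fun _ _ _ => abs_nonneg _)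
    refine h3.trans (le_of_eq ?_)
    rw [hT, hS]
  have hfin : ((E.filter (fun h => σ ≤ S h)).card : ℝ) ≤ ε / 2 * vol H := by
    have h1 : (0 : ℝ) < ε * X * σ := by positivity
    have h2 : ε ^ 2 * σ / 2 * X * vol H = (ε / 2 * vol H) * (ε * X * σ) := by ring
    rw [h2] at hlarge
    exact le_of_mul_le_mul_right hlarge h1
  have hKσ : K * σ = ε / 2 := by
    rw [hσ]
    field_simp
  rw [hKσ] at hcard
  linarith

end Pool.Agent.Lib.H59X
end

-- from Lib.H59X.Z4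
section

/-!
# Chunk Z4: the exceptional pairs `(N, h)`
-/

open Finset Polynomial

namespace Pool.Agent.Lib.H59X

open Pool.Agent.Lib.H59 (argSet argCount Admissible primeCount omegaN seriesTrunc rootCount)
open Pool.Agent.Lib.H68T (lp)
open Pool.Agent.Lib.H33B (Lq Lw PW SieveWt)

/-- The main term for `g + r + 1` polynomials. -/
noncomputable def mT {g : ℕ} (P : Fin g → ℤ[X]) (r : ℕ) (G : ℤ[X]) (N : ℕ) : ℝ :=
  (argCount G N : ℝ) / Real.log (argCount G N) ^ (g + r + 1) *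
    ((G.natDegree : ℝ) * ∏ i, ((P i).natDegree : ℝ))⁻¹

theorem z4_QQ {g : ℕ} (B : ℤ[X]) (P : Fin g → ℤ[X]) (G : ℤ[X]) (h : Fin g → ℕ) (N : ℕ) :
    QQ B (Fin.cons (-G) P : Fin (g + 1) → ℤ[X]) (Fin.cons N h) = QQ B P h * (C (N : ℤ) - G) := by
  unfold QQ
  rw [Fin.prod_univ_succ]
  have h1 : fam (Fin.cons (-G) P : Fin (g + 1) → ℤ[X]) (Fin.cons N h) 0 = C (N : ℤ) - G := by
    unfold fam
    rw [Fin.cons_zero, Fin.cons_zero]
    ring
  have h2 : ∀ i : Fin g, fam (Fin.cons (-G) P : Fin (g + 1) → ℤ[X]) (Fin.cons N h) i.succ = fam P h i := by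
    intro i
    unfold fam
    rw [Fin.cons_succ, Fin.cons_succ]
  rw [h1, prod_congr rfl fun i _ => h2 i]
  ring

theorem z4_cardBox {g : ℕ} (H : Fin g → ℕ) : ((Box H).card : ℝ) = vol H := by
  unfold Box vol
  rw [Fintype.card_piFinset]
  push_cast
  refine prod_congr rfl fun i _ => ?_
  rw [Nat.card_Icc, Nat.add_sub_cancel]

theorem z4_vol {g : ℕ} (H : Fin g → ℕ) (Y : ℕ) : vol (Fin.cons Y H : Fin (g + 1) → ℕ) = Y * vol H := by
  unfold vol
  rw [Fin.prod_univ_succ, Fin.cons_zero]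
  simp only [Fin.cons_succ]

/-- The sizes of `argCount G N` for `δ Y ≤ N ≤ Y`, and their logarithms. -/
theorem z4_size (G : ℤ[X]) (hG : 1 ≤ G.natDegree) (hlc : 0 < G.leadingCoeff) (m : ℕ) (δ ε : ℝ)
    (hδ0 : 0 < δ) (hδ1 : δ ≤ 1) (hε : 0 < ε) (M : ℕ) :
    ∃ Y₀ : ℕ, ∀ Y : ℕ, Y₀ ≤ Y → M ≤ argCount G Y ∧ ∀ N : ℕ, N ≤ Y → δ * Y ≤ N →
      M ≤ argCount G N ∧ δ / 4 * argCount G Y ≤ argCount G N ∧ argCount G N ≤ argCount G Y ∧
      1 ≤ (Real.log (argCount G Y) / Real.log (argCount G N)) ^ m ∧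
      (Real.log (argCount G Y) / Real.log (argCount G N)) ^ m ≤ 1 + ε := by
  have hlc1 : (1 : ℝ) ≤ G.leadingCoeff := by exact_mod_cast hlc
  obtain ⟨Y₁, hmono⟩ := H33B.AC_mono G hG hlc
  have hpow := H33B.argCount_pow G hG hlc
  obtain ⟨a, ha⟩ : ∃ a : ℝ, a = ((G.leadingCoeff : ℝ))⁻¹ := ⟨_, rfl⟩
  rw [← ha] at hpow
  have ha0 : 0 < a := by rw [ha]; positivity
  obtain ⟨Y₂, hY₂⟩ := Filter.eventually_atTop.1 ((hpow.eventually_const_lt (show a / 2 < a by linarith)).and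
    (hpow.eventually_lt_const (show a < 2 * a by linarith)))
  have htend := Pool.Agent.Lib.H59.argCount_tendsto hG hlc
  obtain ⟨Y₃, hY₃⟩ := Filter.eventually_atTop.1 (htend.eventually_ge_atTop (max 3 M))
  -- the logarithms
  have hlog : Filter.Tendsto (fun t : ℝ => (t / (t + Real.log (δ / 4))) ^ m) Filter.atTop (nhds 1) := by
    have h1 : Filter.Tendsto (fun t : ℝ => t / (t + Real.log (δ / 4))) Filter.atTop (nhds 1) := by
      have h2 : Filter.Tendsto (fun t : ℝ => 1 - Real.log (δ / 4) / (t + Real.log (δ / 4))) Filter.atTop (nhds (1 - 0)) := by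
        refine tendsto_const_nhds.sub ?_
        exact (Filter.tendsto_atTop_add_const_right _ _ Filter.tendsto_id).const_div_atTop _
      rw [sub_zero] at h2
      refine h2.congr' ?_
      filter_upwards [Filter.eventually_gt_atTop (-Real.log (δ / 4))] with t ht
      have h3 : t + Real.log (δ / 4) ≠ 0 := by linarith
      field_simp
      ring
    have h2 := h1.pow m
    rwa [one_pow] at h2
  have hlogX : Filter.Tendsto (fun Y : ℕ => Real.log (argCount G Y)) Filter.atTop Filter.atTop :=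
    Real.tendsto_log_atTop.comp (tendsto_natCast_atTop_atTop.comp htend)
  obtain ⟨Y₄, hY₄⟩ := Filter.eventually_atTop.1 (((hlog.comp hlogX).eventually_lt_const
    (show (1 : ℝ) < 1 + ε by linarith)).and (hlogX.eventually_gt_atTop (-Real.log (δ / 4))))
  refine ⟨max (max Y₁ Y₄) ⌈((max Y₂ Y₃ : ℕ) : ℝ) / δ⌉₊, fun Y hY => ?_⟩
  have hYa : Y₁ ≤ Y := (le_max_left _ _).trans ((le_max_left _ _).trans hY)
  have hYb : Y₄ ≤ Y := (le_max_right _ _).trans ((le_max_left _ _).trans hY)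
  have hYc : ((max Y₂ Y₃ : ℕ) : ℝ) / δ ≤ Y := (Nat.le_ceil _).trans (by exact_mod_cast (le_max_right _ _).trans hY)
  have hNall : ∀ N : ℕ, δ * Y ≤ N → Y₂ ≤ N ∧ Y₃ ≤ N := by
    intro N hN
    rw [div_le_iff₀ hδ0] at hYc
    have h1 : ((max Y₂ Y₃ : ℕ) : ℝ) ≤ N := by linarith
    have h2 : max Y₂ Y₃ ≤ N := by exact_mod_cast h1
    exact ⟨(le_max_left _ _).trans h2, (le_max_right _ _).trans h2⟩
  have hYY : δ * Y ≤ Y := by
    have : (0 : ℝ) ≤ Y := Nat.cast_nonneg _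
    nlinarith
  obtain ⟨hY2, hY3⟩ := hNall Y hYY
  refine ⟨(le_max_right _ _).trans (hY₃ Y hY3), fun N hNY hN => ?_⟩
  obtain ⟨hN2, hN3⟩ := hNall N hN
  have hle : argCount G N ≤ argCount G Y := hmono N Y hYa hNY
  have hx3 : 3 ≤ argCount G N := (le_max_left _ _).trans (hY₃ N hN3)
  obtain ⟨hp1, -⟩ := hY₂ N hN2
  obtain ⟨-, hp2⟩ := hY₂ Y hY2
  obtain ⟨x, hx⟩ : ∃ x : ℕ, x = argCount G N := ⟨_, rfl⟩
  obtain ⟨X, hX⟩ : ∃ X : ℕ, X = argCount G Y := ⟨_, rfl⟩
  obtain ⟨hl1, hl2⟩ := hY₄ Y hYb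
  simp only [Function.comp_apply] at hl1
  rw [← hx] at hle hx3 hp1 ⊢
  rw [← hX] at hle hp2 hl1 hl2 ⊢
  have hxpos : (0 : ℝ) < x := by exact_mod_cast (by omega : 0 < x)
  have hXx : (x : ℝ) ≤ X := by exact_mod_cast hle
  have hYpos : (0 : ℝ) < Y := by
    rcases Nat.eq_zero_or_pos Y with h0 | h0
    · rw [h0, Nat.cast_zero, div_zero] at hp2
      rw [h0] at hNY
      have h4 : N = 0 := by omega
      rw [h4, Nat.cast_zero, div_zero] at hp1
      linarith
    · exact_mod_cast h0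
  have hNpos : (0 : ℝ) < N := lt_of_lt_of_le (by positivity) hN
  have hbd : δ / 4 * X ≤ x := by
    by_contra hcon
    push Not at hcon
    have hX0 : (0 : ℝ) ≤ X := Nat.cast_nonneg _
    rw [lt_div_iff₀ hNpos] at hp1
    rw [div_lt_iff₀ hYpos] at hp2
    have h1 : (x : ℝ) ^ G.natDegree ≤ (δ / 4 * X) ^ G.natDegree := pow_le_pow_left₀ hxpos.le hcon.le _
    rw [mul_pow] at h1
    have h2 : (δ / 4) ^ G.natDegree ≤ δ / 4 := pow_le_of_le_one (by positivity) (by linarith) (by omega)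
    have h3 : (δ / 4) ^ G.natDegree * (X : ℝ) ^ G.natDegree ≤ δ / 4 * (X : ℝ) ^ G.natDegree :=
      mul_le_mul_of_nonneg_right h2 (by positivity)
    have h4 : δ / 4 * (X : ℝ) ^ G.natDegree < δ / 4 * (2 * a * Y) := mul_lt_mul_of_pos_left hp2 (by positivity)
    have h5 : a / 2 * (δ * Y) ≤ a / 2 * N := mul_le_mul_of_nonneg_left hN (by positivity)
    nlinarith
  have hlx : 0 < Real.log x := Real.log_pos (by exact_mod_cast (by omega : 1 < x))
  have hlxX : Real.log x ≤ Real.log X := Real.log_le_log hxpos hXx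
  have hXpos : (0 : ℝ) < X := hxpos.trans_le hXx
  have hlow : Real.log X + Real.log (δ / 4) ≤ Real.log x := by
    rw [add_comm, ← Real.log_mul (by positivity) (by positivity)]
    exact Real.log_le_log (by positivity) hbd
  refine ⟨(le_max_right _ _).trans (by rw [hx]; exact hY₃ N hN3), hbd, hle, ?_, ?_⟩
  · exact one_le_pow₀ ((one_le_div hlx).2 hlxX)
  · refine le_trans ?_ hl1.le
    refine pow_le_pow_left₀ (by positivity) ?_ m
    exact div_le_div_of_nonneg_left (hlx.le.trans hlxX) (by linarith) hlow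

open Classical in
/-- Proof. `X = argCount G Y`, `L = log X`, `X_N = argCount G N`, `m = g + r + 1`, `s = ssz …`. Let `δ = ε/4`; the `N < δ Y` give at most `(ε/4) Y vol H` pairs (for large `Y`, `#{N < δ Y} ≤ δ Y`; `#Box H = vol H`).
For `N ≥ δ Y` and large `Y`: `c X ≤ X_N ≤ X` with `c = c(δ) > 0` (`H33B.argCount_pow`), and `ρ = (L/log X_N)^m ∈ [1, 1 + ε/4]` (`log X_N ≥ L + log c`; if `ε > 1` replace `ε` by `1` first: the statement is weaker for larger
`ε`). Multiplying by `k ∏ d_i L^m`, a pair of the filter satisfies `|T - ρ X_N s| > ε ρ X_N s` with `T = k ∏ d_i L^m cntN`, hence `|T - X_N s| > (ε ρ - (ρ - 1)) X_N s ≥ (ε/2) X_N s`.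
By `inv_box` for the family `Fin.cons (-G) P` and the box `Fin.cons Y H` (as in `mix_box_N`) at most `(ε/4) Y vol H` pairs have `0 < s < σ` (`C σ ≤ ε/4`); for the others the left hand side is `> (ε/2) c X σ`, and `l1_avg` with
`ε' = (ε/4)(ε/2) c σ` bounds their number by `(ε/4) Y vol H`. (`Bas' r B` gives `Bas A r B` for large `A`.) -/
theorem exc_avg {g : ℕ} (G : ℤ[X]) (hG : 1 ≤ G.natDegree) (hlc : 0 < G.leadingCoeff)
    (P : Fin g → ℤ[X]) (hP : ∀ i, 1 ≤ (P i).natDegree) (hl : ∀ i, 0 < (P i).leadingCoeff)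
    (r : ℕ) (B : ℤ[X]) (hB : Bas' r B) (C₁ : ℝ) (hC₁ : 1 ≤ C₁) (ε : ℝ) (hε : 0 < ε) :
    ∃ z₀ : ℕ, ∀ z : ℕ, z₀ ≤ z → ∃ Y₀ : ℕ, ∀ Y : ℕ, Y₀ ≤ Y → ∀ H : Fin g → ℕ,
    Fit C₁ (argCount G Y) P H →
    (((Icc 1 Y ×ˢ Box H).filter (fun x : ℕ × (Fin g → ℕ) =>
      0 < ssz (r + g + 1) (QQ B P x.2 * (C (x.1 : ℤ) - G)) z ∧
      ε * (mT P r G x.1 * ssz (r + g + 1) (QQ B P x.2 * (C (x.1 : ℤ) - G)) z) <
        |cntN r B P G x.2 x.1 (argCount G Y) -
          mT P r G x.1 * ssz (r + g + 1) (QQ B P x.2 * (C (x.1 : ℤ) - G)) z|)).card : ℝ) ≤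
      ε * Y * vol H := by
  -- we may assume `ε ≤ 1`
  suffices hmain : ∀ ε : ℝ, 0 < ε → ε ≤ 1 → ∃ z₀ : ℕ, ∀ z : ℕ, z₀ ≤ z → ∃ Y₀ : ℕ, ∀ Y : ℕ, Y₀ ≤ Y → ∀ H : Fin g → ℕ,
      Fit C₁ (argCount G Y) P H →
      (((Icc 1 Y ×ˢ Box H).filter (fun x : ℕ × (Fin g → ℕ) =>
        0 < ssz (r + g + 1) (QQ B P x.2 * (C (x.1 : ℤ) - G)) z ∧
        ε * (mT P r G x.1 * ssz (r + g + 1) (QQ B P x.2 * (C (x.1 : ℤ) - G)) z) <
          |cntN r B P G x.2 x.1 (argCount G Y) -
            mT P r G x.1 * ssz (r + g + 1) (QQ B P x.2 * (C (x.1 : ℤ) - G)) z|)).card : ℝ) ≤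
        ε * Y * vol H by
    obtain ⟨z₀, hz₀⟩ := hmain (min ε 1) (lt_min hε one_pos) (min_le_right _ _)
    refine ⟨z₀, fun z hz => ?_⟩
    obtain ⟨Y₀, hY₀⟩ := hz₀ z hz
    refine ⟨Y₀, fun Y hY H hH => ?_⟩
    have hv : 0 ≤ (Y : ℝ) * vol H := by unfold vol; positivity
    have h1 : min ε 1 * Y * vol H ≤ ε * Y * vol H := by
      rw [mul_assoc, mul_assoc]
      exact mul_le_mul_of_nonneg_right (min_le_left _ _) hv
    refine le_trans (Nat.cast_le.2 (card_le_card fun x hx => ?_)) ((hY₀ Y hY H hH).trans h1)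
    rw [mem_filter] at hx ⊢
    refine ⟨hx.1, hx.2.1, lt_of_le_of_lt ?_ hx.2.2⟩
    refine mul_le_mul_of_nonneg_right (min_le_left _ _) ?_
    refine mul_nonneg ?_ hx.2.1.le
    unfold mT
    have := Real.log_natCast_nonneg (argCount G x.1)
    positivity
  intro ε hε hε1
  obtain ⟨A, hA⟩ : ∃ A : ℕ, A = (∑ i, ((P i).natDegree + (P i).leadingCoeff.natAbs)) + G.leadingCoeff.natAbs +
      G.natDegree + B.leadingCoeff.natAbs := ⟨_, rfl⟩
  have hAi : ∀ i, (P i).natDegree + (P i).leadingCoeff.natAbs ≤ A := by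
    intro i
    have h1 := single_le_sum (f := fun i => (P i).natDegree + (P i).leadingCoeff.natAbs) (fun _ _ => Nat.zero_le _) (mem_univ i)
    omega
  have hPol : Pol A (Fin.cons (-G) P : Fin (g + 1) → ℤ[X]) := by
    refine ⟨fun i => ?_, fun i => ?_, fun i => ?_⟩
    · refine Fin.cases ?_ (fun j => ?_) i
      · rw [Fin.cons_zero, natDegree_neg]
        exact hG
      · rw [Fin.cons_succ]
        exact hP j
    · refine Fin.cases ?_ (fun j => ?_) i
      · rw [Fin.cons_zero, natDegree_neg]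
        omega
      · rw [Fin.cons_succ]
        have := hAi j
        omega
    · refine Fin.cases ?_ (fun j => ?_) i
      · rw [Fin.cons_zero, leadingCoeff_neg, Int.natAbs_neg]
        omega
      · rw [Fin.cons_succ]
        have := hAi j
        omega
  have hBas : Bas A r B := by
    rcases hB with ⟨h1, h2⟩ | ⟨h1, h2, h3⟩
    · exact Or.inl ⟨h1, h2⟩
    · exact Or.inr ⟨h1, h2, by omega⟩
  obtain ⟨K, hK, hinv⟩ := inv_box (g + 1) A
  obtain ⟨δ, hδ⟩ : ∃ δ : ℝ, δ = ε / 4 := ⟨_, rfl⟩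
  have hδ0 : 0 < δ := by rw [hδ]; positivity
  have hδ1 : δ ≤ 1 := by rw [hδ]; linarith
  obtain ⟨σ, hσ⟩ : ∃ σ : ℝ, σ = ε / (4 * K) := ⟨_, rfl⟩
  have hσ0 : 0 < σ := by rw [hσ]; positivity
  obtain ⟨z₀, hz₀⟩ := l1_avg G hG hlc P hP hl r B hB C₁ hC₁ (ε / 4 * (ε / 2 * (δ / 4) * σ)) (by positivity)
  refine ⟨z₀, fun z hz => ?_⟩
  obtain ⟨Y₀, hY₀⟩ := hz₀ z hz
  obtain ⟨H₀, hH₀⟩ := hinv z
  obtain ⟨Y₁, hY₁⟩ := z4_size G hG hlc (g + r + 1) δ (ε / 4) hδ0 hδ1 (by positivity) (max 3 ⌈C₁ * H₀⌉₊)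
  refine ⟨max (max Y₀ Y₁) H₀, fun Y hY H hH => ?_⟩
  have hYa : Y₀ ≤ Y := (le_max_left _ _).trans ((le_max_left _ _).trans hY)
  have hYb : Y₁ ≤ Y := (le_max_right _ _).trans ((le_max_left _ _).trans hY)
  have hYc : H₀ ≤ Y := (le_max_right _ _).trans hY
  obtain ⟨hXM, hsize⟩ := hY₁ Y hYb
  have hsum := hY₀ Y hYa H hH
  obtain ⟨X, hX⟩ : ∃ X : ℕ, X = argCount G Y := ⟨_, rfl⟩
  rw [← hX] at hXM hH hsize hsum ⊢
  have hX3 : 3 ≤ X := (le_max_left _ _).trans hXM
  have hXH : C₁ * H₀ ≤ X := (Nat.le_ceil _).trans (by exact_mod_cast (le_max_right _ _).trans hXM)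
  have hX0 : (0 : ℝ) < X := by exact_mod_cast (by omega : 0 < X)
  have hX1 : (1 : ℝ) ≤ X := by exact_mod_cast (by omega : 1 ≤ X)
  have hL0 : 0 < Real.log X := Real.log_pos (by exact_mod_cast (by omega : 1 < X))
  have hHi : ∀ i, H₀ ≤ H i := by
    intro i
    have h1 := hH.lo i
    have h2 : (X : ℝ) ≤ (X : ℝ) ^ (P i).natDegree := le_self_pow₀ hX1 (by have := hP i; omega)
    have h3 : C₁ * (H₀ : ℝ) ≤ C₁ * H i := hXH.trans (h2.trans h1)
    have h4 : (H₀ : ℝ) ≤ H i := le_of_mul_le_mul_left h3 (by linarith)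
    exact_mod_cast h4
  have hk0 : (0 : ℝ) < G.natDegree := by exact_mod_cast hG
  have hD0' : (0 : ℝ) < ∏ i, ((P i).natDegree : ℝ) := prod_pos fun i _ => by exact_mod_cast hP i
  obtain ⟨D, hD⟩ : ∃ D : ℝ, D = (G.natDegree : ℝ) * ∏ i, ((P i).natDegree : ℝ) := ⟨_, rfl⟩
  have hD0 : 0 < D := by rw [hD]; positivity
  have hmT : ∀ N, mT P r G N = (argCount G N : ℝ) / Real.log (argCount G N) ^ (g + r + 1) * D⁻¹ := by
    intro N
    unfold mT
    rw [hD]
  have hvol0 : 0 ≤ vol H := by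
    unfold vol
    positivity
  rw [← hD] at hsum
  have hbox := hH₀ (Fin.cons Y H : Fin (g + 1) → ℕ) (fun i => by
    refine Fin.cases ?_ (fun j => ?_) i
    · rw [Fin.cons_zero]
      exact hYc
    · rw [Fin.cons_succ]
      exact hHi j) _ hPol r B hBas σ hσ0
  rw [z4_vol] at hbox
  obtain ⟨S, hS⟩ : ∃ S : ℕ × (Fin g → ℕ) → ℝ, S = fun x => ssz (r + g + 1) (QQ B P x.2 * (C (x.1 : ℤ) - G)) z := ⟨_, rfl⟩
  obtain ⟨T, hT⟩ : ∃ T : ℕ × (Fin g → ℕ) → ℝ, T = fun x => D * Real.log X ^ (g + r + 1) * cntN r B P G x.2 x.1 X := ⟨_, rfl⟩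
  obtain ⟨E, hE⟩ : ∃ E : Finset (ℕ × (Fin g → ℕ)), E = (Icc 1 Y ×ˢ Box H).filter (fun x : ℕ × (Fin g → ℕ) =>
        0 < ssz (r + g + 1) (QQ B P x.2 * (C (x.1 : ℤ) - G)) z ∧
        ε * (mT P r G x.1 * ssz (r + g + 1) (QQ B P x.2 * (C (x.1 : ℤ) - G)) z) <
          |cntN r B P G x.2 x.1 X -
            mT P r G x.1 * ssz (r + g + 1) (QQ B P x.2 * (C (x.1 : ℤ) - G)) z|) := ⟨_, rfl⟩
  rw [← hE]
  have hEsub : E ⊆ Icc 1 Y ×ˢ Box H := by
    rw [hE]
    exact filter_subset _ _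
  have hkey : ∀ x ∈ E, δ * Y ≤ x.1 → 0 < S x ∧ ε / 2 * (δ / 4 * X) * S x < |T x - argCount G x.1 * S x| := by
    intro x hx hxδ
    have hxY : x.1 ≤ Y := (mem_Icc.1 (mem_product.1 (hEsub hx)).1).2
    rw [hE, mem_filter] at hx
    obtain ⟨-, h1, hlt⟩ := hx
    obtain ⟨hM1, hcX, -, hρ1, hρ2⟩ := hsize x.1 hxY hxδ
    have hxn3 : 3 ≤ argCount G x.1 := (le_max_left _ _).trans hM1
    have hlx : 0 < Real.log (argCount G x.1) := Real.log_pos (by exact_mod_cast (by omega : 1 < argCount G x.1))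
    have hSx : ssz (r + g + 1) (QQ B P x.2 * (C (x.1 : ℤ) - G)) z = S x := by rw [hS]
    rw [hSx] at h1 hlt
    rw [hmT] at hlt
    refine ⟨h1, ?_⟩
    obtain ⟨ρ, hρ⟩ : ∃ ρ : ℝ, ρ = (Real.log X / Real.log (argCount G x.1)) ^ (g + r + 1) := ⟨_, rfl⟩
    rw [← hρ] at hρ1 hρ2
    obtain ⟨n, hn⟩ : ∃ n : ℝ, n = (argCount G x.1 : ℝ) := ⟨_, rfl⟩
    have hMpos : (0 : ℝ) < D * Real.log X ^ (g + r + 1) := by positivity
    have h2 := mul_lt_mul_of_pos_left hlt hMpos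
    have h5 : D * Real.log X ^ (g + r + 1) *
        ((argCount G x.1 : ℝ) / Real.log (argCount G x.1) ^ (g + r + 1) * D⁻¹ * S x) = ρ * n * S x := by
      rw [hρ, hn, div_pow]
      field_simp
    have h3 : D * Real.log X ^ (g + r + 1) *
        (ε * ((argCount G x.1 : ℝ) / Real.log (argCount G x.1) ^ (g + r + 1) * D⁻¹ * S x)) = ε * (ρ * n * S x) := by
      rw [← h5]
      ring
    have h4 : D * Real.log X ^ (g + r + 1) * |cntN r B P G x.2 x.1 X -
        (argCount G x.1 : ℝ) / Real.log (argCount G x.1) ^ (g + r + 1) * D⁻¹ * S x| =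
        |T x - ρ * n * S x| := by
      have h6 : T x = D * Real.log X ^ (g + r + 1) * cntN r B P G x.2 x.1 X := by rw [hT]
      rw [h6, ← h5, ← mul_sub, abs_mul, abs_of_pos hMpos]
    rw [h3, h4] at h2
    rw [← hn] at hcX ⊢
    have hn0 : 0 < n := by
      rw [hn]
      exact_mod_cast (by omega : 0 < argCount G x.1)
    have h7 : |T x - ρ * n * S x| ≤ |T x - n * S x| + (ρ - 1) * n * S x := by
      have h8 : T x - ρ * n * S x = (T x - n * S x) - (ρ - 1) * n * S x := by ring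
      rw [h8]
      refine (abs_sub _ _).trans (le_of_eq ?_)
      rw [abs_of_nonneg (a := (ρ - 1) * n * S x) (mul_nonneg (mul_nonneg (by linarith) hn0.le) h1.le)]
    have h9 : 0 < n * S x := mul_pos hn0 h1
    have h10 : ε / 2 * (δ / 4 * X) * S x ≤ ε / 2 * (n * S x) := by
      rw [mul_assoc]
      exact mul_le_mul_of_nonneg_left (mul_le_mul_of_nonneg_right hcX h1.le) (by positivity)
    have h11 : ε * (n * S x) ≤ ε * (ρ * n * S x) := by
      have h12 : n * S x ≤ ρ * n * S x := by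
        rw [mul_assoc]
        exact le_mul_of_one_le_left h9.le hρ1
      exact mul_le_mul_of_nonneg_left h12 hε.le
    have h13 : (ρ - 1) * n * S x ≤ ε / 4 * (n * S x) := by
      rw [mul_assoc]
      exact mul_le_mul_of_nonneg_right (by linarith) h9.le
    have h14 : 0 < ε * (n * S x) := mul_pos hε h9
    linarith
  -- the three parts
  obtain ⟨E1, hE1⟩ : ∃ E1 : Finset (ℕ × (Fin g → ℕ)), E1 = E.filter (fun x => (x.1 : ℝ) < δ * Y) := ⟨_, rfl⟩
  obtain ⟨E2, hE2⟩ : ∃ E2 : Finset (ℕ × (Fin g → ℕ)), E2 = E.filter (fun x => δ * Y ≤ x.1 ∧ S x < σ) := ⟨_, rfl⟩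
  obtain ⟨E3, hE3⟩ : ∃ E3 : Finset (ℕ × (Fin g → ℕ)), E3 = E.filter (fun x => δ * Y ≤ x.1 ∧ σ ≤ S x) := ⟨_, rfl⟩
  have hsplit : E ⊆ E1 ∪ (E2 ∪ E3) := by
    intro x hx
    rw [mem_union, mem_union, hE1, hE2, hE3, mem_filter, mem_filter, mem_filter]
    rcases lt_or_ge (x.1 : ℝ) (δ * Y) with h1 | h1
    · exact Or.inl ⟨hx, h1⟩
    · rcases lt_or_ge (S x) σ with h2 | h2
      · exact Or.inr (Or.inl ⟨hx, h1, h2⟩)
      · exact Or.inr (Or.inr ⟨hx, h1, h2⟩)
  have hcard : (E.card : ℝ) ≤ E1.card + (E2.card + E3.card) := by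
    have h1 := (card_le_card hsplit).trans ((card_union_le _ _).trans (Nat.add_le_add_left (card_union_le _ _) _))
    exact_mod_cast h1
  have hc1 : (E1.card : ℝ) ≤ δ * Y * vol H := by
    have h1 : E1 ⊆ Icc 1 ⌊δ * Y⌋₊ ×ˢ Box H := by
      intro x hx
      rw [hE1, mem_filter] at hx
      have h2 := mem_product.1 (hEsub hx.1)
      rw [mem_product, mem_Icc]
      exact ⟨⟨(mem_Icc.1 h2.1).1, Nat.le_floor hx.2.le⟩, h2.2⟩
    have h2 : (E1.card : ℝ) ≤ ((⌊δ * Y⌋₊ : ℕ) : ℝ) * vol H := by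
      rw [← z4_cardBox]
      have h3 := card_le_card h1
      rw [card_product, Nat.card_Icc, Nat.add_sub_cancel] at h3
      exact_mod_cast h3
    refine h2.trans (mul_le_mul_of_nonneg_right (Nat.floor_le (by positivity)) hvol0)
  have hc2 : (E2.card : ℝ) ≤ K * σ * (Y * vol H) := by
    refine le_trans (Nat.cast_le.2 ?_) hbox
    refine card_le_card_of_injOn (fun x => (Fin.cons x.1 x.2 : Fin (g + 1) → ℕ)) ?_ ?_
    · intro x hx
      rw [Finset.mem_coe, hE2, mem_filter] at hx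
      have h2 := mem_product.1 (hEsub hx.1)
      have h3 := (hkey x hx.1 hx.2.1).1
      have h4 := hx.2.2
      rw [hS] at h3 h4
      simp only at h3 h4
      show (Fin.cons x.1 x.2 : Fin (g + 1) → ℕ) ∈ _
      rw [Finset.mem_coe, mem_filter]
      refine ⟨?_, ?_, ?_⟩
      · unfold Box
        rw [Fintype.mem_piFinset]
        intro i
        refine Fin.cases ?_ (fun j => ?_) i
        · rw [Fin.cons_zero, Fin.cons_zero]
          exact h2.1
        · rw [Fin.cons_succ, Fin.cons_succ]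
          exact (Fintype.mem_piFinset.1 h2.2) j
      · rw [z4_QQ, ← add_assoc]
        exact h3
      · rw [z4_QQ, ← add_assoc]
        exact h4
    · intro x _ y _ hxy
      have h1 := congrFun hxy 0
      simp only [Fin.cons_zero] at h1
      refine Prod.ext h1 (funext fun j => ?_)
      have h2 := congrFun hxy j.succ
      simp only [Fin.cons_succ] at h2
      exact h2
  have hc3 : (E3.card : ℝ) ≤ ε / 4 * (Y * vol H) := by
    have h1 : (E3.card : ℝ) * (ε / 2 * (δ / 4 * X) * σ) ≤ ∑ x ∈ E3, |T x - argCount G x.1 * S x| := by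
      rw [← nsmul_eq_mul]
      refine card_nsmul_le_sum _ _ _ fun x hx => ?_
      rw [hE3, mem_filter] at hx
      refine le_trans ?_ (hkey x hx.1 hx.2.1).2.le
      exact mul_le_mul_of_nonneg_left hx.2.2 (by positivity)
    have h2 : E3 ⊆ Icc 1 Y ×ˢ Box H := by
      rw [hE3]
      exact (filter_subset _ _).trans hEsub
    have h3 := sum_le_sum_of_subset_of_nonneg (f := fun x : ℕ × (Fin g → ℕ) => |T x - argCount G x.1 * S x|) h2
      (fun _ _ _ => abs_nonneg _)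
    rw [sum_product_right] at h3
    have h4 : ∑ h ∈ Box H, ∑ N ∈ Icc 1 Y, |T (N, h) - argCount G N * S (N, h)| ≤
        ε / 4 * (ε / 2 * (δ / 4) * σ) * Y * X * vol H := by
      refine le_trans (le_of_eq ?_) hsum
      rw [hT, hS]
    have h5 := h1.trans (h3.trans h4)
    have h6 : (0 : ℝ) < ε / 2 * (δ / 4 * X) * σ := by positivity
    have h7 : ε / 4 * (ε / 2 * (δ / 4) * σ) * Y * X * vol H =
        (ε / 4 * (Y * vol H)) * (ε / 2 * (δ / 4 * X) * σ) := by ring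
    rw [h7] at h5
    exact le_of_mul_le_mul_right h5 h6
  have hKσ : K * σ = ε / 4 := by
    rw [hσ]
    field_simp
  rw [hKσ] at hc2
  have hYv : 0 ≤ (Y : ℝ) * vol H := by positivity
  have h1 : δ * Y * vol H = ε / 4 * (Y * vol H) := by
    rw [hδ]
    ring
  rw [h1] at hc1
  have h2 : ε * Y * vol H = ε * (Y * vol H) := by ring
  rw [h2]
  nlinarith

end Pool.Agent.Lib.H59X
end

-- from Lib.H59X.Z5
section

/-!
# Chunk Z5: `Q_1(N)` and the singular series of the final theorems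
-/

open Finset Polynomial

namespace Pool.Agent.Lib.H59X

open Pool.Agent.Lib.H59 (argSet argCount Admissible primeCount omegaN seriesTrunc rootCount)
open Pool.Agent.Lib.H68T (lp)
open Pool.Agent.Lib.H33B (Lq Lw PW SieveWt)

theorem Z5_pr (m : ℤ) : (∃ q : ℕ, q.Prime ∧ m = q) ↔ m.toNat.Prime := by
  constructor
  · rintro ⟨q, hq, rfl⟩
    rwa [Int.toNat_natCast]
  · intro h
    exact ⟨m.toNat, h, by have := h.pos; omega⟩

theorem Z5_prod {m : ℕ} (F : Fin m → ℤ[X]) (n : ℕ) :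
    ∏ i, pr ((F i).eval (n : ℤ)) =
      if ∀ i, ((F i).eval (n : ℤ)).toNat.Prime then 1 else 0 := by
  classical
  unfold pr
  rw [Finset.prod_ite_zero]
  simp only [prod_const_one, mem_univ, true_implies]

theorem Z5_count {m : ℕ} (G : ℤ[X]) (hG : 1 ≤ G.natDegree) (hlc : 0 < G.leadingCoeff) :
    ∃ Y₀ : ℕ, ∀ Y N : ℕ, Y₀ ≤ Y → N ≤ Y → ∀ F : Fin m → ℤ[X],
    (primeCount F G N : ℝ) = ∑ n ∈ (Icc 1 (argCount G Y)).filter (fun n : ℕ => G.eval (n : ℤ) < N),
      (∏ i, pr ((F i).eval (n : ℤ))) * pr ((N : ℤ) - G.eval (n : ℤ)) := by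
  classical
  obtain ⟨Y₀, hY₀⟩ := H57M.argSet_eq G hG hlc
  refine ⟨Y₀, fun Y N hY hN F => ?_⟩
  have hset : {n : ℕ | n ∈ argSet G N ∧ (∀ i, ∃ q : ℕ, q.Prime ∧ (F i).eval (n : ℤ) = q) ∧
      ∃ q : ℕ, q.Prime ∧ (N : ℤ) - G.eval (n : ℤ) = q} =
      (((Icc 1 (argCount G Y)).filter (fun n : ℕ => G.eval (n : ℤ) < N)).filter (fun n : ℕ =>
        (∀ i, ((F i).eval (n : ℤ)).toNat.Prime) ∧
        ((N : ℤ) - G.eval (n : ℤ)).toNat.Prime) : Finset ℕ) := by
    ext n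
    simp only [Set.mem_setOf_eq, coe_filter, mem_filter, mem_Icc, Z5_pr]
    constructor
    · rintro ⟨h1, h2⟩
      have h3 : n ∈ argSet G Y := by
        obtain ⟨a, b⟩ := h1
        exact ⟨a, by omega⟩
      have h4 := (hY₀ Y hY n).1 h3
      refine ⟨⟨h4, ?_⟩, h2⟩
      have := h1.2
      omega
    · rintro ⟨⟨h1, h2⟩, h3⟩
      refine ⟨⟨by omega, by omega⟩, h3⟩
  unfold Pool.Agent.Lib.H59.primeCount
  rw [hset, Set.ncard_coe_finset, card_filter]
  push_cast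
  refine sum_congr rfl fun n _ => ?_
  rw [Z5_prod]
  unfold pr
  by_cases h1 : ∀ i, ((F i).eval (n : ℤ)).toNat.Prime
  · by_cases h2 : ((N : ℤ) - G.eval (n : ℤ)).toNat.Prime
    · rw [if_pos ⟨h1, h2⟩, if_pos h1, if_pos h2, one_mul]
    · rw [if_neg (fun h => h2 h.2), if_pos h1, if_neg h2, one_mul]
  · rw [if_neg (fun h => h1 h.1), if_neg h1, zero_mul]

theorem Z5_fam {g : ℕ} (P : Fin g → ℤ[X]) (h : Fin g → ℕ) (i : Fin g) (n : ℕ) :
    (fam P h i).eval (n : ℤ) = (P i).eval (n : ℤ) + h i := by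
  unfold fam
  rw [eval_add, eval_C]

/-- Proof. For large `Y` and `N ≤ Y`: `argSet G N ⊆ argSet G Y = [1, argCount G Y]` (`H57M.argSet_eq`), so `argSet G N = {n ≤ argCount G Y : G(n) < N}`; indicators as in `primeCount_fix`. -/
theorem primeCount_zero {g : ℕ} (G : ℤ[X]) (hG : 1 ≤ G.natDegree) (hlc : 0 < G.leadingCoeff) :
    ∃ Y₀ : ℕ, ∀ Y N : ℕ, Y₀ ≤ Y → N ≤ Y → ∀ (P : Fin g → ℤ[X]) (h : Fin g → ℕ),
    (primeCount (fam P h) G N : ℝ) = cntN 0 1 P G h N (argCount G Y) := by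
  obtain ⟨Y₀, hY₀⟩ := Z5_count (m := g) G hG hlc
  refine ⟨Y₀, fun Y N hY hN P h => ?_⟩
  rw [hY₀ Y N hY hN]
  unfold cntN pb
  refine sum_congr rfl fun n _ => ?_
  simp only [Z5_fam, if_true, one_mul]

/-- Proof. As `primeCount_zero`; `Fin.forall_fin_succ`. -/
theorem primeCount_one {g : ℕ} (G : ℤ[X]) (hG : 1 ≤ G.natDegree) (hlc : 0 < G.leadingCoeff) :
    ∃ Y₀ : ℕ, ∀ Y N : ℕ, Y₀ ≤ Y → N ≤ Y → ∀ (B : ℤ[X]) (P : Fin g → ℤ[X]) (h : Fin g → ℕ),
    (primeCount (Fin.cons B (fam P h) : Fin (g + 1) → ℤ[X]) G N : ℝ) =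
      cntN 1 B P G h N (argCount G Y) := by
  obtain ⟨Y₀, hY₀⟩ := Z5_count (m := g + 1) G hG hlc
  refine ⟨Y₀, fun Y N hY hN B P h => ?_⟩
  rw [hY₀ Y N hY hN]
  unfold cntN pb
  refine sum_congr rfl fun n _ => ?_
  rw [Fin.prod_univ_succ]
  simp only [Fin.cons_zero, Fin.cons_succ, Z5_fam, one_ne_zero, if_false]

/-- Proof. `omegaN F G N p = rootCount ((∏ F)(C N - G)) p`. -/
theorem series_zero {g : ℕ} (P : Fin g → ℤ[X]) (G : ℤ[X]) (h : Fin g → ℕ) (N z : ℕ) :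
    seriesTrunc (fam P h) G N z = ssz (0 + g + 1) (QQ 1 P h * (C (N : ℤ) - G)) z := by
  unfold Pool.Agent.Lib.H59.seriesTrunc ssz
  refine prod_congr rfl fun p _ => ?_
  have h1 : omegaN (fam P h) G N p = rootCount (QQ 1 P h * (C (N : ℤ) - G)) p := by
    unfold Pool.Agent.Lib.H59.omegaN Pool.Agent.Lib.H59.rootCount QQ
    rw [one_mul]
  rw [h1, zero_add]

/-- Proof. As `series_zero`, `Fin.prod_univ_succ`. -/
theorem series_one {g : ℕ} (B : ℤ[X]) (P : Fin g → ℤ[X]) (G : ℤ[X]) (h : Fin g → ℕ) (N z : ℕ) :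
    seriesTrunc (Fin.cons B (fam P h) : Fin (g + 1) → ℤ[X]) G N z =
      ssz (1 + g + 1) (QQ B P h * (C (N : ℤ) - G)) z := by
  unfold Pool.Agent.Lib.H59.seriesTrunc ssz
  refine prod_congr rfl fun p _ => ?_
  have h1 : omegaN (Fin.cons B (fam P h) : Fin (g + 1) → ℤ[X]) G N p =
      rootCount (QQ B P h * (C (N : ℤ) - G)) p := by
    unfold Pool.Agent.Lib.H59.omegaN Pool.Agent.Lib.H59.rootCount QQ
    rw [Fin.prod_univ_succ]
    simp only [Fin.cons_zero, Fin.cons_succ]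
  rw [h1, add_comm 1 g]

/-- Proof. `deg (P_i + h_i) = deg P_i` (`natDegree_add_C`). -/
theorem mainT_zero {g : ℕ} (P : Fin g → ℤ[X]) (G : ℤ[X]) (h : Fin g → ℕ) (N : ℕ) :
    H33B.mainT (fam P h) G N = mT P 0 G N := by
  unfold Pool.Agent.Lib.H33B.mainT mT
  have h1 : ∀ i, (fam P h i).natDegree = (P i).natDegree := fun i => by
    unfold fam
    exact natDegree_add_C
  simp only [h1, add_zero]

/-- Proof. As `mainT_zero`, with the factor `deg B = 1`. -/
theorem mainT_one {g : ℕ} (B : ℤ[X]) (hB : B.natDegree = 1) (P : Fin g → ℤ[X]) (G : ℤ[X])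
    (h : Fin g → ℕ) (N : ℕ) :
    H33B.mainT (Fin.cons B (fam P h) : Fin (g + 1) → ℤ[X]) G N = mT P 1 G N := by
  unfold Pool.Agent.Lib.H33B.mainT mT
  have h1 : ∀ i, (fam P h i).natDegree = (P i).natDegree := fun i => by
    unfold fam
    exact natDegree_add_C
  rw [Fin.prod_univ_succ]
  simp only [Fin.cons_zero, Fin.cons_succ, h1, hB, Nat.cast_one, one_mul]

end Pool.Agent.Lib.H59X
end

-- from Lib.H59X.Fin
section

/-!
# Project H59X: Schinzel's formula for almost all constant terms (final theorems)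
-/

open Finset Polynomial

namespace Pool.Agent.Lib.H59X

open Pool.Agent.Lib.H59 (argSet argCount Admissible primeCount omegaN seriesTrunc rootCount)

open Classical in
/-- All constant terms (of the `F_i` and of `N - G`) vary. -/
theorem all_random {g : ℕ} (G : ℤ[X]) (hG : 1 ≤ G.natDegree) (hlc : 0 < G.leadingCoeff)
    (P : Fin g → ℤ[X]) (hP : ∀ i, 1 ≤ (P i).natDegree) (hl : ∀ i, 0 < (P i).leadingCoeff)
    (C₁ : ℝ) (hC₁ : 1 ≤ C₁) (ε : ℝ) (hε : 0 < ε) :
    ∃ z₀ : ℕ, ∀ z : ℕ, z₀ ≤ z → ∃ Y₀ : ℕ, ∀ Y : ℕ, Y₀ ≤ Y → ∀ H : Fin g → ℕ,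
    Fit C₁ (argCount G Y) P H →
    (((Icc 1 Y ×ˢ Box H).filter (fun x : ℕ × (Fin g → ℕ) => Admissible (fam P x.2) G x.1 ∧
      ε * (H33B.mainT (fam P x.2) G x.1 * seriesTrunc (fam P x.2) G x.1 z) <
        |(primeCount (fam P x.2) G x.1 : ℝ) -
          H33B.mainT (fam P x.2) G x.1 * seriesTrunc (fam P x.2) G x.1 z|)).card : ℝ) ≤
      ε * Y * vol H := by
  obtain ⟨z₀, hz₀⟩ := exc_avg G hG hlc P hP hl 0 1 (Or.inl ⟨rfl, rfl⟩) C₁ hC₁ ε hε
  refine ⟨z₀, fun z hz => ?_⟩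
  obtain ⟨Y₀, hY₀⟩ := hz₀ z hz
  obtain ⟨Y₁, hY₁⟩ := primeCount_zero (g := g) G hG hlc
  refine ⟨max Y₀ Y₁, fun Y hY H hH => ?_⟩
  refine le_trans ?_ (hY₀ Y ((le_max_left _ _).trans hY) H hH)
  refine Nat.cast_le.2 (card_le_card fun x hx => ?_)
  rw [mem_filter] at hx ⊢
  obtain ⟨hx1, hx2, hx3⟩ := hx
  have hN : x.1 ≤ Y := (mem_Icc.1 (mem_product.1 hx1).1).2
  rw [hY₁ Y x.1 ((le_max_right _ _).trans hY) hN P x.2, mainT_zero, series_zero] at hx3
  have hpos := series_pos (fam P x.2) G x.1 z hx2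
  rw [series_zero] at hpos
  exact ⟨hx1, hpos, hx3⟩

open Classical in
/-- One linear polynomial `F_0` is fixed, the other constant terms vary. -/
theorem one_fixed {g : ℕ} (G : ℤ[X]) (hG : 1 ≤ G.natDegree) (hlc : 0 < G.leadingCoeff)
    (F₀ : ℤ[X]) (hF₀ : F₀.natDegree = 1) (hF₀l : 0 < F₀.leadingCoeff)
    (P : Fin g → ℤ[X]) (hP : ∀ i, 1 ≤ (P i).natDegree) (hl : ∀ i, 0 < (P i).leadingCoeff)
    (C₁ : ℝ) (hC₁ : 1 ≤ C₁) (ε : ℝ) (hε : 0 < ε) :
    ∃ z₀ : ℕ, ∀ z : ℕ, z₀ ≤ z → ∃ Y₀ : ℕ, ∀ Y : ℕ, Y₀ ≤ Y → ∀ H : Fin g → ℕ,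
    Fit C₁ (argCount G Y) P H →
    (((Icc 1 Y ×ˢ Box H).filter (fun x : ℕ × (Fin g → ℕ) =>
      Admissible (Fin.cons F₀ (fam P x.2) : Fin (g + 1) → ℤ[X]) G x.1 ∧
      ε * (H33B.mainT (Fin.cons F₀ (fam P x.2) : Fin (g + 1) → ℤ[X]) G x.1 *
          seriesTrunc (Fin.cons F₀ (fam P x.2) : Fin (g + 1) → ℤ[X]) G x.1 z) <
        |(primeCount (Fin.cons F₀ (fam P x.2) : Fin (g + 1) → ℤ[X]) G x.1 : ℝ) -
          H33B.mainT (Fin.cons F₀ (fam P x.2) : Fin (g + 1) → ℤ[X]) G x.1 *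
            seriesTrunc (Fin.cons F₀ (fam P x.2) : Fin (g + 1) → ℤ[X]) G x.1 z|)).card : ℝ) ≤
      ε * Y * vol H := by
  obtain ⟨z₀, hz₀⟩ := exc_avg G hG hlc P hP hl 1 F₀ (Or.inr ⟨rfl, hF₀, hF₀l⟩) C₁ hC₁ ε hε
  refine ⟨z₀, fun z hz => ?_⟩
  obtain ⟨Y₀, hY₀⟩ := hz₀ z hz
  obtain ⟨Y₁, hY₁⟩ := primeCount_one (g := g) G hG hlc
  refine ⟨max Y₀ Y₁, fun Y hY H hH => ?_⟩
  refine le_trans ?_ (hY₀ Y ((le_max_left _ _).trans hY) H hH)
  refine Nat.cast_le.2 (card_le_card fun x hx => ?_)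
  rw [mem_filter] at hx ⊢
  obtain ⟨hx1, hx2, hx3⟩ := hx
  have hN : x.1 ≤ Y := (mem_Icc.1 (mem_product.1 hx1).1).2
  rw [hY₁ Y x.1 ((le_max_right _ _).trans hY) hN F₀ P x.2, mainT_one F₀ hF₀, series_one] at hx3
  have hpos := series_pos _ G x.1 z hx2
  rw [series_one] at hpos
  exact ⟨hx1, hpos, hx3⟩

end Pool.Agent.Lib.H59X
end

-- from Lib.H59X.R1
section

/-!
# Chunk R1: the truncated singular series does not change much beyond `w`, for almost all `h`
-/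

open Finset Polynomial

namespace Pool.Agent.Lib.H59X

open Pool.Agent.Lib.H59 (argSet argCount Admissible primeCount omegaN seriesTrunc rootCount)

theorem R1_log {x : ℝ} (hx : |x| ≤ 1 / 2) : |Real.log (1 + x) - x| ≤ 2 * x ^ 2 := by
  have h := abs_le.1 hx
  have h1 : 0 < 1 + x := by linarith
  have h2 : Real.log (1 + x) ≤ x := by
    have := Real.log_le_sub_one_of_pos h1
    linarith
  have h3 : x - 2 * x ^ 2 ≤ Real.log (1 + x) := by
    have h4 := Real.one_sub_inv_le_log_of_pos h1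
    have h5 : 1 - (1 + x)⁻¹ = x / (1 + x) := by
      field_simp
      ring
    rw [h5] at h4
    refine le_trans ?_ h4
    rw [le_div_iff₀ h1]
    nlinarith [sq_nonneg x, mul_nonneg (sq_nonneg x) (by linarith : (0 : ℝ) ≤ 1 / 2 + x), h.1]
  rw [abs_le]
  constructor <;> nlinarith [sq_nonneg x]

theorem R1_exp {t : ℝ} (ht : |t| ≤ 1) : |Real.exp t - 1| ≤ 2 * |t| := by
  have h := Real.abs_exp_sub_one_le ht
  exact h

theorem R1_prod (T : Finset ℕ) (x : ℕ → ℝ) (C δ : ℝ) (w : ℕ) (hw : 1 ≤ w) (hCw : 2 * C ≤ w) (hδ1 : δ ≤ 1 / 2) (hw2 : 4 * C ^ 2 ≤ δ * w)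
    (hT : ∀ p ∈ T, w ≤ p) (hx : ∀ p ∈ T, |x p| ≤ C / p) (hs : |∑ p ∈ T, x p| ≤ δ) :
    |(∏ p ∈ T, (1 + x p)) - 1| ≤ 4 * δ := by
  have hw0 : (0 : ℝ) < w := by exact_mod_cast hw
  have hp0 : ∀ p ∈ T, (0 : ℝ) < p := fun p hp => by
    exact_mod_cast lt_of_lt_of_le hw (hT p hp)
  have hx2 : ∀ p ∈ T, |x p| ≤ 1 / 2 := by
    intro p hp
    refine (hx p hp).trans ?_
    rw [div_le_div_iff₀ (hp0 p hp) two_pos]
    have : (w : ℝ) ≤ p := by exact_mod_cast hT p hp
    linarith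
  have hpos : ∀ p ∈ T, 0 < 1 + x p := fun p hp => by
    have := (abs_le.1 (hx2 p hp)).1
    linarith
  have hlog : ∏ p ∈ T, (1 + x p) = Real.exp (∑ p ∈ T, Real.log (1 + x p)) := by
    rw [Real.exp_sum]
    exact prod_congr rfl fun p hp => (Real.exp_log (hpos p hp)).symm
  have hsq : ∑ p ∈ T, 2 * (C / (p : ℝ)) ^ 2 ≤ δ := by
    have h1 : ∑ p ∈ T, 2 * (C / (p : ℝ)) ^ 2 = (2 * C ^ 2) * ∑ p ∈ T, ((p : ℝ) ^ 2)⁻¹ := by
      rw [mul_sum]
      refine sum_congr rfl fun p _ => ?_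
      rw [div_pow, div_eq_mul_inv]
      ring
    obtain ⟨n, hn⟩ : ∃ n, ∀ p ∈ T, p < n := ⟨T.sup id + 1, fun p hp =>
      Nat.lt_succ_of_le (le_sup (f := id) hp)⟩
    have h2 : ∑ p ∈ T, ((p : ℝ) ^ 2)⁻¹ ≤ 2 / (((w - 1 : ℕ) : ℝ) + 1) := by
      refine le_trans ?_ (sum_Ioo_inv_sq_le (w - 1) n)
      refine sum_le_sum_of_subset_of_nonneg (fun p hp => ?_) fun p _ _ => by positivity
      rw [mem_Ioo]
      have := hT p hp
      exact ⟨by omega, hn p hp⟩
    have h3 : ((w - 1 : ℕ) : ℝ) + 1 = w := by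
      rw [Nat.cast_sub hw]
      push_cast
      ring
    rw [h3] at h2
    rw [h1]
    calc (2 * C ^ 2) * ∑ p ∈ T, ((p : ℝ) ^ 2)⁻¹ ≤ (2 * C ^ 2) * (2 / w) :=
          mul_le_mul_of_nonneg_left h2 (by positivity)
      _ = 4 * C ^ 2 / w := by ring
      _ ≤ δ := by rw [div_le_iff₀ hw0]; exact hw2
  have hsum : |(∑ p ∈ T, Real.log (1 + x p)) - ∑ p ∈ T, x p| ≤ δ := by
    rw [← sum_sub_distrib]
    refine (abs_sum_le_sum_abs _ _).trans (le_trans (sum_le_sum fun p hp => ?_) hsq)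
    refine (R1_log (hx2 p hp)).trans ?_
    rw [← sq_abs (x p)]
    exact mul_le_mul_of_nonneg_left (pow_le_pow_left₀ (abs_nonneg _) (hx p hp) 2) zero_le_two
  have ht : |∑ p ∈ T, Real.log (1 + x p)| ≤ 2 * δ := by
    have h1 := abs_sub_abs_le_abs_sub (∑ p ∈ T, Real.log (1 + x p)) (∑ p ∈ T, x p)
    linarith
  rw [hlog]
  refine (R1_exp (ht.trans (by linarith))).trans ?_
  linarith

theorem R1_ssz (A r : ℕ) (B : ℤ[X]) (hB : Bas A r B) {g : ℕ} (P : Fin g → ℤ[X]) (w z : ℕ)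
    (hwz : w ≤ z) (h : Fin g → ℕ) : ssz (r + g) (QQ B P h) z = ssz (r + g) (QQ B P h) w *
      ∏ p ∈ (Nat.primesBelow z).filter (fun p => w ≤ p), af r B P univ p h := by
  rw [ssz_eq A r B hB, ssz_eq A r B hB]
  have h1 : (Nat.primesBelow z).filter (fun p => ¬ w ≤ p) = Nat.primesBelow w := by
    ext p
    simp only [mem_filter, Nat.mem_primesBelow]
    constructor
    · rintro ⟨⟨_, h2⟩, h3⟩
      exact ⟨by omega, h2⟩
    · rintro ⟨h2, h3⟩
      exact ⟨⟨by omega, h3⟩, by omega⟩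
  rw [← h1, mul_comm, prod_filter_mul_prod_filter_not]

theorem R1_nonneg (m : ℕ) (Q : ℤ[X]) (z : ℕ) : 0 ≤ ssz m Q z := by
  unfold ssz
  refine prod_nonneg fun p hp => ?_
  have hp' : p.Prime := (Nat.mem_primesBelow.1 hp).2
  have hp0 : (0 : ℝ) < p := by exact_mod_cast hp'.pos
  have h1 : (1 : ℝ) / p ≤ 1 := by
    rw [div_le_one hp0]
    exact_mod_cast hp'.one_le
  refine mul_nonneg ?_ (inv_nonneg.2 (pow_nonneg (by linarith) _))
  have h2 : rootCount Q p ≤ p := by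
    unfold Pool.Agent.Lib.H59.rootCount
    exact (card_filter_le _ _).trans (by rw [card_range])
  have : (rootCount Q p : ℝ) / p ≤ 1 := by
    rw [div_le_one hp0]
    exact_mod_cast h2
  linarith

/-- The truncated singular series changes by a factor `1 + O(ε)` beyond `w`, for almost all `h` of a box. -/
theorem tail_box (g A : ℕ) (C₁ : ℝ) (hC₁ : 1 ≤ C₁) (ε : ℝ) (hε : 0 < ε) : ∃ w₀ : ℕ,
    ∀ P : Fin g → ℤ[X], Pol A P → ∀ (r : ℕ) (B : ℤ[X]), Bas A r B →
    ∀ (w z : ℕ) (H : Fin g → ℕ), w₀ ≤ w → w ≤ z → (∀ i, (z : ℝ) ^ 3 ≤ C₁ * H i) →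
    (((Box H).filter (fun h => ε * ssz (r + g) (QQ B P h) w <
      |ssz (r + g) (QQ B P h) z - ssz (r + g) (QQ B P h) w|)).card : ℝ) ≤ ε * vol H := by
  obtain ⟨C, hC, hc⟩ := af_close g A
  obtain ⟨D, hD, hd⟩ := sec g A C₁ hC₁
  set δ : ℝ := min ε 1 / 4 with hδ
  have hm0 : 0 < min ε 1 := lt_min hε one_pos
  have hδ0 : 0 < δ := by positivity
  have hδ1 : δ ≤ 1 / 2 := by
    have := min_le_right ε 1
    linarith
  have hδε : 4 * δ ≤ ε := by
    have := min_le_left ε 1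
    linarith
  refine ⟨max (A + 1) (max ⌈2 * C⌉₊ (max ⌈4 * C ^ 2 / δ⌉₊ ⌈D / (ε * δ ^ 2)⌉₊)),
    fun P hP r B hB w z H hw hwz hz => ?_⟩
  have hw1 : A + 1 ≤ w := (le_max_left _ _).trans hw
  have hw2 : 2 * C ≤ w := (Nat.le_ceil _).trans (by
    exact_mod_cast (le_max_left _ _).trans ((le_max_right _ _).trans hw))
  have hw3 : 4 * C ^ 2 / δ ≤ w := (Nat.le_ceil _).trans (by
    exact_mod_cast (le_max_left _ _).trans ((le_max_right _ _).trans ((le_max_right _ _).trans hw)))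
  have hw4 : D / (ε * δ ^ 2) ≤ w := (Nat.le_ceil _).trans (by
    exact_mod_cast (le_max_right _ _).trans ((le_max_right _ _).trans
      ((le_max_right _ _).trans hw)))
  have hw0 : (0 : ℝ) < w := by exact_mod_cast (by omega : 0 < w)
  set T := (Nat.primesBelow z).filter (fun p => w ≤ p) with hT
  have hTm : ∀ p ∈ T, p.Prime ∧ A < p ∧ w ≤ p ∧ p < z := by
    intro p hp
    rw [hT, mem_filter, Nat.mem_primesBelow] at hp
    exact ⟨hp.1.2, by omega, hp.2, hp.1.1⟩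
  have h1 := hd P hP r B hB z w H (by omega) hwz hz T hTm
  set bad := (Box H).filter (fun h => ε * ssz (r + g) (QQ B P h) w <
      |ssz (r + g) (QQ B P h) z - ssz (r + g) (QQ B P h) w|) with hbad
  have h2 : ∀ h ∈ bad, δ ^ 2 ≤ (∑ p ∈ T, (af r B P univ p h - 1)) ^ 2 := by
    intro h hh
    rw [hbad, mem_filter] at hh
    by_contra hcon
    push Not at hcon
    have h3 : |∑ p ∈ T, (af r B P univ p h - 1)| ≤ δ := by
      rw [← abs_of_pos hδ0]
      exact (sq_lt_sq.1 hcon).le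
    have h4 := R1_prod T (fun p => af r B P univ p h - 1) C δ w (by omega) hw2 hδ1
      (by rw [div_le_iff₀ hδ0] at hw3; linarith) (fun p hp => (hTm p hp).2.2.1)
      (fun p hp => hc P hP r B hB p (hTm p hp).1 (hTm p hp).2.1 h) h3
    simp only [add_sub_cancel] at h4
    have h5 := hh.2
    rw [R1_ssz A r B hB P w z hwz h] at h5
    have h6 : ssz (r + g) (QQ B P h) w * (∏ p ∈ T, af r B P univ p h) -
        ssz (r + g) (QQ B P h) w =
        ssz (r + g) (QQ B P h) w * ((∏ p ∈ T, af r B P univ p h) - 1) := by ring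
    rw [h6, abs_mul, abs_of_nonneg (R1_nonneg _ _ _)] at h5
    have h7 := mul_le_mul_of_nonneg_left (h4.trans hδε) (R1_nonneg (r + g) (QQ B P h) w)
    linarith
  have h3 : (bad.card : ℝ) * δ ^ 2 ≤ D / w * vol H := by
    calc (bad.card : ℝ) * δ ^ 2 = ∑ _h ∈ bad, δ ^ 2 := by rw [sum_const, nsmul_eq_mul]
      _ ≤ ∑ h ∈ bad, (∑ p ∈ T, (af r B P univ p h - 1)) ^ 2 := sum_le_sum h2
      _ ≤ ∑ h ∈ Box H, (∑ p ∈ T, (af r B P univ p h - 1)) ^ 2 :=
          sum_le_sum_of_subset_of_nonneg (filter_subset _ _) fun _ _ _ => sq_nonneg _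
      _ ≤ D / w * vol H := h1
  have hvol : 0 ≤ vol H := by
    unfold vol
    positivity
  have h4 : D / w ≤ ε * δ ^ 2 := by
    rw [div_le_iff₀ (by positivity)] at hw4
    rw [div_le_iff₀ hw0]
    linarith
  have h5 : (bad.card : ℝ) * δ ^ 2 ≤ (ε * vol H) * δ ^ 2 := by
    calc (bad.card : ℝ) * δ ^ 2 ≤ D / w * vol H := h3
      _ ≤ (ε * δ ^ 2) * vol H := mul_le_mul_of_nonneg_right h4 hvol
      _ = (ε * vol H) * δ ^ 2 := by ring
  exact le_of_mul_le_mul_right h5 (by positivity)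

end Pool.Agent.Lib.H59X
end

-- from Lib.H59X.R2
section

/-!
# Chunk R2: the final theorems with the singular series cut off anywhere between `z₀` and `X^(1/3)`
-/

open Finset Polynomial Filter Topology

namespace Pool.Agent.Lib.H59X

open Pool.Agent.Lib.H59 (argSet argCount Admissible primeCount omegaN seriesTrunc rootCount)

theorem R2_real {Q M a b ε : ℝ} (hM : 0 ≤ M) (hε : 0 ≤ ε) (hε1 : ε ≤ 1 / 2)
    (h1 : |Q - M * a| ≤ ε * (M * a)) (h2 : |b - a| ≤ ε * a) (ha : 0 ≤ a) :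
    |Q - M * b| ≤ 4 * ε * (M * b) := by
  have h3 : a ≤ 2 * b := by
    have := (abs_le.1 h2).1
    nlinarith
  have h4 : |Q - M * b| ≤ |Q - M * a| + M * |b - a| := by
    have h5 : Q - M * b = (Q - M * a) - M * (b - a) := by ring
    rw [h5]
    refine (abs_sub _ _).trans ?_
    rw [abs_mul, abs_of_nonneg hM]
  have h6 : M * |b - a| ≤ M * (ε * a) := mul_le_mul_of_nonneg_left h2 hM
  have h7 : M * a ≤ M * (2 * b) := mul_le_mul_of_nonneg_left h3 hM
  calc |Q - M * b| ≤ ε * (M * a) + M * (ε * a) := h4.trans (add_le_add h1 h6)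
    _ = 2 * ε * (M * a) := by ring
    _ ≤ 2 * ε * (M * (2 * b)) := mul_le_mul_of_nonneg_left h7 (by linarith)
    _ = 4 * ε * (M * b) := by ring

theorem R2_mainT {g : ℕ} (F : Fin g → ℤ[X]) (G : ℤ[X]) (N : ℕ) : 0 ≤ H33B.mainT F G N := by
  unfold Pool.Agent.Lib.H33B.mainT
  have h1 : 0 ≤ Real.log (argCount G N) := Real.log_natCast_nonneg _
  positivity

/-- the set of the bad points, two levels -/
theorem R2_card {α : Type*} [DecidableEq α] (s : Finset α) (p q t : α → Prop) [DecidablePred p]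
    [DecidablePred q] [DecidablePred t] (h : ∀ x ∈ s, p x → q x ∨ t x) (a b c : ℝ)
    (hq : ((s.filter q).card : ℝ) ≤ a) (ht : ((s.filter t).card : ℝ) ≤ b) (hc : a + b ≤ c) :
    ((s.filter p).card : ℝ) ≤ c := by
  have h1 : s.filter p ⊆ s.filter q ∪ s.filter t := by
    intro x hx
    rw [mem_filter] at hx
    rw [mem_union, mem_filter, mem_filter]
    rcases h x hx.1 hx.2 with h2 | h2
    · exact Or.inl ⟨hx.1, h2⟩
    · exact Or.inr ⟨hx.1, h2⟩
  have h2 : ((s.filter p).card : ℝ) ≤ (s.filter q).card + (s.filter t).card := by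
    exact_mod_cast (card_le_card h1).trans (card_union_le _ _)
  linarith

theorem R2_fit {g : ℕ} {C₁ : ℝ} {X : ℕ} {P : Fin g → ℤ[X]} {H : Fin g → ℕ} (hX : 1 ≤ X)
    (hP : ∀ i, 1 ≤ (P i).natDegree) (hH : Fit C₁ X P H) {z : ℕ} (hz : z ^ 3 ≤ X) (i : Fin g) :
    (z : ℝ) ^ 3 ≤ C₁ * H i := by
  refine le_trans ?_ (hH.lo i)
  calc (z : ℝ) ^ 3 ≤ (X : ℝ) := by exact_mod_cast hz
    _ = (X : ℝ) ^ 1 := (pow_one _).symm
    _ ≤ (X : ℝ) ^ (P i).natDegree := pow_le_pow_right₀ (by exact_mod_cast hX) (hP i)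

open Classical in
/-- `G` linear, every large `N`. -/
theorem exc_fix_z {g : ℕ} (G : ℤ[X]) (hG : G.natDegree = 1) (hlc : 0 < G.leadingCoeff)
    (P : Fin g → ℤ[X]) (hP : ∀ i, 1 ≤ (P i).natDegree) (hl : ∀ i, 0 < (P i).leadingCoeff)
    (C₁ : ℝ) (hC₁ : 1 ≤ C₁) (ε : ℝ) (hε : 0 < ε) :
    ∃ z₀ N₀ : ℕ, ∀ z N : ℕ, z₀ ≤ z → N₀ ≤ N → z ^ 3 ≤ argCount G N → ∀ H : Fin g → ℕ,
    Fit C₁ (argCount G N) P H →
    (((Box H).filter (fun h => Admissible (fam P h) G N ∧
      ε * (H33B.mainT (fam P h) G N * seriesTrunc (fam P h) G N z) <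
        |(primeCount (fam P h) G N : ℝ) -
          H33B.mainT (fam P h) G N * seriesTrunc (fam P h) G N z|)).card : ℝ) ≤ ε * vol H := by
  set ε₁ : ℝ := min ε 1 / 4 with hε₁
  have hm0 : 0 < min ε 1 := lt_min hε one_pos
  have h0 : 0 < ε₁ := by positivity
  have h1 : ε₁ ≤ 1 / 2 := by
    have := min_le_right ε 1
    linarith
  have h4 : 4 * ε₁ ≤ ε := by
    have := min_le_left ε 1
    linarith
  obtain ⟨A, hA⟩ : ∃ A : ℕ, (∀ i, (P i).natDegree ≤ A) ∧ (∀ i, (P i).leadingCoeff.natAbs ≤ A) ∧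
      G.leadingCoeff.natAbs ≤ A := by
    refine ⟨(univ.sup fun i => (P i).natDegree) + (univ.sup fun i => (P i).leadingCoeff.natAbs) +
      G.leadingCoeff.natAbs, fun i => ?_, fun i => ?_, by omega⟩
    · have := le_sup (f := fun i => (P i).natDegree) (mem_univ i)
      omega
    · have := le_sup (f := fun i => (P i).leadingCoeff.natAbs) (mem_univ i)
      omega
  obtain ⟨z₁, hz₁⟩ := exc_fix G hG hlc P hP hl C₁ hC₁ ε₁ h0
  obtain ⟨w₀, hw₀⟩ := tail_box g A C₁ hC₁ ε₁ h0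
  set w := max z₁ w₀ with hw
  obtain ⟨N₀, hN₀⟩ := hz₁ w (le_max_left _ _)
  have ht := Pool.Agent.Lib.H59.argCount_tendsto (hG.ge) hlc
  obtain ⟨N₁, hN₁⟩ := eventually_atTop.1 (ht.eventually_ge_atTop 1)
  refine ⟨w, max N₀ N₁, fun z N hz hN hzX H hH => ?_⟩
  have hX1 : 1 ≤ argCount G N := hN₁ N ((le_max_right _ _).trans hN)
  have h2 := hN₀ N ((le_max_left _ _).trans hN) H hH
  have hBas : Bas A 1 (C (N : ℤ) - G) := by
    have hdeg : (C (N : ℤ) - G).natDegree = 1 := by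
      rw [← hG]
      exact Pool.Agent.Lib.H59.natDegree_C_sub' G N
    have hlead : (C (N : ℤ) - G).leadingCoeff = -G.leadingCoeff := by
      rw [leadingCoeff, hdeg, coeff_sub, coeff_C_of_ne_zero one_ne_zero, zero_sub,
        leadingCoeff, hG]
    refine Or.inr ⟨rfl, hdeg, ?_⟩
    rw [hlead, Int.natAbs_neg]
    exact hA.2.2
  have h3 := hw₀ P ⟨hP, hA.1, hA.2.1⟩ 1 (C (N : ℤ) - G) hBas w z H (le_max_right _ _) hz
    (fun i => R2_fit hX1 hP hH hzX i)
  refine R2_card (Box H) _ _ _ (fun h _ hp => ?_) _ _ _ h2 h3 ?_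
  · by_contra hcon
    push Not at hcon
    obtain ⟨hc1, hc2⟩ := hcon
    have hc3 := hc1 hp.1
    rw [← series_fix, ← series_fix] at hc2
    have hs0 : 0 ≤ seriesTrunc (fam P h) G N w := by
      rw [series_fix]
      exact R1_nonneg _ _ _
    have h5 := R2_real (R2_mainT _ _ _) h0.le h1 hc3 hc2 hs0
    have hs1 : 0 ≤ seriesTrunc (fam P h) G N z := by
      rw [series_fix]
      exact R1_nonneg _ _ _
    have h6 : 4 * ε₁ * (H33B.mainT (fam P h) G N * seriesTrunc (fam P h) G N z) ≤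
        ε * (H33B.mainT (fam P h) G N * seriesTrunc (fam P h) G N z) :=
      mul_le_mul_of_nonneg_right h4 (mul_nonneg (R2_mainT _ _ _) hs1)
    linarith [hp.2]
  · have hvol : 0 ≤ vol H := by
      unfold vol
      positivity
    nlinarith

/-- the box with `N` -/
theorem R2_box {g : ℕ} (Y : ℕ) (H : Fin g → ℕ) (Q : (Fin (g + 1) → ℕ) → Prop)
    [DecidablePred Q] (Q' : ℕ × (Fin g → ℕ) → Prop) [DecidablePred Q']
    (hQ : ∀ x, Q' x ↔ Q (Fin.cons x.1 x.2)) :
    ((Icc 1 Y ×ˢ Box H).filter Q').card =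
      ((Box (Fin.cons Y H : Fin (g + 1) → ℕ)).filter Q).card := by
  have h1 := box_succ (Fin.cons Y H : Fin (g + 1) → ℕ) (fun x => if Q x then (1 : ℝ) else 0)
  have h2 : (((Box (Fin.cons Y H : Fin (g + 1) → ℕ)).filter Q).card : ℝ) =
      ∑ x ∈ Box (Fin.cons Y H : Fin (g + 1) → ℕ), if Q x then (1 : ℝ) else 0 := by
    rw [sum_boole]
  have h3 : (((Icc 1 Y ×ˢ Box H).filter Q').card : ℝ) =
      ∑ x ∈ Icc 1 Y ×ˢ Box H, if Q' x then (1 : ℝ) else 0 := by
    rw [sum_boole]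
  have h4 : (((Icc 1 Y ×ˢ Box H).filter Q').card : ℝ) =
      (((Box (Fin.cons Y H : Fin (g + 1) → ℕ)).filter Q).card : ℝ) := by
    rw [h2, h3, h1, sum_product]
    refine sum_congr rfl fun a _ => sum_congr rfl fun h _ => ?_
    simp only [hQ]
  exact_mod_cast h4

/-- `X(Y) ≤ 2 Y` -/
theorem R2_argCount (G : ℤ[X]) (hG : 1 ≤ G.natDegree) (hlc : 0 < G.leadingCoeff) :
    ∃ Y₀ : ℕ, ∀ Y : ℕ, Y₀ ≤ Y → 1 ≤ argCount G Y ∧ (argCount G Y : ℝ) ≤ 2 * Y := by
  have h1 := Pool.Agent.Lib.H33B.argCount_pow G hG hlc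
  have h2 : ((G.leadingCoeff : ℝ)⁻¹) < 2 := by
    have h3 : (1 : ℝ) ≤ G.leadingCoeff := by exact_mod_cast hlc
    have := inv_le_one_of_one_le₀ h3
    linarith
  have ht := Pool.Agent.Lib.H59.argCount_tendsto hG hlc
  obtain ⟨Y₀, hY₀⟩ := eventually_atTop.1 ((h1.eventually_lt_const h2).and
    (ht.eventually_ge_atTop 1))
  refine ⟨max Y₀ 1, fun Y hY => ?_⟩
  obtain ⟨h3, h4⟩ := hY₀ Y ((le_max_left _ _).trans hY)
  refine ⟨h4, ?_⟩
  have hY0 : (0 : ℝ) < Y := by exact_mod_cast (le_max_right _ _).trans hY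
  rw [div_lt_iff₀ hY0] at h3
  refine le_trans ?_ h3.le
  calc (argCount G Y : ℝ) = (argCount G Y : ℝ) ^ 1 := (pow_one _).symm
    _ ≤ _ := pow_le_pow_right₀ (by exact_mod_cast h4) hG

open Classical in
/-- The tail for the pairs `(N, h)`. -/
theorem tail_pairs {g : ℕ} (G : ℤ[X]) (hG : 1 ≤ G.natDegree) (hlc : 0 < G.leadingCoeff)
    (P : Fin g → ℤ[X]) (hP : ∀ i, 1 ≤ (P i).natDegree) (r : ℕ) (B : ℤ[X])
    (hB : ∃ A, Bas A r B) (C₁ : ℝ) (hC₁ : 1 ≤ C₁) (ε : ℝ) (hε : 0 < ε) :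
    ∃ w₀ Y₀ : ℕ, ∀ w z Y : ℕ, w₀ ≤ w → w ≤ z → Y₀ ≤ Y → z ^ 3 ≤ argCount G Y →
    ∀ H : Fin g → ℕ, Fit C₁ (argCount G Y) P H →
    (((Icc 1 Y ×ˢ Box H).filter (fun x : ℕ × (Fin g → ℕ) =>
      ε * ssz (r + g + 1) (QQ B P x.2 * (C (x.1 : ℤ) - G)) w <
      |ssz (r + g + 1) (QQ B P x.2 * (C (x.1 : ℤ) - G)) z -
        ssz (r + g + 1) (QQ B P x.2 * (C (x.1 : ℤ) - G)) w|)).card : ℝ) ≤ ε * Y * vol H := by
  obtain ⟨A₀, hA₀⟩ := hB
  obtain ⟨A, hA0, hA⟩ : ∃ A : ℕ, A₀ ≤ A ∧ (∀ i, (P i).natDegree ≤ A) ∧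
      (∀ i, (P i).leadingCoeff.natAbs ≤ A) ∧ G.leadingCoeff.natAbs ≤ A ∧ G.natDegree ≤ A := by
    refine ⟨A₀ + (univ.sup fun i => (P i).natDegree) +
      (univ.sup fun i => (P i).leadingCoeff.natAbs) +
      G.leadingCoeff.natAbs + G.natDegree, by omega, fun i => ?_, fun i => ?_, by omega, by omega⟩
    · have := le_sup (f := fun i => (P i).natDegree) (mem_univ i)
      omega
    · have := le_sup (f := fun i => (P i).leadingCoeff.natAbs) (mem_univ i)
      omega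
  have hBas : Bas A r B := by
    rcases hA₀ with h | h
    · exact Or.inl h
    · exact Or.inr ⟨h.1, h.2.1, h.2.2.trans hA0⟩
  obtain ⟨w₀, hw₀⟩ := tail_box (g + 1) A (2 * C₁) (by linarith) ε hε
  obtain ⟨Y₀, hY₀⟩ := R2_argCount G hG hlc
  refine ⟨w₀, Y₀, fun w z Y hw hwz hY hz H hH => ?_⟩
  obtain ⟨hX1, hXY⟩ := hY₀ Y hY
  have hz3 : (z : ℝ) ^ 3 ≤ argCount G Y := by exact_mod_cast hz
  have h1 := hw₀ (Fin.cons (-G) P : Fin (g + 1) → ℤ[X])
    (z2a_pol A G hG hA.2.2.2 hA.2.2.1 P ⟨hP, hA.1, hA.2.1⟩) r B hBas w z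
    (Fin.cons Y H : Fin (g + 1) → ℕ) hw hwz (fun i => by
      refine Fin.cases ?_ (fun i => ?_) i
      · rw [Fin.cons_zero]
        have hY0 : (0 : ℝ) ≤ Y := Nat.cast_nonneg _
        nlinarith
      · rw [Fin.cons_succ]
        refine (R2_fit hX1 hP hH hz i).trans ?_
        have hH0 : (0 : ℝ) ≤ H i := Nat.cast_nonneg _
        nlinarith)
  rw [z2a_vol, ← mul_assoc] at h1
  refine le_trans (le_of_eq ?_) h1
  congr 1
  refine R2_box Y H _ _ fun x => ?_
  rw [z2a_qq]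
  rfl

open Classical in
/-- All constant terms vary. -/
theorem all_random_z {g : ℕ} (G : ℤ[X]) (hG : 1 ≤ G.natDegree) (hlc : 0 < G.leadingCoeff)
    (P : Fin g → ℤ[X]) (hP : ∀ i, 1 ≤ (P i).natDegree) (hl : ∀ i, 0 < (P i).leadingCoeff)
    (C₁ : ℝ) (hC₁ : 1 ≤ C₁) (ε : ℝ) (hε : 0 < ε) :
    ∃ z₀ Y₀ : ℕ, ∀ z Y : ℕ, z₀ ≤ z → Y₀ ≤ Y → z ^ 3 ≤ argCount G Y → ∀ H : Fin g → ℕ,
    Fit C₁ (argCount G Y) P H →
    (((Icc 1 Y ×ˢ Box H).filter (fun x : ℕ × (Fin g → ℕ) => Admissible (fam P x.2) G x.1 ∧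
      ε * (H33B.mainT (fam P x.2) G x.1 * seriesTrunc (fam P x.2) G x.1 z) <
        |(primeCount (fam P x.2) G x.1 : ℝ) -
          H33B.mainT (fam P x.2) G x.1 * seriesTrunc (fam P x.2) G x.1 z|)).card : ℝ) ≤
      ε * Y * vol H := by
  set ε₁ : ℝ := min ε 1 / 4 with hε₁
  have hm0 : 0 < min ε 1 := lt_min hε one_pos
  have h0 : 0 < ε₁ := by positivity
  have h1 : ε₁ ≤ 1 / 2 := by
    have := min_le_right ε 1
    linarith
  have h4 : 4 * ε₁ ≤ ε := by
    have := min_le_left ε 1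
    linarith
  obtain ⟨z₁, hz₁⟩ := all_random G hG hlc P hP hl C₁ hC₁ ε₁ h0
  obtain ⟨w₀, Y₁, hw₀⟩ := tail_pairs G hG hlc P hP 0 1 ⟨0, Or.inl ⟨rfl, rfl⟩⟩ C₁ hC₁ ε₁ h0
  obtain ⟨Y₀, hY₀⟩ := hz₁ (max z₁ w₀) (le_max_left _ _)
  refine ⟨max z₁ w₀, max Y₀ Y₁, fun z Y hz hY hzX H hH => ?_⟩
  have h2 := hY₀ Y ((le_max_left _ _).trans hY) H hH
  have h3 := hw₀ (max z₁ w₀) z Y (le_max_right _ _) hz ((le_max_right _ _).trans hY) hzX H hH
  refine R2_card _ _ _ _ (fun x _ hp => ?_) _ _ _ h2 h3 ?_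
  · by_contra hcon
    push Not at hcon
    obtain ⟨hc1, hc2⟩ := hcon
    have hc3 := hc1 hp.1
    rw [← series_zero, ← series_zero] at hc2
    have hs : ∀ u, 0 ≤ seriesTrunc (fam P x.2) G x.1 u := fun u => by
      rw [series_zero]
      exact R1_nonneg _ _ _
    have h5 := R2_real (R2_mainT _ _ _) h0.le h1 hc3 hc2 (hs _)
    have h6 : 4 * ε₁ * (H33B.mainT (fam P x.2) G x.1 * seriesTrunc (fam P x.2) G x.1 z) ≤
        ε * (H33B.mainT (fam P x.2) G x.1 * seriesTrunc (fam P x.2) G x.1 z) :=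
      mul_le_mul_of_nonneg_right h4 (mul_nonneg (R2_mainT _ _ _) (hs _))
    linarith [hp.2]
  · have hvol : 0 ≤ (Y : ℝ) * vol H := by
      unfold vol
      positivity
    nlinarith

open Classical in
/-- One linear polynomial `F_0` is fixed, the other constant terms vary. -/
theorem one_fixed_z {g : ℕ} (G : ℤ[X]) (hG : 1 ≤ G.natDegree) (hlc : 0 < G.leadingCoeff)
    (F₀ : ℤ[X]) (hF₀ : F₀.natDegree = 1) (hF₀l : 0 < F₀.leadingCoeff)
    (P : Fin g → ℤ[X]) (hP : ∀ i, 1 ≤ (P i).natDegree) (hl : ∀ i, 0 < (P i).leadingCoeff)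
    (C₁ : ℝ) (hC₁ : 1 ≤ C₁) (ε : ℝ) (hε : 0 < ε) :
    ∃ z₀ Y₀ : ℕ, ∀ z Y : ℕ, z₀ ≤ z → Y₀ ≤ Y → z ^ 3 ≤ argCount G Y → ∀ H : Fin g → ℕ,
    Fit C₁ (argCount G Y) P H →
    (((Icc 1 Y ×ˢ Box H).filter (fun x : ℕ × (Fin g → ℕ) =>
      Admissible (Fin.cons F₀ (fam P x.2) : Fin (g + 1) → ℤ[X]) G x.1 ∧
      ε * (H33B.mainT (Fin.cons F₀ (fam P x.2) : Fin (g + 1) → ℤ[X]) G x.1 *
          seriesTrunc (Fin.cons F₀ (fam P x.2) : Fin (g + 1) → ℤ[X]) G x.1 z) <
        |(primeCount (Fin.cons F₀ (fam P x.2) : Fin (g + 1) → ℤ[X]) G x.1 : ℝ) -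
          H33B.mainT (Fin.cons F₀ (fam P x.2) : Fin (g + 1) → ℤ[X]) G x.1 *
            seriesTrunc (Fin.cons F₀ (fam P x.2) : Fin (g + 1) → ℤ[X]) G x.1 z|)).card : ℝ) ≤
      ε * Y * vol H := by
  set ε₁ : ℝ := min ε 1 / 4 with hε₁
  have hm0 : 0 < min ε 1 := lt_min hε one_pos
  have h0 : 0 < ε₁ := by positivity
  have h1 : ε₁ ≤ 1 / 2 := by
    have := min_le_right ε 1
    linarith
  have h4 : 4 * ε₁ ≤ ε := by
    have := min_le_left ε 1
    linarith
  obtain ⟨z₁, hz₁⟩ := one_fixed G hG hlc F₀ hF₀ hF₀l P hP hl C₁ hC₁ ε₁ h0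
  obtain ⟨w₀, Y₁, hw₀⟩ := tail_pairs G hG hlc P hP 1 F₀
    ⟨_, Or.inr ⟨rfl, hF₀, le_rfl⟩⟩ C₁ hC₁ ε₁ h0
  obtain ⟨Y₀, hY₀⟩ := hz₁ (max z₁ w₀) (le_max_left _ _)
  refine ⟨max z₁ w₀, max Y₀ Y₁, fun z Y hz hY hzX H hH => ?_⟩
  have h2 := hY₀ Y ((le_max_left _ _).trans hY) H hH
  have h3 := hw₀ (max z₁ w₀) z Y (le_max_right _ _) hz ((le_max_right _ _).trans hY) hzX H hH
  refine R2_card _ _ _ _ (fun x _ hp => ?_) _ _ _ h2 h3 ?_
  · by_contra hcon
    push Not at hcon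
    obtain ⟨hc1, hc2⟩ := hcon
    have hc3 := hc1 hp.1
    rw [← series_one, ← series_one] at hc2
    have hs : ∀ u, 0 ≤ seriesTrunc (Fin.cons F₀ (fam P x.2) : Fin (g + 1) → ℤ[X]) G x.1 u :=
      fun u => by
        rw [series_one]
        exact R1_nonneg _ _ _
    have h5 := R2_real (R2_mainT _ _ _) h0.le h1 hc3 hc2 (hs _)
    have h6 := mul_le_mul_of_nonneg_right h4 (mul_nonneg (R2_mainT
      (Fin.cons F₀ (fam P x.2) : Fin (g + 1) → ℤ[X]) G x.1) (hs z))
    linarith [hp.2]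
  · have hvol : 0 ≤ (Y : ℝ) * vol H := by
      unfold vol
      positivity
    nlinarith

end Pool.Agent.Lib.H59X
end
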