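import Pool.Agent.Lib.H59M.M1.M024
import Pool.Agent.Lib.H59M.M1.M057
import Pool.Agent.Lib.H59M.M1.M058
import Pool.Agent.Lib.H59M.M1.M063
import Pool.Agent.Lib.H59M.M1.M065
import Pool.Agent.Lib.H59M.M1.M067
import Pool.Agent.Lib.H59M.M1.M071
import Pool.Agent.Lib.H59M.M1.M073
import Pool.Agent.Lib.H59M.M1.M078
import Pool.Agent.Lib.H59M.M1.M079
import Pool.Agent.Lib.H59M.M1.M082
import Pool.Agent.Lib.H59M.M1.M083

/-! Merged copies (to shorten the build) of Lib.H24P.Z4, Lib.H24P.K3, Lib.HUP.R17, Lib.HUP.R15, Lib.HUP.R7, Lib.HUP.R9, Lib.HUP.R16. -/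

-- from Lib.H24P.Z4
section

/-!
# Project H24P, chunk Z4 (M/L): the core theorem on a dyadic box (compare H59P/Z4)
-/

open Finset Polynomial

namespace Pool.Agent.Lib.H24P

open Pool.Agent.Lib.H68T Pool.Agent.Lib.H18Q Pool.Agent.Lib.H59P

theorem z4_geo {L L' Q X X1 : ℕ} {k : ℕ} {P : Fin k → ℤ[X]} {M : Fin k → ℕ} (h : L' ≤ L)
    (hG : Geo L Q X X1 P M) : Geo L' Q X X1 P M where
  dvd := hG.dvd
  pos := hG.pos
  le := hG.le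
  ge := hG.ge
  dvdM := hG.dvdM
  lo := fun i => (Nat.mul_le_mul_right _ h).trans (hG.lo i)
  hi := hG.hi

theorem z4_rg {K K' C : ℝ} {Q X : ℕ} (h : K' ≤ K) (hR : Rg K C Q X) : Rg K' C Q X :=
  ⟨(mul_le_mul_of_nonneg_right h (Real.log_natCast_nonneg Q)).trans hR.1, hR.2⟩

theorem z4_five (a b c d e : ℂ) :
    ‖a + b + c + d + e‖ ^ 2 ≤ 5 * (‖a‖ ^ 2 + ‖b‖ ^ 2 + ‖c‖ ^ 2 + ‖d‖ ^ 2 + ‖e‖ ^ 2) := by
  have h1 : ‖a + b + c + d + e‖ ≤ ‖a‖ + ‖b‖ + ‖c‖ + ‖d‖ + ‖e‖ :=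
    (norm_add_le _ _).trans (by
      gcongr
      exact (norm_add_le _ _).trans (by
        gcongr
        exact (norm_add_le _ _).trans (by
          gcongr
          exact norm_add_le _ _)))
  refine (pow_le_pow_left₀ (norm_nonneg _) h1 2).trans ?_
  nlinarith [sq_nonneg (‖a‖ - ‖b‖), sq_nonneg (‖a‖ - ‖c‖), sq_nonneg (‖a‖ - ‖d‖),
    sq_nonneg (‖a‖ - ‖e‖), sq_nonneg (‖b‖ - ‖c‖), sq_nonneg (‖b‖ - ‖d‖), sq_nonneg (‖b‖ - ‖e‖),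
    sq_nonneg (‖c‖ - ‖d‖), sq_nonneg (‖c‖ - ‖e‖), sq_nonneg (‖d‖ - ‖e‖)]



end Pool.Agent.Lib.H24P
end

-- from Lib.H24P.K3
section

/-!
# Project H24P, chunk K3 (M/L): the core theorem on a dyadic box
-/

open Finset Polynomial

namespace Pool.Agent.Lib.H24P

open Pool.Agent.Lib.H68T Pool.Agent.Lib.H18Q Pool.Agent.Lib.H59P


theorem k3_fin (A k : ℕ) (ε c1 : ℝ) (hε : 0 < ε) : ∃ Z0 : ℕ, ∀ Z Q X1 : ℕ,
    Z0 ≤ Z → 1 ≤ Q → (4 * c1 / ε) * Real.log Q ≤ Real.log Z → (Z : ℝ) ^ (1 - ε / 2) ≤ X1 →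
    ∀ N R : ℝ, N < (Z : ℝ) ^ (1 - ε) → R ≤ N * ((A + 2) * Real.log Z) ^ (k + 1) →
      R < X1 * ((Q : ℝ) ^ (-(c1 / 2)) / 4) := by
  obtain ⟨Z1, _, hZ1⟩ := G1_log 1 (k + 1) (8 * ((A : ℝ) + 2) ^ (k + 1)) (ε / 4) (by linarith)
  refine ⟨max Z1 3, fun Z Q X1 hZ hQ hlog hX1 N R hN hR => ?_⟩
  have hZ3 : 3 ≤ Z := (le_max_right _ _).trans hZ
  have hZr : (3 : ℝ) ≤ Z := by exact_mod_cast hZ3
  have hZ0 : (0 : ℝ) < Z := by linarith
  have hQ0 : (0 : ℝ) < Q := by exact_mod_cast hQ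
  have hl1 : 1 ≤ Real.log Z := G1_log1 hZ3
  have h1 := hZ1 Z Z ((le_max_left _ _).trans hZ) (by linarith)
  have hTp : 0 < (((A : ℝ) + 2) * Real.log Z) ^ (k + 1) := by
    have : 0 < ((A : ℝ) + 2) * Real.log Z := by positivity
    positivity
  have h2 : 8 * (((A : ℝ) + 2) * Real.log Z) ^ (k + 1) ≤ (Z : ℝ) ^ (ε / 4) := by
    refine le_trans (le_of_eq ?_) h1
    rw [mul_pow]; ring
  have h3 : R < (Z : ℝ) ^ (1 - ε) * ((((A : ℝ) + 2) * Real.log Z) ^ (k + 1)) :=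
    lt_of_le_of_lt hR (mul_lt_mul_of_pos_right hN hTp)
  have h4 : (Z : ℝ) ^ (1 - ε) * ((((A : ℝ) + 2) * Real.log Z) ^ (k + 1)) ≤
      (Z : ℝ) ^ (1 - ε) * ((Z : ℝ) ^ (ε / 4) / 8) :=
    mul_le_mul_of_nonneg_left (by linarith) (Real.rpow_nonneg hZ0.le _)
  have h5 : (Z : ℝ) ^ (1 - ε) * ((Z : ℝ) ^ (ε / 4) / 8) = (Z : ℝ) ^ (1 - 3 * ε / 4) / 8 := by
    rw [mul_div_assoc', ← Real.rpow_add hZ0]
    congr 2
    ring
  have h6 : (Z : ℝ) ^ (-(ε / 8)) ≤ (Q : ℝ) ^ (-(c1 / 2)) := by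
    rw [Real.rpow_def_of_pos hZ0, Real.rpow_def_of_pos hQ0]
    apply Real.exp_le_exp.2
    have h7 := mul_le_mul_of_nonneg_left hlog (by linarith : 0 ≤ ε / 8)
    have h8 : ε / 8 * (4 * c1 / ε * Real.log Q) = c1 / 2 * Real.log Q := by
      field_simp
      ring
    rw [h8] at h7
    linarith
  have h9 : (Z : ℝ) ^ (1 - ε / 2) * ((Z : ℝ) ^ (-(ε / 8)) / 4) ≤ X1 * ((Q : ℝ) ^ (-(c1 / 2)) / 4) := by
    refine mul_le_mul hX1 (by linarith) (div_nonneg (Real.rpow_nonneg hZ0.le _) (by norm_num)) ?_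
    exact Nat.cast_nonneg _
  have h10 : (Z : ℝ) ^ (1 - ε / 2) * ((Z : ℝ) ^ (-(ε / 8)) / 4) = (Z : ℝ) ^ (1 - 5 * ε / 8) / 4 := by
    rw [mul_div_assoc', ← Real.rpow_add hZ0]
    congr 2
    ring
  have h11 : (Z : ℝ) ^ (1 - 3 * ε / 4) ≤ (Z : ℝ) ^ (1 - 5 * ε / 8) :=
    Real.rpow_le_rpow_of_exponent_le (by linarith) (by linarith)
  have h12 : 0 < (Z : ℝ) ^ (1 - 5 * ε / 8) := Real.rpow_pos_of_pos hZ0 _
  rw [h5] at h4
  rw [h10] at h9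
  linarith


end Pool.Agent.Lib.H24P
end

-- from Lib.HUP.R17
section

/-!
# Project HUP, module R (the modules of H24P for an abstract family), R17: the range of n
-/

open Finset Polynomial

namespace Pool.Agent.HUP

open Pool.Agent.Lib.H68T Pool.Agent.Lib.H18Q Pool.Agent.Lib.H59P Pool.Agent.Lib.H24P

/-- **R17** (port of `K2_geo`, H24P/K2.lean, with a small exponent `τ`). Proof. As there with `δ' = τ/(10 (A+1))`:
`m = ⌈Q^δ'⌉`, `X1 = Q^800 ⌊Z/(Q^800 m)⌋`, `δ = δ'/2`. New: `Z ≤ X1 Q^τ` (`X1 ≥ Z/(2m)`, `2 m ≤ 4 Q^δ' ≤ Q^τ`), and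
`M_i ≤ A Z^d ≤ A (4 Q^δ' X1)^d ≤ X1^d Q^τ`. `K` depends only on `ε` (and `A`), `Q0` on everything. -/
theorem R17_geo {k : ℕ} (P : Fin k → ℤ[X]) (A : ℕ) (hA : 1 ≤ A) (hP : Pol A P) (ε : ℝ) (hε : 0 < ε)
    (hε1 : ε ≤ 1 / 2) (L : ℕ) : ∃ K : ℝ, 1 ≤ K ∧ ∀ τ : ℝ, 0 < τ → τ ≤ 1 / 10 → ∃ Q0 : ℕ, ∀ Q Z : ℕ, Q0 ≤ Q →
    K * Real.log Q ≤ Real.log Z → ∃ X1 : ℕ, 0 < X1 ∧ (Z : ℝ) ^ (1 - ε / 2) ≤ X1 ∧ 2 * A * X1 ≤ Z ∧
      Z ≤ X1 * Q ∧ (Z : ℝ) ≤ X1 * (Q : ℝ) ^ τ ∧ Q ^ 800 ∣ X1 ∧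
      (∀ M : Fin k → ℕ, (∀ i, 8 * Q ^ 8 ∣ M i) →
        (∀ i, (Z : ℝ) ^ (P i).natDegree ≤ A * (Q : ℝ) ^ (τ / (20 * (A + 1)) : ℝ) * M i) →
        (∀ i, (M i : ℝ) ≤ A * (Z : ℝ) ^ (P i).natDegree) →
        Geo L Q Z X1 P M ∧ ∀ i, (M i : ℝ) ≤ (X1 : ℝ) ^ (P i).natDegree * (Q : ℝ) ^ τ) ∧
      (∀ B : ℤ[X], Lin A B → OKB A ε Z B → ∃ Y : ℕ, GeoB A Z X1 Y B ∧ Z ≤ Y ^ 2 ∧ Y ≤ Z ^ (A + 1)) := by
  have hAr : (1 : ℝ) ≤ A := by exact_mod_cast hA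
  have hK : (4000 : ℝ) ≤ 2000 / ε := by rw [le_div_iff₀ hε]; nlinarith
  refine ⟨2000 / ε, by linarith, fun τ hτ0 hτ1 => ?_⟩
  set δ : ℝ := τ / (20 * (A + 1)) with hδ
  have hδ0 : 0 < δ := by positivity
  have hδA : δ * (A + 1) = τ / 20 := by rw [hδ]; field_simp
  have hδ1 : δ ≤ 1 / 40 := by nlinarith
  have hδτ : 4 * δ ≤ τ := by nlinarith
  have hδτA : 2 * δ * A ≤ τ / 10 := by nlinarith
  obtain ⟨Q1, hQ1⟩ := k2_ev (2 * A + 4) (2 * δ) (by linarith)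
  obtain ⟨Q2, hQ2⟩ := k2_ev (L * A) δ hδ0
  obtain ⟨Q3, hQ3⟩ := k2_ev (A * 4 ^ A) (τ / 2) (by linarith)
  refine ⟨Q1 + Q2 + Q3 + 16, fun Q Z hQ hKQ => ?_⟩
  have hQ16 : 16 ≤ Q := by omega
  have e1 := hQ1 Q (by omega)
  have e2 := hQ2 Q (by omega)
  have e3 := hQ3 Q (by omega)
  clear hQ1 hQ2 hQ3
  have hq16 : (16 : ℝ) ≤ Q := by exact_mod_cast hQ16
  have hq1 : (1 : ℝ) ≤ Q := by linarith
  have hq0 : (0 : ℝ) < Q := by linarith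
  have hlq : 0 < Real.log Q := Real.log_pos (by linarith)
  have hZ0 : (0 : ℝ) < Z := by
    rcases Nat.eq_zero_or_pos Z with h | h
    · exfalso
      rw [h] at hKQ
      simp only [Nat.cast_zero, Real.log_zero] at hKQ
      have : 0 < 2000 / ε * Real.log Q := by positivity
      linarith
    · exact_mod_cast h
  -- `Q^(2000/ε) ≤ Z`
  have hQK : (Q : ℝ) ^ (2000 / ε : ℝ) ≤ Z := by
    rw [Real.rpow_def_of_pos hq0, ← Real.le_log_iff_exp_le hZ0, mul_comm]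
    exact hKQ
  have hQ4 : (Q : ℝ) ^ (4000 : ℕ) ≤ Z := by
    refine le_trans ?_ hQK
    rw [← Real.rpow_natCast]
    exact Real.rpow_le_rpow_of_exponent_le hq1 (by exact_mod_cast hK)
  have hQ4' : Q ^ 4000 ≤ Z := by exact_mod_cast hQ4
  have hQZ : Q ≤ Z := le_trans (Nat.le_self_pow (by norm_num) Q) hQ4'
  have hZ16 : 16 ≤ Z := by omega
  have hz1 : (1 : ℝ) ≤ Z := by exact_mod_cast (by omega : 1 ≤ Z)
  -- `Q^1000 ≤ Z^(ε/2)`
  have hQe : (Q : ℝ) ^ (1000 : ℕ) ≤ (Z : ℝ) ^ (ε / 2) := by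
    calc (Q : ℝ) ^ (1000 : ℕ) = ((Q : ℝ) ^ (2000 / ε : ℝ)) ^ (ε / 2) := by
          rw [← Real.rpow_mul hq0.le, ← Real.rpow_natCast]
          have : (2000 / ε * (ε / 2) : ℝ) = ((1000 : ℕ) : ℝ) := by
            push_cast
            field_simp
            norm_num
          rw [this]
      _ ≤ (Z : ℝ) ^ (ε / 2) := Real.rpow_le_rpow (by positivity) hQK (by positivity)
  -- `t = Q^δ'`
  set t : ℝ := (Q : ℝ) ^ (2 * δ) with ht
  have ht1 : 1 ≤ t := by linarith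
  have ht0 : 0 < t := by linarith
  have htQ : 4 * t ≤ Q := by
    have h1 : t ≤ (Q : ℝ) ^ (1 / 2 : ℝ) := Real.rpow_le_rpow_of_exponent_le hq1 (by linarith)
    have h2 : (4 : ℝ) ≤ (Q : ℝ) ^ (1 / 2 : ℝ) := by
      rw [← Real.sqrt_eq_rpow]
      exact Real.le_sqrt_of_sq_le (by linarith)
    have h3 : (Q : ℝ) ^ (1 / 2 : ℝ) * (Q : ℝ) ^ (1 / 2 : ℝ) = Q := by
      rw [← Real.rpow_add hq0]
      norm_num
    calc 4 * t ≤ (Q : ℝ) ^ (1 / 2 : ℝ) * (Q : ℝ) ^ (1 / 2 : ℝ) :=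
          mul_le_mul h2 h1 ht0.le (by positivity)
      _ = Q := h3
  set m : ℕ := ⌈t⌉₊ with hm
  have hm1 : t ≤ m := Nat.le_ceil t
  have hm2 : (m : ℝ) ≤ 2 * t := by
    have := (Nat.ceil_lt_add_one ht0.le).le
    linarith
  have hm0 : 0 < m := Nat.ceil_pos.mpr ht0
  have hmQ : m ≤ Q := by
    have : (m : ℝ) ≤ Q := by linarith
    exact_mod_cast this
  set V : ℕ := Q ^ 800 * m with hV
  have hV0 : 0 < V := by positivity
  have h2V : 2 * V ≤ Z := by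
    have h1 : V ≤ Q ^ 801 := by
      rw [hV, pow_succ]
      exact Nat.mul_le_mul_left _ hmQ
    have h2 : 2 * Q ^ 801 ≤ Q ^ 802 := by
      rw [pow_succ Q 801, mul_comm]
      exact Nat.mul_le_mul_left _ (by omega)
    have h3 : Q ^ 802 ≤ Q ^ 4000 := Nat.pow_le_pow_right (by omega) (by norm_num)
    exact (Nat.mul_le_mul_left 2 h1).trans (h2.trans (h3.trans hQ4'))
  set X1 : ℕ := Q ^ 800 * (Z / V) with hX1
  have hXm : X1 * m ≤ Z := by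
    calc X1 * m = V * (Z / V) := by rw [hX1, hV]; ring
      _ ≤ Z := Nat.mul_div_le Z V
  have hXm2 : Z ≤ 2 * (X1 * m) := by
    have h1 : X1 * m = V * (Z / V) := by rw [hX1, hV]; ring
    have h2 := Nat.div_add_mod Z V
    have h3 := Nat.mod_lt Z hV0
    rw [h1]
    omega
  -- real versions
  have hx1 : (X1 : ℝ) * t ≤ Z := by
    calc (X1 : ℝ) * t ≤ X1 * m := mul_le_mul_of_nonneg_left hm1 (by positivity)
      _ ≤ Z := by exact_mod_cast hXm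
  have hx2 : (Z : ℝ) ≤ X1 * (4 * t) := by
    have h1 : (Z : ℝ) ≤ 2 * (X1 * m) := by exact_mod_cast hXm2
    have h2 : (X1 : ℝ) * m ≤ X1 * (2 * t) := mul_le_mul_of_nonneg_left hm2 (by positivity)
    linarith
  have hXpos : 0 < X1 := by
    rcases Nat.eq_zero_or_pos X1 with h | h
    · rw [h] at hx2
      simp only [Nat.cast_zero, zero_mul] at hx2
      linarith
    · exact h
  have hXr : (0 : ℝ) < X1 := by exact_mod_cast hXpos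
  have hZe : (Z : ℝ) ^ (1 - ε / 2) ≤ X1 := by
    have h1 : 4 * t ≤ (Z : ℝ) ^ (ε / 2) := by
      refine htQ.trans (le_trans ?_ hQe)
      exact le_self_pow₀ hq1 (by norm_num)
    have h2 : (Z : ℝ) ^ (1 - ε / 2) * (Z : ℝ) ^ (ε / 2) = Z := by
      rw [← Real.rpow_add hZ0]
      norm_num
    have h3 : (Z : ℝ) ^ (1 - ε / 2) * (Z : ℝ) ^ (ε / 2) ≤ X1 * (Z : ℝ) ^ (ε / 2) := by
      rw [h2]
      exact hx2.trans (mul_le_mul_of_nonneg_left h1 hXr.le)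
    exact le_of_mul_le_mul_right h3 (Real.rpow_pos_of_pos hZ0 _)
  have hAX : 2 * A * X1 ≤ Z := by
    have h1 : (2 * A : ℝ) ≤ t := by linarith
    have h2 : (2 * A * X1 : ℝ) ≤ Z := by
      calc (2 * A * X1 : ℝ) ≤ t * X1 := mul_le_mul_of_nonneg_right h1 hXr.le
        _ = X1 * t := mul_comm _ _
        _ ≤ Z := hx1
    exact_mod_cast h2
  have hZX : Z ≤ X1 * Q := by
    have h1 : (Z : ℝ) ≤ X1 * Q := hx2.trans (mul_le_mul_of_nonneg_left htQ hXr.le)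
    exact_mod_cast h1
  have hZτ : (Z : ℝ) ≤ X1 * (Q : ℝ) ^ τ := by
    refine hx2.trans (mul_le_mul_of_nonneg_left ?_ hXr.le)
    have h1 : t * t = (Q : ℝ) ^ (4 * δ) := by
      rw [ht, ← Real.rpow_add hq0]
      congr 1
      ring
    calc 4 * t ≤ t * t := mul_le_mul_of_nonneg_right (by linarith) ht0.le
      _ = (Q : ℝ) ^ (4 * δ) := h1
      _ ≤ (Q : ℝ) ^ τ := Real.rpow_le_rpow_of_exponent_le hq1 hδτ
  have hXZ : X1 ≤ Z := by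
    calc X1 ≤ X1 * m := Nat.le_mul_of_pos_right _ hm0
      _ ≤ Z := hXm
  have hdvd : Q ^ 800 ∣ X1 := ⟨_, hX1⟩
  refine ⟨X1, hXpos, hZe, hAX, hZX, hZτ, hdvd, ?_, ?_⟩
  · intro M hM1 hM2 hM3
    have hMτ : ∀ i, (M i : ℝ) ≤ (X1 : ℝ) ^ (P i).natDegree * (Q : ℝ) ^ τ := by
      intro i
      set d := (P i).natDegree with hd
      have hdA : d ≤ A := hP.degA i
      refine (hM3 i).trans ?_
      have h1 : (Z : ℝ) ^ d ≤ (X1 : ℝ) ^ d * (4 * t) ^ d := by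
        rw [← mul_pow]
        exact pow_le_pow_left₀ hZ0.le hx2 d
      have h2 : (4 * t) ^ d ≤ (4 : ℝ) ^ A * (Q : ℝ) ^ (τ / 10) := by
        rw [mul_pow]
        refine mul_le_mul (pow_le_pow_right₀ (by norm_num) hdA) ?_ (by positivity) (by positivity)
        calc t ^ d ≤ t ^ A := pow_le_pow_right₀ ht1 hdA
          _ = (Q : ℝ) ^ (2 * δ * A) := by rw [ht, ← Real.rpow_natCast, ← Real.rpow_mul hq0.le]
          _ ≤ (Q : ℝ) ^ (τ / 10) := Real.rpow_le_rpow_of_exponent_le hq1 hδτA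
      have h3 : (Q : ℝ) ^ (τ / 2) * (Q : ℝ) ^ (τ / 10) ≤ (Q : ℝ) ^ τ := by
        rw [← Real.rpow_add hq0]
        exact Real.rpow_le_rpow_of_exponent_le hq1 (by linarith)
      have h4 : (0 : ℝ) < (Q : ℝ) ^ (τ / 10) := Real.rpow_pos_of_pos hq0 _
      calc (A : ℝ) * (Z : ℝ) ^ d ≤ A * ((X1 : ℝ) ^ d * ((4 : ℝ) ^ A * (Q : ℝ) ^ (τ / 10))) :=
            mul_le_mul_of_nonneg_left (h1.trans (mul_le_mul_of_nonneg_left h2 (by positivity)))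
              (by positivity)
        _ = (X1 : ℝ) ^ d * ((A * (4 : ℝ) ^ A) * (Q : ℝ) ^ (τ / 10)) := by ring
        _ ≤ (X1 : ℝ) ^ d * ((Q : ℝ) ^ (τ / 2) * (Q : ℝ) ^ (τ / 10)) :=
            mul_le_mul_of_nonneg_left (mul_le_mul_of_nonneg_right e3 h4.le) (by positivity)
        _ ≤ (X1 : ℝ) ^ d * (Q : ℝ) ^ τ := mul_le_mul_of_nonneg_left h3 (by positivity)
    refine ⟨⟨hdvd, hXpos, hXZ, hZX, hM1, ?_, ?_⟩, hMτ⟩
    · intro i
      set d := (P i).natDegree with hd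
      have hd1 : 1 ≤ d := hP.deg i
      have h1 : (X1 : ℝ) ^ d * t ≤ (Z : ℝ) ^ d := by
        calc (X1 : ℝ) ^ d * t ≤ (X1 : ℝ) ^ d * t ^ d :=
              mul_le_mul_of_nonneg_left (le_self_pow₀ ht1 (by omega)) (by positivity)
          _ = (X1 * t) ^ d := by rw [mul_pow]
          _ ≤ (Z : ℝ) ^ d := pow_le_pow_left₀ (by positivity) hx1 d
      have h2 : (Q : ℝ) ^ δ * (Q : ℝ) ^ δ = t := by
        rw [← Real.rpow_add hq0, ht]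
        congr 1
        ring
      have h3 : (0 : ℝ) < (Q : ℝ) ^ δ := Real.rpow_pos_of_pos hq0 _
      have h4 := hM2 i
      have h5 : ((L * X1 ^ d : ℕ) : ℝ) * t ≤ M i * t := by
        push_cast
        calc (L : ℝ) * (X1 : ℝ) ^ d * t = L * ((X1 : ℝ) ^ d * t) := by ring
          _ ≤ L * (A * (Q : ℝ) ^ δ * M i) :=
              mul_le_mul_of_nonneg_left (h1.trans h4) (by positivity)
          _ = (L * A) * ((Q : ℝ) ^ δ * M i) := by ring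
          _ ≤ (Q : ℝ) ^ δ * ((Q : ℝ) ^ δ * M i) :=
              mul_le_mul_of_nonneg_right e2 (by positivity)
          _ = M i * ((Q : ℝ) ^ δ * (Q : ℝ) ^ δ) := by ring
          _ = M i * t := by rw [h2]
      have h6 := le_of_mul_le_mul_right h5 ht0
      exact_mod_cast h6
    · intro i
      refine (hMτ i).trans (mul_le_mul_of_nonneg_left ?_ (by positivity))
      exact Real.rpow_le_rpow_of_exponent_le hq1 (by linarith)
  · intro B hB hOK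
    have hne : (Ico X1 (2 * X1)).Nonempty := ⟨X1, mem_Ico.mpr ⟨le_rfl, by omega⟩⟩
    obtain ⟨n0, hn0, hmin⟩ := exists_min_image (Ico X1 (2 * X1)) (fun n : ℕ => B.eval (n : ℤ)) hne
    have hZ' : ∀ n ∈ Ico X1 (2 * X1), (Z : ℝ) ^ (1 - ε) ≤ n ∧ A * n ≤ Z := by
      intro n hn
      rw [mem_Ico] at hn
      constructor
      · calc (Z : ℝ) ^ (1 - ε) ≤ (Z : ℝ) ^ (1 - ε / 2) :=
              Real.rpow_le_rpow_of_exponent_le hz1 (by linarith)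
          _ ≤ X1 := hZe
          _ ≤ n := by exact_mod_cast hn.1
      · calc A * n ≤ A * (2 * X1) := Nat.mul_le_mul_left A (by omega)
          _ = 2 * A * X1 := by ring
          _ ≤ Z := hAX
    obtain ⟨g1, g2⟩ := hZ' n0 hn0
    have hn0' := mem_Ico.mp hn0
    have hlo := hOK.lo n0 g1 g2
    have hhi := hOK.hi n0 g1 g2
    have hn0z : (X1 : ℤ) ≤ n0 := by exact_mod_cast hn0'.1
    have hX1z : (0 : ℤ) < X1 := by exact_mod_cast hXpos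
    have hpos : 0 < B.eval (n0 : ℤ) := by linarith
    obtain ⟨Y, hY⟩ := Int.eq_ofNat_of_zero_le hpos.le
    have hYA : Y ≤ A * Z := by
      rw [hY] at hhi
      exact_mod_cast hhi
    have hXY : X1 ≤ 2 * Y := by
      rw [hY] at hlo
      have : (X1 : ℤ) ≤ 2 * (Y : ℤ) := hn0z.trans hlo
      exact_mod_cast this
    refine ⟨Y, ⟨hB, ?_, ?_, hXY, hYA⟩, ?_, ?_⟩
    · intro n hn
      have := hmin n hn
      rw [hY] at this
      exact this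
    · intro n hn
      obtain ⟨f1, f2⟩ := hZ' n hn
      have hn' := mem_Ico.mp hn
      rcases le_total n0 n with hle | hle
      · have := hOK.cmp1 n0 n g1 g2 hle (by omega)
        rw [hY] at this
        exact this
      · have := hOK.cmp2 n n0 f1 f2 hle (by omega)
        rw [hY] at this
        exact this
    · -- `Z ≤ Y²`
      have h1 : (Z : ℝ) ^ (3 / 4 : ℝ) ≤ 2 * Y := by
        calc (Z : ℝ) ^ (3 / 4 : ℝ) ≤ (Z : ℝ) ^ (1 - ε / 2) :=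
              Real.rpow_le_rpow_of_exponent_le hz1 (by linarith)
          _ ≤ X1 := hZe
          _ ≤ 2 * Y := by exact_mod_cast hXY
      have h2 : ((Z : ℝ) ^ (3 / 4 : ℝ)) ^ 2 ≤ (2 * Y) ^ 2 := pow_le_pow_left₀ (by positivity) h1 2
      have h3 : ((Z : ℝ) ^ (3 / 4 : ℝ)) ^ 2 = Z * (Z : ℝ) ^ (1 / 2 : ℝ) := by
        rw [← Real.rpow_natCast, ← Real.rpow_mul hZ0.le, ← Real.rpow_one_add' hZ0.le (by norm_num)]
        congr 1
        norm_num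
      have h4 : (4 : ℝ) ≤ (Z : ℝ) ^ (1 / 2 : ℝ) := by
        rw [← Real.sqrt_eq_rpow]
        refine Real.le_sqrt_of_sq_le ?_
        have : (16 : ℝ) ≤ Z := by exact_mod_cast hZ16
        linarith
      have h5 : (Z : ℝ) * 4 ≤ Z * (Z : ℝ) ^ (1 / 2 : ℝ) := mul_le_mul_of_nonneg_left h4 hZ0.le
      have h6 : (Z : ℝ) ≤ (Y : ℝ) ^ 2 := by
        rw [h3] at h2
        have h7 : (2 * (Y : ℝ)) ^ 2 = 4 * (Y : ℝ) ^ 2 := by ring
        linarith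
      exact_mod_cast h6
    · calc Y ≤ A * Z := hYA
        _ ≤ Z ^ A * Z := Nat.mul_le_mul_right Z (Nat.lt_pow_self (by omega)).le
        _ = Z ^ (A + 1) := by ring

end Pool.Agent.HUP
end

-- from Lib.HUP.R15
section

/-!
# Project HUP, module R (the modules of H24P for an abstract family), R15: lower bound for the main term
-/

open Finset Polynomial

namespace Pool.Agent.HUP

open Pool.Agent.Lib.H68T Pool.Agent.Lib.H18Q Pool.Agent.Lib.H59P Pool.Agent.Lib.H24P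

/-- **R15** (port of `Z3_main`, H24P/Z3.lean). Proof. As there (`Z3_cell`, unchanged, for each `n`); the coefficients `cfb` have the
base points `B(bs n)` and `P_i(bs n) + h0_i`, `h0 ∈ cub M M`. -/
theorem R15_main {k : ℕ} (P : Fin k → ℤ[X]) (A L Q X X1 Y : ℕ) (hQ : 1 ≤ Q) (M : Fin k → ℕ) (B : ℤ[X])
    (hG : Geo L Q X X1 P M) (hGB : GeoB A X X1 Y B)
    (hP8 : ∀ i, ∀ n ∈ Ico X1 (2 * X1), 8 * |(P i).eval (n : ℤ)| ≤ M i) (η E0 : ℝ) (px : Ch)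
    (th : ℤ → ℝ) (hpx : px ∈ PC Q) (hcond : B.leadingCoeff.natAbs * px.1 ≤ fl Q (1 / 16))
    (hMB : Mdl (Q ^ 100) Y η E0 px th) (hM : ∀ i, Mdl Q (Ysc (M i)) η E0 px th)
    (hE0 : 0 ≤ E0) (hE : 4 * (k + 1) * E0 ≤ 1)
    (e0 : ℤ → Ch → ℂ) (eb0 : Ch → ℝ) (heb0 : ∀ p ∈ PC (Q ^ 100), 0 ≤ eb0 p)
    (hs0 : ∑ p ∈ PC (Q ^ 100), eb0 p ≤ η * E0)
    (he0 : ∀ m : ℤ, (Y : ℤ) ≤ m → m ≤ 4 * Y → ∀ p ∈ PC (Q ^ 100), ‖e0 m p‖ ≤ eb0 p)
    (e : Fin k → ℤ → Ch → ℂ) (eb : Fin k → Ch → ℝ) (hs : ∀ i, ∑ p ∈ PC Q, eb i p ≤ η * E0)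
    (he : ∀ i, ∀ m : ℤ, (Ysc (M i) : ℤ) ≤ m → m ≤ 4 * Ysc (M i) → ∀ p ∈ PC Q, ‖e i m p‖ ≤ eb i p)
    (h0 : Fin k → ℕ) (hh0 : h0 ∈ cub M M) (h : Fin k → ℕ) (m : ℝ)
    (hm' : ∀ th' : Fin (k + 1) → ℝ, (∀ i, 0 ≤ th' i) → (∀ i, th' i ≤ 1 - η) →
      (px = p0 → ∀ i, th' i = 0) → m ≤ PMf Q px th' (sys B P h)) :
    X1 * (m / 2) ≤ (MZb Q X1 (B.leadingCoeff.natAbs * px.1) P B (fun m p => MX px th m p + e0 m p)
      (fun i m p => MX px th m p + e i m p) h0 h).re := by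
  have hX1 : 0 < X1 := hG.pos
  have hm0 : 0 < B.leadingCoeff.natAbs * px.1 := by
    refine Nat.mul_pos ?_ (mem_PC.1 hpx).1
    rw [Int.natAbs_pos, leadingCoeff_ne_zero]
    intro h0
    have h1 := hGB.lin.deg
    rw [h0, natDegree_zero] at h1
    exact absurd h1 (by norm_num)
  have hQ8 : Q ^ 8 ∣ X1 := (pow_dvd_pow Q (by norm_num)).trans hG.dvd
  have hbs : ∀ (D N n : ℕ), D ∣ N → 0 < N → n ∈ Ico N (2 * N) → bs (N / D) n ∈ Ico N (2 * N) := by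
    intro D N n hD hN hn
    rw [mem_Ico] at hn ⊢
    obtain ⟨q, rfl⟩ := hD
    have hD0 : 0 < D := Nat.pos_of_ne_zero (by rintro rfl; simp at hN)
    have hq0 : 0 < q := Nat.pos_of_ne_zero (by rintro rfl; simp at hN)
    rw [Nat.mul_div_cancel_left q hD0]
    unfold bs
    constructor
    · have h1 : D ≤ n / q := by
        rw [Nat.le_div_iff_mul_le hq0]
        exact hn.1
      exact Nat.mul_le_mul_right q h1
    · exact lt_of_le_of_lt (Nat.div_mul_le_self n q) hn.2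
  have hh' : ∀ i, h0 i ∈ Ico (M i) (2 * M i) := by
    intro i
    have h1 := Fintype.mem_piFinset.1 hh0 i
    rw [mem_Ico] at h1 ⊢
    omega
  have hY : ∀ n ∈ Ico X1 (2 * X1), (Y : ℤ) ≤ B.eval ((bs (X1 / Q ^ 800) n : ℕ) : ℤ) ∧
      B.eval ((bs (X1 / Q ^ 800) n : ℕ) : ℤ) ≤ 4 * Y := by
    intro n hn
    have h1 := hbs _ X1 n hG.dvd hX1 hn
    have h2 := hGB.lo _ h1
    have h3 := hGB.hi _ h1
    exact ⟨h2, by linarith⟩
  have hYi : ∀ n ∈ Ico X1 (2 * X1), ∀ i, (Ysc (M i) : ℤ) ≤ (P i).eval ((bs (X1 / Q ^ 8) n : ℕ) : ℤ) + (h0 i : ℤ) ∧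
      (P i).eval ((bs (X1 / Q ^ 8) n : ℕ) : ℤ) + (h0 i : ℤ) ≤ 4 * Ysc (M i) := by
    intro n hn i
    have h1 := hbs _ X1 n hQ8 hX1 hn
    obtain ⟨h3, h4, -⟩ := G2_val (M i) _ _ ((Dvd.intro _ rfl : 8 ∣ 8 * Q ^ 8).trans (hG.dvdM i))
      (hP8 i _ h1) (hh' i)
    constructor
    · exact h3
    · have h5 : (0 : ℤ) ≤ Ysc (M i) := by positivity
      linarith
  have hsub : PC Q ⊆ PC (Q ^ 100) := by
    intro p hp
    rw [mem_PC] at hp ⊢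
    exact ⟨hp.1, hp.2.1.trans (Nat.le_self_pow (by norm_num) Q), hp.2.2⟩
  have hcell : ∀ n ∈ Ico X1 (2 * X1), m / 2 ≤ (MDf Q (B.leadingCoeff.natAbs * px.1)
      (cfb Q X1 P B (fun m p => MX px th m p + e0 m p) (fun i m p => MX px th m p + e i m p) h0 n)
      (sys B P h)).re := by
    intro n hn
    refine Z3_cell (k := k + 1) Q (B.leadingCoeff.natAbs * px.1) hQ η E0 px hpx hMB.real
      (Dvd.intro_left _ rfl) hm0 hcond hMB.eta_pos hE0 (by push_cast; exact hE) (sys B P h)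
      (Fin.cons (th (B.eval ((bs (X1 / Q ^ 800) n : ℕ) : ℤ)))
        (fun i => th ((P i).eval ((bs (X1 / Q ^ 8) n : ℕ) : ℤ) + (h0 i : ℤ)))) ?_ ?_ ?_
      (Fin.cons (e0 (B.eval ((bs (X1 / Q ^ 800) n : ℕ) : ℤ)))
        (fun i => e i ((P i).eval ((bs (X1 / Q ^ 8) n : ℕ) : ℤ) + (h0 i : ℤ)))) _ ?_ ?_ m hm'
    · intro i
      refine Fin.cases ?_ (fun i => ?_) i
      · rw [Fin.cons_zero]
        exact hMB.nonneg _ (hY n hn).1 (hY n hn).2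
      · rw [Fin.cons_succ]
        exact (hM i).nonneg _ (hYi n hn i).1 (hYi n hn i).2
    · intro i
      refine Fin.cases ?_ (fun i => ?_) i
      · rw [Fin.cons_zero]
        exact hMB.le _ (hY n hn).1 (hY n hn).2
      · rw [Fin.cons_succ]
        exact (hM i).le _ (hYi n hn i).1 (hYi n hn i).2
    · intro hp0 i
      refine Fin.cases ?_ (fun i => ?_) i
      · rw [Fin.cons_zero]
        exact hMB.triv hp0 _
      · rw [Fin.cons_succ]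
        exact (hM i).triv hp0 _
    · intro i
      refine Fin.cases ?_ (fun i => ?_) i
      · simp only [Fin.cons_zero]
        refine (Finset.sum_le_sum fun p hp => he0 _ (hY n hn).1 (hY n hn).2 p (hsub hp)).trans ?_
        exact (Finset.sum_le_sum_of_subset_of_nonneg hsub fun p hp _ => heb0 p hp).trans hs0
      · simp only [Fin.cons_succ]
        exact (Finset.sum_le_sum fun p hp => he i _ (hYi n hn i).1 (hYi n hn i).2 p hp).trans (hs i)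
    · intro i
      refine Fin.cases ?_ (fun i => ?_) i
      · intro p
        rfl
      · intro p
        rfl
  unfold MZb
  rw [Complex.re_sum]
  have h1 := Finset.sum_le_sum hcell
  rw [Finset.sum_const, Nat.card_Ico, nsmul_eq_mul] at h1
  have h2 : 2 * X1 - X1 = X1 := by omega
  rw [h2] at h1
  exact h1

end Pool.Agent.HUP
end

-- from Lib.HUP.R7
section

/-!
# Project HUP, module R (the modules of H24P for an abstract family), R7: one cell, main term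
-/

open Finset Polynomial

namespace Pool.Agent.HUP

open Pool.Agent.Lib.H68T Pool.Agent.Lib.H18Q Pool.Agent.Lib.H59P Pool.Agent.Lib.H24P

/-- **R7** (port of `Z2A_cell`, H24P/Z2A.lean). Proof. As there with `R3_small`, `R4_large`. -/
theorem R7_cell (k A E : ℕ) (hA : 1 ≤ A) (Cc cc : ℝ) (hC : FPar Cc cc) : ∃ c : ℝ, 0 < c ∧ ∃ Q0 : ℕ, ∀ Q : ℕ, Q0 ≤ Q →
    ∀ B : ℤ[X], Lin A B → ∀ P : Fin k → ℤ[X], Pol A P → ∀ r : ℕ, 1 ≤ r → r ^ 100 ≤ Q →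
    ∀ c0 : Ch → ℂ, ∑ p ∈ PC (Q ^ 100), ‖c0 p‖ ≤ 3 → ∀ c' : Fin k → Ch → ℂ,
    (∀ i, ∑ p ∈ PC Q, ‖c' i p‖ ≤ 3) →
    ∀ (ι : Type) (S : Finset ι) (g : ι → Fin k → ℕ), FGood E Cc cc (Q ^ 2) P S g →
    ∀ a H : ℕ, Q ^ 600 ≤ H → Q ^ E ≤ H →
    ∑ x ∈ S, ‖∑ n ∈ Ico a (a + H), SG (Q ^ 100) c0 (B.eval (n : ℤ)) *
        ∏ i, SG Q (c' i) ((P i).eval (n : ℤ) + g x i) -
      H * MCf Q (B.leadingCoeff.natAbs * r) (Fin.cons c0 c' : Fin (k + 1) → Ch → ℂ) (sys B P (g x))‖ ^ 2 ≤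
      S.card * H ^ 2 * (Q : ℝ) ^ (-c) := by
  classical
  obtain ⟨c1, hc1, Q1, h1⟩ := R3_small k A E Cc cc hC
  obtain ⟨c2, hc2, Q2, h2⟩ := R4_large k A E hA Cc cc hC
  have hcm : 0 < min c1 c2 := lt_min hc1 hc2
  obtain ⟨Q3, hQ31, h3⟩ := G1_rlog (9 ^ (k + 1)) 0 (min c1 c2 / 2) (by linarith)
  refine ⟨min c1 c2 / 2, by linarith, max 1 (max Q1 (max Q2 Q3)), ?_⟩
  intro Q hQ B hB P hP r hr1 hr c0 hc0 c' hc' ι S g hg a H hH hHE
  have hQ1 : 1 ≤ Q := (le_max_left _ _).trans hQ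
  have hQQ1 : Q1 ≤ Q := (le_max_left _ _).trans ((le_max_right _ _).trans hQ)
  have hQQ2 : Q2 ≤ Q := (le_max_left _ _).trans ((le_max_right _ _).trans ((le_max_right _ _).trans hQ))
  have hQQ3 : Q3 ≤ Q := (le_max_right _ _).trans ((le_max_right _ _).trans ((le_max_right _ _).trans hQ))
  have hQ1r : (1 : ℝ) ≤ Q := by exact_mod_cast hQ1
  have hQ0r : (0 : ℝ) < Q := by linarith
  have hV : 0 ≤ (S.card : ℝ) * (H : ℝ) ^ 2 := mul_nonneg (Nat.cast_nonneg _) (sq_nonneg _)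
  have h9 : (9 : ℝ) ^ (k + 1) ≤ (Q : ℝ) ^ (min c1 c2 / 2) := by
    have := h3 Q hQQ3
    rwa [Real.rpow_zero, mul_one] at this
  set m0 : ℕ := B.leadingCoeff.natAbs * r with hm0
  have hlc : 1 ≤ B.leadingCoeff.natAbs := by
    have hB0 : B ≠ 0 := by
      intro h0
      have := hB.deg
      rw [h0, natDegree_zero] at this
      omega
    have : B.leadingCoeff ≠ 0 := leadingCoeff_ne_zero.2 hB0
    omega
  have hm01 : 1 ≤ m0 := Nat.mul_pos hlc hr1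
  have hdvd : B.leadingCoeff.natAbs ∣ m0 := Dvd.intro _ rfl
  set W : ℝ := S.card * (H : ℝ) ^ 2 * (Q : ℝ) ^ (-(min c1 c2)) with hW
  have hW0 : 0 ≤ W := mul_nonneg hV (Real.rpow_nonneg hQ0r.le _)
  have hWle : ∀ c : ℝ, min c1 c2 ≤ c → S.card * (H : ℝ) ^ 2 * (Q : ℝ) ^ (-c) ≤ W := by
    intro c hc
    exact mul_le_mul_of_nonneg_left (Real.rpow_le_rpow_of_exponent_le hQ1r (by linarith)) hV
  set f : (Fin (k + 1) → Ch) → ι → ℂ := fun p x =>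
    if p ∈ TSf (k + 1) Q (fl Q (1 / 16)) m0 then z2a_f Q m0 B P a H p (g x) - z2a_g Q m0 B P H p (g x)
    else z2a_f Q m0 B P a H p (g x) with hfdef
  have hf1 : ∀ p ∈ TSf (k + 1) Q (fl Q (1 / 16)) m0, ∀ x, f p x =
      z2a_f Q m0 B P a H p (g x) - z2a_g Q m0 B P H p (g x) := by
    intro p hp x
    rw [hfdef]
    exact if_pos hp
  have hf2 : ∀ p, p ∉ TSf (k + 1) Q (fl Q (1 / 16)) m0 → ∀ x, f p x = z2a_f Q m0 B P a H p (g x) := by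
    intro p hp x
    rw [hfdef]
    exact if_neg hp
  have hdec : ∀ x ∈ S, ‖∑ n ∈ Ico a (a + H), SG (Q ^ 100) c0 (B.eval (n : ℤ)) *
        ∏ i, SG Q (c' i) ((P i).eval (n : ℤ) + g x i) -
      H * MCf Q m0 (Fin.cons c0 c' : Fin (k + 1) → Ch → ℂ) (sys B P (g x))‖ ^ 2 =
      ‖∑ p ∈ z2a_I k Q, (∏ i, (Fin.cons c0 c' : Fin (k + 1) → Ch → ℂ) i (p i)) * f p x‖ ^ 2 := by
    intro x _
    rw [z2a_dec Q m0 hQ1 B P a H c0 c' (g x) (fun p => f p x) (fun p hp => hf1 p hp x)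
      (fun p hp => hf2 p hp x)]
  rw [Finset.sum_congr rfl hdec]
  have hmain := Z2a S (z2a_I k Q)
    (fun p => ∏ i, (Fin.cons c0 c' : Fin (k + 1) → Ch → ℂ) i (p i)) f (3 ^ (k + 1)) W hW0
    (z2a_gam Q c0 hc0 c' hc') ?_
  · refine hmain.trans ?_
    have e1 : ((3 : ℝ) ^ (k + 1)) ^ 2 = 9 ^ (k + 1) := by
      rw [← pow_mul, mul_comm, pow_mul]
      norm_num
    have e2 : (Q : ℝ) ^ (-(min c1 c2 / 2)) = (Q : ℝ) ^ (min c1 c2 / 2) * (Q : ℝ) ^ (-(min c1 c2)) := by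
      rw [← Real.rpow_add hQ0r]
      congr 1
      ring
    rw [e1, e2]
    have e3 := mul_le_mul_of_nonneg_right h9 hW0
    refine e3.trans (le_of_eq ?_)
    rw [hW]
    ring
  · intro p hp
    obtain ⟨hp0, hps⟩ := z2a_mem.1 hp
    by_cases hpT : p ∈ TSf (k + 1) Q (fl Q (1 / 16)) m0
    · have e1 := h1 Q hQQ1 B hB P hP m0 hm01 hdvd p hpT ι S g hg a H hH hHE
      have e2 : ∑ x ∈ S, ‖f p x‖ ^ 2 = ∑ x ∈ S,
          ‖∑ n ∈ Ico a (a + H), Fc (Q ^ 100) (p 0) (B.eval (n : ℤ)) *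
              ∏ i : Fin k, Fc Q (p i.succ) ((P i).eval (n : ℤ) + g x i) -
            H * (MRf p (Rf m0 p) (sys B P (g x)) *
              ((∑ d ∈ SF (fl Q (1 / 2) / Rf m0 p) (Rf m0 p), tdf d (sys B P (g x)) : ℝ) : ℂ))‖ ^ 2 :=
        Finset.sum_congr rfl fun x _ => by rw [hf1 p hpT x]; rfl
      rw [e2]
      exact e1.trans (hWle c1 (min_le_left _ _))
    · have e1 := h2 Q hQQ2 B hB P hP r hr1 hr p hp0 hps hpT ι S g hg a H hH hHE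
      have e2 : ∑ x ∈ S, ‖f p x‖ ^ 2 = ∑ x ∈ S,
          ‖∑ n ∈ Ico a (a + H), Fc (Q ^ 100) (p 0) (B.eval (n : ℤ)) *
              ∏ i : Fin k, Fc Q (p i.succ) ((P i).eval (n : ℤ) + g x i)‖ ^ 2 :=
        Finset.sum_congr rfl fun x _ => by rw [hf2 p hpT x]; rfl
      rw [e2]
      exact e1.trans (hWle c2 (min_le_right _ _))

end Pool.Agent.HUP
end

-- from Lib.HUP.R9
section

/-!
# Project HUP, module R (the modules of H24P for an abstract family), R9: from the frozen sums to the main term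
-/

open Finset Polynomial

namespace Pool.Agent.HUP

open Pool.Agent.Lib.H68T Pool.Agent.Lib.H18Q Pool.Agent.Lib.H59P Pool.Agent.Lib.H24P

theorem r9_X {K C : ℝ} {E Q X X1 : ℕ} (hK : 1500 + (E : ℝ) ≤ K) (hQ : 1 ≤ Q) (hR : Rg K C Q X) (hX : 0 < X)
    (hX1 : X ≤ X1 * Q) : Q ^ 600 ≤ X1 / Q ^ 800 ∧ Q ^ E ≤ X1 / Q ^ 800 := by
  have hQr : (0 : ℝ) < Q := by exact_mod_cast hQ
  have hXr : (0 : ℝ) < X := by exact_mod_cast hX
  have hlQ : 0 ≤ Real.log Q := Real.log_natCast_nonneg Q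
  have h1 : Real.log ((Q : ℝ) ^ (1500 + E)) ≤ Real.log X := by
    rw [Real.log_pow]
    refine le_trans ?_ hR.1
    push_cast
    exact mul_le_mul_of_nonneg_right hK hlQ
  have h2 : (Q : ℝ) ^ (1500 + E) ≤ X := (Real.log_le_log_iff (by positivity) hXr).1 h1
  have h3 : Q ^ (1500 + E) ≤ X := by exact_mod_cast h2
  have h4 : Q ^ (1499 + E) * Q ≤ X1 * Q := by
    calc Q ^ (1499 + E) * Q = Q ^ (1500 + E) := by ring
      _ ≤ X := h3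
      _ ≤ X1 * Q := hX1
  have h5 : Q ^ (1499 + E) ≤ X1 := Nat.le_of_mul_le_mul_right h4 hQ
  rw [Nat.le_div_iff_mul_le (Nat.pow_pos hQ), Nat.le_div_iff_mul_le (Nat.pow_pos hQ)]
  constructor
  · calc Q ^ 600 * Q ^ 800 = Q ^ 1400 := by ring
      _ ≤ Q ^ (1499 + E) := Nat.pow_le_pow_right hQ (by omega)
      _ ≤ X1 := h5
  · calc Q ^ E * Q ^ 800 = Q ^ (E + 800) := by ring
      _ ≤ Q ^ (1499 + E) := Nat.pow_le_pow_right hQ (by omega)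
      _ ≤ X1 := h5

/-- From the short cells to the dyadic interval. -/
theorem r9_cells {ι : Type} (S : Finset ι) (X1 H N : ℕ) (hX : X1 = H * N) (W : ℝ) (F : ι → ℕ → ℂ)
    (hF : ∀ j < N, ∑ x ∈ S, ‖∑ n ∈ Ico (X1 + j * H) (X1 + j * H + H), F x n‖ ^ 2 ≤ (S.card : ℝ) * H ^ 2 * W) :
    ∑ x ∈ S, ‖∑ n ∈ Ico X1 (2 * X1), F x n‖ ^ 2 ≤ (S.card : ℝ) * X1 ^ 2 * W := by
  have h2 : 2 * X1 = X1 + N * H := by
    have : N * H = X1 := by rw [hX]; ring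
    omega
  calc ∑ x ∈ S, ‖∑ n ∈ Ico X1 (2 * X1), F x n‖ ^ 2
      ≤ ∑ x ∈ S, (N : ℝ) * ∑ j ∈ range N, ‖∑ n ∈ Ico (X1 + j * H) (X1 + j * H + H), F x n‖ ^ 2 := by
        refine Finset.sum_le_sum (fun h _ => ?_)
        rw [h2, z2_cells]
        exact z2_cs _ _
    _ = (N : ℝ) * ∑ j ∈ range N, ∑ x ∈ S, ‖∑ n ∈ Ico (X1 + j * H) (X1 + j * H + H), F x n‖ ^ 2 := by
        rw [← Finset.mul_sum, Finset.sum_comm]
    _ ≤ (N : ℝ) * ∑ j ∈ range N, (S.card : ℝ) * H ^ 2 * W := by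
        refine mul_le_mul_of_nonneg_left ?_ (by positivity)
        exact Finset.sum_le_sum (fun j hj => hF j (mem_range.mp hj))
    _ = (N : ℝ) * (N * ((S.card : ℝ) * H ^ 2 * W)) := by
        rw [Finset.sum_const, card_range, nsmul_eq_mul]
    _ = (S.card : ℝ) * X1 ^ 2 * W := by
        rw [hX]
        push_cast
        ring

/-- **R9** (port of `Z2_main`, H24P/Z2.lean). Proof. No cells for `h` here (one base point `h0`). Cut `[X1, 2 X1)` into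
the `Q^800` cells of length `H = X1/Q^800`; on a cell `cfb … n = Fin.cons c0 c'` is constant (`E1_bs`, `E1_fine`), total sizes
`≤ 3` (`Cf.le`, `Cf.sum`, `GeoB`, `G2_P`, `G2_val`, `h0 ∈ cub M M`): `R7_cell`, `R8_main` (times `H²`), `‖x+y‖² ≤ 2‖x‖² + 2‖y‖²`,
`‖∑_j‖² ≤ N ∑_j ‖·‖²`. `Q^600 ≤ H`, `Q^E ≤ H` for `K` large in terms of `E` (`K = 1500 + E` or so). -/
theorem R9_main {k : ℕ} (P : Fin k → ℤ[X]) (A E : ℕ) (hA : 1 ≤ A) (hP : Pol A P) (Cc cc : ℝ) (hC : FPar Cc cc)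
    (hT : TMb k A E Cc cc) : ∃ c K : ℝ, 0 < c ∧ 1 ≤ K ∧ ∃ L : ℕ, 2 ≤ L ∧ ∀ C : ℝ, ∃ Q0 : ℕ,
    ∀ (Q X X1 Y : ℕ) (M : Fin k → ℕ) (B : ℤ[X]) (C0 : ℤ → Ch → ℂ) (mb : Ch → ℝ), Q0 ≤ Q →
    Rg K C Q X → Geo L Q X X1 P M → GeoB A X X1 Y B → Cf (Q ^ 100) Y C0 mb →
    ∀ (C' : Fin k → ℤ → Ch → ℂ) (mc : Fin k → Ch → ℝ), (∀ i, Cf Q (Ysc (M i)) (C' i) (mc i)) →
    ∀ r : ℕ, 1 ≤ r → r ^ 100 ≤ Q →
    ∀ (ι : Type) (S : Finset ι) (g : ι → Fin k → ℕ) (h0 : Fin k → ℕ), Cl E Cc cc Q P M S g h0 →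
    ∑ x ∈ S, ‖Rzb Q X1 P C' (gB Q X1 B C0) h0 (g x) -
      MZb Q X1 (B.leadingCoeff.natAbs * r) P B C0 C' h0 (g x)‖ ^ 2 ≤
      (X1 : ℝ) ^ 2 * S.card * (Q : ℝ) ^ (-c) := by
  classical
  obtain ⟨c1, hc1, Q1, hZA⟩ := R7_cell k A E hA Cc cc hC
  obtain ⟨c2, hc2, Q2, hZB⟩ := R8_main k A E Cc cc hT
  obtain ⟨L, hL2, hL⟩ := G2_P P hP.deg
  have hcm : 0 < min c1 c2 := lt_min hc1 hc2
  obtain ⟨Q3, hQ3, hlog⟩ := G1_rlog 4 0 (min c1 c2 / 2) (by positivity)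
  have hE0 : (0 : ℝ) ≤ E := Nat.cast_nonneg _
  refine ⟨min c1 c2 / 2, 1500 + (E : ℝ), by positivity, by linarith, L, hL2, fun C => ⟨max (max Q1 Q2) (max Q3 1), ?_⟩⟩
  intro Q X X1 Y M B C0 mb hQ hRg hG hB hCf C' mc hCc r hr hr100 ι S g h0 hCl
  have hQ1' : Q1 ≤ Q := (le_max_left _ _).trans ((le_max_left _ _).trans hQ)
  have hQ2' : Q2 ≤ Q := (le_max_right _ _).trans ((le_max_left _ _).trans hQ)
  have hQ3' : Q3 ≤ Q := (le_max_left _ _).trans ((le_max_right _ _).trans hQ)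
  have hQ1 : 1 ≤ Q := (le_max_right _ _).trans ((le_max_right _ _).trans hQ)
  have hQr : (1 : ℝ) ≤ Q := by exact_mod_cast hQ1
  have hQr0 : (0 : ℝ) < Q := by linarith
  have hQ8 : 0 < Q ^ 8 := Nat.pow_pos hQ1
  have hQ800 : 0 < Q ^ 800 := Nat.pow_pos hQ1
  have hXpos : 0 < X := hG.pos.trans_le hG.le
  set H : ℕ := X1 / Q ^ 800 with hH
  have hXH : X1 = H * Q ^ 800 := (Nat.div_mul_cancel hG.dvd).symm
  obtain ⟨hH600, hHE⟩ := r9_X (E := E) le_rfl hQ1 hRg hXpos hG.ge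
  have hHpos : 0 < H := (Nat.pow_pos hQ1).trans_le hH600
  -- the difference
  set m0 : ℕ := B.leadingCoeff.natAbs * r with hm0
  set F : ι → ℕ → ℂ := fun x n => gB Q X1 B C0 n *
    ∏ i, SG Q (C' i ((P i).eval ((bs (X1 / Q ^ 8) n : ℕ) : ℤ) + (h0 i : ℤ))) ((P i).eval (n : ℤ) + g x i) -
    MDf Q m0 (cfb Q X1 P B C0 C' h0 n) (sys B P (g x)) with hF
  have hdiff : ∀ x : ι, Rzb Q X1 P C' (gB Q X1 B C0) h0 (g x) - MZb Q X1 m0 P B C0 C' h0 (g x) =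
      ∑ n ∈ Ico X1 (2 * X1), F x n := by
    intro x
    unfold Rzb MZb
    rw [← Finset.sum_sub_distrib]
  rw [Finset.sum_congr rfl fun x _ => by rw [hdiff x]]
  have hE := r9_cells S X1 H (Q ^ 800) hXH ((Q : ℝ) ^ (-(min c1 c2 / 2))) F ?_
  · refine hE.trans (le_of_eq ?_)
    ring
  intro j hj
  have hjH' : j * H + H ≤ X1 := by
    have h1 : (j + 1) * H ≤ Q ^ 800 * H := Nat.mul_le_mul_right H hj
    have h2 : (j + 1) * H = j * H + H := by ring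
    have h3 : Q ^ 800 * H = X1 := by rw [mul_comm]; exact hXH.symm
    omega
  have haI : X1 + j * H ∈ Ico X1 (2 * X1) := by
    rw [mem_Ico]
    omega
  -- the base points
  have hbsn : ∀ n ∈ Ico (X1 + j * H) (X1 + j * H + H), bs (X1 / Q ^ 800) n = X1 + j * H := by
    intro n hn
    have h1 := mem_Ico.1 hn
    have h2 : X1 + j * H = (Q ^ 800 + j) * H := by
      conv_lhs => rw [hXH]
      ring
    rw [h2] at h1 ⊢
    exact z2_bs hHpos _ _ h1.1 h1.2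
  have hdX8 : Q ^ 8 ∣ X1 := (pow_dvd_pow Q (by norm_num)).trans hG.dvd
  have hHc : X1 / Q ^ 8 = H * Q ^ 792 := by
    refine Nat.div_eq_of_eq_mul_left hQ8 ?_
    rw [mul_assoc, ← pow_add]
    exact hXH
  have hHcX : X1 / Q ^ 8 ∣ X1 := Nat.div_dvd_of_dvd hdX8
  have hHcpos : 0 < X1 / Q ^ 8 := by
    rw [hHc]
    exact Nat.mul_pos hHpos (Nat.pow_pos hQ1)
  have hbsc : ∀ n ∈ Ico (X1 + j * H) (X1 + j * H + H),
      bs (X1 / Q ^ 8) n = bs (X1 / Q ^ 8) (X1 + j * H) := fun n hn =>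
    E1_fine hHpos (Nat.pow_pos hQ1) hHc hHcX hn
  -- the base point of the long cell is in the range
  have hbI : bs (X1 / Q ^ 8) (X1 + j * H) ∈ Ico X1 (2 * X1) := by
    have h1 : bs (X1 / Q ^ 8) (X1 + j * H) ≤ X1 + j * H := by
      unfold bs
      exact Nat.div_mul_le_self _ _
    have h2 : X1 ≤ bs (X1 / Q ^ 8) (X1 + j * H) := by
      unfold bs
      calc X1 = X1 / (X1 / Q ^ 8) * (X1 / Q ^ 8) := (Nat.div_mul_cancel hHcX).symm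
        _ ≤ _ := Nat.mul_le_mul_right _ (Nat.div_le_div_right (by omega))
    have h3 := (mem_Ico.1 haI).2
    rw [mem_Ico]
    omega
  set c0 : Ch → ℂ := C0 (B.eval ((X1 + j * H : ℕ) : ℤ)) with hc0
  set c' : Fin k → Ch → ℂ := fun i =>
    C' i ((P i).eval ((bs (X1 / Q ^ 8) (X1 + j * H) : ℕ) : ℤ) + (h0 i : ℤ)) with hc'
  have hcfz : ∀ n ∈ Ico (X1 + j * H) (X1 + j * H + H),
      cfb Q X1 P B C0 C' h0 n = (Fin.cons c0 c' : Fin (k + 1) → Ch → ℂ) := by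
    intro n hn
    unfold cfb
    rw [hbsn n hn, hbsc n hn]
  -- sizes
  have hsz0 : ∑ p ∈ PC (Q ^ 100), ‖c0 p‖ ≤ 3 := by
    refine (Finset.sum_le_sum fun p hp => ?_).trans hCf.sum
    have h1 := hB.lo _ haI
    have h2 := hB.hi _ haI
    exact hCf.le _ h1 (by linarith) p hp
  have hsz : ∀ i, ∑ p ∈ PC Q, ‖c' i p‖ ≤ 3 := by
    intro i
    have hx : h0 i ∈ Ico (M i) (2 * M i) := by
      have h1 := hCl.memb
      unfold cub at h1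
      have h2 := mem_Ico.1 (Fintype.mem_piFinset.1 h1 i)
      rw [mem_Ico]
      omega
    have hv := (hL Q X X1 M hG i _ hbI).1
    have hd8 : 8 ∣ M i := (Dvd.intro _ rfl).trans (hG.dvdM i)
    have h5 := G2_val (M i) (h0 i) _ hd8 hv hx
    refine (Finset.sum_le_sum fun p hp => ?_).trans (hCc i).sum
    refine (hCc i).le _ h5.1 ?_ p hp
    have h6 : (0 : ℤ) ≤ Ysc (M i) := Nat.cast_nonneg _
    linarith [h5.2.1]
  have hsz' : ∀ i : Fin (k + 1), ∑ p ∈ PC Q, ‖(Fin.cons c0 c' : Fin (k + 1) → Ch → ℂ) i p‖ ≤ 3 := by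
    intro i
    refine Fin.cases ?_ (fun i => ?_) i
    · rw [Fin.cons_zero]
      exact (Finset.sum_le_sum_of_subset_of_nonneg (z2f_PC hQ1) fun _ _ _ => norm_nonneg _).trans hsz0
    · rw [Fin.cons_succ]
      exact hsz i
  have hA1 := hZA Q hQ1' B hB.lin P hP r hr hr100 c0 hsz0 c' hsz ι S g hCl.good
    (X1 + j * H) H hH600 hHE
  have hB1 := hZB Q hQ2' B hB.lin P hP r hr hr100 (Fin.cons c0 c') hsz' ι S g hCl.good
  rw [← hm0] at hA1 hB1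
  have hv0 : (0 : ℝ) ≤ S.card := Nat.cast_nonneg _
  have hsplit : ∀ x ∈ S,
      ‖∑ n ∈ Ico (X1 + j * H) (X1 + j * H + H), F x n‖ ^ 2 ≤
      2 * ‖∑ n ∈ Ico (X1 + j * H) (X1 + j * H + H), SG (Q ^ 100) c0 (B.eval (n : ℤ)) *
        ∏ i, SG Q (c' i) ((P i).eval (n : ℤ) + g x i) -
        H * MCf Q m0 (Fin.cons c0 c' : Fin (k + 1) → Ch → ℂ) (sys B P (g x))‖ ^ 2 +
      2 * ((H : ℝ) ^ 2 * ‖MCf Q m0 (Fin.cons c0 c' : Fin (k + 1) → Ch → ℂ) (sys B P (g x)) -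
        MDf Q m0 (Fin.cons c0 c' : Fin (k + 1) → Ch → ℂ) (sys B P (g x))‖ ^ 2) := by
    intro x hx
    have h1 : ∑ n ∈ Ico (X1 + j * H) (X1 + j * H + H), F x n =
        (∑ n ∈ Ico (X1 + j * H) (X1 + j * H + H), SG (Q ^ 100) c0 (B.eval (n : ℤ)) *
        ∏ i, SG Q (c' i) ((P i).eval (n : ℤ) + g x i) -
        H * MCf Q m0 (Fin.cons c0 c' : Fin (k + 1) → Ch → ℂ) (sys B P (g x))) +
        H * (MCf Q m0 (Fin.cons c0 c' : Fin (k + 1) → Ch → ℂ) (sys B P (g x)) -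
        MDf Q m0 (Fin.cons c0 c' : Fin (k + 1) → Ch → ℂ) (sys B P (g x))) := by
      have h2 : ∑ n ∈ Ico (X1 + j * H) (X1 + j * H + H), F x n =
          ∑ n ∈ Ico (X1 + j * H) (X1 + j * H + H), (SG (Q ^ 100) c0 (B.eval (n : ℤ)) *
          ∏ i, SG Q (c' i) ((P i).eval (n : ℤ) + g x i) -
          MDf Q m0 (Fin.cons c0 c' : Fin (k + 1) → Ch → ℂ) (sys B P (g x))) := by
        refine Finset.sum_congr rfl fun n hn => ?_
        rw [hF]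
        simp only
        rw [hcfz n hn]
        unfold gB
        rw [hbsn n hn, hbsc n hn]
      rw [h2, Finset.sum_sub_distrib, Finset.sum_const, Nat.card_Ico, nsmul_eq_mul]
      have h3 : X1 + j * H + H - (X1 + j * H) = H := by omega
      rw [h3]
      ring
    rw [h1]
    generalize (∑ n ∈ Ico (X1 + j * H) (X1 + j * H + H), SG (Q ^ 100) c0 (B.eval (n : ℤ)) *
        ∏ i, SG Q (c' i) ((P i).eval (n : ℤ) + g x i) -
        H * MCf Q m0 (Fin.cons c0 c' : Fin (k + 1) → Ch → ℂ) (sys B P (g x))) = x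
    generalize (MCf Q m0 (Fin.cons c0 c' : Fin (k + 1) → Ch → ℂ) (sys B P (g _)) -
        MDf Q m0 (Fin.cons c0 c' : Fin (k + 1) → Ch → ℂ) (sys B P (g _))) = y
    have h4 : ‖x + H * y‖ ≤ ‖x‖ + H * ‖y‖ := by
      refine (norm_add_le _ _).trans (le_of_eq ?_)
      rw [norm_mul, Complex.norm_natCast]
    have h5 : ‖x + H * y‖ ^ 2 ≤ (‖x‖ + H * ‖y‖) ^ 2 := pow_le_pow_left₀ (norm_nonneg _) h4 2
    nlinarith [sq_nonneg (‖x‖ - H * ‖y‖)]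
  have hpow : 2 * (Q : ℝ) ^ (-c1) + 2 * (Q : ℝ) ^ (-c2) ≤ (Q : ℝ) ^ (-(min c1 c2 / 2)) := by
    have h1 : (Q : ℝ) ^ (-c1) ≤ (Q : ℝ) ^ (-(min c1 c2)) :=
      Real.rpow_le_rpow_of_exponent_le hQr (by linarith [min_le_left c1 c2])
    have h2 : (Q : ℝ) ^ (-c2) ≤ (Q : ℝ) ^ (-(min c1 c2)) :=
      Real.rpow_le_rpow_of_exponent_le hQr (by linarith [min_le_right c1 c2])
    have h3 : (Q : ℝ) ^ (-(min c1 c2 / 2)) = (Q : ℝ) ^ (min c1 c2 / 2) * (Q : ℝ) ^ (-(min c1 c2)) := by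
      rw [← Real.rpow_add hQr0]
      congr 1
      ring
    have h4 := hlog Q hQ3'
    rw [Real.rpow_zero, mul_one] at h4
    have h5 : 0 ≤ (Q : ℝ) ^ (-(min c1 c2)) := Real.rpow_nonneg hQr0.le _
    rw [h3]
    nlinarith [mul_le_mul_of_nonneg_right h4 h5]
  calc ∑ x ∈ S,
        ‖∑ n ∈ Ico (X1 + j * H) (X1 + j * H + H), F x n‖ ^ 2
      ≤ ∑ x ∈ S,
      (2 * ‖∑ n ∈ Ico (X1 + j * H) (X1 + j * H + H), SG (Q ^ 100) c0 (B.eval (n : ℤ)) *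
        ∏ i, SG Q (c' i) ((P i).eval (n : ℤ) + g x i) -
        H * MCf Q m0 (Fin.cons c0 c' : Fin (k + 1) → Ch → ℂ) (sys B P (g x))‖ ^ 2 +
      2 * ((H : ℝ) ^ 2 * ‖MCf Q m0 (Fin.cons c0 c' : Fin (k + 1) → Ch → ℂ) (sys B P (g x)) -
        MDf Q m0 (Fin.cons c0 c' : Fin (k + 1) → Ch → ℂ) (sys B P (g x))‖ ^ 2)) :=
        Finset.sum_le_sum hsplit
    _ ≤ 2 * (S.card * H ^ 2 * (Q : ℝ) ^ (-c1)) + 2 * ((H : ℝ) ^ 2 * (S.card * (Q : ℝ) ^ (-c2))) := by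
        rw [Finset.sum_add_distrib, ← Finset.mul_sum, ← Finset.mul_sum, ← Finset.mul_sum]
        gcongr
    _ = S.card * H ^ 2 * (2 * (Q : ℝ) ^ (-c1) + 2 * (Q : ℝ) ^ (-c2)) := by ring
    _ ≤ S.card * H ^ 2 * (Q : ℝ) ^ (-(min c1 c2 / 2)) :=
        mul_le_mul_of_nonneg_left hpow (mul_nonneg hv0 (sq_nonneg _))

end Pool.Agent.HUP
end

-- from Lib.HUP.R16
section

/-!
# Project HUP, module R (the modules of H24P for an abstract family), R16: one cell, summary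
-/

open Finset Polynomial

namespace Pool.Agent.HUP

open Pool.Agent.Lib.H68T Pool.Agent.Lib.H18Q Pool.Agent.Lib.H59P Pool.Agent.Lib.H24P

/-- **R16a** (port of `Z4_ms`, H24P/Z4.lean, without the step `S4_main`). Proof. `Rw → Rzb (lp) → Rzb (Lk) → Rzb (gB) → MZb`:
`R13_main` (pointwise, squared and summed), `R2_main`, `R14_main`, `R9_main` (`R6_main` for `TMb`);
`|w n| ≤ (log X)²` from `W2_ms` for `w n = lp (B n)`. -/
theorem R16_ms {k : ℕ} (P : Fin k → ℤ[X]) (A E : ℕ) (hA : 1 ≤ A) (hP : Pol A P) (Cc cc : ℝ) (hC : FPar Cc cc) :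
    ∃ c K : ℝ, 0 < c ∧ 1 ≤ K ∧ ∃ L : ℕ, 2 ≤ L ∧ ∀ C : ℝ, ∃ Q0 : ℕ,
    ∀ (Q X X1 Y : ℕ) (M : Fin k → ℕ) (B : ℤ[X]) (C0 : ℤ → Ch → ℂ) (mb : Ch → ℝ), Q0 ≤ Q →
    Rg K C Q X → Geo L Q X X1 P M → GeoB A X X1 Y B → Cf (Q ^ 100) Y C0 mb →
    ∀ (C' : Fin k → ℤ → Ch → ℂ) (mc : Fin k → Ch → ℝ), (∀ i, Cf Q (Ysc (M i)) (C' i) (mc i)) →
    ∀ r : ℕ, 1 ≤ r → r ^ 100 ≤ Q →
    ∀ (ι : Type) (S : Finset ι) (g : ι → Fin k → ℕ) (h0 : Fin k → ℕ), Cl E Cc cc Q P M S g h0 →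
    ∑ x ∈ S, ‖((Rw Q X1 P M (fun n => lp (B.eval (n : ℤ))) (g x) : ℝ) : ℂ) -
      MZb Q X1 (B.leadingCoeff.natAbs * r) P B C0 C' h0 (g x)‖ ^ 2 ≤
      (X1 : ℝ) ^ 2 * S.card * (Q : ℝ) ^ (-c) := by
  have hT : TMb k A E Cc cc := R6_main k A E hA Cc cc hC
  obtain ⟨K2, hK2, hW2⟩ := W2_ms A
  obtain ⟨L3, hL3, hV1⟩ := R13_main P hP.deg
  obtain ⟨c4, K4, hc4, hK4, L4, hL4, hW3⟩ := R2_main P A E hA hP Cc cc hC
  obtain ⟨L5, hL5, hV2⟩ := R14_main P hP.deg A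
  obtain ⟨c6, K6, hc6, hK6, L6, hL6, hZ2⟩ := R9_main P A E hA hP Cc cc hC hT
  set cm : ℝ := min 1 (min c4 c6) with hcm
  have hcm0 : 0 < cm := lt_min one_pos (lt_min hc4 hc6)
  have hcm2 : cm ≤ 1 := min_le_left _ _
  have hcm4 : cm ≤ c4 := (min_le_right _ _).trans (min_le_left _ _)
  have hcm6 : cm ≤ c6 := (min_le_right _ _).trans (min_le_right _ _)
  obtain ⟨Q7, hQ7, hlog⟩ := G1_rlog 20 0 (cm / 2) (by positivity)
  refine ⟨cm / 2, max (max 2 K2) (max K4 K6), by positivity,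
    le_max_of_le_left (le_max_of_le_left (by norm_num)), max (max L3 L4) (max L5 L6),
    le_max_of_le_left (le_max_of_le_left hL3), fun C => ?_⟩
  obtain ⟨Q2, hW2⟩ := hW2 C
  obtain ⟨Q3, hV1⟩ := hV1 C
  obtain ⟨Q4, hW3⟩ := hW3 C
  obtain ⟨Q5, hV2⟩ := hV2 C
  obtain ⟨Q6, hZ2⟩ := hZ2 C
  refine ⟨max (max (max Q2 Q3) (max Q4 Q5)) (max Q6 (max Q7 1)), ?_⟩
  intro Q X X1 Y M B C0 mb hQ hRg hG hB hCf C' mc hCc r hr hr100 ι S g h0 hCl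
  have hQ' := max_le_iff.1 hQ
  have hQa := max_le_iff.1 hQ'.1
  have hQb := max_le_iff.1 hQ'.2
  have q2 : Q2 ≤ Q := (max_le_iff.1 hQa.1).1
  have q3 : Q3 ≤ Q := (max_le_iff.1 hQa.1).2
  have q4 : Q4 ≤ Q := (max_le_iff.1 hQa.2).1
  have q5 : Q5 ≤ Q := (max_le_iff.1 hQa.2).2
  have q6 : Q6 ≤ Q := hQb.1
  have q7 : Q7 ≤ Q := (max_le_iff.1 hQb.2).1
  have q8 : 1 ≤ Q := (max_le_iff.1 hQb.2).2
  have hQr : (1 : ℝ) ≤ Q := by exact_mod_cast q8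
  have hQr0 : (0 : ℝ) < Q := by linarith
  have rtwo : Rg 2 C Q X := z4_rg (le_max_of_le_left (le_max_left _ _)) hRg
  have r2 : Rg K2 C Q X := z4_rg (le_max_of_le_left (le_max_right _ _)) hRg
  have r4 : Rg K4 C Q X := z4_rg (le_max_of_le_right (le_max_left _ _)) hRg
  have r6 : Rg K6 C Q X := z4_rg (le_max_of_le_right (le_max_right _ _)) hRg
  have g3 : Geo L3 Q X X1 P M := z4_geo (le_max_of_le_left (le_max_left _ _)) hG
  have g4 : Geo L4 Q X X1 P M := z4_geo (le_max_of_le_left (le_max_right _ _)) hG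
  have g5 : Geo L5 Q X X1 P M := z4_geo (le_max_of_le_right (le_max_left _ _)) hG
  have g6 : Geo L6 Q X X1 P M := z4_geo (le_max_of_le_right (le_max_right _ _)) hG
  have hw : ∀ n ∈ Ico X1 (2 * X1), |lp (B.eval (n : ℤ))| ≤ (Real.log X) ^ 2 :=
    (hW2 Q X X1 Y B C0 mb q2 r2 hG.pos hG.le hG.ge hB hCf X1 X1 le_rfl (by omega)
      (Nat.le_mul_of_pos_right _ (Nat.pow_pos q8))).2
  have e2 := hV1 Q X X1 M q3 rtwo g3 C' mc hCc (fun n => lp (B.eval (n : ℤ))) hw h0 hCl.memb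
  have e3 := hW3 Q X X1 Y M B C0 mb q4 r4 g4 hB hCf C' mc hCc ι S g h0 hCl
  have e4 := hV2 Q X X1 Y M B C0 mb q5 rtwo g5 hB hCf C' mc hCc h0 hCl.memb
  have e5 := hZ2 Q X X1 Y M B C0 mb q6 r6 g6 hB hCf C' mc hCc r hr hr100 ι S g h0 hCl
  set m0 : ℕ := B.leadingCoeff.natAbs * r with hm0
  set V : ℝ := (X1 : ℝ) ^ 2 * S.card with hV
  have hV0 : 0 ≤ V := by positivity
  set D : ℝ := ((X1 : ℝ) * (Q : ℝ) ^ (-(1) : ℝ)) ^ 2 with hD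
  have hpt : ∀ x ∈ S, ‖((Rw Q X1 P M (fun n => lp (B.eval (n : ℤ))) (g x) : ℝ) : ℂ) -
      MZb Q X1 m0 P B C0 C' h0 (g x)‖ ^ 2 ≤
      5 * (2 * D +
      ‖Rzb Q X1 P C' (fun n => ((lp (B.eval (n : ℤ)) : ℝ) : ℂ)) h0 (g x) -
        Rzb Q X1 P C' (fun n => ((Lk (Q ^ 100) (Y / (Q ^ 100) ^ 2) (B.eval (n : ℤ)) : ℝ) : ℂ)) h0 (g x)‖ ^ 2 +
      ‖Rzb Q X1 P C' (gB Q X1 B C0) h0 (g x) - MZb Q X1 m0 P B C0 C' h0 (g x)‖ ^ 2) := by
    intro x hx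
    have a1 := e2 (g x) (hCl.mem x hx) (hCl.close x hx)
    have a2 := e4 (g x) (hCl.mem x hx)
    have b1 : ‖((Rw Q X1 P M (fun n => lp (B.eval (n : ℤ))) (g x) : ℝ) : ℂ) -
        Rzb Q X1 P C' (fun n => ((lp (B.eval (n : ℤ)) : ℝ) : ℂ)) h0 (g x)‖ ^ 2 ≤ D :=
      pow_le_pow_left₀ (norm_nonneg _) a1 2
    have b2 : ‖Rzb Q X1 P C' (fun n => ((Lk (Q ^ 100) (Y / (Q ^ 100) ^ 2) (B.eval (n : ℤ)) : ℝ) : ℂ)) h0 (g x) -
        Rzb Q X1 P C' (gB Q X1 B C0) h0 (g x)‖ ^ 2 ≤ D :=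
      pow_le_pow_left₀ (norm_nonneg _) a2 2
    have h5 := z4_five (((Rw Q X1 P M (fun n => lp (B.eval (n : ℤ))) (g x) : ℝ) : ℂ) -
        Rzb Q X1 P C' (fun n => ((lp (B.eval (n : ℤ)) : ℝ) : ℂ)) h0 (g x))
      (Rzb Q X1 P C' (fun n => ((lp (B.eval (n : ℤ)) : ℝ) : ℂ)) h0 (g x) -
        Rzb Q X1 P C' (fun n => ((Lk (Q ^ 100) (Y / (Q ^ 100) ^ 2) (B.eval (n : ℤ)) : ℝ) : ℂ)) h0 (g x))
      (Rzb Q X1 P C' (fun n => ((Lk (Q ^ 100) (Y / (Q ^ 100) ^ 2) (B.eval (n : ℤ)) : ℝ) : ℂ)) h0 (g x) -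
        Rzb Q X1 P C' (gB Q X1 B C0) h0 (g x))
      (Rzb Q X1 P C' (gB Q X1 B C0) h0 (g x) - MZb Q X1 m0 P B C0 C' h0 (g x)) 0
    have h6 : ((Rw Q X1 P M (fun n => lp (B.eval (n : ℤ))) (g x) : ℝ) : ℂ) -
        MZb Q X1 m0 P B C0 C' h0 (g x) = (((Rw Q X1 P M (fun n => lp (B.eval (n : ℤ))) (g x) : ℝ) : ℂ) -
        Rzb Q X1 P C' (fun n => ((lp (B.eval (n : ℤ)) : ℝ) : ℂ)) h0 (g x)) +
      (Rzb Q X1 P C' (fun n => ((lp (B.eval (n : ℤ)) : ℝ) : ℂ)) h0 (g x) -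
        Rzb Q X1 P C' (fun n => ((Lk (Q ^ 100) (Y / (Q ^ 100) ^ 2) (B.eval (n : ℤ)) : ℝ) : ℂ)) h0 (g x)) +
      (Rzb Q X1 P C' (fun n => ((Lk (Q ^ 100) (Y / (Q ^ 100) ^ 2) (B.eval (n : ℤ)) : ℝ) : ℂ)) h0 (g x) -
        Rzb Q X1 P C' (gB Q X1 B C0) h0 (g x)) +
      (Rzb Q X1 P C' (gB Q X1 B C0) h0 (g x) - MZb Q X1 m0 P B C0 C' h0 (g x)) + 0 := by ring
    rw [h6]
    refine h5.trans ?_
    rw [norm_zero]
    linarith
  refine (Finset.sum_le_sum hpt).trans ?_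
  rw [← Finset.mul_sum, Finset.sum_add_distrib, Finset.sum_add_distrib, Finset.sum_const, nsmul_eq_mul]
  have hle : ∀ c' : ℝ, cm ≤ c' → V * (Q : ℝ) ^ (-c') ≤ V * (Q : ℝ) ^ (-cm) := by
    intro c' hc'
    exact mul_le_mul_of_nonneg_left (Real.rpow_le_rpow_of_exponent_le hQr (by linarith)) hV0
  have f3 := e3.trans (hle _ hcm4)
  have f5 := e5.trans (hle _ hcm6)
  have hDV : (S.card : ℝ) * (2 * D) = 2 * (V * (Q : ℝ) ^ (-(2 : ℝ))) := by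
    have h3 : (Q : ℝ) ^ (-(2 : ℝ)) = ((Q : ℝ) ^ (-(1) : ℝ)) ^ 2 := by
      rw [← Real.rpow_natCast ((Q : ℝ) ^ (-(1) : ℝ)), ← Real.rpow_mul hQr0.le]
      norm_num
    rw [hD, hV, h3]
    ring
  have f2 : (S.card : ℝ) * (2 * D) ≤ 2 * (V * (Q : ℝ) ^ (-cm)) := by
    rw [hDV]
    exact mul_le_mul_of_nonneg_left (hle 2 (by linarith)) (by norm_num)
  have hfin : 20 * (V * (Q : ℝ) ^ (-cm)) ≤ V * (Q : ℝ) ^ (-(cm / 2)) := by
    have h3 : (Q : ℝ) ^ (-(cm / 2)) = (Q : ℝ) ^ (cm / 2) * (Q : ℝ) ^ (-cm) := by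
      rw [← Real.rpow_add hQr0]
      congr 1
      ring
    have h4 := hlog Q q7
    rw [Real.rpow_zero, mul_one] at h4
    have h5 : 0 ≤ V * (Q : ℝ) ^ (-cm) := mul_nonneg hV0 (Real.rpow_nonneg hQr0.le _)
    rw [h3]
    nlinarith [mul_le_mul_of_nonneg_right h4 h5]
  linarith

/-- **R16** (port of `Z4_main`). Proof. `CF0` of `H59P` for all coordinates, `R16_ms` with `r = px.1`, `z4_cheb` of `H59P` (or
`k1_cheb`), `R15_main`, `G1_size`, `G2_P`. -/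
theorem R16_main {k : ℕ} (P : Fin k → ℤ[X]) (A E : ℕ) (hA : 1 ≤ A) (hP : Pol A P) (Cc cc : ℝ) (hC : FPar Cc cc) :
    ∃ c K : ℝ, 0 < c ∧ 1 ≤ K ∧ ∃ L : ℕ, 2 ≤ L ∧ ∀ C : ℝ, ∃ Q0 : ℕ,
    ∀ (Q X X1 Y : ℕ) (M : Fin k → ℕ) (B : ℤ[X]) (η E0 : ℝ) (px : Ch) (th : ℤ → ℝ), Q0 ≤ Q →
    Rg K C Q X → Geo L Q X X1 P M → GeoB A X X1 Y B → px ∈ PC Q → px.1 ^ 100 ≤ Q →
    Mdl (Q ^ 100) Y η E0 px th → (∀ i, Mdl Q (Ysc (M i)) η E0 px th) → 0 ≤ E0 →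
    4 * (k + 1) * E0 ≤ 1 →
    ∀ (ι : Type) (S : Finset ι) (g : ι → Fin k → ℕ) (h0 : Fin k → ℕ), Cl E Cc cc Q P M S g h0 →
    ∃ Bad : Finset ι, Bad ⊆ S ∧ (Bad.card : ℝ) ≤ S.card * (Q : ℝ) ^ (-c) ∧
      ∀ x ∈ S, x ∉ Bad → ∀ m : ℝ, (∀ th' : Fin (k + 1) → ℝ, (∀ i, 0 ≤ th' i) →
        (∀ i, th' i ≤ 1 - η) → (px = p0 → ∀ i, th' i = 0) → m ≤ PMf Q px th' (sys B P (g x))) →
        X1 * (m / 2 - (Q : ℝ) ^ (-c)) ≤ Rw Q X1 P M (fun n => lp (B.eval (n : ℤ))) (g x) := by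
  obtain ⟨c, K, hc, hK, L, hL, hms⟩ := R16_ms P A E hA hP Cc cc hC
  obtain ⟨L', hL', hG2⟩ := G2_P P hP.deg
  obtain ⟨Q1, hQ1, hsize⟩ := G1_size A
  refine ⟨c / 4, K, by positivity, hK, max L L', le_max_of_le_left hL, fun C => ?_⟩
  obtain ⟨Q0, hms⟩ := hms C
  refine ⟨max Q0 Q1, ?_⟩
  intro Q X X1 Y M B η E0 px th hQ hRg hG hB hpx hpx100 hMB hM hE0 hE ι S g h0 hCl
  have q0 : Q0 ≤ Q := (le_max_left _ _).trans hQ
  have q1 : Q1 ≤ Q := (le_max_right _ _).trans hQ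
  have q2 : 1 ≤ Q := hQ1.trans q1
  have hQr : (1 : ℝ) ≤ Q := by exact_mod_cast q2
  have hQr0 : (0 : ℝ) < Q := by linarith
  have hE1 : E0 ≤ 1 := by
    have hk : (0 : ℝ) ≤ k := Nat.cast_nonneg _
    nlinarith
  have hQ100 : 1 ≤ Q ^ 100 := Nat.one_le_pow _ _ q2
  obtain ⟨e0, eb0, mb0, a1, a2, a3, a4⟩ := CF0 (Q ^ 100) Y η E0 px th hQ100 hMB hE1
  choose e eb mb b1 b2 b3 b4 using fun i => CF0 Q (Ysc (M i)) η E0 px th q2 (hM i) hE1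
  have hms' := hms Q X X1 Y M B (fun m p => MX px th m p + e0 m p) mb0 q0 hRg
    (z4_geo (le_max_left _ _) hG) hB a4 (fun i m p => MX px th m p + e i m p) mb b4 px.1
    (mem_PC.1 hpx).1 hpx100 ι S g h0 hCl
  have hX1r : (0 : ℝ) < X1 := by exact_mod_cast hG.pos
  have hTpos : 0 < (X1 : ℝ) * (Q : ℝ) ^ (-(c / 4)) := by positivity
  have hch := z4_cheb S (fun x => ‖((Rw Q X1 P M (fun n => lp (B.eval (n : ℤ))) (g x) : ℝ) : ℂ) -
    MZb Q X1 (B.leadingCoeff.natAbs * px.1) P B (fun m p => MX px th m p + e0 m p)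
      (fun i m p => MX px th m p + e i m p) h0 (g x)‖) _ _ hTpos hms' (fun _ => norm_nonneg _)
  refine ⟨_, filter_subset _ _, hch.trans ?_, ?_⟩
  · have hv0 : (0 : ℝ) ≤ S.card := Nat.cast_nonneg _
    have h1 : ((X1 : ℝ) * (Q : ℝ) ^ (-(c / 4))) ^ 2 = (X1 : ℝ) ^ 2 * (Q : ℝ) ^ (-(c / 2)) := by
      rw [mul_pow, ← Real.rpow_natCast ((Q : ℝ) ^ (-(c / 4))), ← Real.rpow_mul hQr0.le]
      congr 2
      push_cast
      ring
    have h2 : (Q : ℝ) ^ (-c) = (Q : ℝ) ^ (-(c / 2)) * (Q : ℝ) ^ (-(c / 2)) := by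
      rw [← Real.rpow_add hQr0]
      congr 1
      ring
    have h3 : (0 : ℝ) < (Q : ℝ) ^ (-(c / 2)) := Real.rpow_pos_of_pos hQr0 _
    have h4 : (X1 : ℝ) ^ 2 * S.card * (Q : ℝ) ^ (-c) / ((X1 : ℝ) * (Q : ℝ) ^ (-(c / 4))) ^ 2 =
        S.card * (Q : ℝ) ^ (-(c / 2)) := by
      rw [h1, h2]
      field_simp
    rw [h4]
    exact mul_le_mul_of_nonneg_left (Real.rpow_le_rpow_of_exponent_le hQr (by linarith)) hv0
  · intro x hx hbad m hm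
    rw [mem_filter, not_and, not_lt] at hbad
    have h1 := hbad hx
    have hlc0 : 1 ≤ B.leadingCoeff.natAbs := by
      have h2 : B.leadingCoeff ≠ 0 := by
        rw [Ne, leadingCoeff_eq_zero]
        intro h3
        have h4 := hB.lin.deg
        rw [h3, natDegree_zero] at h4
        omega
      exact Int.natAbs_pos.2 h2
    have hcond := (hsize Q q1 px.1 B.leadingCoeff.natAbs hlc0 hB.lin.lc hpx100).1
    have hZ3 := R15_main P A (max L L') Q X X1 Y q2 M B hG hB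
      (fun i n hn => (hG2 Q X X1 M (z4_geo (le_max_right _ _) hG) i n hn).1) η E0 px th hpx hcond hMB hM
      hE0 hE e0 eb0 a1 a2 a3 e eb b2 b3 h0 hCl.memb (g x) m hm
    have h5 : (MZb Q X1 (B.leadingCoeff.natAbs * px.1) P B (fun m p => MX px th m p + e0 m p)
        (fun i m p => MX px th m p + e i m p) h0 (g x)).re -
        Rw Q X1 P M (fun n => lp (B.eval (n : ℤ))) (g x) ≤
        X1 * (Q : ℝ) ^ (-(c / 4)) := by
      refine le_trans ?_ h1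
      have h6 := Complex.abs_re_le_norm (((Rw Q X1 P M (fun n => lp (B.eval (n : ℤ))) (g x) : ℝ) : ℂ) -
        MZb Q X1 (B.leadingCoeff.natAbs * px.1) P B (fun m p => MX px th m p + e0 m p)
        (fun i m p => MX px th m p + e i m p) h0 (g x))
      refine le_trans ?_ h6
      rw [Complex.sub_re, Complex.ofReal_re]
      have h7 := neg_abs_le (Rw Q X1 P M (fun n => lp (B.eval (n : ℤ))) (g x) -
        (MZb Q X1 (B.leadingCoeff.natAbs * px.1) P B (fun m p => MX px th m p + e0 m p)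
        (fun i m p => MX px th m p + e i m p) h0 (g x)).re)
      linarith
    have h8 : (X1 : ℝ) * (m / 2 - (Q : ℝ) ^ (-(c / 4))) =
        X1 * (m / 2) - X1 * (Q : ℝ) ^ (-(c / 4)) := by ring
    rw [h8]
    linarith

end Pool.Agent.HUP
end
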