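import Pool.Agent.Lib.H59M.M1.M062
import Pool.Agent.Lib.H59M.M1.M067
import Pool.Agent.Lib.H59M.M1.M074
import Pool.Agent.Lib.H59M.M1.M084

/-! Merged copies (to shorten the build) of Lib.H24P.FA, Lib.H24P.FB, Lib.H24P.FC, Lib.HUP.U1, Lib.HUP.Z0. -/

-- from Lib.H24P.FA
section

/-!
# Project H24P, module F: the linear coordinates `N - G`, `F_0` and the dummy coordinate
-/

open Finset Polynomial Filter Topology

namespace Pool.Agent.Lib.H24P

open Pool.Agent.Lib.H59 (argSet argCount Admissible primeCount argSet_eq argCount_tendsto)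

theorem FA_eval (G : ℤ[X]) (hG : G.natDegree = 1) (n : ℤ) :
    G.eval n = G.leadingCoeff * n + G.coeff 0 := by
  conv_lhs => rw [Polynomial.eq_X_add_C_of_natDegree_le_one hG.le]
  rw [eval_add, eval_mul, eval_C, eval_X, eval_C]
  have : G.coeff 1 = G.leadingCoeff := by rw [leadingCoeff, hG]
  rw [this]

/-- The coordinate `N - G`. -/
theorem FA_fix (G : ℤ[X]) (hG : G.natDegree = 1) (hl : 0 < G.leadingCoeff) (A : ℕ)
    (hA : G.leadingCoeff.natAbs + 4 ≤ A) (ε : ℝ) :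
    ∀ᶠ N : ℕ in atTop, OKB A ε (argCount G N) (C (N : ℤ) - G) := by
  have h1 := argSet_eq (G := G) (by omega) hl
  have h2 := argCount_tendsto (G := G) (by omega) hl
  filter_upwards [h1, h2.eventually_ge_atTop 1] with N hN hZ1
  set Z := argCount G N with hZ
  set b := G.leadingCoeff with hb
  have hZmem : (Z : ℤ) * b + G.coeff 0 < N := by
    have h3 : Z ∈ argSet G N := by
      rw [hN, Finset.mem_coe, Finset.mem_Icc]; exact ⟨hZ1, le_rfl⟩
    have h4 := h3.2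
    rw [FA_eval G hG, ← hb] at h4
    linarith
  have hZnot : (N : ℤ) ≤ ((Z : ℤ) + 1) * b + G.coeff 0 := by
    by_contra hcon
    push Not at hcon
    have h3 : Z + 1 ∈ argSet G N := by
      refine ⟨by omega, ?_⟩
      rw [FA_eval G hG, ← hb]
      push_cast
      linarith
    rw [hN, Finset.mem_coe, Finset.mem_Icc] at h3
    omega
  have hev : ∀ n : ℤ, (C (N : ℤ) - G).eval n = N - (b * n + G.coeff 0) := by
    intro n
    rw [eval_sub, eval_C, FA_eval G hG]
  have hA4 : (4 : ℤ) ≤ A := by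
    have : 4 ≤ A := by omega
    exact_mod_cast this
  have hAb : b ≤ A := by
    have h3 : (b.natAbs : ℤ) = b := Int.natAbs_of_nonneg hl.le
    have h4 : b.natAbs ≤ A := by omega
    have h5 : (b.natAbs : ℤ) ≤ A := by exact_mod_cast h4
    linarith
  have hb1 : 1 ≤ b := hl
  have hZpos : (1 : ℤ) ≤ Z := by exact_mod_cast hZ1
  have hquart : ∀ n : ℕ, A * n ≤ Z → 4 * (n : ℤ) ≤ Z := by
    intro n hn
    have h3 : (A : ℤ) * n ≤ Z := by exact_mod_cast hn
    have h4 : 4 * (n : ℤ) ≤ A * n := mul_le_mul_of_nonneg_right hA4 (Nat.cast_nonneg _)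
    linarith
  refine ⟨?_, ?_, ?_, ?_, ?_, ?_⟩
  · have h3 : (C (N : ℤ) - G) = -G + C (N : ℤ) := by ring
    rw [h3, natDegree_add_C, natDegree_neg, hG]
  · have h3 : (C (N : ℤ) - G) = -G + C (N : ℤ) := by ring
    have h4 : (C (N : ℤ) - G).leadingCoeff = -b := by
      have h5 : (C (N : ℤ) - G).natDegree = 1 := by rw [h3, natDegree_add_C, natDegree_neg, hG]
      rw [leadingCoeff, h5, coeff_sub, coeff_C, if_neg one_ne_zero, zero_sub, hb, leadingCoeff, hG]
    rw [h4, Int.natAbs_neg]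
    omega
  · intro n _ hn
    have h4 := hquart n hn
    rw [hev]
    have h5 : b * (4 * (n : ℤ)) ≤ b * Z := mul_le_mul_of_nonneg_left h4 (by linarith)
    have h6 : 1 * (Z : ℤ) ≤ b * Z := mul_le_mul_of_nonneg_right hb1 (by linarith)
    linarith
  · intro n hn0 hn
    rw [hev]
    have h5 : b * (Z : ℤ) ≤ A * Z := mul_le_mul_of_nonneg_right hAb (by linarith)
    have h6 : (1 : ℤ) ≤ n := by
      have h7 : (0 : ℝ) < (Z : ℝ) ^ (1 - ε) := Real.rpow_pos_of_pos (by exact_mod_cast hZ1) _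
      have h8 : (0 : ℝ) < n := lt_of_lt_of_le h7 hn0
      exact_mod_cast h8
    have h7 : b * 1 ≤ b * n := mul_le_mul_of_nonneg_left h6 (by linarith)
    linarith
  · intro n n' hn0 hn hnn hnn'
    rw [hev, hev]
    have h4 := hquart n hn
    have h5 : b * (4 * (n : ℤ)) ≤ b * Z := mul_le_mul_of_nonneg_left h4 (by linarith)
    have h6 : (1 : ℤ) ≤ n := by
      have h7 : (0 : ℝ) < (Z : ℝ) ^ (1 - ε) := Real.rpow_pos_of_pos (by exact_mod_cast hZ1) _
      have h8 : (0 : ℝ) < n := lt_of_lt_of_le h7 hn0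
      exact_mod_cast h8
    have h8 : b * (n : ℤ) ≤ b * n' := mul_le_mul_of_nonneg_left (by exact_mod_cast hnn) (by linarith)
    have h9 : b * 1 ≤ b * n := mul_le_mul_of_nonneg_left h6 (by linarith)
    linarith
  · intro n n' hn0 hn hnn hnn'
    rw [hev, hev]
    have h4 := hquart n hn
    have h5 : b * (4 * (n : ℤ)) ≤ b * Z := mul_le_mul_of_nonneg_left h4 (by linarith)
    have h8 : b * ((n' : ℤ) + 1) ≤ b * (2 * n) :=
      mul_le_mul_of_nonneg_left (by have : n' + 1 ≤ 2 * n := hnn'; exact_mod_cast this) (by linarith)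
    have h6 : (1 : ℤ) ≤ n := by
      have h7 : (0 : ℝ) < (Z : ℝ) ^ (1 - ε) := Real.rpow_pos_of_pos (by exact_mod_cast hZ1) _
      have h8 : (0 : ℝ) < n := lt_of_lt_of_le h7 hn0
      exact_mod_cast h8
    have h9 : b * 1 ≤ b * n := mul_le_mul_of_nonneg_left h6 (by linarith)
    linarith

/-- A fixed linear polynomial with positive leading coefficient. -/
theorem FA_pos (B : ℤ[X]) (hB : B.natDegree = 1) (hl : 0 < B.leadingCoeff) (A : ℕ)
    (hA : B.leadingCoeff.natAbs + (B.coeff 0).natAbs + 4 ≤ A) (ε : ℝ) (hε1 : ε < 1) :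
    ∀ᶠ Z : ℕ in atTop, OKB A ε Z B := by
  have h1 : Tendsto (fun Z : ℕ => (Z : ℝ) ^ (1 - ε)) atTop atTop :=
    (tendsto_rpow_atTop (by linarith)).comp tendsto_natCast_atTop_atTop
  filter_upwards [h1.eventually_ge_atTop (2 * ((B.coeff 0).natAbs : ℝ) + 2),
    eventually_ge_atTop 1] with Z hZ hZ1
  set b := B.leadingCoeff with hb
  set c := B.coeff 0 with hc
  have hb1 : 1 ≤ b := hl
  have hn2 : ∀ n : ℕ, (Z : ℝ) ^ (1 - ε) ≤ n → 2 * (c.natAbs : ℤ) + 2 ≤ n := by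
    intro n hn
    have h3 : 2 * (c.natAbs : ℝ) + 2 ≤ n := hZ.trans hn
    exact_mod_cast h3
  have hca : -(c.natAbs : ℤ) ≤ c ∧ c ≤ c.natAbs := by
    constructor
    · have := Int.le_natAbs (a := -c)
      rw [Int.natAbs_neg] at this
      linarith
    · exact Int.le_natAbs
  have hAc : b + (c.natAbs : ℤ) + 4 ≤ A := by
    have h3 : (b.natAbs : ℤ) = b := Int.natAbs_of_nonneg hl.le
    have h5 : ((b.natAbs + c.natAbs + 4 : ℕ) : ℤ) ≤ A := Nat.cast_le.2 hA
    simp only [Nat.cast_add, Nat.cast_ofNat] at h5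
    linarith
  refine ⟨hB, by omega, ?_, ?_, ?_, ?_⟩
  · intro n hn _
    have h3 := hn2 n hn
    rw [FA_eval B hB, ← hb, ← hc]
    have h4 : 1 * (n : ℤ) ≤ b * n := mul_le_mul_of_nonneg_right hb1 (Nat.cast_nonneg _)
    linarith [hca.1]
  · intro n hn hn'
    have h3 := hn2 n hn
    rw [FA_eval B hB, ← hb, ← hc]
    have hc0 : (0 : ℤ) ≤ c.natAbs := Nat.cast_nonneg _
    have h5 : (A : ℤ) * n ≤ Z := by exact_mod_cast hn'
    have h6 : b * (n : ℤ) + (c.natAbs : ℤ) * n ≤ A * n := by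
      have := mul_le_mul_of_nonneg_right (show b + (c.natAbs : ℤ) ≤ A by linarith)
        (show (0 : ℤ) ≤ n by linarith)
      linarith
    have h7 : (c.natAbs : ℤ) * 1 ≤ (c.natAbs : ℤ) * n := mul_le_mul_of_nonneg_left (by linarith) hc0
    have h8 : 1 * (Z : ℤ) ≤ A * Z := mul_le_mul_of_nonneg_right (by linarith) (Nat.cast_nonneg _)
    linarith [hca.2]
  · intro n n' hn _ hnn hnn'
    have h3 := hn2 n hn
    rw [FA_eval B hB, FA_eval B hB, ← hb, ← hc]
    have h8 : b * ((n' : ℤ) + 1) ≤ b * (2 * n) :=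
      mul_le_mul_of_nonneg_left (by have : n' + 1 ≤ 2 * n := hnn'; exact_mod_cast this) (by linarith)
    have h4 : 1 * (n : ℤ) ≤ b * n := mul_le_mul_of_nonneg_right hb1 (Nat.cast_nonneg _)
    linarith [hca.1]
  · intro n n' hn _ hnn hnn'
    have h3 := hn2 n hn
    rw [FA_eval B hB, FA_eval B hB, ← hb, ← hc]
    have h8 : b * (n : ℤ) ≤ b * n' := mul_le_mul_of_nonneg_left (by exact_mod_cast hnn) (by linarith)
    have h4 : 1 * (n : ℤ) ≤ b * n := mul_le_mul_of_nonneg_right hb1 (Nat.cast_nonneg _)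
    linarith [hca.1]

end Pool.Agent.Lib.H24P
end

-- from Lib.H24P.FB
section

/-!
# Project H24P, module F: admissibility, counting and the final theorems from the core theorem
-/

open Finset Polynomial Filter Topology

namespace Pool.Agent.Lib.H24P

open Pool.Agent.Lib.H59P (gl)
open Pool.Agent.Lib.H59 (argSet argCount Admissible primeCount argSet_eq argCount_tendsto)

/-- The system `P_i + h_i`. -/
noncomputable def famP {k : ℕ} (P : Fin k → ℤ[X]) (h : Fin k → ℕ) : Fin k → ℤ[X] :=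
  fun i => P i + C (h i : ℤ)

theorem famP_eval {k : ℕ} (P : Fin k → ℤ[X]) (h : Fin k → ℕ) (i : Fin k) (n : ℤ) :
    (famP P h i).eval n = (P i).eval n + (h i : ℤ) := by
  unfold famP
  rw [eval_add, eval_C]

theorem fb_prime {x : ℤ} : (∃ q : ℕ, q.Prime ∧ x = q) ↔ x.toNat.Prime := by
  constructor
  · rintro ⟨q, hq, rfl⟩
    rwa [Int.toNat_natCast]
  · intro h
    have h1 : 0 < x.toNat := h.pos
    exact ⟨x.toNat, h, (Int.toNat_of_nonneg (by omega)).symm⟩

/-- From admissibility: for every prime `l` some `n` with `l ∤ F_i(n)` and `l ∤ N - G(n)`. -/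
theorem fb_adm {k : ℕ} {F : Fin k → ℤ[X]} {G : ℤ[X]} {N : ℕ} (h : Admissible F G N) (l : ℕ)
    (hl : l.Prime) : ∃ n : ℤ, (∀ i, ¬ (l : ℤ) ∣ (F i).eval n) ∧ ¬ (l : ℤ) ∣ N - G.eval n := by
  have h1 := h.2 l hl
  push Not at h1
  obtain ⟨n, hn⟩ := h1
  rw [eval_mul, eval_prod, eval_sub, eval_C] at hn
  refine ⟨n, fun i hi => hn ?_, fun hi => hn (hi.mul_left _)⟩
  exact (hi.trans (dvd_prod_of_mem (fun j => (F j).eval n) (mem_univ i))).mul_right _

/-- (a) the coordinate `N - G` is fixed. -/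
theorem fb_a {k : ℕ} {P : Fin k → ℤ[X]} {G : ℤ[X]} {N : ℕ} {h : Fin k → ℕ}
    (ha : Admissible (famP P h) G N) : NoFix (sys (C (N : ℤ) - G) P h) := by
  intro l hl
  obtain ⟨n, h1, h2⟩ := fb_adm ha l hl
  refine ⟨n, fun i => ?_⟩
  refine Fin.cases ?_ (fun i => ?_) i
  · unfold sys
    rw [Fin.cons_zero, eval_sub, eval_C]
    exact h2
  · unfold sys ran
    rw [Fin.cons_succ, ← famP_eval]
    exact h1 i

/-- (b) `F_0` is the linear coordinate. -/
theorem fb_b {k : ℕ} {P : Fin k → ℤ[X]} {G F₀ : ℤ[X]} {N : ℕ} {h : Fin k → ℕ}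
    (ha : Admissible (Fin.cons F₀ (famP P h) : Fin (k + 1) → ℤ[X]) G N) :
    NoFix (sys F₀ (Fin.cons (-G) P : Fin (k + 1) → ℤ[X]) (Fin.cons N h : Fin (k + 1) → ℕ)) := by
  intro l hl
  obtain ⟨n, h1, h2⟩ := fb_adm ha l hl
  refine ⟨n, fun i => ?_⟩
  refine Fin.cases ?_ (fun i => ?_) i
  · have h3 := h1 0
    rw [Fin.cons_zero] at h3
    unfold sys
    rw [Fin.cons_zero]
    exact h3
  · unfold sys ran
    rw [Fin.cons_succ]
    refine Fin.cases ?_ (fun i => ?_) i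
    · rw [Fin.cons_zero, Fin.cons_zero, eval_neg]
      have h4 : -G.eval n + (N : ℤ) = N - G.eval n := by ring
      rw [h4]
      exact h2
    · rw [Fin.cons_succ, Fin.cons_succ, ← famP_eval]
      have h3 := h1 i.succ
      rwa [Fin.cons_succ] at h3

/-- The number of roots modulo `l` of a polynomial which does not vanish identically modulo `l`. -/
theorem fb_roots (F : ℤ[X]) (l : ℕ) (hl : l.Prime) (n : ℤ) (hn : ¬ (l : ℤ) ∣ F.eval n) :
    ((range l).filter (fun a : ℕ => (l : ℤ) ∣ F.eval (a : ℤ))).card ≤ F.natDegree := by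
  classical
  have := Fact.mk hl
  set Q : (ZMod l)[X] := F.map (Int.castRingHom (ZMod l)) with hQ
  have hev : ∀ m : ℤ, Q.eval (m : ZMod l) = ((F.eval m : ℤ) : ZMod l) := by
    intro m
    rw [hQ, eval_intCast_map]
    rfl
  have hQ0 : Q ≠ 0 := by
    intro h0
    apply hn
    rw [← ZMod.intCast_zmod_eq_zero_iff_dvd, ← hev, h0, eval_zero]
  have h1 : ((range l).filter (fun a : ℕ => (l : ℤ) ∣ F.eval (a : ℤ))).card ≤ Q.roots.toFinset.card := by
    refine card_le_card_of_injOn (fun a : ℕ => (a : ZMod l)) ?_ ?_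
    · intro a ha
      have ha' := (mem_filter.1 (mem_coe.1 ha)).2
      rw [mem_coe, Multiset.mem_toFinset, mem_roots hQ0, IsRoot.def]
      have h2 := hev (a : ℤ)
      rw [Int.cast_natCast] at h2
      rw [h2, ZMod.intCast_zmod_eq_zero_iff_dvd]
      exact ha'
    · intro a ha b hb hab
      have ha' := mem_range.1 (mem_filter.1 (mem_coe.1 ha)).1
      have hb' := mem_range.1 (mem_filter.1 (mem_coe.1 hb)).1
      have h2 := (ZMod.natCast_eq_natCast_iff a b l).1 hab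
      exact Nat.ModEq.eq_of_lt_of_lt h2 ha' hb'
  refine h1.trans ((Multiset.toFinset_card_le _).trans ((card_roots' _).trans ?_))
  exact natDegree_map_le

/-- The dummy coordinate. -/
noncomputable def dum {k : ℕ} (P : Fin k → ℤ[X]) (G : ℤ[X]) : ℤ[X] :=
  C ((primorial (∑ i, (P i).natDegree + G.natDegree + 1) : ℕ) : ℤ) * X + 1

theorem dum_eval {k : ℕ} (P : Fin k → ℤ[X]) (G : ℤ[X]) (n : ℤ) :
    (dum P G).eval n = ((primorial (∑ i, (P i).natDegree + G.natDegree + 1) : ℕ) : ℤ) * n + 1 := by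
  unfold dum
  rw [eval_add, eval_mul, eval_C, eval_X, eval_one]

theorem dum_deg {k : ℕ} (P : Fin k → ℤ[X]) (G : ℤ[X]) : (dum P G).natDegree = 1 := by
  unfold dum
  rw [show (1 : ℤ[X]) = C 1 from rfl]
  exact natDegree_linear (by exact_mod_cast (primorial_pos _).ne')

theorem dum_lc {k : ℕ} (P : Fin k → ℤ[X]) (G : ℤ[X]) : 0 < (dum P G).leadingCoeff := by
  unfold dum
  rw [show (1 : ℤ[X]) = C 1 from rfl,
    leadingCoeff_linear (by exact_mod_cast (primorial_pos _).ne')]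
  exact_mod_cast primorial_pos _

theorem fb_deg_famP {k : ℕ} {P : Fin k → ℤ[X]} {h : Fin k → ℕ} (i : Fin k) :
    (famP P h i).natDegree = (P i).natDegree := by
  unfold famP
  rw [natDegree_add_C]

/-- (c) with the dummy coordinate. -/
theorem fb_c {k : ℕ} {P : Fin k → ℤ[X]} {G : ℤ[X]} {N : ℕ} {h : Fin k → ℕ}
    (ha : Admissible (famP P h) G N) :
    NoFix (sys (dum P G) (Fin.cons (-G) P : Fin (k + 1) → ℤ[X]) (Fin.cons N h : Fin (k + 1) → ℕ)) := by
  classical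
  intro l hl
  set m := ∑ i, (P i).natDegree + G.natDegree + 1 with hm
  obtain ⟨n, h1, h2⟩ := fb_adm ha l hl
  -- enough
  have key : ∀ a : ℤ, (∀ i, ¬ (l : ℤ) ∣ (famP P h i).eval a) → (¬ (l : ℤ) ∣ N - G.eval a) →
      (¬ (l : ℤ) ∣ (dum P G).eval a) → ∀ i, ¬ (l : ℤ) ∣
        sys (dum P G) (Fin.cons (-G) P : Fin (k + 1) → ℤ[X]) (Fin.cons N h : Fin (k + 1) → ℕ) i a := by
    intro a h1 h2 h3 i
    refine Fin.cases ?_ (fun i => ?_) i
    · unfold sys
      rw [Fin.cons_zero]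
      exact h3
    · unfold sys ran
      rw [Fin.cons_succ]
      refine Fin.cases ?_ (fun i => ?_) i
      · rw [Fin.cons_zero, Fin.cons_zero, eval_neg]
        have h4 : -G.eval a + (N : ℤ) = N - G.eval a := by ring
        rw [h4]
        exact h2
      · rw [Fin.cons_succ, Fin.cons_succ, ← famP_eval]
        exact h1 i
  by_cases hlm : l ≤ m
  · refine ⟨n, key n h1 h2 ?_⟩
    rw [dum_eval, ← hm]
    intro hd
    have h3 : (l : ℤ) ∣ ((primorial m : ℕ) : ℤ) := by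
      exact_mod_cast (hl.dvd_primorial_iff).2 hlm
    have h4 : (l : ℤ) ∣ 1 := (Int.dvd_add_right (h3.mul_right n)).1 hd
    have h5 : (l : ℤ) ≤ 1 := Int.le_of_dvd one_pos h4
    have h6 := hl.two_le
    omega
  · push Not at hlm
    -- bad residues
    set bad : Finset ℕ := (univ.biUnion fun i => (range l).filter fun a : ℕ =>
      (l : ℤ) ∣ (famP P h i).eval (a : ℤ)) ∪
      (((range l).filter fun a : ℕ => (l : ℤ) ∣ (C (N : ℤ) - G).eval (a : ℤ)) ∪
      ((range l).filter fun a : ℕ => (l : ℤ) ∣ (dum P G).eval (a : ℤ))) with hbad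
    have hcard : bad.card ≤ m := by
      refine (card_union_le _ _).trans ?_
      refine (add_le_add card_biUnion_le (card_union_le _ _)).trans ?_
      have h3 : ∑ i, ((range l).filter fun a : ℕ => (l : ℤ) ∣ (famP P h i).eval (a : ℤ)).card ≤
          ∑ i, (P i).natDegree := by
        refine sum_le_sum fun i _ => ?_
        refine (fb_roots _ l hl n (h1 i)).trans ?_
        rw [fb_deg_famP]
      have h4 : ((range l).filter fun a : ℕ => (l : ℤ) ∣ (C (N : ℤ) - G).eval (a : ℤ)).card ≤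
          G.natDegree := by
        refine (fb_roots _ l hl n ?_).trans ?_
        · rw [eval_sub, eval_C]
          exact h2
        · have h5 : (C (N : ℤ) - G) = -G + C (N : ℤ) := by ring
          rw [h5, natDegree_add_C, natDegree_neg]
      have h5 : ((range l).filter fun a : ℕ => (l : ℤ) ∣ (dum P G).eval (a : ℤ)).card ≤ 1 := by
        refine (fb_roots _ l hl 0 ?_).trans ?_
        · rw [dum_eval, mul_zero, zero_add]
          intro h6
          have h7 := Int.le_of_dvd one_pos h6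
          have h8 := hl.two_le
          omega
        · rw [dum_deg]
      omega
    have hex : ∃ a ∈ range l, a ∉ bad := by
      by_contra hcon
      push Not at hcon
      have h3 : (range l).card ≤ bad.card := card_le_card hcon
      rw [card_range] at h3
      omega
    obtain ⟨a, ha1, ha2⟩ := hex
    rw [hbad, mem_union, mem_union, mem_biUnion] at ha2
    push Not at ha2
    refine ⟨a, key a (fun i hi => ha2.1 i (mem_univ i) (mem_filter.2 ⟨ha1, hi⟩)) (fun hi => ?_)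
      (fun hi => ha2.2.2 (mem_filter.2 ⟨ha1, hi⟩))⟩
    refine ha2.2.1 (mem_filter.2 ⟨ha1, ?_⟩)
    rw [eval_sub, eval_C]
    exact hi

/-! ## Counting -/

/-- `pcount` and `primeCount`, the coordinate `N - G` being fixed. -/
theorem fb_cnt_a {k : ℕ} {P : Fin k → ℤ[X]} {G : ℤ[X]} {N : ℕ} {h : Fin k → ℕ}
    (hN : argSet G N = (Icc 1 (argCount G N) : Finset ℕ)) :
    pcount (argCount G N) (C (N : ℤ) - G) P h = primeCount (famP P h) G N := by
  unfold primeCount pcount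
  rw [← Set.ncard_coe_finset]
  apply congrArg Set.ncard
  ext n
  rw [mem_coe, mem_filter, Set.mem_ofPred_eq, hN, mem_coe, fb_prime, eval_sub, eval_C]
  constructor
  · rintro ⟨h1, h2, h3⟩
    exact ⟨h1, fun i => by rw [fb_prime, famP_eval]; exact h3 i, h2⟩
  · rintro ⟨h1, h2, h3⟩
    exact ⟨h1, h3, fun i => by have := h2 i; rwa [fb_prime, famP_eval] at this⟩

/-- The set counted by `primeCount` is a subset of `[1, X(Y)]` for `N ≤ Y`. -/
theorem fb_sub {k : ℕ} {F : Fin k → ℤ[X]} {G : ℤ[X]} {N Y : ℕ} (hNY : N ≤ Y)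
    (hY : argSet G Y = (Icc 1 (argCount G Y) : Finset ℕ)) :
    {n : ℕ | n ∈ argSet G N ∧ (∀ i, ∃ q : ℕ, q.Prime ∧ (F i).eval (n : ℤ) = q) ∧
      ∃ q : ℕ, q.Prime ∧ (N : ℤ) - G.eval (n : ℤ) = q} ⊆ (Icc 1 (argCount G Y) : Finset ℕ) := by
  intro n hn
  rw [← hY]
  have h1 := hn.1
  refine ⟨h1.1, ?_⟩
  have h2 := h1.2
  have h3 : (N : ℤ) ≤ Y := by exact_mod_cast hNY
  linarith

/-- `pcount ≤ primeCount` with `F_0` as linear coordinate. -/
theorem fb_cnt_b {k : ℕ} {P : Fin k → ℤ[X]} {G F₀ : ℤ[X]} {N Y : ℕ} {h : Fin k → ℕ} (hNY : N ≤ Y)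
    (hY : argSet G Y = (Icc 1 (argCount G Y) : Finset ℕ)) :
    pcount (argCount G Y) F₀ (Fin.cons (-G) P : Fin (k + 1) → ℤ[X])
      (Fin.cons N h : Fin (k + 1) → ℕ) ≤
      primeCount (Fin.cons F₀ (famP P h) : Fin (k + 1) → ℤ[X]) G N := by
  unfold primeCount pcount
  rw [← Set.ncard_coe_finset]
  refine Set.ncard_le_ncard ?_ ((Finset.finite_toSet _).subset (fb_sub hNY hY))
  intro n hn
  rw [mem_coe, mem_filter] at hn
  obtain ⟨h1, h2, h3⟩ := hn
  have h4 := h3 0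
  rw [Fin.cons_zero, Fin.cons_zero, eval_neg] at h4
  have h5 : -G.eval (n : ℤ) + (N : ℤ) = N - G.eval (n : ℤ) := by ring
  rw [h5] at h4
  refine ⟨⟨(mem_Icc.1 h1).1, ?_⟩, fun i => ?_, fb_prime.2 h4⟩
  · have h6 := h4.pos
    omega
  · rw [fb_prime]
    refine Fin.cases ?_ (fun i => ?_) i
    · rw [Fin.cons_zero]
      exact h2
    · have h6 := h3 i.succ
      rw [Fin.cons_succ, Fin.cons_succ] at h6
      rw [Fin.cons_succ, famP_eval]
      exact h6

/-- `pcount ≤ primeCount` with any linear coordinate. -/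
theorem fb_cnt_c {k : ℕ} {P : Fin k → ℤ[X]} {G B : ℤ[X]} {N Y : ℕ} {h : Fin k → ℕ} (hNY : N ≤ Y)
    (hY : argSet G Y = (Icc 1 (argCount G Y) : Finset ℕ)) :
    pcount (argCount G Y) B (Fin.cons (-G) P : Fin (k + 1) → ℤ[X])
      (Fin.cons N h : Fin (k + 1) → ℕ) ≤ primeCount (famP P h) G N := by
  refine (fb_cnt_b hNY hY).trans ?_
  unfold primeCount
  refine Set.ncard_le_ncard ?_ ((Finset.finite_toSet _).subset (fb_sub hNY hY))
  rintro n ⟨h1, h2, h3⟩
  refine ⟨h1, fun i => ?_, h3⟩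
  have h4 := h2 i.succ
  rwa [Fin.cons_succ] at h4

end Pool.Agent.Lib.H24P
end

-- from Lib.H24P.FC
section

/-!
# Project H24P, module F: the final theorems from the core theorem
-/

open Finset Polynomial Filter Topology

namespace Pool.Agent.Lib.H24P

open Pool.Agent.Lib.H59 (argSet argCount Admissible primeCount argSet_eq argCount_tendsto)




/-- The size of the side `Y`. -/
theorem fc_Y (G : ℤ[X]) (hG : 1 ≤ G.natDegree) (hl : 0 < G.leadingCoeff) :
    ∀ᶠ Y : ℕ in atTop, (argCount G Y : ℝ) ^ G.natDegree ≤ 2 * Y ∧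
      (Y : ℝ) ≤ 2 * G.leadingCoeff.natAbs * (argCount G Y : ℝ) ^ G.natDegree := by
  have h1 := Pool.Agent.Lib.H33B.argCount_pow G hG hl
  have hb : (1 : ℝ) ≤ G.leadingCoeff := by exact_mod_cast hl
  have hb0 : (0 : ℝ) < G.leadingCoeff := by linarith
  have hna : ((G.leadingCoeff.natAbs : ℕ) : ℝ) = G.leadingCoeff := by
    have h2 : ((G.leadingCoeff.natAbs : ℕ) : ℤ) = G.leadingCoeff := Int.natAbs_of_nonneg hl.le
    rw [← Int.cast_natCast, h2]
  have hi : (G.leadingCoeff : ℝ)⁻¹ ≤ 1 := inv_le_one_of_one_le₀ hb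
  have hi0 : 0 < (G.leadingCoeff : ℝ)⁻¹ := inv_pos.2 hb0
  filter_upwards [h1.eventually (gt_mem_nhds (show (G.leadingCoeff : ℝ)⁻¹ < 2 by linarith)),
    h1.eventually (lt_mem_nhds (show (G.leadingCoeff : ℝ)⁻¹ / 2 < (G.leadingCoeff : ℝ)⁻¹ by linarith)),
    eventually_ge_atTop 1] with Y hY1 hY2 hY3
  have hYp : (0 : ℝ) < Y := by exact_mod_cast hY3
  rw [div_lt_iff₀ hYp] at hY1
  rw [lt_div_iff₀ hYp] at hY2
  refine ⟨hY1.le, ?_⟩
  rw [hna]
  have h3 : (Y : ℝ) = 2 * G.leadingCoeff * ((G.leadingCoeff : ℝ)⁻¹ / 2 * Y) := by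
    field_simp
  rw [h3]
  exact mul_le_mul_of_nonneg_left hY2.le (by positivity)







end Pool.Agent.Lib.H24P
end

-- from Lib.HUP.U1
section

/-!
# Projects HUP and HPC, module F (the second moment `FMT` from Theorem P), U1: from the uniform statements to a given system
-/

open Finset Polynomial

namespace Pool.Agent.HUP

open Pool.Agent.HUK (GG DD DL DV FF bxS Bdd)

theorem U1_FGT {k d : ℕ} (c : Fin k → Fin d → ℤ) (P : Fin k → ℤ[X])
    (h : FGTU c (fun i => (P i).natDegree) (fun i => (P i).leadingCoeff)) : FGT c P := by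
  obtain ⟨E, Cc, cc, hF, h⟩ := h
  exact ⟨E, Cc, cc, hF, h P fun i => ⟨rfl, rfl⟩⟩

/-- The constant: `1000 (A+1)^2 2^A ∑_i ∑_{j ≤ A} |coeff|`. -/
def u1_L {k : ℕ} (A : ℕ) (P : Fin k → ℤ[X]) : ℕ :=
  1000 * (A + 1) ^ 2 * 2 ^ A * ∑ i, ∑ j ∈ range (A + 1), ((P i).coeff j).natAbs

theorem u1_lo {k : ℕ} (A : ℕ) (P : Fin k → ℤ[X]) (hA : ∀ i, (P i).natDegree ≤ A) (X1 : ℕ) (hX : 0 < X1)
    (M : Fin k → ℕ) (h : ∀ i, u1_L A P * X1 ^ (P i).natDegree ≤ M i) (i : Fin k) (j : ℕ) :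
    1000 * (A + 1) ^ 2 * ((P i).coeff j).natAbs * (2 * X1) ^ j ≤ M i := by
  by_cases hj : j ≤ (P i).natDegree
  · refine le_trans ?_ (h i)
    have h1 : ((P i).coeff j).natAbs ≤ ∑ i, ∑ j ∈ range (A + 1), ((P i).coeff j).natAbs := by
      refine le_trans ?_ (single_le_sum (f := fun i => ∑ j ∈ range (A + 1), ((P i).coeff j).natAbs)
        (fun i _ => Nat.zero_le _) (mem_univ i))
      exact single_le_sum (f := fun j => ((P i).coeff j).natAbs) (fun i _ => Nat.zero_le _)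
        (mem_range.2 (Nat.lt_succ_of_le (hj.trans (hA i))))
    have h2 : (2 * X1) ^ j ≤ 2 ^ A * X1 ^ (P i).natDegree := by
      rw [mul_pow]
      exact Nat.mul_le_mul (Nat.pow_le_pow_right (by norm_num) (hj.trans (hA i)))
        (Nat.pow_le_pow_right hX hj)
    calc 1000 * (A + 1) ^ 2 * ((P i).coeff j).natAbs * (2 * X1) ^ j
        ≤ 1000 * (A + 1) ^ 2 * (∑ i, ∑ j ∈ range (A + 1), ((P i).coeff j).natAbs) *
          (2 ^ A * X1 ^ (P i).natDegree) := Nat.mul_le_mul (Nat.mul_le_mul_left _ h1) h2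
      _ = u1_L A P * X1 ^ (P i).natDegree := by unfold u1_L; ring
  · rw [coeff_eq_zero_of_natDegree_lt (not_le.1 hj)]
    simp

/-- **U1.** Proof. `A` = the sum of the degrees; `GeoU` follows from `Geo L` if `L ≥ 1000 (A+1)^2 2^A ∑_i ∑_j |coeff|` (`coeff j = 0` for
`j > deg`, `(2 X1)^j ≤ 2^A X1^(deg)`). -/
theorem U1_S4T {k d : ℕ} (c : Fin k → Fin d → ℤ) (e : Fin d → ℕ) (P : Fin k → ℤ[X]) (hP : ∀ i, 1 ≤ (P i).natDegree)
    (h : S4TU c e (fun i => (P i).natDegree) (fun i => (P i).leadingCoeff)) : S4T c e P := by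
  have hA : ∀ i, (P i).natDegree ≤ ∑ i, (P i).natDegree := fun i =>
    single_le_sum (f := fun i => (P i).natDegree) (fun i _ => Nat.zero_le _) (mem_univ i)
  obtain ⟨K, hK, h⟩ := h (∑ i, (P i).natDegree) hA
  refine ⟨K, u1_L (∑ i, (P i).natDegree) P, hK, fun C => ?_⟩
  obtain ⟨τ, c0, hτ, hτ1, hc0, Q0, h⟩ := h C
  refine ⟨τ, c0, hτ, hτ1, hc0, Q0, fun Q X X1 M b s β hQ hR hG => ?_⟩
  exact h P (fun i => ⟨rfl, rfl⟩) Q X X1 M b s β hQ hR
    ⟨hG.dvd, hG.pos, hG.le, hG.ge, hG.dvdM, u1_lo _ P hA X1 hG.pos M hG.lo, hG.hi⟩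

end Pool.Agent.HUP
end

-- from Lib.HUP.Z0
section

/-!
# Projects HUP and HPC, module Z (the final theorems), Z0: definitions
-/

open Finset Polynomial Filter Topology

namespace Pool.Agent.HUP

open Pool.Agent.Lib.H24P
open Pool.Agent.Lib.H59 (argSet argCount Admissible primeCount argSet_eq argCount_tendsto)

noncomputable section

/-- The core theorem for all data. -/
def CoreAll : Prop := ∀ (k d : ℕ) (c : Fin k → Fin d → ℤ) (e : Fin d → ℕ) (P : Fin k → ℤ[X]),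
  Dat c e (fun i => (P i).natDegree) (fun i => (P i).leadingCoeff) → CoreT c e P

/-- The system `P_i + b_i + ψ_i(t)`. -/
def famT {g d : ℕ} (P : Fin g → ℤ[X]) (c : Fin g → Fin d → ℤ) (b : Fin g → ℤ) (t : Fin d → ℤ) : Fin g → ℤ[X] :=
  fun i => P i + C (b i + lf c t i)

/-- The box `|t_j| ≤ A X^(e_j)`. -/
def BoxT {d : ℕ} (A X : ℕ) (e : Fin d → ℕ) : Finset (Fin d → ℤ) :=
  Fintype.piFinset fun j => Icc (-((A * X ^ e j : ℕ) : ℤ)) ((A * X ^ e j : ℕ) : ℤ)

end

/-- Monotonicity of `OKB` (as `K5_mono` of H24P, for one exponent). -/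
theorem z0_mono {A A' : ℕ} {ε : ℝ} {Z : ℕ} {B : ℤ[X]} (h : OKB A ε Z B) (hA : A ≤ A') : OKB A' ε Z B := by
  have h2 : ∀ n : ℕ, A' * n ≤ Z → A * n ≤ Z := fun n hn => (Nat.mul_le_mul_right n hA).trans hn
  refine ⟨h.deg, h.lc.trans hA, fun n a b => h.lo n a (h2 n b), ?_,
    fun n n' a b => h.cmp1 n n' a (h2 n b), fun n n' a b => h.cmp2 n n' a (h2 n b)⟩
  intro n a b
  refine (h.hi n a (h2 n b)).trans ?_
  have h3 : (A : ℤ) ≤ A' := by exact_mod_cast hA
  exact mul_le_mul_of_nonneg_right h3 (Int.natCast_nonneg _)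

/-- The forms are additive. -/
theorem z0_add {k d : ℕ} (c : Fin k → Fin d → ℤ) (t s : Fin d → ℤ) (i : Fin k) :
    lf c (fun j => t j + s j) i = lf c t i + lf c s i := by
  unfold lf
  rw [← Finset.sum_add_distrib]
  exact Finset.sum_congr rfl fun j _ => mul_add _ _ _

/-- The size of the shift. -/
theorem z0_abs {k d : ℕ} (c : Fin k → Fin d → ℤ) (e : Fin d → ℕ) (i : Fin k) (D A Z : ℕ)
    (h : ∀ j, c i j ≠ 0 → e j = D) :
    |lf c (fun j => ((A * Z ^ e j : ℕ) : ℤ)) i| ≤ (A : ℤ) * (∑ j, |c i j|) * (Z : ℤ) ^ D := by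
  unfold lf
  refine (Finset.abs_sum_le_sum_abs _ _).trans ?_
  rw [mul_assoc, Finset.sum_mul, Finset.mul_sum]
  refine Finset.sum_le_sum fun j _ => ?_
  rw [abs_mul, Nat.abs_cast]
  by_cases hj : c i j = 0
  · rw [hj]
    simp
  · rw [h j hj]
    push_cast
    exact le_of_eq (by ring)

/-- **Z0.** The core theorem on symmetric boxes. Proof. `t = t' - A Z^e` with `0 ≤ t' ≤ 2 A Z^e`, `β' = β - ψ(A Z^e)`,
`|β'_i| ≤ A' Z^(D_i)` with `A' = 2 A (1 + ∑_i ∑_j |c i j|)` (`e j = D_i` if `c i j ≠ 0`), `hh c β t = hh c β' t'`; `OKB` is monotone in `A`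
(`K5_mono`, `1 ≤ Z`). -/
theorem Z0_box (hC : CoreAll) {k d : ℕ} (c : Fin k → Fin d → ℤ) (e : Fin d → ℕ) (P : Fin k → ℤ[X])
    (hD : Dat c e (fun i => (P i).natDegree) (fun i => (P i).leadingCoeff)) (A : ℕ) (ε : ℝ) (hε : 0 < ε) :
    open Classical in ∃ η : ℝ, 0 < η ∧ ∃ Z0 : ℕ, ∀ Z : ℕ, Z0 ≤ Z → ∀ B : ℤ[X], OKB A ε Z B → ∀ β : Fin k → ℤ,
      (∀ i, |β i| ≤ A * (Z : ℤ) ^ (P i).natDegree) →
      (((BoxT A Z e).filter fun t => (∀ i, 0 ≤ β i + lf c t i) ∧ NoFix (sys B P (hh c β t)) ∧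
        ((pcount Z B P (hh c β t) : ℕ) : ℝ) < (Z : ℝ) ^ (1 - ε)).card : ℝ) ≤
        (Z : ℝ) ^ ((∑ j, (e j : ℝ)) - η) := by
  classical
  obtain ⟨S, hS⟩ : ∃ S : ℕ, S = ∑ i, ∑ j, (c i j).natAbs := ⟨_, rfl⟩
  obtain ⟨A', hA'⟩ : ∃ A' : ℕ, A' = 2 * A * (1 + S) := ⟨_, rfl⟩
  obtain ⟨η, hη, Z1, h1⟩ := hC k d c e P hD A' ε hε
  refine ⟨η, hη, max 1 Z1, ?_⟩
  intro Z hZ B hB β hβ
  have hZ1 : 1 ≤ Z := (le_max_left _ _).trans hZ
  have hZZ : Z1 ≤ Z := (le_max_right _ _).trans hZ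
  have hAA : A ≤ A' := by
    rw [hA']
    nlinarith [Nat.zero_le (A * S)]
  have hAA2 : 2 * A ≤ A' := by
    rw [hA']
    nlinarith [Nat.zero_le (A * S)]
  set s : Fin d → ℤ := fun j => ((A * Z ^ e j : ℕ) : ℤ) with hs
  set β' : Fin k → ℤ := fun i => β i - lf c s i with hβ'
  have hval : ∀ (t : Fin d → ℤ) (i : Fin k), β' i + lf c (fun j => t j + s j) i = β i + lf c t i := by
    intro t i
    rw [z0_add, hβ']
    ring
  have hhe : ∀ t : Fin d → ℤ, hh c β' (fun j => t j + s j) = hh c β t := by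
    intro t
    funext i
    unfold hh
    rw [hval t i]
  have hb' : ∀ i, |β' i| ≤ (A' : ℤ) * (Z : ℤ) ^ (P i).natDegree := by
    intro i
    have e1 := hβ i
    have e2 := z0_abs c e i (P i).natDegree A Z (fun j hj => hD.blk i j hj)
    have e3 : |β' i| ≤ |β i| + |lf c s i| := by
      rw [hβ']
      exact abs_sub _ _
    have e4 : (∑ j, |c i j|) ≤ (S : ℤ) := by
      have e5 : (∑ j, (c i j).natAbs) ≤ S := by
        rw [hS]
        exact Finset.single_le_sum (f := fun i => ∑ j, (c i j).natAbs) (fun _ _ => Nat.zero_le _)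
          (Finset.mem_univ i)
      have e6 : ((∑ j, (c i j).natAbs : ℕ) : ℤ) = ∑ j, |c i j| := by
        push_cast
        rfl
      rw [← e6]
      exact_mod_cast e5
    have hA0 : (0 : ℤ) ≤ A := Int.natCast_nonneg _
    have hZ0 : (0 : ℤ) ≤ (Z : ℤ) ^ (P i).natDegree := pow_nonneg (Int.natCast_nonneg _) _
    have e7 : (A : ℤ) * (∑ j, |c i j|) * (Z : ℤ) ^ (P i).natDegree ≤ (A : ℤ) * S * (Z : ℤ) ^ (P i).natDegree :=
      mul_le_mul_of_nonneg_right (mul_le_mul_of_nonneg_left e4 hA0) hZ0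
    have e8 : (A : ℤ) * (Z : ℤ) ^ (P i).natDegree + (A : ℤ) * S * (Z : ℤ) ^ (P i).natDegree ≤
        (A' : ℤ) * (Z : ℤ) ^ (P i).natDegree := by
      have e9 : (A' : ℤ) = 2 * ((A : ℤ) * (1 + S)) := by
        rw [hA']
        push_cast
        ring
      have e10 : 0 ≤ ((A : ℤ) * (1 + S)) * (Z : ℤ) ^ (P i).natDegree :=
        mul_nonneg (mul_nonneg hA0 (by positivity)) hZ0
      rw [e9]
      linarith
    linarith
  have hB' : OKB A' ε Z B := z0_mono hB hAA
  refine le_trans ?_ (h1 Z hZZ B hB' β' hb')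
  norm_cast
  refine Finset.card_le_card_of_injOn (fun t j => t j + s j) ?_ ?_
  · intro t ht
    rw [Finset.mem_coe, Finset.mem_filter] at ht ⊢
    obtain ⟨hbox, h0, hfix, hcnt⟩ := ht
    refine ⟨?_, ?_, ?_, ?_⟩
    · unfold BoxT at hbox
      unfold tb
      rw [Fintype.mem_piFinset] at hbox ⊢
      intro j
      have e1 := Finset.mem_Icc.mp (hbox j)
      rw [Finset.mem_Ico]
      have e2 : ((A * Z ^ e j : ℕ) : ℤ) + ((A * Z ^ e j : ℕ) : ℤ) ≤ ((A' * Z ^ e j : ℕ) : ℤ) := by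
        have e3 : A * Z ^ e j + A * Z ^ e j ≤ A' * Z ^ e j := by
          calc A * Z ^ e j + A * Z ^ e j = 2 * A * Z ^ e j := by ring
            _ ≤ A' * Z ^ e j := Nat.mul_le_mul_right _ hAA2
        exact_mod_cast e3
      have e4 : s j = ((A * Z ^ e j : ℕ) : ℤ) := rfl
      have e5 : ((0 : Fin d → ℤ) j) = 0 := rfl
      refine ⟨?_, ?_⟩
      · change (0 : Fin d → ℤ) j ≤ t j + s j
        rw [e4, e5]
        linarith [e1.1]
      · change t j + s j < (0 : Fin d → ℤ) j + ((A' * Z ^ e j + 1 : ℕ) : ℤ)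
        rw [e4, e5]
        push_cast at e1 e2 ⊢
        linarith [e1.2]
    · intro i
      rw [hval t i]
      exact h0 i
    · rw [hhe t]
      exact hfix
    · rw [hhe t]
      exact hcnt
  · intro t _ t' _ h
    funext j
    have e1 := congrFun h j
    exact add_right_cancel e1

theorem famT_eval {g d : ℕ} (P : Fin g → ℤ[X]) (c : Fin g → Fin d → ℤ) (b : Fin g → ℤ) (t : Fin d → ℤ)
    (h : ∀ i, 0 ≤ b i + lf c t i) : famT P c b t = famP P (hh c b t) := by
  funext i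
  unfold famT famP hh
  rw [Int.toNat_of_nonneg (h i)]

end Pool.Agent.HUP
end
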