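import Mathlib
import Pool.Agent.Lib.H59M.M1.M084

/-! Merged copies (to shorten the build) of Lib.HPG.Defs, Lib.HPG.G5, Lib.HPG.FDefs, Lib.HPG.G10, Lib.HPG.G13, Lib.HPG.G12, Lib.HPG.G14, Lib.HPG.G11, Lib.HPG.G1, Lib.HPG.G2, Lib.HPG.G3, Lib.HPG.G6. -/

-- from Lib.HPG.Defs
section

/-!
# Project HPG (MP_f686a1_nt, MP_0bf1d2_nt): linear polynomials, constant terms polynomials of small parameters

The system `f_i n + R_i(t)`, `i < k`, `n ≤ Z`, `t ≤ A U`, `U^D ~ Z`, `R_i` of degree `D` with fixed leading coefficient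
`a_i ≠ 0` and arbitrary lower coefficients of size `A U^(D-j)`, the vectors `(f_i, a_i)` pairwise not proportional, and
a fixed linear coordinate `B`. It is dual to project HPC with one parameter. See `PROOF.md`.
-/

open Finset Polynomial

namespace Pool.Agent.HPG

open Pool.Agent.Lib.H68T Pool.Agent.Lib.H18Q Pool.Agent.Lib.H59P Pool.Agent.Lib.H24P
open Pool.Agent.HUK (GG)
open Pool.Agent.HUP

noncomputable section

/-- The data: `f_i ≥ 1`, `a_i ≠ 0`, the vectors `(f_i, a_i)` pairwise not proportional. -/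
structure GD {k : ℕ} (D : ℕ) (f a : Fin k → ℤ) : Prop where
  D1 : 1 ≤ D
  f1 : ∀ i, 1 ≤ f i
  a0 : ∀ i, a i ≠ 0
  ind : ∀ i j, i ≠ j → f i * a j ≠ f j * a i

/-- The polynomials `f_i X`. -/
def lX {k : ℕ} (f : Fin k → ℤ) : Fin k → ℤ[X] := fun i => C (f i) * X

/-- The polynomials `R i` have degree `D` and leading coefficients `a i`. -/
def HD {k : ℕ} (D : ℕ) (a : Fin k → ℤ) (R : Fin k → ℤ[X]) : Prop := HasD (fun _ => D) a R

/-- The constant terms `R_i(t)` (used when they are not negative). -/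
def gR {k : ℕ} (R : Fin k → ℤ[X]) (t : ℕ) : Fin k → ℕ := fun i => ((R i).eval (t : ℤ)).toNat

/-- The values `R_i(t)` are between `1.51 M_i` and `1.68 M_i`. -/
def Mid {k : ℕ} (R : Fin k → ℤ[X]) (M : Fin k → ℕ) (t : ℕ) : Prop :=
  ∀ i, 151 * (M i : ℤ) ≤ 100 * (R i).eval (t : ℤ) ∧ 100 * (R i).eval (t : ℤ) < 168 * (M i : ℤ)

/-- The lower coefficients have size `A U^(D-j)`. -/
def Cb {k : ℕ} (D A U : ℕ) (R : Fin k → ℤ[X]) : Prop :=
  ∀ i, ∀ j ≤ D, |(R i).coeff j| ≤ A * (U : ℤ) ^ (D - j)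

/-- The exceptional `t`: no fixed divisor, but few prime values. -/
def Ex {k : ℕ} (Z : ℕ) (B : ℤ[X]) (f : Fin k → ℤ) (R : Fin k → ℤ[X]) (ε : ℝ) (t : ℕ) : Prop :=
  NoFix (sys B (lX f) (gR R t)) ∧ ((pcount Z B (lX f) (gR R t) : ℕ) : ℝ) < (Z : ℝ) ^ (1 - ε)

/-! ## Interfaces -/

/-- **Large sieve** for the family `R_i(t)`, `t` in an interval. -/
def FGR {k : ℕ} (D : ℕ) (f a : Fin k → ℤ) : Prop := ∃ (E : ℕ) (Cc cc : ℝ), FPar Cc cc ∧
  ∀ R : Fin k → ℤ[X], HD D a R → ∀ Qm t0 s : ℕ, 1 ≤ Qm → Qm ^ E ≤ s →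
    (∀ t ∈ Ico t0 (t0 + s), ∀ i, 0 ≤ (R i).eval (t : ℤ)) → FGood E Cc cc Qm (lX f) (Ico t0 (t0 + s)) (gR R)

/-- **Second moment over `t`**, one function with small `U^s` norm, weights `w n` arbitrary. -/
def SMR {k : ℕ} (D : ℕ) (f a : Fin k → ℤ) : Prop := ∀ (i0 : Fin k) (C0 : ℕ), ∃ s : ℕ, 2 ≤ s ∧ ∀ κ : ℝ, 0 < κ →
  ∃ δ : ℝ, 0 < δ ∧ ∃ X0 : ℕ, ∀ X : ℕ, X0 ≤ X → ∀ R : Fin k → ℤ[X], HD D a R → ∀ β : Fin k → ℤ,
    ∀ n1 σ : ℕ, σ ≤ C0 * X ^ D → ∀ t0 N : ℕ, N ≤ C0 * X → ∀ w : ℕ → ℂ, (∀ n, ‖w n‖ ≤ 1) →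
    ∀ F : Fin k → ℤ → ℂ, (∀ i m, ‖F i m‖ ≤ 1) →
    (∀ (i : Fin k) (m : ℤ), m ∉ Ico (-((C0 * X ^ D : ℕ) : ℤ)) ((C0 * X ^ D : ℕ) : ℤ) → F i m = 0) →
    Pool.Agent.HUK.GG (C0 * X ^ D) s (F i0) ≤ (X : ℝ) ^ ((D : ℝ) * (s + 1) - κ) →
    ∑ t ∈ Ico t0 (t0 + N), ‖∑ n ∈ Ico n1 (n1 + σ), w n * ∏ i, F i (f i * (n : ℤ) + ((R i).eval (t : ℤ) + β i))‖ ^ 2 ≤
      (X : ℝ) ^ (1 + 2 * (D : ℝ) - δ)

/-- **Telescoping**: the primes may be replaced by their projections at level `Q`, mean square over `t`. -/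
def S4R {k : ℕ} (D : ℕ) (f a : Fin k → ℤ) : Prop :=
  ∃ (K : ℝ) (L : ℕ), 1 ≤ K ∧ ∀ C : ℝ, ∃ τ c0 : ℝ, 0 < τ ∧ τ ≤ 1 ∧
    0 < c0 ∧ ∃ Q0 : ℕ, ∀ (Q X X1 : ℕ) (M : Fin k → ℕ) (R : Fin k → ℤ[X]) (t0 s : ℕ), Q0 ≤ Q → HD D a R →
    Rg K C Q X → Geo L Q X X1 (lX f) M → (X : ℝ) ≤ X1 * (Q : ℝ) ^ τ →
    (∀ i, (M i : ℝ) ≤ X1 * (Q : ℝ) ^ τ) →
    (X : ℝ) ≤ (Q : ℝ) ^ τ * (s : ℝ) ^ D → (s : ℝ) ^ D ≤ (Q : ℝ) ^ τ * X →
    (∀ i, ∃ (B : ℤ → Ch → ℂ) (mb : Ch → ℝ), Cf Q (Ysc (M i)) B mb) →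
    (∀ t ∈ Ico t0 (t0 + s), Mid R M t) →
    ∀ w : ℕ → ℝ, (∀ n ∈ Ico X1 (2 * X1), |w n| ≤ (Real.log X) ^ 2) →
    ∑ t ∈ Ico t0 (t0 + s), (∑ n ∈ Ico X1 (2 * X1), w n * ∏ i, lp ((lX f i).eval (n : ℤ) + gR R t i) -
      Rw Q X1 (lX f) M w (gR R t)) ^ 2 ≤ (X1 : ℝ) ^ 2 * s * (Q : ℝ) ^ (-c0)

open Classical in
/-- **The core theorem** for given data. -/
def CoreR {k : ℕ} (D : ℕ) (f a : Fin k → ℤ) : Prop := ∀ (A : ℕ) (ε : ℝ), 0 < ε →
  ∃ η : ℝ, 0 < η ∧ ∃ Z0 : ℕ, ∀ Z U : ℕ, Z0 ≤ Z → U ^ D ≤ A * Z → Z ≤ A * U ^ D → ∀ B : ℤ[X], OKB A ε Z B →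
    ∀ R : Fin k → ℤ[X], HD D a R → Cb D A U R →
    (((range (A * U + 1)).filter fun t : ℕ => (∀ i, 0 ≤ (R i).eval (t : ℤ)) ∧ Ex Z B f R ε t).card : ℝ) ≤
      U * (Z : ℝ) ^ (-η)

end

end Pool.Agent.HPG
end

-- from Lib.HPG.G5
section

/-!
# Project HPG, chunk G5 (M): variation of the polynomials
-/

open Finset Polynomial

namespace Pool.Agent.HPG

theorem g5_pow (T t t' : ℤ) (h0 : 0 ≤ t) (h1 : t ≤ T) (h0' : 0 ≤ t') (h1' : t' ≤ T) (j : ℕ) :
    |t ^ (j + 1) - t' ^ (j + 1)| ≤ (j + 1) * T ^ j * |t - t'| := by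
  have hT : 0 ≤ T := h0.trans h1
  induction j with
  | zero => simp
  | succ j ih =>
    have e : t ^ (j + 1 + 1) - t' ^ (j + 1 + 1) = t * (t ^ (j + 1) - t' ^ (j + 1)) + t' ^ (j + 1) * (t - t') := by ring
    have ha : |t * (t ^ (j + 1) - t' ^ (j + 1))| ≤ T * ((j + 1) * T ^ j * |t - t'|) := by
      rw [abs_mul, abs_of_nonneg h0]
      exact mul_le_mul h1 ih (abs_nonneg _) hT
    have hb : |t' ^ (j + 1) * (t - t')| ≤ T ^ (j + 1) * |t - t'| := by
      rw [abs_mul, abs_of_nonneg (pow_nonneg h0' _)]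
      exact mul_le_mul_of_nonneg_right (pow_le_pow_left₀ h0' h1' _) (abs_nonneg _)
    rw [e]
    refine (abs_add_le _ _).trans ((add_le_add ha hb).trans (le_of_eq ?_))
    push_cast
    ring

/-- One term of the difference. -/
theorem g5_term (D A Bd U j : ℕ) (hU : 1 ≤ U) (hj : j ≤ D) (cf : ℤ) (hc : |cf| ≤ A * (U : ℤ) ^ (D - j)) (t t' : ℤ)
    (h0 : 0 ≤ t) (h1 : t ≤ Bd * U) (h0' : 0 ≤ t') (h1' : t' ≤ Bd * U) :
    |cf * t ^ j - cf * t' ^ j| ≤ A * (D + 1) * ((Bd : ℤ) + 1) ^ D * (U : ℤ) ^ (D - 1) * |t - t'| := by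
  have hA : (0 : ℤ) ≤ A := Nat.cast_nonneg A
  have hB : (0 : ℤ) ≤ Bd := Nat.cast_nonneg Bd
  have hU' : (1 : ℤ) ≤ U := by exact_mod_cast hU
  cases j with
  | zero =>
    simp only [pow_zero, sub_self, abs_zero]
    positivity
  | succ j =>
    rw [← mul_sub, abs_mul]
    have h2 := g5_pow (Bd * U) t t' h0 h1 h0' h1' j
    have h3 : (Bd : ℤ) ^ j ≤ ((Bd : ℤ) + 1) ^ D :=
      (pow_le_pow_left₀ hB (by linarith) j).trans (pow_le_pow_right₀ (by linarith) (by omega))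
    have h4 : ((j : ℤ) + 1) ≤ D + 1 := by
      have : (j : ℤ) ≤ D := by exact_mod_cast (by omega : j ≤ D)
      linarith
    have e : (U : ℤ) ^ (D - (j + 1)) * (U : ℤ) ^ j = (U : ℤ) ^ (D - 1) := by
      rw [← pow_add]
      congr 1
      omega
    calc |cf| * |t ^ (j + 1) - t' ^ (j + 1)|
        ≤ (A * (U : ℤ) ^ (D - (j + 1))) * ((j + 1) * (Bd * U) ^ j * |t - t'|) :=
          mul_le_mul hc h2 (abs_nonneg _) (by positivity)
      _ = A * (((j : ℤ) + 1) * (Bd : ℤ) ^ j) * ((U : ℤ) ^ (D - (j + 1)) * (U : ℤ) ^ j) * |t - t'| := by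
          rw [mul_pow]
          ring
      _ = A * (((j : ℤ) + 1) * (Bd : ℤ) ^ j) * (U : ℤ) ^ (D - 1) * |t - t'| := by rw [e]
      _ ≤ A * (((D : ℤ) + 1) * ((Bd : ℤ) + 1) ^ D) * (U : ℤ) ^ (D - 1) * |t - t'| := by
          have h5 : ((j : ℤ) + 1) * (Bd : ℤ) ^ j ≤ ((D : ℤ) + 1) * ((Bd : ℤ) + 1) ^ D :=
            mul_le_mul h4 h3 (by positivity) (by positivity)
          exact mul_le_mul_of_nonneg_right (mul_le_mul_of_nonneg_right (mul_le_mul_of_nonneg_left h5 hA) (by positivity))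
            (abs_nonneg _)
      _ = A * (D + 1) * ((Bd : ℤ) + 1) ^ D * (U : ℤ) ^ (D - 1) * |t - t'| := by ring

/-- One term of the value. -/
theorem g5_val (D A Bd U j : ℕ) (hj : j ≤ D) (cf : ℤ) (hc : |cf| ≤ A * (U : ℤ) ^ (D - j)) (t : ℤ)
    (h0 : 0 ≤ t) (h1 : t ≤ Bd * U) :
    |cf * t ^ j| ≤ A * ((Bd : ℤ) + 1) ^ D * (U : ℤ) ^ D := by
  have hA : (0 : ℤ) ≤ A := Nat.cast_nonneg A
  have hB : (0 : ℤ) ≤ Bd := Nat.cast_nonneg Bd
  have hU : (0 : ℤ) ≤ U := Nat.cast_nonneg U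
  have h3 : (Bd : ℤ) ^ j ≤ ((Bd : ℤ) + 1) ^ D :=
    (pow_le_pow_left₀ hB (by linarith) j).trans (pow_le_pow_right₀ (by linarith) hj)
  have e : (U : ℤ) ^ (D - j) * (U : ℤ) ^ j = (U : ℤ) ^ D := by
    rw [← pow_add]
    congr 1
    omega
  rw [abs_mul, abs_of_nonneg (pow_nonneg h0 j)]
  calc |cf| * t ^ j ≤ (A * (U : ℤ) ^ (D - j)) * (Bd * U) ^ j :=
        mul_le_mul hc (pow_le_pow_left₀ h0 h1 j) (pow_nonneg h0 j) (by positivity)
    _ = A * (Bd : ℤ) ^ j * ((U : ℤ) ^ (D - j) * (U : ℤ) ^ j) := by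
        rw [mul_pow]
        ring
    _ = A * (Bd : ℤ) ^ j * (U : ℤ) ^ D := by rw [e]
    _ ≤ A * ((Bd : ℤ) + 1) ^ D * (U : ℤ) ^ D :=
        mul_le_mul_of_nonneg_right (mul_le_mul_of_nonneg_left h3 hA) (by positivity)

/-- **G5.** Proof. `R(t) = ∑_{j ≤ D} c_j t^j`, `|c_j| ≤ A U^(D-j)`, `t ≤ Bd U`: `|R(t)| ≤ ∑_j A U^(D-j) (Bd U)^j ≤ A (D+1) (Bd+1)^D U^D`, and
`|t^j - t'^j| ≤ j (Bd U)^(j-1) |t - t'|` (`pow_sub_pow`-type bound, induction on `j` or `Commute.geom_sum₂`), so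
`|R(t) - R(t')| ≤ A (D+1) D (Bd+1)^D U^(D-1) |t - t'|`. -/
theorem G5_var (D A Bd : ℕ) (hD : 1 ≤ D) : ∃ V : ℕ, 1 ≤ V ∧ ∀ (k U : ℕ) (R : Fin k → ℤ[X]), 1 ≤ U →
    (∀ i, (R i).natDegree ≤ D) → Cb D A U R → ∀ (i : Fin k) (t t' : ℕ), t ≤ Bd * U → t' ≤ Bd * U →
    |(R i).eval (t : ℤ) - (R i).eval (t' : ℤ)| ≤ V * (U : ℤ) ^ (D - 1) * |(t : ℤ) - t'| ∧
      |(R i).eval (t : ℤ)| ≤ V * (U : ℤ) ^ D := by
  refine ⟨(D + 1) * (A * (D + 1) * (Bd + 1) ^ D) + 1, by omega, ?_⟩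
  intro k U R hU hdeg hCb i t t' ht ht'
  have hA : (0 : ℤ) ≤ A := Nat.cast_nonneg A
  have hU' : (1 : ℤ) ≤ U := by exact_mod_cast hU
  have ht1 : (t : ℤ) ≤ Bd * U := by exact_mod_cast ht
  have ht1' : (t' : ℤ) ≤ Bd * U := by exact_mod_cast ht'
  have ev : ∀ x : ℤ, (R i).eval x = ∑ j ∈ range (D + 1), (R i).coeff j * x ^ j := fun x =>
    eval_eq_sum_range' (Nat.lt_succ_of_le (hdeg i)) x
  constructor
  · rw [ev, ev, ← Finset.sum_sub_distrib]
    refine (Finset.abs_sum_le_sum_abs _ _).trans ?_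
    have h : ∀ j ∈ range (D + 1), |(R i).coeff j * (t : ℤ) ^ j - (R i).coeff j * (t' : ℤ) ^ j| ≤
        A * (D + 1) * ((Bd : ℤ) + 1) ^ D * (U : ℤ) ^ (D - 1) * |(t : ℤ) - t'| := by
      intro j hj
      have hj' : j ≤ D := Nat.lt_succ_iff.1 (Finset.mem_range.1 hj)
      exact g5_term D A Bd U j hU hj' _ (hCb i j hj') t t' (Int.natCast_nonneg t) ht1 (Int.natCast_nonneg t') ht1'
    refine (Finset.sum_le_card_nsmul _ _ _ h).trans ?_
    rw [Finset.card_range, nsmul_eq_mul]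
    push_cast
    have h5 : 0 ≤ (U : ℤ) ^ (D - 1) * |(t : ℤ) - t'| := by positivity
    have e : (((D : ℤ) + 1) * (A * (D + 1) * (Bd + 1) ^ D) + 1) * (U : ℤ) ^ (D - 1) * |(t : ℤ) - t'| =
        ((D : ℤ) + 1) * (A * (D + 1) * (Bd + 1) ^ D * (U : ℤ) ^ (D - 1) * |(t : ℤ) - t'|) +
          (U : ℤ) ^ (D - 1) * |(t : ℤ) - t'| := by ring
    rw [e]
    linarith
  · rw [ev]
    refine (Finset.abs_sum_le_sum_abs _ _).trans ?_
    have h : ∀ j ∈ range (D + 1), |(R i).coeff j * (t : ℤ) ^ j| ≤ A * (D + 1) * ((Bd : ℤ) + 1) ^ D * (U : ℤ) ^ D := by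
      intro j hj
      have hj' : j ≤ D := Nat.lt_succ_iff.1 (Finset.mem_range.1 hj)
      refine (g5_val D A Bd U j hj' _ (hCb i j hj') t (Int.natCast_nonneg t) ht1).trans ?_
      have h6 : (A : ℤ) * ((Bd : ℤ) + 1) ^ D * (U : ℤ) ^ D * 1 ≤ (A : ℤ) * ((Bd : ℤ) + 1) ^ D * (U : ℤ) ^ D * (D + 1) :=
        mul_le_mul_of_nonneg_left (by linarith [Int.natCast_nonneg D]) (by positivity)
      linarith
    refine (Finset.sum_le_card_nsmul _ _ _ h).trans ?_
    rw [Finset.card_range, nsmul_eq_mul]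
    push_cast
    have h5 : 0 ≤ (U : ℤ) ^ D := by positivity
    have e : (((D : ℤ) + 1) * (A * (D + 1) * (Bd + 1) ^ D) + 1) * (U : ℤ) ^ D =
        ((D : ℤ) + 1) * (A * (D + 1) * (Bd + 1) ^ D * (U : ℤ) ^ D) + (U : ℤ) ^ D := by ring
    rw [e]
    linarith

end Pool.Agent.HPG
end

-- from Lib.HPG.FDefs
section

/-!
# Project HPG: definitions for the final theorems
-/

open Finset Polynomial

namespace Pool.Agent.HPG

noncomputable section

/-- Admissible tuples of integers. -/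
def Adm1 {k : ℕ} (m : Fin k → ℤ) : Prop := ∀ l : ℕ, l.Prime → ∃ n : ℤ, ∀ i, ¬ (l : ℤ) ∣ n + m i

/-- Non-negative, admissible, fewer than `T^(1-ε)` prime translates up to `T`. -/
def Bad1 {k : ℕ} (T : ℕ) (ε : ℝ) (m : Fin k → ℤ) : Prop := (∀ i, 0 ≤ m i) ∧ Adm1 m ∧
  (((Icc 1 T).filter fun n : ℕ => ∀ i, ((n : ℤ) + m i).toNat.Prime).card : ℝ) < (T : ℝ) ^ (1 - ε)

open Classical in
/-- The theorem for one parameter. -/
def OneP {k : ℕ} (D : ℕ) (c : Fin k → ℤ) : Prop := ∀ (A : ℕ) (ε : ℝ), 0 < ε → ∃ η : ℝ, 0 < η ∧ ∃ T0 : ℕ,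
  ∀ T U : ℕ, T0 ≤ T → U ^ D ≤ T → T ≤ A * U ^ D → ∀ R : Fin k → ℤ[X],
    (∀ i, (R i).natDegree ≤ D ∧ (R i).coeff D = c i) → (∀ i, ∀ j < D, |(R i).coeff j| ≤ A * (U : ℤ) ^ (D - j)) →
    (((range (U + 1)).filter fun t : ℕ => Bad1 T ε fun i => (R i).eval (t : ℤ)).card : ℝ) ≤ U * (T : ℝ) ^ (-η)

/-- The polynomial `R` on the line `t0 + u v`. -/
def ln {d : ℕ} (R : MvPolynomial (Fin d) ℤ) (t0 v : Fin d → ℕ) : ℤ[X] :=
  MvPolynomial.aeval (fun j => C (t0 j : ℤ) + C (v j : ℤ) * X) R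

/-- `R` is `H` plus terms of degrees less than `D` with coefficients of size `A U^(D - degree)`. -/
def Pert {d : ℕ} (D A U : ℕ) (H R : MvPolynomial (Fin d) ℤ) : Prop :=
  ∀ m : Fin d →₀ ℕ, (R - H).coeff m ≠ 0 → ∑ j, m j < D ∧ |(R - H).coeff m| ≤ A * (U : ℤ) ^ (D - ∑ j, m j)

end

end Pool.Agent.HPG
end

-- from Lib.HPG.G10
section

/-!
# Project HPG, chunk G10 (S/M): the dummy coordinate `W n + 1`
-/

open Finset Polynomial

namespace Pool.Agent.HPG

open Pool.Agent.Lib.H24P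

theorem g10_eval (W : ℕ) (n : ℤ) : (C (W : ℤ) * X + C 1 : ℤ[X]).eval n = W * n + 1 := by
  rw [eval_add, eval_mul, eval_C, eval_X, eval_C]

/-- Proof. Degree `1`, leading coefficient `W`. `n ≤ 2 (W n + 1)`; `W n + 1 ≤ A n + 1 ≤ Z + 1 ≤ A Z`; for `n ≤ n' < 2n`: `W n' + 1 < 3 (W n + 1)`. -/
theorem G10_okb (W A Z : ℕ) (ε : ℝ) (hW : 1 ≤ W) (hA : W ≤ A) (hA2 : 2 ≤ A) (hZ : 1 ≤ Z) :
    OKB A ε Z (C (W : ℤ) * X + C 1) := by
  have hW0 : (W : ℤ) ≠ 0 := by
    have : 0 < W := hW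
    exact_mod_cast this.ne'
  have hW1 : (1 : ℤ) ≤ W := by exact_mod_cast hW
  refine ⟨natDegree_linear hW0, ?_, ?_, ?_, ?_, ?_⟩
  · rw [leadingCoeff_linear hW0]
    simpa using hA
  · intro n _ _
    rw [g10_eval]
    have hn : (0 : ℤ) ≤ n := Int.natCast_nonneg n
    nlinarith
  · intro n _ h
    rw [g10_eval]
    have h1 : W * n ≤ A * n := Nat.mul_le_mul_right n hA
    have h2 : W * n + 1 ≤ A * Z := by
      have h3 : 2 * Z ≤ A * Z := Nat.mul_le_mul_right Z hA2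
      omega
    exact_mod_cast h2
  · intro n n' _ _ h1 h2
    rw [g10_eval, g10_eval]
    have h3 : W * n' ≤ W * (2 * n) := Nat.mul_le_mul_left W h2.le
    have h4 : W * (2 * n) = 2 * (W * n) := by ring
    have h5 : W * n' + 1 < 3 * (W * n + 1) := by omega
    exact_mod_cast h5
  · intro n n' _ _ h1 h2
    rw [g10_eval, g10_eval]
    have h3 : W * n ≤ W * n' := Nat.mul_le_mul_left W h1
    have h5 : W * n + 1 < 3 * (W * n' + 1) := by omega
    exact_mod_cast h5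

theorem g10_ran {k : ℕ} (h : Fin k → ℕ) (i : Fin k) (n : ℤ) : ran (lX fun _ : Fin k => 1) h i n = n + h i := by
  unfold ran lX
  rw [eval_mul, eval_C, eval_X, one_mul]

/-- Proof. `l ≤ k + 1`: `l ∣ W`, the coordinate `W n + 1` is never divisible by `l`, take `n` from `hadm`. `l > k + 1`: at most `k + 1` residues `n` modulo `l` are
zeros of one of the coordinates (`W n + 1`: at most one, none if `l ∣ W`; `n + h_i`: one), some residue is left. -/
theorem G10_nofix {k : ℕ} (W : ℕ) (hW : ∀ l : ℕ, l.Prime → l ≤ k + 1 → l ∣ W) (h : Fin k → ℕ)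
    (hadm : ∀ l : ℕ, l.Prime → ∃ n : ℤ, ∀ i, ¬ (l : ℤ) ∣ n + h i) :
    NoFix (sys (C (W : ℤ) * X + C 1) (lX fun _ : Fin k => 1) h) := by
  classical
  intro l hl
  by_cases hk : l ≤ k + 1
  · obtain ⟨n, hn⟩ := hadm l hl
    refine ⟨n, fun i => ?_⟩
    refine Fin.cases ?_ (fun i => ?_) i
    · show ¬ (l : ℤ) ∣ (C (W : ℤ) * X + C 1 : ℤ[X]).eval n
      rw [g10_eval]
      intro hd
      have h1 : (l : ℤ) ∣ (W : ℤ) * n := Dvd.dvd.mul_right (by exact_mod_cast hW l hl hk) n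
      have h2 : (l : ℤ) ∣ 1 := (dvd_add_right h1).1 hd
      have h3 : l ∣ 1 := by exact_mod_cast h2
      exact hl.one_lt.ne' (Nat.dvd_one.1 h3)
    · show ¬ (l : ℤ) ∣ ran (lX fun _ : Fin k => 1) h i n
      rw [g10_ran]
      exact hn i
  · haveI : Fact l.Prime := ⟨hl⟩
    let f : Option (Fin k) → ZMod l := fun o => match o with
      | none => -((W : ZMod l))⁻¹
      | some i => -((h i : ℕ) : ZMod l)
    have hcard : (Finset.univ.image f).card < (Finset.univ : Finset (ZMod l)).card := by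
      refine lt_of_le_of_lt Finset.card_image_le ?_
      rw [Finset.card_univ, Finset.card_univ, Fintype.card_option, Fintype.card_fin, ZMod.card]
      omega
    obtain ⟨x, -, hx⟩ := Finset.exists_mem_notMem_of_card_lt_card hcard
    have hx' : ∀ o, x ≠ f o := fun o ho => hx (Finset.mem_image.2 ⟨o, Finset.mem_univ _, ho.symm⟩)
    refine ⟨(x.val : ℤ), fun i => ?_⟩
    have hxv : (((x.val : ℕ) : ℤ) : ZMod l) = x := by
      rw [Int.cast_natCast, ZMod.natCast_zmod_val]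
    refine Fin.cases ?_ (fun i => ?_) i
    · show ¬ (l : ℤ) ∣ (C (W : ℤ) * X + C 1 : ℤ[X]).eval ((x.val : ℕ) : ℤ)
      rw [g10_eval, ← ZMod.intCast_zmod_eq_zero_iff_dvd, Int.cast_add, Int.cast_mul, hxv, Int.cast_natCast, Int.cast_one]
      intro h0
      have hW0 : (W : ZMod l) ≠ 0 := by
        intro h1
        rw [h1, zero_mul, zero_add] at h0
        exact one_ne_zero h0
      apply hx' none
      show x = -((W : ZMod l))⁻¹
      have h2 : (W : ZMod l) * x = -1 := eq_neg_of_add_eq_zero_left h0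
      calc x = ((W : ZMod l))⁻¹ * ((W : ZMod l) * x) := by rw [inv_mul_cancel_left₀ hW0]
        _ = -((W : ZMod l))⁻¹ := by rw [h2]; ring
    · show ¬ (l : ℤ) ∣ ran (lX fun _ : Fin k => 1) h i ((x.val : ℕ) : ℤ)
      rw [g10_ran, ← ZMod.intCast_zmod_eq_zero_iff_dvd, Int.cast_add, hxv, Int.cast_natCast]
      intro h0
      exact hx' (some i) (eq_neg_of_add_eq_zero_left h0)

end Pool.Agent.HPG
end

-- from Lib.HPG.G13
section

/-!
# Project HPG, chunk G13 (M): polynomials on a line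
-/

open Finset Polynomial

namespace Pool.Agent.HPG

/-- The monomial on the line, over `ℕ`. -/
noncomputable def g13_q {d : ℕ} (t0 v : Fin d → ℕ) (m : Fin d →₀ ℕ) : ℕ[X] := ∏ j, (C (t0 j) + C (v j) * X) ^ m j

theorem g13_ln {d : ℕ} (S : MvPolynomial (Fin d) ℤ) (t0 v : Fin d → ℕ) :
    ln S t0 v = ∑ m ∈ S.support, C (S.coeff m) * (g13_q t0 v m).map (Nat.castRingHom ℤ) := by
  unfold ln
  rw [MvPolynomial.aeval_def, MvPolynomial.eval₂_eq']
  refine sum_congr rfl fun m _ => ?_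
  congr 1
  unfold g13_q
  rw [Polynomial.map_prod]
  refine prod_congr rfl fun j _ => ?_
  rw [Polynomial.map_pow, Polynomial.map_add, Polynomial.map_mul, map_C, map_C, map_X]
  rfl

theorem g13_prod {R ι : Type*} [CommSemiring R] (s : Finset ι) (f : ι → R[X]) (n : ι → ℕ)
    (h : ∀ i ∈ s, (f i).natDegree ≤ n i) :
    (∏ i ∈ s, f i).natDegree ≤ ∑ i ∈ s, n i ∧ (∏ i ∈ s, f i).coeff (∑ i ∈ s, n i) = ∏ i ∈ s, (f i).coeff (n i) := by
  classical
  revert h
  refine Finset.induction_on s ?_ ?_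
  · intro _
    simp
  · intro a s ha ih h
    obtain ⟨h1, h2⟩ := ih fun i hi => h i (mem_insert_of_mem hi)
    have h3 := h a (mem_insert_self _ _)
    rw [prod_insert ha, sum_insert ha, prod_insert ha]
    refine ⟨natDegree_mul_le_of_le h3 h1, ?_⟩
    rw [coeff_mul_add_eq_of_natDegree_le h3 h1, h2]

theorem g13_qdeg {d : ℕ} (t0 v : Fin d → ℕ) (m : Fin d →₀ ℕ) :
    (g13_q t0 v m).natDegree ≤ ∑ j, m j ∧ (g13_q t0 v m).coeff (∑ j, m j) = ∏ j, v j ^ m j := by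
  have hlin : ∀ j, (C (t0 j) + C (v j) * X : ℕ[X]).natDegree ≤ 1 := fun j => by
    rw [add_comm]
    exact natDegree_linear_le
  have h1 := g13_prod univ (fun j => (C (t0 j) + C (v j) * X : ℕ[X]) ^ m j) (fun j => m j) (fun j _ => by
    have := natDegree_pow_le_of_le (m j) (hlin j)
    rwa [mul_one] at this)
  refine ⟨h1.1, h1.2.trans (prod_congr rfl fun j _ => ?_)⟩
  have h2 := coeff_pow_of_natDegree_le (m := m j) (hlin j)
  rw [mul_one] at h2
  rw [h2]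
  simp

theorem g13_qbd {d : ℕ} (t0 v : Fin d → ℕ) (m : Fin d →₀ ℕ) {U : ℕ} (hU : 1 ≤ U) (ht : ∀ j, t0 j ≤ U) (j : ℕ)
    (hj : j ≤ ∑ i, m i) : (g13_q t0 v m).coeff j ≤ (1 + ∑ i, v i) ^ (∑ i, m i) * U ^ (∑ i, m i - j) := by
  have h1 : (g13_q t0 v m).coeff j * U ^ j ≤ (g13_q t0 v m).eval U := by
    rw [eval_eq_sum_range]
    by_cases hd : j ≤ (g13_q t0 v m).natDegree
    · exact single_le_sum (f := fun i => (g13_q t0 v m).coeff i * U ^ i) (fun i _ => Nat.zero_le _)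
        (mem_range.2 (Nat.lt_succ_of_le hd))
    · rw [coeff_eq_zero_of_natDegree_lt (not_le.1 hd), zero_mul]
      exact Nat.zero_le _
  have h2 : (g13_q t0 v m).eval U ≤ ((1 + ∑ i, v i) * U) ^ (∑ i, m i) := by
    unfold g13_q
    rw [eval_prod, ← prod_pow_eq_pow_sum]
    refine prod_le_prod' fun i _ => ?_
    rw [eval_pow, eval_add, eval_mul, eval_C, eval_C, eval_X]
    refine Nat.pow_le_pow_left ?_ _
    have h3 : v i ≤ ∑ i, v i := single_le_sum (f := v) (fun i _ => Nat.zero_le _) (mem_univ i)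
    have h4 := ht i
    nlinarith
  have h5 : (g13_q t0 v m).coeff j * U ^ j ≤ ((1 + ∑ i, v i) ^ (∑ i, m i) * U ^ (∑ i, m i - j)) * U ^ j := by
    refine (h1.trans h2).trans (le_of_eq ?_)
    rw [mul_pow, mul_assoc, ← pow_add, Nat.sub_add_cancel hj]
  exact Nat.le_of_mul_le_mul_right h5 (pow_pos hU j)

theorem g13_hom {d D : ℕ} {H : MvPolynomial (Fin d) ℤ} (hH : H.IsHomogeneous D) {m : Fin d →₀ ℕ} (hm : H.coeff m ≠ 0) :
    ∑ j, m j = D := by
  have h1 := hH hm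
  rw [Finsupp.weight_apply, Finsupp.sum_fintype _ _ (fun _ => by simp)] at h1
  simpa using h1

theorem g13_coeffC {d : ℕ} (t0 v : Fin d → ℕ) (m : Fin d →₀ ℕ) (c : ℤ) (j : ℕ) :
    (C c * (g13_q t0 v m).map (Nat.castRingHom ℤ)).coeff j = c * ((g13_q t0 v m).coeff j : ℤ) := by
  rw [coeff_C_mul, coeff_map]
  rfl

/-- Polynomials with monomials of degree at most `D`. -/
theorem g13_sum {d D : ℕ} (S : MvPolynomial (Fin d) ℤ) (hS : ∀ m, S.coeff m ≠ 0 → ∑ j, m j ≤ D) (t0 v : Fin d → ℕ) :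
    (ln S t0 v).natDegree ≤ D ∧
      (ln S t0 v).coeff D = ∑ m ∈ S.support, if ∑ j, m j = D then S.coeff m * ∏ j, (v j : ℤ) ^ m j else 0 := by
  rw [g13_ln]
  constructor
  · refine natDegree_sum_le_of_forall_le _ _ fun m hm => ?_
    refine (natDegree_C_mul_le _ _).trans ((natDegree_map_le).trans ((g13_qdeg t0 v m).1.trans ?_))
    exact hS m (MvPolynomial.mem_support_iff.1 hm)
  · rw [finsetSum_coeff]
    refine sum_congr rfl fun m hm => ?_
    rw [g13_coeffC]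
    split_ifs with h
    · have h1 := (g13_qdeg t0 v m).2
      rw [h] at h1
      rw [h1]
      push_cast
      rfl
    · have h1 := hS m (MvPolynomial.mem_support_iff.1 hm)
      have h2 : (g13_q t0 v m).natDegree < D := lt_of_le_of_lt (g13_qdeg t0 v m).1 (lt_of_le_of_ne h1 h)
      rw [coeff_eq_zero_of_natDegree_lt h2]
      simp

theorem G13_eval {d : ℕ} (R : MvPolynomial (Fin d) ℤ) (t0 v : Fin d → ℕ) (u : ℕ) :
    (ln R t0 v).eval (u : ℤ) = MvPolynomial.eval (fun j => ((t0 j + u * v j : ℕ) : ℤ)) R := by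
  unfold ln
  have h1 := MvPolynomial.map_aeval (fun j => C (t0 j : ℤ) + C (v j : ℤ) * X) (evalRingHom (u : ℤ)) R
  rw [coe_evalRingHom] at h1
  rw [h1]
  have h2 : (evalRingHom (u : ℤ)).comp (algebraMap ℤ ℤ[X]) = RingHom.id ℤ := RingHom.ext_int _ _
  rw [h2]
  show MvPolynomial.eval _ R = _
  congr 1
  refine congrArg _ (funext fun j => ?_)
  rw [eval_add, eval_mul, eval_C, eval_C, eval_X]
  push_cast
  ring

/-- Proof. `ln R = ln H + ln (R - H)`. A monomial `c ∏ x_j^(m_j)` becomes `c ∏ (t0_j + v_j X)^(m_j)`: degree at most `|m|`, coefficient of `X^|m|` equal to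
`c ∏ v_j^(m_j)`; so only the monomials of degree `D` contribute to the coefficient of `X^D`, and they are those of `H` (homogeneous). -/
theorem G13_top {d D A U : ℕ} (H R : MvPolynomial (Fin d) ℤ) (hH : H.IsHomogeneous D) (hR : Pert D A U H R)
    (t0 v : Fin d → ℕ) :
    (ln R t0 v).natDegree ≤ D ∧ (ln R t0 v).coeff D = MvPolynomial.eval (fun j => (v j : ℤ)) H := by
  have hR1 : ∀ m, (R - H).coeff m ≠ 0 → ∑ j, m j ≤ D := fun m hm => (hR m hm).1.le
  have hH1 : ∀ m, H.coeff m ≠ 0 → ∑ j, m j ≤ D := fun m hm => (g13_hom hH hm).le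
  have hadd : ln R t0 v = ln H t0 v + ln (R - H) t0 v := by
    unfold ln
    rw [← map_add, add_sub_cancel]
  obtain ⟨h1, h2⟩ := g13_sum H hH1 t0 v
  obtain ⟨h3, h4⟩ := g13_sum (R - H) hR1 t0 v
  rw [hadd]
  refine ⟨natDegree_add_le_of_degree_le h1 h3, ?_⟩
  rw [coeff_add, h2, h4]
  have h5 : (∑ m ∈ (R - H).support, if ∑ j, m j = D then (R - H).coeff m * ∏ j, (v j : ℤ) ^ m j else 0) = 0 := by
    refine sum_eq_zero fun m hm => ?_
    rw [if_neg]
    exact (hR m (MvPolynomial.mem_support_iff.1 hm)).1.ne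
  rw [h5, add_zero, MvPolynomial.eval_eq']
  refine sum_congr rfl fun m hm => ?_
  rw [if_pos (g13_hom hH (MvPolynomial.mem_support_iff.1 hm))]

/-- Proof. For `t0 ≤ U` the coefficient of `X^j` in `∏ (t0_i + v_i X)^(m_i)` is at most `2^|m| Vm^|m| U^(|m| - j)`, `Vm = 1 + ∑ v_i` (induction, or evaluate the
polynomial `∏ (U + v_i X)^(m_i)` at `U`: all coefficients are non-negative and `coeff_j U^j ≤ (U (1 + Vm))^|m|`). There are at most `(D+1)^d` monomials of degree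
`≤ D`; coefficients of `R`: at most `A U^(D - |m|)` for `|m| < D`, at most `AH` for those of `H`. -/
theorem G13_bd {d : ℕ} (D A : ℕ) (H : MvPolynomial (Fin d) ℤ) (hH : H.IsHomogeneous D) (v : Fin d → ℕ) :
    ∃ A' : ℕ, ∀ (U : ℕ) (R : MvPolynomial (Fin d) ℤ) (t0 : Fin d → ℕ), 1 ≤ U → Pert D A U H R → (∀ j, t0 j ≤ U) →
    ∀ j ≤ D, |(ln R t0 v).coeff j| ≤ A' * (U : ℤ) ^ (D - j) := by
  classical
  let Ms : Finset (Fin d →₀ ℕ) := (Fintype.piFinset fun _ : Fin d => range (D + 1)).image Finsupp.equivFunOnFinite.symm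
  let AH : ℕ := ∑ m ∈ H.support, (H.coeff m).natAbs
  let V : ℕ := 1 + ∑ i, v i
  refine ⟨Ms.card * ((A + AH) * V ^ D), ?_⟩
  intro U R t0 hU hR ht j hj
  have hUz : (1 : ℤ) ≤ (U : ℤ) := by exact_mod_cast hU
  have hcoef : ∀ m, R.coeff m ≠ 0 → ∑ i, m i ≤ D ∧ |R.coeff m| ≤ ((A + AH : ℕ) : ℤ) * (U : ℤ) ^ (D - ∑ i, m i) := by
    intro m hm
    have hsub : R.coeff m = H.coeff m + (R - H).coeff m := by
      rw [MvPolynomial.coeff_sub]
      ring
    by_cases hH0 : H.coeff m = 0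
    · rw [hH0, zero_add] at hsub
      have h1 : (R - H).coeff m ≠ 0 := by
        rw [← hsub]
        exact hm
      obtain ⟨h2, h3⟩ := hR m h1
      refine ⟨h2.le, ?_⟩
      rw [hsub]
      refine h3.trans ?_
      refine mul_le_mul_of_nonneg_right ?_ (pow_nonneg (Nat.cast_nonneg _) _)
      push_cast
      have : (0 : ℤ) ≤ (AH : ℤ) := Nat.cast_nonneg _
      linarith
    · have h1 := g13_hom hH hH0
      have h2 : (R - H).coeff m = 0 := by
        by_contra h3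
        have := (hR m h3).1
        omega
      rw [h2, add_zero] at hsub
      refine ⟨h1.le, ?_⟩
      rw [hsub, h1, Nat.sub_self, pow_zero, mul_one]
      have h4 : (H.coeff m).natAbs ≤ AH :=
        single_le_sum (f := fun m => (H.coeff m).natAbs) (fun _ _ => Nat.zero_le _) (MvPolynomial.mem_support_iff.2 hH0)
      rw [Int.abs_eq_natAbs]
      exact_mod_cast h4.trans (Nat.le_add_left _ _)
  have hterm : ∀ m ∈ R.support, |(C (R.coeff m) * (g13_q t0 v m).map (Nat.castRingHom ℤ)).coeff j| ≤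
      (((A + AH) * V ^ D : ℕ) : ℤ) * (U : ℤ) ^ (D - j) := by
    intro m hm
    obtain ⟨h1, h2⟩ := hcoef m (MvPolynomial.mem_support_iff.1 hm)
    rw [g13_coeffC, abs_mul, Nat.abs_cast]
    by_cases hjm : j ≤ ∑ i, m i
    · have h3 := g13_qbd t0 v m hU ht j hjm
      have h4 : ((g13_q t0 v m).coeff j : ℤ) ≤ (V : ℤ) ^ D * (U : ℤ) ^ (∑ i, m i - j) := by
        have h5 : (g13_q t0 v m).coeff j ≤ V ^ D * U ^ (∑ i, m i - j) :=
          h3.trans (Nat.mul_le_mul_right _ (Nat.pow_le_pow_right (Nat.le_add_right 1 _) h1))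
        exact_mod_cast h5
      calc |R.coeff m| * ((g13_q t0 v m).coeff j : ℤ)
          ≤ (((A + AH : ℕ) : ℤ) * (U : ℤ) ^ (D - ∑ i, m i)) * ((V : ℤ) ^ D * (U : ℤ) ^ (∑ i, m i - j)) :=
            mul_le_mul h2 h4 (Nat.cast_nonneg _) (mul_nonneg (Nat.cast_nonneg _) (pow_nonneg (Nat.cast_nonneg _) _))
        _ = (((A + AH) * V ^ D : ℕ) : ℤ) * ((U : ℤ) ^ (D - ∑ i, m i) * (U : ℤ) ^ (∑ i, m i - j)) := by
            push_cast
            ring
        _ = (((A + AH) * V ^ D : ℕ) : ℤ) * (U : ℤ) ^ (D - j) := by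
            rw [← pow_add]
            congr 2
            omega
    · have h3 : (g13_q t0 v m).coeff j = 0 :=
        coeff_eq_zero_of_natDegree_lt (lt_of_le_of_lt (g13_qdeg t0 v m).1 (not_le.1 hjm))
      rw [h3, Nat.cast_zero, mul_zero]
      positivity
  have hsupp : R.support ⊆ Ms := by
    intro m hm
    obtain ⟨h1, -⟩ := hcoef m (MvPolynomial.mem_support_iff.1 hm)
    refine mem_image.2 ⟨m, Fintype.mem_piFinset.2 fun i => mem_range.2 ?_, ?_⟩
    · have : m i ≤ ∑ i, m i := single_le_sum (f := fun i => m i) (fun _ _ => Nat.zero_le _) (mem_univ i)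
      omega
    · exact Finsupp.equivFunOnFinite.symm_apply_apply m
  rw [g13_ln, finsetSum_coeff]
  calc |∑ m ∈ R.support, (C (R.coeff m) * (g13_q t0 v m).map (Nat.castRingHom ℤ)).coeff j|
      ≤ ∑ m ∈ R.support, (((A + AH) * V ^ D : ℕ) : ℤ) * (U : ℤ) ^ (D - j) :=
        (abs_sum_le_sum_abs _ _).trans (sum_le_sum hterm)
    _ = (R.support.card : ℤ) * ((((A + AH) * V ^ D : ℕ) : ℤ) * (U : ℤ) ^ (D - j)) := by
        rw [sum_const, nsmul_eq_mul]
    _ ≤ (Ms.card : ℤ) * ((((A + AH) * V ^ D : ℕ) : ℤ) * (U : ℤ) ^ (D - j)) := by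
        refine mul_le_mul_of_nonneg_right ?_ (by positivity)
        exact_mod_cast card_le_card hsupp
    _ = ((Ms.card * ((A + AH) * V ^ D) : ℕ) : ℤ) * (U : ℤ) ^ (D - j) := by
        push_cast
        ring

end Pool.Agent.HPG
end

-- from Lib.HPG.G12
section

/-!
# Project HPG, chunk G12 (M, only Mathlib): lines
-/

open Finset

namespace Pool.Agent.HPG

/-- the last point of a line -/
theorem g12_max {d : ℕ} (v : Fin d → ℕ) (hv : v ≠ 0) (U : ℕ) (t : Fin d → ℕ) (ht : ∀ j, t j ≤ U) :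
    ∃ (u : ℕ) (t0 : Fin d → ℕ), u ≤ U ∧ (∀ j, t0 j ≤ U) ∧ (∃ j, t0 j < v j) ∧ t = fun j => t0 j + u * v j := by
  classical
  obtain ⟨u, hu⟩ : ∃ u, u = Nat.findGreatest (fun u => ∀ j, u * v j ≤ t j) U := ⟨_, rfl⟩
  have hP : ∀ j, u * v j ≤ t j := by
    rw [hu]
    exact Nat.findGreatest_spec (P := fun u => ∀ j, u * v j ≤ t j) (m := 0) (Nat.zero_le _) (fun j => by simp)
  have huU : u ≤ U := by
    rw [hu]
    exact Nat.findGreatest_le _
  obtain ⟨j0, hj0⟩ : ∃ j, v j ≠ 0 := by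
    by_contra hcon
    push Not at hcon
    exact hv (funext hcon)
  have hN : ¬ ∀ j, (u + 1) * v j ≤ t j := by
    intro hP1
    by_cases hle : u + 1 ≤ U
    · exact Nat.findGreatest_is_greatest (P := fun u => ∀ j, u * v j ≤ t j) (n := U) (k := u + 1) (by omega) hle hP1
    · have h1 := hP1 j0
      have h2 := ht j0
      have h3 : u + 1 ≤ (u + 1) * v j0 := Nat.le_mul_of_pos_right _ (Nat.pos_of_ne_zero hj0)
      omega
  push Not at hN
  obtain ⟨j1, hj1⟩ := hN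
  refine ⟨u, fun j => t j - u * v j, huU, fun j => (Nat.sub_le _ _).trans (ht j), ⟨j1, ?_⟩, ?_⟩
  · show t j1 - u * v j1 < v j1
    have h1 : (u + 1) * v j1 = u * v j1 + v j1 := by ring
    have h2 := hP j1
    omega
  · funext j
    have := hP j
    show t j = t j - u * v j + u * v j
    omega

/-- a face -/
theorem g12_face {d : ℕ} (v : Fin d → ℕ) (U : ℕ) (j : Fin d) :
    (((Fintype.piFinset fun _ : Fin d => range (U + 1)).filter fun t => t j < v j).card) ≤ v j * (U + 1) ^ (d - 1) := by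
  classical
  have h1 : ((Fintype.piFinset fun _ : Fin d => range (U + 1)).filter fun t => t j < v j) ⊆
      Fintype.piFinset fun i : Fin d => if i = j then range (v j) else range (U + 1) := by
    intro t ht
    rw [mem_filter, Fintype.mem_piFinset] at ht
    rw [Fintype.mem_piFinset]
    intro i
    by_cases hi : i = j
    · rw [if_pos hi, hi]
      exact mem_range.2 ht.2
    · rw [if_neg hi]
      exact ht.1 i
  refine (card_le_card h1).trans ?_
  rw [Fintype.card_piFinset, ← Finset.mul_prod_erase univ _ (mem_univ j)]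
  rw [if_pos rfl, card_range]
  have h2 : ∏ x ∈ univ.erase j, (if x = j then range (v j) else range (U + 1)).card = (U + 1) ^ (d - 1) := by
    rw [Finset.prod_congr rfl (g := fun _ => U + 1)]
    · rw [Finset.prod_const, card_erase_of_mem (mem_univ j), card_univ, Fintype.card_fin]
    · intro x hx
      rw [if_neg (ne_of_mem_erase hx), card_range]
  rw [h2]

/-- **G12a.** Proof. For `t` in the box `[0, U]^d` let `u` be maximal with `u v ≤ t` (coordinatewise; `v ≠ 0`, so `u ≤ U`), `t0 = t - u v`. Then `t0 j < v j` for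
some `j`: at most `∑_j v_j (U+1)^(d-1)` points `t0`. `t ↦ (t0, u)` is injective. -/
theorem G12_lines {d : ℕ} (v : Fin d → ℕ) (hv : v ≠ 0) (U : ℕ) (E : (Fin d → ℕ) → Prop) [DecidablePred E] (δ : ℝ)
    (hδ : 0 ≤ δ) (h : ∀ t0 : Fin d → ℕ, (∀ j, t0 j ≤ U) →
      (((range (U + 1)).filter fun u => (∀ j, t0 j + u * v j ≤ U) ∧ E (fun j => t0 j + u * v j)).card : ℝ) ≤ δ) :
    (((Fintype.piFinset fun _ : Fin d => range (U + 1)).filter E).card : ℝ) ≤
      (∑ j, v j : ℕ) * ((U : ℝ) + 1) ^ (d - 1) * δ := by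
  classical
  obtain ⟨T0, hT0⟩ : ∃ T0 : Finset (Fin d → ℕ), T0 =
      univ.biUnion (fun j => (Fintype.piFinset fun _ : Fin d => range (U + 1)).filter fun t => t j < v j) := ⟨_, rfl⟩
  have hcard : T0.card ≤ ∑ j, v j * (U + 1) ^ (d - 1) := by
    rw [hT0]
    exact card_biUnion_le.trans (Finset.sum_le_sum fun j _ => g12_face v U j)
  have hsub : (Fintype.piFinset fun _ : Fin d => range (U + 1)).filter E ⊆
      T0.biUnion (fun t0 => ((range (U + 1)).filter fun u => (∀ j, t0 j + u * v j ≤ U) ∧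
        E (fun j => t0 j + u * v j)).image (fun u => fun j => t0 j + u * v j)) := by
    intro t ht
    rw [mem_filter, Fintype.mem_piFinset] at ht
    have htU : ∀ j, t j ≤ U := fun j => by
      have := mem_range.1 (ht.1 j)
      omega
    obtain ⟨u, t0, huU, ht0U, ⟨j1, hj1⟩, hteq⟩ := g12_max v hv U t htU
    rw [mem_biUnion]
    refine ⟨t0, ?_, ?_⟩
    · rw [hT0, mem_biUnion]
      refine ⟨j1, mem_univ _, ?_⟩
      rw [mem_filter, Fintype.mem_piFinset]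
      exact ⟨fun j => mem_range.2 (by have := ht0U j; omega), hj1⟩
    · rw [mem_image]
      refine ⟨u, ?_, hteq.symm⟩
      rw [mem_filter, mem_range]
      refine ⟨by omega, fun j => ?_, ?_⟩
      · have := htU j
        rw [hteq] at this
        exact this
      · rw [← hteq]
        exact ht.2
  have hT0U : ∀ t0 ∈ T0, ∀ j, t0 j ≤ U := by
    intro t0 ht0 j
    rw [hT0, mem_biUnion] at ht0
    obtain ⟨j1, _, h1⟩ := ht0
    rw [mem_filter, Fintype.mem_piFinset] at h1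
    have := mem_range.1 (h1.1 j)
    omega
  calc (((Fintype.piFinset fun _ : Fin d => range (U + 1)).filter E).card : ℝ)
      ≤ ((T0.biUnion (fun t0 => ((range (U + 1)).filter fun u => (∀ j, t0 j + u * v j ≤ U) ∧
        E (fun j => t0 j + u * v j)).image (fun u => fun j => t0 j + u * v j))).card : ℝ) := by
        exact_mod_cast card_le_card hsub
    _ ≤ ((∑ t0 ∈ T0, ((range (U + 1)).filter fun u => (∀ j, t0 j + u * v j ≤ U) ∧
        E (fun j => t0 j + u * v j)).card : ℕ) : ℝ) := by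
        refine Nat.cast_le.2 (card_biUnion_le.trans (Finset.sum_le_sum fun t0 _ => card_image_le))
    _ = ∑ t0 ∈ T0, (((range (U + 1)).filter fun u => (∀ j, t0 j + u * v j ≤ U) ∧
        E (fun j => t0 j + u * v j)).card : ℝ) := by push_cast; rfl
    _ ≤ ∑ _t0 ∈ T0, δ := Finset.sum_le_sum fun t0 ht0 => h t0 (hT0U t0 ht0)
    _ = (T0.card : ℝ) * δ := by rw [Finset.sum_const, nsmul_eq_mul]
    _ ≤ (∑ j, v j : ℕ) * ((U : ℝ) + 1) ^ (d - 1) * δ := by
        refine mul_le_mul_of_nonneg_right ?_ hδ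
        have h1 : (T0.card : ℝ) ≤ ((∑ j, v j * (U + 1) ^ (d - 1) : ℕ) : ℝ) := Nat.cast_le.2 hcard
        refine h1.trans (le_of_eq ?_)
        rw [← Finset.sum_mul]
        push_cast
        rfl

/-- **G12b.** Proof. `G * X 0 ≠ 0`; a polynomial over `ℤ` which vanishes on `ℕ^d` is `0` (`MvPolynomial.funext_set` or
`MvPolynomial.funext` for infinite sets; or induction). -/
theorem G12_dir {d : ℕ} (hd : 1 ≤ d) (G : MvPolynomial (Fin d) ℤ) (hG : G ≠ 0) :
    ∃ v : Fin d → ℕ, v ≠ 0 ∧ MvPolynomial.eval (fun j => (v j : ℤ)) G ≠ 0 := by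
  classical
  obtain ⟨i0, _⟩ : ∃ i0 : Fin d, i0 = ⟨0, hd⟩ := ⟨_, rfl⟩
  by_contra hcon
  push Not at hcon
  have h1 : G * MvPolynomial.X i0 = 0 := by
    refine MvPolynomial.funext_set (fun _ => Set.range (fun n : ℕ => (n : ℤ))) (fun _ => ?_) ?_
    · exact Set.infinite_range_of_injective Nat.cast_injective
    · intro x hx
      have hx' : ∀ i, ∃ n : ℕ, (n : ℤ) = x i := fun i => hx i (Set.mem_univ i)
      choose v hv using hx'
      have hxv : x = fun i => (v i : ℤ) := funext fun i => (hv i).symm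
      rw [map_mul, MvPolynomial.eval_X, map_zero, hxv]
      by_cases hv0 : v = 0
      · rw [hv0]
        simp
      · rw [hcon v hv0, zero_mul]
  rcases mul_eq_zero.1 h1 with h2 | h2
  · exact hG h2
  · exact MvPolynomial.X_ne_zero i0 h2

end Pool.Agent.HPG
end

-- from Lib.HPG.G14
section

/-!
# Project HPG, chunk G14 (M): several parameters (MP_f686a1)
-/

open Finset Polynomial

namespace Pool.Agent.HPG

open Classical in
/-- **G14.** Proof. `G = ∏_{i ≠ j} (H_i - H_j) ≠ 0` (`MvPolynomial` over `ℤ` is a domain, `hinj`); `G12_dir` gives `v`, `c_i = H_i(v)` distinct. `G13_top`, `G13_bd` (maximum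
of `A` and of the `A'` for the finitely many `i`), `hone c` with this constant: for every `t0 ≤ U` at most `U T^(-η')` of the `u ≤ U` are such that
`t0 + u v` is bad (`G13_eval`). `G12_lines` with `δ = U T^(-η')`: at most `(∑ v_j) (U+1)^(d-1) U T^(-η') ≤ U^d T^(-η)` for `T` large, `η = η'/2`. -/
theorem G14_multi {k d : ℕ} (hd : 1 ≤ d) (D : ℕ) (hD : 1 ≤ D) (H : Fin k → MvPolynomial (Fin d) ℤ)
    (hH : ∀ i, (H i).IsHomogeneous D) (hinj : Function.Injective H)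
    (hone : ∀ c : Fin k → ℤ, Function.Injective c → OneP D c) (A : ℕ) (ε : ℝ) (hε : 0 < ε) :
    ∃ η : ℝ, 0 < η ∧ ∃ T0 : ℕ, ∀ T U : ℕ, T0 ≤ T → U ^ D ≤ T → T ≤ A * U ^ D →
    ∀ R : Fin k → MvPolynomial (Fin d) ℤ, (∀ i, Pert D A U (H i) (R i)) →
    (((Fintype.piFinset fun _ : Fin d => range (U + 1)).filter fun t : Fin d → ℕ =>
      Bad1 T ε fun i => MvPolynomial.eval (fun j => (t j : ℤ)) (R i)).card : ℝ) ≤ (U : ℝ) ^ d * (T : ℝ) ^ (-η) := by
  classical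
  obtain ⟨v, hv0, hv⟩ := G12_dir hd (∏ i, ∏ j ∈ univ.erase i, (H i - H j)) (by
    rw [Finset.prod_ne_zero_iff]
    intro i _
    rw [Finset.prod_ne_zero_iff]
    intro j hj
    exact sub_ne_zero.2 fun h => Finset.ne_of_mem_erase hj (hinj h).symm)
  have hc : Function.Injective (fun i => MvPolynomial.eval (fun j => (v j : ℤ)) (H i)) := by
    intro i j hij
    by_contra hne
    apply hv
    rw [map_prod]
    apply Finset.prod_eq_zero (mem_univ i)
    rw [map_prod]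
    apply Finset.prod_eq_zero (i := j) (Finset.mem_erase.2 ⟨Ne.symm hne, mem_univ j⟩)
    rw [map_sub]
    exact sub_eq_zero.2 hij
  choose Ai hAi using fun i => G13_bd D A (H i) (hH i) v
  obtain ⟨A1, hA1⟩ : ∃ A1 : ℕ, A1 = A + ∑ i, Ai i := ⟨_, rfl⟩
  have hAA1 : A ≤ A1 := by omega
  have hAi1 : ∀ i, Ai i ≤ A1 := by
    intro i
    have := Finset.single_le_sum (f := Ai) (fun _ _ => Nat.zero_le _) (mem_univ i)
    omega
  obtain ⟨η', hη', T1, hT1⟩ := hone _ hc A1 ε hε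
  obtain ⟨c0, hc0⟩ : ∃ c0 : ℝ, c0 = ((∑ j, v j : ℕ) : ℝ) * 2 ^ (d - 1) := ⟨_, rfl⟩
  have hc00 : 0 ≤ c0 := by rw [hc0]; positivity
  refine ⟨η' / 2, by linarith, max (max T1 1) ⌈c0 ^ (2 / η')⌉₊, ?_⟩
  intro T U hT hUT hTU R hR
  have hTT1 : T1 ≤ T := ((le_max_left _ _).trans (le_max_left _ _)).trans hT
  have hT1' : 1 ≤ T := ((le_max_right _ _).trans (le_max_left _ _)).trans hT
  have hTc : c0 ^ (2 / η') ≤ (T : ℝ) := by
    have h1 : ⌈c0 ^ (2 / η')⌉₊ ≤ T := (le_max_right _ _).trans hT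
    exact (Nat.le_ceil _).trans (by exact_mod_cast h1)
  have hT0 : (0 : ℝ) < T := by exact_mod_cast hT1'
  have hU1 : 1 ≤ U := by
    rcases Nat.eq_zero_or_pos U with h | h
    · rw [h, zero_pow (by omega), mul_zero] at hTU
      omega
    · exact h
  have hTU' : T ≤ A1 * U ^ D := hTU.trans (Nat.mul_le_mul_right _ hAA1)
  have hline : ∀ t0 : Fin d → ℕ, (∀ j, t0 j ≤ U) →
      (((range (U + 1)).filter fun u => (∀ j, t0 j + u * v j ≤ U) ∧
        (fun t : Fin d → ℕ => Bad1 T ε fun i => MvPolynomial.eval (fun j => (t j : ℤ)) (R i))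
          (fun j => t0 j + u * v j)).card : ℝ) ≤ U * (T : ℝ) ^ (-η') := by
    intro t0 ht0
    have h1 := hT1 T U hTT1 hUT hTU' (fun i => ln (R i) t0 v)
      (fun i => G13_top (H i) (R i) (hH i) (hR i) t0 v)
      (fun i j hj => (hAi i U (R i) t0 hU1 (hR i) ht0 j hj.le).trans
        (mul_le_mul_of_nonneg_right (by exact_mod_cast hAi1 i) (by positivity)))
    refine le_trans ?_ h1
    have h2 : ((range (U + 1)).filter fun u => (∀ j, t0 j + u * v j ≤ U) ∧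
        (fun t : Fin d → ℕ => Bad1 T ε fun i => MvPolynomial.eval (fun j => (t j : ℤ)) (R i))
          (fun j => t0 j + u * v j)).card ≤
        ((range (U + 1)).filter fun u : ℕ => Bad1 T ε fun i => (ln (R i) t0 v).eval (u : ℤ)).card := by
      refine Finset.card_le_card fun u hu => ?_
      rw [mem_filter] at hu ⊢
      refine ⟨hu.1, ?_⟩
      have h3 : (fun i => (ln (R i) t0 v).eval (u : ℤ)) =
          fun i => MvPolynomial.eval (fun j => ((t0 j + u * v j : ℕ) : ℤ)) (R i) :=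
        funext fun i => G13_eval (R i) t0 v u
      rw [h3]
      exact hu.2.2
    exact_mod_cast h2
  have hmain := G12_lines v hv0 U
    (fun t : Fin d → ℕ => Bad1 T ε fun i => MvPolynomial.eval (fun j => (t j : ℤ)) (R i))
    (U * (T : ℝ) ^ (-η')) (by positivity) hline
  refine hmain.trans ?_
  have hU1' : (1 : ℝ) ≤ U := by exact_mod_cast hU1
  have h1 : ((U : ℝ) + 1) ^ (d - 1) ≤ (2 * (U : ℝ)) ^ (d - 1) :=
    pow_le_pow_left₀ (by positivity) (by linarith) _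
  have h2 : (T : ℝ) ^ (-η') = (T : ℝ) ^ (-(η' / 2)) * (T : ℝ) ^ (-(η' / 2)) := by
    rw [← Real.rpow_add hT0]
    congr 1
    ring
  have h3 : c0 ≤ (T : ℝ) ^ (η' / 2) := by
    calc c0 = (c0 ^ (2 / η')) ^ (η' / 2) := by
          rw [← Real.rpow_mul hc00, show 2 / η' * (η' / 2) = 1 by field_simp, Real.rpow_one]
      _ ≤ (T : ℝ) ^ (η' / 2) := Real.rpow_le_rpow (by positivity) hTc (by linarith)
  have h4 : c0 * (T : ℝ) ^ (-(η' / 2)) ≤ 1 := by
    calc c0 * (T : ℝ) ^ (-(η' / 2)) ≤ (T : ℝ) ^ (η' / 2) * (T : ℝ) ^ (-(η' / 2)) :=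
          mul_le_mul_of_nonneg_right h3 (by positivity)
      _ = 1 := by rw [← Real.rpow_add hT0, add_neg_cancel, Real.rpow_zero]
  have h5 : (U : ℝ) ^ (d - 1) * U = (U : ℝ) ^ d := by
    rw [← pow_succ, Nat.sub_add_cancel hd]
  calc ((∑ j, v j : ℕ) : ℝ) * ((U : ℝ) + 1) ^ (d - 1) * (U * (T : ℝ) ^ (-η'))
      ≤ ((∑ j, v j : ℕ) : ℝ) * (2 * (U : ℝ)) ^ (d - 1) * (U * (T : ℝ) ^ (-η')) :=
        mul_le_mul_of_nonneg_right (mul_le_mul_of_nonneg_left h1 (by positivity)) (by positivity)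
    _ = ((U : ℝ) ^ (d - 1) * U) * (T : ℝ) ^ (-(η' / 2)) * (c0 * (T : ℝ) ^ (-(η' / 2))) := by
        rw [h2, mul_pow, hc0]
        ring
    _ ≤ ((U : ℝ) ^ (d - 1) * U) * (T : ℝ) ^ (-(η' / 2)) * 1 :=
        mul_le_mul_of_nonneg_left h4 (by positivity)
    _ = (U : ℝ) ^ d * (T : ℝ) ^ (-(η' / 2)) := by rw [mul_one, h5]

end Pool.Agent.HPG
end

-- from Lib.HPG.G11
section

/-!
# Project HPG, chunk G11 (M/L): one parameter, translates of polynomials with distinct top coefficients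
-/

open Finset Polynomial

namespace Pool.Agent.HPG

open Pool.Agent.Lib.H24P

theorem g11_large (M y : ℝ) (hy : 0 < y) : ∃ N : ℕ, ∀ T : ℕ, N ≤ T → M ≤ (T : ℝ) ^ y := by
  have h := (tendsto_rpow_atTop hy).comp (tendsto_natCast_atTop_atTop (R := ℝ))
  have h2 := (Filter.tendsto_atTop.1 h M)
  obtain ⟨N, hN⟩ := Filter.eventually_atTop.1 h2
  exact ⟨N, fun T hT => hN T hT⟩

/-- The shifted polynomials. -/
noncomputable def g11_R {k : ℕ} (D κ t0 : ℕ) (R : Fin k → ℤ[X]) : Fin k → ℤ[X] :=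
  fun i => R i + C (κ : ℤ) * (X ^ D - C ((t0 : ℤ) ^ D))

theorem g11_eval {k : ℕ} (D κ t0 : ℕ) (R : Fin k → ℤ[X]) (i : Fin k) (t : ℤ) :
    (g11_R D κ t0 R i).eval t = (R i).eval t + κ * (t ^ D - (t0 : ℤ) ^ D) := by
  simp [g11_R]

theorem g11_coeff {k : ℕ} (D κ t0 : ℕ) (R : Fin k → ℤ[X]) (i : Fin k) (j : ℕ) :
    (g11_R D κ t0 R i).coeff j =
      (R i).coeff j + κ * ((if j = D then 1 else 0) - (if j = 0 then (t0 : ℤ) ^ D else 0)) := by
  simp only [g11_R, coeff_add, coeff_C_mul, coeff_sub, coeff_X_pow, coeff_C]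

theorem g11_HD {k : ℕ} (D : ℕ) (hD : 1 ≤ D) (κ t0 : ℕ) (c : Fin k → ℤ) (R : Fin k → ℤ[X])
    (hκ : ∀ i, 1 ≤ c i + κ) (hR : ∀ i, (R i).natDegree ≤ D ∧ (R i).coeff D = c i) :
    HD D (fun i => c i + κ) (g11_R D κ t0 R) := by
  intro i
  have h1 : (g11_R D κ t0 R i).coeff D = c i + κ := by
    rw [g11_coeff, (hR i).2]
    have : D ≠ 0 := by omega
    simp [this]
  have h2 : (g11_R D κ t0 R i).natDegree ≤ D := by
    rw [natDegree_le_iff_coeff_eq_zero]
    intro N hN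
    rw [g11_coeff]
    have e1 : (R i).coeff N = 0 := coeff_eq_zero_of_natDegree_lt (lt_of_le_of_lt (hR i).1 hN)
    have e2 : N ≠ D := by omega
    have e3 : N ≠ 0 := by omega
    simp [e1, e2, e3]
  have h3 : (g11_R D κ t0 R i).natDegree = D := by
    apply natDegree_eq_of_le_of_coeff_ne_zero h2
    rw [h1]
    have := hκ i
    omega
  refine ⟨h3, ?_⟩
  rw [leadingCoeff, h3, h1]

theorem g11_Cb {k : ℕ} (D : ℕ) (hD : 1 ≤ D) (κ t0 A A' U : ℕ) (c : Fin k → ℤ) (R : Fin k → ℤ[X])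
    (hκ : ∀ i, |c i| ≤ κ) (hR : ∀ i, (R i).natDegree ≤ D ∧ (R i).coeff D = c i)
    (hA : ∀ i, ∀ j < D, |(R i).coeff j| ≤ A * (U : ℤ) ^ (D - j)) (hA' : A + 2 * κ ≤ A') (ht : t0 ≤ U) :
    Cb D A' U (g11_R D κ t0 R) := by
  intro i j hj
  rw [g11_coeff]
  have hA'z : (A : ℤ) + 2 * κ ≤ A' := by exact_mod_cast hA'
  have hκ0 : (0 : ℤ) ≤ κ := by positivity
  have hA0 : (0 : ℤ) ≤ A := by positivity
  rcases eq_or_lt_of_le hj with h | h
  · subst h
    have hj0 : j ≠ 0 := by omega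
    rw [(hR i).2]
    simp only [hj0, if_true, if_false, Nat.sub_self, pow_zero, sub_zero, mul_one]
    have h1 := abs_le.1 (hκ i)
    rw [abs_le]
    constructor <;> linarith [h1.1, h1.2]
  · have h1 := hA i j h
    have hjD : j ≠ D := by omega
    by_cases hj0 : j = 0
    · subst hj0
      simp only [hjD, if_true, if_false, Nat.sub_zero] at h1 ⊢
      have h2 : (t0 : ℤ) ^ D ≤ (U : ℤ) ^ D := pow_le_pow_left₀ (by positivity) (by exact_mod_cast ht) D
      have h3 : (0 : ℤ) ≤ (t0 : ℤ) ^ D := by positivity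
      have h4 : (0 : ℤ) ≤ (U : ℤ) ^ D := by positivity
      have h5 := abs_le.1 h1
      have h6 : (κ : ℤ) * (t0 : ℤ) ^ D ≤ κ * (U : ℤ) ^ D := mul_le_mul_of_nonneg_left h2 hκ0
      have h7 : (0 : ℤ) ≤ κ * (t0 : ℤ) ^ D := mul_nonneg hκ0 h3
      have h8 : ((A : ℤ) + 2 * κ) * (U : ℤ) ^ D ≤ A' * (U : ℤ) ^ D := mul_le_mul_of_nonneg_right hA'z h4
      have h9 : (0 : ℤ) ≤ κ * (U : ℤ) ^ D := mul_nonneg hκ0 h4
      rw [abs_le]
      constructor <;> nlinarith [h5.1, h5.2]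
    · simp only [hjD, hj0, if_false, sub_zero, mul_zero, add_zero]
      refine le_trans h1 ?_
      apply mul_le_mul_of_nonneg_right _ (by positivity)
      linarith

/-- The variation of `κ t^D` on a cell. -/
theorem g11_var (D κ J U t0 t : ℕ) (hJ : J = 8 * κ * D) (hD : 1 ≤ D) (hκ : 1 ≤ κ) (h1 : t0 ≤ t)
    (h2 : t < t0 + (U / J + 1)) (h3 : t ≤ U) : 2 * (κ * (t ^ D - t0 ^ D)) ≤ U ^ D := by
  have hJ0 : 0 < J := by
    rw [hJ]; positivity
  -- t^D - t0^D ≤ D U^(D-1) (t - t0)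
  have key : t ^ D ≤ t0 ^ D + D * U ^ (D - 1) * (t - t0) := by
    obtain ⟨w, hw⟩ := Nat.exists_eq_add_of_le h1
    subst hw
    simp only [Nat.add_sub_cancel_left]
    obtain ⟨E, rfl⟩ : ∃ E, D = E + 1 := ⟨D - 1, by omega⟩
    simp only [Nat.add_sub_cancel]
    clear hJ hD
    induction E with
    | zero => simp
    | succ E ih =>
      have h5 : (t0 + w) ^ (E + 1 + 1) = (t0 + w) ^ (E + 1) * (t0 + w) := pow_succ _ _
      have h6 : (t0 + w) ^ (E + 1) ≤ U ^ (E + 1) := Nat.pow_le_pow_left h3 _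
      calc (t0 + w) ^ (E + 1 + 1) = (t0 + w) ^ (E + 1) * t0 + (t0 + w) ^ (E + 1) * w := by rw [h5]; ring
        _ ≤ (t0 ^ (E + 1) + (E + 1) * U ^ E * w) * t0 + U ^ (E + 1) * w :=
            Nat.add_le_add (Nat.mul_le_mul_right _ ih) (Nat.mul_le_mul_right _ h6)
        _ = t0 ^ (E + 1 + 1) + ((E + 1) * U ^ E * w * t0 + U ^ (E + 1) * w) := by ring
        _ ≤ t0 ^ (E + 1 + 1) + ((E + 1) * U ^ E * w * U + U ^ (E + 1) * w) := by
            have : t0 ≤ U := by omega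
            gcongr
        _ = t0 ^ (E + 1 + 1) + (E + 1 + 1) * U ^ (E + 1) * w := by ring
  have h4 : κ * (t ^ D - t0 ^ D) ≤ κ * (D * U ^ (D - 1) * (t - t0)) := by
    apply Nat.mul_le_mul_left
    omega
  have h5 : t - t0 ≤ U / J := by omega
  have h6 : J * (U / J) ≤ U := Nat.mul_div_le U J
  have h7 : U ^ D = U ^ (D - 1) * U := by
    conv_lhs => rw [show D = D - 1 + 1 by omega]
    exact pow_succ _ _
  calc 2 * (κ * (t ^ D - t0 ^ D)) ≤ 2 * (κ * (D * U ^ (D - 1) * (t - t0))) := Nat.mul_le_mul_left _ h4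
    _ ≤ 2 * (κ * (D * U ^ (D - 1) * (U / J))) := by gcongr
    _ ≤ 8 * (κ * (D * U ^ (D - 1) * (U / J))) := Nat.mul_le_mul_right _ (by norm_num)
    _ = U ^ (D - 1) * (J * (U / J)) := by rw [hJ]; ring
    _ ≤ U ^ (D - 1) * U := Nat.mul_le_mul_left _ h6
    _ = U ^ D := h7.symm

/-- One bad `t` of the cell is exceptional for the shifted polynomials. -/
theorem g11_bad {k : ℕ} (D κ t0 t T Z : ℕ) (ε ε' : ℝ) (R : Fin k → ℤ[X]) (ht0 : t0 ≤ t)
    (hZ : Z + κ * (t ^ D - t0 ^ D) ≤ T) (hTZ : (T : ℝ) ^ (1 - ε) ≤ (Z : ℝ) ^ (1 - ε'))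
    (hb : Bad1 T ε fun i => (R i).eval (t : ℤ)) :
    (∀ i, 0 ≤ (g11_R D κ t0 R i).eval (t : ℤ)) ∧
      Ex Z (C (((k + 1).factorial : ℕ) : ℤ) * X + C 1) (fun _ => 1) (g11_R D κ t0 R) ε' t := by
  obtain ⟨hpos, hadm, hcard⟩ := hb
  have hle : t0 ^ D ≤ t ^ D := Nat.pow_le_pow_left ht0 D
  set v : ℕ := κ * (t ^ D - t0 ^ D) with hv
  have hvz : (v : ℤ) = κ * ((t : ℤ) ^ D - (t0 : ℤ) ^ D) := by
    rw [hv]
    push_cast [Nat.cast_sub hle]
    ring
  have hev : ∀ i, (g11_R D κ t0 R i).eval (t : ℤ) = (R i).eval (t : ℤ) + v := by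
    intro i
    rw [g11_eval, hvz]
  have hge : ∀ i, 0 ≤ (g11_R D κ t0 R i).eval (t : ℤ) := by
    intro i
    rw [hev]
    have := hpos i
    have h2 : (0 : ℤ) ≤ v := by positivity
    linarith
  have hgR : ∀ i, ((gR (g11_R D κ t0 R) t i : ℕ) : ℤ) = (R i).eval (t : ℤ) + v := by
    intro i
    rw [gR, Int.toNat_of_nonneg (hge i), hev]
  refine ⟨hge, ?_, ?_⟩
  · apply G10_nofix
    · intro l hl hlk
      exact hl.dvd_factorial.2 hlk
    · intro l hl
      obtain ⟨n, hn⟩ := hadm l hl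
      refine ⟨n - v, fun i => ?_⟩
      rw [hgR i]
      have : n - (v : ℤ) + ((R i).eval (t : ℤ) + v) = n + (R i).eval (t : ℤ) := by ring
      rw [this]
      exact hn i
  · refine lt_of_le_of_lt ?_ (lt_of_lt_of_le hcard hTZ)
    have : pcount Z (C (((k + 1).factorial : ℕ) : ℤ) * X + C 1) (lX fun _ => 1) (gR (g11_R D κ t0 R) t) ≤
        ((Icc 1 T).filter fun n : ℕ => ∀ i, ((n : ℤ) + (R i).eval (t : ℤ)).toNat.Prime).card := by
      unfold pcount
      apply Finset.card_le_card_of_injOn (fun n => n + v)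
      · intro n hn
        simp only [coe_filter, Set.mem_ofPred_eq, mem_Icc] at hn ⊢
        obtain ⟨⟨h1, h2⟩, h3, h4⟩ := hn
        refine ⟨⟨by omega, by omega⟩, fun i => ?_⟩
        have h5 := h4 i
        rw [hgR i] at h5
        have h6 : (lX (fun _ : Fin k => (1 : ℤ)) i).eval (n : ℤ) = n := by
          simp [lX]
        rw [h6] at h5
        have h7 : (n : ℤ) + ((R i).eval (t : ℤ) + v) = ((n + v : ℕ) : ℤ) + (R i).eval (t : ℤ) := by
          push_cast; ring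
        rw [h7] at h5
        exact h5
      · intro a _ b _ hab
        simpa using hab
    exact_mod_cast this

/-- **G11.** Proof. `κ = 1 + ∑ |c_i|`, `a_i = c_i + κ ≥ 1`, distinct: `GD D (fun _ => 1) a`. `W = (k+1)!`, `B = W X + 1`, `Z = T/2`, `ε' = min (ε/2) (1/2)`. Cut
`range (U+1)` into `J = 8 κ D` (plus one) intervals `[t0, t0 + s')`, `s' = U/J + 1`: on it `0 ≤ κ (t^D - t0^D) ≤ κ D U^(D-1) s' ≤ T/2` (`U` large; `t ≤ U`).
For `t` in the interval put `R'_i = R_i + C κ * (X^D - C t0^D)`: `HD D a R'`, `Cb D A' U R'` (`A' = A + 2κ + W + 4`, also `≥` everything needed),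
`R'_i(t) ≥ R_i(t) ≥ 0`. If `t` is bad for `R` then `Ex Z B 1 R' ε' t`: `NoFix` by `G10_nofix` (`n + R'_i(t) = (n + κ (t^D - t0^D)) + R_i(t)`), and
`m ↦ m + κ (t^D - t0^D)` maps the set of `pcount` into the `n ≤ T` with all `n + R_i(t)` prime, fewer than `T^(1-ε) ≤ Z^(1-ε')`. `CoreR` for `A'`, `ε'`:
at most `U Z^(-η')` for each interval. `k = 0` is no exception. -/
theorem G11_one {k : ℕ} (D : ℕ) (hD : 1 ≤ D) (c : Fin k → ℤ) (hc : Function.Injective c)
    (hcore : ∀ f a : Fin k → ℤ, GD D f a → CoreR D f a) : OneP D c := by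
  classical
  intro A ε hε
  set κ : ℕ := 1 + ∑ i, (c i).natAbs with hκdef
  have hκ1 : 1 ≤ κ := by omega
  have habs : ∀ i, |c i| + 1 ≤ κ := by
    intro i
    have h1 : (c i).natAbs ≤ ∑ i, (c i).natAbs :=
      Finset.single_le_sum (f := fun i => (c i).natAbs) (fun _ _ => Nat.zero_le _) (Finset.mem_univ i)
    have h2 : |c i| = ((c i).natAbs : ℤ) := by simp
    rw [h2]
    have : (c i).natAbs + 1 ≤ κ := by omega
    exact_mod_cast this
  have hκa : ∀ i, 1 ≤ c i + κ := by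
    intro i
    have h1 := habs i
    have h2 := neg_abs_le (c i)
    linarith
  have hκb : ∀ i, |c i| ≤ κ := fun i => by linarith [habs i]
  have hGD : GD D (fun _ : Fin k => (1 : ℤ)) (fun i => c i + κ) := by
    refine ⟨hD, fun _ => le_rfl, fun i => ?_, fun i j hij => ?_⟩
    · have := hκa i
      omega
    · intro h
      simp only [one_mul, add_left_inj] at h
      exact hij (hc h.symm)
  set W : ℕ := (k + 1).factorial with hW
  have hW1 : 1 ≤ W := Nat.factorial_pos _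
  set A' : ℕ := A + 2 * κ + W + 4 with hA'
  set ε' : ℝ := min (ε / 2) (1 / 2) with hε'
  have hε'0 : 0 < ε' := by
    rw [hε']; exact lt_min (by linarith) (by norm_num)
  have hε'1 : ε' ≤ ε / 2 := min_le_left _ _
  have hε'2 : ε' ≤ 1 / 2 := min_le_right _ _
  obtain ⟨η', hη', Z0, hZ0⟩ := hcore _ _ hGD A' ε' hε'0
  set J : ℕ := 8 * κ * D with hJ
  have hJ0 : 0 < J := by rw [hJ]; positivity
  obtain ⟨N1, hN1⟩ := g11_large 3 (ε / 2) (by linarith)
  obtain ⟨N2, hN2⟩ := g11_large (J * 3 ^ η') (η' / 2) (by linarith)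
  refine ⟨η' / 2, by linarith, 2 * Z0 + 2 + N1 + N2 + A * J ^ D + 2, ?_⟩
  intro T U hT hUT hTU R hR hA
  have hT2 : 2 ≤ T := by omega
  have hUJ : J ≤ U := by
    by_contra hcon
    push Not at hcon
    have h1 : U ^ D ≤ J ^ D := Nat.pow_le_pow_left hcon.le _
    have h2 : A * U ^ D ≤ A * J ^ D := Nat.mul_le_mul_left _ h1
    omega
  set Z : ℕ := T / 2 with hZ
  have hZ1 : 1 ≤ Z := by omega
  have hZT3 : T ≤ 3 * Z := by omega
  have hTpos : (0 : ℝ) < T := by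
    have : 0 < T := by omega
    exact_mod_cast this
  have hZr : (T : ℝ) / 3 ≤ Z := by
    have : (T : ℝ) ≤ 3 * Z := by exact_mod_cast hZT3
    linarith
  have hTZ : (T : ℝ) ^ (1 - ε) ≤ (Z : ℝ) ^ (1 - ε') := by
    have h1 : ((T : ℝ) / 3) ^ (1 - ε') ≤ (Z : ℝ) ^ (1 - ε') :=
      Real.rpow_le_rpow (by positivity) hZr (by linarith)
    refine le_trans ?_ h1
    rw [Real.div_rpow hTpos.le (by norm_num), le_div_iff₀ (by positivity)]
    have h3 : (3 : ℝ) ^ (1 - ε') ≤ 3 := by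
      calc (3 : ℝ) ^ (1 - ε') ≤ (3 : ℝ) ^ (1 : ℝ) := Real.rpow_le_rpow_of_exponent_le (by norm_num) (by linarith)
        _ = 3 := Real.rpow_one _
    have h4 : (3 : ℝ) ≤ (T : ℝ) ^ (ε / 2) := hN1 T (by omega)
    have h5 : (1 : ℝ) ≤ T := by
      have : 1 ≤ T := by omega
      exact_mod_cast this
    calc (T : ℝ) ^ (1 - ε) * (3 : ℝ) ^ (1 - ε') ≤ (T : ℝ) ^ (1 - ε) * (T : ℝ) ^ (ε / 2) :=
          mul_le_mul_of_nonneg_left (h3.trans h4) (by positivity)
      _ = (T : ℝ) ^ (1 - ε / 2) := by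
          rw [← Real.rpow_add hTpos]; ring_nf
      _ ≤ (T : ℝ) ^ (1 - ε') := Real.rpow_le_rpow_of_exponent_le h5 (by linarith)
  have hOKB : OKB A' ε' Z (C (W : ℤ) * X + C 1) :=
    G10_okb W A' Z ε' hW1 (by omega) (by omega) hZ1
  have hUZ : U ^ D ≤ A' * Z := by
    calc U ^ D ≤ T := hUT
      _ ≤ 3 * Z := hZT3
      _ ≤ A' * Z := Nat.mul_le_mul_right _ (by omega)
  have hZU : Z ≤ A' * U ^ D := by
    calc Z ≤ T := by omega
      _ ≤ A * U ^ D := hTU
      _ ≤ A' * U ^ D := Nat.mul_le_mul_right _ (by omega)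
  set s' : ℕ := U / J + 1 with hs'
  -- the bad set
  set Bd : Finset ℕ := (range (U + 1)).filter fun t : ℕ => Bad1 T ε fun i => (R i).eval (t : ℤ) with hBd
  have hcov : Bd ⊆ (range J).biUnion fun m => Bd.filter fun t => m * s' ≤ t ∧ t < m * s' + s' := by
    intro t ht
    have htU : t ≤ U := by
      have := (mem_filter.1 ht).1
      rw [mem_range] at this
      omega
    rw [mem_biUnion]
    have hs0 : 0 < s' := Nat.succ_pos _
    refine ⟨t / s', ?_, ?_⟩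
    · rw [mem_range, Nat.div_lt_iff_lt_mul hs0]
      have h1 : U < J * s' := by
        rw [hs', mul_add, mul_one]
        have h2 := Nat.div_add_mod U J
        have h3 := Nat.mod_lt U hJ0
        omega
      omega
    · rw [mem_filter]
      refine ⟨ht, Nat.div_mul_le_self t s', ?_⟩
      have h1 := Nat.div_add_mod t s'
      have h2 := Nat.mod_lt t hs0
      have h3 : s' * (t / s') = t / s' * s' := mul_comm _ _
      omega
  have hcell : ∀ m ∈ range J,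
      ((Bd.filter fun t => m * s' ≤ t ∧ t < m * s' + s').card : ℝ) ≤ U * (Z : ℝ) ^ (-η') := by
    intro m _
    by_cases hem : (Bd.filter fun t => m * s' ≤ t ∧ t < m * s' + s').card = 0
    · rw [hem]
      push_cast
      positivity
    · have hne : (Bd.filter fun t => m * s' ≤ t ∧ t < m * s' + s').Nonempty :=
        Finset.card_pos.1 (Nat.pos_of_ne_zero hem)
      obtain ⟨t1, ht1⟩ := hne
      rw [mem_filter, hBd, mem_filter, mem_range] at ht1
      have ht0U : m * s' ≤ U := by omega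
      have hmain := hZ0 Z U (by omega) hUZ hZU _ hOKB (g11_R D κ (m * s') R)
        (g11_HD D hD κ (m * s') c R hκa hR)
        (g11_Cb D hD κ (m * s') A A' U c R hκb hR hA (by omega) ht0U)
      refine le_trans ?_ hmain
      have hsub : (Bd.filter fun t => m * s' ≤ t ∧ t < m * s' + s') ⊆
          ((range (A' * U + 1)).filter fun t : ℕ =>
            (∀ i, 0 ≤ (g11_R D κ (m * s') R i).eval (t : ℤ)) ∧
              Ex Z (C (W : ℤ) * X + C 1) (fun _ => 1) (g11_R D κ (m * s') R) ε' t) := by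
        intro t ht
        rw [mem_filter, hBd, mem_filter, mem_range] at ht
        obtain ⟨⟨h1, h2⟩, h3, h4⟩ := ht
        rw [mem_filter, mem_range]
        constructor
        · have : U ≤ A' * U := Nat.le_mul_of_pos_left U (by omega)
          omega
        · have hv := g11_var D κ J U (m * s') t hJ hD hκ1 h3 h4 (by omega)
          exact g11_bad D κ (m * s') t T Z ε ε' R h3 (by omega) hTZ h2
      exact_mod_cast Finset.card_le_card hsub
  have hsum : (Bd.card : ℝ) ≤ J * (U * (Z : ℝ) ^ (-η')) := by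
    have h1 : Bd.card ≤ ∑ m ∈ range J, (Bd.filter fun t => m * s' ≤ t ∧ t < m * s' + s').card :=
      le_trans (Finset.card_le_card hcov) Finset.card_biUnion_le
    have h2 : (Bd.card : ℝ) ≤ ∑ m ∈ range J, ((Bd.filter fun t => m * s' ≤ t ∧ t < m * s' + s').card : ℝ) := by
      exact_mod_cast h1
    refine le_trans h2 (le_trans (Finset.sum_le_sum hcell) ?_)
    rw [Finset.sum_const, card_range, nsmul_eq_mul]
  refine le_trans hsum ?_
  have hU0 : (0 : ℝ) ≤ U := by positivity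
  have h1 : (Z : ℝ) ^ (-η') ≤ ((T : ℝ) / 3) ^ (-η') :=
    Real.rpow_le_rpow_of_nonpos (by positivity) hZr (by linarith)
  have h2 : ((T : ℝ) / 3) ^ (-η') = 3 ^ η' * (T : ℝ) ^ (-η') := by
    rw [Real.div_rpow hTpos.le (by norm_num), Real.rpow_neg (by norm_num : (0 : ℝ) ≤ 3)]
    field_simp
  have h3 : (J : ℝ) * 3 ^ η' ≤ (T : ℝ) ^ (η' / 2) := hN2 T (by omega)
  calc (J : ℝ) * (U * (Z : ℝ) ^ (-η')) ≤ J * (U * (3 ^ η' * (T : ℝ) ^ (-η'))) := by
        rw [← h2]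
        gcongr
    _ = U * ((J * 3 ^ η') * (T : ℝ) ^ (-η')) := by ring
    _ ≤ U * ((T : ℝ) ^ (η' / 2) * (T : ℝ) ^ (-η')) := by gcongr
    _ = U * (T : ℝ) ^ (-(η' / 2)) := by
        rw [← Real.rpow_add hTpos]; ring_nf

end Pool.Agent.HPG
end

-- from Lib.HPG.G1
section

/-!
# Project HPG, chunk G1 (M, only Mathlib): duality
-/

open Finset

namespace Pool.Agent.HPG

private theorem g1_cs {α : Type*} (S : Finset α) (v g : α → ℂ) :
    ‖∑ x ∈ S, v x * g x‖ ^ 2 ≤ (∑ x ∈ S, ‖v x‖ ^ 2) * ∑ x ∈ S, ‖g x‖ ^ 2 := by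
  have h1 : ‖∑ x ∈ S, v x * g x‖ ≤ ∑ x ∈ S, ‖v x‖ * ‖g x‖ := by
    refine (norm_sum_le _ _).trans (le_of_eq ?_)
    exact Finset.sum_congr rfl fun x _ => norm_mul _ _
  calc ‖∑ x ∈ S, v x * g x‖ ^ 2 ≤ (∑ x ∈ S, ‖v x‖ * ‖g x‖) ^ 2 := by
        gcongr
    _ ≤ (∑ x ∈ S, ‖v x‖ ^ 2) * ∑ x ∈ S, ‖g x‖ ^ 2 := Finset.sum_mul_sq_le_sq_mul_sq _ _ _

private theorem g1_swap {α β : Type*} (S : Finset α) (T : Finset β) (F : α → β → ℂ) (v : α → ℂ) (w : β → ℂ) :
    ∑ y ∈ T, w y * (∑ x ∈ S, v x * F x y) = ∑ x ∈ S, v x * ∑ y ∈ T, w y * F x y := by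
  simp_rw [Finset.mul_sum]
  rw [Finset.sum_comm]
  refine Finset.sum_congr rfl fun x _ => Finset.sum_congr rfl fun y _ => ?_
  ring

/-- **G1a.** An operator and its transpose have the same norm. Proof. `G y = ∑_{x ∈ S} v x * F x y`, `w y = conj (G y)`. Then
`A = ∑_y ‖G y‖² = ∑_y w y * G y = ∑_x v x * (∑_y w y * F x y)`, Cauchy-Schwarz: `A² ≤ (∑ ‖v‖²) (Λ ∑ ‖w‖²) = (∑ ‖v‖²) Λ A`. -/
theorem G1_dual {α β : Type*} (S : Finset α) (T : Finset β) (F : α → β → ℂ) (Λ : ℝ) (hΛ : 0 ≤ Λ)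
    (h : ∀ w : β → ℂ, ∑ x ∈ S, ‖∑ y ∈ T, w y * F x y‖ ^ 2 ≤ Λ * ∑ y ∈ T, ‖w y‖ ^ 2) (v : α → ℂ) :
    ∑ y ∈ T, ‖∑ x ∈ S, v x * F x y‖ ^ 2 ≤ Λ * ∑ x ∈ S, ‖v x‖ ^ 2 := by
  set G : β → ℂ := fun y => ∑ x ∈ S, v x * F x y with hG
  set A : ℝ := ∑ y ∈ T, ‖∑ x ∈ S, v x * F x y‖ ^ 2 with hA
  have hA0 : 0 ≤ A := Finset.sum_nonneg fun _ _ => by positivity
  set w : β → ℂ := fun y => (starRingEnd ℂ) (G y) with hw
  have hwA : ∑ y ∈ T, ‖w y‖ ^ 2 = A := by
    refine Finset.sum_congr rfl fun y _ => ?_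
    rw [hw]
    simp only [RCLike.norm_conj]
    rfl
  have hAc : (A : ℂ) = ∑ x ∈ S, v x * ∑ y ∈ T, w y * F x y := by
    rw [← g1_swap, hA, Complex.ofReal_sum]
    refine Finset.sum_congr rfl fun y _ => ?_
    rw [Complex.ofReal_pow, ← Complex.conj_mul']
  have h1 := g1_cs S v (fun x => ∑ y ∈ T, w y * F x y)
  rw [← hAc, Complex.norm_real, Real.norm_eq_abs, sq_abs] at h1
  have h2 := h w
  rw [hwA] at h2
  have hV : 0 ≤ ∑ x ∈ S, ‖v x‖ ^ 2 := Finset.sum_nonneg fun _ _ => by positivity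
  have h3 : A ^ 2 ≤ (Λ * ∑ x ∈ S, ‖v x‖ ^ 2) * A := by
    calc A ^ 2 ≤ (∑ x ∈ S, ‖v x‖ ^ 2) * ∑ x ∈ S, ‖∑ y ∈ T, w y * F x y‖ ^ 2 := h1
      _ ≤ (∑ x ∈ S, ‖v x‖ ^ 2) * (Λ * A) := mul_le_mul_of_nonneg_left h2 hV
      _ = (Λ * ∑ x ∈ S, ‖v x‖ ^ 2) * A := by ring
  rcases hA0.eq_or_lt with h0 | h0
  · rw [← h0]
    exact mul_nonneg hΛ hV
  · rw [sq] at h3
    exact le_of_mul_le_mul_right h3 h0

/-- **G1b.** The same for bounded weights. Proof. `G` as before, `w y = conj (G y) / B` for `y ∈ T` (else `0`), bounded by `1`: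
`∑_y ‖G y‖² = B ∑_x v x * (∑_y w y * F x y) ≤ B (∑_{x ∈ S} ‖v x‖²)^(1/2) Λ^(1/2)`. -/
theorem G1_bil {α β : Type*} (S : Finset α) (T : Finset β) (F : α → β → ℂ) (B Λ : ℝ) (hB : 0 < B)
    (h : ∀ w : β → ℂ, (∀ y, ‖w y‖ ≤ 1) → ∑ x ∈ S, ‖∑ y ∈ T, w y * F x y‖ ^ 2 ≤ Λ) (v : α → ℂ)
    (hv : ∀ x, ‖v x‖ ≤ 1) (hF : ∀ y ∈ T, ‖∑ x ∈ S, v x * F x y‖ ≤ B) :
    ∑ y ∈ T, ‖∑ x ∈ S, v x * F x y‖ ^ 2 ≤ B * Real.sqrt (S.card * Λ) := by
  classical
  set A : ℝ := ∑ y ∈ T, ‖∑ x ∈ S, v x * F x y‖ ^ 2 with hA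
  have hA0 : 0 ≤ A := Finset.sum_nonneg fun _ _ => by positivity
  set w : β → ℂ := fun y => if y ∈ T then (starRingEnd ℂ) (∑ x ∈ S, v x * F x y) / (B : ℂ) else 0 with hw
  have hw1 : ∀ y, ‖w y‖ ≤ 1 := by
    intro y
    rw [hw]
    by_cases hy : y ∈ T
    · simp only [hy, if_true]
      rw [norm_div, RCLike.norm_conj, Complex.norm_real, Real.norm_eq_abs, abs_of_pos hB, div_le_one hB]
      exact hF y hy
    · simp only [hy, if_false, norm_zero]
      exact zero_le_one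
  have hBc : (B : ℂ) ≠ 0 := by exact_mod_cast hB.ne'
  have hAc : ((A / B : ℝ) : ℂ) = ∑ x ∈ S, v x * ∑ y ∈ T, w y * F x y := by
    rw [← g1_swap, hA, Complex.ofReal_div, Complex.ofReal_sum, Finset.sum_div]
    refine Finset.sum_congr rfl fun y hy => ?_
    rw [hw]
    simp only [hy, if_true]
    rw [Complex.ofReal_pow, ← Complex.conj_mul']
    field_simp
  have h1 := g1_cs S v (fun x => ∑ y ∈ T, w y * F x y)
  rw [← hAc, Complex.norm_real, Real.norm_eq_abs, sq_abs] at h1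
  have h2 := h w hw1
  have hΛ : 0 ≤ Λ := le_trans (Finset.sum_nonneg fun _ _ => by positivity) h2
  have hV : ∑ x ∈ S, ‖v x‖ ^ 2 ≤ S.card := by
    calc ∑ x ∈ S, ‖v x‖ ^ 2 ≤ ∑ _x ∈ S, (1 : ℝ) := by
          refine Finset.sum_le_sum fun x _ => ?_
          exact pow_le_one₀ (norm_nonneg _) (hv x)
      _ = S.card := by simp
  have h3 : (A / B) ^ 2 ≤ S.card * Λ := by
    refine h1.trans ?_
    exact mul_le_mul hV h2 (Finset.sum_nonneg fun _ _ => by positivity) (by positivity)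
  have h4 : A / B ≤ Real.sqrt (S.card * Λ) := Real.le_sqrt_of_sq_le h3
  rw [div_le_iff₀ hB] at h4
  linarith

end Pool.Agent.HPG
end

-- from Lib.HPG.G2
section

/-!
# Project HPG, chunk G2 (M): the large sieve by duality
-/

open Finset Polynomial

namespace Pool.Agent.HPG

open Pool.Agent.Lib.H68T Pool.Agent.Lib.H18Q Pool.Agent.Lib.H59P Pool.Agent.Lib.H24P
open Pool.Agent.HUP

private theorem g2_mem {a H : ℕ} {x : Fin 1 → ℤ} (hx : x ∈ tb (fun _ : Fin 1 => (a : ℤ)) (fun _ => H)) :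
    (a : ℤ) ≤ x 0 ∧ x 0 < a + H := by
  have h : x 0 ∈ Ico (a : ℤ) ((a : ℤ) + (H : ℕ)) := Fintype.mem_piFinset.1 hx 0
  exact mem_Ico.1 h

private theorem g2_sum {M : Type*} [AddCommMonoid M] (a H : ℕ) (G : (Fin 1 → ℤ) → M) :
    ∑ x ∈ tb (fun _ : Fin 1 => (a : ℤ)) (fun _ => H), G x = ∑ n ∈ Ico a (a + H), G fun _ => (n : ℤ) := by
  refine Finset.sum_nbij' (fun x => (x 0).toNat) (fun n _ => (n : ℤ)) ?_ ?_ ?_ ?_ ?_
  · intro x hx
    have h := g2_mem hx
    rw [mem_Ico]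
    omega
  · intro n hn
    rw [mem_Ico] at hn
    refine Fintype.mem_piFinset.2 fun _ => ?_
    show (n : ℤ) ∈ Ico (a : ℤ) ((a : ℤ) + (H : ℕ))
    rw [mem_Ico]
    omega
  · intro x hx
    have h := g2_mem hx
    funext j
    have e : j = 0 := Subsingleton.elim _ _
    subst e
    show (((x 0).toNat : ℕ) : ℤ) = x 0
    omega
  · intro n _
    exact Int.toNat_natCast n
  · intro x hx
    have h := g2_mem hx
    show G x = G fun _ => (((x 0).toNat : ℕ) : ℤ)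
    congr 1
    funext j
    have e : j = 0 := Subsingleton.elim _ _
    subst e
    omega

private theorem g2_lf {k : ℕ} (f : Fin k → ℤ) (x : Fin 1 → ℤ) (i : Fin k) : lf (fun i (_ : Fin 1) => f i) x i = f i * x 0 := by
  unfold lf
  rw [Fin.sum_univ_one]

/-- The data of HPC with one parameter. -/
theorem G2_dat {k : ℕ} {D : ℕ} {f a : Fin k → ℤ} (hG : GD D f a) :
    Dat (fun i (_ : Fin 1) => f i) (fun _ => D) (fun _ => D) a := by
  refine ⟨fun _ => hG.D1, hG.a0, fun i => ⟨0, ?_⟩, ?_, fun _ => hG.D1, fun _ _ _ => rfl⟩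
  · have := hG.f1 i
    show f i ≠ 0
    omega
  · intro i i' hii _ x x' h1 h2
    have h3 : x * f i = x' * f i' := h2 0
    have h4 : x * (f i * a i' - f i' * a i) = 0 := by
      have h5 : x * a i * f i' = x' * a i' * f i' := by rw [h1]
      have h6 : x * f i * a i' = x' * f i' * a i' := by rw [h3]
      linarith
    have hx : x = 0 := by
      rcases mul_eq_zero.1 h4 with h | h
      · exact h
      · exact absurd (sub_eq_zero.1 h) (hG.ind i i' hii)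
    refine ⟨hx, ?_⟩
    rw [hx, zero_mul] at h1
    rcases mul_eq_zero.1 h1.symm with h | h
    · exact h
    · exact absurd h (hG.a0 i')

/-- **G2.** Proof. `E, Cc, cc` of `FGTU`. Let `R, Qm, t0, s` be given, and `Q ≤ Qm, p, T, D', a', H, w` as in `FGood` (so `Q^E ≤ H`,
`Q^E ≤ Qm^E ≤ s`). Apply `FGTU` with the polynomials `R` (`HD D a R`), `Qm := Q`, the box `tb (fun _ => a') (fun _ => H)` in `Fin 1 → ℤ`
(identify it with `Ico a' (a' + H)` in `ℕ`: `n ↦ fun _ => (n : ℤ)`), `β = 0` (`hh c 0 (fun _ => n) i = (f i * n).toNat`, `f i ≥ 1`), level `Q`, range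
`Ico t0 (t0 + s)`: for all `w'`: `∑_{n ∈ Ico a' (a'+H)} ‖∑_{t ∈ Ico t0 (t0+s)} w' t * F n t‖² ≤ Λ ∑_t ‖w' t‖²`,
`F n t = ∑_{κ ∈ T} ∏ gk (p i) (κ i) (R_i(t) + f_i n)`, `Λ = Cc (1 + log Q)^Cc * H * s * D'^(-cc)`. `G1_dual`; and
`R_i(t) + f_i n = (lX f i).eval n + gR R t i` since `R_i(t) ≥ 0`. -/
theorem G2_FGR {k : ℕ} (D : ℕ) (f a : Fin k → ℤ) (hG : GD D f a)
    (h : FGTU (fun i (_ : Fin 1) => f i) (fun _ => D) a) : FGR D f a := by
  obtain ⟨E, Cc, cc, hpar, HF⟩ := h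
  refine ⟨E, Cc, cc, hpar, ?_⟩
  intro R hR Qm t0 s hQm hQs hpos Q hQ1 hQQ p hp T hT D' hD' hlcm a' H hQH w
  have hQ2 : Q ^ E ≤ s := (Nat.pow_le_pow_left hQQ E).trans hQs
  have hfg := HF R hR Q (fun _ => (a' : ℤ)) (fun _ => H) (fun _ => 0) hQ1 (fun _ => hQH) (by
    intro x hx i
    have h1 := g2_mem hx
    rw [g2_lf, zero_add]
    have h2 := hG.f1 i
    have h3 : (0 : ℤ) ≤ x 0 := by omega
    positivity) Q hQ1 le_rfl p hp T hT D' hD' hlcm t0 s hQ2
  have hcard : (tb (fun _ : Fin 1 => (a' : ℤ)) (fun _ => H)).card = H := by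
    have h1 := g2_sum (M := ℕ) a' H fun _ => 1
    rw [Finset.sum_const, Finset.sum_const, Nat.card_Ico] at h1
    simpa using h1
  obtain ⟨F, hF⟩ : ∃ F : (Fin 1 → ℤ) → ℕ → ℂ, F = fun x (t : ℕ) => ∑ κ ∈ T, ∏ i, gk (p i) (κ i)
      ((R i).eval (t : ℤ) + hh (fun i (_ : Fin 1) => f i) (fun _ => 0) x i) := ⟨_, rfl⟩
  have hl : 0 ≤ Real.log Q := Real.log_natCast_nonneg Q
  have hCc : 0 ≤ Cc := by linarith [hpar.one]
  have hdual := G1_dual (tb (fun _ : Fin 1 => (a' : ℤ)) (fun _ => H)) (Ico t0 (t0 + s)) F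
    (Cc * (1 + Real.log Q) ^ Cc * H * s * (D' : ℝ) ^ (-cc)) (by positivity) (by
      intro w'
      have h1 := hfg w'
      rw [hcard] at h1
      rw [hF]
      refine h1.trans (le_of_eq ?_)
      ring) (fun x => w (x 0).toNat)
  rw [g2_sum a' H (fun x => ‖w (x 0).toNat‖ ^ 2)] at hdual
  have hrhs : ∑ n ∈ Ico a' (a' + H), ‖w ((fun _ : Fin 1 => (n : ℤ)) 0).toNat‖ ^ 2 = ∑ n ∈ Ico a' (a' + H), ‖w n‖ ^ 2 :=
    Finset.sum_congr rfl fun n _ => by
      show ‖w ((n : ℤ)).toNat‖ ^ 2 = ‖w n‖ ^ 2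
      rw [Int.toNat_natCast]
  rw [hrhs] at hdual
  have hlhs : ∑ t ∈ Ico t0 (t0 + s), ‖∑ n ∈ Ico a' (a' + H), w n *
        ∑ κ ∈ T, ∏ i, gk (p i) (κ i) ((lX f i).eval (n : ℤ) + gR R t i)‖ ^ 2 =
      ∑ y ∈ Ico t0 (t0 + s), ‖∑ x ∈ tb (fun _ : Fin 1 => (a' : ℤ)) (fun _ => H), w (x 0).toNat * F x y‖ ^ 2 := by
    refine Finset.sum_congr rfl fun t ht => ?_
    rw [g2_sum a' H (fun x => w (x 0).toNat * F x t)]
    congr 2
    refine Finset.sum_congr rfl fun n hn => ?_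
    have h1 : ((fun _ : Fin 1 => (n : ℤ)) 0).toNat = n := Int.toNat_natCast n
    rw [h1, hF]
    congr 1
    refine Finset.sum_congr rfl fun κ _ => Finset.prod_congr rfl fun i _ => ?_
    congr 1
    have h2 : ((gR R t i : ℕ) : ℤ) = (R i).eval (t : ℤ) := Int.toNat_of_nonneg (hpos t ht i)
    have h3 : ((hh (fun i (_ : Fin 1) => f i) (fun _ => 0) (fun _ => (n : ℤ)) i : ℕ) : ℤ) = f i * n := by
      unfold hh
      rw [g2_lf, zero_add]
      have h4 := hG.f1 i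
      exact Int.toNat_of_nonneg (by positivity)
    rw [h2, h3]
    unfold lX
    rw [Polynomial.eval_mul, Polynomial.eval_C, Polynomial.eval_X]
    ring
  rw [hlhs]
  refine hdual.trans (le_of_eq ?_)
  rw [Nat.card_Ico, Nat.add_sub_cancel_left]
  ring

end Pool.Agent.HPG
end

-- from Lib.HPG.G3
section

/-!
# Project HPG, chunk G3 (M): the second moment by duality
-/

open Finset Polynomial

namespace Pool.Agent.HPG

open Pool.Agent.Lib.H68T Pool.Agent.Lib.H18Q Pool.Agent.Lib.H59P Pool.Agent.Lib.H24P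
open Pool.Agent.HUP
open Pool.Agent.HUK (GG)

/-- Translation of the variable keeps degree and leading coefficient. -/
theorem G3_shift {k : ℕ} {D : ℕ} {a : Fin k → ℤ} {R : Fin k → ℤ[X]} (hR : HD D a R) (t0 : ℤ) :
    HD D a (fun i => (R i).comp (X + C t0)) := by
  intro i
  obtain ⟨h1, h2⟩ := hR i
  refine ⟨?_, ?_⟩
  · show ((R i).comp (X + C t0)).natDegree = D
    rw [natDegree_comp, natDegree_X_add_C, mul_one]
    exact h1
  · show ((R i).comp (X + C t0)).leadingCoeff = a i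
    rw [leadingCoeff_comp (by rw [natDegree_X_add_C]; exact one_ne_zero), leadingCoeff_X_add_C, one_pow, mul_one]
    exact h2

/-- **G3.** Proof. `i0, C0` given: `FMT i0 C0` gives `s`, for `κ` it gives `δ0, X0`. Put `δ = δ0 / 4`. For `R, β, n1, σ, t0, N, w, F`: by
`G3_shift` replace `R` by `R' i = (R i).comp (X + C t0)` and `Ico t0 (t0 + N)` by `Ico 0 (0 + N)`. `FMT` with `P = R'`, the box
`tb (fun _ => n1) (fun _ => σ)` in `Fin 1 → ℤ` (identified with `Ico n1 (n1 + σ)` in `ℕ`), the function `F`, arbitrary `w' : ℕ → ℂ` bounded by `1`: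
`∑_{n ∈ Ico n1 (n1+σ)} ‖∑_{t < N} w' t * ∏ F i (R'_i(t) + (β_i + f_i n))‖² ≤ X^(2 + D - δ0)`. `G1_bil` with `B = C0 X^D` (`‖∑_n …‖ ≤ σ`; if
`C0 = 0` everything is `0`), `S = Ico n1 (n1+σ)`: the sum over `t` is at most `C0 X^D (C0 X^D X^(2+D-δ0))^(1/2) ≤ C0² X^(2D + 1 - δ0/2)`, at most
`X^(1 + 2D - δ)` for `X` large. -/
theorem G3_SMR {k : ℕ} (D : ℕ) (f a : Fin k → ℤ) (hG : GD D f a)
    (h : FMT (fun i (_ : Fin 1) => f i) (fun _ => D) (fun _ => D) a) : SMR D f a := by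
  intro i0 C0
  obtain ⟨s, hs, h1⟩ := h i0 C0
  refine ⟨s, hs, fun κ hκ => ?_⟩
  obtain ⟨δ0, hδ0, X0, h2⟩ := h1 κ hκ
  have hev : ∀ᶠ X : ℕ in Filter.atTop, ((C0 : ℝ)) ^ 3 ≤ (X : ℝ) ^ (δ0 / 2) :=
    ((tendsto_rpow_atTop (by positivity : 0 < δ0 / 2)).comp tendsto_natCast_atTop_atTop).eventually_ge_atTop _
  obtain ⟨X1, hX1⟩ := Filter.eventually_atTop.mp hev
  refine ⟨δ0 / 4, by positivity, max (max X0 X1) 1, ?_⟩
  intro X hX R hR β n1 σ hσ t0 N hN w hw F hF hsupp hGG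
  have hXa : X0 ≤ X := le_trans (le_trans (le_max_left _ _) (le_max_left _ _)) hX
  have hXb : X1 ≤ X := le_trans (le_trans (le_max_right _ _) (le_max_left _ _)) hX
  have hXc : 1 ≤ X := le_trans (le_max_right _ _) hX
  have hx1 : (1 : ℝ) ≤ (X : ℝ) := by exact_mod_cast hXc
  have hx0 : (0 : ℝ) < (X : ℝ) := by linarith
  have hbig := hX1 X hXb
  rcases Nat.eq_zero_or_pos C0 with hC | hC
  · have hN0 : N = 0 := by
      rw [hC, zero_mul] at hN
      omega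
    rw [hN0, add_zero, Ico_self, sum_empty]
    positivity
  · have hC1 : (1 : ℝ) ≤ (C0 : ℝ) := by exact_mod_cast hC
    have hσr : (σ : ℝ) ≤ (C0 : ℝ) * (X : ℝ) ^ D := by exact_mod_cast hσ
    have hBpos : (0 : ℝ) < (C0 : ℝ) * (X : ℝ) ^ D := by positivity
    have hsum : ∑ t ∈ Ico t0 (t0 + N), ‖∑ n ∈ Ico n1 (n1 + σ), w n *
        ∏ i, F i (f i * (n : ℤ) + ((R i).eval (t : ℤ) + β i))‖ ^ 2 =
        ∑ y ∈ Ico 0 (0 + N), ‖∑ x ∈ Ico n1 (n1 + σ), w x *
          ∏ i, F i ((((R i).comp (Polynomial.X + C (t0 : ℤ))).eval (y : ℤ)) + (β i + f i * (x : ℤ)))‖ ^ 2 := by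
      rw [sum_Ico_eq_sum_range, sum_Ico_eq_sum_range]
      have e1 : t0 + N - t0 = 0 + N - 0 := by omega
      rw [e1]
      refine sum_congr rfl fun y _ => ?_
      congr 2
      refine sum_congr rfl fun x _ => ?_
      congr 1
      refine prod_congr rfl fun i _ => ?_
      congr 1
      rw [eval_comp, eval_add, eval_X, eval_C]
      have e2 : ((0 + y : ℕ) : ℤ) + (t0 : ℤ) = ((t0 + y : ℕ) : ℤ) := by push_cast; ring
      rw [e2]
      ring
    rw [hsum]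
    have hbil := G1_bil (Ico n1 (n1 + σ)) (Ico 0 (0 + N))
      (fun (x y : ℕ) => ∏ i, F i ((((R i).comp (Polynomial.X + C (t0 : ℤ))).eval (y : ℤ)) + (β i + f i * (x : ℤ))))
      ((C0 : ℝ) * (X : ℝ) ^ D) ((X : ℝ) ^ (2 + (D : ℝ) - δ0)) hBpos ?_ w hw ?_
    · refine hbil.trans ?_
      have hcard : ((Ico n1 (n1 + σ)).card : ℝ) = σ := by
        rw [Nat.card_Ico]
        simp
      rw [hcard]
      have hY : ((C0 : ℝ) * (X : ℝ) ^ D) * Real.sqrt (σ * (X : ℝ) ^ (2 + (D : ℝ) - δ0)) =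
          Real.sqrt (((C0 : ℝ) * (X : ℝ) ^ D) ^ 2 * (σ * (X : ℝ) ^ (2 + (D : ℝ) - δ0))) := by
        symm
        rw [Real.sqrt_mul (by positivity : (0 : ℝ) ≤ ((C0 : ℝ) * (X : ℝ) ^ D) ^ 2), Real.sqrt_sq hBpos.le]
      rw [hY]
      have hZ : (X : ℝ) ^ (1 + 2 * (D : ℝ) - δ0 / 4) = Real.sqrt (((X : ℝ) ^ (1 + 2 * (D : ℝ) - δ0 / 4)) ^ 2) :=
        (Real.sqrt_sq (by positivity)).symm
      rw [hZ]
      apply Real.sqrt_le_sqrt
      have e3 : ((X : ℝ) ^ (1 + 2 * (D : ℝ) - δ0 / 4)) ^ 2 =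
          (X : ℝ) ^ (δ0 / 2) * ((X : ℝ) ^ D * (X : ℝ) ^ D * (X : ℝ) ^ D * (X : ℝ) ^ (2 + (D : ℝ) - δ0)) := by
        have hD' : (X : ℝ) ^ D = (X : ℝ) ^ (D : ℝ) := (Real.rpow_natCast _ _).symm
        rw [hD', ← Real.rpow_natCast ((X : ℝ) ^ (1 + 2 * (D : ℝ) - δ0 / 4)) 2, ← Real.rpow_mul hx0.le,
          ← Real.rpow_add hx0, ← Real.rpow_add hx0, ← Real.rpow_add hx0, ← Real.rpow_add hx0]
        congr 1
        push_cast
        ring
      rw [e3]
      have hΛ : (0 : ℝ) ≤ (X : ℝ) ^ (2 + (D : ℝ) - δ0) := by positivity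
      have hXD : (0 : ℝ) ≤ (X : ℝ) ^ D := by positivity
      calc ((C0 : ℝ) * (X : ℝ) ^ D) ^ 2 * (σ * (X : ℝ) ^ (2 + (D : ℝ) - δ0))
          ≤ ((C0 : ℝ) * (X : ℝ) ^ D) ^ 2 * (((C0 : ℝ) * (X : ℝ) ^ D) * (X : ℝ) ^ (2 + (D : ℝ) - δ0)) := by
            refine mul_le_mul_of_nonneg_left ?_ (by positivity)
            exact mul_le_mul_of_nonneg_right hσr hΛ
        _ = (C0 : ℝ) ^ 3 * ((X : ℝ) ^ D * (X : ℝ) ^ D * (X : ℝ) ^ D * (X : ℝ) ^ (2 + (D : ℝ) - δ0)) := by ring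
        _ ≤ (X : ℝ) ^ (δ0 / 2) * ((X : ℝ) ^ D * (X : ℝ) ^ D * (X : ℝ) ^ D * (X : ℝ) ^ (2 + (D : ℝ) - δ0)) :=
            mul_le_mul_of_nonneg_right hbig (by positivity)
    · intro w' hw'
      have h3 := h2 X hXa (fun i => (R i).comp (Polynomial.X + C (t0 : ℤ))) (G3_shift hR t0) β
        (fun _ => (n1 : ℤ)) (fun _ => σ) (fun _ => hσ) 0 N (by rw [zero_add]; exact hN) w' hw' F hF hsupp hGG
      have e4 : (∑ _j : Fin 1, (D : ℝ)) = D := by simp
      rw [e4] at h3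
      refine le_trans (le_of_eq ?_) h3
      refine Finset.sum_nbij' (fun x : ℕ => (fun _ : Fin 1 => (x : ℤ))) (fun t => (t 0).toNat) ?_ ?_ ?_ ?_ ?_
      · intro x hx
        rw [mem_Ico] at hx
        unfold tb
        rw [Fintype.mem_piFinset]
        intro j
        rw [mem_Ico]
        beta_reduce
        constructor
        · exact_mod_cast hx.1
        · exact_mod_cast hx.2
      · intro t ht
        unfold tb at ht
        rw [Fintype.mem_piFinset] at ht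
        have h4 := ht 0
        rw [mem_Ico] at h4
        beta_reduce at h4
        rw [mem_Ico]
        omega
      · intro x _
        exact Int.toNat_natCast x
      · intro t ht
        unfold tb at ht
        rw [Fintype.mem_piFinset] at ht
        have h4 := ht 0
        rw [mem_Ico] at h4
        beta_reduce at h4
        funext j
        have hj : j = 0 := Subsingleton.elim _ _
        rw [hj]
        show (((t 0).toNat : ℕ) : ℤ) = t 0
        omega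
      · intro x _
        congr 2
        refine sum_congr rfl fun y _ => ?_
        congr 1
        refine prod_congr rfl fun i _ => ?_
        congr 2
        unfold lf
        simp
    · intro y _
      refine (norm_sum_le _ _).trans ?_
      have h5 : ∀ x ∈ Ico n1 (n1 + σ), ‖w x * ∏ i, F i ((((R i).comp (Polynomial.X + C (t0 : ℤ))).eval (y : ℤ)) +
          (β i + f i * (x : ℤ)))‖ ≤ 1 := by
        intro x _
        rw [norm_mul, norm_prod]
        have h6 : ∏ i, ‖F i ((((R i).comp (Polynomial.X + C (t0 : ℤ))).eval (y : ℤ)) + (β i + f i * (x : ℤ)))‖ ≤ 1 :=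
          prod_le_one (fun i _ => norm_nonneg _) (fun i _ => hF i _)
        calc ‖w x‖ * _ ≤ 1 * 1 := mul_le_mul (hw x) h6 (prod_nonneg fun i _ => norm_nonneg _) zero_le_one
          _ = 1 := one_mul 1
      refine (sum_le_sum h5).trans ?_
      rw [sum_const, Nat.card_Ico, nsmul_eq_mul, mul_one]
      have e5 : n1 + σ - n1 = σ := by omega
      rw [e5]
      exact hσr

end Pool.Agent.HPG
end

-- from Lib.HPG.G6
section

/-!
# Project HPG, chunk G6 (M, only Mathlib): a polynomial is small at few integers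
-/

open Finset Polynomial

namespace Pool.Agent.HPG

theorem g6_gap {S : Finset ℕ} {n : ℕ} (h : S.card = n) (i j : Fin n) (hij : i ≤ j) :
    S.orderEmbOfFin h i + ((j : ℕ) - i) ≤ S.orderEmbOfFin h j := by
  obtain ⟨k, hk⟩ := Nat.exists_eq_add_of_le (show (i : ℕ) ≤ j from hij)
  induction k generalizing j with
  | zero =>
    have : j = i := Fin.ext (by omega)
    subst this
    simp
  | succ k ih =>
    have hj' : (j : ℕ) - 1 < n := by omega
    have h1 := ih ⟨(j : ℕ) - 1, hj'⟩ (by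
      show (i : ℕ) ≤ (j : ℕ) - 1
      omega) (by
      show (j : ℕ) - 1 = i + k
      omega)
    have h2 : S.orderEmbOfFin h ⟨(j : ℕ) - 1, hj'⟩ < S.orderEmbOfFin h j := by
      apply (S.orderEmbOfFin h).strictMono
      show (j : ℕ) - 1 < j
      omega
    have h3 : ((⟨(j : ℕ) - 1, hj'⟩ : Fin n) : ℕ) = (j : ℕ) - 1 := rfl
    rw [h3] at h1
    omega

/-- **G6.** Proof. Let `n = S.card`. If `n ≤ 2 D` then `n^D ≤ (2D)^D`. Otherwise `m = (n - 1) / D ≥ 1`; order `S` (`Finset.orderEmbOfFin`) and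
take the elements `t_i` number `i m`, `i = 0..D`: `|t_i - t_j| ≥ m |i - j| ≥ m` for `i ≠ j`. `Lagrange.leadingCoeff_eq_sum` over `ℚ` (or `ℝ`) for `R` mapped:
`lc = ∑_i R(t_i) / ∏_{j ≠ i} (t_i - t_j)`, so `1 ≤ |lc| ≤ (D+1) W / m^D`, `m^D ≤ (D+1) W`, and `n ≤ D (m + 1) ≤ 2 D m`:
`n^D ≤ (2D)^D (D+1) W`. So `C = (2D)^D (D+1)`. -/
theorem G6_sub (D : ℕ) (hD : 1 ≤ D) : ∃ C : ℕ, 1 ≤ C ∧ ∀ R : ℤ[X], R.natDegree = D → ∀ (W : ℕ) (S : Finset ℕ),
    1 ≤ W → (∀ t ∈ S, |R.eval (t : ℤ)| ≤ W) → S.card ^ D ≤ C * W := by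
  refine ⟨(2 * D) ^ D * (D + 1), Nat.mul_pos (pow_pos (by omega) _) (by omega), fun R hR W S hW hS => ?_⟩
  rcases le_or_gt S.card (2 * D) with hn | hn
  · calc S.card ^ D ≤ (2 * D) ^ D := Nat.pow_le_pow_left hn _
      _ ≤ (2 * D) ^ D * ((D + 1) * W) := Nat.le_mul_of_pos_right _ (Nat.mul_pos (by omega) hW)
      _ = _ := by ring
  · set n := S.card with hnn
    set m := (n - 1) / D with hm
    have hmD : D * m ≤ n - 1 := Nat.mul_div_le _ _
    have hm2 : 2 ≤ m := (Nat.le_div_iff_mul_le (by omega)).2 (by omega)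
    have hn2 : n ≤ D * (m + 1) := by
      have h1 : n - 1 < D * (m + 1) := Nat.lt_mul_div_succ (n - 1) (show 0 < D by omega)
      omega
    have hlt : ∀ i ∈ range (D + 1), i * m < n := by
      intro i hi
      rw [mem_range] at hi
      have : i * m ≤ D * m := Nat.mul_le_mul_right _ (by omega)
      omega
    -- the points
    let t : ℕ → ℕ := fun i => if h : i * m < n then S.orderEmbOfFin rfl ⟨i * m, h⟩ else 0
    have htS : ∀ i ∈ range (D + 1), t i ∈ S := by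
      intro i hi
      simp only [t, dif_pos (hlt i hi)]
      exact S.orderEmbOfFin_mem rfl _
    have hgap : ∀ i ∈ range (D + 1), ∀ j ∈ range (D + 1), i < j → t i + m ≤ t j := by
      intro i hi j hj hij
      simp only [t, dif_pos (hlt i hi), dif_pos (hlt j hj)]
      have h1 : i * m + m ≤ j * m := by
        have : (i + 1) * m ≤ j * m := Nat.mul_le_mul_right _ hij
        linarith
      have h2 := g6_gap (S := S) (n := n) rfl ⟨i * m, hlt i hi⟩ ⟨j * m, hlt j hj⟩ (by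
        show i * m ≤ j * m
        omega)
      have h3 : m ≤ j * m - i * m := by omega
      exact le_trans (Nat.add_le_add_left h3 _) h2
    have habs : ∀ i ∈ range (D + 1), ∀ j ∈ range (D + 1), i ≠ j → (m : ℚ) ≤ |(t i : ℚ) - t j| := by
      intro i hi j hj hij
      rcases lt_or_gt_of_ne hij with h | h
      · have h1 := hgap i hi j hj h
        have h2 : (t i : ℚ) + m ≤ t j := by exact_mod_cast h1
        rw [abs_sub_comm]
        exact le_trans (by linarith) (le_abs_self _)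
      · have h1 := hgap j hj i hi h
        have h2 : (t j : ℚ) + m ≤ t i := by exact_mod_cast h1
        exact le_trans (by linarith) (le_abs_self _)
    have hmpos : (0 : ℚ) < m := by exact_mod_cast (by omega : 0 < m)
    have hinj : Set.InjOn (fun i : ℕ => (t i : ℚ)) (range (D + 1) : Finset ℕ) := by
      intro i hi j hj hij
      by_contra hne
      have h1 := habs i hi j hj hne
      have h2 : (t i : ℚ) - t j = 0 := sub_eq_zero.2 hij
      rw [h2, abs_zero] at h1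
      linarith
    have hR0 : R ≠ 0 := by
      rintro rfl
      simp at hR
      omega
    let P : ℚ[X] := R.map (Int.castRingHom ℚ)
    have hinjc : Function.Injective (Int.castRingHom ℚ) := RingHom.injective_int _
    have hPdeg : ((range (D + 1)).card : WithBot ℕ) = P.degree + 1 := by
      rw [card_range, Polynomial.degree_map_eq_of_injective hinjc, Polynomial.degree_eq_natDegree hR0, hR]
      norm_num
    have hlc := Lagrange.leadingCoeff_eq_sum hinj hPdeg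
    have hlc1 : P.leadingCoeff = (R.leadingCoeff : ℚ) := by
      rw [Polynomial.leadingCoeff_map_of_injective hinjc]
      rfl
    have hlc2 : (1 : ℚ) ≤ |P.leadingCoeff| := by
      rw [hlc1]
      have h1 : R.leadingCoeff ≠ 0 := Polynomial.leadingCoeff_ne_zero.2 hR0
      have h2 : 1 ≤ |R.leadingCoeff| := Int.one_le_abs h1
      exact_mod_cast h2
    have hbound : |P.leadingCoeff| ≤ (D + 1) * (W / (m : ℚ) ^ D) := by
      rw [hlc]
      refine (Finset.abs_sum_le_sum_abs _ _).trans ?_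
      have : ∀ i ∈ range (D + 1), |P.eval (t i : ℚ) / ∏ j ∈ (range (D + 1)).erase i, ((t i : ℚ) - t j)| ≤
          (W : ℚ) / (m : ℚ) ^ D := by
        intro i hi
        rw [abs_div]
        have h1 : |P.eval (t i : ℚ)| ≤ W := by
          have h2 : P.eval (t i : ℚ) = ((R.eval (t i : ℤ) : ℤ) : ℚ) := by
            show (R.map (Int.castRingHom ℚ)).eval (t i : ℚ) = _
            rw [Polynomial.eval_map]
            have h3 := Polynomial.eval₂_at_apply (Int.castRingHom ℚ) (p := R) (t i : ℤ)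
            simp only [eq_intCast, Int.cast_natCast] at h3
            exact h3
          rw [h2]
          exact_mod_cast hS _ (htS i hi)
        have h4 : (m : ℚ) ^ D ≤ |∏ j ∈ (range (D + 1)).erase i, ((t i : ℚ) - t j)| := by
          rw [Finset.abs_prod]
          have h5 : ((range (D + 1)).erase i).card = D := by
            rw [card_erase_of_mem hi, card_range]
            rfl
          calc (m : ℚ) ^ D = ∏ _j ∈ (range (D + 1)).erase i, (m : ℚ) := by rw [Finset.prod_const, h5]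
            _ ≤ _ := ?_
          refine Finset.prod_le_prod (fun _ _ => hmpos.le) fun j hj => ?_
          rw [mem_erase] at hj
          exact habs i hi j hj.2 (Ne.symm hj.1)
        exact div_le_div₀ (Nat.cast_nonneg _) h1 (pow_pos hmpos _) h4
      refine (Finset.sum_le_sum this).trans ?_
      rw [Finset.sum_const, card_range, nsmul_eq_mul]
      push_cast
      exact le_refl _
    have hmW : m ^ D ≤ (D + 1) * W := by
      have h1 := hlc2.trans hbound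
      have h2 : (0 : ℚ) < (m : ℚ) ^ D := pow_pos hmpos _
      rw [← mul_div_assoc, le_div_iff₀ h2, one_mul] at h1
      exact_mod_cast h1
    have h7 : n ≤ 2 * D * m := by nlinarith
    calc n ^ D ≤ (2 * D * m) ^ D := Nat.pow_le_pow_left h7 _
      _ = (2 * D) ^ D * m ^ D := mul_pow _ _ _
      _ ≤ (2 * D) ^ D * ((D + 1) * W) := Nat.mul_le_mul_left _ hmW
      _ = _ := by ring

end Pool.Agent.HPG
end
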