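import Pool.Agent.Lib.H59M.M1.M058
import Pool.Agent.Lib.H59M.M1.M060
import Pool.Agent.Lib.H59M.M1.M063
import Pool.Agent.Lib.H59M.M1.M066
import Pool.Agent.Lib.H59M.M1.M070
import Pool.Agent.Lib.H59M.M1.M079
import Pool.Agent.Lib.H59M.M1.M086

/-! Merged copies (to shorten the build) of Lib.H9U.C3, Lib.H9U.Z3, Lib.H9U.T4, Lib.H9U.M4, Lib.H9U.Z1, Lib.H9U.U0B, Lib.H9U.U7, Lib.H9U.V1, Lib.H9U.Z2, Lib.H9U.Z4A, Lib.H9U.Z4B, Lib.H9U.Z4. -/

-- from Lib.H9U.C3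
section

/-!
# H9U, chunk C3 (M): the sum over the characters against the main term, and a lower bound for the main term
-/

open Finset

namespace Pool.Agent.H9U

open Pool.Agent.Lib.H68T (PC p0)
open Pool.Agent.Lib.H59P (Ch cj uu gl pr SF MX TS)

variable {k d : ℕ} (S : Sys k d) (b : Fin k → ℤ) (t : Fin d → ℤ)

/-- Proof. As `C3` (`H59P/C3.lean`): both sides are means over `n < Q!` of `∏_i uu (pr Q) (val i) ≥ 0` times the two sides of `c3_pt` at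
`m i = val i`. -/
theorem C3S (Q D1 : ℕ) (hQ : 1 ≤ Q) (η E0 : ℝ) (px : Ch) (hpx : px ∈ PC Q) (hreal : px.2 ^ 2 = 1)
    (hcond : px.1 ≤ D1) (hη : 0 < η) (hE0 : 0 ≤ E0) (hE : 4 * k * E0 ≤ 1) (th : Fin k → ℝ)
    (hth0 : ∀ i, 0 ≤ th i) (hth : ∀ i, th i ≤ 1 - η) (htriv : px = p0 → ∀ i, th i = 0)
    (e : Fin k → Ch → ℂ) (he : ∀ i, ∑ p ∈ PC Q, ‖e i p‖ ≤ η * E0) :
    ‖∑ p ∈ TS k Q D1 px, (∏ i, (MX px (fun _ => th i) 0 (p i) + e i (p i))) * MQS S b t Q p -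
      ((PMS S b t Q px th : ℝ) : ℂ)‖ ≤ 1 / 2 * PMS S b t Q px th := by
  have hQ0 : (0 : ℝ) < (Q.factorial : ℝ) := by exact_mod_cast Nat.factorial_pos Q
  have hU : ∀ n : ℤ, 0 ≤ ∏ i : Fin k, uu (pr Q) (S.val b n t i) := fun n =>
    Finset.prod_nonneg fun i _ => Pool.Agent.Lib.H59P.M3a_uu_nonneg _ (Pool.Agent.Lib.H59P.c3_pr Q) _
  have h1 : ∑ p ∈ TS k Q D1 px, (∏ i, (MX px (fun _ => th i) 0 (p i) + e i (p i))) * MQS S b t Q p =
      (∑ n ∈ range Q.factorial, ((∏ i : Fin k, uu (pr Q) (S.val b (n : ℤ) t i) : ℝ) : ℂ) *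
        ∑ p ∈ TS k Q D1 px, ∏ i, ((MX px (fun _ => th i) 0 (p i) + e i (p i)) * cj (p i) (S.val b (n : ℤ) t i))) /
        ((Q.factorial : ℝ) : ℂ) := by
    unfold MQS mn
    rw [Finset.sum_div]
    simp only [Finset.mul_sum, Finset.sum_div, mul_div_assoc']
    rw [Finset.sum_comm]
    refine Finset.sum_congr rfl fun n _ => ?_
    refine Finset.sum_congr rfl fun p _ => ?_
    unfold PhV
    rw [Finset.prod_mul_distrib, Finset.prod_mul_distrib, Complex.ofReal_prod]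
    push_cast
    ring
  have h2 : PMS S b t Q px th = (∑ n ∈ range Q.factorial, (∏ i : Fin k, uu (pr Q) (S.val b (n : ℤ) t i)) *
        ∏ i, (1 - th i * (cj px (S.val b (n : ℤ) t i)).re)) / (Q.factorial : ℝ) := by
    unfold PMS
    congr 1
    refine Finset.sum_congr rfl fun n _ => ?_
    rw [Finset.prod_mul_distrib]
  rw [h1, h2]
  rw [Complex.ofReal_div, ← sub_div, norm_div, Complex.norm_real, Real.norm_eq_abs, abs_of_pos hQ0, mul_div_assoc']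
  refine div_le_div_of_nonneg_right ?_ hQ0.le
  rw [Complex.ofReal_sum, ← Finset.sum_sub_distrib, Finset.mul_sum]
  refine (norm_sum_le _ _).trans (Finset.sum_le_sum fun n _ => ?_)
  rw [Complex.ofReal_mul, ← mul_sub, norm_mul, Complex.norm_real, Real.norm_eq_abs, abs_of_nonneg (hU n)]
  have hpt := Pool.Agent.Lib.H59P.c3_pt Q D1 hQ η E0 px hpx hreal hcond hη hE0 hE th hth0 hth htriv e he
    (fun i => S.val b (n : ℤ) t i)
  have := mul_le_mul_of_nonneg_left hpt (hU n)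
  refine this.trans (le_of_eq ?_)
  ring

/-- Proof. As `Y1` (`H59P/Y1.lean`): `1 - th_i ψ ≥ 1 - th_i ≥ η`, `uu ≥ 0`, `M5S_SS`. -/
theorem Y1S (Q : ℕ) (px : Ch) (hreal : px.2 ^ 2 = 1) (η : ℝ) (hη : 0 < η) (th : Fin k → ℝ) (h0 : ∀ i, 0 ≤ th i)
    (h1 : ∀ i, th i ≤ 1 - η) : η ^ k * SSS S b t (pr Q) ≤ PMS S b t Q px th := by
  have hpr : ∀ l ∈ pr Q, l.Prime := Pool.Agent.Lib.H59P.c3_pr Q
  have hQ0 : (0 : ℝ) < (Q.factorial : ℝ) := by exact_mod_cast Nat.factorial_pos Q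
  have hpt : ∀ n : ℕ, η ^ k * ∏ i, uu (pr Q) (S.val b (n : ℤ) t i) ≤
      ∏ i, (uu (pr Q) (S.val b (n : ℤ) t i) * (1 - th i * (cj px (S.val b (n : ℤ) t i)).re)) := by
    intro n
    have e1 : η ^ k * ∏ i, uu (pr Q) (S.val b (n : ℤ) t i) = ∏ i : Fin k, (uu (pr Q) (S.val b (n : ℤ) t i) * η) := by
      rw [Finset.prod_mul_distrib, Finset.prod_const, Finset.card_univ, Fintype.card_fin, mul_comm]
    rw [e1]
    refine Finset.prod_le_prod (fun i _ => mul_nonneg (Pool.Agent.Lib.H59P.M3a_uu_nonneg _ hpr _) hη.le) (fun i _ => ?_)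
    refine mul_le_mul_of_nonneg_left ?_ (Pool.Agent.Lib.H59P.M3a_uu_nonneg _ hpr _)
    have hc := (Pool.Agent.Lib.H59P.C3a px hreal (S.val b (n : ℤ) t i)).2
    have h2 := (abs_le.mp hc).2
    have h3 := mul_le_mul_of_nonneg_left h2 (h0 i)
    linarith [h1 i]
  rw [← M5S_SS S b t Q]
  unfold PMS
  rw [← mul_div_assoc]
  refine div_le_div_of_nonneg_right ?_ hQ0.le
  rw [Finset.mul_sum]
  exact Finset.sum_le_sum fun n _ => hpt n

end Pool.Agent.H9U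
end

-- from Lib.H9U.Z3
section

/-!
# H9U, chunk Z3 (M): lower bound for the main term of a cell
-/

open Finset

namespace Pool.Agent.H9U

open Pool.Agent.Lib.H68T (PC p0)
open Pool.Agent.Lib.H18Q (gk KS SG)
open Pool.Agent.Lib.H59P (Ch SF bx TS Rp MX pr)

/-- The modulus of a tuple in `TS`. -/
theorem z3_Rp {k : ℕ} (Q D1 : ℕ) (px : Ch) (hpx : px ∈ PC Q) (p : Fin k → Ch) (hp : p ∈ TS k Q D1 px) :
    0 < Rp px p ∧ Rp px p ≤ D1 ∧ (∀ i, (p i).1 ∣ Rp px p) ∧ Rp px p ∣ Q.factorial ∧ ∀ i, p i ∈ PC Q := by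
  unfold TS at hp
  rw [Finset.mem_filter, Fintype.mem_piFinset] at hp
  obtain ⟨hp1, hp2⟩ := hp
  refine ⟨?_, hp2, ?_, ?_, hp1⟩
  · have h1 : (univ.lcm fun i => (p i).1) ≠ 0 := by
      intro h0
      rw [Finset.lcm_eq_zero_iff] at h0
      obtain ⟨i, _, h2⟩ := h0
      have h3 : 0 < (p i).1 := (Pool.Agent.Lib.H68T.mem_PC.mp (hp1 i)).1
      exact h3.ne' h2
    unfold Rp
    exact Nat.lcm_pos (Pool.Agent.Lib.H68T.mem_PC.mp hpx).1 (Nat.pos_of_ne_zero h1)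
  · intro i
    unfold Rp
    exact (Finset.dvd_lcm (f := fun i => (p i).1) (Finset.mem_univ i)).trans (Nat.dvd_lcm_right _ _)
  · unfold Rp
    refine Nat.lcm_dvd (Nat.dvd_factorial (Pool.Agent.Lib.H68T.mem_PC.mp hpx).1
      (Pool.Agent.Lib.H68T.mem_PC.mp hpx).2.1) ?_
    refine Finset.lcm_dvd fun i _ => ?_
    exact Nat.dvd_factorial (Pool.Agent.Lib.H68T.mem_PC.mp (hp1 i)).1 (Pool.Agent.Lib.H68T.mem_PC.mp (hp1 i)).2.1

/-- The truncated and the complete main term of a cell. -/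
theorem z3_trunc {k d : ℕ} (S : Sys k d) (b : Fin k → ℤ) (t : Fin d → ℤ) (Q D D1 : ℕ)
    (hDQ : D ≤ Q) (hD1 : D1 ≤ D) (px : Ch) (hpx : px ∈ PC Q) (hcond : px.1 ≤ D1) (M : ℝ)
    (c : Fin k → Ch → ℂ) (hc : ∀ i, ∑ p ∈ PC Q, ‖c i p‖ ≤ M) (τ : ℝ)
    (hτ : ∀ R : ℕ, 1 ≤ R → R ≤ D1 →
      |∑ e ∈ SF (D / R) R, tdS S b t e - SSS S b t ((pr Q).filter (fun l : ℕ => ¬ l ∣ R))| ≤ τ) :
    ‖MCS S b t Q D D1 px c - ∑ p ∈ TS k Q D1 px, (∏ i, c i (p i)) * MQS S b t Q p‖ ≤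
      (2 * M * (1 + Real.log Q)) ^ k * τ := by
  classical
  have hpos : 0 < D1 := lt_of_lt_of_le (Pool.Agent.Lib.H68T.mem_PC.mp hpx).1 hcond
  have hτ0 : 0 ≤ τ := (abs_nonneg _).trans (hτ 1 le_rfl hpos)
  have hlog0 : 0 ≤ Real.log Q := Real.log_natCast_nonneg Q
  have hterm : ∀ p ∈ TS k Q D1 px,
      ‖(∏ i, c i (p i)) * (MRS S b t p (Rp px p) *
          ((∑ e ∈ SF (D / Rp px p) (Rp px p), tdS S b t e : ℝ) : ℂ)) -
        (∏ i, c i (p i)) * MQS S b t Q p‖ ≤ (∏ i, ‖c i (p i)‖) * ((2 * (1 + Real.log Q)) ^ k * τ) := by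
    intro p hp
    obtain ⟨hR0, hRle, hd, hfac, -⟩ := z3_Rp Q D1 px hpx p hp
    have hRQ : Rp px p ≤ Q := hRle.trans (hD1.trans hDQ)
    have hR0' : (0 : ℝ) < (Rp px p : ℝ) := by exact_mod_cast hR0
    have h1 : ‖MRS S b t p (Rp px p)‖ ≤ (2 * (1 + Real.log Q)) ^ k := by
      refine (M3S_bd S b t p (Rp px p) 1 hR0 squarefree_one (fun _ => 0)).2.2.2.trans ?_
      refine pow_le_pow_left₀ (by positivity) ?_ k
      refine (Pool.Agent.Lib.H59P.M3b (Rp px p) hR0).trans ?_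
      have hlog : Real.log (Rp px p : ℝ) ≤ Real.log Q := Real.log_le_log hR0' (by exact_mod_cast hRQ)
      linarith
    rw [← M5S S b t Q (Rp px p) hR0 hfac p hd, ← mul_sub, ← mul_sub, norm_mul, norm_mul, norm_prod,
      ← Complex.ofReal_sub, Complex.norm_real, Real.norm_eq_abs]
    have h2 := hτ (Rp px p) hR0 hRle
    have h3 : ‖MRS S b t p (Rp px p)‖ * |∑ e ∈ SF (D / Rp px p) (Rp px p), tdS S b t e -
        SSS S b t ((pr Q).filter (fun l => ¬ l ∣ Rp px p))| ≤ (2 * (1 + Real.log Q)) ^ k * τ :=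
      mul_le_mul h1 h2 (abs_nonneg _) (by positivity)
    exact mul_le_mul_of_nonneg_left h3 (Finset.prod_nonneg fun i _ => norm_nonneg _)
  have hsum : ∑ p ∈ TS k Q D1 px, ∏ i, ‖c i (p i)‖ ≤ M ^ k := by
    calc ∑ p ∈ TS k Q D1 px, ∏ i, ‖c i (p i)‖
        ≤ ∑ p ∈ Fintype.piFinset fun _ : Fin k => PC Q, ∏ i, ‖c i (p i)‖ := by
          refine Finset.sum_le_sum_of_subset_of_nonneg ?_ ?_
          · intro p hp
            unfold TS at hp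
            exact (Finset.mem_filter.mp hp).1
          · intro p _ _
            exact Finset.prod_nonneg fun i _ => norm_nonneg _
      _ = ∏ i, ∑ q ∈ PC Q, ‖c i q‖ := by
          rw [Finset.prod_univ_sum]
      _ ≤ ∏ _i : Fin k, M :=
          Finset.prod_le_prod (fun i _ => Finset.sum_nonneg fun _ _ => norm_nonneg _) fun i _ => hc i
      _ = M ^ k := by
          rw [Finset.prod_const, Finset.card_univ, Fintype.card_fin]
  unfold MCS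
  rw [← Finset.sum_sub_distrib]
  refine (norm_sum_le _ _).trans ?_
  refine (Finset.sum_le_sum hterm).trans ?_
  rw [← Finset.sum_mul]
  have h6 : (2 * M * (1 + Real.log Q)) ^ k * τ = M ^ k * ((2 * (1 + Real.log Q)) ^ k * τ) := by
    rw [← mul_assoc, ← mul_pow]
    ring
  rw [h6]
  exact mul_le_mul_of_nonneg_right hsum (by positivity)

/-- Proof. As `Z3a` and `Z3` (`H59P/Z3A.lean`, `Z3.lean`). For `p ∈ TS k Q D1 px`, `R = Rp px p` (`1 ≤ R ≤ D1`, all conductors divide `R`, so are `≤ D1`; `R ∣ Q!`):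
`‖MRS‖ ≤ (R/φ(R))^k ≤ (2(1+log Q))^k` (`M3S_bd`, `M3b`), and `MRS · SSS(primes ∤ R) = MQS` (`M5S`). So `MCS` is `∑_{p ∈ TS} ∏ c_i(p_i) MQS` up to
`(2 M (1+log Q))^k τ`. With `e i p = c i p - MX px (fun _ => th i) 0 p` if `p ∈ PC Q` and `p.1 ≤ D1`, and `0` else (this does not change the sum over `TS`), `C3S`: the real part of
that sum is at least `PMS/2`, and `PMS ≥ η^k SSS (pr Q) ≥ η^k exp(-4k)` (`Y1S`, `T1S_low`; `px.1 ≤ D1`). -/
theorem Z3S {k d : ℕ} (S : Sys k d) (b : Fin k → ℤ) (t : Fin d → ℤ) (hA : S.Adm b t) (Q D D1 : ℕ) (hQ : 1 ≤ Q)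
    (hDQ : D ≤ Q) (hD1 : D1 ≤ D) (px : Ch) (hpx : px ∈ PC Q) (hreal : px.2 ^ 2 = 1) (hcond : px.1 ≤ D1)
    (η E0 : ℝ) (hη : 0 < η) (hE0 : 0 ≤ E0) (hE : 4 * k * E0 ≤ 1) (th : Fin k → ℝ) (hth0 : ∀ i, 0 ≤ th i)
    (hth : ∀ i, th i ≤ 1 - η) (htriv : px = p0 → ∀ i, th i = 0) (M : ℝ) (hM : 1 ≤ M)
    (c : Fin k → Ch → ℂ) (hc : ∀ i, ∑ p ∈ PC Q, ‖c i p‖ ≤ M) (eb : Fin k → Ch → ℝ)
    (heb0 : ∀ i, ∀ p ∈ PC Q, 0 ≤ eb i p) (heb : ∀ i, ∑ p ∈ PC Q, eb i p ≤ η * E0)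
    (hce : ∀ i, ∀ p ∈ PC Q, p.1 ≤ D1 → ‖c i p - MX px (fun _ => th i) 0 p‖ ≤ eb i p) (τ : ℝ)
    (hτ : ∀ R : ℕ, 1 ≤ R → R ≤ D1 →
      |∑ e ∈ SF (D / R) R, tdS S b t e - SSS S b t ((pr Q).filter (fun l : ℕ => ¬ l ∣ R))| ≤ τ) :
    η ^ k * Real.exp (-(4 * k : ℝ)) / 2 - (2 * M * (1 + Real.log Q)) ^ k * τ ≤ (MCS S b t Q D D1 px c).re := by
  classical
  have z1 := z3_trunc S b t Q D D1 hDQ hD1 px hpx hcond M c hc τ hτ
  let e : Fin k → Ch → ℂ := fun i p => if p.1 ≤ D1 then c i p - MX px (fun _ => th i) 0 p else 0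
  have he : ∀ i, ∑ p ∈ PC Q, ‖e i p‖ ≤ η * E0 := by
    intro i
    refine (Finset.sum_le_sum fun p hp => ?_).trans (heb i)
    show ‖if p.1 ≤ D1 then c i p - MX px (fun _ => th i) 0 p else 0‖ ≤ eb i p
    split_ifs with h1
    · exact hce i p hp h1
    · rw [norm_zero]
      exact heb0 i p hp
  have z2 := C3S S b t Q D1 hQ η E0 px hpx hreal hcond hη hE0 hE th hth0 hth htriv e he
  have hS : ∑ p ∈ TS k Q D1 px, (∏ i, (MX px (fun _ => th i) 0 (p i) + e i (p i))) * MQS S b t Q p =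
      ∑ p ∈ TS k Q D1 px, (∏ i, c i (p i)) * MQS S b t Q p := by
    refine Finset.sum_congr rfl fun p hp => ?_
    obtain ⟨hR0, hRle, hd, -, -⟩ := z3_Rp Q D1 px hpx p hp
    congr 1
    refine Finset.prod_congr rfl fun i _ => ?_
    have h1 : (p i).1 ≤ D1 := (Nat.le_of_dvd hR0 (hd i)).trans hRle
    show MX px (fun _ => th i) 0 (p i) + (if (p i).1 ≤ D1 then c i (p i) - MX px (fun _ => th i) 0 (p i) else 0) = c i (p i)
    rw [if_pos h1]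
    ring
  rw [hS] at z2
  obtain ⟨T, hT⟩ : ∃ T, T = ∑ p ∈ TS k Q D1 px, (∏ i, c i (p i)) * MQS S b t Q p := ⟨_, rfl⟩
  obtain ⟨P, hP⟩ : ∃ P, P = PMS S b t Q px th := ⟨_, rfl⟩
  rw [← hT, ← hP] at z2
  rw [← hT] at z1
  have y2 : -(1 / 2 * P) ≤ (T - ((P : ℝ) : ℂ)).re := by
    have := (Complex.abs_re_le_norm (T - ((P : ℝ) : ℂ))).trans z2
    exact (abs_le.1 this).1
  rw [Complex.sub_re, Complex.ofReal_re] at y2
  have y1 := (abs_le.1 ((Complex.abs_re_le_norm _).trans z1)).1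
  rw [Complex.sub_re] at y1
  have y3 : η ^ k * Real.exp (-(4 * k : ℝ)) ≤ P := by
    rw [hP]
    refine le_trans ?_ (Y1S S b t Q px hreal η hη th hth0 hth)
    exact mul_le_mul_of_nonneg_left (T1S_low S b t hA (pr Q) (Pool.Agent.Lib.H59P.c3_pr Q)) (by positivity)
  linarith

end Pool.Agent.H9U
end

-- from Lib.H9U.T4
section

/-!
# H9U, chunk T4 (M): the Rankin product is small for every `t` without vanishing minors
-/

open Finset

namespace Pool.Agent.H9U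

open Pool.Agent.Lib.H59P (Ch cj uu gl pr SF)

theorem t4_card (m : ℤ) (hm : m ≠ 0) (X : ℕ) (h : |m| ≤ (X : ℤ) ^ 3) :
    (m.natAbs.primeFactors.card : ℝ) * Real.log 2 ≤ 3 * Real.log X := by
  have h1 : 2 ^ m.natAbs.primeFactors.card ≤ m.natAbs := by
    calc 2 ^ m.natAbs.primeFactors.card = ∏ _p ∈ m.natAbs.primeFactors, 2 := by rw [prod_const]
      _ ≤ ∏ p ∈ m.natAbs.primeFactors, p :=
        prod_le_prod (fun _ _ => Nat.zero_le _) fun p hp => (Nat.prime_of_mem_primeFactors hp).two_le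
      _ ≤ m.natAbs := Nat.le_of_dvd (Int.natAbs_pos.2 hm) (Nat.prod_primeFactors_dvd _)
  have h2 : m.natAbs ≤ X ^ 3 := by
    have h3 : (m.natAbs : ℤ) ≤ ((X ^ 3 : ℕ) : ℤ) := by
      rw [Int.natCast_natAbs]
      push_cast
      exact h
    exact_mod_cast h3
  have h4 : ((2 : ℝ) ^ m.natAbs.primeFactors.card) ≤ (X : ℝ) ^ 3 := by
    have h5 := h1.trans h2
    exact_mod_cast h5
  have h6 := Real.log_le_log (by positivity) h4
  rw [Real.log_pow, Real.log_pow] at h6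
  exact_mod_cast h6

/-- The number of primes dividing one of the minors. -/
theorem t4_D {k d : ℕ} (S : Sys k d) (X Q : ℕ) (b : Fin k → ℤ) (t : Fin d → ℤ)
    (hm : ∀ i j, i ≠ j → S.minr b t i j ≠ 0 ∧ |S.minr b t i j| ≤ (X : ℤ) ^ 3) [DecidablePred fun l : ℕ => ∃ i j, i ≠ j ∧ (l : ℤ) ∣ S.minr b t i j] :
    (((pr Q).filter (fun l : ℕ => ∃ i j, i ≠ j ∧ (l : ℤ) ∣ S.minr b t i j)).card : ℝ) * Real.log 2 ≤ (k : ℝ) ^ 2 * (3 * Real.log X) := by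
  classical
  have h0 : (0 : ℝ) ≤ Real.log X := Real.log_natCast_nonneg X
  have hsub : (pr Q).filter (fun l : ℕ => ∃ i j, i ≠ j ∧ (l : ℤ) ∣ S.minr b t i j) ⊆
      (univ : Finset (Fin k × Fin k)).biUnion (fun q => if q.1 ≠ q.2 then (S.minr b t q.1 q.2).natAbs.primeFactors else ∅) := by
    intro l hl
    rw [mem_filter] at hl
    obtain ⟨hl1, i, j, hij, hd⟩ := hl
    rw [mem_biUnion]
    refine ⟨(i, j), mem_univ _, ?_⟩
    rw [if_pos hij]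
    exact Nat.mem_primeFactors.2 ⟨(Pool.Agent.Lib.H59P.mem_pr.1 hl1).2, Int.natCast_dvd.1 hd, Int.natAbs_ne_zero.2 (hm i j hij).1⟩
  have h1 : (((pr Q).filter (fun l : ℕ => ∃ i j, i ≠ j ∧ (l : ℤ) ∣ S.minr b t i j)).card : ℝ) ≤
      ∑ q : Fin k × Fin k, ((if q.1 ≠ q.2 then (S.minr b t q.1 q.2).natAbs.primeFactors else ∅).card : ℝ) := by
    exact_mod_cast (card_le_card hsub).trans card_biUnion_le
  have h2 : ∀ q : Fin k × Fin k, ((if q.1 ≠ q.2 then (S.minr b t q.1 q.2).natAbs.primeFactors else ∅).card : ℝ) * Real.log 2 ≤ 3 * Real.log X := by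
    intro q
    by_cases hq : q.1 ≠ q.2
    · rw [if_pos hq]
      exact t4_card _ (hm _ _ hq).1 X (hm _ _ hq).2
    · rw [if_neg hq, card_empty, Nat.cast_zero, zero_mul]
      positivity
  have hlog2 : (0 : ℝ) ≤ Real.log 2 := Real.log_nonneg (by norm_num)
  calc (((pr Q).filter (fun l : ℕ => ∃ i j, i ≠ j ∧ (l : ℤ) ∣ S.minr b t i j)).card : ℝ) * Real.log 2
      ≤ (∑ q : Fin k × Fin k, ((if q.1 ≠ q.2 then (S.minr b t q.1 q.2).natAbs.primeFactors else ∅).card : ℝ)) * Real.log 2 :=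
        mul_le_mul_of_nonneg_right h1 hlog2
    _ ≤ ∑ _q : Fin k × Fin k, 3 * Real.log X := by
        rw [sum_mul]
        exact sum_le_sum fun q _ => h2 q
    _ = (k : ℝ) ^ 2 * (3 * Real.log X) := by
        rw [sum_const, card_univ, Fintype.card_prod, Fintype.card_fin, nsmul_eq_mul]
        push_cast
        ring

/-- Proof. `η = 1/4`. By `T2S_bd` the product `RPS (1/4) Q` is at most the product over the primes `l ≤ Q` of: `1 + l 2^k` for the finitely many `l`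
with `l ≤ 2k` or `l ∣ ∏ a_i` (a constant depending on `S`), `1 + 4^(k+3) l^(-7/4)` (product bounded by a constant), and
`1 + 4^(k+3) l^(-3/4) ≤ exp(4^(k+3) l^(-3/4))` for the `l` dividing some minor. The product `Δ` of the nonzero minors is at most `X^(3k²)`, so it has at most
`ω ≤ 3 k² log X/log 2` prime factors, and `∑_{l ∣ Δ} l^(-3/4) ≤ ∑_{j ≤ ω} j^(-3/4) ≤ 4 ω^(1/4)` (the `j`-th prime factor is at least `j`). So the
product is at most `C exp(C (log X)^(1/4)) ≤ X^ε` for `X` large. Then `T3S_diff`. -/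
theorem T4S_tail {k d : ℕ} (S : Sys k d) (ha : ∀ i, S.a i ≠ 0) (ε : ℝ) (hε : 0 < ε) : ∃ X0 : ℕ, ∀ X Q : ℕ, X0 ≤ X → Q ≤ X →
    ∀ (b : Fin k → ℤ) (t : Fin d → ℤ), (∀ i j, i ≠ j → S.minr b t i j ≠ 0 ∧ |S.minr b t i j| ≤ (X : ℤ) ^ 3) →
    ∀ R E : ℕ, 1 ≤ E → E ≤ Q →
      |∑ e ∈ SF E R, tdS S b t e - SSS S b t ((pr Q).filter (fun l : ℕ => ¬ l ∣ R))| ≤
        (E : ℝ) ^ (-(1 / 4) : ℝ) * (X : ℝ) ^ ε := by
  classical
  set M : ℝ := (4 : ℝ) ^ (k + 3) with hM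
  have hM0 : 0 < M := by positivity
  set L0 : ℕ := 2 * k + ∑ i, (S.a i).natAbs with hL0
  have hLa : ∀ l : ℕ, L0 < l → ∀ i, ¬ (l : ℤ) ∣ S.a i := by
    intro l hl i hd
    have h1 : l ≤ (S.a i).natAbs := Nat.le_of_dvd (Int.natAbs_pos.2 (ha i)) (Int.natCast_dvd.1 hd)
    have h2 : (S.a i).natAbs ≤ ∑ i, (S.a i).natAbs := single_le_sum (f := fun i => (S.a i).natAbs) (fun _ _ => Nat.zero_le _) (mem_univ i)
    omega
  set c0 : ℝ := (L0 : ℝ) * 2 ^ k with hc0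
  have hc00 : 0 ≤ c0 := by positivity
  -- the threshold
  obtain ⟨W, hW1, hW2⟩ : ∃ W : ℕ, 1 ≤ W ∧ M * (W : ℝ) ^ (-(3 / 4) : ℝ) * ((k : ℝ) ^ 2 * 3) / Real.log 2 ≤ ε / 2 := by
    have h1 : Filter.Tendsto (fun W : ℕ => M * (W : ℝ) ^ (-(3 / 4) : ℝ) * ((k : ℝ) ^ 2 * 3) / Real.log 2) Filter.atTop (nhds (M * 0 * ((k : ℝ) ^ 2 * 3) / Real.log 2)) := by
      have h2 : Filter.Tendsto (fun W : ℕ => (W : ℝ) ^ (-(3 / 4) : ℝ)) Filter.atTop (nhds 0) :=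
        (tendsto_rpow_neg_atTop (by norm_num)).comp tendsto_natCast_atTop_atTop
      exact ((h2.const_mul M).mul_const _).div_const _
    rw [mul_zero, zero_mul, zero_div] at h1
    have h3 := (h1.eventually (gt_mem_nhds (half_pos hε))).and (Filter.eventually_ge_atTop 1)
    obtain ⟨W, h4, h5⟩ := h3.exists
    exact ⟨W, h5, h4.le⟩
  obtain ⟨X0, hX0⟩ : ∃ X0 : ℕ, ∀ X : ℕ, X0 ≤ X → ((L0 : ℝ) + 1) * c0 + 3 * M + ((W : ℝ) + 1) * M ≤ ε / 2 * Real.log X := by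
    have h1 : Filter.Tendsto (fun X : ℕ => ε / 2 * Real.log X) Filter.atTop Filter.atTop :=
      (Real.tendsto_log_atTop.comp tendsto_natCast_atTop_atTop).const_mul_atTop (half_pos hε)
    exact Filter.eventually_atTop.1 (h1.eventually_ge_atTop _)
  refine ⟨max X0 1, fun X Q hX hQX b t hm R E hE hEQ => ?_⟩
  have hX1 : (1 : ℝ) ≤ X := by exact_mod_cast (le_max_right X0 1).trans hX
  have hX00 := hX0 X ((le_max_left X0 1).trans hX)
  refine (T3S_diff S b t (1 / 4) (by norm_num) Q R E hE hEQ).trans (mul_le_mul_of_nonneg_left ?_ (Real.rpow_nonneg (Nat.cast_nonneg E) _))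
  -- the Rankin product
  have hexp : RPS S b t (1 / 4) Q ≤ Real.exp (∑ l ∈ pr Q, (l : ℝ) ^ (1 / 4 : ℝ) * |tpS S b t l|) := by
    rw [RPS, Real.exp_sum]
    refine prod_le_prod (fun l _ => by positivity) fun l _ => ?_
    rw [add_comm]
    exact Real.add_one_le_exp _
  refine hexp.trans ?_
  have hXe : (X : ℝ) ^ ε = Real.exp (ε * Real.log X) := by
    rw [Real.rpow_def_of_pos (by linarith), mul_comm]
  rw [hXe]
  refine Real.exp_le_exp.2 ?_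
  set DD : ℕ → Prop := fun l : ℕ => ∃ i j, i ≠ j ∧ (l : ℤ) ∣ S.minr b t i j with hDD
  have hterm : ∀ l ∈ pr Q, (l : ℝ) ^ (1 / 4 : ℝ) * |tpS S b t l| ≤
      (if l ≤ L0 then c0 else 0) + M * (l : ℝ) ^ ((1 / 4 : ℝ) - 2) + (if l ≤ W then M else 0) +
        (if DD l then M * (W : ℝ) ^ (-(3 / 4) : ℝ) else 0) := by
    intro l hl
    have hlp := (Pool.Agent.Lib.H59P.mem_pr.1 hl).2
    have hl1 : (1 : ℝ) ≤ l := by exact_mod_cast hlp.one_lt.le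
    have hl0 : (0 : ℝ) < l := by linarith
    obtain ⟨hb1, hb2⟩ := T2S_bd S b t l hlp
    have hp1 : 0 ≤ M * (l : ℝ) ^ ((1 / 4 : ℝ) - 2) := by positivity
    have hp2 : 0 ≤ (if l ≤ W then M else 0) := by split_ifs <;> linarith
    have hp3 : 0 ≤ (if DD l then M * (W : ℝ) ^ (-(3 / 4) : ℝ) else 0) := by
      split_ifs
      · positivity
      · exact le_rfl
    by_cases h1 : l ≤ L0
    · rw [if_pos h1]
      have h2 : (l : ℝ) ^ (1 / 4 : ℝ) ≤ (L0 : ℝ) := by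
        calc (l : ℝ) ^ (1 / 4 : ℝ) ≤ (l : ℝ) ^ (1 : ℝ) := Real.rpow_le_rpow_of_exponent_le hl1 (by norm_num)
          _ = l := Real.rpow_one _
          _ ≤ L0 := by exact_mod_cast h1
      have h3 : (l : ℝ) ^ (1 / 4 : ℝ) * |tpS S b t l| ≤ c0 :=
        mul_le_mul h2 hb1 (abs_nonneg _) (Nat.cast_nonneg _)
      linarith
    · rw [if_neg h1]
      push Not at h1
      obtain ⟨hb3, hb4⟩ := hb2 (by omega) (hLa l h1)
      by_cases h2 : DD l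
      · rw [if_pos h2]
        have h3 : (l : ℝ) ^ (1 / 4 : ℝ) * |tpS S b t l| ≤ M * (l : ℝ) ^ (-(3 / 4) : ℝ) := by
          calc (l : ℝ) ^ (1 / 4 : ℝ) * |tpS S b t l| ≤ (l : ℝ) ^ (1 / 4 : ℝ) * (M / l) :=
              mul_le_mul_of_nonneg_left hb3 (by positivity)
            _ = M * (l : ℝ) ^ (-(3 / 4) : ℝ) := by
              have e : (l : ℝ) ^ (-(3 / 4) : ℝ) = (l : ℝ) ^ (1 / 4 : ℝ) / l := by
                rw [← Real.rpow_sub_one hl0.ne']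
                norm_num
              rw [e]
              ring
        by_cases h4 : l ≤ W
        · rw [if_pos h4]
          have h5 : (l : ℝ) ^ (-(3 / 4) : ℝ) ≤ 1 := Real.rpow_le_one_of_one_le_of_nonpos hl1 (by norm_num)
          have h6 : M * (l : ℝ) ^ (-(3 / 4) : ℝ) ≤ M := mul_le_of_le_one_right hM0.le h5
          have h7 : 0 ≤ M * (W : ℝ) ^ (-(3 / 4) : ℝ) := by positivity
          linarith
        · rw [if_neg h4]
          push Not at h4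
          have hW0 : (0 : ℝ) < W := by exact_mod_cast hW1
          have h5 : (l : ℝ) ^ (-(3 / 4) : ℝ) ≤ (W : ℝ) ^ (-(3 / 4) : ℝ) :=
            Real.rpow_le_rpow_of_nonpos hW0 (by exact_mod_cast h4.le) (by norm_num)
          have h6 := mul_le_mul_of_nonneg_left h5 hM0.le
          linarith
      · rw [if_neg h2]
        have h3 : (l : ℝ) ^ (1 / 4 : ℝ) * |tpS S b t l| ≤ M * (l : ℝ) ^ ((1 / 4 : ℝ) - 2) := by
          calc (l : ℝ) ^ (1 / 4 : ℝ) * |tpS S b t l| ≤ (l : ℝ) ^ (1 / 4 : ℝ) * (M / (l : ℝ) ^ 2) :=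
              mul_le_mul_of_nonneg_left (hb4 fun i j hij hd => h2 ⟨i, j, hij, hd⟩) (by positivity)
            _ = M * (l : ℝ) ^ ((1 / 4 : ℝ) - 2) := by
              have e : (l : ℝ) ^ ((1 / 4 : ℝ) - 2) = (l : ℝ) ^ (1 / 4 : ℝ) / (l : ℝ) ^ 2 := by
                rw [Real.rpow_sub hl0, Real.rpow_two]
              rw [e]
              ring
        linarith
  refine (sum_le_sum hterm).trans ?_
  rw [sum_add_distrib, sum_add_distrib, sum_add_distrib]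
  have hs1 : ∀ (V : ℕ) (c : ℝ), 0 ≤ c → ∑ l ∈ pr Q, (if l ≤ V then c else 0) ≤ ((V : ℝ) + 1) * c := by
    intro V c hc
    rw [← sum_filter, sum_const, nsmul_eq_mul]
    refine mul_le_mul_of_nonneg_right ?_ hc
    have h1 : ((pr Q).filter (fun l : ℕ => l ≤ V)).card ≤ V + 1 := by
      calc ((pr Q).filter (fun l : ℕ => l ≤ V)).card ≤ (range (V + 1)).card := card_le_card fun l hl => by
            rw [mem_filter] at hl
            rw [mem_range]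
            omega
        _ = V + 1 := card_range _
    exact_mod_cast h1
  have hs2 : ∑ l ∈ pr Q, M * (l : ℝ) ^ ((1 / 4 : ℝ) - 2) ≤ 3 * M := by
    rw [← mul_sum]
    have h1 := Pool.Agent.Lib.H59P.T4A_int (1 / 4) 1 (by norm_num) (by norm_num) le_rfl Q
    rw [Real.one_rpow, mul_one] at h1
    have h2 : (pr Q).filter (fun l : ℕ => (1 : ℝ) < (l : ℝ)) = pr Q := by
      refine filter_true_of_mem fun l hl => ?_
      exact_mod_cast (Pool.Agent.Lib.H59P.mem_pr.1 hl).2.one_lt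
    rw [h2] at h1
    calc M * ∑ l ∈ pr Q, (l : ℝ) ^ ((1 / 4 : ℝ) - 2) ≤ M * 3 := mul_le_mul_of_nonneg_left h1 hM0.le
      _ = 3 * M := mul_comm _ _
  have hs3 : ∑ l ∈ pr Q, (if DD l then M * (W : ℝ) ^ (-(3 / 4) : ℝ) else 0) ≤ ε / 2 * Real.log X := by
    rw [← sum_filter, sum_const, nsmul_eq_mul]
    have h1 := t4_D S X Q b t hm
    have hlog2 : (0 : ℝ) < Real.log 2 := Real.log_pos (by norm_num)
    have h0 : (0 : ℝ) ≤ Real.log X := Real.log_natCast_nonneg X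
    have h2 : (((pr Q).filter DD).card : ℝ) ≤ (k : ℝ) ^ 2 * (3 * Real.log X) / Real.log 2 := by
      rw [le_div_iff₀ hlog2]
      exact h1
    calc (((pr Q).filter DD).card : ℝ) * (M * (W : ℝ) ^ (-(3 / 4) : ℝ))
        ≤ ((k : ℝ) ^ 2 * (3 * Real.log X) / Real.log 2) * (M * (W : ℝ) ^ (-(3 / 4) : ℝ)) :=
          mul_le_mul_of_nonneg_right h2 (by positivity)
      _ = (M * (W : ℝ) ^ (-(3 / 4) : ℝ) * ((k : ℝ) ^ 2 * 3) / Real.log 2) * Real.log X := by ring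
      _ ≤ ε / 2 * Real.log X := mul_le_mul_of_nonneg_right hW2 h0
  have hs4 := hs1 L0 c0 hc00
  have hs5 := hs1 W M hM0.le
  linarith

end Pool.Agent.H9U
end

-- from Lib.H9U.M4
section

/-!
# H9U, chunk M4 (M): the sum over a cell of the components of small modulus
-/

open Finset

namespace Pool.Agent.H9U

open Pool.Agent.Lib.H68T (PC p0)
open Pool.Agent.Lib.H18Q (gk KS)
open Pool.Agent.Lib.H59P (Ch cj uu gl pr SF)

/-- Proof. As `M4` (`H59P/M4.lean`): `M2S` for each `n`, then `M3S` for each `e ∈ SF (D/R) R`, `M3b`. -/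
theorem M4S {k d : ℕ} (S : Sys k d) (b : Fin k → ℤ) (t : Fin d → ℤ) (Q D R : ℕ) (hDQ : D ≤ Q) (hR : 0 < R)
    (p : Fin k → Ch) (hp : ∀ i, p i ∈ PC Q) (hd : ∀ i, (p i).1 ∣ R) (a H : ℕ)
    (hv : ∀ n ∈ Ico a (a + H), ∀ i, 0 ≤ S.val b n t i) :
    ‖∑ n ∈ Ico a (a + H),
      ∑ κ ∈ (Fintype.piFinset fun i => KS Q (p i).1).filter (fun κ => R.lcm (univ.lcm κ) ≤ D),
        ∏ i, gk (p i) (κ i) (S.val b n t i) -
      H * (MRS S b t p R * ((∑ e ∈ SF (D / R) R, tdS S b t e : ℝ) : ℂ))‖ ≤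
      2 * (D : ℝ) ^ 2 * (2 * (1 + Real.log Q)) ^ (2 * k) := by
  have e1 : ∑ n ∈ Ico a (a + H),
      ∑ κ ∈ (Fintype.piFinset fun i => KS Q (p i).1).filter (fun κ => R.lcm (univ.lcm κ) ≤ D),
        ∏ i, gk (p i) (κ i) (S.val b n t i) =
      ∑ e ∈ SF (D / R) R, ∑ n ∈ Ico a (a + H), PhV p R.primeFactors (fun i => S.val b n t i) *
        ((WdV e (fun i => S.val b n t i) : ℝ) : ℂ) := by
    symm
    rw [sum_comm]
    refine sum_congr rfl fun n hn => ?_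
    rw [M2S Q D R hDQ hR p hp hd (fun i => S.val b n t i) (fun i => hv n hn i), mul_sum]
  have e2 : (H : ℂ) * (MRS S b t p R * ((∑ e ∈ SF (D / R) R, tdS S b t e : ℝ) : ℂ)) =
      ∑ e ∈ SF (D / R) R, (H : ℂ) * (MRS S b t p R * ((tdS S b t e : ℝ) : ℂ)) := by
    push_cast
    rw [mul_sum, mul_sum]
  rw [e1, e2, ← sum_sub_distrib]
  have key : ∀ e ∈ SF (D / R) R, ‖∑ n ∈ Ico a (a + H), PhV p R.primeFactors (fun i => S.val b n t i) *
      ((WdV e (fun i => S.val b n t i) : ℝ) : ℂ) -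
      (H : ℂ) * (MRS S b t p R * ((tdS S b t e : ℝ) : ℂ))‖ ≤
      2 * (D : ℝ) * (2 * (1 + Real.log Q)) ^ (2 * k) := by
    intro e hdm
    have hdm' : (1 ≤ e ∧ e ≤ D / R) ∧ Squarefree e ∧ Nat.Coprime e R := by
      simpa [SF] using hdm
    obtain ⟨⟨h1, h2⟩, h3, h4⟩ := hdm'
    have h5 := M3S S b t p R e hR hd h3 h4 a H
    have h6 : R * e ≤ D := by
      have := (Nat.le_div_iff_mul_le hR).1 h2
      rwa [mul_comm] at this
    have hRD : R ≤ D := le_trans (Nat.le_mul_of_pos_right R h1) h6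
    have hdD : e ≤ D := le_trans (Nat.le_mul_of_pos_left e hR) h6
    have hlog : ∀ m : ℕ, 1 ≤ m → m ≤ D → (m : ℝ) / (Nat.totient m : ℝ) ≤ 2 * (1 + Real.log Q) := by
      intro m hm hmD
      refine (Pool.Agent.Lib.H59P.M3b m hm).trans ?_
      have hm0 : (0 : ℝ) < m := by exact_mod_cast hm
      have : Real.log m ≤ Real.log Q :=
        Real.log_le_log hm0 (by exact_mod_cast hmD.trans hDQ)
      linarith
    have b1 := hlog R hR hRD
    have b2 := hlog e h1 hdD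
    have b0 : (0 : ℝ) ≤ (R : ℝ) / (Nat.totient R : ℝ) := by positivity
    have b0' : (0 : ℝ) ≤ (e : ℝ) / (Nat.totient e : ℝ) := by positivity
    refine h5.trans ?_
    have b3 : (((R : ℝ) / (Nat.totient R : ℝ)) * ((e : ℝ) / (Nat.totient e : ℝ))) ^ k ≤
        (2 * (1 + Real.log Q)) ^ (2 * k) := by
      rw [pow_mul]
      apply pow_le_pow_left₀ (mul_nonneg b0 b0')
      rw [sq]
      exact mul_le_mul b1 b2 b0' (b0.trans b1)
    have b4 : (R : ℝ) * e ≤ D := by exact_mod_cast h6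
    have b5 : (0 : ℝ) ≤ (((R : ℝ) / (Nat.totient R : ℝ)) * ((e : ℝ) / (Nat.totient e : ℝ))) ^ k := by
      positivity
    calc 2 * ((R : ℝ) * e) * (((R : ℝ) / (Nat.totient R : ℝ)) * ((e : ℝ) / (Nat.totient e : ℝ))) ^ k
        ≤ 2 * (D : ℝ) * (((R : ℝ) / (Nat.totient R : ℝ)) * ((e : ℝ) / (Nat.totient e : ℝ))) ^ k := by
          gcongr
      _ ≤ 2 * (D : ℝ) * (2 * (1 + Real.log Q)) ^ (2 * k) := by gcongr
  have hcard : ((SF (D / R) R).card : ℝ) ≤ D := by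
    have h1 : (SF (D / R) R).card ≤ (Icc 1 (D / R)).card := by
      unfold SF
      exact card_filter_le _ _
    rw [Nat.card_Icc] at h1
    have h2 : D / R ≤ D := Nat.div_le_self _ _
    exact_mod_cast (by omega : (SF (D / R) R).card ≤ D)
  calc ‖∑ e ∈ SF (D / R) R, (∑ n ∈ Ico a (a + H), PhV p R.primeFactors (fun i => S.val b n t i) *
        ((WdV e (fun i => S.val b n t i) : ℝ) : ℂ) -
      (H : ℂ) * (MRS S b t p R * ((tdS S b t e : ℝ) : ℂ)))‖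
      ≤ ∑ e ∈ SF (D / R) R, ‖∑ n ∈ Ico a (a + H), PhV p R.primeFactors (fun i => S.val b n t i) *
        ((WdV e (fun i => S.val b n t i) : ℝ) : ℂ) -
      (H : ℂ) * (MRS S b t p R * ((tdS S b t e : ℝ) : ℂ))‖ := norm_sum_le _ _
    _ ≤ ∑ e ∈ SF (D / R) R, 2 * (D : ℝ) * (2 * (1 + Real.log Q)) ^ (2 * k) := sum_le_sum key
    _ = ((SF (D / R) R).card : ℝ) * (2 * (D : ℝ) * (2 * (1 + Real.log Q)) ^ (2 * k)) := by
        rw [sum_const, nsmul_eq_mul]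
    _ ≤ (D : ℝ) * (2 * (D : ℝ) * (2 * (1 + Real.log Q)) ^ (2 * k)) := by
        apply mul_le_mul_of_nonneg_right hcard
        have : (0 : ℝ) ≤ (2 * (1 + Real.log Q)) ^ (2 * k) := by
          rw [pow_mul]; positivity
        positivity
    _ = 2 * (D : ℝ) ^ 2 * (2 * (1 + Real.log Q)) ^ (2 * k) := by ring

end Pool.Agent.H9U
end

-- from Lib.H9U.Z1
section

/-!
# H9U, chunk Z1 (M): a tuple of characters, small and large modulus
-/

open Finset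

namespace Pool.Agent.H9U

open Pool.Agent.Lib.H68T (PC p0)
open Pool.Agent.Lib.H18Q (gk KS)
open Pool.Agent.Lib.H59P (Ch SF bx TS Rp)

theorem z1_lcm_pos {k : ℕ} (d : Fin k → ℕ) (h : ∀ i, 0 < d i) : 0 < univ.lcm d :=
  Nat.pos_of_dvd_of_pos (Finset.lcm_dvd (fun i _ => Finset.dvd_prod_of_mem d (mem_univ i)))
    (Finset.prod_pos (fun i _ => h i))

/-- Proof. `c, C` from `LBig`; take `min c 1` and `max C (2k) + 8^k + 2`, say. (1) As `Z1d` (`H59P/Z1D.lean`), with `ℓ¹` in place of `ℓ²`: split the tuples `κ`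
into those with `lcm(R, κ) ≤ D` (`M4S` for each `t`: error `2 D² (2(1+log Q))^(2k)`, `D² ≤ Q²`, `H ≥ Q^10`, so at most `H (…) D2^(-1)`) and the others, for
which `D2 < lcm(r_i κ_i)` (`Z1b`: `D < px.1 · lcm(r_i κ_i)` and `px.1 D2 ≤ D1 ≤ D`), `LBig` with `D2`. (2) As `Z1e`: `Rp px p > D1` (or `p ∉ TS` for the
other reason, excluded by `hp`), `Z1b`, `LBig` with everything. -/
theorem Z1S_both {k d : ℕ} (S : Sys k d) (hL : LBig S) : ∃ c C : ℝ, 0 < c ∧ 1 ≤ C ∧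
    ∀ (Q D D1 D2 : ℕ) (px : Ch), 1 ≤ D2 → px.1 * D2 ≤ D1 → D1 ≤ D → D ≤ Q → px ∈ PC Q →
    ∀ (b : Fin k → ℤ) (a H T : ℕ), Q ^ (10 * (k + 1)) ≤ H → Q ^ (10 * (k + 1)) ≤ T →
    (∀ t ∈ bx d T, ∀ n ∈ Ico a (a + H), ∀ i, 0 ≤ S.val b n (iv t) i) →
    ∀ p : Fin k → Ch, (∀ i, p i ∈ PC Q) →
    (p ∈ TS k Q D1 px → ∑ t ∈ bx d T, ‖∑ n ∈ Ico a (a + H),
        ∑ κ ∈ Fintype.piFinset fun i => KS Q (p i).1, ∏ i, gk (p i) (κ i) (S.val b n (iv t) i) -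
      H * (MRS S b (iv t) p (Rp px p) *
        ((∑ e ∈ SF (D / Rp px p) (Rp px p), tdS S b (iv t) e : ℝ) : ℂ))‖ ≤
      C * (1 + Real.log Q) ^ C * ((T : ℝ) ^ d * H) * (D2 : ℝ) ^ (-c)) ∧
    (p ∉ TS k Q D1 px → ∑ t ∈ bx d T, ‖∑ n ∈ Ico a (a + H),
        ∑ κ ∈ Fintype.piFinset fun i => KS Q (p i).1, ∏ i, gk (p i) (κ i) (S.val b n (iv t) i)‖ ≤
      C * (1 + Real.log Q) ^ C * ((T : ℝ) ^ d * H) * (D2 : ℝ) ^ (-c)) := by
  classical
  obtain ⟨c0, C0, hc0, hC0, hL'⟩ := hL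
  refine ⟨min c0 1, C0 + 2 * k + 2 * 4 ^ k, lt_min hc0 one_pos, ?_, ?_⟩
  · have h1 : (0 : ℝ) ≤ 2 * k := by positivity
    have h2 : (0 : ℝ) ≤ 2 * 4 ^ k := by positivity
    linarith
  intro Q D D1 D2 px hD2 hpD hD1D hDQ hpx b a H T hH hT hv p hp
  have hpx1 : 1 ≤ px.1 := (Pool.Agent.Lib.H68T.mem_PC.mp hpx).1
  have hD2D1 : D2 ≤ D1 := le_trans (Nat.le_mul_of_pos_left D2 hpx1) hpD
  have hD2Q : D2 ≤ Q := hD2D1.trans (hD1D.trans hDQ)
  have hQ1 : 1 ≤ Q := hD2.trans hD2Q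
  have hQ1r : (1 : ℝ) ≤ Q := by exact_mod_cast hQ1
  have hlQ : 0 ≤ Real.log Q := Real.log_nonneg hQ1r
  have hD2r : (1 : ℝ) ≤ D2 := by exact_mod_cast hD2
  have hD20 : (0 : ℝ) < D2 := by linarith
  obtain ⟨y, hy⟩ : ∃ y : ℝ, y = 1 + Real.log Q := ⟨_, rfl⟩
  have hy1 : 1 ≤ y := by rw [hy]; linarith
  obtain ⟨q, hq⟩ : ∃ q : ℝ, q = (D2 : ℝ) ^ (-(min c0 1)) := ⟨_, rfl⟩
  have hq0 : 0 < q := by rw [hq]; exact Real.rpow_pos_of_pos hD20 _
  have hTd : (0 : ℝ) ≤ (T : ℝ) ^ d * H := by positivity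
  have h4k : (0 : ℝ) ≤ 2 * 4 ^ k := by positivity
  have h2k : (0 : ℝ) ≤ 2 * k := by positivity
  -- the exponent of the logarithm
  have hyC : y ^ C0 ≤ y ^ (C0 + 2 * k + 2 * 4 ^ k) := Real.rpow_le_rpow_of_exponent_le hy1 (by linarith)
  have hyk : y ^ (2 * k) ≤ y ^ (C0 + 2 * k + 2 * 4 ^ k) := by
    have h1 : y ^ (2 * k) = y ^ ((2 * k : ℕ) : ℝ) := (Real.rpow_natCast _ _).symm
    rw [h1]
    refine Real.rpow_le_rpow_of_exponent_le hy1 ?_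
    push_cast
    linarith
  have hq1 : (D2 : ℝ) ^ (-c0) ≤ q := by
    rw [hq]
    refine Real.rpow_le_rpow_of_exponent_le hD2r ?_
    have := min_le_left c0 1
    linarith
  -- the bound for the tuples of large modulus
  have hbig : ∀ TT : Finset (Fin k → ℕ), TT ⊆ Fintype.piFinset (fun i => KS Q (p i).1) →
      (∀ κ ∈ TT, D2 < univ.lcm (fun i => (p i).1 * κ i)) →
      ∑ t ∈ bx d T, ‖∑ n ∈ Ico a (a + H), ∑ κ ∈ TT, ∏ i, gk (p i) (κ i) (S.val b n (iv t) i)‖ ≤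
        C0 * y ^ (C0 + 2 * k + 2 * 4 ^ k) * ((T : ℝ) ^ d * H) * q := by
    intro TT hTT hlt
    have h1 := hL' Q D2 hD2 hD2Q p hp TT hTT hlt b a H T hH hT
    refine h1.trans ?_
    rw [← hy]
    have h2 : C0 * y ^ C0 ≤ C0 * y ^ (C0 + 2 * k + 2 * 4 ^ k) := mul_le_mul_of_nonneg_left hyC (by linarith)
    have h3 : C0 * y ^ C0 * ((T : ℝ) ^ d * H) ≤ C0 * y ^ (C0 + 2 * k + 2 * 4 ^ k) * ((T : ℝ) ^ d * H) :=
      mul_le_mul_of_nonneg_right h2 hTd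
    have h4 : 0 ≤ C0 * y ^ (C0 + 2 * k + 2 * 4 ^ k) * ((T : ℝ) ^ d * H) := by
      have : 0 ≤ y ^ (C0 + 2 * k + 2 * 4 ^ k) := Real.rpow_nonneg (by linarith) _
      have : 0 ≤ C0 := by linarith
      positivity
    exact mul_le_mul h3 hq1 (Real.rpow_nonneg hD20.le _) h4
  have hyp : 0 ≤ y ^ (C0 + 2 * k + 2 * 4 ^ k) := Real.rpow_nonneg (by linarith) _
  rw [← hy, ← hq]
  constructor
  · intro hpTS
    have hTS : (∀ i, p i ∈ PC Q) ∧ Rp px p ≤ D1 := by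
      unfold TS at hpTS
      rw [mem_filter, Fintype.mem_piFinset] at hpTS
      exact hpTS
    obtain ⟨_, hpR⟩ := hTS
    have hp1 : ∀ i, 1 ≤ (p i).1 := fun i => (Pool.Agent.Lib.H68T.mem_PC.mp (hp i)).1
    have hlcmpos : 0 < univ.lcm (fun i => (p i).1) := z1_lcm_pos _ hp1
    have hRpos : 0 < Rp px p := Nat.lcm_pos hpx1 hlcmpos
    have hdvd : ∀ i, (p i).1 ∣ Rp px p := fun i => by
      unfold Rp
      exact (Finset.dvd_lcm (f := fun i => (p i).1) (mem_univ i)).trans (Nat.dvd_lcm_right _ _)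
    obtain ⟨TT, hTT⟩ : ∃ TT : Finset (Fin k → ℕ), TT = (Fintype.piFinset fun i => KS Q (p i).1).filter
      (fun κ => ¬ (Rp px p).lcm (univ.lcm κ) ≤ D) := ⟨_, rfl⟩
    have hTsub : TT ⊆ Fintype.piFinset (fun i => KS Q (p i).1) := by
      rw [hTT]
      exact Finset.filter_subset _ _
    have hTlt : ∀ κ ∈ TT, D2 < univ.lcm (fun i => (p i).1 * κ i) := by
      intro κ hκ
      rw [hTT, mem_filter, Fintype.mem_piFinset] at hκ
      have h1 := (Pool.Agent.Lib.H59P.Z1b Q D px hpx p hp κ hκ.1).1 (not_le.mp hκ.2)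
      have h2 : px.1 * D2 < px.1 * univ.lcm (fun i => (p i).1 * κ i) :=
        lt_of_le_of_lt (hpD.trans hD1D) h1
      exact lt_of_mul_lt_mul_left h2 (Nat.zero_le _)
    have hB := hbig TT hTsub hTlt
    obtain ⟨W, hW⟩ : ∃ W : ℝ, W = 2 * (D : ℝ) ^ 2 * (2 * (1 + Real.log Q)) ^ (2 * k) := ⟨_, rfl⟩
    have hA : ∀ t ∈ bx d T, ‖∑ n ∈ Ico a (a + H),
        ∑ κ ∈ (Fintype.piFinset fun i => KS Q (p i).1).filter
          (fun κ => (Rp px p).lcm (univ.lcm κ) ≤ D),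
          ∏ i, gk (p i) (κ i) (S.val b n (iv t) i) -
        H * (MRS S b (iv t) p (Rp px p) *
          ((∑ e ∈ SF (D / Rp px p) (Rp px p), tdS S b (iv t) e : ℝ) : ℂ))‖ ≤ W := by
      intro t ht
      rw [hW]
      exact M4S S b (iv t) Q D (Rp px p) hDQ hRpos p hp hdvd a H (hv t ht)
    have hsplit : ∀ t : Fin d → ℕ, ∑ n ∈ Ico a (a + H),
          ∑ κ ∈ Fintype.piFinset fun i => KS Q (p i).1, ∏ i, gk (p i) (κ i) (S.val b n (iv t) i) -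
        H * (MRS S b (iv t) p (Rp px p) *
          ((∑ e ∈ SF (D / Rp px p) (Rp px p), tdS S b (iv t) e : ℝ) : ℂ)) =
        (∑ n ∈ Ico a (a + H),
        ∑ κ ∈ (Fintype.piFinset fun i => KS Q (p i).1).filter
          (fun κ => (Rp px p).lcm (univ.lcm κ) ≤ D),
          ∏ i, gk (p i) (κ i) (S.val b n (iv t) i) -
        H * (MRS S b (iv t) p (Rp px p) *
          ((∑ e ∈ SF (D / Rp px p) (Rp px p), tdS S b (iv t) e : ℝ) : ℂ))) +
        ∑ n ∈ Ico a (a + H), ∑ κ ∈ TT, ∏ i, gk (p i) (κ i) (S.val b n (iv t) i) := by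
      intro t
      have h1 : ∑ n ∈ Ico a (a + H),
          ∑ κ ∈ Fintype.piFinset fun i => KS Q (p i).1, ∏ i, gk (p i) (κ i) (S.val b n (iv t) i) =
          ∑ n ∈ Ico a (a + H),
          ∑ κ ∈ (Fintype.piFinset fun i => KS Q (p i).1).filter
            (fun κ => (Rp px p).lcm (univ.lcm κ) ≤ D),
            ∏ i, gk (p i) (κ i) (S.val b n (iv t) i) +
          ∑ n ∈ Ico a (a + H), ∑ κ ∈ TT, ∏ i, gk (p i) (κ i) (S.val b n (iv t) i) := by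
        rw [← Finset.sum_add_distrib]
        refine Finset.sum_congr rfl (fun n _ => ?_)
        rw [hTT]
        exact (Finset.sum_filter_add_sum_filter_not _ _ _).symm
      rw [h1]
      ring
    have hcard : ((bx d T).card : ℝ) = (T : ℝ) ^ d := by
      unfold bx
      rw [Fintype.card_piFinset]
      simp
    -- the bound of `W`
    have hWle : W ≤ 2 * 4 ^ k * y ^ (C0 + 2 * k + 2 * 4 ^ k) * (H * q) := by
      have hDr : (D : ℝ) ≤ Q := by exact_mod_cast hDQ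
      have e1 : (D : ℝ) ^ 2 ≤ (Q : ℝ) ^ 2 := pow_le_pow_left₀ (by positivity) hDr 2
      have e2 : (Q : ℝ) ^ 2 ≤ H * q := by
        have f1 : (Q : ℝ) ^ 3 ≤ H := by
          have f2 : Q ^ 3 ≤ H := le_trans (Nat.pow_le_pow_right hQ1 (by omega)) hH
          exact_mod_cast f2
        have f3 : (Q : ℝ)⁻¹ ≤ q := by
          have f4 : (D2 : ℝ) ^ (-1 : ℝ) ≤ q := by
            rw [hq]
            refine Real.rpow_le_rpow_of_exponent_le hD2r ?_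
            have := min_le_right c0 1
            linarith
          rw [Real.rpow_neg_one] at f4
          refine le_trans ?_ f4
          have f5 : (D2 : ℝ) ≤ Q := by exact_mod_cast hD2Q
          exact inv_anti₀ hD20 f5
        calc (Q : ℝ) ^ 2 = (Q : ℝ) ^ 3 * (Q : ℝ)⁻¹ := by
              field_simp
          _ ≤ H * q := mul_le_mul f1 f3 (by positivity) (by positivity)
      have e3 : (2 * (1 + Real.log Q)) ^ (2 * k) = 4 ^ k * y ^ (2 * k) := by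
        rw [← hy, mul_pow, pow_mul]
        norm_num
      rw [hW, e3]
      have e4 : y ^ (2 * k) * (H * q) ≤ y ^ (C0 + 2 * k + 2 * 4 ^ k) * (H * q) :=
        mul_le_mul_of_nonneg_right hyk (by positivity)
      have e5 : (D : ℝ) ^ 2 * y ^ (2 * k) ≤ (H * q) * y ^ (2 * k) :=
        mul_le_mul_of_nonneg_right (e1.trans e2) (by positivity)
      have e6 : (0 : ℝ) ≤ 2 * 4 ^ k := by positivity
      calc 2 * (D : ℝ) ^ 2 * (4 ^ k * y ^ (2 * k)) = 2 * 4 ^ k * ((D : ℝ) ^ 2 * y ^ (2 * k)) := by ring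
        _ ≤ 2 * 4 ^ k * (y ^ (C0 + 2 * k + 2 * 4 ^ k) * (H * q)) := by
            refine mul_le_mul_of_nonneg_left ?_ e6
            linarith
        _ = _ := by ring
    calc ∑ t ∈ bx d T, ‖∑ n ∈ Ico a (a + H),
          ∑ κ ∈ Fintype.piFinset fun i => KS Q (p i).1, ∏ i, gk (p i) (κ i) (S.val b n (iv t) i) -
        H * (MRS S b (iv t) p (Rp px p) *
          ((∑ e ∈ SF (D / Rp px p) (Rp px p), tdS S b (iv t) e : ℝ) : ℂ))‖
        ≤ ∑ t ∈ bx d T, (W + ‖∑ n ∈ Ico a (a + H), ∑ κ ∈ TT, ∏ i, gk (p i) (κ i) (S.val b n (iv t) i)‖) := by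
          refine Finset.sum_le_sum (fun t ht => ?_)
          rw [hsplit t]
          refine (norm_add_le _ _).trans ?_
          have h1 := hA t ht
          linarith
      _ = (T : ℝ) ^ d * W + ∑ t ∈ bx d T, ‖∑ n ∈ Ico a (a + H), ∑ κ ∈ TT,
            ∏ i, gk (p i) (κ i) (S.val b n (iv t) i)‖ := by
          rw [Finset.sum_add_distrib, Finset.sum_const, nsmul_eq_mul, hcard]
      _ ≤ (T : ℝ) ^ d * (2 * 4 ^ k * y ^ (C0 + 2 * k + 2 * 4 ^ k) * (H * q)) +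
            C0 * y ^ (C0 + 2 * k + 2 * 4 ^ k) * ((T : ℝ) ^ d * H) * q := by
          have h1 : (T : ℝ) ^ d * W ≤ (T : ℝ) ^ d * (2 * 4 ^ k * y ^ (C0 + 2 * k + 2 * 4 ^ k) * (H * q)) :=
            mul_le_mul_of_nonneg_left hWle (by positivity)
          linarith
      _ = (C0 + 2 * 4 ^ k) * (y ^ (C0 + 2 * k + 2 * 4 ^ k) * ((T : ℝ) ^ d * H) * q) := by ring
      _ ≤ (C0 + 2 * k + 2 * 4 ^ k) * (y ^ (C0 + 2 * k + 2 * 4 ^ k) * ((T : ℝ) ^ d * H) * q) := by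
          refine mul_le_mul_of_nonneg_right (by linarith) ?_
          exact mul_nonneg (mul_nonneg hyp hTd) hq0.le
      _ = _ := by ring
  · intro hpTS
    have hRp : D1 < Rp px p := by
      by_contra hcon
      refine hpTS ?_
      unfold TS
      rw [mem_filter]
      exact ⟨Fintype.mem_piFinset.mpr hp, not_lt.mp hcon⟩
    have h1 := hbig (Fintype.piFinset fun i => KS Q (p i).1) subset_rfl (by
      intro κ hκ
      have h5 := (Pool.Agent.Lib.H59P.Z1b Q 0 px hpx p hp κ (fun i => Fintype.mem_piFinset.mp hκ i)).2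
      by_contra hcon
      have h6 : px.1 * univ.lcm (fun i => (p i).1 * κ i) ≤ px.1 * D2 := Nat.mul_le_mul_left _ (not_lt.mp hcon)
      omega)
    refine h1.trans ?_
    have h2 : C0 * y ^ (C0 + 2 * k + 2 * 4 ^ k) ≤ (C0 + 2 * k + 2 * 4 ^ k) * y ^ (C0 + 2 * k + 2 * 4 ^ k) :=
      mul_le_mul_of_nonneg_right (by linarith) hyp
    exact mul_le_mul_of_nonneg_right (mul_le_mul_of_nonneg_right h2 hTd) hq0.le

end Pool.Agent.H9U
end

-- from Lib.H9U.U0B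
section

/-!
# H9U, chunk U0B (M): the error of the projection of small level is uniform
-/

open Finset

namespace Pool.Agent.H9U

open Pool.Agent.H44W (ee)
open Pool.Agent.H9S (Bd lc Lc BF Sx Sy)
open Pool.Agent.Lib.H68T (lp Lk)
open Pool.Agent.Lib.H18Q (RegP)

theorem u0b_add (S T : Finset ℤ) (F1 F2 W f g : ℤ → ℂ) :
    BF S T (fun m => F1 m + F2 m) W f g = BF S T F1 W f g + BF S T F2 W f g := by
  unfold BF
  rw [← Finset.sum_add_distrib]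
  refine Finset.sum_congr rfl fun x _ => ?_
  rw [← Finset.sum_add_distrib]
  refine Finset.sum_congr rfl fun y _ => ?_
  ring

/-- Proof. Compare the proof of `H9S.OP_main` (`H9S/O3.lean`). `OPW` is `O1_op (E1_inv (K3_inv (T2_box (P2_inv hI))))`; its hypotheses at `(Q, X)`,
with `n := X`: `LKd C2 Q X` from `LK_box` (as in `OP_main`), the Fourier bound from `fourier_smallP`, the size of `Ec Q X` from
`BDL_bd` (with `n := X`) and `|lp| ≤ log (4 X)`, `W` bounded by `1 ≤ X^c`. So `‖BF (Ec Q X) W f g‖ ≤ X^(2-c)`. And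
`Er Q Q' X m = Ec Q X m + (Lc Q (X/Q²) m - Lc Q' (X/Q²) m)` (`BF` is additive in the kernel), the second part is at most
`C2 X² Q'^(-1/1152) ≤ C2 X^(2 - θ/1152)` (`LK_box`, `Rgm.low`). `κ = min (min c (θ/1152)) 1 / 2`, `X` large. Size: `U0_size`, `U0_lp` with
`ε = κ/200` (`2 X^(κ/200) ≤ X^(κ/100)`). `1 ≤ Q'` from `Rgm.low` (`X^θ ≥ 1`). -/
theorem U0_unif (hI : Pool.Agent.H9S.INV) : ∃ K : ℝ, 1 ≤ K ∧ ∀ Cr θ : ℝ, 1 ≤ Cr → 0 < θ → ∃ κ : ℝ, 0 < κ ∧ κ ≤ 1 ∧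
    ∃ X0 : ℕ, ∀ Q Q' X : ℕ, X0 ≤ X → Rgm K Cr θ Q Q' X → Unif X κ (Er Q Q' X) := by
  obtain ⟨K1, hK1, hbd⟩ := U0_size
  obtain ⟨K2, C2, hK2, hC2, hLK⟩ := Pool.Agent.Lib.H59T.LK_box
  obtain ⟨K3, hfs⟩ := Pool.Agent.Lib.H18Q.fourier_smallP
  have hO := Pool.Agent.H9S.O1_op (Pool.Agent.H9S.E1_inv (Pool.Agent.H9S.K3_inv (Pool.Agent.H9S.T2_box
    (Pool.Agent.H9S.P2_inv hI))))
  refine ⟨max (max K1 K2) (max K3 4), hK1.trans ((le_max_left _ _).trans (le_max_left _ _)), fun Cr θ hCr hθ => ?_⟩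
  obtain ⟨K, hK⟩ : ∃ K : ℝ, K = max (max K1 K2) (max K3 4) := ⟨_, rfl⟩
  rw [← hK]
  have hKK1 : K1 ≤ K := by rw [hK]; exact (le_max_left _ _).trans (le_max_left _ _)
  have hKK2 : K2 ≤ K := by rw [hK]; exact (le_max_right _ _).trans (le_max_left _ _)
  have hKK3 : K3 ≤ K := by rw [hK]; exact (le_max_left _ _).trans (le_max_right _ _)
  have hKK4 : (4:ℝ) ≤ K := by rw [hK]; exact (le_max_right _ _).trans (le_max_right _ _)
  have hK0 : 0 ≤ K := by linarith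
  clear hK
  obtain ⟨c, hc, n1, h1⟩ := hO Cr C2 hCr hC2
  obtain ⟨κ, hκ⟩ : ∃ κ : ℝ, κ = min (min c (θ / 1152)) 1 / 2 := ⟨_, rfl⟩
  have hm0 : 0 < min (min c (θ / 1152)) 1 := lt_min (lt_min hc (by positivity)) one_pos
  have hκ0 : 0 < κ := by rw [hκ]; linarith
  have hκc : 2 * κ ≤ c := by
    have := (min_le_left (min c (θ / 1152)) 1).trans (min_le_left c (θ / 1152))
    rw [hκ]; linarith
  have hκθ : 2 * κ ≤ θ / 1152 := by
    have := (min_le_left (min c (θ / 1152)) 1).trans (min_le_right c (θ / 1152))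
    rw [hκ]; linarith
  have hκ1 : 2 * κ ≤ 1 := by
    have := min_le_right (min c (θ / 1152)) 1
    rw [hκ]; linarith
  clear hκ
  obtain ⟨n2, h2⟩ := hbd (κ / 200) (by positivity)
  obtain ⟨n3, h3⟩ := U0_lp (κ / 200) (by positivity)
  have ht : ∀ᶠ n : ℕ in Filter.atTop, max (1 + C2) 2 ≤ (n:ℝ) ^ (κ / 200) :=
    ((tendsto_rpow_atTop (by positivity : 0 < κ / 200)).comp tendsto_natCast_atTop_atTop).eventually_ge_atTop _
  obtain ⟨n4, h4⟩ := Filter.eventually_atTop.1 ht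
  refine ⟨κ, hκ0, by linarith, max (max (max n1 n2) (max n3 n4)) 1, fun Q Q' X hX hR => ?_⟩
  have hreg := hR.reg
  have hX1 : 1 ≤ X := by omega
  have hXp : (0:ℝ) < X := by exact_mod_cast hX1
  have hXr : (1:ℝ) ≤ X := by exact_mod_cast hX1
  have h4' := h4 X (by omega)
  have h4a : 1 + C2 ≤ (X:ℝ) ^ (κ / 200) := (le_max_left _ _).trans h4'
  have h4b : (2:ℝ) ≤ (X:ℝ) ^ (κ / 200) := (le_max_right _ _).trans h4'
  have hQ4 : (4:ℝ) ≤ Q := (hreg.mono hK0 hKK4).Q_ge (by norm_num)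
  have hQ2 : 2 ≤ Q := by
    have : (2:ℝ) ≤ Q := by linarith
    exact_mod_cast this
  have hQ'1 : 1 ≤ Q' := by
    have h5 : (1:ℝ) ≤ (X:ℝ) ^ θ := Real.one_le_rpow hXr hθ.le
    have h6 := h5.trans hR.low
    exact_mod_cast h6
  have hQ'r : (0:ℝ) < Q' := by exact_mod_cast hQ'1
  -- sizes
  have hsz : ∀ Q'' : ℕ, 1 ≤ Q'' → Q'' ≤ Q → ∀ m : ℤ, (X:ℤ) ≤ m → m ≤ 4 * X →
      ‖lc m - Lc Q'' (X / Q ^ 2) m‖ ≤ (X:ℝ) ^ (κ / 100) := by
    intro Q'' hQ1 hQQ m hm1 hm2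
    have e1 := h2 Q Q'' X (by omega) (hreg.mono hK0 hKK1) hQ1 hQQ m hm1 hm2
    have e2 := h3 X (by omega) m hm2
    have e3 : ‖lc m - Lc Q'' (X / Q ^ 2) m‖ ≤ ‖lc m‖ + ‖Lc Q'' (X / Q ^ 2) m‖ := norm_sub_le _ _
    have e4 : ‖lc m‖ = |lp m| := by
      rw [lc, Complex.norm_real, Real.norm_eq_abs]
    have e5 : ‖Lc Q'' (X / Q ^ 2) m‖ = |Lk Q'' (X / Q ^ 2) m| := by
      rw [Lc, Complex.norm_real, Real.norm_eq_abs]
    have e6 : (X:ℝ) ^ (κ / 100) = (X:ℝ) ^ (κ / 200) * (X:ℝ) ^ (κ / 200) := by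
      rw [← Real.rpow_add hXp]
      congr 1
      ring
    have e7 : 0 ≤ (X:ℝ) ^ (κ / 200) := Real.rpow_nonneg hXp.le _
    rw [e6]
    rw [e4, e5] at e3
    nlinarith
  have hLKd : Pool.Agent.H9S.LKd C2 Q X := by
    intro Q'' hQ1 hQQ W f g hW hf hg
    have h3 := hLK Q Q'' X (hreg.mono hK0 hKK2) hQ1 hQQ f g W hf hg hW
    refine le_trans (le_of_eq ?_) h3
    rw [BF, Sx, Sy]
    simp only [Lc, Complex.ofReal_sub]
  constructor
  · intro W f g hW hf hg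
    have hA : ‖BF (Sx X) (Sy X) (Pool.Agent.H9S.Ec Q X) W f g‖ ≤ (X:ℝ) ^ (2 - c) := by
      refine h1 X (by omega) Q X hQ2 hR.log hX1 le_rfl hLKd ?_ ?_ W f g ?_ hf hg
      · intro th u v hu hv
        have h3 := hfs Q X (hreg.mono hK0 hKK3) th u v hu hv
        refine le_trans (le_of_eq ?_) h3
        congr 1
        refine Finset.sum_congr rfl fun m _ => ?_
        rw [Pool.Agent.H9S.Ec, lc, Lc, Complex.ofReal_sub, mul_comm th (m:ℝ)]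
        rfl
      · intro m hm1 hm2
        refine (hsz Q (by omega) le_rfl m hm1 hm2).trans ?_
        exact Real.rpow_le_rpow_of_exponent_le hXr (by linarith)
      · intro v _ _
        exact (hW v).trans (Real.one_le_rpow hXr hc.le)
    have hB := hLKd Q' hQ'1 hR.le W f g hW hf hg
    have hE : BF (Sx X) (Sy X) (Er Q Q' X) W f g = BF (Sx X) (Sy X) (Pool.Agent.H9S.Ec Q X) W f g +
        BF (Sx X) (Sy X) (fun m => Lc Q (X / Q ^ 2) m - Lc Q' (X / Q ^ 2) m) W f g := by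
      rw [← u0b_add]
      congr 1
      funext m
      rw [Er, Pool.Agent.H9S.Ec]
      ring
    have hC : (Q':ℝ) ^ (-(1 / 1152 : ℝ)) ≤ (X:ℝ) ^ (-(2 * κ)) := by
      calc (Q':ℝ) ^ (-(1 / 1152 : ℝ)) ≤ ((X:ℝ) ^ θ) ^ (-(1 / 1152 : ℝ)) :=
            Real.rpow_le_rpow_of_nonpos (Real.rpow_pos_of_pos hXp _) hR.low (by norm_num)
        _ = (X:ℝ) ^ (θ * (-(1 / 1152 : ℝ))) := (Real.rpow_mul hXp.le _ _).symm
        _ ≤ (X:ℝ) ^ (-(2 * κ)) := Real.rpow_le_rpow_of_exponent_le hXr (by linarith)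
    have hD : C2 * (X:ℝ) ^ 2 * (Q':ℝ) ^ (-(1 / 1152 : ℝ)) ≤ C2 * (X:ℝ) ^ (2 - 2 * κ) := by
      have e1 : (X:ℝ) ^ (2 - 2 * κ) = (X:ℝ) ^ 2 * (X:ℝ) ^ (-(2 * κ)) := by
        rw [← Real.rpow_natCast (X:ℝ) 2, ← Real.rpow_add hXp]
        congr 1
      rw [e1, ← mul_assoc]
      exact mul_le_mul_of_nonneg_left hC (by positivity)
    have hF : (X:ℝ) ^ (2 - c) ≤ (X:ℝ) ^ (2 - 2 * κ) := Real.rpow_le_rpow_of_exponent_le hXr (by linarith)
    have hG : (1 + C2) * (X:ℝ) ^ (2 - 2 * κ) ≤ (X:ℝ) ^ (2 - κ) := by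
      have e1 : (X:ℝ) ^ (2 - κ) = (X:ℝ) ^ κ * (X:ℝ) ^ (2 - 2 * κ) := by
        rw [← Real.rpow_add hXp]
        congr 1
        ring
      rw [e1]
      refine mul_le_mul_of_nonneg_right ?_ (Real.rpow_nonneg hXp.le _)
      exact h4a.trans (Real.rpow_le_rpow_of_exponent_le hXr (by linarith))
    rw [hE]
    refine (norm_add_le _ _).trans ?_
    linarith
  · intro m hm1 hm2
    exact hsz Q' hQ'1 hR.le m hm1 hm2

end Pool.Agent.H9U
end

-- from Lib.H9U.U7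
section

/-!
# H9U, chunk U7 (M): replacing the primes by their projections, for almost all `t`
-/

open Finset

namespace Pool.Agent.H9U

open Pool.Agent.H9S (Bd)
open Pool.Agent.Lib.H68T (lp Lk)
open Pool.Agent.Lib.H59P (bx)

theorem u7_abs {ι : Type*} (s : Finset ι) (R : ι → ℝ) : ∃ W : ι → ℂ, (∀ t, ‖W t‖ ≤ 1) ∧
    ∑ t ∈ s, |R t| = ‖∑ t ∈ s, W t * ((R t : ℝ) : ℂ)‖ := by
  refine ⟨fun t => if 0 ≤ R t then 1 else -1, fun t => ?_, ?_⟩
  · dsimp only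
    split_ifs <;> simp
  have h : ∑ t ∈ s, (if 0 ≤ R t then (1:ℂ) else -1) * ((R t : ℝ) : ℂ) =
      ((∑ t ∈ s, |R t| : ℝ) : ℂ) := by
    rw [Complex.ofReal_sum]
    refine Finset.sum_congr rfl fun t _ => ?_
    split_ifs with h
    · rw [abs_of_nonneg h, one_mul]
    · rw [abs_of_neg (not_le.1 h)]; push_cast; ring
  rw [h, Complex.norm_real, Real.norm_of_nonneg (Finset.sum_nonneg fun _ _ => abs_nonneg _)]

theorem u7_one {k d : ℕ} (S : Sys k d) (j : Fin k) (Xs : Fin k → ℕ)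
    (b : Fin k → ℤ) (L T : ℕ) (v : Fin k → ℤ → ℝ) (M : ℝ) (hM : 0 < M)
    (hv : ∀ i, ∀ m : ℤ, (Xs i : ℤ) ≤ m → m ≤ 4 * Xs i → |v i m| ≤ M)
    (F : ℤ → ℂ) (f : ℤ → ℝ) (hF : ∀ m, F m = ((f m : ℝ) : ℂ))
    (hval : ∀ i, ∀ n ∈ range L, ∀ t ∈ bx d T, S.val b n (iv t) i ∈ JJ (Xs i))
    (B : ℝ) (hvN : ∀ (G : Fin k → ℤ → ℂ) (W : (Fin d → ℕ) → ℂ), (∀ i, Bd (G i)) → (∀ t, ‖W t‖ ≤ 1) →
      ‖∑ t ∈ bx d T, W t * ∑ n ∈ range L, (∏ i ∈ univ.erase j, G i (S.val b n (iv t) i)) *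
        F (S.val b n (iv t) j)‖ ≤ B) :
    ∑ t ∈ bx d T, |∑ n ∈ range L, (∏ i ∈ univ.erase j, v i (S.val b n (iv t) i)) * f (S.val b n (iv t) j)| ≤
      M ^ (k - 1) * B := by
  obtain ⟨W, hW, hWe⟩ := u7_abs (bx d T)
    (fun t => ∑ n ∈ range L, (∏ i ∈ univ.erase j, v i (S.val b n (iv t) i)) * f (S.val b n (iv t) j))
  rw [hWe]
  have hG := hvN (fun i m => if (Xs i : ℤ) ≤ m ∧ m ≤ 4 * Xs i then ((v i m / M : ℝ) : ℂ) else 0) W
    (fun i m => by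
      dsimp only
      split_ifs with h
      · rw [Complex.norm_real, Real.norm_eq_abs, abs_div, abs_of_pos hM, div_le_one hM]
        exact hv i m h.1 h.2
      · simp) hW
  have hMk : (0:ℝ) < M ^ (k - 1) := pow_pos hM _
  have hkey : ∑ t ∈ bx d T, W t * ((∑ n ∈ range L, (∏ i ∈ univ.erase j, v i (S.val b n (iv t) i)) *
      f (S.val b n (iv t) j) : ℝ) : ℂ) = ((M ^ (k - 1) : ℝ) : ℂ) * ∑ t ∈ bx d T, W t * ∑ n ∈ range L,
        (∏ i ∈ univ.erase j, (fun i (m : ℤ) => if (Xs i : ℤ) ≤ m ∧ m ≤ 4 * Xs i then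
          ((v i m / M : ℝ) : ℂ) else 0) i (S.val b n (iv t) i)) * F (S.val b n (iv t) j) := by
    rw [Finset.mul_sum]
    refine Finset.sum_congr rfl fun t ht => ?_
    rw [mul_left_comm, Finset.mul_sum, Complex.ofReal_sum]
    refine congrArg (fun z => W t * z) (Finset.sum_congr rfl fun n hn => ?_)
    have h1 : ∏ i ∈ univ.erase j, (fun i (m : ℤ) => if (Xs i : ℤ) ≤ m ∧ m ≤ 4 * Xs i then
          ((v i m / M : ℝ) : ℂ) else 0) i (S.val b n (iv t) i) =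
        ((∏ i ∈ univ.erase j, (v i (S.val b n (iv t) i) / M) : ℝ) : ℂ) := by
      rw [Complex.ofReal_prod]
      refine Finset.prod_congr rfl fun i _ => ?_
      have hm := Finset.mem_Ico.1 (hval i n hn t ht)
      have h2 : (Xs i : ℤ) ≤ S.val b n (iv t) i ∧ S.val b n (iv t) i ≤ 4 * Xs i := by
        constructor <;> omega
      dsimp only
      rw [if_pos h2]
    rw [h1, Finset.prod_div_distrib, Finset.prod_const, Finset.card_erase_of_mem (Finset.mem_univ j),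
      Finset.card_univ, Fintype.card_fin, hF]
    have hne : ((M ^ (k - 1) : ℝ) : ℂ) ≠ 0 := by
      exact_mod_cast hMk.ne'
    rw [Complex.ofReal_mul, Complex.ofReal_div]
    field_simp
  rw [hkey, norm_mul, Complex.norm_real, Real.norm_of_nonneg hMk.le]
  exact mul_le_mul_of_nonneg_left hG hMk.le

theorem u7_large (A c : ℝ) (hc : 0 < c) : ∃ X0 : ℕ, ∀ X : ℕ, X0 ≤ X → A ≤ (X : ℝ) ^ c := by
  have h := ((tendsto_rpow_atTop hc).comp tendsto_natCast_atTop_atTop).eventually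
    (Filter.eventually_ge_atTop A)
  obtain ⟨X0, h0⟩ := Filter.eventually_atTop.1 h
  exact ⟨X0, fun X hX => h0 X hX⟩


end Pool.Agent.H9U
end

-- from Lib.H9U.V1
section

/-!
# H9U, chunk V1 (M): the coefficients are frozen in cells
-/

open Finset

namespace Pool.Agent.H9U

open Pool.Agent.Lib.H68T (lp Lk PC p0 dQ)
open Pool.Agent.Lib.H18Q (gk KS Bc RegP SG)
open Pool.Agent.Lib.H59P (Ch bx)

theorem v1_cells {β : Type*} [AddCommMonoid β] (f : ℕ → β) (H M : ℕ) :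
    ∑ n ∈ range (M * H), f n = ∑ j ∈ range M, ∑ n ∈ Ico (j * H) (j * H + H), f n := by
  induction M with
  | zero => simp
  | succ M ih =>
    rw [Finset.sum_range_succ, ← ih, Finset.range_eq_Ico, Finset.range_eq_Ico,
      Finset.sum_Ico_consecutive f (Nat.zero_le (M * H)) (Nat.le_add_right (M * H) H), Nat.succ_mul]

theorem v1_lip (Q X : ℕ) (p : Ch) (hl : ∀ m : ℤ, (X : ℤ) ≤ m → m ≤ 4 * X →
    ‖Bc Q X p (m + 1) - Bc Q X p m‖ ≤ (Q : ℝ) ^ 3 / (2 * X))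
    (m : ℤ) (hm : (X : ℤ) ≤ m) (j : ℕ) (hj : m + j ≤ 4 * X) :
    ‖Bc Q X p (m + j) - Bc Q X p m‖ ≤ j * ((Q : ℝ) ^ 3 / (2 * X)) := by
  induction j with
  | zero => simp
  | succ j ih =>
    push_cast at hj ⊢
    have h1 := ih (by omega)
    have h2 := hl (m + j) (by omega) (by omega)
    have e : Bc Q X p (m + (j + 1)) - Bc Q X p m =
        (Bc Q X p (m + j + 1) - Bc Q X p (m + j)) + (Bc Q X p (m + j) - Bc Q X p m) := by
      rw [← add_assoc m]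
      ring
    rw [e]
    refine (norm_add_le _ _).trans ?_
    linarith

theorem v1_lip2 (Q X : ℕ) (p : Ch) (hl : ∀ m : ℤ, (X : ℤ) ≤ m → m ≤ 4 * X →
    ‖Bc Q X p (m + 1) - Bc Q X p m‖ ≤ (Q : ℝ) ^ 3 / (2 * X))
    (m m' : ℤ) (hm : (X : ℤ) ≤ m) (hm4 : m ≤ 4 * X) (hm' : (X : ℤ) ≤ m') (hm4' : m' ≤ 4 * X) (D : ℕ)
    (hD : |m' - m| ≤ D) :
    ‖Bc Q X p m' - Bc Q X p m‖ ≤ D * ((Q : ℝ) ^ 3 / (2 * X)) := by
  have hP : 0 ≤ (Q : ℝ) ^ 3 / (2 * X) := by positivity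
  rcases le_total m m' with h | h
  · have h1 := v1_lip Q X p hl m hm (m' - m).toNat (by omega)
    have e : m + ((m' - m).toNat : ℤ) = m' := by omega
    rw [e] at h1
    refine h1.trans (mul_le_mul_of_nonneg_right ?_ hP)
    have : (m' - m).toNat ≤ D := by
      have := (abs_le.1 hD).2
      omega
    exact_mod_cast this
  · have h1 := v1_lip Q X p hl m' hm' (m - m').toNat (by omega)
    have e : m' + ((m - m').toNat : ℤ) = m := by omega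
    rw [e, norm_sub_rev] at h1
    refine h1.trans (mul_le_mul_of_nonneg_right ?_ hP)
    have : (m - m').toNat ≤ D := by
      have := (abs_le.1 hD).1
      omega
    exact_mod_cast this

theorem v1_dQ (Q : ℕ) (m : ℤ) : dQ Q m ≤ Q := by
  unfold Pool.Agent.Lib.H68T.dQ
  have h : ((Icc 1 Q).filter (fun d : ℕ => (d : ℤ) ∣ m)).card ≤ Q := by
    refine (Finset.card_filter_le _ _).trans ?_
    rw [Nat.card_Icc]
    omega
  exact_mod_cast h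

/-- size of `SG` with crude constants -/
theorem v1_SG (Q : ℕ) (hQ : 1 ≤ Q) (B : Ch → ℂ) (mb : Ch → ℝ) (hB : ∀ p ∈ PC Q, ‖B p‖ ≤ mb p) (m : ℤ) (C : ℝ)
    (hC : ∑ p ∈ PC Q, mb p ≤ C) :
    ‖SG Q B m‖ ≤ 100 * (Q : ℝ) ^ 4 * C := by
  refine (Pool.Agent.Lib.H59P.S1b Q hQ B mb hB m).trans ?_
  have hQ1 : (1 : ℝ) ≤ Q := by exact_mod_cast hQ
  have hlog : 0 ≤ Real.log Q := Real.log_nonneg hQ1
  have hlog2 : Real.log Q ≤ Q - 1 := Real.log_le_sub_one_of_pos (by linarith)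
  have h1 : (1 + Real.log Q) ^ 3 ≤ (Q : ℝ) ^ 3 := pow_le_pow_left₀ (by linarith) (by linarith) 3
  have h2 := v1_dQ Q m
  have h3 : 0 ≤ dQ Q m := by
    unfold Pool.Agent.Lib.H68T.dQ
    positivity
  have h4 : 0 ≤ ∑ p ∈ PC Q, mb p := Finset.sum_nonneg fun p hp => (norm_nonneg _).trans (hB p hp)
  have h5 : 0 ≤ (1 + Real.log Q) ^ 3 := by positivity
  calc 100 * (1 + Real.log Q) ^ 3 * dQ Q m * ∑ p ∈ PC Q, mb p
      ≤ 100 * (1 + Real.log Q) ^ 3 * dQ Q m * C := mul_le_mul_of_nonneg_left hC (by positivity)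
    _ ≤ 100 * (Q : ℝ) ^ 3 * Q * C := by
        refine mul_le_mul_of_nonneg_right ?_ (h4.trans hC)
        refine mul_le_mul ?_ h2 h3 (by positivity)
        exact mul_le_mul_of_nonneg_left h1 (by norm_num)
    _ = 100 * (Q : ℝ) ^ 4 * C := by ring

/-- Proof. `Lk_two`: `Lk Q' (X_i/Q²) m = SG Q' (Bc Q X_i · m) m` for `m = val n t i ∈ [X_i, 4X_i]`. `UM_mass` for `(Q, X_i)`: bounds `mb` of total size
at most `C` (also over the subset `PC Q' ⊆ PC Q`). `S1b` (`H59P/S1B.lean`): `‖SG Q' c m‖ ≤ Z := 100 (1+log Q')^3 Q' C` (`dQ Q' m ≤ Q'`), and for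
`n` in the cell of `j H`: the difference of the two factors is `SG Q'` of `Bc Q X_i p (val n) - Bc Q X_i p (val (jH))`, where
`|val n - val (jH)| ≤ |a_i| H`, so by `Bc_lip` (`H18Q/CL1.lean`, induction over the steps) at most `|a_i| H Q³/(2 X_i) ≤ |a_i| Q^(-5)` for each of the at most
`Q'^2` characters (`card_PC_le`); `v1b_prod` (`H59P/V1B.lean`) for the product. The total over `n < L ≤ C0 X` is at most
`C0 X · k · max|a_i| Q'^2 Z^k Q^(-5) · 100(1+log Q')^3 Q'`; the rest `n ≥ (L/H) H` has at most `H ≤ X Q^(-8)` elements, at most `Z^k` each.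
`Q'^(20 (k+1)) ≤ Q` and `Q ≥ Q0`. -/
theorem V1S {k d : ℕ} (S : Sys k d) : ∃ K : ℝ, 1 ≤ K ∧ ∀ C0 : ℕ, ∃ Q0 : ℕ, ∀ Q Q' X H L : ℕ, Q0 ≤ Q → 1 ≤ Q' →
    Q' ^ (20 * (k + 1)) ≤ Q → 1 ≤ H → H * Q ^ 8 ≤ X → L ≤ C0 * X → ∀ Xs : Fin k → ℕ, (∀ i, X ≤ Xs i) →
    (∀ i, RegP K Q (Xs i)) → ∀ (b : Fin k → ℤ) (t : Fin d → ℤ),
    (∀ i, ∀ n ∈ range L, (Xs i : ℤ) ≤ S.val b n t i ∧ S.val b n t i ≤ 4 * Xs i) →
    ‖((∑ n ∈ range L, ∏ i, Lk Q' (Xs i / Q ^ 2) (S.val b n t i) : ℝ) : ℂ) -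
      ∑ j ∈ range (L / H), ∑ n ∈ Ico (j * H) (j * H + H),
        ∏ i, SG Q' (fun p => Bc Q (Xs i) p (S.val b ((j * H : ℕ) : ℤ) t i)) (S.val b n t i)‖ ≤ X / Q := by
  obtain ⟨K1, hK1, hLk⟩ := Lk_two
  obtain ⟨K2, C, hK2, hC, hmass⟩ := Pool.Agent.Lib.H59T.UM_mass
  obtain ⟨K3, hK3, hlip⟩ := Pool.Agent.Lib.H18Q.Bc_lip
  obtain ⟨A, hA⟩ : ∃ A : ℕ, ∀ i, |S.a i| ≤ A := by
    refine ⟨∑ i, (S.a i).natAbs, fun i => ?_⟩
    rw [Int.abs_eq_natAbs]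
    have := Finset.single_le_sum (f := fun i => (S.a i).natAbs) (fun _ _ => Nat.zero_le _) (Finset.mem_univ i)
    exact_mod_cast this
  refine ⟨max (max K1 K2) K3, hK1.trans ((le_max_left _ _).trans (le_max_left _ _)), fun C0 => ?_⟩
  have hK0 : 0 ≤ max (max K1 K2) K3 :=
    zero_le_one.trans (hK1.trans ((le_max_left _ _).trans (le_max_left _ _)))
  obtain ⟨W, hW⟩ : ∃ W : ℝ, W = (C0 * k * (50 * A) + 1) * (100 * C) ^ k := ⟨_, rfl⟩
  refine ⟨⌈W⌉₊ + 1, fun Q Q' X H L hQ0 hQ' hQQ hH hHX hL Xs hXs hreg b t hval => ?_⟩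
  have hWQ : W ≤ Q := by
    have h1 : W ≤ ⌈W⌉₊ := Nat.le_ceil W
    have h2 : ((⌈W⌉₊ + 1 : ℕ) : ℝ) ≤ Q := by exact_mod_cast hQ0
    push_cast at h2
    linarith
  have hQ1 : 1 ≤ Q := by omega
  have hQ1r : (1 : ℝ) ≤ Q := by exact_mod_cast hQ1
  have hQp : (0 : ℝ) < Q := by linarith
  have hQ'r : (1 : ℝ) ≤ Q' := by exact_mod_cast hQ'
  have hQ'Q : Q' ≤ Q := by
    refine le_trans ?_ hQQ
    exact Nat.le_self_pow (by omega) Q'
  have hHr : (1 : ℝ) ≤ H := by exact_mod_cast hH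
  have hHXr : (H : ℝ) * (Q : ℝ) ^ 8 ≤ X := by exact_mod_cast hHX
  have hXp : (0 : ℝ) < X := lt_of_lt_of_le (by positivity) hHXr
  have hsub : PC Q' ⊆ PC Q := by
    intro p hp
    obtain ⟨a, b, c⟩ := Pool.Agent.Lib.H68T.mem_PC.1 hp
    exact Pool.Agent.Lib.H68T.mem_PC.2 ⟨a, b.trans hQ'Q, c⟩
  have hC0' : 0 ≤ C := by linarith
  obtain ⟨Z, hZ⟩ : ∃ Z : ℝ, Z = 100 * (Q' : ℝ) ^ 4 * C := ⟨_, rfl⟩
  have hQ'4 : (1 : ℝ) ≤ (Q' : ℝ) ^ 4 := one_le_pow₀ hQ'r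
  have hZ1 : 1 ≤ Z := by
    rw [hZ]
    nlinarith
  have hZ0 : 0 ≤ Z := by linarith
  -- the factors
  have hfac : ∀ i, ∀ m m' : ℤ, (Xs i : ℤ) ≤ m → m ≤ 4 * Xs i →
      ‖SG Q' (fun p => Bc Q (Xs i) p m) m'‖ ≤ Z := by
    intro i m m' hm hm4
    obtain ⟨mb, hmb0, hmbs, hmb⟩ := hmass Q (Xs i)
      ((hreg i).mono hK0 ((le_max_right _ _).trans (le_max_left _ _)))
    rw [hZ]
    exact v1_SG Q' hQ' _ mb (fun p hp => hmb m hm hm4 p (hsub hp)) m' C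
      ((Finset.sum_le_sum_of_subset_of_nonneg hsub fun p hp _ => hmb0 p hp).trans hmbs)
  have hL1 : ∀ n ∈ range L, ((∏ i, Lk Q' (Xs i / Q ^ 2) (S.val b n t i) : ℝ) : ℂ) =
      ∏ i, SG Q' (fun p => Bc Q (Xs i) p (S.val b n t i)) (S.val b n t i) := by
    intro n hn
    rw [Complex.ofReal_prod]
    refine Finset.prod_congr rfl fun i _ => ?_
    exact hLk Q Q' (Xs i) ((hreg i).mono hK0 ((le_max_left _ _).trans (le_max_left _ _))) hQ' hQ'Q _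
      (hval i n hn).1 (hval i n hn).2
  obtain ⟨M, hM⟩ : ∃ M, M = L / H := ⟨_, rfl⟩
  have hMH : M * H ≤ L := by
    rw [hM]
    exact Nat.div_mul_le_self L H
  have hrest : L - M * H ≤ H := by
    have h1 := Nat.div_add_mod' L H
    have h2 := Nat.mod_lt L (show 0 < H by omega)
    rw [← hM] at h1
    omega
  rw [← hM, Complex.ofReal_sum, Finset.sum_congr rfl hL1, ← Finset.sum_range_add_sum_Ico _ hMH,
    v1_cells _ H M]
  -- the main difference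
  obtain ⟨δ, hδ⟩ : ∃ δ : ℝ, δ = 100 * (Q' : ℝ) ^ 4 * ((Q' : ℝ) ^ 2 * (A / (2 * (Q : ℝ) ^ 5))) := ⟨_, rfl⟩
  have hδ0 : 0 ≤ δ := by
    rw [hδ]
    positivity
  have hcell : ∀ j ∈ range M, ∀ n ∈ Ico (j * H) (j * H + H),
      ‖∏ i, SG Q' (fun p => Bc Q (Xs i) p (S.val b n t i)) (S.val b n t i) -
        ∏ i, SG Q' (fun p => Bc Q (Xs i) p (S.val b ((j * H : ℕ) : ℤ) t i)) (S.val b n t i)‖ ≤
      k * δ * Z ^ k := by
    intro j hj n hn
    rw [mem_range] at hj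
    rw [mem_Ico] at hn
    have hjH : j * H + H ≤ M * H := by
      calc j * H + H = (j + 1) * H := by ring
        _ ≤ M * H := Nat.mul_le_mul_right H hj
    have hnL : n ∈ range L := by
      rw [mem_range]
      omega
    have hjL : j * H ∈ range L := by
      rw [mem_range]
      omega
    have key := Pool.Agent.Lib.H59P.v1b_prod (Finset.univ : Finset (Fin k))
      (fun i => SG Q' (fun p => Bc Q (Xs i) p (S.val b n t i)) (S.val b n t i))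
      (fun i => SG Q' (fun p => Bc Q (Xs i) p (S.val b ((j * H : ℕ) : ℤ) t i)) (S.val b n t i))
      (fun _ => Z) δ hδ0 (fun _ => hZ0)
      (fun i _ => hfac i _ _ (hval i n hnL).1 (hval i n hnL).2)
      (fun i _ => hfac i _ _ (hval i (j * H) hjL).1 (hval i (j * H) hjL).2)
      (fun i _ => ?_)
    · rw [Finset.prod_const, Finset.card_univ, Fintype.card_fin] at key
      exact key
    · rw [Pool.Agent.Lib.H59P.v1b_sub]
      have hXi : (X : ℝ) ≤ Xs i := by exact_mod_cast hXs i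
      have hd : |S.val b n t i - S.val b ((j * H : ℕ) : ℤ) t i| ≤ ((A * H : ℕ) : ℤ) := by
        have e : S.val b n t i - S.val b ((j * H : ℕ) : ℤ) t i = S.a i * ((n : ℤ) - ((j * H : ℕ) : ℤ)) := by
          unfold Sys.val Sys.lin
          ring
        rw [e, abs_mul, Nat.cast_mul]
        have h1 : |(n : ℤ) - ((j * H : ℕ) : ℤ)| ≤ H := by
          rw [abs_le]
          constructor
          · omega
          · omega
        exact mul_le_mul (hA i) h1 (abs_nonneg _) (by positivity)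
      have h1 : ∀ p ∈ PC Q', ‖Bc Q (Xs i) p (S.val b n t i) - Bc Q (Xs i) p (S.val b ((j * H : ℕ) : ℤ) t i)‖ ≤
          A / (2 * (Q : ℝ) ^ 5) := by
        intro p _
        refine (v1_lip2 Q (Xs i) p (fun m hm hm4 => hlip Q (Xs i) ((hreg i).mono hK0 (le_max_right _ _)) p m hm hm4)
          _ _ (hval i (j * H) hjL).1 (hval i (j * H) hjL).2 (hval i n hnL).1 (hval i n hnL).2 (A * H) hd).trans ?_
        have h2 : (Q : ℝ) ^ 3 / (2 * (Xs i : ℝ)) ≤ (Q : ℝ) ^ 3 / (2 * (H * (Q : ℝ) ^ 8)) := by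
          apply div_le_div_of_nonneg_left (by positivity) (by positivity)
          linarith
        push_cast
        calc (A : ℝ) * H * ((Q : ℝ) ^ 3 / (2 * (Xs i : ℝ))) ≤ A * H * ((Q : ℝ) ^ 3 / (2 * (H * (Q : ℝ) ^ 8))) :=
              mul_le_mul_of_nonneg_left h2 (by positivity)
          _ = A / (2 * (Q : ℝ) ^ 5) := by
              have : (H : ℝ) ≠ 0 := by positivity
              field_simp
      refine (v1_SG Q' hQ' _ (fun _ => A / (2 * (Q : ℝ) ^ 5)) h1 _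
        ((Q' : ℝ) ^ 2 * (A / (2 * (Q : ℝ) ^ 5))) ?_).trans ?_
      · rw [Finset.sum_const, nsmul_eq_mul]
        refine mul_le_mul_of_nonneg_right ?_ (by positivity)
        exact_mod_cast Pool.Agent.Lib.H68T.card_PC_le Q'
      · rw [← hδ]
        exact le_mul_of_one_le_right hδ0 hZ1
  have hmain : ‖(∑ j ∈ range M, ∑ n ∈ Ico (j * H) (j * H + H),
        ∏ i, SG Q' (fun p => Bc Q (Xs i) p (S.val b n t i)) (S.val b n t i)) -
      ∑ j ∈ range M, ∑ n ∈ Ico (j * H) (j * H + H),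
        ∏ i, SG Q' (fun p => Bc Q (Xs i) p (S.val b ((j * H : ℕ) : ℤ) t i)) (S.val b n t i)‖ ≤
      (M * H : ℕ) * (k * δ * Z ^ k) := by
    rw [← Finset.sum_sub_distrib]
    refine (norm_sum_le _ _).trans ?_
    have h1 : ∀ j ∈ range M, ‖(∑ n ∈ Ico (j * H) (j * H + H),
        ∏ i, SG Q' (fun p => Bc Q (Xs i) p (S.val b n t i)) (S.val b n t i)) -
      ∑ n ∈ Ico (j * H) (j * H + H),
        ∏ i, SG Q' (fun p => Bc Q (Xs i) p (S.val b ((j * H : ℕ) : ℤ) t i)) (S.val b n t i)‖ ≤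
        H * (k * δ * Z ^ k) := by
      intro j hj
      rw [← Finset.sum_sub_distrib]
      refine (norm_sum_le _ _).trans ((Finset.sum_le_sum (hcell j hj)).trans ?_)
      rw [Finset.sum_const, nsmul_eq_mul, Nat.card_Ico, Nat.add_sub_cancel_left]
    refine (Finset.sum_le_sum h1).trans ?_
    rw [Finset.sum_const, nsmul_eq_mul, Finset.card_range]
    push_cast
    exact le_of_eq (by ring)
  have hrst : ‖∑ n ∈ Ico (M * H) L, ∏ i, SG Q' (fun p => Bc Q (Xs i) p (S.val b n t i)) (S.val b n t i)‖ ≤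
      H * Z ^ k := by
    refine (norm_sum_le _ _).trans ?_
    have h1 : ∀ n ∈ Ico (M * H) L, ‖∏ i, SG Q' (fun p => Bc Q (Xs i) p (S.val b n t i)) (S.val b n t i)‖ ≤ Z ^ k := by
      intro n hn
      rw [mem_Ico] at hn
      have hnL : n ∈ range L := mem_range.2 hn.2
      rw [norm_prod]
      refine (Finset.prod_le_prod (fun i _ => norm_nonneg _)
        (fun i _ => hfac i _ _ (hval i n hnL).1 (hval i n hnL).2)).trans ?_
      rw [Finset.prod_const, Finset.card_univ, Fintype.card_fin]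
    refine (Finset.sum_le_sum h1).trans ?_
    rw [Finset.sum_const, nsmul_eq_mul, Nat.card_Ico]
    refine mul_le_mul_of_nonneg_right ?_ (by positivity)
    exact_mod_cast hrest
  have htot : ‖(∑ j ∈ range M, ∑ n ∈ Ico (j * H) (j * H + H),
        ∏ i, SG Q' (fun p => Bc Q (Xs i) p (S.val b n t i)) (S.val b n t i)) +
      (∑ n ∈ Ico (M * H) L, ∏ i, SG Q' (fun p => Bc Q (Xs i) p (S.val b n t i)) (S.val b n t i)) -
      ∑ j ∈ range M, ∑ n ∈ Ico (j * H) (j * H + H),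
        ∏ i, SG Q' (fun p => Bc Q (Xs i) p (S.val b ((j * H : ℕ) : ℤ) t i)) (S.val b n t i)‖ ≤
      (M * H : ℕ) * (k * δ * Z ^ k) + H * Z ^ k := by
    rw [add_sub_right_comm]
    exact (norm_add_le _ _).trans (add_le_add hmain hrst)
  refine htot.trans ?_
  -- numerics
  have hMHr : ((M * H : ℕ) : ℝ) ≤ C0 * X := by exact_mod_cast hMH.trans hL
  have hZk : Z ^ k = (100 * C) ^ k * (Q' : ℝ) ^ (4 * k) := by
    rw [hZ, pow_mul, ← mul_pow]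
    congr 1
    ring
  have hq1 : (Q' : ℝ) ^ (4 * k + 6) ≤ Q := by
    have h1 : Q' ^ (4 * k + 6) ≤ Q := (Nat.pow_le_pow_right hQ' (by omega)).trans hQQ
    exact_mod_cast h1
  have hq2 : (Q' : ℝ) ^ (4 * k) ≤ Q := by
    have h1 : Q' ^ (4 * k) ≤ Q := (Nat.pow_le_pow_right hQ' (by omega)).trans hQQ
    exact_mod_cast h1
  have hHle : (H : ℝ) ≤ X / (Q : ℝ) ^ 8 := by
    rw [le_div_iff₀ (by positivity)]
    exact hHXr
  have t1 : (M * H : ℕ) * (k * δ * Z ^ k) ≤ C0 * k * (50 * A) * (100 * C) ^ k * (X / (Q : ℝ) ^ 4) := by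
    calc ((M * H : ℕ) : ℝ) * (k * δ * Z ^ k) ≤ C0 * X * (k * δ * Z ^ k) :=
          mul_le_mul_of_nonneg_right hMHr (by positivity)
      _ = C0 * k * (50 * A) * (100 * C) ^ k * (X / (Q : ℝ) ^ 5) * (Q' : ℝ) ^ (4 * k + 6) := by
          rw [hδ, hZk]
          field_simp
          ring
      _ ≤ C0 * k * (50 * A) * (100 * C) ^ k * (X / (Q : ℝ) ^ 5) * Q := by
          refine mul_le_mul_of_nonneg_left hq1 (by positivity)
      _ = C0 * k * (50 * A) * (100 * C) ^ k * (X / (Q : ℝ) ^ 4) := by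
          field_simp
  have t2 : H * Z ^ k ≤ 1 * (100 * C) ^ k * (X / (Q : ℝ) ^ 4) := by
    calc H * Z ^ k ≤ X / (Q : ℝ) ^ 8 * Z ^ k := mul_le_mul_of_nonneg_right hHle (by positivity)
      _ = 1 * (100 * C) ^ k * (X / (Q : ℝ) ^ 8) * (Q' : ℝ) ^ (4 * k) := by
          rw [hZk]
          ring
      _ ≤ 1 * (100 * C) ^ k * (X / (Q : ℝ) ^ 8) * Q := by
          refine mul_le_mul_of_nonneg_left hq2 (by positivity)
      _ = 1 * (100 * C) ^ k * (X / (Q : ℝ) ^ 7) := by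
          field_simp
      _ ≤ 1 * (100 * C) ^ k * (X / (Q : ℝ) ^ 4) := by
          refine mul_le_mul_of_nonneg_left ?_ (by positivity)
          apply div_le_div_of_nonneg_left hXp.le (by positivity)
          exact pow_le_pow_right₀ hQ1r (by norm_num)
  calc ((M * H : ℕ) : ℝ) * (k * δ * Z ^ k) + H * Z ^ k
      ≤ W * (X / (Q : ℝ) ^ 4) := by
        rw [hW]
        linarith
    _ ≤ Q * (X / (Q : ℝ) ^ 4) := mul_le_mul_of_nonneg_right hWQ (by positivity)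
    _ = X / (Q : ℝ) ^ 3 := by
        field_simp
    _ ≤ X / Q := by
        apply div_le_div_of_nonneg_left hXp.le hQp
        exact le_self_pow₀ hQ1r (by norm_num)

end Pool.Agent.H9U
end

-- from Lib.H9U.Z2
section

/-!
# H9U, chunk Z2 (S/M): one cell
-/

open Finset

namespace Pool.Agent.H9U

open Pool.Agent.Lib.H68T (PC p0)
open Pool.Agent.Lib.H18Q (gk KS SG)
open Pool.Agent.Lib.H59P (Ch SF bx TS Rp)

/-- Proof. As `Z2b` (`H59P/Z2B.lean`, `z2b_dec`), in `ℓ¹`: by `Z1S` (`M2.lean`) the difference is `∑_p (∏ c_i(p_i)) f_p(t)` over all tuples `p`, `f_p(t)` the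
difference of `Z1S_both` for `p ∈ TS`, the sum for `p ∉ TS`; `‖∏ c_i(p_i)‖ ≤ ∏ mb i (p_i)`, `∑_p ∏ mb i (p_i) = ∏_i ∑_p mb i p ≤ M^k`
(`Finset.prod_univ_sum`); exchange the sums over `t` and `p`. -/
theorem Z2S {k d : ℕ} (S : Sys k d) (hL : LBig S) : ∃ c C : ℝ, 0 < c ∧ 1 ≤ C ∧
    ∀ (Q D D1 D2 : ℕ) (px : Ch), 1 ≤ D2 → px.1 * D2 ≤ D1 → D1 ≤ D → D ≤ Q → px ∈ PC Q →
    ∀ (b : Fin k → ℤ) (a H T : ℕ), Q ^ (10 * (k + 1)) ≤ H → Q ^ (10 * (k + 1)) ≤ T →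
    (∀ t ∈ bx d T, ∀ n ∈ Ico a (a + H), ∀ i, 0 ≤ S.val b n (iv t) i) →
    ∀ (M : ℝ) (mb : Fin k → Ch → ℝ), 1 ≤ M → (∀ i, ∀ p ∈ PC Q, 0 ≤ mb i p) → (∀ i, ∑ p ∈ PC Q, mb i p ≤ M) →
    ∀ c' : (Fin d → ℕ) → Fin k → Ch → ℂ, (∀ t ∈ bx d T, ∀ i, ∀ p ∈ PC Q, ‖c' t i p‖ ≤ mb i p) →
    ∑ t ∈ bx d T, ‖∑ n ∈ Ico a (a + H), ∏ i, SG Q (c' t i) (S.val b n (iv t) i) -
        H * MCS S b (iv t) Q D D1 px (c' t)‖ ≤
      M ^ k * (C * (1 + Real.log Q) ^ C * ((T : ℝ) ^ d * H) * (D2 : ℝ) ^ (-c)) := by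
  classical
  obtain ⟨c, C, hc, hC, hmain⟩ := Z1S_both S hL
  refine ⟨c, C, hc, hC, ?_⟩
  intro Q D D1 D2 px h1 h2 h3 h4 hpx b a H T hH hT hpos M mb hM hmb hmbM c' hc'
  have hmain' := hmain Q D D1 D2 px h1 h2 h3 h4 hpx b a H T hH hT hpos
  obtain ⟨B, hB⟩ : ∃ B : ℝ, B = C * (1 + Real.log Q) ^ C * ((T : ℝ) ^ d * H) * (D2 : ℝ) ^ (-c) := ⟨_, rfl⟩
  rw [← hB] at hmain' ⊢
  have hB0 : 0 ≤ B := by
    have e1 : 0 ≤ Real.log Q := Real.log_natCast_nonneg Q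
    have e2 : 0 ≤ (1 + Real.log Q) ^ C := Real.rpow_nonneg (by linarith) _
    have e3 : (0 : ℝ) ≤ (D2 : ℝ) ^ (-c) := Real.rpow_nonneg (Nat.cast_nonneg _) _
    have e4 : (0 : ℝ) ≤ (T : ℝ) ^ d * H := mul_nonneg (pow_nonneg (Nat.cast_nonneg _) _) (Nat.cast_nonneg _)
    rw [hB]
    exact mul_nonneg (mul_nonneg (mul_nonneg (by linarith) e2) e4) e3
  obtain ⟨g, hg⟩ : ∃ g : (Fin k → Ch) → (Fin d → ℕ) → ℂ, ∀ p t, g p t = (∑ n ∈ Ico a (a + H),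
      ∑ κ ∈ Fintype.piFinset fun i => KS Q (p i).1, ∏ i, gk (p i) (κ i) (S.val b n (iv t) i)) -
      (if p ∈ TS k Q D1 px then H * (MRS S b (iv t) p (Rp px p) *
        ((∑ e ∈ SF (D / Rp px p) (Rp px p), tdS S b (iv t) e : ℝ) : ℂ)) else 0) := ⟨fun p t => _, fun p t => rfl⟩
  have hsub : TS k Q D1 px ⊆ Fintype.piFinset fun _ : Fin k => PC Q := by
    unfold TS
    exact Finset.filter_subset _ _
  have key : ∀ t ∈ bx d T, ∑ n ∈ Ico a (a + H), ∏ i, SG Q (c' t i) (S.val b n (iv t) i) -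
      H * MCS S b (iv t) Q D D1 px (c' t) =
      ∑ p ∈ Fintype.piFinset fun _ : Fin k => PC Q, (∏ i, c' t i (p i)) * g p t := by
    intro t ht
    have e1 : ∑ n ∈ Ico a (a + H), ∏ i, SG Q (c' t i) (S.val b n (iv t) i) =
        ∑ p ∈ Fintype.piFinset fun _ : Fin k => PC Q, (∏ i, c' t i (p i)) *
          ∑ n ∈ Ico a (a + H), ∑ κ ∈ Fintype.piFinset fun i => KS Q (p i).1,
            ∏ i, gk (p i) (κ i) (S.val b n (iv t) i) := by
      rw [Finset.sum_congr rfl fun (n : ℕ) hn => Z1S Q (c' t) (fun i => S.val b n (iv t) i) (hpos t ht n hn),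
        Finset.sum_comm]
      refine Finset.sum_congr rfl fun p _ => ?_
      rw [Finset.mul_sum]
    have e2 : (H : ℂ) * MCS S b (iv t) Q D D1 px (c' t) = ∑ p ∈ Fintype.piFinset fun _ : Fin k => PC Q,
        (∏ i, c' t i (p i)) * (if p ∈ TS k Q D1 px then H * (MRS S b (iv t) p (Rp px p) *
        ((∑ e ∈ SF (D / Rp px p) (Rp px p), tdS S b (iv t) e : ℝ) : ℂ)) else 0) := by
      simp only [mul_ite, mul_zero]
      rw [← Finset.sum_filter, Finset.filter_mem_eq_inter, Finset.inter_eq_right.mpr hsub]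
      unfold MCS
      rw [Finset.mul_sum]
      refine Finset.sum_congr rfl fun p _ => ?_
      ring
    rw [e1, e2, ← Finset.sum_sub_distrib]
    refine Finset.sum_congr rfl fun p _ => ?_
    rw [hg, mul_sub]
  have hgB : ∀ p ∈ Fintype.piFinset (fun _ : Fin k => PC Q), ∑ t ∈ bx d T, ‖g p t‖ ≤ B := by
    intro p hp
    have hp' : ∀ i, p i ∈ PC Q := fun i => Fintype.mem_piFinset.mp hp i
    by_cases hpT : p ∈ TS k Q D1 px
    · have e := (hmain' p hp').1 hpT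
      refine le_trans (le_of_eq (Finset.sum_congr rfl fun t _ => ?_)) e
      rw [hg, if_pos hpT]
    · have e := (hmain' p hp').2 hpT
      refine le_trans (le_of_eq (Finset.sum_congr rfl fun t _ => ?_)) e
      rw [hg, if_neg hpT, sub_zero]
  have hmbP : ∀ p ∈ Fintype.piFinset (fun _ : Fin k => PC Q), 0 ≤ ∏ i, mb i (p i) := fun p hp =>
    Finset.prod_nonneg fun i _ => hmb i _ (Fintype.mem_piFinset.mp hp i)
  have hsum : ∑ p ∈ Fintype.piFinset fun _ : Fin k => PC Q, ∏ i, mb i (p i) ≤ M ^ k := by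
    rw [← Finset.prod_univ_sum]
    have e2 : ∏ i : Fin k, ∑ p ∈ PC Q, mb i p ≤ ∏ _i : Fin k, M :=
      Finset.prod_le_prod (fun i _ => Finset.sum_nonneg fun p hp => hmb i p hp) (fun i _ => hmbM i)
    simpa using e2
  calc ∑ t ∈ bx d T, ‖∑ n ∈ Ico a (a + H), ∏ i, SG Q (c' t i) (S.val b n (iv t) i) -
        H * MCS S b (iv t) Q D D1 px (c' t)‖
      ≤ ∑ t ∈ bx d T, ∑ p ∈ Fintype.piFinset fun _ : Fin k => PC Q, (∏ i, mb i (p i)) * ‖g p t‖ := by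
        refine Finset.sum_le_sum fun t ht => ?_
        rw [key t ht]
        refine (norm_sum_le _ _).trans (Finset.sum_le_sum fun p hp => ?_)
        rw [norm_mul, norm_prod]
        refine mul_le_mul_of_nonneg_right ?_ (norm_nonneg _)
        exact Finset.prod_le_prod (fun i _ => norm_nonneg _)
          (fun i _ => hc' t ht i _ (Fintype.mem_piFinset.mp hp i))
    _ = ∑ p ∈ Fintype.piFinset fun _ : Fin k => PC Q, (∏ i, mb i (p i)) * ∑ t ∈ bx d T, ‖g p t‖ := by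
        rw [Finset.sum_comm]
        refine Finset.sum_congr rfl fun p _ => ?_
        rw [Finset.mul_sum]
    _ ≤ ∑ p ∈ Fintype.piFinset fun _ : Fin k => PC Q, (∏ i, mb i (p i)) * B :=
        Finset.sum_le_sum fun p hp => mul_le_mul_of_nonneg_left (hgB p hp) (hmbP p hp)
    _ ≤ M ^ k * B := by
        rw [← Finset.sum_mul]
        exact mul_le_mul_of_nonneg_right hsum hB0

end Pool.Agent.H9U
end

-- from Lib.H9U.Z4A
section

/-!
# H9U, chunk Z4A (M): the sum over `n` against the main terms of all cells, on average over `t`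
-/

open Finset

namespace Pool.Agent.H9U

open Pool.Agent.Lib.H68T (lp Lk PC p0)
open Pool.Agent.Lib.H18Q (gk KS SG Bc RegP)
open Pool.Agent.Lib.H59P (Ch SF bx TS Rp MX pr)

theorem z4a_card (d T : ℕ) : (bx d T).card = T ^ d := by
  unfold bx
  rw [Fintype.card_piFinset, Finset.prod_const, Finset.card_univ, Fintype.card_fin, Finset.card_range]

theorem z4a_sum {ι κ : Type*} (s : Finset ι) (J : Finset κ) (f g : κ → ι → ℂ) (B : ℝ)
    (h : ∀ j ∈ J, ∑ t ∈ s, ‖f j t - g j t‖ ≤ B) :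
    ∑ t ∈ s, ‖∑ j ∈ J, f j t - ∑ j ∈ J, g j t‖ ≤ J.card * B := by
  calc ∑ t ∈ s, ‖∑ j ∈ J, f j t - ∑ j ∈ J, g j t‖ ≤ ∑ t ∈ s, ∑ j ∈ J, ‖f j t - g j t‖ := by
        refine Finset.sum_le_sum fun t _ => ?_
        rw [← Finset.sum_sub_distrib]
        exact norm_sum_le _ _
    _ = ∑ j ∈ J, ∑ t ∈ s, ‖f j t - g j t‖ := Finset.sum_comm
    _ ≤ J.card * B := by
        refine le_trans (Finset.sum_le_sum h) ?_
        rw [Finset.sum_const, nsmul_eq_mul]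

theorem z4a_second (d C0 X Q T : ℕ) (Cr : ℝ) (hX : 1 ≤ X) (hT : T ≤ C0 * X)
    (hQ : (X : ℝ) ^ (1 / Cr) ≤ Q) :
    (T : ℝ) ^ d * ((X : ℝ) / Q) ≤ (C0 : ℝ) ^ d * (X : ℝ) ^ (1 + d - 1 / Cr) := by
  have hX0 : (0:ℝ) < X := by exact_mod_cast hX
  have hp : (0:ℝ) < (X : ℝ) ^ (1 / Cr) := Real.rpow_pos_of_pos hX0 _
  have hTr : (T : ℝ) ≤ (C0 : ℝ) * X := by exact_mod_cast hT
  have h1 : (T : ℝ) ^ d ≤ (C0 : ℝ) ^ d * (X : ℝ) ^ d := by
    rw [← mul_pow]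
    exact pow_le_pow_left₀ (Nat.cast_nonneg _) hTr d
  have h2 : (X : ℝ) / Q ≤ (X : ℝ) / (X : ℝ) ^ (1 / Cr) := div_le_div_of_nonneg_left hX0.le hp hQ
  have h3 : (X : ℝ) ^ (1 + (d:ℝ) - 1 / Cr) = (X : ℝ) ^ d * ((X : ℝ) / (X : ℝ) ^ (1 / Cr)) := by
    rw [Real.rpow_sub hX0, Real.rpow_add hX0, Real.rpow_one, Real.rpow_natCast]
    ring
  rw [h3, ← mul_assoc]
  exact mul_le_mul h1 h2 (by positivity) (by positivity)

theorem z4a_log (C e : ℝ) (hC : 1 ≤ C) (he : 0 < e) (Q' X : ℕ) (hQ : 1 ≤ Q') (hQX : Q' ≤ X) :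
    (1 + Real.log Q') ^ C ≤ (1 + C / e) ^ C * (X : ℝ) ^ e := by
  have hX1 : (1:ℝ) ≤ X := by exact_mod_cast le_trans hQ hQX
  have hX0 : (0:ℝ) < X := by linarith
  have hC0 : 0 < C := by linarith
  have h6 : Real.log Q' ≤ Real.log X :=
      Real.log_le_log (by exact_mod_cast hQ) (by exact_mod_cast hQX)
  have h7 : Real.log X ≤ (X:ℝ) ^ (e / C) / (e / C) := Real.log_le_rpow_div hX0.le (by positivity)
  have h8 : (X:ℝ) ^ (e / C) / (e / C) = C / e * (X:ℝ) ^ (e / C) := by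
    field_simp
  have h9 : (1:ℝ) ≤ (X:ℝ) ^ (e / C) := Real.one_le_rpow hX1 (by positivity)
  have h10 : 1 + Real.log Q' ≤ (1 + C / e) * (X:ℝ) ^ (e / C) := by
    rw [h8] at h7
    have : 0 < C / e := by positivity
    nlinarith
  have hl0 : 0 ≤ Real.log Q' := Real.log_natCast_nonneg Q'
  have h11 : ((X:ℝ) ^ (e / C)) ^ C = (X:ℝ) ^ e := by
    rw [← Real.rpow_mul hX0.le, div_mul_cancel₀ _ hC0.ne']
  calc (1 + Real.log Q') ^ C ≤ ((1 + C / e) * (X:ℝ) ^ (e / C)) ^ C :=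
        Real.rpow_le_rpow (by linarith) h10 hC0.le
    _ = (1 + C / e) ^ C * (X : ℝ) ^ e := by
        rw [Real.mul_rpow (by positivity) (by positivity), h11]

theorem z4a_third (k d C0 : ℕ) (c C CM θ δ3 : ℝ) (hc : 0 < c) (hC : 1 ≤ C) (hCM : 1 ≤ CM) (hθ : 0 < θ)
    (hδ : 0 < δ3) (X Q' T L H D2 : ℕ) (hQ' : 1 ≤ Q') (hQX : Q' ≤ X) (hT : T ≤ C0 * X)
    (hL : L ≤ C0 * X) (hlow : (X : ℝ) ^ θ ≤ Q') (hD2 : (Q' : ℝ) ^ δ3 ≤ D2) :
    ((L / H : ℕ) : ℝ) * (CM ^ k * (C * (1 + Real.log Q') ^ C * ((T : ℝ) ^ d * H) * (D2 : ℝ) ^ (-c))) ≤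
      (CM ^ k * C * (1 + C / (c * θ * δ3 / 2)) ^ C * (C0 : ℝ) ^ (d + 1)) *
        (X : ℝ) ^ (1 + d - c * θ * δ3 / 2) := by
  have hX1 : (1:ℝ) ≤ X := by exact_mod_cast le_trans hQ' hQX
  have hX0 : (0:ℝ) < X := by linarith
  have hQ0 : (0:ℝ) < Q' := by exact_mod_cast hQ'
  have hTr : (T : ℝ) ≤ (C0 : ℝ) * X := by exact_mod_cast hT
  have h1 : (T : ℝ) ^ d ≤ (C0 : ℝ) ^ d * (X : ℝ) ^ d := by
    rw [← mul_pow]
    exact pow_le_pow_left₀ (Nat.cast_nonneg _) hTr d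
  have h2 : ((L / H : ℕ) : ℝ) * H ≤ (C0 : ℝ) * X := by
    have : (L / H) * H ≤ C0 * X := le_trans (Nat.div_mul_le_self L H) hL
    exact_mod_cast this
  have he : 0 < c * θ * δ3 / 2 := by positivity
  have h3 := z4a_log C (c * θ * δ3 / 2) hC he Q' X hQ' hQX
  have h4 : (D2 : ℝ) ^ (-c) ≤ (X : ℝ) ^ (-(c * θ * δ3)) := by
    have h5 : ((X : ℝ) ^ θ) ^ δ3 ≤ D2 :=
      le_trans (Real.rpow_le_rpow (Real.rpow_nonneg hX0.le _) hlow hδ.le) hD2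
    have h6 : (0:ℝ) < ((X : ℝ) ^ θ) ^ δ3 := Real.rpow_pos_of_pos (Real.rpow_pos_of_pos hX0 _) _
    have h7 : (D2 : ℝ) ^ (-c) ≤ (((X : ℝ) ^ θ) ^ δ3) ^ (-c) :=
      Real.rpow_le_rpow_of_nonpos h6 h5 (by linarith)
    rw [← Real.rpow_mul hX0.le, ← Real.rpow_mul hX0.le] at h7
    refine le_trans h7 (le_of_eq ?_)
    ring_nf
  have hl0 : 0 ≤ Real.log Q' := Real.log_natCast_nonneg Q'
  have hd : (0:ℝ) ≤ (D2 : ℝ) ^ (-c) := Real.rpow_nonneg (Nat.cast_nonneg _) _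
  have hA : (0:ℝ) ≤ (1 + Real.log Q') ^ C := Real.rpow_nonneg (by linarith) _
  have hB : (0:ℝ) ≤ (1 + C / (c * θ * δ3 / 2)) ^ C := Real.rpow_nonneg (by positivity) _
  have hCM0 : (0:ℝ) ≤ CM ^ k := by positivity
  have hLH : (0:ℝ) ≤ ((L / H : ℕ) : ℝ) * H := by positivity
  calc ((L / H : ℕ) : ℝ) * (CM ^ k * (C * (1 + Real.log Q') ^ C * ((T : ℝ) ^ d * H) * (D2 : ℝ) ^ (-c)))
      = (CM ^ k * C) * (((1 + Real.log Q') ^ C * (T : ℝ) ^ d) * ((((L / H : ℕ) : ℝ) * H) * (D2 : ℝ) ^ (-c))) := by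
        ring
    _ ≤ (CM ^ k * C) * ((((1 + C / (c * θ * δ3 / 2)) ^ C * (X : ℝ) ^ (c * θ * δ3 / 2)) *
          ((C0 : ℝ) ^ d * (X : ℝ) ^ d)) * (((C0 : ℝ) * X) * (X : ℝ) ^ (-(c * θ * δ3)))) := by
        refine mul_le_mul_of_nonneg_left ?_ (by positivity)
        refine mul_le_mul (mul_le_mul h3 h1 (by positivity) (by positivity)) (mul_le_mul h2 h4 hd (by positivity))
          (by positivity) (by positivity)
    _ = (CM ^ k * C * (1 + C / (c * θ * δ3 / 2)) ^ C * (C0 : ℝ) ^ (d + 1)) *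
        ((X : ℝ) ^ (c * θ * δ3 / 2) * (X : ℝ) ^ d * X * (X : ℝ) ^ (-(c * θ * δ3))) := by
        rw [pow_succ]
        ring
    _ = (CM ^ k * C * (1 + C / (c * θ * δ3 / 2)) ^ C * (C0 : ℝ) ^ (d + 1)) *
        (X : ℝ) ^ (1 + d - c * θ * δ3 / 2) := by
        refine congrArg (fun z : ℝ => (CM ^ k * C * (1 + C / (c * θ * δ3 / 2)) ^ C * (C0 : ℝ) ^ (d + 1)) * z) ?_
        rw [← Real.rpow_natCast (X : ℝ) d, ← Real.rpow_add hX0]
        have h9 : (X:ℝ) ^ (c * θ * δ3 / 2 + (d:ℝ)) * X = (X:ℝ) ^ (c * θ * δ3 / 2 + (d:ℝ) + 1) := by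
          rw [Real.rpow_add hX0 _ 1, Real.rpow_one]
        rw [h9, ← Real.rpow_add hX0]
        ring_nf

theorem z4a_final (d : ℕ) (A1 A2 κ1 κ2 κ3 : ℝ) (h1 : 0 < κ1) (h2 : 0 < κ2) (h3 : 0 < κ3) (hA1 : 0 ≤ A1)
    (hA2 : 0 ≤ A2) : ∃ κ : ℝ, 0 < κ ∧
    ∃ X0 : ℕ, ∀ X : ℕ, X0 ≤ X → (X : ℝ) ^ (1 + d - κ1) + A1 * (X : ℝ) ^ (1 + d - κ2) +
      A2 * (X : ℝ) ^ (1 + d - κ3) ≤ (X : ℝ) ^ (1 + d - κ) := by
  obtain ⟨e, he⟩ : ∃ e : ℝ, e = min κ1 (min κ2 κ3) := ⟨_, rfl⟩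
  have he0 : 0 < e := by rw [he]; exact lt_min h1 (lt_min h2 h3)
  obtain ⟨X1, hX1⟩ := u7_large (1 + A1 + A2) (e / 2) (by positivity)
  refine ⟨e / 2, by positivity, max X1 1, fun X hX => ?_⟩
  have hX1' := hX1 X (le_trans (le_max_left _ _) hX)
  have hXr : (1:ℝ) ≤ X := by exact_mod_cast le_trans (le_max_right _ _) hX
  have hX0 : (0:ℝ) < X := by linarith
  have e1 : e ≤ κ1 := by rw [he]; exact min_le_left _ _
  have e2 : e ≤ κ2 := by rw [he]; exact (min_le_right _ _).trans (min_le_left _ _)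
  have e3 : e ≤ κ3 := by rw [he]; exact (min_le_right _ _).trans (min_le_right _ _)
  have q1 : (X : ℝ) ^ (1 + d - κ1) ≤ (X : ℝ) ^ (1 + d - e) :=
    Real.rpow_le_rpow_of_exponent_le hXr (by linarith)
  have q2 : (X : ℝ) ^ (1 + d - κ2) ≤ (X : ℝ) ^ (1 + d - e) :=
    Real.rpow_le_rpow_of_exponent_le hXr (by linarith)
  have q3 : (X : ℝ) ^ (1 + d - κ3) ≤ (X : ℝ) ^ (1 + d - e) :=
    Real.rpow_le_rpow_of_exponent_le hXr (by linarith)
  have hp : (0:ℝ) ≤ (X : ℝ) ^ (1 + d - e) := Real.rpow_nonneg hX0.le _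
  calc (X : ℝ) ^ (1 + d - κ1) + A1 * (X : ℝ) ^ (1 + d - κ2) + A2 * (X : ℝ) ^ (1 + d - κ3)
      ≤ (X : ℝ) ^ (1 + d - e) + A1 * (X : ℝ) ^ (1 + d - e) + A2 * (X : ℝ) ^ (1 + d - e) := by
        have := mul_le_mul_of_nonneg_left q2 hA1
        have := mul_le_mul_of_nonneg_left q3 hA2
        linarith
    _ = (1 + A1 + A2) * (X : ℝ) ^ (1 + d - e) := by ring
    _ ≤ (X : ℝ) ^ (e / 2) * (X : ℝ) ^ (1 + d - e) := mul_le_mul_of_nonneg_right hX1' hp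
    _ = (X : ℝ) ^ (1 + d - e / 2) := by
        rw [← Real.rpow_add hX0]
        ring_nf

theorem z4a_Qpow (Q X Y C0 : ℕ) (K : ℝ) (hK : 20 ≤ K) (h : RegP K Q Y) (hY : Y ≤ C0 * X)
    (hC : C0 ≤ X) : Q * Q ^ 8 ≤ X := by
  obtain ⟨h1, h2, h3⟩ := h
  have hl : 0 ≤ Real.log Q := Real.log_natCast_nonneg Q
  rcases Nat.eq_zero_or_pos Q with hq | hq
  · rw [hq]
    simp
  rcases Nat.eq_zero_or_pos Y with hy | hy
  · rw [hy] at h1
    simp at h1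
    linarith
  have hqr : (0:ℝ) < Q := by exact_mod_cast hq
  have hyr : (0:ℝ) < Y := by exact_mod_cast hy
  have h4 : Real.log ((Q:ℝ) ^ 20) ≤ Real.log Y := by
    rw [Real.log_pow]
    push_cast
    have : 20 * Real.log Q ≤ K * Real.log Q := mul_le_mul_of_nonneg_right hK hl
    linarith
  have h5 : (Q:ℝ) ^ 20 ≤ Y := (Real.log_le_log_iff (by positivity) hyr).1 h4
  have h6 : Q ^ 20 ≤ Y := by exact_mod_cast h5
  have h7 : Q ^ 20 ≤ X ^ 2 := by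
    calc Q ^ 20 ≤ Y := h6
      _ ≤ C0 * X := hY
      _ ≤ X * X := Nat.mul_le_mul_right _ hC
      _ = X ^ 2 := by ring
  have h8 : Q ^ 10 ≤ X := by
    have : (Q ^ 10) ^ 2 ≤ X ^ 2 := by
      rw [← pow_mul]
      exact h7
    exact (pow_le_pow_iff_left₀ (Nat.zero_le _) (Nat.zero_le _) two_ne_zero).1 this
  calc Q * Q ^ 8 = Q ^ 9 := by ring
    _ ≤ Q ^ 10 := Nat.pow_le_pow_right hq (by norm_num)
    _ ≤ X := h8

theorem z4a_Qlow (Q X Y : ℕ) (Cr : ℝ) (hCr : 1 ≤ Cr) (hX : 1 ≤ X) (hXY : X ≤ Y) (hQ : 1 ≤ Q)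
    (h : Real.log Y ≤ Cr * Real.log Q) : (X : ℝ) ^ (1 / Cr) ≤ Q := by
  have hX0 : (0:ℝ) < X := by exact_mod_cast hX
  have hQ0 : (0:ℝ) < Q := by exact_mod_cast hQ
  have hC0 : 0 < Cr := by linarith
  have h1 : Real.log X ≤ Real.log Y := Real.log_le_log hX0 (by exact_mod_cast hXY)
  rw [← Real.log_le_log_iff (Real.rpow_pos_of_pos hX0 _) hQ0, Real.log_rpow hX0, one_div,
    inv_mul_le_iff₀ hC0]
  linarith

theorem z4a_cells {k d : ℕ} (S : Sys k d) (c C : ℝ)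
    (hZ : ∀ (Q D D1 D2 : ℕ) (px : Ch), 1 ≤ D2 → px.1 * D2 ≤ D1 → D1 ≤ D → D ≤ Q → px ∈ PC Q →
    ∀ (b : Fin k → ℤ) (a H T : ℕ), Q ^ (10 * (k + 1)) ≤ H → Q ^ (10 * (k + 1)) ≤ T →
    (∀ t ∈ bx d T, ∀ n ∈ Ico a (a + H), ∀ i, 0 ≤ S.val b n (iv t) i) →
    ∀ (M : ℝ) (mb : Fin k → Ch → ℝ), 1 ≤ M → (∀ i, ∀ p ∈ PC Q, 0 ≤ mb i p) → (∀ i, ∑ p ∈ PC Q, mb i p ≤ M) →
    ∀ c' : (Fin d → ℕ) → Fin k → Ch → ℂ, (∀ t ∈ bx d T, ∀ i, ∀ p ∈ PC Q, ‖c' t i p‖ ≤ mb i p) →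
    ∑ t ∈ bx d T, ‖∑ n ∈ Ico a (a + H), ∏ i, SG Q (c' t i) (S.val b n (iv t) i) -
        H * MCS S b (iv t) Q D D1 px (c' t)‖ ≤
      M ^ k * (C * (1 + Real.log Q) ^ C * ((T : ℝ) ^ d * H) * (D2 : ℝ) ^ (-c)))
    (Q Q' D D1 D2 H L T : ℕ) (px : Ch) (hD2 : 1 ≤ D2) (hD21 : px.1 * D2 ≤ D1) (hD1 : D1 ≤ D)
    (hDQ : D ≤ Q') (hpx : px ∈ PC Q') (hQQ : Q' ≤ Q) (b : Fin k → ℤ) (hH1 : 1 ≤ H) (hH : Q' ^ (10 * (k + 1)) ≤ H)
    (hT : Q' ^ (10 * (k + 1)) ≤ T) (Xs : Fin k → ℕ)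
    (hval : ∀ i, ∀ n ∈ range L, ∀ t ∈ bx d T, (Xs i : ℤ) ≤ S.val b n (iv t) i ∧ S.val b n (iv t) i ≤ 4 * Xs i)
    (M : ℝ) (hM : 1 ≤ M) (mb : Fin k → Ch → ℝ) (hmb0 : ∀ i, ∀ p ∈ PC Q, 0 ≤ mb i p)
    (hmbs : ∀ i, ∑ p ∈ PC Q, mb i p ≤ M)
    (hmb : ∀ i, ∀ m : ℤ, (Xs i : ℤ) ≤ m → m ≤ 4 * Xs i → ∀ p ∈ PC Q, ‖Bc Q (Xs i) p m‖ ≤ mb i p) :
    ∑ t ∈ bx d T, ‖∑ j ∈ range (L / H), ∑ n ∈ Ico (j * H) (j * H + H),
        ∏ i, SG Q' (fun p => Bc Q (Xs i) p (S.val b ((j * H : ℕ) : ℤ) (iv t) i)) (S.val b n (iv t) i) -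
      ∑ j ∈ range (L / H), ((H : ℕ) : ℂ) * MCS S b (iv t) Q' D D1 px
        (fun i p => Bc Q (Xs i) p (S.val b ((j * H : ℕ) : ℤ) (iv t) i))‖ ≤
      ((L / H : ℕ) : ℝ) * (M ^ k * (C * (1 + Real.log Q') ^ C * ((T : ℝ) ^ d * H) * (D2 : ℝ) ^ (-c))) := by
  have hsub : PC Q' ⊆ PC Q := by
    intro p hp
    obtain ⟨a, b, c⟩ := Pool.Agent.Lib.H68T.mem_PC.1 hp
    exact Pool.Agent.Lib.H68T.mem_PC.2 ⟨a, b.trans hQQ, c⟩
  have h := z4a_sum (bx d T) (range (L / H))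
    (fun j t => ∑ n ∈ Ico (j * H) (j * H + H),
        ∏ i, SG Q' (fun p => Bc Q (Xs i) p (S.val b ((j * H : ℕ) : ℤ) (iv t) i)) (S.val b n (iv t) i))
    (fun j t => ((H : ℕ) : ℂ) * MCS S b (iv t) Q' D D1 px
        (fun i p => Bc Q (Xs i) p (S.val b ((j * H : ℕ) : ℤ) (iv t) i)))
    (M ^ k * (C * (1 + Real.log Q') ^ C * ((T : ℝ) ^ d * H) * (D2 : ℝ) ^ (-c))) (fun j hj => by
      have hj' : (j + 1) * H ≤ L :=
        le_trans (Nat.mul_le_mul_right _ (Finset.mem_range.1 hj)) (Nat.div_mul_le_self L H)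
      have hj2 : j * H + H ≤ L := by
        rw [← Nat.succ_mul]
        exact hj'
      exact hZ Q' D D1 D2 px hD2 hD21 hD1 hDQ hpx b (j * H) H T hH hT
        (fun t ht n hn i => by
          have hn' := Finset.mem_Ico.1 hn
          have := (hval i n (Finset.mem_range.2 (by omega)) t ht).1
          omega)
        M mb hM (fun i p hp => hmb0 i p (hsub hp))
        (fun i => (Finset.sum_le_sum_of_subset_of_nonneg hsub fun p hp _ => hmb0 i p hp).trans (hmbs i))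
        (fun t i p => Bc Q (Xs i) p (S.val b ((j * H : ℕ) : ℤ) (iv t) i))
        (fun t ht i p hp => by
          have hv := hval i (j * H) (Finset.mem_range.2 (by omega)) t ht
          exact hmb i _ hv.1 hv.2 p (hsub hp)))
  rw [Finset.card_range] at h
  exact h


end Pool.Agent.H9U
end

-- from Lib.H9U.Z4B
section

/-!
# H9U, chunk Z4B (M): the main terms of all cells are large for every good `t`
-/

open Finset

namespace Pool.Agent.H9U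

open Pool.Agent.Lib.H68T (lp Lk PC p0)
open Pool.Agent.Lib.H18Q (gk KS SG Bc RegP)
open Pool.Agent.Lib.H59P (Ch SF bx TS Rp MX pr)

theorem z4b_log (M : ℝ) (hM : 1 ≤ M) (k : ℕ) (β : ℝ) (hβ : 0 < β) : ∃ X0 : ℕ, ∀ X : ℕ, X0 ≤ X →
    (2 * M * (1 + Real.log X)) ^ k * (4 * Real.exp (4 * k)) ≤ (X : ℝ) ^ β := by
  obtain ⟨γ, hγ⟩ : ∃ γ : ℝ, γ = β / (2 * (k + 1)) := ⟨_, rfl⟩
  have hγ0 : 0 < γ := by rw [hγ]; positivity
  obtain ⟨C', hC'⟩ : ∃ C' : ℝ, C' = (2 * M * (1 + 1 / γ)) ^ k * (4 * Real.exp (4 * k)) := ⟨_, rfl⟩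
  have h1 := ((tendsto_rpow_atTop (half_pos hβ)).comp tendsto_natCast_atTop_atTop).eventually (Filter.eventually_ge_atTop C')
  obtain ⟨X1, hX1⟩ := Filter.eventually_atTop.1 h1
  refine ⟨max X1 1, fun X hX => ?_⟩
  have hX0 : (1 : ℝ) ≤ X := by exact_mod_cast (le_max_right _ _).trans hX
  have hXp : (0 : ℝ) < X := by linarith
  have h2 : C' ≤ (X : ℝ) ^ (β / 2) := hX1 X ((le_max_left _ _).trans hX)
  have h3 : 1 + Real.log X ≤ (1 + 1 / γ) * (X : ℝ) ^ γ := by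
    have h4 := Real.log_le_rpow_div hXp.le hγ0
    have h5 : (1 : ℝ) ≤ (X : ℝ) ^ γ := Real.one_le_rpow hX0 hγ0.le
    have h6 : (1 + 1 / γ) * (X : ℝ) ^ γ = (X : ℝ) ^ γ + (X : ℝ) ^ γ / γ := by ring
    rw [h6]
    linarith
  have h6 : 0 ≤ Real.log X := Real.log_nonneg hX0
  have h7 : ((X : ℝ) ^ γ) ^ k ≤ (X : ℝ) ^ (β / 2) := by
    rw [← Real.rpow_natCast, ← Real.rpow_mul hXp.le]
    refine Real.rpow_le_rpow_of_exponent_le hX0 ?_
    have hk1 : (0 : ℝ) < 2 * ((k : ℝ) + 1) := by positivity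
    rw [hγ, div_mul_eq_mul_div, div_le_div_iff₀ hk1 two_pos]
    nlinarith
  calc (2 * M * (1 + Real.log X)) ^ k * (4 * Real.exp (4 * k))
      ≤ (2 * M * ((1 + 1 / γ) * (X : ℝ) ^ γ)) ^ k * (4 * Real.exp (4 * k)) := by
        gcongr
    _ = C' * ((X : ℝ) ^ γ) ^ k := by
        rw [hC', ← mul_assoc (2 * M), mul_pow (2 * M * (1 + 1 / γ))]
        ring
    _ ≤ (X : ℝ) ^ (β / 2) * (X : ℝ) ^ (β / 2) :=
        mul_le_mul h2 h7 (by positivity) (by positivity)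
    _ = (X : ℝ) ^ β := by
        rw [← Real.rpow_add hXp]
        ring_nf

/-- Proof. `ε1 = θ δ3/(32 (k+1))`, `H = X / Q^8`. For each cell `j` the point `m_i = val b (jH) t i` is in `JJ (Xs i) ⊆ [Xs i, 4 Xs i]` (`jH < L`). `Z3S` with `Q := Q'`,
`th i := th m_i` (`MX px (fun _ => th m_i) 0 p = MX px th m_i p` by definition), `c i p = Bc Q (Xs i) p m_i`, `M` from `UM_mass`, `eb` from `Dat.cf`, and
`τ = X^(-θ δ3/8)`: for `1 ≤ R ≤ D1`, `E = D/R ≥ D1 ≥ D2 ≥ Q'^δ3 ≥ X^(θ δ3)` (`D1 D1 ≤ D`, `1 ≤ px.1`), `E ≤ D ≤ Q' ≤ X`, `T4S_tail` with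
`ε = θ δ3/8`. The error `(2M(1+log Q'))^k τ` is at most `η^k exp(-4k)/4` for `X` large (`η^k ≥ X^(-k ε1)`), so each cell is at least `H η^k exp(-4k)/4`, and the number of
cells times `H` is at least `L - H ≥ X/2`. -/
theorem Z4B_low {k d : ℕ} (hk : 1 ≤ k) (S : Sys k d) (ha : ∀ i, S.a i ≠ 0) : ∃ K : ℝ, 1 ≤ K ∧
    ∀ Cr θ δ3 : ℝ, 1 ≤ Cr → 0 < θ → 0 < δ3 → ∀ C0 : ℕ, ∃ ε1 : ℝ, 0 < ε1 ∧ ∃ X0 : ℕ, ∀ Q Q' X : ℕ, X0 ≤ X →
    ∀ Xs : Fin k → ℕ, (∀ i, X ≤ Xs i ∧ Xs i ≤ C0 * X) → (∀ i, Rgm K Cr θ Q Q' (Xs i)) →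
    ∀ (D D1 D2 : ℕ) (η E0 : ℝ) (px : Ch) (th : ℤ → ℝ), Dat k Q Q' D D1 D2 η E0 px th Xs → (Q' : ℝ) ^ δ3 ≤ D2 →
    (X : ℝ) ^ (-ε1) ≤ η → ∀ (b : Fin k → ℤ) (L : ℕ) (t : Fin d → ℤ), X ≤ L → S.Adm b t →
    (∀ i j, i ≠ j → S.minr b t i j ≠ 0) → (∀ i, ∀ n ∈ range L, S.val b n t i ∈ JJ (Xs i)) →
    X * (η ^ k * Real.exp (-(4 * k : ℝ))) / 8 ≤
      (∑ j ∈ range (L / (X / Q ^ 8)), ((X / Q ^ 8 : ℕ) : ℂ) * MCS S b t Q' D D1 px
        (fun i p => Bc Q (Xs i) p (S.val b ((j * (X / Q ^ 8) : ℕ) : ℤ) t i))).re := by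
  obtain ⟨K1, C1, hK1, hC1, hmass⟩ := Pool.Agent.Lib.H59T.UM_mass
  refine ⟨max K1 16, hK1.trans (le_max_left _ _), fun Cr θ δ3 hCr hθ hδ3 C0 => ?_⟩
  obtain ⟨ε1, hε1⟩ : ∃ ε1 : ℝ, ε1 = θ * δ3 / (32 * (k + 1)) := ⟨_, rfl⟩
  have hε10 : 0 < ε1 := by rw [hε1]; positivity
  obtain ⟨XT, hXT⟩ := T4S_tail S ha (θ * δ3 / 8) (by positivity)
  obtain ⟨XL, hXL⟩ := z4b_log C1 hC1 k (3 * (θ * δ3) / 32) (by positivity)
  obtain ⟨A, hA⟩ : ∃ A : ℕ, ∀ i, |S.a i| ≤ (A : ℤ) := by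
    refine ⟨∑ i, (S.a i).natAbs, fun i => ?_⟩
    rw [Int.abs_eq_natAbs]
    exact_mod_cast Finset.single_le_sum (f := fun i => (S.a i).natAbs) (fun _ _ => Nat.zero_le _) (mem_univ i)
  refine ⟨ε1, hε10, max (max XT XL) (max (C0 + 2) (8 * A * C0)), ?_⟩
  intro Q Q' X hX Xs hXs hR D D1 D2 η E0 px th hD hD2 hη b L t hL hAdm hmin hJ
  have hXT' : XT ≤ X := ((le_max_left _ _).trans (le_max_left _ _)).trans hX
  have hXL' : XL ≤ X := ((le_max_right _ _).trans (le_max_left _ _)).trans hX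
  have hXC : C0 + 2 ≤ X := ((le_max_left _ _).trans (le_max_right _ _)).trans hX
  have hXA : 8 * A * C0 ≤ X := ((le_max_right _ _).trans (le_max_right _ _)).trans hX
  have hX2 : 2 ≤ X := (Nat.le_add_left _ _).trans hXC
  have hXr : (1 : ℝ) ≤ X := by exact_mod_cast (by omega : 1 ≤ X)
  have hXp : (0 : ℝ) < X := by linarith
  let i0 : Fin k := ⟨0, hk⟩
  have hreg : RegP 16 Q (Xs i0) := (hR i0).reg.mono (by positivity) (le_max_right _ _)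
  have hQ16 : (16 : ℝ) ≤ Q := hreg.Q_ge (by norm_num)
  have hQn : 16 ≤ Q := by exact_mod_cast hQ16
  have hXs0 : 0 < Xs i0 := by
    have := (hXs i0).1
    omega
  have hlog : Real.log (Xs i0) ≤ 2 * Real.log X := by
    have h1 : ((Xs i0 : ℕ) : ℝ) ≤ (X : ℝ) * X := by
      have h2 : Xs i0 ≤ X * X := (hXs i0).2.trans (Nat.mul_le_mul_right X (by omega))
      exact_mod_cast h2
    have h2 := Real.log_le_log (by exact_mod_cast hXs0) h1
    rw [Real.log_mul hXp.ne' hXp.ne'] at h2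
    linarith
  have hQX : Q ^ 8 ≤ X := by
    have h1 := hreg.logQ_le (by norm_num)
    have h2 : Real.log ((Q : ℝ) ^ 8) ≤ Real.log X := by
      rw [Real.log_pow]
      push_cast
      linarith
    have h3 : (Q : ℝ) ^ 8 ≤ X := (Real.log_le_log_iff (by positivity) hXp).1 h2
    exact_mod_cast h3
  obtain ⟨H, hH⟩ : ∃ H : ℕ, H = X / Q ^ 8 := ⟨_, rfl⟩
  have hQ8 : 0 < Q ^ 8 := by positivity
  have hH1 : 1 ≤ H := by
    rw [hH]
    exact Nat.div_pos hQX hQ8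
  have hH2 : 2 * H ≤ X := by
    have h1 : 2 ≤ Q ^ 8 := by
      calc 2 ≤ Q := by omega
        _ = Q ^ 1 := (pow_one Q).symm
        _ ≤ Q ^ 8 := Nat.pow_le_pow_right (by omega) (by norm_num)
    have h2 : X / Q ^ 8 ≤ X / 2 := Nat.div_le_div_left h1 (by norm_num)
    rw [hH]
    omega
  rw [← hH]
  have hnH : X ≤ 2 * (L / H * H) := by
    have h1 := Nat.div_add_mod L H
    have h2 := Nat.mod_lt L hH1
    rw [mul_comm H] at h1
    omega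
  obtain ⟨E, hE⟩ : ∃ E : ℝ, E = η ^ k * Real.exp (-(4 * k : ℝ)) := ⟨_, rfl⟩
  have hη0 := hD.eta_pos
  have hE0 : 0 < E := by rw [hE]; positivity
  -- bounds for the levels
  have hQ'1 : 1 ≤ Q' := by
    have h1 := (hR i0).low
    have h2 : (0 : ℝ) < ((Xs i0 : ℕ) : ℝ) ^ θ := Real.rpow_pos_of_pos (by exact_mod_cast hXs0) θ
    have h3 : (0 : ℝ) < Q' := lt_of_lt_of_le h2 h1
    exact_mod_cast h3
  have hQ'Q : Q' ≤ Q := (hR i0).le
  have hQ'X : Q' ≤ X := by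
    refine hQ'Q.trans (le_trans ?_ hQX)
    calc Q = Q ^ 1 := (pow_one Q).symm
      _ ≤ Q ^ 8 := Nat.pow_le_pow_right (by omega) (by norm_num)
  have hpx := (Pool.Agent.Lib.H68T.mem_PC.1 hD.mem)
  have hD2D1 : D2 ≤ D1 := (Nat.le_mul_of_pos_left D2 hpx.1).trans hD.hD2
  have hpxD1 : px.1 ≤ D1 := (Nat.le_mul_of_pos_right px.1 hD.D2_pos).trans hD.hD2
  have hD11 : 1 ≤ D1 := hD.D2_pos.trans hD2D1
  have hD1D : D1 ≤ D := (Nat.le_mul_of_pos_left D1 hD11).trans hD.hD1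
  have hXQ' : (X : ℝ) ^ θ ≤ Q' := by
    refine le_trans ?_ (hR i0).low
    exact Real.rpow_le_rpow hXp.le (by exact_mod_cast (hXs i0).1) hθ.le
  have hXD2 : (X : ℝ) ^ (θ * δ3) ≤ D2 := by
    rw [Real.rpow_mul hXp.le]
    exact (Real.rpow_le_rpow (by positivity) hXQ' hδ3.le).trans hD2
  have hPC : PC Q' ⊆ PC Q := by
    intro p hp
    have h1 := Pool.Agent.Lib.H68T.mem_PC.1 hp
    exact Pool.Agent.Lib.H68T.mem_PC.2 ⟨h1.1, h1.2.1.trans hQ'Q, h1.2.2⟩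
  -- the values
  have hval : ∀ i, ∀ n ∈ range L, (Xs i : ℤ) ≤ S.val b n t i ∧ S.val b n t i ≤ 4 * Xs i := by
    intro i n hn
    have h1 := hJ i n hn
    unfold JJ at h1
    rw [mem_Ico] at h1
    omega
  have h0L : 0 ∈ range L := mem_range.2 (by omega)
  have hmin' : ∀ i j, i ≠ j → S.minr b t i j ≠ 0 ∧ |S.minr b t i j| ≤ (X : ℤ) ^ 3 := by
    intro i j hij
    refine ⟨hmin i j hij, ?_⟩
    have hv : ∀ i, |S.val b 0 t i| ≤ 4 * (C0 : ℤ) * X := by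
      intro i
      have h1 := hval i 0 h0L
      have h2 : (Xs i : ℤ) ≤ C0 * X := by exact_mod_cast (hXs i).2
      rw [Nat.cast_zero] at h1
      rw [abs_le]
      constructor
      · have h3 : (0 : ℤ) ≤ Xs i := Int.natCast_nonneg _
        nlinarith
      · linarith
    have hA0 : (0 : ℤ) ≤ A := Int.natCast_nonneg A
    have h3 : |S.minr b t i j| ≤ A * (4 * (C0 : ℤ) * X) + A * (4 * (C0 : ℤ) * X) := by
      unfold Sys.minr
      refine (abs_sub _ _).trans (add_le_add ?_ ?_)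
      · rw [abs_mul]
        exact mul_le_mul (hA i) (hv j) (abs_nonneg _) hA0
      · rw [abs_mul]
        exact mul_le_mul (hA j) (hv i) (abs_nonneg _) hA0
    have h4 : (8 * A * C0 : ℤ) ≤ X := by exact_mod_cast hXA
    have h5 : (1 : ℤ) ≤ X := by exact_mod_cast (by omega : 1 ≤ X)
    calc |S.minr b t i j| ≤ A * (4 * (C0 : ℤ) * X) + A * (4 * (C0 : ℤ) * X) := h3
      _ = (8 * A * C0 : ℤ) * X := by ring
      _ ≤ X * X := mul_le_mul_of_nonneg_right h4 (by linarith)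
      _ ≤ (X : ℤ) ^ 3 := by nlinarith [mul_nonneg (by linarith : (0 : ℤ) ≤ X) (by linarith : (0 : ℤ) ≤ X)]
  -- the tail of the singular series
  have hτ : ∀ R : ℕ, 1 ≤ R → R ≤ D1 →
      |∑ e ∈ SF (D / R) R, tdS S b t e - SSS S b t ((Pool.Agent.Lib.H59P.pr Q').filter (fun l : ℕ => ¬ l ∣ R))| ≤
        (X : ℝ) ^ (-(θ * δ3 / 8)) := by
    intro R hR1 hRD
    have h1 : D1 ≤ D / R := by
      rw [Nat.le_div_iff_mul_le hR1]
      exact (Nat.mul_le_mul_left D1 hRD).trans hD.hD1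
    have h2 : 1 ≤ D / R := hD11.trans h1
    have h3 : D / R ≤ Q' := (Nat.div_le_self _ _).trans hD.hD
    refine (hXT X Q' hXT' hQ'X b t hmin' R (D / R) h2 h3).trans ?_
    have h4 : (X : ℝ) ^ (θ * δ3) ≤ ((D / R : ℕ) : ℝ) := hXD2.trans (by exact_mod_cast hD2D1.trans h1)
    have h5 : ((D / R : ℕ) : ℝ) ^ (-(1 / 4) : ℝ) ≤ ((X : ℝ) ^ (θ * δ3)) ^ (-(1 / 4) : ℝ) :=
      Real.rpow_le_rpow_of_nonpos (Real.rpow_pos_of_pos hXp _) h4 (by norm_num)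
    calc ((D / R : ℕ) : ℝ) ^ (-(1 / 4) : ℝ) * (X : ℝ) ^ (θ * δ3 / 8)
        ≤ ((X : ℝ) ^ (θ * δ3)) ^ (-(1 / 4) : ℝ) * (X : ℝ) ^ (θ * δ3 / 8) :=
          mul_le_mul_of_nonneg_right h5 (by positivity)
      _ = (X : ℝ) ^ (-(θ * δ3 / 8)) := by
          rw [← Real.rpow_mul hXp.le, ← Real.rpow_add hXp]
          ring_nf
  have herr : (2 * C1 * (1 + Real.log Q')) ^ k * (X : ℝ) ^ (-(θ * δ3 / 8)) ≤ E / 4 := by
    have h1 := hXL X hXL'
    have hlQ : Real.log Q' ≤ Real.log X := Real.log_le_log (by exact_mod_cast hQ'1) (by exact_mod_cast hQ'X)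
    have hlQ0 : 0 ≤ Real.log Q' := Real.log_nonneg (by exact_mod_cast hQ'1)
    have h2 : (2 * C1 * (1 + Real.log Q')) ^ k ≤ (2 * C1 * (1 + Real.log X)) ^ k := by
      gcongr
    have h3 : (X : ℝ) ^ (-(θ * δ3) / 32) ≤ η ^ k := by
      calc (X : ℝ) ^ (-(θ * δ3) / 32) ≤ ((X : ℝ) ^ (-ε1)) ^ k := by
            rw [← Real.rpow_natCast, ← Real.rpow_mul hXp.le]
            refine Real.rpow_le_rpow_of_exponent_le hXr ?_
            have h5 : ε1 * k ≤ θ * δ3 / 32 := by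
              have hk1 : (0 : ℝ) < 32 * ((k : ℝ) + 1) := by positivity
              rw [hε1, div_mul_eq_mul_div, div_le_div_iff₀ hk1 (by norm_num)]
              nlinarith [mul_pos hθ hδ3]
            linarith
        _ ≤ η ^ k := pow_le_pow_left₀ (by positivity) hη k
    have h4 : Real.exp (4 * k) * Real.exp (-(4 * k : ℝ)) = 1 := by
      rw [← Real.exp_add, add_neg_cancel, Real.exp_zero]
    have h5 : (X : ℝ) ^ (3 * (θ * δ3) / 32) * (X : ℝ) ^ (-(θ * δ3 / 8)) = (X : ℝ) ^ (-(θ * δ3) / 32) := by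
      rw [← Real.rpow_add hXp]
      ring_nf
    have hx8 : (0 : ℝ) < (X : ℝ) ^ (-(θ * δ3 / 8)) := Real.rpow_pos_of_pos hXp _
    have he : (0 : ℝ) < Real.exp (-(4 * k : ℝ)) := Real.exp_pos _
    calc (2 * C1 * (1 + Real.log Q')) ^ k * (X : ℝ) ^ (-(θ * δ3 / 8))
        ≤ (2 * C1 * (1 + Real.log X)) ^ k * (X : ℝ) ^ (-(θ * δ3 / 8)) := mul_le_mul_of_nonneg_right h2 hx8.le
      _ = ((2 * C1 * (1 + Real.log X)) ^ k * (4 * Real.exp (4 * k))) * (X : ℝ) ^ (-(θ * δ3 / 8)) * Real.exp (-(4 * k : ℝ)) / 4 := by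
          linear_combination (-((2 * C1 * (1 + Real.log X)) ^ k * (X : ℝ) ^ (-(θ * δ3 / 8)))) * h4
      _ ≤ (X : ℝ) ^ (3 * (θ * δ3) / 32) * (X : ℝ) ^ (-(θ * δ3 / 8)) * Real.exp (-(4 * k : ℝ)) / 4 := by
          gcongr
      _ ≤ η ^ k * Real.exp (-(4 * k : ℝ)) / 4 := by
          rw [h5]
          gcongr
      _ = E / 4 := by rw [hE]
  -- one cell
  have hcell : ∀ j ∈ range (L / H), (H : ℝ) * (E / 4) ≤
      (((H : ℕ) : ℂ) * MCS S b t Q' D D1 px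
        (fun i p => Bc Q (Xs i) p (S.val b ((j * H : ℕ) : ℤ) t i))).re := by
    intro j hj
    rw [mem_range] at hj
    have hjL : j * H ∈ range L := by
      rw [mem_range]
      have h1 : (j + 1) * H ≤ L := (Nat.mul_le_mul_right H hj).trans (Nat.div_mul_le_self L H)
      have h2 : (j + 1) * H = j * H + H := by ring
      omega
    have hm := fun i => hval i (j * H) hjL
    choose mb hmb1 hmb2 hmb3 using fun i => hmass Q (Xs i) ((hR i).reg.mono (by positivity) (le_max_left _ _))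
    choose eb heb1 heb2 heb3 using hD.cf
    have hZ := Z3S S b t hAdm Q' D D1 hQ'1 hD.hD hD1D px hD.mem hD.real hpxD1 η E0 hη0 hD.E0_nonneg hD.E0_le
      (fun i => th (S.val b ((j * H : ℕ) : ℤ) t i)) (fun i => hD.nonneg i _ (hm i).1 (hm i).2)
      (fun i => hD.le i _ (hm i).1 (hm i).2) (fun h i => hD.triv h _) C1 hC1
      (fun i p => Bc Q (Xs i) p (S.val b ((j * H : ℕ) : ℤ) t i))
      (fun i => by
        refine (Finset.sum_le_sum fun p hp => hmb3 i _ (hm i).1 (hm i).2 p (hPC hp)).trans ?_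
        exact (Finset.sum_le_sum_of_subset_of_nonneg hPC fun p hp _ => hmb1 i p hp).trans (hmb2 i))
      eb heb1 heb2 (fun i p hp hp1 => heb3 i _ (hm i).1 (hm i).2 p hp hp1) _ hτ
    rw [← Complex.ofReal_natCast, Complex.re_ofReal_mul]
    refine mul_le_mul_of_nonneg_left ?_ (Nat.cast_nonneg H)
    rw [← hE] at hZ
    linarith
  rw [Complex.re_sum]
  have hnH' : (X : ℝ) ≤ 2 * (((L / H : ℕ) : ℝ) * H) := by exact_mod_cast hnH
  calc (X : ℝ) * (η ^ k * Real.exp (-(4 * k : ℝ))) / 8 ≤ ((L / H : ℕ) : ℝ) * ((H : ℝ) * (E / 4)) := by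
        rw [← hE]
        nlinarith
    _ = ∑ _j ∈ range (L / H), (H : ℝ) * (E / 4) := by rw [sum_const, card_range, nsmul_eq_mul]
    _ ≤ _ := Finset.sum_le_sum hcell

end Pool.Agent.H9U
end

-- from Lib.H9U.Z4
section

/-!
# H9U, chunk Z4 (M): few `t` with few prime values, for given data of the small level
-/

open Finset

namespace Pool.Agent.H9U

open Pool.Agent.Lib.H68T (lp Lk PC p0)
open Pool.Agent.Lib.H18Q (gk KS SG Bc RegP)
open Pool.Agent.Lib.H59P (Ch SF bx TS Rp MX pr)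

lemma z4_large (c M : ℝ) (hc : 0 < c) : ∃ X0 : ℕ, ∀ X : ℕ, X0 ≤ X → M ≤ (X : ℝ) ^ c := by
  have h1 : Filter.Tendsto (fun X : ℕ => (X : ℝ) ^ c) Filter.atTop Filter.atTop :=
    (tendsto_rpow_atTop hc).comp tendsto_natCast_atTop_atTop
  exact Filter.eventually_atTop.1 (h1.eventually_ge_atTop M)

lemma z4_rgm {K K' Cr θ : ℝ} {Q Q' X : ℕ} (h : Rgm K Cr θ Q Q' X) (h0 : 0 ≤ K) (hK : K' ≤ K) :
    Rgm K' Cr θ Q Q' X := ⟨h.reg.mono h0 hK, h.log, h.low, h.le⟩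

lemma z4_card_bx (d T : ℕ) : (bx d T).card = T ^ d := by
  unfold bx
  rw [Fintype.card_piFinset, Finset.prod_const, Finset.card_univ, Fintype.card_fin, Finset.card_range]

lemma z4_QX {K : ℝ} {Q X : ℕ} (h : RegP K Q X) (hK : 1 ≤ K) (hX : 0 < X) : Q ≤ X := by
  obtain ⟨h1, h2, h3⟩ := h
  rcases Nat.eq_zero_or_pos Q with h0 | h0
  · omega
  · have hQ0 : 0 ≤ Real.log Q := Real.log_natCast_nonneg Q
    have h4 : Real.log Q ≤ Real.log X := by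
      calc Real.log Q = 1 * Real.log Q := (one_mul _).symm
        _ ≤ K * Real.log Q := mul_le_mul_of_nonneg_right hK hQ0
        _ ≤ _ := h3
    have h5 := (Real.log_le_log_iff (by exact_mod_cast h0) (by exact_mod_cast hX)).1 h4
    exact_mod_cast h5

/-- the case of small `T`. -/
lemma z4_small {d : ℕ} (hd : 1 ≤ d) (C0 X T n : ℕ) (hX : 1 ≤ X) (κ : ℝ) (hκ : κ ≤ 1 / 4)
    (h1 : T * T ≤ C0 * X) (h2 : n ≤ T ^ d) (h3 : (C0 : ℝ) ^ d ≤ (X : ℝ) ^ (1 / 2 : ℝ)) :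
    (n : ℝ) ≤ (X : ℝ) ^ ((d : ℝ) - κ) := by
  have hX0 : (0 : ℝ) < X := by exact_mod_cast hX
  have hX1 : (1 : ℝ) ≤ X := by exact_mod_cast hX
  have hd1 : (1 : ℝ) ≤ d := by exact_mod_cast hd
  have e1 : n ^ 2 ≤ (C0 * X) ^ d := by
    calc n ^ 2 ≤ (T ^ d) ^ 2 := Nat.pow_le_pow_left h2 2
      _ = (T * T) ^ d := by rw [← pow_mul, mul_comm d 2, pow_mul, sq]
      _ ≤ (C0 * X) ^ d := Nat.pow_le_pow_left h1 d
  have e2 : (n : ℝ) ^ 2 ≤ (C0 : ℝ) ^ d * (X : ℝ) ^ d := by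
    rw [← mul_pow]
    exact_mod_cast e1
  have e3 : (n : ℝ) ^ 2 ≤ ((X : ℝ) ^ ((d : ℝ) - κ)) ^ 2 := by
    calc (n : ℝ) ^ 2 ≤ (C0 : ℝ) ^ d * (X : ℝ) ^ d := e2
      _ ≤ (X : ℝ) ^ (1 / 2 : ℝ) * (X : ℝ) ^ d := mul_le_mul_of_nonneg_right h3 (by positivity)
      _ = (X : ℝ) ^ (1 / 2 + (d : ℝ)) := by
        rw [Real.rpow_add hX0, Real.rpow_natCast]
      _ ≤ (X : ℝ) ^ (((d : ℝ) - κ) * 2) := Real.rpow_le_rpow_of_exponent_le hX1 (by linarith)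
      _ = _ := by
        rw [Real.rpow_mul hX0.le]
        norm_num
  exact (pow_le_pow_iff_left₀ (Nat.cast_nonneg n) (by positivity) two_ne_zero).1 e3


/-- the bound for the exceptional set. -/
lemma z4_exc {k d : ℕ} (X n : ℕ) (hX : 1 ≤ X) (η κ' : ℝ)
    (hη : (X : ℝ) ^ (-(κ' / 4)) ≤ η ^ k)
    (h1 : (n : ℝ) * (X * (η ^ k * Real.exp (-(4 * k : ℝ))) / 16) ≤ (X : ℝ) ^ (1 + (d : ℝ) - κ'))
    (h2 : 32 * Real.exp (4 * k : ℝ) ≤ (X : ℝ) ^ (κ' / 2)) :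
    (n : ℝ) ≤ (X : ℝ) ^ ((d : ℝ) - κ' / 4) / 2 := by
  have hX0 : (0 : ℝ) < X := by exact_mod_cast hX
  have hn : (0 : ℝ) ≤ n := Nat.cast_nonneg n
  have hW : 0 < (X : ℝ) ^ (1 - κ' / 4) := Real.rpow_pos_of_pos hX0 _
  have e0 : (X : ℝ) * (X : ℝ) ^ (-(κ' / 4)) = (X : ℝ) ^ (1 - κ' / 4) := by
    rw [sub_eq_add_neg, Real.rpow_add hX0, Real.rpow_one]
  have e1 : (X : ℝ) ^ (1 - κ' / 4) * (n * (Real.exp (-(4 * k : ℝ)) / 16)) ≤
      (X : ℝ) ^ (1 - κ' / 4) * (X : ℝ) ^ ((d : ℝ) - 3 * κ' / 4) := by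
    have e2 : (X : ℝ) ^ (1 - κ' / 4) * (X : ℝ) ^ ((d : ℝ) - 3 * κ' / 4) = (X : ℝ) ^ (1 + (d : ℝ) - κ') := by
      rw [← Real.rpow_add hX0]
      congr 1
      ring
    rw [e2]
    refine le_trans ?_ h1
    have e3 : (X : ℝ) ^ (1 - κ' / 4) * (n * (Real.exp (-(4 * k : ℝ)) / 16)) =
        n * (X * ((X : ℝ) ^ (-(κ' / 4)) * Real.exp (-(4 * k : ℝ))) / 16) := by
      rw [← e0]
      ring
    rw [e3]
    refine mul_le_mul_of_nonneg_left ?_ hn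
    refine div_le_div_of_nonneg_right ?_ (by norm_num)
    refine mul_le_mul_of_nonneg_left ?_ hX0.le
    exact mul_le_mul_of_nonneg_right hη (Real.exp_pos _).le
  have e4 := le_of_mul_le_mul_left e1 hW
  have e5 : (n : ℝ) ≤ 16 * Real.exp (4 * k : ℝ) * (X : ℝ) ^ ((d : ℝ) - 3 * κ' / 4) := by
    have e6 : Real.exp (4 * k : ℝ) * Real.exp (-(4 * k : ℝ)) = 1 := by
      rw [← Real.exp_add, add_neg_cancel, Real.exp_zero]
    have e7 : (n : ℝ) = 16 * Real.exp (4 * k : ℝ) * (n * (Real.exp (-(4 * k : ℝ)) / 16)) := by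
      have : 16 * Real.exp (4 * k : ℝ) * (n * (Real.exp (-(4 * k : ℝ)) / 16)) =
        n * (Real.exp (4 * k : ℝ) * Real.exp (-(4 * k : ℝ))) := by ring
      rw [this, e6, mul_one]
    rw [e7]
    exact mul_le_mul_of_nonneg_left e4 (by positivity)
  have e8 : (X : ℝ) ^ ((d : ℝ) - κ' / 4) = (X : ℝ) ^ (κ' / 2) * (X : ℝ) ^ ((d : ℝ) - 3 * κ' / 4) := by
    rw [← Real.rpow_add hX0]
    congr 1
    ring
  rw [e8]
  have e9 : 0 ≤ (X : ℝ) ^ ((d : ℝ) - 3 * κ' / 4) := Real.rpow_nonneg hX0.le _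
  have e10 := mul_le_mul_of_nonneg_right h2 e9
  linarith


end Pool.Agent.H9U
end
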