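import Pool.Agent.Lib.H59M.M1.M026
import Pool.Agent.Lib.H59M.M1.M028
import Pool.Agent.Lib.H59M.M1.M046
import Pool.Agent.Lib.H59M.M1.M061
import Pool.Agent.Lib.H59M.M1.M068
import Pool.Agent.Lib.H59M.M1.M079
import Pool.Agent.Lib.H59M.M1.M083
import Pool.Agent.Lib.H59M.M1.M086

/-! Merged copies (to shorten the build) of Lib.H9U.L4, Lib.HUK.D45, Lib.HUK.D11, Lib.HUK.D41, Lib.HUK.D42, Lib.HUK.D14, Lib.HUK.D43, Lib.HUK.D44, Lib.HUK.D46, Lib.HUK.D47, Lib.HUK.D48, Lib.HUK.D12, Lib.HUK.D13, Lib.HUK.D31, Lib.HUK.KA14, Lib.HUK.KB5, Lib.HUK.KB7, Lib.HUK.KB8, Lib.HUK.KB9, Lib.HUK.KB12, Lib.HUK.KB13. -/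

-- from Lib.H9U.L4
section

/-!
# H9U, chunk L4 (M): the local factors at the other primes
-/

open Finset

namespace Pool.Agent.H9U

open Pool.Agent.Lib.H59P (Ch bx)
open Pool.Agent.Lib.H59T (UU Rm Pm Kp dof tau lf glz)

/-- Two forms which are not proportional modulo `l` have few common zeros. Proof. For given `t` there is at most one `n` with `vz n t i = 0`
(`a_i` is invertible), and then `a_i vz j - a_j vz i = ∑_r (a_i c_jr - a_j c_ir) t_r + const = 0`; the number of such `t` is at most `l^(d-1)`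
(the coordinate `r0` is determined by the others). -/
theorem L4_zero {k d : ℕ} (S : Sys k d) (l : ℕ) [Fact l.Prime] (b : Fin k → ℤ) (i j : Fin k)
    (ha : ((S.a i : ℤ) : ZMod l) ≠ 0) (r : Fin d) (hr : ((S.a i * S.c j r - S.a j * S.c i r : ℤ) : ZMod l) ≠ 0) :
    (((univ : Finset ((Fin d → ZMod l) × ZMod l)).filter
      (fun x => S.vz l b x.2 x.1 i = 0 ∧ S.vz l b x.2 x.1 j = 0)).card : ℝ) * l ≤ (l : ℝ) ^ d := by
  obtain ⟨A, hA⟩ : ∃ A, A = (univ : Finset ((Fin d → ZMod l) × ZMod l)).filter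
      (fun x => S.vz l b x.2 x.1 i = 0 ∧ S.vz l b x.2 x.1 j = 0) := ⟨_, rfl⟩
  rw [← hA]
  have hlin : ∀ (n : ZMod l) (t : Fin d → ZMod l), (S.a i : ZMod l) * S.vz l b n t j - (S.a j : ZMod l) * S.vz l b n t i =
      ∑ r, ((S.a i : ZMod l) * S.c j r - (S.a j : ZMod l) * S.c i r) * t r +
        ((S.a i : ZMod l) * b j - (S.a j : ZMod l) * b i) := by
    intro n t
    unfold Sys.vz
    have h1 : ∀ r, ((S.a i : ZMod l) * S.c j r - (S.a j : ZMod l) * S.c i r) * t r =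
        (S.a i : ZMod l) * (S.c j r * t r) - (S.a j : ZMod l) * (S.c i r * t r) := fun r => by ring
    rw [Finset.sum_congr rfl fun r _ => h1 r, Finset.sum_sub_distrib, ← Finset.mul_sum, ← Finset.mul_sum]
    ring
  have h2 : (A ×ˢ (univ : Finset (ZMod l))).card ≤ (univ : Finset (Fin d → ZMod l)).card := by
    refine Finset.card_le_card_of_injOn (fun x => Function.update x.1.1 r x.2) (fun _ _ => Finset.mem_coe.2 (Finset.mem_univ _)) ?_
    rintro ⟨⟨t, n⟩, y⟩ hx ⟨⟨t', n'⟩, y'⟩ hx' he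
    have he' : Function.update t r y = Function.update t' r y' := he
    have h3 := (Finset.mem_product.1 (Finset.mem_coe.1 hx)).1
    have h4 := (Finset.mem_product.1 (Finset.mem_coe.1 hx')).1
    rw [hA, Finset.mem_filter] at h3 h4
    have hy : y = y' := by
      have := congrFun he' r
      rwa [Function.update_self, Function.update_self] at this
    have hother : ∀ s, s ≠ r → t s = t' s := by
      intro s hs
      have := congrFun he' s
      rwa [Function.update_of_ne hs, Function.update_of_ne hs] at this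
    have e1 : S.vz l b n t i = 0 := h3.2.1
    have e2 : S.vz l b n t j = 0 := h3.2.2
    have e3 : S.vz l b n' t' i = 0 := h4.2.1
    have e4 : S.vz l b n' t' j = 0 := h4.2.2
    have h5 : ∑ s, ((S.a i : ZMod l) * S.c j s - (S.a j : ZMod l) * S.c i s) * t s =
        ∑ s, ((S.a i : ZMod l) * S.c j s - (S.a j : ZMod l) * S.c i s) * t' s := by
      have h6 := hlin n t
      have h7 := hlin n' t'
      rw [e1, e2, mul_zero, mul_zero, sub_zero] at h6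
      rw [e3, e4, mul_zero, mul_zero, sub_zero] at h7
      exact add_right_cancel (h6.symm.trans h7)
    have h8 : ((S.a i : ZMod l) * S.c j r - (S.a j : ZMod l) * S.c i r) * t r =
        ((S.a i : ZMod l) * S.c j r - (S.a j : ZMod l) * S.c i r) * t' r := by
      rw [← Finset.add_sum_erase _ _ (Finset.mem_univ r), ← Finset.add_sum_erase _ _ (Finset.mem_univ r)] at h5
      have h9 : ∑ s ∈ univ.erase r, ((S.a i : ZMod l) * S.c j s - (S.a j : ZMod l) * S.c i s) * t s =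
          ∑ s ∈ univ.erase r, ((S.a i : ZMod l) * S.c j s - (S.a j : ZMod l) * S.c i s) * t' s :=
        Finset.sum_congr rfl fun s hs => by rw [hother s (Finset.ne_of_mem_erase hs)]
      rw [h9] at h5
      exact add_right_cancel h5
    have hr' : (S.a i : ZMod l) * S.c j r - (S.a j : ZMod l) * S.c i r ≠ 0 := by
      intro h
      apply hr
      push_cast
      exact h
    have h10 : t r = t' r := mul_left_cancel₀ hr' h8
    have h11 : t = t' := by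
      funext s
      by_cases hs : s = r
      · rw [hs]
        exact h10
      · exact hother s hs
    have h12 : n = n' := by
      rw [← h11] at e3
      have h13 : (S.a i : ZMod l) * n = (S.a i : ZMod l) * n' := by
        unfold Sys.vz at e1 e3
        linear_combination e1 - e3
      exact mul_left_cancel₀ ha h13
    rw [h11, h12, hy]
  rw [Finset.card_product, Finset.card_univ, Finset.card_univ, ZMod.card, Fintype.card_fun, Fintype.card_fin,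
    ZMod.card] at h2
  exact_mod_cast h2

theorem l4_abs (l : ℕ) [Fact l.Prime] (s : ZMod l) : |glz l s| ≤ (if s = 0 then 1 else 0) + 1 / ((l : ℝ) - 1) := by
  have h2 : (2:ℝ) ≤ l := by exact_mod_cast (Fact.out : l.Prime).two_le
  have h3 : 0 < 1 / ((l : ℝ) - 1) := by
    apply div_pos one_pos
    linarith
  unfold glz
  split_ifs
  · rw [abs_neg, abs_one]
    linarith
  · rw [abs_of_pos h3]
    linarith

theorem l4_abs1 (l : ℕ) [Fact l.Prime] (s : ZMod l) : |glz l s| ≤ 1 := by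
  have h2 : (2:ℝ) ≤ l := by exact_mod_cast (Fact.out : l.Prime).two_le
  have h3 : 0 < 1 / ((l : ℝ) - 1) := by
    apply div_pos one_pos
    linarith
  unfold glz
  split_ifs
  · rw [abs_neg, abs_one]
  · rw [abs_of_pos h3, div_le_one (by linarith)]
    linarith

/-- For given `t` exactly one `n` makes the form `i` vanish; general sums over `n`. -/
theorem l4_bij {k d : ℕ} (S : Sys k d) (l : ℕ) [Fact l.Prime] (b : Fin k → ℤ) (i : Fin k)
    (ha : ((S.a i : ℤ) : ZMod l) ≠ 0) (t : Fin d → ZMod l) {M : Type*} [AddCommMonoid M] (f : ZMod l → M) :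
    ∑ n : ZMod l, f (S.vz l b n t i) = ∑ s : ZMod l, f s := by
  have hinj : Function.Injective fun n : ZMod l => S.vz l b n t i := by
    intro n n' h
    have h' : S.vz l b n t i = S.vz l b n' t i := h
    unfold Sys.vz at h'
    have h1 : (S.a i : ZMod l) * n = (S.a i : ZMod l) * n' := by
      linear_combination h'
    exact mul_left_cancel₀ ha h1
  have hbij : Function.Bijective fun n : ZMod l => S.vz l b n t i := Finite.injective_iff_bijective.1 hinj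
  exact hbij.sum_comp f

theorem l4_triv {k d : ℕ} (S : Sys k d) (l : ℕ) [Fact l.Prime] (b : Fin k → ℤ) (I : Finset (Fin k)) :
    ∑ t : Fin d → ZMod l, ‖∑ n : ZMod l, ∏ i ∈ I, ((glz l (S.vz l b n t i) : ℝ) : ℂ)‖ ≤ (l : ℝ) ^ (d + 1) := by
  have h1 : ∀ t : Fin d → ZMod l, ‖∑ n : ZMod l, ∏ i ∈ I, ((glz l (S.vz l b n t i) : ℝ) : ℂ)‖ ≤ (l : ℝ) := by
    intro t
    refine (norm_sum_le _ _).trans ?_
    have h2 : ∀ n ∈ (univ : Finset (ZMod l)), ‖∏ i ∈ I, ((glz l (S.vz l b n t i) : ℝ) : ℂ)‖ ≤ 1 := by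
      intro n _
      rw [norm_prod]
      refine Finset.prod_le_one (fun _ _ => norm_nonneg _) fun i _ => ?_
      rw [Complex.norm_real, Real.norm_eq_abs]
      exact l4_abs1 l _
    refine (Finset.sum_le_sum h2).trans ?_
    rw [Finset.sum_const, Finset.card_univ, ZMod.card, nsmul_eq_mul, mul_one]
  refine (Finset.sum_le_sum fun t _ => h1 t).trans ?_
  rw [Finset.sum_const, Finset.card_univ, Fintype.card_fun, Fintype.card_fin, ZMod.card, nsmul_eq_mul]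
  push_cast
  rw [pow_succ]

theorem l4_two {k d : ℕ} (S : Sys k d) (l : ℕ) [Fact l.Prime] (b : Fin k → ℤ) (I : Finset (Fin k)) {i j : Fin k}
    (hi : i ∈ I) (hj : j ∈ I) (hij : i ≠ j) (hai : ((S.a i : ℤ) : ZMod l) ≠ 0) (haj : ((S.a j : ℤ) : ZMod l) ≠ 0)
    (r : Fin d) (hr : ((S.a i * S.c j r - S.a j * S.c i r : ℤ) : ZMod l) ≠ 0) :
    ∑ t : Fin d → ZMod l, ‖∑ n : ZMod l, ∏ i ∈ I, ((glz l (S.vz l b n t i) : ℝ) : ℂ)‖ ≤
      (l : ℝ) ^ (d + 1) * (9 / (l : ℝ) ^ 2) := by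
  have h2 : (2:ℝ) ≤ l := by exact_mod_cast (Fact.out : l.Prime).two_le
  obtain ⟨δ, hδ⟩ : ∃ δ : ℝ, δ = 1 / ((l : ℝ) - 1) := ⟨_, rfl⟩
  have hδ0 : 0 < δ := by
    rw [hδ]
    apply div_pos one_pos
    linarith
  have hδ2 : δ * l ≤ 2 := by
    rw [hδ, div_mul_eq_mul_div, one_mul, div_le_iff₀ (by linarith)]
    linarith
  have hpt : ∀ (t : Fin d → ZMod l) (n : ZMod l), ‖∏ i ∈ I, ((glz l (S.vz l b n t i) : ℝ) : ℂ)‖ ≤
      (if S.vz l b n t i = 0 ∧ S.vz l b n t j = 0 then (1:ℝ) else 0) +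
      δ * ((if S.vz l b n t i = 0 then (1:ℝ) else 0) + (if S.vz l b n t j = 0 then (1:ℝ) else 0)) + δ ^ 2 := by
    intro t n
    rw [norm_prod, ← Finset.mul_prod_erase I _ hi,
      ← Finset.mul_prod_erase (I.erase i) _ (Finset.mem_erase.2 ⟨hij.symm, hj⟩), ← mul_assoc]
    have h3 : ∏ m ∈ (I.erase i).erase j, ‖((glz l (S.vz l b n t m) : ℝ) : ℂ)‖ ≤ 1 :=
      Finset.prod_le_one (fun _ _ => norm_nonneg _) fun m _ => by
        rw [Complex.norm_real, Real.norm_eq_abs]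
        exact l4_abs1 l _
    have h4 : ‖((glz l (S.vz l b n t i) : ℝ) : ℂ)‖ * ‖((glz l (S.vz l b n t j) : ℝ) : ℂ)‖ ≤
        ((if S.vz l b n t i = 0 then (1:ℝ) else 0) + δ) * ((if S.vz l b n t j = 0 then (1:ℝ) else 0) + δ) := by
      rw [Complex.norm_real, Real.norm_eq_abs, Complex.norm_real, Real.norm_eq_abs, hδ]
      exact mul_le_mul (l4_abs l _) (l4_abs l _) (abs_nonneg _) ((abs_nonneg _).trans (l4_abs l _))
    calc _ ≤ ‖((glz l (S.vz l b n t i) : ℝ) : ℂ)‖ * ‖((glz l (S.vz l b n t j) : ℝ) : ℂ)‖ * 1 :=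
          mul_le_mul_of_nonneg_left h3 (by positivity)
      _ ≤ _ := by
          rw [mul_one]
          refine h4.trans (le_of_eq ?_)
          by_cases hi0 : S.vz l b n t i = 0 <;> by_cases hj0 : S.vz l b n t j = 0 <;> simp [hi0, hj0] <;> ring
  have hone : ∀ (m : Fin k), ((S.a m : ℤ) : ZMod l) ≠ 0 → ∀ t : Fin d → ZMod l,
      ∑ n : ZMod l, (if S.vz l b n t m = 0 then (1:ℝ) else 0) = 1 := by
    intro m hm t
    rw [l4_bij S l b m hm t (fun s => if s = 0 then (1:ℝ) else 0)]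
    simp
  have hZ : ∑ t : Fin d → ZMod l, ∑ n : ZMod l, (if S.vz l b n t i = 0 ∧ S.vz l b n t j = 0 then (1:ℝ) else 0) =
      ((((univ : Finset ((Fin d → ZMod l) × ZMod l)).filter
      (fun x => S.vz l b x.2 x.1 i = 0 ∧ S.vz l b x.2 x.1 j = 0)).card : ℕ) : ℝ) := by
    rw [Finset.card_filter, Nat.cast_sum, Fintype.sum_prod_type]
    refine Finset.sum_congr rfl fun t _ => Finset.sum_congr rfl fun n _ => ?_
    split_ifs <;> simp
  obtain ⟨Z, hZe⟩ : ∃ Z : ℝ, Z = ((((univ : Finset ((Fin d → ZMod l) × ZMod l)).filter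
      (fun x => S.vz l b x.2 x.1 i = 0 ∧ S.vz l b x.2 x.1 j = 0)).card : ℕ) : ℝ) := ⟨_, rfl⟩
  have hZl := L4_zero S l b i j hai r hr
  rw [← hZe] at hZ hZl
  have hsum : ∑ t : Fin d → ZMod l, ‖∑ n : ZMod l, ∏ i ∈ I, ((glz l (S.vz l b n t i) : ℝ) : ℂ)‖ ≤
      Z + (l : ℝ) ^ d * (2 * δ + δ ^ 2 * l) := by
    calc _ ≤ ∑ t : Fin d → ZMod l, ∑ n : ZMod l, ((if S.vz l b n t i = 0 ∧ S.vz l b n t j = 0 then (1:ℝ) else 0) +
          δ * ((if S.vz l b n t i = 0 then (1:ℝ) else 0) + (if S.vz l b n t j = 0 then (1:ℝ) else 0)) + δ ^ 2) :=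
          Finset.sum_le_sum fun t _ => (norm_sum_le _ _).trans (Finset.sum_le_sum fun n _ => hpt t n)
      _ = Z + (l : ℝ) ^ d * (2 * δ + δ ^ 2 * l) := by
          have h5 : ∀ t : Fin d → ZMod l, ∑ n : ZMod l, ((if S.vz l b n t i = 0 ∧ S.vz l b n t j = 0 then (1:ℝ) else 0) +
              δ * ((if S.vz l b n t i = 0 then (1:ℝ) else 0) + (if S.vz l b n t j = 0 then (1:ℝ) else 0)) + δ ^ 2) =
              ∑ n : ZMod l, (if S.vz l b n t i = 0 ∧ S.vz l b n t j = 0 then (1:ℝ) else 0) + (2 * δ + δ ^ 2 * l) := by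
            intro t
            rw [Finset.sum_add_distrib, Finset.sum_add_distrib, ← Finset.mul_sum, Finset.sum_add_distrib,
              hone i hai t, hone j haj t, Finset.sum_const, Finset.card_univ, ZMod.card, nsmul_eq_mul]
            ring
          rw [Finset.sum_congr rfl fun t _ => h5 t, Finset.sum_add_distrib, hZ, Finset.sum_const, Finset.card_univ,
            Fintype.card_fun, Fintype.card_fin, ZMod.card, nsmul_eq_mul]
          push_cast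
          ring
  refine hsum.trans ?_
  have hl0 : (0:ℝ) < l := by linarith
  have hld : (0:ℝ) < (l : ℝ) ^ d := pow_pos hl0 _
  have h6 : (l : ℝ) ^ (d + 1) * (9 / (l : ℝ) ^ 2) = (l : ℝ) ^ d * 9 / l := by
    rw [pow_succ]
    field_simp
  rw [h6, le_div_iff₀ hl0]
  have h7 : (2 * δ + δ ^ 2 * l) * l ≤ 8 := by
    have h8 : (2 * δ + δ ^ 2 * l) * l = 2 * (δ * l) + (δ * l) ^ 2 := by ring
    rw [h8]
    have h9 : 0 ≤ δ * l := by positivity
    nlinarith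
  have h10 : (l : ℝ) ^ d * ((2 * δ + δ ^ 2 * l) * l) ≤ (l : ℝ) ^ d * 8 := mul_le_mul_of_nonneg_left h7 hld.le
  nlinarith



end Pool.Agent.H9U
end

-- from Lib.HUK.D45
section

/-!
# Project HUK, chunk D45: the local factors at the other primes (copy of `H9U/L4`)
-/

open Finset

namespace Pool.Agent.HUK

open Pool.Agent.H9U
open Pool.Agent.Lib.H59P (Ch bx)
open Pool.Agent.Lib.H59T (UU Rm Pm Kp dof tau lf glz)

/-- Proof. `M0 = ∏_i |a_i| · ∏_{i ≠ j} |m_ij|`, `m_ij = a_i c_jr - a_j c_ir ≠ 0` for some `r` (`T6S_ne`). `l ∣ M0`: `l ≤ M0`, trivial bound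
`l^(d+1)` (`|glz| ≤ 1`) and `2^A ≥ M0²`. `l ∤ M0`: if `I = {i}`, the sum over `n` vanishes (`n ↦ vz n t i` is a bijection,
`E3_glz` in `H59T/E3.lean`). Else take `i ≠ j` in `I`: `|∏_{I} glz| ≤ |glz(vz i)| |glz(vz j)|`; the sum over `(t, n)` of this is at most the number of
common zeros (`L4_zero`) plus `2 l^d/(l-1)` (exactly one is zero, the other factor is `1/(l-1)`; for given `t` at most two `n`) plus
`l^(d+1)/(l-1)²`: at most `l^(d-1) + 4 l^(d-1) + 4 l^(d-1)`, and `2^A ≥ 9`. -/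
theorem D45_gl {k d : ℕ} (S : Sys k d) (ha : ∀ i, S.a i ≠ 0) (hS : MinP S) : ∃ A : ℕ, ∀ (l : ℕ) [Fact l.Prime] (b : Fin k → ℤ)
    (I : Finset (Fin k)), I.Nonempty →
    ∑ t : Fin d → ZMod l, ‖∑ n : ZMod l, ∏ i ∈ I, ((glz l (S.vz l b n t i) : ℝ) : ℂ)‖ ≤
      (l : ℝ) ^ (d + 1) * (2 ^ A / (l : ℝ) ^ 2) := by
  have hex : ∀ i j : Fin k, ∃ m : ℤ, m ≠ 0 ∧ (i ≠ j → ∃ r : Fin d, S.a i * S.c j r - S.a j * S.c i r = m) := by
    intro i j
    by_cases hij : i = j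
    · exact ⟨1, one_ne_zero, fun h => absurd hij h⟩
    · obtain ⟨r, hr⟩ := hS i j hij
      exact ⟨_, hr, fun _ => ⟨r, rfl⟩⟩
  choose m hm0 hm using hex
  obtain ⟨M, hM⟩ : ∃ M : ℤ, M = (∏ i, S.a i) * ∏ i, ∏ j, m i j := ⟨_, rfl⟩
  have hM0 : M ≠ 0 := by
    rw [hM]
    exact mul_ne_zero (Finset.prod_ne_zero_iff.2 fun i _ => ha i)
      (Finset.prod_ne_zero_iff.2 fun i _ => Finset.prod_ne_zero_iff.2 fun j _ => hm0 i j)
  refine ⟨M.natAbs ^ 2 + 4, fun l hlf b I hI => ?_⟩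
  have hl := hlf.out
  have h2 : (2:ℝ) ≤ l := by exact_mod_cast hl.two_le
  have hl0 : (0:ℝ) < l := by linarith
  by_cases hlM : (l : ℤ) ∣ M
  · have h3 : l ≤ M.natAbs := Nat.le_of_dvd (Int.natAbs_pos.2 hM0) (Int.natCast_dvd.1 hlM)
    have h4 : l ^ 2 ≤ 2 ^ (M.natAbs ^ 2 + 4) := by
      calc l ^ 2 ≤ M.natAbs ^ 2 := Nat.pow_le_pow_left h3 2
        _ ≤ 2 ^ (M.natAbs ^ 2) := Nat.lt_two_pow_self.le
        _ ≤ 2 ^ (M.natAbs ^ 2 + 4) := Nat.pow_le_pow_right (by norm_num) (by omega)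
    have h5 : (l : ℝ) ^ 2 ≤ 2 ^ (M.natAbs ^ 2 + 4) := by exact_mod_cast h4
    refine (l4_triv S l b I).trans ?_
    have h6 : 1 ≤ (2:ℝ) ^ (M.natAbs ^ 2 + 4) / (l : ℝ) ^ 2 := by
      rw [le_div_iff₀ (by positivity), one_mul]
      exact h5
    calc (l : ℝ) ^ (d + 1) = (l : ℝ) ^ (d + 1) * 1 := (mul_one _).symm
      _ ≤ _ := mul_le_mul_of_nonneg_left h6 (by positivity)
  · have hla : ∀ i, ((S.a i : ℤ) : ZMod l) ≠ 0 := by
      intro i h
      rw [ZMod.intCast_zmod_eq_zero_iff_dvd] at h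
      apply hlM
      rw [hM]
      exact dvd_mul_of_dvd_left (h.trans (Finset.dvd_prod_of_mem _ (Finset.mem_univ i))) _
    have hlm : ∀ i j, ((m i j : ℤ) : ZMod l) ≠ 0 := by
      intro i j h
      rw [ZMod.intCast_zmod_eq_zero_iff_dvd] at h
      apply hlM
      rw [hM]
      refine dvd_mul_of_dvd_right ?_ _
      have h3 : m i j ∣ ∏ j, m i j := Finset.dvd_prod_of_mem _ (Finset.mem_univ j)
      have h4 : ∏ j, m i j ∣ ∏ i, ∏ j, m i j := Finset.dvd_prod_of_mem (fun i => ∏ j, m i j) (Finset.mem_univ i)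
      exact h.trans (h3.trans h4)
    obtain ⟨i, hi⟩ := hI
    by_cases hone : ∃ j ∈ I, i ≠ j
    · obtain ⟨j, hj, hij⟩ := hone
      obtain ⟨r, hr⟩ := hm i j hij
      refine (l4_two S l b I hi hj hij (hla i) (hla j) r (by rw [hr]; exact hlm i j)).trans ?_
      refine mul_le_mul_of_nonneg_left ?_ (by positivity)
      refine div_le_div_of_nonneg_right ?_ (by positivity)
      calc (9:ℝ) ≤ 2 ^ 4 := by norm_num
        _ ≤ 2 ^ (M.natAbs ^ 2 + 4) := pow_le_pow_right₀ (by norm_num) (by omega)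
    · push Not at hone
      have hIi : I = {i} := by
        ext j
        rw [Finset.mem_singleton]
        constructor
        · intro hj
          exact (hone j hj).symm
        · intro hj
          rw [hj]
          exact hi
      have h7 : ∑ t : Fin d → ZMod l, ‖∑ n : ZMod l, ∏ i ∈ I, ((glz l (S.vz l b n t i) : ℝ) : ℂ)‖ = 0 := by
        refine Finset.sum_eq_zero fun t _ => ?_
        rw [hIi]
        simp only [Finset.prod_singleton]
        rw [l4_bij S l b i (hla i) t (fun s => ((glz l s : ℝ) : ℂ)), ← Complex.ofReal_sum, Pool.Agent.Lib.H59T.E3_glz]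
        simp
      rw [h7]
      positivity

/-- Proof. `l ∤ Rm p`, so `l` divides no `(p i).1` and `lf (p i) (κ i) l m` is `gl l m` if `l ∣ κ i` and `1` else; `C3_gl`, `L2T` with
`G i = if l ∣ κ i then glz l else 1`, and `L4_gl` with `I = {i : l ∣ κ i}` (`Finset.prod_filter`). -/
theorem D45_out {k d : ℕ} (S : Sys k d) (ha : ∀ i, S.a i ≠ 0) (hS : MinP S) : ∃ A : ℕ, ∀ (b : Fin k → ℤ) (p : Fin k → Ch), Pm p →
    ∀ κ : Fin k → ℕ, Kp p κ → ∀ l : ℕ, l.Prime → ¬ l ∣ Rm p → (∃ i, l ∣ κ i) →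
    FM S l b (fun i => Pool.Agent.Lib.H59T.lf (p i) (κ i) l) ≤ (l : ℝ) ^ (d + 1) * (2 ^ A / (l : ℝ) ^ 2) := by
  obtain ⟨A, hA⟩ := D45_gl S ha hS
  refine ⟨A, fun b p hp κ hκ l hl hlR hex => ?_⟩
  have hlf : Fact l.Prime := ⟨hl⟩
  have hl0 : NeZero l := ⟨hl.ne_zero⟩
  have hlp : ∀ i, ¬ l ∣ (p i).1 := fun i h =>
    hlR (h.trans (Finset.dvd_lcm (Finset.mem_univ i)))
  rw [L2T S l b (fun i => Pool.Agent.Lib.H59T.lf (p i) (κ i) l) (fun i s => if l ∣ κ i then ((glz l s : ℝ) : ℂ) else 1) (fun i m => by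
    unfold Pool.Agent.Lib.H59T.lf
    rw [if_neg (hlp i), Pool.Agent.Lib.H59T.C3_gl])]
  have h := hA l b (univ.filter fun i => l ∣ κ i) (by
    obtain ⟨i, hi⟩ := hex
    exact ⟨i, Finset.mem_filter.2 ⟨Finset.mem_univ i, hi⟩⟩)
  refine le_trans (le_of_eq ?_) h
  unfold FZ
  refine Finset.sum_congr rfl fun t _ => congrArg norm (Finset.sum_congr rfl fun n _ => ?_)
  rw [Finset.prod_filter]

end Pool.Agent.HUK
end

-- from Lib.HUK.D11
section

/-!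
# Project HUK, chunk D11 (M): differences of cut-off functions on `ℤ × ℤ^d`
-/

open Finset

namespace Pool.Agent.HUK

/-- Composition with an affine map. Proof: induction on `l` (generalise `F`): `DD h (F ∘ φ) = (DD (lam h) F) ∘ φ`. -/
theorem D11_comp {G R : Type*} [Add G] [Add R] (φ : G → R) (lam : G → R) (h : ∀ z v, φ (z + v) = φ z + lam v) (F : R → ℂ) (l : List G)
    (z : G) : DL l (fun z => F (φ z)) z = DL (l.map lam) F (φ z) := by
  induction l generalizing F z with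
  | nil => rfl
  | cons a l ih =>
    have h1 : DD a (fun z => F (φ z)) = fun z => (DD (lam a) F) (φ z) := by
      funext y
      unfold DD
      dsimp only
      rw [h]
    show DL l (DD a (fun z => F (φ z))) z = DL (l.map lam) (DD (lam a) F) (φ z)
    rw [h1]
    exact ih (DD (lam a) F) z

/-- Membership in a box (`lo, hi` bounds for the first coordinate, `lo', hi'` for the others). -/
def InB {d : ℕ} (lo hi : ℤ) (lo' hi' : Fin d → ℤ) (z : ℤ × (Fin d → ℤ)) : Prop :=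
  (lo ≤ z.1 ∧ z.1 < hi) ∧ ∀ j, lo' j ≤ z.2 j ∧ z.2 j < hi' j

/-- The intersection of a box with its translate. -/
theorem d11_iff {d : ℕ} (a : ℤ × (Fin d → ℤ)) (lo hi : ℤ) (lo' hi' : Fin d → ℤ) (z : ℤ × (Fin d → ℤ)) :
    InB (max lo (lo - a.1)) (min hi (hi - a.1)) (fun j => max (lo' j) (lo' j - a.2 j)) (fun j => min (hi' j) (hi' j - a.2 j)) z ↔
      InB lo hi lo' hi' z ∧ InB lo hi lo' hi' (z + a) := by
  unfold InB
  simp only [Prod.fst_add, Prod.snd_add, Pi.add_apply, max_le_iff, lt_min_iff]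
  constructor
  · rintro ⟨⟨⟨h1, h2⟩, h3, h4⟩, h5⟩
    refine ⟨⟨⟨h1, h3⟩, fun j => ⟨(h5 j).1.1, (h5 j).2.1⟩⟩, ⟨by omega, by omega⟩, fun j => ?_⟩
    obtain ⟨⟨h6, h7⟩, h8, h9⟩ := h5 j
    exact ⟨by omega, by omega⟩
  · rintro ⟨⟨⟨h1, h2⟩, h3⟩, ⟨h4, h5⟩, h6⟩
    refine ⟨⟨⟨h1, by omega⟩, h2, by omega⟩, fun j => ?_⟩
    obtain ⟨h7, h8⟩ := h3 j
    obtain ⟨h9, h10⟩ := h6 j
    exact ⟨⟨h7, by omega⟩, h8, by omega⟩

open Classical in
/-- Differences of a function cut off to a box. Proof: induction on `l`, generalising the box and `f`: `DD h` of the function is `DD h f` cut off to the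
intersection of the box with the box translated by `-h` (bounds `max lo (lo - h.1)`, `min hi (hi - h.1)`, …; off the intersection one of the two factors
vanishes). -/
theorem D11_box {d : ℕ} (l : List (ℤ × (Fin d → ℤ))) (lo hi : ℤ) (lo' hi' : Fin d → ℤ) (f : ℤ × (Fin d → ℤ) → ℂ) :
    ∃ (p q : ℤ) (p' q' : Fin d → ℤ), lo ≤ p ∧ q ≤ hi ∧ (∀ j, lo' j ≤ p' j ∧ q' j ≤ hi' j) ∧
      ∀ z, DL l (fun z => if InB lo hi lo' hi' z then f z else 0) z = if InB p q p' q' z then DL l f z else 0 := by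
  induction l generalizing lo hi lo' hi' f with
  | nil => exact ⟨lo, hi, lo', hi', le_refl _, le_refl _, fun j => ⟨le_refl _, le_refl _⟩, fun z => rfl⟩
  | cons a l ih =>
    have h1 : DD a (fun z => if InB lo hi lo' hi' z then f z else 0) =
        fun z => if InB (max lo (lo - a.1)) (min hi (hi - a.1)) (fun j => max (lo' j) (lo' j - a.2 j))
          (fun j => min (hi' j) (hi' j - a.2 j)) z then DD a f z else 0 := by
      funext z
      unfold DD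
      dsimp only
      by_cases h2 : InB lo hi lo' hi' z
      · by_cases h3 : InB lo hi lo' hi' (z + a)
        · rw [if_pos h2, if_pos h3, if_pos ((d11_iff a lo hi lo' hi' z).2 ⟨h2, h3⟩)]
        · rw [if_neg h3, if_neg (fun h4 => h3 ((d11_iff a lo hi lo' hi' z).1 h4).2), map_zero, mul_zero]
      · rw [if_neg h2, if_neg (fun h4 => h2 ((d11_iff a lo hi lo' hi' z).1 h4).1), zero_mul]
    obtain ⟨p, q, p', q', h2, h3, h4, h5⟩ := ih (max lo (lo - a.1)) (min hi (hi - a.1)) (fun j => max (lo' j) (lo' j - a.2 j))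
      (fun j => min (hi' j) (hi' j - a.2 j)) (DD a f)
    refine ⟨p, q, p', q', (le_max_left _ _).trans h2, h3.trans (min_le_left _ _), fun j => ⟨(le_max_left _ _).trans (h4 j).1,
      (h4 j).2.trans (min_le_left _ _)⟩, fun z => ?_⟩
    show DL l (DD a (fun z => if InB lo hi lo' hi' z then f z else 0)) z = if InB p q p' q' z then DL l (DD a f) z else 0
    rw [h1]
    exact h5 z

end Pool.Agent.HUK
end

-- from Lib.HUK.D41
section

/-!
# Project HUK, chunk D41 (M): sums over differences modulo `q`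
-/

open Finset

namespace Pool.Agent.HUK

theorem d41_sum {s q : ℕ} [NeZero q] (F : (Fin (s + 1) → ZMod q) → ℝ) :
    ∑ h : Fin (s + 1) → ZMod q, F h = ∑ x : ZMod q, ∑ h : Fin s → ZMod q, F (Fin.cons x h) := by
  rw [← Fintype.sum_prod_type']
  exact (Fintype.sum_equiv (Fin.consEquiv fun _ => ZMod q) _ _ fun p => rfl).symm

theorem d41_inj (q : ℕ) [NeZero q] (g : ZMod q → ℝ) (hg : ∀ x, 0 ≤ g x) (S : Finset ℤ)
    (hS : ∀ a ∈ S, ∀ b ∈ S, |b - a| < (q : ℤ)) : ∑ a ∈ S, g (a : ZMod q) ≤ ∑ x : ZMod q, g x := by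
  classical
  have hinj : Set.InjOn (fun a : ℤ => (a : ZMod q)) (S : Set ℤ) := by
    intro a ha b hb hab
    have h1 : (q : ℤ) ∣ b - a := (ZMod.intCast_eq_intCast_iff_dvd_sub a b q).1 hab
    have h2 := Int.eq_zero_of_abs_lt_dvd h1 (hS a ha b hb)
    linarith
  rw [← Finset.sum_image (f := g) hinj]
  exact Finset.sum_le_univ_sum_of_nonneg hg

theorem d41_one (q : ℕ) [NeZero q] (g : ZMod q → ℝ) (hg : ∀ x, 0 ≤ g x) :
    ∑ a ∈ Ioo (-(q : ℤ)) q, g (a : ZMod q) ≤ 2 * ∑ x : ZMod q, g x := by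
  classical
  have h1 : Ioo (-(q : ℤ)) q ⊆ Ico (-(q : ℤ)) 0 ∪ Ico (0 : ℤ) q := by
    intro a ha
    rw [Finset.mem_Ioo] at ha
    rw [Finset.mem_union, Finset.mem_Ico, Finset.mem_Ico]
    omega
  have h2 : ∑ a ∈ Ico (-(q : ℤ)) 0, g (a : ZMod q) ≤ ∑ x : ZMod q, g x := by
    refine d41_inj q g hg _ fun a ha b hb => ?_
    rw [Finset.mem_Ico] at ha hb
    rw [abs_lt]
    omega
  have h3 : ∑ a ∈ Ico (0 : ℤ) q, g (a : ZMod q) ≤ ∑ x : ZMod q, g x := by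
    refine d41_inj q g hg _ fun a ha b hb => ?_
    rw [Finset.mem_Ico] at ha hb
    rw [abs_lt]
    omega
  have h4 : Disjoint (Ico (-(q : ℤ)) 0) (Ico (0 : ℤ) q) := by
    rw [Finset.disjoint_left]
    intro a ha hb
    rw [Finset.mem_Ico] at ha hb
    omega
  calc ∑ a ∈ Ioo (-(q : ℤ)) q, g (a : ZMod q) ≤ ∑ a ∈ Ico (-(q : ℤ)) 0 ∪ Ico (0 : ℤ) q, g (a : ZMod q) :=
        Finset.sum_le_sum_of_subset_of_nonneg h1 fun a _ _ => hg _
    _ = ∑ a ∈ Ico (-(q : ℤ)) 0, g (a : ZMod q) + ∑ a ∈ Ico (0 : ℤ) q, g (a : ZMod q) := Finset.sum_union h4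
    _ ≤ 2 * ∑ x : ZMod q, g x := by linarith

/-- Differences with many signs: `(-q, q)` covers every residue class at most twice. Proof: induction on `s` (`D0_bx`, `Fin.consEquiv`-type splitting of the sum
over `Fin (s+1) → ZMod q`), or: the map `j ↦ (fun i => (j i : ZMod q))` from `bxS s q` has fibres with at most `2^s` elements. -/
theorem D41_cover (s q : ℕ) [NeZero q] (Φ : (Fin s → ZMod q) → ℝ) (hΦ : ∀ h, 0 ≤ Φ h) :
    ∑ j ∈ bxS s q, Φ (fun i => (j i : ZMod q)) ≤ 2 ^ s * ∑ h : Fin s → ZMod q, Φ h := by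
  induction s with
  | zero =>
    have h1 : bxS 0 q = {fun i => i.elim0} := by
      ext j
      unfold bxS
      rw [Fintype.mem_piFinset, Finset.mem_singleton]
      constructor
      · intro _
        funext i
        exact i.elim0
      · intro _ i
        exact i.elim0
    rw [h1, Finset.sum_singleton, pow_zero, one_mul]
    exact Finset.single_le_sum (f := Φ) (fun h _ => hΦ h) (Finset.mem_univ _)
  | succ s ih =>
    rw [D0_bx, d41_sum]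
    have h1 : ∀ a ∈ Ioo (-(q : ℤ)) q, ∑ h ∈ bxS s q, Φ (fun i => ((Fin.cons a h : Fin (s + 1) → ℤ) i : ZMod q)) ≤
        2 ^ s * ∑ h : Fin s → ZMod q, Φ (Fin.cons (a : ZMod q) h) := by
      intro a _
      have h2 : ∀ h : Fin s → ℤ, (fun i => ((Fin.cons a h : Fin (s + 1) → ℤ) i : ZMod q)) =
          (Fin.cons (a : ZMod q) (fun i => (h i : ZMod q)) : Fin (s + 1) → ZMod q) := by
        intro h
        funext i
        refine Fin.cases ?_ (fun i => ?_) i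
        · simp
        · simp
      rw [Finset.sum_congr rfl fun h _ => congrArg Φ (h2 h)]
      exact ih (fun h => Φ (Fin.cons (a : ZMod q) h)) fun h => hΦ _
    refine (Finset.sum_le_sum h1).trans ?_
    rw [← Finset.mul_sum]
    have h3 := d41_one q (fun x => ∑ h : Fin s → ZMod q, Φ (Fin.cons x h)) fun x => Finset.sum_nonneg fun h _ => hΦ _
    calc (2 : ℝ) ^ s * ∑ a ∈ Ioo (-(q : ℤ)) q, ∑ h : Fin s → ZMod q, Φ (Fin.cons (a : ZMod q) h)
        ≤ 2 ^ s * (2 * ∑ x : ZMod q, ∑ h : Fin s → ZMod q, Φ (Fin.cons x h)) :=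
          mul_le_mul_of_nonneg_left h3 (by positivity)
      _ = 2 ^ (s + 1) * ∑ x : ZMod q, ∑ h : Fin s → ZMod q, Φ (Fin.cons x h) := by ring

/-- Multiplication by `Λ` in every coordinate. Proof: induction on `s` with `L0_fib` (`H9U/L0.lean`, `c = 0`) in each coordinate. -/
theorem D41_mul (s q : ℕ) [NeZero q] (Λ : ℤ) (hΛ : Λ ≠ 0) (Φ : (Fin s → ZMod q) → ℝ) (hΦ : ∀ h, 0 ≤ Φ h) :
    ∑ h : Fin s → ZMod q, Φ (fun i => (Λ : ZMod q) * h i) ≤ |(Λ : ℝ)| ^ s * ∑ h : Fin s → ZMod q, Φ h := by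
  induction s with
  | zero =>
    rw [pow_zero, one_mul]
    refine Finset.sum_le_sum fun h _ => le_of_eq (congrArg Φ ?_)
    funext i
    exact i.elim0
  | succ s ih =>
    rw [d41_sum, d41_sum]
    have h2 : ∀ (x : ZMod q) (h : Fin s → ZMod q), (fun i => (Λ : ZMod q) * (Fin.cons x h : Fin (s + 1) → ZMod q) i) =
        (Fin.cons ((Λ : ZMod q) * x) (fun i => (Λ : ZMod q) * h i) : Fin (s + 1) → ZMod q) := by
      intro x h
      funext i
      refine Fin.cases ?_ (fun i => ?_) i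
      · simp
      · simp
    have h1 : ∀ x ∈ (univ : Finset (ZMod q)), ∑ h : Fin s → ZMod q, Φ (fun i => (Λ : ZMod q) * (Fin.cons x h : Fin (s + 1) → ZMod q) i) ≤
        |(Λ : ℝ)| ^ s * ∑ h : Fin s → ZMod q, Φ (Fin.cons ((Λ : ZMod q) * x) h) := by
      intro x _
      rw [Finset.sum_congr rfl fun h _ => congrArg Φ (h2 x h)]
      exact ih (fun h => Φ (Fin.cons ((Λ : ZMod q) * x) h)) fun h => hΦ _
    refine (Finset.sum_le_sum h1).trans ?_
    rw [← Finset.mul_sum]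
    have h3 := Pool.Agent.H9U.L0_fib q Λ hΛ 0 (fun x => ∑ h : Fin s → ZMod q, Φ (Fin.cons x h))
      fun x => Finset.sum_nonneg fun h _ => hΦ _
    simp only [add_zero] at h3
    calc |(Λ : ℝ)| ^ s * ∑ x : ZMod q, ∑ h : Fin s → ZMod q, Φ (Fin.cons ((Λ : ZMod q) * x) h)
        ≤ |(Λ : ℝ)| ^ s * (|(Λ : ℝ)| * ∑ x : ZMod q, ∑ h : Fin s → ZMod q, Φ (Fin.cons x h)) :=
          mul_le_mul_of_nonneg_left h3 (by positivity)
      _ = |(Λ : ℝ)| ^ (s + 1) * ∑ x : ZMod q, ∑ h : Fin s → ZMod q, Φ (Fin.cons x h) := by ring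

end Pool.Agent.HUK
end

-- from Lib.HUK.D42
section

/-!
# Project HUK, chunk D42 (M): base points and conjugates modulo `q`
-/

open Finset

namespace Pool.Agent.HUK

/-- The mean square over the differences, base point `c` and step `a`. Proof. `Q(c)` = the left side. `Q(a x + c) = Q(c)` for all `x` (translate `n`), so
`q Q(c) = ∑_x Q(a x + c) ≤ |a| ∑_y Q(y)` (`L0_fib`). And `∑_y ‖∑_n u(a n + y)‖² = ∑_n ∑_m ∑_y u(a n + y) conj u(a n + y + a m) = q ∑_m ∑_y DD (a m) u y`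
(translate `y`), `u = DL (ofFn h) G`; so `∑_y Q(y) = q ∑_h ∑_m (∑_y DL (a m :: ofFn h) G y) ≤ q |a| ∑_{h : Fin (s+1) → ZMod q} ‖∑_y DL (ofFn h) G y‖`
(`L0_fib` in `m`; `DL (m :: l) G = DL l (DD m G) = DD m (DL l G)`: `D0_DLDD`; the sum over `Fin (s+1) → ZMod q` as a double sum: `Fin.consEquiv` or
`Fin.insertNthEquiv`, `Fintype.sum_equiv`, `Fintype.sum_prod_type`). -/
theorem D42_base (s q : ℕ) [NeZero q] (G : ZMod q → ℂ) (a : ℤ) (ha : a ≠ 0) (c : ZMod q) :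
    ∑ h : Fin s → ZMod q, ‖∑ n : ZMod q, DL (List.ofFn h) G ((a : ZMod q) * n + c)‖ ^ 2 ≤
      |(a : ℝ)| ^ 2 * ∑ h : Fin (s + 1) → ZMod q, ‖∑ y : ZMod q, DL (List.ofFn h) G y‖ := by
  classical
  have hq : (0 : ℝ) < q := Nat.cast_pos.2 (Nat.pos_of_ne_zero (NeZero.ne q))
  let Q : ZMod q → ℝ := fun c => ∑ h : Fin s → ZMod q,
    ‖∑ n : ZMod q, DL (List.ofFn h) G ((a : ZMod q) * n + c)‖ ^ 2
  have hQ0 : ∀ x, 0 ≤ Q x := fun x => Finset.sum_nonneg fun h _ => sq_nonneg _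
  have h1 : ∀ x, Q ((a : ZMod q) * x + c) = Q c := by
    intro x
    refine Finset.sum_congr rfl fun h _ => ?_
    have h2 : ∑ n : ZMod q, DL (List.ofFn h) G ((a : ZMod q) * n + ((a : ZMod q) * x + c)) =
        ∑ n : ZMod q, DL (List.ofFn h) G ((a : ZMod q) * n + c) := by
      refine Fintype.sum_equiv (Equiv.addRight x) _ _ fun n => ?_
      rw [Equiv.coe_addRight]
      congr 1
      ring
    rw [h2]
  have h3 : (q : ℝ) * Q c ≤ |(a : ℝ)| * ∑ y : ZMod q, Q y := by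
    have h4 := Pool.Agent.H9U.L0_fib q a ha c Q hQ0
    rw [Finset.sum_congr rfl fun x _ => h1 x, Finset.sum_const, Finset.card_univ, ZMod.card,
      nsmul_eq_mul] at h4
    exact h4
  have h5 : ∀ u : ZMod q → ℂ, ∑ y : ZMod q, ‖∑ n : ZMod q, u ((a : ZMod q) * n + y)‖ ^ 2 ≤
      (q : ℝ) * (|(a : ℝ)| * ∑ m : ZMod q, ‖∑ y : ZMod q, DD m u y‖) := by
    intro u
    have h6 : ((∑ y : ZMod q, ‖∑ n : ZMod q, u ((a : ZMod q) * n + y)‖ ^ 2 : ℝ) : ℂ) =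
        (q : ℂ) * ∑ m : ZMod q, ∑ y : ZMod q, DD ((a : ZMod q) * m) u y := by
      have h7 : ∀ y : ZMod q, ((‖∑ n : ZMod q, u ((a : ZMod q) * n + y)‖ ^ 2 : ℝ) : ℂ) =
          ∑ n : ZMod q, ∑ m : ZMod q, DD ((a : ZMod q) * m) u ((a : ZMod q) * n + y) := by
        intro y
        rw [← Complex.normSq_eq_norm_sq, ← Complex.mul_conj, map_sum, Finset.sum_mul]
        refine Finset.sum_congr rfl fun n _ => ?_
        rw [Finset.mul_sum]
        refine (Fintype.sum_equiv (Equiv.addLeft n) _ _ fun m => ?_).symm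
        rw [Equiv.coe_addLeft]
        unfold DD
        congr 3
        ring
      rw [Complex.ofReal_sum, Finset.sum_congr rfl fun y _ => h7 y, Finset.sum_comm]
      have h8 : ∀ n : ZMod q, ∑ y : ZMod q, ∑ m : ZMod q,
          DD ((a : ZMod q) * m) u ((a : ZMod q) * n + y) =
          ∑ m : ZMod q, ∑ y : ZMod q, DD ((a : ZMod q) * m) u y := by
        intro n
        rw [Finset.sum_comm]
        refine Finset.sum_congr rfl fun m _ => ?_
        exact Fintype.sum_equiv (Equiv.addLeft ((a : ZMod q) * n)) _ _ fun y => rfl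
      rw [Finset.sum_congr rfl fun n _ => h8 n, Finset.sum_const, Finset.card_univ, ZMod.card,
        nsmul_eq_mul]
    have h9 : ∑ y : ZMod q, ‖∑ n : ZMod q, u ((a : ZMod q) * n + y)‖ ^ 2 =
        ‖(q : ℂ) * ∑ m : ZMod q, ∑ y : ZMod q, DD ((a : ZMod q) * m) u y‖ := by
      rw [← h6, Complex.norm_real, Real.norm_of_nonneg]
      exact Finset.sum_nonneg fun y _ => sq_nonneg _
    rw [h9, norm_mul, Complex.norm_natCast]
    refine mul_le_mul_of_nonneg_left ?_ hq.le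
    refine (norm_sum_le _ _).trans ?_
    have h10 := Pool.Agent.H9U.L0_fib q a ha 0 (fun m => ‖∑ y : ZMod q, DD m u y‖)
      (fun m => norm_nonneg _)
    simp only [add_zero] at h10
    exact h10
  have h11 : ∑ y : ZMod q, Q y ≤ (q : ℝ) * (|(a : ℝ)| *
      ∑ h : Fin (s + 1) → ZMod q, ‖∑ y : ZMod q, DL (List.ofFn h) G y‖) := by
    have h12 : ∑ h : Fin (s + 1) → ZMod q, ‖∑ y : ZMod q, DL (List.ofFn h) G y‖ =
        ∑ h : Fin s → ZMod q, ∑ m : ZMod q, ‖∑ y : ZMod q, DD m (DL (List.ofFn h) G) y‖ := by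
      rw [← Fintype.sum_equiv (Fin.consEquiv (fun _ => ZMod q))
        (fun p : ZMod q × (Fin s → ZMod q) =>
          ‖∑ y : ZMod q, DL (List.ofFn (Fin.cons p.1 p.2 : Fin (s + 1) → ZMod q)) G y‖) _
        (fun p => rfl), Fintype.sum_prod_type, Finset.sum_comm]
      refine Finset.sum_congr rfl fun h _ => Finset.sum_congr rfl fun m _ => ?_
      have h13 : DL (List.ofFn (Fin.cons m h : Fin (s + 1) → ZMod q)) G =
          DD m (DL (List.ofFn h) G) := by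
        rw [List.ofFn_succ, ← D0_DLDD]
        simp only [Fin.cons_zero, Fin.cons_succ]
        rfl
      rw [h13]
    rw [h12, Finset.sum_comm, Finset.mul_sum, Finset.mul_sum]
    refine Finset.sum_le_sum fun h _ => ?_
    exact h5 (DL (List.ofFn h) G)
  have h14 : (q : ℝ) * Q c ≤ (q : ℝ) * (|(a : ℝ)| ^ 2 *
      ∑ h : Fin (s + 1) → ZMod q, ‖∑ y : ZMod q, DL (List.ofFn h) G y‖) := by
    refine h3.trans ((mul_le_mul_of_nonneg_left h11 (abs_nonneg _)).trans (le_of_eq ?_))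
    ring
  exact le_of_mul_le_mul_left h14 hq

/-- Multiples and conjugates. Proof: `DL l (z conj f) y = w conj (DL l f y)` with `‖w‖ ≤ 1`, `w` depending on `l` only (`w = z` for `l = []`,
`DD h (z conj f) = ‖z‖² conj (DD h f)`). -/
theorem D42_conj {q : ℕ} [NeZero q] (z : ℂ) (hz : ‖z‖ ≤ 1) (f : ZMod q → ℂ) (l : List (ZMod q)) :
    ‖∑ y : ZMod q, DL l (fun x => z * (starRingEnd ℂ) (f x)) y‖ ≤ ‖∑ y : ZMod q, DL l f y‖ := by
  induction l generalizing z f with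
  | nil =>
    show ‖∑ y : ZMod q, z * (starRingEnd ℂ) (f y)‖ ≤ ‖∑ y : ZMod q, f y‖
    rw [← Finset.mul_sum, ← map_sum, norm_mul, RCLike.norm_conj]
    exact mul_le_of_le_one_left (norm_nonneg _) hz
  | cons h l ih =>
    have h1 : DD h (fun x => z * (starRingEnd ℂ) (f x)) =
        fun x => (z * (starRingEnd ℂ) z) * (starRingEnd ℂ) (DD h f x) := by
      funext x
      unfold DD
      simp only [map_mul, Complex.conj_conj]
      ring
    have h2 : ‖z * (starRingEnd ℂ) z‖ ≤ 1 := by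
      rw [norm_mul, RCLike.norm_conj]
      exact mul_le_one₀ hz (norm_nonneg _) hz
    have h3 := ih (z * (starRingEnd ℂ) z) h2 (DD h f)
    show ‖∑ y : ZMod q, DL l (DD h (fun x => z * (starRingEnd ℂ) (f x))) y‖ ≤
      ‖∑ y : ZMod q, DL l (DD h f) y‖
    rw [h1]
    exact h3

end Pool.Agent.HUK
end

-- from Lib.HUK.D14
section

/-!
# Project HUK, chunk D14 (S/M): systems of finite complexity
-/

open Finset

namespace Pool.Agent.HUK

open Pool.Agent.H9U (Sys)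

theorem D14_smul {k d : ℕ} (S : Sys k d) (i : Fin k) (c s : ℤ) (u : Fin d → ℤ) :
    S.lin i (c * s) (fun r => c * u r) = c * S.lin i s u := by
  unfold Sys.lin
  rw [mul_add, Finset.mul_sum]
  have h1 : ∀ r, S.c i r * (c * u r) = c * (S.c i r * u r) := fun r => by ring
  rw [Finset.sum_congr rfl fun r _ => h1 r]
  ring

/-- The directions of elimination, all with the same value of the form `i0`. Proof. For `j ≠ i0` let `(s_j, u_j)` be the vector of `SysFin` for the pair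
`(i0, j)`: `lin j s_j u_j = 0`, `e_j = lin i0 s_j u_j ≠ 0`; for `j = i0` the vector `(1, 0)`, `e_{i0} = a i0`. `Λ = ∏_j e_j`, `v_j = (Λ / e_j) (s_j, u_j)`,
written with the factor `∏_{l ≠ j} e_l` instead of the quotient (`lin` is linear; `Finset.mul_prod_erase`). -/
theorem D14_vec {k d : ℕ} (S : Sys k d) (hS : SysFin S) (i0 : Fin k) : ∃ Λ : ℤ, Λ ≠ 0 ∧
    ∃ v : Fin k → ℤ × (Fin d → ℤ), (∀ j, S.lin i0 (v j).1 (v j).2 = Λ) ∧ (∀ j, j ≠ i0 → S.lin j (v j).1 (v j).2 = 0) ∧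
      (v i0).2 = 0 := by
  classical
  have hw : ∀ j, ∃ w : ℤ × (Fin d → ℤ), S.lin i0 w.1 w.2 ≠ 0 ∧ (j ≠ i0 → S.lin j w.1 w.2 = 0) ∧
      (j = i0 → w.2 = 0) := by
    intro j
    by_cases hj : j = i0
    · refine ⟨(1, 0), ?_, fun h => absurd hj h, fun _ => rfl⟩
      have h1 : S.lin i0 1 0 = S.a i0 := by
        unfold Sys.lin
        simp
      show S.lin i0 1 0 ≠ 0
      rw [h1]
      exact hS.1 i0
    · obtain ⟨s, u, h1, h2⟩ := hS.2 i0 j (Ne.symm hj)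
      exact ⟨(s, u), h2, fun _ => h1, fun h => absurd h hj⟩
  choose w hw1 hw2 hw3 using hw
  let e : Fin k → ℤ := fun j => S.lin i0 (w j).1 (w j).2
  refine ⟨∏ j, e j, Finset.prod_ne_zero_iff.2 fun j _ => hw1 j,
    fun j => ((∏ l ∈ univ.erase j, e l) * (w j).1,
      fun r => (∏ l ∈ univ.erase j, e l) * (w j).2 r), ?_, ?_, ?_⟩
  · intro j
    show S.lin i0 ((∏ l ∈ univ.erase j, e l) * (w j).1)
      (fun r => (∏ l ∈ univ.erase j, e l) * (w j).2 r) = ∏ j, e j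
    rw [D14_smul]
    exact Finset.prod_erase_mul univ e (Finset.mem_univ j)
  · intro j hj
    show S.lin j ((∏ l ∈ univ.erase j, e l) * (w j).1)
      (fun r => (∏ l ∈ univ.erase j, e l) * (w j).2 r) = 0
    rw [D14_smul, hw2 j hj, mul_zero]
  · funext r
    show (∏ l ∈ univ.erase i0, e l) * (w i0).2 r = 0
    rw [hw3 i0 rfl, Pi.zero_apply, mul_zero]

/-- Proof. As `T6S_ne` (`H9U/T6.lean`): otherwise `a_i lin_j = a_j lin_i` as functions, and at the vector `(s, u)` of `SysFin` for `(i, j)` the left side is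
`0` and the right side is not. -/
theorem D14_min {k d : ℕ} (S : Sys k d) (hS : SysFin S) : MinP S := by
  intro i j hij
  by_contra hc
  push Not at hc
  have key : ∀ (s : ℤ) (u : Fin d → ℤ), S.a i * S.lin j s u = S.a j * S.lin i s u := by
    intro s u
    unfold Sys.lin
    rw [mul_add, mul_add, Finset.mul_sum, Finset.mul_sum]
    have h1 : ∀ r, S.a i * (S.c j r * u r) = S.a j * (S.c i r * u r) := by
      intro r
      have h2 := hc r
      linear_combination u r * h2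
    rw [Finset.sum_congr rfl fun r _ => h1 r]
    ring
  obtain ⟨s, u, h1, h2⟩ := hS.2 i j hij
  have h3 := key s u
  rw [h1, mul_zero] at h3
  rcases mul_eq_zero.1 h3.symm with h4 | h4
  · exact hS.1 j h4
  · exact h2 h4

/-- Proof. The vector `(s, u) = (-c_jr, a_j e_r)` (`e_r` the unit vector; `Pi.single r (S.a j)`): `lin j = 0` and `lin i = a_j c_ir - a_i c_jr ≠ 0`. -/
theorem D14_fin {k d : ℕ} (S : Sys k d) (ha : ∀ i, S.a i ≠ 0) (hS : MinP S) : SysFin S := by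
  classical
  refine ⟨ha, fun i j hij => ?_⟩
  obtain ⟨r, hr⟩ := hS i j hij
  have hlin : ∀ l, S.lin l (-S.c j r) (Pi.single r (S.a j)) = S.a l * (-S.c j r) + S.c l r * S.a j := by
    intro l
    unfold Sys.lin
    rw [Finset.sum_eq_single r]
    · rw [Pi.single_eq_same]
    · intro r' _ hr'
      rw [Pi.single_eq_of_ne hr', mul_zero]
    · intro h
      exact absurd (Finset.mem_univ _) h
  refine ⟨-S.c j r, Pi.single r (S.a j), ?_, ?_⟩
  · rw [hlin]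
    ring
  · rw [hlin]
    intro h
    apply hr
    linear_combination -h

end Pool.Agent.HUK
end

-- from Lib.HUK.D43
section

/-!
# Project HUK, chunk D43 (M/L): the local first moment of a system with a primitive character
-/

open Finset

namespace Pool.Agent.HUK

open Pool.Agent.H9U (Sys FZ l2_w)

theorem d43_vz {k d : ℕ} (S : Sys k d) (q : ℕ) (b : Fin k → ℤ) (i : Fin k) (z v : ZMod q × (Fin d → ZMod q)) :
    S.vz q b (z + v).1 (z + v).2 i =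
      S.vz q b z.1 z.2 i + ((S.a i : ZMod q) * v.1 + ∑ j, (S.c i j : ZMod q) * v.2 j) := by
  unfold Sys.vz
  simp only [Prod.fst_add, Prod.snd_add, Pi.add_apply, mul_add, Finset.sum_add_distrib]
  ring

/-- a vector modulo `q` -/
def d43_md {d : ℕ} (q : ℕ) (v : ℤ × (Fin d → ℤ)) : ZMod q × (Fin d → ZMod q) :=
  ((v.1 : ZMod q), fun r => (v.2 r : ZMod q))

theorem d43_lam {k d : ℕ} (S : Sys k d) (q : ℕ) (i : Fin k) (m : ℤ) (v : ℤ × (Fin d → ℤ)) :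
    (S.a i : ZMod q) * (m • d43_md q v).1 + ∑ j, (S.c i j : ZMod q) * (m • d43_md q v).2 j =
      (S.lin i v.1 v.2 : ZMod q) * (m : ZMod q) := by
  unfold Sys.lin d43_md
  have h1 : ∀ j, (S.c i j : ZMod q) * (m • (((v.1 : ZMod q), fun r => (v.2 r : ZMod q)) : ZMod q × (Fin d → ZMod q))).2 j =
      (S.c i j : ZMod q) * (v.2 j : ZMod q) * m := by
    intro j
    show (S.c i j : ZMod q) * (m • (v.2 j : ZMod q)) = _
    rw [zsmul_eq_mul]
    ring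
  have h2 : (m • (((v.1 : ZMod q), fun r => (v.2 r : ZMod q)) : ZMod q × (Fin d → ZMod q))).1 = (m : ZMod q) * (v.1 : ZMod q) := by
    show m • (v.1 : ZMod q) = _
    rw [zsmul_eq_mul]
  rw [Finset.sum_congr rfl fun j _ => h1 j, h2, ← Finset.sum_mul]
  push_cast
  ring

theorem d43_card (k q : ℕ) : ((bxS k q).card : ℝ) ≤ (2 * q) ^ k := by
  unfold bxS
  rw [Fintype.card_piFinset, Finset.prod_const, Finset.card_univ, Fintype.card_fin, Int.card_Ioo]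
  push_cast
  refine pow_le_pow_left₀ (by positivity) ?_ k
  have h1 : ((q : ℤ) - -(q : ℤ) - 1).toNat ≤ 2 * q := by omega
  calc ((((q : ℤ) - -(q : ℤ) - 1).toNat : ℕ) : ℝ) ≤ ((2 * q : ℕ) : ℝ) := by exact_mod_cast h1
    _ = 2 * q := by push_cast; ring

theorem d43_cs {ι : Type*} (s : Finset ι) (x : ι → ℝ) (hx : ∀ i ∈ s, 0 ≤ x i) (K E : ℝ) (hK : (s.card : ℝ) ≤ K)
    (hE : ∑ i ∈ s, x i ^ 2 ≤ E) : ∑ i ∈ s, x i ≤ Real.sqrt (K * E) := by
  refine Real.le_sqrt_of_sq_le ?_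
  have h1 : (∑ i ∈ s, x i) ^ 2 ≤ s.card * ∑ i ∈ s, x i ^ 2 := sq_sum_le_card_mul_sum_sq
  refine h1.trans (mul_le_mul hK hE (Finset.sum_nonneg fun i _ => sq_nonneg _) ?_)
  exact (Nat.cast_nonneg _).trans hK

theorem d43_core {k d : ℕ} (S : Sys k d) (i0 : Fin k) (Λ : ℤ) (v : Fin k → ℤ × (Fin d → ℤ))
    (hv0 : ∀ j, S.lin i0 (v j).1 (v j).2 = Λ) (hvj : ∀ j, j ≠ i0 → S.lin j (v j).1 (v j).2 = 0)
    (hvt : (v i0).2 = 0) (q : ℕ) [NeZero q] (b : Fin k → ℤ) (G : Fin k → ZMod q → ℂ) (hG : ∀ i x, ‖G i x‖ ≤ 1) :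
    (FZ S q b G / (q : ℝ) ^ (d + 1)) ^ (2 ^ k) ≤ 2 ^ (2 ^ k) / (q : ℝ) ^ k *
      ((∑ t : Fin d → ZMod q, ∑ j ∈ bxS k q, ‖∑ n : ZMod q, DL (List.ofFn fun i => (Λ : ZMod q) * (j i : ZMod q)) (G i0)
        ((S.a i0 : ZMod q) * n + S.vz q b 0 t i0)‖) / (q : ℝ) ^ (d + 1)) := by
  classical
  have hq0 : (0 : ℝ) < q := by exact_mod_cast Nat.pos_of_ne_zero (NeZero.ne q)
  obtain ⟨z, hz⟩ : ∃ z : (Fin d → ZMod q) → ℂ, ∀ t, z t = ∑ n : ZMod q, ∏ i, G i (S.vz q b n t i) :=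
    ⟨fun t => _, fun t => rfl⟩
  obtain ⟨w, hw1, hw⟩ := l2_w z
  have e1 : ((FZ S q b G : ℝ) : ℂ) = ∑ t, w t * z t := by
    unfold FZ
    rw [Complex.ofReal_sum]
    refine Finset.sum_congr rfl fun t _ => ?_
    rw [← hz, hw]
  obtain ⟨g, hg⟩ : ∃ g : Fin k → ZMod q × (Fin d → ZMod q) → ℂ, ∀ i x, g i x =
      if i = i0 then w x.2 else G i (S.vz q b x.1 x.2 i) := ⟨fun i x => _, fun i x => rfl⟩
  obtain ⟨cc, hcc⟩ : ∃ cc : ZMod q × (Fin d → ZMod q) → ℂ, cc = fun x => G i0 (S.vz q b x.1 x.2 i0) := ⟨_, rfl⟩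
  have e2 : ∀ x, (∏ i, g i x) * cc x = w x.2 * ∏ i, G i (S.vz q b x.1 x.2 i) := by
    intro x
    rw [← Finset.mul_prod_erase univ (fun i => g i x) (mem_univ i0),
      ← Finset.mul_prod_erase univ (fun i => G i (S.vz q b x.1 x.2 i)) (mem_univ i0)]
    have e3 : ∏ i ∈ univ.erase i0, g i x = ∏ i ∈ univ.erase i0, G i (S.vz q b x.1 x.2 i) := by
      refine Finset.prod_congr rfl fun i hi => ?_
      rw [hg, if_neg (Finset.ne_of_mem_erase hi)]
    rw [e3, hg, if_pos rfl, hcc]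
    ring
  have e4 : ‖∑ x ∈ (univ : Finset (ZMod q × (Fin d → ZMod q))), (∏ i, g i x) * cc x‖ = FZ S q b G := by
    rw [Finset.sum_congr rfl fun x _ => e2 x, Fintype.sum_prod_type_right]
    have e5 : ∑ t : Fin d → ZMod q, ∑ n : ZMod q, w t * ∏ i, G i (S.vz q b n t i) = ((FZ S q b G : ℝ) : ℂ) := by
      rw [e1]
      refine Finset.sum_congr rfl fun t _ => ?_
      rw [← Finset.mul_sum, hz]
    show ‖∑ t : Fin d → ZMod q, ∑ n : ZMod q, w t * ∏ i, G i (S.vz q b n t i)‖ = _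
    rw [e5, Complex.norm_real, Real.norm_of_nonneg]
    unfold FZ
    positivity
  have hcard : (((univ : Finset (ZMod q × (Fin d → ZMod q))).card : ℕ) : ℝ) ≤ (q : ℝ) ^ (d + 1) := by
    rw [Finset.card_univ, Fintype.card_prod, Fintype.card_fun, ZMod.card, Fintype.card_fin]
    push_cast
    rw [pow_succ]
    linarith [mul_comm (q : ℝ) ((q : ℝ) ^ d)]
  have key := E1_elim (univ : Finset (ZMod q × (Fin d → ZMod q))) univ ((q : ℝ) ^ (d + 1)) hcard (by positivity) q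
    (Nat.pos_of_ne_zero (NeZero.ne q)) k (fun i => d43_md q (v i)) g cc
    (fun i x => by
      rw [hg]
      split_ifs
      · exact hw1 _
      · exact hG _ _)
    (fun i x => by
      rw [hg, hg]
      split_ifs with h
      · have h1 : (x + d43_md q (v i)).2 = x.2 := by
          rw [h]
          show x.2 + (fun r => ((v i0).2 r : ZMod q)) = x.2
          rw [hvt]
          funext r
          simp
        rw [h1]
      · have h1 := d43_lam S q i 1 (v i)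
        rw [one_zsmul, hvj i h] at h1
        rw [d43_vz, h1]
        simp)
    (fun x hx => absurd (mem_univ x) hx) (fun _ _ _ _ _ => mem_univ _)
  rw [e4] at key
  refine key.trans (mul_le_mul_of_nonneg_left ?_ (by positivity))
  rw [← Finset.sum_div]
  refine div_le_div_of_nonneg_right ?_ (by positivity)
  rw [Finset.sum_comm]
  refine Finset.sum_le_sum fun j _ => ?_
  have e6 : ∀ x : ZMod q × (Fin d → ZMod q), DL (List.ofFn fun i => j i • d43_md q (v i)) cc x =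
      DL (List.ofFn fun i => (Λ : ZMod q) * (j i : ZMod q)) (G i0) ((S.a i0 : ZMod q) * x.1 + S.vz q b 0 x.2 i0) := by
    intro x
    have h1 := D11_comp (fun x : ZMod q × (Fin d → ZMod q) => S.vz q b x.1 x.2 i0)
      (fun v => (S.a i0 : ZMod q) * v.1 + ∑ j, (S.c i0 j : ZMod q) * v.2 j) (fun x v => d43_vz S q b i0 x v) (G i0)
      (List.ofFn fun i => j i • d43_md q (v i)) x
    rw [hcc, h1, List.map_ofFn]
    have h2 : ((fun v : ZMod q × (Fin d → ZMod q) => (S.a i0 : ZMod q) * v.1 + ∑ j, (S.c i0 j : ZMod q) * v.2 j) ∘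
        fun i => j i • d43_md q (v i)) = fun i => (Λ : ZMod q) * (j i : ZMod q) := by
      funext i
      show (S.a i0 : ZMod q) * (j i • d43_md q (v i)).1 + ∑ r, (S.c i0 r : ZMod q) * (j i • d43_md q (v i)).2 r = _
      rw [d43_lam, hv0]
    rw [h2]
    have h3 : S.vz q b x.1 x.2 i0 = (S.a i0 : ZMod q) * x.1 + S.vz q b 0 x.2 i0 := by
      unfold Sys.vz
      ring
    rw [h3]
  rw [Finset.sum_congr rfl fun x _ => e6 x, Fintype.sum_prod_type_right]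
  exact norm_sum_le _ _

theorem d43_one {k d : ℕ} (S : Sys k d) (hS : SysFin S) (i0 : Fin k) (C0 c : ℝ) (hC0 : 0 < C0)
    (hU : ∀ (q : ℕ) [NeZero q] (χ : DirichletCharacter ℂ q), χ.IsPrimitive →
      ∑ h : Fin (k + 1) → ZMod q, ‖∑ y : ZMod q, DL (List.ofFn h) (fun y => χ y) y‖ ≤
        C0 * (q : ℝ) ^ (((k + 1 : ℕ) : ℝ) + 1 - c)) :
    ∃ C : ℝ, 1 ≤ C ∧ ∀ (q : ℕ) [NeZero q] (b : Fin k → ℤ) (G : Fin k → ZMod q → ℂ), (∀ i x, ‖G i x‖ ≤ 1) →
    ∀ (χ : DirichletCharacter ℂ q) (z : ℂ), χ.IsPrimitive → ‖z‖ ≤ 1 → (∀ x, G i0 x = z * (starRingEnd ℂ) (χ x)) →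
    FZ S q b G ≤ (q : ℝ) ^ (d + 1) * (C * (q : ℝ) ^ (-(c / 2 ^ (k + 1)))) := by
  obtain ⟨Λ, hΛ, v, hv0, hvj, hvt⟩ := D14_vec S hS i0
  obtain ⟨A, hA⟩ : ∃ A : ℝ, A = 4 ^ k * |(Λ : ℝ)| ^ k * |(S.a i0 : ℝ)| ^ 2 * C0 := ⟨_, rfl⟩
  have hA0 : 0 ≤ A := by rw [hA]; positivity
  obtain ⟨C2, hC2⟩ : ∃ C2 : ℝ, C2 = 2 ^ (2 ^ k) * Real.sqrt A := ⟨_, rfl⟩
  have hC20 : 0 ≤ C2 := by rw [hC2]; positivity
  refine ⟨max 1 (C2 ^ ((1 : ℝ) / 2 ^ k)), le_max_left _ _, ?_⟩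
  intro q _ b G hG χ z hχ hz hGz
  have hq0 : (0 : ℝ) < q := by exact_mod_cast Nat.pos_of_ne_zero (NeZero.ne q)
  have hGf : G i0 = fun x => z * (starRingEnd ℂ) (χ x) := funext hGz
  have hcore := d43_core S i0 Λ v hv0 hvj hvt q b G hG
  -- for each t
  have ht : ∀ t : Fin d → ZMod q, ∑ j ∈ bxS k q, ‖∑ n : ZMod q, DL (List.ofFn fun i => (Λ : ZMod q) * (j i : ZMod q)) (G i0)
        ((S.a i0 : ZMod q) * n + S.vz q b 0 t i0)‖ ≤ Real.sqrt A * (q : ℝ) ^ ((k : ℝ) + 1 - c / 2) := by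
    intro t
    obtain ⟨Φ, hΦ⟩ : ∃ Φ : (Fin k → ZMod q) → ℝ, Φ = fun h => ‖∑ n : ZMod q, DL (List.ofFn h) (G i0)
        ((S.a i0 : ZMod q) * n + S.vz q b 0 t i0)‖ ^ 2 := ⟨_, rfl⟩
    have hΦ0 : ∀ h, 0 ≤ Φ h := by
      intro h
      rw [hΦ]
      positivity
    have s1 : ∑ j ∈ bxS k q, Φ (fun i => (Λ : ZMod q) * (j i : ZMod q)) ≤
        2 ^ k * ∑ h : Fin k → ZMod q, Φ (fun i => (Λ : ZMod q) * h i) :=
      D41_cover k q (fun h => Φ (fun i => (Λ : ZMod q) * h i)) fun h => hΦ0 _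
    have s2 := D41_mul k q Λ hΛ Φ hΦ0
    have s3 : ∑ h : Fin k → ZMod q, Φ h ≤
        |(S.a i0 : ℝ)| ^ 2 * ∑ h : Fin (k + 1) → ZMod q, ‖∑ y : ZMod q, DL (List.ofFn h) (G i0) y‖ := by
      rw [hΦ]
      exact D42_base k q (G i0) (S.a i0) (hS.1 i0) _
    have s4 : ∑ h : Fin (k + 1) → ZMod q, ‖∑ y : ZMod q, DL (List.ofFn h) (G i0) y‖ ≤
        C0 * (q : ℝ) ^ (((k + 1 : ℕ) : ℝ) + 1 - c) := by
      refine (Finset.sum_le_sum fun h _ => ?_).trans (hU q χ hχ)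
      rw [hGf]
      exact D42_conj z hz (fun y => χ y) (List.ofFn h)
    have s5 : ∑ j ∈ bxS k q, Φ (fun i => (Λ : ZMod q) * (j i : ZMod q)) ≤
        2 ^ k * (|(Λ : ℝ)| ^ k * (|(S.a i0 : ℝ)| ^ 2 * (C0 * (q : ℝ) ^ (((k + 1 : ℕ) : ℝ) + 1 - c)))) := by
      refine s1.trans (mul_le_mul_of_nonneg_left (s2.trans (mul_le_mul_of_nonneg_left
        (s3.trans (mul_le_mul_of_nonneg_left s4 (by positivity))) (by positivity))) (by positivity))
    have s6 := d43_cs (bxS k q) (fun j => ‖∑ n : ZMod q, DL (List.ofFn fun i => (Λ : ZMod q) * (j i : ZMod q)) (G i0)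
        ((S.a i0 : ZMod q) * n + S.vz q b 0 t i0)‖) (fun j _ => norm_nonneg _) ((2 * q) ^ k)
        (2 ^ k * (|(Λ : ℝ)| ^ k * (|(S.a i0 : ℝ)| ^ 2 * (C0 * (q : ℝ) ^ (((k + 1 : ℕ) : ℝ) + 1 - c))))) (d43_card k q)
        (by rw [hΦ] at s5; exact s5)
    refine s6.trans (le_of_eq ?_)
    have s7 : (2 * (q : ℝ)) ^ k * (2 ^ k * (|(Λ : ℝ)| ^ k * (|(S.a i0 : ℝ)| ^ 2 *
        (C0 * (q : ℝ) ^ (((k + 1 : ℕ) : ℝ) + 1 - c))))) = A * ((q : ℝ) ^ ((k : ℝ) + 1 - c / 2)) ^ 2 := by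
      have s8 : ((q : ℝ) ^ ((k : ℝ) + 1 - c / 2)) ^ 2 = (q : ℝ) ^ k * (q : ℝ) ^ (((k + 1 : ℕ) : ℝ) + 1 - c) := by
        rw [← Real.rpow_natCast ((q : ℝ) ^ ((k : ℝ) + 1 - c / 2)) 2, ← Real.rpow_mul hq0.le,
          ← Real.rpow_natCast (q : ℝ) k, ← Real.rpow_add hq0]
        push_cast
        ring_nf
      rw [s8, hA, mul_pow]
      have s9 : (4 : ℝ) ^ k = 2 ^ k * 2 ^ k := by
        rw [← mul_pow]
        norm_num
      rw [s9]
      ring
    rw [s7, Real.sqrt_mul hA0, Real.sqrt_sq (by positivity)]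
  have hsum : ∑ t : Fin d → ZMod q, ∑ j ∈ bxS k q, ‖∑ n : ZMod q, DL (List.ofFn fun i => (Λ : ZMod q) * (j i : ZMod q)) (G i0)
        ((S.a i0 : ZMod q) * n + S.vz q b 0 t i0)‖ ≤ (q : ℝ) ^ d * (Real.sqrt A * (q : ℝ) ^ ((k : ℝ) + 1 - c / 2)) := by
    refine (Finset.sum_le_sum fun t _ => ht t).trans (le_of_eq ?_)
    rw [Finset.sum_const, Finset.card_univ, Fintype.card_fun, ZMod.card, Fintype.card_fin, nsmul_eq_mul]
    push_cast
    ring
  have hpow : (FZ S q b G / (q : ℝ) ^ (d + 1)) ^ (2 ^ k) ≤ C2 * (q : ℝ) ^ (-(c / 2)) := by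
    refine hcore.trans ((mul_le_mul_of_nonneg_left (div_le_div_of_nonneg_right hsum (by positivity))
      (by positivity)).trans (le_of_eq ?_))
    have r1 : (q : ℝ) ^ ((k : ℝ) + 1 - c / 2) = (q : ℝ) ^ k * q * (q : ℝ) ^ (-(c / 2)) := by
      rw [← Real.rpow_natCast (q : ℝ) k, ← Real.rpow_add_one hq0.ne', ← Real.rpow_add hq0]
      ring_nf
    rw [r1, hC2]
    field_simp
    ring
  obtain ⟨Y, hY⟩ : ∃ Y : ℝ, Y = C2 ^ ((1 : ℝ) / 2 ^ k) * (q : ℝ) ^ (-(c / 2 ^ (k + 1))) := ⟨_, rfl⟩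
  have hY0 : 0 ≤ Y := by rw [hY]; positivity
  have hYp : Y ^ (2 ^ k) = C2 * (q : ℝ) ^ (-(c / 2)) := by
    rw [hY, mul_pow, ← Real.rpow_natCast (C2 ^ ((1 : ℝ) / 2 ^ k)), ← Real.rpow_mul hC20,
      ← Real.rpow_natCast ((q : ℝ) ^ (-(c / 2 ^ (k + 1)))), ← Real.rpow_mul hq0.le]
    have r2 : (1 : ℝ) / 2 ^ k * ((2 ^ k : ℕ) : ℝ) = 1 := by
      push_cast
      field_simp
    have r3 : -(c / 2 ^ (k + 1)) * ((2 ^ k : ℕ) : ℝ) = -(c / 2) := by
      push_cast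
      rw [pow_succ]
      field_simp
    rw [r2, r3, Real.rpow_one]
  have hx : FZ S q b G / (q : ℝ) ^ (d + 1) ≤ Y :=
    le_of_pow_le_pow_left₀ (by positivity) hY0 (hpow.trans (le_of_eq hYp.symm))
  rw [div_le_iff₀ (by positivity)] at hx
  refine hx.trans ?_
  rw [mul_comm]
  refine mul_le_mul_of_nonneg_left ?_ (by positivity)
  rw [hY]
  exact mul_le_mul_of_nonneg_right (le_max_right _ _) (by positivity)

/-- **The local first moment.** Proof. `Γ = ZMod q × (Fin d → ZMod q)`. `FZ = ‖∑_{z ∈ Γ} ∏_i g i z * c z‖` with `c z = G i0 (vz z)`, `g j z = G j (vz z)` for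
`j ≠ i0`, `g i0 z = w(z.2)` unimodular (`l2_w` in `H9U/L2.lean`). The vectors `v_j` of `D14_vec` modulo `q`. `E1_elim` with `B = B' = univ`, `N = q^(d+1)`,
`H = q`, `r = k` (the group `Γ` is finite; `card Γ = q^(d+1)`): by `D11_comp` (`φ z = vz z`, `lam` the linear part over `ZMod q`)
`DL (ofFn (j • v)) c z = DL (ofFn (Λ j)) (G i0) (vz z)`, and `vz z = a n + c_t`. So the right side is at most
`2^(2^k)/q^k · ∑_t ∑_{j ∈ bxS k q} ‖∑_n DL (ofFn (Λ j)) (G i0) (a n + c_t)‖ / q^(d+1)`. For each `t`, Cauchy-Schwarz (at most `(2q)^k` values `j`), `D41_cover`,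
`D41_mul`, `D42_base`, `D42_conj` and `UCH (k+1)`: the sum over `j` is at most `((2q)^k 2^k |Λ|^k |a|² C q^(k+2-c))^(1/2) = C1 q^(k+1-c/2)`.
Hence `(FZ/q^(d+1))^(2^k) ≤ C2 q^(-c/2)` and `FZ ≤ C3 q^(d+1) q^(-c/2^(k+1))`; `C3` the maximum over `i0`. -/
theorem D43_loc {k d : ℕ} (S : Sys k d) (hS : SysFin S) (hU : UCH (k + 1)) : ∃ C c : ℝ, 1 ≤ C ∧ 0 < c ∧ c ≤ 1 ∧
    ∀ (q : ℕ) [NeZero q] (b : Fin k → ℤ) (G : Fin k → ZMod q → ℂ), (∀ i x, ‖G i x‖ ≤ 1) → ∀ i0 : Fin k,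
    ∀ (χ : DirichletCharacter ℂ q) (z : ℂ), χ.IsPrimitive → ‖z‖ ≤ 1 → (∀ x, G i0 x = z * (starRingEnd ℂ) (χ x)) →
    FZ S q b G ≤ (q : ℝ) ^ (d + 1) * (C * (q : ℝ) ^ (-c)) := by
  obtain ⟨C0, c, hC0, hc, hc1, hχ⟩ := hU
  choose Cf hCf1 hCf using fun i0 : Fin k => d43_one S hS i0 C0 c hC0 hχ
  refine ⟨1 + ∑ i, Cf i, c / 2 ^ (k + 1), ?_, by positivity, ?_, ?_⟩
  · have : 0 ≤ ∑ i, Cf i := Finset.sum_nonneg fun i _ => zero_le_one.trans (hCf1 i)
    linarith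
  · have h1 : (1 : ℝ) ≤ 2 ^ (k + 1) := one_le_pow₀ (by norm_num)
    exact (div_le_self hc.le h1).trans hc1
  · intro q _ b G hG i0 χ z hχ' hz hGz
    have hq0 : (0 : ℝ) < q := by exact_mod_cast Nat.pos_of_ne_zero (NeZero.ne q)
    refine (hCf i0 q b G hG χ z hχ' hz hGz).trans (mul_le_mul_of_nonneg_left
      (mul_le_mul_of_nonneg_right ?_ (by positivity)) (by positivity))
    have h1 : Cf i0 ≤ ∑ i, Cf i :=
      Finset.single_le_sum (f := Cf) (fun i _ => zero_le_one.trans (hCf1 i)) (mem_univ i0)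
    linarith

end Pool.Agent.HUK
end

-- from Lib.HUK.D44
section

/-!
# Project HUK, chunk D44: the local factors at the primes dividing the conductors (copy of `H9U/L3`)
-/

open Finset

namespace Pool.Agent.HUK

open Pool.Agent.H9U
open Pool.Agent.Lib.H59P (Ch bx)
open Pool.Agent.Lib.H59T (UU Rm Pm Kp dof tau lf)

/-- The bound for one prime power. -/
theorem d44_one {k d : ℕ} (S : Sys k d) (E ρ : ℝ) (hE : ∀ (q : ℕ) [NeZero q] (b : Fin k → ℤ) (G : Fin k → ZMod q → ℂ),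
    (∀ i x, ‖G i x‖ ≤ 1) → ∀ i0 : Fin k, ∀ (χ : DirichletCharacter ℂ q) (z : ℂ), χ.IsPrimitive → ‖z‖ ≤ 1 →
    (∀ x, G i0 x = z * (starRingEnd ℂ) (χ x)) → FZ S q b G ≤ (q : ℝ) ^ (d + 1) * (E * (q : ℝ) ^ (-ρ)))
    (b : Fin k → ℤ) (l a : ℕ) (hl : l.Prime) (χ : DirichletCharacter ℂ (l ^ a))
    (hχ : χ.IsPrimitive) (c : ℝ) (hc : |c| ≤ 2) (g : Fin k → ℤ → ℂ)
    (hp : ∀ i m, g i (m + (l ^ a : ℕ)) = g i m) (hb : ∀ i m, ‖g i m‖ ≤ 2) (i0 : Fin k)
    (h : ∀ m : ℤ, g i0 m = c * (starRingEnd ℂ) (χ (m : ZMod (l ^ a)))) :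
    FM S (l ^ a) b g ≤ ((l ^ a : ℕ) : ℝ) ^ (d + 1) * (2 ^ k * E * ((l ^ a : ℕ) : ℝ) ^ (-ρ)) := by
  have hne : NeZero (l ^ a) := ⟨pow_ne_zero _ hl.ne_zero⟩
  have hn2 : ‖(2 : ℂ)‖ = 2 := by simp
  choose G hG using fun i => Pool.Agent.Lib.H59T.C3_fun (l ^ a) (g i) (hp i)
  have hs : ∀ t : ZMod (l ^ a), ∃ m : ℤ, (m : ZMod (l ^ a)) = t := fun t => ZMod.intCast_surjective t
  have bG : ∀ i t, ‖G i t‖ ≤ 2 := by
    intro i t
    obtain ⟨m, rfl⟩ := hs t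
    rw [← hG]
    exact hb i m
  have hG0 : ∀ t, G i0 t = c * (starRingEnd ℂ) (χ t) := by
    intro t
    obtain ⟨m, rfl⟩ := hs t
    rw [← hG]
    exact h m
  have u1 := hE (l ^ a) b (fun i t => G i t / 2) (fun i t => by
    rw [norm_div, hn2]
    have := bG i t
    linarith) i0 χ ((c : ℂ) / 2) hχ (by
      rw [norm_div, hn2, Complex.norm_real, Real.norm_eq_abs]
      linarith) (fun x => by
      rw [hG0]
      ring)
  rw [L2T S (l ^ a) b g G (fun i m => hG i m), l3_scale]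
  have h2k : (0 : ℝ) ≤ 2 ^ k := by positivity
  calc (2 : ℝ) ^ k * FZ S (l ^ a) b (fun i t => G i t / 2) ≤
      2 ^ k * (((l ^ a : ℕ) : ℝ) ^ (d + 1) * (E * ((l ^ a : ℕ) : ℝ) ^ (-ρ))) := mul_le_mul_of_nonneg_left u1 h2k
    _ = _ := by ring

theorem D44_pow {k d : ℕ} (S : Sys k d) (hS : SysFin S) (hU : UCH (k + 1)) : ∃ (A : ℕ) (ρ : ℝ), 0 < ρ ∧ ρ ≤ 1 ∧
    ∀ (b : Fin k → ℤ) (p : Fin k → Ch), Pm p →
    ∀ κ : Fin k → ℕ, Kp p κ → ∀ l : ℕ, l.Prime → l ∣ Rm p →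
    FM S (l ^ (Rm p).factorization l) b (fun i => Pool.Agent.Lib.H59T.lf (p i) (κ i) l) ≤
      ((l ^ (Rm p).factorization l : ℕ) : ℝ) ^ (d + 1) *
        (2 ^ A * ((l ^ (Rm p).factorization l : ℕ) : ℝ) ^ (-ρ)) := by
  obtain ⟨E, ρ, hE1, hρ, hρ1, hE⟩ := D43_loc S hS hU
  obtain ⟨A, hA⟩ := pow_unbounded_of_one_lt (2 ^ k * E) (by norm_num : (1 : ℝ) < 2)
  refine ⟨A, ρ, hρ, hρ1, fun b p hp κ _hκ l hl hd => ?_⟩
  have hl2 : (2 : ℝ) ≤ l := by exact_mod_cast hl.two_le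
  obtain ⟨h1, h2, i0, h3, h4⟩ := Pool.Agent.Lib.H59T.E7_attained p hp l hl hd
  have hch := Pool.Agent.Lib.H59T.L4_char (p i0) (hp i0).1 (hp i0).2 l hl h4
  rw [h3] at hch
  obtain ⟨χ, hχ, hlf⟩ := hch
  have hc : |(l : ℝ) / ((l : ℝ) - 1)| ≤ 2 := by
    rw [abs_of_nonneg (by apply div_nonneg <;> linarith), div_le_iff₀ (by linarith)]
    linarith
  have hper : ∀ (i : Fin k) (m : ℤ),
      Pool.Agent.Lib.H59T.lf (p i) (κ i) l (m + ((l ^ (Rm p).factorization l : ℕ) : ℤ)) = Pool.Agent.Lib.H59T.lf (p i) (κ i) l m := by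
    intro i m
    have := Pool.Agent.Lib.H59T.L4_per (p i) (hp i).1 (hp i).2 (κ i) l ((Rm p).factorization l) hl h1 (h2 i) m 1
    rw [mul_one] at this
    rw [← this]
    push_cast
    rfl
  refine (d44_one S E ρ hE b l ((Rm p).factorization l) hl χ hχ _ hc (fun i => Pool.Agent.Lib.H59T.lf (p i) (κ i) l)
    (fun i m => hper i m) (fun i m => Pool.Agent.Lib.H59T.L4_norm _ _ _ hl m) i0 (fun m => hlf (κ i0) m)).trans ?_
  refine mul_le_mul_of_nonneg_left ?_ (by positivity)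
  exact mul_le_mul_of_nonneg_right hA.le (by positivity)

end Pool.Agent.HUK
end

-- from Lib.HUK.D46
section

/-!
# Project HUK, chunk D46: the first moment of the components over a complete period (copy of `H9U/L5`)
-/

open Finset

namespace Pool.Agent.HUK

open Pool.Agent.H9U
open Pool.Agent.Lib.H59P (Ch bx)
open Pool.Agent.Lib.H18Q (gk KS)
open Pool.Agent.Lib.H59T (UU Rm Pm Kp dof tau lf)

/-- Proof. As `F1_glob` (`H59T/F1.lean`), with `κ' = κ`: `N = ∏_{l ∣ N} q l`, `q l = l^(N.factorization l)`, `L3_gk` (`H59T/L3.lean`), `L4_per` (`H59T/L4.lean`),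
`L5A_prod`; `L3_pow` at the primes dividing `Rm p`, `L4_out` at those dividing `dof`; `A` = the sum of the two constants; `F1_tau`. -/
theorem D46_glob {k d : ℕ} (S : Sys k d) (hS : SysFin S) (hU : UCH (k + 1)) : ∃ (A : ℕ) (ρ : ℝ), 0 < ρ ∧ ρ ≤ 1 ∧ ∀ (b : Fin k → ℤ) (p : Fin k → Ch), Pm p →
    ∀ κ : Fin k → ℕ, Kp p κ →
    (∀ i m, gk (p i) (κ i) (m + (Rm p * dof (Rm p) κ κ : ℕ)) = gk (p i) (κ i) m) ∧
    FM S (Rm p * dof (Rm p) κ κ) b (fun i => gk (p i) (κ i)) ≤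
      ((Rm p * dof (Rm p) κ κ : ℕ) : ℝ) ^ (d + 1) * (tau (Rm p) ^ A * (Rm p : ℝ) ^ (-ρ) *
        (tau (dof (Rm p) κ κ) ^ A / (dof (Rm p) κ κ : ℝ) ^ 2)) := by
  classical
  obtain ⟨A1, ρ, hρ, hρ1, hA1⟩ := D44_pow S hS hU
  obtain ⟨A2, hA2⟩ := D45_out S hS.1 (D14_min S hS)
  refine ⟨A1 + A2, ρ, hρ, hρ1, fun b p hp κ hκ => ?_⟩
  obtain ⟨A, hA⟩ : ∃ A, A = A1 + A2 := ⟨_, rfl⟩
  rw [← hA]
  obtain ⟨R, hR⟩ : ∃ R, R = Rm p := ⟨_, rfl⟩
  obtain ⟨e, hd⟩ : ∃ e, e = dof (Rm p) κ κ := ⟨_, rfl⟩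
  rw [← hd, ← hR]
  obtain ⟨hd0, hdsq, hdR, hddv⟩ := Pool.Agent.Lib.H59T.F1_dof (Rm p) κ κ
  rw [← hd] at hd0 hdsq hdR hddv
  rw [← hR] at hdR hddv
  have hR0 : R ≠ 0 := by
    rw [hR]
    unfold Rm
    intro h
    rw [Finset.lcm_eq_zero_iff] at h
    obtain ⟨i, _, hi⟩ := h
    exact absurd hi (hp i).1.ne'
  have hpR : ∀ i, (p i).1 ∣ R := fun i => by
    rw [hR]
    exact Finset.dvd_lcm (mem_univ i)
  have hN0 : R * e ≠ 0 := mul_ne_zero hR0 hd0.ne'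
  obtain ⟨P, hP⟩ : ∃ P, P = (R * e).primeFactors := ⟨_, rfl⟩
  have hPp : ∀ l ∈ P, l.Prime := fun l hl => by
    rw [hP] at hl
    exact Nat.prime_of_mem_primeFactors hl
  have hPU : P = R.primeFactors ∪ e.primeFactors := by
    rw [hP, Nat.primeFactors_mul hR0 hd0.ne']
  have hdisj : Disjoint R.primeFactors e.primeFactors := hdR.symm.disjoint_primeFactors
  have hsub : ∀ (κ₀ : ℕ) (h : ∀ l : ℕ, l.Prime → l ∣ κ₀ → κ₀ ≠ 0 → ¬ l ∣ R → l ∣ e), κ₀.primeFactors ⊆ P := by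
    intro κ₀ h l hl
    rw [Nat.mem_primeFactors] at hl
    rw [hP, Nat.mem_primeFactors]
    refine ⟨hl.1, ?_, hN0⟩
    by_cases h1 : l ∣ R
    · exact h1.mul_right e
    · exact (h l hl.1 hl.2.1 hl.2.2 h1).mul_left R
  have h1 : ∀ i, (p i).1.primeFactors ⊆ P := fun i => hsub _ fun l _ h2 _ h3 =>
    absurd (h2.trans (hpR i)) h3
  have h2 : ∀ i, (κ i).primeFactors ⊆ P := fun i => hsub _ fun l h3 h4 h5 h6 =>
    (hddv l h3).2 ⟨h6, i, Or.inl ⟨h4, h5⟩⟩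
  obtain ⟨G, hG⟩ : ∃ G : ℕ → Fin k → ℤ → ℂ, G = fun l i => Pool.Agent.Lib.H59T.lf (p i) (κ i) l := ⟨_, rfl⟩
  have hgk : ∀ i m, gk (p i) (κ i) m = ∏ l ∈ P, G l i m := by
    intro i m
    rw [hG]
    exact Pool.Agent.Lib.H59T.L3_gk (p i) (hp i).1 (hp i).2 (κ i) (hκ i).1 (hκ i).2 P hPp (h1 i) (h2 i) m
  obtain ⟨q, hq⟩ : ∃ q : ℕ → ℕ, q = fun l => l ^ (R * e).factorization l := ⟨_, rfl⟩
  have hfac : ∀ l, (R * e).factorization l = R.factorization l + e.factorization l := by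
    intro l
    rw [Nat.factorization_mul hR0 hd0.ne']
    rfl
  have hqR : ∀ l ∈ R.primeFactors, q l = l ^ R.factorization l := by
    intro l hl
    have h4 : e.factorization l = 0 := by
      apply Nat.factorization_eq_zero_of_not_dvd
      intro h5
      exact Finset.disjoint_left.1 hdisj hl
        (Nat.mem_primeFactors.2 ⟨Nat.prime_of_mem_primeFactors hl, h5, hd0.ne'⟩)
    rw [hq]
    show l ^ (R * e).factorization l = _
    rw [hfac, h4, add_zero]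
  have hqd : ∀ l ∈ e.primeFactors, q l = l := by
    intro l hl
    have h4 : R.factorization l = 0 := by
      apply Nat.factorization_eq_zero_of_not_dvd
      intro h5
      exact Finset.disjoint_right.1 hdisj hl
        (Nat.mem_primeFactors.2 ⟨Nat.prime_of_mem_primeFactors hl, h5, hR0⟩)
    have h5 : e.factorization l = 1 := by
      have h6 := (Nat.squarefree_iff_factorization_le_one hd0.ne').1 hdsq l
      have h7 : e.factorization l ≠ 0 := by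
        rw [← Finsupp.mem_support_iff, Nat.support_factorization]
        exact hl
      omega
    rw [hq]
    show l ^ (R * e).factorization l = _
    rw [hfac, h4, h5, zero_add, pow_one]
  have hprodq : ∏ l ∈ P, q l = R * e := by
    rw [hq, hP]
    exact (Nat.prod_primeFactors_pow_factorization hN0).symm
  have hq0 : ∀ l ∈ P, 0 < q l := fun l hl => by
    rw [hq]
    exact pow_pos (hPp l hl).pos _
  have hqc : ∀ l ∈ P, ∀ l' ∈ P, l ≠ l' → Nat.Coprime (q l) (q l') := by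
    intro l hl l' hl' hne
    rw [hq]
    exact Nat.Coprime.pow _ _ ((Nat.coprime_primes (hPp l hl) (hPp l' hl')).2 hne)
  have hfacle : ∀ i l, (p i).1.factorization l ≤ R.factorization l := fun i l =>
    (Nat.factorization_le_iff_dvd (hp i).1.ne' hR0).2 (hpR i) l
  have hper : ∀ l ∈ P, ∀ i m, G l i (m + q l) = G l i m := by
    intro l hl i m
    rw [hG]
    show Pool.Agent.Lib.H59T.lf (p i) (κ i) l (m + q l) = Pool.Agent.Lib.H59T.lf (p i) (κ i) l m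
    rw [hPU, mem_union] at hl
    rcases hl with hl | hl
    · rw [hqR l hl]
      have h3 := Pool.Agent.Lib.H59T.L4_per (p i) (hp i).1 (hp i).2 (κ i) l (R.factorization l)
        (Nat.prime_of_mem_primeFactors hl) (by
          rw [Nat.one_le_iff_ne_zero, ← Finsupp.mem_support_iff, Nat.support_factorization]
          exact hl) (hfacle i l) m 1
      rw [mul_one] at h3
      rw [← h3]
      push_cast
      rfl
    · rw [hqd l hl]
      have h3 := Pool.Agent.Lib.H59T.L4_per (p i) (hp i).1 (hp i).2 (κ i) l 1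
        (Nat.prime_of_mem_primeFactors hl) le_rfl (by
          have h6 : R.factorization l = 0 := by
            apply Nat.factorization_eq_zero_of_not_dvd
            intro h5
            exact Finset.disjoint_right.1 hdisj hl
              (Nat.mem_primeFactors.2 ⟨Nat.prime_of_mem_primeFactors hl, h5, hR0⟩)
          have := hfacle i l
          omega) m 1
      rw [mul_one, pow_one] at h3
      exact h3
  obtain ⟨hc1, hc2⟩ := L5A_prod S b P q hq0 hqc G hper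
  rw [hprodq] at hc1 hc2
  have hfun : (fun i => gk (p i) (κ i)) = fun i m => ∏ l ∈ P, G l i m := by
    funext i m
    exact hgk i m
  refine ⟨fun i m => ?_, ?_⟩
  · rw [hgk, hgk]
    exact hc1 i m
  rw [hfun, hc2, hPU, prod_union hdisj]
  have hFM0 : ∀ l, 0 ≤ FM S (q l) b (G l) := fun l =>
    Finset.sum_nonneg fun _ _ => norm_nonneg _
  have h2A1 : (2 : ℝ) ^ A1 ≤ 2 ^ A := pow_le_pow_right₀ (by norm_num) (by omega)
  have h2A2 : (2 : ℝ) ^ A2 ≤ 2 ^ A := pow_le_pow_right₀ (by norm_num) (by omega)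
  have hbR : ∏ l ∈ R.primeFactors, FM S (q l) b (G l) ≤
      (R : ℝ) ^ (d + 1) * (tau R ^ A * (R : ℝ) ^ (-ρ)) := by
    have h4 : ∏ l ∈ R.primeFactors, FM S (q l) b (G l) ≤ ∏ l ∈ R.primeFactors,
        (((q l : ℕ) : ℝ) ^ (d + 1) * (2 ^ A * ((q l : ℕ) : ℝ) ^ (-ρ))) := by
      refine Finset.prod_le_prod (fun l _ => hFM0 l) fun l hl => ?_
      have h5 := hA1 b p hp κ hκ l (Nat.prime_of_mem_primeFactors hl)
        (by rw [← hR]; exact Nat.dvd_of_mem_primeFactors hl)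
      rw [← hR, ← hqR l hl] at h5
      rw [hG]
      refine h5.trans ?_
      refine mul_le_mul_of_nonneg_left ?_ (by positivity)
      exact mul_le_mul_of_nonneg_right h2A1 (by positivity)
    have h6 : ∏ l ∈ R.primeFactors, ((q l : ℕ) : ℝ) = R := by
      rw [← Nat.cast_prod, Finset.prod_congr rfl hqR]
      rw [← Nat.prod_primeFactors_pow_factorization hR0]
    have h7 : ∏ l ∈ R.primeFactors, ((q l : ℕ) : ℝ) ^ (-ρ) = (R : ℝ) ^ (-ρ) := by
      rw [Real.finsetProd_rpow _ _ (fun l _ => Nat.cast_nonneg _), h6]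
    rw [Finset.prod_mul_distrib, Finset.prod_mul_distrib, Finset.prod_pow, h6, h7,
      Finset.prod_const, ← pow_mul] at h4
    refine h4.trans ?_
    have h8 := Pool.Agent.Lib.H59T.F1_tau R A (Nat.pos_of_ne_zero hR0)
    have h9 : (0 : ℝ) ≤ (R : ℝ) ^ (-ρ) := by positivity
    exact mul_le_mul_of_nonneg_left (mul_le_mul_of_nonneg_right h8 h9) (by positivity)
  have hbd : ∏ l ∈ e.primeFactors, FM S (q l) b (G l) ≤ (e : ℝ) ^ (d + 1) * (tau e ^ A / (e : ℝ) ^ 2) := by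
    have h4 : ∏ l ∈ e.primeFactors, FM S (q l) b (G l) ≤ ∏ l ∈ e.primeFactors,
        ((l : ℝ) ^ (d + 1) * (2 ^ A / (l : ℝ) ^ 2)) := by
      refine Finset.prod_le_prod (fun l _ => hFM0 l) fun l hl => ?_
      have hlp := Nat.prime_of_mem_primeFactors hl
      have hld := (hddv l hlp).1 (Nat.dvd_of_mem_primeFactors hl)
      have h5 := hA2 b p hp κ hκ l hlp (by rw [← hR]; exact hld.1) (by
          obtain ⟨i, hi | hi⟩ := hld.2
          · exact ⟨i, hi.1⟩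
          · exact ⟨i, hi.1⟩)
      rw [hqd l hl, hG]
      refine h5.trans ?_
      refine mul_le_mul_of_nonneg_left ?_ (by positivity)
      exact div_le_div_of_nonneg_right h2A2 (by positivity)
    have h6 : ∏ l ∈ e.primeFactors, (l : ℝ) = e := by
      rw [← Nat.cast_prod, Nat.prod_primeFactors_of_squarefree hdsq]
    rw [Finset.prod_mul_distrib, Finset.prod_div_distrib, Finset.prod_pow (f := fun l : ℕ => (l : ℝ)) (n := d + 1),
      Finset.prod_pow (f := fun l : ℕ => (l : ℝ)) (n := 2), h6,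
      Finset.prod_const, ← pow_mul] at h4
    refine h4.trans ?_
    have h8 := Pool.Agent.Lib.H59T.F1_tau e A hd0
    have h9 : (0 : ℝ) ≤ (e : ℝ) ^ 2 := by positivity
    exact mul_le_mul_of_nonneg_left (div_le_div_of_nonneg_right h8 h9) (by positivity)
  calc (∏ l ∈ R.primeFactors, FM S (q l) b (G l)) * ∏ l ∈ e.primeFactors, FM S (q l) b (G l)
      ≤ ((R : ℝ) ^ (d + 1) * (tau R ^ A * (R : ℝ) ^ (-ρ))) *
        ((e : ℝ) ^ (d + 1) * (tau e ^ A / (e : ℝ) ^ 2)) := by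
        refine mul_le_mul hbR hbd (Finset.prod_nonneg fun l _ => hFM0 l) ?_
        unfold tau
        positivity
    _ = _ := by
        push_cast
        rw [mul_pow]
        ring

end Pool.Agent.HUK
end

-- from Lib.HUK.D47
section

/-!
# Project HUK, chunk D47: the components with large moduli are small on average over `t` (copy of `H9U/L6`)
-/

open Finset

namespace Pool.Agent.HUK

open Pool.Agent.H9U
open Pool.Agent.Lib.H68T (PC)
open Pool.Agent.Lib.H59P (Ch bx)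
open Pool.Agent.Lib.H18Q (gk KS)
open Pool.Agent.Lib.H59T (UU Rm Pm Kp dof tau lf)

/-- **The local factors.** Proof. As `F3_gen` (`H59T/F3.lean`). Exchange the sums over `n` and `κ`, triangle inequality. For each `κ ∈ T`: `L6A_mom` with
`N = Rm p * dof (Rm p) κ κ ≤ Q^(2k)` (`F2_size`), `B = Q^k` (`f3_gk`), `L5_glob`: at most
`2^d L^d H (τ(R)^A R^(-1/72) τ(d)^A/d²) + 2 L^d Q^(2k) Q^k`. Sum over `κ`: `F2_sum` with `c = 1/72` (its left side contains the diagonal `κ' = κ`, all terms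
are nonnegative), and at most `Q^k` elements: the rest is `2 L^d Q^(4k) ≤ 2 L^d H Q^(-6k) ≤ 2 L^d H D^(-1/144)` (`D ≤ Q^k` if `T` is not
empty). -/
theorem D47_main {k d : ℕ} (S : Sys k d) (hS : SysFin S) (hU : UCH (k + 1)) : ∃ C ρ : ℝ, 0 < C ∧ 0 < ρ ∧ ρ ≤ 1 ∧ ∀ Q D : ℕ, 1 ≤ D →
    ∀ p : Fin k → Ch, (∀ i, p i ∈ PC Q) → ∀ T : Finset (Fin k → ℕ),
    T ⊆ Fintype.piFinset (fun i => KS Q (p i).1) → (∀ κ ∈ T, D < univ.lcm (fun i => (p i).1 * κ i)) →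
    ∀ (b : Fin k → ℤ) (L H : ℕ), Q ^ (10 * k) ≤ L → Q ^ (10 * k) ≤ H →
    ∑ t ∈ bx d L, ‖∑ n ∈ range H, ∑ κ ∈ T, ∏ i, gk (p i) (κ i) (S.val b n (iv t) i)‖ ≤
      C * ((L : ℝ) ^ d * H) * (D : ℝ) ^ (-ρ) := by
  classical
  obtain ⟨A, ρ, hρ, hρ1, hA⟩ := D46_glob S hS hU
  obtain ⟨C, hC, hsum⟩ := Pool.Agent.Lib.H59T.F2_sum k A ρ hρ hρ1
  refine ⟨2 ^ d * C + 2, ρ / 2, by positivity, by positivity, by linarith, fun Q D hD p hp T hT hTD b L H hL hH => ?_⟩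
  have hexp : (-(ρ / 2)) = (-(ρ / 2) : ℝ) := rfl
  have hDr : (1 : ℝ) ≤ (D : ℝ) := by exact_mod_cast hD
  have hDp : (0 : ℝ) < (D : ℝ) ^ (-(ρ / 2)) := Real.rpow_pos_of_pos (by linarith) _
  have hV : (0 : ℝ) ≤ (L : ℝ) ^ d * H := by positivity
  rcases T.eq_empty_or_nonempty with hT0 | ⟨κ₀, hκ₀⟩
  · subst hT0
    have h0 : ∑ t ∈ bx d L, ‖∑ n ∈ range H, ∑ κ ∈ (∅ : Finset (Fin k → ℕ)),
        ∏ i, gk (p i) (κ i) (S.val b n (iv t) i)‖ = 0 := by simp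
    rw [h0]
    exact mul_nonneg (mul_nonneg (by positivity) hV) hDp.le
  have hKS : ∀ κ ∈ T, ∀ i, κ i ∈ KS Q (p i).1 := fun κ hκ i => (Fintype.mem_piFinset.1 (hT hκ)) i
  have hPm : Pm p := fun i => ⟨by have := (Pool.Agent.Lib.H68T.mem_PC.1 (hp i)).1; omega,
    (Pool.Agent.Lib.H68T.mem_PC.1 (hp i)).2.2⟩
  have hKp : ∀ κ ∈ T, Kp p κ := fun κ hκ i => (Pool.Agent.Lib.H18Q.CA_mem_KS.1 (hKS κ hκ i)).2
  have hle1 : ∀ κ ∈ T, ∀ i, (p i).1 * κ i ≤ Q := by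
    intro κ hκ i
    have h1 := (Pool.Agent.Lib.H18Q.CA_mem_KS.1 (hKS κ hκ i)).1.2
    calc (p i).1 * κ i ≤ (p i).1 * (Q / (p i).1) := Nat.mul_le_mul_left _ h1
      _ ≤ Q := Nat.mul_div_le Q _
  have hpos : ∀ κ ∈ T, ∀ i, 0 < (p i).1 * κ i := by
    intro κ hκ i
    exact Nat.mul_pos (hPm i).1 (Pool.Agent.Lib.H18Q.CA_mem_KS.1 (hKS κ hκ i)).1.1
  have hDQ : D ≤ Q ^ k := by
    have h1 : (univ.lcm fun i => (p i).1 * κ₀ i) ≤ ∏ i, (p i).1 * κ₀ i := by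
      refine Nat.le_of_dvd (Finset.prod_pos fun i _ => hpos κ₀ hκ₀ i) ?_
      exact Finset.lcm_dvd fun i hi => Finset.dvd_prod_of_mem (fun i => (p i).1 * κ₀ i) hi
    have h2 : ∏ i, (p i).1 * κ₀ i ≤ ∏ _i : Fin k, Q := Finset.prod_le_prod' fun i _ => hle1 κ₀ hκ₀ i
    rw [Finset.prod_const, Finset.card_univ, Fintype.card_fin] at h2
    exact (hTD κ₀ hκ₀).le.trans (h1.trans h2)
  have hQk : 1 ≤ Q ^ k := hD.trans hDQ
  have hQkr : (1 : ℝ) ≤ (Q : ℝ) ^ k := by exact_mod_cast hQk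
  have hcard : T.card ≤ Q ^ k := by
    calc T.card ≤ (Fintype.piFinset (fun i => KS Q (p i).1)).card := Finset.card_le_card hT
      _ = ∏ i, (KS Q (p i).1).card := Fintype.card_piFinset _
      _ ≤ ∏ _i : Fin k, Q := by
          refine Finset.prod_le_prod' fun i _ => ?_
          unfold KS
          refine (Finset.card_filter_le _ _).trans ?_
          rw [Nat.card_Icc, Nat.add_sub_cancel]
          exact Nat.div_le_self _ _
      _ = Q ^ k := by rw [Finset.prod_const, Finset.card_univ, Fintype.card_fin]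
  have hone : ∀ κ ∈ T, ∑ t ∈ bx d L, ‖∑ n ∈ range H, ∏ i, gk (p i) (κ i) (S.val b n (iv t) i)‖ ≤
      (2 ^ d * ((L : ℝ) ^ d * H)) * (tau (Rm p) ^ A * (Rm p : ℝ) ^ (-ρ) *
        (tau (dof (Rm p) κ κ) ^ A / (dof (Rm p) κ κ : ℝ) ^ 2)) + (L : ℝ) ^ d * (2 * ((Q : ℝ) ^ k) ^ 3) := by
    intro κ hκ
    obtain ⟨hper, hb4⟩ := hA b p hPm κ (hKp κ hκ)
    obtain ⟨hN, hNQ⟩ := Pool.Agent.Lib.H59T.F2_size Q p hp κ κ (hKS κ hκ) (hKS κ hκ)
    set N := Rm p * dof (Rm p) κ κ with hNdef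
    have hNL : N ≤ L := by
      refine hNQ.trans (le_trans ?_ hL)
      calc Q ^ (2 * k) = (Q ^ k) ^ 2 := by rw [← pow_mul, mul_comm]
        _ ≤ (Q ^ k) ^ 10 := Nat.pow_le_pow_right hQk (by norm_num)
        _ = Q ^ (10 * k) := by rw [← pow_mul, mul_comm]
    have hB : ∀ m : Fin k → ℤ, ‖∏ i, gk (p i) (κ i) (m i)‖ ≤ (Q : ℝ) ^ k := by
      intro m
      rw [norm_prod]
      calc ∏ i : Fin k, ‖gk (p i) (κ i) (m i)‖ ≤ ∏ _i : Fin k, (Q : ℝ) :=
            Finset.prod_le_prod (fun i _ => norm_nonneg _)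
              (fun i _ => Pool.Agent.Lib.H59T.f3_gk Q (p i) (hp i) _ (hKS κ hκ i) _)
        _ = (Q : ℝ) ^ k := by rw [Finset.prod_const, Finset.card_univ, Fintype.card_fin]
    have h1 := L6A_mom S N L H hN hNL b (fun i => gk (p i) (κ i)) hper ((Q : ℝ) ^ k) hB
    refine h1.trans (add_le_add ?_ ?_)
    · have hNr : (0 : ℝ) < (N : ℝ) := by exact_mod_cast hN
      have hw0 : (0 : ℝ) ≤ (2 * (L : ℝ) / N) ^ d * ((H : ℝ) / N) := by positivity
      refine (mul_le_mul_of_nonneg_left hb4 hw0).trans (le_of_eq ?_)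
      rw [div_pow, mul_pow, pow_succ]
      field_simp
    · refine mul_le_mul_of_nonneg_left ?_ (by positivity)
      have h2 : (N : ℝ) ≤ ((Q : ℝ) ^ k) ^ 2 := by
        have h3 : (N : ℝ) ≤ ((Q ^ (2 * k) : ℕ) : ℝ) := by exact_mod_cast hNQ
        rw [Nat.cast_pow, mul_comm, pow_mul] at h3
        exact h3
      have h3 : (N : ℝ) * (Q : ℝ) ^ k ≤ ((Q : ℝ) ^ k) ^ 2 * (Q : ℝ) ^ k :=
        mul_le_mul_of_nonneg_right h2 (by positivity)
      calc 2 * (N : ℝ) * (Q : ℝ) ^ k = 2 * ((N : ℝ) * (Q : ℝ) ^ k) := by ring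
        _ ≤ 2 * (((Q : ℝ) ^ k) ^ 2 * (Q : ℝ) ^ k) := by linarith
        _ = 2 * ((Q : ℝ) ^ k) ^ 3 := by ring
  have hreal : ∑ t ∈ bx d L, ‖∑ n ∈ range H, ∑ κ ∈ T, ∏ i, gk (p i) (κ i) (S.val b n (iv t) i)‖ ≤
      ∑ κ ∈ T, ∑ t ∈ bx d L, ‖∑ n ∈ range H, ∏ i, gk (p i) (κ i) (S.val b n (iv t) i)‖ := by
    rw [Finset.sum_comm]
    refine Finset.sum_le_sum fun t _ => ?_
    rw [Finset.sum_comm]
    exact norm_sum_le _ _
  refine hreal.trans ((Finset.sum_le_sum fun κ hκ => hone κ hκ).trans ?_)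
  rw [Finset.sum_add_distrib, ← Finset.mul_sum, Finset.sum_const, nsmul_eq_mul]
  have hterm0 : ∀ κ κ' : Fin k → ℕ, 0 ≤ tau (Rm p) ^ A * (Rm p : ℝ) ^ (-ρ) *
      (tau (dof (Rm p) κ κ') ^ A / (dof (Rm p) κ κ' : ℝ) ^ 2) := by
    intro κ κ'
    unfold tau
    positivity
  have hdiag : ∑ κ ∈ T, tau (Rm p) ^ A * (Rm p : ℝ) ^ (-ρ) *
      (tau (dof (Rm p) κ κ) ^ A / (dof (Rm p) κ κ : ℝ) ^ 2) ≤ C * (D : ℝ) ^ (-(ρ / 2)) := by
    have h1 := hsum Q D hD p hp T hT hTD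
    rw [hexp] at h1
    refine le_trans (Finset.sum_le_sum fun κ hκ => ?_) h1
    exact Finset.single_le_sum (f := fun κ' => tau (Rm p) ^ A * (Rm p : ℝ) ^ (-ρ) *
      (tau (dof (Rm p) κ κ') ^ A / (dof (Rm p) κ κ' : ℝ) ^ 2)) (fun κ' _ => hterm0 κ κ') hκ
  have herr : (T.card : ℝ) * ((L : ℝ) ^ d * (2 * ((Q : ℝ) ^ k) ^ 3)) ≤
      2 * ((L : ℝ) ^ d * H) * (D : ℝ) ^ (-(ρ / 2)) := by
    have h1 : (T.card : ℝ) ≤ (Q : ℝ) ^ k := by exact_mod_cast hcard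
    have h2 : (0 : ℝ) < (Q : ℝ) ^ k := by linarith
    have h4 : ((Q : ℝ) ^ k)⁻¹ ≤ (D : ℝ) ^ (-(ρ / 2)) := by
      have h5 : (D : ℝ) ≤ (Q : ℝ) ^ k := by exact_mod_cast hDQ
      rw [Real.rpow_neg (by linarith)]
      refine inv_anti₀ (Real.rpow_pos_of_pos (by linarith) _) ?_
      calc (D : ℝ) ^ (ρ / 2) ≤ (D : ℝ) ^ (1 : ℝ) := Real.rpow_le_rpow_of_exponent_le hDr (by linarith)
        _ = (D : ℝ) := Real.rpow_one _
        _ ≤ (Q : ℝ) ^ k := h5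
    have h5 : ((Q : ℝ) ^ k) ^ 10 ≤ (H : ℝ) := by
      have h6 : ((Q ^ (10 * k) : ℕ) : ℝ) ≤ (H : ℝ) := by exact_mod_cast hH
      rw [Nat.cast_pow, mul_comm, pow_mul] at h6
      exact h6
    have h6 : ((Q : ℝ) ^ k) ^ 4 ≤ (H : ℝ) * ((Q : ℝ) ^ k)⁻¹ := by
      rw [le_mul_inv_iff₀ h2]
      calc ((Q : ℝ) ^ k) ^ 4 * (Q : ℝ) ^ k = ((Q : ℝ) ^ k) ^ 5 := by ring
        _ ≤ ((Q : ℝ) ^ k) ^ 10 := pow_le_pow_right₀ hQkr (by norm_num)
        _ ≤ (H : ℝ) := h5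
    have h7 : (H : ℝ) * ((Q : ℝ) ^ k)⁻¹ ≤ (H : ℝ) * (D : ℝ) ^ (-(ρ / 2)) :=
      mul_le_mul_of_nonneg_left h4 (Nat.cast_nonneg _)
    calc (T.card : ℝ) * ((L : ℝ) ^ d * (2 * ((Q : ℝ) ^ k) ^ 3))
        ≤ (Q : ℝ) ^ k * ((L : ℝ) ^ d * (2 * ((Q : ℝ) ^ k) ^ 3)) :=
          mul_le_mul_of_nonneg_right h1 (by positivity)
      _ = 2 * (L : ℝ) ^ d * ((Q : ℝ) ^ k) ^ 4 := by ring
      _ ≤ 2 * (L : ℝ) ^ d * ((H : ℝ) * (D : ℝ) ^ (-(ρ / 2))) :=
          mul_le_mul_of_nonneg_left (h6.trans h7) (by positivity)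
      _ = 2 * ((L : ℝ) ^ d * H) * (D : ℝ) ^ (-(ρ / 2)) := by ring
  calc _ ≤ (2 ^ d * ((L : ℝ) ^ d * H)) * (C * (D : ℝ) ^ (-(ρ / 2))) +
        2 * ((L : ℝ) ^ d * H) * (D : ℝ) ^ (-(ρ / 2)) :=
        add_le_add (mul_le_mul_of_nonneg_left hdiag (by positivity)) herr
    _ = (2 ^ d * C + 2) * ((L : ℝ) ^ d * H) * (D : ℝ) ^ (-(ρ / 2)) := by ring

/-- Arbitrary base points. Proof. `val b (v + n) (u + t) i = val b' n t i` with `b' i = val b v u i`; `L6_main`. -/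
theorem D47_base {k d : ℕ} (S : Sys k d) (hS : SysFin S) (hU : UCH (k + 1)) : ∃ C ρ : ℝ, 0 < C ∧ 0 < ρ ∧ ρ ≤ 1 ∧ ∀ Q D : ℕ, 1 ≤ D →
    ∀ p : Fin k → Ch, (∀ i, p i ∈ PC Q) → ∀ T : Finset (Fin k → ℕ),
    T ⊆ Fintype.piFinset (fun i => KS Q (p i).1) → (∀ κ ∈ T, D < univ.lcm (fun i => (p i).1 * κ i)) →
    ∀ (b : Fin k → ℤ) (v : ℤ) (u : Fin d → ℤ) (L H : ℕ), Q ^ (10 * k) ≤ L → Q ^ (10 * k) ≤ H →
    ∑ t ∈ bx d L, ‖∑ n ∈ range H, ∑ κ ∈ T, ∏ i, gk (p i) (κ i) (S.val b (v + n) (fun j => u j + t j) i)‖ ≤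
      C * ((L : ℝ) ^ d * H) * (D : ℝ) ^ (-ρ) := by
  obtain ⟨C, ρ, hC, hρ, hρ1, h⟩ := D47_main S hS hU
  refine ⟨C, ρ, hC, hρ, hρ1, fun Q D hD p hp T hT hTD b v u L H hL hH => ?_⟩
  have h1 := h Q D hD p hp T hT hTD (fun i => S.val b v u i) L H hL hH
  have h2 : ∀ (t : Fin d → ℕ) (n : ℕ) (i : Fin k), S.val b (v + n) (fun j => u j + t j) i =
      S.val (fun i => S.val b v u i) n (iv t) i := by
    intro t n i
    unfold Sys.val Sys.lin iv
    simp only [mul_add, Finset.sum_add_distrib]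
    ring
  simp only [h2]
  exact h1

end Pool.Agent.HUK
end

-- from Lib.HUK.D48
section

/-!
# Project HUK, chunk D48: module L for systems of finite complexity
-/

open Finset

namespace Pool.Agent.HUK

open Pool.Agent.H9U

/-- Proof. `L6_base` with `v = a`, `u = 0` (`∑ n ∈ Ico a (a + H)` as a sum over `range H`: `Finset.sum_Ico_eq_sum_range`), `c = 1/144`, `C` replaced by `max C 1`, and
`1 ≤ (1 + log Q)^C` (`1 ≤ D ≤ Q`); `Q^(10 k) ≤ Q^(10 (k+1))`. -/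
theorem D48_LB {k d : ℕ} (S : Sys k d) (hS : SysFin S) (hU : UCH (k + 1)) : LBig S := by
  obtain ⟨C, ρ, hC, hρ, hρ1, h⟩ := D47_base S hS hU
  refine ⟨ρ, max C 1, hρ, le_max_right _ _, ?_⟩
  intro Q D hD hDQ p hp TT hTT hTD b a H T hH hT
  have hQ : 1 ≤ Q := le_trans hD hDQ
  have hpow : Q ^ (10 * k) ≤ Q ^ (10 * (k + 1)) := Nat.pow_le_pow_right hQ (by omega)
  have h1 := h Q D hD p hp TT hTT hTD b (a : ℤ) (fun _ => 0) T H (le_trans hpow hT) (le_trans hpow hH)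
  have e1 : ∀ t : Fin d → ℕ, ∑ n ∈ Ico a (a + H), ∑ κ ∈ TT, ∏ i, Pool.Agent.Lib.H18Q.gk (p i) (κ i) (S.val b n (iv t) i)
      = ∑ n ∈ range H, ∑ κ ∈ TT, ∏ i, Pool.Agent.Lib.H18Q.gk (p i) (κ i) (S.val b ((a : ℤ) + n) (fun j => 0 + (t j : ℤ)) i) := by
    intro t
    rw [Finset.sum_Ico_eq_sum_range, Nat.add_sub_cancel_left]
    refine Finset.sum_congr rfl (fun n _ => Finset.sum_congr rfl (fun κ _ => Finset.prod_congr rfl (fun i _ => ?_)))
    have e2 : (fun j => 0 + (t j : ℤ)) = iv t := by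
      funext j
      simp [iv]
    rw [e2]
    push_cast
    rfl
  simp only [e1]
  refine le_trans h1 ?_
  have hlog : 0 ≤ Real.log Q := Real.log_nonneg (by exact_mod_cast hQ)
  have h2 : (1 : ℝ) ≤ (1 + Real.log Q) ^ (max C 1) :=
    Real.one_le_rpow (by linarith) (le_trans zero_le_one (le_max_right _ _))
  have h3 : C ≤ max C 1 * (1 + Real.log Q) ^ (max C 1) := by
    calc C ≤ max C 1 := le_max_left _ _
      _ = max C 1 * 1 := (mul_one _).symm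
      _ ≤ max C 1 * (1 + Real.log Q) ^ (max C 1) :=
        mul_le_mul_of_nonneg_left h2 (le_trans zero_le_one (le_max_right _ _))
  have h4 : (0 : ℝ) ≤ (T : ℝ) ^ d * H := by positivity
  have h5 : (0 : ℝ) ≤ (D : ℝ) ^ (-ρ) := Real.rpow_nonneg (Nat.cast_nonneg _) _
  exact mul_le_mul_of_nonneg_right (mul_le_mul_of_nonneg_right h3 h4) h5

end Pool.Agent.HUK
end

-- from Lib.HUK.D12
section

/-!
# Project HUK, chunk D12 (M): sums over progressions through phases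
-/

open Finset

namespace Pool.Agent.HUK

open Pool.Agent.H44W (ee)

/-- the coefficient bounds -/
noncomputable def d12_b (M j : ℕ) : ℝ :=
  if j = 0 then 1 else if j < M then 1 / (2 * (j : ℝ)) + 1 / (2 * ((M : ℝ) - j)) else 0

theorem d12_b_nn (M j : ℕ) : 0 ≤ d12_b M j := by
  unfold d12_b
  split_ifs with h1 h2
  · norm_num
  · have h3 : (0 : ℝ) < (M : ℝ) - j := by
      have : (j : ℝ) < M := by exact_mod_cast h2
      linarith
    positivity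
  · exact le_rfl

theorem d12_b_sum (M : ℕ) (hM : 1 ≤ M) : ∑ j ∈ range M, d12_b M j ≤ 4 * (1 + Real.log M) := by
  obtain ⟨K, rfl⟩ : ∃ K, M = K + 1 := ⟨M - 1, by omega⟩
  have hlog : 0 ≤ Real.log ((K + 1 : ℕ) : ℝ) := Real.log_nonneg (by exact_mod_cast hM)
  rw [sum_range_succ']
  have h0 : d12_b (K + 1) 0 = 1 := by
    unfold d12_b
    rw [if_pos rfl]
  rw [h0]
  have h1 : ∀ j ∈ range K, d12_b (K + 1) (j + 1) =
      1 / 2 * (1 / ((j:ℝ) + 1)) + 1 / 2 * (1 / (((K - 1 - j : ℕ) : ℝ) + 1)) := by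
    intro j hj
    rw [mem_range] at hj
    unfold d12_b
    rw [if_neg (by omega), if_pos (by omega)]
    have e1 : ((K - 1 - j : ℕ) : ℝ) + 1 = (K:ℝ) - j := by
      rw [Nat.cast_sub (by omega), Nat.cast_sub (by omega)]
      push_cast; ring
    rw [e1]
    push_cast
    rw [show (K:ℝ) + 1 - ((j:ℝ) + 1) = (K:ℝ) - j by ring, one_div_mul_one_div, one_div_mul_one_div]
  have hharm : ∑ j ∈ range K, 1 / ((j:ℝ) + 1) ≤ 1 + Real.log ((K + 1 : ℕ) : ℝ) := by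
    have e1 := harmonic_le_one_add_log K
    have e2 : ((harmonic K : ℚ) : ℝ) = ∑ j ∈ range K, 1 / ((j:ℝ) + 1) := by
      rw [harmonic]
      push_cast
      exact sum_congr rfl fun j _ => by rw [one_div]
    rw [← e2]
    refine le_trans e1 ?_
    rcases Nat.eq_zero_or_pos K with hK | hK
    · subst hK
      simp
    · have : Real.log K ≤ Real.log ((K + 1 : ℕ) : ℝ) :=
        Real.log_le_log (by exact_mod_cast hK) (by push_cast; linarith)
      linarith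
  have hrefl : ∑ j ∈ range K, 1 / (((K - 1 - j : ℕ) : ℝ) + 1) = ∑ j ∈ range K, 1 / ((j:ℝ) + 1) :=
    sum_range_reflect (fun j => 1 / ((j:ℝ) + 1)) K
  rw [sum_congr rfl h1, sum_add_distrib, ← mul_sum, ← mul_sum, hrefl]
  linarith

/-- The indicator of an interval as a combination of phases, with bounds for the coefficients which do not depend on the interval. Proof: as `U1A_ind`
(`H9U/U1A.lean`, whose proof contains exactly this): `b 0 = 1` and `b j = 1/(2j) + 1/(2(M-j))` for `0 < j < M` (`u1a_geo`), and the sum of the `b j` is at most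
`4 (1 + log M)`, as there. -/
theorem D12_ind (M : ℕ) (hM : 1 ≤ M) : ∃ b : ℕ → ℝ, (∀ j, 0 ≤ b j) ∧ ∑ j ∈ range M, b j ≤ 4 * (1 + Real.log M) ∧
    ∀ u v : ℤ, ∃ c : ℕ → ℂ, (∀ j ∈ range M, ‖c j‖ ≤ b j) ∧
      ∀ m : ℤ, 0 ≤ m → m < M → (if u ≤ m ∧ m < v then (1 : ℂ) else 0) = ∑ j ∈ range M, c j * ee ((j : ℝ) * m / M) := by
  refine ⟨d12_b M, d12_b_nn M, d12_b_sum M hM, fun u v => ?_⟩
  have hM0 : (0:ℝ) < M := by exact_mod_cast hM
  have hMc : (M:ℂ) ≠ 0 := by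
    have : (M:ℝ) ≠ 0 := hM0.ne'
    exact_mod_cast this
  set A : Finset ℤ := Ico (max u 0) (min v M) with hA
  refine ⟨fun j => (1 / (M:ℂ)) * ∑ s ∈ A, ee (-((j : ℝ) * s / M)), ?_, ?_⟩
  · intro j hj
    rw [mem_range] at hj
    show ‖(1 / (M:ℂ)) * ∑ s ∈ A, ee (-((j : ℝ) * s / M))‖ ≤ d12_b M j
    rw [norm_mul, norm_div, norm_one, Complex.norm_natCast]
    unfold d12_b
    by_cases h0 : j = 0
    · rw [if_pos h0]
      have h1 : ‖∑ s ∈ A, ee (-((j : ℝ) * s / M))‖ ≤ M := by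
        refine le_trans (norm_sum_le _ _) ?_
        rw [sum_congr rfl fun s _ => Pool.Agent.H44W.norm_ee _, sum_const, nsmul_eq_mul, mul_one]
        have h2 : A.card ≤ M := by
          rw [hA, Int.card_Ico]
          have e1 : (0:ℤ) ≤ max u 0 := le_max_right _ _
          have e2 : min v (M : ℤ) ≤ M := min_le_right _ _
          omega
        exact_mod_cast h2
      calc (1 / (M : ℝ)) * ‖∑ s ∈ A, ee (-((j : ℝ) * s / M))‖ ≤ (1 / (M : ℝ)) * M :=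
            mul_le_mul_of_nonneg_left h1 (by positivity)
        _ = 1 := by rw [one_div, inv_mul_cancel₀ hM0.ne']
    · rw [if_neg h0, if_pos hj]
      have h2 := Pool.Agent.H9U.u1a_geo M j (Nat.pos_of_ne_zero h0) hj (max u 0) (min v M)
      rw [← hA] at h2
      calc (1 / (M : ℝ)) * ‖∑ s ∈ A, ee (-((j : ℝ) * s / M))‖
          ≤ (1 / (M : ℝ)) * (M * (1 / (2 * (j : ℝ)) + 1 / (2 * ((M : ℝ) - j)))) :=
            mul_le_mul_of_nonneg_left h2 (by positivity)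
        _ = _ := by rw [← mul_assoc, one_div, inv_mul_cancel₀ hM0.ne', one_mul]
  · intro m hm0 hmM
    have h1 : ∀ j ∈ range M, (1 / (M:ℂ)) * (∑ s ∈ A, ee (-((j : ℝ) * s / M))) * ee ((j : ℝ) * m / M) =
        ∑ s ∈ A, (1 / (M:ℂ)) * ee ((j:ℝ) * ((m - s : ℤ) : ℝ) / M) := by
      intro j _
      rw [mul_assoc, sum_mul, mul_sum]
      refine sum_congr rfl fun s _ => ?_
      rw [← Pool.Agent.H44W.ee_add]
      congr 2
      push_cast
      ring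
    rw [sum_congr rfl h1, sum_comm]
    have h2 : ∀ s ∈ A, ∑ j ∈ range M, (1 / (M:ℂ)) * ee ((j:ℝ) * ((m - s : ℤ) : ℝ) / M) = if s = m then 1 else 0 := by
      intro s hs
      rw [← mul_sum, Pool.Agent.H44W.ee_orth M hM]
      rw [hA, mem_Ico] at hs
      have hs0 : 0 ≤ s := le_trans (le_max_right _ _) hs.1
      have hs1 : s < M := lt_of_lt_of_le hs.2 (min_le_right _ _)
      by_cases h : s = m
      · rw [if_pos h, if_pos (by rw [h, sub_self]; exact dvd_zero _), one_div, inv_mul_cancel₀ hMc]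
      · rw [if_neg h, if_neg, mul_zero]
        intro hd
        apply h
        have h3 : m - s = 0 := Int.eq_zero_of_abs_lt_dvd hd (by rw [abs_lt]; constructor <;> omega)
        omega
    rw [sum_congr rfl h2, sum_ite_eq' A m (fun _ => (1:ℂ))]
    by_cases h : u ≤ m ∧ m < v
    · rw [if_pos h, if_pos]
      rw [hA, mem_Ico]
      exact ⟨max_le h.1 hm0, lt_min h.2 hmM⟩
    · rw [if_neg h, if_neg]
      rw [hA, mem_Ico]
      intro h3
      exact h ⟨le_trans (le_max_left _ _) h3.1, lt_of_lt_of_le h3.2 (min_le_left _ _)⟩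

/-- pairs as a single index -/
theorem d12_pair (M A : ℕ) (hA : 0 < A) (F : ℕ → ℕ → ℝ) :
    ∑ l ∈ range (M * A), F (l / A) (l % A) = ∑ j ∈ range M, ∑ i ∈ range A, F j i := by
  rw [← Finset.sum_product']
  refine Finset.sum_bij' (fun l _ => (l / A, l % A)) (fun p _ => p.1 * A + p.2) ?_ ?_ ?_ ?_ ?_
  · intro l hl
    rw [mem_range] at hl
    rw [mem_product, mem_range, mem_range]
    exact ⟨Nat.div_lt_of_lt_mul (by rw [mul_comm]; exact hl), Nat.mod_lt _ hA⟩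
  · intro p hp
    rw [mem_product, mem_range, mem_range] at hp
    rw [mem_range]
    calc p.1 * A + p.2 < p.1 * A + A := by omega
      _ = (p.1 + 1) * A := by ring
      _ ≤ M * A := Nat.mul_le_mul_right _ hp.1
  · intro l _
    exact Nat.div_add_mod' l A
  · intro p hp
    rw [mem_product, mem_range, mem_range] at hp
    have h1 : (p.1 * A + p.2) / A = p.1 := by
      rw [mul_comm, Nat.mul_add_div hA, Nat.div_eq_of_lt hp.2, add_zero]
    have h2 : (p.1 * A + p.2) % A = p.2 := by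
      rw [mul_comm, Nat.mul_add_mod, Nat.mod_eq_of_lt hp.2]
    exact Prod.ext h1 h2
  · intro l _
    rfl

/-- the interval for `y` -/
theorem d12_iv (a : ℤ) (ha : a ≠ 0) (c p q : ℤ) : ∃ u v : ℤ, ∀ x : ℤ, (x ∈ Ico p q ↔ u ≤ a * x + c ∧ a * x + c < v) := by
  rcases lt_or_gt_of_ne ha with h | h
  · refine ⟨a * (q - 1) + c, a * p + c + 1, fun x => ?_⟩
    rw [mem_Ico]
    constructor
    · intro hx
      constructor
      · nlinarith
      · nlinarith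
    · intro hx
      constructor
      · by_contra hc
        nlinarith
      · by_contra hc
        nlinarith
  · refine ⟨a * p + c, a * (q - 1) + c + 1, fun x => ?_⟩
    rw [mem_Ico]
    constructor
    · intro hx
      constructor
      · nlinarith
      · nlinarith
    · intro hx
      constructor
      · by_contra hc
        nlinarith
      · by_contra hc
        nlinarith

/-- Proof. `A = |a|`. The sum over `x ∈ Ico p q` of `g(a x + c)` is the sum over `y ∈ [-Y, Y)` of `g y` times the indicator of `A ∣ y - c` times the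
indicator of `u ≤ y + Y < v` (for `a > 0`: `y = a x + c`, `u = a p + c + Y`, `v = a (q-1) + c + Y + 1`; for `a < 0` the order is reversed, or replace `x` by
`-x`; if `q ≤ p` the sum is `0`). `D12_ind` with `M = 2Y`, `m = y + Y`: `∑_j c_j ee(j (y + Y)/M)`; `ee_orth` (`H44W/E1.lean`):
`[A ∣ y - c] = (1/A) ∑_{i < A} ee(i (y - c)/A)`. So the norm is at most `∑_{j,i} (b j / A) ‖∑_y g y ee((j/M + i/A) y)‖`. Index the pairs by
`range (M A)` (`j = l / A`, `i = l % A`; `Finset.sum_product'`, `Nat.divModEquiv`-type bijection, or `Finset.sum_nbij'`). -/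
theorem D12_prog (a : ℤ) (ha : a ≠ 0) (Y : ℕ) (hY : 1 ≤ Y) : ∃ (n : ℕ) (w θ : ℕ → ℝ), (∀ j, 0 ≤ w j) ∧
    ∑ j ∈ range n, w j ≤ 4 * (1 + Real.log (2 * Y)) ∧
    ∀ g : ℤ → ℂ, Spt Y g → ∀ c p q : ℤ, ‖∑ x ∈ Ico p q, g (a * x + c)‖ ≤
      ∑ j ∈ range n, w j * ‖∑ y ∈ Ico (-(Y : ℤ)) Y, g y * ee (θ j * y)‖ := by
  classical
  obtain ⟨b, hb0, hbs, hb⟩ := D12_ind (2 * Y) (by omega)
  obtain ⟨A, hA⟩ : ∃ A : ℕ, A = a.natAbs := ⟨_, rfl⟩
  have hA0 : 0 < A := by rw [hA]; exact Int.natAbs_pos.2 ha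
  have hAr : (0 : ℝ) < A := by exact_mod_cast hA0
  have hAc : (A : ℂ) ≠ 0 := by exact_mod_cast hA0.ne'
  have hAd : ∀ z : ℤ, (A : ℤ) ∣ z ↔ a ∣ z := by
    intro z
    rw [hA]
    exact Int.natAbs_dvd
  refine ⟨2 * Y * A, fun l => b (l / A) / A, fun l => ((l / A : ℕ) : ℝ) / ((2 * Y : ℕ) : ℝ) + ((l % A : ℕ) : ℝ) / A,
    fun l => div_nonneg (hb0 _) hAr.le, ?_, ?_⟩
  · rw [d12_pair (2 * Y) A hA0 (fun j _ => b j / A)]
    have h1 : ∀ j ∈ range (2 * Y), ∑ i ∈ range A, b j / A = b j := by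
      intro j _
      rw [sum_const, card_range, nsmul_eq_mul]
      field_simp
    rw [sum_congr rfl h1]
    push_cast at hbs
    exact hbs
  · intro g hg c p q
    obtain ⟨u, v, huv⟩ := d12_iv a ha c p q
    obtain ⟨d, hd, hdm⟩ := hb (u + Y) (v + Y)
    rw [d12_pair (2 * Y) A hA0 (fun j i => b j / A * ‖∑ y ∈ Ico (-(Y : ℤ)) Y, g y * ee (((j : ℝ) / ((2 * Y : ℕ) : ℝ) + (i : ℝ) / A) * y)‖)]
    -- the sum as a sum over `y`
    have h1 : ∑ x ∈ Ico p q, g (a * x + c) =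
        ∑ y ∈ Ico (-(Y : ℤ)) Y, g y * ((if (A : ℤ) ∣ y - c then (1 : ℂ) else 0) *
          (if u + Y ≤ y + Y ∧ y + Y < v + Y then (1 : ℂ) else 0)) := by
      have e1 : ∀ y ∈ Ico (-(Y : ℤ)) Y, g y * ((if (A : ℤ) ∣ y - c then (1 : ℂ) else 0) *
          (if u + Y ≤ y + Y ∧ y + Y < v + Y then (1 : ℂ) else 0)) =
          if a ∣ y - c ∧ u ≤ y ∧ y < v then g y else 0 := by
        intro y _
        by_cases h2 : a ∣ y - c
        · by_cases h3 : u ≤ y ∧ y < v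
          · rw [if_pos ((hAd _).2 h2), if_pos (by constructor <;> omega), if_pos ⟨h2, h3⟩, mul_one, mul_one]
          · rw [if_neg (fun h4 : u + Y ≤ y + Y ∧ y + Y < v + Y => h3 (by constructor <;> omega)),
              if_neg (fun h4 : _ ∧ _ => h3 h4.2), mul_zero, mul_zero]
        · rw [if_neg (fun h4 => h2 ((hAd _).1 h4)), if_neg (fun h4 : _ ∧ _ => h2 h4.1), zero_mul, mul_zero]
      rw [sum_congr rfl e1, ← sum_filter]
      have e2 : ∑ x ∈ Ico p q, g (a * x + c) = ∑ x ∈ (Ico p q).filter (fun x => a * x + c ∈ Ico (-(Y : ℤ)) Y), g (a * x + c) := by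
        rw [sum_filter]
        refine sum_congr rfl fun x _ => ?_
        by_cases h2 : a * x + c ∈ Ico (-(Y : ℤ)) Y
        · rw [if_pos h2]
        · rw [if_neg h2, hg _ h2]
      rw [e2]
      refine Finset.sum_bij' (fun x _ => a * x + c) (fun y _ => (y - c) / a) ?_ ?_ ?_ ?_ ?_
      · intro x hx
        rw [mem_filter] at hx ⊢
        refine ⟨hx.2, ⟨x, by ring⟩, (huv x).1 hx.1⟩
      · intro y hy
        rw [mem_filter] at hy ⊢
        have h2 : a * ((y - c) / a) = y - c := Int.mul_ediv_cancel' hy.2.1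
        have h3 : a * ((y - c) / a) + c = y := by rw [h2]; ring
        refine ⟨(huv _).2 ?_, ?_⟩
        · rw [h3]
          exact hy.2.2
        · rw [h3]
          exact hy.1
      · intro x _
        show (a * x + c - c) / a = x
        rw [add_sub_cancel_right, Int.mul_ediv_cancel_left _ ha]
      · intro y hy
        rw [mem_filter] at hy
        show a * ((y - c) / a) + c = y
        rw [Int.mul_ediv_cancel' hy.2.1]
        ring
      · intro x _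
        rfl
    have h2 : ∀ y ∈ Ico (-(Y : ℤ)) Y, g y * ((if (A : ℤ) ∣ y - c then (1 : ℂ) else 0) *
          (if u + Y ≤ y + Y ∧ y + Y < v + Y then (1 : ℂ) else 0)) =
        ∑ j ∈ range (2 * Y), ∑ i ∈ range A, d j / A * (ee ((j : ℝ) * Y / ((2 * Y : ℕ) : ℝ)) * ee (-((i : ℝ) * c / A))) *
          (g y * ee (((j : ℝ) / ((2 * Y : ℕ) : ℝ) + (i : ℝ) / A) * y)) := by
      intro y hy
      rw [mem_Ico] at hy
      have e1 := hdm (y + Y) (by omega) (by push_cast; omega)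
      have e2 : (if (A : ℤ) ∣ y - c then (1 : ℂ) else 0) = (1 / (A : ℂ)) * ∑ i ∈ range A, ee ((i : ℝ) * ((y - c : ℤ) : ℝ) / A) := by
        rw [Pool.Agent.H44W.ee_orth A hA0 (y - c)]
        by_cases h3 : (A : ℤ) ∣ y - c
        · rw [if_pos h3, if_pos h3]
          field_simp
        · rw [if_neg h3, if_neg h3, mul_zero]
      rw [e1, e2, mul_sum, mul_sum, mul_sum]
      refine sum_congr rfl fun j _ => ?_
      rw [sum_mul, mul_sum]
      refine sum_congr rfl fun i _ => ?_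
      have e3 : ee ((j : ℝ) * ((y + Y : ℤ) : ℝ) / ((2 * Y : ℕ) : ℝ)) =
          ee ((j : ℝ) * Y / ((2 * Y : ℕ) : ℝ)) * ee ((j : ℝ) / ((2 * Y : ℕ) : ℝ) * y) := by
        rw [← Pool.Agent.H44W.ee_add]
        congr 1
        push_cast
        ring
      have e4 : ee ((i : ℝ) * ((y - c : ℤ) : ℝ) / A) = ee (-((i : ℝ) * c / A)) * ee ((i : ℝ) / A * y) := by
        rw [← Pool.Agent.H44W.ee_add]
        congr 1
        push_cast
        ring
      have e5 : ee (((j : ℝ) / ((2 * Y : ℕ) : ℝ) + (i : ℝ) / A) * y) =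
          ee ((j : ℝ) / ((2 * Y : ℕ) : ℝ) * y) * ee ((i : ℝ) / A * y) := by
        rw [← Pool.Agent.H44W.ee_add]
        congr 1
        ring
      rw [e3, e4, e5]
      ring
    rw [h1, sum_congr rfl h2, sum_comm]
    refine (norm_sum_le _ _).trans (sum_le_sum fun j hj => ?_)
    rw [sum_comm]
    refine (norm_sum_le _ _).trans (sum_le_sum fun i _ => ?_)
    rw [← mul_sum, norm_mul, norm_mul, norm_mul, Pool.Agent.H44W.norm_ee, Pool.Agent.H44W.norm_ee, mul_one, mul_one,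
      norm_div, Complex.norm_natCast]
    exact mul_le_mul_of_nonneg_right (div_le_div_of_nonneg_right (hd j hj) hAr.le) (norm_nonneg _)

end Pool.Agent.HUK
end

-- from Lib.HUK.D13
section

/-!
# Project HUK, chunk D13 (M): mean square over the differences `Λ j` of the Fourier coefficient
-/

open Finset

namespace Pool.Agent.HUK

open Pool.Agent.H44W (ee)

/-- Re-indexing of multiples. Proof: exactly the equations `e1`, `e2` in the proof of `D0_V2` (`D0.lean`), with `Φ` instead of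
`fun h => FF X h f`. -/
theorem D13_mul (X s M : ℕ) (hM : 0 < M) (d : ℤ) (hd : d ≠ 0) (Φ : (Fin s → ℤ) → ℂ) (hΦ : ∀ h i, (2 * X : ℤ) ≤ |h i| → Φ h = 0) :
    ∑ t ∈ bxS s M, ((FW M t : ℝ) : ℂ) * Φ (fun i => d * t i) =
      ∑ h ∈ bxS s (2 * X), (∏ i, (if d ∣ h i then ((fw M (h i / d) : ℝ) : ℂ) else 0)) * Φ h := by
  classical
  -- both sums are sums over the `t` in a large box
  obtain ⟨N, hN⟩ : ∃ N : ℕ, N = M + 2 * X + 1 := ⟨_, rfl⟩
  have hfw : ∀ t : Fin s → ℤ, (∃ i, (M : ℤ) ≤ |t i|) → FW M t = 0 := by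
    rintro t ⟨i, hi⟩
    exact prod_eq_zero (mem_univ i) (D0_fw0 hM hi)
  have e1 : ∑ t ∈ bxS s M, ((FW M t : ℝ) : ℂ) * Φ (fun i => d * t i) =
      ∑ t ∈ bxS s N, ((FW M t : ℝ) : ℂ) * Φ (fun i => d * t i) := by
    refine Finset.sum_subset (fun t ht => ?_) fun t _ ht => ?_
    · unfold bxS at ht ⊢
      rw [Fintype.mem_piFinset] at ht ⊢
      intro i
      have := mem_Ioo.1 (ht i)
      rw [mem_Ioo]
      omega
    · unfold bxS at ht
      rw [Fintype.mem_piFinset] at ht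
      push Not at ht
      obtain ⟨i, hi⟩ := ht
      rw [hfw t ⟨i, ?_⟩]
      · simp
      · rw [mem_Ioo] at hi
        rw [le_abs]
        omega
  have e2 : ∑ h ∈ bxS s (2 * X), (∏ i, (if d ∣ h i then ((fw M (h i / d) : ℝ) : ℂ) else 0)) * Φ h =
      ∑ t ∈ (bxS s N).filter (fun t => ∀ i, |d * t i| < 2 * X), ((FW M t : ℝ) : ℂ) * Φ (fun i => d * t i) := by
    symm
    have e3 : ∑ h ∈ bxS s (2 * X), (∏ i, (if d ∣ h i then ((fw M (h i / d) : ℝ) : ℂ) else 0)) * Φ h =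
        ∑ h ∈ (bxS s (2 * X)).filter (fun h => ∀ i, d ∣ h i),
          (∏ i, (if d ∣ h i then ((fw M (h i / d) : ℝ) : ℂ) else 0)) * Φ h := by
      rw [Finset.sum_filter]
      refine sum_congr rfl fun h _ => ?_
      split_ifs with h2
      · rfl
      · push Not at h2
        obtain ⟨i, hi⟩ := h2
        rw [prod_eq_zero (mem_univ i) (if_neg hi), zero_mul]
    rw [e3]
    refine Finset.sum_bij' (fun t _ => fun i => d * t i) (fun h _ => fun i => h i / d) ?_ ?_ ?_ ?_ ?_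
    · intro t ht
      rw [mem_filter] at ht ⊢
      refine ⟨?_, fun i => dvd_mul_right _ _⟩
      unfold bxS
      rw [Fintype.mem_piFinset]
      intro i
      have := abs_lt.1 (ht.2 i)
      rw [mem_Ioo]
      push_cast
      exact this
    · intro h hh
      rw [mem_filter] at hh ⊢
      have hh1 := hh.1
      unfold bxS at hh1
      rw [Fintype.mem_piFinset] at hh1
      have h3 : ∀ i, d * (h i / d) = h i := fun i => Int.mul_ediv_cancel' (hh.2 i)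
      refine ⟨?_, fun i => ?_⟩
      · unfold bxS
        rw [Fintype.mem_piFinset]
        intro i
        have h4 := mem_Ioo.1 (hh1 i)
        push_cast at h4
        have h5 : |h i / d| ≤ |h i| := by
          rw [← h3 i, abs_mul, h3 i]
          have h6 : 1 ≤ |d| := Int.one_le_abs hd
          nlinarith [abs_nonneg (h i / d)]
        have h6 : |h i| < 2 * X := abs_lt.2 h4
        have h7 := abs_lt.1 (lt_of_le_of_lt h5 h6)
        rw [mem_Ioo, hN]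
        push_cast
        constructor <;> linarith [h7.1, h7.2, (by positivity : (0 : ℤ) ≤ (M : ℤ))]
      · rw [h3 i]
        have h4 := mem_Ioo.1 (hh1 i)
        push_cast at h4
        exact abs_lt.2 h4
    · intro t _
      funext i
      exact Int.mul_ediv_cancel_left _ hd
    · intro h hh
      rw [mem_filter] at hh
      funext i
      exact Int.mul_ediv_cancel' (hh.2 i)
    · intro t _
      congr 1
      unfold FW
      push_cast
      refine prod_congr rfl fun i _ => ?_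
      rw [if_pos (dvd_mul_right _ _), Int.mul_ediv_cancel_left _ hd]
  rw [e1, e2, Finset.sum_filter]
  refine sum_congr rfl fun t _ => ?_
  split_ifs with h2
  · rfl
  · push Not at h2
    obtain ⟨i, hi⟩ := h2
    rw [hΦ _ i hi, mul_zero]

/-- Proof. For `j ∈ bxS s H` all factors of `FW (2H) j` are at least `1/2`, and `FW (2H) ≥ 0`, so the sum is at most
`2^s ∑_{j ∈ bxS s (2H)} FW (2H) j Φ(Λ j)`, `Φ(h) = ‖∑_y DV h f y ee(θ y)‖²`. By `d0_sq` (with `-θ`, `g = DV h f`, `D0_SDV`) and `D0_cons'`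
`Φ(h) = ∑_{a ∈ Ioo (-2X) (2X)} ee(-θ a) FF X (Fin.cons a h) f` (`Φ h = 0` if some `|h i| ≥ 2X`: `D0_large` for `Fin.cons a h`). `D13_mul`, then
`∑_h ∑_a = ∑_{bxS (s+1) (2X)}` (`D0_bx`, `Finset.sum_comm`), and the weight is `∏_i W i (h i)` with `W = Fin.cons (fun a => ee (-θ * a)) (fun _ => Fejer)`
(`Fin.prod_univ_succ`); `D0_W` with `s + 1 ≥ 2` (`D0_Wee`, `D0_fej` with `M = 2H`, `d = Λ`). A real number is at most its norm as a complex number. -/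
theorem D13_sq (X s H : ℕ) (hs : 1 ≤ s) (hH : 0 < H) (Λ : ℤ) (hΛ : Λ ≠ 0) (f : ℤ → ℂ) (hf : Spt X f) (θ : ℝ) :
    ∑ j ∈ bxS s H, ‖∑ y ∈ Ico (-(X : ℤ)) X, DV (fun i => Λ * j i) f y * ee (θ * y)‖ ^ 2 ≤ 2 ^ s * GG X (s + 1) f := by
  classical
  set Φ : (Fin s → ℤ) → ℝ := fun h => ‖∑ y ∈ Ico (-(X : ℤ)) X, DV h f y * ee (θ * y)‖ ^ 2 with hΦd
  have hΦ0 : ∀ h, 0 ≤ Φ h := fun h => by
    rw [hΦd]
    positivity
  have hform : ∀ h, ((Φ h : ℝ) : ℂ) = ∑ a ∈ Ioo (-(2 * X : ℤ)) (2 * X), ee (-θ * a) * FF X (Fin.cons a h) f := by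
    intro h
    have h1 := d0_sq X (DV h f) (D0_SDV hf h) (-θ)
    have h2 : (fun y : ℤ => DV h f y * ee (-(-θ * y))) = fun y : ℤ => DV h f y * ee (θ * y) := by
      funext y
      congr 2
      ring
    simp only [hΦd]
    rw [show (∑ y ∈ Ico (-(X : ℤ)) X, DV h f y * ee (θ * y)) = ∑ y ∈ Ico (-(X : ℤ)) X, DV h f y * ee (-(-θ * y)) from
      Finset.sum_congr rfl fun y _ => (congrFun h2 y).symm]
    rw [← h1]
    refine Finset.sum_congr rfl fun a _ => ?_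
    unfold FF
    rw [D0_cons']
  have hΦ : ∀ h : Fin s → ℤ, ∀ i, (2 * X : ℤ) ≤ |h i| → ((Φ h : ℝ) : ℂ) = 0 := by
    intro h i hi
    rw [hform]
    refine Finset.sum_eq_zero fun a _ => ?_
    rw [D0_large hf (Fin.cons a h) i.succ (by rw [Fin.cons_succ]; exact hi), mul_zero]
  have h2H : 0 < 2 * H := by omega
  have hHr : (0 : ℝ) < H := by exact_mod_cast hH
  have hFW0 : ∀ t : Fin s → ℤ, 0 ≤ FW (2 * H) t := by
    intro t
    unfold FW
    refine Finset.prod_nonneg fun i _ => ?_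
    unfold fw
    exact le_max_left _ _
  have step1 : ∑ j ∈ bxS s H, Φ (fun i => Λ * j i) ≤ 2 ^ s * ∑ j ∈ bxS s (2 * H), FW (2 * H) j * Φ (fun i => Λ * j i) := by
    rw [Finset.mul_sum]
    have hsub : bxS s H ⊆ bxS s (2 * H) := by
      intro t ht
      unfold bxS at ht ⊢
      rw [Fintype.mem_piFinset] at ht ⊢
      intro i
      have := Finset.mem_Ioo.1 (ht i)
      rw [Finset.mem_Ioo]
      push_cast
      omega
    refine le_trans ?_ (Finset.sum_le_sum_of_subset_of_nonneg hsub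
      (fun j _ _ => mul_nonneg (by positivity) (mul_nonneg (hFW0 j) (hΦ0 _))))
    refine Finset.sum_le_sum fun j hj => ?_
    have h3 : (1 / 2 : ℝ) ^ s ≤ FW (2 * H) j := by
      unfold FW
      have h4 : ∏ _i : Fin s, (1 / 2 : ℝ) = (1 / 2 : ℝ) ^ s := by
        rw [Finset.prod_const, Finset.card_univ, Fintype.card_fin]
      rw [← h4]
      refine Finset.prod_le_prod (fun _ _ => by norm_num) fun i _ => ?_
      unfold fw
      refine le_trans ?_ (le_max_right _ _)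
      unfold bxS at hj
      have h5 := Finset.mem_Ioo.1 (Fintype.mem_piFinset.1 hj i)
      have h6 : |(j i : ℝ)| ≤ H := by
        rw [abs_le]
        constructor
        · have : (-(H : ℤ) : ℝ) ≤ (j i : ℝ) := by exact_mod_cast h5.1.le
          push_cast at this
          exact this
        · exact_mod_cast h5.2.le
      have h7 : |(j i : ℝ)| / ((2 * H : ℕ) : ℝ) ≤ 1 / 2 := by
        push_cast
        rw [div_le_iff₀ (by positivity)]
        linarith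
      linarith
    have h8 : (1 : ℝ) ≤ 2 ^ s * FW (2 * H) j := by
      calc (1 : ℝ) = 2 ^ s * (1 / 2) ^ s := by
            rw [← mul_pow]
            norm_num
        _ ≤ 2 ^ s * FW (2 * H) j := mul_le_mul_of_nonneg_left h3 (by positivity)
    calc Φ (fun i => Λ * j i) = 1 * Φ (fun i => Λ * j i) := (one_mul _).symm
      _ ≤ (2 ^ s * FW (2 * H) j) * Φ (fun i => Λ * j i) := mul_le_mul_of_nonneg_right h8 (hΦ0 _)
      _ = 2 ^ s * (FW (2 * H) j * Φ (fun i => Λ * j i)) := by ring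
  refine step1.trans ?_
  apply mul_le_mul_of_nonneg_left _ (by positivity)
  have hmul := D13_mul X s (2 * H) h2H Λ hΛ (fun h => ((Φ h : ℝ) : ℂ)) hΦ
  have hcast : ((∑ j ∈ bxS s (2 * H), FW (2 * H) j * Φ (fun i => Λ * j i) : ℝ) : ℂ) =
      ∑ t ∈ bxS s (2 * H), ((FW (2 * H) t : ℝ) : ℂ) * ((Φ (fun i => Λ * t i) : ℝ) : ℂ) := by
    push_cast
    rfl
  set W : Fin (s + 1) → ℤ → ℂ := Fin.cons (fun a => ee (-θ * a))
    (fun _ a => if Λ ∣ a then ((fw (2 * H) (a / Λ) : ℝ) : ℂ) else 0) with hWd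
  have hW : ∀ i, PhW X (W i) := by
    intro i
    refine Fin.cases ?_ (fun j => ?_) i
    · rw [hWd, Fin.cons_zero]
      exact D0_Wee X (-θ)
    · rw [hWd, Fin.cons_succ]
      exact D0_fej X (2 * H) h2H Λ hΛ
  have hmain := D0_W (s := s + 1) hf (by omega) W hW
  have hsum : ∑ h ∈ bxS (s + 1) (2 * X), (∏ i, W i (h i)) * FF X h f =
      ∑ h ∈ bxS s (2 * X), (∏ i, (if Λ ∣ h i then ((fw (2 * H) (h i / Λ) : ℝ) : ℂ) else 0)) * ((Φ h : ℝ) : ℂ) := by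
    rw [D0_bx, Finset.sum_comm]
    refine Finset.sum_congr rfl fun h _ => ?_
    rw [hform, Finset.mul_sum]
    push_cast
    refine Finset.sum_congr rfl fun a _ => ?_
    rw [Fin.prod_univ_succ]
    simp only [hWd, Fin.cons_zero, Fin.cons_succ]
    ring
  rw [hsum, ← hmul, ← hcast, Complex.norm_real] at hmain
  exact (le_abs_self _).trans hmain

/-- Proof. Cauchy-Schwarz (`Finset.sum_mul_sq_le_sq_mul_sq` or `inner_mul_le_norm_mul_norm`), the number of `j` is at most `(2H)^s`. -/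
theorem D13_abs (X s H : ℕ) (hs : 1 ≤ s) (hH : 0 < H) (Λ : ℤ) (hΛ : Λ ≠ 0) (f : ℤ → ℂ) (hf : Spt X f) (θ : ℝ) :
    (∑ j ∈ bxS s H, ‖∑ y ∈ Ico (-(X : ℤ)) X, DV (fun i => Λ * j i) f y * ee (θ * y)‖) ^ 2 ≤
      (2 * H) ^ s * (2 ^ s * GG X (s + 1) f) := by
  have h1 := sq_sum_le_card_mul_sum_sq (s := bxS s H)
    (f := fun j : Fin s → ℤ => ‖∑ y ∈ Ico (-(X : ℤ)) X, DV (fun i => Λ * j i) f y * ee (θ * y)‖)
  have h2 := D13_sq X s H hs hH Λ hΛ f hf θ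
  have h3 : (((bxS s H).card : ℕ) : ℝ) ≤ (2 * H) ^ s := by
    unfold bxS
    rw [Fintype.card_piFinset]
    push_cast
    rw [show ((2 : ℝ) * H) ^ s = ∏ _i : Fin s, ((2 : ℝ) * H) by
      rw [Finset.prod_const, Finset.card_univ, Fintype.card_fin]]
    refine Finset.prod_le_prod (fun _ _ => by positivity) fun i _ => ?_
    rw [Int.card_Ioo]
    have h4 : ((H : ℤ) - -(H : ℤ) - 1).toNat ≤ 2 * H := by omega
    calc ((((H : ℤ) - -(H : ℤ) - 1).toNat : ℕ) : ℝ) ≤ ((2 * H : ℕ) : ℝ) := by exact_mod_cast h4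
      _ = 2 * H := by push_cast; ring
  refine h1.trans ?_
  refine mul_le_mul h3 h2 (Finset.sum_nonneg fun _ _ => by positivity) (by positivity)

end Pool.Agent.HUK
end

-- from Lib.HUK.D31
section

/-!
# Project HUK, chunk D31: few `t` with a vanishing minor
-/

open Finset

namespace Pool.Agent.HUK

open Pool.Agent.H9U (Sys iv)
open Pool.Agent.Lib.H59P (bx)

open Classical in
/-- Proof. `minr b t i j = ∑_r (a_i c_jr - a_j c_ir) t_r + const` with a nonzero coefficient at `r0` (`T6S_ne`): for given other coordinates at most one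
value of `t_{r0}` (the map to the other coordinates, e.g. `t ↦ Function.update t r0 0`, is injective on the set). -/
theorem D31_card {k d : ℕ} (S : Sys k d) (hS : MinP S) (i j : Fin k) (hij : i ≠ j) (b : Fin k → ℤ) (T : ℕ) :
    ((bx d T).filter (fun t => S.minr b (iv t) i j = 0)).card * T ≤ T ^ d := by
  obtain ⟨r0, hr0⟩ := hS i j hij
  have hcard : (bx d T).card = T ^ d := by
    unfold bx
    rw [Fintype.card_piFinset, Finset.prod_const, Finset.card_univ, Fintype.card_fin, Finset.card_range]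
  obtain ⟨A, hA⟩ : ∃ A, A = (bx d T).filter (fun t => S.minr b (iv t) i j = 0) := ⟨_, rfl⟩
  rw [← hA]
  have hlin : ∀ t : Fin d → ℕ, S.minr b (iv t) i j =
      ∑ r, (S.a i * S.c j r - S.a j * S.c i r) * (t r : ℤ) + (S.a i * b j - S.a j * b i) := by
    intro t
    unfold Sys.minr Sys.val Sys.lin iv
    rw [mul_add, mul_add, mul_add, mul_add, Finset.mul_sum, Finset.mul_sum]
    have h1 : ∀ r, (S.a i * S.c j r - S.a j * S.c i r) * (t r : ℤ) =
        S.a i * (S.c j r * (t r : ℤ)) - S.a j * (S.c i r * (t r : ℤ)) := fun r => by ring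
    rw [Finset.sum_congr rfl fun r _ => h1 r, Finset.sum_sub_distrib]
    ring
  have hmem : ∀ t, t ∈ bx d T ↔ ∀ r, t r < T := by
    intro t
    unfold bx
    rw [Fintype.mem_piFinset]
    exact forall_congr' fun r => Finset.mem_range
  have h2 : (A ×ˢ range T).card ≤ (bx d T).card := by
    refine Finset.card_le_card_of_injOn (fun x => Function.update x.1 r0 x.2) ?_ ?_
    · rintro ⟨t, y⟩ hx
      have hx' := Finset.mem_product.1 (Finset.mem_coe.1 hx)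
      rw [Finset.mem_coe, hmem]
      intro r
      have ht : t ∈ bx d T := by
        have := hx'.1
        rw [hA, Finset.mem_filter] at this
        exact this.1
      show Function.update t r0 y r < T
      by_cases hr : r = r0
      · rw [hr, Function.update_self]
        exact Finset.mem_range.1 hx'.2
      · rw [Function.update_of_ne hr]
        exact (hmem t).1 ht r
    · rintro ⟨t, y⟩ hx ⟨t', y'⟩ hx' he
      have he' : Function.update t r0 y = Function.update t' r0 y' := he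
      have h3 := (Finset.mem_product.1 (Finset.mem_coe.1 hx)).1
      have h4 := (Finset.mem_product.1 (Finset.mem_coe.1 hx')).1
      rw [hA, Finset.mem_filter] at h3 h4
      have hy : y = y' := by
        have := congrFun he' r0
        rwa [Function.update_self, Function.update_self] at this
      have hother : ∀ r, r ≠ r0 → t r = t' r := by
        intro r hr
        have := congrFun he' r
        rwa [Function.update_of_ne hr, Function.update_of_ne hr] at this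
      have h5 : ∑ r, (S.a i * S.c j r - S.a j * S.c i r) * (t r : ℤ) =
          ∑ r, (S.a i * S.c j r - S.a j * S.c i r) * (t' r : ℤ) := by
        have h6 := h3.2
        have h7 := h4.2
        rw [hlin] at h6 h7
        linarith
      have h8 : (S.a i * S.c j r0 - S.a j * S.c i r0) * (t r0 : ℤ) =
          (S.a i * S.c j r0 - S.a j * S.c i r0) * (t' r0 : ℤ) := by
        rw [← Finset.add_sum_erase _ _ (Finset.mem_univ r0), ← Finset.add_sum_erase _ _ (Finset.mem_univ r0)] at h5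
        have h9 : ∑ r ∈ univ.erase r0, (S.a i * S.c j r - S.a j * S.c i r) * (t r : ℤ) =
            ∑ r ∈ univ.erase r0, (S.a i * S.c j r - S.a j * S.c i r) * (t' r : ℤ) :=
          Finset.sum_congr rfl fun r hr => by rw [hother r (Finset.ne_of_mem_erase hr)]
        rw [h9] at h5
        exact add_right_cancel h5
      have h10 : t r0 = t' r0 := by
        have := mul_left_cancel₀ hr0 h8
        exact_mod_cast this
      have h11 : t = t' := by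
        funext r
        by_cases hr : r = r0
        · rw [hr]
          exact h10
        · exact hother r hr
      rw [h11, hy]
  rw [Finset.card_product, Finset.card_range, hcard] at h2
  exact h2

open Classical in
/-- the `t` with a vanishing minor. -/
theorem D31_minor {k d : ℕ} (S : Sys k d) (hS : MinP S) (hd : 1 ≤ d) (b : Fin k → ℤ) (T : ℕ) (hT : 0 < T) :
    ((bx d T).filter (fun t => ∃ i j, i ≠ j ∧ S.minr b (iv t) i j = 0)).card ≤ k * k * T ^ (d - 1) := by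
  have h1 : (bx d T).filter (fun t => ∃ i j, i ≠ j ∧ S.minr b (iv t) i j = 0) ⊆
      (univ : Finset (Fin k)).offDiag.biUnion
        (fun ij => (bx d T).filter (fun t => S.minr b (iv t) ij.1 ij.2 = 0)) := by
    intro t ht
    rw [Finset.mem_filter] at ht
    obtain ⟨h0, i, j, hij, hm⟩ := ht
    rw [Finset.mem_biUnion]
    exact ⟨(i, j), Finset.mem_offDiag.2 ⟨mem_univ _, mem_univ _, hij⟩, Finset.mem_filter.2 ⟨h0, hm⟩⟩
  refine (Finset.card_le_card h1).trans ?_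
  refine (Finset.card_biUnion_le_card_mul _ _ (T ^ (d - 1)) ?_).trans ?_
  · intro ij hij
    rw [Finset.mem_offDiag] at hij
    have h2 := D31_card S hS ij.1 ij.2 hij.2.2 b T
    have h3 : T ^ d = T ^ (d - 1) * T := by
      rw [← pow_succ]
      congr 1
      omega
    rw [h3] at h2
    exact Nat.le_of_mul_le_mul_right h2 hT
  · refine Nat.mul_le_mul_right _ ?_
    rw [Finset.offDiag_card, Finset.card_univ, Fintype.card_fin]
    exact Nat.sub_le _ _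

end Pool.Agent.HUK
end

-- from Lib.HUK.KA14
section

/-!
# Project HUK, chunk KA14 (S/M): the interface `UCH s`
-/

open Finset

namespace Pool.Agent.HUK

/-- Proof. `s = n + 1`; `C'`, `e'` from `KA13_u n`. Cauchy-Schwarz: `(∑_h ‖∑_y ..‖)² ≤ q^s ∑_h ‖∑_y ..‖²`, and by `KA10_sq`
`∑_{h : Fin s → ZMod q} ‖∑_y DL (List.ofFn h) χ y‖² = q^(s+2) uG (s+1) χ ≤ q^(s+2) C' q^(-e')`. So the sum is at most
`q^(s+1) (C')^(1/2) q^(-e'/2)`: `C = C'^(1/2)`, `c = e'/2`. -/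
theorem UCH_all (s : ℕ) (hs : 1 ≤ s) : UCH s := by
  obtain ⟨n, rfl⟩ : ∃ n, s = n + 1 := ⟨s - 1, by omega⟩
  obtain ⟨C', e', hC, he, he1, h⟩ := KA13_u n
  refine ⟨Real.sqrt C', e' / 2, Real.sqrt_pos.2 hC, by linarith, by linarith, ?_⟩
  intro q _ χ hχ
  have hu := h q χ hχ
  have hq : (0 : ℝ) < q := Nat.cast_pos.2 (NeZero.pos q)
  have h1 : uG (n + 2) (fun y => χ y) =
      (∑ t : Fin (n + 1) → ZMod q, ‖∑ y, DL (List.ofFn t) (fun y => χ y) y‖ ^ 2) / (q : ℝ) ^ (n + 3) := by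
    unfold uG
    rw [KA10_sq (n + 1) (fun y => χ y), Complex.ofReal_re]
  rw [h1, div_le_iff₀ (pow_pos hq _)] at hu
  have h3 : (∑ t : Fin (n + 1) → ZMod q, ‖∑ y, DL (List.ofFn t) (fun y => χ y) y‖) ^ 2 ≤
      (q : ℝ) ^ (n + 1) * ∑ t : Fin (n + 1) → ZMod q, ‖∑ y, DL (List.ofFn t) (fun y => χ y) y‖ ^ 2 := by
    have h4 := sq_sum_le_card_mul_sum_sq (s := (univ : Finset (Fin (n + 1) → ZMod q)))
      (f := fun t => ‖∑ y, DL (List.ofFn t) (fun y => χ y) y‖)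
    have h5 : ((univ : Finset (Fin (n + 1) → ZMod q)).card : ℝ) = (q : ℝ) ^ (n + 1) := by
      rw [card_univ, Fintype.card_fun, ZMod.card, Fintype.card_fin, Nat.cast_pow]
    rw [h5] at h4
    exact h4
  have h6 : (q : ℝ) ^ (n + 1) * (C' * (q : ℝ) ^ (-e') * (q : ℝ) ^ (n + 3)) =
      (Real.sqrt C' * (q : ℝ) ^ (((n + 1 : ℕ) : ℝ) + 1 - e' / 2)) ^ 2 := by
    rw [mul_pow, Real.sq_sqrt hC.le, ← Real.rpow_natCast (_ ^ _) 2, ← Real.rpow_mul hq.le,
      ← Real.rpow_natCast (q : ℝ) (n + 1), ← Real.rpow_natCast (q : ℝ) (n + 3)]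
    rw [show (q : ℝ) ^ (((n + 1 : ℕ) : ℝ)) * (C' * (q : ℝ) ^ (-e') * (q : ℝ) ^ (((n + 3 : ℕ) : ℝ))) =
      C' * ((q : ℝ) ^ (((n + 1 : ℕ) : ℝ)) * (q : ℝ) ^ (-e') * (q : ℝ) ^ (((n + 3 : ℕ) : ℝ))) by ring,
      ← Real.rpow_add hq, ← Real.rpow_add hq]
    congr 2
    push_cast
    ring
  have h7 : (∑ t : Fin (n + 1) → ZMod q, ‖∑ y, DL (List.ofFn t) (fun y => χ y) y‖) ^ 2 ≤
      (Real.sqrt C' * (q : ℝ) ^ (((n + 1 : ℕ) : ℝ) + 1 - e' / 2)) ^ 2 := by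
    rw [← h6]
    exact h3.trans (mul_le_mul_of_nonneg_left hu (pow_pos hq _).le)
  exact le_of_sq_le_sq h7 (mul_nonneg (Real.sqrt_nonneg _) (Real.rpow_nonneg hq.le _))

end Pool.Agent.HUK
end

-- from Lib.HUK.KB5
section

/-!
# Project HUK, chunk KB5 (M): the character part
-/

open Finset

namespace Pool.Agent.HUK

open Pool.Agent.Lib.H59P (Ch)

theorem kb5_conj (n : ℕ) (z : ℂ) : (starRingEnd ℂ) (cj n z) = cj n ((starRingEnd ℂ) z) := by
  unfold cj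
  split_ifs <;> rfl

/-- the function in terms of residues -/
theorem kb5_eq {k : ℕ} (p : Ch) (y : ℤ) (h : Fin k → ℤ) :
    cp p y h = (starRingEnd ℂ) (DL (List.ofFn fun i => ((lam k i : ℤ) : ZMod p.1) * ((h i : ℤ) : ZMod p.1))
      (fun z => p.2 z) ((y : ℤ) : ZMod p.1)) := by
  unfold cp
  rw [DL_prod, DL_prod, map_prod]
  refine Finset.prod_congr rfl fun ω _ => ?_
  rw [kb5_conj]
  congr 3
  unfold vt
  push_cast
  congr 1

/-- sums over residues -/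
theorem kb5_sum (r : ℕ) [NeZero r] {M : Type*} [AddCommMonoid M] (g : ZMod r → M) :
    ∑ y ∈ Ico (0 : ℤ) r, g ((y : ℤ) : ZMod r) = ∑ z : ZMod r, g z := by
  have hr : 0 < r := Nat.pos_of_ne_zero (NeZero.ne r)
  refine Finset.sum_nbij' (fun y : ℤ => (y : ZMod r)) (fun z : ZMod r => (z.val : ℤ)) (fun _ _ => Finset.mem_univ _) ?_ ?_ ?_
    (fun _ _ => rfl)
  · intro z _
    rw [Finset.mem_Ico]
    exact ⟨by positivity, by exact_mod_cast ZMod.val_lt z⟩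
  · intro y hy
    rw [Finset.mem_Ico] at hy
    show (((y : ZMod r)).val : ℤ) = y
    rw [ZMod.val_intCast, Int.emod_eq_of_lt hy.1 hy.2]
  · intro z _
    show (((z.val : ℕ) : ℤ) : ZMod r) = z
    rw [Int.cast_natCast, ZMod.natCast_zmod_val]

/-- sums over tuples of residues -/
theorem kb5_sum_pi (k r : ℕ) [NeZero r] {M : Type*} [AddCommMonoid M] (g : (Fin k → ZMod r) → M) :
    ∑ h ∈ Fintype.piFinset (fun _ : Fin k => Ico (0 : ℤ) r), g (fun i => ((h i : ℤ) : ZMod r)) = ∑ t : Fin k → ZMod r, g t := by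
  have hr : 0 < r := Nat.pos_of_ne_zero (NeZero.ne r)
  refine Finset.sum_nbij' (fun h : Fin k → ℤ => fun i => ((h i : ℤ) : ZMod r)) (fun t : Fin k → ZMod r => fun i => ((t i).val : ℤ))
    (fun _ _ => Finset.mem_univ _) ?_ ?_ ?_ (fun _ _ => rfl)
  · intro t _
    rw [Fintype.mem_piFinset]
    intro i
    rw [Finset.mem_Ico]
    exact ⟨by positivity, by exact_mod_cast ZMod.val_lt (t i)⟩
  · intro h hh
    funext i
    have hi := Finset.mem_Ico.1 (Fintype.mem_piFinset.1 hh i)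
    show ((((h i : ℤ) : ZMod r)).val : ℤ) = h i
    rw [ZMod.val_intCast, Int.emod_eq_of_lt hi.1 hi.2]
  · intro t _
    funext i
    show ((((t i).val : ℕ) : ℤ) : ZMod r) = t i
    rw [Int.cast_natCast, ZMod.natCast_zmod_val]

theorem kb5_lam (k : ℕ) (i : Fin k) : lam k i ≠ 0 ∧ (lam k i).natAbs ≤ k := by
  have hi := i.2
  unfold lam
  constructor
  · omega
  · omega

/-- fibres of the coordinatewise multiplication -/
theorem kb5_fib (k r : ℕ) [NeZero r] (F : (Fin k → ZMod r) → ℝ) (hF : ∀ t, 0 ≤ F t) :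
    ∑ h : Fin k → ZMod r, F (fun i => ((lam k i : ℤ) : ZMod r) * h i) ≤ (k : ℝ) ^ k * ∑ t, F t := by
  classical
  rw [← Finset.sum_fiberwise univ (fun h : Fin k → ZMod r => fun i => ((lam k i : ℤ) : ZMod r) * h i), Finset.mul_sum]
  refine Finset.sum_le_sum fun t _ => ?_
  have h1 : ∑ h ∈ univ.filter (fun h : Fin k → ZMod r => (fun i => ((lam k i : ℤ) : ZMod r) * h i) = t),
      F (fun i => ((lam k i : ℤ) : ZMod r) * h i) =
      ∑ h ∈ univ.filter (fun h : Fin k → ZMod r => (fun i => ((lam k i : ℤ) : ZMod r) * h i) = t), F t := by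
    refine Finset.sum_congr rfl fun h hh => ?_
    rw [(mem_filter.1 hh).2]
  rw [h1, Finset.sum_const, nsmul_eq_mul]
  refine mul_le_mul_of_nonneg_right ?_ (hF t)
  have h2 : univ.filter (fun h : Fin k → ZMod r => (fun i => ((lam k i : ℤ) : ZMod r) * h i) = t) =
      Fintype.piFinset (fun i => univ.filter (fun m : ZMod r => ((lam k i : ℤ) : ZMod r) * m + 0 = t i)) := by
    ext h
    rw [Fintype.mem_piFinset]
    simp only [mem_filter, mem_univ, true_and, add_zero]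
    exact funext_iff
  rw [h2, Fintype.card_piFinset]
  have h3 : ∏ i : Fin k, (univ.filter (fun m : ZMod r => ((lam k i : ℤ) : ZMod r) * m + 0 = t i)).card ≤ ∏ _i : Fin k, k :=
    Finset.prod_le_prod' fun i _ => (H9U.l0_card r (lam k i) (kb5_lam k i).1 0 (t i)).trans (kb5_lam k i).2
  rw [Finset.prod_const, Finset.card_univ, Fintype.card_fin] at h3
  exact_mod_cast h3

/-- Periodicity: `DL_prod` (`P0.lean`) and the casts of `y + vt ω ..` to `ZMod p.1`. -/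
theorem KB5_per {k : ℕ} (p : Ch) : Pe p.1 (cp (k := k) p) := by
  intro y y' h h' hy hh
  rw [kb5_eq, kb5_eq]
  have e1 : ((y : ℤ) : ZMod p.1) = ((y' : ℤ) : ZMod p.1) := by
    rw [← sub_eq_zero, ← Int.cast_sub]
    exact (ZMod.intCast_zmod_eq_zero_iff_dvd _ _).2 hy
  have e2 : (fun i => ((lam k i : ℤ) : ZMod p.1) * ((h i : ℤ) : ZMod p.1)) =
      fun i => ((lam k i : ℤ) : ZMod p.1) * ((h' i : ℤ) : ZMod p.1) := by
    funext i
    congr 1
    rw [← sub_eq_zero, ← Int.cast_sub]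
    exact (ZMod.intCast_zmod_eq_zero_iff_dvd _ _).2 (hh i)
  rw [e1, e2]


/-- Proof. `r = p.1`, `C`, `c` from `UCH_all k`. For integers `y`, `h`: by `DL_prod`, `cp p y h = conj (DL (List.ofFn fun i => ((lam k i : ℤ) : ZMod r) * h i) χ y)` with
the casts of `y` and `h i` to `ZMod r`. The casts are bijections from `Ico 0 r` to `ZMod r` (and coordinatewise), so
`r^(k+1) Av k r (cp p) = ∑_{h : Fin k → ZMod r} ‖∑_{y : ZMod r} DL (List.ofFn fun i => lam i * h i) χ y‖`. The map `h ↦ (lam i * h i)_i` has fibres with at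
most `∏ i, lam k i ≤ k^k` elements (`H9U.L0` has fibres of a multiplication; or: `{x : ZMod r | a x = b}` has at most `|a|` elements for an integer
`a ≠ 0`), so this is at most `k^k ∑_{t} ‖∑_y DL (List.ofFn t) χ y‖ ≤ k^k C r^(k+1-c)`. -/
theorem KB5_chi (k : ℕ) (hk : 1 ≤ k) : ∃ C e : ℝ, 0 < C ∧ 0 < e ∧ e ≤ 1 ∧ ∀ p : Ch, 1 ≤ p.1 → p.2.IsPrimitive →
    Av k p.1 (cp p) ≤ C * (p.1 : ℝ) ^ (-e) := by
  obtain ⟨C, c, hC, hc, hc1, H⟩ := UCH_all k hk
  have hk0 : (0 : ℝ) < (k : ℝ) ^ k := by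
    have : (0 : ℝ) < k := by exact_mod_cast hk
    positivity
  refine ⟨(k : ℝ) ^ k * C, c, mul_pos hk0 hC, hc, hc1, ?_⟩
  rintro ⟨r, χ⟩ hr hχ
  have hr' : 1 ≤ r := hr
  have hne : NeZero r := ⟨by omega⟩
  have hr0 : (0 : ℝ) < r := by exact_mod_cast hr'
  show Av k r (cp ⟨r, χ⟩) ≤ (k : ℝ) ^ k * C * (r : ℝ) ^ (-c)
  unfold Av
  let F : (Fin k → ZMod r) → ℝ := fun t => ‖∑ z : ZMod r, DL (List.ofFn t) (fun z => χ z) z‖
  have hF : ∀ t, 0 ≤ F t := fun t => norm_nonneg _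
  have h1 : ∀ h : Fin k → ℤ, ‖∑ y ∈ Ico (0 : ℤ) r, cp ⟨r, χ⟩ y h‖ =
      F (fun i => ((lam k i : ℤ) : ZMod r) * ((h i : ℤ) : ZMod r)) := by
    intro h
    have e1 : ∑ y ∈ Ico (0 : ℤ) r, cp ⟨r, χ⟩ y h = (starRingEnd ℂ) (∑ z : ZMod r,
        DL (List.ofFn fun i => ((lam k i : ℤ) : ZMod r) * ((h i : ℤ) : ZMod r)) (fun z => χ z) z) := by
      rw [map_sum, ← kb5_sum r (fun z : ZMod r => (starRingEnd ℂ)
        (DL (List.ofFn fun i => ((lam k i : ℤ) : ZMod r) * ((h i : ℤ) : ZMod r)) (fun z => χ z) z))]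
      exact Finset.sum_congr rfl fun y _ => kb5_eq ⟨r, χ⟩ y h
    rw [e1, RCLike.norm_conj]
  have h2 : ∑ h ∈ Fintype.piFinset (fun _ : Fin k => Ico (0 : ℤ) r), ‖∑ y ∈ Ico (0 : ℤ) r, cp ⟨r, χ⟩ y h‖ ≤
      (k : ℝ) ^ k * (C * (r : ℝ) ^ ((k : ℝ) + 1 - c)) := by
    rw [Finset.sum_congr rfl fun h _ => h1 h,
      kb5_sum_pi k r (fun t : Fin k → ZMod r => F (fun i => ((lam k i : ℤ) : ZMod r) * t i))]
    refine (kb5_fib k r F hF).trans (mul_le_mul_of_nonneg_left ?_ hk0.le)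
    exact H r χ hχ
  rw [div_le_iff₀ (by positivity)]
  refine h2.trans (le_of_eq ?_)
  have e3 : (r : ℝ) ^ ((k : ℝ) + 1 - c) = (r : ℝ) ^ (-c) * (r : ℝ) ^ (k + 1) := by
    rw [← Real.rpow_natCast, ← Real.rpow_add hr0]
    congr 1
    push_cast
    ring
  rw [e3]
  ring

end Pool.Agent.HUK
end

-- from Lib.HUK.KB7
section

/-!
# Project HUK, chunk KB7 (M): one tuple of moduli
-/

open Finset

namespace Pool.Agent.HUK

open Pool.Agent.Lib.H68T (PC)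
open Pool.Agent.Lib.H18Q (gk KS)
open Pool.Agent.Lib.H59P (Ch gl)

theorem kb7_cj (n : ℕ) (z : ℂ) : ‖cj n z‖ = ‖z‖ := by
  unfold cj
  split_ifs
  · rfl
  · exact RCLike.norm_conj z

theorem kb7_sq {k : ℕ} {Q r : ℕ} {κ : (Fin k → Bool) → ℕ} (hκ : ∀ ω, κ ω ∈ KS Q r) : ∀ ω, Squarefree (κ ω) :=
  fun ω => (Pool.Agent.Lib.H18Q.CA_mem_KS.1 (hκ ω)).2.1

/-- Period and size. Proof. `KB6_fac`, `KB2_prod` (`KB5_per`, `KB4A_per`); `‖gk p (κ ω) m‖ ≤ Q` (`gk_bound` in `H18Q/CA.lean`, or `f3_gk` in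
`H59T/F3.lean`); `p.1 * nk κ ≤ Q * ∏ κ ω ≤ Q * Q^(2^k)`. -/
theorem KB7_per {k : ℕ} (Q : ℕ) (p : Ch) (hp : p ∈ PC Q) (κ : (Fin k → Bool) → ℕ) (hκ : ∀ ω, κ ω ∈ KS Q p.1) :
    Pe (p.1 * nk κ) (gt p κ) ∧ (∀ y h, ‖gt p κ y h‖ ≤ (Q : ℝ) ^ (2 ^ k)) ∧ p.1 * nk κ ≤ Q ^ (2 ^ k + 1) := by
  have hr1 : 1 ≤ p.1 := (Pool.Agent.Lib.H68T.mem_PC.1 hp).1
  have hrQ : p.1 ≤ Q := (Pool.Agent.Lib.H68T.mem_PC.1 hp).2.1
  obtain ⟨-, hn1, hn2, hn3, -, -⟩ := KB6_nk Q p.1 κ hκ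
  refine ⟨?_, ?_, ?_⟩
  · have h1 := (KB2_prod p.1 hr1 (Pk κ) (fun l hl => (hn3 l hl).1) (fun l hl => (hn3 l hl).2) (cp p) (KB5_per p)
      (fun l => lf l (univ.filter fun ω => l ∣ κ ω)) (fun l _ => KB4A_per l _)).1
    intro y y' h h' hy hh
    rw [KB6_fac p κ (kb7_sq hκ), KB6_fac p κ (kb7_sq hκ)]
    exact congrArg (fun z : ℂ => ((((p.1 : ℝ) / (Nat.totient p.1 : ℝ)) ^ (2 ^ k) : ℝ) : ℂ) * z) (h1 y y' h h' hy hh)
  · intro y h
    unfold gt
    rw [norm_prod]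
    refine (Finset.prod_le_prod (fun _ _ => norm_nonneg _) (g := fun _ => (Q : ℝ)) fun ω _ => ?_).trans ?_
    · rw [kb7_cj]
      exact Pool.Agent.Lib.H18Q.gk_bound Q p hp (κ ω) (hκ ω) _
    · rw [Finset.prod_const, Finset.card_univ, Fintype.card_fun, Fintype.card_bool, Fintype.card_fin]
  · have h1 : ∏ ω, κ ω ≤ Q ^ (2 ^ k) := by
      refine (Finset.prod_le_prod' (g := fun _ => Q) fun ω _ => ?_).trans ?_
      · exact (Pool.Agent.Lib.H18Q.CA_mem_KS.1 (hκ ω)).1.2.trans (Nat.div_le_self _ _)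
      · rw [Finset.prod_const, Finset.card_univ, Fintype.card_fun, Fintype.card_bool, Fintype.card_fin]
    rw [pow_succ']
    exact Nat.mul_le_mul hrQ (hn2.trans h1)

/-- Proof. `KB6_fac`, `KB1_smul`, `KB2_prod`: `Av = (r/φ(r))^(2^k) * Av k r (cp p) * ∏_{l ∈ Pk κ} Av k l (lf l ..)`. `KB5_chi`: `C1 r^(-e1)`; `KA11_tot` with
`ε = e1 / 2^(k+1)`: `(r/φ(r))^(2^k) ≤ C2^(2^k) r^(e1/2)`; `KB4_loc` (the filter is nonempty for `l ∈ Pk κ`): the product is at most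
`∏_{l ∈ Pk κ} (10 + k²)/l² ≤ 2^(b * card (Pk κ)) / (nk κ)²` for `2^b ≥ 10 + k²`, and `2^(card Pk κ) = (nk κ).divisors.card` (squarefree, `KB6_nk`:
`Nat.Squarefree.cardDivisors..`, e.g. `Nat.card_divisors` or `ArithmeticFunction.card..`; only `≤` is needed: the products of the subsets of
`Pk κ` are different divisors, or `Finset.card_powerset` and `Nat.divisors_filter_squarefree`). `e = e1/2`. -/
theorem KB7_av (k : ℕ) (hk : 1 ≤ k) : ∃ (b : ℕ) (C e : ℝ), 0 < C ∧ 0 < e ∧ e ≤ 1 ∧ ∀ (Q : ℕ) (p : Ch), p ∈ PC Q →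
    ∀ κ : (Fin k → Bool) → ℕ, (∀ ω, κ ω ∈ KS Q p.1) →
    Av k (p.1 * nk κ) (gt p κ) ≤ C * (p.1 : ℝ) ^ (-e) * (((nk κ).divisors.card : ℝ) ^ b / (nk κ : ℝ) ^ 2) := by
  obtain ⟨C1, e1, hC1, he1, he1', hchi⟩ := KB5_chi k hk
  have hk2 : (0 : ℝ) < (2 : ℝ) ^ k := by positivity
  obtain ⟨C2, hC2, htot⟩ := KA11_tot (e1 / (2 * 2 ^ k)) (by positivity)
  refine ⟨10 + k ^ 2, C1 * C2 ^ (2 ^ k), e1 / 2, by positivity, by positivity, by linarith, ?_⟩
  intro Q p hp κ hκ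
  obtain ⟨hr1, -, hprim⟩ := Pool.Agent.Lib.H68T.mem_PC.1 hp
  obtain ⟨-, hn1, -, hn3, hsq, hpf⟩ := KB6_nk Q p.1 κ hκ
  have hr0 : (0 : ℝ) < (p.1 : ℝ) := by exact_mod_cast hr1
  have hφ0 : (0 : ℝ) < (Nat.totient p.1 : ℝ) := by exact_mod_cast Nat.totient_pos.2 hr1
  -- the average
  have e1' : Av k (p.1 * nk κ) (gt p κ) = ((p.1 : ℝ) / (Nat.totient p.1 : ℝ)) ^ (2 ^ k) *
      (Av k p.1 (cp p) * ∏ l ∈ Pk κ, Av k l (lf l (univ.filter fun ω => l ∣ κ ω))) := by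
    have h1 : gt p κ = fun y h => ((((p.1 : ℝ) / (Nat.totient p.1 : ℝ)) ^ (2 ^ k) : ℝ) : ℂ) *
        (cp p y h * ∏ l ∈ Pk κ, lf l (univ.filter fun ω => l ∣ κ ω) y h) := by
      funext y h
      exact KB6_fac p κ (kb7_sq hκ) y h
    have h2 := (KB2_prod p.1 hr1 (Pk κ) (fun l hl => (hn3 l hl).1) (fun l hl => (hn3 l hl).2) (cp (k := k) p)
      (KB5_per p) (fun l => lf l (univ.filter fun ω => l ∣ κ ω)) (fun l _ => KB4A_per l _)).2
    rw [h1, KB1_smul, nk, h2, Complex.norm_real, Real.norm_of_nonneg (by positivity)]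
  -- the totient
  have h3 : ((p.1 : ℝ) / (Nat.totient p.1 : ℝ)) ^ (2 ^ k) ≤ C2 ^ (2 ^ k) * (p.1 : ℝ) ^ (e1 / 2) := by
    have h4 := pow_le_pow_left₀ (by positivity) (htot p.1 hr1) (2 ^ k)
    refine h4.trans (le_of_eq ?_)
    rw [mul_pow, ← Real.rpow_natCast ((p.1 : ℝ) ^ (e1 / (2 * 2 ^ k))), ← Real.rpow_mul hr0.le]
    congr 2
    push_cast
    field_simp
  -- the local factors
  have h5 : ∏ l ∈ Pk κ, Av k l (lf l (univ.filter fun ω => l ∣ κ ω)) ≤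
      ((nk κ).divisors.card : ℝ) ^ (10 + k ^ 2) / (nk κ : ℝ) ^ 2 := by
    have h6 : ∏ l ∈ Pk κ, Av k l (lf l (univ.filter fun ω => l ∣ κ ω)) ≤
        ∏ l ∈ Pk κ, ((10 + (k : ℝ) ^ 2) / (l : ℝ) ^ 2) := by
      refine Finset.prod_le_prod (fun _ _ => KB1_nn _ _ _) fun l hl => ?_
      refine KB4_loc k l (hn3 l hl).1 _ ?_
      obtain ⟨ω, -, hω⟩ := Finset.mem_biUnion.1 hl
      exact ⟨ω, Finset.mem_filter.2 ⟨Finset.mem_univ _, Nat.dvd_of_mem_primeFactors hω⟩⟩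
    refine h6.trans ?_
    rw [Finset.prod_div_distrib, Finset.prod_const, Finset.prod_pow]
    have h7 : (∏ l ∈ Pk κ, (l : ℝ)) = (nk κ : ℝ) := by
      rw [nk, Nat.cast_prod]
    rw [h7]
    refine div_le_div_of_nonneg_right ?_ (by positivity)
    have h8 : (nk κ).divisors.card = 2 ^ (Pk κ).card := by
      rw [Nat.card_divisors (by omega), hpf, ← Finset.prod_const]
      refine Finset.prod_congr rfl fun l hl => ?_
      have h9 : (nk κ).factorization l ≤ 1 := Squarefree.natFactorization_le_one l hsq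
      have h10 : 1 ≤ (nk κ).factorization l := by
        rw [← hpf] at hl
        have := Nat.support_factorization (nk κ)
        exact Nat.one_le_iff_ne_zero.2 (Finsupp.mem_support_iff.1 (by rw [this]; exact hl))
      omega
    rw [h8]
    push_cast
    rw [← pow_mul, mul_comm (Pk κ).card, pow_mul]
    refine pow_le_pow_left₀ (by positivity) ?_ _
    have h11 : (10 + k ^ 2 : ℕ) ≤ 2 ^ (10 + k ^ 2) := Nat.lt_two_pow_self.le
    exact_mod_cast h11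
  have h12 := hchi p hr1 hprim
  have h13 : 0 ≤ Av k p.1 (cp (k := k) p) := KB1_nn _ _ _
  have h14 : 0 ≤ ∏ l ∈ Pk κ, Av k l (lf l (univ.filter fun ω => l ∣ κ ω)) :=
    Finset.prod_nonneg fun _ _ => KB1_nn _ _ _
  rw [e1', ← mul_assoc]
  refine mul_le_mul ?_ h5 h14 (by positivity)
  refine (mul_le_mul h3 h12 h13 (by positivity)).trans (le_of_eq ?_)
  have h15 : (p.1 : ℝ) ^ (-(e1 / 2)) = (p.1 : ℝ) ^ (e1 / 2) * (p.1 : ℝ) ^ (-e1) := by
    rw [← Real.rpow_add hr0]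
    congr 1
    ring
  rw [h15]
  ring

end Pool.Agent.HUK
end

-- from Lib.HUK.KB8
section

/-!
# Project HUK, chunk KB8 (M): the sum over the tuples of moduli
-/

open Finset

namespace Pool.Agent.HUK

open Pool.Agent.Lib.H68T (PC)
open Pool.Agent.Lib.H18Q (gk KS)
open Pool.Agent.Lib.H59P (Ch gl)

theorem kb8_num (x y z e ρ D : ℝ) (hx : 1 ≤ x) (hy : 1 ≤ y) (hz : 1 ≤ z) (hzx : z ≤ x * y) (hρ : 0 ≤ ρ) (hρe : ρ ≤ e)
    (hρ2 : ρ ≤ 1 / 2) (hD : 0 ≤ D) : x ^ (-e) * (D / y ^ 2) ≤ z ^ (-ρ) * (D * y ^ (-(3 / 2 : ℝ))) := by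
  have hx0 : 0 < x := by linarith
  have hy0 : 0 < y := by linarith
  have hz0 : 0 < z := by linarith
  have h1 : z ^ ρ ≤ x ^ e * y ^ (1 / 2 : ℝ) := by
    calc z ^ ρ ≤ (x * y) ^ ρ := Real.rpow_le_rpow hz0.le hzx hρ
      _ = x ^ ρ * y ^ ρ := Real.mul_rpow hx0.le hy0.le
      _ ≤ x ^ e * y ^ (1 / 2 : ℝ) := mul_le_mul (Real.rpow_le_rpow_of_exponent_le hx hρe)
          (Real.rpow_le_rpow_of_exponent_le hy hρ2) (by positivity) (by positivity)
  have hy3 : y ^ (-(3 / 2 : ℝ)) = y ^ (1 / 2 : ℝ) / y ^ 2 := by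
    rw [show (-(3 / 2) : ℝ) = 1 / 2 - 2 by norm_num, Real.rpow_sub hy0, Real.rpow_two]
  rw [hy3, Real.rpow_neg hx0.le, Real.rpow_neg hz0.le]
  have hxe : 0 < x ^ e := by positivity
  have hzr : 0 < z ^ ρ := by positivity
  have h2 : (x ^ e)⁻¹ ≤ y ^ (1 / 2 : ℝ) * (z ^ ρ)⁻¹ := by
    rw [← div_eq_mul_inv, inv_eq_one_div, div_le_div_iff₀ hxe hzr]
    linarith
  have h3 : 0 ≤ D / y ^ 2 := by positivity
  calc (x ^ e)⁻¹ * (D / y ^ 2) ≤ (y ^ (1 / 2 : ℝ) * (z ^ ρ)⁻¹) * (D / y ^ 2) := mul_le_mul_of_nonneg_right h2 h3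
    _ = (z ^ ρ)⁻¹ * (D * (y ^ (1 / 2 : ℝ) / y ^ 2)) := by ring

theorem kb8_fib {k : ℕ} (Q r : ℕ) (T : Finset ((Fin k → Bool) → ℕ)) (hT : ∀ κ ∈ T, ∀ ω, κ ω ∈ KS Q r) (n : ℕ) :
    ((T.filter fun κ => nk κ = n).card : ℝ) ≤ (n.divisors.card : ℝ) ^ (2 ^ k) := by
  have hsub : (T.filter fun κ => nk κ = n) ⊆ Fintype.piFinset fun _ : Fin k → Bool => n.divisors := by
    intro κ hκ
    rw [mem_filter] at hκ
    rw [Fintype.mem_piFinset]
    intro ω
    have h := KB6_nk Q r κ (hT κ hκ.1)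
    rw [hκ.2] at h
    rw [Nat.mem_divisors]
    exact ⟨h.1 ω, by have := h.2.1; omega⟩
  have h1 := card_le_card hsub
  rw [Fintype.card_piFinset, prod_const, card_univ, Fintype.card_fun, Fintype.card_bool, Fintype.card_fin] at h1
  exact_mod_cast h1

/-- Proof. The map `κ ↦ nk κ` sends the set to `Icc 1 (Q^(2^k))` (`KB6_nk`, `κ ω ≤ Q`), and every fibre over `n` is contained in
`Fintype.piFinset fun _ => n.divisors`, which has `d(n)^(2^k)` elements. So the sum is at most `∑_{n ∈ Icc 1 N} d(n)^(2^k + b) n^(-3/2)`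
(`Finset.sum_fiberwise_of_maps_to`), `divisor_bound` (`H21AP/DivisorBound.lean`) with `ε = 1/(4 (2^k + b + 1))` gives `d(n)^(2^k + b) ≤ C n^(1/4)`, and
`∑_n n^(-5/4)` converges (`Real.summable_nat_rpow_inv` / `Real.summable_one_div_nat_rpow`, `Summable.sum_le_tsum`). -/
theorem KB8_series (k b : ℕ) : ∃ C : ℝ, 0 < C ∧ ∀ (Q r : ℕ) (T : Finset ((Fin k → Bool) → ℕ)),
    (∀ κ ∈ T, ∀ ω, κ ω ∈ KS Q r) →
    ∑ κ ∈ T, ((nk κ).divisors.card : ℝ) ^ b * (nk κ : ℝ) ^ (-(3 / 2 : ℝ)) ≤ C := by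
  set m := 2 ^ k + b with hm
  have hm1 : 1 ≤ m := by
    have := Nat.one_le_two_pow (n := k)
    omega
  have hm0 : (0 : ℝ) < m := by exact_mod_cast hm1
  obtain ⟨C0, hC0, hd⟩ := Pool.Agent.Lib.H21AP.divisor_bound (ε := 1 / (4 * m)) (by positivity)
  have hsum : Summable fun n : ℕ => C0 ^ m * (n : ℝ) ^ (-(5 / 4 : ℝ)) :=
    (Real.summable_nat_rpow.2 (by norm_num)).mul_left _
  have hnn : ∀ n : ℕ, 0 ≤ C0 ^ m * (n : ℝ) ^ (-(5 / 4 : ℝ)) := fun n => by positivity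
  refine ⟨(∑' n : ℕ, C0 ^ m * (n : ℝ) ^ (-(5 / 4 : ℝ))) + 1, ?_, ?_⟩
  · have h0 : 0 ≤ ∑' n : ℕ, C0 ^ m * (n : ℝ) ^ (-(5 / 4 : ℝ)) := tsum_nonneg hnn
    linarith
  intro Q r T hT
  have h1 : ∑ κ ∈ T, ((nk κ).divisors.card : ℝ) ^ b * (nk κ : ℝ) ^ (-(3 / 2 : ℝ)) =
      ∑ n ∈ T.image nk, ∑ κ ∈ T with nk κ = n, ((nk κ).divisors.card : ℝ) ^ b * (nk κ : ℝ) ^ (-(3 / 2 : ℝ)) := by
    rw [sum_fiberwise_of_maps_to]
    intro κ hκ
    exact mem_image_of_mem _ hκ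
  rw [h1]
  have h2 : ∀ n ∈ T.image nk, ∑ κ ∈ T with nk κ = n, ((nk κ).divisors.card : ℝ) ^ b * (nk κ : ℝ) ^ (-(3 / 2 : ℝ)) ≤
      C0 ^ m * (n : ℝ) ^ (-(5 / 4 : ℝ)) := by
    intro n hn
    rw [mem_image] at hn
    obtain ⟨κ0, hκ0, hn0⟩ := hn
    have hn1 : 1 ≤ n := by
      rw [← hn0]
      exact (KB6_nk Q r κ0 (hT κ0 hκ0)).2.1
    have hn1' : (1 : ℝ) ≤ n := by exact_mod_cast hn1
    have hn0' : (0 : ℝ) < n := by linarith
    have h3 : ∑ κ ∈ T with nk κ = n, ((nk κ).divisors.card : ℝ) ^ b * (nk κ : ℝ) ^ (-(3 / 2 : ℝ)) =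
        ((T.filter fun κ => nk κ = n).card : ℝ) * ((n.divisors.card : ℝ) ^ b * (n : ℝ) ^ (-(3 / 2 : ℝ))) := by
      rw [← nsmul_eq_mul, ← sum_const]
      refine sum_congr rfl fun κ hκ => ?_
      rw [mem_filter] at hκ
      rw [hκ.2]
    rw [h3]
    have h4 := kb8_fib Q r T hT n
    have h5 : (n.divisors.card : ℝ) ^ m ≤ C0 ^ m * (n : ℝ) ^ (1 / 4 : ℝ) := by
      calc (n.divisors.card : ℝ) ^ m ≤ (C0 * (n : ℝ) ^ (1 / (4 * m) : ℝ)) ^ m :=
            pow_le_pow_left₀ (by positivity) (hd n hn1) m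
        _ = C0 ^ m * (n : ℝ) ^ (1 / 4 : ℝ) := by
            rw [mul_pow, ← Real.rpow_mul_natCast hn0'.le]
            congr 2
            field_simp
    calc ((T.filter fun κ => nk κ = n).card : ℝ) * ((n.divisors.card : ℝ) ^ b * (n : ℝ) ^ (-(3 / 2 : ℝ))) ≤
        (n.divisors.card : ℝ) ^ (2 ^ k) * ((n.divisors.card : ℝ) ^ b * (n : ℝ) ^ (-(3 / 2 : ℝ))) :=
          mul_le_mul_of_nonneg_right h4 (by positivity)
      _ = (n.divisors.card : ℝ) ^ m * (n : ℝ) ^ (-(3 / 2 : ℝ)) := by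
          rw [hm, pow_add]
          ring
      _ ≤ C0 ^ m * (n : ℝ) ^ (1 / 4 : ℝ) * (n : ℝ) ^ (-(3 / 2 : ℝ)) := mul_le_mul_of_nonneg_right h5 (by positivity)
      _ = C0 ^ m * (n : ℝ) ^ (-(5 / 4 : ℝ)) := by
          rw [mul_assoc, ← Real.rpow_add hn0']
          norm_num
  refine le_trans (sum_le_sum h2) ?_
  refine le_trans (hsum.sum_le_tsum (T.image nk) fun n _ => hnn n) ?_
  linarith

/-- Proof. `b`, `C1`, `e` from `KB7_av`, `ρ = min e (1/2)`. For `κ ∈ TK k Q Q' p`: with `ω0 = fun _ => false`: `Q' < r κ(ω0) ≤ r n`, `n = nk κ`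
(`KB6_nk`), so `1 ≤ (r n / Q')^ρ` and `Av ≤ C1 r^(-e) d(n)^b n^(-2) (r n)^ρ Q'^(-ρ) ≤ C1 Q'^(-ρ) d(n)^b n^(-3/2)` (`r^(ρ-e) ≤ 1`, `n^(ρ-2) ≤ n^(-3/2)`). Sum
with `KB8_series`. -/
theorem KB8_sum (k : ℕ) (hk : 1 ≤ k) : ∃ C ρ : ℝ, 0 < C ∧ 0 < ρ ∧ ρ ≤ 1 / 2 ∧ ∀ (Q Q' : ℕ), 1 ≤ Q' → ∀ p ∈ PC Q,
    ∑ κ ∈ TK k Q Q' p, Av k (p.1 * nk κ) (gt p κ) ≤ C * (Q' : ℝ) ^ (-ρ) := by
  obtain ⟨b, C1, e, hC1, he, _, hav⟩ := KB7_av k hk
  obtain ⟨C2, hC2, hser⟩ := KB8_series k b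
  refine ⟨C1 * C2, min e (1 / 2), by positivity, lt_min he (by norm_num), min_le_right _ _, ?_⟩
  intro Q Q' hQ' p hp
  have hT : ∀ κ ∈ TK k Q Q' p, ∀ ω, κ ω ∈ KS Q p.1 ∧ Q' < p.1 * κ ω := by
    intro κ hκ ω
    unfold TK at hκ
    rw [Fintype.mem_piFinset] at hκ
    exact mem_filter.1 (hκ ω)
  have hp1 : 1 ≤ p.1 := (Pool.Agent.Lib.H68T.mem_PC.1 hp).1
  have hx : (1 : ℝ) ≤ (p.1 : ℝ) := by exact_mod_cast hp1
  have hz : (1 : ℝ) ≤ (Q' : ℝ) := by exact_mod_cast hQ'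
  have h1 : ∀ κ ∈ TK k Q Q' p, Av k (p.1 * nk κ) (gt p κ) ≤ C1 * (Q' : ℝ) ^ (-(min e (1 / 2))) *
      (((nk κ).divisors.card : ℝ) ^ b * (nk κ : ℝ) ^ (-(3 / 2 : ℝ))) := by
    intro κ hκ
    have h2 := hav Q p hp κ fun ω => (hT κ hκ ω).1
    have h3 := KB6_nk Q p.1 κ fun ω => (hT κ hκ ω).1
    have hy : (1 : ℝ) ≤ (nk κ : ℝ) := by exact_mod_cast h3.2.1
    have hzx : (Q' : ℝ) ≤ (p.1 : ℝ) * (nk κ : ℝ) := by
      have h4 := (hT κ hκ fun _ => false).2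
      have h5 : κ (fun _ => false) ≤ nk κ := Nat.le_of_dvd (by have := h3.2.1; omega) (h3.1 _)
      have h6 : Q' ≤ p.1 * nk κ := le_trans h4.le (Nat.mul_le_mul_left _ h5)
      exact_mod_cast h6
    have h7 := kb8_num (p.1 : ℝ) (nk κ : ℝ) (Q' : ℝ) e (min e (1 / 2)) (((nk κ).divisors.card : ℝ) ^ b) hx hy hz hzx
      (le_min he.le (by norm_num)) (min_le_left _ _) (min_le_right _ _) (by positivity)
    calc Av k (p.1 * nk κ) (gt p κ) ≤ C1 * (p.1 : ℝ) ^ (-e) * (((nk κ).divisors.card : ℝ) ^ b / (nk κ : ℝ) ^ 2) := h2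
      _ = C1 * ((p.1 : ℝ) ^ (-e) * (((nk κ).divisors.card : ℝ) ^ b / (nk κ : ℝ) ^ 2)) := by ring
      _ ≤ C1 * ((Q' : ℝ) ^ (-(min e (1 / 2))) * (((nk κ).divisors.card : ℝ) ^ b * (nk κ : ℝ) ^ (-(3 / 2 : ℝ)))) :=
          mul_le_mul_of_nonneg_left h7 hC1.le
      _ = _ := by ring
  refine le_trans (sum_le_sum h1) ?_
  rw [← mul_sum]
  have h8 := hser Q p.1 (TK k Q Q' p) fun κ hκ ω => (hT κ hκ ω).1
  calc C1 * (Q' : ℝ) ^ (-(min e (1 / 2))) *
      ∑ κ ∈ TK k Q Q' p, (((nk κ).divisors.card : ℝ) ^ b * (nk κ : ℝ) ^ (-(3 / 2 : ℝ))) ≤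
      C1 * (Q' : ℝ) ^ (-(min e (1 / 2))) * C2 := mul_le_mul_of_nonneg_left h8 (by positivity)
    _ = C1 * C2 * (Q' : ℝ) ^ (-(min e (1 / 2))) := by ring

end Pool.Agent.HUK
end

-- from Lib.HUK.KB9
section

/-!
# Project HUK, chunk KB9 (M): small cubes for the components of large modulus
-/

open Finset

namespace Pool.Agent.HUK

open Pool.Agent.Lib.H68T (PC)
open Pool.Agent.Lib.H18Q (gk KS)
open Pool.Agent.Lib.H59P (Ch gl)
open Pool.Agent.Lib.H59T (Vl)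

theorem kb9_cj_sum {ι : Type*} (n : ℕ) (T : Finset ι) (g : ι → ℂ) : cj n (∑ i ∈ T, g i) = ∑ i ∈ T, cj n (g i) := by
  unfold cj
  split_ifs
  · rfl
  · exact map_sum _ _ _

theorem kb9_card (k Q Q' : ℕ) (p : Ch) : (TK k Q Q' p).card ≤ Q ^ 2 ^ k := by
  unfold TK
  rw [Fintype.card_piFinset, prod_const, card_univ, Fintype.card_fun, Fintype.card_bool, Fintype.card_fin]
  refine Nat.pow_le_pow_left ?_ _
  refine le_trans (card_filter_le _ _) ?_
  unfold KS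
  refine le_trans (card_filter_le _ _) ?_
  rw [Nat.card_Icc, Nat.add_sub_cancel]
  exact Nat.div_le_self _ _

/-- Proof. `DL_prod` (`P0.lean`), definition of `Vl`, `cj n` is additive, `Finset.prod_univ_sum`. -/
theorem KB9_expand (k Q Q' : ℕ) (p : Ch) (y : ℤ) (h : Fin k → ℤ) :
    DL (List.ofFn fun i => lam k i * h i) (Vl Q Q' p) y = ∑ κ ∈ TK k Q Q' p, gt p κ y h := by
  rw [DL_prod]
  have h1 : ∀ ω : Fin k → Bool, cj (sg ω) (Vl Q Q' p (y + vt ω (fun i => lam k i * h i))) =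
      ∑ κ ∈ (KS Q p.1).filter (fun κ => Q' < p.1 * κ), cj (sg ω) (gk p κ (y + vl ω h)) := by
    intro ω
    unfold Vl
    rw [kb9_cj_sum]
    rfl
  rw [prod_congr rfl fun ω _ => h1 ω, prod_univ_sum]
  rfl

/-- Proof. `C1`, `ρ` from `KB8_sum`. `KB9_expand`, triangle inequality, `KB3_long` for each `κ` with `M = p.1 * nk κ ≤ Q^(2^k+1) ≤ H`, `S = Q^(2^k)` (`KB7_per`), at most
`Q^(2^k)` tuples: total at most `4^k H^(k+1) C1 Q'^(-ρ) + Q^(2^k) (2 H)^k Q^(2^k+1) Q^(2^k)`, and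
`Q^(3 * 2^k + 1) ≤ H / Q ≤ H Q'^(-ρ)` (`Q' ≤ Q`, `ρ ≤ 1`). `C = 4^k C1 + 2^k`. -/
theorem KB9_cube (k : ℕ) (hk : 1 ≤ k) : ∃ C ρ : ℝ, 0 < C ∧ 0 < ρ ∧ ρ ≤ 1 / 2 ∧ ∀ (Q Q' H : ℕ), 1 ≤ Q' → Q' ≤ Q →
    Q ^ (3 * 2 ^ k + 2) ≤ H → ∀ p ∈ PC Q, ∀ n : ℤ,
    ∑ j ∈ bxS k H, ‖∑ l ∈ range H, DL (List.ofFn fun i => lam k i * j i) (Vl Q Q' p) (n + l)‖ ≤
      C * (H : ℝ) ^ (k + 1) * (Q' : ℝ) ^ (-ρ) := by
  obtain ⟨C1, ρ, hC1, hρ, hρ2, hsum⟩ := KB8_sum k hk
  refine ⟨4 ^ k * C1 + 2 ^ k, ρ, by positivity, hρ, hρ2, ?_⟩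
  intro Q Q' H hQ' hQQ hH p hp n
  have hQ1 : 1 ≤ Q := le_trans hQ' hQQ
  have hp1 : 1 ≤ p.1 := (Pool.Agent.Lib.H68T.mem_PC.1 hp).1
  have hT : ∀ κ ∈ TK k Q Q' p, ∀ ω, κ ω ∈ KS Q p.1 := by
    intro κ hκ ω
    unfold TK at hκ
    rw [Fintype.mem_piFinset] at hκ
    exact (mem_filter.1 (hκ ω)).1
  have h1 : ∑ j ∈ bxS k H, ‖∑ l ∈ range H, DL (List.ofFn fun i => lam k i * j i) (Vl Q Q' p) (n + l)‖ ≤
      ∑ κ ∈ TK k Q Q' p, ∑ j ∈ bxS k H, ‖∑ l ∈ range H, gt p κ (n + l) j‖ := by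
    rw [sum_comm]
    refine sum_le_sum fun j _ => ?_
    have h2 : ∑ l ∈ range H, DL (List.ofFn fun i => lam k i * j i) (Vl Q Q' p) (n + l) =
        ∑ κ ∈ TK k Q Q' p, ∑ l ∈ range H, gt p κ (n + l) j := by
      rw [sum_comm]
      exact sum_congr rfl fun l _ => KB9_expand k Q Q' p (n + l) j
    rw [h2]
    exact norm_sum_le _ _
  have hone : ∀ κ ∈ TK k Q Q' p, ∑ j ∈ bxS k H, ‖∑ l ∈ range H, gt p κ (n + l) j‖ ≤
      4 ^ k * (H : ℝ) ^ (k + 1) * Av k (p.1 * nk κ) (gt p κ) + (2 * H) ^ k * ((Q : ℝ) ^ (2 ^ k + 1)) * (Q : ℝ) ^ (2 ^ k) := by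
    intro κ hκ
    have h3 := KB7_per Q p hp κ (hT κ hκ)
    have h4 := KB6_nk Q p.1 κ (hT κ hκ)
    have h5 : 1 ≤ p.1 * nk κ := Nat.mul_pos hp1 h4.2.1
    have h6 : p.1 * nk κ ≤ H := by
      refine le_trans h3.2.2 (le_trans (Nat.pow_le_pow_right hQ1 ?_) hH)
      omega
    have h7 := KB3_long (p.1 * nk κ) H h5 h6 (gt p κ) h3.1 ((Q : ℝ) ^ (2 ^ k)) h3.2.1 n
    have h8 : ((p.1 * nk κ : ℕ) : ℝ) ≤ (Q : ℝ) ^ (2 ^ k + 1) := by exact_mod_cast h3.2.2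
    have h9 : (2 * (H : ℝ)) ^ k * ((p.1 * nk κ : ℕ) : ℝ) * (Q : ℝ) ^ (2 ^ k) ≤
        (2 * H) ^ k * ((Q : ℝ) ^ (2 ^ k + 1)) * (Q : ℝ) ^ (2 ^ k) :=
      mul_le_mul_of_nonneg_right (mul_le_mul_of_nonneg_left h8 (by positivity)) (by positivity)
    linarith
  have h10 : ∑ κ ∈ TK k Q Q' p, ∑ j ∈ bxS k H, ‖∑ l ∈ range H, gt p κ (n + l) j‖ ≤
      4 ^ k * (H : ℝ) ^ (k + 1) * (C1 * (Q' : ℝ) ^ (-ρ)) +
        (Q : ℝ) ^ (2 ^ k) * ((2 * H) ^ k * ((Q : ℝ) ^ (2 ^ k + 1)) * (Q : ℝ) ^ (2 ^ k)) := by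
    refine le_trans (sum_le_sum hone) ?_
    rw [sum_add_distrib, ← mul_sum, sum_const, nsmul_eq_mul]
    refine add_le_add ?_ ?_
    · exact mul_le_mul_of_nonneg_left (hsum Q Q' hQ' p hp) (by positivity)
    · refine mul_le_mul_of_nonneg_right ?_ (by positivity)
      exact_mod_cast kb9_card k Q Q' p
  have hz : (1 : ℝ) ≤ (Q' : ℝ) := by exact_mod_cast hQ'
  have hz0 : (0 : ℝ) < (Q' : ℝ) := by linarith
  have hQR : (0 : ℝ) < (Q : ℝ) := by exact_mod_cast hQ1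
  have h11 : (Q : ℝ) ^ (3 * 2 ^ k + 1) ≤ H * (Q' : ℝ) ^ (-ρ) := by
    have h12 : (Q' : ℝ) ^ ρ ≤ Q := by
      calc (Q' : ℝ) ^ ρ ≤ (Q' : ℝ) ^ (1 : ℝ) := Real.rpow_le_rpow_of_exponent_le hz (by linarith)
        _ = Q' := Real.rpow_one _
        _ ≤ Q := by exact_mod_cast hQQ
    have h13 : (Q : ℝ) ^ (3 * 2 ^ k + 1) * (Q' : ℝ) ^ ρ ≤ H := by
      calc (Q : ℝ) ^ (3 * 2 ^ k + 1) * (Q' : ℝ) ^ ρ ≤ (Q : ℝ) ^ (3 * 2 ^ k + 1) * Q :=
            mul_le_mul_of_nonneg_left h12 (by positivity)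
        _ = (Q : ℝ) ^ (3 * 2 ^ k + 2) := by rw [← pow_succ]
        _ ≤ H := by exact_mod_cast hH
    rw [Real.rpow_neg hz0.le, ← div_eq_mul_inv, le_div_iff₀ (by positivity)]
    exact h13
  have h14 : (Q : ℝ) ^ (2 ^ k) * ((2 * H) ^ k * ((Q : ℝ) ^ (2 ^ k + 1)) * (Q : ℝ) ^ (2 ^ k)) =
      2 ^ k * (H : ℝ) ^ k * (Q : ℝ) ^ (3 * 2 ^ k + 1) := by
    rw [mul_pow]
    ring
  rw [h14] at h10
  have h15 : 2 ^ k * (H : ℝ) ^ k * (Q : ℝ) ^ (3 * 2 ^ k + 1) ≤ 2 ^ k * (H : ℝ) ^ k * (H * (Q' : ℝ) ^ (-ρ)) :=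
    mul_le_mul_of_nonneg_left h11 (by positivity)
  calc ∑ j ∈ bxS k H, ‖∑ l ∈ range H, DL (List.ofFn fun i => lam k i * j i) (Vl Q Q' p) (n + l)‖ ≤ _ := h1
    _ ≤ 4 ^ k * (H : ℝ) ^ (k + 1) * (C1 * (Q' : ℝ) ^ (-ρ)) + 2 ^ k * (H : ℝ) ^ k * (Q : ℝ) ^ (3 * 2 ^ k + 1) := h10
    _ ≤ 4 ^ k * (H : ℝ) ^ (k + 1) * (C1 * (Q' : ℝ) ^ (-ρ)) + 2 ^ k * (H : ℝ) ^ k * (H * (Q' : ℝ) ^ (-ρ)) := by linarith
    _ = (4 ^ k * C1 + 2 ^ k) * (H : ℝ) ^ (k + 1) * (Q' : ℝ) ^ (-ρ) := by ring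

end Pool.Agent.HUK
end

-- from Lib.HUK.KB12
section

/-!
# Project HUK, chunk KB12 (M): one character
-/

open Finset

namespace Pool.Agent.HUK

open Pool.Agent.Lib.H68T (PC)
open Pool.Agent.Lib.H59P (Ch)
open Pool.Agent.Lib.H59T (Vl)
open Pool.Agent.H9U (JJ)

/-- Proof. `C1`, `ρ` from `KB9_cube`, `C2` from `KB10_frozen`; `H = Q^(3 * 2^k + 2)`, `A = 3 * 2^k + 2 + 2^(k+1) + 8`. `F m = β m * Vl Q Q' p m` on `JJ X = Ico (2X) (2X + X/4)`
(contained in `[X, 4X]`), `0` else. `KB10_frozen` with `u = 2X`, `v = 2X + X/4`, `S = Q²` (`UF_sup` in `H59T/UF.lean`), `δ = Q^6 / X`: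
`∑_j ‖∑_n DL .. F n‖ ≤ (X/4) C1 H^k Q'^(-ρ) + C2 H^k Q^(2^(k+1)) (X H Q^6 / X + H) ≤ H^k X (C1 Q'^(-ρ) + 2 C2 Q^(2^(k+1) + 6) H / X)`, and
`Q^(2^(k+1)+6) H / X ≤ 1/Q ≤ Q'^(-ρ)` as `Q^A ≤ X`. `KB11_elim` (`H ≤ Q^A ≤ X`), root of order `2^k`: `ρ' = ρ / 2^k`,
`C = 2 (k+1) (4B+1) (C1 + 2 C2 + 1)`. (`Q = 0` is impossible: `1 ≤ Q' ≤ Q`.) -/
theorem KB12_one (k : ℕ) (hk : 1 ≤ k) (B : ℕ) : ∃ (A : ℕ) (C ρ : ℝ), 0 < C ∧ 0 < ρ ∧ ρ ≤ 1 ∧ ∀ (Q Q' X : ℕ), 1 ≤ Q' → Q' ≤ Q →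
    Q ^ A ≤ X → ∀ p ∈ PC Q, ∀ β : ℤ → ℂ, (∀ m : ℤ, (X : ℤ) ≤ m → m ≤ 4 * X → ‖β m‖ ≤ 1) →
    (∀ m : ℤ, (X : ℤ) ≤ m → m + 1 ≤ 4 * X → ‖β (m + 1) - β m‖ ≤ (Q : ℝ) ^ 6 / X) →
    ∀ f : ℕ → ℤ → ℂ, (∀ j, j < k → ∀ y, ‖f j y‖ ≤ 1) →
    ‖∑ n ∈ JJ X, β n * Vl Q Q' p n * Psi (B * X) k f n‖ ≤ C * (X : ℝ) ^ 2 * (Q' : ℝ) ^ (-ρ) := by
  obtain ⟨C1, ρ, hC1, hρ, hρ2, h9⟩ := KB9_cube k hk
  obtain ⟨C2, hC2, h10⟩ := KB10_frozen k
  refine ⟨2 ^ (k + 1) + 6 + (3 * 2 ^ k + 2) + 1, 2 * (k + 1) * (4 * B + 1) * (C1 + 2 * C2 + 1), ρ / 2 ^ k, by positivity, by positivity,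
    ?_, ?_⟩
  · rw [div_le_one (by positivity)]
    have h1 : (1 : ℝ) ≤ 2 ^ k := one_le_pow₀ (by norm_num)
    linarith
  intro Q Q' X hQ' hQQ hQX p hp β hβ hβ' f hf
  have hQ1 : 1 ≤ Q := hQ'.trans hQQ
  have hQr : (1 : ℝ) ≤ Q := by exact_mod_cast hQ1
  have hQ'r : (1 : ℝ) ≤ Q' := by exact_mod_cast hQ'
  have hQQr : (Q' : ℝ) ≤ Q := by exact_mod_cast hQQ
  obtain ⟨H, hH⟩ : ∃ H, H = Q ^ (3 * 2 ^ k + 2) := ⟨_, rfl⟩
  have hH1 : 1 ≤ H := by
    rw [hH]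
    exact Nat.one_le_pow _ _ hQ1
  have hHX : H ≤ X := by
    rw [hH]
    exact (Nat.pow_le_pow_right hQ1 (by omega)).trans hQX
  have hX1 : 1 ≤ X := hH1.trans hHX
  have hXr : (1 : ℝ) ≤ X := by exact_mod_cast hX1
  have hXpos : (0 : ℝ) < X := by linarith
  have hHr : (1 : ℝ) ≤ H := by exact_mod_cast hH1
  have hHpos : (0 : ℝ) < H := by linarith
  obtain ⟨F, hF⟩ : ∃ F : ℤ → ℂ, F = fun m => if m ∈ JJ X then β m * Vl Q Q' p m else 0 := ⟨_, rfl⟩
  have hF0 : ∀ m, m ∉ JJ X → F m = 0 := by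
    intro m hm
    rw [hF]
    exact if_neg hm
  have hsum : ∑ n ∈ JJ X, β n * Vl Q Q' p n * Psi (B * X) k f n = ∑ n ∈ JJ X, F n * Psi (B * X) k f n := by
    refine Finset.sum_congr rfl fun n hn => ?_
    rw [hF]
    simp only [if_pos hn]
  have hρ0 : 0 < (Q' : ℝ) ^ (-ρ) := Real.rpow_pos_of_pos (by linarith) _
  -- small averages
  have hJJ : ((JJ X).card : ℝ) ≤ X := by
    have h1 : (JJ X).card ≤ X := by
      unfold JJ
      rw [Int.card_Ico]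
      omega
    exact_mod_cast h1
  have hs1 : (∑ n ∈ JJ X, ∑ j ∈ bxS k H, ‖∑ l ∈ range H, DL (List.ofFn fun i => lam k i * j i) (Vl Q Q' p) (n + l)‖) / H ≤
      X * (C1 * (H : ℝ) ^ k * (Q' : ℝ) ^ (-ρ)) := by
    rw [div_le_iff₀ hHpos]
    refine (Finset.sum_le_sum fun n _ => h9 Q Q' H hQ' hQQ (le_of_eq hH.symm) p hp n).trans ?_
    rw [Finset.sum_const, nsmul_eq_mul]
    refine (mul_le_mul_of_nonneg_right hJJ (by positivity)).trans (le_of_eq ?_)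
    rw [pow_succ]
    ring
  have hfro := h10 β (Vl Q Q' p) ((Q : ℝ) ^ 2) ((Q : ℝ) ^ 6 / X) (2 * (X : ℤ)) (2 * X + X / 4) H hH1 (by omega)
    (one_le_pow₀ hQr) (by positivity) (fun m h1 h2 => hβ m (by omega) (by omega)) (fun m h1 h2 => hβ' m (by omega) (by omega))
    (fun m => Pool.Agent.Lib.H59T.UF_sup Q Q' p hp m)
  have hvu : (((2 * X + X / 4 : ℤ) : ℝ) - ((2 * (X : ℤ) : ℤ) : ℝ)) ≤ X := by
    rw [← Int.cast_sub]
    have h1 : (2 * X + X / 4 : ℤ) - (2 * (X : ℤ)) ≤ X := by omega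
    exact_mod_cast h1
  have hE : C2 * (H : ℝ) ^ k * ((Q : ℝ) ^ 2) ^ (2 ^ k) *
      ((((2 * X + X / 4 : ℤ) : ℝ) - ((2 * (X : ℤ) : ℤ) : ℝ)) * (H * ((Q : ℝ) ^ 6 / X)) + H) ≤
      (H : ℝ) ^ k * X * (2 * C2 * (Q' : ℝ) ^ (-ρ)) := by
    have h1 : (((2 * X + X / 4 : ℤ) : ℝ) - ((2 * (X : ℤ) : ℤ) : ℝ)) * (H * ((Q : ℝ) ^ 6 / X)) + H ≤ 2 * (H * (Q : ℝ) ^ 6) := by
      have h2 : (((2 * X + X / 4 : ℤ) : ℝ) - ((2 * (X : ℤ) : ℤ) : ℝ)) * (H * ((Q : ℝ) ^ 6 / X)) ≤ X * (H * ((Q : ℝ) ^ 6 / X)) :=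
        mul_le_mul_of_nonneg_right hvu (by positivity)
      have h3 : (X : ℝ) * (H * ((Q : ℝ) ^ 6 / X)) = H * (Q : ℝ) ^ 6 := by
        field_simp
      have h4 : (H : ℝ) * 1 ≤ H * (Q : ℝ) ^ 6 := mul_le_mul_of_nonneg_left (one_le_pow₀ hQr) hHpos.le
      linarith
    have h2 : ((Q : ℝ) ^ 2) ^ (2 ^ k) * (H * (Q : ℝ) ^ 6) * Q ≤ X := by
      have h3 : ((Q : ℝ) ^ 2) ^ (2 ^ k) * (H * (Q : ℝ) ^ 6) * Q = (Q : ℝ) ^ (2 ^ (k + 1) + 6 + (3 * 2 ^ k + 2) + 1) := by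
        rw [hH, Nat.cast_pow, ← pow_mul, ← pow_add, ← pow_add, ← pow_succ]
        congr 1
        ring
      rw [h3]
      exact_mod_cast hQX
    have h3 : ((Q : ℝ) ^ 2) ^ (2 ^ k) * (H * (Q : ℝ) ^ 6) ≤ X * (Q' : ℝ) ^ (-ρ) := by
      have h4 : (Q : ℝ)⁻¹ ≤ (Q' : ℝ) ^ (-ρ) := by
        have h5 : (Q' : ℝ) ^ (-1 : ℝ) ≤ (Q' : ℝ) ^ (-ρ) := Real.rpow_le_rpow_of_exponent_le hQ'r (by linarith)
        rw [Real.rpow_neg_one] at h5
        exact le_trans (inv_anti₀ (by linarith) hQQr) h5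
      have h5 : ((Q : ℝ) ^ 2) ^ (2 ^ k) * (H * (Q : ℝ) ^ 6) ≤ X * (Q : ℝ)⁻¹ := by
        rw [← div_eq_mul_inv, le_div_iff₀ (by linarith)]
        exact h2
      exact h5.trans (mul_le_mul_of_nonneg_left h4 hXpos.le)
    calc C2 * (H : ℝ) ^ k * ((Q : ℝ) ^ 2) ^ (2 ^ k) *
        ((((2 * X + X / 4 : ℤ) : ℝ) - ((2 * (X : ℤ) : ℤ) : ℝ)) * (H * ((Q : ℝ) ^ 6 / X)) + H)
        ≤ C2 * (H : ℝ) ^ k * ((Q : ℝ) ^ 2) ^ (2 ^ k) * (2 * (H * (Q : ℝ) ^ 6)) :=
          mul_le_mul_of_nonneg_left h1 (by positivity)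
      _ = 2 * C2 * (H : ℝ) ^ k * (((Q : ℝ) ^ 2) ^ (2 ^ k) * (H * (Q : ℝ) ^ 6)) := by ring
      _ ≤ 2 * C2 * (H : ℝ) ^ k * (X * (Q' : ℝ) ^ (-ρ)) := mul_le_mul_of_nonneg_left h3 (by positivity)
      _ = (H : ℝ) ^ k * X * (2 * C2 * (Q' : ℝ) ^ (-ρ)) := by ring
  have hDL : (∑ j ∈ bxS k H, ‖∑ n ∈ JJ X, DL (List.ofFn fun i => lam k i * j i) F n‖) / ((H : ℝ) ^ k * X) ≤
      (C1 + 2 * C2) * (Q' : ℝ) ^ (-ρ) := by
    rw [div_le_iff₀ (by positivity)]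
    have h1 : ∑ j ∈ bxS k H, ‖∑ n ∈ JJ X, DL (List.ofFn fun i => lam k i * j i) F n‖ ≤
        (∑ n ∈ JJ X, ∑ j ∈ bxS k H, ‖∑ l ∈ range H, DL (List.ofFn fun i => lam k i * j i) (Vl Q Q' p) (n + l)‖) / H +
        C2 * (H : ℝ) ^ k * ((Q : ℝ) ^ 2) ^ (2 ^ k) *
        ((((2 * X + X / 4 : ℤ) : ℝ) - ((2 * (X : ℤ) : ℤ) : ℝ)) * (H * ((Q : ℝ) ^ 6 / X)) + H) := by
      rw [hF]
      exact hfro
    refine h1.trans ((add_le_add hs1 hE).trans (le_of_eq ?_))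
    ring
  have hel := KB11_elim k B X H hX1 hH1 hHX F hF0 f hf
  rw [hsum]
  have hpow : ‖∑ n ∈ JJ X, F n * Psi (B * X) k f n‖ ^ (2 ^ k) ≤
      (2 * (k + 1) * (4 * B + 1) * (C1 + 2 * C2 + 1) * (X : ℝ) ^ 2 * (Q' : ℝ) ^ (-(ρ / 2 ^ k))) ^ (2 ^ k) := by
    refine hel.trans ?_
    have h1 : (2 * (k + 1) * (4 * B + 1) * (C1 + 2 * C2 + 1) * (X : ℝ) ^ 2 * (Q' : ℝ) ^ (-(ρ / 2 ^ k))) ^ (2 ^ k) =
        (2 * (k + 1) * (4 * B + 1) * (X : ℝ) ^ 2) ^ (2 ^ k) * ((C1 + 2 * C2 + 1) ^ (2 ^ k) * (Q' : ℝ) ^ (-ρ)) := by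
      have h2 : ((Q' : ℝ) ^ (-(ρ / 2 ^ k))) ^ (2 ^ k) = (Q' : ℝ) ^ (-ρ) := by
        rw [← Real.rpow_natCast, ← Real.rpow_mul (by linarith)]
        congr 1
        push_cast
        field_simp
      have h3 : 2 * ((k : ℝ) + 1) * (4 * B + 1) * (C1 + 2 * C2 + 1) * (X : ℝ) ^ 2 * (Q' : ℝ) ^ (-(ρ / 2 ^ k)) =
          (2 * (k + 1) * (4 * B + 1) * (X : ℝ) ^ 2) * ((C1 + 2 * C2 + 1) * (Q' : ℝ) ^ (-(ρ / 2 ^ k))) := by ring
      rw [h3, mul_pow, mul_pow (C1 + 2 * C2 + 1), h2]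
    rw [h1]
    refine mul_le_mul_of_nonneg_left (hDL.trans (mul_le_mul_of_nonneg_right ?_ hρ0.le)) (by positivity)
    have h2 : (1 : ℝ) ≤ C1 + 2 * C2 + 1 := by linarith
    calc C1 + 2 * C2 ≤ (C1 + 2 * C2 + 1) ^ 1 := by rw [pow_one]; linarith
      _ ≤ (C1 + 2 * C2 + 1) ^ (2 ^ k) := pow_le_pow_right₀ h2 (Nat.one_le_two_pow)
  exact le_of_pow_le_pow_left₀ (by positivity) (by positivity) hpow

end Pool.Agent.HUK
end

-- from Lib.HUK.KB13
section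

/-!
# Project HUK, chunk KB13 (M): the interface `LKP k`
-/

open Finset

namespace Pool.Agent.HUK

open Pool.Agent.Lib.H59T Pool.Agent.Lib.H68T Pool.Agent.Lib.H18Q
open Pool.Agent.H9U (JJ)

/-- Proof. Copy of the proof of `LK_diff` in `H59T/UL.lean` with `KB12_one` instead of `UB_one` and one sum over `n ∈ JJ X` (contained in `[X, 4X]`) instead of
the double sum. `UL_expand` (regime `K1`), `UM_mass` (`K2`, `C2`), `Bc_lip` (`K3`), `regp_pow_le 2 A 1` (`K4`: `Q^A ≤ X`). `w_p = mb p + Q^(-3)`,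
`β_p m = Bc Q X p m / w_p`: at most `1`, Lipschitz with `(Q³ / (2X)) Q³ ≤ Q^6 / X`; `∑_p w_p ≤ C2 + 1` (`card_PC_le`). -/
theorem LKP_all (k : ℕ) (hk : 1 ≤ k) : LKP k := by
  intro B
  obtain ⟨A, C5, ρ, hC5, hρ, -, h5⟩ := KB12_one k hk B
  obtain ⟨K1, hK1, h1⟩ := UL_expand
  obtain ⟨K2, C2, hK2, hC2, h2⟩ := UM_mass
  obtain ⟨K3, hK3, h3⟩ := Bc_lip
  obtain ⟨K4, hK4, h4⟩ := regp_pow_le 1 A 1 one_pos
  refine ⟨max (max K1 K2) (max K3 K4), C5 * (C2 + 1), ρ, hK1.trans ((le_max_left _ _).trans (le_max_left _ _)),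
    by positivity, hρ, ?_⟩
  intro Q Q' X hreg hQ'1 hQ'Q f hf
  have hK0 : 0 ≤ max (max K1 K2) (max K3 K4) := by
    have := (le_max_left K1 K2).trans (le_max_left (max K1 K2) (max K3 K4))
    linarith
  have r1 := hreg.mono hK0 ((le_max_left K1 K2).trans (le_max_left _ _))
  have r2 := hreg.mono hK0 ((le_max_right K1 K2).trans (le_max_left _ _))
  have r3 := hreg.mono hK0 ((le_max_left K3 K4).trans (le_max_right _ _))
  have r4 := hreg.mono hK0 ((le_max_right K3 K4).trans (le_max_right _ _))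
  have hQ1 : 1 ≤ Q := hQ'1.trans hQ'Q
  have hQR : (1 : ℝ) ≤ Q := by exact_mod_cast hQ1
  have hQ0 : (0 : ℝ) < Q := by linarith
  have hX0 : 0 < X := r1.X_pos (by linarith)
  have hX0' : (0 : ℝ) < X := by exact_mod_cast hX0
  have hQA : Q ^ A ≤ X := by
    have h6 := h4 Q X r4
    rw [one_mul, Real.rpow_one, Real.rpow_natCast] at h6
    exact_mod_cast h6
  obtain ⟨mb, hmb0, hmbs, hmb⟩ := h2 Q X r2
  have hwp : ∀ p ∈ PC Q, 0 < mb p + ((Q : ℝ) ^ 3)⁻¹ := fun p hp => by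
    have := hmb0 p hp
    positivity
  have hsum : ∑ p ∈ PC Q, (mb p + ((Q : ℝ) ^ 3)⁻¹) ≤ C2 + 1 := by
    rw [Finset.sum_add_distrib, Finset.sum_const, nsmul_eq_mul]
    have h8 : ((PC Q).card : ℝ) * ((Q : ℝ) ^ 3)⁻¹ ≤ 1 := by
      rw [← div_eq_mul_inv, div_le_one (by positivity)]
      have h9 : ((PC Q).card : ℝ) ≤ (Q : ℝ) ^ 2 := by exact_mod_cast card_PC_le Q
      refine h9.trans ?_
      exact pow_le_pow_right₀ hQR (by norm_num)
    linarith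
  have hJ : ∀ n ∈ JJ X, (X : ℤ) ≤ n ∧ n ≤ 4 * X := by
    intro n hn
    unfold JJ at hn
    rw [Finset.mem_Ico] at hn
    omega
  have hexp : ∀ n ∈ JJ X, ((Lk Q (X / Q ^ 2) n - Lk Q' (X / Q ^ 2) n : ℝ) : ℂ) * Psi (B * X) k f n =
      ∑ p ∈ PC Q, ((mb p + ((Q : ℝ) ^ 3)⁻¹ : ℝ) : ℂ) *
        ((Bc Q X p n / ((mb p + ((Q : ℝ) ^ 3)⁻¹ : ℝ) : ℂ)) * Vl Q Q' p n * Psi (B * X) k f n) := by
    intro n hn
    rw [h1 Q Q' X r1 hQ'1 hQ'Q n (hJ n hn).1 (hJ n hn).2, Finset.sum_mul]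
    refine Finset.sum_congr rfl fun p hp => ?_
    have h10 : ((mb p + ((Q : ℝ) ^ 3)⁻¹ : ℝ) : ℂ) ≠ 0 := by exact_mod_cast (hwp p hp).ne'
    generalize ((mb p + ((Q : ℝ) ^ 3)⁻¹ : ℝ) : ℂ) = c at h10 ⊢
    have h11 : Bc Q X p n = c * (Bc Q X p n / c) := by rw [mul_div_cancel₀ _ h10]
    rw [h11]
    rw [mul_div_cancel_left₀ _ h10]
    ring
  rw [Finset.sum_congr rfl hexp, Finset.sum_comm]
  have hQ'0 : (0 : ℝ) ≤ (X : ℝ) ^ 2 * (Q' : ℝ) ^ (-ρ) :=
    mul_nonneg (by positivity) (Real.rpow_nonneg (Nat.cast_nonneg _) _)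
  have hone : ∀ p ∈ PC Q, ‖∑ n ∈ JJ X, ((mb p + ((Q : ℝ) ^ 3)⁻¹ : ℝ) : ℂ) *
        ((Bc Q X p n / ((mb p + ((Q : ℝ) ^ 3)⁻¹ : ℝ) : ℂ)) * Vl Q Q' p n * Psi (B * X) k f n)‖ ≤
      (mb p + ((Q : ℝ) ^ 3)⁻¹) * (C5 * (X : ℝ) ^ 2 * (Q' : ℝ) ^ (-ρ)) := by
    intro p hp
    have hw := hwp p hp
    rw [← Finset.mul_sum, norm_mul, Complex.norm_real, Real.norm_eq_abs, abs_of_pos hw]
    refine mul_le_mul_of_nonneg_left ?_ hw.le
    refine h5 Q Q' X hQ'1 hQ'Q hQA p hp (fun m => Bc Q X p m / ((mb p + ((Q : ℝ) ^ 3)⁻¹ : ℝ) : ℂ)) ?_ ?_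
      f (fun j hj y => (hf j hj).le y)
    · intro m hm hm4
      rw [norm_div, Complex.norm_real, Real.norm_eq_abs, abs_of_pos hw, div_le_one hw]
      have h11 := hmb m hm hm4 p hp
      have h12 : 0 ≤ ((Q : ℝ) ^ 3)⁻¹ := by positivity
      linarith
    · intro m hm hm4
      rw [← sub_div, norm_div, Complex.norm_real, Real.norm_eq_abs, abs_of_pos hw]
      have h13 := h3 Q X r3 p m hm (by omega)
      have h14 : ((Q : ℝ) ^ 3)⁻¹ ≤ mb p + ((Q : ℝ) ^ 3)⁻¹ := by linarith [hmb0 p hp]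
      have h15 : 0 < ((Q : ℝ) ^ 3)⁻¹ := by positivity
      calc ‖Bc Q X p (m + 1) - Bc Q X p m‖ / (mb p + ((Q : ℝ) ^ 3)⁻¹)
          ≤ ((Q : ℝ) ^ 3 / (2 * X)) / ((Q : ℝ) ^ 3)⁻¹ :=
            div_le_div₀ (by positivity) h13 h15 h14
        _ = (Q : ℝ) ^ 6 / X * (1 / 2) := by
            field_simp
        _ ≤ (Q : ℝ) ^ 6 / X := by
            have h16 : 0 ≤ (Q : ℝ) ^ 6 / X := by positivity
            linarith
  refine (norm_sum_le _ _).trans ((Finset.sum_le_sum hone).trans ?_)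
  rw [← Finset.sum_mul]
  calc (∑ p ∈ PC Q, (mb p + ((Q : ℝ) ^ 3)⁻¹)) * (C5 * (X : ℝ) ^ 2 * (Q' : ℝ) ^ (-ρ))
      ≤ (C2 + 1) * (C5 * (X : ℝ) ^ 2 * (Q' : ℝ) ^ (-ρ)) := by
        refine mul_le_mul_of_nonneg_right hsum ?_
        have := mul_nonneg hC5.le hQ'0
        linarith
    _ = C5 * (C2 + 1) * (X : ℝ) ^ 2 * (Q' : ℝ) ^ (-ρ) := by ring

end Pool.Agent.HUK
end
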