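import Pool.Agent.Lib.H59M.M1.M021
import Pool.Agent.Lib.H59M.M1.M026
import Pool.Agent.Lib.H59M.M1.M044
import Pool.Agent.Lib.H59M.M1.M053
import Pool.Agent.Lib.H59M.M1.M054
import Pool.Agent.Lib.H59M.M1.M084
import Pool.Agent.Lib.H59M.M1.M086

/-! Merged copies (to shorten the build) of Lib.HUK.A13, Lib.HUP.FGA2, Lib.HUP.FGA4, Lib.HUK.A14b, Lib.HUK.A15, Lib.HUK.A16a, Lib.HUK.A16. -/

-- from Lib.HUK.A13
section

/-!
# Project HUK, chunk A13 (M): Theorem (**) of PROOF.md, section 2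
-/

open Finset

namespace Pool.Agent.HUK

/-- Proof. `A12_all`; the sum over `𝒜` is at most the sum over `(K, 2K]` (`NU_nonneg`). `LL_main (n+1)` with a power of `δ` in place of `δ`, `M = ⌊δ^C₁ H⌋`
(`δ^C₂ X ≤ q K M`, `4 q K M ≤ X`: `q ≤ (1/δ)^C₁` is beaten by a larger exponent in `M`, as in `A12`; `2^(n+1) ≤ 2^(2^n)` for `n ≥ 1`):
`NU X (n+1) M' q' f ≥ δ^C₃ X`, `M' = ⌊δ^C₄ X⌋`. `V2_mul` (`s = n + 1 ≥ 2`): `NU M'^(n+1) ≤ GG X (n+1) f`, so
`GG ≥ δ^C₃ X (δ^C₄ X/2)^(n+1) ≥ δ^C X^(n+2)`. -/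
theorem A13_star (n : ℕ) (hn : 1 ≤ n) : ∃ C : ℕ, ∀ δ : ℝ, 0 < δ → δ ≤ 1 / 2 → ∀ X K H : ℕ, (1 / δ) ^ C ≤ K →
    (1 / δ) ^ C * (K : ℝ) ^ (2 ^ 2 ^ n) ≤ X → δ * X ≤ K * H → 16 * n * K * H ≤ X → 1 ≤ H →
    (∀ m : ℕ, 1 ≤ m → m ≤ X → (m.divisors.card : ℝ) ≤ 1 / δ) → ∀ 𝒜 : Finset ℕ, 𝒜 ⊆ Ioc K (2 * K) →
    ∀ f : ℤ → ℂ, Bdd X f →
    δ * ((H : ℝ) ^ (n + 1) * ((K : ℝ) * X) ^ 2) ≤ ∑ t ∈ bxS (n + 1) H, ‖∑ a ∈ 𝒜, FF X (fun i => (a : ℤ) * t i) f‖ ^ 2 →
    δ ^ C * (X : ℝ) ^ (n + 2) ≤ GG X (n + 1) f := by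
  obtain ⟨C0, h12⟩ := A12_all n hn
  obtain ⟨C1, C2, hLL⟩ := LL_main (n + 1) (by omega)
  obtain ⟨E, hE⟩ : ∃ E, E = C0 + 2 := ⟨_, rfl⟩
  refine ⟨C0 + E * C2 * (n + 2) + (n + 1), fun δ hδ hδ2 X K H hK hX hXKH hnKH hH hdiv 𝒜 h𝒜 f hf hsum => ?_⟩
  have hδ1 : δ ≤ 1 := by linarith
  have hδi : 1 ≤ 1 / δ := by
    rw [le_div_iff₀ hδ]
    linarith
  have hpow : ∀ a b : ℕ, a ≤ b → δ ^ b ≤ δ ^ a := fun a b hab => pow_le_pow_of_le_one hδ.le hδ1 hab
  have hipow : ∀ a b : ℕ, a ≤ b → (1 / δ) ^ a ≤ (1 / δ) ^ b := fun a b hab => pow_le_pow_right₀ hδi hab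
  have hle1 : C0 ≤ C0 + E * C2 * (n + 2) + (n + 1) := by omega
  have hle2 : E * C2 ≤ C0 + E * C2 * (n + 2) + (n + 1) := by
    have h1 : E * C2 ≤ E * C2 * (n + 2) := Nat.le_mul_of_pos_right _ (by omega)
    omega
  have hKr : (1 : ℝ) ≤ K := le_trans (one_le_pow₀ hδi) hK
  have hK1 : 1 ≤ K := by exact_mod_cast hKr
  have hKpos : (0 : ℝ) < K := by linarith
  have hHpos : (0 : ℝ) < H := by exact_mod_cast hH
  obtain ⟨q, hq1, hqC, hM1, hNU⟩ := h12 δ hδ hδ2 X K H ((hipow _ _ hle1).trans hK)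
    ((mul_le_mul_of_nonneg_right (hipow _ _ hle1) (by positivity)).trans hX) hXKH hnKH hH 𝒜 h𝒜 f hf hsum
  obtain ⟨M, hM⟩ : ∃ M, M = ⌊δ ^ C0 * H⌋₊ := ⟨_, rfl⟩
  rw [← hM] at hM1 hNU
  have hMr1 : (1 : ℝ) ≤ M := by exact_mod_cast hM1
  have hMle : (M : ℝ) ≤ δ ^ C0 * H := by
    rw [hM]
    exact Nat.floor_le (by positivity)
  have hMge : δ ^ C0 * H / 2 ≤ M := by
    have h1 : δ ^ C0 * H < M + 1 := by
      rw [hM]
      exact Nat.lt_floor_add_one _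
    linarith
  have hqr1 : (1 : ℝ) ≤ q := by exact_mod_cast hq1
  have hqM : (q : ℝ) * M ≤ H := by
    have h1 : (q : ℝ) * M ≤ (1 / δ) ^ C0 * (δ ^ C0 * H) := mul_le_mul hqC hMle (by positivity) (by positivity)
    have h2 : (1 / δ) ^ C0 * (δ ^ C0 * H) = H := by
      rw [← mul_assoc, ← mul_pow, one_div, inv_mul_cancel₀ hδ.ne', one_pow, one_mul]
    rwa [h2] at h1
  have h4 : 4 * q * K * M ≤ X := by
    have h1 : q * M ≤ H := by exact_mod_cast hqM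
    have h2 : 4 * q * K * M = 4 * K * (q * M) := by ring
    have h3 : 4 * K * (q * M) ≤ 4 * K * H := Nat.mul_le_mul_left _ h1
    have h5 : 4 * K * H ≤ 16 * n * K * H := by
      have h6 : 4 * K * H * 1 ≤ 4 * K * H * (4 * n) := Nat.mul_le_mul_left _ (by omega)
      calc 4 * K * H = 4 * K * H * 1 := (mul_one _).symm
        _ ≤ 4 * K * H * (4 * n) := h6
        _ = 16 * n * K * H := by ring
    omega
  -- the sum over all b
  have hall : δ ^ C0 * (K * X) ≤ ∑ b ∈ Ioc K (2 * K), NU X (n + 1) M (b * q) f := by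
    refine hNU.trans (Finset.sum_le_sum_of_subset_of_nonneg h𝒜 fun b hb _ => ?_)
    rw [mem_Ioc] at hb
    refine NU_nonneg X (n + 1) M (by omega) hM1 _ (by positivity) ?_ f hf.sup
    have h1 : b * q * M ≤ X := by
      have h2 : b * q * M ≤ 2 * K * q * M := Nat.mul_le_mul_right _ (Nat.mul_le_mul_right _ hb.2)
      have h3 : 2 * K * q * M ≤ 4 * q * K * M := by
        calc 2 * K * q * M = 2 * (q * K * M) := by ring
          _ ≤ 4 * (q * K * M) := Nat.mul_le_mul_right _ (by omega)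
          _ = 4 * q * K * M := by ring
      omega
    exact_mod_cast h1
  have hE1 : 1 ≤ E := by omega
  obtain ⟨q', hq'1, hq'C, hq'X, hM'1, hNU'⟩ := hLL (δ ^ E) (by positivity)
    (le_trans (by simpa using hpow 1 E hE1) hδ2) X K M q hK1 hM1 hq1
    (fun m hm1 hm2 => (hdiv m hm1 hm2).trans (by
      rw [← one_div_pow]
      simpa using hipow 1 E hE1))
    (by
      have h1 : (1 / δ ^ E) ^ C2 = (1 / δ) ^ (E * C2) := by
        rw [← one_div_pow, ← pow_mul]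
      rw [h1]
      refine le_trans (mul_le_mul (hipow _ _ hle2) ?_ (by positivity) (by positivity)) hX
      refine pow_le_pow_right₀ hKr (Nat.pow_le_pow_right (by norm_num) ?_)
      exact Nat.lt_two_pow_self)
    (by
      have h1 : δ ^ E * X ≤ δ ^ (C0 + 1) * (δ * X) := by
        have h2 : δ ^ E * (X : ℝ) = δ ^ (C0 + 1) * (δ * X) := by
          rw [hE, pow_succ, pow_succ]
          ring
        rw [h2]
      have h2 : δ ^ (C0 + 1) * (δ * X) ≤ δ ^ (C0 + 1) * (K * H) := mul_le_mul_of_nonneg_left hXKH (by positivity)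
      have h3 : δ ^ (C0 + 1) * ((K : ℝ) * H) ≤ K * (δ ^ C0 * H / 2) := by
        have h5 : δ ^ (C0 + 1) ≤ δ ^ C0 / 2 := by
          rw [pow_succ]
          have h6 : 0 < δ ^ C0 := by positivity
          nlinarith
        calc δ ^ (C0 + 1) * ((K : ℝ) * H) ≤ δ ^ C0 / 2 * (K * H) := mul_le_mul_of_nonneg_right h5 (by positivity)
          _ = K * (δ ^ C0 * H / 2) := by ring
      have h6 : (K : ℝ) * (δ ^ C0 * H / 2) ≤ K * M := mul_le_mul_of_nonneg_left hMge hKpos.le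
      have h7 : (K : ℝ) * M ≤ q * K * M := by
        have h8 : (K : ℝ) * M = 1 * (K * M) := (one_mul _).symm
        rw [h8, mul_assoc (q : ℝ)]
        exact mul_le_mul_of_nonneg_right hqr1 (by positivity)
      linarith)
    h4
    (by
      rw [← one_div_pow]
      exact hqC.trans (hipow _ _ (by omega)))
    f hf
    (le_trans (mul_le_mul_of_nonneg_right (hpow C0 E (by omega)) (by positivity)) hall)
  obtain ⟨M', hM'⟩ : ∃ M', M' = ⌊(δ ^ E) ^ C2 * X⌋₊ := ⟨_, rfl⟩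
  rw [← hM'] at hM'1 hNU'
  have hM'r : (1 : ℝ) ≤ M' := by exact_mod_cast hM'1
  have hV := V2_mul X (n + 1) M' q' (by omega) hM'1 hq'1 f hf.sup
  have hX0 : (0 : ℝ) ≤ X := by positivity
  have hDpos : 0 < (δ ^ E) ^ C2 := by positivity
  have hM'ge : (δ ^ E) ^ C2 * X / 2 ≤ M' := by
    have h1 : (δ ^ E) ^ C2 * X < M' + 1 := by
      rw [hM']
      exact Nat.lt_floor_add_one _
    linarith
  have hGG : NU X (n + 1) M' q' f * (M' : ℝ) ^ (n + 1) ≤ GG X (n + 1) f := by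
    refine le_trans ?_ hV
    rw [NU, div_mul_cancel₀ _ (by positivity)]
    exact Complex.re_le_norm _
  refine le_trans ?_ hGG
  have h1 : (δ ^ E) ^ C2 * X * ((δ ^ E) ^ C2 * X / 2) ^ (n + 1) ≤ NU X (n + 1) M' q' f * (M' : ℝ) ^ (n + 1) :=
    mul_le_mul hNU' (pow_le_pow_left₀ (by positivity) hM'ge _) (by positivity) (le_trans (by positivity) hNU')
  refine le_trans ?_ h1
  have h2 : (δ ^ E) ^ C2 * X * ((δ ^ E) ^ C2 * X / 2) ^ (n + 1) = ((δ ^ E) ^ C2) ^ (n + 2) * (1 / 2) ^ (n + 1) * (X : ℝ) ^ (n + 2) := by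
    obtain ⟨D, hD⟩ : ∃ D, D = (δ ^ E) ^ C2 := ⟨_, rfl⟩
    rw [← hD, div_eq_mul_one_div, mul_pow, mul_pow]
    ring
  rw [h2]
  refine mul_le_mul_of_nonneg_right ?_ (by positivity)
  have h3 : δ ^ (C0 + E * C2 * (n + 2) + (n + 1)) = δ ^ C0 * (((δ ^ E) ^ C2) ^ (n + 2) * δ ^ (n + 1)) := by
    rw [← pow_mul, ← pow_mul, ← pow_add, ← pow_add]
    congr 1
    ring
  rw [h3]
  have h5 : δ ^ (n + 1) ≤ (1 / 2) ^ (n + 1) := pow_le_pow_left₀ hδ.le hδ2 _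
  calc δ ^ C0 * (((δ ^ E) ^ C2) ^ (n + 2) * δ ^ (n + 1)) ≤ 1 * (((δ ^ E) ^ C2) ^ (n + 2) * δ ^ (n + 1)) :=
        mul_le_mul_of_nonneg_right (pow_le_one₀ hδ.le hδ1) (by positivity)
    _ = ((δ ^ E) ^ C2) ^ (n + 2) * δ ^ (n + 1) := one_mul _
    _ ≤ ((δ ^ E) ^ C2) ^ (n + 2) * (1 / 2) ^ (n + 1) := mul_le_mul_of_nonneg_left h5 (by positivity)

end Pool.Agent.HUK
end

-- from Lib.HUP.FGA2
section

/-!
# Project HUP, chunk FGA2 (S/M): sums of periodic functions over boxes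
-/

open Finset

namespace Pool.Agent.HUP

open Pool.Agent.HUK (kb3_blocks kb3_block)

/-- One variable. Proof. `s = M q + ρ`, `ρ < M`: the sum over the first `M q` integers is `q ∑_{Ico 0 M}` (`kb3_blocks`, with `range` instead
of `Ico`), the rest has norm at most `ρ B`, and `(s/M - q) ∑_{Ico 0 M} = (ρ/M) ∑_{Ico 0 M}` has norm at most `ρ B`. -/
theorem FGA2_one (M : ℕ) (hM : 1 ≤ M) (g : ℤ → ℂ) (hg : ∀ y y' : ℤ, (M : ℤ) ∣ y - y' → g y = g y') (B : ℝ)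
    (hB : ∀ y, ‖g y‖ ≤ B) (b : ℤ) (s : ℕ) :
    ‖∑ y ∈ Ico b (b + s), g y - ((s : ℂ) / M) * ∑ y ∈ Ico (0 : ℤ) M, g y‖ ≤ 2 * M * B := by
  have hB0 : 0 ≤ B := (norm_nonneg _).trans (hB 0)
  have hM0 : (0 : ℝ) < M := by exact_mod_cast hM
  have hMc : (M : ℂ) ≠ 0 := by
    have : M ≠ 0 := by omega
    exact_mod_cast this
  have h0 : ∑ y ∈ Ico b (b + s), g y = ∑ l ∈ range s, g (b + l) := by
    symm
    refine Finset.sum_nbij' (fun l : ℕ => b + (l : ℤ)) (fun y : ℤ => (y - b).toNat) ?_ ?_ ?_ ?_ ?_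
    · intro l hl
      rw [mem_range] at hl
      rw [mem_Ico]
      omega
    · intro y hy
      rw [mem_Ico] at hy
      rw [mem_range]
      omega
    · intro l _
      show (b + (l : ℤ) - b).toNat = l
      omega
    · intro y hy
      rw [mem_Ico] at hy
      show b + ((y - b).toNat : ℤ) = y
      omega
    · intro l _
      rfl
  have h1 : s = M * (s / M) + s % M := (Nat.div_add_mod s M).symm
  have h2 : ∑ l ∈ range s, g (b + l) = ((s / M : ℕ) : ℂ) * ∑ y ∈ Ico (0 : ℤ) M, g y +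
      ∑ x ∈ range (s % M), g (b + ((M * (s / M) + x : ℕ) : ℤ)) := by
    conv_lhs => rw [h1]
    rw [Finset.sum_range_add, kb3_blocks M hM g hg b]
  have h3 : ((s : ℂ) / M) = ((s / M : ℕ) : ℂ) + ((s % M : ℕ) : ℂ) / M := by
    rw [eq_comm, ← sub_eq_zero]
    have h4 : (s : ℂ) = (M : ℂ) * ((s / M : ℕ) : ℂ) + ((s % M : ℕ) : ℂ) := by exact_mod_cast h1
    rw [h4]
    field_simp
    ring
  have h5 : ‖∑ x ∈ range (s % M), g (b + ((M * (s / M) + x : ℕ) : ℤ))‖ ≤ M * B := by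
    refine (norm_sum_le _ _).trans ?_
    calc ∑ x ∈ range (s % M), ‖g (b + ((M * (s / M) + x : ℕ) : ℤ))‖ ≤ ∑ x ∈ range (s % M), B :=
          Finset.sum_le_sum fun x _ => hB _
      _ = (s % M : ℕ) * B := by rw [Finset.sum_const, card_range, nsmul_eq_mul]
      _ ≤ M * B := by
          apply mul_le_mul_of_nonneg_right _ hB0
          exact_mod_cast (Nat.mod_lt s hM).le
  have h6 : ‖(((s % M : ℕ) : ℂ) / M) * ∑ y ∈ Ico (0 : ℤ) M, g y‖ ≤ M * B := by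
    have h7 : ‖∑ y ∈ Ico (0 : ℤ) M, g y‖ ≤ M * B := by
      refine (norm_sum_le _ _).trans ?_
      calc ∑ y ∈ Ico (0 : ℤ) M, ‖g y‖ ≤ ∑ _y ∈ Ico (0 : ℤ) M, B := Finset.sum_le_sum fun x _ => hB _
        _ = M * B := by
          rw [Finset.sum_const, nsmul_eq_mul, Int.card_Ico]
          simp
    rw [norm_mul, norm_div, Complex.norm_natCast, Complex.norm_natCast]
    have h8 : ((s % M : ℕ) : ℝ) / M ≤ 1 := by
      rw [div_le_one hM0]
      exact_mod_cast (Nat.mod_lt s hM).le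
    calc ((s % M : ℕ) : ℝ) / M * ‖∑ y ∈ Ico (0 : ℤ) M, g y‖ ≤ 1 * (M * B) :=
          mul_le_mul h8 h7 (norm_nonneg _) zero_le_one
      _ = M * B := one_mul _
  rw [h0, h2, h3]
  have h9 : ((s / M : ℕ) : ℂ) * ∑ y ∈ Ico (0 : ℤ) M, g y +
      ∑ x ∈ range (s % M), g (b + ((M * (s / M) + x : ℕ) : ℤ)) -
      (((s / M : ℕ) : ℂ) + ((s % M : ℕ) : ℂ) / M) * ∑ y ∈ Ico (0 : ℤ) M, g y =
      ∑ x ∈ range (s % M), g (b + ((M * (s / M) + x : ℕ) : ℤ)) -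
      (((s % M : ℕ) : ℂ) / M) * ∑ y ∈ Ico (0 : ℤ) M, g y := by ring
  rw [h9]
  refine (norm_sub_le _ _).trans ?_
  linarith

theorem fga2_pi {d : ℕ} (S : Fin (d + 1) → Finset ℤ) (F : (Fin (d + 1) → ℤ) → ℂ) :
    ∑ t ∈ Fintype.piFinset S, F t = ∑ x ∈ S 0, ∑ t ∈ Fintype.piFinset (fun j : Fin d => S j.succ),
      F (Fin.cons x t : Fin (d + 1) → ℤ) := by
  rw [← Finset.sum_product']
  refine Finset.sum_nbij' (fun h => (h 0, Fin.tail h)) (fun p => (Fin.cons p.1 p.2 : Fin (d + 1) → ℤ)) ?_ ?_ ?_ ?_ ?_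
  · intro h hh
    rw [Fintype.mem_piFinset] at hh
    rw [Finset.mem_product]
    refine ⟨hh 0, ?_⟩
    rw [Fintype.mem_piFinset]
    intro i
    exact hh i.succ
  · intro p hp
    rw [Finset.mem_product] at hp
    have h2 := Fintype.mem_piFinset.1 hp.2
    rw [Fintype.mem_piFinset]
    intro i
    refine Fin.cases ?_ ?_ i
    · exact hp.1
    · intro j
      exact h2 j
  · intro h _
    exact Fin.cons_self_tail h
  · intro p _
    rfl
  · intro h _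
    show F h = F (Fin.cons (h 0) (Fin.tail h) : Fin (d + 1) → ℤ)
    rw [Fin.cons_self_tail]

theorem fga2_card {d : ℕ} (b : Fin d → ℤ) (s : Fin d → ℕ) : ((tb b s).card : ℝ) = ∏ j, (s j : ℝ) := by
  unfold tb
  rw [Fintype.card_piFinset]
  push_cast
  refine Finset.prod_congr rfl fun j _ => ?_
  rw [Int.card_Ico]
  simp

theorem fga2_cardB (d M : ℕ) : ((B0 d M).card : ℝ) = (M : ℝ) ^ d := by
  unfold B0
  rw [Fintype.card_piFinset]
  simp

/-- Proof. Induction on `d` with `Fin.cons` (or `Fin.consEquiv`; `Fin.cons_self_tail`): `tb b s` is the product of `Ico (b 0) (b 0 + s 0)` and the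
box of `fun j => b j.succ`, `fun j => s j.succ`, the same for `B0 (d+1) M`. For fixed `t 0` the induction hypothesis; then `FGA2_one` for
`g (t0) = ∑_{t' ∈ B0 d M} f (Fin.cons t0 t')`, `B = M^d`: the error is
`s 0 * card' * (2 d M/L) + (card'/M^d) * 2 M * M^d ≤ s 0 * card' * (2 (d+1) M/L)` since `L ≤ s 0`, i.e. `1 ≤ s 0 / L`. -/
theorem FGA2_diff {d : ℕ} (M L : ℕ) (hM : 1 ≤ M) (hL : 1 ≤ L) (b : Fin d → ℤ) (s : Fin d → ℕ) (hs : ∀ j, L ≤ s j)
    (f : (Fin d → ℤ) → ℂ) (hf : ∀ t t' : Fin d → ℤ, (∀ j, (M : ℤ) ∣ t j - t' j) → f t = f t')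
    (hb : ∀ t, ‖f t‖ ≤ 1) :
    ‖∑ t ∈ tb b s, f t - (((tb b s).card : ℂ) / (M : ℂ) ^ d) * ∑ t ∈ B0 d M, f t‖ ≤
      (tb b s).card * (2 * d * ((M : ℝ) / L)) := by
  have hM0 : (0 : ℝ) < M := by exact_mod_cast hM
  have hL0 : (0 : ℝ) < L := by exact_mod_cast hL
  have hMc : (M : ℂ) ≠ 0 := by
    have : M ≠ 0 := by omega
    exact_mod_cast this
  induction d with
  | zero =>
    have h1 : tb b s = {fun i : Fin 0 => i.elim0} := by
      ext h
      unfold tb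
      rw [Fintype.mem_piFinset, Finset.mem_singleton]
      exact ⟨fun _ => Subsingleton.elim _ _, fun _ i => i.elim0⟩
    have h2 : B0 0 M = {fun i : Fin 0 => i.elim0} := by
      ext h
      unfold B0
      rw [Fintype.mem_piFinset, Finset.mem_singleton]
      exact ⟨fun _ => Subsingleton.elim _ _, fun _ i => i.elim0⟩
    rw [h1, h2]
    simp
  | succ d ih =>
    have hsum : ∑ t ∈ tb b s, f t = ∑ x ∈ Ico (b 0) (b 0 + s 0), ∑ t ∈ tb (fun j : Fin d => b j.succ)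
        (fun j : Fin d => s j.succ), f (Fin.cons x t : Fin (d + 1) → ℤ) := by
      unfold tb
      rw [fga2_pi]
    have hsum0 : ∑ t ∈ B0 (d + 1) M, f t = ∑ x ∈ Ico (0 : ℤ) M, ∑ t ∈ B0 d M,
        f (Fin.cons x t : Fin (d + 1) → ℤ) := by
      unfold B0
      rw [fga2_pi]
    have hcard : ((tb b s).card : ℝ) = s 0 * (tb (fun j : Fin d => b j.succ) (fun j : Fin d => s j.succ)).card := by
      rw [fga2_card, fga2_card, Fin.prod_univ_succ]
    have hcardc : ((tb b s).card : ℂ) = s 0 * (tb (fun j : Fin d => b j.succ) (fun j : Fin d => s j.succ)).card := by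
      exact_mod_cast hcard
    obtain ⟨c', hc'⟩ : ∃ c' : ℕ, (tb (fun j : Fin d => b j.succ) (fun j : Fin d => s j.succ)).card = c' := ⟨_, rfl⟩
    rw [hc'] at hcard hcardc
    have hih : ∀ x : ℤ, ‖∑ t ∈ tb (fun j : Fin d => b j.succ) (fun j : Fin d => s j.succ),
        f (Fin.cons x t : Fin (d + 1) → ℤ) - ((c' : ℂ) / (M : ℂ) ^ d) * ∑ t ∈ B0 d M,
        f (Fin.cons x t : Fin (d + 1) → ℤ)‖ ≤ c' * (2 * d * ((M : ℝ) / L)) := by
      intro x
      have h1 := ih (fun j : Fin d => b j.succ) (fun j : Fin d => s j.succ) (fun j => hs j.succ)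
        (fun t => f (Fin.cons x t : Fin (d + 1) → ℤ)) ?_ (fun t => hb _)
      · rw [hc'] at h1
        exact h1
      · intro t t' ht
        refine hf _ _ ?_
        intro j
        refine Fin.cases ?_ ?_ j
        · simp
        · intro i
          exact ht i
    have hone := FGA2_one M hM (fun x => ∑ t ∈ B0 d M, f (Fin.cons x t : Fin (d + 1) → ℤ)) ?_ ((M : ℝ) ^ d) ?_
      (b 0) (s 0)
    · rw [hsum, hsum0, hcardc]
      have hid : ∑ x ∈ Ico (b 0) (b 0 + s 0), ∑ t ∈ tb (fun j : Fin d => b j.succ)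
          (fun j : Fin d => s j.succ), f (Fin.cons x t : Fin (d + 1) → ℤ) -
          ((s 0 : ℂ) * c' / (M : ℂ) ^ (d + 1)) * ∑ x ∈ Ico (0 : ℤ) M, ∑ t ∈ B0 d M,
            f (Fin.cons x t : Fin (d + 1) → ℤ) =
          ∑ x ∈ Ico (b 0) (b 0 + s 0), (∑ t ∈ tb (fun j : Fin d => b j.succ) (fun j : Fin d => s j.succ),
            f (Fin.cons x t : Fin (d + 1) → ℤ) - ((c' : ℂ) / (M : ℂ) ^ d) * ∑ t ∈ B0 d M,
            f (Fin.cons x t : Fin (d + 1) → ℤ)) +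
          ((c' : ℂ) / (M : ℂ) ^ d) * (∑ x ∈ Ico (b 0) (b 0 + s 0), ∑ t ∈ B0 d M,
            f (Fin.cons x t : Fin (d + 1) → ℤ) - ((s 0 : ℂ) / M) * ∑ x ∈ Ico (0 : ℤ) M, ∑ t ∈ B0 d M,
            f (Fin.cons x t : Fin (d + 1) → ℤ)) := by
        rw [Finset.sum_sub_distrib, ← Finset.mul_sum, mul_sub, pow_succ]
        have hk : ((s 0 : ℂ) * c' / ((M : ℂ) ^ d * M)) = ((c' : ℂ) / (M : ℂ) ^ d) * ((s 0 : ℂ) / M) := by
          field_simp
        rw [hk]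
        ring
      rw [hid]
      refine (norm_add_le _ _).trans ?_
      have hA : ‖∑ x ∈ Ico (b 0) (b 0 + s 0), (∑ t ∈ tb (fun j : Fin d => b j.succ) (fun j : Fin d => s j.succ),
            f (Fin.cons x t : Fin (d + 1) → ℤ) - ((c' : ℂ) / (M : ℂ) ^ d) * ∑ t ∈ B0 d M,
            f (Fin.cons x t : Fin (d + 1) → ℤ))‖ ≤ s 0 * (c' * (2 * d * ((M : ℝ) / L))) := by
        refine (norm_sum_le _ _).trans ?_
        refine (Finset.sum_le_sum fun x _ => hih x).trans ?_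
        rw [Finset.sum_const, nsmul_eq_mul, Int.card_Ico]
        simp
      have hMd : (0 : ℝ) < (M : ℝ) ^ d := by positivity
      have hB : ‖((c' : ℂ) / (M : ℂ) ^ d) * (∑ x ∈ Ico (b 0) (b 0 + s 0), ∑ t ∈ B0 d M,
            f (Fin.cons x t : Fin (d + 1) → ℤ) - ((s 0 : ℂ) / M) * ∑ x ∈ Ico (0 : ℤ) M, ∑ t ∈ B0 d M,
            f (Fin.cons x t : Fin (d + 1) → ℤ))‖ ≤ c' * (2 * M) := by
        rw [norm_mul, norm_div, norm_pow, Complex.norm_natCast, Complex.norm_natCast]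
        calc (c' : ℝ) / (M : ℝ) ^ d * ‖∑ x ∈ Ico (b 0) (b 0 + s 0), ∑ t ∈ B0 d M,
            f (Fin.cons x t : Fin (d + 1) → ℤ) - ((s 0 : ℂ) / M) * ∑ x ∈ Ico (0 : ℤ) M, ∑ t ∈ B0 d M,
            f (Fin.cons x t : Fin (d + 1) → ℤ)‖ ≤ (c' : ℝ) / (M : ℝ) ^ d * (2 * M * (M : ℝ) ^ d) :=
              mul_le_mul_of_nonneg_left hone (by positivity)
          _ = c' * (2 * M) := by
            field_simp
      refine (add_le_add hA hB).trans ?_
      rw [hcard]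
      have hsL : (1 : ℝ) ≤ (s 0 : ℝ) / L := by
        rw [le_div_iff₀ hL0, one_mul]
        exact_mod_cast hs 0
      have hfin : (c' : ℝ) * (2 * M) ≤ c' * (2 * M) * ((s 0 : ℝ) / L) := by
        have h0 : (0 : ℝ) ≤ c' * (2 * M) := by positivity
        nlinarith
      calc (s 0 : ℝ) * (c' * (2 * d * ((M : ℝ) / L))) + c' * (2 * M)
          ≤ (s 0 : ℝ) * (c' * (2 * d * ((M : ℝ) / L))) + c' * (2 * M) * ((s 0 : ℝ) / L) := by linarith
        _ = (s 0 : ℝ) * c' * (2 * ((d + 1 : ℕ) : ℝ) * ((M : ℝ) / L)) := by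
          push_cast
          ring
    · intro y y' hy
      refine Finset.sum_congr rfl fun t _ => ?_
      refine hf _ _ ?_
      intro j
      refine Fin.cases ?_ ?_ j
      · exact hy
      · intro i
        simp
    · intro y
      refine (norm_sum_le _ _).trans ?_
      refine (Finset.sum_le_sum fun t _ => hb _).trans ?_
      rw [Finset.sum_const, nsmul_eq_mul, mul_one, fga2_cardB]

/-- From `FGA2_diff`, triangle inequality. -/
theorem FGA2 {d : ℕ} (M L : ℕ) (hM : 1 ≤ M) (hL : 1 ≤ L) (b : Fin d → ℤ) (s : Fin d → ℕ) (hs : ∀ j, L ≤ s j)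
    (f : (Fin d → ℤ) → ℂ) (hf : ∀ t t' : Fin d → ℤ, (∀ j, (M : ℤ) ∣ t j - t' j) → f t = f t')
    (hb : ∀ t, ‖f t‖ ≤ 1) :
    ‖∑ t ∈ tb b s, f t‖ ≤ (tb b s).card * (‖∑ t ∈ B0 d M, f t‖ / (M : ℝ) ^ d + 2 * d * ((M : ℝ) / L)) := by
  have h1 := FGA2_diff M L hM hL b s hs f hf hb
  have h2 : ‖(((tb b s).card : ℂ) / (M : ℂ) ^ d) * ∑ t ∈ B0 d M, f t‖ =
      (tb b s).card * (‖∑ t ∈ B0 d M, f t‖ / (M : ℝ) ^ d) := by
    rw [norm_mul, norm_div, norm_pow, Complex.norm_natCast, Complex.norm_natCast]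
    ring
  have h3 := norm_sub_norm_le (∑ t ∈ tb b s, f t) ((((tb b s).card : ℂ) / (M : ℂ) ^ d) * ∑ t ∈ B0 d M, f t)
  rw [h2] at h3
  rw [mul_add]
  linarith

end Pool.Agent.HUP
end

-- from Lib.HUP.FGA4
section

/-!
# Project HUP, chunk FGA4 (S): from sums over boxes to complete means
-/

open Finset

namespace Pool.Agent.HUP

/-- Proof. `FGA2`: `‖∑_{t ∈ tb b s} F n n' t‖ ≤ card * (x + y)`, `x = ‖∑_{t ∈ B0 d M} F n n' t‖ / M^d`, `y = 2 d M / L`. So the square is at most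
`card² (2 x² + 2 y²)`. Sum over `n`, `n'` with `FGA3` for `x²` (a periodic function of `n`, `n'` by `hF`): at most
`card² (8 H² ms M F + 2 H² y²)`, and the square root is at most `3 card H (√(ms M F) + y)`. -/
theorem FGA4 {d : ℕ} (M L H : ℕ) (hM : 1 ≤ M) (hL : 1 ≤ L) (hMH : M ≤ H) (b : Fin d → ℤ) (s : Fin d → ℕ)
    (hs : ∀ j, L ≤ s j) (F : ℤ → ℤ → (Fin d → ℤ) → ℂ) (hF : Pp M F) (hb : ∀ n n' t, ‖F n n' t‖ ≤ 1) (a : ℕ) :
    Real.sqrt (∑ n ∈ Ico a (a + H), ∑ n' ∈ Ico a (a + H), ‖∑ t ∈ tb b s, F n n' t‖ ^ 2) ≤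
      3 * (tb b s).card * H * (Real.sqrt (ms M F) + 2 * d * ((M : ℝ) / L)) := by
  have hM0 : (0 : ℝ) < M := by exact_mod_cast hM
  have hL0 : (0 : ℝ) < L := by exact_mod_cast hL
  set y : ℝ := 2 * d * ((M : ℝ) / L) with hy
  have hy0 : 0 ≤ y := by positivity
  have hms : 0 ≤ ms M F := by
    rw [ms]
    apply div_nonneg
    · exact Finset.sum_nonneg fun _ _ => Finset.sum_nonneg fun _ _ => by positivity
    · positivity
  have h1 : ∀ n n' : ℤ, ‖∑ t ∈ tb b s, F n n' t‖ ^ 2 ≤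
      ((tb b s).card : ℝ) ^ 2 * (2 * (‖∑ t ∈ B0 d M, F n n' t‖ ^ 2 / ((M : ℝ) ^ d) ^ 2) + 2 * y ^ 2) := by
    intro n n'
    have h := FGA2 M L hM hL b s hs (F n n') (fun t t' ht => hF n n n' n' t t' (by simp) (by simp) ht) (hb n n')
    rw [← hy] at h
    have h2 : ‖∑ t ∈ tb b s, F n n' t‖ ^ 2 ≤ ((tb b s).card * (‖∑ t ∈ B0 d M, F n n' t‖ / (M : ℝ) ^ d + y)) ^ 2 :=
      pow_le_pow_left₀ (norm_nonneg _) h 2
    refine h2.trans ?_
    rw [mul_pow]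
    apply mul_le_mul_of_nonneg_left _ (by positivity)
    rw [← div_pow]
    nlinarith [sq_nonneg (‖∑ t ∈ B0 d M, F n n' t‖ / (M : ℝ) ^ d - y)]
  have h3 : ∑ n ∈ Ico a (a + H), ∑ n' ∈ Ico a (a + H), ‖∑ t ∈ tb b s, F n n' t‖ ^ 2 ≤
      ((tb b s).card : ℝ) ^ 2 * (8 * (H : ℝ) ^ 2 * ms M F + 2 * (H : ℝ) ^ 2 * y ^ 2) := by
    have h4 : ∑ n ∈ Ico a (a + H), ∑ n' ∈ Ico a (a + H), ‖∑ t ∈ tb b s, F n n' t‖ ^ 2 ≤
        ∑ n ∈ Ico a (a + H), ∑ n' ∈ Ico a (a + H), (((tb b s).card : ℝ) ^ 2 *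
          (2 * (‖∑ t ∈ B0 d M, F n n' t‖ ^ 2 / ((M : ℝ) ^ d) ^ 2) + 2 * y ^ 2)) :=
      Finset.sum_le_sum fun n _ => Finset.sum_le_sum fun n' _ => h1 n n'
    refine h4.trans ?_
    have h5 : ∑ n ∈ Ico a (a + H), ∑ n' ∈ Ico a (a + H), (((tb b s).card : ℝ) ^ 2 *
          (2 * (‖∑ t ∈ B0 d M, F n n' t‖ ^ 2 / ((M : ℝ) ^ d) ^ 2) + 2 * y ^ 2)) =
        ((tb b s).card : ℝ) ^ 2 * (2 * ∑ n ∈ Ico a (a + H), ∑ n' ∈ Ico a (a + H),
          ‖∑ t ∈ B0 d M, F n n' t‖ ^ 2 / ((M : ℝ) ^ d) ^ 2 + 2 * (H : ℝ) ^ 2 * y ^ 2) := by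
      simp only [← Finset.mul_sum, Finset.sum_add_distrib, Finset.sum_const, Nat.card_Ico, add_tsub_cancel_left,
        nsmul_eq_mul]
      ring
    rw [h5]
    apply mul_le_mul_of_nonneg_left _ (by positivity)
    apply add_le_add _ le_rfl
    have h6 := FGA3 M H hM hMH (fun n n' => ‖∑ t ∈ B0 d M, F n n' t‖ ^ 2 / ((M : ℝ) ^ d) ^ 2)
      (fun n n' => by positivity)
      (fun n m n' m' hn hn' => by
        have : ∑ t ∈ B0 d M, F n n' t = ∑ t ∈ B0 d M, F m m' t :=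
          Finset.sum_congr rfl fun t _ => hF n m n' m' t t hn hn' (fun j => by simp)
        simp only [this]) a
    have h7 : 4 * (H : ℝ) ^ 2 / (M : ℝ) ^ 2 * ∑ n ∈ Ico (0 : ℤ) M, ∑ n' ∈ Ico (0 : ℤ) M,
        ‖∑ t ∈ B0 d M, F n n' t‖ ^ 2 / ((M : ℝ) ^ d) ^ 2 = 4 * (H : ℝ) ^ 2 * ms M F := by
      rw [ms]
      simp only [← Finset.sum_div]
      field_simp
    rw [h7] at h6
    linarith
  have h8 : Real.sqrt (∑ n ∈ Ico a (a + H), ∑ n' ∈ Ico a (a + H), ‖∑ t ∈ tb b s, F n n' t‖ ^ 2) ≤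
      Real.sqrt ((3 * (tb b s).card * H * (Real.sqrt (ms M F) + y)) ^ 2) := by
    apply Real.sqrt_le_sqrt
    refine h3.trans ?_
    have h9 : Real.sqrt (ms M F) ^ 2 = ms M F := Real.sq_sqrt hms
    have h10 : 0 ≤ Real.sqrt (ms M F) := Real.sqrt_nonneg _
    have h11 : (3 * (tb b s).card * H * (Real.sqrt (ms M F) + y)) ^ 2 =
        ((tb b s).card : ℝ) ^ 2 * (9 * (H : ℝ) ^ 2 * (ms M F + 2 * Real.sqrt (ms M F) * y + y ^ 2)) := by
      rw [← h9]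
      rw [Real.sqrt_sq h10]
      ring
    rw [h11]
    apply mul_le_mul_of_nonneg_left _ (by positivity)
    have h12 : 0 ≤ (H : ℝ) ^ 2 * ms M F := by positivity
    have h13 : 0 ≤ (H : ℝ) ^ 2 * (Real.sqrt (ms M F) * y) := by positivity
    have h14 : 0 ≤ (H : ℝ) ^ 2 * y ^ 2 := by positivity
    nlinarith
  refine h8.trans ?_
  rw [Real.sqrt_sq (by positivity)]

end Pool.Agent.HUP
end

-- from Lib.HUK.A14b
section

/-!
# Project HUK, chunk A14b: elimination of the `k - 1` functions `f 1, …, f (k-1)` for one factor `a`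
-/

open Finset

namespace Pool.Agent.HUK

noncomputable section

/-- The differences of `β` which come out of the elimination; they do not depend on `a`. -/
def bj (k : ℕ) (β : ℤ → ℂ) (j : Fin (k - 1) → ℤ) (b : ℤ) : ℂ :=
  DL (List.ofFn fun i : Fin (k - 1) =>
    j i * (-(((k.factorial / ((i : ℕ) + 1) : ℕ) : ℤ) * ((k : ℤ) - ((i : ℕ) + 1 : ℕ))))) β b

/-- The restriction of `f` to a class modulo `k!`. -/
def frho (k : ℕ) (f : ℤ → ℂ) (ρ : ℕ) : ℤ → ℂ := fun x => f ((ρ : ℤ) + (k.factorial : ℕ) * x)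

theorem DL_shift (l : List ℤ) (F : ℤ → ℂ) (ρ y : ℤ) : DL l (fun y => F (ρ + y)) y = DL l F (ρ + y) := by
  induction l generalizing F with
  | nil => rfl
  | cons h l ih =>
    have h1 : DD h (fun y => F (ρ + y)) = fun y => (DD h F) (ρ + y) := by
      funext z
      simp only [DD, add_assoc]
    rw [DL, h1, ih]
    rfl

theorem DL_frho (k : ℕ) (f : ℤ → ℂ) (ρ : ℕ) {r : ℕ} (u : Fin r → ℤ) (x : ℤ) :
    DL (List.ofFn fun i => (k.factorial : ℤ) * u i) f ((ρ : ℤ) + (k.factorial : ℕ) * x) =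
      DL (List.ofFn u) (frho k f ρ) x := by
  have h1 := DL_comp (AddMonoidHom.mulLeft (k.factorial : ℤ)) (List.ofFn u) (fun y => f ((ρ : ℤ) + y)) x
  rw [List.map_ofFn] at h1
  have h2 : (⇑(AddMonoidHom.mulLeft (k.factorial : ℤ)) ∘ u) = fun i => (k.factorial : ℤ) * u i := by
    funext i
    rfl
  rw [h2] at h1
  have h3 : (AddMonoidHom.mulLeft (k.factorial : ℤ)) x = (k.factorial : ℤ) * x := rfl
  rw [h3, DL_shift] at h1
  exact h1.symm

theorem A14_elim (k : ℕ) (hk : 3 ≤ k) (X K H Nb : ℕ) (hX : 1 ≤ X) (hH : 1 ≤ H) (hNb : 1 ≤ Nb) (hKN : 2 * K * Nb ≤ 4 * X)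
    (hHN : H * (k.factorial * k) ≤ Nb) (hHK : 2 * H * k.factorial * K ≤ X) (a : ℕ) (ha : a ≤ 2 * K)
    (β : ℤ → ℂ) (hβ : ∀ b, b ∉ Icc (1 : ℤ) Nb → β b = 0) (f : ℕ → ℤ → ℂ) (hf : ∀ j, j < k → Bdd X (f j)) :
    (‖∑ b ∈ Icc (1 : ℤ) Nb, β b * Psi X k f ((a : ℤ) * b)‖ / (26 * Nb * X)) ^ (2 ^ (k - 1)) ≤
      2 ^ (2 ^ (k - 1)) / (H : ℝ) ^ (k - 1) * ((∑ j ∈ bxS (k - 1) H, ((WT H j : ℝ) : ℂ) *
        ∑ b ∈ Icc (1 : ℤ) Nb, bj k β j b * ∑ ρ ∈ (range k.factorial).filter (fun ρ : ℕ => (k : ℤ) ∣ (ρ : ℤ) - a * b),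
          FF X (fun i => (a : ℤ) * j i) (frho k (f 0) ρ)).re / (26 * Nb * X)) := by
  set w : Fin (k - 1) → ℕ := fun i => k.factorial / ((i : ℕ) + 1) with hw
  have hwi : ∀ i : Fin (k - 1), w i * ((i : ℕ) + 1) = k.factorial := by
    intro i
    exact Nat.div_mul_cancel (Nat.dvd_factorial (by omega) (by have := i.2; omega))
  have hwle : ∀ i : Fin (k - 1), w i ≤ k.factorial := fun i => Nat.div_le_self _ _
  set v : Fin (k - 1) → ℤ × ℤ := fun i => (-((w i : ℤ) * ((k : ℤ) - ((i : ℕ) + 1 : ℕ))), -((w i : ℤ) * a)) with hv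
  set g : Fin (k - 1) → ℤ × ℤ → ℂ := fun i z => f ((i : ℕ) + 1) (a * z.1 - ((k : ℤ) - ((i : ℕ) + 1 : ℕ)) * z.2) with hg0
  set c : ℤ × ℤ → ℂ := fun z => β z.1 * f 0 (a * z.1 - k * z.2) with hc0
  set B : Finset (ℤ × ℤ) := Icc (1 : ℤ) Nb ×ˢ Ioo (-(6 * X : ℤ)) (6 * X) with hB0
  set B' : Finset (ℤ × ℤ) := Icc (1 : ℤ) (2 * Nb) ×ˢ Ioo (-(6 * X : ℤ)) (7 * X) with hB'0
  have hk0 : (0 : ℤ) < k := by exact_mod_cast (by omega : 0 < k)
  have hXr : (1 : ℝ) ≤ X := by exact_mod_cast hX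
  have hNr : (1 : ℝ) ≤ Nb := by exact_mod_cast hNb
  have hcardB' : (B'.card : ℝ) ≤ 26 * Nb * X := by
    rw [hB'0, card_product, Int.card_Icc, Int.card_Ioo]
    have e1 : (2 * (Nb : ℤ) + 1 - 1).toNat = 2 * Nb := by omega
    have e2 : (7 * (X : ℤ) - -(6 * X) - 1).toNat = 13 * X - 1 := by omega
    rw [e1, e2]
    have e3 : (((2 * Nb * (13 * X - 1) : ℕ)) : ℝ) ≤ ((2 * Nb * (13 * X) : ℕ) : ℝ) := by
      exact_mod_cast Nat.mul_le_mul_left _ (by omega)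
    refine e3.trans (le_of_eq ?_)
    push_cast
    ring
  have hN0 : (0 : ℝ) < 26 * Nb * X := by positivity
  have hg : ∀ i z, ‖g i z‖ ≤ 1 := fun i z => (hf ((i : ℕ) + 1) (by have := i.2; omega)).le _
  have hinv : ∀ i z, g i (z + v i) = g i z := by
    intro i z
    simp only [hg0, hv, Prod.fst_add, Prod.snd_add]
    congr 1
    ring
  have hc : ∀ z, z ∉ B → c z = 0 := by
    intro z hz
    by_contra hne
    apply hz
    have h1 : β z.1 ≠ 0 := fun h0 => hne (by simp only [hc0, h0, zero_mul])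
    have h2 : f 0 (a * z.1 - k * z.2) ≠ 0 := fun h0 => hne (by simp only [hc0, h0, mul_zero])
    have h3 : z.1 ∈ Icc (1 : ℤ) Nb := by
      by_contra hcon
      exact h1 (hβ _ hcon)
    have h4 : a * z.1 - k * z.2 ∈ Ico (-(X : ℤ)) X := by
      by_contra hcon
      exact h2 ((hf 0 (by omega)).sup _ hcon)
    rw [hB0, mem_product]
    refine ⟨h3, ?_⟩
    rw [mem_Icc] at h3
    rw [mem_Ico] at h4
    rw [mem_Ioo]
    have haz : (a : ℤ) * z.1 ≤ 4 * X := by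
      have h5 : (a : ℤ) ≤ 2 * K := by exact_mod_cast ha
      have h6 : (2 : ℤ) * K * Nb ≤ 4 * X := by exact_mod_cast hKN
      have h7 : (a : ℤ) * z.1 ≤ (2 * K) * Nb := mul_le_mul h5 h3.2 (by linarith [h3.1]) (by positivity)
      linarith
    have haz0 : 0 ≤ (a : ℤ) * z.1 := mul_nonneg (by positivity) (by linarith [h3.1])
    have hX' : (1 : ℤ) ≤ X := by exact_mod_cast hX
    have hk1 : (1 : ℤ) ≤ k := hk0
    constructor
    · by_contra hcon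
      push Not at hcon
      nlinarith [h4.1, h4.2]
    · by_contra hcon
      push Not at hcon
      nlinarith [h4.1, h4.2]
  have hB : ∀ i z, ∀ h : ℕ, h < H → z + h • v i ∈ B → z ∈ B' := by
    intro i z h hh hz
    rw [hB0, mem_product, mem_Icc, mem_Ioo] at hz
    have e1 : (z + h • v i).1 = z.1 - h * (w i * ((k : ℤ) - ((i : ℕ) + 1 : ℕ))) := by
      rw [Prod.fst_add, Prod.smul_fst, nsmul_eq_mul]
      simp only [hv]
      ring
    have e2 : (z + h • v i).2 = z.2 - h * (w i * a) := by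
      rw [Prod.snd_add, Prod.smul_snd, nsmul_eq_mul]
      simp only [hv]
      ring
    rw [e1, e2] at hz
    have hi := i.2
    have hik : (0 : ℤ) ≤ (k : ℤ) - ((i : ℕ) + 1 : ℕ) := by
      push_cast
      omega
    have hik2 : (k : ℤ) - ((i : ℕ) + 1 : ℕ) ≤ k := by
      push_cast
      omega
    have hh' : (h : ℤ) ≤ H := by exact_mod_cast hh.le
    have hw' : (w i : ℤ) ≤ (k.factorial : ℕ) := by exact_mod_cast hwle i
    have s1 : (h : ℤ) * (w i * ((k : ℤ) - ((i : ℕ) + 1 : ℕ))) ≤ Nb := by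
      have h1 : (w i : ℤ) * ((k : ℤ) - ((i : ℕ) + 1 : ℕ)) ≤ (k.factorial : ℕ) * k :=
        mul_le_mul hw' hik2 hik (by positivity)
      have h2 : (h : ℤ) * (w i * ((k : ℤ) - ((i : ℕ) + 1 : ℕ))) ≤ H * ((k.factorial : ℕ) * k) :=
        mul_le_mul hh' h1 (mul_nonneg (by positivity) hik) (by positivity)
      have h3 : (H : ℤ) * ((k.factorial : ℕ) * k) ≤ Nb := by exact_mod_cast hHN
      linarith
    have s1' : 0 ≤ (h : ℤ) * (w i * ((k : ℤ) - ((i : ℕ) + 1 : ℕ))) :=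
      mul_nonneg (by positivity) (mul_nonneg (by positivity) hik)
    have s2 : (h : ℤ) * (w i * a) ≤ X := by
      have ha' : (a : ℤ) ≤ 2 * K := by exact_mod_cast ha
      have h1 : (w i : ℤ) * a ≤ (k.factorial : ℕ) * (2 * K) := mul_le_mul hw' ha' (by positivity) (by positivity)
      have h2 : (h : ℤ) * (w i * a) ≤ H * ((k.factorial : ℕ) * (2 * K)) :=
        mul_le_mul hh' h1 (by positivity) (by positivity)
      have h3 : (2 : ℤ) * H * (k.factorial : ℕ) * K ≤ X := by exact_mod_cast hHK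
      linarith
    have s2' : 0 ≤ (h : ℤ) * (w i * a) := by positivity
    rw [hB'0, mem_product, mem_Icc, mem_Ioo]
    refine ⟨⟨by linarith [hz.1.1], by linarith [hz.1.2]⟩, by linarith [hz.2.1], by linarith [hz.2.2]⟩
  have key := E2_elim B B' (26 * Nb * X) hcardB' hN0 H hH (k - 1) (by omega) v g c hg hinv hc hB
  have hL : ∑ z ∈ B, (∏ i, g i z) * c z = ∑ b ∈ Icc (1 : ℤ) Nb, β b * Psi X k f ((a : ℤ) * b) := by
    rw [hB0, Finset.sum_product]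
    refine Finset.sum_congr rfl fun b _ => ?_
    rw [A14_psi X k hk f hf, Finset.mul_sum]
    refine Finset.sum_congr rfl fun h _ => ?_
    simp only [hg0, hc0]
    ring
  have hR : ∀ j : Fin (k - 1) → ℤ, ∑ z ∈ B, DL (List.ofFn fun i => j i • v i) c z =
      ∑ b ∈ Icc (1 : ℤ) Nb, bj k β j b * ∑ ρ ∈ (range k.factorial).filter (fun ρ : ℕ => (k : ℤ) ∣ (ρ : ℤ) - a * b),
          FF X (fun i => (a : ℤ) * j i) (frho k (f 0) ρ) := by
    intro j
    set l := List.ofFn fun i => j i • v i with hl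
    have h1 : ∀ z : ℤ × ℤ, DL l c z = bj k β j z.1 *
        DL (List.ofFn fun i => (k.factorial : ℤ) * (a * j i)) (f 0) (a * z.1 - k * z.2) := by
      intro z
      have h2 : c = fun z => (fun z : ℤ × ℤ => β ((AddMonoidHom.fst ℤ ℤ) z)) z *
          (fun z : ℤ × ℤ => f 0 (((AddMonoidHom.mulLeft (a : ℤ)).comp (AddMonoidHom.fst ℤ ℤ) -
            (AddMonoidHom.mulLeft (k : ℤ)).comp (AddMonoidHom.snd ℤ ℤ)) z)) z := by
        funext z
        rfl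
      rw [h2, DL_mul]
      simp only
      rw [DL_comp, DL_comp, hl, List.map_ofFn, List.map_ofFn]
      have hb1 : DL (List.ofFn (⇑(AddMonoidHom.fst ℤ ℤ) ∘ fun i => j i • v i)) β ((AddMonoidHom.fst ℤ ℤ) z) = bj k β j z.1 := rfl
      rw [hb1]
      congr 1
      have e : (⇑((AddMonoidHom.mulLeft (a : ℤ)).comp (AddMonoidHom.fst ℤ ℤ) -
          (AddMonoidHom.mulLeft (k : ℤ)).comp (AddMonoidHom.snd ℤ ℤ)) ∘ fun i => j i • v i) =
          fun i : Fin (k - 1) => (k.factorial : ℤ) * (a * j i) := by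
        funext i
        have e1 : (w i : ℤ) * ((i : ℕ) + 1 : ℕ) = (k.factorial : ℕ) := by exact_mod_cast hwi i
        have e2 : (⇑((AddMonoidHom.mulLeft (a : ℤ)).comp (AddMonoidHom.fst ℤ ℤ) -
          (AddMonoidHom.mulLeft (k : ℤ)).comp (AddMonoidHom.snd ℤ ℤ)) ∘ fun i => j i • v i) i =
            a * (j i * (-((w i : ℤ) * ((k : ℤ) - ((i : ℕ) + 1 : ℕ))))) - k * (j i * (-((w i : ℤ) * a))) := rfl
        rw [e2, ← e1]
        ring
      rw [e]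
      rfl
    have h3 : ∀ b ∈ Icc (1 : ℤ) Nb, ∑ h ∈ Ioo (-(6 * X : ℤ)) (6 * X), DL l c (b, h) =
        bj k β j b * ∑ ρ ∈ (range k.factorial).filter (fun ρ : ℕ => (k : ℤ) ∣ (ρ : ℤ) - a * b),
          FF X (fun i => (a : ℤ) * j i) (frho k (f 0) ρ) := by
      intro b hb
      rw [mem_Icc] at hb
      have h4 : ∀ h : ℤ, DL l c (b, h) = bj k β j b *
          DL (List.ofFn fun i => (k.factorial : ℤ) * (a * j i)) (f 0) (a * b - k * h) := fun h => h1 (b, h)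
      simp only [h4]
      rw [← Finset.mul_sum]
      congr 1
      have haz : (a : ℤ) * b ≤ 4 * X := by
        have h5 : (a : ℤ) ≤ 2 * K := by exact_mod_cast ha
        have h6 : (2 : ℤ) * K * Nb ≤ 4 * X := by exact_mod_cast hKN
        have h7 : (a : ℤ) * b ≤ (2 * K) * Nb := mul_le_mul h5 hb.2 (by linarith [hb.1]) (by positivity)
        linarith
      have haz0 : 0 ≤ (a : ℤ) * b := mul_nonneg (by positivity) (by linarith [hb.1])
      rw [A14_hsum X k k.factorial (by omega) (Nat.factorial_pos k) (Nat.dvd_factorial (by omega) le_rfl) _ haz0 haz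
        (DL (List.ofFn fun i => (k.factorial : ℤ) * (a * j i)) (f 0))
        (fun y hy => DL_supp _ _ _ ((hf 0 (by omega)).sup y hy))]
      refine Finset.sum_congr rfl fun ρ _ => ?_
      unfold FF DV
      refine Finset.sum_congr rfl fun x _ => ?_
      exact DL_frho k (f 0) ρ (fun i => (a : ℤ) * j i) x
    rw [hB0, Finset.sum_product]
    exact Finset.sum_congr rfl h3
  rw [hL] at key
  simp only [hR] at key
  exact key

end

end Pool.Agent.HUK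
end

-- from Lib.HUK.A15
section

/-!
# Project HUK, chunk A15: all factors `a ∈ (K, 2K]`, classes modulo `k`, Cauchy-Schwarz over the differences
-/

open Finset

namespace Pool.Agent.HUK

theorem A15_fw (M : ℕ) (t : ℤ) : 0 ≤ fw M t ∧ fw M t ≤ 1 := by
  unfold fw
  refine ⟨le_max_left _ _, max_le zero_le_one ?_⟩
  have : 0 ≤ |(t : ℝ)| / M := by positivity
  linarith

theorem A15_WT (H : ℕ) {r : ℕ} (j : Fin r → ℤ) : ‖((WT H j : ℝ) : ℂ)‖ ≤ 1 := by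
  rw [Complex.norm_real, Real.norm_eq_abs]
  have h0 : 0 ≤ WT H j := Finset.prod_nonneg fun i _ => pow_nonneg (A15_fw _ _).1 _
  rw [abs_of_nonneg h0]
  exact Finset.prod_le_one (fun i _ => pow_nonneg (A15_fw _ _).1 _)
    fun i _ => pow_le_one₀ (A15_fw _ _).1 (A15_fw _ _).2

/-- The sum over `a` of the right sides of `A14_elim`. -/
theorem A15_swap (k : ℕ) (hk : 3 ≤ k) (X K H Nb : ℕ) (β : ℤ → ℂ) (R : ℝ) (hR : 0 ≤ R) (hβR : ∀ b, ‖β b‖ ≤ R) (f : ℤ → ℂ) :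
    ‖∑ a ∈ Ioc K (2 * K), ∑ j ∈ bxS (k - 1) H, ((WT H j : ℝ) : ℂ) *
        ∑ b ∈ Icc (1 : ℤ) Nb, bj k β j b * ∑ ρ ∈ (range k.factorial).filter (fun ρ : ℕ => (k : ℤ) ∣ (ρ : ℤ) - a * b),
          FF X (fun i => (a : ℤ) * j i) (frho k f ρ)‖ ≤
      Nb * R ^ (2 ^ (k - 1)) * ∑ a0 ∈ range k, ∑ ρ ∈ range k.factorial, ∑ j ∈ bxS (k - 1) H,
        ‖∑ a ∈ (Ioc K (2 * K)).filter (fun a => a % k = a0), FF X (fun i => (a : ℤ) * j i) (frho k f ρ)‖ := by
  have hk0 : 0 < k := by omega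
  have hbj : ∀ j b, ‖bj k β j b‖ ≤ R ^ (2 ^ (k - 1)) := by
    intro j b
    have h := DL_norm_le (List.ofFn fun i : Fin (k - 1) =>
      j i * (-(((k.factorial / ((i : ℕ) + 1) : ℕ) : ℤ) * ((k : ℤ) - ((i : ℕ) + 1 : ℕ))))) β R hR hβR b
    rw [List.length_ofFn] at h
    exact h
  have h1 : ∀ j : Fin (k - 1) → ℤ, ∑ a ∈ Ioc K (2 * K), ((WT H j : ℝ) : ℂ) *
        ∑ b ∈ Icc (1 : ℤ) Nb, bj k β j b * ∑ ρ ∈ (range k.factorial).filter (fun ρ : ℕ => (k : ℤ) ∣ (ρ : ℤ) - a * b),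
          FF X (fun i => (a : ℤ) * j i) (frho k f ρ) =
      ((WT H j : ℝ) : ℂ) * ∑ a0 ∈ range k, ∑ ρ ∈ range k.factorial,
        (∑ b ∈ (Icc (1 : ℤ) Nb).filter (fun b => (k : ℤ) ∣ (ρ : ℤ) - a0 * b), bj k β j b) *
        ∑ a ∈ (Ioc K (2 * K)).filter (fun a => a % k = a0), FF X (fun i => (a : ℤ) * j i) (frho k f ρ) := by
    intro j
    rw [← Finset.mul_sum]
    congr 1
    have h2 : ∀ a0 ∈ range k, ∑ a ∈ (Ioc K (2 * K)).filter (fun a => a % k = a0),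
        ∑ b ∈ Icc (1 : ℤ) Nb, bj k β j b * ∑ ρ ∈ (range k.factorial).filter (fun ρ : ℕ => (k : ℤ) ∣ (ρ : ℤ) - a * b),
          FF X (fun i => (a : ℤ) * j i) (frho k f ρ) = ∑ ρ ∈ range k.factorial,
        (∑ b ∈ (Icc (1 : ℤ) Nb).filter (fun b => (k : ℤ) ∣ (ρ : ℤ) - a0 * b), bj k β j b) *
        ∑ a ∈ (Ioc K (2 * K)).filter (fun a => a % k = a0), FF X (fun i => (a : ℤ) * j i) (frho k f ρ) := by
      intro a0 _
      have h3 : ∀ a ∈ (Ioc K (2 * K)).filter (fun a => a % k = a0),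
          ∑ b ∈ Icc (1 : ℤ) Nb, bj k β j b *
            ∑ ρ ∈ (range k.factorial).filter (fun ρ : ℕ => (k : ℤ) ∣ (ρ : ℤ) - a * b),
              FF X (fun i => (a : ℤ) * j i) (frho k f ρ) =
          ∑ ρ ∈ range k.factorial, (∑ b ∈ (Icc (1 : ℤ) Nb).filter (fun b => (k : ℤ) ∣ (ρ : ℤ) - a0 * b), bj k β j b) *
            FF X (fun i => (a : ℤ) * j i) (frho k f ρ) := by
        intro a ha
        rw [mem_filter] at ha
        have hdvd : ∀ (ρ : ℕ) (b : ℤ), ((k : ℤ) ∣ (ρ : ℤ) - a * b) ↔ ((k : ℤ) ∣ (ρ : ℤ) - a0 * b) := by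
          intro ρ b
          have h4 : (k : ℤ) ∣ ((a : ℤ) - a0) * b := by
            have h5 : ((a : ℤ)) - a0 = k * ((a / k : ℕ) : ℤ) := by
              have h6 := Nat.mod_add_div a k
              rw [ha.2] at h6
              have h7 : (a : ℤ) = a0 + k * ((a / k : ℕ) : ℤ) := by
                rw [← Nat.cast_mul, ← Nat.cast_add, h6]
              rw [h7]
              ring
            rw [h5]
            exact ⟨((a / k : ℕ) : ℤ) * b, by ring⟩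
          have h8 : (ρ : ℤ) - a0 * b = (ρ - a * b) + (a - a0) * b := by ring
          rw [h8]
          exact (dvd_add_left h4).symm
        simp only [Finset.sum_filter, hdvd, Finset.mul_sum, Finset.sum_mul]
        rw [Finset.sum_comm]
        refine Finset.sum_congr rfl fun ρ _ => Finset.sum_congr rfl fun b _ => ?_
        split_ifs <;> simp
      rw [Finset.sum_congr rfl h3, Finset.sum_comm]
      refine Finset.sum_congr rfl fun ρ _ => ?_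
      rw [Finset.mul_sum]
    rw [← Finset.sum_congr rfl h2]
    symm
    refine Finset.sum_fiberwise_of_maps_to (fun a _ => ?_) _
    rw [mem_range]
    exact Nat.mod_lt _ hk0
  rw [Finset.sum_comm, Finset.sum_congr rfl fun j _ => h1 j]
  have h4 : ∀ j ∈ bxS (k - 1) H, ‖((WT H j : ℝ) : ℂ) * ∑ a0 ∈ range k, ∑ ρ ∈ range k.factorial,
        (∑ b ∈ (Icc (1 : ℤ) Nb).filter (fun b => (k : ℤ) ∣ (ρ : ℤ) - a0 * b), bj k β j b) *
        ∑ a ∈ (Ioc K (2 * K)).filter (fun a => a % k = a0), FF X (fun i => (a : ℤ) * j i) (frho k f ρ)‖ ≤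
      ∑ a0 ∈ range k, ∑ ρ ∈ range k.factorial, (Nb * R ^ (2 ^ (k - 1))) *
        ‖∑ a ∈ (Ioc K (2 * K)).filter (fun a => a % k = a0), FF X (fun i => (a : ℤ) * j i) (frho k f ρ)‖ := by
    intro j _
    rw [norm_mul]
    refine (mul_le_of_le_one_left (norm_nonneg _) (A15_WT H j)).trans ?_
    refine (norm_sum_le _ _).trans (Finset.sum_le_sum fun a0 _ => ?_)
    refine (norm_sum_le _ _).trans (Finset.sum_le_sum fun ρ _ => ?_)
    rw [norm_mul]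
    refine mul_le_mul_of_nonneg_right ?_ (norm_nonneg _)
    refine (norm_sum_le _ _).trans ((Finset.sum_le_card_nsmul _ _ _ fun b _ => hbj j b).trans ?_)
    rw [nsmul_eq_mul]
    refine mul_le_mul_of_nonneg_right ?_ (by positivity)
    have h5 := Finset.card_filter_le (Icc (1 : ℤ) Nb) (fun b => (k : ℤ) ∣ (ρ : ℤ) - a0 * b)
    have h6 : (Icc (1 : ℤ) Nb).card = Nb := by
      rw [Int.card_Icc]
      omega
    rw [h6] at h5
    exact_mod_cast h5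
  refine (norm_sum_le _ _).trans ((Finset.sum_le_sum h4).trans (le_of_eq ?_))
  simp only [← Finset.mul_sum]
  congr 1
  rw [Finset.sum_comm]
  refine Finset.sum_congr rfl fun a0 _ => ?_
  rw [Finset.sum_comm]

/-- All `a ∈ (K, 2K]`. -/
theorem A15_block (k : ℕ) (hk : 3 ≤ k) (X K H Nb : ℕ) (hX : 1 ≤ X) (hK : 1 ≤ K) (hH : 1 ≤ H) (hNb : 1 ≤ Nb)
    (hKN : 2 * K * Nb ≤ 4 * X) (hHN : H * (k.factorial * k) ≤ Nb) (hHK : 2 * H * k.factorial * K ≤ X)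
    (β : ℤ → ℂ) (hβ : ∀ b, b ∉ Icc (1 : ℤ) Nb → β b = 0) (R : ℝ) (hR : 0 ≤ R) (hβR : ∀ b, ‖β b‖ ≤ R)
    (f : ℕ → ℤ → ℂ) (hf : ∀ j, j < k → Bdd X (f j)) (η : ℝ) (hη : 0 ≤ η)
    (hS : ∀ a0 ρ : ℕ, a0 < k → ρ < k.factorial → ∑ j ∈ bxS (k - 1) H,
      ‖∑ a ∈ (Ioc K (2 * K)).filter (fun a => a % k = a0), FF X (fun i => (a : ℤ) * j i) (frho k (f 0) ρ)‖ ^ 2 ≤
        η ^ 2 * ((H : ℝ) ^ (k - 1) * ((K : ℝ) * X) ^ 2)) :
    (∑ a ∈ Ioc K (2 * K), ‖∑ b ∈ Icc (1 : ℤ) Nb, β b * Psi X k f ((a : ℤ) * b)‖ / (26 * Nb * X)) ^ (2 ^ (k - 1)) ≤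
      (2 ^ (2 ^ (k - 1)) * (k * k.factorial) * 2 ^ (k - 1)) * (K * R) ^ (2 ^ (k - 1)) * η := by
  obtain ⟨P, hP⟩ : ∃ P, 2 ^ (k - 1) = P + 1 := ⟨2 ^ (k - 1) - 1, by have := Nat.one_le_two_pow (n := k - 1); omega⟩
  have hXr : (1 : ℝ) ≤ X := by exact_mod_cast hX
  have hKr : (1 : ℝ) ≤ K := by exact_mod_cast hK
  have hHr : (1 : ℝ) ≤ H := by exact_mod_cast hH
  have hNr : (1 : ℝ) ≤ Nb := by exact_mod_cast hNb
  have hHp : (0 : ℝ) < (H : ℝ) ^ (k - 1) := by positivity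
  set E : ℕ → ℂ := fun a => ∑ j ∈ bxS (k - 1) H, ((WT H j : ℝ) : ℂ) *
        ∑ b ∈ Icc (1 : ℤ) Nb, bj k β j b * ∑ ρ ∈ (range k.factorial).filter (fun ρ : ℕ => (k : ℤ) ∣ (ρ : ℤ) - a * b),
          FF X (fun i => (a : ℤ) * j i) (frho k (f 0) ρ) with hE
  set x : ℕ → ℝ := fun a => ‖∑ b ∈ Icc (1 : ℤ) Nb, β b * Psi X k f ((a : ℤ) * b)‖ / (26 * Nb * X) with hx
  have h1 : ∀ a ∈ Ioc K (2 * K), x a ^ (P + 1) ≤ 2 ^ (P + 1) / (H : ℝ) ^ (k - 1) * ((E a).re / (26 * Nb * X)) := by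
    intro a ha
    rw [mem_Ioc] at ha
    have h := A14_elim k hk X K H Nb hX hH hNb hKN hHN hHK a ha.2 β hβ f hf
    rw [hP] at h
    exact h
  have hx0 : ∀ a ∈ Ioc K (2 * K), 0 ≤ x a := fun a _ => by positivity
  have hcs : ∀ a0 ρ : ℕ, a0 < k → ρ < k.factorial → ∑ j ∈ bxS (k - 1) H,
      ‖∑ a ∈ (Ioc K (2 * K)).filter (fun a => a % k = a0), FF X (fun i => (a : ℤ) * j i) (frho k (f 0) ρ)‖ ≤
        2 ^ (k - 1) * η * (H : ℝ) ^ (k - 1) * (K * X) := by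
    intro a0 ρ ha0 hρ
    have h2 := Finset.sum_mul_sq_le_sq_mul_sq (bxS (k - 1) H) (fun _ => (1 : ℝ)) (fun j =>
      ‖∑ a ∈ (Ioc K (2 * K)).filter (fun a => a % k = a0), FF X (fun i => (a : ℤ) * j i) (frho k (f 0) ρ)‖)
    simp only [one_mul, one_pow, Finset.sum_const, nsmul_eq_mul, mul_one] at h2
    have h3 := hS a0 ρ ha0 hρ
    have h4 := bxS_card (k - 1) H
    have h5 : (∑ j ∈ bxS (k - 1) H,
      ‖∑ a ∈ (Ioc K (2 * K)).filter (fun a => a % k = a0), FF X (fun i => (a : ℤ) * j i) (frho k (f 0) ρ)‖) ^ 2 ≤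
        (2 ^ (k - 1) * η * (H : ℝ) ^ (k - 1) * (K * X)) ^ 2 := by
      refine h2.trans ((mul_le_mul h4 h3 (Finset.sum_nonneg fun _ _ => by positivity) (by positivity)).trans ?_)
      have h6 : (1 : ℝ) ≤ 2 ^ (k - 1) := one_le_pow₀ (by norm_num)
      have h7 : (2 * (H : ℝ)) ^ (k - 1) * (η ^ 2 * ((H : ℝ) ^ (k - 1) * ((K : ℝ) * X) ^ 2)) =
          2 ^ (k - 1) * (η * (H : ℝ) ^ (k - 1) * (K * X)) ^ 2 := by
        rw [mul_pow]
        ring
      have h8 : (2 ^ (k - 1) * η * (H : ℝ) ^ (k - 1) * (K * X)) ^ 2 =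
          (2 ^ (k - 1)) ^ 2 * (η * (H : ℝ) ^ (k - 1) * (K * X)) ^ 2 := by ring
      rw [h7, h8]
      refine mul_le_mul_of_nonneg_right ?_ (by positivity)
      nlinarith
    exact le_of_sq_le_sq h5 (by positivity)
  have hsum : ‖∑ a ∈ Ioc K (2 * K), E a‖ ≤
      Nb * R ^ (P + 1) * ((k * k.factorial) * (2 ^ (k - 1) * η * (H : ℝ) ^ (k - 1) * (K * X))) := by
    have h2 := A15_swap k hk X K H Nb β R hR hβR (f 0)
    rw [hP] at h2
    refine h2.trans (mul_le_mul_of_nonneg_left ?_ (by positivity))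
    have h3 : ∀ a0 ∈ range k, ∑ ρ ∈ range k.factorial, ∑ j ∈ bxS (k - 1) H,
        ‖∑ a ∈ (Ioc K (2 * K)).filter (fun a => a % k = a0), FF X (fun i => (a : ℤ) * j i) (frho k (f 0) ρ)‖ ≤
        k.factorial * (2 ^ (k - 1) * η * (H : ℝ) ^ (k - 1) * (K * X)) := by
      intro a0 ha0
      have h4 := Finset.sum_le_card_nsmul (range k.factorial) _ _ fun ρ hρ => hcs a0 ρ (mem_range.1 ha0) (mem_range.1 hρ)
      rw [card_range, nsmul_eq_mul] at h4
      exact h4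
    have h5 := Finset.sum_le_card_nsmul (range k) _ _ h3
    rw [card_range, nsmul_eq_mul] at h5
    rw [mul_assoc (k : ℝ)]
    exact h5
  have hcard : (Ioc K (2 * K)).card = K := by
    rw [Nat.card_Ioc]
    omega
  have h2 : (∑ a ∈ Ioc K (2 * K), x a) ^ (P + 1) ≤ (K : ℝ) ^ P * ∑ a ∈ Ioc K (2 * K), x a ^ (P + 1) := by
    have h := pow_sum_div_card_le_sum_pow (s := Ioc K (2 * K)) (f := x) hx0 P
    rw [hcard, div_le_iff₀ (by positivity)] at h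
    linarith
  have h3 : ∑ a ∈ Ioc K (2 * K), x a ^ (P + 1) ≤
      2 ^ (P + 1) / (H : ℝ) ^ (k - 1) * (‖∑ a ∈ Ioc K (2 * K), E a‖ / (26 * Nb * X)) := by
    refine (Finset.sum_le_sum h1).trans ?_
    rw [← Finset.mul_sum, ← Finset.sum_div, ← Complex.re_sum]
    refine mul_le_mul_of_nonneg_left ?_ (by positivity)
    exact div_le_div_of_nonneg_right (Complex.re_le_norm _) (by positivity)
  rw [hP]
  refine h2.trans ?_
  have h4 : ‖∑ a ∈ Ioc K (2 * K), E a‖ / (26 * Nb * X) ≤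
      R ^ (P + 1) * ((k * k.factorial) * (2 ^ (k - 1) * η * (H : ℝ) ^ (k - 1) * K)) := by
    rw [div_le_iff₀ (by positivity)]
    refine hsum.trans ?_
    have h5 : 0 ≤ R ^ (P + 1) * ((k * k.factorial) * (2 ^ (k - 1) * η * (H : ℝ) ^ (k - 1) * K)) * (Nb * X) := by positivity
    nlinarith [h5]
  have h5 : (K : ℝ) ^ P * (2 ^ (P + 1) / (H : ℝ) ^ (k - 1) *
      (R ^ (P + 1) * ((k * k.factorial) * (2 ^ (k - 1) * η * (H : ℝ) ^ (k - 1) * K)))) =
      2 ^ (P + 1) * (k * k.factorial) * 2 ^ (k - 1) * (K * R) ^ (P + 1) * η := by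
    field_simp
    ring
  rw [← h5]
  refine mul_le_mul_of_nonneg_left (h3.trans ?_) (by positivity)
  exact mul_le_mul_of_nonneg_left h4 (by positivity)

end Pool.Agent.HUK
end

-- from Lib.HUK.A16a
section

/-!
# Project HUK, chunk A16a: one dyadic interval
-/

open Finset

namespace Pool.Agent.HUK

theorem A16_one (n : ℕ) (hn : 1 ≤ n) (C : ℕ)
    (hstar : ∀ δ : ℝ, 0 < δ → δ ≤ 1 / 2 → ∀ X K H : ℕ, (1 / δ) ^ C ≤ K →
      (1 / δ) ^ C * (K : ℝ) ^ (2 ^ 2 ^ n) ≤ X → δ * X ≤ K * H → 16 * n * K * H ≤ X → 1 ≤ H →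
      (∀ m : ℕ, 1 ≤ m → m ≤ X → (m.divisors.card : ℝ) ≤ 1 / δ) → ∀ 𝒜 : Finset ℕ, 𝒜 ⊆ Ioc K (2 * K) →
      ∀ f : ℤ → ℂ, Bdd X f →
      δ * ((H : ℝ) ^ (n + 1) * ((K : ℝ) * X) ^ 2) ≤ ∑ t ∈ bxS (n + 1) H, ‖∑ a ∈ 𝒜, FF X (fun i => (a : ℤ) * t i) f‖ ^ 2 →
      δ ^ C * (X : ℝ) ^ (n + 2) ≤ GG X (n + 1) f)
    (δ Z : ℝ) (hδ : 0 < δ) (hδ2 : δ ≤ 1 / 2) (hZ : 0 ≤ Z) (hZδ : Z ^ (2 ^ (n + 2)) = δ) (X K : ℕ) (hX : 1 ≤ X)
    (hK : 1 ≤ K) (h1 : (1 / δ) ^ C ≤ K) (h2 : (1 / δ) ^ C * (K : ℝ) ^ (2 ^ 2 ^ n) ≤ X)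
    (h3 : 2 * (16 * (n + 2) * (n + 2).factorial) * K ≤ X) (h4 : δ * (2 * (16 * (n + 2) * (n + 2).factorial)) ≤ 1)
    (hdiv : ∀ m : ℕ, 1 ≤ m → m ≤ X → (m.divisors.card : ℝ) ≤ 1 / δ) (β : ℕ → ℂ) (R : ℝ) (hR : 0 ≤ R)
    (hβR : ∀ b, ‖β b‖ ≤ R) (f : ℕ → ℤ → ℂ) (hf : ∀ j, j < n + 2 → Bdd X (f j))
    (hG : GG X (n + 1) (f 0) < δ ^ C * (X : ℝ) ^ (n + 2)) :
    ∑ a ∈ Ioc K (2 * K), ‖∑ b ∈ Icc 1 (2 * (n + 2) * X), β b * Psi X (n + 2) f ((a : ℤ) * (b : ℕ))‖ ≤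
      52 * (X : ℝ) ^ 2 * ((2 ^ (2 ^ (n + 1)) * (((n + 2 : ℕ) : ℝ) * (n + 2).factorial) * 2 ^ (n + 1)) * R * Z) := by
  have hk3 : 3 ≤ n + 2 := by omega
  set c0 : ℕ := 16 * (n + 2) * (n + 2).factorial with hc0
  have hfac : 1 ≤ (n + 2).factorial := Nat.factorial_pos _
  have hc0p : 1 ≤ c0 := by
    rw [hc0]
    exact Nat.mul_pos (by omega) hfac
  set H : ℕ := X / (c0 * K) with hH
  set Nb : ℕ := 2 * X / K with hNb
  have hc0K : 0 < c0 * K := Nat.mul_pos hc0p hK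
  have hHle : H * (c0 * K) ≤ X := Nat.div_mul_le_self _ _
  have hHlt : X < (H + 1) * (c0 * K) := by
    rw [mul_comm]
    exact Nat.lt_mul_div_succ X hc0K
  have hH1 : 1 ≤ H := by
    rw [hH, Nat.one_le_div_iff hc0K]
    have : 2 * c0 * K = 2 * (c0 * K) := by ring
    omega
  have hNble : Nb * K ≤ 2 * X := Nat.div_mul_le_self _ _
  have hKN : 2 * K * Nb ≤ 4 * X := by nlinarith
  have hHN : H * ((n + 2).factorial * (n + 2)) ≤ Nb := by
    rw [hNb, Nat.le_div_iff_mul_le hK]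
    have e : H * (c0 * K) = 16 * (H * ((n + 2).factorial * (n + 2)) * K) := by
      rw [hc0]
      ring
    omega
  have hHK : 2 * H * (n + 2).factorial * K ≤ X := by
    have e : H * (c0 * K) = (8 * (n + 2)) * (2 * H * (n + 2).factorial * K) := by
      rw [hc0]
      ring
    have h5 : 1 * (2 * H * (n + 2).factorial * K) ≤ (8 * (n + 2)) * (2 * H * (n + 2).factorial * K) :=
      Nat.mul_le_mul_right _ (by omega)
    omega
  have h16 : 16 * n * K * H ≤ X := by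
    have h5 : 16 * n * K * H ≤ H * (c0 * K) := by
      have e : H * (c0 * K) = 16 * (n + 2) * K * H * (n + 2).factorial := by
        rw [hc0]
        ring
      rw [e]
      calc 16 * n * K * H ≤ 16 * (n + 2) * K * H := by gcongr; omega
        _ = 16 * (n + 2) * K * H * 1 := by ring
        _ ≤ _ := Nat.mul_le_mul_left _ hfac
    omega
  have hNb1 : 1 ≤ Nb := by
    refine le_trans ?_ hHN
    exact Nat.mul_pos hH1 (Nat.mul_pos hfac (by omega))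
  have hXr : (1 : ℝ) ≤ X := by exact_mod_cast hX
  have hKr : (1 : ℝ) ≤ K := by exact_mod_cast hK
  have hc0r : (1 : ℝ) ≤ c0 := by exact_mod_cast hc0p
  have hKH : δ * X ≤ K * H := by
    have h5 : (X : ℝ) ≤ (H + 1) * (c0 * K) := by exact_mod_cast hHlt.le
    have h6 : (2 : ℝ) * c0 * K ≤ X := by exact_mod_cast h3
    have h7 : (X : ℝ) ≤ 2 * c0 * (K * H) := by nlinarith
    have h8 : δ * (2 * (c0 : ℝ)) ≤ 1 := by
      rw [hc0]
      push_cast
      exact h4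
    calc δ * X ≤ δ * (2 * c0 * (K * H)) := mul_le_mul_of_nonneg_left h7 hδ.le
      _ = (δ * (2 * c0)) * (K * H) := by ring
      _ ≤ 1 * (K * H) := mul_le_mul_of_nonneg_right h8 (by positivity)
      _ = K * H := one_mul _
  -- the weights on `ℤ`
  set β' : ℤ → ℂ := fun b => if b ∈ Icc (1 : ℤ) Nb then β b.toNat else 0 with hβ'
  have hβ0 : ∀ b, b ∉ Icc (1 : ℤ) Nb → β' b = 0 := fun b hb => if_neg hb
  have hβ'R : ∀ b, ‖β' b‖ ≤ R := by
    intro b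
    simp only [hβ']
    split_ifs
    · exact hβR _
    · simpa using hR
  have hS : ∀ a0 ρ : ℕ, a0 < n + 2 → ρ < (n + 2).factorial → ∑ j ∈ bxS (n + 2 - 1) H,
      ‖∑ a ∈ (Ioc K (2 * K)).filter (fun a => a % (n + 2) = a0),
        FF X (fun i => (a : ℤ) * j i) (frho (n + 2) (f 0) ρ)‖ ^ 2 ≤
        (Z ^ (2 ^ (n + 1))) ^ 2 * ((H : ℝ) ^ (n + 2 - 1) * ((K : ℝ) * X) ^ 2) := by
    intro a0 ρ _ hρ
    have e : (Z ^ (2 ^ (n + 1))) ^ 2 = δ := by
      rw [← pow_mul, ← hZδ]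
      congr 1
    rw [e]
    by_contra hcon
    push Not at hcon
    have hdil := V1_dil X (n + 1) (n + 2).factorial hX (by omega) hfac (ρ : ℤ) (by positivity) (by exact_mod_cast hρ)
      (f 0) (hf 0 (by omega))
    have hstar' := hstar δ hδ hδ2 X K H h1 h2 hKH h16 hH1 hdiv _ (Finset.filter_subset _ _)
      (frho (n + 2) (f 0) ρ) hdil.1 hcon.le
    have hres := V1_res X (n + 1) (n + 2).factorial (by omega) hfac (ρ : ℤ) (f 0) (hf 0 (by omega)).sup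
    have : GG X (n + 1) (frho (n + 2) (f 0) ρ) ≤ GG X (n + 1) (f 0) := by
      refine (le_of_eq hdil.2).trans hres
    linarith
  have hblk := A15_block (n + 2) hk3 X K H Nb hX hK hH1 hNb1 hKN hHN hHK β' hβ0 R hR hβ'R f hf (Z ^ (2 ^ (n + 1)))
    (by positivity) hS
  have hP : n + 2 - 1 = n + 1 := rfl
  rw [hP] at hblk
  set Ck : ℝ := 2 ^ (2 ^ (n + 1)) * (((n + 2 : ℕ) : ℝ) * (n + 2).factorial) * 2 ^ (n + 1) with hCk
  have hCk1 : 1 ≤ Ck := by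
    have a1 : (1 : ℝ) ≤ 2 ^ (2 ^ (n + 1)) := one_le_pow₀ (by norm_num)
    have a2 : (1 : ℝ) ≤ 2 ^ (n + 1) := one_le_pow₀ (by norm_num)
    have a3 : (1 : ℝ) ≤ ((n + 2 : ℕ) : ℝ) * (n + 2).factorial := by
      exact_mod_cast Nat.mul_pos (by omega : 0 < n + 2) hfac
    rw [hCk]
    exact one_le_mul_of_one_le_of_one_le (one_le_mul_of_one_le_of_one_le a1 a3) a2
  have hsum : ∑ a ∈ Ioc K (2 * K), ‖∑ b ∈ Icc (1 : ℤ) Nb, β' b * Psi X (n + 2) f ((a : ℤ) * b)‖ / (26 * Nb * X) ≤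
      Ck * (K * R * Z) := by
    have h5 : (∑ a ∈ Ioc K (2 * K), ‖∑ b ∈ Icc (1 : ℤ) Nb, β' b * Psi X (n + 2) f ((a : ℤ) * b)‖ / (26 * Nb * X)) ^
        (2 ^ (n + 1)) ≤ (Ck * (K * R * Z)) ^ (2 ^ (n + 1)) := by
      refine hblk.trans ?_
      rw [mul_pow Ck, mul_pow _ Z, ← mul_assoc]
      refine mul_le_mul_of_nonneg_right ?_ (by positivity)
      refine mul_le_mul_of_nonneg_right ?_ (by positivity)
      exact le_self_pow₀ hCk1 (by positivity)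
    exact (pow_le_pow_iff_left₀ (Finset.sum_nonneg fun _ _ => by positivity) (by positivity) (by positivity)).1 h5
  have hconv : ∀ a ∈ Ioc K (2 * K), ‖∑ b ∈ Icc 1 (2 * (n + 2) * X), β b * Psi X (n + 2) f ((a : ℤ) * (b : ℕ))‖ =
      (26 * Nb * X) * (‖∑ b ∈ Icc (1 : ℤ) Nb, β' b * Psi X (n + 2) f ((a : ℤ) * b)‖ / (26 * Nb * X)) := by
    intro a ha
    rw [mem_Ioc] at ha
    have hNr : (0 : ℝ) < 26 * Nb * X := by
      have : (1 : ℝ) ≤ Nb := by exact_mod_cast hNb1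
      positivity
    rw [mul_div_cancel₀ _ hNr.ne']
    congr 1
    symm
    have hNbX : Nb ≤ 2 * (n + 2) * X := by
      refine (Nat.div_le_self _ _).trans ?_
      nlinarith
    refine Finset.sum_bij_ne_zero (fun b _ _ => b.toNat) ?_ ?_ ?_ ?_
    · intro b hb _
      rw [mem_Icc] at hb ⊢
      omega
    · intro b1 hb1 _ b2 hb2 _ he
      rw [mem_Icc] at hb1 hb2
      omega
    · intro b hb hne
      rw [mem_Icc] at hb
      have hbN : b ≤ Nb := by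
        by_contra hcon
        push Not at hcon
        apply hne
        rw [A14_zero X (n + 2) hk3 f hf, mul_zero]
        have h6 : 2 * X < (Nb + 1) * K := by
          have h6' := Nat.lt_mul_div_succ (2 * X) hK
          rw [← hNb] at h6'
          rw [mul_comm (Nb + 1) K]
          exact h6'
        have h7 : (Nb + 1) * K ≤ b * a := Nat.mul_le_mul hcon ha.1.le
        have h8 : 2 * X < a * b := by
          rw [mul_comm a b]
          omega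
        exact_mod_cast h8
      refine ⟨(b : ℤ), ?_, ?_, by simp⟩
      · rw [mem_Icc]
        omega
      · have e1 : β' (b : ℤ) = β b := by
          simp only [hβ']
          rw [if_pos (by rw [mem_Icc]; omega)]
          simp
        rw [e1]
        exact hne
    · intro b hb _
      have hb' := hb
      rw [mem_Icc] at hb'
      have e2 : ((b.toNat : ℕ) : ℤ) = b := Int.toNat_of_nonneg (by omega)
      simp only [hβ']
      rw [if_pos hb, e2]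
  rw [Finset.sum_congr rfl hconv, ← Finset.mul_sum]
  have hNbr : (Nb : ℝ) * K ≤ 2 * X := by exact_mod_cast hNble
  have hNr : (0 : ℝ) ≤ 26 * Nb * X := by positivity
  refine (mul_le_mul_of_nonneg_left hsum hNr).trans ?_
  have hRZ : 0 ≤ Ck * R * Z := by positivity
  have e3 : 26 * (Nb : ℝ) * X * (Ck * (K * R * Z)) = 26 * X * (Nb * K) * (Ck * R * Z) := by ring
  have e4 : 52 * (X : ℝ) ^ 2 * (Ck * R * Z) = 26 * X * (2 * X) * (Ck * R * Z) := by ring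
  rw [e3, e4]
  refine mul_le_mul_of_nonneg_right ?_ hRZ
  exact mul_le_mul_of_nonneg_left hNbr (by positivity)

end Pool.Agent.HUK
end

-- from Lib.HUK.A16
section

/-!
# Project HUK, chunk A16: the type II theorem `TII k`, `k ≥ 3` (PROOF.md, section 3)
-/

open Finset Filter

namespace Pool.Agent.HUK

theorem A16_dyadic (N : ℕ) (S : Finset ℕ) (hS : ∀ a ∈ S, 2 ≤ a ∧ a ≤ N) (F : ℕ → ℝ) (hF : ∀ a, 0 ≤ F a) (W : ℝ)
    (hW0 : 0 ≤ W) (hW : ∀ i : ℕ, (∃ a ∈ S, 2 ^ i < a ∧ a ≤ 2 * 2 ^ i) → ∑ a ∈ Ioc (2 ^ i) (2 * 2 ^ i), F a ≤ W) :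
    ∑ a ∈ S, F a ≤ ((Nat.log 2 N + 1 : ℕ) : ℝ) * W := by
  have hmem : ∀ a ∈ S, 2 ^ (Nat.log 2 (a - 1)) < a ∧ a ≤ 2 * 2 ^ (Nat.log 2 (a - 1)) := by
    intro a ha
    have h := hS a ha
    have h1 := Nat.pow_log_le_self 2 (x := a - 1) (by omega)
    have h2 := Nat.lt_pow_succ_log_self (b := 2) (by norm_num) (a - 1)
    rw [pow_succ] at h2
    omega
  have h1 : ∑ a ∈ S, F a = ∑ i ∈ range (Nat.log 2 N + 1), ∑ a ∈ S.filter (fun a => Nat.log 2 (a - 1) = i), F a := by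
    symm
    refine Finset.sum_fiberwise_of_maps_to (fun a ha => ?_) _
    rw [mem_range]
    have h := hS a ha
    have h2 := Nat.log_mono_right (b := 2) (by omega : a - 1 ≤ N)
    omega
  rw [h1]
  have h2 : ∀ i ∈ range (Nat.log 2 N + 1), ∑ a ∈ S.filter (fun a => Nat.log 2 (a - 1) = i), F a ≤ W := by
    intro i _
    by_cases hne : ∃ a ∈ S, 2 ^ i < a ∧ a ≤ 2 * 2 ^ i
    · refine (Finset.sum_le_sum_of_subset_of_nonneg ?_ fun a _ _ => hF a).trans (hW i hne)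
      intro a ha
      rw [mem_filter] at ha
      have h := hmem a ha.1
      rw [ha.2] at h
      rw [mem_Ioc]
      exact h
    · rw [Finset.sum_eq_zero]
      · exact hW0
      · intro a ha
        rw [mem_filter] at ha
        have h := hmem a ha.1
        rw [ha.2] at h
        exact absurd ⟨a, ha.1, h⟩ hne
  have h3 := Finset.sum_le_card_nsmul _ _ _ h2
  rw [card_range, nsmul_eq_mul] at h3
  exact h3

theorem A16_log (N : ℕ) (c : ℝ) (hc : 0 < c) : ∀ᶠ X : ℕ in atTop, ((Nat.log 2 (N * X) + 1 : ℕ) : ℝ) ≤ (X : ℝ) ^ c := by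
  have h1 : ∀ᶠ x : ℝ in atTop, ‖Real.log x‖ ≤ 1 / 4 * ‖x ^ c‖ :=
    (isLittleO_log_rpow_atTop hc).def (by norm_num)
  have h2 : ∀ᶠ x : ℝ in atTop, 4 * (1 + 2 * |Real.log N|) ≤ x ^ c :=
    (tendsto_rpow_atTop hc).eventually_ge_atTop _
  have h3 := (h1.and h2).and (eventually_ge_atTop (1 : ℝ))
  filter_upwards [tendsto_natCast_atTop_atTop.eventually h3] with X hX
  obtain ⟨⟨h4, h5⟩, h6⟩ := hX
  rcases Nat.eq_zero_or_pos N with hN | hN
  · subst hN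
    simp only [zero_mul, Nat.log_zero_right, zero_add, Nat.cast_one]
    have : 0 ≤ 2 * |Real.log ((0 : ℕ) : ℝ)| := by positivity
    linarith
  have hXp : (0 : ℝ) < X := by linarith
  have hNp : (0 : ℝ) < N := by exact_mod_cast hN
  have h7 : (Nat.log 2 (N * X) : ℝ) ≤ 2 * Real.log ((N * X : ℕ) : ℝ) := by
    have h8 := Nat.pow_log_le_self 2 (x := N * X) (by
      have : 0 < X := by exact_mod_cast hXp
      positivity)
    have h9 : ((2 : ℝ) ^ (Nat.log 2 (N * X))) ≤ ((N * X : ℕ) : ℝ) := by exact_mod_cast h8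
    have h10 := Real.log_le_log (by positivity) h9
    rw [Real.log_pow] at h10
    have h11 : (1 : ℝ) / 2 ≤ Real.log 2 := by linarith [Real.log_two_gt_d9]
    have h12 : (0 : ℝ) ≤ Nat.log 2 (N * X) := by positivity
    nlinarith
  push_cast at h7 ⊢
  rw [Real.log_mul hNp.ne' hXp.ne'] at h7
  rw [Real.norm_eq_abs, Real.norm_eq_abs, abs_of_nonneg (Real.log_nonneg h6), abs_of_nonneg (by positivity)] at h4
  have h8 := le_abs_self (Real.log (N : ℝ))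
  nlinarith

/-- **The type II theorem.** -/
theorem A16_TII (k : ℕ) (hk : 3 ≤ k) : TII k := by
  obtain ⟨n, rfl⟩ : ∃ n, k = n + 2 := ⟨k - 2, by omega⟩
  have hn : 1 ≤ n := by omega
  obtain ⟨C, hstar⟩ := A13_star n hn
  intro θ κ hθ hκ
  obtain ⟨m0, hm0, hm1, hm2, hm3⟩ : ∃ m0 : ℝ, 0 < m0 ∧ m0 ≤ θ / 2 ∧ m0 ≤ κ / 2 ∧ m0 ≤ 1 / 4 :=
    ⟨min (min (θ / 2) (κ / 2)) (1 / 4), by positivity, (min_le_left _ _).trans (min_le_left _ _),
      (min_le_left _ _).trans (min_le_right _ _), min_le_right _ _⟩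
  set η : ℝ := m0 / (C + 1) with hη
  have hη0 : 0 < η := by positivity
  have hηC : η * C ≤ m0 := by
    rw [hη, div_mul_eq_mul_div, div_le_iff₀ (by positivity)]
    nlinarith
  set z : ℝ := η / 2 ^ (n + 2) with hz
  have hz0 : 0 < z := by positivity
  set Ck : ℝ := 2 ^ (2 ^ (n + 1)) * (((n + 2 : ℕ) : ℝ) * (n + 2).factorial) * 2 ^ (n + 1) with hCk
  have hCk0 : 0 ≤ Ck := by positivity
  obtain ⟨C0, hC0, hdivb⟩ := Pool.Agent.Lib.H21AP.divisor_bound (ε := η / 2) (by positivity)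
  refine ⟨z / 4, z / 8, by positivity, by positivity, ?_⟩
  have hev : ∀ c : ℝ, 0 < c → ∀ D : ℝ, ∀ᶠ X : ℕ in atTop, D ≤ (X : ℝ) ^ c := fun c hc D =>
    ((tendsto_rpow_atTop hc).comp tendsto_natCast_atTop_atTop).eventually_ge_atTop D
  have hall := ((((((hev (θ / 2) (by positivity) 2).and (hev η hη0 2)).and
    (hev η hη0 (2 * (16 * (n + 2) * (n + 2).factorial)))).and (hev (η / 2) (by positivity) C0)).and
    (hev (1 / 2) (by norm_num) (2 * (16 * (n + 2) * (n + 2).factorial)))).and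
    (hev (z / 8) (by positivity) (52 * Ck))).and ((A16_log (2 * (n + 2)) (z / 8) (by positivity)).and
    (eventually_ge_atTop 2))
  obtain ⟨X0, hX0⟩ := eventually_atTop.1 hall
  refine ⟨X0, fun X hX α β hα hβ hαs f hf hGG => ?_⟩
  obtain ⟨⟨⟨⟨⟨⟨e1, e2⟩, e3⟩, e4⟩, e5⟩, e6⟩, e7, e8⟩ := hX0 X hX
  have hXr2 : (2 : ℝ) ≤ X := by exact_mod_cast e8
  have hXp : (0 : ℝ) < X := by linarith
  have hX1 : (1 : ℝ) ≤ X := by linarith
  set δ : ℝ := (X : ℝ) ^ (-η) with hδdef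
  have hδ0 : 0 < δ := by positivity
  have hδinv : 1 / δ = (X : ℝ) ^ η := by
    rw [hδdef, Real.rpow_neg hXp.le, one_div, inv_inv]
  have hδpow : (1 / δ) ^ C = (X : ℝ) ^ (η * C) := by
    rw [hδinv, Real.rpow_mul hXp.le, Real.rpow_natCast]
  have hδX : δ * (X : ℝ) ^ η = 1 := by
    rw [hδdef, ← Real.rpow_add hXp]
    simp
  have hδ2 : δ ≤ 1 / 2 := by
    rw [le_div_iff₀ (by norm_num)]
    calc δ * 2 ≤ δ * (X : ℝ) ^ η := mul_le_mul_of_nonneg_left e2 hδ0.le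
      _ = 1 := hδX
  set Z : ℝ := (X : ℝ) ^ (-z) with hZdef
  have hZ0 : 0 ≤ Z := by positivity
  have hZδ : Z ^ (2 ^ (n + 2)) = δ := by
    rw [hZdef, ← Real.rpow_natCast, ← Real.rpow_mul hXp.le, hδdef]
    congr 1
    push_cast
    rw [hz]
    field_simp
  have h4 : δ * (2 * (16 * (n + 2) * (n + 2).factorial)) ≤ 1 := by
    calc δ * (2 * (16 * (n + 2) * (n + 2).factorial)) ≤ δ * (X : ℝ) ^ η := mul_le_mul_of_nonneg_left e3 hδ0.le
      _ = 1 := hδX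
  have hdiv : ∀ m : ℕ, 1 ≤ m → m ≤ X → (m.divisors.card : ℝ) ≤ 1 / δ := by
    intro m hm hmX
    refine (hdivb m hm).trans ?_
    rw [hδinv]
    have h5 : (m : ℝ) ^ (η / 2) ≤ (X : ℝ) ^ (η / 2) := by
      refine Real.rpow_le_rpow (by positivity) (by exact_mod_cast hmX) (by positivity)
    have h6 : (X : ℝ) ^ η = (X : ℝ) ^ (η / 2) * (X : ℝ) ^ (η / 2) := by
      rw [← Real.rpow_add hXp]
      congr 1
      ring
    rw [h6]
    exact mul_le_mul e4 h5 (by positivity) (by positivity)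
  have hG : GG X (n + 1) (f 0) < δ ^ C * (X : ℝ) ^ (n + 2) := by
    refine lt_of_le_of_lt hGG ?_
    have h5 : δ ^ C * (X : ℝ) ^ (n + 2) = (X : ℝ) ^ (((n + 2 : ℕ) : ℝ) - η * C) := by
      rw [Real.rpow_sub hXp, ← hδpow, Real.rpow_natCast, one_div, inv_pow]
      field_simp
    rw [h5]
    refine Real.rpow_lt_rpow_of_exponent_lt (by linarith) ?_
    linarith
  set R : ℝ := (X : ℝ) ^ (z / 8) with hRdef
  have hR0 : 0 ≤ R := by positivity
  set F : ℕ → ℝ := fun a => ‖∑ b ∈ Icc 1 (2 * (n + 2) * X), β b * Psi X (n + 2) f ((a : ℤ) * (b : ℕ))‖ with hF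
  have hF0 : ∀ a, 0 ≤ F a := fun a => norm_nonneg _
  set S : Finset ℕ := (Icc 1 (2 * (n + 2) * X)).filter (fun a => α a ≠ 0) with hSdef
  have hcs : cs (n + 2) * 2 ^ (2 ^ n) ≤ 1 / 16 := by
    unfold cs
    have e : n + 2 - 1 = n + 1 := rfl
    rw [e, pow_add]
    have h5 : ((1 : ℝ) / 2) ^ (2 ^ (n + 1)) ≤ (1 / 2) ^ (2 ^ n) :=
      pow_le_pow_of_le_one (by norm_num) (by norm_num) (Nat.pow_le_pow_right (by norm_num) (by omega))
    calc ((1 : ℝ) / 2) ^ (2 ^ (n + 1)) * (1 / 2) ^ 4 * 2 ^ (2 ^ n)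
        ≤ (1 / 2) ^ (2 ^ n) * (1 / 2) ^ 4 * 2 ^ (2 ^ n) := by
          refine mul_le_mul_of_nonneg_right (mul_le_mul_of_nonneg_right h5 (by positivity)) (by positivity)
      _ = 1 / 16 := by
          rw [one_div, inv_pow]
          field_simp
          norm_num
  have hcs0 : 0 < cs (n + 2) := by
    unfold cs
    positivity
  have hcs1 : cs (n + 2) ≤ 1 / 16 := by
    have h5 : (1 : ℝ) ≤ 2 ^ (2 ^ n) := one_le_pow₀ (by norm_num)
    nlinarith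
  have hmain : ∑ a ∈ S, F a ≤ ((Nat.log 2 (2 * (n + 2) * X) + 1 : ℕ) : ℝ) * (52 * (X : ℝ) ^ 2 * (Ck * R * Z)) := by
    refine A16_dyadic (2 * (n + 2) * X) S ?_ F hF0 _ (by positivity) ?_
    · intro a ha
      rw [hSdef, mem_filter, mem_Icc] at ha
      refine ⟨?_, ha.1.2⟩
      have h5 := (hαs a ha.2).1
      by_contra hcon
      have ha1 : a = 1 := by omega
      rw [ha1] at h5
      have h6 : (X : ℝ) ^ θ = (X : ℝ) ^ (θ / 2) * (X : ℝ) ^ (θ / 2) := by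
        rw [← Real.rpow_add hXp]
        congr 1
        ring
      push_cast at h5
      nlinarith
    · rintro i ⟨a, ha, hai, hai2⟩
      rw [hSdef, mem_filter] at ha
      obtain ⟨h5, h6⟩ := hαs a ha.2
      have hK1 : 1 ≤ 2 ^ i := Nat.one_le_two_pow
      have hair : ((2 ^ i : ℕ) : ℝ) ≤ a := by exact_mod_cast hai.le
      have hair2 : (a : ℝ) ≤ 2 * ((2 ^ i : ℕ) : ℝ) := by exact_mod_cast hai2
      have h7 : (X : ℝ) ^ θ = (X : ℝ) ^ (θ / 2) * (X : ℝ) ^ (θ / 2) := by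
        rw [← Real.rpow_add hXp]
        congr 1
        ring
      have c1 : (1 / δ) ^ C ≤ ((2 ^ i : ℕ) : ℝ) := by
        rw [hδpow]
        have h8 : (X : ℝ) ^ (η * C) ≤ (X : ℝ) ^ (θ / 2) := Real.rpow_le_rpow_of_exponent_le hX1 (by linarith)
        nlinarith
      have hKcs : ((2 ^ i : ℕ) : ℝ) ≤ (X : ℝ) ^ cs (n + 2) := hair.trans h6
      have c2 : (1 / δ) ^ C * ((2 ^ i : ℕ) : ℝ) ^ (2 ^ 2 ^ n) ≤ X := by
        rw [hδpow]
        have h8 : ((2 ^ i : ℕ) : ℝ) ^ (2 ^ 2 ^ n) ≤ ((X : ℝ) ^ cs (n + 2)) ^ (2 ^ 2 ^ n) :=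
          pow_le_pow_left₀ (by positivity) hKcs _
        have h9 : ((X : ℝ) ^ cs (n + 2)) ^ (2 ^ 2 ^ n) = (X : ℝ) ^ (cs (n + 2) * 2 ^ (2 ^ n)) := by
          rw [← Real.rpow_natCast, ← Real.rpow_mul hXp.le]
          push_cast
          rfl
        calc (X : ℝ) ^ (η * C) * ((2 ^ i : ℕ) : ℝ) ^ (2 ^ 2 ^ n)
            ≤ (X : ℝ) ^ (η * C) * (X : ℝ) ^ (cs (n + 2) * 2 ^ (2 ^ n)) := by
              rw [← h9]
              exact mul_le_mul_of_nonneg_left h8 (by positivity)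
          _ = (X : ℝ) ^ (η * C + cs (n + 2) * 2 ^ (2 ^ n)) := (Real.rpow_add hXp _ _).symm
          _ ≤ (X : ℝ) ^ (1 : ℝ) := Real.rpow_le_rpow_of_exponent_le hX1 (by linarith)
          _ = X := Real.rpow_one _
      have c3 : 2 * (16 * (n + 2) * (n + 2).factorial) * 2 ^ i ≤ X := by
        have h8 : ((2 ^ i : ℕ) : ℝ) ≤ (X : ℝ) ^ ((1 : ℝ) / 2) :=
          hKcs.trans (Real.rpow_le_rpow_of_exponent_le hX1 (by linarith))
        have h9 : (X : ℝ) ^ ((1 : ℝ) / 2) * (X : ℝ) ^ ((1 : ℝ) / 2) = X := by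
          rw [← Real.rpow_add hXp]
          norm_num
        have h10 : (2 * (16 * ((n : ℝ) + 2) * ((n + 2).factorial : ℕ))) * ((2 ^ i : ℕ) : ℝ) ≤ X := by
          calc (2 * (16 * ((n : ℝ) + 2) * ((n + 2).factorial : ℕ))) * ((2 ^ i : ℕ) : ℝ)
              ≤ (X : ℝ) ^ ((1 : ℝ) / 2) * (X : ℝ) ^ ((1 : ℝ) / 2) := mul_le_mul e5 h8 (by positivity) (by positivity)
            _ = X := h9
        exact_mod_cast h10
      exact A16_one n hn C hstar δ Z hδ0 hδ2 hZ0 hZδ X (2 ^ i) (by omega) hK1 c1 c2 c3 h4 hdiv β R hR0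
        (fun b => (hβ b)) f hf hG
  have hT : ‖∑ a ∈ Icc 1 (2 * (n + 2) * X), ∑ b ∈ Icc 1 (2 * (n + 2) * X), α a * β b * Psi X (n + 2) f ((a : ℤ) * b)‖ ≤
      R * ∑ a ∈ S, F a := by
    rw [hSdef, Finset.sum_filter, Finset.mul_sum]
    refine (norm_sum_le _ _).trans (Finset.sum_le_sum fun a _ => ?_)
    have h5 : ∑ b ∈ Icc 1 (2 * (n + 2) * X), α a * β b * Psi X (n + 2) f ((a : ℤ) * b) =
        α a * ∑ b ∈ Icc 1 (2 * (n + 2) * X), β b * Psi X (n + 2) f ((a : ℤ) * (b : ℕ)) := by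
      rw [Finset.mul_sum]
      refine Finset.sum_congr rfl fun b _ => ?_
      rw [mul_assoc]
    rw [h5, norm_mul]
    split_ifs with h6
    · exact mul_le_mul_of_nonneg_right (hα a) (norm_nonneg _)
    · rw [not_ne_iff.1 h6]
      simp
  refine hT.trans ((mul_le_mul_of_nonneg_left hmain hR0).trans ?_)
  have hL0 : (0 : ℝ) ≤ ((Nat.log 2 (2 * (n + 2) * X) + 1 : ℕ) : ℝ) := by positivity
  calc R * (((Nat.log 2 (2 * (n + 2) * X) + 1 : ℕ) : ℝ) * (52 * (X : ℝ) ^ 2 * (Ck * R * Z)))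
      = (((Nat.log 2 (2 * (n + 2) * X) + 1 : ℕ) : ℝ) * (52 * Ck)) * (R * R * Z * (X : ℝ) ^ 2) := by ring
    _ ≤ ((X : ℝ) ^ (z / 8) * (X : ℝ) ^ (z / 8)) * (R * R * Z * (X : ℝ) ^ 2) := by
        refine mul_le_mul_of_nonneg_right (mul_le_mul e7 e6 (by positivity) (by positivity)) (by positivity)
    _ = (X : ℝ) ^ (2 - z / 2) := by
        rw [hRdef, hZdef, ← Real.rpow_natCast (X : ℝ) 2, ← Real.rpow_add hXp, ← Real.rpow_add hXp, ← Real.rpow_add hXp,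
          ← Real.rpow_add hXp]
        congr 1
        push_cast
        ring
    _ ≤ (X : ℝ) ^ (2 - z / 4) := Real.rpow_le_rpow_of_exponent_le hX1 (by linarith)

end Pool.Agent.HUK
end
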