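import Pool.Agent.Lib.H59M.M1.M002
import Pool.Agent.Lib.H59M.M1.M009
import Pool.Agent.Lib.H59M.M1.M026
import Pool.Agent.Lib.H59M.M1.M028
import Pool.Agent.Lib.H59M.M1.M044
import Pool.Agent.Lib.H59M.M1.M045
import Pool.Agent.Lib.H59M.M1.M058
import Pool.Agent.Lib.H59M.M1.M067
import Pool.Agent.Lib.H59M.M1.M073
import Pool.Agent.Lib.H59M.M1.M079
import Pool.Agent.Lib.H59M.M1.M084
import Pool.Agent.Lib.H59M.M1.M086

/-! Merged copies (to shorten the build) of Lib.HUK.C1, Lib.HUK.C2, Lib.HUK.C3, Lib.HUK.C4, Lib.HUP.W1, Lib.HUP.W3, Lib.HUP.W4, Lib.HUP.S4A, Lib.HUP.S4B, Lib.HUP.S4T, Lib.HUP.S4U. -/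

-- from Lib.HUK.C1
section

/-!
# HUK, chunk C1 (S/M): rules for the dual function `Psi`
-/

open Finset

namespace Pool.Agent.HUK

open Pool.Agent.H44W (ee)

/-- `Psi` does not depend on the window. Proof. `Ioo (-2Y) (2Y) ⊆ Ioo (-2Y') (2Y')` and the other terms vanish: if `f 0 (n - k h) ≠ 0` and
`f 1 (n - (k - 1) h) ≠ 0` then both arguments are in `[-Y, Y)`, their difference is `h`, so `|h| < 2Y`. (`0, 1 ∈ range k` as `2 ≤ k`.) -/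
theorem C1_scale (Y Y' k : ℕ) (hk : 2 ≤ k) (h : Y ≤ Y') (f : ℕ → ℤ → ℂ)
    (hf : ∀ j, j < k → ∀ y, y ∉ Ico (-(Y : ℤ)) Y → f j y = 0) (n : ℤ) : Psi Y' k f n = Psi Y k f n := by
  unfold Psi
  symm
  refine Finset.sum_subset ?_ ?_
  · intro x hx
    rw [Finset.mem_Ioo] at hx ⊢
    omega
  · intro m _ hm
    by_contra hne
    rw [← ne_eq, Finset.prod_ne_zero_iff] at hne
    have h0 := hne 0 (Finset.mem_range.mpr (by omega))
    have h1 := hne 1 (Finset.mem_range.mpr (by omega))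
    have i0 : n - ((k : ℤ) - (0 : ℕ)) * m ∈ Ico (-(Y : ℤ)) Y := by
      by_contra hc
      exact h0 (hf 0 (by omega) _ hc)
    have i1 : n - ((k : ℤ) - (1 : ℕ)) * m ∈ Ico (-(Y : ℤ)) Y := by
      by_contra hc
      exact h1 (hf 1 (by omega) _ hc)
    have e0 : n - ((k : ℤ) - (0 : ℕ)) * m = n - k * m := by push_cast; ring
    have e1 : n - ((k : ℤ) - (1 : ℕ)) * m = n - k * m + m := by push_cast; ring
    rw [e0, Finset.mem_Ico] at i0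
    rw [e1, Finset.mem_Ico] at i1
    apply hm
    rw [Finset.mem_Ioo]
    omega

/-- Translations. Unfold. -/
theorem C1_shift (Y k : ℕ) (f : ℕ → ℤ → ℂ) (a n : ℤ) :
    Psi Y k (fun j x => f j (x + a)) n = Psi Y k f (n + a) := by
  unfold Psi
  refine Finset.sum_congr rfl fun m _ => Finset.prod_congr rfl fun j _ => ?_
  show f j (n - ((k : ℤ) - j) * m + a) = f j (n + a - ((k : ℤ) - j) * m)
  rw [show n - ((k : ℤ) - j) * m + a = n + a - ((k : ℤ) - j) * m by ring]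

/-- The functions which absorb a phase. -/
noncomputable def phf (k : ℕ) (θ : ℝ) (f : ℕ → ℤ → ℂ) : ℕ → ℤ → ℂ := fun j x =>
  if j = 0 then f 0 x * ee (-(θ * ((k : ℝ) - 1)) * x) else if j = 1 then f 1 x * ee (θ * k * x) else f j x

/-- Phases: `n = k (n - (k - 1) h) - (k - 1) (n - k h)`, `ee_add` (`H44W/E1`). Split the factors `j = 0, 1` off the product over `range k`
(`k = k' + 2`, `prod_range_succ'` twice). -/
theorem C1_phase (Y k : ℕ) (hk : 2 ≤ k) (f : ℕ → ℤ → ℂ) (θ : ℝ) (n : ℤ) :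
    ee (θ * n) * Psi Y k f n = Psi Y k (phf k θ f) n := by
  obtain ⟨k', rfl⟩ : ∃ k', k = k' + 2 := ⟨k - 2, by omega⟩
  unfold Psi
  rw [Finset.mul_sum]
  refine Finset.sum_congr rfl fun m _ => ?_
  rw [Finset.prod_range_succ' _ (k' + 1), Finset.prod_range_succ' _ k', Finset.prod_range_succ' _ (k' + 1),
    Finset.prod_range_succ' _ k']
  have e2 : ∀ (j : ℕ) (x : ℤ), phf (k' + 2) θ f (j + 1 + 1) x = f (j + 1 + 1) x := by
    intro j x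
    unfold phf
    rw [if_neg (by omega), if_neg (by omega)]
  have e1 : ∀ x : ℤ, phf (k' + 2) θ f (0 + 1) x = f (0 + 1) x * ee (θ * ((k' + 2 : ℕ) : ℝ) * x) := by
    intro x
    unfold phf
    rw [if_neg (by omega), if_pos rfl]
  have e0 : ∀ x : ℤ, phf (k' + 2) θ f 0 x = f 0 x * ee (-(θ * (((k' + 2 : ℕ) : ℝ) - 1)) * x) := by
    intro x
    unfold phf
    rw [if_pos rfl]
  rw [e1, e0]
  simp only [e2]
  have e3 : ee (θ * n) = ee (θ * ((k' + 2 : ℕ) : ℝ) * ((n - (((k' + 2 : ℕ) : ℤ) - ((0 + 1 : ℕ) : ℤ)) * m : ℤ) : ℝ)) *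
      ee (-(θ * (((k' + 2 : ℕ) : ℝ) - 1)) * ((n - (((k' + 2 : ℕ) : ℤ) - ((0 : ℕ) : ℤ)) * m : ℤ) : ℝ)) := by
    rw [← Pool.Agent.H44W.ee_add]
    congr 1
    push_cast
    ring
  rw [e3]
  ring

theorem C1_phase_bdd (Y k : ℕ) (f : ℕ → ℤ → ℂ) (θ : ℝ) (hf : ∀ j, j < k → Bdd Y (f j)) :
    ∀ j, j < k → Bdd Y (phf k θ f j) := by
  intro j hj
  have hn : ∀ t : ℝ, ‖ee t‖ = 1 := fun t => Pool.Agent.H44W.norm_ee t
  refine ⟨fun y => ?_, fun y hy => ?_⟩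
  · unfold phf
    by_cases h0 : j = 0
    · rw [if_pos h0, norm_mul, hn, mul_one]
      exact (hf 0 (by omega)).le y
    · rw [if_neg h0]
      by_cases h1 : j = 1
      · rw [if_pos h1, norm_mul, hn, mul_one]
        exact (hf 1 (by omega)).le y
      · rw [if_neg h1]
        exact (hf j hj).le y
  · unfold phf
    by_cases h0 : j = 0
    · rw [if_pos h0, (hf 0 (by omega)).sup y hy, zero_mul]
    · rw [if_neg h0]
      by_cases h1 : j = 1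
      · rw [if_pos h1, (hf 1 (by omega)).sup y hy, zero_mul]
      · rw [if_neg h1]
        exact (hf j hj).sup y hy

/-- `GG_phase` (`P1`). -/
theorem C1_phase_GG (Y k s : ℕ) (hs : 2 ≤ s) (f : ℕ → ℤ → ℂ) (θ : ℝ) : GG Y s (phf k θ f 0) = GG Y s (f 0) := by
  have e : phf k θ f 0 = fun x : ℤ => f 0 x * ee (-(θ * ((k : ℝ) - 1)) * x) := by
    funext x
    unfold phf
    rw [if_pos rfl]
  rw [e]
  exact GG_phase Y s hs (f 0) _

/-- Homogeneity: `DL_smul` (`P0`); every term of `GG` gets the factor `c^(2^s)`. -/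
theorem C1_smul (Y s : ℕ) (f : ℤ → ℂ) (c : ℝ) : GG Y s (fun x => (c : ℂ) * f x) = c ^ (2 ^ s) * GG Y s f := by
  unfold GG
  have e : ∀ h : Fin s → ℤ, FF Y h (fun x => (c : ℂ) * f x) = ((c ^ (2 ^ s) : ℝ) : ℂ) * FF Y h f := by
    intro h
    unfold FF DV
    rw [Finset.mul_sum, DL_smul, List.length_ofFn]
  rw [Finset.sum_congr rfl fun h _ => e h, ← Finset.mul_sum, Complex.re_ofReal_mul]

end Pool.Agent.HUK
end

-- from Lib.HUK.C2
section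

/-!
# HUK, chunk C2 (M): the interface `TLP` with sharp cutoffs and translations
-/

open Finset

namespace Pool.Agent.HUK

open Pool.Agent.H44W (ee)
open Pool.Agent.H9S (lc)
open Pool.Agent.H9U (JJ)

theorem c2_large (C D r : ℝ) (hr : 0 < r) :
    ∃ X0 : ℕ, ∀ X : ℕ, X0 ≤ X → C + D * Real.log X ≤ (X : ℝ) ^ r := by
  have h1 : ∀ᶠ x : ℝ in Filter.atTop, ‖Real.log x‖ ≤ (1 / (2 * (|D| + 1))) * ‖x ^ r‖ :=
    (isLittleO_log_rpow_atTop hr).def (by positivity)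
  have h2 : ∀ᶠ x : ℝ in Filter.atTop, 2 * C ≤ x ^ r :=
    (tendsto_rpow_atTop hr).eventually_ge_atTop (2 * C)
  have h3 : ∀ᶠ x : ℝ in Filter.atTop, C + D * Real.log x ≤ x ^ r := by
    filter_upwards [h1, h2, Filter.eventually_ge_atTop (1 : ℝ)] with x hx1 hx2 hx3
    have hl : 0 ≤ Real.log x := Real.log_nonneg hx3
    have hp : 0 ≤ x ^ r := Real.rpow_nonneg (by linarith) r
    rw [Real.norm_of_nonneg hl, Real.norm_of_nonneg hp] at hx1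
    have hD : D * Real.log x ≤ (|D| + 1) * Real.log x :=
      mul_le_mul_of_nonneg_right (by linarith [le_abs_self D]) hl
    have hD2 : (|D| + 1) * Real.log x ≤ (|D| + 1) * ((1 / (2 * (|D| + 1))) * x ^ r) :=
      mul_le_mul_of_nonneg_left hx1 (by positivity)
    have hD3 : (|D| + 1) * ((1 / (2 * (|D| + 1))) * x ^ r) = x ^ r / 2 := by
      have : (|D| + 1) ≠ 0 := by positivity
      field_simp
    linarith
  obtain ⟨a, ha⟩ := Filter.eventually_atTop.1 h3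
  refine ⟨⌈a⌉₊, fun X hX => ha X ?_⟩
  exact le_trans (Nat.le_ceil a) (by exact_mod_cast hX)

/-- Reindexing. -/
theorem c2_reindex (X N : ℕ) (w : ℤ) (hw : |w| ≤ X) (hX : 1 ≤ X) (hN : 4 * X ≤ N) (F : ℤ → ℂ) :
    ∑ m ∈ JJ X, F (m - w) =
      ∑ n ∈ Icc 1 N, (if (2 * (X : ℤ) - w) ≤ (n : ℤ) ∧ (n : ℤ) < 2 * X + X / 4 - w then (1 : ℂ) else 0) * F n := by
  have hw' := abs_le.1 hw
  simp only [ite_mul, one_mul, zero_mul]
  rw [← sum_filter]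
  symm
  refine Finset.sum_bij (fun n _ => (n : ℤ) + w) ?_ ?_ ?_ ?_
  · intro n hn
    rw [mem_filter] at hn
    unfold JJ
    rw [mem_Ico]
    omega
  · intro a _ b _ hab
    have : (a : ℤ) + w = b + w := hab
    omega
  · intro m hm
    unfold JJ at hm
    rw [mem_Ico] at hm
    refine ⟨(m - w).toNat, ?_, ?_⟩
    · rw [mem_filter, mem_Icc]
      refine ⟨⟨by omega, by omega⟩, by omega, by omega⟩
    · show (((m - w).toNat : ℕ) : ℤ) + w = m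
      omega
  · intro n _
    show F n = F (n + w - w)
    rw [add_sub_cancel_right]

/-- Proof. Put `g j x = f j (x + w)`, `n = m - w`, `B' = B + 1`, `Y' = B' X`. `Psi (B X) k f m = Psi Y' k f m` (`C1_scale`) `= Psi Y' k g n` (`C1_shift`).
`m ∈ JJ X` iff `u ≤ n < v`, `u = 2X - w`, `v = 2X + X/4 - w`; these `n` are in `[1, 2 k Y']` (`|w| ≤ X`, `X ≥ 1`). So the sum is
`∑_{n ∈ Icc 1 (2kY')} [u ≤ n < v] lc n Psi Y' k g n`; insert `U1A_ind M u v` (`H9U/U1A`) with `M = 2kY' + 1` (`0 ≤ n < M`), the phases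
`ee(j n/M)` are absorbed by `C1_phase`: each `j` gives at most `(Y')^(2 - κ1)` by `TLP k` for `κ` at scale `Y'` (`Bdd Y' (phf ..)`: `C1_phase_bdd`; `GG Y' (k-1) (g 0) =
GG (B X) (k-1) (f 0) ≤ X^(k-κ) ≤ (Y')^(k-κ)` by `GG_shift`, `C1_phase_GG`; `k - 1 ≥ 2`). Total `4 (1 + log M) (B'X)^(2-κ1) ≤ X^(2 - κ')`, `κ' = κ1/2`,
`X` large. `lc n = ((lp n : ℝ) : ℂ)`. -/
theorem C2_cut (k : ℕ) (hk : 3 ≤ k) (hT : TLP k) (B : ℕ) (hB : 1 ≤ B) (κ : ℝ) (hκ : 0 < κ) (hκ1 : κ ≤ 1) :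
    ∃ κ' : ℝ, 0 < κ' ∧ ∃ X0 : ℕ, ∀ X : ℕ, X0 ≤ X → ∀ f : ℕ → ℤ → ℂ, (∀ j, j < k → Bdd (B * X) (f j)) →
    GG (B * X) (k - 1) (f 0) ≤ (X : ℝ) ^ (k - κ) → ∀ w : ℤ, |w| ≤ X →
    ‖∑ m ∈ JJ X, lc (m - w) * Psi (B * X) k f m‖ ≤ (X : ℝ) ^ (2 - κ') := by
  obtain ⟨κ1, hκ10, X1, hX1⟩ := hT κ hκ
  obtain ⟨X2, hX2⟩ := c2_large (4 * (B + 1) ^ 2 * (1 + Real.log (2 * k * (B + 1) + 1))) (4 * (B + 1) ^ 2)
    (κ1 / 2) (by positivity)
  refine ⟨κ1 / 2, by positivity, max (max X1 X2) 1, fun X hX f hf hG w hw => ?_⟩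
  have hXX1 : X1 ≤ X := le_trans (le_trans (le_max_left _ _) (le_max_left _ _)) hX
  have hXX2 : X2 ≤ X := le_trans (le_trans (le_max_right _ _) (le_max_left _ _)) hX
  have hX0 : 1 ≤ X := le_trans (le_max_right _ _) hX
  have hXr : (1 : ℝ) ≤ X := by exact_mod_cast hX0
  have hw' := abs_le.1 hw
  set Y : ℕ := (B + 1) * X with hY
  have hYX : X ≤ Y := by rw [hY]; nlinarith
  have hYB : B * X ≤ Y := by rw [hY]; nlinarith
  have hYr : (Y : ℝ) = (B + 1) * X := by rw [hY]; push_cast; ring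
  set g : ℕ → ℤ → ℂ := fun j x => f j (x + w) with hg
  have hgb : ∀ j, j < k → Bdd Y (g j) := by
    intro j hj
    refine ⟨fun y => (hf j hj).le _, fun y hy => (hf j hj).sup _ ?_⟩
    intro h3
    apply hy
    rw [mem_Ico] at h3 ⊢
    have e1 : (Y : ℤ) = B * X + X := by rw [hY]; push_cast; ring
    push_cast at h3
    rw [e1]
    constructor <;> linarith [h3.1, h3.2, hw'.1, hw'.2]
  have hGg : GG Y (k - 1) (g 0) ≤ (Y : ℝ) ^ (k - κ) := by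
    have h1 : GG Y (k - 1) (g 0) = GG (B * X) (k - 1) (f 0) :=
      GG_shift (B * X) Y (k - 1) w (f 0) (hf 0 (by omega)).sup (hgb 0 (by omega)).sup
    rw [h1]
    refine le_trans hG (Real.rpow_le_rpow (by positivity) (by exact_mod_cast hYX) ?_)
    have : (3 : ℝ) ≤ k := by exact_mod_cast hk
    linarith
  have hPsi : ∀ m : ℤ, Psi (B * X) k f m = Psi Y k g (m - w) := by
    intro m
    rw [hg, C1_shift, sub_add_cancel]
    exact (C1_scale (B * X) Y k (by omega) hYB f (fun j hj => (hf j hj).sup) m).symm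
  have hkX : 4 * X ≤ 2 * k * Y := by
    have e2 : 6 ≤ 2 * k := by omega
    nlinarith
  set M : ℕ := 2 * k * Y + 1 with hM
  obtain ⟨c, hc1, hc2⟩ := Pool.Agent.H9U.U1A_ind M (by omega) (2 * (X : ℤ) - w) (2 * X + X / 4 - w)
  have hsum : ∑ m ∈ JJ X, lc (m - w) * Psi (B * X) k f m =
      ∑ j ∈ range M, c j * ∑ n ∈ Icc 1 (2 * k * Y), ((Pool.Agent.Lib.H68T.lp n : ℝ) : ℂ) *
        Psi Y k (phf k ((j : ℝ) / M) g) n := by
    have h1 : ∑ m ∈ JJ X, lc (m - w) * Psi (B * X) k f m =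
        ∑ m ∈ JJ X, (fun n : ℤ => lc n * Psi Y k g n) (m - w) := by
      refine sum_congr rfl fun m _ => ?_
      rw [hPsi m]
    rw [h1]
    refine (c2_reindex X (2 * k * Y) w hw hX0 hkX (fun n : ℤ => lc n * Psi Y k g n)).trans ?_
    simp only [mul_sum]
    rw [sum_comm]
    refine sum_congr rfl fun n hn => ?_
    rw [mem_Icc] at hn
    rw [hc1 (n : ℤ) (by omega) (by omega), sum_mul]
    refine sum_congr rfl fun j _ => ?_
    have h2 : (j : ℝ) * ((n : ℤ) : ℝ) / M = (j : ℝ) / M * ((n : ℤ) : ℝ) := by ring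
    rw [h2, ← C1_phase Y k (by omega) g ((j : ℝ) / M) (n : ℤ)]
    unfold lc
    ring
  rw [hsum]
  have hterm : ∀ j ∈ range M, ‖c j * ∑ n ∈ Icc 1 (2 * k * Y), ((Pool.Agent.Lib.H68T.lp n : ℝ) : ℂ) *
        Psi Y k (phf k ((j : ℝ) / M) g) n‖ ≤ ‖c j‖ * (Y : ℝ) ^ (2 - κ1) := by
    intro j _
    rw [norm_mul]
    refine mul_le_mul_of_nonneg_left ?_ (norm_nonneg _)
    refine hX1 Y (le_trans hXX1 hYX) _ (C1_phase_bdd Y k g _ hgb) ?_
    rw [C1_phase_GG Y k (k - 1) (by omega) g]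
    exact hGg
  refine le_trans (norm_sum_le _ _) (le_trans (sum_le_sum hterm) ?_)
  rw [← sum_mul]
  have hYp : (0 : ℝ) ≤ (Y : ℝ) ^ (2 - κ1) := by positivity
  refine le_trans (mul_le_mul_of_nonneg_right hc2 hYp) ?_
  have hlog : Real.log M ≤ Real.log (2 * k * (B + 1) + 1) + Real.log X := by
    rw [← Real.log_mul (by positivity) (by positivity)]
    refine Real.log_le_log (by rw [hM]; positivity) ?_
    rw [hM]
    push_cast
    rw [hYr]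
    nlinarith
  have hY2 : (Y : ℝ) ^ (2 - κ1) ≤ (B + 1) ^ 2 * (X : ℝ) ^ (2 - κ1) := by
    rw [hYr, Real.mul_rpow (by positivity) (by positivity)]
    refine mul_le_mul_of_nonneg_right ?_ (by positivity)
    rw [← Real.rpow_natCast]
    refine Real.rpow_le_rpow_of_exponent_le ?_ ?_
    · have : (0 : ℝ) ≤ B := by positivity
      linarith
    · push_cast
      linarith
  have hlog0 : 0 ≤ Real.log M := Real.log_nonneg (by rw [hM]; push_cast; nlinarith [Nat.cast_nonneg (α := ℝ) (2 * k * Y)])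
  have hfin := hX2 X hXX2
  calc 4 * (1 + Real.log M) * (Y : ℝ) ^ (2 - κ1)
      ≤ 4 * (1 + Real.log M) * ((B + 1) ^ 2 * (X : ℝ) ^ (2 - κ1)) :=
        mul_le_mul_of_nonneg_left hY2 (by positivity)
    _ ≤ 4 * (1 + (Real.log (2 * k * (B + 1) + 1) + Real.log X)) * ((B + 1) ^ 2 * (X : ℝ) ^ (2 - κ1)) := by
        refine mul_le_mul_of_nonneg_right ?_ (by positivity)
        linarith
    _ = (4 * (B + 1) ^ 2 * (1 + Real.log (2 * k * (B + 1) + 1)) + 4 * (B + 1) ^ 2 * Real.log X) *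
        (X : ℝ) ^ (2 - κ1) := by ring
    _ ≤ (X : ℝ) ^ (κ1 / 2) * (X : ℝ) ^ (2 - κ1) := mul_le_mul_of_nonneg_right hfin (by positivity)
    _ = (X : ℝ) ^ (2 - κ1 / 2) := by
        rw [← Real.rpow_add (by linarith)]
        congr 1
        ring

end Pool.Agent.HUK
end

-- from Lib.HUK.C3
section

/-!
# HUK, chunk C3 (S/M): the projections of low level
-/

open Finset

namespace Pool.Agent.HUK

open Pool.Agent.H9S (lc Lc)
open Pool.Agent.H9U (JJ)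

/-- Proof. `Lc Q Y m = ∑_{z ∈ Ioo (-Y) Y} kern Q Y z * lc (m - z)` (definition of `Lk`), `K1_mass` (`H9S/K1`): `∑ |kern Q Y z| ≤ Q^3`. `C2_cut` with
`w = 0` and `w = z`, `|z| < Y ≤ X`. -/
theorem C3_kern (k : ℕ) (hk : 3 ≤ k) (hT : TLP k) (B : ℕ) (hB : 1 ≤ B) (κ : ℝ) (hκ : 0 < κ) (hκ1 : κ ≤ 1) :
    ∃ κ' : ℝ, 0 < κ' ∧ ∃ X0 : ℕ, ∀ X : ℕ, X0 ≤ X → ∀ f : ℕ → ℤ → ℂ, (∀ j, j < k → Bdd (B * X) (f j)) →
    GG (B * X) (k - 1) (f 0) ≤ (X : ℝ) ^ (k - κ) → ∀ Q Y : ℕ, Y ≤ X →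
    ‖∑ m ∈ JJ X, (lc m - Lc Q Y m) * Psi (B * X) k f m‖ ≤ (1 + (Q : ℝ) ^ 3) * (X : ℝ) ^ (2 - κ') := by
  obtain ⟨κ', hκ', X0, hX0⟩ := C2_cut k hk hT B hB κ hκ hκ1
  refine ⟨κ', hκ', X0, fun X hX f hf hG Q Y hY => ?_⟩
  have hcut := hX0 X hX f hf hG
  have h0 : ‖∑ m ∈ JJ X, lc m * Psi (B * X) k f m‖ ≤ (X : ℝ) ^ (2 - κ') := by
    have h := hcut 0 (by simp)
    simpa using h
  have e1 : ∑ m ∈ JJ X, Lc Q Y m * Psi (B * X) k f m =
      ∑ z ∈ Ioo (-(Y:ℤ)) Y, ((Pool.Agent.Lib.H68T.kern Q Y z : ℝ) : ℂ) *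
        ∑ m ∈ JJ X, lc (m - z) * Psi (B * X) k f m := by
    have h1 : ∀ m ∈ JJ X, Lc Q Y m * Psi (B * X) k f m =
        ∑ z ∈ Ioo (-(Y:ℤ)) Y, ((Pool.Agent.Lib.H68T.kern Q Y z : ℝ) : ℂ) *
          (lc (m - z) * Psi (B * X) k f m) := by
      intro m _
      have h2 : Lc Q Y m = ∑ z ∈ Ioo (-(Y:ℤ)) Y,
          ((Pool.Agent.Lib.H68T.kern Q Y z : ℝ) : ℂ) * lc (m - z) := by
        unfold Pool.Agent.H9S.Lc Pool.Agent.Lib.H68T.Lk Pool.Agent.H9S.lc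
        push_cast
        rfl
      rw [h2, sum_mul]
      exact sum_congr rfl fun z _ => by ring
    rw [sum_congr rfl h1, sum_comm]
    exact sum_congr rfl fun z _ => by rw [mul_sum]
  have h3 : ‖∑ m ∈ JJ X, Lc Q Y m * Psi (B * X) k f m‖ ≤ (Q : ℝ) ^ 3 * (X : ℝ) ^ (2 - κ') := by
    rw [e1]
    refine (norm_sum_le _ _).trans ?_
    have h4 : ∀ z ∈ Ioo (-(Y:ℤ)) Y, ‖((Pool.Agent.Lib.H68T.kern Q Y z : ℝ) : ℂ) *
        ∑ m ∈ JJ X, lc (m - z) * Psi (B * X) k f m‖ ≤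
        |Pool.Agent.Lib.H68T.kern Q Y z| * (X : ℝ) ^ (2 - κ') := by
      intro z hz
      rw [norm_mul, Complex.norm_real, Real.norm_eq_abs]
      refine mul_le_mul_of_nonneg_left (hcut z ?_) (abs_nonneg _)
      rw [mem_Ioo] at hz
      have hY' : (Y : ℤ) ≤ X := by exact_mod_cast hY
      rw [abs_le]
      constructor <;> linarith [hz.1, hz.2]
    refine (sum_le_sum h4).trans ?_
    rw [← sum_mul]
    exact mul_le_mul_of_nonneg_right (Pool.Agent.H9S.K1_mass Q Y)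
      (Real.rpow_nonneg (Nat.cast_nonneg X) _)
  have e2 : ∑ m ∈ JJ X, (lc m - Lc Q Y m) * Psi (B * X) k f m =
      ∑ m ∈ JJ X, lc m * Psi (B * X) k f m - ∑ m ∈ JJ X, Lc Q Y m * Psi (B * X) k f m := by
    rw [← sum_sub_distrib]
    exact sum_congr rfl fun m _ => by ring
  rw [e2]
  refine (norm_sub_le _ _).trans ?_
  linarith [h0, h3]

end Pool.Agent.HUK
end

-- from Lib.HUK.C4
section

/-!
# HUK, chunk C4 (M): the error `Er` against dual functions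
-/

open Finset

namespace Pool.Agent.HUK

open Pool.Agent.H9S (lc Lc)
open Pool.Agent.H9U (JJ Er Rgm)

theorem c4_Q2 (t : ℝ) (h1 : 1 ≤ t) : 1 ≤ ⌊t⌋₊ ∧ ((⌊t⌋₊ : ℕ) : ℝ) ≤ t ∧ t / 2 ≤ ((⌊t⌋₊ : ℕ) : ℝ) := by
  have h2 : 1 ≤ ⌊t⌋₊ := Nat.le_floor (by rw [Nat.cast_one]; exact h1)
  refine ⟨h2, Nat.floor_le (by linarith), ?_⟩
  have h3 : t < ((⌊t⌋₊ : ℕ) : ℝ) + 1 := Nat.lt_floor_add_one t
  have h4 : (1 : ℝ) ≤ ((⌊t⌋₊ : ℕ) : ℝ) := by exact_mod_cast h2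
  linarith

theorem c4_neg (x b c θ2 : ℝ) (hx : 1 ≤ x) (hc : 0 < c) (hb : x ^ θ2 / 2 ≤ b) :
    b ^ (-c) ≤ 2 ^ c * x ^ (-(c * θ2)) := by
  have hx0 : 0 < x := by linarith
  have h1 : 0 < x ^ θ2 / 2 := div_pos (Real.rpow_pos_of_pos hx0 _) two_pos
  have h2 : b ^ (-c) ≤ (x ^ θ2 / 2) ^ (-c) :=
    Real.rpow_le_rpow_of_nonpos h1 hb (by linarith)
  refine h2.trans (le_of_eq ?_)
  rw [Real.div_rpow (Real.rpow_nonneg hx0.le _) two_pos.le, ← Real.rpow_mul hx0.le,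
    Real.rpow_neg two_pos.le c, div_inv_eq_mul, mul_comm ((2 : ℝ) ^ c)]
  congr 2
  ring

/-- Proof. `K` from `LKP k` for `B`. Given `Cr θ κ`: `κ1` from `C3_kern`; `θ2 = min θ (κ1/6)`, `Q2 = ⌊X^θ2⌋₊`: `1 ≤ Q2 ≤ Q'` (`Rgm.low`: `X^θ2 ≤ X^θ ≤ Q'`, `X ≥ 1`),
`Q2 ≥ X^θ2/2`. With `Y = X/Q²`:
`Er Q Q' X m = (lc m - Lc Q2 Y m) - (Lk Q' Y m - Lk Q2 Y m)` and `Lk Q' - Lk Q2 = (Lk Q - Lk Q2) - (Lk Q - Lk Q')`.
First part: `C3_kern` with `Q2`: at most `2 X^(3 θ2) X^(2-κ1) ≤ 2 X^(2-κ1/2)`. Second: twice `LKP k` (with `Q2` and with `Q'`):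
at most `2 C X² Q2^(-c) ≤ 2 C 2^c X^(2 - c θ2)`. `κ' = min (min (κ1/2) (c θ2)) 1 / 2`, `X` large. -/
theorem C4_est (k : ℕ) (hk : 3 ≤ k) (hT : TLP k) (hL : LKP k) (B : ℕ) (hB : 1 ≤ B) : ∃ K : ℝ, 1 ≤ K ∧
    ∀ Cr θ κ : ℝ, 1 ≤ Cr → 0 < θ → 0 < κ → κ ≤ 1 → ∃ κ' : ℝ, 0 < κ' ∧ κ' ≤ 1 ∧ ∃ X0 : ℕ, ∀ Q Q' X : ℕ, X0 ≤ X →
    Rgm K Cr θ Q Q' X → ∀ f : ℕ → ℤ → ℂ, (∀ j, j < k → Bdd (B * X) (f j)) →
    GG (B * X) (k - 1) (f 0) ≤ (X : ℝ) ^ (k - κ) →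
    ‖∑ m ∈ JJ X, Er Q Q' X m * Psi (B * X) k f m‖ ≤ (X : ℝ) ^ (2 - κ') := by
  obtain ⟨K, C, c, hK, hC, hc, hLK⟩ := hL B
  refine ⟨K, hK, ?_⟩
  intro Cr θ κ hCr hθ hκ hκle
  obtain ⟨κ1, hκ1, X1, h3⟩ := C3_kern k hk hT B hB κ hκ hκle
  have hθ2 : 0 < min θ (κ1 / 6) := lt_min hθ (by linarith)
  have hθ2a : min θ (κ1 / 6) ≤ θ := min_le_left _ _
  have hθ2b : min θ (κ1 / 6) ≤ κ1 / 6 := min_le_right _ _
  generalize min θ (κ1 / 6) = θ2 at hθ2 hθ2a hθ2b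
  have hm0 : 0 < min (min (κ1 / 2) (c * θ2)) 1 :=
    lt_min (lt_min (by linarith) (mul_pos hc hθ2)) one_pos
  have hm1 : min (min (κ1 / 2) (c * θ2)) 1 ≤ κ1 / 2 := (min_le_left _ _).trans (min_le_left _ _)
  have hm2 : min (min (κ1 / 2) (c * θ2)) 1 ≤ c * θ2 := (min_le_left _ _).trans (min_le_right _ _)
  have hm3 : min (min (κ1 / 2) (c * θ2)) 1 ≤ 1 := min_le_right _ _
  generalize min (min (κ1 / 2) (c * θ2)) 1 = m at hm0 hm1 hm2 hm3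
  refine ⟨m / 2, by linarith, by linarith, ?_⟩
  have hA : 0 < 2 + 2 * C * 2 ^ c := by positivity
  refine ⟨max (max X1 1) ⌈(2 + 2 * C * 2 ^ c) ^ (1 / (m / 2))⌉₊, ?_⟩
  intro Q Q' X hX hR f hf hG
  have hX1 : X1 ≤ X := ((le_max_left _ _).trans (le_max_left _ _)).trans hX
  have hX2 : 1 ≤ X := ((le_max_right _ _).trans (le_max_left _ _)).trans hX
  have hX3 : ⌈(2 + 2 * C * 2 ^ c) ^ (1 / (m / 2))⌉₊ ≤ X := (le_max_right _ _).trans hX
  have hx1 : (1 : ℝ) ≤ X := by exact_mod_cast hX2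
  have hx0 : (0 : ℝ) < X := by linarith
  have hbig : 2 + 2 * C * 2 ^ c ≤ (X : ℝ) ^ (m / 2) := by
    have h4 : (2 + 2 * C * 2 ^ c) ^ (1 / (m / 2)) ≤ (X : ℝ) :=
      (Nat.le_ceil _).trans (by exact_mod_cast hX3)
    have h5 := Real.rpow_le_rpow (Real.rpow_nonneg hA.le _) h4 (by linarith : 0 ≤ m / 2)
    rw [← Real.rpow_mul hA.le, one_div_mul_cancel (by linarith : m / 2 ≠ 0), Real.rpow_one] at h5
    exact h5
  have ht1 : 1 ≤ (X : ℝ) ^ θ2 := Real.one_le_rpow hx1 hθ2.le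
  obtain ⟨hQ1, hQ2, hQ3⟩ := c4_Q2 ((X : ℝ) ^ θ2) ht1
  generalize ⌊(X : ℝ) ^ θ2⌋₊ = Q2 at hQ1 hQ2 hQ3
  have hQQ' : Q2 ≤ Q' := by
    have h4 : ((Q2 : ℕ) : ℝ) ≤ (Q' : ℝ) :=
      (hQ2.trans (Real.rpow_le_rpow_of_exponent_le hx1 hθ2a)).trans hR.low
    exact_mod_cast h4
  have hQ'1 : 1 ≤ Q' := hQ1.trans hQQ'
  -- the three parts
  have hP1 := h3 X hX1 f hf hG Q2 (X / Q ^ 2) (Nat.div_le_self _ _)
  have hP2 := hLK Q Q2 X hR.reg hQ1 (hQQ'.trans hR.le) f hf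
  have hP3 := hLK Q Q' X hR.reg hQ'1 hR.le f hf
  have hsum : ∑ m ∈ JJ X, Er Q Q' X m * Psi (B * X) k f m =
      ∑ m ∈ JJ X, (lc m - Lc Q2 (X / Q ^ 2) m) * Psi (B * X) k f m +
      ∑ n ∈ JJ X, ((Lib.H68T.Lk Q (X / Q ^ 2) n - Lib.H68T.Lk Q' (X / Q ^ 2) n : ℝ) : ℂ) * Psi (B * X) k f n -
      ∑ n ∈ JJ X, ((Lib.H68T.Lk Q (X / Q ^ 2) n - Lib.H68T.Lk Q2 (X / Q ^ 2) n : ℝ) : ℂ) * Psi (B * X) k f n := by
    rw [← sum_add_distrib, ← sum_sub_distrib]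
    refine sum_congr rfl fun n _ => ?_
    unfold Er Lc
    push_cast
    ring
  have hb1 : (1 + (Q2 : ℝ) ^ 3) * (X : ℝ) ^ (2 - κ1) ≤ 2 * (X : ℝ) ^ (2 - m) := by
    have h4 : (Q2 : ℝ) ^ 3 ≤ (X : ℝ) ^ (κ1 / 2) := by
      have h5 : (Q2 : ℝ) ^ 3 ≤ ((X : ℝ) ^ θ2) ^ 3 := pow_le_pow_left₀ (Nat.cast_nonneg _) hQ2 3
      refine h5.trans ?_
      rw [← Real.rpow_natCast, ← Real.rpow_mul hx0.le]
      refine Real.rpow_le_rpow_of_exponent_le hx1 ?_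
      push_cast
      linarith
    have h6 : 1 ≤ (X : ℝ) ^ (κ1 / 2) := Real.one_le_rpow hx1 (by linarith)
    have h7 : (1 + (Q2 : ℝ) ^ 3) * (X : ℝ) ^ (2 - κ1) ≤ (2 * (X : ℝ) ^ (κ1 / 2)) * (X : ℝ) ^ (2 - κ1) :=
      mul_le_mul_of_nonneg_right (by linarith) (Real.rpow_nonneg hx0.le _)
    refine h7.trans ?_
    rw [mul_assoc, ← Real.rpow_add hx0]
    refine mul_le_mul_of_nonneg_left (Real.rpow_le_rpow_of_exponent_le hx1 (by linarith)) two_pos.le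
  have hpos : 0 ≤ C * (X : ℝ) ^ 2 := by positivity
  have key : ∀ b : ℝ, (X : ℝ) ^ θ2 / 2 ≤ b → C * (X : ℝ) ^ 2 * b ^ (-c) ≤ C * 2 ^ c * (X : ℝ) ^ (2 - m) := by
    intro b hb
    have h4 := c4_neg X b c θ2 hx1 hc hb
    have h5 := mul_le_mul_of_nonneg_left h4 hpos
    refine h5.trans ?_
    have h6 : C * (X : ℝ) ^ 2 * (2 ^ c * (X : ℝ) ^ (-(c * θ2))) = C * 2 ^ c * (X : ℝ) ^ (2 - c * θ2) := by
      rw [show (2 : ℝ) - c * θ2 = 2 + -(c * θ2) by ring, Real.rpow_add hx0, Real.rpow_two]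
      ring
    rw [h6]
    refine mul_le_mul_of_nonneg_left (Real.rpow_le_rpow_of_exponent_le hx1 (by linarith)) (by positivity)
  have hb2 := key (Q2 : ℝ) hQ3
  have hb3 := key (Q' : ℝ) (hQ3.trans (by exact_mod_cast hQQ'))
  rw [hsum]
  have hn1 := norm_sub_le (∑ m ∈ JJ X, (lc m - Lc Q2 (X / Q ^ 2) m) * Psi (B * X) k f m +
      ∑ n ∈ JJ X, ((Lib.H68T.Lk Q (X / Q ^ 2) n - Lib.H68T.Lk Q' (X / Q ^ 2) n : ℝ) : ℂ) * Psi (B * X) k f n)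
      (∑ n ∈ JJ X, ((Lib.H68T.Lk Q (X / Q ^ 2) n - Lib.H68T.Lk Q2 (X / Q ^ 2) n : ℝ) : ℂ) * Psi (B * X) k f n)
  have hn2 := norm_add_le (∑ m ∈ JJ X, (lc m - Lc Q2 (X / Q ^ 2) m) * Psi (B * X) k f m)
      (∑ n ∈ JJ X, ((Lib.H68T.Lk Q (X / Q ^ 2) n - Lib.H68T.Lk Q' (X / Q ^ 2) n : ℝ) : ℂ) * Psi (B * X) k f n)
  have htot : (2 + 2 * C * 2 ^ c) * (X : ℝ) ^ (2 - m) ≤ (X : ℝ) ^ (2 - m / 2) := by
    have h4 : (2 + 2 * C * 2 ^ c) * (X : ℝ) ^ (2 - m) ≤ (X : ℝ) ^ (m / 2) * (X : ℝ) ^ (2 - m) :=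
      mul_le_mul_of_nonneg_right hbig (Real.rpow_nonneg hx0.le _)
    refine h4.trans (le_of_eq ?_)
    rw [← Real.rpow_add hx0]
    congr 1
    ring
  refine le_trans ?_ htot
  have e1 : (2 + 2 * C * 2 ^ c) * (X : ℝ) ^ (2 - m) = 2 * (X : ℝ) ^ (2 - m) + C * 2 ^ c * (X : ℝ) ^ (2 - m) + C * 2 ^ c * (X : ℝ) ^ (2 - m) := by ring
  rw [e1]
  linarith

end Pool.Agent.HUK
end

-- from Lib.HUP.W1
section

/-!
# Project HUP, W1 (helper37): translates along the values of a polynomial, one function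
-/

open Finset

namespace Pool.Agent.HUP

open Pool.Agent.H44W (ee)
open Pool.Agent.Lib.H84V (nd nd_nonneg exists_nd)
open Pool.Agent.HUK

/-- The autocorrelation of a function supported in `[-Y, Y)`. -/
noncomputable def Ag (Y : ℕ) (g : ℤ → ℂ) (m : ℤ) : ℂ := ∑ y ∈ Ico (-(Y : ℤ)) Y, DD m g y

theorem w1_zero {Y : ℕ} {g : ℤ → ℂ} (hg : Spt Y g) (m : ℤ) (hm : (2 * Y : ℤ) ≤ |m|) : Ag Y g m = 0 := by
  unfold Ag
  refine Finset.sum_eq_zero fun y hy => ?_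
  rw [mem_Ico] at hy
  unfold DD
  rw [hg (y + m), map_zero, mul_zero]
  rw [mem_Ico]
  rcases abs_cases m with ⟨h, _⟩ | ⟨h, _⟩
  · omega
  · omega




end Pool.Agent.HUP
end

-- from Lib.HUP.W3
section

/-!
# Project HUP, W3 (helper37): POLY2, Gowers norms of the differences along a polynomial
-/

open Finset

namespace Pool.Agent.HUP

open Pool.Agent.H44W (ee)
open Pool.Agent.Lib.H84V (nd nd_nonneg exists_nd)
open Pool.Agent.HUK

theorem w3_GG (Y r : ℕ) (f : ℤ → ℂ) (m : ℤ) :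
    GG Y r (DD m f) = ∑ h ∈ bxS r (2 * Y), (Ag Y (DV h f) m).re := by
  unfold GG
  rw [Complex.re_sum]
  refine Finset.sum_congr rfl fun h _ => ?_
  unfold FF Ag DV
  rw [D0_DLDD]

theorem w3_zero {Y r : ℕ} {f : ℤ → ℂ} (hf : Spt Y f) (m : ℤ) (hm : (2 * Y : ℤ) ≤ |m|) : GG Y r (DD m f) = 0 := by
  rw [w3_GG]
  refine Finset.sum_eq_zero fun h _ => ?_
  rw [w1_zero (D0_SDV hf h) m hm, Complex.zero_re]









end Pool.Agent.HUP
end

-- from Lib.HUP.W4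
section

/-!
# Project HUP, W4 (helper37): POLY2 in the form used by `P3_main`; windows, translations; polynomials are `PF`
-/

open Finset

namespace Pool.Agent.HUP

open Pool.Agent.H44W (ee)
open Pool.Agent.Lib.H84V (nd nd_nonneg exists_nd)
open Pool.Agent.HUK

/-! ### Windows and translations -/

theorem w4_sum {Y Y' : ℕ} {f : ℤ → ℂ} (a : ℤ) (h : Spt Y f) (h' : Spt Y' (fun y => f (y + a))) :
    ∑ y ∈ Ico (-(Y : ℤ)) Y, f y = ∑ y ∈ Ico (-(Y' : ℤ)) Y', f (y + a) := by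
  have h1 : ∑' y, f y = ∑ y ∈ Ico (-(Y : ℤ)) Y, f y := tsum_eq_sum fun y hy => h y hy
  have h2 : ∑' y, f (y + a) = ∑ y ∈ Ico (-(Y' : ℤ)) Y', f (y + a) := tsum_eq_sum fun y hy => h' y hy
  rw [← h1, ← h2]
  exact ((Equiv.addRight a).tsum_eq f).symm

theorem w4_DD (a b : ℤ) (f : ℤ → ℂ) : DD b (fun y => f (y + a)) = fun y => DD b f (y + a) := by
  funext y
  unfold DD
  rw [add_right_comm]



/-- Gowers sums depend neither on the window nor on translations. -/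
theorem w4_GG (s : ℕ) : ∀ (Y Y' : ℕ) (f : ℤ → ℂ) (a : ℤ), Spt Y f → Spt Y' (fun y => f (y + a)) →
    GG Y s f = GG Y' s (fun y => f (y + a)) := by
  induction s with
  | zero =>
    intro Y Y' f a h h'
    have h0 : ∀ (N : ℕ), bxS 0 N = {fun i => Fin.elim0 i} := by
      intro N
      unfold bxS
      ext x
      rw [Fintype.mem_piFinset, mem_singleton]
      exact ⟨fun _ => funext fun i => Fin.elim0 i, fun _ i => Fin.elim0 i⟩
    unfold GG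
    rw [h0, h0, sum_singleton, sum_singleton]
    congr 1
    unfold FF DV
    simp only [List.ofFn_zero]
    exact w4_sum a h h'
  | succ s ih =>
    intro Y Y' f a h h'
    rw [D0_succ, D0_succ]
    have e1 : ∀ b : ℤ, GG Y s (DD b f) = GG Y' s (DD b (fun y => f (y + a))) := by
      intro b
      rw [w4_DD]
      refine ih Y Y' (DD b f) a (D0_SDD h b) ?_
      have h2 := D0_SDD h' b
      rw [w4_DD] at h2
      exact h2
    have e2 : ∀ (Z : ℕ) (g : ℤ → ℂ), Spt Z g → ∀ R : ℕ, Z ≤ R → ∑ b ∈ Ioo (-(2 * Z : ℤ)) (2 * Z), GG Z s (DD b g) =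
        ∑ b ∈ Ioo (-(2 * R : ℤ)) (2 * R), GG Z s (DD b g) := by
      intro Z g hg R hR
      refine Finset.sum_subset ?_ fun b _ hb => ?_
      · intro b hb
        rw [mem_Ioo] at hb ⊢
        omega
      · rw [mem_Ioo] at hb
        refine w3_zero hg b ?_
        rcases abs_cases b with ⟨h, _⟩ | ⟨h, _⟩
        · omega
        · omega
    rw [e2 Y f h (Y + Y') (by omega), e2 Y' _ h' (Y + Y') (by omega)]
    exact Finset.sum_congr rfl fun b _ => e1 b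









end Pool.Agent.HUP
end

-- from Lib.HUP.S4A
section

/-!
# Project HUP, S4A (helper37): one term of the telescoping sum (`P3_main` and `poly2_main`), numerical form
-/

open Finset

namespace Pool.Agent.HUP

open Pool.Agent.H44W (ee)
open Pool.Agent.HUK

theorem s4a_large (A c : ℝ) (hc : 0 < c) : ∃ X0 : ℕ, ∀ X : ℕ, X0 ≤ X → A ≤ (X : ℝ) ^ c := by
  have h := ((tendsto_rpow_atTop hc).comp tendsto_natCast_atTop_atTop).eventually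
    (Filter.eventually_ge_atTop A)
  obtain ⟨X0, h0⟩ := Filter.eventually_atTop.1 h
  exact ⟨X0, fun X hX => h0 X hX⟩


end Pool.Agent.HUP
end

-- from Lib.HUP.S4B
section

/-!
# Project HUP, S4B (helper37): the interface `OneT` (one term of the telescoping sum), proved for forms which are
pairwise not proportional
-/

open Finset Polynomial

namespace Pool.Agent.HUP

open Pool.Agent.HUK
open Pool.Agent.H9U (JJ)



theorem s4b_JJ {Y : ℕ} {y : ℤ} (h : y ∈ JJ Y) : 2 * (Y : ℤ) ≤ y ∧ 4 * (y - 2 * Y) < Y := by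
  unfold JJ at h
  rw [mem_Ico] at h
  omega






end Pool.Agent.HUP
end

-- from Lib.HUP.S4T
section

/-!
# Project HUP, S4T (helper37): the primes may be replaced by their projections, mean square over the parameters
-/

open Finset Polynomial

namespace Pool.Agent.HUP

open Pool.Agent.Lib.H68T Pool.Agent.Lib.H18Q Pool.Agent.Lib.H59P Pool.Agent.Lib.H24P
open Pool.Agent.HUK (GG Spt PK DD DL DV bxS D0_nn)
open Pool.Agent.H9U (JJ cutJ Er Rgm)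

/-! ### Numerical part -/

theorem s4t_num (k d E : ℕ) (δ τ : ℝ) (hδ : 0 < δ) (hτ : 0 < τ) (hτδ : τ * (4 + E + d) ≤ δ / 4) :
    ∃ Q0 : ℕ, 1 ≤ Q0 ∧ ∀ Q X X1 X' : ℕ, Q0 ≤ Q → Q ≤ X → (X : ℝ) ≤ X1 * (Q : ℝ) ^ τ → (X' : ℝ) ≤ 2 * X * (Q : ℝ) ^ τ →
    X ≤ X' → ∀ S : ℝ, 0 ≤ S → (X : ℝ) ^ E ≤ (Q : ℝ) ^ (τ * d) * S →
    (k : ℝ) ^ 2 * (X : ℝ) ^ (δ / 4) * (X' : ℝ) ^ (2 + (E : ℝ) - δ) ≤ (X1 : ℝ) ^ 2 * S * (Q : ℝ) ^ (-(δ / 4)) := by
  obtain ⟨Q1, hQ1⟩ := s4a_large ((k : ℝ) ^ 2 * 2 ^ (2 + E)) (δ / 4) (by positivity)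
  refine ⟨max 1 Q1, le_max_left _ _, ?_⟩
  intro Q X X1 X' hQ hQX hX hX' hXX' S hS hSE
  have hQ1' : 1 ≤ Q := (le_max_left _ _).trans hQ
  have hQr : (1 : ℝ) ≤ Q := by exact_mod_cast hQ1'
  have hQ0 : (0 : ℝ) < Q := by linarith
  have hXr : (1 : ℝ) ≤ X := by exact_mod_cast hQ1'.trans hQX
  have hX0 : (0 : ℝ) < X := by linarith
  have hX'X : (X : ℝ) ≤ X' := by exact_mod_cast hXX'
  have hX'0 : (0 : ℝ) < X' := by linarith
  have hQXr : (Q : ℝ) ≤ X := by exact_mod_cast hQX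
  have h1 : (X' : ℝ) ^ (2 + (E : ℝ) - δ) ≤ 2 ^ (2 + E) * ((X : ℝ) ^ 2 * X ^ E) * (Q : ℝ) ^ (τ * (2 + E)) * (X : ℝ) ^ (-δ) := by
    have e1 : (X' : ℝ) ^ (2 + (E : ℝ) - δ) = (X' : ℝ) ^ (2 + E) * (X' : ℝ) ^ (-δ) := by
      rw [sub_eq_add_neg, Real.rpow_add hX'0]
      congr 1
      rw [← Real.rpow_natCast]
      congr 1
      push_cast
      ring
    rw [e1]
    have e2 : (X' : ℝ) ^ (2 + E) ≤ (2 * X * (Q : ℝ) ^ τ) ^ (2 + E) := pow_le_pow_left₀ hX'0.le hX' _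
    have e3 : (2 * X * (Q : ℝ) ^ τ) ^ (2 + E) = 2 ^ (2 + E) * ((X : ℝ) ^ 2 * X ^ E) * (Q : ℝ) ^ (τ * (2 + E)) := by
      rw [mul_pow, mul_pow, pow_add (X : ℝ) 2 E, Real.rpow_mul hQ0.le]
      congr 1
      rw [← Real.rpow_natCast]
      congr 1
      push_cast
      ring
    have e4 : (X' : ℝ) ^ (-δ) ≤ (X : ℝ) ^ (-δ) := Real.rpow_le_rpow_of_nonpos hX0 hX'X (by linarith)
    rw [← e3]
    exact mul_le_mul e2 e4 (by positivity) (by positivity)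
  have h2 : (X : ℝ) ^ 2 ≤ (X1 : ℝ) ^ 2 * (Q : ℝ) ^ (τ * 2) := by
    calc (X : ℝ) ^ 2 ≤ (X1 * (Q : ℝ) ^ τ) ^ 2 := pow_le_pow_left₀ hX0.le hX 2
      _ = _ := by
        rw [mul_pow, Real.rpow_mul hQ0.le, Real.rpow_two]
  have h3 : (X : ℝ) ^ 2 * X ^ E ≤ (X1 : ℝ) ^ 2 * S * (Q : ℝ) ^ (τ * (2 + d)) := by
    calc (X : ℝ) ^ 2 * X ^ E ≤ ((X1 : ℝ) ^ 2 * (Q : ℝ) ^ (τ * 2)) * ((Q : ℝ) ^ (τ * d) * S) :=
          mul_le_mul h2 hSE (by positivity) (by positivity)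
      _ = (X1 : ℝ) ^ 2 * S * ((Q : ℝ) ^ (τ * 2) * (Q : ℝ) ^ (τ * d)) := by ring
      _ = _ := by
        rw [← Real.rpow_add hQ0]
        congr 2
        ring
  have h4 : (X : ℝ) ^ (δ / 4) * (X : ℝ) ^ (-δ) ≤ (Q : ℝ) ^ (-(3 * δ / 4)) := by
    rw [← Real.rpow_add hX0]
    calc (X : ℝ) ^ (δ / 4 + -δ) ≤ (Q : ℝ) ^ (δ / 4 + -δ) := Real.rpow_le_rpow_of_nonpos hQ0 hQXr (by linarith)
      _ = _ := by congr 1; ring
  have h5 := hQ1 Q ((le_max_right _ _).trans hQ)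
  calc (k : ℝ) ^ 2 * (X : ℝ) ^ (δ / 4) * (X' : ℝ) ^ (2 + (E : ℝ) - δ)
      ≤ (k : ℝ) ^ 2 * (X : ℝ) ^ (δ / 4) * (2 ^ (2 + E) * ((X : ℝ) ^ 2 * X ^ E) * (Q : ℝ) ^ (τ * (2 + E)) * (X : ℝ) ^ (-δ)) :=
        mul_le_mul_of_nonneg_left h1 (by positivity)
    _ = ((k : ℝ) ^ 2 * 2 ^ (2 + E)) * ((X : ℝ) ^ 2 * X ^ E) * (Q : ℝ) ^ (τ * (2 + E)) * ((X : ℝ) ^ (δ / 4) * (X : ℝ) ^ (-δ)) := by ring
    _ ≤ (Q : ℝ) ^ (δ / 4) * ((X1 : ℝ) ^ 2 * S * (Q : ℝ) ^ (τ * (2 + d))) * (Q : ℝ) ^ (τ * (2 + E)) * (Q : ℝ) ^ (-(3 * δ / 4)) := by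
        refine mul_le_mul (mul_le_mul_of_nonneg_right (mul_le_mul h5 h3 (by positivity) (by positivity)) (by positivity)) h4 (by positivity)
          (by positivity)
    _ = (X1 : ℝ) ^ 2 * S * ((Q : ℝ) ^ (δ / 4) * (Q : ℝ) ^ (τ * (2 + d)) * (Q : ℝ) ^ (τ * (2 + E)) * (Q : ℝ) ^ (-(3 * δ / 4))) := by ring
    _ = (X1 : ℝ) ^ 2 * S * (Q : ℝ) ^ (δ / 4 + τ * (2 + d) + τ * (2 + E) + -(3 * δ / 4)) := by
        rw [← Real.rpow_add hQ0, ← Real.rpow_add hQ0, ← Real.rpow_add hQ0]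
    _ ≤ _ := by
        refine mul_le_mul_of_nonneg_left (Real.rpow_le_rpow_of_exponent_le hQr ?_) (by positivity)
        nlinarith

theorem s4t_val (M : ℕ) (h : ℤ) (v : ℤ) (h8 : 8 ∣ M) (hM : 80 ≤ M) (hv : 1000 * |v| ≤ M) (h1 : 151 * (M : ℤ) ≤ 100 * h)
    (h2 : 100 * h < 168 * (M : ℤ)) : v + h ∈ JJ (Ysc M) := by
  obtain ⟨m, rfl⟩ := h8
  have hY : Ysc (8 * m) = 6 * m := by
    unfold Ysc
    omega
  rw [hY]
  unfold JJ
  rw [mem_Ico]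
  have hv1 := abs_le.1 (show |v| ≤ 8 * (m : ℤ) / 1000 by push_cast at hv; omega)
  push_cast at h1 h2 ⊢
  constructor
  · omega
  · omega

theorem s4t_JJ {Y : ℕ} {m : ℤ} (h : m ∈ JJ Y) : (Y : ℤ) ≤ m ∧ m ≤ 4 * Y := by
  have h1 := s4b_JJ h
  constructor <;> omega

theorem s4t_DL (l : List ℤ) (a : ℝ) (f : ℤ → ℂ) : DL l (fun z => (a : ℂ) * f z) = fun z => ((a ^ (2 ^ l.length) : ℝ) : ℂ) * DL l f z :=
  Pool.Agent.HUK.DL_smul l a f

/-- Scaling. -/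
theorem s4t_GG (Y s : ℕ) (a : ℝ) (f : ℤ → ℂ) : Pool.Agent.HUK.GG Y s (fun y => (a : ℂ) * f y) = a ^ (2 ^ s) * Pool.Agent.HUK.GG Y s f := by
  unfold Pool.Agent.HUK.GG
  rw [← Complex.re_ofReal_mul, Finset.mul_sum]
  congr 1
  refine Finset.sum_congr rfl fun h _ => ?_
  unfold Pool.Agent.HUK.FF
  rw [Finset.mul_sum]
  refine Finset.sum_congr rfl fun y _ => ?_
  unfold DV
  rw [s4t_DL, List.length_ofFn]

theorem s4t_scale (Y s : ℕ) (hs : 1 ≤ s) (a : ℝ) (ha : 0 ≤ a) (ha1 : a ≤ 1) (f : ℤ → ℂ) (hf : Spt Y f) :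
    Pool.Agent.HUK.GG Y s (fun y => (a : ℂ) * f y) ≤ Pool.Agent.HUK.GG Y s f := by
  rw [s4t_GG]
  have h1 : a ^ (2 ^ s) ≤ 1 := pow_le_one₀ ha ha1
  have h2 := D0_nn hf hs
  nlinarith

/-- Independence of the window. -/
theorem s4t_win (Y Y' s : ℕ) (f : ℤ → ℂ) (h : Spt Y f) (h' : Spt Y' f) : Pool.Agent.HUK.GG Y s f = Pool.Agent.HUK.GG Y' s f := by
  have e : (fun y => f (y + 0)) = f := by
    funext y
    rw [add_zero]
  have h1 := w4_GG s Y Y' f 0 h (by rw [e]; exact h')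
  rw [e] at h1
  exact h1

/-! ### Telescoping -/

/-- the functions of the telescoping sum -/
noncomputable def s4tf {k : ℕ} (Q : ℕ) (M : Fin k → ℕ) (j i : Fin k) (m : ℤ) : ℝ :=
  if i < j then Lk Q (Ysc (M i) / Q ^ 2) m else if i = j then lp m - Lk Q (Ysc (M i) / Q ^ 2) m else lp m

theorem s4t_tel {k : ℕ} (P : Fin k → ℤ[X]) (Q X1 : ℕ) (M : Fin k → ℕ) (w : ℕ → ℝ) (h : Fin k → ℕ) :
    ∑ n ∈ Ico X1 (2 * X1), w n * ∏ i, lp ((P i).eval (n : ℤ) + h i) - Rw Q X1 P M w h =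
      ∑ j, ∑ n ∈ Ico X1 (2 * X1), w n * ∏ i, s4tf Q M j i ((P i).eval (n : ℤ) + h i) := by
  unfold Rw
  rw [← Finset.sum_sub_distrib, Finset.sum_comm]
  refine Finset.sum_congr rfl fun n hn => ?_
  rw [← mul_sub, ← Finset.mul_sum]
  congr 1
  rw [Pool.Agent.Lib.H59P.S3 (fun i => lp ((P i).eval (n : ℤ) + h i))
    (fun i => Lk Q (Ysc (M i) / Q ^ 2) ((P i).eval (n : ℤ) + h i))]
  rfl

/-- the functions of the telescoping sum, cut off and normalised -/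
noncomputable def s4tg {k : ℕ} (W : ℝ) (Q : ℕ) (M : Fin k → ℕ) (j i : Fin k) (m : ℤ) : ℂ :=
  if m ∈ JJ (Ysc (M i)) then (((s4tf Q M j i m) / W : ℝ) : ℂ) else 0

theorem s4tg_cut {k : ℕ} (W : ℝ) (Q : ℕ) (M : Fin k → ℕ) (j : Fin k) (m : ℤ) :
    s4tg W Q M j j m = ((1 / W : ℝ) : ℂ) * cutJ (Ysc (M j)) (Er Q Q (Ysc (M j))) m := by
  unfold s4tg cutJ s4tf Er Pool.Agent.H9S.lc Pool.Agent.H9S.Lc
  by_cases h : m ∈ JJ (Ysc (M j))
  · rw [if_pos h, if_pos h, if_neg (lt_irrefl j), if_pos rfl]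
    push_cast
    ring
  · rw [if_neg h, if_neg h, mul_zero]

theorem s4t_le_sum {k : ℕ} (f : Fin k → ℕ) (i : Fin k) : f i ≤ ∑ i, f i :=
  Finset.single_le_sum (f := f) (fun _ _ => Nat.zero_le _) (Finset.mem_univ i)

/-- The values of the polynomials are small. -/
theorem s4t_poly (A X1 M : ℕ) (P : ℤ[X]) (hA : P.natDegree ≤ A)
    (hlo : ∀ j, 1000 * (A + 1) ^ 2 * (P.coeff j).natAbs * (2 * X1) ^ j ≤ M) (n : ℕ) (hn : n < 2 * X1) :
    1000 * |P.eval (n : ℤ)| ≤ M := by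
  rw [Polynomial.eval_eq_sum_range]
  have h1 : ∀ j ∈ range (P.natDegree + 1), 1000 * ((A : ℤ) + 1) * |P.coeff j * (n : ℤ) ^ j| ≤ M := by
    intro j _
    have h2 := hlo j
    have h3 : (n : ℤ) ^ j ≤ (2 * X1) ^ j := pow_le_pow_left₀ (by positivity) (by exact_mod_cast hn.le) j
    rw [abs_mul, abs_pow, Nat.abs_cast]
    have h4 : ((1000 * (A + 1) ^ 2 * (P.coeff j).natAbs * (2 * X1) ^ j : ℕ) : ℤ) ≤ M := by exact_mod_cast h2
    push_cast at h4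
    have h5 : (0 : ℤ) ≤ |P.coeff j| := abs_nonneg _
    have h6 : 1000 * ((A : ℤ) + 1) * (|P.coeff j| * (n : ℤ) ^ j) ≤ 1000 * ((A : ℤ) + 1) * (|P.coeff j| * (2 * X1) ^ j) :=
      mul_le_mul_of_nonneg_left (mul_le_mul_of_nonneg_left h3 h5) (by positivity)
    have h7 : 0 ≤ |P.coeff j| * (2 * (X1 : ℤ)) ^ j := by positivity
    have h8 : 1000 * ((A : ℤ) + 1) * (|P.coeff j| * (2 * X1) ^ j) ≤ 1000 * ((A : ℤ) + 1) ^ 2 * (|P.coeff j| * (2 * X1) ^ j) := by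
      refine mul_le_mul_of_nonneg_right ?_ h7
      nlinarith [Int.natCast_nonneg A]
    have h9 : 1000 * ((A : ℤ) + 1) ^ 2 * (|P.coeff j| * (2 * X1) ^ j) = 1000 * ((A : ℤ) + 1) ^ 2 * |P.coeff j| * (2 * X1) ^ j := by ring
    linarith
  have h2 : 1000 * ((A : ℤ) + 1) * |∑ j ∈ range (P.natDegree + 1), P.coeff j * (n : ℤ) ^ j| ≤ ((A : ℤ) + 1) * M := by
    calc 1000 * ((A : ℤ) + 1) * |∑ j ∈ range (P.natDegree + 1), P.coeff j * (n : ℤ) ^ j|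
        ≤ 1000 * ((A : ℤ) + 1) * ∑ j ∈ range (P.natDegree + 1), |P.coeff j * (n : ℤ) ^ j| :=
          mul_le_mul_of_nonneg_left (Finset.abs_sum_le_sum_abs _ _) (by positivity)
      _ = ∑ j ∈ range (P.natDegree + 1), 1000 * ((A : ℤ) + 1) * |P.coeff j * (n : ℤ) ^ j| := Finset.mul_sum _ _ _
      _ ≤ ∑ _j ∈ range (P.natDegree + 1), (M : ℤ) := Finset.sum_le_sum h1
      _ = ((P.natDegree : ℤ) + 1) * M := by rw [Finset.sum_const, card_range, nsmul_eq_mul]; push_cast; ring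
      _ ≤ _ := by
        refine mul_le_mul_of_nonneg_right ?_ (by positivity)
        have : (P.natDegree : ℤ) ≤ A := by exact_mod_cast hA
        linarith
  have h3 : ((A : ℤ) + 1) * (1000 * |∑ j ∈ range (P.natDegree + 1), P.coeff j * (n : ℤ) ^ j|) ≤ ((A : ℤ) + 1) * M := by
    refine le_trans (le_of_eq ?_) h2
    ring
  exact le_of_mul_le_mul_left h3 (by positivity)

/-- The regime, uniformly. -/
theorem s4t_reg {k : ℕ} (D : Fin k → ℕ) (hD : ∀ i, 1 ≤ D i) (K C : ℝ) (hK : 1 ≤ K) :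
    ∃ Q0 : ℕ, ∀ (A Q X X1 : ℕ) (a : Fin k → ℤ) (P : Fin k → ℤ[X]) (M : Fin k → ℕ), (∀ i, a i ≠ 0) → HasD D a P → Q0 ≤ Q →
    Rg (K + 1) C Q X → GeoU A Q X X1 P M → ∀ i, RegP K Q (Ysc (M i)) ∧ X1 ≤ Ysc (M i) ∧
      Real.log (Ysc (M i)) ≤ (D i + 1) * Real.log X := by
  obtain ⟨Q0, hQ0⟩ := G2_reg (fun i => (X : ℤ[X]) ^ D i) (fun i => by rw [Polynomial.natDegree_X_pow]; exact hD i) K C hK
  refine ⟨Q0, fun A Q X X1 a P M ha hP hQ hR hG i => ?_⟩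
  have hG' : Geo 2 Q X X1 (fun i => (Polynomial.X : ℤ[X]) ^ D i) M := by
    refine ⟨hG.dvd, hG.pos, hG.le, hG.ge, hG.dvdM, fun i => ?_, fun i => ?_⟩
    · rw [Polynomial.natDegree_X_pow]
      have h1 := hG.lo i (D i)
      have h2 : (P i).coeff (D i) = a i := by
        rw [← (hP i).2, ← (hP i).1]
        rfl
      rw [h2] at h1
      have h3 : 1 ≤ (a i).natAbs := Int.natAbs_pos.2 (ha i)
      have h4 : X1 ^ D i ≤ (2 * X1) ^ D i := Nat.pow_le_pow_left (by omega) _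
      refine le_trans ?_ h1
      calc 2 * X1 ^ D i ≤ 1000 * (A + 1) ^ 2 * (a i).natAbs * X1 ^ D i := by
            refine Nat.mul_le_mul_right _ ?_
            have h5 : 1 ≤ (A + 1) ^ 2 := Nat.one_le_pow _ _ (by omega)
            nlinarith
        _ ≤ _ := Nat.mul_le_mul_left _ h4
    · rw [Polynomial.natDegree_X_pow]
      have h1 := hG.hi i
      rw [(hP i).1] at h1
      exact h1
  have h1 := hQ0 2 Q X X1 M hQ le_rfl hR hG' i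
  rw [Polynomial.natDegree_X_pow] at h1
  exact h1

end Pool.Agent.HUP
end

-- from Lib.HUP.S4U
section

/-!
# Projects HUP, HPC, S4U (helper37): `S4TU_of`
-/

open Finset Polynomial

namespace Pool.Agent.HUP

open Pool.Agent.Lib.H68T Pool.Agent.Lib.H18Q Pool.Agent.Lib.H59P Pool.Agent.Lib.H24P
open Pool.Agent.HUK (GG Spt PK DD DL DV bxS D0_nn)
open Pool.Agent.H9U (JJ cutJ Er Rgm)

theorem s4u_card {d : ℕ} (b : Fin d → ℤ) (s : Fin d → ℕ) : (((tb b s).card : ℕ) : ℝ) = ∏ j, (s j : ℝ) := by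
  unfold tb
  rw [Fintype.card_piFinset]
  push_cast
  refine Finset.prod_congr rfl fun j _ => ?_
  rw [Int.card_Ico]
  congr 1
  omega

theorem s4u_min {k : ℕ} (c : Fin k → ℝ) (hc : ∀ i, 0 < c i) : ∃ c0 : ℝ, 0 < c0 ∧ ∀ i, c0 ≤ c i := by
  have h0 : ∀ i, 0 ≤ 1 / c i := fun i => by have := hc i; positivity
  have hs : 0 ≤ ∑ i, 1 / c i := Finset.sum_nonneg fun i _ => h0 i
  refine ⟨1 / (1 + ∑ i, 1 / c i), by positivity, fun i => ?_⟩
  have h1 : 1 / c i ≤ 1 + ∑ i, 1 / c i := by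
    have := Finset.single_le_sum (f := fun i => 1 / c i) (fun i _ => h0 i) (Finset.mem_univ i)
    beta_reduce at this
    linarith
  have hci := hc i
  rw [div_le_iff₀ (by positivity)]
  rw [div_le_iff₀ hci] at h1
  linarith

theorem s4u_le_sum {k : ℕ} (a : Fin k → ℝ) (ha : ∀ i, 0 ≤ a i) (i : Fin k) : a i ≤ ∑ i, a i :=
  Finset.single_le_sum (f := a) (fun i _ => ha i) (Finset.mem_univ i)

/-- One term. -/
theorem s4u_term {k d : ℕ} (c : Fin k → Fin d → ℤ) (e : Fin d → ℕ) (D : Fin k → ℕ) (he : ∀ l, 1 ≤ e l)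
    (hD : ∀ i, 1 ≤ D i)
    (P : Fin k → ℤ[X]) (j : Fin k) (m : ℕ) (hm : 1 ≤ m) (κ δ : ℝ)
    (Q X X1 X' : ℕ) (M : Fin k → ℕ) (b : Fin d → ℤ) (s : Fin d → ℕ) (β : Fin k → ℤ)
    (hF : ∀ (β : Fin k → ℤ) (b : Fin d → ℤ) (σ : Fin d → ℕ), (∀ j, σ j ≤ 4 * X' ^ e j) →
      ∀ n0 N : ℕ, n0 + N ≤ 4 * X' → ∀ w : ℕ → ℂ, (∀ n, ‖w n‖ ≤ 1) →
      ∀ f : Fin k → ℤ → ℂ, (∀ i m, ‖f i m‖ ≤ 1) →
      (∀ (i : Fin k) (m : ℤ), m ∉ Ico (-((4 * X' ^ D i : ℕ) : ℤ)) ((4 * X' ^ D i : ℕ) : ℤ) → f i m = 0) →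
      Pool.Agent.HUK.GG (4 * X' ^ D j) m (f j) ≤ (X' : ℝ) ^ ((D j : ℝ) * (m + 1) - κ) →
      ∑ t ∈ tb b σ, ‖∑ n ∈ Ico n0 (n0 + N), w n * ∏ i, f i ((P i).eval (n : ℤ) + (β i + lf c t i))‖ ^ 2 ≤
        (X' : ℝ) ^ (2 + (∑ j, (e j : ℝ)) - δ))
    (hκ : 0 < κ) (hX'1 : 1 ≤ X') (hX1X' : X1 ≤ X') (hsX : ∀ l, s l ≤ X' ^ e l) (hYX : ∀ i, Ysc (M i) ≤ X' ^ D i)
    (W : ℝ) (hW : 1 ≤ W) (hW2 : ∀ i, ∀ m ∈ JJ (Ysc (M i)), |lp m| ≤ W / 2 ∧ |Lk Q (Ysc (M i) / Q ^ 2) m| ≤ W / 2)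
    (hG : Pool.Agent.HUK.GG (4 * Ysc (M j)) m (cutJ (Ysc (M j)) (Er Q Q (Ysc (M j)))) ≤ (Ysc (M j) : ℝ) ^ ((m : ℝ) + 1 - κ))
    (hY1 : 1 ≤ Ysc (M j)) (hκ1 : κ ≤ 1)
    (hval : ∀ t ∈ tb b s, ∀ n ∈ Ico X1 (2 * X1), ∀ i, (P i).eval (n : ℤ) + (β i + lf c t i) ∈ JJ (Ysc (M i)))
    (hnn : ∀ t ∈ tb b s, ∀ i, 0 ≤ β i + lf c t i)
    (w : ℕ → ℝ) (hw : ∀ n ∈ Ico X1 (2 * X1), |w n| ≤ W) :
    ∑ t ∈ tb b s, (∑ n ∈ Ico X1 (2 * X1), w n * ∏ i, s4tf Q M j i ((P i).eval (n : ℤ) + hh c β t i)) ^ 2 ≤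
      W ^ (2 * (k + 1)) * (X' : ℝ) ^ (2 + (∑ j, (e j : ℝ)) - δ) := by
  classical
  have hW0 : 0 < W := by linarith
  have hX'r : (1 : ℝ) ≤ X' := by exact_mod_cast hX'1
  -- bounds of the normalised functions
  have hf1 : ∀ (i : Fin k) (m : ℤ), ‖s4tg W Q M j i m‖ ≤ 1 := by
    intro i m
    unfold s4tg
    by_cases h : m ∈ JJ (Ysc (M i))
    · rw [if_pos h, Complex.norm_real, Real.norm_eq_abs, abs_div, abs_of_pos hW0, div_le_one hW0]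
      obtain ⟨h1, h2⟩ := hW2 i m h
      unfold s4tf
      split_ifs
      · linarith
      · refine le_trans (abs_sub _ _) ?_
        linarith
      · linarith
    · rw [if_neg h, norm_zero]
      exact zero_le_one
  have hf2 : ∀ (i : Fin k) (m : ℤ), m ∉ Ico (-((4 * X' ^ D i : ℕ) : ℤ)) ((4 * X' ^ D i : ℕ) : ℤ) → s4tg W Q M j i m = 0 := by
    intro i m hm
    unfold s4tg
    rw [if_neg]
    intro h
    apply hm
    have h1 := s4b_JJ h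
    have h2 : ((Ysc (M i) : ℕ) : ℤ) ≤ ((X' ^ D i : ℕ) : ℤ) := by exact_mod_cast hYX i
    rw [mem_Ico]
    push_cast at h2 ⊢
    constructor
    · have : (0 : ℤ) ≤ (X' : ℤ) ^ D i := by positivity
      omega
    · omega
  have hSpt : Spt (4 * Ysc (M j)) (cutJ (Ysc (M j)) (Er Q Q (Ysc (M j)))) := by
    intro y hy
    unfold cutJ
    rw [if_neg]
    intro h
    apply hy
    have h1 := s4b_JJ h
    rw [mem_Ico]
    push_cast
    omega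
  have hGf : Pool.Agent.HUK.GG (4 * X' ^ D j) m (s4tg W Q M j j) ≤ (X' : ℝ) ^ ((D j : ℝ) * (m + 1) - κ) := by
    have e1 : s4tg W Q M j j = fun y => ((1 / W : ℝ) : ℂ) * cutJ (Ysc (M j)) (Er Q Q (Ysc (M j))) y :=
      funext fun y => s4tg_cut W Q M j y
    have e2 : Spt (4 * Ysc (M j)) (s4tg W Q M j j) := by
      intro y hy
      rw [e1]
      show _ * cutJ (Ysc (M j)) (Er Q Q (Ysc (M j))) y = 0
      rw [hSpt y hy, mul_zero]
    rw [s4t_win (4 * X' ^ D j) (4 * Ysc (M j)) m _ (hf2 j) e2, e1]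
    refine le_trans (s4t_scale _ _ (by omega) (1 / W) (by positivity) (by rw [div_le_one hW0]; exact hW) _ hSpt) ?_
    refine le_trans hG ?_
    have hYr : (1 : ℝ) ≤ Ysc (M j) := by exact_mod_cast hY1
    have hYX' : (Ysc (M j) : ℝ) ≤ (X' : ℝ) ^ D j := by exact_mod_cast hYX j
    have hmr : (1 : ℝ) ≤ m := by exact_mod_cast hm
    have hDr : (1 : ℝ) ≤ D j := by exact_mod_cast hD j
    calc (Ysc (M j) : ℝ) ^ ((m : ℝ) + 1 - κ) ≤ ((X' : ℝ) ^ D j) ^ ((m : ℝ) + 1 - κ) :=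
          Real.rpow_le_rpow (by linarith) hYX' (by linarith)
      _ = (X' : ℝ) ^ ((D j : ℝ) * ((m : ℝ) + 1 - κ)) := by
          rw [← Real.rpow_natCast, ← Real.rpow_mul (by linarith)]
      _ ≤ _ := by
          refine Real.rpow_le_rpow_of_exponent_le hX'r ?_
          nlinarith
  have hmain := hF β b s (fun l => (hsX l).trans (by omega)) X1 X1 (by omega)
    (fun n => if n ∈ Ico X1 (2 * X1) then ((w n / W : ℝ) : ℂ) else 0) (fun n => by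
      by_cases h : n ∈ Ico X1 (2 * X1)
      · rw [if_pos h, Complex.norm_real, Real.norm_eq_abs, abs_div, abs_of_pos hW0, div_le_one hW0]
        exact hw n h
      · rw [if_neg h, norm_zero]
        exact zero_le_one) (fun i => s4tg W Q M j i) hf1 hf2 hGf
  have hterm : ∀ t ∈ tb b s, (∑ n ∈ Ico X1 (2 * X1), w n * ∏ i, s4tf Q M j i ((P i).eval (n : ℤ) + hh c β t i)) ^ 2 =
      W ^ (2 * (k + 1)) * ‖∑ n ∈ Ico X1 (X1 + X1), (if n ∈ Ico X1 (2 * X1) then ((w n / W : ℝ) : ℂ) else 0) *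
        ∏ i, s4tg W Q M j i ((P i).eval (n : ℤ) + (β i + lf c t i))‖ ^ 2 := by
    intro t ht
    have e1 : ∑ n ∈ Ico X1 (X1 + X1), (if n ∈ Ico X1 (2 * X1) then ((w n / W : ℝ) : ℂ) else 0) *
        ∏ i, s4tg W Q M j i ((P i).eval (n : ℤ) + (β i + lf c t i)) =
        (((∑ n ∈ Ico X1 (2 * X1), w n * ∏ i, s4tf Q M j i ((P i).eval (n : ℤ) + hh c β t i)) / W ^ (k + 1) : ℝ) : ℂ) := by
      rw [← two_mul, Finset.sum_div, Complex.ofReal_sum]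
      refine Finset.sum_congr rfl fun n hn => ?_
      rw [if_pos hn]
      have e2 : ∀ i, s4tg W Q M j i ((P i).eval (n : ℤ) + (β i + lf c t i)) =
          (((s4tf Q M j i ((P i).eval (n : ℤ) + hh c β t i)) / W : ℝ) : ℂ) := by
        intro i
        have e3 : ((hh c β t i : ℕ) : ℤ) = β i + lf c t i := by
          unfold hh
          exact Int.toNat_of_nonneg (hnn t ht i)
        rw [e3]
        unfold s4tg
        rw [if_pos (hval t ht n hn i)]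
      rw [Finset.prod_congr rfl fun i _ => e2 i, ← Complex.ofReal_prod, ← Complex.ofReal_mul, Finset.prod_div_distrib,
        Finset.prod_const, Finset.card_univ, Fintype.card_fin]
      congr 1
      rw [pow_succ]
      field_simp
    rw [e1, Complex.norm_real, Real.norm_eq_abs, sq_abs, div_pow, ← pow_mul, mul_comm 2 (k + 1)]
    field_simp
  rw [Finset.sum_congr rfl hterm, ← Finset.mul_sum]
  exact mul_le_mul_of_nonneg_left hmain (by positivity)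

/-- **`S4TU` from the second moment over the parameters.** -/
theorem S4TU_of1 {k d : ℕ} (c : Fin k → Fin d → ℤ) (e : Fin d → ℕ) (D : Fin k → ℕ) (a : Fin k → ℤ) (hD : Dat c e D a)
    (hF : FMT c e D a) (hPK : ∀ m, 1 ≤ m → PK m) : S4TU c e D a := by
  classical
  intro A hA
  choose sm hsm hFs using fun j => hF j 4
  choose Kp hKp hPKs using fun j => hPK (sm j) (by have := hsm j; omega)
  obtain ⟨K2, hK2, hsize⟩ := Pool.Agent.H9U.U0_size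
  have hKs : 0 ≤ ∑ j, Kp j := Finset.sum_nonneg fun j _ => zero_le_one.trans (hKp j)
  obtain ⟨K0, hK0⟩ : ∃ K0 : ℝ, K0 = K2 + ∑ j, Kp j := ⟨_, rfl⟩
  have hK01 : 1 ≤ K0 := by rw [hK0]; linarith
  have hKle : ∀ j, Kp j ≤ K0 := by
    intro j
    have := s4u_le_sum Kp (fun j => zero_le_one.trans (hKp j)) j
    rw [hK0]
    linarith
  refine ⟨K0 + 1, by linarith, fun C => ?_⟩
  obtain ⟨Cr, hCr⟩ : ∃ Cr : ℝ, Cr = ((A : ℝ) + 1) * max C 1 := ⟨_, rfl⟩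
  have hA0 : (0 : ℝ) ≤ A := Nat.cast_nonneg A
  have hCr1 : 1 ≤ Cr := by
    rw [hCr]
    have h1 := le_max_right C 1
    nlinarith
  choose κp hκp hκp1 Xp hXp using fun j => hPKs j Cr (1 / Cr) hCr1 (by positivity)
  choose δp hδp Xf hXf using fun j => hFs j (κp j) (hκp j)
  obtain ⟨δ, hδ, hδle⟩ := s4u_min δp hδp
  obtain ⟨E, hE⟩ : ∃ E : ℕ, E = ∑ j, e j := ⟨_, rfl⟩
  obtain ⟨τ, hτ⟩ : ∃ τ : ℝ, τ = min 1 (δ / (4 * (4 + E + d))) := ⟨_, rfl⟩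
  have hτ0 : 0 < τ := by rw [hτ]; exact lt_min one_pos (by positivity)
  have hτ1 : τ ≤ 1 := by rw [hτ]; exact min_le_left _ _
  have hτδ : τ * (4 + E + d) ≤ δ / 4 := by
    have h1 : τ ≤ δ / (4 * (4 + E + d)) := by rw [hτ]; exact min_le_right _ _
    calc τ * (4 + E + d) ≤ δ / (4 * (4 + E + d)) * (4 + E + d) := mul_le_mul_of_nonneg_right h1 (by positivity)
      _ = δ / 4 := by field_simp
  obtain ⟨ε', hε'⟩ : ∃ ε' : ℝ, ε' = δ / (8 * ((k : ℝ) + 1)) := ⟨_, rfl⟩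
  have hε'0 : 0 < ε' := by rw [hε']; positivity
  obtain ⟨ε, hε⟩ : ∃ ε : ℝ, ε = ε' / (2 * ((A : ℝ) + 1)) := ⟨_, rfl⟩
  have hε0 : 0 < ε := by rw [hε]; positivity
  obtain ⟨Xs, hXs⟩ := hsize ε hε0
  obtain ⟨Xl, hXl⟩ := Pool.Agent.H9U.U0_lp ε hε0
  obtain ⟨Qn, hQn1, hQn⟩ := s4t_num k d E δ τ hδ hτ0 hτδ
  obtain ⟨Qg, hQg1, hQg⟩ := G1_log 1 2 1 ε' hε'0
  obtain ⟨Xa, hXa⟩ := s4a_large 4 (ε' / 2) (by positivity)
  obtain ⟨Qr, hQr⟩ := s4t_reg D hD.deg K0 C hK01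
  refine ⟨τ, δ / 4, hτ0, hτ1, by positivity, 80 + Qn + Qr + Xs + Xl + Xa + Qg + ∑ j, Xp j + ∑ j, Xf j, ?_⟩
  intro P hP Q X X1 M b s β hQ hR hG hXX1 hMX hs1 hs2 _ hval w hw
  have hXpj : ∀ j, Xp j ≤ ∑ j, Xp j := fun j => s4t_le_sum Xp j
  have hXfj : ∀ j, Xf j ≤ ∑ j, Xf j := fun j => s4t_le_sum Xf j
  have hQ80 : 80 ≤ Q := by omega
  have hQ1 : 1 ≤ Q := by omega
  have hQr1 : (1 : ℝ) ≤ Q := by exact_mod_cast hQ1
  have hQr0 : (0 : ℝ) < Q := by linarith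
  have hX1pos : 1 ≤ X1 := hG.pos
  have hX1r : (1 : ℝ) ≤ X1 := by exact_mod_cast hX1pos
  have hXX : X1 ≤ X := hG.le
  have hXr1 : (1 : ℝ) ≤ X := by exact_mod_cast hX1pos.trans hXX
  have hXr0 : (0 : ℝ) < X := by linarith
  have hlQ : 0 ≤ Real.log Q := Real.log_nonneg hQr1
  have hlX : 0 ≤ Real.log X := Real.log_nonneg hXr1
  have hQQX : (Q : ℝ) ^ 2 ≤ X := by
    rw [← Real.log_le_log_iff (by positivity) hXr0, Real.log_pow]
    have h1 := hR.1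
    push_cast
    nlinarith
  have hQX1 : (Q : ℝ) ≤ X1 := by
    have h1 : (X : ℝ) ≤ X1 * Q := by exact_mod_cast hG.ge
    nlinarith
  have hQX1n : Q ≤ X1 := by exact_mod_cast hQX1
  have hreg := hQr A Q X X1 a P M hD.lc hP (by omega) hR hG
  have hYX1 : ∀ i, X1 ≤ Ysc (M i) := fun i => (hreg i).2.1
  have hYQ : ∀ i, Q ≤ Ysc (M i) := fun i => hQX1n.trans (hYX1 i)
  have hYr : ∀ i, (1 : ℝ) ≤ Ysc (M i) := fun i => by exact_mod_cast hQ1.trans (hYQ i)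
  -- the auxiliary scale
  obtain ⟨X', hX'⟩ : ∃ X' : ℕ, X' = ⌈(X : ℝ) * (Q : ℝ) ^ τ⌉₊ := ⟨_, rfl⟩
  have hQτ1 : 1 ≤ (Q : ℝ) ^ τ := Real.one_le_rpow hQr1 hτ0.le
  have hX'lo : (X : ℝ) * (Q : ℝ) ^ τ ≤ X' := by rw [hX']; exact Nat.le_ceil _
  have hX'hi : (X' : ℝ) ≤ 2 * X * (Q : ℝ) ^ τ := by
    have h1 := Nat.ceil_lt_add_one (show (0 : ℝ) ≤ (X : ℝ) * (Q : ℝ) ^ τ by positivity)
    rw [← hX'] at h1
    nlinarith
  have hXX' : X ≤ X' := by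
    have : (X : ℝ) ≤ X' := by nlinarith
    exact_mod_cast this
  have hX'1 : 1 ≤ X' := (hX1pos.trans hXX).trans hXX'
  have hsX : ∀ l, s l ≤ X' ^ e l := by
    intro l
    have h1 : (s l : ℝ) ≤ (X' : ℝ) ^ e l := by
      refine (hs2 l).trans ?_
      calc (Q : ℝ) ^ τ * (X : ℝ) ^ e l ≤ ((Q : ℝ) ^ τ) ^ e l * (X : ℝ) ^ e l :=
            mul_le_mul_of_nonneg_right (le_self_pow₀ hQτ1 (by have := hD.par l; omega)) (by positivity)
        _ = ((X : ℝ) * (Q : ℝ) ^ τ) ^ e l := by rw [mul_pow]; ring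
        _ ≤ _ := pow_le_pow_left₀ (by positivity) hX'lo _
    exact_mod_cast h1
  have hYM : ∀ i, (Ysc (M i) : ℝ) ≤ M i := by
    intro i
    have : Ysc (M i) ≤ M i := by
      unfold Ysc
      omega
    exact_mod_cast this
  have hYX : ∀ i, Ysc (M i) ≤ X' ^ D i := by
    intro i
    have h1 : (Ysc (M i) : ℝ) ≤ (X' : ℝ) ^ D i := by
      refine ((hYM i).trans (hMX i)).trans ?_
      rw [(hP i).1]
      calc (X1 : ℝ) ^ D i * (Q : ℝ) ^ τ ≤ (X : ℝ) ^ D i * ((Q : ℝ) ^ τ) ^ D i := by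
            refine mul_le_mul (pow_le_pow_left₀ (by positivity) (by exact_mod_cast hXX) _) (le_self_pow₀ hQτ1 (by have := hD.deg i; omega))
              (by positivity) (by positivity)
        _ = ((X : ℝ) * (Q : ℝ) ^ τ) ^ D i := by rw [mul_pow]
        _ ≤ _ := pow_le_pow_left₀ (by positivity) hX'lo _
    exact_mod_cast h1
  -- the size of the functions
  obtain ⟨W, hW⟩ : ∃ W : ℝ, W = (X : ℝ) ^ ε' := ⟨_, rfl⟩
  have hW1 : 1 ≤ W := by rw [hW]; exact Real.one_le_rpow hXr1 hε'0.le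
  have hYε : ∀ i, (Ysc (M i) : ℝ) ^ ε ≤ W / 2 := by
    intro i
    have hY0 : (0 : ℝ) < Ysc (M i) := by linarith [hYr i]
    have h1 : (Ysc (M i) : ℝ) ^ ε ≤ (X : ℝ) ^ (ε' / 2) := by
      rw [Real.rpow_def_of_pos hY0, Real.rpow_def_of_pos hXr0, Real.exp_le_exp]
      have h2 := (hreg i).2.2
      have h3 : ((D i : ℕ) : ℝ) ≤ A := by exact_mod_cast hA i
      have h4 : Real.log (Ysc (M i)) ≤ ((A : ℝ) + 1) * Real.log X := h2.trans (mul_le_mul_of_nonneg_right (by linarith) hlX)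
      calc Real.log (Ysc (M i)) * ε ≤ ((A : ℝ) + 1) * Real.log X * ε := mul_le_mul_of_nonneg_right h4 hε0.le
        _ = Real.log X * (ε' / 2) := by rw [hε]; field_simp
    have h2 := hXa X (by have : (Q : ℝ) ≤ X := by nlinarith
                         have : Q ≤ X := by exact_mod_cast this
                         omega)
    have h3 : W = (X : ℝ) ^ (ε' / 2) * (X : ℝ) ^ (ε' / 2) := by
      rw [hW, ← Real.rpow_add hXr0]
      congr 1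
      ring
    have h4 : 0 < (X : ℝ) ^ (ε' / 2) := by positivity
    rw [h3]
    nlinarith
  have hQXn : Q ≤ X := hQX1n.trans hXX
  have hW2 : ∀ i, ∀ m ∈ JJ (Ysc (M i)), |lp m| ≤ W / 2 ∧ |Lk Q (Ysc (M i) / Q ^ 2) m| ≤ W / 2 := by
    intro i m hm
    obtain ⟨h1, h2⟩ := s4t_JJ hm
    have h3 := hYQ i
    constructor
    · exact (hXl (Ysc (M i)) (by omega) m h2).trans (hYε i)
    · exact (hXs Q Q (Ysc (M i)) (by omega) ((hreg i).1.mono (by linarith) (by rw [hK0]; linarith)) hQ1 le_rfl m h1 h2).trans (hYε i)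
  have hwW : ∀ n ∈ Ico X1 (2 * X1), |w n| ≤ W := by
    intro n hn
    refine (hw n hn).trans ?_
    have h1 := hQg X X (by omega) (by linarith)
    rw [one_mul] at h1
    rw [hW]
    exact h1
  have hval' : ∀ t ∈ tb b s, ∀ n ∈ Ico X1 (2 * X1), ∀ i, (P i).eval (n : ℤ) + (β i + lf c t i) ∈ JJ (Ysc (M i)) := by
    intro t ht n hn i
    rw [mem_Ico] at hn
    have h8 : 8 ∣ M i := (dvd_mul_right _ _).trans (hG.dvdM i)
    have h80 : 80 ≤ M i := by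
      have h1 := hYQ i
      unfold Ysc at h1
      omega
    have hpol := s4t_poly A X1 (M i) (P i) (by rw [(hP i).1]; exact hA i) (hG.lo i) n hn.2
    exact s4t_val (M i) _ _ h8 h80 hpol (hval t ht i).1 (hval t ht i).2
  have hnn : ∀ t ∈ tb b s, ∀ i, 0 ≤ β i + lf c t i := by
    intro t ht i
    have h1 := (hval t ht i).1
    have h2 : (0 : ℤ) ≤ M i := by positivity
    omega
  have hX'r : (1 : ℝ) ≤ X' := by exact_mod_cast hX'1
  have hterm : ∀ j, ∑ t ∈ tb b s, (∑ n ∈ Ico X1 (2 * X1), w n * ∏ i, s4tf Q M j i ((P i).eval (n : ℤ) + hh c β t i)) ^ 2 ≤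
      W ^ (2 * (k + 1)) * (X' : ℝ) ^ (2 + (E : ℝ) - δ) := by
    intro j
    have h1 := hXfj j
    have h2 := hXpj j
    have h3 := hYQ j
    have hreg1 : Rgm (Kp j) Cr (1 / Cr) Q Q (Ysc (M j)) := by
      have hlog : Real.log (Ysc (M j)) ≤ Cr * Real.log Q := by
        have h2 := (hreg j).2.2
        have h3 : ((D j : ℕ) : ℝ) ≤ A := by exact_mod_cast hA j
        calc Real.log (Ysc (M j)) ≤ ((A : ℝ) + 1) * Real.log X := h2.trans (mul_le_mul_of_nonneg_right (by linarith) hlX)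
          _ ≤ ((A : ℝ) + 1) * (max C 1 * Real.log Q) := by
              refine mul_le_mul_of_nonneg_left (hR.2.trans (mul_le_mul_of_nonneg_right (le_max_left _ _) hlQ)) (by positivity)
          _ = _ := by rw [hCr]; ring
      refine ⟨(hreg j).1.mono (by linarith) (hKle j), hlog, ?_, le_rfl⟩
      have hY0 : (0 : ℝ) < Ysc (M j) := by linarith [hYr j]
      rw [Real.rpow_def_of_pos hY0, ← Real.le_log_iff_exp_le hQr0, mul_one_div, div_le_iff₀ (by linarith)]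
      linarith
    have hPKj := hXp j Q Q (Ysc (M j)) (by omega) hreg1
    have hFj := hXf j X' (by omega) P hP
    refine le_trans (s4u_term c e D hD.par hD.deg P j (sm j) (by have := hsm j; omega) (κp j) (δp j) Q X X1 X' M b s β hFj (hκp j) hX'1
      (hXX.trans hXX') hsX hYX W hW1 hW2 hPKj (hQ1.trans h3) (hκp1 j) hval' hnn w hwW) ?_
    refine mul_le_mul_of_nonneg_left ?_ (by positivity)
    refine Real.rpow_le_rpow_of_exponent_le hX'r ?_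
    rw [hE]
    push_cast
    linarith [hδle j]
  have hsum : ∑ t ∈ tb b s, (∑ n ∈ Ico X1 (2 * X1), w n * ∏ i, lp ((P i).eval (n : ℤ) + hh c β t i) -
      Rw Q X1 P M w (hh c β t)) ^ 2 ≤ k * (k * (W ^ (2 * (k + 1)) * (X' : ℝ) ^ (2 + (E : ℝ) - δ))) := by
    calc ∑ t ∈ tb b s, (∑ n ∈ Ico X1 (2 * X1), w n * ∏ i, lp ((P i).eval (n : ℤ) + hh c β t i) -
        Rw Q X1 P M w (hh c β t)) ^ 2
        ≤ ∑ t ∈ tb b s, (k : ℝ) * ∑ j, (∑ n ∈ Ico X1 (2 * X1), w n *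
          ∏ i, s4tf Q M j i ((P i).eval (n : ℤ) + hh c β t i)) ^ 2 := by
          refine Finset.sum_le_sum fun t ht => ?_
          rw [s4t_tel P Q X1 M w (hh c β t)]
          refine sq_sum_le_card_mul_sum_sq.trans (le_of_eq ?_)
          rw [Finset.card_univ, Fintype.card_fin]
      _ = (k : ℝ) * ∑ j, ∑ t ∈ tb b s, (∑ n ∈ Ico X1 (2 * X1), w n *
          ∏ i, s4tf Q M j i ((P i).eval (n : ℤ) + hh c β t i)) ^ 2 := by
          rw [← Finset.mul_sum, Finset.sum_comm]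
      _ ≤ (k : ℝ) * ∑ _j : Fin k, (W ^ (2 * (k + 1)) * (X' : ℝ) ^ (2 + (E : ℝ) - δ)) :=
          mul_le_mul_of_nonneg_left (Finset.sum_le_sum fun j _ => hterm j) (Nat.cast_nonneg k)
      _ = _ := by
          rw [Finset.sum_const, Finset.card_univ, Fintype.card_fin, nsmul_eq_mul]
  refine hsum.trans ?_
  have hSE : (X : ℝ) ^ E ≤ (Q : ℝ) ^ (τ * d) * ∏ j, (s j : ℝ) := by
    have h1 : (Q : ℝ) ^ (τ * d) = ∏ _j : Fin d, (Q : ℝ) ^ τ := by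
      rw [Finset.prod_const, Finset.card_univ, Fintype.card_fin, Real.rpow_mul hQr0.le, Real.rpow_natCast]
    rw [h1, ← Finset.prod_mul_distrib, hE, ← Finset.prod_pow_eq_pow_sum]
    exact Finset.prod_le_prod (fun j _ => by positivity) fun j _ => hs1 j
  have hWp : W ^ (2 * (k + 1)) = (X : ℝ) ^ (δ / 4) := by
    rw [hW, ← Real.rpow_natCast, ← Real.rpow_mul hXr0.le]
    congr 1
    rw [hε']
    push_cast
    field_simp
    norm_num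
  have hnum := hQn Q X X1 X' (by omega) hQXn hXX1 hX'hi hXX' (∏ j, (s j : ℝ)) (Finset.prod_nonneg fun _ _ => Nat.cast_nonneg _) hSE
  rw [s4u_card, hWp]
  refine le_trans (le_of_eq ?_) hnum
  ring

end Pool.Agent.HUP
end
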