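import Pool.Agent.Lib.H59M.M1.M021
import Pool.Agent.Lib.H59M.M1.M026
import Pool.Agent.Lib.H59M.M1.M028
import Pool.Agent.Lib.H59M.M1.M044
import Pool.Agent.Lib.H59M.M1.M046
import Pool.Agent.Lib.H59M.M1.M060
import Pool.Agent.Lib.H59M.M1.M079
import Pool.Agent.Lib.H59M.M1.M083
import Pool.Agent.Lib.H59M.M1.M084
import Pool.Agent.Lib.H59M.M1.M086

/-! Merged copies (to shorten the build) of Lib.HUP.F1, Lib.HUP.F6, Lib.HUP.F2, Lib.HUP.F3, Lib.HUP.F4, Lib.HUP.F7, Lib.HUP.F5, Lib.HUP.F5b, Lib.HUP.F8, Lib.HUP.FGA1, Lib.HUP.FGL3, Lib.HUP.FGC4, Lib.HUP.FGA5, Lib.HUP.FGA6, Lib.HUP.FGA7, Lib.HUP.FGA8, Lib.HUP.FGA9, Lib.HUP.R20. -/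

-- from Lib.HUP.F1
section

/-!
# Projects HUP and HPC, module F (the second moment `FMT` from Theorem P), F1: elimination vectors
-/

open Finset Polynomial

namespace Pool.Agent.HUP

open Pool.Agent.HUK (GG DD DL DV FF bxS Bdd)

/-- **F1.** Proof. Let `l` be an index with `c i0 l ≠ 0` (`hD.ne`), so `e l = D i0` (`hD.blk`); `v 0 = e_l` (the unit vector). For `i` with
`D i = D i0` and a minor `c i j * c i0 j' - c i j' * c i0 j ≠ 0` put `v (i.succ) = c i j' • e_j - c i j • e_j'` (then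
`lf c v i = 0` and `lf c v i0 = c i0 j * c i j' - c i0 j' * c i j ≠ 0`; as the minor is not `0`, one of `c i j`, `c i0 j` and one of
`c i j'`, `c i0 j'` is not `0`, hence `e j = e j' = D i0` by `hD.blk`). For all other `i` put `v (i.succ) = v 0`. If `D i ≠ D i0`, then
`c i j ≠ 0` implies `e j = D i ≠ D i0`, hence `v r j = 0`: `lf c (v r) i = 0`. -/
theorem F1_vec {k d : ℕ} (c : Fin k → Fin d → ℤ) (e : Fin d → ℕ) (D : Fin k → ℕ) (a : Fin k → ℤ) (hD : Dat c e D a)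
    (i0 : Fin k) : ∃ v : Fin (k + 1) → Fin d → ℤ, (∀ r, lf c (v r) i0 ≠ 0) ∧ (∀ r j, v r j ≠ 0 → e j = D i0) ∧
      ∀ i, (D i ≠ D i0 → ∀ r, lf c (v r) i = 0) ∧
        (D i = D i0 → i ∉ Kz c D i0 → lf c (v i.succ) i = 0) := by
  classical
  obtain ⟨l, hl⟩ := hD.ne i0
  have hel : e l = D i0 := hD.blk i0 l hl
  have hbase : lf c (fun m => if m = l then 1 else 0) i0 ≠ 0 := by
    unfold lf
    simpa using hl
  have hbs : ∀ j, (if j = l then (1 : ℤ) else 0) ≠ 0 → e j = D i0 := by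
    intro j hj
    by_cases h : j = l
    · rw [h]; exact hel
    · simp [h] at hj
  have key : ∀ i, ∃ u : Fin d → ℤ, lf c u i0 ≠ 0 ∧ (∀ j, u j ≠ 0 → e j = D i0) ∧
      (D i = D i0 → i ∉ Kz c D i0 → lf c u i = 0) := by
    intro i
    by_cases hi : D i = D i0 ∧ i ∉ Kz c D i0
    · obtain ⟨h1, h2⟩ := hi
      have h3 : ∃ j j', c i j * c i0 j' ≠ c i j' * c i0 j := by
        by_contra hcon
        push Not at hcon
        exact h2 (by unfold Kz; simp only [mem_filter, mem_univ, true_and]; exact ⟨h1, hcon⟩)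
      obtain ⟨j, j', hm⟩ := h3
      have hej : e j = D i0 := by
        by_cases hc : c i j = 0
        · by_cases hc0 : c i0 j = 0
          · exact absurd (by rw [hc, hc0]; ring) hm
          · exact hD.blk i0 j hc0
        · rw [← h1]; exact hD.blk i j hc
      have hej' : e j' = D i0 := by
        by_cases hc : c i j' = 0
        · by_cases hc0 : c i0 j' = 0
          · exact absurd (by rw [hc, hc0]; ring) hm
          · exact hD.blk i0 j' hc0
        · rw [← h1]; exact hD.blk i j' hc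
      have hlf : ∀ r, lf c (fun m => (if m = j then c i j' else 0) - (if m = j' then c i j else 0)) r =
          c r j * c i j' - c r j' * c i j := by
        intro r
        unfold lf
        simp only [mul_sub, Finset.sum_sub_distrib, mul_ite, mul_zero, Finset.sum_ite_eq', mem_univ, if_true]
      refine ⟨fun m => (if m = j then c i j' else 0) - (if m = j' then c i j else 0), ?_, ?_, ?_⟩
      · rw [hlf]
        intro h0
        exact hm (by linarith)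
      · intro m hmm
        by_cases ha : m = j
        · rw [ha]; exact hej
        · by_cases hb : m = j'
          · rw [hb]; exact hej'
          · simp [ha, hb] at hmm
      · intro _ _
        rw [hlf]
        ring
    · exact ⟨fun m => if m = l then 1 else 0, hbase, hbs, fun h1 h2 => absurd ⟨h1, h2⟩ hi⟩
  choose u hu1 hu2 hu3 using key
  have hv2 : ∀ r j, (Fin.cons (fun m => if m = l then (1 : ℤ) else 0) u : Fin (k + 1) → Fin d → ℤ) r j ≠ 0 →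
      e j = D i0 := by
    intro r
    refine Fin.cases ?_ (fun i => ?_) r
    · intro j hj
      exact hbs j (by simpa using hj)
    · intro j hj
      exact hu2 i j (by simpa using hj)
  refine ⟨Fin.cons (fun m => if m = l then 1 else 0) u, ?_, hv2, ?_⟩
  · intro r
    refine Fin.cases ?_ (fun i => ?_) r
    · simpa using hbase
    · simpa using hu1 i
  · intro i
    refine ⟨fun hne r => ?_, fun h1 h2 => ?_⟩
    · unfold lf
      refine Finset.sum_eq_zero fun j _ => ?_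
      by_contra hcon
      have h1 := left_ne_zero_of_mul hcon
      have h2 := right_ne_zero_of_mul hcon
      exact hne ((hD.blk i j h1).symm.trans (hv2 r j h2))
    · simpa using hu3 i h1 h2

end Pool.Agent.HUP
end

-- from Lib.HUP.F6
section

/-!
# Projects HUP and HPC, module F (the second moment `FMT` from Theorem P), F6: elimination in the parameters
-/

open Finset Polynomial

namespace Pool.Agent.HUP

open Pool.Agent.HUK (GG DD DL DV FF bxS Bdd)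

/-- Differences in the second component. -/
theorem f6_snd {A G : Type*} [AddCommGroup A] [AddCommGroup G] {r : ℕ} (j : Fin r → ℤ) (v : Fin r → G)
    (F : A × G → ℂ) (a : A) (t : G) :
    DL (List.ofFn fun i => j i • ((0 : A), v i)) F (a, t) =
      DL (List.ofFn fun i => j i • v i) (fun t => F (a, t)) t := by
  induction r generalizing F with
  | zero => rfl
  | succ r ih =>
    rw [List.ofFn_succ, List.ofFn_succ]
    have h1 : (fun t => DD (j 0 • ((0 : A), v 0)) F (a, t)) = DD (j 0 • v 0) (fun t => F (a, t)) := by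
      funext t
      show F (a, t) * (starRingEnd ℂ) (F ((a, t) + j 0 • ((0 : A), v 0))) =
        F (a, t) * (starRingEnd ℂ) (F (a, t + j 0 • v 0))
      have h2 : (a, t) + j 0 • ((0 : A), v 0) = (a, t + j 0 • v 0) := by
        rw [Prod.smul_mk, Prod.mk_add_mk, smul_zero, add_zero]
      rw [h2]
    show DL (List.ofFn fun i : Fin r => j i.succ • ((0 : A), v i.succ)) (DD (j 0 • ((0 : A), v 0)) F) (a, t) =
      DL (List.ofFn fun i : Fin r => j i.succ • v i.succ) (DD (j 0 • v 0) (fun t => F (a, t))) t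
    rw [ih (fun i => j i.succ) (fun i => v i.succ) (DD (j 0 • ((0 : A), v 0)) F), h1]

theorem f6_one {G : Type*} [AddCommMonoid G] (l : List G) (z : G) : DL l (fun _ => (1 : ℂ)) z = 1 := by
  induction l with
  | nil => rfl
  | cons a l ih =>
    have h1 : DD a (fun _ : G => (1 : ℂ)) = fun _ => 1 := by
      funext z
      show (1 : ℂ) * (starRingEnd ℂ) 1 = 1
      rw [map_one, mul_one]
    show DL l (DD a (fun _ => (1 : ℂ))) z = 1
    rw [h1]
    exact ih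

/-- Differences of a finite product. -/
theorem f6_prod {G ι : Type*} [AddCommMonoid G] (l : List G) (S : Finset ι) (F : ι → G → ℂ) (z : G) :
    DL l (fun z => ∏ i ∈ S, F i z) z = ∏ i ∈ S, DL l (F i) z := by
  classical
  induction S using Finset.induction_on with
  | empty =>
    simp only [Finset.prod_empty]
    exact f6_one l z
  | insert a S ha ih =>
    rw [Finset.prod_insert ha]
    have h1 : (fun z => ∏ i ∈ insert a S, F i z) = fun z => F a z * ∏ i ∈ S, F i z := by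
      funext z
      rw [Finset.prod_insert ha]
    rw [h1, Pool.Agent.HUK.DL_mul]
    show DL l (F a) z * DL l (fun z => ∏ i ∈ S, F i z) z = _
    rw [ih]

/-- Sums over the box with the pair `(n, n')`. -/
theorem f6_sum {d : ℕ} (I : Finset ℕ) (T : Finset (Fin d → ℤ)) (F : (ℤ × ℤ) × (Fin d → ℤ) → ℂ) :
    ∑ z ∈ (I.map Nat.castEmbedding ×ˢ I.map Nat.castEmbedding) ×ˢ T, F z =
      ∑ n ∈ I, ∑ n' ∈ I, ∑ t ∈ T, F (((n : ℤ), (n' : ℤ)), t) := by
  rw [Finset.sum_product, Finset.sum_product, Finset.sum_map]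
  refine Finset.sum_congr rfl fun n _ => ?_
  rw [Finset.sum_map]
  rfl

/-- Opening the square. -/
theorem f6_open {k d : ℕ} (I : Finset ℕ) (T : Finset (Fin d → ℤ)) (w : ℕ → ℂ) (A : Fin k → ℕ → (Fin d → ℤ) → ℂ) :
    ((∑ t ∈ T, ‖∑ n ∈ I, w n * ∏ i, A i n t‖ ^ 2 : ℝ) : ℂ) =
      ∑ n ∈ I, ∑ n' ∈ I, ∑ t ∈ T, (w n * (starRingEnd ℂ) (w n')) * ∏ i, (A i n t * (starRingEnd ℂ) (A i n' t)) := by
  rw [Complex.ofReal_sum]
  rw [Finset.sum_congr rfl fun t _ => Pool.Agent.HUK.e0_sq I fun n => w n * ∏ i, A i n t]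
  rw [Finset.sum_comm]
  refine Finset.sum_congr rfl fun n _ => ?_
  rw [Finset.sum_comm]
  refine Finset.sum_congr rfl fun n' _ => Finset.sum_congr rfl fun t _ => ?_
  rw [Finset.prod_mul_distrib, map_mul, map_prod]
  ring

/-- The differences of the functions which are not eliminated, for a fixed pair `(n, n')`. -/
theorem f6_diff {k d r : ℕ} (c : Fin k → Fin d → ℤ) (v : Fin r → Fin d → ℤ) (j : Fin r → ℤ) (T : Finset (Fin d → ℤ))
    (K : Finset (Fin k)) (f : Fin k → ℤ → ℂ) (a a' : Fin k → ℤ) (u : (Fin d → ℤ) → ℝ)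
    (hu : ∀ z, DL (List.ofFn fun i => j i • v i) (fun z => if z ∈ T then (1 : ℂ) else 0) z = ((u z : ℝ) : ℂ))
    (t : Fin d → ℤ) :
    DL (List.ofFn fun i => j i • v i) (fun t => (if t ∈ T then (1 : ℂ) else 0) *
      ∏ i ∈ K, (f i (lft (c i) t + a i) * (starRingEnd ℂ) (f i (lft (c i) t + a' i)))) t =
    ((u t : ℝ) : ℂ) * (∏ i ∈ K, (starRingEnd ℂ) (DV (fun r => lft (c i) (v r) * j r) (f i) (lft (c i) t + a' i))) *
      ∏ i ∈ K, DV (fun r => lft (c i) (v r) * j r) (f i) (lft (c i) t + a i) := by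
  rw [Pool.Agent.HUK.DL_mul]
  show DL (List.ofFn fun i => j i • v i) (fun t => if t ∈ T then (1 : ℂ) else 0) t *
    DL (List.ofFn fun i => j i • v i) (fun t => ∏ i ∈ K, (f i (lft (c i) t + a i) *
      (starRingEnd ℂ) (f i (lft (c i) t + a' i)))) t = _
  rw [hu t, f6_prod]
  have h1 : ∀ i ∈ K, DL (List.ofFn fun i => j i • v i) (fun t => f i (lft (c i) t + a i) *
      (starRingEnd ℂ) (f i (lft (c i) t + a' i))) t =
      (starRingEnd ℂ) (DV (fun r => lft (c i) (v r) * j r) (f i) (lft (c i) t + a' i)) *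
        DV (fun r => lft (c i) (v r) * j r) (f i) (lft (c i) t + a i) := by
    intro i _
    rw [Pool.Agent.HUK.DL_mul]
    have e3 := p3_comp (c i) v j (fun y => f i (y + a i)) t
    have e4 := p3_comp (c i) v j (fun y => (starRingEnd ℂ) (f i (y + a' i))) t
    have e5 := p3_shift (fun r => lft (c i) (v r) * j r) (f i) (a i) (lft (c i) t)
    have e6 := p3_conj (fun r => lft (c i) (v r) * j r) (fun y => f i (y + a' i)) (lft (c i) t)
    have e7 := p3_shift (fun r => lft (c i) (v r) * j r) (f i) (a' i) (lft (c i) t)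
    rw [e5] at e3
    rw [e6, e7] at e4
    show DL (List.ofFn fun i => j i • v i) (fun t => f i (lft (c i) t + a i)) t *
      DL (List.ofFn fun i => j i • v i) (fun t => (starRingEnd ℂ) (f i (lft (c i) t + a' i))) t = _
    rw [e3, e4, mul_comm]
  rw [Finset.prod_congr rfl h1, Finset.prod_mul_distrib, mul_assoc]

/-- The cardinality of the enlarged box. -/
theorem f6_card {d : ℕ} (C0 V X D0 n0 N : ℕ) (hX : 1 ≤ X) (e : Fin d → ℕ) (b : Fin d → ℤ) (σ : Fin d → ℕ)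
    (hσ : ∀ j, σ j ≤ C0 * X ^ e j) (hN : n0 + N ≤ C0 * X) :
    ((((Ico n0 (n0 + N)).map (Nat.castEmbedding : ℕ ↪ ℤ) ×ˢ (Ico n0 (n0 + N)).map (Nat.castEmbedding : ℕ ↪ ℤ)) ×ˢ
      Fintype.piFinset fun l : Fin d => if e l = D0 then Ico (b l - V * X ^ D0) (b l + σ l + V * X ^ D0) else
        Ico (b l) (b l + σ l)).card : ℝ) ≤ ((C0 + 2 * V + 1 : ℕ) : ℝ) ^ (d + 2) * (X : ℝ) ^ (2 + ∑ j, e j) := by
  have h1 : ∀ l : Fin d, (if e l = D0 then Ico (b l - V * X ^ D0) (b l + σ l + V * X ^ D0) else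
        Ico (b l) (b l + σ l)).card ≤ (C0 + 2 * V + 1) * X ^ e l := by
    intro l
    have hσ' := hσ l
    by_cases h : e l = D0
    · rw [if_pos h, Int.card_Ico]
      have h2 : (b l + σ l + V * X ^ D0 - (b l - V * X ^ D0) : ℤ) = ((σ l + 2 * V * X ^ D0 : ℕ) : ℤ) := by
        push_cast
        ring
      rw [h2, Int.toNat_natCast]
      rw [h] at hσ' ⊢
      nlinarith [Nat.zero_le (X ^ D0)]
    · rw [if_neg h, Int.card_Ico]
      have h2 : (b l + σ l - b l : ℤ) = ((σ l : ℕ) : ℤ) := by ring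
      rw [h2, Int.toNat_natCast]
      nlinarith [Nat.zero_le (X ^ e l), Nat.zero_le (V * X ^ e l)]
  have h3 : (((Ico n0 (n0 + N)).map (Nat.castEmbedding : ℕ ↪ ℤ) ×ˢ (Ico n0 (n0 + N)).map (Nat.castEmbedding : ℕ ↪ ℤ)) ×ˢ
      Fintype.piFinset fun l : Fin d => if e l = D0 then Ico (b l - V * X ^ D0) (b l + σ l + V * X ^ D0) else
        Ico (b l) (b l + σ l)).card ≤ (C0 + 2 * V + 1) ^ (d + 2) * X ^ (2 + ∑ j, e j) := by
    rw [card_product, card_product, card_map, Nat.card_Ico, Fintype.card_piFinset]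
    have h4 : n0 + N - n0 ≤ (C0 + 2 * V + 1) * X := by
      have h5 : C0 * X ≤ (C0 + 2 * V + 1) * X := Nat.mul_le_mul_right X (by omega)
      omega
    have h6 := Finset.prod_le_prod' (s := (univ : Finset (Fin d))) fun l _ => h1 l
    refine (Nat.mul_le_mul (Nat.mul_le_mul h4 h4) h6).trans (le_of_eq ?_)
    rw [Finset.prod_mul_distrib, Finset.prod_const, card_univ, Fintype.card_fin, Finset.prod_pow_eq_pow_sum]
    ring
  exact_mod_cast h3

/-- Shifts stay in the enlarged box. -/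
theorem f6_shift {d : ℕ} (V X D0 : ℕ) (J : Finset ℤ) (e : Fin d → ℕ) (b : Fin d → ℤ) (σ : Fin d → ℕ) (v : Fin d → ℤ)
    (hv : ∀ l, v l ≠ 0 → e l = D0) (hV : ∀ l, |v l| ≤ V) (z : (ℤ × ℤ) × (Fin d → ℤ)) (h : ℕ) (hh : h < X ^ D0)
    (hz : z + h • ((0 : ℤ × ℤ), v) ∈ (J ×ˢ J) ×ˢ tb b σ) :
    z ∈ (J ×ˢ J) ×ˢ Fintype.piFinset fun l : Fin d => if e l = D0 then Ico (b l - V * X ^ D0) (b l + σ l + V * X ^ D0) else
        Ico (b l) (b l + σ l) := by
  rw [mem_product] at hz ⊢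
  have h1 : (z + h • ((0 : ℤ × ℤ), v)).1 = z.1 := by
    rw [Prod.fst_add, Prod.smul_fst, smul_zero, add_zero]
  have h2 : (z + h • ((0 : ℤ × ℤ), v)).2 = z.2 + h • v := by
    rw [Prod.snd_add, Prod.smul_snd]
  rw [h1, h2] at hz
  refine ⟨hz.1, ?_⟩
  have hz2 := hz.2
  unfold tb at hz2
  rw [Fintype.mem_piFinset] at hz2 ⊢
  intro l
  have h3 := mem_Ico.1 (hz2 l)
  have h4 : (z.2 + h • v) l = z.2 l + (h : ℤ) * v l := by simp
  rw [h4] at h3
  by_cases h5 : e l = D0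
  · rw [if_pos h5, mem_Ico]
    have h6 := abs_le.1 (hV l)
    have h7 : (h : ℤ) ≤ (X : ℤ) ^ D0 := by exact_mod_cast hh.le
    have h8 : (0 : ℤ) ≤ V := Int.natCast_nonneg V
    have h9 : (0 : ℤ) ≤ h := Int.natCast_nonneg h
    have h10 : (h : ℤ) * v l ≤ V * X ^ D0 := by nlinarith
    have h11 : -(V * X ^ D0 : ℤ) ≤ (h : ℤ) * v l := by nlinarith
    constructor
    · linarith [h3.1]
    · linarith [h3.2]
  · rw [if_neg h5, mem_Ico]
    have h6 : v l = 0 := by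
      by_contra hc
      exact h5 (hv l hc)
    rw [h6, mul_zero, add_zero] at h3
    exact h3

/-- **F6.** Proof. `V = max |v r l|`. Open the square (`p3c_sq`, `map_sum`): the left sum is
`∑_{(n,n') ∈ I × I} ∑_{t ∈ box} w n conj(w n') ∏_i f i (y_i(n)) conj (f i (y_i(n')))`, `y_i(n) = P_i(n) + (β_i + lf c t i)`. `HUK.E1_elim` in the group
`G = ℤ × ℤ × (Fin d → ℤ)` (or `(ℤ × ℤ) × …`), `B = I × I × tb b σ`, directions `(0, 0, v r)`, `r = k + 1`, `H = X^(D i0)`; the functions: `g 0` = product of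
`w n conj (w n')` and of all factors with `D i ≠ D i0`; `g (i.succ)` = the factor `i` if `D i = D i0`, `i ∉ Kz c D i0`, and `1` else; `cc` = the indicator of `B`
times the factors `i ∈ Kz c D i0`. Invariance: `F1_vec`. `B'`: sides `σ j` for `e j ≠ D i0` (there `v r j = 0`), and
`[b_j - V X^(D i0), b_j + σ_j + V X^(D i0))` for `e j = D i0`: `N = (C0 + 2 V + 1)^(d + 2) X^(2 + ∑ e)`. The differences of `cc`: `DL_mul`, `DL_prod`-type rules: the
indicator gives a function with values in `{0, 1}` (`p3_ind`), `f i (P_i(n) + β_i + lf c t i)` gives `DV (fun r => lf c (v r) i * j r) (f i)` at the same point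
(`p3_comp`, `p3_shift`), the conjugate factors with `n'` likewise (`p3_conj`); for fixed `n'` put them and the indicator into
`h j n' t`. Finally `‖∑_{n'} …‖ ≤ ∑_{n'} ‖…‖`. -/
theorem F6_elim {k d : ℕ} (c : Fin k → Fin d → ℤ) (e : Fin d → ℕ) (D : Fin k → ℕ) (a : Fin k → ℤ) (hD : Dat c e D a)
    (i0 : Fin k) (v : Fin (k + 1) → Fin d → ℤ) (hv : ∀ r j, v r j ≠ 0 → e j = D i0)
    (hv2 : ∀ i, (D i ≠ D i0 → ∀ r, lf c (v r) i = 0) ∧ (D i = D i0 → i ∉ Kz c D i0 → lf c (v i.succ) i = 0))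
    (C0 : ℕ) : ∃ C : ℝ, 1 ≤ C ∧ ∀ X : ℕ, 1 ≤ X → ∀ P : Fin k → ℤ[X],
    ∀ (β : Fin k → ℤ) (b : Fin d → ℤ) (σ : Fin d → ℕ), (∀ j, σ j ≤ C0 * X ^ e j) →
    ∀ n0 N : ℕ, n0 + N ≤ C0 * X → ∀ w : ℕ → ℂ, (∀ n, ‖w n‖ ≤ 1) →
    ∀ f : Fin k → ℤ → ℂ, (∀ i m, ‖f i m‖ ≤ 1) →
    ∃ h : (Fin (k + 1) → ℤ) → ℕ → (Fin d → ℤ) → ℂ, (∀ j n t, ‖h j n t‖ ≤ 1) ∧
    ((∑ t ∈ tb b σ, ‖∑ n ∈ Ico n0 (n0 + N), w n * ∏ i, f i ((P i).eval (n : ℤ) + (β i + lf c t i))‖ ^ 2) /
      (X : ℝ) ^ (2 + ∑ j, e j)) ^ 2 ^ (k + 1) ≤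
    C / (X : ℝ) ^ (D i0 * (k + 1)) * ∑ j ∈ bxS (k + 1) (X ^ D i0), (∑ n' ∈ Ico n0 (n0 + N),
      ‖∑ n ∈ Ico n0 (n0 + N), ∑ t ∈ tb b σ, h j n' t * ∏ i ∈ Kz c D i0,
        DV (fun r => lf c (v r) i * j r) (f i) ((P i).eval (n : ℤ) + (β i + lf c t i))‖) / (X : ℝ) ^ (2 + ∑ j, e j) := by
  obtain ⟨V, hV⟩ : ∃ V : ℕ, ∀ i l, |v i l| ≤ V := by
    refine ⟨∑ i, ∑ l, (v i l).natAbs, fun i l => ?_⟩
    have h1 : (v i l).natAbs ≤ ∑ l, (v i l).natAbs :=
      Finset.single_le_sum (f := fun l => (v i l).natAbs) (fun _ _ => Nat.zero_le _) (mem_univ l)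
    have h2 : ∑ l, (v i l).natAbs ≤ ∑ i, ∑ l, (v i l).natAbs :=
      Finset.single_le_sum (f := fun i => ∑ l, (v i l).natAbs) (fun _ _ => Nat.zero_le _) (mem_univ i)
    have h3 := h1.trans h2
    rw [Int.abs_eq_natAbs]
    exact_mod_cast h3
  obtain ⟨W, hW⟩ : ∃ W : ℝ, W = ((C0 + 2 * V + 1 : ℕ) : ℝ) := ⟨_, rfl⟩
  have hW1 : 1 ≤ W := by
    rw [hW]
    push_cast
    have h1 : (0 : ℝ) ≤ C0 := Nat.cast_nonneg _
    have h2 : (0 : ℝ) ≤ V := Nat.cast_nonneg _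
    linarith
  refine ⟨2 ^ (2 ^ (k + 1)) * (W ^ (d + 2)) ^ 2 ^ (k + 1),
    one_le_mul_of_one_le_of_one_le (one_le_pow₀ one_le_two) (one_le_pow₀ (one_le_pow₀ hW1)), ?_⟩
  intro X hX P β b σ hσ n0 N hN w hw f hf
  have hY : ∀ (i : Fin k) (n : ℤ) (t : Fin d → ℤ), (P i).eval n + (β i + lf c t i) =
      lft (c i) t + ((P i).eval n + β i) := by
    intro i n t
    show (P i).eval n + (β i + lft (c i) t) = _
    ring
  simp only [hY]
  choose u hu hu' using fun j : Fin (k + 1) → ℤ => p3_ind (tb b σ) (List.ofFn fun i => j i • v i)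
  refine ⟨fun j n' t => ((u j t : ℝ) : ℂ) * ∏ i ∈ Kz c D i0, (starRingEnd ℂ)
    (DV (fun r => lft (c i) (v r) * j r) (f i) (lft (c i) t + ((P i).eval (n' : ℤ) + β i))), ?_, ?_⟩
  · intro j n t
    rw [norm_mul]
    have h1 : ‖((u j t : ℝ) : ℂ)‖ ≤ 1 := by
      rcases hu j t with h | h
      · rw [h, Complex.ofReal_zero, norm_zero]
        exact zero_le_one
      · rw [h, Complex.ofReal_one, norm_one]
    refine mul_le_one₀ h1 (norm_nonneg _) ?_
    rw [norm_prod]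
    refine Finset.prod_le_one (fun i _ => norm_nonneg _) fun i _ => ?_
    rw [RCLike.norm_conj]
    exact Pool.Agent.HUK.DL_norm _ _ (hf i) _
  · have hX0 : (0 : ℝ) < X := by exact_mod_cast hX
    obtain ⟨I, hI⟩ : ∃ I : Finset ℕ, I = Ico n0 (n0 + N) := ⟨_, rfl⟩
    obtain ⟨E, hE⟩ : ∃ E : ℝ, E = (X : ℝ) ^ (2 + ∑ j, e j) := ⟨_, rfl⟩
    have hE0 : 0 < E := by rw [hE]; positivity
    have hWd : 1 ≤ W ^ (d + 2) := one_le_pow₀ hW1
    have hWd0 : 0 < W ^ (d + 2) := lt_of_lt_of_le one_pos hWd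
    -- the factors
    obtain ⟨Fa, hFa⟩ : ∃ Fa : Fin k → (ℤ × ℤ) × (Fin d → ℤ) → ℂ, Fa = fun i z =>
      f i (lft (c i) z.2 + ((P i).eval z.1.1 + β i)) *
        (starRingEnd ℂ) (f i (lft (c i) z.2 + ((P i).eval z.1.2 + β i))) := ⟨_, rfl⟩
    have hFa1 : ∀ i z, ‖Fa i z‖ ≤ 1 := by
      intro i z
      rw [hFa]
      show ‖_ * _‖ ≤ 1
      rw [norm_mul, RCLike.norm_conj]
      exact mul_le_one₀ (hf _ _) (norm_nonneg _) (hf _ _)
    have hFai : ∀ i (x : Fin d → ℤ) (z : (ℤ × ℤ) × (Fin d → ℤ)), lft (c i) x = 0 →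
        Fa i (z + ((0 : ℤ × ℤ), x)) = Fa i z := by
      intro i x z hx
      rw [hFa]
      show f i (lft (c i) (z.2 + x) + ((P i).eval (z.1.1 + 0) + β i)) *
        (starRingEnd ℂ) (f i (lft (c i) (z.2 + x) + ((P i).eval (z.1.2 + 0) + β i))) = _
      rw [p3_lf_add, hx, add_zero, add_zero, add_zero]
    obtain ⟨T, hT⟩ : ∃ T : Finset (Fin d → ℤ), T = tb b σ := ⟨_, rfl⟩
    obtain ⟨J, hJ⟩ : ∃ J : Finset ℤ, J = I.map (Nat.castEmbedding : ℕ ↪ ℤ) := ⟨_, rfl⟩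
    have hcard := f6_card C0 V X (D i0) n0 N hX e b σ hσ hN
    rw [← hI, ← hJ, ← hW, ← hE] at hcard
    -- the functions
    obtain ⟨g, hg0, hgs⟩ : ∃ g : Fin (k + 1) → (ℤ × ℤ) × (Fin d → ℤ) → ℂ,
        (∀ z, g 0 z = (w z.1.1.toNat * (starRingEnd ℂ) (w z.1.2.toNat)) *
          ∏ i, if D i ≠ D i0 then Fa i z else 1) ∧
        ∀ i z, g (Fin.succ i) z = if D i = D i0 ∧ i ∉ Kz c D i0 then Fa i z else 1 :=
      ⟨Fin.cons (fun z => (w z.1.1.toNat * (starRingEnd ℂ) (w z.1.2.toNat)) *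
          ∏ i, if D i ≠ D i0 then Fa i z else 1)
        (fun i z => if D i = D i0 ∧ i ∉ Kz c D i0 then Fa i z else 1), fun _ => rfl, fun _ _ => rfl⟩
    obtain ⟨cc, hcc⟩ : ∃ cc : (ℤ × ℤ) × (Fin d → ℤ) → ℂ, cc = fun z =>
      (if z ∈ (J ×ˢ J) ×ˢ T then (1 : ℂ) else 0) * ∏ i ∈ Kz c D i0, Fa i z := ⟨_, rfl⟩
    have hgn : ∀ i z, ‖g i z‖ ≤ 1 := by
      intro i z
      refine Fin.cases ?_ (fun i => ?_) i
      · rw [hg0, norm_mul, norm_mul, RCLike.norm_conj, norm_prod]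
        refine mul_le_one₀ (mul_le_one₀ (hw _) (norm_nonneg _) (hw _))
          (Finset.prod_nonneg fun i _ => norm_nonneg _) (Finset.prod_le_one (fun i _ => norm_nonneg _) fun i _ => ?_)
        split_ifs
        · exact hFa1 i z
        · rw [norm_one]
      · rw [hgs]
        split_ifs
        · exact hFa1 i z
        · rw [norm_one]
    have hginv : ∀ i z, g i (z + ((0 : ℤ × ℤ), v i)) = g i z := by
      intro i z
      have h1 : (z + ((0 : ℤ × ℤ), v i)).1 = z.1 := by rw [Prod.fst_add, add_zero]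
      refine Fin.cases ?_ (fun i => ?_) i
      · rw [hg0, hg0]
        have h1 : (z + ((0 : ℤ × ℤ), v 0)).1 = z.1 := by rw [Prod.fst_add, add_zero]
        rw [h1]
        congr 1
        refine Finset.prod_congr rfl fun i _ => ?_
        by_cases h2 : D i ≠ D i0
        · rw [if_pos h2, if_pos h2]
          exact hFai i _ z ((hv2 i).1 h2 0)
        · rw [if_neg h2, if_neg h2]
      · rw [hgs, hgs]
        by_cases h2 : D i = D i0 ∧ i ∉ Kz c D i0
        · rw [if_pos h2, if_pos h2]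
          exact hFai i _ z ((hv2 i).2 h2.1 h2.2)
        · rw [if_neg h2, if_neg h2]
    have hHpos : 0 < X ^ D i0 := Nat.pow_pos hX
    have helim := Pool.Agent.HUK.E1_elim ((J ×ˢ J) ×ˢ T) _ (W ^ (d + 2) * E) hcard (mul_pos hWd0 hE0) (X ^ D i0) hHpos
      (k + 1) (fun i => ((0 : ℤ × ℤ), v i)) g cc hgn hginv (fun z hz => by
        rw [hcc]
        show (if z ∈ (J ×ˢ J) ×ˢ T then (1 : ℂ) else 0) * _ = 0
        rw [if_neg hz, zero_mul]) (fun i z h hh hz => by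
        rw [hT] at hz
        exact f6_shift V X (D i0) J e b σ (v i) (hv i) (hV i) z h hh hz)
    have hmem : ∀ n n' t, n ∈ I → n' ∈ I → ((((n : ℤ), (n' : ℤ)), t) ∈ (J ×ˢ J) ×ˢ T ↔ t ∈ T) := by
      intro n n' t hn hn'
      rw [mem_product, mem_product, hJ]
      exact ⟨fun h => h.2, fun h => ⟨⟨mem_map.2 ⟨n, hn, rfl⟩, mem_map.2 ⟨n', hn', rfl⟩⟩, h⟩⟩
    -- the left side
    have hlhs : ∑ t ∈ T, ‖∑ n ∈ I, w n * ∏ i, f i (lft (c i) t + ((P i).eval (n : ℤ) + β i))‖ ^ 2 =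
        ‖∑ z ∈ (J ×ˢ J) ×ˢ T, (∏ i, g i z) * cc z‖ := by
      have h1 := f6_open I T w (fun i n t => f i (lft (c i) t + ((P i).eval (n : ℤ) + β i)))
      have h2 : ∑ z ∈ (J ×ˢ J) ×ˢ T, (∏ i, g i z) * cc z =
          ((∑ t ∈ T, ‖∑ n ∈ I, w n * ∏ i, f i (lft (c i) t + ((P i).eval (n : ℤ) + β i))‖ ^ 2 : ℝ) : ℂ) := by
        have h0 : ∑ z ∈ (J ×ˢ J) ×ˢ T, (∏ i, g i z) * cc z =
            ∑ n ∈ I, ∑ n' ∈ I, ∑ t ∈ T, (∏ i, g i (((n : ℤ), (n' : ℤ)), t)) * cc (((n : ℤ), (n' : ℤ)), t) := by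
          rw [hJ, f6_sum]
        rw [h0]
        refine Eq.trans ?_ h1.symm
        refine Finset.sum_congr rfl fun n hn => Finset.sum_congr rfl fun n' hn' => Finset.sum_congr rfl fun t ht => ?_
        have hz := (hmem n n' t hn hn').2 ht
        rw [Fin.prod_univ_succ, hg0, hcc]
        have h3 : ∏ i ∈ Kz c D i0, Fa i (((n : ℤ), (n' : ℤ)), t) =
            ∏ i, if i ∈ Kz c D i0 then Fa i (((n : ℤ), (n' : ℤ)), t) else 1 := by
          rw [Finset.prod_ite_mem, Finset.univ_inter]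
        have h4 : ∏ i : Fin k, g i.succ (((n : ℤ), (n' : ℤ)), t) =
            ∏ i : Fin k, if D i = D i0 ∧ i ∉ Kz c D i0 then Fa i (((n : ℤ), (n' : ℤ)), t) else 1 :=
          Finset.prod_congr rfl fun i _ => hgs i _
        have h5 : ∀ i : Fin k, (if D i ≠ D i0 then Fa i (((n : ℤ), (n' : ℤ)), t) else 1) *
            (if D i = D i0 ∧ i ∉ Kz c D i0 then Fa i (((n : ℤ), (n' : ℤ)), t) else 1) *
            (if i ∈ Kz c D i0 then Fa i (((n : ℤ), (n' : ℤ)), t) else 1) = Fa i (((n : ℤ), (n' : ℤ)), t) := by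
          intro i
          by_cases h6 : i ∈ Kz c D i0
          · have h7 : D i = D i0 := by
              unfold Kz at h6
              exact (Finset.mem_filter.1 h6).2.1
            rw [if_neg (not_not.2 h7), if_neg fun h => h.2 h6, if_pos h6, one_mul, one_mul]
          · by_cases h7 : D i = D i0
            · rw [if_neg (not_not.2 h7), if_pos ⟨h7, h6⟩, if_neg h6, one_mul, mul_one]
            · rw [if_pos h7, if_neg fun h => h7 h.1, if_neg h6, mul_one, mul_one]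
        have h6 : ∏ i, Fa i (((n : ℤ), (n' : ℤ)), t) =
            (∏ i, if D i ≠ D i0 then Fa i (((n : ℤ), (n' : ℤ)), t) else 1) *
            (∏ i, if D i = D i0 ∧ i ∉ Kz c D i0 then Fa i (((n : ℤ), (n' : ℤ)), t) else 1) *
            ∏ i, if i ∈ Kz c D i0 then Fa i (((n : ℤ), (n' : ℤ)), t) else 1 := by
          rw [← Finset.prod_mul_distrib, ← Finset.prod_mul_distrib]
          exact Finset.prod_congr rfl fun i _ => (h5 i).symm
        have h7 : ∏ i, Fa i (((n : ℤ), (n' : ℤ)), t) =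
            ∏ i, (f i (lft (c i) t + ((P i).eval (n : ℤ) + β i)) *
              (starRingEnd ℂ) (f i (lft (c i) t + ((P i).eval (n' : ℤ) + β i)))) := by
          rw [hFa]
        show ((w (n : ℤ).toNat * (starRingEnd ℂ) (w (n' : ℤ).toNat)) *
            ∏ i, if D i ≠ D i0 then Fa i (((n : ℤ), (n' : ℤ)), t) else 1) *
            (∏ i : Fin k, g i.succ (((n : ℤ), (n' : ℤ)), t)) *
            ((if (((n : ℤ), (n' : ℤ)), t) ∈ (J ×ˢ J) ×ˢ T then (1 : ℂ) else 0) *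
              ∏ i ∈ Kz c D i0, Fa i (((n : ℤ), (n' : ℤ)), t)) =
          (w n * (starRingEnd ℂ) (w n')) * ∏ i, (f i (lft (c i) t + ((P i).eval (n : ℤ) + β i)) *
              (starRingEnd ℂ) (f i (lft (c i) t + ((P i).eval (n' : ℤ) + β i))))
        rw [h4, h3, ← h7, h6, if_pos hz, Int.toNat_natCast, Int.toNat_natCast]
        ring
      rw [h2, Complex.norm_real, Real.norm_of_nonneg (Finset.sum_nonneg fun _ _ => sq_nonneg _)]
    -- the differences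
    have hdiff : ∀ (j : Fin (k + 1) → ℤ) (n n' : ℕ) (t : Fin d → ℤ), n ∈ I → n' ∈ I →
        DL (List.ofFn fun i => j i • ((0 : ℤ × ℤ), v i)) cc (((n : ℤ), (n' : ℤ)), t) =
        (((u j t : ℝ) : ℂ) * ∏ i ∈ Kz c D i0, (starRingEnd ℂ)
          (DV (fun r => lft (c i) (v r) * j r) (f i) (lft (c i) t + ((P i).eval (n' : ℤ) + β i)))) *
        ∏ i ∈ Kz c D i0, DV (fun r => lft (c i) (v r) * j r) (f i) (lft (c i) t + ((P i).eval (n : ℤ) + β i)) := by
      intro j n n' t hn hn'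
      rw [f6_snd]
      have h1 : (fun t => cc (((n : ℤ), (n' : ℤ)), t)) = fun t => (if t ∈ T then (1 : ℂ) else 0) *
          ∏ i ∈ Kz c D i0, (f i (lft (c i) t + ((P i).eval (n : ℤ) + β i)) *
            (starRingEnd ℂ) (f i (lft (c i) t + ((P i).eval (n' : ℤ) + β i)))) := by
        funext t
        rw [hcc, hFa]
        show (if (((n : ℤ), (n' : ℤ)), t) ∈ (J ×ˢ J) ×ˢ T then (1 : ℂ) else 0) * _ = _
        by_cases h3 : t ∈ T
        · rw [if_pos h3, if_pos ((hmem n n' t hn hn').2 h3)]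
        · rw [if_neg h3, if_neg fun h => h3 ((hmem n n' t hn hn').1 h)]
      rw [h1]
      exact f6_diff c v j T (Kz c D i0) f (fun i => (P i).eval (n : ℤ) + β i) (fun i => (P i).eval (n' : ℤ) + β i)
        (u j) (by rw [hT]; exact hu' j) t
    have hjj : ∀ j : Fin (k + 1) → ℤ, ‖∑ z ∈ (J ×ˢ J) ×ˢ T, DL (List.ofFn fun i => j i • ((0 : ℤ × ℤ), v i)) cc z‖ ≤
        ∑ n' ∈ I, ‖∑ n ∈ I, ∑ t ∈ T, (((u j t : ℝ) : ℂ) * ∏ i ∈ Kz c D i0, (starRingEnd ℂ)
          (DV (fun r => lft (c i) (v r) * j r) (f i) (lft (c i) t + ((P i).eval (n' : ℤ) + β i)))) *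
          ∏ i ∈ Kz c D i0, DV (fun r => lft (c i) (v r) * j r) (f i)
            (lft (c i) t + ((P i).eval (n : ℤ) + β i))‖ := by
      intro j
      rw [hJ, f6_sum, Finset.sum_comm]
      refine (norm_sum_le _ _).trans (le_of_eq (Finset.sum_congr rfl fun n' hn' => congrArg norm ?_))
      exact Finset.sum_congr rfl fun n hn => Finset.sum_congr rfl fun t _ => hdiff j n n' t hn hn'
    rw [← hI, ← hT, ← hE, hlhs]
    have hcast : ((X ^ D i0 : ℕ) : ℝ) ^ (k + 1) = (X : ℝ) ^ (D i0 * (k + 1)) := by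
      rw [Nat.cast_pow, ← pow_mul]
    rw [hcast] at helim
    have hp1 : (‖∑ z ∈ (J ×ˢ J) ×ˢ T, (∏ i, g i z) * cc z‖ / E) ^ 2 ^ (k + 1) =
        (W ^ (d + 2)) ^ 2 ^ (k + 1) *
          (‖∑ z ∈ (J ×ˢ J) ×ˢ T, (∏ i, g i z) * cc z‖ / (W ^ (d + 2) * E)) ^ 2 ^ (k + 1) := by
      rw [← mul_pow]
      congr 1
      field_simp
    rw [hp1]
    refine (mul_le_mul_of_nonneg_left helim (by positivity)).trans ?_
    rw [← mul_assoc, ← mul_div_assoc, mul_comm ((W ^ (d + 2)) ^ 2 ^ (k + 1)) (2 ^ 2 ^ (k + 1))]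
    refine mul_le_mul_of_nonneg_left (Finset.sum_le_sum fun j _ => ?_) (by positivity)
    refine (div_le_div_of_nonneg_right (hjj j) (mul_pos hWd0 hE0).le).trans ?_
    refine div_le_div_of_nonneg_left (Finset.sum_nonneg fun _ _ => norm_nonneg _) hE0 ?_
    exact le_mul_of_one_le_left hE0.le hWd

end Pool.Agent.HUP
end

-- from Lib.HUP.F2
section

/-!
# Projects HUP and HPC, module F (the second moment `FMT` from Theorem P), F2: the primitive form
-/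

open Finset Polynomial

namespace Pool.Agent.HUP

open Pool.Agent.HUK (GG DD DL DV FF bxS Bdd)

/-- **F2.** Proof. The ideal of `ℤ` generated by the `c i0 j` is generated by some `g0 > 0` (principal ideal domain;
`Submodule.IsPrincipal.generator`, up to sign): `g0 = ∑ c i0 j * y j` (`Ideal.mem_span_range_iff_exists_fun`) and
`c i0 j = g0 * π j`, so `∑ π j * y j = 1`. If all minors of `c i`, `c i0` vanish, then also `c i j * π j' = c i j' * π j`, and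
`c i j = ∑_j' c i j * π j' * y j' = π j * ∑_j' c i j' * y j'`. -/
theorem F2_prim {k d : ℕ} (c : Fin k → Fin d → ℤ) (i0 : Fin k) (hne : ∃ j, c i0 j ≠ 0) : ∃ π y : Fin d → ℤ,
    ∑ j, π j * y j = 1 ∧ 0 < lf c y i0 ∧ (∀ j, c i0 j = lf c y i0 * π j) ∧
    ∀ i, (∀ j j', c i j * c i0 j' = c i j' * c i0 j) → ∀ j, c i j = lf c y i * π j := by
  obtain ⟨j0, hj0⟩ := hne
  have hpr : (Ideal.span (Set.range (c i0))).IsPrincipal := inferInstance
  obtain ⟨a, ha⟩ := hpr.principal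
  have ha' : Ideal.span (Set.range (c i0)) = Ideal.span {a} := ha
  have h1 : ∀ j, a ∣ c i0 j := fun j => by
    rw [← Ideal.mem_span_singleton, ← ha']
    exact Ideal.subset_span (Set.mem_range_self j)
  have h2 : a ∈ Ideal.span (Set.range (c i0)) := by
    rw [ha']
    exact Ideal.mem_span_singleton_self a
  obtain ⟨z, hz⟩ := Ideal.mem_span_range_iff_exists_fun.mp h2
  have ha0 : a ≠ 0 := by
    rintro rfl
    exact hj0 (zero_dvd_iff.mp (h1 j0))
  have hlf : ∀ (y : Fin d → ℤ) (i : Fin k), lf c y i = ∑ j, c i j * y j := fun y i => rfl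
  have hg : lf c (fun j => Int.sign a * z j) i0 = |a| := by
    rw [hlf]
    calc ∑ j, c i0 j * (Int.sign a * z j) = Int.sign a * ∑ j, z j * c i0 j := by
          rw [mul_sum]
          exact sum_congr rfl fun j _ => by ring
      _ = |a| := by rw [hz, Int.sign_mul_self_eq_abs]
  have hg0 : 0 < |a| := abs_pos.mpr ha0
  have h3 : ∀ j, c i0 j = |a| * (c i0 j / |a|) := fun j =>
    (Int.mul_ediv_cancel' ((abs_dvd a _).mpr (h1 j))).symm
  have h4 : ∑ j, c i0 j / |a| * (Int.sign a * z j) = 1 := by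
    have h5 : |a| * ∑ j, c i0 j / |a| * (Int.sign a * z j) = |a| * 1 := by
      rw [mul_one, mul_sum]
      conv_rhs => rw [← hg, hlf]
      refine sum_congr rfl fun j _ => ?_
      rw [← mul_assoc, ← h3 j]
    exact mul_left_cancel₀ hg0.ne' h5
  refine ⟨fun j => c i0 j / |a|, fun j => Int.sign a * z j, h4, by rw [hg]; exact hg0,
    fun j => by rw [hg]; exact h3 j, ?_⟩
  intro i hi j
  have h6 : ∀ j', c i j * (c i0 j' / |a|) = c i j' * (c i0 j / |a|) := by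
    intro j'
    have h7 := hi j j'
    rw [h3 j', h3 j] at h7
    have h8 : |a| * (c i j * (c i0 j' / |a|)) = |a| * (c i j' * (c i0 j / |a|)) := by
      linear_combination h7
    exact mul_left_cancel₀ hg0.ne' h8
  calc c i j = c i j * ∑ j', c i0 j' / |a| * (Int.sign a * z j') := by rw [h4, mul_one]
    _ = ∑ j', c i j' * (Int.sign a * z j') * (c i0 j / |a|) := by
        rw [mul_sum]
        exact sum_congr rfl fun j' _ => by linear_combination (Int.sign a * z j') * h6 j'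
    _ = lf c (fun j => Int.sign a * z j) i * (c i0 j / |a|) := by
        rw [hlf, sum_mul]

end Pool.Agent.HUP
end

-- from Lib.HUP.F3
section

/-!
# Projects HUP and HPC, module F (the second moment `FMT` from Theorem P), F3: polynomials on residue classes
-/

open Finset Polynomial

namespace Pool.Agent.HUP

open Pool.Agent.HUK (GG DD DL DV FF bxS Bdd)

/-- **F3.** Proof. `P.comp (C Λ * X + C ρ) - C (P.eval ρ)` is divisible by `C Λ * X` (`Polynomial.sub_dvd_eval_sub` over the ring `ℤ[X]` or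
`Polynomial.X_dvd_iff`-type arguments after `taylor`: `P.comp (C ρ + C Λ * X) = ∑_j (hasse coefficients) (Λ X)^j`), say `= C Λ * S`; with
`Λ = g * g'` and `P.eval ρ + β = g * q + r`, `0 ≤ r < |g|` (`Int.emod`, `Int.ediv`): `P' = C g' * S + C q`. Degree at most `D`;
coefficient of `X^D` (`D ≥ 1`): that of the composition is `a Λ^D` (`Polynomial.coeff_comp_degree_mul_degree` or
`Polynomial.leadingCoeff_comp`, or induction). -/
theorem F3_pol (P : ℤ[X]) (D : ℕ) (hD : 1 ≤ D) (hP : P.natDegree = D) (g Λ : ℤ) (hg : g ≠ 0) (hΛ : Λ ≠ 0)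
    (hdvd : g ∣ Λ) (ρ β : ℤ) : ∃ (P' : ℤ[X]) (r : ℤ), 0 ≤ r ∧ r < |g| ∧ P'.natDegree ≤ D ∧
      P'.coeff D = P.leadingCoeff * (Λ / g) * Λ ^ (D - 1) ∧ ∀ m : ℤ, P.eval (Λ * m + ρ) + β = g * P'.eval m + r := by
  obtain ⟨g', hg'⟩ := hdvd
  set T : ℤ[X] := taylor ρ P with hT
  have hTd : T.natDegree = D := by rw [hT, natDegree_taylor, hP]
  have hTc : T.coeff D = P.leadingCoeff := by
    rw [hT, ← hP]; exact coeff_taylor_natDegree ρ P
  set S : ℤ[X] := T.divX.comp (C Λ * X) with hS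
  have hSd : S.natDegree ≤ D - 1 := by
    refine (natDegree_comp_le (p := T.divX) (q := C Λ * X)).trans ?_
    rw [natDegree_divX_eq_natDegree_tsub_one, hTd]
    have h0 : (C Λ * X : ℤ[X]).natDegree ≤ 1 := (natDegree_C_mul_le _ _).trans natDegree_X_le
    calc (D - 1) * (C Λ * X : ℤ[X]).natDegree ≤ (D - 1) * 1 := Nat.mul_le_mul_left _ h0
      _ = _ := mul_one _
  have hSc : S.coeff (D - 1) = P.leadingCoeff * Λ ^ (D - 1) := by
    rw [hS, comp_C_mul_X_coeff, coeff_divX, Nat.sub_add_cancel hD, hTc]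
  have hdiv : Λ / g = g' := by rw [hg', Int.mul_ediv_cancel_left _ hg]
  refine ⟨C g' * S * X + C ((T.coeff 0 + β) / g), (T.coeff 0 + β) % g, Int.emod_nonneg _ hg, Int.emod_lt_abs _ hg, ?_, ?_, ?_⟩
  · refine (natDegree_add_le _ _).trans (max_le ?_ ?_)
    · refine (natDegree_mul_le).trans ?_
      have h1 : (C g' * S).natDegree ≤ D - 1 := (natDegree_C_mul_le _ _).trans hSd
      have h2 : (X : ℤ[X]).natDegree ≤ 1 := natDegree_X_le
      omega
    · rw [natDegree_C]; omega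
  · obtain ⟨E, rfl⟩ : ∃ E, D = E + 1 := ⟨D - 1, by omega⟩
    rw [coeff_add, coeff_mul_X, coeff_C_mul, coeff_C_succ, add_zero, hdiv]
    have := hSc
    simp only [Nat.add_sub_cancel] at this ⊢
    rw [this]; ring
  · intro m
    have h1 : P.eval (Λ * m + ρ) = T.eval (Λ * m) := by
      rw [hT, taylor_eval]
    have h2 : T.eval (Λ * m) = T.divX.eval (Λ * m) * (Λ * m) + T.coeff 0 := by
      conv_lhs => rw [← divX_mul_X_add T]
      simp
    have h3 : S.eval m = T.divX.eval (Λ * m) := by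
      rw [hS]; simp [eval_comp]
    have h4 := Int.mul_ediv_add_emod (T.coeff 0 + β) g
    simp only [eval_add, eval_mul, eval_C, eval_X, h1, h2, h3]
    rw [hg'] at *
    linear_combination -h4

end Pool.Agent.HUP
end

-- from Lib.HUP.F4
section

/-!
# Projects HUP and HPC, module F (the second moment `FMT` from Theorem P), F4: grouping by the value of the form
-/

open Finset Polynomial

namespace Pool.Agent.HUP

open Pool.Agent.HUK (GG DD DL DV FF bxS Bdd)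

theorem f4_card {d : ℕ} (π : Fin d → ℤ) (b : Fin d → ℤ) (s : Fin d → ℕ) :
    ((((tb b s).image fun t => ∑ j, π j * t j).card : ℕ) : ℤ) ≤ ∑ j, |π j| * s j + 1 := by
  have hsub : (tb b s).image (fun t => ∑ j, π j * t j) ⊆
      Icc (∑ j, π j * b j - ∑ j, max (-π j) 0 * s j) (∑ j, π j * b j + ∑ j, max (π j) 0 * s j) := by
    intro u hu
    rw [Finset.mem_image] at hu
    obtain ⟨t, ht, rfl⟩ := hu
    unfold tb at ht
    rw [Fintype.mem_piFinset] at ht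
    have h1 : ∀ j, π j * b j - max (-π j) 0 * s j ≤ π j * t j ∧ π j * t j ≤ π j * b j + max (π j) 0 * s j := by
      intro j
      have h2 := ht j
      rw [mem_Ico] at h2
      have h3 : 0 ≤ t j - b j := by linarith [h2.1]
      have h4 : t j - b j ≤ s j := by linarith [h2.2]
      constructor
      · have h5 : -π j * (t j - b j) ≤ max (-π j) 0 * s j :=
          (mul_le_mul_of_nonneg_right (le_max_left _ _) h3).trans (mul_le_mul_of_nonneg_left h4 (le_max_right _ _))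
        linarith
      · have h5 : π j * (t j - b j) ≤ max (π j) 0 * s j :=
          (mul_le_mul_of_nonneg_right (le_max_left _ _) h3).trans (mul_le_mul_of_nonneg_left h4 (le_max_right _ _))
        linarith
    rw [mem_Icc]
    constructor
    · rw [← Finset.sum_sub_distrib]
      exact Finset.sum_le_sum fun j _ => (h1 j).1
    · rw [← Finset.sum_add_distrib]
      exact Finset.sum_le_sum fun j _ => (h1 j).2
  have h6 := Finset.card_le_card hsub
  rw [Int.card_Icc] at h6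
  have h7 : ∑ j, |π j| * (s j : ℤ) = ∑ j, max (-π j) 0 * (s j : ℤ) + ∑ j, max (π j) 0 * (s j : ℤ) := by
    rw [← Finset.sum_add_distrib]
    refine Finset.sum_congr rfl fun j _ => ?_
    rw [← add_mul]
    congr 1
    rcases le_total 0 (π j) with h | h
    · rw [abs_of_nonneg h, max_eq_right (by linarith), max_eq_left h]
      ring
    · rw [abs_of_nonpos h, max_eq_left (by linarith), max_eq_right h]
      ring
  have h8 : 0 ≤ ∑ j, |π j| * (s j : ℤ) := Finset.sum_nonneg fun j _ => mul_nonneg (abs_nonneg _) (Nat.cast_nonneg _)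
  rw [h7] at h8 ⊢
  omega

/-- **F4.** Proof. `U` = the image of the box under `t ↦ ∑ π j t j`, contained in an interval of length `∑ |π j| s j`.
`h' u = (∑_{t ∈ box, value u} h t) / ∏_{j ≠ l} s j` (`0` if the product is `0`: then the box is empty, or `d`…), at most `1` in absolute
value by `p3_fib` (`HUP/P3b.lean`; `bZ` is `tb`). `Finset.sum_fiberwise_of_maps_to`. -/
theorem F4_group {d : ℕ} (π : Fin d → ℤ) (l : Fin d) (hl : π l ≠ 0) (b : Fin d → ℤ) (s : Fin d → ℕ) :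
    ∃ U : Finset ℤ, (U.card : ℤ) ≤ ∑ j, |π j| * s j + 1 ∧ ∀ h : (Fin d → ℤ) → ℂ, (∀ t, ‖h t‖ ≤ 1) →
      ∃ h' : ℤ → ℂ, (∀ u, ‖h' u‖ ≤ 1) ∧ (∀ u, u ∉ U → h' u = 0) ∧ ∀ Φ : ℤ → ℂ,
        ∑ t ∈ tb b s, h t * Φ (∑ j, π j * t j) =
          ((∏ j ∈ univ.erase l, s j : ℕ) : ℂ) * ∑ u ∈ U, h' u * Φ u := by
  have h0 := f4_card π b s
  set U : Finset ℤ := (tb b s).image fun t => ∑ j, π j * t j with hU
  refine ⟨U, h0, ?_⟩
  intro h hh
  refine ⟨fun u => (∑ t ∈ (tb b s).filter (fun t => ∑ j, π j * t j = u), h t) / ((∏ j ∈ univ.erase l, s j : ℕ) : ℂ), ?_, ?_, ?_⟩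
  · intro u
    rw [norm_div, RCLike.norm_natCast]
    refine div_le_one_of_le₀ ?_ (Nat.cast_nonneg _)
    refine (norm_sum_le _ _).trans ?_
    refine (Finset.sum_le_card_nsmul _ _ 1 fun t _ => hh t).trans ?_
    rw [nsmul_eq_mul, mul_one]
    exact_mod_cast p3_fib b s π l hl u
  · intro u hu
    have h1 : (tb b s).filter (fun t => ∑ j, π j * t j = u) = ∅ := by
      rw [Finset.filter_eq_empty_iff]
      intro t ht he
      exact hu (hU ▸ Finset.mem_image.2 ⟨t, ht, he⟩)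
    simp only [h1, Finset.sum_empty, zero_div]
  · intro Φ
    rw [← Finset.sum_fiberwise_of_maps_to (s := tb b s) (t := U)
      (g := fun t => ∑ j, π j * t j) (fun t ht => hU ▸ Finset.mem_image_of_mem _ ht), Finset.mul_sum]
    refine Finset.sum_congr rfl fun u _ => ?_
    have h1 : ∑ t ∈ (tb b s).filter (fun t => ∑ j, π j * t j = u), h t * Φ (∑ j, π j * t j) =
        (∑ t ∈ (tb b s).filter (fun t => ∑ j, π j * t j = u), h t) * Φ u := by
      rw [Finset.sum_mul]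
      refine Finset.sum_congr rfl fun t ht => ?_
      rw [(Finset.mem_filter.1 ht).2]
    rw [h1]
    by_cases hP : (∏ j ∈ univ.erase l, s j) = 0
    · have h2 : tb b s = ∅ := by
        rw [Finset.prod_eq_zero_iff] at hP
        obtain ⟨j, _, hj⟩ := hP
        rw [Finset.eq_empty_iff_forall_notMem]
        intro t ht
        unfold tb at ht
        rw [Fintype.mem_piFinset] at ht
        have h5 := ht j
        rw [hj, mem_Ico] at h5
        push_cast at h5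
        omega
      rw [h2]
      simp
    · have h3 : ((∏ j ∈ univ.erase l, s j : ℕ) : ℂ) ≠ 0 := Nat.cast_ne_zero.2 hP
      field_simp

end Pool.Agent.HUP
end

-- from Lib.HUP.F7
section

/-!
# Projects HUP and HPC, module F (the second moment `FMT` from Theorem P), F7: differences with small norm
-/

open Finset Polynomial

namespace Pool.Agent.HUP

open Pool.Agent.HUK (GG DD DL DV FF bxS Bdd)

theorem f7_bxS (s H : ℕ) (F : (Fin (s + 1) → ℤ) → ℝ) :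
    ∑ h ∈ bxS (s + 1) H, F h = ∑ k ∈ Ioo (-(H : ℤ)) H, ∑ h ∈ bxS s H, F (Fin.cons k h : Fin (s + 1) → ℤ) := by
  have h1 := Pool.Agent.HUK.bxS_sum s H (fun h => ((F h : ℝ) : ℂ))
  exact_mod_cast h1

theorem f7_DL_zero {A B : ℤ} (l : List ℤ) (f : ℤ → ℂ) (hf : ∀ y, y ∉ Ico A B → f y = 0) (k : ℤ) (hk : k ∈ l)
    (hk2 : k ∉ Ioo (-(B - A)) (B - A)) : DL l f = fun _ => 0 := by
  induction l generalizing f with
  | nil => exact absurd hk List.not_mem_nil
  | cons a l ih =>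
    change DL l (DD a f) = fun _ => 0
    rcases List.mem_cons.1 hk with h1 | h1
    · rw [← h1, Pool.Agent.HUK.p1_DD_zero hf k hk2]
      funext z
      exact Pool.Agent.HUK.DL_supp l _ z rfl
    · refine ih (DD a f) ?_ h1
      intro y hy
      unfold DD
      rw [hf y hy, zero_mul]

/-- Proof. Induction on `r` with `GG_succ` (differences commute: `DV`, `List.ofFn_succ`; all `GG … ≥ 0` for `s ≥ 1`): `GG W (s + r) f =
∑_{h ∈ bxS r (2W)} GG W s (DV h f)`. -/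
theorem F7_sum (W s r : ℕ) (hs : 1 ≤ s) (f : ℤ → ℂ) (hf : ∀ y, y ∉ Ico (-(W : ℤ)) W → f y = 0) :
    GG W (s + r) f = ∑ h ∈ bxS r (2 * W), GG W s (DV h f) := by
  induction r generalizing f with
  | zero =>
    have h1 : bxS 0 (2 * W) = {(fun i : Fin 0 => i.elim0)} := by
      ext h
      rw [bxS, Fintype.mem_piFinset, Finset.mem_singleton]
      exact ⟨fun _ => Subsingleton.elim _ _, fun _ i => i.elim0⟩
    rw [h1, Finset.sum_singleton]
    rfl
  | succ r ih =>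
    rw [f7_bxS, ← Nat.add_assoc, Pool.Agent.HUK.GG_succ]
    push_cast
    refine Finset.sum_congr rfl fun k _ => ?_
    rw [ih (DD k f) (Pool.Agent.HUK.p1_DD_supp hf k)]
    refine Finset.sum_congr rfl fun h _ => ?_
    congr 1
    unfold DV
    rw [List.ofFn_cons]
    rfl

/-- **F7.** Proof. `j ↦ (μ r * j r)` is injective and `GG W s (DV h f) = 0` for `h ∉ bxS r (2W)` (the difference vanishes:
`p1_DD_zero`-type), so the sum over `j` is at most `GG W (s + r) f` (`F7_sum`). -/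
theorem F7_inj (W s r T : ℕ) (hs : 1 ≤ s) (μ : Fin r → ℤ) (hμ : ∀ i, μ i ≠ 0) (f : ℤ → ℂ)
    (hf : ∀ y, y ∉ Ico (-(W : ℤ)) W → f y = 0) :
    ∑ j ∈ bxS r T, GG W s (DV (fun i => μ i * j i) f) ≤ GG W (s + r) f := by
  classical
  rw [F7_sum W s r hs f hf]
  have hz : ∀ h : Fin r → ℤ, h ∉ bxS r (2 * W) → GG W s (DV h f) = 0 := by
    intro h hh
    have h1 : ∃ i, h i ∉ Ioo (-((2 * W : ℕ) : ℤ)) ((2 * W : ℕ) : ℤ) := by
      by_contra hc
      push Not at hc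
      exact hh (by rw [bxS, Fintype.mem_piFinset]; exact hc)
    obtain ⟨i, hi⟩ := h1
    have h2 : DV h f = fun _ => 0 := by
      refine f7_DL_zero (A := -(W : ℤ)) (B := (W : ℤ)) (List.ofFn h) f hf (h i) ?_ ?_
      · rw [List.mem_ofFn]
        exact ⟨i, rfl⟩
      · intro h3
        apply hi
        rw [mem_Ioo] at h3 ⊢
        push_cast
        omega
    rw [h2]
    exact Pool.Agent.HUK.p1_zero W s
  have hinj : Function.Injective (fun (j : Fin r → ℤ) (i : Fin r) => μ i * j i) := by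
    intro a b hab
    funext i
    exact mul_left_cancel₀ (hμ i) (congrFun hab i)
  have h1 : ∑ j ∈ bxS r T, GG W s (DV (fun i => μ i * j i) f)
      = ∑ h ∈ (bxS r T).image (fun (j : Fin r → ℤ) (i : Fin r) => μ i * j i), GG W s (DV h f) := by
    rw [Finset.sum_image fun a _ b _ hab => hinj hab]
  rw [h1, ← Finset.sum_filter_add_sum_filter_not _ (fun h => h ∈ bxS r (2 * W))]
  have h2 : ∑ h ∈ ((bxS r T).image (fun (j : Fin r → ℤ) (i : Fin r) => μ i * j i)).filter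
      (fun h => ¬ h ∈ bxS r (2 * W)), GG W s (DV h f) = 0 :=
    Finset.sum_eq_zero fun h hh => hz h (Finset.mem_filter.1 hh).2
  rw [h2, add_zero]
  refine Finset.sum_le_sum_of_subset_of_nonneg ?_ ?_
  · intro h hh
    exact (Finset.mem_filter.1 hh).2
  · intro h _ _
    refine Pool.Agent.HUK.GG_nonneg W s hs _ ?_
    intro y hy
    exact Pool.Agent.HUK.DL_supp _ f y (hf y hy)

end Pool.Agent.HUP
end

-- from Lib.HUP.F5
section

/-!
# Projects HUP and HPC, module F (the second moment `FMT` from Theorem P), F5: the bilinear bound inside a block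
-/

open Finset Polynomial

namespace Pool.Agent.HUP

open Pool.Agent.HUK (GG DD DL DV FF bxS Bdd)

/-- The leading coefficients after the substitution are not zero. Proof. `π, y` from `F2_prim`, `g_i = lf c y i` (nonzero for
`i ∈ Kz`). If `g_i0 a_i Λ/g_i … = a_i0 …`, i.e. `a_i * lf c y i0 = a_i0 * lf c y i`, then `x = g_i0`, `x' = g_i` contradict `hD.ind`
(`x * c i j = g_i0 g_i π j = x' * c i0 j`). -/
theorem F5_ne {k d : ℕ} (c : Fin k → Fin d → ℤ) (e : Fin d → ℕ) (D : Fin k → ℕ) (a : Fin k → ℤ) (hD : Dat c e D a)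
    (i0 i : Fin k) (hi : i ∈ Kz c D i0) (hii : i ≠ i0) (π y : Fin d → ℤ) (h1 : 0 < lf c y i0)
    (h2 : ∀ j, c i0 j = lf c y i0 * π j) (h3 : ∀ j, c i j = lf c y i * π j) :
    lf c y i ≠ 0 ∧ a i * lf c y i0 ≠ a i0 * lf c y i := by
  have hK : D i = D i0 := by
    unfold Kz at hi
    rw [Finset.mem_filter] at hi
    exact hi.2.1
  constructor
  · intro h0
    obtain ⟨j, hj⟩ := hD.ne i
    apply hj
    rw [h3 j, h0, zero_mul]
  · intro h0
    have h4 := hD.ind i i0 hii hK (lf c y i0) (lf c y i) (by linarith) (fun j => by rw [h3 j, h2 j]; ring)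
    exact h1.ne' h4.1

/-- One factor: substitution. -/
theorem f5_term {k : ℕ} (K : Finset (Fin k)) (i0 : Fin k) (hi0 : i0 ∈ K) (g : Fin k → ℤ) (Pt : Fin k → ℤ[X])
    (rr : Fin k → ℤ) (H : Fin k → ℤ → ℂ) (U : Finset ℤ) (h' : ℤ → ℂ) (hU : ∀ u, u ∉ U → h' u = 0) (t m : ℤ) :
    H i0 (rr i0 + g i0 * t) * ∏ j : Fin (k + 1), (Fin.cons h' (fun i => if i ∈ K.erase i0 then (fun x => H i (g i * x + rr i))
      else fun x => if x ∈ U then 1 else 0) : Fin (k + 1) → ℤ → ℂ) j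
        (t + ((Fin.cons (-Pt i0) (fun i => if i ∈ K.erase i0 then Pt i - Pt i0 else -Pt i0) : Fin (k + 1) → ℤ[X]) j).eval m) =
      h' (t - (Pt i0).eval m) * ∏ i ∈ K, H i (g i * ((Pt i).eval m + (t - (Pt i0).eval m)) + rr i) := by
  rw [Fin.prod_univ_succ, Fin.cons_zero, Fin.cons_zero]
  simp only [Fin.cons_succ]
  rw [Polynomial.eval_neg, ← sub_eq_add_neg]
  by_cases hu : t - (Pt i0).eval m ∈ U
  · have h1 : ∀ i : Fin k, (if i ∈ K.erase i0 then (fun x => H i (g i * x + rr i))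
        else fun x => if x ∈ U then (1 : ℂ) else 0) (t + (if i ∈ K.erase i0 then Pt i - Pt i0 else -Pt i0).eval m) =
        if i ∈ K.erase i0 then H i (g i * ((Pt i).eval m + (t - (Pt i0).eval m)) + rr i) else 1 := by
      intro i
      by_cases hi : i ∈ K.erase i0
      · rw [if_pos hi, if_pos hi, if_pos hi, Polynomial.eval_sub]
        congr 2
        ring
      · rw [if_neg hi, if_neg hi, if_neg hi, Polynomial.eval_neg, ← sub_eq_add_neg, if_pos hu]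
    rw [Finset.prod_congr rfl fun i _ => h1 i, Finset.prod_ite_mem, Finset.univ_inter,
      ← Finset.mul_prod_erase K _ hi0]
    have h2 : rr i0 + g i0 * t = g i0 * ((Pt i0).eval m + (t - (Pt i0).eval m)) + rr i0 := by ring
    rw [h2]
    ring
  · rw [hU _ hu]
    ring

/-- The sum over `u` as a sum over `t`. -/
theorem f5_sum (W U : Finset ℤ) (p : ℤ) (T : ℤ → ℂ) (h1 : ∀ u, u ∉ U → T u = 0) (h2 : ∀ u, u + p ∉ W → T u = 0) :
    ∑ t ∈ W, T (t - p) = ∑ u ∈ U, T u := by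
  have h3 : ∑ t ∈ W, T (t - p) = ∑ u ∈ W.image (fun t => t - p), T u := by
    rw [Finset.sum_image]
    intro x _ y _ hxy
    exact sub_left_inj.mp hxy
  rw [h3]
  have h4 : ∑ u ∈ W.image (fun t => t - p), T u = ∑ u ∈ W.image (fun t => t - p) ∪ U, T u := by
    refine Finset.sum_subset Finset.subset_union_left fun u _ hu => h2 u fun h5 => hu ?_
    exact Finset.mem_image.mpr ⟨u + p, h5, by ring⟩
  have h5 : ∑ u ∈ U, T u = ∑ u ∈ W.image (fun t => t - p) ∪ U, T u := by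
    refine Finset.sum_subset Finset.subset_union_right fun u _ hu => h1 u hu
  rw [h4, h5]

/-- The set of arguments of a coordinate. -/
theorem f5_card (A : ℕ) (g r : ℤ) (hg : g ≠ 0) (H : ℤ → ℂ) (hH : ∀ m, m ∉ Ico (-(A : ℤ)) (A : ℤ) → H m = 0) :
    ((Ico (-(A : ℤ)) (A : ℤ)).image fun m => (m - r) / g).card ≤ 2 * A ∧
      ∀ t, t ∉ ((Ico (-(A : ℤ)) (A : ℤ)).image fun m => (m - r) / g) → H (g * t + r) = 0 := by
  constructor
  · refine Finset.card_image_le.trans ?_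
    rw [Int.card_Ico]
    omega
  · intro t ht
    apply hH
    intro h1
    apply ht
    refine Finset.mem_image.mpr ⟨g * t + r, h1, ?_⟩
    rw [add_sub_cancel_right]
    exact Int.mul_ediv_cancel_left t hg

/-- **F5a.** One residue class `n = Λ m + ρ`. Everything about forms is gone: `u` is the value of the primitive form. `Pt i`, `rr i`
are the polynomials and remainders of `F3_pol`. Proof. `ThmPZ D0 (k+1) r` with `r = Fin.cons (-α i0) (fun i => if i ∈ K.erase i0 then α i - α i0 else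
-α i0)` (all nonzero), `R = Fin.cons (-Pt i0) (fun i => if i ∈ K.erase i0 then Pt i - Pt i0 else -Pt i0)`, the functions
`f0 t = H i0 (g i0 * t + rr i0)`, `f = Fin.cons h' (fun i => if i ∈ K.erase i0 then fun t => H i (g i * t + rr i) else indicator of U)`, supports `U`,
and `{t | g i * t + rr i ∈ window}` (at most `2 C0 X^D0` elements), constant `4 C0 + C1` for both. The substitution
`t = u + Pt i0 (m)` for each `m`. `f0` is supported in the window and `GG … f0 ≤ GG … (H i0)`: `V1_dil`, `V1_res` of `HUK/V1.lean`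
(`g i0 > 0`, `0 ≤ rr i0 < g i0`), `GG_scale`. -/
theorem F5_class (D0 k : ℕ) (hD0 : 1 ≤ D0) (K : Finset (Fin k)) (i0 : Fin k) (hi0 : i0 ∈ K) (g α : Fin k → ℤ)
    (hg : ∀ i ∈ K, g i ≠ 0) (hg0 : 0 < g i0) (hα : ∀ i ∈ K, i ≠ i0 → α i ≠ α i0) (hα0 : α i0 ≠ 0) (C0 : ℕ)
    (hTP : ∀ r : Fin (k + 1) → ℤ, (∀ j, r j ≠ 0) → HPC.ThmPZ D0 (k + 1) r) :
    ∃ s : ℕ, 2 ≤ s ∧ ∀ κ : ℝ, 0 < κ → ∃ δ : ℝ, 0 < δ ∧ ∃ X0 : ℕ, ∀ X : ℕ, X0 ≤ X →
    ∀ (Pt : Fin k → ℤ[X]) (rr : Fin k → ℤ), (∀ i ∈ K, (Pt i).natDegree ≤ D0 ∧ (Pt i).coeff D0 = α i) →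
    (∀ i ∈ K, 0 ≤ rr i ∧ rr i < |g i|) → ∀ m0 L : ℕ, m0 + L ≤ C0 * X →
    ∀ H : Fin k → ℤ → ℂ, (∀ i m, ‖H i m‖ ≤ 1) →
    (∀ (i : Fin k) (m : ℤ), m ∉ Ico (-((C0 * X ^ D0 : ℕ) : ℤ)) ((C0 * X ^ D0 : ℕ) : ℤ) → H i m = 0) →
    ∀ (U : Finset ℤ) (h' : ℤ → ℂ), U.card ≤ C0 * X ^ D0 → (∀ u, ‖h' u‖ ≤ 1) → (∀ u, u ∉ U → h' u = 0) →
    GG (C0 * X ^ D0) s (H i0) ≤ (X : ℝ) ^ ((D0 : ℝ) * (s + 1) - κ) →
    ‖∑ m ∈ Ico m0 (m0 + L), ∑ u ∈ U, h' u * ∏ i ∈ K, H i (g i * ((Pt i).eval (m : ℤ) + u) + rr i)‖ ≤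
      (X : ℝ) ^ ((D0 : ℝ) + 1 - δ) := by
  have hr : ∀ j : Fin (k + 1), (Fin.cons (-α i0) (fun i => if i ∈ K.erase i0 then α i - α i0 else -α i0) :
      Fin (k + 1) → ℤ) j ≠ 0 := by
    intro j
    refine Fin.cases ?_ (fun i => ?_) j
    · rw [Fin.cons_zero]
      exact neg_ne_zero.mpr hα0
    · rw [Fin.cons_succ]
      split_ifs with h1
      · rw [Finset.mem_erase] at h1
        exact sub_ne_zero.mpr (hα i h1.2 h1.1)
      · exact neg_ne_zero.mpr hα0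
  obtain ⟨s, hs, hP⟩ := hTP _ hr
  refine ⟨s, hs, fun κ hκ => ?_⟩
  obtain ⟨δ, hδ, X0, hX0⟩ := hP (2 * C0) κ hκ
  refine ⟨δ, hδ, X0, fun X hX Pt rr hPt hrr m0 L hmL H hH hHs U h' hU hh' hhU hGG => ?_⟩
  rcases Nat.eq_zero_or_pos (C0 * X ^ D0) with hA | hA
  · have h1 : U = ∅ := by
      rw [← Finset.card_eq_zero]
      omega
    rw [h1]
    simp only [Finset.sum_empty, Finset.sum_const_zero, norm_zero]
    positivity
  have hA2 : C0 * X ^ D0 ≤ 2 * C0 * X ^ D0 := by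
    rw [mul_assoc]
    omega
  obtain ⟨G, hG⟩ : ∃ G : ℕ, g i0 = G := ⟨(g i0).toNat, by omega⟩
  have hr0 := hrr i0 hi0
  have hB : Bdd (C0 * X ^ D0) (H i0) := ⟨hH i0, fun y hy => hHs i0 y hy⟩
  have hdil := HUK.V1_dil (C0 * X ^ D0) s G hA (by omega) (by omega) (rr i0) hr0.1
    (by rw [abs_of_pos hg0] at hr0; rw [← hG]; exact hr0.2) (H i0) hB
  rw [← hG] at hdil
  have hBd : Bdd (2 * C0 * X ^ D0) (fun t => H i0 (rr i0 + g i0 * t)) := by
    refine ⟨hdil.1.le, fun y hy => hdil.1.sup y fun h => hy ?_⟩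
    rw [Finset.mem_Ico] at h ⊢
    have h3 : ((C0 * X ^ D0 : ℕ) : ℤ) ≤ ((2 * C0 * X ^ D0 : ℕ) : ℤ) := by exact_mod_cast hA2
    constructor <;> linarith [h.1, h.2]
  have hGf : GG (2 * C0 * X ^ D0) s (fun t => H i0 (rr i0 + g i0 * t)) ≤ (X : ℝ) ^ ((D0 : ℝ) * (s + 1) - κ) := by
    rw [HUK.GG_scale (C0 * X ^ D0) (2 * C0 * X ^ D0) s hA2 _ hdil.1.sup, hdil.2]
    have h4 := HUK.V1_res (C0 * X ^ D0) s G hs (by omega) (rr i0) (H i0) hB.sup
    rw [← hG] at h4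
    exact h4.trans hGG
  have key := hX0 X hX (Fin.cons (-Pt i0) (fun i => if i ∈ K.erase i0 then Pt i - Pt i0 else -Pt i0)) (by
      intro j
      refine Fin.cases ?_ (fun i => ?_) j
      · rw [Fin.cons_zero, Fin.cons_zero, Polynomial.natDegree_neg, Polynomial.coeff_neg, (hPt i0 hi0).2]
        exact ⟨(hPt i0 hi0).1, rfl⟩
      · rw [Fin.cons_succ, Fin.cons_succ]
        split_ifs with h1
        · have h2 := hPt i (Finset.mem_of_mem_erase h1)
          rw [Polynomial.coeff_sub, (hPt i0 hi0).2, h2.2]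
          exact ⟨(Polynomial.natDegree_sub_le _ _).trans (max_le h2.1 (hPt i0 hi0).1), rfl⟩
        · rw [Polynomial.natDegree_neg, Polynomial.coeff_neg, (hPt i0 hi0).2]
          exact ⟨(hPt i0 hi0).1, rfl⟩) m0 L (hmL.trans (by nlinarith))
    (fun t => H i0 (rr i0 + g i0 * t))
    (Fin.cons h' (fun i => if i ∈ K.erase i0 then (fun x => H i (g i * x + rr i)) else fun x => if x ∈ U then 1 else 0))
    (Fin.cons U (fun i => if i ∈ K.erase i0 then (Ico (-((C0 * X ^ D0 : ℕ) : ℤ)) ((C0 * X ^ D0 : ℕ) : ℤ)).image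
      (fun m => (m - rr i) / g i) else U)) hBd (by
      intro j y
      refine Fin.cases ?_ (fun i => ?_) j
      · rw [Fin.cons_zero]
        exact hh' y
      · rw [Fin.cons_succ]
        split_ifs with h1
        · exact hH i _
        · dsimp only
          split_ifs
          · rw [norm_one]
          · rw [norm_zero]
            exact zero_le_one) (by
      intro j
      refine Fin.cases ?_ (fun i => ?_) j
      · rw [Fin.cons_zero]
        exact hU.trans hA2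
      · rw [Fin.cons_succ]
        split_ifs with h1
        · rw [mul_assoc 2 C0]
          exact (f5_card (C0 * X ^ D0) (g i) (rr i) (hg i (Finset.mem_of_mem_erase h1)) (H i) (hHs i)).1
        · exact hU.trans hA2) (by
      intro j
      refine Fin.cases ?_ (fun i => ?_) j
      · rw [Fin.cons_zero, Fin.cons_zero]
        exact hhU
      · rw [Fin.cons_succ, Fin.cons_succ]
        split_ifs with h1
        · exact (f5_card (C0 * X ^ D0) (g i) (rr i) (hg i (Finset.mem_of_mem_erase h1)) (H i) (hHs i)).2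
        · intro y hy
          dsimp only
          rw [if_neg hy]) hGf
  refine le_trans (le_of_eq ?_) key
  congr 1
  refine Eq.trans ?_ Finset.sum_comm
  refine Finset.sum_congr rfl fun m _ => ?_
  rw [Finset.sum_congr rfl fun t _ => f5_term K i0 hi0 g Pt rr H U h' hhU t m]
  symm
  refine f5_sum _ U ((Pt i0).eval (m : ℤ)) (fun u => h' u * ∏ i ∈ K, H i (g i * ((Pt i).eval (m : ℤ) + u) + rr i)) ?_ ?_
  · intro u hu
    rw [hhU u hu, zero_mul]
  · intro u hu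
    have h1 : H i0 (g i0 * ((Pt i0).eval (m : ℤ) + u) + rr i0) = 0 := by
      have h2 := hBd.sup _ hu
      rw [← h2]
      congr 1
      ring
    rw [Finset.prod_eq_zero hi0 h1, mul_zero]

end Pool.Agent.HUP
end

-- from Lib.HUP.F5b
section

/-!
# Projects HUP and HPC, module F (the second moment `FMT` from Theorem P), F5b: the bilinear bound inside a block
-/

open Finset Polynomial

namespace Pool.Agent.HUP

open Pool.Agent.HUK (GG DD DL DV FF bxS Bdd)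

theorem f5b_iff (n m ρ Λ : ℕ) (h : ρ < Λ) : (n + (Λ - 1 - ρ)) / Λ ≤ m ↔ n ≤ Λ * m + ρ := by
  have h0 : 0 < Λ := by omega
  have h1 : (n + (Λ - 1 - ρ)) / Λ < m + 1 ↔ n + (Λ - 1 - ρ) < (m + 1) * Λ := Nat.div_lt_iff_lt_mul h0
  have h2 : (m + 1) * Λ = Λ * m + Λ := by ring
  rw [h2] at h1
  omega

theorem f5b_split (Λ : ℕ) (hΛ : 0 < Λ) (n0 n1 : ℕ) (F : ℕ → ℂ) :
    ∑ n ∈ Ico n0 n1, F n =
      ∑ ρ ∈ range Λ, ∑ m ∈ Ico ((n0 + (Λ - 1 - ρ)) / Λ) ((n1 + (Λ - 1 - ρ)) / Λ), F (Λ * m + ρ) := by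
  rw [← Finset.sum_fiberwise_of_maps_to (s := Ico n0 n1) (t := range Λ) (g := fun n => n % Λ)
    (fun n _ => mem_range.2 (Nat.mod_lt _ hΛ))]
  refine sum_congr rfl fun ρ hρ => ?_
  rw [mem_range] at hρ
  refine Finset.sum_nbij' (fun n => n / Λ) (fun m => Λ * m + ρ) ?_ ?_ ?_ ?_ ?_
  · intro n hn
    rw [mem_filter, mem_Ico] at hn
    obtain ⟨⟨h1, h2⟩, h3⟩ := hn
    have h4 : Λ * (n / Λ) + ρ = n := by
      rw [← h3]
      exact Nat.div_add_mod n Λ
    rw [mem_Ico, f5b_iff _ _ _ _ hρ, ← not_le, f5b_iff _ _ _ _ hρ, h4]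
    omega
  · intro m hm
    rw [mem_Ico, f5b_iff _ _ _ _ hρ, ← not_le, f5b_iff _ _ _ _ hρ] at hm
    rw [mem_filter, mem_Ico]
    refine ⟨⟨hm.1, by omega⟩, ?_⟩
    rw [Nat.mul_add_mod]
    exact Nat.mod_eq_of_lt hρ
  · intro n hn
    rw [mem_filter, mem_Ico] at hn
    obtain ⟨⟨h1, h2⟩, h3⟩ := hn
    show Λ * (n / Λ) + ρ = n
    rw [← h3]
    exact Nat.div_add_mod n Λ
  · intro m hm
    show (Λ * m + ρ) / Λ = m
    rw [Nat.mul_add_div hΛ, Nat.div_eq_of_lt hρ, add_zero]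
  · intro n hn
    rw [mem_filter, mem_Ico] at hn
    obtain ⟨⟨h1, h2⟩, h3⟩ := hn
    show F n = F (Λ * (n / Λ) + ρ)
    congr 1
    rw [← h3]
    exact (Nat.div_add_mod n Λ).symm

/-- **F5.** Proof. `π, y` by `F2_prim` for `i0`, `g i = lf c y i`, `Λ = ∏_{i ∈ Kz} |g i|`, `α i = a i * (Λ / g i) * Λ^(D0-1)`. The sum over
`t` by `F4_group` (`l` with `π l ≠ 0`, `e l = D i0`; `∏_{j ≠ l} σ j ≤ C0^d X^(∑ e - D i0)`; `|π j| σ j`: `π j ≠ 0` implies
`e j = D i0`, so `U.card ≤ C1 X^(D i0)`), and `P_i(n) + (β_i + lf c t i) = P_i(n) + β_i + g i * (π t)`. The sum over `n` is split into the classes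
`n = Λ m + ρ`, `0 ≤ ρ < Λ` (each class is an interval of `m`), `F3_pol`, `F5_class` with the constant `C0 + C1`. -/
theorem F5_bil {k d : ℕ} (c : Fin k → Fin d → ℤ) (e : Fin d → ℕ) (D : Fin k → ℕ) (a : Fin k → ℤ) (hD : Dat c e D a)
    (hTP : ∀ (D q : ℕ) (r : Fin q → ℤ), 1 ≤ D → (∀ j, r j ≠ 0) → HPC.ThmPZ D q r) (i0 : Fin k) (C0 : ℕ) :
    ∃ s : ℕ, 2 ≤ s ∧ ∀ κ : ℝ, 0 < κ → ∃ δ : ℝ, 0 < δ ∧ ∃ X0 : ℕ, ∀ X : ℕ, X0 ≤ X →
    ∀ P : Fin k → ℤ[X], HasD D a P →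
    ∀ (β : Fin k → ℤ) (b : Fin d → ℤ) (σ : Fin d → ℕ), (∀ j, σ j ≤ C0 * X ^ e j) →
    ∀ n0 N : ℕ, n0 + N ≤ C0 * X →
    ∀ H : Fin k → ℤ → ℂ, (∀ i m, ‖H i m‖ ≤ 1) →
    (∀ (i : Fin k) (m : ℤ), m ∉ Ico (-((C0 * X ^ D i : ℕ) : ℤ)) ((C0 * X ^ D i : ℕ) : ℤ) → H i m = 0) →
    ∀ h : (Fin d → ℤ) → ℂ, (∀ t, ‖h t‖ ≤ 1) →
    GG (C0 * X ^ D i0) s (H i0) ≤ (X : ℝ) ^ ((D i0 : ℝ) * (s + 1) - κ) →
    ‖∑ n ∈ Ico n0 (n0 + N), ∑ t ∈ tb b σ, h t *
      ∏ i ∈ Kz c D i0, H i ((P i).eval (n : ℤ) + (β i + lf c t i))‖ ≤ (X : ℝ) ^ (1 + (∑ j, (e j : ℝ)) - δ) := by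
  classical
  obtain ⟨π, y, hπy, hg0, hc0, hcK⟩ := F2_prim c i0 (hD.ne i0)
  have hKi0 : i0 ∈ Kz c D i0 := by
    unfold Kz
    rw [mem_filter]
    exact ⟨mem_univ _, rfl, fun j j' => mul_comm _ _⟩
  have hKD : ∀ i ∈ Kz c D i0, D i = D i0 := by
    intro i hi
    unfold Kz at hi
    rw [mem_filter] at hi
    exact hi.2.1
  have hKc : ∀ i ∈ Kz c D i0, ∀ j, c i j = lf c y i * π j := by
    intro i hi
    unfold Kz at hi
    rw [mem_filter] at hi
    exact hcK i hi.2.2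
  -- the number `Λ`
  set g : Fin k → ℤ := fun i => lf c y i with hg
  have hgne : ∀ i ∈ Kz c D i0, g i ≠ 0 := by
    intro i hi
    by_cases hii : i = i0
    · rw [hii]
      exact hg0.ne'
    · exact (F5_ne c e D a hD i0 i hi hii π y hg0 hc0 (hKc i hi)).1
  set Λn : ℕ := ∏ i ∈ Kz c D i0, (g i).natAbs with hΛn
  have hΛpos : 0 < Λn := Finset.prod_pos fun i hi => Int.natAbs_pos.2 (hgne i hi)
  set Λ : ℤ := (Λn : ℤ) with hΛ
  have hΛne : Λ ≠ 0 := by
    rw [hΛ]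
    exact_mod_cast hΛpos.ne'
  have hdvd : ∀ i ∈ Kz c D i0, g i ∣ Λ := by
    intro i hi
    rw [hΛ, ← Int.natAbs_dvd, Int.natCast_dvd_natCast]
    exact Finset.dvd_prod_of_mem (fun i => (g i).natAbs) hi
  set α : Fin k → ℤ := fun i => a i * (Λ / g i) * Λ ^ (D i0 - 1) with hα
  have hdiv : ∀ i ∈ Kz c D i0, Λ / g i * g i = Λ := fun i hi => Int.ediv_mul_cancel (hdvd i hi)
  have hdivne : ∀ i ∈ Kz c D i0, Λ / g i ≠ 0 := by
    intro i hi h
    have h1 := hdiv i hi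
    rw [h, zero_mul] at h1
    exact hΛne h1.symm
  have hα0 : α i0 ≠ 0 := mul_ne_zero (mul_ne_zero (hD.lc i0) (hdivne i0 hKi0)) (pow_ne_zero _ hΛne)
  have hαne : ∀ i ∈ Kz c D i0, i ≠ i0 → α i ≠ α i0 := by
    intro i hi hii h
    have h1 := (F5_ne c e D a hD i0 i hi hii π y hg0 hc0 (hKc i hi)).2
    apply h1
    rw [hα] at h
    dsimp only at h
    have h2 := mul_right_cancel₀ (pow_ne_zero _ hΛne) h
    have h3 : a i * g i0 * Λ = a i0 * g i * Λ := by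
      calc a i * g i0 * Λ = a i * g i0 * (Λ / g i * g i) := by rw [hdiv i hi]
        _ = (a i * (Λ / g i)) * (g i0 * g i) := by ring
        _ = (a i0 * (Λ / g i0)) * (g i0 * g i) := by rw [h2]
        _ = a i0 * g i * (Λ / g i0 * g i0) := by ring
        _ = a i0 * g i * Λ := by rw [hdiv i0 hKi0]
    exact mul_right_cancel₀ hΛne h3
  -- the coordinate `l`
  obtain ⟨l, hl0⟩ := hD.ne i0
  have hl : π l ≠ 0 := by
    intro h
    apply hl0
    rw [hc0 l, h, mul_zero]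
  have hπe : ∀ j, π j ≠ 0 → e j = D i0 := by
    intro j hj
    apply hD.blk i0 j
    rw [hc0 j]
    exact mul_ne_zero hg0.ne' hj
  set Sπ : ℕ := ∑ j, (π j).natAbs with hSπ
  set C1 : ℕ := C0 * Sπ + 1 with hC1
  set C2 : ℕ := C0 + C1 with hC2
  obtain ⟨s, hs, hcl⟩ := F5_class (D i0) k (hD.deg i0) (Kz c D i0) i0 hKi0 g α hgne hg0 hαne hα0 C2
    (fun r hr => hTP (D i0) (k + 1) r (hD.deg i0) hr)
  refine ⟨s, hs, fun κ hκ => ?_⟩
  obtain ⟨δ, hδ, X0, hX0⟩ := hcl κ hκ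
  -- large X
  have hbig : ∃ X1 : ℕ, 1 ≤ X1 ∧ ∀ X : ℕ, X1 ≤ X → ((C0 : ℝ) ^ (univ.erase l).card * Λn) ≤ (X : ℝ) ^ (δ / 2) := by
    have h1 : Filter.Tendsto (fun X : ℕ => (X : ℝ) ^ (δ / 2)) Filter.atTop Filter.atTop :=
      (tendsto_rpow_atTop (half_pos hδ)).comp tendsto_natCast_atTop_atTop
    obtain ⟨X1, hX1⟩ := Filter.eventually_atTop.1 (h1.eventually_ge_atTop ((C0 : ℝ) ^ (univ.erase l).card * Λn))
    exact ⟨max X1 1, le_max_right _ _, fun X hX => hX1 X (le_trans (le_max_left _ _) hX)⟩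
  obtain ⟨X1, hX11, hX1⟩ := hbig
  refine ⟨δ / 2, half_pos hδ, max X0 X1, fun X hX P hP β b σ hσ n0 N hnN H hH hHs h hh hGG => ?_⟩
  have hXX0 : X0 ≤ X := le_trans (le_max_left _ _) hX
  have hXX1 : X1 ≤ X := le_trans (le_max_right _ _) hX
  have hXpos : 0 < X := lt_of_lt_of_le (by omega) hXX1
  have hXr : (0 : ℝ) < X := by exact_mod_cast hXpos
  obtain ⟨U, hUc, hU⟩ := F4_group π l hl b σ
  obtain ⟨h', hh'1, hh'0, hh'⟩ := hU h hh
  -- the size of `U`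
  have hUcard : U.card ≤ C2 * X ^ D i0 := by
    have h1 : ∑ j, |π j| * (σ j : ℤ) ≤ ∑ j, ((π j).natAbs : ℤ) * ((C0 * X ^ D i0 : ℕ) : ℤ) := by
      refine Finset.sum_le_sum fun j _ => ?_
      by_cases hj : π j = 0
      · rw [hj]
        simp
      · rw [Int.abs_eq_natAbs, ← hπe j hj]
        exact mul_le_mul_of_nonneg_left (by exact_mod_cast hσ j) (by positivity)
    have h2 : ∑ j, ((π j).natAbs : ℤ) * ((C0 * X ^ D i0 : ℕ) : ℤ) = ((Sπ * (C0 * X ^ D i0) : ℕ) : ℤ) := by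
      rw [← Finset.sum_mul, hSπ]
      push_cast
      rfl
    have h3 : (U.card : ℤ) ≤ ((Sπ * (C0 * X ^ D i0) + 1 : ℕ) : ℤ) := by
      rw [Nat.cast_add, Nat.cast_one, ← h2]
      exact le_trans hUc (by linarith [h1])
    have h4 : U.card ≤ Sπ * (C0 * X ^ D i0) + 1 := by exact_mod_cast h3
    have h5 : 1 ≤ X ^ D i0 := Nat.one_le_pow _ _ hXpos
    calc U.card ≤ Sπ * (C0 * X ^ D i0) + 1 := h4
      _ ≤ Sπ * (C0 * X ^ D i0) + X ^ D i0 := by omega
      _ = C1 * X ^ D i0 := by rw [hC1]; ring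
      _ ≤ C2 * X ^ D i0 := Nat.mul_le_mul_right _ (by omega)
  -- the modified functions
  set H' : Fin k → ℤ → ℂ := fun i m => if i ∈ Kz c D i0 then H i m else 0 with hH'
  have hH'1 : ∀ i m, ‖H' i m‖ ≤ 1 := by
    intro i m
    rw [hH']
    dsimp only
    split_ifs
    · exact hH i m
    · simp
  have hCC : C0 * X ^ D i0 ≤ C2 * X ^ D i0 := Nat.mul_le_mul_right _ (by omega)
  have hH's : ∀ (i : Fin k) (m : ℤ), m ∉ Ico (-((C2 * X ^ D i0 : ℕ) : ℤ)) ((C2 * X ^ D i0 : ℕ) : ℤ) → H' i m = 0 := by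
    intro i m hm
    rw [hH']
    dsimp only
    split_ifs with hi
    · apply hHs
      rw [hKD i hi]
      intro h1
      apply hm
      rw [mem_Ico] at h1 ⊢
      have h2 : ((C0 * X ^ D i0 : ℕ) : ℤ) ≤ ((C2 * X ^ D i0 : ℕ) : ℤ) := by exact_mod_cast hCC
      constructor <;> linarith [h1.1, h1.2]
    · rfl
  have hH'0 : H' i0 = H i0 := by
    funext m
    rw [hH']
    dsimp only
    rw [if_pos hKi0]
  have hGG' : GG (C2 * X ^ D i0) s (H' i0) ≤ (X : ℝ) ^ ((D i0 : ℝ) * (s + 1) - κ) := by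
    rw [hH'0, Pool.Agent.HUK.GG_scale (C0 * X ^ D i0) (C2 * X ^ D i0) s hCC (H i0) (hHs i0)]
    exact hGG
  -- one class
  have hclass : ∀ ρ ∈ range Λn, ‖∑ m ∈ Ico ((n0 + (Λn - 1 - ρ)) / Λn) ((n0 + N + (Λn - 1 - ρ)) / Λn),
      ∑ u ∈ U, h' u * ∏ i ∈ Kz c D i0, H i ((P i).eval (((Λn * m + ρ : ℕ)) : ℤ) + (β i + g i * u))‖ ≤
        (X : ℝ) ^ ((D i0 : ℝ) + 1 - δ) := by
    intro ρ hρ
    rw [mem_range] at hρ
    have hpol : ∀ i : Fin k, ∃ (P' : ℤ[X]) (r : ℤ), i ∈ Kz c D i0 → (0 ≤ r ∧ r < |g i| ∧ P'.natDegree ≤ D i0 ∧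
        P'.coeff (D i0) = α i ∧ ∀ m : ℤ, (P i).eval (Λ * m + ρ) + β i = g i * P'.eval m + r) := by
      intro i
      by_cases hi : i ∈ Kz c D i0
      · obtain ⟨P', r, h1, h2, h3, h4, h5⟩ := F3_pol (P i) (D i0) (hD.deg i0) (by rw [(hP i).1, hKD i hi]) (g i) Λ
          (hgne i hi) hΛne (hdvd i hi) (ρ : ℤ) (β i)
        refine ⟨P', r, fun _ => ⟨h1, h2, h3, ?_, h5⟩⟩
        rw [h4, (hP i).2]
      · exact ⟨0, 0, fun h => absurd h hi⟩
    choose Pt rr hPt using hpol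
    have h1 := hX0 X hXX0 Pt rr (fun i hi => ⟨(hPt i hi).2.2.1, (hPt i hi).2.2.2.1⟩)
      (fun i hi => ⟨(hPt i hi).1, (hPt i hi).2.1⟩) ((n0 + (Λn - 1 - ρ)) / Λn)
      ((n0 + N + (Λn - 1 - ρ)) / Λn - (n0 + (Λn - 1 - ρ)) / Λn) (by
        have h2 : (n0 + (Λn - 1 - ρ)) / Λn ≤ (n0 + N + (Λn - 1 - ρ)) / Λn := Nat.div_le_div_right (by omega)
        have h3 : (n0 + N + (Λn - 1 - ρ)) / Λn ≤ n0 + N := by
          rw [f5b_iff _ _ _ _ hρ]
          nlinarith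
        have h4 : C0 * X ≤ C2 * X := Nat.mul_le_mul_right _ (by omega)
        omega) H' hH'1 hH's U h' hUcard hh'1 hh'0 hGG'
    have h2 : (n0 + (Λn - 1 - ρ)) / Λn + ((n0 + N + (Λn - 1 - ρ)) / Λn - (n0 + (Λn - 1 - ρ)) / Λn) =
        (n0 + N + (Λn - 1 - ρ)) / Λn := by
      have h2 : (n0 + (Λn - 1 - ρ)) / Λn ≤ (n0 + N + (Λn - 1 - ρ)) / Λn := Nat.div_le_div_right (by omega)
      omega
    rw [h2] at h1
    refine le_of_eq_of_le ?_ h1
    congr 1
    refine sum_congr rfl fun m _ => sum_congr rfl fun u _ => ?_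
    congr 1
    refine prod_congr rfl fun i hi => ?_
    rw [hH']
    dsimp only
    rw [if_pos hi]
    congr 1
    have h3 := (hPt i hi).2.2.2.2 (m : ℤ)
    have h4 : (((Λn * m + ρ : ℕ)) : ℤ) = Λ * m + ρ := by
      rw [hΛ]
      push_cast
      rfl
    rw [h4]
    linear_combination h3
  -- the sum
  have hsum : ∑ n ∈ Ico n0 (n0 + N), ∑ t ∈ tb b σ, h t *
      ∏ i ∈ Kz c D i0, H i ((P i).eval (n : ℤ) + (β i + lf c t i)) =
      ((∏ j ∈ univ.erase l, σ j : ℕ) : ℂ) * ∑ ρ ∈ range Λn,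
        ∑ m ∈ Ico ((n0 + (Λn - 1 - ρ)) / Λn) ((n0 + N + (Λn - 1 - ρ)) / Λn),
        ∑ u ∈ U, h' u * ∏ i ∈ Kz c D i0, H i ((P i).eval (((Λn * m + ρ : ℕ)) : ℤ) + (β i + g i * u)) := by
    rw [← f5b_split Λn hΛpos n0 (n0 + N) (fun n => ∑ u ∈ U, h' u * ∏ i ∈ Kz c D i0,
      H i ((P i).eval ((n : ℕ) : ℤ) + (β i + g i * u))), Finset.mul_sum]
    refine sum_congr rfl fun n _ => ?_
    rw [← hh' (fun u => ∏ i ∈ Kz c D i0, H i ((P i).eval ((n : ℕ) : ℤ) + (β i + g i * u)))]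
    refine sum_congr rfl fun t _ => ?_
    congr 1
    refine prod_congr rfl fun i hi => ?_
    congr 3
    unfold lf
    rw [Finset.mul_sum]
    refine sum_congr rfl fun j _ => ?_
    rw [hKc i hi j]
    ring
  rw [hsum, norm_mul]
  have hprod : ((∏ j ∈ univ.erase l, σ j : ℕ) : ℝ) ≤ (C0 : ℝ) ^ (univ.erase l).card * (X : ℝ) ^ (∑ j ∈ univ.erase l, (e j : ℝ)) := by
    have h1 : ∏ j ∈ univ.erase l, σ j ≤ ∏ j ∈ univ.erase l, C0 * X ^ e j :=
      Finset.prod_le_prod' fun j _ => hσ j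
    have h2 : ∏ j ∈ univ.erase l, C0 * X ^ e j = C0 ^ (univ.erase l).card * X ^ (∑ j ∈ univ.erase l, e j) := by
      rw [Finset.prod_mul_distrib, Finset.prod_const, Finset.prod_pow_eq_pow_sum]
    rw [h2] at h1
    have h3 : ((∏ j ∈ univ.erase l, σ j : ℕ) : ℝ) ≤ ((C0 ^ (univ.erase l).card * X ^ (∑ j ∈ univ.erase l, e j) : ℕ) : ℝ) := by
      exact_mod_cast h1
    refine le_trans h3 (le_of_eq ?_)
    rw [Nat.cast_mul, Nat.cast_pow, Nat.cast_pow, ← Nat.cast_sum, Real.rpow_natCast]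
  have hnorm : ‖((∏ j ∈ univ.erase l, σ j : ℕ) : ℂ)‖ = ((∏ j ∈ univ.erase l, σ j : ℕ) : ℝ) := Complex.norm_natCast _
  rw [hnorm]
  have hsum2 : ‖∑ ρ ∈ range Λn,
        ∑ m ∈ Ico ((n0 + (Λn - 1 - ρ)) / Λn) ((n0 + N + (Λn - 1 - ρ)) / Λn),
        ∑ u ∈ U, h' u * ∏ i ∈ Kz c D i0, H i ((P i).eval (((Λn * m + ρ : ℕ)) : ℤ) + (β i + g i * u))‖ ≤
      Λn * (X : ℝ) ^ ((D i0 : ℝ) + 1 - δ) := by
    refine le_trans (norm_sum_le _ _) ?_
    refine le_trans (Finset.sum_le_sum hclass) ?_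
    rw [Finset.sum_const, card_range, nsmul_eq_mul]
  have hel : e l = D i0 := hπe l hl
  have hes : (∑ j ∈ univ.erase l, (e j : ℝ)) + (D i0 : ℝ) = ∑ j, (e j : ℝ) := by
    rw [← Finset.sum_erase_add _ _ (mem_univ l), hel]
  calc ((∏ j ∈ univ.erase l, σ j : ℕ) : ℝ) * ‖∑ ρ ∈ range Λn,
        ∑ m ∈ Ico ((n0 + (Λn - 1 - ρ)) / Λn) ((n0 + N + (Λn - 1 - ρ)) / Λn),
        ∑ u ∈ U, h' u * ∏ i ∈ Kz c D i0, H i ((P i).eval (((Λn * m + ρ : ℕ)) : ℤ) + (β i + g i * u))‖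
      ≤ ((C0 : ℝ) ^ (univ.erase l).card * (X : ℝ) ^ (∑ j ∈ univ.erase l, (e j : ℝ))) * (Λn * (X : ℝ) ^ ((D i0 : ℝ) + 1 - δ)) :=
        mul_le_mul hprod hsum2 (norm_nonneg _) (by positivity)
    _ = ((C0 : ℝ) ^ (univ.erase l).card * Λn) * ((X : ℝ) ^ (∑ j ∈ univ.erase l, (e j : ℝ)) * (X : ℝ) ^ ((D i0 : ℝ) + 1 - δ)) := by
        ring
    _ ≤ (X : ℝ) ^ (δ / 2) * ((X : ℝ) ^ (∑ j ∈ univ.erase l, (e j : ℝ)) * (X : ℝ) ^ ((D i0 : ℝ) + 1 - δ)) :=
        mul_le_mul_of_nonneg_right (hX1 X hXX1) (by positivity)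
    _ = (X : ℝ) ^ (1 + (∑ j, (e j : ℝ)) - δ / 2) := by
        rw [← Real.rpow_add hXr, ← Real.rpow_add hXr]
        congr 1
        rw [← hes]
        ring

end Pool.Agent.HUP
end

-- from Lib.HUP.F8
section

/-!
# Projects HUP and HPC, module F (the second moment `FMT` from Theorem P), F8: FMT
-/

open Finset Polynomial

namespace Pool.Agent.HUP

open Pool.Agent.HUK (GG DD DL DV FF bxS Bdd)

theorem f8_ev (C x : ℝ) (hx : 0 < x) : ∃ X0 : ℕ, ∀ X : ℕ, X0 ≤ X → C ≤ (X : ℝ) ^ x := by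
  have h1 : Filter.Tendsto (fun Q : ℕ => (Q : ℝ) ^ x) Filter.atTop Filter.atTop :=
    (tendsto_rpow_atTop hx).comp tendsto_natCast_atTop_atTop
  obtain ⟨Q0, h⟩ := Filter.eventually_atTop.mp (h1.eventually_ge_atTop C)
  exact ⟨Q0, h⟩

theorem f8_triv {d : ℕ} (n0 N : ℕ) (T : Finset (Fin d → ℤ)) (F : ℕ → (Fin d → ℤ) → ℂ) (hF : ∀ n t, ‖F n t‖ ≤ 1) :
    ‖∑ n ∈ Ico n0 (n0 + N), ∑ t ∈ T, F n t‖ ≤ N * T.card := by
  refine (norm_sum_le _ _).trans ?_
  have h1 : ∀ n ∈ Ico n0 (n0 + N), ‖∑ t ∈ T, F n t‖ ≤ T.card := by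
    intro n _
    refine (norm_sum_le _ _).trans ?_
    calc ∑ t ∈ T, ‖F n t‖ ≤ ∑ _t ∈ T, (1 : ℝ) := sum_le_sum fun t _ => hF n t
      _ = T.card := by rw [sum_const, nsmul_eq_mul, mul_one]
  refine (sum_le_sum h1).trans ?_
  rw [sum_const, Nat.card_Ico, nsmul_eq_mul, Nat.add_sub_cancel_left]

theorem f8_card {d : ℕ} (b : Fin d → ℤ) (σ e : Fin d → ℕ) (C0 X : ℕ) (h : ∀ j, σ j ≤ C0 * X ^ e j) :
    ((tb b σ).card : ℝ) ≤ (C0 : ℝ) ^ d * (X : ℝ) ^ (∑ j, e j) := by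
  have h1 : (tb b σ).card ≤ C0 ^ d * X ^ (∑ j, e j) := by
    unfold tb
    rw [Fintype.card_piFinset]
    calc ∏ j, (Ico (b j) (b j + σ j)).card ≤ ∏ j : Fin d, (C0 * X ^ e j) := by
          refine prod_le_prod (fun _ _ => Nat.zero_le _) fun j _ => ?_
          rw [Int.card_Ico]
          have := h j
          omega
      _ = C0 ^ d * X ^ (∑ j, e j) := by
          rw [prod_mul_distrib, prod_const, card_univ, Fintype.card_fin, prod_pow_eq_pow_sum]
  exact_mod_cast h1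

theorem f8_DV {s : ℕ} (h : Fin s → ℤ) (f : ℤ → ℂ) (hf : ∀ z, ‖f z‖ ≤ 1) (z : ℤ) : ‖DV h f z‖ ≤ 1 :=
  Pool.Agent.HUK.DL_norm _ f hf z

theorem f8_DV0 {s : ℕ} (h : Fin s → ℤ) (f : ℤ → ℂ) (z : ℤ) (hz : f z = 0) : DV h f z = 0 :=
  Pool.Agent.HUK.DL_supp _ f z hz

/-- **Module F.** Proof. `F1_vec` gives `v`, `F5_bil` (for `i0`, `C0`) gives `s0`; `s = s0 + (k + 1)`. Given `κ`: `F5_bil` with `κ/2` gives `δ0`. `F6_elim`; the
functions `H i = DV (fun r => lf c (v r) i * j r) (f i)` are bounded by `1` and supported where `f i` is (`Bdd_DV`, `DL_supp`). Split the `j ∈ bxS (k+1) (X^D0)` (`D0 = D i0`): if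
`GG (C0 X^D0) s0 (H i0) ≤ X^(D0 (s0 + 1) - κ/2)`, then each inner norm is at most `X^(1 + ∑ e - δ0)` (`F5_bil`), so the sum over `n'` over
`X^(2 + ∑ e)` at most `C0 X^(-δ0)`. The number of the other `j` is at most `X^(D0 (s + 1) - κ) / X^(D0 (s0 + 1) - κ/2) = X^(D0 (k + 1) - κ/2)` (`F7_inj`,
`μ r = lf c (v r) i0 ≠ 0`), for them the trivial bound `C0^2 · C0^d` (`N ≤ C0 X`, `card tb = ∏ σ j ≤ C0^d X^(∑ e)`). `bxS` has at most `(2 X^D0)^(k+1)` elements.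
So the `2^(k+1)`-th power is at most `C' (X^(-δ0) + X^(-κ/2))`. -/
theorem FMT_of {k d : ℕ} (c : Fin k → Fin d → ℤ) (e : Fin d → ℕ) (D : Fin k → ℕ) (a : Fin k → ℤ) (hD : Dat c e D a)
    (hTP : ∀ (D q : ℕ) (r : Fin q → ℤ), 1 ≤ D → (∀ j, r j ≠ 0) → HPC.ThmPZ D q r) : FMT c e D a := by
  classical
  intro i0 C0
  obtain ⟨v, hv0, hv1, hv2⟩ := F1_vec c e D a hD i0
  obtain ⟨s0, hs0, hF5⟩ := F5_bil c e D a hD hTP i0 C0
  obtain ⟨C, hC1, hF6⟩ := F6_elim c e D a hD i0 v hv1 hv2 C0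
  refine ⟨s0 + (k + 1), by omega, fun κ hκ => ?_⟩
  obtain ⟨δ0, hδ0, X1, hX1⟩ := hF5 (κ / 2) (by linarith)
  obtain ⟨δ1, hδ1⟩ : ∃ δ1 : ℝ, δ1 = min δ0 (κ / 2) := ⟨_, rfl⟩
  have hδ1p : 0 < δ1 := by rw [hδ1]; exact lt_min hδ0 (by linarith)
  have hδ1a : δ1 ≤ δ0 := by rw [hδ1]; exact min_le_left _ _
  have hδ1b : δ1 ≤ κ / 2 := by rw [hδ1]; exact min_le_right _ _
  obtain ⟨C', hC'⟩ : ∃ C' : ℝ, C' = C * (2 ^ (k + 1) * C0 + (C0 : ℝ) ^ (d + 2)) := ⟨_, rfl⟩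
  obtain ⟨X2, hX2⟩ := f8_ev C' (δ1 / 2) (by linarith)
  refine ⟨δ1 / 2 / 2 ^ (k + 1), by positivity, X1 + X2 + 1, ?_⟩
  intro X hX P hP β b σ hσ n0 N hN w hw f hf hfs hG
  have hXn : 1 ≤ X := by omega
  have hx1 : (1 : ℝ) ≤ X := by exact_mod_cast hXn
  have hx0 : (0 : ℝ) < X := by linarith
  have hCX := hX2 X (by omega)
  have hF5' := hX1 X (by omega) P hP β b σ hσ n0 N hN
  obtain ⟨h, hh1, hh2⟩ := hF6 X hXn P β b σ hσ n0 N hN w hw f hf
  obtain ⟨S, hS⟩ : ∃ S : ℝ, S = ∑ t ∈ tb b σ, ‖∑ n ∈ Ico n0 (n0 + N), w n * ∏ i, f i ((P i).eval (n : ℤ) +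
    (β i + lf c t i))‖ ^ 2 := ⟨_, rfl⟩
  rw [← hS] at hh2 ⊢
  have hS0 : 0 ≤ S := by rw [hS]; exact sum_nonneg fun _ _ => by positivity
  obtain ⟨M, hM⟩ : ∃ M : ℝ, M = (X : ℝ) ^ (2 + ∑ j, e j) := ⟨_, rfl⟩
  rw [← hM] at hh2
  have hM0 : 0 < M := by rw [hM]; positivity
  have hMr : M = (X : ℝ) ^ ((2 : ℝ) + ∑ j, (e j : ℝ)) := by
    rw [hM, ← Real.rpow_natCast (X : ℝ) (2 + ∑ j, e j)]
    congr 1
    push_cast
    ring
  obtain ⟨A, hA⟩ : ∃ A : (Fin (k + 1) → ℤ) → ℝ, ∀ j, A j = (∑ n' ∈ Ico n0 (n0 + N),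
      ‖∑ n ∈ Ico n0 (n0 + N), ∑ t ∈ tb b σ, h j n' t * ∏ i ∈ Kz c D i0,
        DV (fun r => lf c (v r) i * j r) (f i) ((P i).eval (n : ℤ) + (β i + lf c t i))‖) / M := ⟨_, fun _ => rfl⟩
  have hh3 : (S / M) ^ 2 ^ (k + 1) ≤ C / (X : ℝ) ^ (D i0 * (k + 1)) * ∑ j ∈ bxS (k + 1) (X ^ D i0), A j := by
    refine hh2.trans (le_of_eq ?_)
    congr 1
    exact sum_congr rfl fun j _ => (hA j).symm
  have hHn : ∀ (j : Fin (k + 1) → ℤ) (i : Fin k) (m : ℤ), ‖DV (fun r => lf c (v r) i * j r) (f i) m‖ ≤ 1 :=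
    fun j i m => f8_DV _ (f i) (hf i) m
  have hN' : (N : ℝ) ≤ C0 * X := by
    have : N ≤ C0 * X := by omega
    exact_mod_cast this
  have hIco : ∀ c' : ℝ, ∑ _n' ∈ Ico n0 (n0 + N), c' = N * c' := by
    intro c'
    rw [sum_const, Nat.card_Ico, nsmul_eq_mul, Nat.add_sub_cancel_left]
  -- good directions
  have hgood : ∀ j, GG (C0 * X ^ D i0) s0 (DV (fun r => lf c (v r) i0 * j r) (f i0)) ≤
      (X : ℝ) ^ ((D i0 : ℝ) * (s0 + 1) - κ / 2) → A j ≤ C0 * (X : ℝ) ^ (-δ0) := by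
    intro j hj
    have h1 : ∀ n' ∈ Ico n0 (n0 + N), ‖∑ n ∈ Ico n0 (n0 + N), ∑ t ∈ tb b σ, h j n' t * ∏ i ∈ Kz c D i0,
        DV (fun r => lf c (v r) i * j r) (f i) ((P i).eval (n : ℤ) + (β i + lf c t i))‖ ≤
        (X : ℝ) ^ (1 + (∑ j, (e j : ℝ)) - δ0) := fun n' _ =>
      hF5' (fun i => DV (fun r => lf c (v r) i * j r) (f i)) (fun i m => hHn j i m)
        (fun i m hm => f8_DV0 _ _ m (hfs i m hm)) (h j n') (fun t => hh1 j n' t) hj
    have h2 := sum_le_sum h1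
    rw [hIco] at h2
    rw [hA, div_le_iff₀ hM0]
    refine h2.trans ?_
    have h3 : (X : ℝ) * (X : ℝ) ^ (1 + (∑ j, (e j : ℝ)) - δ0) = (X : ℝ) ^ (-δ0) * M := by
      rw [hMr, ← Real.rpow_add hx0]
      calc (X : ℝ) * (X : ℝ) ^ (1 + (∑ j, (e j : ℝ)) - δ0) =
            (X : ℝ) ^ (1 : ℝ) * (X : ℝ) ^ (1 + (∑ j, (e j : ℝ)) - δ0) := by rw [Real.rpow_one]
        _ = (X : ℝ) ^ (-δ0 + (2 + ∑ j, (e j : ℝ))) := by
            rw [← Real.rpow_add hx0]
            congr 1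
            ring
    calc (N : ℝ) * (X : ℝ) ^ (1 + (∑ j, (e j : ℝ)) - δ0) ≤ (C0 * X) * (X : ℝ) ^ (1 + (∑ j, (e j : ℝ)) - δ0) :=
          mul_le_mul_of_nonneg_right hN' (by positivity)
      _ = C0 * ((X : ℝ) * (X : ℝ) ^ (1 + (∑ j, (e j : ℝ)) - δ0)) := by ring
      _ = C0 * (X : ℝ) ^ (-δ0) * M := by rw [h3]; ring
  -- all directions
  have hall : ∀ j, A j ≤ (C0 : ℝ) ^ (d + 2) := by
    intro j
    have h1 : ∀ n' ∈ Ico n0 (n0 + N), ‖∑ n ∈ Ico n0 (n0 + N), ∑ t ∈ tb b σ, h j n' t * ∏ i ∈ Kz c D i0,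
        DV (fun r => lf c (v r) i * j r) (f i) ((P i).eval (n : ℤ) + (β i + lf c t i))‖ ≤
        N * (tb b σ).card := by
      intro n' _
      refine f8_triv n0 N (tb b σ) (fun n t => h j n' t * ∏ i ∈ Kz c D i0,
        DV (fun r => lf c (v r) i * j r) (f i) ((P i).eval (n : ℤ) + (β i + lf c t i))) ?_
      intro n t
      rw [norm_mul, norm_prod]
      refine mul_le_one₀ (hh1 j n' t) (prod_nonneg fun _ _ => norm_nonneg _) ?_
      exact prod_le_one (fun _ _ => norm_nonneg _) fun i _ => hHn j i _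
    have h2 := sum_le_sum h1
    rw [hIco] at h2
    rw [hA, div_le_iff₀ hM0]
    refine h2.trans ?_
    have h3 := f8_card b σ e C0 X hσ
    have h4 : (N : ℝ) * (N * (tb b σ).card) ≤ (C0 * X) * ((C0 * X) * ((C0 : ℝ) ^ d * (X : ℝ) ^ (∑ j, e j))) := by
      gcongr
    refine h4.trans (le_of_eq ?_)
    rw [hM]
    ring
  -- the number of the bad directions
  obtain ⟨B, hB⟩ : ∃ B : Finset (Fin (k + 1) → ℤ), B = (bxS (k + 1) (X ^ D i0)).filter fun j =>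
    ¬ GG (C0 * X ^ D i0) s0 (DV (fun r => lf c (v r) i0 * j r) (f i0)) ≤
      (X : ℝ) ^ ((D i0 : ℝ) * (s0 + 1) - κ / 2) := ⟨_, rfl⟩
  have hGn : ∀ j : Fin (k + 1) → ℤ, 0 ≤ GG (C0 * X ^ D i0) s0 (DV (fun r => lf c (v r) i0 * j r) (f i0)) := by
    intro j
    refine Pool.Agent.HUK.GG_nonneg _ s0 (by omega) _ ?_
    intro y hy
    exact f8_DV0 _ _ y (hfs i0 y hy)
  have hBc : (B.card : ℝ) ≤ (X : ℝ) ^ ((D i0 : ℝ) * (k + 1) - κ / 2) := by
    have h1 := F7_inj (C0 * X ^ D i0) s0 (k + 1) (X ^ D i0) (by omega) (fun r => lf c (v r) i0) hv0 (f i0)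
      (fun y hy => hfs i0 y hy)
    have h2 : (B.card : ℝ) * (X : ℝ) ^ ((D i0 : ℝ) * (s0 + 1) - κ / 2) ≤
        ∑ j ∈ B, GG (C0 * X ^ D i0) s0 (DV (fun r => lf c (v r) i0 * j r) (f i0)) := by
      rw [← nsmul_eq_mul, ← sum_const]
      refine sum_le_sum fun j hj => ?_
      rw [hB, mem_filter] at hj
      exact (not_le.1 hj.2).le
    have h3 : ∑ j ∈ B, GG (C0 * X ^ D i0) s0 (DV (fun r => lf c (v r) i0 * j r) (f i0)) ≤
        ∑ j ∈ bxS (k + 1) (X ^ D i0), GG (C0 * X ^ D i0) s0 (DV (fun r => lf c (v r) i0 * j r) (f i0)) := by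
      rw [hB]
      exact sum_le_sum_of_subset_of_nonneg (filter_subset _ _) fun j _ _ => hGn j
    have h4 : (B.card : ℝ) * (X : ℝ) ^ ((D i0 : ℝ) * (s0 + 1) - κ / 2) ≤
        (X : ℝ) ^ ((D i0 : ℝ) * (k + 1) - κ / 2) * (X : ℝ) ^ ((D i0 : ℝ) * (s0 + 1) - κ / 2) := by
      rw [← Real.rpow_add hx0]
      refine (h2.trans (h3.trans (h1.trans hG))).trans (le_of_eq ?_)
      congr 1
      push_cast
      ring
    exact le_of_mul_le_mul_right h4 (Real.rpow_pos_of_pos hx0 _)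
  -- the sum over the directions
  have hsum : ∑ j ∈ bxS (k + 1) (X ^ D i0), A j ≤ (X : ℝ) ^ (D i0 * (k + 1)) *
      ((2 ^ (k + 1) * C0 + (C0 : ℝ) ^ (d + 2)) * (X : ℝ) ^ (-δ1)) := by
    have h1 : ∀ j ∈ bxS (k + 1) (X ^ D i0), A j ≤ C0 * (X : ℝ) ^ (-δ0) + if j ∈ B then (C0 : ℝ) ^ (d + 2) else 0 := by
      intro j hj
      by_cases hjB : j ∈ B
      · rw [if_pos hjB]
        have h2 : (0 : ℝ) ≤ C0 * (X : ℝ) ^ (-δ0) := by positivity
        have h3 := hall j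
        linarith
      · rw [if_neg hjB, add_zero]
        refine hgood j ?_
        by_contra hcon
        exact hjB (by rw [hB, mem_filter]; exact ⟨hj, hcon⟩)
    refine (sum_le_sum h1).trans ?_
    rw [sum_add_distrib, sum_const, nsmul_eq_mul, ← sum_filter]
    have h2 : (bxS (k + 1) (X ^ D i0)).filter (fun j => j ∈ B) = B := by
      ext j
      rw [mem_filter, hB, mem_filter]
      tauto
    rw [h2, sum_const, nsmul_eq_mul]
    have h3 : ((bxS (k + 1) (X ^ D i0)).card : ℝ) ≤ 2 ^ (k + 1) * (X : ℝ) ^ (D i0 * (k + 1)) := by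
      refine (Pool.Agent.HUK.bxS_card _ _).trans (le_of_eq ?_)
      push_cast
      rw [mul_pow, ← pow_mul]
    have h4 : (X : ℝ) ^ (-δ0) ≤ (X : ℝ) ^ (-δ1) := Real.rpow_le_rpow_of_exponent_le hx1 (by linarith)
    have h5 : (X : ℝ) ^ ((D i0 : ℝ) * (k + 1) - κ / 2) ≤ (X : ℝ) ^ (D i0 * (k + 1)) * (X : ℝ) ^ (-δ1) := by
      rw [← Real.rpow_natCast, ← Real.rpow_add hx0]
      refine Real.rpow_le_rpow_of_exponent_le hx1 ?_
      push_cast
      linarith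
    have h6 : ((bxS (k + 1) (X ^ D i0)).card : ℝ) * (C0 * (X : ℝ) ^ (-δ0)) ≤
        (2 ^ (k + 1) * (X : ℝ) ^ (D i0 * (k + 1))) * (C0 * (X : ℝ) ^ (-δ1)) :=
      mul_le_mul h3 (mul_le_mul_of_nonneg_left h4 (by positivity)) (by positivity) (by positivity)
    have h7 : (B.card : ℝ) * (C0 : ℝ) ^ (d + 2) ≤
        ((X : ℝ) ^ (D i0 * (k + 1)) * (X : ℝ) ^ (-δ1)) * (C0 : ℝ) ^ (d + 2) :=
      mul_le_mul_of_nonneg_right (hBc.trans h5) (by positivity)
    refine (add_le_add h6 h7).trans (le_of_eq ?_)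
    ring
  have hy0 : (0 : ℝ) < (X : ℝ) ^ (D i0 * (k + 1)) := by positivity
  have hfin : (S / M) ^ 2 ^ (k + 1) ≤ ((X : ℝ) ^ (-(δ1 / 2 / 2 ^ (k + 1)))) ^ 2 ^ (k + 1) := by
    have h1 : C / (X : ℝ) ^ (D i0 * (k + 1)) * ∑ j ∈ bxS (k + 1) (X ^ D i0), A j ≤ C' * (X : ℝ) ^ (-δ1) := by
      calc C / (X : ℝ) ^ (D i0 * (k + 1)) * ∑ j ∈ bxS (k + 1) (X ^ D i0), A j ≤
            C / (X : ℝ) ^ (D i0 * (k + 1)) * ((X : ℝ) ^ (D i0 * (k + 1)) *
              ((2 ^ (k + 1) * C0 + (C0 : ℝ) ^ (d + 2)) * (X : ℝ) ^ (-δ1))) :=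
            mul_le_mul_of_nonneg_left hsum (by positivity)
        _ = C' * (X : ℝ) ^ (-δ1) := by
            rw [hC']
            field_simp
    have h2 : C' * (X : ℝ) ^ (-δ1) ≤ (X : ℝ) ^ (-(δ1 / 2)) := by
      calc C' * (X : ℝ) ^ (-δ1) ≤ (X : ℝ) ^ (δ1 / 2) * (X : ℝ) ^ (-δ1) :=
            mul_le_mul_of_nonneg_right hCX (by positivity)
        _ = (X : ℝ) ^ (-(δ1 / 2)) := by
            rw [← Real.rpow_add hx0]
            congr 1
            ring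
    have h3 : ((X : ℝ) ^ (-(δ1 / 2 / 2 ^ (k + 1)))) ^ 2 ^ (k + 1) = (X : ℝ) ^ (-(δ1 / 2)) := by
      rw [← Real.rpow_natCast, ← Real.rpow_mul hx0.le]
      congr 1
      push_cast
      field_simp
    rw [h3]
    exact (hh3.trans h1).trans h2
  have h1 : S / M ≤ (X : ℝ) ^ (-(δ1 / 2 / 2 ^ (k + 1))) :=
    (pow_le_pow_iff_left₀ (by positivity) (by positivity) (by positivity)).1 hfin
  rw [div_le_iff₀ hM0] at h1
  refine h1.trans (le_of_eq ?_)
  rw [hMr, ← Real.rpow_add hx0]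
  congr 1
  ring

end Pool.Agent.HUP
end

-- from Lib.HUP.FGA1
section

/-!
# Project HUP, chunk FGA1 (S): Cauchy-Schwarz and triangle inequality
-/

open Finset

namespace Pool.Agent.HUP

theorem fga1_expand {ι K : Type*} (S : Finset ι) (N : Finset ℕ) (T : Finset K) (w : ℕ → ℂ) (Φ : K → ℕ → ι → ℂ) :
    ((∑ x ∈ S, ‖∑ n ∈ N, w n * ∑ κ ∈ T, Φ κ n x‖ ^ 2 : ℝ) : ℂ) =
      ∑ κ ∈ T, ∑ κ' ∈ T, ∑ n ∈ N, ∑ n' ∈ N, w n * (starRingEnd ℂ) (w n') *
        ∑ x ∈ S, Φ κ n x * (starRingEnd ℂ) (Φ κ' n' x) := by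
  have h1 : ∀ x, (((‖∑ n ∈ N, w n * ∑ κ ∈ T, Φ κ n x‖ ^ 2 : ℝ)) : ℂ) =
      ∑ κ ∈ T, ∑ κ' ∈ T, ∑ n ∈ N, ∑ n' ∈ N, w n * (starRingEnd ℂ) (w n') * (Φ κ n x * (starRingEnd ℂ) (Φ κ' n' x)) := by
    intro x
    have h2 : ∑ n ∈ N, w n * ∑ κ ∈ T, Φ κ n x = ∑ κ ∈ T, ∑ n ∈ N, w n * Φ κ n x := by
      rw [Finset.sum_comm]
      exact Finset.sum_congr rfl fun n _ => Finset.mul_sum _ _ _
    rw [h2, Complex.ofReal_pow, ← Complex.mul_conj', map_sum, Finset.sum_mul_sum]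
    refine Finset.sum_congr rfl fun κ _ => Finset.sum_congr rfl fun κ' _ => ?_
    rw [map_sum, Finset.sum_mul_sum]
    refine Finset.sum_congr rfl fun n _ => Finset.sum_congr rfl fun n' _ => ?_
    rw [map_mul]
    ring
  rw [Complex.ofReal_sum, Finset.sum_congr rfl fun x _ => h1 x, Finset.sum_comm]
  refine Finset.sum_congr rfl fun κ _ => ?_
  rw [Finset.sum_comm]
  refine Finset.sum_congr rfl fun κ' _ => ?_
  rw [Finset.sum_comm]
  refine Finset.sum_congr rfl fun n _ => ?_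
  rw [Finset.sum_comm]
  refine Finset.sum_congr rfl fun n' _ => ?_
  rw [Finset.mul_sum]

/-- Proof. Expand: `∑_x ‖∑_n w n ∑_κ Φ κ n x‖² = ∑_{κ,κ'} ∑_{n,n'} w n conj (w n') A_{κ,κ'}(n,n')`,
`A_{κ,κ'}(n,n') = ∑_x Φ κ n x conj (Φ κ' n' x)` (`‖z‖² = z conj z`, as complex numbers; then take norms on the right). For fixed `κ`, `κ'`
Cauchy-Schwarz over the pairs `(n, n')`: `‖∑_{n,n'} w n conj (w n') A‖ ≤ (∑_{n,n'} ‖w n‖² ‖w n'‖²)^(1/2) (∑_{n,n'} ‖A‖²)^(1/2)` and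
`∑_{n,n'} ‖w n‖² ‖w n'‖² = (∑_n ‖w n‖²)²`. -/
theorem FGA1 {ι K : Type*} (S : Finset ι) (N : Finset ℕ) (T : Finset K) (w : ℕ → ℂ) (Φ : K → ℕ → ι → ℂ) :
    ∑ x ∈ S, ‖∑ n ∈ N, w n * ∑ κ ∈ T, Φ κ n x‖ ^ 2 ≤
      (∑ n ∈ N, ‖w n‖ ^ 2) * ∑ κ ∈ T, ∑ κ' ∈ T,
        Real.sqrt (∑ n ∈ N, ∑ n' ∈ N, ‖∑ x ∈ S, Φ κ n x * (starRingEnd ℂ) (Φ κ' n' x)‖ ^ 2) := by
  have h0 : (0 : ℝ) ≤ ∑ x ∈ S, ‖∑ n ∈ N, w n * ∑ κ ∈ T, Φ κ n x‖ ^ 2 := Finset.sum_nonneg fun _ _ => by positivity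
  have h1 : ∑ x ∈ S, ‖∑ n ∈ N, w n * ∑ κ ∈ T, Φ κ n x‖ ^ 2 =
      ‖∑ κ ∈ T, ∑ κ' ∈ T, ∑ n ∈ N, ∑ n' ∈ N, w n * (starRingEnd ℂ) (w n') *
        ∑ x ∈ S, Φ κ n x * (starRingEnd ℂ) (Φ κ' n' x)‖ := by
    rw [← fga1_expand, Complex.norm_real, Real.norm_of_nonneg h0]
  rw [h1, Finset.mul_sum]
  refine (norm_sum_le _ _).trans (Finset.sum_le_sum fun κ _ => ?_)
  rw [Finset.mul_sum]
  refine (norm_sum_le _ _).trans (Finset.sum_le_sum fun κ' _ => ?_)
  have h2 : ‖∑ n ∈ N, ∑ n' ∈ N, w n * (starRingEnd ℂ) (w n') * ∑ x ∈ S, Φ κ n x * (starRingEnd ℂ) (Φ κ' n' x)‖ ≤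
      ∑ p ∈ N ×ˢ N, (‖w p.1‖ * ‖w p.2‖) * ‖∑ x ∈ S, Φ κ p.1 x * (starRingEnd ℂ) (Φ κ' p.2 x)‖ := by
    rw [Finset.sum_product]
    refine (norm_sum_le _ _).trans (Finset.sum_le_sum fun n _ => ?_)
    refine (norm_sum_le _ _).trans (Finset.sum_le_sum fun n' _ => ?_)
    rw [norm_mul, norm_mul, RCLike.norm_conj]
  refine h2.trans ((Real.sum_mul_le_sqrt_mul_sqrt (N ×ˢ N) _ _).trans (le_of_eq ?_))
  have h3 : ∑ p ∈ N ×ˢ N, (‖w p.1‖ * ‖w p.2‖) ^ 2 = (∑ n ∈ N, ‖w n‖ ^ 2) ^ 2 := by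
    rw [Finset.sum_product, sq, Finset.sum_mul_sum]
    refine Finset.sum_congr rfl fun n _ => Finset.sum_congr rfl fun n' _ => ?_
    ring
  rw [h3, Real.sqrt_sq (Finset.sum_nonneg fun _ _ => by positivity), Finset.sum_product]

end Pool.Agent.HUP
end

-- from Lib.HUP.FGL3
section

/-!
# Project HUP, chunk FGL3 (S/M): all large primes are good
-/

open Finset

namespace Pool.Agent.HUP

theorem fgl3_lf_single {k d : ℕ} (c : Fin k → Fin d → ℤ) (j j' : Fin d) (x x' : ℤ) (i : Fin k) :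
    lf c (fun m => (if m = j then x else 0) + (if m = j' then x' else 0)) i = c i j * x + c i j' * x' := by
  unfold lf
  simp only [mul_add, Finset.sum_add_distrib, mul_ite, mul_zero, Finset.sum_ite_eq', Finset.mem_univ, if_true]

/-- Proof. `Λ` = sum of all `|c i j|`, `|a i|`, `|c i j * c i' j' - c i j' * c i' j|`, `|c i' j * a i - c i j * a i'|` (`natAbs`): a non-zero integer among
these is not divisible by a prime `l > Λ`. `form`: `Dat.ne`. `pair`, `i ≠ i'`: if some minor `c i j * c i' j' - c i j' * c i' j` is not `0`: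
`u = c i' j' • e_j - c i' j • e_{j'}` (`Pi.single`), `lf c u i' = 0`, `lf c u i` = the minor. If all minors vanish: choose `j` with `c i j ≠ 0`; then
`c i' j ≠ 0` (some `c i' j' ≠ 0`, and `c i j * c i' j' = c i j' * c i' j`), `A = c i j`, `B = c i' j`, `B * lf c t i = A * lf c t i'` (termwise, minors);
`D i = e j = D i'` (`Dat.blk`); `B * a i ≠ A * a i'`, since otherwise `Dat.ind` with `x = B`, `x' = A` gives `B = 0`. -/
theorem FGL3 {k d : ℕ} {c : Fin k → Fin d → ℤ} {e : Fin d → ℕ} {D : Fin k → ℕ} {a : Fin k → ℤ} (h : Dat c e D a) :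
    ∃ Λ : ℕ, ∀ l : ℕ, l.Prime → Λ < l → Gd c D a l := by
  set Λ1 : ℕ := ∑ i, ∑ j, (c i j).natAbs with hΛ1
  set Λ2 : ℕ := ∑ i, (a i).natAbs with hΛ2
  set Λ3 : ℕ := ∑ i, ∑ i', ∑ j, ∑ j', (c i j * c i' j' - c i j' * c i' j).natAbs with hΛ3
  set Λ4 : ℕ := ∑ i, ∑ i', ∑ j, (c i' j * a i - c i j * a i').natAbs with hΛ4
  have key : ∀ (x : ℤ) (l : ℕ), x ≠ 0 → x.natAbs < l → ¬ (l : ℤ) ∣ x := by
    intro x l hx hl hd
    rw [Int.natCast_dvd] at hd
    exact absurd (Nat.le_of_dvd (Int.natAbs_pos.2 hx) hd) (not_le.2 hl)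
  have b1 : ∀ i j, (c i j).natAbs ≤ Λ1 := fun i j =>
    (Finset.single_le_sum (f := fun j => (c i j).natAbs) (fun _ _ => Nat.zero_le _) (Finset.mem_univ j)).trans
      (Finset.single_le_sum (f := fun i => ∑ j, (c i j).natAbs) (fun _ _ => Nat.zero_le _) (Finset.mem_univ i))
  have b2 : ∀ i, (a i).natAbs ≤ Λ2 := fun i =>
    Finset.single_le_sum (f := fun i => (a i).natAbs) (fun _ _ => Nat.zero_le _) (Finset.mem_univ i)
  have b3 : ∀ i i' j j', (c i j * c i' j' - c i j' * c i' j).natAbs ≤ Λ3 := fun i i' j j' =>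
    (((Finset.single_le_sum (f := fun j' => (c i j * c i' j' - c i j' * c i' j).natAbs) (fun _ _ => Nat.zero_le _)
      (Finset.mem_univ j')).trans
      (Finset.single_le_sum (f := fun j => ∑ j', (c i j * c i' j' - c i j' * c i' j).natAbs) (fun _ _ => Nat.zero_le _)
      (Finset.mem_univ j))).trans
      (Finset.single_le_sum (f := fun i' => ∑ j, ∑ j', (c i j * c i' j' - c i j' * c i' j).natAbs)
      (fun _ _ => Nat.zero_le _) (Finset.mem_univ i'))).trans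
      (Finset.single_le_sum (f := fun i => ∑ i', ∑ j, ∑ j', (c i j * c i' j' - c i j' * c i' j).natAbs)
      (fun _ _ => Nat.zero_le _) (Finset.mem_univ i))
  have b4 : ∀ i i' j, (c i' j * a i - c i j * a i').natAbs ≤ Λ4 := fun i i' j =>
    ((Finset.single_le_sum (f := fun j => (c i' j * a i - c i j * a i').natAbs) (fun _ _ => Nat.zero_le _)
      (Finset.mem_univ j)).trans
      (Finset.single_le_sum (f := fun i' => ∑ j, (c i' j * a i - c i j * a i').natAbs)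
      (fun _ _ => Nat.zero_le _) (Finset.mem_univ i'))).trans
      (Finset.single_le_sum (f := fun i => ∑ i', ∑ j, (c i' j * a i - c i j * a i').natAbs)
      (fun _ _ => Nat.zero_le _) (Finset.mem_univ i))
  refine ⟨Λ1 + Λ2 + Λ3 + Λ4, fun l _ hl => ⟨?_, ?_, ?_⟩⟩
  · intro i
    obtain ⟨j, hj⟩ := h.ne i
    exact ⟨j, key _ _ hj (by have := b1 i j; omega)⟩
  · intro i
    exact key _ _ (h.lc i) (by have := b2 i; omega)
  · intro i i' hii
    by_cases hm : ∃ j j', c i j * c i' j' - c i j' * c i' j ≠ 0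
    · obtain ⟨j, j', hjj⟩ := hm
      refine Or.inl ⟨fun m => (if m = j then c i' j' else 0) + (if m = j' then -c i' j else 0), ?_, ?_⟩
      · rw [fgl3_lf_single]
        ring
      · rw [fgl3_lf_single]
        have h1 : c i j * c i' j' + c i j' * -c i' j = c i j * c i' j' - c i j' * c i' j := by ring
        rw [h1]
        exact key _ _ hjj (by have := b3 i i' j j'; omega)
    · push_neg at hm
      have hm' : ∀ j j', c i j * c i' j' = c i j' * c i' j := fun j j' => sub_eq_zero.1 (hm j j')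
      obtain ⟨j, hj⟩ := h.ne i
      obtain ⟨j', hj'⟩ := h.ne i'
      have hB : c i' j ≠ 0 := by
        intro h0
        have h1 := hm' j j'
        rw [h0, mul_zero] at h1
        exact (mul_ne_zero hj hj') h1
      have hD : D i = D i' := by
        rw [← h.blk i j hj, ← h.blk i' j hB]
      refine Or.inr ⟨hD, c i j, c i' j, ?_, ?_, ?_, ?_⟩
      · intro t
        unfold lf
        rw [Finset.mul_sum, Finset.mul_sum]
        refine Finset.sum_congr rfl fun m _ => ?_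
        have h1 := hm' j m
        linear_combination -(t m) * h1
      · exact key _ _ hj (by have := b1 i j; omega)
      · exact key _ _ hB (by have := b1 i' j; omega)
      · refine key _ _ ?_ (by have := b4 i i' j; omega)
        intro h0
        have h1 := h.ind i i' hii hD (c i' j) (c i j) (by linarith) (fun m => by
          have h2 := hm' j m
          linarith)
        exact hB h1.1

end Pool.Agent.HUP
end

-- from Lib.HUP.FGC4
section

/-!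
# Project HUP, chunk FGC4 (M): Gowers sums of periodic functions on an interval
-/

open Finset

namespace Pool.Agent.HUP

open Pool.Agent.HUK (GG DL Av Pe kb3_one kb3_fib DL_mul DL_prod DL_norm DV FF bxS)

theorem fgc4_cj_zero (n : ℕ) : Pool.Agent.HUK.cj n 0 = 0 := by
  unfold Pool.Agent.HUK.cj
  split_ifs
  · rfl
  · exact map_zero _

theorem fgc4_Ico (A B : ℤ) (g : ℤ → ℂ) : ∑ y ∈ Ico A B, g y = ∑ l ∈ range (B - A).toNat, g (A + l) := by
  symm
  refine Finset.sum_nbij' (fun l : ℕ => A + (l : ℤ)) (fun y : ℤ => (y - A).toNat) ?_ ?_ ?_ ?_ ?_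
  · intro l hl
    rw [mem_range] at hl
    rw [mem_Ico]
    constructor <;> omega
  · intro y hy
    rw [mem_Ico] at hy
    rw [mem_range]
    omega
  · intro l _
    show (A + (l : ℤ) - A).toNat = l
    omega
  · intro y hy
    rw [mem_Ico] at hy
    show A + (((y - A).toNat : ℕ) : ℤ) = y
    omega
  · intro l _
    rfl

/-- The differences of the indicator function of an interval are the indicator function of an interval. Proof. `DL_prod`:
`DL (List.ofFn h) 1_W y = ∏_ω cj (sg ω) (1_W (y + vt ω h))`, every factor is `0` or `1` and real; it is `1` iff all `y + vt ω h` are in `[-Y, Y)`, i.e.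
`A ≤ y < B` with `A = sup' (-Y - vt ω h)`, `B = inf' (Y - vt ω h)`; `ω = fun _ => false` gives `-Y ≤ A`, `B ≤ Y`. Take `L = (B - A).toNat`. -/
theorem FGC4_int (s Y : ℕ) (h : Fin s → ℤ) : ∃ (A : ℤ) (L : ℕ), L ≤ 2 * Y ∧
    ∀ φ : ℤ → ℂ, ∑ y ∈ Ico (-(Y : ℤ)) Y, DV h (fun m => if m ∈ Ico (-(Y : ℤ)) Y then φ m else 0) y =
      ∑ l ∈ range L, DV h φ (A + l) := by
  obtain ⟨v, hv⟩ : ∃ v : (Fin s → Bool) → ℤ, v = fun ω => Pool.Agent.HUK.vt ω h := ⟨_, rfl⟩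
  have hv0 : v (fun _ => false) = 0 := by
    rw [hv]
    show Pool.Agent.HUK.vt (fun _ => false) h = 0
    unfold Pool.Agent.HUK.vt
    simp
  have hne : (univ : Finset (Fin s → Bool)).Nonempty := ⟨fun _ => false, mem_univ _⟩
  obtain ⟨A, hA⟩ : ∃ A : ℤ, A = univ.sup' hne (fun ω => -(Y : ℤ) - v ω) := ⟨_, rfl⟩
  obtain ⟨B, hB⟩ : ∃ B : ℤ, B = univ.inf' hne (fun ω => (Y : ℤ) - v ω) := ⟨_, rfl⟩
  have hAle : ∀ y : ℤ, A ≤ y ↔ ∀ ω, -(Y : ℤ) - v ω ≤ y := by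
    intro y
    rw [hA, Finset.sup'_le_iff]
    exact ⟨fun h ω => h ω (mem_univ _), fun h ω _ => h ω⟩
  have hBlt : ∀ y : ℤ, y < B ↔ ∀ ω, y < (Y : ℤ) - v ω := by
    intro y
    rw [hB, Finset.lt_inf'_iff]
    exact ⟨fun h ω => h ω (mem_univ _), fun h ω _ => h ω⟩
  have hA0 : -(Y : ℤ) ≤ A := by
    have := (hAle A).1 le_rfl (fun _ => false)
    rw [hv0] at this
    linarith
  have hB0 : B ≤ (Y : ℤ) := by
    by_contra hc
    rw [not_le] at hc
    have := (hBlt (B - 1)).1 (by linarith) (fun _ => false)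
    rw [hv0] at this
    omega
  refine ⟨A, (B - A).toNat, by omega, fun φ => ?_⟩
  rw [← fgc4_Ico A B (fun y => DV h φ y)]
  have hfil : (Ico (-(Y : ℤ)) Y).filter (fun y => ∀ ω, y + v ω ∈ Ico (-(Y : ℤ)) Y) = Ico A B := by
    ext y
    rw [mem_filter, mem_Ico, mem_Ico, hAle, hBlt]
    constructor
    · rintro ⟨_, h2⟩
      refine ⟨fun ω => ?_, fun ω => ?_⟩
      · have := (mem_Ico.1 (h2 ω)).1
        linarith
      · have := (mem_Ico.1 (h2 ω)).2
        linarith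
    · rintro ⟨h1, h2⟩
      refine ⟨⟨?_, ?_⟩, fun ω => ?_⟩
      · have := h1 (fun _ => false)
        rw [hv0] at this
        linarith
      · have := h2 (fun _ => false)
        rw [hv0] at this
        linarith
      · rw [mem_Ico]
        have h3 := h1 ω
        have h4 := h2 ω
        constructor <;> linarith
  rw [← hfil, Finset.sum_filter]
  refine Finset.sum_congr rfl fun y _ => ?_
  unfold DV
  rw [DL_prod, DL_prod]
  by_cases hy : ∀ ω, y + v ω ∈ Ico (-(Y : ℤ)) Y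
  · rw [if_pos hy]
    refine Finset.prod_congr rfl fun ω _ => ?_
    have h5 : y + Pool.Agent.HUK.vt ω h ∈ Ico (-(Y : ℤ)) Y := by
      have := hy ω
      rw [hv] at this
      exact this
    rw [if_pos h5]
  · rw [if_neg hy]
    rw [not_forall] at hy
    obtain ⟨ω, hω⟩ := hy
    refine Finset.prod_eq_zero (mem_univ ω) ?_
    have h5 : ¬ y + Pool.Agent.HUK.vt ω h ∈ Ico (-(Y : ℤ)) Y := by
      rw [hv] at hω
      exact hω
    rw [if_neg h5, fgc4_cj_zero]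

/-- Periodicity of the differences. -/
theorem FGC4_per (s R : ℕ) (φ : ℤ → ℂ) (hφ : Pz R φ) : Pe R (fun (y : ℤ) (h : Fin s → ℤ) => DL (List.ofFn h) φ y) := by
  intro y y' h h' hy hh
  show DL (List.ofFn h) φ y = DL (List.ofFn h') φ y'
  rw [DL_prod, DL_prod]
  refine Finset.prod_congr rfl fun ω _ => ?_
  congr 1
  apply hφ
  have h1 : y + Pool.Agent.HUK.vt ω h - (y' + Pool.Agent.HUK.vt ω h') =
      (y - y') + ∑ i, (if ω i then h i - h' i else 0) := by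
    have h2 : ∑ i, (if ω i then h i - h' i else 0) = Pool.Agent.HUK.vt ω h - Pool.Agent.HUK.vt ω h' := by
      unfold Pool.Agent.HUK.vt
      rw [← Finset.sum_sub_distrib]
      refine Finset.sum_congr rfl fun i _ => ?_
      split_ifs
      · rfl
      · ring
    rw [h2]
    ring
  rw [h1]
  refine dvd_add hy (Finset.dvd_sum fun i _ => ?_)
  split_ifs
  · exact hh i
  · exact dvd_zero _

/-- Proof. `GG Y s f ≤ ∑_{h ∈ bxS s (2Y)} ‖∑_y DV h f y‖`. For each `h` by `FGC4_int` and `kb3_one` (`M = R`, `H = L ≤ 2Y`, `S = 1`, `DL_norm`):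
`≤ (2Y/R) ‖∑_{y ∈ Ico 0 R} DL (List.ofFn h) φ y‖ + R`. `kb3_fib` with `M = R`, `H = 2Y`: the sum over `h` of the first norm is at most
`(8Y/R)^s ∑_{h ∈ piFinset Ico 0 R} ‖..‖ = (8Y/R)^s R^(s+1) Av`. `card (bxS s (2Y)) ≤ (4Y)^s`. Total `2 * 8^s Y^(s+1) Av + 4^s Y^s R`. -/
theorem FGC4 (s : ℕ) : ∀ (R Y : ℕ), 1 ≤ R → R ≤ Y → ∀ φ : ℤ → ℂ, (∀ m, ‖φ m‖ ≤ 1) → Pz R φ →
    GG Y s (fun m => if m ∈ Ico (-(Y : ℤ)) Y then φ m else 0) ≤
      2 * 8 ^ s * ((Y : ℝ) ^ (s + 1) * Av s R (fun (y : ℤ) (h : Fin s → ℤ) => DL (List.ofFn h) φ y) + (Y : ℝ) ^ s * R) := by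
  intro R Y hR hRY φ hφ1 hφ
  have hR0 : (0 : ℝ) < R := by exact_mod_cast hR
  have hY0 : (0 : ℝ) ≤ Y := Nat.cast_nonneg _
  have hPe := FGC4_per s R φ hφ
  have hself : ∀ m : ℤ, (R : ℤ) ∣ m - m := fun m => by
    rw [sub_self]
    exact dvd_zero _
  have h1 : ∀ h ∈ bxS s (2 * Y), ‖FF Y h (fun m => if m ∈ Ico (-(Y : ℤ)) Y then φ m else 0)‖ ≤
      (2 * Y / R : ℝ) * ‖∑ y ∈ Ico (0 : ℤ) R, DL (List.ofFn h) φ y‖ + R := by
    intro h _
    obtain ⟨A, L, hL, hAL⟩ := FGC4_int s Y h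
    unfold FF
    rw [hAL φ]
    have h2 := kb3_one R L hR (fun y => DL (List.ofFn h) φ y)
      (fun y y' hy => hPe y y' h h hy (fun i => hself _)) 1 (fun y => DL_norm _ φ hφ1 y) A
    refine h2.trans ?_
    rw [mul_one]
    refine add_le_add_left (mul_le_mul_of_nonneg_right ?_ (norm_nonneg _)) _
    have h3 : (L : ℝ) ≤ 2 * Y := by exact_mod_cast hL
    exact div_le_div_of_nonneg_right h3 hR0.le
  have h4 := kb3_fib R (2 * Y) hR (by omega) (fun h : Fin s → ℤ => ‖∑ y ∈ Ico (0 : ℤ) R, DL (List.ofFn h) φ y‖)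
    (fun _ => norm_nonneg _) (fun h h' hh => by
      have h5 : ∑ y ∈ Ico (0 : ℤ) R, DL (List.ofFn h) φ y = ∑ y ∈ Ico (0 : ℤ) R, DL (List.ofFn h') φ y :=
        Finset.sum_congr rfl fun y _ => hPe y y h h' (hself _) hh
      show ‖∑ y ∈ Ico (0 : ℤ) R, DL (List.ofFn h) φ y‖ = ‖∑ y ∈ Ico (0 : ℤ) R, DL (List.ofFn h') φ y‖
      rw [h5])
  have h6 : ((bxS s (2 * Y)).card : ℝ) ≤ (4 * Y) ^ s := by
    unfold bxS
    rw [Fintype.card_piFinset]
    simp only [Int.card_Ioo, Finset.prod_const, Finset.card_univ, Fintype.card_fin]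
    rw [Nat.cast_pow]
    apply pow_le_pow_left₀ (by positivity)
    have : (((2 * Y : ℕ) : ℤ) - -((2 * Y : ℕ) : ℤ) - 1).toNat ≤ 4 * Y := by omega
    exact_mod_cast this
  obtain ⟨S, hS⟩ : ∃ S : ℝ, S = ∑ h ∈ Fintype.piFinset (fun _ : Fin s => Ico (0 : ℤ) R),
      ‖∑ y ∈ Ico (0 : ℤ) R, DL (List.ofFn h) φ y‖ := ⟨_, rfl⟩
  have hAv : Av s R (fun (y : ℤ) (h : Fin s → ℤ) => DL (List.ofFn h) φ y) = S / (R : ℝ) ^ (s + 1) := by
    rw [hS]
    rfl
  have hS0 : 0 ≤ S := by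
    rw [hS]
    exact Finset.sum_nonneg fun _ _ => norm_nonneg _
  rw [← hS] at h4
  have h7 : GG Y s (fun m => if m ∈ Ico (-(Y : ℤ)) Y then φ m else 0) ≤
      (2 * Y / R : ℝ) * ((4 * ((2 * Y : ℕ) : ℝ) / R) ^ s * S) + (4 * Y) ^ s * R := by
    unfold GG
    refine (Complex.re_le_norm _).trans ((norm_sum_le _ _).trans ((Finset.sum_le_sum h1).trans ?_))
    rw [Finset.sum_add_distrib, ← Finset.mul_sum, Finset.sum_const, nsmul_eq_mul]
    refine add_le_add (mul_le_mul_of_nonneg_left h4 (by positivity)) ?_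
    exact mul_le_mul_of_nonneg_right h6 hR0.le
  refine h7.trans ?_
  rw [hAv]
  have h8 : (2 * Y / R : ℝ) * ((4 * ((2 * Y : ℕ) : ℝ) / R) ^ s * S) = 2 * 8 ^ s * ((Y : ℝ) ^ (s + 1) * (S / (R : ℝ) ^ (s + 1))) := by
    have h9 : (4 * ((2 * Y : ℕ) : ℝ) / R) = 8 * Y / R := by
      push_cast
      ring
    rw [h9, div_pow, mul_pow, pow_succ (Y : ℝ) s, pow_succ (R : ℝ) s]
    field_simp
  have h10 : ((4 : ℝ) * Y) ^ s * R ≤ 2 * 8 ^ s * ((Y : ℝ) ^ s * R) := by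
    rw [mul_pow, mul_assoc]
    refine mul_le_mul_of_nonneg_right ?_ (by positivity)
    have h11 : (4 : ℝ) ^ s ≤ 8 ^ s := pow_le_pow_left₀ (by norm_num) (by norm_num) s
    have h12 : (0 : ℝ) ≤ 8 ^ s := by positivity
    linarith
  rw [h8, mul_add]
  exact add_le_add le_rfl h10

end Pool.Agent.HUP
end

-- from Lib.HUP.FGA5
section

/-!
# Project HUP, chunk FGA5 (S/M): complete means are multiplicative
-/

open Finset

namespace Pool.Agent.HUP

open Pool.Agent.HUK (kb1_sum1 kb1_mem kb1_inj kb1_surj)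

theorem fga5_sum1 {γ : Type*} [AddCommMonoid γ] (M1 M2 : ℕ) (h1 : 1 ≤ M1) (h2 : 1 ≤ M2) (hc : Nat.Coprime M1 M2)
    (F : ℤ → ℤ → γ) :
    ∑ x ∈ Ico (0 : ℤ) ((M1 * M2 : ℕ) : ℤ), F (x % (M1 : ℤ)) (x % (M2 : ℤ)) =
      ∑ a ∈ Ico (0 : ℤ) M1, ∑ b ∈ Ico (0 : ℤ) M2, F a b := by
  rw [← sum_product' (Ico (0 : ℤ) M1) (Ico (0 : ℤ) M2) F]
  refine sum_bij (fun x _ => (x % (M1 : ℤ), x % (M2 : ℤ))) ?_ ?_ ?_ ?_
  · intro x _
    exact mem_product.2 ⟨kb1_mem M1 h1 x, kb1_mem M2 h2 x⟩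
  · intro x hx y hy e
    rw [Prod.mk.injEq] at e
    exact kb1_inj M1 M2 hc hx hy e.1 e.2
  · rintro ⟨a, b⟩ hab
    rw [mem_product] at hab
    obtain ⟨x, hx, e1, e2⟩ := kb1_surj M1 M2 h1 h2 hc hab.1 hab.2
    exact ⟨x, hx, by rw [e1, e2]⟩
  · intro x _; rfl

theorem fga5_sumk {γ : Type*} [AddCommMonoid γ] (d M1 M2 : ℕ) (h1 : 1 ≤ M1) (h2 : 1 ≤ M2) (hc : Nat.Coprime M1 M2)
    (F : (Fin d → ℤ) → (Fin d → ℤ) → γ) :
    ∑ h ∈ B0 d (M1 * M2), F (fun i => h i % (M1 : ℤ)) (fun i => h i % (M2 : ℤ)) =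
      ∑ a ∈ B0 d M1, ∑ b ∈ B0 d M2, F a b := by
  unfold B0
  rw [← sum_product' _ _ F]
  refine sum_bij (fun h _ => (fun i => h i % (M1 : ℤ), fun i => h i % (M2 : ℤ))) ?_ ?_ ?_ ?_
  · intro h _
    exact mem_product.2 ⟨Fintype.mem_piFinset.2 fun i => kb1_mem M1 h1 _,
      Fintype.mem_piFinset.2 fun i => kb1_mem M2 h2 _⟩
  · intro x hx y hy e
    rw [Prod.mk.injEq] at e
    funext i
    exact kb1_inj M1 M2 hc (Fintype.mem_piFinset.1 hx i) (Fintype.mem_piFinset.1 hy i)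
      (congrFun e.1 i) (congrFun e.2 i)
  · rintro ⟨a, b⟩ hab
    rw [mem_product, Fintype.mem_piFinset, Fintype.mem_piFinset] at hab
    choose x hx e1 e2 using fun i => kb1_surj M1 M2 h1 h2 hc (hab.1 i) (hab.2 i)
    refine ⟨x, Fintype.mem_piFinset.2 hx, ?_⟩
    rw [Prod.mk.injEq]
    exact ⟨funext e1, funext e2⟩
  · intro x _; rfl

theorem FGA5_nn {d : ℕ} (M : ℕ) (F : ℤ → ℤ → (Fin d → ℤ) → ℂ) : 0 ≤ ms M F := by
  unfold ms
  positivity

theorem FGA5_one {d : ℕ} (M : ℕ) (hM : 1 ≤ M) (F : ℤ → ℤ → (Fin d → ℤ) → ℂ) (h : ∀ n n' t, ‖F n n' t‖ ≤ 1) :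
    ms M F ≤ 1 := by
  have hM' : (0 : ℝ) < M := by exact_mod_cast hM
  have hcard : ((B0 d M).card : ℝ) = (M : ℝ) ^ d := by
    unfold B0
    rw [Fintype.card_piFinset]
    simp
  have h1 : ∀ n n' : ℤ, ‖∑ t ∈ B0 d M, F n n' t‖ ^ 2 ≤ ((M : ℝ) ^ d) ^ 2 := by
    intro n n'
    have h2 : ‖∑ t ∈ B0 d M, F n n' t‖ ≤ (M : ℝ) ^ d := by
      refine (norm_sum_le _ _).trans ?_
      refine (sum_le_sum fun t _ => h n n' t).trans ?_
      rw [sum_const, nsmul_eq_mul, mul_one, hcard]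
    exact pow_le_pow_left₀ (norm_nonneg _) h2 2
  unfold ms
  apply div_le_one_of_le₀ _ (by positivity)
  refine (sum_le_sum fun n _ => sum_le_sum fun n' _ => h1 n n').trans ?_
  rw [sum_const, sum_const]
  simp only [Int.card_Ico, sub_zero, Int.toNat_natCast, nsmul_eq_mul]
  apply le_of_eq
  ring

theorem FGA5_per {d : ℕ} (M1 M2 : ℕ) (F1 F2 : ℤ → ℤ → (Fin d → ℤ) → ℂ) (h1 : Pp M1 F1) (h2 : Pp M2 F2) :
    Pp (M1 * M2) (fun n n' t => F1 n n' t * F2 n n' t) := by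
  intro n m n' m' t t' hn hn' ht
  have hm : ((M1 * M2 : ℕ) : ℤ) = (M1 : ℤ) * M2 := by push_cast; rfl
  rw [hm] at hn hn'
  have a1 := h1 n m n' m' t t' ((dvd_mul_right _ _).trans hn) ((dvd_mul_right _ _).trans hn')
    fun j => (dvd_mul_right _ _).trans (hm ▸ ht j)
  have a2 := h2 n m n' m' t t' ((dvd_mul_left _ _).trans hn) ((dvd_mul_left _ _).trans hn')
    fun j => (dvd_mul_left _ _).trans (hm ▸ ht j)
  simp only [a1, a2]

/-- Proof. As `KB1_mul` in `HUK/KB1.lean`. For `t`: `kb1_sumk` of that file is for real `F`; reprove it for complex `F` (same proof). For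
fixed `n`, `n'`: `∑_{t ∈ B0 d (M1 M2)} F1 F2 = (∑_{B0 d M1} F1) (∑_{B0 d M2} F2)` and the two factors depend only on `n`, `n'` modulo `M1` resp.
`M2`; squares of norms are multiplicative; `kb1_sum1` (take real parts, or casts) for `n'` and for `n`;
`(M1 M2)^2 ((M1 M2)^d)^2` is the product of the normalisations. -/
theorem FGA5_mul {d : ℕ} (M1 M2 : ℕ) (h1 : 1 ≤ M1) (h2 : 1 ≤ M2) (hc : Nat.Coprime M1 M2)
    (F1 F2 : ℤ → ℤ → (Fin d → ℤ) → ℂ) (hp1 : Pp M1 F1) (hp2 : Pp M2 F2) :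
    ms (M1 * M2) (fun n n' t => F1 n n' t * F2 n n' t) = ms M1 F1 * ms M2 F2 := by
  have e1 : ∀ (M : ℕ) (F : ℤ → ℤ → (Fin d → ℤ) → ℂ), Pp M F → ∀ n n' t,
      F n n' t = F (n % (M : ℤ)) (n' % (M : ℤ)) (fun i => t i % (M : ℤ)) := by
    intro M F hp n n' t
    apply hp
    · exact Int.dvd_self_sub_emod
    · exact Int.dvd_self_sub_emod
    · intro i; exact Int.dvd_self_sub_emod
  have e2 : ∀ n n' : ℤ, ‖∑ t ∈ B0 d (M1 * M2), F1 n n' t * F2 n n' t‖ ^ 2 =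
      ‖∑ t ∈ B0 d M1, F1 (n % (M1 : ℤ)) (n' % (M1 : ℤ)) t‖ ^ 2 *
        ‖∑ t ∈ B0 d M2, F2 (n % (M2 : ℤ)) (n' % (M2 : ℤ)) t‖ ^ 2 := by
    intro n n'
    rw [← mul_pow, ← norm_mul, sum_mul_sum]
    congr 2
    rw [← fga5_sumk d M1 M2 h1 h2 hc
      (fun a b => F1 (n % (M1 : ℤ)) (n' % (M1 : ℤ)) a * F2 (n % (M2 : ℤ)) (n' % (M2 : ℤ)) b)]
    apply sum_congr rfl; intro t _
    rw [e1 M1 F1 hp1 n n' t, e1 M2 F2 hp2 n n' t]
  simp only [ms]
  rw [sum_congr rfl fun n _ => sum_congr rfl fun n' _ => e2 n n']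
  have e3 : ∀ n : ℤ, ∑ n' ∈ Ico (0 : ℤ) ((M1 * M2 : ℕ) : ℤ),
      ‖∑ t ∈ B0 d M1, F1 (n % (M1 : ℤ)) (n' % (M1 : ℤ)) t‖ ^ 2 *
        ‖∑ t ∈ B0 d M2, F2 (n % (M2 : ℤ)) (n' % (M2 : ℤ)) t‖ ^ 2 =
      (∑ a' ∈ Ico (0 : ℤ) M1, ‖∑ t ∈ B0 d M1, F1 (n % (M1 : ℤ)) a' t‖ ^ 2) *
        ∑ b' ∈ Ico (0 : ℤ) M2, ‖∑ t ∈ B0 d M2, F2 (n % (M2 : ℤ)) b' t‖ ^ 2 := by
    intro n
    rw [sum_mul_sum]
    exact fga5_sum1 M1 M2 h1 h2 hc (fun a' b' => ‖∑ t ∈ B0 d M1, F1 (n % (M1 : ℤ)) a' t‖ ^ 2 *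
      ‖∑ t ∈ B0 d M2, F2 (n % (M2 : ℤ)) b' t‖ ^ 2)
  rw [sum_congr rfl fun n _ => e3 n]
  rw [fga5_sum1 M1 M2 h1 h2 hc (fun a b => (∑ a' ∈ Ico (0 : ℤ) M1, ‖∑ t ∈ B0 d M1, F1 a a' t‖ ^ 2) *
    ∑ b' ∈ Ico (0 : ℤ) M2, ‖∑ t ∈ B0 d M2, F2 b b' t‖ ^ 2)]
  rw [← sum_mul_sum, div_mul_div_comm]
  congr 1
  push_cast
  rw [mul_pow, mul_pow, mul_pow]
  ring

end Pool.Agent.HUP
end

-- from Lib.HUP.FGA6
section

/-!
# Project HUP, chunk FGA6 (S): products over primes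
-/

open Finset

namespace Pool.Agent.HUP

/-- Proof. Exactly as `KB2_prod` in `HUK/KB2.lean`. -/
theorem FGA6_prod {d : ℕ} (R : ℕ) (hR : 1 ≤ R) (L : Finset ℕ) (hL : ∀ l ∈ L, l.Prime) (hLR : ∀ l ∈ L, Nat.Coprime l R)
    (F0 : ℤ → ℤ → (Fin d → ℤ) → ℂ) (h0 : Pp R F0) (F : ℕ → ℤ → ℤ → (Fin d → ℤ) → ℂ) (hF : ∀ l ∈ L, Pp l (F l)) :
    Pp (R * ∏ l ∈ L, l) (fun n n' t => F0 n n' t * ∏ l ∈ L, F l n n' t) ∧
    ms (R * ∏ l ∈ L, l) (fun n n' t => F0 n n' t * ∏ l ∈ L, F l n n' t) = ms R F0 * ∏ l ∈ L, ms l (F l) := by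
  classical
  revert hL hLR hF
  refine Finset.induction_on L ?_ ?_
  · intro _ _ _
    simp only [Finset.prod_empty, mul_one]
    exact ⟨h0, trivial⟩
  · intro q S hq ih hP hPr hφ
    have hqS : q ∈ insert q S := mem_insert_self _ _
    obtain ⟨ih1, ih2⟩ := ih (fun l hl => hP l (mem_insert_of_mem hl)) (fun l hl => hPr l (mem_insert_of_mem hl))
      (fun l hl => hφ l (mem_insert_of_mem hl))
    have hqp := hP q hqS
    have hM : 1 ≤ R * ∏ l ∈ S, l := Nat.mul_pos hR (Finset.prod_pos fun l hl => (hP l (mem_insert_of_mem hl)).pos)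
    have hco : Nat.Coprime (R * ∏ l ∈ S, l) q := by
      refine Nat.Coprime.mul_left (hPr q hqS).symm ?_
      refine Nat.Coprime.prod_left fun l hl => ?_
      exact (Nat.coprime_primes (hP l (mem_insert_of_mem hl)) hqp).2 (fun h => hq (h ▸ hl))
    have e1 : R * ∏ l ∈ insert q S, l = (R * ∏ l ∈ S, l) * q := by
      rw [prod_insert hq]
      ring
    have e2 : (fun n n' t => F0 n n' t * ∏ l ∈ insert q S, F l n n' t) =
        fun n n' t => (F0 n n' t * ∏ l ∈ S, F l n n' t) * F q n n' t := by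
      funext n n' t
      rw [prod_insert hq]
      ring
    rw [e1, e2]
    refine ⟨FGA5_per _ _ _ _ ih1 (hφ q hqS), ?_⟩
    rw [FGA5_mul _ _ hM hqp.pos hco _ _ ih1 (hφ q hqS), ih2, prod_insert hq]
    ring

end Pool.Agent.HUP
end

-- from Lib.HUP.FGA7
section

/-!
# Project HUP, chunk FGA7 (S): rules for the components
-/

open Finset Polynomial

namespace Pool.Agent.HUP

open Pool.Agent.Lib.H68T Pool.Agent.Lib.H18Q Pool.Agent.Lib.H59P Pool.Agent.Lib.H24P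
open Pool.Agent.HUK (KB4A_le KB4A_mod)

/-- `M2a` in `H59P/M2A.lean` (see also `H24P/B1.lean`, line 22). -/
theorem FGA7_gk (p : Ch) (κ : ℕ) (hκ : Squarefree κ) (m : ℤ) :
    gk p κ m = (((p.1 : ℝ) / (Nat.totient p.1 : ℝ) : ℝ) : ℂ) * ph p κ m := by
  unfold gk ph gL
  rw [M2a κ hκ m, Complex.ofReal_prod, ← mul_assoc]
  rfl

theorem FGA7_cjper (p : Ch) : Pz p.1 (cj p) := by
  intro m m' h
  unfold cj
  have e : (m : ZMod p.1) = (m' : ZMod p.1) := by
    rw [← sub_eq_zero, ← Int.cast_sub]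
    exact (ZMod.intCast_zmod_eq_zero_iff_dvd _ _).2 h
  rw [e]

theorem FGA7_cjle (p : Ch) (m : ℤ) : ‖cj p m‖ ≤ 1 := by
  unfold cj
  rw [RCLike.norm_conj]
  exact DirichletCharacter.norm_le_one _ _

theorem FGA7_gLle (L : Finset ℕ) (hL : ∀ l ∈ L, l.Prime) (m : ℤ) : ‖gL L m‖ ≤ 1 := by
  unfold gL
  rw [norm_prod]
  refine Finset.prod_le_one (fun l _ => norm_nonneg _) fun l hl => ?_
  rw [Complex.norm_real, Real.norm_eq_abs]
  exact KB4A_le l (hL l hl) m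

theorem FGA7_gLper (L : Finset ℕ) : Pz (∏ l ∈ L, l) (gL L) := by
  intro m m' h
  unfold gL
  refine Finset.prod_congr rfl fun l hl => ?_
  rw [KB4A_mod l m m' (dvd_trans (by exact_mod_cast Finset.dvd_prod_of_mem (fun l => l) hl) h)]

theorem FGA7_phle (p : Ch) (κ : ℕ) (m : ℤ) : ‖ph p κ m‖ ≤ 1 := by
  unfold ph
  rw [norm_mul]
  exact mul_le_one₀ (FGA7_cjle p m) (norm_nonneg _)
    (FGA7_gLle _ (fun l hl => Nat.prime_of_mem_primeFactors hl) m)

theorem FGA7_up (M M' : ℕ) (h : M ∣ M') (f : ℤ → ℂ) (hf : Pz M f) : Pz M' f := by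
  intro m m' hm
  exact hf m m' (dvd_trans (by exact_mod_cast h) hm)

/-- `(P i).eval` preserves congruences (`Polynomial.sub_dvd_eval_sub`), `lf` is linear. -/
theorem FGA7_yy {k d : ℕ} (c : Fin k → Fin d → ℤ) (P : Fin k → ℤ[X]) (β : Fin k → ℤ) (i : Fin k) (M : ℕ) (n m : ℤ)
    (t t' : Fin d → ℤ) (h : (M : ℤ) ∣ n - m) (ht : ∀ j, (M : ℤ) ∣ t j - t' j) :
    (M : ℤ) ∣ yy c P β i n t - yy c P β i m t' := by
  have e : yy c P β i n t - yy c P β i m t' =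
      ((P i).eval n - (P i).eval m) + ∑ j, c i j * (t j - t' j) := by
    unfold yy lf
    simp only [mul_sub, Finset.sum_sub_distrib]
    ring
  rw [e]
  refine dvd_add (dvd_trans h (Polynomial.sub_dvd_eval_sub n m (P i))) ?_
  exact Finset.dvd_sum fun j _ => Dvd.dvd.mul_left (ht j) _

/-- From `KB4A_mod`, `FGA7_yy`. -/
theorem FGA7_Fl {k d : ℕ} (c : Fin k → Fin d → ℤ) (P : Fin k → ℤ[X]) (β : Fin k → ℤ) (V V' : Finset (Fin k)) (l : ℕ) :
    Pp l (Fl c P β V V' l) := by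
  intro n m n' m' t t' h1 h2 h3
  unfold Fl
  congr 1
  · refine Finset.prod_congr rfl fun i _ => ?_
    rw [KB4A_mod l _ _ (FGA7_yy c P β i l n m t t' h1 h3)]
  · refine Finset.prod_congr rfl fun i _ => ?_
    rw [KB4A_mod l _ _ (FGA7_yy c P β i l n' m' t t' h2 h3)]

end Pool.Agent.HUP
end

-- from Lib.HUP.FGA8
section

/-!
# Project HUP, chunk FGA8 (M): factorisation of the product of the components
-/

open Finset Polynomial

namespace Pool.Agent.HUP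

open Pool.Agent.Lib.H68T Pool.Agent.Lib.H18Q Pool.Agent.Lib.H59P Pool.Agent.Lib.H24P

/-- Proof. `gL (κ i).primeFactors = gL (filter (· ∣ R)) * gL (filter (¬ · ∣ R))` (`Finset.prod_filter_mul_prod_filter_not`), `gL` is real, so
`conj` of it is itself; `∏_i ∏_{l ∈ (κ i).primeFactors, ¬ l ∣ R} G l i = ∏_{l ∈ Po R κ κ'} ∏_{i, l ∣ κ i} G l i` (`Finset.prod_comm'`; `κ i ≠ 0`, the
elements of `Po` are primes, so `l ∣ κ i ↔ l ∈ (κ i).primeFactors`; compare `KB6_fac` in `HUK/KB6.lean`), the same for `κ'`. -/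
theorem FGA8_fac {k d : ℕ} (c : Fin k → Fin d → ℤ) (P : Fin k → ℤ[X]) (β : Fin k → ℤ) (p : Fin k → Ch) (R : ℕ)
    (κ κ' : Fin k → ℕ) (hκ : ∀ i, κ i ≠ 0) (hκ' : ∀ i, κ' i ≠ 0) (n n' : ℤ) (t : Fin d → ℤ) :
    F2 c P β p κ κ' n n' t = FR c P β p R κ κ' n n' t *
      ∏ l ∈ Po R κ κ', Fl c P β (univ.filter fun i => l ∣ κ i) (univ.filter fun i => l ∣ κ' i) l n n' t := by
  have hR1 : ∀ (κ : ℕ) (m : ℤ), gL κ.primeFactors m =
      gL (κ.primeFactors.filter fun l => l ∣ R) m * gL (κ.primeFactors.filter fun l => ¬ l ∣ R) m := by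
    intro κ m
    unfold gL
    exact (Finset.prod_filter_mul_prod_filter_not _ _ _).symm
  have hcj : ∀ (L : Finset ℕ) (m : ℤ), (starRingEnd ℂ) (gL L m) = gL L m := by
    intro L m
    unfold gL
    rw [map_prod]
    exact Finset.prod_congr rfl fun l _ => Complex.conj_ofReal _
  have h1 : F2 c P β p κ κ' n n' t = FR c P β p R κ κ' n n' t *
      ((∏ i, gL ((κ i).primeFactors.filter fun l => ¬ l ∣ R) (yy c P β i n t)) *
        ∏ i, gL ((κ' i).primeFactors.filter fun l => ¬ l ∣ R) (yy c P β i n' t)) := by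
    unfold F2 FR ph
    rw [map_prod, ← Finset.prod_mul_distrib, ← Finset.prod_mul_distrib, ← Finset.prod_mul_distrib]
    refine Finset.prod_congr rfl fun i _ => ?_
    rw [hR1 (κ i), hR1 (κ' i)]
    simp only [map_mul, hcj]
    ring
  rw [h1]
  congr 1
  unfold Fl
  rw [Finset.prod_mul_distrib]
  have h2 : ∀ (μ : Fin k → ℕ) (m : ℤ), (∀ i, μ i ≠ 0) → (∀ i, (μ i).primeFactors.filter (fun l => ¬ l ∣ R) ⊆ Po R κ κ') →
      ∏ i, gL ((μ i).primeFactors.filter fun l => ¬ l ∣ R) (yy c P β i m t) =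
      ∏ l ∈ Po R κ κ', ∏ i ∈ univ.filter (fun i => l ∣ μ i), ((gl l (yy c P β i m t) : ℝ) : ℂ) := by
    intro μ m hμ hμP
    unfold gL
    refine Finset.prod_comm' fun i l => ?_
    constructor
    · rintro ⟨_, h3⟩
      have h4 := hμP i h3
      rw [Finset.mem_filter] at h3
      exact ⟨Finset.mem_filter.mpr ⟨Finset.mem_univ _, Nat.dvd_of_mem_primeFactors h3.1⟩, h4⟩
    · rintro ⟨h3, h4⟩
      rw [Finset.mem_filter] at h3
      unfold Po at h4
      rw [Finset.mem_filter, Finset.mem_biUnion] at h4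
      obtain ⟨⟨j, _, hj⟩, h5⟩ := h4
      have h6 : l.Prime := by
        rcases Finset.mem_union.mp hj with h | h
        · exact Nat.prime_of_mem_primeFactors h
        · exact Nat.prime_of_mem_primeFactors h
      exact ⟨Finset.mem_univ _, Finset.mem_filter.mpr ⟨Nat.mem_primeFactors.mpr ⟨h6, h3.2, hμ i⟩, h5⟩⟩
  rw [h2 κ n hκ, h2 κ' n' hκ']
  · intro i l hl
    rw [Finset.mem_filter] at hl
    unfold Po
    rw [Finset.mem_filter, Finset.mem_biUnion]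
    exact ⟨⟨i, Finset.mem_univ _, Finset.mem_union_right _ hl.1⟩, hl.2⟩
  · intro i l hl
    rw [Finset.mem_filter] at hl
    unfold Po
    rw [Finset.mem_filter, Finset.mem_biUnion]
    exact ⟨⟨i, Finset.mem_univ _, Finset.mem_union_left _ hl.1⟩, hl.2⟩

/-- Clear (`l` prime, `¬ l ∣ R`: coprime; `l` divides some `κ i` or `κ' i`). -/
theorem FGA8_po {k : ℕ} (R : ℕ) (κ κ' : Fin k → ℕ) (l : ℕ) (hl : l ∈ Po R κ κ') :
    l.Prime ∧ Nat.Coprime l R ∧ 1 ≤ (univ.filter fun i => l ∣ κ i).card + (univ.filter fun i => l ∣ κ' i).card := by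
  unfold Po at hl
  rw [Finset.mem_filter, Finset.mem_biUnion] at hl
  obtain ⟨⟨j, _, hj⟩, h5⟩ := hl
  rcases Finset.mem_union.mp hj with h | h
  · have h6 := Nat.prime_of_mem_primeFactors h
    refine ⟨h6, (Nat.Prime.coprime_iff_not_dvd h6).mpr h5, ?_⟩
    have h7 : 0 < (univ.filter fun i => l ∣ κ i).card :=
      Finset.card_pos.mpr ⟨j, Finset.mem_filter.mpr ⟨Finset.mem_univ _, Nat.dvd_of_mem_primeFactors h⟩⟩
    omega
  · have h6 := Nat.prime_of_mem_primeFactors h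
    refine ⟨h6, (Nat.Prime.coprime_iff_not_dvd h6).mpr h5, ?_⟩
    have h7 : 0 < (univ.filter fun i => l ∣ κ' i).card :=
      Finset.card_pos.mpr ⟨j, Finset.mem_filter.mpr ⟨Finset.mem_univ _, Nat.dvd_of_mem_primeFactors h⟩⟩
    omega

/-- A product of distinct primes is squarefree. -/
theorem fga8_sqf (S : Finset ℕ) (hS : ∀ l ∈ S, l.Prime) : Squarefree (∏ l ∈ S, l) := by
  classical
  induction S using Finset.induction_on with
  | empty => exact squarefree_one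
  | insert a S ha ih =>
    rw [Finset.prod_insert ha, Nat.squarefree_mul_iff]
    refine ⟨?_, (hS a (Finset.mem_insert_self _ _)).squarefree, ih fun l hl => hS l (Finset.mem_insert_of_mem hl)⟩
    refine Nat.Coprime.prod_right fun l hl => ?_
    refine (Nat.coprime_primes (hS a (Finset.mem_insert_self _ _)) (hS l (Finset.mem_insert_of_mem hl))).mpr ?_
    rintro rfl
    exact ha hl

theorem FGA8_pos {k : ℕ} (R : ℕ) (κ κ' : Fin k → ℕ) : 1 ≤ mo R κ κ' ∧ (mo R κ κ').primeFactors = Po R κ κ' ∧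
    Squarefree (mo R κ κ') := by
  have hp : ∀ l ∈ Po R κ κ', l.Prime := fun l hl => (FGA8_po R κ κ' l hl).1
  unfold mo
  refine ⟨Finset.prod_pos fun l hl => (hp l hl).pos, Nat.primeFactors_prod hp, ?_⟩
  exact fga8_sqf _ hp

/-- Proof. `κ i` is squarefree and each of its primes divides `R` or `mo`: `κ i = (∏ of the primes dividing R) * (∏ of the others)`, the first
product divides `R`, the second `mo`. `r i` divides `R` and is coprime to `κ i`, so `r i * κ i ∣ R * mo`; `Finset.lcm_dvd`. -/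
theorem FGA8_dvd {k : ℕ} (r : Fin k → ℕ) (R : ℕ) (hR : R = univ.lcm r) (κ κ' : Fin k → ℕ) (h1 : ∀ i, Squarefree (κ i))
    (h2 : ∀ i, Nat.Coprime (κ i) (r i)) (h1' : ∀ i, Squarefree (κ' i)) :
    (∀ i, κ i ∣ R * mo R κ κ') ∧ (∀ i, κ' i ∣ R * mo R κ κ') ∧ univ.lcm (fun i => r i * κ i) ∣ R * mo R κ κ' := by
  have hR2 : ∀ i, r i ∣ R := fun i => hR ▸ Finset.dvd_lcm (Finset.mem_univ i)
  have key : ∀ (μ : ℕ) (ρ : ℕ), Squarefree μ → (μ.primeFactors.filter (fun l => ¬ l ∣ R) ⊆ Po R κ κ') → ρ ∣ R →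
      Nat.Coprime μ ρ → ρ * μ ∣ R * mo R κ κ' := by
    intro μ ρ hμ hμP hρ hμρ
    have h3 : μ = (∏ l ∈ μ.primeFactors.filter (fun l => l ∣ R), l) * ∏ l ∈ μ.primeFactors.filter (fun l => ¬ l ∣ R), l := by
      rw [Finset.prod_filter_mul_prod_filter_not, Nat.prod_primeFactors_of_squarefree hμ]
    have h4 : (∏ l ∈ μ.primeFactors.filter (fun l => l ∣ R), l) ∣ R := by
      refine Finset.prod_primes_dvd R (fun l hl => ?_) (fun l hl => (Finset.mem_filter.mp hl).2)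
      exact (Nat.prime_of_mem_primeFactors (Finset.mem_filter.mp hl).1).prime
    have h5 : (∏ l ∈ μ.primeFactors.filter (fun l => ¬ l ∣ R), l) ∣ mo R κ κ' := by
      unfold mo
      exact Finset.prod_dvd_prod_of_subset _ _ _ hμP
    have h6 : Nat.Coprime ρ (∏ l ∈ μ.primeFactors.filter (fun l => l ∣ R), l) := by
      refine Nat.Coprime.symm (Nat.Coprime.coprime_dvd_left ?_ hμρ)
      exact ⟨_, h3⟩
    have h7 : ρ * (∏ l ∈ μ.primeFactors.filter (fun l => l ∣ R), l) ∣ R := h6.mul_dvd_of_dvd_of_dvd hρ h4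
    have h8 := mul_dvd_mul h7 h5
    rw [mul_assoc, ← h3] at h8
    exact h8
  have hs : ∀ i, (κ i).primeFactors.filter (fun l => ¬ l ∣ R) ⊆ Po R κ κ' := by
    intro i l hl
    rw [Finset.mem_filter] at hl
    unfold Po
    rw [Finset.mem_filter, Finset.mem_biUnion]
    exact ⟨⟨i, Finset.mem_univ _, Finset.mem_union_left _ hl.1⟩, hl.2⟩
  have hs' : ∀ i, (κ' i).primeFactors.filter (fun l => ¬ l ∣ R) ⊆ Po R κ κ' := by
    intro i l hl
    rw [Finset.mem_filter] at hl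
    unfold Po
    rw [Finset.mem_filter, Finset.mem_biUnion]
    exact ⟨⟨i, Finset.mem_univ _, Finset.mem_union_right _ hl.1⟩, hl.2⟩
  refine ⟨fun i => ?_, fun i => ?_, Finset.lcm_dvd fun i _ => key (κ i) (r i) (h1 i) (hs i) (hR2 i) (h2 i)⟩
  · have h3 := key (κ i) 1 (h1 i) (hs i) (one_dvd _) (Nat.coprime_one_right _)
    rwa [one_mul] at h3
  · have h3 := key (κ' i) 1 (h1' i) (hs' i) (one_dvd _) (Nat.coprime_one_right _)
    rwa [one_mul] at h3

/-- Proof. `R ∣ ∏ r i`, and `mo` (a product of distinct primes, each dividing some `κ i` or `κ' i`) divides `∏ κ i * κ' i`. -/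
theorem FGA8_le {k : ℕ} (r : Fin k → ℕ) (R : ℕ) (hR : R = univ.lcm r) (hr : ∀ i, 1 ≤ r i) (κ κ' : Fin k → ℕ)
    (h1 : ∀ i, 1 ≤ κ i) (h1' : ∀ i, 1 ≤ κ' i) : R * mo R κ κ' ≤ ∏ i, r i * κ i * κ' i := by
  have h3 : R ≤ ∏ i, r i := by
    refine Nat.le_of_dvd (Finset.prod_pos fun i _ => hr i) ?_
    rw [hR]
    exact Finset.lcm_dvd fun i hi => Finset.dvd_prod_of_mem r hi
  have h4 : mo R κ κ' ≤ ∏ i, κ i * κ' i := by
    refine Nat.le_of_dvd (Finset.prod_pos fun i _ => Nat.mul_pos (h1 i) (h1' i)) ?_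
    unfold mo
    refine Finset.prod_primes_dvd _ (fun l hl => (FGA8_po R κ κ' l hl).1.prime) fun l hl => ?_
    unfold Po at hl
    rw [Finset.mem_filter, Finset.mem_biUnion] at hl
    obtain ⟨⟨j, _, hj⟩, _⟩ := hl
    refine dvd_trans ?_ (Finset.dvd_prod_of_mem (fun i => κ i * κ' i) (Finset.mem_univ j))
    rcases Finset.mem_union.mp hj with h | h
    · exact Dvd.dvd.mul_right (Nat.dvd_of_mem_primeFactors h) _
    · exact Dvd.dvd.mul_left (Nat.dvd_of_mem_primeFactors h) _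
  have h5 : ∏ i, r i * κ i * κ' i = (∏ i, r i) * ∏ i, κ i * κ' i := by
    rw [← Finset.prod_mul_distrib]
    exact Finset.prod_congr rfl fun i _ => by ring
  rw [h5]
  exact Nat.mul_le_mul h3 h4

end Pool.Agent.HUP
end

-- from Lib.HUP.FGA9
section

/-!
# Project HUP, chunk FGA9 (M): the complete mean for one pair
-/

open Finset Polynomial

namespace Pool.Agent.HUP

open Pool.Agent.Lib.H68T Pool.Agent.Lib.H18Q Pool.Agent.Lib.H59P Pool.Agent.Lib.H24P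

theorem fga9_dvd (κ R : ℕ) : ∏ l ∈ κ.primeFactors.filter (fun l => l ∣ R), l ∣ R := by
  refine Finset.prod_primes_dvd R (fun l hl => ?_) fun l hl => (Finset.mem_filter.1 hl).2
  exact (Nat.prime_of_mem_primeFactors (Finset.mem_filter.1 hl).1).prime

theorem fga9_pz (κ R : ℕ) : Pz R (gL (κ.primeFactors.filter fun l => l ∣ R)) :=
  FGA7_up _ R (fga9_dvd κ R) _ (FGA7_gLper _)

theorem fga9_le (κ R : ℕ) (m : ℤ) : ‖gL (κ.primeFactors.filter fun l => l ∣ R) m‖ ≤ 1 :=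
  FGA7_gLle _ (fun l hl => Nat.prime_of_mem_primeFactors (Finset.mem_filter.1 hl).1) m

theorem fga9_cj {k : ℕ} (p : Fin k → Ch) (R : ℕ) (hR : R = univ.lcm (fun i => (p i).1)) (i : Fin k) : Pz R (cj (p i)) := by
  refine FGA7_up _ R ?_ _ (FGA7_cjper (p i))
  rw [hR]
  exact Finset.dvd_lcm (Finset.mem_univ i)

/-- The factor at `R` is periodic modulo `R` (each `r i` divides `R`, and so does a product of distinct primes dividing `R`). -/
theorem FGA9_FR {k d : ℕ} (c : Fin k → Fin d → ℤ) (P : Fin k → ℤ[X]) (β : Fin k → ℤ) (p : Fin k → Ch) (R : ℕ)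
    (hR : R = univ.lcm (fun i => (p i).1)) (κ κ' : Fin k → ℕ) : Pp R (FR c P β p R κ κ') := by
  intro n m n' m' t t' hn hn' ht
  unfold FR
  refine Finset.prod_congr rfl fun i _ => ?_
  have h1 := FGA7_yy c P β i R n m t t' hn ht
  have h2 := FGA7_yy c P β i R n' m' t t' hn' ht
  rw [fga9_cj p R hR i _ _ h1, fga9_cj p R hR i _ _ h2, fga9_pz (κ i) R _ _ h1, fga9_pz (κ' i) R _ _ h2]

/-- Proof. `ChB` with `K i = ∏ l ∈ (κ i).primeFactors.filter (· ∣ R), l` (it divides `R`: distinct primes dividing `R`,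
`Finset.prod_primes_dvd`; coprime to `r i` because `κ i` is), `u i = gL (that set)` (`FGA7_gLper`, `FGA7_gLle`),
`g' i m = conj (cj (p i) m * gL (((κ' i).primeFactors.filter (· ∣ R))) m)`. -/
theorem FGA9_R {k d : ℕ} {c : Fin k → Fin d → ℤ} {D : Fin k → ℕ} {a : Fin k → ℤ} (hC : ChB c D a) :
    ∃ C c0 : ℝ, 0 < C ∧ 0 < c0 ∧ c0 ≤ 1 ∧ ∀ P : Fin k → ℤ[X], HasD D a P → ∀ (β : Fin k → ℤ) (p : Fin k → Ch),
    (∀ i, 1 ≤ (p i).1 ∧ (p i).2.IsPrimitive) → ∀ R : ℕ, R = univ.lcm (fun i => (p i).1) → ∀ κ κ' : Fin k → ℕ,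
    (∀ i, Nat.Coprime (κ i) (p i).1) → ms R (FR c P β p R κ κ') ≤ C * (R : ℝ) ^ (-c0) := by
  obtain ⟨C, c0, hC0, hc0, hc1, H⟩ := hC
  refine ⟨C, c0, hC0, hc0, hc1, ?_⟩
  intro P hP β p hp R hR κ κ' hcop
  refine H P hP β p hp R hR (fun i => ∏ l ∈ (κ i).primeFactors.filter (fun l => l ∣ R), l)
    (fun i => gL ((κ i).primeFactors.filter fun l => l ∣ R))
    (fun i m => (starRingEnd ℂ) (cj (p i) m * gL ((κ' i).primeFactors.filter fun l => l ∣ R) m)) ?_ ?_ ?_ ?_ ?_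
  · intro i
    refine ⟨?_, fga9_dvd (κ i) R, ?_⟩
    · exact Nat.one_le_iff_ne_zero.2 (Finset.prod_ne_zero_iff.2 fun l hl =>
        (Nat.prime_of_mem_primeFactors (Finset.mem_filter.1 hl).1).ne_zero)
    · refine Nat.Coprime.prod_left fun l hl => ?_
      exact Nat.Coprime.coprime_dvd_left (Nat.dvd_of_mem_primeFactors (Finset.mem_filter.1 hl).1) (hcop i)
  · exact fun i => FGA7_gLper _
  · exact fun i m => fga9_le (κ i) R m
  · intro i m m' h
    show (starRingEnd ℂ) (cj (p i) m * gL ((κ' i).primeFactors.filter fun l => l ∣ R) m) =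
      (starRingEnd ℂ) (cj (p i) m' * gL ((κ' i).primeFactors.filter fun l => l ∣ R) m')
    rw [fga9_cj p R hR i _ _ h, fga9_pz (κ' i) R _ _ h]
  · intro i m
    show ‖(starRingEnd ℂ) (cj (p i) m * gL ((κ' i).primeFactors.filter fun l => l ∣ R) m)‖ ≤ 1
    rw [RCLike.norm_conj, norm_mul]
    exact mul_le_one₀ (FGA7_cjle (p i) m) (norm_nonneg _) (fga9_le (κ' i) R m)

/-- Proof. `FGA8_fac`, `FGA6_prod` (`FGA9_FR`, `FGA7_Fl`, `FGA8_po`): `ms (R * mo) F2 = ms R FR * ∏_{l ∈ Po} ms l (Fl ..)`, `FGA9_R`, `LocB`: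
`∏_{l ∈ Po} CL / l³ = CL^(card Po) / mo³`, `CL ≤ 2^b`, and `2^(card Po) = (mo).divisors.card` (squarefree, `FGA8_pos`; only `≤` is needed; compare
the end of `KB7_av` in `HUK/KB7.lean`). -/
theorem FGA9 {k d : ℕ} {c : Fin k → Fin d → ℤ} {D : Fin k → ℕ} {a : Fin k → ℤ} (hL : LocB c D a) (hC : ChB c D a) :
    ∃ (b : ℕ) (C c0 : ℝ), 0 < C ∧ 0 < c0 ∧ c0 ≤ 1 ∧ ∀ P : Fin k → ℤ[X], HasD D a P → ∀ (β : Fin k → ℤ)
    (p : Fin k → Ch) (Q : ℕ), (∀ i, p i ∈ PC Q) → ∀ R : ℕ, R = univ.lcm (fun i => (p i).1) → ∀ κ κ' : Fin k → ℕ,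
    (∀ i, κ i ∈ KS Q (p i).1) → (∀ i, κ' i ∈ KS Q (p i).1) →
    Pp (R * mo R κ κ') (F2 c P β p κ κ') ∧ ms (R * mo R κ κ') (F2 c P β p κ κ') ≤
      C * ((R : ℝ) ^ (-c0) * (((mo R κ κ').divisors.card : ℝ) ^ b / (mo R κ κ' : ℝ) ^ 3)) := by
  obtain ⟨CL, hCL, HL⟩ := hL
  obtain ⟨C, c0, hC0, hc0, hc1, HR⟩ := FGA9_R hC
  obtain ⟨b, hb⟩ := pow_unbounded_of_one_lt CL (by norm_num : (1 : ℝ) < 2)
  refine ⟨b, C, c0, hC0, hc0, hc1, ?_⟩
  intro P hP β p Q hp R hR κ κ' hκ hκ'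
  have hκ0 : ∀ i, κ i ≠ 0 := fun i => by
    have h1 := (CA_mem_KS.1 (hκ i)).1.1
    omega
  have hκ0' : ∀ i, κ' i ≠ 0 := fun i => by
    have h1 := (CA_mem_KS.1 (hκ' i)).1.1
    omega
  have hcop : ∀ i, Nat.Coprime (κ i) (p i).1 := fun i => (CA_mem_KS.1 (hκ i)).2.2
  have hpp : ∀ i, 1 ≤ (p i).1 ∧ (p i).2.IsPrimitive := fun i => ⟨(mem_PC.1 (hp i)).1, (mem_PC.1 (hp i)).2.2⟩
  have hR1 : 1 ≤ R := by
    rw [Nat.one_le_iff_ne_zero, hR, Ne, Finset.lcm_eq_zero_iff]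
    rintro ⟨j, -, hj⟩
    have h2 := (hpp j).1
    omega
  have hF2 : F2 c P β p κ κ' = fun n n' t => FR c P β p R κ κ' n n' t *
      ∏ l ∈ Po R κ κ', Fl c P β (univ.filter fun i => l ∣ κ i) (univ.filter fun i => l ∣ κ' i) l n n' t := by
    funext n n' t
    exact FGA8_fac c P β p R κ κ' hκ0 hκ0' n n' t
  have hpr := FGA6_prod R hR1 (Po R κ κ') (fun l hl => (FGA8_po R κ κ' l hl).1)
    (fun l hl => (FGA8_po R κ κ' l hl).2.1) (FR c P β p R κ κ') (FGA9_FR c P β p R hR κ κ')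
    (fun l => Fl c P β (univ.filter fun i => l ∣ κ i) (univ.filter fun i => l ∣ κ' i) l) (fun l _ => FGA7_Fl c P β _ _ l)
  rw [hF2]
  refine ⟨hpr.1, ?_⟩
  have e1 : ms (R * mo R κ κ') (fun n n' t => FR c P β p R κ κ' n n' t *
      ∏ l ∈ Po R κ κ', Fl c P β (univ.filter fun i => l ∣ κ i) (univ.filter fun i => l ∣ κ' i) l n n' t) =
      ms R (FR c P β p R κ κ') * ∏ l ∈ Po R κ κ', ms l (Fl c P β (univ.filter fun i => l ∣ κ i) (univ.filter fun i => l ∣ κ' i) l) :=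
    hpr.2
  rw [e1]
  obtain ⟨hm1, hmf, hms⟩ := FGA8_pos R κ κ'
  have h5 : ∏ l ∈ Po R κ κ', ms l (Fl c P β (univ.filter fun i => l ∣ κ i) (univ.filter fun i => l ∣ κ' i) l) ≤
      ((mo R κ κ').divisors.card : ℝ) ^ b / (mo R κ κ' : ℝ) ^ 3 := by
    have h6 : ∏ l ∈ Po R κ κ', ms l (Fl c P β (univ.filter fun i => l ∣ κ i) (univ.filter fun i => l ∣ κ' i) l) ≤
        ∏ l ∈ Po R κ κ', (CL / (l : ℝ) ^ 3) := by
      refine Finset.prod_le_prod (fun _ _ => FGA5_nn _ _) fun l hl => ?_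
      obtain ⟨hl1, -, hl3⟩ := FGA8_po R κ κ' l hl
      exact HL P hP β l hl1 _ _ hl3
    refine h6.trans ?_
    rw [Finset.prod_div_distrib, Finset.prod_const, Finset.prod_pow]
    have h7 : (∏ l ∈ Po R κ κ', (l : ℝ)) = (mo R κ κ' : ℝ) := by
      rw [mo, Nat.cast_prod]
    rw [h7]
    refine div_le_div_of_nonneg_right ?_ (by positivity)
    have h8 : (mo R κ κ').divisors.card = 2 ^ (Po R κ κ').card := by
      rw [Nat.card_divisors (by omega), hmf, ← Finset.prod_const]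
      refine Finset.prod_congr rfl fun l hl => ?_
      have h9 : (mo R κ κ').factorization l ≤ 1 := Squarefree.natFactorization_le_one l hms
      have h10 : 1 ≤ (mo R κ κ').factorization l := by
        rw [← hmf] at hl
        have := Nat.support_factorization (mo R κ κ')
        exact Nat.one_le_iff_ne_zero.2 (Finsupp.mem_support_iff.1 (by rw [this]; exact hl))
      omega
    rw [h8]
    push_cast
    rw [← pow_mul, mul_comm (Po R κ κ').card, pow_mul]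
    exact pow_le_pow_left₀ (by linarith) hb.le _
  have h12 := HR P hP β p hpp R hR κ κ' hcop
  have h14 : 0 ≤ ∏ l ∈ Po R κ κ', ms l (Fl c P β (univ.filter fun i => l ∣ κ i) (univ.filter fun i => l ∣ κ' i) l) :=
    Finset.prod_nonneg fun _ _ => FGA5_nn _ _
  rw [← mul_assoc]
  exact mul_le_mul h12 h5 h14 (by positivity)

end Pool.Agent.HUP
end

-- from Lib.HUP.R20
section

/-!
# Project HUP, module R (the modules of H24P for an abstract family), R20: covering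
-/

open Finset Polynomial

namespace Pool.Agent.HUP

open Pool.Agent.Lib.H68T Pool.Agent.Lib.H18Q Pool.Agent.Lib.H59P Pool.Agent.Lib.H24P

/-- Few `t` make a form small. Proof. Some `c_ij ≠ 0`, then `e j = D i`; for fixed other coordinates at most `W + 1`
values `t_j` satisfy `0 ≤ β_i + ψ_i(t) < W` (`c_ij` is a nonzero integer). -/
theorem R20_low {k d : ℕ} (c : Fin k → Fin d → ℤ) (e : Fin d → ℕ) (D : Fin k → ℕ) (he : ∀ j, 1 ≤ e j)
    (hc : ∀ i, ∃ j, c i j ≠ 0) (hB : ∀ i j, c i j ≠ 0 → e j = D i) (A Z W : ℕ) (hA : 1 ≤ A) (hZ : 1 ≤ Z) (β : Fin k → ℤ) (i : Fin k) :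
    (((tb 0 fun j => A * Z ^ e j + 1).filter fun t => 0 ≤ β i + lf c t i ∧ β i + lf c t i < W).card : ℝ) * Z ^ D i ≤
      (W + 1) * ∏ j, ((2 * A * Z ^ e j : ℕ) : ℝ) := by
  classical
  have hj0 : ∃ j0, c i j0 ≠ 0 := by
    exact hc i
  obtain ⟨j0, hj0⟩ := hj0
  have he0 : e j0 = D i := hB i j0 hj0
  obtain ⟨sd, hsd⟩ : ∃ sd : Fin d → ℕ, sd = fun j => if j = j0 then 1 else A * Z ^ e j + 1 := ⟨_, rfl⟩
  have hcard : ((tb 0 fun j => A * Z ^ e j + 1).filter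
      fun t => 0 ≤ β i + lf c t i ∧ β i + lf c t i < W).card ≤ W * (tb 0 sd).card := by
    refine Finset.card_le_mul_card_image_of_maps_to (f := fun t => Function.update t j0 0) ?_ W ?_
    · intro t ht
      rw [mem_filter, r18_mem] at ht
      rw [r18_mem]
      intro j
      by_cases hj : j = j0
      · subst hj
        rw [Function.update_self, hsd]
        simp
      · rw [Function.update_of_ne hj, hsd]
        simp only [if_neg hj]
        exact ht.1 j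
    · intro g _
      have h1 : (Finset.Ico (0 : ℤ) W).card = W := by
        rw [Int.card_Ico]
        omega
      refine le_trans (Finset.card_le_card_of_injOn (t := Finset.Ico (0 : ℤ) W) (fun t => β i + lf c t i) ?_ ?_)
        (le_of_eq h1)
      · intro t ht
        rw [Finset.mem_coe, mem_filter, mem_filter] at ht
        rw [Finset.mem_coe, Finset.mem_Ico]
        exact ht.1.2
      · intro t ht t' ht' h
        rw [Finset.mem_coe, mem_filter] at ht ht'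
        have h2 : Function.update t j0 0 = Function.update t' j0 0 := ht.2.trans ht'.2.symm
        have h3 : ∀ j, j ≠ j0 → t j = t' j := by
          intro j hj
          have h4 := congrFun h2 j
          rwa [Function.update_of_ne hj, Function.update_of_ne hj] at h4
        have h5 : lf c t i = lf c t' i := by
          have h6 : β i + lf c t i = β i + lf c t' i := h
          omega
        unfold lf at h5
        rw [← Finset.add_sum_erase univ _ (mem_univ j0), ← Finset.add_sum_erase univ (fun j => c i j * t' j)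
          (mem_univ j0)] at h5
        have h7 : ∑ j ∈ univ.erase j0, c i j * t j = ∑ j ∈ univ.erase j0, c i j * t' j :=
          Finset.sum_congr rfl fun j hj => by rw [h3 j (Finset.ne_of_mem_erase hj)]
        rw [h7] at h5
        have h8 : c i j0 * t j0 = c i j0 * t' j0 := by linarith
        have h9 : t j0 = t' j0 := mul_left_cancel₀ hj0 h8
        funext j
        by_cases hj : j = j0
        · rw [hj, h9]
        · exact h3 j hj
  have hprod : (tb 0 sd).card * Z ^ D i ≤ ∏ j, (2 * A * Z ^ e j) := by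
    rw [R18_card]
    have h1 : Z ^ D i = ∏ j, (if j = j0 then Z ^ e j else 1) := by
      rw [Finset.prod_ite_eq' univ j0 (fun j => Z ^ e j), if_pos (mem_univ _), he0]
    rw [h1, ← Finset.prod_mul_distrib]
    refine Finset.prod_le_prod' fun j _ => ?_
    have hAZ : 1 ≤ A * Z ^ e j := Nat.one_le_iff_ne_zero.2
      (Nat.mul_ne_zero (by omega) (pow_ne_zero _ (by omega)))
    rw [hsd]
    by_cases hj : j = j0
    · simp only [if_pos hj, one_mul]
      calc Z ^ e j = 1 * Z ^ e j := (one_mul _).symm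
        _ ≤ 2 * A * Z ^ e j := Nat.mul_le_mul_right _ (by omega)
    · simp only [if_neg hj, mul_one]
      calc A * Z ^ e j + 1 ≤ A * Z ^ e j + A * Z ^ e j := by omega
        _ = 2 * A * Z ^ e j := by ring
  have h1 : (((tb 0 fun j => A * Z ^ e j + 1).filter
      fun t => 0 ≤ β i + lf c t i ∧ β i + lf c t i < W).card : ℝ) ≤ W * (tb 0 sd).card := by
    exact_mod_cast hcard
  have h2 : (((tb 0 sd).card : ℕ) : ℝ) * (Z : ℝ) ^ D i ≤ ∏ j, ((2 * A * Z ^ e j : ℕ) : ℝ) := by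
    exact_mod_cast hprod
  have h3 : (0 : ℝ) ≤ ∏ j, ((2 * A * Z ^ e j : ℕ) : ℝ) := Finset.prod_nonneg fun _ _ => Nat.cast_nonneg _
  calc _ ≤ (W * ((tb 0 sd).card : ℝ)) * (Z : ℝ) ^ D i := mul_le_mul_of_nonneg_right h1 (by positivity)
    _ = W * ((((tb 0 sd).card : ℕ) : ℝ) * (Z : ℝ) ^ D i) := by ring
    _ ≤ W * ∏ j, ((2 * A * Z ^ e j : ℕ) : ℝ) := mul_le_mul_of_nonneg_left h2 (Nat.cast_nonneg _)
    _ ≤ (W + 1) * ∏ j, ((2 * A * Z ^ e j : ℕ) : ℝ) := mul_le_mul_of_nonneg_right (by linarith) h3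

/-- The numbers of one box. -/
theorem r20_num (w C1 Zd v y M q : ℝ) (hC : 1 ≤ C1) (hw : 50 * C1 ≤ w) (hv0 : 0 < v) (hv : Zd ≤ w * v)
    (hq0 : 0 ≤ q) (hq : q * (2500 * w ^ 4) ≤ Zd) (hy : |y - v| * w ^ 2 ≤ C1 * Zd) (hM1 : M ≤ 5 * v / 8)
    (hM2 : 5 * v / 8 - q ≤ M) : Zd ≤ w ^ 2 * M ∧ 151 * M ≤ 100 * y ∧ 100 * y < 168 * M := by
  have hw50 : 50 ≤ w := by linarith
  have hw0 : 0 < w := by linarith
  have h1 : q * 2500 ≤ v := by
    have h2 : q * (2500 * w ^ 3) * w ≤ v * w := by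
      calc q * (2500 * w ^ 3) * w = q * (2500 * w ^ 4) := by ring
        _ ≤ Zd := hq
        _ ≤ v * w := by linarith [mul_comm w v]
    have h3 := le_of_mul_le_mul_right h2 hw0
    have h4 : (1 : ℝ) ≤ w ^ 3 := one_le_pow₀ (by linarith)
    have h5 : q * 2500 * 1 ≤ q * 2500 * w ^ 3 := mul_le_mul_of_nonneg_left h4 (by linarith)
    linarith
  have h6 : |y - v| * 50 ≤ v := by
    have h7 : |y - v| * w * w ≤ C1 * v * w := by
      calc |y - v| * w * w = |y - v| * w ^ 2 := by ring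
        _ ≤ C1 * Zd := hy
        _ ≤ C1 * (w * v) := mul_le_mul_of_nonneg_left hv (by linarith)
        _ = C1 * v * w := by ring
    have h8 := le_of_mul_le_mul_right h7 hw0
    have h9 : |y - v| * (50 * C1) ≤ |y - v| * w := mul_le_mul_of_nonneg_left hw (abs_nonneg _)
    have h10 : |y - v| * 50 * C1 ≤ v * C1 := by linarith [mul_comm C1 v]
    exact le_of_mul_le_mul_right h10 (by linarith)
  have h11 := abs_le.1 (show |y - v| ≤ v / 50 by linarith)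
  refine ⟨?_, by linarith [h11.1], by linarith [h11.2]⟩
  have h12 : v / 2 ≤ M := by linarith
  calc Zd ≤ w * v := hv
    _ ≤ w * (w * M) := by
        apply mul_le_mul_of_nonneg_left _ hw0.le
        have h13 : 50 * M ≤ w * M := mul_le_mul_of_nonneg_right hw50 (by linarith)
        linarith
    _ = w ^ 2 * M := by ring

theorem r20_M (q v : ℕ) (hq : 1 ≤ q) :
    ((q * (5 * v / (8 * q)) : ℕ) : ℝ) ≤ 5 * (v : ℝ) / 8 ∧ 5 * (v : ℝ) / 8 - q ≤ ((q * (5 * v / (8 * q)) : ℕ) : ℝ) := by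
  have h1 : 5 * v / (8 * q) * (8 * q) ≤ 5 * v := Nat.div_mul_le_self _ _
  have h2 : 5 * v < (5 * v / (8 * q) + 1) * (8 * q) := by
    have h3 := Nat.lt_div_mul_add (a := 5 * v) (b := 8 * q) (by omega)
    calc 5 * v < 5 * v / (8 * q) * (8 * q) + 8 * q := h3
      _ = (5 * v / (8 * q) + 1) * (8 * q) := by ring
  have h3 : ((5 * v / (8 * q) : ℕ) : ℝ) * (8 * q) ≤ 5 * v := by exact_mod_cast h1
  have h4 : (5 : ℝ) * v < (((5 * v / (8 * q) : ℕ) : ℝ) + 1) * (8 * q) := by exact_mod_cast h2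
  push_cast
  constructor
  · linarith
  · linarith


/-- **R20** (covering, compare `K4_cover`, H24P/K4.lean). Proof. Let `Z ≥ Cv q T²`, `T ≥ Cv` and
`s_j = q ⌊Z^(e_j)/(q T)⌋ ≥ Z^(e_j)/(2T)` (`e_j ≥ 1`). The boxes `tb (u s) s`, `u ∈ ∏ [0, A Z^(e_j)/s_j]`, cover
`tb 0 (A Z^e + 1)`, and their total volume is at most `∏_j (A Z^(e_j) + 1 + s_j) ≤ (3A)^d Z^(∑ e)`. The `t` with
`β_i + ψ_i(t) < 2 Z^(D_i)/√T` for some `i`: `R20_low`, at most `C Z^(∑ e)/√T`. Every other `t` (with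
`0 ≤ β_i + ψ_i(t)`) is in a box on which the forms vary by at most `∑_j |c_ij| s_j ≤ C Z^(D_i)/T` (`R18_var`); put
`v_i = β_i + ψ_i(u s)` and `M_i = q ⌊5 v_i/(8 q)⌋`, i.e. `v_i ≈ 1.6 M_i`: `Z^(D_i) ≤ T M_i` and
`151 M_i ≤ 100 (β_i + ψ_i(t')) < 168 M_i` on the whole box (`v_i ≥ Z^(D_i)/√T`, `q ≤ Z/(Cv T²)`), `M_i ≤ Cv Z^(D_i)` from
`|β_i| ≤ A Z^(D_i)`, `t ≤ 2A Z^e`. Hypothesis `hE` for these boxes; sum. -/
theorem R20_cover {k d : ℕ} (c : Fin k → Fin d → ℤ) (e : Fin d → ℕ) (D : Fin k → ℕ) (he : ∀ j, 1 ≤ e j)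
    (hc : ∀ i, ∃ j, c i j ≠ 0) (hB : ∀ i j, c i j ≠ 0 → e j = D i) (A : ℕ) (hA : 1 ≤ A) : ∃ Cv : ℕ, 1 ≤ Cv ∧
    ∀ (Z q : ℕ) (T δ : ℝ), 1 ≤ q → (Cv : ℝ) ≤ T → 0 ≤ δ → Cv * T ^ 2 * q ≤ Z → ∀ β : Fin k → ℤ,
    (∀ i, |β i| ≤ A * (Z : ℤ) ^ D i) → ∀ (E : (Fin d → ℤ) → Prop) [DecidablePred E],
    (∀ (M : Fin k → ℕ) (b : Fin d → ℤ) (s : Fin d → ℕ), (∀ i, q ∣ M i) → (∀ j, q ∣ s j) →
      (∀ i, (Z : ℝ) ^ D i ≤ T * M i) → (∀ i, (M i : ℝ) ≤ Cv * (Z : ℝ) ^ D i) →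
      (∀ j, (Z : ℝ) ^ e j ≤ 2 * T * s j) → (∀ j, (s j : ℝ) ≤ (Z : ℝ) ^ e j) →
      (∀ t ∈ tb b s, ∀ i, 151 * (M i : ℤ) ≤ 100 * (β i + lf c t i) ∧ 100 * (β i + lf c t i) < 168 * (M i : ℤ)) →
      (((tb b s).filter E).card : ℝ) ≤ (tb b s).card * δ) →
    (((tb 0 fun j => A * Z ^ e j + 1).filter fun t => (∀ i, 0 ≤ β i + lf c t i) ∧ E t).card : ℝ) ≤
      Cv * (1 / Real.sqrt T + δ) * (Z : ℝ) ^ (∑ j, e j) := by
  classical
  obtain ⟨C1, hC1⟩ : ∃ C1 : ℕ, (C1 : ℤ) = 1 + ∑ i, ∑ j, |c i j| :=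
    ⟨(1 + ∑ i, ∑ j, |c i j|).toNat, Int.toNat_of_nonneg
      (add_nonneg zero_le_one (Finset.sum_nonneg fun _ _ => Finset.sum_nonneg fun _ _ => abs_nonneg _))⟩
  have hS : ∀ i, ∑ j, |c i j| ≤ (C1 : ℤ) - 1 := by
    intro i
    have h1 := Finset.single_le_sum (f := fun i => ∑ j, |c i j|)
      (fun _ _ => Finset.sum_nonneg fun _ _ => abs_nonneg _) (mem_univ i)
    omega
  have hC1' : 1 ≤ C1 := by
    have h1 : (0 : ℤ) ≤ ∑ i, ∑ j, |c i j| :=
      Finset.sum_nonneg fun _ _ => Finset.sum_nonneg fun _ _ => abs_nonneg _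
    omega
  obtain ⟨Cv, hCv⟩ : ∃ Cv : ℕ, Cv = 2500 * C1 ^ 2 + A * (1 + C1) + (4 * k + 1) * (2 * A) ^ d := ⟨_, rfl⟩
  have hCa : 2500 * C1 ^ 2 ≤ Cv := by rw [hCv]; exact (Nat.le_add_right _ _).trans (Nat.le_add_right _ _)
  have hCb : A * (1 + C1) ≤ Cv := by rw [hCv]; exact (Nat.le_add_left _ _).trans (Nat.le_add_right _ _)
  have hCc : (4 * k + 1) * (2 * A) ^ d ≤ Cv := by rw [hCv]; exact Nat.le_add_left _ _
  have hC1sq : 1 ≤ C1 ^ 2 := Nat.one_le_pow _ _ hC1'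
  have hCd : 2500 ≤ Cv := by omega
  refine ⟨Cv, by omega, ?_⟩
  intro Z q T δ hq hT hδ hZ β hβ E _ hE
  have hqr : (1 : ℝ) ≤ q := by exact_mod_cast hq
  have hCr : (2500 : ℝ) ≤ Cv := by exact_mod_cast hCd
  have hT1 : (2500 : ℝ) ≤ T := hCr.trans hT
  have hT0 : 0 < T := by linarith
  have hC1r : (1 : ℝ) ≤ C1 := by exact_mod_cast hC1'
  obtain ⟨w, hw⟩ : ∃ w, w = Real.sqrt T := ⟨_, rfl⟩
  have hw0 : 0 ≤ w := by rw [hw]; exact Real.sqrt_nonneg _
  have hw2 : w ^ 2 = T := by rw [hw]; exact Real.sq_sqrt hT0.le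
  have hwC : 50 * (C1 : ℝ) ≤ w := by
    have h1 : (2500 : ℝ) * (C1 : ℝ) ^ 2 ≤ Cv := by exact_mod_cast hCa
    have h2 : (50 * (C1 : ℝ)) ^ 2 ≤ w ^ 2 := by
      rw [hw2]
      calc (50 * (C1 : ℝ)) ^ 2 = 2500 * (C1 : ℝ) ^ 2 := by ring
        _ ≤ (Cv : ℝ) := h1
        _ ≤ T := hT
    exact le_of_sq_le_sq h2 hw0
  have hw50 : 50 ≤ w := by linarith
  have hwpos : 0 < w := by linarith
  have hZ1 : 2500 * T ^ 2 * q ≤ Z := by
    refine le_trans ?_ hZ
    exact mul_le_mul_of_nonneg_right (mul_le_mul_of_nonneg_right hCr (by positivity)) (by linarith)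
  have hZT : 2500 * T * q ≤ Z := by
    refine le_trans ?_ hZ1
    have h1 : T ≤ T ^ 2 := by nlinarith
    exact mul_le_mul_of_nonneg_right (mul_le_mul_of_nonneg_left h1 (by norm_num)) (by linarith)
  have hZw : w ≤ Z := by
    have h1 : w ≤ w ^ 2 := by nlinarith
    rw [hw2] at h1
    nlinarith
  have hZr1 : (1 : ℝ) ≤ Z := by linarith
  have hZn : 1 ≤ Z := by exact_mod_cast hZr1
  have hZe : ∀ n : ℕ, 1 ≤ n → (Z : ℝ) ≤ (Z : ℝ) ^ n := fun n hn => le_self_pow₀ hZr1 (by omega)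
  have hD : ∀ i, 1 ≤ D i := by
    intro i
    have hj0 : ∃ j0, c i j0 ≠ 0 := by
      exact hc i
    obtain ⟨j0, hj0⟩ := hj0
    rw [← hB i j0 hj0]
    exact he j0
  obtain ⟨s, hs⟩ : ∃ s : Fin d → ℕ, s = fun j => q * ⌊(Z : ℝ) ^ e j / (q * T)⌋₊ := ⟨_, rfl⟩
  have hqT : 0 < (q : ℝ) * T := by positivity
  have hs1 : ∀ j, q ∣ s j := fun j => by rw [hs]; exact dvd_mul_right _ _
  have hs3 : ∀ j, (s j : ℝ) * T ≤ (Z : ℝ) ^ e j := by
    intro j
    have h1 : ((⌊(Z : ℝ) ^ e j / (q * T)⌋₊ : ℕ) : ℝ) ≤ (Z : ℝ) ^ e j / (q * T) := Nat.floor_le (by positivity)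
    rw [le_div_iff₀ hqT] at h1
    rw [hs]
    push_cast
    linarith [mul_comm (q : ℝ) ((⌊(Z : ℝ) ^ e j / (q * T)⌋₊ : ℕ) : ℝ),
      mul_assoc ((⌊(Z : ℝ) ^ e j / (q * T)⌋₊ : ℕ) : ℝ) (q : ℝ) T]
  have hs2 : ∀ j, (Z : ℝ) ^ e j ≤ 2 * T * s j := by
    intro j
    have h1 : (Z : ℝ) ^ e j / (q * T) < ((⌊(Z : ℝ) ^ e j / (q * T)⌋₊ : ℕ) : ℝ) + 1 := Nat.lt_floor_add_one _
    have h2 : 1 ≤ (Z : ℝ) ^ e j / (q * T) := by
      rw [le_div_iff₀ hqT]
      have h3 := hZe (e j) (he j)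
      nlinarith
    have h4 : (1 : ℝ) ≤ ((⌊(Z : ℝ) ^ e j / (q * T)⌋₊ : ℕ) : ℝ) := by
      exact_mod_cast Nat.le_floor (by exact_mod_cast h2)
    have h5 : (Z : ℝ) ^ e j / (q * T) ≤ 2 * ((⌊(Z : ℝ) ^ e j / (q * T)⌋₊ : ℕ) : ℝ) := by linarith
    rw [div_le_iff₀ hqT] at h5
    rw [hs]
    push_cast
    calc (Z : ℝ) ^ e j ≤ 2 * ((⌊(Z : ℝ) ^ e j / (q * T)⌋₊ : ℕ) : ℝ) * (q * T) := h5
      _ = 2 * T * (q * ((⌊(Z : ℝ) ^ e j / (q * T)⌋₊ : ℕ) : ℝ)) := by ring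
  have hsZ : ∀ j, (s j : ℝ) ≤ (Z : ℝ) ^ e j := by
    intro j
    refine le_trans ?_ (hs3 j)
    exact le_mul_of_one_le_right (Nat.cast_nonneg _) (by linarith)
  have hspos : ∀ j, 0 < s j := by
    intro j
    rcases Nat.eq_zero_or_pos (s j) with h | h
    · have h1 := hs2 j
      rw [h] at h1
      have h3 := hZe (e j) (he j)
      push_cast at h1
      linarith
    · exact h
  obtain ⟨cr, hcr⟩ : ∃ cr : (Fin d → ℕ) → (Fin d → ℤ), cr = fun u j => ((u j * s j : ℕ) : ℤ) := ⟨_, rfl⟩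
  obtain ⟨U, hU⟩ : ∃ U : Finset (Fin d → ℕ), U = Fintype.piFinset fun j => range (A * Z ^ e j / s j + 1) :=
    ⟨_, rfl⟩
  obtain ⟨G, hG⟩ : ∃ G : Finset (Fin d → ℕ), G = U.filter fun u => ∀ i, (Z : ℝ) ^ D i ≤ w * ((β i + lf c (cr u) i : ℤ) : ℝ) :=
    ⟨_, rfl⟩
  obtain ⟨W, hW⟩ : ∃ W : Fin k → ℕ, W = fun i => ⌈2 * (Z : ℝ) ^ D i / w⌉₊ := ⟨_, rfl⟩
  have hvar : ∀ (b : Fin d → ℤ) (i : Fin k) (t t' : Fin d → ℤ), t ∈ tb b s → t' ∈ tb b s →
      |((β i + lf c t i : ℤ) : ℝ) - ((β i + lf c t' i : ℤ) : ℝ)| * T ≤ C1 * (Z : ℝ) ^ D i := by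
    intro b i t t' ht ht'
    have h1 := R18_var c b s i t t' ht ht'
    have h2 : |((β i + lf c t i : ℤ) : ℝ) - ((β i + lf c t' i : ℤ) : ℝ)| ≤ ∑ j, |(c i j : ℝ)| * (s j : ℝ) := by
      have h3 : ((|lf c t i - lf c t' i| : ℤ) : ℝ) ≤ ((∑ j, |c i j| * (s j : ℤ) : ℤ) : ℝ) := by exact_mod_cast h1
      push_cast at h3
      push_cast
      rw [add_sub_add_left_eq_sub]
      exact h3
    have h4 : (∑ j, |(c i j : ℝ)| * (s j : ℝ)) * T ≤ (∑ j, |(c i j : ℝ)|) * (Z : ℝ) ^ D i := by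
      rw [Finset.sum_mul, Finset.sum_mul]
      refine Finset.sum_le_sum fun j _ => ?_
      by_cases hj : c i j = 0
      · rw [hj]
        simp
      · rw [mul_assoc, ← hB i j hj]
        exact mul_le_mul_of_nonneg_left (hs3 j) (abs_nonneg _)
    have h5 : (∑ j, |(c i j : ℝ)|) ≤ C1 := by
      have h6 : ((∑ j, |c i j| : ℤ) : ℝ) ≤ ((C1 : ℤ) : ℝ) := by
        exact_mod_cast (hS i).trans (by omega)
      push_cast at h6
      exact h6
    calc _ ≤ (∑ j, |(c i j : ℝ)| * (s j : ℝ)) * T := mul_le_mul_of_nonneg_right h2 hT0.le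
      _ ≤ (∑ j, |(c i j : ℝ)|) * (Z : ℝ) ^ D i := h4
      _ ≤ C1 * (Z : ℝ) ^ D i := mul_le_mul_of_nonneg_right h5 (by positivity)
  have hcrm : ∀ u : Fin d → ℕ, cr u ∈ tb (cr u) s := by
    intro u
    rw [r18_mem]
    intro j
    have h1 := hspos j
    omega
  -- the cover
  have hsub : ((tb 0 fun j => A * Z ^ e j + 1).filter fun t => (∀ i, 0 ≤ β i + lf c t i) ∧ E t) ⊆
      (univ.biUnion fun i => (tb 0 fun j => A * Z ^ e j + 1).filter
        fun t => 0 ≤ β i + lf c t i ∧ β i + lf c t i < W i) ∪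
      (G.biUnion fun u => (tb (cr u) s).filter E) := by
    intro t ht
    rw [mem_filter] at ht
    rw [mem_union]
    by_cases hlow : ∃ i, β i + lf c t i < W i
    · left
      obtain ⟨i, hi⟩ := hlow
      rw [mem_biUnion]
      exact ⟨i, mem_univ i, mem_filter.2 ⟨ht.1, ht.2.1 i, hi⟩⟩
    · right
      push Not at hlow
      obtain ⟨u, hu⟩ : ∃ u : Fin d → ℕ, u = fun j => (t j).toNat / s j := ⟨_, rfl⟩
      have htb := (r18_mem _ _ _).1 ht.1
      have htu : t ∈ tb (cr u) s := by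
        rw [r18_mem]
        intro j
        have h1 := htb j
        simp only [Pi.zero_apply] at h1
        obtain ⟨n, hn⟩ : ∃ n : ℕ, (n : ℤ) = t j := ⟨(t j).toNat, Int.toNat_of_nonneg h1.1⟩
        have h2 : u j = n / s j := by
          rw [hu]
          simp only
          rw [← hn, Int.toNat_natCast]
        have h3 : n / s j * s j ≤ n := Nat.div_mul_le_self _ _
        have h4 : n < n / s j * s j + s j := Nat.lt_div_mul_add (hspos j)
        rw [hcr]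
        simp only
        rw [h2, ← hn]
        constructor
        · exact_mod_cast h3
        · exact_mod_cast h4
      rw [mem_biUnion]
      refine ⟨u, ?_, mem_filter.2 ⟨htu, ht.2.2⟩⟩
      rw [hG, mem_filter]
      constructor
      · rw [hU, Fintype.mem_piFinset]
        intro j
        rw [mem_range, Nat.lt_succ_iff]
        rw [hu]
        apply Nat.div_le_div_right
        have h1 := htb j
        simp only [Pi.zero_apply] at h1
        push_cast at h1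
        have h2 : (((t j).toNat : ℕ) : ℤ) ≤ ((A * Z ^ e j : ℕ) : ℤ) := by
          rw [Int.toNat_of_nonneg h1.1]
          push_cast
          omega
        exact_mod_cast h2
      · intro i
        have h1 : (2 * (Z : ℝ) ^ D i / w) ≤ ((β i + lf c t i : ℤ) : ℝ) := by
          have h2 : (2 * (Z : ℝ) ^ D i / w) ≤ (W i : ℝ) := by
            rw [hW]
            exact Nat.le_ceil _
          refine h2.trans ?_
          exact_mod_cast hlow i
        rw [div_le_iff₀ hwpos] at h1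
        have h3 := hvar (cr u) i t (cr u) htu (hcrm u)
        have h4 : |((β i + lf c t i : ℤ) : ℝ) - ((β i + lf c (cr u) i : ℤ) : ℝ)| * w ≤ (Z : ℝ) ^ D i := by
          have h5 : |((β i + lf c t i : ℤ) : ℝ) - ((β i + lf c (cr u) i : ℤ) : ℝ)| * w * w ≤ (Z : ℝ) ^ D i * w := by
            calc _ = |((β i + lf c t i : ℤ) : ℝ) - ((β i + lf c (cr u) i : ℤ) : ℝ)| * T := by rw [← hw2]; ring
              _ ≤ C1 * (Z : ℝ) ^ D i := h3
              _ ≤ w * (Z : ℝ) ^ D i := mul_le_mul_of_nonneg_right (by linarith) (by positivity)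
              _ = (Z : ℝ) ^ D i * w := mul_comm _ _
          exact le_of_mul_le_mul_right h5 hwpos
        have h6 : ((β i + lf c t i : ℤ) : ℝ) - ((β i + lf c (cr u) i : ℤ) : ℝ) ≤
            |((β i + lf c t i : ℤ) : ℝ) - ((β i + lf c (cr u) i : ℤ) : ℝ)| := le_abs_self _
        have h7 := mul_le_mul_of_nonneg_right h6 hw0
        nlinarith
  -- the boxes
  have hbox : ∀ u ∈ G, (((tb (cr u) s).filter E).card : ℝ) ≤ (tb (cr u) s).card * δ := by
    intro u hu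
    rw [hG, mem_filter] at hu
    obtain ⟨v, hv⟩ : ∃ v : Fin k → ℕ, v = fun i => (β i + lf c (cr u) i).toNat := ⟨_, rfl⟩
    have hZD : ∀ i, 0 < (Z : ℝ) ^ D i := fun i => by positivity
    have hvpos : ∀ i, (0 : ℝ) < ((β i + lf c (cr u) i : ℤ) : ℝ) := by
      intro i
      have h1 := hu.2 i
      have h2 := hZD i
      by_contra hc
      push Not at hc
      have h3 := mul_nonpos_of_nonneg_of_nonpos hw0 hc
      linarith
    have hvr : ∀ i, (v i : ℝ) = ((β i + lf c (cr u) i : ℤ) : ℝ) := by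
      intro i
      have h1 : (0 : ℤ) ≤ β i + lf c (cr u) i := by
        have h2 := hvpos i
        exact_mod_cast h2.le
      have h2 : ((v i : ℕ) : ℤ) = β i + lf c (cr u) i := by
        rw [hv]
        exact Int.toNat_of_nonneg h1
      rw [← h2]
      push_cast
      rfl
    have hqw : ∀ i, (q : ℝ) * (2500 * w ^ 4) ≤ (Z : ℝ) ^ D i := by
      intro i
      calc (q : ℝ) * (2500 * w ^ 4) = 2500 * T ^ 2 * q := by rw [← hw2]; ring
        _ ≤ (Z : ℝ) := hZ1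
        _ ≤ (Z : ℝ) ^ D i := hZe _ (hD i)
    have hnum : ∀ (t : Fin d → ℤ), t ∈ tb (cr u) s → ∀ i,
        (Z : ℝ) ^ D i ≤ w ^ 2 * ((q * (5 * v i / (8 * q)) : ℕ) : ℝ) ∧
        151 * ((q * (5 * v i / (8 * q)) : ℕ) : ℝ) ≤ 100 * ((β i + lf c t i : ℤ) : ℝ) ∧
        100 * ((β i + lf c t i : ℤ) : ℝ) < 168 * ((q * (5 * v i / (8 * q)) : ℕ) : ℝ) := by
      intro t ht i
      have h1 := r20_M q (v i) hq
      refine r20_num w C1 ((Z : ℝ) ^ D i) (v i) ((β i + lf c t i : ℤ) : ℝ) _ q hC1r hwC ?_ ?_ (by linarith) (hqw i)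
        ?_ h1.1 h1.2
      · rw [hvr i]
        exact hvpos i
      · rw [hvr i]
        exact hu.2 i
      · rw [hvr i, hw2]
        exact hvar (cr u) i t (cr u) ht (hcrm u)
    refine hE (fun i => q * (5 * v i / (8 * q))) (cr u) s (fun i => dvd_mul_right _ _) hs1 ?_ ?_ hs2 hsZ ?_
    · intro i
      have h1 := (hnum (cr u) (hcrm u) i).1
      rw [hw2] at h1
      exact h1
    · intro i
      have h1 := (r20_M q (v i) hq).1
      have h2 : (v i : ℝ) ≤ A * (1 + C1) * (Z : ℝ) ^ D i := by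
        rw [hvr i]
        have h3 : ((β i + lf c (cr u) i : ℤ) : ℝ) = (β i : ℝ) + ∑ j, (c i j : ℝ) * (cr u j : ℝ) := by
          unfold lf
          push_cast
          rfl
        have h4 : (β i : ℝ) ≤ A * (Z : ℝ) ^ D i := by
          have h5 := (le_abs_self _).trans (hβ i)
          exact_mod_cast h5
        have h6 : ∑ j, (c i j : ℝ) * (cr u j : ℝ) ≤ ∑ j, |(c i j : ℝ)| * (A * (Z : ℝ) ^ D i) := by
          refine Finset.sum_le_sum fun j _ => ?_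
          by_cases hj : c i j = 0
          · rw [hj]
            simp
          · have h7 : (0 : ℝ) ≤ (cr u j : ℝ) := by
              rw [hcr]
              positivity
            have h8 : (cr u j : ℝ) ≤ A * (Z : ℝ) ^ D i := by
              have h9 := hu.1
              rw [hU, Fintype.mem_piFinset] at h9
              have h10 := h9 j
              rw [mem_range, Nat.lt_succ_iff] at h10
              have h11 : u j * s j ≤ A * Z ^ e j := (Nat.mul_le_mul_right _ h10).trans (Nat.div_mul_le_self _ _)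
              have h12 : ((u j * s j : ℕ) : ℝ) ≤ ((A * Z ^ e j : ℕ) : ℝ) := Nat.cast_le.2 h11
              rw [hcr, ← hB i j hj]
              push_cast at h12 ⊢
              exact h12
            exact (mul_le_mul_of_nonneg_right (le_abs_self _) h7).trans
              (mul_le_mul_of_nonneg_left h8 (abs_nonneg _))
        have h12 : (∑ j, |(c i j : ℝ)|) ≤ C1 := by
          have h13 : ((∑ j, |c i j| : ℤ) : ℝ) ≤ ((C1 : ℤ) : ℝ) := by
            exact_mod_cast (hS i).trans (by omega)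
          push_cast at h13
          exact h13
        rw [← Finset.sum_mul] at h6
        have h14 : (∑ j, |(c i j : ℝ)|) * (A * (Z : ℝ) ^ D i) ≤ C1 * (A * (Z : ℝ) ^ D i) :=
          mul_le_mul_of_nonneg_right h12 (by positivity)
        rw [h3]
        calc _ ≤ A * (Z : ℝ) ^ D i + C1 * (A * (Z : ℝ) ^ D i) := add_le_add h4 (h6.trans h14)
          _ = A * (1 + C1) * (Z : ℝ) ^ D i := by ring
      have h15 : ((A * (1 + C1) : ℕ) : ℝ) ≤ Cv := by exact_mod_cast hCb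
      push_cast at h15
      have h16 : (A * (1 + C1) : ℝ) * (Z : ℝ) ^ D i ≤ Cv * (Z : ℝ) ^ D i :=
        mul_le_mul_of_nonneg_right h15 (hZD i).le
      have h17 : (0 : ℝ) ≤ v i := Nat.cast_nonneg _
      linarith
    · intro t ht i
      have h1 := hnum t ht i
      have h2 := h1.2.1
      have h3 := h1.2.2
      have h4 : ((151 * ((q * (5 * v i / (8 * q)) : ℕ) : ℤ) : ℤ) : ℝ) ≤ ((100 * (β i + lf c t i) : ℤ) : ℝ) := by
        push_cast
        push_cast at h2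
        exact h2
      have h5 : ((100 * (β i + lf c t i) : ℤ) : ℝ) < ((168 * ((q * (5 * v i / (8 * q)) : ℕ) : ℤ) : ℤ) : ℝ) := by
        push_cast
        push_cast at h3
        exact h3
      exact ⟨Int.cast_le.1 h4, Int.cast_lt.1 h5⟩
  -- the sums
  have hcard := Finset.card_le_card hsub
  have hP : ∏ j, ((2 * A * Z ^ e j : ℕ) : ℝ) = (2 * A) ^ d * (Z : ℝ) ^ (∑ j, e j) := by
    push_cast
    rw [Finset.prod_mul_distrib, Finset.prod_const, Finset.card_univ, Fintype.card_fin, Finset.prod_pow_eq_pow_sum]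
  have hlowc : ∀ i, (((tb 0 fun j => A * Z ^ e j + 1).filter
        fun t => 0 ≤ β i + lf c t i ∧ β i + lf c t i < W i).card : ℝ) ≤
      4 / w * ((2 * A) ^ d * (Z : ℝ) ^ (∑ j, e j)) := by
    intro i
    have h1 := R20_low c e D he hc hB A Z (W i) hA hZn β i
    rw [hP] at h1
    have h2 : (W i : ℝ) < 2 * (Z : ℝ) ^ D i / w + 1 := by
      rw [hW]
      exact Nat.ceil_lt_add_one (by positivity)
    have hZD : 0 < (Z : ℝ) ^ D i := by positivity
    have h3 : (1 : ℝ) ≤ (Z : ℝ) ^ D i / w := by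
      rw [le_div_iff₀ hwpos, one_mul]
      exact hZw.trans (hZe _ (hD i))
    have h4 : (W i : ℝ) + 1 ≤ 4 / w * (Z : ℝ) ^ D i := by
      have h5 : 4 / w * (Z : ℝ) ^ D i = 4 * ((Z : ℝ) ^ D i / w) := by ring
      have h6 : 2 * (Z : ℝ) ^ D i / w = 2 * ((Z : ℝ) ^ D i / w) := by ring
      rw [h5]
      rw [h6] at h2
      linarith
    have h7 : (0 : ℝ) ≤ (2 * A) ^ d * (Z : ℝ) ^ (∑ j, e j) := by positivity
    have h8 := h1.trans (mul_le_mul_of_nonneg_right h4 h7)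
    have h9 : 4 / w * (Z : ℝ) ^ D i * ((2 * A) ^ d * (Z : ℝ) ^ (∑ j, e j)) =
        4 / w * ((2 * A) ^ d * (Z : ℝ) ^ (∑ j, e j)) * (Z : ℝ) ^ D i := by ring
    rw [h9] at h8
    exact le_of_mul_le_mul_right h8 hZD
  have hboxs : ∑ u ∈ G, (((tb (cr u) s).filter E).card : ℝ) ≤ δ * ((2 * A) ^ d * (Z : ℝ) ^ (∑ j, e j)) := by
    have h1 : ∀ u ∈ G, (((tb (cr u) s).filter E).card : ℝ) ≤ ((∏ j, s j : ℕ) : ℝ) * δ := by
      intro u hu
      have h2 := hbox u hu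
      rw [R18_card] at h2
      exact h2
    have h3 := Finset.sum_le_sum h1
    rw [Finset.sum_const, nsmul_eq_mul] at h3
    have h4 : (G.card : ℝ) ≤ U.card := by
      rw [hG]
      exact_mod_cast Finset.card_filter_le _ _
    have h5 : U.card * ∏ j, s j ≤ ∏ j, (2 * A * Z ^ e j) := by
      rw [hU, Fintype.card_piFinset, ← Finset.prod_mul_distrib]
      refine Finset.prod_le_prod' fun j _ => ?_
      rw [card_range]
      have h6 : s j ≤ Z ^ e j := by exact_mod_cast hsZ j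
      have h7 : A * Z ^ e j / s j * s j ≤ A * Z ^ e j := Nat.div_mul_le_self _ _
      have h8 : 1 * Z ^ e j ≤ A * Z ^ e j := Nat.mul_le_mul_right _ hA
      calc (A * Z ^ e j / s j + 1) * s j = A * Z ^ e j / s j * s j + s j := by ring
        _ ≤ A * Z ^ e j + A * Z ^ e j := by omega
        _ = 2 * A * Z ^ e j := by ring
    have h9 : (U.card : ℝ) * ((∏ j, s j : ℕ) : ℝ) ≤ ∏ j, ((2 * A * Z ^ e j : ℕ) : ℝ) := by exact_mod_cast h5
    rw [hP] at h9
    calc _ ≤ (G.card : ℝ) * (((∏ j, s j : ℕ) : ℝ) * δ) := h3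
      _ ≤ (U.card : ℝ) * (((∏ j, s j : ℕ) : ℝ) * δ) := mul_le_mul_of_nonneg_right h4 (by positivity)
      _ = δ * ((U.card : ℝ) * ((∏ j, s j : ℕ) : ℝ)) := by ring
      _ ≤ _ := mul_le_mul_of_nonneg_left h9 hδ
  have hfin : (((tb 0 fun j => A * Z ^ e j + 1).filter fun t => (∀ i, 0 ≤ β i + lf c t i) ∧ E t).card : ℝ) ≤
      ∑ i : Fin k, (((tb 0 fun j => A * Z ^ e j + 1).filter
        fun t => 0 ≤ β i + lf c t i ∧ β i + lf c t i < W i).card : ℝ) +
      ∑ u ∈ G, (((tb (cr u) s).filter E).card : ℝ) := by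
    have h1 := hcard.trans ((Finset.card_union_le _ _).trans
      (add_le_add Finset.card_biUnion_le Finset.card_biUnion_le))
    exact_mod_cast h1
  have h1 : ∑ i : Fin k, (((tb 0 fun j => A * Z ^ e j + 1).filter
        fun t => 0 ≤ β i + lf c t i ∧ β i + lf c t i < W i).card : ℝ) ≤
      k * (4 / w * ((2 * A) ^ d * (Z : ℝ) ^ (∑ j, e j))) := by
    refine (Finset.sum_le_sum fun i _ => hlowc i).trans (le_of_eq ?_)
    rw [Finset.sum_const, Finset.card_univ, Fintype.card_fin, nsmul_eq_mul]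
  have h2 : ((4 * k + 1) * (2 * A) ^ d : ℝ) ≤ Cv := by exact_mod_cast hCc
  have hwi : 0 < 1 / w := by positivity
  have hZs : (0 : ℝ) ≤ (Z : ℝ) ^ (∑ j, e j) := by positivity
  have hAd : (0 : ℝ) ≤ (2 * A) ^ d := by positivity
  have hkr : (0 : ℝ) ≤ k := Nat.cast_nonneg _
  rw [← hw]
  calc _ ≤ k * (4 / w * ((2 * A) ^ d * (Z : ℝ) ^ (∑ j, e j))) + δ * ((2 * A) ^ d * (Z : ℝ) ^ (∑ j, e j)) :=
        hfin.trans (add_le_add h1 hboxs)
    _ = (4 * k * (2 * A) ^ d) * (1 / w * (Z : ℝ) ^ (∑ j, e j)) + (2 * A) ^ d * (δ * (Z : ℝ) ^ (∑ j, e j)) := by ring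
    _ ≤ Cv * (1 / w * (Z : ℝ) ^ (∑ j, e j)) + Cv * (δ * (Z : ℝ) ^ (∑ j, e j)) := by
        have h3 : (4 * k * (2 * A) ^ d : ℝ) ≤ Cv := by nlinarith
        have h4 : ((2 * A) ^ d : ℝ) ≤ Cv := by
          have h5 : (0 : ℝ) ≤ 4 * k * (2 * A) ^ d := by positivity
          linarith
        exact add_le_add (mul_le_mul_of_nonneg_right h3 (by positivity))
          (mul_le_mul_of_nonneg_right h4 (by positivity))
    _ = Cv * (1 / w + δ) * (Z : ℝ) ^ (∑ j, e j) := by ring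

end Pool.Agent.HUP
end
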