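import Mathlib
import Pool.Agent.Lib.H59M.M1.M004
import Pool.Agent.Lib.H59M.M1.M010
import Pool.Agent.Lib.H59M.M1.M011
import Pool.Agent.Lib.H59M.M1.M012
import Pool.Agent.Lib.H59M.M1.M013
import Pool.Agent.Lib.H59M.M1.M014
import Pool.Agent.Lib.H59M.M1.M016
import Pool.Agent.Lib.H59M.M1.M017
import Pool.Agent.Lib.H59M.M1.M018
import Pool.Agent.Lib.H59M.M1.M019
import Pool.Agent.Lib.H59M.M1.M020
import Pool.Agent.Lib.H59M.M1.M023
import Pool.Agent.Lib.H59M.M1.M025
import Pool.Agent.Lib.H59M.M1.M030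
import Pool.Agent.Lib.H59M.M1.M033
import Pool.Agent.Lib.H59M.M1.M034
import Pool.Agent.Lib.H59M.M1.M049
import Pool.Agent.Lib.H59M.M1.M056
import Pool.Agent.Lib.H59M.M1.M058
import Pool.Agent.Lib.H59M.M1.M064
import Pool.Agent.Lib.H59M.M1.M070
import Pool.Agent.Lib.H59M.M1.M075
import Pool.Agent.Lib.H59M.M1.M076
import Pool.Agent.Lib.H59M.M1.M081
import Pool.Agent.Lib.H59M.M1.M088

/-! Merged copies (to shorten the build) of Lib.H59P.Y7, Lib.H59P.YE, Lib.H59P.YKA, Lib.H59P.YK, Lib.H59P.T4B, Lib.H59P.T5, Lib.H59P.T6A, Lib.H59P.T6, Lib.H59P.T7, Lib.H68X.XRN, Lib.H68X.XSET, Lib.H59P.TSL, Lib.H59P.T8, Lib.H68X.XRP, Lib.H68X.XRM, Lib.H68X.XRC0, Lib.H68X.XRC, Lib.H68X.XRB, Lib.H59P.END. -/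

-- from Lib.H59P.Y7
section

/-!
# Project H59P, chunk Y7: tuples, arbitrarily large N, full range of k
-/

open Finset

namespace Pool.Agent.Lib.H59P

open Pool.Agent.Lib.H68T Pool.Agent.Lib.H18Q

/-- all conditions on `L = log N` -/
theorem y7_large (C c0 ε δ : ℝ) (hC : 1 ≤ C) (hε : 0 < ε) (hδ : 0 < δ) :
    ∀ᶠ L : ℝ in Filter.atTop, 4 ≤ L ∧ 1 ≤ Real.log L ∧ 2 * C * Real.log L ≤ L ^ (δ / 8) ∧
      (2 + |c0|) * C * Real.log L ≤ ε * L ^ δ := by
  have hC0 : 0 < C := by linarith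
  have h1 : ∀ᶠ L : ℝ in Filter.atTop, 4 ≤ L := Filter.eventually_ge_atTop 4
  have h2 : ∀ᶠ L : ℝ in Filter.atTop, 1 ≤ Real.log L :=
    Real.tendsto_log_atTop.eventually_ge_atTop 1
  have h3 := (isLittleO_log_rpow_atTop (r := δ / 8) (by positivity)).bound
    (c := 1 / (2 * C)) (by positivity)
  have hc : 0 < (2 + |c0|) * C := by
    have := abs_nonneg c0
    positivity
  have h4 := (isLittleO_log_rpow_atTop (r := δ) hδ).bound
    (c := ε / ((2 + |c0|) * C)) (by positivity)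
  filter_upwards [h1, h2, h3, h4] with L a1 a2 a3 a4
  have hL : 0 < L := by linarith
  rw [Real.norm_of_nonneg (by linarith), Real.norm_of_nonneg (Real.rpow_nonneg hL.le _)] at a3 a4
  refine ⟨a1, a2, ?_, ?_⟩
  · have := mul_le_mul_of_nonneg_left a3 (by positivity : (0 : ℝ) ≤ 2 * C)
    calc 2 * C * Real.log L ≤ 2 * C * (1 / (2 * C) * L ^ (δ / 8)) := this
      _ = L ^ (δ / 8) := by field_simp
  · have := mul_le_mul_of_nonneg_left a4 hc.le
    calc (2 + |c0|) * C * Real.log L ≤ (2 + |c0|) * C * (ε / ((2 + |c0|) * C) * L ^ δ) := this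
      _ = ε * L ^ δ := by field_simp

/-- **Y7.** Proof. `AGood` with `K'` of `Y3a`; `k (log N)^(-2) 4 ≤ 1` since `k ≤ log N`; `log Q ≥ log N/(C log log N) ≥
(log X)^(1-δ/8)`; `Y3a` with `η = 1`: `4 Q^(-ε) ≤ e^(-c0 k)` since `k ≤ (log N)^(1-δ)`. -/
theorem Y7 (hF : FMain) (hT : TMain) (hA : AGood) (c0 : ℝ) (hlow : TLow c0) (δ : ℝ)
    (hδ : 0 < δ) (hδ1 : δ < 1) :
    ∃ ε : ℝ, 0 < ε ∧ ∀ N0 : ℕ, ∃ N : ℕ, N0 ≤ N ∧ ∀ k : ℕ, 1 ≤ k →
      (k : ℝ) ≤ (Real.log N) ^ (1 - δ) →
      ∃ (X : ℕ) (Bad : Finset (Fin k → ℕ)), N ≤ X ∧ X ≤ 2 * N ∧ Good' X Bad ∧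
        (Bad.card : ℝ) ≤ (X : ℝ) ^ k *
          Real.exp (-(ε * (Real.log N / Real.log (Real.log N)))) := by
  obtain ⟨ε, K, hε, hK, X0, hY⟩ := Y3a hF hT c0 hlow δ hδ hδ1
  obtain ⟨C, hC, hAg⟩ := hA
  have hC0 : 0 < C := by linarith
  refine ⟨ε / C, by positivity, ?_⟩
  intro N0
  have hev := (Real.tendsto_log_atTop.comp (tendsto_natCast_atTop_atTop (R := ℝ))).eventually
    (y7_large C c0 ε δ hC hε hδ)
  obtain ⟨N1, hN1⟩ := Filter.eventually_atTop.mp hev
  obtain ⟨N, hN, Q, H, hNX, hX2, hReg, hlog, hM⟩ := hAg K (max N0 (max N1 X0))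
  refine ⟨N, (le_max_left _ _).trans hN, ?_⟩
  intro k hk hkN
  have hNN1 : N1 ≤ N := (le_max_left _ _).trans ((le_max_right _ _).trans hN)
  have hNX0 : X0 ≤ N := (le_max_right _ _).trans ((le_max_right _ _).trans hN)
  obtain ⟨c1, c2, c3, c4⟩ := hN1 N hNN1
  simp only [Function.comp] at c1 c2 c3 c4
  set L := Real.log N with hL
  have hL0 : 0 < L := by linarith
  have hL1 : 1 ≤ L := by linarith
  set X := H * Q ^ 8 with hX
  have hNpos : 0 < N := by
    rcases Nat.eq_zero_or_pos N with h0 | h0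
    · rw [hL, h0] at hL0
      simp at hL0
    · exact h0
  have hNr : (0 : ℝ) < N := by exact_mod_cast hNpos
  have hNXr : (N : ℝ) ≤ X := by exact_mod_cast hNX
  have hXr : (0 : ℝ) < X := by linarith
  have hLX : L ≤ Real.log X := Real.log_le_log hNr hNXr
  have hLX2 : Real.log X ≤ 2 * L := by
    have h1 : (X : ℝ) ≤ 2 * N := by exact_mod_cast hX2
    have h2 : Real.log X ≤ Real.log (2 * N) := Real.log_le_log hXr h1
    rw [Real.log_mul (by norm_num) hNr.ne'] at h2
    have h3 : Real.log 2 ≤ 1 := by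
      have := Real.log_two_lt_d9
      linarith
    linarith
  have hlQ : 0 ≤ Real.log Q := by
    by_contra hneg
    push Not at hneg
    have : C * Real.log L * Real.log Q ≤ 0 :=
      mul_nonpos_of_nonneg_of_nonpos (by positivity) hneg.le
    linarith
  have hCl : 0 < C * Real.log L := by positivity
  -- powers of `L`
  have hp1 : L ^ (1 - δ / 8) * L ^ (δ / 8) = L := by
    rw [← Real.rpow_add hL0]
    simp
  have hp2 : L ^ (1 - δ) * L ^ δ = L := by
    rw [← Real.rpow_add hL0]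
    simp
  have hP1 : 0 < L ^ (1 - δ / 8) := Real.rpow_pos_of_pos hL0 _
  have hP2 : 0 < L ^ (1 - δ) := Real.rpow_pos_of_pos hL0 _
  -- (ii)
  have hii : (Real.log X) ^ (1 - δ / 8) ≤ Real.log Q := by
    have e1 : (Real.log X) ^ (1 - δ / 8) ≤ (2 * L) ^ (1 - δ / 8) :=
      Real.rpow_le_rpow (by linarith) hLX2 (by linarith)
    have e2 : (2 * L) ^ (1 - δ / 8) ≤ 2 * L ^ (1 - δ / 8) := by
      rw [Real.mul_rpow (by norm_num) hL0.le]
      refine mul_le_mul_of_nonneg_right ?_ hP1.le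
      calc (2 : ℝ) ^ (1 - δ / 8) ≤ (2 : ℝ) ^ (1 : ℝ) :=
            Real.rpow_le_rpow_of_exponent_le (by norm_num) (by linarith)
        _ = 2 := Real.rpow_one _
    have e3 : (C * Real.log L) * (2 * L ^ (1 - δ / 8)) ≤ (C * Real.log L) * Real.log Q := by
      calc (C * Real.log L) * (2 * L ^ (1 - δ / 8)) = L ^ (1 - δ / 8) * (2 * C * Real.log L) := by ring
        _ ≤ L ^ (1 - δ / 8) * L ^ (δ / 8) := mul_le_mul_of_nonneg_left c3 hP1.le
        _ = L := hp1
        _ ≤ (C * Real.log L) * Real.log Q := hlog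
    exact e1.trans (e2.trans (le_of_mul_le_mul_left e3 hCl))
  have hkL : (k : ℝ) ≤ L ^ (1 - δ) := hkN
  have hkX : (k : ℝ) ≤ (Real.log X) ^ (1 - δ) :=
    hkL.trans (Real.rpow_le_rpow hL0.le hLX (by linarith))
  have hk1 : (1 : ℝ) ≤ k := by exact_mod_cast hk
  have hkL1 : (k : ℝ) ≤ L := by
    refine hkL.trans ?_
    calc L ^ (1 - δ) ≤ L ^ (1 : ℝ) := Real.rpow_le_rpow_of_exponent_le hL1 (by linarith)
      _ = L := Real.rpow_one _
  -- (iii)
  have hiii : 4 * k * L ^ (-(2 : ℝ)) ≤ 1 := by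
    rw [Real.rpow_neg hL0.le, Real.rpow_two]
    rw [mul_inv_le_iff₀ (by positivity)]
    nlinarith
  -- (iv)
  have hQpos : (0 : ℝ) < Q := by
    have := hReg.Q_pos hK
    exact_mod_cast this
  have hlogQ : L / (C * Real.log L) ≤ Real.log Q := by
    rw [div_le_iff₀ hCl]
    calc L ≤ C * Real.log L * Real.log Q := hlog
      _ = Real.log Q * (C * Real.log L) := by ring
  have hiv : 4 * (Q : ℝ) ^ (-ε) ≤ (1 : ℝ) ^ k * Real.exp (-(c0 * k)) := by
    rw [one_pow, one_mul, Real.rpow_def_of_pos hQpos]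
    have h4 : (4 : ℝ) ≤ Real.exp 2 := by
      have h5 : (2 : ℝ) + 1 ≤ Real.exp 2 := Real.add_one_le_exp 2
      have h6 : Real.exp 2 = Real.exp 1 * Real.exp 1 := by rw [← Real.exp_add]; norm_num
      have h7 : (2 : ℝ) ≤ Real.exp 1 := by
        have := Real.add_one_le_exp (1 : ℝ)
        linarith
      rw [h6]
      nlinarith
    have h5 : 2 + |c0| * k ≤ ε * Real.log Q := by
      have e1 : 2 + |c0| * k ≤ (2 + |c0|) * L ^ (1 - δ) := by
        have a1 : (1 : ℝ) ≤ L ^ (1 - δ) := Real.one_le_rpow hL1 (by linarith)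
        have a2 : |c0| * k ≤ |c0| * L ^ (1 - δ) := mul_le_mul_of_nonneg_left hkL (abs_nonneg _)
        nlinarith
      have e2 : (C * Real.log L) * ((2 + |c0|) * L ^ (1 - δ)) ≤ (C * Real.log L) * (ε * Real.log Q) := by
        calc (C * Real.log L) * ((2 + |c0|) * L ^ (1 - δ))
            = L ^ (1 - δ) * ((2 + |c0|) * C * Real.log L) := by ring
          _ ≤ L ^ (1 - δ) * (ε * L ^ δ) := mul_le_mul_of_nonneg_left c4 hP2.le
          _ = ε * (L ^ (1 - δ) * L ^ δ) := by ring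
          _ = ε * L := by rw [hp2]
          _ ≤ ε * (C * Real.log L * Real.log Q) := mul_le_mul_of_nonneg_left hlog hε.le
          _ = (C * Real.log L) * (ε * Real.log Q) := by ring
      exact e1.trans (le_of_mul_le_mul_left e2 hCl)
    have h6 : c0 * k ≤ |c0| * k := mul_le_mul_of_nonneg_right (le_abs_self _) (by positivity)
    calc 4 * Real.exp (Real.log Q * -ε) ≤ Real.exp 2 * Real.exp (Real.log Q * -ε) :=
          mul_le_mul_of_nonneg_right h4 (Real.exp_pos _).le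
      _ = Real.exp (2 + Real.log Q * -ε) := by rw [← Real.exp_add]
      _ ≤ Real.exp (-(c0 * k)) := by
          apply Real.exp_le_exp.mpr
          linarith
  obtain ⟨Bad, hG, hcard⟩ := hY k Q X H 1 (L ^ (-(2 : ℝ))) p0 (fun _ => 0) (hNX0.trans hNX) hk hkX
    hReg hii hX hM (Real.rpow_nonneg hL0.le _) hiii hiv
  refine ⟨X, Bad, hNX, hX2, hG, hcard.trans ?_⟩
  refine mul_le_mul_of_nonneg_left ?_ (by positivity)
  rw [Real.rpow_def_of_pos hQpos]
  apply Real.exp_le_exp.mpr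
  have h8 := mul_le_mul_of_nonneg_left hlogQ hε.le
  have h9 : ε / C * (L / Real.log L) = ε * (L / (C * Real.log L)) := by
    field_simp
  rw [h9]
  linarith

end Pool.Agent.Lib.H59P
end

-- from Lib.H59P.YE
section

/-!
# Project H59P, chunk YE: statement (e) for sets
-/

open Finset

namespace Pool.Agent.Lib.H59P

open Pool.Agent.Lib.H68T Pool.Agent.Lib.H18Q

theorem YE_asym (C c δ : ℝ) (hC : 0 < C) (hc : 0 < c) (hδ : 0 < δ) :
    ∀ᶠ L : ℝ in Filter.atTop, 1 < Real.log L ∧ 1 < L ∧ C * L ^ (1 - δ) * Real.log L ≤ c * (L / Real.log L) := by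
  have h1 : ∀ᶠ L : ℝ in Filter.atTop, ‖Real.log L‖ ≤ 1 * ‖L ^ (δ / 4)‖ :=
    (isLittleO_log_rpow_atTop (by positivity)).bound one_pos
  have h2 : ∀ᶠ L : ℝ in Filter.atTop, C / c ≤ L ^ (δ / 2) :=
    (tendsto_rpow_atTop (by positivity)).eventually_ge_atTop _
  have h3 : ∀ᶠ L : ℝ in Filter.atTop, 1 < Real.log L := Real.tendsto_log_atTop.eventually_gt_atTop 1
  filter_upwards [h1, h2, h3, Filter.eventually_gt_atTop (1 : ℝ)] with L a1 a2 a3 a4
  refine ⟨a3, a4, ?_⟩
  have hL : 0 < L := by linarith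
  have hl : 0 < Real.log L := by linarith
  have hp : 0 < L ^ (δ / 4) := Real.rpow_pos_of_pos hL _
  rw [Real.norm_of_nonneg hl.le, Real.norm_of_nonneg hp.le, one_mul] at a1
  have e1 : Real.log L * Real.log L ≤ L ^ (δ / 2) := by
    calc Real.log L * Real.log L ≤ L ^ (δ / 4) * L ^ (δ / 4) := mul_le_mul a1 a1 hl.le hp.le
      _ = L ^ (δ / 2) := by rw [← Real.rpow_add hL]; congr 1; ring
  have e2 : C ≤ c * L ^ (δ / 2) := by
    rw [div_le_iff₀ hc] at a2; linarith
  have e3 : C * (Real.log L * Real.log L) ≤ c * L ^ δ := by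
    calc C * (Real.log L * Real.log L) ≤ (c * L ^ (δ / 2)) * L ^ (δ / 2) :=
          mul_le_mul e2 e1 (by positivity) (by positivity)
      _ = c * L ^ δ := by rw [mul_assoc, ← Real.rpow_add hL]; congr 2; ring
  have e4 : L ^ (1 - δ) * L ^ δ = L := by
    rw [← Real.rpow_add hL]; simp
  rw [← mul_div_assoc, le_div_iff₀ hl]
  calc C * L ^ (1 - δ) * Real.log L * Real.log L = L ^ (1 - δ) * (C * (Real.log L * Real.log L)) := by ring
    _ ≤ L ^ (1 - δ) * (c * L ^ δ) := mul_le_mul_of_nonneg_left e3 (by positivity)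
    _ = c * (L ^ (1 - δ) * L ^ δ) := by ring
    _ = c * L := by rw [e4]

/-- **(e).** Proof. `Y7` with `δ/2` in place of `δ` gives `N` arbitrarily large; choose `x` with
`⌊x^(1-δ)⌋₊ + 1 = N`, e.g. `x = (N - 1/2)^(1/(1-δ))`; `k ≤ (log x)^(1-δ) ≤ (log N)^(1-δ/2)`. `Y9` with
`σ = exp(-ε log N/log log N)`, `(log x)^(C k) ≤ exp(ε log N/(2 log log N))`. -/
theorem YE (hF : FMain) (hT : TMain) (hA : AGood) (c0 : ℝ) (hlow : TLow c0) (hC : TCount) (δ : ℝ)
    (hδ : 0 < δ) (hδ1 : δ < 1) :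
    ∃ c : ℝ, 0 < c ∧ ∀ x0 : ℝ, ∃ x : ℝ, x0 ≤ x ∧ ∀ k : ℕ, 1 ≤ k → (k : ℝ) ≤ (Real.log x) ^ (1 - δ) →
      ((bad x δ k).card : ℝ) ≤ x ^ (-(c / Real.log (Real.log x))) * ((adm x δ k).card : ℝ) := by
  obtain ⟨ε, hε, h7⟩ := Y7 hF hT hA c0 hlow (δ / 2) (by positivity) (by linarith)
  obtain ⟨C, hC1, h9⟩ := Y9 hC
  obtain ⟨x1, h9⟩ := h9 δ (δ / 2) hδ hδ1 (by positivity) (by linarith)
  have h1δ : 0 < 1 - δ := by linarith
  have hinv : 0 < 1 / (1 - δ) := by positivity
  set c : ℝ := ε / 2 * (1 - δ) with hcdef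
  have hc : 0 < c := by positivity
  refine ⟨c, hc, ?_⟩
  intro x0
  -- the map N ↦ x
  have hNat : Filter.Tendsto (fun N : ℕ => (N : ℝ) - 1 / 2) Filter.atTop Filter.atTop :=
    Filter.tendsto_atTop_add_const_right _ _ tendsto_natCast_atTop_atTop
  have hX : Filter.Tendsto (fun N : ℕ => ((N : ℝ) - 1 / 2) ^ (1 / (1 - δ))) Filter.atTop Filter.atTop :=
    (tendsto_rpow_atTop hinv).comp hNat
  have hL : Filter.Tendsto (fun N : ℕ => Real.log (((N : ℝ) - 1 / 2) ^ (1 / (1 - δ)))) Filter.atTop Filter.atTop :=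
    Real.tendsto_log_atTop.comp hX
  have hlN : Filter.Tendsto (fun N : ℕ => Real.log (N : ℝ)) Filter.atTop Filter.atTop :=
    Real.tendsto_log_atTop.comp tendsto_natCast_atTop_atTop
  have g1 := hX.eventually_ge_atTop x0
  have g2 := hX.eventually_ge_atTop x1
  have g3 := hL.eventually (YE_asym C c δ (by linarith) hc hδ)
  have g4 : ∀ᶠ N : ℕ in Filter.atTop, (1 / (1 - δ)) ^ (1 - δ) ≤ (Real.log N) ^ (δ / 2) :=
    ((tendsto_rpow_atTop (by positivity : 0 < δ / 2)).comp hlN).eventually_ge_atTop _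
  have g5 := hlN.eventually_gt_atTop 1
  -- N ≤ x
  have g6 : ∀ᶠ N : ℕ in Filter.atTop, 2 ≤ ((N : ℝ) - 1 / 2) ^ (δ / (1 - δ)) :=
    ((tendsto_rpow_atTop (by positivity)).comp hNat).eventually_ge_atTop _
  obtain ⟨N0, hN0⟩ := Filter.eventually_atTop.1 (g1.and (g2.and (g3.and (g4.and (g5.and g6)))))
  obtain ⟨N, hN, h7⟩ := h7 (max N0 2)
  obtain ⟨a1, a2, ⟨a3, a3', a4⟩, a5, a6, a7⟩ := hN0 N ((le_max_left _ _).trans hN)
  have hN2 : 2 ≤ N := (le_max_right _ _).trans hN
  have hN2' : (2 : ℝ) ≤ N := by exact_mod_cast hN2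
  set x : ℝ := ((N : ℝ) - 1 / 2) ^ (1 / (1 - δ)) with hxdef
  have hNp : 0 < (N : ℝ) - 1 / 2 := by linarith
  have hxp : 0 < x := Real.rpow_pos_of_pos hNp _
  have hxN : x ^ (1 - δ) = (N : ℝ) - 1 / 2 := by
    rw [hxdef, ← Real.rpow_mul hNp.le, one_div_mul_cancel h1δ.ne', Real.rpow_one]
  have hfl : ⌊x ^ (1 - δ)⌋₊ + 1 = N := by
    have h1 : ⌊x ^ (1 - δ)⌋₊ = N - 1 := by
      rw [Nat.floor_eq_iff (by rw [hxN]; exact hNp.le), hxN, Nat.cast_sub (by omega)]
      push_cast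
      constructor <;> linarith
    omega
  have hNx : (N : ℝ) ≤ x := by
    have h1 : x = ((N : ℝ) - 1 / 2) * ((N : ℝ) - 1 / 2) ^ (δ / (1 - δ)) := by
      rw [hxdef]
      have h2 : (1 : ℝ) / (1 - δ) = 1 + δ / (1 - δ) := by field_simp; ring
      rw [h2, Real.rpow_add hNp, Real.rpow_one]
    rw [h1]
    have h3 : ((N : ℝ) - 1 / 2) * 2 ≤ ((N : ℝ) - 1 / 2) * ((N : ℝ) - 1 / 2) ^ (δ / (1 - δ)) :=
      mul_le_mul_of_nonneg_left a7 hNp.le
    linarith
  have hlogx : Real.log x = Real.log ((N : ℝ) - 1 / 2) / (1 - δ) := by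
    rw [hxdef, Real.log_rpow hNp]; ring
  have hlog1 : (1 - δ) * Real.log x ≤ Real.log N := by
    rw [hlogx, mul_div_cancel₀ _ h1δ.ne']
    exact Real.log_le_log hNp (by linarith)
  have hlog2 : Real.log x ≤ 1 / (1 - δ) * Real.log N := by
    rw [div_mul_eq_mul_div, one_mul, le_div_iff₀ h1δ]; linarith
  have hlog3 : Real.log N ≤ Real.log x := Real.log_le_log (by linarith) hNx
  refine ⟨x, a1, ?_⟩
  intro k hk hkx
  have hLpos : 0 < Real.log x := by linarith
  have hllpos : 0 < Real.log (Real.log x) := by linarith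
  have hkN : (k : ℝ) ≤ (Real.log N) ^ (1 - δ / 2) := by
    calc (k : ℝ) ≤ (Real.log x) ^ (1 - δ) := hkx
      _ ≤ (1 / (1 - δ) * Real.log N) ^ (1 - δ) := Real.rpow_le_rpow hLpos.le hlog2 h1δ.le
      _ = (1 / (1 - δ)) ^ (1 - δ) * (Real.log N) ^ (1 - δ) := Real.mul_rpow hinv.le (by linarith)
      _ ≤ (Real.log N) ^ (δ / 2) * (Real.log N) ^ (1 - δ) :=
          mul_le_mul_of_nonneg_right a5 (Real.rpow_nonneg (by linarith) _)
      _ = (Real.log N) ^ (1 - δ / 2) := by rw [← Real.rpow_add (by linarith)]; congr 1; ring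
  obtain ⟨X, Bad, b1, b2, b3, b4⟩ := h7 k hk hkN
  have h10 := h9 x k a2 hk (by rw [hfl]; exact hkN) X Bad
    (Real.exp (-(ε * (Real.log N / Real.log (Real.log N))))) (by rw [hfl]; exact b1) (by rw [hfl]; exact b2) b3 b4
    (Real.exp_pos _).le
  refine h10.trans (mul_le_mul_of_nonneg_right ?_ (Nat.cast_nonneg _))
  -- exponents
  have hllN : 0 < Real.log (Real.log N) := Real.log_pos a6
  have hll : Real.log (Real.log N) ≤ Real.log (Real.log x) := Real.log_le_log (by linarith) hlog3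
  have e1 : (1 - δ) * (Real.log x / Real.log (Real.log x)) ≤ Real.log N / Real.log (Real.log N) := by
    rw [← mul_div_assoc]
    exact div_le_div₀ (by linarith) hlog1 hllN hll
  have e2 : (Real.log x) ^ (C * k) = Real.exp (Real.log (Real.log x) * (C * k)) :=
    Real.rpow_def_of_pos hLpos _
  have e3 : x ^ (-(c / Real.log (Real.log x))) = Real.exp (Real.log x * -(c / Real.log (Real.log x))) :=
    Real.rpow_def_of_pos hxp _
  rw [e2, e3, ← Real.exp_add, Real.exp_le_exp]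
  have e4 : Real.log (Real.log x) * (C * k) ≤ c * (Real.log x / Real.log (Real.log x)) := by
    refine le_trans ?_ a4
    calc Real.log (Real.log x) * (C * k) ≤ Real.log (Real.log x) * (C * (Real.log x) ^ (1 - δ)) :=
          mul_le_mul_of_nonneg_left (mul_le_mul_of_nonneg_left hkx (by linarith)) hllpos.le
      _ = C * Real.log x ^ (1 - δ) * Real.log (Real.log x) := by ring
  have e5 : 2 * c * (Real.log x / Real.log (Real.log x)) ≤ ε * (Real.log N / Real.log (Real.log N)) := by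
    calc 2 * c * (Real.log x / Real.log (Real.log x)) = ε * ((1 - δ) * (Real.log x / Real.log (Real.log x))) := by
          rw [hcdef]; ring
      _ ≤ _ := mul_le_mul_of_nonneg_left e1 hε.le
  have e6 : Real.log x * -(c / Real.log (Real.log x)) = -(c * (Real.log x / Real.log (Real.log x))) := by ring
  rw [e6]
  linarith

end Pool.Agent.Lib.H59P
end

-- from Lib.H59P.YKA
section

/-!
# Project H59P, chunk YKA: forward direction, with parameters
-/

open Finset

namespace Pool.Agent.Lib.H59P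

open Pool.Agent.Lib.H68T Pool.Agent.Lib.H18Q

theorem yka_ev (C p q : ℝ) (h : p < q) (hC : 0 ≤ C) :
    ∀ᶠ L : ℝ in Filter.atTop, C * L ^ p * (Real.log (2 * L)) ^ 2 ≤ L ^ q := by
  have hs : 0 < (q - p) / 4 := by linarith
  filter_upwards [ev_rpow C (p + (q - p) / 2) q (by linarith), ev_log 2 ((q - p) / 4) hs,
    ev_rpow (2 * Real.log 2) 0 ((q - p) / 4) hs, Filter.eventually_ge_atTop (1 : ℝ)] with L h1 h2 h3 h4
  have hL0 : 0 < L := by linarith
  rw [Real.rpow_zero, mul_one] at h3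
  have h5 : Real.log (2 * L) ≤ L ^ ((q - p) / 4) := by
    rw [Real.log_mul (by norm_num) hL0.ne']
    linarith
  have h6 : 0 ≤ Real.log (2 * L) := Real.log_nonneg (by linarith)
  have h7 : (Real.log (2 * L)) ^ 2 ≤ L ^ ((q - p) / 2) := by
    calc (Real.log (2 * L)) ^ 2 ≤ (L ^ ((q - p) / 4)) ^ 2 := pow_le_pow_left₀ h6 h5 2
      _ = L ^ ((q - p) / 2) := by
        rw [← Real.rpow_natCast, ← Real.rpow_mul hL0.le]
        congr 1
        push_cast
        ring
  have h8 : 0 ≤ C * L ^ p := mul_nonneg hC (Real.rpow_nonneg hL0.le _)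
  calc C * L ^ p * (Real.log (2 * L)) ^ 2 ≤ C * L ^ p * L ^ ((q - p) / 2) :=
        mul_le_mul_of_nonneg_left h7 h8
    _ = C * L ^ (p + (q - p) / 2) := by rw [mul_assoc, ← Real.rpow_add hL0]
    _ ≤ L ^ q := h1

/-- **YKa.** As `coreV` in `H51D`. Exponents: `a` for `k`, `t` for the threshold of the conductors, `b` for the
zeros, `g` for the exceptional proportion.

Proof. `N = ⌊x^(1-δ)⌋₊ + 1`, `L = log x`, `(1-δ) L ≤ log N ≤ L`. `Y5` with `δ' = min((1-a)/2, …) > 0` (`k ≤ L^a ≤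
(log N)^(1-δ')`), `ρ = exp(L^t)` and `v = exp(-L^b)`: `k log(1/v) ≤ L^(a+b) ≤ ε log N/log(k+1)` for `L` large
(`a + b < 1`). `Y9`: `(log x)^(C k) (exp(-ε log N/log(k+1)) + (log N)^(C k) exp(-L^t/2)) ≤ exp(-L^g)`, since
`L^a log L = o(L^t)`, `g < t`, `g < 1`. -/
theorem YKa (hF : FMain) (hT : TMain) (hA : AMain) (c0 : ℝ) (hc0 : 0 ≤ c0) (hlow : TLow c0)
    (hC : TCount) (δ a t b g : ℝ) (hδ : 0 < δ) (hδ1 : δ < 1) (ha : 0 < a) (hat : a < t) (hb : 0 < b)
    (hab : a + b < 1) (hgt : g < t) (hg1 : g < 1) (hg : 0 < g) :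
    ∃ L0 : ℝ, ∀ L : ℝ, L0 ≤ L →
      (∀ (r : ℕ) [NeZero r] (ψ : DirichletCharacter ℂ r), (r : ℝ) ≤ Real.exp (L ^ t) →
        ψ.IsPrimitive → ψ ≠ 1 → ψ ^ 2 = 1 → ∀ β : ℝ, β < 1 → ψ.LFunction (β : ℂ) = 0 →
        Real.exp (-L ^ b) ≤ 1 - β) →
      ∀ k : ℕ, 1 ≤ k → (k : ℝ) ≤ L ^ a →
        ((bad (Real.exp L) δ k).card : ℝ) ≤ Real.exp (-L ^ g) * ((adm (Real.exp L) δ k).card : ℝ) := by
  obtain ⟨C9, hC9, h9⟩ := Y9 hC
  have ha1 : a < 1 := by linarith
  have hδ' : 0 < (1 - a) / 2 := by linarith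
  have hδ'1 : (1 - a) / 2 < 1 := by linarith
  obtain ⟨ε, C5, hε, hC5, N0, h5⟩ := Y5 hF hT hA c0 hc0 hlow ((1 - a) / 2) hδ' hδ'1
  obtain ⟨x0, h9'⟩ := h9 δ ((1 - a) / 2) hδ hδ1 hδ' hδ'1
  have hd : 0 < 1 - δ := by linarith
  have hed : 0 < ε * (1 - δ) := mul_pos hε hd
  have ht : 0 < t := by linarith
  have hC9' : 0 ≤ C9 := by linarith
  have hC5' : 0 ≤ C5 := by linarith
  have hq : 0 < (1 - δ) ^ ((1 + a) / 2) := Real.rpow_pos_of_pos hd _
  obtain ⟨L0, hL0⟩ := Filter.eventually_atTop.mp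
    ((yka_ev (1 / (ε * (1 - δ))) (a + b) 1 hab (by positivity)).and
    ((yka_ev (3 * C9 / (ε * (1 - δ))) a 1 ha1 (by positivity)).and
    ((yka_ev (3 / (ε * (1 - δ))) g 1 hg1 (by positivity)).and
    ((yka_ev (3 / (ε * (1 - δ))) 0 1 one_pos (by positivity)).and
    ((yka_ev (6 * (C9 + C5)) a t hat (by positivity)).and
    ((yka_ev 6 g t hgt (by norm_num)).and
    ((yka_ev 6 0 t ht (by norm_num)).and
    ((ev_rpow (1 / (1 - δ) ^ ((1 + a) / 2)) a ((1 + a) / 2) (by linarith)).and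
    ((Filter.eventually_ge_atTop (2 : ℝ)).and
    ((Filter.eventually_ge_atTop (Real.log (max x0 1))).and
    ((Filter.eventually_ge_atTop (Real.log ((N0 : ℝ) + 1) / (1 - δ))).and
    (Filter.eventually_ge_atTop (Real.log 2 / δ)))))))))))))
  refine ⟨L0, fun L hL hzero k hk1 hka => ?_⟩
  obtain ⟨e1, e2, e3, e4, e5, e6, e7, e8, e9, e10, e11, e12⟩ := hL0 L hL
  have hLpos : 0 < L := by linarith
  have hL1 : 1 ≤ L := by linarith
  set x := Real.exp L with hx
  have hxpos : 0 < x := Real.exp_pos _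
  have hlogx : Real.log x = L := Real.log_exp L
  set N := ⌊x ^ (1 - δ)⌋₊ + 1 with hN
  have hxd : x ^ (1 - δ) = Real.exp ((1 - δ) * L) := by
    rw [hx, ← Real.exp_mul]
    ring_nf
  have hNgt : Real.exp ((1 - δ) * L) < N := by
    rw [← hxd, hN]
    push_cast
    exact Nat.lt_floor_add_one _
  have hNle : (N : ℝ) ≤ Real.exp ((1 - δ) * L) + 1 := by
    rw [← hxd, hN]
    push_cast
    have := Nat.floor_le (show 0 ≤ x ^ (1 - δ) by positivity)
    linarith
  have hN0 : (0 : ℝ) < N := lt_trans (Real.exp_pos _) hNgt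
  have hNx : (N : ℝ) ≤ x := by
    have h1 : Real.log 2 ≤ δ * L := by
      have := mul_le_mul_of_nonneg_left e12 hδ.le
      rwa [mul_div_cancel₀ _ hδ.ne'] at this
    have h2 : 2 ≤ Real.exp (δ * L) := by
      rw [← Real.log_le_iff_le_exp (by norm_num)]
      exact h1
    have h3 : x = Real.exp ((1 - δ) * L) * Real.exp (δ * L) := by
      rw [hx, ← Real.exp_add]
      ring_nf
    have h4 : 1 ≤ Real.exp ((1 - δ) * L) := Real.one_le_exp (by positivity)
    have h5 := mul_le_mul_of_nonneg_left h2 (show 0 ≤ Real.exp ((1 - δ) * L) by positivity)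
    rw [← h3] at h5
    linarith
  set l := Real.log N with hl
  have hl1 : (1 - δ) * L ≤ l := by
    rw [hl, Real.le_log_iff_exp_le hN0]
    exact hNgt.le
  have hl2 : l ≤ L := by
    rw [hl, ← hlogx]
    exact Real.log_le_log hN0 hNx
  have hl0 : 0 < l := lt_of_lt_of_le (by positivity) hl1
  have hN0N : N0 ≤ N := by
    have h1 : Real.log ((N0 : ℝ) + 1) ≤ (1 - δ) * L := by
      have := mul_le_mul_of_nonneg_left e11 hd.le
      rwa [mul_div_cancel₀ _ hd.ne'] at this
    have h2 : (N0 : ℝ) + 1 ≤ Real.exp ((1 - δ) * L) := by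
      rw [← Real.log_le_iff_le_exp (by positivity)]
      exact h1
    have h3 : (N0 : ℝ) ≤ N := by linarith
    exact_mod_cast h3
  have hx0 : x0 ≤ x := by
    have h1 : max x0 1 ≤ x := by
      rw [hx, ← Real.log_le_iff_le_exp (by positivity)]
      exact e10
    exact (le_max_left _ _).trans h1
  -- the range of `k`
  have hkl : (k : ℝ) ≤ l ^ (1 - (1 - a) / 2) := by
    have h1 : 1 - (1 - a) / 2 = (1 + a) / 2 := by ring
    rw [h1]
    have h2 : ((1 - δ) * L) ^ ((1 + a) / 2) ≤ l ^ ((1 + a) / 2) :=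
      Real.rpow_le_rpow (by positivity) hl1 (by linarith)
    rw [Real.mul_rpow hd.le hLpos.le] at h2
    have h3 : L ^ a ≤ (1 - δ) ^ ((1 + a) / 2) * L ^ ((1 + a) / 2) := by
      have := mul_le_mul_of_nonneg_left e8 hq.le
      rwa [← mul_assoc, mul_one_div_cancel hq.ne', one_mul] at this
    linarith
  -- the double logarithm
  set ll := Real.log (2 * L) with hll
  have hll1 : 1 ≤ ll := by
    rw [hll, Real.le_log_iff_exp_le (by positivity)]
    have := Real.exp_one_lt_d9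
    linarith
  have hllsq : ll ≤ ll ^ 2 := by nlinarith
  have hlogL : Real.log L ≤ ll := Real.log_le_log hLpos (by linarith)
  have hlogL0 : 0 ≤ Real.log L := Real.log_nonneg hL1
  have hLa : 1 ≤ L ^ a := Real.one_le_rpow hL1 ha.le
  have hLaL : L ^ a ≤ L := by
    calc L ^ a ≤ L ^ (1 : ℝ) := Real.rpow_le_rpow_of_exponent_le hL1 ha1.le
      _ = L := Real.rpow_one L
  have hk1' : (1 : ℝ) ≤ k := by exact_mod_cast hk1
  set lk := Real.log ((k : ℝ) + 1) with hlk
  have hlk0 : 0 < lk := Real.log_pos (by linarith)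
  have hlkll : lk ≤ ll := Real.log_le_log (by linarith) (by linarith)
  have hratio : ε * (1 - δ) * L / ll ≤ ε * (l / lk) := by
    have h1 : (1 - δ) * L / ll ≤ l / lk := div_le_div₀ hl0.le hl1 hlk0 hlkll
    have h2 := mul_le_mul_of_nonneg_left h1 hε.le
    refine le_trans (le_of_eq ?_) h2
    ring
  have hcl : ∀ c y z : ℝ, c / (ε * (1 - δ)) * y * z ≤ L ^ (1 : ℝ) → c * y * z ≤ ε * (1 - δ) * L := by
    intro c y z h
    rw [Real.rpow_one] at h
    have h1 := mul_le_mul_of_nonneg_left h hed.le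
    have h2 : ε * (1 - δ) * (c / (ε * (1 - δ)) * y * z) = c * y * z := by
      field_simp
    rwa [h2] at h1
  -- the condition on the zeros
  have hv : Real.log (1 / Real.exp (-L ^ b)) = L ^ b := by
    rw [one_div, ← Real.exp_neg, neg_neg, Real.log_exp]
  have hkv : (k : ℝ) * Real.log (1 / Real.exp (-L ^ b)) ≤ ε * (l / lk) := by
    rw [hv]
    refine le_trans ?_ hratio
    rw [le_div_iff₀ (by linarith)]
    have h1 := hcl 1 _ _ e1
    have h2 : (k : ℝ) * L ^ b ≤ L ^ (a + b) := by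
      rw [Real.rpow_add hLpos]
      exact mul_le_mul_of_nonneg_right hka (by positivity)
    calc (k : ℝ) * L ^ b * ll ≤ L ^ (a + b) * ll := mul_le_mul_of_nonneg_right h2 (by linarith)
      _ ≤ L ^ (a + b) * ll ^ 2 := mul_le_mul_of_nonneg_left hllsq (by positivity)
      _ ≤ _ := by rwa [one_mul] at h1
  have hrho : 1 ≤ Real.exp (L ^ t) := Real.one_le_exp (by positivity)
  obtain ⟨X, Bad, hX1, hX2, hG, hcard⟩ := h5 N k (Real.exp (L ^ t)) (Real.exp (-L ^ b)) hN0N hk1 hkl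
    hrho (Real.exp_pos _) (by
      rw [Real.exp_le_one_iff]
      have : 0 ≤ L ^ b := by positivity
      linarith) hkv hzero
  set σ := Real.exp (-(ε * (l / lk))) + l ^ (C5 * k) * (Real.exp (L ^ t)) ^ (-(1 / 2) : ℝ) with hσ
  have hσ0 : 0 ≤ σ := by rw [hσ]; positivity
  have hmain := h9' x k hx0 hk1 hkl X Bad σ hX1 hX2 hG hcard hσ0
  refine hmain.trans (mul_le_mul_of_nonneg_right ?_ (Nat.cast_nonneg _))
  rw [hlogx]
  have hLpow : ∀ c : ℝ, L ^ (c * k) = Real.exp (c * k * Real.log L) := by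
    intro c
    rw [Real.rpow_def_of_pos hLpos]
    ring_nf
  have hklog : ∀ c : ℝ, 0 ≤ c → c * k * Real.log L ≤ c * L ^ a * ll := by
    intro c hc
    calc c * k * Real.log L ≤ c * L ^ a * Real.log L :=
          mul_le_mul_of_nonneg_right (mul_le_mul_of_nonneg_left hka hc) hlogL0
      _ ≤ c * L ^ a * ll := mul_le_mul_of_nonneg_left hlogL (by positivity)
  have hLg : 0 ≤ L ^ g := by positivity
  -- first term
  have hT1 : L ^ (C9 * k) * Real.exp (-(ε * (l / lk))) ≤ Real.exp (-L ^ g - 1) := by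
    rw [hLpow, ← Real.exp_add]
    apply Real.exp_le_exp.2
    have h1 := hcl _ _ _ e2
    have h2 := hcl _ _ _ e3
    have h3 := hcl _ _ _ e4
    rw [Real.rpow_zero, mul_one] at h3
    have h4 : (C9 * L ^ a * ll + L ^ g + 1) * ll ≤ ε * (1 - δ) * L := by
      have a2 : L ^ g * ll ≤ L ^ g * ll ^ 2 := mul_le_mul_of_nonneg_left hllsq hLg
      have a3 : (C9 * L ^ a * ll) * ll = C9 * L ^ a * ll ^ 2 := by ring
      have a4 : (C9 * L ^ a * ll + L ^ g + 1) * ll = (C9 * L ^ a * ll) * ll + L ^ g * ll + ll := by ring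
      rw [a4, a3]
      linarith
    have h5 : C9 * L ^ a * ll + L ^ g + 1 ≤ ε * (1 - δ) * L / ll := by
      rw [le_div_iff₀ (by linarith)]
      exact h4
    have h6 := hklog C9 hC9'
    linarith
  -- second term
  have hT2 : L ^ (C9 * k) * (l ^ (C5 * k) * (Real.exp (L ^ t)) ^ (-(1 / 2) : ℝ)) ≤
      Real.exp (-L ^ g - 1) := by
    have h1 : l ^ (C5 * k) ≤ L ^ (C5 * k) := Real.rpow_le_rpow hl0.le hl2 (by positivity)
    have h2 : (Real.exp (L ^ t)) ^ (-(1 / 2) : ℝ) = Real.exp (-(L ^ t / 2)) := by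
      rw [← Real.exp_mul]
      ring_nf
    rw [h2]
    have h3 : L ^ (C9 * k) * (l ^ (C5 * k) * Real.exp (-(L ^ t / 2))) ≤
        L ^ (C9 * k) * (L ^ (C5 * k) * Real.exp (-(L ^ t / 2))) :=
      mul_le_mul_of_nonneg_left (mul_le_mul_of_nonneg_right h1 (Real.exp_pos _).le) (by positivity)
    refine h3.trans ?_
    rw [hLpow, hLpow, ← Real.exp_add, ← Real.exp_add]
    apply Real.exp_le_exp.2
    have h6 := hklog C9 hC9'
    have h7 := hklog C5 hC5'
    have a1 : 6 * (C9 + C5) * L ^ a * ll ≤ 6 * (C9 + C5) * L ^ a * ll ^ 2 :=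
      mul_le_mul_of_nonneg_left hllsq (by positivity)
    have a2 : L ^ g ≤ L ^ g * ll ^ 2 := by
      have : 1 ≤ ll ^ 2 := hll1.trans hllsq
      exact le_mul_of_one_le_right hLg this
    have a3 : 1 ≤ ll ^ 2 := hll1.trans hllsq
    rw [Real.rpow_zero, mul_one] at e7
    have a4 : 6 * (C9 + C5) * L ^ a * ll = 6 * (C9 * L ^ a * ll) + 6 * (C5 * L ^ a * ll) := by ring
    have a5 : 6 * L ^ g * ll ^ 2 = 6 * (L ^ g * ll ^ 2) := by ring
    rw [a4] at a1
    rw [a5] at e6
    linarith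
  have h2e : Real.exp (-L ^ g - 1) + Real.exp (-L ^ g - 1) ≤ Real.exp (-L ^ g) := by
    have h1 : Real.exp (-L ^ g) = Real.exp 1 * Real.exp (-L ^ g - 1) := by
      rw [← Real.exp_add]
      ring_nf
    have h2 : 2 ≤ Real.exp 1 := by linarith [Real.add_one_le_exp (1 : ℝ)]
    rw [h1]
    have := mul_le_mul_of_nonneg_right h2 (Real.exp_pos (-L ^ g - 1)).le
    linarith
  rw [hσ, mul_add]
  linarith

end Pool.Agent.Lib.H59P
end

-- from Lib.H59P.YK
section

/-!
# Project H59P, chunk YK: forward direction of the equivalence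
-/

open Finset

namespace Pool.Agent.Lib.H59P

open Pool.Agent.Lib.H68T Pool.Agent.Lib.H18Q

/-- **YK.** Proof. As `forwardK` (`H51D/VTH.lean`): `t = κ - δ/4`, `a = κ - δ`, `g = κ - δ/2`, `b = t (1/κ - 1 + ε')` with
`ε'` small; `a + b < 1`. The zeros with `r ≥ r₀(ε')` by `NoSiegelK`, those with `r < r₀` by
`zero_elementary`. (`g ≤ κ - δ/2 < t`, `g < 1`.) -/
theorem YK (hF : FMain) (hT : TMain) (hA : AMain) (c0 : ℝ) (hc0 : 0 ≤ c0) (hlow : TLow c0)
    (hC : TCount) (κ : ℝ) (hκ : 0 < κ) (hκ1 : κ ≤ 1) (h : NoSiegelK κ) :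
    ∀ δ : ℝ, 0 < δ → δ < κ → ∃ x0 : ℝ, ∀ x : ℝ, x0 ≤ x → ∀ k : ℕ, 1 ≤ k →
      (k : ℝ) ≤ (Real.log x) ^ (κ - δ) →
      ((bad x δ k).card : ℝ) ≤ Real.exp (-(Real.log x) ^ (κ - δ / 2)) * ((adm x δ k).card : ℝ) := by
  intro δ hδ hδκ
  obtain ⟨c, hc, hz⟩ := zero_elementary
  obtain ⟨r₀, hr₀⟩ := h (δ / 2) (by linarith)
  set q := 1 / κ with hq
  have hqκ : q * κ = 1 := by rw [hq]; field_simp
  have hq1 : 1 ≤ q := by
    rw [hq, le_div_iff₀ hκ]; linarith
  set γ := q - 1 + δ / 2 with hγ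
  have hγ0 : 0 < γ := by rw [hγ]; linarith
  set t := κ - δ / 4 with ht
  have ht0 : 0 < t := by rw [ht]; linarith
  set b := t * γ with hb
  have hb0 : 0 < b := mul_pos ht0 hγ0
  have hb1 : b = 1 - κ + κ * δ / 2 - δ * q / 4 + δ / 4 - δ ^ 2 / 8 := by
    rw [hb, ht, hγ]
    linear_combination hqκ
  have hκb : κ - δ + b < 1 := by
    rw [hb1]
    have h1 : κ * δ ≤ 1 * δ := mul_le_mul_of_nonneg_right hκ1 hδ.le
    have h2 : δ * 1 ≤ δ * q := mul_le_mul_of_nonneg_left hq1 hδ.le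
    have h3 : 0 ≤ δ ^ 2 := sq_nonneg δ
    linarith
  obtain ⟨L₀, hcore⟩ := YKa hF hT hA c0 hc0 hlow hC δ (κ - δ) t b (κ - δ / 2) hδ
    (by linarith) (by linarith) (by rw [ht]; linarith) hb0 hκb (by rw [ht]; linarith)
    (by linarith) (by linarith)
  obtain ⟨L₁, hL₁⟩ := Filter.eventually_atTop.mp
    (ev_rpow (|Real.log c| + 2 * Real.log (r₀ + 1)) 0 b hb0)
  refine ⟨Real.exp (max (max L₀ L₁) 1), fun x hx k hk1 hk => ?_⟩
  have hx0 : 0 < x := lt_of_lt_of_le (Real.exp_pos _) hx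
  set L := Real.log x with hL
  have hLx : x = Real.exp L := (Real.exp_log hx0).symm
  have hLge : max (max L₀ L₁) 1 ≤ L := by
    rw [hL, Real.le_log_iff_exp_le hx0]; exact hx
  have hLL₀ : L₀ ≤ L := (le_max_left _ _).trans ((le_max_left _ _).trans hLge)
  have hLL₁ : L₁ ≤ L := (le_max_right _ _).trans ((le_max_left _ _).trans hLge)
  have hL1 : 1 ≤ L := (le_max_right _ _).trans hLge
  have hL0 : 0 < L := by linarith
  have e1 := hL₁ L hLL₁
  rw [Real.rpow_zero, mul_one] at e1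
  have h := hcore L hLL₀ ?_ k hk1 hk
  · rw [hLx]
    exact h
  · intro r hr ψ hrL hprim hψ hψ2 β hβ hzero
    have hrpos : (1:ℝ) ≤ r := by
      have := Nat.pos_of_ne_zero (NeZero.ne r)
      exact_mod_cast this
    rcases le_or_gt r₀ r with hrr | hrr
    · by_contra hcon
      push Not at hcon
      refine hr₀ r hrr ψ hprim hψ hψ2 β ?_ hβ.le hzero
      have hlr : 0 ≤ Real.log r := Real.log_nonneg hrpos
      have h1 : (Real.log r) ^ γ ≤ L ^ b := by
        have h1a : Real.log r ≤ L ^ t := by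
          rw [Real.log_le_iff_le_exp (by linarith)]; exact hrL
        calc (Real.log r) ^ γ ≤ (L ^ t) ^ γ := Real.rpow_le_rpow hlr h1a hγ0.le
          _ = L ^ b := by rw [hb, Real.rpow_mul hL0.le]
      have h2 : Real.exp (-L ^ b) ≤ Real.exp (-(Real.log r) ^ γ) :=
        Real.exp_le_exp.mpr (by linarith)
      linarith
    · refine le_trans ?_ (hz r ψ hψ hψ2 β hβ hzero)
      rw [le_div_iff₀ (by positivity)]
      have hc1 : Real.exp (-|Real.log c|) ≤ c := by
        calc Real.exp (-|Real.log c|) ≤ Real.exp (Real.log c) :=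
              Real.exp_le_exp.mpr (neg_abs_le _)
          _ = c := Real.exp_log hc
      refine le_trans ?_ hc1
      have hr1 : (r : ℝ) ≤ r₀ + 1 := by
        have : r ≤ r₀ + 1 := by omega
        exact_mod_cast this
      have hr0pos : (0:ℝ) < r₀ + 1 := by positivity
      calc Real.exp (-L ^ b) * (r : ℝ) ^ 2
          ≤ Real.exp (-L ^ b) * (Real.exp (Real.log (r₀ + 1))) ^ 2 := by
            apply mul_le_mul_of_nonneg_left _ (Real.exp_pos _).le
            rw [Real.exp_log hr0pos]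
            exact pow_le_pow_left₀ (by linarith) hr1 2
        _ = Real.exp (-L ^ b + 2 * Real.log (r₀ + 1)) := by
            rw [← Real.exp_nat_mul, ← Real.exp_add]; push_cast; ring_nf
        _ ≤ _ := by
            apply Real.exp_le_exp.mpr
            linarith

end Pool.Agent.Lib.H59P
end

-- from Lib.H59P.T4B
section

/-!
# Chunk T4B (M): exponential moment of `GG` over the injective tuples

* `T4B_one`: `a : Fin m → ℕ` with values `< M`, `x` runs over the elements of `range M` different from all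
  `a j`. If `m = 0` the sum is `M ≤ 2 exp 6 M`. Let `m ≥ 1`. By convexity of `exp` (Jensen, or AM-GM:
  `exp ((1/m) ∑_j y_j) ≤ (1/m) ∑_j exp y_j`, `convexOn_exp.map_sum_le`, `y_j = λ m F(|x - a_j|)`) the sum is
  at most `(1/m) ∑_j ∑_{x ∈ range M, x ≠ a_j} exp (λ m F(|x - a_j|))`. For fixed `j` the map `x ↦ |x - a_j|`
  has values in `Icc 1 M` and each value is taken at most twice, so the inner sum is at most
  `2 ∑_{n ∈ Icc 1 M} exp (λ m F n) ≤ 2 M exp 6` (`T4A_sum` with `λ m`). (`Fz ≥ 0` is not needed.)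
* `T4B_sum`: induction on `k`; `k = 0`: one tuple, `GG = 0`, both sides `1`. Step: the injective tuples of
  length `k + 1` are `Fin.snoc h x` with `h` injective and `x` not among the values of `h`
  (`Fin.snocEquiv`, `Fin.init`), the pairs `p.2 < p.1` of `Fin (k+1)` are those of `Fin k`
  (`Fin.castSucc`) and `(Fin.last k, j.castSucc)`, so
  `GG (snoc h x) = GG h + ∑_j Fz |x - h j|`. For fixed `h` the sum over `x` is bounded by `T4B_one`
  (`λ k w^(η-1) ≤ λ (k+1) w^(η-1) ≤ 1`), and the rest by the induction hypothesis.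
* `T4B_markov`: `#{...} exp (λ T) ≤ ∑ exp (λ GG)`.
-/

open Finset

namespace Pool.Agent.Lib.H59P

/-- The distances to `a` take every value at most twice. -/
theorem t4b_two (g : ℕ → ℝ) (hg : ∀ n, 0 ≤ g n) (M a : ℕ) (ha : a < M) (F : Finset ℕ)
    (hF : ∀ x ∈ F, x < M ∧ x ≠ a) :
    ∑ x ∈ F, g ((x : ℤ) - (a : ℤ)).natAbs ≤ 2 * ∑ n ∈ Icc 1 M, g n := by
  classical
  have key : ∀ F' : Finset ℕ, F' ⊆ F →
      Set.InjOn (fun x : ℕ => ((x : ℤ) - (a : ℤ)).natAbs) (F' : Set ℕ) →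
      ∑ x ∈ F', g ((x : ℤ) - (a : ℤ)).natAbs ≤ ∑ n ∈ Icc 1 M, g n := by
    intro F' hF' hinj
    rw [← Finset.sum_image (f := g) (g := fun x : ℕ => ((x : ℤ) - (a : ℤ)).natAbs) hinj]
    refine Finset.sum_le_sum_of_subset_of_nonneg ?_ fun n _ _ => hg n
    intro n hn
    obtain ⟨x, hx, rfl⟩ := mem_image.1 hn
    obtain ⟨h1, h2⟩ := hF x (hF' hx)
    rw [mem_Icc]
    omega
  rw [← Finset.sum_filter_add_sum_filter_not F (fun x => x < a), two_mul]
  refine add_le_add (key _ (Finset.filter_subset _ _) ?_) (key _ (Finset.filter_subset _ _) ?_)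
  · intro x hx y hy hxy
    have h1 := (mem_filter.1 (Finset.mem_coe.1 hx)).2
    have h2 := (mem_filter.1 (Finset.mem_coe.1 hy)).2
    have h3 : ((x : ℤ) - (a : ℤ)).natAbs = ((y : ℤ) - (a : ℤ)).natAbs := hxy
    omega
  · intro x hx y hy hxy
    have h1 := (mem_filter.1 (Finset.mem_coe.1 hx)).2
    have h2 := (mem_filter.1 (Finset.mem_coe.1 hy)).2
    have h3 : ((x : ℤ) - (a : ℤ)).natAbs = ((y : ℤ) - (a : ℤ)).natAbs := hxy
    omega

/-- Jensen. -/
theorem t4b_jensen {m : ℕ} (hm : 0 < m) (y : Fin m → ℝ) :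
    Real.exp (∑ j, y j) ≤ (m : ℝ)⁻¹ * ∑ j, Real.exp (m * y j) := by
  have hm' : (m : ℝ) ≠ 0 := by exact_mod_cast hm.ne'
  have h1 := convexOn_exp.map_sum_le (t := (univ : Finset (Fin m))) (w := fun _ => (m : ℝ)⁻¹)
    (p := fun j => m * y j) (fun _ _ => by positivity) (by
      rw [Finset.sum_const, Finset.card_univ, Fintype.card_fin, nsmul_eq_mul]
      exact mul_inv_cancel₀ hm') (fun _ _ => Set.mem_univ _)
  simp only [smul_eq_mul] at h1
  rw [Finset.mul_sum]
  refine le_trans (le_of_eq ?_) h1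
  congr 1
  refine Finset.sum_congr rfl fun j _ => ?_
  rw [inv_mul_cancel_left₀ hm']

theorem T4B_one (η w lam : ℝ) (hη : 0 < η) (hη2 : η ≤ 1 / 2) (hw : 1 ≤ w) (hlam : 0 ≤ lam) (m X M : ℕ)
    (hm : lam * m * w ^ (η - 1) ≤ 1) (a : Fin m → ℕ) (ha : ∀ j, a j < M) :
    ∑ x ∈ (range M).filter (fun x => ∀ j, x ≠ a j),
      Real.exp (lam * ∑ j, Fz η w X ((x : ℤ) - (a j : ℤ)).natAbs) ≤ 2 * Real.exp 6 * M := by
  have he6 : 1 ≤ Real.exp 6 := Real.one_le_exp (by norm_num)
  have hM0 : (0 : ℝ) ≤ M := Nat.cast_nonneg M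
  rcases Nat.eq_zero_or_pos m with rfl | hm0
  · have h1 : ∀ x ∈ (range M).filter (fun x => ∀ j, x ≠ a j),
        Real.exp (lam * ∑ j, Fz η w X ((x : ℤ) - (a j : ℤ)).natAbs) ≤ 1 := by
      intro x _
      simp
    refine (Finset.sum_le_sum h1).trans ?_
    rw [Finset.sum_const, nsmul_eq_mul, mul_one]
    have h2 : (((range M).filter (fun x => ∀ j, x ≠ a j)).card : ℝ) ≤ M := by
      have h3 := Finset.card_filter_le (range M) (fun x => ∀ j, x ≠ a j)
      rw [card_range] at h3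
      exact_mod_cast h3
    nlinarith
  have hm' : (0 : ℝ) < m := by exact_mod_cast hm0
  have h1 : ∀ x ∈ (range M).filter (fun x => ∀ j, x ≠ a j),
      Real.exp (lam * ∑ j, Fz η w X ((x : ℤ) - (a j : ℤ)).natAbs) ≤
      (m : ℝ)⁻¹ * ∑ j, Real.exp (lam * m * Fz η w X ((x : ℤ) - (a j : ℤ)).natAbs) := by
    intro x _
    rw [Finset.mul_sum]
    refine (t4b_jensen hm0 _).trans (le_of_eq ?_)
    congr 1
    refine Finset.sum_congr rfl fun j _ => ?_
    congr 1
    ring
  refine (Finset.sum_le_sum h1).trans ?_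
  rw [← Finset.mul_sum, Finset.sum_comm]
  have h2 : ∀ j ∈ (univ : Finset (Fin m)), ∑ x ∈ (range M).filter (fun x => ∀ j, x ≠ a j),
      Real.exp (lam * m * Fz η w X ((x : ℤ) - (a j : ℤ)).natAbs) ≤ 2 * (M * Real.exp 6) := by
    intro j _
    have h3 := t4b_two (fun n => Real.exp (lam * m * Fz η w X n)) (fun n => (Real.exp_pos _).le)
      M (a j) (ha j) ((range M).filter (fun x => ∀ j, x ≠ a j)) fun x hx => by
        obtain ⟨h4, h5⟩ := mem_filter.1 hx
        exact ⟨mem_range.1 h4, h5 j⟩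
    have h4 := T4A_sum η w (lam * m) hη hη2 hw (by positivity) hm X M
    exact h3.trans (mul_le_mul_of_nonneg_left h4 (by norm_num))
  have h3 := Finset.sum_le_sum h2
  rw [Finset.sum_const, Finset.card_univ, Fintype.card_fin, nsmul_eq_mul] at h3
  refine (mul_le_mul_of_nonneg_left h3 (inv_nonneg.2 hm'.le)).trans (le_of_eq ?_)
  rw [inv_mul_cancel_left₀ hm'.ne']
  ring

/-- The pairs of `Fin (k + 1)`. -/
theorem t4b_prs {k : ℕ} (f : Fin (k + 1) × Fin (k + 1) → ℝ) :
    ∑ p ∈ prs (k + 1), f p = ∑ i : Fin k, f (i.succ, 0) + ∑ p ∈ prs k, f (p.1.succ, p.2.succ) := by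
  unfold prs
  rw [Finset.sum_filter, Finset.sum_filter, Fintype.sum_prod_type, Fintype.sum_prod_type,
    Fin.sum_univ_succ]
  have h1 : ∑ j : Fin (k + 1), (if ((0 : Fin (k + 1)), j).2 < ((0 : Fin (k + 1)), j).1
      then f (0, j) else 0) = 0 := by
    refine Finset.sum_eq_zero fun j _ => if_neg ?_
    exact Fin.not_lt_zero j
  rw [h1, zero_add, ← Finset.sum_add_distrib]
  refine Finset.sum_congr rfl fun i _ => ?_
  rw [Fin.sum_univ_succ]
  simp only [Fin.succ_pos, if_true, Fin.succ_lt_succ_iff]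

theorem t4b_GG {k : ℕ} (η w : ℝ) (X x : ℕ) (h : Fin k → ℕ) :
    GG η w X (Fin.cons x h : Fin (k + 1) → ℕ) =
      ∑ j, Fz η w X ((x : ℤ) - (h j : ℤ)).natAbs + GG η w X h := by
  unfold GG
  rw [t4b_prs]
  simp only [Fin.cons_succ, Fin.cons_zero]
  congr 1
  refine Finset.sum_congr rfl fun j _ => ?_
  rw [← Int.natAbs_neg, neg_sub]

open Classical in
theorem T4B_sum (η w lam : ℝ) (hη : 0 < η) (hη2 : η ≤ 1 / 2) (hw : 1 ≤ w) (hlam : 0 ≤ lam) (k X M : ℕ)
    (hk : lam * k * w ^ (η - 1) ≤ 1) :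
    ∑ h ∈ (Fintype.piFinset (fun _ : Fin k => range M)).filter (fun h => Function.Injective h),
      Real.exp (lam * GG η w X h) ≤ (2 * Real.exp 6 * M) ^ k := by
  have hw0 : 0 < w := by linarith
  induction k with
  | zero =>
    have h1 : ∀ h : Fin 0 → ℕ, Real.exp (lam * GG η w X h) ≤ 1 := by
      intro h
      have h2 : GG η w X h = 0 := by
        unfold GG prs
        refine Finset.sum_eq_zero fun p _ => ?_
        exact p.1.elim0
      rw [h2, mul_zero, Real.exp_zero]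
    refine (Finset.sum_le_sum fun h _ => h1 h).trans ?_
    rw [Finset.sum_const, nsmul_eq_mul, mul_one, pow_zero]
    have h2 := Finset.card_filter_le (Fintype.piFinset (fun _ : Fin 0 => range M))
      (fun h => Function.Injective h)
    have h3 : (Fintype.piFinset (fun _ : Fin 0 => range M)).card = 1 := by simp
    rw [h3] at h2
    exact_mod_cast h2
  | succ k ih =>
    have hk' : lam * k * w ^ (η - 1) ≤ 1 := by
      refine le_trans ?_ hk
      refine mul_le_mul_of_nonneg_right ?_ (Real.rpow_nonneg hw0.le _)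
      push_cast
      nlinarith
    have h1 : ∑ h ∈ (Fintype.piFinset (fun _ : Fin (k + 1) => range M)).filter
          (fun h => Function.Injective h), Real.exp (lam * GG η w X h) =
        ∑ h ∈ (Fintype.piFinset (fun _ : Fin k => range M)).filter (fun h => Function.Injective h),
          ∑ x ∈ (range M).filter (fun x => ∀ j, x ≠ h j),
            Real.exp (lam * GG η w X (Fin.cons x h : Fin (k + 1) → ℕ)) := by
      rw [Finset.sum_sigma']
      refine Finset.sum_bij' (fun (h : Fin (k + 1) → ℕ) _ =>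
          (⟨Fin.tail h, h 0⟩ : (_ : Fin k → ℕ) × ℕ))
        (fun (p : (_ : Fin k → ℕ) × ℕ) _ => (Fin.cons p.2 p.1 : Fin (k + 1) → ℕ)) ?_ ?_ ?_ ?_ ?_
      · intro h hh
        obtain ⟨h2, h3⟩ := mem_filter.1 hh
        rw [Fintype.mem_piFinset] at h2
        rw [mem_sigma, mem_filter, mem_filter, Fintype.mem_piFinset]
        refine ⟨⟨fun j => h2 j.succ, fun i j hij => ?_⟩, h2 0, fun j hj => ?_⟩
        · exact Fin.succ_injective _ (h3 hij)
        · have h4 : h 0 = h j.succ := hj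
          exact (Fin.succ_ne_zero j) (h3 h4).symm
      · intro p hp
        rw [mem_sigma, mem_filter, mem_filter, Fintype.mem_piFinset] at hp
        obtain ⟨⟨h2, h3⟩, h4, h5⟩ := hp
        rw [mem_filter, Fintype.mem_piFinset]
        refine ⟨fun j => ?_, Fin.cons_injective_iff.2 ⟨?_, h3⟩⟩
        · refine Fin.cases ?_ (fun j => ?_) j
          · rw [Fin.cons_zero]
            exact h4
          · rw [Fin.cons_succ]
            exact h2 j
        · rintro ⟨j, hj⟩
          exact h5 j hj.symm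
      · intro h _
        exact Fin.cons_self_tail h
      · intro p _
        simp only [Fin.tail_cons, Fin.cons_zero]
      · intro h _
        simp only [Fin.cons_self_tail]
    rw [h1]
    have h2 : ∀ h ∈ (Fintype.piFinset (fun _ : Fin k => range M)).filter
        (fun h => Function.Injective h), ∑ x ∈ (range M).filter (fun x => ∀ j, x ≠ h j),
            Real.exp (lam * GG η w X (Fin.cons x h : Fin (k + 1) → ℕ)) ≤
        2 * Real.exp 6 * M * Real.exp (lam * GG η w X h) := by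
      intro h hh
      obtain ⟨h3, -⟩ := mem_filter.1 hh
      rw [Fintype.mem_piFinset] at h3
      have h4 := T4B_one η w lam hη hη2 hw hlam k X M hk' h fun j => mem_range.1 (h3 j)
      have h5 : ∀ x ∈ (range M).filter (fun x => ∀ j, x ≠ h j),
          Real.exp (lam * GG η w X (Fin.cons x h : Fin (k + 1) → ℕ)) =
          Real.exp (lam * ∑ j, Fz η w X ((x : ℤ) - (h j : ℤ)).natAbs) *
            Real.exp (lam * GG η w X h) := by
        intro x _
        rw [t4b_GG, mul_add, Real.exp_add]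
      rw [Finset.sum_congr rfl h5, ← Finset.sum_mul]
      exact mul_le_mul_of_nonneg_right h4 (Real.exp_pos _).le
    refine (Finset.sum_le_sum h2).trans ?_
    rw [← Finset.mul_sum, pow_succ, mul_comm _ (2 * Real.exp 6 * (M : ℝ))]
    exact mul_le_mul_of_nonneg_left (ih hk') (by positivity)

open Classical in
theorem T4B_markov (η w lam T : ℝ) (hη : 0 < η) (hη2 : η ≤ 1 / 2) (hw : 1 ≤ w) (hlam : 0 ≤ lam)
    (k X M : ℕ) (hk : lam * k * w ^ (η - 1) ≤ 1) :
    (((Fintype.piFinset (fun _ : Fin k => range M)).filter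
      (fun h => Function.Injective h ∧ T < GG η w X h)).card : ℝ) ≤
      (2 * Real.exp 6 * M) ^ k * Real.exp (-(lam * T)) := by
  have h1 := T4B_sum η w lam hη hη2 hw hlam k X M hk
  have h2 : (((Fintype.piFinset (fun _ : Fin k => range M)).filter
      (fun h => Function.Injective h ∧ T < GG η w X h)).card : ℝ) * Real.exp (lam * T) ≤
      ∑ h ∈ (Fintype.piFinset (fun _ : Fin k => range M)).filter (fun h => Function.Injective h),
        Real.exp (lam * GG η w X h) := by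
    rw [← nsmul_eq_mul, ← Finset.sum_const]
    refine le_trans (Finset.sum_le_sum (g := fun h => Real.exp (lam * GG η w X h)) ?_) ?_
    · intro h hh
      obtain ⟨-, -, h3⟩ := mem_filter.1 hh
      exact Real.exp_le_exp.2 (mul_le_mul_of_nonneg_left h3.le hlam)
    · refine Finset.sum_le_sum_of_subset_of_nonneg ?_ fun _ _ _ => (Real.exp_pos _).le
      intro h hh
      obtain ⟨h3, h4, -⟩ := mem_filter.1 hh
      exact mem_filter.2 ⟨h3, h4⟩
  rw [Real.exp_neg, ← div_eq_mul_inv, le_div_iff₀ (Real.exp_pos _)]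
  exact h2.trans h1

end Pool.Agent.Lib.H59P
end

-- from Lib.H59P.T5
section

/-!
# Chunk T5 (M): the Rankin product is controlled by the collisions at the large primes

* `T5_GG`: exchange the sums: `∑_{l ∈ pr X, l > w} col l h l^(η-1) = ∑_{p ∈ prs k} ∑_{l > w, l ∣ h p.1 - h p.2}
  l^(η-1)` (`(l : ℤ) ∣ z` iff `l ∣ z.natAbs`: `Int.natCast_dvd`).
* `T5_RP`. Split `pr X` at `w`. Primes `l ≤ w`: by `T2_abs`, with `B = (l/(l-1))^k ≥ 1`, `l^η ≥ 1`:
  `1 + l^η |tp| ≤ 2 l^η B ≤ 2 w B` (`l^η ≤ l ≤ w`), and `B ≤ exp (k/(l-1)) ≤ exp (2k/l)`. There are at most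
  `w` of them, and `∑_{l ≤ w} 1/l ≤ 1 + log w` (harmonic sum over all integers `1 ≤ l ≤ ⌊w⌋`:
  `harmonic_floor_le_one_add_log` or similar), so their product is at most
  `(2 w)^w exp (2k (1 + log w)) = exp (w (log 2 + log w) + 2k (1 + log w))`. Primes `l > w ≥ 2k`: by
  `T2_large`, `1 + l^η |tp| ≤ exp (l^η |tp|) ≤ exp (k^2 l^(η-2) + 3 col l h l^(η-1))`; sum over `l` with
  `T4A_int` and `T5_GG`.
-/

open Finset

namespace Pool.Agent.Lib.H59P

theorem T5_GG {k : ℕ} (η w : ℝ) (X : ℕ) (h : Fin k → ℕ) :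
    ∑ l ∈ (pr X).filter (fun l : ℕ => w < (l : ℝ)), (col l h : ℝ) * (l : ℝ) ^ (η - 1) = GG η w X h := by
  classical
  have h1 : ∀ l : ℕ, (col l h : ℝ) * (l : ℝ) ^ (η - 1) =
      ∑ p ∈ prs k, if l ∣ ((h p.1 : ℤ) - (h p.2 : ℤ)).natAbs then (l : ℝ) ^ (η - 1) else 0 := by
    intro l
    rw [← Finset.sum_filter, Finset.sum_const, nsmul_eq_mul, col]
    congr 3
    refine Finset.filter_congr fun p _ => ?_
    exact Int.natCast_dvd
  rw [Finset.sum_congr rfl fun l _ => h1 l, Finset.sum_comm, GG]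
  refine Finset.sum_congr rfl fun p _ => ?_
  rw [Fz, ← Finset.sum_filter, Finset.filter_filter]

/-- One factor, small primes. -/
theorem t5_small {k : ℕ} (η w : ℝ) (hη : 0 < η) (hη2 : η ≤ 1 / 2) (l : ℕ)
    (hl : l.Prime) (hlw : (l : ℝ) ≤ w) (h : Fin k → ℕ) :
    1 + (l : ℝ) ^ η * |tp l h| ≤ Real.exp (Real.log 2 + Real.log w + 2 * k * ((l : ℝ))⁻¹) := by
  have hl2 : (2 : ℝ) ≤ l := by exact_mod_cast hl.two_le
  have hl0 : (0 : ℝ) < l := by linarith
  have hl1 : (0 : ℝ) < (l : ℝ) - 1 := by linarith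
  have hw0 : 0 < w := by linarith
  have h1 := T2_abs l hl h
  set B := ((l : ℝ) / ((l : ℝ) - 1)) ^ k with hB
  have h2 : (l : ℝ) / ((l : ℝ) - 1) = 1 / ((l : ℝ) - 1) + 1 := by
    field_simp
    ring
  have hB1 : 1 ≤ B := by
    rw [hB, h2]
    refine one_le_pow₀ ?_
    have h3 : 0 ≤ 1 / ((l : ℝ) - 1) := by positivity
    linarith
  have hB2 : B ≤ Real.exp (2 * k * ((l : ℝ))⁻¹) := by
    have h3 : (l : ℝ) / ((l : ℝ) - 1) ≤ Real.exp (2 * ((l : ℝ))⁻¹) := by
      rw [h2]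
      refine (Real.add_one_le_exp _).trans (Real.exp_le_exp.2 ?_)
      rw [← div_eq_mul_inv, div_le_div_iff₀ hl1 hl0]
      linarith
    have h4 : B ≤ Real.exp (2 * ((l : ℝ))⁻¹) ^ k := pow_le_pow_left₀ (by positivity) h3 k
    refine h4.trans (le_of_eq ?_)
    rw [← Real.exp_nat_mul]
    congr 1
    ring
  have h5 : 1 ≤ (l : ℝ) ^ η := Real.one_le_rpow (by linarith) hη.le
  have h6 : (l : ℝ) ^ η ≤ w := by
    have h7 : (l : ℝ) ^ η ≤ (l : ℝ) ^ (1 : ℝ) :=
      Real.rpow_le_rpow_of_exponent_le (by linarith) (by linarith)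
    rw [Real.rpow_one] at h7
    linarith
  have h8 : (l : ℝ) ^ η * |tp l h| ≤ w * B := mul_le_mul h6 h1 (abs_nonneg _) hw0.le
  have h9 : 1 ≤ w * B := by nlinarith
  rw [Real.exp_add, Real.exp_add, Real.exp_log (by norm_num), Real.exp_log hw0]
  have h10 : 2 * w * B ≤ 2 * w * Real.exp (2 * k * ((l : ℝ))⁻¹) :=
    mul_le_mul_of_nonneg_left hB2 (by positivity)
  linarith

/-- One factor, large primes. -/
theorem t5_large {k : ℕ} (η : ℝ) (l : ℕ) (hl : l.Prime) (hk : 2 * k ≤ l) (h : Fin k → ℕ) :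
    1 + (l : ℝ) ^ η * |tp l h| ≤
      Real.exp ((k : ℝ) ^ 2 * (l : ℝ) ^ (η - 2) + 3 * ((col l h : ℝ) * (l : ℝ) ^ (η - 1))) := by
  have hl0 : (0 : ℝ) < l := by exact_mod_cast hl.pos
  have h1 := T2_large l hl h hk
  have h2 : (l : ℝ) ^ (η - 2) = (l : ℝ) ^ η / (l : ℝ) ^ 2 := by
    rw [Real.rpow_sub hl0]
    norm_num
  have h3 : (l : ℝ) ^ (η - 1) = (l : ℝ) ^ η / (l : ℝ) := by
    rw [Real.rpow_sub hl0, Real.rpow_one]
  have h4 : (l : ℝ) ^ η * |tp l h| ≤
      (k : ℝ) ^ 2 * (l : ℝ) ^ (η - 2) + 3 * ((col l h : ℝ) * (l : ℝ) ^ (η - 1)) := by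
    refine (mul_le_mul_of_nonneg_left h1 (Real.rpow_nonneg hl0.le _)).trans (le_of_eq ?_)
    rw [h2, h3]
    ring
  linarith [Real.add_one_le_exp ((k : ℝ) ^ 2 * (l : ℝ) ^ (η - 2) +
    3 * ((col l h : ℝ) * (l : ℝ) ^ (η - 1)))]

theorem T5_RP {k : ℕ} (η w : ℝ) (hη : 0 < η) (hη2 : η ≤ 1 / 2) (hw : 2 ≤ w) (hk : 2 * (k : ℝ) ≤ w)
    (X : ℕ) (h : Fin k → ℕ) :
    RP η X h ≤ Real.exp (w * (Real.log 2 + Real.log w) + 2 * k * (1 + Real.log w) +
      3 * (k : ℝ) ^ 2 * w ^ (η - 1) + 3 * GG η w X h) := by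
  classical
  have hw0 : 0 < w := by linarith
  have hlog2 : 0 ≤ Real.log 2 := Real.log_nonneg (by norm_num)
  have hlogw : 0 ≤ Real.log w := Real.log_nonneg (by linarith)
  have hlogc : 0 ≤ Real.log 2 + Real.log w := by linarith
  have h0 : RP η X h = (∏ l ∈ (pr X).filter (fun l : ℕ => w < (l : ℝ)), (1 + (l : ℝ) ^ η * |tp l h|)) *
      ∏ l ∈ (pr X).filter (fun l : ℕ => ¬ w < (l : ℝ)), (1 + (l : ℝ) ^ η * |tp l h|) := by
    rw [RP]
    exact (Finset.prod_filter_mul_prod_filter_not (pr X) (fun l : ℕ => w < (l : ℝ)) _).symm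
  have h1 : ∏ l ∈ (pr X).filter (fun l : ℕ => w < (l : ℝ)), (1 + (l : ℝ) ^ η * |tp l h|) ≤
      Real.exp (3 * (k : ℝ) ^ 2 * w ^ (η - 1) + 3 * GG η w X h) := by
    refine (Finset.prod_le_prod (fun l _ => by positivity) fun l hl => t5_large η l
      (mem_pr.1 (mem_filter.1 hl).1).2 ?_ h).trans ?_
    · have h2 := (mem_filter.1 hl).2
      have h3 : 2 * (k : ℝ) ≤ l := by linarith
      exact_mod_cast h3
    rw [← Real.exp_sum, Finset.sum_add_distrib, ← Finset.mul_sum, ← Finset.mul_sum, T5_GG]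
    refine Real.exp_le_exp.2 ?_
    have h4 := T4A_int η w hη hη2 (by linarith) X
    have h5 := mul_le_mul_of_nonneg_left h4 (by positivity : (0 : ℝ) ≤ (k : ℝ) ^ 2)
    linarith
  have h2 : ∏ l ∈ (pr X).filter (fun l : ℕ => ¬ w < (l : ℝ)), (1 + (l : ℝ) ^ η * |tp l h|) ≤
      Real.exp (w * (Real.log 2 + Real.log w) + 2 * k * (1 + Real.log w)) := by
    have hsub : (pr X).filter (fun l : ℕ => ¬ w < (l : ℝ)) ⊆ Icc 1 ⌊w⌋₊ := by
      intro l hl
      obtain ⟨h3, h4⟩ := mem_filter.1 hl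
      push Not at h4
      exact mem_Icc.2 ⟨(mem_pr.1 h3).2.one_lt.le, Nat.le_floor h4⟩
    have hcard : (((pr X).filter (fun l : ℕ => ¬ w < (l : ℝ))).card : ℝ) ≤ w := by
      have h3 := Finset.card_le_card hsub
      rw [Nat.card_Icc, Nat.add_sub_cancel] at h3
      have h4 : (((pr X).filter (fun l : ℕ => ¬ w < (l : ℝ))).card : ℝ) ≤ (⌊w⌋₊ : ℝ) := by
        exact_mod_cast h3
      exact h4.trans (Nat.floor_le hw0.le)
    have hharm : ∑ l ∈ (pr X).filter (fun l : ℕ => ¬ w < (l : ℝ)), ((l : ℝ))⁻¹ ≤ 1 + Real.log w := by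
      refine (Finset.sum_le_sum_of_subset_of_nonneg hsub fun l _ _ => by positivity).trans ?_
      have h3 := harmonic_floor_le_one_add_log w (by linarith)
      rw [harmonic_eq_sum_Icc] at h3
      push_cast at h3
      exact h3
    refine (Finset.prod_le_prod (fun l _ => by positivity) fun l hl => t5_small η w hη hη2 l
      (mem_pr.1 (mem_filter.1 hl).1).2 (not_lt.1 (mem_filter.1 hl).2) h).trans ?_
    rw [← Real.exp_sum, Finset.sum_add_distrib, Finset.sum_const, nsmul_eq_mul, ← Finset.mul_sum]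
    refine Real.exp_le_exp.2 ?_
    have h6 := mul_le_mul_of_nonneg_right hcard hlogc
    have h7 := mul_le_mul_of_nonneg_left hharm (by positivity : (0 : ℝ) ≤ 2 * (k : ℝ))
    linarith
  rw [h0]
  refine (mul_le_mul h1 h2 (Finset.prod_nonneg fun l _ => by positivity) (Real.exp_pos _).le).trans ?_
  rw [← Real.exp_add]
  refine Real.exp_le_exp.2 (le_of_eq ?_)
  ring

end Pool.Agent.Lib.H59P
end

-- from Lib.H59P.T6A
section

/-!
# Chunk T6A (M): the choice of the parameters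

Real inequalities. Put `L = log X`, `w = L^(1-δ/4)`, `η = δ/4`, `ε = δ/40`; `1 ≤ k ≤ L^(1-δ)`,
`log Q ≥ L^(1-δ/8)`, `log Q ≤ L`. For large `L`:
* `w ≥ 2`, `2 k ≤ w`: `2 L^(1-δ) ≤ L^(1-δ/4)`.
* `300 k w^(η-1) ≤ 300 L^((1-δ) - (1-δ/4)(1-δ/4)) = 300 L^(-δ/2 - δ^2/16) ≤ 1`.
* `w (log 2 + log w) + 2k (1 + log w) + 3 k^2 w^(η-1) ≤ (ε/60) log Q`: `log w ≤ log L`,
  `w (log 2 + log L) + 2 L^(1-δ) (1 + log L) + L^(1-δ) = o(L^(1-δ/8))` (`k^2 w^(η-1) ≤ k/300` by the item
  before).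
* `(2 exp 6)^k ≤ Q^ε`: `k log (2 exp 6) = k (log 2 + 6) ≤ 7 k ≤ ε log Q`.
* `k^2/X ≤ X^(-1/2) ≤ Q^(-2ε)`: `k^2 ≤ L^2 ≤ X^(1/2)`, and `Q ≤ X`, `2 ε ≤ 1/20`.
* `2 ≤ Q^ε`.
The lemmas `ev_rpow`, `ev_log` of `H68T/FINP.lean` (`H51D/VRB.lean` shows how they are used) give such
inequalities for large `L`; then take `X0 = ⌈exp L0⌉`.
-/

open Finset

namespace Pool.Agent.Lib.H59P

open Pool.Agent.Lib.H68T Filter in
theorem t6a_ev (δ : ℝ) (hδ : 0 < δ) (hδ1 : δ < 1) : ∀ᶠ L : ℝ in atTop,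
    1 ≤ L ∧ 2 ≤ L ^ (1 - δ / 4) ∧ 2 * L ^ (1 - δ) ≤ L ^ (1 - δ / 4) ∧
    300 * L ^ (-(δ / 2) - δ ^ 2 / 16) ≤ 1 ∧
    L ^ (1 - δ / 4) * (3 + 2 * Real.log L) ≤ δ / 40 / 60 * L ^ (1 - δ / 8) ∧
    7 * L ^ (1 - δ) ≤ δ / 40 * L ^ (1 - δ / 8) ∧
    2 * Real.log L ≤ 19 / 20 * L ∧ 1 ≤ δ / 40 * L ^ (1 - δ / 8) := by
  filter_upwards [eventually_ge_atTop (1 : ℝ), ev_rpow 2 0 (1 - δ / 4) (by linarith),
    ev_rpow 2 (1 - δ) (1 - δ / 4) (by linarith),
    ev_rpow 300 (-(δ / 2) - δ ^ 2 / 16) 0 (by nlinarith [sq_nonneg δ]),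
    ev_log 1 (1 : ℝ) one_pos, ev_log 4 (δ / 16) (by linarith), ev_rpow 6 0 (δ / 16) (by linarith),
    ev_rpow (2400 / δ) (1 - 3 * δ / 16) (1 - δ / 8) (by linarith),
    ev_rpow (280 / δ) (1 - δ) (1 - δ / 8) (by linarith), ev_log 4 1 one_pos,
    ev_rpow (40 / δ) 0 (1 - δ / 8) (by linarith)] with L h1 h2 h3 h4 h5 h6 h7 h8 h9 h10 h11
  have hL : 0 < L := by linarith
  rw [Real.rpow_zero] at h2 h4 h7 h11
  rw [Real.rpow_one] at h5 h10
  refine ⟨h1, by linarith, h3, h4, ?_, ?_, by linarith, ?_⟩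
  · have e1 : 3 + 2 * Real.log L ≤ L ^ (δ / 16) := by linarith
    have e2 : L ^ (1 - δ / 4) * (3 + 2 * Real.log L) ≤ L ^ (1 - 3 * δ / 16) := by
      calc L ^ (1 - δ / 4) * (3 + 2 * Real.log L) ≤ L ^ (1 - δ / 4) * L ^ (δ / 16) :=
            mul_le_mul_of_nonneg_left e1 (Real.rpow_nonneg hL.le _)
        _ = L ^ (1 - 3 * δ / 16) := by rw [← Real.rpow_add hL]; ring_nf
    refine e2.trans ?_
    have e3 := mul_le_mul_of_nonneg_left h8 (show 0 ≤ δ / 40 / 60 by positivity)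
    have e4 : δ / 40 / 60 * (2400 / δ * L ^ (1 - 3 * δ / 16)) = L ^ (1 - 3 * δ / 16) := by
      field_simp
      ring
    rw [e4] at e3
    exact e3
  · have e3 := mul_le_mul_of_nonneg_left h9 (show 0 ≤ δ / 40 by positivity)
    have e4 : δ / 40 * (280 / δ * L ^ (1 - δ)) = 7 * L ^ (1 - δ) := by
      field_simp
      ring
    rw [e4] at e3
    exact e3
  · have e3 := mul_le_mul_of_nonneg_left h11 (show 0 ≤ δ / 40 by positivity)
    have e4 : δ / 40 * (40 / δ * 1) = 1 := by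
      field_simp
    rw [e4] at e3
    exact e3

theorem T6A (δ : ℝ) (hδ : 0 < δ) (hδ1 : δ < 1) : ∃ X0 : ℕ, ∀ (k Q X : ℕ), X0 ≤ X → 1 ≤ k →
    (k : ℝ) ≤ (Real.log X) ^ (1 - δ) → (Real.log X) ^ (1 - δ / 8) ≤ Real.log Q → Q ≤ X →
    ∀ w : ℝ, w = (Real.log X) ^ (1 - δ / 4) →
    2 ≤ w ∧ 2 * (k : ℝ) ≤ w ∧ 300 * (k : ℝ) * w ^ (δ / 4 - 1) ≤ 1 ∧
    w * (Real.log 2 + Real.log w) + 2 * k * (1 + Real.log w) + 3 * (k : ℝ) ^ 2 * w ^ (δ / 4 - 1) ≤
      δ / 40 / 60 * Real.log Q ∧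
    (2 * Real.exp 6) ^ k ≤ (Q : ℝ) ^ (δ / 40) ∧
    (k : ℝ) ^ 2 / X ≤ (Q : ℝ) ^ (-(2 * (δ / 40))) ∧
    2 ≤ (Q : ℝ) ^ (δ / 40) ∧ 1 ≤ Q := by
  obtain ⟨L0, hL0⟩ := Filter.eventually_atTop.mp (t6a_ev δ hδ hδ1)
  refine ⟨⌈Real.exp L0⌉₊, fun k Q X hX hk hkL hQL hQX w hw => ?_⟩
  have hXe : Real.exp L0 ≤ (X : ℝ) := (Nat.le_ceil _).trans (by exact_mod_cast hX)
  have hXpos : (0 : ℝ) < X := (Real.exp_pos _).trans_le hXe
  have hLL : L0 ≤ Real.log X := by
    rw [Real.le_log_iff_exp_le hXpos]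
    exact hXe
  obtain ⟨h1, h2, h3, h4, h5, h6, h7, h8⟩ := hL0 (Real.log X) hLL
  set L := Real.log X with hLdef
  have hL : 0 < L := by linarith
  have hk1 : (1 : ℝ) ≤ k := by exact_mod_cast hk
  have hlogQ : 0 < Real.log Q := (Real.rpow_pos_of_pos hL _).trans_le hQL
  have hQ1 : 1 ≤ Q := by
    rcases Nat.eq_zero_or_pos Q with h | h
    · rw [h] at hlogQ
      simp at hlogQ
    · exact h
  have hQpos : (0 : ℝ) < Q := by exact_mod_cast hQ1
  have hQLle : Real.log Q ≤ L := Real.log_le_log hQpos (by exact_mod_cast hQX)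
  have hwpos : 0 < w := by rw [hw]; exact Real.rpow_pos_of_pos hL _
  have hw2 : 2 ≤ w := by rw [hw]; exact h2
  have hkw : 2 * (k : ℝ) ≤ w := by
    rw [hw]
    linarith
  have hwL : w ≤ L := by
    rw [hw]
    calc L ^ (1 - δ / 4) ≤ L ^ (1 : ℝ) := Real.rpow_le_rpow_of_exponent_le h1 (by linarith)
      _ = L := Real.rpow_one _
  have hlw : Real.log w ≤ Real.log L := Real.log_le_log hwpos hwL
  have hlw0 : 0 ≤ Real.log w := Real.log_nonneg (by linarith)
  have hwp : 0 < w ^ (δ / 4 - 1) := Real.rpow_pos_of_pos hwpos _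
  have h300 : 300 * (k : ℝ) * w ^ (δ / 4 - 1) ≤ 1 := by
    have e1 : w ^ (δ / 4 - 1) = L ^ (-(1 - δ / 4) ^ 2) := by
      rw [hw, ← Real.rpow_mul hL.le]
      congr 1
      ring
    have e2 : 300 * (k : ℝ) * w ^ (δ / 4 - 1) ≤ 300 * L ^ (1 - δ) * w ^ (δ / 4 - 1) := by
      apply mul_le_mul_of_nonneg_right _ hwp.le
      linarith
    refine e2.trans ?_
    rw [e1, mul_assoc, ← Real.rpow_add hL]
    refine le_trans (le_of_eq ?_) h4
    congr 2
    ring
  have hmain : w * (Real.log 2 + Real.log w) + 2 * k * (1 + Real.log w) +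
      3 * (k : ℝ) ^ 2 * w ^ (δ / 4 - 1) ≤ w * (3 + 2 * Real.log L) := by
    have hlog2 : Real.log 2 ≤ 1 := by
      have := Real.log_two_lt_d9
      linarith
    have a1 : w * (Real.log 2 + Real.log w) ≤ w * (1 + Real.log L) :=
      mul_le_mul_of_nonneg_left (by linarith) hwpos.le
    have a2 : 2 * (k : ℝ) * (1 + Real.log w) ≤ w * (1 + Real.log L) :=
      mul_le_mul hkw (by linarith) (by linarith) hwpos.le
    have a3 : 3 * (k : ℝ) ^ 2 * w ^ (δ / 4 - 1) ≤ w := by
      have : 3 * (k : ℝ) ^ 2 * w ^ (δ / 4 - 1) = (300 * k * w ^ (δ / 4 - 1)) * (k / 100) := by ring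
      rw [this]
      have b1 : (300 * k * w ^ (δ / 4 - 1)) * (k / 100 : ℝ) ≤ 1 * (k / 100) :=
        mul_le_mul_of_nonneg_right h300 (by positivity)
      linarith
    nlinarith
  refine ⟨hw2, hkw, h300, ?_, ?_, ?_, ?_, hQ1⟩
  · refine hmain.trans ?_
    rw [hw]
    refine h5.trans ?_
    exact mul_le_mul_of_nonneg_left hQL (by positivity)
  · have e1 : (2 * Real.exp 6) ^ k = Real.exp (k * (Real.log 2 + 6)) := by
      have : (2 : ℝ) * Real.exp 6 = Real.exp (Real.log 2 + 6) := by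
        rw [Real.exp_add, Real.exp_log (by norm_num)]
      rw [this, ← Real.exp_nat_mul]
    rw [e1, Real.rpow_def_of_pos hQpos]
    apply Real.exp_le_exp.mpr
    have hlog2 : Real.log 2 ≤ 1 := by
      have := Real.log_two_lt_d9
      linarith
    have e2 : (k : ℝ) * (Real.log 2 + 6) ≤ 7 * L ^ (1 - δ) := by
      have : (k : ℝ) * (Real.log 2 + 6) ≤ k * 7 :=
        mul_le_mul_of_nonneg_left (by linarith) (by linarith)
      linarith
    have e3 : δ / 40 * L ^ (1 - δ / 8) ≤ δ / 40 * Real.log Q :=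
      mul_le_mul_of_nonneg_left hQL (by positivity)
    linarith
  · rw [div_le_iff₀ hXpos]
    have hkL2 : (k : ℝ) ≤ L := by
      refine hkL.trans ?_
      calc L ^ (1 - δ) ≤ L ^ (1 : ℝ) := Real.rpow_le_rpow_of_exponent_le h1 (by linarith)
        _ = L := Real.rpow_one _
    have e1 : (k : ℝ) ^ 2 ≤ Real.exp (2 * Real.log L) := by
      have : Real.exp (2 * Real.log L) = L ^ 2 := by
        rw [two_mul, Real.exp_add, Real.exp_log hL]
        ring
      rw [this]
      exact pow_le_pow_left₀ (by linarith) hkL2 2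
    have e2 : (Q : ℝ) ^ (-(2 * (δ / 40))) * X = Real.exp (L - δ / 20 * Real.log Q) := by
      have hXL : (X : ℝ) = Real.exp L := by rw [hLdef, Real.exp_log hXpos]
      rw [Real.rpow_def_of_pos hQpos, hXL, ← Real.exp_add]
      congr 1
      ring
    rw [e2]
    refine e1.trans (Real.exp_le_exp.mpr ?_)
    have e3 : δ / 20 * Real.log Q ≤ 1 / 20 * L :=
      mul_le_mul (by linarith) hQLle hlogQ.le (by norm_num)
    linarith
  · have hlog2 : Real.log 2 ≤ 1 := by
      have := Real.log_two_lt_d9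
      linarith
    have e3 : δ / 40 * L ^ (1 - δ / 8) ≤ δ / 40 * Real.log Q :=
      mul_le_mul_of_nonneg_left hQL (by positivity)
    rw [Real.rpow_def_of_pos hQpos]
    calc (2 : ℝ) = Real.exp (Real.log 2) := (Real.exp_log (by norm_num)).symm
      _ ≤ _ := Real.exp_le_exp.mpr (by linarith)

end Pool.Agent.Lib.H59P
end

-- from Lib.H59P.T6
section

/-!
# Chunk T6 (M): truncation of the singular series outside of a small set (`TMain`)

`ε = δ/40`, `η = δ/4`, `w = (log X)^(1-δ/4)`, `X0` from `T6A`. Let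
`Bad = {h ∈ bx k X : h not injective} ∪ {h ∈ bx k X injective : (ε/100) log Q < GG η w Q h}`.

* Size: the non-injective `h`: for some `j < i` the value `h i` is `h j`: at most `k^2 X^(k-1)`, which is
  `X^k k^2/X ≤ X^k Q^(-2ε)`. The others: `T4B_markov` with `lam = 300`, `M = X` and the parameter `X` there
  equal to `Q`, `T = (ε/100) log Q`: at most `(2 exp 6)^k X^k exp (-3 ε log Q) ≤ X^k Q^(ε - 3ε)`. Sum:
  `2 X^k Q^(-2ε) ≤ X^k Q^(-ε)`.
* `h ∉ Bad`: `RP η Q h ≤ exp ((ε/60) log Q + 3 (ε/100) log Q) ≤ Q^(ε/20)` (`T5_RP` with `Q` for `X`;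
  `1/60 + 3/100 < 1/20`).
* `T3_diff` with `Q` for `X` and for `z`, `E0 = Q^(1/5)` (`≤ Q` as `Q ≥ 1`): the difference is at most
  `Q^(-η/5) Q^(ε/20) = Q^(-δ/20 + δ/800) ≤ Q^(-δ/40)`.
-/

open Finset

namespace Pool.Agent.Lib.H59P

theorem t6_pair {k : ℕ} (X : ℕ) (i j : Fin k) (hij : i ≠ j) :
    ((bx k X).filter (fun h => h i = h j)).card * X ≤ X ^ k := by
  have h1 : (bx k X).card = X ^ k := by
    unfold bx
    rw [Fintype.card_piFinset]
    simp
  have h2 : (((bx k X).filter (fun h => h i = h j)) ×ˢ range X).card =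
      ((bx k X).filter (fun h => h i = h j)).card * X := by
    rw [card_product, card_range]
  rw [← h2, ← h1]
  refine Finset.card_le_card_of_injOn (fun p => Function.update p.1 i p.2) ?_ ?_
  · rintro ⟨h, x⟩ hp
    have hp' := mem_product.1 (mem_coe.1 hp)
    have hh := (mem_filter.1 hp'.1).1
    have hx := hp'.2
    show Function.update h i x ∈ bx k X
    unfold bx at hh ⊢
    rw [Fintype.mem_piFinset] at hh ⊢
    intro l
    by_cases hl : l = i
    · rw [hl, Function.update_self]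
      exact hx
    · rw [Function.update_of_ne hl]
      exact hh l
  · rintro ⟨h, x⟩ hp ⟨h', x'⟩ hp' heq
    have hp1 := (mem_filter.1 (mem_product.1 (mem_coe.1 hp)).1).2
    have hp2 := (mem_filter.1 (mem_product.1 (mem_coe.1 hp')).1).2
    have heq' : Function.update h i x = Function.update h' i x' := heq
    have e1 : x = x' := by
      have := congrFun heq' i
      rwa [Function.update_self, Function.update_self] at this
    have e2 : ∀ l, l ≠ i → h l = h' l := by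
      intro l hl
      have := congrFun heq' l
      rwa [Function.update_of_ne hl, Function.update_of_ne hl] at this
    have e3 : h = h' := by
      funext l
      by_cases hl : l = i
      · rw [hl]
        show h i = h' i
        have g1 : h i = h j := hp1
        have g2 : h' i = h' j := hp2
        rw [g1, g2]
        exact e2 j hij.symm
      · exact e2 l hl
    rw [e1, e3]

theorem t6_ninj {k : ℕ} (X : ℕ) :
    ((bx k X).filter (fun h => ¬ Function.Injective h)).card * X ≤ k ^ 2 * X ^ k := by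
  have hsub : (bx k X).filter (fun h => ¬ Function.Injective h) ⊆
      ((univ : Finset (Fin k × Fin k)).filter (fun p => p.1 ≠ p.2)).biUnion
        (fun p => (bx k X).filter (fun h => h p.1 = h p.2)) := by
    intro h hh
    obtain ⟨hb, hn⟩ := mem_filter.1 hh
    have hn' : ∃ a b, h a = h b ∧ a ≠ b := by
      by_contra hc
      push Not at hc
      exact hn fun a b hab => hc a b hab
    obtain ⟨a, b, hab, hne⟩ := hn'
    rw [mem_biUnion]
    exact ⟨(a, b), mem_filter.2 ⟨mem_univ _, hne⟩, mem_filter.2 ⟨hb, hab⟩⟩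
  calc ((bx k X).filter (fun h => ¬ Function.Injective h)).card * X
      ≤ (∑ p ∈ (univ : Finset (Fin k × Fin k)).filter (fun p => p.1 ≠ p.2),
          ((bx k X).filter (fun h => h p.1 = h p.2)).card) * X :=
        Nat.mul_le_mul_right _ ((card_le_card hsub).trans card_biUnion_le)
    _ = ∑ p ∈ (univ : Finset (Fin k × Fin k)).filter (fun p => p.1 ≠ p.2),
          ((bx k X).filter (fun h => h p.1 = h p.2)).card * X := by rw [Finset.sum_mul]
    _ ≤ ∑ _p ∈ (univ : Finset (Fin k × Fin k)).filter (fun p => p.1 ≠ p.2), X ^ k :=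
        Finset.sum_le_sum fun p hp => t6_pair X p.1 p.2 (mem_filter.1 hp).2
    _ = ((univ : Finset (Fin k × Fin k)).filter (fun p => p.1 ≠ p.2)).card * X ^ k := by
        rw [Finset.sum_const, smul_eq_mul]
    _ ≤ k ^ 2 * X ^ k := by
        refine Nat.mul_le_mul_right _ ((card_le_univ _).trans (le_of_eq ?_))
        rw [Fintype.card_prod, Fintype.card_fin, sq]

theorem tmain : TMain := by
  intro δ hδ hδ1
  obtain ⟨X0, hX0⟩ := T6A δ hδ hδ1
  refine ⟨δ / 40, by linarith, by linarith, max X0 1, fun k Q X hX hk hkL hQL hQX => ?_⟩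
  obtain ⟨h1, h2, h3, h4, h5, h6, h7, h8⟩ := hX0 k Q X ((le_max_left _ _).trans hX) hk hkL hQL hQX _ rfl
  obtain ⟨w, hw⟩ : ∃ w : ℝ, w = (Real.log X) ^ (1 - δ / 4) := ⟨_, rfl⟩
  rw [← hw] at h1 h2 h3 h4
  have hX1 : 1 ≤ X := (le_max_right _ _).trans hX
  have hX1r : (0 : ℝ) < X := by exact_mod_cast hX1
  have hQ0 : (0 : ℝ) < Q := by exact_mod_cast h8
  have hQ1 : (1 : ℝ) ≤ Q := by exact_mod_cast h8
  obtain ⟨T, hT⟩ : ∃ T : ℝ, T = δ / 40 / 100 * Real.log Q := ⟨_, rfl⟩
  refine ⟨(bx k X).filter (fun h => ¬ Function.Injective h) ∪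
    (bx k X).filter (fun h => Function.Injective h ∧ T < GG (δ / 4) w Q h), ?_, ?_, ?_⟩
  · exact union_subset (filter_subset _ _) (filter_subset _ _)
  · have c1 : (((bx k X).filter (fun h => ¬ Function.Injective h)).card : ℝ) ≤
        (X : ℝ) ^ k * (Q : ℝ) ^ (-(2 * (δ / 40))) := by
      have e1 : (((bx k X).filter (fun h => ¬ Function.Injective h)).card : ℝ) * X ≤
          (k : ℝ) ^ 2 * (X : ℝ) ^ k := by exact_mod_cast t6_ninj (k := k) X
      have e2 : (((bx k X).filter (fun h => ¬ Function.Injective h)).card : ℝ) ≤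
          (X : ℝ) ^ k * ((k : ℝ) ^ 2 / X) := by
        rw [← mul_div_assoc, le_div_iff₀ hX1r]
        linarith
      exact e2.trans (mul_le_mul_of_nonneg_left h6 (by positivity))
    have c2 : (((bx k X).filter (fun h => Function.Injective h ∧ T < GG (δ / 4) w Q h)).card : ℝ) ≤
        (X : ℝ) ^ k * (Q : ℝ) ^ (-(2 * (δ / 40))) := by
      have e1 := T4B_markov (δ / 4) w 300 T (by linarith) (by linarith) (by linarith) (by norm_num) k Q X h3
      refine e1.trans ?_
      have e2 : Real.exp (-(300 * T)) = (Q : ℝ) ^ (-(3 * (δ / 40))) := by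
        rw [Real.rpow_def_of_pos hQ0, hT]
        congr 1
        ring
      rw [e2, mul_pow]
      calc (2 * Real.exp 6) ^ k * (X : ℝ) ^ k * (Q : ℝ) ^ (-(3 * (δ / 40)))
          ≤ (Q : ℝ) ^ (δ / 40) * (X : ℝ) ^ k * (Q : ℝ) ^ (-(3 * (δ / 40))) := by
            refine mul_le_mul_of_nonneg_right (mul_le_mul_of_nonneg_right h5 (by positivity)) ?_
            exact Real.rpow_nonneg hQ0.le _
        _ = (X : ℝ) ^ k * ((Q : ℝ) ^ (δ / 40) * (Q : ℝ) ^ (-(3 * (δ / 40)))) := by ring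
        _ = (X : ℝ) ^ k * (Q : ℝ) ^ (-(2 * (δ / 40))) := by
            rw [← Real.rpow_add hQ0]
            congr 2
            ring
    have c3 : (2 : ℝ) * (Q : ℝ) ^ (-(2 * (δ / 40))) ≤ (Q : ℝ) ^ (-(δ / 40)) := by
      calc (2 : ℝ) * (Q : ℝ) ^ (-(2 * (δ / 40))) ≤ (Q : ℝ) ^ (δ / 40) * (Q : ℝ) ^ (-(2 * (δ / 40))) :=
            mul_le_mul_of_nonneg_right h7 (Real.rpow_nonneg hQ0.le _)
        _ = (Q : ℝ) ^ (-(δ / 40)) := by
            rw [← Real.rpow_add hQ0]
            congr 1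
            ring
    have c4 : (0 : ℝ) ≤ (X : ℝ) ^ k := by positivity
    calc (((bx k X).filter (fun h => ¬ Function.Injective h) ∪
          (bx k X).filter (fun h => Function.Injective h ∧ T < GG (δ / 4) w Q h)).card : ℝ)
        ≤ (((bx k X).filter (fun h => ¬ Function.Injective h)).card : ℝ) +
          (((bx k X).filter (fun h => Function.Injective h ∧ T < GG (δ / 4) w Q h)).card : ℝ) := by
          exact_mod_cast card_union_le _ _
      _ ≤ (X : ℝ) ^ k * (2 * (Q : ℝ) ^ (-(2 * (δ / 40)))) := by linarith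
      _ ≤ (X : ℝ) ^ k * (Q : ℝ) ^ (-(δ / 40)) := mul_le_mul_of_nonneg_left c3 c4
  · intro h hh hbad
    rw [mem_union, not_or, mem_filter, mem_filter] at hbad
    have hinj : Function.Injective h := by
      by_contra hc
      exact hbad.1 ⟨hh, hc⟩
    have hGG : GG (δ / 4) w Q h ≤ T := by
      by_contra hc
      exact hbad.2 ⟨hh, hinj, not_le.1 hc⟩
    refine ⟨hinj, fun R E hE1 hE2 => ?_⟩
    have hE0 : (0 : ℝ) < (Q : ℝ) ^ (1 / 5 : ℝ) := Real.rpow_pos_of_pos hQ0 _
    have hEQ : (Q : ℝ) ^ (1 / 5 : ℝ) ≤ (Q : ℝ) := by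
      calc (Q : ℝ) ^ (1 / 5 : ℝ) ≤ (Q : ℝ) ^ (1 : ℝ) := Real.rpow_le_rpow_of_exponent_le hQ1 (by norm_num)
        _ = Q := Real.rpow_one _
    have hlQ : 0 ≤ Real.log Q := Real.log_nonneg hQ1
    have r1 := T5_RP (δ / 4) w (by linarith) (by linarith) h1 h2 Q h
    have r2 : RP (δ / 4) Q h ≤ (Q : ℝ) ^ (δ / 800) := by
      refine r1.trans ?_
      rw [Real.rpow_def_of_pos hQ0]
      apply Real.exp_le_exp.2
      have e1 : 3 * GG (δ / 4) w Q h ≤ 3 * T := by linarith
      rw [hT] at e1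
      nlinarith [mul_nonneg hδ.le hlQ]
    have r3 := T3_diff (δ / 4) ((Q : ℝ) ^ (1 / 5 : ℝ)) (by linarith) hE0 Q Q R E le_rfl hE2 hEQ hE1 h
    refine r3.trans ?_
    calc ((Q : ℝ) ^ (1 / 5 : ℝ)) ^ (-(δ / 4)) * RP (δ / 4) Q h
        ≤ ((Q : ℝ) ^ (1 / 5 : ℝ)) ^ (-(δ / 4)) * (Q : ℝ) ^ (δ / 800) :=
          mul_le_mul_of_nonneg_left r2 (Real.rpow_nonneg hE0.le _)
      _ = (Q : ℝ) ^ (1 / 5 * (-(δ / 4)) + δ / 800) := by
          rw [← Real.rpow_mul hQ0.le, ← Real.rpow_add hQ0]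
      _ ≤ (Q : ℝ) ^ (-(δ / 40)) := Real.rpow_le_rpow_of_exponent_le hQ1 (by linarith)

end Pool.Agent.Lib.H59P
end

-- from Lib.H59P.T7
section

/-!
# Module T: the conclusions
-/

open Finset

namespace Pool.Agent.Lib.H59P

theorem T_main : TMain := tmain

theorem T_low : ∃ c0 : ℝ, 0 ≤ c0 ∧ TLow c0 :=
  ⟨4, by norm_num, fun _ h hA P hP => T_lower h hA P hP⟩

end Pool.Agent.Lib.H59P
end

-- from Lib.H68X.XRN
section

/-!
# Chunk XRN: counting admissible sets
-/

open Finset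

namespace Pool.Agent.Lib.H68T

theorem XRN_totient (n : ℕ) (hn : 1 ≤ n) : primorial n ≤ n * Nat.totient (primorial n) := by
  induction n, hn using Nat.le_induction with
  | base => simp
  | succ n hn ih =>
    by_cases hp : (n + 1).Prime
    · have h1 : primorial (n + 1) = (n + 1) * primorial n := by
        unfold primorial
        rw [Finset.range_add_one, Finset.filter_insert, if_pos hp, Finset.prod_insert]
        simp
      have hcop : Nat.Coprime (n + 1) (primorial n) := by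
        rw [Nat.Prime.coprime_iff_not_dvd hp, hp.dvd_primorial_iff]
        omega
      rw [h1, Nat.totient_mul hcop, Nat.totient_prime hp]
      simp only [Nat.add_sub_cancel]
      exact Nat.mul_le_mul_left _ ih
    · have h1 : primorial (n + 1) = primorial n := by
        unfold primorial
        rw [Finset.range_add_one, Finset.filter_insert, if_neg hp]
      rw [h1]
      exact ih.trans (Nat.mul_le_mul_right _ (by omega))

open scoped Classical in
/-- Many admissible sets: `(H+1)^k ≤ 2 k^k k! #{admissible k-subsets of [0, H]}` for `H` large.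
(`W = primorial k`, `W ≤ k φ(W)`: `FIN_totient` in `H68T/FIN.lean`.) See the last two items in the proof
of `sets_of_patterns` (`H68T/SetsP.lean`): the injective tuples `r i + W c i` with all `r i` coprime
to `W`, `c i < M = (H+1)/W` are admissible; there are at least `φ(W)^k · (3/4) M^k` of them and
`(M W)^k ≥ (3/4)(H+1)^k`. -/
theorem adm_lower (H k : ℕ) (hk : 1 ≤ k) (hH : 8 * k ^ 2 * primorial k ≤ H + 1) :
    ((H : ℝ) + 1) ^ k ≤ 2 * (k : ℝ) ^ k * (k.factorial : ℝ) *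
      ((((range (H + 1)).powersetCard k).filter (fun A => Admissible A)).card : ℝ) := by
  set W := primorial k with hWdef
  have hW : 0 < W := primorial_pos k
  have hp : ∀ p : ℕ, p.Prime → p ≤ k → p ∣ W := fun p hp hpk => hp.dvd_primorial_iff.mpr hpk
  have hφ : W ≤ k * Nat.totient W := XRN_totient k hk
  obtain ⟨M, hM⟩ : ∃ M : ℕ, M = (H + 1) / W := ⟨_, rfl⟩
  have hM8 : 8 * k ^ 2 ≤ M := by
    rw [hM]
    exact (Nat.le_div_iff_mul_le hW).mpr hH
  have hM4 : 4 * k ^ 2 ≤ M := by omega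
  have hMk : 4 * k * W ≤ H + 1 := by
    refine le_trans ?_ hH
    apply Nat.mul_le_mul_right
    nlinarith
  have hWr : (0:ℝ) < W := by exact_mod_cast hW
  have hadm := SETS_adm_lower H W M k hW hM hp
  have hdesc := SETS_desc M k hM4 hk
  have hMW := SETS_MW H W M k hW hk hM hMk
  have hRc := SETS_R_card k W hW
  have hT2 := SETS_tuples k H (fun A => Admissible A)
  set Ad := (((range (H + 1)).powersetCard k).filter (fun A => Admissible A)).card
  set R := (SETS_R k W).card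
  have hadm0 : R * M.descFactorial k ≤ k.factorial * Ad := by
    refine hadm.trans (le_of_eq ?_)
    rw [← hT2]
  have hadm' : (R:ℝ) * (M.descFactorial k : ℝ) ≤ (k.factorial : ℝ) * Ad := by
    exact_mod_cast hadm0
  have hR0 : (0:ℝ) ≤ R := by positivity
  have h1 : (3 / 4 : ℝ) * ((R:ℝ) * (M:ℝ) ^ k) ≤ (k.factorial : ℝ) * Ad := by
    have := mul_le_mul_of_nonneg_left hdesc hR0
    linarith
  have h2 : ((W:ℝ)) ^ k ≤ (k:ℝ) ^ k * R := by
    have e1 : W ^ k ≤ k ^ k * R := by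
      calc W ^ k ≤ (k * Nat.totient W) ^ k := Nat.pow_le_pow_left hφ k
        _ = k ^ k * (Nat.totient W) ^ k := by rw [mul_pow]
        _ ≤ k ^ k * R := Nat.mul_le_mul_left _ hRc
    exact_mod_cast e1
  have h3 : (3 / 4 : ℝ) * ((H:ℝ) + 1) ^ k ≤ (k:ℝ) ^ k * ((R:ℝ) * (M:ℝ) ^ k) := by
    refine hMW.trans ?_
    rw [mul_pow]
    calc (M:ℝ) ^ k * (W:ℝ) ^ k ≤ (M:ℝ) ^ k * ((k:ℝ) ^ k * R) := by gcongr
      _ = _ := by ring
  have hkk : (0:ℝ) ≤ (k:ℝ) ^ k := by positivity
  have h4 : (k:ℝ) ^ k * ((3 / 4 : ℝ) * ((R:ℝ) * (M:ℝ) ^ k)) ≤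
      (k:ℝ) ^ k * ((k.factorial : ℝ) * Ad) := mul_le_mul_of_nonneg_left h1 hkk
  have h5 : (0:ℝ) ≤ (k:ℝ) ^ k * ((k.factorial : ℝ) * Ad) := by positivity
  have e : 2 * (k : ℝ) ^ k * (k.factorial : ℝ) * (Ad : ℝ) =
      2 * ((k:ℝ) ^ k * ((k.factorial : ℝ) * Ad)) := by ring
  rw [e]
  have h6 : (k:ℝ) ^ k * ((3 / 4 : ℝ) * ((R:ℝ) * (M:ℝ) ^ k)) =
      3 / 4 * ((k:ℝ) ^ k * ((R:ℝ) * (M:ℝ) ^ k)) := by ring
  rw [h6] at h4
  linarith

end Pool.Agent.Lib.H68T
end

-- from Lib.H68X.XSET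
section

/-!
# Sets of admissible sets: from finsets to `Set.ncard` (helper68)
-/

open Finset

namespace Pool.Agent.Lib.H68T

/-- The admissible sets with `k` elements, all at most `x ^ (1 - δ)`. -/
def XSET_adm (x δ : ℝ) (k : ℕ) : Set (Finset ℕ) :=
  {A | A.card = k ∧ Admissible A ∧ ∀ a ∈ A, (a : ℝ) ≤ x ^ (1 - δ)}

open scoped Classical in
theorem XSET_conv (x δ : ℝ) (k : ℕ) (hx : 0 ≤ x) :
    XSET_adm x δ k =
      ↑(((range (⌊x ^ (1 - δ)⌋₊ + 1)).powersetCard k).filter (fun A => Admissible A)) := by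
  have hpow : 0 ≤ x ^ (1 - δ) := Real.rpow_nonneg hx _
  ext A
  rw [Finset.mem_coe, mem_filter, mem_powersetCard]
  have hmem : (∀ a ∈ A, (a : ℝ) ≤ x ^ (1 - δ)) ↔ A ⊆ range (⌊x ^ (1 - δ)⌋₊ + 1) := by
    constructor
    · intro h a ha
      rw [mem_range, Nat.lt_add_one_iff]
      exact Nat.le_floor (h a ha)
    · intro h a ha
      have h5 := h ha
      rw [mem_range, Nat.lt_add_one_iff] at h5
      calc (a : ℝ) ≤ ⌊x ^ (1 - δ)⌋₊ := by exact_mod_cast h5
        _ ≤ _ := Nat.floor_le hpow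
  show A.card = k ∧ Admissible A ∧ (∀ a ∈ A, (a : ℝ) ≤ x ^ (1 - δ)) ↔ _
  rw [hmem]
  tauto

open scoped Classical in
theorem XSET_bad (x δ : ℝ) (k : ℕ) (hx : 0 ≤ x) :
    {A ∈ XSET_adm x δ k | ¬ HasPrimeTranslate x A} =
      ↑(((range (⌊x ^ (1 - δ)⌋₊ + 1)).powersetCard k).filter (fun A => Admissible A ∧
        ¬ HasPrimeTranslate x A)) := by
  ext A
  rw [Set.mem_sep_iff, XSET_conv x δ k hx, Finset.mem_coe, Finset.mem_coe, mem_filter, mem_filter]
  tauto

open scoped Classical in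
theorem XSET_card (x δ : ℝ) (k : ℕ) (hx : 0 ≤ x) :
    (XSET_adm x δ k).ncard =
      (((range (⌊x ^ (1 - δ)⌋₊ + 1)).powersetCard k).filter (fun A => Admissible A)).card := by
  rw [XSET_conv x δ k hx, Set.ncard_coe_finset]

open scoped Classical in
theorem XSET_badcard (x δ : ℝ) (k : ℕ) (hx : 0 ≤ x) :
    ({A ∈ XSET_adm x δ k | ¬ HasPrimeTranslate x A}).ncard =
      (((range (⌊x ^ (1 - δ)⌋₊ + 1)).powersetCard k).filter (fun A => Admissible A ∧
        ¬ HasPrimeTranslate x A)).card := by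
  rw [XSET_bad x δ k hx, Set.ncard_coe_finset]

/-- Multiples of the primorial of `k` form an admissible set. -/
theorem XSET_exists (k N : ℕ) (hN : k * primorial k ≤ N) :
    ∃ A : Finset ℕ, A.card = k ∧ Admissible A ∧ ∀ a ∈ A, a ≤ N := by
  have hpos := primorial_pos k
  refine ⟨(range k).image (fun j => j * primorial k), ?_, ?_, ?_⟩
  · rw [card_image_of_injective, card_range]
    intro a b hab
    exact Nat.eq_of_mul_eq_mul_right hpos hab
  · intro p hp
    have : Fact p.Prime := ⟨hp⟩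
    rcases le_or_gt p k with hpk | hpk
    · refine ⟨1, fun a ha h => ?_⟩
      rw [mem_image] at ha
      obtain ⟨j, -, rfl⟩ := ha
      have h1 : ((j * primorial k : ℕ) : ZMod p) = 0 := by
        rw [ZMod.natCast_eq_zero_iff]
        exact Dvd.dvd.mul_left (hp.dvd_primorial_iff.mpr hpk) j
      rw [h1] at h
      exact zero_ne_one h
    · by_contra hcon
      push Not at hcon
      have h1 : (univ : Finset (ZMod p)) ⊆
          ((range k).image (fun j => j * primorial k)).image (fun a : ℕ => (a : ZMod p)) := by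
        intro r _
        obtain ⟨a, ha, har⟩ := hcon r
        exact mem_image.mpr ⟨a, ha, har⟩
      have h2 := card_le_card h1
      rw [card_univ, ZMod.card] at h2
      have h3 := h2.trans (card_image_le.trans card_image_le)
      rw [card_range] at h3
      omega
  · intro a ha
    rw [mem_image] at ha
    obtain ⟨j, hj, rfl⟩ := ha
    rw [mem_range] at hj
    exact (Nat.mul_le_mul_right _ hj.le).trans hN

/-- For large `x` there are admissible `k`-sets in the range, for all `k ≤ (log x)^(1-δ)`. -/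
theorem XSET_pos (δ : ℝ) (hδ : 0 < δ) (hδ1 : δ < 1) : ∃ x₀ : ℝ, 1 ≤ x₀ ∧ ∀ x : ℝ, x₀ ≤ x →
    ∀ k : ℕ, 1 ≤ k → (k : ℝ) ≤ (Real.log x) ^ (1 - δ) → 0 < (XSET_adm x δ k).ncard := by
  classical
  have hev : ∀ᶠ L : ℝ in Filter.atTop,
      L ^ (1 - δ) * 2 + Real.log L ≤ (1 - δ) * L ∧ 1 ≤ L := by
    filter_upwards [ev_rpow (4 / (1 - δ)) (1 - δ) 1 (by linarith),
      ev_log (2 / (1 - δ)) 1 one_pos, Filter.eventually_ge_atTop (1:ℝ)]
      with L h1 h2 h3
    have ha : 0 < 1 - δ := by linarith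
    rw [Real.rpow_one] at h1 h2
    refine ⟨?_, h3⟩
    have h4 : L ^ (1 - δ) * 2 ≤ (1 - δ) * L / 2 := by
      have := mul_le_mul_of_nonneg_left h1 (show 0 ≤ (1 - δ) / 2 by positivity)
      have e : (1 - δ) / 2 * (4 / (1 - δ) * L ^ (1 - δ)) = L ^ (1 - δ) * 2 := by
        field_simp; ring
      rw [e] at this; linarith
    have h5 : Real.log L ≤ (1 - δ) * L / 2 := by
      have := mul_le_mul_of_nonneg_left h2 (show 0 ≤ (1 - δ) / 2 by positivity)
      have e : (1 - δ) / 2 * (2 / (1 - δ) * Real.log L) = Real.log L := by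
        field_simp
      rw [e] at this; linarith
    linarith
  obtain ⟨L₀, hL₀⟩ := Filter.eventually_atTop.mp hev
  refine ⟨Real.exp (max L₀ 1), Real.one_le_exp (le_trans zero_le_one (le_max_right _ _)),
    fun x hxexp k hk1 hk => ?_⟩
  have hx0 : 0 < x := lt_of_lt_of_le (Real.exp_pos _) hxexp
  have hL : max L₀ 1 ≤ Real.log x := (Real.le_log_iff_exp_le hx0).mpr hxexp
  obtain ⟨hL1, hL2⟩ := hL₀ (Real.log x) ((le_max_left _ _).trans hL)
  set L := Real.log x with hLdef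
  set Y := ⌊x ^ (1 - δ)⌋₊ with hY
  obtain ⟨A, hA1, hA2, hA3⟩ := XSET_exists k Y (by
      rw [hY]
      apply Nat.le_floor
      push_cast
      have h1 : (primorial k : ℝ) ≤ 4 ^ k := by exact_mod_cast primorial_le_four_pow k
      have hkL : (k : ℝ) ≤ L := by
        refine hk.trans ?_
        calc L ^ (1 - δ) ≤ L ^ (1:ℝ) := Real.rpow_le_rpow_of_exponent_le hL2 (by linarith)
          _ = L := Real.rpow_one L
      have hlog4 : Real.log 4 ≤ 2 := by
        have : (4:ℝ) = 2 ^ 2 := by norm_num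
        rw [this, Real.log_pow]
        have := Real.log_two_lt_d9
        push_cast
        linarith
      have h2 : (4:ℝ) ^ k = Real.exp (k * Real.log 4) := by
        rw [mul_comm, Real.exp_mul, Real.exp_log (by norm_num), Real.rpow_natCast]
      have hkpos : (0:ℝ) < k := by exact_mod_cast hk1
      have hLpos : 0 < L := by linarith
      calc (k : ℝ) * (primorial k : ℝ) ≤ L * Real.exp (k * Real.log 4) := by
            rw [← h2]
            exact mul_le_mul hkL h1 (by positivity) (by positivity)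
        _ = Real.exp (Real.log L + k * Real.log 4) := by
            rw [Real.exp_add, Real.exp_log hLpos]
        _ ≤ Real.exp ((1 - δ) * L) := by
            apply Real.exp_le_exp.mpr
            have h3 : (k:ℝ) * Real.log 4 ≤ L ^ (1 - δ) * 2 :=
              mul_le_mul hk hlog4 (Real.log_nonneg (by norm_num)) (by positivity)
            linarith
        _ = x ^ (1 - δ) := by
            rw [Real.rpow_def_of_pos hx0, mul_comm])
  rw [XSET_card x δ k hx0.le, card_pos]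
  refine ⟨A, ?_⟩
  rw [mem_filter, mem_powersetCard]
  refine ⟨⟨fun a ha => ?_, hA1⟩, hA2⟩
  rw [mem_range, Nat.lt_add_one_iff]
  exact hA3 a ha

end Pool.Agent.Lib.H68T
end

-- from Lib.H59P.TSL
section

/-!
# Chunk TSL (S/M): the sizes needed for the passage to sets

`primorial k ≤ 4^k` (`primorial_le_four_pow`), `k ≤ L^(1-δ)`, `L = log N`: the logarithm of
`8 k^2 4^k` is at most `3 + 2 log L + 2 L^(1-δ) = o(L)`; and `k log (8 k) ≤ L^(1-δ) (log 8 + log L) ≤
L^(1-δ/2)`. `ev_rpow`, `ev_log` of `H68T/FINP.lean` give such inequalities for large `L`; then take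
`N0 = ⌈exp L0⌉`.
-/

open Finset

namespace Pool.Agent.Lib.H59P

open Pool.Agent.Lib.H68T Filter in
theorem tsl_ev (δ : ℝ) (hδ : 0 < δ) (hδ1 : δ < 1) : ∀ᶠ L : ℝ in atTop,
    1 ≤ L ∧ 3 + 2 * Real.log L + 2 * L ^ (1 - δ) ≤ L ∧
    L ^ (1 - δ) * (3 + Real.log L) ≤ L ^ (1 - δ / 2) := by
  filter_upwards [eventually_ge_atTop (12 : ℝ), ev_log 8 1 one_pos, ev_rpow 4 (1 - δ) 1 (by linarith),
    ev_log 2 (δ / 2) (by linarith), ev_rpow 6 0 (δ / 2) (by linarith)] with L h1 h2 h3 h4 h5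
  have hL : 0 < L := by linarith
  rw [Real.rpow_zero] at h5
  rw [Real.rpow_one] at h2 h3
  refine ⟨by linarith, by linarith, ?_⟩
  calc L ^ (1 - δ) * (3 + Real.log L) ≤ L ^ (1 - δ) * L ^ (δ / 2) :=
        mul_le_mul_of_nonneg_left (by linarith) (Real.rpow_nonneg hL.le _)
    _ = L ^ (1 - δ / 2) := by rw [← Real.rpow_add hL]; ring_nf

theorem TSL_large (δ : ℝ) (hδ : 0 < δ) (hδ1 : δ < 1) : ∃ N0 : ℕ, ∀ N k : ℕ, N0 ≤ N →
    (k : ℝ) ≤ (Real.log N) ^ (1 - δ) →
    8 * k ^ 2 * primorial k ≤ N ∧ (8 * (k : ℝ)) ^ k ≤ Real.exp ((Real.log N) ^ (1 - δ / 2)) := by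
  obtain ⟨L0, hL0⟩ := Filter.eventually_atTop.mp (tsl_ev δ hδ hδ1)
  refine ⟨⌈Real.exp L0⌉₊, fun N k hN hk => ?_⟩
  have hXe : Real.exp L0 ≤ (N : ℝ) := (Nat.le_ceil _).trans (by exact_mod_cast hN)
  have hXpos : (0 : ℝ) < N := (Real.exp_pos _).trans_le hXe
  have hLL : L0 ≤ Real.log N := by
    rw [Real.le_log_iff_exp_le hXpos]
    exact hXe
  obtain ⟨h1, h2, h3⟩ := hL0 (Real.log N) hLL
  have hNL : (N : ℝ) = Real.exp (Real.log N) := (Real.exp_log hXpos).symm
  set L := Real.log (N : ℝ) with hLdef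
  have hL : 0 < L := by linarith
  rcases Nat.eq_zero_or_pos k with rfl | hkpos
  · constructor
    · simp
    · simp only [pow_zero]
      exact Real.one_le_exp (Real.rpow_nonneg hL.le _)
  have hk1 : (1 : ℝ) ≤ k := by exact_mod_cast hkpos
  have hkL : (k : ℝ) ≤ L := by
    refine hk.trans ?_
    calc L ^ (1 - δ) ≤ L ^ (1 : ℝ) := Real.rpow_le_rpow_of_exponent_le h1 (by linarith)
      _ = L := Real.rpow_one _
  have hlogk : Real.log k ≤ Real.log L := Real.log_le_log (by linarith) hkL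
  have hlogk0 : 0 ≤ Real.log k := Real.log_nonneg hk1
  have hlog8 : Real.log 8 ≤ 3 := by
    have e : Real.log 8 = 3 * Real.log 2 := by
      rw [show (8 : ℝ) = 2 ^ (3 : ℕ) by norm_num, Real.log_pow]
      norm_num
    have := Real.log_two_lt_d9
    rw [e]
    linarith
  have hlog4 : Real.log 4 ≤ 2 := by
    have e : Real.log 4 = 2 * Real.log 2 := by
      rw [show (4 : ℝ) = 2 ^ (2 : ℕ) by norm_num, Real.log_pow]
      norm_num
    have := Real.log_two_lt_d9
    rw [e]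
    linarith
  constructor
  · have e1 : 8 * k ^ 2 * primorial k ≤ 8 * k ^ 2 * 4 ^ k :=
      Nat.mul_le_mul_left _ (primorial_le_four_pow k)
    have e2 : ((8 * k ^ 2 * 4 ^ k : ℕ) : ℝ) ≤ N := by
      push_cast
      have a1 : (8 : ℝ) * (k : ℝ) ^ 2 * 4 ^ k =
          Real.exp (Real.log 8 + 2 * Real.log k + k * Real.log 4) := by
        rw [Real.exp_add, Real.exp_add, Real.exp_log (by norm_num), two_mul, Real.exp_add,
          Real.exp_log (by linarith), Real.exp_nat_mul, Real.exp_log (by norm_num)]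
        ring
      rw [a1, hNL]
      apply Real.exp_le_exp.mpr
      have a2 : (k : ℝ) * Real.log 4 ≤ L ^ (1 - δ) * 2 :=
        mul_le_mul hk hlog4 (Real.log_nonneg (by norm_num)) (Real.rpow_nonneg hL.le _)
      linarith
    exact e1.trans (by exact_mod_cast e2)
  · have a1 : (8 * (k : ℝ)) ^ k = Real.exp (k * Real.log (8 * k)) := by
      rw [Real.exp_nat_mul, Real.exp_log (by positivity)]
    rw [a1]
    apply Real.exp_le_exp.mpr
    rw [Real.log_mul (by norm_num) (by positivity)]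
    refine le_trans ?_ h3
    exact mul_le_mul hk (by linarith) (add_nonneg (Real.log_nonneg (by norm_num)) hlogk0)
      (Real.rpow_nonneg hL.le _)

end Pool.Agent.Lib.H59P
end

-- from Lib.H59P.T8
section

/-!
# Project H59P, T8: the number of admissible sets
-/

open Finset

namespace Pool.Agent.Lib.H59P

open Pool.Agent.Lib.H68T Pool.Agent.Lib.H18Q

theorem T_count : TCount := by
  classical
  refine ⟨2, by norm_num, fun δ hδ hδ1 => ?_⟩
  obtain ⟨N0, hN0⟩ := TSL_large δ hδ hδ1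
  refine ⟨max N0 ⌈Real.exp 2⌉₊, fun N k hN hk1 hk => ?_⟩
  obtain ⟨h1, -⟩ := hN0 N k ((le_max_left _ _).trans hN) hk
  have hNe : Real.exp 2 ≤ N := (Nat.le_ceil _).trans (by exact_mod_cast (le_max_right _ _).trans hN)
  have hNpos : (0 : ℝ) < N := lt_of_lt_of_le (Real.exp_pos _) hNe
  have hL2 : 2 ≤ Real.log N := by
    rw [Real.le_log_iff_exp_le hNpos]; exact hNe
  have hkL : (k : ℝ) ≤ Real.log N := by
    refine hk.trans ?_
    have := Real.rpow_le_rpow_of_exponent_le (show 1 ≤ Real.log N by linarith)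
      (show 1 - δ ≤ 1 by linarith)
    rwa [Real.rpow_one] at this
  have hN1 : N - 1 + 1 = N := by
    have : 0 < N := by exact_mod_cast hNpos
    omega
  have h2 := adm_lower (N - 1) k hk1 (by rw [hN1]; exact h1)
  rw [hN1] at h2
  have hcast : ((N - 1 : ℕ) : ℝ) + 1 = N := by
    have : ((N - 1 + 1 : ℕ) : ℝ) = (N : ℝ) := by rw [hN1]
    rw [← this]; push_cast; ring
  rw [hcast] at h2
  refine h2.trans ?_
  have h3 : 2 * (k : ℝ) ^ k ≤ (Real.log N) ^ ((2 : ℝ) * k) := by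
    have e1 : (Real.log N) ^ ((2 : ℝ) * k) = (Real.log N * Real.log N) ^ k := by
      rw [Real.rpow_mul (by linarith), Real.rpow_natCast]
      norm_num
      rw [sq]
    rw [e1, mul_pow]
    have h4 : (2 : ℝ) ≤ (Real.log N) ^ k := by
      calc (2 : ℝ) ≤ Real.log N := hL2
        _ = (Real.log N) ^ 1 := (pow_one _).symm
        _ ≤ (Real.log N) ^ k := pow_le_pow_right₀ (by linarith) hk1
    have h5 : (k : ℝ) ^ k ≤ (Real.log N) ^ k := pow_le_pow_left₀ (Nat.cast_nonneg _) hkL k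
    exact mul_le_mul h4 h5 (by positivity) (by positivity)
  have h6 : (0 : ℝ) ≤ (k.factorial : ℝ) *
    ((((range N).powersetCard k).filter (fun A => Admissible A)).card : ℝ) := by positivity
  calc _ = 2 * (k : ℝ) ^ k * ((k.factorial : ℝ) *
    ((((range N).powersetCard k).filter (fun A => Admissible A)).card : ℝ)) := by ring
    _ ≤ _ := mul_le_mul_of_nonneg_right h3 h6

end Pool.Agent.Lib.H59P
end

-- from Lib.H68X.XRP
section

/-!
# Chunk XRP: few primes with `ψ(p) = 1` in short intervals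
-/

open Finset

namespace Pool.Agent.Lib.H68T

open scoped ComplexOrder in
theorem XRP_nonneg (r : ℕ) (ψ : DirichletCharacter ℂ r) (hψ2 : ψ ^ 2 = 1) (m : ℕ) :
    0 ≤ (∑ d ∈ m.divisors, ψ (d : ZMod r)).re := by
  have h := DirichletCharacter.zetaMul_nonneg hψ2 m
  have h1 : ψ.zetaMul m = ∑ d ∈ m.divisors, ψ (d : ZMod r) := by
    unfold DirichletCharacter.zetaMul
    rw [ArithmeticFunction.coe_zeta_mul_apply]
    apply sum_congr rfl
    intro d hd
    have hd0 : d ≠ 0 := (Nat.pos_of_mem_divisors hd).ne'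
    simp [toArithmeticFunction, hd0]
  rw [h1] at h
  exact (Complex.le_def.mp h).1

theorem XRP_prime (r : ℕ) (ψ : DirichletCharacter ℂ r) (p : ℕ) (hp : p.Prime)
    (h : ψ (p : ZMod r) = 1) :
    (∑ d ∈ p.divisors, ψ (d : ZMod r)).re = 2 := by
  rw [Nat.Prime.sum_divisors hp, h]
  simp
  norm_num

/-- For a real character `∑_{d ∣ m} ψ(d) ≥ 0`, and it is `2` at primes with `ψ(p) = 1`; subtract
`hyperbola` at `y = n + H` and `y = n - 1`. -/
theorem plus_primes (r : ℕ) [NeZero r] (ψ : DirichletCharacter ℂ r) (hψ : ψ ≠ 1)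
    (hψ2 : ψ ^ 2 = 1) (n H : ℕ) (hn : 1 ≤ n) :
    (((Icc n (n + H)).filter (fun p : ℕ => p.Prime ∧ ψ (p : ZMod r) = 1)).card : ℝ) ≤
      (H + 1) * ‖ψ.LFunction 1‖ + 8 * r * Real.sqrt (n + H : ℕ) := by
  set f : ℕ → ℂ := fun m => ∑ d ∈ m.divisors, ψ (d : ZMod r) with hf
  set L := ψ.LFunction 1 with hL
  set S := (Icc n (n + H)).filter (fun p : ℕ => p.Prime ∧ ψ (p : ZMod r) = 1) with hS
  have h1 := hyperbola r ψ hψ (n + H)
  have h2 := hyperbola r ψ hψ (n - 1)
  have hsplit : (∑ m ∈ Icc 1 (n + H), f m) = (∑ m ∈ Icc 1 (n - 1), f m) +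
      ∑ m ∈ Icc n (n + H), f m := by
    rw [← Finset.sum_union]
    · apply Finset.sum_congr _ fun _ _ => rfl
      ext m
      simp only [mem_union, mem_Icc]
      omega
    · rw [Finset.disjoint_left]
      intro m
      simp only [mem_Icc]
      omega
  have h3 : (2 : ℝ) * S.card ≤ (∑ m ∈ Icc n (n + H), f m).re := by
    rw [Complex.re_sum]
    calc (2 : ℝ) * S.card = ∑ m ∈ S, (f m).re := by
          rw [Finset.sum_congr rfl (g := fun _ => (2 : ℝ))]
          · rw [sum_const, nsmul_eq_mul, mul_comm]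
          · intro m hm
            rw [hS, mem_filter] at hm
            exact XRP_prime r ψ m hm.2.1 hm.2.2
      _ ≤ ∑ m ∈ Icc n (n + H), (f m).re :=
          sum_le_sum_of_subset_of_nonneg (filter_subset _ _) fun m _ _ => XRP_nonneg r ψ hψ2 m
  have h4 : (∑ m ∈ Icc n (n + H), f m).re ≤ ‖∑ m ∈ Icc n (n + H), f m‖ :=
    (le_abs_self _).trans (Complex.abs_re_le_norm _)
  have h5 : (∑ m ∈ Icc n (n + H), f m) =
      ((∑ m ∈ Icc 1 (n + H), f m) - ((n + H : ℕ) : ℂ) * L) -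
        ((∑ m ∈ Icc 1 (n - 1), f m) - ((n - 1 : ℕ) : ℂ) * L) + ((H : ℂ) + 1) * L := by
    rw [hsplit, Nat.cast_sub hn]
    push_cast
    ring
  have h6 : ‖∑ m ∈ Icc n (n + H), f m‖ ≤ 4 * r * Real.sqrt (n + H : ℕ) +
      4 * r * Real.sqrt (n - 1 : ℕ) + (H + 1) * ‖L‖ := by
    rw [h5]
    refine (norm_add_le _ _).trans (add_le_add ((norm_sub_le _ _).trans (add_le_add h1 h2)) ?_)
    rw [norm_mul]
    apply mul_le_mul_of_nonneg_right _ (norm_nonneg _)
    have : ((H : ℂ) + 1) = ((H + 1 : ℕ) : ℂ) := by push_cast; ring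
    rw [this, Complex.norm_natCast]
    push_cast
    exact le_rfl
  have h7 : Real.sqrt (n - 1 : ℕ) ≤ Real.sqrt (n + H : ℕ) := by
    apply Real.sqrt_le_sqrt
    exact Nat.cast_le.mpr (by omega)
  have h8 : 4 * (r : ℝ) * Real.sqrt (n - 1 : ℕ) ≤ 4 * r * Real.sqrt (n + H : ℕ) :=
    mul_le_mul_of_nonneg_left h7 (by positivity)
  have h9 : (0 : ℝ) ≤ (S.card : ℝ) := Nat.cast_nonneg _
  linarith

end Pool.Agent.Lib.H68T
end

-- from Lib.H68X.XRM
section

/-!
# Chunk XRM: sets with many elements in a small set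
-/

open Finset

namespace Pool.Agent.Lib.H68T

/-- The number of `k`-subsets `A` of `U` with at least `k/8` elements in `P ⊆ U`:
`∑_{j ≥ k/8} C(|P|,j) C(|U|,k-j) ≤ ∑_j C(k,j) (|P|/|U|)^j |U|^k/k! ≤ 2^k ν^(k/8) |U|^k/k!` for
`|P| ≤ ν |U|`, `ν ≤ 1`. -/
theorem many_plus (U P : Finset ℕ) (hP : P ⊆ U) (k : ℕ) (ν : ℝ) (hν0 : 0 < ν) (hν1 : ν ≤ 1)
    (hν : (P.card : ℝ) ≤ ν * U.card) :
    (((U.powersetCard k).filter (fun A => k ≤ 8 * (A ∩ P).card)).card : ℝ) ≤
      2 ^ k * ν ^ ((k : ℝ) / 8) * ((U.card : ℝ) ^ k / (k.factorial : ℝ)) := by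
  have h1 : ((U.powersetCard k).filter (fun A => k ≤ 8 * (A ∩ P).card)).card ≤
      ∑ j ∈ (range (k + 1)).filter (fun j => k ≤ 8 * j),
        P.card.choose j * U.card.choose (k - j) := by
    calc ((U.powersetCard k).filter (fun A => k ≤ 8 * (A ∩ P).card)).card
        ≤ (((range (k + 1)).filter (fun j => k ≤ 8 * j)).biUnion (fun j =>
            (P.powersetCard j ×ˢ U.powersetCard (k - j)).image (fun q => q.1 ∪ q.2))).card := by
          apply Finset.card_le_card
          intro A hA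
          rw [Finset.mem_filter, Finset.mem_powersetCard] at hA
          obtain ⟨⟨hAU, hAk⟩, hk⟩ := hA
          have hle : (A ∩ P).card ≤ A.card := Finset.card_le_card Finset.inter_subset_left
          rw [Finset.mem_biUnion]
          refine ⟨(A ∩ P).card, ?_, ?_⟩
          · rw [Finset.mem_filter, Finset.mem_range]
            exact ⟨by omega, hk⟩
          · rw [Finset.mem_image]
            refine ⟨(A ∩ P, A \ P), ?_, ?_⟩
            · rw [Finset.mem_product, Finset.mem_powersetCard, Finset.mem_powersetCard]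
              refine ⟨⟨Finset.inter_subset_right, rfl⟩,
                ⟨Finset.sdiff_subset.trans hAU, ?_⟩⟩
              have := Finset.card_inter_add_card_sdiff A P
              change (A \ P).card = k - (A ∩ P).card
              omega
            · ext x
              simp only [Finset.mem_union, Finset.mem_inter, Finset.mem_sdiff]
              tauto
      _ ≤ ∑ j ∈ (range (k + 1)).filter (fun j => k ≤ 8 * j),
            ((P.powersetCard j ×ˢ U.powersetCard (k - j)).image (fun q => q.1 ∪ q.2)).card :=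
          Finset.card_biUnion_le
      _ ≤ ∑ j ∈ (range (k + 1)).filter (fun j => k ≤ 8 * j),
            P.card.choose j * U.card.choose (k - j) := by
          apply Finset.sum_le_sum
          intro j _
          refine Finset.card_image_le.trans ?_
          rw [Finset.card_product, Finset.card_powersetCard, Finset.card_powersetCard]
  have h2 : ∀ j ∈ (range (k + 1)).filter (fun j => k ≤ 8 * j),
      ((P.card.choose j : ℝ) * (U.card.choose (k - j) : ℝ)) ≤
        (k.choose j : ℝ) * (ν ^ ((k : ℝ) / 8) * ((U.card : ℝ) ^ k / (k.factorial : ℝ))) := by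
    intro j hj
    rw [Finset.mem_filter, Finset.mem_range] at hj
    have hjk : j ≤ k := by omega
    have hkj : (k : ℝ) / 8 ≤ j := by
      have : (k : ℝ) ≤ 8 * j := by exact_mod_cast hj.2
      linarith
    have h3 : (P.card.choose j : ℝ) ≤ (P.card : ℝ) ^ j / (j.factorial : ℝ) :=
      Nat.choose_le_pow_div j P.card
    have h4 : (U.card.choose (k - j) : ℝ) ≤ (U.card : ℝ) ^ (k - j) / ((k - j).factorial : ℝ) :=
      Nat.choose_le_pow_div (k - j) U.card
    have h5 : (P.card : ℝ) ^ j ≤ (ν * U.card) ^ j :=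
      pow_le_pow_left₀ (Nat.cast_nonneg _) hν j
    have h6 : ν ^ j ≤ ν ^ ((k : ℝ) / 8) := by
      rw [← Real.rpow_natCast]
      exact Real.rpow_le_rpow_of_exponent_ge hν0 hν1 hkj
    have h7 : (k.choose j : ℝ) * (j.factorial : ℝ) * ((k - j).factorial : ℝ) =
        (k.factorial : ℝ) := by
      exact_mod_cast Nat.choose_mul_factorial_mul_factorial hjk
    have hj0 : (0 : ℝ) < (j.factorial : ℝ) := by exact_mod_cast Nat.factorial_pos j
    have hkj0 : (0 : ℝ) < ((k - j).factorial : ℝ) := by exact_mod_cast Nat.factorial_pos (k - j)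
    have hk0 : (0 : ℝ) < (k.factorial : ℝ) := by exact_mod_cast Nat.factorial_pos k
    calc (P.card.choose j : ℝ) * (U.card.choose (k - j) : ℝ)
        ≤ ((P.card : ℝ) ^ j / (j.factorial : ℝ)) *
            ((U.card : ℝ) ^ (k - j) / ((k - j).factorial : ℝ)) :=
          mul_le_mul h3 h4 (Nat.cast_nonneg _) (by positivity)
      _ ≤ ((ν * U.card) ^ j / (j.factorial : ℝ)) *
            ((U.card : ℝ) ^ (k - j) / ((k - j).factorial : ℝ)) := by
          apply mul_le_mul_of_nonneg_right _ (by positivity)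
          exact div_le_div_of_nonneg_right h5 hj0.le
      _ = (k.choose j : ℝ) * (ν ^ j * ((U.card : ℝ) ^ k / (k.factorial : ℝ))) := by
          have h8 : (U.card : ℝ) ^ k = (U.card : ℝ) ^ j * (U.card : ℝ) ^ (k - j) := by
            rw [← pow_add]
            congr 1
            omega
          rw [h8, ← h7, mul_pow]
          have hc0 : (0 : ℝ) < (k.choose j : ℝ) := by
            exact_mod_cast Nat.choose_pos hjk
          field_simp
      _ ≤ (k.choose j : ℝ) * (ν ^ ((k : ℝ) / 8) * ((U.card : ℝ) ^ k / (k.factorial : ℝ))) := by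
          apply mul_le_mul_of_nonneg_left _ (Nat.cast_nonneg _)
          exact mul_le_mul_of_nonneg_right h6 (by positivity)
  have h1' : (((U.powersetCard k).filter (fun A => k ≤ 8 * (A ∩ P).card)).card : ℝ) ≤
      ∑ j ∈ (range (k + 1)).filter (fun j => k ≤ 8 * j),
        ((P.card.choose j : ℝ) * (U.card.choose (k - j) : ℝ)) := by
    exact_mod_cast h1
  refine h1'.trans ((Finset.sum_le_sum h2).trans ?_)
  rw [← Finset.sum_mul, mul_assoc]
  apply mul_le_mul_of_nonneg_right _ (by positivity)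
  calc ∑ j ∈ (range (k + 1)).filter (fun j => k ≤ 8 * j), (k.choose j : ℝ)
      ≤ ∑ j ∈ range (k + 1), (k.choose j : ℝ) := by
        apply Finset.sum_le_sum_of_subset_of_nonneg (Finset.filter_subset _ _)
        intro j _ _
        positivity
    _ = 2 ^ k := by exact_mod_cast Nat.sum_range_choose k

/-- The number of `k`-subsets of `U` meeting `P`: at most `|P| |U|^(k-1)/(k-1)! `. -/
theorem meet_small (U P : Finset ℕ) (hP : P ⊆ U) (k : ℕ) (hk : 1 ≤ k) :
    (((U.powersetCard k).filter (fun A => (A ∩ P).Nonempty)).card : ℝ) * U.card ≤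
      k * P.card * ((U.card : ℝ) ^ k / (k.factorial : ℝ)) := by
  have h1 : ((U.powersetCard k).filter (fun A => (A ∩ P).Nonempty)).card ≤
      P.card * (U.card - 1).choose (k - 1) := by
    calc ((U.powersetCard k).filter (fun A => (A ∩ P).Nonempty)).card
        ≤ (P.biUnion (fun p => ((U.erase p).powersetCard (k - 1)).image (insert p))).card := by
          apply Finset.card_le_card
          intro A hA
          rw [Finset.mem_filter, Finset.mem_powersetCard] at hA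
          obtain ⟨⟨hAU, hAk⟩, p, hp⟩ := hA
          rw [Finset.mem_inter] at hp
          rw [Finset.mem_biUnion]
          refine ⟨p, hp.2, ?_⟩
          rw [Finset.mem_image]
          refine ⟨A.erase p, ?_, Finset.insert_erase hp.1⟩
          rw [Finset.mem_powersetCard, Finset.card_erase_of_mem hp.1, hAk]
          exact ⟨Finset.erase_subset_erase p hAU, rfl⟩
      _ ≤ ∑ p ∈ P, (((U.erase p).powersetCard (k - 1)).image (insert p)).card :=
          Finset.card_biUnion_le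
      _ ≤ ∑ _p ∈ P, (U.card - 1).choose (k - 1) := by
          apply Finset.sum_le_sum
          intro p hp
          refine Finset.card_image_le.trans ?_
          rw [Finset.card_powersetCard, Finset.card_erase_of_mem (hP hp)]
      _ = P.card * (U.card - 1).choose (k - 1) := by rw [Finset.sum_const, smul_eq_mul]
  rcases Nat.eq_zero_or_pos U.card with hU | hU
  · rw [hU, Nat.cast_zero, mul_zero]
    positivity
  obtain ⟨u, hu⟩ : ∃ u, U.card = u + 1 := ⟨U.card - 1, by omega⟩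
  obtain ⟨m, rfl⟩ : ∃ m, k = m + 1 := ⟨k - 1, by omega⟩
  have h2 := Nat.add_one_mul_choose_eq u m
  have h3 : ((u + 1).choose (m + 1) : ℝ) ≤ ((u + 1 : ℕ) : ℝ) ^ (m + 1) / ((m + 1).factorial : ℝ) :=
    Nat.choose_le_pow_div (m + 1) (u + 1)
  have h1' : (((U.powersetCard (m + 1)).filter (fun A => (A ∩ P).Nonempty)).card : ℝ) ≤
      (P.card : ℝ) * (u.choose m : ℝ) := by
    have h4 : U.card - 1 = u := by omega
    rw [h4, Nat.add_sub_cancel] at h1
    exact_mod_cast h1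
  have h2' : ((u + 1 : ℕ) : ℝ) * (u.choose m : ℝ) =
      ((u + 1).choose (m + 1) : ℝ) * ((m + 1 : ℕ) : ℝ) := by
    exact_mod_cast h2
  rw [hu]
  calc (((U.powersetCard (m + 1)).filter (fun A => (A ∩ P).Nonempty)).card : ℝ)
        * ((u + 1 : ℕ) : ℝ)
      ≤ (P.card : ℝ) * (u.choose m : ℝ) * ((u + 1 : ℕ) : ℝ) :=
        mul_le_mul_of_nonneg_right h1' (Nat.cast_nonneg _)
    _ = (P.card : ℝ) * (((u + 1 : ℕ) : ℝ) * (u.choose m : ℝ)) := by ring
    _ = ((m + 1 : ℕ) : ℝ) * (P.card : ℝ) * ((u + 1).choose (m + 1) : ℝ) := by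
        rw [h2']
        ring
    _ ≤ ((m + 1 : ℕ) : ℝ) * (P.card : ℝ) *
          (((u + 1 : ℕ) : ℝ) ^ (m + 1) / ((m + 1).factorial : ℝ)) :=
        mul_le_mul_of_nonneg_left h3 (by positivity)

end Pool.Agent.Lib.H68T
end

-- from Lib.H68X.XRC0
section

/-!
# Chunk XRC0: signs of a real character, Chernoff bound
-/

open Finset

namespace Pool.Agent.Lib.H68T



/-- Chernoff/Hoeffding: `∑_{8 j < k} C(k,j) ≤ 2^k e^(-k/4)`. For instance
`∑_{8j<k} C(k,j) ≤ ∑_j C(k,j) 7^(k/8 - j) = 7^(k/8) (8/7)^k`, and `7^(1/8) · 8/7 / 2 = 0.7287... <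
e^(-1/4) = 0.7788...`. -/
theorem chernoff (k : ℕ) :
    ((∑ j ∈ (range (k + 1)).filter (fun j => 8 * j < k), k.choose j : ℕ) : ℝ) ≤
      2 ^ k * Real.exp (-(k / 4 : ℝ)) := by
  push_cast
  have h1 : ∑ j ∈ (range (k + 1)).filter (fun j => 8 * j < k), (k.choose j : ℝ) ≤
      ∑ j ∈ range (k + 1), (k.choose j : ℝ) * ((7 : ℝ) ^ ((k : ℝ) / 8) * (1 / 7) ^ j) := by
    calc ∑ j ∈ (range (k + 1)).filter (fun j => 8 * j < k), (k.choose j : ℝ)
        ≤ ∑ j ∈ (range (k + 1)).filter (fun j => 8 * j < k),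
            (k.choose j : ℝ) * ((7 : ℝ) ^ ((k : ℝ) / 8) * (1 / 7) ^ j) := by
          apply Finset.sum_le_sum
          intro j hj
          have hj2 : 8 * j < k := (Finset.mem_filter.mp hj).2
          have hj3 : (8 : ℝ) * j ≤ k := by exact_mod_cast hj2.le
          have h2 : (1 : ℝ) ≤ (7 : ℝ) ^ ((k : ℝ) / 8) * (1 / 7) ^ j := by
            have h3 : (7 : ℝ) ^ (j : ℝ) ≤ (7 : ℝ) ^ ((k : ℝ) / 8) :=
              Real.rpow_le_rpow_of_exponent_le (by norm_num) (by linarith)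
            rw [Real.rpow_natCast] at h3
            rw [one_div, inv_pow, ← div_eq_mul_inv, le_div_iff₀ (by positivity), one_mul]
            exact h3
          calc (k.choose j : ℝ) = (k.choose j : ℝ) * 1 := (mul_one _).symm
            _ ≤ _ := mul_le_mul_of_nonneg_left h2 (Nat.cast_nonneg _)
      _ ≤ _ := by
          apply Finset.sum_le_sum_of_subset_of_nonneg (Finset.filter_subset _ _)
          intro j _ _
          positivity
  refine h1.trans ?_
  have h2 : ∑ j ∈ range (k + 1), (k.choose j : ℝ) * ((7 : ℝ) ^ ((k : ℝ) / 8) * (1 / 7) ^ j) =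
      (7 : ℝ) ^ ((k : ℝ) / 8) * (8 / 7) ^ k := by
    have h3 := add_pow (1 / 7 : ℝ) 1 k
    have h4 : (8 / 7 : ℝ) ^ k = (1 / 7 + 1) ^ k := by norm_num
    rw [h4, h3, Finset.mul_sum]
    apply Finset.sum_congr rfl
    intro j _
    rw [one_pow]
    ring
  rw [h2]
  have h5 : (7 : ℝ) ^ ((k : ℝ) / 8) = ((7 : ℝ) ^ (1 / 8 : ℝ)) ^ k := by
    rw [← Real.rpow_natCast ((7 : ℝ) ^ (1 / 8 : ℝ)) k, ← Real.rpow_mul (by norm_num)]
    congr 1
    ring
  have h6 : Real.exp (-(k / 4 : ℝ)) = (Real.exp (-(1 / 4 : ℝ))) ^ k := by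
    rw [← Real.exp_nat_mul]
    congr 1
    ring
  rw [h5, h6, ← mul_pow, ← mul_pow]
  apply pow_le_pow_left₀ (by positivity)
  -- `7^(1/8) * (8/7) ≤ 2 * exp (-1/4)`
  have h7 : 0 ≤ (7 : ℝ) ^ (1 / 8 : ℝ) * (8 / 7) := by positivity
  have h8 : 0 ≤ 2 * Real.exp (-(1 / 4 : ℝ)) := by positivity
  apply le_of_pow_le_pow_left₀ (n := 8) (by norm_num) h8
  rw [mul_pow, mul_pow, ← Real.rpow_natCast ((7 : ℝ) ^ (1 / 8 : ℝ)) 8,
    ← Real.rpow_mul (by norm_num), ← Real.exp_nat_mul]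
  norm_num
  have h9 : Real.exp (-2 : ℝ) = (Real.exp 1 ^ 2)⁻¹ := by
    rw [← Real.exp_nat_mul, ← Real.exp_neg]
    norm_num
  have h10 := Real.exp_one_lt_d9
  have h11 : Real.exp 1 ^ 2 ≤ 2.7182818286 ^ 2 :=
    pow_le_pow_left₀ (Real.exp_pos 1).le h10.le 2
  rw [h9, ← div_eq_mul_inv, le_div_iff₀ (by positivity)]
  nlinarith

end Pool.Agent.Lib.H68T
end

-- from Lib.H68X.XRC
section

/-!
# Chunk XRC: sign vectors of admissible sets
-/

open Finset

namespace Pool.Agent.Lib.H68T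

section XRCaux

open scoped Classical

variable {k L r : ℕ} [NeZero L]

/-- coprime to `r` and admissible at the small primes -/
def XRC_ok {k L : ℕ} (r : ℕ) (b : Fin k → ZMod L) : Prop :=
  (∀ i, IsUnit ((b i).cast : ZMod r)) ∧
    ∀ p : ℕ, p.Prime → p ≤ k → ¬ p ∣ r → ∃ c : ZMod p, ∀ i, ((b i).cast : ZMod p) ≠ c

/-- the tuples modulo `L` which are coprime to `r` and admissible at the small primes -/
noncomputable def XRC_T (k L r : ℕ) [NeZero L] : Finset (Fin k → ZMod L) :=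
  univ.filter (XRC_ok r)

/-- the bad sets -/
def XRC_badset {r : ℕ} (ψ : DirichletCharacter ℂ r) (k : ℕ) (A : Finset ℕ) : Prop :=
  Admissible A ∧ ∃ n < r, (∀ a ∈ A, Nat.Coprime (n + a) r) ∧
        8 * (A.filter (fun a : ℕ => ψ ((n + a : ℕ) : ZMod r) = 1)).card < k

/-- the coordinates with a plus sign -/
noncomputable def XRC_plus (ψ : DirichletCharacter ℂ r) (b : Fin k → ZMod L) : Finset (Fin k) :=
  univ.filter (fun i => ψ ((b i).cast : ZMod r) = 1)

/-- multiplication of the coordinates in `S` by `u` -/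
noncomputable def XRC_act (u : ZMod L) (S : Finset (Fin k)) (b : Fin k → ZMod L) :
    Fin k → ZMod L :=
  fun i => if i ∈ S then u * b i else b i

theorem XRC_act_bij {u : ZMod L} (hu : IsUnit u) (S : Finset (Fin k)) :
    Function.Bijective (XRC_act u S : (Fin k → ZMod L) → _) := by
  refine Finite.injective_iff_bijective.mp ?_
  intro b b' h
  funext i
  have h1 := congrFun h i
  unfold XRC_act at h1
  split_ifs at h1
  · exact hu.mul_left_cancel h1
  · exact h1

omit [NeZero L] in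
theorem XRC_act_cast {u : ZMod L} (hrL : r ∣ L) (S : Finset (Fin k)) (b : Fin k → ZMod L)
    (i : Fin k) : ((XRC_act u S b i).cast : ZMod r) =
      if i ∈ S then (u.cast : ZMod r) * ((b i).cast : ZMod r) else ((b i).cast : ZMod r) := by
  unfold XRC_act
  split_ifs
  · rw [ZMod.cast_mul hrL]
  · rfl

theorem XRC_act_mem {u : ZMod L} (hrL : r ∣ L)
    (hpL : ∀ p : ℕ, p.Prime → p ≤ k → ¬ p ∣ r → p ∣ L) (hur : IsUnit (u.cast : ZMod r))
    (hup : ∀ p : ℕ, p.Prime → p ≤ k → ¬ p ∣ r → (u.cast : ZMod p) = 1)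
    (S : Finset (Fin k)) (b : Fin k → ZMod L) :
    b ∈ XRC_T k L r ↔ XRC_act u S b ∈ XRC_T k L r := by
  unfold XRC_T
  rw [mem_filter, mem_filter]
  unfold XRC_ok
  simp only [mem_univ, true_and]
  have h1 : ∀ i, IsUnit ((XRC_act u S b i).cast : ZMod r) ↔ IsUnit ((b i).cast : ZMod r) := by
    intro i
    rw [XRC_act_cast hrL]
    split_ifs
    · exact ⟨fun h => isUnit_of_mul_isUnit_right h, fun h => hur.mul h⟩
    · rfl
  have h2 : ∀ p : ℕ, p.Prime → p ≤ k → ¬ p ∣ r → ∀ i,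
      ((XRC_act u S b i).cast : ZMod p) = ((b i).cast : ZMod p) := by
    intro p hp hpk hpr i
    rw [XRC_act_cast (hpL p hp hpk hpr), hup p hp hpk hpr, one_mul, ite_self]
  constructor
  · rintro ⟨h3, h4⟩
    refine ⟨fun i => (h1 i).2 (h3 i), fun p hp hpk hpr => ?_⟩
    obtain ⟨c, hc⟩ := h4 p hp hpk hpr
    exact ⟨c, fun i => by rw [h2 p hp hpk hpr i]; exact hc i⟩
  · rintro ⟨h3, h4⟩
    refine ⟨fun i => (h1 i).1 (h3 i), fun p hp hpk hpr => ?_⟩
    obtain ⟨c, hc⟩ := h4 p hp hpk hpr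
    exact ⟨c, fun i => by rw [← h2 p hp hpk hpr i]; exact hc i⟩

theorem XRC_sq {w : ℂ} (h : w ^ 2 = 1) : w = 1 ∨ w = -1 := by
  have : (w - 1) * (w + 1) = 0 := by ring_nf; rw [h]; ring
  rcases mul_eq_zero.mp this with h | h
  · left; linear_combination h
  · right; linear_combination h

theorem XRC_sign {ψ : DirichletCharacter ℂ r} (hψ2 : ψ ^ 2 = 1) {z : ZMod r} (hz : IsUnit z) :
    ψ z = 1 ∨ ψ z = -1 := by
  have h : (ψ ^ 2) z = 1 := by
    rw [hψ2]
    exact MulChar.one_apply hz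
  rw [MulChar.pow_apply' _ (by norm_num)] at h
  exact XRC_sq h

theorem XRC_plus_act {u : ZMod L} (hrL : r ∣ L) {ψ : DirichletCharacter ℂ r} (hψ2 : ψ ^ 2 = 1)
    (hu : ψ (u.cast : ZMod r) = -1) (S : Finset (Fin k)) (b : Fin k → ZMod L)
    (hb : b ∈ XRC_T k L r) : XRC_plus ψ (XRC_act u S b) = symmDiff (XRC_plus ψ b) S := by
  ext i
  unfold XRC_T at hb
  rw [mem_filter] at hb
  have h1 := XRC_sign hψ2 (hb.2.1 i)
  rw [mem_symmDiff]
  unfold XRC_plus
  rw [mem_filter, mem_filter]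
  simp only [mem_univ, true_and]
  rw [XRC_act_cast hrL]
  by_cases hi : i ∈ S
  · rw [if_pos hi, map_mul, hu]
    rcases h1 with h1 | h1
    · rw [h1]
      simp [hi]
      norm_num
    · rw [h1]
      simp [hi]
      norm_num
  · rw [if_neg hi]
    simp [hi]

/-- the number of subsets of `Fin k` with fewer than `k/8` elements -/
theorem XRC_small_sets (k : ℕ) :
    ((univ : Finset (Finset (Fin k))).filter (fun S => 8 * S.card < k)).card =
      ∑ j ∈ (range (k + 1)).filter (fun j => 8 * j < k), k.choose j := by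
  have hmaps : ∀ S ∈ (univ : Finset (Finset (Fin k))).filter (fun S => 8 * S.card < k),
      S.card ∈ (range (k + 1)).filter (fun j => 8 * j < k) := by
    intro S hS
    rw [mem_filter] at hS
    rw [mem_filter, mem_range]
    exact ⟨by omega, hS.2⟩
  rw [card_eq_sum_card_fiberwise hmaps]
  refine sum_congr rfl (fun j hj => ?_)
  rw [mem_filter] at hj
  have h1 : ((univ : Finset (Finset (Fin k))).filter (fun S => 8 * S.card < k)).filter
      (fun S => S.card = j) = powersetCard j univ := by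
    ext S
    rw [mem_filter, mem_filter, mem_powersetCard]
    constructor
    · rintro ⟨_, h⟩
      exact ⟨subset_univ _, h⟩
    · rintro ⟨_, h⟩
      refine ⟨⟨mem_univ _, ?_⟩, h⟩
      rw [h]
      exact hj.2
  rw [h1, card_powersetCard, card_univ, Fintype.card_fin]

/-- the sign vectors are equidistributed -/
theorem XRC_equi {u : ZMod L} (hrL : r ∣ L) {ψ : DirichletCharacter ℂ r} (hψ2 : ψ ^ 2 = 1)
    (hpL : ∀ p : ℕ, p.Prime → p ≤ k → ¬ p ∣ r → p ∣ L) (huu : IsUnit u)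
    (hur : IsUnit (u.cast : ZMod r))
    (hup : ∀ p : ℕ, p.Prime → p ≤ k → ¬ p ∣ r → (u.cast : ZMod p) = 1)
    (hu : ψ (u.cast : ZMod r) = -1) :
    2 ^ k * ((XRC_T k L r).filter (fun b => 8 * (XRC_plus ψ b).card < k)).card =
      (XRC_T k L r).card * ∑ j ∈ (range (k + 1)).filter (fun j => 8 * j < k), k.choose j := by
  have h1 : ∀ S : Finset (Fin k),
      ((XRC_T k L r).filter (fun b => 8 * (XRC_plus ψ b).card < k)).card =
      ((XRC_T k L r).filter (fun b => 8 * (symmDiff (XRC_plus ψ b) S).card < k)).card := by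
    intro S
    symm
    refine Finset.card_bijective (XRC_act u S) (XRC_act_bij huu S) (fun b => ?_)
    rw [mem_filter, mem_filter, ← XRC_act_mem hrL hpL hur hup S b]
    constructor
    · rintro ⟨h2, h3⟩
      refine ⟨h2, ?_⟩
      rw [XRC_plus_act hrL hψ2 hu S b h2]
      exact h3
    · rintro ⟨h2, h3⟩
      refine ⟨h2, ?_⟩
      rw [XRC_plus_act hrL hψ2 hu S b h2] at h3
      exact h3
  have h2 : ∑ S : Finset (Fin k),
      ((XRC_T k L r).filter (fun b => 8 * (symmDiff (XRC_plus ψ b) S).card < k)).card =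
      ∑ b ∈ XRC_T k L r, ((univ : Finset (Finset (Fin k))).filter (fun S =>
        8 * (symmDiff (XRC_plus ψ b) S).card < k)).card := by
    simp only [card_filter]
    rw [sum_comm]
  have h3 : ∀ b ∈ XRC_T k L r, ((univ : Finset (Finset (Fin k))).filter (fun S =>
        8 * (symmDiff (XRC_plus ψ b) S).card < k)).card =
        ((univ : Finset (Finset (Fin k))).filter (fun S => 8 * S.card < k)).card := by
    intro b _
    refine Finset.card_bijective (fun S => symmDiff (XRC_plus ψ b) S) ?_ (fun S => ?_)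
    · exact (symmDiff_right_involutive _).bijective
    · rw [mem_filter, mem_filter]
      simp only [mem_univ, true_and]
  rw [sum_congr rfl h3, sum_const, smul_eq_mul, XRC_small_sets] at h2
  rw [← h2, ← sum_congr rfl (fun S _ => h1 S), sum_const, smul_eq_mul, card_univ,
    Fintype.card_finset, Fintype.card_fin]

/-- a unit with sign `-1`, trivial at the other small primes -/
theorem XRC_exists_unit [NeZero r] (ψ : DirichletCharacter ℂ r) (hψ : ψ ≠ 1) (hψ2 : ψ ^ 2 = 1)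
    (hL : r * (∏ p ∈ (range (k + 1)).filter (fun p => p.Prime ∧ ¬ p ∣ r), p) ∣ L) :
    ∃ u : ZMod L, IsUnit u ∧ IsUnit (u.cast : ZMod r) ∧
      (∀ p : ℕ, p.Prime → p ≤ k → ¬ p ∣ r → (u.cast : ZMod p) = 1) ∧
      ψ (u.cast : ZMod r) = -1 := by
  obtain ⟨u0, hu0⟩ : ∃ u0 : (ZMod r)ˣ, ψ u0 ≠ 1 := by
    by_contra h
    push Not at h
    exact hψ (MulChar.ext fun a => by rw [h a, MulChar.one_apply_coe])
  have h1 : ψ u0 = -1 := by
    rcases XRC_sign hψ2 u0.isUnit with h | h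
    · exact absurd h hu0
    · exact h
  set P := ∏ p ∈ (range (k + 1)).filter (fun p => p.Prime ∧ ¬ p ∣ r), p with hP
  have hcop : Nat.Coprime r P := by
    refine Nat.Coprime.prod_right (fun p hp => ?_)
    rw [mem_filter] at hp
    exact ((Nat.Prime.coprime_iff_not_dvd hp.2.1).2 hp.2.2).symm
  obtain ⟨x, hx1, hx2⟩ := Nat.chineseRemainder hcop (u0 : ZMod r).val 1
  have hxr : (x : ZMod r) = u0 := by
    rw [(ZMod.natCast_eq_natCast_iff _ _ _).2 hx1, ZMod.natCast_val, ZMod.cast_id]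
  have hxc : Nat.Coprime x (r * P) := by
    refine Nat.Coprime.mul_right ?_ ?_
    · rw [← ZMod.isUnit_iff_coprime, hxr]
      exact u0.isUnit
    · have := hx2.gcd_eq
      rw [Nat.gcd_one_left] at this
      exact this
  obtain ⟨u, hu⟩ := ZMod.unitsMap_surjective hL (ZMod.unitOfCoprime x hxc)
  have hu1 : ((u : ZMod L).cast : ZMod (r * P)) = x := by
    have h2 := congrArg (fun w : (ZMod (r * P))ˣ => (w : ZMod (r * P))) hu
    rw [ZMod.coe_unitOfCoprime] at h2
    exact h2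
  have hdvd : ∀ q : ℕ, q ∣ r * P → ((u : ZMod L).cast : ZMod q) = x := by
    intro q hq
    have h3 : (ZMod.castHom hq (ZMod q)).comp (ZMod.castHom hL (ZMod (r * P))) =
        ZMod.castHom (hq.trans hL) (ZMod q) := Subsingleton.elim _ _
    have h4 := congrArg (fun g => g (u : ZMod L)) h3
    simp only [RingHom.comp_apply, ZMod.castHom_apply] at h4
    rw [← h4, hu1]
    exact ZMod.cast_natCast hq x
  refine ⟨u, u.isUnit, ?_, ?_, ?_⟩
  · rw [hdvd r (dvd_mul_right _ _), hxr]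
    exact u0.isUnit
  · intro p hp hpk hpr
    have hpP : p ∣ P := dvd_prod_of_mem _ (mem_filter.2 ⟨mem_range.2 (by omega), hp, hpr⟩)
    rw [hdvd p (hpP.mul_left _)]
    have h5 := hx2.of_dvd hpP
    have h6 := (ZMod.natCast_eq_natCast_iff x 1 p).2 h5
    rw [h6, Nat.cast_one]
  · rw [hdvd r (dvd_mul_right _ _), hxr, h1]

theorem XRC_large_prime {p : ℕ} (hp : p.Prime) (hkp : k < p) (f : Fin k → ℕ) :
    ∃ z : ZMod p, ∀ a ∈ univ.image f, (a : ZMod p) ≠ z := by
  have : NeZero p := ⟨hp.ne_zero⟩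
  have hcard : ((univ.image f).image (fun y : ℕ => (y : ZMod p))).card <
      Fintype.card (ZMod p) := by
    rw [ZMod.card]
    refine lt_of_le_of_lt card_image_le (lt_of_le_of_lt card_image_le ?_)
    simpa using hkp
  obtain ⟨z, hz⟩ := exists_mem_notMem_of_card_lt_card (s := (univ.image f).image
    (fun y : ℕ => (y : ZMod p))) (t := univ) (by rw [card_univ]; exact hcard)
  refine ⟨z, fun y hy h => hz.2 ?_⟩
  rw [← h]
  exact mem_image_of_mem _ hy

theorem XRC_cast_val {q : ℕ} (z : ZMod L) : (z.cast : ZMod q) = ((z.val : ℕ) : ZMod q) := by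
  rw [ZMod.natCast_val]

/-- injective tuples of `T` give admissible sets -/
theorem XRC_inj (H : ℕ) (hLH : L ≤ H + 1) :
    ((XRC_T k L r).filter (fun b => Function.Injective b)).card ≤
      k.factorial * (((range (H + 1)).powersetCard k).filter (fun A => Admissible A)).card := by
  rw [← SETS_tuples k H]
  refine card_le_card_of_injOn (fun b i => (b i).val) ?_ ?_
  · intro b hb
    rw [mem_coe, mem_filter] at hb
    obtain ⟨hb, hinj⟩ := hb
    unfold XRC_T at hb
    rw [mem_filter] at hb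
    obtain ⟨-, hb1, hb2⟩ := hb
    rw [mem_coe, mem_filter]
    refine ⟨?_, ?_, ?_⟩
    · unfold SETS_Om
      rw [Fintype.mem_piFinset]
      intro i
      rw [mem_range]
      exact lt_of_lt_of_le (ZMod.val_lt _) hLH
    · intro i j h
      exact hinj (ZMod.val_injective _ h)
    · intro p hp
      by_cases hpr : p ∣ r
      · refine ⟨0, fun y hy => ?_⟩
        rw [mem_image] at hy
        obtain ⟨i, -, rfl⟩ := hy
        intro h
        have h1 := hb1 i
        rw [XRC_cast_val, ZMod.isUnit_iff_coprime] at h1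
        have h2 := (ZMod.natCast_eq_zero_iff _ _).1 h
        have h3 := Nat.dvd_gcd h2 hpr
        rw [h1] at h3
        exact hp.one_lt.ne' (Nat.dvd_one.mp h3)
      · by_cases hpk : p ≤ k
        · obtain ⟨c, hc⟩ := hb2 p hp hpk hpr
          refine ⟨c, fun y hy => ?_⟩
          rw [mem_image] at hy
          obtain ⟨i, -, rfl⟩ := hy
          rw [← XRC_cast_val]
          exact hc i
        · exact XRC_large_prime hp (by omega) _
  · intro b _ b' _ h
    funext i
    exact ZMod.val_injective _ (congrFun h i)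

theorem XRC_noninj : ((univ : Finset (Fin k → ZMod L)).filter
    (fun b => ¬ Function.Injective b)).card ≤ k ^ 2 * L ^ (k - 1) := by
  have h1 : ∀ i j : Fin k, i ≠ j →
      ((univ : Finset (Fin k → ZMod L)).filter (fun b => b i = b j)).card ≤ L ^ (k - 1) := by
    intro i j hij
    have h2 : Fintype.card ({x : Fin k // x ≠ j} → ZMod L) = L ^ (k - 1) := by
      rw [Fintype.card_fun, ZMod.card]
      congr 1
      rw [Fintype.card_subtype_compl, Fintype.card_fin]
      simp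
    rw [← h2, ← card_univ]
    refine card_le_card_of_injOn (fun b x => b x.1) (fun _ _ => mem_univ _) ?_
    intro b hb b' hb' h
    rw [mem_coe, mem_filter] at hb hb'
    have h3 : ∀ x : Fin k, x ≠ j → b x = b' x := fun x hx => congrFun h ⟨x, hx⟩
    funext x
    by_cases hx : x = j
    · rw [hx, ← hb.2, ← hb'.2, h3 i hij]
    · exact h3 x hx
  have hsub : (univ : Finset (Fin k → ZMod L)).filter (fun b => ¬ Function.Injective b) ⊆
      ((univ : Finset (Fin k × Fin k)).filter (fun q => q.1 ≠ q.2)).biUnion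
        (fun q => (univ : Finset (Fin k → ZMod L)).filter (fun b => b q.1 = b q.2)) := by
    intro b hb
    rw [mem_filter] at hb
    have h4 := hb.2
    unfold Function.Injective at h4
    push Not at h4
    obtain ⟨i, j, h5, h6⟩ := h4
    rw [mem_biUnion]
    exact ⟨(i, j), mem_filter.2 ⟨mem_univ _, h6⟩, mem_filter.2 ⟨mem_univ _, h5⟩⟩
  refine (card_le_card hsub).trans (card_biUnion_le.trans ?_)
  have h7 : ∀ q ∈ (univ : Finset (Fin k × Fin k)).filter (fun q => q.1 ≠ q.2),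
      ((univ : Finset (Fin k → ZMod L)).filter (fun b => b q.1 = b q.2)).card ≤ L ^ (k - 1) := by
    intro q hq
    rw [mem_filter] at hq
    exact h1 _ _ hq.2
  refine (sum_le_sum h7).trans ?_
  rw [sum_const, smul_eq_mul]
  refine Nat.mul_le_mul_right _ ((card_le_univ _).trans ?_)
  rw [Fintype.card_prod, Fintype.card_fin, sq]

theorem XRC_T_le (H : ℕ) (hLH : L ≤ H + 1) :
    (XRC_T k L r).card ≤
      k.factorial * (((range (H + 1)).powersetCard k).filter (fun A => Admissible A)).card +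
        k ^ 2 * L ^ (k - 1) := by
  rw [← card_filter_add_card_filter_not (s := XRC_T k L r) (fun b => Function.Injective b)]
  refine Nat.add_le_add (XRC_inj H hLH) (le_trans (card_le_card ?_) XRC_noninj)
  exact filter_subset_filter _ (subset_univ _)

/-- the bad sets -/
theorem XRC_bad [NeZero r] (H : ℕ) (ψ : DirichletCharacter ℂ r) (hrL : r ∣ L)
    (hpL : ∀ p : ℕ, p.Prime → p ≤ k → ¬ p ∣ r → p ∣ L) :
    k.factorial * (((range (H + 1)).powersetCard k).filter (XRC_badset ψ k)).card ≤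
      k * ((H + 1 - L) * (H + 1) ^ (k - 1)) +
        r * ((XRC_T k L r).filter (fun b => 8 * (XRC_plus ψ b).card < k)).card := by
  rw [← SETS_tuples k H (XRC_badset ψ k)]
  set X : ℕ → Finset (Fin k → ℕ) := fun n => (SETS_Om k H).filter (fun a => (∀ i, a i < L) ∧
    Function.Injective a ∧ Admissible (univ.image a) ∧ (∀ i, Nat.Coprime (n + a i) r) ∧
    8 * (univ.filter (fun i => ψ ((n + a i : ℕ) : ZMod r) = 1)).card < k) with hX
  have hsub : (SETS_Om k H).filter
      (fun a => Function.Injective a ∧ XRC_badset ψ k (univ.image a)) ⊆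
      ((univ : Finset (Fin k)).biUnion (fun i => (SETS_Om k H).filter (fun a => L ≤ a i))) ∪
        (range r).biUnion X := by
    intro a ha
    rw [mem_filter] at ha
    obtain ⟨h1, h2, h3, n, hn, h4, h5⟩ := ha
    rw [mem_union]
    by_cases h6 : ∃ i, L ≤ a i
    · left
      obtain ⟨i, hi⟩ := h6
      rw [mem_biUnion]
      exact ⟨i, mem_univ _, mem_filter.2 ⟨h1, hi⟩⟩
    · right
      push Not at h6
      rw [mem_biUnion]
      refine ⟨n, mem_range.2 hn, mem_filter.2 ⟨h1, h6, h2, h3, fun i => h4 _ ?_, ?_⟩⟩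
      · exact mem_image_of_mem _ (mem_univ _)
      · have h7 : (univ.image a).filter (fun y : ℕ => ψ ((n + y : ℕ) : ZMod r) = 1) =
            (univ.filter (fun i => ψ ((n + a i : ℕ) : ZMod r) = 1)).image a := by
          rw [filter_image]
        rw [h7, card_image_of_injective _ h2] at h5
        exact h5
  refine (card_le_card hsub).trans ((card_union_le _ _).trans (Nat.add_le_add ?_ ?_))
  · refine card_biUnion_le.trans ((sum_le_sum (fun i _ => SETS_large k H L i)).trans ?_)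
    rw [sum_const, smul_eq_mul, card_univ, Fintype.card_fin]
  · refine card_biUnion_le.trans ?_
    have h8 : ∀ n ∈ range r, (X n).card ≤
        ((XRC_T k L r).filter (fun b => 8 * (XRC_plus ψ b).card < k)).card := by
      intro n _
      refine card_le_card_of_injOn (fun a i => ((n + a i : ℕ) : ZMod L)) ?_ ?_
      · intro a ha
        rw [mem_coe, hX, mem_filter] at ha
        obtain ⟨h1, h2, h3, h4, h5, h6⟩ := ha
        rw [mem_coe, mem_filter]
        have h9 : ∀ i, ((((n + a i : ℕ) : ZMod L)).cast : ZMod r) = ((n + a i : ℕ) : ZMod r) :=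
          fun i => ZMod.cast_natCast hrL _
        refine ⟨?_, ?_⟩
        · unfold XRC_T
          rw [mem_filter]
          refine ⟨mem_univ _, fun i => ?_, fun p hp hpk hpr => ?_⟩
          · show IsUnit ((((n + a i : ℕ) : ZMod L)).cast : ZMod r)
            rw [h9, ZMod.isUnit_iff_coprime]
            exact h5 i
          · obtain ⟨c, hc⟩ := h4 p hp
            refine ⟨n + c, fun i h => ?_⟩
            change ((((n + a i : ℕ) : ZMod L)).cast : ZMod p) = n + c at h
            rw [ZMod.cast_natCast (hpL p hp hpk hpr), Nat.cast_add] at h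
            exact hc (a i) (mem_image_of_mem _ (mem_univ _)) (add_left_cancel h)
        · unfold XRC_plus
          simp only [h9]
          exact h6
      · intro a ha a' ha' h
        rw [mem_coe, hX, mem_filter] at ha ha'
        funext i
        have h1 := congrFun h i
        simp only at h1
        rw [Nat.cast_add, Nat.cast_add] at h1
        have h2 := add_left_cancel h1
        rw [ZMod.natCast_eq_natCast_iff] at h2
        exact Nat.ModEq.eq_of_lt_of_lt h2 (ha.2.1 i) (ha'.2.1 i)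
    refine (sum_le_sum h8).trans ?_
    rw [sum_const, smul_eq_mul, card_range]

end XRCaux

open scoped Classical in
/-- **Few bad sets.** Let `ψ` be a real character mod `r`, `ψ ≠ 1`. Call `A` bad if for some `n < r`
all `n + a` (`a ∈ A`) are coprime to `r` and fewer than `k/8` of the `a` have `ψ(n + a) = 1`.

Proof. Put `R = r ∏_{p ≤ k, p ∤ r} p`, `H + 1 = M R + ρ`, `ρ < R` (`R ≤ r 4^k`). Count injective tuples
`a : Fin k → [0, H]` (each set corresponds to `k!` of them). Those with some `a i ≥ M R`: at most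
`k R (H+1)^(k-1)` (this is at most `e^(-k/4)/8` times the number of admissible tuples, by `hH` and
`adm_lower`-type counting: there are at least `(3/4)φ(W)^k M'^k` admissible injective tuples...).
For the others fix `n < r` and count all tuples `a ∈ [0, M R)^k` with `n + a i` coprime to `r` for
all `i`, admissible at the primes `p ≤ k`, `p ∤ r` (some class mod `p` avoided): by the Chinese
remainder theorem `a i mod r` and `a i mod R/r` are independent, so the sign vectors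
`(ψ(n + a i))_i` are equidistributed in `{±1}^k` (`half_plus`): the number of such tuples with
fewer than `k/8` plus signs is `2^(-k) ∑_{8j<k} C(k,j) ≤ e^(-k/4)` times the number `N_n` of such
tuples. Such tuples are admissible (at the primes `p ∣ r` the class `-n` is avoided, at `p > k` the
injective ones avoid some class), and the non-injective ones are at most `k² (M R)^(k-1)` in number.
Summing over `n < r`: `#bad ≤ 2 r e^(-k/4) #admissible`. -/
theorem few_bad (H k r : ℕ) [NeZero r] (ψ : DirichletCharacter ℂ r) (hψ : ψ ≠ 1)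
    (hψ2 : ψ ^ 2 = 1) (hk : 2 ≤ k)
    (hH : (100 * k ^ 2 * (r * 4 ^ k) : ℝ) * (k : ℝ) ^ k * Real.exp k ≤ H + 1) :
    ((((range (H + 1)).powersetCard k).filter (fun A => Admissible A ∧
      ∃ n < r, (∀ a ∈ A, Nat.Coprime (n + a) r) ∧
        8 * (A.filter (fun a : ℕ => ψ ((n + a : ℕ) : ZMod r) = 1)).card < k)).card : ℝ) ≤
      2 * r * Real.exp (-(k / 4 : ℝ)) *
        ((((range (H + 1)).powersetCard k).filter (fun A => Admissible A)).card : ℝ) := by
  have hr0 : 0 < r := Nat.pos_of_ne_zero (NeZero.ne r)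
  have hr1 : (1 : ℝ) ≤ r := by exact_mod_cast hr0
  have hk1 : (2 : ℝ) ≤ k := by exact_mod_cast hk
  set P := ∏ p ∈ (range (k + 1)).filter (fun p => p.Prime ∧ ¬ p ∣ r), p with hP
  have hPprim : P ∣ primorial k := by
    unfold primorial
    refine prod_dvd_prod_of_subset _ _ _ (fun p hp => ?_)
    rw [mem_filter] at hp ⊢
    exact ⟨hp.1, hp.2.1⟩
  have hPle : P ≤ 4 ^ k := (Nat.le_of_dvd (primorial_pos k) hPprim).trans (primorial_le_four_pow k)
  have hP0 : 0 < P := Nat.pos_of_dvd_of_pos hPprim (primorial_pos k)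
  have hR0 : 0 < r * P := Nat.mul_pos hr0 hP0
  set M := (H + 1) / (r * P) with hM
  set L := r * P * M with hL
  have hLH : L ≤ H + 1 := Nat.mul_div_le _ _
  have hHL : H + 1 - L ≤ r * P := by
    have := Nat.lt_mul_div_succ (H + 1) hR0
    rw [← hM, mul_add, mul_one, ← hL] at this
    omega
  have hL0 : 0 < L := by
    rcases Nat.eq_zero_or_pos L with h | h
    · exfalso
      rw [h, Nat.sub_zero] at hHL
      have h1 : ((H : ℝ) + 1) ≤ r * 4 ^ k := by
        have : ((H + 1 : ℕ) : ℝ) ≤ ((r * 4 ^ k : ℕ) : ℝ) := by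
          exact_mod_cast hHL.trans (Nat.mul_le_mul_left _ hPle)
        push_cast at this
        exact this
      have h2 : (1 : ℝ) ≤ Real.exp k := Real.one_le_exp (by positivity)
      have h3 : (1 : ℝ) ≤ (k : ℝ) ^ k := one_le_pow₀ (by linarith)
      have h4 : (0 : ℝ) < r * 4 ^ k := by positivity
      have h5 : (400 : ℝ) ≤ 100 * (k : ℝ) ^ 2 := by
        have := pow_le_pow_left₀ (by norm_num : (0 : ℝ) ≤ 2) hk1 2
        linarith
      have h6 : 400 * (r * 4 ^ k : ℝ) ≤ (100 * k ^ 2 * (r * 4 ^ k) : ℝ) * (k : ℝ) ^ k * Real.exp k := by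
        have h7 : 400 * (r * 4 ^ k : ℝ) * 1 * 1 ≤
            (100 * k ^ 2 * (r * 4 ^ k) : ℝ) * (k : ℝ) ^ k * Real.exp k := by
          gcongr
        linarith
      linarith
    · exact h
  have : NeZero L := ⟨hL0.ne'⟩
  have hrL : r ∣ L := by
    rw [hL, mul_assoc]
    exact dvd_mul_right _ _
  have hRL : r * P ∣ L := dvd_mul_right _ _
  have hpL : ∀ p : ℕ, p.Prime → p ≤ k → ¬ p ∣ r → p ∣ L := by
    intro p hp hpk hpr
    have hpP : p ∣ P := dvd_prod_of_mem _ (mem_filter.2 ⟨mem_range.2 (by omega), hp, hpr⟩)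
    exact (hpP.mul_left _).trans hRL
  obtain ⟨u, hu1, hu2, hu3, hu4⟩ := XRC_exists_unit (k := k) ψ hψ hψ2 hRL
  have hequi := XRC_equi hrL hψ2 hpL hu1 hu2 hu3 hu4
  have hT := XRC_T_le (k := k) (r := r) H hLH
  have hbad := XRC_bad H ψ hrL hpL (k := k)
  have hch := chernoff k
  have hadm := adm_lower H k (by omega) (by
    have h1 : ((8 * k ^ 2 * primorial k : ℕ) : ℝ) ≤ ((H + 1 : ℕ) : ℝ) := by
      have h2 : (1 : ℝ) ≤ Real.exp k := Real.one_le_exp (by positivity)
      have h3 : (1 : ℝ) ≤ (k : ℝ) ^ k := one_le_pow₀ (by linarith)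
      have h4 : (primorial k : ℝ) ≤ 4 ^ k := by exact_mod_cast primorial_le_four_pow k
      push_cast
      refine le_trans ?_ hH
      calc (8 * k ^ 2 * primorial k : ℝ) ≤ 100 * k ^ 2 * (1 * 4 ^ k) * 1 * 1 := by
            rw [one_mul, mul_one, mul_one]
            have h5 : (0 : ℝ) ≤ (k : ℝ) ^ 2 := by positivity
            have h6 := mul_le_mul_of_nonneg_left h4 h5
            have h7 : (0 : ℝ) ≤ (k : ℝ) ^ 2 * 4 ^ k := by positivity
            linarith
        _ ≤ _ := by gcongr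
    exact_mod_cast h1)
  have hfc : ((range (H + 1)).powersetCard k).filter (fun A => Admissible A ∧
      ∃ n < r, (∀ a ∈ A, Nat.Coprime (n + a) r) ∧
        8 * (A.filter (fun a : ℕ => ψ ((n + a : ℕ) : ZMod r) = 1)).card < k) =
      ((range (H + 1)).powersetCard k).filter (XRC_badset ψ k) :=
    Finset.filter_congr (fun A _ => Iff.rfl)
  rw [hfc]
  set Bad := (((range (H + 1)).powersetCard k).filter (XRC_badset ψ k)).card with hBad
  set Adm := (((range (H + 1)).powersetCard k).filter (fun A => Admissible A)).card with hAdm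
  set T := (XRC_T k L r).card with hTdef
  set B := ((XRC_T k L r).filter (fun b => 8 * (XRC_plus ψ b).card < k)).card with hBdef
  set E := Real.exp (-(k / 4 : ℝ)) with hE
  set N : ℝ := (H : ℝ) + 1 with hN
  have hE0 : 0 < E := Real.exp_pos _
  have hN0 : 0 < N := by positivity
  -- `B ≤ E T`
  have h1 : (B : ℝ) ≤ E * T := by
    have h2 : (2 : ℝ) ^ k * B = T * ((∑ j ∈ (range (k + 1)).filter (fun j => 8 * j < k), k.choose j : ℕ) : ℝ) := by
      exact_mod_cast hequi
    have h3 : (2 : ℝ) ^ k * B ≤ T * (2 ^ k * E) := by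
      rw [h2]
      exact mul_le_mul_of_nonneg_left hch (by positivity)
    have h4 : (0 : ℝ) < 2 ^ k := by positivity
    have h5 : (2 : ℝ) ^ k * B ≤ 2 ^ k * (E * T) := by
      refine h3.trans (le_of_eq ?_)
      ring
    exact le_of_mul_le_mul_left h5 h4
  have hLN : (L : ℝ) ≤ N := by
    have : (L : ℝ) ≤ ((H + 1 : ℕ) : ℝ) := by exact_mod_cast hLH
    rw [Nat.cast_add, Nat.cast_one] at this
    exact this
  have h6 : (T : ℝ) ≤ k.factorial * Adm + k ^ 2 * N ^ (k - 1) := by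
    have h7 : (T : ℝ) ≤ k.factorial * Adm + k ^ 2 * (L : ℝ) ^ (k - 1) := by exact_mod_cast hT
    have h8 : (L : ℝ) ^ (k - 1) ≤ N ^ (k - 1) := pow_le_pow_left₀ (by positivity) hLN _
    have h9 : (k : ℝ) ^ 2 * (L : ℝ) ^ (k - 1) ≤ k ^ 2 * N ^ (k - 1) :=
      mul_le_mul_of_nonneg_left h8 (by positivity)
    linarith
  have h10 : (k.factorial : ℝ) * Bad ≤ k * ((r * 4 ^ k) * N ^ (k - 1)) + r * B := by
    have h11 : (k.factorial : ℝ) * Bad ≤ k * (((H + 1 - L : ℕ) : ℝ) * N ^ (k - 1)) + r * B := by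
      rw [hN]
      exact_mod_cast hbad
    have h12 : ((H + 1 - L : ℕ) : ℝ) ≤ r * 4 ^ k := by
      have := hHL.trans (Nat.mul_le_mul_left r hPle)
      exact_mod_cast this
    have h13 : (k : ℝ) * (((H + 1 - L : ℕ) : ℝ) * N ^ (k - 1)) ≤ k * ((r * 4 ^ k) * N ^ (k - 1)) := by
      gcongr
    linarith
  -- the numerical inequality
  have hNk : N ^ k = N ^ (k - 1) * N := by
    rw [← pow_succ]
    congr 1
    omega
  have hkk0 : (0 : ℝ) < (k : ℝ) ^ k := by positivity
  have hX0 : (0 : ℝ) < N ^ (k - 1) := by positivity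
  have hkey : (k : ℝ) * (r * 4 ^ k) + r * (E * k ^ 2) ≤ r * E * (N / (2 * (k : ℝ) ^ k)) := by
    have hE1 : Real.exp (-(k : ℝ)) ≤ E := Real.exp_le_exp.2 (by
      have : (0 : ℝ) ≤ k := by positivity
      linarith)
    have hE2 : Real.exp (-(k : ℝ)) * Real.exp k = 1 := by
      rw [← Real.exp_add]; simp
    have h14 : E * (100 * k ^ 2 * (r * 4 ^ k)) / 2 * Real.exp k ≤ E * (N / (2 * (k : ℝ) ^ k)) := by
      have h15 : (100 * k ^ 2 * (r * 4 ^ k)) / 2 * Real.exp k ≤ N / (2 * (k : ℝ) ^ k) := by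
        rw [le_div_iff₀ (by positivity)]
        calc (100 * (k : ℝ) ^ 2 * (r * 4 ^ k)) / 2 * Real.exp k * (2 * (k : ℝ) ^ k) =
              (100 * k ^ 2 * (r * 4 ^ k) : ℝ) * (k : ℝ) ^ k * Real.exp k := by ring
          _ ≤ N := hH
      calc E * (100 * k ^ 2 * (r * 4 ^ k)) / 2 * Real.exp k =
            E * ((100 * k ^ 2 * (r * 4 ^ k)) / 2 * Real.exp k) := by ring
        _ ≤ _ := mul_le_mul_of_nonneg_left h15 hE0.le
    have h16 : (1 : ℝ) ≤ E * Real.exp k := by
      rw [← hE2]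
      exact mul_le_mul_of_nonneg_right hE1 (Real.exp_pos _).le
    have h4k : (1 : ℝ) ≤ 4 ^ k := one_le_pow₀ (by norm_num)
    have h17 : (k : ℝ) * 4 ^ k + E * k ^ 2 ≤ E * (100 * k ^ 2 * (r * 4 ^ k)) / 2 * Real.exp k := by
      have hEle : E ≤ 1 := by
        rw [hE]
        exact Real.exp_le_one_iff.2 (by
          have : (0 : ℝ) ≤ k := by positivity
          linarith)
      have h18 : (k : ℝ) * 4 ^ k ≤ k ^ 2 * 4 ^ k := by
        have : (k : ℝ) ≤ (k : ℝ) ^ 2 := le_self_pow₀ (by linarith) (by norm_num)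
        gcongr
      have h19 : E * k ^ 2 ≤ k ^ 2 * 4 ^ k := by
        calc E * (k : ℝ) ^ 2 ≤ 1 * (k : ℝ) ^ 2 := by gcongr
          _ = (k : ℝ) ^ 2 * 1 := by ring
          _ ≤ (k : ℝ) ^ 2 * (4 : ℝ) ^ k := by gcongr
      have h20 : (k : ℝ) ^ 2 * ((1 : ℝ) * (4 : ℝ) ^ k) * (1 : ℝ) ≤
          (k : ℝ) ^ 2 * ((r : ℝ) * (4 : ℝ) ^ k) * (E * Real.exp (k : ℝ)) := by
        gcongr
      have h21 : E * (100 * k ^ 2 * (r * 4 ^ k)) / 2 * Real.exp k =
          50 * (k ^ 2 * (r * 4 ^ k) * (E * Real.exp k)) := by ring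
      rw [h21]
      have h22 : (0 : ℝ) ≤ k ^ 2 * 4 ^ k := by positivity
      linarith
    have h23 := h17.trans h14
    have h24 := mul_le_mul_of_nonneg_left h23 (by positivity : (0 : ℝ) ≤ r)
    calc (k : ℝ) * (r * 4 ^ k) + r * (E * k ^ 2) = r * (k * 4 ^ k + E * k ^ 2) := by ring
      _ ≤ r * (E * (N / (2 * (k : ℝ) ^ k))) := h24
      _ = r * E * (N / (2 * (k : ℝ) ^ k)) := by ring
  have h25 : N ^ k / (2 * (k : ℝ) ^ k) ≤ k.factorial * Adm := by
    rw [div_le_iff₀ (by positivity)]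
    refine hadm.trans (le_of_eq ?_)
    ring
  have h26 : (k : ℝ) * ((r * 4 ^ k) * N ^ (k - 1)) + r * (E * (k ^ 2 * N ^ (k - 1))) ≤
      r * E * (k.factorial * Adm) := by
    calc (k : ℝ) * ((r * 4 ^ k) * N ^ (k - 1)) + r * (E * (k ^ 2 * N ^ (k - 1))) =
          N ^ (k - 1) * ((k : ℝ) * (r * 4 ^ k) + r * (E * k ^ 2)) := by ring
      _ ≤ N ^ (k - 1) * (r * E * (N / (2 * (k : ℝ) ^ k))) :=
          mul_le_mul_of_nonneg_left hkey hX0.le
      _ = r * E * (N ^ k / (2 * (k : ℝ) ^ k)) := by rw [hNk]; ring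
      _ ≤ r * E * (k.factorial * Adm) := by gcongr
  have h27 : (k.factorial : ℝ) * Bad ≤ k.factorial * (2 * r * E * Adm) := by
    have h28 : (r : ℝ) * B ≤ r * (E * (k.factorial * Adm + k ^ 2 * N ^ (k - 1))) := by
      refine mul_le_mul_of_nonneg_left (h1.trans ?_) (by positivity)
      exact mul_le_mul_of_nonneg_left h6 hE0.le
    calc (k.factorial : ℝ) * Bad ≤ k * ((r * 4 ^ k) * N ^ (k - 1)) + r * B := h10
      _ ≤ k * ((r * 4 ^ k) * N ^ (k - 1)) +
          r * (E * (k.factorial * Adm + k ^ 2 * N ^ (k - 1))) := by linarith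
      _ = (k * ((r * 4 ^ k) * N ^ (k - 1)) + r * (E * (k ^ 2 * N ^ (k - 1)))) +
          r * E * (k.factorial * Adm) := by ring
      _ ≤ r * E * (k.factorial * Adm) + r * E * (k.factorial * Adm) := by linarith
      _ = k.factorial * (2 * r * E * Adm) := by ring
  exact le_of_mul_le_mul_left h27 (by positivity)

end Pool.Agent.Lib.H68T
end

-- from Lib.H68X.XRB
section

/-!
# Chunk XRB: the almost-all statement forbids strong exceptional zeros
-/

open Finset

namespace Pool.Agent.Lib.H68T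

/-! ## The counting argument -/

open scoped Classical in
/-- the set of good positions for `n` -/
noncomputable def XRB_P (r : ℕ) (ψ : DirichletCharacter ℂ r) (H n : ℕ) : Finset ℕ :=
  (range (H + 1)).filter (fun a : ℕ => (n + a).Prime ∧ ψ ((n + a : ℕ) : ZMod r) = 1)






end Pool.Agent.Lib.H68T
end

-- from Lib.H59P.END
section

/-!
# Project H59P: the main theorems with sets
-/

open Finset

namespace Pool.Agent.Lib.H59P

open Pool.Agent.Lib.H68T Pool.Agent.Lib.H18Q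

theorem END_bad (x δ : ℝ) (k : ℕ) (hx : 0 ≤ x) :
    ({A ∈ XSET_adm x δ k | ¬ HasPrimeTranslate x A}).ncard = (bad x δ k).card := by
  rw [XSET_badcard x δ k hx]
  rfl

theorem END_adm (x δ : ℝ) (k : ℕ) (hx : 0 ≤ x) :
    (XSET_adm x δ k).ncard = (adm x δ k).card := by
  rw [XSET_card x δ k hx]
  rfl

/-- Statement (d). -/
theorem END_d (δ : ℝ) (hδ : 0 < δ) (hδ1 : δ < 1 / 2) :
    ∃ c x₀ : ℝ, 0 < c ∧ ∀ x : ℝ, x₀ ≤ x → ∀ k : ℕ, 1 ≤ k →
      (k : ℝ) ≤ (Real.log x) ^ (1 / 2 - δ) → 0 < (XSET_adm x δ k).ncard ∧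
      (({A ∈ XSET_adm x δ k | ¬ HasPrimeTranslate x A}.ncard : ℕ) : ℝ) ≤
        x ^ (-(c / (k * Real.log (k + 1)))) * ((XSET_adm x δ k).ncard : ℝ) := by
  obtain ⟨c0, hc0, hlow⟩ := T_low
  obtain ⟨c, x₀, hc, h⟩ := YD F_main T_main A_main c0 hc0 hlow T_count δ hδ hδ1
  obtain ⟨x₁, hx₁1, hx₁⟩ := XSET_pos δ hδ (by linarith)
  refine ⟨c, max (max x₀ x₁) (Real.exp 1), hc, fun x hx k hk1 hk => ?_⟩
  have hxe : Real.exp 1 ≤ x := (le_max_right _ _).trans hx
  have h0' : 0 < x := lt_of_lt_of_le (Real.exp_pos _) hxe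
  have hL1 : 1 ≤ Real.log x := by
    rw [Real.le_log_iff_exp_le h0']; exact hxe
  have hm : max x₀ x₁ ≤ x := (le_max_left _ _).trans hx
  refine ⟨hx₁ x ((le_max_right _ _).trans hm) k hk1 (hk.trans ?_), ?_⟩
  · exact Real.rpow_le_rpow_of_exponent_le hL1 (by linarith)
  rw [END_bad x δ k h0'.le, END_adm x δ k h0'.le]
  exact h x ((le_max_left _ _).trans hm) k hk1 hk

/-- Statement (e). -/
theorem END_e (δ : ℝ) (hδ : 0 < δ) (hδ1 : δ < 1) :
    ∃ c : ℝ, 0 < c ∧ ∀ x₀ : ℝ, ∃ x : ℝ, x₀ ≤ x ∧ ∀ k : ℕ, 1 ≤ k →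
      (k : ℝ) ≤ (Real.log x) ^ (1 - δ) → 0 < (XSET_adm x δ k).ncard ∧
      (({A ∈ XSET_adm x δ k | ¬ HasPrimeTranslate x A}.ncard : ℕ) : ℝ) ≤
        x ^ (-(c / Real.log (Real.log x))) * ((XSET_adm x δ k).ncard : ℝ) := by
  obtain ⟨c0, hc0, hlow⟩ := T_low
  obtain ⟨c, hc, h⟩ := YE F_main T_main A_good c0 hlow T_count δ hδ hδ1
  obtain ⟨x₁, hx₁1, hx₁⟩ := XSET_pos δ hδ hδ1
  refine ⟨c, hc, fun x₀ => ?_⟩
  obtain ⟨x, hx, hh⟩ := h (max (max x₀ x₁) (Real.exp 1))
  have hxe : Real.exp 1 ≤ x := (le_max_right _ _).trans hx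
  have h0' : 0 < x := lt_of_lt_of_le (Real.exp_pos _) hxe
  have hm : max x₀ x₁ ≤ x := (le_max_left _ _).trans hx
  refine ⟨x, (le_max_left _ _).trans hm, fun k hk1 hk => ?_⟩
  refine ⟨hx₁ x ((le_max_right _ _).trans hm) k hk1 hk, ?_⟩
  rw [END_bad x δ k h0'.le, END_adm x δ k h0'.le]
  exact hh k hk1 hk

/-- (c) implies (a). -/
theorem END_a (κ : ℝ) (hκ : 0 < κ) (hκ1 : κ ≤ 1) (h : NoSiegelK κ) (δ : ℝ) (hδ : 0 < δ)
    (hδ1 : δ < κ) : ∃ x₀ : ℝ, ∀ x : ℝ, x₀ ≤ x → ∀ k : ℕ, 1 ≤ k →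
      (k : ℝ) ≤ (Real.log x) ^ (κ - δ) → 0 < (XSET_adm x δ k).ncard ∧
      (({A ∈ XSET_adm x δ k | ¬ HasPrimeTranslate x A}.ncard : ℕ) : ℝ) ≤
        Real.exp (-(Real.log x) ^ (κ - δ / 2)) * ((XSET_adm x δ k).ncard : ℝ) := by
  obtain ⟨c0, hc0, hlow⟩ := T_low
  obtain ⟨x₀, hh⟩ := YK F_main T_main A_main c0 hc0 hlow T_count κ hκ hκ1 h δ hδ hδ1
  obtain ⟨x₁, hx₁1, hx₁⟩ := XSET_pos δ hδ (by linarith)
  refine ⟨max (max x₀ x₁) (Real.exp 1), fun x hx k hk1 hk => ?_⟩
  have hxe : Real.exp 1 ≤ x := (le_max_right _ _).trans hx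
  have h0' : 0 < x := lt_of_lt_of_le (Real.exp_pos _) hxe
  have hL1 : 1 ≤ Real.log x := by
    rw [Real.le_log_iff_exp_le h0']; exact hxe
  have hm : max x₀ x₁ ≤ x := (le_max_left _ _).trans hx
  refine ⟨hx₁ x ((le_max_right _ _).trans hm) k hk1 (hk.trans ?_), ?_⟩
  · exact Real.rpow_le_rpow_of_exponent_le hL1 (by linarith)
  rw [END_bad x δ k h0'.le, END_adm x δ k h0'.le]
  exact hh x ((le_max_left _ _).trans hm) k hk1 hk

end Pool.Agent.Lib.H59P
end
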