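import Pool.Agent.Lib.H59M.M1.D_H59_SchinzelDefs
import Pool.Agent.Lib.H59M.M1.M013
import Pool.Agent.Lib.H59M.M1.M058
import Pool.Agent.Lib.H59M.M1.M059
import Pool.Agent.Lib.H59M.M1.M062
import Pool.Agent.Lib.H59M.M1.M072
import Pool.Agent.Lib.H59M.M1.M082
import Pool.Agent.Lib.H59M.M1.M084
import Pool.Agent.Lib.H59M.M1.M086
import Pool.Agent.Lib.H59M.M1.M090

/-! Merged copies (to shorten the build) of Lib.H96U.F1, Lib.H96U.F2, Lib.H96U.G1, Lib.H9P.U0, Lib.H9P.U11, Lib.H9P.U13, Lib.H96U.Final, Lib.H9P.U17, Lib.H9P.W1, Lib.H9P.U15, Lib.H9P.U4, Lib.H9P.U5, Lib.H9P.U10, Lib.H9P.U8. -/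

-- from Lib.H96U.F1
section

/-!
# One box of the parameters `t`, from `CoreOf` (copy of H9U/F1.lean, helper99)
-/

open Finset

namespace Pool.Agent.H96U

open Pool.Agent.H9U

open Pool.Agent.Lib.H59P (bx)


theorem f1_val {k d : ℕ} (S : Sys k d) (b : Fin k → ℤ) (n0 n : ℤ) (u t : Fin d → ℕ) (i : Fin k) :
    S.val b (n0 + n) (iv (fun j => u j + t j)) i = S.val (fun i => S.val b n0 (iv u) i) n (iv t) i := by
  have h1 : ∑ j, S.c i j * iv (fun j => u j + t j) j = ∑ j, S.c i j * iv u j + ∑ j, S.c i j * iv t j := by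
    rw [← Finset.sum_add_distrib]
    refine Finset.sum_congr rfl fun j _ => ?_
    unfold iv
    push_cast
    ring
  unfold Sys.val Sys.lin
  rw [h1]
  ring

theorem f1_abs {k d : ℕ} (S : Sys k d) (X n : ℕ) (hn : n ≤ X) (t : Fin d → ℕ) (ht : ∀ j, t j ≤ X / S.sc) (i : Fin k) :
    |S.lin i n (iv t)| ≤ (S.sa * X : ℕ) := by
  have h1 : (S.a i).natAbs ≤ ∑ i, (S.a i).natAbs :=
    Finset.single_le_sum (f := fun i => (S.a i).natAbs) (fun _ _ => Nat.zero_le _) (Finset.mem_univ i)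
  have h2 : ∑ j, (S.c i j).natAbs ≤ ∑ i, ∑ j, (S.c i j).natAbs :=
    Finset.single_le_sum (f := fun i => ∑ j, (S.c i j).natAbs) (fun _ _ => Nat.zero_le _) (Finset.mem_univ i)
  have h3 : ∑ j, (S.c i j).natAbs ≤ S.sc := by
    unfold Sys.sc
    omega
  have h4 : S.sc * (X / S.sc) ≤ X := Nat.mul_div_le X S.sc
  have h5 : |∑ j, S.c i j * iv t j| ≤ (X : ℤ) := by
    calc |∑ j, S.c i j * iv t j| ≤ ∑ j, |S.c i j * iv t j| := Finset.abs_sum_le_sum_abs _ _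
      _ ≤ ∑ j, (((S.c i j).natAbs * (X / S.sc) : ℕ) : ℤ) := by
          refine Finset.sum_le_sum fun j _ => ?_
          rw [abs_mul, Int.abs_eq_natAbs (S.c i j)]
          have h6 : |iv t j| = ((t j : ℕ) : ℤ) := by
            unfold iv
            exact abs_of_nonneg (by positivity)
          rw [h6]
          exact_mod_cast Nat.mul_le_mul_left _ (ht j)
      _ = (((∑ j, (S.c i j).natAbs) * (X / S.sc) : ℕ) : ℤ) := by
          rw [Finset.sum_mul]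
          push_cast
          rfl
      _ ≤ (X : ℤ) := by
          exact_mod_cast (Nat.mul_le_mul_right _ h3).trans h4
  have h7 : |S.a i * (n : ℤ)| ≤ (((∑ i, (S.a i).natAbs) * X : ℕ) : ℤ) := by
    rw [abs_mul, Int.abs_eq_natAbs (S.a i), abs_of_nonneg (show (0 : ℤ) ≤ n by positivity)]
    exact_mod_cast Nat.mul_le_mul h1 hn
  unfold Sys.lin
  refine (abs_add_le _ _).trans ((add_le_add h7 h5).trans (le_of_eq ?_))
  unfold Sys.sa
  push_cast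
  ring


end Pool.Agent.H96U
end

-- from Lib.H96U.F2
section

/-!
# Covering a large box, from `CoreOf` (copy of H9U/F2.lean, helper22)
-/

open Finset

namespace Pool.Agent.H96U

open Pool.Agent.H9U

open Pool.Agent.Lib.H59P (bx)

lemma f2_large (c M : ℝ) (hc : 0 < c) : ∃ X0 : ℕ, ∀ X : ℕ, X0 ≤ X → M ≤ (X : ℝ) ^ c := by
  have h1 : Filter.Tendsto (fun X : ℕ => (X : ℝ) ^ c) Filter.atTop Filter.atTop :=
    (tendsto_rpow_atTop hc).comp tendsto_natCast_atTop_atTop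
  exact Filter.eventually_atTop.1 (h1.eventually_ge_atTop M)

lemma f2_card_bx (d T : ℕ) : (bx d T).card = T ^ d := by
  unfold bx
  rw [Fintype.card_piFinset, Finset.prod_const, Finset.card_univ, Fintype.card_fin, Finset.card_range]

lemma f2_val {k d : ℕ} (S : Sys k d) (b : Fin k → ℤ) (n0 : ℤ) (t u : Fin d → ℕ) (T' : ℕ)
    (h : ∀ j, u j ≤ t j ∧ t j ≤ u j + T') (i : Fin k) :
    |S.val b n0 (iv t) i - S.val b n0 (iv u) i| ≤ (S.sc * T' : ℕ) := by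
  have h1 : S.val b n0 (iv t) i - S.val b n0 (iv u) i = ∑ j, S.c i j * ((t j : ℤ) - u j) := by
    have h2 : ∑ j, S.c i j * ((t j : ℤ) - u j) = ∑ j, S.c i j * (t j : ℤ) - ∑ j, S.c i j * (u j : ℤ) := by
      rw [← Finset.sum_sub_distrib]
      exact Finset.sum_congr rfl fun j _ => mul_sub _ _ _
    rw [h2]
    unfold Sys.val Sys.lin iv
    ring
  rw [h1]
  refine (Finset.abs_sum_le_sum_abs _ _).trans ?_
  have h3 : ∀ j ∈ (univ : Finset (Fin d)), |S.c i j * ((t j : ℤ) - u j)| ≤ ((S.c i j).natAbs : ℤ) * T' := by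
    intro j _
    rw [abs_mul, Int.abs_eq_natAbs]
    refine mul_le_mul_of_nonneg_left ?_ (Int.natCast_nonneg _)
    obtain ⟨h4, h5⟩ := h j
    rw [abs_of_nonneg (by omega)]
    omega
  refine (Finset.sum_le_sum h3).trans ?_
  rw [← Finset.sum_mul]
  have h6 : ∑ j, (S.c i j).natAbs ≤ S.sc := by
    unfold Sys.sc
    have := Finset.single_le_sum (f := fun i => ∑ j, (S.c i j).natAbs) (fun _ _ => Nat.zero_le _) (mem_univ i)
    omega
  have h7 : (∑ j, (S.c i j).natAbs) * T' ≤ S.sc * T' := Nat.mul_le_mul_right _ h6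
  exact_mod_cast h7


end Pool.Agent.H96U
end

-- from Lib.H96U.G1
section

/-!
# From `CoreOf`: Schinzel's problem for linear families
-/

open Finset Polynomial

namespace Pool.Agent.H96U

open Pool.Agent.H9U

open Pool.Agent.Lib.H59P (bx)

/-- The system of the forms `-γ n` (for `N - G(n)`) and `f_i n + ∑_j c_ij t_j`. -/
def gsys {g d : ℕ} (γ : ℤ) (f : Fin g → ℤ) (c : Fin g → Fin d → ℤ) : Sys (g + 1) d :=
  ⟨Fin.cons (-γ) f, Fin.cons (fun _ => 0) c⟩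

/-- the first form -/
theorem g1_val0 {g d : ℕ} (γ : ℤ) (f : Fin g → ℤ) (c : Fin g → Fin d → ℤ) (b : Fin g → ℤ) (e n : ℤ) (t : Fin d → ℤ) :
    (gsys γ f c).val (Fin.cons e b) n t 0 = e - γ * n := by
  show ((-γ) * n + ∑ j : Fin d, (0 : ℤ) * t j) + e = e - γ * n
  simp only [zero_mul, Finset.sum_const_zero]
  ring

/-- the other forms -/
theorem g1_valS {g d : ℕ} (γ : ℤ) (f : Fin g → ℤ) (c : Fin g → Fin d → ℤ) (b : Fin g → ℤ) (e n : ℤ) (t : Fin d → ℤ)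
    (i : Fin g) : (gsys γ f c).val (Fin.cons e b) n t i.succ = f i * n + (b i + ∑ j, c i j * t j) := by
  show (f i * n + ∑ j : Fin d, c i j * t j) + b i = _
  ring


end Pool.Agent.H96U
end

-- from Lib.H9P.U0
section

/-!
# Project ASYP (MP_0bf1d2_nt): the asymptotic formula for systems of polynomials of any degrees. Definitions

See `PROOF.md` in this folder.
-/

open Finset Polynomial

namespace Pool.Agent.H9P

open Pool.Agent.Lib.H68T Pool.Agent.Lib.H18Q Pool.Agent.Lib.H59P Pool.Agent.Lib.H24P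
open Pool.Agent.HUP

noncomputable section

/-- The geometry as it is used in the estimates: on `[X1, 2 X1)` the polynomials are small compared to `M_i` and vary
slowly. It follows from `GeoU` (`U1_geo`). -/
structure GeoV (Q X X1 : ℕ) {k : ℕ} (P : Fin k → ℤ[X]) (M : Fin k → ℕ) : Prop where
  dvd : Q ^ 800 ∣ X1
  pos : 0 < X1
  le : X1 ≤ X
  ge : X ≤ X1 * Q
  dvdM : ∀ i, 8 * Q ^ 8 ∣ M i
  two : ∀ i, 2 * X1 ≤ M i
  hi : ∀ i, (M i : ℝ) ≤ (X1 : ℝ) ^ (P i).natDegree * (Q : ℝ) ^ (1 / 8 : ℝ)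
  small : ∀ i, ∀ n ∈ Ico X1 (2 * X1), 8 * |(P i).eval (n : ℤ)| ≤ M i
  slow : ∀ i, ∀ n ∈ Ico X1 (2 * X1), ∀ n' ∈ Ico X1 (2 * X1), n ≤ n' → (n' - n) * Q ^ 8 ≤ X1 →
    (Q : ℤ) ^ 8 * |(P i).eval (n' : ℤ) - (P i).eval (n : ℤ)| ≤ M i

/-- The polynomial `P(n0 + x) - P(n0)`. -/
def shf (n0 : ℕ) (P : ℤ[X]) : ℤ[X] := P.comp (X + C (n0 : ℤ)) - C (P.eval (n0 : ℤ))

/-- The number of the `n ∈ [n1, n1 + L)` at which all the maps are primes. -/
def cnt {k : ℕ} (φ : Fin k → ℤ → ℤ) (n1 L : ℕ) : ℕ :=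
  ((Ico n1 (n1 + L)).filter (fun n : ℕ => ∀ i, (φ i (n : ℤ)).toNat.Prime)).card

/-- The expected density of the `n` near which all values of the system are primes (one linear coordinate and `k`
coordinates of degrees `D i`), the singular series truncated at `z`. -/
def dens {k : ℕ} (D : Fin k → ℕ) (z Z : ℕ) (φ : Fin (k + 1) → ℤ → ℤ) : ℝ :=
  SSf (pr z) φ / ((∏ i, (D i : ℝ)) * (Real.log Z) ^ (k + 1))

/-- The weighted number. -/
def wct {k : ℕ} (φ : Fin k → ℤ → ℤ) (n1 L : ℕ) : ℝ := ∑ n ∈ Ico n1 (n1 + L), ∏ i, lp (φ i (n : ℤ))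

/-- The models without exceptional zero, for all lengths between `√Z` and `Z^(A+2)`. -/
def Lv (A Q Z : ℕ) (E0 : ℝ) : Prop := ∀ Y : ℕ, Z ≤ Y ^ 2 → Y ≤ Z ^ (A + 2) →
  Mdl Q Y 1 E0 p0 (fun _ => 0) ∧ Mdl (Q ^ 100) Y 1 E0 p0 (fun _ => 0)

/-- The linear coordinate `B(n) = N - G(n)`, `G` linear: decreasing, leading coefficient at most `A` in absolute value,
`Z` is the last `n` with `B(n) > 0`. -/
structure Dec (A Z : ℕ) (B : ℤ[X]) : Prop where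
  deg : B.natDegree = 1
  neg : B.leadingCoeff < 0
  lc : B.leadingCoeff.natAbs ≤ A
  pos : 0 < B.eval (Z : ℤ)
  last : B.eval ((Z : ℤ) + 1) ≤ 0

open Classical in
/-- **The core statement** for given forms `c` and polynomials `P` (of degrees `D`). -/
def ACoreP {k d : ℕ} (c : Fin k → Fin d → ℤ) (e : Fin d → ℕ) (D : Fin k → ℕ) (P : Fin k → ℤ[X]) : Prop :=
  ∃ δ1 : ℝ, 0 < δ1 ∧ ∀ (A : ℕ) (ε δ : ℝ), 0 < ε → 0 < δ → ∃ η : ℝ, 0 < η ∧ ∀ M0 : ℕ, ∃ M : ℕ, M0 ≤ M ∧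
    ∀ Z : ℕ, M ≤ Z → Z ≤ M ^ A → ∀ B : ℤ[X], Dec A Z B → ∀ β : Fin k → ℤ, (∀ i, |β i| ≤ A * (Z : ℤ) ^ D i) →
    ∀ z : ℕ, (Z : ℝ) ^ δ ≤ z → (z : ℝ) ≤ (Z : ℝ) ^ δ1 →
    (((tb 0 fun j => A * Z ^ e j + 1).filter fun t => (∀ i, 0 ≤ β i + lf c t i) ∧ NoFix (sys B P (hh c β t)) ∧
      ε * (Z * dens D z Z (sys B P (hh c β t))) <
        |(cnt (sys B P (hh c β t)) 1 Z : ℝ) - Z * dens D z Z (sys B P (hh c β t))|).card : ℝ) ≤
      (Z : ℝ) ^ ((∑ j, (e j : ℝ)) - η)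

end

end Pool.Agent.H9P
end

-- from Lib.H9P.U11
section

/-!
# ASYP, chunk U11 (M): translation of the variable `n`
-/

open Finset Polynomial

namespace Pool.Agent.H9P

open Pool.Agent.Lib.H68T Pool.Agent.Lib.H18Q Pool.Agent.Lib.H59P Pool.Agent.Lib.H24P
open Pool.Agent.HUP

theorem u11_per (G : ℤ → ℝ) (l : ℕ) (hG : ∀ n, G (n + l) = G n) (m : ℤ) :
    ∑ n ∈ range l, G (m + n) = ∑ n ∈ range l, G n := by
  have hstep : ∀ m : ℤ, ∑ n ∈ range l, G (m + 1 + n) = ∑ n ∈ range l, G (m + n) := by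
    intro m
    have h1 := Finset.sum_range_succ (fun n : ℕ => G (m + n)) l
    have h2 := Finset.sum_range_succ' (fun n : ℕ => G (m + n)) l
    rw [h1] at h2
    have h3 : ∑ n ∈ range l, G (m + ((n + 1 : ℕ) : ℤ)) = ∑ n ∈ range l, G (m + 1 + n) := by
      refine Finset.sum_congr rfl fun n _ => ?_
      congr 1
      push_cast
      ring
    rw [h3, hG] at h2
    simp only [Nat.cast_zero, add_zero] at h2
    linarith
  induction m using Int.induction_on with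
  | zero => simp
  | succ i ih => rw [hstep, ih]
  | pred i ih =>
    have h1 := hstep (-(i : ℤ) - 1)
    rw [sub_add_cancel] at h1
    rw [← h1, ih]

theorem U11_eval (n0 : ℕ) (P : ℤ[X]) (m : ℤ) : (shf n0 P).eval m = P.eval ((n0 : ℤ) + m) - P.eval (n0 : ℤ) := by
  unfold shf
  rw [eval_sub, eval_comp, eval_add, eval_X, eval_C, eval_C, add_comm m (n0 : ℤ)]

theorem u11_deg (n0 : ℕ) (P : ℤ[X]) : (shf n0 P).natDegree = P.natDegree := by
  unfold shf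
  rw [natDegree_sub_C, natDegree_comp, natDegree_X_add_C, mul_one]

/-- Degree at least `1`: degree and leading coefficient are unchanged (`natDegree_comp`, `leadingCoeff_comp`, `natDegree_sub_C`). -/
theorem U11_hasD {k : ℕ} (D : Fin k → ℕ) (a : Fin k → ℤ) (P : Fin k → ℤ[X]) (hP : HasD D a P) (hD : ∀ i, 1 ≤ D i)
    (n0 : ℕ) : HasD D a (fun i => shf n0 (P i)) := by
  intro i
  obtain ⟨h1, h2⟩ := hP i
  refine ⟨(u11_deg n0 (P i)).trans h1, ?_⟩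
  have h3 : ((P i).comp (X + C (n0 : ℤ))).leadingCoeff = (P i).leadingCoeff := by
    rw [leadingCoeff_comp (by rw [natDegree_X_add_C]; exact one_ne_zero), leadingCoeff_X_add_C, one_pow, mul_one]
  have h4 : (shf n0 (P i)).leadingCoeff = ((P i).comp (X + C (n0 : ℤ))).leadingCoeff := by
    unfold leadingCoeff
    rw [u11_deg, natDegree_comp, natDegree_X_add_C, mul_one]
    unfold shf
    rw [coeff_sub, coeff_C, if_neg (by rw [h1]; have := hD i; omega), sub_zero]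
  show (shf n0 (P i)).leadingCoeff = a i
  rw [h4, h3, h2]

/-- Proof. The constant coefficient of `shf n0 P` is `P(n0) - P(n0) = 0`; the others are those of `P(x + n0)` (`Polynomial.taylor`, `taylor_coeff`, hasseDeriv; or by induction on `P`):
`|coeff j| ≤ ∑_(l ≥ j) |a_l| (l choose j) n0^(l-j)`. -/
theorem U11_coeff (P : ℤ[X]) : ∃ Cp : ℕ, 1 ≤ Cp ∧ ∀ n0 Z : ℕ, n0 ≤ Z → 1 ≤ Z → (shf n0 P).coeff 0 = 0 ∧
    ∀ j, ((shf n0 P).coeff j).natAbs * Z ^ j ≤ Cp * Z ^ P.natDegree := by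
  refine ⟨∑ i ∈ P.support, 2 ^ i * (P.coeff i).natAbs + 1, by omega, fun n0 Z hn hZ => ?_⟩
  have h0 : (shf n0 P).coeff 0 = 0 := by
    rw [coeff_zero_eq_eval_zero, U11_eval, add_zero, sub_self]
  refine ⟨h0, fun j => ?_⟩
  rcases Nat.eq_zero_or_pos j with hj | hj
  · rw [hj, h0]
    simp
  have h1 : (shf n0 P).coeff j = ∑ i ∈ P.support, (i.choose j : ℤ) * P.coeff i * (n0 : ℤ) ^ (i - j) := by
    unfold shf
    rw [coeff_sub, coeff_C, if_neg (by omega), sub_zero, ← taylor_apply, taylor_coeff, hasseDeriv_apply,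
      Polynomial.sum_def, eval_finsetSum]
    refine Finset.sum_congr rfl fun i _ => ?_
    rw [eval_monomial]
  have h2 : ((shf n0 P).coeff j).natAbs ≤ ∑ i ∈ P.support, i.choose j * (P.coeff i).natAbs * n0 ^ (i - j) := by
    rw [h1]
    refine (Int.natAbs_sum_le _ _).trans (Finset.sum_le_sum fun i _ => ?_)
    rw [Int.natAbs_mul, Int.natAbs_mul, Int.natAbs_pow, Int.natAbs_natCast, Int.natAbs_natCast]
  calc ((shf n0 P).coeff j).natAbs * Z ^ j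
      ≤ (∑ i ∈ P.support, i.choose j * (P.coeff i).natAbs * n0 ^ (i - j)) * Z ^ j := Nat.mul_le_mul_right _ h2
    _ = ∑ i ∈ P.support, i.choose j * (P.coeff i).natAbs * n0 ^ (i - j) * Z ^ j := by rw [Finset.sum_mul]
    _ ≤ ∑ i ∈ P.support, 2 ^ i * (P.coeff i).natAbs * Z ^ P.natDegree := by
        refine Finset.sum_le_sum fun i hi => ?_
        rcases Nat.lt_or_ge i j with h | h
        · rw [Nat.choose_eq_zero_of_lt h]
          simp
        · have h3 : n0 ^ (i - j) * Z ^ j ≤ Z ^ P.natDegree := by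
            calc n0 ^ (i - j) * Z ^ j ≤ Z ^ (i - j) * Z ^ j := Nat.mul_le_mul_right _ (Nat.pow_le_pow_left hn _)
              _ = Z ^ i := by rw [← pow_add, Nat.sub_add_cancel h]
              _ ≤ Z ^ P.natDegree := Nat.pow_le_pow_right hZ (le_natDegree_of_mem_supp i hi)
          have h4 : i.choose j ≤ 2 ^ i := Nat.choose_le_two_pow i j
          rw [mul_assoc]
          exact Nat.mul_le_mul (Nat.mul_le_mul_right _ h4) h3
    _ = (∑ i ∈ P.support, 2 ^ i * (P.coeff i).natAbs) * Z ^ P.natDegree := by rw [Finset.sum_mul]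
    _ ≤ (∑ i ∈ P.support, 2 ^ i * (P.coeff i).natAbs + 1) * Z ^ P.natDegree :=
        Nat.mul_le_mul_right _ (Nat.le_succ _)

/-- The geometry of a cell. Proof. For `j = 0` the coefficient is `0`; for `j ≥ 1`, `2 X1 ≤ Z`: `(2 X1)^j Z ≤ 2 X1 Z^j`, so
`Z · (1000 (A+1)² |coeff j| (2 X1)^j) ≤ 1000 (A+1)² 2 X1 Cp Z^(deg)` (`U11_coeff`, the maximum of the `Cp`), which is at most `Z M_i` by hypothesis. -/
theorem U11_geo {k : ℕ} (P : Fin k → ℤ[X]) (A : ℕ) : ∃ Cg : ℕ, 1 ≤ Cg ∧ ∀ (Q X Z X1 n0 : ℕ) (M : Fin k → ℕ),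
    1 ≤ Z → n0 ≤ A * Z → 2 * X1 ≤ Z → Q ^ 800 ∣ X1 → 0 < X1 → X1 ≤ X → X ≤ X1 * Q → (∀ i, 8 * Q ^ 8 ∣ M i) →
    (∀ i, Cg * X1 * Z ^ (P i).natDegree ≤ Z * M i) →
    (∀ i, (M i : ℝ) ≤ (X1 : ℝ) ^ (P i).natDegree * (Q : ℝ) ^ (1 / 8 : ℝ)) → (∀ i, 1 ≤ (P i).natDegree) →
    GeoU A Q X X1 (fun i => shf n0 (P i)) M := by
  choose Cp hCp1 hCp using fun i => U11_coeff (P i)
  refine ⟨2000 * (A + 1) ^ 2 * ∑ i, Cp i * (A + 1) ^ (P i).natDegree + 1, by omega, ?_⟩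
  intro Q X Z X1 n0 M hZ hn0 hX1Z hdvd hpos hle hge hdvdM hlo hhi hdeg
  refine ⟨hdvd, hpos, hle, hge, hdvdM, ?_, ?_⟩
  · intro i j
    have hZ' : n0 ≤ (A + 1) * Z := by
      have : (A + 1) * Z = A * Z + Z := by ring
      omega
    have hZ1 : 1 ≤ (A + 1) * Z := Nat.mul_pos (Nat.succ_pos A) hZ
    obtain ⟨h0, hc⟩ := hCp i n0 ((A + 1) * Z) hZ' hZ1
    show 1000 * (A + 1) ^ 2 * ((shf n0 (P i)).coeff j).natAbs * (2 * X1) ^ j ≤ M i
    rcases Nat.eq_zero_or_pos j with hj | hj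
    · rw [hj, h0]
      simp
    have h1 : (2 * X1) ^ j * Z ≤ 2 * X1 * Z ^ j := by
      obtain ⟨m, rfl⟩ : ∃ m, j = m + 1 := ⟨j - 1, by omega⟩
      have h2 : (2 * X1) ^ m ≤ Z ^ m := Nat.pow_le_pow_left hX1Z m
      calc (2 * X1) ^ (m + 1) * Z = (2 * X1) ^ m * (2 * X1 * Z) := by ring
        _ ≤ Z ^ m * (2 * X1 * Z) := Nat.mul_le_mul_right _ h2
        _ = 2 * X1 * Z ^ (m + 1) := by ring
    have h2 : ((shf n0 (P i)).coeff j).natAbs * Z ^ j ≤ Cp i * ((A + 1) ^ (P i).natDegree * Z ^ (P i).natDegree) := by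
      calc ((shf n0 (P i)).coeff j).natAbs * Z ^ j ≤ ((shf n0 (P i)).coeff j).natAbs * ((A + 1) * Z) ^ j :=
            Nat.mul_le_mul_left _ (Nat.pow_le_pow_left (Nat.le_mul_of_pos_left Z (Nat.succ_pos A)) j)
        _ ≤ Cp i * ((A + 1) * Z) ^ (P i).natDegree := hc j
        _ = Cp i * ((A + 1) ^ (P i).natDegree * Z ^ (P i).natDegree) := by rw [mul_pow]
    have h3 : Cp i * (A + 1) ^ (P i).natDegree ≤ ∑ i, Cp i * (A + 1) ^ (P i).natDegree :=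
      Finset.single_le_sum (f := fun i => Cp i * (A + 1) ^ (P i).natDegree) (fun _ _ => Nat.zero_le _)
        (mem_univ i)
    have h4 : Z * (1000 * (A + 1) ^ 2 * ((shf n0 (P i)).coeff j).natAbs * (2 * X1) ^ j) ≤ Z * M i := by
      calc Z * (1000 * (A + 1) ^ 2 * ((shf n0 (P i)).coeff j).natAbs * (2 * X1) ^ j)
          = 1000 * (A + 1) ^ 2 * ((shf n0 (P i)).coeff j).natAbs * ((2 * X1) ^ j * Z) := by ring
        _ ≤ 1000 * (A + 1) ^ 2 * ((shf n0 (P i)).coeff j).natAbs * (2 * X1 * Z ^ j) := Nat.mul_le_mul_left _ h1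
        _ = 2000 * (A + 1) ^ 2 * X1 * (((shf n0 (P i)).coeff j).natAbs * Z ^ j) := by ring
        _ ≤ 2000 * (A + 1) ^ 2 * X1 * (Cp i * ((A + 1) ^ (P i).natDegree * Z ^ (P i).natDegree)) :=
            Nat.mul_le_mul_left _ h2
        _ = 2000 * (A + 1) ^ 2 * (Cp i * (A + 1) ^ (P i).natDegree) * (X1 * Z ^ (P i).natDegree) := by ring
        _ ≤ 2000 * (A + 1) ^ 2 * (∑ i, Cp i * (A + 1) ^ (P i).natDegree) * (X1 * Z ^ (P i).natDegree) :=
            Nat.mul_le_mul_right _ (Nat.mul_le_mul_left _ h3)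
        _ ≤ (2000 * (A + 1) ^ 2 * (∑ i, Cp i * (A + 1) ^ (P i).natDegree) + 1) * (X1 * Z ^ (P i).natDegree) :=
            Nat.mul_le_mul_right _ (Nat.le_succ _)
        _ = (2000 * (A + 1) ^ 2 * (∑ i, Cp i * (A + 1) ^ (P i).natDegree) + 1) * X1 * Z ^ (P i).natDegree := by ring
        _ ≤ Z * M i := hlo i
    exact Nat.le_of_mul_le_mul_left h4 hZ
  · intro i
    show (M i : ℝ) ≤ (X1 : ℝ) ^ (shf n0 (P i)).natDegree * (Q : ℝ) ^ (1 / 8 : ℝ)
    rw [u11_deg]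
    exact hhi i

/-- The local factors of the translated system. Proof. `tpf l`: the sum over a complete system of residues; `Cp φ` (all `φ_i(n + l) ≡ φ_i(n)` mod `l`, so `gl l (φ_i n)` is periodic). -/
theorem U11_SS {k : ℕ} (φ : Fin k → ℤ → ℤ) (hφ : Cp φ) (S : Finset ℕ) (n0 : ℤ) :
    SSf S (fun i n => φ i (n0 + n)) = SSf S φ := by
  unfold SSf
  refine Finset.prod_congr rfl fun l _ => ?_
  unfold tpf
  have h := u11_per (fun n => ∏ i, (1 + gl l (φ i n))) l (fun n => by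
    refine Finset.prod_congr rfl fun i _ => ?_
    rw [P2_gl φ hφ l l (dvd_refl l) i n]) n0
  simp only at h ⊢
  rw [h]

/-- The translated system. Proof. `funext`, `Fin.cases`; `hh c β' t i = β i + P_i(n0) + ψ_i(t)` as both `β i + ψ_i(t)` and this sum are not negative. -/
theorem U11_sys {k d : ℕ} (c : Fin k → Fin d → ℤ) (B : ℤ[X]) (P : Fin k → ℤ[X]) (n0 : ℕ) (β : Fin k → ℤ)
    (t : Fin d → ℤ) (h1 : ∀ i, 0 ≤ β i + lf c t i) (h2 : ∀ i, 0 ≤ (P i).eval (n0 : ℤ) + β i + lf c t i) :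
    sys (B.comp (X + C (n0 : ℤ))) (fun i => shf n0 (P i)) (hh c (fun i => β i + (P i).eval (n0 : ℤ)) t) =
      fun i n => sys B P (hh c β t) i ((n0 : ℤ) + n) := by
  funext i n
  refine Fin.cases ?_ (fun j => ?_) i
  · show (B.comp (X + C (n0 : ℤ))).eval n = B.eval ((n0 : ℤ) + n)
    rw [eval_comp, eval_add, eval_X, eval_C, add_comm]
  · show (shf n0 (P j)).eval n + (((β j + (P j).eval (n0 : ℤ) + lf c t j).toNat : ℕ) : ℤ) =
      (P j).eval ((n0 : ℤ) + n) + (((β j + lf c t j).toNat : ℕ) : ℤ)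
    rw [U11_eval, Int.toNat_of_nonneg (h1 j), Int.toNat_of_nonneg (by have := h2 j; linarith)]
    ring

/-- `RPh` is a `wct`, and translation. (`Fin.prod_univ_succ`; `Finset.sum_Ico_add'`.) -/
theorem U11_wct {k : ℕ} (X1 : ℕ) (B : ℤ[X]) (P : Fin k → ℤ[X]) (h : Fin k → ℕ) :
    RPh X1 B P h = wct (sys B P h) X1 X1 := by
  unfold RPh wct
  rw [two_mul]
  refine Finset.sum_congr rfl fun n _ => ?_
  rw [Fin.prod_univ_succ]
  rfl

theorem U11_wct_add {k : ℕ} (φ : Fin k → ℤ → ℤ) (n0 n1 L : ℕ) :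
    wct (fun i n => φ i ((n0 : ℤ) + n)) n1 L = wct φ (n0 + n1) L := by
  unfold wct
  have h := Finset.sum_Ico_add (fun n : ℕ => ∏ i, lp (φ i (n : ℤ))) n1 (n1 + L) n0
  rw [show n0 + n1 = n1 + n0 by omega, show n1 + n0 + L = n1 + L + n0 by omega, ← h]
  refine Finset.sum_congr rfl fun n _ => ?_
  refine Finset.prod_congr rfl fun i _ => ?_
  push_cast
  rfl

/-- The linear coordinate of a cell. Proof. `natDegree_comp`, leading coefficient unchanged; `IsCoprime (b0 + n0 b1) b1`. `Y` = the smaller of the two values at `X1` and at `2 X1 - 1` (linear: monotone);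
the values differ by at most `A X1 ≤ δ Z ≤ Y`, so they are in `[Y, 3Y)`. -/
theorem U11_geoB (A : ℕ) (hA : 1 ≤ A) (δ : ℝ) (hδ : 0 < δ) (Z X1 n0 : ℕ) (hX1 : 0 < X1) (hs : (A : ℝ) * X1 ≤ δ * Z)
    (B : ℤ[X]) (hB : Lin A B) (hv : ∀ n ∈ Ico (n0 + X1) (n0 + 2 * X1), δ * Z ≤ ((B.eval (n : ℤ) : ℤ) : ℝ) ∧
      ((B.eval (n : ℤ) : ℤ) : ℝ) ≤ A * Z) :
    ∃ Y : ℕ, GeoB A Z X1 Y (B.comp (X + C (n0 : ℤ))) ∧ δ * Z ≤ Y ∧ Y ≤ A * Z := by
  obtain ⟨b0, hb0⟩ : ∃ b0, B.coeff 0 = b0 := ⟨_, rfl⟩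
  obtain ⟨b1, hb1⟩ : ∃ b1, B.coeff 1 = b1 := ⟨_, rfl⟩
  have hBe : B = C b1 * X + C b0 := by
    have := eq_X_add_C_of_natDegree_le_one (le_of_eq hB.deg)
    rw [hb0, hb1] at this
    exact this
  have hlcB : B.leadingCoeff = b1 := by
    unfold leadingCoeff
    rw [hB.deg, hb1]
  have hb1A : b1.natAbs ≤ A := hlcB ▸ hB.lc
  have hcop : IsCoprime b0 b1 := by
    have := hB.cop
    rwa [hb0, hb1] at this
  have hb10 : b1 ≠ 0 := by
    intro h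
    rw [h] at hlcB
    have h1 := leadingCoeff_eq_zero.1 hlcB
    have h2 := hB.deg
    rw [h1, natDegree_zero] at h2
    exact absurd h2 (by norm_num)
  have hBv : ∀ m : ℤ, B.eval m = b1 * m + b0 := fun m => by
    rw [hBe]
    simp
  have hB'e : B.comp (X + C (n0 : ℤ)) = C b1 * X + C (b0 + n0 * b1) := by
    rw [hBe]
    simp only [add_comp, mul_comp, C_comp, X_comp, C_add, C_mul]
    ring
  have hB'v : ∀ m : ℤ, (B.comp (X + C (n0 : ℤ))).eval m = b1 * m + (b0 + n0 * b1) := fun m => by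
    rw [hB'e]
    simp
  have hX1r : (1 : ℝ) ≤ X1 := by exact_mod_cast hX1
  have hAr : (1 : ℝ) ≤ A := by exact_mod_cast hA
  have hAX : (X1 : ℝ) ≤ A * X1 := by nlinarith
  have hval : ∀ n : ℕ, n ∈ Ico X1 (2 * X1) → δ * Z ≤ ((b1 * n + (b0 + n0 * b1) : ℤ) : ℝ) ∧
      ((b1 * n + (b0 + n0 * b1) : ℤ) : ℝ) ≤ A * Z := by
    intro n hn
    rw [mem_Ico] at hn
    have h := hv (n0 + n) (mem_Ico.2 ⟨by omega, by omega⟩)
    rw [hBv] at h
    have h2 : b1 * (((n0 + n : ℕ) : ℤ)) + b0 = b1 * n + (b0 + n0 * b1) := by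
      push_cast
      ring
    rw [h2] at h
    exact h
  have hlast : 2 * X1 - 1 ∈ Ico X1 (2 * X1) := mem_Ico.2 ⟨by omega, by omega⟩
  have hfirst : X1 ∈ Ico X1 (2 * X1) := mem_Ico.2 ⟨le_refl _, by omega⟩
  -- the value at the point of the minimum
  obtain ⟨m, hm, hmin⟩ : ∃ m : ℕ, m ∈ Ico X1 (2 * X1) ∧ ∀ n : ℕ, n ∈ Ico X1 (2 * X1) →
      b1 * m + (b0 + n0 * b1) ≤ b1 * n + (b0 + n0 * b1) := by
    obtain ⟨m, hm, h⟩ := Finset.exists_min_image (Ico X1 (2 * X1)) (fun n : ℕ => b1 * n + (b0 + n0 * b1))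
      ⟨X1, hfirst⟩
    exact ⟨m, hm, h⟩
  obtain ⟨v, hvd⟩ : ∃ v : ℤ, v = b1 * m + (b0 + n0 * b1) := ⟨_, rfl⟩
  have hv1 := hval m hm
  rw [← hvd] at hv1
  have hδZ : 0 < δ * Z := by linarith
  have hvpos : 0 ≤ v := by
    have : (0 : ℝ) ≤ (v : ℝ) := by linarith [hv1.1]
    exact_mod_cast this
  have hvn : ((v.toNat : ℕ) : ℤ) = v := Int.toNat_of_nonneg hvpos
  have hvr : ((v.toNat : ℕ) : ℝ) = (v : ℝ) := by
    have : (((v.toNat : ℕ) : ℤ) : ℝ) = (v : ℝ) := by rw [hvn]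
    exact_mod_cast this
  refine ⟨v.toNat, ⟨⟨?_, ?_, ?_⟩, ?_, ?_, ?_, ?_⟩, ?_, ?_⟩
  · rw [natDegree_comp, natDegree_X_add_C, hB.deg]
  · rw [leadingCoeff_comp (by rw [natDegree_X_add_C]; exact one_ne_zero), leadingCoeff_X_add_C, one_pow, mul_one]
    exact hB.lc
  · rw [hB'e]
    simp only [coeff_add, coeff_C_mul, coeff_X_zero, coeff_C_zero, coeff_X_one, mul_zero, zero_add, mul_one]
    rw [coeff_C, if_neg one_ne_zero, add_zero]
    exact hcop.add_mul_right_left (n0 : ℤ)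
  · intro n hn
    rw [hB'v, hvn, hvd]
    exact hmin n hn
  · intro n hn
    rw [hB'v, hvn]
    have h1 : b1 * n + (b0 + n0 * b1) = v + b1 * ((n : ℤ) - m) := by rw [hvd]; ring
    rw [h1]
    rw [mem_Ico] at hn hm
    have h2 : |b1 * ((n : ℤ) - m)| ≤ A * X1 := by
      rw [abs_mul]
      have h3 : |b1| ≤ (A : ℤ) := by
        rw [Int.abs_eq_natAbs]
        exact_mod_cast hb1A
      have h4 : |(n : ℤ) - m| ≤ (X1 : ℤ) := by
        rw [abs_le]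
        omega
      exact mul_le_mul h3 h4 (abs_nonneg _) (by positivity)
    have h3 : ((A : ℤ) : ℝ) * ((X1 : ℤ) : ℝ) ≤ (v : ℝ) := by
      push_cast
      linarith [hv1.1]
    have h4 : (A : ℤ) * X1 ≤ v := by exact_mod_cast h3
    have h5 : 0 < v := by
      have : (0 : ℝ) < (v : ℝ) := by linarith [hv1.1]
      exact_mod_cast this
    have h6 := le_abs_self (b1 * ((n : ℤ) - m))
    linarith
  · have h3 : (X1 : ℝ) ≤ ((v.toNat : ℕ) : ℝ) := by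
      rw [hvr]
      linarith [hv1.1]
    have h4 : X1 ≤ v.toNat := by exact_mod_cast h3
    omega
  · have h3 : ((v.toNat : ℕ) : ℝ) ≤ (A : ℝ) * Z := by
      rw [hvr]
      exact hv1.2
    exact_mod_cast h3
  · rw [hvr]
    exact hv1.1
  · have h3 : ((v.toNat : ℕ) : ℝ) ≤ (A : ℝ) * Z := by
      rw [hvr]
      exact hv1.2
    exact_mod_cast h3

end Pool.Agent.H9P
end

-- from Lib.H9P.U13
section

/-!
# ASYP, chunk U13 (M): the upper bound sieve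
-/

open Finset Polynomial

namespace Pool.Agent.H9P

open Pool.Agent.Lib.H68T Pool.Agent.Lib.H18Q Pool.Agent.Lib.H59P Pool.Agent.Lib.H24P
open Pool.Agent.HUP

open Pool.Agent.Lib.H59 (rootCount poly_sieve rootCount_mul_le rootCount_prod_le rootCount_le_natDegree
  card_value_le prod_one_sub_inv_le)

theorem u13_dvd {k : ℕ} (B : ℤ[X]) (P : Fin k → ℤ[X]) (h : Fin k → ℕ) (l : ℕ) (hl : l.Prime) (n : ℤ) :
    (l : ℤ) ∣ (B * ∏ i, (P i + C ((h i : ℕ) : ℤ))).eval n ↔ ∃ i, (l : ℤ) ∣ sys B P h i n := by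
  have hlp := Nat.prime_iff_prime_int.mp hl
  rw [eval_mul, eval_prod, hlp.dvd_mul, hlp.dvd_finsetProd_iff, Fin.exists_fin_succ]
  apply or_congr
  · rfl
  · simp only [eval_add, eval_C, mem_univ, true_and]
    rfl

theorem u13_cnt {k : ℕ} (B : ℤ[X]) (P : Fin k → ℤ[X]) (h : Fin k → ℕ) (l : ℕ) (hl : l.Prime) :
    ((range l).filter (fun n : ℕ => ∀ i, ¬ (l : ℤ) ∣ sys B P h i n)).card +
      rootCount (B * ∏ i, (P i + C ((h i : ℕ) : ℤ))) l = l := by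
  classical
  unfold rootCount
  have h1 := Finset.card_filter_add_card_filter_not (s := range l)
    (fun n : ℕ => (l : ℤ) ∣ (B * ∏ i, (P i + C ((h i : ℕ) : ℤ))).eval (n : ℤ))
  rw [card_range] at h1
  have h2 : (range l).filter (fun n : ℕ => ∀ i, ¬ (l : ℤ) ∣ sys B P h i n) =
      (range l).filter (fun n : ℕ => ¬ (l : ℤ) ∣ (B * ∏ i, (P i + C ((h i : ℕ) : ℤ))).eval (n : ℤ)) := by
    apply Finset.filter_congr
    intro n _
    rw [u13_dvd B P h l hl, not_exists]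
  rw [h2]
  omega

/-- The local factor and the number of roots. Proof. `1 + gl l m = l/(l-1)` if `l ∤ m`, else `0`; the sum over `n < l` of the product is `(l/(l-1))^(k+1)` times the number of the `n` for which no
`φ_i(n)` is divisible by `l`, i.e. the product polynomial is not divisible by `l`. (`rootCount`: `H59`.) -/
theorem U13_tpf {k : ℕ} (B : ℤ[X]) (P : Fin k → ℤ[X]) (h : Fin k → ℕ) (l : ℕ) (hl : l.Prime) :
    1 + tpf l (sys B P h) = (1 - (Pool.Agent.Lib.H59.rootCount (B * ∏ i, (P i + C ((h i : ℕ) : ℤ))) l : ℝ) / l) *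
      (1 - 1 / (l : ℝ))⁻¹ ^ (k + 1) := by
  classical
  have hl1 : (1 : ℝ) < l := by exact_mod_cast hl.one_lt
  have hl0 : (l : ℝ) ≠ 0 := by linarith
  have hl2 : (l : ℝ) - 1 ≠ 0 := by linarith
  rw [T1_count l hl]
  have h1 := u13_cnt B P h l hl
  have h2 : (((range l).filter (fun n : ℕ => ∀ i, ¬ (l : ℤ) ∣ sys B P h i n)).card : ℝ) =
      l - (rootCount (B * ∏ i, (P i + C ((h i : ℕ) : ℤ))) l : ℝ) := by
    rw [eq_sub_iff_add_eq]
    exact_mod_cast h1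
  rw [h2]
  have h3 : (1 - 1 / (l : ℝ))⁻¹ = (l : ℝ) / (l - 1) := by
    have : (1 - 1 / (l : ℝ)) = (l - 1) / l := by field_simp
    rw [this, inv_div]
  rw [h3, sub_div, div_self hl0]

theorem u13_period (H : ℤ[X]) (l : ℕ) : Function.Periodic (fun m : ℕ => (l : ℤ) ∣ H.eval (m : ℤ)) l := by
  intro m
  have h1 : (l : ℤ) ∣ H.eval (((m + l : ℕ) : ℤ)) - H.eval (m : ℤ) := by
    have h2 := Polynomial.sub_dvd_eval_sub ((m + l : ℕ) : ℤ) (m : ℤ) H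
    have h3 : ((m + l : ℕ) : ℤ) - (m : ℤ) = l := by push_cast; ring
    rw [h3] at h2
    exact h2
  have h4 : (l : ℤ) ∣ H.eval ((m + l : ℕ) : ℤ) ↔ (l : ℤ) ∣ H.eval (m : ℤ) := by
    constructor
    · intro h
      have := dvd_sub h h1
      simpa using this
    · intro h
      have := dvd_add h h1
      simpa using this
  exact propext h4

/-- the number of roots is invariant under translation -/
theorem u13_shift (H : ℤ[X]) (t l : ℕ) : rootCount (H.comp (X + C (t : ℤ))) l = rootCount H l := by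
  classical
  have h1 := Nat.filter_Ico_card_eq_of_periodic t l (fun m : ℕ => (l : ℤ) ∣ H.eval (m : ℤ)) (u13_period H l)
  have h2 := Nat.filter_Ico_card_eq_of_periodic 0 l (fun m : ℕ => (l : ℤ) ∣ H.eval (m : ℤ)) (u13_period H l)
  rw [← h2, Nat.zero_add, ← Finset.range_eq_Ico] at h1
  unfold rootCount
  rw [← h1]
  apply Finset.card_bij (fun a _ => a + t)
  · intro a ha
    rw [mem_filter, mem_range] at ha
    rw [mem_filter, mem_Ico]
    refine ⟨⟨by omega, by omega⟩, ?_⟩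
    have h3 := ha.2
    rw [eval_comp, eval_add, eval_X, eval_C] at h3
    push_cast
    exact h3
  · intro a _ b _ hab
    exact Nat.add_right_cancel hab
  · intro b hb
    rw [mem_filter, mem_Ico] at hb
    refine ⟨b - t, ?_, by omega⟩
    rw [mem_filter, mem_range]
    refine ⟨by omega, ?_⟩
    rw [eval_comp, eval_add, eval_X, eval_C]
    have h4 : ((b - t : ℕ) : ℤ) + (t : ℤ) = (b : ℤ) := by omega
    rw [h4]
    exact hb.2

/-- primitive coordinates -/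
theorem u13_prim (F : ℤ[X]) (hF : ∀ l : ℕ, l.Prime → ∃ n : ℤ, ¬ (l : ℤ) ∣ F.eval n) : F.IsPrimitive := by
  intro r hr
  by_contra hu
  have h1 : r.natAbs ≠ 1 := fun h => hu (Int.isUnit_iff_natAbs_eq.2 h)
  obtain ⟨l, hl, hlr⟩ := Nat.exists_prime_and_dvd h1
  obtain ⟨n, hn⟩ := hF l hl
  apply hn
  obtain ⟨G, hG⟩ := hr
  rw [hG, eval_mul, eval_C]
  exact Dvd.dvd.mul_right (Int.natCast_dvd.2 hlr) _

theorem u13_lt {k : ℕ} (B : ℤ[X]) (P : Fin k → ℤ[X]) (h : Fin k → ℕ) (hN : NoFix (sys B P h)) (l : ℕ)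
    (hl : l.Prime) : rootCount (B * ∏ i, (P i + C ((h i : ℕ) : ℤ))) l < l := by
  classical
  by_contra hcon
  push Not at hcon
  obtain ⟨n, hn⟩ := hN l hl
  set H := B * ∏ i, (P i + C ((h i : ℕ) : ℤ)) with hH
  have h1 : ((Finset.range l).filter fun a : ℕ => (l : ℤ) ∣ H.eval (a : ℤ)) = Finset.range l := by
    refine eq_of_subset_of_card_le (filter_subset _ _) ?_
    rw [card_range]
    exact hcon
  have hp0 : (0 : ℤ) < l := by exact_mod_cast hl.pos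
  set a : ℕ := (n % l).toNat with ha
  have ha0 : 0 ≤ n % (l : ℤ) := Int.emod_nonneg _ hp0.ne'
  have ha1 : n % (l : ℤ) < l := Int.emod_lt_of_pos _ hp0
  have haa : (a : ℤ) = n % l := Int.toNat_of_nonneg ha0
  have hmem : a ∈ Finset.range l := by
    rw [Finset.mem_range]
    omega
  rw [← h1, mem_filter] at hmem
  have h2 : (l : ℤ) ∣ n - (a : ℤ) := by
    rw [haa]
    exact Int.dvd_self_sub_emod
  have h3 := h2.trans (Polynomial.sub_dvd_eval_sub n (a : ℤ) H)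
  have h4 : (l : ℤ) ∣ H.eval n := by
    have := dvd_add h3 hmem.2
    simpa using this
  rw [hH, u13_dvd B P h l hl] at h4
  obtain ⟨i, hi⟩ := h4
  exact hn i hi

theorem u13_deg (F : ℤ[X]) (h : ℕ) : (F + C ((h : ℕ) : ℤ)).natDegree = F.natDegree := natDegree_add_C

theorem u13_le {k A : ℕ} (B : ℤ[X]) (hB : Lin A B) (P : Fin k → ℤ[X]) (hP : Pol A P) (h : Fin k → ℕ)
    (hN : NoFix (sys B P h)) (l : ℕ) (hl : l.Prime) :
    rootCount (B * ∏ i, (P i + C ((h i : ℕ) : ℤ))) l ≤ k * A + 1 := by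
  have h1 : rootCount B l ≤ 1 := by
    have hp : B.IsPrimitive := u13_prim B fun l hl => by
      obtain ⟨n, hn⟩ := hN l hl
      exact ⟨n, hn 0⟩
    have := rootCount_le_natDegree hp hl
    rwa [hB.deg] at this
  have h2 : rootCount (∏ i, (P i + C ((h i : ℕ) : ℤ))) l ≤ k * A := by
    refine (rootCount_prod_le univ _ hl).trans ?_
    have h3 : ∀ i ∈ (univ : Finset (Fin k)), rootCount (P i + C ((h i : ℕ) : ℤ)) l ≤ A := by
      intro i _
      have hp : (P i + C ((h i : ℕ) : ℤ)).IsPrimitive := u13_prim _ fun l hl => by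
        obtain ⟨n, hn⟩ := hN l hl
        refine ⟨n, ?_⟩
        have := hn i.succ
        rw [eval_add, eval_C]
        exact this
      refine (rootCount_le_natDegree hp hl).trans ?_
      rw [u13_deg]
      exact hP.degA i
    refine (Finset.sum_le_sum h3).trans ?_
    rw [Finset.sum_const, card_univ, Fintype.card_fin, smul_eq_mul]
  have h4 := rootCount_mul_le B (∏ i, (P i + C ((h i : ℕ) : ℤ))) hl
  omega

/-- the exceptional `n`: some value is less than `Y` -/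
theorem u13_small {k A : ℕ} (B : ℤ[X]) (hB : Lin A B) (P : Fin k → ℤ[X]) (hP : Pol A P) (h : Fin k → ℕ)
    (X Y : ℕ) : ((Finset.range Y).biUnion fun q => (Finset.univ : Finset (Fin (k + 1))).biUnion fun i =>
      (Icc 1 X).filter fun n : ℕ => sys B P h i (n : ℤ) = (q : ℤ)).card ≤ (k * A + 1) * Y := by
  classical
  have h1 : ∀ q ∈ Finset.range Y, ((Finset.univ : Finset (Fin (k + 1))).biUnion fun i =>
      (Icc 1 X).filter fun n : ℕ => sys B P h i (n : ℤ) = (q : ℤ)).card ≤ k * A + 1 := by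
    intro q _
    refine card_biUnion_le.trans ?_
    rw [Fin.sum_univ_succ, Nat.add_comm]
    apply Nat.add_le_add
    · have h3 : ∀ i ∈ (univ : Finset (Fin k)),
          ((Icc 1 X).filter fun n : ℕ => sys B P h i.succ (n : ℤ) = (q : ℤ)).card ≤ A := by
        intro i _
        have hd : 1 ≤ (P i + C ((h i : ℕ) : ℤ)).natDegree := by
          rw [u13_deg]
          exact hP.deg i
        have h4 := card_value_le hd (q : ℤ) X
        rw [u13_deg] at h4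
        refine le_trans (le_of_eq ?_) (h4.trans (hP.degA i))
        congr 1
        apply Finset.filter_congr
        intro n _
        rw [eval_add, eval_C]
        rfl
      refine (Finset.sum_le_sum h3).trans ?_
      rw [Finset.sum_const, card_univ, Fintype.card_fin, smul_eq_mul]
    · have hd : 1 ≤ B.natDegree := by rw [hB.deg]
      have h4 := card_value_le hd (q : ℤ) X
      rw [hB.deg] at h4
      exact h4
  refine card_biUnion_le.trans ((sum_le_sum h1).trans ?_)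
  rw [sum_const, card_range, smul_eq_mul, mul_comm]

theorem u13_pr (Q : ℕ) : Nat.primesBelow (Q + 1) = pr Q := by
  ext l
  unfold pr
  rw [Nat.mem_primesBelow, mem_filter, mem_Icc]
  constructor
  · rintro ⟨h1, h2⟩
    exact ⟨⟨h2.one_lt.le, by omega⟩, h2⟩
  · rintro ⟨⟨_, h1⟩, h2⟩
    exact ⟨by omega, h2⟩

/-- **U13.** Proof. As `sieve_step` (`H59/SchinzelUpper.lean`). `H(x) = (B * ∏ (P_i + h_i))(x + n1 - 1)` (for `n1 = 0` treat `n = 0` apart; or `n1 ≥ 1` is assumed), `κ = k A + 1`,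
`rootCount H l ≤ κ` and `< l` for every prime `l` (`NoFix`; every coordinate is primitive by `NoFix`, `rootCount_le_natDegree`, `rootCount_prod_le`), the number of roots is
invariant under translation. `poly_sieve` with `X := L`, `Y := Q + 1`, `R = L^(1/12)`: `(log 2 + 28 κ log 4) log (Q+1) ≤ log L/12` if `L ≥ Q^K`. The `n ∈ [n1, n1 + L)` with all values primes: either no
value is `≤ Q` and `H` has no prime factor `≤ Q`, or some value is one of the `Q` numbers `≤ Q`: at most `κ Q ≤ κ R^10 ≤ 2 κ L ∏ (1 - ν/p)`. So `cnt ≤ (4 + 2κ) L ∏_{l ≤ Q} (1 - ν_l/l)`, and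
`∏ (1 - ν_l/l) = SSf (pr Q) ∏ (1 - 1/l)^(k+1)` (`U13_tpf`), `∏_{l ≤ Q} (1 - 1/l) ≤ C/log Q` (Mertens; search `Helper57` or `H59` for the bound used in `H59/SchinzelUpper.lean`, `H9A/N7.lean`). -/
theorem U13_sieve (k A : ℕ) (hA : 1 ≤ A) : ∃ Cs K : ℝ, 1 ≤ Cs ∧ 1 ≤ K ∧ ∃ Q0 : ℕ, ∀ Q : ℕ, Q0 ≤ Q →
    ∀ B : ℤ[X], Lin A B → ∀ P : Fin k → ℤ[X], Pol A P → ∀ h : Fin k → ℕ, NoFix (sys B P h) →
    ∀ n1 L : ℕ, 1 ≤ n1 → K * Real.log Q ≤ Real.log L →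
    (cnt (sys B P h) n1 L : ℝ) ≤ Cs * L * SSf (pr Q) (sys B P h) / (Real.log Q) ^ (k + 1) := by
  classical
  obtain ⟨κ, hκ⟩ : ∃ κ, κ = k * A + 1 := ⟨_, rfl⟩
  obtain ⟨c0, hc0⟩ : ∃ c0 : ℝ, c0 = Real.log 2 + 28 * (κ : ℝ) * Real.log 4 := ⟨_, rfl⟩
  have hlog2 : (0 : ℝ) < Real.log 2 := Real.log_pos (by norm_num)
  have hlog4 : (0 : ℝ) < Real.log 4 := Real.log_pos (by norm_num)
  have hκ1 : (1 : ℝ) ≤ κ := by
    rw [hκ]
    push_cast
    have : (0 : ℝ) ≤ (k : ℝ) * A := by positivity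
    linarith
  have hc0p : 0 < c0 := by
    rw [hc0]
    positivity
  refine ⟨4 + 2 * κ, 24 * c0 + 3, by linarith, by linarith, 3, ?_⟩
  intro Q hQ B hB P hP h hN n1 L hn1 hL
  have hQr : (3 : ℝ) ≤ Q := by exact_mod_cast hQ
  have hQ0 : (0 : ℝ) < Q := by linarith
  have hlogQ : 0 < Real.log Q := Real.log_pos (by linarith)
  have hlogL : 0 < Real.log L := lt_of_lt_of_le (by positivity) hL
  have hL1 : 1 ≤ L := by
    rcases Nat.eq_zero_or_pos L with h0 | h0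
    · rw [h0, Nat.cast_zero, Real.log_zero] at hlogL
      exact absurd hlogL (lt_irrefl _)
    · exact h0
  have hLr : (1 : ℝ) ≤ L := by exact_mod_cast hL1
  have hL0 : (0 : ℝ) < L := by linarith
  have hlogY : Real.log ((Q + 1 : ℕ) : ℝ) ≤ 2 * Real.log Q := by
    rw [← Real.log_rpow hQ0]
    apply Real.log_le_log (by positivity)
    push_cast
    rw [Real.rpow_two]
    nlinarith
  -- the polynomial
  obtain ⟨H, hH⟩ : ∃ H : ℤ[X], H = B * ∏ i, (P i + C ((h i : ℕ) : ℤ)) := ⟨_, rfl⟩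
  obtain ⟨t, ht⟩ : ∃ t : ℕ, t = n1 - 1 := ⟨_, rfl⟩
  have hroot : ∀ l : ℕ, rootCount (H.comp (X + C (t : ℤ))) l = rootCount H l := u13_shift H t
  have hκle : ∀ p : ℕ, p.Prime → p < Q + 1 → rootCount (H.comp (X + C (t : ℤ))) p ≤ κ := by
    intro p hp _
    rw [hroot, hH, hκ]
    exact u13_le B hB P hP h hN p hp
  have hlt : ∀ p : ℕ, p.Prime → p < Q + 1 → rootCount (H.comp (X + C (t : ℤ))) p < p := by
    intro p hp _
    rw [hroot, hH]
    exact u13_lt B P h hN p hp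
  obtain ⟨R, hR⟩ : ∃ R : ℝ, R = (L : ℝ) ^ (1 / 12 : ℝ) := ⟨_, rfl⟩
  have hR1 : 1 ≤ R := by
    rw [hR]
    exact Real.one_le_rpow hLr (by norm_num)
  have hR0 : 0 < R := by linarith
  have hR12 : R ^ 12 = L := by
    rw [hR, ← Real.rpow_natCast, ← Real.rpow_mul hL0.le]
    norm_num
  have hlogR : Real.log R = Real.log L / 12 := by
    rw [hR, Real.log_rpow hL0]
    ring
  have hRY : (Real.log 2 + 28 * (κ : ℝ) * Real.log 4) * Real.log ((Q + 1 : ℕ) : ℝ) ≤ Real.log R := by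
    rw [← hc0, hlogR]
    have h1 : c0 * Real.log ((Q + 1 : ℕ) : ℝ) ≤ c0 * (2 * Real.log Q) := mul_le_mul_of_nonneg_left hlogY hc0p.le
    have h2 : (24 * c0 + 3) * Real.log Q ≤ Real.log L := hL
    nlinarith
  have hYR : ((Q + 1 : ℕ) : ℝ) ≤ R ^ 10 := by
    rw [← Real.log_le_log_iff (by positivity) (by positivity), Real.log_pow, hlogR]
    have h2 : (24 * c0 + 3) * Real.log Q ≤ Real.log L := hL
    have h3 : 0 < c0 * Real.log Q := by positivity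
    push_cast at hlogY ⊢
    nlinarith
  obtain ⟨h1, h2⟩ := poly_sieve (H.comp (X + C (t : ℤ))) hκle hlt (Y := Q + 1) (X := L) (by omega) hR1 hRY
    (le_of_eq hR12)
  -- the counting
  obtain ⟨T₁, hT₁⟩ : ∃ T₁ : Finset ℕ, T₁ = (Icc 1 L).filter fun n : ℕ => ∀ p ∈ Nat.primesBelow (Q + 1),
    ¬ (p : ℤ) ∣ (H.comp (X + C (t : ℤ))).eval (n : ℤ) := ⟨_, rfl⟩
  rw [← hT₁] at h1
  obtain ⟨T₂, hT₂⟩ : ∃ T₂ : Finset ℕ, T₂ = (Finset.range (Q + 1)).biUnion fun q =>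
    (Finset.univ : Finset (Fin (k + 1))).biUnion fun i =>
      (Icc 1 (n1 + L)).filter fun n : ℕ => sys B P h i (n : ℤ) = (q : ℤ) := ⟨_, rfl⟩
  have hT₂card : T₂.card ≤ κ * (Q + 1) := by
    rw [hT₂, hκ]
    exact u13_small B hB P hP h _ _
  have hcount : cnt (sys B P h) n1 L ≤ T₁.card + κ * (Q + 1) := by
    have h3 : cnt (sys B P h) n1 L ≤ (T₁.image (fun m => m + t) ∪ T₂).card := by
      unfold cnt
      apply Finset.card_le_card
      intro n hn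
      rw [mem_filter, mem_Ico] at hn
      obtain ⟨⟨hn2, hn3⟩, hn4⟩ := hn
      rw [mem_union]
      by_cases hs : ∃ i, sys B P h i (n : ℤ) < ((Q + 1 : ℕ) : ℤ)
      · right
        obtain ⟨i, hi⟩ := hs
        rw [hT₂, mem_biUnion]
        refine ⟨(sys B P h i (n : ℤ)).toNat, ?_, ?_⟩
        · rw [mem_range]
          have := (hn4 i).pos
          omega
        · rw [mem_biUnion]
          refine ⟨i, mem_univ _, ?_⟩
          rw [mem_filter, mem_Icc]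
          refine ⟨⟨by omega, by omega⟩, ?_⟩
          have := (hn4 i).pos
          omega
      · left
        push Not at hs
        rw [mem_image]
        refine ⟨n - t, ?_, by omega⟩
        rw [hT₁, mem_filter, mem_Icc]
        refine ⟨⟨by omega, by omega⟩, ?_⟩
        intro p hp hd
        rw [Nat.mem_primesBelow] at hp
        rw [eval_comp, eval_add, eval_X, eval_C] at hd
        have h5 : ((n - t : ℕ) : ℤ) + (t : ℤ) = (n : ℤ) := by omega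
        rw [h5, hH, u13_dvd B P h p hp.2] at hd
        obtain ⟨i, hi⟩ := hd
        have h6 := hn4 i
        have h7 := hs i
        have h8 : sys B P h i (n : ℤ) = ((sys B P h i (n : ℤ)).toNat : ℤ) := by
          have := h6.pos
          omega
        rw [h8, Int.natCast_dvd_natCast, Nat.prime_dvd_prime_iff_eq hp.2 h6] at hi
        have := hp.1
        omega
    refine h3.trans ((card_union_le _ _).trans ?_)
    exact Nat.add_le_add Finset.card_image_le hT₂card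
  have hcount' : (cnt (sys B P h) n1 L : ℝ) ≤ T₁.card + κ * ((Q + 1 : ℕ) : ℝ) := by exact_mod_cast hcount
  -- the product
  have hprod : ∏ p ∈ Nat.primesBelow (Q + 1), (1 - (rootCount (H.comp (X + C (t : ℤ))) p : ℝ) / p) =
      SSf (pr Q) (sys B P h) * (∏ p ∈ Nat.primesBelow (Q + 1), (1 - (p : ℝ)⁻¹)) ^ (k + 1) := by
    unfold SSf
    rw [← u13_pr, ← Finset.prod_pow, ← Finset.prod_mul_distrib]
    apply Finset.prod_congr rfl
    intro p hp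
    have hpp := Nat.prime_of_mem_primesBelow hp
    rw [U13_tpf B P h p hpp, hroot, hH, mul_assoc, ← mul_pow, one_div]
    have hp1 : (1 : ℝ) < p := by exact_mod_cast hpp.one_lt
    have h9 : (1 - (p : ℝ)⁻¹) ≠ 0 := by
      have : (p : ℝ)⁻¹ < 1 := inv_lt_one_of_one_lt₀ hp1
      linarith
    rw [inv_mul_cancel₀ h9, one_pow, mul_one]
  have hSS : 0 ≤ SSf (pr Q) (sys B P h) := by
    unfold SSf
    apply Finset.prod_nonneg
    intro p hp
    rw [← u13_pr] at hp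
    have hpp := Nat.prime_of_mem_primesBelow hp
    have hp0 : (0 : ℝ) < p := by exact_mod_cast hpp.pos
    have hp1 : (1 : ℝ) < p := by exact_mod_cast hpp.one_lt
    rw [U13_tpf B P h p hpp]
    apply mul_nonneg
    · rw [sub_nonneg, div_le_one hp0]
      exact_mod_cast (u13_lt B P h hN p hpp).le
    · apply pow_nonneg
      rw [inv_nonneg, sub_nonneg, div_le_one hp0]
      exact hp1.le
  have hM : (∏ p ∈ Nat.primesBelow (Q + 1), (1 - (p : ℝ)⁻¹)) ^ (k + 1) ≤ 1 / (Real.log Q) ^ (k + 1) := by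
    have h10 := prod_one_sub_inv_le (z := Q + 1) (by omega)
    have h11 : 0 ≤ ∏ p ∈ Nat.primesBelow (Q + 1), (1 - (p : ℝ)⁻¹) := by
      apply Finset.prod_nonneg
      intro p hp
      have hp1 : (1 : ℝ) < p := by exact_mod_cast (Nat.prime_of_mem_primesBelow hp).one_lt
      have : (p : ℝ)⁻¹ < 1 := inv_lt_one_of_one_lt₀ hp1
      linarith
    have h12 : 1 / Real.log ((Q + 1 : ℕ) : ℝ) ≤ 1 / Real.log Q := by
      apply one_div_le_one_div_of_le hlogQ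
      apply Real.log_le_log hQ0
      push_cast
      linarith
    rw [← one_div_pow]
    exact pow_le_pow_left₀ h11 (h10.trans h12) _
  have hfin : L * ∏ p ∈ Nat.primesBelow (Q + 1), (1 - (rootCount (H.comp (X + C (t : ℤ))) p : ℝ) / p) ≤
      L * (SSf (pr Q) (sys B P h) * (1 / (Real.log Q) ^ (k + 1))) := by
    rw [hprod]
    exact mul_le_mul_of_nonneg_left (mul_le_mul_of_nonneg_left hM hSS) hL0.le
  have hκ0 : (0 : ℝ) ≤ κ := by linarith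
  have h4 := mul_le_mul_of_nonneg_left (hYR.trans h2) hκ0
  have h13 : (4 + 2 * (κ : ℝ)) * (L * ∏ p ∈ Nat.primesBelow (Q + 1),
      (1 - (rootCount (H.comp (X + C (t : ℤ))) p : ℝ) / p)) ≤
      (4 + 2 * (κ : ℝ)) * (L * (SSf (pr Q) (sys B P h) * (1 / (Real.log Q) ^ (k + 1)))) :=
    mul_le_mul_of_nonneg_left hfin (by positivity)
  calc (cnt (sys B P h) n1 L : ℝ) ≤ T₁.card + κ * ((Q + 1 : ℕ) : ℝ) := hcount'
    _ ≤ (4 + 2 * (κ : ℝ)) * (L * ∏ p ∈ Nat.primesBelow (Q + 1),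
      (1 - (rootCount (H.comp (X + C (t : ℤ))) p : ℝ) / p)) := by linarith
    _ ≤ (4 + 2 * (κ : ℝ)) * (L * (SSf (pr Q) (sys B P h) * (1 / (Real.log Q) ^ (k + 1)))) := h13
    _ = (4 + 2 * κ) * L * SSf (pr Q) (sys B P h) / (Real.log Q) ^ (k + 1) := by ring

end Pool.Agent.H9P
end

-- from Lib.H96U.Final
section

/-!
# The core theorem for all systems without proportional forms (statement; proved by project HUK)
-/

namespace Pool.Agent.H96U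

open Pool.Agent.H9U


theorem fin_gsys {g d : ℕ} (γ : ℤ) (hγ : 0 < γ) (f : Fin g → ℤ) (hf : ∀ i, 0 < f i) (c : Fin g → Fin d → ℤ)
    (h0 : ∀ i, c i ≠ 0) (hc : ∀ i j, i ≠ j → f i • c j ≠ f j • c i) : Fin2 (gsys γ f c) := by
  have key : ∀ i, ∃ l, c i l ≠ 0 := by
    intro i
    by_contra hcon
    push Not at hcon
    exact h0 i (funext hcon)
  refine ⟨fun i => ?_, fun i j => ?_⟩
  · refine Fin.cases ?_ (fun i => ?_) i
    · show -γ ≠ 0
      omega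
    · show f i ≠ 0
      have := hf i
      omega
  · refine Fin.cases ?_ (fun i => ?_) i
    · refine Fin.cases (fun h => absurd rfl h) (fun j _ => ?_) j
      obtain ⟨l, hl⟩ := key j
      refine ⟨l, ?_⟩
      show (-γ) * c j l ≠ f j * 0
      rw [mul_zero]
      exact mul_ne_zero (by omega) hl
    · refine Fin.cases (fun _ => ?_) (fun j hij => ?_) j
      · obtain ⟨l, hl⟩ := key i
        refine ⟨l, ?_⟩
        show f i * 0 ≠ (-γ) * c i l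
        rw [mul_zero]
        exact (mul_ne_zero (by omega) hl).symm
      · by_contra hcon
        push Not at hcon
        refine hc i j (fun h => hij (by rw [h])) ?_
        funext l
        exact hcon l

end Pool.Agent.H96U
end

-- from Lib.H9P.U17
section

/-!
# ASYP, chunk U17 (M): the quantities of the problem
-/

open Finset Polynomial

namespace Pool.Agent.H9P

open Pool.Agent.Lib.H68T Pool.Agent.Lib.H18Q Pool.Agent.Lib.H59P Pool.Agent.Lib.H24P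
open Pool.Agent.HUP
open Pool.Agent.Lib.H59 (argSet argCount Admissible primeCount omegaN seriesTrunc)

noncomputable section

/-- The main term `X/(log X)^(g+1) (h_0 h_1 ⋯ h_g)⁻¹ S_z(N)` of Schinzel's formula, `S_z(N)` being the product over the
primes `p < z` of the factors of `𝔖(N)`. -/
def mainTermP {g : ℕ} (F : Fin g → ℤ[X]) (G : ℤ[X]) (N z : ℕ) : ℝ :=
  (argCount G N : ℝ) / Real.log (argCount G N) ^ (g + 1) *
    ((G.natDegree : ℝ) * ∏ i, ((F i).natDegree : ℝ))⁻¹ * seriesTrunc F G N z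

/-- `N` is admissible for `F, G`, and `Q_1(N)` differs from the main term by more than `ε` times the main term. -/
def FailsP {g : ℕ} (ε : ℝ) (F : Fin g → ℤ[X]) (G : ℤ[X]) (N z : ℕ) : Prop :=
  Admissible F G N ∧ ε * mainTermP F G N z < |(primeCount F G N : ℝ) - mainTermP F G N z|

/-- The polynomials `P_i + b_i + ψ_i(t)`. -/
def famP {g d : ℕ} (P : Fin g → ℤ[X]) (c : Fin g → Fin d → ℤ) (b : Fin g → ℤ) (t : Fin d → ℤ) : Fin g → ℤ[X] :=
  fun i => P i + C (b i + lf c t i)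

end

/-- a value is a prime -/
theorem u17_prime (z : ℤ) : z.toNat.Prime ↔ ∃ q : ℕ, q.Prime ∧ z = q := by
  constructor
  · intro h
    have h1 := h.pos
    exact ⟨z.toNat, h, by omega⟩
  · rintro ⟨q, hq, rfl⟩
    rwa [Int.toNat_natCast]

/-- a linear polynomial -/
theorem u17_ev (G : ℤ[X]) (hG : G.natDegree = 1) (n : ℤ) : G.eval n = G.leadingCoeff * n + G.coeff 0 := by
  rw [eval_eq_sum_range, hG, sum_range_succ, sum_range_one, leadingCoeff, hG, pow_zero, pow_one, mul_one, add_comm]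

/-- the arguments -/
theorem u17_arg (G : ℤ[X]) (hG : G.natDegree = 1) (hG0 : 0 < G.leadingCoeff) (N : ℕ) :
    argSet G N = ((Icc 1 (argCount G N) : Finset ℕ) : Set ℕ) := by
  have h1 : argSet G N = ((Icc 1 (((N : ℤ) - G.coeff 0 - 1) / G.leadingCoeff).toNat : Finset ℕ) : Set ℕ) := by
    ext n
    rw [mem_coe, mem_Icc]
    have h2 : (n : ℤ) ≤ ((N : ℤ) - G.coeff 0 - 1) / G.leadingCoeff ↔
        (n : ℤ) * G.leadingCoeff ≤ (N : ℤ) - G.coeff 0 - 1 := Int.le_ediv_iff_mul_le hG0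
    have e0 : G.leadingCoeff * (n : ℤ) = n * G.leadingCoeff := mul_comm _ _
    constructor
    · rintro ⟨h3, h4⟩
      rw [u17_ev G hG, e0] at h4
      have h5 := h2.2 (by linarith)
      omega
    · rintro ⟨h3, h4⟩
      have h5 := h2.1 (by omega)
      refine ⟨by omega, ?_⟩
      rw [u17_ev G hG, e0]
      linarith
  have h2 : argCount G N = (((N : ℤ) - G.coeff 0 - 1) / G.leadingCoeff).toNat := by
    unfold argCount
    rw [h1, Set.ncard_coe_finset, Nat.card_Icc]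
    omega
  rw [h2]
  exact h1

/-- values of the members of the family -/
theorem u17_fam {g d : ℕ} (P : Fin g → ℤ[X]) (c : Fin g → Fin d → ℤ) (b : Fin g → ℤ) (t : Fin d → ℤ)
    (h0 : ∀ i, 0 ≤ b i + lf c t i) (i : Fin g) : famP P c b t i = P i + C ((hh c b t i : ℕ) : ℤ) := by
  unfold famP hh
  rw [Int.toNat_of_nonneg (h0 i)]

/-- values of the system -/
theorem u17_sysS {g d : ℕ} (G : ℤ[X]) (P : Fin g → ℤ[X]) (c : Fin g → Fin d → ℤ) (b : Fin g → ℤ) (t : Fin d → ℤ) (N : ℕ)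
    (h0 : ∀ i, 0 ≤ b i + lf c t i) (i : Fin g) (n : ℤ) :
    sys (C (N : ℤ) - G) P (hh c b t) i.succ n = (famP P c b t i).eval n := by
  rw [u17_fam P c b t h0]
  unfold sys ran
  rw [Fin.cons_succ, eval_add, eval_C]

theorem u17_sys0 {g d : ℕ} (G : ℤ[X]) (P : Fin g → ℤ[X]) (c : Fin g → Fin d → ℤ) (b : Fin g → ℤ) (t : Fin d → ℤ) (N : ℕ)
    (n : ℤ) : sys (C (N : ℤ) - G) P (hh c b t) 0 n = (N : ℤ) - G.eval n := by
  unfold sys
  rw [Fin.cons_zero, eval_sub, eval_C]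

/-- **U17a.** The number of the arguments. Proof. `N - G(n) = N - γ0 - γ n > 0`, `n ≥ 1`. (Compare `H59/SchinzelCount.lean`, `H9A/N10a.lean`.) -/
theorem U17_dec (G : ℤ[X]) (hG : G.natDegree = 1) (hG0 : 0 < G.leadingCoeff) : ∃ N0 : ℕ, ∀ N : ℕ, N0 ≤ N →
    Dec G.leadingCoeff.natAbs (argCount G N) (C (N : ℤ) - G) ∧ argSet G N = ↑(Icc 1 (argCount G N)) ∧
    |(G.leadingCoeff.natAbs * argCount G N : ℝ) - N| ≤ |(G.coeff 0 : ℝ)| + G.leadingCoeff.natAbs := by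
  refine ⟨(G.coeff 0).natAbs + G.leadingCoeff.natAbs + 1, fun N hN => ?_⟩
  have hs := u17_arg G hG hG0 N
  obtain ⟨Z, hZ⟩ : ∃ Z : ℕ, Z = argCount G N := ⟨_, rfl⟩
  rw [← hZ] at hs ⊢
  have hev := u17_ev G hG
  have hZ1 : 1 ≤ Z := by
    have h1 : 1 ∈ argSet G N := by
      refine ⟨one_pos, ?_⟩
      rw [hev]
      push_cast
      omega
    rw [hs, mem_coe, mem_Icc] at h1
    exact h1.2
  have hpos : 0 < (N : ℤ) - G.eval (Z : ℤ) := by
    have h1 : Z ∈ argSet G N := by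
      rw [hs, mem_coe, mem_Icc]
      exact ⟨hZ1, le_rfl⟩
    exact h1.2
  have hlast : (N : ℤ) - G.eval ((Z : ℤ) + 1) ≤ 0 := by
    by_contra hc
    have h1 : Z + 1 ∈ argSet G N := by
      refine ⟨Nat.succ_pos _, ?_⟩
      push_cast
      omega
    rw [hs, mem_coe, mem_Icc] at h1
    omega
  have hlc : (C (N : ℤ) - G).leadingCoeff = - G.leadingCoeff := by
    rw [leadingCoeff, Pool.Agent.Lib.H59.natDegree_C_sub', hG, coeff_sub, coeff_C, if_neg one_ne_zero, zero_sub, leadingCoeff, hG]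
  refine ⟨⟨?_, ?_, ?_, ?_, ?_⟩, hs, ?_⟩
  · rw [Pool.Agent.Lib.H59.natDegree_C_sub', hG]
  · rw [hlc]
    omega
  · rw [hlc, Int.natAbs_neg]
  · rw [eval_sub, eval_C]
    exact hpos
  · rw [eval_sub, eval_C]
    exact hlast
  · rw [hev] at hpos hlast
    have e1 : ((G.leadingCoeff.natAbs : ℕ) : ℝ) = (G.leadingCoeff : ℝ) := by
      rw [Nat.cast_natAbs, abs_of_pos hG0]
    rw [e1]
    have h1 : (0 : ℝ) < N - (G.leadingCoeff * Z + G.coeff 0) := by exact_mod_cast hpos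
    have h2 : (N : ℝ) - (G.leadingCoeff * (Z + 1) + G.coeff 0) ≤ 0 := by exact_mod_cast hlast
    have h3 := le_abs_self (G.coeff 0 : ℝ)
    have h4 := neg_abs_le (G.coeff 0 : ℝ)
    have h5 : (0 : ℝ) < G.leadingCoeff := by exact_mod_cast hG0
    rw [abs_le]
    constructor <;> linarith

/-- **U17b.** Proof. `argSet = Icc 1 Z`; `z.toNat.Prime ↔ ∃ q prime, z = q`; `Fin.forall_fin_succ`. -/
theorem U17_cnt {g d : ℕ} (G : ℤ[X]) (P : Fin g → ℤ[X]) (c : Fin g → Fin d → ℤ) (b : Fin g → ℤ) (t : Fin d → ℤ) (N : ℕ)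
    (h0 : ∀ i, 0 ≤ b i + lf c t i) (hs : argSet G N = ↑(Icc 1 (argCount G N))) :
    primeCount (famP P c b t) G N = cnt (sys (C (N : ℤ) - G) P (hh c b t)) 1 (argCount G N) := by
  classical
  unfold primeCount cnt
  have e1 : {n : ℕ | n ∈ argSet G N ∧ (∀ i, ∃ q : ℕ, q.Prime ∧ (famP P c b t i).eval (n : ℤ) = q) ∧
        ∃ q : ℕ, q.Prime ∧ (N : ℤ) - G.eval (n : ℤ) = q} =
      (((Ico 1 (1 + argCount G N)).filter (fun n : ℕ => ∀ i, (sys (C (N : ℤ) - G) P (hh c b t) i (n : ℤ)).toNat.Prime) :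
        Finset ℕ) : Set ℕ) := by
    ext n
    rw [Set.mem_ofPred_eq, hs, mem_coe, mem_coe, mem_filter, mem_Icc, mem_Ico, Fin.forall_fin_succ, u17_sys0, u17_prime]
    constructor
    · rintro ⟨h1, h2, h3⟩
      refine ⟨by omega, h3, fun i => ?_⟩
      rw [u17_sysS G P c b t N h0, u17_prime]
      exact h2 i
    · rintro ⟨h1, h2, h3⟩
      refine ⟨by omega, fun i => ?_, h2⟩
      have h4 := h3 i
      rwa [u17_sysS G P c b t N h0, u17_prime] at h4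
  rw [e1, Set.ncard_coe_finset]

/-- **U17c.** Proof. `Nat.primesBelow z = pr (z - 1)`; `U13_tpf`; `omegaN F G N p` is the `rootCount` of the product (`rfl`, up to the order of the factors). -/
theorem U17_series {g d : ℕ} (G : ℤ[X]) (P : Fin g → ℤ[X]) (c : Fin g → Fin d → ℤ) (b : Fin g → ℤ) (t : Fin d → ℤ) (N z : ℕ)
    (h0 : ∀ i, 0 ≤ b i + lf c t i) :
    seriesTrunc (famP P c b t) G N z = SSf (pr (z - 1)) (sys (C (N : ℤ) - G) P (hh c b t)) := by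
  unfold seriesTrunc SSf
  have e1 : Nat.primesBelow z = pr (z - 1) := by
    ext p
    unfold Nat.primesBelow pr
    rw [mem_filter, mem_filter, mem_range, mem_Icc]
    constructor
    · rintro ⟨h1, h2⟩
      exact ⟨⟨h2.one_lt.le, by omega⟩, h2⟩
    · rintro ⟨h1, h2⟩
      exact ⟨by omega, h2⟩
  rw [e1]
  refine prod_congr rfl fun p hp => ?_
  have hp' : p.Prime := (mem_filter.1 hp).2
  rw [U13_tpf _ _ _ p hp', inv_pow]
  have e2 : omegaN (famP P c b t) G N p =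
      Pool.Agent.Lib.H59.rootCount ((C (N : ℤ) - G) * ∏ i, (P i + C ((hh c b t i : ℕ) : ℤ))) p := by
    unfold omegaN Pool.Agent.Lib.H59.rootCount
    have e3 : (∏ i, famP P c b t i) * (C (N : ℤ) - G) = (C (N : ℤ) - G) * ∏ i, (P i + C ((hh c b t i : ℕ) : ℤ)) := by
      rw [mul_comm]
      refine congrArg _ (prod_congr rfl fun i _ => u17_fam P c b t h0 i)
    rw [e3]
  rw [e2]

/-- **U17d.** Proof. No fixed divisor: for a prime `l` some `n` with `l ∤ ∏ F_i(n) (N - G(n))`. -/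
theorem U17_noFix {g d : ℕ} (G : ℤ[X]) (P : Fin g → ℤ[X]) (c : Fin g → Fin d → ℤ) (b : Fin g → ℤ) (t : Fin d → ℤ) (N : ℕ)
    (h0 : ∀ i, 0 ≤ b i + lf c t i) (ha : Admissible (famP P c b t) G N) :
    NoFix (sys (C (N : ℤ) - G) P (hh c b t)) := by
  intro l hl
  have h1 := ha.2 l hl
  push Not at h1
  obtain ⟨n, hn⟩ := h1
  refine ⟨n, ?_⟩
  rw [eval_mul, eval_sub, eval_C, eval_prod] at hn
  rw [Fin.forall_fin_succ, u17_sys0]
  refine ⟨fun h => hn (dvd_mul_of_dvd_right h _), fun i h => hn (dvd_mul_of_dvd_left ?_ _)⟩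
  rw [u17_sysS G P c b t N h0] at h
  exact h.trans (dvd_prod_of_mem (fun i => (famP P c b t i).eval n) (mem_univ i))

/-- the main term -/
theorem u17_main_term {g d : ℕ} (G : ℤ[X]) (hG : G.natDegree = 1) (P : Fin g → ℤ[X])
    (D : Fin g → ℕ) (a : Fin g → ℤ) (hP : HasD D a P) (c : Fin g → Fin d → ℤ) (b : Fin g → ℤ) (t : Fin d → ℤ) (N z : ℕ)
    (h0 : ∀ i, 0 ≤ b i + lf c t i) :
    mainTermP (famP P c b t) G N z =
      (argCount G N : ℝ) * dens D (z - 1) (argCount G N) (sys (C (N : ℤ) - G) P (hh c b t)) := by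
  unfold mainTermP dens
  rw [U17_series G P c b t N z h0, hG]
  have e1 : ∀ i, ((famP P c b t i).natDegree : ℝ) = D i := by
    intro i
    unfold famP
    rw [natDegree_add_C, (hP i).1]
  rw [prod_congr rfl fun i _ => e1 i]
  push_cast
  rw [one_mul]
  ring

/-- sizes for large `N` -/
theorem u17_large (γ : ℕ) (hγ : 1 ≤ γ) (g0 δ δ1 η s : ℝ) (hδ : 0 < δ) (hδ1 : 0 < δ1) (hη : 0 < η) :
    ∃ N1 : ℕ, ∀ N Z z : ℕ, N1 ≤ N → |(γ * Z : ℝ) - N| ≤ |g0| + γ →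
      (N : ℝ) ≤ 2 * γ * Z ∧ (Z : ℝ) ≤ 2 * N ∧
      ((N : ℝ) ^ δ ≤ z → (Z : ℝ) ^ (δ / 2) ≤ ((z - 1 : ℕ) : ℝ)) ∧
      ((z : ℝ) ≤ (N : ℝ) ^ (δ1 / 2) → ((z - 1 : ℕ) : ℝ) ≤ (Z : ℝ) ^ δ1) ∧
      (Z : ℝ) ^ (s - η) ≤ (N : ℝ) ^ (s - η / 2) := by
  have hγr : (1 : ℝ) ≤ γ := by exact_mod_cast hγ
  have ht1 : Filter.Tendsto (fun N : ℕ => (N : ℝ) ^ (δ / 2)) Filter.atTop Filter.atTop :=
    (tendsto_rpow_atTop (by linarith)).comp tendsto_natCast_atTop_atTop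
  have ht2 : Filter.Tendsto (fun N : ℕ => (N : ℝ) ^ (η / 2)) Filter.atTop Filter.atTop :=
    (tendsto_rpow_atTop (by linarith)).comp tendsto_natCast_atTop_atTop
  have ht3 : Filter.Tendsto (fun N : ℕ => (N : ℝ)) Filter.atTop Filter.atTop := tendsto_natCast_atTop_atTop
  obtain ⟨N1, hN1⟩ := Filter.eventually_atTop.1 ((ht1.eventually_ge_atTop ((2 : ℝ) ^ (δ / 2) + 1)).and
    ((ht2.eventually_ge_atTop ((2 * γ : ℝ) ^ |s - η|)).and
      (ht3.eventually_ge_atTop (2 * (|g0| + γ) + 4 * γ ^ 2 + 1))))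
  refine ⟨N1, fun N Z z hN hZ => ?_⟩
  obtain ⟨a1, a2, a3⟩ := hN1 N hN
  have hg := abs_nonneg g0
  have hab := abs_le.1 hZ
  have hN0 : (1 : ℝ) ≤ N := by nlinarith
  have b1 : (N : ℝ) ≤ 2 * γ * Z := by nlinarith
  have b2 : (Z : ℝ) ≤ 2 * N := by
    have h1 : (γ : ℝ) * Z ≤ 2 * N := by nlinarith
    have h2 : (Z : ℝ) ≤ γ * Z := le_mul_of_one_le_left (Nat.cast_nonneg _) hγr
    linarith
  have hZ2 : (2 * γ : ℝ) ≤ Z := by
    by_contra hc
    push Not at hc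
    have h1 : 2 * (γ : ℝ) * Z ≤ 2 * γ * (2 * γ) := by gcongr
    nlinarith
  have hZ0 : (0 : ℝ) < Z := by linarith
  have hz : (1 : ℝ) ≤ z → ((z - 1 : ℕ) : ℝ) = z - 1 := by
    intro h
    rw [Nat.cast_sub (by exact_mod_cast h), Nat.cast_one]
  refine ⟨b1, b2, fun h => ?_, fun h => ?_, ?_⟩
  · obtain ⟨y, hy⟩ : ∃ y : ℝ, y = (N : ℝ) ^ (δ / 2) := ⟨_, rfl⟩
    have h2 : (N : ℝ) ^ δ = y * y := by
      rw [hy, ← Real.rpow_add (by linarith)]
      congr 1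
      ring
    rw [← hy] at a1
    have h3 : (0 : ℝ) < (2 : ℝ) ^ (δ / 2) := Real.rpow_pos_of_pos (by norm_num) _
    have h4 : (Z : ℝ) ^ (δ / 2) ≤ (2 : ℝ) ^ (δ / 2) * y := by
      rw [hy, ← Real.mul_rpow (by norm_num) (by linarith)]
      exact Real.rpow_le_rpow hZ0.le b2 (by linarith)
    have h5 : (1 : ℝ) ≤ z := by
      refine le_trans ?_ h
      exact Real.one_le_rpow hN0 hδ.le
    rw [hz h5]
    rw [h2] at h
    nlinarith
  · have h2 : (N : ℝ) ^ (δ1 / 2) ≤ (Z : ℝ) ^ δ1 := by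
      calc (N : ℝ) ^ (δ1 / 2) ≤ ((Z : ℝ) * Z) ^ (δ1 / 2) := by
            refine Real.rpow_le_rpow (by linarith) ?_ (by linarith)
            calc (N : ℝ) ≤ 2 * γ * Z := b1
              _ ≤ Z * Z := by gcongr
        _ = (Z : ℝ) ^ δ1 := by
            rw [Real.mul_rpow hZ0.le hZ0.le, ← Real.rpow_add hZ0]
            congr 1
            ring
    have h3 : ((z - 1 : ℕ) : ℝ) ≤ z := by exact_mod_cast Nat.sub_le z 1
    linarith
  · have hN0' : (0 : ℝ) < N := by linarith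
    obtain ⟨r, hr⟩ : ∃ r : ℝ, r = (Z : ℝ) / N := ⟨_, rfl⟩
    have hr0 : 0 < r := by rw [hr]; positivity
    have e1 : (Z : ℝ) = N * r := by rw [hr]; field_simp
    have hr2 : r ≤ 2 * γ := by
      rw [hr, div_le_iff₀ hN0']
      nlinarith
    have hr1 : (2 * γ : ℝ)⁻¹ ≤ r := by
      rw [hr, inv_le_iff_one_le_mul₀ (by positivity)]
      rw [div_mul_eq_mul_div, one_le_div hN0']
      linarith
    have hr3 : r ^ (s - η) ≤ (2 * γ : ℝ) ^ |s - η| := by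
      rcases le_or_gt 0 (s - η) with h | h
      · rw [abs_of_nonneg h]
        exact Real.rpow_le_rpow hr0.le hr2 h
      · rw [abs_of_neg h]
        calc r ^ (s - η) ≤ ((2 * γ : ℝ)⁻¹) ^ (s - η) :=
              Real.rpow_le_rpow_of_nonpos (by positivity) hr1 h.le
          _ = (2 * γ : ℝ) ^ (-(s - η)) := by
              rw [Real.inv_rpow (by positivity), Real.rpow_neg (by positivity)]
    calc (Z : ℝ) ^ (s - η) = (N : ℝ) ^ (s - η) * r ^ (s - η) := by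
          rw [e1, Real.mul_rpow hN0'.le hr0.le]
      _ ≤ (N : ℝ) ^ (s - η) * (N : ℝ) ^ (η / 2) := by
          gcongr
          exact hr3.trans a2
      _ = (N : ℝ) ^ (s - η / 2) := by
          rw [← Real.rpow_add hN0']
          congr 1
          ring


end Pool.Agent.H9P
end

-- from Lib.H9P.W1
section

/-!
# ASYP, W1: symmetric boxes, in terms of the problem
-/

open Finset Polynomial

namespace Pool.Agent.H9P

open Pool.Agent.Lib.H68T Pool.Agent.Lib.H18Q Pool.Agent.Lib.H59P Pool.Agent.Lib.H24P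
open Pool.Agent.HUP
open Pool.Agent.Lib.H59 (argSet argCount Admissible primeCount omegaN seriesTrunc)

open Classical in
/-- From boxes with corner `0` to symmetric boxes: conditions which depend on the constant terms only. -/
theorem w1_box {k d : ℕ} (c : Fin k → Fin d → ℤ) (e : Fin d → ℕ) (D : Fin k → ℕ)
    (hB : ∀ i j, c i j ≠ 0 → e j = D i) (A : ℕ) : ∃ A' : ℕ, A ≤ A' ∧ ∀ (Z : ℕ) (β : Fin k → ℤ),
    (∀ i, |β i| ≤ A * (Z : ℤ) ^ D i) → ∃ β' : Fin k → ℤ, (∀ i, |β' i| ≤ A' * (Z : ℤ) ^ D i) ∧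
    ∀ R : (Fin k → ℕ) → Prop,
    ((BoxT A Z e).filter (fun t => (∀ i, 0 ≤ β i + lf c t i) ∧ R (hh c β t))).card ≤
    ((tb 0 fun j => A' * Z ^ e j + 1).filter (fun t => (∀ i, 0 ≤ β' i + lf c t i) ∧ R (hh c β' t))).card := by
  obtain ⟨S, hS⟩ : ∃ S : ℕ, S = ∑ i, ∑ j, (c i j).natAbs := ⟨_, rfl⟩
  obtain ⟨A', hA'⟩ : ∃ A' : ℕ, A' = 2 * A * (1 + S) := ⟨_, rfl⟩
  have hAA : A ≤ A' := by
    rw [hA']
    nlinarith [Nat.zero_le (A * S)]
  have hAA2 : 2 * A ≤ A' := by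
    rw [hA']
    nlinarith [Nat.zero_le (A * S)]
  refine ⟨A', hAA, fun Z β hβ => ?_⟩
  set s : Fin d → ℤ := fun j => ((A * Z ^ e j : ℕ) : ℤ) with hs
  set β' : Fin k → ℤ := fun i => β i - lf c s i with hβ'
  have hval : ∀ (t : Fin d → ℤ) (i : Fin k), β' i + lf c (fun j => t j + s j) i = β i + lf c t i := by
    intro t i
    rw [z0_add, hβ']
    ring
  have hhe : ∀ t : Fin d → ℤ, hh c β' (fun j => t j + s j) = hh c β t := by
    intro t
    funext i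
    unfold hh
    rw [hval t i]
  refine ⟨β', fun i => ?_, fun R => ?_⟩
  · have e1 := hβ i
    have e2 := z0_abs c e i (D i) A Z (fun j hj => hB i j hj)
    have e3 : |β' i| ≤ |β i| + |lf c s i| := by
      rw [hβ']
      exact abs_sub _ _
    have e4 : (∑ j, |c i j|) ≤ (S : ℤ) := by
      have e5 : (∑ j, (c i j).natAbs) ≤ S := by
        rw [hS]
        exact Finset.single_le_sum (f := fun i => ∑ j, (c i j).natAbs) (fun _ _ => Nat.zero_le _)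
          (Finset.mem_univ i)
      have e6 : ((∑ j, (c i j).natAbs : ℕ) : ℤ) = ∑ j, |c i j| := by
        push_cast
        rfl
      rw [← e6]
      exact_mod_cast e5
    have hA0 : (0 : ℤ) ≤ A := Int.natCast_nonneg _
    have hZ0 : (0 : ℤ) ≤ (Z : ℤ) ^ D i := pow_nonneg (Int.natCast_nonneg _) _
    have e7 : (A : ℤ) * (∑ j, |c i j|) * (Z : ℤ) ^ D i ≤ (A : ℤ) * S * (Z : ℤ) ^ D i :=
      mul_le_mul_of_nonneg_right (mul_le_mul_of_nonneg_left e4 hA0) hZ0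
    have e8 : (A : ℤ) * (Z : ℤ) ^ D i + (A : ℤ) * S * (Z : ℤ) ^ D i ≤ (A' : ℤ) * (Z : ℤ) ^ D i := by
      have e9 : (A' : ℤ) = 2 * ((A : ℤ) * (1 + S)) := by
        rw [hA']
        push_cast
        ring
      have e10 : 0 ≤ ((A : ℤ) * (1 + S)) * (Z : ℤ) ^ D i := mul_nonneg (mul_nonneg hA0 (by positivity)) hZ0
      rw [e9]
      linarith
    linarith
  · refine Finset.card_le_card_of_injOn (fun t j => t j + s j) ?_ ?_
    · intro t ht
      rw [Finset.mem_coe, Finset.mem_filter] at ht ⊢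
      obtain ⟨hbox, h0, hR⟩ := ht
      refine ⟨?_, fun i => by rw [hval]; exact h0 i, by rw [hhe]; exact hR⟩
      unfold BoxT at hbox
      unfold tb
      rw [Fintype.mem_piFinset] at hbox ⊢
      intro j
      have h1 := mem_Icc.1 (hbox j)
      rw [mem_Ico]
      have h2 : (2 * A * Z ^ e j : ℤ) ≤ A' * Z ^ e j := by
        have h3 : (2 * A : ℤ) ≤ A' := by exact_mod_cast hAA2
        exact mul_le_mul_of_nonneg_right h3 (by positivity)
      simp only [hs, Pi.zero_apply]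
      push_cast at h1 ⊢
      constructor
      · linarith [h1.1]
      · linarith [h1.2]
    · intro t _ t' _ h
      funext j
      have := congrFun h j
      simp only at this
      linarith

/-- sizes: `z - 1` and `z` -/
theorem w1_z (δ δ1 : ℝ) (hδ : 0 < δ) (hδ1 : 0 < δ1) : ∃ Z1 : ℕ, ∀ Z z : ℕ, Z1 ≤ Z →
    (Z : ℝ) ^ δ ≤ z → (z : ℝ) ≤ (Z : ℝ) ^ δ1 → (Z : ℝ) ^ (δ / 2) ≤ ((z - 1 : ℕ) : ℝ) ∧
      ((z - 1 : ℕ) : ℝ) ≤ (Z : ℝ) ^ δ1 := by
  have ht1 : Filter.Tendsto (fun N : ℕ => (N : ℝ) ^ (δ / 2)) Filter.atTop Filter.atTop :=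
    (tendsto_rpow_atTop (by linarith)).comp tendsto_natCast_atTop_atTop
  obtain ⟨Z1, hZ1⟩ := Filter.eventually_atTop.1 (ht1.eventually_ge_atTop (2 : ℝ))
  refine ⟨Z1 + 1, fun Z z hZ h1 h2 => ?_⟩
  have a1 := hZ1 Z (by omega)
  have hZr : (1 : ℝ) ≤ Z := by exact_mod_cast (by omega : 1 ≤ Z)
  have e1 : (Z : ℝ) ^ δ = (Z : ℝ) ^ (δ / 2) * (Z : ℝ) ^ (δ / 2) := by
    rw [← Real.rpow_add (by linarith)]
    congr 1
    ring
  have h3 : ((z - 1 : ℕ) : ℝ) ≤ z := by exact_mod_cast Nat.sub_le z 1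
  refine ⟨?_, h3.trans h2⟩
  have h5 : (1 : ℝ) ≤ z := le_trans (Real.one_le_rpow hZr hδ.le) h1
  rw [Nat.cast_sub (by exact_mod_cast h5), Nat.cast_one]
  rw [e1] at h1
  nlinarith

/-- the condition on the constant terms -/
def w1R {g : ℕ} (G : ℤ[X]) (P : Fin g → ℤ[X]) (D : Fin g → ℕ) (N Z z : ℕ) (ε : ℝ) (h : Fin g → ℕ) : Prop :=
  NoFix (sys (C (N : ℤ) - G) P h) ∧
    ε * ((Z : ℝ) * dens D z Z (sys (C (N : ℤ) - G) P h)) <
      |(cnt (sys (C (N : ℤ) - G) P h) 1 Z : ℝ) - (Z : ℝ) * dens D z Z (sys (C (N : ℤ) - G) P h)|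

open Classical in
/-- one `N` -/
theorem w1_one {g d : ℕ} (G : ℤ[X]) (hG : G.natDegree = 1) (P : Fin g → ℤ[X])
    (D : Fin g → ℕ) (a : Fin g → ℤ) (hP : HasD D a P) (c : Fin g → Fin d → ℤ) (e : Fin d → ℕ)
    (A N z : ℕ) (ε : ℝ) (b : Fin g → ℤ) (hs : argSet G N = ↑(Icc 1 (argCount G N))) :
    (((BoxT A (argCount G N) e).filter fun t => (∀ i, 0 ≤ b i + lf c t i) ∧ FailsP ε (famP P c b t) G N z).card) ≤
    ((BoxT A (argCount G N) e).filter (fun t => (∀ i, 0 ≤ b i + lf c t i) ∧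
      w1R G P D N (argCount G N) (z - 1) ε (hh c b t))).card := by
  refine card_le_card ?_
  intro t ht
  rw [mem_filter] at ht ⊢
  obtain ⟨t1, t2, t3, t4⟩ := ht
  refine ⟨t1, t2, U17_noFix G P c b t N t2 t3, ?_⟩
  rw [u17_main_term G hG P D a hP c b t N z t2, U17_cnt G P c b t N t2 hs] at t4
  exact t4

open Classical in
/-- **W1a.** Arbitrarily large scales, power-saving exceptional set. -/
theorem W1_pow {g d : ℕ} (G : ℤ[X]) (hG : G.natDegree = 1) (hG0 : 0 < G.leadingCoeff) (P : Fin g → ℤ[X])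
    (D : Fin g → ℕ) (a : Fin g → ℤ) (hP : HasD D a P) (c : Fin g → Fin d → ℤ) (e : Fin d → ℕ)
    (hB : ∀ i j, c i j ≠ 0 → e j = D i) (hA : ACoreP c e D P) :
    ∃ δ1 : ℝ, 0 < δ1 ∧ ∀ (A : ℕ) (ε δ : ℝ), 0 < ε → 0 < δ → ∃ η : ℝ, 0 < η ∧ ∀ M0 : ℕ, ∃ M : ℕ, M0 ≤ M ∧
      ∀ N : ℕ, M ≤ N → N ≤ M ^ A → ∀ b : Fin g → ℤ, (∀ i, |b i| ≤ A * (argCount G N : ℤ) ^ D i) →
      ∀ z : ℕ, (argCount G N : ℝ) ^ δ ≤ z → (z : ℝ) ≤ (argCount G N : ℝ) ^ δ1 →
      (((BoxT A (argCount G N) e).filter fun t => (∀ i, 0 ≤ b i + lf c t i) ∧ FailsP ε (famP P c b t) G N z).card : ℝ) ≤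
        (argCount G N : ℝ) ^ ((∑ j, (e j : ℝ)) - η) := by
  obtain ⟨δ1, hδ1, hcore⟩ := hA
  refine ⟨δ1, hδ1, fun A ε δ hε hδ => ?_⟩
  obtain ⟨γ, hγ⟩ : ∃ γ : ℕ, γ = G.leadingCoeff.natAbs := ⟨_, rfl⟩
  have hγ1 : 1 ≤ γ := by omega
  have hγr : (1 : ℝ) ≤ γ := by exact_mod_cast hγ1
  obtain ⟨A', hAA, hbox⟩ := w1_box c e D hB A
  obtain ⟨A1, hA1⟩ : ∃ A1 : ℕ, A1 = A' + 2 * A + 1 + γ := ⟨_, rfl⟩
  obtain ⟨η, hη, hη'⟩ := hcore A1 ε (δ / 2) hε (by linarith)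
  refine ⟨η, hη, fun M0 => ?_⟩
  obtain ⟨N0, hN0⟩ := U17_dec G hG hG0
  obtain ⟨N1, hN1⟩ := u17_large γ hγ1 (G.coeff 0 : ℝ) δ δ1 η (∑ j, (e j : ℝ)) hδ hδ1 hη
  obtain ⟨Z1, hZ1⟩ := w1_z δ δ1 hδ hδ1
  obtain ⟨M, hM, hM'⟩ := hη' (M0 + N0 + N1 + Z1 + 4 * γ + 2)
  refine ⟨4 * γ * M, ?_, fun N hNl hNu b hb z hz1 hz2 => ?_⟩
  · have : M ≤ 4 * γ * M := Nat.le_mul_of_pos_left _ (by omega)
    omega
  have hMN : M ≤ 4 * γ * M := Nat.le_mul_of_pos_left _ (by omega)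
  obtain ⟨q1, q2, q3⟩ := hN0 N (by omega)
  rw [← hγ] at q1 q3
  obtain ⟨r1, r2, -, -, -⟩ := hN1 N (argCount G N) z (by omega) q3
  have hone := w1_one G hG P D a hP c e A N z ε b q2
  obtain ⟨Z, hZ⟩ : ∃ Z : ℕ, Z = argCount G N := ⟨_, rfl⟩
  rw [← hZ] at q1 q3 r1 r2 hone hz1 hz2 hb ⊢
  have r1' : N ≤ 2 * γ * Z := by exact_mod_cast r1
  have r2' : Z ≤ 2 * N := by exact_mod_cast r2
  have hZM : M ≤ Z := by
    have h1 : 4 * γ * M ≤ 2 * γ * Z := le_trans hNl r1'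
    have h2 : (2 * γ) * (2 * M) ≤ (2 * γ) * Z := by linarith
    have h3 := Nat.le_of_mul_le_mul_left h2 (by omega)
    omega
  have hZM2 : Z ≤ M ^ A1 := by
    calc Z ≤ 2 * N := r2'
      _ ≤ M * (M * M) ^ A := by
          refine Nat.mul_le_mul (by omega) (hNu.trans (Nat.pow_le_pow_left ?_ A))
          exact Nat.mul_le_mul_right _ (by omega)
      _ = M ^ (2 * A + 1) := by
          rw [← pow_two, ← pow_mul, pow_succ]
          ring
      _ ≤ M ^ A1 := Nat.pow_le_pow_right (by omega) (by omega)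
  have hdec : Dec A1 Z (C (N : ℤ) - G) := ⟨q1.deg, q1.neg, q1.lc.trans (by omega), q1.pos, q1.last⟩
  obtain ⟨r3, r4⟩ := hZ1 Z z (by omega) hz1 hz2
  obtain ⟨β', hβ', hR⟩ := hbox Z b hb
  have hbb : ∀ i, |β' i| ≤ A1 * (Z : ℤ) ^ D i := fun i =>
    (hβ' i).trans (mul_le_mul_of_nonneg_right (by exact_mod_cast (by omega : A' ≤ A1)) (by positivity))
  have hfin := hM' Z hZM hZM2 (C (N : ℤ) - G) hdec β' hbb (z - 1) r3 r4
  refine le_trans ?_ hfin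
  refine Nat.cast_le.2 ((hone.trans (hR (w1R G P D N Z (z - 1) ε))).trans (card_le_card ?_))
  intro t ht
  rw [mem_filter] at ht ⊢
  obtain ⟨t1, t2, t3, t4⟩ := ht
  refine ⟨?_, t2, t3, t4⟩
  unfold tb at t1 ⊢
  rw [Fintype.mem_piFinset] at t1 ⊢
  intro j
  have h1 := t1 j
  rw [mem_Ico] at h1 ⊢
  have h3 : ((A' * Z ^ e j + 1 : ℕ) : ℤ) ≤ ((A1 * Z ^ e j + 1 : ℕ) : ℤ) := by
    exact_mod_cast Nat.succ_le_succ (Nat.mul_le_mul_right _ (by omega))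
  refine ⟨h1.1, lt_of_lt_of_le h1.2 ?_⟩
  simp only [Pi.zero_apply, zero_add]
  exact h3


end Pool.Agent.H9P
end

-- from Lib.H9P.U15
section

/-!
# ASYP, chunk U15 (S/M): sum over the cells, one `t`
-/

open Finset Polynomial

namespace Pool.Agent.H9P

open Pool.Agent.Lib.H68T Pool.Agent.Lib.H18Q Pool.Agent.Lib.H59P Pool.Agent.Lib.H24P
open Pool.Agent.HUP

theorem u15_add {k : ℕ} (φ : Fin k → ℤ → ℤ) (n a b : ℕ) : cnt φ n (a + b) = cnt φ n a + cnt φ (n + a) b := by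
  unfold cnt
  rw [card_filter, card_filter, card_filter, ← add_assoc]
  exact (Finset.sum_Ico_consecutive _ (by omega) (by omega)).symm

theorem u15_cells {k : ℕ} (φ : Fin k → ℤ → ℤ) (X1 ja jb : ℕ) (hj : ja ≤ jb) :
    cnt φ ((ja + 1) * X1) ((jb - ja) * X1) = ∑ j ∈ Ico ja jb, cnt φ ((j + 1) * X1) X1 := by
  induction jb, hj using Nat.le_induction with
  | base => simp [cnt]
  | succ n hn ih =>
    have e1 : (n + 1 - ja) * X1 = (n - ja) * X1 + X1 := by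
      rw [Nat.succ_sub hn, Nat.succ_mul]
    have e2 : (ja + 1) * X1 + (n - ja) * X1 = (n + 1) * X1 := by
      rw [← Nat.add_mul]
      congr 1
      omega
    rw [e1, u15_add, ih, e2, Finset.sum_Ico_succ_top hn]

/-- **U15.** The cells `[(j+1) X1, (j+2) X1)`, `ja ≤ j < jb`. Proof. `[1, Z+1)` is the union of `[1, (ja+1) X1)`, the cells and `[(jb+1) X1, Z+1)`. For a cell
`|cnt_j Lg - X1 SS| ≤ ε1 W_j + X1 (E1 SS + θ1) ≤ X1 SS (ε1 (1 + 2 E1) + 2 E1)`; sum: `(jb - ja) X1 ≤ Z`. The rest has length at most `2 θ Z + 1 ≤ 3 θ Z`. Total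
`Z SS (ε/8 · 9/8 + ε/8 + 3 θ (Cb + 1)) ≤ ε Z SS`, divide by `Lg`. -/
theorem U15_sum {k : ℕ} (φ : Fin (k + 1) → ℤ → ℤ) (Z X1 ja jb : ℕ) (SS Lg E1 θ1 ε1 θ Cb ε : ℝ) (hSS : 0 < SS)
    (hLg : 0 < Lg) (hE1 : 0 ≤ E1) (hε1 : 0 ≤ ε1) (hε : 0 < ε) (hε' : ε ≤ 1) (h1 : 16 * E1 ≤ ε) (h2 : 8 * ε1 ≤ ε)
    (hθ : 0 < θ) (hCb : 0 ≤ Cb) (h3 : 12 * θ * (Cb + 1) ≤ ε) (h4 : 1 ≤ θ * Z) (hj : ja ≤ jb) (hX1 : 0 < X1)
    (ha : ((ja + 1) * X1 : ℕ) ≤ θ * Z) (hb : (1 - θ) * Z ≤ ((jb + 1) * X1 : ℕ)) (hb' : (jb + 1) * X1 ≤ Z)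
    (hθ1 : θ1 ≤ E1 * SS)
    (hcell : ∀ j ∈ Ico ja jb, |wct φ ((j + 1) * X1) X1 - X1 * SS| ≤ X1 * (E1 * SS + θ1))
    (hcnt : ∀ j ∈ Ico ja jb, |(cnt φ ((j + 1) * X1) X1 : ℝ) * Lg - wct φ ((j + 1) * X1) X1| ≤ ε1 * wct φ ((j + 1) * X1) X1)
    (hl : (cnt φ 1 ((ja + 1) * X1 - 1) : ℝ) * Lg ≤ Cb * ((ja + 1) * X1 : ℕ) * SS)
    (hr : (cnt φ ((jb + 1) * X1) (Z + 1 - (jb + 1) * X1) : ℝ) * Lg ≤ Cb * (Z + 1 - (jb + 1) * X1 : ℕ) * SS) :
    |(cnt φ 1 Z : ℝ) - Z * (SS / Lg)| ≤ ε * (Z * (SS / Lg)) := by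
  have hE : E1 ≤ 1 / 16 := by linarith
  have hX0 : (0 : ℝ) < X1 := by exact_mod_cast hX1
  -- the cells
  have hc : ∀ j ∈ Ico ja jb, |(cnt φ ((j + 1) * X1) X1 : ℝ) * Lg - X1 * SS| ≤ X1 * SS * (17 / 64 * ε) := by
    intro j hjm
    have a1 := hcell j hjm
    have a2 := hcnt j hjm
    have a3 : X1 * (E1 * SS + θ1) ≤ X1 * SS * (2 * E1) := by
      calc (X1 : ℝ) * (E1 * SS + θ1) ≤ X1 * (E1 * SS + E1 * SS) :=
            mul_le_mul_of_nonneg_left (by linarith) hX0.le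
        _ = X1 * SS * (2 * E1) := by ring
    have a4 : wct φ ((j + 1) * X1) X1 ≤ X1 * SS * (1 + 2 * E1) := by
      have := (abs_le.1 (a1.trans a3)).2
      linarith
    have a5 : ε1 * wct φ ((j + 1) * X1) X1 ≤ ε1 * (X1 * SS * (1 + 2 * E1)) := mul_le_mul_of_nonneg_left a4 hε1
    have a6 : |(cnt φ ((j + 1) * X1) X1 : ℝ) * Lg - X1 * SS| ≤
        |(cnt φ ((j + 1) * X1) X1 : ℝ) * Lg - wct φ ((j + 1) * X1) X1| + |wct φ ((j + 1) * X1) X1 - X1 * SS| := by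
      have := abs_add_le ((cnt φ ((j + 1) * X1) X1 : ℝ) * Lg - wct φ ((j + 1) * X1) X1)
        (wct φ ((j + 1) * X1) X1 - X1 * SS)
      rw [sub_add_sub_cancel] at this
      exact this
    have a7 : ε1 * (1 + 2 * E1) + 2 * E1 ≤ 17 / 64 * ε := by nlinarith
    calc |(cnt φ ((j + 1) * X1) X1 : ℝ) * Lg - X1 * SS| ≤ ε1 * (X1 * SS * (1 + 2 * E1)) + X1 * SS * (2 * E1) := by
          linarith
      _ = X1 * SS * (ε1 * (1 + 2 * E1) + 2 * E1) := by ring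
      _ ≤ X1 * SS * (17 / 64 * ε) := mul_le_mul_of_nonneg_left a7 (by positivity)
  obtain ⟨sm, hsm⟩ : ∃ sm : ℝ, sm = ∑ j ∈ Ico ja jb, (cnt φ ((j + 1) * X1) X1 : ℝ) := ⟨_, rfl⟩
  have hsum : |sm * Lg - ((jb : ℝ) - ja) * X1 * SS| ≤ ((jb : ℝ) - ja) * X1 * SS * (17 / 64 * ε) := by
    have b1 : sm * Lg - ((jb : ℝ) - ja) * X1 * SS =
        ∑ j ∈ Ico ja jb, ((cnt φ ((j + 1) * X1) X1 : ℝ) * Lg - X1 * SS) := by
      rw [sum_sub_distrib, ← sum_mul, ← hsm, sum_const, Nat.card_Ico, nsmul_eq_mul, Nat.cast_sub hj]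
      ring
    rw [b1]
    refine (abs_sum_le_sum_abs _ _).trans ((sum_le_sum hc).trans (le_of_eq ?_))
    rw [sum_const, Nat.card_Ico, nsmul_eq_mul, Nat.cast_sub hj]
    ring
  -- the partition
  have hp1 : 0 < (ja + 1) * X1 := Nat.mul_pos (Nat.succ_pos _) hX1
  have hp2 : (ja + 1) * X1 + (jb - ja) * X1 = (jb + 1) * X1 := by
    rw [← Nat.add_mul]
    congr 1
    omega
  have hpart : (cnt φ 1 Z : ℝ) = (cnt φ 1 ((ja + 1) * X1 - 1) : ℝ) + sm +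
      (cnt φ ((jb + 1) * X1) (Z + 1 - (jb + 1) * X1) : ℝ) := by
    have e0 : Z = ((ja + 1) * X1 - 1) + ((jb - ja) * X1 + (Z + 1 - (jb + 1) * X1)) := by omega
    have e1 : cnt φ 1 Z = cnt φ 1 ((ja + 1) * X1 - 1) + (∑ j ∈ Ico ja jb, cnt φ ((j + 1) * X1) X1 +
        cnt φ ((jb + 1) * X1) (Z + 1 - (jb + 1) * X1)) := by
      have e2 : cnt φ 1 Z = cnt φ 1 (((ja + 1) * X1 - 1) + ((jb - ja) * X1 + (Z + 1 - (jb + 1) * X1))) := by
        rw [← e0]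
      have e3 : 1 + ((ja + 1) * X1 - 1) = (ja + 1) * X1 := by omega
      rw [e2, u15_add, e3, u15_add, hp2, u15_cells φ X1 ja jb hj]
    rw [e1, hsm]
    push_cast
    ring
  have hjr : (ja : ℝ) ≤ jb := by exact_mod_cast hj
  have hz1 : (((jb + 1) * X1 : ℕ) : ℝ) ≤ Z := by exact_mod_cast hb'
  have hd1 : ((jb : ℝ) - ja) * X1 = (((jb + 1) * X1 : ℕ) : ℝ) - (((ja + 1) * X1 : ℕ) : ℝ) := by
    push_cast
    ring
  have hpa : (0 : ℝ) ≤ (((ja + 1) * X1 : ℕ) : ℝ) := Nat.cast_nonneg _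
  have hd2 : ((jb : ℝ) - ja) * X1 ≤ Z := by rw [hd1]; linarith
  have hd0 : 0 ≤ ((jb : ℝ) - ja) * X1 := mul_nonneg (by linarith) hX0.le
  have hd3 : (Z : ℝ) - ((jb : ℝ) - ja) * X1 ≤ 2 * (θ * Z) := by rw [hd1]; linarith
  have hr2 : ((Z + 1 - (jb + 1) * X1 : ℕ) : ℝ) ≤ 2 * (θ * Z) := by
    rw [Nat.cast_sub (by omega)]
    push_cast
    push_cast at hb
    linarith
  have hZp : (0 : ℝ) < Z := by
    by_contra hneg
    push Not at hneg
    have : θ * (Z : ℝ) ≤ 0 := mul_nonpos_of_nonneg_of_nonpos hθ.le hneg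
    linarith
  have hCS : 0 ≤ Cb * SS := mul_nonneg hCb hSS.le
  have hl' : (cnt φ 1 ((ja + 1) * X1 - 1) : ℝ) * Lg ≤ (θ * Z) * (Cb * SS) := by
    refine hl.trans ?_
    calc Cb * ((ja + 1) * X1 : ℕ) * SS = (((ja + 1) * X1 : ℕ) : ℝ) * (Cb * SS) := by ring
      _ ≤ (θ * Z) * (Cb * SS) := mul_le_mul_of_nonneg_right ha hCS
  have hr' : (cnt φ ((jb + 1) * X1) (Z + 1 - (jb + 1) * X1) : ℝ) * Lg ≤ (2 * (θ * Z)) * (Cb * SS) := by
    refine hr.trans ?_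
    calc Cb * (Z + 1 - (jb + 1) * X1 : ℕ) * SS = ((Z + 1 - (jb + 1) * X1 : ℕ) : ℝ) * (Cb * SS) := by ring
      _ ≤ (2 * (θ * Z)) * (Cb * SS) := mul_le_mul_of_nonneg_right hr2 hCS
  have hl0 : 0 ≤ (cnt φ 1 ((ja + 1) * X1 - 1) : ℝ) * Lg := mul_nonneg (Nat.cast_nonneg _) hLg.le
  have hr0 : 0 ≤ (cnt φ ((jb + 1) * X1) (Z + 1 - (jb + 1) * X1) : ℝ) * Lg := mul_nonneg (Nat.cast_nonneg _) hLg.le
  have hmain : |(cnt φ 1 Z : ℝ) * Lg - Z * SS| ≤ ε * (Z * SS) := by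
    obtain ⟨s1, s2⟩ := abs_le.1 hsum
    have g1 : ((jb : ℝ) - ja) * X1 * SS * (17 / 64 * ε) ≤ Z * SS * (17 / 64 * ε) :=
      mul_le_mul_of_nonneg_right (mul_le_mul_of_nonneg_right hd2 hSS.le) (by positivity)
    have g2 : (Z : ℝ) * SS - ((jb : ℝ) - ja) * X1 * SS ≤ 2 * (θ * Z) * SS := by
      calc (Z : ℝ) * SS - ((jb : ℝ) - ja) * X1 * SS = ((Z : ℝ) - ((jb : ℝ) - ja) * X1) * SS := by ring
        _ ≤ 2 * (θ * Z) * SS := mul_le_mul_of_nonneg_right hd3 hSS.le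
    have g3 : 0 ≤ (Z : ℝ) * SS - ((jb : ℝ) - ja) * X1 * SS := by
      have : ((jb : ℝ) - ja) * X1 * SS ≤ Z * SS := mul_le_mul_of_nonneg_right hd2 hSS.le
      linarith
    have g4 : (12 * θ * (Cb + 1)) * (Z * SS) ≤ ε * (Z * SS) := mul_le_mul_of_nonneg_right h3 (by positivity)
    have g5 : 0 ≤ θ * Z * SS := by positivity
    have g6 : 0 ≤ ε * (Z * SS) := by positivity
    have g7 : 0 ≤ θ * Z * (Cb * SS) := by positivity
    obtain ⟨cl, hcl⟩ : ∃ cl : ℝ, cl = (cnt φ 1 ((ja + 1) * X1 - 1) : ℝ) * Lg := ⟨_, rfl⟩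
    obtain ⟨cr, hcr⟩ : ∃ cr : ℝ, cr = (cnt φ ((jb + 1) * X1) (Z + 1 - (jb + 1) * X1) : ℝ) * Lg := ⟨_, rfl⟩
    have g8 : (cnt φ 1 Z : ℝ) * Lg = cl + sm * Lg + cr := by rw [hpart, hcl, hcr]; ring
    rw [← hcl] at hl' hl0
    rw [← hcr] at hr' hr0
    rw [g8, abs_le]
    constructor
    · linarith
    · linarith
  have hfin : (cnt φ 1 Z : ℝ) - Z * (SS / Lg) = ((cnt φ 1 Z : ℝ) * Lg - Z * SS) / Lg := by
    field_simp
  have hfin2 : ε * (Z * (SS / Lg)) = ε * (Z * SS) / Lg := by ring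
  rw [hfin, hfin2, abs_div, abs_of_pos hLg]
  exact div_le_div_of_nonneg_right hmain hLg.le

end Pool.Agent.H9P
end

-- from Lib.H9P.U4
section

/-!
# ASYP, chunk U4 (M): `R13_small`, `R13_main` with the geometry `GeoV`, uniformly in the polynomials
-/

open Finset Polynomial

namespace Pool.Agent.H9P

open Pool.Agent.Lib.H68T Pool.Agent.Lib.H18Q Pool.Agent.Lib.H59P Pool.Agent.Lib.H24P
open Pool.Agent.HUP

/-- Pointwise comparison with a base point of the cell (copy of `V1_pt` of H24P). -/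
theorem u4_pt {k : ℕ} (P : Fin k → ℤ[X]) (Q X X1 : ℕ) (hQ : 1 ≤ Q) (M : Fin k → ℕ)
    (hG : GeoV Q X X1 P M)
    (Cc : Fin k → ℤ → Ch → ℂ) (mb : Fin k → Ch → ℝ) (hC : ∀ i, Cf Q (Ysc (M i)) (Cc i) (mb i))
    (h0 h : Fin k → ℕ) (hh0 : h0 ∈ cub M M) (hh : h ∈ cub M M) (n : ℕ) (hn : n ∈ Ico X1 (2 * X1)) :
    ((∀ i, (Q : ℤ) ^ 8 * |((h i : ℕ) : ℤ) - h0 i| ≤ M i) →
    ‖((∏ i, Lk Q (Ysc (M i) / Q ^ 2) ((P i).eval (n : ℤ) + h i) : ℝ) : ℂ) -
      ∏ i, SG Q (Cc i ((P i).eval ((bs (X1 / Q ^ 8) n : ℕ) : ℤ) + (h0 i : ℤ))) ((P i).eval (n : ℤ) + h i)‖ ≤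
      k * (6 / (Q : ℝ) ^ 3) * (300 * (1 + Real.log Q) ^ 3) ^ k *
        ∏ i, dQ Q ((P i).eval (n : ℤ) + h i)) ∧
    ‖∏ i, SG Q (Cc i ((P i).eval ((bs (X1 / Q ^ 8) n : ℕ) : ℤ) + (h0 i : ℤ))) ((P i).eval (n : ℤ) + h i)‖ ≤
      (300 * (1 + Real.log Q) ^ 3) ^ k * ∏ i, dQ Q ((P i).eval (n : ℤ) + h i) := by
  have hQ1 : (1 : ℝ) ≤ Q := by exact_mod_cast hQ
  have hQ0 : (0 : ℝ) < Q := by linarith
  have hlog : 0 ≤ Real.log Q := Real.log_nonneg hQ1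
  have hX1 := hG.pos
  have hq8 : 0 < Q ^ 8 := pow_pos (by omega) _
  -- the cells for n
  have hXd : Q ^ 8 ∣ X1 := (pow_dvd_pow Q (by norm_num)).trans hG.dvd
  have hXe : X1 = X1 / Q ^ 8 * Q ^ 8 := (Nat.div_mul_cancel hXd).symm
  have hH : 0 < X1 / Q ^ 8 := Nat.div_pos (Nat.le_of_dvd hX1 hXd) hq8
  obtain ⟨hb1, hb2, hb3⟩ := v1a_bs (X1 / Q ^ 8) (Q ^ 8) n X1 hH hXe hn
  have hcell : (n - bs (X1 / Q ^ 8) n) * Q ^ 8 ≤ X1 := by
    calc (n - bs (X1 / Q ^ 8) n) * Q ^ 8 ≤ X1 / Q ^ 8 * Q ^ 8 :=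
          Nat.mul_le_mul_right _ (by omega)
      _ = X1 := hXe.symm
  have hh' : ∀ i, h i ∈ Ico (M i) (M i + M i) := fun i => Fintype.mem_piFinset.1 hh i
  have hMd : ∀ i, Q ^ 8 ∣ M i := fun i => (dvd_mul_left _ _).trans (hG.dvdM i)
  have hM8 : ∀ i, 8 ∣ M i := fun i => (dvd_mul_right _ _).trans (hG.dvdM i)
  have hMpos : ∀ i, 0 < M i := by
    intro i
    have := Finset.mem_Ico.1 (hh' i)
    omega
  -- the base points
  obtain ⟨F, hF⟩ : ∃ F : Fin k → ℤ, F = fun i => (P i).eval ((bs (X1 / Q ^ 8) n : ℕ) : ℤ) + (h0 i : ℤ) := ⟨_, rfl⟩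
  suffices hgoal : ((∀ i, (Q : ℤ) ^ 8 * |((h i : ℕ) : ℤ) - h0 i| ≤ M i) →
      ‖((∏ i, Lk Q (Ysc (M i) / Q ^ 2) ((P i).eval (n : ℤ) + h i) : ℝ) : ℂ) -
      ∏ i, SG Q (Cc i (F i)) ((P i).eval (n : ℤ) + h i)‖ ≤
      k * (6 / (Q : ℝ) ^ 3) * (300 * (1 + Real.log Q) ^ 3) ^ k *
        ∏ i, dQ Q ((P i).eval (n : ℤ) + h i)) ∧
    ‖∏ i, SG Q (Cc i (F i)) ((P i).eval (n : ℤ) + h i)‖ ≤
      (300 * (1 + Real.log Q) ^ 3) ^ k * ∏ i, dQ Q ((P i).eval (n : ℤ) + h i) by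
    rw [hF] at hgoal
    exact hgoal
  have hval : ∀ i, (Ysc (M i) : ℤ) ≤ (P i).eval (n : ℤ) + h i ∧
      (P i).eval (n : ℤ) + h i ≤ 4 * Ysc (M i) ∧ 4 * Ysc (M i) = 3 * M i := by
    intro i
    have h1 := G2_val (M i) (h i) ((P i).eval (n : ℤ)) (hM8 i) (hG.small i n hn)
      (by have := hh' i; rw [← two_mul] at this; exact this)
    exact ⟨h1.1, by linarith [h1.2.1, h1.1], h1.2.2⟩
  have hY : ∀ i, 0 < Ysc (M i) := by
    intro i
    have h1 := (hval i).2.2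
    have h2 := hMpos i
    omega
  have hh0' : ∀ i, h0 i ∈ Ico (M i) (2 * M i) := by
    intro i
    have := Fintype.mem_piFinset.1 hh0 i
    rw [← two_mul] at this
    exact this
  have hbase : ∀ i, (Ysc (M i) : ℤ) ≤ F i ∧ F i ≤ 4 * Ysc (M i) ∧
      ((Q : ℤ) ^ 8 * |((h i : ℕ) : ℤ) - h0 i| ≤ M i →
        (Q : ℤ) ^ 8 * |(P i).eval (n : ℤ) + h i - F i| ≤ 2 * M i) := by
    intro i
    have h1 := G2_val (M i) (h0 i) ((P i).eval ((bs (X1 / Q ^ 8) n : ℕ) : ℤ)) (hM8 i)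
      (hG.small i _ hb1) (hh0' i)
    have hFe : F i = (P i).eval ((bs (X1 / Q ^ 8) n : ℕ) : ℤ) + (h0 i : ℕ) := by
      rw [hF]
    rw [hFe]
    refine ⟨h1.1, by linarith [h1.2.1, h1.1], ?_⟩
    intro h3
    have h2 := hG.slow i _ hb1 n hn hb2 hcell
    have h5 : (P i).eval (n : ℤ) + (h i : ℤ) -
        ((P i).eval ((bs (X1 / Q ^ 8) n : ℕ) : ℤ) + (h0 i : ℕ)) =
        ((P i).eval (n : ℤ) - (P i).eval ((bs (X1 / Q ^ 8) n : ℕ) : ℤ)) +
        (((h i : ℕ) : ℤ) - (h0 i : ℕ)) := by ring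
    rw [h5]
    calc (Q : ℤ) ^ 8 * |((P i).eval (n : ℤ) - (P i).eval ((bs (X1 / Q ^ 8) n : ℕ) : ℤ)) +
        (((h i : ℕ) : ℤ) - (h0 i : ℕ))|
        ≤ (Q : ℤ) ^ 8 * (|(P i).eval (n : ℤ) - (P i).eval ((bs (X1 / Q ^ 8) n : ℕ) : ℤ)| +
        |((h i : ℕ) : ℤ) - (h0 i : ℕ)|) :=
          mul_le_mul_of_nonneg_left (abs_add_le _ _) (by positivity)
      _ ≤ 2 * M i := by
          rw [mul_add]
          linarith
  have hZ : (∏ i : Fin k, (300 * (1 + Real.log Q) ^ 3 * dQ Q ((P i).eval (n : ℤ) + h i))) =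
      (300 * (1 + Real.log Q) ^ 3) ^ k * ∏ i, dQ Q ((P i).eval (n : ℤ) + h i) := by
    rw [Finset.prod_mul_distrib, Finset.prod_const, Finset.card_univ, Fintype.card_fin]
  have hdq : ∀ i : Fin k, 0 ≤ dQ Q ((P i).eval (n : ℤ) + h i) := by
    intro i
    exact Nat.cast_nonneg _
  have hC0 : 0 ≤ 100 * (1 + Real.log Q) ^ 3 := by positivity
  have hsg : ∀ (m : ℤ) (i : Fin k), (Ysc (M i) : ℤ) ≤ m → m ≤ 4 * Ysc (M i) →
      ‖SG Q (Cc i m) ((P i).eval (n : ℤ) + h i)‖ ≤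
        300 * (1 + Real.log Q) ^ 3 * dQ Q ((P i).eval (n : ℤ) + h i) := by
    intro m i h1 h2
    refine (S1b Q hQ (Cc i m) (mb i) ((hC i).le m h1 h2) _).trans ?_
    have h3 : 0 ≤ 100 * (1 + Real.log Q) ^ 3 * dQ Q ((P i).eval (n : ℤ) + h i) := mul_nonneg hC0 (hdq i)
    calc 100 * (1 + Real.log Q) ^ 3 * dQ Q ((P i).eval (n : ℤ) + h i) * ∑ p ∈ PC Q, mb i p
        ≤ 100 * (1 + Real.log Q) ^ 3 * dQ Q ((P i).eval (n : ℤ) + h i) * 3 :=
          mul_le_mul_of_nonneg_left (hC i).sum h3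
      _ = 300 * (1 + Real.log Q) ^ 3 * dQ Q ((P i).eval (n : ℤ) + h i) := by ring
  constructor
  · intro hclose
    have hLk : ((∏ i, Lk Q (Ysc (M i) / Q ^ 2) ((P i).eval (n : ℤ) + h i) : ℝ) : ℂ) =
        ∏ i, SG Q (Cc i ((P i).eval (n : ℤ) + h i)) ((P i).eval (n : ℤ) + h i) := by
      rw [Complex.ofReal_prod]
      exact Finset.prod_congr rfl fun i _ => (hC i).eq _ (hval i).1 (hval i).2.1
    rw [hLk]
    have key := v1b_prod (Finset.univ : Finset (Fin k))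
      (fun i => SG Q (Cc i ((P i).eval (n : ℤ) + h i)) ((P i).eval (n : ℤ) + h i))
      (fun i => SG Q (Cc i (F i)) ((P i).eval (n : ℤ) + h i))
      (fun i => 300 * (1 + Real.log Q) ^ 3 * dQ Q ((P i).eval (n : ℤ) + h i)) (6 / (Q : ℝ) ^ 3)
      (by positivity)
      (fun i => mul_nonneg (by positivity) (hdq i))
      (fun i _ => hsg _ i (hval i).1 (hval i).2.1)
      (fun i _ => hsg _ i (hbase i).1 (hbase i).2.1)
      (fun i _ => ?_)
    · rw [hZ, Finset.card_univ, Fintype.card_fin] at key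
      refine key.trans (le_of_eq ?_)
      ring
    · rw [v1b_sub]
      have hY0 : (0 : ℝ) < Ysc (M i) := by exact_mod_cast hY i
      have h1 : ∀ p ∈ PC Q, ‖Cc i ((P i).eval (n : ℤ) + h i) p - Cc i (F i) p‖ ≤ 6 / (Q : ℝ) ^ 5 := by
        intro p hp
        refine (v1a_slow Q (Ysc (M i)) (Cc i) (mb i) (hC i) _ _ (hbase i).1 (hbase i).2.1
          (hval i).1 (hval i).2.1 p hp).trans ?_
        have h2 : (Q : ℝ) ^ 8 * |(((P i).eval (n : ℤ) + h i : ℤ) : ℝ) - ((F i : ℤ) : ℝ)| ≤ 2 * M i := by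
          exact_mod_cast (hbase i).2.2 (hclose i)
        have h3 : (4 : ℝ) * Ysc (M i) = 3 * M i := by exact_mod_cast (hval i).2.2
        have h4 : |(((P i).eval (n : ℤ) + h i : ℤ) : ℝ) - ((F i : ℤ) : ℝ)| ≤
            (8 / 3 * Ysc (M i)) / (Q : ℝ) ^ 8 := by
          rw [le_div_iff₀ (by positivity), mul_comm]
          linarith
        calc |(((P i).eval (n : ℤ) + h i : ℤ) : ℝ) - ((F i : ℤ) : ℝ)| *
              (2 * (Q : ℝ) ^ 3 / Ysc (M i))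
            ≤ (8 / 3 * Ysc (M i)) / (Q : ℝ) ^ 8 * (2 * (Q : ℝ) ^ 3 / Ysc (M i)) :=
              mul_le_mul_of_nonneg_right h4 (by positivity)
          _ = (16 / 3) / (Q : ℝ) ^ 5 := by
              field_simp
              ring
          _ ≤ 6 / (Q : ℝ) ^ 5 := by
              apply div_le_div_of_nonneg_right _ (by positivity)
              norm_num
      refine (S1b Q hQ _ (fun _ => 6 / (Q : ℝ) ^ 5) h1 _).trans ?_
      rw [Finset.sum_const, nsmul_eq_mul]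
      have hc : ((PC Q).card : ℝ) ≤ (Q : ℝ) ^ 2 := by exact_mod_cast card_PC_le Q
      have h3 : 0 ≤ 100 * (1 + Real.log Q) ^ 3 * dQ Q ((P i).eval (n : ℤ) + h i) :=
        mul_nonneg hC0 (hdq i)
      calc 100 * (1 + Real.log Q) ^ 3 * dQ Q ((P i).eval (n : ℤ) + h i) *
            (((PC Q).card : ℝ) * (6 / (Q : ℝ) ^ 5))
          ≤ 100 * (1 + Real.log Q) ^ 3 * dQ Q ((P i).eval (n : ℤ) + h i) *
            ((Q : ℝ) ^ 2 * (6 / (Q : ℝ) ^ 5)) := by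
            apply mul_le_mul_of_nonneg_left _ h3
            exact mul_le_mul_of_nonneg_right hc (by positivity)
        _ = 6 / (Q : ℝ) ^ 3 * (100 * (1 + Real.log Q) ^ 3 * dQ Q ((P i).eval (n : ℤ) + h i)) := by
            field_simp
        _ ≤ 6 / (Q : ℝ) ^ 3 * (300 * (1 + Real.log Q) ^ 3 * dQ Q ((P i).eval (n : ℤ) + h i)) := by
            apply mul_le_mul_of_nonneg_left _ (by positivity)
            have h5 : 0 ≤ (1 + Real.log Q) ^ 3 * dQ Q ((P i).eval (n : ℤ) + h i) :=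
              mul_nonneg (by positivity) (hdq i)
            nlinarith
  · rw [← hZ, norm_prod]
    exact Finset.prod_le_prod (fun i _ => norm_nonneg _) fun i _ => hsg _ i (hbase i).1 (hbase i).2.1


/-- The product of the divisor functions. -/
theorem u4_prod (k A : ℕ) (C : ℝ) : ∃ Q0 : ℕ, 3 ≤ Q0 ∧ ∀ P : Fin k → ℤ[X], (∀ i, (P i).natDegree ≤ A) →
    ∀ (Q X X1 : ℕ) (M : Fin k → ℕ), Q0 ≤ Q → Rg 2 C Q X → GeoV Q X X1 P M →
    ∀ h ∈ cub M M, ∀ n ∈ Ico X1 (2 * X1), (∀ i, 8 * |(P i).eval (n : ℤ)| ≤ M i) →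
    ∏ i, dQ Q ((P i).eval (n : ℤ) + h i) ≤ (Q : ℝ) ^ (1 / 2 : ℝ) := by
  obtain ⟨Q0, hQ0⟩ := R13_dQ A C (1 / (2 * k + 2)) (by positivity)
  refine ⟨max 3 Q0, le_max_left _ _, fun P hdA Q X X1 M hQ hR hG h hh n hn hP => ?_⟩
  have hQ3 : 3 ≤ Q := (le_max_left _ _).trans hQ
  have hQ0' : Q0 ≤ Q := (le_max_right _ _).trans hQ
  have hQr : (0 : ℝ) < Q := by exact_mod_cast (by omega : 0 < Q)
  have hQ1 : (1 : ℝ) ≤ Q := by exact_mod_cast (by omega : 1 ≤ Q)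
  have hlogQ : 1 ≤ Real.log Q := G1_log1 hQ3
  have hX1 : 0 < X1 := hG.pos
  have hX : 0 < X := lt_of_lt_of_le hX1 hG.le
  have hXr : (0 : ℝ) < X := by exact_mod_cast hX
  have hX3 : (3 : ℝ) ≤ X := by
    have h1 : 2 * Real.log Q ≤ Real.log X := hR.1
    have h2 : (2 : ℝ) ≤ Real.log X := by linarith
    have h3 := Real.add_one_le_exp (2 : ℝ)
    have h4 : Real.exp 2 ≤ Real.exp (Real.log X) := Real.exp_le_exp.2 h2
    rw [Real.exp_log hXr] at h4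
    linarith
  have hQX : (Q : ℝ) ^ (1 / 8 : ℝ) ≤ X := by
    rw [Real.rpow_def_of_pos hQr, ← Real.le_log_iff_exp_le hXr]
    have h1 : 2 * Real.log Q ≤ Real.log X := hR.1
    linarith
  have hh' : ∀ i, h i ∈ Ico (M i) (2 * M i) := by
    intro i
    have := Fintype.mem_piFinset.1 hh i
    rw [← two_mul] at this
    exact this
  have hM8 : ∀ i, 8 ∣ M i := fun i => (dvd_mul_right _ _).trans (hG.dvdM i)
  have hd : ∀ i, dQ Q ((P i).eval (n : ℤ) + h i) ≤ (Q : ℝ) ^ (1 / (2 * k + 2) : ℝ) := by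
    intro i
    have h1 := G2_val (M i) (h i) ((P i).eval (n : ℤ)) (hM8 i) (hP i) (hh' i)
    have hMi : 0 < M i := by
      have := mem_Ico.1 (hh' i)
      omega
    have hY : 0 < Ysc (M i) := by
      have := h1.2.2
      omega
    have hm0 : 0 < (P i).eval (n : ℤ) + h i := by
      have : (0 : ℤ) < Ysc (M i) := by exact_mod_cast hY
      linarith [h1.1]
    refine hQ0 Q X _ hQ0' hX hR.2 hm0.ne' ?_
    rw [abs_of_pos hm0]
    have h2 : (P i).eval (n : ℤ) + h i ≤ 3 * M i := by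
      have h3 : (4 : ℤ) * Ysc (M i) = 3 * M i := by exact_mod_cast h1.2.2
      have h4 : (0 : ℤ) ≤ M i := by positivity
      linarith [h1.2.1]
    have h5 : ((3 * M i : ℕ) : ℝ) ≤ ((X ^ (A + 2) : ℕ) : ℝ) := by
      push_cast
      have hX1r : (X1 : ℝ) ≤ X := by exact_mod_cast hG.le
      have hXone : (1 : ℝ) ≤ X := by linarith
      have hdeg : (P i).natDegree ≤ A := hdA i
      calc (3 : ℝ) * M i ≤ X * ((X1 : ℝ) ^ (P i).natDegree * (Q : ℝ) ^ (1 / 8 : ℝ)) :=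
            mul_le_mul hX3 (hG.hi i) (Nat.cast_nonneg _) hXr.le
        _ ≤ X * ((X : ℝ) ^ A * X) := by
            apply mul_le_mul_of_nonneg_left _ hXr.le
            apply mul_le_mul _ hQX (by positivity) (by positivity)
            exact (pow_le_pow_left₀ (Nat.cast_nonneg _) hX1r _).trans (pow_le_pow_right₀ hXone hdeg)
        _ = (X : ℝ) ^ (A + 2) := by ring
    have h6 : 3 * M i ≤ X ^ (A + 2) := by exact_mod_cast h5
    calc (P i).eval (n : ℤ) + h i ≤ ((3 * M i : ℕ) : ℤ) := by push_cast; exact h2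
      _ ≤ ((X ^ (A + 2) : ℕ) : ℤ) := by exact_mod_cast h6
      _ = _ := by push_cast; rfl
  calc ∏ i, dQ Q ((P i).eval (n : ℤ) + h i) ≤ ∏ _i : Fin k, (Q : ℝ) ^ (1 / (2 * k + 2) : ℝ) :=
        Finset.prod_le_prod (fun i _ => Nat.cast_nonneg _) fun i _ => hd i
    _ = (Q : ℝ) ^ ((1 / (2 * k + 2) : ℝ) * k) := by
        rw [Finset.prod_const, Finset.card_univ, Fintype.card_fin, Real.rpow_mul hQr.le, Real.rpow_natCast]
    _ ≤ (Q : ℝ) ^ (1 / 2 : ℝ) := by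
        apply Real.rpow_le_rpow_of_exponent_le hQ1
        have hk : (0 : ℝ) ≤ k := Nat.cast_nonneg k
        rw [div_mul_eq_mul_div, one_mul, div_le_div_iff₀ (by positivity) (by norm_num)]
        linarith

/-- **U4a.** Copy of `R13_small` (`HUP/R13.lean`, with `r13_pt`, `r13_prod`): `G2_P` and `Geo` are replaced by the fields of `GeoV`; in `r13_prod` take
`R13_dQ` with `k * A` instead of `∑ deg P_i`. -/
theorem U4_small (k A : ℕ) (C : ℝ) : ∃ Q0 : ℕ, ∀ P : Fin k → ℤ[X], Pol A P →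
    ∀ (Q X X1 : ℕ) (M : Fin k → ℕ), Q0 ≤ Q → Rg 2 C Q X → GeoV Q X X1 P M →
    ∀ (C' : Fin k → ℤ → Ch → ℂ) (mb : Fin k → Ch → ℝ), (∀ i, Cf Q (Ysc (M i)) (C' i) (mb i)) →
    ∀ (w : ℕ → ℂ) (δ : ℝ), (∀ n ∈ Ico X1 (2 * X1), ‖w n‖ ≤ δ) → ∀ h0 ∈ cub M M, ∀ h ∈ cub M M,
    ‖Rzb Q X1 P C' w h0 h‖ ≤ δ * X1 * Q := by
  obtain ⟨Qa, hQa3, ha⟩ := u4_prod k A C
  obtain ⟨Qb, hQb1, hb⟩ := G1_rlog (300 ^ k) ((3 * k : ℕ) : ℝ) (1 / 2) (by norm_num)
  refine ⟨max Qa Qb, fun P hP Q X X1 M hQ hR hG C' mb hC w δ hw h0 hh0 h hh => ?_⟩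
  have hQa := (le_max_left _ _).trans hQ
  have hQb := (le_max_right _ _).trans hQ
  have hQ1 : 1 ≤ Q := hQb1.trans hQb
  have hQr : (0 : ℝ) < Q := by exact_mod_cast hQ1
  have hlog : 0 ≤ Real.log Q := Real.log_natCast_nonneg Q
  have hX1 : 0 < X1 := hG.pos
  have hδ : 0 ≤ δ := (norm_nonneg _).trans (hw X1 (by rw [Finset.mem_Ico]; omega))
  have k2 := hb Q hQb
  rw [Real.rpow_natCast] at k2
  have k3 : (300 * (1 + Real.log Q) ^ 3) ^ k ≤ (Q : ℝ) ^ (1 / 2 : ℝ) := by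
    rw [mul_pow, ← pow_mul]
    exact k2
  have hterm : ∀ n ∈ Ico X1 (2 * X1), ‖w n *
      ∏ i, SG Q (C' i ((P i).eval ((bs (X1 / Q ^ 8) n : ℕ) : ℤ) + (h0 i : ℤ))) ((P i).eval (n : ℤ) + h i)‖ ≤ δ * Q := by
    intro n hn
    rw [norm_mul]
    have h1 := (u4_pt P Q X X1 hQ1 M hG C' mb hC h0 h hh0 hh n hn).2
    have h2 := ha P hP.degA Q X X1 M hQa hR hG h hh n hn fun i => hG.small i n hn
    have h3 : (300 * (1 + Real.log Q) ^ 3) ^ k * ∏ i, dQ Q ((P i).eval (n : ℤ) + h i) ≤ Q := by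
      calc (300 * (1 + Real.log Q) ^ 3) ^ k * ∏ i, dQ Q ((P i).eval (n : ℤ) + h i)
          ≤ (Q : ℝ) ^ (1 / 2 : ℝ) * (Q : ℝ) ^ (1 / 2 : ℝ) :=
            mul_le_mul k3 h2 (Finset.prod_nonneg fun i _ => Nat.cast_nonneg _) (by positivity)
        _ = Q := by
            rw [← Real.rpow_add hQr]
            norm_num
    exact mul_le_mul (hw n hn) (h1.trans h3) (norm_nonneg _) hδ
  unfold Rzb
  calc ‖∑ n ∈ Ico X1 (2 * X1), w n *
        ∏ i, SG Q (C' i ((P i).eval ((bs (X1 / Q ^ 8) n : ℕ) : ℤ) + (h0 i : ℤ))) ((P i).eval (n : ℤ) + h i)‖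
      ≤ ∑ n ∈ Ico X1 (2 * X1), δ * Q := (norm_sum_le _ _).trans (Finset.sum_le_sum hterm)
    _ = δ * X1 * Q := by
        rw [Finset.sum_const, Nat.card_Ico, nsmul_eq_mul]
        have : 2 * X1 - X1 = X1 := by omega
        rw [this]
        ring

/-- **U4.** Copy of `R13_main` (`HUP/R13.lean`), in the same way. -/
theorem U4_main (k A : ℕ) (C : ℝ) : ∃ Q0 : ℕ, ∀ P : Fin k → ℤ[X], Pol A P →
    ∀ (Q X X1 : ℕ) (M : Fin k → ℕ), Q0 ≤ Q → Rg 2 C Q X → GeoV Q X X1 P M →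
    ∀ (C' : Fin k → ℤ → Ch → ℂ) (mb : Fin k → Ch → ℝ), (∀ i, Cf Q (Ysc (M i)) (C' i) (mb i)) →
    ∀ w : ℕ → ℝ, (∀ n ∈ Ico X1 (2 * X1), |w n| ≤ (Real.log X) ^ 2) → ∀ h0 ∈ cub M M, ∀ h ∈ cub M M,
    (∀ i, (Q : ℤ) ^ 8 * |((h i : ℕ) : ℤ) - h0 i| ≤ M i) →
    ‖((Rw Q X1 P M w h : ℝ) : ℂ) - Rzb Q X1 P C' (fun n => ((w n : ℝ) : ℂ)) h0 h‖ ≤ X1 * (Q : ℝ) ^ (-(1) : ℝ) := by
  obtain ⟨Qa, hQa3, ha⟩ := u4_prod k A C
  obtain ⟨Qb, hQb1, hb⟩ := G1_rlog (300 ^ k) ((3 * k : ℕ) : ℝ) (1 / 4) (by norm_num)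
  obtain ⟨Qc, hQc1, hc⟩ := G1_log C 2 (6 * k) (1 / 4) (by norm_num)
  refine ⟨max (max Qa Qb) Qc, fun P hP Q X X1 M hQ hR hG C' mb hC w hw h0 hh0 h hh hclose => ?_⟩
  have hQa := ((le_max_left _ _).trans (le_max_left _ _)).trans hQ
  have hQb := ((le_max_right _ _).trans (le_max_left _ _)).trans hQ
  have hQc := (le_max_right _ _).trans hQ
  have hQ1 : 1 ≤ Q := hQb1.trans hQb
  have hQr : (0 : ℝ) < Q := by exact_mod_cast hQ1
  have hQr1 : (1 : ℝ) ≤ Q := by exact_mod_cast hQ1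
  have hlog : 0 ≤ Real.log Q := Real.log_natCast_nonneg Q
  have k2 := hb Q hQb
  rw [Real.rpow_natCast] at k2
  have k3 : (300 * (1 + Real.log Q) ^ 3) ^ k ≤ (Q : ℝ) ^ (1 / 4 : ℝ) := by
    rw [mul_pow, ← pow_mul]
    exact k2
  have k4 := hc Q X hQc hR.2
  obtain ⟨δ, hδ⟩ : ∃ δ : ℝ, δ = (Q : ℝ) ^ (-(1) : ℝ) := ⟨_, rfl⟩
  have hδ2 : (Q : ℝ) ^ (1 / 4 : ℝ) * ((Q : ℝ) ^ (1 / 4 : ℝ) * (Q : ℝ) ^ (1 / 2 : ℝ)) / (Q : ℝ) ^ 3 ≤ δ := by
    have h1 : (Q : ℝ) ^ (1 / 4 : ℝ) * ((Q : ℝ) ^ (1 / 4 : ℝ) * (Q : ℝ) ^ (1 / 2 : ℝ)) = Q := by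
      rw [← Real.rpow_add hQr, ← Real.rpow_add hQr]
      norm_num
    rw [h1, hδ, Real.rpow_neg hQr.le, Real.rpow_one, div_le_iff₀ (by positivity)]
    have h2 : ((Q : ℝ))⁻¹ * (Q : ℝ) ^ 3 = (Q : ℝ) ^ 2 := by field_simp
    rw [h2]
    nlinarith
  have hterm : ∀ n ∈ Ico X1 (2 * X1), ‖((w n : ℝ) : ℂ) *
      (((∏ i, Lk Q (Ysc (M i) / Q ^ 2) ((P i).eval (n : ℤ) + h i) : ℝ) : ℂ) -
      ∏ i, SG Q (C' i ((P i).eval ((bs (X1 / Q ^ 8) n : ℕ) : ℤ) + (h0 i : ℤ))) ((P i).eval (n : ℤ) + h i))‖ ≤ δ := by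
    intro n hn
    rw [norm_mul, Complex.norm_real, Real.norm_eq_abs]
    have h1 := (u4_pt P Q X X1 hQ1 M hG C' mb hC h0 h hh0 hh n hn).1 hclose
    have h2 := ha P hP.degA Q X X1 M hQa hR hG h hh n hn fun i => hG.small i n hn
    have h4 : (0 : ℝ) ≤ ∏ i, dQ Q ((P i).eval (n : ℤ) + h i) := Finset.prod_nonneg fun i _ => Nat.cast_nonneg _
    refine le_trans ?_ hδ2
    calc |w n| * ‖((∏ i, Lk Q (Ysc (M i) / Q ^ 2) ((P i).eval (n : ℤ) + h i) : ℝ) : ℂ) -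
          ∏ i, SG Q (C' i ((P i).eval ((bs (X1 / Q ^ 8) n : ℕ) : ℤ) + (h0 i : ℤ))) ((P i).eval (n : ℤ) + h i)‖
        ≤ (Real.log X) ^ 2 * (k * (6 / (Q : ℝ) ^ 3) * (300 * (1 + Real.log Q) ^ 3) ^ k *
          ∏ i, dQ Q ((P i).eval (n : ℤ) + h i)) := mul_le_mul (hw n hn) h1 (norm_nonneg _) (by positivity)
      _ = (6 * k * (Real.log X) ^ 2) * ((300 * (1 + Real.log Q) ^ 3) ^ k *
          ∏ i, dQ Q ((P i).eval (n : ℤ) + h i)) / (Q : ℝ) ^ 3 := by ring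
      _ ≤ (Q : ℝ) ^ (1 / 4 : ℝ) * ((Q : ℝ) ^ (1 / 4 : ℝ) * (Q : ℝ) ^ (1 / 2 : ℝ)) / (Q : ℝ) ^ 3 := by
          apply div_le_div_of_nonneg_right _ (by positivity)
          apply mul_le_mul k4 _ (by positivity) (by positivity)
          exact mul_le_mul k3 h2 h4 (by positivity)
  have e : ((Rw Q X1 P M w h : ℝ) : ℂ) - Rzb Q X1 P C' (fun n => ((w n : ℝ) : ℂ)) h0 h =
      ∑ n ∈ Ico X1 (2 * X1), ((w n : ℝ) : ℂ) *
        (((∏ i, Lk Q (Ysc (M i) / Q ^ 2) ((P i).eval (n : ℤ) + h i) : ℝ) : ℂ) -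
          ∏ i, SG Q (C' i ((P i).eval ((bs (X1 / Q ^ 8) n : ℕ) : ℤ) + (h0 i : ℤ))) ((P i).eval (n : ℤ) + h i)) := by
    unfold Rw Rzb
    rw [Complex.ofReal_sum, ← Finset.sum_sub_distrib]
    refine Finset.sum_congr rfl fun n _ => ?_
    rw [Complex.ofReal_mul, mul_sub]
  rw [e]
  calc ‖∑ n ∈ Ico X1 (2 * X1), ((w n : ℝ) : ℂ) *
        (((∏ i, Lk Q (Ysc (M i) / Q ^ 2) ((P i).eval (n : ℤ) + h i) : ℝ) : ℂ) -
          ∏ i, SG Q (C' i ((P i).eval ((bs (X1 / Q ^ 8) n : ℕ) : ℤ) + (h0 i : ℤ))) ((P i).eval (n : ℤ) + h i))‖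
      ≤ ∑ n ∈ Ico X1 (2 * X1), δ := (norm_sum_le _ _).trans (Finset.sum_le_sum hterm)
    _ = X1 * (Q : ℝ) ^ (-(1) : ℝ) := by
        rw [Finset.sum_const, Nat.card_Ico, nsmul_eq_mul, hδ]
        have : 2 * X1 - X1 = X1 := by omega
        rw [this]

end Pool.Agent.H9P
end

-- from Lib.H9P.U5
section

/-!
# ASYP, chunk U5 (S): `R14_main` with the geometry `GeoV`, uniformly in the polynomials
-/

open Finset Polynomial

namespace Pool.Agent.H9P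

open Pool.Agent.Lib.H68T Pool.Agent.Lib.H18Q Pool.Agent.Lib.H59P Pool.Agent.Lib.H24P
open Pool.Agent.HUP

/-- **U5.** Copy of `R14_main` (`HUP/R14.lean`) with `U4_small` instead of `R13_small`. -/
theorem U5_main (k A : ℕ) (C : ℝ) : ∃ Q0 : ℕ, ∀ P : Fin k → ℤ[X], Pol A P →
    ∀ (Q X X1 Y : ℕ) (M : Fin k → ℕ) (B : ℤ[X]) (C0 : ℤ → Ch → ℂ) (mb : Ch → ℝ),
    Q0 ≤ Q → Rg 2 C Q X → GeoV Q X X1 P M → GeoB A X X1 Y B → Cf (Q ^ 100) Y C0 mb →
    ∀ (C' : Fin k → ℤ → Ch → ℂ) (mc : Fin k → Ch → ℝ), (∀ i, Cf Q (Ysc (M i)) (C' i) (mc i)) →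
    ∀ h0 ∈ cub M M, ∀ h ∈ cub M M,
    ‖Rzb Q X1 P C' (fun n => ((Lk (Q ^ 100) (Y / (Q ^ 100) ^ 2) (B.eval (n : ℤ)) : ℝ) : ℂ)) h0 h -
      Rzb Q X1 P C' (gB Q X1 B C0) h0 h‖ ≤ X1 * (Q : ℝ) ^ (-(1) : ℝ) := by
  obtain ⟨Q1, h1⟩ := U4_small k A C
  obtain ⟨Q2, h2⟩ := V2_pt A
  refine ⟨max (max Q1 Q2) 1, ?_⟩
  intro P hP Q X X1 Y M B C0 mb hQ hRg hG hGB hC C' mc hCc h0 hh0 h hh
  have hQ1 : Q1 ≤ Q := (le_max_left _ _).trans ((le_max_left _ _).trans hQ)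
  have hQ2 : Q2 ≤ Q := (le_max_right _ _).trans ((le_max_left _ _).trans hQ)
  have hQ3 : 1 ≤ Q := (le_max_right _ _).trans hQ
  have h3 := h1 P hP Q X X1 M hQ1 hRg hG C' mc hCc
    (fun n => ((Lk (Q ^ 100) (Y / (Q ^ 100) ^ 2) (B.eval (n : ℤ)) : ℝ) : ℂ) - gB Q X1 B C0 n)
    ((Q : ℝ) ^ (-(10) : ℝ)) (fun n hn => h2 Q X X1 Y B C0 mb hQ2 hG.dvd hGB hC n hn) h0 hh0 h hh
  have h4 : Rzb Q X1 P C'
        (fun n => ((Lk (Q ^ 100) (Y / (Q ^ 100) ^ 2) (B.eval (n : ℤ)) : ℝ) : ℂ)) h0 h -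
      Rzb Q X1 P C' (gB Q X1 B C0) h0 h = Rzb Q X1 P C'
        (fun n => ((Lk (Q ^ 100) (Y / (Q ^ 100) ^ 2) (B.eval (n : ℤ)) : ℝ) : ℂ) - gB Q X1 B C0 n) h0 h := by
    unfold Rzb
    rw [← sum_sub_distrib]
    refine sum_congr rfl fun n _ => ?_
    ring
  rw [h4]
  refine h3.trans ?_
  have hQr : (1 : ℝ) ≤ Q := by exact_mod_cast hQ3
  have hQp : (0 : ℝ) < Q := by linarith
  have h5 : (Q : ℝ) ^ (-(10) : ℝ) * Q ≤ (Q : ℝ) ^ (-(1) : ℝ) := by
    have e2 : (Q : ℝ) ^ (-(10) : ℝ) * Q = (Q : ℝ) ^ (-(9) : ℝ) := by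
      have := Real.rpow_add hQp (-(10)) 1
      rw [Real.rpow_one] at this
      rw [← this]
      norm_num
    rw [e2]
    exact Real.rpow_le_rpow_of_exponent_le hQr (by norm_num)
  calc (Q : ℝ) ^ (-(10) : ℝ) * X1 * Q = X1 * ((Q : ℝ) ^ (-(10) : ℝ) * Q) := by ring
    _ ≤ X1 * (Q : ℝ) ^ (-(1) : ℝ) := mul_le_mul_of_nonneg_left h5 (by positivity)

end Pool.Agent.H9P
end

-- from Lib.H9P.U10
section

/-!
# ASYP, chunk U10 (M): the singular series truncated at different places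
-/

open Finset Polynomial

namespace Pool.Agent.H9P

open Pool.Agent.Lib.H68T Pool.Agent.Lib.H18Q Pool.Agent.Lib.H59P Pool.Agent.Lib.H24P
open Pool.Agent.HUP

theorem u10_mono {k : ℕ} {E : ℕ} {Cc cc : ℝ} {Qm Qm' : ℕ} (h : Qm' ≤ Qm) {P : Fin k → ℤ[X]} {ι : Type}
    {S : Finset ι} {g : ι → Fin k → ℕ} (hF : FGood E Cc cc Qm P S g) : FGood E Cc cc Qm' P S g :=
  fun Q h1 h2 => hF Q h1 (h2.trans h)

theorem u10_split {k : ℕ} (φ : Fin k → ℤ → ℤ) (Q z a A : ℕ) (ha1 : 1 ≤ a) (haA : a ≤ A) (hAQ : A ≤ Q)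
    (hQz : Q ≤ z) : SSf (pr z) φ - SSf (pr Q) φ = SSf ((pr Q).filter (fun l => l ∣ a)) φ *
      (SSf ((pr z).filter (fun l => ¬ l ∣ a)) φ - SSf ((pr Q).filter (fun l => ¬ l ∣ a)) φ) := by
  have h1 : (pr z).filter (fun l => l ∣ a) = (pr Q).filter (fun l => l ∣ a) := by
    ext l
    unfold pr
    simp only [mem_filter, mem_Icc]
    constructor
    · rintro ⟨⟨⟨h1, h2⟩, h3⟩, h4⟩
      exact ⟨⟨⟨h1, (Nat.le_of_dvd ha1 h4).trans (haA.trans hAQ)⟩, h3⟩, h4⟩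
    · rintro ⟨⟨⟨h1, h2⟩, h3⟩, h4⟩
      exact ⟨⟨⟨h1, h2.trans hQz⟩, h3⟩, h4⟩
  have h2 : ∀ w, SSf (pr w) φ = SSf ((pr w).filter (fun l => l ∣ a)) φ *
      SSf ((pr w).filter (fun l => ¬ l ∣ a)) φ := by
    intro w
    unfold SSf
    rw [Finset.prod_filter_mul_prod_filter_not]
  rw [h2 z, h2 Q, h1]
  ring

theorem u10_sq3 (x y z : ℝ) : (x + y + z) ^ 2 ≤ 3 * x ^ 2 + 3 * y ^ 2 + 3 * z ^ 2 := by
  nlinarith [sq_nonneg (x - y), sq_nonneg (y - z), sq_nonneg (x - z)]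

/-- Proof. Let `a = |lc B| ≤ A`. `SSf (pr z) φ = SSf ((pr z).filter (· ∣ a)) φ * SSf ((pr z).filter (¬ · ∣ a)) φ`; the first factor is the same for `z` and `Q` (both `≥ A`) and between `0` and
`2^((k+1) A)` (`0 ≤ 1 + tpf l ≤ (l/(l-1))^(k+1) ≤ 2^(k+1)`, at most `A` primes). By `R6_main` (`TMb`) at the levels `z` and `Q` with `R = a` the second factors are
`∑_{d ∈ SF(fl z (1/2)/a) a} tdf d` and `∑_{d ∈ SF(fl Q (1/2)/a) a} tdf d` in mean square (`S.card z^(-c)`, `S.card Q^(-c)`; `FGood` is monotone in `Qm`); the difference of these is the sum over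
`Δ = SF(fl z (1/2)/a) a \ SF(fl Q (1/2)/a) a`, `R5_main` with `Q := z`, `D = fl Q (1/2)/a`: `≤ C (1 + log z)^C S.card D^(-c) ≤ S.card Q^(-c/4)` as `log z ≤ C log Q`.
`(x+y+z)² ≤ 3(x²+y²+z²)`. -/
theorem U10_ms (k A E : ℕ) (hA : 1 ≤ A) (Cc cc : ℝ) (hC : FPar Cc cc) : ∃ c : ℝ, 0 < c ∧ ∀ C : ℝ, ∃ Q0 : ℕ,
    ∀ Q z : ℕ, Q0 ≤ Q → Q ≤ z → Real.log z ≤ C * Real.log Q → ∀ B : ℤ[X], Lin A B → ∀ P : Fin k → ℤ[X], Pol A P →
    ∀ (ι : Type) (S : Finset ι) (g : ι → Fin k → ℕ), FGood E Cc cc (z ^ 2) P S g →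
    ∑ x ∈ S, (SSf (pr z) (sys B P (g x)) - SSf (pr Q) (sys B P (g x))) ^ 2 ≤ S.card * (Q : ℝ) ^ (-c) := by
  classical
  obtain ⟨c6, hc6, Q6, h6⟩ := R6_main k A E hA Cc cc hC
  obtain ⟨C5, c5, hC5, hc5, hc51, h5⟩ := R5_main k A E hA Cc cc hC
  obtain ⟨Qs, hQs, hsize⟩ := G1_size A
  obtain ⟨c, hcd⟩ : ∃ c : ℝ, c = min c6 (c5 / 8) / 2 := ⟨_, rfl⟩
  have hc0 : 0 < c := by
    rw [hcd]
    have := lt_min hc6 (show 0 < c5 / 8 by linarith)
    linarith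
  have hc1 : 2 * c ≤ c6 := by
    rw [hcd]
    have := min_le_left c6 (c5 / 8)
    linarith
  have hc2 : 2 * c ≤ c5 / 8 := by
    rw [hcd]
    have := min_le_right c6 (c5 / 8)
    linarith
  refine ⟨c, hc0, fun C => ?_⟩
  obtain ⟨Q1, hQ1, hl1⟩ := G1_rlog (C5 * (1 + |C|) ^ C5) C5 (c5 / 8) (by linarith)
  obtain ⟨Q2, hQ2, hl2⟩ := G1_log 1 (2 * (k + 1)) (9 * 500 ^ (2 * (k + 1))) c hc0
  refine ⟨max (max Q6 Qs) (max (max Q1 Q2) (max A 3)), fun Q z hQ hQz hlog B hB P hP ι S g hG => ?_⟩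
  have hq6 : Q6 ≤ Q := ((le_max_left _ _).trans (le_max_left _ _)).trans hQ
  have hqs : Qs ≤ Q := ((le_max_right _ _).trans (le_max_left _ _)).trans hQ
  have hq1 : Q1 ≤ Q := ((le_max_left _ _).trans ((le_max_left _ _).trans (le_max_right _ _))).trans hQ
  have hq2 : Q2 ≤ Q := ((le_max_right _ _).trans ((le_max_left _ _).trans (le_max_right _ _))).trans hQ
  have hqA : A ≤ Q := ((le_max_left _ _).trans ((le_max_right _ _).trans (le_max_right _ _))).trans hQ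
  have hq3 : 3 ≤ Q := ((le_max_right _ _).trans ((le_max_right _ _).trans (le_max_right _ _))).trans hQ
  have hQr : (1 : ℝ) ≤ Q := by exact_mod_cast (show 1 ≤ Q by omega)
  have hQ0 : (0 : ℝ) < Q := by linarith
  have hzr : (Q : ℝ) ≤ z := by exact_mod_cast hQz
  have hz0 : (0 : ℝ) < z := by linarith
  have hL : 0 ≤ Real.log Q := Real.log_nonneg hQr
  have hLz : 0 ≤ Real.log z := Real.log_nonneg (hQr.trans hzr)
  obtain ⟨a, had⟩ : ∃ a : ℕ, a = B.leadingCoeff.natAbs := ⟨_, rfl⟩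
  have ha1 : 1 ≤ a := by
    rw [had, Nat.one_le_iff_ne_zero, Ne, Int.natAbs_eq_zero, leadingCoeff_eq_zero]
    intro h
    have := hB.deg
    rw [h, natDegree_zero] at this
    omega
  have haA : a ≤ A := had ▸ hB.lc
  obtain ⟨hs1, hs2, -, -, hs5⟩ := hsize Q hqs 1 a ha1 haA (by rw [one_pow]; omega)
  obtain ⟨hz1, -, -, -, -⟩ := hsize z (hqs.trans hQz) 1 a ha1 haA (by rw [one_pow]; omega)
  rw [mul_one] at hs1 hz1
  have hD := hs5 a ha1 hs1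
  have hone : (1 : ℝ) ≤ (Q : ℝ) ^ (1 / 4 : ℝ) := Real.one_le_rpow hQr (by norm_num)
  obtain ⟨D, hDd⟩ : ∃ D : ℕ, D = fl Q (1 / 2) / a := ⟨_, rfl⟩
  obtain ⟨D', hD'd⟩ : ∃ D' : ℕ, D' = fl z (1 / 2) / a := ⟨_, rfl⟩
  rw [← hDd] at hD
  have hD1 : 1 ≤ D := by exact_mod_cast hone.trans hD
  have hD'z : D' ≤ z := by
    rw [hD'd]
    exact (Nat.div_le_self _ _).trans (G1_le (by omega) (by norm_num) (by norm_num))
  have hDD' : D ≤ D' := by
    rw [hDd, hD'd]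
    refine Nat.div_le_div_right ?_
    unfold fl
    exact Nat.floor_le_floor (Real.rpow_le_rpow hQ0.le hzr (by norm_num))
  have r6z := h6 z (hq6.trans hQz) B hB P hP ι S g hG a ha1 hz1 (by rw [had])
  have hGQ : FGood E Cc cc (Q ^ 2) P S g := u10_mono (Nat.pow_le_pow_left hQz 2) hG
  have r6Q := h6 Q hq6 B hB P hP ι S g hGQ a ha1 hs1 (by rw [had])
  rw [← hDd] at r6Q
  rw [← hD'd] at r6z
  have hsubSF : SF D a ⊆ SF D' a := by
    intro d hd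
    unfold SF at hd ⊢
    rw [mem_filter, mem_Icc] at hd ⊢
    exact ⟨⟨hd.1.1, hd.1.2.trans hDD'⟩, hd.2⟩
  obtain ⟨Δ, hΔd⟩ : ∃ Δ : Finset ℕ, Δ = SF D' a \ SF D a := ⟨_, rfl⟩
  have hΔ : ∀ d ∈ Δ, Squarefree d ∧ D < d ∧ d ≤ z ^ 2 ∧
      ∀ l ∈ d.primeFactors, l ≤ z ∧ ¬ l ∣ B.leadingCoeff.natAbs := by
    intro d hd
    rw [hΔd, mem_sdiff] at hd
    obtain ⟨h1, h2⟩ := hd
    unfold SF at h1 h2
    rw [mem_filter, mem_Icc] at h1 h2
    have hdz : d ≤ z := h1.1.2.trans hD'z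
    refine ⟨h1.2.1, ?_, ?_, ?_⟩
    · by_contra hlt
      exact h2 ⟨⟨h1.1.1, by omega⟩, h1.2⟩
    · refine hdz.trans ?_
      rw [pow_two]
      exact Nat.le_mul_of_pos_left z (by omega)
    · intro l hl
      have hlp := Nat.prime_of_mem_primeFactors hl
      have hld := Nat.dvd_of_mem_primeFactors hl
      refine ⟨(Nat.le_of_dvd h1.1.1 hld).trans hdz, fun hla => ?_⟩
      rw [← had] at hla
      exact hlp.one_lt.ne' (Nat.dvd_one.1 (h1.2.2 ▸ Nat.dvd_gcd hld hla))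
  have r5 := h5 B hB P hP z (by omega) Δ D hD1 hΔ ι S g hG
  have hcard : (0 : ℝ) ≤ S.card := Nat.cast_nonneg _
  have e1 : (z : ℝ) ^ (-c6) ≤ (Q : ℝ) ^ (-(2 * c)) :=
    (Real.rpow_le_rpow_of_nonpos hQ0 hzr (by linarith)).trans
      (Real.rpow_le_rpow_of_exponent_le hQr (by linarith))
  have e2 : (Q : ℝ) ^ (-c6) ≤ (Q : ℝ) ^ (-(2 * c)) := Real.rpow_le_rpow_of_exponent_le hQr (by linarith)
  have e3 : C5 * (1 + Real.log z) ^ C5 ≤ (Q : ℝ) ^ (c5 / 8) := by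
    refine le_trans ?_ (hl1 Q hq1)
    have h1 : 1 + Real.log z ≤ (1 + |C|) * (1 + Real.log Q) := by
      have h2 : C * Real.log Q ≤ |C| * Real.log Q := mul_le_mul_of_nonneg_right (le_abs_self C) hL
      have h3 := abs_nonneg C
      nlinarith
    have h2 : (1 + Real.log z) ^ C5 ≤ (1 + |C|) ^ C5 * (1 + Real.log Q) ^ C5 := by
      rw [← Real.mul_rpow (by positivity) (by linarith)]
      exact Real.rpow_le_rpow (by linarith) h1 (by linarith)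
    calc C5 * (1 + Real.log z) ^ C5 ≤ C5 * ((1 + |C|) ^ C5 * (1 + Real.log Q) ^ C5) :=
          mul_le_mul_of_nonneg_left h2 (by linarith)
      _ = C5 * (1 + |C|) ^ C5 * (1 + Real.log Q) ^ C5 := by ring
  have e4 : (D : ℝ) ^ (-c5) ≤ (Q : ℝ) ^ (-(c5 / 4)) := by
    calc (D : ℝ) ^ (-c5) ≤ ((Q : ℝ) ^ (1 / 4 : ℝ)) ^ (-c5) :=
          Real.rpow_le_rpow_of_nonpos (by linarith) hD (by linarith)
      _ = (Q : ℝ) ^ (-(c5 / 4)) := by
          rw [← Real.rpow_mul hQ0.le]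
          congr 1
          ring
  have e5 : C5 * (1 + Real.log z) ^ C5 * S.card * (D : ℝ) ^ (-c5) ≤ S.card * (Q : ℝ) ^ (-(2 * c)) := by
    calc C5 * (1 + Real.log z) ^ C5 * S.card * (D : ℝ) ^ (-c5)
        ≤ (Q : ℝ) ^ (c5 / 8) * S.card * (Q : ℝ) ^ (-(c5 / 4)) :=
          mul_le_mul (mul_le_mul_of_nonneg_right e3 hcard) e4 (Real.rpow_nonneg (Nat.cast_nonneg D) _)
            (mul_nonneg (Real.rpow_nonneg hQ0.le _) hcard)
      _ = S.card * ((Q : ℝ) ^ (c5 / 8) * (Q : ℝ) ^ (-(c5 / 4))) := by ring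
      _ = S.card * (Q : ℝ) ^ (-(c5 / 8)) := by
          rw [← Real.rpow_add hQ0]
          congr 2
          ring
      _ ≤ S.card * (Q : ℝ) ^ (-(2 * c)) :=
          mul_le_mul_of_nonneg_left (Real.rpow_le_rpow_of_exponent_le hQr (by linarith)) hcard
  obtain ⟨W, hWd⟩ : ∃ W : ℝ, W = (500 * Real.log Q) ^ (2 * (k + 1)) := ⟨_, rfl⟩
  have hW0 : 0 ≤ W := by rw [hWd]; positivity
  have hpt : ∀ x ∈ S, (SSf (pr z) (sys B P (g x)) - SSf (pr Q) (sys B P (g x))) ^ 2 ≤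
      W * (3 * (∑ d ∈ SF D' a, tdf d (sys B P (g x)) -
        SSf ((pr z).filter (fun l => ¬ l ∣ a)) (sys B P (g x))) ^ 2 +
        3 * (∑ d ∈ Δ, tdf d (sys B P (g x))) ^ 2 +
        3 * (∑ d ∈ SF D a, tdf d (sys B P (g x)) -
        SSf ((pr Q).filter (fun l => ¬ l ∣ a)) (sys B P (g x))) ^ 2) := by
    intro x _
    obtain ⟨φ, hφ⟩ : ∃ φ : Fin (k + 1) → ℤ → ℤ, φ = sys B P (g x) := ⟨_, rfl⟩
    rw [← hφ, u10_split φ Q z a A ha1 haA hqA hQz, mul_pow]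
    obtain ⟨hF0, hF1⟩ := T5_up φ Q (by omega) ((pr Q).filter (fun l => l ∣ a)) (filter_subset _ _)
    have hF2 : SSf ((pr Q).filter (fun l => l ∣ a)) φ ^ 2 ≤ W := by
      calc SSf ((pr Q).filter (fun l => l ∣ a)) φ ^ 2 ≤ ((500 * Real.log Q) ^ (k + 1)) ^ 2 :=
            pow_le_pow_left₀ hF0 hF1 2
        _ = W := by rw [hWd, ← pow_mul, mul_comm (k + 1) 2]
    have hsum : ∑ d ∈ Δ, tdf d φ = ∑ d ∈ SF D' a, tdf d φ - ∑ d ∈ SF D a, tdf d φ := by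
      rw [hΔd, ← Finset.sum_sdiff hsubSF]
      ring
    refine mul_le_mul hF2 ?_ (sq_nonneg _) hW0
    have h3 := u10_sq3 (-(∑ d ∈ SF D' a, tdf d φ - SSf ((pr z).filter (fun l => ¬ l ∣ a)) φ))
      (∑ d ∈ Δ, tdf d φ) (∑ d ∈ SF D a, tdf d φ - SSf ((pr Q).filter (fun l => ¬ l ∣ a)) φ)
    rw [neg_sq] at h3
    refine le_trans (le_of_eq ?_) h3
    rw [hsum]
    ring
  calc ∑ x ∈ S, (SSf (pr z) (sys B P (g x)) - SSf (pr Q) (sys B P (g x))) ^ 2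
      ≤ ∑ x ∈ S, W * (3 * (∑ d ∈ SF D' a, tdf d (sys B P (g x)) -
        SSf ((pr z).filter (fun l => ¬ l ∣ a)) (sys B P (g x))) ^ 2 +
        3 * (∑ d ∈ Δ, tdf d (sys B P (g x))) ^ 2 +
        3 * (∑ d ∈ SF D a, tdf d (sys B P (g x)) -
        SSf ((pr Q).filter (fun l => ¬ l ∣ a)) (sys B P (g x))) ^ 2) := Finset.sum_le_sum hpt
    _ = W * (3 * ∑ x ∈ S, (∑ d ∈ SF D' a, tdf d (sys B P (g x)) -
        SSf ((pr z).filter (fun l => ¬ l ∣ a)) (sys B P (g x))) ^ 2 +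
        3 * ∑ x ∈ S, (∑ d ∈ Δ, tdf d (sys B P (g x))) ^ 2 +
        3 * ∑ x ∈ S, (∑ d ∈ SF D a, tdf d (sys B P (g x)) -
        SSf ((pr Q).filter (fun l => ¬ l ∣ a)) (sys B P (g x))) ^ 2) := by
        rw [← Finset.mul_sum, Finset.sum_add_distrib, Finset.sum_add_distrib, ← Finset.mul_sum, ← Finset.mul_sum,
          ← Finset.mul_sum]
    _ ≤ W * (3 * (S.card * (Q : ℝ) ^ (-(2 * c))) + 3 * (S.card * (Q : ℝ) ^ (-(2 * c))) +
        3 * (S.card * (Q : ℝ) ^ (-(2 * c)))) := by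
        refine mul_le_mul_of_nonneg_left ?_ hW0
        have g1 := r6z.trans (mul_le_mul_of_nonneg_left e1 hcard)
        have g2 := r6Q.trans (mul_le_mul_of_nonneg_left e2 hcard)
        have g3 := r5.trans e5
        linarith
    _ = (9 * 500 ^ (2 * (k + 1)) * (Real.log Q) ^ (2 * (k + 1))) * (S.card * (Q : ℝ) ^ (-(2 * c))) := by
        rw [hWd, mul_pow]
        ring
    _ ≤ (Q : ℝ) ^ c * (S.card * (Q : ℝ) ^ (-(2 * c))) := by
        refine mul_le_mul_of_nonneg_right ?_ (mul_nonneg hcard (Real.rpow_nonneg hQ0.le _))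
        exact hl2 Q Q hq2 (by rw [one_mul])
    _ = S.card * ((Q : ℝ) ^ c * (Q : ℝ) ^ (-(2 * c))) := by ring
    _ = S.card * (Q : ℝ) ^ (-c) := by
        rw [← Real.rpow_add hQ0]
        congr 2
        ring

/-- `SSf` depends only on the residues of the constant terms modulo the primes. -/
theorem U10_mod {k : ℕ} (S : Finset ℕ) (B : ℤ[X]) (P : Fin k → ℤ[X]) (h h' : Fin k → ℕ)
    (hh : ∀ l ∈ S, ∀ i, (l : ℤ) ∣ (h i : ℤ) - h' i) : SSf S (sys B P h) = SSf S (sys B P h') := by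
  unfold SSf
  refine Finset.prod_congr rfl fun l hl => ?_
  unfold tpf
  have h1 : ∀ n : ℤ, ∏ i, (1 + gl l (sys B P h i n)) = ∏ i, (1 + gl l (sys B P h' i n)) := by
    intro n
    refine Finset.prod_congr rfl fun i _ => ?_
    refine Fin.cases ?_ (fun j => ?_) i
    · rfl
    · obtain ⟨q, hq⟩ := hh l hl j
      show 1 + gl l ((P j).eval n + (h j : ℤ)) = 1 + gl l ((P j).eval n + (h' j : ℤ))
      have h2 : (P j).eval n + (h j : ℤ) = ((P j).eval n + (h' j : ℤ)) + q * l := by linarith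
      rw [h2, gl_per]
  simp only [h1]

theorem u10_pol {k : ℕ} (D : Fin k → ℕ) (a : Fin k → ℤ) (P : Fin k → ℤ[X]) (hP : HasD D a P) (hD : ∀ i, 1 ≤ D i)
    (A : ℕ) : Pol (A + ∑ i, D i + ∑ i, (a i).natAbs) P := by
  refine ⟨fun i => ?_, fun i => ?_, fun i => ?_⟩
  · rw [(hP i).1]
    exact hD i
  · rw [(hP i).1]
    have := Finset.single_le_sum (f := D) (fun _ _ => Nat.zero_le _) (mem_univ i)
    omega
  · rw [(hP i).2]
    have := Finset.single_le_sum (f := fun i => (a i).natAbs) (fun _ _ => Nat.zero_le _) (mem_univ i)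
    omega

theorem u10_lin {A A' : ℕ} (h : A ≤ A') {B : ℤ[X]} (hB : Lin A B) : Lin A' B := ⟨hB.deg, hB.lc.trans h, hB.cop⟩

theorem u10_card {d : ℕ} (e : Fin d → ℕ) (A Z : ℕ) (hA : 1 ≤ A) (hZ : 1 ≤ Z) :
    ((tb 0 fun j => A * Z ^ e j + 1).card : ℝ) ≤ (2 * A) ^ d * (Z : ℝ) ^ (∑ j, e j) := by
  rw [R18_card]
  push_cast
  calc ∏ j, ((A : ℝ) * (Z : ℝ) ^ e j + 1) ≤ ∏ j, ((2 * A) * (Z : ℝ) ^ e j) := by
        refine Finset.prod_le_prod (fun j _ => by positivity) fun j _ => ?_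
        have h1 : (1 : ℝ) ≤ A := by exact_mod_cast hA
        have h2 : (1 : ℝ) ≤ (Z : ℝ) ^ e j := one_le_pow₀ (by exact_mod_cast hZ)
        nlinarith
    _ = (2 * A) ^ d * (Z : ℝ) ^ (∑ j, e j) := by
        rw [Finset.prod_mul_distrib, Finset.prod_const, card_univ, Fintype.card_fin, Finset.prod_pow_eq_pow_sum]

/-- **U10.** All `t`. Proof. `FGTU` gives `E, Cc, cc`; `δ1 = 1/(2E+4)`. WLOG `Q ≤ z` (else exchange them; the exponent is then multiplied by `δ`, as `z ≥ Z^δ ≥ Q^δ`). Put `β' i = β i + V`,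
`V` a multiple of `z!` so large that `0 ≤ β' i + ψ_i(t)` on `tb 0 (A Z^e + 1)`; `FGTU` with `Qm = z^2` (`z^(2E) ≤ Z ≤ s_j`) for this box, `U10_ms`, Chebyshev (`k1_cheb` in `H24P/K1.lean`).
For `t` with `β i + ψ_i(t) ≥ 0` the series are the same as those for `β'` (`U10_mod`). The number of the `t` is at most `(2A)^d Z^(∑ e)` (`R18_card`). -/
theorem U10_main {k d : ℕ} (c : Fin k → Fin d → ℤ) (e : Fin d → ℕ) (D : Fin k → ℕ) (a : Fin k → ℤ)
    (hF : FGTU c D a) (he : ∀ j, 1 ≤ e j) (hD : ∀ i, 1 ≤ D i) (P : Fin k → ℤ[X]) (hP : HasD D a P) :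
    ∃ δ1 : ℝ, 0 < δ1 ∧ ∀ (A : ℕ) (C δ : ℝ), 1 ≤ A → 0 < δ → ∃ c1 : ℝ, 0 < c1 ∧ ∃ Q0 : ℕ, ∀ Q Z z : ℕ, Q0 ≤ Q →
    Real.log Z ≤ C * Real.log Q → (Q : ℝ) ≤ (Z : ℝ) ^ δ1 → (Z : ℝ) ^ δ ≤ z → (z : ℝ) ≤ (Z : ℝ) ^ δ1 →
    ∀ B : ℤ[X], Lin A B → ∀ β : Fin k → ℤ,
    (((tb 0 fun j => A * Z ^ e j + 1).filter fun t => (∀ i, 0 ≤ β i + lf c t i) ∧
      (Q : ℝ) ^ (-c1) < |SSf (pr z) (sys B P (hh c β t)) - SSf (pr Q) (sys B P (hh c β t))|).card : ℝ) ≤
      (Z : ℝ) ^ (∑ j, e j) * (Q : ℝ) ^ (-c1) := by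
  classical
  obtain ⟨E, Cc, cc, hpar, hFG⟩ := hF
  obtain ⟨δ1, hδ1d⟩ : ∃ δ1 : ℝ, δ1 = 1 / (2 * E + 4) := ⟨_, rfl⟩
  have hE0 : (0 : ℝ) ≤ E := Nat.cast_nonneg E
  have hδ10 : 0 < δ1 := by
    rw [hδ1d]
    positivity
  have hδ11 : δ1 ≤ 1 := by
    rw [hδ1d, div_le_one (by positivity)]
    linarith
  have hδ1E : δ1 * (2 * E) ≤ 1 := by
    rw [hδ1d, div_mul_eq_mul_div, one_mul, div_le_one (by positivity)]
    linarith
  refine ⟨δ1, hδ10, fun A C δ hA hδ => ?_⟩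
  obtain ⟨A', hA'd⟩ : ∃ A' : ℕ, A' = A + ∑ i, D i + ∑ i, (a i).natAbs := ⟨_, rfl⟩
  obtain ⟨c0, hc0, hms0⟩ := U10_ms k A' E (by omega) Cc cc hpar
  obtain ⟨Q1, hms⟩ := hms0 (max |C| (1 / δ))
  obtain ⟨c2, hc2d⟩ : ∃ c2 : ℝ, c2 = c0 * min 1 δ := ⟨_, rfl⟩
  have hmin : 0 < min 1 δ := lt_min one_pos hδ
  have hc2 : 0 < c2 := by
    rw [hc2d]
    exact mul_pos hc0 hmin
  have hc2a : c2 ≤ c0 := by
    rw [hc2d]
    have := mul_le_mul_of_nonneg_left (min_le_left 1 δ) hc0.le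
    linarith
  have hc2b : c2 ≤ c0 * δ := by
    rw [hc2d]
    exact mul_le_mul_of_nonneg_left (min_le_right 1 δ) hc0.le
  obtain ⟨Q2, hQ2, hl2⟩ := G1_rlog ((2 * A) ^ d) 0 (c2 / 4) (by linarith)
  refine ⟨c2 / 4, by linarith, max (max Q1 Q2) (max ⌈(Q1 : ℝ) ^ (1 / δ)⌉₊ 1), ?_⟩
  intro Q Z z hQ hlog hQZ hzZ hzZ' B hB β
  have hq1 : Q1 ≤ Q := ((le_max_left _ _).trans (le_max_left _ _)).trans hQ
  have hq2 : Q2 ≤ Q := ((le_max_right _ _).trans (le_max_left _ _)).trans hQ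
  have hq3 : ⌈(Q1 : ℝ) ^ (1 / δ)⌉₊ ≤ Q := ((le_max_left _ _).trans (le_max_right _ _)).trans hQ
  have hq4 : 1 ≤ Q := ((le_max_right _ _).trans (le_max_right _ _)).trans hQ
  have hQr : (1 : ℝ) ≤ Q := by exact_mod_cast hq4
  have hQ0 : (0 : ℝ) < Q := by linarith
  have hLQ : 0 ≤ Real.log Q := Real.log_nonneg hQr
  have hZ1 : 1 ≤ Z := by
    rcases Nat.eq_zero_or_pos Z with h | h
    · rw [h, Nat.cast_zero, Real.zero_rpow hδ10.ne'] at hQZ
      linarith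
    · exact h
  have hZr : (1 : ℝ) ≤ Z := by exact_mod_cast hZ1
  have hZ0 : (0 : ℝ) < Z := by linarith
  have hLZ : 0 ≤ Real.log Z := Real.log_nonneg hZr
  have hz1r : (1 : ℝ) ≤ z := (Real.one_le_rpow hZr hδ.le).trans hzZ
  have hz0 : (0 : ℝ) < z := by linarith
  have hLz : 0 ≤ Real.log z := Real.log_nonneg hz1r
  have hZδ1 : (Z : ℝ) ^ δ1 ≤ Z := by
    calc (Z : ℝ) ^ δ1 ≤ (Z : ℝ) ^ (1 : ℝ) := Real.rpow_le_rpow_of_exponent_le hZr hδ11
      _ = Z := Real.rpow_one _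
  have hlogz : Real.log z ≤ Real.log Z := Real.log_le_log hz0 (hzZ'.trans hZδ1)
  have hlogQ : Real.log Q ≤ Real.log Z := Real.log_le_log hQ0 (hQZ.trans hZδ1)
  have hlogZz : Real.log Z ≤ 1 / δ * Real.log z := by
    have h1 : δ * Real.log Z ≤ Real.log z := by
      rw [← Real.log_rpow hZ0]
      exact Real.log_le_log (Real.rpow_pos_of_pos hZ0 _) hzZ
    calc Real.log Z = 1 / δ * (δ * Real.log Z) := by field_simp
      _ ≤ 1 / δ * Real.log z := mul_le_mul_of_nonneg_left h1 (by positivity)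
  have hQδ : (Q : ℝ) ^ δ ≤ z := (Real.rpow_le_rpow hQ0.le (hQZ.trans hZδ1) hδ.le).trans hzZ
  obtain ⟨w, hwd⟩ : ∃ w : ℕ, w = max Q z := ⟨_, rfl⟩
  have hwQ : Q ≤ w := hwd ▸ le_max_left _ _
  have hwz : z ≤ w := hwd ▸ le_max_right _ _
  have hw1 : 1 ≤ w := hq4.trans hwQ
  have hwZ : (w : ℝ) ≤ (Z : ℝ) ^ δ1 := by
    rw [hwd, Nat.cast_max]
    exact max_le hQZ hzZ'
  have hwE : (w ^ 2) ^ E ≤ Z := by
    have h1 : ((w : ℝ) ^ 2) ^ E ≤ Z := by
      calc ((w : ℝ) ^ 2) ^ E = (w : ℝ) ^ (2 * E) := (pow_mul _ _ _).symm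
        _ ≤ ((Z : ℝ) ^ δ1) ^ (2 * E) := pow_le_pow_left₀ (Nat.cast_nonneg w) hwZ _
        _ = (Z : ℝ) ^ (δ1 * (2 * E)) := by
            rw [← Real.rpow_natCast, ← Real.rpow_mul hZ0.le]
            congr 1
            push_cast
            ring
        _ ≤ (Z : ℝ) ^ (1 : ℝ) := Real.rpow_le_rpow_of_exponent_le hZr hδ1E
        _ = Z := Real.rpow_one _
    exact_mod_cast h1
  obtain ⟨s, hsd⟩ : ∃ s : Fin d → ℕ, s = fun j => A * Z ^ e j + 1 := ⟨_, rfl⟩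
  rw [← hsd]
  have hsj : ∀ j, (w ^ 2) ^ E ≤ s j := by
    intro j
    rw [hsd]
    have h1 : Z ≤ Z ^ e j := by
      calc Z = Z ^ 1 := (pow_one Z).symm
        _ ≤ Z ^ e j := Nat.pow_le_pow_right hZ1 (he j)
    have h2 : Z ^ e j ≤ A * Z ^ e j := Nat.le_mul_of_pos_left _ hA
    show (w ^ 2) ^ E ≤ A * Z ^ e j + 1
    omega
  obtain ⟨N, hNd⟩ : ∃ N : ℕ, N = ∑ i, (β i).natAbs + ∑ t ∈ tb 0 s, ∑ i, (lf c t i).natAbs := ⟨_, rfl⟩
  obtain ⟨V, hVd⟩ : ∃ V : ℕ, V = w.factorial * N := ⟨_, rfl⟩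
  have hNV : N ≤ V := by
    rw [hVd]
    exact Nat.le_mul_of_pos_left _ (Nat.factorial_pos w)
  obtain ⟨β', hβ'd⟩ : ∃ β' : Fin k → ℤ, β' = fun i => β i + (V : ℤ) := ⟨_, rfl⟩
  have hnn : ∀ t ∈ tb 0 s, ∀ i, 0 ≤ β' i + lf c t i := by
    intro t ht i
    have h1 := Finset.single_le_sum (f := fun i => (β i).natAbs) (fun _ _ => Nat.zero_le _) (mem_univ i)
    have h2 := Finset.single_le_sum (f := fun i => (lf c t i).natAbs) (fun _ _ => Nat.zero_le _) (mem_univ i)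
    have h3 := Finset.single_le_sum (f := fun t => ∑ i, (lf c t i).natAbs) (fun _ _ => Nat.zero_le _) ht
    rw [hβ'd]
    show 0 ≤ β i + (V : ℤ) + lf c t i
    omega
  have hG : FGood E Cc cc (w ^ 2) P (tb 0 s) (hh c β') :=
    hFG P hP (w ^ 2) 0 s β' (Nat.one_le_pow _ _ hw1) hsj hnn
  have hmod : ∀ t : Fin d → ℤ, (∀ i, 0 ≤ β i + lf c t i) → ∀ y : ℕ, y ≤ w →
      SSf (pr y) (sys B P (hh c β t)) = SSf (pr y) (sys B P (hh c β' t)) := by
    intro t ht y hy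
    refine U10_mod _ B P _ _ fun l hl i => ?_
    have h1 : ((hh c β t i : ℕ) : ℤ) - (hh c β' t i : ℕ) = -(V : ℤ) := by
      show (((β i + lf c t i).toNat : ℕ) : ℤ) - (((β' i + lf c t i).toNat : ℕ) : ℤ) = -(V : ℤ)
      rw [hβ'd]
      have h2 := ht i
      rw [Int.toNat_of_nonneg h2, Int.toNat_of_nonneg (by simp only; omega)]
      ring
    rw [h1, dvd_neg]
    unfold pr at hl
    rw [mem_filter, mem_Icc] at hl
    have h3 : l ∣ V := by
      rw [hVd]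
      exact Dvd.dvd.mul_right (Nat.dvd_factorial hl.1.1 (hl.1.2.trans hy)) _
    exact_mod_cast h3
  have hPol : Pol A' P := hA'd ▸ u10_pol D a P hP hD A
  have hBL : Lin A' B := u10_lin (by omega) hB
  have hcard : (0 : ℝ) ≤ (tb 0 s).card := Nat.cast_nonneg _
  have hkey : ∑ t ∈ tb 0 s, (SSf (pr z) (sys B P (hh c β' t)) - SSf (pr Q) (sys B P (hh c β' t))) ^ 2 ≤
      (tb 0 s).card * (Q : ℝ) ^ (-c2) := by
    rcases le_total Q z with h | h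
    · have h1 := hms Q z hq1 h (by
        have h2 : C * Real.log Q ≤ max |C| (1 / δ) * Real.log Q :=
          mul_le_mul_of_nonneg_right ((le_abs_self C).trans (le_max_left _ _)) hLQ
        linarith) B hBL P hPol _ (tb 0 s) (hh c β') (u10_mono (Nat.pow_le_pow_left hwz 2) hG)
      refine h1.trans (mul_le_mul_of_nonneg_left ?_ hcard)
      exact Real.rpow_le_rpow_of_exponent_le hQr (by linarith)
    · have hQ1z : Q1 ≤ z := by
        have h2 : (Q1 : ℝ) ≤ z := by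
          have h3 : (Q1 : ℝ) ^ (1 / δ) ≤ Q := (Nat.le_ceil _).trans (by exact_mod_cast hq3)
          have h4 : ((Q1 : ℝ) ^ (1 / δ)) ^ δ ≤ (Q : ℝ) ^ δ :=
            Real.rpow_le_rpow (Real.rpow_nonneg (Nat.cast_nonneg Q1) _) h3 hδ.le
          rw [← Real.rpow_mul (Nat.cast_nonneg Q1), one_div, inv_mul_cancel₀ hδ.ne', Real.rpow_one] at h4
          exact h4.trans hQδ
        exact_mod_cast h2
      have h1 := hms z Q hQ1z h (by
        have h2 : 1 / δ * Real.log z ≤ max |C| (1 / δ) * Real.log z :=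
          mul_le_mul_of_nonneg_right (le_max_right _ _) hLz
        linarith) B hBL P hPol _ (tb 0 s) (hh c β') (u10_mono (Nat.pow_le_pow_left hwQ 2) hG)
      have h2 : ∑ t ∈ tb 0 s, (SSf (pr z) (sys B P (hh c β' t)) - SSf (pr Q) (sys B P (hh c β' t))) ^ 2 =
          ∑ t ∈ tb 0 s, (SSf (pr Q) (sys B P (hh c β' t)) - SSf (pr z) (sys B P (hh c β' t))) ^ 2 :=
        Finset.sum_congr rfl fun t _ => by ring
      rw [h2]
      refine h1.trans (mul_le_mul_of_nonneg_left ?_ hcard)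
      calc (z : ℝ) ^ (-c0) ≤ ((Q : ℝ) ^ δ) ^ (-c0) :=
            Real.rpow_le_rpow_of_nonpos (Real.rpow_pos_of_pos hQ0 _) hQδ (by linarith)
        _ = (Q : ℝ) ^ (δ * (-c0)) := (Real.rpow_mul hQ0.le _ _).symm
        _ ≤ (Q : ℝ) ^ (-c2) := Real.rpow_le_rpow_of_exponent_le hQr (by linarith)
  have hT : 0 < (Q : ℝ) ^ (-(c2 / 4)) := Real.rpow_pos_of_pos hQ0 _
  have hch := k1_cheb (tb 0 s)
    (fun t => |SSf (pr z) (sys B P (hh c β' t)) - SSf (pr Q) (sys B P (hh c β' t))|)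
    ((Q : ℝ) ^ (-(c2 / 4))) ((tb 0 s).card * (Q : ℝ) ^ (-c2)) hT
    (by
      refine le_trans (le_of_eq ?_) hkey
      exact Finset.sum_congr rfl fun t _ => sq_abs _) (fun t => abs_nonneg _)
  have hsub : ((tb 0 s).filter fun t => (∀ i, 0 ≤ β i + lf c t i) ∧
      (Q : ℝ) ^ (-(c2 / 4)) < |SSf (pr z) (sys B P (hh c β t)) - SSf (pr Q) (sys B P (hh c β t))|) ⊆
      (tb 0 s).filter fun t => (Q : ℝ) ^ (-(c2 / 4)) <
        |SSf (pr z) (sys B P (hh c β' t)) - SSf (pr Q) (sys B P (hh c β' t))| := by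
    intro t ht
    rw [mem_filter] at ht ⊢
    refine ⟨ht.1, ?_⟩
    rw [← hmod t ht.2.1 z hwz, ← hmod t ht.2.1 Q hwQ]
    exact ht.2.2
  have hcd : ((tb 0 s).card : ℝ) ≤ (2 * A) ^ d * (Z : ℝ) ^ (∑ j, e j) := by
    rw [hsd]
    exact u10_card e A Z hA hZ1
  have hl2' : (2 * A : ℝ) ^ d ≤ (Q : ℝ) ^ (c2 / 4) := by
    have := hl2 Q hq2
    rwa [Real.rpow_zero, mul_one] at this
  have hZs : (0 : ℝ) ≤ (Z : ℝ) ^ (∑ j, e j) := by positivity
  calc ((((tb 0 s).filter fun t => (∀ i, 0 ≤ β i + lf c t i) ∧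
      (Q : ℝ) ^ (-(c2 / 4)) < |SSf (pr z) (sys B P (hh c β t)) - SSf (pr Q) (sys B P (hh c β t))|).card : ℕ) : ℝ)
      ≤ ((((tb 0 s).filter fun t => (Q : ℝ) ^ (-(c2 / 4)) <
        |SSf (pr z) (sys B P (hh c β' t)) - SSf (pr Q) (sys B P (hh c β' t))|).card : ℕ) : ℝ) := by
        exact_mod_cast card_le_card hsub
    _ ≤ (tb 0 s).card * (Q : ℝ) ^ (-c2) / ((Q : ℝ) ^ (-(c2 / 4))) ^ 2 := hch
    _ = (tb 0 s).card * (Q : ℝ) ^ (-(c2 / 2)) := by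
        rw [mul_div_assoc]
        congr 1
        rw [← Real.rpow_natCast, ← Real.rpow_mul hQ0.le, ← Real.rpow_sub hQ0]
        congr 1
        push_cast
        ring
    _ ≤ ((Q : ℝ) ^ (c2 / 4) * (Z : ℝ) ^ (∑ j, e j)) * (Q : ℝ) ^ (-(c2 / 2)) := by
        refine mul_le_mul_of_nonneg_right ?_ (Real.rpow_nonneg hQ0.le _)
        exact hcd.trans (mul_le_mul_of_nonneg_right hl2' hZs)
    _ = (Z : ℝ) ^ (∑ j, e j) * ((Q : ℝ) ^ (c2 / 4) * (Q : ℝ) ^ (-(c2 / 2))) := by ring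
    _ = (Z : ℝ) ^ (∑ j, e j) * (Q : ℝ) ^ (-(c2 / 4)) := by
        rw [← Real.rpow_add hQ0]
        congr 2
        ring

end Pool.Agent.H9P
end

-- from Lib.H9P.U8
section

/-!
# ASYP, chunk U8 (M): arbitrarily large levels without exceptional zero
-/

open Finset Polynomial

namespace Pool.Agent.H9P

open Pool.Agent.Lib.H68T Pool.Agent.Lib.H18Q Pool.Agent.Lib.H59P Pool.Agent.Lib.H24P
open Pool.Agent.HUP

/-- A good level remains good for a smaller `Q` and a smaller constant: if `log N ≤ C log Q`, `Q ≤ N`, `0 < c`, `1 ≤ C`, then `Good c N → Good (c/C) Q` (unfold `Good`,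
`1 - (c/C)/log Q ≥ 1 - c/log N`). -/
theorem U8_mono (c C : ℝ) (hc : 0 < c) (hC : 1 ≤ C) (N Q : ℕ) (hQ : 2 ≤ Q) (hQN : Q ≤ N)
    (hl : Real.log N ≤ C * Real.log Q) (hN : Good c N) : Good (c / C) Q := by
  intro r _ ψ hr hp h1 h2 σ hσ hσ1
  refine hN r ψ (hr.trans hQN) hp h1 h2 σ (le_trans ?_ hσ) hσ1
  have hQ2 : (2 : ℝ) ≤ Q := by exact_mod_cast hQ
  have hQN' : (Q : ℝ) ≤ N := by exact_mod_cast hQN
  have hlQ : 0 < Real.log Q := Real.log_pos (by linarith)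
  have hlN : 0 < Real.log N := Real.log_pos (by linarith)
  have hC0 : 0 < C := by linarith
  have h3 : c / C / Real.log Q ≤ c / Real.log N := by
    rw [div_div]
    exact div_le_div_of_nonneg_left hc.le hlN hl
  linarith

/-- The integral part of the root of order `100`. -/
theorem u8_root (N : ℕ) : ∃ Q : ℕ, Q ^ 100 ≤ N ∧ N < (Q + 1) ^ 100 := by
  refine ⟨Nat.findGreatest (fun q => q ^ 100 ≤ N) N, ?_, ?_⟩
  · exact Nat.findGreatest_spec (P := fun q => q ^ 100 ≤ N) (Nat.zero_le N) (by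
      show 0 ^ 100 ≤ N
      rw [Nat.zero_pow (by norm_num)]
      exact Nat.zero_le N)
  · by_contra h
    have h1 := not_lt.1 h
    have h2 : Nat.findGreatest (fun q => q ^ 100 ≤ N) N + 1 ≤ N :=
      (Nat.le_self_pow (by norm_num) _).trans h1
    have h3 := Nat.le_findGreatest (P := fun q => q ^ 100 ≤ N) h2 h1
    omega

theorem u8_pow (Q N r : ℕ) (hQ : 2 ≤ Q) (hN : 0 < N) (h : N < (Q + 1) ^ r) :
    Real.log N ≤ 2 * r * Real.log Q := by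
  have h2 : Q + 1 ≤ Q ^ 2 := by nlinarith
  have h3 : (Q + 1) ^ r ≤ (Q ^ 2) ^ r := Nat.pow_le_pow_left h2 r
  have h4 : (N : ℝ) ≤ ((Q : ℝ) ^ 2) ^ r := by exact_mod_cast h.le.trans h3
  have hN0 : (0 : ℝ) < N := by exact_mod_cast hN
  have h5 := Real.log_le_log hN0 h4
  rw [Real.log_pow, Real.log_pow] at h5
  push_cast at h5
  linarith

/-- The bound for the errors may be enlarged. -/
theorem u8_mdl {Q X : ℕ} {η E E' : ℝ} {px : Ch} {th : ℤ → ℝ} (h : Mdl Q X η E px th) (hE : E ≤ E') :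
    Mdl Q X η E' px th := by
  refine ⟨h.eta_pos, h.eta_le, h.mem, h.real, h.cond, h.triv, h.nonneg, h.le, h.slow, ?_⟩
  obtain ⟨e, eb, b1, b2, b3⟩ := h.lev
  exact ⟨e, eb, b1, b2.trans (mul_le_mul_of_nonneg_left hE h.eta_pos.le), b3⟩

/-- **U8.** Proof. `c` from `good_levels` (`H68T/PAGE2.lean`). For a good `N` let `Q` be the largest integer with `Q^100 ≤ N`; `N < (Q+1)^100 ≤ Q^200`, so `log N ≤ 200 log Q ≤ 2 log Q^100`:
`Good (c/2) (Q^100)` and `Good (c/200) Q` (`U8_mono`). `mdl_good` (`H59P/A3.lean`) with the constants `c/2` and `c/200` gives `K1, C1, K2, C2`. Choose a natural number `kp` with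
`kp ≥ max` of `K1, K2, |K'|, 2` plus `1` and `C_i exp(-(kp/C_i)) ≤ E/2`. `M = Q^(100 kp)`, `Cr = 100 kp A`. For `M ≤ Y ≤ M^A`: `kp log(Q^100) ≤ log Y ≤ Cr log Q`; the regimes
`RegP K Q Y`, `RegP K (Q^100) Y` for `K ≤ kp` and `Q` large (`K ≤ log log Y`, `K log log Y ≤ log Q`; compare the proof of `N1_level` in `H9A/N1.lean`, `A3S` in `H9U/A3.lean`), and
`C exp(-(kp/C)) + Q^(-1/4) ≤ E` for `Q` large; the bound in `Mdl.lev` may be enlarged (`LevE` is monotone in `E`). `Q`, `M` are as large as we like. -/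
theorem U8_level (A : ℕ) (hA : 1 ≤ A) (E K' : ℝ) (hE : 0 < E) : ∃ Cr : ℝ, 1 ≤ Cr ∧
    ∀ M0 : ℕ, ∃ M Q : ℕ, M0 ≤ M ∧ M0 ≤ Q ∧ ∀ Y : ℕ, M ≤ Y → Y ≤ M ^ A →
      K' * Real.log Q ≤ Real.log Y ∧ Real.log Y ≤ Cr * Real.log Q ∧
      Mdl Q Y 1 E p0 (fun _ => 0) ∧ Mdl (Q ^ 100) Y 1 E p0 (fun _ => 0) := by
  obtain ⟨c, hc, hgl⟩ := good_levels
  obtain ⟨K, C, hK, hC, hgood⟩ := mdl_good (c / 200) (by positivity)
  obtain ⟨E1, hE1⟩ : ∃ E1 : ℝ, E1 = E / 2 := ⟨_, rfl⟩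
  have hE1p : 0 < E1 := by rw [hE1]; positivity
  obtain ⟨Kr, hKr⟩ : ∃ Kr : ℝ, Kr = |K'| + K + 1 := ⟨_, rfl⟩
  have haK := abs_nonneg K'
  have hleK := le_abs_self K'
  have hKr1 : 1 ≤ Kr := by rw [hKr]; linarith
  have hKrK : K ≤ Kr := by rw [hKr]; linarith
  have hKrK' : K' ≤ Kr := by rw [hKr]; linarith
  obtain ⟨kp, hkpr, hkpe⟩ : ∃ kp : ℕ, Kr ≤ (kp : ℝ) ∧ C * Real.exp (-((kp : ℝ) / C)) ≤ E1 := by
    refine ⟨⌈max Kr (C * (C / E1))⌉₊, (le_max_left _ _).trans (Nat.le_ceil _), ?_⟩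
    have h0 : max Kr (C * (C / E1)) ≤ (⌈max Kr (C * (C / E1))⌉₊ : ℝ) := Nat.le_ceil _
    obtain ⟨kp, hkp⟩ : ∃ kp : ℝ, kp = (⌈max Kr (C * (C / E1))⌉₊ : ℝ) := ⟨_, rfl⟩
    rw [← hkp] at h0 ⊢
    have hCp : 0 < C := by linarith
    have h1 : C / E1 ≤ kp / C := by
      rw [le_div_iff₀ hCp]
      calc C / E1 * C = C * (C / E1) := by ring
        _ ≤ kp := (le_max_right _ _).trans h0
    have h2 : C / E1 ≤ Real.exp (kp / C) := by
      have := Real.add_one_le_exp (kp / C)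
      linarith
    rw [Real.exp_neg, ← div_eq_mul_inv, div_le_iff₀ (Real.exp_pos _)]
    rw [div_le_iff₀ hE1p] at h2
    linarith
  have hkp1 : (1 : ℝ) ≤ kp := hKr1.trans hkpr
  have hkp1' : 1 ≤ kp := by exact_mod_cast hkp1
  have hA' : (1 : ℝ) ≤ A := by exact_mod_cast hA
  obtain ⟨Cr, hCr⟩ : ∃ Cr : ℝ, Cr = A * (100 * kp) := ⟨_, rfl⟩
  have hCr1 : 1 ≤ Cr := by
    rw [hCr]
    nlinarith
  have hlogCr : 0 ≤ Real.log Cr := Real.log_nonneg hCr1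
  have hlogE : 0 ≤ Real.log (1 / E1 + 1) := Real.log_nonneg (by
    have : 0 < 1 / E1 := by positivity
    linarith)
  refine ⟨Cr, hCr1, fun M0 => ?_⟩
  obtain ⟨L0, hL0⟩ := Filter.eventually_atTop.mp ((ev_log (2 * Kr) 1 one_pos).and
    (Filter.eventually_ge_atTop (Real.exp Kr + 2 * Kr * Real.log Cr + 4 * Real.log (1 / E1 + 1))))
  obtain ⟨R0, hR0⟩ : ∃ R0 : ℕ, R0 = max 2 (max M0 ⌈Real.exp (max L0 1)⌉₊) := ⟨_, rfl⟩
  obtain ⟨N, hN, hNg⟩ := hgl (R0 ^ 100)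
  obtain ⟨Q, hQN, hNQ⟩ := u8_root N
  have hQR : R0 ≤ Q := by
    have h1 : R0 ^ 100 < (Q + 1) ^ 100 := lt_of_le_of_lt hN hNQ
    have h2 := lt_of_pow_lt_pow_left₀ 100 (Nat.zero_le _) h1
    omega
  have hQ2 : 2 ≤ Q := by
    have : 2 ≤ R0 := by rw [hR0]; exact le_max_left _ _
    omega
  have hQM0 : M0 ≤ Q := by
    have : M0 ≤ R0 := by rw [hR0]; exact (le_max_left _ _).trans (le_max_right _ _)
    omega
  have hQe' : ⌈Real.exp (max L0 1)⌉₊ ≤ Q := by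
    have : ⌈Real.exp (max L0 1)⌉₊ ≤ R0 := by rw [hR0]; exact (le_max_right _ _).trans (le_max_right _ _)
    omega
  have hQe : Real.exp (max L0 1) ≤ (Q : ℝ) := (Nat.le_ceil _).trans (by exact_mod_cast hQe')
  have hQ0 : (0 : ℝ) < Q := lt_of_lt_of_le (Real.exp_pos _) hQe
  obtain ⟨q, hq⟩ : ∃ q, q = Real.log Q := ⟨_, rfl⟩
  have hqge : max L0 1 ≤ q := by
    rw [hq, Real.le_log_iff_exp_le hQ0]; exact hQe
  have hq1 : 1 ≤ q := (le_max_right _ _).trans hqge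
  obtain ⟨e1, e2⟩ := hL0 q ((le_max_left _ _).trans hqge)
  rw [Real.rpow_one] at e1
  have p1 : 0 < Real.exp Kr := Real.exp_pos _
  have p2 : 0 ≤ 2 * Kr * Real.log Cr := by positivity
  have hqa : Real.exp Kr ≤ q := by linarith
  have hqc : 2 * Kr * Real.log Cr ≤ q := by linarith
  have hqd : 4 * Real.log (1 / E1 + 1) ≤ q := by linarith
  have hQ1 : 1 ≤ Q := by omega
  have hMQ : Q ≤ Q ^ (100 * kp) := Nat.le_self_pow (by omega) Q
  -- the levels are good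
  have hlN : Real.log N ≤ 200 * q := by
    have h1 := u8_pow Q N 100 hQ2 (lt_of_lt_of_le (Nat.pow_pos hQ1) hQN) hNQ
    rw [← hq] at h1
    push_cast at h1
    linarith
  have hl100 : Real.log ((Q ^ 100 : ℕ) : ℝ) = 100 * q := by
    rw [Nat.cast_pow, Real.log_pow, ← hq]
    norm_num
  have hg1 : Good (c / 200) Q := by
    refine U8_mono c 200 hc (by norm_num) N Q hQ2 ((Nat.le_self_pow (by norm_num) Q).trans hQN) ?_ hNg
    rw [← hq]
    exact hlN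
  have hg2 : Good (c / 200) (Q ^ 100) := by
    refine U8_mono c 200 hc (by norm_num) N (Q ^ 100) (hQ2.trans (Nat.le_self_pow (by norm_num) Q)) hQN ?_ hNg
    rw [hl100]
    linarith
  refine ⟨Q ^ (100 * kp), Q, hQM0.trans hMQ, hQM0, fun Y hY1 hY2 => ?_⟩
  have hM0 : (0 : ℝ) < (Q : ℝ) ^ (100 * kp) := pow_pos hQ0 _
  have hY1' : (Q : ℝ) ^ (100 * kp) ≤ Y := by exact_mod_cast hY1
  have hY2' : (Y : ℝ) ≤ ((Q : ℝ) ^ (100 * kp)) ^ A := by exact_mod_cast hY2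
  have hY0 : (0 : ℝ) < Y := lt_of_lt_of_le hM0 hY1'
  have g1 : 100 * (kp * q) ≤ Real.log Y := by
    have h3 := Real.log_le_log hM0 hY1'
    rw [Real.log_pow, ← hq] at h3
    push_cast at h3
    linarith
  have g2 : Real.log Y ≤ Cr * q := by
    have h3 := Real.log_le_log hY0 hY2'
    rw [Real.log_pow, Real.log_pow, ← hq] at h3
    push_cast at h3
    rw [hCr]
    linarith
  have hkq : q ≤ kp * q := by
    have : 1 * q ≤ kp * q := mul_le_mul_of_nonneg_right hkp1 (by linarith)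
    linarith
  have hKq : Kr * q ≤ kp * q := mul_le_mul_of_nonneg_right hkpr (by linarith)
  have hKq' : K' * q ≤ kp * q := mul_le_mul_of_nonneg_right (hKrK'.trans hkpr) (by linarith)
  have g3 : q ≤ Real.log Y := by linarith
  have hlY : 0 < Real.log Y := by linarith
  have k0 : Kr ≤ Real.log (Real.log Y) := by
    rw [Real.le_log_iff_exp_le hlY]
    linarith
  have k3 : Kr * Real.log (Real.log Y) ≤ q := by
    have k1 : Real.log (Real.log Y) ≤ Real.log Cr + Real.log q := by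
      have := Real.log_le_log hlY g2
      rwa [Real.log_mul (by linarith) (by linarith)] at this
    have k2 : Kr * Real.log (Real.log Y) ≤ Kr * (Real.log Cr + Real.log q) :=
      mul_le_mul_of_nonneg_left k1 (by linarith)
    have k3 : Kr * (Real.log Cr + Real.log q) = (2 * Kr * Real.log Cr) / 2 + (2 * Kr * Real.log q) / 2 := by
      ring
    linarith
  have hreg1 : RegP Kr Q Y := by
    refine ⟨k0, ?_, ?_⟩
    · rw [← hq]
      exact k3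
    · rw [← hq]
      linarith
  have hreg2 : RegP Kr (Q ^ 100) Y := by
    refine ⟨k0, ?_, ?_⟩
    · rw [hl100]
      linarith
    · rw [hl100]
      linarith
  have herr1 : (Q : ℝ) ^ (-(1 / 4) : ℝ) ≤ E1 := by
    rw [Real.rpow_def_of_pos hQ0, ← hq]
    have g3 : Real.exp (q * -(1 / 4)) ≤ Real.exp (-Real.log (1 / E1 + 1)) :=
      Real.exp_le_exp.2 (by linarith)
    refine g3.trans ?_
    have g4 : 0 < 1 / E1 + 1 := by positivity
    rw [Real.exp_neg, Real.exp_log g4, inv_eq_one_div, div_le_iff₀ g4]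
    have g5 : E1 * (1 / E1 + 1) = 1 + E1 := by field_simp
    linarith
  have herr2 : ((Q ^ 100 : ℕ) : ℝ) ^ (-(1 / 4) : ℝ) ≤ E1 := by
    refine le_trans ?_ herr1
    refine Real.rpow_le_rpow_of_nonpos hQ0 ?_ (by norm_num)
    exact_mod_cast Nat.le_self_pow (by norm_num) Q
  have hm1 := hgood kp (hKrK.trans hkpr) Q Y (hreg1.mono (by linarith) hKrK) (by rw [← hq]; linarith) hg1
  have hm2 := hgood kp (hKrK.trans hkpr) (Q ^ 100) Y (hreg2.mono (by linarith) hKrK) (by rw [hl100]; linarith) hg2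
  refine ⟨by rw [← hq]; linarith, by rw [← hq]; exact g2, u8_mdl hm1 ?_, u8_mdl hm2 ?_⟩
  · rw [hE1] at hkpe herr1
    linarith
  · rw [hE1] at hkpe herr2
    linarith

end Pool.Agent.H9P
end
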