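import Pool.Agent.Lib.H59M.M1.M090

/-! Merged copies (to shorten the build) of Lib.HUP.Z1, Lib.HUP.Z2. -/

-- from Lib.HUP.Z1
section

/-!
# Projects HUP and HPC, module Z (the final theorems), Z1: G linear
-/

open Finset Polynomial Filter Topology

namespace Pool.Agent.HUP

open Pool.Agent.Lib.H24P
open Pool.Agent.Lib.H59 (argSet argCount Admissible primeCount argSet_eq argCount_tendsto)

/-- **Z1** (port of `F_fix`, H24P/FC.lean). Proof. As there with `Z0_box` (constant `max A …`: `BoxT` is monotone in `A`); for `t` with nonnegative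
constant terms `famT = famP P (hh …)` (`famT_eval`), `fb_a`, `fb_cnt_a`. -/
theorem T_fix (hC : CoreAll) {g d : ℕ} (G : ℤ[X]) (hG : G.natDegree = 1) (hl : 0 < G.leadingCoeff)
    (P : Fin g → ℤ[X]) (c : Fin g → Fin d → ℤ) (e : Fin d → ℕ)
    (hD : Dat c e (fun i => (P i).natDegree) (fun i => (P i).leadingCoeff)) (A : ℕ) (ε : ℝ) (hε : 0 < ε) :
    open Classical in ∃ η : ℝ, 0 < η ∧ ∃ N₀ : ℕ, ∀ N : ℕ, N₀ ≤ N → ∀ b : Fin g → ℤ,
      (∀ i, |b i| ≤ A * (argCount G N : ℤ) ^ (P i).natDegree) →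
      (((BoxT A (argCount G N) e).filter fun t => (∀ i, 0 ≤ b i + lf c t i) ∧ Admissible (famT P c b t) G N ∧
        ((primeCount (famT P c b t) G N : ℕ) : ℝ) < (argCount G N : ℝ) ^ (1 - ε)).card : ℝ) ≤
          (argCount G N : ℝ) ^ ((∑ j, (e j : ℝ)) - η) := by
  classical
  set A' : ℕ := A + (G.leadingCoeff.natAbs + 4) with hA'
  have hAA : A ≤ A' := Nat.le_add_right _ _
  obtain ⟨η, hη, Z0, hZ0⟩ := Z0_box hC c e P hD A' ε hε
  have h1 := FA_fix G hG hl A' (by omega) ε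
  have h2 := argSet_eq (G := G) (by omega) hl
  have h3 := argCount_tendsto (G := G) (by omega) hl
  obtain ⟨N₀, hN₀⟩ := eventually_atTop.1 (h1.and (h2.and (h3.eventually_ge_atTop Z0)))
  refine ⟨η, hη, N₀, fun N hN b hb => ?_⟩
  obtain ⟨hok, hset, hZ⟩ := hN₀ N hN
  have hb' : ∀ i, |b i| ≤ A' * (argCount G N : ℤ) ^ (P i).natDegree := fun i =>
    (hb i).trans (mul_le_mul_of_nonneg_right (by exact_mod_cast hAA) (by positivity))
  refine (Nat.cast_le.2 (card_le_card ?_)).trans (hZ0 _ hZ _ hok b hb')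
  intro t ht
  obtain ⟨ht1, ht2, ht3, ht4⟩ := mem_filter.1 ht
  rw [famT_eval P c b t ht2] at ht3 ht4
  refine mem_filter.2 ⟨?_, ht2, fb_a ht3, ?_⟩
  · unfold BoxT at ht1 ⊢
    rw [Fintype.mem_piFinset] at ht1 ⊢
    intro j
    have h4 := mem_Icc.1 (ht1 j)
    have h5 : ((A * argCount G N ^ e j : ℕ) : ℤ) ≤ ((A' * argCount G N ^ e j : ℕ) : ℤ) :=
      Int.ofNat_le.2 (Nat.mul_le_mul_right _ hAA)
    exact mem_Icc.2 ⟨by linarith [h4.1], by linarith [h4.2]⟩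
  · rw [fb_cnt_a hset]
    exact ht4

end Pool.Agent.HUP
end

-- from Lib.HUP.Z2
section

/-!
# Projects HUP and HPC, module Z (the final theorems), Z2: any G, the pairs (N, t)
-/

open Finset Polynomial Filter Topology

namespace Pool.Agent.HUP

open Pool.Agent.Lib.H24P
open Pool.Agent.Lib.H59 (argSet argCount Admissible primeCount argSet_eq argCount_tendsto)

/-- The data of the system `(-G + N, P_i + b_i + ψ_i(t))` with the parameters `(N, t)`. -/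
theorem Z2_dat {g d : ℕ} (G : ℤ[X]) (hG : 1 ≤ G.natDegree) (hl : 0 < G.leadingCoeff) (P : Fin g → ℤ[X])
    (c : Fin g → Fin d → ℤ) (e : Fin d → ℕ)
    (hD : Dat c e (fun i => (P i).natDegree) (fun i => (P i).leadingCoeff)) :
    Dat (Fin.cons (Fin.cons 1 0) (fun i => Fin.cons 0 (c i)) : Fin (g + 1) → Fin (d + 1) → ℤ)
      (Fin.cons G.natDegree e : Fin (d + 1) → ℕ)
      (fun i => ((Fin.cons (-G) P : Fin (g + 1) → ℤ[X]) i).natDegree)
      (fun i => ((Fin.cons (-G) P : Fin (g + 1) → ℤ[X]) i).leadingCoeff) := by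
  refine ⟨?_, ?_, ?_, ?_, ?_, ?_⟩
  · intro i
    refine Fin.cases ?_ (fun i => ?_) i
    · simp only [Fin.cons_zero]
      rw [natDegree_neg]
      exact hG
    · simp only [Fin.cons_succ]
      exact hD.deg i
  · intro i
    refine Fin.cases ?_ (fun i => ?_) i
    · simp only [Fin.cons_zero]
      rw [leadingCoeff_neg]
      omega
    · simp only [Fin.cons_succ]
      exact hD.lc i
  · intro i
    refine Fin.cases ?_ (fun i => ?_) i
    · refine ⟨0, ?_⟩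
      simp only [Fin.cons_zero]
      exact one_ne_zero
    · obtain ⟨j, hj⟩ := hD.ne i
      refine ⟨j.succ, ?_⟩
      simp only [Fin.cons_succ]
      exact hj
  · intro i
    refine Fin.cases ?_ (fun i => ?_) i
    · intro i'
      refine Fin.cases ?_ (fun i' => ?_) i'
      · intro h
        exact absurd rfl h
      · intro _ _ x x' h1 h2
        have h3 := h2 0
        simp only [Fin.cons_zero, Fin.cons_succ, mul_one, mul_zero] at h3
        subst h3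
        refine ⟨rfl, ?_⟩
        simp only [Fin.cons_succ, zero_mul] at h1
        exact (mul_eq_zero.1 h1.symm).resolve_right (hD.lc i')
    · intro i'
      refine Fin.cases ?_ (fun i' => ?_) i'
      · intro _ _ x x' h1 h2
        have h3 := h2 0
        simp only [Fin.cons_zero, Fin.cons_succ, mul_one, mul_zero] at h3
        subst h3
        refine ⟨?_, rfl⟩
        simp only [Fin.cons_succ, zero_mul] at h1
        exact (mul_eq_zero.1 h1).resolve_right (hD.lc i)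
      · intro hne h0 x x' h1 h2
        have hne' : i ≠ i' := fun h => hne (by rw [h])
        simp only [Fin.cons_succ] at h0 h1
        refine hD.ind i i' hne' h0 x x' h1 fun j => ?_
        have h3 := h2 j.succ
        simp only [Fin.cons_succ] at h3
        exact h3
  · intro j
    refine Fin.cases ?_ (fun j => ?_) j
    · rw [Fin.cons_zero]
      exact hG
    · rw [Fin.cons_succ]
      exact hD.par j
  · intro i
    refine Fin.cases ?_ (fun i => ?_) i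
    · intro j
      refine Fin.cases ?_ (fun j => ?_) j
      · intro _
        simp only [Fin.cons_zero]
        rw [natDegree_neg]
      · intro h
        simp only [Fin.cons_zero, Fin.cons_succ, Pi.zero_apply] at h
        exact absurd rfl h
    · intro j
      refine Fin.cases ?_ (fun j => ?_) j
      · intro h
        simp only [Fin.cons_zero, Fin.cons_succ] at h
        exact absurd rfl h
      · intro h
        simp only [Fin.cons_succ] at h ⊢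
        exact hD.blk i j h

/-- z2 aux: the first form. -/
theorem z2_lf0 {g d : ℕ} (c : Fin g → Fin d → ℤ) (N : ℤ) (t : Fin d → ℤ) :
    lf (Fin.cons (Fin.cons 1 0) (fun i => Fin.cons 0 (c i)) : Fin (g + 1) → Fin (d + 1) → ℤ)
      (Fin.cons N t : Fin (d + 1) → ℤ) 0 = N := by
  unfold lf
  rw [Fin.sum_univ_succ]
  simp only [Fin.cons_zero, Fin.cons_succ, Pi.zero_apply, zero_mul, one_mul, Finset.sum_const_zero,
    add_zero]

/-- z2 aux: the other forms. -/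
theorem z2_lfs {g d : ℕ} (c : Fin g → Fin d → ℤ) (N : ℤ) (t : Fin d → ℤ) (i : Fin g) :
    lf (Fin.cons (Fin.cons 1 0) (fun i => Fin.cons 0 (c i)) : Fin (g + 1) → Fin (d + 1) → ℤ)
      (Fin.cons N t : Fin (d + 1) → ℤ) i.succ = lf c t i := by
  unfold lf
  rw [Fin.sum_univ_succ]
  simp only [Fin.cons_zero, Fin.cons_succ, zero_mul, zero_add]

/-- The constant terms. -/
theorem Z2_hh {g d : ℕ} (c : Fin g → Fin d → ℤ) (b : Fin g → ℤ) (N : ℕ) (t : Fin d → ℤ) :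
    hh (Fin.cons (Fin.cons 1 0) (fun i => Fin.cons 0 (c i)) : Fin (g + 1) → Fin (d + 1) → ℤ)
      (Fin.cons 0 b : Fin (g + 1) → ℤ) (Fin.cons (N : ℤ) t : Fin (d + 1) → ℤ) =
      (Fin.cons N (hh c b t) : Fin (g + 1) → ℕ) := by
  funext i
  unfold hh
  refine Fin.cases ?_ (fun i => ?_) i
  · rw [z2_lf0, Fin.cons_zero, Fin.cons_zero, zero_add, Int.toNat_natCast]
  · rw [z2_lfs, Fin.cons_succ, Fin.cons_succ]

/-- z2 aux: the box is monotone in `A`. -/
theorem z2_box {d : ℕ} {A A' X : ℕ} {e : Fin d → ℕ} (hA : A ≤ A') {t : Fin d → ℤ} (ht : t ∈ BoxT A X e) :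
    t ∈ BoxT A' X e := by
  unfold BoxT at ht ⊢
  rw [Fintype.mem_piFinset] at ht ⊢
  intro j
  have h1 := mem_Icc.1 (ht j)
  have h2 : ((A * X ^ e j : ℕ) : ℤ) ≤ ((A' * X ^ e j : ℕ) : ℤ) :=
    Int.ofNat_le.2 (Nat.mul_le_mul_right _ hA)
  exact mem_Icc.2 ⟨(neg_le_neg h2).trans h1.1, h1.2.trans h2⟩

/-- z2 aux: the pairs in the box. -/
theorem z2_boxcons {d : ℕ} {A X N m : ℕ} {e : Fin d → ℕ} {t : Fin d → ℤ} (hN : N ≤ A * X ^ m)
    (ht : t ∈ BoxT A X e) :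
    (Fin.cons (N : ℤ) t : Fin (d + 1) → ℤ) ∈ BoxT A X (Fin.cons m e : Fin (d + 1) → ℕ) := by
  unfold BoxT at ht ⊢
  rw [Fintype.mem_piFinset] at ht ⊢
  intro j
  refine Fin.cases ?_ (fun j => ?_) j
  · rw [Fin.cons_zero, Fin.cons_zero]
    have h1 : (N : ℤ) ≤ ((A * X ^ m : ℕ) : ℤ) := Int.ofNat_le.2 hN
    have h2 : (0 : ℤ) ≤ N := Int.natCast_nonneg N
    exact mem_Icc.2 ⟨by linarith, h1⟩
  · rw [Fin.cons_succ, Fin.cons_succ]
    exact ht j

/-- z2 aux: common part of Z2a and Z2b. -/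
theorem z2_gen (hC : CoreAll) {g d : ℕ} (G : ℤ[X]) (hG : 1 ≤ G.natDegree) (hl : 0 < G.leadingCoeff)
    (P : Fin g → ℤ[X]) (c : Fin g → Fin d → ℤ) (e : Fin d → ℕ)
    (hD : Dat c e (fun i => (P i).natDegree) (fun i => (P i).leadingCoeff))
    (F₀ : ℤ[X]) (hF : F₀.natDegree = 1) (hF0 : 0 < F₀.leadingCoeff) (A : ℕ) (ε : ℝ) (hε : 0 < ε)
    (Ad : (Fin g → ℤ) → ℕ → (Fin d → ℤ) → Prop) (cnt : (Fin g → ℤ) → ℕ → (Fin d → ℤ) → ℕ)
    (hAd : ∀ b N t, (∀ i, 0 ≤ b i + lf c t i) → Ad b N t →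
      NoFix (sys F₀ (Fin.cons (-G) P : Fin (g + 1) → ℤ[X]) (Fin.cons N (hh c b t) : Fin (g + 1) → ℕ)))
    (hcnt : ∀ b N t Y, N ≤ Y → argSet G Y = (Icc 1 (argCount G Y) : Finset ℕ) →
      (∀ i, 0 ≤ b i + lf c t i) →
      pcount (argCount G Y) F₀ (Fin.cons (-G) P : Fin (g + 1) → ℤ[X])
        (Fin.cons N (hh c b t) : Fin (g + 1) → ℕ) ≤ cnt b N t) :
    open Classical in ∃ η : ℝ, 0 < η ∧ ∃ Y₀ : ℕ, ∀ Y : ℕ, Y₀ ≤ Y → ∀ b : Fin g → ℤ,
      (∀ i, |b i| ≤ A * (argCount G Y : ℤ) ^ (P i).natDegree) →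
      (((Icc 1 Y ×ˢ BoxT A (argCount G Y) e).filter fun x : ℕ × (Fin d → ℤ) => (∀ i, 0 ≤ b i + lf c x.2 i) ∧
        Ad b x.1 x.2 ∧ ((cnt b x.1 x.2 : ℕ) : ℝ) < (argCount G Y : ℝ) ^ (1 - ε)).card : ℝ) ≤
          Y * (argCount G Y : ℝ) ^ ((∑ j, (e j : ℝ)) - η) := by
  classical
  set A' : ℕ := A + (2 * G.leadingCoeff.natAbs +
    (F₀.leadingCoeff.natAbs + (F₀.coeff 0).natAbs + 4)) with hA'
  set η : ℝ := min ε (1 / 2) with hη
  have hη0 : 0 < η := lt_min hε (by norm_num)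
  have hη1 : η < 1 := lt_of_le_of_lt (min_le_right _ _) (by norm_num)
  obtain ⟨δ, hδ, Z0, hZ0⟩ := Z0_box hC _ _ _ (Z2_dat G hG hl P c e hD) A' η hη0
  have h3 := argCount_tendsto (G := G) hG hl
  have h1 := h3.eventually (FA_pos F₀ hF hF0 A' (by omega) η hη1)
  have h2 := argSet_eq (G := G) hG hl
  have h4 : Tendsto (fun Z : ℕ => (Z : ℝ) ^ (δ / 2)) atTop atTop :=
    (tendsto_rpow_atTop (by linarith)).comp tendsto_natCast_atTop_atTop
  have h5 := h3.eventually (h4.eventually_ge_atTop 2)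
  obtain ⟨Y₀, hY₀⟩ := eventually_atTop.1 (h1.and (h2.and ((h3.eventually_ge_atTop (max Z0 1)).and
    ((fc_Y G hG hl).and h5))))
  refine ⟨δ / 2, by linarith, Y₀, fun Y hY b hb => ?_⟩
  obtain ⟨hok, hset, hZ, ⟨hY1, hY2⟩, hY3⟩ := hY₀ Y hY
  set X : ℕ := argCount G Y with hX
  have hX1 : 1 ≤ X := (le_max_right _ _).trans hZ
  have hX1r : (1 : ℝ) ≤ X := by exact_mod_cast hX1
  have hX0 : (0 : ℝ) < X := by linarith
  have hβ : ∀ i : Fin (g + 1), |(Fin.cons 0 b : Fin (g + 1) → ℤ) i| ≤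
      (A' : ℤ) * (X : ℤ) ^ ((Fin.cons (-G) P : Fin (g + 1) → ℤ[X]) i).natDegree := by
    intro i
    refine Fin.cases ?_ (fun i => ?_) i
    · rw [Fin.cons_zero, abs_zero]
      positivity
    · rw [Fin.cons_succ, Fin.cons_succ]
      refine (hb i).trans ?_
      refine mul_le_mul_of_nonneg_right ?_ (by positivity)
      exact Int.ofNat_le.2 (by omega)
  have h6 := hZ0 X ((le_max_left _ _).trans hZ) F₀ hok (Fin.cons 0 b) hβ
  have hYA : Y ≤ A' * X ^ G.natDegree := by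
    have h7 : (Y : ℝ) ≤ (A' : ℝ) * (X : ℝ) ^ G.natDegree := by
      refine hY2.trans ?_
      refine mul_le_mul_of_nonneg_right ?_ (by positivity)
      have h8 : 2 * G.leadingCoeff.natAbs ≤ A' := by omega
      exact_mod_cast h8
    exact_mod_cast h7
  have hcard : ((Icc 1 Y ×ˢ BoxT A X e).filter fun x : ℕ × (Fin d → ℤ) => (∀ i, 0 ≤ b i + lf c x.2 i) ∧
        Ad b x.1 x.2 ∧ ((cnt b x.1 x.2 : ℕ) : ℝ) < (X : ℝ) ^ (1 - ε)).card ≤
      ((BoxT A' X (Fin.cons G.natDegree e : Fin (d + 1) → ℕ)).filter fun t =>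
        (∀ i, 0 ≤ (Fin.cons 0 b : Fin (g + 1) → ℤ) i +
          lf (Fin.cons (Fin.cons 1 0) (fun i => Fin.cons 0 (c i)) : Fin (g + 1) → Fin (d + 1) → ℤ) t i) ∧
        NoFix (sys F₀ (Fin.cons (-G) P : Fin (g + 1) → ℤ[X])
          (hh (Fin.cons (Fin.cons 1 0) (fun i => Fin.cons 0 (c i)) : Fin (g + 1) → Fin (d + 1) → ℤ)
            (Fin.cons 0 b) t)) ∧
        ((pcount X F₀ (Fin.cons (-G) P : Fin (g + 1) → ℤ[X])
          (hh (Fin.cons (Fin.cons 1 0) (fun i => Fin.cons 0 (c i)) : Fin (g + 1) → Fin (d + 1) → ℤ)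
            (Fin.cons 0 b) t) : ℕ) : ℝ) < (X : ℝ) ^ (1 - η)).card := by
    refine card_le_card_of_injOn (fun x => (Fin.cons (x.1 : ℤ) x.2 : Fin (d + 1) → ℤ)) ?_ ?_
    · rintro ⟨N, t⟩ hx
      obtain ⟨hx1, hx2, hx3, hx4⟩ := mem_filter.1 (mem_coe.1 hx)
      obtain ⟨hN, ht⟩ := mem_product.1 hx1
      have hNY : N ≤ Y := (mem_Icc.1 hN).2
      refine mem_coe.2 (mem_filter.2 ⟨z2_boxcons (hNY.trans hYA) (z2_box (by omega) ht), ?_, ?_, ?_⟩)
      · intro i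
        refine Fin.cases ?_ (fun i => ?_) i
        · rw [Fin.cons_zero, z2_lf0]
          positivity
        · rw [Fin.cons_succ, z2_lfs]
          exact hx2 i
      · rw [Z2_hh]
        exact hAd b N t hx2 hx3
      · rw [Z2_hh]
        have h7 : ((pcount X F₀ (Fin.cons (-G) P : Fin (g + 1) → ℤ[X])
            (Fin.cons N (hh c b t) : Fin (g + 1) → ℕ) : ℕ) : ℝ) ≤ ((cnt b N t : ℕ) : ℝ) :=
          Nat.cast_le.2 (hcnt b N t Y hNY hset hx2)
        refine h7.trans_lt (hx4.trans_le ?_)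
        exact Real.rpow_le_rpow_of_exponent_le hX1r (by linarith [min_le_left ε (1 / 2)])
    · rintro ⟨N, t⟩ _ ⟨N', t'⟩ _ he
      have he' := Fin.cons_injective2 he
      exact Prod.ext (Int.natCast_inj.1 he'.1) he'.2
  refine (Nat.cast_le.2 hcard).trans (h6.trans ?_)
  have h8 : (∑ j, (((Fin.cons G.natDegree e : Fin (d + 1) → ℕ) j : ℕ) : ℝ)) - δ =
      (G.natDegree : ℝ) + (((∑ j, (e j : ℝ)) - δ / 2) + (-(δ / 2))) := by
    rw [Fin.sum_univ_succ]
    simp only [Fin.cons_zero, Fin.cons_succ]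
    ring
  rw [h8, Real.rpow_add hX0, Real.rpow_add hX0, Real.rpow_natCast, Real.rpow_neg hX0.le]
  have h9 : 0 < (X : ℝ) ^ ((∑ j, (e j : ℝ)) - δ / 2) := Real.rpow_pos_of_pos hX0 _
  have h10 : ((X : ℝ) ^ (δ / 2))⁻¹ ≤ 2⁻¹ := inv_anti₀ (by norm_num) hY3
  calc (X : ℝ) ^ G.natDegree * ((X : ℝ) ^ ((∑ j, (e j : ℝ)) - δ / 2) * ((X : ℝ) ^ (δ / 2))⁻¹)
      ≤ (2 * Y) * ((X : ℝ) ^ ((∑ j, (e j : ℝ)) - δ / 2) * 2⁻¹) := by
        refine mul_le_mul hY1 (mul_le_mul_of_nonneg_left h10 h9.le) (by positivity) (by positivity)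
    _ = Y * (X : ℝ) ^ ((∑ j, (e j : ℝ)) - δ / 2) := by ring

/-- **Z2a** (port of `F_one`, H24P/FC.lean). Proof. As there with `Z0_box` for the data of `Z2_dat`, `β = Fin.cons 0 b`, the injection
`(N, t) ↦ Fin.cons N t` into `BoxT A' X (Fin.cons (deg G) e)` (`Y ≤ 2 |lc G| X^(deg G)`: `fc_Y`); the bound `X^(deg G + ∑ e - η)` is at most
`2 Y X^(∑ e - η)`, at most `Y X^(∑ e - η/2)`. `fb_b`, `fb_cnt_b`. -/
theorem T_one (hC : CoreAll) {g d : ℕ} (G : ℤ[X]) (hG : 1 ≤ G.natDegree) (hl : 0 < G.leadingCoeff)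
    (P : Fin g → ℤ[X]) (c : Fin g → Fin d → ℤ) (e : Fin d → ℕ)
    (hD : Dat c e (fun i => (P i).natDegree) (fun i => (P i).leadingCoeff))
    (F₀ : ℤ[X]) (hF : F₀.natDegree = 1) (hF0 : 0 < F₀.leadingCoeff) (A : ℕ) (ε : ℝ) (hε : 0 < ε) :
    open Classical in ∃ η : ℝ, 0 < η ∧ ∃ Y₀ : ℕ, ∀ Y : ℕ, Y₀ ≤ Y → ∀ b : Fin g → ℤ,
      (∀ i, |b i| ≤ A * (argCount G Y : ℤ) ^ (P i).natDegree) →
      (((Icc 1 Y ×ˢ BoxT A (argCount G Y) e).filter fun x : ℕ × (Fin d → ℤ) => (∀ i, 0 ≤ b i + lf c x.2 i) ∧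
        Admissible (Fin.cons F₀ (famT P c b x.2) : Fin (g + 1) → ℤ[X]) G x.1 ∧
        ((primeCount (Fin.cons F₀ (famT P c b x.2) : Fin (g + 1) → ℤ[X]) G x.1 : ℕ) : ℝ) <
          (argCount G Y : ℝ) ^ (1 - ε)).card : ℝ) ≤ Y * (argCount G Y : ℝ) ^ ((∑ j, (e j : ℝ)) - η) := by
  classical
  refine z2_gen hC G hG hl P c e hD F₀ hF hF0 A ε hε
    (fun b N t => Admissible (Fin.cons F₀ (famT P c b t) : Fin (g + 1) → ℤ[X]) G N)
    (fun b N t => primeCount (Fin.cons F₀ (famT P c b t) : Fin (g + 1) → ℤ[X]) G N) ?_ ?_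
  · intro b N t h hA
    rw [famT_eval P c b t h] at hA
    exact fb_b hA
  · intro b N t Y hNY hset h
    rw [famT_eval P c b t h]
    exact fb_cnt_b hNY hset

/-- **Z2b** (port of `F_any`, H24P/FC.lean). Proof. As there (`dum`, `fb_c`, `fb_cnt_c`), otherwise as `T_one`. -/
theorem T_any (hC : CoreAll) {g d : ℕ} (G : ℤ[X]) (hG : 1 ≤ G.natDegree) (hl : 0 < G.leadingCoeff)
    (P : Fin g → ℤ[X]) (c : Fin g → Fin d → ℤ) (e : Fin d → ℕ)
    (hD : Dat c e (fun i => (P i).natDegree) (fun i => (P i).leadingCoeff)) (A : ℕ) (ε : ℝ) (hε : 0 < ε) :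
    open Classical in ∃ η : ℝ, 0 < η ∧ ∃ Y₀ : ℕ, ∀ Y : ℕ, Y₀ ≤ Y → ∀ b : Fin g → ℤ,
      (∀ i, |b i| ≤ A * (argCount G Y : ℤ) ^ (P i).natDegree) →
      (((Icc 1 Y ×ˢ BoxT A (argCount G Y) e).filter fun x : ℕ × (Fin d → ℤ) => (∀ i, 0 ≤ b i + lf c x.2 i) ∧
        Admissible (famT P c b x.2) G x.1 ∧
        ((primeCount (famT P c b x.2) G x.1 : ℕ) : ℝ) < (argCount G Y : ℝ) ^ (1 - ε)).card : ℝ) ≤
          Y * (argCount G Y : ℝ) ^ ((∑ j, (e j : ℝ)) - η) := by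
  classical
  refine z2_gen hC G hG hl P c e hD (dum P G) (dum_deg P G) (dum_lc P G) A ε hε
    (fun b N t => Admissible (famT P c b t) G N)
    (fun b N t => primeCount (famT P c b t) G N) ?_ ?_
  · intro b N t h hA
    rw [famT_eval P c b t h] at hA
    exact fb_c hA
  · intro b N t Y hNY hset h
    rw [famT_eval P c b t h]
    exact fb_cnt_c hNY hset

end Pool.Agent.HUP
end
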