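import Pool.Agent.Lib.H59M.M1.M028
import Pool.Agent.Lib.H59M.M1.M067
import Pool.Agent.Lib.H59M.M1.M079
import Pool.Agent.Lib.H59M.M1.M086
import Pool.Agent.Lib.H59M.M1.M089
import Pool.Agent.Lib.H59M.M1.M092
import Pool.Agent.Lib.H59M.M1.M093
import Pool.Agent.Lib.H59M.M1.M095

/-! Merged copies (to shorten the build) of Lib.H24P.K5, Lib.HUK.C7, Lib.HUP.S4P, Lib.HUK.D32, Lib.HUK.D33, Lib.HUK.C5, Lib.HUK.C6, Lib.HUK.C8, Lib.HUK.D15, Lib.HUK.D2. -/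

-- from Lib.H24P.K5
section

/-!
# Project H24P, chunk K5 (M): the core theorem
-/

open Finset Polynomial

namespace Pool.Agent.Lib.H24P

open Pool.Agent.Lib.H68T Pool.Agent.Lib.H18Q Pool.Agent.Lib.H59P

/-- Monotonicity. Proof. Directly. -/
theorem K5_mono {A A' : ℕ} {ε ε' : ℝ} {Z : ℕ} (hZ : 1 ≤ Z) {B : ℤ[X]} (h : OKB A ε Z B) (hA : A ≤ A')
    (hε : ε' ≤ ε) : OKB A' ε' Z B := by
  have h1 : ∀ n : ℕ, (Z : ℝ) ^ (1 - ε') ≤ n → (Z : ℝ) ^ (1 - ε) ≤ n := by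
    intro n hn
    refine le_trans (Real.rpow_le_rpow_of_exponent_le ?_ (by linarith)) hn
    exact_mod_cast hZ
  have h2 : ∀ n : ℕ, A' * n ≤ Z → A * n ≤ Z := fun n hn => (Nat.mul_le_mul_right n hA).trans hn
  refine ⟨h.deg, h.lc.trans hA, fun n a b => h.lo n (h1 n a) (h2 n b), ?_,
    fun n n' a b => h.cmp1 n n' (h1 n a) (h2 n b), fun n n' a b => h.cmp2 n n' (h1 n a) (h2 n b)⟩
  intro n a b
  refine (h.hi n (h1 n a) (h2 n b)).trans ?_
  have h3 : (A : ℤ) ≤ A' := by exact_mod_cast hA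
  exact mul_le_mul_of_nonneg_right h3 (Int.natCast_nonneg _)

/-- The linear coordinate is primitive if there is no fixed divisor. Proof. Otherwise a prime `l` divides both
coefficients (`Int.isCoprime_iff_gcd_eq_one`, `Nat.exists_prime_and_dvd`; if both are `0` the degree is not `1`), so it
divides all `B(n)`; coordinate `0` of `sys` is `B`. -/
theorem K5_lin {k A : ℕ} {B : ℤ[X]} {P : Fin k → ℤ[X]} {h : Fin k → ℕ} (hd : B.natDegree = 1)
    (hl : B.leadingCoeff.natAbs ≤ A) (hN : NoFix (sys B P h)) : Lin A B := by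
  refine ⟨hd, hl, ?_⟩
  rw [Int.isCoprime_iff_gcd_eq_one]
  by_contra hg
  obtain ⟨l, hl1, hl2⟩ := Nat.exists_prime_and_dvd hg
  have ha : (l : ℤ) ∣ B.coeff 0 := (Int.natCast_dvd_natCast.2 hl2).trans (Int.gcd_dvd_left _ _)
  have hb : (l : ℤ) ∣ B.coeff 1 := (Int.natCast_dvd_natCast.2 hl2).trans (Int.gcd_dvd_right _ _)
  obtain ⟨n, hn⟩ := hN l hl1
  apply hn 0
  show (l : ℤ) ∣ B.eval n
  rw [Polynomial.eval_eq_sum_range, hd, Finset.sum_range_succ, Finset.sum_range_one, pow_zero, pow_one, mul_one]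
  exact dvd_add ha (hb.mul_right n)

theorem k5_ev (c : ℝ) (hc : 0 < c) (K : ℝ) : ∃ Z0 : ℕ, ∀ Z : ℕ, Z0 ≤ Z → K ≤ (Z : ℝ) ^ c := by
  have h1 : Filter.Tendsto (fun Z : ℕ => (Z : ℝ) ^ c) Filter.atTop Filter.atTop :=
    (tendsto_rpow_atTop hc).comp tendsto_natCast_atTop_atTop
  exact Filter.eventually_atTop.1 (h1.eventually_ge_atTop K)


end Pool.Agent.Lib.H24P
end

-- from Lib.HUK.C7
section

/-!
# HUK, chunk C7 (M): the start of the induction, `U³`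
-/

open Finset

namespace Pool.Agent.HUK

open Pool.Agent.H9U (JJ cutJ Er Rgm)

theorem c7_bx0 {M : Type*} [AddCommMonoid M] (N : ℕ) (F : (Fin 0 → ℤ) → M) :
    ∑ h ∈ bxS 0 N, F h = F (fun i => i.elim0) := by
  have h : bxS 0 N = {fun i => i.elim0} := by
    ext x
    simp only [bxS, Fintype.mem_piFinset, mem_singleton]
    constructor
    · intro _; funext i; exact i.elim0
    · intro _ i; exact i.elim0
  rw [h, sum_singleton]

theorem c7_spt (X : ℕ) (F : ℤ → ℂ) : Spt (4 * X) (cutJ X F) := by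
  intro y hy
  unfold cutJ
  rw [if_neg]
  intro h
  apply hy
  unfold JJ at h
  rw [mem_Ico] at h ⊢
  push_cast
  omega

theorem c7_T (X : ℕ) (F : ℤ → ℂ) (a b : ℤ) :
    ∑ y ∈ Ico (-((4 * X : ℕ) : ℤ)) ((4 * X : ℕ) : ℤ), DD b (DD a (cutJ X F)) y =
      ∑ m ∈ JJ X, F m * (starRingEnd ℂ) (cutJ X F (m + a)) * (starRingEnd ℂ) (cutJ X F (m + b)) *
        cutJ X F (m + a + b) := by
  have e : ∀ y, DD b (DD a (cutJ X F)) y = cutJ X F y * (starRingEnd ℂ) (cutJ X F (y + a)) *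
      (starRingEnd ℂ) (cutJ X F (y + b)) * cutJ X F (y + a + b) := by
    intro y
    unfold DD
    rw [map_mul, Complex.conj_conj, add_right_comm y b a]
    ring
  rw [sum_congr rfl fun y _ => e y]
  symm
  have e2 : ∀ m ∈ JJ X, F m * (starRingEnd ℂ) (cutJ X F (m + a)) * (starRingEnd ℂ) (cutJ X F (m + b)) *
        cutJ X F (m + a + b) = cutJ X F m * (starRingEnd ℂ) (cutJ X F (m + a)) *
      (starRingEnd ℂ) (cutJ X F (m + b)) * cutJ X F (m + a + b) := by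
    intro m hm
    have h1 : cutJ X F m = F m := by unfold cutJ; rw [if_pos hm]
    rw [h1]
  rw [sum_congr rfl e2]
  refine sum_subset ?_ ?_
  · intro y hy
    unfold JJ at hy
    rw [mem_Ico] at hy ⊢
    push_cast
    omega
  · intro y _ hy
    have h1 : cutJ X F y = 0 := by unfold cutJ; rw [if_neg hy]
    rw [h1]
    ring

theorem c7_zero (X : ℕ) (F : ℤ → ℂ) (a b : ℤ) (h : a ∉ Ioo (-(X : ℤ)) X ∨ b ∉ Ioo (-(X : ℤ)) X) :
    ∑ m ∈ JJ X, F m * (starRingEnd ℂ) (cutJ X F (m + a)) * (starRingEnd ℂ) (cutJ X F (m + b)) *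
        cutJ X F (m + a + b) = 0 := by
  refine sum_eq_zero fun m hm => ?_
  have key : ∀ c : ℤ, c ∉ Ioo (-(X : ℤ)) X → cutJ X F (m + c) = 0 := by
    intro c hc
    unfold cutJ
    rw [if_neg]
    intro h2
    apply hc
    unfold JJ at hm h2
    rw [mem_Ico] at hm h2
    rw [mem_Ioo]
    omega
  rcases h with h | h
  · rw [key a h, map_zero]; ring
  · rw [key b h, map_zero]; ring

/-- Proof. `U0_unif` (`H9U/U0B`): `Unif X κ0 (Er Q Q' X)` in the regime; `U3_norm κ0` (`H9U/U3`). With `F = Er Q Q' X`, `f = cutJ X F` (supported in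
`JJ X ⊆ [-4X, 4X)`): by `D0_sq` (`s = 2`) and `D0_re`, `GG (4X) 3 f = ∑_{h ∈ bxS 2 (8X)} ‖∑_{y ∈ Ico (-4X) (4X)} DV h f y‖²`, `DV ![a, b] f y = f y conj f(y+a) ·
conj (f(y+b) conj f(y+a+b))`, so the inner sum is the sum over `m ∈ JJ X` of `U3_norm` (the last factor is `cutJ X F (m+a+b)`, twice conjugated), and it
vanishes if `|a| ≥ X` or `|b| ≥ X` (two points of `JJ X` have distance `< X`). So `GG (4X) 3 f ≤ X^(4 - κ0/4)`, `κ = κ0/4`. -/
theorem C7_three (hI : Pool.Agent.H9S.INV) : PK 3 := by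
  obtain ⟨K, hK, h⟩ := Pool.Agent.H9U.U0_unif hI
  refine ⟨K, hK, fun Cr θ hCr hθ => ?_⟩
  obtain ⟨κ0, h0, h1, X1, hU⟩ := h Cr θ hCr hθ
  obtain ⟨X2, hN⟩ := Pool.Agent.H9U.U3_norm κ0 h0
  refine ⟨κ0 / 4, by linarith, by linarith, max X1 X2, fun Q Q' X hX hR => ?_⟩
  have hF := hU Q Q' X ((le_max_left _ _).trans hX) hR
  have hB := hN X ((le_max_right _ _).trans hX) (Er Q Q' X) hF
  generalize Er Q Q' X = F at hB
  have hGG : GG (4 * X) 3 (cutJ X F) = ∑ a ∈ Ioo (-((2 * (4 * X) : ℕ) : ℤ)) ((2 * (4 * X) : ℕ) : ℤ),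
      ∑ b ∈ Ioo (-((2 * (4 * X) : ℕ) : ℤ)) ((2 * (4 * X) : ℕ) : ℤ),
        ‖∑ m ∈ JJ X, F m * (starRingEnd ℂ) (cutJ X F (m + a)) * (starRingEnd ℂ) (cutJ X F (m + b)) *
          cutJ X F (m + a + b)‖ ^ 2 := by
    unfold GG
    rw [D0_sq (s := 2) (c7_spt X F), Complex.ofReal_re, D0_bx]
    refine sum_congr rfl fun a _ => ?_
    rw [D0_bx]
    refine sum_congr rfl fun b _ => ?_
    rw [c7_bx0, ← c7_T X F a b, D0_cons, D0_cons]
    rfl
  have hsub : Ioo (-(X : ℤ)) X ⊆ Ioo (-((2 * (4 * X) : ℕ) : ℤ)) ((2 * (4 * X) : ℕ) : ℤ) := by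
    intro a ha
    rw [mem_Ioo] at ha ⊢
    push_cast
    omega
  have hGG2 : GG (4 * X) 3 (cutJ X F) = ∑ a ∈ Ioo (-(X : ℤ)) X, ∑ b ∈ Ioo (-(X : ℤ)) X,
        ‖∑ m ∈ JJ X, F m * (starRingEnd ℂ) (cutJ X F (m + a)) * (starRingEnd ℂ) (cutJ X F (m + b)) *
          cutJ X F (m + a + b)‖ ^ 2 := by
    rw [hGG]
    symm
    have e1 : ∀ a ∈ Ioo (-(X : ℤ)) X, ∑ b ∈ Ioo (-(X : ℤ)) X,
        ‖∑ m ∈ JJ X, F m * (starRingEnd ℂ) (cutJ X F (m + a)) * (starRingEnd ℂ) (cutJ X F (m + b)) *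
          cutJ X F (m + a + b)‖ ^ 2 = ∑ b ∈ Ioo (-((2 * (4 * X) : ℕ) : ℤ)) ((2 * (4 * X) : ℕ) : ℤ),
        ‖∑ m ∈ JJ X, F m * (starRingEnd ℂ) (cutJ X F (m + a)) * (starRingEnd ℂ) (cutJ X F (m + b)) *
          cutJ X F (m + a + b)‖ ^ 2 := by
      intro a _
      refine sum_subset hsub fun b _ hb => ?_
      rw [c7_zero X F a b (Or.inr hb), norm_zero]
      norm_num
    rw [sum_congr rfl e1]
    refine sum_subset hsub fun a _ ha => sum_eq_zero fun b _ => ?_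
    rw [c7_zero X F a b (Or.inl ha), norm_zero]
    norm_num
  rw [hGG2]
  refine hB.trans (le_of_eq ?_)
  congr 1
  push_cast
  ring

theorem c7_cs (Y : ℕ) (G : ℤ → ℝ) : (∑ a ∈ Ioo (-((2 * Y : ℕ) : ℤ)) ((2 * Y : ℕ) : ℤ), G a) ^ 2 ≤
    (4 * Y) * ∑ a ∈ Ioo (-((2 * Y : ℕ) : ℤ)) ((2 * Y : ℕ) : ℤ), G a ^ 2 := by
  have h1 := sq_sum_le_card_mul_sum_sq (s := Ioo (-((2 * Y : ℕ) : ℤ)) ((2 * Y : ℕ) : ℤ)) (f := G)
  refine h1.trans (mul_le_mul_of_nonneg_right ?_ (sum_nonneg fun _ _ => sq_nonneg _))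
  rw [Int.card_Ioo]
  have h2 : (((2 * Y : ℕ) : ℤ) - -((2 * Y : ℕ) : ℤ) - 1).toNat ≤ 4 * Y := by
    push_cast
    omega
  exact_mod_cast h2

theorem c7_one (Y : ℕ) (g : ℤ → ℂ) (hg : Spt Y g) : GG Y 1 g ^ 2 ≤ (4 * Y) * GG Y 2 g := by
  have h1 : GG Y 1 g = ∑ a ∈ Ioo (-((2 * Y : ℕ) : ℤ)) ((2 * Y : ℕ) : ℤ), (∑ y ∈ Ico (-(Y : ℤ)) Y, DD a g y).re := by
    unfold GG
    rw [D0_bx, Complex.re_sum]
    refine sum_congr rfl fun a _ => ?_
    rw [c7_bx0]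
    unfold FF
    rw [D0_cons]
    rfl
  have h2 : GG Y 2 g = ∑ a ∈ Ioo (-((2 * Y : ℕ) : ℤ)) ((2 * Y : ℕ) : ℤ), ‖∑ y ∈ Ico (-(Y : ℤ)) Y, DD a g y‖ ^ 2 := by
    unfold GG
    rw [D0_sq (s := 1) hg, Complex.ofReal_re, D0_bx]
    refine sum_congr rfl fun a _ => ?_
    rw [c7_bx0, D0_cons]
    rfl
  rw [h1, h2]
  refine (c7_cs Y _).trans (mul_le_mul_of_nonneg_left (sum_le_sum fun a _ => ?_) (by positivity))
  rw [← sq_abs]
  exact pow_le_pow_left₀ (abs_nonneg _) (Complex.abs_re_le_norm _) 2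

/-- Proof. Let `f = cutJ X (Er Q Q' X)`, `Y = 4X` (window). `GG Y 1 g ^ 2 ≤ 4Y · GG Y 2 g` for `g` supported in `[-Y, Y)`: `GG Y 1 g` is a sum over `|h| < 2Y`
of autocorrelations `A(h)` and `GG Y 2 g = ∑_h ‖A(h)‖²` (`D0_sq` with `s = 1`; Cauchy-Schwarz). With `D0_succ`:
`GG Y 2 f ^ 2 = (∑_a GG Y 1 (DD a f))² ≤ 4Y ∑_a GG Y 1 (DD a f)² ≤ (4Y)² ∑_a GG Y 2 (DD a f) = (4Y)² GG Y 3 f ≤ (16 X)² X^(4-κ)`. So
`GG Y 2 f ≤ 16 X^(3 - κ/2) ≤ X^(3 - κ/4)` for `X` large. Same `K`. -/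
theorem C7_two (h : PK 3) : PK 2 := by
  obtain ⟨K, hK, h⟩ := h
  refine ⟨K, hK, fun Cr θ hCr hθ => ?_⟩
  obtain ⟨κ, h0, h1, X1, hU⟩ := h Cr θ hCr hθ
  refine ⟨κ / 4, by linarith, by linarith, max X1 (⌈(16 : ℝ) ^ (4 / κ)⌉₊ + 1), fun Q Q' X hX hR => ?_⟩
  have hB := hU Q Q' X ((le_max_left _ _).trans hX) hR
  have hX2 : ⌈(16 : ℝ) ^ (4 / κ)⌉₊ + 1 ≤ X := (le_max_right _ _).trans hX
  have hX1 : 1 ≤ X := by omega
  have hXp : (0 : ℝ) < X := by exact_mod_cast hX1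
  have h16 : (16 : ℝ) ≤ (X : ℝ) ^ (κ / 4) := by
    have h2 : (16 : ℝ) ^ (4 / κ) ≤ X :=
      (Nat.le_ceil _).trans (by exact_mod_cast (Nat.le_succ _).trans hX2)
    have h3 := Real.rpow_le_rpow (by positivity) h2 (by positivity : 0 ≤ κ / 4)
    rw [← Real.rpow_mul (by norm_num)] at h3
    have h4 : 4 / κ * (κ / 4) = 1 := by field_simp
    rw [h4, Real.rpow_one] at h3
    exact h3
  have hf := c7_spt X (Er Q Q' X)
  generalize hff : cutJ X (Er Q Q' X) = f at hB hf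
  have hY : (GG (4 * X) 2 f) ^ 2 ≤ (4 * ((4 * X : ℕ) : ℝ)) ^ 2 * GG (4 * X) 3 f := by
    have e2 : GG (4 * X) 2 f = ∑ a ∈ Ioo (-((2 * (4 * X) : ℕ) : ℤ)) ((2 * (4 * X) : ℕ) : ℤ), GG (4 * X) 1 (DD a f) := by
      rw [D0_succ (s := 1)]
      push_cast
      rfl
    have e3 : GG (4 * X) 3 f = ∑ a ∈ Ioo (-((2 * (4 * X) : ℕ) : ℤ)) ((2 * (4 * X) : ℕ) : ℤ), GG (4 * X) 2 (DD a f) := by
      rw [D0_succ (s := 2)]
      push_cast
      rfl
    rw [e2, e3]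
    refine (c7_cs (4 * X) _).trans ?_
    rw [sq (4 * ((4 * X : ℕ) : ℝ)), mul_assoc (4 * ((4 * X : ℕ) : ℝ)) (4 * ((4 * X : ℕ) : ℝ)) _]
    have hp : (0 : ℝ) ≤ 4 * ((4 * X : ℕ) : ℝ) := by positivity
    refine mul_le_mul_of_nonneg_left ?_ hp
    rw [mul_sum]
    exact sum_le_sum fun a _ => c7_one (4 * X) _ (D0_SDD hf a)
  have hY2 : (GG (4 * X) 2 f) ^ 2 ≤ (16 * (X : ℝ) ^ (3 - κ / 2)) ^ 2 := by
    have e : (4 * ((4 * X : ℕ) : ℝ)) ^ 2 = 16 ^ 2 * (X : ℝ) ^ (2 : ℝ) := by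
      push_cast
      rw [Real.rpow_two]
      ring
    have e4 : (16 * (X : ℝ) ^ (3 - κ / 2)) ^ 2 = 16 ^ 2 * ((X : ℝ) ^ (2 : ℝ) * (X : ℝ) ^ (((3 : ℕ) : ℝ) + 1 - κ)) := by
      rw [mul_pow, ← Real.rpow_natCast ((X : ℝ) ^ (3 - κ / 2)) 2, ← Real.rpow_mul hXp.le, ← Real.rpow_add hXp]
      congr 2
      push_cast
      ring
    rw [e4, ← mul_assoc, ← e]
    exact hY.trans (mul_le_mul_of_nonneg_left hB (sq_nonneg _))
  have hY3 : GG (4 * X) 2 f ≤ 16 * (X : ℝ) ^ (3 - κ / 2) :=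
    (le_abs_self _).trans (abs_le_of_sq_le_sq hY2 (by positivity))
  refine hY3.trans ?_
  calc 16 * (X : ℝ) ^ (3 - κ / 2) ≤ (X : ℝ) ^ (κ / 4) * (X : ℝ) ^ (3 - κ / 2) :=
        mul_le_mul_of_nonneg_right h16 (by positivity)
    _ = (X : ℝ) ^ (((2 : ℕ) : ℝ) + 1 - κ / 4) := by
        rw [← Real.rpow_add hXp]
        congr 1
        push_cast
        ring

end Pool.Agent.HUK
end

-- from Lib.HUP.S4P
section

/-!
# Projects HUP, HPC, S4P (helper37): `PK 1`; `S4TU_of`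
-/

open Finset Polynomial

namespace Pool.Agent.HUP

open Pool.Agent.HUK

/-- The correlation norm `m = 1`. -/
theorem pk_one (h : PK 2) : PK 1 := by
  obtain ⟨K, hK, h⟩ := h
  refine ⟨K, hK, fun Cr θ hCr hθ => ?_⟩
  obtain ⟨κ, h0, h1, X1, hU⟩ := h Cr θ hCr hθ
  obtain ⟨X2, hX2⟩ := s4a_large 4 (κ / 4) (by positivity)
  refine ⟨κ / 4, by linarith, by linarith, max 1 (max X1 X2), fun Q Q' X hX hR => ?_⟩
  have hX1 : 1 ≤ X := (le_max_left _ _).trans hX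
  have hB := hU Q Q' X (((le_max_left _ _).trans (le_max_right _ _)).trans hX) hR
  have h4 := hX2 X (((le_max_right _ _).trans (le_max_right _ _)).trans hX)
  have hXp : (0 : ℝ) < X := by exact_mod_cast hX1
  have hS := c7_spt X (Pool.Agent.H9U.Er Q Q' X)
  have h2 := c7_one (4 * X) _ hS
  have h5 : 0 ≤ GG (4 * X) 1 (Pool.Agent.H9U.cutJ X (Pool.Agent.H9U.Er Q Q' X)) := D0_nn hS le_rfl
  refine abs_le_of_sq_le_sq' ?_ (by positivity) |>.2
  refine h2.trans ?_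
  have e1 : ((X : ℝ) ^ (((1 : ℕ) : ℝ) + 1 - κ / 4)) ^ 2 = (X : ℝ) * (X : ℝ) ^ (((2 : ℕ) : ℝ) + 1 - κ) * ((X : ℝ) ^ (κ / 4) * (X : ℝ) ^ (κ / 4)) := by
    rw [← Real.rpow_natCast, ← Real.rpow_mul hXp.le]
    nth_rewrite 2 [← Real.rpow_one (X : ℝ)]
    rw [← Real.rpow_add hXp, ← Real.rpow_add hXp, ← Real.rpow_add hXp]
    congr 1
    push_cast
    ring
  rw [e1]
  have h6 : (16 : ℝ) ≤ (X : ℝ) ^ (κ / 4) * (X : ℝ) ^ (κ / 4) := by nlinarith
  calc (4 * ((4 * X : ℕ) : ℝ)) * GG (4 * X) 2 (Pool.Agent.H9U.cutJ X (Pool.Agent.H9U.Er Q Q' X))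
      ≤ (4 * ((4 * X : ℕ) : ℝ)) * (X : ℝ) ^ (((2 : ℕ) : ℝ) + 1 - κ) := mul_le_mul_of_nonneg_left hB (by positivity)
    _ = (X : ℝ) * (X : ℝ) ^ (((2 : ℕ) : ℝ) + 1 - κ) * 16 := by push_cast; ring
    _ ≤ _ := mul_le_mul_of_nonneg_left h6 (by positivity)

/-- **`S4TU` from the second moment over the parameters.** -/
theorem S4TU_of {k d : ℕ} (c : Fin k → Fin d → ℤ) (e : Fin d → ℕ) (D : Fin k → ℕ) (a : Fin k → ℤ) (hD : Dat c e D a)
    (hF : FMT c e D a) (hPK : ∀ m, 2 ≤ m → PK m) : S4TU c e D a :=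
  S4TU_of1 c e D a hD hF fun m hm => by
    rcases Nat.lt_or_ge m 2 with h | h
    · obtain rfl : m = 1 := by omega
      exact pk_one (hPK 2 le_rfl)
    · exact hPK m h

end Pool.Agent.HUP
end

-- from Lib.HUK.D32
section

/-!
# Project HUK, chunk D32: the average over `t` (copy of `Z4A_avg`)
-/

open Finset

namespace Pool.Agent.HUK

open Pool.Agent.H9U
open Pool.Agent.Lib.H68T (lp Lk PC p0)
open Pool.Agent.Lib.H18Q (gk KS SG Bc RegP)
open Pool.Agent.Lib.H59P (Ch SF bx TS Rp MX pr)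

/-- Proof. `K` the maximum of the constants of `U7_tel`, `V1S`, `UM_mass` and `20`. With `H = X / Q^8` (so `H Q^8 ≤ X`, `Q ≤ H` since `20 log Q ≤ log X`, hence
`Q'^(10 (k+1)) ≤ H`) add: `U7_tel` (exponent `κ4`); `V1S` for each `t` (`T^d X/Q`, `Q ≥ X^(1/(2 Cr))`); `Z2S` with `Q := Q'` for each cell `j < L/H`, `a = j H`,
`c' t i p = Bc Q (Xs i) p (val b (jH) (iv t) i)`, `mb` from `UM_mass` for `(Q, Xs i)` (restricted to `PC Q' ⊆ PC Q`): the sum over the cells is at most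
`(L/H) H T^d M^k C (1+log Q')^C D2^(-c)`, `L ≤ C0 X`, `T ≤ C0 X`, `D2 ≥ Q'^δ3 ≥ X^(θ δ3)` (`Rgm.low`, `X ≤ Xs i`). `κ = min (κ4) (1/(2Cr)) (c θ δ3)/2`. (`k = 0`: `Fin 0` has no
`Xs i`; then both products are `1`, the difference is at most `H`; or use `PS: 1 ≤ k`.) -/
theorem D32_avg {k d : ℕ} (hk : 1 ≤ k) (S : Sys k d) (hT : TelP S) (hL : LBig S) : ∃ K : ℝ, 1 ≤ K ∧
    ∀ Cr θ δ3 : ℝ, 1 ≤ Cr → 0 < θ → 0 < δ3 → ∀ C0 : ℕ, ∃ κ : ℝ, 0 < κ ∧ ∃ X0 : ℕ, ∀ Q Q' X : ℕ, X0 ≤ X →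
    ∀ Xs : Fin k → ℕ, (∀ i, X ≤ Xs i ∧ Xs i ≤ C0 * X) → (∀ i, Rgm K Cr θ Q Q' (Xs i)) → Q' ^ (20 * (k + 1)) ≤ Q →
    ∀ (D D1 D2 : ℕ) (px : Ch), 1 ≤ D2 → px.1 * D2 ≤ D1 → D1 ≤ D → D ≤ Q' → px ∈ PC Q' → (Q' : ℝ) ^ δ3 ≤ D2 →
    ∀ (b : Fin k → ℤ) (L T : ℕ), L ≤ C0 * X → T ≤ C0 * X → Q' ^ (10 * (k + 1)) ≤ T →
    (∀ i, ∀ n ∈ range L, ∀ t ∈ bx d T, S.val b n (iv t) i ∈ JJ (Xs i)) →
    ∑ t ∈ bx d T, ‖((∑ n ∈ range L, ∏ i, lp (S.val b n (iv t) i) : ℝ) : ℂ) -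
      ∑ j ∈ range (L / (X / Q ^ 8)), ((X / Q ^ 8 : ℕ) : ℂ) * MCS S b (iv t) Q' D D1 px
        (fun i p => Bc Q (Xs i) p (S.val b ((j * (X / Q ^ 8) : ℕ) : ℤ) (iv t) i))‖ ≤ (X : ℝ) ^ (1 + d - κ) := by
  obtain ⟨K1, hK1, hU⟩ := hT
  obtain ⟨K2, hK2, hV⟩ := V1S S
  obtain ⟨K3, CM, hK3, hCM, hMs⟩ := Pool.Agent.Lib.H59T.UM_mass
  obtain ⟨c, C, hc, hC, hZ⟩ := Z2S S hL
  refine ⟨max (max K1 K2) (max K3 20), le_trans hK1 (le_trans (le_max_left _ _) (le_max_left _ _)), ?_⟩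
  intro Cr θ δ3 hCr hθ hδ C0
  obtain ⟨κ4, hκ4, X4, hX4⟩ := hU Cr θ hCr hθ C0
  obtain ⟨Q0, hQ0⟩ := hV C0
  have hCr0 : 0 < Cr := by linarith
  obtain ⟨X5, hX5⟩ := u7_large (Q0 : ℝ) (1 / Cr) (by positivity)
  obtain ⟨κ, hκ, X6, hX6⟩ := z4a_final d ((C0 : ℝ) ^ d)
    (CM ^ k * C * (1 + C / (c * θ * δ3 / 2)) ^ C * (C0 : ℝ) ^ (d + 1)) κ4 (1 / Cr) (c * θ * δ3 / 2)
    hκ4 (by positivity) (by positivity) (by positivity)
    (by
      have : (0:ℝ) ≤ (1 + C / (c * θ * δ3 / 2)) ^ C := Real.rpow_nonneg (by positivity) _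
      positivity)
  refine ⟨κ, hκ, max (max X4 X5) (max X6 (max 1 C0)), ?_⟩
  intro Q Q' X hX Xs hXs hR hQ20 D D1 D2 px hD2 hD21 hD1 hDQ hpx hD2b b L T hLX hTX hTQ hval
  have a4 : X4 ≤ X := le_trans (le_trans (le_max_left _ _) (le_max_left _ _)) hX
  have a5 : X5 ≤ X := le_trans (le_trans (le_max_right _ _) (le_max_left _ _)) hX
  have a6 : X6 ≤ X := le_trans (le_trans (le_max_left _ _) (le_max_right _ _)) hX
  have a7 : max 1 C0 ≤ X := le_trans (le_trans (le_max_right _ _) (le_max_right _ _)) hX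
  have hX1 : 1 ≤ X := le_trans (le_max_left _ _) a7
  have hXC : C0 ≤ X := le_trans (le_max_right _ _) a7
  have hX1r : (1:ℝ) ≤ X := by exact_mod_cast hX1
  obtain ⟨i0⟩ : Nonempty (Fin k) := ⟨⟨0, hk⟩⟩
  have hKpos : (0:ℝ) ≤ max (max K1 K2) (max K3 20) := by
    have := le_max_right K3 20
    have := le_max_right (max K1 K2) (max K3 20)
    linarith
  have hQ'1 : 1 ≤ Q' := by
    obtain ⟨p1, p2, -⟩ := Pool.Agent.Lib.H68T.mem_PC.1 hpx
    exact le_trans p1 p2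
  have hQQ : Q' ≤ Q := (hR i0).le
  have hQ1 : 1 ≤ Q := le_trans hQ'1 hQQ
  have hQpow : Q * Q ^ 8 ≤ X := z4a_Qpow Q X (Xs i0) C0 20 le_rfl
    ((hR i0).reg.mono hKpos (le_trans (le_max_right _ _) (le_max_right _ _))) (hXs i0).2 hXC
  have hQlow : (X : ℝ) ^ (1 / Cr) ≤ Q := z4a_Qlow Q X (Xs i0) Cr hCr hX1 (hXs i0).1 hQ1 (hR i0).log
  have hQ0' : Q0 ≤ Q := by exact_mod_cast le_trans (hX5 X a5) hQlow
  have hlow : (X : ℝ) ^ θ ≤ Q' := le_trans (Real.rpow_le_rpow (by linarith)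
    (by exact_mod_cast (hXs i0).1) hθ.le) (hR i0).low
  have hQX : Q ≤ X := by
    refine le_trans ?_ hQpow
    exact Nat.le_mul_of_pos_right _ (Nat.pow_pos hQ1)
  obtain ⟨H, hHd⟩ : ∃ H : ℕ, H = X / Q ^ 8 := ⟨_, rfl⟩
  rw [← hHd]
  have hQH : Q ≤ H := by
    rw [hHd, Nat.le_div_iff_mul_le (Nat.pow_pos hQ1)]
    exact hQpow
  have hH1 : 1 ≤ H := le_trans hQ1 hQH
  have hHX : H * Q ^ 8 ≤ X := by
    rw [hHd]
    exact Nat.div_mul_le_self _ _
  have hH10 : Q' ^ (10 * (k + 1)) ≤ H := by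
    refine le_trans (le_trans ?_ hQ20) hQH
    exact Nat.pow_le_pow_right hQ'1 (by omega)
  have hval' : ∀ i, ∀ n ∈ range L, ∀ t ∈ bx d T, (Xs i : ℤ) ≤ S.val b n (iv t) i ∧
      S.val b n (iv t) i ≤ 4 * Xs i := by
    intro i n hn t ht
    have h1 := hval i n hn t ht
    unfold JJ at h1
    have h2 := Finset.mem_Ico.1 h1
    constructor <;> omega
  have hms := fun i => hMs Q (Xs i) ((hR i).reg.mono hKpos (le_trans (le_max_left _ _) (le_max_right _ _)))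
  choose mb hmb0 hmbs hmb using hms
  have hR1 : ∀ i, Rgm K1 Cr θ Q Q' (Xs i) := fun i =>
    ⟨(hR i).reg.mono hKpos (le_trans (le_max_left _ _) (le_max_left _ _)), (hR i).log, (hR i).low, (hR i).le⟩
  have p1 := hX4 Q Q' X a4 Xs hXs hR1 b L T hLX hTX hval
  have p2 : ∀ t ∈ bx d T, _ := fun t ht => hQ0 Q Q' X H L hQ0' hQ'1 hQ20 hH1 hHX hLX Xs (fun i => (hXs i).1)
    (fun i => (hR i).reg.mono hKpos (le_trans (le_max_right _ _) (le_max_left _ _))) b (iv t)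
    (fun i n hn => hval' i n hn t ht)
  have p3 := z4a_cells S c C hZ Q Q' D D1 D2 H L T px hD2 hD21 hD1 hDQ hpx hQQ b hH1 hH10 hTQ Xs hval'
    CM hCM mb hmb0 hmbs hmb
  have q2 := z4a_second d C0 X Q T Cr hX1 hTX hQlow
  have q3 := z4a_third k d C0 c C CM θ δ3 hc hC hCM hθ hδ X Q' T L H D2 hQ'1 (le_trans hQQ hQX) hTX hLX hlow hD2b
  have q4 := hX6 X a6
  have tri : ∀ t ∈ bx d T, ‖((∑ n ∈ range L, ∏ i, lp (S.val b n (iv t) i) : ℝ) : ℂ) -
      ∑ j ∈ range (L / H), ((H : ℕ) : ℂ) * MCS S b (iv t) Q' D D1 px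
        (fun i p => Bc Q (Xs i) p (S.val b ((j * H : ℕ) : ℤ) (iv t) i))‖ ≤
      |∑ n ∈ range L, (∏ i, lp (S.val b n (iv t) i) - ∏ i, Lk Q' (Xs i / Q ^ 2) (S.val b n (iv t) i))| +
      (X / Q : ℝ) +
      ‖∑ j ∈ range (L / H), ∑ n ∈ Ico (j * H) (j * H + H),
        ∏ i, SG Q' (fun p => Bc Q (Xs i) p (S.val b ((j * H : ℕ) : ℤ) (iv t) i)) (S.val b n (iv t) i) -
      ∑ j ∈ range (L / H), ((H : ℕ) : ℂ) * MCS S b (iv t) Q' D D1 px
        (fun i p => Bc Q (Xs i) p (S.val b ((j * H : ℕ) : ℤ) (iv t) i))‖ := by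
    intro t ht
    have e1 : ‖((∑ n ∈ range L, ∏ i, lp (S.val b n (iv t) i) : ℝ) : ℂ) -
        ((∑ n ∈ range L, ∏ i, Lk Q' (Xs i / Q ^ 2) (S.val b n (iv t) i) : ℝ) : ℂ)‖ =
        |∑ n ∈ range L, (∏ i, lp (S.val b n (iv t) i) - ∏ i, Lk Q' (Xs i / Q ^ 2) (S.val b n (iv t) i))| := by
      rw [← Complex.ofReal_sub, ← Finset.sum_sub_distrib, Complex.norm_real, Real.norm_eq_abs]
    have e2 := p2 t ht
    rw [← e1]
    refine le_trans (norm_sub_le_norm_sub_add_norm_sub _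
      (((∑ n ∈ range L, ∏ i, Lk Q' (Xs i / Q ^ 2) (S.val b n (iv t) i) : ℝ) : ℂ)) _) ?_
    rw [add_assoc]
    refine add_le_add le_rfl ?_
    refine le_trans (norm_sub_le_norm_sub_add_norm_sub _ (∑ j ∈ range (L / H), ∑ n ∈ Ico (j * H) (j * H + H),
        ∏ i, SG Q' (fun p => Bc Q (Xs i) p (S.val b ((j * H : ℕ) : ℤ) (iv t) i)) (S.val b n (iv t) i)) _) ?_
    exact add_le_add e2 le_rfl
  refine le_trans (Finset.sum_le_sum tri) ?_
  rw [Finset.sum_add_distrib, Finset.sum_add_distrib, Finset.sum_const, z4a_card, nsmul_eq_mul, Nat.cast_pow]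
  refine le_trans ?_ q4
  exact add_le_add (add_le_add p1 q2) (le_trans p3 q3)

end Pool.Agent.HUK
end

-- from Lib.HUK.D33
section

/-!
# Project HUK, chunk D33: few `t` with few prime values, given data (copy of `Z4_count`)
-/

open Finset

namespace Pool.Agent.HUK

open Pool.Agent.H9U
open Pool.Agent.Lib.H68T (lp Lk PC p0)
open Pool.Agent.Lib.H18Q (gk KS SG Bc RegP)
open Pool.Agent.Lib.H59P (Ch SF bx TS Rp MX pr)

open Classical in
/-- Proof. If `T < Q'^(10 (k+1)) ≤ Q ≤ X^(1/20)` the count is at most `T^d ≤ X^(d/2) ≤ X^(d-κ)` (`d ≥ 1`). Otherwise let `E(t)` be the summand of `Z4A_avg`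
(exponent `κ'`). By `Z4B_low` every `t` of the set has a vanishing minor (at most `k² T^(d-1)`, `T6S_card`) or `E(t) ≥ X η^k exp(-4k)/16`, and the number of the latter is at most
`16 e^(4k) X^(k ε1) X^(d - κ')`. `ε1` the minimum of that of `Z4B_low` and `κ'/(4k)` (the hypothesis `X^(-ε1) ≤ η` is stronger for a smaller `ε1`), `κ = min κ' 1/4`. -/
theorem D33_count {k d : ℕ} (hk : 1 ≤ k) (hd : 1 ≤ d) (S : Sys k d) (ha : ∀ i, S.a i ≠ 0) (hM : MinP S) (hT : TelP S) (hL : LBig S) :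
    ∃ K : ℝ, 1 ≤ K ∧
    ∀ Cr θ δ3 : ℝ, 1 ≤ Cr → 0 < θ → 0 < δ3 → ∀ C0 : ℕ, ∃ κ ε1 : ℝ, 0 < κ ∧ 0 < ε1 ∧ ∃ X0 : ℕ, ∀ Q Q' X : ℕ, X0 ≤ X →
    ∀ Xs : Fin k → ℕ, (∀ i, X ≤ Xs i ∧ Xs i ≤ C0 * X) → (∀ i, Rgm K Cr θ Q Q' (Xs i)) → Q' ^ (20 * (k + 1)) ≤ Q →
    ∀ (D D1 D2 : ℕ) (η E0 : ℝ) (px : Ch) (th : ℤ → ℝ), Dat k Q Q' D D1 D2 η E0 px th Xs → (Q' : ℝ) ^ δ3 ≤ D2 →
    (X : ℝ) ^ (-ε1) ≤ η → ∀ (b : Fin k → ℤ) (L T : ℕ), X ≤ L → L ≤ C0 * X → T ≤ C0 * X →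
    (∀ i, ∀ n ∈ range L, ∀ t ∈ bx d T, S.val b n (iv t) i ∈ JJ (Xs i)) →
    (((bx d T).filter (fun t => S.Adm b (iv t) ∧ ∑ n ∈ range L, ∏ i, lp (S.val b n (iv t) i) <
      X * (η ^ k * Real.exp (-(4 * k : ℝ))) / 16)).card : ℝ) ≤ (X : ℝ) ^ (d - κ) := by
  obtain ⟨K1, hK1, H1⟩ := D32_avg hk S hT hL
  obtain ⟨K2, hK2, H2⟩ := Z4B_low hk S ha
  have hKm : 1 ≤ max K1 K2 := hK1.trans (le_max_left _ _)
  refine ⟨max K1 K2, hKm, ?_⟩
  intro Cr θ δ3 hCr hθ hδ3 C0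
  obtain ⟨κ', hκ', Xa, H1⟩ := H1 Cr θ δ3 hCr hθ hδ3 C0
  obtain ⟨ε', hε', Xb, H2⟩ := H2 Cr θ δ3 hCr hθ hδ3 C0
  have hk0 : (0 : ℝ) < k := by exact_mod_cast hk
  have hε1 : 0 < min ε' (κ' / (4 * k)) := lt_min hε' (by positivity)
  have hκ : 0 < min κ' 1 / 4 := by
    have := lt_min hκ' one_pos
    positivity
  have hκa : min κ' 1 / 4 ≤ 1 / 4 := by
    have := min_le_right κ' (1 : ℝ)
    linarith
  have hκb : min κ' 1 / 4 ≤ κ' / 4 := by
    have := min_le_left κ' (1 : ℝ)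
    linarith
  obtain ⟨Xc, hXc⟩ := z4_large (1 / 2) ((C0 : ℝ) ^ d) (by norm_num)
  obtain ⟨Xd, hXd⟩ := z4_large (1 / 2) (2 * (k * k * (C0 : ℝ) ^ (d - 1))) (by norm_num)
  obtain ⟨Xe, hXe⟩ := z4_large (κ' / 2) (32 * Real.exp (4 * k : ℝ)) (by positivity)
  refine ⟨min κ' 1 / 4, min ε' (κ' / (4 * k)), hκ, hε1,
    max (max Xa Xb) (max (max Xc Xd) (max Xe 1)), ?_⟩
  intro Q Q' X hX Xs hXs hR hQQ D D1 D2 η E0 px th hDat hD2 hη b L T hXL hL1 hT hJ
  have g1 : Xa ≤ X := le_trans (le_trans (le_max_left _ _) (le_max_left _ _)) hX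
  have g2 : Xb ≤ X := le_trans (le_trans (le_max_right _ _) (le_max_left _ _)) hX
  have g3 : Xc ≤ X := le_trans (le_trans (le_trans (le_max_left _ _) (le_max_left _ _)) (le_max_right _ _)) hX
  have g4 : Xd ≤ X := le_trans (le_trans (le_trans (le_max_right _ _) (le_max_left _ _)) (le_max_right _ _)) hX
  have g5 : Xe ≤ X := le_trans (le_trans (le_trans (le_max_left _ _) (le_max_right _ _)) (le_max_right _ _)) hX
  have hX1 : 1 ≤ X := le_trans (le_trans (le_trans (le_max_right _ _) (le_max_right _ _)) (le_max_right _ _)) hX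
  have hX0r : (0 : ℝ) < X := by exact_mod_cast hX1
  have hX1r : (1 : ℝ) ≤ X := by exact_mod_cast hX1
  have f1 := hXc X g3
  have f2 := hXd X g4
  have f3 := hXe X g5
  have i0 : Fin k := ⟨0, hk⟩
  by_cases hT1 : T < Q' ^ (10 * (k + 1))
  · -- small `T`
    refine z4_small hd C0 X T _ hX1 _ hκa ?_ ((card_filter_le _ _).trans (z4_card_bx d T).le) f1
    have h1 : T * T ≤ Q' ^ (20 * (k + 1)) := by
      calc T * T ≤ Q' ^ (10 * (k + 1)) * Q' ^ (10 * (k + 1)) := Nat.mul_le_mul hT1.le hT1.le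
        _ = Q' ^ (20 * (k + 1)) := by
          rw [← pow_add]
          congr 1
          ring
    have h2 : Q ≤ Xs i0 := z4_QX (hR i0).reg hKm (lt_of_lt_of_le hX1 (hXs i0).1)
    exact h1.trans (hQQ.trans (h2.trans (hXs i0).2))
  · have hT1 : Q' ^ (10 * (k + 1)) ≤ T := not_lt.1 hT1
    -- `T` is positive
    have hQ' : 0 < Q' := by
      have h1 := (hR i0).low
      have h2 : (0 : ℝ) < (Xs i0 : ℝ) := by exact_mod_cast lt_of_lt_of_le hX1 (hXs i0).1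
      have h3 : (0 : ℝ) < (Q' : ℝ) := lt_of_lt_of_le (Real.rpow_pos_of_pos h2 θ) h1
      exact_mod_cast h3
    have hT0 : 0 < T := lt_of_lt_of_le (pow_pos hQ' _) hT1
    -- the error terms
    have hRa : ∀ i, Rgm K1 Cr θ Q Q' (Xs i) := fun i =>
      z4_rgm (hR i) (by linarith) (le_max_left _ _)
    have hRb : ∀ i, Rgm K2 Cr θ Q Q' (Xs i) := fun i =>
      z4_rgm (hR i) (by linarith) (le_max_right _ _)
    have hD1D : D1 ≤ D := (Nat.le_mul_self D1).trans hDat.hD1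
    have avg := H1 Q Q' X g1 Xs hXs hRa hQQ D D1 D2 px hDat.D2_pos hDat.hD2 hD1D hDat.hD hDat.mem
      hD2 b L T hL1 hT hT1 hJ
    have hη' : (X : ℝ) ^ (-ε') ≤ η := by
      refine le_trans (Real.rpow_le_rpow_of_exponent_le hX1r ?_) hη
      exact neg_le_neg (min_le_left _ _)
    have hηk : (X : ℝ) ^ (-(κ' / 4)) ≤ η ^ k := by
      have h1 : (X : ℝ) ^ (-(κ' / (4 * k))) ≤ η := by
        refine le_trans (Real.rpow_le_rpow_of_exponent_le hX1r ?_) hη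
        exact neg_le_neg (min_le_right _ _)
      have h2 := pow_le_pow_left₀ (Real.rpow_nonneg hX0r.le _) h1 k
      rw [← Real.rpow_natCast, ← Real.rpow_mul hX0r.le] at h2
      have h3 : -(κ' / (4 * k)) * (k : ℝ) = -(κ' / 4) := by
        field_simp
      rw [h3] at h2
      exact h2
    obtain ⟨A, hA⟩ : ∃ A, A = (bx d T).filter (fun t => S.Adm b (iv t) ∧
      ∑ n ∈ range L, ∏ i, lp (S.val b n (iv t) i) < X * (η ^ k * Real.exp (-(4 * k : ℝ))) / 16) := ⟨_, rfl⟩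
    rw [← hA]
    obtain ⟨G, hG⟩ : ∃ G, G = A.filter (fun t => ¬ ∃ i j, i ≠ j ∧ S.minr b (iv t) i j = 0) := ⟨_, rfl⟩
    have hcard : A.card ≤ k * k * T ^ (d - 1) + G.card := by
      rw [← Finset.card_filter_add_card_filter_not (s := A) (fun t => ∃ i j, i ≠ j ∧ S.minr b (iv t) i j = 0), ← hG]
      refine Nat.add_le_add_right ?_ _
      refine le_trans (Finset.card_le_card ?_) (D31_minor S hM hd b T hT0)
      intro t ht
      rw [Finset.mem_filter, hA, Finset.mem_filter] at ht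
      exact Finset.mem_filter.2 ⟨ht.1.1, ht.2⟩
    -- the set `G`
    have hGb : (G.card : ℝ) * (X * (η ^ k * Real.exp (-(4 * k : ℝ))) / 16) ≤ (X : ℝ) ^ (1 + (d : ℝ) - κ') := by
      refine le_trans ?_ avg
      have hsub : G ⊆ bx d T := by
        intro t ht
        rw [hG, Finset.mem_filter, hA, Finset.mem_filter] at ht
        exact ht.1.1
      refine le_trans ?_ (Finset.sum_le_sum_of_subset_of_nonneg hsub fun _ _ _ => norm_nonneg _)
      rw [← nsmul_eq_mul]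
      refine Finset.card_nsmul_le_sum _ _ _ ?_
      intro t ht
      have ht' := ht
      rw [hG, Finset.mem_filter, hA, Finset.mem_filter] at ht'
      obtain ⟨⟨htb, hadm, hlt⟩, hmin⟩ := ht'
      have hmin' : ∀ i j, i ≠ j → S.minr b (iv t) i j ≠ 0 := fun i j hij h0 => hmin ⟨i, j, hij, h0⟩
      have low := H2 Q Q' X g2 Xs hXs hRb D D1 D2 η E0 px th hDat hD2 hη' b L (iv t) hXL hadm hmin'
        (fun i n hn => hJ i n hn t htb)
      have h1 := Complex.abs_re_le_norm (((∑ n ∈ range L, ∏ i, lp (S.val b n (iv t) i) : ℝ) : ℂ) -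
        ∑ j ∈ range (L / (X / Q ^ 8)), ((X / Q ^ 8 : ℕ) : ℂ) * MCS S b (iv t) Q' D D1 px
        (fun i p => Bc Q (Xs i) p (S.val b ((j * (X / Q ^ 8) : ℕ) : ℤ) (iv t) i)))
      refine le_trans ?_ h1
      rw [Complex.sub_re, Complex.ofReal_re]
      have h2 := neg_le_abs ((∑ n ∈ range L, ∏ i, lp (S.val b n (iv t) i) : ℝ) -
        (∑ j ∈ range (L / (X / Q ^ 8)), ((X / Q ^ 8 : ℕ) : ℂ) * MCS S b (iv t) Q' D D1 px
        (fun i p => Bc Q (Xs i) p (S.val b ((j * (X / Q ^ 8) : ℕ) : ℤ) (iv t) i))).re)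
      refine le_trans ?_ h2
      linarith
    have hG2 := z4_exc (d := d) X G.card hX1 η κ' hηk hGb f3
    have hG3 : (X : ℝ) ^ ((d : ℝ) - κ' / 4) ≤ (X : ℝ) ^ ((d : ℝ) - min κ' 1 / 4) :=
      Real.rpow_le_rpow_of_exponent_le hX1r (by linarith)
    have hB : ((k * k * T ^ (d - 1) : ℕ) : ℝ) ≤ (X : ℝ) ^ ((d : ℝ) - min κ' 1 / 4) / 2 := by
      have h1 : ((k * k * T ^ (d - 1) : ℕ) : ℝ) ≤ k * k * ((C0 : ℝ) * X) ^ (d - 1) := by
        push_cast
        refine mul_le_mul_of_nonneg_left ?_ (by positivity)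
        exact pow_le_pow_left₀ (Nat.cast_nonneg T) (by exact_mod_cast hT) _
      have h2 : (X : ℝ) ^ (d - 1 : ℕ) = (X : ℝ) ^ ((d : ℝ) - 1) := by
        rw [← Real.rpow_natCast]
        congr 1
        push_cast [hd]
        ring
      have h3 : (X : ℝ) ^ (1 / 2 : ℝ) * (X : ℝ) ^ ((d : ℝ) - 1) ≤ (X : ℝ) ^ ((d : ℝ) - min κ' 1 / 4) := by
        rw [← Real.rpow_add hX0r]
        exact Real.rpow_le_rpow_of_exponent_le hX1r (by linarith)
      rw [mul_pow, h2] at h1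
      have h4 := mul_le_mul_of_nonneg_right f2 (Real.rpow_nonneg hX0r.le ((d : ℝ) - 1))
      linarith
    have hfin : (A.card : ℝ) ≤ ((k * k * T ^ (d - 1) : ℕ) : ℝ) + (G.card : ℝ) := by exact_mod_cast hcard
    linarith

end Pool.Agent.HUK
end

-- from Lib.HUK.C5
section

/-!
# HUK, chunk C5 (M): the slices of a cube

`h_0 = h`, `h_i = h + e_i`: the vertex `y + ω · h` is `y + |ω| h + ω · (0, e)`, grouped by `|ω| = j`.
-/

open Finset

namespace Pool.Agent.HUK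

/-- The product of the vertices with `j` coordinates `true`, translated by `∑ e`. -/
noncomputable def sl {s : ℕ} (f : ℤ → ℂ) (e : Fin s → ℤ) (j : ℕ) (x : ℤ) : ℂ :=
  ∏ ω ∈ univ.filter (fun ω : Fin (s + 1) → Bool => sg ω = j),
    cj j (f (x - ∑ i, e i + vt ω (Fin.cons 0 e : Fin (s + 1) → ℤ)))

private theorem c5_cj_norm (j : ℕ) (z : ℂ) : ‖cj j z‖ = ‖z‖ := by
  unfold cj
  split_ifs
  · rfl
  · exact RCLike.norm_conj z

private theorem c5_cj_zero (j : ℕ) : cj j 0 = 0 := by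
  unfold cj
  split_ifs
  · rfl
  · exact map_zero _

private theorem c5_vt_succ {s : ℕ} (ω : Fin (s + 1) → Bool) (g : Fin (s + 1) → ℤ) :
    vt ω g = (if ω 0 then g 0 else 0) + ∑ i : Fin s, if ω i.succ then g i.succ else 0 := by
  unfold vt
  rw [Fin.sum_univ_succ]

private theorem c5_vt_cons {s : ℕ} (ω : Fin (s + 1) → Bool) (e : Fin s → ℤ) :
    vt ω (Fin.cons 0 e : Fin (s + 1) → ℤ) = ∑ i : Fin s, if ω i.succ then e i else 0 := by
  rw [c5_vt_succ]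
  simp only [Fin.cons_zero, Fin.cons_succ, ite_self, zero_add]

private theorem c5_vt_add {s : ℕ} (ω : Fin s → Bool) (a : ℤ) (g : Fin s → ℤ) :
    vt ω (fun i => a + g i) = (sg ω : ℤ) * a + vt ω g := by
  unfold vt sg
  have h1 : ∀ i : Fin s, (if ω i then a + g i else 0) = (if ω i = true then a else 0) + (if ω i then g i else 0) := by
    intro i
    split_ifs
    · rfl
    · rfl
  rw [Finset.sum_congr rfl (fun i _ => h1 i), Finset.sum_add_distrib, ← Finset.sum_filter, Finset.sum_const,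
    nsmul_eq_mul]

private theorem c5_all {s : ℕ} (ω : Fin (s + 1) → Bool) (h : sg ω = s + 1) : ∀ i, ω i = true := by
  intro i
  unfold sg at h
  have h1 : (univ.filter fun i => ω i = true) = univ := by
    apply Finset.eq_univ_of_card
    rw [h, Fintype.card_fin]
  have h2 : i ∈ (univ.filter fun i => ω i = true) := by
    rw [h1]
    exact mem_univ i
  exact (mem_filter.mp h2).2

private theorem c5_none {s : ℕ} (ω : Fin s → Bool) (h : sg ω = 0) : ∀ i, ω i = false := by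
  intro i
  unfold sg at h
  rw [Finset.card_eq_zero] at h
  by_contra hc
  have h2 : i ∈ (univ.filter fun i => ω i = true) := mem_filter.mpr ⟨mem_univ i, by simpa using hc⟩
  rw [h] at h2
  exact absurd h2 (Finset.notMem_empty i)

private theorem c5_sg_exists (s j : ℕ) (hj : j ≤ s) : ∃ ω : Fin s → Bool, sg ω = j := by
  classical
  obtain ⟨t, -, ht⟩ := Finset.exists_subset_card_eq (s := (univ : Finset (Fin s))) (n := j)
    (by rw [Finset.card_univ, Fintype.card_fin]; exact hj)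
  refine ⟨fun i => decide (i ∈ t), ?_⟩
  unfold sg
  have h1 : (univ.filter fun i => decide (i ∈ t) = true) = t := by
    ext i
    simp
  rw [h1, ht]

private theorem c5_off {s : ℕ} (Y : ℕ) (ω : Fin (s + 1) → Bool) (e : Fin s → ℤ) (he : e ∈ bxS s (4 * Y)) :
    |vt ω (Fin.cons 0 e : Fin (s + 1) → ℤ) - ∑ i, e i| ≤ s * (4 * Y) := by
  rw [c5_vt_cons, ← Finset.sum_sub_distrib]
  refine (Finset.abs_sum_le_sum_abs _ _).trans ?_
  have h1 : ∀ i ∈ (univ : Finset (Fin s)), |(if ω i.succ then e i else 0) - e i| ≤ 4 * (Y : ℤ) := by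
    intro i _
    have h2 := Finset.mem_Ioo.mp (Fintype.mem_piFinset.mp he i)
    push_cast at h2
    split_ifs
    · rw [sub_self, abs_zero]
      positivity
    · rw [zero_sub, abs_neg, abs_le]
      exact ⟨h2.1.le, h2.2.le⟩
  refine (Finset.sum_le_sum h1).trans ?_
  rw [Finset.sum_const, Finset.card_univ, Fintype.card_fin, nsmul_eq_mul]

private theorem c5_last {s : ℕ} (f : ℤ → ℂ) (e : Fin s → ℤ) (x : ℤ) : sl f e (s + 1) x = cj (s + 1) (f x) := by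
  unfold sl
  have h1 : (univ.filter fun ω : Fin (s + 1) → Bool => sg ω = s + 1) = {fun _ => true} := by
    ext ω
    rw [mem_filter, mem_singleton]
    constructor
    · rintro ⟨-, h⟩
      funext i
      exact c5_all ω h i
    · rintro rfl
      refine ⟨mem_univ _, ?_⟩
      unfold sg
      simp
  rw [h1, Finset.prod_singleton, c5_vt_cons]
  simp

private theorem c5_prod {s : ℕ} (f : ℤ → ℂ) (e : Fin s → ℤ) (a y : ℤ) :
    DV (Fin.cons a (fun i => a + e i) : Fin (s + 1) → ℤ) f y =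
      ∏ j ∈ range (s + 2), sl f e j (y + j * a + ∑ i, e i) := by
  unfold DV
  rw [DL_prod]
  have hc : (Fin.cons a (fun i => a + e i) : Fin (s + 1) → ℤ) = fun i => a + (Fin.cons 0 e : Fin (s + 1) → ℤ) i := by
    funext i
    refine Fin.cases ?_ (fun i => ?_) i
    · simp
    · simp
  have hmap : ∀ ω ∈ (univ : Finset (Fin (s + 1) → Bool)), sg ω ∈ range (s + 2) := by
    intro ω _
    rw [mem_range]
    unfold sg
    have h1 := Finset.card_le_univ (univ.filter fun i => ω i = true)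
    rw [Fintype.card_fin] at h1
    omega
  rw [← Finset.prod_fiberwise_of_maps_to hmap]
  refine Finset.prod_congr rfl fun j _ => ?_
  unfold sl
  refine Finset.prod_congr rfl fun ω hω => ?_
  have hj : sg ω = j := (mem_filter.mp hω).2
  rw [hc, c5_vt_add, hj]
  congr 2
  ring

private theorem c5_sub (I : Finset ℤ) (Φ : ℤ → ℂ) (c : ℤ) (h1 : ∀ y, y ∉ I → Φ y = 0) (h2 : ∀ y, y + c ∉ I → Φ y = 0) :
    ∑ y ∈ I, Φ y = ∑ m ∈ I, Φ (m - c) := by
  have e1 : ∑ y ∈ I, Φ y = ∑ y ∈ I.filter (fun y => y + c ∈ I), Φ y := by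
    rw [Finset.sum_filter]
    refine Finset.sum_congr rfl fun y _ => ?_
    split_ifs with h
    · rfl
    · exact h2 y h
  have e2 : ∑ m ∈ I, Φ (m - c) = ∑ m ∈ I.filter (fun m => m - c ∈ I), Φ (m - c) := by
    rw [Finset.sum_filter]
    refine Finset.sum_congr rfl fun m _ => ?_
    split_ifs with h
    · rfl
    · exact h1 _ h
  rw [e1, e2]
  refine Finset.sum_bij' (fun y _ => y + c) (fun m _ => m - c) ?_ ?_ ?_ ?_ ?_
  · intro y hy
    rw [mem_filter] at hy ⊢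
    rw [add_sub_cancel_right]
    exact ⟨hy.2, hy.1⟩
  · intro m hm
    rw [mem_filter] at hm ⊢
    rw [sub_add_cancel]
    exact ⟨hm.2, hm.1⟩
  · intro y _
    exact add_sub_cancel_right _ _
  · intro m _
    exact sub_add_cancel _ _
  · intro y _
    rw [add_sub_cancel_right]

theorem C5_zero {s : ℕ} (f : ℤ → ℂ) (e : Fin s → ℤ) (x : ℤ) : sl f e 0 x = f (x - ∑ i, e i) := by
  unfold sl
  have h1 : (univ.filter fun ω : Fin (s + 1) → Bool => sg ω = 0) = {fun _ => false} := by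
    ext ω
    rw [mem_filter, mem_singleton]
    constructor
    · rintro ⟨-, h⟩
      funext i
      exact c5_none ω h i
    · rintro rfl
      refine ⟨mem_univ _, ?_⟩
      unfold sg
      simp
  rw [h1, Finset.prod_singleton, c5_vt_cons]
  simp [cj]

/-- `|∑ e| ≤ 4 s Y` and `|vt ω (0, e)| ≤ 4 s Y`; for `j ≤ s + 1` some `ω` has `sg ω = j` (the first `j` coordinates `true`), and `f` vanishes at its
vertex if `x` is not in `[-(8s+1)Y, (8s+1)Y)`. -/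
theorem C5_bdd (Y s j : ℕ) (hj : j ≤ s + 1) (f : ℤ → ℂ) (hf : Bdd Y f) (e : Fin s → ℤ) (he : e ∈ bxS s (4 * Y)) :
    Bdd ((8 * s + 1) * Y) (sl f e j) := by
  refine ⟨fun y => ?_, fun y hy => ?_⟩
  · unfold sl
    rw [norm_prod]
    refine Finset.prod_le_one (fun _ _ => norm_nonneg _) fun ω _ => ?_
    rw [c5_cj_norm]
    exact hf.le _
  · obtain ⟨ω, hω⟩ := c5_sg_exists (s + 1) j hj
    unfold sl
    refine Finset.prod_eq_zero (mem_filter.mpr ⟨mem_univ ω, hω⟩) ?_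
    rw [hf.sup, c5_cj_zero]
    have h1 := abs_le.mp (c5_off Y ω e he)
    intro hc
    apply hy
    rw [mem_Ico] at hc ⊢
    have h2 : (0 : ℤ) ≤ (s : ℤ) * Y := by positivity
    have e1 : (((8 * s + 1) * Y : ℕ) : ℤ) = 8 * ((s : ℤ) * Y) + Y := by push_cast; ring
    have e2 : (s : ℤ) * (4 * Y) = 4 * ((s : ℤ) * Y) := by ring
    rw [e1]
    rw [e2] at h1
    constructor <;> linarith [hc.1, hc.2, h1.1, h1.2]

/-- Proof. (1) `bxS_sum`, then for fixed `h = h_0 ∈ Ioo (-2Y) (2Y)` substitute `h_(i+1) = h + e_i`: the `e` with all `|h + e_i| < 2Y` are in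
`bxS s (4Y)`, and for the other `e ∈ bxS s (4Y)` the term `FF Y (cons h (h + e)) f` vanishes (`D0_large` in `D0.lean`, or directly: a vertex is outside).
(2) `DL_prod` (`P0`): `DV (cons h (h + e)) f y = ∏_ω cj (sg ω) (f (y + vt ω (cons h (h + e))))` and `vt ω (cons h (h + e)) = sg ω • h + vt ω (cons 0 e)`.
Group by `sg ω = j ∈ range (s + 2)` (`prod_fiberwise_of_maps_to`): `= ∏_{j < s+2} sl f e j (y + j h + ∑ e)`.
The factor `j = s + 1` (only `ω = true`, `vt = ∑ e`) is `cj (s+1) (f (y + (s+1) h + ∑ e))`.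
(3) Substitute `m = y + (s+1) h + ∑ e`, so `y + j h + ∑ e = m - (s + 1 - j) h`: the sum over `y ∈ [-Y, Y)` becomes a sum over `m ∈ [-Y, Y)` because
the summand vanishes unless both `y` (factor `j = 0`, `C5_zero`) and `m` are in `[-Y, Y)`. (4) Exchange the sums;
`∑_{h ∈ Ioo (-2Y) (2Y)} ∏_{j < s+1} sl f e j (m - (s+1-j) h) = Psi Y (s+1) (sl f e) m`, and the window may be enlarged to `Y'`: a non-zero term has
`f (m - (s+1) h - ∑ e) ≠ 0` (`j = 0`) and `f (m - s h - ∑ e) ≠ 0` (a factor of `j = 1`: the `ω` with only the coordinate `0` true), so `|h| < 2Y`. (Needs `1 ≤ s`.) -/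
theorem C5_slice (Y Y' s : ℕ) (hs : 1 ≤ s) (hY : Y ≤ Y') (f : ℤ → ℂ) (hf : ∀ y, y ∉ Ico (-(Y : ℤ)) Y → f y = 0) :
    ∑ h ∈ bxS (s + 1) (2 * Y), FF Y h f =
      ∑ e ∈ bxS s (4 * Y), ∑ m ∈ Ico (-(Y : ℤ)) Y, cj (s + 1) (f m) * Psi Y' (s + 1) (sl f e) m := by
  -- the change of variables in the directions
  have step1 : ∀ a : ℤ, ∑ h ∈ bxS s (2 * Y), FF Y (Fin.cons a h : Fin (s + 1) → ℤ) f =
      if a ∈ Ioo (-((2 * Y : ℕ) : ℤ)) ((2 * Y : ℕ) : ℤ) then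
        ∑ e ∈ bxS s (4 * Y), FF Y (Fin.cons a (fun i => a + e i) : Fin (s + 1) → ℤ) f else
        ∑ h ∈ bxS s (2 * Y), FF Y (Fin.cons a h : Fin (s + 1) → ℤ) f := by
    intro a
    split_ifs with ha
    · rw [mem_Ioo] at ha
      have e1 : ∑ e ∈ bxS s (4 * Y), FF Y (Fin.cons a (fun i => a + e i) : Fin (s + 1) → ℤ) f =
          ∑ e ∈ (bxS s (4 * Y)).filter (fun e => ∀ i, |a + e i| < 2 * Y),
            FF Y (Fin.cons a (fun i => a + e i) : Fin (s + 1) → ℤ) f := by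
        rw [Finset.sum_filter]
        refine Finset.sum_congr rfl fun e _ => ?_
        split_ifs with h
        · rfl
        · push Not at h
          obtain ⟨i, hi⟩ := h
          refine D0_large hf _ i.succ ?_
          rw [Fin.cons_succ]
          exact hi
      rw [e1]
      refine Finset.sum_bij' (fun h _ => fun i => h i - a) (fun e _ => fun i => a + e i) ?_ ?_ ?_ ?_ ?_
      · intro h hh
        have hh' := Fintype.mem_piFinset.mp hh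
        rw [mem_filter]
        refine ⟨Fintype.mem_piFinset.mpr fun i => ?_, fun i => ?_⟩
        · have h1 := mem_Ioo.mp (hh' i)
          rw [mem_Ioo]
          push_cast at h1 ha ⊢
          constructor <;> linarith [h1.1, h1.2, ha.1, ha.2]
        · have h1 := mem_Ioo.mp (hh' i)
          push_cast at h1
          rw [add_sub_cancel, abs_lt]
          exact h1
      · intro e he
        rw [mem_filter] at he
        refine Fintype.mem_piFinset.mpr fun i => ?_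
        have h1 := abs_lt.mp (he.2 i)
        rw [mem_Ioo]
        push_cast
        exact h1
      · intro h _
        funext i
        exact add_sub_cancel _ _
      · intro e _
        funext i
        exact add_sub_cancel_left _ _
      · intro h _
        have e9 : (fun i => a + (h i - a)) = h := by
          funext i
          exact add_sub_cancel _ _
        show FF Y (Fin.cons a h : Fin (s + 1) → ℤ) f = FF Y (Fin.cons a (fun i => a + (h i - a)) : Fin (s + 1) → ℤ) f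
        rw [e9]
    · rfl
  -- the sum over the base point
  have step2 : ∀ (a : ℤ) (e : Fin s → ℤ), FF Y (Fin.cons a (fun i => a + e i) : Fin (s + 1) → ℤ) f =
      ∑ m ∈ Ico (-(Y : ℤ)) Y, cj (s + 1) (f m) *
        ∏ j ∈ range (s + 1), sl f e j (m - (((s + 1 : ℕ) : ℤ) - j) * a) := by
    intro a e
    unfold FF
    have h1 : ∀ y, DV (Fin.cons a (fun i => a + e i) : Fin (s + 1) → ℤ) f y =
        (∏ j ∈ range (s + 1), sl f e j (y + j * a + ∑ i, e i)) *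
          cj (s + 1) (f (y + ((s + 1 : ℕ) : ℤ) * a + ∑ i, e i)) := by
      intro y
      rw [c5_prod, Finset.prod_range_succ, c5_last]
    rw [Finset.sum_congr rfl fun y _ => h1 y]
    rw [c5_sub (Ico (-(Y : ℤ)) Y) (fun y => (∏ j ∈ range (s + 1), sl f e j (y + j * a + ∑ i, e i)) *
          cj (s + 1) (f (y + ((s + 1 : ℕ) : ℤ) * a + ∑ i, e i))) (((s + 1 : ℕ) : ℤ) * a + ∑ i, e i)]
    · refine Finset.sum_congr rfl fun m _ => ?_
      have e2 : m - (((s + 1 : ℕ) : ℤ) * a + ∑ i, e i) + ((s + 1 : ℕ) : ℤ) * a + ∑ i, e i = m := by ring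
      show (∏ j ∈ range (s + 1), sl f e j (m - (((s + 1 : ℕ) : ℤ) * a + ∑ i, e i) + j * a + ∑ i, e i)) *
        cj (s + 1) (f (m - (((s + 1 : ℕ) : ℤ) * a + ∑ i, e i) + ((s + 1 : ℕ) : ℤ) * a + ∑ i, e i)) = _
      rw [e2, mul_comm]
      refine congrArg _ (Finset.prod_congr rfl fun j _ => ?_)
      refine congrArg _ ?_
      ring
    · intro y hy
      refine mul_eq_zero_of_left (Finset.prod_eq_zero (mem_range.mpr (Nat.succ_pos s)) ?_) _
      rw [C5_zero]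
      have e3 : y + ((0 : ℕ) : ℤ) * a + ∑ i, e i - ∑ i, e i = y := by push_cast; ring
      rw [e3]
      exact hf y hy
    · intro y hy
      rw [← add_assoc] at hy
      show _ * cj (s + 1) (f (y + ((s + 1 : ℕ) : ℤ) * a + ∑ i, e i)) = 0
      rw [hf _ hy, c5_cj_zero, mul_zero]
  -- the window
  have step3 : ∀ (e : Fin s → ℤ) (m : ℤ), Psi Y' (s + 1) (sl f e) m =
      ∑ a ∈ Ioo (-((2 * Y : ℕ) : ℤ)) ((2 * Y : ℕ) : ℤ), ∏ j ∈ range (s + 1), sl f e j (m - (((s + 1 : ℕ) : ℤ) - j) * a) := by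
    intro e m
    unfold Psi
    symm
    refine Finset.sum_subset ?_ ?_
    · intro a ha
      rw [mem_Ioo] at ha ⊢
      push_cast at ha
      constructor <;> omega
    · intro a _ ha
      by_contra hne
      rw [← ne_eq, Finset.prod_ne_zero_iff] at hne
      have h0 := hne 0 (mem_range.mpr (by omega))
      have h1 := hne 1 (mem_range.mpr (by omega))
      rw [C5_zero] at h0
      have i0 : m - (((s + 1 : ℕ) : ℤ) - ((0 : ℕ) : ℤ)) * a - ∑ i, e i ∈ Ico (-(Y : ℤ)) Y := by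
        by_contra hc
        exact h0 (hf _ hc)
      have i1 : m - (((s + 1 : ℕ) : ℤ) - ((1 : ℕ) : ℤ)) * a - ∑ i, e i ∈ Ico (-(Y : ℤ)) Y := by
        by_contra hc
        apply h1
        unfold sl
        refine Finset.prod_eq_zero (i := (Fin.cons true (fun _ => false) : Fin (s + 1) → Bool))
          (mem_filter.mpr ⟨mem_univ _, ?_⟩) ?_
        · rw [p0_sg_cons]
          unfold sg
          simp
        · rw [c5_vt_cons]
          simp only [Fin.cons_succ, Bool.false_eq_true, if_false, Finset.sum_const_zero, add_zero]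
          rw [hf _ hc, c5_cj_zero]
      apply ha
      rw [mem_Ico] at i0 i1
      rw [mem_Ioo]
      have e0 : m - (((s + 1 : ℕ) : ℤ) - ((1 : ℕ) : ℤ)) * a - ∑ i, e i =
          m - (((s + 1 : ℕ) : ℤ) - ((0 : ℕ) : ℤ)) * a - ∑ i, e i + a := by push_cast; ring
      rw [e0] at i1
      push_cast at i0 i1 ⊢
      constructor <;> linarith [i0.1, i0.2, i1.1, i1.2]
  rw [D0_bx, Finset.sum_congr rfl fun a ha => by
    rw [step1 a, if_pos ha, Finset.sum_congr rfl fun e _ => step2 a e]]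
  rw [Finset.sum_comm]
  refine Finset.sum_congr rfl fun e _ => ?_
  rw [Finset.sum_comm]
  refine Finset.sum_congr rfl fun m _ => ?_
  rw [step3, Finset.mul_sum]

end Pool.Agent.HUK
end

-- from Lib.HUK.C6
section

/-!
# HUK, chunk C6 (M/L): the closure, from `U^(k-1)` to `U^k`
-/

open Finset

namespace Pool.Agent.HUK

open Pool.Agent.H9S (lc Lc)
open Pool.Agent.H9U (JJ cutJ Er Rgm)

lemma c6_cj (n : ℕ) (r : ℝ) : cj n (r : ℂ) = r := by
  unfold cj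
  split_ifs
  · rfl
  · exact Complex.conj_ofReal r

lemma c6_large (c M : ℝ) (hc : 0 < c) : ∃ X0 : ℕ, ∀ X : ℕ, X0 ≤ X → M ≤ (X : ℝ) ^ c := by
  have h1 : Filter.Tendsto (fun X : ℕ => (X : ℝ) ^ c) Filter.atTop Filter.atTop :=
    (tendsto_rpow_atTop hc).comp tendsto_natCast_atTop_atTop
  exact Filter.eventually_atTop.1 (h1.eventually_ge_atTop M)

lemma c6_rgm {K K' Cr θ : ℝ} {Q Q' X : ℕ} (h : Rgm K Cr θ Q Q' X) (h0 : 0 ≤ K) (hK : K' ≤ K) :
    Rgm K' Cr θ Q Q' X := ⟨h.reg.mono h0 hK, h.log, h.low, h.le⟩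

lemma c6_JJ {X : ℕ} {m : ℤ} (hm : m ∈ JJ X) : (X:ℤ) ≤ m ∧ m < 4 * X ∧ m ∈ Ico (-((4 * X : ℕ) : ℤ)) ((4 * X : ℕ) : ℤ) := by
  unfold Pool.Agent.H9U.JJ at hm
  rw [mem_Ico] at hm ⊢
  push_cast
  omega

/-- the values of `Er` are real -/
lemma c6_Er (Q Q' X : ℕ) (m : ℤ) : ∃ r : ℝ, Er Q Q' X m = (r : ℂ) := by
  refine ⟨Pool.Agent.Lib.H68T.lp m - Pool.Agent.Lib.H68T.Lk Q' (X / Q ^ 2) m, ?_⟩
  unfold Pool.Agent.H9U.Er Pool.Agent.H9S.lc Pool.Agent.H9S.Lc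
  push_cast
  ring

/-- one vector of differences of differences -/
lemma c6_inner (X s : ℕ) (E : ℤ → ℂ) (hE : ∀ m, ∃ r : ℝ, E m = (r : ℂ)) (c : ℝ) (G : ℤ → ℂ) :
    ∑ m ∈ Ico (-((4 * X : ℕ) : ℤ)) ((4 * X : ℕ) : ℤ), cj (s + 1) ((c : ℂ) * cutJ X E m) * G m =
      (c : ℂ) * ∑ m ∈ JJ X, E m * G m := by
  rw [mul_sum]
  have h1 : JJ X ⊆ Ico (-((4 * X : ℕ) : ℤ)) ((4 * X : ℕ) : ℤ) := fun m hm => (c6_JJ hm).2.2
  rw [← sum_subset h1]
  · refine sum_congr rfl fun m hm => ?_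
    obtain ⟨r, hr⟩ := hE m
    unfold Pool.Agent.H9U.cutJ
    rw [if_pos hm, hr, ← Complex.ofReal_mul, c6_cj]
    push_cast
    ring
  · intro m _ hm
    unfold Pool.Agent.H9U.cutJ
    rw [if_neg hm, mul_zero]
    have : cj (s + 1) (0 : ℂ) = 0 := by
      have h := c6_cj (s + 1) 0
      simpa using h
    rw [this, zero_mul]

/-- Proof. `k = s + 1`, `s ≥ 3`. `B = 4 (8 s + 1)`; `K` = maximum of the constants of `C4_est` for `B`, of `PK (k-1)` and of `U0_size` (`H9U.z4_rgm` in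
`H9U/Z4.lean` is three lines, copy it: `⟨h.reg.mono .., h.log, h.low, h.le⟩`). Given `Cr θ`: `κ1` from `PK (k-1)`, `κ2` from `C4_est` with `κ = κ1`;
`κ = κ2/2`, `ε = κ2/(8 * 2^k)`. `E = Er Q Q' X`, `b = X^ε`: `‖E m‖ ≤ b` for `X ≤ m ≤ 4X` (`U0_lp`, `U0_size` with `ε/2`, `2 X^(ε/2) ≤ X^ε`; `1 ≤ Q'`). Put
`F = cutJ X E`, `f x = (b⁻¹ : ℝ) * F x`: `Bdd (4X) f`, `F = b • f`, so `GG (4X) k F = b^(2^k) GG (4X) k f` (`C1_smul`).
`C5_slice` with `Y = 4X`, `Y' = B X`, `GG_real`: `GG (4X) k f = ∑_{e ∈ bxS s (16X)} ∑_{m ∈ Ico (-4X) (4X)} cj k (f m) * Psi (B X) k (sl f e) m`. `E m` is real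
(`Er` is a difference of real numbers), so `cj k (f m) = f m = b⁻¹ E m` for `m ∈ JJ X` and `0` otherwise: the inner sum is `b⁻¹ ∑_{m ∈ JJ X} E m * Psi (B X) k (sl f e) m`,
at most `X^(2-κ2)` by `C4_est`: `Bdd (B X) (sl f e j)` by `C5_bdd` (`(8s+1) (4X) = B X`), and `GG (B X) (k-1) (sl f e 0) = GG (4X) (k-1) f`
(`C5_zero`, `GG_shift`) `= b^(-2^(k-1)) GG (4X) (k-1) F ≤ X^(k - κ1)` (`PK (k-1)`, `b ≥ 1`, `((k-1 : ℕ) : ℝ) + 1 - κ1 = k - κ1`).
Number of `e`: at most `(32 X)^s` (`bxS_card`). Total: `GG (4X) k F ≤ X^(ε 2^k) 32^s X^s X^(2-κ2) ≤ X^(k + 1 - κ2/2)` for `X` large. -/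
theorem C6_close (k : ℕ) (hk : 4 ≤ k) (hT : TLP k) (hL : LKP k) (hP : PK (k - 1)) : PK k := by
  obtain ⟨s, rfl⟩ : ∃ s, k = s + 1 := ⟨k - 1, by omega⟩
  have hs : 3 ≤ s := by omega
  have hss : s + 1 - 1 = s := by omega
  rw [hss] at hP
  obtain ⟨B, hB⟩ : ∃ B : ℕ, B = 4 * (8 * s + 1) := ⟨_, rfl⟩
  obtain ⟨K1, hK1, h1⟩ := C4_est (s + 1) (by omega) hT hL B (by omega)
  obtain ⟨K2, hK2, h2⟩ := hP
  obtain ⟨K3, hK3, h3⟩ := Pool.Agent.H9U.U0_size
  refine ⟨max K1 (max K2 K3), le_max_of_le_left hK1, fun Cr θ hCr hθ => ?_⟩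
  have hK0 : (0 : ℝ) ≤ max K1 (max K2 K3) := le_trans (by linarith) (le_max_left _ _)
  obtain ⟨κ1, hκ1, hκ11, X2, h2⟩ := h2 Cr θ hCr hθ
  obtain ⟨κ2, hκ2, hκ21, X1, h1⟩ := h1 Cr θ κ1 hCr hθ hκ1 hκ11
  obtain ⟨ε, hε⟩ : ∃ ε : ℝ, ε = κ2 / (8 * 2 ^ (s + 1)) := ⟨_, rfl⟩
  have hε0 : 0 < ε := by rw [hε]; positivity
  obtain ⟨X3, h3⟩ := h3 (ε / 2) (by linarith)
  obtain ⟨X4, h4⟩ := Pool.Agent.H9U.U0_lp (ε / 2) (by linarith)
  obtain ⟨X5, h5⟩ := c6_large (ε / 2) 2 (by linarith)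
  obtain ⟨X6, h6⟩ := c6_large (3 * κ2 / 8) (32 ^ s) (by linarith)
  refine ⟨κ2 / 2, by linarith, by linarith, max (max (max X1 X2) (max X3 X4)) (max (max X5 X6) 1), fun Q Q' X hX hR => ?_⟩
  simp only [max_le_iff] at hX
  obtain ⟨⟨⟨hX1, hX2⟩, hX3, hX4⟩, ⟨hX5, hX6⟩, hX0⟩ := hX
  have hXr : (1 : ℝ) ≤ X := by exact_mod_cast hX0
  have hXp : (0 : ℝ) < X := by linarith
  have hR1 : Rgm K1 Cr θ Q Q' X := c6_rgm hR hK0 (le_max_left _ _)
  have hR2 : Rgm K2 Cr θ Q Q' X := c6_rgm hR hK0 ((le_max_left _ _).trans (le_max_right _ _))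
  have hR3 : Rgm K3 Cr θ Q Q' X := c6_rgm hR hK0 ((le_max_right _ _).trans (le_max_right _ _))
  have hQ' : 1 ≤ Q' := by
    have h7 : (1 : ℝ) ≤ (X : ℝ) ^ θ := Real.one_le_rpow hXr hθ.le
    have h8 : (1 : ℝ) ≤ (Q' : ℝ) := h7.trans hR.low
    exact_mod_cast h8
  specialize h1 Q Q' X hX1 hR1
  specialize h2 Q Q' X hX2 hR2
  specialize h3 Q Q' X hX3 hR3.reg hQ' hR3.le
  specialize h4 X hX4
  specialize h5 X hX5
  specialize h6 X hX6
  obtain ⟨b, hb⟩ : ∃ b : ℝ, b = (X : ℝ) ^ ε := ⟨_, rfl⟩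
  have hb1 : 1 ≤ b := by rw [hb]; exact Real.one_le_rpow hXr hε0.le
  have hb0 : 0 < b := by linarith
  -- the size of the error
  have hEb : ∀ m : ℤ, (X : ℤ) ≤ m → m ≤ 4 * X → ‖Er Q Q' X m‖ ≤ b := by
    intro m hm1 hm2
    have e1 : Er Q Q' X m = ((Pool.Agent.Lib.H68T.lp m - Pool.Agent.Lib.H68T.Lk Q' (X / Q ^ 2) m : ℝ) : ℂ) := by
      unfold Pool.Agent.H9U.Er Pool.Agent.H9S.lc Pool.Agent.H9S.Lc
      push_cast
      ring
    rw [e1, Complex.norm_real, Real.norm_eq_abs]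
    have e2 := abs_sub (Pool.Agent.Lib.H68T.lp m) (Pool.Agent.Lib.H68T.Lk Q' (X / Q ^ 2) m)
    have e3 := h3 m hm1 hm2
    have e4 := h4 m hm2
    have e5 : b = (X : ℝ) ^ (ε / 2) * (X : ℝ) ^ (ε / 2) := by
      rw [hb, ← Real.rpow_add hXp]
      congr 1
      ring
    have e6 : 0 ≤ (X : ℝ) ^ (ε / 2) := Real.rpow_nonneg hXp.le _
    rw [e5]
    nlinarith
  obtain ⟨F, hF⟩ : ∃ F : ℤ → ℂ, F = cutJ X (Er Q Q' X) := ⟨_, rfl⟩
  rw [← hF] at h2 ⊢
  obtain ⟨f, hf⟩ : ∃ f : ℤ → ℂ, f = fun x => ((b⁻¹ : ℝ) : ℂ) * F x := ⟨_, rfl⟩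
  have hFf : F = fun x => ((b : ℝ) : ℂ) * f x := by
    funext x
    rw [hf]
    have hbc : (b : ℂ) ≠ 0 := by exact_mod_cast hb0.ne'
    push_cast
    field_simp
  have hfB : Bdd (4 * X) f := by
    constructor
    · intro y
      rw [hf]
      simp only
      rw [norm_mul, Complex.norm_real, Real.norm_of_nonneg (inv_nonneg.2 hb0.le), hF]
      unfold Pool.Agent.H9U.cutJ
      split_ifs with hy
      · have h7 := c6_JJ hy
        have h8 := hEb y h7.1 h7.2.1.le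
        rw [inv_mul_le_iff₀ hb0]
        linarith
      · rw [norm_zero, mul_zero]
        exact zero_le_one
    · intro y hy
      rw [hf, hF]
      simp only
      unfold Pool.Agent.H9U.cutJ
      rw [if_neg, mul_zero]
      intro hy2
      exact hy (c6_JJ hy2).2.2
  have hG1 : GG (4 * X) (s + 1) F = b ^ (2 ^ (s + 1)) * GG (4 * X) (s + 1) f := by
    rw [hFf]
    exact C1_smul _ _ _ _
  have hG2 : GG (4 * X) s f = (b⁻¹) ^ (2 ^ s) * GG (4 * X) s F := by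
    rw [hf]
    exact C1_smul _ _ _ _
  have hFs : ∀ y, y ∉ Ico (-((4 * X : ℕ) : ℤ)) ((4 * X : ℕ) : ℤ) → F y = 0 := by
    intro y hy
    rw [hFf]
    simp only
    rw [hfB.sup y hy, mul_zero]
  have hG2' : GG (4 * X) s f ≤ (X : ℝ) ^ (((s + 1 : ℕ) : ℝ) - κ1) := by
    rw [hG2]
    have h7 : 0 ≤ GG (4 * X) s F := GG_nonneg _ _ (by omega) _ hFs
    have h8 : (b⁻¹) ^ (2 ^ s) ≤ 1 := pow_le_one₀ (inv_nonneg.2 hb0.le) (inv_le_one_of_one_le₀ hb1)
    have h9 : (X : ℝ) ^ ((s : ℝ) + 1 - κ1) = (X : ℝ) ^ (((s + 1 : ℕ) : ℝ) - κ1) := by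
      congr 1
      push_cast
      ring
    rw [← h9]
    calc (b⁻¹) ^ (2 ^ s) * GG (4 * X) s F ≤ 1 * GG (4 * X) s F := mul_le_mul_of_nonneg_right h8 h7
      _ ≤ _ := by rw [one_mul]; exact h2
  -- the slices
  have hY : 4 * X ≤ B * X := Nat.mul_le_mul_right X (by omega)
  have hsl := C5_slice (4 * X) (B * X) s (by omega) hY f hfB.sup
  have hone : ∀ e ∈ bxS s (4 * (4 * X)), ‖∑ m ∈ Ico (-((4 * X : ℕ) : ℤ)) ((4 * X : ℕ) : ℤ),
      cj (s + 1) (f m) * Psi (B * X) (s + 1) (sl f e) m‖ ≤ (X : ℝ) ^ (2 - κ2) := by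
    intro e he
    have h7 : ∀ j, j < s + 1 → Bdd (B * X) (sl f e j) := by
      intro j hj
      have h8 := C5_bdd (4 * X) s j (by omega) f hfB e he
      have h9 : (8 * s + 1) * (4 * X) = B * X := by rw [hB]; ring
      rw [h9] at h8
      exact h8
    have h8 : GG (B * X) (s + 1 - 1) (sl f e 0) ≤ (X : ℝ) ^ (((s + 1 : ℕ) : ℝ) - κ1) := by
      rw [hss]
      have h9 : sl f e 0 = fun x => f (x + (-∑ i, e i)) := by
        funext x
        rw [C5_zero, sub_eq_add_neg]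
      have h10 := (h7 0 (by omega)).sup
      rw [h9] at h10 ⊢
      rw [GG_shift (4 * X) (B * X) s (-∑ i, e i) f hfB.sup h10]
      exact hG2'
    have h9 := h1 (sl f e) h7 h8
    rw [hf, hF]
    rw [hf, hF] at h9
    simp only
    rw [c6_inner X s (Er Q Q' X) (c6_Er Q Q' X) b⁻¹, norm_mul, Complex.norm_real,
      Real.norm_of_nonneg (inv_nonneg.2 hb0.le)]
    calc b⁻¹ * ‖_‖ ≤ 1 * ‖_‖ := mul_le_mul_of_nonneg_right (inv_le_one_of_one_le₀ hb1) (norm_nonneg _)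
      _ ≤ _ := by rw [one_mul]; exact h9
  have htot : GG (4 * X) (s + 1) f ≤ (32 * X) ^ s * (X : ℝ) ^ (2 - κ2) := by
    have h7 := GG_real (4 * X) (s + 1) (by omega) f hfB.sup
    rw [hsl] at h7
    have h8 : GG (4 * X) (s + 1) f ≤ ‖((GG (4 * X) (s + 1) f : ℝ) : ℂ)‖ := by
      rw [Complex.norm_real]
      exact le_abs_self _
    rw [← h7] at h8
    refine h8.trans ((norm_sum_le_of_le _ hone).trans ?_)
    rw [sum_const, nsmul_eq_mul]
    refine mul_le_mul_of_nonneg_right ?_ (Real.rpow_nonneg hXp.le _)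
    have h9 := bxS_card s (4 * (4 * X))
    refine h9.trans (le_of_eq ?_)
    push_cast
    congr 1
    ring
  rw [hG1]
  have hb2 : b ^ (2 ^ (s + 1)) = (X : ℝ) ^ (κ2 / 8) := by
    rw [hb, ← Real.rpow_natCast, ← Real.rpow_mul hXp.le]
    congr 1
    rw [hε]
    push_cast
    field_simp
  calc b ^ (2 ^ (s + 1)) * GG (4 * X) (s + 1) f ≤ (X : ℝ) ^ (κ2 / 8) * ((32 * X) ^ s * (X : ℝ) ^ (2 - κ2)) := by
        rw [hb2]
        exact mul_le_mul_of_nonneg_left htot (Real.rpow_nonneg hXp.le _)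
    _ = (32 ^ s) * ((X : ℝ) ^ (κ2 / 8) * (X : ℝ) ^ (s : ℝ) * (X : ℝ) ^ (2 - κ2)) := by
        rw [mul_pow, Real.rpow_natCast]
        ring
    _ ≤ (X : ℝ) ^ (3 * κ2 / 8) * ((X : ℝ) ^ (κ2 / 8) * (X : ℝ) ^ (s : ℝ) * (X : ℝ) ^ (2 - κ2)) := by
        refine mul_le_mul_of_nonneg_right h6 ?_
        positivity
    _ = (X : ℝ) ^ (((s + 1 : ℕ) : ℝ) + 1 - κ2 / 2) := by
        rw [← Real.rpow_add hXp, ← Real.rpow_add hXp, ← Real.rpow_add hXp]
        congr 1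
        push_cast
        ring

end Pool.Agent.HUK
end

-- from Lib.HUK.C8
section

/-!
# HUK, module C: all Gowers norms of the error are small
-/

namespace Pool.Agent.HUK

/-- Induction on `k`. -/
theorem C8_all (hI : Pool.Agent.H9S.INV) (hT : ∀ k, 3 ≤ k → TLP k) (hL : ∀ k, 3 ≤ k → LKP k) (k : ℕ) (hk : 2 ≤ k) :
    PK k := by
  induction k, hk using Nat.le_induction with
  | base => exact C7_two (C7_three hI)
  | succ k hk ih =>
    by_cases h : k = 2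
    · subst h
      exact C7_three hI
    · exact C6_close (k + 1) (by omega) (hT _ (by omega)) (hL _ (by omega)) (by simpa using ih)

end Pool.Agent.HUK
end

-- from Lib.HUK.D15
section

/-!
# Project HUK, chunk D15 (M/L): the generalised von Neumann inequality
-/

open Finset

namespace Pool.Agent.HUK

open Pool.Agent.H44W (ee)
open Pool.Agent.H9S (Bd)
open Pool.Agent.H9U (Sys JJ cutJ iv)
open Pool.Agent.Lib.H59P (bx)

theorem d15_smul {k d : ℕ} (S : Sys k d) (i0 : Fin k) (x : ℤ) (v : ℤ × (Fin d → ℤ)) :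
    S.lin i0 (x • v).1 (x • v).2 = x * S.lin i0 v.1 v.2 := by
  unfold Pool.Agent.H9U.Sys.lin
  rw [mul_add, Finset.mul_sum]
  simp only [Prod.smul_fst, Prod.smul_snd, Pi.smul_apply, smul_eq_mul]
  congr 1
  · ring
  · refine Finset.sum_congr rfl fun r _ => ?_
    ring

theorem d15_val {k d : ℕ} (S : Sys k d) (b : Fin k → ℤ) (i : Fin k) (z v : ℤ × (Fin d → ℤ)) :
    S.val b (z + v).1 (z + v).2 i = S.val b z.1 z.2 i + S.lin i v.1 v.2 := by
  unfold Pool.Agent.H9U.Sys.val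
  unfold Pool.Agent.H9U.Sys.lin
  simp only [Prod.fst_add, Prod.snd_add, Pi.add_apply, mul_add, Finset.sum_add_distrib]
  ring

/-- The bound for given differences. `D = bxS k H`. Proof. `f z = F0 (S.val b z.1 z.2 i0)` cut off to the box is `c`. By `D11_box` and `D11_comp`
(`φ z = S.val b z.1 z.2 i0`, `lam v = S.lin i0 v.1 v.2`; `val` at `z + v` is `val` at `z` plus `lin` at `v`) `DL (ofFn (j • v)) c z` is
`DL (ofFn (Λ j)) F0 (val z)` cut off to a box with bounds `p, q, p', q'` inside `[0, L) × [0, T)^d` (`lam (j i • v i) = j i * Λ`; `List.map_ofFn`). So the sum over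
`z` of the product set is `∑_{t ∈ piFinset (Ico (p' j) (q' j))} ∑_{n ∈ Ico p q} DV (Λ j) F0 (a n + c_t)` (sum over a product: `Finset.sum_product_right`; drop
the indicators), and `D12_prog` bounds each of the at most `T^d` inner sums. -/
theorem D15_one {k d : ℕ} (S : Sys k d) (i0 : Fin k) (Λ : ℤ) (v : Fin k → ℤ × (Fin d → ℤ))
    (hv : ∀ j, S.lin i0 (v j).1 (v j).2 = Λ) (b : Fin k → ℤ) (L T Y : ℕ) (F0 : ℤ → ℂ) (hF : Spt Y F0)
    (n : ℕ) (w θ : ℕ → ℝ) (hw : ∀ g : ℤ → ℂ, Spt Y g → ∀ c p q : ℤ, ‖∑ x ∈ Ico p q, g (S.a i0 * x + c)‖ ≤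
      ∑ l ∈ range n, w l * ‖∑ y ∈ Ico (-(Y : ℤ)) Y, g y * ee (θ l * y)‖) (hw0 : ∀ l, 0 ≤ w l) (j : Fin k → ℤ) :
    ‖∑ z ∈ (Ico (0 : ℤ) L) ×ˢ (Fintype.piFinset fun _ : Fin d => Ico (0 : ℤ) T), DL (List.ofFn fun i => j i • v i)
      (fun z => if z ∈ (Ico (0 : ℤ) L) ×ˢ (Fintype.piFinset fun _ : Fin d => Ico (0 : ℤ) T) then F0 (S.val b z.1 z.2 i0) else 0) z‖ ≤
      (T : ℝ) ^ d * ∑ l ∈ range n, w l * ‖∑ y ∈ Ico (-(Y : ℤ)) Y, DV (fun i => Λ * j i) F0 y * ee (θ l * y)‖ := by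
  classical
  set g : ℤ → ℂ := DV (fun i => Λ * j i) F0 with hg
  have hgS : Spt Y g := D0_SDV hF _
  set R : ℝ := ∑ l ∈ range n, w l * ‖∑ y ∈ Ico (-(Y : ℤ)) Y, g y * ee (θ l * y)‖ with hR
  have hR0 : 0 ≤ R := sum_nonneg fun l _ => mul_nonneg (hw0 l) (norm_nonneg _)
  obtain ⟨p, q, p', q', hp, hq, hpq, hDL⟩ := D11_box (List.ofFn fun i => j i • v i) 0 (L : ℤ) (fun _ => 0) (fun _ => (T : ℤ))
    (fun z : ℤ × (Fin d → ℤ) => F0 (S.val b z.1 z.2 i0))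
  have hfun : (fun z : ℤ × (Fin d → ℤ) => if z ∈ (Ico (0 : ℤ) L) ×ˢ (Fintype.piFinset fun _ : Fin d => Ico (0 : ℤ) T)
      then F0 (S.val b z.1 z.2 i0) else 0) =
      fun z => if InB 0 (L : ℤ) (fun _ => 0) (fun _ => (T : ℤ)) z then F0 (S.val b z.1 z.2 i0) else 0 := by
    funext z
    have h1 : z ∈ (Ico (0 : ℤ) L) ×ˢ (Fintype.piFinset fun _ : Fin d => Ico (0 : ℤ) T) ↔
        InB 0 (L : ℤ) (fun _ => 0) (fun _ => (T : ℤ)) z := by
      rw [Finset.mem_product, Fintype.mem_piFinset]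
      unfold InB
      simp only [Finset.mem_Ico]
    by_cases h : InB 0 (L : ℤ) (fun _ => 0) (fun _ => (T : ℤ)) z
    · rw [if_pos h, if_pos (h1.2 h)]
    · rw [if_neg h, if_neg (fun h' => h (h1.1 h'))]
  rw [hfun]
  have hmap : (List.ofFn fun i => j i • v i).map (fun v : ℤ × (Fin d → ℤ) => S.lin i0 v.1 v.2) =
      List.ofFn fun i => Λ * j i := by
    rw [List.map_ofFn]
    congr 1
    funext i
    simp only [Function.comp_apply]
    rw [d15_smul, hv, mul_comm]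
  have hcomp : ∀ z : ℤ × (Fin d → ℤ), DL (List.ofFn fun i => j i • v i)
      (fun z : ℤ × (Fin d → ℤ) => F0 (S.val b z.1 z.2 i0)) z = g (S.val b z.1 z.2 i0) := by
    intro z
    have h1 := D11_comp (fun z : ℤ × (Fin d → ℤ) => S.val b z.1 z.2 i0) (fun v => S.lin i0 v.1 v.2)
      (fun z v => d15_val S b i0 z v) F0 (List.ofFn fun i => j i • v i) z
    rw [hmap] at h1
    exact h1
  have hsum : ∑ z ∈ (Ico (0 : ℤ) L) ×ˢ (Fintype.piFinset fun _ : Fin d => Ico (0 : ℤ) T), DL (List.ofFn fun i => j i • v i)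
      (fun z => if InB 0 (L : ℤ) (fun _ => 0) (fun _ => (T : ℤ)) z then F0 (S.val b z.1 z.2 i0) else 0) z =
      ∑ t ∈ Fintype.piFinset fun _ : Fin d => Ico (0 : ℤ) T, ∑ m ∈ Ico (0 : ℤ) L,
        (if InB p q p' q' ((m, t) : ℤ × (Fin d → ℤ)) then g (S.val b m t i0) else 0) := by
    rw [← Finset.sum_product_right (f := fun z : ℤ × (Fin d → ℤ) => if InB p q p' q' z then g (S.val b z.1 z.2 i0) else 0)]
    refine Finset.sum_congr rfl fun z _ => ?_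
    rw [hDL z, hcomp z]
  rw [hsum]
  have hin : ∀ t ∈ Fintype.piFinset fun _ : Fin d => Ico (0 : ℤ) T, ‖∑ m ∈ Ico (0 : ℤ) L,
        (if InB p q p' q' ((m, t) : ℤ × (Fin d → ℤ)) then g (S.val b m t i0) else 0)‖ ≤ R := by
    intro t _
    by_cases ht : ∀ r, p' r ≤ t r ∧ t r < q' r
    · have h1 : ∑ m ∈ Ico (0 : ℤ) L, (if InB p q p' q' ((m, t) : ℤ × (Fin d → ℤ)) then g (S.val b m t i0) else 0) =
          ∑ m ∈ Ico p q, g (S.a i0 * m + (∑ r, S.c i0 r * t r + b i0)) := by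
        symm
        have h2 : ∀ m ∈ Ico p q, g (S.a i0 * m + (∑ r, S.c i0 r * t r + b i0)) =
            (if InB p q p' q' ((m, t) : ℤ × (Fin d → ℤ)) then g (S.val b m t i0) else 0) := by
          intro m hm
          rw [Finset.mem_Ico] at hm
          have h3 : InB p q p' q' ((m, t) : ℤ × (Fin d → ℤ)) := ⟨hm, ht⟩
          rw [if_pos h3]
          congr 1
          unfold Pool.Agent.H9U.Sys.val Pool.Agent.H9U.Sys.lin
          ring
        rw [Finset.sum_congr rfl h2]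
        refine Finset.sum_subset (fun m hm => ?_) (fun m _ hm => ?_)
        · rw [Finset.mem_Ico] at hm ⊢
          omega
        · rw [if_neg]
          intro h3
          apply hm
          rw [Finset.mem_Ico]
          exact h3.1
      rw [h1]
      exact hw g hgS _ _ _
    · rw [Finset.sum_eq_zero, norm_zero]
      · exact hR0
      · intro m _
        rw [if_neg]
        intro h3
        exact ht h3.2
  refine (norm_sum_le_of_le _ hin).trans ?_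
  rw [Finset.sum_const, nsmul_eq_mul, Fintype.card_piFinset]
  simp only [Int.card_Ico, sub_zero, Int.toNat_natCast, Finset.prod_const, Finset.card_univ, Fintype.card_fin]
  push_cast
  exact le_refl _

theorem d15_large (κ : ℝ) (hκ : 0 < κ) (A : ℝ) : ∃ X0 : ℕ, ∀ X : ℕ, X0 ≤ X → A ≤ (X : ℝ) ^ κ := by
  have h1 : Filter.Tendsto (fun X : ℕ => (X : ℝ) ^ κ) Filter.atTop Filter.atTop :=
    (tendsto_rpow_atTop hκ).comp tendsto_natCast_atTop_atTop
  obtain ⟨X0, hX0⟩ := Filter.eventually_atTop.1 (h1.eventually_ge_atTop A)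
  exact ⟨X0, hX0⟩

/-- logarithms against powers -/
theorem d15_log (κ : ℝ) (hκ : 0 < κ) (A : ℝ) (hA : 0 ≤ A) :
    ∃ X0 : ℕ, 1 ≤ X0 ∧ ∀ X : ℕ, X0 ≤ X → A * (1 + Real.log (8 * X)) ≤ (X : ℝ) ^ κ := by
  obtain ⟨X1, hX1⟩ := d15_large (κ / 2) (by positivity) (A * (1 + 8 ^ (κ / 2) / (κ / 2)))
  refine ⟨X1 + 1, by omega, fun X hX => ?_⟩
  have hX0 : (1 : ℝ) ≤ X := by exact_mod_cast (by omega : 1 ≤ X)
  have hXp : (0 : ℝ) < X := by linarith
  have h1 := Real.log_le_rpow_div (x := 8 * (X : ℝ)) (by positivity) (ε := κ / 2) (by positivity)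
  rw [Real.mul_rpow (by norm_num) hXp.le] at h1
  have h2 : 1 ≤ (X : ℝ) ^ (κ / 2) := Real.one_le_rpow hX0 (by positivity)
  have h3 : 1 + Real.log (8 * X) ≤ (1 + 8 ^ (κ / 2) / (κ / 2)) * (X : ℝ) ^ (κ / 2) := by
    calc 1 + Real.log (8 * X) ≤ 1 + 8 ^ (κ / 2) * (X : ℝ) ^ (κ / 2) / (κ / 2) := by linarith
      _ ≤ (X : ℝ) ^ (κ / 2) + 8 ^ (κ / 2) * (X : ℝ) ^ (κ / 2) / (κ / 2) := by linarith
      _ = _ := by ring
  calc A * (1 + Real.log (8 * X)) ≤ A * ((1 + 8 ^ (κ / 2) / (κ / 2)) * (X : ℝ) ^ (κ / 2)) :=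
        mul_le_mul_of_nonneg_left h3 hA
    _ = (A * (1 + 8 ^ (κ / 2) / (κ / 2))) * (X : ℝ) ^ (κ / 2) := by ring
    _ ≤ (X : ℝ) ^ (κ / 2) * (X : ℝ) ^ (κ / 2) := mul_le_mul_of_nonneg_right (hX1 X (by omega)) (by positivity)
    _ = (X : ℝ) ^ κ := by
        rw [← Real.rpow_add hXp]
        congr 1
        ring

/-- **The generalised von Neumann inequality.** Proof. `D14_vec`, `D12_prog` (`a = S.a i0`, `Y = 4X`), `F0 = cutJ X F` (supported in `[-4X, 4X)`). The sum is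
the sum over `z ∈ B = [0,L) × [0,T)^d` (`u6_box` in `H9U/U6.lean`; `cutJ X F = F` on the values) of `∏_i g i z * c z`, `g j z = G j (val z j)` for `j ≠ i0`,
`g i0 z = W (fun r => (z.2 r).toNat)`, `c z = F0 (val z i0)` cut off to `B` (`g i z + v i`-invariance: `val (z + v_j) j = val z j + lin j v_j = val z j`,
`(z + v_{i0}).2 = z.2`). `E1_elim` with `H = X`, `r = k`, `B' = [-C X, C X]^(d+1)` (`C` = `C0` plus the sum of the absolute values of all coordinates of the `v_j`,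
plus `1`), `N = (3 C X)^(d+1)`. With `D15_one`, `D13_abs` for every `θ l` and `T ≤ C0 X`:
`(‖S‖/N)^(2^k) ≤ 2^(2^k)/X^k · (C0 X)^d · 4 (1 + log (8X)) · ((2X)^k 2^k X^(k+2-κ))^(1/2) / N ≤ C' (1 + log (8X)) X^(-κ/2) ≤ X^(-κ/4)` for `X` large, so
`‖S‖ ≤ N X^(-κ/2^(k+2)) ≤ X^(1 + d - κ/2^(k+3))` for `X` large. (Remember: `‖g i z‖ ≤ 1`; `Bd f` means `‖f m‖ ≤ 1` for all `m`.) -/
theorem D15_vN {k d : ℕ} (S : Sys k d) (hS : SysFin S) (i0 : Fin k) (κ : ℝ) (hκ : 0 < κ) (C0 : ℕ) :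
    ∃ X0 : ℕ, ∀ X : ℕ, X0 ≤ X → ∀ F : ℤ → ℂ, GG (4 * X) (k + 1) (cutJ X F) ≤ (X : ℝ) ^ ((k : ℝ) + 2 - κ) →
    ∀ b : Fin k → ℤ, ∀ L T : ℕ, L ≤ C0 * X → T ≤ C0 * X →
    (∀ n ∈ range L, ∀ t ∈ bx d T, S.val b n (iv t) i0 ∈ JJ X) →
    ∀ (G : Fin k → ℤ → ℂ) (W : (Fin d → ℕ) → ℂ), (∀ i, Bd (G i)) → (∀ t, ‖W t‖ ≤ 1) →
    ‖∑ t ∈ bx d T, W t * ∑ n ∈ range L, (∏ i ∈ univ.erase i0, G i (S.val b n (iv t) i)) * F (S.val b n (iv t) i0)‖ ≤
      (X : ℝ) ^ (1 + d - κ / 2 ^ (k + 3)) := by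
  classical
  obtain ⟨Λ, hΛ, v, hv1, hv2, hv3⟩ := D14_vec S hS i0
  have ha0 : S.a i0 ≠ 0 := hS.1 i0
  have hk1 : 1 ≤ k := by
    have := i0.2
    omega
  -- the size of the box
  obtain ⟨C, hC⟩ : ∃ C : ℕ, C = C0 + ∑ i, ((v i).1.natAbs + ∑ r, ((v i).2 r).natAbs) + 1 := ⟨_, rfl⟩
  have hC1 : 1 ≤ C := by omega
  have hCC0 : C0 ≤ C := by omega
  have hCr1 : (1 : ℝ) ≤ C := by exact_mod_cast hC1
  have hCfst : ∀ i, C0 + (v i).1.natAbs + 1 ≤ C := by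
    intro i
    have h1 : (v i).1.natAbs + ∑ r, ((v i).2 r).natAbs ≤ ∑ i, ((v i).1.natAbs + ∑ r, ((v i).2 r).natAbs) :=
      Finset.single_le_sum (f := fun i => (v i).1.natAbs + ∑ r, ((v i).2 r).natAbs) (fun _ _ => Nat.zero_le _) (Finset.mem_univ i)
    omega
  have hCsnd : ∀ i r, C0 + ((v i).2 r).natAbs + 1 ≤ C := by
    intro i r
    have h1 : (v i).1.natAbs + ∑ r, ((v i).2 r).natAbs ≤ ∑ i, ((v i).1.natAbs + ∑ r, ((v i).2 r).natAbs) :=
      Finset.single_le_sum (f := fun i => (v i).1.natAbs + ∑ r, ((v i).2 r).natAbs) (fun _ _ => Nat.zero_le _) (Finset.mem_univ i)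
    have h2 : ((v i).2 r).natAbs ≤ ∑ r, ((v i).2 r).natAbs :=
      Finset.single_le_sum (f := fun r => ((v i).2 r).natAbs) (fun _ _ => Nat.zero_le _) (Finset.mem_univ r)
    omega
  obtain ⟨X1, hX1, hX1'⟩ := d15_log (κ / 4) (by positivity) (2 ^ (2 ^ k) * 2 ^ k * 4) (by positivity)
  obtain ⟨X2, hX2⟩ := d15_large (κ / 2 ^ (k + 3)) (by positivity) ((3 * (C : ℝ)) ^ (d + 1))
  refine ⟨X1 + X2, fun X hX F hGG b L T hL hT hJ G W hG hW => ?_⟩
  have hX1n : 1 ≤ X := by omega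
  have hXr1 : (1 : ℝ) ≤ X := by exact_mod_cast hX1n
  have hXr : (0 : ℝ) < X := by linarith
  set F0 : ℤ → ℂ := cutJ X F with hF0
  have hSpt : Spt (4 * X) F0 := by
    intro y hy
    rw [hF0]
    unfold Pool.Agent.H9U.cutJ
    rw [if_neg]
    intro h1
    apply hy
    unfold Pool.Agent.H9U.JJ at h1
    rw [Finset.mem_Ico] at h1 ⊢
    push_cast
    constructor
    · omega
    · omega
  obtain ⟨n, w, θ, hw0, hwsum, hw⟩ := D12_prog (S.a i0) ha0 (4 * X) (by omega)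
  -- the box, the functions
  set B : Finset (ℤ × (Fin d → ℤ)) := (Ico (0 : ℤ) L) ×ˢ (Fintype.piFinset fun _ : Fin d => Ico (0 : ℤ) T) with hB
  set B' : Finset (ℤ × (Fin d → ℤ)) := (Icc (-((C : ℤ) * X)) ((C : ℤ) * X)) ×ˢ
    (Fintype.piFinset fun _ : Fin d => Icc (-((C : ℤ) * X)) ((C : ℤ) * X)) with hB'
  set g : Fin k → ℤ × (Fin d → ℤ) → ℂ := fun i z => if i = i0 then W (fun r => (z.2 r).toNat) else G i (S.val b z.1 z.2 i) with hg
  set c : ℤ × (Fin d → ℤ) → ℂ := fun z => if z ∈ B then F0 (S.val b z.1 z.2 i0) else 0 with hc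
  set N : ℝ := (3 * (C : ℝ) * X) ^ (d + 1) with hN
  have hN0 : 0 < N := by positivity
  have hcard : (B'.card : ℝ) ≤ N := by
    rw [hB', Finset.card_product, Fintype.card_piFinset]
    simp only [Int.card_Icc, Finset.prod_const, Finset.card_univ, Fintype.card_fin]
    have h9 : ((C : ℤ) * X + 1 - -((C : ℤ) * X)).toNat = 2 * C * X + 1 := by
      have : (C : ℤ) * X + 1 - -((C : ℤ) * X) = ((2 * C * X + 1 : ℕ) : ℤ) := by
        push_cast
        ring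
      rw [this, Int.toNat_natCast]
    rw [h9]
    have h10 : 1 ≤ C * X := Nat.one_le_iff_ne_zero.2 (Nat.mul_ne_zero (by omega) (by omega))
    have h11 : 2 * C * X + 1 ≤ 3 * C * X := by nlinarith
    have h12 : (2 * C * X + 1) * (2 * C * X + 1) ^ d ≤ (3 * C * X) ^ (d + 1) := by
      rw [pow_succ, mul_comm]
      exact Nat.mul_le_mul (Nat.pow_le_pow_left h11 d) h11
    rw [hN]
    exact_mod_cast h12
  -- the sum
  have hS1 : ∑ t ∈ bx d T, W t * ∑ n ∈ range L, (∏ i ∈ univ.erase i0, G i (S.val b n (iv t) i)) * F (S.val b n (iv t) i0) =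
      ∑ z ∈ B, (∏ i, g i z) * c z := by
    rw [hB, ← Pool.Agent.H9U.u6_box]
    refine Finset.sum_congr rfl fun t ht => ?_
    rw [Finset.mul_sum]
    refine Finset.sum_congr rfl fun m hm => ?_
    have hmB : (((m : ℤ), iv t) : ℤ × (Fin d → ℤ)) ∈ B := by
      rw [hB, Finset.mem_product, Fintype.mem_piFinset]
      have hm' := Finset.mem_range.1 hm
      refine ⟨?_, fun r => ?_⟩
      · rw [Finset.mem_Ico]
        exact ⟨Int.natCast_nonneg m, Int.ofNat_lt.2 hm'⟩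
      · have ht' := ht
        rw [bx, Fintype.mem_piFinset] at ht'
        have := Finset.mem_range.1 (ht' r)
        rw [Finset.mem_Ico]
        simp only [iv]
        omega
    have h1 : ∏ i, g i (((m : ℤ), iv t) : ℤ × (Fin d → ℤ)) =
        W t * ∏ i ∈ univ.erase i0, G i (S.val b m (iv t) i) := by
      rw [← Finset.mul_prod_erase Finset.univ _ (Finset.mem_univ i0)]
      congr 1
      · simp only [hg, if_true]
        congr 1
      · refine Finset.prod_congr rfl fun i hi => ?_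
        simp only [hg]
        rw [if_neg (Finset.ne_of_mem_erase hi)]
    have h2 : c (((m : ℤ), iv t) : ℤ × (Fin d → ℤ)) = F (S.val b m (iv t) i0) := by
      simp only [hc]
      rw [if_pos hmB, hF0]
      unfold Pool.Agent.H9U.cutJ
      rw [if_pos (hJ m hm t ht)]
    rw [h1, h2]
    ring
  have hgle : ∀ i z, ‖g i z‖ ≤ 1 := by
    intro i z
    simp only [hg]
    split_ifs
    · exact hW _
    · exact hG i _
  have hinv : ∀ i z, g i (z + v i) = g i z := by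
    intro i z
    simp only [hg]
    by_cases hi : i = i0
    · rw [if_pos hi, if_pos hi, hi]
      congr 1
      funext r
      rw [Prod.snd_add, hv3, add_zero]
    · rw [if_neg hi, if_neg hi, d15_val, hv2 i hi, add_zero]
  have hc0 : ∀ z, z ∉ B → c z = 0 := by
    intro z hz
    simp only [hc]
    rw [if_neg hz]
  have hbox : ∀ i z, ∀ h : ℕ, h < X → z + h • v i ∈ B → z ∈ B' := by
    intro i z h hh hz
    rw [hB, Finset.mem_product, Finset.mem_Ico, Fintype.mem_piFinset] at hz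
    obtain ⟨⟨h1, h2⟩, h3⟩ := hz
    have hLz : (L : ℤ) ≤ C0 * X := by exact_mod_cast hL
    have hTz : (T : ℤ) ≤ C0 * X := by exact_mod_cast hT
    have hXz : (1 : ℤ) ≤ X := by exact_mod_cast hX1n
    have haux : ∀ s : ℤ, C0 + s.natAbs + 1 ≤ C → |(h : ℤ) * s| + C0 * X + 1 ≤ C * X := by
      intro s hs
      have e1 := Pool.Agent.H9U.u6_abs hh s s.natAbs le_rfl
      rw [mul_comm] at e1
      have e2 : ((C0 + s.natAbs + 1 : ℕ) : ℤ) * X ≤ (C : ℤ) * X := mul_le_mul_of_nonneg_right (by exact_mod_cast hs) (by positivity)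
      push_cast at e2 e1
      nlinarith
    rw [hB', Finset.mem_product, Finset.mem_Icc, Fintype.mem_piFinset]
    have f1 : (z + h • v i).1 = z.1 + h * (v i).1 := by
      rw [Prod.fst_add, Prod.smul_fst, nsmul_eq_mul]
    have f2 : ∀ r, (z + h • v i).2 r = z.2 r + h * (v i).2 r := by
      intro r
      rw [Prod.snd_add, Pi.add_apply, Prod.smul_snd, Pi.smul_apply, nsmul_eq_mul]
    rw [f1] at h1 h2
    refine ⟨?_, fun r => ?_⟩
    · have e1 := haux _ (hCfst i)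
      have e2 := abs_le.1 (le_refl |(h : ℤ) * (v i).1|)
      have e3 : (0 : ℤ) ≤ (C0 : ℤ) * X := by positivity
      constructor
      · linarith [e2.1, e2.2]
      · linarith [e2.1, e2.2]
    · have h4 := Finset.mem_Ico.1 (h3 r)
      rw [f2] at h4
      have e1 := haux _ (hCsnd i r)
      have e2 := abs_le.1 (le_refl |(h : ℤ) * (v i).2 r|)
      have e3 : (0 : ℤ) ≤ (C0 : ℤ) * X := by positivity
      rw [Finset.mem_Icc]
      constructor
      · linarith [e2.1, e2.2, h4.1, h4.2]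
      · linarith [e2.1, e2.2, h4.1, h4.2]
  have hE := E1_elim B B' N hcard hN0 X (by omega) k v g c hgle hinv hc0 hbox
  rw [hS1]
  set Z : ℝ := ‖∑ z ∈ B, (∏ i, g i z) * c z‖ with hZ
  have hZ0 : 0 ≤ Z := norm_nonneg _
  -- the sum over the differences
  have hone : ∀ j ∈ bxS k X, ‖∑ z ∈ B, DL (List.ofFn fun i => j i • v i) c z‖ / N ≤
      ((T : ℝ) ^ d * ∑ l ∈ range n, w l * ‖∑ y ∈ Ico (-((4 * X : ℕ) : ℤ)) ((4 * X : ℕ) : ℤ), DV (fun i => Λ * j i) F0 y * ee (θ l * y)‖) / N := by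
    intro j _
    have h1 := D15_one S i0 Λ v hv1 b L T (4 * X) F0 hSpt n w θ hw hw0 j
    exact div_le_div_of_nonneg_right h1 hN0.le
  have hT0 : (0 : ℝ) ≤ (T : ℝ) ^ d := by positivity
  have hGG0 : (X : ℝ) ^ ((k : ℝ) + 2 - κ) = (X : ℝ) ^ k * ((X : ℝ) ^ (1 - κ / 2)) ^ 2 := by
    rw [← Real.rpow_natCast (X : ℝ) k, ← Real.rpow_natCast ((X : ℝ) ^ (1 - κ / 2)) 2, ← Real.rpow_mul hXr.le, ← Real.rpow_add hXr]
    congr 1
    push_cast
    ring
  have habs : ∀ l, ∑ j ∈ bxS k X, ‖∑ y ∈ Ico (-((4 * X : ℕ) : ℤ)) ((4 * X : ℕ) : ℤ), DV (fun i => Λ * j i) F0 y * ee (θ l * y)‖ ≤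
      2 ^ k * (X : ℝ) ^ k * (X : ℝ) ^ (1 - κ / 2) := by
    intro l
    have h1 := D13_abs (4 * X) k X hk1 (by omega) Λ hΛ F0 hSpt (θ l)
    have h2 : (2 * (X : ℝ)) ^ k * (2 ^ k * GG (4 * X) (k + 1) F0) ≤ (2 ^ k * (X : ℝ) ^ k * (X : ℝ) ^ (1 - κ / 2)) ^ 2 := by
      calc (2 * (X : ℝ)) ^ k * (2 ^ k * GG (4 * X) (k + 1) F0) ≤
            (2 * (X : ℝ)) ^ k * (2 ^ k * ((X : ℝ) ^ k * ((X : ℝ) ^ (1 - κ / 2)) ^ 2)) := by
            refine mul_le_mul_of_nonneg_left (mul_le_mul_of_nonneg_left ?_ (by positivity)) (by positivity)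
            rw [← hGG0]
            exact hGG
        _ = _ := by
            rw [mul_pow]
            ring
    exact le_of_sq_le_sq (h1.trans h2) (by positivity)
  have hsumj : ∑ j ∈ bxS k X, ‖∑ z ∈ B, DL (List.ofFn fun i => j i • v i) c z‖ / N ≤
      ((T : ℝ) ^ d * (4 * (1 + Real.log (8 * X)) * (2 ^ k * (X : ℝ) ^ k * (X : ℝ) ^ (1 - κ / 2)))) / N := by
    refine (Finset.sum_le_sum hone).trans ?_
    rw [← Finset.sum_div, ← Finset.mul_sum]
    refine div_le_div_of_nonneg_right (mul_le_mul_of_nonneg_left ?_ hT0) hN0.le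
    rw [Finset.sum_comm]
    have h1 : ∀ l ∈ range n, ∑ j ∈ bxS k X, w l * ‖∑ y ∈ Ico (-((4 * X : ℕ) : ℤ)) ((4 * X : ℕ) : ℤ), DV (fun i => Λ * j i) F0 y * ee (θ l * y)‖ ≤
        w l * (2 ^ k * (X : ℝ) ^ k * (X : ℝ) ^ (1 - κ / 2)) := by
      intro l _
      rw [← Finset.mul_sum]
      exact mul_le_mul_of_nonneg_left (habs l) (hw0 l)
    refine (Finset.sum_le_sum h1).trans ?_
    rw [← Finset.sum_mul]
    refine mul_le_mul_of_nonneg_right (hwsum.trans (le_of_eq ?_)) (by positivity)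
    congr 3
    push_cast
    ring
  have hTle : (T : ℝ) ^ d ≤ (C : ℝ) ^ d * (X : ℝ) ^ d := by
    rw [← mul_pow]
    refine pow_le_pow_left₀ (by positivity) ?_ d
    have h1 : T ≤ C * X := hT.trans (Nat.mul_le_mul_right X hCC0)
    exact_mod_cast h1
  -- the main inequality
  have hlog0 : 0 ≤ 1 + Real.log (8 * X) := by
    have : 0 ≤ Real.log (8 * X) := Real.log_nonneg (by linarith)
    linarith
  have hmain : (Z / N) ^ (2 ^ k) ≤ (X : ℝ) ^ (-(κ / 4)) := by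
    refine hE.trans ?_
    refine (mul_le_mul_of_nonneg_left hsumj (by positivity)).trans ?_
    have h1 := hX1' X (by omega)
    have hXk : (0 : ℝ) < (X : ℝ) ^ k := by positivity
    have e1 : 2 ^ (2 ^ k) / (X : ℝ) ^ k * (((T : ℝ) ^ d * (4 * (1 + Real.log (8 * X)) * (2 ^ k * (X : ℝ) ^ k * (X : ℝ) ^ (1 - κ / 2)))) / N) =
        (2 ^ (2 ^ k) * 2 ^ k * 4 * (1 + Real.log (8 * X))) * ((T : ℝ) ^ d * (X : ℝ) ^ (1 - κ / 2) / N) := by
      field_simp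
    rw [e1]
    have e2 : (T : ℝ) ^ d * (X : ℝ) ^ (1 - κ / 2) / N ≤ (X : ℝ) ^ (-(κ / 2)) := by
      rw [div_le_iff₀ hN0, hN]
      have e3 : (X : ℝ) ^ (-(κ / 2)) * (3 * (C : ℝ) * X) ^ (d + 1) = (3 * (C : ℝ)) ^ (d + 1) * ((X : ℝ) ^ d * (X : ℝ) ^ (1 - κ / 2)) := by
        rw [mul_pow (3 * (C : ℝ)) (X : ℝ) (d + 1), pow_succ (X : ℝ) d]
        have e4 : (X : ℝ) ^ (1 - κ / 2) = X * (X : ℝ) ^ (-(κ / 2)) := by
          rw [sub_eq_add_neg, Real.rpow_add hXr, Real.rpow_one]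
        rw [e4]
        ring
      rw [e3]
      have e5 : (T : ℝ) ^ d ≤ (3 * (C : ℝ)) ^ (d + 1) * (X : ℝ) ^ d := by
        refine hTle.trans (mul_le_mul_of_nonneg_right ?_ (by positivity))
        calc (C : ℝ) ^ d ≤ (3 * (C : ℝ)) ^ d := pow_le_pow_left₀ (by positivity) (by linarith) d
          _ ≤ (3 * (C : ℝ)) ^ (d + 1) := pow_le_pow_right₀ (by linarith) (by omega)
      calc (T : ℝ) ^ d * (X : ℝ) ^ (1 - κ / 2) ≤ ((3 * (C : ℝ)) ^ (d + 1) * (X : ℝ) ^ d) * (X : ℝ) ^ (1 - κ / 2) :=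
            mul_le_mul_of_nonneg_right e5 (by positivity)
        _ = _ := by ring
    calc (2 ^ (2 ^ k) * 2 ^ k * 4 * (1 + Real.log (8 * X))) * ((T : ℝ) ^ d * (X : ℝ) ^ (1 - κ / 2) / N) ≤
          (X : ℝ) ^ (κ / 4) * (X : ℝ) ^ (-(κ / 2)) := mul_le_mul h1 e2 (by positivity) (by positivity)
      _ = (X : ℝ) ^ (-(κ / 4)) := by
          rw [← Real.rpow_add hXr]
          congr 1
          ring
  have hroot : Z / N ≤ (X : ℝ) ^ (-(κ / 2 ^ (k + 2))) := by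
    have h1 : ((X : ℝ) ^ (-(κ / 2 ^ (k + 2)))) ^ (2 ^ k) = (X : ℝ) ^ (-(κ / 4)) := by
      rw [← Real.rpow_natCast, ← Real.rpow_mul hXr.le]
      congr 1
      push_cast
      rw [pow_add]
      field_simp
      norm_num
    rw [← h1] at hmain
    exact le_of_pow_le_pow_left₀ (by positivity) (by positivity) hmain
  rw [div_le_iff₀ hN0] at hroot
  refine hroot.trans ?_
  have h2 := hX2 X (by omega)
  have e1 : (X : ℝ) ^ (-(κ / 2 ^ (k + 2))) * N = (3 * (C : ℝ)) ^ (d + 1) * ((X : ℝ) ^ (-(κ / 2 ^ (k + 2))) * (X : ℝ) ^ (d + 1)) := by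
    rw [hN, mul_pow (3 * (C : ℝ)) (X : ℝ) (d + 1)]
    ring
  rw [e1]
  calc (3 * (C : ℝ)) ^ (d + 1) * ((X : ℝ) ^ (-(κ / 2 ^ (k + 2))) * (X : ℝ) ^ (d + 1)) ≤
        (X : ℝ) ^ (κ / 2 ^ (k + 3)) * ((X : ℝ) ^ (-(κ / 2 ^ (k + 2))) * (X : ℝ) ^ (d + 1)) :=
        mul_le_mul_of_nonneg_right h2 (by positivity)
    _ = (X : ℝ) ^ (1 + d - κ / 2 ^ (k + 3)) := by
        rw [← Real.rpow_natCast (X : ℝ) (d + 1), ← Real.rpow_add hXr, ← Real.rpow_add hXr]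
        congr 1
        push_cast
        rw [pow_succ (2 : ℝ) (k + 2)]
        field_simp
        ring

end Pool.Agent.HUK
end

-- from Lib.HUK.D2
section

/-!
# Project HUK, chunk D2 (M): replacing the primes by their projections, for almost all `t`
-/

open Finset

namespace Pool.Agent.HUK

open Pool.Agent.H9S (Bd)
open Pool.Agent.Lib.H68T (lp Lk)
open Pool.Agent.Lib.H59P (bx)
open Pool.Agent.H9U (Sys JJ cutJ Er Rgm iv)

/-- Proof. Copy of `U7_tel` (`H9U/U7.lean`; `u7_abs`, `u7_one`, `u7_large` from there): `K1` and the exponent `κ0` from `PK (k + 1)` instead of `U0_unif`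
(`GG (4X) (k+1) (cutJ X (Er Q Q' X)) ≤ X^((k+1) + 1 - κ0)`), `D15_vN` instead of `U6_vN`, with the exponent `κ1 = κ0/2^(k+3)` in the place of `κ0/40`:
`ε = κ1/(25 (k+1))`, `κ = κ1/2` (or any other choice). -/
theorem D2_tel {k d : ℕ} (S : Sys k d) (hS : SysFin S) (hP : PK (k + 1)) : TelP S := by
  obtain ⟨K1, hK1, hU⟩ := hP
  obtain ⟨K2, hK2, hS2⟩ := Pool.Agent.H9U.U0_size
  refine ⟨max K1 K2, le_trans hK1 (le_max_left _ _), ?_⟩
  intro Cr θ hCr hθ C0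
  obtain ⟨κ0, hκ0, hκ01, X1, hX1⟩ := hU Cr θ hCr hθ
  have hk0 : (0:ℝ) < (k:ℝ) + 1 := by positivity
  obtain ⟨κ1, hκ1d⟩ : ∃ κ1 : ℝ, κ1 = κ0 / 2 ^ (k + 3) := ⟨_, rfl⟩
  have hκ1 : 0 < κ1 := by rw [hκ1d]; positivity
  have hκ11 : κ1 ≤ 1 := by
    rw [hκ1d, div_le_one (by positivity)]
    exact le_trans hκ01 (one_le_pow₀ (by norm_num))
  obtain ⟨ε, hεd⟩ : ∃ ε : ℝ, ε = κ1 / (25 * ((k:ℝ) + 1)) := ⟨_, rfl⟩
  have hε : 0 < ε := by rw [hεd]; positivity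
  obtain ⟨X2, hX2⟩ := hS2 ε hε
  obtain ⟨X3, hX3⟩ := Pool.Agent.H9U.U0_lp ε hε
  choose X4 hX4 using fun j : Fin k => D15_vN S hS j κ0 hκ0 C0
  obtain ⟨X5, hX5⟩ := Pool.Agent.H9U.u7_large ((k:ℝ) * (C0:ℝ) ^ ((2:ℝ) + d)) (κ1 * (4 / 25)) (by positivity)
  refine ⟨κ1 * (4 / 5), by positivity, max (max (max X1 X2) (max X3 X5)) (max 1 (∑ j, X4 j)), ?_⟩
  intro Q Q' X hX Xs hXs hR b L T hL hT hval
  have hXX1 : X1 ≤ X := le_trans (le_trans (le_trans (le_max_left _ _) (le_max_left _ _)) (le_max_left _ _)) hX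
  have hXX2 : X2 ≤ X := le_trans (le_trans (le_trans (le_max_right _ _) (le_max_left _ _)) (le_max_left _ _)) hX
  have hXX3 : X3 ≤ X := le_trans (le_trans (le_trans (le_max_left _ _) (le_max_right _ _)) (le_max_left _ _)) hX
  have hXX5 : X5 ≤ X := le_trans (le_trans (le_trans (le_max_right _ _) (le_max_right _ _)) (le_max_left _ _)) hX
  have hXone : 1 ≤ X := le_trans (le_trans (le_max_left _ _) (le_max_right _ _)) hX
  have hXX4 : ∀ j, X4 j ≤ X := fun j =>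
    le_trans (Finset.single_le_sum (f := X4) (fun _ _ => Nat.zero_le _) (Finset.mem_univ j))
      (le_trans (le_trans (le_max_right _ _) (le_max_right _ _)) hX)
  have hX1r : (1:ℝ) ≤ (X:ℝ) := by exact_mod_cast hXone
  have hX0r : (0:ℝ) < (X:ℝ) := by linarith
  -- reduction to the terms
  have hred : ∑ t ∈ bx d T, |∑ n ∈ range L, (∏ i, lp (S.val b n (iv t) i) -
      ∏ i, Lk Q' (Xs i / Q ^ 2) (S.val b n (iv t) i))| ≤
      ∑ j : Fin k, ∑ t ∈ bx d T, |∑ n ∈ range L, (∏ i ∈ univ.erase j,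
        (fun i (m : ℤ) => if i < j then Lk Q' (Xs i / Q ^ 2) m else lp m) i (S.val b n (iv t) i)) *
        (fun m : ℤ => lp m - Lk Q' (Xs j / Q ^ 2) m) (S.val b n (iv t) j)| := by
    rw [Finset.sum_comm]
    refine Finset.sum_le_sum fun t _ => ?_
    refine le_trans (le_of_eq (congrArg abs ?_)) (Finset.abs_sum_le_sum_abs _ _)
    rw [Finset.sum_comm]
    refine Finset.sum_congr rfl fun n _ => ?_
    rw [Pool.Agent.Lib.H59P.S3]
    refine Finset.sum_congr rfl fun j _ => ?_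
    rw [← Finset.prod_erase_mul univ _ (Finset.mem_univ j)]
    dsimp only
    rw [if_neg (lt_irrefl j), if_pos rfl]
    refine congrArg (fun z => z * _) (Finset.prod_congr rfl fun i hi => ?_)
    rw [if_neg (Finset.ne_of_mem_erase hi)]
  refine le_trans hred ?_
  have hterm : ∀ j : Fin k, ∑ t ∈ bx d T, |∑ n ∈ range L, (∏ i ∈ univ.erase j,
        (fun i (m : ℤ) => if i < j then Lk Q' (Xs i / Q ^ 2) m else lp m) i (S.val b n (iv t) i)) *
        (fun m : ℤ => lp m - Lk Q' (Xs j / Q ^ 2) m) (S.val b n (iv t) j)| ≤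
        (C0:ℝ) ^ ((2:ℝ) + d) * (X:ℝ) ^ (1 + d - κ1 * (24/25)) := by
    intro j
    have hC0 : 1 ≤ C0 := by
      rcases Nat.eq_zero_or_pos C0 with h | h
      · have := hXs j
        rw [h] at this
        omega
      · exact h
    have hC0r : (1:ℝ) ≤ (C0:ℝ) := by exact_mod_cast hC0
    have hCX : (1:ℝ) ≤ (C0:ℝ) * X := by nlinarith
    have hXi : ∀ i, (1:ℝ) ≤ (Xs i : ℝ) ∧ (Xs i : ℝ) ≤ (C0:ℝ) * X := fun i =>
      ⟨by exact_mod_cast le_trans hXone (hXs i).1, by exact_mod_cast (hXs i).2⟩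
    have hQ' : 1 ≤ Q' := by
      have h1 := (hR j).low
      have h2 : (1:ℝ) ≤ (Xs j : ℝ) ^ θ := Real.one_le_rpow (hXi j).1 hθ.le
      exact_mod_cast le_trans h2 h1
    have hM : (0:ℝ) < ((C0:ℝ) * X) ^ ε := Real.rpow_pos_of_pos (by linarith) _
    have hRj : ∀ i, Pool.Agent.Lib.H18Q.RegP K2 Q (Xs i) := fun i =>
      (hR i).reg.mono (by linarith [le_max_left K1 K2]) (le_max_right _ _)
    have hRg : Rgm K1 Cr θ Q Q' (Xs j) :=
      ⟨(hR j).reg.mono (by linarith [le_max_left K1 K2]) (le_max_left _ _), (hR j).log, (hR j).low, (hR j).le⟩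
    have hGG : ∀ j : Fin k, GG (4 * Xs j) (k + 1) (cutJ (Xs j) (Er Q Q' (Xs j))) ≤
        (Xs j : ℝ) ^ ((k : ℝ) + 2 - κ0) := by
      intro j
      have hRg : Rgm K1 Cr θ Q Q' (Xs j) :=
        ⟨(hR j).reg.mono (by linarith [le_max_left K1 K2]) (le_max_left _ _), (hR j).log, (hR j).low, (hR j).le⟩
      have h := hX1 Q Q' (Xs j) (le_trans hXX1 (hXs j).1) hRg
      have e : ((k + 1 : ℕ) : ℝ) + 1 - κ0 = (k : ℝ) + 2 - κ0 := by push_cast; ring
      rwa [e] at h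
    have h := Pool.Agent.H9U.u7_one S j Xs b L T (fun i (m : ℤ) => if i < j then Lk Q' (Xs i / Q ^ 2) m else lp m)
      (((C0:ℝ) * X) ^ ε) hM (fun i m hm1 hm2 => by
        have hle : (Xs i : ℝ) ^ ε ≤ ((C0:ℝ) * X) ^ ε :=
          Real.rpow_le_rpow (by linarith [(hXi i).1]) (hXi i).2 hε.le
        split_ifs
        · exact le_trans (hX2 Q Q' (Xs i) (le_trans hXX2 (hXs i).1) (hRj i) hQ' (hR i).le m hm1 hm2) hle
        · exact le_trans (hX3 (Xs i) (le_trans hXX3 (hXs i).1) m hm2) hle)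
      (Er Q Q' (Xs j)) (fun m : ℤ => lp m - Lk Q' (Xs j / Q ^ 2) m)
      (fun m => by simp [Er, Pool.Agent.H9S.lc, Pool.Agent.H9S.Lc]) hval
      ((Xs j : ℝ) ^ (1 + d - κ1))
      (fun G W hG hW => hX4 j (Xs j) (le_trans (hXX4 j) (hXs j).1) (Er Q Q' (Xs j))
        (hGG j) b L T
        (le_trans hL (Nat.mul_le_mul_left _ (hXs j).1)) (le_trans hT (Nat.mul_le_mul_left _ (hXs j).1))
        (fun n hn t ht => hval j n hn t ht) G W hG hW |>.trans (le_of_eq (by rw [hκ1d])))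
    refine le_trans h ?_
    have hd0 : (0:ℝ) ≤ (d:ℝ) := Nat.cast_nonneg d
    have he1 : (0:ℝ) ≤ 1 + d - κ1 := by linarith
    have h2 : (Xs j : ℝ) ^ (1 + d - κ1) ≤ ((C0:ℝ) * X) ^ (1 + d - κ1) :=
      Real.rpow_le_rpow (by linarith [(hXi j).1]) (hXi j).2 he1
    have h3 : (((C0:ℝ) * X) ^ ε) ^ (k - 1) ≤ ((C0:ℝ) * X) ^ (κ1 / 25) := by
      rw [← Real.rpow_natCast, ← Real.rpow_mul (by linarith)]
      refine Real.rpow_le_rpow_of_exponent_le hCX ?_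
      have h4 : ((k - 1 : ℕ) : ℝ) ≤ (k:ℝ) + 1 := by
        have : ((k - 1 : ℕ) : ℝ) ≤ (k:ℝ) := by exact_mod_cast Nat.sub_le k 1
        linarith
      calc ε * ((k - 1 : ℕ) : ℝ) ≤ ε * ((k:ℝ) + 1) := mul_le_mul_of_nonneg_left h4 hε.le
        _ = κ1 / 25 := by rw [hεd]; field_simp
    calc (((C0:ℝ) * X) ^ ε) ^ (k - 1) * (Xs j : ℝ) ^ (1 + d - κ1)
        ≤ ((C0:ℝ) * X) ^ (κ1 / 25) * ((C0:ℝ) * X) ^ (1 + d - κ1) :=
          mul_le_mul h3 h2 (by positivity) (by positivity)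
      _ = ((C0:ℝ) * X) ^ (1 + d - κ1 * (24/25)) := by
          rw [← Real.rpow_add (by linarith)]
          ring_nf
      _ = (C0:ℝ) ^ (1 + d - κ1 * (24/25)) * (X:ℝ) ^ (1 + d - κ1 * (24/25)) :=
          Real.mul_rpow (by linarith) (by linarith)
      _ ≤ (C0:ℝ) ^ ((2:ℝ) + d) * (X:ℝ) ^ (1 + d - κ1 * (24/25)) := by
          refine mul_le_mul_of_nonneg_right ?_ (by positivity)
          exact Real.rpow_le_rpow_of_exponent_le hC0r (by linarith)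
  refine le_trans (Finset.sum_le_sum fun j _ => hterm j) ?_
  rw [Finset.sum_const, Finset.card_univ, Fintype.card_fin, nsmul_eq_mul]
  have h5 := hX5 X hXX5
  calc (k:ℝ) * ((C0:ℝ) ^ ((2:ℝ) + d) * (X:ℝ) ^ (1 + d - κ1 * (24/25)))
      = (k:ℝ) * (C0:ℝ) ^ ((2:ℝ) + d) * (X:ℝ) ^ (1 + d - κ1 * (24/25)) := by ring
    _ ≤ (X:ℝ) ^ (κ1 * (4 / 25)) * (X:ℝ) ^ (1 + d - κ1 * (24/25)) :=
        mul_le_mul_of_nonneg_right h5 (by positivity)
    _ = (X:ℝ) ^ (1 + d - κ1 * (4 / 5)) := by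
        rw [← Real.rpow_add hX0r]
        ring_nf

end Pool.Agent.HUK
end
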