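import Pool.Agent.Lib.H59M.M1.M026
import Pool.Agent.Lib.H59M.M1.M060
import Pool.Agent.Lib.H59M.M1.M072
import Pool.Agent.Lib.H59M.M1.M083
import Pool.Agent.Lib.H59M.M1.M084
import Pool.Agent.Lib.H59M.M1.M093
import Pool.Agent.Lib.H59M.M1.M094
import Pool.Agent.Lib.H59M.M1.M096

/-! Merged copies (to shorten the build) of Lib.HUP.FGA10, Lib.HUP.FGA11, Lib.HUP.FGC5, Lib.HUP.FGC6, Lib.HUP.FGC7, Lib.HUP.FGC8, Lib.HUP.FGA12, Lib.HUP.FGL0, Lib.HUP.FGL1, Lib.HUP.FGL2, Lib.HUP.FGL4, Lib.HUP.FGFin. -/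

-- from Lib.HUP.FGA10
section

/-!
# Project HUP, chunk FGA10 (M): the series over the pairs
-/

open Finset

namespace Pool.Agent.HUP

open Pool.Agent.Lib.H18Q (KS)

/-- The number of pairs with given `mo` is bounded. Proof. For such a pair all `κ i` and `κ' i` divide `R * m` (`FGA8_dvd`), so the filter is
contained in a product of two copies of `Fintype.piFinset fun _ => (R * m).divisors`. -/
theorem FGA10_fib {k : ℕ} (Q : ℕ) (r : Fin k → ℕ) (R : ℕ) (hR : R = univ.lcm r) (hr : ∀ i, 1 ≤ r i)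
    (T : Finset (Fin k → ℕ)) (hT : ∀ κ ∈ T, ∀ i, κ i ∈ KS Q (r i)) (m : ℕ) (hm : 1 ≤ m) :
    (((T ×ˢ T).filter fun x => mo R x.1 x.2 = m).card : ℝ) ≤ ((R * m).divisors.card : ℝ) ^ (2 * k) := by
  have hR0 : R ≠ 0 := by
    rw [hR]
    intro h0
    rw [Finset.lcm_eq_zero_iff] at h0
    obtain ⟨i, _, hi⟩ := h0
    have := hr i
    omega
  have hsub : ((T ×ˢ T).filter fun x => mo R x.1 x.2 = m) ⊆
      (Fintype.piFinset fun _ : Fin k => (R * m).divisors) ×ˢ (Fintype.piFinset fun _ : Fin k => (R * m).divisors) := by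
    intro x hx
    rw [mem_filter, mem_product] at hx
    obtain ⟨⟨hx1, hx2⟩, hx3⟩ := hx
    have h1 : ∀ κ ∈ T, ∀ i, Squarefree (κ i) ∧ Nat.Coprime (κ i) (r i) := by
      intro κ hκ i
      have h := hT κ hκ i
      unfold KS at h
      rw [mem_filter] at h
      exact h.2
    have h2 := FGA8_dvd r R hR x.1 x.2 (fun i => (h1 _ hx1 i).1) (fun i => (h1 _ hx1 i).2) (fun i => (h1 _ hx2 i).1)
    rw [hx3] at h2
    rw [mem_product, Fintype.mem_piFinset, Fintype.mem_piFinset]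
    have h3 : R * m ≠ 0 := Nat.mul_ne_zero hR0 (by omega)
    exact ⟨fun i => Nat.mem_divisors.2 ⟨h2.1 i, h3⟩, fun i => Nat.mem_divisors.2 ⟨h2.2.1 i, h3⟩⟩
  have h1 := card_le_card hsub
  rw [card_product, Fintype.card_piFinset, prod_const, card_univ, Fintype.card_fin] at h1
  rw [two_mul, pow_add]
  exact_mod_cast h1

theorem fga10_num (x y z c D F A B : ℝ) (hx : 1 ≤ x) (hy : 1 ≤ y) (hz : 1 ≤ z) (hzx : z ≤ x * y) (hc : 0 < c)
    (hc1 : c ≤ 1) (_hD : 0 ≤ D) (hDA : D ≤ A * y ^ (1 / 4 : ℝ)) (hA : 0 ≤ A) (_hF : 0 ≤ F)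
    (hFB : F ≤ B * (x * y) ^ (c / 8)) (hB : 0 ≤ B) :
    F * Real.sqrt (x ^ (-c) * (D / y ^ 3)) ≤ B * Real.sqrt A * z ^ (-(c / 8)) * y ^ (-(9 / 8 : ℝ)) := by
  have hx0 : 0 < x := by linarith
  have hy0 : 0 < y := by linarith
  have hz0 : 0 < z := by linarith
  have h1 : Real.sqrt (x ^ (-c) * (D / y ^ 3)) ≤ Real.sqrt A * (x ^ (-(c / 2)) * y ^ (-(11 / 8 : ℝ))) := by
    have h2 : x ^ (-c) * (D / y ^ 3) ≤ A * (x ^ (-(c / 2)) * y ^ (-(11 / 8 : ℝ))) ^ 2 := by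
      have h3 : (x ^ (-(c / 2)) * y ^ (-(11 / 8 : ℝ))) ^ 2 = x ^ (-c) * (y ^ (1 / 4 : ℝ) / y ^ 3) := by
        rw [mul_pow, ← Real.rpow_mul_natCast hx0.le, ← Real.rpow_mul_natCast hy0.le, ← Real.rpow_natCast y 3,
          ← Real.rpow_sub hy0]
        congr 1
        · congr 1
          push_cast
          ring
        · congr 1
          push_cast
          norm_num
      rw [h3]
      calc x ^ (-c) * (D / y ^ 3) ≤ x ^ (-c) * (A * y ^ (1 / 4 : ℝ) / y ^ 3) := by gcongr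
        _ = A * (x ^ (-c) * (y ^ (1 / 4 : ℝ) / y ^ 3)) := by ring
    calc Real.sqrt (x ^ (-c) * (D / y ^ 3)) ≤ Real.sqrt (A * (x ^ (-(c / 2)) * y ^ (-(11 / 8 : ℝ))) ^ 2) := Real.sqrt_le_sqrt h2
      _ = Real.sqrt A * (x ^ (-(c / 2)) * y ^ (-(11 / 8 : ℝ))) := by
          rw [Real.sqrt_mul hA, Real.sqrt_sq (by positivity)]
  have h4 : (x * y) ^ (-(c / 8)) ≤ z ^ (-(c / 8)) := by
    apply Real.rpow_le_rpow_of_nonpos hz0 hzx
    linarith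
  calc F * Real.sqrt (x ^ (-c) * (D / y ^ 3))
      ≤ (B * (x * y) ^ (c / 8)) * (Real.sqrt A * (x ^ (-(c / 2)) * y ^ (-(11 / 8 : ℝ)))) :=
        mul_le_mul hFB h1 (Real.sqrt_nonneg _) (by positivity)
    _ = B * Real.sqrt A * ((x ^ (c / 8) * x ^ (-(c / 2))) * (y ^ (c / 8) * y ^ (-(11 / 8 : ℝ)))) := by
        rw [Real.mul_rpow hx0.le hy0.le]
        ring
    _ = B * Real.sqrt A * (x ^ (c / 8 + -(c / 2)) * y ^ (c / 8 + -(11 / 8 : ℝ))) := by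
        rw [← Real.rpow_add hx0, ← Real.rpow_add hy0]
    _ ≤ B * Real.sqrt A * (x ^ (-(c / 8)) * y ^ (-(c / 8) + -(9 / 8 : ℝ))) := by
        apply mul_le_mul_of_nonneg_left _ (by positivity)
        apply mul_le_mul _ _ (by positivity) (by positivity)
        · apply Real.rpow_le_rpow_of_exponent_le hx
          linarith
        · apply Real.rpow_le_rpow_of_exponent_le hy
          linarith
    _ = B * Real.sqrt A * ((x * y) ^ (-(c / 8)) * y ^ (-(9 / 8 : ℝ))) := by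
        rw [Real.mul_rpow hx0.le hy0.le, Real.rpow_add hy0]
        ring
    _ ≤ B * Real.sqrt A * (z ^ (-(c / 8)) * y ^ (-(9 / 8 : ℝ))) := by
        apply mul_le_mul_of_nonneg_left _ (by positivity)
        exact mul_le_mul_of_nonneg_right h4 (by positivity)
    _ = _ := by ring

/-- Proof. `divisor_bound` (`H21AP/DivisorBound.lean`, see `KB8_series` in `HUK/KB8.lean`) with `ε` so small that `2 k ε ≤ c0/4`, `2 k ε ≤ 1/16` and
`b ε ≤ 1/8`: `d(R m)^(2k) ≤ C (R m)^(2kε) ≤ C R^(c0/4) m^(1/8)` and `(d(m)^b)^(1/2) ≤ C m^(1/8)`. The sum is `∑_{x ∈ T ×ˢ T}`, a sum over the values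
`m` of `mo R x.1 x.2` (`sum_fiberwise_of_maps_to` to the image) of at most (`FGA10_fib`)
`C R^(c0/4) m^(1/8) * R^(-c0/2) * C m^(1/8) m^(-3/2) = C² R^(-c0/4) m^(-5/4)`. For every such `m`: `W < univ.lcm (..) ≤ R m` (`FGA8_dvd`), so with
`ρ = min (c0/4) (1/8)`: `R^(-c0/4) m^(-1/8) ≤ (R m)^(-ρ) ≤ W^(-ρ)`. So the total is at most `C² W^(-ρ) ∑_m m^(-9/8)`, a convergent series. -/
theorem FGA10 (k b : ℕ) (c0 : ℝ) (hc0 : 0 < c0) (hc1 : c0 ≤ 1) : ∃ C ρ : ℝ, 0 < C ∧ 0 < ρ ∧ ρ ≤ 1 ∧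
    ∀ (Q W R : ℕ) (r : Fin k → ℕ), R = univ.lcm r → (∀ i, 1 ≤ r i) → 1 ≤ W → ∀ T : Finset (Fin k → ℕ),
    (∀ κ ∈ T, ∀ i, κ i ∈ KS Q (r i)) → (∀ κ ∈ T, W < univ.lcm (fun i => r i * κ i)) →
    ∑ κ ∈ T, ∑ κ' ∈ T, Real.sqrt ((R : ℝ) ^ (-c0) * (((mo R κ κ').divisors.card : ℝ) ^ b / (mo R κ κ' : ℝ) ^ 3)) ≤
      C * (W : ℝ) ^ (-ρ) := by
  set N := 2 * k + b + 1 with hN
  have hN0 : (0 : ℝ) < N := by
    rw [hN]
    push_cast
    positivity
  obtain ⟨C0, hC0, hd⟩ := Pool.Agent.Lib.H21AP.divisor_bound (ε := c0 / (8 * N)) (by positivity)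
  have hsum : Summable fun n : ℕ => (n : ℝ) ^ (-(9 / 8 : ℝ)) := Real.summable_nat_rpow.2 (by norm_num)
  have hnn : ∀ n : ℕ, 0 ≤ (n : ℝ) ^ (-(9 / 8 : ℝ)) := fun n => by positivity
  have hS0 : 0 ≤ ∑' n : ℕ, (n : ℝ) ^ (-(9 / 8 : ℝ)) := tsum_nonneg hnn
  refine ⟨C0 ^ (2 * k) * Real.sqrt (C0 ^ b) * ((∑' n : ℕ, (n : ℝ) ^ (-(9 / 8 : ℝ))) + 1), c0 / 8, ?_, by positivity,
    by linarith, ?_⟩
  · have : 0 < (∑' n : ℕ, (n : ℝ) ^ (-(9 / 8 : ℝ))) + 1 := by linarith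
    positivity
  intro Q W R r hR hr hW T hT hTW
  have hR0 : 1 ≤ R := by
    rw [Nat.one_le_iff_ne_zero, hR]
    intro h0
    rw [Finset.lcm_eq_zero_iff] at h0
    obtain ⟨i, _, hi⟩ := h0
    have := hr i
    omega
  rw [← Finset.sum_product']
  have h1 : ∑ x ∈ T ×ˢ T, Real.sqrt ((R : ℝ) ^ (-c0) * (((mo R x.1 x.2).divisors.card : ℝ) ^ b / (mo R x.1 x.2 : ℝ) ^ 3)) =
      ∑ m ∈ (T ×ˢ T).image (fun x => mo R x.1 x.2), ∑ x ∈ T ×ˢ T with mo R x.1 x.2 = m,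
        Real.sqrt ((R : ℝ) ^ (-c0) * (((mo R x.1 x.2).divisors.card : ℝ) ^ b / (mo R x.1 x.2 : ℝ) ^ 3)) := by
    generalize (fun x : (Fin k → ℕ) × (Fin k → ℕ) => Real.sqrt ((R : ℝ) ^ (-c0) *
      (((mo R x.1 x.2).divisors.card : ℝ) ^ b / (mo R x.1 x.2 : ℝ) ^ 3))) = f
    have hmaps : ∀ x ∈ T ×ˢ T, (fun x : (Fin k → ℕ) × (Fin k → ℕ) => mo R x.1 x.2) x ∈
        (T ×ˢ T).image (fun x => mo R x.1 x.2) := fun x hx => mem_image_of_mem _ hx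
    exact (sum_fiberwise_of_maps_to hmaps f).symm
  rw [h1]
  have h2 : ∀ m ∈ (T ×ˢ T).image (fun x => mo R x.1 x.2), ∑ x ∈ T ×ˢ T with mo R x.1 x.2 = m,
        Real.sqrt ((R : ℝ) ^ (-c0) * (((mo R x.1 x.2).divisors.card : ℝ) ^ b / (mo R x.1 x.2 : ℝ) ^ 3)) ≤
      C0 ^ (2 * k) * Real.sqrt (C0 ^ b) * (W : ℝ) ^ (-(c0 / 8)) * (m : ℝ) ^ (-(9 / 8 : ℝ)) := by
    intro m hm
    rw [mem_image] at hm
    obtain ⟨x0, hx0, hm0⟩ := hm
    rw [mem_product] at hx0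
    have hm1 : 1 ≤ m := by
      rw [← hm0]
      exact (FGA8_pos R x0.1 x0.2).1
    have hm1' : (1 : ℝ) ≤ m := by exact_mod_cast hm1
    have hm0' : (0 : ℝ) < m := by linarith
    have hR1' : (1 : ℝ) ≤ R := by exact_mod_cast hR0
    have hRm : 1 ≤ R * m := Nat.mul_pos hR0 hm1
    have hRm' : (1 : ℝ) ≤ ((R * m : ℕ) : ℝ) := by exact_mod_cast hRm
    have hks : ∀ κ ∈ T, ∀ i, Squarefree (κ i) ∧ Nat.Coprime (κ i) (r i) := by
      intro κ hκ i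
      have h := hT κ hκ i
      unfold KS at h
      rw [mem_filter] at h
      exact h.2
    have hWle : (W : ℝ) ≤ (R : ℝ) * (m : ℝ) := by
      have h3 := (FGA8_dvd r R hR x0.1 x0.2 (fun i => (hks _ hx0.1 i).1) (fun i => (hks _ hx0.1 i).2)
        (fun i => (hks _ hx0.2 i).1)).2.2
      rw [hm0] at h3
      have h4 := Nat.le_of_dvd (by omega) h3
      have h5 := hTW _ hx0.1
      have h6 : W ≤ R * m := by omega
      exact_mod_cast h6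
    have h3 : ∑ x ∈ T ×ˢ T with mo R x.1 x.2 = m,
        Real.sqrt ((R : ℝ) ^ (-c0) * (((mo R x.1 x.2).divisors.card : ℝ) ^ b / (mo R x.1 x.2 : ℝ) ^ 3)) =
        (((T ×ˢ T).filter fun x => mo R x.1 x.2 = m).card : ℝ) *
          Real.sqrt ((R : ℝ) ^ (-c0) * ((m.divisors.card : ℝ) ^ b / (m : ℝ) ^ 3)) := by
      rw [← nsmul_eq_mul, ← sum_const]
      refine sum_congr rfl fun x hx => ?_
      rw [mem_filter] at hx
      rw [hx.2]
    rw [h3]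
    have h4 := FGA10_fib Q r R hR hr T hT m hm1
    have h5 : (m.divisors.card : ℝ) ^ b ≤ C0 ^ b * (m : ℝ) ^ (1 / 4 : ℝ) := by
      calc (m.divisors.card : ℝ) ^ b ≤ (C0 * (m : ℝ) ^ (c0 / (8 * N) : ℝ)) ^ b :=
            pow_le_pow_left₀ (by positivity) (hd m hm1) b
        _ = C0 ^ b * (m : ℝ) ^ (c0 / (8 * N) * b : ℝ) := by
            rw [mul_pow, ← Real.rpow_mul_natCast hm0'.le]
        _ ≤ C0 ^ b * (m : ℝ) ^ (1 / 4 : ℝ) := by
            apply mul_le_mul_of_nonneg_left _ (by positivity)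
            apply Real.rpow_le_rpow_of_exponent_le hm1'
            have hbN : (b : ℝ) ≤ N := by
              rw [hN]
              push_cast
              have : (0 : ℝ) ≤ k := Nat.cast_nonneg k
              linarith
            rw [div_mul_eq_mul_div, div_le_iff₀ (by positivity)]
            have : c0 * b ≤ 1 * N := mul_le_mul hc1 hbN (by positivity) (by norm_num)
            linarith
    have h6 : ((R * m).divisors.card : ℝ) ^ (2 * k) ≤ C0 ^ (2 * k) * ((R : ℝ) * (m : ℝ)) ^ (c0 / 8) := by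
      calc ((R * m).divisors.card : ℝ) ^ (2 * k) ≤ (C0 * ((R * m : ℕ) : ℝ) ^ (c0 / (8 * N) : ℝ)) ^ (2 * k) :=
            pow_le_pow_left₀ (by positivity) (hd (R * m) hRm) _
        _ = C0 ^ (2 * k) * ((R * m : ℕ) : ℝ) ^ (c0 / (8 * N) * ((2 * k : ℕ) : ℝ) : ℝ) := by
            rw [mul_pow, ← Real.rpow_mul_natCast (by positivity)]
        _ ≤ C0 ^ (2 * k) * ((R * m : ℕ) : ℝ) ^ (c0 / 8) := by
            apply mul_le_mul_of_nonneg_left _ (by positivity)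
            apply Real.rpow_le_rpow_of_exponent_le hRm'
            have hbN : ((2 * k : ℕ) : ℝ) ≤ N := by
              rw [hN]
              push_cast
              have : (0 : ℝ) ≤ b := Nat.cast_nonneg b
              linarith
            rw [div_mul_eq_mul_div, div_le_iff₀ (by positivity)]
            have : c0 * ((2 * k : ℕ) : ℝ) ≤ c0 * N := mul_le_mul_of_nonneg_left hbN hc0.le
            linarith
        _ = C0 ^ (2 * k) * ((R : ℝ) * (m : ℝ)) ^ (c0 / 8) := by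
            push_cast
            rfl
    exact fga10_num (R : ℝ) (m : ℝ) (W : ℝ) c0 _ _ (C0 ^ b) (C0 ^ (2 * k)) hR1' hm1' (by exact_mod_cast hW) hWle hc0 hc1
      (by positivity) h5 (by positivity) (by positivity) (le_trans h4 h6) (by positivity)
  refine le_trans (sum_le_sum h2) ?_
  rw [← mul_sum]
  have h7 := hsum.sum_le_tsum ((T ×ˢ T).image (fun x => mo R x.1 x.2)) fun n _ => hnn n
  calc C0 ^ (2 * k) * Real.sqrt (C0 ^ b) * (W : ℝ) ^ (-(c0 / 8)) *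
        ∑ m ∈ (T ×ˢ T).image (fun x => mo R x.1 x.2), (m : ℝ) ^ (-(9 / 8 : ℝ)) ≤
      C0 ^ (2 * k) * Real.sqrt (C0 ^ b) * (W : ℝ) ^ (-(c0 / 8)) * ((∑' n : ℕ, (n : ℝ) ^ (-(9 / 8 : ℝ))) + 1) := by
        apply mul_le_mul_of_nonneg_left _ (by positivity)
        linarith
    _ = _ := by ring

end Pool.Agent.HUP
end

-- from Lib.HUP.FGA11
section

/-!
# Project HUP, chunk FGA11 (M): the large sieve without the constants of the components
-/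

open Finset Polynomial

namespace Pool.Agent.HUP

open Pool.Agent.Lib.H68T Pool.Agent.Lib.H18Q Pool.Agent.Lib.H59P Pool.Agent.Lib.H24P

theorem fga11_KS {Q r κ : ℕ} (h : κ ∈ KS Q r) : 1 ≤ κ ∧ κ ≤ Q / r := by
  classical
  unfold KS at h
  rw [mem_filter, mem_Icc] at h
  exact h.1

theorem fga11_KScard (Q r : ℕ) : (KS Q r).card ≤ Q := by
  classical
  unfold KS
  refine (card_filter_le _ _).trans ?_
  rw [Nat.card_Icc]
  have := Nat.div_le_self Q r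
  omega

theorem fga11_num (Q k W : ℕ) (ρ : ℝ) (hQ : 1 ≤ Q) (hW : 1 ≤ W) (hWQ : W ≤ Q ^ k) (hρ1 : ρ ≤ 1) (M : ℕ)
    (hM : M ≤ Q ^ (2 * k)) : (M : ℝ) / ((Q ^ (5 * k) : ℕ) : ℝ) ≤ (W : ℝ) ^ (-ρ) / ((Q : ℝ) ^ k) ^ 2 := by
  have hQ0 : (0 : ℝ) < Q := by exact_mod_cast hQ
  have hq : (0 : ℝ) < (Q : ℝ) ^ k := by positivity
  have hW1 : (1 : ℝ) ≤ W := by exact_mod_cast hW
  have hW0 : (0 : ℝ) < W := by linarith
  have h1 : ((Q : ℝ) ^ k)⁻¹ ≤ (W : ℝ) ^ (-ρ) := by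
    have h2 : (W : ℝ) ≤ (Q : ℝ) ^ k := by exact_mod_cast hWQ
    calc ((Q : ℝ) ^ k)⁻¹ ≤ (W : ℝ)⁻¹ := inv_anti₀ hW0 h2
      _ = (W : ℝ) ^ (-1 : ℝ) := (Real.rpow_neg_one _).symm
      _ ≤ (W : ℝ) ^ (-ρ) := Real.rpow_le_rpow_of_exponent_le hW1 (by linarith)
  have h3 : (M : ℝ) ≤ ((Q : ℝ) ^ k) ^ 2 := by
    rw [← pow_mul, mul_comm k 2]
    exact_mod_cast hM
  have h4 : ((Q ^ (5 * k) : ℕ) : ℝ) = ((Q : ℝ) ^ k) ^ 5 := by
    push_cast
    rw [← pow_mul, mul_comm k 5]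
  rw [h4]
  calc (M : ℝ) / ((Q : ℝ) ^ k) ^ 5 ≤ ((Q : ℝ) ^ k) ^ 2 / ((Q : ℝ) ^ k) ^ 5 := by gcongr
    _ = ((Q : ℝ) ^ k)⁻¹ / ((Q : ℝ) ^ k) ^ 2 := by
        field_simp
    _ ≤ (W : ℝ) ^ (-ρ) / ((Q : ℝ) ^ k) ^ 2 := by gcongr

/-- Proof. If `T = ∅` the left side is `0`. Let `T` be nonempty; `W < univ.lcm (..) ≤ ∏ (p i).1 * κ i ≤ Q^k` (`κ i ≤ Q / r i`) for `κ ∈ T`. `FGA1` with
`Φ κ n t = ∏ i, ph (p i) (κ i) (yy c P β i n t)`; the inner function is `F2 c P β p κ κ' n n' t`. For every pair `FGA4` with `M = R * mo R κ κ'`,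
`L = Q^(5k)`: `M ≤ ∏ r_i κ_i κ'_i ≤ Q^(2k)` (`FGA8_le`), and `ms` from `FGA9`, `√(C x) = √C √x`. Sum over the pairs: `FGA10`; the other term: at most
`(Q^k)²` pairs, each `3 card H 2 d Q^(2k) / Q^(5k)`, total `≤ 6 d card H Q^(-k) ≤ 6 d card H W^(-1) ≤ 6 d card H W^(-ρ)`.
`C = 3 (√C9 C10 + 2 d) + 1`. -/
theorem FGA11 {k d : ℕ} {c : Fin k → Fin d → ℤ} {D : Fin k → ℕ} {a : Fin k → ℤ} (hL : LocB c D a) (hC : ChB c D a) :
    ∃ C ρ : ℝ, 0 < C ∧ 0 < ρ ∧ ρ ≤ 1 ∧ ∀ P : Fin k → ℤ[X], HasD D a P → ∀ (β : Fin k → ℤ) (Q : ℕ), 1 ≤ Q →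
    ∀ p : Fin k → Ch, (∀ i, p i ∈ PC Q) → ∀ T : Finset (Fin k → ℕ),
    T ⊆ Fintype.piFinset (fun i => KS Q (p i).1) → ∀ W : ℕ, 1 ≤ W →
    (∀ κ ∈ T, W < univ.lcm (fun i => (p i).1 * κ i)) → ∀ (b : Fin d → ℤ) (s : Fin d → ℕ), (∀ j, Q ^ (5 * k) ≤ s j) →
    ∀ a0 H : ℕ, Q ^ (5 * k) ≤ H → ∀ w : ℕ → ℂ,
    ∑ t ∈ tb b s, ‖∑ n ∈ Ico a0 (a0 + H), w n * ∑ κ ∈ T, ∏ i, ph (p i) (κ i) (yy c P β i n t)‖ ^ 2 ≤
      C * (tb b s).card * (H * ∑ n ∈ Ico a0 (a0 + H), ‖w n‖ ^ 2) * (W : ℝ) ^ (-ρ) := by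
  classical
  obtain ⟨b9, C9, c0, hC9, hc0, hc1, h9⟩ := FGA9 hL hC
  obtain ⟨C10, ρ, hC10, hρ0, hρ1, h10⟩ := FGA10 k b9 c0 hc0 hc1
  refine ⟨3 * (Real.sqrt C9 * C10 + 2 * d) + 1, ρ, by positivity, hρ0, hρ1, ?_⟩
  intro P hP β Q hQ p hp T hT W hW hTW b s hs a0 H hH w
  obtain ⟨R, hR⟩ : ∃ R : ℕ, R = univ.lcm (fun i => (p i).1) := ⟨_, rfl⟩
  have hp1 : ∀ i, 1 ≤ (p i).1 := fun i => (mem_PC.1 (hp i)).1
  have hTK : ∀ κ ∈ T, ∀ i, κ i ∈ KS Q (p i).1 := fun κ hκ i => Fintype.mem_piFinset.1 (hT hκ) i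
  have hrk : ∀ κ ∈ T, ∀ i, (p i).1 * κ i ≤ Q := by
    intro κ hκ i
    exact (Nat.mul_le_mul_left _ (fga11_KS (hTK κ hκ i)).2).trans (Nat.mul_div_le Q _)
  have hk1 : ∀ κ ∈ T, ∀ i, 1 ≤ κ i := fun κ hκ i => (fga11_KS (hTK κ hκ i)).1
  have hkQ : ∀ κ ∈ T, ∀ i, κ i ≤ Q := fun κ hκ i => (fga11_KS (hTK κ hκ i)).2.trans (Nat.div_le_self _ _)
  have hWQ : ∀ κ ∈ T, W ≤ Q ^ k := by
    intro κ hκ
    refine (hTW κ hκ).le.trans ?_
    have h1 : univ.lcm (fun i => (p i).1 * κ i) ∣ ∏ i, ((p i).1 * κ i) :=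
      Finset.lcm_dvd fun i hi => Finset.dvd_prod_of_mem _ hi
    have h2 : 0 < ∏ i, ((p i).1 * κ i) := Finset.prod_pos fun i _ => Nat.mul_pos (hp1 i) (hk1 κ hκ i)
    refine (Nat.le_of_dvd h2 h1).trans ?_
    calc ∏ i, ((p i).1 * κ i) ≤ ∏ _i : Fin k, Q := Finset.prod_le_prod (fun _ _ => Nat.zero_le _) fun i _ => hrk κ hκ i
      _ = Q ^ k := by rw [Finset.prod_const, Finset.card_univ, Fintype.card_fin]
  have hcardT : (T.card : ℝ) ≤ (Q : ℝ) ^ k := by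
    have h1 : T.card ≤ Q ^ k := by
      refine (Finset.card_le_card hT).trans ?_
      rw [Fintype.card_piFinset]
      calc ∏ i, (KS Q (p i).1).card ≤ ∏ _i : Fin k, Q :=
            Finset.prod_le_prod (fun _ _ => Nat.zero_le _) fun i _ => fga11_KScard Q _
        _ = Q ^ k := by rw [Finset.prod_const, Finset.card_univ, Fintype.card_fin]
    exact_mod_cast h1
  have hQ0 : (0 : ℝ) < Q := by exact_mod_cast hQ
  have hq : (0 : ℝ) < (Q : ℝ) ^ k := by positivity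
  have hWp : 0 ≤ (W : ℝ) ^ (-ρ) := by positivity
  -- one pair
  have hpair : ∀ κ ∈ T, ∀ κ' ∈ T,
      Real.sqrt (∑ n ∈ Ico a0 (a0 + H), ∑ n' ∈ Ico a0 (a0 + H), ‖∑ t ∈ tb b s, (∏ i, ph (p i) (κ i) (yy c P β i n t)) *
        (starRingEnd ℂ) (∏ i, ph (p i) (κ' i) (yy c P β i n' t))‖ ^ 2) ≤
      3 * (tb b s).card * H * (Real.sqrt C9 * Real.sqrt ((R : ℝ) ^ (-c0) * (((mo R κ κ').divisors.card : ℝ) ^ b9 /
        (mo R κ κ' : ℝ) ^ 3)) + 2 * d * ((W : ℝ) ^ (-ρ) / ((Q : ℝ) ^ k) ^ 2)) := by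
    intro κ hκ κ' hκ'
    have hM : R * mo R κ κ' ≤ Q ^ (2 * k) := by
      refine (FGA8_le (fun i => (p i).1) R hR hp1 κ κ' (hk1 κ hκ) (hk1 κ' hκ')).trans ?_
      calc ∏ i, (p i).1 * κ i * κ' i ≤ ∏ _i : Fin k, Q ^ 2 := by
            refine Finset.prod_le_prod (fun _ _ => Nat.zero_le _) fun i _ => ?_
            rw [sq]
            exact Nat.mul_le_mul (hrk κ hκ i) (hkQ κ' hκ' i)
        _ = Q ^ (2 * k) := by rw [Finset.prod_const, Finset.card_univ, Fintype.card_fin, ← pow_mul]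
    have hR1 : 1 ≤ R := by
      rw [hR]
      refine Nat.one_le_iff_ne_zero.2 ?_
      rw [Ne, Finset.lcm_eq_zero_iff]
      rintro ⟨i, -, hi⟩
      have := hp1 i
      omega
    have hM1 : 1 ≤ R * mo R κ κ' := Nat.mul_pos hR1 (FGA8_pos R κ κ').1
    have hL1 : 1 ≤ Q ^ (5 * k) := Nat.one_le_pow _ _ hQ
    have hMH : R * mo R κ κ' ≤ H := hM.trans ((Nat.pow_le_pow_right hQ (by omega)).trans hH)
    obtain ⟨hPp, hms⟩ := h9 P hP β p Q hp R hR κ κ' (hTK κ hκ) (hTK κ' hκ')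
    have hb1 : ∀ n n' t, ‖F2 c P β p κ κ' n n' t‖ ≤ 1 := by
      intro n n' t
      unfold F2
      rw [norm_mul, RCLike.norm_conj, norm_prod, norm_prod]
      have e1 : ∏ i, ‖ph (p i) (κ i) (yy c P β i n t)‖ ≤ 1 :=
        Finset.prod_le_one (fun _ _ => norm_nonneg _) fun i _ => FGA7_phle _ _ _
      have e2 : ∏ i, ‖ph (p i) (κ' i) (yy c P β i n' t)‖ ≤ 1 :=
        Finset.prod_le_one (fun _ _ => norm_nonneg _) fun i _ => FGA7_phle _ _ _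
      exact mul_le_one₀ e1 (Finset.prod_nonneg fun _ _ => norm_nonneg _) e2
    have h4 := FGA4 (R * mo R κ κ') (Q ^ (5 * k)) H hM1 hL1 hMH b s hs (F2 c P β p κ κ') hPp hb1 a0
    refine h4.trans ?_
    have h5 : Real.sqrt (ms (R * mo R κ κ') (F2 c P β p κ κ')) ≤ Real.sqrt C9 *
        Real.sqrt ((R : ℝ) ^ (-c0) * (((mo R κ κ').divisors.card : ℝ) ^ b9 / (mo R κ κ' : ℝ) ^ 3)) := by
      rw [← Real.sqrt_mul hC9.le]
      exact Real.sqrt_le_sqrt hms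
    have h6 := fga11_num Q k W ρ hQ hW (hWQ κ hκ) hρ1 (R * mo R κ κ') hM
    have h7 : 2 * (d : ℝ) * (((R * mo R κ κ' : ℕ) : ℝ) / ((Q ^ (5 * k) : ℕ) : ℝ)) ≤
        2 * d * ((W : ℝ) ^ (-ρ) / ((Q : ℝ) ^ k) ^ 2) := mul_le_mul_of_nonneg_left h6 (by positivity)
    exact mul_le_mul_of_nonneg_left (add_le_add h5 h7) (by positivity)
  -- the sum over the pairs
  have hsum : ∑ κ ∈ T, ∑ κ' ∈ T, Real.sqrt (∑ n ∈ Ico a0 (a0 + H), ∑ n' ∈ Ico a0 (a0 + H),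
      ‖∑ t ∈ tb b s, (∏ i, ph (p i) (κ i) (yy c P β i n t)) *
        (starRingEnd ℂ) (∏ i, ph (p i) (κ' i) (yy c P β i n' t))‖ ^ 2) ≤
      3 * (tb b s).card * H * ((Real.sqrt C9 * C10 + 2 * d) * (W : ℝ) ^ (-ρ)) := by
    refine (Finset.sum_le_sum fun κ hκ => Finset.sum_le_sum fun κ' hκ' => hpair κ hκ κ' hκ').trans ?_
    simp only [← Finset.mul_sum, Finset.sum_add_distrib, Finset.sum_const, nsmul_eq_mul]
    refine mul_le_mul_of_nonneg_left ?_ (by positivity)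
    have e1 := h10 Q W R (fun i => (p i).1) hR hp1 hW T hTK hTW
    have e2 : Real.sqrt C9 * ∑ κ ∈ T, ∑ κ' ∈ T, Real.sqrt ((R : ℝ) ^ (-c0) *
        (((mo R κ κ').divisors.card : ℝ) ^ b9 / (mo R κ κ' : ℝ) ^ 3)) ≤ Real.sqrt C9 * (C10 * (W : ℝ) ^ (-ρ)) :=
      mul_le_mul_of_nonneg_left e1 (Real.sqrt_nonneg _)
    have e3 : 2 * (d : ℝ) * ((T.card : ℝ) * ((T.card : ℝ) * ((W : ℝ) ^ (-ρ) / ((Q : ℝ) ^ k) ^ 2))) ≤
        2 * d * (W : ℝ) ^ (-ρ) := by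
      have h1 : 0 ≤ (W : ℝ) ^ (-ρ) / ((Q : ℝ) ^ k) ^ 2 := by positivity
      calc 2 * (d : ℝ) * ((T.card : ℝ) * ((T.card : ℝ) * ((W : ℝ) ^ (-ρ) / ((Q : ℝ) ^ k) ^ 2)))
          ≤ 2 * (d : ℝ) * ((Q : ℝ) ^ k * ((Q : ℝ) ^ k * ((W : ℝ) ^ (-ρ) / ((Q : ℝ) ^ k) ^ 2))) := by gcongr
        _ = 2 * d * (W : ℝ) ^ (-ρ) := by
            field_simp
    calc _ ≤ Real.sqrt C9 * (C10 * (W : ℝ) ^ (-ρ)) + 2 * d * (W : ℝ) ^ (-ρ) := add_le_add e2 e3
      _ = (Real.sqrt C9 * C10 + 2 * d) * (W : ℝ) ^ (-ρ) := by ring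
  have h1 := FGA1 (tb b s) (Ico a0 (a0 + H)) T w (fun κ n t => ∏ i, ph (p i) (κ i) (yy c P β i n t))
  refine h1.trans ?_
  have hw0 : 0 ≤ ∑ n ∈ Ico a0 (a0 + H), ‖w n‖ ^ 2 := Finset.sum_nonneg fun _ _ => sq_nonneg _
  refine (mul_le_mul_of_nonneg_left hsum hw0).trans ?_
  have h2 : 0 ≤ ((tb b s).card : ℝ) * (H * ∑ n ∈ Ico a0 (a0 + H), ‖w n‖ ^ 2) * (W : ℝ) ^ (-ρ) := by positivity
  nlinarith [h2]

end Pool.Agent.HUP
end

-- from Lib.HUP.FGC5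
section

/-!
# Project HUP, chunk FGC5 (M): characters times functions of coprime period
-/

open Finset

namespace Pool.Agent.HUP

open Pool.Agent.Lib.H59P
open Pool.Agent.HUK (DL Av Pe KB1_mul KB1_per KB1_nn KB1_one UCH_all kb5_sum kb5_sum_pi DL_mul DL_norm DL_prod)

theorem fgc5_card (M q : ℕ) (hM : 1 ≤ M) (b : ℤ) (hb : b ∈ Ico (0 : ℤ) M) :
    ((Ico (0 : ℤ) ((M * q : ℕ) : ℤ)).filter fun y => y % (M : ℤ) = b).card = q := by
  rcases Nat.eq_zero_or_pos q with hq | hq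
  · subst hq
    simp
  · have hg : ∀ y y' : ℤ, (M : ℤ) ∣ y - y' → (if y % (M : ℤ) = b then (1 : ℂ) else 0) = if y' % (M : ℤ) = b then (1 : ℂ) else 0 := by
      intro y y' h
      rw [(Int.emod_emod_of_dvd y (dvd_refl (M : ℤ))).symm.trans (Int.emod_emod_of_dvd y (dvd_refl _)),
        show y % (M : ℤ) = y' % (M : ℤ) from (Int.emod_emod_of_dvd y (dvd_refl (M : ℤ))).symm.trans
          ((Int.emod_emod_of_dvd y (dvd_refl (M : ℤ))).trans (Int.emod_eq_emod_iff_emod_sub_eq_zero.2 (Int.emod_eq_zero_of_dvd h)))]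
    have hN : 1 ≤ M * q := Nat.mul_pos hM hq
    have hgN : ∀ y y' : ℤ, ((M * q : ℕ) : ℤ) ∣ y - y' →
        (if y % (M : ℤ) = b then (1 : ℂ) else 0) = if y' % (M : ℤ) = b then (1 : ℂ) else 0 :=
      fun y y' h => hg y y' (dvd_trans ⟨(q : ℤ), by push_cast; rfl⟩ h)
    have e1 := Pool.Agent.HUK.kb3_block (M * q) hN (fun y => if y % (M : ℤ) = b then (1 : ℂ) else 0) hgN 0
    have e2 := Pool.Agent.HUK.kb3_blocks M hM (fun y => if y % (M : ℤ) = b then (1 : ℂ) else 0) hg 0 q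
    have e3 : ∑ y ∈ Ico (0 : ℤ) M, (if y % (M : ℤ) = b then (1 : ℂ) else 0) = 1 := by
      rw [Finset.sum_eq_single b]
      · rw [if_pos]
        rw [mem_Ico] at hb
        exact Int.emod_eq_of_lt hb.1 hb.2
      · intro y hy hyb
        rw [if_neg]
        rw [mem_Ico] at hy
        rw [Int.emod_eq_of_lt hy.1 hy.2]
        exact hyb
      · intro h
        exact absurd hb h
    have e4 : (((Ico (0 : ℤ) ((M * q : ℕ) : ℤ)).filter fun y => y % (M : ℤ) = b).card : ℂ) = q := by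
      rw [Finset.card_filter]
      push_cast
      have e5 := e1.symm.trans e2
      rw [e3, mul_one] at e5
      push_cast at e5
      exact e5
    exact_mod_cast e4

theorem fgc5_one (M q : ℕ) (hM : 1 ≤ M) (hq : 1 ≤ q) (g : ℤ → ℂ) (hg : ∀ y y' : ℤ, (M : ℤ) ∣ y - y' → g y = g y') :
    ∑ y ∈ Ico (0 : ℤ) ((M * q : ℕ) : ℤ), g y = q * ∑ y ∈ Ico (0 : ℤ) M, g y := by
  have hN : 1 ≤ M * q := Nat.mul_pos hM hq
  have hgN : ∀ y y' : ℤ, ((M * q : ℕ) : ℤ) ∣ y - y' → g y = g y' :=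
    fun y y' h => hg y y' (dvd_trans ⟨(q : ℤ), by push_cast; rfl⟩ h)
  exact (Pool.Agent.HUK.kb3_block (M * q) hN g hgN 0).symm.trans (Pool.Agent.HUK.kb3_blocks M hM g hg 0 q)

theorem fgc5_pi (k M q : ℕ) (hM : 1 ≤ M) (G : (Fin k → ℤ) → ℝ) (hG : ∀ h, G h = G (fun i => h i % (M : ℤ))) :
    ∑ h ∈ Fintype.piFinset (fun _ : Fin k => Ico (0 : ℤ) ((M * q : ℕ) : ℤ)), G h =
      (q : ℝ) ^ k * ∑ h ∈ Fintype.piFinset (fun _ : Fin k => Ico (0 : ℤ) M), G h := by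
  classical
  have hmap : ∀ h ∈ Fintype.piFinset (fun _ : Fin k => Ico (0 : ℤ) ((M * q : ℕ) : ℤ)),
      (fun i => h i % (M : ℤ)) ∈ Fintype.piFinset (fun _ : Fin k => Ico (0 : ℤ) M) :=
    fun h _ => Fintype.mem_piFinset.2 fun i => Pool.Agent.HUK.kb1_mem M hM (h i)
  rw [← Finset.sum_fiberwise_of_maps_to hmap, Finset.mul_sum]
  refine Finset.sum_congr rfl fun b hb => ?_
  have h1 : ∑ h ∈ (Fintype.piFinset (fun _ : Fin k => Ico (0 : ℤ) ((M * q : ℕ) : ℤ))).filter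
      (fun h => (fun i => h i % (M : ℤ)) = b), G h =
      ∑ h ∈ (Fintype.piFinset (fun _ : Fin k => Ico (0 : ℤ) ((M * q : ℕ) : ℤ))).filter
      (fun h => (fun i => h i % (M : ℤ)) = b), G b := by
    refine Finset.sum_congr rfl fun h hh => ?_
    rw [hG h, (mem_filter.1 hh).2]
  rw [h1, Finset.sum_const, nsmul_eq_mul]
  congr 1
  have h2 : (Fintype.piFinset (fun _ : Fin k => Ico (0 : ℤ) ((M * q : ℕ) : ℤ))).filter
      (fun h => (fun i => h i % (M : ℤ)) = b) =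
      Fintype.piFinset (fun i => (Ico (0 : ℤ) ((M * q : ℕ) : ℤ)).filter fun y => y % (M : ℤ) = b i) := by
    ext h
    rw [mem_filter, Fintype.mem_piFinset, Fintype.mem_piFinset]
    constructor
    · rintro ⟨ha, hc⟩ i
      exact mem_filter.2 ⟨ha i, congrFun hc i⟩
    · intro ha
      exact ⟨fun i => (mem_filter.1 (ha i)).1, funext fun i => (mem_filter.1 (ha i)).2⟩
  rw [h2, Fintype.card_piFinset, Finset.prod_congr rfl fun i _ => fgc5_card M q hM (b i) (Fintype.mem_piFinset.1 hb i),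
    Finset.prod_const, Finset.card_univ, Fintype.card_fin]
  push_cast
  rfl

/-- A multiple of the period. Proof. The sum over `y ∈ Ico 0 (M * q)` is `q` times the sum over `Ico 0 M` (`kb3_blocks` of `HUK/KB3.lean`), and for
the `k` variables `h` in the same way (fibres of the reduction modulo `M`: `q^k` elements; `kb1_sumk` is for coprime moduli, so use
`Finset.sum_fiberwise_of_maps_to` or induction on `k`). -/
theorem FGC5_up (k M q : ℕ) (hM : 1 ≤ M) (hq : 1 ≤ q) (φ : ℤ → (Fin k → ℤ) → ℂ) (hφ : Pe M φ) :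
    Av k (M * q) φ = Av k M φ := by
  have hq0 : (0 : ℝ) < q := by exact_mod_cast hq
  have hM0 : (0 : ℝ) < M := by exact_mod_cast hM
  unfold Av
  have h1 : ∀ h : Fin k → ℤ, ‖∑ y ∈ Ico (0 : ℤ) ((M * q : ℕ) : ℤ), φ y h‖ = (q : ℝ) * ‖∑ y ∈ Ico (0 : ℤ) M, φ y h‖ := by
    intro h
    rw [fgc5_one M q hM hq (fun y => φ y h) (fun y y' hy => hφ y y' h h hy fun i => by rw [sub_self]; exact dvd_zero _),
      norm_mul, Complex.norm_natCast]
  rw [Finset.sum_congr rfl fun h _ => h1 h, ← Finset.mul_sum,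
    fgc5_pi k M q hM (fun h => ‖∑ y ∈ Ico (0 : ℤ) M, φ y h‖) (fun h => by
      show ‖∑ y ∈ Ico (0 : ℤ) M, φ y h‖ = ‖∑ y ∈ Ico (0 : ℤ) M, φ y (fun i => h i % (M : ℤ))‖
      congr 1
      refine Finset.sum_congr rfl fun y _ => hφ y y h _ (by rw [sub_self]; exact dvd_zero _) fun i => Int.dvd_self_sub_emod)]
  rw [div_eq_div_iff (by positivity) (by positivity)]
  push_cast
  ring

/-- the function in terms of residues -/
theorem fgc5_eq {k : ℕ} (p : Ch) (y : ℤ) (h : Fin k → ℤ) :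
    DL (List.ofFn h) (cj p) y = (starRingEnd ℂ) (DL (List.ofFn fun i => ((h i : ℤ) : ZMod p.1))
      (fun z => p.2 z) ((y : ℤ) : ZMod p.1)) := by
  rw [DL_prod, DL_prod, map_prod]
  refine Finset.prod_congr rfl fun ω _ => ?_
  rw [Pool.Agent.HUK.kb5_conj]
  unfold Pool.Agent.Lib.H59P.cj
  congr 3
  unfold Pool.Agent.HUK.vt
  push_cast
  congr 1

/-- Proof. As `KB5_chi` (`HUK/KB5.lean`) without the factors `lam`: `UCH_all s`, `DL_prod`, casts `Ico 0 r → ZMod r` (`kb5_sum`, `kb5_sum_pi`),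
conjugation. -/
theorem FGC5_chi (s : ℕ) (hs : 1 ≤ s) : ∃ C e : ℝ, 0 < C ∧ 0 < e ∧ e ≤ 1 ∧ ∀ p : Ch, 1 ≤ p.1 → p.2.IsPrimitive →
    Av s p.1 (fun (y : ℤ) (h : Fin s → ℤ) => DL (List.ofFn h) (cj p) y) ≤ C * (p.1 : ℝ) ^ (-e) := by
  obtain ⟨C, c, hC, hc, hc1, H⟩ := UCH_all s hs
  refine ⟨C, c, hC, hc, hc1, ?_⟩
  rintro ⟨r, χ⟩ hr hχ
  have hr' : 1 ≤ r := hr
  have hne : NeZero r := ⟨by omega⟩
  have hr0 : (0 : ℝ) < r := by exact_mod_cast hr'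
  show Av s r (fun (y : ℤ) (h : Fin s → ℤ) => DL (List.ofFn h) (cj ⟨r, χ⟩) y) ≤ C * (r : ℝ) ^ (-c)
  unfold Av
  let F : (Fin s → ZMod r) → ℝ := fun t => ‖∑ z : ZMod r, DL (List.ofFn t) (fun z => χ z) z‖
  have h1 : ∀ h : Fin s → ℤ, ‖∑ y ∈ Ico (0 : ℤ) r, DL (List.ofFn h) (cj ⟨r, χ⟩) y‖ =
      F (fun i => ((h i : ℤ) : ZMod r)) := by
    intro h
    have e1 : ∑ y ∈ Ico (0 : ℤ) r, DL (List.ofFn h) (cj ⟨r, χ⟩) y = (starRingEnd ℂ) (∑ z : ZMod r,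
        DL (List.ofFn fun i => ((h i : ℤ) : ZMod r)) (fun z => χ z) z) := by
      rw [map_sum, ← kb5_sum r (fun z : ZMod r => (starRingEnd ℂ)
        (DL (List.ofFn fun i => ((h i : ℤ) : ZMod r)) (fun z => χ z) z))]
      exact Finset.sum_congr rfl fun y _ => fgc5_eq ⟨r, χ⟩ y h
    rw [e1, RCLike.norm_conj]
  have h2 : ∑ h ∈ Fintype.piFinset (fun _ : Fin s => Ico (0 : ℤ) r), ‖∑ y ∈ Ico (0 : ℤ) r, DL (List.ofFn h) (cj ⟨r, χ⟩) y‖ ≤
      C * (r : ℝ) ^ ((s : ℝ) + 1 - c) := by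
    rw [Finset.sum_congr rfl fun h _ => h1 h, kb5_sum_pi s r (fun t : Fin s → ZMod r => F t)]
    exact H r χ hχ
  rw [div_le_iff₀ (by positivity)]
  refine h2.trans (le_of_eq ?_)
  have e3 : (r : ℝ) ^ ((s : ℝ) + 1 - c) = (r : ℝ) ^ (-c) * (r : ℝ) ^ (s + 1) := by
    rw [← Real.rpow_natCast, ← Real.rpow_add hr0]
    congr 1
    push_cast
    ring
  rw [e3]
  ring

/-- Proof. `DL (List.ofFn h) (cj p * u) = DL .. (cj p) * DL .. u` (`DL_mul`), periodic modulo `p.1` resp. `K` (`FGC4_per`, `FGA7_cjper`). `p.1 * K ∣ R`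
(coprime), so by `FGC5_up` and `KB1_mul`: `Av s R = Av s (p.1 * K) = Av s p.1 (..) * Av s K (..) ≤ Av s p.1 (..)` (`KB1_one`, `DL_norm`), `FGC5_chi`. -/
theorem FGC5 (s : ℕ) (hs : 1 ≤ s) : ∃ C e : ℝ, 0 < C ∧ 0 < e ∧ e ≤ 1 ∧ ∀ p : Ch, 1 ≤ p.1 → p.2.IsPrimitive →
    ∀ R K : ℕ, 1 ≤ R → p.1 ∣ R → 1 ≤ K → K ∣ R → Nat.Coprime K p.1 → ∀ u : ℤ → ℂ, (∀ m, ‖u m‖ ≤ 1) → Pz K u →
    Av s R (fun (y : ℤ) (h : Fin s → ℤ) => DL (List.ofFn h) (fun m => cj p m * u m) y) ≤ C * (p.1 : ℝ) ^ (-e) := by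
  obtain ⟨C, e, hC, he, he1, H⟩ := FGC5_chi s hs
  refine ⟨C, e, hC, he, he1, ?_⟩
  intro p hp hχ R K hR hpR hK hKR hcop u hu huK
  have hd : p.1 * K ∣ R := Nat.Coprime.mul_dvd_of_dvd_of_dvd hcop.symm hpR hKR
  obtain ⟨q, hq⟩ := hd
  have hq1 : 1 ≤ q := by
    rcases Nat.eq_zero_or_pos q with h0 | h0
    · rw [h0, mul_zero] at hq
      omega
    · exact h0
  have hpK : 1 ≤ p.1 * K := Nat.mul_pos hp hK
  have e1 : (fun (y : ℤ) (h : Fin s → ℤ) => DL (List.ofFn h) (fun m => cj p m * u m) y) =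
      fun (y : ℤ) (h : Fin s → ℤ) => DL (List.ofFn h) (cj p) y * DL (List.ofFn h) u y := by
    funext y h
    rw [DL_mul]
  have p1 : Pe p.1 (fun (y : ℤ) (h : Fin s → ℤ) => DL (List.ofFn h) (cj p) y) := FGC4_per s p.1 (cj p) (FGA7_cjper p)
  have p2 : Pe K (fun (y : ℤ) (h : Fin s → ℤ) => DL (List.ofFn h) u y) := FGC4_per s K u huK
  rw [e1, hq, FGC5_up s (p.1 * K) q hpK hq1 _ (KB1_per p.1 K _ _ p1 p2), KB1_mul p.1 K hp hK hcop.symm _ _ p1 p2]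
  refine (mul_le_of_le_one_right (KB1_nn _ _ _) ?_).trans (H p hp hχ)
  exact KB1_one s K hK _ fun y h => DL_norm _ u hu y

end Pool.Agent.HUP
end

-- from Lib.HUP.FGC6
section

/-!
# Project HUP, chunk FGC6 (S/M): the Gowers sum of the function at `i0`
-/

open Finset

namespace Pool.Agent.HUP

open Pool.Agent.Lib.H59P
open Pool.Agent.HUK (GG)

/-- The real inequality. -/
theorem fgc6_real (k s D : ℕ) (C0 C1 e x : ℝ) (hk : 1 ≤ k) (hC0 : 1 ≤ C0) (hC1 : 0 < C1) (he : 0 < e) (he1 : e ≤ 1)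
    (hD : 1 ≤ D) (hx : 1 ≤ x) (hbig : 2 * 8 ^ s * C0 ^ (s + 1) * (C1 + 1) ≤ x ^ (e / (2 * k))) :
    2 * 8 ^ s * ((C0 * (x ^ 2) ^ D) ^ (s + 1) * (C1 * x ^ (-(e / k))) + (C0 * (x ^ 2) ^ D) ^ s * x) ≤
      (x ^ 2) ^ ((D : ℝ) * (s + 1) - e / (4 * k)) := by
  have hx0 : 0 < x := by linarith
  have hk0 : (0 : ℝ) < k := by exact_mod_cast hk
  have hk1 : (1 : ℝ) ≤ k := by exact_mod_cast hk
  have hA : (C0 * (x ^ 2) ^ D) ^ (s + 1) = C0 ^ (s + 1) * x ^ (2 * D * (s + 1)) := by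
    rw [mul_pow, ← pow_mul, ← pow_mul, ← mul_assoc]
  have hek : e / k ≤ 1 := by
    rw [div_le_one hk0]
    linarith
  have hB : (C0 * (x ^ 2) ^ D) ^ s * x ≤ C0 ^ (s + 1) * x ^ (2 * D * (s + 1)) * x ^ (-(e / k)) := by
    have h1 : (C0 * (x ^ 2) ^ D) ^ s = C0 ^ s * x ^ (2 * D * s) := by
      rw [mul_pow, ← pow_mul, ← pow_mul, ← mul_assoc]
    have h2 : x ≤ x ^ 2 * x ^ (-(e / k)) := by
      have h3 : x ^ (-1 : ℝ) ≤ x ^ (-(e / k)) := Real.rpow_le_rpow_of_exponent_le hx (by linarith)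
      have h4 : x ^ 2 * x ^ (-1 : ℝ) = x := by
        rw [Real.rpow_neg_one]
        field_simp
      calc x = x ^ 2 * x ^ (-1 : ℝ) := h4.symm
        _ ≤ x ^ 2 * x ^ (-(e / k)) := mul_le_mul_of_nonneg_left h3 (by positivity)
    have h5 : x ^ (2 * D * s) * x ^ 2 ≤ x ^ (2 * D * (s + 1)) := by
      rw [← pow_add]
      refine pow_le_pow_right₀ hx ?_
      nlinarith
    have h6 : C0 ^ s ≤ C0 ^ (s + 1) := pow_le_pow_right₀ hC0 (Nat.le_succ s)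
    have hr : 0 < x ^ (-(e / k)) := Real.rpow_pos_of_pos hx0 _
    rw [h1]
    calc C0 ^ s * x ^ (2 * D * s) * x ≤ C0 ^ s * x ^ (2 * D * s) * (x ^ 2 * x ^ (-(e / k))) :=
          mul_le_mul_of_nonneg_left h2 (by positivity)
      _ = C0 ^ s * (x ^ (2 * D * s) * x ^ 2) * x ^ (-(e / k)) := by ring
      _ ≤ C0 ^ (s + 1) * x ^ (2 * D * (s + 1)) * x ^ (-(e / k)) := by
          refine mul_le_mul_of_nonneg_right ?_ hr.le
          exact mul_le_mul h6 h5 (by positivity) (by positivity)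
  have hr : 0 < x ^ (-(e / k)) := Real.rpow_pos_of_pos hx0 _
  have h7 : 2 * 8 ^ s * ((C0 * (x ^ 2) ^ D) ^ (s + 1) * (C1 * x ^ (-(e / k))) + (C0 * (x ^ 2) ^ D) ^ s * x) ≤
      2 * 8 ^ s * C0 ^ (s + 1) * (C1 + 1) * (x ^ (2 * D * (s + 1)) * x ^ (-(e / k))) := by
    rw [hA]
    have h8 : C0 ^ (s + 1) * x ^ (2 * D * (s + 1)) * (C1 * x ^ (-(e / k))) + (C0 * (x ^ 2) ^ D) ^ s * x ≤
        C0 ^ (s + 1) * (C1 + 1) * (x ^ (2 * D * (s + 1)) * x ^ (-(e / k))) := by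
      nlinarith [hB]
    have h9 := mul_le_mul_of_nonneg_left h8 (show (0 : ℝ) ≤ 2 * 8 ^ s by positivity)
    refine h9.trans (le_of_eq ?_)
    ring
  refine h7.trans ?_
  have h10 : x ^ (e / (2 * k)) * (x ^ (2 * D * (s + 1)) * x ^ (-(e / k))) = (x ^ 2) ^ ((D : ℝ) * (s + 1) - e / (4 * k)) := by
    rw [← Real.rpow_natCast x (2 * D * (s + 1)), ← Real.rpow_natCast x 2, ← Real.rpow_mul hx0.le, ← Real.rpow_add hx0, ← Real.rpow_add hx0]
    congr 1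
    push_cast
    field_simp
    ring
  rw [← h10]
  exact mul_le_mul_of_nonneg_right hbig (by positivity)

/-- `R = lcm r_i ≤ ∏ r_i` (`d3_lcm_le` in `H24P/D3.lean`), so some `r_i ≥ R^(1/k)` (as in `d3_large`). -/
theorem FGC6_large {k : ℕ} (hk : 1 ≤ k) (r : Fin k → ℕ) (hr : ∀ i, 1 ≤ r i) (R : ℕ) (hR : R = univ.lcm r) :
    ∃ i, (R : ℝ) ^ ((1 : ℝ) / k) ≤ r i := by
  by_contra hcon
  push Not at hcon
  have hk' : ((1 : ℝ) / k) * k = 1 := by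
    have : (k : ℝ) ≠ 0 := by positivity
    field_simp
  have h1 : (∏ i, (r i : ℝ)) < ∏ _i : Fin k, (R : ℝ) ^ ((1 : ℝ) / k) := by
    refine prod_lt_prod_of_nonempty (fun i _ => ?_) (fun i _ => hcon i) ⟨⟨0, hk⟩, mem_univ _⟩
    exact_mod_cast hr i
  rw [prod_const, card_univ, Fintype.card_fin, ← Real.rpow_natCast, ← Real.rpow_mul (by positivity), hk', Real.rpow_one] at h1
  have h2 : (∏ i, r i) < R := by exact_mod_cast h1
  have h3 := Pool.Agent.Lib.H24P.d3_lcm_le r hr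
  omega

/-- Proof. `X = R^2`, `Y = C0 * X^D`. `FGC4` and `FGC5`: `GG ≤ 2 * 8^s (Y^(s+1) C1 r^(-e) + Y^s R)`. `Y^(s+1) = C0^(s+1) R^(2D(s+1))`,
`r^(-e) ≤ R^(-e/k)`, `Y^s R ≤ C0^s R^(2Ds + 1) ≤ C0^s R^(2D(s+1)) R^(-1)` (`D ≥ 1`), `e/k ≤ 1`: at most `C2 R^(2D(s+1) - e/k)`,
`C2 = 2 * 8^s C0^(s+1) (C1 + 1)`. With `κ = e/(4k)`: `R^(2D(s+1) - 2κ) = R^(2D(s+1) - e/k + e/(2k))`, so it suffices that `C2 ≤ R^(e/(2k))`: true for
`R ≥ R0`. -/
theorem FGC6 (k s C0 D : ℕ) (hk : 1 ≤ k) (hs : 1 ≤ s) (hC0 : 1 ≤ C0) (hD : 1 ≤ D) : ∃ κ : ℝ, 0 < κ ∧ ∃ R0 : ℕ,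
    ∀ R : ℕ, R0 ≤ R → 1 ≤ R → ∀ p : Ch, 1 ≤ p.1 → p.2.IsPrimitive → p.1 ∣ R → (R : ℝ) ^ ((1 : ℝ) / k) ≤ p.1 →
    ∀ K : ℕ, 1 ≤ K → K ∣ R → Nat.Coprime K p.1 → ∀ u : ℤ → ℂ, (∀ m, ‖u m‖ ≤ 1) → Pz K u →
    Pool.Agent.HUK.GG (C0 * (R ^ 2) ^ D) s (fun m => if m ∈ Ico (-((C0 * (R ^ 2) ^ D : ℕ) : ℤ)) ((C0 * (R ^ 2) ^ D : ℕ) : ℤ) then
      cj p m * u m else 0) ≤ (((R ^ 2 : ℕ) : ℝ)) ^ ((D : ℝ) * (s + 1) - κ) := by
  obtain ⟨C1, e, hC1, he, he1, H⟩ := FGC5 s hs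
  have hk0 : (0 : ℝ) < k := by exact_mod_cast hk
  have hexp : 0 < e / (2 * k) := by positivity
  have htend : Filter.Tendsto (fun X : ℕ => (X : ℝ) ^ (e / (2 * k))) Filter.atTop Filter.atTop :=
    (tendsto_rpow_atTop hexp).comp tendsto_natCast_atTop_atTop
  obtain ⟨R0, hR0⟩ := Filter.eventually_atTop.1 (htend.eventually_ge_atTop (2 * 8 ^ s * (C0 : ℝ) ^ (s + 1) * (C1 + 1)))
  refine ⟨e / (4 * k), by positivity, R0, ?_⟩
  intro R hRR hR1 p hp1 hprim hpR hlarge K hK1 hKR hcop u hu huK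
  have hC0r : (1 : ℝ) ≤ C0 := by exact_mod_cast hC0
  have hRr : (1 : ℝ) ≤ R := by exact_mod_cast hR1
  have hRpos : (0 : ℝ) < R := by linarith
  have hRY : R ≤ C0 * (R ^ 2) ^ D := by
    have h1 : R ≤ (R ^ 2) ^ D := by
      rw [← pow_mul]
      exact Nat.le_self_pow (by omega) R
    exact h1.trans (Nat.le_mul_of_pos_left _ hC0)
  have hφ : ∀ m, ‖(fun m => cj p m * u m) m‖ ≤ 1 := by
    intro m
    simp only [norm_mul]
    exact mul_le_one₀ (FGA7_cjle p m) (norm_nonneg _) (hu m)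
  have hper : Pz R (fun m => cj p m * u m) := by
    intro m m' hm
    have h1 : cj p m = cj p m' := FGA7_cjper p m m' ((Int.natCast_dvd_natCast.2 hpR).trans hm)
    have h2 : u m = u m' := huK m m' ((Int.natCast_dvd_natCast.2 hKR).trans hm)
    simp only [h1, h2]
  have h1 := FGC4 s R (C0 * (R ^ 2) ^ D) hR1 hRY (fun m => cj p m * u m) hφ hper
  have h2 := H p hp1 hprim R K hR1 hpR hK1 hKR hcop u hu huK
  have h3 : (p.1 : ℝ) ^ (-e) ≤ (R : ℝ) ^ (-(e / k)) := by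
    have h4 : (0 : ℝ) < (R : ℝ) ^ ((1 : ℝ) / k) := Real.rpow_pos_of_pos hRpos _
    have h5 := Real.rpow_le_rpow_of_nonpos h4 hlarge (show -e ≤ 0 by linarith)
    rw [← Real.rpow_mul hRpos.le] at h5
    have h6 : (1 : ℝ) / k * -e = -(e / k) := by ring
    rwa [h6] at h5
  have h4 := h2.trans (mul_le_mul_of_nonneg_left h3 hC1.le)
  refine h1.trans ?_
  push_cast
  refine le_trans ?_ (fgc6_real k s D (C0 : ℝ) C1 e R hk hC0r hC1 he he1 hD hRr (hR0 R hRR))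
  refine mul_le_mul_of_nonneg_left ?_ (by positivity)
  refine add_le_add ?_ le_rfl
  exact mul_le_mul_of_nonneg_left h4 (by positivity)

end Pool.Agent.HUP
end

-- from Lib.HUP.FGC7
section

/-!
# Project HUP, chunk FGC7 (M): the factor at `R` for one `i0`
-/

open Finset Polynomial

namespace Pool.Agent.HUP

open Pool.Agent.Lib.H59P
open Pool.Agent.HUK (GG)

/-- The size of the linear form. -/
theorem fgc7_lf {k d : ℕ} {c : Fin k → Fin d → ℤ} {e : Fin d → ℕ} {D : Fin k → ℕ} {a : Fin k → ℤ} (h : Dat c e D a)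
    (X : ℕ) (t : Fin d → ℤ) (ht : t ∈ tb 0 (fun j => X ^ e j)) (i : Fin k) :
    |lf c t i| ≤ ((∑ j, (c i j).natAbs : ℕ) : ℤ) * (X : ℤ) ^ D i := by
  unfold lf
  refine (Finset.abs_sum_le_sum_abs _ _).trans ?_
  rw [Nat.cast_sum, Finset.sum_mul]
  refine Finset.sum_le_sum fun j _ => ?_
  have ht' := Fintype.mem_piFinset.1 ht j
  rw [mem_Ico] at ht'
  have h1 : |t j| ≤ (X : ℤ) ^ e j := by
    rw [abs_of_nonneg (by simpa using ht'.1)]
    have h2 := ht'.2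
    push_cast at h2
    have h3 : ((0 : Fin d → ℤ) j) = 0 := rfl
    rw [h3, zero_add] at h2
    exact h2.le
  rw [abs_mul, Int.natCast_natAbs]
  by_cases hc : c i j = 0
  · rw [hc, abs_zero, zero_mul, zero_mul]
  · rw [← h.blk i j hc]
    exact mul_le_mul_of_nonneg_left h1 (abs_nonneg _)

/-- The argument is in the window. -/
theorem fgc7_win {k d : ℕ} {c : Fin k → Fin d → ℤ} {e : Fin d → ℕ} {D : Fin k → ℕ} {a : Fin k → ℤ} (h : Dat c e D a)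
    (C0 X R : ℕ) (hR : 1 ≤ R) (hRX : R ≤ X) (i : Fin k)
    (hC0 : (a i).natAbs + D i + ∑ j, (c i j).natAbs + 2 ≤ C0) (P : Fin k → ℤ[X]) (β : Fin k → ℤ)
    (hβ : 0 ≤ β i ∧ β i < R) (n : ℤ) (hP : |(P i).eval n| ≤ ((a i).natAbs + D i) * (X : ℤ) ^ D i)
    (t : Fin d → ℤ) (ht : t ∈ tb 0 (fun j => X ^ e j)) :
    (P i).eval n + (β i + lf c t i) ∈ Ico (-((C0 * X ^ D i : ℕ) : ℤ)) ((C0 * X ^ D i : ℕ) : ℤ) := by
  have h1 := fgc7_lf h X t ht i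
  have hX : (1 : ℤ) ≤ X := by exact_mod_cast hR.trans hRX
  have h2 : β i < (X : ℤ) ^ D i := by
    refine hβ.2.trans_le ?_
    have h3 : (R : ℤ) ≤ X := by exact_mod_cast hRX
    exact h3.trans (le_self_pow₀ hX (by have := h.deg i; omega))
  have hX1 : (1 : ℤ) ≤ (X : ℤ) ^ D i := one_le_pow₀ hX
  have hC : (((a i).natAbs : ℤ) + D i + ((∑ j, (c i j).natAbs : ℕ) : ℤ) + 2) * (X : ℤ) ^ D i ≤
      (C0 : ℤ) * (X : ℤ) ^ D i := by
    refine mul_le_mul_of_nonneg_right ?_ (by linarith)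
    exact_mod_cast hC0
  have h4 := abs_le.1 h1
  have h5 := abs_le.1 hP
  rw [mem_Ico]
  push_cast
  push_cast at hC h4 h5
  constructor
  · nlinarith [h4.1, h5.1, hβ.1]
  · nlinarith [h4.2, h5.2]

/-- The mean with weights for polynomials with small lower coefficients. Proof. `C0 = ∑ i, ((a i).natAbs + D i + ∑ j, (c i j).natAbs) + 2`, `s` from
`FMT i0 C0`, `κ` from `FGC6` (with `k`, `s`, `C0`, `D i0`), `δ` and `X0` from `FMT`; `R1 ≥ R0` of `FGC6`, `R1 ≥ X0`, `1`. Given `w : ℤ → ℂ`, replace it by the periodic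
`n ↦ w (n % R)` (the same on `Ico 0 R`). `FMT` with `X = R^2`, `b = 0`, `σ j = X^(e j)`, `n0 = 0`, `N = X`, `f i m = cj (p i) m * u i m` times the
indicator function of `[-C0 X^(D i), C0 X^(D i))` (for ALL `i`). In the range all arguments are in the windows:
`|P i (n)| ≤ (|a i| + D i) X^(D i)` (hypothesis), `0 ≤ β i < R ≤ X^(D i)`, `|lf c t i| ≤ ∑_j |c i j| X^(e j)` and `e j = D i` where `c i j ≠ 0` (`Dat.blk`). So the sum is
that of `FGC3` with `G n t = ∏ i, cj (p i) (yy ..) * u i (yy ..)` (periodic modulo `R`: `FGA7_yy`, `FGA7_cjper`, `FGA7_up`), and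
`∑_{B0} ≤ R^d X^(2 + ∑ e j - δ) / (X^(∑ e j) R^2) = R^(d + 2) R^(-2δ)`, i.e. `(R^(-δ))^2 R^d R^2`. -/
theorem FGC7_w {k d : ℕ} {c : Fin k → Fin d → ℤ} {e : Fin d → ℕ} {D : Fin k → ℕ} {a : Fin k → ℤ} (h : Dat c e D a)
    (hF : FMT c e D a) (i0 : Fin k) : ∃ δ : ℝ, 0 < δ ∧ ∃ R1 : ℕ, ∀ P : Fin k → ℤ[X], HasD D a P →
    ∀ (β : Fin k → ℤ) (p : Fin k → Ch), (∀ i, 1 ≤ (p i).1 ∧ (p i).2.IsPrimitive) → ∀ R : ℕ,
    R = univ.lcm (fun i => (p i).1) → R1 ≤ R → (R : ℝ) ^ ((1 : ℝ) / k) ≤ (p i0).1 → (∀ i, 0 ≤ β i ∧ β i < R) →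
    (∀ (i : Fin k) (X : ℕ) (n : ℤ), R ≤ X → 0 ≤ n → n < X → |(P i).eval n| ≤ ((a i).natAbs + D i) * (X : ℤ) ^ D i) →
    ∀ (K : Fin k → ℕ) (u : Fin k → ℤ → ℂ), (∀ i, 1 ≤ K i ∧ K i ∣ R ∧ Nat.Coprime (K i) (p i).1) →
    (∀ i, Pz (K i) (u i)) → (∀ i m, ‖u i m‖ ≤ 1) → ∀ w : ℤ → ℂ, (∀ n, ‖w n‖ ≤ 1) →
    ∑ t ∈ B0 d R, ‖∑ n ∈ Ico (0 : ℤ) R, w n * ∏ i, (cj (p i) (yy c P β i n t) * u i (yy c P β i n t))‖ ^ 2 ≤
      ((R : ℝ) ^ (-δ)) ^ 2 * (R : ℝ) ^ d * (R : ℝ) ^ 2 := by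
  have hk : 1 ≤ k := Nat.one_le_iff_ne_zero.2 (fun h0 => by subst h0; exact i0.elim0)
  obtain ⟨s, hs2, hF1⟩ := hF i0 (∑ i, ((a i).natAbs + D i + ∑ j, (c i j).natAbs + 2))
  set C0 : ℕ := ∑ i, ((a i).natAbs + D i + ∑ j, (c i j).natAbs + 2) with hC0
  have hC0i : ∀ i, (a i).natAbs + D i + ∑ j, (c i j).natAbs + 2 ≤ C0 := fun i =>
    Finset.single_le_sum (f := fun i => (a i).natAbs + D i + ∑ j, (c i j).natAbs + 2) (fun _ _ => Nat.zero_le _)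
      (mem_univ i)
  have hC01 : 1 ≤ C0 := by have := hC0i i0; omega
  obtain ⟨κ, hκ, R0, h6⟩ := FGC6 k s C0 (D i0) hk (by omega) hC01 (h.deg i0)
  obtain ⟨δ, hδ, X0, hF2⟩ := hF1 κ hκ
  refine ⟨δ, hδ, R0 + X0 + 1, ?_⟩
  intro P hP β p hp R hR hR1 hpi0 hβ hPb K u hK hu hule w hw
  have hR1' : 1 ≤ R := by omega
  have hRX : R ≤ R ^ 2 := by nlinarith
  set w' : ℤ → ℂ := fun n => w (n % R) with hw'
  have hwper : Pz R w' := by
    intro m m' hm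
    rw [hw']
    exact congrArg w (Int.emod_eq_emod_iff_emod_sub_eq_zero.2 (Int.emod_eq_zero_of_dvd hm))
  have hdiv : ∀ i, (p i).1 ∣ R := fun i => by
    rw [hR]
    exact Finset.dvd_lcm (mem_univ i)
  set G : ℤ → (Fin d → ℤ) → ℂ := fun n t => ∏ i, (cj (p i) (yy c P β i n t) * u i (yy c P β i n t)) with hG
  have hGper : ∀ (n m : ℤ) (t t' : Fin d → ℤ), (R : ℤ) ∣ n - m → (∀ j, (R : ℤ) ∣ t j - t' j) → G n t = G m t' := by
    intro n m t t' h1 h2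
    refine Finset.prod_congr rfl fun i _ => ?_
    have h3 := FGA7_yy c P β i R n m t t' h1 h2
    rw [FGA7_up _ R (hdiv i) _ (FGA7_cjper (p i)) _ _ h3, FGA7_up _ R (hK i).2.1 _ (hu i) _ _ h3]
  have h3 := FGC3 R hR1' e h.par G hGper w' hwper
  -- the second moment
  have hmom := hF2 (R ^ 2) (by omega) P hP β 0 (fun j => (R ^ 2) ^ e j)
    (fun j => Nat.le_mul_of_pos_left _ (by omega)) 0 (R ^ 2)
    (by rw [zero_add]; exact Nat.le_mul_of_pos_left _ (by omega)) (fun n => w' (n : ℤ)) (fun n => hw _)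
    (fun i m => if m ∈ Ico (-((C0 * (R ^ 2) ^ D i : ℕ) : ℤ)) ((C0 * (R ^ 2) ^ D i : ℕ) : ℤ) then
      cj (p i) m * u i m else 0)
    (by
      intro i m
      by_cases hm : m ∈ Ico (-((C0 * (R ^ 2) ^ D i : ℕ) : ℤ)) ((C0 * (R ^ 2) ^ D i : ℕ) : ℤ)
      · rw [if_pos hm, norm_mul]
        exact mul_le_one₀ (FGA7_cjle _ _) (norm_nonneg _) (hule _ _)
      · rw [if_neg hm, norm_zero]
        exact zero_le_one)
    (fun i m hm => if_neg hm)
    (h6 R (by omega) hR1' (p i0) (hp i0).1 (hp i0).2 (hdiv i0) hpi0 (K i0) (hK i0).1 (hK i0).2.1 (hK i0).2.2 (u i0)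
      (hule i0) (hu i0))
  have hlong : ∑ t ∈ tb 0 (fun j => (R ^ 2) ^ e j),
      ‖∑ n ∈ Ico (0 : ℕ) (0 + R ^ 2), w' ((n : ℕ) : ℤ) * G ((n : ℕ) : ℤ) t‖ ^ 2 ≤
        ((R ^ 2 : ℕ) : ℝ) ^ (2 + (∑ j, (e j : ℝ)) - δ) := by
    refine le_trans (le_of_eq ?_) hmom
    refine Finset.sum_congr rfl fun t ht => ?_
    congr 2
    refine Finset.sum_congr rfl fun n hn => ?_
    congr 1
    refine Finset.prod_congr rfl fun i _ => ?_
    rw [mem_Ico, zero_add] at hn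
    have h7 := fgc7_win h C0 (R ^ 2) R hR1' hRX i (hC0i i) P β (hβ i) (n : ℤ)
      (hPb i (R ^ 2) n hRX (by omega) (by exact_mod_cast hn.2)) t ht
    rw [if_pos h7]
    rfl
  have hshort : ∑ t ∈ B0 d R, ‖∑ n ∈ Ico (0 : ℤ) R, w n * G n t‖ ^ 2 =
      ∑ t ∈ B0 d R, ‖∑ n ∈ Ico (0 : ℤ) R, w' n * G n t‖ ^ 2 := by
    refine Finset.sum_congr rfl fun t _ => ?_
    congr 2
    refine Finset.sum_congr rfl fun n hn => ?_
    rw [mem_Ico] at hn
    rw [hw']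
    change w n * G n t = w (n % R) * G n t
    rw [Int.emod_eq_of_lt hn.1 hn.2]
  change ∑ t ∈ B0 d R, ‖∑ n ∈ Ico (0 : ℤ) R, w n * G n t‖ ^ 2 ≤ _
  rw [hshort]
  have hRpos : (0 : ℝ) < R := by exact_mod_cast hR1'
  have hprod : (∏ j, ((R : ℝ) ^ 2) ^ e j) = ((R : ℝ) ^ 2) ^ (∑ j, (e j : ℝ)) := by
    rw [Finset.prod_pow_eq_pow_sum, ← Real.rpow_natCast ((R : ℝ) ^ 2), Nat.cast_sum]
  have hY : (0 : ℝ) < (R : ℝ) ^ 2 := by positivity
  rw [hprod] at h3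
  set S1 := ∑ t ∈ tb 0 (fun j => (R ^ 2) ^ e j),
      ‖∑ n ∈ Ico (0 : ℕ) (0 + R ^ 2), w' ((n : ℕ) : ℤ) * G ((n : ℕ) : ℤ) t‖ ^ 2 with hS1
  set S2 := ∑ t ∈ B0 d R, ‖∑ n ∈ Ico (0 : ℤ) R, w' n * G n t‖ ^ 2 with hS2
  have hpw : ((R ^ 2 : ℕ) : ℝ) ^ (2 + (∑ j, (e j : ℝ)) - δ) =
      ((R : ℝ) ^ 2) ^ (∑ j, (e j : ℝ)) * ((R : ℝ) ^ 2 * ((R : ℝ) ^ 2 * ((R : ℝ) ^ (-δ)) ^ 2)) := by
    push_cast
    rw [show 2 + (∑ j, (e j : ℝ)) - δ = (∑ j, (e j : ℝ)) + (2 + (-δ)) by ring, Real.rpow_add hY, Real.rpow_add hY,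
      ← Real.rpow_natCast ((R : ℝ) ^ (-δ)) 2, ← Real.rpow_natCast ((R : ℝ)) 2, ← Real.rpow_mul hRpos.le,
      ← Real.rpow_mul hRpos.le, ← Real.rpow_mul hRpos.le, ← Real.rpow_mul hRpos.le]
    congr 1
    rw [← Real.rpow_add hRpos, ← Real.rpow_add hRpos, ← Real.rpow_add hRpos]
    congr 1
    push_cast
    ring
  rw [hpw] at hlong
  have hE : (0 : ℝ) < ((R : ℝ) ^ 2) ^ (∑ j, (e j : ℝ)) := Real.rpow_pos_of_pos hY _
  have h8 : ((R : ℝ) ^ 2) ^ (∑ j, (e j : ℝ)) * ((R : ℝ) ^ 2 * S2) ≤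
      ((R : ℝ) ^ 2) ^ (∑ j, (e j : ℝ)) * ((R : ℝ) ^ 2 * (((R : ℝ) ^ (-δ)) ^ 2 * (R : ℝ) ^ d * (R : ℝ) ^ 2)) := by
    rw [← h3]
    refine (mul_le_mul_of_nonneg_left hlong (by positivity)).trans (le_of_eq ?_)
    ring
  exact le_of_mul_le_mul_left (le_of_mul_le_mul_left h8 hE) hY

/-- Proof. `FGC1` gives `P'`, and `β' i = β i % R`; `yy c P β i n t ≡ yy c P' β' i n t` modulo `R`, all functions have period `R`, so `ms` does not
change when `P`, `β` are replaced by `P'`, `β'` (pointwise). `∏ i, (A i * B i) = (∏ i, A i) * ∏ i, B i`, `FGC2` with `δ = R^(-δ)`, `FGC7_w`. -/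
theorem FGC7 {k d : ℕ} {c : Fin k → Fin d → ℤ} {e : Fin d → ℕ} {D : Fin k → ℕ} {a : Fin k → ℤ} (h : Dat c e D a)
    (hF : FMT c e D a) (i0 : Fin k) : ∃ δ : ℝ, 0 < δ ∧ ∃ R1 : ℕ, ∀ P : Fin k → ℤ[X], HasD D a P →
    ∀ (β : Fin k → ℤ) (p : Fin k → Ch), (∀ i, 1 ≤ (p i).1 ∧ (p i).2.IsPrimitive) → ∀ R : ℕ,
    R = univ.lcm (fun i => (p i).1) → R1 ≤ R → (R : ℝ) ^ ((1 : ℝ) / k) ≤ (p i0).1 →
    ∀ (K : Fin k → ℕ) (u g' : Fin k → ℤ → ℂ), (∀ i, 1 ≤ K i ∧ K i ∣ R ∧ Nat.Coprime (K i) (p i).1) →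
    (∀ i, Pz (K i) (u i)) → (∀ i m, ‖u i m‖ ≤ 1) → (∀ i, Pz R (g' i)) → (∀ i m, ‖g' i m‖ ≤ 1) →
    ms R (fun n n' t => ∏ i, ((cj (p i) (yy c P β i n t) * u i (yy c P β i n t)) * g' i (yy c P β i n' t))) ≤
      (R : ℝ) ^ (-δ) := by
  obtain ⟨δ, hδ, R1, h7⟩ := FGC7_w h hF i0
  refine ⟨δ, hδ, R1 + 1, ?_⟩
  intro P hP β p hp R hR hR1 hpi0 K u g' hK hu hule hg hgle
  have hR1' : 1 ≤ R := by omega
  obtain ⟨P', hP', hPP, hPb⟩ := FGC1 D a h.deg P hP R hR1'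
  have hRz : (0 : ℤ) < R := by exact_mod_cast hR1'
  have hdiv : ∀ i, (p i).1 ∣ R := fun i => by
    rw [hR]
    exact Finset.dvd_lcm (mem_univ i)
  have hyy : ∀ (i : Fin k) (n : ℤ) (t : Fin d → ℤ),
      (R : ℤ) ∣ yy c P β i n t - yy c P' (fun i => β i % R) i n t := by
    intro i n t
    unfold yy
    have h1 : (R : ℤ) ∣ β i - β i % R := Int.dvd_self_sub_emod
    have h2 := dvd_add (hPP i n) h1
    have h3 : (P i).eval n + (β i + lf c t i) - ((P' i).eval n + (β i % R + lf c t i)) =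
        (P i).eval n - (P' i).eval n + (β i - β i % R) := by ring
    rw [h3]
    exact h2
  have hcj : ∀ (i : Fin k) (n : ℤ) (t : Fin d → ℤ),
      cj (p i) (yy c P β i n t) = cj (p i) (yy c P' (fun i => β i % R) i n t) := fun i n t =>
    FGA7_up _ R (hdiv i) _ (FGA7_cjper (p i)) _ _ (hyy i n t)
  have huu : ∀ (i : Fin k) (n : ℤ) (t : Fin d → ℤ),
      u i (yy c P β i n t) = u i (yy c P' (fun i => β i % R) i n t) := fun i n t =>
    FGA7_up _ R (hK i).2.1 _ (hu i) _ _ (hyy i n t)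
  have hgg : ∀ (i : Fin k) (n : ℤ) (t : Fin d → ℤ),
      g' i (yy c P β i n t) = g' i (yy c P' (fun i => β i % R) i n t) := fun i n t => hg i _ _ (hyy i n t)
  have hF' : (fun (n n' : ℤ) (t : Fin d → ℤ) =>
        ∏ i, ((cj (p i) (yy c P β i n t) * u i (yy c P β i n t)) * g' i (yy c P β i n' t))) =
      fun n n' t => (∏ i, (cj (p i) (yy c P' (fun i => β i % R) i n t) * u i (yy c P' (fun i => β i % R) i n t))) *
        ∏ i, g' i (yy c P' (fun i => β i % R) i n' t) := by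
    funext n n' t
    rw [← Finset.prod_mul_distrib]
    exact Finset.prod_congr rfl fun i _ => by rw [hcj, huu, hgg]
  rw [hF']
  refine FGC2 R hR1' (fun n t => ∏ i, (cj (p i) (yy c P' (fun i => β i % R) i n t) *
      u i (yy c P' (fun i => β i % R) i n t))) (fun n t => ∏ i, g' i (yy c P' (fun i => β i % R) i n t))
    (fun n t => ?_) (fun n t => ?_) ((R : ℝ) ^ (-δ)) (by positivity) ?_
  · rw [norm_prod]
    refine Finset.prod_le_one (fun _ _ => norm_nonneg _) fun i _ => ?_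
    rw [norm_mul]
    exact mul_le_one₀ (FGA7_cjle _ _) (norm_nonneg _) (hule _ _)
  · rw [norm_prod]
    exact Finset.prod_le_one (fun _ _ => norm_nonneg _) fun i _ => hgle _ _
  · intro w hw
    exact h7 P' hP' (fun i => β i % R) p hp R hR (by omega) hpi0
      (fun i => ⟨Int.emod_nonneg _ hRz.ne', Int.emod_lt_of_pos _ hRz⟩) hPb K u hK hu hule w hw

end Pool.Agent.HUP
end

-- from Lib.HUP.FGC8
section

/-!
# Project HUP, chunk FGC8 (S): the interface `ChB`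
-/

open Finset Polynomial

namespace Pool.Agent.HUP

open Pool.Agent.Lib.H59P

theorem fgc8_cj (p : Ch) (m : ℤ) : ‖cj p m‖ ≤ 1 := by
  unfold cj
  rw [RCLike.norm_conj]
  exact DirichletCharacter.norm_le_one _ _

theorem fgc8_min {k : ℕ} (δ : Fin k → ℝ) (hδ : ∀ i, 0 < δ i) : ∃ c0 : ℝ, 0 < c0 ∧ c0 ≤ 1 ∧ ∀ i, c0 ≤ δ i := by
  rcases Nat.eq_zero_or_pos k with hk | hk
  · subst hk
    exact ⟨1, one_pos, le_rfl, fun i => i.elim0⟩
  · have hne : (univ : Finset (Fin k)).Nonempty := ⟨⟨0, hk⟩, mem_univ _⟩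
    refine ⟨min 1 (univ.inf' hne δ), lt_min one_pos ?_, min_le_left _ _, fun i => ?_⟩
    · rw [Finset.lt_inf'_iff]
      exact fun i _ => hδ i
    · exact (min_le_right _ _).trans (Finset.inf'_le _ (mem_univ i))

/-- Proof. `δ i`, `R1 i` from `FGC7` for every `i0 = i` (`choose`); `c0 ≤ δ i` for all `i` and `0 < c0 ≤ 1` (finite minimum), `R1 i ≤ N` for all `i`
(`∑ i, R1 i`), `C = N + 1`. If `R ≤ N` (or `k = 0`, where `R = 1`): `ms ≤ 1 ≤ C R^(-c0)` (`FGA5_one`; `R^(-c0) ≥ R^(-1)`). If `R > N`, `k ≥ 1`: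
`FGC6_large` gives `i0`, `FGC7`: `ms ≤ R^(-δ i0) ≤ R^(-c0)`. -/
theorem ChB_of {k d : ℕ} {c : Fin k → Fin d → ℤ} {e : Fin d → ℕ} {D : Fin k → ℕ} {a : Fin k → ℤ} (h : Dat c e D a)
    (hF : FMT c e D a) : ChB c D a := by
  classical
  choose δ hδ R1 hR using fun i => FGC7 h hF i
  obtain ⟨c0, hc0, hc1, hcδ⟩ := fgc8_min δ hδ
  refine ⟨((∑ i, R1 i : ℕ) : ℝ) + 1, c0, by positivity, hc0, hc1, ?_⟩
  intro P hP β p hp R hRl K u g' hK hu hu1 hg hg1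
  have hR1 : 1 ≤ R := by
    rw [Nat.one_le_iff_ne_zero, hRl]
    intro h0
    rw [Finset.lcm_eq_zero_iff] at h0
    obtain ⟨i, -, hi⟩ := h0
    have := (hp i).1
    omega
  have hRr : (1 : ℝ) ≤ R := by exact_mod_cast hR1
  have hle1 : ms R (fun n n' t => ∏ i, ((cj (p i) (yy c P β i n t) * u i (yy c P β i n t)) *
      g' i (yy c P β i n' t))) ≤ 1 := by
    refine FGA5_one R hR1 _ ?_
    intro n n' t
    rw [norm_prod]
    refine Finset.prod_le_one (fun i _ => norm_nonneg _) (fun i _ => ?_)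
    rw [norm_mul, norm_mul]
    exact mul_le_one₀ (mul_le_one₀ (fgc8_cj _ _) (norm_nonneg _) (hu1 _ _)) (norm_nonneg _) (hg1 _ _)
  by_cases hRN : R ≤ (∑ i, R1 i) + 1
  · refine hle1.trans ?_
    have h1 : (R : ℝ) ^ (-(1 : ℝ)) ≤ (R : ℝ) ^ (-c0) :=
      Real.rpow_le_rpow_of_exponent_le hRr (by linarith)
    have h2 : (R : ℝ) ≤ ((∑ i, R1 i : ℕ) : ℝ) + 1 := by exact_mod_cast hRN
    have h3 : (R : ℝ) * (R : ℝ) ^ (-(1 : ℝ)) = 1 := by
      rw [Real.rpow_neg_one]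
      exact mul_inv_cancel₀ (by positivity)
    have h4 : (0 : ℝ) ≤ (R : ℝ) ^ (-(1 : ℝ)) := by positivity
    calc (1 : ℝ) = (R : ℝ) * (R : ℝ) ^ (-(1 : ℝ)) := h3.symm
      _ ≤ (((∑ i, R1 i : ℕ) : ℝ) + 1) * (R : ℝ) ^ (-c0) := by
        apply mul_le_mul h2 h1 h4 (by positivity)
  · have hk : 1 ≤ k := by
      by_contra hk0
      have hk0 : k = 0 := by omega
      subst hk0
      apply hRN
      rw [hRl]
      simp
    obtain ⟨i0, hi0⟩ := FGC6_large hk (fun i => (p i).1) (fun i => (hp i).1) R hRl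
    have hle : R1 i0 ≤ R := by
      have h1 : R1 i0 ≤ ∑ i, R1 i := Finset.single_le_sum (fun i _ => Nat.zero_le _) (mem_univ i0)
      omega
    have h5 := hR i0 P hP β p hp R hRl hle hi0 K u g' hK hu hu1 hg hg1
    refine h5.trans ?_
    have h6 : (R : ℝ) ^ (-δ i0) ≤ (R : ℝ) ^ (-c0) :=
      Real.rpow_le_rpow_of_exponent_le hRr (by linarith [hcδ i0])
    have h7 : (0 : ℝ) ≤ (R : ℝ) ^ (-c0) := by positivity
    have h8 : (0 : ℝ) ≤ ((∑ i, R1 i : ℕ) : ℝ) := Nat.cast_nonneg _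
    nlinarith [mul_nonneg h8 h7]

end Pool.Agent.HUP
end

-- from Lib.HUP.FGA12
section

/-!
# Project HUP, chunk FGA12 (S/M): the large sieve from the two interfaces
-/

open Finset Polynomial

namespace Pool.Agent.HUP

open Pool.Agent.Lib.H68T Pool.Agent.Lib.H18Q Pool.Agent.Lib.H59P Pool.Agent.Lib.H24P

/-- Proof. `E = 5 k`, `C`, `ρ` from `FGA11`. For `t ∈ tb b s`: `((hh c β t i : ℕ) : ℤ) = β i + lf c t i` (non-negative), so the argument of `gk` is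
`yy c P β i n t`; `FGA7_gk` (`κ i` squarefree): the inner product is `(∏ i, r_i/φ(r_i)) * ∏ i, ph ..`, so the left side is
`(∏ i, r_i/φ(r_i))²` times that of `FGA11`, and `r/φ(r) ≤ 2 (1 + log r) ≤ 2 (1 + log Q)` (`M3b` in `H59P/M3B.lean`), so the factor is at most
`(2 (1 + log Q))^(2k)`. `Cc = 4^k C + 2 k + 1`, `cc = ρ`. -/
theorem FG_red {k d : ℕ} {c : Fin k → Fin d → ℤ} {D : Fin k → ℕ} {a : Fin k → ℤ} (hL : LocB c D a) (hC : ChB c D a) :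
    FGTU c D a := by
  obtain ⟨C, ρ, hC0, hρ, hρ1, h⟩ := FGA11 hL hC
  have h4C : 0 ≤ (4 : ℝ) ^ k * C := by positivity
  have h2k : (0 : ℝ) ≤ 2 * (k : ℝ) := by positivity
  refine ⟨5 * k, 4 ^ k * C + 2 * k + 1, ρ, ⟨by linarith, hρ, hρ1⟩, ?_⟩
  intro P hP Qm b s β hQm hs hβ Q hQ hQQm p hp T hT D' hD1 hD2 a0 H hH w
  have hs' : ∀ j, Q ^ (5 * k) ≤ s j := fun j => (Nat.pow_le_pow_left hQQm _).trans (hs j)
  have h1 := h P hP β Q hQ p hp T hT D' hD1 hD2 b s hs' a0 H hH w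
  have hQr : (1 : ℝ) ≤ (Q : ℝ) := by exact_mod_cast hQ
  obtain ⟨R, hR⟩ : ∃ R : ℝ, R = ∏ i, ((p i).1 : ℝ) / (Nat.totient (p i).1 : ℝ) := ⟨_, rfl⟩
  have hR0 : 0 ≤ R := by
    rw [hR]
    exact prod_nonneg fun i _ => div_nonneg (Nat.cast_nonneg _) (Nat.cast_nonneg _)
  obtain ⟨Lg, hLg⟩ : ∃ Lg : ℝ, Lg = 1 + Real.log Q := ⟨_, rfl⟩
  have hLg1 : 1 ≤ Lg := by
    rw [hLg]
    have := Real.log_nonneg hQr
    linarith
  have hRle : R ≤ (2 * Lg) ^ k := by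
    calc R = ∏ i, ((p i).1 : ℝ) / (Nat.totient (p i).1 : ℝ) := hR
      _ ≤ ∏ i : Fin k, 2 * Lg := by
          refine prod_le_prod (fun i _ => div_nonneg (Nat.cast_nonneg _) (Nat.cast_nonneg _)) fun i _ => ?_
          obtain ⟨h2, h3, -⟩ := mem_PC.1 (hp i)
          refine (M3b (p i).1 h2).trans ?_
          have h4 : (1 : ℝ) ≤ ((p i).1 : ℝ) := by exact_mod_cast h2
          have h5 : Real.log ((p i).1 : ℝ) ≤ Real.log Q := Real.log_le_log (by linarith) (by exact_mod_cast h3)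
          rw [hLg]
          linarith
      _ = (2 * Lg) ^ k := by rw [prod_const, card_univ, Fintype.card_fin]
  have hterm : ∀ t ∈ tb b s, ‖∑ n ∈ Ico a0 (a0 + H), w n *
        ∑ κ ∈ T, ∏ i, gk (p i) (κ i) ((P i).eval (n : ℤ) + (hh c β t i : ℕ))‖ ^ 2 =
      R ^ 2 * ‖∑ n ∈ Ico a0 (a0 + H), w n * ∑ κ ∈ T, ∏ i, ph (p i) (κ i) (yy c P β i n t)‖ ^ 2 := by
    intro t ht
    have e0 : ∀ (n : ℕ) (i : Fin k), (P i).eval (n : ℤ) + ((hh c β t i : ℕ) : ℤ) = yy c P β i n t := by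
      intro n i
      unfold yy hh
      rw [Int.toNat_of_nonneg (hβ t ht i)]
    have e1 : ∀ (n : ℕ), ∀ κ ∈ T, ∏ i, gk (p i) (κ i) ((P i).eval (n : ℤ) + (hh c β t i : ℕ)) =
        (R : ℂ) * ∏ i, ph (p i) (κ i) (yy c P β i n t) := by
      intro n κ hκ
      rw [hR, Complex.ofReal_prod, ← prod_mul_distrib]
      refine prod_congr rfl fun i _ => ?_
      rw [e0 n i]
      exact FGA7_gk (p i) (κ i) (CA_mem_KS.1 (Fintype.mem_piFinset.1 (hT hκ) i)).2.1 _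
    have e2 : ∑ n ∈ Ico a0 (a0 + H), w n *
        ∑ κ ∈ T, ∏ i, gk (p i) (κ i) ((P i).eval (n : ℤ) + (hh c β t i : ℕ)) =
        (R : ℂ) * ∑ n ∈ Ico a0 (a0 + H), w n * ∑ κ ∈ T, ∏ i, ph (p i) (κ i) (yy c P β i n t) := by
      rw [mul_sum]
      refine sum_congr rfl fun n _ => ?_
      rw [sum_congr rfl (e1 n), ← mul_sum]
      ring
    rw [e2, norm_mul, Complex.norm_real, Real.norm_of_nonneg hR0, mul_pow]
  have hY : 0 ≤ ((tb b s).card : ℝ) * (H * ∑ n ∈ Ico a0 (a0 + H), ‖w n‖ ^ 2) * (D' : ℝ) ^ (-ρ) :=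
    mul_nonneg (mul_nonneg (Nat.cast_nonneg _) (mul_nonneg (Nat.cast_nonneg _) (sum_nonneg fun n _ => sq_nonneg _)))
      (Real.rpow_nonneg (Nat.cast_nonneg _) _)
  have hfac : R ^ 2 * C ≤ (4 ^ k * C + 2 * k + 1) * Lg ^ (4 ^ k * C + 2 * (k : ℝ) + 1) := by
    have h2 : R ^ 2 ≤ 4 ^ k * Lg ^ (2 * k) := by
      calc R ^ 2 ≤ ((2 * Lg) ^ k) ^ 2 := pow_le_pow_left₀ hR0 hRle 2
        _ = 4 ^ k * Lg ^ (2 * k) := by
          have e : (2 * Lg) ^ 2 = 4 * Lg ^ 2 := by ring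
          rw [← pow_mul, mul_comm k 2, pow_mul, e, mul_pow, ← pow_mul]
    have h3 : Lg ^ (2 * k) ≤ Lg ^ (4 ^ k * C + 2 * (k : ℝ) + 1) := by
      rw [← Real.rpow_natCast]
      refine Real.rpow_le_rpow_of_exponent_le hLg1 ?_
      push_cast
      linarith
    have h5 : 0 ≤ Lg ^ (2 * k) := by positivity
    calc R ^ 2 * C ≤ 4 ^ k * Lg ^ (2 * k) * C := mul_le_mul_of_nonneg_right h2 hC0.le
      _ = (4 ^ k * C) * Lg ^ (2 * k) := by ring
      _ ≤ (4 ^ k * C + 2 * k + 1) * Lg ^ (4 ^ k * C + 2 * (k : ℝ) + 1) :=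
          mul_le_mul (by linarith) h3 h5 (by linarith)
  show ∑ t ∈ tb b s, ‖∑ n ∈ Ico a0 (a0 + H), w n *
        ∑ κ ∈ T, ∏ i, gk (p i) (κ i) ((P i).eval (n : ℤ) + (hh c β t i : ℕ))‖ ^ 2 ≤ _
  rw [sum_congr rfl hterm, ← mul_sum, ← hLg]
  calc R ^ 2 * ∑ t ∈ tb b s, ‖∑ n ∈ Ico a0 (a0 + H), w n * ∑ κ ∈ T, ∏ i, ph (p i) (κ i) (yy c P β i n t)‖ ^ 2
      ≤ R ^ 2 * (C * (tb b s).card * (H * ∑ n ∈ Ico a0 (a0 + H), ‖w n‖ ^ 2) * (D' : ℝ) ^ (-ρ)) :=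
        mul_le_mul_of_nonneg_left h1 (sq_nonneg R)
    _ = (R ^ 2 * C) * (((tb b s).card : ℝ) * (H * ∑ n ∈ Ico a0 (a0 + H), ‖w n‖ ^ 2) * (D' : ℝ) ^ (-ρ)) := by ring
    _ ≤ ((4 ^ k * C + 2 * k + 1) * Lg ^ (4 ^ k * C + 2 * (k : ℝ) + 1)) *
        (((tb b s).card : ℝ) * (H * ∑ n ∈ Ico a0 (a0 + H), ‖w n‖ ^ 2) * (D' : ℝ) ^ (-ρ)) :=
        mul_le_mul_of_nonneg_right hfac hY
    _ = _ := by ring

end Pool.Agent.HUP
end

-- from Lib.HUP.FGL0
section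

/-!
# Project HUP, chunk FGL0 (S): translations of complete sums
-/

open Finset

namespace Pool.Agent.HUP

open Pool.Agent.Lib.H59P (gl)
open Pool.Agent.HUK (KB4A_mod KB4A_zero KB4A_two)

theorem FGL0_card (d M : ℕ) : (B0 d M).card = M ^ d := by
  unfold B0
  rw [Fintype.card_piFinset]
  simp

/-- Proof. `t ↦ (t j + v j) % M` is a bijection of `B0 d M`, and `f` is periodic. -/
theorem FGL0_shift {d : ℕ} (M : ℕ) (hM : 1 ≤ M) (f : (Fin d → ℤ) → ℝ)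
    (hf : ∀ t t' : Fin d → ℤ, (∀ j, (M : ℤ) ∣ t j - t' j) → f t = f t') (v : Fin d → ℤ) :
    ∑ t ∈ B0 d M, f (fun j => t j + v j) = ∑ t ∈ B0 d M, f t := by
  have hM0 : (0 : ℤ) < M := by exact_mod_cast hM
  refine sum_nbij' (fun t j => (t j + v j) % (M : ℤ)) (fun t j => (t j - v j) % (M : ℤ)) ?_ ?_ ?_ ?_ ?_
  · intro t _
    refine Fintype.mem_piFinset.2 fun j => mem_Ico.2 ⟨Int.emod_nonneg _ hM0.ne', Int.emod_lt_of_pos _ hM0⟩
  · intro t _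
    refine Fintype.mem_piFinset.2 fun j => mem_Ico.2 ⟨Int.emod_nonneg _ hM0.ne', Int.emod_lt_of_pos _ hM0⟩
  · intro t ht
    funext j
    have h1 := mem_Ico.1 (Fintype.mem_piFinset.1 ht j)
    show ((t j + v j) % (M : ℤ) - v j) % (M : ℤ) = t j
    rw [Int.emod_sub_emod, add_sub_cancel_right]
    exact Int.emod_eq_of_lt h1.1 h1.2
  · intro t ht
    funext j
    have h1 := mem_Ico.1 (Fintype.mem_piFinset.1 ht j)
    show ((t j - v j) % (M : ℤ) + v j) % (M : ℤ) = t j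
    rw [Int.emod_add_emod, sub_add_cancel]
    exact Int.emod_eq_of_lt h1.1 h1.2
  · intro t _
    refine hf _ _ fun j => ?_
    show (M : ℤ) ∣ (t j + v j) - (t j + v j) % (M : ℤ)
    exact Int.dvd_self_sub_emod

/-- From `FGL0_shift` with `v = s v`, summed over `s`. -/
theorem FGL0_avg {d : ℕ} (M : ℕ) (hM : 1 ≤ M) (f : (Fin d → ℤ) → ℝ)
    (hf : ∀ t t' : Fin d → ℤ, (∀ j, (M : ℤ) ∣ t j - t' j) → f t = f t') (v : Fin d → ℤ) :
    (M : ℝ) * ∑ t ∈ B0 d M, f t = ∑ t ∈ B0 d M, ∑ s ∈ Ico (0 : ℤ) M, f (fun j => t j + s * v j) := by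
  rw [sum_comm]
  have h1 : ∀ s ∈ Ico (0 : ℤ) M, ∑ t ∈ B0 d M, f (fun j => t j + s * v j) = ∑ t ∈ B0 d M, f t := by
    intro s _
    exact FGL0_shift M hM f hf fun j => s * v j
  rw [sum_congr rfl h1, sum_const, nsmul_eq_mul]
  simp

/-- Proof. `s ↦ (x + s A) % l` is a bijection of `Ico 0 l` (`l` is prime and does not divide `A`). -/
theorem FGL0_bij (l : ℕ) (hl : l.Prime) (A : ℤ) (hA : ¬ (l : ℤ) ∣ A) (x : ℤ) (F : ℤ → ℝ)
    (hF : ∀ m m' : ℤ, (l : ℤ) ∣ m - m' → F m = F m') :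
    ∑ s ∈ Ico (0 : ℤ) l, F (x + s * A) = ∑ y ∈ Ico (0 : ℤ) l, F y := by
  have hl0 : (0 : ℤ) < l := by exact_mod_cast hl.pos
  have hp : Prime (l : ℤ) := Nat.prime_iff_prime_int.1 hl
  have hm : ∀ s ∈ Ico (0 : ℤ) l, (x + s * A) % (l : ℤ) ∈ Ico (0 : ℤ) l := fun s _ =>
    mem_Ico.2 ⟨Int.emod_nonneg _ hl0.ne', Int.emod_lt_of_pos _ hl0⟩
  have hi : Set.InjOn (fun s : ℤ => (x + s * A) % (l : ℤ)) (Ico (0 : ℤ) l : Finset ℤ) := by
    intro s hs s' hs' h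
    have h1 := mem_Ico.1 (mem_coe.1 hs)
    have h2 := mem_Ico.1 (mem_coe.1 hs')
    have h3 : (l : ℤ) ∣ (x + s * A) - (x + s' * A) := Int.ModEq.dvd (Int.ModEq.symm h)
    have h4 : (x + s * A) - (x + s' * A) = (s - s') * A := by ring
    rw [h4] at h3
    have h5 : (l : ℤ) ∣ s - s' := (hp.dvd_or_dvd h3).resolve_right hA
    have h6 : s - s' = 0 := Int.eq_zero_of_abs_lt_dvd h5 (abs_lt.2 ⟨by linarith [h1.1, h2.2], by linarith [h1.2, h2.1]⟩)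
    linarith
  refine sum_nbij (fun s => (x + s * A) % (l : ℤ)) hm hi ?_ ?_
  · exact surjOn_of_injOn_of_card_le _ hm hi le_rfl
  · intro s _
    exact hF _ _ Int.dvd_self_sub_emod

/-- `FGL0_bij`, `KB4A_zero` with `c = 0`. -/
theorem FGL0_zero (l : ℕ) (hl : l.Prime) (A : ℤ) (hA : ¬ (l : ℤ) ∣ A) (x : ℤ) :
    ∑ s ∈ Ico (0 : ℤ) l, gl l (x + s * A) = 0 := by
  rw [FGL0_bij l hl A hA x (fun m => gl l m) fun m m' h => KB4A_mod l m m' h]
  have h1 := KB4A_zero l hl 0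
  simpa using h1

/-- `FGL0_bij`, `KB4A_two` with `c = 0`. -/
theorem FGL0_two (l : ℕ) (hl : l.Prime) (A : ℤ) (hA : ¬ (l : ℤ) ∣ A) (x : ℤ) :
    ∑ s ∈ Ico (0 : ℤ) l, |gl l (x + s * A)| = 2 := by
  rw [FGL0_bij l hl A hA x (fun m => |gl l m|) fun m m' h => by rw [KB4A_mod l m m' h]]
  have h1 := KB4A_two l hl 0
  simpa using h1

end Pool.Agent.HUP
end

-- from Lib.HUP.FGL1
section

/-!
# Project HUP, chunk FGL1 (S/M): local means of one or two factors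
-/

open Finset

namespace Pool.Agent.HUP

open Pool.Agent.Lib.H59P (gl)
open Pool.Agent.HUK (KB4A_mod KB4A_le)

theorem fgl1_card (d l : ℕ) : ((B0 d l).card : ℝ) = (l : ℝ) ^ d := by
  rw [FGL0_card]
  push_cast
  rfl

theorem fgl1_single {k d : ℕ} (c : Fin k → Fin d → ℤ) (i : Fin k) (j : Fin d) :
    lf c (Pi.single j 1) i = c i j := by
  unfold lf
  rw [Finset.sum_eq_single j]
  · rw [Pi.single_eq_same, mul_one]
  · intro b _ hb
    rw [Pi.single_eq_of_ne hb, mul_zero]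
  · intro h
    exact absurd (mem_univ j) h

theorem fgl1_per {k d : ℕ} (c : Fin k → Fin d → ℤ) (i : Fin k) (l : ℕ) (x : ℤ) (t t' : Fin d → ℤ)
    (h : ∀ j, (l : ℤ) ∣ t j - t' j) : gl l (x + lf c t i) = gl l (x + lf c t' i) := by
  apply KB4A_mod
  have e : x + lf c t i - (x + lf c t' i) = ∑ j, c i j * (t j - t' j) := by
    unfold lf
    simp only [mul_sub, Finset.sum_sub_distrib]
    ring
  rw [e]
  exact Finset.dvd_sum fun j _ => (h j).mul_left _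

theorem FGL1_lin {k d : ℕ} (c : Fin k → Fin d → ℤ) (i : Fin k) (t v : Fin d → ℤ) (s : ℤ) :
    lf c (fun j => t j + s * v j) i = lf c t i + s * lf c v i := by
  unfold lf
  rw [Finset.mul_sum, ← Finset.sum_add_distrib]
  refine Finset.sum_congr rfl fun j _ => ?_
  ring

/-- Proof. `v = Pi.single j 1`, `lf c v i = c i j`; `FGL0_avg` (`t ↦ gl l (x + lf c t i)` is periodic), `FGL1_lin`, `FGL0_zero`. -/
theorem FGL1_zero {k d : ℕ} (c : Fin k → Fin d → ℤ) (i : Fin k) (l : ℕ) (hl : l.Prime)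
    (hc : ∃ j, ¬ (l : ℤ) ∣ c i j) (x : ℤ) : ∑ t ∈ B0 d l, gl l (x + lf c t i) = 0 := by
  obtain ⟨j, hj⟩ := hc
  have hl0 : (l : ℝ) ≠ 0 := by
    have := hl.pos
    positivity
  have h := FGL0_avg l hl.one_lt.le (fun t => gl l (x + lf c t i)) (fgl1_per c i l x) (Pi.single j 1)
  have h2 : ∑ t ∈ B0 d l, ∑ s ∈ Ico (0 : ℤ) l,
      gl l (x + lf c (fun j' => t j' + s * (Pi.single j 1 : Fin d → ℤ) j') i) = 0 := by
    refine Finset.sum_eq_zero fun t _ => ?_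
    rw [← FGL0_zero l hl (c i j) hj (x + lf c t i)]
    refine Finset.sum_congr rfl fun s _ => ?_
    rw [FGL1_lin, fgl1_single, ← add_assoc]
  rw [h2] at h
  exact (mul_eq_zero.mp h).resolve_left hl0

/-- The same with `FGL0_two`: `l * sum = l^d * 2`. -/
theorem FGL1_abs {k d : ℕ} (c : Fin k → Fin d → ℤ) (i : Fin k) (l : ℕ) (hl : l.Prime)
    (hc : ∃ j, ¬ (l : ℤ) ∣ c i j) (x : ℤ) : ∑ t ∈ B0 d l, |gl l (x + lf c t i)| = 2 / l * (l : ℝ) ^ d := by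
  obtain ⟨j, hj⟩ := hc
  have hl0 : (l : ℝ) ≠ 0 := by
    have := hl.pos
    positivity
  have h := FGL0_avg l hl.one_lt.le (fun t => |gl l (x + lf c t i)|)
    (fun t t' htt => by simp only [fgl1_per c i l x t t' htt]) (Pi.single j 1)
  have h2 : ∑ t ∈ B0 d l, ∑ s ∈ Ico (0 : ℤ) l,
      |gl l (x + lf c (fun j' => t j' + s * (Pi.single j 1 : Fin d → ℤ) j') i)| = (l : ℝ) ^ d * 2 := by
    rw [← fgl1_card d l, ← nsmul_eq_mul, ← Finset.sum_const]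
    refine Finset.sum_congr rfl fun t _ => ?_
    rw [← FGL0_two l hl (c i j) hj (x + lf c t i)]
    refine Finset.sum_congr rfl fun s _ => ?_
    rw [FGL1_lin, fgl1_single, ← add_assoc]
  rw [h2] at h
  field_simp
  linarith

/-- Independent forms. Proof. `FGL0_avg` with `v = u`: the second factor does not change, the first has the sum `2` (`FGL0_two`), so
`l * sum = 2 * ∑ t, |gl l (x' + lf c t i')|`; `FGL1_abs`. -/
theorem FGL1_ind {k d : ℕ} (c : Fin k → Fin d → ℤ) (i i' : Fin k) (l : ℕ) (hl : l.Prime) (u : Fin d → ℤ)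
    (hu : lf c u i' = 0) (hu' : ¬ (l : ℤ) ∣ lf c u i) (hc : ∃ j, ¬ (l : ℤ) ∣ c i' j) (x x' : ℤ) :
    ∑ t ∈ B0 d l, |gl l (x + lf c t i)| * |gl l (x' + lf c t i')| = (2 / l) ^ 2 * (l : ℝ) ^ d := by
  have hl0 : (l : ℝ) ≠ 0 := by
    have := hl.pos
    positivity
  have h := FGL0_avg l hl.one_lt.le (fun t => |gl l (x + lf c t i)| * |gl l (x' + lf c t i')|)
    (fun t t' htt => by simp only [fgl1_per c i l x t t' htt, fgl1_per c i' l x' t t' htt]) u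
  have h2 : ∑ t ∈ B0 d l, ∑ s ∈ Ico (0 : ℤ) l,
      |gl l (x + lf c (fun j' => t j' + s * u j') i)| * |gl l (x' + lf c (fun j' => t j' + s * u j') i')| =
      2 * ∑ t ∈ B0 d l, |gl l (x' + lf c t i')| := by
    rw [Finset.mul_sum]
    refine Finset.sum_congr rfl fun t _ => ?_
    rw [← FGL0_two l hl (lf c u i) hu' (x + lf c t i), Finset.sum_mul]
    refine Finset.sum_congr rfl fun s _ => ?_
    rw [FGL1_lin, FGL1_lin, hu, mul_zero, add_zero, ← add_assoc]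
  rw [h2, FGL1_abs c i' l hl hc x'] at h
  field_simp
  field_simp at h
  linarith

/-- Dependent forms. Proof. `l` does not divide both `x + lf c t i` and `x' + lf c t i'` (else `l ∣ B (x + lf c t i) - A (x' + lf c t i') = B x - A x'`),
so the product is at most `(|gl ..| + |gl ..|) / (l - 1)`, and `FGL1_abs` twice: `4 l^d / (l (l - 1)) ≤ 8 l^d / l²`. -/
theorem FGL1_dep {k d : ℕ} (c : Fin k → Fin d → ℤ) (i i' : Fin k) (l : ℕ) (hl : l.Prime) (A B : ℤ)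
    (h : ∀ t : Fin d → ℤ, B * lf c t i = A * lf c t i') (hc : ∃ j, ¬ (l : ℤ) ∣ c i j) (hc' : ∃ j, ¬ (l : ℤ) ∣ c i' j)
    (x x' : ℤ) (hx : ¬ (l : ℤ) ∣ B * x - A * x') :
    ∑ t ∈ B0 d l, |gl l (x + lf c t i)| * |gl l (x' + lf c t i')| ≤ 8 / (l : ℝ) ^ 2 * (l : ℝ) ^ d := by
  have hl2 : (2 : ℝ) ≤ l := by exact_mod_cast hl.two_le
  have hl0 : (0 : ℝ) < l := by linarith
  have hl1 : (0 : ℝ) < (l : ℝ) - 1 := by linarith
  have hbd : ∀ t ∈ B0 d l, |gl l (x + lf c t i)| * |gl l (x' + lf c t i')| ≤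
      1 / ((l : ℝ) - 1) * (|gl l (x + lf c t i)| + |gl l (x' + lf c t i')|) := by
    intro t _
    by_cases h1 : (l : ℤ) ∣ x + lf c t i
    · have h2 : ¬ (l : ℤ) ∣ x' + lf c t i' := by
        intro h2
        apply hx
        have h3 : B * x - A * x' = B * (x + lf c t i) - A * (x' + lf c t i') := by
          have := h t
          linear_combination -this
        rw [h3]
        exact dvd_sub (h1.mul_left B) (h2.mul_left A)
      have e2 : gl l (x' + lf c t i') = 1 / ((l : ℝ) - 1) := by unfold gl; rw [if_neg h2]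
      have p2 : |gl l (x' + lf c t i')| = 1 / ((l : ℝ) - 1) := by rw [e2, abs_of_pos (by positivity)]
      rw [p2]
      have hp : (0 : ℝ) < 1 / ((l : ℝ) - 1) := by positivity
      nlinarith [abs_nonneg (gl l (x + lf c t i)), mul_pos hp hp]
    · have e1 : gl l (x + lf c t i) = 1 / ((l : ℝ) - 1) := by unfold gl; rw [if_neg h1]
      have p1 : |gl l (x + lf c t i)| = 1 / ((l : ℝ) - 1) := by rw [e1, abs_of_pos (by positivity)]
      rw [p1]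
      have hp : (0 : ℝ) < 1 / ((l : ℝ) - 1) := by positivity
      nlinarith [abs_nonneg (gl l (x' + lf c t i')), mul_pos hp hp]
  refine (Finset.sum_le_sum hbd).trans ?_
  rw [← Finset.mul_sum, Finset.sum_add_distrib, FGL1_abs c i l hl hc x, FGL1_abs c i' l hl hc' x']
  have hpd : (0 : ℝ) < (l : ℝ) ^ d := by positivity
  have h4 : 1 / ((l : ℝ) - 1) ≤ 2 / l := by
    rw [div_le_div_iff₀ hl1 hl0]
    linarith
  calc 1 / ((l : ℝ) - 1) * (2 / l * (l : ℝ) ^ d + 2 / l * (l : ℝ) ^ d)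
      ≤ 2 / l * (2 / l * (l : ℝ) ^ d + 2 / l * (l : ℝ) ^ d) :=
        mul_le_mul_of_nonneg_right h4 (by positivity)
    _ = 8 / (l : ℝ) ^ 2 * (l : ℝ) ^ d := by
        field_simp
        ring

/-- The trivial bound: `|gl| ≤ 1` (`KB4A_le`), `FGL1_abs`. -/
theorem FGL1_triv {k d : ℕ} (c : Fin k → Fin d → ℤ) (i i' : Fin k) (l : ℕ) (hl : l.Prime)
    (hc : ∃ j, ¬ (l : ℤ) ∣ c i j) (x x' : ℤ) :
    ∑ t ∈ B0 d l, |gl l (x + lf c t i)| * |gl l (x' + lf c t i')| ≤ 2 / l * (l : ℝ) ^ d := by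
  rw [← FGL1_abs c i l hl hc x]
  refine Finset.sum_le_sum fun t _ => ?_
  exact mul_le_of_le_one_right (abs_nonneg _) (KB4A_le l hl _)

end Pool.Agent.HUP
end

-- from Lib.HUP.FGL2
section

/-!
# Project HUP, chunk FGL2 (M): two factors, mean square over `n` and `n'`
-/

open Finset Polynomial

namespace Pool.Agent.HUP

open Pool.Agent.Lib.H59P (gl)

/-- The sum over `n` when all but few values are small. -/
theorem fgl2_split (l : ℕ) (F : ℤ → ℝ) (p : ℤ → Prop) [DecidablePred p] (a b : ℝ) (D : ℕ) (ha : 0 ≤ a) (hb : 0 ≤ b)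
    (h1 : ∀ n, ¬ p n → F n ≤ a) (h2 : ∀ n, F n ≤ b) (hc : ((Ico (0 : ℤ) l).filter p).card ≤ D) :
    ∑ n ∈ Ico (0 : ℤ) l, F n ≤ l * a + D * b := by
  have h : ∀ n ∈ Ico (0 : ℤ) l, F n ≤ a + if p n then b else 0 := by
    intro n _
    by_cases hp : p n
    · rw [if_pos hp]
      linarith [h2 n]
    · rw [if_neg hp]
      linarith [h1 n hp]
  refine (Finset.sum_le_sum h).trans ?_
  rw [Finset.sum_add_distrib, Finset.sum_const, Int.card_Ico, nsmul_eq_mul, ← Finset.sum_filter, Finset.sum_const,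
    nsmul_eq_mul, sub_zero, Int.toNat_natCast]
  have hD : (((Ico (0 : ℤ) l).filter p).card : ℝ) ≤ D := by exact_mod_cast hc
  have h3 := mul_le_mul_of_nonneg_right hD hb
  linarith

theorem fgl2_num (l Q D : ℝ) (hl : 1 ≤ l) (hQ : 0 ≤ Q) :
    l * (64 * Q / l ^ 4) + D * (4 * Q / l ^ 2) ≤ (80 + 4 * D) * Q / l ^ 2 := by
  have hl0 : (0 : ℝ) < l := by linarith
  have e1 : l * (64 * Q / l ^ 4) = 64 * Q / l ^ 3 := by
    field_simp
  have h1 : 64 * Q / l ^ 3 ≤ 64 * Q / l ^ 2 := by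
    apply div_le_div_of_nonneg_left (by positivity) (by positivity)
    exact pow_le_pow_right₀ hl (by norm_num)
  have e2 : (80 + 4 * D) * Q / l ^ 2 = 64 * Q / l ^ 2 + D * (4 * Q / l ^ 2) + 16 * Q / l ^ 2 := by
    field_simp
    ring
  have h2 : 0 ≤ 16 * Q / l ^ 2 := by positivity
  rw [e1, e2]
  linarith

/-- Proof. The reduction of `G` modulo `l` (in `(ZMod l)[X]`) is not `0` and has degree at most `D`, so at most `D` roots; `n ↦ (n : ZMod l)` is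
injective on `Ico 0 l`. -/
theorem FGL2_roots (l : ℕ) (hl : l.Prime) (G : ℤ[X]) (D : ℕ) (hD : G.natDegree ≤ D) (hc : ¬ (l : ℤ) ∣ G.coeff D) :
    ((Ico (0 : ℤ) l).filter fun n => (l : ℤ) ∣ G.eval n).card ≤ D := by
  have : Fact l.Prime := ⟨hl⟩
  have hne : G.map (Int.castRingHom (ZMod l)) ≠ 0 := by
    intro h0
    apply hc
    have h1 : (G.map (Int.castRingHom (ZMod l))).coeff D = 0 := by rw [h0, coeff_zero]
    rw [coeff_map, eq_intCast] at h1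
    exact (ZMod.intCast_zmod_eq_zero_iff_dvd _ _).1 h1
  calc ((Ico (0 : ℤ) l).filter fun n => (l : ℤ) ∣ G.eval n).card
      ≤ (G.map (Int.castRingHom (ZMod l))).roots.toFinset.card := by
        refine Finset.card_le_card_of_injOn (fun n => (n : ZMod l)) ?_ ?_
        · intro n hn
          have hn' := (Finset.mem_filter.1 hn).2
          rw [Finset.mem_coe, Multiset.mem_toFinset, mem_roots hne, IsRoot.def, eval_intCast_map, eq_intCast]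
          exact (ZMod.intCast_zmod_eq_zero_iff_dvd _ _).2 hn'
        · intro n hn m hm hnm
          have h1 := Finset.mem_Ico.1 (Finset.mem_filter.1 hn).1
          have h2 := Finset.mem_Ico.1 (Finset.mem_filter.1 hm).1
          have h3 := (ZMod.intCast_eq_intCast_iff' n m l).1 hnm
          rwa [Int.emod_eq_of_lt h1.1 h1.2, Int.emod_eq_of_lt h2.1 h2.2] at h3
    _ ≤ (G.map (Int.castRingHom (ZMod l))).roots.card := Multiset.toFinset_card_le _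
    _ ≤ (G.map (Int.castRingHom (ZMod l))).natDegree := card_roots' _
    _ ≤ G.natDegree := natDegree_map_le
    _ ≤ D := hD

/-- The sum over `t` of the absolute values of two factors. -/
noncomputable def Sg {k d : ℕ} (c : Fin k → Fin d → ℤ) (P : Fin k → ℤ[X]) (β : Fin k → ℤ) (l : ℕ) (i i' : Fin k) (n n' : ℤ) : ℝ :=
  ∑ t ∈ B0 d l, |gl l (yy c P β i n t)| * |gl l (yy c P β i' n' t)|

theorem fgl2_Sg {k d : ℕ} (c : Fin k → Fin d → ℤ) (P : Fin k → ℤ[X]) (β : Fin k → ℤ) (l : ℕ) (i i' : Fin k) (n n' : ℤ) :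
    Sg c P β l i i' n n' =
      ∑ t ∈ B0 d l, |gl l (((P i).eval n + β i) + lf c t i)| * |gl l (((P i').eval n' + β i') + lf c t i')| := by
  unfold Sg yy
  simp only [add_assoc]

theorem fgl2_nonneg {k d : ℕ} (c : Fin k → Fin d → ℤ) (P : Fin k → ℤ[X]) (β : Fin k → ℤ) (l : ℕ) (i i' : Fin k) (n n' : ℤ) :
    0 ≤ Sg c P β l i i' n n' := by
  unfold Sg
  exact Finset.sum_nonneg fun t _ => mul_nonneg (abs_nonneg _) (abs_nonneg _)

/-- Independent forms. -/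
theorem fgl2_ind {k d : ℕ} (c : Fin k → Fin d → ℤ) (P : Fin k → ℤ[X]) (β : Fin k → ℤ) (l : ℕ) (hl : l.Prime)
    (i i' : Fin k) (u : Fin d → ℤ) (hu : lf c u i' = 0) (hu' : ¬ (l : ℤ) ∣ lf c u i) (hc : ∃ j, ¬ (l : ℤ) ∣ c i' j) (n n' : ℤ) :
    Sg c P β l i i' n n' ^ 2 ≤ 64 * ((l : ℝ) ^ d) ^ 2 / (l : ℝ) ^ 4 := by
  have hl0 : (0 : ℝ) < l := by exact_mod_cast hl.pos
  rw [fgl2_Sg, FGL1_ind c i i' l hl u hu hu' hc _ _]
  have e : ((2 / (l : ℝ)) ^ 2 * (l : ℝ) ^ d) ^ 2 = 16 * ((l : ℝ) ^ d) ^ 2 / (l : ℝ) ^ 4 := by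
    field_simp
    ring
  rw [e]
  gcongr
  norm_num

/-- The trivial bound. -/
theorem fgl2_triv {k d : ℕ} (c : Fin k → Fin d → ℤ) (P : Fin k → ℤ[X]) (β : Fin k → ℤ) (l : ℕ) (hl : l.Prime)
    (i i' : Fin k) (hc : ∃ j, ¬ (l : ℤ) ∣ c i j) (n n' : ℤ) :
    Sg c P β l i i' n n' ^ 2 ≤ 4 * ((l : ℝ) ^ d) ^ 2 / (l : ℝ) ^ 2 := by
  have hl0 : (0 : ℝ) < l := by exact_mod_cast hl.pos
  have h0 := fgl2_nonneg c P β l i i' n n'
  have h1 : Sg c P β l i i' n n' ≤ 2 / l * (l : ℝ) ^ d := by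
    rw [fgl2_Sg]
    exact FGL1_triv c i i' l hl hc _ _
  have e : (2 / (l : ℝ) * (l : ℝ) ^ d) ^ 2 = 4 * ((l : ℝ) ^ d) ^ 2 / (l : ℝ) ^ 2 := by
    field_simp
    ring
  rw [← e]
  exact pow_le_pow_left₀ h0 h1 2

/-- Dependent forms, no common zero. -/
theorem fgl2_dep {k d : ℕ} (c : Fin k → Fin d → ℤ) (P : Fin k → ℤ[X]) (β : Fin k → ℤ) (l : ℕ) (hl : l.Prime)
    (i i' : Fin k) (A B : ℤ) (h : ∀ t : Fin d → ℤ, B * lf c t i = A * lf c t i') (hc : ∃ j, ¬ (l : ℤ) ∣ c i j)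
    (hc' : ∃ j, ¬ (l : ℤ) ∣ c i' j) (n n' : ℤ)
    (hx : ¬ (l : ℤ) ∣ B * ((P i).eval n + β i) - A * ((P i').eval n' + β i')) :
    Sg c P β l i i' n n' ^ 2 ≤ 64 * ((l : ℝ) ^ d) ^ 2 / (l : ℝ) ^ 4 := by
  have hl0 : (0 : ℝ) < l := by exact_mod_cast hl.pos
  have h0 := fgl2_nonneg c P β l i i' n n'
  have h1 : Sg c P β l i i' n n' ≤ 8 / (l : ℝ) ^ 2 * (l : ℝ) ^ d := by
    rw [fgl2_Sg]
    exact FGL1_dep c i i' l hl A B h hc hc' _ _ hx
  have e : (8 / (l : ℝ) ^ 2 * (l : ℝ) ^ d) ^ 2 = 64 * ((l : ℝ) ^ d) ^ 2 / (l : ℝ) ^ 4 := by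
    field_simp
    ring
  rw [← e]
  exact pow_le_pow_left₀ h0 h1 2

theorem fgl2_coeff {k : ℕ} {D : Fin k → ℕ} {a : Fin k → ℤ} {P : Fin k → ℤ[X]} (hP : HasD D a P) (i : Fin k) :
    (P i).coeff (D i) = a i := by
  rw [← (hP i).1]
  exact (hP i).2

theorem fgl2_C (D : ℕ) (hD : 1 ≤ D) (x : ℤ) : (C x : ℤ[X]).coeff D = 0 := by
  rw [coeff_C, if_neg (by omega)]

/-- Two coordinates at the same `n`. Proof. `yy c P β i n t = ((P i).eval n + β i) + lf c t i`. Independent forms: `Sg ≤ 4 l^d / l²` (`FGL1_ind`), the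
sum of the squares is at most `l * 16 l^(2d) / l⁴`. Dependent forms (`D i = D i'`, `A`, `B` from `Gd.pair`): `Sg ≤ 8 l^d / l²` (`FGL1_dep`) unless `l`
divides the value at `n` of `G = B (P i + β i) - A (P i' + β i')` (constants `C _`), which has degree at most `D i` and the coefficient
`B a i - A a i'` at `D i` (`D i ≥ 1`), so at most `D i` such `n` (`FGL2_roots`), for these `Sg ≤ 2 l^d / l` (`FGL1_triv`). Total
`l * 64 l^(2d)/l⁴ + D i * 4 l^(2d) / l² ≤ (64 + 4 D i) l^(2d) / l²`. -/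
theorem FGL2_same {k d : ℕ} {c : Fin k → Fin d → ℤ} {D : Fin k → ℕ} {a : Fin k → ℤ} (l : ℕ) (hl : l.Prime)
    (hG : Gd c D a l) (hD : ∀ i, 1 ≤ D i) (P : Fin k → ℤ[X]) (hP : HasD D a P) (β : Fin k → ℤ) (i i' : Fin k)
    (hi : i ≠ i') :
    ∑ n ∈ Ico (0 : ℤ) l, Sg c P β l i i' n n ^ 2 ≤ (80 + 4 * D i) * ((l : ℝ) ^ d) ^ 2 / (l : ℝ) ^ 2 := by
  have hl1 : (1 : ℝ) ≤ l := by exact_mod_cast hl.one_lt.le
  have hl0 : (0 : ℝ) < l := by linarith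
  rcases hG.pair i i' hi with ⟨u, hu, hu'⟩ | ⟨hDD, A, B, hAB, hA, hB, hBA⟩
  · have h := fgl2_split l (fun n => Sg c P β l i i' n n ^ 2) (fun _ => False)
      (64 * ((l : ℝ) ^ d) ^ 2 / (l : ℝ) ^ 4) (4 * ((l : ℝ) ^ d) ^ 2 / (l : ℝ) ^ 2) (D i) (by positivity) (by positivity)
      (fun n _ => fgl2_ind c P β l hl i i' u hu hu' (hG.form i') n n) (fun n => fgl2_triv c P β l hl i i' (hG.form i) n n)
      (by rw [Finset.filter_false, Finset.card_empty]; exact Nat.zero_le _)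
    exact h.trans (fgl2_num _ _ _ hl1 (by positivity))
  · have hev : ∀ n : ℤ, (C B * (P i + C (β i)) - C A * (P i' + C (β i'))).eval n =
        B * ((P i).eval n + β i) - A * ((P i').eval n + β i') := by
      intro n
      simp only [eval_sub, eval_mul, eval_add, eval_C]
    have hdeg : (C B * (P i + C (β i)) - C A * (P i' + C (β i'))).natDegree ≤ D i := by
      refine (natDegree_sub_le _ _).trans (max_le ?_ ?_)
      · refine (natDegree_C_mul_le _ _).trans ((natDegree_add_le _ _).trans (max_le (hP i).1.le ?_))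
        rw [natDegree_C]
        exact Nat.zero_le _
      · refine (natDegree_C_mul_le _ _).trans ((natDegree_add_le _ _).trans (max_le ?_ ?_))
        · rw [(hP i').1, hDD]
        · rw [natDegree_C]
          exact Nat.zero_le _
    have hco : ¬ (l : ℤ) ∣ (C B * (P i + C (β i)) - C A * (P i' + C (β i'))).coeff (D i) := by
      have e : (P i').coeff (D i) = a i' := by rw [hDD]; exact fgl2_coeff hP i'
      rw [coeff_sub, coeff_C_mul, coeff_C_mul, coeff_add, coeff_add, fgl2_coeff hP i, e, fgl2_C _ (hD i), fgl2_C _ (hD i),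
        add_zero, add_zero]
      exact hBA
    have h := fgl2_split l (fun n => Sg c P β l i i' n n ^ 2)
      (fun n => (l : ℤ) ∣ (C B * (P i + C (β i)) - C A * (P i' + C (β i'))).eval n)
      (64 * ((l : ℝ) ^ d) ^ 2 / (l : ℝ) ^ 4) (4 * ((l : ℝ) ^ d) ^ 2 / (l : ℝ) ^ 2) (D i) (by positivity) (by positivity)
      (fun n hn => fgl2_dep c P β l hl i i' A B hAB (hG.form i) (hG.form i') n n (by rw [← hev]; exact hn))
      (fun n => fgl2_triv c P β l hl i i' (hG.form i) n n) (FGL2_roots l hl _ _ hdeg hco)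
    exact h.trans (fgl2_num _ _ _ hl1 (by positivity))

/-- Dependent forms, the mean square over `n` for fixed `n'`. -/
theorem fgl2_row {k d : ℕ} {c : Fin k → Fin d → ℤ} {D : Fin k → ℕ} {a : Fin k → ℤ} (l : ℕ) (hl : l.Prime)
    (hG : Gd c D a l) (hD : ∀ i, 1 ≤ D i) (P : Fin k → ℤ[X]) (hP : HasD D a P) (β : Fin k → ℤ) (i i' : Fin k) (A B : ℤ)
    (hAB : ∀ t : Fin d → ℤ, B * lf c t i = A * lf c t i') (hB : ¬ (l : ℤ) ∣ B) (n' : ℤ) :
    ∑ n ∈ Ico (0 : ℤ) l, Sg c P β l i i' n n' ^ 2 ≤ (80 + 4 * D i) * ((l : ℝ) ^ d) ^ 2 / (l : ℝ) ^ 2 := by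
  have hl1 : (1 : ℝ) ≤ l := by exact_mod_cast hl.one_lt.le
  have hl0 : (0 : ℝ) < l := by linarith
  have hev : ∀ n : ℤ, (C B * (P i + C (β i)) - C (A * ((P i').eval n' + β i'))).eval n =
      B * ((P i).eval n + β i) - A * ((P i').eval n' + β i') := by
    intro n
    simp only [eval_sub, eval_mul, eval_add, eval_C]
  have hdeg : (C B * (P i + C (β i)) - C (A * ((P i').eval n' + β i'))).natDegree ≤ D i := by
    refine (natDegree_sub_le _ _).trans (max_le ?_ ?_)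
    · refine (natDegree_C_mul_le _ _).trans ((natDegree_add_le _ _).trans (max_le (hP i).1.le ?_))
      rw [natDegree_C]
      exact Nat.zero_le _
    · rw [natDegree_C]
      exact Nat.zero_le _
  have hco : ¬ (l : ℤ) ∣ (C B * (P i + C (β i)) - C (A * ((P i').eval n' + β i'))).coeff (D i) := by
    rw [coeff_sub, coeff_C_mul, coeff_add, fgl2_coeff hP i, fgl2_C _ (hD i), fgl2_C _ (hD i), add_zero, sub_zero]
    intro h
    rcases (Nat.prime_iff_prime_int.1 hl).dvd_or_dvd h with h | h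
    · exact hB h
    · exact hG.lc i h
  have h := fgl2_split l (fun n => Sg c P β l i i' n n' ^ 2)
    (fun n => (l : ℤ) ∣ (C B * (P i + C (β i)) - C (A * ((P i').eval n' + β i'))).eval n)
    (64 * ((l : ℝ) ^ d) ^ 2 / (l : ℝ) ^ 4) (4 * ((l : ℝ) ^ d) ^ 2 / (l : ℝ) ^ 2) (D i) (by positivity) (by positivity)
    (fun n hn => fgl2_dep c P β l hl i i' A B hAB (hG.form i) (hG.form i') n n' (by rw [← hev]; exact hn))
    (fun n => fgl2_triv c P β l hl i i' (hG.form i) n n') (FGL2_roots l hl _ _ hdeg hco)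
  exact h.trans (fgl2_num _ _ _ hl1 (by positivity))

/-- Coordinates at `n` and `n'`, `i = i'` allowed. Proof. Independent forms: `Sg ≤ 4 l^d / l²`. Otherwise (for `i = i'` with `A = B = 1`; then
`B a i = a i` is not divisible by `l`): `Sg ≤ 8 l^d / l²` (`FGL1_dep`) unless `l` divides `G.eval n`, `G = B (P i + β i) - A ((P i').eval n' + β i')` (second
term constant), degree at most `D i`, coefficient `B a i` at `D i`: for each `n'` at most `D i` values of `n`, and for these `Sg ≤ 2 l^d / l`. Total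
`l² * 64 l^(2d) / l⁴ + l * D i * 4 l^(2d) / l²`. -/
theorem FGL2_opp {k d : ℕ} {c : Fin k → Fin d → ℤ} {D : Fin k → ℕ} {a : Fin k → ℤ} (l : ℕ) (hl : l.Prime)
    (hG : Gd c D a l) (hD : ∀ i, 1 ≤ D i) (P : Fin k → ℤ[X]) (hP : HasD D a P) (β : Fin k → ℤ) (i i' : Fin k) :
    ∑ n ∈ Ico (0 : ℤ) l, ∑ n' ∈ Ico (0 : ℤ) l, Sg c P β l i i' n n' ^ 2 ≤
      (80 + 4 * D i) * ((l : ℝ) ^ d) ^ 2 / l := by
  have hl1 : (1 : ℝ) ≤ l := by exact_mod_cast hl.one_lt.le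
  have hl0 : (0 : ℝ) < l := by linarith
  have hrow : ∀ n' : ℤ, ∑ n ∈ Ico (0 : ℤ) l, Sg c P β l i i' n n' ^ 2 ≤
      (80 + 4 * D i) * ((l : ℝ) ^ d) ^ 2 / (l : ℝ) ^ 2 := by
    intro n'
    by_cases hi : i = i'
    · subst hi
      refine fgl2_row l hl hG hD P hP β i i 1 1 (fun t => rfl) ?_ n'
      intro h
      have h1 : (l : ℤ) ≤ 1 := Int.le_of_dvd one_pos h
      have h2 : 1 < l := hl.one_lt
      omega
    · rcases hG.pair i i' hi with ⟨u, hu, hu'⟩ | ⟨hDD, A, B, hAB, hA, hB, hBA⟩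
      · have h := fgl2_split l (fun n => Sg c P β l i i' n n' ^ 2) (fun _ => False)
          (64 * ((l : ℝ) ^ d) ^ 2 / (l : ℝ) ^ 4) (4 * ((l : ℝ) ^ d) ^ 2 / (l : ℝ) ^ 2) (D i) (by positivity)
          (by positivity) (fun n _ => fgl2_ind c P β l hl i i' u hu hu' (hG.form i') n n')
          (fun n => fgl2_triv c P β l hl i i' (hG.form i) n n')
          (by rw [Finset.filter_false, Finset.card_empty]; exact Nat.zero_le _)
        exact h.trans (fgl2_num _ _ _ hl1 (by positivity))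
      · exact fgl2_row l hl hG hD P hP β i i' A B hAB hB n'
  rw [Finset.sum_comm]
  refine (Finset.sum_le_sum fun n' _ => hrow n').trans (le_of_eq ?_)
  rw [Finset.sum_const, Int.card_Ico, nsmul_eq_mul, sub_zero, Int.toNat_natCast]
  field_simp

end Pool.Agent.HUP
end

-- from Lib.HUP.FGL4
section

/-!
# Project HUP, chunk FGL4 (S/M): the interface `LocB`
-/

open Finset Polynomial

namespace Pool.Agent.HUP

open Pool.Agent.Lib.H59P (gl)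
open Pool.Agent.HUK (KB4A_le)

theorem fgl4_n0 {k : ℕ} (l : ℕ) (hl : l.Prime) (f : Fin k → ℤ) (V : Finset (Fin k)) :
    ‖∏ i ∈ V, ((gl l (f i) : ℝ) : ℂ)‖ ≤ 1 := by
  rw [norm_prod]
  refine Finset.prod_le_one (fun i _ => norm_nonneg _) fun i _ => ?_
  rw [Complex.norm_real, Real.norm_eq_abs]
  exact KB4A_le l hl _

theorem fgl4_n1 {k : ℕ} (l : ℕ) (hl : l.Prime) (f : Fin k → ℤ) (V : Finset (Fin k)) (i : Fin k) (hi : i ∈ V) :
    ‖∏ i ∈ V, ((gl l (f i) : ℝ) : ℂ)‖ ≤ |gl l (f i)| := by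
  rw [← Finset.mul_prod_erase V _ hi, norm_mul, Complex.norm_real, Real.norm_eq_abs]
  exact mul_le_of_le_one_right (abs_nonneg _) (fgl4_n0 l hl f _)

theorem fgl4_n2 {k : ℕ} (l : ℕ) (hl : l.Prime) (f : Fin k → ℤ) (V : Finset (Fin k)) (i i' : Fin k) (hi : i ∈ V)
    (hi' : i' ∈ V) (h : i ≠ i') :
    ‖∏ i ∈ V, ((gl l (f i) : ℝ) : ℂ)‖ ≤ |gl l (f i)| * |gl l (f i')| := by
  rw [← Finset.mul_prod_erase V _ hi, norm_mul, Complex.norm_real, Real.norm_eq_abs]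
  exact mul_le_mul_of_nonneg_left (fgl4_n1 l hl f _ i' (Finset.mem_erase.2 ⟨h.symm, hi'⟩)) (abs_nonneg _)

theorem fgl4_Fl {k d : ℕ} (c : Fin k → Fin d → ℤ) (P : Fin k → ℤ[X]) (β : Fin k → ℤ) (V V' : Finset (Fin k)) (l : ℕ)
    (hl : l.Prime) (n n' : ℤ) (t : Fin d → ℤ) : ‖Fl c P β V V' l n n' t‖ ≤ 1 := by
  rw [Fl, norm_mul]
  exact mul_le_one₀ (fgl4_n0 l hl _ V) (norm_nonneg _) (fgl4_n0 l hl _ V')

/-- A single factor. -/
theorem fgl4_zero {k d : ℕ} (c : Fin k → Fin d → ℤ) (P : Fin k → ℤ[X]) (β : Fin k → ℤ) (i : Fin k) (l : ℕ) (hl : l.Prime)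
    (hc : ∃ j, ¬ (l : ℤ) ∣ c i j) (n : ℤ) : ∑ t ∈ B0 d l, ((gl l (yy c P β i n t) : ℝ) : ℂ) = 0 := by
  have h1 := FGL1_zero c i l hl hc ((P i).eval n + β i)
  rw [← Complex.ofReal_sum]
  have h2 : ∑ t ∈ B0 d l, gl l (yy c P β i n t) = 0 := by
    rw [← h1]
    refine sum_congr rfl fun t _ => ?_
    rw [yy, add_assoc]
  rw [h2, Complex.ofReal_zero]

/-- The mean from a bound of the double sum. -/
theorem fgl4_ms {d : ℕ} (l : ℕ) (hl : l.Prime) (F : ℤ → ℤ → (Fin d → ℤ) → ℂ) (K : ℝ) (G : ℤ → ℤ → ℝ)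
    (h : ∀ n n', ‖∑ t ∈ B0 d l, F n n' t‖ ≤ G n n')
    (hG : ∑ n ∈ Ico (0 : ℤ) l, ∑ n' ∈ Ico (0 : ℤ) l, G n n' ^ 2 ≤ K * ((l : ℝ) ^ d) ^ 2 / l) : ms l F ≤ K / (l : ℝ) ^ 3 := by
  have hl0 : (0 : ℝ) < l := by exact_mod_cast hl.pos
  rw [ms, div_le_iff₀ (by positivity)]
  calc ∑ n ∈ Ico (0 : ℤ) l, ∑ n' ∈ Ico (0 : ℤ) l, ‖∑ t ∈ B0 d l, F n n' t‖ ^ 2
      ≤ ∑ n ∈ Ico (0 : ℤ) l, ∑ n' ∈ Ico (0 : ℤ) l, G n n' ^ 2 :=
        sum_le_sum fun n _ => sum_le_sum fun n' _ => pow_le_pow_left₀ (norm_nonneg _) (h n n') 2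
    _ ≤ _ := hG
    _ = _ := by field_simp

theorem fgl4_card (l : ℕ) : ((Ico (0 : ℤ) l).card : ℝ) = l := by
  rw [Int.card_Ico, sub_zero, Int.toNat_natCast]

/-- Proof. `Λ` from `FGL3`, `C = Λ³ + 81 + 4 ∑ D i`. For `l ≤ Λ`: `ms ≤ 1 ≤ Λ³ / l³` (`FGA5_one`, `KB4A_le`). Let `l > Λ`, so `Gd c D a l`. If
`V.card + V'.card = 1`: one of the sets is `{i}`, the other `∅`, the inner sums are `∑ t, gl l (x + lf c t i) = 0` (`FGL1_zero`, casts to `ℂ`), `ms = 0`.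
Otherwise `‖Fl ..‖ ≤ |gl l (yy i n_1 t)| |gl l (yy i' n_2 t)|` for two different factors (the others are at most `1`): both in `V` (`V.card ≥ 2`,
`i ≠ i'`, `n_1 = n_2 = n`), both in `V'` (`n_1 = n_2 = n'`), or `i ∈ V`, `i' ∈ V'` (`n_1 = n`, `n_2 = n'`). So the inner sum is at most `Sg ..`, and
`FGL2_same` (times `l` for the other variable) or `FGL2_opp` give `∑_{n,n'} ≤ (80 + 4 D i) l^(2d) / l`, divided by `l² l^(2d)`. -/
theorem LocB_of {k d : ℕ} {c : Fin k → Fin d → ℤ} {e : Fin d → ℕ} {D : Fin k → ℕ} {a : Fin k → ℤ} (h : Dat c e D a) :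
    LocB c D a := by
  obtain ⟨Λ, hΛ⟩ := FGL3 h
  have hS0 : (0 : ℝ) ≤ ∑ i, (D i : ℝ) := sum_nonneg fun i _ => Nat.cast_nonneg _
  refine ⟨(Λ : ℝ) ^ 3 + 81 + 4 * ∑ i, (D i : ℝ), by nlinarith [pow_nonneg (Nat.cast_nonneg Λ : (0 : ℝ) ≤ Λ) 3], ?_⟩
  intro P hP β l hl V V' hV
  have hl0 : (0 : ℝ) < l := by exact_mod_cast hl.pos
  have hl3 : (0 : ℝ) < (l : ℝ) ^ 3 := by positivity
  have hΛ3 : (0 : ℝ) ≤ (Λ : ℝ) ^ 3 := by positivity
  by_cases hlΛ : l ≤ Λ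
  · refine le_trans (FGA5_one l hl.one_le _ fun n n' t => fgl4_Fl c P β V V' l hl n n' t) ?_
    rw [le_div_iff₀ hl3, one_mul]
    have h1 : (l : ℝ) ^ 3 ≤ (Λ : ℝ) ^ 3 := pow_le_pow_left₀ hl0.le (by exact_mod_cast hlΛ) 3
    linarith
  · have hG : Gd c D a l := hΛ l hl (not_le.1 hlΛ)
    -- it suffices to prove the bound with `80 + 4 D i`
    have key : ∀ i : Fin k, ms l (Fl c P β V V' l) ≤ (80 + 4 * (D i : ℝ)) / (l : ℝ) ^ 3 →
        ms l (Fl c P β V V' l) ≤ ((Λ : ℝ) ^ 3 + 81 + 4 * ∑ i, (D i : ℝ)) / (l : ℝ) ^ 3 := by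
      intro i hi
      refine le_trans hi (div_le_div_of_nonneg_right ?_ hl3.le)
      have h1 : (D i : ℝ) ≤ ∑ i, (D i : ℝ) :=
        single_le_sum (f := fun i => (D i : ℝ)) (fun i _ => Nat.cast_nonneg _) (mem_univ i)
      linarith
    by_cases hV1 : 2 ≤ V.card
    · -- both in `V`
      obtain ⟨i, hi, i', hi', hii⟩ := one_lt_card.1 hV1
      refine key i (fgl4_ms l hl _ _ (fun n _ => Sg c P β l i i' n n) (fun n n' => ?_) ?_)
      · refine le_trans (norm_sum_le _ _) (sum_le_sum fun t _ => ?_)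
        rw [Fl, norm_mul]
        refine le_trans (mul_le_of_le_one_right (norm_nonneg _) (fgl4_n0 l hl _ V')) ?_
        exact fgl4_n2 l hl (fun i => yy c P β i n t) V i i' hi hi' hii
      · have h1 := FGL2_same l hl hG h.deg P hP β i i' hii
        simp only [sum_const, nsmul_eq_mul]
        rw [← mul_sum, fgl4_card]
        calc (l : ℝ) * ∑ n ∈ Ico (0 : ℤ) l, Sg c P β l i i' n n ^ 2
            ≤ l * ((80 + 4 * D i) * ((l : ℝ) ^ d) ^ 2 / (l : ℝ) ^ 2) := mul_le_mul_of_nonneg_left h1 hl0.le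
          _ = _ := by field_simp
    · by_cases hV2 : 2 ≤ V'.card
      · obtain ⟨i, hi, i', hi', hii⟩ := one_lt_card.1 hV2
        refine key i (fgl4_ms l hl _ _ (fun _ n' => Sg c P β l i i' n' n') (fun n n' => ?_) ?_)
        · refine le_trans (norm_sum_le _ _) (sum_le_sum fun t _ => ?_)
          rw [Fl, norm_mul]
          refine le_trans (mul_le_of_le_one_left (norm_nonneg _) (fgl4_n0 l hl _ V)) ?_
          exact fgl4_n2 l hl (fun i => yy c P β i n' t) V' i i' hi hi' hii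
        · have h1 := FGL2_same l hl hG h.deg P hP β i i' hii
          rw [sum_const, nsmul_eq_mul, fgl4_card]
          calc (l : ℝ) * ∑ n ∈ Ico (0 : ℤ) l, Sg c P β l i i' n n ^ 2
              ≤ l * ((80 + 4 * D i) * ((l : ℝ) ^ d) ^ 2 / (l : ℝ) ^ 2) := mul_le_mul_of_nonneg_left h1 hl0.le
            _ = _ := by field_simp
      · by_cases hV3 : V.card = 1
        · obtain ⟨i, hi⟩ := card_eq_one.1 hV3
          by_cases hV4 : V'.card = 1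
          · obtain ⟨i', hi'⟩ := card_eq_one.1 hV4
            refine key i (fgl4_ms l hl _ _ (fun n n' => Sg c P β l i i' n n') (fun n n' => ?_) ?_)
            · refine le_trans (norm_sum_le _ _) (sum_le_sum fun t _ => ?_)
              rw [Fl, norm_mul]
              exact mul_le_mul (fgl4_n1 l hl (fun i => yy c P β i n t) V i (by rw [hi]; exact mem_singleton_self i))
                (fgl4_n1 l hl (fun i => yy c P β i n' t) V' i' (by rw [hi']; exact mem_singleton_self i'))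
                (norm_nonneg _) (abs_nonneg _)
            · exact FGL2_opp l hl hG h.deg P hP β i i'
          · have hV5 : V' = ∅ := card_eq_zero.1 (by omega)
            have h0 : ∀ n n', ∑ t ∈ B0 d l, Fl c P β V V' l n n' t = 0 := by
              intro n n'
              rw [← fgl4_zero c P β i l hl (hG.form i) n]
              refine sum_congr rfl fun t _ => ?_
              rw [Fl, hi, hV5, prod_singleton, prod_empty, mul_one]
            have h1 : ms l (Fl c P β V V' l) = 0 := by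
              rw [ms]
              simp only [h0]
              simp
            rw [h1]
            positivity
        · have hV6 : V = ∅ := card_eq_zero.1 (by omega)
          have hV7 : V'.card = 1 := by
            rw [hV6, card_empty] at hV
            omega
          obtain ⟨i, hi⟩ := card_eq_one.1 hV7
          have h0 : ∀ n n', ∑ t ∈ B0 d l, Fl c P β V V' l n n' t = 0 := by
            intro n n'
            rw [← fgl4_zero c P β i l hl (hG.form i) n']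
            refine sum_congr rfl fun t _ => ?_
            rw [Fl, hi, hV6, prod_singleton, prod_empty, one_mul]
          have h1 : ms l (Fl c P β V V' l) = 0 := by
            rw [ms]
            simp only [h0]
            simp
          rw [h1]
          positivity

end Pool.Agent.HUP
end

-- from Lib.HUP.FGFin
section

/-!
# Project HUP, module FG: the large sieve from the second moment
-/

namespace Pool.Agent.HUP

theorem FGTU_of {k d : ℕ} {c : Fin k → Fin d → ℤ} {e : Fin d → ℕ} {D : Fin k → ℕ} {a : Fin k → ℤ} (h : Dat c e D a)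
    (hF : FMT c e D a) : FGTU c D a :=
  FG_red (LocB_of h) (ChB_of h hF)

end Pool.Agent.HUP
end
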