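import Pool.Agent.Lib.H59M.M1.M091
import Pool.Agent.Lib.H59M.M1.M098

/-! Merged copies (to shorten the build) of Lib.HPG.G8. -/

-- from Lib.HPG.G8
section

/-!
# Project HPG, chunk G8 (L): one interval of `t` (the prover adds the imports R12, R16 of HUP, see R19)
-/

open Finset Polynomial

namespace Pool.Agent.HPG

open Pool.Agent.Lib.H68T Pool.Agent.Lib.H18Q Pool.Agent.Lib.H59P Pool.Agent.Lib.H24P
open Pool.Agent.HUP

theorem g8_mem {k : ℕ} (R : Fin k → ℤ[X]) (M : Fin k → ℕ) (t : ℕ) (h : Mid R M t) :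
    gR R t ∈ cub M M ∧ (∀ i, 0 ≤ (R i).eval (t : ℤ)) ∧ ∀ i, ((gR R t i : ℕ) : ℤ) = (R i).eval (t : ℤ) := by
  have h0 : ∀ i, 0 ≤ (R i).eval (t : ℤ) := fun i => by
    have h1 := h i
    have h2 : (0 : ℤ) ≤ M i := Nat.cast_nonneg _
    omega
  have h1 : ∀ i, ((gR R t i : ℕ) : ℤ) = (R i).eval (t : ℤ) := fun i => by
    unfold gR
    exact Int.toNat_of_nonneg (h0 i)
  refine ⟨?_, h0, h1⟩
  unfold cub
  rw [Fintype.mem_piFinset]
  intro i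
  rw [mem_Ico]
  have h2 := h i
  have h3 := h1 i
  omega

theorem g8_close {V A Q U Z D s s' Mi : ℕ} (hD : 1 ≤ D) (hs : s = Q ^ 10 * s') (hsU : s ≤ U) (hU : U ^ D ≤ A * Z)
    (hZM : Z ≤ A * Q * Mi) (hVA : V * A ^ 2 ≤ Q) (hQ : 0 < Q) : Q ^ 8 * (V * U ^ (D - 1) * s') ≤ Mi := by
  have h1 : Q ^ 2 * (Q ^ 8 * (V * U ^ (D - 1) * s')) ≤ Q ^ 2 * Mi := by
    calc Q ^ 2 * (Q ^ 8 * (V * U ^ (D - 1) * s')) = V * (U ^ (D - 1) * s) := by rw [hs]; ring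
      _ ≤ V * (U ^ (D - 1) * U) := Nat.mul_le_mul_left _ (Nat.mul_le_mul_left _ hsU)
      _ = V * U ^ D := by
          rw [← pow_succ]
          congr 2
          omega
      _ ≤ V * (A * Z) := Nat.mul_le_mul_left _ hU
      _ ≤ V * (A * (A * Q * Mi)) := Nat.mul_le_mul_left _ (Nat.mul_le_mul_left _ hZM)
      _ = (V * A ^ 2) * (Q * Mi) := by ring
      _ ≤ Q * (Q * Mi) := Nat.mul_le_mul_right _ hVA
      _ = Q ^ 2 * Mi := by ring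
  exact Nat.le_of_mul_le_mul_left h1 (by positivity)

/-- A set of integers cut into intervals. Proof. As `R18_split` (HUP/R18.lean), `Ico t0 (t0 + q s')` is the disjoint union of the
`Ico (t0 + u s') (t0 + u s' + s')`, `u < q`. -/
theorem G8_split (t0 s' q : ℕ) (E : ℕ → Prop) [DecidablePred E] (δ : ℝ)
    (hE : ∀ t1 : ℕ, t0 ≤ t1 → t1 + s' ≤ t0 + q * s' → (((Ico t1 (t1 + s')).filter E).card : ℝ) ≤ s' * δ) :
    (((Ico t0 (t0 + q * s')).filter E).card : ℝ) ≤ (q * s' : ℕ) * δ := by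
  induction q with
  | zero => simp
  | succ q ih =>
    have h1 : Ico t0 (t0 + (q + 1) * s') = Ico t0 (t0 + q * s') ∪ Ico (t0 + q * s') (t0 + q * s' + s') := by
      ext x
      rw [mem_union, mem_Ico, mem_Ico, mem_Ico]
      have h2 : (q + 1) * s' = q * s' + s' := by ring
      rw [h2]
      omega
    have h3 := ih fun t1 g1 g2 => hE t1 g1 (g2.trans (by nlinarith))
    have h4 := hE (t0 + q * s') (by omega) (by nlinarith)
    rw [h1, filter_union]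
    have h5 : ((((Ico t0 (t0 + q * s')).filter E ∪ (Ico (t0 + q * s') (t0 + q * s' + s')).filter E).card : ℕ) : ℝ) ≤
        (((Ico t0 (t0 + q * s')).filter E).card : ℝ) + ((Ico (t0 + q * s') (t0 + q * s' + s')).filter E).card := by
      exact_mod_cast card_union_le _ _
    refine h5.trans ?_
    have h6 : (((q + 1) * s' : ℕ) : ℝ) * δ = ((q * s' : ℕ) : ℝ) * δ + s' * δ := by
      push_cast
      ring
    rw [h6]
    exact add_le_add h3 h4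


open Classical in
/-- **G8** (port of `R19_box`, HUP/R19.lean: same proof with `P = lX f`, `S = Ico t0 (t0 + s)`, `g = gR R`, `FGR`, `S4R`, `G8_split`, `G5_var` in the places of
`FGT`, `S4T`, `R18_split`, `R18_var`). New: the level `Q` must satisfy `K0 log Q ≤ log Z` with `K0` larger by `D (2E + 200)`, so that
`100 D log Q ≤ log Z` and `Q^(2E) ≤ s' = s/Q^10` (`s^D ≥ U^D/(A Q^τ)^D ≥ Z/(A^(D+1) Q^(τ D))`). Hypotheses of `S4R`: `Z ≤ Q^(τ') s^D`, `s^D ≤ U^D ≤ A Z ≤ Q^(τ') Z`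
with the constant `τ'` of `S4R` and `τ ≤ τ'/(20 D)`. `close` on a cell of length `s'`: `|R_i(t) - R_i(t')| ≤ V U^(D-1) s' ≤ V U^D/Q^10 ≤ V A Z/Q^10`, `Z ≤ A Q^τ M_i`.
`Pol A (lX f)`: degrees `1`, leading coefficients `f i`. -/
theorem G8_box {k : ℕ} (D : ℕ) (f a : Fin k → ℤ) (hG : GD D f a) (hF : FGR D f a) (hS : S4R D f a) (A : ℕ)
    (hA : 1 ≤ A) (hP : Pol A (lX f)) (ε : ℝ) (hε : 0 < ε) (hε1 : ε ≤ 1 / 2) :
    ∃ c1 C τ : ℝ, 0 < c1 ∧ 1 ≤ C ∧ 0 < τ ∧ τ ≤ 1 / 10 ∧ ∃ Z0 : ℕ, ∀ Z : ℕ, Z0 ≤ Z →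
    ∃ Q : ℕ, 100 * D * Real.log Q ≤ Real.log Z ∧ Real.log Z ≤ C * Real.log Q ∧
    ∀ B : ℤ[X], Lin A B → OKB A ε Z B → ∀ (M : Fin k → ℕ) (R : Fin k → ℤ[X]) (U t0 s : ℕ), HD D a R → Cb D A U R →
    U ^ D ≤ A * Z → Z ≤ A * U ^ D → (∀ i, 8 * Q ^ 10 ∣ M i) → 8 * Q ^ 10 ∣ s →
    (∀ i, (Z : ℝ) ≤ A * (Q : ℝ) ^ τ * M i) → (∀ i, (M i : ℝ) ≤ A * (Z : ℝ)) →
    (U : ℝ) ≤ A * (Q : ℝ) ^ τ * s → s ≤ U → t0 + s ≤ A * U → (∀ t ∈ Ico t0 (t0 + s), Mid R M t) →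
    (((Ico t0 (t0 + s)).filter (Ex Z B f R ε)).card : ℝ) ≤ s * (Q : ℝ) ^ (-c1) := by
  classical
  have hD1 := hG.D1
  have hf1 := hG.f1
  unfold FGR at hF
  unfold S4R at hS
  unfold Ex
  obtain ⟨P, hPe⟩ : ∃ P : Fin k → ℤ[X], P = lX f := ⟨_, rfl⟩
  rw [← hPe] at hF hS hP
  rw [← hPe]
  have hdeg : ∀ i, (P i).natDegree = 1 := by
    intro i
    rw [hPe]
    have h1 : f i ≠ 0 := by have := hf1 i; omega
    exact natDegree_C_mul_X _ h1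
  have hDr : (1 : ℝ) ≤ D := by exact_mod_cast hD1
  obtain ⟨V, hV1, hV⟩ := G5_var D A A hD1
  obtain ⟨E, Cc, cc, hFP, hFG⟩ := hF
  obtain ⟨c1, K1, hc1, hK1, L1, hL1, hR16⟩ := R16_main P A E hA hP Cc cc hFP
  obtain ⟨K2, L2, hK2, hS4⟩ := hS
  obtain ⟨K4, hK4, hW2⟩ := W2_ms A
  obtain ⟨LP, hLP, hG2⟩ := G2_P P hP.deg
  obtain ⟨K3, hK3, hgeo⟩ := R17_geo P A hA hP ε hε hε1 (L1 + L2 + LP)
  obtain ⟨E0, hE0⟩ : ∃ E0 : ℝ, E0 = 1 / (4 * ((k : ℝ) + 1)) := ⟨_, rfl⟩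
  have hE0p : 0 < E0 := by rw [hE0]; positivity
  have hE0k : 4 * ((k : ℝ) + 1) * E0 ≤ 1 := by
    rw [hE0]
    have : (4 * ((k : ℝ) + 1)) ≠ 0 := by positivity
    rw [mul_one_div, div_self this]
  have hE01 : E0 ≤ 1 := by
    have hk : (0 : ℝ) ≤ k := Nat.cast_nonneg _
    nlinarith
  obtain ⟨K0, hK0⟩ : ∃ K0 : ℝ, K0 = K1 + K2 + K3 + K4 + 100 * D + c1 / ε + D * (2 * E + 20) := ⟨_, rfl⟩
  have hce : 0 < c1 / ε := div_pos hc1 hε
  have hEn : (0 : ℝ) ≤ E := Nat.cast_nonneg _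
  have hDE : (0 : ℝ) ≤ D * (2 * E + 20) := by positivity
  have hK0a : K1 ≤ K0 := by rw [hK0]; linarith
  have hK0b : K2 ≤ K0 := by rw [hK0]; linarith
  have hK0c : K3 ≤ K0 := by rw [hK0]; linarith
  have hK0d : K4 ≤ K0 := by rw [hK0]; linarith
  have hK0e : 100 * (D : ℝ) ≤ K0 := by rw [hK0]; linarith
  have hK0f : c1 / ε ≤ K0 := by rw [hK0]; linarith
  have hK0g : (D : ℝ) * (2 * E + 20) ≤ K0 := by rw [hK0]; linarith
  obtain ⟨C, hC, X0, hlev⟩ := L_levels A E0 K0 hE0p (by linarith)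
  obtain ⟨Q1, hR16'⟩ := hR16 C
  obtain ⟨τ1, c0, hτ1, hτ11, hc0, Q2, hS4'⟩ := hS4 C
  obtain ⟨Q3, hW2'⟩ := hW2 C
  obtain ⟨τ, hτd⟩ : ∃ τ : ℝ, τ = min τ1 (1 / 10) := ⟨_, rfl⟩
  have hτ0 : 0 < τ := by rw [hτd]; exact lt_min hτ1 (by norm_num)
  have hττ1 : τ ≤ τ1 := by rw [hτd]; exact min_le_left _ _
  have hτ10 : τ ≤ 1 / 10 := by rw [hτd]; exact min_le_right _ _
  obtain ⟨Q4, hgeo'⟩ := hgeo τ hτ0 hτ10
  obtain ⟨c3, hc3d⟩ : ∃ c3 : ℝ, c3 = min c1 c0 / 8 := ⟨_, rfl⟩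
  have hc3 : 0 < c3 := by rw [hc3d]; have := lt_min hc1 hc0; linarith
  have hc31 : 8 * c3 ≤ c1 := by rw [hc3d]; have := min_le_left c1 c0; linarith
  have hc30 : 8 * c3 ≤ c0 := by rw [hc3d]; have := min_le_right c1 c0; linarith
  obtain ⟨c2, hc2, Q5, hexc⟩ := R12_exc k A E hA Cc cc hFP c3 hc3
  obtain ⟨Q6, hgood⟩ := K1_good k A hA c3 hc3
  obtain ⟨Z1, hfin⟩ := k3_fin A k ε (2 * c3) hε
  obtain ⟨cf, hcfd⟩ : ∃ cf : ℝ, cf = min c1 (min c2 (c0 / 2)) / 2 := ⟨_, rfl⟩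
  have hm2 : 0 < min c1 (min c2 (c0 / 2)) := lt_min hc1 (lt_min hc2 (by linarith))
  have hcf : 0 < cf := by rw [hcfd]; linarith
  have hcf1 : 2 * cf ≤ c1 := by rw [hcfd]; have := min_le_left c1 (min c2 (c0 / 2)); linarith
  have hcf2 : 2 * cf ≤ c2 := by
    rw [hcfd]
    have := (min_le_right c1 (min c2 (c0 / 2))).trans (min_le_left _ _)
    linarith
  have hcf3 : 2 * cf ≤ c0 / 2 := by
    rw [hcfd]
    have := (min_le_right c1 (min c2 (c0 / 2))).trans (min_le_right _ _)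
    linarith
  obtain ⟨Q7, _, hQ7⟩ := G1_rlog 8 0 c3 hc3
  obtain ⟨Q8, _, hQ8⟩ := G1_rlog 3 0 cf hcf
  obtain ⟨τf, hτf⟩ : ∃ τf : ℝ, τf = τ / (20 * (A + 1)) / D := ⟨_, rfl⟩
  have hAr : (1 : ℝ) ≤ A := by exact_mod_cast hA
  have hτf0 : 0 < τf := by rw [hτf]; positivity
  have hτA0 : 0 ≤ τ / (20 * (A + 1)) := by positivity
  have hτA1 : τ / (20 * ((A : ℝ) + 1)) ≤ τ / 20 :=
    div_le_div_of_nonneg_left hτ0.le (by norm_num) (by linarith)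
  have hτfA : τf ≤ τ / (20 * (A + 1)) := by
    rw [hτf]
    exact div_le_self hτA0 hDr
  have hτf1 : τf ≤ τ / 20 := hτfA.trans hτA1
  have hτfD : τf * D ≤ τ / 20 := by
    rw [hτf, div_mul_cancel₀ _ (by positivity)]
    exact hτA1
  obtain ⟨Q9, _, hQ9⟩ := G1_rlog A 0 (τ / 2) (by linarith)
  obtain ⟨Q10, _, hQ10⟩ := G1_rlog ((A : ℝ) ^ (D + 1)) 0 (τ / 2) (by linarith)
  obtain ⟨Rn, hRn⟩ : ∃ Rn : ℕ, Rn = V * A ^ 2 := ⟨_, rfl⟩
  obtain ⟨Qm, hQm⟩ : ∃ Qm : ℕ, Qm = Q1 + Q2 + Q3 + Q4 + Q5 + Q6 + Q7 + Q8 + Q9 + Q10 + Rn + 4 * A ^ 2 + A + 3 := ⟨_, rfl⟩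
  refine ⟨cf, C, τf, hcf, hC, hτf0, by linarith, X0 + Z1 + 3 * A + 3 + ⌈Real.exp (C * Real.log Qm)⌉₊,
    fun Z hZ => ?_⟩
  obtain ⟨Q, hl1, hl2, _, hcase⟩ := hlev Z (by omega)
  -- sizes
  have hZ3 : 3 ≤ Z := by omega
  have hZ0 : (0 : ℝ) < Z := by exact_mod_cast (by omega : 0 < Z)
  have hZ1' : (1 : ℝ) ≤ Z := by exact_mod_cast (by omega : 1 ≤ Z)
  have hlZ : 1 ≤ Real.log Z := G1_log1 hZ3
  have hlQ : 0 < Real.log Q := by
    by_contra hcon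
    push Not at hcon
    have := mul_nonpos_of_nonneg_of_nonpos (by linarith : 0 ≤ C) hcon
    linarith
  have hQ0 : 0 < Q := by
    rcases Nat.eq_zero_or_pos Q with h | h
    · rw [h, Nat.cast_zero, Real.log_zero] at hlQ; exact absurd hlQ (lt_irrefl _)
    · exact h
  have hQr : (0 : ℝ) < Q := by exact_mod_cast hQ0
  have hQmQ : Qm ≤ Q := by
    have hQm0 : (0 : ℝ) < Qm := by exact_mod_cast (by omega : 0 < Qm)
    have h1 : Real.exp (C * Real.log Qm) ≤ Z := (Nat.le_ceil _).trans (by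
      exact_mod_cast (by omega : ⌈Real.exp (C * Real.log Qm)⌉₊ ≤ Z))
    have h2 : C * Real.log Qm ≤ Real.log Z := (Real.le_log_iff_exp_le hZ0).mpr h1
    have h3 : C * Real.log Qm ≤ C * Real.log Q := h2.trans hl2
    have h4 : Real.log Qm ≤ Real.log Q := le_of_mul_le_mul_left h3 (by linarith)
    have h5 : (Qm : ℝ) ≤ Q := (Real.log_le_log_iff hQm0 hQr).mp h4
    exact_mod_cast h5
  have hQ1r : (1 : ℝ) ≤ Q := by exact_mod_cast hQ0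
  have hlog100 : 100 * D * Real.log Q ≤ Real.log Z :=
    (mul_le_mul_of_nonneg_right hK0e hlQ.le).trans hl1
  have hlog1 : 100 * Real.log Q ≤ Real.log Z := by
    refine le_trans ?_ hlog100
    refine mul_le_mul_of_nonneg_right ?_ hlQ.le
    linarith
  have hQ100 : Q ^ 100 ≤ Z := by
    have h1 : Real.log ((Q : ℝ) ^ 100) ≤ Real.log Z := by
      rw [Real.log_pow]; push_cast; linarith
    have h2 : (Q : ℝ) ^ 100 ≤ Z := (Real.log_le_log_iff (by positivity) hZ0).mp h1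
    exact_mod_cast h2
  have hQE : Q ^ (D * (2 * E + 20)) ≤ Z := by
    have h1 : Real.log ((Q : ℝ) ^ (D * (2 * E + 20))) ≤ Real.log Z := by
      rw [Real.log_pow]
      push_cast
      exact (mul_le_mul_of_nonneg_right hK0g hlQ.le).trans hl1
    have h2 : (Q : ℝ) ^ (D * (2 * E + 20)) ≤ Z := (Real.log_le_log_iff (by positivity) hZ0).mp h1
    exact_mod_cast h2
  have hQZ : Q ≤ Z := (Nat.le_self_pow (by norm_num) Q).trans hQ100
  have hQA : A ≤ Q := by omega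
  have hQτf : (Q : ℝ) ^ τf ≤ Q := by
    calc (Q : ℝ) ^ τf ≤ (Q : ℝ) ^ (1 : ℝ) := Real.rpow_le_rpow_of_exponent_le hQ1r (by linarith)
      _ = Q := Real.rpow_one _
  have hAτ : (A : ℝ) * (Q : ℝ) ^ τf ≤ (Q : ℝ) ^ τ1 := by
    have h1 := hQ9 Q (by omega)
    rw [Real.rpow_zero, mul_one] at h1
    calc (A : ℝ) * (Q : ℝ) ^ τf ≤ (Q : ℝ) ^ (τ / 2) * (Q : ℝ) ^ τf :=
          mul_le_mul_of_nonneg_right h1 (Real.rpow_nonneg hQr.le _)
      _ = (Q : ℝ) ^ (τ / 2 + τf) := (Real.rpow_add hQr _ _).symm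
      _ ≤ (Q : ℝ) ^ τ1 := Real.rpow_le_rpow_of_exponent_le hQ1r (by linarith)
  have hAτ2 : (A : ℝ) ≤ (Q : ℝ) ^ τ1 := by
    have h1 := hQ9 Q (by omega)
    rw [Real.rpow_zero, mul_one] at h1
    exact h1.trans (Real.rpow_le_rpow_of_exponent_le hQ1r (by linarith))
  refine ⟨Q, hlog100, hl2, ?_⟩
  intro B hLB hOK M R U t0 s hHD hCb hU1 hU2 hM hs hM1 hM2 hs1 hsU hs2 hrange
  have hZM : ∀ i, Z ≤ A * Q * M i := by
    intro i
    have h1 : (Z : ℝ) ≤ A * Q * M i := by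
      refine (hM1 i).trans ?_
      apply mul_le_mul_of_nonneg_right _ (Nat.cast_nonneg _)
      exact mul_le_mul_of_nonneg_left hQτf (Nat.cast_nonneg _)
    exact_mod_cast h1
  have hUs : U ≤ A * Q * s := by
    have h1 : (U : ℝ) ≤ A * Q * s := by
      refine hs1.trans ?_
      apply mul_le_mul_of_nonneg_right _ (Nat.cast_nonneg _)
      exact mul_le_mul_of_nonneg_left hQτf (Nat.cast_nonneg _)
    exact_mod_cast h1
  have hUpos : 1 ≤ U := by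
    rcases Nat.eq_zero_or_pos U with h | h
    · rw [h, zero_pow (by omega), mul_zero] at hU2
      omega
    · exact h
  obtain ⟨X1, hX1p, hX1l, hX1A, hX1Q, hX1τ, hX1d, hgM, hgB⟩ := hgeo' Q Z (by omega)
    ((mul_le_mul_of_nonneg_right hK0c hlQ.le).trans hl1)
  have hM8' : ∀ i, 8 * Q ^ 8 ∣ M i := fun i =>
    (Nat.mul_dvd_mul_left 8 (pow_dvd_pow Q (by norm_num))).trans (hM i)
  obtain ⟨hGe, hMX⟩ := hgM M hM8' (fun i => by
    rw [hdeg i, pow_one]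
    refine (hM1 i).trans ?_
    refine mul_le_mul_of_nonneg_right (mul_le_mul_of_nonneg_left ?_ (Nat.cast_nonneg _)) (Nat.cast_nonneg _)
    exact Real.rpow_le_rpow_of_exponent_le hQ1r hτfA) (fun i => by rw [hdeg i, pow_one]; exact hM2 i)
  obtain ⟨Y, hGB, hY1, hY2⟩ := hgB B hLB hOK
  have hGa : Geo L1 Q Z X1 P M := r19_geo_mono hGe (by omega)
  have hGb : Geo L2 Q Z X1 P M := r19_geo_mono hGe (by omega)
  have hGc : Geo LP Q Z X1 P M := r19_geo_mono hGe (by omega)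
  have hRga : Rg K1 C Q Z := ⟨(mul_le_mul_of_nonneg_right hK0a hlQ.le).trans hl1, hl2⟩
  have hRgb : Rg K2 C Q Z := ⟨(mul_le_mul_of_nonneg_right hK0b hlQ.le).trans hl1, hl2⟩
  have hRgd : Rg K4 C Q Z := ⟨(mul_le_mul_of_nonneg_right hK0d hlQ.le).trans hl1, hl2⟩
  have hX1Z : 2 * X1 ≤ Z := by
    refine le_trans ?_ hX1A
    have : 2 * X1 * 1 ≤ 2 * X1 * A := Nat.mul_le_mul_left _ hA
    nlinarith
  -- the sides
  have hMpos : ∀ i, 0 < M i := by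
    intro i
    rcases Nat.eq_zero_or_pos (M i) with h | h
    · have h1 := hZM i
      rw [h, mul_zero] at h1
      omega
    · exact h
  have hM8 : ∀ i, 8 ∣ M i := fun i => (Dvd.intro _ rfl).trans (hM i)
  have hYM : ∀ i, M i ≤ 2 * Ysc (M i) ∧ Ysc (M i) ≤ M i := by
    intro i
    obtain ⟨t, ht⟩ := hM8 i
    unfold Ysc
    omega
  have hYs : ∀ i, Z ≤ (Ysc (M i)) ^ 2 ∧ Ysc (M i) ≤ Z ^ (A + 1) := by
    intro i
    obtain ⟨y1, y2⟩ := hYM i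
    constructor
    · by_contra hcon
      push Not at hcon
      have h2 : Z ≤ A * Q * M i := hZM i
      have h3 : Z ^ 2 ≤ (A * Q * (2 * Ysc (M i))) ^ 2 :=
        Nat.pow_le_pow_left (h2.trans (Nat.mul_le_mul_left _ y1)) 2
      have h4 : (A * Q * (2 * Ysc (M i))) ^ 2 = (4 * A ^ 2 * Q ^ 2) * (Ysc (M i)) ^ 2 := by ring
      rw [h4] at h3
      have h5 : 0 < 4 * A ^ 2 * Q ^ 2 := by positivity
      have h6 : (4 * A ^ 2 * Q ^ 2) * (Ysc (M i)) ^ 2 < (4 * A ^ 2 * Q ^ 2) * Z :=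
        Nat.mul_lt_mul_of_pos_left hcon h5
      have h7 : Z * Z < (4 * A ^ 2 * Q ^ 2) * Z := by
        have : Z ^ 2 = Z * Z := by ring
        rw [this] at h3
        exact h3.trans_lt h6
      have h8 : Z < 4 * A ^ 2 * Q ^ 2 := Nat.lt_of_mul_lt_mul_right h7
      have h9 : 4 * A ^ 2 * Q ^ 2 ≤ Q ^ 3 := by
        have : 4 * A ^ 2 ≤ Q := by omega
        calc 4 * A ^ 2 * Q ^ 2 ≤ Q * Q ^ 2 := Nat.mul_le_mul_right _ this
          _ = Q ^ 3 := by ring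
      have h10 : Q ^ 3 ≤ Q ^ 100 := Nat.pow_le_pow_right hQ0 (by norm_num)
      omega
    · have h1 : (Ysc (M i) : ℝ) ≤ A * (Z : ℝ) :=
        le_trans (by exact_mod_cast y2) (hM2 i)
      have h2 : Ysc (M i) ≤ A * Z := by exact_mod_cast h1
      calc Ysc (M i) ≤ A * Z := h2
        _ = A * Z ^ 1 := by rw [pow_one]
        _ ≤ Z * Z ^ A := Nat.mul_le_mul (by omega) (Nat.pow_le_pow_right (by omega) hA)
        _ = Z ^ (A + 1) := by ring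
  -- the sub-boxes
  obtain ⟨s', hs'⟩ : ∃ s' : ℕ, s = Q ^ 10 * s' := by
    obtain ⟨u, hu⟩ := hs
    exact ⟨8 * u, by rw [hu]; ring⟩
  have hs'E : (Q ^ 2) ^ E ≤ s' := by
    by_contra hcon
    push Not at hcon
    have h1 : Z ≤ A * (A * Q * (Q ^ 10 * s')) ^ D := by
      rw [← hs']
      exact hU2.trans (Nat.mul_le_mul_left _ (Nat.pow_le_pow_left hUs D))
    have h2 : A * (A * Q * (Q ^ 10 * s')) ^ D ≤ Q * (Q ^ 12 * s') ^ D := by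
      refine Nat.mul_le_mul hQA (Nat.pow_le_pow_left ?_ D)
      calc A * Q * (Q ^ 10 * s') ≤ Q * Q * (Q ^ 10 * s') :=
            Nat.mul_le_mul_right _ (Nat.mul_le_mul_right _ hQA)
        _ = Q ^ 12 * s' := by ring
    have h3 : Q * (Q ^ 12 * s') ^ D < Q * (Q ^ 12 * (Q ^ 2) ^ E) ^ D := by
      refine Nat.mul_lt_mul_of_pos_left ?_ hQ0
      exact Nat.pow_lt_pow_left (Nat.mul_lt_mul_of_pos_left hcon (by positivity)) (by omega)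
    have h4 : Q * (Q ^ 12 * (Q ^ 2) ^ E) ^ D ≤ Q ^ (D * (2 * E + 20)) := by
      rw [← pow_mul, ← pow_add, ← pow_mul, ← pow_succ']
      refine Nat.pow_le_pow_right hQ0 ?_
      nlinarith
    omega
  obtain ⟨w, hw⟩ : ∃ w : ℕ → ℝ, w = fun n : ℕ => lp (B.eval (n : ℤ)) := ⟨_, rfl⟩
  obtain ⟨Bd, hBd⟩ : ∃ Bd : ℕ → Prop, ∀ t, Bd t ↔ NoFix (sys B P (gR R t)) ∧
      ¬ (X1 * ((Q : ℝ) ^ (-c3) / 2 - (Q : ℝ) ^ (-c1)) ≤ Rw Q X1 P M w (gR R t)) := ⟨_, fun _ => Iff.rfl⟩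
  have hdist : ∀ t1 : ℕ, t0 ≤ t1 → t1 + s' ≤ t0 + s → ∀ tx ∈ Ico t1 (t1 + s'),
      Cl E Cc cc Q P M (Ico t1 (t1 + s')) (gR R) (gR R tx) := by
    intro t1 ht1 ht2 tx htx
    have hin : ∀ t ∈ Ico t1 (t1 + s'), t ∈ Ico t0 (t0 + s) := by
      intro t ht
      rw [mem_Ico] at ht ⊢
      omega
    refine ⟨hFG R hHD (Q ^ 2) t1 s' (Nat.one_le_pow _ _ hQ0) hs'E
      (fun t ht => (g8_mem R M t (hrange t (hin t ht))).2.1),
      fun t ht => (g8_mem R M t (hrange t (hin t ht))).1, (g8_mem R M tx (hrange tx (hin tx htx))).1, ?_⟩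
    intro t ht i
    have h1 := (g8_mem R M t (hrange t (hin t ht))).2.2 i
    have h2 := (g8_mem R M tx (hrange tx (hin tx htx))).2.2 i
    rw [h1, h2]
    have hb1 : t ≤ A * U := by
      have := hin t ht
      rw [mem_Ico] at this
      omega
    have hb2 : tx ≤ A * U := by
      have := hin tx htx
      rw [mem_Ico] at this
      omega
    have h3 := (hV k U R hUpos (fun i => ((hHD i).1).le) hCb i t tx hb1 hb2).1
    have h4 : |(t : ℤ) - tx| ≤ s' := by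
      rw [mem_Ico] at ht htx
      rw [abs_le]
      omega
    have h5 := g8_close (V := V) (A := A) (Q := Q) (U := U) (Z := Z) (D := D) (s := s) (s' := s') (Mi := M i)
      hD1 hs' hsU hU1 (hZM i) (by rw [← hRn]; omega) hQ0
    have h6 : (V : ℤ) * (U : ℤ) ^ (D - 1) * |(t : ℤ) - tx| ≤ V * (U : ℤ) ^ (D - 1) * s' :=
      mul_le_mul_of_nonneg_left h4 (by positivity)
    have h7 : (Q : ℤ) ^ 8 * (V * (U : ℤ) ^ (D - 1) * s') ≤ M i := by exact_mod_cast h5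
    exact (mul_le_mul_of_nonneg_left (h3.trans h6) (by positivity)).trans h7
  have hRw : ∀ h : Fin k → ℕ, Rw Q X1 P M w h = Rw Q X1 P M (fun n => lp (B.eval (n : ℤ))) h := by
    intro h
    rw [hw]
  have hboxes : ∀ t1 : ℕ, t0 ≤ t1 → t1 + s' ≤ t0 + Q ^ 10 * s' → (((Ico t1 (t1 + s')).filter Bd).card : ℝ) ≤
      s' * ((Q : ℝ) ^ (-c1) + (Q : ℝ) ^ (-c2)) := by
    intro t1 ht1 ht2
    rw [← hs'] at ht2
    have hcs : (Ico t1 (t1 + s')).card = s' := by rw [Nat.card_Ico]; omega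
    rcases (Ico t1 (t1 + s')).eq_empty_or_nonempty with hem | ⟨tx, htx⟩
    · rw [hem, filter_empty, card_empty, Nat.cast_zero]
      exact mul_nonneg (Nat.cast_nonneg _) (by positivity)
    have hCl := hdist t1 ht1 ht2 tx htx
    have hcomb : ∀ (Bad1 Bad2 : Finset ℕ),
        (Bad1.card : ℝ) ≤ (Ico t1 (t1 + s')).card * (Q : ℝ) ^ (-c1) →
        (Bad2.card : ℝ) ≤ (Ico t1 (t1 + s')).card * (Q : ℝ) ^ (-c2) →
        (∀ t ∈ Ico t1 (t1 + s'), t ∉ Bad1 → t ∉ Bad2 → NoFix (sys B P (gR R t)) →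
          X1 * ((Q : ℝ) ^ (-c3) / 2 - (Q : ℝ) ^ (-c1)) ≤ Rw Q X1 P M w (gR R t)) →
        (((Ico t1 (t1 + s')).filter Bd).card : ℝ) ≤ s' * ((Q : ℝ) ^ (-c1) + (Q : ℝ) ^ (-c2)) := by
      intro Bad1 Bad2 hb1 hb2 hb
      rw [hcs] at hb1 hb2
      have hsub : (Ico t1 (t1 + s')).filter Bd ⊆ Bad1 ∪ Bad2 := by
        intro t ht
        rw [mem_filter] at ht
        have h2 := (hBd t).1 ht.2
        rw [mem_union]
        by_contra hcon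
        push Not at hcon
        exact h2.2 (hb t ht.1 hcon.1 hcon.2 h2.1)
      have hcard := (card_le_card hsub).trans (card_union_le Bad1 Bad2)
      have h1 : (((Ico t1 (t1 + s')).filter Bd).card : ℝ) ≤ (Bad1.card : ℝ) + Bad2.card := by exact_mod_cast hcard
      rw [mul_add]
      linarith
    rcases hcase with hg | ⟨r, hr0, ψ, βe, η, hr, hψ, hψ1, hψ2, hβ, hL0, hη, hmd⟩
    · obtain ⟨Bad, _, hBc, hBad⟩ := hR16' Q Z X1 Y M B 1 E0 p0 (fun _ => 0) (by omega) hRga hGa hGB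
        (p0_mem hQ0) (by
          have : p0.1 = 1 := rfl
          rw [this, one_pow]; exact hQ0)
        (hg Y hY1 hY2).2 (fun i => (hg _ (hYs i).1 (hYs i).2).1) hE0p.le hE0k ℕ (Ico t1 (t1 + s')) (gR R)
        (gR R tx) hCl
      refine hcomb Bad ∅ hBc ?_ ?_
      · rw [card_empty, Nat.cast_zero]
        exact mul_nonneg (Nat.cast_nonneg _) (Real.rpow_nonneg hQr.le _)
      · intro t ht hb _ hNF
        rw [hRw]
        refine hBad t ht hb _ ?_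
        intro th' ht1 ht2 ht3
        exact hgood Q (by omega) B hLB P hP (gR R t) hNF th' ht1 ht2
    · have hm := hmd Y hY1 hY2
      obtain ⟨Bad, _, hBc, hBad⟩ := hR16' Q Z X1 Y M B η E0 ⟨r, ψ⟩ (fun m => (m : ℝ) ^ (βe - 1))
        (by omega) hRga hGa hGB hm.1.mem hm.1.cond hm.2 (fun i => (hmd _ (hYs i).1 (hYs i).2).1)
        hE0p.le hE0k ℕ (Ico t1 (t1 + s')) (gR R) (gR R tx) hCl
      obtain ⟨Bad2, _, hBc2, hBad2⟩ := hexc Q (by omega) B hLB P hP r ψ βe η hr hψ hψ1 hψ2 hβ hL0 hη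
        ℕ (Ico t1 (t1 + s')) (gR R) (r19_fgood_mono hCl.good (Nat.le_self_pow (by norm_num) Q))
      refine hcomb Bad Bad2 hBc hBc2 ?_
      intro t ht hb hb2 hNF
      rw [hRw]
      refine hBad t ht hb _ ?_
      intro th' ht1 ht2 ht3
      exact hBad2 t ht hb2 hNF th' ht1 ht2
  have hsplit := G8_split t0 s' (Q ^ 10) Bd ((Q : ℝ) ^ (-c1) + (Q : ℝ) ^ (-c2)) hboxes
  rw [← hs'] at hsplit
  -- the mean square over the box
  have hcfM : ∀ i, ∃ (B' : ℤ → Ch → ℂ) (mb : Ch → ℝ), Cf Q (Ysc (M i)) B' mb := by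
    intro i
    rcases hcase with hg | ⟨r, hr0, ψ, βe, η, hr, hψ, hψ1, hψ2, hβ, hL0, hη, hmd⟩
    · obtain ⟨e', eb, mb, _, _, _, a4⟩ := CF0 Q (Ysc (M i)) 1 E0 p0 (fun _ => 0) hQ0
        (hg _ (hYs i).1 (hYs i).2).1 hE01
      exact ⟨_, mb, a4⟩
    · obtain ⟨e', eb, mb, _, _, _, a4⟩ := CF0 Q (Ysc (M i)) η E0 ⟨r, ψ⟩ (fun m => (m : ℝ) ^ (βe - 1)) hQ0
        (hmd _ (hYs i).1 (hYs i).2).1 hE01
      exact ⟨_, mb, a4⟩
  have hcfB : ∃ (B' : ℤ → Ch → ℂ) (mb : Ch → ℝ), Cf (Q ^ 100) Y B' mb := by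
    have hQ100' : 1 ≤ Q ^ 100 := Nat.one_le_pow _ _ hQ0
    rcases hcase with hg | ⟨r, hr0, ψ, βe, η, hr, hψ, hψ1, hψ2, hβ, hL0, hη, hmd⟩
    · obtain ⟨e', eb, mb, _, _, _, a4⟩ := CF0 (Q ^ 100) Y 1 E0 p0 (fun _ => 0) hQ100'
        (hg Y hY1 hY2).2 hE01
      exact ⟨_, mb, a4⟩
    · obtain ⟨e', eb, mb, _, _, _, a4⟩ := CF0 (Q ^ 100) Y η E0 ⟨r, ψ⟩ (fun m => (m : ℝ) ^ (βe - 1)) hQ100'
        (hmd Y hY1 hY2).2 hE01
      exact ⟨_, mb, a4⟩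
  obtain ⟨C0, mb0, hC0⟩ := hcfB
  have hwb : ∀ n ∈ Ico X1 (2 * X1), |w n| ≤ (Real.log Z) ^ 2 := by
    intro n hn
    rw [hw]
    exact (hW2' Q Z X1 Y B C0 mb0 (by omega) hRgd hGe.pos hGe.le hGe.ge hGB hC0 X1 X1 le_rfl (by omega)
      (Nat.le_mul_of_pos_right _ (Nat.pow_pos hQ0))).2 n hn
  have hZs : (Z : ℝ) ≤ (Q : ℝ) ^ τ1 * (s : ℝ) ^ D := by
    have h1 : (Z : ℝ) ≤ A * (U : ℝ) ^ D := by exact_mod_cast hU2
    have h2 : (U : ℝ) ^ D ≤ (A * (Q : ℝ) ^ τf * s) ^ D := pow_le_pow_left₀ (Nat.cast_nonneg _) hs1 D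
    have h3 : (A : ℝ) ^ (D + 1) ≤ (Q : ℝ) ^ (τ / 2) := by
      have := hQ10 Q (by omega)
      rwa [Real.rpow_zero, mul_one] at this
    have h4 : ((Q : ℝ) ^ τf) ^ D ≤ (Q : ℝ) ^ (τ / 20) := by
      rw [← Real.rpow_natCast ((Q : ℝ) ^ τf), ← Real.rpow_mul hQr.le]
      exact Real.rpow_le_rpow_of_exponent_le hQ1r hτfD
    have h5 : (Q : ℝ) ^ (τ / 2) * (Q : ℝ) ^ (τ / 20) ≤ (Q : ℝ) ^ τ1 := by
      rw [← Real.rpow_add hQr]
      exact Real.rpow_le_rpow_of_exponent_le hQ1r (by linarith)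
    calc (Z : ℝ) ≤ A * (U : ℝ) ^ D := h1
      _ ≤ A * (A * (Q : ℝ) ^ τf * s) ^ D := mul_le_mul_of_nonneg_left h2 (Nat.cast_nonneg _)
      _ = (A : ℝ) ^ (D + 1) * ((Q : ℝ) ^ τf) ^ D * (s : ℝ) ^ D := by
          rw [mul_pow, mul_pow, pow_succ]
          ring
      _ ≤ (Q : ℝ) ^ τ1 * (s : ℝ) ^ D := by
          refine mul_le_mul_of_nonneg_right ?_ (by positivity)
          exact (mul_le_mul h3 h4 (by positivity) (by positivity)).trans h5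
  have hsZ : (s : ℝ) ^ D ≤ (Q : ℝ) ^ τ1 * Z := by
    have h1 : (U : ℝ) ^ D ≤ A * (Z : ℝ) := by exact_mod_cast hU1
    have h2 : (s : ℝ) ^ D ≤ (U : ℝ) ^ D := pow_le_pow_left₀ (Nat.cast_nonneg _) (by exact_mod_cast hsU) D
    exact (h2.trans h1).trans (mul_le_mul_of_nonneg_right hAτ2 (Nat.cast_nonneg _))
  have hms := hS4' Q Z X1 M R t0 s (by omega) hHD hRgb hGb
    (hX1τ.trans (mul_le_mul_of_nonneg_left (Real.rpow_le_rpow_of_exponent_le hQ1r hττ1) (Nat.cast_nonneg _)))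
    (fun i => by
      have h1 := hMX i
      rw [hdeg i, pow_one] at h1
      exact h1.trans (mul_le_mul_of_nonneg_left (Real.rpow_le_rpow_of_exponent_le hQ1r hττ1) (by positivity)))
    hZs hsZ hcfM hrange w hwb
  have hX1r : (0 : ℝ) < X1 := by exact_mod_cast hX1p
  have hTpos : 0 < (X1 : ℝ) * (Q : ℝ) ^ (-(c0 / 4)) := mul_pos hX1r (Real.rpow_pos_of_pos hQr _)
  have hRP : ∀ t : ℕ, ∑ n ∈ Ico X1 (2 * X1), w n * ∏ i, lp ((P i).eval (n : ℤ) + gR R t i) =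
      RPh X1 B P (gR R t) := by
    intro t
    rw [hw]
    rfl
  have hms' : ∑ t ∈ Ico t0 (t0 + s), |RPh X1 B P (gR R t) - Rw Q X1 P M w (gR R t)| ^ 2 ≤
      (X1 : ℝ) ^ 2 * (s : ℝ) * (Q : ℝ) ^ (-c0) := by
    refine le_trans (le_of_eq ?_) hms
    refine sum_congr rfl fun t _ => ?_
    rw [hRP t, sq_abs]
  have hch := k1_cheb (Ico t0 (t0 + s)) (fun t => |RPh X1 B P (gR R t) - Rw Q X1 P M w (gR R t)|) _ _ hTpos hms'
    (fun _ => abs_nonneg _)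
  have hch' : (((Ico t0 (t0 + s)).filter fun t => (X1 : ℝ) * (Q : ℝ) ^ (-(c0 / 4)) <
      |RPh X1 B P (gR R t) - Rw Q X1 P M w (gR R t)|).card : ℝ) ≤ (s : ℝ) * (Q : ℝ) ^ (-(c0 / 2)) := by
    refine hch.trans (le_of_eq ?_)
    have h1 : ((X1 : ℝ) * (Q : ℝ) ^ (-(c0 / 4))) ^ 2 = (X1 : ℝ) ^ 2 * (Q : ℝ) ^ (-(c0 / 2)) := by
      rw [mul_pow, ← Real.rpow_natCast ((Q : ℝ) ^ (-(c0 / 4))), ← Real.rpow_mul hQr.le]
      congr 2
      push_cast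
      ring
    have h2 : (Q : ℝ) ^ (-c0) = (Q : ℝ) ^ (-(c0 / 2)) * (Q : ℝ) ^ (-(c0 / 2)) := by
      rw [← Real.rpow_add hQr]
      congr 1
      ring
    have h3 : (0 : ℝ) < (Q : ℝ) ^ (-(c0 / 2)) := Real.rpow_pos_of_pos hQr _
    rw [h1, h2]
    field_simp
  -- the conclusion
  have hQc3 : (8 : ℝ) ≤ (Q : ℝ) ^ c3 := by
    have := hQ7 Q (by omega)
    rwa [Real.rpow_zero, mul_one] at this
  have hQcf : (3 : ℝ) ≤ (Q : ℝ) ^ cf := by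
    have := hQ8 Q (by omega)
    rwa [Real.rpow_zero, mul_one] at this
  have hmain := r19_main hQ0 c1 (c0 / 4) c3 (by linarith) (by linarith) hQc3
  have hsub : (Ico t0 (t0 + s)).filter (fun t => NoFix (sys B P (gR R t)) ∧
      ((pcount Z B P (gR R t) : ℕ) : ℝ) < (Z : ℝ) ^ (1 - ε)) ⊆
      (Ico t0 (t0 + s)).filter Bd ∪ (Ico t0 (t0 + s)).filter (fun t => (X1 : ℝ) * (Q : ℝ) ^ (-(c0 / 4)) <
        |RPh X1 B P (gR R t) - Rw Q X1 P M w (gR R t)|) := by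
    intro t ht
    rw [mem_filter] at ht
    obtain ⟨ht1, ht2, ht3⟩ := ht
    rw [mem_union, mem_filter, mem_filter]
    by_contra hcon
    push Not at hcon
    have h1 := hcon.2 ht1
    have h2 : X1 * ((Q : ℝ) ^ (-c3) / 2 - (Q : ℝ) ^ (-c1)) ≤ Rw Q X1 P M w (gR R t) := by
      by_contra h
      exact hcon.1 ht1 ((hBd t).2 ⟨ht2, h⟩)
    have h3 : Rw Q X1 P M w (gR R t) - (X1 : ℝ) * (Q : ℝ) ^ (-(c0 / 4)) ≤ RPh X1 B P (gR R t) := by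
      have := (abs_le.1 h1).1
      linarith
    have h4 := K2_count P A (L1 + L2 + LP) Q Z X1 Y hQ0 hQZ (by omega) hZ3 M B hP hGe hGB hX1Z
      (fun i n hn => (hG2 Q Z X1 M hGc i n hn).1) (gR R t) (g8_mem R M t (hrange t ht1)).1
    have h5 := hfin Z Q X1 (by omega) hQ0 (by
      have h6 : 4 * (2 * c3) / ε ≤ c1 / ε := div_le_div_of_nonneg_right (by linarith) hε.le
      exact (mul_le_mul_of_nonneg_right (h6.trans hK0f) hlQ.le).trans hl1) hX1l _ _ ht3 h4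
    have h7 : 2 * c3 / 2 = c3 := by ring
    rw [h7] at h5
    have h8 := mul_le_mul_of_nonneg_left hmain hX1r.le
    have h9 : (X1 : ℝ) * ((Q : ℝ) ^ (-c3) / 2 - (Q : ℝ) ^ (-c1) - (Q : ℝ) ^ (-(c0 / 4))) =
        X1 * ((Q : ℝ) ^ (-c3) / 2 - (Q : ℝ) ^ (-c1)) - X1 * (Q : ℝ) ^ (-(c0 / 4)) := by ring
    rw [h9] at h8
    linarith
  have hcard := (card_le_card hsub).trans (card_union_le _ _)
  have hcard' : (((Ico t0 (t0 + s)).filter (fun t => NoFix (sys B P (gR R t)) ∧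
      ((pcount Z B P (gR R t) : ℕ) : ℝ) < (Z : ℝ) ^ (1 - ε))).card : ℝ) ≤
      (((Ico t0 (t0 + s)).filter Bd).card : ℝ) + (((Ico t0 (t0 + s)).filter (fun t => (X1 : ℝ) * (Q : ℝ) ^ (-(c0 / 4)) <
        |RPh X1 B P (gR R t) - Rw Q X1 P M w (gR R t)|)).card : ℝ) := by exact_mod_cast hcard
  have h3 := r19_three hQ0 c1 c2 (c0 / 2) cf hcf1 hcf2 hcf3 hQcf
  have h4 := mul_le_mul_of_nonneg_left h3 (Nat.cast_nonneg s : (0 : ℝ) ≤ s)
  have h5 : (s : ℝ) * ((Q : ℝ) ^ (-c1) + (Q : ℝ) ^ (-c2) + (Q : ℝ) ^ (-(c0 / 2))) =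
      s * ((Q : ℝ) ^ (-c1) + (Q : ℝ) ^ (-c2)) + (s : ℝ) * (Q : ℝ) ^ (-(c0 / 2)) := by ring
  rw [h5] at h4
  have hlast : ∀ F : Finset ℕ, (∀ t ∈ F, t ∈ Ico t0 (t0 + s) ∧ NoFix (sys B P (gR R t)) ∧
      ((pcount Z B P (gR R t) : ℕ) : ℝ) < (Z : ℝ) ^ (1 - ε)) → (F.card : ℝ) ≤ s * (Q : ℝ) ^ (-cf) := by
    intro F hFm
    have g1 : F ⊆ (Ico t0 (t0 + s)).filter (fun t => NoFix (sys B P (gR R t)) ∧
        ((pcount Z B P (gR R t) : ℕ) : ℝ) < (Z : ℝ) ^ (1 - ε)) := fun t ht => by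
      rw [mem_filter]
      exact hFm t ht
    have g2 : (F.card : ℝ) ≤ (((Ico t0 (t0 + s)).filter (fun t => NoFix (sys B P (gR R t)) ∧
        ((pcount Z B P (gR R t) : ℕ) : ℝ) < (Z : ℝ) ^ (1 - ε))).card : ℝ) := by
      exact_mod_cast card_le_card g1
    linarith
  exact hlast _ fun t ht => (@mem_filter ℕ _ (_) _ _).1 ht

end Pool.Agent.HPG
end
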