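import Pool.Agent.Lib.H59M.M1.M084
import Pool.Agent.Lib.H59M.M1.M086
import Pool.Agent.Lib.H59M.M1.M092
import Pool.Agent.Lib.H59M.M1.M099

/-! Merged copies (to shorten the build) of Lib.H9A.N0, Lib.H9A.N2, Lib.H9A.N6b, Lib.H9A.N8, Lib.H9A.N9a. -/

-- from Lib.H9A.N0
section

/-!
# Project ASY: the asymptotic formula with a power-saving exceptional set (definitions)

See `PROOF.md` in this folder.
-/

open Finset Filter

namespace Pool.Agent.H9A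

open Pool.Agent.H9U
open Pool.Agent.Lib.H59P (bx pr)

noncomputable section

/-- The number of the `n < L` for which all values at `n0 + n` are primes. -/
def NPr {k d : ℕ} (S : Sys k d) (b : Fin k → ℤ) (t : Fin d → ℤ) (n0 : ℤ) (L : ℕ) : ℕ :=
  ((range L).filter (fun n : ℕ => ∀ i, (S.val b (n0 + n) t i).toNat.Prime)).card

/-- The expected density of the `n` near which all values are primes, the values being about `X`: the singular series over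
the primes up to `X`, divided by `(log X)^k`. -/
def Dn {k d : ℕ} (S : Sys k d) (b : Fin k → ℤ) (t : Fin d → ℤ) (X : ℕ) : ℝ := SSS S b t (pr X) / (Real.log X) ^ k

open Classical in
/-- The asymptotic formula for all but few `t`, for all `X` in the intervals `[M, M^A]` with `M` good, `M` arbitrarily
large. -/
def ACore {k d : ℕ} (S : Sys k d) : Prop :=
  ∀ C0 A : ℕ, 1 ≤ C0 → 1 ≤ A → ∀ ε : ℝ, 0 < ε → ∃ κ : ℝ, 0 < κ ∧ ∀ M0 : ℕ, ∃ M : ℕ, M0 ≤ M ∧ ∀ X : ℕ, M ≤ X → X ≤ M ^ A →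
    ∀ Xs : Fin k → ℕ, (∀ i, X ≤ Xs i ∧ Xs i ≤ C0 * X) → ∀ (b : Fin k → ℤ) (L T : ℕ), X ≤ L → L ≤ C0 * X → T ≤ C0 * X →
    (∀ i, ∀ n ∈ range L, ∀ t ∈ bx d T, S.val b n (iv t) i ∈ JJ (Xs i)) →
    (((bx d T).filter (fun t => S.Adm b (iv t) ∧
      ε * (L * Dn S b (iv t) X) < |(NPr S b (iv t) 0 L : ℝ) - L * Dn S b (iv t) X|)).card : ℝ) ≤ (X : ℝ) ^ (d - κ)

/-- `t` is admissible, and the asymptotic formula fails for `n` in `[n0, n0 + X)`. -/
def Bad {k d : ℕ} (S : Sys k d) (b : Fin k → ℤ) (n0 : ℤ) (X : ℕ) (ε : ℝ) (t : Fin d → ℕ) : Prop :=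
  S.Adm b (iv t) ∧ ε * (X * Dn S b (iv t) X) < |(NPr S b (iv t) n0 X : ℝ) - X * Dn S b (iv t) X|

/-- All minors at `t` are non-zero, and at most `X^3`. -/
def NZ {k d : ℕ} (S : Sys k d) (b : Fin k → ℤ) (t : Fin d → ℤ) (X : ℕ) : Prop :=
  ∀ i j, i ≠ j → S.minr b t i j ≠ 0 ∧ |S.minr b t i j| ≤ (X : ℤ) ^ 3

end

end Pool.Agent.H9A
end

-- from Lib.H9A.N2
section

/-!
# ASY, chunk N2 (M): the main term of a cell without exceptional character
-/

open Finset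

namespace Pool.Agent.H9A

open Pool.Agent.H9U
open Pool.Agent.Lib.H68T (PC p0)
open Pool.Agent.Lib.H18Q (gk KS SG)
open Pool.Agent.Lib.H59P (Ch SF bx TS Rp MX pr cj uu)

theorem n2_prod {ι : Type*} (s : Finset ι) (a b : ι → ℂ) :
    ‖∏ i ∈ s, (a i + b i) - ∏ i ∈ s, a i‖ ≤ ∏ i ∈ s, (‖a i‖ + ‖b i‖) - ∏ i ∈ s, ‖a i‖ := by
  classical
  induction s using Finset.induction_on with
  | empty => simp
  | insert j s hj ih =>
    rw [Finset.prod_insert hj, Finset.prod_insert hj, Finset.prod_insert hj, Finset.prod_insert hj]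
    have e : (a j + b j) * ∏ i ∈ s, (a i + b i) - a j * ∏ i ∈ s, a i =
        (a j + b j) * (∏ i ∈ s, (a i + b i) - ∏ i ∈ s, a i) + b j * ∏ i ∈ s, a i := by ring
    rw [e]
    refine (norm_add_le _ _).trans ?_
    rw [norm_mul, norm_mul (b j), norm_prod]
    have h2 : ‖a j + b j‖ * ‖∏ i ∈ s, (a i + b i) - ∏ i ∈ s, a i‖ ≤
        (‖a j‖ + ‖b j‖) * (∏ i ∈ s, (‖a i‖ + ‖b i‖) - ∏ i ∈ s, ‖a i‖) :=
      mul_le_mul (norm_add_le _ _) ih (norm_nonneg _) (by positivity)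
    refine (add_le_add h2 le_rfl).trans (le_of_eq ?_)
    ring

open Classical in
theorem n2_MX (p : Ch) : MX p0 (fun _ => 0) 0 p = (if p = p0 then 1 else 0 : ℂ) := by
  unfold MX
  by_cases h : p = p0
  · rw [if_pos h, if_pos h]
  · rw [if_neg h, if_neg h, if_neg h]

/-- Pointwise bound, as `c3_pt` (`H59P/C3.lean`) for `px = p0`, `th = 0`, with a small error.

Proof. `MX p0 (fun _ => 0) 0 p` is `1` if `p = p0` and `0` else; write `δ` for it. The tuple `(p0, …, p0)` is in `TS k Q D1 p0` (`Rp = 1 ≤ D1`, `1 ≤ Q`) and `cj p0 m = 1`, so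
`∑_{p ∈ TS} ∏ δ(p_i) cj(p_i)(m_i) = 1`. The difference is at most `∑_{p ∈ TS} |∏ (δ(p_i) + e_i(p_i)) - ∏ δ(p_i)| ≤ ∑_{p ∈ ∏ PC Q} (∏ (δ(p_i) + ‖e_i(p_i)‖) - ∏ δ(p_i))`
(`‖cj‖ ≤ 1`; expand the products: `‖∏ (a_i + e_i) - ∏ a_i‖ ≤ ∏ (a_i + ‖e_i‖) - ∏ a_i` for `a_i ≥ 0`, by induction or `Finset.prod_add`), and this is
`∏_i (1 + ∑_p ‖e_i(p)‖) - 1 ≤ (1 + E0)^k - 1` (`Finset.prod_univ_sum`). -/
theorem N2_pt {k : ℕ} (Q D1 : ℕ) (hQ : 1 ≤ Q) (hD1 : 1 ≤ D1) (E0 : ℝ)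
    (e : Fin k → Ch → ℂ) (he : ∀ i, ∑ p ∈ PC Q, ‖e i p‖ ≤ E0) (m : Fin k → ℤ) :
    ‖∑ p ∈ TS k Q D1 p0, ∏ i, ((MX p0 (fun _ => 0) 0 (p i) + e i (p i)) * cj (p i) (m i)) - 1‖ ≤ (1 + E0) ^ k - 1 := by
  classical
  have hp0 : p0 ∈ PC Q := Pool.Agent.Lib.H68T.p0_mem hQ
  obtain ⟨a, ha⟩ : ∃ a : Ch → ℂ, a = fun p => if p = p0 then 1 else 0 := ⟨_, rfl⟩
  obtain ⟨b, hb⟩ : ∃ b : Fin k → Ch → ℂ, b = fun i p => e i p * cj p (m i) := ⟨_, rfl⟩
  have ha1 : a p0 = 1 := by rw [ha]; exact if_pos rfl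
  have ha0 : ∀ p, p ≠ p0 → a p = 0 := fun p hp => by rw [ha]; exact if_neg hp
  have e1 : ∀ p : Fin k → Ch, ∏ i, ((MX p0 (fun _ => 0) 0 (p i) + e i (p i)) * cj (p i) (m i)) = ∏ i, (a (p i) + b i (p i)) := by
    intro p
    refine Finset.prod_congr rfl fun i _ => ?_
    rw [n2_MX, add_mul, hb]
    by_cases h : p i = p0
    · rw [if_pos h, h, ha1, one_mul]
      change cj p0 (m i) + e i p0 * cj p0 (m i) = 1 + e i p0 * cj p0 (m i)
      rw [Pool.Agent.Lib.H59P.c3_cj_p0]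
    · rw [if_neg h, zero_mul, ha0 _ h]
  have hc : (fun _ => p0 : Fin k → Ch) ∈ TS k Q D1 p0 := by
    unfold TS
    rw [Finset.mem_filter]
    refine ⟨Fintype.mem_piFinset.2 fun _ => hp0, ?_⟩
    have h1 : Rp p0 (fun _ : Fin k => p0) ∣ 1 := by
      unfold Rp
      exact Nat.lcm_dvd (one_dvd _) (Finset.lcm_dvd fun i _ => one_dvd _)
    exact (Nat.le_of_dvd one_pos h1).trans hD1
  have hne : ∀ p : Fin k → Ch, p ≠ (fun _ => p0) → ∏ i, a (p i) = 0 := by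
    intro p hp
    have h1 : ∃ i, p i ≠ p0 := by
      by_contra hcon
      push Not at hcon
      exact hp (funext hcon)
    obtain ⟨i, hi⟩ := h1
    exact Finset.prod_eq_zero (Finset.mem_univ i) (ha0 _ hi)
  have hsum : ∑ p ∈ TS k Q D1 p0, ∏ i, a (p i) = 1 := by
    rw [Finset.sum_eq_single (fun _ => p0 : Fin k → Ch) (fun p _ hp => hne p hp) (fun h => absurd hc h)]
    simp only [ha1, Finset.prod_const_one]
  have hdiff : ∑ p ∈ TS k Q D1 p0, ∏ i, ((MX p0 (fun _ => 0) 0 (p i) + e i (p i)) * cj (p i) (m i)) - 1 =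
      ∑ p ∈ TS k Q D1 p0, (∏ i, (a (p i) + b i (p i)) - ∏ i, a (p i)) := by
    rw [Finset.sum_sub_distrib, hsum]
    simp only [e1]
  have hnn : ∀ p : Fin k → Ch, 0 ≤ ∏ i, (‖a (p i)‖ + ‖b i (p i)‖) - ∏ i, ‖a (p i)‖ := fun p =>
    (norm_nonneg _).trans (n2_prod Finset.univ (fun i => a (p i)) (fun i => b i (p i)))
  have hall : ∑ p ∈ Fintype.piFinset (fun _ : Fin k => PC Q), (∏ i, (‖a (p i)‖ + ‖b i (p i)‖) - ∏ i, ‖a (p i)‖) =
      ∏ i : Fin k, ∑ q ∈ PC Q, (‖a q‖ + ‖b i q‖) - ∏ _i : Fin k, ∑ q ∈ PC Q, ‖a q‖ := by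
    rw [Finset.sum_sub_distrib, Finset.prod_univ_sum, Finset.prod_univ_sum]
  have hsa : ∑ q ∈ PC Q, ‖a q‖ = 1 := by
    rw [Finset.sum_eq_single p0 (fun q _ hq => by rw [ha0 q hq, norm_zero]) (fun h => absurd hp0 h), ha1, norm_one]
  have hsb : ∀ i, ∑ q ∈ PC Q, ‖b i q‖ ≤ E0 := by
    intro i
    refine (Finset.sum_le_sum fun q _ => ?_).trans (he i)
    rw [hb, norm_mul]
    exact mul_le_of_le_one_right (norm_nonneg _) (Pool.Agent.Lib.H59P.c3_cj_norm q (m i))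
  rw [hdiff]
  refine (norm_sum_le _ _).trans ?_
  refine (Finset.sum_le_sum fun p _ => n2_prod Finset.univ (fun i => a (p i)) (fun i => b i (p i))).trans ?_
  have hsub : TS k Q D1 p0 ⊆ Fintype.piFinset (fun _ : Fin k => PC Q) := by
    intro p hp
    unfold TS at hp
    exact (Finset.mem_filter.mp hp).1
  refine (Finset.sum_le_sum_of_subset_of_nonneg hsub fun p _ _ => hnn p).trans ?_
  rw [hall, hsa, Finset.prod_const_one]
  refine sub_le_sub_right ?_ 1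
  have h3 : ∏ i : Fin k, ∑ q ∈ PC Q, (‖a q‖ + ‖b i q‖) ≤ ∏ _i : Fin k, (1 + E0) := by
    refine Finset.prod_le_prod (fun i _ => Finset.sum_nonneg fun q _ => add_nonneg (norm_nonneg _) (norm_nonneg _)) fun i _ => ?_
    rw [Finset.sum_add_distrib, hsa]
    exact add_le_add le_rfl (hsb i)
  refine h3.trans (le_of_eq ?_)
  rw [Finset.prod_const, Finset.card_univ, Fintype.card_fin]

/-- Proof. `z3_trunc` (`H9U/Z3.lean`) with `px = p0` gives the second term. The complete sum `∑_{p ∈ TS} (∏ c_i(p_i)) MQS p` against `SSS`: as in `Z3S` replace `c_i` by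
`MX p0 _ 0 + e_i` (`e_i p = c_i p - MX p` if `p.1 ≤ D1`, else `0`), and as in `C3S` (`H9U/C3.lean`) both sides are means over `n < Q!` of `∏_i uu (pr Q) (val i) ≥ 0` times the two sides of `N2_pt`
(`M5S_SS` for the mean of `∏ uu`). -/
theorem N2_cell {k d : ℕ} (S : Sys k d) (b : Fin k → ℤ) (t : Fin d → ℤ) (Q D D1 : ℕ) (hQ : 1 ≤ Q)
    (hDQ : D ≤ Q) (hD1 : D1 ≤ D) (hD11 : 1 ≤ D1) (E0 : ℝ) (M : ℝ)
    (c : Fin k → Ch → ℂ) (hc : ∀ i, ∑ p ∈ PC Q, ‖c i p‖ ≤ M) (eb : Fin k → Ch → ℝ)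
    (heb0 : ∀ i, ∀ p ∈ PC Q, 0 ≤ eb i p) (heb : ∀ i, ∑ p ∈ PC Q, eb i p ≤ E0)
    (hce : ∀ i, ∀ p ∈ PC Q, p.1 ≤ D1 → ‖c i p - MX p0 (fun _ => 0) 0 p‖ ≤ eb i p) (τ : ℝ)
    (hτ : ∀ R : ℕ, 1 ≤ R → R ≤ D1 →
      |∑ e ∈ SF (D / R) R, tdS S b t e - SSS S b t ((pr Q).filter (fun l : ℕ => ¬ l ∣ R))| ≤ τ) :
    ‖MCS S b t Q D D1 p0 c - ((SSS S b t (pr Q) : ℝ) : ℂ)‖ ≤
      ((1 + E0) ^ k - 1) * SSS S b t (pr Q) + (2 * M * (1 + Real.log Q)) ^ k * τ := by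
  classical
  have hp0 : p0 ∈ PC Q := Pool.Agent.Lib.H68T.p0_mem hQ
  have z1 := z3_trunc S b t Q D D1 hDQ hD1 p0 hp0 hD11 M c hc τ hτ
  let e : Fin k → Ch → ℂ := fun i p => if p.1 ≤ D1 then c i p - MX p0 (fun _ => 0) 0 p else 0
  have he : ∀ i, ∑ p ∈ PC Q, ‖e i p‖ ≤ E0 := by
    intro i
    refine (Finset.sum_le_sum fun p hp => ?_).trans (heb i)
    show ‖if p.1 ≤ D1 then c i p - MX p0 (fun _ => 0) 0 p else 0‖ ≤ eb i p
    split_ifs with h1
    · exact hce i p hp h1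
    · rw [norm_zero]
      exact heb0 i p hp
  have hS : ∑ p ∈ TS k Q D1 p0, (∏ i, (MX p0 (fun _ => 0) 0 (p i) + e i (p i))) * MQS S b t Q p =
      ∑ p ∈ TS k Q D1 p0, (∏ i, c i (p i)) * MQS S b t Q p := by
    refine Finset.sum_congr rfl fun p hp => ?_
    obtain ⟨hR0, hRle, hd, -, -⟩ := z3_Rp Q D1 p0 hp0 p hp
    congr 1
    refine Finset.prod_congr rfl fun i _ => ?_
    have h1 : (p i).1 ≤ D1 := (Nat.le_of_dvd hR0 (hd i)).trans hRle
    show MX p0 (fun _ => 0) 0 (p i) + (if (p i).1 ≤ D1 then c i (p i) - MX p0 (fun _ => 0) 0 (p i) else 0) = c i (p i)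
    rw [if_pos h1]
    ring
  have hQ0 : (0 : ℝ) < (Q.factorial : ℝ) := by exact_mod_cast Nat.factorial_pos Q
  have hU : ∀ n : ℤ, 0 ≤ ∏ i : Fin k, uu (pr Q) (S.val b n t i) := fun n =>
    Finset.prod_nonneg fun i _ => Pool.Agent.Lib.H59P.M3a_uu_nonneg _ (Pool.Agent.Lib.H59P.c3_pr Q) _
  have h1 : ∑ p ∈ TS k Q D1 p0, (∏ i, (MX p0 (fun _ => 0) 0 (p i) + e i (p i))) * MQS S b t Q p =
      (∑ n ∈ range Q.factorial, ((∏ i : Fin k, uu (pr Q) (S.val b (n : ℤ) t i) : ℝ) : ℂ) *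
        ∑ p ∈ TS k Q D1 p0, ∏ i, ((MX p0 (fun _ => 0) 0 (p i) + e i (p i)) * cj (p i) (S.val b (n : ℤ) t i))) /
        ((Q.factorial : ℝ) : ℂ) := by
    unfold MQS mn
    rw [Finset.sum_div]
    simp only [Finset.mul_sum, Finset.sum_div, mul_div_assoc']
    rw [Finset.sum_comm]
    refine Finset.sum_congr rfl fun n _ => ?_
    refine Finset.sum_congr rfl fun p _ => ?_
    unfold PhV
    rw [Finset.prod_mul_distrib, Finset.prod_mul_distrib, Complex.ofReal_prod]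
    push_cast
    ring
  have z2 : ‖∑ p ∈ TS k Q D1 p0, (∏ i, c i (p i)) * MQS S b t Q p - ((SSS S b t (pr Q) : ℝ) : ℂ)‖ ≤
      ((1 + E0) ^ k - 1) * SSS S b t (pr Q) := by
    rw [← hS, h1, ← M5S_SS S b t Q]
    rw [Complex.ofReal_div, ← sub_div, norm_div, Complex.norm_real, Real.norm_eq_abs, abs_of_pos hQ0, mul_div_assoc']
    refine div_le_div_of_nonneg_right ?_ hQ0.le
    rw [Complex.ofReal_sum, ← Finset.sum_sub_distrib, Finset.mul_sum]
    refine (norm_sum_le _ _).trans (Finset.sum_le_sum fun n _ => ?_)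
    have e2 : ∀ U V : ℂ, U * V - U = U * (V - 1) := fun U V => by ring
    rw [e2, norm_mul, Complex.norm_real, Real.norm_eq_abs, abs_of_nonneg (hU n)]
    have hpt := N2_pt Q D1 hQ hD11 E0 e he (fun i => S.val b (n : ℤ) t i)
    refine (mul_le_mul_of_nonneg_left hpt (hU n)).trans (le_of_eq ?_)
    ring
  have e3 : MCS S b t Q D D1 p0 c - ((SSS S b t (pr Q) : ℝ) : ℂ) =
      (∑ p ∈ TS k Q D1 p0, (∏ i, c i (p i)) * MQS S b t Q p - ((SSS S b t (pr Q) : ℝ) : ℂ)) +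
      (MCS S b t Q D D1 p0 c - ∑ p ∈ TS k Q D1 p0, (∏ i, c i (p i)) * MQS S b t Q p) := by ring
  rw [e3]
  exact (norm_add_le _ _).trans (add_le_add z2 z1)

end Pool.Agent.H9A
end

-- from Lib.H9A.N6b
section

/-!
# ASY, chunk N6b (M): the complete singular series
-/

open Finset Filter

namespace Pool.Agent.H9A

open Pool.Agent.H9U
open Pool.Agent.Lib.H59P (Ch cj uu gl pr SF)

/-- Telescoping over squares. -/
theorem n6b_tel (F : ℕ → ℝ) (N : ℕ) (hN : 2 ^ 8 ≤ N)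
    (h : ∀ z1 z2 : ℕ, N ≤ z1 → z1 ≤ z2 → z2 ≤ z1 ^ 2 → |F z1 - F z2| ≤ 2 * (z1 : ℝ) ^ (-(1 / 8) : ℝ)) (n : ℕ) :
    ∀ z1 z2 : ℕ, N ≤ z1 → z1 ≤ z2 → z2 ≤ z1 ^ (2 ^ n) → |F z1 - F z2| ≤ 4 * (z1 : ℝ) ^ (-(1 / 8) : ℝ) := by
  induction n with
  | zero =>
    intro z1 z2 h1 h2 h3
    have h4 : z1 = z2 := by
      rw [pow_zero, pow_one] at h3
      omega
    rw [h4, sub_self, abs_zero]
    positivity
  | succ n ih =>
    intro z1 z2 h1 h2 h3
    have hz1 : 2 ^ 8 ≤ z1 := hN.trans h1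
    have hz : (0 : ℝ) < z1 := by
      have : 0 < z1 := by omega
      exact_mod_cast this
    have hp : 0 ≤ (z1 : ℝ) ^ (-(1 / 8) : ℝ) := by positivity
    rcases le_total z2 (z1 ^ 2) with h4 | h4
    · have := h z1 z2 h1 h2 h4
      linarith
    · have h5 : z1 ≤ z1 ^ 2 := Nat.le_self_pow (by norm_num) z1
      have h6 := h z1 (z1 ^ 2) h1 h5 le_rfl
      have h7 : z2 ≤ (z1 ^ 2) ^ (2 ^ n) := by
        rw [← pow_mul]
        have h8 : 2 * 2 ^ n = 2 ^ (n + 1) := by ring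
        rw [h8]
        exact h3
      have h8 := ih (z1 ^ 2) z2 (h1.trans h5) h4 h7
      have h9 : ((z1 ^ 2 : ℕ) : ℝ) ^ (-(1 / 8) : ℝ) = (z1 : ℝ) ^ (-(1 / 8) : ℝ) * (z1 : ℝ) ^ (-(1 / 8) : ℝ) := by
        push_cast
        rw [sq, Real.mul_rpow hz.le hz.le]
      have h10 : (z1 : ℝ) ^ (-(1 / 8) : ℝ) ≤ 1 / 2 := by
        have h11 : ((2 : ℝ) ^ 8) ≤ z1 := by exact_mod_cast hz1
        calc (z1 : ℝ) ^ (-(1 / 8) : ℝ) ≤ ((2 : ℝ) ^ 8) ^ (-(1 / 8) : ℝ) :=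
              Real.rpow_le_rpow_of_nonpos (by positivity) h11 (by norm_num)
          _ = 1 / 2 := by
              rw [← Real.rpow_natCast (2 : ℝ) 8, ← Real.rpow_mul (by norm_num)]
              norm_num
      rw [h9] at h8
      have h11 : (z1 : ℝ) ^ (-(1 / 8) : ℝ) * (z1 : ℝ) ^ (-(1 / 8) : ℝ) ≤ (z1 : ℝ) ^ (-(1 / 8) : ℝ) * (1 / 2) :=
        mul_le_mul_of_nonneg_left h10 hp
      have h12 : |F z1 - F z2| ≤ |F z1 - F (z1 ^ 2)| + |F (z1 ^ 2) - F z2| := abs_sub_le _ _ _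
      linarith

theorem n6b_pr (Q : ℕ) : (pr Q).filter (fun l : ℕ => ¬ l ∣ 1) = pr Q := by
  refine Finset.filter_true_of_mem fun l hl h => ?_
  have h1 := (Pool.Agent.Lib.H59P.mem_pr.1 hl).2
  exact h1.one_lt.ne' (Nat.dvd_one.1 h)

/-- **The complete singular series.**

Proof. `T4S_tail` with `ε := 1/16` (bound `X1`). For `X1 ≤ X ≤ z1 ≤ z2 ≤ z1^2`: `T4S_tail` at `X := z2` (`|minr| ≤ X^3 ≤ z2^3`), `R = 1`, `E = z1`, for `Q := z1` and `Q := z2`: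
`|SSS(z1) - SSS(z2)| ≤ 2 z1^(-1/4) z2^(1/16) ≤ 2 z1^(-1/8)`. Hence (telescoping over `z, z^2, z^4, …`, `z ≥ 2^8` large) `|SSS(z1) - SSS(z2)| ≤ 8 z1^(-1/8)` for all `z2 ≥ z1 ≥ X`: a Cauchy sequence, with limit `s`,
`|SSS(X) - s| ≤ 8 X^(-1/8)`, `s ≥ exp(-4k)` (`T1S_low`), and `8 X^(-1/8) ≤ ε exp(-4k)` for `X` large. (Alternatively by `T2S_bd`: the product over `X < l ≤ z` is
`1 + O(log X/X)`.) -/
theorem N6_lim {k d : ℕ} (S : Sys k d) (ha : ∀ i, S.a i ≠ 0) (ε : ℝ) (hε : 0 < ε) : ∃ X0 : ℕ, ∀ X : ℕ, X0 ≤ X →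
    ∀ (b : Fin k → ℤ) (t : Fin d → ℤ), S.Adm b t → NZ S b t X →
    ∃ s : ℝ, 0 < s ∧ Tendsto (fun z : ℕ => SSS S b t (pr z)) atTop (nhds s) ∧ |SSS S b t (pr X) - s| ≤ ε * s := by
  obtain ⟨X1, hX1⟩ := T4S_tail S ha (1 / 16) (by norm_num)
  have ht0 : Tendsto (fun n : ℕ => 4 * (n : ℝ) ^ (-(1 / 8) : ℝ)) atTop (nhds 0) := by
    have h1 : Tendsto (fun n : ℕ => (n : ℝ) ^ (-(1 / 8) : ℝ)) atTop (nhds 0) :=
      (tendsto_rpow_neg_atTop (by norm_num)).comp tendsto_natCast_atTop_atTop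
    have h2 := h1.const_mul 4
    rwa [mul_zero] at h2
  have hpos : 0 < ε * Real.exp (-(4 * k : ℝ)) := by positivity
  obtain ⟨X2, hX2⟩ := Filter.eventually_atTop.1 (ht0.eventually (gt_mem_nhds hpos))
  refine ⟨max (max X1 X2) (2 ^ 8), fun X hX b t hadm hnz => ?_⟩
  have hXa : X1 ≤ X := ((le_max_left _ _).trans (le_max_left _ _)).trans hX
  have hXb : X2 ≤ X := ((le_max_right _ _).trans (le_max_left _ _)).trans hX
  have hXc : 2 ^ 8 ≤ X := (le_max_right _ _).trans hX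
  obtain ⟨F, hF⟩ : ∃ F : ℕ → ℝ, F = fun z => SSS S b t (pr z) := ⟨_, rfl⟩
  -- one step
  have hstep : ∀ z1 z2 : ℕ, X ≤ z1 → z1 ≤ z2 → z2 ≤ z1 ^ 2 → |F z1 - F z2| ≤ 2 * (z1 : ℝ) ^ (-(1 / 8) : ℝ) := by
    intro z1 z2 h1 h2 h3
    have hz1 : 1 ≤ z1 := by omega
    have hz2 : X ≤ z2 := h1.trans h2
    have hz : (0 : ℝ) < z1 := by exact_mod_cast hz1
    have hz20 : (0 : ℝ) ≤ z2 := Nat.cast_nonneg _
    have hm : ∀ i j, i ≠ j → S.minr b t i j ≠ 0 ∧ |S.minr b t i j| ≤ (z2 : ℤ) ^ 3 := by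
      intro i j hij
      refine ⟨(hnz i j hij).1, (hnz i j hij).2.trans ?_⟩
      have h4 : (X : ℤ) ≤ z2 := by exact_mod_cast hz2
      exact pow_le_pow_left₀ (by positivity) h4 3
    have e1 := hX1 z2 z1 (hXa.trans hz2) h2 b t hm 1 z1 hz1 le_rfl
    have e2 := hX1 z2 z2 (hXa.trans hz2) le_rfl b t hm 1 z1 hz1 h2
    rw [n6b_pr] at e1 e2
    have e3 : (z1 : ℝ) ^ (-(1 / 4) : ℝ) * (z2 : ℝ) ^ (1 / 16 : ℝ) ≤ (z1 : ℝ) ^ (-(1 / 8) : ℝ) := by
      have h5 : (z2 : ℝ) ≤ (z1 : ℝ) ^ 2 := by exact_mod_cast h3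
      have h6 : (z2 : ℝ) ^ (1 / 16 : ℝ) ≤ (z1 : ℝ) ^ (1 / 8 : ℝ) := by
        calc (z2 : ℝ) ^ (1 / 16 : ℝ) ≤ ((z1 : ℝ) ^ 2) ^ (1 / 16 : ℝ) := Real.rpow_le_rpow hz20 h5 (by norm_num)
          _ = (z1 : ℝ) ^ (1 / 8 : ℝ) := by
              rw [← Real.rpow_natCast (z1 : ℝ) 2, ← Real.rpow_mul hz.le]
              norm_num
      calc (z1 : ℝ) ^ (-(1 / 4) : ℝ) * (z2 : ℝ) ^ (1 / 16 : ℝ) ≤ (z1 : ℝ) ^ (-(1 / 4) : ℝ) * (z1 : ℝ) ^ (1 / 8 : ℝ) :=
            mul_le_mul_of_nonneg_left h6 (by positivity)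
        _ = (z1 : ℝ) ^ (-(1 / 8) : ℝ) := by
            rw [← Real.rpow_add hz]
            norm_num
    rw [abs_le] at e1 e2
    rw [hF]
    rw [abs_le]
    constructor
    · linarith [e1.1, e1.2, e2.1, e2.2]
    · linarith [e1.1, e1.2, e2.1, e2.2]
  have hall : ∀ z1 z2 : ℕ, X ≤ z1 → z1 ≤ z2 → |F z1 - F z2| ≤ 4 * (z1 : ℝ) ^ (-(1 / 8) : ℝ) := by
    intro z1 z2 h1 h2
    refine n6b_tel F X hXc hstep z2 z1 z2 h1 h2 ?_
    have h3 : 2 ≤ z1 := by omega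
    calc z2 ≤ 2 ^ z2 := Nat.lt_two_pow_self.le
      _ ≤ 2 ^ (2 ^ z2) := Nat.pow_le_pow_right (by norm_num) Nat.lt_two_pow_self.le
      _ ≤ z1 ^ (2 ^ z2) := Nat.pow_le_pow_left h3 _
  -- Cauchy
  have hcau : CauchySeq (fun n : ℕ => F (n + X)) := by
    refine cauchySeq_of_le_tendsto_0' (fun n : ℕ => 4 * ((n + X : ℕ) : ℝ) ^ (-(1 / 8) : ℝ)) (fun n m hnm => ?_) ?_
    · rw [Real.dist_eq]
      exact hall (n + X) (m + X) (by omega) (by omega)
    · exact (tendsto_add_atTop_iff_nat (f := fun n : ℕ => 4 * (n : ℝ) ^ (-(1 / 8) : ℝ)) X).2 ht0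
  obtain ⟨s, hs⟩ := cauchySeq_tendsto_of_complete hcau
  have hs' : Tendsto F atTop (nhds s) := (tendsto_add_atTop_iff_nat X).1 hs
  have hlow : Real.exp (-(4 * k : ℝ)) ≤ s := by
    refine ge_of_tendsto' hs' fun z => ?_
    rw [hF]
    exact T1S_low (S := S) (b := b) (t := t) hadm (pr z) fun l hl => (Pool.Agent.Lib.H59P.mem_pr.1 hl).2
  have hspos : 0 < s := (Real.exp_pos _).trans_le hlow
  have hdiff : |F X - s| ≤ 4 * (X : ℝ) ^ (-(1 / 8) : ℝ) := by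
    have h1 : Tendsto (fun z => |F X - F z|) atTop (nhds |F X - s|) := (tendsto_const_nhds.sub hs').abs
    refine le_of_tendsto h1 (Filter.eventually_atTop.2 ⟨X, fun z hz => hall X z le_rfl hz⟩)
  refine ⟨s, hspos, ?_, ?_⟩
  · rw [hF] at hs'
    exact hs'
  · have h1 := hX2 X hXb
    have h2 : ε * Real.exp (-(4 * k : ℝ)) ≤ ε * s := mul_le_mul_of_nonneg_left hlow hε.le
    rw [hF] at hdiff
    exact hdiff.trans (h1.le.trans h2)

end Pool.Agent.H9A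
end

-- from Lib.H9A.N8
section

/-!
# ASY, chunk N8 (M): one cell of `n`, all `t`
-/

open Finset

namespace Pool.Agent.H9A

open Pool.Agent.H9U
open Pool.Agent.Lib.H59P (bx pr)

/-- The sum of a periodic function over a shifted period. -/
theorem n8_per (G : ℤ → ℝ) (l : ℕ) (hG : ∀ n, G (n + l) = G n) (m : ℤ) :
    ∑ n ∈ range l, G (m + n) = ∑ n ∈ range l, G n := by
  have hstep : ∀ m : ℤ, ∑ n ∈ range l, G (m + 1 + n) = ∑ n ∈ range l, G (m + n) := by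
    intro m
    have h1 := Finset.sum_range_succ (fun n : ℕ => G (m + n)) l
    have h2 := Finset.sum_range_succ' (fun n : ℕ => G (m + n)) l
    rw [h1] at h2
    have h3 : ∑ n ∈ range l, G (m + ((n + 1 : ℕ) : ℤ)) = ∑ n ∈ range l, G (m + 1 + n) := by
      refine Finset.sum_congr rfl fun n _ => ?_
      congr 1
      push_cast
      ring
    rw [h3, hG] at h2
    simp only [Nat.cast_zero, add_zero] at h2
    linarith
  induction m using Int.induction_on with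
  | zero => simp
  | succ i ih => rw [hstep, ih]
  | pred i ih =>
    have h1 := hstep (-(i : ℤ) - 1)
    rw [sub_add_cancel] at h1
    rw [← h1, ih]

/-- Proof. For every `l` the local factor `tpS` is the mean over `n < l` of a function of `n` with period `l` (`m5_g_per`, `m5_g_sum` in `H9U/M5.lean`; for `l = 0` both sides are the empty sum), and by
`Pool.Agent.H96U.f1_val` `S.val (fun i => S.val b n0 (iv u) i) n (iv t) = S.val b (n0 + n) (iv (u + t))`: a translation of `n` by `n0`. -/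
theorem N8_tr {k d : ℕ} (S : Sys k d) (b : Fin k → ℤ) (n0 : ℤ) (u t : Fin d → ℕ) (P : Finset ℕ) :
    SSS S (fun i => S.val b n0 (iv u) i) (iv t) P = SSS S b (iv (fun j => u j + t j)) P := by
  unfold SSS
  refine Finset.prod_congr rfl fun l _ => ?_
  have h : tpS S (fun i => S.val b n0 (iv u) i) (iv t) l = tpS S b (iv (fun j => u j + t j)) l := by
    unfold tpS
    obtain ⟨G, hG⟩ : ∃ G : ℤ → ℝ, G = fun m : ℤ => ∏ i, (1 + Lib.H59P.gl l (S.val b m (iv (fun j => u j + t j)) i)) := ⟨_, rfl⟩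
    have hper : ∀ n, G (n + l) = G n := by
      intro n
      rw [hG]
      refine Finset.prod_congr rfl fun i _ => ?_
      rw [m5_val, Lib.H59P.gl_per]
    have h1 : ∑ n ∈ range l, ∏ i, (1 + Lib.H59P.gl l (S.val (fun i => S.val b n0 (iv u) i) n (iv t) i)) =
        ∑ n ∈ range l, G (n0 + n) := by
      refine Finset.sum_congr rfl fun n _ => ?_
      rw [hG]
      refine Finset.prod_congr rfl fun i _ => ?_
      rw [H96U.f1_val S b n0 n u t i]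
    rw [h1, n8_per G l hper n0, hG]
  rw [h]

/-- Proof. Copy `F1_box` (`H96U/F1.lean`) with `Few` replaced by `Bad` and `CoreOf` by `ACore` (`L = X`, `C0 := max C0 1`, `A`, `ε`; `κ` from `ACore`, capped by `1`; the same `M`, with `M ≥ max M0 12`). The value `V i = S.val b n0 (iv u) i`; `Adm` and `Dn`, `NPr` for
`(V, t)` are those for `(b, u + t)` at `n0` (`N8_tr`; `f1_val` for `NPr`: `val V (0 + n) t = val b (n0 + n) (u + t)`; `Adm`: `F1_box` has the argument). -/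
theorem N8_box {k d : ℕ} (S : Sys k d) (hA : ACore S) (C0 A : ℕ) (hA1 : 1 ≤ A)
    (ε : ℝ) (hε : 0 < ε) : ∃ κ : ℝ, 0 < κ ∧ κ ≤ 1 ∧ ∀ M0 : ℕ, ∃ M : ℕ, M0 ≤ M ∧ ∀ X : ℕ, M ≤ X → X ≤ M ^ A →
    ∀ (b : Fin k → ℤ) (n0 : ℤ) (u : Fin d → ℕ),
    (∀ i, (19 * S.sa * X : ℕ) ≤ S.val b n0 (iv u) i ∧ S.val b n0 (iv u) i ≤ (C0 * X : ℕ)) →
    ∀ Z : Finset (Fin d → ℕ), (∀ t ∈ Z, t ∈ bx d (X / S.sc) ∧ Bad S b n0 X ε (fun j => u j + t j)) →
    (Z.card : ℝ) ≤ (X : ℝ) ^ (d - κ) := by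
  classical
  obtain ⟨κ, hκ, hcore0⟩ := hA (max C0 1) A (le_max_right _ _) hA1 ε hε
  refine ⟨min κ 1, lt_min hκ one_pos, min_le_right _ _, fun M0 => ?_⟩
  obtain ⟨M', hM', hcore⟩ := hcore0 (max M0 12)
  refine ⟨M', (le_max_left _ _).trans hM', ?_⟩
  intro X hX hXA b n0 u hV Z hZ
  have hX12 : 12 ≤ X := ((le_max_right _ _).trans hM').trans hX
  obtain ⟨V, hVd⟩ : ∃ V : Fin k → ℤ, V = fun i => S.val b n0 (iv u) i := ⟨_, rfl⟩
  have hV' : ∀ i, (19 * S.sa * X : ℕ) ≤ V i ∧ V i ≤ (C0 * X : ℕ) := fun i => by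
    rw [hVd]
    exact hV i
  have hsa : 1 ≤ S.sa := by
    unfold Sys.sa
    omega
  have hsX : (12 : ℤ) ≤ ((S.sa * X : ℕ) : ℤ) := by
    exact_mod_cast hX12.trans (Nat.le_mul_of_pos_left X hsa)
  have hXs1 : (X : ℤ) ≤ ((S.sa * X : ℕ) : ℤ) := by
    exact_mod_cast Nat.le_mul_of_pos_left X hsa
  obtain ⟨M, hM⟩ : ∃ M : ℤ, M = ((S.sa * X : ℕ) : ℤ) := ⟨_, rfl⟩
  have hV1 : ∀ i, 19 * M ≤ V i := fun i => by
    have h1 := (hV' i).1
    rw [hM]
    push_cast at h1 ⊢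
    linarith
  rw [← hM] at hsX hXs1
  obtain ⟨Xs, hXs⟩ : ∃ Xs : Fin k → ℕ, Xs = fun i => ((V i - M) / 2).toNat := ⟨_, rfl⟩
  have hXsc : ∀ i, ((Xs i : ℕ) : ℤ) = (V i - M) / 2 := fun i => by
    rw [hXs]
    have h1 := hV1 i
    exact Int.toNat_of_nonneg (by omega)
  have hXsb : ∀ i, X ≤ Xs i ∧ Xs i ≤ max C0 1 * X := by
    intro i
    have h1 := hV1 i
    have h2 := hXsc i
    have h3 := (hV' i).2
    constructor
    · omega
    · have h4 : (Xs i : ℤ) ≤ ((C0 * X : ℕ) : ℤ) := by omega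
      have h5 : Xs i ≤ C0 * X := by exact_mod_cast h4
      exact h5.trans (Nat.mul_le_mul_right _ (le_max_left _ _))
  have hXC : X ≤ max C0 1 * X := Nat.le_mul_of_pos_left X (by have := le_max_right C0 1; omega)
  have hJ : ∀ i, ∀ n ∈ range X, ∀ t ∈ bx d (X / S.sc), S.val V n (iv t) i ∈ JJ (Xs i) := by
    intro i n hn t ht
    have ht' : ∀ j, t j ≤ X / S.sc := fun j => by
      have h1 := Fintype.mem_piFinset.1 ht j
      exact (Finset.mem_range.1 h1).le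
    have h1 := H96U.f1_abs S X n (Finset.mem_range.1 hn).le t ht' i
    rw [← hM, abs_le] at h1
    have h2 := hXsc i
    have h3 := hV1 i
    have h4 : S.val V n (iv t) i = S.lin i n (iv t) + V i := rfl
    unfold JJ
    rw [Finset.mem_Ico, h4]
    omega
  have hc := hcore X hX hXA Xs hXsb V X (X / S.sc) le_rfl hXC ((Nat.div_le_self _ _).trans hXC) hJ
  have hX1 : (1 : ℝ) ≤ X := by exact_mod_cast (show 1 ≤ X by omega)
  have hpow : (X : ℝ) ^ ((d : ℝ) - κ) ≤ (X : ℝ) ^ ((d : ℝ) - min κ 1) :=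
    Real.rpow_le_rpow_of_exponent_le hX1 (by linarith [min_le_left κ 1])
  refine le_trans ?_ (hc.trans hpow)
  refine Nat.cast_le.2 (Finset.card_le_card ?_)
  intro t ht
  rw [Finset.mem_filter]
  obtain ⟨ht1, hadm, hcnt⟩ := hZ t ht
  have hDn : Dn S V (iv t) X = Dn S b (iv (fun j => u j + t j)) X := by
    unfold Dn
    rw [hVd, N8_tr]
  have hNPr : NPr S V (iv t) 0 X = NPr S b (iv (fun j => u j + t j)) n0 X := by
    unfold NPr
    congr 1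
    refine Finset.filter_congr fun n _ => ?_
    have h1 : ∀ i, S.val V (0 + n) (iv t) i = S.val b (n0 + n) (iv (fun j => u j + t j)) i := fun i => by
      rw [hVd, zero_add, ← H96U.f1_val S b n0 n u t i]
    simp only [h1]
  refine ⟨ht1, ?_, ?_⟩
  · intro l hl
    obtain ⟨n, hn⟩ := hadm l hl
    refine ⟨n - n0, fun i => ?_⟩
    have h1 := H96U.f1_val S b n0 (n - n0) u t i
    rw [add_sub_cancel] at h1
    rw [hVd, ← h1]
    exact hn i
  · rw [hDn, hNPr]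
    exact hcnt

/-- Proof. Copy `F2_cover` (`H96U/F2.lean`) with `Few` replaced by `Bad` (`N8_box` with `C0 + 1`: `κ1`, `M`; enlarge `M0` by the thresholds of `F2_cover`, so that `M ≥` all of them), `κ = κ1/2`. -/
theorem N8_cover {k d : ℕ} (S : Sys k d) (hA : ACore S) (C0 A : ℕ) (hA1 : 1 ≤ A)
    (ε : ℝ) (hε : 0 < ε) : ∃ κ : ℝ, 0 < κ ∧ κ ≤ 1 ∧ ∀ M0 : ℕ, ∃ M : ℕ, M0 ≤ M ∧ ∀ X : ℕ, M ≤ X → X ≤ M ^ A →
    ∀ (b : Fin k → ℤ) (n0 : ℤ) (T : ℕ), T ≤ C0 * X → ∀ Z : Finset (Fin d → ℕ),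
    (∀ t ∈ Z, t ∈ bx d T ∧ (∀ i, (20 * S.sa * X : ℕ) ≤ S.val b n0 (iv t) i ∧ S.val b n0 (iv t) i ≤ (C0 * X : ℕ)) ∧
      Bad S b n0 X ε t) →
    (Z.card : ℝ) ≤ (X : ℝ) ^ (d - κ) := by
  classical
  obtain ⟨κ1, hκ1, hκ1', H0⟩ := N8_box S hA (C0 + 1) A hA1 ε hε
  obtain ⟨M, hM⟩ : ∃ M, M = 2 * (C0 + 1) * S.sc := ⟨_, rfl⟩
  obtain ⟨X2, hX2⟩ := H96U.f2_large (κ1 / 2) ((M : ℝ) ^ d) (by positivity)
  refine ⟨κ1 / 2, by positivity, by linarith, fun M0 => ?_⟩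
  obtain ⟨M', hM', H⟩ := H0 (max (max M0 X2) (max S.sc 1))
  refine ⟨M', ((le_max_left _ _).trans (le_max_left _ _)).trans hM', ?_⟩
  intro X hX' hXA b n0 T hT A' hA'
  have hX := hM'.trans hX'
  have g2 : X2 ≤ X := ((le_max_right _ _).trans (le_max_left _ _)).trans hX
  have g3 : S.sc ≤ X := ((le_max_left _ _).trans (le_max_right _ _)).trans hX
  have g4 : 1 ≤ X := ((le_max_right _ _).trans (le_max_right _ _)).trans hX
  have hX0 : (0 : ℝ) < X := by exact_mod_cast g4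
  have hsc : 1 ≤ S.sc := by
    unfold Sys.sc
    omega
  have hsa : 1 ≤ S.sa := by
    unfold Sys.sa
    omega
  obtain ⟨T', hT'⟩ : ∃ T', T' = X / S.sc := ⟨_, rfl⟩
  have hT'1 : 1 ≤ T' := by
    rw [hT']
    exact (Nat.one_le_div_iff (by omega)).2 g3
  have hT'X : S.sc * T' ≤ X := by
    rw [hT']
    exact Nat.mul_div_le X S.sc
  have hXT' : X ≤ 2 * S.sc * T' := by
    have h1 : X < S.sc * (T' + 1) := by
      rw [hT']
      exact Nat.lt_mul_div_succ X (by omega)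
    nlinarith
  have hmap : ∀ t ∈ A', (fun j => t j / T') ∈ bx d M := by
    intro t ht
    have h1 := Fintype.mem_piFinset.1 (hA' t ht).1
    refine Fintype.mem_piFinset.2 fun j => ?_
    have h2 := Finset.mem_range.1 (h1 j)
    rw [Finset.mem_range]
    apply Nat.div_lt_of_lt_mul
    calc t j < T := h2
      _ ≤ C0 * X := hT
      _ ≤ C0 * (2 * S.sc * T') := Nat.mul_le_mul_left _ hXT'
      _ ≤ T' * M := by
        rw [hM]
        nlinarith [Nat.zero_le (S.sc * T')]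
  have hfib : ∀ q ∈ bx d M, (((A'.filter (fun t => (fun j => t j / T') = q)).card : ℕ) : ℝ) ≤
      (X : ℝ) ^ ((d : ℝ) - κ1) := by
    intro q _
    rcases (A'.filter (fun t => (fun j => t j / T') = q)).eq_empty_or_nonempty with h0 | ⟨t0, ht0⟩
    · rw [h0, Finset.card_empty, Nat.cast_zero]
      exact Real.rpow_nonneg hX0.le _
    · obtain ⟨u, hu⟩ : ∃ u : Fin d → ℕ, u = fun j => T' * q j := ⟨_, rfl⟩
      have hdec : ∀ t : Fin d → ℕ, (fun j => t j / T') = q → ∀ j, t j = u j + t j % T' := by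
        intro t ht j
        rw [hu]
        change t j = T' * q j + t j % T'
        rw [← ht]
        exact (Nat.div_add_mod (t j) T').symm
      rw [Finset.mem_filter] at ht0
      obtain ⟨hA0, hq0⟩ := ht0
      obtain ⟨-, hc0, -⟩ := hA' t0 hA0
      have hinj : Set.InjOn (fun (t : Fin d → ℕ) (j : Fin d) => t j % T')
          ((A'.filter (fun t => (fun j => t j / T') = q) : Finset (Fin d → ℕ)) : Set (Fin d → ℕ)) := by
        intro t ht t' ht' heq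
        have h1 := (Finset.mem_filter.1 (Finset.mem_coe.1 ht)).2
        have h2 := (Finset.mem_filter.1 (Finset.mem_coe.1 ht')).2
        funext j
        rw [hdec t h1 j, hdec t' h2 j]
        exact congrArg (fun x => u j + x) (congrFun heq j)
      have hbox := H X hX' hXA b n0 u (by
        intro i
        have h1 := H96U.f2_val S b n0 t0 u T' (fun j => by
          have h2 := hdec t0 hq0 j
          have h3 := Nat.mod_lt (t0 j) (show T' > 0 by omega)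
          omega) i
        obtain ⟨h4, h5⟩ := hc0 i
        have h6 : ((S.sc * T' : ℕ) : ℤ) ≤ X := by exact_mod_cast hT'X
        rw [abs_le] at h1
        have h7 : X ≤ S.sa * X := Nat.le_mul_of_pos_left _ hsa
        have h8 : 19 * S.sa * X + X ≤ 20 * S.sa * X := by nlinarith
        have h9 : ((19 * S.sa * X : ℕ) : ℤ) + X ≤ ((20 * S.sa * X : ℕ) : ℤ) := by exact_mod_cast h8
        have h10 : (((C0 + 1) * X : ℕ) : ℤ) = ((C0 * X : ℕ) : ℤ) + X := by push_cast; ring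
        constructor
        · linarith
        · rw [h10]
          linarith) ((A'.filter (fun t => (fun j => t j / T') = q)).image (fun (t : Fin d → ℕ) (j : Fin d) => t j % T')) (by
        intro r hr
        obtain ⟨t, ht, rfl⟩ := Finset.mem_image.1 hr
        rw [Finset.mem_filter] at ht
        obtain ⟨htA, hq⟩ := ht
        obtain ⟨-, -, hf⟩ := hA' t htA
        refine ⟨?_, ?_⟩
        · rw [← hT']
          exact Fintype.mem_piFinset.2 fun j => Finset.mem_range.2 (Nat.mod_lt _ (by omega))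
        · have h2 : (fun j => u j + t j % T') = t := funext fun j => (hdec t hq j).symm
          change Bad S b n0 X ε (fun j => u j + t j % T')
          rw [h2]
          exact hf)
      rw [Finset.card_image_of_injOn hinj] at hbox
      exact hbox
  have hcard := Finset.card_eq_sum_card_fiberwise (f := fun t : Fin d → ℕ => fun j => t j / T') (s := A')
    (t := bx d M) (fun t ht => hmap t (Finset.mem_coe.1 ht))
  rw [hcard]
  push_cast
  refine (Finset.sum_le_sum hfib).trans ?_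
  rw [Finset.sum_const, H96U.f2_card_bx, nsmul_eq_mul]
  push_cast
  calc (M : ℝ) ^ d * (X : ℝ) ^ ((d : ℝ) - κ1) ≤ (X : ℝ) ^ (κ1 / 2) * (X : ℝ) ^ ((d : ℝ) - κ1) :=
        mul_le_mul_of_nonneg_right (hX2 X g2) (Real.rpow_nonneg hX0.le _)
    _ = (X : ℝ) ^ ((d : ℝ) - κ1 / 2) := by
        rw [← Real.rpow_add hX0]
        congr 1
        ring

end Pool.Agent.H9A
end

-- from Lib.H9A.N9a
section

/-!
# ASY, chunk N9a (M): all cells of `n` together, for one `t`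
-/

open Finset

namespace Pool.Agent.H9A

open Pool.Agent.H9U
open Pool.Agent.H96U (gsys g1_val0 g1_valS)

/-- additivity of `NPr` -/
theorem n9a_add {k d : ℕ} (S : Sys k d) (b : Fin k → ℤ) (t : Fin d → ℤ) (n0 : ℤ) (L1 L2 : ℕ) :
    NPr S b t n0 (L1 + L2) = NPr S b t n0 L1 + NPr S b t (n0 + L1) L2 := by
  unfold NPr
  rw [Finset.card_filter, Finset.card_filter, Finset.card_filter, Finset.sum_range_add]
  congr 1
  refine Finset.sum_congr rfl fun n _ => ?_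
  have h : n0 + ((L1 + n : ℕ) : ℤ) = n0 + (L1 : ℤ) + (n : ℤ) := by push_cast; ring
  rw [h]

/-- monotonicity of `NPr` -/
theorem n9a_mono {k d : ℕ} (S : Sys k d) (b : Fin k → ℤ) (t : Fin d → ℤ) (n0 : ℤ) {L1 L2 : ℕ} (h : L1 ≤ L2) :
    NPr S b t n0 L1 ≤ NPr S b t n0 L2 := by
  obtain ⟨m, rfl⟩ := Nat.exists_eq_add_of_le h
  rw [n9a_add]
  exact Nat.le_add_right _ _

/-- the cells together -/
theorem n9a_cells {k d : ℕ} (S : Sys k d) (b : Fin k → ℤ) (t : Fin d → ℤ) (X R J : ℕ) (D δ : ℝ)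
    (h : ∀ j : ℕ, R ≤ j → j < J → |(NPr S b t ((j * X : ℕ) : ℤ) X : ℝ) - X * D| ≤ δ * (X * D)) :
    ∀ m : ℕ, R + m ≤ J → |(NPr S b t ((R * X : ℕ) : ℤ) (m * X) : ℝ) - m * (X * D)| ≤ δ * (m * (X * D)) := by
  intro m
  induction m with
  | zero =>
    intro _
    have h0 : NPr S b t ((R * X : ℕ) : ℤ) (0 * X) = 0 := by
      rw [Nat.zero_mul]
      unfold NPr
      simp
    rw [h0]
    simp
  | succ m ih =>
    intro hm
    have h1 := ih (by omega)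
    have h2 := h (R + m) (by omega) (by omega)
    have h3 : NPr S b t ((R * X : ℕ) : ℤ) ((m + 1) * X) =
        NPr S b t ((R * X : ℕ) : ℤ) (m * X) + NPr S b t (((R + m) * X : ℕ) : ℤ) X := by
      have h4 : (m + 1) * X = m * X + X := by ring
      rw [h4, n9a_add]
      congr 2
      push_cast
      ring
    rw [h3]
    push_cast at h1 h2 ⊢
    rw [abs_le] at h1 h2 ⊢
    constructor <;> linarith [h1.1, h1.2, h2.1, h2.2]

/-- The cells of length `X` together, for one `t`; `D` is the density, `Cs` the constant of the sieve bound.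

Proof. `S = gsys γ f c`, `R = 20 S.sa`, `W = ⌈4 γ (Cs (2R+1) + 2R + 4) (1 + 1/ε)⌉ + 1`, `X = N / W`; `N` large: `X ≥ |γ0| + 1` and `|γ0| ≤ N/γ`, `N ≥ |γ0| + (R+1)(γ+1) X` (true as `W ≥ (R+1)(γ+1) + 1`, enlarge `W`), `√X ≤ X`. `J = (N - γ0 - R X) / (γ X)` (natural number,
`J ≥ R`), so `J γ X ≤ N - γ0 - R X < (J + 1) γ X`. Split `{1, …, N + |γ0|}` (this is `NPr .. 1 (N + |γ0|)`) into `n < R X`, the cells `[jX, (j+1)X)`, `R ≤ j < J` (all contained in it, since `γ J X ≤ N - γ0`, so `J X ≤ N + |γ0|`), and `n ≥ J X`;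
in the last part `N - γ0 - γ n > 0` (the value of the first form is a prime), so `n < J X + (R + 1) X`. The cells give `(J - R) X D` up to `(ε/4)(J - R) X D` (for `j < J` the condition `R X ≤ N - γ0 - γ j X` holds), the first and the last part at most
`Cs (2R + 1) X D`, and `|(J - R) X - N/γ| ≤ (2R + 2) X + |γ0| ≤ (2R + 3) X`. With `X ≤ N/W` the total error is at most `ε (N/γ) D`. -/
theorem N9a_comb {g d : ℕ} (γ : ℕ) (hγ : 0 < γ) (γ0 : ℤ) (f : Fin g → ℤ) (hf : ∀ i, 0 < f i) (c : Fin g → Fin d → ℤ)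
    (ε Cs : ℝ) (hε : 0 < ε) (hCs : 0 < Cs) : ∃ W : ℕ, 1 ≤ W ∧ ∃ N0 : ℕ, ∀ N : ℕ, N0 ≤ N → ∀ (b : Fin g → ℤ) (t : Fin d → ℤ)
    (D : ℝ), 0 ≤ D →
    (∀ j : ℕ, 20 * (gsys γ f c).sa ≤ j → ((20 * (gsys γ f c).sa * (N / W) : ℕ) : ℤ) ≤ N - γ0 - γ * ((j * (N / W) : ℕ) : ℤ) →
      |(NPr (gsys γ f c) (Fin.cons ((N : ℤ) - γ0) b) t ((j * (N / W) : ℕ) : ℤ) (N / W) : ℝ) - (N / W : ℕ) * D| ≤
        ε / 4 * ((N / W : ℕ) * D)) →
    (∀ (n0 : ℤ) (L : ℕ), ((N / W : ℕ) : ℝ) ^ (1 / 2 : ℝ) ≤ L →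
      (NPr (gsys γ f c) (Fin.cons ((N : ℤ) - γ0) b) t n0 L : ℝ) ≤ Cs * (L * D)) →
    |(NPr (gsys γ f c) (Fin.cons ((N : ℤ) - γ0) b) t 1 (N + γ0.natAbs) : ℝ) - N / γ * D| ≤ ε * (N / γ * D) := by
  obtain ⟨S, hSd⟩ : ∃ S : Sys (g + 1) d, S = gsys γ f c := ⟨_, rfl⟩
  obtain ⟨R, hR⟩ : ∃ R : ℕ, R = 20 * (gsys γ f c).sa := ⟨_, rfl⟩
  have hR1 : 1 ≤ R := by
    rw [hR]
    unfold Sys.sa
    omega
  obtain ⟨W1, hW1⟩ : ∃ W1 : ℕ, (4 * γ * (Cs * (2 * R + 1) + 2 * R + 4) * (1 + 1 / ε) : ℝ) ≤ W1 := exists_nat_ge _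
  obtain ⟨W, hW⟩ : ∃ W : ℕ, W = W1 + (R + 1) * (γ + 1) + 1 := ⟨_, rfl⟩
  refine ⟨W, by omega, W * (γ0.natAbs + 1), fun N hN b t D hD hcell hsieve => ?_⟩
  obtain ⟨X, hX⟩ : ∃ X : ℕ, X = N / W := ⟨_, rfl⟩
  rw [← hX, ← hR] at hcell
  rw [← hX] at hsieve
  rw [← hSd] at hcell hsieve ⊢
  have hW0 : 0 < W := by omega
  have hXge : γ0.natAbs + 1 ≤ X := by
    rw [hX, Nat.le_div_iff_mul_le hW0, Nat.mul_comm]
    exact hN
  have hXN : W * X ≤ N := by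
    rw [hX]
    exact Nat.mul_div_le N W
  have hRW : (R + 1) * (γ + 1) * X ≤ N := by
    refine le_trans (Nat.mul_le_mul_right _ ?_) hXN
    omega
  -- `J`
  have hpos : 0 ≤ (N : ℤ) - γ0 - (R * X : ℕ) := by
    have h1 : R * X + X ≤ (R + 1) * (γ + 1) * X := by
      have h2 : R * X + X = (R + 1) * X := by ring
      rw [h2]
      exact Nat.mul_le_mul_right _ (Nat.le_mul_of_pos_right _ (by omega))
    omega
  obtain ⟨Z, hZ⟩ : ∃ Z : ℕ, (Z : ℤ) = (N : ℤ) - γ0 - (R * X : ℕ) := ⟨((N : ℤ) - γ0 - (R * X : ℕ)).toNat, by omega⟩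
  obtain ⟨J, hJ⟩ : ∃ J : ℕ, J = Z / (γ * X) := ⟨_, rfl⟩
  have hγX : 0 < γ * X := Nat.mul_pos hγ (by omega)
  have hJ1 : J * (γ * X) ≤ Z := by
    rw [hJ]
    exact Nat.div_mul_le_self _ _
  have hJ2 : Z < (J + 1) * (γ * X) := by
    rw [hJ]
    exact (Nat.div_lt_iff_lt_mul hγX).1 (Nat.lt_succ_self _)
  have hRJ : R ≤ J := by
    rw [hJ, Nat.le_div_iff_mul_le hγX]
    have h1 : R * (γ * X) + R * X + X ≤ (R + 1) * (γ + 1) * X := by nlinarith
    omega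
  obtain ⟨m, rfl⟩ := Nat.exists_eq_add_of_le hRJ
  -- the parts
  have hJX : (R + m) * X ≤ Z := by
    refine le_trans ?_ hJ1
    have : X ≤ γ * X := Nat.le_mul_of_pos_left _ hγ
    exact Nat.mul_le_mul_left _ this
  have hRX1 : 1 ≤ R * X := Nat.mul_pos hR1 (by omega)
  have hZN : Z ≤ N + γ0.natAbs := by omega
  obtain ⟨r, hr⟩ : ∃ r : ℕ, N + γ0.natAbs = (R * X - 1) + (m * X + r) := by
    refine ⟨N + γ0.natAbs - ((R * X - 1) + m * X), ?_⟩
    have : (R + m) * X = R * X + m * X := by ring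
    omega
  obtain ⟨b', hb'⟩ : ∃ b' : Fin (g + 1) → ℤ, b' = Fin.cons ((N : ℤ) - γ0) b := ⟨_, rfl⟩
  rw [← hb'] at hcell hsieve ⊢
  have hsplit : NPr S b' t 1 (N + γ0.natAbs) = NPr S b' t 1 (R * X - 1) + (NPr S b' t ((R * X : ℕ) : ℤ) (m * X) +
      NPr S b' t (((R + m) * X : ℕ) : ℤ) r) := by
    rw [hr, n9a_add, n9a_add]
    have e1 : (1 : ℤ) + ((R * X - 1 : ℕ) : ℤ) = ((R * X : ℕ) : ℤ) := by omega
    rw [e1]
    congr 3
    push_cast
    ring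
  have hX1 : (1 : ℝ) ≤ X := by
    have : 1 ≤ X := by omega
    exact_mod_cast this
  have hsq : (X : ℝ) ^ (1 / 2 : ℝ) ≤ X := by
    calc (X : ℝ) ^ (1 / 2 : ℝ) ≤ (X : ℝ) ^ (1 : ℝ) := Real.rpow_le_rpow_of_exponent_le hX1 (by norm_num)
      _ = X := Real.rpow_one _
  have hR1' : (1 : ℝ) ≤ R := by exact_mod_cast hR1
  have hXX : (0 : ℝ) ≤ X := by linarith
  -- first part
  have p1 : (NPr S b' t 1 (R * X - 1) : ℝ) ≤ Cs * (R * X * D) := by
    have h1 := hsieve 1 (R * X) (by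
      push_cast
      nlinarith)
    have h2 : (NPr S b' t 1 (R * X - 1) : ℝ) ≤ NPr S b' t 1 (R * X) := by
      exact_mod_cast n9a_mono S b' t 1 (Nat.sub_le _ _)
    push_cast at h1
    linarith
  -- last part
  have p3 : (NPr S b' t (((R + m) * X : ℕ) : ℤ) r : ℝ) ≤ Cs * ((R + 1) * X * D) := by
    have h1 := hsieve (((R + m) * X : ℕ) : ℤ) ((R + 1) * X) (by
      push_cast
      nlinarith)
    have h2 : NPr S b' t (((R + m) * X : ℕ) : ℤ) r ≤ NPr S b' t (((R + m) * X : ℕ) : ℤ) ((R + 1) * X) := by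
      unfold NPr
      refine card_le_card ?_
      intro n hn
      rw [mem_filter, mem_range] at hn ⊢
      refine ⟨?_, hn.2⟩
      have h3 := hn.2 0
      rw [hSd, hb', g1_val0] at h3
      have h4 : 0 < (N : ℤ) - γ0 - γ * ((((R + m) * X : ℕ) : ℤ) + n) := by
        have := h3.pos
        omega
      have h5 : (N : ℤ) - γ0 < ((γ * ((R + m) * X + (R + 1) * X) : ℕ) : ℤ) := by
        have h6 : (Z : ℤ) < (((R + m + 1) * (γ * X) : ℕ) : ℤ) := by exact_mod_cast hJ2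
        have h7 : (((R * X : ℕ)) : ℤ) ≤ ((R * (γ * X) : ℕ) : ℤ) := by
          have : X ≤ γ * X := Nat.le_mul_of_pos_left _ hγ
          exact_mod_cast Nat.mul_le_mul_left R this
        have h8 : ((γ * ((R + m) * X + (R + 1) * X) : ℕ) : ℤ) = (((R + m + 1) * (γ * X) : ℕ) : ℤ) + ((R * (γ * X) : ℕ) : ℤ) := by
          push_cast
          ring
        rw [h8]
        omega
      have h9 : (γ : ℤ) * ((((R + m) * X : ℕ) : ℤ) + n) < (γ : ℤ) * (((R + m) * X + (R + 1) * X : ℕ) : ℤ) := by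
        have h10 : ((γ * ((R + m) * X + (R + 1) * X) : ℕ) : ℤ) = (γ : ℤ) * (((R + m) * X + (R + 1) * X : ℕ) : ℤ) := by
          push_cast
          ring
        rw [← h10]
        linarith
      have h11 := lt_of_mul_lt_mul_left h9 (Int.natCast_nonneg γ)
      omega
    have h2' : (NPr S b' t (((R + m) * X : ℕ) : ℤ) r : ℝ) ≤ NPr S b' t (((R + m) * X : ℕ) : ℤ) ((R + 1) * X) := by
      exact_mod_cast h2
    push_cast at h1 h2' ⊢
    linarith
  -- the cells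
  have p2 := n9a_cells S b' t X R (R + m) D (ε / 4) (fun j hj hj2 => hcell j hj (by
    have h1 : ((j * (γ * X) : ℕ) : ℤ) ≤ (((R + m) * (γ * X) : ℕ) : ℤ) := by
      exact_mod_cast Nat.mul_le_mul_right (γ * X) hj2.le
    have h2 : (((R + m) * (γ * X) : ℕ) : ℤ) ≤ Z := by exact_mod_cast hJ1
    have h3 : (γ : ℤ) * ((j * X : ℕ) : ℤ) = ((j * (γ * X) : ℕ) : ℤ) := by push_cast; ring
    rw [h3]
    omega)) m le_rfl
  -- the length
  have hγ' : (1 : ℝ) ≤ γ := by exact_mod_cast hγ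
  have hγ0 : (0 : ℝ) < γ := by linarith
  have hZr : (Z : ℝ) = (N : ℝ) - γ0 - R * X := by
    have : ((Z : ℤ) : ℝ) = (((N : ℤ) - γ0 - (R * X : ℕ) : ℤ) : ℝ) := by rw [hZ]
    push_cast at this
    exact this
  have hg0 : |(γ0 : ℝ)| ≤ X := by
    have h1 : (γ0.natAbs : ℝ) ≤ X := by
      have : γ0.natAbs ≤ X := by omega
      exact_mod_cast this
    have h2 : (γ0.natAbs : ℝ) = |(γ0 : ℝ)| := by
      rw [Nat.cast_natAbs, Int.cast_abs]
    rw [← h2]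
    exact h1
  have hg0' := abs_le.1 hg0
  have q1 : (m : ℝ) * X ≤ N / γ + X := by
    have h1 : (((R + m) * (γ * X) : ℕ) : ℝ) ≤ Z := by exact_mod_cast hJ1
    push_cast at h1
    have h2 : γ * ((m : ℝ) * X) ≤ γ * (N / γ + X) := by
      have h3 : γ * ((N : ℝ) / γ + X) = N + γ * X := by
        field_simp
      rw [h3]
      nlinarith [mul_nonneg (mul_nonneg (by linarith : (0:ℝ) ≤ R) hγ0.le) hXX, mul_nonneg (by linarith : (0:ℝ) ≤ R) hXX]
    exact le_of_mul_le_mul_left h2 hγ0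
  have q2 : (N : ℝ) / γ - (2 * R + 2) * X ≤ (m : ℝ) * X := by
    have h1 : (Z : ℝ) ≤ (((R + m + 1) * (γ * X) : ℕ) : ℝ) := by exact_mod_cast hJ2.le
    push_cast at h1
    have h2 : γ * ((N : ℝ) / γ - (2 * R + 2) * X) ≤ γ * ((m : ℝ) * X) := by
      have h3 : γ * ((N : ℝ) / γ - (2 * R + 2) * X) = N - γ * ((2 * R + 2) * X) := by
        field_simp
      rw [h3]
      have h4 : (R : ℝ) * X ≤ R * (γ * X) := by
        refine mul_le_mul_of_nonneg_left ?_ (by linarith)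
        nlinarith
      nlinarith
    exact le_of_mul_le_mul_left h2 hγ0
  -- the total
  have hND : 0 ≤ (X : ℝ) * D := mul_nonneg hXX hD
  have hWr : (W : ℝ) * X ≤ N := by exact_mod_cast hXN
  have hfin : (Cs * (2 * R + 1) + (2 * R + 2) + ε / 4) * X ≤ 3 * ε / 4 * (N / γ) := by
    have h1 : (Cs * (2 * R + 1) + (2 * R + 2) + ε / 4) * γ ≤ 3 * ε / 4 * W := by
      have h2 : ε * (4 * γ * (Cs * (2 * R + 1) + 2 * R + 4) * (1 + 1 / ε)) ≤ ε * W := by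
        refine mul_le_mul_of_nonneg_left ?_ hε.le
        have : (W1 : ℝ) ≤ W := by
          have : W1 ≤ W := by omega
          exact_mod_cast this
        linarith
      have h3 : ε * (4 * γ * (Cs * (2 * R + 1) + 2 * R + 4) * (1 + 1 / ε)) =
          4 * γ * (Cs * (2 * R + 1) + 2 * R + 4) * (ε + 1) := by
        field_simp
      rw [h3] at h2
      have h4 : 0 ≤ Cs * (2 * R + 1) := by positivity
      have h5 : 0 ≤ γ * (Cs * (2 * R + 1)) := by positivity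
      nlinarith [mul_nonneg h5 hε.le, mul_nonneg (mul_nonneg hγ0.le (by linarith : (0:ℝ) ≤ R)) hε.le, mul_pos hγ0 hε]
    have h6 : (Cs * (2 * R + 1) + (2 * R + 2) + ε / 4) * X * γ ≤ 3 * ε / 4 * N := by
      calc (Cs * (2 * R + 1) + (2 * R + 2) + ε / 4) * X * γ = (Cs * (2 * R + 1) + (2 * R + 2) + ε / 4) * γ * X := by ring
        _ ≤ 3 * ε / 4 * W * X := mul_le_mul_of_nonneg_right h1 hXX
        _ = 3 * ε / 4 * (W * X) := by ring
        _ ≤ 3 * ε / 4 * N := mul_le_mul_of_nonneg_left hWr (by positivity)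
    have h7 : 3 * ε / 4 * ((N : ℝ) / γ) = 3 * ε / 4 * N / γ := by ring
    rw [h7, le_div_iff₀ hγ0]
    exact h6
  have hfinD : (Cs * (2 * R + 1) + (2 * R + 2) + ε / 4) * X * D ≤ 3 * ε / 4 * (N / γ) * D :=
    mul_le_mul_of_nonneg_right hfin hD
  have q1D : (m : ℝ) * X * D ≤ (N / γ + X) * D := mul_le_mul_of_nonneg_right q1 hD
  have q2D : ((N : ℝ) / γ - (2 * R + 2) * X) * D ≤ (m : ℝ) * X * D := mul_le_mul_of_nonneg_right q2 hD
  have hsplit' : (NPr S b' t 1 (N + γ0.natAbs) : ℝ) = NPr S b' t 1 (R * X - 1) + (NPr S b' t ((R * X : ℕ) : ℤ) (m * X) +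
      NPr S b' t (((R + m) * X : ℕ) : ℤ) r) := by exact_mod_cast hsplit
  have n1 : (0 : ℝ) ≤ NPr S b' t 1 (R * X - 1) := Nat.cast_nonneg _
  have n3 : (0 : ℝ) ≤ NPr S b' t (((R + m) * X : ℕ) : ℤ) r := Nat.cast_nonneg _
  rw [hsplit']
  rw [abs_le] at p2 ⊢
  have hεq : ε / 4 * ((m : ℝ) * (X * D)) ≤ ε / 4 * ((N / γ + X) * D) := by
    refine mul_le_mul_of_nonneg_left ?_ (by positivity)
    linarith
  have hc0 : 0 ≤ Cs * (2 * R + 1) * (X * D) := by positivity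
  have hc1 : 0 ≤ (2 * R + 1 : ℝ) * (X * D) := by positivity
  constructor
  · linarith [p2.1, p2.2]
  · linarith [p2.1, p2.2]

end Pool.Agent.H9A
end
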