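import Pool.Agent.Lib.H59M.M1.M077
import Pool.Agent.Lib.H59M.M1.M084
import Pool.Agent.Lib.H59M.M1.M085
import Pool.Agent.Lib.H59M.M1.M088
import Pool.Agent.Lib.H59M.M1.M092
import Pool.Agent.Lib.H59M.M1.M093
import Pool.Agent.Lib.H59M.M1.M094
import Pool.Agent.Lib.H59M.M1.M101

/-! Merged copies (to shorten the build) of Lib.H9U.A3, Lib.H9U.CORE, Lib.HUK.D34, Lib.HUK.DFIN, Lib.HUK.FIN. -/

-- from Lib.H9U.A3
section

/-!
# H9U, chunk A3 (M): one level for all lengths between `X` and `C0 X`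
-/

open Finset

namespace Pool.Agent.H9U

open Pool.Agent.Lib.H68T Pool.Agent.Lib.H18Q Pool.Agent.Lib.H59P

/-- **A3.** `K'` the constant of the regime, `E` the size of the error of the model.

Proof. `mdb_level` with constants `K, C`. Choose `kp ≥ max(K, K', 2) + 1` with `2 C exp(-(kp/C)) ≤ E/2`, `Q1 = ⌊X^(1/kp)⌋` (`X` large), which gives `Q ≤ Q1`, `log Q1 ≤ 200 log Q`;
`Cr = 1000 kp`: `log (C0 X) ≤ 2 log X ≤ 4 kp log Q1 ≤ 800 kp log Q`. Also `2 Q^(-1/4) ≤ E/2` for `X` large (`log Q ≥ log X/Cr`), and `kp log Q ≤ kp log Q1 ≤ log X ≤ log Y`,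
`RegP K'' Q Y` for `K'' ≤ kp` and `X` large (`K'' log log Y ≤ log Q`). First case (no exceptional zero): `px = p0`, `th = 0`, `η = 1`. Second case: `px = ⟨r, ψ⟩`,
`th m = m^(β-1)`, `η = 1 - X^(β-1)`: for `Y ∈ [X, C0 X]` the model of length `Y` gives `th m ≤ Y^(β-1) ≤ 1 - η` for `m ≥ Y` and coefficients of the error at most
`(1 - Y^(β-1)) E/2 ≤ η E`: with `u = (1-β) log X`, `(1-β) log Y ≤ 2u`, `1 - e^(-2u) ≤ 2 (1 - e^(-u))`. `η ≥ (1-β) log Q/2 ≥ (1-β)/2` and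
`1 - β ≥ m0/(4 r²)` (`yd_zero`, `H59P/YD.lean`, with `ρ = r`); `c0 = min(1, m0/8)`. `px.1^100 ≤ Q` from `ExcZ.cond`. (If `px = p0` were possible in the second case: no, `ψ ≠ 1` is
primitive, so `r ≠ 1`; compare `A4.lean`; this is in `MdB.triv` of the model anyway.) -/
theorem A3S (C0 : ℕ) (hC0 : 1 ≤ C0) (E K' : ℝ) (hE : 0 < E) : ∃ Cr c0 : ℝ, 1 ≤ Cr ∧ 0 < c0 ∧ ∃ X0 : ℕ,
    ∀ X : ℕ, X0 ≤ X → ∃ Q : ℕ, (∀ Y : ℕ, X ≤ Y → Y ≤ C0 * X → RegP K' Q Y ∧ Real.log Y ≤ Cr * Real.log Q) ∧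
    ∃ (px : Ch) (th : ℤ → ℝ) (η : ℝ), px.1 ^ 100 ≤ Q ∧ c0 / (px.1 : ℝ) ^ 2 ≤ η ∧
      ∀ Y : ℕ, X ≤ Y → Y ≤ C0 * X → MdB Q Y η E px th := by
  obtain ⟨c1, K, C, hc1, hc11, hK, hC, hlev⟩ := mdb_level
  obtain ⟨m0, hm0, hm1, hzero⟩ := yd_zero
  obtain ⟨E1, hE1⟩ : ∃ E1 : ℝ, E1 = E / 4 := ⟨_, rfl⟩
  have hE1p : 0 < E1 := by rw [hE1]; positivity
  obtain ⟨Kr, hKr⟩ : ∃ Kr : ℝ, Kr = |K'| + K + 1 := ⟨_, rfl⟩
  have haK := abs_nonneg K'
  have hleK := le_abs_self K'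
  have hKr1 : 1 ≤ Kr := by rw [hKr]; linarith
  have hKrK : K ≤ Kr := by rw [hKr]; linarith
  have hKrK' : K' ≤ Kr := by rw [hKr]; linarith
  obtain ⟨kp, hkpr, hkpe⟩ : ∃ kp : ℝ, Kr ≤ kp ∧ C * Real.exp (-(kp / C)) ≤ E1 := by
    refine ⟨max Kr (C * (C / E1)), le_max_left _ _, ?_⟩
    set kp := max Kr (C * (C / E1))
    have hCp : 0 < C := by linarith
    have h1 : C / E1 ≤ kp / C := by
      rw [le_div_iff₀ hCp]
      calc C / E1 * C = C * (C / E1) := by ring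
        _ ≤ kp := le_max_right _ _
    have h2 : C / E1 ≤ Real.exp (kp / C) := by
      have := Real.add_one_le_exp (kp / C)
      linarith
    rw [Real.exp_neg, ← div_eq_mul_inv, div_le_iff₀ (Real.exp_pos _)]
    rw [div_le_iff₀ hE1p] at h2
    linarith
  have hkp1 : 1 ≤ kp := hKr1.trans hkpr
  obtain ⟨D, hD⟩ : ∃ D : ℝ, D = 400 * kp := ⟨_, rfl⟩
  have hD1 : 400 ≤ D := by rw [hD]; linarith
  have hlogC0 : 0 ≤ Real.log (C0 : ℝ) := Real.log_nonneg (by exact_mod_cast hC0)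
  have hlogE : 0 ≤ Real.log (1 / E1 + 1) := Real.log_nonneg (by
    have : 0 < 1 / E1 := by positivity
    linarith)
  -- large `L`
  obtain ⟨L0, hL0⟩ := Filter.eventually_atTop.mp ((ev_log (2 * D * Kr) 1 one_pos).and
    (Filter.eventually_ge_atTop (Real.exp Kr + Real.log C0 + 2 * D * Kr + kp * (K + 2) +
      D * (4 * Real.log (1 / E1 + 1)) + D)))
  refine ⟨2 * D, min 1 (m0 / 8), by linarith, lt_min one_pos (by positivity), ⌈Real.exp (max L0 1)⌉₊,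
    fun X hX => ?_⟩
  obtain ⟨L, hL⟩ : ∃ L, L = Real.log X := ⟨_, rfl⟩
  have hXe : Real.exp (max L0 1) ≤ (X : ℝ) := (Nat.le_ceil _).trans (by exact_mod_cast hX)
  have hX0 : (0 : ℝ) < X := lt_of_lt_of_le (Real.exp_pos _) hXe
  have hLge : max L0 1 ≤ L := by
    rw [hL, Real.le_log_iff_exp_le hX0]; exact hXe
  have hL1 : 1 ≤ L := (le_max_right _ _).trans hLge
  obtain ⟨e1, e2⟩ := hL0 L ((le_max_left _ _).trans hLge)
  rw [Real.rpow_one] at e1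
  have p1 : 0 < Real.exp Kr := Real.exp_pos _
  have p2 : 0 ≤ 2 * D * Kr := by positivity
  have p3 : 0 ≤ kp * (K + 2) := by positivity
  have p4 : 0 ≤ D * (4 * Real.log (1 / E1 + 1)) := by positivity
  have hLa : Real.exp Kr ≤ L := by linarith
  have hLb : Real.log C0 ≤ L := by linarith
  have hLc : 2 * D * Kr ≤ L := by linarith
  have hLd : kp * (K + 2) ≤ L := by linarith
  have hLe : D * (4 * Real.log (1 / E1 + 1)) ≤ L := by linarith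
  have hLf : D ≤ L := by linarith
  -- the scales
  have hY : ∀ Y : ℕ, X ≤ Y → Y ≤ C0 * X → L ≤ Real.log Y ∧ Real.log Y ≤ 2 * L ∧ (0 : ℝ) < Y := by
    intro Y h1 h2
    have h1' : (X : ℝ) ≤ Y := by exact_mod_cast h1
    have h2' : (Y : ℝ) ≤ C0 * X := by exact_mod_cast h2
    have hY0 : (0 : ℝ) < Y := lt_of_lt_of_le hX0 h1'
    have hC0' : (0 : ℝ) < C0 := by exact_mod_cast hC0
    have h3 := Real.log_le_log hX0 h1'
    have h4 := Real.log_le_log hY0 h2'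
    rw [Real.log_mul hC0'.ne' hX0.ne'] at h4
    rw [← hL] at h3 h4
    exact ⟨h3, by linarith, hY0⟩
  -- the level
  obtain ⟨q, hq⟩ : ∃ q, q = L / kp := ⟨_, rfl⟩
  have hqL : kp * q = L := by rw [hq]; field_simp
  have hq0 : 0 < q := by rw [hq]; positivity
  have hqbig : K + 2 ≤ q := by
    rw [hq, le_div_iff₀ (by linarith)]
    linarith
  obtain ⟨Q1, hQ1⟩ : ∃ Q1, Q1 = ⌊Real.exp q⌋₊ := ⟨_, rfl⟩
  have hexpq : Real.exp 1 ≤ Real.exp q := Real.exp_le_exp.2 (by linarith)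
  have he2 : (2 : ℝ) ≤ Real.exp 1 := by linarith [Real.exp_one_gt_d9]
  have hQ1le : (Q1 : ℝ) ≤ Real.exp q := by rw [hQ1]; exact Nat.floor_le (Real.exp_pos q).le
  have hQ1ge : Real.exp q / 2 ≤ (Q1 : ℝ) := by
    have h1 := Nat.lt_floor_add_one (Real.exp q)
    rw [← hQ1] at h1
    linarith
  have hQ1pos : (0 : ℝ) < Q1 := by
    have := Real.exp_pos q
    linarith
  have hlQ1le : Real.log Q1 ≤ q := by
    rw [Real.log_le_iff_le_exp hQ1pos]; exact hQ1le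
  have hlQ1ge : q - 1 ≤ Real.log Q1 := by
    rw [Real.le_log_iff_exp_le hQ1pos]
    refine le_trans ?_ hQ1ge
    rw [Real.exp_sub, div_le_div_iff₀ (Real.exp_pos 1) (by norm_num)]
    have := mul_le_mul_of_nonneg_left he2 (Real.exp_pos q).le
    linarith
  obtain ⟨Q, hQQ1, hlQ, hcase⟩ := hlev Q1 (by linarith)
  have hQ1pos' : 0 < Q1 := by exact_mod_cast hQ1pos
  have hlQ0 : 0 < Real.log Q := by linarith
  have hQ0 : (0 : ℝ) < Q := by
    rcases Nat.eq_zero_or_pos Q with h | h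
    · rw [h, Nat.cast_zero, Real.log_zero] at hlQ0; exact absurd hlQ0 (lt_irrefl _)
    · exact_mod_cast h
  have hlQle : Real.log Q ≤ q := (Real.log_le_log hQ0 (by exact_mod_cast hQQ1)).trans hlQ1le
  have hLQ : L ≤ D * Real.log Q := by
    have h1 : q ≤ 400 * Real.log Q := by linarith
    calc L = kp * q := hqL.symm
      _ ≤ kp * (400 * Real.log Q) := mul_le_mul_of_nonneg_left h1 (by linarith)
      _ = D * Real.log Q := by rw [hD]; ring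
  have hlQ1' : 1 ≤ Real.log Q := by
    have h1 : D * 1 ≤ D * Real.log Q := by linarith
    exact le_of_mul_le_mul_left h1 (by linarith)
  have hreg : ∀ Y : ℕ, X ≤ Y → Y ≤ C0 * X → RegP Kr Q Y ∧ kp * Real.log Q ≤ Real.log Y := by
    intro Y h1 h2
    obtain ⟨y1, y2, y3⟩ := hY Y h1 h2
    have hkQ : kp * Real.log Q ≤ Real.log Y := by
      have := mul_le_mul_of_nonneg_left hlQle (by linarith : 0 ≤ kp)
      linarith
    refine ⟨⟨?_, ?_, ?_⟩, hkQ⟩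
    · rw [Real.le_log_iff_exp_le (by linarith)]
      linarith
    · have g0 : (0:ℝ) < Real.log Y := by linarith
      have g1 : Real.log (Real.log Y) ≤ 1 + Real.log L := by
        have g2 : Real.log (Real.log Y) ≤ Real.log (2 * L) := Real.log_le_log g0 y2
        rw [Real.log_mul (by norm_num) (by linarith)] at g2
        have g3 : Real.log 2 ≤ 1 := by linarith [Real.log_two_lt_d9]
        linarith
      have g2 : Kr * Real.log (Real.log Y) ≤ Kr * (1 + Real.log L) :=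
        mul_le_mul_of_nonneg_left g1 (by linarith)
      have g3 : D * (Kr * (1 + Real.log L)) ≤ L := by
        have : D * (Kr * (1 + Real.log L)) = (2 * D * Kr) / 2 + (2 * D * Kr * Real.log L) / 2 := by ring
        rw [this]
        linarith
      have g9 : Kr * (1 + Real.log L) ≤ Real.log Q :=
        le_of_mul_le_mul_left (g3.trans hLQ) (by linarith)
      linarith
    · exact (mul_le_mul_of_nonneg_right hkpr hlQ0.le).trans hkQ
  have herr : C * Real.exp (-(kp / C)) + (Q : ℝ) ^ (-(1 / 4) : ℝ) ≤ E / 2 := by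
    have g1 : 4 * Real.log (1 / E1 + 1) ≤ Real.log Q :=
      le_of_mul_le_mul_left (hLe.trans hLQ) (by linarith)
    have g2 : (Q : ℝ) ^ (-(1 / 4) : ℝ) ≤ E1 := by
      rw [Real.rpow_def_of_pos hQ0]
      have g3 : Real.exp (Real.log Q * -(1 / 4)) ≤ Real.exp (-Real.log (1 / E1 + 1)) :=
        Real.exp_le_exp.2 (by linarith)
      refine g3.trans ?_
      have g4 : 0 < 1 / E1 + 1 := by positivity
      rw [Real.exp_neg, Real.exp_log g4, inv_eq_one_div, div_le_iff₀ g4]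
      have g5 : E1 * (1 / E1 + 1) = 1 + E1 := by field_simp
      linarith
    rw [hE1] at hkpe g2
    linarith
  obtain ⟨e, he⟩ : ∃ e, e = C * Real.exp (-(kp / C)) + (Q : ℝ) ^ (-(1 / 4) : ℝ) := ⟨_, rfl⟩
  rw [← he] at herr
  have he0 : 0 ≤ e := by rw [he]; positivity
  refine ⟨Q, fun Y h1 h2 => ⟨(hreg Y h1 h2).1.mono (by linarith) hKrK', ?_⟩, ?_⟩
  · obtain ⟨y1, y2, y3⟩ := hY Y h1 h2
    linarith
  rcases hcase with hgood | ⟨r, hr, ψ, β, hexz, hexc⟩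
  · refine ⟨p0, fun _ => 0, 1, ?_, ?_, fun Y h1 h2 => ?_⟩
    · have : (1:ℕ) ≤ Q := by exact_mod_cast (by exact_mod_cast hQ0 : 0 < Q)
      show 1 ^ 100 ≤ Q
      rw [one_pow]; exact this
    · show min 1 (m0 / 8) / ((1 : ℕ) : ℝ) ^ 2 ≤ 1
      rw [Nat.cast_one, one_pow, div_one]
      exact min_le_left _ _
    · obtain ⟨g1, g2⟩ := hreg Y h1 h2
      have h := hgood kp (hKrK.trans hkpr) Y (g1.mono (by linarith) hKrK) g2
      rw [← he] at h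
      refine ⟨h.eta_pos, h.eta_le, h.mem, h.real, h.triv, h.nonneg, h.le, ?_⟩
      obtain ⟨eb, b1, b2, b3⟩ := h.cf
      exact ⟨eb, b1, b2.trans (by linarith), b3⟩
  · have hXX := hexc kp (hKrK.trans hkpr) X ((hreg X le_rfl (Nat.le_mul_of_pos_left _ hC0)).1.mono
      (by linarith) hKrK) (hreg X le_rfl (Nat.le_mul_of_pos_left _ hC0)).2
    obtain ⟨hη1, -⟩ := hXX
    obtain ⟨x, hx⟩ : ∃ x : ℝ, x = (X : ℝ) ^ (β - 1) := ⟨_, rfl⟩
    rw [← hx] at hη1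
    have hβ := hexz.lt
    have hx0 : 0 ≤ x := by rw [hx]; positivity
    have hr1 : (1 : ℝ) ≤ r := by
      have : 0 < r := Nat.pos_of_ne_zero hr.ne
      exact_mod_cast this
    have hη0 : (1 - β) / 2 ≤ 1 - x := by
      have h1 : (1 - β) * 1 ≤ (1 - β) * Real.log Q := mul_le_mul_of_nonneg_left hlQ1' (by linarith)
      linarith
    have hx1 : x ≤ 1 := by linarith
    refine ⟨⟨r, ψ⟩, fun m => (m : ℝ) ^ (β - 1), 1 - x, hexz.cond, ?_, fun Y h1 h2 => ?_⟩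
    · have h1 := hzero r hr1 r ψ le_rfl hexz.prim hexz.ne hexz.sq β hβ hexz.zero
      show min 1 (m0 / 8) / ((r : ℕ) : ℝ) ^ 2 ≤ 1 - x
      have hr2 : (0:ℝ) < (r:ℝ) ^ 2 := by positivity
      have h2 : min 1 (m0 / 8) / (r : ℝ) ^ 2 ≤ (m0 / 8) / (r : ℝ) ^ 2 :=
        div_le_div_of_nonneg_right (min_le_right _ _) hr2.le
      have h3 : (m0 / 8) / (r : ℝ) ^ 2 = m0 / (4 * (r : ℝ) ^ 2) / 2 := by field_simp; ring
      linarith
    · obtain ⟨g1, g2⟩ := hreg Y h1 h2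
      obtain ⟨y1, y2, y3⟩ := hY Y h1 h2
      obtain ⟨-, h⟩ := hexc kp (hKrK.trans hkpr) Y (g1.mono (by linarith) hKrK) g2
      rw [← he] at h
      obtain ⟨y, hy⟩ : ∃ y : ℝ, y = (Y : ℝ) ^ (β - 1) := ⟨_, rfl⟩
      rw [← hy] at h
      have hyx : y ≤ x := by
        rw [hy, hx]
        exact Real.rpow_le_rpow_of_nonpos hX0 (by exact_mod_cast h1) (by linarith)
      have hxy : x ^ 2 ≤ y := by
        rw [hy, hx, ← Real.rpow_natCast, ← Real.rpow_mul hX0.le, Real.rpow_def_of_pos hX0,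
          Real.rpow_def_of_pos y3, ← hL]
        apply Real.exp_le_exp.2
        have : Real.log Y * (1 - β) ≤ 2 * L * (1 - β) := mul_le_mul_of_nonneg_right y2 (by linarith)
        push_cast
        linarith
      refine ⟨by linarith, by linarith, h.mem, h.real, h.triv, h.nonneg, ?_, ?_⟩
      · intro m hm1 hm2
        have := h.le m hm1 hm2
        linarith
      · obtain ⟨eb, b1, b2, b3⟩ := h.cf
        refine ⟨eb, b1, b2.trans ?_, b3⟩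
        have h3 : 1 - y ≤ 2 * (1 - x) := by
          have g3 := mul_self_nonneg (1 - x)
          have g4 : (1 - x) * (1 - x) = 1 - 2 * x + x ^ 2 := by ring
          linarith
        have h4 : (1 - y) * e ≤ 2 * (1 - x) * e := mul_le_mul_of_nonneg_right h3 he0
        have h5 : (1 - x) * e ≤ (1 - x) * (E / 2) := mul_le_mul_of_nonneg_left herr (by linarith)
        linarith

end Pool.Agent.H9U
end

-- from Lib.H9U.CORE
section

/-!
# H9U, chunk CORE (M/L): few `t` with few prime values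
-/

open Finset

namespace Pool.Agent.H9U

open Pool.Agent.Lib.H68T (lp Lk PC p0)
open Pool.Agent.Lib.H18Q (gk KS SG Bc RegP)
open Pool.Agent.Lib.H59P (Ch SF bx TS Rp MX pr)

lemma core_large (c M : ℝ) (hc : 0 < c) : ∃ X0 : ℕ, ∀ X : ℕ, X0 ≤ X → M ≤ (X : ℝ) ^ c := by
  have h1 : Filter.Tendsto (fun X : ℕ => (X : ℝ) ^ c) Filter.atTop Filter.atTop :=
    (tendsto_rpow_atTop hc).comp tendsto_natCast_atTop_atTop
  exact Filter.eventually_atTop.1 (h1.eventually_ge_atTop M)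

lemma core_lp_nonneg (m : ℤ) : 0 ≤ lp m := by
  unfold Pool.Agent.Lib.H68T.lp
  split_ifs with h
  · have h1 := h.one_lt
    have h2 : (1 : ℤ) ≤ m := by omega
    exact Real.log_nonneg (by exact_mod_cast h2)
  · exact le_rfl

lemma core_lp_le (m : ℤ) (hm : 1 ≤ m) : lp m ≤ Real.log m := by
  unfold Pool.Agent.Lib.H68T.lp
  split_ifs with h
  · exact le_rfl
  · exact Real.log_nonneg (by exact_mod_cast hm)

lemma core_PC {Q Q' : ℕ} (hQ : Q' ≤ Q) : PC Q' ⊆ PC Q := by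
  intro p hp
  rw [Pool.Agent.Lib.H68T.mem_PC] at hp ⊢
  exact ⟨hp.1, hp.2.1.trans hQ, hp.2.2⟩

lemma core_dat2 {k : ℕ} (Q Q' D : ℕ) (hQ : Q' ≤ Q) (hD : 1 ≤ D) (hDQ : D ≤ Q') (Xs : Fin k → ℕ) (η E : ℝ) (px : Ch) (th : ℤ → ℝ)
    (hE : 0 ≤ E) (hkE : 4 * k * E ≤ 1) (hM : ∀ i, MdB Q (Xs i) η E px th) (hr : Nat.sqrt D < px.1) :
    Dat k Q Q' D (Nat.sqrt D) (Nat.sqrt D) 1 E p0 (fun _ => 0) Xs where
  D2_pos := Nat.sqrt_pos.2 hD
  hD2 := by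
    change 1 * Nat.sqrt D ≤ Nat.sqrt D
    rw [one_mul]
  hD1 := Nat.sqrt_le D
  hD := hDQ
  mem := Pool.Agent.Lib.H68T.p0_mem (hD.trans hDQ)
  real := by
    change (1 : DirichletCharacter ℂ 1) ^ 2 = 1
    exact one_pow 2
  eta_pos := one_pos
  eta_le := le_rfl
  E0_nonneg := hE
  E0_le := hkE
  triv := fun _ _ => rfl
  nonneg := fun _ _ _ _ => le_rfl
  le := fun _ _ _ _ => by
    rw [sub_self]
  cf := by
    intro i
    obtain ⟨eb, h0, hs, hb⟩ := (hM i).cf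
    refine ⟨eb, fun p hp => h0 p (core_PC hQ hp), ?_, ?_⟩
    · refine (Finset.sum_le_sum_of_subset_of_nonneg (core_PC hQ) fun p hp _ => h0 p hp).trans (hs.trans ?_)
      exact mul_le_mul_of_nonneg_right (hM i).eta_le hE
    · intro m h1 h2 p hp hpD
      have h3 : p ≠ px := by
        rintro rfl
        omega
      have h4 : MX p0 (fun _ => 0) m p = MX px th m p := by
        unfold MX
        by_cases h5 : p = p0
        · rw [if_pos h5, if_pos h5]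
        · rw [if_neg h5, if_neg h5, if_neg h5, if_neg h3]
      rw [h4]
      exact hb m h1 h2 p (core_PC hQ hp)

/-- From the model to the data of the small level, large conductor. Proof. `px := p0`, `th := 0`, `η := 1`, `D1 = D2 = √D`: for `p.1 ≤ D1 < px.1` we have `p ≠ px`, so
`MX p0 _ m p = MX px th m p`; `∑ eb ≤ η E ≤ E` over the subset `PC Q' ⊆ PC Q`. -/
theorem CORE_dat2 {k : ℕ} (Q Q' D : ℕ) (hQ : Q' ≤ Q) (hD : 1 ≤ D) (hDQ : D ≤ Q') (Xs : Fin k → ℕ) (η E : ℝ) (px : Ch) (th : ℤ → ℝ)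
    (hE : 0 ≤ E) (hkE : 4 * k * E ≤ 1) (hM : ∀ i, MdB Q (Xs i) η E px th) (hr : Nat.sqrt D < px.1) :
    Dat k Q Q' D (Nat.sqrt D) (Nat.sqrt D) 1 E p0 (fun _ => 0) Xs := by
  exact core_dat2 Q Q' D hQ hD hDQ Xs η E px th hE hkE hM hr

lemma core_dat1 {k : ℕ} (hk : 1 ≤ k) (Q Q' D2 : ℕ) (hQ : Q' ≤ Q) (hD2 : 1 ≤ D2) (Xs : Fin k → ℕ) (η E : ℝ) (px : Ch) (th : ℤ → ℝ)
    (hE : 0 ≤ E) (hkE : 4 * k * E ≤ 1) (hM : ∀ i, MdB Q (Xs i) η E px th) (hr : px.1 * D2 ≤ Nat.sqrt Q') :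
    Dat k Q Q' Q' (Nat.sqrt Q') D2 η E px th Xs where
  D2_pos := hD2
  hD2 := hr
  hD1 := Nat.sqrt_le Q'
  hD := le_rfl
  mem := by
    have h1 := (hM ⟨0, hk⟩).mem
    rw [Pool.Agent.Lib.H68T.mem_PC] at h1 ⊢
    refine ⟨h1.1, ?_, h1.2.2⟩
    calc px.1 ≤ px.1 * D2 := Nat.le_mul_of_pos_right _ hD2
      _ ≤ Nat.sqrt Q' := hr
      _ ≤ Q' := Nat.sqrt_le_self Q'
  real := (hM ⟨0, hk⟩).real
  eta_pos := (hM ⟨0, hk⟩).eta_pos
  eta_le := (hM ⟨0, hk⟩).eta_le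
  E0_nonneg := hE
  E0_le := hkE
  triv := (hM ⟨0, hk⟩).triv
  nonneg := fun i => (hM i).nonneg
  le := fun i => (hM i).le
  cf := by
    intro i
    obtain ⟨eb, h0, hs, hb⟩ := (hM i).cf
    refine ⟨eb, fun p hp => h0 p (core_PC hQ hp), ?_, ?_⟩
    · exact (Finset.sum_le_sum_of_subset_of_nonneg (core_PC hQ) fun p hp _ => h0 p hp).trans hs
    · intro m h1 h2 p hp _
      exact hb m h1 h2 p (core_PC hQ hp)

/-- From the model to the data of the small level, small conductor. Proof. Direct; `px ∈ PC Q'` from `px ∈ PC Q` (`mem_PC`) and `px.1 ≤ Q'`. -/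
theorem CORE_dat1 {k : ℕ} (hk : 1 ≤ k) (Q Q' D2 : ℕ) (hQ : Q' ≤ Q) (hD2 : 1 ≤ D2) (Xs : Fin k → ℕ) (η E : ℝ) (px : Ch) (th : ℤ → ℝ)
    (hE : 0 ≤ E) (hkE : 4 * k * E ≤ 1) (hM : ∀ i, MdB Q (Xs i) η E px th) (hr : px.1 * D2 ≤ Nat.sqrt Q') :
    Dat k Q Q' Q' (Nat.sqrt Q') D2 η E px th Xs := by
  exact core_dat1 hk Q Q' D2 hQ hD2 Xs η E px th hE hkE hM hr

open Classical in
/-- the sum over the prime values. -/
lemma core_primes {k d : ℕ} (S : Sys k d) (b : Fin k → ℤ) (t : Fin d → ℤ) (L : ℕ) (M : ℝ)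
    (h : ∀ i, ∀ n ∈ range L, 0 < S.val b n t i ∧ (S.val b n t i : ℝ) ≤ M) :
    ∑ n ∈ range L, ∏ i, lp (S.val b n t i) ≤
      (((range L).filter (fun n : ℕ => ∀ i, (S.val b n t i).toNat.Prime)).card : ℝ) * Real.log M ^ k := by
  have h1 : ∀ n ∈ range L, ∏ i, lp (S.val b n t i) ≤
      if ∀ i, (S.val b n t i).toNat.Prime then Real.log M ^ k else 0 := by
    intro n hn
    by_cases hp : ∀ i, (S.val b n t i).toNat.Prime
    · rw [if_pos hp]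
      calc ∏ i, lp (S.val b n t i) ≤ ∏ _i : Fin k, Real.log M := by
            refine Finset.prod_le_prod (fun i _ => core_lp_nonneg _) fun i _ => ?_
            obtain ⟨h2, h3⟩ := h i n hn
            refine (core_lp_le _ (by omega)).trans ?_
            exact Real.log_le_log (by exact_mod_cast h2) h3
        _ = Real.log M ^ k := by
            rw [Finset.prod_const, Finset.card_univ, Fintype.card_fin]
    · rw [if_neg hp]
      push Not at hp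
      obtain ⟨i, hi⟩ := hp
      refine le_of_eq (Finset.prod_eq_zero (mem_univ i) ?_)
      unfold Pool.Agent.Lib.H68T.lp
      rw [if_neg hi]
  refine (Finset.sum_le_sum h1).trans ?_
  rw [← Finset.sum_filter, Finset.sum_const, nsmul_eq_mul]

/-- few primes give a small sum. -/
lemma core_thr {k C0 X n : ℕ} (hk : 1 ≤ k) (hC0 : 1 ≤ C0) (hX : 1 ≤ X) (ε η Sm : ℝ) (hε : 0 < ε)
    (hn : (n : ℝ) < (X : ℝ) ^ (1 - ε)) (hSm : Sm ≤ n * Real.log (4 * C0 * X) ^ k)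
    (hη : (X : ℝ) ^ (-(ε / 4)) ≤ η ^ k)
    (hbig : 16 * Real.exp (4 * k : ℝ) * ((4 * C0 : ℝ) ^ (ε / 4) / (ε / (4 * k)) ^ k) + 1 ≤ (X : ℝ) ^ (ε / 2)) :
    Sm < X * (η ^ k * Real.exp (-(4 * k : ℝ))) / 16 := by
  have hX0 : (0 : ℝ) < X := by exact_mod_cast hX
  have hX1 : (1 : ℝ) ≤ X := by exact_mod_cast hX
  have hC1 : (1 : ℝ) ≤ C0 := by exact_mod_cast hC0
  have hk0 : (0 : ℝ) < k := by exact_mod_cast hk
  have hs : 0 < ε / (4 * k) := by positivity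
  have hy : (1 : ℝ) ≤ 4 * C0 * X := by nlinarith
  have hl0 : 0 ≤ Real.log (4 * C0 * X) := Real.log_nonneg hy
  have hl1 := Real.log_le_rpow_div (by linarith : (0 : ℝ) ≤ 4 * C0 * X) hs
  have hl2 := pow_le_pow_left₀ hl0 hl1 k
  obtain ⟨A, hA⟩ : ∃ A, A = (4 * C0 : ℝ) ^ (ε / 4) / (ε / (4 * k)) ^ k := ⟨_, rfl⟩
  rw [← hA] at hbig
  have hA0 : 0 < A := by
    rw [hA]
    positivity
  have hl3 : Real.log (4 * C0 * X) ^ k ≤ A * (X : ℝ) ^ (ε / 4) := by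
    refine hl2.trans (le_of_eq ?_)
    rw [div_pow, ← Real.rpow_natCast, ← Real.rpow_mul (by linarith)]
    have : ε / (4 * k) * (k : ℝ) = ε / 4 := by field_simp
    rw [this, Real.mul_rpow (by positivity) hX0.le, hA]
    ring
  have h1 : Sm ≤ (X : ℝ) ^ (1 - ε) * (A * (X : ℝ) ^ (ε / 4)) := by
    refine hSm.trans (mul_le_mul hn.le hl3 (by positivity) (Real.rpow_nonneg hX0.le _))
  have h2 : (X : ℝ) ^ (1 - ε) * (A * (X : ℝ) ^ (ε / 4)) = A * (X : ℝ) ^ (1 - 3 * ε / 4) := by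
    have : (X : ℝ) ^ (1 - 3 * ε / 4) = (X : ℝ) ^ (1 - ε) * (X : ℝ) ^ (ε / 4) := by
      rw [← Real.rpow_add hX0]
      congr 1
      ring
    rw [this]
    ring
  rw [h2] at h1
  have h3 : (X : ℝ) * (X : ℝ) ^ (-(ε / 4)) = (X : ℝ) ^ (1 - 3 * ε / 4) * (X : ℝ) ^ (ε / 2) := by
    rw [← Real.rpow_add hX0]
    nth_rewrite 1 [← Real.rpow_one (X : ℝ)]
    rw [← Real.rpow_add hX0]
    congr 1
    ring
  have h4 : (X : ℝ) ^ (1 - 3 * ε / 4) * (16 * Real.exp (4 * k : ℝ) * A + 1) ≤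
      (X : ℝ) * (X : ℝ) ^ (-(ε / 4)) := by
    rw [h3]
    exact mul_le_mul_of_nonneg_left hbig (Real.rpow_nonneg hX0.le _)
  have hW : 0 < (X : ℝ) ^ (1 - 3 * ε / 4) := Real.rpow_pos_of_pos hX0 _
  have h5 : (X : ℝ) ^ (1 - 3 * ε / 4) * (16 * Real.exp (4 * k : ℝ) * A) < (X : ℝ) * η ^ k := by
    have := mul_le_mul_of_nonneg_left hη hX0.le
    nlinarith
  have h6 : Real.exp (4 * k : ℝ) * Real.exp (-(4 * k : ℝ)) = 1 := by
    rw [← Real.exp_add, add_neg_cancel, Real.exp_zero]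
  have h7 := mul_lt_mul_of_pos_right h5 (Real.exp_pos (-(4 * k : ℝ)))
  have h8 : (X : ℝ) ^ (1 - 3 * ε / 4) * (16 * Real.exp (4 * k : ℝ) * A) * Real.exp (-(4 * k : ℝ)) =
      16 * (A * (X : ℝ) ^ (1 - 3 * ε / 4)) := by
    have : (X : ℝ) ^ (1 - 3 * ε / 4) * (16 * Real.exp (4 * k : ℝ) * A) * Real.exp (-(4 * k : ℝ)) =
      16 * (A * (X : ℝ) ^ (1 - 3 * ε / 4)) * (Real.exp (4 * k : ℝ) * Real.exp (-(4 * k : ℝ))) := by ring
    rw [this, h6, mul_one]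
  rw [h8] at h7
  have h9 : (X : ℝ) * (η ^ k * Real.exp (-(4 * k : ℝ))) / 16 = (X : ℝ) * η ^ k * Real.exp (-(4 * k : ℝ)) / 16 := by ring
  rw [h9]
  linarith

/-- the small level. -/
lemma core_level (k C0 : ℕ) (hC0 : 1 ≤ C0) (Cr : ℝ) (hCr : 1 ≤ Cr) : ∃ X0 : ℕ, ∀ X : ℕ, X0 ≤ X →
    ∀ Q : ℕ, Real.log ((C0 : ℝ) * X) ≤ Cr * Real.log Q → ∃ Q' : ℕ,
      ((C0 : ℝ) * X) ^ (1 / (100 * (k + 1) * Cr)) ≤ Q' ∧ Q' ^ (20 * (k + 1)) ≤ Q ∧ Q' ≤ X := by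
  have hk1 : (0 : ℝ) < (k : ℝ) + 1 := by positivity
  have hCr0 : 0 < Cr := by linarith
  obtain ⟨Xa, hXa⟩ := core_large (4 / (5 * Cr)) ((2 : ℝ) ^ (20 * (k + 1))) (by positivity)
  refine ⟨max Xa (max (4 * C0) 2), ?_⟩
  intro X hX Q hQ
  have g1 : Xa ≤ X := (le_max_left _ _).trans hX
  have g2 : 4 * C0 ≤ X := ((le_max_left _ _).trans (le_max_right _ _)).trans hX
  have g3 : 2 ≤ X := ((le_max_right _ _).trans (le_max_right _ _)).trans hX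
  have f1 := hXa X g1
  have hX2 : (2 : ℝ) ≤ X := by exact_mod_cast g3
  have hX0 : (0 : ℝ) < X := by linarith
  have hC1 : (1 : ℝ) ≤ C0 := by exact_mod_cast hC0
  have hX4 : 4 * (C0 : ℝ) ≤ X := by exact_mod_cast g2
  obtain ⟨Z, hZ⟩ : ∃ Z : ℝ, Z = (C0 : ℝ) * X := ⟨_, rfl⟩
  obtain ⟨θ, hθ⟩ : ∃ θ : ℝ, θ = 1 / (100 * ((k : ℝ) + 1) * Cr) := ⟨_, rfl⟩
  rw [← hZ] at hQ ⊢
  rw [← hθ]
  have hZX : (X : ℝ) ≤ Z := by rw [hZ]; nlinarith
  have hZ2 : 2 ≤ Z := by linarith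
  have hZ0 : 0 < Z := by linarith
  have hZ1 : 1 ≤ Z := by linarith
  have hθ0 : 0 < θ := by rw [hθ]; positivity
  have hθ1 : θ ≤ 1 / 2 := by
    rw [hθ]
    refine one_div_le_one_div_of_le (by norm_num) ?_
    have h1 : 1 ≤ ((k : ℝ) + 1) := by
      have : (0 : ℝ) ≤ k := Nat.cast_nonneg k
      linarith
    nlinarith
  have hlZ : 0 < Real.log Z := Real.log_pos (by linarith)
  have hlQ : 0 < Real.log Q := by
    by_contra hcon
    push Not at hcon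
    nlinarith
  have hQ0 : (0 : ℝ) < Q := by
    by_contra hcon
    have h0 : (Q : ℝ) = 0 := le_antisymm (not_lt.1 hcon) (Nat.cast_nonneg Q)
    rw [h0, Real.log_zero] at hlQ
    exact lt_irrefl _ hlQ
  have hZQ : Z ^ (1 / Cr) ≤ Q := by
    rw [← Real.log_le_log_iff (Real.rpow_pos_of_pos hZ0 _) hQ0, Real.log_rpow hZ0, one_div,
      inv_mul_le_iff₀ hCr0]
    exact hQ
  have hZθ : 1 ≤ Z ^ θ := Real.one_le_rpow hZ1 hθ0.le
  refine ⟨⌈Z ^ θ⌉₊, Nat.le_ceil _, ?_, ?_⟩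
  · have h1 : (⌈Z ^ θ⌉₊ : ℝ) ≤ 2 * Z ^ θ := by
      have := (Nat.ceil_lt_add_one (by linarith : (0 : ℝ) ≤ Z ^ θ)).le
      linarith
    have h2 : (⌈Z ^ θ⌉₊ : ℝ) ^ (20 * (k + 1)) ≤ (Q : ℝ) := by
      calc (⌈Z ^ θ⌉₊ : ℝ) ^ (20 * (k + 1)) ≤ (2 * Z ^ θ) ^ (20 * (k + 1)) :=
            pow_le_pow_left₀ (Nat.cast_nonneg _) h1 _
        _ = 2 ^ (20 * (k + 1)) * Z ^ (1 / (5 * Cr)) := by
            rw [mul_pow, ← Real.rpow_natCast (Z ^ θ), ← Real.rpow_mul hZ0.le]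
            congr 2
            rw [hθ]
            push_cast
            field_simp
            ring
        _ ≤ Z ^ (4 / (5 * Cr)) * Z ^ (1 / (5 * Cr)) := by
            refine mul_le_mul_of_nonneg_right ?_ (Real.rpow_nonneg hZ0.le _)
            exact f1.trans (Real.rpow_le_rpow hX0.le hZX (by positivity))
        _ = Z ^ (1 / Cr) := by
            rw [← Real.rpow_add hZ0]
            congr 1
            field_simp
            ring
        _ ≤ Q := hZQ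
    exact_mod_cast h2
  · have h1 : (⌈Z ^ θ⌉₊ : ℝ) ≤ 2 * Z ^ θ := by
      have := (Nat.ceil_lt_add_one (by linarith : (0 : ℝ) ≤ Z ^ θ)).le
      linarith
    have h2 : Z ^ θ ≤ Z ^ (1 / 2 : ℝ) := Real.rpow_le_rpow_of_exponent_le hZ1 hθ1
    have h3 : 2 * Z ^ (1 / 2 : ℝ) ≤ X := by
      rw [← Real.sqrt_eq_rpow]
      have h4 : Real.sqrt Z ≤ X / 2 := by
        rw [Real.sqrt_le_left (by positivity), hZ]
        nlinarith
      linarith
    have h5 : (⌈Z ^ θ⌉₊ : ℝ) ≤ X := by linarith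
    exact_mod_cast h5

/-- small conductor. -/
lemma core_case1 (Q' r : ℕ) (h4 : 4 ≤ (Q' : ℝ) ^ (23 / 40 : ℝ)) (hQ : 1 ≤ Q')
    (hr : (r : ℝ) ≤ (Q' : ℝ) ^ (1 / 80 : ℝ)) :
    1 ≤ ⌈(Q' : ℝ) ^ (1 / 5 : ℝ)⌉₊ ∧ r * ⌈(Q' : ℝ) ^ (1 / 5 : ℝ)⌉₊ ≤ Nat.sqrt Q' := by
  have hQ1 : (1 : ℝ) ≤ Q' := by exact_mod_cast hQ
  have hQ0 : (0 : ℝ) < Q' := by linarith
  have h1 : (1 : ℝ) ≤ (Q' : ℝ) ^ (1 / 5 : ℝ) := Real.one_le_rpow hQ1 (by norm_num)
  have h2 : (⌈(Q' : ℝ) ^ (1 / 5 : ℝ)⌉₊ : ℝ) ≤ 2 * (Q' : ℝ) ^ (1 / 5 : ℝ) := by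
    have := (Nat.ceil_lt_add_one (by linarith : (0 : ℝ) ≤ (Q' : ℝ) ^ (1 / 5 : ℝ))).le
    linarith
  constructor
  · rw [Nat.one_le_ceil_iff]
    linarith
  · rw [Nat.le_sqrt']
    have h3 : ((r * ⌈(Q' : ℝ) ^ (1 / 5 : ℝ)⌉₊ : ℕ) : ℝ) ^ 2 ≤ Q' := by
      push_cast
      calc ((r : ℝ) * (⌈(Q' : ℝ) ^ (1 / 5 : ℝ)⌉₊ : ℝ)) ^ 2
          ≤ ((Q' : ℝ) ^ (1 / 80 : ℝ) * (2 * (Q' : ℝ) ^ (1 / 5 : ℝ))) ^ 2 :=
            pow_le_pow_left₀ (by positivity) (mul_le_mul hr h2 (Nat.cast_nonneg _) (by positivity)) 2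
        _ = 4 * (Q' : ℝ) ^ (17 / 40 : ℝ) := by
            have e1 : (Q' : ℝ) ^ (17 / 40 : ℝ) = ((Q' : ℝ) ^ (1 / 80 : ℝ) * (Q' : ℝ) ^ (1 / 5 : ℝ)) ^ 2 := by
              rw [← Real.rpow_add hQ0, ← Real.rpow_natCast, ← Real.rpow_mul hQ0.le]
              norm_num
            rw [e1]
            ring
        _ ≤ (Q' : ℝ) ^ (23 / 40 : ℝ) * (Q' : ℝ) ^ (17 / 40 : ℝ) :=
            mul_le_mul_of_nonneg_right h4 (by positivity)
        _ = Q' := by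
            rw [← Real.rpow_add hQ0]
            norm_num
    exact_mod_cast h3

/-- large conductor. -/
lemma core_case2 (Q' r : ℕ) (δ : ℝ) (hδ : 0 < δ) (hδ1 : δ ≤ 1) (h2 : 2 ≤ (Q' : ℝ) ^ (δ / 4)) (hQ : 1 ≤ Q')
    (hr : (Q' : ℝ) ^ δ < r) :
    1 ≤ ⌊(Q' : ℝ) ^ δ⌋₊ ∧ ⌊(Q' : ℝ) ^ δ⌋₊ ≤ Q' ∧ Nat.sqrt ⌊(Q' : ℝ) ^ δ⌋₊ < r ∧
      (Q' : ℝ) ^ (δ / 4) ≤ Nat.sqrt ⌊(Q' : ℝ) ^ δ⌋₊ := by
  have hQ1 : (1 : ℝ) ≤ Q' := by exact_mod_cast hQ
  have hQ0 : (0 : ℝ) < Q' := by linarith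
  have h1 : (1 : ℝ) ≤ (Q' : ℝ) ^ δ := Real.one_le_rpow hQ1 hδ.le
  have hfl : (⌊(Q' : ℝ) ^ δ⌋₊ : ℝ) ≤ (Q' : ℝ) ^ δ := Nat.floor_le (by linarith)
  refine ⟨?_, ?_, ?_, ?_⟩
  · rw [Nat.one_le_floor_iff]
    exact h1
  · have h3 : (Q' : ℝ) ^ δ ≤ Q' := by
      have := Real.rpow_le_rpow_of_exponent_le hQ1 hδ1
      rwa [Real.rpow_one] at this
    exact_mod_cast hfl.trans h3
  · have h4 : ⌊(Q' : ℝ) ^ δ⌋₊ < r := by exact_mod_cast lt_of_le_of_lt hfl hr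
    exact lt_of_le_of_lt (Nat.sqrt_le_self _) h4
  · obtain ⟨D, hD⟩ : ∃ D, D = ⌊(Q' : ℝ) ^ δ⌋₊ := ⟨_, rfl⟩
    obtain ⟨y, hy⟩ : ∃ y, y = (Q' : ℝ) ^ (δ / 4) := ⟨_, rfl⟩
    rw [← hD, ← hy]
    rw [← hy] at h2
    have h5 : (Q' : ℝ) ^ δ = y ^ 4 := by
      rw [hy, ← Real.rpow_natCast, ← Real.rpow_mul hQ0.le]
      congr 1
      push_cast
      ring
    have h6 : y ^ 4 < D + 1 := by
      rw [← h5, hD]
      exact Nat.lt_floor_add_one _
    have h7 : D < (Nat.sqrt D + 1) * (Nat.sqrt D + 1) := Nat.lt_succ_sqrt D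
    have h8 : (D : ℝ) + 1 ≤ ((Nat.sqrt D : ℝ) + 1) * ((Nat.sqrt D : ℝ) + 1) := by
      exact_mod_cast h7
    by_contra hcon
    push Not at hcon
    have h9 : (0 : ℝ) ≤ (Nat.sqrt D : ℝ) := Nat.cast_nonneg _
    have h10 : ((Nat.sqrt D : ℝ) + 1) * ((Nat.sqrt D : ℝ) + 1) ≤ (y + 1) * (y + 1) :=
      mul_le_mul (by linarith) (by linarith) (by linarith) (by linarith)
    have h11 : y + 1 ≤ y ^ 2 := by nlinarith
    have h12 : (y + 1) * (y + 1) ≤ y ^ 2 * y ^ 2 := mul_le_mul h11 h11 (by linarith) (by positivity)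
    nlinarith


end Pool.Agent.H9U
end

-- from Lib.HUK.D34
section

/-!
# Project HUK, chunk D34: CORE for general systems (copy of `CORE`)
-/

open Finset

namespace Pool.Agent.HUK

open Pool.Agent.H9U
open Pool.Agent.Lib.H68T (lp Lk PC p0)
open Pool.Agent.Lib.H18Q (gk KS SG Bc RegP)
open Pool.Agent.Lib.H59P (Ch SF bx TS Rp MX pr)

open Classical in
/-- **CORE.** Proof. `K` from `Z4_count`. `A3S` with `E = 1/(4k)` and `K' = K` gives `Cr, c0` and for each large `X` a level `Q` with a model `px, th, η`. `θ = 1/(100 (k+1) Cr)`,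
`Q' = ⌈(C0 X)^θ⌉`: `Rgm K Cr θ Q Q' (Xs i)`, `Q'^(20 (k+1)) ≤ Q`, `Q' ≤ X` for `X` large. `Z4_count` with `δ3 = 1/5` gives `κa, εa`; `δ2 = min (min εa (ε/(4k))) (1/20) / 4`; `Z4_count` with
`δ3 = δ2/4` gives `κb, εb`. Case 1, `px.1 ≤ Q'^δ2`: `CORE_dat1` with `D2 = ⌈Q'^(1/5)⌉` (`px.1 D2 ≤ Q'^(1/20) · 2 Q'^(1/5) ≤ √Q'` rounded down), `η ≥ c0/px.1² ≥ c0 Q'^(-2 δ2) ≥ X^(-min(εa, ε/(4k)))`.
Case 2, `px.1 > Q'^δ2`: `CORE_dat2` with `D = ⌊Q'^δ2⌋` (`Q'^(δ2/4) ≤ √D` rounded down), `η = 1`. In both cases `η^k exp(-4k)/16 ≥ X^(-ε/2)`, and fewer than `X^(1-ε)` prime values imply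
`∑_n ∏ lp < X^(1-ε) (log (4 C0 X))^k ≤ X^(1-ε/2)` (`lp m ≤ log m`, and `0` unless `m` is a prime; `m ∈ JJ (Xs i)`). -/
theorem D34_core {k d : ℕ} (hk : 1 ≤ k) (hd : 1 ≤ d) (S : Sys k d) (ha : ∀ i, S.a i ≠ 0) (hMin : MinP S) (hTel : TelP S) (hL : LBig S) (C0 : ℕ) (hC0 : 1 ≤ C0)
    (ε : ℝ) (hε : 0 < ε) : ∃ κ : ℝ, 0 < κ ∧ ∃ X0 : ℕ, ∀ X : ℕ, X0 ≤ X →
    ∀ Xs : Fin k → ℕ, (∀ i, X ≤ Xs i ∧ Xs i ≤ C0 * X) → ∀ (b : Fin k → ℤ) (L T : ℕ), X ≤ L → L ≤ C0 * X → T ≤ C0 * X →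
    (∀ i, ∀ n ∈ range L, ∀ t ∈ bx d T, S.val b n (iv t) i ∈ JJ (Xs i)) →
    (((bx d T).filter (fun t => S.Adm b (iv t) ∧
      (((range L).filter (fun n : ℕ => ∀ i, (S.val b n (iv t) i).toNat.Prime)).card : ℝ) < (X : ℝ) ^ (1 - ε))).card : ℝ) ≤
      (X : ℝ) ^ (d - κ) := by
  obtain ⟨K, hK, HZ⟩ := D33_count hk hd S ha hMin hTel hL
  have hk0 : (0 : ℝ) < k := by exact_mod_cast hk
  have hC1 : (1 : ℝ) ≤ C0 := by exact_mod_cast hC0
  have hE : (0 : ℝ) < 1 / (4 * k) := by positivity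
  have hkE : 4 * (k : ℝ) * (1 / (4 * k)) ≤ 1 := by
    rw [mul_one_div, div_self (by positivity)]
  obtain ⟨Cr, c0, hCr, hc0, Xa, HA⟩ := A3S C0 hC0 (1 / (4 * k)) K hE
  obtain ⟨θ, hθ⟩ : ∃ θ : ℝ, θ = 1 / (100 * ((k : ℝ) + 1) * Cr) := ⟨_, rfl⟩
  have hθ0 : 0 < θ := by rw [hθ]; positivity
  obtain ⟨κa, εa, hκa, hεa, Xb, HZa⟩ := HZ Cr θ (1 / 5) hCr hθ0 (by norm_num) C0
  obtain ⟨mm, hmm⟩ : ∃ mm, mm = min εa (ε / (4 * k)) := ⟨_, rfl⟩
  have hmm0 : 0 < mm := by rw [hmm]; exact lt_min hεa (by positivity)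
  have hmma : mm ≤ εa := by rw [hmm]; exact min_le_left _ _
  have hmmb : mm ≤ ε / (4 * k) := by rw [hmm]; exact min_le_right _ _
  obtain ⟨δ2, hδ2⟩ : ∃ δ2, δ2 = min mm (1 / 20) / 4 := ⟨_, rfl⟩
  have hδ0 : 0 < δ2 := by
    rw [hδ2]
    have : 0 < min mm (1 / 20) := lt_min hmm0 (by norm_num)
    positivity
  have hδa : δ2 ≤ mm / 4 := by
    rw [hδ2]
    have := min_le_left mm (1 / 20)
    linarith
  have hδb : δ2 ≤ 1 / 80 := by
    rw [hδ2]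
    have := min_le_right mm (1 / 20)
    linarith
  obtain ⟨κb, εb, hκb, hεb, Xc, HZb⟩ := HZ Cr θ (δ2 / 4) hCr hθ0 (by positivity) C0
  obtain ⟨Xd, HL⟩ := core_level k C0 hC0 Cr hCr
  obtain ⟨Xe, He⟩ := core_large (θ * (23 / 40)) 4 (by positivity)
  obtain ⟨Xf, Hf⟩ := core_large (θ * (δ2 / 4)) 2 (by positivity)
  obtain ⟨Xg, Hg⟩ := core_large (mm / 2) (1 / c0) (by positivity)
  obtain ⟨Xh, Hh⟩ := core_large (ε / 2)
    (16 * Real.exp (4 * k : ℝ) * ((4 * C0 : ℝ) ^ (ε / 4) / (ε / (4 * k)) ^ k) + 1) (by positivity)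
  refine ⟨min κa κb, lt_min hκa hκb,
    max (max (max Xa Xb) (max Xc Xd)) (max (max Xe Xf) (max (max Xg Xh) 1)), ?_⟩
  intro X hX Xs hXs b L T hXL hL1 hT hJ
  have g0 : max (max Xa Xb) (max Xc Xd) ≤ X := (le_max_left _ _).trans hX
  have g0' : max (max Xe Xf) (max (max Xg Xh) 1) ≤ X := (le_max_right _ _).trans hX
  have ga : Xa ≤ X := ((le_max_left _ _).trans (le_max_left _ _)).trans g0
  have gb : Xb ≤ X := ((le_max_right _ _).trans (le_max_left _ _)).trans g0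
  have gc : Xc ≤ X := ((le_max_left _ _).trans (le_max_right _ _)).trans g0
  have gd : Xd ≤ X := ((le_max_right _ _).trans (le_max_right _ _)).trans g0
  have ge : Xe ≤ X := ((le_max_left _ _).trans (le_max_left _ _)).trans g0'
  have gf : Xf ≤ X := ((le_max_right _ _).trans (le_max_left _ _)).trans g0'
  have gg : Xg ≤ X := (((le_max_left _ _).trans (le_max_left _ _)).trans (le_max_right _ _)).trans g0'
  have gh : Xh ≤ X := (((le_max_right _ _).trans (le_max_left _ _)).trans (le_max_right _ _)).trans g0'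
  have hX1 : 1 ≤ X := ((le_max_right _ _).trans (le_max_right _ _)).trans g0'
  have hX1r : (1 : ℝ) ≤ X := by exact_mod_cast hX1
  have hX0r : (0 : ℝ) < X := by linarith
  have i0 : Fin k := ⟨0, hk⟩
  obtain ⟨Q, hQ, px, th, η, hpx, hη, hM⟩ := HA X ga
  have hXC : X ≤ C0 * X := Nat.le_mul_of_pos_left _ hC0
  have hlogQ : Real.log ((C0 : ℝ) * X) ≤ Cr * Real.log Q := by
    have := (hQ (C0 * X) hXC le_rfl).2
    push_cast at this
    exact this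
  obtain ⟨Q', hQ'1, hQ'2, hQ'3⟩ := HL X gd Q hlogQ
  rw [← hθ] at hQ'1
  have hQ'X : (X : ℝ) ^ θ ≤ Q' := by
    refine (Real.rpow_le_rpow hX0r.le ?_ hθ0.le).trans hQ'1
    nlinarith
  have hQ'one : (1 : ℝ) ≤ Q' := (Real.one_le_rpow hX1r hθ0.le).trans hQ'X
  have hQ'1n : 1 ≤ Q' := by exact_mod_cast hQ'one
  have hQ'Q : Q' ≤ Q := by
    refine le_trans ?_ hQ'2
    calc Q' = Q' ^ 1 := (pow_one _).symm
      _ ≤ Q' ^ (20 * (k + 1)) := Nat.pow_le_pow_right hQ'1n (by omega)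
  have hR : ∀ i, Rgm K Cr θ Q Q' (Xs i) := by
    intro i
    obtain ⟨h1, h2⟩ := hQ (Xs i) (hXs i).1 (hXs i).2
    refine ⟨h1, h2, ?_, hQ'Q⟩
    refine le_trans ?_ hQ'1
    refine Real.rpow_le_rpow (Nat.cast_nonneg _) ?_ hθ0.le
    exact_mod_cast (hXs i).2
  have hMi : ∀ i, MdB Q (Xs i) η (1 / (4 * k)) px th := fun i => hM (Xs i) (hXs i).1 (hXs i).2
  have hr1 : 1 ≤ px.1 := (Pool.Agent.Lib.H68T.mem_PC.1 (hMi i0).mem).1
  have hr1r : (1 : ℝ) ≤ (px.1 : ℝ) := by exact_mod_cast hr1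
  have hbig := Hh X gh
  -- bounds for the values
  have hval : ∀ t ∈ bx d T, ∀ i, ∀ n ∈ range L, 0 < S.val b n (iv t) i ∧
      (S.val b n (iv t) i : ℝ) ≤ 4 * C0 * X := by
    intro t ht i n hn
    have h1 := hJ i n hn t ht
    unfold JJ at h1
    rw [Finset.mem_Ico] at h1
    have h2 : X ≤ Xs i := (hXs i).1
    have h3 : Xs i ≤ C0 * X := (hXs i).2
    have h4 : S.val b n (iv t) i ≤ 4 * ((C0 * X : ℕ) : ℤ) := by omega
    refine ⟨by omega, ?_⟩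
    have h5 : (S.val b n (iv t) i : ℝ) ≤ 4 * ((C0 * X : ℕ) : ℝ) := by exact_mod_cast h4
    push_cast at h5
    linarith
  -- few primes give a small sum
  have hsub : ∀ η' : ℝ, (X : ℝ) ^ (-(ε / 4)) ≤ η' ^ k →
      ((bx d T).filter (fun t => S.Adm b (iv t) ∧
      (((range L).filter (fun n : ℕ => ∀ i, (S.val b n (iv t) i).toNat.Prime)).card : ℝ) < (X : ℝ) ^ (1 - ε))).card ≤
      ((bx d T).filter (fun t => S.Adm b (iv t) ∧ ∑ n ∈ range L, ∏ i, lp (S.val b n (iv t) i) <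
      X * (η' ^ k * Real.exp (-(4 * k : ℝ))) / 16)).card := by
    intro η' hη'
    refine Finset.card_le_card ?_
    intro t ht
    rw [Finset.mem_filter] at ht ⊢
    obtain ⟨h1, h2, h3⟩ := ht
    refine ⟨h1, h2, ?_⟩
    exact core_thr hk hC0 hX1 ε η' _ hε h3 (core_primes S b (iv t) L (4 * C0 * X) (hval t h1)) hη' hbig
  by_cases hc : (px.1 : ℝ) ≤ (Q' : ℝ) ^ δ2
  · -- small conductor
    have hr80 : (px.1 : ℝ) ≤ (Q' : ℝ) ^ (1 / 80 : ℝ) :=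
      hc.trans (Real.rpow_le_rpow_of_exponent_le hQ'one hδb)
    have h4 : 4 ≤ (Q' : ℝ) ^ (23 / 40 : ℝ) := by
      refine (He X ge).trans ?_
      rw [Real.rpow_mul hX0r.le]
      exact Real.rpow_le_rpow (Real.rpow_nonneg hX0r.le _) hQ'X (by norm_num)
    obtain ⟨d1, d2⟩ := core_case1 Q' px.1 h4 hQ'1n hr80
    have hdat := CORE_dat1 hk Q Q' ⌈(Q' : ℝ) ^ (1 / 5 : ℝ)⌉₊ hQ'Q d1 Xs η (1 / (4 * k)) px th hE.le hkE hMi d2
    have hηmm : (X : ℝ) ^ (-mm) ≤ η := by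
      refine le_trans ?_ hη
      have h5 : ((px.1 : ℝ)) ^ 2 ≤ (X : ℝ) ^ (mm / 2) := by
        have h6 : (px.1 : ℝ) ≤ (X : ℝ) ^ (mm / 4) := by
          refine hc.trans ?_
          have h7 : (Q' : ℝ) ≤ X := by exact_mod_cast hQ'3
          refine (Real.rpow_le_rpow (Nat.cast_nonneg _) h7 hδ0.le).trans ?_
          exact Real.rpow_le_rpow_of_exponent_le hX1r hδa
        calc ((px.1 : ℝ)) ^ 2 ≤ ((X : ℝ) ^ (mm / 4)) ^ 2 := pow_le_pow_left₀ (Nat.cast_nonneg _) h6 2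
          _ = (X : ℝ) ^ (mm / 2) := by
            rw [← Real.rpow_natCast, ← Real.rpow_mul hX0r.le]
            congr 1
            push_cast
            ring
      have hr2 : (0 : ℝ) < (px.1 : ℝ) ^ 2 := by positivity
      rw [le_div_iff₀ hr2]
      have h8 := Hg X gg
      rw [div_le_iff₀ hc0] at h8
      have h9 : 0 < (X : ℝ) ^ (-mm) := Real.rpow_pos_of_pos hX0r _
      calc (X : ℝ) ^ (-mm) * (px.1 : ℝ) ^ 2 ≤ (X : ℝ) ^ (-mm) * (X : ℝ) ^ (mm / 2) :=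
            mul_le_mul_of_nonneg_left h5 h9.le
        _ = (X : ℝ) ^ (-mm) * (X : ℝ) ^ (mm / 2) * 1 := (mul_one _).symm
        _ ≤ (X : ℝ) ^ (-mm) * (X : ℝ) ^ (mm / 2) * ((X : ℝ) ^ (mm / 2) * c0) :=
            mul_le_mul_of_nonneg_left h8 (by positivity)
        _ = c0 := by
            have h10 : (X : ℝ) ^ (-mm) * (X : ℝ) ^ (mm / 2) * (X : ℝ) ^ (mm / 2) = 1 := by
              rw [← Real.rpow_add hX0r, ← Real.rpow_add hX0r]
              have : -mm + mm / 2 + mm / 2 = 0 := by ring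
              rw [this, Real.rpow_zero]
            rw [← mul_assoc, h10, one_mul]
    have hηa : (X : ℝ) ^ (-εa) ≤ η :=
      (Real.rpow_le_rpow_of_exponent_le hX1r (neg_le_neg hmma)).trans hηmm
    have hηk : (X : ℝ) ^ (-(ε / 4)) ≤ η ^ k := by
      have h5 : (X : ℝ) ^ (-(ε / (4 * k))) ≤ η :=
        (Real.rpow_le_rpow_of_exponent_le hX1r (neg_le_neg hmmb)).trans hηmm
      have h6 := pow_le_pow_left₀ (Real.rpow_nonneg hX0r.le _) h5 k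
      rw [← Real.rpow_natCast, ← Real.rpow_mul hX0r.le] at h6
      have h7 : -(ε / (4 * k)) * (k : ℝ) = -(ε / 4) := by field_simp
      rw [h7] at h6
      exact h6
    have hfin := HZa Q Q' X gb Xs hXs hR hQ'2 Q' (Nat.sqrt Q') ⌈(Q' : ℝ) ^ (1 / 5 : ℝ)⌉₊ η
      (1 / (4 * k)) px th hdat (Nat.le_ceil _) hηa b L T hXL hL1 hT hJ
    have h11 : ((((bx d T).filter (fun t => S.Adm b (iv t) ∧
      (((range L).filter (fun n : ℕ => ∀ i, (S.val b n (iv t) i).toNat.Prime)).card : ℝ) <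
        (X : ℝ) ^ (1 - ε))).card : ℕ) : ℝ) ≤ _ := Nat.cast_le.2 (hsub η hηk)
    refine h11.trans (hfin.trans (Real.rpow_le_rpow_of_exponent_le hX1r ?_))
    have := min_le_left κa κb
    linarith
  · -- large conductor
    push Not at hc
    have h2 : 2 ≤ (Q' : ℝ) ^ (δ2 / 4) := by
      refine (Hf X gf).trans ?_
      rw [Real.rpow_mul hX0r.le]
      exact Real.rpow_le_rpow (Real.rpow_nonneg hX0r.le _) hQ'X (by positivity)
    obtain ⟨d1, d2, d3, d4⟩ := core_case2 Q' px.1 δ2 hδ0 (by linarith) h2 hQ'1n hc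
    have hdat := CORE_dat2 Q Q' ⌊(Q' : ℝ) ^ δ2⌋₊ hQ'Q d1 d2 Xs η (1 / (4 * k)) px th hE.le hkE hMi d3
    have hη1 : (X : ℝ) ^ (-εb) ≤ 1 := Real.rpow_le_one_of_one_le_of_nonpos hX1r (by linarith)
    have hηk : (X : ℝ) ^ (-(ε / 4)) ≤ (1 : ℝ) ^ k := by
      rw [one_pow]
      exact Real.rpow_le_one_of_one_le_of_nonpos hX1r (by linarith)
    have hfin := HZb Q Q' X gc Xs hXs hR hQ'2 ⌊(Q' : ℝ) ^ δ2⌋₊ (Nat.sqrt ⌊(Q' : ℝ) ^ δ2⌋₊)
      (Nat.sqrt ⌊(Q' : ℝ) ^ δ2⌋₊) 1 (1 / (4 * k)) p0 (fun _ => 0) hdat d4 hη1 b L T hXL hL1 hT hJ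
    have h11 : ((((bx d T).filter (fun t => S.Adm b (iv t) ∧
      (((range L).filter (fun n : ℕ => ∀ i, (S.val b n (iv t) i).toNat.Prime)).card : ℝ) <
        (X : ℝ) ^ (1 - ε))).card : ℕ) : ℝ) ≤ _ := Nat.cast_le.2 (hsub 1 hηk)
    refine h11.trans (hfin.trans (Real.rpow_le_rpow_of_exponent_le hX1r ?_))
    have := min_le_right κa κb
    linarith

end Pool.Agent.HUK
end

-- from Lib.HUK.DFIN
section

/-!
# Project HUK, module D, final statement: the core theorem for systems of finite complexity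
-/

open Finset

namespace Pool.Agent.HUK

open Pool.Agent.H9U (Sys)
open Pool.Agent.H96U (CoreOf Fin2)

theorem DFIN_fin2 {k d : ℕ} (S : Sys k d) (hS : Fin2 S) : SysFin S :=
  D14_fin S hS.1 fun i j hij => by
    obtain ⟨l, hl⟩ := hS.2 i j hij
    exact ⟨l, sub_ne_zero.2 hl⟩

/-- **CORE for systems of finite complexity.** -/
theorem DFIN_core {k d : ℕ} (hk : 1 ≤ k) (hd : 1 ≤ d) (S : Sys k d) (hS : SysFin S) (hP : PK (k + 1)) (hU : UCH (k + 1)) :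
    CoreOf S := by
  intro C0 hC0 ε hε
  exact D34_core hk hd S hS.1 (D14_min S hS) (D2_tel S hS hP) (D48_LB S hS hU) C0 hC0 ε hε

theorem DFIN_core2 {k d : ℕ} (hk : 1 ≤ k) (hd : 1 ≤ d) (S : Sys k d) (hS : Fin2 S) (hP : PK (k + 1)) (hU : UCH (k + 1)) :
    CoreOf S :=
  DFIN_core hk hd S (DFIN_fin2 S hS) hP hU

end Pool.Agent.HUK
end

-- from Lib.HUK.FIN
section

/-!
# Project HUK: all modules together

`PK k` for all `k ≥ 2` (all Gowers norms of the error are small) and the core theorem for all systems of linear forms without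
proportional linear parts.
-/

namespace Pool.Agent.HUK

open Pool.Agent.H9U (Sys)
open Pool.Agent.H96U (CoreOf Fin2)

/-- All Gowers norms of the error are small. -/
theorem FIN_PK (k : ℕ) (hk : 2 ≤ k) : PK k :=
  C8_all Pool.Agent.H37T.inv (fun k hk => tlp_of_tii k hk (A16_TII k hk)) (fun k hk => LKP_all k (by omega)) k hk

/-- **The core theorem for all systems of finite complexity.** -/
theorem FIN_core {k d : ℕ} (hk : 1 ≤ k) (hd : 1 ≤ d) (S : Sys k d) (hS : Fin2 S) : CoreOf S :=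
  DFIN_core2 hk hd S hS (FIN_PK (k + 1) (by omega)) (UCH_all (k + 1) (by omega))


end Pool.Agent.HUK
end
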