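import Pool.Agent.Lib.H59M.M1.M091
import Pool.Agent.Lib.H59M.M1.M095
import Pool.Agent.Lib.H59M.M1.M096
import Pool.Agent.Lib.H59M.M1.M101

/-! Merged copies (to shorten the build) of Lib.HPG.G4, Lib.HPG.G7. -/

-- from Lib.HPG.G4
section

/-!
# Project HPG, chunk G4 (L, helper34): telescoping

A port of `HUP/S4U.lean` (helper37).
-/

open Finset Polynomial

namespace Pool.Agent.HPG

open Pool.Agent.Lib.H68T Pool.Agent.Lib.H18Q Pool.Agent.Lib.H59P Pool.Agent.Lib.H24P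
open Pool.Agent.HUP
open Pool.Agent.HUK (PK GG Spt)
open Pool.Agent.H9U (JJ cutJ Er Rgm)

/-- The numerical part. -/
theorem g4_num (k D : ℕ) (hD : 1 ≤ D) (δ τ : ℝ) (hδ : 0 < δ) (hτ : 0 < τ) (hτδ : τ * 6 ≤ δ / 4) :
    ∃ Q0 : ℕ, 1 ≤ Q0 ∧ ∀ Q X X1 X' s : ℕ, Q0 ≤ Q → Q ≤ X → (X : ℝ) ≤ X1 * (Q : ℝ) ^ τ → 1 ≤ X' →
    (X' : ℝ) ^ D ≤ 2 ^ D * (X * (Q : ℝ) ^ τ) → (X : ℝ) ≤ (X' : ℝ) ^ D → (X : ℝ) ≤ (Q : ℝ) ^ τ * (s : ℝ) ^ D →
    (k : ℝ) ^ 2 * (X : ℝ) ^ (δ / 4) * (X' : ℝ) ^ (1 + 2 * (D : ℝ) - D * δ) ≤ (X1 : ℝ) ^ 2 * s * (Q : ℝ) ^ (-(δ / 4)) := by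
  obtain ⟨Q1, hQ1⟩ := s4a_large ((k : ℝ) ^ 2 * (2 * (2 ^ D) ^ 2)) (δ / 4) (by positivity)
  refine ⟨max 1 Q1, le_max_left _ _, ?_⟩
  intro Q X X1 X' s hQ hQX hX hX'1 hX' hXX' hs
  have hQ1' : 1 ≤ Q := (le_max_left _ _).trans hQ
  have hQr : (1 : ℝ) ≤ Q := by exact_mod_cast hQ1'
  have hQ0 : (0 : ℝ) < Q := by linarith
  have hXr : (1 : ℝ) ≤ X := by exact_mod_cast hQ1'.trans hQX
  have hX0 : (0 : ℝ) < X := by linarith
  have hX'r : (1 : ℝ) ≤ X' := by exact_mod_cast hX'1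
  have hX'0 : (0 : ℝ) < X' := by linarith
  have hQXr : (Q : ℝ) ≤ X := by exact_mod_cast hQX
  have hQτ : 1 ≤ (Q : ℝ) ^ τ := Real.one_le_rpow hQr hτ.le
  have hQτ0 : 0 < (Q : ℝ) ^ τ := by linarith
  -- `X' ≤ 2 Q^(2 τ) s`
  have h1 : (X' : ℝ) ≤ 2 * ((Q : ℝ) ^ τ) ^ 2 * s := by
    have h2 : (X' : ℝ) ^ D ≤ (2 * ((Q : ℝ) ^ τ) ^ 2 * s) ^ D := by
      calc (X' : ℝ) ^ D ≤ 2 ^ D * (X * (Q : ℝ) ^ τ) := hX'
        _ ≤ 2 ^ D * (((Q : ℝ) ^ τ * (s : ℝ) ^ D) * (Q : ℝ) ^ τ) := by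
            refine mul_le_mul_of_nonneg_left ?_ (by positivity)
            exact mul_le_mul_of_nonneg_right hs hQτ0.le
        _ = 2 ^ D * ((Q : ℝ) ^ τ) ^ 2 * (s : ℝ) ^ D := by ring
        _ ≤ 2 ^ D * (((Q : ℝ) ^ τ) ^ 2) ^ D * (s : ℝ) ^ D := by
            refine mul_le_mul_of_nonneg_right ?_ (by positivity)
            refine mul_le_mul_of_nonneg_left ?_ (by positivity)
            exact le_self_pow₀ (one_le_pow₀ hQτ) (by omega)
        _ = _ := by rw [mul_pow, mul_pow]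
    exact le_of_pow_le_pow_left₀ (by omega) (by positivity) h2
  have h3 : ((X' : ℝ) ^ D) ^ 2 ≤ (2 ^ D) ^ 2 * ((X1 : ℝ) ^ 2 * (((Q : ℝ) ^ τ) ^ 2) ^ 2) := by
    calc ((X' : ℝ) ^ D) ^ 2 ≤ (2 ^ D * (X * (Q : ℝ) ^ τ)) ^ 2 := pow_le_pow_left₀ (by positivity) hX' 2
      _ ≤ (2 ^ D * ((X1 * (Q : ℝ) ^ τ) * (Q : ℝ) ^ τ)) ^ 2 := by
          refine pow_le_pow_left₀ (by positivity) ?_ 2
          refine mul_le_mul_of_nonneg_left ?_ (by positivity)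
          exact mul_le_mul_of_nonneg_right hX hQτ0.le
      _ = _ := by ring
  have h4 : (X' : ℝ) ^ (1 + 2 * (D : ℝ) - D * δ) = X' * ((X' : ℝ) ^ D) ^ 2 * ((X' : ℝ) ^ D) ^ (-δ) := by
    rw [show (1 + 2 * (D : ℝ) - D * δ) = 1 + (D : ℝ) * 2 + (D : ℝ) * (-δ) by ring, Real.rpow_add hX'0, Real.rpow_add hX'0,
      Real.rpow_one, Real.rpow_mul hX'0.le, Real.rpow_mul hX'0.le, Real.rpow_natCast, Real.rpow_two]
  have h5 : ((X' : ℝ) ^ D) ^ (-δ) ≤ (X : ℝ) ^ (-δ) := Real.rpow_le_rpow_of_nonpos hX0 hXX' (by linarith)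
  have h6 : (X : ℝ) ^ (δ / 4) * (X : ℝ) ^ (-δ) ≤ (Q : ℝ) ^ (-(3 * δ / 4)) := by
    rw [← Real.rpow_add hX0]
    calc (X : ℝ) ^ (δ / 4 + -δ) ≤ (Q : ℝ) ^ (δ / 4 + -δ) := Real.rpow_le_rpow_of_nonpos hQ0 hQXr (by linarith)
      _ = _ := by congr 1; ring
  have h7 := hQ1 Q ((le_max_right _ _).trans hQ)
  have h8 : (((Q : ℝ) ^ τ) ^ 2) * (((Q : ℝ) ^ τ) ^ 2) ^ 2 = (Q : ℝ) ^ (τ * 6) := by
    rw [Real.rpow_mul hQ0.le, show (6 : ℝ) = ((6 : ℕ) : ℝ) by norm_num, Real.rpow_natCast]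
    ring
  rw [h4]
  calc (k : ℝ) ^ 2 * (X : ℝ) ^ (δ / 4) * (X' * ((X' : ℝ) ^ D) ^ 2 * ((X' : ℝ) ^ D) ^ (-δ))
      ≤ (k : ℝ) ^ 2 * (X : ℝ) ^ (δ / 4) * ((2 * ((Q : ℝ) ^ τ) ^ 2 * s) * ((2 ^ D) ^ 2 * ((X1 : ℝ) ^ 2 * (((Q : ℝ) ^ τ) ^ 2) ^ 2)) *
          (X : ℝ) ^ (-δ)) := by
        refine mul_le_mul_of_nonneg_left ?_ (by positivity)
        exact mul_le_mul (mul_le_mul h1 h3 (by positivity) (by positivity)) h5 (by positivity) (by positivity)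
    _ = ((k : ℝ) ^ 2 * (2 * (2 ^ D) ^ 2)) * ((X1 : ℝ) ^ 2 * s) * ((((Q : ℝ) ^ τ) ^ 2) * (((Q : ℝ) ^ τ) ^ 2) ^ 2) *
          ((X : ℝ) ^ (δ / 4) * (X : ℝ) ^ (-δ)) := by ring
    _ ≤ (Q : ℝ) ^ (δ / 4) * ((X1 : ℝ) ^ 2 * s) * (Q : ℝ) ^ (τ * 6) * (Q : ℝ) ^ (-(3 * δ / 4)) := by
        rw [h8]
        refine mul_le_mul (mul_le_mul_of_nonneg_right (mul_le_mul_of_nonneg_right h7 (by positivity)) (by positivity)) h6
          (by positivity) (by positivity)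
    _ = ((X1 : ℝ) ^ 2 * s) * ((Q : ℝ) ^ (δ / 4) * (Q : ℝ) ^ (τ * 6) * (Q : ℝ) ^ (-(3 * δ / 4))) := by ring
    _ = ((X1 : ℝ) ^ 2 * s) * (Q : ℝ) ^ (δ / 4 + τ * 6 + -(3 * δ / 4)) := by
        rw [← Real.rpow_add hQ0, ← Real.rpow_add hQ0]
    _ ≤ _ := by
        refine mul_le_mul_of_nonneg_left (Real.rpow_le_rpow_of_exponent_le hQr ?_) (by positivity)
        linarith

/-- One term. -/
theorem g4_term {k : ℕ} (D : ℕ) (f : Fin k → ℤ) (hD : 1 ≤ D) (R : Fin k → ℤ[X]) (j : Fin k) (m : ℕ) (hm : 1 ≤ m) (κ δ : ℝ)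
    (Q X1 X' : ℕ) (M : Fin k → ℕ) (t0 s : ℕ)
    (hF : ∀ β : Fin k → ℤ, ∀ n1 σ : ℕ, σ ≤ 4 * X' ^ D → ∀ t0 N : ℕ, N ≤ 4 * X' → ∀ w : ℕ → ℂ, (∀ n, ‖w n‖ ≤ 1) →
      ∀ F : Fin k → ℤ → ℂ, (∀ i m, ‖F i m‖ ≤ 1) →
      (∀ (i : Fin k) (m : ℤ), m ∉ Ico (-((4 * X' ^ D : ℕ) : ℤ)) ((4 * X' ^ D : ℕ) : ℤ) → F i m = 0) →
      Pool.Agent.HUK.GG (4 * X' ^ D) m (F j) ≤ (X' : ℝ) ^ ((D : ℝ) * (m + 1) - κ) →
      ∑ t ∈ Ico t0 (t0 + N), ‖∑ n ∈ Ico n1 (n1 + σ), w n * ∏ i, F i (f i * (n : ℤ) + ((R i).eval (t : ℤ) + β i))‖ ^ 2 ≤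
        (X' : ℝ) ^ (1 + 2 * (D : ℝ) - δ))
    (hκ : 0 < κ) (hX'1 : 1 ≤ X') (hX1X' : X1 ≤ X' ^ D) (hsX : s ≤ X') (hYX : ∀ i, Ysc (M i) ≤ X' ^ D)
    (W : ℝ) (hW : 1 ≤ W) (hW2 : ∀ i, ∀ m ∈ JJ (Ysc (M i)), |lp m| ≤ W / 2 ∧ |Lk Q (Ysc (M i) / Q ^ 2) m| ≤ W / 2)
    (hG : Pool.Agent.HUK.GG (4 * Ysc (M j)) m (cutJ (Ysc (M j)) (Er Q Q (Ysc (M j)))) ≤ (Ysc (M j) : ℝ) ^ ((m : ℝ) + 1 - κ))
    (hY1 : 1 ≤ Ysc (M j)) (hκ1 : κ ≤ 1)
    (hval : ∀ t ∈ Ico t0 (t0 + s), ∀ n ∈ Ico X1 (2 * X1), ∀ i, f i * (n : ℤ) + (R i).eval (t : ℤ) ∈ JJ (Ysc (M i)))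
    (hnn : ∀ t ∈ Ico t0 (t0 + s), ∀ i, 0 ≤ (R i).eval (t : ℤ))
    (w : ℕ → ℝ) (hw : ∀ n ∈ Ico X1 (2 * X1), |w n| ≤ W) :
    ∑ t ∈ Ico t0 (t0 + s), (∑ n ∈ Ico X1 (2 * X1), w n * ∏ i, s4tf Q M j i ((lX f i).eval (n : ℤ) + gR R t i)) ^ 2 ≤
      W ^ (2 * (k + 1)) * (X' : ℝ) ^ (1 + 2 * (D : ℝ) - δ) := by
  classical
  have hW0 : 0 < W := by linarith
  have hX'r : (1 : ℝ) ≤ X' := by exact_mod_cast hX'1
  -- bounds of the normalised functions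
  have hf1 : ∀ (i : Fin k) (m : ℤ), ‖s4tg W Q M j i m‖ ≤ 1 := by
    intro i m
    unfold s4tg
    by_cases h : m ∈ JJ (Ysc (M i))
    · rw [if_pos h, Complex.norm_real, Real.norm_eq_abs, abs_div, abs_of_pos hW0, div_le_one hW0]
      obtain ⟨h1, h2⟩ := hW2 i m h
      unfold s4tf
      split_ifs
      · linarith
      · refine le_trans (abs_sub _ _) ?_
        linarith
      · linarith
    · rw [if_neg h, norm_zero]
      exact zero_le_one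
  have hf2 : ∀ (i : Fin k) (m : ℤ), m ∉ Ico (-((4 * X' ^ D : ℕ) : ℤ)) ((4 * X' ^ D : ℕ) : ℤ) → s4tg W Q M j i m = 0 := by
    intro i m hm
    unfold s4tg
    rw [if_neg]
    intro h
    apply hm
    have h1 := s4b_JJ h
    have h2 : ((Ysc (M i) : ℕ) : ℤ) ≤ ((X' ^ D : ℕ) : ℤ) := by exact_mod_cast hYX i
    rw [mem_Ico]
    push_cast at h2 ⊢
    constructor
    · have : (0 : ℤ) ≤ (X' : ℤ) ^ D := by positivity
      omega
    · omega
  have hSpt : Spt (4 * Ysc (M j)) (cutJ (Ysc (M j)) (Er Q Q (Ysc (M j)))) := by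
    intro y hy
    unfold cutJ
    rw [if_neg]
    intro h
    apply hy
    have h1 := s4b_JJ h
    rw [mem_Ico]
    push_cast
    omega
  have hGf : Pool.Agent.HUK.GG (4 * X' ^ D) m (s4tg W Q M j j) ≤ (X' : ℝ) ^ ((D : ℝ) * (m + 1) - κ) := by
    have e1 : s4tg W Q M j j = fun y => ((1 / W : ℝ) : ℂ) * cutJ (Ysc (M j)) (Er Q Q (Ysc (M j))) y :=
      funext fun y => s4tg_cut W Q M j y
    have e2 : Spt (4 * Ysc (M j)) (s4tg W Q M j j) := by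
      intro y hy
      rw [e1]
      show _ * cutJ (Ysc (M j)) (Er Q Q (Ysc (M j))) y = 0
      rw [hSpt y hy, mul_zero]
    rw [s4t_win (4 * X' ^ D) (4 * Ysc (M j)) m _ (hf2 j) e2, e1]
    refine le_trans (s4t_scale _ _ (by omega) (1 / W) (by positivity) (by rw [div_le_one hW0]; exact hW) _ hSpt) ?_
    refine le_trans hG ?_
    have hYr : (1 : ℝ) ≤ Ysc (M j) := by exact_mod_cast hY1
    have hYX' : (Ysc (M j) : ℝ) ≤ (X' : ℝ) ^ D := by exact_mod_cast hYX j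
    have hmr : (1 : ℝ) ≤ m := by exact_mod_cast hm
    have hDr : (1 : ℝ) ≤ D := by exact_mod_cast hD
    calc (Ysc (M j) : ℝ) ^ ((m : ℝ) + 1 - κ) ≤ ((X' : ℝ) ^ D) ^ ((m : ℝ) + 1 - κ) :=
          Real.rpow_le_rpow (by linarith) hYX' (by linarith)
      _ = (X' : ℝ) ^ ((D : ℝ) * ((m : ℝ) + 1 - κ)) := by
          rw [← Real.rpow_natCast, ← Real.rpow_mul (by linarith)]
      _ ≤ _ := by
          refine Real.rpow_le_rpow_of_exponent_le hX'r ?_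
          nlinarith
  have hmain := hF 0 X1 X1 (hX1X'.trans (by omega)) t0 s (hsX.trans (by omega))
    (fun n => if n ∈ Ico X1 (2 * X1) then ((w n / W : ℝ) : ℂ) else 0) (fun n => by
      by_cases h : n ∈ Ico X1 (2 * X1)
      · rw [if_pos h, Complex.norm_real, Real.norm_eq_abs, abs_div, abs_of_pos hW0, div_le_one hW0]
        exact hw n h
      · rw [if_neg h, norm_zero]
        exact zero_le_one) (fun i => s4tg W Q M j i) hf1 hf2 hGf
  have hterm : ∀ t ∈ Ico t0 (t0 + s), (∑ n ∈ Ico X1 (2 * X1), w n * ∏ i, s4tf Q M j i ((lX f i).eval (n : ℤ) + gR R t i)) ^ 2 =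
      W ^ (2 * (k + 1)) * ‖∑ n ∈ Ico X1 (X1 + X1), (if n ∈ Ico X1 (2 * X1) then ((w n / W : ℝ) : ℂ) else 0) *
        ∏ i, s4tg W Q M j i (f i * (n : ℤ) + ((R i).eval (t : ℤ) + (0 : Fin k → ℤ) i))‖ ^ 2 := by
    intro t ht
    have e1 : ∑ n ∈ Ico X1 (X1 + X1), (if n ∈ Ico X1 (2 * X1) then ((w n / W : ℝ) : ℂ) else 0) *
        ∏ i, s4tg W Q M j i (f i * (n : ℤ) + ((R i).eval (t : ℤ) + (0 : Fin k → ℤ) i)) =
        (((∑ n ∈ Ico X1 (2 * X1), w n * ∏ i, s4tf Q M j i ((lX f i).eval (n : ℤ) + gR R t i)) / W ^ (k + 1) : ℝ) : ℂ) := by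
      rw [← two_mul, Finset.sum_div, Complex.ofReal_sum]
      refine Finset.sum_congr rfl fun n hn => ?_
      rw [if_pos hn]
      have e2 : ∀ i, s4tg W Q M j i (f i * (n : ℤ) + ((R i).eval (t : ℤ) + (0 : Fin k → ℤ) i)) =
          (((s4tf Q M j i ((lX f i).eval (n : ℤ) + gR R t i)) / W : ℝ) : ℂ) := by
        intro i
        have e3 : ((gR R t i : ℕ) : ℤ) = (R i).eval (t : ℤ) := by
          unfold gR
          exact Int.toNat_of_nonneg (hnn t ht i)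
        have e4 : (lX f i).eval (n : ℤ) = f i * (n : ℤ) := by
          unfold lX
          rw [eval_mul, eval_C, eval_X]
        rw [e3, e4, Pi.zero_apply, add_zero]
        unfold s4tg
        rw [if_pos (hval t ht n hn i)]
      rw [Finset.prod_congr rfl fun i _ => e2 i, ← Complex.ofReal_prod, ← Complex.ofReal_mul, Finset.prod_div_distrib,
        Finset.prod_const, Finset.card_univ, Fintype.card_fin]
      congr 1
      rw [pow_succ]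
      field_simp
    rw [e1, Complex.norm_real, Real.norm_eq_abs, sq_abs, div_pow, ← pow_mul, mul_comm 2 (k + 1)]
    field_simp
  rw [Finset.sum_congr rfl hterm, ← Finset.mul_sum]
  exact mul_le_mul_of_nonneg_left hmain (by positivity)

/-- **G4** (port of `S4T_of`, HUP/S4T.lean, helper37). Proof. Telescoping over the coordinates as in `H24P/S4.lean`; one factor is `lp - Lk` cut to the window
(`Er Q Q Y` in the notation of `HUK/IDE`, `PK s` with `Q' = Q`, scale `Y = Ysc (M i)`, window and translation by `w4_GG` of HUP/W4), the factors before it are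
`lp` (at most `log`), those after it `Lk` (at most `Q^ε`, `R13_dQ` and `S1b`), the weight `w` at most `(log X)²`; normalise all to `1`. `SMR` at the scale
`X' = ⌈(X Q^(τ'))^(1/D)⌉` (`s ≤ C0 X'`, `X1 ≤ C0 X'^D`, all values in an interval of length `C0 X'^D`: shift by `β_i`). -/
theorem G4_S4R {k : ℕ} (D : ℕ) (f a : Fin k → ℤ) (hG : GD D f a) (hS : SMR D f a) (hPK : ∀ m : ℕ, 2 ≤ m → PK m) :
    S4R D f a := by
  classical
  have hD1 : 1 ≤ D := hG.D1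
  have hDr : (1 : ℝ) ≤ D := by exact_mod_cast hD1
  have hDr0 : (0 : ℝ) < D := by linarith
  have hdeg : ∀ i, (lX f i).natDegree = 1 := by
    intro i
    unfold lX
    exact natDegree_C_mul_X _ (by have := hG.f1 i; omega)
  choose sm hsm hFs using fun j => hS j 4
  choose Kp hKp hPKs using fun j => hPK (sm j) (hsm j)
  obtain ⟨K2, hK2, hsize⟩ := Pool.Agent.H9U.U0_size
  have hKs : 0 ≤ ∑ j, Kp j := Finset.sum_nonneg fun j _ => zero_le_one.trans (hKp j)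
  obtain ⟨K0, hK0⟩ : ∃ K0 : ℝ, K0 = K2 + ∑ j, Kp j := ⟨_, rfl⟩
  have hK01 : 1 ≤ K0 := by rw [hK0]; linarith
  have hKle : ∀ j, Kp j ≤ K0 := by
    intro j
    have := s4u_le_sum Kp (fun j => zero_le_one.trans (hKp j)) j
    rw [hK0]
    linarith
  refine ⟨K0 + 1, 2000 * ∑ i, (f i).natAbs + 2, by linarith, fun C => ?_⟩
  obtain ⟨Cr, hCr⟩ : ∃ Cr : ℝ, Cr = 2 * max C 1 := ⟨_, rfl⟩
  have hCr1 : 1 ≤ Cr := by
    rw [hCr]
    have h1 := le_max_right C 1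
    nlinarith
  choose κp hκp hκp1 Xp hXp using fun j => hPKs j Cr (1 / Cr) hCr1 (by positivity)
  choose δp hδp Xf hXf using fun j => hFs j (κp j) (hκp j)
  obtain ⟨δ1, hδ1, hδle1⟩ := s4u_min δp hδp
  obtain ⟨δ, hδe⟩ : ∃ δ : ℝ, δ = δ1 / D := ⟨_, rfl⟩
  have hδ : 0 < δ := by rw [hδe]; positivity
  have hδle : ∀ j, D * δ ≤ δp j := by
    intro j
    rw [hδe, mul_div_cancel₀ _ hDr0.ne']
    exact hδle1 j
  obtain ⟨τ, hτ⟩ : ∃ τ : ℝ, τ = min 1 (δ / 24) := ⟨_, rfl⟩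
  have hτ0 : 0 < τ := by rw [hτ]; exact lt_min one_pos (by positivity)
  have hτ1 : τ ≤ 1 := by rw [hτ]; exact min_le_left _ _
  have hτδ : τ * 6 ≤ δ / 4 := by
    have h1 : τ ≤ δ / 24 := by rw [hτ]; exact min_le_right _ _
    linarith
  obtain ⟨ε', hε'⟩ : ∃ ε' : ℝ, ε' = δ / (8 * ((k : ℝ) + 1)) := ⟨_, rfl⟩
  have hε'0 : 0 < ε' := by rw [hε']; positivity
  obtain ⟨ε, hε⟩ : ∃ ε : ℝ, ε = ε' / 4 := ⟨_, rfl⟩
  have hε0 : 0 < ε := by rw [hε]; positivity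
  obtain ⟨Xs, hXs⟩ := hsize ε hε0
  obtain ⟨Xl, hXl⟩ := Pool.Agent.H9U.U0_lp ε hε0
  obtain ⟨Qn, hQn1, hQn⟩ := g4_num k D hD1 δ τ hδ hτ0 hτδ
  obtain ⟨Qg, hQg1, hQg⟩ := G1_log 1 2 1 ε' hε'0
  obtain ⟨Xa, hXa⟩ := s4a_large 4 (ε' / 2) (by positivity)
  obtain ⟨Qr, hQr⟩ := G2_reg (lX f) (fun i => by rw [hdeg i]) K0 C hK01
  refine ⟨τ, δ / 4, hτ0, hτ1, by positivity, 80 + Qn + Qr + Xs + Xl + Xa + Qg + ∑ j, Xp j + (∑ j, Xf j) ^ D, ?_⟩
  intro Q X X1 M R t0 s hQ hR hRg hGeo hXX1 hMX hs1 hs2 _ hval w hw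
  have hXpj : ∀ j, Xp j ≤ ∑ j, Xp j := fun j => s4t_le_sum Xp j
  have hXfj : ∀ j, Xf j ≤ ∑ j, Xf j := fun j => s4t_le_sum Xf j
  have hQ80 : 80 ≤ Q := by omega
  have hQ1 : 1 ≤ Q := by omega
  have hQr1 : (1 : ℝ) ≤ Q := by exact_mod_cast hQ1
  have hQr0 : (0 : ℝ) < Q := by linarith
  have hX1pos : 1 ≤ X1 := hGeo.pos
  have hX1r : (1 : ℝ) ≤ X1 := by exact_mod_cast hX1pos
  have hXX : X1 ≤ X := hGeo.le
  have hXr1 : (1 : ℝ) ≤ X := by exact_mod_cast hX1pos.trans hXX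
  have hXr0 : (0 : ℝ) < X := by linarith
  have hlQ : 0 ≤ Real.log Q := Real.log_nonneg hQr1
  have hlX : 0 ≤ Real.log X := Real.log_nonneg hXr1
  have hQQX : (Q : ℝ) ^ 2 ≤ X := by
    rw [← Real.log_le_log_iff (by positivity) hXr0, Real.log_pow]
    have h1 := hRg.1
    push_cast
    nlinarith
  have hQX1 : (Q : ℝ) ≤ X1 := by
    have h1 : (X : ℝ) ≤ X1 * Q := by exact_mod_cast hGeo.ge
    nlinarith
  have hQX1n : Q ≤ X1 := by exact_mod_cast hQX1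
  have hreg := hQr _ Q X X1 M (by omega) (by omega) hRg hGeo
  have hYX1 : ∀ i, X1 ≤ Ysc (M i) := fun i => (hreg i).2.1
  have hYQ : ∀ i, Q ≤ Ysc (M i) := fun i => hQX1n.trans (hYX1 i)
  have hYr : ∀ i, (1 : ℝ) ≤ Ysc (M i) := fun i => by exact_mod_cast hQ1.trans (hYQ i)
  have hYlog : ∀ i, Real.log (Ysc (M i)) ≤ 2 * Real.log X := by
    intro i
    have h1 := (hreg i).2.2
    rw [hdeg i] at h1
    push_cast at h1
    linarith
  -- the auxiliary scale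
  have hQτ1 : 1 ≤ (Q : ℝ) ^ τ := Real.one_le_rpow hQr1 hτ0.le
  obtain ⟨V, hV⟩ : ∃ V : ℝ, V = (X : ℝ) * (Q : ℝ) ^ τ := ⟨_, rfl⟩
  have hV1 : 1 ≤ V := by rw [hV]; nlinarith
  have hXV : (X : ℝ) ≤ V := by rw [hV]; nlinarith
  obtain ⟨v, hv⟩ : ∃ v : ℝ, v = V ^ ((1 : ℝ) / D) := ⟨_, rfl⟩
  have hvD : v ^ D = V := by
    rw [hv, ← Real.rpow_natCast, ← Real.rpow_mul (by linarith), one_div, inv_mul_cancel₀ hDr0.ne', Real.rpow_one]
  have hv1 : 1 ≤ v := by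
    rw [hv]
    exact Real.one_le_rpow hV1 (by positivity)
  obtain ⟨X', hX'⟩ : ∃ X' : ℕ, X' = ⌈v⌉₊ := ⟨_, rfl⟩
  have hX'lo : v ≤ X' := by rw [hX']; exact Nat.le_ceil _
  have hX'hi : (X' : ℝ) ≤ 2 * v := by
    have h1 := Nat.ceil_lt_add_one (show (0 : ℝ) ≤ v by linarith)
    rw [← hX'] at h1
    linarith
  have hX'D : V ≤ (X' : ℝ) ^ D := by
    rw [← hvD]
    exact pow_le_pow_left₀ (by linarith) hX'lo _
  have hX'D2 : (X' : ℝ) ^ D ≤ 2 ^ D * (X * (Q : ℝ) ^ τ) := by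
    rw [← hV, ← hvD, ← mul_pow]
    exact pow_le_pow_left₀ (by positivity) hX'hi _
  have hX'1 : 1 ≤ X' := by
    have : (1 : ℝ) ≤ X' := hv1.trans hX'lo
    exact_mod_cast this
  have hXX' : X ≤ X' ^ D := by
    have : (X : ℝ) ≤ (X' : ℝ) ^ D := hXV.trans hX'D
    exact_mod_cast this
  have hsX : s ≤ X' := by
    have h1 : (s : ℝ) ^ D ≤ (X' : ℝ) ^ D := by
      refine hs2.trans (le_trans (le_of_eq ?_) hX'D)
      rw [hV, mul_comm]
    have h2 : (s : ℝ) ≤ X' := le_of_pow_le_pow_left₀ (by omega) (by positivity) h1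
    exact_mod_cast h2
  have hYM : ∀ i, (Ysc (M i) : ℝ) ≤ M i := by
    intro i
    have : Ysc (M i) ≤ M i := by
      unfold Ysc
      omega
    exact_mod_cast this
  have hYX : ∀ i, Ysc (M i) ≤ X' ^ D := by
    intro i
    have h1 : (Ysc (M i) : ℝ) ≤ (X' : ℝ) ^ D := by
      refine ((hYM i).trans (hMX i)).trans (le_trans ?_ hX'D)
      rw [hV]
      exact mul_le_mul_of_nonneg_right (by exact_mod_cast hXX) (by linarith)
    exact_mod_cast h1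
  -- the size of the functions
  obtain ⟨W, hW⟩ : ∃ W : ℝ, W = (X : ℝ) ^ ε' := ⟨_, rfl⟩
  have hW1 : 1 ≤ W := by rw [hW]; exact Real.one_le_rpow hXr1 hε'0.le
  have hYε : ∀ i, (Ysc (M i) : ℝ) ^ ε ≤ W / 2 := by
    intro i
    have hY0 : (0 : ℝ) < Ysc (M i) := by linarith [hYr i]
    have h1 : (Ysc (M i) : ℝ) ^ ε ≤ (X : ℝ) ^ (ε' / 2) := by
      rw [Real.rpow_def_of_pos hY0, Real.rpow_def_of_pos hXr0, Real.exp_le_exp]
      calc Real.log (Ysc (M i)) * ε ≤ 2 * Real.log X * ε := mul_le_mul_of_nonneg_right (hYlog i) hε0.le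
        _ = Real.log X * (ε' / 2) := by rw [hε]; ring
    have h2 := hXa X (by have : (Q : ℝ) ≤ X := by nlinarith
                         have : Q ≤ X := by exact_mod_cast this
                         omega)
    have h3 : W = (X : ℝ) ^ (ε' / 2) * (X : ℝ) ^ (ε' / 2) := by
      rw [hW, ← Real.rpow_add hXr0]
      congr 1
      ring
    have h4 : 0 < (X : ℝ) ^ (ε' / 2) := by positivity
    rw [h3]
    nlinarith
  have hQXn : Q ≤ X := hQX1n.trans hXX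
  have hW2 : ∀ i, ∀ m ∈ JJ (Ysc (M i)), |lp m| ≤ W / 2 ∧ |Lk Q (Ysc (M i) / Q ^ 2) m| ≤ W / 2 := by
    intro i m hm
    obtain ⟨h1, h2⟩ := s4t_JJ hm
    have h3 := hYQ i
    constructor
    · exact (hXl (Ysc (M i)) (by omega) m h2).trans (hYε i)
    · exact (hXs Q Q (Ysc (M i)) (by omega) ((hreg i).1.mono (by linarith) (by rw [hK0]; linarith)) hQ1 le_rfl m h1 h2).trans (hYε i)
  have hwW : ∀ n ∈ Ico X1 (2 * X1), |w n| ≤ W := by
    intro n hn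
    refine (hw n hn).trans ?_
    have h1 := hQg X X (by omega) (by linarith)
    rw [one_mul] at h1
    rw [hW]
    exact h1
  have hnn : ∀ t ∈ Ico t0 (t0 + s), ∀ i, 0 ≤ (R i).eval (t : ℤ) := by
    intro t ht i
    have h1 := (hval t ht i).1
    have h2 : (0 : ℤ) ≤ M i := by positivity
    omega
  have hval' : ∀ t ∈ Ico t0 (t0 + s), ∀ n ∈ Ico X1 (2 * X1), ∀ i, f i * (n : ℤ) + (R i).eval (t : ℤ) ∈ JJ (Ysc (M i)) := by
    intro t ht n hn i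
    rw [mem_Ico] at hn
    have h8 : 8 ∣ M i := (dvd_mul_right _ _).trans (hGeo.dvdM i)
    have h80 : 80 ≤ M i := by
      have h1 := hYQ i
      unfold Ysc at h1
      omega
    have hlin : 1000 * |f i * (n : ℤ)| ≤ M i := by
      have h1 := hGeo.lo i
      rw [hdeg i, pow_one] at h1
      have h2 : (f i).natAbs ≤ ∑ i, (f i).natAbs := s4t_le_sum (fun i => (f i).natAbs) i
      have h3 : 1000 * ((f i).natAbs * n) ≤ M i := by
        refine le_trans ?_ h1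
        calc 1000 * ((f i).natAbs * n) ≤ 1000 * ((∑ i, (f i).natAbs) * (2 * X1)) := by
              refine Nat.mul_le_mul_left _ (Nat.mul_le_mul h2 (by omega))
          _ = 2000 * (∑ i, (f i).natAbs) * X1 := by ring
          _ ≤ _ := Nat.mul_le_mul_right _ (by omega)
      have h4 : |f i * (n : ℤ)| = (((f i).natAbs * n : ℕ) : ℤ) := by
        rw [abs_mul, Nat.abs_cast]
        push_cast
        rfl
      rw [h4]
      exact_mod_cast h3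
    exact s4t_val (M i) _ _ h8 h80 hlin (hval t ht i).1 (hval t ht i).2
  have hX'r : (1 : ℝ) ≤ X' := by exact_mod_cast hX'1
  have hXfX' : ∑ j, Xf j ≤ X' := by
    have h1 : (∑ j, Xf j) ^ D ≤ X' ^ D := le_trans (by omega) (hQXn.trans hXX')
    exact le_of_pow_le_pow_left₀ (by omega) (by omega) h1
  have hterm : ∀ j, ∑ t ∈ Ico t0 (t0 + s), (∑ n ∈ Ico X1 (2 * X1), w n * ∏ i, s4tf Q M j i ((lX f i).eval (n : ℤ) + gR R t i)) ^ 2 ≤
      W ^ (2 * (k + 1)) * (X' : ℝ) ^ (1 + 2 * (D : ℝ) - D * δ) := by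
    intro j
    have h1 := hXfj j
    have h2 := hXpj j
    have h3 := hYQ j
    have hreg1 : Rgm (Kp j) Cr (1 / Cr) Q Q (Ysc (M j)) := by
      have hlog : Real.log (Ysc (M j)) ≤ Cr * Real.log Q := by
        calc Real.log (Ysc (M j)) ≤ 2 * Real.log X := hYlog j
          _ ≤ 2 * (max C 1 * Real.log Q) := by
              refine mul_le_mul_of_nonneg_left (hRg.2.trans (mul_le_mul_of_nonneg_right (le_max_left _ _) hlQ)) (by positivity)
          _ = _ := by rw [hCr]; ring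
      refine ⟨(hreg j).1.mono (by linarith) (hKle j), hlog, ?_, le_rfl⟩
      have hY0 : (0 : ℝ) < Ysc (M j) := by linarith [hYr j]
      rw [Real.rpow_def_of_pos hY0, ← Real.le_log_iff_exp_le hQr0, mul_one_div, div_le_iff₀ (by linarith)]
      linarith
    have hPKj := hXp j Q Q (Ysc (M j)) (by omega) hreg1
    have hFj := hXf j X' (by omega) R hR
    refine le_trans (g4_term D f hD1 R j (sm j) (by have := hsm j; omega) (κp j) (δp j) Q X1 X' M t0 s hFj (hκp j) hX'1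
      (hXX.trans hXX') hsX hYX W hW1 hW2 hPKj (hQ1.trans h3) (hκp1 j) hval' hnn w hwW) ?_
    refine mul_le_mul_of_nonneg_left ?_ (by positivity)
    refine Real.rpow_le_rpow_of_exponent_le hX'r ?_
    linarith [hδle j]
  have hsum : ∑ t ∈ Ico t0 (t0 + s), (∑ n ∈ Ico X1 (2 * X1), w n * ∏ i, lp ((lX f i).eval (n : ℤ) + gR R t i) -
      Rw Q X1 (lX f) M w (gR R t)) ^ 2 ≤ k * (k * (W ^ (2 * (k + 1)) * (X' : ℝ) ^ (1 + 2 * (D : ℝ) - D * δ))) := by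
    calc ∑ t ∈ Ico t0 (t0 + s), (∑ n ∈ Ico X1 (2 * X1), w n * ∏ i, lp ((lX f i).eval (n : ℤ) + gR R t i) -
        Rw Q X1 (lX f) M w (gR R t)) ^ 2
        ≤ ∑ t ∈ Ico t0 (t0 + s), (k : ℝ) * ∑ j, (∑ n ∈ Ico X1 (2 * X1), w n *
          ∏ i, s4tf Q M j i ((lX f i).eval (n : ℤ) + gR R t i)) ^ 2 := by
          refine Finset.sum_le_sum fun t ht => ?_
          rw [s4t_tel (lX f) Q X1 M w (gR R t)]
          refine sq_sum_le_card_mul_sum_sq.trans (le_of_eq ?_)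
          rw [Finset.card_univ, Fintype.card_fin]
      _ = (k : ℝ) * ∑ j, ∑ t ∈ Ico t0 (t0 + s), (∑ n ∈ Ico X1 (2 * X1), w n *
          ∏ i, s4tf Q M j i ((lX f i).eval (n : ℤ) + gR R t i)) ^ 2 := by
          rw [← Finset.mul_sum, Finset.sum_comm]
      _ ≤ (k : ℝ) * ∑ _j : Fin k, (W ^ (2 * (k + 1)) * (X' : ℝ) ^ (1 + 2 * (D : ℝ) - D * δ)) :=
          mul_le_mul_of_nonneg_left (Finset.sum_le_sum fun j _ => hterm j) (Nat.cast_nonneg k)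
      _ = _ := by
          rw [Finset.sum_const, Finset.card_univ, Fintype.card_fin, nsmul_eq_mul]
  refine hsum.trans ?_
  have hWp : W ^ (2 * (k + 1)) = (X : ℝ) ^ (δ / 4) := by
    rw [hW, ← Real.rpow_natCast, ← Real.rpow_mul hXr0.le]
    congr 1
    rw [hε']
    push_cast
    field_simp
    norm_num
  have hnum := hQn Q X X1 X' s (by omega) hQXn hXX1 hX'1 hX'D2 (by exact_mod_cast hXX') hs1
  rw [hWp]
  refine le_trans (le_of_eq ?_) hnum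
  ring

end Pool.Agent.HPG
end

-- from Lib.HPG.G7
section

/-!
# Project HPG, chunk G7 (M/L): covering of the range of `t`
-/

open Finset Polynomial

namespace Pool.Agent.HPG

open Pool.Agent.Lib.H68T Pool.Agent.Lib.H18Q Pool.Agent.Lib.H59P Pool.Agent.Lib.H24P
open Pool.Agent.HUP

/-- **G7** (compare `R20_cover`, HUP/R20.lean, and its `r20_num`, `r20_M`). Proof. `V` from `G5_var` (with `Bd = A + 2`), `C6` from `G6_sub`. Let
`T ≥ Cv`, `Cv T² q ≤ U`, `s = q ⌊U/(q T)⌋`, so `U/(2T) ≤ s ≤ U/T ≤ U`, `q ∣ s`. The cells `Ico (u s) (u s + s)`, `u ≤ A U / s`, cover `range (A U + 1)`;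
`(number of cells) s ≤ A U + s ≤ (A+2) U`, every cell ends at most at `(A+2) U`. Set `w = √T`, `Y = 2 Z/w`. (i) The `t ≤ A U` with `|R_i(t)| < Y` for some
`i`: `G6_sub` (`W = ⌈Y⌉ ≤ 3Z/w`), `card^D ≤ 3 C6 Z/w ≤ 3 C6 A U^D/w`, `card ≤ 3 C6 A U T^(-1/(2D))`, times `k`. (ii) Every other `t` with `R_i(t) ≥ 0`
for all `i` is in a cell; on it `|R_i(t') - R_i(t'')| ≤ V U^(D-1) s ≤ V U^D/T ≤ V A Z/T`. With `v_i = R_i(u s)` (`≥ Y - V A Z/T ≥ Z/w`) and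
`M_i = q ⌊5 v_i/(8q)⌋` (`r20_M`), `r20_num` (`C1 = V A`, `Zd = Z`, `q (2500 w⁴) ≤ Z` from `Cv T² q ≤ U ≤ U^D ≤ A Z`) gives `Z ≤ T M_i` and `Mid R M t'` on the
whole cell; `M_i ≤ v_i ≤ V U^D ≤ V A Z`. Hypothesis for these cells; sum. -/
theorem G7_cover {k : ℕ} (D : ℕ) (hD : 1 ≤ D) (a : Fin k → ℤ) (A : ℕ) (hA : 1 ≤ A) : ∃ Cv : ℕ, 1 ≤ Cv ∧
    ∀ (Z U q : ℕ) (T δ : ℝ), 1 ≤ q → (Cv : ℝ) ≤ T → 0 ≤ δ → Cv * T ^ 2 * q ≤ U → U ^ D ≤ A * Z → Z ≤ A * U ^ D →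
    ∀ R : Fin k → ℤ[X], HD D a R → Cb D A U R → ∀ (E : ℕ → Prop) [DecidablePred E],
    (∀ (M : Fin k → ℕ) (t0 s : ℕ), (∀ i, q ∣ M i) → q ∣ s → (∀ i, (Z : ℝ) ≤ T * M i) → (∀ i, (M i : ℝ) ≤ Cv * Z) →
      (U : ℝ) ≤ 2 * T * s → s ≤ U → t0 + s ≤ (A + 2) * U → (∀ t ∈ Ico t0 (t0 + s), Mid R M t) →
      (((Ico t0 (t0 + s)).filter E).card : ℝ) ≤ s * δ) →
    (((range (A * U + 1)).filter fun t : ℕ => (∀ i, 0 ≤ (R i).eval (t : ℤ)) ∧ E t).card : ℝ) ≤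
      Cv * (T ^ (-(1 / (2 * (D : ℝ)))) + δ) * U := by
  classical
  obtain ⟨V, hV1, hV⟩ := G5_var D A (A + 2) hD
  obtain ⟨C6, hC61, hC6⟩ := G6_sub D hD
  obtain ⟨C1, hC1⟩ : ∃ C1 : ℕ, C1 = V * A := ⟨_, rfl⟩
  have hC1' : 1 ≤ C1 := by
    rw [hC1]
    exact Nat.mul_pos hV1 hA
  obtain ⟨Cv, hCv⟩ : ∃ Cv : ℕ, Cv = 2500 * C1 ^ 2 + 2500 * A + C1 + k * (3 * C6 * A) + 2 * A := ⟨_, rfl⟩
  have hCa : 2500 * C1 ^ 2 ≤ Cv := by rw [hCv]; omega
  have hCe : 2500 * A ≤ Cv := by rw [hCv]; omega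
  have hCb1 : C1 ≤ Cv := by rw [hCv]; omega
  have hCc : k * (3 * C6 * A) ≤ Cv := by rw [hCv]; omega
  have hCf : 2 * A ≤ Cv := by rw [hCv]; omega
  have hC1sq : 1 ≤ C1 ^ 2 := Nat.one_le_pow _ _ hC1'
  have hCd : 2500 ≤ Cv := by omega
  refine ⟨Cv, by omega, ?_⟩
  intro Z U q T δ hq hT hδ hU hUZ hZU R hR hCb E _ hE
  have hqr : (1 : ℝ) ≤ q := by exact_mod_cast hq
  have hCr : (2500 : ℝ) ≤ Cv := by exact_mod_cast hCd
  have hT1 : (2500 : ℝ) ≤ T := hCr.trans hT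
  have hT0 : 0 < T := by linarith
  have hC1r : (1 : ℝ) ≤ C1 := by exact_mod_cast hC1'
  have hAr : (1 : ℝ) ≤ A := by exact_mod_cast hA
  obtain ⟨w, hw⟩ : ∃ w, w = Real.sqrt T := ⟨_, rfl⟩
  have hw0 : 0 ≤ w := by rw [hw]; exact Real.sqrt_nonneg _
  have hw2 : w ^ 2 = T := by rw [hw]; exact Real.sq_sqrt hT0.le
  have hwC : 50 * (C1 : ℝ) ≤ w := by
    have h1 : (2500 : ℝ) * (C1 : ℝ) ^ 2 ≤ Cv := by exact_mod_cast hCa
    have h2 : (50 * (C1 : ℝ)) ^ 2 ≤ w ^ 2 := by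
      rw [hw2]
      calc (50 * (C1 : ℝ)) ^ 2 = 2500 * (C1 : ℝ) ^ 2 := by ring
        _ ≤ (Cv : ℝ) := h1
        _ ≤ T := hT
    exact le_of_sq_le_sq h2 hw0
  have hwpos : 0 < w := by linarith
  have hqT : 0 < (q : ℝ) * T := by positivity
  have hU1 : (q : ℝ) * T ≤ U := by
    refine le_trans ?_ hU
    have h1 : (1 : ℝ) ≤ Cv * T := by nlinarith
    calc (q : ℝ) * T = 1 * (q * T) := by ring
      _ ≤ (Cv * T) * (q * T) := mul_le_mul_of_nonneg_right h1 hqT.le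
      _ = Cv * T ^ 2 * q := by ring
  have hUr : (1 : ℝ) ≤ U := by nlinarith
  have hUpos : 1 ≤ U := by exact_mod_cast hUr
  have hUD : (U : ℝ) ≤ (U : ℝ) ^ D := le_self_pow₀ hUr (by omega)
  have hUZr : (U : ℝ) ^ D ≤ A * Z := by exact_mod_cast hUZ
  have hZUr : (Z : ℝ) ≤ A * (U : ℝ) ^ D := by exact_mod_cast hZU
  have hqZ : (q : ℝ) * (2500 * w ^ 4) ≤ Z := by
    have h1 : (2500 : ℝ) * A ≤ Cv := by exact_mod_cast hCe
    have h2 : (A : ℝ) * (2500 * T ^ 2 * q) ≤ A * Z := by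
      calc (A : ℝ) * (2500 * T ^ 2 * q) = (2500 * A) * (T ^ 2 * q) := by ring
        _ ≤ Cv * (T ^ 2 * q) := mul_le_mul_of_nonneg_right h1 (by positivity)
        _ = Cv * T ^ 2 * q := by ring
        _ ≤ U := hU
        _ ≤ A * Z := hUD.trans hUZr
    have h3 := le_of_mul_le_mul_left h2 (by linarith)
    calc (q : ℝ) * (2500 * w ^ 4) = 2500 * T ^ 2 * q := by rw [← hw2]; ring
      _ ≤ (Z : ℝ) := h3
  have hwZ : w ≤ Z := by
    have h1 : w ≤ w ^ 4 := le_self_pow₀ (by linarith) (by norm_num)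
    have h2 : (0 : ℝ) ≤ w ^ 4 := by positivity
    have h3 : w ^ 4 ≤ q * (2500 * w ^ 4) := by nlinarith
    linarith
  have hZ0 : (0 : ℝ) < Z := hwpos.trans_le hwZ
  obtain ⟨s, hs⟩ : ∃ s : ℕ, s = q * ⌊(U : ℝ) / (q * T)⌋₊ := ⟨_, rfl⟩
  have hs1 : q ∣ s := by rw [hs]; exact dvd_mul_right _ _
  have hs3 : (s : ℝ) * T ≤ U := by
    have h1 : ((⌊(U : ℝ) / (q * T)⌋₊ : ℕ) : ℝ) ≤ (U : ℝ) / (q * T) := Nat.floor_le (by positivity)
    rw [le_div_iff₀ hqT] at h1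
    rw [hs]
    push_cast
    linarith [mul_comm (q : ℝ) ((⌊(U : ℝ) / (q * T)⌋₊ : ℕ) : ℝ),
      mul_assoc ((⌊(U : ℝ) / (q * T)⌋₊ : ℕ) : ℝ) (q : ℝ) T]
  have hs2 : (U : ℝ) ≤ 2 * T * s := by
    have h1 : (U : ℝ) / (q * T) < ((⌊(U : ℝ) / (q * T)⌋₊ : ℕ) : ℝ) + 1 := Nat.lt_floor_add_one _
    have h2 : 1 ≤ (U : ℝ) / (q * T) := by
      rw [le_div_iff₀ hqT]
      linarith
    have h4 : (1 : ℝ) ≤ ((⌊(U : ℝ) / (q * T)⌋₊ : ℕ) : ℝ) := by
      exact_mod_cast Nat.le_floor (by exact_mod_cast h2)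
    have h5 : (U : ℝ) / (q * T) ≤ 2 * ((⌊(U : ℝ) / (q * T)⌋₊ : ℕ) : ℝ) := by linarith
    rw [div_le_iff₀ hqT] at h5
    rw [hs]
    push_cast
    calc (U : ℝ) ≤ 2 * ((⌊(U : ℝ) / (q * T)⌋₊ : ℕ) : ℝ) * (q * T) := h5
      _ = 2 * T * (q * ((⌊(U : ℝ) / (q * T)⌋₊ : ℕ) : ℝ)) := by ring
  have hsU : (s : ℝ) ≤ U := by
    refine le_trans ?_ hs3
    exact le_mul_of_one_le_right (Nat.cast_nonneg _) (by linarith)
  have hsUn : s ≤ U := by exact_mod_cast hsU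
  have hspos : 0 < s := by
    rcases Nat.eq_zero_or_pos s with h | h
    · rw [h] at hs2
      push_cast at hs2
      linarith
    · exact h
  have hcell : ∀ u : ℕ, u ≤ A * U / s → u * s ≤ A * U := fun u hu =>
    (Nat.mul_le_mul_right _ hu).trans (Nat.div_mul_le_self _ _)
  have hcell2 : ∀ u : ℕ, u ≤ A * U / s → u * s + s ≤ (A + 2) * U := by
    intro u hu
    have h1 := hcell u hu
    have h2 : (A + 2) * U = A * U + 2 * U := by ring
    omega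
  have hvar : ∀ u : ℕ, u ≤ A * U / s → ∀ (i : Fin k) (t t' : ℕ), t ∈ Ico (u * s) (u * s + s) →
      t' ∈ Ico (u * s) (u * s + s) →
      |(((R i).eval (t : ℤ) : ℤ) : ℝ) - (((R i).eval (t' : ℤ) : ℤ) : ℝ)| * T ≤ C1 * Z := by
    intro u hu i t t' ht ht'
    rw [Finset.mem_Ico] at ht ht'
    have h0 := hcell2 u hu
    have h1 := (hV k U R hUpos (fun i => (hR i).1.le) hCb i t t' (by omega) (by omega)).1
    have h2 : |(t : ℤ) - t'| ≤ s := by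
      rw [abs_le]
      constructor <;> omega
    have h3 : |(R i).eval (t : ℤ) - (R i).eval (t' : ℤ)| ≤ V * (U : ℤ) ^ (D - 1) * s :=
      h1.trans (mul_le_mul_of_nonneg_left h2 (by positivity))
    have h4 : |(((R i).eval (t : ℤ) : ℤ) : ℝ) - (((R i).eval (t' : ℤ) : ℤ) : ℝ)| ≤ V * (U : ℝ) ^ (D - 1) * s := by
      have h5 : ((|(R i).eval (t : ℤ) - (R i).eval (t' : ℤ)| : ℤ) : ℝ) ≤ ((V * (U : ℤ) ^ (D - 1) * s : ℤ) : ℝ) :=
        Int.cast_le.2 h3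
      push_cast at h5
      exact h5
    have h6 : (U : ℝ) ^ (D - 1) * U = (U : ℝ) ^ D := by
      rw [← pow_succ]
      congr 1
      omega
    calc _ ≤ V * (U : ℝ) ^ (D - 1) * s * T := mul_le_mul_of_nonneg_right h4 hT0.le
      _ = V * (U : ℝ) ^ (D - 1) * (s * T) := by ring
      _ ≤ V * (U : ℝ) ^ (D - 1) * U := mul_le_mul_of_nonneg_left hs3 (by positivity)
      _ = V * (U : ℝ) ^ D := by rw [mul_assoc, h6]
      _ ≤ V * (A * Z) := mul_le_mul_of_nonneg_left hUZr (by positivity)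
      _ = C1 * Z := by
        rw [hC1]
        push_cast
        ring
  obtain ⟨G, hG⟩ : ∃ G : Finset ℕ, G = (range (A * U / s + 1)).filter
      fun u => ∀ i, (Z : ℝ) ≤ w * (((R i).eval ((u * s : ℕ) : ℤ) : ℤ) : ℝ) := ⟨_, rfl⟩
  obtain ⟨W, hW⟩ : ∃ W : ℕ, W = ⌈2 * (Z : ℝ) / w⌉₊ := ⟨_, rfl⟩
  -- the cover
  have hsub : ((range (A * U + 1)).filter fun t : ℕ => (∀ i, 0 ≤ (R i).eval (t : ℤ)) ∧ E t) ⊆
      (univ.biUnion fun i => (range (A * U + 1)).filter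
        fun t : ℕ => 0 ≤ (R i).eval (t : ℤ) ∧ (R i).eval (t : ℤ) < W) ∪
      (G.biUnion fun u => (Ico (u * s) (u * s + s)).filter E) := by
    intro t ht
    rw [mem_filter] at ht
    rw [mem_union]
    by_cases hlow : ∃ i, (R i).eval (t : ℤ) < W
    · left
      obtain ⟨i, hi⟩ := hlow
      rw [mem_biUnion]
      exact ⟨i, mem_univ i, mem_filter.2 ⟨ht.1, ht.2.1 i, hi⟩⟩
    · right
      push Not at hlow
      have ht1 : t ≤ A * U := by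
        have h1 := mem_range.1 ht.1
        omega
      have hut : t / s ≤ A * U / s := Nat.div_le_div_right ht1
      have h3 : t / s * s ≤ t := Nat.div_mul_le_self _ _
      have h4 : t < t / s * s + s := Nat.lt_div_mul_add hspos
      have htI : t ∈ Ico (t / s * s) (t / s * s + s) := Finset.mem_Ico.2 ⟨h3, h4⟩
      have huI : t / s * s ∈ Ico (t / s * s) (t / s * s + s) := Finset.mem_Ico.2 ⟨le_rfl, by omega⟩
      rw [mem_biUnion]
      refine ⟨t / s, ?_, mem_filter.2 ⟨htI, ht.2.2⟩⟩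
      rw [hG, mem_filter]
      constructor
      · rw [mem_range]
        omega
      · intro i
        have h1 : (2 * (Z : ℝ) / w) ≤ (((R i).eval (t : ℤ) : ℤ) : ℝ) := by
          have h2 : (2 * (Z : ℝ) / w) ≤ (W : ℝ) := by
            rw [hW]
            exact Nat.le_ceil _
          refine h2.trans ?_
          exact_mod_cast hlow i
        rw [div_le_iff₀ hwpos] at h1
        have h5 := hvar (t / s) hut i t (t / s * s) htI huI
        have h6 : |(((R i).eval (t : ℤ) : ℤ) : ℝ) - (((R i).eval ((t / s * s : ℕ) : ℤ) : ℤ) : ℝ)| * w ≤ Z := by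
          have h7 : |(((R i).eval (t : ℤ) : ℤ) : ℝ) - (((R i).eval ((t / s * s : ℕ) : ℤ) : ℤ) : ℝ)| * w * w ≤
              Z * w := by
            calc _ = |(((R i).eval (t : ℤ) : ℤ) : ℝ) - (((R i).eval ((t / s * s : ℕ) : ℤ) : ℤ) : ℝ)| * T := by
                  rw [← hw2]; ring
              _ ≤ C1 * Z := h5
              _ ≤ w * Z := mul_le_mul_of_nonneg_right (by linarith) hZ0.le
              _ = Z * w := mul_comm _ _
          exact le_of_mul_le_mul_right h7 hwpos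
        have h8 : (((R i).eval (t : ℤ) : ℤ) : ℝ) - (((R i).eval ((t / s * s : ℕ) : ℤ) : ℤ) : ℝ) ≤
            |(((R i).eval (t : ℤ) : ℤ) : ℝ) - (((R i).eval ((t / s * s : ℕ) : ℤ) : ℤ) : ℝ)| := le_abs_self _
        have h9 := mul_le_mul_of_nonneg_right h8 hw0
        nlinarith
  -- the cells
  have hbox : ∀ u ∈ G, (((Ico (u * s) (u * s + s)).filter E).card : ℝ) ≤ s * δ := by
    intro u hu
    rw [hG, mem_filter, mem_range, Nat.lt_succ_iff] at hu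
    have huI : u * s ∈ Ico (u * s) (u * s + s) := Finset.mem_Ico.2 ⟨le_rfl, by omega⟩
    obtain ⟨v, hv⟩ : ∃ v : Fin k → ℕ, v = fun i => ((R i).eval ((u * s : ℕ) : ℤ)).toNat := ⟨_, rfl⟩
    have hvpos : ∀ i, (0 : ℝ) < (((R i).eval ((u * s : ℕ) : ℤ) : ℤ) : ℝ) := by
      intro i
      have h1 := hu.2 i
      by_contra hc
      push Not at hc
      have h3 := mul_nonpos_of_nonneg_of_nonpos hw0 hc
      linarith
    have hvr : ∀ i, (v i : ℝ) = (((R i).eval ((u * s : ℕ) : ℤ) : ℤ) : ℝ) := by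
      intro i
      have h1 : (0 : ℤ) ≤ (R i).eval ((u * s : ℕ) : ℤ) := by
        have h2 := hvpos i
        exact_mod_cast h2.le
      have h2 : ((v i : ℕ) : ℤ) = (R i).eval ((u * s : ℕ) : ℤ) := by
        rw [hv]
        exact Int.toNat_of_nonneg h1
      rw [← h2]
      push_cast
      rfl
    have hnum : ∀ t : ℕ, t ∈ Ico (u * s) (u * s + s) → ∀ i,
        (Z : ℝ) ≤ w ^ 2 * ((q * (5 * v i / (8 * q)) : ℕ) : ℝ) ∧
        151 * ((q * (5 * v i / (8 * q)) : ℕ) : ℝ) ≤ 100 * (((R i).eval (t : ℤ) : ℤ) : ℝ) ∧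
        100 * (((R i).eval (t : ℤ) : ℤ) : ℝ) < 168 * ((q * (5 * v i / (8 * q)) : ℕ) : ℝ) := by
      intro t ht i
      have h1 := r20_M q (v i) hq
      refine r20_num w C1 (Z : ℝ) (v i) (((R i).eval (t : ℤ) : ℤ) : ℝ) _ q hC1r hwC ?_ ?_ (by linarith) hqZ
        ?_ h1.1 h1.2
      · rw [hvr i]
        exact hvpos i
      · rw [hvr i]
        exact hu.2 i
      · rw [hvr i, hw2]
        exact hvar u hu.1 i t (u * s) ht huI
    refine hE (fun i => q * (5 * v i / (8 * q))) (u * s) s (fun i => dvd_mul_right _ _) hs1 ?_ ?_ hs2 hsUn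
      (hcell2 u hu.1) ?_
    · intro i
      have h1 := (hnum (u * s) huI i).1
      rw [hw2] at h1
      exact h1
    · intro i
      have h1 := (r20_M q (v i) hq).1
      have h2 : (v i : ℝ) ≤ C1 * Z := by
        rw [hvr i]
        have h3 := (hV k U R hUpos (fun i => (hR i).1.le) hCb i (u * s) (u * s)
          (by have := hcell2 u hu.1; omega) (by have := hcell2 u hu.1; omega)).2
        have h4 : (R i).eval ((u * s : ℕ) : ℤ) ≤ V * (U : ℤ) ^ D := (le_abs_self _).trans h3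
        have h5 : (((R i).eval ((u * s : ℕ) : ℤ) : ℤ) : ℝ) ≤ ((V * (U : ℤ) ^ D : ℤ) : ℝ) := Int.cast_le.2 h4
        push_cast at h5
        calc _ ≤ (V : ℝ) * (U : ℝ) ^ D := by
              push_cast
              exact h5
          _ ≤ V * (A * Z) := mul_le_mul_of_nonneg_left hUZr (by positivity)
          _ = C1 * Z := by
            rw [hC1]
            push_cast
            ring
      have h15 : (C1 : ℝ) ≤ Cv := by exact_mod_cast hCb1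
      have h16 : (C1 : ℝ) * Z ≤ Cv * Z := mul_le_mul_of_nonneg_right h15 hZ0.le
      have h17 : (0 : ℝ) ≤ v i := Nat.cast_nonneg _
      linarith
    · intro t ht i
      have h1 := hnum t ht i
      have h2 := h1.2.1
      have h3 := h1.2.2
      have h4 : ((151 * ((q * (5 * v i / (8 * q)) : ℕ) : ℤ) : ℤ) : ℝ) ≤ ((100 * (R i).eval (t : ℤ) : ℤ) : ℝ) := by
        push_cast
        push_cast at h2
        exact h2
      have h5 : ((100 * (R i).eval (t : ℤ) : ℤ) : ℝ) < ((168 * ((q * (5 * v i / (8 * q)) : ℕ) : ℤ) : ℤ) : ℝ) := by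
        push_cast
        push_cast at h3
        exact h3
      exact ⟨Int.cast_le.1 h4, Int.cast_lt.1 h5⟩
  -- the low values
  obtain ⟨x, hx⟩ : ∃ x : ℝ, x = T ^ (-(1 / (2 * (D : ℝ)))) := ⟨_, rfl⟩
  have hx0 : 0 < x := by rw [hx]; exact Real.rpow_pos_of_pos hT0 _
  have hxD : x ^ D * w = 1 := by
    have hD0 : (D : ℝ) ≠ 0 := by
      have : (1 : ℝ) ≤ D := by exact_mod_cast hD
      linarith
    rw [hx, hw, Real.sqrt_eq_rpow, ← Real.rpow_natCast, ← Real.rpow_mul hT0.le, ← Real.rpow_add hT0]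
    have h1 : -(1 / (2 * (D : ℝ))) * (D : ℝ) + 1 / 2 = 0 := by
      field_simp
      ring
    rw [h1, Real.rpow_zero]
  have hK1 : (1 : ℝ) ≤ 3 * C6 * A := by
    have h1 : 1 ≤ 3 * C6 * A := Nat.mul_pos (Nat.mul_pos (by norm_num) hC61) hA
    exact_mod_cast h1
  have hlowc : ∀ i, (((range (A * U + 1)).filter
        fun t : ℕ => 0 ≤ (R i).eval (t : ℤ) ∧ (R i).eval (t : ℤ) < W).card : ℝ) ≤
      3 * C6 * A * (U * x) := by
    intro i
    have hW1 : 1 ≤ W := by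
      rw [hW]
      exact Nat.ceil_pos.2 (by positivity)
    have h1 := hC6 (R i) (hR i).1 W ((range (A * U + 1)).filter
        fun t : ℕ => 0 ≤ (R i).eval (t : ℤ) ∧ (R i).eval (t : ℤ) < W) hW1 (by
      intro t ht
      rw [mem_filter] at ht
      rw [abs_of_nonneg ht.2.1]
      exact ht.2.2.le)
    have h2 : (W : ℝ) < 2 * (Z : ℝ) / w + 1 := by
      rw [hW]
      exact Nat.ceil_lt_add_one (by positivity)
    have h3 : (1 : ℝ) ≤ (Z : ℝ) / w := by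
      rw [le_div_iff₀ hwpos, one_mul]
      exact hwZ
    have h4 : (W : ℝ) ≤ 3 * (Z / w) := by
      have h6 : 2 * (Z : ℝ) / w = 2 * ((Z : ℝ) / w) := by ring
      rw [h6] at h2
      linarith
    have h5 : (((range (A * U + 1)).filter
        fun t : ℕ => 0 ≤ (R i).eval (t : ℤ) ∧ (R i).eval (t : ℤ) < W).card : ℝ) ^ D ≤ C6 * W := by
      exact_mod_cast h1
    have h6 : (C6 : ℝ) * W ≤ (3 * C6 * A * (U * x)) ^ D := by
      have h7 : (3 * C6 * A * (U * x)) ^ D = (3 * C6 * A : ℝ) ^ D * ((U : ℝ) ^ D * x ^ D) := by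
        rw [mul_pow, mul_pow (U : ℝ) x]
      have h8 : (3 * C6 * A : ℝ) ≤ (3 * C6 * A : ℝ) ^ D := le_self_pow₀ hK1 (by omega)
      have h9 : x ^ D = 1 / w := by
        rw [eq_div_iff hwpos.ne']
        exact hxD
      rw [h7, h9]
      calc (C6 : ℝ) * W ≤ C6 * (3 * (Z / w)) := mul_le_mul_of_nonneg_left h4 (by positivity)
        _ ≤ C6 * (3 * ((A * (U : ℝ) ^ D) / w)) := by
            have h10 : (Z : ℝ) / w ≤ (A * (U : ℝ) ^ D) / w := div_le_div_of_nonneg_right hZUr hwpos.le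
            exact mul_le_mul_of_nonneg_left (by linarith) (by positivity)
        _ = (3 * C6 * A : ℝ) * ((U : ℝ) ^ D * (1 / w)) := by ring
        _ ≤ (3 * C6 * A : ℝ) ^ D * ((U : ℝ) ^ D * (1 / w)) := mul_le_mul_of_nonneg_right h8 (by positivity)
    exact le_of_pow_le_pow_left₀ (by omega) (by positivity) (h5.trans h6)
  have hboxs : ∑ u ∈ G, (((Ico (u * s) (u * s + s)).filter E).card : ℝ) ≤ 2 * A * (U * δ) := by
    have h3 := Finset.sum_le_sum hbox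
    rw [Finset.sum_const, nsmul_eq_mul] at h3
    have h4 : G.card ≤ A * U / s + 1 := by
      rw [hG]
      refine (Finset.card_filter_le _ _).trans (le_of_eq ?_)
      rw [card_range]
    have h5 : G.card * s ≤ 2 * A * U := by
      have h7 : A * U / s * s ≤ A * U := Nat.div_mul_le_self _ _
      have h8 : 1 * U ≤ A * U := Nat.mul_le_mul_right _ hA
      calc G.card * s ≤ (A * U / s + 1) * s := Nat.mul_le_mul_right _ h4
        _ = A * U / s * s + s := by ring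
        _ ≤ A * U + A * U := by omega
        _ = 2 * A * U := by ring
    have h6 : (G.card : ℝ) * s ≤ 2 * A * U := by exact_mod_cast h5
    calc _ ≤ (G.card : ℝ) * (s * δ) := h3
      _ = (G.card * s) * δ := by ring
      _ ≤ (2 * A * U) * δ := mul_le_mul_of_nonneg_right h6 hδ
      _ = 2 * A * (U * δ) := by ring
  -- the sums
  have hcard := Finset.card_le_card hsub
  have hfin : (((range (A * U + 1)).filter fun t : ℕ => (∀ i, 0 ≤ (R i).eval (t : ℤ)) ∧ E t).card : ℝ) ≤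
      ∑ i : Fin k, (((range (A * U + 1)).filter
        fun t : ℕ => 0 ≤ (R i).eval (t : ℤ) ∧ (R i).eval (t : ℤ) < W).card : ℝ) +
      ∑ u ∈ G, (((Ico (u * s) (u * s + s)).filter E).card : ℝ) := by
    have h1 := hcard.trans ((Finset.card_union_le _ _).trans
      (add_le_add Finset.card_biUnion_le Finset.card_biUnion_le))
    exact_mod_cast h1
  have h1 : ∑ i : Fin k, (((range (A * U + 1)).filter
        fun t : ℕ => 0 ≤ (R i).eval (t : ℤ) ∧ (R i).eval (t : ℤ) < W).card : ℝ) ≤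
      k * (3 * C6 * A * (U * x)) := by
    refine (Finset.sum_le_sum fun i _ => hlowc i).trans (le_of_eq ?_)
    rw [Finset.sum_const, Finset.card_univ, Fintype.card_fin, nsmul_eq_mul]
  have h2 : ((k * (3 * C6 * A) : ℕ) : ℝ) ≤ Cv := by exact_mod_cast hCc
  push_cast at h2
  have h3 : (2 * A : ℝ) ≤ Cv := by exact_mod_cast hCf
  rw [← hx]
  have hUx : 0 ≤ (U : ℝ) * x := by positivity
  have hUδ : 0 ≤ (U : ℝ) * δ := by positivity
  calc _ ≤ k * (3 * C6 * A * (U * x)) + 2 * A * (U * δ) := hfin.trans (add_le_add h1 hboxs)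
    _ = (k * (3 * C6 * A)) * (U * x) + 2 * A * (U * δ) := by ring
    _ ≤ Cv * (U * x) + Cv * (U * δ) :=
        add_le_add (mul_le_mul_of_nonneg_right h2 hUx) (mul_le_mul_of_nonneg_right h3 hUδ)
    _ = Cv * (x + δ) * U := by ring

end Pool.Agent.HPG
end
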