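import Pool.Agent.Lib.H59M.M1.M079
import Pool.Agent.Lib.H59M.M1.M096
import Pool.Agent.Lib.H59M.M1.M098
import Pool.Agent.Lib.H59M.M1.M101

/-! Merged copies (to shorten the build) of Lib.HUP.R21. -/

-- from Lib.HUP.R21
section

/-!
# Project HUP, module R (the modules of H24P for an abstract family), R21: the core theorem
-/

open Finset Polynomial

namespace Pool.Agent.HUP

open Pool.Agent.Lib.H68T Pool.Agent.Lib.H18Q Pool.Agent.Lib.H59P Pool.Agent.Lib.H24P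

/-- **R21** (port of `core`, H24P/K5.lean). Proof. Given `A, ε`: let `Cv` be the constant of `R20_cover` for
`D i = deg P_i`, `A' ≥ max(A, Cv, 2, all degrees, all leading coefficients)`, `ε' = min ε (1/2)`; `K5_mono`. If the set is empty
nothing is to be shown; otherwise `Lin A' B` by `K5_lin`. `R19_box` (for `A'`) gives `Q`; `R20_cover` with `q = 8 Q^10`,
`T = Q^τ`, `δ = Q^(-c1)`, `E t = NoFix ∧ pcount < Z^(1-ε')` (`2 T ≤ A' Q^τ`). `Q ≥ Z^(1/C)`, `Z` large. -/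
theorem coreT {k d : ℕ} (P : Fin k → ℤ[X]) (hP : ∀ i, 1 ≤ (P i).natDegree) (c : Fin k → Fin d → ℤ) (e : Fin d → ℕ)
    (hc : ∀ i, ∃ j, c i j ≠ 0) (hF : FGT c P) (hS : S4T c e P) (hB : Blk c e P) : CoreT c e P := by
  classical
  intro A ε hε
  obtain ⟨A0, hA0⟩ : ∃ A0, A0 = A + 1 := ⟨_, rfl⟩
  obtain ⟨Cv, hCv1, hcover⟩ := R20_cover c e (fun i => (P i).natDegree) hB.1 hc hB.2 A0 (by omega)
  obtain ⟨A', hA'⟩ : ∃ A', A' = A + 2 + Cv + ∑ i, ((P i).natDegree + (P i).leadingCoeff.natAbs) := ⟨_, rfl⟩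
  have hA1 : 1 ≤ A' := by omega
  have hAA : A ≤ A' := by omega
  have hA2 : 2 ≤ A' := by omega
  have hACv : Cv ≤ A' := by omega
  have hsum : ∀ i, (P i).natDegree + (P i).leadingCoeff.natAbs ≤ A' := by
    intro i
    have := Finset.single_le_sum (f := fun i => (P i).natDegree + (P i).leadingCoeff.natAbs)
      (fun _ _ => Nat.zero_le _) (mem_univ i)
    have h2 : (P i).natDegree + (P i).leadingCoeff.natAbs ≤
        ∑ i, ((P i).natDegree + (P i).leadingCoeff.natAbs) := this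
    omega
  have hPol : Pol A' P := ⟨hP, fun i => by have := hsum i; omega, fun i => by have := hsum i; omega⟩
  obtain ⟨ε', hε'⟩ : ∃ ε', ε' = min ε (1 / 2) := ⟨_, rfl⟩
  have he0 : 0 < ε' := by
    rw [hε']
    exact lt_min hε (by norm_num)
  have he1 : ε' ≤ 1 / 2 := by
    rw [hε']
    exact min_le_right _ _
  have he2 : ε' ≤ ε := by
    rw [hε']
    exact min_le_left _ _
  obtain ⟨c1, C, τ, hc1, hC, hτ, hτ1, Z0, hK⟩ := R19_box P c e hF hS hB A' hA1 hPol ε' he0 he1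
  have hC0 : 0 < C := by linarith
  have hA1' : (1 : ℝ) ≤ A' := by exact_mod_cast hA1
  have hA2' : (2 : ℝ) ≤ A' := by exact_mod_cast hA2
  have hACv' : (Cv : ℝ) ≤ A' := by exact_mod_cast hACv
  have hCv1' : (1 : ℝ) ≤ Cv := by exact_mod_cast hCv1
  obtain ⟨b, hb⟩ : ∃ b : ℝ, b = min (τ / 2) c1 := ⟨_, rfl⟩
  have hb0 : 0 < b := by
    rw [hb]
    exact lt_min (by linarith) hc1
  have hba : b ≤ τ / 2 := by
    rw [hb]
    exact min_le_left _ _
  have hbc : b ≤ c1 := by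
    rw [hb]
    exact min_le_right _ _
  have hη : 0 < b / (2 * C) := by positivity
  obtain ⟨Z1, hZ1⟩ := k5_ev (1 / C) (by positivity) (8 * A')
  obtain ⟨Z2, hZ2⟩ := k5_ev (b / (2 * C)) hη (2 * Cv)
  obtain ⟨Z3, hZ3⟩ := k5_ev (1 / C * τ) (by positivity) Cv
  refine ⟨b / (2 * C), hη, Z0 + Z1 + Z2 + Z3 + 2, ?_⟩
  intro Z hZ B hOB β hβ
  have hZ2' : 2 ≤ Z := by omega
  have hZr : (2 : ℝ) ≤ Z := by exact_mod_cast hZ2'
  have hZ0' : (0 : ℝ) < Z := by linarith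
  obtain ⟨Q, hQ1, hQ2, hQ3⟩ := hK Z (by omega)
  have hlogZ : 0 < Real.log Z := Real.log_pos (by linarith)
  have hlogQ : 0 < Real.log Q := by
    by_contra h0
    rw [not_lt] at h0
    have h1 : C * Real.log Q ≤ 0 := mul_nonpos_of_nonneg_of_nonpos hC0.le h0
    linarith
  have hQ0 : (1 : ℝ) < Q := by
    by_contra h0
    rw [not_lt] at h0
    exact absurd hlogQ (not_lt.2 (Real.log_nonpos (Nat.cast_nonneg _) h0))
  have hQp : (0 : ℝ) < Q := by linarith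
  -- Z^(1/C) ≤ Q
  have hZQ : (Z : ℝ) ^ (1 / C) ≤ Q := by
    rw [← Real.log_le_log_iff (by positivity) hQp, Real.log_rpow hZ0', div_mul_eq_mul_div, one_mul,
      div_le_iff₀ hC0]
    linarith [mul_comm C (Real.log Q)]
  -- Q^100 ≤ Z
  have hQZ : (Q : ℝ) ^ 100 ≤ Z := by
    rw [← Real.log_le_log_iff (by positivity) hZ0', Real.log_pow]
    exact_mod_cast hQ1
  have hQA : 8 * (A' : ℝ) ≤ Q := (hZ1 Z (by omega)).trans hZQ
  obtain ⟨T, hT⟩ : ∃ T : ℝ, T = (Q : ℝ) ^ τ := ⟨_, rfl⟩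
  have hT1 : 1 ≤ T := by
    rw [hT]
    exact Real.one_le_rpow hQ0.le hτ.le
  have hTCv : (Cv : ℝ) ≤ T := by
    have h1 := hZ3 Z (by omega)
    rw [Real.rpow_mul hZ0'.le] at h1
    rw [hT]
    exact h1.trans (Real.rpow_le_rpow (by positivity) hZQ hτ.le)
  have hT2Q : T ^ 2 ≤ Q := by
    rw [hT, ← Real.rpow_natCast, ← Real.rpow_mul hQp.le]
    calc (Q : ℝ) ^ (τ * ((2 : ℕ) : ℝ)) ≤ (Q : ℝ) ^ (1 : ℝ) :=
          Real.rpow_le_rpow_of_exponent_le hQ0.le (by push_cast; linarith)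
      _ = Q := Real.rpow_one _
  have hZq : (Cv : ℝ) * T ^ 2 * ((8 * Q ^ 10 : ℕ) : ℝ) ≤ Z := by
    have h3 : (Q : ℝ) ^ 12 ≤ Z := (pow_le_pow_right₀ hQ0.le (by norm_num)).trans hQZ
    have h5 : 8 * (Cv : ℝ) ≤ Q := by linarith
    have h4 : (Cv : ℝ) * T ^ 2 * ((8 * Q ^ 10 : ℕ) : ℝ) ≤ (Q : ℝ) ^ 12 := by
      push_cast
      calc (Cv : ℝ) * T ^ 2 * (8 * (Q : ℝ) ^ 10) = (8 * Cv) * T ^ 2 * (Q : ℝ) ^ 10 := by ring
        _ ≤ Q * Q * (Q : ℝ) ^ 10 := by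
          apply mul_le_mul_of_nonneg_right _ (by positivity)
          exact mul_le_mul h5 hT2Q (by positivity) hQp.le
        _ = (Q : ℝ) ^ 12 := by ring
    exact h4.trans h3
  have hq1 : 1 ≤ 8 * Q ^ 10 := by
    have hQn : 1 ≤ Q := by
      have : (1 : ℝ) ≤ Q := hQ0.le
      exact_mod_cast this
    have := Nat.one_le_pow 10 Q hQn
    omega
  have hAr : (A : ℝ) ≤ A' := by exact_mod_cast hAA
  have hβ' : ∀ i, |β i| ≤ A0 * (Z : ℤ) ^ (P i).natDegree := by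
    intro i
    refine (hβ i).trans ?_
    rw [hA0]
    push_cast
    have : (0 : ℤ) ≤ (Z : ℤ) ^ (P i).natDegree := by positivity
    nlinarith
  by_cases hne : ((tb 0 fun j => A * Z ^ e j + 1).filter fun t => (∀ i, 0 ≤ β i + lf c t i) ∧
      NoFix (sys B P (hh c β t)) ∧ ((pcount Z B P (hh c β t) : ℕ) : ℝ) < (Z : ℝ) ^ (1 - ε)).Nonempty
  swap
  · rw [Finset.not_nonempty_iff_eq_empty] at hne
    rw [hne, card_empty, Nat.cast_zero]
    positivity
  obtain ⟨t0, ht0⟩ := hne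
  rw [mem_filter] at ht0
  have hLin : Lin A' B := K5_lin hOB.deg (hOB.lc.trans hAA) ht0.2.2.1
  have hOKB : OKB A' ε' Z B := K5_mono (by omega) hOB hAA he2
  have hcov := hcover Z (8 * Q ^ 10) T ((Q : ℝ) ^ (-c1)) hq1 hTCv (by positivity) hZq β hβ'
    (fun t => NoFix (sys B P (hh c β t)) ∧ ((pcount Z B P (hh c β t) : ℕ) : ℝ) < (Z : ℝ) ^ (1 - ε'))
    (fun M b s hM hs h1 h2 h3 h4 h5 => by
      refine hQ3 B hLin hOKB M b s β hM hs (fun i => ?_) (fun i => ?_) (fun j => ?_) (fun j => ?_) h5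
      · refine (h1 i).trans ?_
        rw [hT, mul_assoc]
        exact le_mul_of_one_le_left (by positivity) hA1'
      · exact (h2 i).trans (mul_le_mul_of_nonneg_right hACv' (by positivity))
      · refine (h3 j).trans ?_
        rw [hT, mul_assoc, mul_assoc]
        exact mul_le_mul_of_nonneg_right hA2' (by positivity)
      · refine (h4 j).trans ?_
        exact le_mul_of_one_le_left (by positivity) hA1')
  refine le_trans (Nat.cast_le.2 (Finset.card_le_card ?_)) (hcov.trans ?_)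
  · intro t ht
    rw [mem_filter] at ht ⊢
    refine ⟨?_, ht.2.1, ht.2.2.1, ht.2.2.2.trans_le ?_⟩
    · have h1 := ht.1
      unfold tb at h1 ⊢
      rw [Fintype.mem_piFinset] at h1 ⊢
      intro j
      have h2 := h1 j
      rw [mem_Ico] at h2 ⊢
      refine ⟨h2.1, h2.2.trans_le ?_⟩
      have h3 : A * Z ^ e j + 1 ≤ A0 * Z ^ e j + 1 := by
        have : A ≤ A0 := by omega
        have := Nat.mul_le_mul_right (Z ^ e j) this
        omega
      have h4 : ((A * Z ^ e j + 1 : ℕ) : ℤ) ≤ ((A0 * Z ^ e j + 1 : ℕ) : ℤ) := by exact_mod_cast h3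
      linarith
    · exact Real.rpow_le_rpow_of_exponent_le (by linarith) (by linarith)
  -- numerics
  have h1 : 1 / Real.sqrt T ≤ (Q : ℝ) ^ (-b) := by
    rw [hT, Real.sqrt_eq_rpow, ← Real.rpow_mul hQp.le, one_div, ← Real.rpow_neg hQp.le]
    exact Real.rpow_le_rpow_of_exponent_le hQ0.le (by linarith)
  have h2 : (Q : ℝ) ^ (-c1) ≤ (Q : ℝ) ^ (-b) := Real.rpow_le_rpow_of_exponent_le hQ0.le (by linarith)
  have h3 : (Q : ℝ) ^ (-b) ≤ (Z : ℝ) ^ (-(b / (2 * C))) * (Z : ℝ) ^ (-(b / (2 * C))) := by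
    rw [← Real.rpow_add hZ0']
    have e : -(b / (2 * C)) + -(b / (2 * C)) = (1 / C) * (-b) := by
      field_simp
      ring
    rw [e, Real.rpow_mul hZ0'.le]
    exact Real.rpow_le_rpow_of_nonpos (by positivity) hZQ (by linarith)
  have h4 := hZ2 Z (by omega)
  have h5 : (2 * (Cv : ℝ)) * (Z : ℝ) ^ (-(b / (2 * C))) ≤ 1 := by
    calc (2 * (Cv : ℝ)) * (Z : ℝ) ^ (-(b / (2 * C))) ≤
          (Z : ℝ) ^ (b / (2 * C)) * (Z : ℝ) ^ (-(b / (2 * C))) :=
          mul_le_mul_of_nonneg_right h4 (by positivity)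
      _ = 1 := by rw [← Real.rpow_add hZ0', add_neg_cancel, Real.rpow_zero]
  have h6 : (Cv : ℝ) * (1 / Real.sqrt T + (Q : ℝ) ^ (-c1)) ≤ (Z : ℝ) ^ (-(b / (2 * C))) := by
    calc (Cv : ℝ) * (1 / Real.sqrt T + (Q : ℝ) ^ (-c1)) ≤ Cv * ((Q : ℝ) ^ (-b) + (Q : ℝ) ^ (-b)) :=
          mul_le_mul_of_nonneg_left (add_le_add h1 h2) (by positivity)
      _ = 2 * Cv * (Q : ℝ) ^ (-b) := by ring
      _ ≤ 2 * Cv * ((Z : ℝ) ^ (-(b / (2 * C))) * (Z : ℝ) ^ (-(b / (2 * C)))) :=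
          mul_le_mul_of_nonneg_left h3 (by positivity)
      _ = (2 * Cv * (Z : ℝ) ^ (-(b / (2 * C)))) * (Z : ℝ) ^ (-(b / (2 * C))) := by ring
      _ ≤ 1 * (Z : ℝ) ^ (-(b / (2 * C))) := mul_le_mul_of_nonneg_right h5 (by positivity)
      _ = (Z : ℝ) ^ (-(b / (2 * C))) := one_mul _
  have h7 : (Z : ℝ) ^ ((∑ j, (e j : ℝ)) - b / (2 * C)) = (Z : ℝ) ^ (-(b / (2 * C))) * (Z : ℝ) ^ (∑ j, e j) := by
    rw [sub_eq_add_neg, Real.rpow_add hZ0', mul_comm, ← Nat.cast_sum, Real.rpow_natCast]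
  rw [h7]
  exact mul_le_mul_of_nonneg_right h6 (by positivity)

end Pool.Agent.HUP
end
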