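import Pool.Agent.Lib.H59M.M1.M057
import Pool.Agent.Lib.H59M.M1.M062
import Pool.Agent.Lib.H59M.M1.M086
import Pool.Agent.Lib.H59M.M1.M092
import Pool.Agent.Lib.H59M.M1.M093
import Pool.Agent.Lib.H59M.M1.M096
import Pool.Agent.Lib.H59M.M1.M099
import Pool.Agent.Lib.H59M.M1.M105

/-! Merged copies (to shorten the build) of Lib.H9A.N6a, Lib.H9A.N7a, Lib.H9A.N7, Lib.H9A.N9, Lib.H9A.N10a, Lib.H9A.N10, Lib.H9P.W2. -/

-- from Lib.H9A.N6a
section

/-!
# ASY, chunk N6a (S/M): two truncations of the singular series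
-/

open Finset

namespace Pool.Agent.H9A

open Pool.Agent.H9U
open Pool.Agent.Lib.H59P (Ch cj uu gl pr SF)

/-- Proof. `T4S_tail` with `ε := θ/16`, `R = 1` (`(pr z).filter (¬ l ∣ 1) = pr z`), `E = ⌊X^θ⌋ ≤ z, z'` (`E ≥ X^θ/2 ≥ 1`), for `Q := z` and `Q := z'`: the two truncations differ by at most
`2 E^(-1/4) X^(θ/16) ≤ 4 X^(-3θ/16) ≤ ε exp(-4k) ≤ ε SSS(z')` for `X` large (`T1S_low`; the elements of `pr z'` are primes, `Pool.Agent.Lib.H59P.c3_pr`). -/
theorem N6_cmp {k d : ℕ} (S : Sys k d) (ha : ∀ i, S.a i ≠ 0) (ε θ : ℝ) (hε : 0 < ε) (hθ : 0 < θ) : ∃ X0 : ℕ, ∀ X : ℕ, X0 ≤ X →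
    ∀ (b : Fin k → ℤ) (t : Fin d → ℤ), S.Adm b t → NZ S b t X →
    ∀ z z' : ℕ, (X : ℝ) ^ θ ≤ z → (X : ℝ) ^ θ ≤ z' → z ≤ X → z' ≤ X →
      |SSS S b t (pr z) - SSS S b t (pr z')| ≤ ε * SSS S b t (pr z') := by
  obtain ⟨X1, hX1⟩ := T4S_tail S ha (θ / 16) (by positivity)
  have hlim : Filter.Tendsto (fun X : ℕ => 4 * (X : ℝ) ^ (-(3 * θ / 16))) Filter.atTop (nhds 0) := by
    have h1 : Filter.Tendsto (fun X : ℕ => (X : ℝ) ^ (-(3 * θ / 16))) Filter.atTop (nhds 0) :=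
      (tendsto_rpow_neg_atTop (show 0 < 3 * θ / 16 by positivity)).comp tendsto_natCast_atTop_atTop
    have h2 := h1.const_mul 4
    rwa [mul_zero] at h2
  have hpos : (0 : ℝ) < ε * Real.exp (-(4 * k : ℝ)) := by positivity
  obtain ⟨X2, hX2⟩ := Filter.eventually_atTop.mp (hlim.eventually_lt_const hpos)
  refine ⟨max (max X1 X2) 1, ?_⟩
  intro X hX b t hA hNZ z z' hz hz' hzX hzX'
  have hXX1 : X1 ≤ X := (le_max_left _ _).trans ((le_max_left _ _).trans hX)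
  have hXX2 : X2 ≤ X := (le_max_right _ _).trans ((le_max_left _ _).trans hX)
  have hX0 : 1 ≤ X := (le_max_right _ _).trans hX
  have hXr : (1 : ℝ) ≤ X := by exact_mod_cast hX0
  have hXp : (0 : ℝ) < X := by linarith
  have hθ1 : (1 : ℝ) ≤ (X : ℝ) ^ θ := Real.one_le_rpow hXr hθ.le
  obtain ⟨E, hE⟩ : ∃ E : ℕ, E = ⌊(X : ℝ) ^ θ⌋₊ := ⟨_, rfl⟩
  have hE1 : 1 ≤ E := by
    rw [hE]
    exact Nat.le_floor (by simpa using hθ1)
  have hEz : E ≤ z := by
    rw [hE]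
    exact Nat.floor_le_of_le hz
  have hEz' : E ≤ z' := by
    rw [hE]
    exact Nat.floor_le_of_le hz'
  have hEr : (1 : ℝ) ≤ E := by exact_mod_cast hE1
  have hE2 : (X : ℝ) ^ θ / 2 ≤ E := by
    have h1 := Nat.lt_floor_add_one ((X : ℝ) ^ θ)
    rw [← hE] at h1
    linarith
  have hE3 : (E : ℝ) ^ (-(1 / 4) : ℝ) ≤ 2 * (X : ℝ) ^ (-(θ / 4)) := by
    have h1 : (E : ℝ) ^ (-(1 / 4) : ℝ) ≤ ((X : ℝ) ^ θ / 2) ^ (-(1 / 4) : ℝ) :=
      Real.rpow_le_rpow_of_nonpos (by positivity) hE2 (by norm_num)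
    refine h1.trans ?_
    rw [Real.div_rpow (by positivity) (by norm_num), ← Real.rpow_mul hXp.le]
    have h2 : θ * (-(1 / 4) : ℝ) = -(θ / 4) := by ring
    rw [h2, Real.rpow_neg (by norm_num : (0 : ℝ) ≤ 2), div_inv_eq_mul, mul_comm]
    refine mul_le_mul_of_nonneg_right ?_ (by positivity)
    calc (2 : ℝ) ^ (1 / 4 : ℝ) ≤ (2 : ℝ) ^ (1 : ℝ) := Real.rpow_le_rpow_of_exponent_le (by norm_num) (by norm_num)
      _ = 2 := Real.rpow_one _
  have hfil : ∀ Q : ℕ, (pr Q).filter (fun l : ℕ => ¬ l ∣ 1) = pr Q := by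
    intro Q
    refine Finset.filter_true_of_mem fun l hl => ?_
    intro hd
    exact (Pool.Agent.Lib.H59P.c3_pr Q l hl).one_lt.ne' (Nat.dvd_one.mp hd)
  have hX1z := hX1 X z hXX1 hzX b t hNZ 1 E hE1 hEz
  have hX1z' := hX1 X z' hXX1 hzX' b t hNZ 1 E hE1 hEz'
  rw [hfil] at hX1z hX1z'
  have hb : (E : ℝ) ^ (-(1 / 4) : ℝ) * (X : ℝ) ^ (θ / 16) ≤ 2 * (X : ℝ) ^ (-(3 * θ / 16)) := by
    calc (E : ℝ) ^ (-(1 / 4) : ℝ) * (X : ℝ) ^ (θ / 16) ≤ (2 * (X : ℝ) ^ (-(θ / 4))) * (X : ℝ) ^ (θ / 16) :=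
          mul_le_mul_of_nonneg_right hE3 (by positivity)
      _ = 2 * (X : ℝ) ^ (-(3 * θ / 16)) := by
          rw [mul_assoc, ← Real.rpow_add hXp]
          congr 2
          ring
  have hfin := hX2 X hXX2
  have hlow := T1S_low S b t hA (pr z') (Pool.Agent.Lib.H59P.c3_pr z')
  have h5 : ε * Real.exp (-(4 * k : ℝ)) ≤ ε * SSS S b t (pr z') := mul_le_mul_of_nonneg_left hlow hε.le
  rw [abs_le] at hX1z hX1z' ⊢
  constructor <;> linarith [hX1z.1, hX1z.2, hX1z'.1, hX1z'.2]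

end Pool.Agent.H9A
end

-- from Lib.H9A.N7a
section

/-!
# ASY, chunk N7a (M): upper bound sieve for a product of linear forms
-/

open Finset Polynomial

namespace Pool.Agent.H9A

open Pool.Agent.Lib.H59 (rootCount)

/-- The product of the forms `a_i x + c_i`. -/
noncomputable def n7H {k : ℕ} (a c : Fin k → ℤ) : ℤ[X] := ∏ i, (C (a i) * X + C (c i))

/-- Auxiliary: the value of the product of the forms. -/
theorem n7a_eval {k : ℕ} (a c : Fin k → ℤ) (x : ℤ) : (n7H a c).eval x = ∏ i, (a i * x + c i) := by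
  unfold n7H
  rw [eval_prod]
  refine Finset.prod_congr rfl fun i _ => ?_
  rw [eval_add, eval_mul, eval_C, eval_X, eval_C]

/-- The sieve step.

Proof. As `sieve_step` (`H59/SchinzelUpper.lean`). `H = n7H a c`, `rootCount H p = nuS S b' t p` for the translated system, so it is `≤ k` and `< p` (hypotheses `hν`). `poly_sieve` with `κ := k`. The `n ∈ [1, L]` with all values primes:
either no prime `p < Y` divides `H(n)`, or some value is a prime `q < Y`; for given `i` and `q` there is at most one such `n` (`a i ≠ 0`), in total at most `k Y ≤ k R^10`. -/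
theorem N7_step {k : ℕ} (a c : Fin k → ℤ) (ha : ∀ i, a i ≠ 0) (L Y : ℕ) (R : ℝ)
    (hν : ∀ p : ℕ, p.Prime → rootCount (n7H a c) p ≤ k ∧ rootCount (n7H a c) p < p)
    (hY : 2 ≤ Y) (hR : 1 ≤ R) (hRY : (Real.log 2 + 28 * k * Real.log 4) * Real.log Y ≤ Real.log R) (hL : R ^ 12 ≤ L)
    (hYR : (Y : ℝ) ≤ R ^ 10) :
    (((Icc 1 L).filter (fun n : ℕ => ∀ i, (a i * n + c i).toNat.Prime)).card : ℝ) ≤
      (4 + 2 * k) * (L * ∏ p ∈ Nat.primesBelow Y, (1 - (rootCount (n7H a c) p : ℝ) / p)) := by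
  classical
  obtain ⟨h1, h2⟩ := Pool.Agent.Lib.H59.poly_sieve (n7H a c) (κ := k) (Y := Y) (X := L) (R := R)
    (fun p hp _ => (hν p hp).1) (fun p hp _ => (hν p hp).2) hY hR hRY hL
  set T₁ := (Icc 1 L).filter fun n : ℕ => ∀ p ∈ Nat.primesBelow Y, ¬ (p : ℤ) ∣ (n7H a c).eval (n : ℤ)
    with hT₁
  set T₂ := (Finset.range Y).biUnion fun q =>
    (Finset.univ : Finset (Fin k)).biUnion fun i =>
      (Icc 1 L).filter fun n : ℕ => a i * (n : ℤ) + c i = (q : ℤ) with hT₂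
  have hT₂card : T₂.card ≤ k * Y := by
    have h3 : ∀ q ∈ Finset.range Y,
        ((Finset.univ : Finset (Fin k)).biUnion fun i =>
          (Icc 1 L).filter fun n : ℕ => a i * (n : ℤ) + c i = (q : ℤ)).card ≤ k := by
      intro q _
      refine card_biUnion_le.trans ?_
      have h4 : ∀ i ∈ (Finset.univ : Finset (Fin k)),
          ((Icc 1 L).filter fun n : ℕ => a i * (n : ℤ) + c i = (q : ℤ)).card ≤ 1 := by
        intro i _
        rw [Finset.card_le_one]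
        intro x hx y hy
        rw [mem_filter] at hx hy
        have h5 : a i * (x : ℤ) = a i * (y : ℤ) := by linarith [hx.2, hy.2]
        have h6 := mul_left_cancel₀ (ha i) h5
        exact_mod_cast h6
      refine (Finset.sum_le_sum h4).trans ?_
      simp
    refine card_biUnion_le.trans ((sum_le_sum h3).trans ?_)
    rw [sum_const, card_range, smul_eq_mul, mul_comm]
  have hsub : ((Icc 1 L).filter (fun n : ℕ => ∀ i, (a i * n + c i).toNat.Prime)) ⊆ T₁ ∪ T₂ := by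
    intro n hn
    rw [mem_filter] at hn
    obtain ⟨hn1, hn2⟩ := hn
    have hval : ∀ i, (((a i * n + c i).toNat : ℕ) : ℤ) = a i * n + c i := by
      intro i
      apply Int.toNat_of_nonneg
      by_contra hneg
      push Not at hneg
      have h0 : (a i * (n : ℤ) + c i).toNat = 0 := Int.toNat_of_nonpos hneg.le
      have := hn2 i
      rw [h0] at this
      exact Nat.not_prime_zero this
    rw [mem_union]
    by_cases hbig : ∀ i, Y ≤ (a i * (n : ℤ) + c i).toNat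
    · left
      rw [hT₁, mem_filter]
      refine ⟨hn1, fun p hp hpd => ?_⟩
      have hpp := Nat.prime_of_mem_primesBelow hp
      have hpY := Nat.lt_of_mem_primesBelow hp
      have hpZ := Nat.prime_iff_prime_int.mp hpp
      rw [n7a_eval] at hpd
      obtain ⟨i, _, hi⟩ := (hpZ.dvd_finsetProd_iff _).mp hpd
      rw [← hval i, Int.natCast_dvd_natCast, Nat.prime_dvd_prime_iff_eq hpp (hn2 i)] at hi
      have := hbig i
      omega
    · right
      push Not at hbig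
      obtain ⟨i, hi⟩ := hbig
      rw [hT₂, mem_biUnion]
      refine ⟨(a i * (n : ℤ) + c i).toNat, Finset.mem_range.mpr hi, ?_⟩
      rw [mem_biUnion]
      refine ⟨i, Finset.mem_univ _, ?_⟩
      rw [mem_filter]
      exact ⟨hn1, (hval i).symm⟩
  have hcount : ((Icc 1 L).filter (fun n : ℕ => ∀ i, (a i * n + c i).toNat.Prime)).card ≤
      T₁.card + k * Y := by
    refine (card_le_card hsub).trans ((card_union_le _ _).trans ?_)
    omega
  have hcount' : (((Icc 1 L).filter (fun n : ℕ => ∀ i, (a i * n + c i).toNat.Prime)).card : ℝ) ≤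
      T₁.card + k * Y := by exact_mod_cast hcount
  have hk0 : (0 : ℝ) ≤ k := by positivity
  have h4 : (k : ℝ) * Y ≤
      k * (2 * L * ∏ p ∈ Nat.primesBelow Y, (1 - (rootCount (n7H a c) p : ℝ) / p)) :=
    mul_le_mul_of_nonneg_left (hYR.trans h2) hk0
  calc (((Icc 1 L).filter (fun n : ℕ => ∀ i, (a i * n + c i).toNat.Prime)).card : ℝ)
      ≤ T₁.card + k * Y := hcount'
    _ ≤ 4 * L * ∏ p ∈ Nat.primesBelow Y, (1 - (rootCount (n7H a c) p : ℝ) / p) +
        k * (2 * L * ∏ p ∈ Nat.primesBelow Y, (1 - (rootCount (n7H a c) p : ℝ) / p)) :=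
      add_le_add h1 h4
    _ = _ := by ring

end Pool.Agent.H9A
end

-- from Lib.H9A.N7
section

/-!
# ASY, chunk N7 (M): upper bound sieve on short intervals, for every `t` without vanishing minors
-/

open Finset Polynomial

namespace Pool.Agent.H9A

open Pool.Agent.H9U
open Pool.Agent.Lib.H59P (pr)
open Pool.Agent.Lib.H59 (rootCount)

/-- Auxiliary: translation of a complete system of residues. -/
theorem n7_shift {p : ℕ} (hp : 0 < p) (P : ℤ → Prop) [DecidablePred P]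
    (hP : ∀ x y : ℤ, (p : ℤ) ∣ x - y → P x → P y) (s : ℤ) :
    ((range p).filter (fun n : ℕ => P ((n : ℤ) + s))).card = ((range p).filter (fun n : ℕ => P (n : ℤ))).card := by
  have hp0 : (p : ℤ) ≠ 0 := by exact_mod_cast hp.ne'
  have hp1 : (0 : ℤ) < p := by exact_mod_cast hp
  have key : ∀ m : ℤ, (((m % (p : ℤ)).toNat : ℕ) : ℤ) = m % p := fun m =>
    Int.toNat_of_nonneg (Int.emod_nonneg _ hp0)
  have hlt : ∀ m : ℤ, (m % (p : ℤ)).toNat < p := by
    intro m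
    have h1 := Int.emod_lt_of_pos m hp1
    have h2 := key m
    have h3 : (((m % (p : ℤ)).toNat : ℕ) : ℤ) < p := by rw [h2]; exact h1
    exact_mod_cast h3
  have hnat : ∀ n : ℕ, n < p → (n : ℤ) % p = n := fun n hn =>
    Int.emod_eq_of_lt (by positivity) (by exact_mod_cast hn)
  refine Finset.card_nbij' (fun n : ℕ => (((n : ℤ) + s) % p).toNat)
    (fun n : ℕ => (((n : ℤ) + -s) % p).toNat) ?_ ?_ ?_ ?_
  · intro n hn
    rw [mem_coe, mem_filter] at hn ⊢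
    refine ⟨mem_range.mpr (hlt _), ?_⟩
    have h1 : P (((((n : ℤ) + s) % p).toNat : ℕ) : ℤ) := by
      rw [key]
      exact hP _ _ Int.dvd_self_sub_emod hn.2
    exact h1
  · intro n hn
    rw [mem_coe, mem_filter] at hn ⊢
    refine ⟨mem_range.mpr (hlt _), ?_⟩
    have h1 : P ((((((n : ℤ) + -s) % p).toNat : ℕ) : ℤ) + s) := by
      rw [key]
      refine hP _ _ ?_ hn.2
      have h2 : (n : ℤ) - (((n : ℤ) + -s) % p + s) = ((n : ℤ) + -s) - ((n : ℤ) + -s) % p := by ring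
      rw [h2]
      exact Int.dvd_self_sub_emod
    exact h1
  · intro n hn
    rw [mem_coe, mem_filter, mem_range] at hn
    have h1 : ((((((n : ℤ) + s) % p).toNat : ℕ) : ℤ) + -s) % p = n := by
      rw [key, Int.emod_add_emod, show (n : ℤ) + s + -s = n by ring, hnat n hn.1]
    show (((((((n : ℤ) + s) % p).toNat : ℕ) : ℤ) + -s) % p).toNat = n
    rw [h1, Int.toNat_natCast]
  · intro n hn
    rw [mem_coe, mem_filter, mem_range] at hn
    have h1 : ((((((n : ℤ) + -s) % p).toNat : ℕ) : ℤ) + s) % p = n := by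
      rw [key, Int.emod_add_emod, show (n : ℤ) + -s + s = n by ring, hnat n hn.1]
    show (((((((n : ℤ) + -s) % p).toNat : ℕ) : ℤ) + s) % p).toNat = n
    rw [h1, Int.toNat_natCast]

/-- Auxiliary: the values along a translated progression. -/
theorem n7_val {k d : ℕ} (S : Sys k d) (b : Fin k → ℤ) (t : Fin d → ℤ) (m n0 : ℤ) (i : Fin k) :
    S.a i * m + S.val b n0 t i = S.val b (m + n0) t i := by
  simp only [Sys.val, Sys.lin]
  ring

/-- Auxiliary: the number of roots of the product of the forms. -/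
theorem n7_root {k d : ℕ} (S : Sys k d) (b : Fin k → ℤ) (t : Fin d → ℤ) (n0 : ℤ) (p : ℕ) (hp : p.Prime) :
    rootCount (n7H S.a (fun i => S.val b n0 t i)) p = nuS S b t p := by
  classical
  have hpZ := Nat.prime_iff_prime_int.mp hp
  rw [t1_nuS]
  have h1 : rootCount (n7H S.a (fun i => S.val b n0 t i)) p =
      ((range p).filter (fun n : ℕ => ∃ i, (p : ℤ) ∣ S.val b ((n : ℤ) + n0) t i)).card := by
    unfold rootCount
    congr 1
    refine Finset.filter_congr fun n _ => ?_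
    rw [n7a_eval, hpZ.dvd_finsetProd_iff]
    constructor
    · rintro ⟨i, _, hi⟩
      exact ⟨i, by rwa [n7_val] at hi⟩
    · rintro ⟨i, hi⟩
      exact ⟨i, Finset.mem_univ _, by rwa [n7_val]⟩
  rw [h1]
  refine n7_shift hp.pos (fun x : ℤ => ∃ i, (p : ℤ) ∣ S.val b x t i) ?_ n0
  rintro x y hxy ⟨i, hi⟩
  refine ⟨i, ?_⟩
  have h2 : S.val b y t i = S.val b x t i - S.a i * (x - y) := by
    simp only [Sys.val, Sys.lin]
    ring
  rw [h2]
  exact dvd_sub hi (Dvd.dvd.mul_left hxy _)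

/-- Auxiliary: the product of the sieve as a singular series. -/
theorem n7_prod {k d : ℕ} (S : Sys k d) (b : Fin k → ℤ) (t : Fin d → ℤ) (n0 : ℤ) (Y : ℕ) :
    ∏ p ∈ Nat.primesBelow Y, (1 - (rootCount (n7H S.a (fun i => S.val b n0 t i)) p : ℝ) / p) =
      SSS S b t (pr (Y - 1)) * (∏ p ∈ Nat.primesBelow Y, (1 - (p : ℝ)⁻¹)) ^ k := by
  have h0 : pr (Y - 1) = Nat.primesBelow Y := by
    ext p
    unfold pr
    rw [mem_filter, mem_Icc, Nat.mem_primesBelow]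
    constructor
    · rintro ⟨⟨h1, h2⟩, h3⟩
      exact ⟨by omega, h3⟩
    · rintro ⟨h1, h2⟩
      have := h2.pos
      exact ⟨⟨by omega, by omega⟩, h2⟩
  rw [SSS, h0, ← Finset.prod_pow, ← Finset.prod_mul_distrib]
  refine Finset.prod_congr rfl fun p hp => ?_
  have hpp := Nat.prime_of_mem_primesBelow hp
  have hp1 : (1 : ℝ) < p := by exact_mod_cast hpp.one_lt
  rw [n7_root S b t n0 p hpp, T0S_tp S b t p hpp, mul_assoc, ← mul_pow]
  have h2 : (p : ℝ) / ((p : ℝ) - 1) * (1 - (p : ℝ)⁻¹) = 1 := by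
    have h3 : (p : ℝ) - 1 ≠ 0 := by linarith
    have h4 : (p : ℝ) ≠ 0 := by linarith
    field_simp
  rw [h2, one_pow, mul_one]

/-- Auxiliary: the number of prime values in terms of the product of the forms. -/
theorem n7_npr {k d : ℕ} (S : Sys k d) (b : Fin k → ℤ) (t : Fin d → ℤ) (n0 : ℤ) (L : ℕ) :
    NPr S b t n0 L ≤
      ((Icc 1 L).filter (fun n : ℕ => ∀ i, (S.a i * n + (fun i => S.val b (n0 - 1) t i) i).toNat.Prime)).card := by
  unfold NPr
  refine Finset.card_le_card_of_injOn (fun n => n + 1) ?_ ?_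
  · intro n hn
    rw [mem_coe, mem_filter, mem_range] at hn
    rw [mem_coe, mem_filter, mem_Icc]
    refine ⟨⟨Nat.le_add_left 1 n, hn.1⟩, fun i => ?_⟩
    have h1 : S.a i * ((n + 1 : ℕ) : ℤ) + S.val b (n0 - 1) t i = S.val b (n0 + n) t i := by
      rw [n7_val]
      congr 1
      push_cast
      ring
    show (S.a i * ((n + 1 : ℕ) : ℤ) + S.val b (n0 - 1) t i).toNat.Prime
    rw [h1]
    exact hn.2 i
  · intro x _ y _ hxy
    have : x + 1 = y + 1 := hxy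
    omega

/-- Proof. `N7_step` with `a = S.a`, `c i = S.val b (n0 - 1) t i` (so `a_i n + c_i = val b (n0 + (n - 1)) t i`), `R = L^(1/12)`, `Y = ⌊X^c⌋` with `c = 1/(48 (log 2 + 28 k log 4))` (`c ≤ 1/24`). The number of roots of `H` modulo `p` is the number of
`n` in a complete system of residues with `p ∣ val b n t i` for some `i`, which is `nuS S b t p` (translation by `n0 - 1`), so `T0S_nu` gives `hν`, and by `T0S_tp`
`(1 - ν/p) = (1 + tpS p) (1 - 1/p)^k`. So the product is `SSS S b t (pr (Y - 1)) · (∏_{p < Y} (1 - 1/p))^k ≤ SSS S b t (pr (Y-1)) / (log Y)^k` (`prod_one_sub_inv_le` in `H59/MertensLower.lean`), and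
`SSS (pr (Y-1)) ≤ 2 SSS (pr X)` by `N6_cmp` (`ε = 1`, `θ = c/2`), `log Y ≥ (c/2) log X`. `C = (4 + 2k) · 2 · (2/c)^k`. -/
theorem N7_upper {k d : ℕ} (hk : 1 ≤ k) (S : Sys k d) (ha : ∀ i, S.a i ≠ 0) : ∃ C : ℝ, 0 < C ∧ ∃ X0 : ℕ, ∀ X : ℕ, X0 ≤ X →
    ∀ (b : Fin k → ℤ) (t : Fin d → ℤ), S.Adm b t → NZ S b t X → ∀ (n0 : ℤ) (L : ℕ), (X : ℝ) ^ (1 / 2 : ℝ) ≤ L →
    (NPr S b t n0 L : ℝ) ≤ C * (L * Dn S b t X) := by
  obtain ⟨K0, hK0⟩ : ∃ K0 : ℝ, K0 = Real.log 2 + 28 * k * Real.log 4 := ⟨_, rfl⟩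
  have hk1 : (1 : ℝ) ≤ k := by exact_mod_cast hk
  have hl2 : 0 < Real.log 2 := Real.log_pos one_lt_two
  have hl4 : 1 ≤ Real.log 4 := by
    have h1 : Real.log 4 = 2 * Real.log 2 := by
      rw [show (4 : ℝ) = 2 ^ 2 by norm_num, Real.log_pow]
      norm_num
    linarith [Real.log_two_gt_d9]
  have hK01 : 1 ≤ K0 := by
    have h1 : (1 : ℝ) ≤ k * Real.log 4 := by
      calc (1 : ℝ) = 1 * 1 := (one_mul 1).symm
        _ ≤ k * Real.log 4 := mul_le_mul hk1 hl4 zero_le_one (by linarith)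
    have h2 : K0 = Real.log 2 + 28 * (k * Real.log 4) := by rw [hK0]; ring
    linarith
  obtain ⟨c, hc⟩ : ∃ c : ℝ, c = 1 / (48 * K0) := ⟨_, rfl⟩
  have hcK : c * K0 = 1 / 48 := by rw [hc]; field_simp
  have hc0 : 0 < c := by rw [hc]; positivity
  have hc1 : c ≤ 1 / 48 := by
    have : c * 1 ≤ c * K0 := mul_le_mul_of_nonneg_left hK01 hc0.le
    linarith
  obtain ⟨X1, hX1⟩ := N6_cmp S ha 1 (c / 2) one_pos (by linarith)
  obtain ⟨X2, hX2⟩ : ∃ X2 : ℕ, X2 = ⌈Real.exp (2 / c)⌉₊ := ⟨_, rfl⟩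
  refine ⟨(4 + 2 * k) * (2 * (2 / c) ^ k), by positivity, max X1 X2, ?_⟩
  intro X hX b t hA hNZ n0 L hL
  have hXX1 : X1 ≤ X := (le_max_left _ _).trans hX
  have hXX2 : X2 ≤ X := (le_max_right _ _).trans hX
  have hXe : Real.exp (2 / c) ≤ X := by
    rw [hX2] at hXX2
    exact (Nat.le_ceil _).trans (by exact_mod_cast hXX2)
  have hX0 : (0 : ℝ) < X := lt_of_lt_of_le (Real.exp_pos _) hXe
  have hlX : 2 / c ≤ Real.log X := by
    rw [Real.le_log_iff_exp_le hX0]; exact hXe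
  have hlX0 : 0 < Real.log X := lt_of_lt_of_le (by positivity) hlX
  have hXone : (1 : ℝ) ≤ X := by
    have := Real.one_le_exp (show 0 ≤ 2 / c by positivity)
    linarith
  obtain ⟨u, hu⟩ : ∃ u : ℝ, u = (X : ℝ) ^ (c / 2) := ⟨_, rfl⟩
  have hu2 : 2 ≤ u := by
    rw [hu, Real.rpow_def_of_pos hX0]
    have h1 : 1 ≤ Real.log X * (c / 2) := by
      have h2 : 2 / c * (c / 2) ≤ Real.log X * (c / 2) := mul_le_mul_of_nonneg_right hlX (by linarith)
      have h3 : 2 / c * (c / 2) = 1 := by field_simp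
      linarith
    have h2 : Real.exp 1 ≤ Real.exp (Real.log X * (c / 2)) := Real.exp_le_exp.2 h1
    linarith [Real.exp_one_gt_d9]
  have huu : (X : ℝ) ^ c = u * u := by
    rw [hu, ← Real.rpow_add hX0]
    congr 1
    ring
  obtain ⟨Y, hY⟩ : ∃ Y : ℕ, Y = ⌊(X : ℝ) ^ c⌋₊ := ⟨_, rfl⟩
  have hYle : (Y : ℝ) ≤ (X : ℝ) ^ c := by rw [hY]; exact Nat.floor_le (by positivity)
  have hYge : (X : ℝ) ^ c - 1 ≤ Y := by
    have := Nat.lt_floor_add_one ((X : ℝ) ^ c)
    rw [← hY] at this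
    linarith
  have huu2 : 2 * u ≤ u * u := mul_le_mul_of_nonneg_right hu2 (by linarith)
  have hYu : u + 1 ≤ Y := by rw [huu] at hYge; linarith
  have hY2 : 2 ≤ Y := by
    have : (2 : ℝ) ≤ Y := by linarith
    exact_mod_cast this
  have hY0 : (0 : ℝ) < Y := by linarith
  -- the length
  have hL1 : (1 : ℝ) ≤ L := (Real.one_le_rpow hXone (by norm_num)).trans hL
  have hL0 : (0 : ℝ) < L := by linarith
  obtain ⟨R, hR⟩ : ∃ R : ℝ, R = (L : ℝ) ^ (1 / 12 : ℝ) := ⟨_, rfl⟩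
  have hR1 : 1 ≤ R := by rw [hR]; exact Real.one_le_rpow hL1 (by norm_num)
  have hR12 : R ^ 12 = L := by
    rw [hR, ← Real.rpow_natCast, ← Real.rpow_mul hL0.le]
    norm_num
  have hlogR : Real.log X / 24 ≤ Real.log R := by
    rw [hR, Real.log_rpow hL0]
    have h1 := Real.log_le_log (Real.rpow_pos_of_pos hX0 _) hL
    rw [Real.log_rpow hX0] at h1
    linarith
  have hlogY : Real.log Y ≤ c * Real.log X := by
    have := Real.log_le_log hY0 hYle
    rwa [Real.log_rpow hX0] at this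
  have hRY : (Real.log 2 + 28 * k * Real.log 4) * Real.log Y ≤ Real.log R := by
    rw [← hK0]
    have h1 : K0 * Real.log Y ≤ K0 * (c * Real.log X) := mul_le_mul_of_nonneg_left hlogY (by linarith)
    have h2 : K0 * (c * Real.log X) = (c * K0) * Real.log X := by ring
    rw [hcK] at h2
    linarith
  have hYR : (Y : ℝ) ≤ R ^ 10 := by
    have h1 : (X : ℝ) ^ (1 / 24 : ℝ) ≤ R := by
      rw [hR]
      have h2 := Real.rpow_le_rpow (by positivity) hL (show (0 : ℝ) ≤ 1 / 12 by norm_num)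
      rw [← Real.rpow_mul hX0.le] at h2
      norm_num at h2 ⊢
      exact h2
    have h2 : (X : ℝ) ^ c ≤ (X : ℝ) ^ (1 / 24 : ℝ) := Real.rpow_le_rpow_of_exponent_le hXone (by linarith)
    have h3 : R ≤ R ^ 10 := by
      calc R = R ^ 1 := (pow_one R).symm
        _ ≤ R ^ 10 := pow_le_pow_right₀ hR1 (by norm_num)
    linarith
  have hν : ∀ p : ℕ, p.Prime → rootCount (n7H S.a (fun i => S.val b (n0 - 1) t i)) p ≤ k ∧
      rootCount (n7H S.a (fun i => S.val b (n0 - 1) t i)) p < p := by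
    intro p hp
    rw [n7_root S b t (n0 - 1) p hp]
    exact T0S_nu S b t p hp hA
  have hstep := N7_step S.a (fun i => S.val b (n0 - 1) t i) ha L Y R hν hY2 hR1 hRY hR12.le hYR
  rw [n7_prod S b t (n0 - 1) Y] at hstep
  have hcard : (NPr S b t n0 L : ℝ) ≤ (4 + 2 * k) * (L * (SSS S b t (pr (Y - 1)) *
      (∏ p ∈ Nat.primesBelow Y, (1 - (p : ℝ)⁻¹)) ^ k)) := by
    refine le_trans ?_ hstep
    exact_mod_cast n7_npr S b t n0 L
  -- the singular series
  have hS1 : 0 < SSS S b t (pr (Y - 1)) := lt_of_lt_of_le (Real.exp_pos _)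
    (T1S_low S b t hA (pr (Y - 1)) (Pool.Agent.Lib.H59P.c3_pr _))
  have hS2 : 0 < SSS S b t (pr X) := lt_of_lt_of_le (Real.exp_pos _)
    (T1S_low S b t hA (pr X) (Pool.Agent.Lib.H59P.c3_pr _))
  have hYX : Y - 1 ≤ X := by
    have h1 : (X : ℝ) ^ c ≤ (X : ℝ) ^ (1 : ℝ) := Real.rpow_le_rpow_of_exponent_le hXone (by linarith)
    rw [Real.rpow_one] at h1
    have h2 : (Y : ℝ) ≤ X := hYle.trans h1
    have h3 : Y ≤ X := by exact_mod_cast h2
    omega
  have hz1 : (X : ℝ) ^ (c / 2) ≤ ((Y - 1 : ℕ) : ℝ) := by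
    rw [← hu, Nat.cast_sub (by omega), Nat.cast_one]
    linarith
  have hz2 : (X : ℝ) ^ (c / 2) ≤ X := by
    have h1 : (X : ℝ) ^ (c / 2) ≤ (X : ℝ) ^ (1 : ℝ) := Real.rpow_le_rpow_of_exponent_le hXone (by linarith)
    rwa [Real.rpow_one] at h1
  have hcmp := hX1 X hXX1 b t hA hNZ (Y - 1) X hz1 hz2 hYX le_rfl
  have hSS : SSS S b t (pr (Y - 1)) ≤ 2 * SSS S b t (pr X) := by
    have := (abs_le.mp hcmp).2
    linarith
  have hlogY2 : c / 2 * Real.log X ≤ Real.log Y := by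
    have h1 : u ≤ Y := by linarith
    have h2 := Real.log_le_log (by linarith) h1
    rwa [hu, Real.log_rpow hX0] at h2
  have hcl : 0 < c / 2 * Real.log X := by positivity
  have hlY0 : 0 < Real.log Y := lt_of_lt_of_le hcl hlogY2
  have hprod0 : 0 ≤ ∏ p ∈ Nat.primesBelow Y, (1 - (p : ℝ)⁻¹) := by
    refine Finset.prod_nonneg fun p hp => ?_
    have hpp := Nat.prime_of_mem_primesBelow hp
    have hp1 : (1 : ℝ) < p := by exact_mod_cast hpp.one_lt
    have := inv_lt_one_of_one_lt₀ hp1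
    linarith
  have hM : ∏ p ∈ Nat.primesBelow Y, (1 - (p : ℝ)⁻¹) ≤ 1 / (c / 2 * Real.log X) :=
    (Pool.Agent.Lib.H59.prod_one_sub_inv_le hY2).trans (one_div_le_one_div_of_le hcl hlogY2)
  have hMk : (∏ p ∈ Nat.primesBelow Y, (1 - (p : ℝ)⁻¹)) ^ k ≤ (2 / c) ^ k / (Real.log X) ^ k := by
    refine (pow_le_pow_left₀ hprod0 hM k).trans (le_of_eq ?_)
    rw [← div_pow]
    congr 1
    field_simp
  have hfin : SSS S b t (pr (Y - 1)) * (∏ p ∈ Nat.primesBelow Y, (1 - (p : ℝ)⁻¹)) ^ k ≤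
      2 * (2 / c) ^ k * Dn S b t X := by
    calc SSS S b t (pr (Y - 1)) * (∏ p ∈ Nat.primesBelow Y, (1 - (p : ℝ)⁻¹)) ^ k
        ≤ 2 * SSS S b t (pr X) * ((2 / c) ^ k / (Real.log X) ^ k) :=
          mul_le_mul hSS hMk (by positivity) (by linarith)
      _ = 2 * (2 / c) ^ k * Dn S b t X := by unfold Dn; ring
  calc (NPr S b t n0 L : ℝ)
      ≤ (4 + 2 * k) * (L * (SSS S b t (pr (Y - 1)) * (∏ p ∈ Nat.primesBelow Y, (1 - (p : ℝ)⁻¹)) ^ k)) := hcard
    _ ≤ (4 + 2 * k) * (L * (2 * (2 / c) ^ k * Dn S b t X)) :=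
        mul_le_mul_of_nonneg_left (mul_le_mul_of_nonneg_left hfin hL0.le) (by positivity)
    _ = (4 + 2 * k) * (2 * (2 / c) ^ k) * (L * Dn S b t X) := by ring

end Pool.Agent.H9A
end

-- from Lib.H9A.N9
section

/-!
# ASY, chunk N9 (M/L): all `n`, few `t` without the asymptotic formula
-/

open Finset Filter

namespace Pool.Agent.H9A

open Pool.Agent.H9U
open Pool.Agent.H96U (gsys g1_val0 g1_valS)
open Pool.Agent.HUK (MinP)
open Pool.Agent.Lib.H59P (bx pr)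

/-- powers of logarithms -/
theorem n9_log (W k : ℕ) (ε : ℝ) (hε : 0 < ε) : ∃ X2 : ℕ, ∀ X N : ℕ, X2 ≤ X → X ≤ N → N ≤ 2 * W * X →
    0 < (Real.log X) ^ k ∧ (Real.log X) ^ k ≤ (Real.log N) ^ k ∧ (Real.log N) ^ k ≤ (1 + ε) * (Real.log X) ^ k := by
  obtain ⟨L, hL⟩ : ∃ L : ℝ, L = Real.log (2 * W + 1) := ⟨_, rfl⟩
  have hW0 : (0 : ℝ) ≤ W := Nat.cast_nonneg W
  have hL0 : 0 ≤ L := by
    rw [hL]
    exact Real.log_nonneg (by linarith)
  have h1 : Tendsto (fun X : ℕ => Real.log (X : ℝ)) atTop atTop :=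
    Real.tendsto_log_atTop.comp tendsto_natCast_atTop_atTop
  have h2 : Tendsto (fun X : ℕ => (1 + L / Real.log (X : ℝ)) ^ k) atTop (nhds ((1 + 0) ^ k)) :=
    ((h1.const_div_atTop L).const_add 1).pow k
  have h3 : ((1 : ℝ) + 0) ^ k < 1 + ε := by
    rw [add_zero, one_pow]
    linarith
  have h4 := h2.eventually (gt_mem_nhds h3)
  obtain ⟨X2, hX2⟩ := Filter.eventually_atTop.1 h4
  refine ⟨X2 + 3, fun X N hX hXN hN => ?_⟩
  have h5 := hX2 X (by omega)
  have hX3 : (3 : ℝ) ≤ X := by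
    have : 3 ≤ X := by omega
    exact_mod_cast this
  have hlX : 0 < Real.log X := Real.log_pos (by linarith)
  have hNX : (X : ℝ) ≤ N := by exact_mod_cast hXN
  have hlog : Real.log X ≤ Real.log N := Real.log_le_log (by linarith) hNX
  refine ⟨pow_pos hlX k, pow_le_pow_left₀ hlX.le hlog k, ?_⟩
  have hN2 : (N : ℝ) ≤ (2 * W + 1) * X := by
    have h6 : (N : ℝ) ≤ 2 * W * X := by exact_mod_cast hN
    nlinarith
  have h7 : Real.log N ≤ L + Real.log X := by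
    rw [hL, ← Real.log_mul (by positivity) (by positivity)]
    exact Real.log_le_log (by linarith) hN2
  have h8 : L + Real.log X = Real.log X * (1 + L / Real.log X) := by
    field_simp
    ring
  calc (Real.log N) ^ k ≤ (Real.log X * (1 + L / Real.log X)) ^ k := by
        rw [← h8]
        exact pow_le_pow_left₀ (hlX.le.trans hlog) h7 k
    _ = (Real.log X) ^ k * (1 + L / Real.log X) ^ k := mul_pow _ _ _
    _ ≤ (Real.log X) ^ k * (1 + ε) := mul_le_mul_of_nonneg_left h5.le (pow_nonneg hlX.le k)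
    _ = (1 + ε) * (Real.log X) ^ k := mul_comm _ _

/-- a large power of `N` -/
theorem n9_pow (B κ : ℝ) (hκ : 0 < κ) : ∃ N1 : ℕ, ∀ N : ℕ, N1 ≤ N → B ≤ (N : ℝ) ^ κ := by
  have h := (tendsto_rpow_atTop hκ).comp tendsto_natCast_atTop_atTop
  obtain ⟨N1, h1⟩ := Filter.eventually_atTop.1 (h.eventually_ge_atTop B)
  exact ⟨N1, fun N hN => h1 N hN⟩

/-- replacing the truncated series by the complete one, and `log X` by `log N` -/
theorem n9_calc (P Y Sx s lX lN e ε : ℝ) (hY : 0 ≤ Y) (hs : 0 < s) (hlX : 0 < lX) (h1 : lX ≤ lN)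
    (h2 : lN ≤ (1 + e) * lX) (he : 0 < e) (he1 : 16 * e ≤ 1) (heε : 16 * e ≤ ε) (h3 : |Sx - s| ≤ e * s)
    (h4 : |P - Y * (Sx / lX)| ≤ e * (Y * (Sx / lX))) : |P - Y * (s / lN)| ≤ ε * (Y * (s / lN)) := by
  have hlN : 0 < lN := lt_of_lt_of_le hlX h1
  obtain ⟨D, hD⟩ : ∃ D : ℝ, D = Sx / lX := ⟨_, rfl⟩
  obtain ⟨r, hr⟩ : ∃ r : ℝ, r = s / lN := ⟨_, rfl⟩
  rw [← hD] at h4
  rw [← hr]
  have h5 := abs_le.1 h3
  have hr0 : 0 < r := by
    rw [hr]
    exact div_pos hs hlN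
  have hDr : D * lX = Sx := by
    rw [hD]
    exact div_mul_cancel₀ _ hlX.ne'
  have hrs : r * lN = s := by
    rw [hr]
    exact div_mul_cancel₀ _ hlN.ne'
  have hD1 : D ≤ (1 + e) * (1 + e) * r := by
    have h6 : D * lX ≤ ((1 + e) * (1 + e) * r) * lX := by
      rw [hDr]
      calc Sx ≤ (1 + e) * s := by linarith
        _ = (1 + e) * (r * lN) := by rw [hrs]
        _ ≤ (1 + e) * (r * ((1 + e) * lX)) :=
          mul_le_mul_of_nonneg_left (mul_le_mul_of_nonneg_left h2 hr0.le) (by linarith)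
        _ = ((1 + e) * (1 + e) * r) * lX := by ring
    exact le_of_mul_le_mul_right h6 hlX
  have hD2 : (1 - e) * r ≤ D := by
    have h6 : ((1 - e) * r) * lX ≤ D * lX := by
      rw [hDr]
      calc ((1 - e) * r) * lX = (1 - e) * (r * lX) := by ring
        _ ≤ (1 - e) * (r * lN) :=
          mul_le_mul_of_nonneg_left (mul_le_mul_of_nonneg_left h1 hr0.le) (by linarith)
        _ = (1 - e) * s := by rw [hrs]
        _ ≤ Sx := by linarith
    exact le_of_mul_le_mul_right h6 hlX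
  have hD3 : D - r ≤ 3 * e * r := by
    have : (1 + e) * (1 + e) ≤ 1 + 3 * e := by nlinarith
    nlinarith
  have hD4 : -(3 * e * r) ≤ D - r := by nlinarith
  have hD5 : D ≤ 2 * r := by nlinarith
  have h7 : |Y * D - Y * r| ≤ Y * (3 * e * r) := by
    rw [← mul_sub, abs_mul, abs_of_nonneg hY]
    exact mul_le_mul_of_nonneg_left (abs_le.2 ⟨hD4, hD3⟩) hY
  have h8 : Y * D ≤ Y * (2 * r) := mul_le_mul_of_nonneg_left hD5 hY
  have h9 : 0 ≤ Y * r := mul_nonneg hY hr0.le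
  calc |P - Y * r| ≤ |P - Y * D| + |Y * D - Y * r| := abs_sub_le _ _ _
    _ ≤ e * (Y * D) + Y * (3 * e * r) := add_le_add h4 h7
    _ ≤ e * (Y * (2 * r)) + Y * (3 * e * r) := by
        have := mul_le_mul_of_nonneg_left h8 he.le
        linarith
    _ = (5 * e) * (Y * r) := by ring
    _ ≤ ε * (Y * r) := mul_le_mul_of_nonneg_right (by linarith) h9

/-- the linear forms in `t` are at most `sc N` -/
theorem n9_abs {g d : ℕ} (γ : ℤ) (f : Fin g → ℤ) (c : Fin g → Fin d → ℤ) (N : ℕ) (t : Fin d → ℕ)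
    (ht : ∀ j, t j ≤ N) (i : Fin g) : |∑ j, c i j * (t j : ℤ)| ≤ (((gsys γ f c).sc * N : ℕ) : ℤ) := by
  have hsc : ∑ j, (c i j).natAbs ≤ (gsys γ f c).sc := by
    have h3 : (gsys γ f c).sc = 1 + ∑ i : Fin (g + 1), ∑ j, ((gsys γ f c).c i j).natAbs := rfl
    rw [h3, Fin.sum_univ_succ]
    have h2 : ∑ j, (c i j).natAbs ≤ ∑ i, ∑ j, (c i j).natAbs :=
      Finset.single_le_sum (f := fun i => ∑ j, (c i j).natAbs) (fun _ _ => Nat.zero_le _) (mem_univ i)
    have h4 : ∑ i : Fin g, ∑ j, ((gsys γ f c).c i.succ j).natAbs = ∑ i, ∑ j, (c i j).natAbs := rfl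
    rw [h4]
    omega
  calc |∑ j, c i j * (t j : ℤ)| ≤ ∑ j, |c i j * (t j : ℤ)| := Finset.abs_sum_le_sum_abs _ _
    _ ≤ ∑ j, |c i j| * N := by
      refine Finset.sum_le_sum fun j _ => ?_
      rw [abs_mul, abs_of_nonneg (Int.natCast_nonneg (t j))]
      exact mul_le_mul_of_nonneg_left (by exact_mod_cast ht j) (abs_nonneg _)
    _ = (∑ j, |c i j|) * N := by rw [Finset.sum_mul]
    _ ≤ (gsys γ f c).sc * N := by
      refine mul_le_mul_of_nonneg_right ?_ (Int.natCast_nonneg N)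
      have h1 : (∑ j, |c i j|) = ((∑ j, (c i j).natAbs : ℕ) : ℤ) := by
        push_cast
        rfl
      rw [h1]
      exact_mod_cast hsc
    _ = (((gsys γ f c).sc * N : ℕ) : ℤ) := by push_cast; rfl

/-- the minors are not zero, and not large -/
theorem n9_nz {g d : ℕ} (γ : ℕ) (γ0 : ℤ) (f : Fin g → ℤ) (c : Fin g → Fin d → ℤ) (C N X W : ℕ) (b : Fin g → ℤ)
    (hb : ∀ i, |b i| ≤ (C * N : ℕ)) (t : Fin d → ℕ) (ht : ∀ j, t j ≤ N) (hγ0 : γ0.natAbs ≤ N) (hN : N ≤ 2 * W * X)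
    (hX1 : 1 ≤ X) (hX : 4 * W * (gsys γ f c).sa * (C + (gsys γ f c).sc + 2) ≤ X)
    (hm : ∀ i j, i ≠ j → (gsys γ f c).minr (Fin.cons ((N : ℤ) - γ0) b) (iv t) i j ≠ 0) :
    NZ (gsys γ f c) (Fin.cons ((N : ℤ) - γ0) b) (iv t) X := by
  obtain ⟨S, hSd⟩ : ∃ S : Sys (g + 1) d, S = gsys γ f c := ⟨_, rfl⟩
  have hval : ∀ i, |(gsys γ f c).val (Fin.cons ((N : ℤ) - γ0) b) 0 (iv t) i| ≤
      (((C + (gsys γ f c).sc + 2) * N : ℕ) : ℤ) := by
    intro i
    refine Fin.cases ?_ (fun i => ?_) i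
    · rw [g1_val0]
      have h1 : (((C + (gsys γ f c).sc + 2) * N : ℕ) : ℤ) = (((C + (gsys γ f c).sc) * N : ℕ) : ℤ) + 2 * (N : ℤ) := by
        push_cast
        ring
      rw [h1, mul_zero, sub_zero, abs_le]
      have h2 : (0 : ℤ) ≤ (((C + (gsys γ f c).sc) * N : ℕ) : ℤ) := Int.natCast_nonneg _
      constructor <;> omega
    · rw [g1_valS, mul_zero, zero_add]
      have h1 := hb i
      have h2 := n9_abs γ f c N t ht i
      have hiv : ∀ j, iv t j = (t j : ℤ) := fun j => rfl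
      simp only [hiv]
      refine (abs_add_le _ _).trans ((add_le_add h1 h2).trans ?_)
      have h3 : (((C + (gsys γ f c).sc + 2) * N : ℕ) : ℤ) = ((C * N : ℕ) : ℤ) + (((gsys γ f c).sc * N : ℕ) : ℤ) + 2 * (N : ℤ) := by
        push_cast
        ring
      rw [h3]
      have h4 : (0 : ℤ) ≤ (N : ℤ) := Int.natCast_nonneg _
      linarith
  have ha : ∀ i, |(gsys γ f c).a i| ≤ (((gsys γ f c).sa : ℕ) : ℤ) := by
    intro i
    have h1 : ((gsys γ f c).a i).natAbs ≤ ∑ i, ((gsys γ f c).a i).natAbs :=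
      Finset.single_le_sum (f := fun i => ((gsys γ f c).a i).natAbs) (fun _ _ => Nat.zero_le _) (mem_univ i)
    have h2 : ((gsys γ f c).a i).natAbs ≤ (gsys γ f c).sa := by
      unfold Sys.sa
      omega
    rw [Int.abs_eq_natAbs]
    exact_mod_cast h2
  intro i j hij
  refine ⟨hm i j hij, ?_⟩
  have h1 : ∀ i j, |(gsys γ f c).a i * (gsys γ f c).val (Fin.cons ((N : ℤ) - γ0) b) 0 (iv t) j| ≤
      (((gsys γ f c).sa * ((C + (gsys γ f c).sc + 2) * N) : ℕ) : ℤ) := by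
    intro i j
    rw [abs_mul]
    have := mul_le_mul (ha i) (hval j) (abs_nonneg _) (Int.natCast_nonneg _)
    exact_mod_cast this
  have h2 : |(gsys γ f c).minr (Fin.cons ((N : ℤ) - γ0) b) (iv t) i j| ≤
      (((gsys γ f c).sa * ((C + (gsys γ f c).sc + 2) * N) : ℕ) : ℤ) +
      (((gsys γ f c).sa * ((C + (gsys γ f c).sc + 2) * N) : ℕ) : ℤ) := by
    unfold Sys.minr
    exact (abs_sub _ _).trans (add_le_add (h1 i j) (h1 j i))
  have h3 : (gsys γ f c).sa * ((C + (gsys γ f c).sc + 2) * N) + (gsys γ f c).sa * ((C + (gsys γ f c).sc + 2) * N) ≤ X ^ 3 := by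
    calc (gsys γ f c).sa * ((C + (gsys γ f c).sc + 2) * N) + (gsys γ f c).sa * ((C + (gsys γ f c).sc + 2) * N)
        ≤ (gsys γ f c).sa * ((C + (gsys γ f c).sc + 2) * (2 * W * X)) + (gsys γ f c).sa * ((C + (gsys γ f c).sc + 2) * (2 * W * X)) := by
          have h5 := Nat.mul_le_mul_left ((gsys γ f c).sa) (Nat.mul_le_mul_left (C + (gsys γ f c).sc + 2) hN)
          omega
      _ = (4 * W * (gsys γ f c).sa * (C + (gsys γ f c).sc + 2)) * X := by ring
      _ ≤ X * X := Nat.mul_le_mul_right _ hX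
      _ ≤ X * X * X := Nat.le_mul_of_pos_right _ hX1
      _ = X ^ 3 := by ring
  refine h2.trans ?_
  exact_mod_cast h3

open Classical in
/-- Proof. `S = gsys γ f c`, `k = g + 1`, `ε' = min ε 1 / 16`. `Cs` from `N7_upper`, `W` from `N9a_comb ε' Cs`, `X = N / W`. `C1` a constant (of `W, γ, f, c, C, S.sa`) such that `N + 1 ≤ C1 X` and all values at `n ≤ N + |γ0|`, `t ∈ [0, N]^d` are at most `C1 X`
for `N` large (compare the bounds in `G1_main`, `H96U/G1.lean`). `N8_cover` with `C0 := C1`, `A := A + 1`, `ε := ε'/4` gives `κ`; given `M0` take `M1` from it for a bound `M0' ≥ M0`, all thresholds and `(2 W)^A`; `M = W (M1 + 1)`: for `M ≤ N ≤ M^A`, `M1 ≤ X ≤ N ≤ M1^(A+1)`.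
Let `t` be in the set. If a minor vanishes: at most `(g+1)² (N+1)^(d-1)` of them (`D31_minor`). Otherwise `NZ S b' t X` (`|minr| ≤ 2 max|a_i| max|val| ≤ C' N ≤ X^3`). If for all `j` with `R ≤ j`, `R X ≤ N - γ0 - γ j X` the point `t` is not `Bad` at `n0 = j X` (with `ε'/4`), then
`N9a_comb` (with `D = Dn S b' t X`, `N7_upper`) and `N6_lim` (`ε'`), `(log X)^k ≤ (log N)^k ≤ (1 + ε') (log X)^k` give the formula with `ε`, contradiction. So `t` is `Bad` at `j X` for one of these `j`; there are at most `2 W + 2` of them (`γ j X ≤ N + |γ0|`), and for each `j`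
the values satisfy `R X ≤ val b' (jX) t i ≤ C1 X` (`i = 0`: condition on `j`; `i ≥ 1`: `f_i j X + shift ≥ j X ≥ R X`, `S.sa ≥ 1`), so at most `X^(d-κ)` such `t`. The total `(2W+2) N^(d-κ) + (g+1)² (N+1)^(d-1) ≤ N^(d-η)`, `η = κ/2`. -/
theorem N9b_main {g d : ℕ} (hd : 1 ≤ d) (γ : ℕ) (hγ : 0 < γ) (γ0 : ℤ) (f : Fin g → ℤ) (hf : ∀ i, 0 < f i)
    (c : Fin g → Fin d → ℤ) (hC : ACore (gsys γ f c)) (hM : MinP (gsys γ f c)) (C A : ℕ) (hA : 1 ≤ A) (ε : ℝ) (hε : 0 < ε) :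
    ∃ η : ℝ, 0 < η ∧ ∀ M0 : ℕ, ∃ M : ℕ, M0 ≤ M ∧ ∀ N : ℕ, M ≤ N → N ≤ M ^ A → ∀ b : Fin g → ℤ, (∀ i, |b i| ≤ (C * N : ℕ)) →
    (((bx d (N + 1)).filter (fun t => (∀ i, 0 ≤ b i + ∑ j, c i j * t j) ∧
      (gsys γ f c).Adm (Fin.cons ((N : ℤ) - γ0) b) (iv t) ∧
      ¬ ∃ s : ℝ, 0 < s ∧ Tendsto (fun z : ℕ => SSS (gsys γ f c) (Fin.cons ((N : ℤ) - γ0) b) (iv t) (pr z)) atTop (nhds s) ∧
        |(NPr (gsys γ f c) (Fin.cons ((N : ℤ) - γ0) b) (iv t) 1 (N + γ0.natAbs) : ℝ) - N / γ * (s / Real.log N ^ (g + 1))| ≤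
          ε * (N / γ * (s / Real.log N ^ (g + 1))))).card : ℝ) ≤ (N : ℝ) ^ (d - η) := by
  have ha : ∀ i, (gsys (γ : ℤ) f c).a i ≠ 0 := by
    intro i
    refine Fin.cases ?_ (fun i => ?_) i
    · show (-(γ : ℤ)) ≠ 0
      omega
    · show f i ≠ 0
      exact (hf i).ne'
  obtain ⟨e, he⟩ : ∃ e : ℝ, e = min ε 1 / 16 := ⟨_, rfl⟩
  have he0 : 0 < e := by
    rw [he]
    have : 0 < min ε 1 := lt_min hε one_pos
    linarith
  have he1 : 16 * e ≤ 1 := by
    rw [he]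
    have := min_le_right ε 1
    linarith
  have heε : 16 * e ≤ ε := by
    rw [he]
    have := min_le_left ε 1
    linarith
  obtain ⟨Cs, hCs, X7, h7⟩ := N7_upper (k := g + 1) (by omega) (gsys (γ : ℤ) f c) ha
  obtain ⟨W, hW, N9, h9⟩ := N9a_comb γ hγ γ0 f hf c e Cs he0 hCs
  obtain ⟨X6, h6⟩ := N6_lim (gsys (γ : ℤ) f c) ha e he0
  obtain ⟨X2, h2⟩ := n9_log W (g + 1) e he0
  obtain ⟨Fs, hFs⟩ : ∃ Fs : ℕ, Fs = ∑ i, (f i).natAbs := ⟨_, rfl⟩
  obtain ⟨C1, hC1⟩ : ∃ C1 : ℕ, C1 = Fs * (4 * W) + (C + (gsys (γ : ℤ) f c).sc + 2) * (2 * W) := ⟨_, rfl⟩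
  obtain ⟨κ, hκ, hκ1, h8⟩ := N8_cover (gsys (γ : ℤ) f c) hC C1 (A + 1) (by omega) (e / 4) (by linarith)
  obtain ⟨B, hB⟩ : ∃ B : ℕ, B = 4 * W + (g + 1) * (g + 1) * 2 ^ (d - 1) := ⟨_, rfl⟩
  obtain ⟨N1, hN1⟩ := n9_pow B (κ / 2) (by linarith)
  refine ⟨κ / 2, by linarith, fun M0 => ?_⟩
  obtain ⟨M1, hM1, h8'⟩ := h8 (M0 + X7 + N9 + X6 + X2 + N1 + γ0.natAbs +
    4 * W * (gsys (γ : ℤ) f c).sa * (C + (gsys (γ : ℤ) f c).sc + 2) + (2 * W) ^ A + 1)
  refine ⟨W * (M1 + 1), ?_, fun N hMN hNM b hb => ?_⟩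
  · have : M1 + 1 ≤ W * (M1 + 1) := Nat.le_mul_of_pos_left _ hW
    omega
  obtain ⟨X, hX⟩ : ∃ X : ℕ, X = N / W := ⟨_, rfl⟩
  have hXM : M1 + 1 ≤ X := by
    rw [hX, Nat.le_div_iff_mul_le (by omega), Nat.mul_comm]
    exact hMN
  have hXN : X ≤ N := by
    rw [hX]
    exact Nat.div_le_self _ _
  have hX1 : 1 ≤ X := by omega
  have hNX : N + 1 ≤ 2 * W * X := by
    have h1 := Nat.div_add_mod N W
    have h2 := Nat.mod_lt N (show 0 < W by omega)
    rw [← hX] at h1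
    nlinarith
  have hXA : X ≤ M1 ^ (A + 1) := by
    calc X ≤ N := hXN
      _ ≤ (W * (M1 + 1)) ^ A := hNM
      _ ≤ (2 * W * M1) ^ A := by
        have h1 : W * 1 ≤ W * M1 := Nat.mul_le_mul_left _ (by omega)
        refine Nat.pow_le_pow_left ?_ A
        have h2 : W * (M1 + 1) = W * M1 + W * 1 := by ring
        have h3 : 2 * W * M1 = W * M1 + W * M1 := by ring
        omega
      _ = (2 * W) ^ A * M1 ^ A := mul_pow _ _ _
      _ ≤ M1 * M1 ^ A := Nat.mul_le_mul_right _ (by omega)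
      _ = M1 ^ (A + 1) := by ring
  have hγ0N : γ0.natAbs ≤ N := by omega
  have h8N := h8' X (by omega) hXA (Fin.cons ((N : ℤ) - γ0) b)
  have h9N := h9 N (by omega) b
  rw [← hX] at h9N
  obtain ⟨hl1, hl2, hl3⟩ := h2 X N (by omega) hXN (by omega)
  have hC1X : C1 * X = Fs * (4 * W * X) + (C + (gsys (γ : ℤ) f c).sc) * (2 * W * X) + 2 * (2 * W * X) := by
    rw [hC1]
    ring
  have hNC1 : N + 1 ≤ C1 * X := by
    rw [hC1X]
    have h1 := Nat.zero_le (Fs * (4 * W * X))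
    have h3 := Nat.zero_le ((C + (gsys (γ : ℤ) f c).sc) * (2 * W * X))
    omega
  obtain ⟨Zj, hZj⟩ : ∃ Zj : ℕ → Finset (Fin d → ℕ), Zj = fun j => (bx d (N + 1)).filter (fun t =>
      (∀ i, (20 * (gsys (γ : ℤ) f c).sa * X : ℕ) ≤ (gsys (γ : ℤ) f c).val (Fin.cons ((N : ℤ) - γ0) b) ((j * X : ℕ) : ℤ) (iv t) i ∧
        (gsys (γ : ℤ) f c).val (Fin.cons ((N : ℤ) - γ0) b) ((j * X : ℕ) : ℤ) (iv t) i ≤ (C1 * X : ℕ)) ∧
      Bad (gsys (γ : ℤ) f c) (Fin.cons ((N : ℤ) - γ0) b) ((j * X : ℕ) : ℤ) X (e / 4) t) := ⟨_, rfl⟩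
  have hZ : ∀ j, ((Zj j).card : ℝ) ≤ (X : ℝ) ^ (d - κ) := by
    intro j
    refine h8N ((j * X : ℕ) : ℤ) (N + 1) hNC1 (Zj j) fun t ht => ?_
    rw [hZj] at ht
    obtain ⟨ht1, ht2⟩ := mem_filter.1 ht
    exact ⟨ht1, ht2.1, ht2.2⟩
  obtain ⟨Zm, hZm⟩ : ∃ Zm : Finset (Fin d → ℕ), Zm = (bx d (N + 1)).filter (fun t => ∃ i j, i ≠ j ∧
      (gsys (γ : ℤ) f c).minr (Fin.cons ((N : ℤ) - γ0) b) (iv t) i j = 0) := ⟨_, rfl⟩
  have hZmc : Zm.card ≤ (g + 1) * (g + 1) * (N + 1) ^ (d - 1) := by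
    rw [hZm]
    exact Pool.Agent.HUK.D31_minor (gsys (γ : ℤ) f c) hM hd (Fin.cons ((N : ℤ) - γ0) b) (N + 1) (by omega)
  have hsub : (bx d (N + 1)).filter (fun t => (∀ i, 0 ≤ b i + ∑ j, c i j * t j) ∧
      (gsys γ f c).Adm (Fin.cons ((N : ℤ) - γ0) b) (iv t) ∧
      ¬ ∃ s : ℝ, 0 < s ∧ Tendsto (fun z : ℕ => SSS (gsys γ f c) (Fin.cons ((N : ℤ) - γ0) b) (iv t) (pr z)) atTop (nhds s) ∧
        |(NPr (gsys γ f c) (Fin.cons ((N : ℤ) - γ0) b) (iv t) 1 (N + γ0.natAbs) : ℝ) - N / γ * (s / Real.log N ^ (g + 1))| ≤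
          ε * (N / γ * (s / Real.log N ^ (g + 1)))) ⊆ Zm ∪ (range (4 * W)).biUnion Zj := by
    intro t ht
    rw [mem_filter] at ht
    obtain ⟨ht1, ht2, ht3, ht4⟩ := ht
    rw [mem_union]
    by_contra hno
    rw [not_or] at hno
    obtain ⟨hno1, hno2⟩ := hno
    have htj : ∀ j, t j ≤ N := by
      intro j
      have := Fintype.mem_piFinset.1 ht1 j
      rw [mem_range] at this
      omega
    have hm : ∀ i j, i ≠ j → (gsys (γ : ℤ) f c).minr (Fin.cons ((N : ℤ) - γ0) b) (iv t) i j ≠ 0 := by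
      intro i j hij h0
      apply hno1
      rw [hZm]
      exact mem_filter.2 ⟨ht1, i, j, hij, h0⟩
    have hNZ := n9_nz γ γ0 f c C N X W b hb t htj hγ0N (by omega) hX1 (by omega) hm
    obtain ⟨s, hs0, hs1, hs2⟩ := h6 X (by omega) (Fin.cons ((N : ℤ) - γ0) b) (iv t) ht3 hNZ
    apply ht4
    refine ⟨s, hs0, hs1, ?_⟩
    have hD0 : 0 ≤ Dn (gsys (γ : ℤ) f c) (Fin.cons ((N : ℤ) - γ0) b) (iv t) X := by
      refine div_nonneg ?_ hl1.le
      have h1 := (abs_le.1 hs2).1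
      nlinarith
    have hmain := h9N (iv t) (Dn (gsys (γ : ℤ) f c) (Fin.cons ((N : ℤ) - γ0) b) (iv t) X) hD0 ?_ ?_
    · refine n9_calc _ _ (SSS (gsys (γ : ℤ) f c) (Fin.cons ((N : ℤ) - γ0) b) (iv t) (pr X)) s
        ((Real.log X) ^ (g + 1)) ((Real.log N) ^ (g + 1)) e ε (by positivity) hs0 hl1 hl2 hl3 he0 he1 heε hs2 hmain
    · intro j hj1 hj2
      by_contra hbad
      rw [not_le] at hbad
      apply hno2
      rw [mem_biUnion]
      have hjX0 : (0 : ℤ) ≤ ((j * X : ℕ) : ℤ) := Int.natCast_nonneg _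
      have hjγ : ((j * X : ℕ) : ℤ) ≤ (γ : ℤ) * ((j * X : ℕ) : ℤ) := by
        have : (1 : ℤ) ≤ γ := by exact_mod_cast hγ
        nlinarith
      have hRX0 : (0 : ℤ) ≤ ((20 * (gsys (γ : ℤ) f c).sa * X : ℕ) : ℤ) := Int.natCast_nonneg _
      have hjN : ((j * X : ℕ) : ℤ) ≤ 2 * (N : ℤ) := by omega
      have hjN' : j * X ≤ 2 * N := by exact_mod_cast hjN
      refine ⟨j, ?_, ?_⟩
      · rw [mem_range]
        by_contra hge
        rw [not_lt] at hge
        have h1 : 4 * W * X ≤ j * X := Nat.mul_le_mul_right _ hge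
        have h3 : 4 * W * X = 2 * (2 * W * X) := by ring
        omega
      · rw [hZj]
        refine mem_filter.2 ⟨ht1, fun i => ?_, ht3, hbad⟩
        have h4W : 4 * W * X = 2 * (2 * W * X) := by ring
        refine Fin.cases ?_ (fun i => ?_) i
        · rw [g1_val0]
          refine ⟨hj2, ?_⟩
          rw [hC1X]
          have h1 := Nat.zero_le (Fs * (4 * W * X))
          have h3 := Nat.zero_le ((C + (gsys (γ : ℤ) f c).sc) * (2 * W * X))
          omega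
        · rw [g1_valS]
          have hiv : ∀ j, iv t j = (t j : ℤ) := fun j => rfl
          simp only [hiv]
          have h10 := ht2 i
          have h11 : ((j * X : ℕ) : ℤ) ≤ f i * ((j * X : ℕ) : ℤ) := by
            have : 1 ≤ f i := hf i
            nlinarith
          have h12 : ((20 * (gsys (γ : ℤ) f c).sa * X : ℕ) : ℤ) ≤ ((j * X : ℕ) : ℤ) := by
            exact_mod_cast Nat.mul_le_mul_right X hj1
          refine ⟨by linarith, ?_⟩
          have h13 := (abs_le.1 (hb i)).2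
          have h14 := (abs_le.1 (n9_abs γ f c N t htj i)).2
          have h15 : f i * ((j * X : ℕ) : ℤ) ≤ ((Fs * (j * X) : ℕ) : ℤ) := by
            push_cast
            refine mul_le_mul_of_nonneg_right ?_ (by positivity)
            have h16 : (f i).natAbs ≤ Fs := by
              rw [hFs]
              exact Finset.single_le_sum (f := fun i => (f i).natAbs) (fun _ _ => Nat.zero_le _) (mem_univ i)
            have h17 : f i ≤ ((f i).natAbs : ℤ) := Int.le_natAbs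
            exact h17.trans (by exact_mod_cast h16)
          have h18 : Fs * (j * X) + (C * N + (gsys (γ : ℤ) f c).sc * N) ≤ C1 * X := by
            rw [hC1X]
            have h19 : Fs * (j * X) ≤ Fs * (4 * W * X) := Nat.mul_le_mul_left _ (by omega)
            have h20 : (C + (gsys (γ : ℤ) f c).sc) * N ≤ (C + (gsys (γ : ℤ) f c).sc) * (2 * W * X) :=
              Nat.mul_le_mul_left _ (by omega)
            have h21 : (C + (gsys (γ : ℤ) f c).sc) * N = C * N + (gsys (γ : ℤ) f c).sc * N := Nat.add_mul _ _ _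
            omega
          have h22 : ((Fs * (j * X) : ℕ) : ℤ) + (((C * N : ℕ) : ℤ) + (((gsys (γ : ℤ) f c).sc * N : ℕ) : ℤ)) ≤
              ((C1 * X : ℕ) : ℤ) := by exact_mod_cast h18
          linarith
    · intro n0 L hL
      exact h7 X (by omega) (Fin.cons ((N : ℤ) - γ0) b) (iv t) ht3 hNZ n0 L hL
  have hcard : (((Zm ∪ (range (4 * W)).biUnion Zj).card : ℕ) : ℝ) ≤ (B : ℝ) * (N : ℝ) ^ (d - κ) := by
    have hN1' : (1 : ℝ) ≤ N := by exact_mod_cast hX1.trans hXN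
    have h1 : ((((range (4 * W)).biUnion Zj).card : ℕ) : ℝ) ≤ (4 * W : ℕ) * (N : ℝ) ^ (d - κ) := by
      calc ((((range (4 * W)).biUnion Zj).card : ℕ) : ℝ) ≤ ((∑ j ∈ range (4 * W), (Zj j).card : ℕ) : ℝ) := by
            exact_mod_cast card_biUnion_le
        _ = ∑ j ∈ range (4 * W), ((Zj j).card : ℝ) := by push_cast; rfl
        _ ≤ ∑ j ∈ range (4 * W), (N : ℝ) ^ (d - κ) := by
            refine Finset.sum_le_sum fun j _ => (hZ j).trans ?_
            have hd' : (1 : ℝ) ≤ d := by exact_mod_cast hd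
            exact Real.rpow_le_rpow (Nat.cast_nonneg _) (by exact_mod_cast hXN) (by linarith)
        _ = (4 * W : ℕ) * (N : ℝ) ^ (d - κ) := by
            rw [Finset.sum_const, card_range, nsmul_eq_mul]
    have h3 : ((Zm.card : ℕ) : ℝ) ≤ ((g + 1) * (g + 1) * 2 ^ (d - 1) : ℕ) * (N : ℝ) ^ (d - κ) := by
      calc ((Zm.card : ℕ) : ℝ) ≤ (((g + 1) * (g + 1) * (N + 1) ^ (d - 1) : ℕ) : ℝ) := by exact_mod_cast hZmc
        _ ≤ (((g + 1) * (g + 1) * (2 * N) ^ (d - 1) : ℕ) : ℝ) := by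
            have : (N + 1) ^ (d - 1) ≤ (2 * N) ^ (d - 1) := Nat.pow_le_pow_left (by omega) _
            exact_mod_cast Nat.mul_le_mul_left _ this
        _ = ((g + 1) * (g + 1) * 2 ^ (d - 1) : ℕ) * (N : ℝ) ^ (d - 1) := by
            push_cast
            rw [mul_pow]
            ring
        _ ≤ ((g + 1) * (g + 1) * 2 ^ (d - 1) : ℕ) * (N : ℝ) ^ (d - κ) := by
            refine mul_le_mul_of_nonneg_left ?_ (Nat.cast_nonneg _)
            rw [← Real.rpow_natCast]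
            refine Real.rpow_le_rpow_of_exponent_le hN1' ?_
            rw [Nat.cast_sub hd, Nat.cast_one]
            linarith
    calc (((Zm ∪ (range (4 * W)).biUnion Zj).card : ℕ) : ℝ) ≤ ((Zm.card + ((range (4 * W)).biUnion Zj).card : ℕ) : ℝ) := by
          exact_mod_cast card_union_le _ _
      _ = ((Zm.card : ℕ) : ℝ) + ((((range (4 * W)).biUnion Zj).card : ℕ) : ℝ) := by push_cast; rfl
      _ ≤ ((g + 1) * (g + 1) * 2 ^ (d - 1) : ℕ) * (N : ℝ) ^ (d - κ) + (4 * W : ℕ) * (N : ℝ) ^ (d - κ) := add_le_add h3 h1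
      _ = (B : ℝ) * (N : ℝ) ^ (d - κ) := by
          rw [hB]
          push_cast
          ring
  refine (Nat.cast_le.2 (card_le_card hsub)).trans (hcard.trans ?_)
  have hN0 : (0 : ℝ) < N := by
    have : 1 ≤ N := hX1.trans hXN
    exact_mod_cast this
  have h23 : (N : ℝ) ^ (d - κ / 2) = (N : ℝ) ^ (κ / 2) * (N : ℝ) ^ (d - κ) := by
    rw [← Real.rpow_add hN0]
    congr 1
    ring
  rw [h23]
  exact mul_le_mul_of_nonneg_right (hN1 N (by omega)) (Real.rpow_nonneg hN0.le _)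

end Pool.Agent.H9A
end

-- from Lib.H9A.N10a
section

/-!
# ASY, chunk N10a (M): the quantities of the problem
-/

open Finset Filter Polynomial

namespace Pool.Agent.H9A

open Pool.Agent.H9U
open Pool.Agent.H96U (gsys g1_val0 g1_valS)
open Pool.Agent.Lib.H59
open Pool.Agent.Lib.H59P (bx pr)

/-- The constant term `b_i + ∑_j c_ij t_j`. -/
def shiftA {g d : ℕ} (c : Fin g → Fin d → ℤ) (b : Fin g → ℤ) (t : Fin d → ℕ) (i : Fin g) : ℤ :=
  b i + ∑ j, c i j * t j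

/-- The polynomials `F_i = f_i x + b_i + ∑_j c_ij t_j`. -/
noncomputable def familyA {g d : ℕ} (f : Fin g → ℤ) (c : Fin g → Fin d → ℤ) (b : Fin g → ℤ) (t : Fin d → ℕ) :
    Fin g → ℤ[X] :=
  fun i => C (f i) * X + C (shiftA c b t i)

/-- The asymptotic formula of Q1 (all degrees `1`) at `N` up to the factor `1 ± ε`, with the complete singular series. -/
def AsymA {g : ℕ} (F : Fin g → ℤ[X]) (G : ℤ[X]) (N : ℕ) (ε : ℝ) : Prop :=
  ∃ s : ℝ, Tendsto (fun z : ℕ => seriesTrunc F G N z) atTop (nhds s) ∧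
    |(primeCount F G N : ℝ) - argCount G N / Real.log (argCount G N) ^ (g + 1) * s| ≤
      ε * (argCount G N / Real.log (argCount G N) ^ (g + 1) * s)

/-- values of the polynomials -/
theorem n10a_ev {g d : ℕ} (f : Fin g → ℤ) (c : Fin g → Fin d → ℤ) (b : Fin g → ℤ) (t : Fin d → ℕ) (i : Fin g) (n : ℤ) :
    (familyA f c b t i).eval n = f i * n + (b i + ∑ j, c i j * t j) := by
  unfold familyA shiftA
  rw [eval_add, eval_mul, eval_C, eval_X, eval_C]

/-- a value is a prime -/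
theorem n10a_prime (z : ℤ) : z.toNat.Prime ↔ ∃ q : ℕ, q.Prime ∧ z = q := by
  constructor
  · intro h
    have h1 := h.pos
    exact ⟨z.toNat, h, by omega⟩
  · rintro ⟨q, hq, rfl⟩
    rwa [Int.toNat_natCast]

/-- the values of the system at `n` are all primes -/
theorem n10a_all {g d : ℕ} (γ : ℕ) (γ0 : ℤ) (f : Fin g → ℤ) (c : Fin g → Fin d → ℤ) (b : Fin g → ℤ) (t : Fin d → ℕ) (N : ℕ)
    (G : ℤ[X]) (hGe : ∀ n : ℤ, G.eval n = γ * n + γ0) (n : ℤ) :
    (∀ i, ((gsys γ f c).val (Fin.cons ((N : ℤ) - γ0) b) n (iv t) i).toNat.Prime) ↔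
      (∀ i, ∃ q : ℕ, q.Prime ∧ (familyA f c b t i).eval n = q) ∧ ∃ q : ℕ, q.Prime ∧ (N : ℤ) - G.eval n = q := by
  have e0 : (N : ℤ) - G.eval n = (N : ℤ) - γ0 - γ * n := by
    rw [hGe]
    ring
  rw [Fin.forall_fin_succ, g1_val0, n10a_prime, e0, and_comm]
  refine and_congr (forall_congr' fun i => ?_) Iff.rfl
  rw [g1_valS, n10a_prime, n10a_ev]
  rfl

/-- `p` divides one of the values -/
theorem n10a_dvd {g d : ℕ} (γ : ℕ) (γ0 : ℤ) (f : Fin g → ℤ) (c : Fin g → Fin d → ℤ) (b : Fin g → ℤ) (t : Fin d → ℕ) (N : ℕ)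
    (G : ℤ[X]) (hGe : ∀ n : ℤ, G.eval n = γ * n + γ0) (n : ℤ) (p : ℕ) (hp : p.Prime) :
    (p : ℤ) ∣ ((∏ i, familyA f c b t i) * (C (N : ℤ) - G)).eval n ↔
      ∃ i, (p : ℤ) ∣ (gsys γ f c).val (Fin.cons ((N : ℤ) - γ0) b) n (iv t) i := by
  have hp' : Prime (p : ℤ) := Nat.prime_iff_prime_int.1 hp
  have e0 : (N : ℤ) - G.eval n = (N : ℤ) - γ0 - γ * n := by
    rw [hGe]
    ring
  rw [eval_mul, eval_prod, eval_sub, eval_C, e0, hp'.dvd_mul, hp'.dvd_finsetProd_iff, Fin.exists_fin_succ, g1_val0, or_comm]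
  refine or_congr Iff.rfl ?_
  constructor
  · rintro ⟨i, -, h⟩
    refine ⟨i, ?_⟩
    rw [g1_valS]
    rw [n10a_ev] at h
    exact h
  · rintro ⟨i, h⟩
    refine ⟨i, mem_univ i, ?_⟩
    rw [g1_valS] at h
    rw [n10a_ev]
    exact h

/-- the number of arguments -/
theorem n10a_arg (G : ℤ[X]) (γ : ℕ) (hγ : 0 < γ) (γ0 : ℤ) (hGe : ∀ n : ℤ, G.eval n = γ * n + γ0) (N : ℕ) :
    argCount G N = (((N : ℤ) - γ0 - 1) / γ).toNat := by
  have hγ' : (0 : ℤ) < γ := by exact_mod_cast hγ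
  have h1 : argSet G N = ((Icc 1 (((N : ℤ) - γ0 - 1) / γ).toNat : Finset ℕ) : Set ℕ) := by
    ext n
    rw [mem_coe, mem_Icc]
    have h2 : (n : ℤ) ≤ ((N : ℤ) - γ0 - 1) / γ ↔ (n : ℤ) * γ ≤ (N : ℤ) - γ0 - 1 := Int.le_ediv_iff_mul_le hγ'
    have e0 : (γ : ℤ) * n = n * γ := mul_comm _ _
    constructor
    · rintro ⟨h3, h4⟩
      rw [hGe, e0] at h4
      have h5 := h2.2 (by linarith)
      omega
    · rintro ⟨h3, h4⟩
      have h5 := h2.1 (by omega)
      refine ⟨by omega, ?_⟩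
      rw [hGe, e0]
      linarith
  unfold argCount
  rw [h1, Set.ncard_coe_finset, Nat.card_Icc]
  omega

/-- Translation of the three quantities of the problem, `G = γ x + γ0`.

Proof. `G.eval n = γ n + γ0` (`eq_X_add_C_of_natDegree_le_one`, as in `H96U/TestG.lean`). `primeCount`: the `n ≥ 1` with `N - γ0 - γ n > 0` (so `n ≤ N + |γ0|`) and all values prime; a value `z : ℤ` is a prime iff `z.toNat.Prime`; `n = 1 + m`,
`m < N + |γ0|`. `seriesTrunc F G N (z + 1) = SSS (pr z)`: `Nat.primesBelow (z + 1) = pr z`, `T0S_tp`, `omegaN F G N p = nuS`, (`p ∣ (∏ F_i) (N - G)` at `a` iff `p` divides one of the values, `p` prime),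
`((1 - 1/p)^(g+1))⁻¹ = (p/(p-1))^(g+1)`. `argCount`: `n ≥ 1` with `γ n < N - γ0`: `|argCount - N/γ| ≤ |γ0| + 1`. -/
theorem N10_trans {g d : ℕ} (G : ℤ[X]) (γ : ℕ) (hγ : 0 < γ) (γ0 : ℤ) (hGe : ∀ n : ℤ, G.eval n = γ * n + γ0)
    (f : Fin g → ℤ) (c : Fin g → Fin d → ℤ) (b : Fin g → ℤ) (t : Fin d → ℕ) (N : ℕ) :
    primeCount (familyA f c b t) G N = NPr (gsys γ f c) (Fin.cons ((N : ℤ) - γ0) b) (iv t) 1 (N + γ0.natAbs) ∧
    (∀ z : ℕ, seriesTrunc (familyA f c b t) G N (z + 1) =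
      SSS (gsys γ f c) (Fin.cons ((N : ℤ) - γ0) b) (iv t) (pr z)) ∧
    |(argCount G N : ℝ) - N / γ| ≤ γ0.natAbs + 1 := by
  classical
  have hγ' : (0 : ℤ) < γ := by exact_mod_cast hγ
  refine ⟨?_, fun z => ?_, ?_⟩
  · unfold primeCount NPr
    have e1 : {n : ℕ | n ∈ argSet G N ∧ (∀ i, ∃ q : ℕ, q.Prime ∧ (familyA f c b t i).eval (n : ℤ) = q) ∧
        ∃ q : ℕ, q.Prime ∧ (N : ℤ) - G.eval (n : ℤ) = q} =
        ((((range (N + γ0.natAbs)).filter (fun n : ℕ => ∀ i, ((gsys γ f c).val (Fin.cons ((N : ℤ) - γ0) b) (1 + n) (iv t) i).toNat.Prime)).image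
          (fun n => 1 + n) : Finset ℕ) : Set ℕ) := by
      ext n
      rw [Set.mem_ofPred_eq, mem_coe, mem_image]
      constructor
      · rintro ⟨⟨h1, h2⟩, h3⟩
        refine ⟨n - 1, ?_, by omega⟩
        have e2 : (1 : ℤ) + ((n - 1 : ℕ) : ℤ) = n := by omega
        rw [mem_filter, mem_range, e2]
        refine ⟨?_, (n10a_all γ γ0 f c b t N G hGe n).2 h3⟩
        rw [hGe] at h2
        have h5 : (n : ℤ) ≤ γ * n := by nlinarith [Int.natCast_nonneg n]
        omega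
      · rintro ⟨m, hm, rfl⟩
        rw [mem_filter] at hm
        have h3 := (n10a_all γ γ0 f c b t N G hGe (1 + m)).1 hm.2
        have e2 : ((1 + m : ℕ) : ℤ) = 1 + m := by push_cast; rfl
        rw [e2]
        refine ⟨⟨by omega, ?_⟩, h3⟩
        rw [e2]
        obtain ⟨q, hq, h4⟩ := h3.2
        rw [h4]
        exact_mod_cast hq.pos
    rw [e1, Set.ncard_coe_finset, card_image_of_injective _ (fun a b h => by
      have h' : 1 + a = 1 + b := h
      omega)]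
  · unfold seriesTrunc SSS
    have e1 : Nat.primesBelow (z + 1) = pr z := by
      ext p
      unfold Nat.primesBelow pr
      rw [mem_filter, mem_filter, mem_range, mem_Icc]
      constructor
      · rintro ⟨h1, h2⟩
        exact ⟨⟨h2.one_lt.le, by omega⟩, h2⟩
      · rintro ⟨h1, h2⟩
        exact ⟨by omega, h2⟩
    rw [e1]
    refine prod_congr rfl fun p hp => ?_
    have hp' : p.Prime := (mem_filter.1 hp).2
    rw [T0S_tp _ _ _ p hp']
    have e2 : omegaN (familyA f c b t) G N p = nuS (gsys γ f c) (Fin.cons ((N : ℤ) - γ0) b) (iv t) p := by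
      unfold omegaN nuS
      refine congrArg card ?_
      ext a
      rw [mem_filter, mem_filter, n10a_dvd γ γ0 f c b t N G hGe a p hp']
    rw [e2]
    have h1 : (1 : ℝ) < p := by exact_mod_cast hp'.one_lt
    have h0 : (p : ℝ) ≠ 0 := by linarith
    have h2 : (p : ℝ) - 1 ≠ 0 := by linarith
    congr 1
    rw [← inv_pow]
    congr 1
    rw [one_sub_div h0, inv_div]
  · rw [n10a_arg G γ hγ γ0 hGe N]
    have hγr : (1 : ℝ) ≤ γ := by exact_mod_cast hγ
    have hab : |(γ0 : ℝ)| = γ0.natAbs := by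
      rw [← Int.cast_abs, Int.abs_eq_natAbs, Int.cast_natCast]
    have hab2 := abs_le.1 (le_of_eq hab)
    obtain ⟨a, ha⟩ : ∃ a : ℝ, a = (γ0.natAbs : ℝ) := ⟨_, rfl⟩
    rw [← ha] at hab2 ⊢
    have ha0 : 0 ≤ a := by
      rw [ha]
      exact Nat.cast_nonneg _
    rcases le_or_gt ((N : ℤ) - γ0 - 1) 0 with h | h
    · have h1 : (((N : ℤ) - γ0 - 1) / γ).toNat = 0 := by
        have h2 : ((N : ℤ) - γ0 - 1) / γ ≤ 0 := by
          have h3 := Int.ediv_le_ediv hγ' h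
          rwa [Int.zero_ediv] at h3
        omega
      rw [h1, Nat.cast_zero, zero_sub, abs_neg, abs_of_nonneg (by positivity)]
      have h4 : (N : ℝ) ≤ γ0 + 1 := by
        have h5 : (N : ℤ) ≤ γ0 + 1 := by linarith
        exact_mod_cast h5
      calc (N : ℝ) / γ ≤ N := div_le_self (Nat.cast_nonneg _) hγr
        _ ≤ a + 1 := by linarith
    · obtain ⟨q, hq⟩ : ∃ q : ℤ, q = ((N : ℤ) - γ0 - 1) / γ := ⟨_, rfl⟩
      have hq0 : 0 ≤ q := by
        rw [hq]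
        exact Int.ediv_nonneg h.le hγ'.le
      have h1 : ((q.toNat : ℕ) : ℝ) = q := by
        have : ((q.toNat : ℕ) : ℤ) = q := Int.toNat_of_nonneg hq0
        exact_mod_cast this
      rw [← hq, h1]
      have h2 : q * γ ≤ (N : ℤ) - γ0 - 1 := (Int.le_ediv_iff_mul_le hγ').1 hq.le
      have h3 : (N : ℤ) - γ0 - 1 < (q + 1) * γ := by
        have h4 := Int.lt_ediv_add_one_mul_self ((N : ℤ) - γ0 - 1) hγ'
        rwa [← hq] at h4
      have h2' : (q : ℝ) * γ ≤ N - γ0 - 1 := by exact_mod_cast h2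
      have h3' : (N : ℝ) - γ0 - 1 < (q + 1) * γ := by exact_mod_cast h3
      have hγ0 : (0 : ℝ) < γ := by linarith
      have h4' : (N : ℤ) - γ0 ≤ (q + 1) * γ := by omega
      have h4 : (N : ℝ) - γ0 ≤ (q + 1) * γ := by exact_mod_cast h4'
      rw [abs_le]
      constructor
      · have h5 : (N : ℝ) / γ ≤ q + 1 + a := by
          rw [div_le_iff₀ hγ0]
          nlinarith
        linarith
      · have h5 : (q : ℝ) - a ≤ N / γ := by
          rw [le_div_iff₀ hγ0]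
          nlinarith
        linarith

end Pool.Agent.H9A
end

-- from Lib.H9A.N10
section

/-!
# ASY, chunk N10 (M): the asymptotic formula in terms of the problem
-/

open Finset Filter Polynomial

namespace Pool.Agent.H9A

open Pool.Agent.H9U
open Pool.Agent.H96U (gsys g1_val0 g1_valS Fin2 fin_gsys)
open Pool.Agent.Lib.H59
open Pool.Agent.Lib.H59P (bx pr)

/-- replacing `N / γ` by the number `x` of the arguments, `log N` by `log x` -/
theorem n10_ratio (γ K k : ℕ) (hγ : 0 < γ) (e : ℝ) (he : 0 < e) : ∃ N1 : ℕ, ∀ N : ℕ, N1 ≤ N → ∀ x : ℕ,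
    |(x : ℝ) - N / γ| ≤ K → 0 < (N : ℝ) / γ / Real.log N ^ k ∧
      |(x : ℝ) / Real.log x ^ k - N / γ / Real.log N ^ k| ≤ e * (N / γ / Real.log N ^ k) := by
  have hc : ContinuousAt (fun p : ℝ × ℝ => p.1 * p.2 ^ k) (1, 1) := by fun_prop
  have h1 : ∀ᶠ p : ℝ × ℝ in nhds (1, 1), |p.1 * p.2 ^ k - 1| < e := by
    have h2 := Metric.continuousAt_iff.1 hc e he
    obtain ⟨δ, hδ, h3⟩ := h2
    refine Metric.eventually_nhds_iff.2 ⟨δ, hδ, fun p hp => ?_⟩
    have h4 := h3 hp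
    rw [Real.dist_eq] at h4
    simpa using h4
  obtain ⟨δ, hδ, h2⟩ := Metric.eventually_nhds_iff.1 h1
  have hγ1 : (1 : ℝ) ≤ γ := by exact_mod_cast hγ
  have hγ0 : (0 : ℝ) < γ := by linarith
  obtain ⟨L, hL⟩ : ∃ L : ℝ, L = Real.log (2 * γ) := ⟨_, rfl⟩
  have hL0 : 0 < L := by
    rw [hL]
    exact Real.log_pos (by linarith)
  have hN : Tendsto (fun N : ℕ => (N : ℝ)) atTop atTop := tendsto_natCast_atTop_atTop
  have hlN : Tendsto (fun N : ℕ => Real.log (N : ℝ)) atTop atTop := Real.tendsto_log_atTop.comp hN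
  have e1 := hN.eventually_gt_atTop (K * γ / δ)
  have e2 := hN.eventually_gt_atTop (2 * γ * K)
  have e3 := hlN.eventually_gt_atTop (L + L / δ)
  have e4 := hN.eventually_gt_atTop 1
  obtain ⟨N1, hN1⟩ := Filter.eventually_atTop.1 (e1.and (e2.and (e3.and e4)))
  refine ⟨N1, fun N hNN x hx => ?_⟩
  obtain ⟨f1, f2, f3, f4⟩ := hN1 N hNN
  have hK0 : (0 : ℝ) ≤ K := Nat.cast_nonneg K
  obtain ⟨Y, hY⟩ : ∃ Y : ℝ, Y = (N : ℝ) / γ := ⟨_, rfl⟩
  have hYγ : Y * γ = N := by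
    rw [hY]
    exact div_mul_cancel₀ _ hγ0.ne'
  have hY0 : 0 < Y := by
    rw [hY]
    exact div_pos (by linarith) hγ0
  have hlogN : 0 < Real.log N := Real.log_pos f4
  rw [← hY] at hx ⊢
  refine ⟨div_pos hY0 (pow_pos hlogN k), ?_⟩
  have hx2 := abs_le.1 hx
  have hKY : 2 * (K : ℝ) < Y := by
    by_contra hcon
    push Not at hcon
    have : Y * γ ≤ 2 * (K : ℝ) * γ := mul_le_mul_of_nonneg_right hcon hγ0.le
    linarith
  have hxlow : (N : ℝ) / (2 * γ) ≤ x := by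
    rw [div_le_iff₀ (by linarith)]
    have h5 : Y ≤ 2 * x := by linarith
    have h6 : Y * γ ≤ 2 * x * γ := mul_le_mul_of_nonneg_right h5 hγ0.le
    linarith
  have hxup : (x : ℝ) ≤ N * (2 * γ) := by
    have h5 : (x : ℝ) ≤ 2 * Y := by linarith
    have h6 : Y ≤ N := by
      rw [← hYγ]
      exact le_mul_of_one_le_right hY0.le hγ1
    have h7 : (N : ℝ) * 2 ≤ N * (2 * γ) := by
      have := mul_le_mul_of_nonneg_left hγ1 (show (0 : ℝ) ≤ N * 2 by linarith)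
      linarith
    linarith
  have hx0 : (0 : ℝ) < x := lt_of_lt_of_le (div_pos (by linarith) (by linarith)) hxlow
  have hl1 : Real.log N - L ≤ Real.log x := by
    rw [hL, ← Real.log_div (by linarith) (by linarith)]
    exact Real.log_le_log (div_pos (by linarith) (by linarith)) hxlow
  have hl2 : Real.log x ≤ Real.log N + L := by
    rw [hL, ← Real.log_mul (by linarith) (by linarith)]
    exact Real.log_le_log hx0 hxup
  have hLδ : 0 < L / δ := div_pos hL0 hδ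
  have hlx : L / δ < Real.log x := by linarith
  have hlx0 : 0 < Real.log x := by linarith
  obtain ⟨u, hu⟩ : ∃ u : ℝ, u = x / Y := ⟨_, rfl⟩
  obtain ⟨v, hv⟩ : ∃ v : ℝ, v = Real.log N / Real.log x := ⟨_, rfl⟩
  have hu1 : |u - 1| < δ := by
    have h5 : u - 1 = (x - Y) / Y := by
      rw [hu]
      field_simp
    rw [h5, abs_div, abs_of_pos hY0, div_lt_iff₀ hY0]
    refine lt_of_le_of_lt hx ?_
    rw [div_lt_iff₀ hδ] at f1
    by_contra hcon
    push Not at hcon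
    have h6 := mul_le_mul_of_nonneg_right hcon hγ0.le
    have h7 : δ * Y * γ = N * δ := by
      rw [← hYγ]
      ring
    linarith
  have hv1 : |v - 1| < δ := by
    have h5 : v - 1 = (Real.log N - Real.log x) / Real.log x := by
      rw [hv]
      field_simp
    rw [h5, abs_div, abs_of_pos hlx0, div_lt_iff₀ hlx0]
    have h6 : |Real.log N - Real.log x| ≤ L := abs_le.2 ⟨by linarith, by linarith⟩
    rw [div_lt_iff₀ hδ] at hlx
    linarith
  have h5 := h2 (show dist (u, v) ((1 : ℝ), (1 : ℝ)) < δ by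
    rw [Prod.dist_eq, Real.dist_eq, Real.dist_eq]
    exact max_lt hu1 hv1)
  have h6 : (x : ℝ) / Real.log x ^ k - Y / Real.log N ^ k = (u * v ^ k - 1) * (Y / Real.log N ^ k) := by
    rw [hu, hv, div_pow]
    field_simp
  rw [h6, abs_mul, abs_of_pos (div_pos hY0 (pow_pos hlogN k))]
  exact mul_le_mul_of_nonneg_right h5.le (div_pos hY0 (pow_pos hlogN k)).le

/-- the last comparison -/
theorem n10_calc (P A B s e ε : ℝ) (hA : 0 < A) (hs : 0 < s) (he : 0 < e) (he1 : 8 * e ≤ 1) (heε : 8 * e ≤ ε)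
    (h1 : |P - A * s| ≤ e * (A * s)) (h2 : |B - A| ≤ e * A) : |P - B * s| ≤ ε * (B * s) := by
  have h3 := abs_le.1 h1
  have h4 := abs_le.1 h2
  have h5 : 0 < A * s := mul_pos hA hs
  have h6 : |B * s - A * s| ≤ e * (A * s) := by
    rw [← sub_mul, abs_mul, abs_of_pos hs, ← mul_assoc]
    exact mul_le_mul_of_nonneg_right h2 hs.le
  have h7 := abs_le.1 h6
  have h8 : A * s ≤ 2 * (B * s) := by nlinarith
  have h9 : 0 < B * s := by linarith
  have h10 : e * (A * s) ≤ e * (2 * (B * s)) := mul_le_mul_of_nonneg_left h8 he.le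
  have h11 : 8 * e * (B * s) ≤ ε * (B * s) := mul_le_mul_of_nonneg_right heε h9.le
  have h12 : 0 < e * (B * s) := mul_pos he h9
  rw [abs_le]
  constructor <;> linarith

/-- Proof. `γ, γ0` the coefficients of `G` (as in `TestG`), `MinP (gsys γ f c)` from `fin_gsys`. `N9b_main` with `ε' = min ε 1 / 8`; `N10_trans`; the series: `z` against `z + 1` (`tendsto_add_atTop_iff_nat 1`); with `x = argCount G N`,
`x / (log x)^(g+1)` is `(N/γ)/(log N)^(g+1)` up to a factor `1 ± ε'` for `N` large (`x/(N/γ) → 1`, `log x/log N → 1`). The `t` of `Adm`: as in `TestG` (`h3.2`). The set of the theorem is contained in the set of `N9b_main`. -/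
theorem N10_main {g d : ℕ} (hd : 1 ≤ d) (G : ℤ[X]) (hG : G.natDegree = 1)
    (hG0 : 0 < G.leadingCoeff) (f : Fin g → ℤ) (hf : ∀ i, 0 < f i) (c : Fin g → Fin d → ℤ)
    (h0 : ∀ i, c i ≠ 0) (hc : ∀ i j, i ≠ j → f i • c j ≠ f j • c i)
    (hA : ∀ γ : ℕ, 0 < γ → ACore (gsys γ f c)) (C A : ℕ) (hA1 : 1 ≤ A) (ε : ℝ) (hε : 0 < ε) :
    ∃ η : ℝ, 0 < η ∧ ∀ M₀ : ℕ, ∃ M : ℕ, M₀ ≤ M ∧ ∀ N : ℕ, M ≤ N → N ≤ M ^ A → ∀ b : Fin g → ℤ, (∀ i, |b i| ≤ C * N) →
      (({t : Fin d → ℕ | (∀ j, t j ≤ N) ∧ (∀ i, 0 ≤ shiftA c b t i) ∧ Admissible (familyA f c b t) G N ∧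
        ¬ AsymA (familyA f c b t) G N ε}.ncard : ℕ) : ℝ) ≤ (N : ℝ) ^ (d - η) := by
  classical
  have hlc : G.leadingCoeff = G.coeff 1 := by
    unfold Polynomial.leadingCoeff
    rw [hG]
  obtain ⟨γ, hγ⟩ : ∃ γ : ℕ, (γ : ℤ) = G.coeff 1 := by
    refine ⟨(G.coeff 1).toNat, Int.toNat_of_nonneg ?_⟩
    omega
  have hγ0 : 0 < (γ : ℤ) := by
    rw [hγ, ← hlc]
    exact hG0
  have hγ1 : 0 < γ := by exact_mod_cast hγ0
  have hGe : ∀ n : ℤ, G.eval n = γ * n + G.coeff 0 := by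
    intro n
    have h1 := Polynomial.eq_X_add_C_of_natDegree_le_one (show G.natDegree ≤ 1 by omega)
    rw [h1, hγ]
    simp
  have hfin := fin_gsys (γ : ℤ) hγ0 f hf c h0 hc
  have hM : Pool.Agent.HUK.MinP (gsys (γ : ℤ) f c) := by
    intro i j hij
    obtain ⟨l, hl⟩ := hfin.2 i j hij
    exact ⟨l, sub_ne_zero.2 hl⟩
  obtain ⟨e, he⟩ : ∃ e : ℝ, e = min ε 1 / 8 := ⟨_, rfl⟩
  have he0 : 0 < e := by
    rw [he]
    have : 0 < min ε 1 := lt_min hε one_pos
    linarith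
  have he1 : 8 * e ≤ 1 := by
    rw [he]
    have := min_le_right ε 1
    linarith
  have heε : 8 * e ≤ ε := by
    rw [he]
    have := min_le_left ε 1
    linarith
  obtain ⟨N1, hN1⟩ := n10_ratio γ ((G.coeff 0).natAbs + 1) (g + 1) hγ1 e he0
  obtain ⟨η, hη, h⟩ := N9b_main hd γ hγ1 (G.coeff 0) f hf c (hA γ hγ1) hM C A hA1 e he0
  refine ⟨η, hη, fun M₀ => ?_⟩
  obtain ⟨M, hM0, h'⟩ := h (M₀ + N1)
  refine ⟨M, by omega, fun N hMN hNM b hb => ?_⟩
  refine le_trans (Nat.cast_le.2 ?_) (h' N hMN hNM b fun i => by push_cast; exact hb i)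
  rw [← Set.ncard_coe_finset]
  refine Set.ncard_le_ncard ?_ (Finset.finite_toSet _)
  rintro t ⟨h1, h2, h3, h4⟩
  have hfe : ∀ i (n : ℤ), (familyA f c b t i).eval n = f i * n + (b i + ∑ j, c i j * t j) := by
    intro i n
    unfold familyA shiftA
    rw [eval_add, eval_mul, eval_C, eval_X, eval_C]
  obtain ⟨t1, t2, t3⟩ := N10_trans G γ hγ1 (G.coeff 0) hGe f c b t N
  refine mem_coe.2 (mem_filter.2 ⟨?_, h2, ?_, ?_⟩)
  · unfold Pool.Agent.Lib.H59P.bx
    rw [Fintype.mem_piFinset]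
    intro j
    rw [mem_range]
    have := h1 j
    omega
  · intro l hl
    have h5 := h3.2 l hl
    push Not at h5
    obtain ⟨n, hn⟩ := h5
    refine ⟨n, fun i hi => hn ?_⟩
    rw [eval_mul, eval_prod]
    revert hi
    refine Fin.cases ?_ (fun i => ?_) i
    · intro hi
      rw [Pool.Agent.H96U.g1_val0] at hi
      refine Dvd.dvd.mul_left ?_ _
      rw [eval_sub, eval_C, hGe]
      have e1 : (N : ℤ) - (γ * n + G.coeff 0) = N - G.coeff 0 - γ * n := by ring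
      rw [e1]
      exact hi
    · intro hi
      rw [Pool.Agent.H96U.g1_valS] at hi
      refine Dvd.dvd.mul_right ?_ _
      refine Dvd.dvd.trans ?_ (Finset.dvd_prod_of_mem _ (mem_univ i))
      rw [hfe]
      exact hi
  · rintro ⟨s, hs, h5, h6⟩
    refine h4 ⟨s, ?_, ?_⟩
    · refine (tendsto_add_atTop_iff_nat 1).1 ?_
      refine h5.congr fun z => ?_
      rw [t2 z]
    · obtain ⟨r1, r2⟩ := hN1 N (by omega) (argCount G N) (by push_cast; exact t3)
      refine n10_calc _ _ _ s e ε r1 hs he0 he1 heε ?_ r2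
      rw [t1]
      have e2 : (N : ℝ) / γ / Real.log N ^ (g + 1) * s = N / γ * (s / Real.log N ^ (g + 1)) := by ring
      rw [e2]
      exact h6

end Pool.Agent.H9A
end

-- from Lib.H9P.W2
section

/-!
# ASYP, W2: all degrees one, the complete singular series, symmetric boxes
-/

open Finset Polynomial

namespace Pool.Agent.H9P

open Pool.Agent.HUP
open Pool.Agent.H9A (shiftA familyA AsymA N10_main ACore)
open Pool.Agent.H96U (gsys)
open Pool.Agent.Lib.H59 (argSet argCount Admissible primeCount omegaN seriesTrunc)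

/-- a linear polynomial -/
theorem w2_lin (P : ℤ[X]) (hP : P.natDegree = 1) : P = C P.leadingCoeff * X + C (P.coeff 0) := by
  have h1 := Polynomial.eq_X_add_C_of_natDegree_le_one (show P.natDegree ≤ 1 by omega)
  have h2 : P.leadingCoeff = P.coeff 1 := by
    unfold Polynomial.leadingCoeff
    rw [hP]
  rw [h2]
  exact h1

/-- few `t` in the symmetric box have a small constant term -/
theorem w2_low {k d : ℕ} (c : Fin k → Fin d → ℤ) (h0 : ∀ i, c i ≠ 0) (A W : ℕ) : ∃ K : ℕ, ∀ (Z : ℕ), 1 ≤ Z → ∀ β : Fin k → ℤ,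
    (∀ i, |β i| ≤ A * (Z : ℤ)) → ∀ i, (((BoxT A Z (fun _ => 1)).filter fun t => (∀ i, 0 ≤ β i + lf c t i) ∧
      β i + lf c t i < W).card : ℝ) * Z ≤ K * (Z : ℝ) ^ d := by
  classical
  obtain ⟨A', hAA, hbox⟩ := w1_box c (fun _ => 1) (fun _ => 1) (fun _ _ _ => rfl) A
  refine ⟨(W + 1) * (2 * (A' + 1)) ^ d, fun Z hZ β hβ i => ?_⟩
  obtain ⟨β', hβ', hb⟩ := hbox Z β (fun i => by rw [pow_one]; exact hβ i)
  obtain ⟨R, hR⟩ : ∃ R : (Fin k → ℕ) → Prop, ∀ h, R h ↔ h i < W := ⟨_, fun _ => Iff.rfl⟩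
  have h1 := hb R
  have h2 := R20_low c (fun _ : Fin d => 1) (fun _ => 1) (fun _ => le_refl 1)
    (fun i => by
      by_contra hcon
      push Not at hcon
      exact h0 i (funext hcon)) (fun _ _ _ => rfl) (A' + 1) Z W (by omega) hZ β' i
  have h3 : ((BoxT A Z (fun _ => 1)).filter fun t => (∀ i, 0 ≤ β i + lf c t i) ∧ β i + lf c t i < W).card ≤
      ((tb 0 fun _ : Fin d => (A' + 1) * Z ^ 1 + 1).filter fun t => 0 ≤ β' i + lf c t i ∧ β' i + lf c t i < W).card := by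
    refine le_trans (card_le_card ?_) (h1.trans (card_le_card ?_))
    · intro t ht
      rw [mem_filter] at ht ⊢
      refine ⟨ht.1, ht.2.1, ?_⟩
      rw [hR]
      unfold hh
      have := ht.2.1 i
      have := ht.2.2
      omega
    · intro t ht
      rw [mem_filter] at ht ⊢
      obtain ⟨t1, t2, t3⟩ := ht
      refine ⟨?_, t2 i, ?_⟩
      · unfold tb at t1 ⊢
        rw [Fintype.mem_piFinset] at t1 ⊢
        intro j
        have h4 := mem_Ico.1 (t1 j)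
        rw [mem_Ico]
        refine ⟨h4.1, lt_of_lt_of_le h4.2 ?_⟩
        have h5 : A' * Z ^ 1 ≤ (A' + 1) * Z ^ 1 := Nat.mul_le_mul_right _ (by omega)
        have h6 : ((A' * Z ^ 1 + 1 : ℕ) : ℤ) ≤ (((A' + 1) * Z ^ 1 + 1 : ℕ) : ℤ) := by exact_mod_cast Nat.succ_le_succ h5
        linarith
      · rw [hR] at t3
        unfold hh at t3
        have := t2 i
        omega
  have h4 : (((BoxT A Z (fun _ => 1)).filter fun t => (∀ i, 0 ≤ β i + lf c t i) ∧ β i + lf c t i < W).card : ℝ) ≤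
      (((tb 0 fun _ : Fin d => (A' + 1) * Z ^ 1 + 1).filter fun t => 0 ≤ β' i + lf c t i ∧ β' i + lf c t i < W).card : ℝ) := by
    exact_mod_cast h3
  have hZ0 : (0 : ℝ) ≤ Z := Nat.cast_nonneg _
  calc (((BoxT A Z (fun _ => 1)).filter fun t => (∀ i, 0 ≤ β i + lf c t i) ∧ β i + lf c t i < W).card : ℝ) * Z
      ≤ (((tb 0 fun _ : Fin d => (A' + 1) * Z ^ 1 + 1).filter
          fun t => 0 ≤ β' i + lf c t i ∧ β' i + lf c t i < W).card : ℝ) * Z := mul_le_mul_of_nonneg_right h4 hZ0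
    _ ≤ (W + 1) * ∏ j : Fin d, ((2 * (A' + 1) * Z ^ 1 : ℕ) : ℝ) := by
        have := h2
        simp only [pow_one] at this ⊢
        exact this
    _ = (((W + 1) * (2 * (A' + 1)) ^ d : ℕ) : ℝ) * (Z : ℝ) ^ d := by
        rw [Finset.prod_const, Finset.card_univ, Fintype.card_fin]
        push_cast
        rw [pow_one, mul_pow]
        ring

/-- the new constant terms -/
def w2b {g d : ℕ} (p : Fin g → ℤ) (c : Fin g → Fin d → ℤ) (b : Fin g → ℤ) (N Y : ℕ) (u : Fin d → ℕ) : Fin g → ℤ :=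
  fun i => p i + b i + ∑ j, c i j * ((N : ℤ) * u j - Y)

/-- the shifted parameters -/
theorem w2_shift {g d : ℕ} (p : Fin g → ℤ) (c : Fin g → Fin d → ℤ) (b : Fin g → ℤ) (N Y : ℕ) (u r : Fin d → ℕ)
    (t : Fin d → ℤ) (ht : ∀ j, t j + Y = (N : ℤ) * u j + r j) (i : Fin g) :
    shiftA c (w2b p c b N Y u) r i = p i + (b i + lf c t i) := by
  unfold shiftA w2b lf
  have h1 : ∑ j, c i j * t j = ∑ j, c i j * ((N : ℤ) * u j - Y) + ∑ j, c i j * (r j : ℤ) := by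
    rw [← Finset.sum_add_distrib]
    refine Finset.sum_congr rfl fun j _ => ?_
    have : t j = (N : ℤ) * u j - Y + r j := by linarith [ht j]
    rw [this]
    ring
  rw [h1]
  ring

open Classical in
/-- covering by translates of the box `[0, N)^d` -/
theorem w2_cover {g d : ℕ} (P : Fin g → ℤ[X]) (hP : ∀ i, (P i).natDegree = 1) (c : Fin g → Fin d → ℤ) (b : Fin g → ℤ)
    (A N Z W : ℕ) (hN : 1 ≤ N) (hZ : Z ≤ 2 * N) (hW : ∀ i, 0 ≤ (P i).coeff 0 + W) (Q : (Fin g → ℤ[X]) → Prop) :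
    ((BoxT A Z (fun _ => 1)).filter fun t => (∀ i, 0 ≤ b i + lf c t i) ∧ Q (famP P c b t)).card ≤
    (∑ i, ((BoxT A Z (fun _ => 1)).filter fun t => (∀ i, 0 ≤ b i + lf c t i) ∧ b i + lf c t i < W).card) +
    ∑ u : Fin d → Fin (4 * A + 1), ({r : Fin d → ℕ | (∀ j, r j ≤ N) ∧
      (∀ i, 0 ≤ shiftA c (w2b (fun i => (P i).coeff 0) c b N (A * Z) (fun j => (u j : ℕ))) r i) ∧
      Q (familyA (fun i => (P i).leadingCoeff) c (w2b (fun i => (P i).coeff 0) c b N (A * Z) (fun j => (u j : ℕ))) r)}.ncard) := by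
  set S1 : Fin g → Finset (Fin d → ℤ) := fun i => (BoxT A Z (fun _ => 1)).filter fun t =>
    (∀ i, 0 ≤ b i + lf c t i) ∧ b i + lf c t i < W with hS1
  set T : (Fin d → Fin (4 * A + 1)) → Finset (Fin d → ℕ) := fun u => (Fintype.piFinset fun _ : Fin d => range (N + 1)).filter
    fun r => (∀ i, 0 ≤ shiftA c (w2b (fun i => (P i).coeff 0) c b N (A * Z) (fun j => (u j : ℕ))) r i) ∧
      Q (familyA (fun i => (P i).leadingCoeff) c (w2b (fun i => (P i).coeff 0) c b N (A * Z) (fun j => (u j : ℕ))) r) with hT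
  have hTc : ∀ u, ({r : Fin d → ℕ | (∀ j, r j ≤ N) ∧
      (∀ i, 0 ≤ shiftA c (w2b (fun i => (P i).coeff 0) c b N (A * Z) (fun j => (u j : ℕ))) r i) ∧
      Q (familyA (fun i => (P i).leadingCoeff) c (w2b (fun i => (P i).coeff 0) c b N (A * Z) (fun j => (u j : ℕ))) r)}.ncard) =
      (T u).card := by
    intro u
    rw [← Set.ncard_coe_finset]
    congr 1
    ext r
    rw [mem_coe, hT, mem_filter, Fintype.mem_piFinset]
    simp only [Set.mem_ofPred_eq, mem_range]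
    constructor
    · rintro ⟨h1, h2⟩
      exact ⟨fun j => Nat.lt_succ_of_le (h1 j), h2⟩
    · rintro ⟨h1, h2⟩
      exact ⟨fun j => Nat.le_of_lt_succ (h1 j), h2⟩
  rw [Finset.sum_congr rfl fun u _ => hTc u]
  have hsub : ((BoxT A Z (fun _ => 1)).filter fun t => (∀ i, 0 ≤ b i + lf c t i) ∧ Q (famP P c b t)) ⊆
      (univ.biUnion S1) ∪ (univ.biUnion fun u => (T u).image fun r => fun j => (N : ℤ) * (u j : ℕ) + r j - (A * Z : ℕ)) := by
    intro t ht
    rw [mem_filter] at ht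
    obtain ⟨t1, t2, t3⟩ := ht
    rw [mem_union, mem_biUnion, mem_biUnion]
    by_cases hlow : ∃ i, b i + lf c t i < W
    · obtain ⟨i, hi⟩ := hlow
      left
      exact ⟨i, mem_univ _, mem_filter.2 ⟨t1, t2, hi⟩⟩
    right
    push Not at hlow
    unfold BoxT at t1
    rw [Fintype.mem_piFinset] at t1
    have hN0 : (0 : ℤ) < N := by exact_mod_cast hN
    have hy : ∀ j, 0 ≤ t j + (A * Z : ℕ) ∧ t j + (A * Z : ℕ) ≤ 4 * A * N := by
      intro j
      have h1 := mem_Icc.1 (t1 j)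
      rw [pow_one] at h1
      have h2 : ((A * Z : ℕ) : ℤ) ≤ 2 * A * N := by
        have h3 : A * Z ≤ A * (2 * N) := Nat.mul_le_mul_left _ hZ
        have h4 : ((A * Z : ℕ) : ℤ) ≤ ((A * (2 * N) : ℕ) : ℤ) := by exact_mod_cast h3
        refine h4.trans (le_of_eq ?_)
        push_cast
        ring
      constructor
      · linarith [h1.1]
      · linarith [h1.2]
    obtain ⟨v, hv⟩ : ∃ v : Fin d → ℕ, ∀ j, (v j : ℤ) = t j + (A * Z : ℕ) :=
      ⟨fun j => (t j + (A * Z : ℕ)).toNat, fun j => Int.toNat_of_nonneg (hy j).1⟩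
    have hvle : ∀ j, v j ≤ 4 * A * N := by
      intro j
      have := (hy j).2
      rw [← hv j] at this
      exact_mod_cast this
    have hu : ∀ j, v j / N < 4 * A + 1 := by
      intro j
      have h1 : v j / N ≤ 4 * A := by
        refine Nat.div_le_of_le_mul ?_
        rw [mul_comm N]
        exact hvle j
      omega
    have hdm : ∀ j, (v j : ℤ) = (N : ℤ) * ((v j / N : ℕ) : ℤ) + ((v j % N : ℕ) : ℤ) := by
      intro j
      have := Nat.div_add_mod (v j) N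
      exact_mod_cast this.symm
    refine ⟨fun j => ⟨v j / N, hu j⟩, mem_univ _, ?_⟩
    rw [mem_image]
    refine ⟨fun j => v j % N, ?_, ?_⟩
    · have hsh : ∀ i, shiftA c (w2b (fun i => (P i).coeff 0) c b N (A * Z) (fun j => v j / N)) (fun j => v j % N) i =
          (P i).coeff 0 + (b i + lf c t i) := by
        intro i
        refine w2_shift (fun i => (P i).coeff 0) c b N (A * Z) (fun j => v j / N) (fun j => v j % N) t (fun j => ?_) i
        rw [← hv j]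
        exact hdm j
      rw [hT, mem_filter, Fintype.mem_piFinset]
      refine ⟨fun j => ?_, fun i => ?_, ?_⟩
      · rw [mem_range]
        have := Nat.mod_lt (v j) (show 0 < N by omega)
        omega
      · show 0 ≤ shiftA c (w2b (fun i => (P i).coeff 0) c b N (A * Z) (fun j => v j / N)) (fun j => v j % N) i
        rw [hsh i]
        linarith [hW i, hlow i]
      · show Q (familyA (fun i => (P i).leadingCoeff) c (w2b (fun i => (P i).coeff 0) c b N (A * Z) (fun j => v j / N))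
          (fun j => v j % N))
        have hfe : familyA (fun i => (P i).leadingCoeff) c (w2b (fun i => (P i).coeff 0) c b N (A * Z) (fun j => v j / N))
          (fun j => v j % N) = famP P c b t := by
          funext i
          unfold familyA famP
          rw [hsh i]
          conv_rhs => rw [w2_lin (P i) (hP i)]
          rw [C_add]
          ring
        rw [hfe]
        exact t3
    · funext j
      show (N : ℤ) * ((v j / N : ℕ) : ℤ) + ((v j % N : ℕ) : ℤ) - (A * Z : ℕ) = t j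
      rw [← hdm j, hv j]
      ring
  refine (card_le_card hsub).trans ((card_union_le _ _).trans (add_le_add card_biUnion_le ?_))
  exact card_biUnion_le.trans (Finset.sum_le_sum fun u _ => card_image_le)

/-- size of the new constant terms -/
theorem w2_size {g d : ℕ} (p : Fin g → ℤ) (c : Fin g → Fin d → ℤ) (A : ℕ) : ∃ C : ℕ, ∀ (b : Fin g → ℤ) (N Z : ℕ),
    1 ≤ N → Z ≤ 2 * N → (∀ i, |b i| ≤ A * (Z : ℤ)) → ∀ u : Fin d → Fin (4 * A + 1), ∀ i,
      |w2b p c b N (A * Z) (fun j => (u j : ℕ)) i| ≤ C * N := by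
  refine ⟨∑ i, (p i).natAbs + 2 * A + (∑ i, ∑ j, (c i j).natAbs) * (6 * A), fun b N Z hN hZ hb u i => ?_⟩
  have h1 : |p i| ≤ ((∑ i, (p i).natAbs : ℕ) : ℤ) * N := by
    have h2 : (p i).natAbs ≤ (∑ i, (p i).natAbs) * N :=
      le_trans (Finset.single_le_sum (f := fun i => (p i).natAbs) (fun _ _ => Nat.zero_le _) (Finset.mem_univ i))
        (Nat.le_mul_of_pos_right _ (by omega))
    have h3 : (((p i).natAbs : ℕ) : ℤ) ≤ (((∑ i, (p i).natAbs) * N : ℕ) : ℤ) := by exact_mod_cast h2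
    rw [Int.natCast_natAbs] at h3
    rw [← Nat.cast_mul]
    exact h3
  have h2 : |b i| ≤ 2 * A * N := by
    refine (hb i).trans ?_
    have h3 : (Z : ℤ) ≤ 2 * N := by exact_mod_cast hZ
    have hA0 : (0 : ℤ) ≤ A := Int.natCast_nonneg _
    nlinarith
  have h3 : |∑ j, c i j * ((N : ℤ) * (u j : ℕ) - (A * Z : ℕ))| ≤ (∑ j, |c i j|) * (6 * A * N) := by
    refine (Finset.abs_sum_le_sum_abs _ _).trans ?_
    rw [Finset.sum_mul]
    refine Finset.sum_le_sum fun j _ => ?_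
    rw [abs_mul]
    refine mul_le_mul_of_nonneg_left ?_ (abs_nonneg _)
    have hu : ((u j : ℕ) : ℤ) ≤ 4 * A := by
      have := (u j).2
      have h4 : (u j : ℕ) ≤ 4 * A := by omega
      exact_mod_cast h4
    have hu0 : (0 : ℤ) ≤ ((u j : ℕ) : ℤ) := Int.natCast_nonneg _
    have hN0 : (0 : ℤ) ≤ N := Int.natCast_nonneg _
    have hA0 : (0 : ℤ) ≤ A := Int.natCast_nonneg _
    have h5 : (N : ℤ) * (u j : ℕ) ≤ N * (4 * A) := mul_le_mul_of_nonneg_left hu hN0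
    have h6 : (0 : ℤ) ≤ (N : ℤ) * (u j : ℕ) := mul_nonneg hN0 hu0
    have h7 : ((A * Z : ℕ) : ℤ) ≤ 2 * A * N := by
      have h3 : (Z : ℤ) ≤ 2 * N := by exact_mod_cast hZ
      push_cast
      nlinarith
    have h8 : (0 : ℤ) ≤ ((A * Z : ℕ) : ℤ) := Int.natCast_nonneg _
    have h9 : (0 : ℤ) ≤ A * N := mul_nonneg hA0 hN0
    rw [abs_le]
    constructor
    · nlinarith
    · nlinarith
  have h4 : (∑ j, |c i j|) ≤ ((∑ i, ∑ j, (c i j).natAbs : ℕ) : ℤ) := by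
    have h5 : (∑ j, (c i j).natAbs) ≤ ∑ i, ∑ j, (c i j).natAbs :=
      Finset.single_le_sum (f := fun i => ∑ j, (c i j).natAbs) (fun _ _ => Nat.zero_le _) (Finset.mem_univ i)
    have h6 : ((∑ j, (c i j).natAbs : ℕ) : ℤ) = ∑ j, |c i j| := by
      push_cast
      rfl
    rw [← h6]
    exact_mod_cast h5
  have h5 : (0 : ℤ) ≤ 6 * A * N := by positivity
  have h6 := mul_le_mul_of_nonneg_right h4 h5
  have h7 : |w2b p c b N (A * Z) (fun j => (u j : ℕ)) i| ≤ |p i| + |b i| +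
      |∑ j, c i j * ((N : ℤ) * (u j : ℕ) - (A * Z : ℕ))| := by
    unfold w2b
    exact (abs_add_le _ _).trans (add_le_add (abs_add_le _ _) le_rfl)
  refine h7.trans ?_
  calc |p i| + |b i| + |∑ j, c i j * ((N : ℤ) * (u j : ℕ) - (A * Z : ℕ))|
      ≤ ((∑ i, (p i).natAbs : ℕ) : ℤ) * N + 2 * A * N + ((∑ i, ∑ j, (c i j).natAbs : ℕ) : ℤ) * (6 * A * N) := by
        linarith
    _ = _ := by
        push_cast
        ring

/-- sizes: a constant is absorbed by a power -/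
theorem w2_pow (K d : ℕ) (η : ℝ) (hη : 0 < η) : ∃ Z0 : ℕ, 1 ≤ Z0 ∧ ∀ Z : ℕ, Z0 ≤ Z →
    (K : ℝ) * (Z : ℝ) ^ ((d : ℝ) - η) ≤ (Z : ℝ) ^ ((d : ℝ) - η / 2) := by
  have ht : Filter.Tendsto (fun N : ℕ => (N : ℝ) ^ (η / 2)) Filter.atTop Filter.atTop :=
    (tendsto_rpow_atTop (by linarith)).comp tendsto_natCast_atTop_atTop
  obtain ⟨Z0, hZ0⟩ := Filter.eventually_atTop.1 (ht.eventually_ge_atTop (K : ℝ))
  refine ⟨Z0 + 1, by omega, fun Z hZ => ?_⟩
  have h1 := hZ0 Z (by omega)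
  have hZ1 : (0 : ℝ) < Z := by
    have : 1 ≤ Z := by omega
    exact_mod_cast this
  calc (K : ℝ) * (Z : ℝ) ^ ((d : ℝ) - η) ≤ (Z : ℝ) ^ (η / 2) * (Z : ℝ) ^ ((d : ℝ) - η) :=
        mul_le_mul_of_nonneg_right h1 (Real.rpow_nonneg hZ1.le _)
    _ = (Z : ℝ) ^ ((d : ℝ) - η / 2) := by
        rw [← Real.rpow_add hZ1]
        congr 1
        ring

open Classical in
/-- **W2.** All degrees one, the complete singular series, symmetric boxes. -/
theorem W2_main {g d : ℕ} (hd : 1 ≤ d) (G : ℤ[X]) (hG : G.natDegree = 1) (hG0 : 0 < G.leadingCoeff) (P : Fin g → ℤ[X])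
    (hP : ∀ i, (P i).natDegree = 1) (hP0 : ∀ i, 0 < (P i).leadingCoeff) (c : Fin g → Fin d → ℤ) (h0 : ∀ i, c i ≠ 0)
    (hc : ∀ i j, i ≠ j → (P i).leadingCoeff • c j ≠ (P j).leadingCoeff • c i)
    (hA : ∀ γ : ℕ, 0 < γ → ACore (gsys γ (fun i => (P i).leadingCoeff) c)) (A : ℕ) (ε : ℝ) (hε : 0 < ε) :
    ∃ η : ℝ, 0 < η ∧ ∀ M0 : ℕ, ∃ M : ℕ, M0 ≤ M ∧ ∀ N : ℕ, M ≤ N → N ≤ M ^ A → ∀ b : Fin g → ℤ,
      (∀ i, |b i| ≤ A * (argCount G N : ℤ)) →
      (((BoxT A (argCount G N) (fun _ : Fin d => 1)).filter fun t => (∀ i, 0 ≤ b i + lf c t i) ∧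
        Admissible (famP P c b t) G N ∧ ¬ AsymA (famP P c b t) G N ε).card : ℝ) ≤ (argCount G N : ℝ) ^ ((d : ℝ) - η) := by
  obtain ⟨γ, hγ⟩ : ∃ γ : ℕ, γ = G.leadingCoeff.natAbs := ⟨_, rfl⟩
  have hγ1 : 1 ≤ γ := by omega
  have hγr : (1 : ℝ) ≤ γ := by exact_mod_cast hγ1
  obtain ⟨C, hC⟩ := w2_size (fun i => (P i).coeff 0) c A
  obtain ⟨W, hW⟩ : ∃ W : ℕ, W = ∑ i, ((P i).coeff 0).natAbs := ⟨_, rfl⟩
  have hW' : ∀ i, 0 ≤ (P i).coeff 0 + W := by
    intro i
    have h1 : ((P i).coeff 0).natAbs ≤ W := by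
      rw [hW]
      exact Finset.single_le_sum (f := fun i => ((P i).coeff 0).natAbs) (fun _ _ => Nat.zero_le _) (Finset.mem_univ i)
    omega
  obtain ⟨K1, hK1⟩ := w2_low c h0 A W
  obtain ⟨η0, hη0, hmain⟩ := N10_main hd G hG hG0 (fun i => (P i).leadingCoeff) hP0 c h0 hc hA C (max A 1)
    (le_max_right _ _) ε hε
  obtain ⟨η, hη⟩ : ∃ η : ℝ, η = min η0 1 := ⟨_, rfl⟩
  have hη1 : 0 < η := by
    rw [hη]
    exact lt_min hη0 one_pos
  have hη2 : η ≤ η0 := by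
    rw [hη]
    exact min_le_left _ _
  have hη3 : η ≤ 1 := by
    rw [hη]
    exact min_le_right _ _
  have hdr : (1 : ℝ) ≤ d := by exact_mod_cast hd
  obtain ⟨K, hK⟩ : ∃ K : ℕ, K = g * K1 + (4 * A + 1) ^ d * (2 * γ) ^ d := ⟨_, rfl⟩
  obtain ⟨Z0, hZ01, hZ0⟩ := w2_pow K d η hη1
  obtain ⟨N0, hN0⟩ := U17_dec G hG hG0
  obtain ⟨N1, hN1⟩ := u17_large γ hγ1 (G.coeff 0 : ℝ) 1 1 1 1 one_pos one_pos one_pos
  refine ⟨η / 2, by linarith, fun M0 => ?_⟩
  obtain ⟨M, hM, hM'⟩ := hmain (M0 + N0 + N1 + 2 * γ * Z0 + 1)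
  refine ⟨M, by omega, fun N hNl hNu b hb => ?_⟩
  obtain ⟨q1, q2, q3⟩ := hN0 N (by omega)
  rw [← hγ] at q3
  obtain ⟨p1, p2, -, -, -⟩ := hN1 N (argCount G N) 0 (by omega) q3
  obtain ⟨Z, hZ⟩ : ∃ Z : ℕ, Z = argCount G N := ⟨_, rfl⟩
  rw [← hZ] at hb p1 p2 ⊢
  have hZN : Z ≤ 2 * N := by exact_mod_cast p2
  have hNZ : N ≤ 2 * γ * Z := by exact_mod_cast p1
  have hZZ : Z0 ≤ Z := by
    have h1 : 2 * γ * Z0 ≤ 2 * γ * Z := by omega
    exact Nat.le_of_mul_le_mul_left h1 (by omega)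
  have hZ1 : (1 : ℝ) ≤ Z := by exact_mod_cast hZ01.trans hZZ
  have hN1' : 1 ≤ N := by omega
  have hN1r : (1 : ℝ) ≤ N := by exact_mod_cast hN1'
  have hNu' : N ≤ M ^ max A 1 := hNu.trans (Nat.pow_le_pow_right (by omega) (le_max_left _ _))
  have hcov := w2_cover P hP c b A N Z W hN1' hZN hW' (fun F => Admissible F G N ∧ ¬ AsymA F G N ε)
  have hcov' : (((BoxT A Z (fun _ : Fin d => 1)).filter fun t => (∀ i, 0 ≤ b i + lf c t i) ∧
        Admissible (famP P c b t) G N ∧ ¬ AsymA (famP P c b t) G N ε).card : ℝ) ≤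
      (∑ i, (((BoxT A Z (fun _ : Fin d => 1)).filter fun t => (∀ i, 0 ≤ b i + lf c t i) ∧ b i + lf c t i < W).card : ℝ)) +
      ∑ u : Fin d → Fin (4 * A + 1), (({r : Fin d → ℕ | (∀ j, r j ≤ N) ∧
      (∀ i, 0 ≤ shiftA c (w2b (fun i => (P i).coeff 0) c b N (A * Z) (fun j => (u j : ℕ))) r i) ∧
      Admissible (familyA (fun i => (P i).leadingCoeff) c (w2b (fun i => (P i).coeff 0) c b N (A * Z) (fun j => (u j : ℕ))) r) G N ∧
      ¬ AsymA (familyA (fun i => (P i).leadingCoeff) c (w2b (fun i => (P i).coeff 0) c b N (A * Z) (fun j => (u j : ℕ))) r) G N ε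
        }.ncard : ℕ) : ℝ) := by
    exact_mod_cast hcov
  refine hcov'.trans ?_
  have hA1 : ∀ i, (((BoxT A Z (fun _ : Fin d => 1)).filter fun t => (∀ i, 0 ≤ b i + lf c t i) ∧ b i + lf c t i < W).card : ℝ) ≤
      K1 * (Z : ℝ) ^ ((d : ℝ) - η) := by
    intro i
    have h1 := hK1 Z (hZ01.trans hZZ) b hb i
    have hZp : (0 : ℝ) < Z := by linarith
    have h2 : (Z : ℝ) ^ d = (Z : ℝ) ^ ((d : ℝ) - 1) * Z := by
      rw [Real.rpow_sub_one hZp.ne', Real.rpow_natCast]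
      field_simp
    rw [h2, ← mul_assoc] at h1
    have h3 := le_of_mul_le_mul_right h1 hZp
    refine h3.trans (mul_le_mul_of_nonneg_left ?_ (Nat.cast_nonneg _))
    exact Real.rpow_le_rpow_of_exponent_le hZ1 (by linarith)
  have hB1 : ∀ u : Fin d → Fin (4 * A + 1), (({r : Fin d → ℕ | (∀ j, r j ≤ N) ∧
      (∀ i, 0 ≤ shiftA c (w2b (fun i => (P i).coeff 0) c b N (A * Z) (fun j => (u j : ℕ))) r i) ∧
      Admissible (familyA (fun i => (P i).leadingCoeff) c (w2b (fun i => (P i).coeff 0) c b N (A * Z) (fun j => (u j : ℕ))) r) G N ∧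
      ¬ AsymA (familyA (fun i => (P i).leadingCoeff) c (w2b (fun i => (P i).coeff 0) c b N (A * Z) (fun j => (u j : ℕ))) r) G N ε
        }.ncard : ℕ) : ℝ) ≤ (2 * γ : ℝ) ^ d * (Z : ℝ) ^ ((d : ℝ) - η) := by
    intro u
    refine (hM' N hNl hNu' _ (hC b N Z hN1' hZN hb u)).trans ?_
    calc (N : ℝ) ^ ((d : ℝ) - η0) ≤ (N : ℝ) ^ ((d : ℝ) - η) :=
          Real.rpow_le_rpow_of_exponent_le hN1r (by linarith)
      _ ≤ (2 * γ * Z : ℝ) ^ ((d : ℝ) - η) := Real.rpow_le_rpow (by linarith) p1 (by linarith)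
      _ = (2 * γ : ℝ) ^ ((d : ℝ) - η) * (Z : ℝ) ^ ((d : ℝ) - η) := Real.mul_rpow (by linarith) (by linarith)
      _ ≤ (2 * γ : ℝ) ^ (d : ℝ) * (Z : ℝ) ^ ((d : ℝ) - η) :=
          mul_le_mul_of_nonneg_right (Real.rpow_le_rpow_of_exponent_le (by linarith) (by linarith))
            (Real.rpow_nonneg (by linarith) _)
      _ = (2 * γ : ℝ) ^ d * (Z : ℝ) ^ ((d : ℝ) - η) := by rw [Real.rpow_natCast]
  refine (add_le_add (Finset.sum_le_sum fun i _ => hA1 i) (Finset.sum_le_sum fun u _ => hB1 u)).trans ?_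
  rw [Finset.sum_const, Finset.sum_const, Finset.card_univ, Finset.card_univ, Fintype.card_fin, Fintype.card_fun,
    Fintype.card_fin, Fintype.card_fin, nsmul_eq_mul, nsmul_eq_mul]
  refine le_trans (le_of_eq ?_) (hZ0 Z hZZ)
  rw [hK]
  push_cast
  ring

end Pool.Agent.H9P
end
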