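import Pool.Agent.Lib.H59M.M1.M058
import Pool.Agent.Lib.H59M.M1.M062
import Pool.Agent.Lib.H59M.M1.M072
import Pool.Agent.Lib.H59M.M1.M073
import Pool.Agent.Lib.H59M.M1.M078
import Pool.Agent.Lib.H59M.M1.M082
import Pool.Agent.Lib.H59M.M1.M086
import Pool.Agent.Lib.H59M.M1.M089
import Pool.Agent.Lib.H59M.M1.M092
import Pool.Agent.Lib.H59M.M1.M096
import Pool.Agent.Lib.H59M.M1.M099
import Pool.Agent.Lib.H59M.M1.M105

/-! Merged copies (to shorten the build) of Lib.H9A.N3, Lib.H9P.W3, Lib.H9P.U1, Lib.H9P.U12, Lib.H9P.U2, Lib.H9P.U3, Lib.H9P.U6, Lib.H9P.U7, Lib.H9P.U9, Lib.H9P.U14, Lib.H9P.U16. -/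

-- from Lib.H9A.N3
section

/-!
# ASY, chunk N3 (M): the main terms of all cells, for every good `t`
-/

open Finset

namespace Pool.Agent.H9A

open Pool.Agent.H9U
open Pool.Agent.Lib.H68T (lp Lk PC p0)
open Pool.Agent.Lib.H18Q (gk KS SG Bc RegP)
open Pool.Agent.Lib.H59P (Ch SF bx TS Rp MX pr)

theorem n3_pr {Q l : ℕ} (hl : l ∈ pr Q) : l.Prime := by
  unfold pr at hl
  exact (mem_filter.1 hl).2

/-- Proof. Copy `Z4B_low` (`H9U/Z4B.lean`). `E0` with `(1 + E0)^k - 1 ≤ ε/4` (for example `E0 = min 1 (ε / (4 k 2^k))`); `K = max K1 16`, `K1` of `UM_mass`; `δ3 = 1/5`.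
`H = X / Q^8`. For each cell `j` the point `m_i = val b (jH) t i` is in `[Xs i, 4 Xs i]`. `N2_cell` with `Q := Q'`, `D = Q'`, `D1 = √Q'` rounded down, `c i p = Bc Q (Xs i) p m_i`, `M` from `UM_mass`, `eb` from `MdB.cf`
(restricted to `PC Q' ⊆ PC Q`; the sum is at most `1 * E0`; `MX p0 (fun _ => 0) m p` does not depend on `m`), `τ = X^(-θ/40)`: for `1 ≤ R ≤ D1`, `D/R ≥ D1 ≥ Q'^(1/5) ≥ X^(θ/5)` (`core_case1` in `H9U/CORE.lean` with `r = 1`),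
`T4S_tail` with exponent `θ/40`. The error `(2M(1+log Q'))^k τ` is at most `(ε/4) exp(-4k) ≤ (ε/4) SSS` for `X` large (`z4b_log`, `T1S_low`). So each cell is `H SSS` up to `(ε/2) H SSS`, and
`0 ≤ L - H (L/H) ≤ H ≤ X/Q^8 ≤ (ε/2) L` for `X` large. -/
theorem N3_range {k d : ℕ} (hk : 1 ≤ k) (S : Sys k d) (ha : ∀ i, S.a i ≠ 0) (ε : ℝ) (hε : 0 < ε) : ∃ K E0 : ℝ, 1 ≤ K ∧ 0 < E0 ∧
    ∀ Cr θ : ℝ, 1 ≤ Cr → 0 < θ → ∀ C0 : ℕ, ∃ X0 : ℕ, ∀ Q Q' X : ℕ, X0 ≤ X →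
    ∀ Xs : Fin k → ℕ, (∀ i, X ≤ Xs i ∧ Xs i ≤ C0 * X) → (∀ i, Rgm K Cr θ Q Q' (Xs i)) →
    (∀ i, MdB Q (Xs i) 1 E0 p0 (fun _ => 0)) →
    ∀ (b : Fin k → ℤ) (L : ℕ) (t : Fin d → ℤ), X ≤ L → S.Adm b t →
    (∀ i j, i ≠ j → S.minr b t i j ≠ 0) → (∀ i, ∀ n ∈ range L, S.val b n t i ∈ JJ (Xs i)) →
    ‖∑ j ∈ range (L / (X / Q ^ 8)), ((X / Q ^ 8 : ℕ) : ℂ) * MCS S b t Q' Q' (Nat.sqrt Q') p0
        (fun i p => Bc Q (Xs i) p (S.val b ((j * (X / Q ^ 8) : ℕ) : ℤ) t i)) - ((L * SSS S b t (pr Q') : ℝ) : ℂ)‖ ≤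
      ε * (L * SSS S b t (pr Q')) := by
  obtain ⟨K1, C1, hK1, hC1, hmass⟩ := Pool.Agent.Lib.H59T.UM_mass
  have hkr : (0 : ℝ) < k := by exact_mod_cast hk
  obtain ⟨E0, hE0⟩ : ∃ E0 : ℝ, E0 = Real.log (1 + ε / 4) / k := ⟨_, rfl⟩
  have hE00 : 0 < E0 := by
    rw [hE0]
    exact div_pos (Real.log_pos (by linarith)) hkr
  have hE0k : (1 + E0) ^ k - 1 ≤ ε / 4 := by
    have h1 : (1 + E0) ^ k ≤ Real.exp E0 ^ k := by
      refine pow_le_pow_left₀ (by linarith) ?_ k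
      have := Real.add_one_le_exp E0
      linarith
    have h2 : Real.exp E0 ^ k = 1 + ε / 4 := by
      rw [← Real.exp_nat_mul, hE0, mul_div_cancel₀ _ hkr.ne', Real.exp_log (by linarith)]
    linarith
  refine ⟨max K1 16, E0, hK1.trans (le_max_left _ _), hE00, fun Cr θ hCr hθ C0 => ?_⟩
  obtain ⟨XT, hXT⟩ := T4S_tail S ha (θ / 16) (by positivity)
  obtain ⟨XL, hXL⟩ := z4b_log C1 hC1 k (θ / 32) (by positivity)
  have hev1 := ((tendsto_rpow_neg_atTop (show 0 < θ / 32 by positivity)).comp tendsto_natCast_atTop_atTop).eventually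
    (eventually_le_nhds (show (0 : ℝ) < ε / 2 by positivity))
  obtain ⟨XE, hXE⟩ := Filter.eventually_atTop.1 hev1
  have hev2 := ((tendsto_rpow_atTop hθ).comp tendsto_natCast_atTop_atTop).eventually (Filter.eventually_ge_atTop (2 / ε))
  obtain ⟨XG, hXG⟩ := Filter.eventually_atTop.1 hev2
  obtain ⟨A, hA⟩ : ∃ A : ℕ, ∀ i, |S.a i| ≤ (A : ℤ) := by
    refine ⟨∑ i, (S.a i).natAbs, fun i => ?_⟩
    rw [Int.abs_eq_natAbs]
    exact_mod_cast Finset.single_le_sum (f := fun i => (S.a i).natAbs) (fun _ _ => Nat.zero_le _) (mem_univ i)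
  refine ⟨max (max (max XT XL) (max XE XG)) (max (C0 + 2) (8 * A * C0)), ?_⟩
  intro Q Q' X hX Xs hXs hR hM b L t hL hAdm hmin hJ
  have hXT' : XT ≤ X := ((le_max_left _ _).trans ((le_max_left _ _).trans (le_max_left _ _))).trans hX
  have hXL' : XL ≤ X := ((le_max_right _ _).trans ((le_max_left _ _).trans (le_max_left _ _))).trans hX
  have hXE' : XE ≤ X := ((le_max_left _ _).trans ((le_max_right _ _).trans (le_max_left _ _))).trans hX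
  have hXG' : XG ≤ X := ((le_max_right _ _).trans ((le_max_right _ _).trans (le_max_left _ _))).trans hX
  have hXC : C0 + 2 ≤ X := ((le_max_left _ _).trans (le_max_right _ _)).trans hX
  have hXA : 8 * A * C0 ≤ X := ((le_max_right _ _).trans (le_max_right _ _)).trans hX
  have hX2 : 2 ≤ X := (Nat.le_add_left _ _).trans hXC
  have hXr : (1 : ℝ) ≤ X := by exact_mod_cast (by omega : 1 ≤ X)
  have hXp : (0 : ℝ) < X := by linarith
  let i0 : Fin k := ⟨0, hk⟩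
  have hreg : RegP 16 Q (Xs i0) := (hR i0).reg.mono (by positivity) (le_max_right _ _)
  have hQ16 : (16 : ℝ) ≤ Q := hreg.Q_ge (by norm_num)
  have hQn : 16 ≤ Q := by exact_mod_cast hQ16
  have hXs0 : 0 < Xs i0 := by
    have := (hXs i0).1
    omega
  have hlog : Real.log (Xs i0) ≤ 2 * Real.log X := by
    have h1 : ((Xs i0 : ℕ) : ℝ) ≤ (X : ℝ) * X := by
      have h2 : Xs i0 ≤ X * X := (hXs i0).2.trans (Nat.mul_le_mul_right X (by omega))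
      exact_mod_cast h2
    have h2 := Real.log_le_log (by exact_mod_cast hXs0) h1
    rw [Real.log_mul hXp.ne' hXp.ne'] at h2
    linarith
  have hQX : Q ^ 8 ≤ X := by
    have h1 := hreg.logQ_le (by norm_num)
    have h2 : Real.log ((Q : ℝ) ^ 8) ≤ Real.log X := by
      rw [Real.log_pow]
      push_cast
      linarith
    have h3 : (Q : ℝ) ^ 8 ≤ X := (Real.log_le_log_iff (by positivity) hXp).1 h2
    exact_mod_cast h3
  obtain ⟨H, hH⟩ : ∃ H : ℕ, H = X / Q ^ 8 := ⟨_, rfl⟩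
  have hQ8 : 0 < Q ^ 8 := by positivity
  have hH1 : 1 ≤ H := by
    rw [hH]
    exact Nat.div_pos hQX hQ8
  rw [← hH]
  -- bounds for the levels
  have hQ'1 : 1 ≤ Q' := by
    have h1 := (hR i0).low
    have h2 : (0 : ℝ) < ((Xs i0 : ℕ) : ℝ) ^ θ := Real.rpow_pos_of_pos (by exact_mod_cast hXs0) θ
    have h3 : (0 : ℝ) < Q' := lt_of_lt_of_le h2 h1
    exact_mod_cast h3
  have hQ'Q : Q' ≤ Q := (hR i0).le
  have hQQ8 : Q ≤ Q ^ 8 := by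
    calc Q = Q ^ 1 := (pow_one Q).symm
      _ ≤ Q ^ 8 := Nat.pow_le_pow_right (by omega) (by norm_num)
  have hQ'X : Q' ≤ X := hQ'Q.trans (hQQ8.trans hQX)
  have hXQ' : (X : ℝ) ^ θ ≤ Q' := by
    refine le_trans ?_ (hR i0).low
    exact Real.rpow_le_rpow hXp.le (by exact_mod_cast (hXs i0).1) hθ.le
  have hHL : (H : ℝ) ≤ ε / 2 * L := by
    have h1 : 2 / ε ≤ (X : ℝ) ^ θ := hXG X hXG'
    have h2 : (Q' : ℝ) ≤ ((Q ^ 8 : ℕ) : ℝ) := by exact_mod_cast hQ'Q.trans hQQ8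
    have h3 : 2 / ε ≤ ((Q ^ 8 : ℕ) : ℝ) := h1.trans (hXQ'.trans h2)
    have h4 : (H : ℝ) * ((Q ^ 8 : ℕ) : ℝ) ≤ X := by
      rw [hH]
      exact_mod_cast Nat.div_mul_le_self X (Q ^ 8)
    have h5 : (X : ℝ) ≤ L := by exact_mod_cast hL
    have h6 : (0 : ℝ) ≤ H := Nat.cast_nonneg _
    have h7 : (H : ℝ) * (2 / ε) ≤ L := (mul_le_mul_of_nonneg_left h3 h6).trans (h4.trans h5)
    have h8 : (H : ℝ) = ε / 2 * (H * (2 / ε)) := by
      field_simp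
    rw [h8]
    exact mul_le_mul_of_nonneg_left h7 (by positivity)
  obtain ⟨D1, hD1⟩ : ∃ D1 : ℕ, D1 = Nat.sqrt Q' := ⟨_, rfl⟩
  rw [← hD1]
  have hDD : D1 * D1 ≤ Q' := by
    rw [hD1]
    exact Nat.sqrt_le Q'
  have hD11 : 1 ≤ D1 := by
    rw [hD1]
    exact Nat.sqrt_pos.2 hQ'1
  have hD1D : D1 ≤ Q' := (Nat.le_mul_of_pos_left D1 hD11).trans hDD
  have hXD : (X : ℝ) ^ (θ / 2) ≤ 2 * D1 := by
    have h1 : Q' < (D1 + 1) * (D1 + 1) := by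
      rw [hD1]
      exact Nat.lt_succ_sqrt Q'
    have h2 : (Q' : ℝ) ≤ (2 * D1) ^ 2 := by
      have h3 : Q' ≤ (2 * D1) ^ 2 := by nlinarith
      exact_mod_cast h3
    have h4 : ((X : ℝ) ^ (θ / 2)) ^ 2 = (X : ℝ) ^ θ := by
      rw [← Real.rpow_natCast, ← Real.rpow_mul hXp.le]
      congr 1
      push_cast
      ring
    have h5 : ((X : ℝ) ^ (θ / 2)) ^ 2 ≤ (2 * D1) ^ 2 := by
      rw [h4]
      exact hXQ'.trans h2
    exact le_of_sq_le_sq h5 (by positivity)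
  have hPC : PC Q' ⊆ PC Q := by
    intro p hp
    have h1 := Pool.Agent.Lib.H68T.mem_PC.1 hp
    exact Pool.Agent.Lib.H68T.mem_PC.2 ⟨h1.1, h1.2.1.trans hQ'Q, h1.2.2⟩
  -- the values
  have hval : ∀ i, ∀ n ∈ range L, (Xs i : ℤ) ≤ S.val b n t i ∧ S.val b n t i ≤ 4 * Xs i := by
    intro i n hn
    have h1 := hJ i n hn
    unfold JJ at h1
    rw [mem_Ico] at h1
    omega
  have h0L : 0 ∈ range L := mem_range.2 (by omega)
  have hmin' : ∀ i j, i ≠ j → S.minr b t i j ≠ 0 ∧ |S.minr b t i j| ≤ (X : ℤ) ^ 3 := by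
    intro i j hij
    refine ⟨hmin i j hij, ?_⟩
    have hv : ∀ i, |S.val b 0 t i| ≤ 4 * (C0 : ℤ) * X := by
      intro i
      have h1 := hval i 0 h0L
      have h2 : (Xs i : ℤ) ≤ C0 * X := by exact_mod_cast (hXs i).2
      rw [Nat.cast_zero] at h1
      rw [abs_le]
      constructor
      · have h3 : (0 : ℤ) ≤ Xs i := Int.natCast_nonneg _
        nlinarith
      · linarith
    have hA0 : (0 : ℤ) ≤ A := Int.natCast_nonneg A
    have h3 : |S.minr b t i j| ≤ A * (4 * (C0 : ℤ) * X) + A * (4 * (C0 : ℤ) * X) := by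
      unfold Sys.minr
      refine (abs_sub _ _).trans (add_le_add ?_ ?_)
      · rw [abs_mul]
        exact mul_le_mul (hA i) (hv j) (abs_nonneg _) hA0
      · rw [abs_mul]
        exact mul_le_mul (hA j) (hv i) (abs_nonneg _) hA0
    have h4 : (8 * A * C0 : ℤ) ≤ X := by exact_mod_cast hXA
    have h5 : (1 : ℤ) ≤ X := by exact_mod_cast (by omega : 1 ≤ X)
    calc |S.minr b t i j| ≤ A * (4 * (C0 : ℤ) * X) + A * (4 * (C0 : ℤ) * X) := h3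
      _ = (8 * A * C0 : ℤ) * X := by ring
      _ ≤ X * X := mul_le_mul_of_nonneg_right h4 (by linarith)
      _ ≤ (X : ℤ) ^ 3 := by nlinarith [mul_nonneg (by linarith : (0 : ℤ) ≤ X) (by linarith : (0 : ℤ) ≤ X)]
  -- the tail of the singular series
  have hτ : ∀ R : ℕ, 1 ≤ R → R ≤ D1 →
      |∑ e ∈ SF (Q' / R) R, tdS S b t e - SSS S b t ((Pool.Agent.Lib.H59P.pr Q').filter (fun l : ℕ => ¬ l ∣ R))| ≤
        2 * (X : ℝ) ^ (-(θ / 16)) := by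
    intro R hR1 hRD
    have h1 : D1 ≤ Q' / R := by
      rw [Nat.le_div_iff_mul_le hR1]
      exact (Nat.mul_le_mul_left D1 hRD).trans hDD
    have h2 : 1 ≤ Q' / R := hD11.trans h1
    have h3 : Q' / R ≤ Q' := Nat.div_le_self _ _
    refine (hXT X Q' hXT' hQ'X b t hmin' R (Q' / R) h2 h3).trans ?_
    have hXt : (0 : ℝ) < (X : ℝ) ^ (θ / 2) := Real.rpow_pos_of_pos hXp _
    have h4 : (X : ℝ) ^ (θ / 2) / 2 ≤ ((Q' / R : ℕ) : ℝ) := by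
      have h5 : (D1 : ℝ) ≤ ((Q' / R : ℕ) : ℝ) := by exact_mod_cast h1
      linarith
    have h5 : ((Q' / R : ℕ) : ℝ) ^ (-(1 / 4) : ℝ) ≤ ((X : ℝ) ^ (θ / 2) / 2) ^ (-(1 / 4) : ℝ) :=
      Real.rpow_le_rpow_of_nonpos (by positivity) h4 (by norm_num)
    have h6 : ((X : ℝ) ^ (θ / 2) / 2) ^ (-(1 / 4) : ℝ) ≤ 2 * (X : ℝ) ^ (-(θ / 8)) := by
      rw [div_eq_mul_inv, Real.mul_rpow hXt.le (by norm_num), ← Real.rpow_mul hXp.le, Real.inv_rpow (by norm_num), ← Real.rpow_neg (by norm_num), neg_neg]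
      have h7 : (2 : ℝ) ^ ((1 : ℝ) / 4) ≤ 2 := by
        calc (2 : ℝ) ^ ((1 : ℝ) / 4) ≤ (2 : ℝ) ^ (1 : ℝ) := Real.rpow_le_rpow_of_exponent_le (by norm_num) (by norm_num)
          _ = 2 := Real.rpow_one 2
      have h8 : θ / 2 * (-(1 / 4) : ℝ) = -(θ / 8) := by ring
      rw [h8, mul_comm]
      exact mul_le_mul_of_nonneg_right h7 (by positivity)
    calc ((Q' / R : ℕ) : ℝ) ^ (-(1 / 4) : ℝ) * (X : ℝ) ^ (θ / 16)
        ≤ (2 * (X : ℝ) ^ (-(θ / 8))) * (X : ℝ) ^ (θ / 16) :=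
          mul_le_mul_of_nonneg_right (h5.trans h6) (by positivity)
      _ = 2 * (X : ℝ) ^ (-(θ / 16)) := by
          rw [mul_assoc, ← Real.rpow_add hXp]
          ring_nf
  obtain ⟨SS, hSS⟩ : ∃ SS : ℝ, SS = SSS S b t (pr Q') := ⟨_, rfl⟩
  have hSSlow : Real.exp (-(4 * k : ℝ)) ≤ SS := by
    rw [hSS]
    exact T1S_low S b t hAdm (pr Q') (fun l hl => n3_pr hl)
  have hSS0 : 0 < SS := (Real.exp_pos _).trans_le hSSlow
  have herr : (2 * C1 * (1 + Real.log Q')) ^ k * (2 * (X : ℝ) ^ (-(θ / 16))) ≤ ε / 4 * SS := by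
    have h1 := hXL X hXL'
    have hlQ : Real.log Q' ≤ Real.log X := Real.log_le_log (by exact_mod_cast hQ'1) (by exact_mod_cast hQ'X)
    have hlQ0 : 0 ≤ Real.log Q' := Real.log_nonneg (by exact_mod_cast hQ'1)
    have h2 : (2 * C1 * (1 + Real.log Q')) ^ k ≤ (2 * C1 * (1 + Real.log X)) ^ k := by
      gcongr
    have h3 : (X : ℝ) ^ (-(θ / 32)) ≤ ε / 2 := hXE X hXE'
    have h4 : Real.exp (4 * k) * Real.exp (-(4 * k : ℝ)) = 1 := by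
      rw [← Real.exp_add, add_neg_cancel, Real.exp_zero]
    have h5 : (X : ℝ) ^ (θ / 32) * (X : ℝ) ^ (-(θ / 16)) = (X : ℝ) ^ (-(θ / 32)) := by
      rw [← Real.rpow_add hXp]
      ring_nf
    have hx8 : (0 : ℝ) < (X : ℝ) ^ (-(θ / 16)) := Real.rpow_pos_of_pos hXp _
    have he : (0 : ℝ) < Real.exp (-(4 * k : ℝ)) := Real.exp_pos _
    calc (2 * C1 * (1 + Real.log Q')) ^ k * (2 * (X : ℝ) ^ (-(θ / 16)))
        ≤ (2 * C1 * (1 + Real.log X)) ^ k * (2 * (X : ℝ) ^ (-(θ / 16))) := mul_le_mul_of_nonneg_right h2 (by positivity)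
      _ = ((2 * C1 * (1 + Real.log X)) ^ k * (4 * Real.exp (4 * k))) * (X : ℝ) ^ (-(θ / 16)) * Real.exp (-(4 * k : ℝ)) / 2 := by
          linear_combination (-(2 * (2 * C1 * (1 + Real.log X)) ^ k * (X : ℝ) ^ (-(θ / 16)))) * h4
      _ ≤ (X : ℝ) ^ (θ / 32) * (X : ℝ) ^ (-(θ / 16)) * Real.exp (-(4 * k : ℝ)) / 2 := by
          gcongr
      _ ≤ ε / 2 * Real.exp (-(4 * k : ℝ)) / 2 := by
          rw [h5]
          gcongr
      _ ≤ ε / 4 * SS := by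
          nlinarith [mul_le_mul_of_nonneg_left hSSlow hε.le]
  -- one cell
  have hcell : ∀ j ∈ range (L / H),
      ‖MCS S b t Q' Q' D1 p0 (fun i p => Bc Q (Xs i) p (S.val b ((j * H : ℕ) : ℤ) t i)) - ((SS : ℝ) : ℂ)‖ ≤ ε / 2 * SS := by
    intro j hj
    rw [mem_range] at hj
    have hjL : j * H ∈ range L := by
      rw [mem_range]
      have h1 : (j + 1) * H ≤ L := (Nat.mul_le_mul_right H hj).trans (Nat.div_mul_le_self L H)
      have h2 : (j + 1) * H = j * H + H := by ring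
      omega
    have hm := fun i => hval i (j * H) hjL
    choose mb hmb1 hmb2 hmb3 using fun i => hmass Q (Xs i) ((hR i).reg.mono (by positivity) (le_max_left _ _))
    choose eb heb1 heb2 heb3 using fun i => (hM i).cf
    have hZ := N2_cell S b t Q' Q' D1 hQ'1 le_rfl hD1D hD11 E0 C1
      (fun i p => Bc Q (Xs i) p (S.val b ((j * H : ℕ) : ℤ) t i))
      (fun i => by
        refine (Finset.sum_le_sum fun p hp => hmb3 i _ (hm i).1 (hm i).2 p (hPC hp)).trans ?_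
        exact (Finset.sum_le_sum_of_subset_of_nonneg hPC fun p hp _ => hmb1 i p hp).trans (hmb2 i))
      eb (fun i p hp => heb1 i p (hPC hp))
      (fun i => by
        refine (Finset.sum_le_sum_of_subset_of_nonneg hPC fun p hp _ => heb1 i p hp).trans ?_
        have := heb2 i
        linarith)
      (fun i p hp _ => heb3 i _ (hm i).1 (hm i).2 p (hPC hp)) _ hτ
    rw [← hSS] at hZ
    refine hZ.trans ?_
    have h1 : ((1 + E0) ^ k - 1) * SS ≤ ε / 4 * SS := mul_le_mul_of_nonneg_right hE0k hSS0.le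
    linarith
  rw [← hSS]
  have hLH : ((L / H : ℕ) : ℝ) * H ≤ L := by exact_mod_cast Nat.div_mul_le_self L H
  have hLH2 : (L : ℝ) ≤ ((L / H : ℕ) : ℝ) * H + H := by
    have h1 := Nat.div_add_mod L H
    have h2 := Nat.mod_lt L hH1
    rw [mul_comm H] at h1
    have h3 : L ≤ L / H * H + H := by omega
    exact_mod_cast h3
  have hsplit : ∑ j ∈ range (L / H), ((H : ℕ) : ℂ) * MCS S b t Q' Q' D1 p0
        (fun i p => Bc Q (Xs i) p (S.val b ((j * H : ℕ) : ℤ) t i)) - ((L * SS : ℝ) : ℂ) =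
      ∑ j ∈ range (L / H), ((H : ℕ) : ℂ) * (MCS S b t Q' Q' D1 p0
        (fun i p => Bc Q (Xs i) p (S.val b ((j * H : ℕ) : ℤ) t i)) - ((SS : ℝ) : ℂ)) -
        ((((L : ℝ) - ((L / H : ℕ) : ℝ) * H) * SS : ℝ) : ℂ) := by
    simp only [mul_sub, Finset.sum_sub_distrib, Finset.sum_const, card_range, nsmul_eq_mul]
    push_cast
    ring
  rw [hsplit]
  refine (norm_sub_le _ _).trans ?_
  have h1 : ‖∑ j ∈ range (L / H), ((H : ℕ) : ℂ) * (MCS S b t Q' Q' D1 p0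
        (fun i p => Bc Q (Xs i) p (S.val b ((j * H : ℕ) : ℤ) t i)) - ((SS : ℝ) : ℂ))‖ ≤
      ((L / H : ℕ) : ℝ) * (H * (ε / 2 * SS)) := by
    refine (norm_sum_le _ _).trans ?_
    calc ∑ j ∈ range (L / H), ‖((H : ℕ) : ℂ) * (MCS S b t Q' Q' D1 p0
          (fun i p => Bc Q (Xs i) p (S.val b ((j * H : ℕ) : ℤ) t i)) - ((SS : ℝ) : ℂ))‖
        ≤ ∑ _j ∈ range (L / H), (H : ℝ) * (ε / 2 * SS) := by
          refine Finset.sum_le_sum fun j hj => ?_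
          rw [norm_mul, Complex.norm_natCast]
          exact mul_le_mul_of_nonneg_left (hcell j hj) (Nat.cast_nonneg H)
      _ = ((L / H : ℕ) : ℝ) * (H * (ε / 2 * SS)) := by
          rw [sum_const, card_range, nsmul_eq_mul]
  have h2 : ‖((((L : ℝ) - ((L / H : ℕ) : ℝ) * H) * SS : ℝ) : ℂ)‖ ≤ H * SS := by
    rw [Complex.norm_real, Real.norm_eq_abs, abs_of_nonneg (mul_nonneg (by linarith) hSS0.le)]
    exact mul_le_mul_of_nonneg_right (by linarith) hSS0.le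
  have h3 : ((L / H : ℕ) : ℝ) * (H * (ε / 2 * SS)) ≤ L * (ε / 2 * SS) := by
    rw [← mul_assoc]
    exact mul_le_mul_of_nonneg_right hLH (by positivity)
  have h4 : (H : ℝ) * SS ≤ ε / 2 * L * SS := mul_le_mul_of_nonneg_right hHL hSS0.le
  calc _ ≤ ((L / H : ℕ) : ℝ) * (H * (ε / 2 * SS)) + H * SS := add_le_add h1 h2
    _ ≤ L * (ε / 2 * SS) + ε / 2 * L * SS := add_le_add h3 h4
    _ = ε * (L * SS) := by ring

end Pool.Agent.H9A
end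

-- from Lib.H9P.W3
section

/-!
# ASYP, W3: one exceptional set for all levels of the singular series at once
-/

open Finset Polynomial

namespace Pool.Agent.H9P

open Pool.Agent.HUP
open Pool.Agent.Lib.H59

/-- the polynomials of an admissible system are primitive -/
theorem w3_prim {g : ℕ} {F : Fin g → ℤ[X]} {G : ℤ[X]} {N : ℕ} (hadm : Admissible F G N) (i : Fin g) : (F i).IsPrimitive := by
  intro r hr
  by_contra hu
  have h1 : r.natAbs ≠ 1 := fun h => hu (Int.isUnit_iff_natAbs_eq.2 h)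
  obtain ⟨p, hp, hpr⟩ := Nat.exists_prime_and_dvd h1
  refine hadm.2 p hp fun n => ?_
  have h2 : (p : ℤ) ∣ r := Int.natCast_dvd.2 hpr
  obtain ⟨Q, hQ⟩ := hr
  have h3 : (F i).eval n = r * Q.eval n := by
    rw [hQ, eval_mul, eval_C]
  have h4 : (p : ℤ) ∣ (F i).eval n := by
    rw [h3]
    exact h2.mul_right _
  rw [eval_mul, eval_prod]
  exact Dvd.dvd.mul_right (h4.trans (Finset.dvd_prod_of_mem (fun i => (F i).eval n) (Finset.mem_univ i))) _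

/-- few roots -/
theorem w3_omega {g : ℕ} {F : Fin g → ℤ[X]} {G : ℤ[X]} {N : ℕ} (hG : G.natDegree = 1) (hadm : Admissible F G N) (D : ℕ)
    (hD : ∑ i, (F i).natDegree + 1 ≤ D) {p : ℕ} (hp : p.Prime) : omegaN F G N p ≤ D := by
  refine (omegaN_le_sum F G N hp).trans (le_trans (Nat.add_le_add (sum_le_sum fun i _ => ?_) ?_) hD)
  · exact rootCount_le_natDegree (w3_prim hadm i) hp
  · have h1 : (C (N : ℤ) - G).natDegree = 1 := by rw [natDegree_C_sub', hG]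
    rw [← h1]
    exact rootCount_le_natDegree (hadm.1.isPrimitive (by omega)) hp

/-- the series is positive -/
theorem w3_pos {g : ℕ} {F : Fin g → ℤ[X]} {G : ℤ[X]} {N : ℕ} (hadm : Admissible F G N) (z : ℕ) : 0 < seriesTrunc F G N z := by
  unfold seriesTrunc
  refine Finset.prod_pos fun p hp => ?_
  have hp' := Nat.prime_of_mem_primesBelow hp
  have h1 : (omegaN F G N p : ℝ) < p := by exact_mod_cast omegaN_lt hadm hp'
  have h2 : (1 : ℝ) < p := by exact_mod_cast hp'.one_lt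
  have h3 : (0 : ℝ) < 1 - (omegaN F G N p : ℝ) / p := by
    rw [sub_pos, div_lt_one (by linarith)]
    exact h1
  have h4 : (0 : ℝ) < 1 - 1 / (p : ℝ) := by
    rw [sub_pos, div_lt_one (by linarith)]
    exact h2
  positivity

/-- the series at near levels -/
theorem w3_near {g : ℕ} {F : Fin g → ℤ[X]} {G : ℤ[X]} {N : ℕ} (hG : G.natDegree = 1) (hadm : Admissible F G N) (D : ℕ)
    (hD : ∑ i, (F i).natDegree + 1 ≤ D) (ε : ℝ) (hε : 0 < ε) (hε1 : ε ≤ 1) (z' z : ℕ) (hz : z' ≤ z)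
    (hm : ((D : ℝ) + 2 * (g + 1)) * ((z : ℝ) - z') ≤ ε * z') (hz1 : (D : ℝ) + 2 * (g + 1) ≤ z') :
    |seriesTrunc F G N z - seriesTrunc F G N z'| ≤ ε * seriesTrunc F G N z' := by
  classical
  have hz0 : (0 : ℝ) < z' := by
    have : (0 : ℝ) ≤ (D : ℝ) := Nat.cast_nonneg _
    have : (0 : ℝ) ≤ (g : ℝ) := Nat.cast_nonneg _
    linarith
  set B : Finset ℕ := (Nat.primesBelow z) \ (Nat.primesBelow z') with hB
  have hsub : Nat.primesBelow z' ⊆ Nat.primesBelow z := by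
    intro p hp
    rw [Nat.mem_primesBelow] at hp ⊢
    exact ⟨by omega, hp.2⟩
  set f : ℕ → ℝ := fun p => (1 - (omegaN F G N p : ℝ) / p) * ((1 - 1 / (p : ℝ)) ^ (g + 1))⁻¹ with hf
  have hprod : seriesTrunc F G N z = (∏ p ∈ B, f p) * seriesTrunc F G N z' := by
    unfold seriesTrunc
    rw [hB, Finset.prod_sdiff hsub]
  have hBz : ∀ p ∈ B, z' ≤ p ∧ p < z ∧ p.Prime := by
    intro p hp
    rw [hB, mem_sdiff, Nat.mem_primesBelow, Nat.mem_primesBelow] at hp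
    refine ⟨?_, hp.1.1, hp.1.2⟩
    by_contra hcon
    exact hp.2 ⟨by omega, hp.1.2⟩
  have hcard : (B.card : ℝ) ≤ (z : ℝ) - z' := by
    have h1 : B ⊆ Finset.Ico z' z := by
      intro p hp
      obtain ⟨h1, h2, -⟩ := hBz p hp
      rw [mem_Ico]
      exact ⟨h1, h2⟩
    have h2 := Finset.card_le_card h1
    rw [Nat.card_Ico] at h2
    have h3 : (B.card : ℝ) ≤ ((z - z' : ℕ) : ℝ) := by exact_mod_cast h2
    rwa [Nat.cast_sub hz] at h3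
  have hD0 : (0 : ℝ) ≤ D := Nat.cast_nonneg _
  have hg0 : (0 : ℝ) ≤ g := Nat.cast_nonneg _
  -- bounds of the factors
  have hlow : ∀ p ∈ B, 1 + -((D : ℝ) / z') ≤ f p := by
    intro p hp
    obtain ⟨h1, h2, h3⟩ := hBz p hp
    have hp1 : (1 : ℝ) < p := by exact_mod_cast h3.one_lt
    have hpz : (z' : ℝ) ≤ p := by exact_mod_cast h1
    have h4 : (omegaN F G N p : ℝ) ≤ D := by exact_mod_cast w3_omega hG hadm D hD h3
    have h5 : (omegaN F G N p : ℝ) / p ≤ D / z' := div_le_div₀ hD0 h4 hz0 hpz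
    have h6 : (0 : ℝ) < 1 - 1 / (p : ℝ) := by
      rw [sub_pos, div_lt_one (by linarith)]
      exact hp1
    have h7 : (1 - 1 / (p : ℝ)) ^ (g + 1) ≤ 1 := pow_le_one₀ h6.le (by
      have : (0 : ℝ) ≤ 1 / (p : ℝ) := by positivity
      linarith)
    have h8 : (1 : ℝ) ≤ ((1 - 1 / (p : ℝ)) ^ (g + 1))⁻¹ := (one_le_inv₀ (pow_pos h6 _)).2 h7
    have h9 : (0 : ℝ) ≤ 1 - (omegaN F G N p : ℝ) / p := by
      rw [sub_nonneg, div_le_one (by linarith)]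
      exact_mod_cast (omegaN_lt hadm h3).le
    calc 1 + -((D : ℝ) / z') ≤ (1 - (omegaN F G N p : ℝ) / p) * 1 := by linarith
      _ ≤ f p := mul_le_mul_of_nonneg_left h8 h9
  have hup : ∀ p ∈ B, f p ≤ ((1 + -(1 / (z' : ℝ))) ^ (g + 1))⁻¹ := by
    intro p hp
    obtain ⟨h1, h2, h3⟩ := hBz p hp
    have hp1 : (1 : ℝ) < p := by exact_mod_cast h3.one_lt
    have hpz : (z' : ℝ) ≤ p := by exact_mod_cast h1
    have hz2 : (1 : ℝ) < z' := by linarith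
    have h5 : 1 / (p : ℝ) ≤ 1 / (z' : ℝ) := one_div_le_one_div_of_le hz0 hpz
    have h6 : (0 : ℝ) < 1 + -(1 / (z' : ℝ)) := by
      have : 1 / (z' : ℝ) < 1 := by
        rw [div_lt_one hz0]
        exact hz2
      linarith
    have h7 : (1 + -(1 / (z' : ℝ))) ^ (g + 1) ≤ (1 - 1 / (p : ℝ)) ^ (g + 1) := pow_le_pow_left₀ h6.le (by linarith) _
    have h8 : ((1 - 1 / (p : ℝ)) ^ (g + 1))⁻¹ ≤ ((1 + -(1 / (z' : ℝ))) ^ (g + 1))⁻¹ :=
      inv_anti₀ (pow_pos h6 _) h7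
    have h9 : (1 - (omegaN F G N p : ℝ) / p) ≤ 1 := by
      have : (0 : ℝ) ≤ (omegaN F G N p : ℝ) / p := by positivity
      linarith
    have h10 : (0 : ℝ) ≤ ((1 - 1 / (p : ℝ)) ^ (g + 1))⁻¹ := by
      have : (0 : ℝ) ≤ 1 - 1 / (p : ℝ) := by
        have : 1 / (p : ℝ) ≤ 1 := by
          rw [div_le_one (by linarith)]
          exact hp1.le
        linarith
      positivity
    calc f p ≤ 1 * ((1 - 1 / (p : ℝ)) ^ (g + 1))⁻¹ := mul_le_mul_of_nonneg_right h9 h10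
      _ = ((1 - 1 / (p : ℝ)) ^ (g + 1))⁻¹ := one_mul _
      _ ≤ _ := h8
  obtain ⟨m, hm'⟩ : ∃ m : ℕ, m = B.card := ⟨_, rfl⟩
  have hmz : ((D : ℝ) + 2 * (g + 1)) * m ≤ ε * z' := by
    rw [hm']
    refine le_trans (mul_le_mul_of_nonneg_left hcard (by positivity)) hm
  have hDz : (D : ℝ) / z' ≤ 1 := by
    rw [div_le_one hz0]
    linarith
  have hT1 : 1 - ε ≤ ∏ p ∈ B, f p := by
    have h1 : (1 + -((D : ℝ) / z')) ^ m ≤ ∏ p ∈ B, f p := by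
      rw [hm', ← Finset.prod_const]
      exact Finset.prod_le_prod (fun p _ => by linarith) hlow
    have h2 := one_add_mul_le_pow (show (-2 : ℝ) ≤ -((D : ℝ) / z') by linarith) m
    have h3 : (m : ℝ) * ((D : ℝ) / z') ≤ ε := by
      rw [mul_div_assoc', div_le_iff₀ hz0]
      have : 0 ≤ (2 * ((g : ℝ) + 1)) * m := by positivity
      linarith
    have h4 : (1 : ℝ) + m * -((D : ℝ) / z') = 1 - m * ((D : ℝ) / z') := by ring
    rw [h4] at h2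
    linarith
  have hT2 : ∏ p ∈ B, f p ≤ 1 + ε := by
    have hz2 : (1 : ℝ) < z' := by linarith
    have hiz : 1 / (z' : ℝ) < 1 := by
      rw [div_lt_one hz0]
      exact hz2
    have h1 : ∏ p ∈ B, f p ≤ (((1 + -(1 / (z' : ℝ))) ^ (g + 1))⁻¹) ^ m := by
      rw [hm', ← Finset.prod_const]
      refine Finset.prod_le_prod (fun p hp => ?_) hup
      have := hlow p hp
      linarith
    have h2 : (((1 + -(1 / (z' : ℝ))) ^ (g + 1))⁻¹) ^ m = ((1 + -(1 / (z' : ℝ))) ^ ((g + 1) * m))⁻¹ := by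
      rw [inv_pow, ← pow_mul]
    have h3 := one_add_mul_le_pow (show (-2 : ℝ) ≤ -(1 / (z' : ℝ)) by linarith) ((g + 1) * m)
    have h4 : (((g + 1) * m : ℕ) : ℝ) * (1 / (z' : ℝ)) ≤ ε / 2 := by
      rw [mul_one_div, div_le_iff₀ hz0]
      push_cast
      have : 0 ≤ (D : ℝ) * m := by positivity
      nlinarith
    have h5 : (1 : ℝ) + (((g + 1) * m : ℕ) : ℝ) * -(1 / (z' : ℝ)) = 1 - (((g + 1) * m : ℕ) : ℝ) * (1 / (z' : ℝ)) := by ring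
    rw [h5] at h3
    have h6 : 1 - ε / 2 ≤ (1 + -(1 / (z' : ℝ))) ^ ((g + 1) * m) := by linarith
    have h7 : (0 : ℝ) < 1 - ε / 2 := by linarith
    rw [h2] at h1
    refine h1.trans ((inv_anti₀ h7 h6).trans ?_)
    rw [inv_le_iff_one_le_mul₀ h7]
    nlinarith
  have hS := w3_pos hadm z'
  rw [hprod]
  have e1 : (∏ p ∈ B, f p) * seriesTrunc F G N z' - seriesTrunc F G N z' =
      ((∏ p ∈ B, f p) - 1) * seriesTrunc F G N z' := by ring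
  rw [e1, abs_mul, abs_of_pos hS]
  refine mul_le_mul_of_nonneg_right ?_ hS.le
  rw [abs_le]
  constructor <;> linarith

/-- the last step of `W3_unif` -/
theorem w3_fin (q u v ε ε' : ℝ) (hu : 0 ≤ u) (hε : 0 < ε) (h1 : ε' ≤ 1 / 4) (h2 : ε' ≤ ε / 4)
    (c1 : -(ε' * u) ≤ q - u) (c2 : q - u ≤ ε' * u) (k1 : v - u ≤ ε' * u) (k2 : -(ε' * u) ≤ v - u)
    (t : ε * v < |q - v|) : False := by
  have h3 : ε' * u ≤ 1 / 4 * u := mul_le_mul_of_nonneg_right h1 hu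
  have h4 : ε' * u ≤ ε / 4 * u := mul_le_mul_of_nonneg_right h2 hu
  have h5 : 3 / 4 * u ≤ v := by linarith
  have h6 : ε * (3 / 4 * u) ≤ ε * v := mul_le_mul_of_nonneg_left h5 hε.le
  have h7 : 0 ≤ ε * u := mul_nonneg hε.le hu
  refine absurd t (not_lt.2 (abs_le.2 ⟨?_, ?_⟩))
  · linarith
  · linarith

/-- the grid `⌊β^j⌋` -/
theorem w3_grid (β δ δ1 η : ℝ) (hβ : 1 < β) (hβ2 : β ≤ 2) (hδ : 0 < δ) (hδ1 : 0 < δ1) (hη : 0 < η) :
    ∃ Z0 : ℕ, 1 ≤ Z0 ∧ ∀ Z : ℕ, Z0 ≤ Z → ∃ J : ℕ, ((J : ℝ) ≤ (Z : ℝ) ^ η) ∧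
      ∀ z : ℕ, (Z : ℝ) ^ δ ≤ z → (z : ℝ) ≤ (Z : ℝ) ^ δ1 → ∃ j < J, ⌊β ^ j⌋₊ ≤ z ∧
        (Z : ℝ) ^ (δ / 2) ≤ ⌊β ^ j⌋₊ ∧ ((⌊β ^ j⌋₊ : ℕ) : ℝ) ≤ (Z : ℝ) ^ δ1 ∧ (z : ℝ) ≤ β * ⌊β ^ j⌋₊ + 2 := by
  have hlβ : 0 < Real.log β := Real.log_pos hβ
  have ht1 : Filter.Tendsto (fun N : ℕ => (N : ℝ) ^ (δ / 2)) Filter.atTop Filter.atTop :=
    (tendsto_rpow_atTop (by linarith)).comp tendsto_natCast_atTop_atTop
  have ht2 : Filter.Tendsto (fun N : ℕ => (N : ℝ) ^ η) Filter.atTop Filter.atTop :=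
    (tendsto_rpow_atTop hη).comp tendsto_natCast_atTop_atTop
  have ho : ∀ᶠ N : ℕ in Filter.atTop, Real.log N ≤ (Real.log β / (4 * δ1)) * (N : ℝ) ^ η := by
    have h1 := (isLittleO_log_rpow_atTop hη).bound (show (0 : ℝ) < Real.log β / (4 * δ1) by positivity)
    have h2 := tendsto_natCast_atTop_atTop.eventually (h1.and (Filter.eventually_ge_atTop (1 : ℝ)))
    filter_upwards [h2] with N hN
    obtain ⟨h3, h4⟩ := hN
    rw [Real.norm_eq_abs, Real.norm_eq_abs, abs_of_nonneg (Real.log_nonneg h4), abs_of_nonneg (by positivity)] at h3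
    exact h3
  obtain ⟨Z0, hZ0⟩ := Filter.eventually_atTop.1 (((ht1.eventually_ge_atTop (4 : ℝ)).and (ht2.eventually_ge_atTop (4 : ℝ))).and ho)
  refine ⟨Z0 + 1, by omega, fun Z hZ => ?_⟩
  obtain ⟨⟨a1, a2⟩, a3⟩ := hZ0 Z (by omega)
  have hZr : (1 : ℝ) ≤ Z := by exact_mod_cast (by omega : 1 ≤ Z)
  have hlZ : 0 ≤ Real.log Z := Real.log_nonneg hZr
  refine ⟨⌊δ1 * Real.log Z / Real.log β⌋₊ + 1, ?_, fun z hz1 hz2 => ?_⟩
  · push_cast
    have h1 : ((⌊δ1 * Real.log Z / Real.log β⌋₊ : ℕ) : ℝ) ≤ δ1 * Real.log Z / Real.log β := Nat.floor_le (by positivity)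
    have h2 : δ1 * Real.log Z / Real.log β ≤ (Z : ℝ) ^ η / 4 := by
      rw [div_le_iff₀ hlβ]
      have h3 := mul_le_mul_of_nonneg_left a3 hδ1.le
      have h4 : δ1 * (Real.log β / (4 * δ1) * (Z : ℝ) ^ η) = (Z : ℝ) ^ η / 4 * Real.log β := by
        field_simp
      rwa [h4] at h3
    linarith
  · have e1 : (Z : ℝ) ^ δ = (Z : ℝ) ^ (δ / 2) * (Z : ℝ) ^ (δ / 2) := by
      rw [← Real.rpow_add (by linarith)]
      congr 1
      ring
    have hz3 : (1 : ℝ) ≤ z := by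
      have : (1 : ℝ) ≤ (Z : ℝ) ^ (δ / 2) * (Z : ℝ) ^ (δ / 2) := by nlinarith
      linarith
    obtain ⟨j, hj1, hj2⟩ := exists_nat_pow_near hz3 hβ
    have hp1 : (1 : ℝ) ≤ β ^ j := one_le_pow₀ hβ.le
    have hfl : ((⌊β ^ j⌋₊ : ℕ) : ℝ) ≤ β ^ j := Nat.floor_le (by linarith)
    have hfl2 : β ^ j < (⌊β ^ j⌋₊ : ℕ) + 1 := Nat.lt_floor_add_one _
    have hup : (z : ℝ) ≤ β * ⌊β ^ j⌋₊ + 2 := by
      have h1 : β ^ (j + 1) = β * β ^ j := by rw [pow_succ, mul_comm]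
      rw [h1] at hj2
      nlinarith
    refine ⟨j, ?_, ?_, ?_, ?_, hup⟩
    · rw [Nat.lt_succ_iff]
      refine Nat.le_floor ?_
      rw [le_div_iff₀ hlβ]
      have h1 : β ^ j ≤ (Z : ℝ) ^ δ1 := hj1.trans hz2
      have h2 := Real.log_le_log (by linarith) h1
      rw [Real.log_pow, Real.log_rpow (by linarith)] at h2
      exact h2
    · exact_mod_cast hfl.trans hj1
    · rw [e1] at hz1
      nlinarith
    · exact hfl.trans (hj1.trans hz2)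

open Classical in
/-- **W3.** Arbitrarily large scales, power-saving exceptional set, all levels of the series at once. -/
theorem W3_unif {g d : ℕ} (G : ℤ[X]) (hG : G.natDegree = 1) (hG0 : 0 < G.leadingCoeff) (P : Fin g → ℤ[X])
    (D : Fin g → ℕ) (a : Fin g → ℤ) (hP : HasD D a P) (c : Fin g → Fin d → ℤ) (e : Fin d → ℕ)
    (hB : ∀ i j, c i j ≠ 0 → e j = D i) (hA : ACoreP c e D P) :
    ∃ δ1 : ℝ, 0 < δ1 ∧ ∀ (A : ℕ) (ε δ : ℝ), 0 < ε → 0 < δ → ∃ η : ℝ, 0 < η ∧ ∀ M0 : ℕ, ∃ M : ℕ, M0 ≤ M ∧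
      ∀ N : ℕ, M ≤ N → N ≤ M ^ A → ∀ b : Fin g → ℤ, (∀ i, |b i| ≤ A * (argCount G N : ℤ) ^ D i) →
      (((BoxT A (argCount G N) e).filter fun t => (∀ i, 0 ≤ b i + lf c t i) ∧
        ∃ z : ℕ, (argCount G N : ℝ) ^ δ ≤ z ∧ (z : ℝ) ≤ (argCount G N : ℝ) ^ δ1 ∧ FailsP ε (famP P c b t) G N z).card : ℝ) ≤
        (argCount G N : ℝ) ^ ((∑ j, (e j : ℝ)) - η) := by
  obtain ⟨δ1, hδ1, hW⟩ := W1_pow G hG hG0 P D a hP c e hB hA
  refine ⟨δ1, hδ1, fun A ε δ hε hδ => ?_⟩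
  obtain ⟨ε', hε'⟩ : ∃ ε' : ℝ, ε' = min ε 1 / 4 := ⟨_, rfl⟩
  have hε0 : 0 < ε' := by
    rw [hε']
    have := lt_min hε one_pos
    linarith
  have hε1 : ε' ≤ 1 / 4 := by
    rw [hε']
    have := min_le_right ε 1
    linarith
  have hε2 : ε' ≤ ε / 4 := by
    rw [hε']
    have := min_le_left ε 1
    linarith
  obtain ⟨η, hη, hη'⟩ := hW A ε' (δ / 2) hε0 (by linarith)
  obtain ⟨DD, hDD⟩ : ∃ DD : ℕ, DD = ∑ i, (P i).natDegree + 1 := ⟨_, rfl⟩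
  obtain ⟨E, hE⟩ : ∃ E : ℝ, E = (DD : ℝ) + 2 * (g + 1) := ⟨_, rfl⟩
  have hE1 : 1 ≤ E := by
    rw [hE]
    have h1 : (0 : ℝ) ≤ DD := Nat.cast_nonneg _
    have h2 : (0 : ℝ) ≤ g := Nat.cast_nonneg _
    linarith
  obtain ⟨κ, hκ⟩ : ∃ κ : ℝ, κ = ε' / (2 * E) := ⟨_, rfl⟩
  have hκ0 : 0 < κ := by
    rw [hκ]
    positivity
  have hκ1 : κ ≤ 1 := by
    rw [hκ, div_le_one (by positivity)]
    linarith
  have hEκ : E * κ = ε' / 2 := by
    rw [hκ]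
    field_simp
  obtain ⟨Z0, hZ01, hgrid⟩ := w3_grid (1 + κ) δ δ1 (η / 2) (by linarith) (by linarith) hδ hδ1 (by linarith)
  obtain ⟨Z1, hZ1⟩ := Filter.eventually_atTop.1
    (((tendsto_rpow_atTop (show (0 : ℝ) < δ / 2 by linarith)).comp tendsto_natCast_atTop_atTop).eventually_ge_atTop
      (E + 4 * E / ε'))
  obtain ⟨γ, hγ⟩ : ∃ γ : ℕ, γ = G.leadingCoeff.natAbs := ⟨_, rfl⟩
  have hγ1 : 1 ≤ γ := by omega
  obtain ⟨N0, hN0⟩ := U17_dec G hG hG0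
  obtain ⟨N1, hN1⟩ := u17_large γ hγ1 (G.coeff 0 : ℝ) 1 1 1 1 one_pos one_pos one_pos
  refine ⟨η / 2, by linarith, fun M0 => ?_⟩
  obtain ⟨M, hM, hM'⟩ := hη' (M0 + N0 + N1 + 2 * γ * (Z0 + Z1) + 1)
  refine ⟨M, by omega, fun N hNl hNu b hb => ?_⟩
  obtain ⟨q1, q2, q3⟩ := hN0 N (by omega)
  rw [← hγ] at q3
  obtain ⟨p1, p2, -, -, -⟩ := hN1 N (argCount G N) 0 (by omega) q3
  have hmain := hM' N hNl hNu b hb
  obtain ⟨Z, hZ⟩ : ∃ Z : ℕ, Z = argCount G N := ⟨_, rfl⟩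
  rw [← hZ] at hmain p1 p2 ⊢
  have hNZ : N ≤ 2 * γ * Z := by exact_mod_cast p1
  have hZZ : Z0 + Z1 ≤ Z := by
    have h1 : 2 * γ * (Z0 + Z1) ≤ 2 * γ * Z := by omega
    exact Nat.le_of_mul_le_mul_left h1 (by omega)
  have hZr : (1 : ℝ) ≤ Z := by exact_mod_cast (by omega : 1 ≤ Z)
  obtain ⟨J, hJ, hJ'⟩ := hgrid Z (by omega)
  have hbig : E + 4 * E / ε' ≤ (Z : ℝ) ^ (δ / 2) := hZ1 Z (by omega)
  -- the sets of the grid points
  set S : ℕ → Finset (Fin d → ℤ) := fun j =>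
    if (Z : ℝ) ^ (δ / 2) ≤ ⌊(1 + κ) ^ j⌋₊ ∧ ((⌊(1 + κ) ^ j⌋₊ : ℕ) : ℝ) ≤ (Z : ℝ) ^ δ1 then
      (BoxT A Z e).filter (fun t => (∀ i, 0 ≤ b i + lf c t i) ∧ FailsP ε' (famP P c b t) G N ⌊(1 + κ) ^ j⌋₊) else ∅ with hS
  have hScard : ∀ j, ((S j).card : ℝ) ≤ (Z : ℝ) ^ ((∑ j, (e j : ℝ)) - η) := by
    intro j
    rw [hS]
    simp only
    split_ifs with h1
    · exact hmain _ h1.1 h1.2
    · rw [card_empty, Nat.cast_zero]
      positivity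
  have hsub : ((BoxT A Z e).filter fun t => (∀ i, 0 ≤ b i + lf c t i) ∧
        ∃ z : ℕ, (Z : ℝ) ^ δ ≤ z ∧ (z : ℝ) ≤ (Z : ℝ) ^ δ1 ∧ FailsP ε (famP P c b t) G N z) ⊆ (range J).biUnion S := by
    intro t ht
    rw [mem_filter] at ht
    obtain ⟨t1, t2, z, z1, z2, hadm, t3⟩ := ht
    obtain ⟨j, hj, j1, j2, j3, j4⟩ := hJ' z z1 z2
    rw [mem_biUnion]
    refine ⟨j, mem_range.2 hj, ?_⟩
    rw [hS]
    simp only
    rw [if_pos ⟨j2, j3⟩, mem_filter]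
    refine ⟨t1, t2, hadm, ?_⟩
    by_contra hcon
    rw [not_lt] at hcon
    obtain ⟨z', hz'⟩ : ∃ z' : ℕ, z' = ⌊(1 + κ) ^ j⌋₊ := ⟨_, rfl⟩
    rw [← hz'] at j1 j2 j3 j4 hcon
    have hz'0 : E + 4 * E / ε' ≤ z' := hbig.trans j2
    have h4 : 0 < 4 * E / ε' := by positivity
    have hdeg : ∑ i, (famP P c b t i).natDegree + 1 ≤ DD := by
      rw [hDD]
      refine Nat.add_le_add_right (sum_le_sum fun i _ => ?_) _
      unfold famP
      rw [natDegree_add_C]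
    have hnear := w3_near hG hadm DD hdeg ε' hε0 (by linarith) z' z j1
      (by
        rw [← hE]
        have h5 : (z : ℝ) - z' ≤ κ * z' + 2 := by linarith
        have h6 : E * ((z : ℝ) - z') ≤ E * (κ * z' + 2) := mul_le_mul_of_nonneg_left h5 (by linarith)
        have h7 : E * (κ * z' + 2) = ε' / 2 * z' + 2 * E := by
          rw [← hEκ]
          ring
        have h8 : 2 * E ≤ ε' / 2 * z' := by
          have h9 : 4 * E / ε' ≤ z' := by linarith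
          rw [div_le_iff₀ hε0] at h9
          linarith
        linarith)
      (by
        rw [← hE]
        linarith)
    obtain ⟨K0, hK0⟩ : ∃ K0 : ℝ, K0 = (argCount G N : ℝ) / Real.log (argCount G N) ^ (g + 1) *
      ((G.natDegree : ℝ) * ∏ i, ((famP P c b t i).natDegree : ℝ))⁻¹ := ⟨_, rfl⟩
    have hK0' : 0 ≤ K0 := by
      rw [hK0, ← hZ]
      have h5 : 0 ≤ Real.log Z := Real.log_nonneg hZr
      positivity
    have m1 : ∀ y, mainTermP (famP P c b t) G N y = K0 * seriesTrunc (famP P c b t) G N y := by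
      intro y
      rw [hK0]
      rfl
    rw [m1] at hcon t3
    have hS' := w3_pos hadm z'
    have hSz := w3_pos hadm z
    obtain ⟨s', hs'⟩ : ∃ s' : ℝ, s' = seriesTrunc (famP P c b t) G N z' := ⟨_, rfl⟩
    obtain ⟨s, hs⟩ : ∃ s : ℝ, s = seriesTrunc (famP P c b t) G N z := ⟨_, rfl⟩
    rw [← hs'] at hnear hcon hS'
    rw [← hs] at hnear t3 hSz
    obtain ⟨n1, n2⟩ := abs_le.1 hnear
    obtain ⟨c1, c2⟩ := abs_le.1 hcon
    have k0 : 0 ≤ K0 * s' := mul_nonneg hK0' hS'.le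
    have k1 : K0 * (s - s') ≤ K0 * (ε' * s') := mul_le_mul_of_nonneg_left n2 hK0'
    have k2 : K0 * (-(ε' * s')) ≤ K0 * (s - s') := mul_le_mul_of_nonneg_left n1 hK0'
    have k1' : K0 * s - K0 * s' ≤ ε' * (K0 * s') := by
      rw [mul_sub] at k1
      have : K0 * (ε' * s') = ε' * (K0 * s') := by ring
      linarith
    have k2' : -(ε' * (K0 * s')) ≤ K0 * s - K0 * s' := by
      rw [mul_sub] at k2
      have : K0 * (-(ε' * s')) = -(ε' * (K0 * s')) := by ring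
      linarith
    clear_value S
    exact w3_fin _ (K0 * s') (K0 * s) ε ε' k0 hε hε1 hε2 c1 c2 k1' k2' t3
  calc ((((BoxT A Z e).filter fun t => (∀ i, 0 ≤ b i + lf c t i) ∧
        ∃ z : ℕ, (Z : ℝ) ^ δ ≤ z ∧ (z : ℝ) ≤ (Z : ℝ) ^ δ1 ∧ FailsP ε (famP P c b t) G N z).card : ℕ) : ℝ)
      ≤ (((range J).biUnion S).card : ℝ) := by exact_mod_cast card_le_card hsub
    _ ≤ ∑ j ∈ range J, ((S j).card : ℝ) := by exact_mod_cast card_biUnion_le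
    _ ≤ ∑ j ∈ range J, (Z : ℝ) ^ ((∑ j, (e j : ℝ)) - η) := sum_le_sum fun j _ => hScard j
    _ = J * (Z : ℝ) ^ ((∑ j, (e j : ℝ)) - η) := by rw [sum_const, card_range, nsmul_eq_mul]
    _ ≤ (Z : ℝ) ^ (η / 2) * (Z : ℝ) ^ ((∑ j, (e j : ℝ)) - η) := mul_le_mul_of_nonneg_right hJ (by positivity)
    _ = (Z : ℝ) ^ ((∑ j, (e j : ℝ)) - η / 2) := by
        rw [← Real.rpow_add (by linarith)]
        congr 1
        ring

end Pool.Agent.H9P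
end

-- from Lib.H9P.U1
section

/-!
# ASYP, chunk U1 (S/M): the geometry
-/

open Finset Polynomial

namespace Pool.Agent.H9P

open Pool.Agent.Lib.H68T Pool.Agent.Lib.H18Q Pool.Agent.Lib.H59P Pool.Agent.Lib.H24P
open Pool.Agent.HUP

/-- The values of a polynomial with small coefficients. -/
theorem u1_small (A X1 m n : ℕ) (P : ℤ[X]) (hd : P.natDegree ≤ A)
    (hlo : ∀ j, 1000 * (A + 1) ^ 2 * (P.coeff j).natAbs * (2 * X1) ^ j ≤ m) (hn : n < 2 * X1) :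
    8 * |P.eval (n : ℤ)| ≤ m := by
  have hloz : ∀ j, 1000 * ((A : ℤ) + 1) ^ 2 * |P.coeff j| * (2 * (X1 : ℤ)) ^ j ≤ m := by
    intro j
    have h1 : ((1000 * (A + 1) ^ 2 * (P.coeff j).natAbs * (2 * X1) ^ j : ℕ) : ℤ) ≤ (m : ℤ) := by
      exact_mod_cast hlo j
    push_cast at h1
    exact h1
  have hn0 : (0 : ℤ) ≤ n := by positivity
  have hn2 : (n : ℤ) ≤ 2 * X1 := by
    have := hn.le
    exact_mod_cast this
  have hA : (0 : ℤ) ≤ A := by positivity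
  have h2 : |P.eval (n : ℤ)| ≤ ∑ j ∈ range (P.natDegree + 1), |P.coeff j| * (2 * (X1 : ℤ)) ^ j := by
    rw [eval_eq_sum_range]
    refine (abs_sum_le_sum_abs _ _).trans (sum_le_sum fun j _ => ?_)
    rw [abs_mul, abs_of_nonneg (by positivity : (0 : ℤ) ≤ (n : ℤ) ^ j)]
    exact mul_le_mul_of_nonneg_left (pow_le_pow_left₀ hn0 hn2 j) (abs_nonneg _)
  have h3 : 1000 * ((A : ℤ) + 1) ^ 2 * ∑ j ∈ range (P.natDegree + 1), |P.coeff j| * (2 * (X1 : ℤ)) ^ j ≤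
      ((A : ℤ) + 1) * m := by
    rw [mul_sum]
    refine (sum_le_sum fun j _ => ?_).trans (b := ∑ j ∈ range (P.natDegree + 1), (m : ℤ)) ?_
    · have := hloz j
      linarith
    · rw [sum_const, card_range, nsmul_eq_mul]
      refine mul_le_mul_of_nonneg_right ?_ (by positivity)
      push_cast
      have : (P.natDegree : ℤ) ≤ A := by exact_mod_cast hd
      linarith
  set S := ∑ j ∈ range (P.natDegree + 1), |P.coeff j| * (2 * (X1 : ℤ)) ^ j with hS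
  have hS0 : 0 ≤ S := (abs_nonneg _).trans h2
  have h4 : ((A : ℤ) + 1) * (1000 * ((A : ℤ) + 1) * S) ≤ ((A : ℤ) + 1) * m := by
    calc ((A : ℤ) + 1) * (1000 * ((A : ℤ) + 1) * S) = 1000 * ((A : ℤ) + 1) ^ 2 * S := by ring
      _ ≤ _ := h3
  have h5 : 1000 * ((A : ℤ) + 1) * S ≤ m := le_of_mul_le_mul_left h4 (by linarith)
  have h6 : 8 * S ≤ 1000 * ((A : ℤ) + 1) * S := by
    refine mul_le_mul_of_nonneg_right ?_ hS0
    linarith
  linarith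

/-- The variation of a polynomial with small coefficients. -/
theorem u1_slow (A X1 m n n' : ℕ) (P : ℤ[X]) (hd : P.natDegree ≤ A)
    (hlo : ∀ j, 1000 * (A + 1) ^ 2 * (P.coeff j).natAbs * (2 * X1) ^ j ≤ m) (hnn : n ≤ n') (hn : n' < 2 * X1) :
    (X1 : ℤ) * |P.eval (n' : ℤ) - P.eval (n : ℤ)| ≤ ((n' : ℤ) - n) * m := by
  have hloz : ∀ j, 1000 * ((A : ℤ) + 1) ^ 2 * |P.coeff j| * (2 * (X1 : ℤ)) ^ j ≤ m := by
    intro j
    have h1 : ((1000 * (A + 1) ^ 2 * (P.coeff j).natAbs * (2 * X1) ^ j : ℕ) : ℤ) ≤ (m : ℤ) := by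
      exact_mod_cast hlo j
    push_cast at h1
    exact h1
  have hn0 : (0 : ℤ) ≤ n := by positivity
  have hnn' : (n : ℤ) ≤ n' := by exact_mod_cast hnn
  have hn2 : (n' : ℤ) ≤ 2 * X1 := by
    have := hn.le
    exact_mod_cast this
  have hA : (0 : ℤ) ≤ A := by positivity
  have hdn : (0 : ℤ) ≤ (n' : ℤ) - n := by linarith
  have hX0 : (0 : ℤ) ≤ X1 := by positivity
  have hdA : (P.natDegree : ℤ) ≤ A := by exact_mod_cast hd
  have h1 : 2 * (X1 : ℤ) * |P.eval (n' : ℤ) - P.eval (n : ℤ)| ≤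
      ∑ j ∈ range (P.natDegree + 1), |P.coeff j| * (j * (2 * (X1 : ℤ)) ^ j * ((n' : ℤ) - n)) := by
    rw [eval_eq_sum_range, eval_eq_sum_range, ← sum_sub_distrib]
    refine (mul_le_mul_of_nonneg_left (abs_sum_le_sum_abs _ _) (by linarith)).trans ?_
    rw [mul_sum]
    refine sum_le_sum fun j _ => ?_
    obtain ⟨p0, p1⟩ := g2_pow (2 * X1) n n' hn0 hnn' hn2 j
    have h2 : P.coeff j * (n' : ℤ) ^ j - P.coeff j * (n : ℤ) ^ j
        = P.coeff j * ((n' : ℤ) ^ j - (n : ℤ) ^ j) := by ring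
    rw [h2, abs_mul, abs_of_nonneg p0]
    calc 2 * (X1 : ℤ) * (|P.coeff j| * ((n' : ℤ) ^ j - (n : ℤ) ^ j))
        = |P.coeff j| * (2 * (X1 : ℤ) * ((n' : ℤ) ^ j - (n : ℤ) ^ j)) := by ring
      _ ≤ |P.coeff j| * (j * (2 * (X1 : ℤ)) ^ j * ((n' : ℤ) - n)) :=
          mul_le_mul_of_nonneg_left p1 (abs_nonneg _)
  have h2 : 1000 * ((A : ℤ) + 1) ^ 2 * ∑ j ∈ range (P.natDegree + 1),
      |P.coeff j| * (j * (2 * (X1 : ℤ)) ^ j * ((n' : ℤ) - n)) ≤ ((A : ℤ) + 1) ^ 2 * (((n' : ℤ) - n) * m) := by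
    rw [mul_sum]
    refine (sum_le_sum fun j hj => ?_).trans
      (b := ∑ j ∈ range (P.natDegree + 1), (A : ℤ) * (((n' : ℤ) - n) * m)) ?_
    · have hj1 : (j : ℤ) ≤ A := by
        have : j ≤ A := by
          have := mem_range.mp hj
          omega
        exact_mod_cast this
      have hj0 : (0 : ℤ) ≤ j := by positivity
      calc 1000 * ((A : ℤ) + 1) ^ 2 * (|P.coeff j| * (j * (2 * (X1 : ℤ)) ^ j * ((n' : ℤ) - n)))
          = j * (((n' : ℤ) - n) * (1000 * ((A : ℤ) + 1) ^ 2 * |P.coeff j| * (2 * (X1 : ℤ)) ^ j)) := by ring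
        _ ≤ j * (((n' : ℤ) - n) * m) :=
            mul_le_mul_of_nonneg_left (mul_le_mul_of_nonneg_left (hloz j) hdn) hj0
        _ ≤ A * (((n' : ℤ) - n) * m) :=
            mul_le_mul_of_nonneg_right hj1 (mul_nonneg hdn (by positivity))
    · rw [sum_const, card_range, nsmul_eq_mul, ← mul_assoc]
      refine mul_le_mul_of_nonneg_right ?_ (mul_nonneg hdn (by positivity))
      push_cast
      nlinarith
  set S := ∑ j ∈ range (P.natDegree + 1), |P.coeff j| * (j * (2 * (X1 : ℤ)) ^ j * ((n' : ℤ) - n)) with hS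
  have h3 : ((A : ℤ) + 1) ^ 2 * (1000 * S) ≤ ((A : ℤ) + 1) ^ 2 * (((n' : ℤ) - n) * m) := by
    calc ((A : ℤ) + 1) ^ 2 * (1000 * S) = 1000 * ((A : ℤ) + 1) ^ 2 * S := by ring
      _ ≤ _ := h2
  have h4 : 1000 * S ≤ ((n' : ℤ) - n) * m := le_of_mul_le_mul_left h3 (by positivity)
  have h5 : 0 ≤ (X1 : ℤ) * |P.eval (n' : ℤ) - P.eval (n : ℤ)| := mul_nonneg hX0 (abs_nonneg _)
  linarith

/-- Proof. Let `d = deg P_i`, `1 ≤ d ≤ A`, `a_j` the coefficients, `m = M i`; `GeoU.lo`: `1000 (A+1)² |a_j| (2 X1)^j ≤ m`. For `j = d` (`|a_d| ≥ 1`):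
`2 X1 ≤ (2 X1)^d ≤ m`. `|P(n)| ≤ ∑_(j ≤ d) |a_j| (2 X1)^j ≤ (A+1) m/(1000 (A+1)²)`. `P(n') - P(n) = ∑_j a_j (n'^j - n^j)`, `|n'^j - n^j| ≤ (n' - n) j (2 X1)^(j-1)`
(`g2_pow` in `H24P/G2.lean`, see `G2_one` there), so `X1 |P(n') - P(n)| ≤ (n' - n) ∑_j j |a_j| (2 X1)^j ≤ (n' - n) m`, multiply by `Q^8` and divide by `X1` (compare `G2_P`). -/
theorem U1_geo {k : ℕ} (A Q X X1 : ℕ) (P : Fin k → ℤ[X]) (M : Fin k → ℕ) (hP : Pol A P)
    (hG : GeoU A Q X X1 P M) : GeoV Q X X1 P M := by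
  refine ⟨hG.dvd, hG.pos, hG.le, hG.ge, hG.dvdM, fun i => ?_, hG.hi, fun i n hn => ?_,
    fun i n hn n' hn' hnn hQ => ?_⟩
  · have h1 := hG.lo i (P i).natDegree
    have hd := hP.deg i
    have h2 : 1 ≤ ((P i).coeff (P i).natDegree).natAbs := by
      refine Nat.one_le_iff_ne_zero.mpr fun h => ?_
      have h3 : (P i).leadingCoeff = 0 := Int.natAbs_eq_zero.mp h
      rw [leadingCoeff_eq_zero] at h3
      rw [h3, natDegree_zero] at hd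
      omega
    have h3 : 2 * X1 ≤ (2 * X1) ^ (P i).natDegree := le_self_pow₀ (by have := hG.pos; omega) (by omega)
    refine h3.trans (le_trans ?_ h1)
    refine Nat.le_mul_of_pos_left _ (Nat.mul_pos ?_ h2)
    positivity
  · exact u1_small A X1 (M i) n (P i) (hP.degA i) (hG.lo i) (mem_Ico.mp hn).2
  · have h1 := u1_slow A X1 (M i) n n' (P i) (hP.degA i) (hG.lo i) hnn (mem_Ico.mp hn').2
    have hXp : (0 : ℤ) < X1 := by exact_mod_cast hG.pos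
    have hQz : ((n' : ℤ) - n) * (Q : ℤ) ^ 8 ≤ X1 := by
      have h4 : (((n' - n) * Q ^ 8 : ℕ) : ℤ) ≤ X1 := by exact_mod_cast hQ
      push_cast [Nat.cast_sub hnn] at h4
      exact h4
    have h5 : (X1 : ℤ) * ((Q : ℤ) ^ 8 * |(P i).eval (n' : ℤ) - (P i).eval (n : ℤ)|) ≤ X1 * M i := by
      calc (X1 : ℤ) * ((Q : ℤ) ^ 8 * |(P i).eval (n' : ℤ) - (P i).eval (n : ℤ)|)
          = (Q : ℤ) ^ 8 * (X1 * |(P i).eval (n' : ℤ) - (P i).eval (n : ℤ)|) := by ring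
        _ ≤ (Q : ℤ) ^ 8 * (((n' : ℤ) - n) * M i) := mul_le_mul_of_nonneg_left h1 (by positivity)
        _ = (((n' : ℤ) - n) * (Q : ℤ) ^ 8) * M i := by ring
        _ ≤ X1 * M i := mul_le_mul_of_nonneg_right hQz (by positivity)
    exact le_of_mul_le_mul_left h5 hXp


end Pool.Agent.H9P
end

-- from Lib.H9P.U12
section

/-!
# ASYP, chunk U12 (S/M): from the weighted number to the number
-/

open Finset Polynomial

namespace Pool.Agent.H9P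

open Pool.Agent.Lib.H68T Pool.Agent.Lib.H18Q Pool.Agent.Lib.H59P Pool.Agent.Lib.H24P
open Pool.Agent.HUP

open Filter Topology in
theorem u12_theta (k : ℕ) (ε : ℝ) (hε : 0 < ε) :
    ∃ θ : ℝ, 0 < θ ∧ θ < 1 ∧ (1 + θ) ^ (k + 1) ≤ 1 + ε ∧ 1 ≤ (1 + ε) * (1 - θ) ^ (k + 1) := by
  have h1 : Tendsto (fun θ : ℝ => (1 + θ) ^ (k + 1)) (𝓝[>] 0) (𝓝 ((1 + 0) ^ (k + 1))) :=
    (by fun_prop : Continuous fun θ : ℝ => (1 + θ) ^ (k + 1)).continuousAt.tendsto.mono_left nhdsWithin_le_nhds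
  have h2 : Tendsto (fun θ : ℝ => (1 + ε) * (1 - θ) ^ (k + 1)) (𝓝[>] 0) (𝓝 ((1 + ε) * (1 - 0) ^ (k + 1))) :=
    (by fun_prop : Continuous fun θ : ℝ => (1 + ε) * (1 - θ) ^ (k + 1)).continuousAt.tendsto.mono_left
      nhdsWithin_le_nhds
  have h3 : Tendsto (fun θ : ℝ => θ) (𝓝[>] (0 : ℝ)) (𝓝 0) := nhdsWithin_le_nhds
  have e1 := h1.eventually_lt_const (u := 1 + ε) (by rw [add_zero, one_pow]; linarith)
  have e2 := h2.eventually_const_lt (u := 1) (by rw [sub_zero, one_pow]; linarith)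
  have e3 := h3.eventually_lt_const (u := 1) one_pos
  obtain ⟨θ, a, b, c, d⟩ := (e1.and (e2.and (e3.and self_mem_nhdsWithin))).exists
  exact ⟨θ, d, c, a.le, b.le⟩

open Filter Topology in
theorem u12_log (C θ : ℝ) (hθ : 0 < θ) : ∃ Z0 : ℕ, ∀ Z : ℕ, Z0 ≤ Z → 2 ≤ Z ∧ C ≤ θ * Real.log Z := by
  have h1 : Tendsto (fun Z : ℕ => θ * Real.log (Z : ℝ)) atTop atTop :=
    (Real.tendsto_log_atTop.comp tendsto_natCast_atTop_atTop).const_mul_atTop hθ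
  obtain ⟨Z0, h0⟩ := eventually_atTop.1 ((eventually_ge_atTop 2).and (h1.eventually_ge_atTop C))
  exact ⟨Z0, fun Z hZ => h0 Z hZ⟩

/-- the logarithm of a number between `δ Z^D` and `Cz Z^D` -/
theorem u12_one {δ Cz θ Z m : ℝ} {D : ℕ} (hδ : 0 < δ) (hCz : 1 ≤ Cz) (hZ : 1 < Z) (hθ : 0 < θ)
    (hD : 1 ≤ D) (hC : |Real.log δ| + |Real.log Cz| ≤ θ * Real.log Z) (h1 : δ * Z ^ D ≤ m) (h2 : m ≤ Cz * Z ^ D) :
    (1 - θ) * (D * Real.log Z) ≤ Real.log m ∧ Real.log m ≤ (1 + θ) * (D * Real.log Z) := by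
  have hZ0 : 0 < Z := by linarith
  have hZD : 0 < Z ^ D := pow_pos hZ0 D
  have hl : 0 < Real.log Z := Real.log_pos hZ
  have hm : 0 < m := lt_of_lt_of_le (mul_pos hδ hZD) h1
  have a1 := Real.log_le_log (mul_pos hδ hZD) h1
  have a2 := Real.log_le_log hm h2
  rw [Real.log_mul hδ.ne' hZD.ne', Real.log_pow] at a1
  rw [Real.log_mul (by linarith) hZD.ne', Real.log_pow] at a2
  have b1 := neg_abs_le (Real.log δ)
  have b2 := le_abs_self (Real.log Cz)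
  have b3 := abs_nonneg (Real.log δ)
  have b4 := abs_nonneg (Real.log Cz)
  have hD' : (1 : ℝ) ≤ D := by exact_mod_cast hD
  have c1 : θ * Real.log Z ≤ θ * (D * Real.log Z) := by
    refine mul_le_mul_of_nonneg_left ?_ hθ.le
    nlinarith
  constructor <;> nlinarith

/-- **U12.** Proof. `lp m` is `log m` if `m` is a (positive) prime, else `0` (look up the definition), so only the `n` counted in `cnt` contribute, each with
`∏_i log (φ_i n)`, where `log (φ_0 n) = log Z + O(1)`, `log (φ_(i+1) n) = D_i log Z + O(1)`, the `O(1)` at most `C = |log δ| + |log Cz|`. For `Z` large every factor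
`log(φ_(i+1) n)/(D_i log Z)` is between `1 - θ` and `1 + θ` with `(1 + θ)^(k+1) ≤ 1 + ε/4`, `(1 - θ)^(k+1) ≥ 1 - ε/4`. So every term is `L (1 ± ε/4)`,
`L = (∏ D_i) (log Z)^(k+1)`, `|cnt L - wct| ≤ (ε/4) cnt L` and `cnt L ≤ 2 wct`. -/
theorem U12_wt {k : ℕ} (D : Fin k → ℕ) (hD : ∀ i, 1 ≤ D i) (δ Cz ε : ℝ) (hδ : 0 < δ) (hCz : 1 ≤ Cz) (hε : 0 < ε) :
    ∃ Z0 : ℕ, ∀ Z : ℕ, Z0 ≤ Z → ∀ (φ : Fin (k + 1) → ℤ → ℤ) (n1 L : ℕ),
    (∀ n ∈ Ico n1 (n1 + L), (δ * Z ≤ φ 0 (n : ℤ) ∧ (φ 0 (n : ℤ) : ℝ) ≤ Cz * Z) ∧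
      ∀ i : Fin k, δ * (Z : ℝ) ^ D i ≤ φ i.succ (n : ℤ) ∧ (φ i.succ (n : ℤ) : ℝ) ≤ Cz * (Z : ℝ) ^ D i) →
    |(cnt φ n1 L : ℝ) * ((∏ i, (D i : ℝ)) * (Real.log Z) ^ (k + 1)) - wct φ n1 L| ≤ ε * wct φ n1 L := by
  obtain ⟨θ, hθ, hθ1, ht1, ht2⟩ := u12_theta k ε hε
  obtain ⟨Z0, h0⟩ := u12_log (|Real.log δ| + |Real.log Cz|) θ hθ
  refine ⟨Z0, fun Z hZ φ n1 L hφ => ?_⟩
  obtain ⟨hZ2, hC⟩ := h0 Z hZ
  have hZ1 : (1 : ℝ) < Z := by
    have : (2 : ℝ) ≤ Z := by exact_mod_cast hZ2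
    linarith
  have hl : 0 < Real.log Z := Real.log_pos hZ1
  set L0 : ℝ := (∏ i, (D i : ℝ)) * (Real.log Z) ^ (k + 1) with hL0
  set T := (Ico n1 (n1 + L)).filter (fun n : ℕ => ∀ i, (φ i (n : ℤ)).toNat.Prime) with hT
  have hL0n : 0 ≤ L0 := by positivity
  let A : Fin (k + 1) → ℝ := Fin.cons (Real.log Z) (fun i => (D i : ℝ) * Real.log Z)
  have hA0 : ∀ i, 0 ≤ A i := by
    intro i
    refine Fin.cases ?_ (fun i => ?_) i
    · exact hl.le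
    · exact mul_nonneg (Nat.cast_nonneg _) hl.le
  have hAp : ∏ i, A i = L0 := by
    rw [Fin.prod_univ_succ]
    show Real.log Z * ∏ i : Fin k, ((D i : ℝ) * Real.log Z) = L0
    rw [prod_mul_distrib, prod_const, card_univ, Fintype.card_fin, hL0]
    ring
  have hw : wct φ n1 L = ∑ n ∈ T, ∏ i, Real.log (φ i (n : ℤ)) := by
    unfold wct
    rw [hT, sum_filter]
    refine sum_congr rfl fun n _ => ?_
    split_ifs with h
    · refine prod_congr rfl fun i _ => ?_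
      unfold Pool.Agent.Lib.H68T.lp
      rw [if_pos (h i)]
    · push Not at h
      obtain ⟨i, hi⟩ := h
      refine prod_eq_zero (mem_univ i) ?_
      unfold Pool.Agent.Lib.H68T.lp
      rw [if_neg hi]
  have hc : (cnt φ n1 L : ℝ) = (T.card : ℝ) := rfl
  have hb : ∀ n ∈ T, (1 - θ) ^ (k + 1) * L0 ≤ ∏ i, Real.log (φ i (n : ℤ)) ∧
      ∏ i, Real.log (φ i (n : ℤ)) ≤ (1 + θ) ^ (k + 1) * L0 := by
    intro n hn
    have hn1 := (mem_filter.1 hn).1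
    obtain ⟨⟨f1, f2⟩, f3⟩ := hφ n hn1
    have hi : ∀ i, (1 - θ) * A i ≤ Real.log (φ i (n : ℤ)) ∧ Real.log (φ i (n : ℤ)) ≤ (1 + θ) * A i := by
      intro i
      refine Fin.cases ?_ (fun i => ?_) i
      · have h := u12_one (D := 1) hδ hCz hZ1 hθ le_rfl hC (m := (φ 0 (n : ℤ) : ℝ)) (by rw [pow_one]; exact f1)
          (by rw [pow_one]; exact f2)
        rw [Nat.cast_one, one_mul] at h
        exact h
      · exact u12_one (D := D i) hδ hCz hZ1 hθ (hD i) hC (f3 i).1 (f3 i).2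
    have e : ∀ r : ℝ, r ^ (k + 1) * L0 = ∏ i, (r * A i) := by
      intro r
      rw [prod_mul_distrib, prod_const, card_univ, Fintype.card_fin, hAp]
    constructor
    · rw [e]
      exact prod_le_prod (fun i _ => mul_nonneg (by linarith) (hA0 i)) fun i _ => (hi i).1
    · rw [e]
      exact prod_le_prod (fun i _ => le_trans (mul_nonneg (by linarith) (hA0 i)) (hi i).1) fun i _ => (hi i).2
  have hd : ∀ n ∈ T, |L0 - ∏ i, Real.log (φ i (n : ℤ))| ≤ ε * ∏ i, Real.log (φ i (n : ℤ)) := by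
    intro n hn
    obtain ⟨b1, b2⟩ := hb n hn
    set p := ∏ i, Real.log (φ i (n : ℤ)) with hp
    have hp0 : 0 ≤ p := le_trans (mul_nonneg (pow_nonneg (by linarith) _) hL0n) b1
    have c1 : L0 ≤ (1 + ε) * p := by
      calc L0 ≤ ((1 + ε) * (1 - θ) ^ (k + 1)) * L0 := le_mul_of_one_le_left hL0n ht2
        _ = (1 + ε) * ((1 - θ) ^ (k + 1) * L0) := by ring
        _ ≤ (1 + ε) * p := mul_le_mul_of_nonneg_left b1 (by linarith)
    have c2 : p ≤ (1 + ε) * L0 := le_trans b2 (mul_le_mul_of_nonneg_right ht1 hL0n)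
    rw [abs_le]
    constructor
    · rcases le_total p L0 with h | h
      · have : 0 ≤ ε * p := mul_nonneg hε.le hp0
        linarith
      · nlinarith
    · linarith
  rw [hw, hc, Finset.mul_sum]
  have e : (T.card : ℝ) * L0 - ∑ n ∈ T, ∏ i, Real.log (φ i (n : ℤ)) =
      ∑ n ∈ T, (L0 - ∏ i, Real.log (φ i (n : ℤ))) := by
    rw [sum_sub_distrib, sum_const, nsmul_eq_mul]
  rw [e]
  exact le_trans (abs_sum_le_sum_abs _ _) (sum_le_sum hd)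

end Pool.Agent.H9P
end

-- from Lib.H9P.U2
section

/-!
# ASYP, chunk U2 (M): `R2_main` with the geometry `GeoV`, uniformly in the polynomials
-/

open Finset Polynomial

namespace Pool.Agent.H9P

open Pool.Agent.Lib.H68T Pool.Agent.Lib.H18Q Pool.Agent.Lib.H59P Pool.Agent.Lib.H24P
open Pool.Agent.HUP

/-- **U2.** Copy of the proof of `R2_main` (`HUP/R2.lean`): `R2_cell` (unchanged) is uniform in `P`; `G2_P` and `Geo` are replaced by the fields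
`small`, `slow`, `dvd`, `pos`, `le`, `ge`, `dvdM` of `GeoV`. -/
theorem U2_main (k A E : ℕ) (hA : 1 ≤ A) (Cc cc : ℝ) (hC : FPar Cc cc) :
    ∃ c K : ℝ, 0 < c ∧ 1 ≤ K ∧ ∀ C : ℝ, ∃ Q0 : ℕ, ∀ P : Fin k → ℤ[X], Pol A P →
    ∀ (Q X X1 Y : ℕ) (M : Fin k → ℕ) (B : ℤ[X])
    (C0 : ℤ → Ch → ℂ) (mb : Ch → ℝ), Q0 ≤ Q → Rg K C Q X → GeoV Q X X1 P M → GeoB A X X1 Y B →
    Cf (Q ^ 100) Y C0 mb → ∀ (C' : Fin k → ℤ → Ch → ℂ) (mc : Fin k → Ch → ℝ),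
    (∀ i, Cf Q (Ysc (M i)) (C' i) (mc i)) →
    ∀ (ι : Type) (S : Finset ι) (g : ι → Fin k → ℕ) (h0 : Fin k → ℕ), Cl E Cc cc Q P M S g h0 →
    ∑ x ∈ S, ‖Rzb Q X1 P C' (fun n => ((lp (B.eval (n : ℤ)) : ℝ) : ℂ)) h0 (g x) -
      Rzb Q X1 P C' (fun n => ((Lk (Q ^ 100) (Y / (Q ^ 100) ^ 2) (B.eval (n : ℤ)) : ℝ) : ℂ)) h0 (g x)‖ ^ 2 ≤
      (X1 : ℝ) ^ 2 * S.card * (Q : ℝ) ^ (-c) := by
  classical
  obtain ⟨c, K, hc, hK, hcell⟩ := R2_cell k A E hA Cc cc hC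
  refine ⟨c, K, hc, hK, fun C => ?_⟩
  obtain ⟨Q0, hQ0⟩ := hcell C
  refine ⟨max Q0 1, ?_⟩
  intro P hP Q X X1 Y M B C0 mb hQ hRg hG hB hCf C' mc hCc ι S g h0 hCl
  have hQ0' : Q0 ≤ Q := (le_max_left _ _).trans hQ
  have hQ1 : 1 ≤ Q := (le_max_right _ _).trans hQ
  have hQ8 : 0 < Q ^ 8 := Nat.pow_pos hQ1
  set H : ℕ := X1 / Q ^ 8 with hH
  have hdX : Q ^ 8 ∣ X1 := (pow_dvd_pow Q (by norm_num)).trans hG.dvd
  have hXH : X1 = H * Q ^ 8 := (Nat.div_mul_cancel hdX).symm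
  have hHpos : 0 < H := by
    rcases Nat.eq_zero_or_pos H with h0 | h0
    · rw [h0, zero_mul] at hXH
      have := hG.pos
      omega
    · exact h0
  -- the difference
  set F : ι → ℕ → ℂ := fun x n => ((fB Q Y B n : ℝ) : ℂ) *
    ∏ i, SG Q (C' i ((P i).eval ((bs H n : ℕ) : ℤ) + (h0 i : ℤ))) ((P i).eval (n : ℤ) + g x i) with hF
  have hdiff : ∀ x : ι,
      Rzb Q X1 P C' (fun n => ((lp (B.eval (n : ℤ)) : ℝ) : ℂ)) h0 (g x) -
      Rzb Q X1 P C' (fun n => ((Lk (Q ^ 100) (Y / (Q ^ 100) ^ 2) (B.eval (n : ℤ)) : ℝ) : ℂ)) h0 (g x) =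
      ∑ n ∈ Ico X1 (2 * X1), F x n := by
    intro x
    unfold Rzb
    rw [← Finset.sum_sub_distrib]
    refine Finset.sum_congr rfl fun n _ => ?_
    rw [hF]
    simp only
    rw [← sub_mul]
    congr 1
    unfold fB
    push_cast
    ring
  rw [Finset.sum_congr rfl fun x _ => by rw [hdiff x]]
  -- one cell
  have hone : ∀ j < Q ^ 8, ∑ x ∈ S, ‖∑ n ∈ Ico (X1 + j * H) (X1 + j * H + H), F x n‖ ^ 2 ≤
      S.card * H ^ 2 * (Q : ℝ) ^ (-c) := by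
    intro j hj
    have hjH : (j + 1) * H ≤ X1 := by
      rw [hXH, mul_comm H]
      exact Nat.mul_le_mul_right H hj
    have hjH' : j * H + H ≤ X1 := by
      have : (j + 1) * H = j * H + H := by ring
      omega
    have haI : X1 + j * H ∈ Ico X1 (2 * X1) := by
      rw [mem_Ico]
      omega
    have hbsn : ∀ n ∈ Ico (X1 + j * H) (X1 + j * H + H), bs H n = X1 + j * H := by
      intro n hn
      have h1 := mem_Ico.1 hn
      have h2 : X1 + j * H = (Q ^ 8 + j) * H := by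
        conv_lhs => rw [hXH]
        ring
      rw [h2] at h1 ⊢
      exact z2_bs hHpos _ _ h1.1 h1.2
    set c' : Fin k → Ch → ℂ := fun i =>
      C' i ((P i).eval ((X1 + j * H : ℕ) : ℤ) + (h0 i : ℤ)) with hc'
    have hcell' := hQ0 Q X X1 Y B C0 mb hQ0' hRg hG.pos hG.le hG.ge hB hCf P hP c' ?_
      ι S g hCl.good (X1 + j * H) H (by omega) (by omega) hXH.le
    · refine (le_of_eq ?_).trans hcell'
      refine Finset.sum_congr rfl fun x _ => ?_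
      congr 2
      refine Finset.sum_congr rfl fun n hn => ?_
      rw [hF]
      simp only
      congr 1
      refine Finset.prod_congr rfl fun i _ => ?_
      rw [hc']
      simp only
      rw [hbsn n hn]
    · intro i
      have hx : h0 i ∈ Ico (M i) (2 * M i) := by
        have h1 := hCl.memb
        unfold cub at h1
        have h2 := mem_Ico.1 ((Fintype.mem_piFinset.1 h1) i)
        rw [mem_Ico]
        omega
      have hv := hG.small i (X1 + j * H) haI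
      have hd8 : 8 ∣ M i := (Dvd.intro _ rfl).trans (hG.dvdM i)
      have h5 := G2_val (M i) (h0 i) _ hd8 hv hx
      refine (Finset.sum_le_sum fun p hp => ?_).trans (hCc i).sum
      refine (hCc i).le _ h5.1 ?_ p hp
      have h6 : (0 : ℤ) ≤ Ysc (M i) := Nat.cast_nonneg _
      linarith [h5.2.1]
  -- all cells
  have h2X : 2 * X1 = X1 + Q ^ 8 * H := by
    have : Q ^ 8 * H = X1 := by rw [mul_comm]; exact hXH.symm
    omega
  calc ∑ x ∈ S, ‖∑ n ∈ Ico X1 (2 * X1), F x n‖ ^ 2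
      ≤ ∑ x ∈ S, ((Q ^ 8 : ℕ) : ℝ) * ∑ j ∈ range (Q ^ 8),
          ‖∑ n ∈ Ico (X1 + j * H) (X1 + j * H + H), F x n‖ ^ 2 := by
        refine Finset.sum_le_sum (fun x _ => ?_)
        rw [h2X, z2_cells]
        exact z2_cs _ _
    _ = ((Q ^ 8 : ℕ) : ℝ) * ∑ j ∈ range (Q ^ 8), ∑ x ∈ S,
          ‖∑ n ∈ Ico (X1 + j * H) (X1 + j * H + H), F x n‖ ^ 2 := by
        rw [← Finset.mul_sum, Finset.sum_comm]
    _ ≤ ((Q ^ 8 : ℕ) : ℝ) * ∑ j ∈ range (Q ^ 8), S.card * H ^ 2 * (Q : ℝ) ^ (-c) := by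
        refine mul_le_mul_of_nonneg_left ?_ (by positivity)
        exact Finset.sum_le_sum (fun j hj => hone j (mem_range.mp hj))
    _ = (X1 : ℝ) ^ 2 * S.card * (Q : ℝ) ^ (-c) := by
        rw [Finset.sum_const, card_range, nsmul_eq_mul]
        have h7 : (X1 : ℝ) = H * ((Q ^ 8 : ℕ) : ℝ) := by
          rw [← Nat.cast_mul]
          exact congrArg (Nat.cast : ℕ → ℝ) hXH
        rw [h7]
        ring

end Pool.Agent.H9P
end

-- from Lib.H9P.U3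
section

/-!
# ASYP, chunk U3 (M): `R9_main` with the geometry `GeoV`, uniformly in the polynomials
-/

open Finset Polynomial

namespace Pool.Agent.H9P

open Pool.Agent.Lib.H68T Pool.Agent.Lib.H18Q Pool.Agent.Lib.H59P Pool.Agent.Lib.H24P
open Pool.Agent.HUP

/-- **U3.** Copy of the proof of `R9_main` (`HUP/R9.lean`): `R7_cell`, `R8_main`, `r9_X`, `r9_cells` (unchanged) are uniform in `P`; `G2_P` and `Geo` are
replaced by the fields of `GeoV` (`small`). -/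
theorem U3_main (k A E : ℕ) (hA : 1 ≤ A) (Cc cc : ℝ) (hC : FPar Cc cc)
    (hT : TMb k A E Cc cc) : ∃ c K : ℝ, 0 < c ∧ 1 ≤ K ∧ ∀ C : ℝ, ∃ Q0 : ℕ, ∀ P : Fin k → ℤ[X], Pol A P →
    ∀ (Q X X1 Y : ℕ) (M : Fin k → ℕ) (B : ℤ[X]) (C0 : ℤ → Ch → ℂ) (mb : Ch → ℝ), Q0 ≤ Q →
    Rg K C Q X → GeoV Q X X1 P M → GeoB A X X1 Y B → Cf (Q ^ 100) Y C0 mb →
    ∀ (C' : Fin k → ℤ → Ch → ℂ) (mc : Fin k → Ch → ℝ), (∀ i, Cf Q (Ysc (M i)) (C' i) (mc i)) →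
    ∀ r : ℕ, 1 ≤ r → r ^ 100 ≤ Q →
    ∀ (ι : Type) (S : Finset ι) (g : ι → Fin k → ℕ) (h0 : Fin k → ℕ), Cl E Cc cc Q P M S g h0 →
    ∑ x ∈ S, ‖Rzb Q X1 P C' (gB Q X1 B C0) h0 (g x) -
      MZb Q X1 (B.leadingCoeff.natAbs * r) P B C0 C' h0 (g x)‖ ^ 2 ≤
      (X1 : ℝ) ^ 2 * S.card * (Q : ℝ) ^ (-c) := by
  classical
  obtain ⟨c1, hc1, Q1, hZA⟩ := R7_cell k A E hA Cc cc hC
  obtain ⟨c2, hc2, Q2, hZB⟩ := R8_main k A E Cc cc hT
  have hcm : 0 < min c1 c2 := lt_min hc1 hc2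
  obtain ⟨Q3, hQ3, hlog⟩ := G1_rlog 4 0 (min c1 c2 / 2) (by positivity)
  have hE0 : (0 : ℝ) ≤ E := Nat.cast_nonneg _
  refine ⟨min c1 c2 / 2, 1500 + (E : ℝ), by positivity, by linarith, fun C => ⟨max (max Q1 Q2) (max Q3 1), ?_⟩⟩
  intro P hP Q X X1 Y M B C0 mb hQ hRg hG hB hCf C' mc hCc r hr hr100 ι S g h0 hCl
  have hQ1' : Q1 ≤ Q := (le_max_left _ _).trans ((le_max_left _ _).trans hQ)
  have hQ2' : Q2 ≤ Q := (le_max_right _ _).trans ((le_max_left _ _).trans hQ)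
  have hQ3' : Q3 ≤ Q := (le_max_left _ _).trans ((le_max_right _ _).trans hQ)
  have hQ1 : 1 ≤ Q := (le_max_right _ _).trans ((le_max_right _ _).trans hQ)
  have hQr : (1 : ℝ) ≤ Q := by exact_mod_cast hQ1
  have hQr0 : (0 : ℝ) < Q := by linarith
  have hQ8 : 0 < Q ^ 8 := Nat.pow_pos hQ1
  have hQ800 : 0 < Q ^ 800 := Nat.pow_pos hQ1
  have hXpos : 0 < X := hG.pos.trans_le hG.le
  set H : ℕ := X1 / Q ^ 800 with hH
  have hXH : X1 = H * Q ^ 800 := (Nat.div_mul_cancel hG.dvd).symm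
  obtain ⟨hH600, hHE⟩ := r9_X (E := E) le_rfl hQ1 hRg hXpos hG.ge
  have hHpos : 0 < H := (Nat.pow_pos hQ1).trans_le hH600
  -- the difference
  set m0 : ℕ := B.leadingCoeff.natAbs * r with hm0
  set F : ι → ℕ → ℂ := fun x n => gB Q X1 B C0 n *
    ∏ i, SG Q (C' i ((P i).eval ((bs (X1 / Q ^ 8) n : ℕ) : ℤ) + (h0 i : ℤ))) ((P i).eval (n : ℤ) + g x i) -
    MDf Q m0 (cfb Q X1 P B C0 C' h0 n) (sys B P (g x)) with hF
  have hdiff : ∀ x : ι, Rzb Q X1 P C' (gB Q X1 B C0) h0 (g x) - MZb Q X1 m0 P B C0 C' h0 (g x) =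
      ∑ n ∈ Ico X1 (2 * X1), F x n := by
    intro x
    unfold Rzb MZb
    rw [← Finset.sum_sub_distrib]
  rw [Finset.sum_congr rfl fun x _ => by rw [hdiff x]]
  have hE := r9_cells S X1 H (Q ^ 800) hXH ((Q : ℝ) ^ (-(min c1 c2 / 2))) F ?_
  · refine hE.trans (le_of_eq ?_)
    ring
  intro j hj
  have hjH' : j * H + H ≤ X1 := by
    have h1 : (j + 1) * H ≤ Q ^ 800 * H := Nat.mul_le_mul_right H hj
    have h2 : (j + 1) * H = j * H + H := by ring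
    have h3 : Q ^ 800 * H = X1 := by rw [mul_comm]; exact hXH.symm
    omega
  have haI : X1 + j * H ∈ Ico X1 (2 * X1) := by
    rw [mem_Ico]
    omega
  -- the base points
  have hbsn : ∀ n ∈ Ico (X1 + j * H) (X1 + j * H + H), bs (X1 / Q ^ 800) n = X1 + j * H := by
    intro n hn
    have h1 := mem_Ico.1 hn
    have h2 : X1 + j * H = (Q ^ 800 + j) * H := by
      conv_lhs => rw [hXH]
      ring
    rw [h2] at h1 ⊢
    exact z2_bs hHpos _ _ h1.1 h1.2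
  have hdX8 : Q ^ 8 ∣ X1 := (pow_dvd_pow Q (by norm_num)).trans hG.dvd
  have hHc : X1 / Q ^ 8 = H * Q ^ 792 := by
    refine Nat.div_eq_of_eq_mul_left hQ8 ?_
    rw [mul_assoc, ← pow_add]
    exact hXH
  have hHcX : X1 / Q ^ 8 ∣ X1 := Nat.div_dvd_of_dvd hdX8
  have hHcpos : 0 < X1 / Q ^ 8 := by
    rw [hHc]
    exact Nat.mul_pos hHpos (Nat.pow_pos hQ1)
  have hbsc : ∀ n ∈ Ico (X1 + j * H) (X1 + j * H + H),
      bs (X1 / Q ^ 8) n = bs (X1 / Q ^ 8) (X1 + j * H) := fun n hn =>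
    E1_fine hHpos (Nat.pow_pos hQ1) hHc hHcX hn
  -- the base point of the long cell is in the range
  have hbI : bs (X1 / Q ^ 8) (X1 + j * H) ∈ Ico X1 (2 * X1) := by
    have h1 : bs (X1 / Q ^ 8) (X1 + j * H) ≤ X1 + j * H := by
      unfold bs
      exact Nat.div_mul_le_self _ _
    have h2 : X1 ≤ bs (X1 / Q ^ 8) (X1 + j * H) := by
      unfold bs
      calc X1 = X1 / (X1 / Q ^ 8) * (X1 / Q ^ 8) := (Nat.div_mul_cancel hHcX).symm
        _ ≤ _ := Nat.mul_le_mul_right _ (Nat.div_le_div_right (by omega))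
    have h3 := (mem_Ico.1 haI).2
    rw [mem_Ico]
    omega
  set c0 : Ch → ℂ := C0 (B.eval ((X1 + j * H : ℕ) : ℤ)) with hc0
  set c' : Fin k → Ch → ℂ := fun i =>
    C' i ((P i).eval ((bs (X1 / Q ^ 8) (X1 + j * H) : ℕ) : ℤ) + (h0 i : ℤ)) with hc'
  have hcfz : ∀ n ∈ Ico (X1 + j * H) (X1 + j * H + H),
      cfb Q X1 P B C0 C' h0 n = (Fin.cons c0 c' : Fin (k + 1) → Ch → ℂ) := by
    intro n hn
    unfold cfb
    rw [hbsn n hn, hbsc n hn]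
  -- sizes
  have hsz0 : ∑ p ∈ PC (Q ^ 100), ‖c0 p‖ ≤ 3 := by
    refine (Finset.sum_le_sum fun p hp => ?_).trans hCf.sum
    have h1 := hB.lo _ haI
    have h2 := hB.hi _ haI
    exact hCf.le _ h1 (by linarith) p hp
  have hsz : ∀ i, ∑ p ∈ PC Q, ‖c' i p‖ ≤ 3 := by
    intro i
    have hx : h0 i ∈ Ico (M i) (2 * M i) := by
      have h1 := hCl.memb
      unfold cub at h1
      have h2 := mem_Ico.1 (Fintype.mem_piFinset.1 h1 i)
      rw [mem_Ico]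
      omega
    have hv := hG.small i _ hbI
    have hd8 : 8 ∣ M i := (Dvd.intro _ rfl).trans (hG.dvdM i)
    have h5 := G2_val (M i) (h0 i) _ hd8 hv hx
    refine (Finset.sum_le_sum fun p hp => ?_).trans (hCc i).sum
    refine (hCc i).le _ h5.1 ?_ p hp
    have h6 : (0 : ℤ) ≤ Ysc (M i) := Nat.cast_nonneg _
    linarith [h5.2.1]
  have hsz' : ∀ i : Fin (k + 1), ∑ p ∈ PC Q, ‖(Fin.cons c0 c' : Fin (k + 1) → Ch → ℂ) i p‖ ≤ 3 := by
    intro i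
    refine Fin.cases ?_ (fun i => ?_) i
    · rw [Fin.cons_zero]
      exact (Finset.sum_le_sum_of_subset_of_nonneg (z2f_PC hQ1) fun _ _ _ => norm_nonneg _).trans hsz0
    · rw [Fin.cons_succ]
      exact hsz i
  have hA1 := hZA Q hQ1' B hB.lin P hP r hr hr100 c0 hsz0 c' hsz ι S g hCl.good
    (X1 + j * H) H hH600 hHE
  have hB1 := hZB Q hQ2' B hB.lin P hP r hr hr100 (Fin.cons c0 c') hsz' ι S g hCl.good
  rw [← hm0] at hA1 hB1
  have hv0 : (0 : ℝ) ≤ S.card := Nat.cast_nonneg _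
  have hsplit : ∀ x ∈ S,
      ‖∑ n ∈ Ico (X1 + j * H) (X1 + j * H + H), F x n‖ ^ 2 ≤
      2 * ‖∑ n ∈ Ico (X1 + j * H) (X1 + j * H + H), SG (Q ^ 100) c0 (B.eval (n : ℤ)) *
        ∏ i, SG Q (c' i) ((P i).eval (n : ℤ) + g x i) -
        H * MCf Q m0 (Fin.cons c0 c' : Fin (k + 1) → Ch → ℂ) (sys B P (g x))‖ ^ 2 +
      2 * ((H : ℝ) ^ 2 * ‖MCf Q m0 (Fin.cons c0 c' : Fin (k + 1) → Ch → ℂ) (sys B P (g x)) -
        MDf Q m0 (Fin.cons c0 c' : Fin (k + 1) → Ch → ℂ) (sys B P (g x))‖ ^ 2) := by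
    intro x hx
    have h1 : ∑ n ∈ Ico (X1 + j * H) (X1 + j * H + H), F x n =
        (∑ n ∈ Ico (X1 + j * H) (X1 + j * H + H), SG (Q ^ 100) c0 (B.eval (n : ℤ)) *
        ∏ i, SG Q (c' i) ((P i).eval (n : ℤ) + g x i) -
        H * MCf Q m0 (Fin.cons c0 c' : Fin (k + 1) → Ch → ℂ) (sys B P (g x))) +
        H * (MCf Q m0 (Fin.cons c0 c' : Fin (k + 1) → Ch → ℂ) (sys B P (g x)) -
        MDf Q m0 (Fin.cons c0 c' : Fin (k + 1) → Ch → ℂ) (sys B P (g x))) := by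
      have h2 : ∑ n ∈ Ico (X1 + j * H) (X1 + j * H + H), F x n =
          ∑ n ∈ Ico (X1 + j * H) (X1 + j * H + H), (SG (Q ^ 100) c0 (B.eval (n : ℤ)) *
          ∏ i, SG Q (c' i) ((P i).eval (n : ℤ) + g x i) -
          MDf Q m0 (Fin.cons c0 c' : Fin (k + 1) → Ch → ℂ) (sys B P (g x))) := by
        refine Finset.sum_congr rfl fun n hn => ?_
        rw [hF]
        simp only
        rw [hcfz n hn]
        unfold gB
        rw [hbsn n hn, hbsc n hn]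
      rw [h2, Finset.sum_sub_distrib, Finset.sum_const, Nat.card_Ico, nsmul_eq_mul]
      have h3 : X1 + j * H + H - (X1 + j * H) = H := by omega
      rw [h3]
      ring
    rw [h1]
    generalize (∑ n ∈ Ico (X1 + j * H) (X1 + j * H + H), SG (Q ^ 100) c0 (B.eval (n : ℤ)) *
        ∏ i, SG Q (c' i) ((P i).eval (n : ℤ) + g x i) -
        H * MCf Q m0 (Fin.cons c0 c' : Fin (k + 1) → Ch → ℂ) (sys B P (g x))) = x
    generalize (MCf Q m0 (Fin.cons c0 c' : Fin (k + 1) → Ch → ℂ) (sys B P (g _)) -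
        MDf Q m0 (Fin.cons c0 c' : Fin (k + 1) → Ch → ℂ) (sys B P (g _))) = y
    have h4 : ‖x + H * y‖ ≤ ‖x‖ + H * ‖y‖ := by
      refine (norm_add_le _ _).trans (le_of_eq ?_)
      rw [norm_mul, Complex.norm_natCast]
    have h5 : ‖x + H * y‖ ^ 2 ≤ (‖x‖ + H * ‖y‖) ^ 2 := pow_le_pow_left₀ (norm_nonneg _) h4 2
    nlinarith [sq_nonneg (‖x‖ - H * ‖y‖)]
  have hpow : 2 * (Q : ℝ) ^ (-c1) + 2 * (Q : ℝ) ^ (-c2) ≤ (Q : ℝ) ^ (-(min c1 c2 / 2)) := by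
    have h1 : (Q : ℝ) ^ (-c1) ≤ (Q : ℝ) ^ (-(min c1 c2)) :=
      Real.rpow_le_rpow_of_exponent_le hQr (by linarith [min_le_left c1 c2])
    have h2 : (Q : ℝ) ^ (-c2) ≤ (Q : ℝ) ^ (-(min c1 c2)) :=
      Real.rpow_le_rpow_of_exponent_le hQr (by linarith [min_le_right c1 c2])
    have h3 : (Q : ℝ) ^ (-(min c1 c2 / 2)) = (Q : ℝ) ^ (min c1 c2 / 2) * (Q : ℝ) ^ (-(min c1 c2)) := by
      rw [← Real.rpow_add hQr0]
      congr 1
      ring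
    have h4 := hlog Q hQ3'
    rw [Real.rpow_zero, mul_one] at h4
    have h5 : 0 ≤ (Q : ℝ) ^ (-(min c1 c2)) := Real.rpow_nonneg hQr0.le _
    rw [h3]
    nlinarith [mul_le_mul_of_nonneg_right h4 h5]
  calc ∑ x ∈ S,
        ‖∑ n ∈ Ico (X1 + j * H) (X1 + j * H + H), F x n‖ ^ 2
      ≤ ∑ x ∈ S,
      (2 * ‖∑ n ∈ Ico (X1 + j * H) (X1 + j * H + H), SG (Q ^ 100) c0 (B.eval (n : ℤ)) *
        ∏ i, SG Q (c' i) ((P i).eval (n : ℤ) + g x i) -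
        H * MCf Q m0 (Fin.cons c0 c' : Fin (k + 1) → Ch → ℂ) (sys B P (g x))‖ ^ 2 +
      2 * ((H : ℝ) ^ 2 * ‖MCf Q m0 (Fin.cons c0 c' : Fin (k + 1) → Ch → ℂ) (sys B P (g x)) -
        MDf Q m0 (Fin.cons c0 c' : Fin (k + 1) → Ch → ℂ) (sys B P (g x))‖ ^ 2)) :=
        Finset.sum_le_sum hsplit
    _ ≤ 2 * (S.card * H ^ 2 * (Q : ℝ) ^ (-c1)) + 2 * ((H : ℝ) ^ 2 * (S.card * (Q : ℝ) ^ (-c2))) := by
        rw [Finset.sum_add_distrib, ← Finset.mul_sum, ← Finset.mul_sum, ← Finset.mul_sum]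
        gcongr
    _ = S.card * H ^ 2 * (2 * (Q : ℝ) ^ (-c1) + 2 * (Q : ℝ) ^ (-c2)) := by ring
    _ ≤ S.card * H ^ 2 * (Q : ℝ) ^ (-(min c1 c2 / 2)) :=
        mul_le_mul_of_nonneg_left hpow (mul_nonneg hv0 (sq_nonneg _))

end Pool.Agent.H9P
end

-- from Lib.H9P.U6
section

/-!
# ASYP, chunk U6 (M): the mean square of the difference between the model and the main term of a cell
-/

open Finset Polynomial

namespace Pool.Agent.H9P

open Pool.Agent.Lib.H68T Pool.Agent.Lib.H18Q Pool.Agent.Lib.H59P Pool.Agent.Lib.H24P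
open Pool.Agent.HUP

/-- **U6.** Copy of `R16_ms` (`HUP/R16.lean`) with `U4_main`, `U2_main`, `U5_main`, `U3_main` instead of `R13_main`, `R2_main`, `R14_main`, `R9_main`. -/
theorem U6_ms (k A E : ℕ) (hA : 1 ≤ A) (Cc cc : ℝ) (hC : FPar Cc cc) :
    ∃ c K : ℝ, 0 < c ∧ 1 ≤ K ∧ ∀ C : ℝ, ∃ Q0 : ℕ, ∀ P : Fin k → ℤ[X], Pol A P →
    ∀ (Q X X1 Y : ℕ) (M : Fin k → ℕ) (B : ℤ[X]) (C0 : ℤ → Ch → ℂ) (mb : Ch → ℝ), Q0 ≤ Q →
    Rg K C Q X → GeoV Q X X1 P M → GeoB A X X1 Y B → Cf (Q ^ 100) Y C0 mb →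
    ∀ (C' : Fin k → ℤ → Ch → ℂ) (mc : Fin k → Ch → ℝ), (∀ i, Cf Q (Ysc (M i)) (C' i) (mc i)) →
    ∀ r : ℕ, 1 ≤ r → r ^ 100 ≤ Q →
    ∀ (ι : Type) (S : Finset ι) (g : ι → Fin k → ℕ) (h0 : Fin k → ℕ), Cl E Cc cc Q P M S g h0 →
    ∑ x ∈ S, ‖((Rw Q X1 P M (fun n => lp (B.eval (n : ℤ))) (g x) : ℝ) : ℂ) -
      MZb Q X1 (B.leadingCoeff.natAbs * r) P B C0 C' h0 (g x)‖ ^ 2 ≤
      (X1 : ℝ) ^ 2 * S.card * (Q : ℝ) ^ (-c) := by
  have hT : TMb k A E Cc cc := R6_main k A E hA Cc cc hC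
  obtain ⟨K2, hK2, hW2⟩ := W2_ms A
  obtain ⟨c4, K4, hc4, hK4, hW3⟩ := U2_main k A E hA Cc cc hC
  obtain ⟨c6, K6, hc6, hK6, hZ2⟩ := U3_main k A E hA Cc cc hC hT
  set cm : ℝ := min 1 (min c4 c6) with hcm
  have hcm0 : 0 < cm := lt_min one_pos (lt_min hc4 hc6)
  have hcm2 : cm ≤ 1 := min_le_left _ _
  have hcm4 : cm ≤ c4 := (min_le_right _ _).trans (min_le_left _ _)
  have hcm6 : cm ≤ c6 := (min_le_right _ _).trans (min_le_right _ _)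
  obtain ⟨Q7, hQ7, hlog⟩ := G1_rlog 20 0 (cm / 2) (by positivity)
  refine ⟨cm / 2, max (max 2 K2) (max K4 K6), by positivity,
    le_max_of_le_left (le_max_of_le_left (by norm_num)), fun C => ?_⟩
  obtain ⟨Q2, hW2⟩ := hW2 C
  obtain ⟨Q3, hV1⟩ := U4_main k A C
  obtain ⟨Q4, hW3⟩ := hW3 C
  obtain ⟨Q5, hV2⟩ := U5_main k A C
  obtain ⟨Q6, hZ2⟩ := hZ2 C
  refine ⟨max (max (max Q2 Q3) (max Q4 Q5)) (max Q6 (max Q7 1)), ?_⟩
  intro P hP Q X X1 Y M B C0 mb hQ hRg hG hB hCf C' mc hCc r hr hr100 ι S g h0 hCl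
  have hQ' := max_le_iff.1 hQ
  have hQa := max_le_iff.1 hQ'.1
  have hQb := max_le_iff.1 hQ'.2
  have q2 : Q2 ≤ Q := (max_le_iff.1 hQa.1).1
  have q3 : Q3 ≤ Q := (max_le_iff.1 hQa.1).2
  have q4 : Q4 ≤ Q := (max_le_iff.1 hQa.2).1
  have q5 : Q5 ≤ Q := (max_le_iff.1 hQa.2).2
  have q6 : Q6 ≤ Q := hQb.1
  have q7 : Q7 ≤ Q := (max_le_iff.1 hQb.2).1
  have q8 : 1 ≤ Q := (max_le_iff.1 hQb.2).2
  have hQr : (1 : ℝ) ≤ Q := by exact_mod_cast q8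
  have hQr0 : (0 : ℝ) < Q := by linarith
  have rtwo : Rg 2 C Q X := z4_rg (le_max_of_le_left (le_max_left _ _)) hRg
  have r2 : Rg K2 C Q X := z4_rg (le_max_of_le_left (le_max_right _ _)) hRg
  have r4 : Rg K4 C Q X := z4_rg (le_max_of_le_right (le_max_left _ _)) hRg
  have r6 : Rg K6 C Q X := z4_rg (le_max_of_le_right (le_max_right _ _)) hRg
  have hw : ∀ n ∈ Ico X1 (2 * X1), |lp (B.eval (n : ℤ))| ≤ (Real.log X) ^ 2 :=
    (hW2 Q X X1 Y B C0 mb q2 r2 hG.pos hG.le hG.ge hB hCf X1 X1 le_rfl (by omega)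
      (Nat.le_mul_of_pos_right _ (Nat.pow_pos q8))).2
  have e2 := hV1 P hP Q X X1 M q3 rtwo hG C' mc hCc (fun n => lp (B.eval (n : ℤ))) hw h0 hCl.memb
  have e3 := hW3 P hP Q X X1 Y M B C0 mb q4 r4 hG hB hCf C' mc hCc ι S g h0 hCl
  have e4 := hV2 P hP Q X X1 Y M B C0 mb q5 rtwo hG hB hCf C' mc hCc h0 hCl.memb
  have e5 := hZ2 P hP Q X X1 Y M B C0 mb q6 r6 hG hB hCf C' mc hCc r hr hr100 ι S g h0 hCl
  set m0 : ℕ := B.leadingCoeff.natAbs * r with hm0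
  set V : ℝ := (X1 : ℝ) ^ 2 * S.card with hV
  have hV0 : 0 ≤ V := by positivity
  set D : ℝ := ((X1 : ℝ) * (Q : ℝ) ^ (-(1) : ℝ)) ^ 2 with hD
  have hpt : ∀ x ∈ S, ‖((Rw Q X1 P M (fun n => lp (B.eval (n : ℤ))) (g x) : ℝ) : ℂ) -
      MZb Q X1 m0 P B C0 C' h0 (g x)‖ ^ 2 ≤
      5 * (2 * D +
      ‖Rzb Q X1 P C' (fun n => ((lp (B.eval (n : ℤ)) : ℝ) : ℂ)) h0 (g x) -
        Rzb Q X1 P C' (fun n => ((Lk (Q ^ 100) (Y / (Q ^ 100) ^ 2) (B.eval (n : ℤ)) : ℝ) : ℂ)) h0 (g x)‖ ^ 2 +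
      ‖Rzb Q X1 P C' (gB Q X1 B C0) h0 (g x) - MZb Q X1 m0 P B C0 C' h0 (g x)‖ ^ 2) := by
    intro x hx
    have a1 := e2 (g x) (hCl.mem x hx) (hCl.close x hx)
    have a2 := e4 (g x) (hCl.mem x hx)
    have b1 : ‖((Rw Q X1 P M (fun n => lp (B.eval (n : ℤ))) (g x) : ℝ) : ℂ) -
        Rzb Q X1 P C' (fun n => ((lp (B.eval (n : ℤ)) : ℝ) : ℂ)) h0 (g x)‖ ^ 2 ≤ D :=
      pow_le_pow_left₀ (norm_nonneg _) a1 2
    have b2 : ‖Rzb Q X1 P C' (fun n => ((Lk (Q ^ 100) (Y / (Q ^ 100) ^ 2) (B.eval (n : ℤ)) : ℝ) : ℂ)) h0 (g x) -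
        Rzb Q X1 P C' (gB Q X1 B C0) h0 (g x)‖ ^ 2 ≤ D :=
      pow_le_pow_left₀ (norm_nonneg _) a2 2
    have h5 := z4_five (((Rw Q X1 P M (fun n => lp (B.eval (n : ℤ))) (g x) : ℝ) : ℂ) -
        Rzb Q X1 P C' (fun n => ((lp (B.eval (n : ℤ)) : ℝ) : ℂ)) h0 (g x))
      (Rzb Q X1 P C' (fun n => ((lp (B.eval (n : ℤ)) : ℝ) : ℂ)) h0 (g x) -
        Rzb Q X1 P C' (fun n => ((Lk (Q ^ 100) (Y / (Q ^ 100) ^ 2) (B.eval (n : ℤ)) : ℝ) : ℂ)) h0 (g x))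
      (Rzb Q X1 P C' (fun n => ((Lk (Q ^ 100) (Y / (Q ^ 100) ^ 2) (B.eval (n : ℤ)) : ℝ) : ℂ)) h0 (g x) -
        Rzb Q X1 P C' (gB Q X1 B C0) h0 (g x))
      (Rzb Q X1 P C' (gB Q X1 B C0) h0 (g x) - MZb Q X1 m0 P B C0 C' h0 (g x)) 0
    have h6 : ((Rw Q X1 P M (fun n => lp (B.eval (n : ℤ))) (g x) : ℝ) : ℂ) -
        MZb Q X1 m0 P B C0 C' h0 (g x) = (((Rw Q X1 P M (fun n => lp (B.eval (n : ℤ))) (g x) : ℝ) : ℂ) -
        Rzb Q X1 P C' (fun n => ((lp (B.eval (n : ℤ)) : ℝ) : ℂ)) h0 (g x)) +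
      (Rzb Q X1 P C' (fun n => ((lp (B.eval (n : ℤ)) : ℝ) : ℂ)) h0 (g x) -
        Rzb Q X1 P C' (fun n => ((Lk (Q ^ 100) (Y / (Q ^ 100) ^ 2) (B.eval (n : ℤ)) : ℝ) : ℂ)) h0 (g x)) +
      (Rzb Q X1 P C' (fun n => ((Lk (Q ^ 100) (Y / (Q ^ 100) ^ 2) (B.eval (n : ℤ)) : ℝ) : ℂ)) h0 (g x) -
        Rzb Q X1 P C' (gB Q X1 B C0) h0 (g x)) +
      (Rzb Q X1 P C' (gB Q X1 B C0) h0 (g x) - MZb Q X1 m0 P B C0 C' h0 (g x)) + 0 := by ring
    rw [h6]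
    refine h5.trans ?_
    rw [norm_zero]
    linarith
  refine (Finset.sum_le_sum hpt).trans ?_
  rw [← Finset.mul_sum, Finset.sum_add_distrib, Finset.sum_add_distrib, Finset.sum_const, nsmul_eq_mul]
  have hle : ∀ c' : ℝ, cm ≤ c' → V * (Q : ℝ) ^ (-c') ≤ V * (Q : ℝ) ^ (-cm) := by
    intro c' hc'
    exact mul_le_mul_of_nonneg_left (Real.rpow_le_rpow_of_exponent_le hQr (by linarith)) hV0
  have f3 := e3.trans (hle _ hcm4)
  have f5 := e5.trans (hle _ hcm6)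
  have hDV : (S.card : ℝ) * (2 * D) = 2 * (V * (Q : ℝ) ^ (-(2 : ℝ))) := by
    have h3 : (Q : ℝ) ^ (-(2 : ℝ)) = ((Q : ℝ) ^ (-(1) : ℝ)) ^ 2 := by
      rw [← Real.rpow_natCast ((Q : ℝ) ^ (-(1) : ℝ)), ← Real.rpow_mul hQr0.le]
      norm_num
    rw [hD, hV, h3]
    ring
  have f2 : (S.card : ℝ) * (2 * D) ≤ 2 * (V * (Q : ℝ) ^ (-cm)) := by
    rw [hDV]
    exact mul_le_mul_of_nonneg_left (hle 2 (by linarith)) (by norm_num)
  have hfin : 20 * (V * (Q : ℝ) ^ (-cm)) ≤ V * (Q : ℝ) ^ (-(cm / 2)) := by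
    have h3 : (Q : ℝ) ^ (-(cm / 2)) = (Q : ℝ) ^ (cm / 2) * (Q : ℝ) ^ (-cm) := by
      rw [← Real.rpow_add hQr0]
      congr 1
      ring
    have h4 := hlog Q q7
    rw [Real.rpow_zero, mul_one] at h4
    have h5 : 0 ≤ V * (Q : ℝ) ^ (-cm) := mul_nonneg hV0 (Real.rpow_nonneg hQr0.le _)
    rw [h3]
    nlinarith [mul_le_mul_of_nonneg_right h4 h5]
  linarith

end Pool.Agent.H9P
end

-- from Lib.H9P.U7
section

/-!
# ASYP, chunk U7 (M): the main term of a cell without exceptional character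
-/

open Finset Polynomial

namespace Pool.Agent.H9P

open Pool.Agent.Lib.H68T Pool.Agent.Lib.H18Q Pool.Agent.Lib.H59P Pool.Agent.Lib.H24P
open Pool.Agent.HUP

/-- Copy of `N2_pt` (`H9A/N2.lean`) for the set `TSf k Q D1 m0` (the tuple `(p0, …, p0)` has the modulus `m0 ≤ D1`). -/
theorem U7_pt {k : ℕ} (Q D1 m0 : ℕ) (hQ : 1 ≤ Q) (hm : m0 ≤ D1) (E0 : ℝ)
    (e : Fin k → Ch → ℂ) (he : ∀ i, ∑ p ∈ PC Q, ‖e i p‖ ≤ E0) (m : Fin k → ℤ) :
    ‖∑ p ∈ TSf k Q D1 m0, ∏ i, ((MX p0 (fun _ => 0) 0 (p i) + e i (p i)) * cj (p i) (m i)) - 1‖ ≤ (1 + E0) ^ k - 1 := by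
  classical
  have hp0 : p0 ∈ PC Q := Pool.Agent.Lib.H68T.p0_mem hQ
  obtain ⟨a, ha⟩ : ∃ a : Ch → ℂ, a = fun p => if p = p0 then 1 else 0 := ⟨_, rfl⟩
  obtain ⟨b, hb⟩ : ∃ b : Fin k → Ch → ℂ, b = fun i p => e i p * cj p (m i) := ⟨_, rfl⟩
  have ha1 : a p0 = 1 := by rw [ha]; exact if_pos rfl
  have ha0 : ∀ p, p ≠ p0 → a p = 0 := fun p hp => by rw [ha]; exact if_neg hp
  have e1 : ∀ p : Fin k → Ch, ∏ i, ((MX p0 (fun _ => 0) 0 (p i) + e i (p i)) * cj (p i) (m i)) = ∏ i, (a (p i) + b i (p i)) := by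
    intro p
    refine Finset.prod_congr rfl fun i _ => ?_
    rw [Pool.Agent.H9A.n2_MX, add_mul, hb]
    by_cases h : p i = p0
    · rw [if_pos h, h, ha1, one_mul]
      change cj p0 (m i) + e i p0 * cj p0 (m i) = 1 + e i p0 * cj p0 (m i)
      rw [Pool.Agent.Lib.H59P.c3_cj_p0]
    · rw [if_neg h, zero_mul, ha0 _ h]
  have hc : (fun _ => p0 : Fin k → Ch) ∈ TSf k Q D1 m0 := by
    unfold TSf
    rw [Finset.mem_filter]
    refine ⟨Fintype.mem_piFinset.2 fun _ => hp0, ?_⟩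
    have h1 : (univ.lcm fun _ : Fin k => p0.1) = 1 :=
      Nat.dvd_one.1 (Finset.lcm_dvd fun i _ => one_dvd _)
    show m0.lcm (univ.lcm fun _ : Fin k => p0.1) ≤ D1
    rw [h1, Nat.lcm_one_right]
    exact hm
  have hne : ∀ p : Fin k → Ch, p ≠ (fun _ => p0) → ∏ i, a (p i) = 0 := by
    intro p hp
    have h1 : ∃ i, p i ≠ p0 := by
      by_contra hcon
      push Not at hcon
      exact hp (funext hcon)
    obtain ⟨i, hi⟩ := h1
    exact Finset.prod_eq_zero (Finset.mem_univ i) (ha0 _ hi)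
  have hsum : ∑ p ∈ TSf k Q D1 m0, ∏ i, a (p i) = 1 := by
    rw [Finset.sum_eq_single (fun _ => p0 : Fin k → Ch) (fun p _ hp => hne p hp) (fun h => absurd hc h)]
    simp only [ha1, Finset.prod_const_one]
  have hdiff : ∑ p ∈ TSf k Q D1 m0, ∏ i, ((MX p0 (fun _ => 0) 0 (p i) + e i (p i)) * cj (p i) (m i)) - 1 =
      ∑ p ∈ TSf k Q D1 m0, (∏ i, (a (p i) + b i (p i)) - ∏ i, a (p i)) := by
    rw [Finset.sum_sub_distrib, hsum]
    simp only [e1]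
  have hnn : ∀ p : Fin k → Ch, 0 ≤ ∏ i, (‖a (p i)‖ + ‖b i (p i)‖) - ∏ i, ‖a (p i)‖ := fun p =>
    (norm_nonneg _).trans (Pool.Agent.H9A.n2_prod Finset.univ (fun i => a (p i)) (fun i => b i (p i)))
  have hall : ∑ p ∈ Fintype.piFinset (fun _ : Fin k => PC Q), (∏ i, (‖a (p i)‖ + ‖b i (p i)‖) - ∏ i, ‖a (p i)‖) =
      ∏ i : Fin k, ∑ q ∈ PC Q, (‖a q‖ + ‖b i q‖) - ∏ _i : Fin k, ∑ q ∈ PC Q, ‖a q‖ := by
    rw [Finset.sum_sub_distrib, Finset.prod_univ_sum, Finset.prod_univ_sum]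
  have hsa : ∑ q ∈ PC Q, ‖a q‖ = 1 := by
    rw [Finset.sum_eq_single p0 (fun q _ hq => by rw [ha0 q hq, norm_zero]) (fun h => absurd hp0 h), ha1, norm_one]
  have hsb : ∀ i, ∑ q ∈ PC Q, ‖b i q‖ ≤ E0 := by
    intro i
    refine (Finset.sum_le_sum fun q _ => ?_).trans (he i)
    rw [hb, norm_mul]
    exact mul_le_of_le_one_right (norm_nonneg _) (Pool.Agent.Lib.H59P.c3_cj_norm q (m i))
  rw [hdiff]
  refine (norm_sum_le _ _).trans ?_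
  refine (Finset.sum_le_sum fun p _ => Pool.Agent.H9A.n2_prod Finset.univ (fun i => a (p i)) (fun i => b i (p i))).trans ?_
  have hsub : TSf k Q D1 m0 ⊆ Fintype.piFinset (fun _ : Fin k => PC Q) := by
    intro p hp
    unfold TSf at hp
    exact (Finset.mem_filter.mp hp).1
  refine (Finset.sum_le_sum_of_subset_of_nonneg hsub fun p _ _ => hnn p).trans ?_
  rw [hall, hsa, Finset.prod_const_one]
  refine sub_le_sub_right ?_ 1
  have h3 : ∏ i : Fin k, ∑ q ∈ PC Q, (‖a q‖ + ‖b i q‖) ≤ ∏ _i : Fin k, (1 + E0) := by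
    refine Finset.prod_le_prod (fun i _ => Finset.sum_nonneg fun q _ => add_nonneg (norm_nonneg _) (norm_nonneg _)) fun i _ => ?_
    rw [Finset.sum_add_distrib, hsa]
    exact add_le_add le_rfl (hsb i)
  refine h3.trans (le_of_eq ?_)
  rw [Finset.prod_const, Finset.card_univ, Fintype.card_fin]

/-- Proof. `MDf = ∑_p (∏ c_i(p_i)) MQf Q p φ`, `MQf` is the mean over `n < Q!` of `Phf p (pr Q) (at' φ n) = ∏_i (cj (p_i) (φ_i n) uu (pr Q) (φ_i n))`; so `MDf` is the mean of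
`∏_i uu (pr Q) (φ_i n) ≥ 0` times the sum in `U7_pt`, and `SSf (pr Q) φ` is the mean of `∏_i uu (pr Q) (φ_i n)` (`P3_SS`). Compare `N2_cell` (second half). -/
theorem U7_cell {k : ℕ} (Q m0 : ℕ) (hQ : 1 ≤ Q) (hcond : m0 ≤ fl Q (1 / 16)) (φ : Fin k → ℤ → ℤ) (hφ : Cp φ)
    (E0 : ℝ) (e c : Fin k → Ch → ℂ) (he : ∀ i, ∑ p ∈ PC Q, ‖e i p‖ ≤ E0)
    (hc : ∀ i p, c i p = MX p0 (fun _ => 0) 0 p + e i p) :
    ‖MDf Q m0 c φ - ((SSf (pr Q) φ : ℝ) : ℂ)‖ ≤ ((1 + E0) ^ k - 1) * SSf (pr Q) φ := by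
  classical
  have hQ0 : (0 : ℝ) < (Q.factorial : ℝ) := by exact_mod_cast Nat.factorial_pos Q
  have hU : ∀ n : ℤ, 0 ≤ ∏ i : Fin k, uu (pr Q) (φ i n) := fun n =>
    Finset.prod_nonneg fun i _ => Pool.Agent.Lib.H59P.M3a_uu_nonneg _ (Pool.Agent.Lib.H59P.c3_pr Q) _
  have h1 : MDf Q m0 c φ =
      (∑ n ∈ range Q.factorial, ((∏ i : Fin k, uu (pr Q) (φ i (n : ℤ)) : ℝ) : ℂ) *
        ∑ p ∈ TSf k Q (fl Q (1 / 16)) m0, ∏ i, ((MX p0 (fun _ => 0) 0 (p i) + e i (p i)) * cj (p i) (φ i (n : ℤ)))) /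
        ((Q.factorial : ℝ) : ℂ) := by
    unfold MDf MQf
    rw [Finset.sum_div]
    simp only [Finset.mul_sum, Finset.sum_div, mul_div_assoc']
    rw [Finset.sum_comm]
    refine Finset.sum_congr rfl fun n _ => ?_
    refine Finset.sum_congr rfl fun p _ => ?_
    unfold Phf at'
    simp only [hc]
    rw [Finset.prod_mul_distrib, Finset.prod_mul_distrib, Complex.ofReal_prod]
    push_cast
    ring
  rw [h1, ← P3_SS φ hφ Q]
  rw [Complex.ofReal_div, ← sub_div, norm_div, Complex.norm_real, Real.norm_eq_abs, abs_of_pos hQ0, mul_div_assoc']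
  refine div_le_div_of_nonneg_right ?_ hQ0.le
  rw [Complex.ofReal_sum, ← Finset.sum_sub_distrib, Finset.mul_sum]
  refine (norm_sum_le _ _).trans (Finset.sum_le_sum fun n _ => ?_)
  have e2 : ∀ U V : ℂ, U * V - U = U * (V - 1) := fun U V => by ring
  rw [e2, norm_mul, Complex.norm_real, Real.norm_eq_abs, abs_of_nonneg (hU n)]
  have hpt := U7_pt Q (fl Q (1 / 16)) m0 hQ hcond E0 e he (fun i => φ i (n : ℤ))
  refine (mul_le_mul_of_nonneg_left hpt (hU n)).trans (le_of_eq ?_)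
  ring

/-- **U7.** Proof. As `R15_main` (`HUP/R15.lean`, port of `Z3_main`) with `U7_cell` (`k + 1` coordinates, `φ = sys B P h`, `Cp` by `P2_sys`) for every `n ∈ [X1, 2 X1)`
and the triangle inequality; `MX p0 (fun _ => 0) m p = MX p0 (fun _ => 0) 0 p`; `GeoV.small` instead of `hP8`. -/
theorem U7_main {k : ℕ} (P : Fin k → ℤ[X]) (A Q X X1 Y : ℕ) (hQ : 1 ≤ Q) (M : Fin k → ℕ) (B : ℤ[X])
    (hG : GeoV Q X X1 P M) (hGB : GeoB A X X1 Y B) (hcond : B.leadingCoeff.natAbs ≤ fl Q (1 / 16)) (E0 : ℝ)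
    (e0 : ℤ → Ch → ℂ) (eb0 : Ch → ℝ) (heb0 : ∀ p ∈ PC (Q ^ 100), 0 ≤ eb0 p)
    (hs0 : ∑ p ∈ PC (Q ^ 100), eb0 p ≤ E0)
    (he0 : ∀ m : ℤ, (Y : ℤ) ≤ m → m ≤ 4 * Y → ∀ p ∈ PC (Q ^ 100), ‖e0 m p‖ ≤ eb0 p)
    (e : Fin k → ℤ → Ch → ℂ) (eb : Fin k → Ch → ℝ) (hs : ∀ i, ∑ p ∈ PC Q, eb i p ≤ E0)
    (he : ∀ i, ∀ m : ℤ, (Ysc (M i) : ℤ) ≤ m → m ≤ 4 * Ysc (M i) → ∀ p ∈ PC Q, ‖e i m p‖ ≤ eb i p)
    (h0 : Fin k → ℕ) (hh0 : h0 ∈ cub M M) (h : Fin k → ℕ) :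
    ‖MZb Q X1 (B.leadingCoeff.natAbs * 1) P B (fun m p => MX p0 (fun _ => 0) m p + e0 m p)
      (fun i m p => MX p0 (fun _ => 0) m p + e i m p) h0 h - ((X1 * SSf (pr Q) (sys B P h) : ℝ) : ℂ)‖ ≤
      X1 * (((1 + E0) ^ (k + 1) - 1) * SSf (pr Q) (sys B P h)) := by
  have hX1 : 0 < X1 := hG.pos
  have hQ8 : Q ^ 8 ∣ X1 := (pow_dvd_pow Q (by norm_num)).trans hG.dvd
  have hbs : ∀ (D N n : ℕ), D ∣ N → 0 < N → n ∈ Ico N (2 * N) → bs (N / D) n ∈ Ico N (2 * N) := by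
    intro D N n hD hN hn
    rw [mem_Ico] at hn ⊢
    obtain ⟨q, rfl⟩ := hD
    have hD0 : 0 < D := Nat.pos_of_ne_zero (by rintro rfl; simp at hN)
    have hq0 : 0 < q := Nat.pos_of_ne_zero (by rintro rfl; simp at hN)
    rw [Nat.mul_div_cancel_left q hD0]
    unfold bs
    constructor
    · have h1 : D ≤ n / q := by
        rw [Nat.le_div_iff_mul_le hq0]
        exact hn.1
      exact Nat.mul_le_mul_right q h1
    · exact lt_of_le_of_lt (Nat.div_mul_le_self n q) hn.2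
  have hh' : ∀ i, h0 i ∈ Ico (M i) (2 * M i) := by
    intro i
    have h1 := Fintype.mem_piFinset.1 hh0 i
    rw [mem_Ico] at h1 ⊢
    omega
  have hY : ∀ n ∈ Ico X1 (2 * X1), (Y : ℤ) ≤ B.eval ((bs (X1 / Q ^ 800) n : ℕ) : ℤ) ∧
      B.eval ((bs (X1 / Q ^ 800) n : ℕ) : ℤ) ≤ 4 * Y := by
    intro n hn
    have h1 := hbs _ X1 n hG.dvd hX1 hn
    have h2 := hGB.lo _ h1
    have h3 := hGB.hi _ h1
    exact ⟨h2, by linarith⟩
  have hYi : ∀ n ∈ Ico X1 (2 * X1), ∀ i, (Ysc (M i) : ℤ) ≤ (P i).eval ((bs (X1 / Q ^ 8) n : ℕ) : ℤ) + (h0 i : ℤ) ∧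
      (P i).eval ((bs (X1 / Q ^ 8) n : ℕ) : ℤ) + (h0 i : ℤ) ≤ 4 * Ysc (M i) := by
    intro n hn i
    have h1 := hbs _ X1 n hQ8 hX1 hn
    obtain ⟨h3, h4, -⟩ := G2_val (M i) _ _ ((Dvd.intro _ rfl : 8 ∣ 8 * Q ^ 8).trans (hG.dvdM i))
      (hG.small i _ h1) (hh' i)
    constructor
    · exact h3
    · have h5 : (0 : ℤ) ≤ Ysc (M i) := by positivity
      linarith
  have hsub : PC Q ⊆ PC (Q ^ 100) := by
    intro p hp
    rw [mem_PC] at hp ⊢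
    exact ⟨hp.1, hp.2.1.trans (Nat.le_self_pow (by norm_num) Q), hp.2.2⟩
  have hcell : ∀ n ∈ Ico X1 (2 * X1), ‖MDf Q (B.leadingCoeff.natAbs * 1)
      (cfb Q X1 P B (fun m p => MX p0 (fun _ => 0) m p + e0 m p) (fun i m p => MX p0 (fun _ => 0) m p + e i m p) h0 n)
      (sys B P h) - ((SSf (pr Q) (sys B P h) : ℝ) : ℂ)‖ ≤ ((1 + E0) ^ (k + 1) - 1) * SSf (pr Q) (sys B P h) := by
    intro n hn
    refine U7_cell (k := k + 1) Q (B.leadingCoeff.natAbs * 1) hQ (by rw [mul_one]; exact hcond) (sys B P h)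
      (P2_sys B P h) E0
      (Fin.cons (e0 (B.eval ((bs (X1 / Q ^ 800) n : ℕ) : ℤ)))
        (fun i => e i ((P i).eval ((bs (X1 / Q ^ 8) n : ℕ) : ℤ) + (h0 i : ℤ)))) _ ?_ ?_
    · intro i
      refine Fin.cases ?_ (fun i => ?_) i
      · simp only [Fin.cons_zero]
        refine (Finset.sum_le_sum fun p hp => he0 _ (hY n hn).1 (hY n hn).2 p (hsub hp)).trans ?_
        exact (Finset.sum_le_sum_of_subset_of_nonneg hsub fun p hp _ => heb0 p hp).trans hs0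
      · simp only [Fin.cons_succ]
        exact (Finset.sum_le_sum fun p hp => he i _ (hYi n hn i).1 (hYi n hn i).2 p hp).trans (hs i)
    · intro i
      refine Fin.cases ?_ (fun i => ?_) i
      · intro p
        rfl
      · intro p
        rfl
  unfold MZb
  have h1 := Finset.sum_le_sum hcell
  rw [Finset.sum_const, Nat.card_Ico, nsmul_eq_mul] at h1
  have h2 : 2 * X1 - X1 = X1 := by omega
  rw [h2] at h1
  have h3 : ((X1 * SSf (pr Q) (sys B P h) : ℝ) : ℂ) = ∑ n ∈ Ico X1 (2 * X1), ((SSf (pr Q) (sys B P h) : ℝ) : ℂ) := by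
    rw [Finset.sum_const, Nat.card_Ico, h2, nsmul_eq_mul]
    push_cast
    rfl
  rw [h3, ← Finset.sum_sub_distrib]
  exact (norm_sum_le _ _).trans h1

end Pool.Agent.H9P
end

-- from Lib.H9P.U9
section

/-!
# ASYP, chunk U9 (M/L): one box of parameters, one cell of `n`
-/

open Finset Polynomial

namespace Pool.Agent.H9P

open Pool.Agent.Lib.H68T Pool.Agent.Lib.H18Q Pool.Agent.Lib.H59P Pool.Agent.Lib.H24P
open Pool.Agent.HUP

theorem u9_mem {k d : ℕ} (c : Fin k → Fin d → ℤ) (β : Fin k → ℤ) (M : Fin k → ℕ) (t : Fin d → ℤ)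
    (h : ∀ i, 151 * (M i : ℤ) ≤ 100 * (β i + lf c t i) ∧ 100 * (β i + lf c t i) < 168 * (M i : ℤ)) :
    hh c β t ∈ cub M M ∧ (∀ i, 0 ≤ β i + lf c t i) ∧ ∀ i, ((hh c β t i : ℕ) : ℤ) = β i + lf c t i := by
  have h0 : ∀ i, 0 ≤ β i + lf c t i := fun i => by
    have h1 := h i
    have h2 : (0 : ℤ) ≤ M i := Nat.cast_nonneg _
    omega
  have h1 : ∀ i, ((hh c β t i : ℕ) : ℤ) = β i + lf c t i := fun i => by
    unfold hh
    exact Int.toNat_of_nonneg (h0 i)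
  refine ⟨?_, h0, h1⟩
  unfold cub
  rw [Fintype.mem_piFinset]
  intro i
  rw [mem_Ico]
  have h2 := h i
  have h3 := h1 i
  omega

theorem u9_three {Q : ℕ} (hQ : 1 ≤ Q) (a1 a2 a3 cf : ℝ) (h1 : 2 * cf ≤ a1) (h2 : 2 * cf ≤ a2) (h3 : 2 * cf ≤ a3)
    (h : (3 : ℝ) ≤ (Q : ℝ) ^ cf) : (Q : ℝ) ^ (-a1) + (Q : ℝ) ^ (-a2) + (Q : ℝ) ^ (-a3) ≤ (Q : ℝ) ^ (-cf) := by
  have hQ1 : (1 : ℝ) ≤ Q := by exact_mod_cast hQ
  have hQ0 : (0 : ℝ) < Q := by linarith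
  have hx : ∀ x : ℝ, 2 * cf ≤ x → (Q : ℝ) ^ (-x) ≤ (Q : ℝ) ^ (-cf) / 3 := by
    intro x hx
    have g1 : (Q : ℝ) ^ (-x) ≤ (Q : ℝ) ^ (-cf + -cf) :=
      Real.rpow_le_rpow_of_exponent_le hQ1 (by linarith)
    have g2 : (Q : ℝ) ^ (-cf + -cf) = (Q : ℝ) ^ (-cf) * (Q : ℝ) ^ (-cf) := Real.rpow_add hQ0 _ _
    have g3 : (Q : ℝ) ^ (-cf) ≤ 1 / 3 := by
      rw [Real.rpow_neg hQ0.le, ← one_div]
      exact one_div_le_one_div_of_le (by norm_num) h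
    have g4 : 0 < (Q : ℝ) ^ (-cf) := Real.rpow_pos_of_pos hQ0 _
    nlinarith
  have e1 := hx a1 h1
  have e2 := hx a2 h2
  have e3 := hx a3 h3
  linarith

/-- Chebyshev's inequality with powers of `Q`. -/
theorem u9_cheb {ι : Type*} (S : Finset ι) (f : ι → ℝ) (X1 Q : ℕ) (hX : 0 < X1) (hQ : 0 < Q) (c : ℝ)
    (hf : ∀ x, 0 ≤ f x) (h : ∑ x ∈ S, f x ^ 2 ≤ (X1 : ℝ) ^ 2 * S.card * (Q : ℝ) ^ (-c)) :
    (((S.filter fun x => (X1 : ℝ) * (Q : ℝ) ^ (-(c / 4)) < f x).card : ℕ) : ℝ) ≤ S.card * (Q : ℝ) ^ (-(c / 2)) := by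
  have hX1r : (0 : ℝ) < X1 := by exact_mod_cast hX
  have hQr : (0 : ℝ) < Q := by exact_mod_cast hQ
  have hTpos : 0 < (X1 : ℝ) * (Q : ℝ) ^ (-(c / 4)) := mul_pos hX1r (Real.rpow_pos_of_pos hQr _)
  refine (k1_cheb S f _ _ hTpos h hf).trans (le_of_eq ?_)
  have h1 : ((X1 : ℝ) * (Q : ℝ) ^ (-(c / 4))) ^ 2 = (X1 : ℝ) ^ 2 * (Q : ℝ) ^ (-(c / 2)) := by
    rw [mul_pow, ← Real.rpow_natCast ((Q : ℝ) ^ (-(c / 4))), ← Real.rpow_mul hQr.le]
    congr 2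
    push_cast
    ring
  have h2 : (Q : ℝ) ^ (-c) = (Q : ℝ) ^ (-(c / 2)) * (Q : ℝ) ^ (-(c / 2)) := by
    rw [← Real.rpow_add hQr]
    congr 1
    ring
  have h3 : (0 : ℝ) < (Q : ℝ) ^ (-(c / 2)) := Real.rpow_pos_of_pos hQr _
  rw [h1, h2]
  field_simp

/-- **U9a.** A cell `S' = tb b' s'` (small box). Proof. `CF0` (`H59P/CF0.lean`) for the models `Mdl (Q^100) Y 1 E0 p0 0` and `Mdl Q (Ysc (M i)) 1 E0 p0 0` gives `e0, eb0, mb` and
`e i, eb i, mb i`; `U6_ms` with `r = 1`; `U7_main` pointwise (`B.leadingCoeff.natAbs ≤ A ≤ fl Q (1/16)`, `G1_size` in `H24P/G1.lean` with `r = 1`); `k1_cheb` (`H24P/K1.lean`) with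
`T = X1 Q^(-c1)`, `c1 = c/4`. -/
theorem U9_cell (k A E : ℕ) (hA : 1 ≤ A) (Cc cc : ℝ) (hC : FPar Cc cc) :
    ∃ c1 K : ℝ, 0 < c1 ∧ 1 ≤ K ∧ ∀ C E0 : ℝ, 0 ≤ E0 → E0 ≤ 1 → ∃ Q0 : ℕ, ∀ P : Fin k → ℤ[X], Pol A P →
    ∀ (Q X X1 Y : ℕ) (M : Fin k → ℕ) (B : ℤ[X]), Q0 ≤ Q →
    Rg K C Q X → GeoV Q X X1 P M → GeoB A X X1 Y B → Mdl (Q ^ 100) Y 1 E0 p0 (fun _ => 0) →
    (∀ i, Mdl Q (Ysc (M i)) 1 E0 p0 (fun _ => 0)) →
    ∀ (ι : Type) (S : Finset ι) (g : ι → Fin k → ℕ) (h0 : Fin k → ℕ), Cl E Cc cc Q P M S g h0 →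
    ((S.filter (fun x => X1 * (((1 + E0) ^ (k + 1) - 1) * SSf (pr Q) (sys B P (g x)) + (Q : ℝ) ^ (-c1)) <
      |Rw Q X1 P M (fun n => lp (B.eval (n : ℤ))) (g x) - X1 * SSf (pr Q) (sys B P (g x))|)).card : ℝ) ≤
      S.card * (Q : ℝ) ^ (-c1) := by
  obtain ⟨c, K, hc, hK, hms⟩ := U6_ms k A E hA Cc cc hC
  obtain ⟨Q1, hQ1, hsize⟩ := G1_size A
  refine ⟨c / 4, K, by positivity, hK, fun C E0 hE0 hE1 => ?_⟩
  obtain ⟨Q0, hms⟩ := hms C
  refine ⟨max Q0 Q1, ?_⟩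
  intro P hP Q X X1 Y M B hQ hRg hG hB hMB hM ι S g h0 hCl
  have q0 : Q0 ≤ Q := (le_max_left _ _).trans hQ
  have q1 : Q1 ≤ Q := (le_max_right _ _).trans hQ
  have q2 : 1 ≤ Q := hQ1.trans q1
  have hQr : (1 : ℝ) ≤ Q := by exact_mod_cast q2
  have hQr0 : (0 : ℝ) < Q := by linarith
  have hQ100 : 1 ≤ Q ^ 100 := Nat.one_le_pow _ _ q2
  obtain ⟨e0, eb0, mb0, a1, a2, a3, a4⟩ := CF0 (Q ^ 100) Y 1 E0 p0 (fun _ => 0) hQ100 hMB hE1
  choose e eb mb b1 b2 b3 b4 using fun i => CF0 Q (Ysc (M i)) 1 E0 p0 (fun _ => 0) q2 (hM i) hE1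
  have hms' := hms P hP Q X X1 Y M B (fun m p => MX p0 (fun _ => 0) m p + e0 m p) mb0 q0 hRg
    hG hB a4 (fun i m p => MX p0 (fun _ => 0) m p + e i m p) mb b4 1 le_rfl
    (by rw [one_pow]; exact q2) ι S g h0 hCl
  have hX1r : (0 : ℝ) < X1 := by exact_mod_cast hG.pos
  have hch := u9_cheb S (fun x => ‖((Rw Q X1 P M (fun n => lp (B.eval (n : ℤ))) (g x) : ℝ) : ℂ) -
    MZb Q X1 (B.leadingCoeff.natAbs * 1) P B (fun m p => MX p0 (fun _ => 0) m p + e0 m p)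
      (fun i m p => MX p0 (fun _ => 0) m p + e i m p) h0 (g x)‖) X1 Q hG.pos q2 c (fun _ => norm_nonneg _) hms'
  have hlc0 : 1 ≤ B.leadingCoeff.natAbs := by
    have h2 : B.leadingCoeff ≠ 0 := by
      rw [Ne, leadingCoeff_eq_zero]
      intro h3
      have h4 := hB.lin.deg
      rw [h3, natDegree_zero] at h4
      omega
    exact Int.natAbs_pos.2 h2
  have hcond := (hsize Q q1 1 B.leadingCoeff.natAbs hlc0 hB.lin.lc (by rw [one_pow]; exact q2)).1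
  rw [mul_one] at hcond
  have hsub : (S.filter (fun x => X1 * (((1 + E0) ^ (k + 1) - 1) * SSf (pr Q) (sys B P (g x)) + (Q : ℝ) ^ (-(c / 4))) <
      |Rw Q X1 P M (fun n => lp (B.eval (n : ℤ))) (g x) - X1 * SSf (pr Q) (sys B P (g x))|)) ⊆
      S.filter (fun x => (X1 : ℝ) * (Q : ℝ) ^ (-(c / 4)) < ‖((Rw Q X1 P M (fun n => lp (B.eval (n : ℤ))) (g x) : ℝ) : ℂ) -
        MZb Q X1 (B.leadingCoeff.natAbs * 1) P B (fun m p => MX p0 (fun _ => 0) m p + e0 m p)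
          (fun i m p => MX p0 (fun _ => 0) m p + e i m p) h0 (g x)‖) := by
    intro x hx
    rw [mem_filter] at hx ⊢
    refine ⟨hx.1, ?_⟩
    have h7 := U7_main P A Q X X1 Y q2 M B hG hB hcond E0 e0 eb0 a1 (by rw [one_mul] at a2; exact a2) a3 e eb
      (fun i => by have := b2 i; rw [one_mul] at this; exact this) b3 h0 hCl.memb (g x)
    have h8 : |Rw Q X1 P M (fun n => lp (B.eval (n : ℤ))) (g x) - X1 * SSf (pr Q) (sys B P (g x))| =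
        ‖((Rw Q X1 P M (fun n => lp (B.eval (n : ℤ))) (g x) : ℝ) : ℂ) -
          ((X1 * SSf (pr Q) (sys B P (g x)) : ℝ) : ℂ)‖ := by
      rw [← Complex.ofReal_sub, Complex.norm_real, Real.norm_eq_abs]
    have h9 := norm_sub_le_norm_sub_add_norm_sub ((Rw Q X1 P M (fun n => lp (B.eval (n : ℤ))) (g x) : ℝ) : ℂ)
      (MZb Q X1 (B.leadingCoeff.natAbs * 1) P B (fun m p => MX p0 (fun _ => 0) m p + e0 m p)
          (fun i m p => MX p0 (fun _ => 0) m p + e i m p) h0 (g x)) ((X1 * SSf (pr Q) (sys B P (g x)) : ℝ) : ℂ)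
    have h10 := hx.2
    rw [h8] at h10
    have h11 : (X1 : ℝ) * (((1 + E0) ^ (k + 1) - 1) * SSf (pr Q) (sys B P (g x)) + (Q : ℝ) ^ (-(c / 4))) =
      X1 * (((1 + E0) ^ (k + 1) - 1) * SSf (pr Q) (sys B P (g x))) + X1 * (Q : ℝ) ^ (-(c / 4)) := by ring
    rw [h11] at h10
    linarith
  have hcard : (((S.filter (fun x => X1 * (((1 + E0) ^ (k + 1) - 1) * SSf (pr Q) (sys B P (g x)) + (Q : ℝ) ^ (-(c / 4))) <
      |Rw Q X1 P M (fun n => lp (B.eval (n : ℤ))) (g x) - X1 * SSf (pr Q) (sys B P (g x))|)).card : ℕ) : ℝ) ≤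
      _ := Nat.cast_le.2 (card_le_card hsub)
  refine hcard.trans (hch.trans ?_)
  exact mul_le_mul_of_nonneg_left (Real.rpow_le_rpow_of_exponent_le hQr (by linarith)) (Nat.cast_nonneg _)

/-- **U9** (compare `R19_box`, `HUP/R19.lean`). Proof. `FGTU` gives `E, Cc, cc`; `U9_cell` gives `c2, K1`; `S4TU` for `A` gives `K2`; `K = K1 + K2 + 2E + 20`. For `C`: `S4TU` gives `τ, c0`
(replace `τ` by `min τ (1/10)`). `Pol A P` from `HasD` and `hDA`. (i) `S4TU` with `w n = lp (B n)` (`0 ≤ lp (B n) ≤ log(3 A X) ≤ (log X)^2`; its hypothesis on `Cf` from `CF0`), and Chebyshev (`k1_cheb`):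
at most `card Q^(-c0/2)` of the `t` have `|RPh - Rw| > X1 Q^(-c0/4)` (`RPh X1 B P h = ∑ lp(B n) ∏ lp(P_i n + h_i)` by definition). (ii) `s_j = Q^10 s'_j`; `R18_split` into the boxes `S' = tb b' s'`;
on `S'` (if not empty) `Cl E Cc cc Q P M S' (hh c β) (hh c β b')`: `good` by `FGTU` with `Qm = Q^2` (`s'_j ≥ Q^(2E)` from `X^(e_j) ≤ Q^τ s_j`, `e_j ≥ 1`, `X ≥ Q^K`), `mem`, `memb` from
`151 M ≤ 100 h < 168 M`, `close` from `R18_var` and `∑_j |c_ij| s_j ≤ Q M_i`. `U9_cell` on `S'` (`GeoV` by `U1_geo`). Choose `c1 < min(c2, c0/4)` with `X1 Q^(-c2) + X1 Q^(-c0/4) ≤ X1 Q^(-c1)` and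
`Q^(-c2) + Q^(-c0/2) ≤ Q^(-c1)`. -/
theorem U9_box {k d : ℕ} (c : Fin k → Fin d → ℤ) (e : Fin d → ℕ) (D : Fin k → ℕ) (a : Fin k → ℤ)
    (hF : FGTU c D a) (hS : S4TU c e D a) (he : ∀ j, 1 ≤ e j) (hD : ∀ i, 1 ≤ D i) (A : ℕ) (hA : 1 ≤ A)
    (hDA : ∀ i, D i ≤ A ∧ (a i).natAbs ≤ A) : ∃ K : ℝ, 1 ≤ K ∧ ∀ C E0 : ℝ, 0 ≤ E0 → E0 ≤ 1 →
    ∃ τ c1 : ℝ, 0 < τ ∧ τ ≤ 1 / 10 ∧ 0 < c1 ∧ ∃ Q0 : ℕ, ∀ P : Fin k → ℤ[X], HasD D a P →
    ∀ (Q X X1 Y : ℕ) (M : Fin k → ℕ) (B : ℤ[X]) (b : Fin d → ℤ) (s : Fin d → ℕ) (β : Fin k → ℤ), Q0 ≤ Q →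
    Rg K C Q X → GeoU A Q X X1 P M → GeoB A X X1 Y B → (X : ℝ) ≤ X1 * (Q : ℝ) ^ τ →
    (∀ i, (M i : ℝ) ≤ (X1 : ℝ) ^ (P i).natDegree * (Q : ℝ) ^ τ) →
    (∀ j, (X : ℝ) ^ e j ≤ (Q : ℝ) ^ τ * s j) → (∀ j, (s j : ℝ) ≤ (Q : ℝ) ^ τ * (X : ℝ) ^ e j) →
    (∀ j, Q ^ 10 ∣ s j) → (∀ i, ∑ j, |c i j| * (s j : ℤ) ≤ Q * (M i : ℤ)) →
    Mdl (Q ^ 100) Y 1 E0 p0 (fun _ => 0) → (∀ i, Mdl Q (Ysc (M i)) 1 E0 p0 (fun _ => 0)) →
    (∀ t ∈ tb b s, ∀ i, 151 * (M i : ℤ) ≤ 100 * (β i + lf c t i) ∧ 100 * (β i + lf c t i) < 168 * (M i : ℤ)) →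
    (((tb b s).filter (fun t => X1 * (((1 + E0) ^ (k + 1) - 1) * SSf (pr Q) (sys B P (hh c β t)) + (Q : ℝ) ^ (-c1)) <
      |RPh X1 B P (hh c β t) - X1 * SSf (pr Q) (sys B P (hh c β t))|)).card : ℝ) ≤
      (tb b s).card * (Q : ℝ) ^ (-c1) := by
  classical
  obtain ⟨E, Cc, cc, hFP, hFG⟩ := hF
  obtain ⟨c2, K1, hc2, hK1, hcell⟩ := U9_cell k A E hA Cc cc hFP
  obtain ⟨K2, hK2, hS4⟩ := hS A (fun i => (hDA i).1)
  obtain ⟨K4, hK4, hW2⟩ := W2_ms A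
  obtain ⟨K0, hK0⟩ : ∃ K0 : ℝ, K0 = K1 + K2 + K4 + 20 + 2 * E := ⟨_, rfl⟩
  have hEn : (0 : ℝ) ≤ E := Nat.cast_nonneg _
  have hK0a : K1 ≤ K0 := by rw [hK0]; linarith
  have hK0b : K2 ≤ K0 := by rw [hK0]; linarith
  have hK0d : K4 ≤ K0 := by rw [hK0]; linarith
  have hK0g : 2 * (E : ℝ) + 20 ≤ K0 := by rw [hK0]; linarith
  refine ⟨K0, by linarith, fun C E0 hE0 hE01 => ?_⟩
  obtain ⟨Q1, hcell'⟩ := hcell C E0 hE0 hE01
  obtain ⟨τ1, c0, hτ1, hτ11, hc0, Q2, hS4'⟩ := hS4 C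
  obtain ⟨Q3, hW2'⟩ := hW2 C
  obtain ⟨τ, hτd⟩ : ∃ τ : ℝ, τ = min τ1 (1 / 10) := ⟨_, rfl⟩
  have hτ0 : 0 < τ := by rw [hτd]; exact lt_min hτ1 (by norm_num)
  have hττ1 : τ ≤ τ1 := by rw [hτd]; exact min_le_left _ _
  have hτ10 : τ ≤ 1 / 10 := by rw [hτd]; exact min_le_right _ _
  obtain ⟨cf, hcfd⟩ : ∃ cf : ℝ, cf = min c2 (c0 / 4) / 2 := ⟨_, rfl⟩
  have hm2 : 0 < min c2 (c0 / 4) := lt_min hc2 (by linarith)
  have hcf : 0 < cf := by rw [hcfd]; linarith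
  have hcf1 : 2 * cf ≤ c2 := by rw [hcfd]; have := min_le_left c2 (c0 / 4); linarith
  have hcf2 : 2 * cf ≤ c0 / 4 := by rw [hcfd]; have := min_le_right c2 (c0 / 4); linarith
  obtain ⟨Q8, _, hQ8⟩ := G1_rlog 3 0 cf hcf
  refine ⟨τ, cf, hτ0, hτ10, hcf, Q1 + Q2 + Q3 + Q8 + 3, ?_⟩
  intro P hPD Q X X1 Y M B b s β hQ hRg hG hGB hXτ hMτ hs1 hs2 hs10 hcs hMB hM hrange
  have hP : Pol A P := ⟨fun i => by rw [(hPD i).1]; exact hD i, fun i => by rw [(hPD i).1]; exact (hDA i).1,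
    fun i => by rw [(hPD i).2]; exact (hDA i).2⟩
  have hV : GeoV Q X X1 P M := U1_geo A Q X X1 P M hP hG
  have hQ0 : 0 < Q := by omega
  have hQr : (0 : ℝ) < Q := by exact_mod_cast hQ0
  have hQ1r : (1 : ℝ) ≤ Q := by exact_mod_cast hQ0
  have hlQ : 0 ≤ Real.log Q := Real.log_natCast_nonneg Q
  have hX0 : 0 < X := lt_of_lt_of_le hG.pos hG.le
  have hXr : (0 : ℝ) < X := by exact_mod_cast hX0
  have hX1' : (1 : ℝ) ≤ X := by exact_mod_cast hX0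
  have hRga : Rg K1 C Q X := ⟨(mul_le_mul_of_nonneg_right hK0a hlQ).trans hRg.1, hRg.2⟩
  have hRgb : Rg K2 C Q X := ⟨(mul_le_mul_of_nonneg_right hK0b hlQ).trans hRg.1, hRg.2⟩
  have hRgd : Rg K4 C Q X := ⟨(mul_le_mul_of_nonneg_right hK0d hlQ).trans hRg.1, hRg.2⟩
  have hQE : Q ^ (2 * E + 20) ≤ X := by
    have h1 : Real.log ((Q : ℝ) ^ (2 * E + 20)) ≤ Real.log X := by
      rw [Real.log_pow]
      push_cast
      exact (mul_le_mul_of_nonneg_right hK0g hlQ).trans hRg.1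
    have h2 : (Q : ℝ) ^ (2 * E + 20) ≤ X := (Real.log_le_log_iff (by positivity) hXr).mp h1
    exact_mod_cast h2
  have hQτ : (Q : ℝ) ^ τ ≤ Q := by
    calc (Q : ℝ) ^ τ ≤ (Q : ℝ) ^ (1 : ℝ) := Real.rpow_le_rpow_of_exponent_le hQ1r (by linarith)
      _ = Q := Real.rpow_one _
  have hQττ : (Q : ℝ) ^ τ ≤ (Q : ℝ) ^ τ1 := Real.rpow_le_rpow_of_exponent_le hQ1r hττ1
  -- the sub-boxes
  choose s' hs' using hs10
  have hs'E : ∀ j, (Q ^ 2) ^ E ≤ s' j := by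
    intro j
    have h1 : (X : ℝ) ≤ Q * s j := by
      calc (X : ℝ) ≤ (X : ℝ) ^ e j := le_self_pow₀ hX1' (by have := he j; omega)
        _ ≤ (Q : ℝ) ^ τ * s j := hs1 j
        _ ≤ Q * s j := mul_le_mul_of_nonneg_right hQτ (Nat.cast_nonneg _)
    have h2 : X ≤ Q * s j := by exact_mod_cast h1
    rw [hs' j] at h2
    have h3 : Q * (Q ^ 10 * s' j) ≤ Q ^ 20 * s' j := by
      calc Q * (Q ^ 10 * s' j) = Q ^ 11 * s' j := by ring
        _ ≤ Q ^ 20 * s' j := Nat.mul_le_mul_right _ (Nat.pow_le_pow_right hQ0 (by norm_num))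
    have h4 : Q ^ 20 * (Q ^ 2) ^ E ≤ Q ^ 20 * s' j := by
      refine le_trans (le_of_eq ?_) (hQE.trans (h2.trans h3))
      rw [← pow_mul, ← pow_add]
      congr 1
      omega
    exact Nat.le_of_mul_le_mul_left h4 (by positivity)
  have hclose : ∀ i, (Q : ℤ) ^ 8 * ∑ j, |c i j| * (s' j : ℤ) ≤ M i := by
    intro i
    have h1 : ∑ j, |c i j| * (s j : ℤ) = (Q : ℤ) ^ 10 * ∑ j, |c i j| * (s' j : ℤ) := by
      rw [mul_sum]
      refine sum_congr rfl fun j _ => ?_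
      rw [hs' j]
      push_cast
      ring
    have h2 := hcs i
    rw [h1] at h2
    have hSn : (0 : ℤ) ≤ ∑ j, |c i j| * (s' j : ℤ) :=
      sum_nonneg fun j _ => mul_nonneg (abs_nonneg _) (Nat.cast_nonneg _)
    have hQz : (0 : ℤ) < Q := by exact_mod_cast hQ0
    have h3 : (Q : ℤ) * ((Q : ℤ) ^ 9 * ∑ j, |c i j| * (s' j : ℤ)) ≤ Q * M i := by
      refine le_trans (le_of_eq ?_) h2
      ring
    have h4 : (Q : ℤ) ^ 9 * ∑ j, |c i j| * (s' j : ℤ) ≤ M i := le_of_mul_le_mul_left h3 hQz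
    refine le_trans (mul_le_mul_of_nonneg_right ?_ hSn) h4
    have h5 : Q ^ 8 ≤ Q ^ 9 := Nat.pow_le_pow_right hQ0 (by norm_num)
    exact_mod_cast h5
  obtain ⟨Bd, hBd⟩ : ∃ Bd : (Fin d → ℤ) → Prop, ∀ t, Bd t ↔
      X1 * (((1 + E0) ^ (k + 1) - 1) * SSf (pr Q) (sys B P (hh c β t)) + (Q : ℝ) ^ (-c2)) <
      |Rw Q X1 P M (fun n => lp (B.eval (n : ℤ))) (hh c β t) - X1 * SSf (pr Q) (sys B P (hh c β t))| :=
    ⟨_, fun _ => Iff.rfl⟩
  have hboxes : ∀ b' : Fin d → ℤ, tb b' s' ⊆ tb b s → (((tb b' s').filter Bd).card : ℝ) ≤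
      (tb b' s').card * (Q : ℝ) ^ (-c2) := by
    intro b' hb'
    rcases (tb b' s').eq_empty_or_nonempty with hem | ⟨t0, ht0⟩
    · rw [hem]; simp
    have hCl : Cl E Cc cc Q P M (tb b' s') (hh c β) (hh c β t0) := by
      refine ⟨hFG P hPD (Q ^ 2) b' s' β (Nat.one_le_pow _ _ hQ0) hs'E
        (fun t ht => (u9_mem c β M t (hrange t (hb' ht))).2.1),
        fun t ht => (u9_mem c β M t (hrange t (hb' ht))).1, (u9_mem c β M t0 (hrange t0 (hb' ht0))).1, ?_⟩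
      intro t ht i
      have h1 := (u9_mem c β M t (hrange t (hb' ht))).2.2 i
      have h2 := (u9_mem c β M t0 (hrange t0 (hb' ht0))).2.2 i
      rw [h1, h2]
      have h3 := R18_var c b' s' i t t0 ht ht0
      have h5 : β i + lf c t i - (β i + lf c t0 i) = lf c t i - lf c t0 i := by ring
      rw [h5]
      exact (mul_le_mul_of_nonneg_left h3 (by positivity)).trans (hclose i)
    have h1 := hcell' P hP Q X X1 Y M B (by omega) hRga hV hGB hMB hM (Fin d → ℤ) (tb b' s') (hh c β)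
      (hh c β t0) hCl
    refine le_trans (le_of_eq ?_) h1
    congr 2
    exact filter_congr fun t _ => hBd t
  have hsplit := R18_split b s s' (Q ^ 10) hs' Bd ((Q : ℝ) ^ (-c2)) hboxes
  -- the mean square over the box
  have hcfM : ∀ i, ∃ (B' : ℤ → Ch → ℂ) (mb : Ch → ℝ), Cf Q (Ysc (M i)) B' mb := by
    intro i
    obtain ⟨e', eb, mb, _, _, _, a4⟩ := CF0 Q (Ysc (M i)) 1 E0 p0 (fun _ => 0) hQ0 (hM i) hE01
    exact ⟨_, mb, a4⟩
  obtain ⟨C0, mb0, hC0⟩ : ∃ (B' : ℤ → Ch → ℂ) (mb : Ch → ℝ), Cf (Q ^ 100) Y B' mb := by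
    have hQ100' : 1 ≤ Q ^ 100 := Nat.one_le_pow _ _ hQ0
    obtain ⟨e', eb, mb, _, _, _, a4⟩ := CF0 (Q ^ 100) Y 1 E0 p0 (fun _ => 0) hQ100' hMB hE01
    exact ⟨_, mb, a4⟩
  have hwb : ∀ n ∈ Ico X1 (2 * X1), |lp (B.eval (n : ℤ))| ≤ (Real.log X) ^ 2 :=
    (hW2' Q X X1 Y B C0 mb0 (by omega) hRgd hG.pos hG.le hG.ge hGB hC0 X1 X1 le_rfl (by omega)
      (Nat.le_mul_of_pos_right _ (Nat.pow_pos hQ0))).2
  have hms := hS4' P hPD Q X X1 M b s β (by omega) hRgb hG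
    (hXτ.trans (mul_le_mul_of_nonneg_left hQττ (Nat.cast_nonneg _)))
    (fun i => (hMτ i).trans (mul_le_mul_of_nonneg_left hQττ (by positivity)))
    (fun j => (hs1 j).trans (mul_le_mul_of_nonneg_right hQττ (Nat.cast_nonneg _)))
    (fun j => (hs2 j).trans (mul_le_mul_of_nonneg_right hQττ (by positivity)))
    hcfM hrange (fun n => lp (B.eval (n : ℤ))) hwb
  have hms' : ∑ t ∈ tb b s, |RPh X1 B P (hh c β t) - Rw Q X1 P M (fun n => lp (B.eval (n : ℤ))) (hh c β t)| ^ 2 ≤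
      (X1 : ℝ) ^ 2 * (tb b s).card * (Q : ℝ) ^ (-c0) := by
    refine le_trans (le_of_eq ?_) hms
    refine sum_congr rfl fun t _ => ?_
    rw [sq_abs]
    rfl
  have hch := u9_cheb (tb b s) (fun t => |RPh X1 B P (hh c β t) -
    Rw Q X1 P M (fun n => lp (B.eval (n : ℤ))) (hh c β t)|) X1 Q hG.pos hQ0 c0 (fun _ => abs_nonneg _) hms'
  -- the conclusion
  have hQcf : (3 : ℝ) ≤ (Q : ℝ) ^ cf := by
    have := hQ8 Q (by omega)
    rwa [Real.rpow_zero, mul_one] at this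
  have h3 := u9_three hQ0 c2 (c0 / 4) (c0 / 2) cf hcf1 hcf2 (by linarith) hQcf
  have p2 : 0 < (Q : ℝ) ^ (-c2) := Real.rpow_pos_of_pos hQr _
  have p4 : 0 < (Q : ℝ) ^ (-(c0 / 4)) := Real.rpow_pos_of_pos hQr _
  have p5 : 0 < (Q : ℝ) ^ (-(c0 / 2)) := Real.rpow_pos_of_pos hQr _
  have hX1r : (0 : ℝ) < X1 := by exact_mod_cast hG.pos
  have hsub : (tb b s).filter (fun t => X1 * (((1 + E0) ^ (k + 1) - 1) * SSf (pr Q) (sys B P (hh c β t)) + (Q : ℝ) ^ (-cf)) <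
      |RPh X1 B P (hh c β t) - X1 * SSf (pr Q) (sys B P (hh c β t))|) ⊆
      (tb b s).filter Bd ∪ (tb b s).filter (fun t => (X1 : ℝ) * (Q : ℝ) ^ (-(c0 / 4)) <
        |RPh X1 B P (hh c β t) - Rw Q X1 P M (fun n => lp (B.eval (n : ℤ))) (hh c β t)|) := by
    intro t ht
    rw [mem_filter] at ht
    obtain ⟨ht1, ht2⟩ := ht
    rw [mem_union, mem_filter, mem_filter]
    by_contra hcon
    push Not at hcon
    have h1 := hcon.2 ht1
    have h2 : |Rw Q X1 P M (fun n => lp (B.eval (n : ℤ))) (hh c β t) - X1 * SSf (pr Q) (sys B P (hh c β t))| ≤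
        X1 * (((1 + E0) ^ (k + 1) - 1) * SSf (pr Q) (sys B P (hh c β t)) + (Q : ℝ) ^ (-c2)) := by
      by_contra h
      push Not at h
      exact hcon.1 ht1 ((hBd t).2 h)
    have h4 := abs_sub_le (RPh X1 B P (hh c β t)) (Rw Q X1 P M (fun n => lp (B.eval (n : ℤ))) (hh c β t))
      (X1 * SSf (pr Q) (sys B P (hh c β t)))
    have h5 : (X1 : ℝ) * ((Q : ℝ) ^ (-c2) + (Q : ℝ) ^ (-(c0 / 4))) ≤ X1 * (Q : ℝ) ^ (-cf) :=
      mul_le_mul_of_nonneg_left (by linarith) hX1r.le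
    have h6 : (X1 : ℝ) * (((1 + E0) ^ (k + 1) - 1) * SSf (pr Q) (sys B P (hh c β t)) + (Q : ℝ) ^ (-cf)) =
      X1 * (((1 + E0) ^ (k + 1) - 1) * SSf (pr Q) (sys B P (hh c β t))) + X1 * (Q : ℝ) ^ (-cf) := by ring
    have h7 : (X1 : ℝ) * (((1 + E0) ^ (k + 1) - 1) * SSf (pr Q) (sys B P (hh c β t)) + (Q : ℝ) ^ (-c2)) =
      X1 * (((1 + E0) ^ (k + 1) - 1) * SSf (pr Q) (sys B P (hh c β t))) + X1 * (Q : ℝ) ^ (-c2) := by ring
    rw [h6] at ht2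
    rw [h7] at h2
    rw [mul_add] at h5
    linarith
  have hcard := (card_le_card hsub).trans (card_union_le _ _)
  have hcard' : (((tb b s).filter (fun t => X1 * (((1 + E0) ^ (k + 1) - 1) * SSf (pr Q) (sys B P (hh c β t)) +
      (Q : ℝ) ^ (-cf)) < |RPh X1 B P (hh c β t) - X1 * SSf (pr Q) (sys B P (hh c β t))|)).card : ℝ) ≤
      (((tb b s).filter Bd).card : ℝ) + (((tb b s).filter (fun t => (X1 : ℝ) * (Q : ℝ) ^ (-(c0 / 4)) <
        |RPh X1 B P (hh c β t) - Rw Q X1 P M (fun n => lp (B.eval (n : ℤ))) (hh c β t)|)).card : ℝ) := by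
    exact_mod_cast hcard
  have h4 := mul_le_mul_of_nonneg_left h3 (Nat.cast_nonneg (tb b s).card : (0 : ℝ) ≤ (tb b s).card)
  have h5 : ((tb b s).card : ℝ) * ((Q : ℝ) ^ (-c2) + (Q : ℝ) ^ (-(c0 / 4)) + (Q : ℝ) ^ (-(c0 / 2))) =
      (tb b s).card * (Q : ℝ) ^ (-c2) + (tb b s).card * (Q : ℝ) ^ (-(c0 / 4)) +
      (tb b s).card * (Q : ℝ) ^ (-(c0 / 2)) := by ring
  rw [h5] at h4
  have h6 : 0 ≤ ((tb b s).card : ℝ) * (Q : ℝ) ^ (-(c0 / 4)) := mul_nonneg (Nat.cast_nonneg _) p4.le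
  linarith

end Pool.Agent.H9P
end

-- from Lib.H9P.U14
section

/-!
# ASYP, chunk U14 (M/L): one cell of `n`, all parameters
-/

open Finset Polynomial

namespace Pool.Agent.H9P

open Pool.Agent.Lib.H68T Pool.Agent.Lib.H18Q Pool.Agent.Lib.H59P Pool.Agent.Lib.H24P
open Pool.Agent.HUP

/-- The numbers of one box. -/
theorem u14a_num (C1 T δ Zd v y M q : ℝ) (hC : 1 ≤ C1) (hT : 2500 * C1 ≤ T * δ) (hδ0 : 0 < δ) (hδ1 : δ ≤ 1)
    (hZd : 0 < Zd) (hv : 9 * (δ * Zd) ≤ 10 * v) (hq0 : 0 ≤ q) (hq : q * (2500 * T) ≤ Zd * δ)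
    (hy : |y - v| * T ≤ C1 * Zd) (hM2 : 5 * v / 8 - q ≤ M) (hM1 : M ≤ 5 * v / 8) :
    δ * Zd ≤ 2 * M ∧ 151 * M ≤ 100 * y ∧ 100 * y < 168 * M := by
  have hTδ : 0 < T * δ := by linarith
  have hT0 : 0 < T := by
    by_contra hneg
    push Not at hneg
    have := mul_nonpos_of_nonpos_of_nonneg hneg hδ0.le
    linarith
  have hT1 : 2500 ≤ T := by
    have h1 : T * δ ≤ T * 1 := mul_le_mul_of_nonneg_left hδ1 hT0.le
    linarith
  have hδZ : 0 < δ * Zd := mul_pos hδ0 hZd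
  have hv0 : 0 < v := by linarith
  have h1 : q * 2500 ≤ v / 2000 := by
    have h2 : q * 2500 * 2500 ≤ q * 2500 * T := mul_le_mul_of_nonneg_left hT1 (by linarith)
    have h3 : q * 2500 * T = q * (2500 * T) := by ring
    have h4 : Zd * δ = δ * Zd := mul_comm _ _
    linarith
  have h6 : |y - v| * 2250 ≤ v := by
    have h7 : |y - v| * (T * δ) ≤ C1 * (δ * Zd) := by
      calc |y - v| * (T * δ) = (|y - v| * T) * δ := by ring
        _ ≤ C1 * Zd * δ := mul_le_mul_of_nonneg_right hy hδ0.le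
        _ = C1 * (δ * Zd) := by ring
    have h8 : |y - v| * (2500 * C1) ≤ |y - v| * (T * δ) := mul_le_mul_of_nonneg_left hT (abs_nonneg _)
    have h9 : C1 * (δ * Zd) ≤ C1 * (10 / 9 * v) := mul_le_mul_of_nonneg_left (by linarith) (by linarith)
    have h10 : (|y - v| * 2500) * C1 ≤ (10 / 9 * v) * C1 := by
      calc (|y - v| * 2500) * C1 = |y - v| * (2500 * C1) := by ring
        _ ≤ C1 * (10 / 9 * v) := h8.trans (h7.trans h9)
        _ = (10 / 9 * v) * C1 := by ring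
    have h11 := le_of_mul_le_mul_right h10 (by linarith)
    linarith
  have h11 := abs_le.1 (show |y - v| ≤ v / 50 by linarith [abs_nonneg (y - v)])
  refine ⟨by linarith, by linarith [h11.1], by linarith [h11.2]⟩

/-- **U14a**: covering by boxes (compare `R20_cover`, `HUP/R20.lean`). `T` is a constant. Let `s_j = q ⌊Z^(e_j)/(q T)⌋` (`≥ Z^(e_j)/(2T)` for `Z ≥ Cv q T`). The boxes `tb (u s) s`,
`u ∈ ∏ [0, A Z^(e_j)/s_j]`, cover `tb 0 (A Z^e + 1)`, total volume at most `(3A)^d Z^(∑ e)`. A box which contains a `t` with `v_i(t) = β_i + ψ_i(t) ≥ δ Z^(D_i)` for all `i`: the forms vary by at most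
`∑_j |c_ij| s_j ≤ C Z^(D_i)/T` on it (`R18_var`; `e_j = D_i` if `c_ij ≠ 0`), which is at most `v_i/100` if `T ≥ Cv/δ`; `M_i = q ⌊5 v_i/(8 q)⌋` (`v_i` the value at the corner), so
`151 M_i ≤ 100 v_i(t') < 168 M_i` on the box and `(δ/2) Z^(D_i) ≤ M_i ≤ Cv Z^(D_i)`. For such a box use `hE`; the other boxes contain no `t` of the set. Sum. -/
theorem U14_cover {k d : ℕ} (c : Fin k → Fin d → ℤ) (e : Fin d → ℕ) (D : Fin k → ℕ) (he : ∀ j, 1 ≤ e j)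
    (hD : ∀ i, 1 ≤ D i) (hB : ∀ i j, c i j ≠ 0 → e j = D i) (A : ℕ) (hA : 1 ≤ A) : ∃ Cv : ℕ, 1 ≤ Cv ∧
    ∀ (Z q : ℕ) (T δ θ : ℝ), 1 ≤ q → 0 < δ → δ ≤ 1 → (Cv : ℝ) ≤ T * δ → 0 ≤ θ → Cv * T * q ≤ Z * δ → ∀ β : Fin k → ℤ,
    (∀ i, |β i| ≤ A * (Z : ℤ) ^ D i) → ∀ (E : (Fin d → ℤ) → Prop) [DecidablePred E],
    (∀ (M : Fin k → ℕ) (b : Fin d → ℤ) (s : Fin d → ℕ), (∀ i, q ∣ M i) → (∀ j, q ∣ s j) →
      (∀ i, δ * (Z : ℝ) ^ D i ≤ 2 * M i) → (∀ i, (M i : ℝ) ≤ Cv * (Z : ℝ) ^ D i) →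
      (∀ j, (Z : ℝ) ^ e j ≤ 2 * T * s j) → (∀ j, (s j : ℝ) ≤ (Z : ℝ) ^ e j) →
      (∀ t ∈ tb b s, ∀ i, 151 * (M i : ℤ) ≤ 100 * (β i + lf c t i) ∧ 100 * (β i + lf c t i) < 168 * (M i : ℤ)) →
      (((tb b s).filter E).card : ℝ) ≤ (tb b s).card * θ) →
    (((tb 0 fun j => A * Z ^ e j + 1).filter fun t => (∀ i, δ * (Z : ℝ) ^ D i ≤ ((β i + lf c t i : ℤ) : ℝ)) ∧ E t).card : ℝ) ≤
      Cv * θ * (Z : ℝ) ^ (∑ j, e j) := by
  classical
  obtain ⟨C1, hC1⟩ : ∃ C1 : ℕ, (C1 : ℤ) = 1 + ∑ i, ∑ j, |c i j| :=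
    ⟨(1 + ∑ i, ∑ j, |c i j|).toNat, Int.toNat_of_nonneg
      (add_nonneg zero_le_one (Finset.sum_nonneg fun _ _ => Finset.sum_nonneg fun _ _ => abs_nonneg _))⟩
  have hS : ∀ i, ∑ j, |c i j| ≤ (C1 : ℤ) - 1 := by
    intro i
    have h1 := Finset.single_le_sum (f := fun i => ∑ j, |c i j|)
      (fun _ _ => Finset.sum_nonneg fun _ _ => abs_nonneg _) (mem_univ i)
    omega
  have hC1' : 1 ≤ C1 := by
    have h1 : (0 : ℤ) ≤ ∑ i, ∑ j, |c i j| :=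
      Finset.sum_nonneg fun _ _ => Finset.sum_nonneg fun _ _ => abs_nonneg _
    omega
  obtain ⟨Cv, hCv⟩ : ∃ Cv : ℕ, Cv = 2500 * C1 + A * (1 + C1) + (2 * A) ^ d := ⟨_, rfl⟩
  have hCa : 2500 * C1 ≤ Cv := by rw [hCv]; exact (Nat.le_add_right _ _).trans (Nat.le_add_right _ _)
  have hCb : A * (1 + C1) ≤ Cv := by rw [hCv]; exact (Nat.le_add_left _ _).trans (Nat.le_add_right _ _)
  have hCc : (2 * A) ^ d ≤ Cv := by rw [hCv]; exact Nat.le_add_left _ _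
  have hCd : 2500 ≤ Cv := by omega
  refine ⟨Cv, by omega, ?_⟩
  intro Z q T δ θ hq hδ0 hδ1 hT hθ hZ β hβ E _ hE
  have hqr : (1 : ℝ) ≤ q := by exact_mod_cast hq
  have hCr : (2500 : ℝ) ≤ Cv := by exact_mod_cast hCd
  have hC1r : (1 : ℝ) ≤ C1 := by exact_mod_cast hC1'
  have hTd : 2500 * (C1 : ℝ) ≤ T * δ := by
    have h1 : (2500 : ℝ) * (C1 : ℝ) ≤ Cv := by exact_mod_cast hCa
    exact h1.trans hT
  have hT0 : 0 < T := by
    by_contra hneg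
    push Not at hneg
    have := mul_nonpos_of_nonpos_of_nonneg hneg hδ0.le
    linarith
  have hT1 : (2500 : ℝ) ≤ T := by
    have h1 : T * δ ≤ T * 1 := mul_le_mul_of_nonneg_left hδ1 hT0.le
    linarith
  have hZ1 : 2500 * T * q ≤ Z * δ := by
    refine le_trans ?_ hZ
    exact mul_le_mul_of_nonneg_right (mul_le_mul_of_nonneg_right hCr hT0.le) (by linarith)
  have hZT : 2500 * T * q ≤ Z := by
    refine hZ1.trans ?_
    calc (Z : ℝ) * δ ≤ Z * 1 := mul_le_mul_of_nonneg_left hδ1 (Nat.cast_nonneg _)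
      _ = Z := mul_one _
  have hTq : (2500 : ℝ) ≤ 2500 * T * q := by nlinarith
  have hZr1 : (1 : ℝ) ≤ Z := by linarith
  have hZn : 1 ≤ Z := by exact_mod_cast hZr1
  have hZe : ∀ n : ℕ, 1 ≤ n → (Z : ℝ) ≤ (Z : ℝ) ^ n := fun n hn => le_self_pow₀ hZr1 (by omega)
  obtain ⟨s, hs⟩ : ∃ s : Fin d → ℕ, s = fun j => q * ⌊(Z : ℝ) ^ e j / (q * T)⌋₊ := ⟨_, rfl⟩
  have hqT : 0 < (q : ℝ) * T := by positivity
  have hs1 : ∀ j, q ∣ s j := fun j => by rw [hs]; exact dvd_mul_right _ _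
  have hs3 : ∀ j, (s j : ℝ) * T ≤ (Z : ℝ) ^ e j := by
    intro j
    have h1 : ((⌊(Z : ℝ) ^ e j / (q * T)⌋₊ : ℕ) : ℝ) ≤ (Z : ℝ) ^ e j / (q * T) := Nat.floor_le (by positivity)
    rw [le_div_iff₀ hqT] at h1
    rw [hs]
    push_cast
    linarith [mul_comm (q : ℝ) ((⌊(Z : ℝ) ^ e j / (q * T)⌋₊ : ℕ) : ℝ),
      mul_assoc ((⌊(Z : ℝ) ^ e j / (q * T)⌋₊ : ℕ) : ℝ) (q : ℝ) T]
  have hs2 : ∀ j, (Z : ℝ) ^ e j ≤ 2 * T * s j := by
    intro j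
    have h1 : (Z : ℝ) ^ e j / (q * T) < ((⌊(Z : ℝ) ^ e j / (q * T)⌋₊ : ℕ) : ℝ) + 1 := Nat.lt_floor_add_one _
    have h2 : 1 ≤ (Z : ℝ) ^ e j / (q * T) := by
      rw [le_div_iff₀ hqT]
      have h3 := hZe (e j) (he j)
      nlinarith
    have h4 : (1 : ℝ) ≤ ((⌊(Z : ℝ) ^ e j / (q * T)⌋₊ : ℕ) : ℝ) := by
      exact_mod_cast Nat.le_floor (by exact_mod_cast h2)
    have h5 : (Z : ℝ) ^ e j / (q * T) ≤ 2 * ((⌊(Z : ℝ) ^ e j / (q * T)⌋₊ : ℕ) : ℝ) := by linarith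
    rw [div_le_iff₀ hqT] at h5
    rw [hs]
    push_cast
    calc (Z : ℝ) ^ e j ≤ 2 * ((⌊(Z : ℝ) ^ e j / (q * T)⌋₊ : ℕ) : ℝ) * (q * T) := h5
      _ = 2 * T * (q * ((⌊(Z : ℝ) ^ e j / (q * T)⌋₊ : ℕ) : ℝ)) := by ring
  have hsZ : ∀ j, (s j : ℝ) ≤ (Z : ℝ) ^ e j := by
    intro j
    refine le_trans ?_ (hs3 j)
    exact le_mul_of_one_le_right (Nat.cast_nonneg _) (by linarith)
  have hspos : ∀ j, 0 < s j := by
    intro j
    rcases Nat.eq_zero_or_pos (s j) with h | h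
    · have h1 := hs2 j
      rw [h] at h1
      have h3 := hZe (e j) (he j)
      push_cast at h1
      linarith
    · exact h
  obtain ⟨cr, hcr⟩ : ∃ cr : (Fin d → ℕ) → (Fin d → ℤ), cr = fun u j => ((u j * s j : ℕ) : ℤ) := ⟨_, rfl⟩
  obtain ⟨U, hU⟩ : ∃ U : Finset (Fin d → ℕ), U = Fintype.piFinset fun j => range (A * Z ^ e j / s j + 1) :=
    ⟨_, rfl⟩
  obtain ⟨G, hG⟩ : ∃ G : Finset (Fin d → ℕ), G = U.filter fun u => ∀ i, 9 * (δ * (Z : ℝ) ^ D i) ≤ 10 * ((β i + lf c (cr u) i : ℤ) : ℝ) :=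
    ⟨_, rfl⟩
  have hvar : ∀ (b : Fin d → ℤ) (i : Fin k) (t t' : Fin d → ℤ), t ∈ tb b s → t' ∈ tb b s →
      |((β i + lf c t i : ℤ) : ℝ) - ((β i + lf c t' i : ℤ) : ℝ)| * T ≤ C1 * (Z : ℝ) ^ D i := by
    intro b i t t' ht ht'
    have h1 := R18_var c b s i t t' ht ht'
    have h2 : |((β i + lf c t i : ℤ) : ℝ) - ((β i + lf c t' i : ℤ) : ℝ)| ≤ ∑ j, |(c i j : ℝ)| * (s j : ℝ) := by
      have h3 : ((|lf c t i - lf c t' i| : ℤ) : ℝ) ≤ ((∑ j, |c i j| * (s j : ℤ) : ℤ) : ℝ) := by exact_mod_cast h1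
      push_cast at h3
      push_cast
      rw [add_sub_add_left_eq_sub]
      exact h3
    have h4 : (∑ j, |(c i j : ℝ)| * (s j : ℝ)) * T ≤ (∑ j, |(c i j : ℝ)|) * (Z : ℝ) ^ D i := by
      rw [Finset.sum_mul, Finset.sum_mul]
      refine Finset.sum_le_sum fun j _ => ?_
      by_cases hj : c i j = 0
      · rw [hj]
        simp
      · rw [mul_assoc, ← hB i j hj]
        exact mul_le_mul_of_nonneg_left (hs3 j) (abs_nonneg _)
    have h5 : (∑ j, |(c i j : ℝ)|) ≤ C1 := by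
      have h6 : ((∑ j, |c i j| : ℤ) : ℝ) ≤ ((C1 : ℤ) : ℝ) := by
        exact_mod_cast (hS i).trans (by omega)
      push_cast at h6
      exact h6
    calc _ ≤ (∑ j, |(c i j : ℝ)| * (s j : ℝ)) * T := mul_le_mul_of_nonneg_right h2 hT0.le
      _ ≤ (∑ j, |(c i j : ℝ)|) * (Z : ℝ) ^ D i := h4
      _ ≤ C1 * (Z : ℝ) ^ D i := mul_le_mul_of_nonneg_right h5 (by positivity)
  have hcrm : ∀ u : Fin d → ℕ, cr u ∈ tb (cr u) s := by
    intro u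
    rw [r18_mem]
    intro j
    have h1 := hspos j
    omega
  -- the cover
  have hsub : ((tb 0 fun j => A * Z ^ e j + 1).filter
        fun t => (∀ i, δ * (Z : ℝ) ^ D i ≤ ((β i + lf c t i : ℤ) : ℝ)) ∧ E t) ⊆
      (G.biUnion fun u => (tb (cr u) s).filter E) := by
    intro t ht
    rw [mem_filter] at ht
    obtain ⟨u, hu⟩ : ∃ u : Fin d → ℕ, u = fun j => (t j).toNat / s j := ⟨_, rfl⟩
    have htb := (r18_mem _ _ _).1 ht.1
    have htu : t ∈ tb (cr u) s := by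
      rw [r18_mem]
      intro j
      have h1 := htb j
      simp only [Pi.zero_apply] at h1
      obtain ⟨n, hn⟩ : ∃ n : ℕ, (n : ℤ) = t j := ⟨(t j).toNat, Int.toNat_of_nonneg h1.1⟩
      have h2 : u j = n / s j := by
        rw [hu]
        simp only
        rw [← hn, Int.toNat_natCast]
      have h3 : n / s j * s j ≤ n := Nat.div_mul_le_self _ _
      have h4 : n < n / s j * s j + s j := Nat.lt_div_mul_add (hspos j)
      rw [hcr]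
      simp only
      rw [h2, ← hn]
      constructor
      · exact_mod_cast h3
      · exact_mod_cast h4
    rw [mem_biUnion]
    refine ⟨u, ?_, mem_filter.2 ⟨htu, ht.2.2⟩⟩
    rw [hG, mem_filter]
    constructor
    · rw [hU, Fintype.mem_piFinset]
      intro j
      rw [mem_range, Nat.lt_succ_iff]
      rw [hu]
      apply Nat.div_le_div_right
      have h1 := htb j
      simp only [Pi.zero_apply] at h1
      push_cast at h1
      have h2 : (((t j).toNat : ℕ) : ℤ) ≤ ((A * Z ^ e j : ℕ) : ℤ) := by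
        rw [Int.toNat_of_nonneg h1.1]
        push_cast
        omega
      exact_mod_cast h2
    · intro i
      have h1 := ht.2.1 i
      have h3 := hvar (cr u) i t (cr u) htu (hcrm u)
      have hZD : 0 < (Z : ℝ) ^ D i := by positivity
      have h4 : |((β i + lf c t i : ℤ) : ℝ) - ((β i + lf c (cr u) i : ℤ) : ℝ)| * 2500 ≤ δ * (Z : ℝ) ^ D i := by
        have h5 : (|((β i + lf c t i : ℤ) : ℝ) - ((β i + lf c (cr u) i : ℤ) : ℝ)| * 2500) * C1 ≤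
            (δ * (Z : ℝ) ^ D i) * C1 := by
          calc _ = |((β i + lf c t i : ℤ) : ℝ) - ((β i + lf c (cr u) i : ℤ) : ℝ)| * (2500 * C1) := by ring
            _ ≤ |((β i + lf c t i : ℤ) : ℝ) - ((β i + lf c (cr u) i : ℤ) : ℝ)| * (T * δ) :=
              mul_le_mul_of_nonneg_left hTd (abs_nonneg _)
            _ = (|((β i + lf c t i : ℤ) : ℝ) - ((β i + lf c (cr u) i : ℤ) : ℝ)| * T) * δ := by ring
            _ ≤ (C1 * (Z : ℝ) ^ D i) * δ := mul_le_mul_of_nonneg_right h3 hδ0.le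
            _ = (δ * (Z : ℝ) ^ D i) * C1 := by ring
        exact le_of_mul_le_mul_right h5 (by linarith)
      have h6 : ((β i + lf c t i : ℤ) : ℝ) - ((β i + lf c (cr u) i : ℤ) : ℝ) ≤
          |((β i + lf c t i : ℤ) : ℝ) - ((β i + lf c (cr u) i : ℤ) : ℝ)| := le_abs_self _
      have h7 : 0 < δ * (Z : ℝ) ^ D i := mul_pos hδ0 hZD
      linarith
  -- the boxes
  have hbox : ∀ u ∈ G, (((tb (cr u) s).filter E).card : ℝ) ≤ (tb (cr u) s).card * θ := by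
    intro u hu
    rw [hG, mem_filter] at hu
    obtain ⟨v, hv⟩ : ∃ v : Fin k → ℕ, v = fun i => (β i + lf c (cr u) i).toNat := ⟨_, rfl⟩
    have hZD : ∀ i, 0 < (Z : ℝ) ^ D i := fun i => by positivity
    have hvpos : ∀ i, (0 : ℝ) < ((β i + lf c (cr u) i : ℤ) : ℝ) := by
      intro i
      have h1 := hu.2 i
      have h2 := mul_pos hδ0 (hZD i)
      linarith
    have hvr : ∀ i, (v i : ℝ) = ((β i + lf c (cr u) i : ℤ) : ℝ) := by
      intro i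
      have h1 : (0 : ℤ) ≤ β i + lf c (cr u) i := by
        have h2 := hvpos i
        exact_mod_cast h2.le
      have h2 : ((v i : ℕ) : ℤ) = β i + lf c (cr u) i := by
        rw [hv]
        exact Int.toNat_of_nonneg h1
      rw [← h2]
      push_cast
      rfl
    have hqw : ∀ i, (q : ℝ) * (2500 * T) ≤ (Z : ℝ) ^ D i * δ := by
      intro i
      calc (q : ℝ) * (2500 * T) = 2500 * T * q := by ring
        _ ≤ (Z : ℝ) * δ := hZ1
        _ ≤ (Z : ℝ) ^ D i * δ := mul_le_mul_of_nonneg_right (hZe _ (hD i)) hδ0.le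
    have hnum : ∀ (t : Fin d → ℤ), t ∈ tb (cr u) s → ∀ i,
        δ * (Z : ℝ) ^ D i ≤ 2 * ((q * (5 * v i / (8 * q)) : ℕ) : ℝ) ∧
        151 * ((q * (5 * v i / (8 * q)) : ℕ) : ℝ) ≤ 100 * ((β i + lf c t i : ℤ) : ℝ) ∧
        100 * ((β i + lf c t i : ℤ) : ℝ) < 168 * ((q * (5 * v i / (8 * q)) : ℕ) : ℝ) := by
      intro t ht i
      have h1 := r20_M q (v i) hq
      refine u14a_num C1 T δ ((Z : ℝ) ^ D i) (v i) ((β i + lf c t i : ℤ) : ℝ) _ q hC1r hTd hδ0 hδ1 (hZD i) ?_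
        (by linarith) (hqw i) ?_ h1.2 h1.1
      · rw [hvr i]
        exact hu.2 i
      · rw [hvr i]
        exact hvar (cr u) i t (cr u) ht (hcrm u)
    refine hE (fun i => q * (5 * v i / (8 * q))) (cr u) s (fun i => dvd_mul_right _ _) hs1 ?_ ?_ hs2 hsZ ?_
    · intro i
      exact (hnum (cr u) (hcrm u) i).1
    · intro i
      have h1 := (r20_M q (v i) hq).1
      have h2 : (v i : ℝ) ≤ A * (1 + C1) * (Z : ℝ) ^ D i := by
        rw [hvr i]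
        have h3 : ((β i + lf c (cr u) i : ℤ) : ℝ) = (β i : ℝ) + ∑ j, (c i j : ℝ) * (cr u j : ℝ) := by
          unfold lf
          push_cast
          rfl
        have h4 : (β i : ℝ) ≤ A * (Z : ℝ) ^ D i := by
          have h5 := (le_abs_self _).trans (hβ i)
          exact_mod_cast h5
        have h6 : ∑ j, (c i j : ℝ) * (cr u j : ℝ) ≤ ∑ j, |(c i j : ℝ)| * (A * (Z : ℝ) ^ D i) := by
          refine Finset.sum_le_sum fun j _ => ?_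
          by_cases hj : c i j = 0
          · rw [hj]
            simp
          · have h7 : (0 : ℝ) ≤ (cr u j : ℝ) := by
              rw [hcr]
              positivity
            have h8 : (cr u j : ℝ) ≤ A * (Z : ℝ) ^ D i := by
              have h9 := hu.1
              rw [hU, Fintype.mem_piFinset] at h9
              have h10 := h9 j
              rw [mem_range, Nat.lt_succ_iff] at h10
              have h11 : u j * s j ≤ A * Z ^ e j := (Nat.mul_le_mul_right _ h10).trans (Nat.div_mul_le_self _ _)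
              have h12 : ((u j * s j : ℕ) : ℝ) ≤ ((A * Z ^ e j : ℕ) : ℝ) := Nat.cast_le.2 h11
              rw [hcr, ← hB i j hj]
              push_cast at h12 ⊢
              exact h12
            exact (mul_le_mul_of_nonneg_right (le_abs_self _) h7).trans
              (mul_le_mul_of_nonneg_left h8 (abs_nonneg _))
        have h12 : (∑ j, |(c i j : ℝ)|) ≤ C1 := by
          have h13 : ((∑ j, |c i j| : ℤ) : ℝ) ≤ ((C1 : ℤ) : ℝ) := by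
            exact_mod_cast (hS i).trans (by omega)
          push_cast at h13
          exact h13
        rw [← Finset.sum_mul] at h6
        have h14 : (∑ j, |(c i j : ℝ)|) * (A * (Z : ℝ) ^ D i) ≤ C1 * (A * (Z : ℝ) ^ D i) :=
          mul_le_mul_of_nonneg_right h12 (by positivity)
        rw [h3]
        calc _ ≤ A * (Z : ℝ) ^ D i + C1 * (A * (Z : ℝ) ^ D i) := add_le_add h4 (h6.trans h14)
          _ = A * (1 + C1) * (Z : ℝ) ^ D i := by ring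
      have h15 : ((A * (1 + C1) : ℕ) : ℝ) ≤ Cv := by exact_mod_cast hCb
      push_cast at h15
      have h16 : (A * (1 + C1) : ℝ) * (Z : ℝ) ^ D i ≤ Cv * (Z : ℝ) ^ D i :=
        mul_le_mul_of_nonneg_right h15 (hZD i).le
      have h17 : (0 : ℝ) ≤ v i := Nat.cast_nonneg _
      linarith
    · intro t ht i
      have h1 := hnum t ht i
      have h2 := h1.2.1
      have h3 := h1.2.2
      have h4 : ((151 * ((q * (5 * v i / (8 * q)) : ℕ) : ℤ) : ℤ) : ℝ) ≤ ((100 * (β i + lf c t i) : ℤ) : ℝ) := by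
        push_cast
        push_cast at h2
        exact h2
      have h5 : ((100 * (β i + lf c t i) : ℤ) : ℝ) < ((168 * ((q * (5 * v i / (8 * q)) : ℕ) : ℤ) : ℤ) : ℝ) := by
        push_cast
        push_cast at h3
        exact h3
      exact ⟨Int.cast_le.1 h4, Int.cast_lt.1 h5⟩
  -- the sums
  have hcard := Finset.card_le_card hsub
  have hP : ∏ j, ((2 * A * Z ^ e j : ℕ) : ℝ) = (2 * A) ^ d * (Z : ℝ) ^ (∑ j, e j) := by
    push_cast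
    rw [Finset.prod_mul_distrib, Finset.prod_const, Finset.card_univ, Fintype.card_fin, Finset.prod_pow_eq_pow_sum]
  have hboxs : ∑ u ∈ G, (((tb (cr u) s).filter E).card : ℝ) ≤ θ * ((2 * A) ^ d * (Z : ℝ) ^ (∑ j, e j)) := by
    have h1 : ∀ u ∈ G, (((tb (cr u) s).filter E).card : ℝ) ≤ ((∏ j, s j : ℕ) : ℝ) * θ := by
      intro u hu
      have h2 := hbox u hu
      rw [R18_card] at h2
      exact h2
    have h3 := Finset.sum_le_sum h1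
    rw [Finset.sum_const, nsmul_eq_mul] at h3
    have h4 : (G.card : ℝ) ≤ U.card := by
      rw [hG]
      exact_mod_cast Finset.card_filter_le _ _
    have h5 : U.card * ∏ j, s j ≤ ∏ j, (2 * A * Z ^ e j) := by
      rw [hU, Fintype.card_piFinset, ← Finset.prod_mul_distrib]
      refine Finset.prod_le_prod' fun j _ => ?_
      rw [card_range]
      have h6 : s j ≤ Z ^ e j := by exact_mod_cast hsZ j
      have h7 : A * Z ^ e j / s j * s j ≤ A * Z ^ e j := Nat.div_mul_le_self _ _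
      have h8 : 1 * Z ^ e j ≤ A * Z ^ e j := Nat.mul_le_mul_right _ hA
      calc (A * Z ^ e j / s j + 1) * s j = A * Z ^ e j / s j * s j + s j := by ring
        _ ≤ A * Z ^ e j + A * Z ^ e j := by omega
        _ = 2 * A * Z ^ e j := by ring
    have h9 : (U.card : ℝ) * ((∏ j, s j : ℕ) : ℝ) ≤ ∏ j, ((2 * A * Z ^ e j : ℕ) : ℝ) := by exact_mod_cast h5
    rw [hP] at h9
    calc _ ≤ (G.card : ℝ) * (((∏ j, s j : ℕ) : ℝ) * θ) := h3
      _ ≤ (U.card : ℝ) * (((∏ j, s j : ℕ) : ℝ) * θ) := mul_le_mul_of_nonneg_right h4 (by positivity)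
      _ = θ * ((U.card : ℝ) * ((∏ j, s j : ℕ) : ℝ)) := by ring
      _ ≤ _ := mul_le_mul_of_nonneg_left h9 hθ
  have hfin : (((tb 0 fun j => A * Z ^ e j + 1).filter
        fun t => (∀ i, δ * (Z : ℝ) ^ D i ≤ ((β i + lf c t i : ℤ) : ℝ)) ∧ E t).card : ℝ) ≤
      ∑ u ∈ G, (((tb (cr u) s).filter E).card : ℝ) := by
    have h1 := hcard.trans Finset.card_biUnion_le
    exact_mod_cast h1
  have h2 : ((2 * A) ^ d : ℝ) ≤ Cv := by exact_mod_cast hCc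
  have hZs : (0 : ℝ) ≤ (Z : ℝ) ^ (∑ j, e j) := by positivity
  calc _ ≤ θ * ((2 * A) ^ d * (Z : ℝ) ^ (∑ j, e j)) := hfin.trans hboxs
    _ = (2 * A) ^ d * (θ * (Z : ℝ) ^ (∑ j, e j)) := by ring
    _ ≤ Cv * (θ * (Z : ℝ) ^ (∑ j, e j)) := mul_le_mul_of_nonneg_right h2 (mul_nonneg hθ hZs)
    _ = Cv * θ * (Z : ℝ) ^ (∑ j, e j) := by ring

theorem u14_eval (P : ℤ[X]) (A : ℕ) : ∃ Cp : ℕ, ∀ n0 Z : ℕ, 1 ≤ Z → n0 ≤ A * Z →
    |P.eval (n0 : ℤ)| ≤ Cp * (Z : ℤ) ^ P.natDegree := by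
  refine ⟨∑ j ∈ range (P.natDegree + 1), (P.coeff j).natAbs * A ^ j, ?_⟩
  intro n0 Z hZ hn
  rw [eval_eq_sum_range]
  refine (abs_sum_le_sum_abs _ _).trans ?_
  push_cast
  rw [Finset.sum_mul]
  apply Finset.sum_le_sum
  intro j hj
  rw [mem_range] at hj
  rw [abs_mul, abs_pow, Nat.abs_cast]
  have h1 : (n0 : ℤ) ^ j ≤ ((A : ℤ) * Z) ^ j := pow_le_pow_left₀ (by positivity) (by exact_mod_cast hn) j
  have h2 : (Z : ℤ) ^ j ≤ (Z : ℤ) ^ P.natDegree := pow_le_pow_right₀ (by exact_mod_cast hZ) (by omega)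
  calc |P.coeff j| * (n0 : ℤ) ^ j ≤ |P.coeff j| * ((A : ℤ) * Z) ^ j := mul_le_mul_of_nonneg_left h1 (abs_nonneg _)
    _ = |P.coeff j| * (A : ℤ) ^ j * (Z : ℤ) ^ j := by rw [mul_pow, mul_assoc]
    _ ≤ |P.coeff j| * (A : ℤ) ^ j * (Z : ℤ) ^ P.natDegree := mul_le_mul_of_nonneg_left h2 (by positivity)

theorem u14_ev (c : ℝ) (hc : 0 < c) (K : ℝ) : ∃ Z0 : ℕ, ∀ Z : ℕ, Z0 ≤ Z → K ≤ (Z : ℝ) ^ c := by
  have h1 : Filter.Tendsto (fun Z : ℕ => (Z : ℝ) ^ c) Filter.atTop Filter.atTop :=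
    (tendsto_rpow_atTop hc).comp tendsto_natCast_atTop_atTop
  exact Filter.eventually_atTop.1 (h1.eventually_ge_atTop K)

/-- `Z` is large compared to `Q`. -/
theorem u14_rg {K C : ℝ} {Q Z : ℕ} (hK : 2000 ≤ K) (hQ : 2 ≤ Q) (h : Rg K C Q Z) : (Q : ℝ) ^ 12 ≤ Z := by
  have hQr : (2 : ℝ) ≤ Q := by exact_mod_cast hQ
  have hlogQ : 0 < Real.log Q := Real.log_pos (by linarith)
  have h1 : K * Real.log Q ≤ Real.log Z := h.1
  have hlogZ : 0 < Real.log Z := by nlinarith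
  have hZ0 : (0 : ℝ) < Z := by
    rcases Nat.eq_zero_or_pos Z with h0 | h0
    · rw [h0, Nat.cast_zero, Real.log_zero] at hlogZ
      exact absurd hlogZ (lt_irrefl _)
    · exact_mod_cast h0
  rw [← Real.log_le_log_iff (by positivity) hZ0, Real.log_pow]
  push_cast
  nlinarith

/-- The scales of the models. -/
theorem u14_ysc {A Z M : ℕ} {δ Cv : ℝ} {D : ℕ} (hδ : 0 < δ) (hM8 : 8 ∣ M) (hD1 : 1 ≤ D) (hDA : D ≤ A) (hZ1 : 1 ≤ Z)
    (h1 : δ * (Z : ℝ) ^ D ≤ 2 * M) (h2 : (M : ℝ) ≤ Cv * (Z : ℝ) ^ D) (h3 : 16 / δ ^ 2 ≤ Z) (h4 : Cv ≤ Z) :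
    Z ≤ (Ysc M) ^ 2 ∧ Ysc M ≤ Z ^ (A + 2) := by
  obtain ⟨m, rfl⟩ := hM8
  have hY : Ysc (8 * m) = 6 * m := by
    unfold Ysc
    omega
  have hZr : (1 : ℝ) ≤ Z := by exact_mod_cast hZ1
  have hZ0 : (0 : ℝ) < Z := by linarith
  have hZD : (Z : ℝ) ≤ (Z : ℝ) ^ D := by
    calc (Z : ℝ) = (Z : ℝ) ^ 1 := (pow_one _).symm
      _ ≤ (Z : ℝ) ^ D := pow_le_pow_right₀ hZr hD1
  rw [hY]
  push_cast at h1 h2
  constructor
  · have h5 : δ * Z / 4 ≤ 6 * (m : ℝ) := by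
      have : δ * (Z : ℝ) ≤ δ * (Z : ℝ) ^ D := mul_le_mul_of_nonneg_left hZD hδ.le
      have hm : (0 : ℝ) ≤ m := Nat.cast_nonneg _
      linarith
    have h6 : (δ * Z / 4) ^ 2 ≤ (6 * (m : ℝ)) ^ 2 := pow_le_pow_left₀ (by positivity) h5 2
    have h7 : (Z : ℝ) ≤ (δ * Z / 4) ^ 2 := by
      rw [div_le_iff₀ (by positivity)] at h3
      have h8 : (δ * Z / 4) ^ 2 = Z * (Z * δ ^ 2) / 16 := by ring
      rw [h8]
      have h9 : (Z : ℝ) * 16 ≤ Z * (Z * δ ^ 2) := mul_le_mul_of_nonneg_left h3 hZ0.le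
      linarith
    have h8 : (Z : ℝ) ≤ ((6 * m : ℕ) : ℝ) ^ 2 := by
      push_cast
      exact h7.trans h6
    exact_mod_cast h8
  · have h5 : ((6 * m : ℕ) : ℝ) ≤ (Z : ℝ) ^ (A + 2) := by
      push_cast
      have hm : (0 : ℝ) ≤ m := Nat.cast_nonneg _
      calc 6 * (m : ℝ) ≤ 8 * m := by linarith
        _ ≤ Cv * (Z : ℝ) ^ D := h2
        _ ≤ Z * (Z : ℝ) ^ D := mul_le_mul_of_nonneg_right h4 (by positivity)
        _ = (Z : ℝ) ^ (D + 1) := by rw [pow_succ]; ring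
        _ ≤ (Z : ℝ) ^ (A + 2) := pow_le_pow_right₀ hZr (by omega)
    exact_mod_cast h5

open Classical in
/-- **U14.** Proof. `K` from `U9_box` (for `A' = A + 1`, say, or `A`), plus `2000`. For `C, δ, E0`: `U9_box` gives `τ, c2`. Constants: `Cp = max` of the constants of `U11_geo` (`Cg`), `Ca` with
`|β_i + P_i(n0)| ≤ Ca Z^(D_i)` for `n0 ≤ A Z` (`P` is fixed), `Cv` from `U14_cover` with `Ca` in place of `A`, `T = Cv/δ + 1`, `ρ0 = min(δ/(4 Cg), δ/A, 1/2)`.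
Put `P' = shf n0 (P ·)` (`HasD D a P'` by `U11_hasD`), `β' i = β i + P_i(n0)`, `B' = B(x + n0)`, `q = 8 Q^10`. `U14_cover` for `β'` with `E t` = (all `β i + ψ_i(t) ≥ 0` and the inequality of the statement),
`θ = Q^(-c2)`. On a box: `X = Z`, `GeoU A Q Z X1 P' M` by `U11_geo` (`Cg X1 Z^D ≤ Cg ρ0 Z Z^D ≤ Z M_i` as `M_i ≥ (δ/2) Z^D`; `M_i ≤ Cv Z^D ≤ Cv (2/ρ)^D X1^D ≤ X1^D Q^τ` for `Q` large in terms of `ρ`),
`GeoB A Z X1 Y B'` by `U11_geoB`; `Z ≤ (2/ρ) X1 ≤ X1 Q^τ`; `Z^(e_j) ≤ 2 T s_j ≤ Q^τ s_j`; `∑ |c_ij| s_j ≤ C Z^(D_i) ≤ Q M_i`; `Mdl` from `Lv` (`Z ≤ Y^2`, `Z ≤ Ysc (M i)^2`: `Ysc (M i) ≥ M_i/2 ≥ (δ/4) Z`;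
`≤ Z^(A+2)`). So `U9_box` applies. On the set: `sys B' P' (hh c β' t)` is the translated system (`U11_sys`), so `RPh X1 B' P' (hh c β' t) = wct (sys B P (hh c β t)) (n0 + X1) X1` (`U11_wct`, `U11_wct_add`) and
the series are equal (`U11_SS`). `c1 = c2/2` absorbs the constant `Cv`. -/
theorem U14_main {k d : ℕ} (c : Fin k → Fin d → ℤ) (e : Fin d → ℕ) (D : Fin k → ℕ) (a : Fin k → ℤ)
    (hF : FGTU c D a) (hS : S4TU c e D a) (he : ∀ j, 1 ≤ e j) (hB : ∀ i j, c i j ≠ 0 → e j = D i)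
    (hD : ∀ i, 1 ≤ D i) (P : Fin k → ℤ[X]) (hP : HasD D a P) (A : ℕ) (hA : 1 ≤ A)
    (hDA : ∀ i, D i ≤ A ∧ (a i).natAbs ≤ A) : ∃ K : ℝ, 1 ≤ K ∧ ∀ C E0 δ : ℝ, 0 ≤ E0 → E0 ≤ 1 → 0 < δ →
    ∃ ρ0 : ℝ, 0 < ρ0 ∧ ∀ ρ : ℝ, 0 < ρ → ρ ≤ ρ0 → ∃ c1 : ℝ, 0 < c1 ∧ ∃ Q0 : ℕ, ∀ Q Z : ℕ, Q0 ≤ Q → Rg K C Q Z →
    Lv A Q Z E0 → ∀ X1 n0 : ℕ, Q ^ 800 ∣ X1 → ρ * Z ≤ 2 * X1 → X1 ≤ ρ * Z → n0 ≤ A * Z → ∀ B : ℤ[X], Lin A B →
    (∀ n ∈ Ico (n0 + X1) (n0 + 2 * X1), δ * Z ≤ ((B.eval (n : ℤ) : ℤ) : ℝ) ∧ ((B.eval (n : ℤ) : ℤ) : ℝ) ≤ A * Z) →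
    ∀ β : Fin k → ℤ, (∀ i, |β i| ≤ A * (Z : ℤ) ^ D i) →
    (((tb 0 fun j => A * Z ^ e j + 1).filter fun t => (∀ i, 0 ≤ β i + lf c t i) ∧
      (∀ i, δ * (Z : ℝ) ^ D i ≤ (((P i).eval (n0 : ℤ) + β i + lf c t i : ℤ) : ℝ)) ∧
      X1 * (((1 + E0) ^ (k + 1) - 1) * SSf (pr Q) (sys B P (hh c β t)) + (Q : ℝ) ^ (-c1)) <
        |wct (sys B P (hh c β t)) (n0 + X1) X1 - X1 * SSf (pr Q) (sys B P (hh c β t))|).card : ℝ) ≤
      (Z : ℝ) ^ (∑ j, e j) * (Q : ℝ) ^ (-c1) := by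
  obtain ⟨K9, hK9, h9⟩ := U9_box c e D a hF hS he hD A hA hDA
  obtain ⟨Cg, hCg, hgeo⟩ := U11_geo P A
  refine ⟨K9 + 2000, by linarith, ?_⟩
  intro Cr E0 δ0 hE0 hE1 hδ0
  obtain ⟨τ, c2, hτ, hτ1, hc2, Q9, h9⟩ := h9 Cr E0 hE0 hE1
  obtain ⟨δ, hδd⟩ : ∃ δ : ℝ, δ = min δ0 1 := ⟨_, rfl⟩
  have hδ : 0 < δ := by
    rw [hδd]
    exact lt_min hδ0 one_pos
  have hδ1 : δ ≤ 1 := by
    rw [hδd]
    exact min_le_right _ _
  have hδδ : δ ≤ δ0 := by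
    rw [hδd]
    exact min_le_left _ _
  have hev : ∀ i, ∃ Cp : ℕ, ∀ n0 Z : ℕ, 1 ≤ Z → n0 ≤ A * Z →
      |(P i).eval (n0 : ℤ)| ≤ Cp * (Z : ℤ) ^ (P i).natDegree := fun i => u14_eval (P i) A
  choose Cp hCp using hev
  obtain ⟨Ca, hCa⟩ : ∃ Ca, Ca = A + ∑ i, Cp i := ⟨_, rfl⟩
  obtain ⟨Cv, hCv, hcov⟩ := U14_cover c e D he hD hB Ca (by omega)
  have hAr : (1 : ℝ) ≤ A := by exact_mod_cast hA
  have hCgr : (1 : ℝ) ≤ Cg := by exact_mod_cast hCg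
  have hCvr : (1 : ℝ) ≤ Cv := by exact_mod_cast hCv
  refine ⟨min (δ / (4 * Cg)) (min (δ / A) (1 / 2)), by positivity, ?_⟩
  intro ρ hρ hρ0
  have hρ1 : 4 * Cg * ρ ≤ δ := by
    have h1 := hρ0.trans (min_le_left _ _)
    rw [le_div_iff₀ (by positivity)] at h1
    linarith
  have hρ2 : A * ρ ≤ δ := by
    have h1 := hρ0.trans ((min_le_right _ _).trans (min_le_left _ _))
    rw [le_div_iff₀ (by positivity)] at h1
    linarith
  have hρ3 : ρ ≤ 1 / 2 := hρ0.trans ((min_le_right _ _).trans (min_le_right _ _))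
  obtain ⟨T, hT⟩ : ∃ T : ℝ, T = Cv / δ + 1 := ⟨_, rfl⟩
  have hT1 : 1 ≤ T := by
    rw [hT]
    have : (0 : ℝ) ≤ Cv / δ := by positivity
    linarith
  have hTδ : (Cv : ℝ) ≤ T * δ := by
    rw [hT, add_mul, div_mul_cancel₀ _ hδ.ne']
    linarith
  obtain ⟨Cc, hCc⟩ : ∃ Cc : ℕ, Cc = ∑ i, ∑ j, (c i j).natAbs := ⟨_, rfl⟩
  obtain ⟨b0, hb0⟩ : ∃ b0 : ℝ, b0 = min τ (min (1 / 8) (c2 / 2)) := ⟨_, rfl⟩
  have hb0p : 0 < b0 := by
    rw [hb0]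
    exact lt_min hτ (lt_min (by norm_num) (by linarith))
  have hb1 : b0 ≤ τ := by
    rw [hb0]
    exact min_le_left _ _
  have hb2 : b0 ≤ 1 / 8 := by
    rw [hb0]
    exact (min_le_right _ _).trans (min_le_left _ _)
  have hb3 : b0 ≤ c2 / 2 := by
    rw [hb0]
    exact (min_le_right _ _).trans (min_le_right _ _)
  obtain ⟨Q1, hQ1⟩ := u14_ev b0 hb0p (2 / ρ + Cv * (1 + 2 / ρ) ^ A + 2 * T + 2 * Cc / δ + 8 * Cv * T / δ +
    16 / δ ^ 2 + A + Cv)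
  refine ⟨c2 / 2, by linarith, Q9 + Q1 + 2, ?_⟩
  intro Q Z hQ hRg hLv X1 n0 hX1d hX1l hX1u hn0 B hBL hBv β hβ
  have hQ2 : 2 ≤ Q := by omega
  have hQr : (2 : ℝ) ≤ Q := by exact_mod_cast hQ2
  have hQ1r : (1 : ℝ) ≤ Q := by linarith
  have hQ0 : (0 : ℝ) < Q := by linarith
  have hΛ := hQ1 Q (by omega)
  have n1 : (0 : ℝ) ≤ 2 / ρ := by positivity
  have n2 : (0 : ℝ) ≤ Cv * (1 + 2 / ρ) ^ A := by positivity
  have n3 : (0 : ℝ) ≤ 2 * T := by positivity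
  have n4 : (0 : ℝ) ≤ 2 * Cc / δ := by positivity
  have n5 : (0 : ℝ) ≤ 8 * Cv * T / δ := by positivity
  have n6 : (0 : ℝ) ≤ 16 / δ ^ 2 := by positivity
  have hQbτ : (Q : ℝ) ^ b0 ≤ (Q : ℝ) ^ τ := Real.rpow_le_rpow_of_exponent_le hQ1r hb1
  have hQb8 : (Q : ℝ) ^ b0 ≤ (Q : ℝ) ^ (1 / 8 : ℝ) := Real.rpow_le_rpow_of_exponent_le hQ1r hb2
  have hQbc : (Q : ℝ) ^ b0 ≤ (Q : ℝ) ^ (c2 / 2) := Real.rpow_le_rpow_of_exponent_le hQ1r hb3
  have hQbQ : (Q : ℝ) ^ b0 ≤ Q := by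
    calc (Q : ℝ) ^ b0 ≤ (Q : ℝ) ^ (1 : ℝ) := Real.rpow_le_rpow_of_exponent_le hQ1r (by linarith)
      _ = Q := Real.rpow_one _
  have hQ12 : (Q : ℝ) ^ 12 ≤ Z := u14_rg (by linarith) hQ2 hRg
  have hQZ : (Q : ℝ) ≤ Z := by
    refine le_trans ?_ hQ12
    calc (Q : ℝ) = (Q : ℝ) ^ 1 := (pow_one _).symm
      _ ≤ (Q : ℝ) ^ 12 := pow_le_pow_right₀ hQ1r (by norm_num)
  have hZr : (1 : ℝ) ≤ Z := by linarith
  have hZ0 : (0 : ℝ) < Z := by linarith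
  have hZ1 : 1 ≤ Z := by exact_mod_cast hZr
  have hX1p : 0 < X1 := by
    have h1 : (0 : ℝ) < 2 * X1 := lt_of_lt_of_le (by positivity) hX1l
    have h2 : (0 : ℝ) < X1 := by linarith
    exact_mod_cast h2
  have hX1r : (0 : ℝ) < X1 := by exact_mod_cast hX1p
  have hZX : (Z : ℝ) ≤ (2 / ρ) * X1 := by
    rw [div_mul_eq_mul_div, le_div_iff₀ hρ]
    linarith
  have h2X1 : 2 * X1 ≤ Z := by
    have h1 : 2 * (X1 : ℝ) ≤ Z := by nlinarith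
    exact_mod_cast h1
  -- the translated data
  obtain ⟨β', hβ'⟩ : ∃ β' : Fin k → ℤ, β' = fun i => β i + (P i).eval (n0 : ℤ) := ⟨_, rfl⟩
  have hβ'b : ∀ i, |β' i| ≤ Ca * (Z : ℤ) ^ D i := by
    intro i
    rw [hβ']
    refine (abs_add_le _ _).trans ?_
    have h1 := hCp i n0 Z hZ1 hn0
    rw [(hP i).1] at h1
    have h2 := hβ i
    have h3 : ((Cp i : ℕ) : ℤ) ≤ ((∑ i, Cp i : ℕ) : ℤ) := by
      exact_mod_cast Finset.single_le_sum (f := Cp) (fun _ _ => Nat.zero_le _) (mem_univ i)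
    have h4 : ((Cp i : ℕ) : ℤ) * (Z : ℤ) ^ D i ≤ ((∑ i, Cp i : ℕ) : ℤ) * (Z : ℤ) ^ D i :=
      mul_le_mul_of_nonneg_right h3 (by positivity)
    calc |β i| + |(P i).eval (n0 : ℤ)| ≤ A * (Z : ℤ) ^ D i + ((∑ i, Cp i : ℕ) : ℤ) * (Z : ℤ) ^ D i := by linarith
      _ = Ca * (Z : ℤ) ^ D i := by
        rw [hCa]
        push_cast
        ring
  have hHD := U11_hasD D a P hP hD n0
  have hBv' : ∀ n ∈ Ico (n0 + X1) (n0 + 2 * X1), δ * Z ≤ ((B.eval (n : ℤ) : ℤ) : ℝ) ∧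
      ((B.eval (n : ℤ) : ℤ) : ℝ) ≤ A * Z := by
    intro n hn
    obtain ⟨h1, h2⟩ := hBv n hn
    exact ⟨(mul_le_mul_of_nonneg_right hδδ hZ0.le).trans h1, h2⟩
  have hAX : (A : ℝ) * X1 ≤ δ * Z := by
    calc (A : ℝ) * X1 ≤ A * (ρ * Z) := mul_le_mul_of_nonneg_left hX1u (by positivity)
      _ = (A * ρ) * Z := by ring
      _ ≤ δ * Z := mul_le_mul_of_nonneg_right hρ2 hZ0.le
  obtain ⟨Y, hYB, hY1, hY2⟩ := U11_geoB A hA δ hδ Z X1 n0 hX1p hAX B hBL hBv'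
  have hδZ : 16 / δ ^ 2 ≤ Z := by
    have hA0 : (0 : ℝ) ≤ A := by linarith
    linarith
  have hδ2 : 16 ≤ Z * δ ^ 2 := by
    rw [div_le_iff₀ (by positivity)] at hδZ
    exact hδZ
  have hMdlY : Mdl (Q ^ 100) Y 1 E0 p0 (fun _ => 0) := by
    refine (hLv Y ?_ ?_).2
    · have h1 : (δ * Z) ^ 2 ≤ (Y : ℝ) ^ 2 := pow_le_pow_left₀ (by positivity) hY1 2
      have h2 : (Z : ℝ) ≤ (δ * Z) ^ 2 := by
        have h3 : (δ * Z) ^ 2 = Z * (Z * δ ^ 2) := by ring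
        rw [h3]
        have h4 : (Z : ℝ) * 16 ≤ Z * (Z * δ ^ 2) := mul_le_mul_of_nonneg_left hδ2 hZ0.le
        linarith
      have h3 : (Z : ℝ) ≤ (Y : ℝ) ^ 2 := h2.trans h1
      exact_mod_cast h3
    · have hAZ : (A : ℝ) ≤ Z := by linarith
      have h1 : (Y : ℝ) ≤ (Z : ℝ) ^ (A + 2) := by
        calc (Y : ℝ) ≤ A * Z := by exact_mod_cast hY2
          _ ≤ Z * Z := mul_le_mul_of_nonneg_right hAZ hZ0.le
          _ = (Z : ℝ) ^ 2 := by ring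
          _ ≤ (Z : ℝ) ^ (A + 2) := pow_le_pow_right₀ hZr (by omega)
      exact_mod_cast h1
  have hcov' := hcov Z (8 * Q ^ 10) T δ ((Q : ℝ) ^ (-c2))
    (by have := Nat.one_le_pow 10 Q (by omega); omega) hδ hδ1 hTδ (by positivity)
    (by
      push_cast
      have h1 : 8 * Cv * T / δ ≤ Q := by
        have hA0 : (0 : ℝ) ≤ A := by linarith
        linarith
      rw [div_le_iff₀ hδ] at h1
      have h2 : (Q : ℝ) * (Q : ℝ) ^ 10 ≤ Z := by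
        refine le_trans ?_ hQ12
        calc (Q : ℝ) * (Q : ℝ) ^ 10 = (Q : ℝ) ^ 11 := by ring
          _ ≤ (Q : ℝ) ^ 12 := pow_le_pow_right₀ hQ1r (by norm_num)
      calc (Cv : ℝ) * T * (8 * (Q : ℝ) ^ 10) = (8 * Cv * T) * (Q : ℝ) ^ 10 := by ring
        _ ≤ (Q * δ) * (Q : ℝ) ^ 10 := mul_le_mul_of_nonneg_right h1 (by positivity)
        _ = (Q * (Q : ℝ) ^ 10) * δ := by ring
        _ ≤ Z * δ := mul_le_mul_of_nonneg_right h2 hδ.le)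
    β' hβ'b
    (fun t => (∀ i, 0 ≤ β i + lf c t i) ∧
      X1 * (((1 + E0) ^ (k + 1) - 1) * SSf (pr Q) (sys B P (hh c β t)) + (Q : ℝ) ^ (-(c2 / 2))) <
        |wct (sys B P (hh c β t)) (n0 + X1) X1 - X1 * SSf (pr Q) (sys B P (hh c β t))|)
    (fun M b s hM hs h1 h2 h3 h4 h5 => by
      have hMr : ∀ i, (M i : ℝ) ≤ (Q : ℝ) ^ b0 * (X1 : ℝ) ^ D i := by
        intro i
        have h6 : (Z : ℝ) ^ D i ≤ ((2 / ρ) * X1) ^ D i := pow_le_pow_left₀ hZ0.le hZX _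
        have h7 : (2 / ρ) ^ D i ≤ (1 + 2 / ρ) ^ A := by
          calc (2 / ρ) ^ D i ≤ (1 + 2 / ρ) ^ D i := pow_le_pow_left₀ n1 (by linarith) _
            _ ≤ (1 + 2 / ρ) ^ A := pow_le_pow_right₀ (by linarith) (hDA i).1
        calc (M i : ℝ) ≤ Cv * (Z : ℝ) ^ D i := h2 i
          _ ≤ Cv * ((2 / ρ) * X1) ^ D i := mul_le_mul_of_nonneg_left h6 (by positivity)
          _ = (Cv * (2 / ρ) ^ D i) * (X1 : ℝ) ^ D i := by rw [mul_pow]; ring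
          _ ≤ (Cv * (1 + 2 / ρ) ^ A) * (X1 : ℝ) ^ D i := by
            apply mul_le_mul_of_nonneg_right _ (by positivity)
            exact mul_le_mul_of_nonneg_left h7 (by positivity)
          _ ≤ (Q : ℝ) ^ b0 * (X1 : ℝ) ^ D i := by
            apply mul_le_mul_of_nonneg_right _ (by positivity)
            linarith
      have hM8 : ∀ i, 8 ∣ M i := fun i => (Dvd.intro _ rfl).trans (hM i)
      have hX1Z : X1 ≤ Z := by omega
      have hZXQ : Z ≤ X1 * Q := by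
        have h6 : (Z : ℝ) ≤ X1 * Q := by
          refine hZX.trans ?_
          rw [mul_comm]
          exact mul_le_mul_of_nonneg_left (by linarith) hX1r.le
        exact_mod_cast h6
      have hGeoU : GeoU A Q Z X1 (fun i => shf n0 (P i)) M := by
        refine hgeo Q Z Z X1 n0 M hZ1 hn0 h2X1 hX1d hX1p hX1Z hZXQ (fun i => ?_) (fun i => ?_) (fun i => ?_)
          (fun i => ?_)
        · refine Dvd.dvd.trans ?_ (hM i)
          exact Nat.mul_dvd_mul_left 8 (pow_dvd_pow Q (by norm_num))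
        · rw [(hP i).1]
          have h6 : (Cg : ℝ) * X1 * (Z : ℝ) ^ D i ≤ Z * M i := by
            have h7 : (Cg : ℝ) * X1 ≤ Cg * (ρ * Z) := mul_le_mul_of_nonneg_left hX1u (by positivity)
            have h8 : (Cg : ℝ) * (ρ * Z) ≤ (δ / 2) * Z := by nlinarith
            calc (Cg : ℝ) * X1 * (Z : ℝ) ^ D i ≤ ((δ / 2) * Z) * (Z : ℝ) ^ D i :=
                  mul_le_mul_of_nonneg_right (h7.trans h8) (by positivity)
              _ = Z * (δ * (Z : ℝ) ^ D i / 2) := by ring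
              _ ≤ Z * M i := mul_le_mul_of_nonneg_left (by linarith [h1 i]) hZ0.le
          exact_mod_cast h6
        · rw [(hP i).1, mul_comm]
          exact (hMr i).trans (mul_le_mul_of_nonneg_right hQb8 (by positivity))
        · rw [(hP i).1]
          exact hD i
      have hcell := h9 (fun i => shf n0 (P i)) hHD Q Z X1 Y M (B.comp (X + C (n0 : ℤ))) b s β' (by omega)
        ⟨by
          have hlogQ : 0 ≤ Real.log Q := Real.log_nonneg hQ1r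
          have := hRg.1
          nlinarith, hRg.2⟩ hGeoU hYB
        (by
          refine hZX.trans ?_
          rw [mul_comm]
          exact mul_le_mul_of_nonneg_left (by linarith) hX1r.le)
        (fun i => by
          rw [(hHD i).1, mul_comm]
          exact (hMr i).trans (mul_le_mul_of_nonneg_right hQbτ (by positivity)))
        (fun j => (h3 j).trans (mul_le_mul_of_nonneg_right (by linarith) (by positivity)))
        (fun j => (h4 j).trans (le_mul_of_one_le_left (by positivity) (by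
          exact Real.one_le_rpow hQ1r hτ.le)))
        (fun j => (Dvd.intro_left _ rfl).trans (hs j))
        (fun i => by
          have h6 : ∀ j ∈ (univ : Finset (Fin d)), ((|c i j| * (s j : ℤ) : ℤ) : ℝ) ≤
              ((c i j).natAbs : ℝ) * (Z : ℝ) ^ D i := by
            intro j _
            push_cast
            rw [Nat.cast_natAbs, Int.cast_abs]
            by_cases hc : c i j = 0
            · rw [hc]
              simp
            · have h7 := h4 j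
              rw [hB i j hc] at h7
              exact mul_le_mul_of_nonneg_left h7 (abs_nonneg _)
          have h7 : ((∑ j, |c i j| * (s j : ℤ) : ℤ) : ℝ) ≤ ((Q : ℤ) * (M i : ℤ) : ℤ) := by
            rw [Int.cast_sum]
            refine (Finset.sum_le_sum h6).trans ?_
            rw [← Finset.sum_mul]
            have h8 : ∑ j, ((c i j).natAbs : ℝ) ≤ Cc := by
              have h9 : ∑ j, (c i j).natAbs ≤ Cc := by
                rw [hCc]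
                exact Finset.single_le_sum (f := fun i => ∑ j, (c i j).natAbs) (fun _ _ => Nat.zero_le _)
                  (mem_univ i)
              exact_mod_cast h9
            have h9 : 2 * Cc / δ ≤ Q := by linarith
            rw [div_le_iff₀ hδ] at h9
            push_cast
            calc (∑ j, ((c i j).natAbs : ℝ)) * (Z : ℝ) ^ D i ≤ Cc * (Z : ℝ) ^ D i :=
                  mul_le_mul_of_nonneg_right h8 (by positivity)
              _ = (2 * Cc) * (Z : ℝ) ^ D i / 2 := by ring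
              _ ≤ (Q * δ) * (Z : ℝ) ^ D i / 2 := by
                apply div_le_div_of_nonneg_right _ (by norm_num)
                exact mul_le_mul_of_nonneg_right h9 (by positivity)
              _ = Q * (δ * (Z : ℝ) ^ D i / 2) := by ring
              _ ≤ Q * M i := mul_le_mul_of_nonneg_left (by linarith [h1 i]) hQ0.le
          exact_mod_cast h7)
        hMdlY
        (fun i => by
          have h6 := u14_ysc (A := A) hδ (hM8 i) (hD i) (hDA i).1 hZ1 (h1 i) (h2 i) hδZ (by linarith)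
          exact (hLv (Ysc (M i)) h6.1 h6.2).1)
        h5
      refine le_trans (Nat.cast_le.2 (Finset.card_le_card ?_)) hcell
      intro t ht
      rw [mem_filter] at ht ⊢
      obtain ⟨ht1, ht2, ht3⟩ := ht
      refine ⟨ht1, ?_⟩
      have h6 : ∀ i, 0 ≤ (P i).eval (n0 : ℤ) + β i + lf c t i := by
        intro i
        have h7 := (h5 t ht1 i).1
        rw [hβ'] at h7
        have h8 : (0 : ℤ) ≤ M i := by positivity
        have h9 : (P i).eval (n0 : ℤ) + β i + lf c t i = β i + (P i).eval (n0 : ℤ) + lf c t i := by ring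
        rw [h9]
        simp only at h7
        linarith
      have h7 := U11_sys c B P n0 β t ht2 h6
      rw [← hβ'] at h7
      have h8 : RPh X1 (B.comp (X + C (n0 : ℤ))) (fun i => shf n0 (P i)) (hh c β' t) =
          wct (sys B P (hh c β t)) (n0 + X1) X1 := by
        rw [U11_wct, h7, U11_wct_add]
      have h9 : SSf (pr Q) (sys (B.comp (X + C (n0 : ℤ))) (fun i => shf n0 (P i)) (hh c β' t)) =
          SSf (pr Q) (sys B P (hh c β t)) := by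
        rw [h7]
        exact U11_SS (sys B P (hh c β t)) (P2_sys B P (hh c β t)) (pr Q) (n0 : ℤ)
      rw [h8, h9]
      refine lt_of_le_of_lt ?_ ht3
      apply mul_le_mul_of_nonneg_left _ hX1r.le
      have h10 : (Q : ℝ) ^ (-c2) ≤ (Q : ℝ) ^ (-(c2 / 2)) :=
        Real.rpow_le_rpow_of_exponent_le hQ1r (by linarith)
      linarith)
  refine le_trans (Nat.cast_le.2 (Finset.card_le_card ?_)) (hcov'.trans ?_)
  · intro t ht
    rw [mem_filter] at ht ⊢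
    obtain ⟨ht1, ht2, ht3, ht4⟩ := ht
    refine ⟨?_, fun i => ?_, ht2, ht4⟩
    · unfold tb at ht1 ⊢
      rw [Fintype.mem_piFinset] at ht1 ⊢
      intro j
      have h2 := ht1 j
      rw [mem_Ico] at h2 ⊢
      refine ⟨h2.1, h2.2.trans_le ?_⟩
      have h3 : A * Z ^ e j + 1 ≤ Ca * Z ^ e j + 1 := by
        have : A ≤ Ca := by omega
        have := Nat.mul_le_mul_right (Z ^ e j) this
        omega
      have h4 : ((A * Z ^ e j + 1 : ℕ) : ℤ) ≤ ((Ca * Z ^ e j + 1 : ℕ) : ℤ) := by exact_mod_cast h3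
      linarith
    · have h3 := ht3 i
      rw [hβ']
      have h4 : β i + (P i).eval (n0 : ℤ) + lf c t i = (P i).eval (n0 : ℤ) + β i + lf c t i := by ring
      simp only
      rw [h4]
      exact (mul_le_mul_of_nonneg_right hδδ (by positivity)).trans h3
  · have h1 : (Cv : ℝ) * (Q : ℝ) ^ (-c2) ≤ (Q : ℝ) ^ (-(c2 / 2)) := by
      calc (Cv : ℝ) * (Q : ℝ) ^ (-c2) ≤ (Q : ℝ) ^ (c2 / 2) * (Q : ℝ) ^ (-c2) := by
            apply mul_le_mul_of_nonneg_right _ (by positivity)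
            linarith
        _ = (Q : ℝ) ^ (-(c2 / 2)) := by
            rw [← Real.rpow_add hQ0]
            congr 1
            ring
    rw [mul_comm ((Z : ℝ) ^ (∑ j, e j))]
    exact mul_le_mul_of_nonneg_right h1 (by positivity)

end Pool.Agent.H9P
end

-- from Lib.H9P.U16
section

/-!
# ASYP, chunk U16 (M/L): the core theorem
-/

open Finset Polynomial

namespace Pool.Agent.H9P

open Pool.Agent.Lib.H68T Pool.Agent.Lib.H18Q Pool.Agent.Lib.H59P Pool.Agent.Lib.H24P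
open Pool.Agent.HUP

theorem u16_val1 (P : ℤ[X]) (hl : 0 < P.leadingCoeff) : ∃ (C : ℝ) (n0 : ℕ), 1 ≤ C ∧ ∀ n : ℕ, n0 ≤ n →
    (n : ℝ) ^ P.natDegree ≤ 2 * ((P.eval (n : ℤ) : ℤ) : ℝ) ∧
      ((P.eval (n : ℤ) : ℤ) : ℝ) ≤ C * (n : ℝ) ^ P.natDegree := by
  have hinj : Function.Injective (Int.castRingHom ℝ) := Int.cast_injective
  obtain ⟨q, hq⟩ : ∃ q : ℝ[X], q = P.map (Int.castRingHom ℝ) := ⟨_, rfl⟩
  have hP0 : P ≠ 0 := by
    rintro rfl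
    simp at hl
  have hqd : q.natDegree = P.natDegree := by rw [hq, natDegree_map_eq_of_injective hinj]
  have hql : q.leadingCoeff = (P.leadingCoeff : ℝ) := by
    rw [hq, leadingCoeff_map_of_injective hinj]
    rfl
  have hq0 : q ≠ 0 := by
    intro h
    rw [h, leadingCoeff_zero] at hql
    have : P.leadingCoeff = 0 := by exact_mod_cast hql.symm
    omega
  have hdeg : q.degree = (X ^ P.natDegree : ℝ[X]).degree := by
    rw [degree_X_pow, degree_eq_natDegree hq0, hqd]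
  have h1 := Polynomial.div_tendsto_atTop_leadingCoeff_div_of_degree_eq q (X ^ P.natDegree : ℝ[X]) hdeg
  rw [leadingCoeff_X_pow, div_one, hql] at h1
  have hl1 : (1 : ℝ) ≤ (P.leadingCoeff : ℝ) := by exact_mod_cast hl
  have h2 := h1.comp (tendsto_natCast_atTop_atTop (R := ℝ))
  have h3 := h2.eventually (lt_mem_nhds (show (1 / 2 : ℝ) < (P.leadingCoeff : ℝ) by linarith))
  have h4 := h2.eventually (gt_mem_nhds (show (P.leadingCoeff : ℝ) < (P.leadingCoeff : ℝ) + 1 by linarith))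
  obtain ⟨N, hN⟩ := Filter.eventually_atTop.1 (h3.and h4)
  refine ⟨(P.leadingCoeff : ℝ) + 1, N + 1, by linarith, fun n hn => ?_⟩
  have h5 := hN n (by omega)
  have hn1 : (1 : ℝ) ≤ n := by exact_mod_cast (by omega : 1 ≤ n)
  have hnp : (0 : ℝ) < (n : ℝ) ^ P.natDegree := by positivity
  have hev : q.eval (n : ℝ) = ((P.eval (n : ℤ) : ℤ) : ℝ) := by
    rw [hq]
    have := Polynomial.eval_intCast_map (Int.castRingHom ℝ) P (n : ℤ)
    rw [Int.cast_natCast] at this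
    rw [this]
    rfl
  simp only [Function.comp_apply, eval_pow, eval_X, hev] at h5
  obtain ⟨h6, h7⟩ := h5
  rw [lt_div_iff₀ hnp] at h6
  rw [div_lt_iff₀ hnp] at h7
  exact ⟨by linarith, h7.le⟩

/-- Values of the polynomials. Proof. `a_i ≥ 1`: `P_i(n) ≥ n^(D_i)/2` for large `n`, `|P_i(n)| ≤ C n^(D_i)` for `n ≥ 1`. -/
theorem U16_val {k : ℕ} (D : Fin k → ℕ) (a : Fin k → ℤ) (P : Fin k → ℤ[X]) (hP : HasD D a P) (hD : ∀ i, 1 ≤ D i)
    (ha : ∀ i, 0 < a i) : ∃ (C : ℝ) (n0 : ℕ), 1 ≤ C ∧ ∀ n : ℕ, n0 ≤ n → ∀ i,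
    (n : ℝ) ^ D i ≤ 2 * (((P i).eval (n : ℤ) : ℤ) : ℝ) ∧ (((P i).eval (n : ℤ) : ℤ) : ℝ) ≤ C * (n : ℝ) ^ D i := by
  have h : ∀ i, ∃ (C : ℝ) (n0 : ℕ), 1 ≤ C ∧ ∀ n : ℕ, n0 ≤ n →
      (n : ℝ) ^ D i ≤ 2 * (((P i).eval (n : ℤ) : ℤ) : ℝ) ∧ (((P i).eval (n : ℤ) : ℤ) : ℝ) ≤ C * (n : ℝ) ^ D i := by
    intro i
    have := u16_val1 (P i) (by rw [(hP i).2]; exact ha i)
    rw [(hP i).1] at this
    exact this
  choose C n0 hC hn using h
  refine ⟨1 + ∑ i, C i, ∑ i, n0 i, ?_, ?_⟩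
  · have : 0 ≤ ∑ i, C i := sum_nonneg fun i _ => by linarith [hC i]
    linarith
  · intro n hn' i
    have h1 : n0 i ≤ n := (single_le_sum (f := n0) (fun _ _ => Nat.zero_le _) (mem_univ i)).trans hn'
    have h2 : C i ≤ 1 + ∑ i, C i := by
      have := single_le_sum (f := C) (fun j _ => by linarith [hC j]) (mem_univ i)
      linarith
    obtain ⟨h3, h4⟩ := hn i n h1
    exact ⟨h3, h4.trans (mul_le_mul_of_nonneg_right h2 (by positivity))⟩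

theorem u16_ev (B : ℤ[X]) (hB : B.natDegree = 1) (x : ℤ) : B.eval x = B.coeff 0 + B.leadingCoeff * x := by
  rw [eval_eq_sum_range, hB, Finset.sum_range_succ, Finset.sum_range_one, leadingCoeff, hB]
  ring

theorem u16_dec (A Z : ℕ) (B : ℤ[X]) (h : Dec A Z B) (n : ℤ) (hn : n ≤ Z) :
    (Z : ℤ) - n ≤ B.eval n ∧ B.eval n ≤ A * (Z + 1 - n) := by
  have h1 := h.pos
  have h2 := h.last
  have h3 := h.neg
  have h4 := h.lc
  rw [u16_ev B h.deg] at h1 h2 ⊢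
  have h5 : -B.leadingCoeff ≤ A := by omega
  obtain ⟨l, hl⟩ : ∃ l, l = B.leadingCoeff := ⟨_, rfl⟩
  rw [← hl] at h1 h2 h3 h5 ⊢
  constructor
  · have h6 := mul_nonneg (sub_nonneg.2 hn) (by omega : 0 ≤ -l - 1)
    linarith [mul_sub (Z - n : ℤ) (-l) 1, mul_comm (Z - n : ℤ) (-l), sub_mul (Z : ℤ) n (-l)]
  · have h6 := mul_le_mul_of_nonneg_right h5 (by omega : (0 : ℤ) ≤ Z + 1 - n)
    linarith [mul_sub (-l) ((Z : ℤ) + 1) n, neg_mul l ((Z : ℤ) + 1), neg_mul l n]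

theorem u16_cop {k : ℕ} (B : ℤ[X]) (hB : B.natDegree = 1) (P : Fin k → ℤ[X]) (h : Fin k → ℕ)
    (hN : NoFix (sys B P h)) : IsCoprime (B.coeff 0) (B.coeff 1) := by
  rw [Int.isCoprime_iff_gcd_eq_one]
  by_contra hg
  obtain ⟨l, hl, hd⟩ := Nat.exists_prime_and_dvd hg
  obtain ⟨n, hn⟩ := hN l hl
  have h0 := hn 0
  apply h0
  show (l : ℤ) ∣ B.eval n
  rw [u16_ev B hB, leadingCoeff, hB]
  have h1 : (l : ℤ) ∣ B.coeff 0 := (Int.natCast_dvd_natCast.2 hd).trans (Int.gcd_dvd_left _ _)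
  have h2 : (l : ℤ) ∣ B.coeff 1 := (Int.natCast_dvd_natCast.2 hd).trans (Int.gcd_dvd_right _ _)
  exact dvd_add h1 (h2.mul_right _)

theorem u16_cells (Z Q : ℕ) (ρ θ : ℝ) (hQ : 1 ≤ Q) (hρ : 0 < ρ) (hρθ : 8 * ρ ≤ θ) (hθ : 2 * θ ≤ 1)
    (h : (Q : ℝ) ^ 800 ≤ ρ * Z) :
    ∃ X1 ja jb : ℕ, Q ^ 800 ∣ X1 ∧ 0 < X1 ∧ ρ * Z ≤ 2 * X1 ∧ X1 ≤ ρ * Z ∧ ja ≤ jb ∧
      (((ja + 1) * X1 : ℕ) : ℝ) ≤ θ * Z ∧ θ / 4 * Z ≤ ja * X1 ∧ (1 - θ) * Z ≤ (((jb + 1) * X1 : ℕ) : ℝ) ∧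
      (((jb + 1) * X1 : ℕ) : ℝ) ≤ (1 - θ / 2) * Z ∧ (jb : ℝ) ≤ 2 / ρ := by
  have hQr : (0 : ℝ) < (Q : ℝ) ^ 800 := by
    have : (0 : ℝ) < Q := by exact_mod_cast hQ
    positivity
  have hZ : (0 : ℝ) < Z := by
    by_contra h0
    have : (Z : ℝ) ≤ 0 := by linarith
    nlinarith
  obtain ⟨m, hm⟩ : ∃ m : ℕ, m = ⌊ρ * Z / (Q : ℝ) ^ 800⌋₊ := ⟨_, rfl⟩
  have h1 : 1 ≤ ρ * Z / (Q : ℝ) ^ 800 := by rwa [le_div_iff₀ hQr, one_mul]
  have hm1 : 1 ≤ m := by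
    rw [hm]
    exact Nat.one_le_floor_iff _ |>.2 h1
  have hm2 : (m : ℝ) ≤ ρ * Z / (Q : ℝ) ^ 800 := by
    rw [hm]
    exact Nat.floor_le (by positivity)
  have hm3 : ρ * Z / (Q : ℝ) ^ 800 < m + 1 := by
    rw [hm]
    exact Nat.lt_floor_add_one _
  rw [le_div_iff₀ hQr] at hm2
  rw [div_lt_iff₀ hQr] at hm3
  have hm1r : (1 : ℝ) ≤ m := by exact_mod_cast hm1
  obtain ⟨X1, hX1⟩ : ∃ X1 : ℕ, X1 = Q ^ 800 * m := ⟨_, rfl⟩
  have hX1r : (X1 : ℝ) = (Q : ℝ) ^ 800 * m := by rw [hX1]; push_cast; ring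
  have hX1p : 0 < X1 := by
    rw [hX1]
    exact Nat.mul_pos (pow_pos (by omega) _) (by omega)
  have hX1p' : (0 : ℝ) < X1 := by exact_mod_cast hX1p
  have ha1 : ρ * Z ≤ 2 * X1 := by rw [hX1r]; nlinarith
  have ha2 : (X1 : ℝ) ≤ ρ * Z := by rw [hX1r]; linarith
  obtain ⟨ja, hja⟩ : ∃ ja : ℕ, ja = ⌈θ / 4 * Z / X1⌉₊ := ⟨_, rfl⟩
  obtain ⟨m2, hm2'⟩ : ∃ m2 : ℕ, m2 = ⌊(1 - θ / 2) * Z / X1⌋₊ := ⟨_, rfl⟩
  have hθ0 : 0 < θ := by linarith
  have hρZ : 8 * ρ * Z ≤ θ * Z := mul_le_mul_of_nonneg_right hρθ hZ.le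
  have hθZ : 2 * θ * Z ≤ 1 * Z := mul_le_mul_of_nonneg_right hθ hZ.le
  have hja1 : θ / 4 * Z ≤ ja * X1 := by
    have : θ / 4 * Z / X1 ≤ ja := by rw [hja]; exact Nat.le_ceil _
    rwa [div_le_iff₀ hX1p'] at this
  have hja2 : (ja : ℝ) * X1 ≤ θ / 4 * Z + X1 := by
    have : (ja : ℝ) < θ / 4 * Z / X1 + 1 := by rw [hja]; exact Nat.ceil_lt_add_one (by positivity)
    have h2 : (ja : ℝ) * X1 ≤ (θ / 4 * Z / X1 + 1) * X1 := mul_le_mul_of_nonneg_right this.le hX1p'.le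
    have h3 : (θ / 4 * Z / X1 + 1) * X1 = θ / 4 * Z + X1 := by field_simp
    linarith
  have hb0 : (0 : ℝ) ≤ (1 - θ / 2) * Z / X1 := by
    have : 0 ≤ 1 - θ / 2 := by linarith
    positivity
  have hb1 : (m2 : ℝ) * X1 ≤ (1 - θ / 2) * Z := by
    have : (m2 : ℝ) ≤ (1 - θ / 2) * Z / X1 := by rw [hm2']; exact Nat.floor_le hb0
    rwa [le_div_iff₀ hX1p'] at this
  have hb2 : (1 - θ / 2) * Z - X1 ≤ (m2 : ℝ) * X1 := by
    have : (1 - θ / 2) * Z / X1 < m2 + 1 := by rw [hm2']; exact Nat.lt_floor_add_one _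
    rw [div_lt_iff₀ hX1p'] at this
    linarith
  have hab : ja + 1 ≤ m2 := by
    by_contra hc
    have h2 : (m2 : ℝ) + 1 ≤ ja + 1 := by exact_mod_cast (by omega : m2 + 1 ≤ ja + 1)
    have h3 : ((m2 : ℝ) + 1) * X1 ≤ (ja + 1) * X1 := mul_le_mul_of_nonneg_right h2 hX1p'.le
    nlinarith
  have hm2e : ((m2 - 1 : ℕ) + 1) = m2 := by omega
  refine ⟨X1, ja, m2 - 1, ⟨m, hX1⟩, hX1p, ha1, ha2, by omega, ?_, hja1, ?_, ?_, ?_⟩
  · push_cast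
    nlinarith
  · rw [hm2e]
    push_cast
    nlinarith
  · rw [hm2e]
    push_cast
    exact hb1
  · have h2 : ((m2 - 1 : ℕ) : ℝ) ≤ m2 := by exact_mod_cast Nat.sub_le _ _
    refine h2.trans ?_
    rw [le_div_iff₀ hρ]
    have h3 : (m2 : ℝ) * X1 ≤ Z := by nlinarith
    have h4 : (m2 : ℝ) * (ρ * Z) ≤ m2 * (2 * X1) := mul_le_mul_of_nonneg_left ha1 (by positivity)
    have h5 : (m2 : ℝ) * ρ * Z ≤ 2 * Z := by nlinarith
    exact le_of_mul_le_mul_right h5 hZ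

theorem u16_lf {k d : ℕ} (c : Fin k → Fin d → ℤ) (e : Fin d → ℕ) (D : Fin k → ℕ) (hB : ∀ i j, c i j ≠ 0 → e j = D i)
    (A Z : ℕ) (t : Fin d → ℤ) (ht : t ∈ tb 0 fun j => A * Z ^ e j + 1) (i : Fin k) :
    lf c t i ≤ A * (∑ i, ∑ j, |c i j|) * (Z : ℤ) ^ D i := by
  have ht' : ∀ j, 0 ≤ t j ∧ t j ≤ A * (Z : ℤ) ^ e j := by
    intro j
    unfold tb at ht
    rw [Fintype.mem_piFinset] at ht
    have h := mem_Ico.1 (ht j)
    simp only [Pi.zero_apply] at h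
    push_cast at h
    exact ⟨h.1, by omega⟩
  have h1 : lf c t i ≤ ∑ j, |c i j| * (A * (Z : ℤ) ^ D i) := by
    unfold lf
    refine sum_le_sum fun j _ => ?_
    by_cases h0 : c i j = 0
    · rw [h0, zero_mul, abs_zero, zero_mul]
    · rw [← hB i j h0]
      exact mul_le_mul (le_abs_self _) (ht' j).2 (ht' j).1 (abs_nonneg _)
  refine h1.trans ?_
  rw [← sum_mul]
  have h2 : ∑ j, |c i j| ≤ ∑ i, ∑ j, |c i j| :=
    single_le_sum (f := fun i => ∑ j, |c i j|) (fun i _ => sum_nonneg fun j _ => abs_nonneg _) (mem_univ i)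
  have h3 : (0 : ℤ) ≤ A * (Z : ℤ) ^ D i := by positivity
  calc (∑ j, |c i j|) * (A * (Z : ℤ) ^ D i) ≤ (∑ i, ∑ j, |c i j|) * (A * (Z : ℤ) ^ D i) :=
        mul_le_mul_of_nonneg_right h2 h3
    _ = A * (∑ i, ∑ j, |c i j|) * (Z : ℤ) ^ D i := by ring

theorem u16_log (c C c2 ε : ℝ) (hc : 0 < c) (hC : 0 ≤ C) (hc2 : 0 < c2) (hε : 0 < ε) : ∃ Q0 : ℕ, ∀ Q : ℕ, Q0 ≤ Q →
    (Q : ℝ) ^ (-c2) ≤ ε * (c * (1 + Real.log Q) ^ (-C)) := by
  obtain ⟨s, hs⟩ : ∃ s : ℝ, s = c2 / (2 * (C + 1)) := ⟨_, rfl⟩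
  have hs0 : 0 < s := by rw [hs]; positivity
  obtain ⟨G, hG⟩ : ∃ G : ℝ, G = ε * c * (1 + 1 / s) ^ (-C) := ⟨_, rfl⟩
  have hG0 : 0 < G := by rw [hG]; positivity
  have h1 := (tendsto_rpow_atTop (show 0 < c2 / 2 by linarith)).comp (tendsto_natCast_atTop_atTop (R := ℝ))
  obtain ⟨N, hN⟩ := Filter.eventually_atTop.1 (h1.eventually_ge_atTop (1 / G))
  refine ⟨N + 1, fun Q hQ => ?_⟩
  have h2 := hN Q (by omega)
  simp only [Function.comp_apply] at h2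
  have hQ1 : (1 : ℝ) ≤ Q := by exact_mod_cast (by omega : 1 ≤ Q)
  have hQ0 : (0 : ℝ) < Q := by linarith
  have hl0 : 0 ≤ Real.log Q := Real.log_nonneg hQ1
  have h3 : Real.log Q ≤ (Q : ℝ) ^ s / s := Real.log_le_rpow_div hQ0.le hs0
  have hQs : (1 : ℝ) ≤ (Q : ℝ) ^ s := Real.one_le_rpow hQ1 hs0.le
  have h4 : 1 + Real.log Q ≤ (1 + 1 / s) * (Q : ℝ) ^ s := by
    have : (1 + 1 / s) * (Q : ℝ) ^ s = (Q : ℝ) ^ s + (Q : ℝ) ^ s / s := by ring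
    rw [this]
    linarith
  have h5 : ((1 + 1 / s) * (Q : ℝ) ^ s) ^ (-C) ≤ (1 + Real.log Q) ^ (-C) :=
    Real.rpow_le_rpow_of_nonpos (by linarith) h4 (by linarith)
  have h6 : ((1 + 1 / s) * (Q : ℝ) ^ s) ^ (-C) = (1 + 1 / s) ^ (-C) * (Q : ℝ) ^ (-(s * C)) := by
    rw [Real.mul_rpow (by positivity) (by positivity), ← Real.rpow_mul hQ0.le]
    congr 2
    ring
  have h7 : (Q : ℝ) ^ (-(c2 / 2)) ≤ (Q : ℝ) ^ (-(s * C)) := by
    refine Real.rpow_le_rpow_of_exponent_le hQ1 ?_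
    have : s * C ≤ c2 / 2 := by
      rw [hs, div_mul_eq_mul_div, div_le_div_iff₀ (by positivity) (by positivity)]
      nlinarith
    linarith
  have h8 : (Q : ℝ) ^ (-c2) ≤ G * (Q : ℝ) ^ (-(c2 / 2)) := by
    have e1 : (Q : ℝ) ^ (-(c2 / 2)) = (Q : ℝ) ^ (-c2) * (Q : ℝ) ^ (c2 / 2) := by
      rw [← Real.rpow_add hQ0]
      congr 1
      ring
    rw [e1]
    have h9 : 1 ≤ G * (Q : ℝ) ^ (c2 / 2) := by
      rw [div_le_iff₀ hG0] at h2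
      linarith
    have h10 : (0 : ℝ) ≤ (Q : ℝ) ^ (-c2) := by positivity
    nlinarith
  calc (Q : ℝ) ^ (-c2) ≤ G * (Q : ℝ) ^ (-(c2 / 2)) := h8
    _ ≤ G * (Q : ℝ) ^ (-(s * C)) := mul_le_mul_of_nonneg_left h7 hG0.le
    _ = ε * (c * ((1 + 1 / s) ^ (-C) * (Q : ℝ) ^ (-(s * C)))) := by rw [hG]; ring
    _ = ε * (c * ((1 + 1 / s) * (Q : ℝ) ^ s) ^ (-C)) := by rw [h6]
    _ ≤ ε * (c * (1 + Real.log Q) ^ (-C)) := by gcongr

theorem u16_E0 (k : ℕ) (ε : ℝ) (hε : 0 < ε) : ∃ E0 : ℝ, 0 < E0 ∧ E0 ≤ 1 ∧ (1 + E0) ^ (k + 1) - 1 ≤ ε := by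
  have hc : Continuous fun x : ℝ => (1 + x) ^ (k + 1) := by fun_prop
  have h1 := (hc.tendsto 0).eventually (gt_mem_nhds (show (1 + (0 : ℝ)) ^ (k + 1) < 1 + ε by
    rw [add_zero, one_pow]; linarith))
  obtain ⟨r, hr, h2⟩ := Metric.eventually_nhds_iff.1 h1
  refine ⟨min (r / 2) 1, lt_min (by linarith) one_pos, min_le_right _ _, ?_⟩
  have h3 := h2 (y := min (r / 2) 1) (by
    rw [Real.dist_eq, sub_zero, abs_of_pos (lt_min (by linarith) one_pos)]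
    exact (min_le_left _ _).trans_lt (by linarith))
  linarith

theorem u16_fin (x U SS Sz ε e : ℝ) (hU : 0 ≤ U) (hSS : 0 < SS) (he0 : 0 < e) (he : e ≤ 1) (heε : e ≤ ε)
    (h1 : |Sz - SS| ≤ e / 64 * SS) (h2 : |x - U * SS| ≤ e / 2 * (U * SS)) :
    |x - U * Sz| ≤ ε * (U * Sz) := by
  have h3 := abs_le.1 h1
  have h4 : SS ≤ 64 / 63 * Sz := by nlinarith
  have hSz : 0 < Sz := by linarith
  have h5 : |x - U * Sz| ≤ |x - U * SS| + U * |Sz - SS| := by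
    have e1 : x - U * Sz = (x - U * SS) - U * (Sz - SS) := by ring
    rw [e1]
    refine (abs_sub _ _).trans ?_
    rw [abs_mul, abs_of_nonneg hU]
  have h6 : U * |Sz - SS| ≤ U * (e / 64 * SS) := mul_le_mul_of_nonneg_left h1 hU
  have h7 : U * SS ≤ 64 / 63 * (U * Sz) := by nlinarith [mul_le_mul_of_nonneg_left h4 hU]
  have h8 : 0 ≤ U * Sz := mul_nonneg hU hSz.le
  calc |x - U * Sz| ≤ e / 2 * (U * SS) + U * (e / 64 * SS) := by linarith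
    _ = (33 / 64 * e) * (U * SS) := by ring
    _ ≤ (33 / 64 * e) * (64 / 63 * (U * Sz)) := mul_le_mul_of_nonneg_left h7 (by linarith)
    _ ≤ e * (U * Sz) := by nlinarith
    _ ≤ ε * (U * Sz) := mul_le_mul_of_nonneg_right heε h8

theorem u16_union {α : Type} (T : Finset α) (p r : α → Prop) (q : ℕ → α → Prop) [DecidablePred p] [DecidablePred r]
    [∀ j, DecidablePred (q j)] (a b : ℕ) (h : ∀ t ∈ T, p t → r t ∨ ∃ j ∈ Ico a b, q j t) (u v : ℝ)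
    (hq : ∀ j ∈ Ico a b, ((T.filter (q j)).card : ℝ) ≤ u) (hr : ((T.filter r).card : ℝ) ≤ v) :
    ((T.filter p).card : ℝ) ≤ ((b - a : ℕ) : ℝ) * u + v := by
  classical
  have h1 : T.filter p ⊆ T.filter r ∪ (Ico a b).biUnion fun j => T.filter (q j) := by
    intro t ht
    rw [mem_filter] at ht
    rw [mem_union, mem_filter, mem_biUnion]
    rcases h t ht.1 ht.2 with h2 | ⟨j, hj, h2⟩
    · exact Or.inl ⟨ht.1, h2⟩
    · exact Or.inr ⟨j, hj, mem_filter.2 ⟨ht.1, h2⟩⟩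
  have h2 : ((T.filter p).card : ℝ) ≤ (T.filter r).card + ∑ j ∈ Ico a b, ((T.filter (q j)).card : ℝ) := by
    have h3 := (card_le_card h1).trans ((card_union_le _ _).trans (Nat.add_le_add_left card_biUnion_le _))
    exact_mod_cast h3
  have h3 : ∑ j ∈ Ico a b, ((T.filter (q j)).card : ℝ) ≤ ((b - a : ℕ) : ℝ) * u := by
    refine (sum_le_sum hq).trans ?_
    rw [sum_const, Nat.card_Ico, nsmul_eq_mul]
  linarith

theorem u16_t {k : ℕ} (D : Fin k → ℕ) (hD : ∀ i, 1 ≤ D i) (φ : Fin (k + 1) → ℤ → ℤ) (Z Q X1 ja jb : ℕ)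
    (SS Sz θ1 θ Cs C ε : ℝ) (hSS : 0 < SS) (hε : 0 < ε) (hε1 : ε ≤ 1) (hθ : 0 < θ) (hQ : 2 ≤ Q) (hCs : 1 ≤ Cs)
    (hC : 1 ≤ C) (hZ : 2 ≤ Z) (hlZ : Real.log Z ≤ C * Real.log Q)
    (h3 : 24 * θ * (Cs * (∏ i, (D i : ℝ)) * C ^ (k + 1) + 1) ≤ ε) (h4 : 1 ≤ θ * Z) (hj : ja ≤ jb) (hX1 : 0 < X1)
    (ha : (((ja + 1) * X1 : ℕ) : ℝ) ≤ θ * Z) (ha' : θ / 4 * Z ≤ ja * X1) (hb : (1 - θ) * Z ≤ (((jb + 1) * X1 : ℕ) : ℝ))
    (hb' : (((jb + 1) * X1 : ℕ) : ℝ) ≤ (1 - θ / 2) * Z) (hθ1 : θ1 ≤ ε / 64 * SS)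
    (hcell : ∀ j ∈ Ico ja jb, |wct φ ((j + 1) * X1) X1 - X1 * SS| ≤ X1 * (ε / 64 * SS + θ1))
    (hcnt : ∀ j ∈ Ico ja jb, |(cnt φ ((j + 1) * X1) X1 : ℝ) * ((∏ i, (D i : ℝ)) * (Real.log Z) ^ (k + 1)) -
      wct φ ((j + 1) * X1) X1| ≤ ε / 16 * wct φ ((j + 1) * X1) X1)
    (h13 : ∀ n1 L : ℕ, 1 ≤ n1 → θ / 4 * Z ≤ L → (cnt φ n1 L : ℝ) ≤ Cs * L * SS / (Real.log Q) ^ (k + 1))
    (hSz : |Sz - SS| ≤ ε / 64 * SS) :
    |(cnt φ 1 Z : ℝ) - Z * (Sz / ((∏ i, (D i : ℝ)) * (Real.log Z) ^ (k + 1)))| ≤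
      ε * (Z * (Sz / ((∏ i, (D i : ℝ)) * (Real.log Z) ^ (k + 1)))) := by
  have hZr : (2 : ℝ) ≤ Z := by exact_mod_cast hZ
  have hQr : (2 : ℝ) ≤ Q := by exact_mod_cast hQ
  have hlogZ : 0 < Real.log Z := Real.log_pos (by linarith)
  have hlogQ : 0 < Real.log Q := Real.log_pos (by linarith)
  have hDp : 0 < ∏ i, (D i : ℝ) := prod_pos fun i _ => by exact_mod_cast hD i
  obtain ⟨Lg, hLg⟩ : ∃ Lg : ℝ, Lg = (∏ i, (D i : ℝ)) * (Real.log Z) ^ (k + 1) := ⟨_, rfl⟩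
  have hLg0 : 0 < Lg := by rw [hLg]; positivity
  obtain ⟨Cb, hCb⟩ : ∃ Cb : ℝ, Cb = Cs * (∏ i, (D i : ℝ)) * C ^ (k + 1) := ⟨_, rfl⟩
  have hCb0 : 0 ≤ Cb := by rw [hCb]; positivity
  rw [← hLg] at hcnt ⊢
  rw [← hCb] at h3
  have hLgQ : Lg ≤ (∏ i, (D i : ℝ)) * C ^ (k + 1) * (Real.log Q) ^ (k + 1) := by
    rw [hLg, mul_assoc, ← mul_pow]
    exact mul_le_mul_of_nonneg_left (pow_le_pow_left₀ hlogZ.le hlZ _) hDp.le
  have hbZ : (((jb + 1) * X1 : ℕ) : ℝ) ≤ Z := by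
    have : 0 ≤ θ / 2 * Z := by positivity
    linarith
  have hgen : ∀ n1 L L' : ℕ, 1 ≤ n1 → θ / 4 * Z ≤ L → L ≤ L' → (cnt φ n1 L : ℝ) * Lg ≤ Cb * L' * SS := by
    intro n1 L L' hn1 hL hLL
    have h5 := h13 n1 L hn1 hL
    have hLr : (L : ℝ) ≤ L' := by exact_mod_cast hLL
    have hlq : 0 < (Real.log Q) ^ (k + 1) := pow_pos hlogQ _
    calc (cnt φ n1 L : ℝ) * Lg ≤ Cs * L * SS / (Real.log Q) ^ (k + 1) *
          ((∏ i, (D i : ℝ)) * C ^ (k + 1) * (Real.log Q) ^ (k + 1)) :=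
          mul_le_mul h5 hLgQ hLg0.le (by positivity)
      _ = Cb * L * SS := by
          rw [hCb]
          field_simp
      _ ≤ Cb * L' * SS := by gcongr
  have h5 := U15_sum φ Z X1 ja jb SS Lg (ε / 64) θ1 (ε / 16) θ Cb (ε / 2) hSS hLg0 (by linarith) (by linarith)
    (by linarith) (by linarith) (by linarith) (by linarith) hθ hCb0 (by linarith) h4 hj hX1 ha hb (by
      exact_mod_cast hbZ) hθ1 hcell hcnt (by
      refine hgen 1 _ _ le_rfl ?_ (Nat.sub_le _ _)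
      have h6 : ja * X1 ≤ (ja + 1) * X1 - 1 := by
        have : (ja + 1) * X1 = ja * X1 + X1 := by ring
        omega
      have h7 : ((ja * X1 : ℕ) : ℝ) ≤ (((ja + 1) * X1 - 1 : ℕ) : ℝ) := by exact_mod_cast h6
      push_cast at h7 ⊢
      linarith) (by
      refine hgen _ _ _ (Nat.one_le_iff_ne_zero.2 (Nat.mul_ne_zero (by omega) (by omega))) ?_ le_rfl
      have h7 : (jb + 1) * X1 ≤ Z := by exact_mod_cast hbZ
      rw [Nat.cast_sub (by omega)]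
      have h8 : 0 ≤ θ / 4 * Z := by positivity
      push_cast at hb' ⊢
      linarith)
  have hU : (0 : ℝ) ≤ Z / Lg := by positivity
  have e1 : ∀ s : ℝ, (Z : ℝ) * (s / Lg) = Z / Lg * s := by
    intro s
    ring
  rw [e1] at h5 ⊢
  exact u16_fin _ _ SS Sz ε ε hU hSS hε hε1 le_rfl hSz h5

open Classical in
theorem u16_core1 {k d : ℕ} (c : Fin k → Fin d → ℤ) (e : Fin d → ℕ) (D : Fin k → ℕ) (a : Fin k → ℤ)
    (hF : FGTU c D a) (hS : S4TU c e D a) (he : ∀ j, 1 ≤ e j) (hB : ∀ i j, c i j ≠ 0 → e j = D i)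
    (hD : ∀ i, 1 ≤ D i) (ha : ∀ i, 0 < a i) (P : Fin k → ℤ[X]) (hP : HasD D a P) (δ1 : ℝ) (hδ1 : 0 < δ1)
    (h10 : ∀ (A : ℕ) (C δ : ℝ), 1 ≤ A → 0 < δ → ∃ c1 : ℝ, 0 < c1 ∧ ∃ Q0 : ℕ, ∀ Q Z z : ℕ, Q0 ≤ Q →
      Real.log Z ≤ C * Real.log Q → (Q : ℝ) ≤ (Z : ℝ) ^ δ1 → (Z : ℝ) ^ δ ≤ z → (z : ℝ) ≤ (Z : ℝ) ^ δ1 →
      ∀ B : ℤ[X], Lin A B → ∀ β : Fin k → ℤ,
      (((tb 0 fun j => A * Z ^ e j + 1).filter fun t => (∀ i, 0 ≤ β i + lf c t i) ∧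
        (Q : ℝ) ^ (-c1) < |SSf (pr z) (sys B P (hh c β t)) - SSf (pr Q) (sys B P (hh c β t))|).card : ℝ) ≤
        (Z : ℝ) ^ (∑ j, e j) * (Q : ℝ) ^ (-c1))
    (A : ℕ) (hA : 1 ≤ A) (hDA : ∀ i, D i ≤ A ∧ (a i).natAbs ≤ A) (ε δ : ℝ) (hε : 0 < ε) (hε1 : ε ≤ 1) (hδ : 0 < δ) :
    ∃ η : ℝ, 0 < η ∧ ∀ M0 : ℕ, ∃ M : ℕ, M0 ≤ M ∧ 1 ≤ M ∧
    ∀ Z : ℕ, M ≤ Z → Z ≤ M ^ A → ∀ B : ℤ[X], Dec A Z B → ∀ β : Fin k → ℤ, (∀ i, |β i| ≤ A * (Z : ℤ) ^ D i) →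
    ∀ z : ℕ, (Z : ℝ) ^ δ ≤ z → (z : ℝ) ≤ (Z : ℝ) ^ δ1 →
    (((tb 0 fun j => A * Z ^ e j + 1).filter fun t => (∀ i, 0 ≤ β i + lf c t i) ∧ NoFix (sys B P (hh c β t)) ∧
      ε * (Z * dens D z Z (sys B P (hh c β t))) <
        |(cnt (sys B P (hh c β t)) 1 Z : ℝ) - Z * dens D z Z (sys B P (hh c β t))|).card : ℝ) ≤
      (Z : ℝ) ^ ((∑ j, (e j : ℝ)) - η) := by
  obtain ⟨E0, hE0, hE01, hE0ε⟩ := u16_E0 k (ε / 64) (by positivity)
  obtain ⟨Cs, Ks, hCs, hKs, Q13, h13⟩ := U13_sieve k A hA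
  obtain ⟨K1, hK1, h14⟩ := U14_main c e D a hF hS he hB hD P hP A hA hDA
  obtain ⟨K, hK⟩ : ∃ K : ℝ, K = K1 + Ks + 1 / δ1 + 1000 := ⟨_, rfl⟩
  have hδi : 0 < 1 / δ1 := by positivity
  obtain ⟨C, hC, h8⟩ := U8_level (2 * A * (A + 2)) (Nat.one_le_iff_ne_zero.2 (by positivity)) E0 K hE0
  have hDp1 : (1 : ℝ) ≤ ∏ i, (D i : ℝ) := by
    have : 0 < ∏ i, D i := Finset.prod_pos fun i _ => hD i
    exact_mod_cast this
  obtain ⟨Cb, hCb⟩ : ∃ Cb : ℝ, Cb = Cs * (∏ i, (D i : ℝ)) * C ^ (k + 1) := ⟨_, rfl⟩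
  have hCb0 : 0 ≤ Cb := by rw [hCb]; positivity
  obtain ⟨θ, hθ⟩ : ∃ θ : ℝ, θ = ε / (24 * (Cb + 1)) := ⟨_, rfl⟩
  have hθ0 : 0 < θ := by rw [hθ]; positivity
  have hθ24 : 24 * θ * (Cb + 1) = ε := by rw [hθ]; field_simp
  have hθ1 : 24 * θ ≤ 1 := by
    have : 24 * θ ≤ 24 * θ * (Cb + 1) := le_mul_of_one_le_right (by linarith) (by linarith)
    linarith
  obtain ⟨δ2, hδ2⟩ : ∃ δ2 : ℝ, δ2 = (θ / 8) ^ A / 4 := ⟨_, rfl⟩
  have hδ20 : 0 < δ2 := by rw [hδ2]; positivity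
  have hθ8 : θ / 8 ≤ 1 := by linarith
  have hδD : ∀ i, δ2 ≤ (θ / 4) ^ D i / 2 := by
    intro i
    have h1 : (θ / 8) ^ A ≤ (θ / 8) ^ D i := pow_le_pow_of_le_one (by positivity) hθ8 (hDA i).1
    have h2 : (θ / 8) ^ D i ≤ (θ / 4) ^ D i := pow_le_pow_left₀ (by positivity) (by linarith) _
    have h3 : (0 : ℝ) ≤ (θ / 4) ^ D i := by positivity
    rw [hδ2]
    linarith
  have hδθ : δ2 ≤ θ / 2 := by
    have h1 : (θ / 8) ^ A ≤ (θ / 8) ^ 1 := pow_le_pow_of_le_one (by positivity) hθ8 hA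
    rw [pow_one] at h1
    rw [hδ2]
    linarith
  obtain ⟨ρ0, hρ0, h14b⟩ := h14 C E0 δ2 hE0.le hE01 hδ20
  obtain ⟨ρ, hρ⟩ : ∃ ρ : ℝ, ρ = min ρ0 (θ / 8) := ⟨_, rfl⟩
  have hρp : 0 < ρ := by rw [hρ]; exact lt_min hρ0 (by positivity)
  have hρ1 : ρ ≤ ρ0 := by rw [hρ]; exact min_le_left _ _
  have hρ2 : 8 * ρ ≤ θ := by
    have : ρ ≤ θ / 8 := by rw [hρ]; exact min_le_right _ _
    linarith
  obtain ⟨c1, hc1, Q14, h14c⟩ := h14b ρ hρp hρ1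
  obtain ⟨c1', hc1', Q10, h10c⟩ := h10 A C δ hA hδ
  obtain ⟨c2, hc2⟩ : ∃ c2 : ℝ, c2 = min c1 c1' := ⟨_, rfl⟩
  have hc20 : 0 < c2 := by rw [hc2]; exact lt_min hc1 hc1'
  have hc21 : c2 ≤ c1 := by rw [hc2]; exact min_le_left _ _
  have hc22 : c2 ≤ c1' := by rw [hc2]; exact min_le_right _ _
  obtain ⟨Cl, cl, hCl, hcl, h2⟩ := X2_low k A hA
  obtain ⟨Ql, hQl⟩ := u16_log cl Cl c2 (ε / 64) hcl (by linarith) hc20 (by positivity)
  obtain ⟨CP, nP, hCP, hval⟩ := U16_val D a P hP hD ha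
  obtain ⟨Sc, hSc⟩ : ∃ Sc : ℤ, Sc = ∑ i, ∑ j, |c i j| := ⟨_, rfl⟩
  have hSc0 : (0 : ℤ) ≤ Sc := by rw [hSc]; exact sum_nonneg fun i _ => sum_nonneg fun j _ => abs_nonneg _
  have hSc0r : (0 : ℝ) ≤ (Sc : ℝ) := by exact_mod_cast hSc0
  have hAr : (1 : ℝ) ≤ (A : ℝ) := by exact_mod_cast hA
  obtain ⟨Cz, hCz⟩ : ∃ Cz : ℝ, Cz = CP + A + A * Sc := ⟨_, rfl⟩
  have hASc : (0 : ℝ) ≤ A * Sc := mul_nonneg (by linarith) hSc0r
  have hCz1 : 1 ≤ Cz := by rw [hCz]; linarith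
  obtain ⟨Z12, h12⟩ := U12_wt D hD δ2 Cz (ε / 16) hδ20 hCz1 (by positivity)
  obtain ⟨η, hη⟩ : ∃ η : ℝ, η = c2 / (2 * C) := ⟨_, rfl⟩
  have hη0 : 0 < η := by rw [hη]; positivity
  have hZη : ∃ Zη : ℕ, ∀ Z : ℕ, Zη ≤ Z → 2 / ρ + 1 ≤ (Z : ℝ) ^ η := by
    have h1 := (tendsto_rpow_atTop hη0).comp (tendsto_natCast_atTop_atTop (R := ℝ))
    obtain ⟨N, hN⟩ := Filter.eventually_atTop.1 (h1.eventually_ge_atTop (2 / ρ + 1))
    exact ⟨N, fun Z hZ => hN Z hZ⟩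
  obtain ⟨Zη, hZη⟩ := hZη
  refine ⟨η, hη0, fun M0 => ?_⟩
  obtain ⟨N0, hN0⟩ : ∃ N0 : ℕ, N0 = M0 + Q13 + Q14 + Q10 + Ql + Z12 + Zη + ⌈4 * nP / θ⌉₊ + ⌈1 / ρ⌉₊ + ⌈4 / θ⌉₊ + 3 :=
    ⟨_, rfl⟩
  obtain ⟨M8, Q, hM8, hQ, h8b⟩ := h8 N0
  have hM81 : 1 ≤ M8 := by omega
  have hM8s : M8 ≤ M8 ^ 2 := Nat.le_self_pow (by norm_num) M8
  refine ⟨M8 ^ 2, by omega, by omega, ?_⟩
  intro Z hZ hZA B hBd β hβ z hz1 hz2
  have hZM : M8 ≤ Z := hM8s.trans hZ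
  have hZN : N0 ≤ Z := hM8.trans hZM
  have hZ3 : 3 ≤ Z := by omega
  have hQ3 : 3 ≤ Q := by omega
  have hZr : (3 : ℝ) ≤ Z := by exact_mod_cast hZ3
  have hQr : (3 : ℝ) ≤ Q := by exact_mod_cast hQ3
  have hZ0 : (0 : ℝ) < Z := by linarith
  have hQ0 : (0 : ℝ) < Q := by linarith
  have hlogQ : 0 < Real.log Q := Real.log_pos (by linarith)
  have hlogZ : 0 < Real.log Z := Real.log_pos (by linarith)
  -- the range of lengths
  have hexp : (M8 ^ 2) ^ (A * (A + 2)) = M8 ^ (2 * A * (A + 2)) := by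
    rw [← pow_mul]
    congr 1
    ring
  have hZup : Z ^ (A + 2) ≤ M8 ^ (2 * A * (A + 2)) := by
    rw [← hexp, pow_mul]
    exact Nat.pow_le_pow_left hZA _
  have hZup1 : Z ≤ M8 ^ (2 * A * (A + 2)) := (Nat.le_self_pow (by omega) Z).trans hZup
  have hLv : Lv A Q Z E0 := by
    intro Y hY1 hY2
    have hY3 : M8 ≤ Y := by
      have h1 : M8 ^ 2 ≤ Y ^ 2 := hZ.trans hY1
      exact (Nat.pow_le_pow_iff_left (by norm_num)).1 h1
    have h1 := h8b Y hY3 (hY2.trans hZup)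
    exact ⟨h1.2.2.1, h1.2.2.2⟩
  obtain ⟨hRg1, hRg2, -, -⟩ := h8b Z hZM hZup1
  have hRg1' : ∀ K' : ℝ, K' ≤ K → K' * Real.log Q ≤ Real.log Z := fun K' hK' =>
    (mul_le_mul_of_nonneg_right hK' hlogQ.le).trans hRg1
  have hRgK1 : Rg K1 C Q Z := ⟨hRg1' K1 (by linarith), hRg2⟩
  -- sizes
  have hceil1 : 4 * (nP : ℝ) / θ ≤ Z := by
    refine (Nat.le_ceil _).trans ?_
    exact_mod_cast (by omega : ⌈4 * (nP : ℝ) / θ⌉₊ ≤ Z)
  have hceil2 : 1 / ρ ≤ Q := by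
    refine (Nat.le_ceil _).trans ?_
    exact_mod_cast (by omega : ⌈1 / ρ⌉₊ ≤ Q)
  have hceil3 : 4 / θ ≤ Q := by
    refine (Nat.le_ceil _).trans ?_
    exact_mod_cast (by omega : ⌈4 / θ⌉₊ ≤ Q)
  have hceil3' : 4 / θ ≤ Z := by
    refine (Nat.le_ceil _).trans ?_
    exact_mod_cast (by omega : ⌈4 / θ⌉₊ ≤ Z)
  have hQ1000 : (Q : ℝ) ^ 1000 ≤ Z := by
    rw [← Real.log_le_log_iff (by positivity) hZ0, Real.log_pow]
    have := hRg1' 1000 (by linarith)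
    push_cast
    exact this
  have hQ800 : (Q : ℝ) ^ 800 ≤ ρ * Z := by
    have h1 : 1 ≤ ρ * Q := by
      rw [div_le_iff₀ hρp] at hceil2
      linarith
    have h2 : (Q : ℝ) ^ 800 * Q ≤ (Q : ℝ) ^ 1000 := by
      rw [← pow_succ]
      exact pow_le_pow_right₀ (by linarith) (by norm_num)
    have h3 : (0 : ℝ) < (Q : ℝ) ^ 800 := by positivity
    calc (Q : ℝ) ^ 800 ≤ (Q : ℝ) ^ 800 * (ρ * Q) := le_mul_of_one_le_right h3.le h1
      _ = ρ * ((Q : ℝ) ^ 800 * Q) := by ring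
      _ ≤ ρ * Z := mul_le_mul_of_nonneg_left (h2.trans hQ1000) hρp.le
  obtain ⟨X1, ja, jb, hXd, hX1, hX2, hX3, hjab, hja1, hja2, hjb1, hjb2, hjb3⟩ :=
    u16_cells Z Q ρ θ (by omega) hρp hρ2 (by linarith) hQ800
  -- the case where there is no parameter without fixed divisor
  by_cases hex : ∃ t : Fin d → ℤ, NoFix (sys B P (hh c β t))
  swap
  · have h0 : ((tb 0 fun j => A * Z ^ e j + 1).filter fun t => (∀ i, 0 ≤ β i + lf c t i) ∧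
        NoFix (sys B P (hh c β t)) ∧ ε * (Z * dens D z Z (sys B P (hh c β t))) <
        |(cnt (sys B P (hh c β t)) 1 Z : ℝ) - Z * dens D z Z (sys B P (hh c β t))|) = ∅ := by
      refine filter_eq_empty_iff.2 fun t _ h => hex ⟨t, h.2.1⟩
    rw [h0, card_empty, Nat.cast_zero]
    positivity
  obtain ⟨t0, ht0⟩ := hex
  have hLin : Lin A B := ⟨hBd.deg, hBd.lc, u16_cop B hBd.deg P _ ht0⟩
  have hPol : Pol A P := by
    refine ⟨fun i => ?_, fun i => ?_, fun i => ?_⟩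
    · rw [(hP i).1]; exact hD i
    · rw [(hP i).1]; exact (hDA i).1
    · rw [(hP i).2]; exact (hDA i).2
  have hθZ' : (1 - θ / 2) * (Z : ℝ) ≤ Z := by
    have : 0 ≤ θ / 2 * Z := by positivity
    linarith
  -- values of the linear coordinate
  have hBv : ∀ n : ℕ, 1 ≤ n → (n : ℝ) ≤ (1 - θ / 2) * Z →
      δ2 * Z ≤ ((B.eval (n : ℤ) : ℤ) : ℝ) ∧ ((B.eval (n : ℤ) : ℤ) : ℝ) ≤ A * Z := by
    intro n hn1 hn2
    have hnZ : (n : ℝ) ≤ Z := hn2.trans hθZ'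
    have hnZ' : n ≤ Z := by exact_mod_cast hnZ
    obtain ⟨h3, h4⟩ := u16_dec A Z B hBd n (by exact_mod_cast hnZ')
    have h3' : (Z : ℝ) - n ≤ ((B.eval (n : ℤ) : ℤ) : ℝ) := by exact_mod_cast h3
    have h4' : ((B.eval (n : ℤ) : ℤ) : ℝ) ≤ A * (Z + 1 - n) := by exact_mod_cast h4
    have hn1r : (1 : ℝ) ≤ n := by exact_mod_cast hn1
    constructor
    · have : δ2 * Z ≤ θ / 2 * Z := mul_le_mul_of_nonneg_right hδθ hZ0.le
      linarith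
    · refine h4'.trans (mul_le_mul_of_nonneg_left (by linarith) (by linarith))
  -- values of the polynomials
  have hPv : ∀ n : ℕ, θ / 4 * Z ≤ n → ∀ i, δ2 * (Z : ℝ) ^ D i ≤ (((P i).eval (n : ℤ) : ℤ) : ℝ) ∧
      (((P i).eval (n : ℤ) : ℤ) : ℝ) ≤ CP * (n : ℝ) ^ D i := by
    intro n hn i
    have hnP : nP ≤ n := by
      have h1 : (nP : ℝ) ≤ n := by
        rw [div_le_iff₀ hθ0] at hceil1
        linarith
      exact_mod_cast h1
    obtain ⟨h3, h4⟩ := hval n hnP i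
    refine ⟨?_, h4⟩
    have h5 : (θ / 4 * Z) ^ D i ≤ (n : ℝ) ^ D i := pow_le_pow_left₀ (by positivity) hn _
    rw [mul_pow] at h5
    have h6 : δ2 * (Z : ℝ) ^ D i ≤ (θ / 4) ^ D i / 2 * (Z : ℝ) ^ D i :=
      mul_le_mul_of_nonneg_right (hδD i) (by positivity)
    linarith
  -- the union of the exceptional sets
  have hjZ : ∀ j ∈ Ico ja jb, θ / 4 * Z ≤ ((j * X1 : ℕ) : ℝ) ∧ (((j + 2) * X1 : ℕ) : ℝ) ≤ (1 - θ / 2) * Z := by
    intro j hj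
    rw [mem_Ico] at hj
    constructor
    · have h1 : ((ja * X1 : ℕ) : ℝ) ≤ ((j * X1 : ℕ) : ℝ) := by exact_mod_cast Nat.mul_le_mul_right _ hj.1
      push_cast at h1 ⊢
      linarith
    · have h1 : (((j + 2) * X1 : ℕ) : ℝ) ≤ (((jb + 1) * X1 : ℕ) : ℝ) := by
        exact_mod_cast Nat.mul_le_mul_right _ (by omega)
      linarith
  have hU := u16_union (tb 0 fun j => A * Z ^ e j + 1)
    (fun t => (∀ i, 0 ≤ β i + lf c t i) ∧ NoFix (sys B P (hh c β t)) ∧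
      ε * (Z * dens D z Z (sys B P (hh c β t))) <
        |(cnt (sys B P (hh c β t)) 1 Z : ℝ) - Z * dens D z Z (sys B P (hh c β t))|)
    (fun t => (∀ i, 0 ≤ β i + lf c t i) ∧
      (Q : ℝ) ^ (-c1') < |SSf (pr z) (sys B P (hh c β t)) - SSf (pr Q) (sys B P (hh c β t))|)
    (fun j t => (∀ i, 0 ≤ β i + lf c t i) ∧
      (∀ i, δ2 * (Z : ℝ) ^ D i ≤ (((P i).eval ((j * X1 : ℕ) : ℤ) + β i + lf c t i : ℤ) : ℝ)) ∧
      X1 * (((1 + E0) ^ (k + 1) - 1) * SSf (pr Q) (sys B P (hh c β t)) + (Q : ℝ) ^ (-c1)) <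
        |wct (sys B P (hh c β t)) (j * X1 + X1) X1 - X1 * SSf (pr Q) (sys B P (hh c β t))|)
    ja jb ?_ ((Z : ℝ) ^ (∑ j, e j) * (Q : ℝ) ^ (-c1)) ((Z : ℝ) ^ (∑ j, e j) * (Q : ℝ) ^ (-c1')) ?_ ?_
  · -- conclusion
    refine hU.trans ?_
    have hW : (0 : ℝ) < (Z : ℝ) ^ (∑ j, e j) := by positivity
    have h1 : (Q : ℝ) ^ (-c1) ≤ (Q : ℝ) ^ (-c2) := Real.rpow_le_rpow_of_exponent_le (by linarith) (by linarith)
    have h2 : (Q : ℝ) ^ (-c1') ≤ (Q : ℝ) ^ (-c2) := Real.rpow_le_rpow_of_exponent_le (by linarith) (by linarith)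
    have h3 : (Q : ℝ) ^ (-c2) ≤ (Z : ℝ) ^ (-(2 * η)) := by
      rw [Real.rpow_def_of_pos hQ0, Real.rpow_def_of_pos hZ0]
      refine Real.exp_le_exp.2 ?_
      have h4 : 2 * η * Real.log Z ≤ c2 * Real.log Q := by
        have e1 : 2 * η = c2 / C := by rw [hη]; field_simp
        rw [e1, div_mul_eq_mul_div, div_le_iff₀ (by linarith)]
        calc c2 * Real.log Z ≤ c2 * (C * Real.log Q) := mul_le_mul_of_nonneg_left hRg2 hc20.le
          _ = c2 * Real.log Q * C := by ring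
      linarith
    have h4 : ((jb - ja : ℕ) : ℝ) ≤ 2 / ρ := by
      refine le_trans ?_ hjb3
      exact_mod_cast Nat.sub_le _ _
    have h5 : 2 / ρ + 1 ≤ (Z : ℝ) ^ η := hZη Z (by omega)
    have h6 : (Z : ℝ) ^ η * (Z : ℝ) ^ (-(2 * η)) = (Z : ℝ) ^ (-η) := by
      rw [← Real.rpow_add hZ0]
      congr 1
      ring
    have hq : (0 : ℝ) ≤ (Q : ℝ) ^ (-c2) := by positivity
    calc ((jb - ja : ℕ) : ℝ) * ((Z : ℝ) ^ (∑ j, e j) * (Q : ℝ) ^ (-c1)) + (Z : ℝ) ^ (∑ j, e j) * (Q : ℝ) ^ (-c1')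
        ≤ 2 / ρ * ((Z : ℝ) ^ (∑ j, e j) * (Q : ℝ) ^ (-c2)) + (Z : ℝ) ^ (∑ j, e j) * (Q : ℝ) ^ (-c2) := by gcongr
      _ = (Z : ℝ) ^ (∑ j, e j) * ((2 / ρ + 1) * (Q : ℝ) ^ (-c2)) := by ring
      _ ≤ (Z : ℝ) ^ (∑ j, e j) * ((Z : ℝ) ^ η * (Z : ℝ) ^ (-(2 * η))) := by gcongr
      _ = (Z : ℝ) ^ ((∑ j, (e j : ℝ)) - η) := by
          rw [h6, sub_eq_add_neg, Real.rpow_add hZ0, ← Nat.cast_sum, Real.rpow_natCast]
  · -- one parameter
    rintro t ht ⟨hnn, hNF, hbad⟩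
    by_contra hcon
    push Not at hcon
    obtain ⟨hc10, hc14⟩ := hcon
    have hSSlow := h2 B hLin P hPol (hh c β t) hNF Q (by omega) (pr Q) (Subset.refl _)
    have hlq := hQl Q (by omega)
    obtain ⟨φ, hφ⟩ : ∃ φ, φ = sys B P (hh c β t) := ⟨_, rfl⟩
    rw [← hφ] at hc10 hSSlow hbad
    have hφ0 : ∀ n : ℤ, φ 0 n = B.eval n := by intro n; rw [hφ]; rfl
    have hφS : ∀ (i : Fin k) (n : ℤ), φ i.succ n = (P i).eval n + (β i + lf c t i) := by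
      intro i n
      rw [hφ]
      show (P i).eval n + ((β i + lf c t i).toNat : ℤ) = _
      rw [Int.toNat_of_nonneg (hnn i)]
    have hSSp : 0 < SSf (pr Q) φ := lt_of_lt_of_le (by positivity) hSSlow
    have hq2 : (Q : ℝ) ^ (-c2) ≤ ε / 64 * SSf (pr Q) φ :=
      hlq.trans (mul_le_mul_of_nonneg_left hSSlow (by positivity))
    have hq1 : (Q : ℝ) ^ (-c1) ≤ (Q : ℝ) ^ (-c2) := Real.rpow_le_rpow_of_exponent_le (by linarith) (by linarith)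
    have hq1' : (Q : ℝ) ^ (-c1') ≤ (Q : ℝ) ^ (-c2) := Real.rpow_le_rpow_of_exponent_le (by linarith) (by linarith)
    have hmain := u16_t D hD φ Z Q X1 ja jb (SSf (pr Q) φ) (SSf (pr z) φ) ((Q : ℝ) ^ (-c1)) θ Cs C ε hSSp hε hε1 hθ0
      (by omega) hCs hC (by omega) hRg2 (by rw [← hCb]; exact hθ24.le) (by
        rw [div_le_iff₀ hθ0] at hceil3'
        linarith) hjab hX1 hja1 hja2 hjb1 hjb2 (hq1.trans hq2) ?_ ?_ ?_ ?_
    · exact absurd hmain (not_le.2 hbad)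
    · -- cells
      intro j hj
      obtain ⟨hj1, hj2⟩ := hjZ j hj
      have h3 := hc14 j hj hnn (by
        intro i
        obtain ⟨h4, -⟩ := hPv (j * X1) hj1 i
        have h5 : (0 : ℝ) ≤ ((β i + lf c t i : ℤ) : ℝ) := by exact_mod_cast hnn i
        push_cast at h4 h5 ⊢
        linarith)
      rw [← hφ] at h3
      have e1 : j * X1 + X1 = (j + 1) * X1 := by ring
      rw [e1] at h3
      refine h3.trans ?_
      refine mul_le_mul_of_nonneg_left ?_ (by positivity)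
      have : ((1 + E0) ^ (k + 1) - 1) * SSf (pr Q) φ ≤ ε / 64 * SSf (pr Q) φ :=
        mul_le_mul_of_nonneg_right hE0ε hSSp.le
      linarith
    · -- weights
      intro j hj
      obtain ⟨hj1, hj2⟩ := hjZ j hj
      refine h12 Z (by omega) φ ((j + 1) * X1) X1 ?_
      intro n hn
      rw [mem_Ico] at hn
      have hn1 : j * X1 + X1 ≤ n := by
        have : (j + 1) * X1 = j * X1 + X1 := by ring
        omega
      have hn2 : n ≤ (j + 2) * X1 := by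
        have : (j + 2) * X1 = (j + 1) * X1 + X1 := by ring
        omega
      have hn3 : (n : ℝ) ≤ (1 - θ / 2) * Z := le_trans (by exact_mod_cast hn2) hj2
      have hn4 : θ / 4 * Z ≤ n := by
        refine hj1.trans ?_
        exact_mod_cast (by omega : j * X1 ≤ n)
      have hn5 : (n : ℝ) ≤ Z := hn3.trans hθZ'
      obtain ⟨h3, h4⟩ := hBv n (by omega) hn3
      have hACz : (A : ℝ) ≤ Cz := by
        rw [hCz]
        linarith
      refine ⟨⟨?_, ?_⟩, fun i => ⟨?_, ?_⟩⟩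
      · rw [hφ0]; exact h3
      · rw [hφ0]
        exact h4.trans (mul_le_mul_of_nonneg_right hACz hZ0.le)
      · rw [hφS]
        obtain ⟨h5, -⟩ := hPv n hn4 i
        have h6 : (0 : ℝ) ≤ ((β i + lf c t i : ℤ) : ℝ) := by exact_mod_cast hnn i
        push_cast at h5 h6 ⊢
        linarith
      · rw [hφS]
        obtain ⟨-, h5⟩ := hPv n hn4 i
        have h6 : (n : ℝ) ^ D i ≤ (Z : ℝ) ^ D i := pow_le_pow_left₀ (by positivity) hn5 _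
        have h7 : lf c t i ≤ A * Sc * (Z : ℤ) ^ D i := by rw [hSc]; exact u16_lf c e D hB A Z t ht i
        have h8 : β i ≤ A * (Z : ℤ) ^ D i := (le_abs_self _).trans (hβ i)
        have h7' : ((lf c t i : ℤ) : ℝ) ≤ A * Sc * (Z : ℝ) ^ D i := by exact_mod_cast h7
        have h8' : ((β i : ℤ) : ℝ) ≤ A * (Z : ℝ) ^ D i := by exact_mod_cast h8
        have h9 : CP * (n : ℝ) ^ D i ≤ CP * (Z : ℝ) ^ D i := mul_le_mul_of_nonneg_left h6 (by linarith)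
        push_cast
        calc ((eval (n : ℤ) (P i) : ℤ) : ℝ) + ((β i : ℤ) + (lf c t i : ℤ)) ≤
              CP * (Z : ℝ) ^ D i + (A * (Z : ℝ) ^ D i + A * Sc * (Z : ℝ) ^ D i) := by
              have := h5.trans h9
              linarith
          _ = Cz * (Z : ℝ) ^ D i := by rw [hCz]; ring
    · -- sieve
      intro n1 L hn1 hL
      have hL0 : (0 : ℝ) < L := lt_of_lt_of_le (by positivity) hL
      rw [hφ]
      refine h13 Q (by omega) B hLin P hPol (hh c β t) hNF n1 L hn1 ?_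
      have h3 : Real.log (θ / 4 * Z) ≤ Real.log L := Real.log_le_log (by positivity) hL
      rw [Real.log_mul (by positivity) (by positivity)] at h3
      have h4 : Real.log (4 / θ) ≤ Real.log Q := Real.log_le_log (by positivity) hceil3
      have h5 : Real.log (θ / 4) = -Real.log (4 / θ) := by
        rw [← Real.log_inv, inv_div]
      have h6 := hRg1' (Ks + 1) (by linarith)
      linarith
    · exact hc10 hnn |>.trans (hq1'.trans hq2)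
  · -- U14
    intro j hj
    obtain ⟨hj1, hj2⟩ := hjZ j hj
    have h3 := h14c Q Z (by omega) hRgK1 hLv X1 (j * X1) hXd hX2 hX3 (by
      have h4 : ((j * X1 : ℕ) : ℝ) ≤ A * Z := by
        have h5 : ((j * X1 : ℕ) : ℝ) ≤ (((j + 2) * X1 : ℕ) : ℝ) := by
          exact_mod_cast Nat.mul_le_mul_right _ (by omega)
        exact h5.trans ((hj2.trans hθZ').trans (le_mul_of_one_le_left hZ0.le hAr))
      exact_mod_cast h4) B hLin (by
      intro n hn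
      rw [mem_Ico] at hn
      refine hBv n (by omega) ?_
      refine le_trans ?_ hj2
      have : (j + 2) * X1 = j * X1 + 2 * X1 := by ring
      exact_mod_cast (by omega : n ≤ (j + 2) * X1)) β hβ
    exact h3
  · -- U10
    have h3 := h10c Q Z z (by omega) hRg2 (by
      rw [← Real.log_le_log_iff hQ0 (by positivity), Real.log_rpow hZ0]
      have h4 := hRg1' (1 / δ1) (by linarith)
      rw [one_div, inv_mul_le_iff₀ hδ1] at h4
      exact h4) hz1 hz2 B hLin β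
    refine le_trans (le_of_eq ?_) h3
    congr 2

open Classical in
/-- **U16.** Proof. `δ1` from `U10_main` (replace it by `min δ1 1`). Given `A` (replace it by `A' ≥ A` with `A' ≥ 1, D_i, |a_i|`, everything is monotone in `A`), `ε` (`≤ 1`), `δ`.
Constants, in this order: `E0 > 0` with `(1 + E0)^(k+1) - 1 ≤ ε/64`; `Cs, Ks` from `U13_sieve`, `K1` from `U14_main`, `K = K1 + Ks + 1/δ1 + 1000`; `U8_level` with `A8 = 2 A' (A' + 2)`, `E = E0`,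
`K' = 2 K` gives `C = Cr`; `Cb = Cs (∏ D) (2 C)^(k+1)`; `θ = ε/(24 (Cb + 1))` (so `12 θ (Cb + 1) ≤ ε/2`); `δ2 = (θ/8)^A'/4`; `ρ0` from `U14_main` for `C, E0, δ2`, `ρ = min(ρ0, θ/8)`; then `c1` from `U14_main`
and `c1'` from `U10_main` (take the smaller). `M = M8^2` with `M8, Q` from `U8_level` (`M0` large): for `M ≤ Z ≤ M^A'`: `Rg K C Q Z` and `Lv A' Q Z E0`.
`X1 = Q^800 ⌊ρ Z/Q^800⌋` (`ρ Z ≤ 2 X1`), `ja = ⌈θ Z/(4 X1)⌉`, `jb + 1 = ⌊(1 - θ/2) Z/X1⌋`, at most `2/ρ` values of `j`. If `B` is not primitive there is no `t` with `NoFix`; so `Lin A' B`.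
Exceptional sets: `U14_main` with `n0 = j X1`, `ja ≤ j < jb` (on the cell `B ≥ θ Z/2 ≥ δ2 Z`, `P_i(n0) + β_i + ψ_i(t) ≥ P_i(n0) ≥ δ2 Z^(D_i)` by `U16_val`), and `U10_main`. Together at most
`(2/ρ + 1) Z^(∑ e) Q^(-c1) ≤ Z^(∑ e - η)`, `η = c1/(2C)` (`Q ≥ Z^(1/C)`).
For the other `t`: `φ = sys B P (hh c β t)`, `SS = SSf (pr Q) φ ≥ c (1 + log Q)^(-C')` (`X2_low`), so `Q^(-c1) ≤ (ε/64) SS`. `U15_sum` with `Lg = (∏ D) (log Z)^(k+1)`, `E1 = ε/64`, `ε1 = ε/16` (`U12_wt`; values by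
`U16_val`, `|β_i|, t_j` bounded), `ε/2` for `ε`; `hl`, `hr` from `U13_sieve` (`log Q ≥ log Z/C`; the intervals are longer than `θ Z/8 ≥ Q^Ks`). So `|cnt - Z SS/Lg| ≤ (ε/2) Z SS/Lg`;
`|SSf (pr z) φ - SS| ≤ (ε/64) SS`. -/
theorem U16_core {k d : ℕ} (c : Fin k → Fin d → ℤ) (e : Fin d → ℕ) (D : Fin k → ℕ) (a : Fin k → ℤ)
    (hF : FGTU c D a) (hS : S4TU c e D a) (he : ∀ j, 1 ≤ e j) (hB : ∀ i j, c i j ≠ 0 → e j = D i)
    (hD : ∀ i, 1 ≤ D i) (ha : ∀ i, 0 < a i) (P : Fin k → ℤ[X]) (hP : HasD D a P) : ACoreP c e D P := by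
  obtain ⟨δ1, hδ1, h10⟩ := U10_main c e D a hF he hD P hP
  refine ⟨δ1, hδ1, fun A ε δ hε hδ => ?_⟩
  obtain ⟨A', hA'⟩ : ∃ A' : ℕ, A' = A + 1 + ∑ i, (D i + (a i).natAbs) := ⟨_, rfl⟩
  have hDA : ∀ i, D i ≤ A' ∧ (a i).natAbs ≤ A' := by
    intro i
    have h1 : D i + (a i).natAbs ≤ ∑ i, (D i + (a i).natAbs) :=
      single_le_sum (f := fun i => D i + (a i).natAbs) (fun _ _ => Nat.zero_le _) (mem_univ i)
    omega
  have hAA : A ≤ A' := by omega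
  obtain ⟨η, hη, h1⟩ := u16_core1 c e D a hF hS he hB hD ha P hP δ1 hδ1 h10 A' (by omega) hDA (min ε 1) δ
    (lt_min hε one_pos) (min_le_right _ _) hδ
  refine ⟨η, hη, fun M0 => ?_⟩
  obtain ⟨M, hM0, hM1, h2⟩ := h1 M0
  refine ⟨M, hM0, ?_⟩
  intro Z hZ hZA B hBd β hβ z hz1 hz2
  have h3 := h2 Z hZ (hZA.trans (Nat.pow_le_pow_right hM1 hAA)) B
    ⟨hBd.deg, hBd.neg, hBd.lc.trans hAA, hBd.pos, hBd.last⟩ β (fun i => (hβ i).trans (by
      have : (A : ℤ) ≤ A' := by exact_mod_cast hAA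
      gcongr)) z hz1 hz2
  refine le_trans ?_ h3
  have hsub : ((tb 0 fun j => A * Z ^ e j + 1).filter fun t => (∀ i, 0 ≤ β i + lf c t i) ∧
        NoFix (sys B P (hh c β t)) ∧ ε * (Z * dens D z Z (sys B P (hh c β t))) <
        |(cnt (sys B P (hh c β t)) 1 Z : ℝ) - Z * dens D z Z (sys B P (hh c β t))|) ⊆
      ((tb 0 fun j => A' * Z ^ e j + 1).filter fun t => (∀ i, 0 ≤ β i + lf c t i) ∧
        NoFix (sys B P (hh c β t)) ∧ min ε 1 * (Z * dens D z Z (sys B P (hh c β t))) <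
        |(cnt (sys B P (hh c β t)) 1 Z : ℝ) - Z * dens D z Z (sys B P (hh c β t))|) := by
    intro t ht
    rw [mem_filter] at ht ⊢
    obtain ⟨ht1, ht2, ht3, ht4⟩ := ht
    refine ⟨?_, ht2, ht3, ?_⟩
    · unfold tb at ht1 ⊢
      rw [Fintype.mem_piFinset] at ht1 ⊢
      intro j
      have h5 := mem_Ico.1 (ht1 j)
      rw [mem_Ico]
      refine ⟨h5.1, lt_of_lt_of_le h5.2 ?_⟩
      have h6 : A * Z ^ e j ≤ A' * Z ^ e j := Nat.mul_le_mul_right _ hAA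
      have h7 : ((A * Z ^ e j + 1 : ℕ) : ℤ) ≤ ((A' * Z ^ e j + 1 : ℕ) : ℤ) := by exact_mod_cast Nat.add_le_add_right h6 1
      linarith
    · obtain ⟨u, hu⟩ : ∃ u : ℝ, u = Z * dens D z Z (sys B P (hh c β t)) := ⟨_, rfl⟩
      rw [← hu] at ht4 ⊢
      rcases le_or_gt 0 u with hu0 | hu0
      · exact lt_of_le_of_lt (mul_le_mul_of_nonneg_right (min_le_left _ _) hu0) ht4
      · refine lt_of_lt_of_le (mul_neg_of_pos_of_neg (lt_min hε one_pos) hu0) (abs_nonneg _)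
  exact_mod_cast card_le_card hsub

end Pool.Agent.H9P
end
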