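import Pool.Agent.Lib.H59M.M1.M075
import Pool.Agent.Lib.H59M.M1.M099
import Pool.Agent.Lib.H59M.M1.M101
import Pool.Agent.Lib.H59M.M1.M105
import Pool.Agent.Lib.H59M.M1.M106
import Pool.Agent.Lib.H59M.M1.M109
import Pool.Agent.Lib.H59M.M1.M110
import Pool.Agent.Lib.H59M.M1.M112

/-! Merged copies (to shorten the build) of Lib.H9A.N1, Lib.H9A.N5a, Lib.H9A.N4, Lib.H9A.N5, Lib.H9P.FinP. -/

-- from Lib.H9A.N1
section

/-!
# ASY, chunk N1 (M): arbitrarily large levels without exceptional zero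
-/

open Finset

namespace Pool.Agent.H9A

open Pool.Agent.H9U
open Pool.Agent.Lib.H68T Pool.Agent.Lib.H18Q Pool.Agent.Lib.H59P

/-- Proof. `c` from `good_levels` (`H68T/PAGE2.lean`), `K, C` from `mdb_good c` (`H9U/A1.lean`). `kp : ℕ`, `kp ≥ max K |K'| + 1`, `C exp(-(kp/C)) ≤ E/2` (compare the choice of
`kp` in `A3S`). `Cr = A kp + 1`. Given `M0` take `Q` good with `Q ≥ max(M0, C0, 2)` and so large that `max K |K'| + 1 ≤ log log Q`, `(max K |K'| + 1) (log Cr + log log Q) ≤ log Q` and `Q^(-1/4) ≤ E/2`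
(`good_levels` gives `Q` above any bound). `M = Q^kp`. For `M ≤ Y ≤ C0 M^A ≤ Q^(A kp + 1)`: `kp log Q ≤ log Y ≤ Cr log Q`, so `RegP (max K |K'| + 1) Q Y`; `RegP.mono`; `mdb_good` and
`C exp(-(kp/C)) + Q^(-1/4) ≤ E` (enlarge the bound in `MdB.cf` as in `A3S`, first case). -/
theorem N1_level (C0 A : ℕ) (hC0 : 1 ≤ C0) (hA : 1 ≤ A) (E K' : ℝ) (hE : 0 < E) : ∃ Cr : ℝ, 1 ≤ Cr ∧
    ∀ M0 : ℕ, ∃ M Q : ℕ, M0 ≤ M ∧ ∀ Y : ℕ, M ≤ Y → Y ≤ C0 * M ^ A →
      RegP K' Q Y ∧ Real.log Y ≤ Cr * Real.log Q ∧ MdB Q Y 1 E p0 (fun _ => 0) := by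
  obtain ⟨c, hc, hgl⟩ := good_levels
  obtain ⟨K, C, hK, hC, hgood⟩ := mdb_good c hc
  obtain ⟨E1, hE1⟩ : ∃ E1 : ℝ, E1 = E / 2 := ⟨_, rfl⟩
  have hE1p : 0 < E1 := by rw [hE1]; positivity
  obtain ⟨Kr, hKr⟩ : ∃ Kr : ℝ, Kr = |K'| + K + 1 := ⟨_, rfl⟩
  have haK := abs_nonneg K'
  have hleK := le_abs_self K'
  have hKr1 : 1 ≤ Kr := by rw [hKr]; linarith
  have hKrK : K ≤ Kr := by rw [hKr]; linarith
  have hKrK' : K' ≤ Kr := by rw [hKr]; linarith
  obtain ⟨kp, hkpr, hkpe⟩ : ∃ kp : ℕ, Kr ≤ (kp : ℝ) ∧ C * Real.exp (-((kp : ℝ) / C)) ≤ E1 := by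
    refine ⟨⌈max Kr (C * (C / E1))⌉₊, (le_max_left _ _).trans (Nat.le_ceil _), ?_⟩
    have h0 : max Kr (C * (C / E1)) ≤ (⌈max Kr (C * (C / E1))⌉₊ : ℝ) := Nat.le_ceil _
    obtain ⟨kp, hkp⟩ : ∃ kp : ℝ, kp = (⌈max Kr (C * (C / E1))⌉₊ : ℝ) := ⟨_, rfl⟩
    rw [← hkp] at h0 ⊢
    have hCp : 0 < C := by linarith
    have h1 : C / E1 ≤ kp / C := by
      rw [le_div_iff₀ hCp]
      calc C / E1 * C = C * (C / E1) := by ring
        _ ≤ kp := (le_max_right _ _).trans h0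
    have h2 : C / E1 ≤ Real.exp (kp / C) := by
      have := Real.add_one_le_exp (kp / C)
      linarith
    rw [Real.exp_neg, ← div_eq_mul_inv, div_le_iff₀ (Real.exp_pos _)]
    rw [div_le_iff₀ hE1p] at h2
    linarith
  have hkp1 : (1 : ℝ) ≤ kp := hKr1.trans hkpr
  have hkp1' : 1 ≤ kp := by exact_mod_cast hkp1
  have hA' : (1 : ℝ) ≤ A := by exact_mod_cast hA
  obtain ⟨Cr, hCr⟩ : ∃ Cr : ℝ, Cr = A * kp + 1 := ⟨_, rfl⟩
  have hCr1 : 1 ≤ Cr := by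
    rw [hCr]
    have : 0 ≤ (A : ℝ) * kp := by positivity
    linarith
  have hlogCr : 0 ≤ Real.log Cr := Real.log_nonneg hCr1
  have hlogC0 : 0 ≤ Real.log (C0 : ℝ) := Real.log_nonneg (by exact_mod_cast hC0)
  have hlogE : 0 ≤ Real.log (1 / E1 + 1) := Real.log_nonneg (by
    have : 0 < 1 / E1 := by positivity
    linarith)
  refine ⟨Cr, hCr1, fun M0 => ?_⟩
  obtain ⟨L0, hL0⟩ := Filter.eventually_atTop.mp ((ev_log (2 * Kr) 1 one_pos).and
    (Filter.eventually_ge_atTop (Real.exp Kr + Real.log C0 + 2 * Kr * Real.log Cr +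
      4 * Real.log (1 / E1 + 1))))
  obtain ⟨Q, hQ, hQg⟩ := hgl (max M0 ⌈Real.exp (max L0 1)⌉₊)
  have hQM0 : M0 ≤ Q := (le_max_left _ _).trans hQ
  have hQe' : ⌈Real.exp (max L0 1)⌉₊ ≤ Q := (le_max_right _ _).trans hQ
  have hQe : Real.exp (max L0 1) ≤ (Q : ℝ) := (Nat.le_ceil _).trans (by exact_mod_cast hQe')
  have hQ0 : (0 : ℝ) < Q := lt_of_lt_of_le (Real.exp_pos _) hQe
  obtain ⟨q, hq⟩ : ∃ q, q = Real.log Q := ⟨_, rfl⟩
  have hqge : max L0 1 ≤ q := by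
    rw [hq, Real.le_log_iff_exp_le hQ0]; exact hQe
  have hq1 : 1 ≤ q := (le_max_right _ _).trans hqge
  obtain ⟨e1, e2⟩ := hL0 q ((le_max_left _ _).trans hqge)
  rw [Real.rpow_one] at e1
  have p1 : 0 < Real.exp Kr := Real.exp_pos _
  have p2 : 0 ≤ 2 * Kr * Real.log Cr := by positivity
  have hqa : Real.exp Kr ≤ q := by linarith
  have hqb : Real.log C0 ≤ q := by linarith
  have hqc : 2 * Kr * Real.log Cr ≤ q := by linarith
  have hqd : 4 * Real.log (1 / E1 + 1) ≤ q := by linarith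
  have hQ1 : 1 ≤ Q := by exact_mod_cast (by exact_mod_cast hQ0 : 0 < Q)
  have hMQ : Q ≤ Q ^ kp := by
    calc Q = Q ^ 1 := (pow_one Q).symm
      _ ≤ Q ^ kp := Nat.pow_le_pow_right hQ1 hkp1'
  refine ⟨Q ^ kp, Q, hQM0.trans hMQ, fun Y hY1 hY2 => ?_⟩
  have hM0 : (0 : ℝ) < (Q : ℝ) ^ kp := by positivity
  have hY1' : (Q : ℝ) ^ kp ≤ Y := by exact_mod_cast hY1
  have hY2' : (Y : ℝ) ≤ C0 * ((Q : ℝ) ^ kp) ^ A := by exact_mod_cast hY2
  have hY0 : (0 : ℝ) < Y := lt_of_lt_of_le hM0 hY1'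
  have hC0' : (0 : ℝ) < C0 := by exact_mod_cast hC0
  have g1 : kp * q ≤ Real.log Y := by
    have := Real.log_le_log hM0 hY1'
    rwa [Real.log_pow, ← hq] at this
  have g2 : Real.log Y ≤ Cr * q := by
    have := Real.log_le_log hY0 hY2'
    rw [Real.log_mul hC0'.ne' (by positivity), Real.log_pow, Real.log_pow, ← hq] at this
    have h3 : Cr * q = A * (kp * q) + q := by rw [hCr]; ring
    linarith
  have g3 : q ≤ Real.log Y := by
    have : 1 * q ≤ kp * q := mul_le_mul_of_nonneg_right hkp1 (by linarith)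
    linarith
  have hlY : 0 < Real.log Y := by linarith
  have hreg : RegP Kr Q Y := by
    refine ⟨?_, ?_, ?_⟩
    · rw [Real.le_log_iff_exp_le hlY]
      linarith
    · have k1 : Real.log (Real.log Y) ≤ Real.log Cr + Real.log q := by
        have := Real.log_le_log hlY g2
        rwa [Real.log_mul (by linarith) (by linarith)] at this
      have k2 : Kr * Real.log (Real.log Y) ≤ Kr * (Real.log Cr + Real.log q) :=
        mul_le_mul_of_nonneg_left k1 (by linarith)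
      rw [← hq]
      have k3 : Kr * (Real.log Cr + Real.log q) = (2 * Kr * Real.log Cr) / 2 + (2 * Kr * Real.log q) / 2 := by
        ring
      linarith
    · rw [← hq]
      exact (mul_le_mul_of_nonneg_right hkpr (by linarith)).trans g1
  refine ⟨hreg.mono (by linarith) hKrK', by rw [← hq]; exact g2, ?_⟩
  have h := hgood kp (hKrK.trans hkpr) Q Y (hreg.mono (by linarith) hKrK) (by rw [← hq]; exact g1) hQg
  have herr : C * Real.exp (-((kp : ℝ) / C)) + (Q : ℝ) ^ (-(1 / 4) : ℝ) ≤ E := by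
    have g2 : (Q : ℝ) ^ (-(1 / 4) : ℝ) ≤ E1 := by
      rw [Real.rpow_def_of_pos hQ0, ← hq]
      have g3 : Real.exp (q * -(1 / 4)) ≤ Real.exp (-Real.log (1 / E1 + 1)) :=
        Real.exp_le_exp.2 (by linarith)
      refine g3.trans ?_
      have g4 : 0 < 1 / E1 + 1 := by positivity
      rw [Real.exp_neg, Real.exp_log g4, inv_eq_one_div, div_le_iff₀ g4]
      have g5 : E1 * (1 / E1 + 1) = 1 + E1 := by field_simp
      linarith
    rw [hE1] at hkpe g2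
    linarith
  refine ⟨h.eta_pos, h.eta_le, h.mem, h.real, h.triv, h.nonneg, h.le, ?_⟩
  obtain ⟨eb, b1, b2, b3⟩ := h.cf
  exact ⟨eb, b1, b2.trans (by linarith), b3⟩

end Pool.Agent.H9A
end

-- from Lib.H9A.N5a
section

/-!
# ASY, chunk N5a (S/M): from the weighted sum to the number
-/

open Finset

namespace Pool.Agent.H9A

open Pool.Agent.H9U
open Pool.Agent.Lib.H68T (lp Lk PC p0)

/-- From the weighted sum to the number, for one `t`.

Proof. `m = val b n t i ∈ JJ (Xs i)` satisfies `X ≤ m ≤ 4 C0 X`; `lp m = log m` if `m` is prime and `0` else. So `N (log X)^k ≤ ∑_n ∏ lp ≤ N (log (4 C0 X))^k`, `N = NPr S b t 0 L`, and `(log (4 C0 X))^k ≤ (1 + ε) (log X)^k`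
for `X` large. If `|∑ - L s| ≤ ε L s` then `N ≤ (1 + ε) L s/(log X)^k` and `N ≥ (1 - ε)/(1 + ε) L s/(log X)^k ≥ (1 - 2ε) L s/(log X)^k` (if `ε ≥ 1` nothing is to prove for the lower bound, `N ≥ 0`). -/
theorem N5_num {k d : ℕ} (S : Sys k d) (C0 : ℕ) (hC0 : 1 ≤ C0) (ε : ℝ) (hε : 0 < ε) : ∃ X0 : ℕ, ∀ X : ℕ, X0 ≤ X →
    ∀ Xs : Fin k → ℕ, (∀ i, X ≤ Xs i ∧ Xs i ≤ C0 * X) → ∀ (b : Fin k → ℤ) (t : Fin d → ℤ) (L : ℕ),
    (∀ i, ∀ n ∈ range L, S.val b n t i ∈ JJ (Xs i)) → ∀ s : ℝ, 0 ≤ s →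
    |∑ n ∈ range L, ∏ i, lp (S.val b n t i) - L * s| ≤ ε * (L * s) →
    |(NPr S b t 0 L : ℝ) - L * s / (Real.log X) ^ k| ≤ 2 * ε * (L * s / (Real.log X) ^ k) := by
  classical
  have hlim : Filter.Tendsto (fun X : ℕ => (1 + Real.log (4 * C0) / Real.log X) ^ k) Filter.atTop (nhds 1) := by
    have h1 : Filter.Tendsto (fun X : ℕ => Real.log X) Filter.atTop Filter.atTop :=
      Real.tendsto_log_atTop.comp tendsto_natCast_atTop_atTop
    have h2 : Filter.Tendsto (fun X : ℕ => Real.log (4 * C0) / Real.log X) Filter.atTop (nhds 0) := h1.const_div_atTop _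
    have h3 := (h2.const_add 1).pow k
    rwa [add_zero, one_pow] at h3
  obtain ⟨X1, hX1⟩ := Filter.eventually_atTop.mp (hlim.eventually_lt_const (show (1 : ℝ) < 1 + ε by linarith))
  refine ⟨max X1 3, ?_⟩
  intro X hX Xs hXs b t L hJ s hs hsum
  have hX3 : 3 ≤ X := (le_max_right _ _).trans hX
  have hXr : (0 : ℝ) < X := by
    have : 0 < X := by omega
    exact_mod_cast this
  have hl : 0 < Real.log X := by
    apply Real.log_pos
    have : 1 < X := by omega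
    exact_mod_cast this
  have hC0r : (0 : ℝ) < C0 := by exact_mod_cast hC0
  have hpow : (Real.log (4 * C0) + Real.log X) ^ k ≤ (1 + ε) * (Real.log X) ^ k := by
    have h1 := (hX1 X ((le_max_left _ _).trans hX)).le
    have h2 : Real.log (4 * C0) + Real.log X = (1 + Real.log (4 * C0) / Real.log X) * Real.log X := by
      field_simp
      ring
    rw [h2, mul_pow]
    exact mul_le_mul_of_nonneg_right h1 (by positivity)
  have hb : ∀ n ∈ range L, ∀ i, Real.log X ≤ Real.log (S.val b n t i) ∧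
      Real.log (S.val b n t i) ≤ Real.log (4 * C0) + Real.log X := by
    intro n hn i
    have h1 := hJ i n hn
    unfold JJ at h1
    rw [mem_Ico] at h1
    obtain ⟨h2, h3⟩ := h1
    obtain ⟨h4, h5⟩ := hXs i
    have h4' : (X : ℤ) ≤ Xs i := by exact_mod_cast h4
    have h5' : (Xs i : ℤ) ≤ C0 * X := by exact_mod_cast h5
    have h6 : (X : ℤ) ≤ S.val b n t i := by omega
    have h7 : S.val b n t i ≤ 4 * (C0 * X) := by omega
    have h6' : (X : ℝ) ≤ (S.val b n t i : ℝ) := by exact_mod_cast h6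
    have h7' : (S.val b n t i : ℝ) ≤ 4 * C0 * X := by
      have : (S.val b n t i : ℝ) ≤ 4 * (C0 * X) := by exact_mod_cast h7
      linarith
    refine ⟨Real.log_le_log hXr h6', ?_⟩
    rw [← Real.log_mul (by positivity) hXr.ne']
    exact Real.log_le_log (by linarith) h7'
  have hS : ∑ n ∈ range L, ∏ i, lp (S.val b n t i) =
      ∑ n ∈ (range L).filter (fun n : ℕ => ∀ i, (S.val b (0 + n) t i).toNat.Prime), ∏ i, Real.log (S.val b n t i) := by
    rw [Finset.sum_filter]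
    refine Finset.sum_congr rfl fun n _ => ?_
    split_ifs with h
    · refine Finset.prod_congr rfl fun i _ => ?_
      unfold Lib.H68T.lp
      have h1 := h i
      rw [zero_add] at h1
      rw [if_pos h1]
    · push Not at h
      obtain ⟨i, hi⟩ := h
      rw [zero_add] at hi
      refine Finset.prod_eq_zero (mem_univ i) ?_
      unfold Lib.H68T.lp
      rw [if_neg hi]
  rw [hS] at hsum
  have hN : (NPr S b t 0 L : ℝ) =
      (((range L).filter (fun n : ℕ => ∀ i, (S.val b (0 + n) t i).toNat.Prime)).card : ℝ) := by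
    unfold NPr
    rfl
  rw [hN]
  obtain ⟨W, hW⟩ : ∃ W : Finset ℕ, W = (range L).filter (fun n : ℕ => ∀ i, (S.val b (0 + n) t i).toNat.Prime) := ⟨_, rfl⟩
  rw [← hW] at hsum ⊢
  have hWr : ∀ n ∈ W, n ∈ range L := fun n hn => by
    rw [hW] at hn
    exact (mem_filter.mp hn).1
  have hlow : (W.card : ℝ) * (Real.log X) ^ k ≤ ∑ n ∈ W, ∏ i, Real.log (S.val b n t i) := by
    rw [← nsmul_eq_mul]
    refine Finset.card_nsmul_le_sum W _ _ fun n hn => ?_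
    calc (Real.log X) ^ k = ∏ _i : Fin k, Real.log X := by rw [Finset.prod_const, Finset.card_univ, Fintype.card_fin]
      _ ≤ ∏ i, Real.log (S.val b n t i) := Finset.prod_le_prod (fun _ _ => hl.le) fun i _ => (hb n (hWr n hn) i).1
  have hup : ∑ n ∈ W, ∏ i, Real.log (S.val b n t i) ≤ (W.card : ℝ) * ((1 + ε) * (Real.log X) ^ k) := by
    rw [← nsmul_eq_mul]
    refine Finset.sum_le_card_nsmul W _ _ fun n hn => ?_
    calc ∏ i, Real.log (S.val b n t i) ≤ ∏ _i : Fin k, (Real.log (4 * C0) + Real.log X) :=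
          Finset.prod_le_prod (fun i _ => hl.le.trans (hb n (hWr n hn) i).1) fun i _ => (hb n (hWr n hn) i).2
      _ = (Real.log (4 * C0) + Real.log X) ^ k := by rw [Finset.prod_const, Finset.card_univ, Fintype.card_fin]
      _ ≤ _ := hpow
  obtain ⟨Z, hZ⟩ : ∃ Z : ℝ, Z = ∑ n ∈ W, ∏ i, Real.log (S.val b n t i) := ⟨_, rfl⟩
  rw [← hZ] at hsum hlow hup
  obtain ⟨A, hA⟩ : ∃ A : ℝ, A = L * s := ⟨_, rfl⟩
  have hA0 : 0 ≤ A := by
    rw [hA]
    positivity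
  rw [← hA] at hsum ⊢
  obtain ⟨q, hq⟩ : ∃ q : ℝ, q = (Real.log X) ^ k := ⟨_, rfl⟩
  have hq0 : 0 < q := by
    rw [hq]
    positivity
  rw [← hq] at hlow hup ⊢
  rw [abs_le] at hsum
  obtain ⟨hs1, hs2⟩ := hsum
  have e1 : (W.card : ℝ) * q ≤ (1 + ε) * A := by linarith
  have e2 : (1 - ε) * A ≤ (1 + ε) * ((W.card : ℝ) * q) := by linarith
  have e3 : A - (W.card : ℝ) * q ≤ 2 * ε * A := by
    have h1 : (1 + ε) * (A - (W.card : ℝ) * q) ≤ 2 * ε * A := by linarith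
    by_cases h2 : 0 ≤ A - (W.card : ℝ) * q
    · nlinarith
    · have : 0 ≤ 2 * ε * A := by positivity
      linarith
  have h3 : (W.card : ℝ) - A / q = ((W.card : ℝ) * q - A) / q := by
    field_simp
  have h4 : 2 * ε * (A / q) = 2 * ε * A / q := by ring
  rw [h3, h4, abs_div, abs_of_pos hq0]
  refine div_le_div_of_nonneg_right ?_ hq0.le
  rw [abs_le]
  have : 0 ≤ ε * A := by positivity
  constructor <;> linarith

end Pool.Agent.H9A
end

-- from Lib.H9A.N4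
section

/-!
# ASY, chunk N4 (M): few `t` without the asymptotic formula for the weighted sum, given data
-/

open Finset

namespace Pool.Agent.H9A

open Pool.Agent.H9U
open Pool.Agent.HUK (MinP TelP D31_minor D32_avg)
open Pool.Agent.Lib.H68T (lp Lk PC p0)
open Pool.Agent.Lib.H18Q (gk KS SG Bc RegP)
open Pool.Agent.Lib.H59P (Ch SF bx TS Rp MX pr)

open Classical in
/-- Proof. Copy `D33_count` (`HUK/D33.lean`), `δ3 = 1/5`, with `D = Q'`, `D1 = √Q'` rounded down, `D2 = ⌈Q'^(1/5)⌉`, `px = p0` in `D32_avg` (`core_case1` in `H9U/CORE.lean` with `r = 1` for `p0.1 * D2 ≤ D1`; `p0 ∈ PC Q'`),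
exponent `κ'`. If `T < Q'^(10 (k+1))` the count is at most `T^d ≤ X^(d-1/4)`. Otherwise let `E(t)` be the summand of `D32_avg`; by `N3_range` for `ε/2` every `t` of the set has a vanishing minor
(at most `k² T^(d-1)`, `D31_minor`) or `E(t) ≥ (ε/2) L SSS ≥ (ε/2) X exp(-4k)` (`T1S_low`), and the number of the latter is at most `(2/ε) e^(4k) X^(d-κ')`. `κ = min κ' 1/4`. -/
theorem N4_count {k d : ℕ} (hk : 1 ≤ k) (hd : 1 ≤ d) (S : Sys k d) (ha : ∀ i, S.a i ≠ 0) (hM : MinP S) (hT : TelP S) (hL : LBig S)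
    (ε : ℝ) (hε : 0 < ε) : ∃ K E0 : ℝ, 1 ≤ K ∧ 0 < E0 ∧
    ∀ Cr θ : ℝ, 1 ≤ Cr → 0 < θ → ∀ C0 : ℕ, ∃ κ : ℝ, 0 < κ ∧ ∃ X0 : ℕ, ∀ Q Q' X : ℕ, X0 ≤ X →
    ∀ Xs : Fin k → ℕ, (∀ i, X ≤ Xs i ∧ Xs i ≤ C0 * X) → (∀ i, Rgm K Cr θ Q Q' (Xs i)) → Q' ^ (20 * (k + 1)) ≤ Q →
    (∀ i, MdB Q (Xs i) 1 E0 p0 (fun _ => 0)) →
    ∀ (b : Fin k → ℤ) (L T : ℕ), X ≤ L → L ≤ C0 * X → T ≤ C0 * X →
    (∀ i, ∀ n ∈ range L, ∀ t ∈ bx d T, S.val b n (iv t) i ∈ JJ (Xs i)) →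
    (((bx d T).filter (fun t => S.Adm b (iv t) ∧ ε * (L * SSS S b (iv t) (pr Q')) <
      |∑ n ∈ range L, ∏ i, lp (S.val b n (iv t) i) - L * SSS S b (iv t) (pr Q')|)).card : ℝ) ≤ (X : ℝ) ^ (d - κ) := by
  obtain ⟨K1, hK1, H1⟩ := D32_avg hk S hT hL
  obtain ⟨K2, E0, hK2, hE0, H2⟩ := N3_range hk S ha (ε / 2) (by positivity)
  have hKm : 1 ≤ max K1 K2 := hK1.trans (le_max_left _ _)
  refine ⟨max K1 K2, E0, hKm, hE0, ?_⟩
  intro Cr θ hCr hθ C0
  obtain ⟨κ', hκ', Xa, H1⟩ := H1 Cr θ (1 / 5) hCr hθ (by norm_num) C0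
  obtain ⟨Xb, H2⟩ := H2 Cr θ hCr hθ C0
  have hk0 : (0 : ℝ) < k := by exact_mod_cast hk
  have hκ : 0 < min κ' 1 / 4 := by
    have := lt_min hκ' one_pos
    positivity
  have hκa : min κ' 1 / 4 ≤ 1 / 4 := by
    have := min_le_right κ' (1 : ℝ)
    linarith
  have hκb : min κ' 1 / 4 ≤ κ' / 2 := by
    have := min_le_left κ' (1 : ℝ)
    linarith
  obtain ⟨Xc, hXc⟩ := z4_large (1 / 2) ((C0 : ℝ) ^ d) (by norm_num)
  obtain ⟨Xd, hXd⟩ := z4_large (1 / 2) (2 * (k * k * (C0 : ℝ) ^ (d - 1))) (by norm_num)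
  obtain ⟨Xe, hXe⟩ := z4_large (κ' / 2) (4 / ε * Real.exp (4 * k : ℝ)) (by positivity)
  obtain ⟨Xf, hXf⟩ := z4_large (θ * (23 / 40)) 4 (by positivity)
  refine ⟨min κ' 1 / 4, hκ, max (max Xa Xb) (max (max Xc Xd) (max (max Xe Xf) 1)), ?_⟩
  intro Q Q' X hX Xs hXs hR hQQ hMd b L T hXL hL1 hT hJ
  have g1 : Xa ≤ X := le_trans (le_trans (le_max_left _ _) (le_max_left _ _)) hX
  have g2 : Xb ≤ X := le_trans (le_trans (le_max_right _ _) (le_max_left _ _)) hX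
  have g3 : Xc ≤ X := le_trans (le_trans (le_trans (le_max_left _ _) (le_max_left _ _)) (le_max_right _ _)) hX
  have g4 : Xd ≤ X := le_trans (le_trans (le_trans (le_max_right _ _) (le_max_left _ _)) (le_max_right _ _)) hX
  have g5 : Xe ≤ X := le_trans (le_trans (le_trans (le_trans (le_max_left _ _) (le_max_left _ _)) (le_max_right _ _)) (le_max_right _ _)) hX
  have g6 : Xf ≤ X := le_trans (le_trans (le_trans (le_trans (le_max_right _ _) (le_max_left _ _)) (le_max_right _ _)) (le_max_right _ _)) hX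
  have hX1 : 1 ≤ X := le_trans (le_trans (le_trans (le_max_right _ _) (le_max_right _ _)) (le_max_right _ _)) hX
  have hX0r : (0 : ℝ) < X := by exact_mod_cast hX1
  have hX1r : (1 : ℝ) ≤ X := by exact_mod_cast hX1
  have f1 := hXc X g3
  have f2 := hXd X g4
  have f3 := hXe X g5
  have f4 := hXf X g6
  have i0 : Fin k := ⟨0, hk⟩
  by_cases hT1 : T < Q' ^ (10 * (k + 1))
  · -- small `T`
    refine z4_small hd C0 X T _ hX1 _ hκa ?_ ((card_filter_le _ _).trans (z4_card_bx d T).le) f1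
    have h1 : T * T ≤ Q' ^ (20 * (k + 1)) := by
      calc T * T ≤ Q' ^ (10 * (k + 1)) * Q' ^ (10 * (k + 1)) := Nat.mul_le_mul hT1.le hT1.le
        _ = Q' ^ (20 * (k + 1)) := by
          rw [← pow_add]
          congr 1
          ring
    have h2 : Q ≤ Xs i0 := z4_QX (hR i0).reg hKm (lt_of_lt_of_le hX1 (hXs i0).1)
    exact h1.trans (hQQ.trans (h2.trans (hXs i0).2))
  · have hT1 : Q' ^ (10 * (k + 1)) ≤ T := not_lt.1 hT1
    -- `T` is positive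
    have hXQ' : (X : ℝ) ^ θ ≤ Q' := by
      have h2 : (X : ℝ) ≤ (Xs i0 : ℝ) := by exact_mod_cast (hXs i0).1
      exact (Real.rpow_le_rpow hX0r.le h2 hθ.le).trans (hR i0).low
    have hQ' : 0 < Q' := by
      have h3 : (0 : ℝ) < (Q' : ℝ) := lt_of_lt_of_le (Real.rpow_pos_of_pos hX0r θ) hXQ'
      exact_mod_cast h3
    have hT0 : 0 < T := lt_of_lt_of_le (pow_pos hQ' _) hT1
    have hQ'1r : (1 : ℝ) ≤ (Q' : ℝ) := by exact_mod_cast hQ'
    have h4 : 4 ≤ (Q' : ℝ) ^ (23 / 40 : ℝ) := by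
      refine f4.trans ?_
      rw [Real.rpow_mul hX0r.le]
      exact Real.rpow_le_rpow (Real.rpow_nonneg hX0r.le _) hXQ' (by norm_num)
    have hr1 : ((p0.1 : ℕ) : ℝ) ≤ (Q' : ℝ) ^ (1 / 80 : ℝ) := by
      have h5 : ((p0.1 : ℕ) : ℝ) = 1 := by simp [p0]
      rw [h5]
      exact Real.one_le_rpow hQ'1r (by norm_num)
    obtain ⟨d1, d2⟩ := core_case1 Q' p0.1 h4 hQ' hr1
    have hRa : ∀ i, Rgm K1 Cr θ Q Q' (Xs i) := fun i =>
      z4_rgm (hR i) (by linarith) (le_max_left _ _)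
    have hRb : ∀ i, Rgm K2 Cr θ Q Q' (Xs i) := fun i =>
      z4_rgm (hR i) (by linarith) (le_max_right _ _)
    have avg := H1 Q Q' X g1 Xs hXs hRa hQQ Q' (Nat.sqrt Q') ⌈(Q' : ℝ) ^ (1 / 5 : ℝ)⌉₊ p0 d1 d2 (Nat.sqrt_le_self _) le_rfl
      (Pool.Agent.Lib.H68T.p0_mem hQ') (Nat.le_ceil _) b L T hL1 hT hT1 hJ
    obtain ⟨A, hA⟩ : ∃ A, A = (bx d T).filter (fun t => S.Adm b (iv t) ∧ ε * (L * SSS S b (iv t) (pr Q')) <
      |∑ n ∈ range L, ∏ i, lp (S.val b n (iv t) i) - L * SSS S b (iv t) (pr Q')|) := ⟨_, rfl⟩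
    rw [← hA]
    obtain ⟨G, hG⟩ : ∃ G, G = A.filter (fun t => ¬ ∃ i j, i ≠ j ∧ S.minr b (iv t) i j = 0) := ⟨_, rfl⟩
    have hcard : A.card ≤ k * k * T ^ (d - 1) + G.card := by
      rw [← Finset.card_filter_add_card_filter_not (s := A) (fun t => ∃ i j, i ≠ j ∧ S.minr b (iv t) i j = 0), ← hG]
      refine Nat.add_le_add_right ?_ _
      refine le_trans (Finset.card_le_card ?_) (D31_minor S hM hd b T hT0)
      intro t ht
      rw [Finset.mem_filter, hA, Finset.mem_filter] at ht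
      exact Finset.mem_filter.2 ⟨ht.1.1, ht.2⟩
    -- the set `G`
    have hGb : (G.card : ℝ) * (ε / 2 * (X * Real.exp (-(4 * k : ℝ)))) ≤ (X : ℝ) ^ (1 + (d : ℝ) - κ') := by
      refine le_trans ?_ avg
      have hsub : G ⊆ bx d T := by
        intro t ht
        rw [hG, Finset.mem_filter, hA, Finset.mem_filter] at ht
        exact ht.1.1
      refine le_trans ?_ (Finset.sum_le_sum_of_subset_of_nonneg hsub fun _ _ _ => norm_nonneg _)
      rw [← nsmul_eq_mul]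
      refine Finset.card_nsmul_le_sum _ _ _ ?_
      intro t ht
      have ht' := ht
      rw [hG, Finset.mem_filter, hA, Finset.mem_filter] at ht'
      obtain ⟨⟨htb, hadm, hlt⟩, hmin⟩ := ht'
      have hmin' : ∀ i j, i ≠ j → S.minr b (iv t) i j ≠ 0 := fun i j hij h0 => hmin ⟨i, j, hij, h0⟩
      have low := H2 Q Q' X g2 Xs hXs hRb hMd b L (iv t) hXL hadm hmin'
        (fun i n hn => hJ i n hn t htb)
      have hs := T1S_low S b (iv t) hadm (pr Q') (fun l hl => by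
        first
        | exact Pool.Agent.Lib.H59P.prime_of_mem_pr hl
        | exact (Finset.mem_filter.1 hl).2)
      have hLX : (X : ℝ) ≤ L := by exact_mod_cast hXL
      have hSL : (X : ℝ) * Real.exp (-(4 * k : ℝ)) ≤ L * SSS S b (iv t) (pr Q') :=
        mul_le_mul hLX hs (Real.exp_pos _).le (Nat.cast_nonneg _)
      have h1 : |∑ n ∈ range L, ∏ i, lp (S.val b n (iv t) i) - L * SSS S b (iv t) (pr Q')| =
          ‖((∑ n ∈ range L, ∏ i, lp (S.val b n (iv t) i) : ℝ) : ℂ) - ((L * SSS S b (iv t) (pr Q') : ℝ) : ℂ)‖ := by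
        rw [← Complex.ofReal_sub, Complex.norm_real, Real.norm_eq_abs]
      have h2 := norm_sub_le_norm_sub_add_norm_sub ((∑ n ∈ range L, ∏ i, lp (S.val b n (iv t) i) : ℝ) : ℂ)
        (∑ j ∈ range (L / (X / Q ^ 8)), ((X / Q ^ 8 : ℕ) : ℂ) * MCS S b (iv t) Q' Q' (Nat.sqrt Q') p0
        (fun i p => Bc Q (Xs i) p (S.val b ((j * (X / Q ^ 8) : ℕ) : ℤ) (iv t) i))) ((L * SSS S b (iv t) (pr Q') : ℝ) : ℂ)
      rw [← h1] at h2
      have h5 : ε / 2 * ((X : ℝ) * Real.exp (-(4 * k : ℝ))) ≤ ε / 2 * (L * SSS S b (iv t) (pr Q')) :=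
        mul_le_mul_of_nonneg_left hSL (by positivity)
      linarith
    have hG2 : (G.card : ℝ) ≤ (X : ℝ) ^ ((d : ℝ) - κ' / 2) / 2 := by
      have e1 : (X : ℝ) ^ (1 + (d : ℝ) - κ') = X * ((X : ℝ) ^ ((d : ℝ) - κ' / 2) / (X : ℝ) ^ (κ' / 2)) := by
        rw [← Real.rpow_sub hX0r]
        have h6 : (X : ℝ) * (X : ℝ) ^ ((d : ℝ) - κ' / 2 - κ' / 2) = (X : ℝ) ^ (1 : ℝ) * (X : ℝ) ^ ((d : ℝ) - κ' / 2 - κ' / 2) := by
          rw [Real.rpow_one]
        rw [h6, ← Real.rpow_add hX0r]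
        congr 1
        ring
      have hP : 0 < (X : ℝ) ^ (κ' / 2) := Real.rpow_pos_of_pos hX0r _
      have hP2 : 0 < (X : ℝ) ^ ((d : ℝ) - κ' / 2) := Real.rpow_pos_of_pos hX0r _
      have hE := Real.exp_pos (4 * k : ℝ)
      rw [e1, Real.exp_neg] at hGb
      have h7 : (G.card : ℝ) * (ε / 2 * (Real.exp (4 * k : ℝ))⁻¹) ≤ (X : ℝ) ^ ((d : ℝ) - κ' / 2) / (X : ℝ) ^ (κ' / 2) := by
        have h8 : (X : ℝ) * ((G.card : ℝ) * (ε / 2 * (Real.exp (4 * k : ℝ))⁻¹)) ≤ X * ((X : ℝ) ^ ((d : ℝ) - κ' / 2) / (X : ℝ) ^ (κ' / 2)) := by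
          linarith [hGb]
        exact le_of_mul_le_mul_left h8 hX0r
      rw [le_div_iff₀ hP] at h7
      have h9 : (G.card : ℝ) * 2 ≤ (G.card : ℝ) * (ε / 2 * (Real.exp (4 * k : ℝ))⁻¹) * (X : ℝ) ^ (κ' / 2) := by
        rw [mul_assoc]
        refine mul_le_mul_of_nonneg_left ?_ (Nat.cast_nonneg _)
        have h10 : ε / 2 * (Real.exp (4 * k : ℝ))⁻¹ * (4 / ε * Real.exp (4 * k : ℝ)) = 2 := by
          field_simp
          norm_num
        calc (2 : ℝ) = ε / 2 * (Real.exp (4 * k : ℝ))⁻¹ * (4 / ε * Real.exp (4 * k : ℝ)) := h10.symm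
          _ ≤ ε / 2 * (Real.exp (4 * k : ℝ))⁻¹ * (X : ℝ) ^ (κ' / 2) := mul_le_mul_of_nonneg_left f3 (by positivity)
      linarith
    have hG3 : (X : ℝ) ^ ((d : ℝ) - κ' / 2) ≤ (X : ℝ) ^ ((d : ℝ) - min κ' 1 / 4) :=
      Real.rpow_le_rpow_of_exponent_le hX1r (by linarith)
    have hB : ((k * k * T ^ (d - 1) : ℕ) : ℝ) ≤ (X : ℝ) ^ ((d : ℝ) - min κ' 1 / 4) / 2 := by
      have h1 : ((k * k * T ^ (d - 1) : ℕ) : ℝ) ≤ k * k * ((C0 : ℝ) * X) ^ (d - 1) := by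
        push_cast
        refine mul_le_mul_of_nonneg_left ?_ (by positivity)
        exact pow_le_pow_left₀ (Nat.cast_nonneg T) (by exact_mod_cast hT) _
      have h2 : (X : ℝ) ^ (d - 1 : ℕ) = (X : ℝ) ^ ((d : ℝ) - 1) := by
        rw [← Real.rpow_natCast]
        congr 1
        push_cast [hd]
        ring
      have h3 : (X : ℝ) ^ (1 / 2 : ℝ) * (X : ℝ) ^ ((d : ℝ) - 1) ≤ (X : ℝ) ^ ((d : ℝ) - min κ' 1 / 4) := by
        rw [← Real.rpow_add hX0r]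
        exact Real.rpow_le_rpow_of_exponent_le hX1r (by linarith)
      rw [mul_pow, h2] at h1
      have h4 := mul_le_mul_of_nonneg_right f2 (Real.rpow_nonneg hX0r.le ((d : ℝ) - 1))
      linarith
    have hfin : (A.card : ℝ) ≤ ((k * k * T ^ (d - 1) : ℕ) : ℝ) + (G.card : ℝ) := by exact_mod_cast hcard
    linarith

end Pool.Agent.H9A
end

-- from Lib.H9A.N5
section

/-!
# ASY, chunk N5 (M): the asymptotic formula for all but few `t`, in windows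
-/

open Finset

namespace Pool.Agent.H9A

open Pool.Agent.H9U
open Pool.Agent.HUK (MinP TelP SysFin PK UCH)
open Pool.Agent.Lib.H68T (lp Lk PC p0)
open Pool.Agent.Lib.H18Q (gk KS SG Bc RegP)
open Pool.Agent.Lib.H59P (Ch SF bx TS Rp MX pr)

/-- counting. -/
lemma n5_card {α : Type*} (s : Finset α) (P P1 P2 : α → Prop) {_ : DecidablePred P} {_ : DecidablePred P1} {_ : DecidablePred P2}
    (h : ∀ t ∈ s, P t → P1 t ∨ P2 t) : (s.filter P).card ≤ (s.filter P1).card + (s.filter P2).card := by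
  classical
  refine (Finset.card_le_card ?_).trans (Finset.card_union_le _ _)
  intro t ht
  rw [Finset.mem_filter] at ht
  rw [Finset.mem_union, Finset.mem_filter, Finset.mem_filter]
  rcases h t ht.1 ht.2 with h1 | h1
  · exact Or.inl ⟨ht.1, h1⟩
  · exact Or.inr ⟨ht.1, h1⟩

/-- the constants. -/
lemma n5_real (ε e N L s s' lk : ℝ) (hε : 0 < ε) (he : e = min ε 1 / 16) (hL : 0 ≤ L) (hs' : 0 ≤ s') (hlk : 0 < lk)
    (h1 : |s - s'| ≤ e * s') (h2 : |N - L * s / lk| ≤ 2 * e * (L * s / lk)) :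
    |N - L * (s' / lk)| ≤ ε * (L * (s' / lk)) := by
  have he0 : 0 < e := by
    rw [he]
    have : 0 < min ε 1 := lt_min hε one_pos
    positivity
  have he1 : e ≤ 1 / 16 := by
    rw [he]
    have := min_le_right ε 1
    linarith
  have he2 : e ≤ ε / 16 := by
    rw [he]
    have := min_le_left ε 1
    linarith
  obtain ⟨c, hc⟩ : ∃ c : ℝ, c = L / lk := ⟨_, rfl⟩
  have hc0 : 0 ≤ c := by rw [hc]; positivity
  have e1 : L * s / lk = c * s := by rw [hc]; ring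
  have e2 : L * (s' / lk) = c * s' := by rw [hc]; ring
  rw [e1] at h2
  rw [e2]
  have h3 := abs_le.1 h1
  have h4 := abs_le.1 h2
  have h5 : c * s ≤ c * ((1 + e) * s') := mul_le_mul_of_nonneg_left (by linarith [h3.2]) hc0
  have h6 : c * ((1 - e) * s') ≤ c * s := mul_le_mul_of_nonneg_left (by linarith [h3.1]) hc0
  have hD : 0 ≤ c * s' := mul_nonneg hc0 hs'
  have h7 : 2 * e * (c * s) ≤ 2 * e * (c * ((1 + e) * s')) := mul_le_mul_of_nonneg_left h5 (by linarith)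
  have h8 : 2 * e * (c * ((1 + e) * s')) ≤ 3 * e * (c * s') := by
    have h9 : 2 * e * (c * ((1 + e) * s')) = (2 * e * (1 + e)) * (c * s') := by ring
    rw [h9]
    refine mul_le_mul_of_nonneg_right ?_ hD
    nlinarith
  have h10 : 4 * e * (c * s') ≤ ε * (c * s') := mul_le_mul_of_nonneg_right (by linarith) hD
  have h11 : c * ((1 + e) * s') = c * s' + e * (c * s') := by ring
  have h12 : c * ((1 - e) * s') = c * s' - e * (c * s') := by ring
  rw [h11] at h5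
  rw [h12] at h6
  rw [abs_le]
  constructor
  · linarith [h4.1]
  · linarith [h4.2]

/-- the minors are small. -/
lemma n5_minr {k d : ℕ} (S : Sys k d) (B : ℕ) (hB : ∀ i, |S.a i| ≤ (B : ℤ)) (C0 X : ℕ) (hX1 : 1 ≤ X) (hXB : 8 * B * C0 ≤ X)
    (b : Fin k → ℤ) (t : Fin d → ℤ) (hv : ∀ i, |S.val b 0 t i| ≤ 4 * (C0 : ℤ) * X) (i j : Fin k) :
    |S.minr b t i j| ≤ (X : ℤ) ^ 3 := by
  have hA0 : (0 : ℤ) ≤ B := Int.natCast_nonneg B
  have h3 : |S.minr b t i j| ≤ B * (4 * (C0 : ℤ) * X) + B * (4 * (C0 : ℤ) * X) := by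
    unfold Sys.minr
    refine (abs_sub _ _).trans (add_le_add ?_ ?_)
    · rw [abs_mul]
      exact mul_le_mul (hB i) (hv j) (abs_nonneg _) hA0
    · rw [abs_mul]
      exact mul_le_mul (hB j) (hv i) (abs_nonneg _) hA0
  have h4 : (8 * B * C0 : ℤ) ≤ X := by exact_mod_cast hXB
  have h5 : (1 : ℤ) ≤ X := by exact_mod_cast hX1
  calc |S.minr b t i j| ≤ B * (4 * (C0 : ℤ) * X) + B * (4 * (C0 : ℤ) * X) := h3
    _ = (8 * B * C0 : ℤ) * X := by ring
    _ ≤ X * X := mul_le_mul_of_nonneg_right h4 (by linarith)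
    _ ≤ (X : ℤ) ^ 3 := by nlinarith [mul_nonneg (by linarith : (0 : ℤ) ≤ X) (by linarith : (0 : ℤ) ≤ X)]

/-- the total. -/
lemma n5_total (k d C0 : ℕ) (hd : 1 ≤ d) (κa κ : ℝ) (hκ : κ = min κa (1 / 2) / 2) (X T : ℕ) (hX1 : 1 ≤ X)
    (hT : T ≤ C0 * X) (h2 : (2 : ℝ) ≤ (X : ℝ) ^ κ) (h3 : (2 * k * k * C0 ^ (d - 1) : ℝ) ≤ (X : ℝ) ^ (1 / 2 : ℝ))
    (n1 n2 n : ℕ) (hn : n ≤ n1 + n2) (hn1 : (n1 : ℝ) ≤ (X : ℝ) ^ (d - κa)) (hn2 : n2 ≤ k * k * T ^ (d - 1)) :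
    (n : ℝ) ≤ (X : ℝ) ^ (d - κ) := by
  have hX1r : (1 : ℝ) ≤ X := by exact_mod_cast hX1
  have hX0r : (0 : ℝ) < X := by linarith
  have hκ1 : 2 * κ ≤ κa := by
    rw [hκ]
    have := min_le_left κa (1 / 2)
    linarith
  have hκ2 : κ ≤ 1 / 4 := by
    rw [hκ]
    have := min_le_right κa (1 / 2)
    linarith
  have hpos : 0 < (X : ℝ) ^ (d - κ) := Real.rpow_pos_of_pos hX0r _
  have a1 : 2 * (X : ℝ) ^ (d - κa) ≤ (X : ℝ) ^ (d - κ) := by
    have b1 : (X : ℝ) ^ (d - κa) ≤ (X : ℝ) ^ ((d : ℝ) - κ - κ) :=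
      Real.rpow_le_rpow_of_exponent_le hX1r (by linarith)
    have b2 : (X : ℝ) ^ (d - κ) = (X : ℝ) ^ κ * (X : ℝ) ^ ((d : ℝ) - κ - κ) := by
      rw [← Real.rpow_add hX0r]
      congr 1
      ring
    rw [b2]
    have b3 : 0 < (X : ℝ) ^ ((d : ℝ) - κ - κ) := Real.rpow_pos_of_pos hX0r _
    calc 2 * (X : ℝ) ^ (d - κa) ≤ 2 * (X : ℝ) ^ ((d : ℝ) - κ - κ) := by linarith
      _ ≤ (X : ℝ) ^ κ * (X : ℝ) ^ ((d : ℝ) - κ - κ) := mul_le_mul_of_nonneg_right h2 b3.le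
  have a2 : 2 * (n2 : ℝ) ≤ (X : ℝ) ^ (d - κ) := by
    have b1 : (n2 : ℝ) ≤ k * k * (T : ℝ) ^ (d - 1) := by exact_mod_cast hn2
    have b2 : (T : ℝ) ≤ C0 * X := by exact_mod_cast hT
    have b3 : (T : ℝ) ^ (d - 1) ≤ (C0 : ℝ) ^ (d - 1) * (X : ℝ) ^ (d - 1) := by
      rw [← mul_pow]
      exact pow_le_pow_left₀ (Nat.cast_nonneg _) b2 _
    have b4 : (0 : ℝ) ≤ (k : ℝ) * k := by positivity
    have b5 : (X : ℝ) ^ (d - 1) = (X : ℝ) ^ ((d : ℝ) - 1) := by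
      rw [← Real.rpow_natCast, Nat.cast_sub hd, Nat.cast_one]
    have b6 : 0 ≤ (X : ℝ) ^ ((d : ℝ) - 1) := Real.rpow_nonneg hX0r.le _
    calc 2 * (n2 : ℝ) ≤ 2 * (k * k * (T : ℝ) ^ (d - 1)) := by linarith
      _ ≤ 2 * (k * k * ((C0 : ℝ) ^ (d - 1) * (X : ℝ) ^ (d - 1))) := by
          have := mul_le_mul_of_nonneg_left b3 b4
          linarith
      _ = (2 * k * k * C0 ^ (d - 1) : ℝ) * (X : ℝ) ^ ((d : ℝ) - 1) := by
          rw [b5]
          ring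
      _ ≤ (X : ℝ) ^ (1 / 2 : ℝ) * (X : ℝ) ^ ((d : ℝ) - 1) := mul_le_mul_of_nonneg_right h3 b6
      _ = (X : ℝ) ^ ((1 / 2 : ℝ) + ((d : ℝ) - 1)) := (Real.rpow_add hX0r _ _).symm
      _ ≤ (X : ℝ) ^ (d - κ) := Real.rpow_le_rpow_of_exponent_le hX1r (by linarith)
  have a3 : (n : ℝ) ≤ n1 + n2 := by exact_mod_cast hn
  linarith

/-- Proof. `ε' = min ε 1 / 16`. `N4_count` for `ε'` gives `K, E0`. `N1_level` with `C0`, `A`, `E = E0`, `K' = K` gives `Cr` and, for given `M0`, `M`, `Q`. `θ = 1/(100 (k+1) Cr)`; `κa, Xa` from `N4_count Cr θ C0`;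
`M0' = max` of `M0` and all the thresholds. For `M ≤ X ≤ M^A` all `Y` with `X ≤ Y ≤ C0 X` are admitted in `N1_level`. `Q'` from `core_level` (`H9U/CORE.lean`, as in `D34_core`): `Q' ≥ (C0 X)^θ`, `Q'^(20 (k+1)) ≤ Q`, `Q' ≤ X`, so
`Rgm K Cr θ Q Q' (Xs i)`. For `t` in the set: either `t` is in the set of `N4_count`, or a minor vanishes (`D31_minor`, at most `k² T^(d-1) ≤ X^(d-1/2)`; `MinP`), or: `NZ S b t X` (`|minr| ≤ X^3` from the values `≤ 4 C0 X` as in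
`Z4B_low`), `N6_cmp` with `ε'`, `θ` (`z = Q'`, `z' = X`) and `N5_num` with `ε'` give: the number is `(1 + O(4ε')) L Dn`, contradiction. The total is at most `X^(d-κa) + k² (C0 X)^(d-1) ≤ X^(d-κ)`, `κ = min κa 1/2 / 2`,
for `X` large. -/
theorem N5_core {k d : ℕ} (hk : 1 ≤ k) (hd : 1 ≤ d) (S : Sys k d) (ha : ∀ i, S.a i ≠ 0) (hM : MinP S) (hT : TelP S)
    (hL : LBig S) : ACore S := by
  intro C0 A hC0 hA ε hε
  obtain ⟨e, he⟩ : ∃ e : ℝ, e = min ε 1 / 16 := ⟨_, rfl⟩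
  have he0 : 0 < e := by
    rw [he]
    have : 0 < min ε 1 := lt_min hε one_pos
    positivity
  obtain ⟨K, E0, hK, hE0, HN⟩ := N4_count hk hd S ha hM hT hL e he0
  obtain ⟨Cr, hCr, HL1⟩ := N1_level C0 A hC0 hA E0 K hE0
  obtain ⟨θ, hθ⟩ : ∃ θ : ℝ, θ = 1 / (100 * ((k : ℝ) + 1) * Cr) := ⟨_, rfl⟩
  have hθ0 : 0 < θ := by rw [hθ]; positivity
  obtain ⟨κa, hκa, Xa, HNa⟩ := HN Cr θ hCr hθ0 C0
  obtain ⟨Xb, HL⟩ := core_level k C0 hC0 Cr hCr
  obtain ⟨Xc, HC⟩ := N6_cmp S ha e θ he0 hθ0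
  obtain ⟨Xd, HD⟩ := N5_num S C0 hC0 e he0
  obtain ⟨B, hB⟩ : ∃ B : ℕ, ∀ i, |S.a i| ≤ (B : ℤ) := by
    refine ⟨∑ i, (S.a i).natAbs, fun i => ?_⟩
    rw [Int.abs_eq_natAbs]
    exact_mod_cast Finset.single_le_sum (f := fun i => (S.a i).natAbs) (fun _ _ => Nat.zero_le _) (mem_univ i)
  obtain ⟨κ, hκ⟩ : ∃ κ : ℝ, κ = min κa (1 / 2) / 2 := ⟨_, rfl⟩
  have hκ0 : 0 < κ := by
    rw [hκ]
    have : 0 < min κa (1 / 2) := lt_min hκa (by norm_num)
    positivity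
  obtain ⟨Xe, He⟩ := core_large κ 2 hκ0
  obtain ⟨Xf, Hf⟩ := core_large (1 / 2) (2 * k * k * C0 ^ (d - 1)) (by norm_num)
  refine ⟨κ, hκ0, ?_⟩
  intro M0
  obtain ⟨M, Q, hMM, HM⟩ := HL1 (max (max (max M0 Xa) (max Xb Xc)) (max (max Xd Xe) (max Xf (max 2 (8 * B * C0)))))
  have m0 : max (max M0 Xa) (max Xb Xc) ≤ M := (le_max_left _ _).trans hMM
  have m1 : max (max Xd Xe) (max Xf (max 2 (8 * B * C0))) ≤ M := (le_max_right _ _).trans hMM
  have m00 : max M0 Xa ≤ M := (le_max_left _ _).trans m0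
  have m01 : max Xb Xc ≤ M := (le_max_right _ _).trans m0
  have m10 : max Xd Xe ≤ M := (le_max_left _ _).trans m1
  have m11 : max Xf (max 2 (8 * B * C0)) ≤ M := (le_max_right _ _).trans m1
  have m12 : max 2 (8 * B * C0) ≤ M := (le_max_right _ _).trans m11
  refine ⟨M, (le_max_left _ _).trans m00, ?_⟩
  intro X hMX hXM Xs hXs b L T hXL hL1 hTX hJ
  have ga : Xa ≤ X := ((le_max_right _ _).trans m00).trans hMX
  have gb : Xb ≤ X := ((le_max_left _ _).trans m01).trans hMX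
  have gc : Xc ≤ X := ((le_max_right _ _).trans m01).trans hMX
  have gd : Xd ≤ X := ((le_max_left _ _).trans m10).trans hMX
  have ge : Xe ≤ X := ((le_max_right _ _).trans m10).trans hMX
  have gf : Xf ≤ X := ((le_max_left _ _).trans m11).trans hMX
  have g2 : 2 ≤ X := ((le_max_left _ _).trans m12).trans hMX
  have gB : 8 * B * C0 ≤ X := ((le_max_right _ _).trans m12).trans hMX
  have hX1 : 1 ≤ X := by omega
  have hX1r : (1 : ℝ) ≤ X := by exact_mod_cast hX1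
  have hX0r : (0 : ℝ) < X := by linarith
  have hC1 : (1 : ℝ) ≤ C0 := by exact_mod_cast hC0
  have hXC : X ≤ C0 * X := Nat.le_mul_of_pos_left _ hC0
  have hCM : C0 * X ≤ C0 * M ^ A := Nat.mul_le_mul_left C0 hXM
  have hrange : ∀ Y : ℕ, X ≤ Y → Y ≤ C0 * X →
      RegP K Q Y ∧ Real.log Y ≤ Cr * Real.log Q ∧ MdB Q Y 1 E0 p0 (fun _ => 0) := fun Y h1 h2 =>
    HM Y (hMX.trans h1) (h2.trans hCM)
  have hlogQ : Real.log ((C0 : ℝ) * X) ≤ Cr * Real.log Q := by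
    have := (hrange (C0 * X) hXC le_rfl).2.1
    push_cast at this
    exact this
  obtain ⟨Q', hQ'1, hQ'2, hQ'3⟩ := HL X gb Q hlogQ
  rw [← hθ] at hQ'1
  have hQ'X : (X : ℝ) ^ θ ≤ Q' := by
    refine (Real.rpow_le_rpow hX0r.le ?_ hθ0.le).trans hQ'1
    nlinarith
  have hQ'one : (1 : ℝ) ≤ Q' := (Real.one_le_rpow hX1r hθ0.le).trans hQ'X
  have hQ'1n : 1 ≤ Q' := by exact_mod_cast hQ'one
  have hQ'Q : Q' ≤ Q := by
    refine le_trans ?_ hQ'2
    calc Q' = Q' ^ 1 := (pow_one _).symm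
      _ ≤ Q' ^ (20 * (k + 1)) := Nat.pow_le_pow_right hQ'1n (by omega)
  have hR : ∀ i, Rgm K Cr θ Q Q' (Xs i) := by
    intro i
    obtain ⟨h1, h2, h3⟩ := hrange (Xs i) (hXs i).1 (hXs i).2
    refine ⟨h1, h2, ?_, hQ'Q⟩
    refine le_trans ?_ hQ'1
    refine Real.rpow_le_rpow (Nat.cast_nonneg _) ?_ hθ0.le
    exact_mod_cast (hXs i).2
  have hMi : ∀ i, MdB Q (Xs i) 1 E0 p0 (fun _ => 0) := fun i => (hrange (Xs i) (hXs i).1 (hXs i).2).2.2
  have hXθX : (X : ℝ) ^ θ ≤ X := hQ'X.trans (by exact_mod_cast hQ'3)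
  have hfin := HNa Q Q' X ga Xs hXs hR hQ'2 hMi b L T hXL hL1 hTX hJ
  have hlogX : 0 < Real.log X := Real.log_pos (by exact_mod_cast g2)
  rcases Nat.eq_zero_or_pos T with hT0 | hT0
  · have hbx : bx d T = ∅ := by
      unfold bx
      rw [hT0, Finset.range_zero]
      have : Nonempty (Fin d) := ⟨⟨0, hd⟩⟩
      exact Fintype.piFinset_empty
    rw [hbx, Finset.filter_empty, Finset.card_empty, Nat.cast_zero]
    exact Real.rpow_nonneg hX0r.le _
  refine n5_total k d C0 hd κa κ hκ X T hX1 hTX (He X ge) (Hf X gf) _ _ _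
    (n5_card _ _ (fun t => S.Adm b (iv t) ∧ e * (L * SSS S b (iv t) (pr Q')) <
      |∑ n ∈ range L, ∏ i, lp (S.val b n (iv t) i) - L * SSS S b (iv t) (pr Q')|)
      (fun t => ∃ i j, i ≠ j ∧ S.minr b (iv t) i j = 0) ?_) hfin (Pool.Agent.HUK.D31_minor S hM hd b T hT0)
  intro t ht hbad
  obtain ⟨hAdm, hlt⟩ := hbad
  by_contra hcon
  push Not at hcon
  obtain ⟨hc1, hc2⟩ := hcon
  have hc3 := hc1 hAdm
  have h0L : 0 ∈ range L := mem_range.2 (by omega)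
  have hNZ : NZ S b (iv t) X := by
    intro i j hij
    refine ⟨hc2 i j hij, ?_⟩
    refine n5_minr S B hB C0 X hX1 gB b (iv t) ?_ i j
    intro i
    have h1 := hJ i 0 h0L t ht
    unfold JJ at h1
    rw [Finset.mem_Ico] at h1
    have h2 : (Xs i : ℤ) ≤ C0 * X := by exact_mod_cast (hXs i).2
    rw [Nat.cast_zero] at h1
    have h3 : (0 : ℤ) ≤ Xs i := Int.natCast_nonneg _
    have h4 : (0 : ℤ) ≤ 4 * (C0 : ℤ) * X := by positivity
    rw [abs_le]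
    constructor
    · linarith [h1.1]
    · have h5 : S.val b 0 (iv t) i ≤ 4 * Xs i := by omega
      linarith
  have hs' : 0 ≤ SSS S b (iv t) (pr X) :=
    (Real.exp_pos _).le.trans (T1S_low S b (iv t) hAdm (pr X) (Pool.Agent.Lib.H59P.c3_pr X))
  have hs : 0 ≤ SSS S b (iv t) (pr Q') :=
    (Real.exp_pos _).le.trans (T1S_low S b (iv t) hAdm (pr Q') (Pool.Agent.Lib.H59P.c3_pr Q'))
  have hcmp := HC X gc b (iv t) hAdm hNZ Q' X hQ'X hXθX hQ'3 le_rfl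
  have hnum := HD X gd Xs hXs b (iv t) L (fun i n hn => hJ i n hn t ht) (SSS S b (iv t) (pr Q')) hs hc3
  have hreal := n5_real ε e (NPr S b (iv t) 0 L) L (SSS S b (iv t) (pr Q')) (SSS S b (iv t) (pr X))
    ((Real.log X) ^ k) hε he (Nat.cast_nonneg _) hs' (by positivity) hcmp hnum
  exact absurd hlt (not_lt.2 hreal)

/-- All systems of finite complexity. -/
theorem N5_all {k d : ℕ} (hk : 1 ≤ k) (hd : 1 ≤ d) (S : Sys k d) (hS : SysFin S) (hP : PK (k + 1)) (hU : UCH (k + 1)) :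
    ACore S :=
  N5_core hk hd S hS.1 (Pool.Agent.HUK.D14_min S hS) (Pool.Agent.HUK.D2_tel S hS hP) (Pool.Agent.HUK.D48_LB S hS hU)

end Pool.Agent.H9A
end

-- from Lib.H9P.FinP
section

/-!
# ASYP: the core statement for all data
-/

open Finset Polynomial

namespace Pool.Agent.H9P

open Pool.Agent.HUP
open Pool.Agent.H9A (ACore N5_all)
open Pool.Agent.H96U (gsys fin_gsys)
open Pool.Agent.HUK (DFIN_fin2 FIN_PK UCH_all)

/-- **The core statement for all data with positive leading coefficients.** -/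
theorem acore_all {k d : ℕ} (c : Fin k → Fin d → ℤ) (e : Fin d → ℕ) (P : Fin k → ℤ[X])
    (hD : Dat c e (fun i => (P i).natDegree) (fun i => (P i).leadingCoeff)) (ha : ∀ i, 0 < (P i).leadingCoeff) :
    ACoreP c e (fun i => (P i).natDegree) P := by
  have hF : FMT c e (fun i => (P i).natDegree) (fun i => (P i).leadingCoeff) :=
    FMT_of c e _ _ hD fun D q r h1 h2 => Pool.Agent.HPP.C8_Z D q h1 r h2
  exact U16_core c e _ _ (FGTU_of hD hF) (S4TU_of c e _ _ hD hF Pool.Agent.HUK.FIN_PK) hD.par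
    (fun i j h => hD.blk i j h) hD.deg ha P (fun i => ⟨rfl, rfl⟩)

/-- **The core statement for linear polynomials**, arbitrarily large scales. -/
theorem acore_lin {g d : ℕ} (hd : 1 ≤ d) (f : Fin g → ℤ) (hf : ∀ i, 0 < f i) (c : Fin g → Fin d → ℤ)
    (h0 : ∀ i, c i ≠ 0) (hc : ∀ i j, i ≠ j → f i • c j ≠ f j • c i) (γ : ℕ) (hγ : 0 < γ) : ACore (gsys γ f c) :=
  N5_all (k := g + 1) (by omega) hd (gsys γ f c) (DFIN_fin2 _ (fin_gsys γ (by exact_mod_cast hγ) f hf c h0 hc))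
    (FIN_PK _ (by omega)) (UCH_all _ (by omega))

end Pool.Agent.H9P
end
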